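import Pool.Agent.W_7d29a1_C1.KdR78

/-!
MP_7d29a1_pr, [C1], SHELL: THE KERNELS OF THE INSIDE FROM ONE LEVEL EVENT (helper35). `krn1` : one event `Far16` (scale `Tt`, `N ≤ Tt` rows,
level `q`) gives the kernel from every row `r` of the slab to every row `r + n` of the slab: `nk1` = pointwise, normalised, no single
weights (upper bound for all `n`, lower bound for `θ Tt ≤ n`), `nk1b` = the same with a small slope, `kd1` = `KD` of the real kernel,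
`krn1` = `Krn` (`krn78` with one slab). `cen35` : the sites next to the line of a base point.
-/

set_option autoImplicit false

namespace Pool.Agent.W_7d29a1_C1.FreK35

open MeasureTheory ProbabilityTheory Filter Topology Finset
open Pool.Agent.W_7d29a1_F Pool.Agent.W_7d29a1_h4g Pool.Agent.W_7d29a1_H Pool.Agent.W_7d29a1_HS
open Pool.Agent.W_7d29a1_C1 Pool.Agent.W_7d29a1_C1.H75 Pool.Agent.W_7d29a1_C1.U16 Pool.Agent.W_7d29a1_C1.FarK89 Pool.Agent.W_7d29a1_C1.FarW89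
open Pool.Agent.W_7d29a1_C1.K91 (wt wt_pos)
open Pool.Agent.W_7d29a1_C1.X21 (dc KD)
open Pool.Agent.W_7d29a1_C1.K78 (Wl krn78 krnS kd78)

noncomputable section

/-- The site of the row `r` next to the line through `κ`. -/
def cen35 (μ : Measure ℝ) (s : ℝ) (κ : Pt) (r : ℕ) : ℤ := κ.2 + ⌊sl μ s * (((r : ℤ) - κ.1 : ℤ) : ℝ)⌋

theorem lat_cen (μ : Measure ℝ) (s : ℝ) (κ : Pt) (r : ℕ) : |lat16 μ s κ ((r : ℤ), cen35 μ s κ r)| ≤ 1 := by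
  have h1 := Int.floor_le (sl μ s * (((r : ℤ) - κ.1 : ℤ) : ℝ))
  have h2 := Int.lt_floor_add_one (sl μ s * (((r : ℤ) - κ.1 : ℤ) : ℝ))
  unfold lat16 cen35
  have e : ((κ.2 + ⌊sl μ s * (((r : ℤ) - κ.1 : ℤ) : ℝ)⌋ - κ.2 : ℤ) : ℝ) = (⌊sl μ s * (((r : ℤ) - κ.1 : ℤ) : ℝ)⌋ : ℝ) := by
    push_cast
    ring
  rw [e, abs_le]
  constructor <;> linarith

variable {μ : Measure ℝ} {s : ℝ} [IsProbabilityMeasure μ] {c C : ℝ} {n₀ : ℕ}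

/-- The cost of one slab. -/
def Q35 (P : ℕ) (q : ℝ) : ℝ := (1 + q) ^ 2 * gr (2 * P) 2

theorem Q35_nonneg (P : ℕ) (q : ℝ) : 0 ≤ Q35 P q := mul_nonneg (sq_nonneg _) (gr_nonneg _ (by norm_num))

/-- One slab. -/
theorem slab1 {P : ℕ} {θ K h q : ℝ} {η : Env} {κ b : Pt} {Tt N n₁ : ℕ} (hK : 3 ≤ K) (hq : 0 ≤ q) (hT : n₁ ≤ Tt) (hNT : N ≤ Tt)
    (hη : η ∈ Far16 μ s c θ K Tt N P b q) (hb : |lat16 μ s κ b| ≤ wd μ s Tt) (hh : |h| * wd μ s Tt ≤ c / 8 * EE μ s Tt)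
    (hw : 0 < wd μ s Tt) {r n : ℕ} (hr1 : b.1 ≤ r) (hr2 : (r : ℤ) + n ≤ b.1 + N) :
    Slabs μ s c θ K h P η κ (fun u => if u = 0 then r else r + n) (fun _ => Tt) (fun _ => N) (fun _ => q) (fun _ => b) 0 1 Tt n₁
      (Q35 P q) :=
  { q0 := fun _ _ _ => hq
    K3 := hK
    Tt1 := hT
    T1 := fun _ _ _ => hT
    TT := fun _ _ _ => le_rfl
    NT := fun _ _ _ => hNT
    rr := fun u _ hu => by
      have : u = 0 := by omega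
      subst this
      simp
    b1 := fun u _ hu => by
      have : u = 0 := by omega
      subst this
      simpa using hr1
    b2 := fun u _ hu => by
      have : u = 0 := by omega
      subst this
      simpa using hr2
    b3 := fun _ _ _ => hb
    far := fun _ _ _ => hη
    cost := by
      rw [Nat.Ico_zero_eq_range, sum_range_one]
      have e : 2 * wd μ s Tt / wd μ s Tt = 2 := by field_simp
      rw [e]
      exact le_rfl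
    force := hh }

/-- **THE NORMALISED KERNELS FROM ONE LEVEL EVENT**, pointwise. -/
theorem nk1 (h0 : In μ s c C n₀) (P : ℕ) {θ K : ℝ} (hK : 4 ≤ K) (hθ : 0 < θ) : ∃ C₅ C₆ : ℝ, 0 < C₅ ∧ 0 < C₆ ∧ ∃ n₁ : ℕ, 1 ≤ n₁ ∧
    ∀ {h q : ℝ} {η : Env} {p : ℕ → ℝ} {M : ℕ} {κ b : Pt} {Tt N : ℕ}, 0 ≤ q → n₁ ≤ Tt → N ≤ Tt →
    (∀ k, k < M → p k = Real.exp (s + h)) → (∀ k, M ≤ k → p k = Real.exp s) → η ∈ Far16 μ s c θ K Tt N P b q →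
    |lat16 μ s κ b| ≤ wd μ s Tt → |h| * wd μ s Tt ≤ c / 8 * EE μ s Tt →
    ∀ (r n : ℕ), b.1 ≤ r → (r : ℤ) + n ≤ b.1 + N →
    (∀ x y : ℤ, nk μ s h η p M r n x y ≤
      Real.exp ((LQ (2 * P) (c / 8) (C₅ * Q35 P q) * gr (2 * P) (|lat16 μ s κ ((r : ℤ), x)| / wd μ s Tt) + Q35 P q) * EE μ s Tt -
        hc μ s c Tt / 8 * |((y - x : ℤ) : ℝ) - sl μ s * n|)) ∧
    (θ * Tt ≤ n → ∀ (ρ : ℝ) (x y : ℤ), |lat16 μ s κ ((r : ℤ), x) - ρ| ≤ (K - 2) / 2 * wd μ s Tt - 1 →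
      |lat16 μ s κ (((r + n : ℕ) : ℤ), y) - ρ| ≤ (K - 2) / 2 * wd μ s Tt - 1 →
      Real.exp (-(C₆ * Q35 P q * gr (2 * P) (|ρ| / wd μ s Tt + K) * EE μ s Tt)) ≤ nk μ s h η p M r n x y) := by
  obtain ⟨C₅, hC₅, m₁, hm₁, Hup⟩ := far_up h0 P
  obtain ⟨C₆, hC₆, m₂, hm₂, Hlo⟩ := far_low89 h0 P hK hθ
  obtain ⟨m₃, hm₃⟩ := eventually_atTop.1 ((wd_tendsto h0).eventually_ge_atTop 1)
  refine ⟨C₅, C₆, hC₅, hC₆, max m₁ (max m₂ m₃), hm₁.trans (le_max_left _ _), ?_⟩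
  intro h q η p M κ b Tt N hq hT hNT hp hp' hη hb hh r n hr1 hr2
  have hw := hm₃ Tt (((le_max_right _ _).trans (le_max_right _ _)).trans hT)
  have s1 := slab1 (μ := μ) (s := s) (c := c) (θ := θ) (P := P) (show 3 ≤ K by linarith) hq ((le_max_left _ _).trans hT) hNT hη hb hh
    (by linarith) hr1 hr2
  have s2 := slab1 (μ := μ) (s := s) (c := c) (θ := θ) (P := P) (show 3 ≤ K by linarith) hq
    (((le_max_left _ _).trans (le_max_right _ _)).trans hT) hNT hη hb hh (by linarith) hr1 hr2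
  have e1 : r + n - r = n := by omega
  refine ⟨fun x y => ?_, fun hθn ρ x y hx hy => ?_⟩
  · have h1 := Hup (a := 0) (b := 1) zero_le_one hp hp' s1 x y
    simpa [lt, e1] using h1
  · have h1 := Hlo (a := 0) (b := 1) one_pos hp hp' s2 (fun u _ hu => by
      have : u = 0 := by omega
      subst this
      simpa using hθn) ρ x y (by simpa [lt] using hx) (by simpa [lt] using hy)
    simpa [lt, e1] using h1

/-- **The same with a small slope** `β`. -/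
theorem nk1b (h0 : In μ s c C n₀) (P : ℕ) {θ K : ℝ} (hK : 4 ≤ K) (hθ : 0 < θ) : ∃ n₁ : ℕ, 1 ≤ n₁ ∧ ∀ q β R : ℝ, 0 ≤ q → 0 < β → 0 ≤ R →
    ∃ U : ℝ, 0 < U ∧
    ∀ {h : ℝ} {η : Env} {p : ℕ → ℝ} {M : ℕ} {κ b : Pt} {Tt N : ℕ}, n₁ ≤ Tt → N ≤ Tt →
    (∀ k, k < M → p k = Real.exp (s + h)) → (∀ k, M ≤ k → p k = Real.exp s) → η ∈ Far16 μ s c θ K Tt N P b q →
    |lat16 μ s κ b| ≤ wd μ s Tt → |h| * wd μ s Tt ≤ c / 8 * EE μ s Tt →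
    ∀ (r n : ℕ), b.1 ≤ r → (r : ℤ) + n ≤ b.1 + N →
    (∀ x y : ℤ, nk μ s h η p M r n x y ≤
      Real.exp ((U + β * (|lat16 μ s κ ((r : ℤ), x)| / wd μ s Tt) - c / 8 * (|((y - x : ℤ) : ℝ) - sl μ s * n| / wd μ s Tt)) * EE μ s Tt)) ∧
    (θ * Tt ≤ n → ∀ (ρ : ℝ) (x y : ℤ), |ρ| ≤ R * wd μ s Tt → |lat16 μ s κ ((r : ℤ), x) - ρ| ≤ (K - 2) / 2 * wd μ s Tt - 1 →
      |lat16 μ s κ (((r + n : ℕ) : ℤ), y) - ρ| ≤ (K - 2) / 2 * wd μ s Tt - 1 → Real.exp (-(U * EE μ s Tt)) ≤ nk μ s h η p M r n x y) := by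
  obtain ⟨C₅, C₆, hC₅, hC₆, n₁, hn₁, H⟩ := nk1 h0 P hK hθ
  obtain ⟨m₃, hm₃⟩ := eventually_atTop.1 ((wd_tendsto h0).eventually_ge_atTop 1)
  refine ⟨max n₁ m₃, hn₁.trans (le_max_left _ _), fun q β R hq hβ hR => ?_⟩
  have hQ := Q35_nonneg P q
  have hΛ : 0 ≤ LQ (2 * P) (c / 8) (C₅ * Q35 P q) := LQ_nonneg _ (by positivity)
  obtain ⟨C₁, hC₁, hpay⟩ := K78.lev_pay (2 * P) hΛ hβ
  have hg : 0 ≤ gr (2 * P) (R + K) := gr_nonneg _ (by linarith)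
  refine ⟨C₁ + Q35 P q + C₆ * Q35 P q * gr (2 * P) (R + K), by positivity, ?_⟩
  intro h η p M κ b Tt N hT hNT hp hp' hη hb hh r n hr1 hr2
  have hw := hm₃ Tt ((le_max_right _ _).trans hT)
  have hw0 : 0 < wd μ s Tt := by linarith
  have hE := EE_pos (μ := μ) (s := s) Tt
  obtain ⟨k1, k2⟩ := H hq ((le_max_left _ _).trans hT) hNT hp hp' hη hb hh r n hr1 hr2
  refine ⟨fun x y => ?_, fun hθn ρ x y hρ hx hy => ?_⟩
  · refine (k1 x y).trans (Real.exp_le_exp.2 ?_)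
    obtain ⟨X, hX⟩ : ∃ X, X = |lat16 μ s κ ((r : ℤ), x)| / wd μ s Tt := ⟨_, rfl⟩
    have hX0 : 0 ≤ X := by rw [hX]; positivity
    rw [← hX]
    have h1 := gr_mono (2 * P) hX0 (show X ≤ X + 1 by linarith)
    have h2 := (mul_le_mul_of_nonneg_left h1 hΛ).trans (hpay X hX0)
    have h3 := mul_le_mul_of_nonneg_right h2 hE.le
    have e1 : hc μ s c Tt / 8 * |((y - x : ℤ) : ℝ) - sl μ s * n| =
        c / 8 * (|((y - x : ℤ) : ℝ) - sl μ s * n| / wd μ s Tt) * EE μ s Tt := by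
      unfold hc
      field_simp
    rw [e1]
    have h4 : 0 ≤ C₆ * Q35 P q * gr (2 * P) (R + K) * EE μ s Tt := by positivity
    nlinarith
  · refine le_trans (Real.exp_le_exp.2 ?_) (k2 hθn ρ x y hx hy)
    have h1 : |ρ| / wd μ s Tt ≤ R := by rwa [div_le_iff₀ hw0]
    have h2 := gr_mono (2 * P) (show 0 ≤ |ρ| / wd μ s Tt + K by positivity) (show |ρ| / wd μ s Tt + K ≤ R + K by linarith)
    have h3 := mul_le_mul_of_nonneg_left h2 (show 0 ≤ C₆ * Q35 P q by positivity)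
    have h4 := mul_le_mul_of_nonneg_right h3 hE.le
    have h5 : 0 ≤ (C₁ + Q35 P q) * EE μ s Tt := by positivity
    have e2 : (C₁ + Q35 P q + C₆ * Q35 P q * gr (2 * P) (R + K)) * EE μ s Tt = (C₁ + Q35 P q) * EE μ s Tt +
        C₆ * Q35 P q * gr (2 * P) (R + K) * EE μ s Tt := by ring
    rw [e2]
    linarith

/-- **THE REAL KERNELS FROM ONE LEVEL EVENT**, pointwise (`KD`). -/
theorem kd1 (h0 : In μ s c C n₀) (P : ℕ) {θ K : ℝ} (hK : 4 ≤ K) (hθ : 0 < θ) : ∃ C₆ : ℝ, 0 < C₆ ∧ ∀ q b₁ : ℝ, 0 ≤ q → 0 < b₁ →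
    ∃ C₁ : ℝ, 0 < C₁ ∧ ∃ n₁ : ℕ, 1 ≤ n₁ ∧
    ∀ {h : ℝ} {η : Env} {p : ℕ → ℝ} {M : ℕ} {κ b : Pt} {Tt N : ℕ}, n₁ ≤ Tt → N ≤ Tt →
    (∀ k, k < M → p k = Real.exp (s + h)) → (∀ k, M ≤ k → p k = Real.exp s) → η ∈ Far16 μ s c θ K Tt N P b q →
    |lat16 μ s κ b| ≤ wd μ s Tt → |h| * wd μ s Tt ≤ c / 8 * EE μ s Tt →
    ∀ (r n : ℕ), b.1 ≤ r → (r : ℤ) + n ≤ b.1 + N → θ * Tt ≤ n →
    ∀ (cen : ℕ → ℤ) (lo H : ℤ) (u₀ : ℝ), 0 ≤ u₀ → |lat16 μ s κ ((r : ℤ), cen r)| ≤ 1 →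
    |lat16 μ s κ (((r + n : ℕ) : ℤ), cen (r + n))| ≤ 1 →
    Wl η cen r lo H (u₀ * EE μ s Tt) (b₁ * (EE μ s Tt / wd μ s Tt)) →
    Wl η cen (r + n) lo (H + n) (u₀ * EE μ s Tt) (b₁ * (EE μ s Tt / wd μ s Tt)) →
    (∀ x, dc cen r x ≤ (K - 2) / 2 * wd μ s Tt - 2 → lo ≤ x ∧ x ≤ H) →
    (∀ y, dc cen (r + n) y ≤ (K - 2) / 2 * wd μ s Tt - 2 → lo ≤ y ∧ y ≤ H + n) →
    KD (wt η) p cen lo H r n (Real.exp (n * lam μ s + h * sl μ s * bl M r n))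
      ((C₁ + Q35 P q + 1 + 2 * u₀) * EE μ s Tt) ((C₆ * Q35 P q * gr (2 * P) K + 2 * u₀ + 4 * b₁ * K) * EE μ s Tt)
      (3 * b₁ * (EE μ s Tt / wd μ s Tt)) (hc μ s c Tt / 8 - b₁ * (EE μ s Tt / wd μ s Tt))
      ((K - 2) / 2 * wd μ s Tt - 2) ((K - 2) / 2 * wd μ s Tt - 2) := by
  obtain ⟨C₆, hC₆, H1⟩ := kd78 h0 P hK hθ
  obtain ⟨n₂, H2⟩ := eventually_atTop.1 ((wd_tendsto h0).eventually_ge_atTop 1)
  refine ⟨C₆, hC₆, fun q b₁ hq hb₁ => ?_⟩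
  obtain ⟨C₁, hC₁, n₁, hn₁, H3⟩ := H1 (Q35 P q) b₁ (Q35_nonneg P q) hb₁
  refine ⟨C₁, hC₁, max n₁ n₂, hn₁.trans (le_max_left _ _), ?_⟩
  intro h η p M κ b Tt N hT hNT hp hp' hη hb hh r n hr1 hr2 hθn cen lo H u₀ hu₀ hc1 hc2 hW1 hW2 hB1 hB2
  have hw := H2 Tt ((le_max_right _ _).trans hT)
  have hsl := slab1 (μ := μ) (s := s) (c := c) (θ := θ) (P := P) (show 3 ≤ K by linarith) hq ((le_max_left _ _).trans hT) hNT hη hb hh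
    (by linarith) hr1 hr2
  have key := H3 (a := 0) (b := 1) (h := h) (η := η) (p := p) (M := M) (κ := κ) (Tt := Tt) one_pos hp hp' hsl (fun u _ hu => by
      have : u = 0 := by omega
      subst this
      simpa using hθn) cen lo H n u₀ hu₀ (by simp) (by simpa using hc1) (by simpa using hc2) (by simpa using hW1) (by simpa using hW2)
      (by simpa using hB1) (by simpa using hB2)
  simpa using key

/-- **THE KERNELS FROM ONE LEVEL EVENT.** -/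
theorem krn1 (h0 : In μ s c C n₀) (P : ℕ) {θ K : ℝ} (hK : 4 ≤ K) (hθ : 0 < θ) : ∃ C₆ : ℝ, 0 < C₆ ∧ ∀ q b₁ : ℝ, 0 ≤ q → 0 < b₁ →
    ∃ C₁ : ℝ, 0 < C₁ ∧ ∃ n₁ : ℕ, 1 ≤ n₁ ∧
    ∀ {h : ℝ} {η : Env} {p : ℕ → ℝ} {M : ℕ} {κ b : Pt} {Tt N : ℕ}, n₁ ≤ Tt → N ≤ Tt →
    (∀ k, k < M → p k = Real.exp (s + h)) → (∀ k, M ≤ k → p k = Real.exp s) → η ∈ Far16 μ s c θ K Tt N P b q →
    |lat16 μ s κ b| ≤ wd μ s Tt → |h| * wd μ s Tt ≤ c / 8 * EE μ s Tt →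
    ∀ (r n : ℕ), b.1 ≤ r → (r : ℤ) + n ≤ b.1 + N → θ * Tt ≤ n →
    ∀ (cen : ℕ → ℤ) (lo H : ℤ) (u₀ : ℝ), 0 ≤ u₀ → |lat16 μ s κ ((r : ℤ), cen r)| ≤ 1 →
    |lat16 μ s κ (((r + n : ℕ) : ℤ), cen (r + n))| ≤ 1 →
    Wl η cen r lo H (u₀ * EE μ s Tt) (b₁ * (EE μ s Tt / wd μ s Tt)) →
    Wl η cen (r + n) lo (H + n) (u₀ * EE μ s Tt) (b₁ * (EE μ s Tt / wd μ s Tt)) →
    (∀ x, dc cen r x ≤ (K - 2) / 2 * wd μ s Tt - 2 → lo ≤ x ∧ x ≤ H) →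
    (∀ y, dc cen (r + n) y ≤ (K - 2) / 2 * wd μ s Tt - 2 → lo ≤ y ∧ y ≤ H + n) →
    ∀ (σ ρ L₁ : ℝ), 0 ≤ σ → b₁ + σ ≤ c / 8 → (n : ℝ) + 1 ≤ Real.exp (EE μ s Tt) →
    C₁ + Q35 P q + 2 + 2 * u₀ + (3 * b₁ + σ) * ρ ≤ L₁ →
    C₆ * Q35 P q * gr (2 * P) K + 2 * u₀ + 4 * b₁ * K ≤ L₁ →
    ∀ (S T' c' d' : Finset ℤ), (∀ y ∈ S, lo ≤ y ∧ y ≤ H) → (∀ y ∈ c', dc cen r y ≤ (K - 2) / 2 * wd μ s Tt - 2) →
    (∃ x ∈ d', dc cen (r + n) x ≤ (K - 2) / 2 * wd μ s Tt - 2) →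
    S83.Krn S T' c' d' (R26P.kf (wt η) p r n) (fun y => Real.exp ((3 * b₁ + σ) * (EE μ s Tt / wd μ s Tt) * (dc cen r y - ρ * wd μ s Tt)))
      (fun x => Real.exp (σ * (EE μ s Tt / wd μ s Tt) * dc cen (r + n) x)) (Real.exp (L₁ * EE μ s Tt))
      (Real.exp (n * lam μ s + h * sl μ s * bl M r n)) ∧
    Sh21.Krn S T' c' d' (R26P.kf (wt η) p r n) (fun y => Real.exp ((3 * b₁ + σ) * (EE μ s Tt / wd μ s Tt) * (dc cen r y - ρ * wd μ s Tt)))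
      (fun x => Real.exp (σ * (EE μ s Tt / wd μ s Tt) * dc cen (r + n) x)) (Real.exp (L₁ * EE μ s Tt))
      (Real.exp (n * lam μ s + h * sl μ s * bl M r n)) := by
  obtain ⟨C₆, hC₆, H1⟩ := krn78 h0 P hK hθ
  obtain ⟨n₂, H2⟩ := eventually_atTop.1 ((wd_tendsto h0).eventually_ge_atTop 1)
  refine ⟨C₆, hC₆, fun q b₁ hq hb₁ => ?_⟩
  obtain ⟨C₁, hC₁, n₁, hn₁, H3⟩ := H1 (Q35 P q) b₁ (Q35_nonneg P q) hb₁
  refine ⟨C₁, hC₁, max n₁ n₂, hn₁.trans (le_max_left _ _), ?_⟩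
  intro h η p M κ b Tt N hT hNT hp hp' hη hb hh r n hr1 hr2 hθn cen lo H u₀ hu₀ hc1 hc2 hW1 hW2 hB1 hB2 σ ρ L₁ hσ hσc hn hL1 hL2
    S T' c' d' hS hc' hd'
  have hw := H2 Tt ((le_max_right _ _).trans hT)
  have hsl := slab1 (μ := μ) (s := s) (c := c) (θ := θ) (P := P) (show 3 ≤ K by linarith) hq ((le_max_left _ _).trans hT) hNT hη hb hh
    (by linarith) hr1 hr2
  have key := H3 (a := 0) (b := 1) (h := h) (η := η) (p := p) (M := M) (κ := κ) (Tt := Tt) one_pos hp hp' hsl (fun u _ hu => by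
      have : u = 0 := by omega
      subst this
      simpa using hθn) cen lo H n u₀ hu₀ (by simp) (by simpa using hc1) (by simpa using hc2) (by simpa using hW1) (by simpa using hW2)
      (by simpa using hB1) (by simpa using hB2) σ ρ L₁ hσ hσc hn hL1 hL2 S T' c' d' hS (by simpa using hc') (by simpa using hd')
  simp only [if_true] at key
  exact krnS key

end

end Pool.Agent.W_7d29a1_C1.FreK35
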