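import Pool.Agent.W_7d29a1_C1.Shl31
import Pool.Agent.W_7d29a1_C1.Trf77

/-!
MP_7d29a1_pr, attractor route [C1], SHELL, junction `uncovered => D`: the data of the block with TWO WINDOWS. (helper31)

`DW31`: `W₁` = window of the cross ratio (its ends `yl`, `yr`), `W₁'` = window of the starts of the two lanes, tameness `q₁`; `W₂` = window
of the far routes, tameness `q₂`. `dw_shell`: from the far masses at rows above the ball (shell by shell), `stay` from the two edge rows,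
few early meetings, losses (`Lc31`) and tameness.
-/

set_option autoImplicit false

namespace Pool.Agent.W_7d29a1_C1.D31

open Finset
open Pool.Agent.W_7d29a1_C1.K91 (Grp Box)
open Pool.Agent.W_7d29a1_C1.K91P
open Pool.Agent.W_7d29a1_C1.U31 (sum_fw_bw ms ms_nonneg cross_log)
open Pool.Agent.W_7d29a1_C1.U16 (ker fw_ker bw_ker ker_nonneg ker_eq_zero)

noncomputable section

/-- **The data of the block with two windows.** -/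
structure DW31 (I : Finset ℤ) (cen cen' W₁ W₁' W₂ : ℝ) (kap : ℤ → ℤ → ℝ) (yl yr yp : ℤ) (g q₁ q₂ gf : ℝ) (L R F : ℤ → ℝ) : Prop where
  dp : DP31 I cen cen' W₂ kap yl yr yp g q₂ gf L R F
  yl1 : |(yl : ℝ) - cen| ≤ W₁
  yr1 : |(yr : ℝ) - cen| ≤ W₁
  yp1 : |(yp : ℝ) - cen'| ≤ W₁
  t1L : ∀ x x' : ℤ, |(x : ℝ) - cen| ≤ W₁' → |(x' : ℝ) - cen| ≤ W₁' → L x ≤ Real.exp q₁ * L x'
  t1R : ∀ x x' : ℤ, |(x : ℝ) - cen| ≤ W₁' → |(x' : ℝ) - cen| ≤ W₁' → R x ≤ Real.exp q₁ * R x'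

variable {w : ℕ → ℤ → ℝ} {p : ℕ → ℝ} {l r m : ℤ → ℝ} {X lo hi : ℤ} {N : ℕ}

/-- The mass of a shell at an edge row from the far mass at a later row. -/
theorem shell_down (hw : ∀ k y, 0 < w k y) (hp : ∀ k, 0 < p k) (hm : ∀ y, 0 ≤ m y) (hlo : ∀ y, y < lo → m y = 0)
    (hhi : ∀ y, hi - N < y → m y = 0) {i n : ℕ} (hin : i + n ≤ N) {cen : ℝ} {Wd : ℕ → ℝ} {L j : ℕ} {A : Finset ℤ} {κ Z : ℝ}
    (hstay : ∀ x ∈ Icc lo hi, x ≤ hi - N + i → InS Wd L j ((x : ℝ) - cen) →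
      ∑ v ∈ Icc lo hi \ A, ker w p i n x v * bw w p (i + n) (N - (i + n)) v ≤ 1 / 2 * bw w p i (N - i) x)
    (hA : ms w p N m (i + n) A ≤ Real.exp (-κ) * Z) (hZ : 0 ≤ Z) :
    ms w p N m i (Sh (Icc lo hi) (fun x => (x : ℝ) - cen) Wd L j) ≤ Real.exp (-(κ - 1)) * Z := by
  classical
  have h1 := H77.down77 hw hp hm hlo hhi hin (A := Sh (Icc lo hi) (fun x => (x : ℝ) - cen) Wd L j) (B := Icc lo hi \ A)
    (fun x hx _ h2 => by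
      unfold Sh at hx
      rw [mem_filter] at hx
      exact hstay x hx.1 h2 hx.2)
  have h0 : ms w p N m (i + n) (Icc lo hi \ (Icc lo hi \ A)) ≤ ms w p N m (i + n) A := by
    refine ms_mono hw hp hm _ fun x hx => ?_
    rw [mem_sdiff, mem_sdiff] at hx
    by_contra hcon
    exact hx.2 ⟨hx.1, hcon⟩
  replace h1 := h1.trans (mul_le_mul_of_nonneg_left h0 (by norm_num))
  refine h1.trans ((mul_le_mul_of_nonneg_left hA (by norm_num)).trans ?_)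
  have h2 : 2 * Real.exp (-κ) ≤ Real.exp (-(κ - 1)) := by
    have h3 : Real.exp (-(κ - 1)) = Real.exp 1 * Real.exp (-κ) := by
      rw [← Real.exp_add]
      congr 1
      ring
    rw [h3]
    refine mul_le_mul_of_nonneg_right ?_ (Real.exp_pos _).le
    have := Real.add_one_le_exp (1 : ℝ)
    linarith
  calc 2 * (Real.exp (-κ) * Z) = 2 * Real.exp (-κ) * Z := by ring
    _ ≤ _ := mul_le_mul_of_nonneg_right h2 hZ

/-- **`uncovered` gives the data of the block, two windows.** `nn j` = number of rows from the lower edge row `i` to the row of the far mass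
of the shell `j`, `A j` = its far places. -/
theorem dw_shell (hw : ∀ k y, 0 < w k y) (hp : ∀ k, 0 < p k) (h : Box l r X lo hi N) {i n : ℕ} (hin : i + n ≤ N) {k kap : ℤ → ℤ → ℝ}
    {G : ℤ → ℝ} {N₀ : ℝ} (hN₀ : 0 < N₀) (hG0 : ∀ z, 0 ≤ G z) (hk : ∀ x z, 0 ≤ k x z)
    (hG : ∀ x z, ker w p i n x z * bw w p (i + n) (N - (i + n)) z = N₀ * (k x z * G z))
    {cen cen' : ℝ} {Wd : ℕ → ℝ} {l₁ l₂ L : ℕ} (h12 : l₁ ≤ l₂) (hl : l₂ ≤ L) {cK σ : ℝ} (hσ : σ ≤ cK) (hkap0 : ∀ x z, 0 ≤ kap x z)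
    {B κ : ℕ → ℝ} (hB0 : ∀ l, 0 ≤ B l)
    -- losses
    (hs : Lc31 (Icc lo hi) (fun x => (x : ℝ) - cen) (fun z => (z : ℝ) - cen') Wd l₂ L k kap G cK σ B)
    (heL : Lc31 (Icc lo hi) (fun z => (z : ℝ) - cen') (fun x => (x : ℝ) - cen) Wd l₂ L (fun z x => k x z) (fun z x => kap x z)
      (fw w p l i) cK σ B)
    (heR : Lc31 (Icc lo hi) (fun z => (z : ℝ) - cen') (fun x => (x : ℝ) - cen) Wd l₂ L (fun z x => k x z) (fun z x => kap x z)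
      (fw w p r i) cK σ B)
    -- stay and far masses
    {nn : ℕ → ℕ} {A : ℕ → Finset ℤ} (hn1 : ∀ j, l₁ ≤ j → j ≤ L → n ≤ nn j) (hn2 : ∀ j, l₁ ≤ j → j ≤ L → i + nn j ≤ N)
    (hsi : ∀ j, l₁ ≤ j → j ≤ L → ∀ x ∈ Icc lo hi, x ≤ hi - N + i → InS Wd L j ((x : ℝ) - cen) →
      ∑ v ∈ Icc lo hi \ A j, ker w p i (nn j) x v * bw w p (i + nn j) (N - (i + nn j)) v ≤ 1 / 2 * bw w p i (N - i) x)
    (hsn : ∀ j, l₁ ≤ j → j ≤ L → ∀ z ∈ Icc lo hi, z ≤ hi - N + (i + n : ℕ) → InS Wd L j ((z : ℝ) - cen') →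
      ∑ v ∈ Icc lo hi \ A j, ker w p (i + n) (nn j - n) z v * bw w p (i + n + (nn j - n)) (N - (i + n + (nn j - n))) v ≤
        1 / 2 * bw w p (i + n) (N - (i + n)) z)
    (hfL : ∀ j, l₁ ≤ j → j ≤ L → ms w p N l (i + nn j) (A j) ≤ Real.exp (-κ j) * ∑ x ∈ Icc lo hi, l x * bw w p 0 N x)
    (hfR : ∀ j, l₁ ≤ j → j ≤ L → ms w p N r (i + nn j) (A j) ≤ Real.exp (-κ j) * ∑ x ∈ Icc lo hi, r x * bw w p 0 N x)
    {yl yr yp : ℤ} {q₁ q₂ u₀ g₁ gf κ₀ W₁' : ℝ} (hBκ : ∀ j, l₂ ≤ j → j ≤ L → B j + g₁ + 1 ≤ κ j)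
    (hκ₀ : ∀ j, l₁ ≤ j → j ≤ L → κ₀ + Real.log (L + 1) + 1 ≤ κ j)
    -- the windows
    (hW : Wd l₁ ≤ Wd l₂) (hy1 : lo ≤ yl) (hy : yl ≤ yr) (hy2 : yr ≤ hi) (hyW : ∀ x : ℤ, |(x : ℝ) - cen| ≤ Wd l₁ → yl ≤ x ∧ x ≤ yr)
    (hyl : |(yl : ℝ) - cen| ≤ Wd l₁) (hyr : |(yr : ℝ) - cen| ≤ Wd l₁) (hyp : |(yp : ℝ) - cen'| ≤ Wd l₁)
    (hl1 : 0 < fw w p l i yl) (hl2 : 0 < fw w p l i yr) (hr1 : 0 < fw w p r i yl) (hr2 : 0 < fw w p r i yr) (hGp : 0 < G yp)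
    (t1L : ∀ x x' : ℤ, |(x : ℝ) - cen| ≤ W₁' → |(x' : ℝ) - cen| ≤ W₁' → fw w p l i x ≤ Real.exp q₁ * fw w p l i x')
    (t1R : ∀ x x' : ℤ, |(x : ℝ) - cen| ≤ W₁' → |(x' : ℝ) - cen| ≤ W₁' → fw w p r i x ≤ Real.exp q₁ * fw w p r i x')
    (tL : ∀ x x' : ℤ, |(x : ℝ) - cen| ≤ Wd l₂ → |(x' : ℝ) - cen| ≤ Wd l₂ → fw w p l i x ≤ Real.exp q₂ * fw w p l i x')
    (tR : ∀ x x' : ℤ, |(x : ℝ) - cen| ≤ Wd l₂ → |(x' : ℝ) - cen| ≤ Wd l₂ → fw w p r i x ≤ Real.exp q₂ * fw w p r i x')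
    (tF : ∀ x x' : ℤ, |(x : ℝ) - cen'| ≤ Wd l₂ → |(x' : ℝ) - cen'| ≤ Wd l₂ → G x ≤ Real.exp q₂ * G x')
    (hkw : ∀ x ∈ Icc lo hi, ∀ z ∈ Icc lo hi, |(x : ℝ) - cen| ≤ Wd l₂ → |(z : ℝ) - cen'| ≤ Wd l₂ → k x z ≤ Real.exp u₀)
    -- the early meetings
    (hmet : ∑ j ∈ range i, mt w p l r lo hi N j ≤ Real.exp (-κ₀) *
      ((∑ x ∈ Icc lo hi, l x * bw w p 0 N x) * ∑ y ∈ Icc lo hi, r y * bw w p 0 N y))
    (hJ4 : 4 * ((L : ℝ) + 1) ≤ Real.exp g₁)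
    (hnum : 4 * ((Icc lo hi).card : ℝ) * (L + 1) * ((Icc lo hi).card : ℝ) ^ 2 * Real.exp (2 * q₂ + u₀ + gf) ≤ Real.exp g₁) :
    DW31 (Icc lo hi) cen cen' (Wd l₁) W₁' (Wd l₂) kap yl yr yp (2 * κ₀ - 3) q₁ q₂ gf (fw w p l i) (fw w p r i) G := by
  have hG' := h.g
  have hb : lo + N ≤ hi := by have := h.X0; have := h.X1; omega
  have hlo1 : ∀ y, y < lo → l y = 0 := fun y hy => (h.lo0 y hy).1
  have hlo2 : ∀ y, y < lo → r y = 0 := fun y hy => (h.lo0 y hy).2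
  have hhi1 : ∀ y, hi - N < y → l y = 0 := fun y hy => (h.hi0 y hy).1
  have hhi2 : ∀ y, hi - N < y → r y = 0 := fun y hy => (h.hi0 y hy).2
  have hZl : 0 ≤ ∑ x ∈ Icc lo hi, l x * bw w p 0 N x := sum_nonneg fun x _ => mul_nonneg (hG'.l0 x) (bw_pos hw hp _ _ _).le
  have hZr : 0 ≤ ∑ x ∈ Icc lo hi, r x * bw w p 0 N x := sum_nonneg fun x _ => mul_nonneg (hG'.r0 x) (bw_pos hw hp _ _ _).le
  have hoff : ∀ x ∈ Icc lo hi \ Icc yl yr, Wd l₁ < |(fun x : ℤ => (x : ℝ) - cen) x| := by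
    intro x hx
    rw [mem_sdiff, mem_Icc] at hx
    by_contra hcon
    exact hx.2 (mem_Icc.2 (hyW x (not_lt.1 hcon)))
  have a2 : ∀ {x : ℤ} {c : ℝ}, |(x : ℝ) - c| ≤ Wd l₁ → |(x : ℝ) - c| ≤ Wd l₂ := fun h1 => h1.trans hW
  have e2 : ∀ j, l₁ ≤ j → j ≤ L → i + n + (nn j - n) = i + nn j := fun j hj hjL => by
    have := hn1 j hj hjL
    omega
  -- the masses of the shells
  have xi : ∀ {m : ℤ → ℝ}, (∀ y, 0 ≤ m y) → (∀ y, y < lo → m y = 0) → (∀ y, hi - N < y → m y = 0) →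
      (∀ j, l₁ ≤ j → j ≤ L → ms w p N m (i + nn j) (A j) ≤ Real.exp (-κ j) * ∑ x ∈ Icc lo hi, m x * bw w p 0 N x) →
      0 ≤ ∑ x ∈ Icc lo hi, m x * bw w p 0 N x → ∀ j, l₁ ≤ j → j ≤ L →
      ms w p N m i (Sh (Icc lo hi) (fun x => (x : ℝ) - cen) Wd L j) ≤ Real.exp (-(κ j - 1)) * ∑ x ∈ Icc lo hi, m x * bw w p 0 N x :=
    fun hm h1 h2 h3 hZ j hj hjL => shell_down hw hp hm h1 h2 (hn2 j hj hjL) (hsi j hj hjL) (h3 j hj hjL) hZ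
  have xn : ∀ {m : ℤ → ℝ}, (∀ y, 0 ≤ m y) → (∀ y, y < lo → m y = 0) → (∀ y, hi - N < y → m y = 0) →
      (∀ j, l₁ ≤ j → j ≤ L → ms w p N m (i + nn j) (A j) ≤ Real.exp (-κ j) * ∑ x ∈ Icc lo hi, m x * bw w p 0 N x) →
      0 ≤ ∑ x ∈ Icc lo hi, m x * bw w p 0 N x → ∀ j, l₁ ≤ j → j ≤ L →
      ms w p N m (i + n) (Sh (Icc lo hi) (fun z => (z : ℝ) - cen') Wd L j) ≤ Real.exp (-(κ j - 1)) * ∑ x ∈ Icc lo hi, m x * bw w p 0 N x := by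
    intro m hm h1 h2 h3 hZ j hj hjL
    refine shell_down hw hp hm h1 h2 (n := nn j - n) (by rw [e2 j hj hjL]; exact hn2 j hj hjL) (hsn j hj hjL) ?_ hZ
    rw [e2 j hj hjL]
    exact h3 j hj hjL
  refine ⟨?_, hyl, hyr, hyp, t1L, t1R⟩
  refine un31 hw hp h (by omega) hy1 hy hy2 hl1 hl2 hr1 hr2 hGp hmet
    (ms_off hw hp hG'.l0 (h12.trans hl) sdiff_subset hoff hZl (xi hG'.l0 hlo1 hhi1 hfL hZl) fun j hj hjL => by
      linarith [hκ₀ j hj hjL])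
    (ms_off hw hp hG'.r0 (h12.trans hl) sdiff_subset hoff hZr (xi hG'.r0 hlo2 hhi2 hfR hZr) fun j hj hjL => by
      linarith [hκ₀ j hj hjL]) tL tR tF ?_ ?_
  · exact un_sh hw hp hG'.l0 hlo1 hhi1 hb hin hN₀ hG0 hk hG hl hσ hkap0 hB0 hs heL
      (fun j hj hjL => xi hG'.l0 hlo1 hhi1 hfL hZl j (h12.trans hj) hjL)
      (fun j hj hjL => xn hG'.l0 hlo1 hhi1 hfL hZl j (h12.trans hj) hjL)
      (fun j hj hjL => by linarith [hBκ j hj hjL]) (fun x _ hx => tL x yl hx (a2 hyl)) (fun z _ hz => tF z yp hz (a2 hyp)) hkw hJ4 hnum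
  · exact un_sh hw hp hG'.r0 hlo2 hhi2 hb hin hN₀ hG0 hk hG hl hσ hkap0 hB0 hs heR
      (fun j hj hjL => xi hG'.r0 hlo2 hhi2 hfR hZr j (h12.trans hj) hjL)
      (fun j hj hjL => xn hG'.r0 hlo2 hhi2 hfR hZr j (h12.trans hj) hjL)
      (fun j hj hjL => by linarith [hBκ j hj hjL]) (fun x _ hx => tR x yr hx (a2 hyr)) (fun z _ hz => tF z yp hz (a2 hyp)) hkw hJ4 hnum

end

end Pool.Agent.W_7d29a1_C1.D31
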