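import Pool.Agent.W_7d29a1_C1.StA12
import Pool.Agent.W_7d29a1_C1.VIn31

/-!
MP_7d29a1_pr, [C1] attractor route, SHELL, fresh ball, P1: **the starts of the lanes from `DW31`** (`starts12F`) and **the lanes of
`st12 Kn` from the tuned slab event**, in units of `E` (`lanes12`). (helper12)
-/

set_option autoImplicit false

namespace Pool.Agent.W_7d29a1_C1.S12

open Finset
open Pool.Agent.W_7d29a1_F (Env Pt)
open Pool.Agent.W_7d29a1_C1.K91P (fw fw_nonneg)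
open Pool.Agent.W_7d29a1_C1.K91 (wt wt_pos)
open Pool.Agent.W_7d29a1_C1.D31 (DW31)

noncomputable section

/-- The starts of the lanes (outside data), `k` = how far outside the standard points. -/
structure Sta12 (I : Finset ℤ) (cen W₁ W₁' : ℝ) (L R θ : ℤ → ℝ) (yl yr A₁ A₂ : ℤ) (d k : ℕ) (u v ε g qq : ℝ) : Prop where
  a1 : A₁ + k ≤ yl
  a2 : yr + k ≤ A₂
  b1 : |(A₁ : ℝ) - cen| + d ≤ W₁'
  b2 : |(A₂ : ℝ) - cen| + d ≤ W₁'
  w1 : ∀ x, |x - A₁| ≤ d → x ∈ win I cen W₁'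
  w2 : ∀ x, |x - A₂| ≤ d → x ∈ win I cen W₁'
  uL : ∀ x, |x - A₂| ≤ d → L x * θ x ≤ Real.exp u * (L A₁ * θ A₁)
  vR : ∀ x, |x - A₁| ≤ d → R x * θ x ≤ Real.exp v * (R A₂ * θ A₂)
  uv : u + v ≤ 2 * ε - g
  t : |(u - v) / 2| ≤ qq

/-- **THE STARTS.** -/
theorem starts12F {η : Env} {p : ℕ → ℝ} {i : ℕ} {l r : ℤ → ℝ} {XX lo hi yl yr yp : ℤ} {cen cen' W₁ W₁' W₂ g q₁ q₂ gf b₁ ε : ℝ}
    {kap : ℤ → ℤ → ℝ} {F : ℤ → ℝ} (hp : ∀ k, 0 < p k) (hG : K91.Grp l r XX)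
    (D : DW31 (Icc lo hi) cen cen' W₁ W₁' W₂ kap yl yr yp g q₁ q₂ gf (fw (wt η) p l i) (fw (wt η) p r i) F)
    (hbox : ∀ x : ℤ, |(x : ℝ) - cen| ≤ W₁' → x ∈ Icc lo hi)
    (θw : ∀ x ∈ win (Icc lo hi) cen W₁', Real.exp (-b₁) ≤ wt η i x ∧ wt η i x ≤ Real.exp b₁)
    {Ns d k : ℕ} (hN : 1 ≤ Ns) (hw : W₁ + (2 * Ns * d + k) ≤ W₁') (hq : q₁ + 2 * b₁ ≤ Ns * ε) :
    ∃ (A₁ A₂ : ℤ) (u v : ℝ), Sta12 (Icc lo hi) cen W₁ W₁' (fw (wt η) p l i) (fw (wt η) p r i) (wt η i) yl yr A₁ A₂ d k u v ε g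
      (q₁ + 2 * b₁) := by
  have hd0 : (0 : ℝ) ≤ d := Nat.cast_nonneg d
  have hNR : (1 : ℝ) ≤ Ns := by exact_mod_cast hN
  have hNd : (0 : ℝ) ≤ 2 * Ns * d + k := by positivity
  have hyl := D.yl1
  have hyr := D.yr1
  have memW : ∀ x : ℤ, |(x : ℝ) - cen| ≤ W₁' → x ∈ win (Icc lo hi) cen W₁' := fun x hx => mem_win.2 ⟨hbox x hx, hx⟩
  have myl : yl ∈ win (Icc lo hi) cen W₁' := memW yl (by linarith)
  have myr : yr ∈ win (Icc lo hi) cen W₁' := memW yr (by linarith)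
  have pL : ∀ x ∈ win (Icc lo hi) cen W₁', 0 < fw (wt η) p l i x := fun x hx => by
    have h1 := D.dp.Ll.trans_le (D.t1L yl x (mem_win.1 myl).2 (mem_win.1 hx).2)
    exact pos_of_mul_pos_right h1 (Real.exp_pos _).le
  have pR : ∀ x ∈ win (Icc lo hi) cen W₁', 0 < fw (wt η) p r i x := fun x hx => by
    have h1 := D.dp.Rr.trans_le (D.t1R yr x (mem_win.1 myr).2 (mem_win.1 hx).2)
    exact pos_of_mul_pos_right h1 (Real.exp_pos _).le
  have hNd' : (0 : ℤ) ≤ ((Ns : ℤ) - 1) * d := by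
    have h1 : (1 : ℤ) ≤ Ns := by exact_mod_cast hN
    exact mul_nonneg (by linarith) (by positivity)
  -- a place near a start
  have near : ∀ (x y : ℤ), |(y : ℝ) - cen| ≤ W₁ → |(x : ℝ) - y| ≤ 2 * Ns * d + k → x ∈ win (Icc lo hi) cen W₁' := fun x y hy hx => by
    refine memW x ?_
    have h1 := abs_sub_le (x : ℝ) y cen
    linarith
  have cast : ∀ (x y : ℤ), |x - y| ≤ 2 * (Ns : ℤ) * d + k → |(x : ℝ) - y| ≤ 2 * Ns * d + k := fun x y h1 => by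
    have h2 : ((|x - y| : ℤ) : ℝ) ≤ ((2 * (Ns : ℤ) * d + k : ℤ) : ℝ) := by exact_mod_cast h1
    push_cast at h2
    exact h2
  have hk0 : (0 : ℤ) ≤ k := by positivity
  have hdZ : (0 : ℤ) ≤ d := by positivity
  obtain ⟨A₁, A₂, u, v, k1, k2, m1, m2, c1, c2, uL, vR, huv, ht⟩ := starts_real12 (η := η) (p := p) (i := i) (l := l) (r := r) hp hG
    (W := win (Icc lo hi) cen W₁') (yl := yl) (yr := yr) (g := g) (q₁ := q₁) (b := b₁) pL pR
    (fun x hx x' hx' => D.t1L x x' (mem_win.1 hx).2 (mem_win.1 hx').2) (fun x hx x' hx' => D.t1R x x' (mem_win.1 hx).2 (mem_win.1 hx').2)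
    D.dp.win myl myr θw (x₁ := yl - (((Ns : ℤ) - 1) * d + k)) (x₂ := yr + (((Ns : ℤ) - 1) * d + k)) (Ns := Ns) (d := d) (ε := ε) hN
    (fun x hx => near x yl hyl (by
      have h1 := abs_sub_le x (yl - (((Ns : ℤ) - 1) * d + k)) yl
      rw [show yl - (((Ns : ℤ) - 1) * d + k) - yl = -(((Ns : ℤ) - 1) * d + k) by ring, abs_neg,
        abs_of_nonneg (show (0 : ℤ) ≤ ((Ns : ℤ) - 1) * d + k by linarith)] at h1
      exact cast x yl (by linarith)))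
    (fun x hx => near x yr hyr (by
      have h1 := abs_sub_le x (yr + (((Ns : ℤ) - 1) * d + k)) yr
      rw [show yr + (((Ns : ℤ) - 1) * d + k) - yr = ((Ns : ℤ) - 1) * d + k by ring,
        abs_of_nonneg (show (0 : ℤ) ≤ ((Ns : ℤ) - 1) * d + k by linarith)] at h1
      exact cast x yr (by linarith)))
    (by linarith) (by linarith) hq
  refine ⟨A₁, A₂, u, v, ?_, ?_, ?_, ?_, c1, c2, uL, vR, huv, ht⟩
  · have := (abs_le.1 k1).2
    linarith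
  · have := (abs_le.1 k2).1
    linarith
  · have h3 : (0 : ℤ) ≤ d := by positivity
    have h2 := abs_le.1 k1
    have h1 : |A₁ - yl| + d ≤ 2 * (Ns : ℤ) * d + k := by
      rw [abs_of_nonpos (by linarith [h2.2])]
      linarith [h2.1]
    have h4 : ((|A₁ - yl| + d : ℤ) : ℝ) ≤ ((2 * (Ns : ℤ) * d + k : ℤ) : ℝ) := by exact_mod_cast h1
    push_cast at h4
    have h5 := abs_sub_le (A₁ : ℝ) yl cen
    linarith
  · have h3 : (0 : ℤ) ≤ d := by positivity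
    have h2 := abs_le.1 k2
    have h1 : |A₂ - yr| + d ≤ 2 * (Ns : ℤ) * d + k := by
      rw [abs_of_nonneg (by linarith [h2.1])]
      linarith [h2.2]
    have h4 : ((|A₂ - yr| + d : ℤ) : ℝ) ≤ ((2 * (Ns : ℤ) * d + k : ℤ) : ℝ) := by exact_mod_cast h1
    push_cast at h4
    have h5 := abs_sub_le (A₂ : ℝ) yr cen
    linarith

/-- **THE LANES OF P1** in units of `E`, after one more step. -/
theorem lanes12 {μ : MeasureTheory.Measure ℝ} {s : ℝ} {η : Env} {i T : ℕ} {c₀ A₁ A₂ B₁ B₂ : ℤ} {a e : Bool → ℤ} (a1 : a true = A₁ - c₀)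
    (a2 : a false = A₂ - c₀) (e1 : e true = B₁ - c₀) (e2 : e false = B₂ - c₀) {E ω r G GF d t φ ν q : ℝ} {Kn : ℤ → ℤ → ℝ}
    (hT : TC12 μ s η ((i : ℤ), c₀) T a e ω r 0 (G * E) (d * E) t)
    (hC : Cm12 μ s η ((i : ℤ), c₀) T Kn ω (Real.exp (φ * E)) (Real.exp (-(GF * E)))) (hK0 : ∀ x y, 0 ≤ Kn x y) (hE : 0 < E)
    (hd : 0 ≤ d) (hφ : 0 ≤ φ) (hG0 : 0 ≤ G) (hν : 2 ≤ Real.exp (ν * E)) (hGG : G ≤ GF) (hGF : 2 ≤ Real.exp (GF * E)) (hq : 0 ≤ q)
    (hqν : 1 + q ≤ Real.exp (ν * E)) (ha : ∀ j, |(a j : ℝ)| ≤ ω - r) {r' : ℤ} (hr0 : 0 ≤ r') (hr1 : (r' : ℝ) ≤ r) (hr2 : r < r' + 1)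
    {I W Wy : Finset ℤ} {lo h' : ℤ} (hWx : ∀ x ∈ W, |(x : ℝ) - c₀| ≤ ω) (hP1 : Icc (A₁ - r') (A₁ + r') ⊆ W)
    (hP2 : Icc (A₂ - r') (A₂ + r') ⊆ W) (hWI : W ⊆ I) (hQ1 : Icc (B₁ - r') (B₁ + r' + 1) ⊆ Wy) (hQ2 : Icc (B₂ - r') (B₂ + r' + 1) ⊆ Wy)
    (hWy : Wy ⊆ Icc lo h') (hQQ : Disjoint (Icc (B₁ - r') (B₁ + r' + 1)) (Icc (B₂ - r') (B₂ + r' + 1))) :
    ∃ dl ep : ℝ, dl ≤ Real.exp ((3 * ν + 2 * φ + d) * E) ∧ ep ≤ Real.exp ((2 * ν + φ - G) * E) ∧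
      Ln12 (st12 Kn q) I (Icc lo h') W Wy (Icc (A₁ - r') (A₁ + r')) (Icc (A₂ - r') (A₂ + r')) (Icc (B₁ - r') (B₁ + r' + 1))
        (Icc (B₂ - r') (B₂ + r' + 1)) A₁ A₂ B₁ B₂ dl ep ∧
      Real.exp (-((φ + ν) * E)) ≤ st12 Kn q A₁ B₁ ∧ Real.exp (-((φ + ν) * E)) ≤ st12 Kn q A₂ B₂ ∧
      |Real.log (st12 Kn q A₁ B₁) - Real.log (st12 Kn q A₂ B₂) - t| ≤ (2 * d + 5 * ν + 4 * φ) * E := by
  have ea1 : a true + c₀ = A₁ := by rw [a1]; ring
  have ea2 : a false + c₀ = A₂ := by rw [a2]; ring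
  have ee1 : e true + c₀ = B₁ := by rw [e1]; ring
  have ee2 : e false + c₀ = B₂ := by rw [e2]; ring
  obtain ⟨Φ, hΦ⟩ : ∃ Φ : ℝ, Φ = Real.exp (φ * E) := ⟨_, rfl⟩
  have hΦ1 : 1 ≤ Φ := by rw [hΦ]; exact Real.one_le_exp (by positivity)
  have hΦ0 : 0 < Φ := by linarith
  have hdE : 0 ≤ d * E := by positivity
  have hed : 1 ≤ Real.exp (d * E) := Real.one_le_exp hdE
  rw [← hΦ] at hC
  have hcell : ∀ j, Icc (e j + c₀ - r') (e j + c₀ + r') ⊆ Icc (lo - 1) h' := fun j => by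
    cases j
    · rw [ee2]
      intro y hy
      rw [mem_Icc] at hy
      have h1 := hWy (hQ2 (mem_Icc.2 ⟨hy.1, by omega⟩))
      rw [mem_Icc] at h1 ⊢
      omega
    · rw [ee1]
      intro y hy
      rw [mem_Icc] at hy
      have h1 := hWy (hQ1 (mem_Icc.2 ⟨hy.1, by omega⟩))
      rw [mem_Icc] at h1 ⊢
      omega
  obtain ⟨hLn, hlow, hdif⟩ := ln_TC12 (b := ((i : ℤ), c₀)) (Φ := Φ) (ε := Real.exp (-(GF * E))) hT hC hK0 hdE
    (Real.exp_le_exp.2 (by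
      have := mul_le_mul_of_nonneg_right hGG hE.le
      linarith))
    (by
      rw [Real.exp_zero, Real.exp_neg]
      have h1 := Real.exp_pos (GF * E)
      rw [← div_eq_mul_inv, div_le_one h1]
      exact hGF) ha hr0 hr1 hr2 (I := I) (J := Icc (lo - 1) h') (Wx := W) (Wy := Icc (lo - 1) h') hWx
    (fun j => by
      cases j
      · show Icc (a false + c₀ - r') (a false + c₀ + r') ⊆ W
        rw [ea2]
        exact hP2
      · show Icc (a true + c₀ - r') (a true + c₀ + r') ⊆ W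
        rw [ea1]
        exact hP1) hWI hcell (subset_refl _)
    (by
      show Disjoint (Icc (e true + c₀ - r') (e true + c₀ + r')) (Icc (e false + c₀ - r') (e false + c₀ + r'))
      rw [ee1, ee2]
      refine disjoint_of_subset_left ?_ (disjoint_of_subset_right ?_ hQQ)
      · exact Icc_subset_Icc le_rfl (by omega)
      · exact Icc_subset_Icc le_rfl (by omega))
  have hl1 := hlow true
  have hl2 := hlow false
  rw [Real.exp_zero] at hl1 hl2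
  simp only [ea1, ea2, ee1, ee2] at hLn hl1 hl2 hdif
  have hk1 : 0 < Kn A₁ B₁ := hLn.k1
  have hk2 : 0 < Kn A₂ B₂ := hLn.k2
  have hGe : Real.exp (-(G * E)) ≤ 1 := by
    rw [Real.exp_le_one_iff]
    have : 0 ≤ G * E := by positivity
    linarith
  have heps : ∀ k : ℝ, 1 ≤ 2 * Φ * k → 2 * Φ * Real.exp (-(G * E)) ≤ 4 * Φ ^ 2 * Real.exp (d * E) * k := fun k hk => by
    have h1 : 2 * Φ * Real.exp (-(G * E)) ≤ 2 * Φ * 1 := mul_le_mul_of_nonneg_left hGe (by positivity)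
    have h2 : 2 * Φ * 1 ≤ 2 * Φ * (2 * Φ * k) := mul_le_mul_of_nonneg_left hk (by positivity)
    have h3 : 2 * Φ * (2 * Φ * k) * 1 ≤ 2 * Φ * (2 * Φ * k) * Real.exp (d * E) := mul_le_mul_of_nonneg_left hed (by
      have : 0 ≤ 2 * Φ * k := by linarith
      positivity)
    linarith
  have hst := step12 (W := W) (Wy' := Wy) (J' := Icc lo h') hLn hq (heps _ hl1) (heps _ hl2)
    (fun y hy => by
      have h1 := hWy hy
      rw [mem_Icc] at h1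
      rw [mem_Icc, mem_Icc]
      omega) hQ1 hQ2 hWy hQQ
  obtain ⟨g0, g1, g2, g3, g4⟩ := hst
  have h2ν : (4 : ℝ) ≤ Real.exp (2 * ν * E) := by
    have h1 := mul_le_mul hν hν (by norm_num) (Real.exp_pos _).le
    rw [← Real.exp_add] at h1
    have e : ν * E + ν * E = 2 * ν * E := by ring
    rw [e] at h1
    linarith
  have hdl : (1 + q) * (4 * Φ ^ 2 * Real.exp (d * E)) ≤ Real.exp ((3 * ν + 2 * φ + d) * E) := by
    have e : Real.exp ((3 * ν + 2 * φ + d) * E) = Real.exp (ν * E) * (Real.exp (2 * ν * E) * Φ ^ 2 * Real.exp (d * E)) := by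
      rw [hΦ, ← Real.exp_nat_mul, ← Real.exp_add, ← Real.exp_add, ← Real.exp_add]
      congr 1
      push_cast
      ring
    rw [e]
    refine mul_le_mul hqν ?_ (by positivity) (Real.exp_pos _).le
    exact mul_le_mul_of_nonneg_right (mul_le_mul_of_nonneg_right h2ν (by positivity)) (Real.exp_pos _).le
  have hep : (1 + q) * (2 * Φ * Real.exp (-(G * E))) ≤ Real.exp ((2 * ν + φ - G) * E) := by
    have e : Real.exp ((2 * ν + φ - G) * E) = Real.exp (ν * E) * (Real.exp (ν * E) * Φ * Real.exp (-(G * E))) := by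
      rw [hΦ, ← Real.exp_add, ← Real.exp_add, ← Real.exp_add]
      congr 1
      ring
    rw [e]
    refine mul_le_mul hqν ?_ (by positivity) (Real.exp_pos _).le
    exact mul_le_mul_of_nonneg_right (mul_le_mul_of_nonneg_right hν hΦ0.le) (Real.exp_pos _).le
  have hlev : ∀ k : ℝ, 1 ≤ 2 * Φ * k → Real.exp (-((φ + ν) * E)) ≤ k := fun k hk => by
    have e : Real.exp (-((φ + ν) * E)) = (Real.exp (ν * E) * Φ)⁻¹ := by
      rw [hΦ, ← Real.exp_add, ← Real.exp_neg]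
      congr 1
      ring
    have hpos : 0 < Real.exp (ν * E) * Φ := by positivity
    rw [e, inv_le_iff_one_le_mul₀ hpos]
    have hk0 : 0 ≤ k := by
      by_contra hcon
      push Not at hcon
      have := mul_neg_of_pos_of_neg (show 0 < 2 * Φ by positivity) hcon
      linarith
    have h1 : 2 * Φ * k ≤ Real.exp (ν * E) * Φ * k := mul_le_mul_of_nonneg_right (mul_le_mul_of_nonneg_right hν hΦ0.le) hk0
    linarith
  refine ⟨_, _, hdl, hep, g0, (hlev _ hl1).trans g1, (hlev _ hl2).trans g2, ?_⟩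
  have hD : 0 < 1 + q * (4 * Φ ^ 2 * Real.exp (d * E)) := by positivity
  have h1 := diff12 hk1 hk2 hD g1 g2 g3 g4 hdif
  refine h1.trans ?_
  have h2 : Real.log (1 + q * (4 * Φ ^ 2 * Real.exp (d * E))) ≤ (3 * ν + 2 * φ + d) * E := by
    have h3 : 1 + q * (4 * Φ ^ 2 * Real.exp (d * E)) ≤ Real.exp ((3 * ν + 2 * φ + d) * E) := by
      refine le_trans ?_ hdl
      have h4 : 1 ≤ 4 * Φ ^ 2 * Real.exp (d * E) := by
        have h5 : 1 ≤ Φ ^ 2 := one_le_pow₀ hΦ1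
        nlinarith
      linarith
    have h4 := Real.log_le_log hD h3
    rwa [Real.log_exp] at h4
  have h3 : Real.log (2 * Φ) ≤ (ν + φ) * E := by
    rw [hΦ, Real.log_mul (by norm_num) (Real.exp_pos _).ne', Real.log_exp]
    have h4 := Real.log_le_log (by norm_num) hν
    rw [Real.log_exp] at h4
    linarith
  linarith

end

end Pool.Agent.W_7d29a1_C1.S12
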