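import Pool.Agent.W_7d29a1_C1.FreD12
import Pool.Agent.W_7d29a1_C1.FreA20

/-!
MP_7d29a1_pr, [C1] attractor route, SHELL, fresh ball, P1: **thresholds, monotonicity, choice of the numbers** for `freA12`. (helper12)
-/

set_option autoImplicit false

namespace Pool.Agent.W_7d29a1_C1.S12

open MeasureTheory ProbabilityTheory Filter Topology Finset
open Pool.Agent.W_7d29a1_F Pool.Agent.W_7d29a1_h4g Pool.Agent.W_7d29a1_H Pool.Agent.W_7d29a1_HS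
open Pool.Agent.W_7d29a1_C1.K91P (fw fw_congr)
open Pool.Agent.W_7d29a1_C1.K91 (wt wt_pos)
open Pool.Agent.W_7d29a1_C1.FarK89 (gr gr_nonneg AQ AQ_nonneg lipQ)
open Pool.Agent.W_7d29a1_C1.D31 (DW31)

noncomputable section

variable {μ : Measure ℝ} {s c C : ℝ} {n₀ : ℕ}

/-- Monotone comparison. -/
theorem Cm12.mono {η : Env} {b : Pt} {T : ℕ} {Kn : ℤ → ℤ → ℝ} {ω Φ Φ' ε ε' : ℝ} [IsProbabilityMeasure μ]
    (h : Cm12 μ s η b T Kn ω Φ ε) (hK0 : ∀ x y, 0 ≤ Kn x y) (h1 : Φ ≤ Φ') (h2 : ε ≤ ε') : Cm12 μ s η b T Kn ω Φ' ε' where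
  Φ1 := h.Φ1.trans h1
  up := fun x y hx => (h.up x y hx).trans (add_le_add (mul_le_mul_of_nonneg_right h1 (W_nonneg _ _ _ _)) h2)
  lo := fun x y hx => (h.lo x y hx).trans (add_le_add (mul_le_mul_of_nonneg_right h1 (hK0 _ _)) h2)

/-- Widths are below small exponentials. -/
theorem thr12 [IsProbabilityMeasure μ] (h : In μ s c C n₀) (A : ℝ) {τ : ℝ} (hτ : 0 < τ) : ∃ n₁ : ℕ, 1 ≤ n₁ ∧ ∀ n : ℕ, n₁ ≤ n →
    A * wd μ s n + 1 ≤ Real.exp (τ * EE μ s n) := by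
  obtain ⟨A', hA'⟩ : ∃ A' : ℝ, A' = |A| * (2 * wd μ s 1) + 1 := ⟨_, rfl⟩
  have hw1 := h.wd_nonneg 1
  have hA0 : 0 < A' := by rw [hA']; positivity
  obtain ⟨n₁, H⟩ := lgo h (δ := τ / 2) (by positivity)
  obtain ⟨n₂, H2⟩ := eventually_atTop.1 (h.tE.eventually_ge_atTop (Real.log A' / (τ / 2)))
  refine ⟨max n₁ (max n₂ 1), (le_max_right _ _).trans (le_max_right _ _), fun n hn => ?_⟩
  have hn1 : 1 ≤ n := ((le_max_right _ _).trans (le_max_right _ _)).trans hn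
  have hnR : (1 : ℝ) ≤ n := by exact_mod_cast hn1
  have h1 := H n ((le_max_left _ _).trans hn)
  have h2 := H2 n (((le_max_left _ _).trans (le_max_right _ _)).trans hn)
  rw [div_le_iff₀ (by positivity)] at h2
  have h3 : wd μ s n ≤ 2 * (n * wd μ s 1) := by
    have := wd_lower_one h (m := 1) (n := n) le_rfl hn1
    rwa [Nat.cast_one, one_mul] at this
  have h4 : A * wd μ s n + 1 ≤ A' * n := by
    have g1 : A * wd μ s n ≤ |A| * (2 * (n * wd μ s 1)) :=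
      (mul_le_mul_of_nonneg_right (le_abs_self A) (h.wd_nonneg n)).trans (mul_le_mul_of_nonneg_left h3 (abs_nonneg A))
    rw [hA']
    linarith
  refine h4.trans ?_
  rw [← Real.exp_log (show 0 < A' * n by positivity)]
  refine Real.exp_le_exp.2 ?_
  rw [Real.log_mul hA0.ne' (by positivity)]
  linarith

/-- The half width of the window of the seam. -/
def Lm12 (P : ℕ) (c₁ c₄ Qk S k₅ v ω₂ q₂ b₂ Ke τ : ℝ) : ℝ :=
  ω₂ + max ((2 * τ + 2 * q₂ + 2 * b₂ + v + τ + 3 * τ + k₅ + Qk * gr P (AQ P c₁ Qk + ω₂) + S) / (c₄ - c₁)) (Ke + 2)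

/-- The height of the walls. -/
def Gw12 (P : ℕ) (c₁ Qk S k₅ v q₂ b₂ Λ τ g₁ : ℝ) : ℝ :=
  max 0 (max (2 * τ + q₂ + 2 * b₂ + 2 * τ + 5 * τ + g₁)
    (3 * τ + 2 * q₂ + 2 * b₂ + v + 2 * τ + 5 * τ + k₅ + (Qk * gr P (AQ P c₁ Qk + Λ) + S)))

/-- **The numbers.** -/
theorem num12F {P : ℕ} {E g c₁ c₃ c₄ Qk S k₅ v gf ω₁ ω₂ q₁ q₂ b₁ b₂ Ke kst g₁ τ : ℝ} (hE : 0 < E) (hc₁ : 0 < c₁) (hc : c₁ < c₄)
    (hQk : 0 ≤ Qk) (hω₂ : 0 ≤ ω₂) (hKe : 0 ≤ Ke) (hτ : τ = (kst - g₁) / 24) (hg0 : 0 ≤ g₁) (hg₁ : g₁ < kst) (hτE : 1 ≤ τ * E)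
    (hg : 2 * (kst * E - 2) ≤ g) (hgf1 : q₁ + b₁ + kst + c₃ * (ω₁ + Ke + 1) ≤ gf) (hgf2 : q₁ + b₁ + kst + v + k₅ ≤ gf) :
    Num12 E g τ τ τ τ τ (q₁ + b₁) q₂ b₂ g₁ gf (Gw12 P c₁ Qk S k₅ v q₂ b₂ (Lm12 P c₁ c₄ Qk S k₅ v ω₂ q₂ b₂ Ke τ) τ g₁) v k₅
      (c₃ * (ω₁ + (Ke + 1))) (Qk * gr P (AQ P c₁ Qk + Lm12 P c₁ c₄ Qk S k₅ v ω₂ q₂ b₂ Ke τ) + S)
      (c₄ * (Lm12 P c₁ c₄ Qk S k₅ v ω₂ q₂ b₂ Ke τ - ω₂)) := by
  obtain ⟨Λ, hΛ⟩ : ∃ Λ : ℝ, Λ = Lm12 P c₁ c₄ Qk S k₅ v ω₂ q₂ b₂ Ke τ := ⟨_, rfl⟩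
  rw [← hΛ]
  have ek : kst = g₁ + 24 * τ := by rw [hτ]; ring
  have hτ0 : 0 < τ := by rw [hτ]; linarith
  refine ⟨hE, ?_, ?_, ?_, ?_, ?_, ?_⟩
  · have e : c₃ * (ω₁ + (Ke + 1)) = c₃ * (ω₁ + Ke + 1) := by ring
    rw [e]
    linarith
  · linarith
  · exact (le_max_left _ _).trans (le_max_right _ _)
  · exact (le_max_right _ _).trans (le_max_right _ _)
  · obtain ⟨Z, hZ⟩ : ∃ Z : ℝ, Z = 2 * τ + 2 * q₂ + 2 * b₂ + v + τ + 3 * τ + k₅ + Qk * gr P (AQ P c₁ Qk + ω₂) + S := ⟨_, rfl⟩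
    have h1 : Z / (c₄ - c₁) ≤ Λ - ω₂ := by
      rw [hΛ, hZ]
      unfold Lm12
      rw [add_sub_cancel_left]
      exact le_max_left _ _
    have h2 : 0 ≤ Λ - ω₂ := by
      have : Ke + 2 ≤ Λ - ω₂ := by
        rw [hΛ]
        unfold Lm12
        rw [add_sub_cancel_left]
        exact le_max_right _ _
      linarith
    rw [div_le_iff₀ (by linarith)] at h1
    have h3 := lipQ P hc₁ hQk (le_refl Qk) hω₂ h2
    rw [add_sub_cancel] at h3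
    rw [hZ] at h1
    linarith
  · rw [ek] at hg
    have h1 : (g₁ + 2 * τ + 10 * τ + 6 * τ + 3 * τ + τ) * E = (g₁ + 24 * τ) * E - 2 * (τ * E) := by ring
    rw [h1]
    linarith

/-- The window of the seam contains the cells. -/
theorem Lm12_ge {P : ℕ} {c₁ c₄ Qk S k₅ v ω₂ q₂ b₂ Ke τ : ℝ} : ω₂ + (Ke + 2) ≤ Lm12 P c₁ c₄ Qk S k₅ v ω₂ q₂ b₂ Ke τ :=
  add_le_add le_rfl (le_max_right _ _)

/-- Larger first window and tameness, smaller gains. -/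
theorem dw_weak12 {I : Finset ℤ} {cen cen' W₁ W₁' W₂ V₁ g q₁ q₂ gf g' q₁' q₂' gf' : ℝ} {kap : ℤ → ℤ → ℝ} {yl yr yp : ℤ}
    {L R F : ℤ → ℝ} (h : DW31 I cen cen' W₁ W₁' W₂ kap yl yr yp g q₁ q₂ gf L R F) (hL : ∀ x, 0 ≤ L x) (hR : ∀ x, 0 ≤ R x)
    (hF : ∀ x, 0 ≤ F x) (h1 : W₁ ≤ V₁) (hg : g' ≤ g) (hq1 : q₁ ≤ q₁') (hq2 : q₂ ≤ q₂') (hgf : gf' ≤ gf) :
    DW31 I cen cen' V₁ W₁' W₂ kap yl yr yp g' q₁' q₂' gf' L R F where
  dp :=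
    { Ll := h.dp.Ll
      Lr := h.dp.Lr
      Rl := h.dp.Rl
      Rr := h.dp.Rr
      Fp := h.dp.Fp
      win := hg.trans h.dp.win
      tL := fun x x' hx hx' => (h.dp.tL x x' hx hx').trans (mul_le_mul_of_nonneg_right (Real.exp_le_exp.2 hq2) (hL _))
      tR := fun x x' hx hx' => (h.dp.tR x x' hx hx').trans (mul_le_mul_of_nonneg_right (Real.exp_le_exp.2 hq2) (hR _))
      tF := fun x x' hx hx' => (h.dp.tF x x' hx hx').trans (mul_le_mul_of_nonneg_right (Real.exp_le_exp.2 hq2) (hF _))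
      farL := h.dp.farL.trans (mul_le_mul_of_nonneg_right (Real.exp_le_exp.2 (by linarith)) (mul_nonneg (hL _) (hF _)))
      farR := h.dp.farR.trans (mul_le_mul_of_nonneg_right (Real.exp_le_exp.2 (by linarith)) (mul_nonneg (hR _) (hF _))) }
  yl1 := h.yl1.trans h1
  yr1 := h.yr1.trans h1
  yp1 := h.yp1.trans h1
  t1L := fun x x' hx hx' => (h.t1L x x' hx hx').trans (mul_le_mul_of_nonneg_right (Real.exp_le_exp.2 hq1) (hL _))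
  t1R := fun x x' hx hx' => (h.t1R x x' hx hx').trans (mul_le_mul_of_nonneg_right (Real.exp_le_exp.2 hq1) (hR _))

/-- The profiles at the edge row read the rows below. -/
theorem fw_env12 {p : ℕ → ℝ} {l : ℤ → ℝ} {i : ℕ} {ω η : Env} (h : ∀ a : Pt, a.1 ≤ i → η a = ω a) :
    fw (wt η) p l i = fw (wt ω) p l i := by
  funext y
  refine fw_congr i (fun k hk y => ?_) y
  unfold wt
  split_ifs
  · rfl
  · rw [h ((k : ℤ), y) (by show (k : ℤ) ≤ i; exact_mod_cast hk.le)]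

/-- The weights of the edge row. -/
theorem wt_env12 {i : ℕ} {ω η : Env} (h : ∀ a : Pt, a.1 ≤ i → η a = ω a) : wt η i = wt ω i := by
  funext y
  unfold wt
  split_ifs
  · rfl
  · rw [h ((i : ℤ), y) le_rfl]

end

end Pool.Agent.W_7d29a1_C1.S12
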