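import Pool.Agent.W_7d29a1_C1.FreD83

/-!
MP_7d29a1_pr, [C1], SHELL: THE WEIGHT OF THE BOX, THE TUNE ERROR SEPARATED FROM THE FAR FUTURE. (helper47)

The tune error `e2` of the seam is limited by the cross ratio of the outside (`e ^ (-η E(T°))`), while the constants `Φ`, `V` of the joint
slope are `e ^ (C U E(T°))`: they must not meet. On the CELLS the future is `K₁ x δ B(δ)` up to the share `z3`, so its oscillation `Lc`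
costs only the inside and the start cell of the exit (scale `T`); `Φ`, `V` enter only with the off error `e1` and the walls `e4`.

* `seam47`, `d3F_47` : two constants `Lam` (off), `Lc` (cells): `z = Lc² e2 + Lam Lc e1 (1 + e2) + z3`;
* **`d3K_47`, `d3K_Cx`** : the joint form (`Jnt` of FreD83) with `up1` (upper bound of the inside from the cells to `δ`) and `cellB` (the
  profile at the row `e` oscillates at most `Lb` on `δ`);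
* `cell47`, `rank47` : `cellB` from a lane with cells and a slab of small cross ratio.
-/

set_option autoImplicit false

namespace Pool.Agent.W_7d29a1_C1.Fr47

open Finset
open Pool.Agent.W_7d29a1_C1.K91 (Grp Box wt wt_pos)
open Pool.Agent.W_7d29a1_C1.K91P
open Pool.Agent.W_7d29a1_C1.U31 (sum_fw_bw)
open Pool.Agent.W_7d29a1_C1.U16 (ker ker_nonneg ker_eq_zero)
open Pool.Agent.W_7d29a1_C1.Bx47
open Pool.Agent.W_7d29a1_C1.S83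
open Pool.Agent.W_7d29a1_F (Env)
open Pool.Agent.W_7d29a1_C1.H60

noncomputable section

/-- **The group goes through its cell**, two constants. -/
theorem seam47 {S β₁ β₂ : Finset ℤ} (h1 : β₁ ⊆ S) (h2 : β₂ ⊆ S) (hd : Disjoint β₁ β₂) {a F ph : ℤ → ℝ} {e1 e2 Lam Lc F0 : ℝ}
    (a0 : ∀ x, 0 ≤ a x) (hF0 : 0 ≤ F0) (hL : 0 ≤ Lam) (hLc : 0 ≤ Lc) (he1 : 0 ≤ e1) (he2 : 0 ≤ e2)
    (off : ∑ x ∈ S \ (β₁ ∪ β₂), a x * ph x ≤ e1 * ∑ x ∈ β₁ ∪ β₂, a x) (tune : ∑ x ∈ β₂, a x ≤ e2 * ∑ x ∈ β₁, a x)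
    (r1 : ∀ x ∈ S \ (β₁ ∪ β₂), F x ≤ Lam * ph x * F0) (r2 : ∀ x ∈ β₁ ∪ β₂, F x ≤ Lc * F0) (r3 : ∀ x ∈ β₁, F0 ≤ Lc * F x) :
    ∑ x ∈ S, a x * F x ≤ (1 + (Lc ^ 2 * e2 + Lam * Lc * (e1 * (1 + e2)))) * ∑ x ∈ β₁, a x * F x := by
  have hsub : β₁ ∪ β₂ ⊆ S := union_subset h1 h2
  rw [← sum_sdiff hsub, sum_union hd]
  rw [sum_union hd] at off
  have s1 : 0 ≤ ∑ x ∈ β₁, a x := sum_nonneg fun x _ => a0 x
  have t1 : ∑ x ∈ S \ (β₁ ∪ β₂), a x * F x ≤ Lam * F0 * ∑ x ∈ S \ (β₁ ∪ β₂), a x * ph x := by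
    rw [mul_sum]
    refine sum_le_sum fun x hx => ?_
    refine (mul_le_mul_of_nonneg_left (r1 x hx) (a0 x)).trans (le_of_eq ?_)
    ring
  have t2 : ∑ x ∈ β₂, a x * F x ≤ Lc * F0 * ∑ x ∈ β₂, a x := by
    rw [mul_sum]
    refine sum_le_sum fun x hx => ?_
    refine (mul_le_mul_of_nonneg_left (r2 x (mem_union_right _ hx)) (a0 x)).trans (le_of_eq ?_)
    ring
  have t3 : F0 * ∑ x ∈ β₁, a x ≤ Lc * ∑ x ∈ β₁, a x * F x := by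
    rw [mul_sum, mul_sum]
    refine sum_le_sum fun x hx => ?_
    have := mul_le_mul_of_nonneg_left (r3 x hx) (a0 x)
    linarith
  have hLF : 0 ≤ Lam * F0 := mul_nonneg hL hF0
  have hLF' : 0 ≤ Lc * F0 := mul_nonneg hLc hF0
  have u1 : Lam * F0 * ∑ x ∈ S \ (β₁ ∪ β₂), a x * ph x ≤ Lam * F0 * (e1 * ((1 + e2) * ∑ x ∈ β₁, a x)) := by
    refine mul_le_mul_of_nonneg_left (off.trans (mul_le_mul_of_nonneg_left ?_ he1)) hLF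
    linarith
  have u2 : Lc * F0 * ∑ x ∈ β₂, a x ≤ Lc * F0 * (e2 * ∑ x ∈ β₁, a x) := mul_le_mul_of_nonneg_left tune hLF'
  have u3 : (Lc * e2 + Lam * (e1 * (1 + e2))) * (F0 * ∑ x ∈ β₁, a x) ≤
      (Lc * e2 + Lam * (e1 * (1 + e2))) * (Lc * ∑ x ∈ β₁, a x * F x) := mul_le_mul_of_nonneg_left t3 (by positivity)
  have e : Lam * F0 * (e1 * ((1 + e2) * ∑ x ∈ β₁, a x)) + Lc * F0 * (e2 * ∑ x ∈ β₁, a x) =
      (Lc * e2 + Lam * (e1 * (1 + e2))) * (F0 * ∑ x ∈ β₁, a x) := by ring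
  have e' : (Lc * e2 + Lam * (e1 * (1 + e2))) * (Lc * ∑ x ∈ β₁, a x * F x) =
      (Lc ^ 2 * e2 + Lam * Lc * (e1 * (1 + e2))) * ∑ x ∈ β₁, a x * F x := by ring
  have e'' : (1 + (Lc ^ 2 * e2 + Lam * Lc * (e1 * (1 + e2)))) * ∑ x ∈ β₁, a x * F x =
      ∑ x ∈ β₁, a x * F x + (Lc ^ 2 * e2 + Lam * Lc * (e1 * (1 + e2))) * ∑ x ∈ β₁, a x * F x := by ring
  rw [e'']
  linarith

variable {w : ℕ → ℤ → ℝ} {p : ℕ → ℝ} {l r : ℤ → ℝ} {X lo hi : ℤ} {N : ℕ}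

/-- **Seam, regular future, share of the exit.** -/
theorem d3F_47 (hw : ∀ k y, 0 < w k y) (hp : ∀ k, 0 < p k) (h : Box l r X lo hi N) {Q : Finset (ℕ × ℤ)} {K i n : ℕ}
    (hK : i + n = K) (hKN : K ≤ N) (hQ : Q ⊆ Ico i K ×ˢ Icc lo hi) {β₁ β₂ δ S : Finset ℤ} (hS : S ⊆ Icc lo hi)
    (hS0 : ∀ x ∈ Icc lo hi, x ∉ S → fw w p l i x = 0 ∧ fw w p r i x = 0) (hc1 : β₁ ∪ β₂ ⊆ S) (hδ : δ ⊆ Icc lo hi)
    (hlt : ∀ x ∈ β₁, ∀ x' ∈ β₂, x < x') {ε' e1 e2 z3 Lam Lc F0 : ℝ} {ph : ℤ → ℝ} (hε' : ε' ≤ 1) (he1 : 0 ≤ e1) (he2 : 0 ≤ e2)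
    (hz3 : 0 ≤ z3) (hL : 0 ≤ Lam) (hLc : 0 ≤ Lc) (hF0 : 0 ≤ F0) {z : ℝ} (hz : Lc ^ 2 * e2 + Lam * Lc * (e1 * (1 + e2)) + z3 ≤ z) (hz1 : z ≤ 1)
    (hin : ∀ x ∈ β₁, ∀ x' ∈ β₂, ∀ y ∈ δ, ∀ y' ∈ δ,
      (1 - ε') * (ker w p i n x y * ker w p i n x' y') ≤ mq w p Q i n x x' y y')
    (hI : SeamI (Icc lo hi) β₁ β₂ (fw w p l i) (fw w p r i) ph e1 e2)
    (r1 : ∀ x ∈ S, x ∉ β₁ ∪ β₂ → bw w p i (N - i) x ≤ Lam * ph x * F0)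
    (r2 : ∀ x ∈ β₁ ∪ β₂, bw w p i (N - i) x ≤ Lc * F0) (r3 : ∀ x ∈ β₁ ∪ β₂, F0 ≤ Lc * bw w p i (N - i) x)
    (hsh : ∀ x ∈ β₁ ∪ β₂, (1 - z3) * bw w p i (N - i) x ≤ ∑ y ∈ δ, ker w p i n x y * bw w p K (N - K) y) {ZM ZR : ℝ}
    (hZM : ZM = ∑ y ∈ Icc lo hi, l y * bw w p 0 N y) (hZR : ZR = ∑ y ∈ Icc lo hi, r y * bw w p 0 N y) :
    (1 - ε') * (1 - 2 * z) * (ZM * ZR) ≤ ∑ c ∈ Q, cq w p l r N c.1 c.2 := by
  have hlo : lo + N ≤ hi := by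
    have := h.X0
    have := h.X1
    omega
  have hd : Disjoint β₁ β₂ := disjoint_left.2 fun x hx hx' => absurd (hlt x hx x hx') (lt_irrefl x)
  have A0 : ∀ a, 0 ≤ fw w p l i a := fw_nonneg hw hp h.g.l0 i
  have B0' : ∀ a, 0 ≤ fw w p r i a := fw_nonneg hw hp h.g.r0 i
  have F0' : ∀ a, 0 < bw w p i (N - i) a := bw_pos hw hp _ _
  have key : ∀ (m : ℤ → ℝ) (C₁ C₂ : Finset ℤ), (∀ x, 0 ≤ fw w p m i x) → (∀ x ∈ Icc lo hi, x ∉ S → fw w p m i x = 0) → C₁ ⊆ S →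
      C₂ ⊆ S → Disjoint C₁ C₂ → C₁ ∪ C₂ = β₁ ∪ β₂ →
      ∑ x ∈ Icc lo hi \ (β₁ ∪ β₂), fw w p m i x * ph x ≤ e1 * ∑ x ∈ β₁ ∪ β₂, fw w p m i x →
      ∑ x ∈ C₂, fw w p m i x ≤ e2 * ∑ x ∈ C₁, fw w p m i x →
      ∑ x ∈ Icc lo hi, fw w p m i x * bw w p i (N - i) x ≤
        (1 + (Lc ^ 2 * e2 + Lam * Lc * (e1 * (1 + e2)))) * ∑ x ∈ C₁, fw w p m i x * bw w p i (N - i) x := by
    intro m C₁ C₂ m0 m1 s1 s2 sd su so st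
    have e1' : ∑ x ∈ Icc lo hi, fw w p m i x * bw w p i (N - i) x = ∑ x ∈ S, fw w p m i x * bw w p i (N - i) x := by
      symm
      refine sum_subset hS fun x hx hx' => ?_
      rw [m1 x hx hx', zero_mul]
    have e2' : ∑ x ∈ S \ (β₁ ∪ β₂), fw w p m i x * ph x = ∑ x ∈ Icc lo hi \ (β₁ ∪ β₂), fw w p m i x * ph x := by
      refine sum_subset (sdiff_subset_sdiff hS subset_rfl) fun x hx hx' => ?_
      rw [mem_sdiff] at hx hx'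
      rw [m1 x hx.1 (fun hc => hx' ⟨hc, hx.2⟩), zero_mul]
    rw [e1']
    refine seam47 s1 s2 sd m0 hF0 hL hLc he1 he2 (by rw [su, e2']; exact so) st ?_ ?_ ?_
    · rw [su]
      exact fun x hx => r1 x (mem_sdiff.1 hx).1 (mem_sdiff.1 hx).2
    · rw [su]
      exact r2
    · intro x hx
      exact r3 x (su ▸ mem_union_left _ hx)
  have c1 : β₁ ⊆ S := fun x hx => hc1 (mem_union_left _ hx)
  have c2 : β₂ ⊆ S := fun x hx => hc1 (mem_union_right _ hx)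
  have dA := key l β₁ β₂ A0 (fun x hx hx' => (hS0 x hx hx').1) c1 c2 hd rfl hI.offa hI.ta
  have dB := key r β₂ β₁ B0' (fun x hx hx' => (hS0 x hx hx').2) c2 c1 hd.symm (union_comm _ _) hI.offb hI.tb
  rw [sum_fw_bw (fun y hy => (h.lo0 y hy).1) (fun y hy => (h.hi0 y hy).1) hlo i (by omega), ← hZM] at dA
  rw [sum_fw_bw (fun y hy => (h.lo0 y hy).2) (fun y hy => (h.hi0 y hy).2) hlo i (by omega), ← hZR] at dB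
  have zz : 0 ≤ (Lc ^ 2 * e2 + Lam * Lc * (e1 * (1 + e2))) := by positivity
  have sh : ∀ (m : ℤ → ℝ) (C₁ : Finset ℤ), (∀ x, 0 ≤ fw w p m i x) → C₁ ⊆ β₁ ∪ β₂ →
      (1 - z3) * ∑ x ∈ C₁, fw w p m i x * bw w p i (N - i) x ≤ thrS w p m N K i n C₁ δ := by
    intro m C₁ m0 hC
    unfold thrS thr
    rw [mul_sum]
    refine sum_le_sum fun x hx => ?_
    rw [← mul_sum]
    have h2 := mul_le_mul_of_nonneg_left (hsh x (hC hx)) (m0 x)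
    linarith
  have fin : ∀ (m : ℤ → ℝ) (C₁ : Finset ℤ) (Z : ℝ), (∀ x, 0 ≤ fw w p m i x) → C₁ ⊆ β₁ ∪ β₂ →
      Z ≤ (1 + (Lc ^ 2 * e2 + Lam * Lc * (e1 * (1 + e2)))) * ∑ x ∈ C₁, fw w p m i x * bw w p i (N - i) x →
      (1 - z) * Z ≤ thrS w p m N K i n C₁ δ := by
    intro m C₁ Z m0 hC hZ
    obtain ⟨A, hA⟩ : ∃ A : ℝ, A = ∑ x ∈ C₁, fw w p m i x * bw w p i (N - i) x := ⟨_, rfl⟩
    have hA0 : 0 ≤ A := hA ▸ sum_nonneg fun x _ => mul_nonneg (m0 x) (F0' x).le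
    have h1 := sh m C₁ m0 hC
    rw [← hA] at hZ h1
    have h2 := mul_le_mul_of_nonneg_left hZ (show (0 : ℝ) ≤ 1 - z by linarith)
    have h3 : (1 - z) * ((1 + (Lc ^ 2 * e2 + Lam * Lc * (e1 * (1 + e2)))) * A) ≤ (1 - z3) * A := by
      rw [← mul_assoc]
      refine mul_le_mul_of_nonneg_right ?_ hA0
      have h5 : 1 - z ≤ 1 := by linarith
      have h6 := mul_le_mul_of_nonneg_right h5 zz
      linarith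
    exact h2.trans (h3.trans h1)
  have b1 : β₁ ⊆ Icc lo hi := c1.trans hS
  have b2 : β₂ ⊆ Icc lo hi := c2.trans hS
  exact new_of_inG' hw hp h hK hKN hQ b1 b2 hδ hlt hε' hz1 hZM hZR hin (fin l β₁ ZM A0 subset_union_left dA)
    (fin r β₂ ZR B0' subset_union_right dB)


/-! ### The joint form -/

variable {S T U C δ₀ δ δ' : Finset ℤ} {K₁ K₂ kap kap₂ : ℤ → ℤ → ℝ} {G B F : ℤ → ℝ} {L₁ L₂ V Φ e4 A₁ A₂ G₀ B₀ Lb : ℝ}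

/-- The future on the cells, at the price of the inside and of the start cell of the exit only. -/
theorem reg47 (h : Jnt S T U C δ₀ δ δ' K₁ K₂ kap kap₂ G L₁ L₂ V Φ e4 A₁ A₂ G₀) (hB : ∀ v ∈ T, B v = ∑ z ∈ U, K₂ v z * G z)
    (hF : ∀ x ∈ S, F x = ∑ y ∈ T, K₁ x y * B y) (up1 : ∀ x ∈ C, ∑ y ∈ δ, K₁ x y ≤ L₁ * A₁) (B00 : 0 ≤ B₀) (Lb0 : 0 ≤ Lb)
    (cu : ∀ v ∈ δ, B v ≤ Lb * B₀) (cl : ∀ v ∈ δ₀, B₀ ≤ Lb * B v) {v₀ : ℤ} (hv₀ : v₀ ∈ δ₀) (z3 : e4 * V * L₁ ^ 2 * L₂ * Φ ≤ 1 / 2) :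
    (∀ x ∈ S, F x ≤ L₁ * L₂ ^ 2 * V ^ 2 * Φ * Lb * jph U kap G G₀ x * (A₁ * B₀)) ∧
    (∀ x ∈ C, F x ≤ 2 * L₁ * Lb * (A₁ * B₀)) ∧ (∀ x ∈ C, A₁ * B₀ ≤ 2 * L₁ * Lb * F x) := by
  obtain ⟨r1, -, -, r4⟩ := h.reg hB hF
  have hV : 0 ≤ V := zero_le_one.trans h.V1
  have hΦ : 0 ≤ Φ := zero_le_one.trans h.Φ1
  have hL1 := h.L10
  have hL2 := h.L20
  have hA1 := h.A10
  have hA2 := h.A20
  have hG := h.G00
  have B0' : ∀ y ∈ T, 0 ≤ B y := fun y hy => by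
    rw [hB y hy]
    exact sum_nonneg fun z _ => mul_nonneg (h.K20 y z) (h.G0' z)
  have F0' : ∀ x ∈ S, 0 ≤ F x := fun x hx => by
    rw [hF x hx]
    exact sum_nonneg fun y hy => mul_nonneg (h.K10 x y) (B0' y hy)
  -- the size of the exit
  have a2 : A₂ * G₀ ≤ L₂ * V * (Lb * B₀) :=
    (h.loB hB hv₀).trans (mul_le_mul_of_nonneg_left (cu v₀ (h.δ0 hv₀)) (mul_nonneg hL2 hV))
  have jp0 : ∀ x, 0 ≤ jph U kap G G₀ x := fun x =>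
    div_nonneg (sum_nonneg fun z _ => mul_nonneg (h.kp x z) (h.G0' z)) hG.le
  refine ⟨fun x hx => ?_, fun x hx => ?_, fun x hx => ?_⟩
  · refine (r1 x hx).trans ?_
    have h1 : A₁ * A₂ * G₀ ≤ A₁ * (L₂ * V * (Lb * B₀)) := by
      have := mul_le_mul_of_nonneg_left a2 hA1
      linarith
    have h2 : 0 ≤ L₁ * L₂ * V * Φ * jph U kap G G₀ x := mul_nonneg (by positivity) (jp0 x)
    refine (mul_le_mul_of_nonneg_left h1 h2).trans (le_of_eq ?_)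
    ring
  · have h1 : ∑ y ∈ δ, K₁ x y * B y ≤ L₁ * A₁ * (Lb * B₀) := by
      calc ∑ y ∈ δ, K₁ x y * B y ≤ ∑ y ∈ δ, K₁ x y * (Lb * B₀) :=
            sum_le_sum fun y hy => mul_le_mul_of_nonneg_left (cu y hy) (h.K10 x y)
        _ = (∑ y ∈ δ, K₁ x y) * (Lb * B₀) := by rw [sum_mul]
        _ ≤ _ := mul_le_mul_of_nonneg_right (up1 x hx) (mul_nonneg Lb0 B00)
    have h2 := r4 x hx
    have h3 := mul_le_mul_of_nonneg_right z3 (F0' x (h.CS hx))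
    have h4 : 2 * L₁ * Lb * (A₁ * B₀) = 2 * (L₁ * A₁ * (Lb * B₀)) := by ring
    rw [h4]
    linarith
  · have h1 : A₁ * B₀ ≤ L₁ * Lb * F x := by
      calc A₁ * B₀ ≤ (L₁ * ∑ y ∈ δ₀, K₁ x y) * B₀ := mul_le_mul_of_nonneg_right (h.lo1 x hx) B00
        _ = L₁ * ∑ y ∈ δ₀, K₁ x y * B₀ := by rw [mul_assoc, sum_mul]
        _ ≤ L₁ * ∑ y ∈ δ₀, K₁ x y * (Lb * B y) :=
            mul_le_mul_of_nonneg_left (sum_le_sum fun y hy => mul_le_mul_of_nonneg_left (cl y hy) (h.K10 x y)) hL1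
        _ = L₁ * Lb * ∑ y ∈ δ₀, K₁ x y * B y := by
            rw [mul_assoc, mul_sum (s := δ₀) (f := fun y => K₁ x y * B y)]
            congr 1
            refine sum_congr rfl fun y _ => ?_
            ring
        _ ≤ L₁ * Lb * F x := by
            rw [hF x (h.CS hx)]
            refine mul_le_mul_of_nonneg_left ?_ (mul_nonneg hL1 Lb0)
            exact sum_le_sum_of_subset_of_nonneg (h.δ0.trans h.δT) fun y hy _ => mul_nonneg (h.K10 x y) (B0' y hy)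
    have h2 : 0 ≤ L₁ * Lb * F x := mul_nonneg (mul_nonneg hL1 Lb0) (F0' x (h.CS hx))
    have h3 : 2 * L₁ * Lb * F x = 2 * (L₁ * Lb * F x) := by ring
    rw [h3]
    linarith

/-- **(d3), joint, the tune error separated.** Rows `i`, `K = i + n = e`, `K + m = c3`. -/
theorem d3K_47 (hw : ∀ k y, 0 < w k y) (hp : ∀ k, 0 < p k) (h : Box l r X lo hi N) {Q : Finset (ℕ × ℤ)} {K i n m : ℕ}
    (hK : i + n = K) (hKN : K + m ≤ N) (hQ : Q ⊆ Ico i K ×ˢ Icc lo hi) {β₁ β₂ : Finset ℤ} (hlt : ∀ x ∈ β₁, ∀ x' ∈ β₂, x < x')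
    (hJ : Jnt (Icc lo (hi - (n + m : ℕ))) (Icc lo (hi - m)) (Icc lo hi) (β₁ ∪ β₂) δ₀ δ δ' K₁ K₂ kap kap₂ G L₁ L₂ V Φ e4 A₁ A₂ G₀)
    (hB : ∀ v ∈ Icc lo (hi - (m : ℤ)), B v = ∑ z ∈ Icc lo hi, K₂ v z * G z)
    (hKB : ∀ x ∈ Icc lo (hi - ((n + m : ℕ) : ℤ)), ∀ y ∈ Icc lo (hi - (m : ℤ)), ker w p i n x y * bw w p K (N - K) y = K₁ x y * B y)
    (up1 : ∀ x ∈ β₁ ∪ β₂, ∑ y ∈ δ, K₁ x y ≤ L₁ * A₁) (B00 : 0 ≤ B₀) (Lb0 : 0 ≤ Lb)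
    (cu : ∀ v ∈ δ, B v ≤ Lb * B₀) (cl : ∀ v ∈ δ₀, B₀ ≤ Lb * B v) {v₀ : ℤ} (hv₀ : v₀ ∈ δ₀)
    {ε' e1 e2 z z3 : ℝ} (hε' : ε' ≤ 1) (he1 : 0 ≤ e1) (he2 : 0 ≤ e2) (hz3 : z3 = e4 * V * L₁ ^ 2 * L₂ * Φ) (hz3' : z3 ≤ 1 / 2)
    (hz : (2 * L₁ * Lb) ^ 2 * e2 + (L₁ * L₂ ^ 2 * V ^ 2 * Φ * Lb) * (2 * L₁ * Lb) * (e1 * (1 + e2)) + z3 ≤ z) (hz1 : z ≤ 1)
    (hin : ∀ x ∈ β₁, ∀ x' ∈ β₂, ∀ y ∈ δ, ∀ y' ∈ δ,
      (1 - ε') * (ker w p i n x y * ker w p i n x' y') ≤ mq w p Q i n x x' y y')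
    (hI : SeamI (Icc lo hi) β₁ β₂ (fw w p l i) (fw w p r i) (jph (Icc lo hi) kap G G₀) e1 e2) {ZM ZR : ℝ}
    (hZM : ZM = ∑ y ∈ Icc lo hi, l y * bw w p 0 N y) (hZR : ZR = ∑ y ∈ Icc lo hi, r y * bw w p 0 N y) :
    (1 - ε') * (1 - 2 * z) * (ZM * ZR) ≤ ∑ c ∈ Q, cq w p l r N c.1 c.2 := by
  have hF : ∀ x ∈ Icc lo (hi - ((n + m : ℕ) : ℤ)), bw w p i (N - i) x = ∑ y ∈ Icc lo (hi - (m : ℤ)), K₁ x y * B y := by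
    intro x hx
    have hx' := mem_Icc.1 hx
    push_cast at hx'
    have h1 := (sum_ker_eq (w := w) (p := p) (lo := lo) (hi := hi) (N := N) hK (by omega) (x := x) hx'.1 (by omega)).symm
    rw [h1, ← sum_congr rfl fun y hy => hKB x hx y hy]
    symm
    refine sum_subset (Icc_subset_Icc le_rfl (by omega)) fun y hy hy' => ?_
    rw [mem_Icc] at hy hy'
    rw [ker_eq_zero i n x y (fun hc => hy' ⟨hy.1, by omega⟩), zero_mul]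
  obtain ⟨-, -, -, r4⟩ := hJ.reg hB hF
  obtain ⟨r1, r2, r3⟩ := reg47 hJ hB hF up1 B00 Lb0 cu cl hv₀ (hz3 ▸ hz3')
  have hV : 0 ≤ V := zero_le_one.trans hJ.V1
  have hΦ : 0 ≤ Φ := zero_le_one.trans hJ.Φ1
  have hL1 := hJ.L10
  have hL2 := hJ.L20
  have he4 := hJ.e40
  have hAB : 0 ≤ A₁ * B₀ := mul_nonneg hJ.A10 B00
  have hS : Icc lo (hi - ((n + m : ℕ) : ℤ)) ⊆ Icc lo hi := Icc_subset_Icc le_rfl (by omega)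
  refine d3F_47 (S := Icc lo (hi - ((n + m : ℕ) : ℤ))) (Lam := L₁ * L₂ ^ 2 * V ^ 2 * Φ * Lb) (Lc := 2 * L₁ * Lb) (F0 := A₁ * B₀)
    (z3 := z3) (ph := jph (Icc lo hi) kap G G₀) hw hp h hK (by omega) hQ hS ?_ hJ.CS
    (hJ.δT.trans (Icc_subset_Icc le_rfl (by omega))) hlt hε' he1 he2 (by rw [hz3]; positivity) (by positivity) (by positivity) hAB hz hz1
    hin hI ?_ r2 r3 ?_ hZM hZR
  · intro x hx hx'
    rw [mem_Icc] at hx hx'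
    have hx2 : hi - ((n + m : ℕ) : ℤ) < x := by
      by_contra hc
      exact hx' ⟨hx.1, by omega⟩
    push_cast at hx2
    exact ⟨fw_hi (B := hi - N) (fun y hy => (h.hi0 y hy).1) i x (by omega), fw_hi (B := hi - N) (fun y hy => (h.hi0 y hy).2) i x (by omega)⟩
  · exact fun x hx _ => r1 x hx
  · intro x hx
    rw [sum_congr rfl fun y hy => hKB x (hJ.CS hx) y (hJ.δT hy), hz3]
    exact r4 x hx

variable {Γ : Cx} {η : Env}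

/-- **(d3), joint, the tune error separated, for a context.** -/
theorem d3K_Cx (hk : 1 ≤ Γ.k) (hq0 : ∀ j, j < Γ.k → 0 ≤ Γ.q j) (hq1 : ∃ j, j < Γ.k ∧ 0 < Γ.q j) {Q : Finset (ℕ × ℤ)} {K i n m : ℕ}
    (hK : i + n = K) (hKN : K + m ≤ Γ.N) (hQ : Q ⊆ Ico i K ×ˢ Icc (0 : ℤ) Γ.hi) {β₁ β₂ : Finset ℤ}
    (hlt : ∀ x ∈ β₁, ∀ x' ∈ β₂, x < x')
    (hJ : Jnt (Icc 0 (Γ.hi - (n + m : ℕ))) (Icc 0 (Γ.hi - m)) (Icc 0 Γ.hi) (β₁ ∪ β₂) δ₀ δ δ' K₁ K₂ kap kap₂ G L₁ L₂ V Φ e4 A₁ A₂ G₀)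
    (hB : ∀ v ∈ Icc (0 : ℤ) (Γ.hi - (m : ℤ)), B v = ∑ z ∈ Icc 0 Γ.hi, K₂ v z * G z)
    (hKB : ∀ x ∈ Icc (0 : ℤ) (Γ.hi - ((n + m : ℕ) : ℤ)), ∀ y ∈ Icc (0 : ℤ) (Γ.hi - (m : ℤ)),
      ker (wt η) Γ.p i n x y * bw (wt η) Γ.p K (Γ.N - K) y = K₁ x y * B y)
    (up1 : ∀ x ∈ β₁ ∪ β₂, ∑ y ∈ δ, K₁ x y ≤ L₁ * A₁) (B00 : 0 ≤ B₀) (Lb0 : 0 ≤ Lb)
    (cu : ∀ v ∈ δ, B v ≤ Lb * B₀) (cl : ∀ v ∈ δ₀, B₀ ≤ Lb * B v) {v₀ : ℤ} (hv₀ : v₀ ∈ δ₀)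
    {ε' e1 e2 z z3 : ℝ} (hε' : ε' ≤ 1) (he1 : 0 ≤ e1) (he2 : 0 ≤ e2) (hz3 : z3 = e4 * V * L₁ ^ 2 * L₂ * Φ) (hz3' : z3 ≤ 1 / 2)
    (hz : (2 * L₁ * Lb) ^ 2 * e2 + (L₁ * L₂ ^ 2 * V ^ 2 * Φ * Lb) * (2 * L₁ * Lb) * (e1 * (1 + e2)) + z3 ≤ z) (hz1 : z ≤ 1)
    (hin : ∀ x ∈ β₁, ∀ x' ∈ β₂, ∀ y ∈ δ, ∀ y' ∈ δ,
      (1 - ε') * (ker (wt η) Γ.p i n x y * ker (wt η) Γ.p i n x' y') ≤ mq (wt η) Γ.p Q i n x x' y y')
    (hI : SeamI (Icc 0 Γ.hi) β₁ β₂ (fw (wt η) Γ.p Cx.l i) (fw (wt η) Γ.p Γ.r i) (jph (Icc 0 Γ.hi) kap G G₀) e1 e2) :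
    (1 - ε') * (1 - 2 * z) ≤ ∑ c ∈ Q, Γ.w c η := by
  refine w_of_cq hk hq0 hq1 ?_
  exact d3K_47 (wt_pos η) H83.p_pos (H83.box hk hq0) hK hKN hQ hlt hJ hB hKB up1 B00 Lb0 cu cl hv₀ hε' he1 he2 hz3 hz3' hz hz1 hin hI
    (sum_l83 Γ η) rfl

/-! ### The profile on the start cell of the exit -/

/-- **`cellB` from a lane with cells.** `B v = ∑ kF v y H y`; from `v` in the start cell to the end cell `D` at most `q₁` times the lane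
`kF a y₀`, the profile `H` behind it oscillates at most `q₂` on `D`, the rest is at most `q₃`. -/
theorem cell47 {Y D : Finset ℤ} {kF : ℤ → ℤ → ℝ} {H : ℤ → ℝ} {a y₀ v : ℤ} {q₁ q₂ q₃ : ℝ} (hD : D ⊆ Y) (hy₀ : y₀ ∈ Y)
    (k0 : ∀ x y, 0 ≤ kF x y) (H0 : ∀ y, 0 ≤ H y) (q20 : 0 ≤ q₂) (q10 : 0 ≤ q₁) (q30 : 0 ≤ q₃) (c1 : ∀ y ∈ D, kF v y ≤ q₁ * kF a y₀)
    (c2 : ∀ y ∈ D, H y ≤ q₂ * H y₀) (c3 : ∑ y ∈ Y \ D, kF v y * H y ≤ q₃ * (kF a y₀ * H y₀)) :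
    ∑ y ∈ Y, kF v y * H y ≤ (D.card * (q₁ * q₂) + q₃) * ∑ y ∈ Y, kF a y * H y := by
  have h1 : kF a y₀ * H y₀ ≤ ∑ y ∈ Y, kF a y * H y :=
    single_le_sum (f := fun y => kF a y * H y) (fun y _ => mul_nonneg (k0 a y) (H0 y)) hy₀
  have h2 : ∑ y ∈ D, kF v y * H y ≤ D.card * (q₁ * q₂) * (kF a y₀ * H y₀) := by
    calc ∑ y ∈ D, kF v y * H y ≤ ∑ _y ∈ D, q₁ * q₂ * (kF a y₀ * H y₀) := by
          refine sum_le_sum fun y hy => ?_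
          refine (mul_le_mul (c1 y hy) (c2 y hy) (H0 y) (mul_nonneg q10 (k0 _ _))).trans (le_of_eq ?_)
          ring
      _ = _ := by
          rw [sum_const, nsmul_eq_mul]
          ring
  rw [← sum_sdiff hD]
  have h3 : 0 ≤ D.card * (q₁ * q₂) + q₃ := by positivity
  have h4 := mul_le_mul_of_nonneg_left h1 h3
  linarith

/-- **The profile behind a slab of small cross ratio.** -/
theorem rank47 {U W : Finset ℤ} {kR : ℤ → ℤ → ℝ} {G : ℤ → ℝ} {y y₀ z₀ : ℤ} {c q₀ q₄ : ℝ} (hW : W ⊆ U) (k0 : ∀ x y, 0 ≤ kR x y)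
    (G0 : ∀ y, 0 ≤ G y) (hc : 0 ≤ c) (hq₀ : 0 ≤ q₀) (kz : 0 < kR y₀ z₀)
    (cr : ∀ z ∈ W, kR y z * kR y₀ z₀ ≤ c * (kR y z₀ * kR y₀ z)) (hz₀ : kR y z₀ ≤ q₀ * kR y₀ z₀)
    (off : ∑ z ∈ U \ W, kR y z * G z ≤ q₄ * ∑ z ∈ U, kR y₀ z * G z) :
    ∑ z ∈ U, kR y z * G z ≤ (c * q₀ + q₄) * ∑ z ∈ U, kR y₀ z * G z := by
  have h1 : ∀ z ∈ W, kR y z ≤ c * q₀ * kR y₀ z := by
    intro z hz
    have h2 : kR y z * kR y₀ z₀ ≤ c * q₀ * kR y₀ z * kR y₀ z₀ := by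
      refine (cr z hz).trans ?_
      have h3 := mul_le_mul_of_nonneg_right hz₀ (k0 y₀ z)
      have h4 := mul_le_mul_of_nonneg_left h3 hc
      linarith
    exact le_of_mul_le_mul_right h2 kz
  have h2 : ∑ z ∈ W, kR y z * G z ≤ c * q₀ * ∑ z ∈ U, kR y₀ z * G z := by
    calc ∑ z ∈ W, kR y z * G z ≤ ∑ z ∈ W, c * q₀ * (kR y₀ z * G z) := by
          refine sum_le_sum fun z hz => ?_
          refine (mul_le_mul_of_nonneg_right (h1 z hz) (G0 z)).trans (le_of_eq ?_)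
          ring
      _ = c * q₀ * ∑ z ∈ W, kR y₀ z * G z := by rw [mul_sum]
      _ ≤ _ := mul_le_mul_of_nonneg_left (sum_le_sum_of_subset_of_nonneg hW fun z _ _ => mul_nonneg (k0 y₀ z) (G0 z))
          (mul_nonneg hc hq₀)
  rw [← sum_sdiff hW, add_mul]
  linarith

end

end Pool.Agent.W_7d29a1_C1.Fr47
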