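import Pool.Agent.W_7d29a1_C1.FreB26
import Pool.Agent.W_7d29a1_C1.BufZ26

/-!
MP_7d29a1_pr, [C1] THE BUFFER FILE OF THE FRESH BALL over `In` only (helper26). Do not import this file in a leaf: state the leaf under
`RkP26`, `TslP26`.
-/

set_option autoImplicit false

namespace Pool.Agent.W_7d29a1_C1.B26

open MeasureTheory ProbabilityTheory Filter Topology Finset
open Pool.Agent.W_7d29a1_F Pool.Agent.W_7d29a1_h4g Pool.Agent.W_7d29a1_H Pool.Agent.W_7d29a1_HS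
open Pool.Agent.W_7d29a1_C1
open Pool.Agent.W_7d29a1_C1.Basin76
open Pool.Agent.W_7d29a1_C1.S83 (RowG meas_RowG rowG83)

noncomputable section

variable {μ : Measure ℝ} {s c C : ℝ} {n₀ : ℕ}

/-- **THE BUFFER FILE OF THE FRESH BALL, over `In` only.** -/
theorem freZ26 [IsProbabilityMeasure μ] (h : In μ s c C n₀) {eps : ℝ} (heps : 0 < eps) :
    ∃ ell : ℝ, 0 ≤ ell ∧ ∀ th' K0 del rD dd be g L Kw u0 : ℝ, 0 < th' → 0 ≤ K0 → 0 < del → 0 < rD → 0 < dd → 0 ≤ be → be ≤ c / 8 →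
      0 ≤ g → 0 ≤ L → 0 ≤ Kw → 0 < u0 →
    ∃ (th K Kx hB ellw Kc Q1 Qe Qw c' : ℝ) (Pe Pw j1 j2 : ℕ), 0 < th ∧ th ≤ rD ∧ th ≤ del / 8 ∧ 0 ≤ Kx ∧ Kx + 1 ≤ K ∧ Kw ≤ K ∧
      be ≤ hB ∧ 1 ≤ hB ∧ 0 ≤ ellw ∧ 0 < Kc ∧ 0 ≤ Q1 ∧ 0 ≤ Qe ∧ 0 ≤ Qw ∧ 0 < c' ∧ 1 ≤ j1 ∧ 1 ≤ j2 ∧ 1 ≤ th' * j2 ∧
    ∀ G' : ℝ, 0 ≤ G' → ∃ (p : ℝ) (Q k₁ : ℕ), 0 < p ∧ 1 ≤ Q ∧ 1 ≤ k₁ ∧
    ∀ k : ℕ, k₁ ≤ k → ∀ nM T nB : ℕ, nM = Q * j2 * k → T = Q * (j1 * j2) * k → nB = Q * j1 * k →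
    ∃ r : ℝ, 0 ≤ r ∧ r ≤ th * wd μ s T ∧ 1 ≤ th * wd μ s T ∧
    ∀ (b : Pt) (u t : Bool → ℤ), (∀ i, |((u i - b.2 : ℤ) : ℝ)| ≤ K0 * wd μ s T) →
      (∀ i, |((t i - b.2 : ℤ) : ℝ) - sl μ s * (nM + T : ℕ)| ≤ K0 * wd μ s T) →
      (u false : ℝ) + del * wd μ s T ≤ u true → (t false : ℝ) + del * wd μ s T ≤ t true →
    ∃ SA SB : Set Env, MeasurableSet SA ∧ MeasurableSet SB ∧ On20 (rows (b.1 - 1) (b.1 + nM + T)) SA ∧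
      On20 (rows (b.1 + nM + T) (b.1 + nM + T + nB)) SB ∧ p ≤ (law μ).real SA ∧ (law μ).real SBᶜ ≤ eps ∧
      ∀ (z : Pt) (η : Env), sh z η ∈ SA →
        η ∈ RowG (b.1 + z.1) (b.2 + z.2) (wd μ s T) (u0 * EE μ s T) ∧
        η ∈ RowG (b.1 + z.1 + nM + T) (cp26 (sl μ s) (b.2 + z.2) (nM + T)) (wd μ s T) (u0 * EE μ s T) ∧
        ∃ A : ℝ,
        MO26 (kW μ s η (b.1 + z.1) (nM + T)) (fun x => lt26 (sl μ s) (wd μ s T) 0 (x - (b.2 + z.2)))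
          (fun x => lt26 (sl μ s) (wd μ s T) (nM + T) (x - (b.2 + z.2))) (EE μ s T) (fun i => u i + z.2) (fun i => t i + z.2)
          (th * wd μ s T) r L Q1 A (ell + 2 * dd) g G' be Pe Qe (3 * c / 4) ∧
        (sh z η ∈ SB → BO26 (kW μ s η (b.1 + z.1) (nM + (T + nB))) (fun x => lt26 (sl μ s) (wd μ s T) 0 (x - (b.2 + z.2)))
          (fun x => lt26 (sl μ s) (wd μ s T) (nM + T + nB) (x - (b.2 + z.2))) (EE μ s T) (fun i => u i + z.2)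
          (fun i => lt26 (sl μ s) (wd μ s T) (nM + T) (t i - b.2)) (th * wd μ s T) K Kx del A (Real.exp (-((T : ℕ) : ℝ) ^ c'))
          (ell + 2 * dd) ellw Kc be g G' hB Pw Qw (c / 2)) := freB26 h (rkP26 h) (tslP26 h) heps

end

end Pool.Agent.W_7d29a1_C1.B26
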