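import Pool.Agent.W_7d29a1_C1.Rw10
import Pool.Agent.W_7d29a1_C1.Bas47

/-!
MP_7d29a1_pr, [C1], SHELL, THE FRESH BALL (helper10): **THE FRAME** of the field `fr` of `Cc8` / `Ce8` (helper47 88814 (2) (F)).

`five10` : five events on the consecutive intervals of rows of the ball. `Sp10` : the part of the places of the inner half. `frame10` : one
box, one outside `ω`: (S) = events of the two outer intervals and `ζ ∈ So`; (A), (X) = the base sets of `Bas47`; (I) = an event of the rows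
`(c0', e]` inside `FF10`; (W) = the weight. Conclusion = the text of `fr` with `NF = 5`.
-/

set_option autoImplicit false

namespace Pool.Agent.W_7d29a1_C1.T10

open MeasureTheory Filter Topology
open Pool.Agent.W_7d29a1_F Pool.Agent.W_7d29a1_h4g Pool.Agent.W_7d29a1_H Pool.Agent.W_7d29a1_HS
open Pool.Agent.W_7d29a1_C1.S71 Pool.Agent.W_7d29a1_C1.Sw9 Pool.Agent.W_7d29a1_C1.U16 Pool.Agent.W_7d29a1_C1.H60
open Pool.Agent.W_7d29a1_C1 (On20)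
open Pool.Agent.W_7d29a1_C1.Fr47 (Bas47 Sb47 law_sh47 on_sh47)
open scoped ENNReal

noncomputable section

variable {μ : Measure ℝ}

/-! ### Five events -/

/-- The index of five events. -/
def five (E0 E1 E2 E3 E4 : Set Env) : ℕ → Set Env
  | 0 => E0
  | 1 => E1
  | 2 => E2
  | 3 => E3
  | _ + 4 => E4

/-- Five numbers. -/
def fiveR (q0 q1 q2 q3 q4 : ℝ) : ℕ → ℝ
  | 0 => q0
  | 1 => q1
  | 2 => q2
  | 3 => q3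
  | _ + 4 => q4

theorem fiveR_pos {q0 q1 q2 q3 q4 : ℝ} (h0 : 0 < q0) (h1 : 0 < q1) (h2 : 0 < q2) (h3 : 0 < q3) (h4 : 0 < q4) (j : ℕ) :
    0 < fiveR q0 q1 q2 q3 q4 j := by
  match j with
  | 0 => exact h0
  | 1 => exact h1
  | 2 => exact h2
  | 3 => exact h3
  | _ + 4 => exact h4

/-- **FIVE EVENTS ON CONSECUTIVE INTERVALS OF ROWS**, all in the region `Bl`. -/
theorem five10 {r : ℕ → ℤ} (hr : Monotone r) {Bl : Set Pt} (hB : ∀ j < 5, AI r j ⊆ Bl) {ω : Env} {q0 q1 q2 q3 q4 : ℝ}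
    {C : Env → Prop} {E0 E1 E2 E3 E4 : Set Env} (m0 : MeasurableSet E0) (m1 : MeasurableSet E1) (m2 : MeasurableSet E2)
    (m3 : MeasurableSet E3) (m4 : MeasurableSet E4) (o0 : On20 (AI r 0) E0) (o1 : On20 (AI r 1) E1) (o2 : On20 (AI r 2) E2)
    (o3 : On20 (AI r 3) E3) (o4 : On20 (AI r 4) E4) (p0 : q0 ≤ (law μ).real E0) (p1 : q1 ≤ (law μ).real E1) (p2 : q2 ≤ (law μ).real E2)
    (p3 : q3 ≤ (law μ).real E3) (p4 : q4 ≤ (law μ).real E4)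
    (H : ∀ ζ : Env, (∀ p, p ∉ Bl → ζ p = ω p) → ζ ∈ E0 → ζ ∈ E1 → ζ ∈ E2 → ζ ∈ E3 → ζ ∈ E4 → C ζ) :
    ∃ (A' : ℕ → Set Pt) (E : ℕ → Set Env), (∀ j < 5, MeasurableSet (E j)) ∧ (∀ j < 5, On20 (A' j) (E j)) ∧
      (∀ j < 5, ∀ j' < 5, j ≠ j' → Disjoint (A' j) (A' j')) ∧ (∀ j < 5, fiveR q0 q1 q2 q3 q4 j ≤ (law μ).real (E j)) ∧
      ∀ η, (∀ j < 5, η ∈ E j) → ∀ ζ, ζ = gl Bl η ω → C ζ := by
  have on : ∀ j < 5, On20 (AI r j) (five E0 E1 E2 E3 E4 j) := fun j hj => by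
    match j, hj with
    | 0, _ => exact o0
    | 1, _ => exact o1
    | 2, _ => exact o2
    | 3, _ => exact o3
    | 4, _ => exact o4
  refine ⟨AI r, five E0 E1 E2 E3 E4, fun j hj => ?_, on, fun j _ j' _ hne => AI_disj hr hne, fun j hj => ?_, fun η hη ζ hζ => ?_⟩
  · match j, hj with
    | 0, _ => exact m0
    | 1, _ => exact m1
    | 2, _ => exact m2
    | 3, _ => exact m3
    | 4, _ => exact m4
  · match j, hj with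
    | 0, _ => exact p0
    | 1, _ => exact p1
    | 2, _ => exact p2
    | 3, _ => exact p3
    | 4, _ => exact p4
  · subst hζ
    have key : ∀ j < 5, gl Bl η ω ∈ five E0 E1 E2 E3 E4 j := fun j hj =>
      (on j hj _ _ fun p hp => gl_of_mem (hB j hj hp) η ω).2 (hη j hj)
    exact H _ (fun p hp => gl_of_not_mem hp η ω) (key 0 (by norm_num)) (key 1 (by norm_num)) (key 2 (by norm_num)) (key 3 (by norm_num))
      (key 4 (by norm_num))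

/-! ### The part of the places -/

/-- **The set `Sp`** : end pieces at the place `o`; nothing below the level `j₀`. -/
def Sp10 (μ : Measure ℝ) (s c θ Kw : ℝ) (P : ℕ) (T : ℕ → ℕ) (j₀ : ℕ) (rA rE : ℕ → ℤ) (qx : ℝ) (j : ℕ) (o : ℕ × ℤ) : Set Env :=
  {_η | j₀ ≤ j} ∩ ELx60 μ s c θ Kw P (2 * T j) (T (j - 1)) (rA j) (rE j) qx o

section sp

variable [IsProbabilityMeasure μ] {s c θ Kw : ℝ} {P : ℕ} {T : ℕ → ℕ} {j₀ : ℕ} {rA rE : ℕ → ℤ} {qx : ℝ} {j : ℕ} {o : ℕ × ℤ}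

/-- `mSp` of `Cm8`. -/
theorem Sp10_meas : MeasurableSet (Sp10 μ s c θ Kw P T j₀ rA rE qx j o) := (MeasurableSet.const _).inter (measurableSet_ELx60 _)

/-- **`rSp` of `Cm8`.** -/
theorem Sp10_on (hT : ∀ v, T v ≤ T (v + 1)) (hj₀ : 1 ≤ j₀) (hA : j₀ ≤ j → -(T j : ℤ) ≤ rA j) (hE : j₀ ≤ j → rE j ≤ T j) :
    On20 (RP T j o) (Sp10 μ s c θ Kw P T j₀ rA rE qx j o) := by
  by_cases h0 : j₀ ≤ j
  swap
  · intro η η' _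
    exact ⟨fun h1 => absurd h1.1 h0, fun h1 => absurd h1.1 h0⟩
  · exact on_inter (fun η η' _ => Iff.rfl) (ELx60_RP hT (by omega) (hA h0) (hE h0) o)

end sp

/-! ### One box, one outside -/

variable [IsProbabilityMeasure μ] {s c θ Kw : ℝ} {R C₀ : ℝ} {B h₀ K L : ℕ} {G : Gd} {P Lm : ℕ} {y : ℕ → ℝ}

/-- **THE FRAME OF `fr`.** `rA` = end of the first buffer (relative row), `rE` = the row `e`, `qx` = level of the end pieces. -/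
theorem frame10 (g : GW μ s R B C₀ h₀ K L G) (hK : 8 ≤ K) {j₀ m : ℕ} (hj₀ : 2 ≤ j₀) {rA rB rE : ℕ → ℤ} {pA εB pX : ℝ}
    {FA FB FX : ℕ → Pt → Env → Prop} {SA SB SX : ℕ → Set Env} (hBas : Bas47 μ (Tg h₀ K) j₀ m rA rB rE pA εB pX FA FB FX SA SB SX)
    {i m₂ : ℕ} (hi : j₀ ≤ i) (him : i < m) (hm : 1 ≤ m₂) (hL : i + m₂ ≤ L) {q₀ : ℕ × ℤ} (hz : Tg h₀ K (i + m₂) ≤ (G.z (i + m₂) q₀).1)
    {c0 e : ℕ} (hc : (c0 : ℤ) = (G.z i q₀).1 + rA i) (he : (e : ℤ) = (G.z i q₀).1 + rE i) (hA1 : -(Tg h₀ K i : ℤ) ≤ rA i)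
    (hA2 : rA i ≤ 0) (hE0 : 0 ≤ rE i) (hE1 : rE i ≤ Tg h₀ K i) {ω : Env} {So : Set Env} {S : Finset (ℕ × ℤ)} {f : ℕ × ℤ → Env → ℝ}
    (hf : ∀ b ζ, 0 ≤ f b ζ) {lo hi' : ℤ} {qx q0 q2 q4 a : ℝ} {FI : Env → Prop}
    -- (S)
    (hS : ∃ E0 E5 : Set Env, MeasurableSet E0 ∧ MeasurableSet E5 ∧
      On20 (AI (rF (G.z (i + m₂) q₀).1 (Tg h₀ K (i + m₂)) (G.z i q₀).1 (Tg h₀ K i) c0 e) 0) E0 ∧
      On20 (AI (rF (G.z (i + m₂) q₀).1 (Tg h₀ K (i + m₂)) (G.z i q₀).1 (Tg h₀ K i) c0 e) 4) E5 ∧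
      q0 ≤ (law μ).real E0 ∧ q4 ≤ (law μ).real E5 ∧
      ∀ ζ : Env, (∀ p, p ∉ At (G.x (i + m₂) q₀) (AT (Tg h₀ K) (i + m₂)) → ζ p = ω p) → ζ ∈ E0 → ζ ∈ E5 → ζ ∈ So)
    -- (I)
    (hI : ∃ E2 : Set Env, MeasurableSet E2 ∧ On20 (rows (c0 : ℤ) (e : ℤ)) E2 ∧ q2 ≤ (law μ).real E2 ∧ ∀ ζ ∈ E2,
      ζ ∈ FF10 μ s c θ Kw P G L Lm (Tg h₀ K) y i q₀ (rA i) (rE i) qx (sh (G.x i q₀) ⁻¹' SB i) ∧ FI ζ)
    -- (W)
    (hW : ∀ ζ : Env, (∀ p, p ∉ At (G.x (i + m₂) q₀) (AT (Tg h₀ K) (i + m₂)) → ζ p = ω p) → ζ ∈ So → FA i (G.x i q₀) ζ →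
      FB i (G.x i q₀) ζ → FX i (G.x i q₀) ζ → FI ζ → a ≤ ∑ b ∈ QF G i q₀ S lo hi', f b ζ) :
    ∃ (A' : ℕ → Set Pt) (E : ℕ → Set Env), (∀ j < 5, MeasurableSet (E j)) ∧ (∀ j < 5, On20 (A' j) (E j)) ∧
      (∀ j < 5, ∀ j' < 5, j ≠ j' → Disjoint (A' j) (A' j')) ∧ (∀ j < 5, fiveR q0 pA q2 pX q4 j ≤ (law μ).real (E j)) ∧
      ∀ η, (∀ j < 5, η ∈ E j) → ∀ ζ, ζ = gl (At (G.x (i + m₂) q₀) (AT (Tg h₀ K) (i + m₂))) η ω →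
        ζ ∈ So ∧ sh (G.x i q₀) ζ ∈ Sb47 j₀ SA SB SX i ∧
        (∀ b ∈ S, G.z i b = G.z i q₀ → sh (G.x i q₀) ζ ∈ Sp10 μ s c θ Kw P (Tg h₀ K) j₀ rA rE qx i (G.z (i - 1) (G.rel i b))) ∧
        ζ ∈ NR60 G L (LvE Lm (EL60 μ s c θ Kw P (Tg h₀ K) y)) i (i - 2) q₀ ∧
        a ≤ ∑ b ∈ S.filter (fun b => G.z i b = G.z i q₀), f b ζ := by
  obtain ⟨E0, E5, mE0, mE5, oE0, oE5, pE0, pE5, HS⟩ := hS
  obtain ⟨E2, mE2, oE2, pE2, HI⟩ := hI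
  have hi2 : 2 ≤ i := hj₀.trans hi
  obtain ⟨hz', a2, -, -⟩ := g.low hK (show 1 ≤ i by omega) hm hL hz
  obtain ⟨a3, -, -⟩ := g.upp hK (show 1 ≤ i by omega) hm hL q₀
  have hr : Monotone (rF (G.z (i + m₂) q₀).1 (Tg h₀ K (i + m₂)) (G.z i q₀).1 (Tg h₀ K i) c0 e) := by
    refine Pool.Agent.W_7d29a1_C1.T10.rF_mono ?_ ?_ ?_ ?_ ?_ <;> omega
  -- the rows of the base sets
  have eA : AI (rF (G.z (i + m₂) q₀).1 (Tg h₀ K (i + m₂)) (G.z i q₀).1 (Tg h₀ K i) c0 e) 1 =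
      rows ((G.x i q₀).1 + -(Tg h₀ K i : ℤ)) ((G.x i q₀).1 + rA i) := by
    show rows (((G.z i q₀).1 : ℤ) - Tg h₀ K i) (c0 : ℤ) = rows (((G.z i q₀).1 : ℤ) + -(Tg h₀ K i : ℤ)) (((G.z i q₀).1 : ℤ) + rA i)
    rw [hc, sub_eq_add_neg]
  have eX : AI (rF (G.z (i + m₂) q₀).1 (Tg h₀ K (i + m₂)) (G.z i q₀).1 (Tg h₀ K i) c0 e) 3 =
      rows ((G.x i q₀).1 + rE i) ((G.x i q₀).1 + (Tg h₀ K i : ℤ)) := by
    show rows (e : ℤ) (((G.z i q₀).1 : ℤ) + Tg h₀ K i) = rows (((G.z i q₀).1 : ℤ) + rE i) (((G.z i q₀).1 : ℤ) + (Tg h₀ K i : ℤ))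
    rw [he]
  refine five10 hr (fun j hj => rF_sub hr hj) (E0 := E0) (E1 := sh (G.x i q₀) ⁻¹' SA i) (E2 := E2) (E3 := sh (G.x i q₀) ⁻¹' SX i)
    (E4 := E5) mE0 ((hBas.mA i).preimage (measurable_sh _)) mE2 ((hBas.mX i).preimage (measurable_sh _)) mE5 oE0 ?_ oE2 ?_ oE5 pE0 ?_
    pE2 ?_ pE5 fun ζ hζ z0 z1 z2 z3 z4 => ?_
  · rw [eA]
    exact on_sh47 (hBas.oA i hi him) _
  · rw [eX]
    exact on_sh47 (hBas.oX i hi him) _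
  · rw [law_sh47 _ (hBas.mA i)]
    exact hBas.pA i hi him
  · rw [law_sh47 _ (hBas.mX i)]
    exact hBas.pX i hi him
  · obtain ⟨hFF, hFI⟩ := HI ζ z2
    obtain ⟨f1, f2, f3⟩ := FF10_out hFF g.ok (show i ≤ L by omega)
    have hSo := HS ζ hζ z0 z4
    refine ⟨hSo, ⟨hi, z1, f2, z3⟩, fun b _ _ => ⟨hi, f3 b⟩, f1, ?_⟩
    refine (hW ζ hζ hSo (hBas.fA i hi him _ _ z1) (hBas.fB i hi him _ _ z1 f2) (hBas.fX i hi him _ _ z3) hFI).trans ?_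
    exact Finset.sum_le_sum_of_subset_of_nonneg (QF_sub G i q₀ S lo hi') fun b _ _ => hf b ζ

end

end Pool.Agent.W_7d29a1_C1.T10
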