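import Pool.Agent.W_7d29a1_C1.InsF10

/-!
MP_7d29a1_pr, [C1], SHELL, THE FRESH BALL (helper10): **THE FIELD `fr` OF `Cc8` / `Ce8` FOR ONE CONTEXT** (`frF10`), over the data `D8` with
`Sb := Sb47 j₀ SA SB SX`, `Sp := Sp10 ..`, `NF = 5`, `q = fiveR q0 pA (1 - (e₁ + ε + εB)) pX q4`. Inputs: the grid `GW`, `Fin10` (levels), the
base sets `Bas47`, (S) = the two outer events and `ζ ∈ So`, (W) = the weight. The levels `FC35` and (InG) of the inside are given to (W).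
-/

set_option autoImplicit false

namespace Pool.Agent.W_7d29a1_C1.T10

open MeasureTheory Filter Topology
open Pool.Agent.W_7d29a1_F Pool.Agent.W_7d29a1_h4g Pool.Agent.W_7d29a1_H Pool.Agent.W_7d29a1_HS
open Pool.Agent.W_7d29a1_C1.S71 Pool.Agent.W_7d29a1_C1.Sw9 Pool.Agent.W_7d29a1_C1.U16 Pool.Agent.W_7d29a1_C1.H60
open Pool.Agent.W_7d29a1_C1 (On20)
open Pool.Agent.W_7d29a1_C1.Fr47 (Bas47 Sb47 law_sh47 on_sh47)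
open Pool.Agent.W_7d29a1_C1.FreC35 (FC35)
open Pool.Agent.W_7d29a1_C1.H8 (D8 h8 m8 Sd8 yl8)
open scoped ENNReal

noncomputable section

/-- The inside is shorter than the scale. -/
theorem rE_rA10 {th : ℝ} (h0 : 0 < th) (h1 : th ≤ 1 / 4) {R₁ : ℕ} (hR : 1 ≤ R₁) : ∃ n₁ : ℕ, 1 ≤ n₁ ∧ ∀ (T : ℕ → ℕ) (j : ℕ), n₁ ≤ T j →
    rE10 T j - rA10 th R₁ T j ≤ T j := by
  obtain ⟨n₁, hn₁, H⟩ := rowsF h0 h1 hR 0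
  refine ⟨max n₁ (16 * R₁), hn₁.trans (le_max_left _ _), fun T j hT => ?_⟩
  obtain ⟨a1, -, a3, -, -, -⟩ := H (T j) (T j) ((le_max_left _ _).trans hT) le_rfl
  have hT2 : 16 * R₁ ≤ T j := (le_max_right _ _).trans hT
  have e1 := rA10_cF (th := th) (R₁ := R₁) (T := T) (j := j) (z := T j) le_rfl
  have h2 : th * (T j : ℕ) ≤ 1 / 4 * (T j : ℕ) := mul_le_mul_of_nonneg_right h1 (by positivity)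
  have h3 : 16 * (R₁ : ℝ) ≤ (T j : ℕ) := by exact_mod_cast hT2
  have h4 : ((T j - cF th R₁ (T j) (T j) : ℕ) : ℝ) ≤ ((T j : ℕ) : ℝ) / 8 := by linarith
  have h5 : 8 * (T j - cF th R₁ (T j) (T j)) ≤ T j := by
    have h6 : 8 * ((T j - cF th R₁ (T j) (T j) : ℕ) : ℝ) ≤ ((T j : ℕ) : ℝ) := by linarith
    exact_mod_cast h6
  unfold rE10
  omega

/-- `5 (T / 8)` and `5 T / 8`. -/
theorem rE10_eight {T : ℕ → ℕ} {j : ℕ} (h : 8 ∣ T j) : rE10 T j = 5 * ((T j / 8 : ℕ) : ℤ) := by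
  unfold rE10
  obtain ⟨k, hk⟩ := h
  rw [hk]
  omega

variable {μ : Measure ℝ} [IsProbabilityMeasure μ] {s c C : ℝ} {n₀ : ℕ}

/-- **THE FIELD `fr`.** -/
theorem frF10 (h : In μ s c C n₀) {e₁ e' : ℝ} (he : 0 < e₁) (he' : 0 < e') :
    ∃ d : ℝ, 0 < d ∧ d ≤ 1 ∧ ∃ R : ℝ, 1 ≤ R ∧ ∀ gg : ℝ, 0 < gg → gg < d → ∃ th : ℝ, 0 < th ∧ th ≤ 1 / 4 ∧
    ∀ (K' θ' u' : ℝ), 0 < K' → 0 < θ' → θ' ≤ 1 → 0 < u' → ∃ P' : ℕ, ∃ q' : ℝ, 0 ≤ q' ∧ ∀ R₁ : ℕ, 1 ≤ R₁ → ∃ n₁' : ℕ, 1 ≤ n₁' ∧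
    ∀ qi : ℝ, q' ≤ qi → ∀ {θ Kw : ℝ} {P : ℕ} {χ C₀ : ℝ} {K : ℕ} {ε : ℝ} {n₁ : ℕ} {U qx : ℝ}, Fin10 μ s c θ Kw P χ C₀ K ε n₁ U qx →
    8 ≤ K → 16 ≤ th * K → 0 ≤ ε → ∀ {e e₀ : ℝ} {Q Z m₂ n B j₀ : ℕ} {G : Gd},
    GW μ s R B C₀ (h8 Q e₀ n) K (m8 K e n + m₂) G → n₁ ≤ h8 Q e₀ n → n₁' ≤ h8 Q e₀ n → 2 ≤ j₀ → 1 ≤ m₂ →
    -- the base sets
    ∀ {T : ℕ → ℕ}, T = Tg (h8 Q e₀ n) K → ∀ {rB : ℕ → ℤ} {pA εB pX : ℝ} {FA FB FX : ℕ → Pt → Env → Prop} {SA SB SX : ℕ → Set Env},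
    Bas47 μ T j₀ (m8 K e n / Z) (rA10 th R₁ T) rB (rE10 T) pA εB pX FA FB FX SA SB SX →
    (∀ j, j₀ ≤ j → j < m8 K e n / Z → rB j ≤ rE10 T j) →
    ∀ {vI PI : ℕ → ℕ × ℤ → Env → ℝ} {D : Sd8}, D = D8 μ s c θ Kw P U χ e e₀ K Q Z m₂ n G (Sb47 j₀ SA SB SX)
      (Sp10 μ s c θ Kw P T j₀ (rA10 th R₁ T) (rE10 T) qx) vI PI → ∀ {Γ : Cx}, Γ.Ok → ∀ {V So : ℕ → ℕ × ℤ → Set Env},
    (∀ i < D.m, ∀ q₀ ∈ D.S n e Γ, ∀ ω ∈ V i (D.G.z i q₀), j₀ ≤ i ∧ T (i + m₂) ≤ (D.G.z (i + m₂) q₀).1) → ∀ {q0 q4 a : ℝ},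
    -- (S)
    (∀ i < D.m, ∀ q₀ ∈ D.S n e Γ, ∀ ω ∈ V i (D.G.z i q₀), ∃ E0 E5 : Set Env, MeasurableSet E0 ∧ MeasurableSet E5 ∧
      On20 (rows (((D.G.z (i + m₂) q₀).1 : ℤ) - T (i + m₂)) (((D.G.z i q₀).1 : ℤ) - T i)) E0 ∧
      On20 (rows (((D.G.z i q₀).1 : ℤ) + T i) (((D.G.z (i + m₂) q₀).1 : ℤ) + T (i + m₂))) E5 ∧
      q0 ≤ (law μ).real E0 ∧ q4 ≤ (law μ).real E5 ∧
      ∀ ζ : Env, (∀ p, p ∉ At (D.G.x (i + m₂) q₀) (AT T (i + m₂)) → ζ p = ω p) → ζ ∈ E0 → ζ ∈ E5 → ζ ∈ So i (D.G.z i q₀)) →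
    -- the letters of the inside
    ∀ (nB TB : ℕ → ℕ) (aa aB zB z' : ℕ → ℕ × ℤ → ℤ),
    (∀ i, j₀ ≤ i → i < m8 K e n / Z → 1 ≤ nB i ∧ (nB i : ℤ) ≤ rE10 T i - rA10 th R₁ T i ∧ n₁' ≤ TB i ∧ nB i ≤ TB i) →
    -- (W)
    (∀ i < D.m, ∀ q₀ ∈ D.S n e Γ, ∀ ω ∈ V i (D.G.z i q₀), ∀ ζ : Env,
      (∀ p, p ∉ At (D.G.x (i + m₂) q₀) (AT T (i + m₂)) → ζ p = ω p) → ζ ∈ So i (D.G.z i q₀) → FA i (D.G.x i q₀) ζ →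
      FB i (D.G.x i q₀) ζ → FX i (D.G.x i q₀) ζ → ∀ (c0 n' : ℕ) (xc : ℝ), c0 = cF th R₁ (D.G.z i q₀).1 (T i) →
      n' = (D.G.z i q₀).1 + 5 * T i / 8 - c0 → xc = (xm D.G i q₀ : ℝ) - sl μ s * (((D.G.z i q₀).1 : ℝ) - c0) →
      ζ ∈ FC35 μ s c θ' K' P' qi u' c0 n' (T i) (nB i) (TB i) (aa i q₀) (aB i q₀) (zB i q₀) (z' i q₀) →
      InQ10 μ s e' d gg R xc D.G i q₀ (T i) c0 n' ζ → a ≤ ∑ b ∈ QF D.G i q₀ (D.S n e Γ) 0 Γ.hi, Γ.w b ζ) →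
    -- the field
    ∀ i < D.m, ∀ q₀ ∈ D.S n e Γ, ∀ ω ∈ V i (D.G.z i q₀), ∃ (A' : ℕ → Set Pt) (E : ℕ → Set Env),
    (∀ j < 5, MeasurableSet (E j)) ∧ (∀ j < 5, On20 (A' j) (E j)) ∧ (∀ j < 5, ∀ j' < 5, j ≠ j' → Disjoint (A' j) (A' j')) ∧
    (∀ j < 5, fiveR q0 pA (1 - (e₁ + ε + εB)) pX q4 j ≤ (law μ).real (E j)) ∧ ∀ η, (∀ j < 5, η ∈ E j) →
      ∀ ζ, ζ = gl (T10.At (D.G.x (i + m₂) q₀) (AT T (i + m₂))) η ω →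
      ζ ∈ So i (D.G.z i q₀) ∧ sh (D.G.x i q₀) ζ ∈ Sb47 j₀ SA SB SX i ∧
      (∀ b ∈ D.S n e Γ, D.G.z i b = D.G.z i q₀ →
        sh (D.G.x i q₀) ζ ∈ Sp10 μ s c θ Kw P T j₀ (rA10 th R₁ T) (rE10 T) qx i (D.G.z (i - 1) (D.G.rel i b))) ∧
      ζ ∈ NR60 D.G D.L D.Lv i (i - 2) q₀ ∧
      a ≤ ∑ b ∈ (D.S n e Γ).filter (fun b => D.G.z i b = D.G.z i q₀), Γ.w b ζ := by
  obtain ⟨d, hd, hd1, R, hR, H⟩ := insF10 h he he'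
  refine ⟨d, hd, hd1, R, hR, fun gg hg hgd => ?_⟩
  obtain ⟨th, hth, hth4, H1⟩ := H gg hg hgd
  refine ⟨th, hth, hth4, fun K' θ' u' hK' hθ' hθ1 hu' => ?_⟩
  obtain ⟨P', q', hq', H2⟩ := H1 K' θ' u' hK' hθ' hθ1 hu'
  refine ⟨P', q', hq', fun R₁ hR₁ => ?_⟩
  obtain ⟨m₁, hm₁, H2⟩ := H2 R₁ hR₁
  obtain ⟨m₃, hm₃, H3⟩ := rA10_up hth hth4 hR₁
  obtain ⟨m₄, hm₄, H4⟩ := rE_rA10 hth hth4 hR₁
  refine ⟨max m₁ (max m₃ m₄), hm₁.trans (le_max_left _ _), ?_⟩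
  intro qi hqi θ Kw P χ C₀ K ε n₁ U qx hFin hK8 hKth hε e e₀ Q Z m₂ n B j₀ G g hn₁ hn₁' hj₀ hm₂ T hT rB pA εB pX FA FB FX SA SB SX hBas hrB
    vI PI D hD Γ hΓ V So hV q0 q4 a hS nB TB aa aB zB z' hnB hW i hi q₀ hq₀ ω hω
  have eG : D.G = G := by rw [hD]; rfl
  have eL : D.L = m8 K e n + m₂ := by rw [hD]; rfl
  have em : D.m = m8 K e n / Z := by rw [hD]; rfl
  have eLv : D.Lv = LvE (m8 K e n + m₂) (EL60 μ s c θ Kw P T (yl8 U K χ)) := by rw [hD, hT]; rfl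
  clear hD
  obtain ⟨hi0, hz⟩ := hV i hi q₀ hq₀ ω hω
  have HS := hS i hi q₀ hq₀ ω hω
  have HW := hW i hi q₀ hq₀ ω hω
  clear hV hS hW
  obtain ⟨G', L', m', Lv', S', hS'⟩ : ∃ (G' : Gd) (L' m' : ℕ) (Lv' : ℕ → ℕ × ℤ → Env → ℕ) (S' : Finset (ℕ × ℤ)),
      D.G = G' ∧ D.L = L' ∧ D.m = m' ∧ D.Lv = Lv' ∧ D.S n e Γ = S' := ⟨_, _, _, _, _, rfl, rfl, rfl, rfl, rfl⟩
  obtain ⟨s1, s2, s3, s4, s5⟩ := hS'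
  rw [s1, s2, s4, s5]
  rw [s1] at hω HS HW hz eG
  rw [s5] at HW hq₀
  rw [s3] at hi em
  rw [s2] at eL
  rw [s4] at eLv
  subst eG eL em eLv hT
  clear s1 s2 s3 s4 s5 hq₀ hω
  have him : i < m8 K e n / Z := hi
  have hmi : i ≤ m8 K e n := him.le.trans (Nat.div_le_self _ _)
  have hi2 : 2 ≤ i := hj₀.trans hi0
  have hL : i + m₂ ≤ m8 K e n + m₂ := by omega
  have hTi : h8 Q e₀ n ≤ Tg (h8 Q e₀ n) K i := by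
    rw [Tg_pos (by omega), mul_comm 2 (h8 Q e₀ n), mul_assoc]
    exact Nat.le_mul_of_pos_right _ (Nat.mul_pos two_pos (Nat.pow_pos (by omega)))
  obtain ⟨hzi, -, -, -⟩ := g.low hK8 (show 1 ≤ i by omega) hm₂ hL hz
  obtain ⟨c0, hc0⟩ : ∃ c0 : ℕ, c0 = cF th R₁ (G'.z i q₀).1 (Tg (h8 Q e₀ n) K i) := ⟨_, rfl⟩
  obtain ⟨er, her⟩ : ∃ er : ℕ, er = (G'.z i q₀).1 + 5 * Tg (h8 Q e₀ n) K i / 8 := ⟨_, rfl⟩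
  obtain ⟨nn, hnn⟩ : ∃ nn : ℕ, nn = er - c0 := ⟨_, rfl⟩
  obtain ⟨xc, hxc⟩ : ∃ xc : ℝ, xc = (xm G' i q₀ : ℝ) - sl μ s * (((G'.z i q₀).1 : ℝ) - c0) := ⟨_, rfl⟩
  have cA := rA10_cF (th := th) (R₁ := R₁) (T := Tg (h8 Q e₀ n) K) (j := i) hzi
  rw [← hc0] at cA
  have cE := rE10_eq (T := Tg (h8 Q e₀ n) K) (j := i) (z := (G'.z i q₀).1)
  rw [← her] at cE
  have h3 : m₃ ≤ Tg (h8 Q e₀ n) K i := (((le_max_left _ _).trans (le_max_right _ _)).trans hn₁').trans hTi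
  have h4 : m₄ ≤ Tg (h8 Q e₀ n) K i := (((le_max_right _ _).trans (le_max_right _ _)).trans hn₁').trans hTi
  obtain ⟨u1, -⟩ := H3 _ i h3
  have u4 := H4 _ i h4
  have lowA := rA10_low th R₁ (Tg (h8 Q e₀ n) K) i
  have nnE := rE10_nn (Tg (h8 Q e₀ n) K) i
  have leE := rE10_le (Tg (h8 Q e₀ n) K) i
  obtain ⟨b1, b2, b3, b4⟩ := hnB i hi0 him
  have hB := hrB i hi0 him
  refine frame10 (FI := fun ζ => ζ ∈ FC35 μ s c θ' K' P' qi u' c0 nn (Tg (h8 Q e₀ n) K i) (nB i) (TB i) (aa i q₀) (aB i q₀) (zB i q₀)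
      (z' i q₀) ∧ InQ10 μ s e' d gg R xc G' i q₀ (Tg (h8 Q e₀ n) K i) c0 nn ζ) (f := Γ.w) (lo := 0) (hi' := Γ.hi) (e := er) (c0 := c0)
    g hK8 hj₀ hBas hi0 him hm₂ hL hz cA cE lowA u1 nnE leE (fun b ζ => Cx.w_nonneg hΓ b ζ) HS ?_ fun ζ h1 h2 h3 h4 h5 h6 => ?_
  · have hoB : On20 (rows (c0 : ℤ) (er : ℤ)) (sh (G'.x i q₀) ⁻¹' SB i) := by
      have h5 := on_sh47 (hBas.oB i hi0 him) (G'.x i q₀)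
      refine h5.mono (rows_mono10 ?_ ?_)
      · show (c0 : ℤ) ≤ ((G'.z i q₀).1 : ℤ) + rA10 th R₁ (Tg (h8 Q e₀ n) K) i
        omega
      · show ((G'.z i q₀).1 : ℤ) + rB i ≤ (er : ℤ)
        omega
    refine H2 qi hqi hFin hK8 hKth hε g hn₁ ((le_max_left _ _).trans hn₁') (fun l => rfl) hi2 (by omega) hzi hc0 her hnn hxc
      (Tg (h8 Q e₀ n) K i) (nB i) (TB i) (aa i q₀) (aB i q₀) (zB i q₀) (z' i q₀) (by omega) b1 (by omega) ((le_max_left _ _).trans b3) b4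
      (sh (G'.x i q₀) ⁻¹' SB i) ((hBas.mB i).preimage (measurable_sh _)) hoB εB ?_
    have h5 := law_sh47 (μ := μ) (G'.x i q₀) (hBas.mB i).compl
    rw [Set.preimage_compl] at h5
    rw [h5]
    exact hBas.pB i hi0 him
  · exact HW ζ h1 h2 h3 h4 h5 c0 nn xc hc0 (by rw [hnn, her]) hxc h6.1 h6.2

end

end Pool.Agent.W_7d29a1_C1.T10
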