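import Pool.Agent.W_7d29a1_C1.CmF10
import Pool.Agent.W_7d29a1_C1.ShlC8

/-!
MP_7d29a1_pr, [C1], SHELL, THE FRESH BALL (helper10): `frF10` in the letters of `ShlC8` : `V := V8 μ s Γ ν u G`,
`So := fun j z => So47 Γ σ j (G.z j z)`. `V8_eq` : the event of the base of the box = the event of every site; `V8_low10` : level and row.
`so10` : the fields `mSo`, `rSo`.
-/

set_option autoImplicit false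

namespace Pool.Agent.W_7d29a1_C1.T10

open MeasureTheory Filter Topology
open Pool.Agent.W_7d29a1_F Pool.Agent.W_7d29a1_h4g Pool.Agent.W_7d29a1_H Pool.Agent.W_7d29a1_HS
open Pool.Agent.W_7d29a1_C1.S71 Pool.Agent.W_7d29a1_C1.Sw9 Pool.Agent.W_7d29a1_C1.U16 Pool.Agent.W_7d29a1_C1.H60
open Pool.Agent.W_7d29a1_C1 (On20)
open Pool.Agent.W_7d29a1_C1.Fr47 (Bas47 Sb47 law_sh47 on_sh47 V47 So47 NS47 mSo47 rSo47)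
open Pool.Agent.W_7d29a1_C1.FreC35 (FC35)
open Pool.Agent.W_7d29a1_C1.H8 (D8 h8 m8 Sd8 yl8 V8 NB8 KV8)
open Pool.Agent.W_7d29a1_C1.D31 (NV31 V31 eV31 eLP95 LP95)
open Pool.Agent.W_7d29a1_C1.S83 (RowG)

noncomputable section

variable {μ : Measure ℝ} {s : ℝ} {Γ : Cx} {ν : NV31} {u : ℝ} {G : Gd} {L : ℕ}

/-- `V8` depends on the box of level `t` only. -/
theorem V8_congr (hG : G.Ok L) {t : ℕ} (ht : t + ν.m₂ ≤ L) {c d : ℕ × ℤ} (hcd : G.z t c = G.z t d) :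
    V8 μ s Γ ν u G t c = V8 μ s Γ ν u G t d := by
  have h1 : G.z (t + ν.m₂) c = G.z (t + ν.m₂) d := hG.z_nested (Nat.le_add_right t ν.m₂) ht hcd
  have h2 : ν.row G t c = ν.row G t d := by
    unfold NV31.row
    rw [h1]
  have h3 : ν.cn G t c (sl μ s) = ν.cn G t d (sl μ s) := by
    unfold NV31.cn
    rw [h2, hcd]
  unfold V8 V47
  rw [eV31 hG ht hcd, eLP95 hG ht hcd, h1, h2, h3]

/-- **The event at the base of the box is the event at the site.** -/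
theorem V8_base (hG : G.Ok L) {t : ℕ} (ht : t + ν.m₂ ≤ L) (q₀ : ℕ × ℤ) : V8 μ s Γ ν u G t (G.z t q₀) = V8 μ s Γ ν u G t q₀ :=
  V8_congr hG ht (hG.z_z le_rfl (by omega) q₀)

/-- **Level and row of a usable scale** (`hV` of `frF10`). -/
theorem V8_low10 (hG : G.Ok L) {t : ℕ} (ht : t + ν.m₂ ≤ L) {q₀ : ℕ × ℤ} {ω : Env} (h : ω ∈ V8 μ s Γ ν u G t (G.z t q₀)) :
    ν.j₀ ≤ t ∧ ν.Ts (t + ν.m₂) ≤ (G.z (t + ν.m₂) q₀).1 := by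
  rw [V8_base hG ht] at h
  exact ⟨h.1.2.1.1, h.1.1⟩

/-- **The fields `mSo`, `rSo`.** -/
theorem so10 (hG : G.Ok L) {σ : NS47} {T : ℕ → ℕ} (hσ : σ.T = T) {m : ℕ} (hm : m ≤ L) :
    (∀ j < m, ∀ z : ℕ × ℤ, MeasurableSet (So47 Γ σ j (G.z j z))) ∧
    (∀ j < m, ∀ z : ℕ × ℤ, On20 (rout (((G.z j z).1 : ℤ) - T j) (((G.z j z).1 : ℤ) + T j)) (So47 Γ σ j (G.z j z))) ∧
    ∀ j < m, ∀ z : ℕ × ℤ, So47 Γ σ j (G.z j (G.z j z)) = So47 Γ σ j (G.z j z) := by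
  subst hσ
  exact ⟨fun j _ z => mSo47, fun j _ z => rSo47, fun j hj z => by rw [hG.z_z le_rfl (by omega) z]⟩

variable [IsProbabilityMeasure μ] {c C : ℝ} {n₀ : ℕ}

/-- **`frF10` IN THE LETTERS OF `ShlC8`.** -/
theorem frV10 (h : In μ s c C n₀) {e₁ e' : ℝ} (he : 0 < e₁) (he' : 0 < e') :
    ∃ d : ℝ, 0 < d ∧ d ≤ 1 ∧ ∃ R : ℝ, 1 ≤ R ∧ ∀ gg : ℝ, 0 < gg → gg < d → ∃ th : ℝ, 0 < th ∧ th ≤ 1 / 4 ∧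
    ∀ (K' θ' u' : ℝ), 0 < K' → 0 < θ' → θ' ≤ 1 → 0 < u' → ∃ P' : ℕ, ∃ q' : ℝ, 0 ≤ q' ∧ ∀ R₁ : ℕ, 1 ≤ R₁ → ∃ n₁' : ℕ, 1 ≤ n₁' ∧
    ∀ qi : ℝ, q' ≤ qi → ∀ {θ Kw : ℝ} {P : ℕ} {χ C₀ : ℝ} {K : ℕ} {ε : ℝ} {n₁ : ℕ} {U qx : ℝ}, Fin10 μ s c θ Kw P χ C₀ K ε n₁ U qx →
    8 ≤ K → 16 ≤ th * K → 0 ≤ ε → ∀ {e e₀ : ℝ} {Q Z m₂ n B : ℕ} {G : Gd},
    GW μ s R B C₀ (h8 Q e₀ n) K (m8 K e n + m₂) G → n₁ ≤ h8 Q e₀ n → n₁' ≤ h8 Q e₀ n → 1 ≤ m₂ →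
    ∀ {T : ℕ → ℕ}, T = Tg (h8 Q e₀ n) K → ∀ {κ : KV8} {ν : NV31}, NB8 μ s T m₂ κ ν →
    -- the base sets
    ∀ {rB : ℕ → ℤ} {pA εB pX : ℝ} {FA FB FX : ℕ → Pt → Env → Prop} {SA SB SX : ℕ → Set Env},
    Bas47 μ T 2 (m8 K e n / Z) (rA10 th R₁ T) rB (rE10 T) pA εB pX FA FB FX SA SB SX →
    (∀ j, 2 ≤ j → j < m8 K e n / Z → rB j ≤ rE10 T j) →
    ∀ {vI PI : ℕ → ℕ × ℤ → Env → ℝ} {D : Sd8}, D = D8 μ s c θ Kw P U χ e e₀ K Q Z m₂ n G (Sb47 2 SA SB SX)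
      (Sp10 μ s c θ Kw P T 2 (rA10 th R₁ T) (rE10 T) qx) vI PI → ∀ {Γ : Cx}, Γ.Ok → ∀ {u : ℝ} {σ : NS47} {q0 q4 a : ℝ},
    -- (S)
    (∀ i, 2 ≤ i → i < m8 K e n / Z → ∀ q₀ ∈ D.S n e Γ, ∀ ω ∈ V8 μ s Γ ν u G i q₀, ∃ E0 E5 : Set Env, MeasurableSet E0 ∧ MeasurableSet E5 ∧
      On20 (rows (((G.z (i + m₂) q₀).1 : ℤ) - T (i + m₂)) (((G.z i q₀).1 : ℤ) - T i)) E0 ∧
      On20 (rows (((G.z i q₀).1 : ℤ) + T i) (((G.z (i + m₂) q₀).1 : ℤ) + T (i + m₂))) E5 ∧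
      q0 ≤ (law μ).real E0 ∧ q4 ≤ (law μ).real E5 ∧
      ∀ ζ : Env, (∀ p, p ∉ At (G.x (i + m₂) q₀) (AT T (i + m₂)) → ζ p = ω p) → ζ ∈ E0 → ζ ∈ E5 → ζ ∈ So47 Γ σ i (G.z i q₀)) →
    -- the letters of the inside
    ∀ (nB TB : ℕ → ℕ) (aa aB zB z' : ℕ → ℕ × ℤ → ℤ),
    (∀ i, 2 ≤ i → i < m8 K e n / Z → 1 ≤ nB i ∧ (nB i : ℤ) ≤ rE10 T i - rA10 th R₁ T i ∧ n₁' ≤ TB i ∧ nB i ≤ TB i) →
    -- (W)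
    (∀ i, 2 ≤ i → i < m8 K e n / Z → ∀ q₀ ∈ D.S n e Γ, ∀ ω ∈ V8 μ s Γ ν u G i q₀, ∀ ζ : Env,
      (∀ p, p ∉ At (G.x (i + m₂) q₀) (AT T (i + m₂)) → ζ p = ω p) → ζ ∈ So47 Γ σ i (G.z i q₀) → FA i (G.x i q₀) ζ →
      FB i (G.x i q₀) ζ → FX i (G.x i q₀) ζ → ∀ (c0 n' : ℕ) (xc : ℝ), c0 = cF th R₁ (G.z i q₀).1 (T i) →
      n' = (G.z i q₀).1 + 5 * T i / 8 - c0 → xc = (xm G i q₀ : ℝ) - sl μ s * (((G.z i q₀).1 : ℝ) - c0) →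
      ζ ∈ FC35 μ s c θ' K' P' qi u' c0 n' (T i) (nB i) (TB i) (aa i q₀) (aB i q₀) (zB i q₀) (z' i q₀) →
      InQ10 μ s e' d gg R xc G i q₀ (T i) c0 n' ζ → a ≤ ∑ b ∈ QF G i q₀ (D.S n e Γ) 0 Γ.hi, Γ.w b ζ) →
    -- the field
    ∀ i < D.m, ∀ q₀ ∈ D.S n e Γ, ∀ ω ∈ V8 μ s Γ ν u G i (D.G.z i q₀), ∃ (A' : ℕ → Set Pt) (E : ℕ → Set Env),
    (∀ j < 5, MeasurableSet (E j)) ∧ (∀ j < 5, On20 (A' j) (E j)) ∧ (∀ j < 5, ∀ j' < 5, j ≠ j' → Disjoint (A' j) (A' j')) ∧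
    (∀ j < 5, fiveR q0 pA (1 - (e₁ + ε + εB)) pX q4 j ≤ (law μ).real (E j)) ∧ ∀ η, (∀ j < 5, η ∈ E j) →
      ∀ ζ, ζ = gl (T10.At (D.G.x (i + m₂) q₀) (AT T (i + m₂))) η ω →
      ζ ∈ So47 Γ σ i (G.z i (D.G.z i q₀)) ∧ sh (D.G.x i q₀) ζ ∈ Sb47 2 SA SB SX i ∧
      (∀ b ∈ D.S n e Γ, D.G.z i b = D.G.z i q₀ →
        sh (D.G.x i q₀) ζ ∈ Sp10 μ s c θ Kw P T 2 (rA10 th R₁ T) (rE10 T) qx i (D.G.z (i - 1) (D.G.rel i b))) ∧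
      ζ ∈ NR60 D.G D.L D.Lv i (i - 2) q₀ ∧
      a ≤ ∑ b ∈ (D.S n e Γ).filter (fun b => D.G.z i b = D.G.z i q₀), Γ.w b ζ := by
  obtain ⟨d, hd, hd1, R, hR, H⟩ := frF10 h he he'
  refine ⟨d, hd, hd1, R, hR, fun gg hg hgd => ?_⟩
  obtain ⟨th, hth, hth4, H⟩ := H gg hg hgd
  refine ⟨th, hth, hth4, fun K' θ' u' hK' hθ' hθ1 hu' => ?_⟩
  obtain ⟨P', q', hq', H⟩ := H K' θ' u' hK' hθ' hθ1 hu'
  refine ⟨P', q', hq', fun R₁ hR₁ => ?_⟩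
  obtain ⟨n₁', hn₁', H⟩ := H R₁ hR₁
  refine ⟨n₁', hn₁', ?_⟩
  intro qi hqi θ Kw P χ C₀ K ε n₁ U qx hFin hK8 hKth hε e e₀ Q Z m₂ n B G g hn hn' hm₂ T hT κ ν hν rB pA εB pX FA FB FX SA SB SX hBas hrB
    vI PI D hD Γ hΓ u σ q0 q4 a hS nB TB aa aB zB z' hnB hW
  have eG : D.G = G := by rw [hD]; rfl
  have em : D.m = m8 K e n / Z := by rw [hD]; rfl
  have hjL : ∀ {i : ℕ}, i < D.m → i + ν.m₂ ≤ m8 K e n + m₂ := fun {i} hi => by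
    have := Nat.div_le_self (m8 K e n) Z
    have := hν.em
    omega
  have hVV : ∀ i < D.m, ∀ q₀ : ℕ × ℤ, V8 μ s Γ ν u G i (D.G.z i q₀) = V8 μ s Γ ν u G i q₀ := fun i hi q₀ => by
    rw [eG]
    exact V8_base g.ok (hjL hi) q₀
  have hSS : ∀ i < D.m, ∀ q₀ : ℕ × ℤ, So47 Γ σ i (G.z i (D.G.z i q₀)) = So47 Γ σ i (G.z i q₀) := fun i hi q₀ => by
    have := hjL hi
    rw [eG, g.ok.z_z le_rfl (by omega) q₀]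
  have hVL : ∀ i < D.m, ∀ q₀ : ℕ × ℤ, ∀ ω ∈ V8 μ s Γ ν u G i (D.G.z i q₀), 2 ≤ i ∧ T (i + m₂) ≤ (G.z (i + m₂) q₀).1 := fun i hi q₀ ω hω => by
    rw [eG] at hω
    have h1 := V8_low10 g.ok (hjL hi) hω
    rw [hν.em, hν.eT] at h1
    exact ⟨hν.hj.trans h1.1, h1.2⟩
  refine H qi hqi hFin hK8 hKth hε g hn hn' le_rfl hm₂ hT hBas hrB hD hΓ (V := fun i z => V8 μ s Γ ν u G i z)
    (So := fun i z => So47 Γ σ i (G.z i z)) (fun i hi q₀ hq₀ ω hω => ?_) (q0 := q0) (q4 := q4) (a := a)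
    (fun i hi q₀ hq₀ ω hω => ?_) nB TB aa aB zB z' hnB fun i hi q₀ hq₀ ω hω ζ h1 h2 h3 h4 h5 => ?_
  · rw [eG] at *
    exact hVL i hi q₀ ω hω
  · have h6 := (hVL i hi q₀ ω hω).1
    obtain ⟨E0, E5, H1⟩ := hS i h6 (em ▸ hi) q₀ hq₀ ω (by rwa [hVV i hi] at hω)
    refine ⟨E0, E5, ?_⟩
    simp only [hSS i hi]
    rw [eG]
    exact H1
  · have h6 := (hVL i hi q₀ ω hω).1
    simp only [hSS i hi] at h2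
    rw [eG] at h1 h3 h4 h5 ⊢
    exact hW i h6 (em ▸ hi) q₀ hq₀ ω (by rwa [hVV i hi] at hω) ζ h1 h2 h3 h4 h5

end

end Pool.Agent.W_7d29a1_C1.T10
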