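import Pool.Agent.W_7d29a1_C1.End17

/-!
MP_7d29a1_pr, attractor route (helper17): both halves at all large lengths. The one step inequality `core17` carries a lower bound of
the units from a window of scales `[R, R ^ M]` back to the scale `R`.
-/

set_option autoImplicit false

namespace Pool.Agent.W_7d29a1_C1

open MeasureTheory ProbabilityTheory Filter Topology
open Pool.Agent.W_7d29a1_F Pool.Agent.W_7d29a1_h4g Pool.Agent.W_7d29a1_H Pool.Agent.W_7d29a1_HS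
open Pool.Agent.W_7d29a1_LB (LB20 UB20)
open Pool.Agent.W_7d29a1_HK20 (ev_pow20)
open scoped ENNReal NNReal

noncomputable section

/-- **The lower half in the form of a window**: for every `ε` there is `M` such that every window of scales `[R, R ^ M]` has a scale `r`
with `r ^ (1/3) ≤ R ^ ε EE r`. -/
def CVW17 (μ : Measure ℝ) (s : ℝ) : Prop :=
  ∀ ε : ℝ, 0 < ε → ∃ M : ℝ, 1 ≤ M ∧ ∀ᶠ R : ℕ in atTop, ∃ r : ℕ, R ≤ r ∧ (r : ℝ) ≤ (R : ℝ) ^ M ∧
    (r : ℝ) ^ (1 / 3 : ℝ) ≤ (R : ℝ) ^ ε * EE μ s r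

/-! ### Pure part -/

section full

variable {μ : Measure ℝ} {s : ℝ} [IsProbabilityMeasure μ] {c C : ℝ} {n₀ : ℕ}

/-- **Both halves**: `EE n = n ^ (1/3 + o(1))`. -/
theorem full17 (h : In μ s c C n₀) (hL : LB20 μ s) (hU : UB20 μ s) (hM : LMB17 μ s) (hW : CVW17 μ s) {ε : ℝ} (hε : 0 < ε) :
    ∀ᶠ n : ℕ in atTop, (n : ℝ) ^ (1 / 3 - ε) ≤ EE μ s n ∧ EE μ s n ≤ (n : ℝ) ^ (1 / 3 + ε) := by
  obtain ⟨c₁, hc₁, h1⟩ := core17 h hL hU hM
  exact (low_of17 (fun n => EE_pos (μ := μ) (s := s) n) hc₁ h1 hW hε).and (third17 h hL hU hM hε)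

end full

end

end Pool.Agent.W_7d29a1_C1
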