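import Pool.Agent.W_7d29a1_HR.Low2

/-!
MP_7d29a1_pr, [C1] SLAB LEMMA, part F0: the events and the deterministic part. (helper20)

The slab has `N` sub blocks of `n` rows. `UP`, `EXIT`, `JUMP`, `WALL` are decreasing events on the environment:
sup bound of the free energies which start in the window, cost of leaving the window, cost of a jump of more than `ρ` in one
sub block, cost of one sub block away from the lanes. Then every kernel `x → y` of the slab is small
unless `x` is at the entrance and `y` at the exit of the same lane (`kernel_small20`), and up to the same error the kernel is carried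
by the neighbourhoods of the lanes at every row `i n` (`kernel_near20`).
-/

set_option autoImplicit false

namespace Pool.Agent.W_7d29a1_C1

open MeasureTheory ProbabilityTheory Filter Topology
open Pool.Agent.W_7d29a1_F Pool.Agent.W_7d29a1_h4g Pool.Agent.W_7d29a1_H Pool.Agent.W_7d29a1_HS
open Pool.Agent.W_7d29a1_HL (WR_off WR_last_off WR_add' WR_mono')

noncomputable section

variable {μ : Measure ℝ} {s : ℝ} {ι : Type*}

/-- All free energies of starts of the window `ω` of the slab of `T` rows are `≤ U`. -/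
def UP20 (μ : Measure ℝ) (s ω : ℝ) (T : ℕ) (U : ℝ) (η : Env) : Prop :=
  ∀ (t l : ℕ) (x : ℤ), t + l ≤ T → |(x : ℝ) - sl μ s * t| ≤ ω → V μ s η ((t : ℤ), x) l ≤ U

/-- The mass which leaves the window `ω` from a start of the window `ω₀`. -/
def EXIT20 (μ : Measure ℝ) (s ω₀ ω : ℝ) (T : ℕ) (Y : ℝ) (η : Env) : Prop :=
  ∀ x : ℤ, |(x : ℝ)| ≤ ω₀ →
    Real.exp (V μ s η ((0 : ℤ), x) T) - Pool.Agent.W_7d29a1_HL.cS μ s (St μ s ω 0) η ((0 : ℤ), x) T ≤ Real.exp (-Y)

/-- The mass which moves by more than `ρ` within one sub block. -/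
def JUMP20 (μ : Measure ℝ) (s ω ρ : ℝ) (n N : ℕ) (Y : ℝ) (η : Env) : Prop :=
  ∀ (i : ℕ) (z : ℤ), i < N → |(z : ℝ) - sl μ s * (i * n : ℕ)| ≤ ω →
    Real.exp (V μ s η (((i * n : ℕ) : ℤ), z) n) -
      Pool.Agent.W_7d29a1_HL.cS μ s (St μ s ρ (((i * n : ℕ) : ℤ), z)) η (((i * n : ℕ) : ℤ), z) n ≤ Real.exp (-Y)

/-- The sub blocks away from the lanes `l j` (`j : ι`; one lane or two lanes). -/
def WALL20 (μ : Measure ℝ) (s ω ρ α : ℝ) (n N : ℕ) (Y : ℝ) (l : ι → ℕ → ℝ) (η : Env) : Prop :=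
  ∀ (i : ℕ) (z : ℤ), i < N → |(z : ℝ) - sl μ s * (i * n : ℕ)| ≤ ω → (∀ j, α < |(z : ℝ) - l j i|) →
    Pool.Agent.W_7d29a1_HL.cS μ s (St μ s ρ (((i * n : ℕ) : ℤ), z)) η (((i * n : ℕ) : ℤ), z) n ≤ Real.exp (-Y)

/-! ### Paths without a bad step -/

/-- `z → z'` is a good step from the row `i n`: `z` is near a lane, and the step is short. -/
def gd20 (v ρ α : ℝ) (n : ℕ) (l : ι → ℕ → ℝ) (i : ℕ) (z z' : ℤ) : Prop :=
  (∃ j, |(z : ℝ) - l j i| ≤ α) ∧ |(z' : ℝ) - z - v * n| ≤ ρ

open Classical in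
/-- The kernel of the paths from `x` in `Ω` with good steps only up to the row `i n`. -/
def gk20 (μ : Measure ℝ) (s : ℝ) (Ω : Set Pt) (ρ α : ℝ) (n : ℕ) (l : ι → ℕ → ℝ) (η : Env) (I : Finset ℤ) (x : ℤ) : ℕ → ℤ → ℝ
  | 0, z => if z = x then 1 else 0
  | i + 1, z' => ∑ z ∈ I, gk20 μ s Ω ρ α n l η I x i z *
      (if gd20 (sl μ s) ρ α n l i z z' then WR μ s Ω η (((i * n : ℕ) : ℤ), z) n (z' - z) else 0)

theorem gk20_nonneg (Ω : Set Pt) (ρ α : ℝ) (n : ℕ) (l : ι → ℕ → ℝ) (η : Env) (I : Finset ℤ) (x : ℤ) (i : ℕ) (z : ℤ) :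
    0 ≤ gk20 μ s Ω ρ α n l η I x i z := by
  induction i generalizing z with
  | zero =>
    unfold gk20
    split_ifs <;> norm_num
  | succ i ih =>
    unfold gk20
    refine Finset.sum_nonneg fun z' _ => mul_nonneg (ih z') ?_
    split_ifs
    · exact WR_nonneg _ _ _ _ _
    · exact le_rfl

theorem gk20_le [IsProbabilityMeasure μ] (Ω : Set Pt) (ρ α : ℝ) (n N : ℕ) (l : ι → ℕ → ℝ) (η : Env) (x : ℤ) (i : ℕ) (hi : i ≤ N) (z : ℤ) :
    gk20 μ s Ω ρ α n l η (Finset.Icc x (x + (N * n : ℕ))) x i z ≤ WR μ s Ω η ((0 : ℤ), x) (i * n) (z - x) := by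
  induction i generalizing z with
  | zero =>
    unfold gk20
    rw [zero_mul]
    split_ifs with h
    · rw [h, sub_self]
      refine le_of_eq ?_
      unfold WR Zr
      simp
    · exact WR_nonneg _ _ _ _ _
  | succ i ih =>
    have hin : i * n ≤ N * n := Nat.mul_le_mul_right n (by omega)
    have hin' : (i + 1) * n ≤ N * n := Nat.mul_le_mul_right n hi
    have e1 : (i + 1) * n = i * n + n := by ring
    unfold gk20
    rw [e1, WR_add' (μ := μ) (s := s) Ω η 0 x (i * n) n z (A := x) (B := x + (N * n : ℕ)) le_rfl (by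
      have : ((i * n : ℕ) : ℤ) ≤ ((N * n : ℕ) : ℤ) := by exact_mod_cast hin
      linarith)]
    refine Finset.sum_le_sum fun u _ => ?_
    have e2 : ((0 : ℤ) + ((i * n : ℕ) : ℤ), u) = ((((i * n : ℕ) : ℤ), u) : Pt) := by simp
    rw [e2]
    refine mul_le_mul (ih (by omega) u) ?_ ?_ (WR_nonneg _ _ _ _ _)
    · split_ifs
      · exact le_rfl
      · exact WR_nonneg _ _ _ _ _
    · split_ifs
      · exact WR_nonneg _ _ _ _ _
      · exact le_rfl

/-- A path with good steps only follows ONE lane. -/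
theorem gk20_supp (Ω : Set Pt) {ρ α τ : ℝ} (n : ℕ) {l : ι → ℕ → ℝ} (η : Env) (I : Finset ℤ) (x : ℤ) {N : ℕ}
    (hs : ∀ j, ∀ i < N, |l j (i + 1) - l j i - sl μ s * n| ≤ τ)
    (hsep : ∀ j j', j ≠ j' → ∀ i ≤ N, 2 * α + ρ + τ < |l j i - l j' i|) (i : ℕ) (hi : i ≤ N) (hi1 : 1 ≤ i) (z : ℤ)
    (h : gk20 μ s Ω ρ α n l η I x i z ≠ 0) :
    ∃ j, |(x : ℝ) - l j 0| ≤ α ∧ |(z : ℝ) - l j i| ≤ α + ρ + τ := by
  induction i generalizing z with
  | zero => omega
  | succ i ih =>
    unfold gk20 at h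
    obtain ⟨u, -, hu⟩ := Finset.exists_ne_zero_of_sum_ne_zero h
    have hu1 : gk20 μ s Ω ρ α n l η I x i u ≠ 0 := left_ne_zero_of_mul hu
    have hu2 := right_ne_zero_of_mul hu
    have hg : gd20 (sl μ s) ρ α n l i u z := by
      by_contra hg
      rw [if_neg hg] at hu2
      exact hu2 rfl
    obtain ⟨⟨j, hg1⟩, hg2⟩ := hg
    have a1 := hs j i (by omega)
    -- the step keeps the lane
    have k1 : |(z : ℝ) - l j (i + 1)| ≤ α + ρ + τ := by
      rw [abs_le] at hg1 hg2 a1 ⊢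
      constructor <;> linarith [hg1.1, hg1.2, hg2.1, hg2.2, a1.1, a1.2]
    rcases Nat.eq_zero_or_pos i with h0 | h0
    · subst h0
      have hux : u = x := by
        by_contra hne
        refine hu1 ?_
        unfold gk20
        rw [if_neg hne]
      subst hux
      exact ⟨j, hg1, k1⟩
    · obtain ⟨j', b1, b2⟩ := ih (by omega) h0 u hu1
      by_cases hj : j = j'
      · subst hj
        exact ⟨j, b1, k1⟩
      · exfalso
        have hse := hsep j j' hj i (by omega)
        have h1 : |l j i - l j' i| ≤ |(u : ℝ) - l j i| + |(u : ℝ) - l j' i| := by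
          have := abs_sub_le (l j i) (u : ℝ) (l j' i)
          rw [abs_sub_comm (l j i) (u : ℝ)] at this
          exact this
        linarith

/-- The bad steps from one site of the window. -/
theorem bad_step20 [IsProbabilityMeasure μ] {ω ρ α Y : ℝ} {n N : ℕ} {l : ι → ℕ → ℝ} {η : Env} (hn : 1 ≤ n)
    (hJ : JUMP20 μ s ω ρ n N Y η) (hW : WALL20 μ s ω ρ α n N Y l η) {i : ℕ} (hi : i < N) {z : ℤ}
    (hz : |(z : ℝ) - sl μ s * (i * n : ℕ)| ≤ ω) (Ω : Set Pt) (J : Finset ℤ) :
    ∑ z' ∈ J, (WR μ s Ω η (((i * n : ℕ) : ℤ), z) n (z' - z) -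
      (open Classical in if gd20 (sl μ s) ρ α n l i z z' then WR μ s Ω η (((i * n : ℕ) : ℤ), z) n (z' - z) else 0)) ≤
      2 * Real.exp (-Y) := by
  classical
  obtain ⟨a, ha⟩ : ∃ a : Pt, a = (((i * n : ℕ) : ℤ), z) := ⟨_, rfl⟩
  have hJ' := hJ i z hi hz
  rw [← ha] at hJ' ⊢
  -- sums over `J` are sums over `Icc 0 n`
  have hsum : ∀ f : ℤ → ℝ, (∀ y, 0 ≤ f y) → (∀ y : ℤ, ¬ (0 ≤ y ∧ y ≤ (n : ℤ)) → f y = 0) →
      ∑ z' ∈ J, f (z' - z) ≤ ∑ y ∈ Finset.Icc (0 : ℤ) n, f y := by
    intro f hf0 hf1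
    have h1 : ∑ z' ∈ J, f (z' - z) = ∑ z' ∈ J.filter (fun z' => z' - z ∈ Finset.Icc (0 : ℤ) n), f (z' - z) := by
      rw [Finset.sum_filter]
      refine Finset.sum_congr rfl fun z' _ => ?_
      split_ifs with h
      · rfl
      · exact hf1 _ fun h' => h (Finset.mem_Icc.2 h')
    rw [h1]
    have h2 : ∑ z' ∈ J.filter (fun z' => z' - z ∈ Finset.Icc (0 : ℤ) n), f (z' - z) =
        ∑ y ∈ (J.filter (fun z' => z' - z ∈ Finset.Icc (0 : ℤ) n)).image (fun z' => z' - z), f y := by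
      rw [Finset.sum_image]
      intro p _ q _ hpq
      have : p - z = q - z := hpq
      omega
    rw [h2]
    refine Finset.sum_le_sum_of_subset_of_nonneg ?_ fun y _ _ => hf0 y
    intro y hy
    rw [Finset.mem_image] at hy
    obtain ⟨q, hq, rfl⟩ := hy
    exact (Finset.mem_filter.1 hq).2
  have hcS : ∀ y : ℤ, 0 ≤ WR μ s (St μ s ρ a) η a n y := fun y => WR_nonneg _ _ _ _ _
  have hle : ∀ y : ℤ, 0 ≤ W μ s η a n y - WR μ s (St μ s ρ a) η a n y := fun y =>
    sub_nonneg.2 (WR_le_W _ _ _ _ _)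
  have hjump : ∑ z' ∈ J, (W μ s η a n (z' - z) - WR μ s (St μ s ρ a) η a n (z' - z)) ≤ Real.exp (-Y) := by
    refine (hsum (fun y => W μ s η a n y - WR μ s (St μ s ρ a) η a n y) hle ?_).trans ?_
    · intro y hy
      show W μ s η a n y - WR μ s (St μ s ρ a) η a n y = 0
      rw [W_eq_zero η a hy, WR_off _ _ _ hy, sub_zero]
    · rw [Finset.sum_sub_distrib]
      have h3 : ∑ y ∈ Finset.Icc (0 : ℤ) n, W μ s η a n y = Real.exp (V μ s η a n) := (exp_V η a n).symm
      rw [h3]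
      exact hJ'
  by_cases haway : ∀ j, α < |(z : ℝ) - l j i|
  · -- an away start
    have hW' := hW i z hi hz haway
    rw [← ha] at hW'
    have h4 : ∀ z' ∈ J, (WR μ s Ω η a n (z' - z) -
        (if gd20 (sl μ s) ρ α n l i z z' then WR μ s Ω η a n (z' - z) else 0)) ≤
        (W μ s η a n (z' - z) - WR μ s (St μ s ρ a) η a n (z' - z)) + WR μ s (St μ s ρ a) η a n (z' - z) := by
      intro z' _
      have h5 := WR_le_W (μ := μ) (s := s) Ω η a n (z' - z)
      have h6 := WR_nonneg (μ := μ) (s := s) Ω η a n (z' - z)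
      split_ifs <;> linarith
    refine (Finset.sum_le_sum h4).trans ?_
    rw [Finset.sum_add_distrib]
    have h7 : ∑ z' ∈ J, WR μ s (St μ s ρ a) η a n (z' - z) ≤ Real.exp (-Y) := by
      refine (hsum (fun y => WR μ s (St μ s ρ a) η a n y) hcS fun y hy => WR_off _ _ _ hy).trans ?_
      exact hW'
    linarith
  · -- a near start: only a jump is bad
    have hnear : ∃ j, |(z : ℝ) - l j i| ≤ α := by
      by_contra hcon
      push Not at hcon
      exact haway hcon
    have h4 : ∀ z' ∈ J, (WR μ s Ω η a n (z' - z) -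
        (if gd20 (sl μ s) ρ α n l i z z' then WR μ s Ω η a n (z' - z) else 0)) ≤
        (W μ s η a n (z' - z) - WR μ s (St μ s ρ a) η a n (z' - z)) := by
      intro z' _
      split_ifs with hg
      · rw [sub_self]
        exact hle _
      · have h5 : ¬ |(z' : ℝ) - z - sl μ s * n| ≤ ρ := fun h => hg ⟨hnear, h⟩
        have h6 : WR μ s (St μ s ρ a) η a n (z' - z) = 0 := by
          refine WR_last_off (μ := μ) (s := s) η a hn ?_
          intro hm
          refine h5 ?_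
          have hm' : |(((a.2 + (z' - z)) - a.2 : ℤ) : ℝ) - sl μ s * (((a.1 + n) - a.1 : ℤ) : ℝ)| ≤ ρ := hm
          have e1 : (((a.2 + (z' - z)) - a.2 : ℤ) : ℝ) = (z' : ℝ) - z := by
            push_cast
            ring
          have e2 : (((a.1 + n) - a.1 : ℤ) : ℝ) = n := by
            push_cast
            ring
          rw [e1, e2] at hm'
          exact hm'
        rw [h6, sub_zero, sub_zero]
        exact WR_le_W _ _ _ _ _
    refine (Finset.sum_le_sum h4).trans (hjump.trans ?_)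
    have := Real.exp_pos (-Y)
    linarith

/-- The window. -/
theorem WR_win_ne [IsProbabilityMeasure μ] {ω : ℝ} {η : Env} {t : ℕ} {x z : ℤ} {l : ℕ} (hl : 1 ≤ l)
    (h : WR μ s (St μ s ω 0) η ((t : ℤ), x) l (z - x) ≠ 0) : |(z : ℝ) - sl μ s * (t + l : ℕ)| ≤ ω := by
  by_contra hne
  refine h (WR_last_off η _ hl ?_)
  intro hm
  refine hne ?_
  have hm' : |(((x + (z - x)) - 0 : ℤ) : ℝ) - sl μ s * ((((t : ℤ) + l) - 0 : ℤ) : ℝ)| ≤ ω := hm
  have e1 : (((x + (z - x)) - 0 : ℤ) : ℝ) = (z : ℝ) := by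
    push_cast
    ring
  have e2 : ((((t : ℤ) + l) - 0 : ℤ) : ℝ) = ((t + l : ℕ) : ℝ) := by
    push_cast
    ring
  rw [e1, e2] at hm'
  exact hm'

/-- DECOMPOSITION AT THE FIRST BAD STEP. -/
theorem chain20 [IsProbabilityMeasure μ] {ω₀ ω ρ α Y U : ℝ} {n N : ℕ} {l : ι → ℕ → ℝ} {η : Env} (hn : 1 ≤ n)
    (hω : ω₀ ≤ ω) (hU : UP20 μ s ω (N * n) U η)
    (hJ : JUMP20 μ s ω ρ n N Y η) (hW : WALL20 μ s ω ρ α n N Y l η) {x : ℤ} (hx : |(x : ℝ)| ≤ ω₀) (y : ℤ)
    (i : ℕ) (hi : i ≤ N) :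
    WR μ s (St μ s ω 0) η ((0 : ℤ), x) (N * n) (y - x) ≤
      ∑ z ∈ Finset.Icc x (x + (N * n : ℕ)), gk20 μ s (St μ s ω 0) ρ α n l η (Finset.Icc x (x + (N * n : ℕ))) x i z *
        WR μ s (St μ s ω 0) η (((i * n : ℕ) : ℤ), z) ((N - i) * n) (y - z) +
      i * (Real.exp U * (2 * Real.exp (-Y)) * Real.exp U) := by
  classical
  obtain ⟨Ω, hΩ⟩ : ∃ Ω : Set Pt, Ω = St μ s ω 0 := ⟨_, rfl⟩
  obtain ⟨I, hI⟩ : ∃ I : Finset ℤ, I = Finset.Icc x (x + (N * n : ℕ)) := ⟨_, rfl⟩
  induction i with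
  | zero =>
    rw [← hΩ, ← hI]
    have h1 : ∑ z ∈ I, gk20 μ s Ω ρ α n l η I x 0 z * WR μ s Ω η (((0 * n : ℕ) : ℤ), z) ((N - 0) * n) (y - z) =
        WR μ s Ω η ((0 : ℤ), x) (N * n) (y - x) := by
      rw [Finset.sum_eq_single_of_mem x]
      · unfold gk20
        simp
      · rw [hI, Finset.mem_Icc]
        constructor
        · exact le_rfl
        · have : (0 : ℤ) ≤ ((N * n : ℕ) : ℤ) := Int.natCast_nonneg _
          linarith
      · intro b _ hb
        unfold gk20
        rw [if_neg hb, zero_mul]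
    rw [h1]
    simp
  | succ i ih =>
    have ih' := ih (by omega)
    rw [← hΩ, ← hI] at ih' ⊢
    have hiN : i < N := by omega
    have hin : i * n + n ≤ N * n := by
      have : (i + 1) * n ≤ N * n := Nat.mul_le_mul_right n hi
      linarith
    have eN : (N - i) * n = n + (N - (i + 1)) * n := by
      have : N - i = 1 + (N - (i + 1)) := by omega
      rw [this]
      ring
    -- abbreviations
    obtain ⟨g, hg⟩ : ∃ g : ℤ → ℝ, g = gk20 μ s Ω ρ α n l η I x i := ⟨_, rfl⟩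
    obtain ⟨K, hK⟩ : ∃ K : ℤ → ℤ → ℝ, K = fun z z' => WR μ s Ω η (((i * n : ℕ) : ℤ), z) n (z' - z) := ⟨_, rfl⟩
    obtain ⟨R, hR⟩ : ∃ R : ℤ → ℝ, R = fun z' => WR μ s Ω η ((((i + 1) * n : ℕ) : ℤ), z') ((N - (i + 1)) * n) (y - z') :=
      ⟨_, rfl⟩
    obtain ⟨G, hG⟩ : ∃ G : ℤ → ℤ → ℝ, G = fun z z' => if gd20 (sl μ s) ρ α n l i z z' then K z z' else 0 := ⟨_, rfl⟩
    have hg0 : ∀ z, 0 ≤ g z := fun z => by rw [hg]; exact gk20_nonneg _ _ _ _ _ _ _ _ _ _
    have hgle : ∀ z, g z ≤ WR μ s Ω η ((0 : ℤ), x) (i * n) (z - x) := fun z => by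
      rw [hg, hI]
      exact gk20_le Ω ρ α n N l η x i (by omega) z
    have hK0 : ∀ z z', 0 ≤ K z z' := fun z z' => by rw [hK]; exact WR_nonneg _ _ _ _ _
    have hR0 : ∀ z, 0 ≤ R z := fun z => by rw [hR]; exact WR_nonneg _ _ _ _ _
    -- Chapman - Kolmogorov for the rest
    have hCK : ∀ z ∈ I, g z * WR μ s Ω η (((i * n : ℕ) : ℤ), z) ((N - i) * n) (y - z) ≤ g z * ∑ z' ∈ I, K z z' * R z' := by
      intro z hz
      rcases eq_or_lt_of_le (hg0 z) with h0 | h0
      · rw [← h0, zero_mul, zero_mul]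
      · refine mul_le_mul_of_nonneg_left ?_ (hg0 z)
        have hzx : 0 ≤ z - x ∧ z - x ≤ ((i * n : ℕ) : ℤ) := by
          by_contra hcon
          have h1 := hgle z
          rw [WR_off _ _ _ hcon] at h1
          linarith
        rw [eN, WR_add' (μ := μ) (s := s) Ω η ((i * n : ℕ) : ℤ) z n ((N - (i + 1)) * n) y (A := x)
          (B := x + (N * n : ℕ)) (by linarith [hzx.1]) (by
            have : ((i * n : ℕ) : ℤ) + n ≤ ((N * n : ℕ) : ℤ) := by exact_mod_cast hin
            linarith [hzx.2]), ← hI]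
        refine le_of_eq (Finset.sum_congr rfl fun u _ => ?_)
        have e2 : ((((i * n : ℕ) : ℤ) + (n : ℤ), u) : Pt) = ((((i + 1) * n : ℕ) : ℤ), u) := by
          have : (i + 1) * n = i * n + n := by ring
          rw [this]
          push_cast
          rfl
        rw [e2, hK, hR]
    have h1 : ∑ z ∈ I, g z * WR μ s Ω η (((i * n : ℕ) : ℤ), z) ((N - i) * n) (y - z) ≤
        ∑ z ∈ I, g z * ∑ z' ∈ I, K z z' * R z' := Finset.sum_le_sum hCK
    -- good part
    have h2 : ∑ z ∈ I, g z * ∑ z' ∈ I, K z z' * R z' =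
        ∑ z' ∈ I, (∑ z ∈ I, g z * G z z') * R z' + ∑ z ∈ I, g z * ∑ z' ∈ I, (K z z' - G z z') * R z' := by
      have h3 : ∀ z ∈ I, g z * ∑ z' ∈ I, K z z' * R z' =
          g z * ∑ z' ∈ I, G z z' * R z' + g z * ∑ z' ∈ I, (K z z' - G z z') * R z' := by
        intro z _
        rw [← mul_add, ← Finset.sum_add_distrib]
        congr 1
        exact Finset.sum_congr rfl fun z' _ => by ring
      rw [Finset.sum_congr rfl h3, Finset.sum_add_distrib]
      congr 1
      have h4 : ∀ z ∈ I, g z * ∑ z' ∈ I, G z z' * R z' = ∑ z' ∈ I, g z * G z z' * R z' := by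
        intro z _
        rw [Finset.mul_sum]
        exact Finset.sum_congr rfl fun z' _ => by ring
      rw [Finset.sum_congr rfl h4, Finset.sum_comm]
      exact Finset.sum_congr rfl fun z' _ => by rw [Finset.sum_mul]
    -- bad part
    have hKG : ∀ z z', 0 ≤ K z z' - G z z' := by
      intro z z'
      rw [hG]
      dsimp only
      split_ifs
      · rw [sub_self]
      · rw [sub_zero]
        exact hK0 z z'
    have hbad : ∀ z ∈ I, g z * ∑ z' ∈ I, (K z z' - G z z') * R z' ≤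
        WR μ s Ω η ((0 : ℤ), x) (i * n) (z - x) * (2 * Real.exp (-Y) * Real.exp U) := by
      intro z hz
      have hS0 : 0 ≤ ∑ z' ∈ I, (K z z' - G z z') * R z' :=
        Finset.sum_nonneg fun z' _ => mul_nonneg (hKG z z') (hR0 z')
      rcases eq_or_lt_of_le (hg0 z) with h0 | h0
      · rw [← h0, zero_mul]
        exact mul_nonneg (WR_nonneg _ _ _ _ _) (by positivity)
      · -- `z` is in the window
        have hwin : |(z : ℝ) - sl μ s * (i * n : ℕ)| ≤ ω := by
          rcases Nat.eq_zero_or_pos i with hi0 | hi0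
          · subst hi0
            have hzx : z = x := by
              by_contra hne
              rw [hg] at h0
              unfold gk20 at h0
              rw [if_neg hne] at h0
              exact lt_irrefl _ h0
            rw [hzx]
            simp only [zero_mul, Nat.cast_zero, mul_zero, sub_zero]
            exact hx.trans hω
          · have h5 : WR μ s (St μ s ω 0) η (((0 : ℕ) : ℤ), x) (i * n) (z - x) ≠ 0 := by
              have h6 := hgle z
              rw [hΩ] at h6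
              have h7 : (((0 : ℕ) : ℤ), x) = ((0 : ℤ), x) := by simp
              rw [h7]
              intro h8
              rw [h8] at h6
              linarith
            have h6 := WR_win_ne (μ := μ) (s := s) (ω := ω) (η := η) (t := 0) (x := x) (z := z) (l := i * n)
              (Nat.mul_pos hi0 hn) h5
            rw [zero_add] at h6
            exact h6
        refine mul_le_mul (hgle z) ?_ hS0 (WR_nonneg _ _ _ _ _)
        have h6 : ∀ z' ∈ I, (K z z' - G z z') * R z' ≤ (K z z' - G z z') * Real.exp U := by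
          intro z' _
          rcases eq_or_lt_of_le (hKG z z') with h7 | h7
          · rw [← h7, zero_mul, zero_mul]
          · refine mul_le_mul_of_nonneg_left ?_ (hKG z z')
            -- `z'` is in the window
            have h8 : WR μ s (St μ s ω 0) η (((i * n : ℕ) : ℤ), z) n (z' - z) ≠ 0 := by
              intro h9
              have h10 : K z z' = 0 := by
                rw [hK, hΩ]
                exact h9
              have h11 : G z z' = 0 := by
                rw [hG]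
                dsimp only
                rw [h10]
                split_ifs <;> rfl
              rw [h10, h11, sub_self] at h7
              exact lt_irrefl _ h7
            have h12 := WR_win_ne (μ := μ) (s := s) (ω := ω) (η := η) (t := i * n) (x := z) (z := z') (l := n) hn h8
            have h13 : i * n + n = (i + 1) * n := by ring
            rw [h13] at h12
            have h14 := hU ((i + 1) * n) ((N - (i + 1)) * n) z' (by
              rw [← add_mul]
              exact Nat.mul_le_mul_right n (by omega)) h12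
            rw [hR]
            dsimp only
            refine (WR_le_W _ _ _ _ _).trans ?_
            refine le_trans ?_ (Real.exp_le_exp.2 h14)
            rw [exp_V]
            by_cases h15 : 0 ≤ y - z' ∧ y - z' ≤ (((N - (i + 1)) * n : ℕ) : ℤ)
            · exact Finset.single_le_sum (f := fun k : ℤ => W μ s η ((((i + 1) * n : ℕ) : ℤ), z') ((N - (i + 1)) * n) k)
                (fun k _ => W_nonneg _ _ _ _) (Finset.mem_Icc.2 h15)
            · rw [W_eq_zero η _ h15]
              exact Finset.sum_nonneg fun k _ => W_nonneg _ _ _ _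
        refine (Finset.sum_le_sum h6).trans ?_
        rw [← Finset.sum_mul]
        refine mul_le_mul_of_nonneg_right ?_ (Real.exp_nonneg _)
        have h7 := bad_step20 (μ := μ) (s := s) hn hJ hW hiN hwin Ω I
        refine le_trans (le_of_eq ?_) h7
        refine Finset.sum_congr rfl fun z' _ => ?_
        rw [hG, hK]
    have hbad2 : ∑ z ∈ I, g z * ∑ z' ∈ I, (K z z' - G z z') * R z' ≤ Real.exp U * (2 * Real.exp (-Y)) * Real.exp U := by
      refine (Finset.sum_le_sum hbad).trans ?_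
      rw [← Finset.sum_mul]
      have h5 : ∑ z ∈ I, WR μ s Ω η ((0 : ℤ), x) (i * n) (z - x) ≤ Real.exp U := by
        have h6 := hU 0 (i * n) x (by
          rw [zero_add]
          exact Nat.mul_le_mul_right n (by omega)) (by
          simp only [Nat.cast_zero, mul_zero, sub_zero]
          exact hx.trans hω)
        refine le_trans ?_ (Real.exp_le_exp.2 h6)
        rw [exp_V]
        have h7 : (((0 : ℕ) : ℤ), x) = ((0 : ℤ), x) := by simp
        rw [h7]
        have h8 : ∑ z ∈ I, WR μ s Ω η ((0 : ℤ), x) (i * n) (z - x) =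
            ∑ z ∈ I.filter (fun z => z - x ∈ Finset.Icc (0 : ℤ) (i * n : ℕ)), WR μ s Ω η ((0 : ℤ), x) (i * n) (z - x) := by
          rw [Finset.sum_filter]
          refine Finset.sum_congr rfl fun z _ => ?_
          split_ifs with h
          · rfl
          · exact WR_off _ _ _ fun h' => h (Finset.mem_Icc.2 h')
        rw [h8]
        have h9 : ∑ z ∈ I.filter (fun z => z - x ∈ Finset.Icc (0 : ℤ) (i * n : ℕ)), WR μ s Ω η ((0 : ℤ), x) (i * n) (z - x) =
            ∑ k ∈ (I.filter (fun z => z - x ∈ Finset.Icc (0 : ℤ) (i * n : ℕ))).image (fun z => z - x),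
              WR μ s Ω η ((0 : ℤ), x) (i * n) k := by
          rw [Finset.sum_image]
          intro p _ q _ hpq
          have : p - x = q - x := hpq
          omega
        rw [h9]
        refine (Finset.sum_le_sum_of_subset_of_nonneg ?_ fun k _ _ => WR_nonneg _ _ _ _ _).trans
          (Finset.sum_le_sum fun k _ => WR_le_W _ _ _ _ _)
        intro k hk
        rw [Finset.mem_image] at hk
        obtain ⟨q, hq, rfl⟩ := hk
        exact (Finset.mem_filter.1 hq).2
      have h6 : 0 ≤ 2 * Real.exp (-Y) * Real.exp U := by positivity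
      calc _ ≤ Real.exp U * (2 * Real.exp (-Y) * Real.exp U) := mul_le_mul_of_nonneg_right h5 h6
        _ = _ := by ring
    have hgood : ∑ z' ∈ I, (∑ z ∈ I, g z * G z z') * R z' =
        ∑ z ∈ I, gk20 μ s Ω ρ α n l η I x (i + 1) z *
          WR μ s Ω η ((((i + 1) * n : ℕ) : ℤ), z) ((N - (i + 1)) * n) (y - z) := by
      refine Finset.sum_congr rfl fun z' _ => ?_
      rw [hR]
      dsimp only
      congr 1
      rw [gk20, hG, hg, hK]
    rw [← hg] at ih'
    have hc : ((i + 1 : ℕ) : ℝ) = (i : ℝ) + 1 := by push_cast; ring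
    rw [← hgood, hc]
    rw [h2] at h1
    nlinarith [h1, hbad2, ih']

/-- The exits. -/
theorem exit_one20 {ω₀ ω Y' : ℝ} {T : ℕ} {η : Env} (hE : EXIT20 μ s ω₀ ω T Y' η) {x : ℤ} (hx : |(x : ℝ)| ≤ ω₀) (k : ℤ) :
    W μ s η ((0 : ℤ), x) T k ≤ WR μ s (St μ s ω 0) η ((0 : ℤ), x) T k + Real.exp (-Y') := by
  by_cases hk : 0 ≤ k ∧ k ≤ (T : ℤ)
  · have h1 := hE x hx
    rw [exp_V] at h1
    unfold WS Pool.Agent.W_7d29a1_HL.cS at h1
    rw [← Finset.sum_sub_distrib] at h1
    have h2 := Finset.single_le_sum (f := fun y : ℤ => W μ s η ((0 : ℤ), x) T y - WR μ s (St μ s ω 0) η ((0 : ℤ), x) T y)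
      (s := Finset.Icc (0 : ℤ) T) (fun y _ => sub_nonneg.2 (WR_le_W _ _ _ _ _)) (Finset.mem_Icc.2 hk)
    have h3 : W μ s η ((0 : ℤ), x) T k - WR μ s (St μ s ω 0) η ((0 : ℤ), x) T k ≤ Real.exp (-Y') := h2.trans h1
    linarith
  · rw [W_eq_zero η _ hk]
    have := WR_nonneg (μ := μ) (s := s) (St μ s ω 0) η ((0 : ℤ), x) T k
    have := Real.exp_pos (-Y')
    linarith

/-- The error of the slab. -/
def er20 (N : ℕ) (U Y Y' : ℝ) : ℝ := Real.exp (-Y') + N * (Real.exp U * (2 * Real.exp (-Y)) * Real.exp U)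

/-- **THE KERNEL OF THE SLAB IS SMALL** unless the start and the end are near the two ends of the same lane. -/
theorem kernel_small20 [IsProbabilityMeasure μ] {ω₀ ω ρ α τ Y Y' U : ℝ} {n N : ℕ} {l : ι → ℕ → ℝ} {η : Env} (hn : 1 ≤ n)
    (hN : 1 ≤ N) (hω : ω₀ ≤ ω) (hU : UP20 μ s ω (N * n) U η) (hE : EXIT20 μ s ω₀ ω (N * n) Y' η)
    (hJ : JUMP20 μ s ω ρ n N Y η) (hW : WALL20 μ s ω ρ α n N Y l η)
    (hs : ∀ j, ∀ i < N, |l j (i + 1) - l j i - sl μ s * n| ≤ τ)
    (hsep : ∀ j j', j ≠ j' → ∀ i ≤ N, 2 * α + ρ + τ < |l j i - l j' i|) {x : ℤ} (hx : |(x : ℝ)| ≤ ω₀) (y : ℤ)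
    (h1 : ∀ j, ¬ (|(x : ℝ) - l j 0| ≤ α ∧ |(y : ℝ) - l j N| ≤ α + ρ + τ)) :
    W μ s η ((0 : ℤ), x) (N * n) (y - x) ≤ er20 N U Y Y' := by
  have k1 := exit_one20 hE hx (y - x)
  have k2 := chain20 hn hω hU hJ hW hx y N le_rfl
  have k3 : ∑ z ∈ Finset.Icc x (x + (N * n : ℕ)),
      gk20 μ s (St μ s ω 0) ρ α n l η (Finset.Icc x (x + (N * n : ℕ))) x N z *
        WR μ s (St μ s ω 0) η (((N * n : ℕ) : ℤ), z) ((N - N) * n) (y - z) = 0 := by
    refine Finset.sum_eq_zero fun z _ => ?_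
    by_cases hz : z = y
    · have h0 : gk20 μ s (St μ s ω 0) ρ α n l η (Finset.Icc x (x + (N * n : ℕ))) x N z = 0 := by
        by_contra hne
        obtain ⟨j, h⟩ := gk20_supp (μ := μ) (s := s) (St μ s ω 0) n η _ x hs hsep N le_rfl hN z hne
        rw [hz] at h
        exact h1 j h
      rw [h0, zero_mul]
    · have h0 : WR μ s (St μ s ω 0) η (((N * n : ℕ) : ℤ), z) ((N - N) * n) (y - z) = 0 := by
        rw [Nat.sub_self, zero_mul]
        refine WR_off _ _ _ ?_
        rintro ⟨q1, q2⟩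
        simp only [Nat.cast_zero] at q2
        omega
      rw [h0, mul_zero]
  rw [k3, zero_add] at k2
  unfold er20
  linarith

/-- Near the lane `l` at the row `i n`. -/
def nr20 (l : ℕ → ℝ) (β : ℝ) (i : ℕ) (z : ℤ) : Prop := |(z : ℝ) - l i| ≤ β

open Classical in
/-- **THE KERNEL IS CARRIED BY THE LANES**: at every row `i n`, up to the error. -/
theorem kernel_near20 [IsProbabilityMeasure μ] {ω₀ ω ρ α τ Y Y' U : ℝ} {n N : ℕ} {l : ι → ℕ → ℝ} {η : Env} (hn : 1 ≤ n)
    (hω : ω₀ ≤ ω) (hU : UP20 μ s ω (N * n) U η) (hE : EXIT20 μ s ω₀ ω (N * n) Y' η)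
    (hJ : JUMP20 μ s ω ρ n N Y η) (hW : WALL20 μ s ω ρ α n N Y l η)
    (hs : ∀ j, ∀ i < N, |l j (i + 1) - l j i - sl μ s * n| ≤ τ)
    (hsep : ∀ j j', j ≠ j' → ∀ i ≤ N, 2 * α + ρ + τ < |l j i - l j' i|) {x : ℤ} (hx : |(x : ℝ)| ≤ ω₀) (y : ℤ) {i : ℕ} (hi1 : 1 ≤ i) (hi : i ≤ N) :
    W μ s η ((0 : ℤ), x) (N * n) (y - x) ≤
      ∑ z ∈ (Finset.Icc x (x + (N * n : ℕ))).filter (fun z =>
        ∃ j, |(x : ℝ) - l j 0| ≤ α ∧ nr20 (l j) (α + ρ + τ) i z),
        W μ s η ((0 : ℤ), x) (i * n) (z - x) * W μ s η (((i * n : ℕ) : ℤ), z) ((N - i) * n) (y - z) + er20 N U Y Y' := by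
  have k1 := exit_one20 hE hx (y - x)
  have k2 := chain20 hn hω hU hJ hW hx y i hi
  have k3 : ∑ z ∈ Finset.Icc x (x + (N * n : ℕ)),
      gk20 μ s (St μ s ω 0) ρ α n l η (Finset.Icc x (x + (N * n : ℕ))) x i z *
        WR μ s (St μ s ω 0) η (((i * n : ℕ) : ℤ), z) ((N - i) * n) (y - z) ≤
      ∑ z ∈ (Finset.Icc x (x + (N * n : ℕ))).filter (fun z =>
        ∃ j, |(x : ℝ) - l j 0| ≤ α ∧ nr20 (l j) (α + ρ + τ) i z),
        W μ s η ((0 : ℤ), x) (i * n) (z - x) * W μ s η (((i * n : ℕ) : ℤ), z) ((N - i) * n) (y - z) := by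
    rw [Finset.sum_filter]
    refine Finset.sum_le_sum fun z _ => ?_
    split_ifs with hz
    · exact mul_le_mul ((gk20_le _ ρ α n N l η x i hi z).trans (WR_le_W _ _ _ _ _)) (WR_le_W _ _ _ _ _)
        (WR_nonneg _ _ _ _ _) (W_nonneg _ _ _ _)
    · have h0 : gk20 μ s (St μ s ω 0) ρ α n l η (Finset.Icc x (x + (N * n : ℕ))) x i z = 0 := by
        by_contra hne
        exact hz (gk20_supp (μ := μ) (s := s) (St μ s ω 0) n η _ x hs hsep i hi hi1 z hne)
      rw [h0, zero_mul]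
  have k4 : (i : ℝ) * (Real.exp U * (2 * Real.exp (-Y)) * Real.exp U) ≤ N * (Real.exp U * (2 * Real.exp (-Y)) * Real.exp U) :=
    mul_le_mul_of_nonneg_right (by exact_mod_cast hi) (by positivity)
  unfold er20
  linarith

end

end Pool.Agent.W_7d29a1_C1
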