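import Pool.Agent.W_7d29a1_C1.FunM20

/-!
MP_7d29a1_pr, [C1] SLAB LEMMA, assembly. (helper20)
-/

set_option autoImplicit false

namespace Pool.Agent.W_7d29a1_C1

open MeasureTheory ProbabilityTheory Filter Topology
open Pool.Agent.W_7d29a1_F Pool.Agent.W_7d29a1_h4g Pool.Agent.W_7d29a1_H Pool.Agent.W_7d29a1_HS
open Pool.Agent.W_7d29a1_HL (cS measurable_cS cS_dep)
open Pool.Agent.W_7d29a1_HR (Dec Fin' exit_sum_mono cS_mono_env V_mono_env)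
open Pool.Agent.W_7d29a1_C1.F31 (DecO FinO)
open Pool.Agent.W_7d29a1_C1.S71 (Off)

noncomputable section

variable {μ : Measure ℝ} {s c C : ℝ} {n₀ : ℕ} {ι : Type*}

/-- The drift of the lanes against the slope `sl` over a slab of `T` rows: at most `D` in the whole slab, linearly. -/
def Drift20 (v : ℝ) (T : ℕ) (D : ℝ) (L : ι → ℝ → ℝ) : Prop :=
  ∀ (j : ι) (t t' : ℝ), 0 ≤ t → t ≤ t' → t' ≤ T → |L j t' - L j t - v * (t' - t)| ≤ D * ((t' - t) / T)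

/-- The protected strips. -/
def PS20 (L : ι → ℝ → ℝ) (r : ℝ) : Set Pt := {p | ∃ j, |(p.2 : ℝ) - L j p.1| ≤ r}

/-- The lanes at the rows `i n`. -/
def la20 (L : ι → ℝ → ℝ) (n : ℕ) (j : ι) (i : ℕ) : ℝ := L j ((i * n : ℕ) : ℝ)

/-- The slab event: `K₃`, `U`, `Y`, `G` in the units of the slab. -/
def FUN20 (μ : Measure ℝ) (s K K₃ ε U Y G : ℝ) (n N : ℕ) (L : ι → ℝ → ℝ) (r : ℝ) : Set Env :=
  {η | UP20 μ s (K₃ * wd μ s (N * n)) (N * n) (U * EE μ s (N * n)) η ∧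
    EXIT20 μ s (K * wd μ s (N * n)) (K₃ * wd μ s (N * n)) (N * n) (G * EE μ s (N * n)) η ∧
    JUMP20 μ s (K₃ * wd μ s (N * n)) (ε * wd μ s (N * n)) n N (Y * EE μ s (N * n)) η ∧
    WALL20 μ s (K₃ * wd μ s (N * n)) (ε * wd μ s (N * n)) (r + 2 * (ε * wd μ s (N * n))) n N (Y * EE μ s (N * n))
      (la20 L n) η}

theorem drift_la20 {v D ρ : ℝ} {n N : ℕ} (hn : 1 ≤ n) (hN : 1 ≤ N) {L : ι → ℝ → ℝ} (hL : Drift20 v (N * n) D L)
    (hD : D ≤ N * ρ) (j : ι) (i : ℕ) (hi : i < N) : |la20 L n j (i + 1) - la20 L n j i - v * n| ≤ ρ := by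
  have hn' : (0 : ℝ) < n := by exact_mod_cast hn
  have hN' : (0 : ℝ) < N := by exact_mod_cast hN
  have h1 := hL j ((i * n : ℕ) : ℝ) (((i + 1) * n : ℕ) : ℝ) (Nat.cast_nonneg _) (by
    exact_mod_cast Nat.mul_le_mul_right n (Nat.le_succ i)) (by
    exact_mod_cast Nat.mul_le_mul_right n (by omega : i + 1 ≤ N))
  have e1 : (((i + 1) * n : ℕ) : ℝ) - ((i * n : ℕ) : ℝ) = n := by push_cast; ring
  rw [e1] at h1
  unfold la20
  refine h1.trans ?_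
  have e2 : D * ((n : ℝ) / ((N * n : ℕ) : ℝ)) = D / N := by
    push_cast
    field_simp
  rw [e2, div_le_iff₀ hN']
  linarith

/-- The away starts do not see the protected strips. -/
theorem away20 {ω ρ r D : ℝ} {n N : ℕ} (hn : 1 ≤ n) (hN : 1 ≤ N) {L : ι → ℝ → ℝ} (hD0 : 0 ≤ D)
    (hL : Drift20 (sl μ s) (N * n) D L) (hD : D ≤ N * ρ) (i : ℕ) (z : ℤ) (hi : i < N)
    (_hz : |(z : ℝ) - sl μ s * (i * n : ℕ)| ≤ ω) (ha : ∀ j, r + 2 * ρ < |(z : ℝ) - la20 L n j i|) :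
    ∀ p ∈ St μ s ρ (((i * n : ℕ) : ℤ), z) ∩ rows (i * n : ℕ) ((i * n : ℕ) + n), p ∉ PS20 L r := by
  rintro p ⟨hp1, hp2, hp3⟩ ⟨j, hj⟩
  have hn' : (0 : ℝ) < n := by exact_mod_cast hn
  have hN' : (0 : ℝ) < N := by exact_mod_cast hN
  have h0 : ((i * n : ℕ) : ℝ) ≤ (p.1 : ℝ) := by
    have : ((i * n : ℕ) : ℤ) ≤ p.1 := hp2.le
    exact_mod_cast this
  have h1 : (p.1 : ℝ) ≤ ((i * n : ℕ) : ℝ) + n := by
    have : p.1 ≤ ((i * n : ℕ) : ℤ) + n := hp3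
    exact_mod_cast this
  have h2 : ((i * n : ℕ) : ℝ) + n ≤ ((N * n : ℕ) : ℝ) := by
    have : i * n + n ≤ N * n := by
      have : (i + 1) * n ≤ N * n := Nat.mul_le_mul_right n hi
      linarith
    exact_mod_cast this
  have h3 := hL j ((i * n : ℕ) : ℝ) (p.1 : ℝ) (Nat.cast_nonneg _) h0 (h1.trans h2)
  have h4 : D * (((p.1 : ℝ) - ((i * n : ℕ) : ℝ)) / ((N * n : ℕ) : ℝ)) ≤ ρ := by
    have h5 : ((p.1 : ℝ) - ((i * n : ℕ) : ℝ)) / ((N * n : ℕ) : ℝ) ≤ 1 / N := by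
      have h6 : (0 : ℝ) < ((N * n : ℕ) : ℝ) := by positivity
      rw [div_le_div_iff₀ h6 hN']
      push_cast at h1 ⊢
      nlinarith
    have h6 : D * (((p.1 : ℝ) - ((i * n : ℕ) : ℝ)) / ((N * n : ℕ) : ℝ)) ≤ D * (1 / N) := mul_le_mul_of_nonneg_left h5 hD0
    refine h6.trans ?_
    rw [mul_one_div, div_le_iff₀ hN']
    linarith
  have h5 : |((p.2 : ℝ) - z) - sl μ s * ((p.1 : ℝ) - ((i * n : ℕ) : ℝ))| ≤ ρ := by
    have h6 : |((p.2 - z : ℤ) : ℝ) - sl μ s * ((p.1 - ((i * n : ℕ) : ℤ) : ℤ) : ℝ)| ≤ ρ := hp1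
    have e1 : ((p.1 - ((i * n : ℕ) : ℤ) : ℤ) : ℝ) = (p.1 : ℝ) - ((i * n : ℕ) : ℝ) := by push_cast; ring
    have e2 : ((p.2 - z : ℤ) : ℝ) = (p.2 : ℝ) - z := by push_cast; ring
    rw [e1, e2] at h6
    exact h6
  have h6 := ha j
  unfold la20 at h6
  have h7 : |(z : ℝ) - L j ((i * n : ℕ) : ℝ)| ≤ ρ + r + ρ := by
    have h8 := h3.trans h4
    rw [abs_le] at h8 h5 hj ⊢
    constructor <;> linarith [h8.1, h8.2, h5.1, h5.2, hj.1, hj.2]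
  linarith

/-- **THE WALLS**: the probability. -/
theorem wallP20 [IsProbabilityMeasure μ] (h : In μ s c C n₀) {K₃ ε : ℝ} (hK : 0 ≤ K₃) (hε : 0 ≤ ε) {N : ℕ} (hN : 1 ≤ N) (Y : ℝ) :
    ∃ p : ℝ, 0 < p ∧ ∃ n₁ : ℕ, ∀ n : ℕ, n₁ ≤ n → ∀ (ι : Type) (α : ℝ) (l : ι → ℕ → ℝ),
      p ≤ (law μ).real {η | WALL20 μ s (K₃ * wd μ s (N * n)) (ε * wd μ s (N * n)) α n N (Y * EE μ s (N * n)) l η} := by
  obtain ⟨B, hB, hw⟩ := Wall66.wall h (R := K₃ + ε) (by positivity) (K := 1) le_rfl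
  have hNr : (0 : ℝ) < N := by exact_mod_cast (show 0 < N by omega)
  obtain ⟨p, hp, n₁, hp1⟩ := hw Y (1 / N) (by positivity)
  refine ⟨p, hp, n₁, fun n hn ι α l => ?_⟩
  obtain ⟨T, hT⟩ : ∃ T : ℕ, T = N * n := ⟨_, rfl⟩
  have hTn : n ≤ T := by
    rw [hT]
    exact Nat.le_mul_of_pos_left n (by omega)
  obtain ⟨R, hR⟩ : ∃ R : Set Pt, R = tb (sl μ s) (0 : Pt) ((K₃ + ε) * wd μ s T) := ⟨_, rfl⟩
  have h1 := hp1 T (hn.trans hTn) 0 R n (by rw [hR]) (by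
    rw [hT]
    push_cast
    rw [one_div, inv_mul_cancel_left₀ hNr.ne'])
  refine h1.trans (measureReal_mono (fun η hη => ?_) (measure_ne_top _ _))
  intro i z hi hz _
  have hin : i * n + n ≤ N * n := by
    have : (i + 1) * n ≤ N * n := Nat.mul_le_mul_right n hi
    linarith
  obtain ⟨-, h2, -⟩ := hη (((i * n : ℕ) : ℤ), z) n (by
    show (0 : ℤ) ≤ ((i * n : ℕ) : ℤ)
    exact Int.natCast_nonneg _) (by
    show ((i * n : ℕ) : ℤ) + n ≤ (0 : ℤ) + ((1 * T : ℕ) : ℤ)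
    rw [one_mul, hT, zero_add]
    exact_mod_cast hin)
  have h3 := h2 le_rfl
  rw [hT] at h3
  refine le_trans ?_ h3
  -- the region of the sub block is in the box
  have h4 : cS μ s (St μ s (ε * wd μ s (N * n)) (((i * n : ℕ) : ℤ), z)) η (((i * n : ℕ) : ℤ), z) n =
      cS μ s (St μ s (ε * wd μ s (N * n)) (((i * n : ℕ) : ℤ), z) ∩ R) η (((i * n : ℕ) : ℤ), z) n := by
    unfold cS
    refine Finset.sum_congr rfl fun y _ => Pool.Agent.W_7d29a1_HL.WR_congr' η _ n y fun p hp1 hp2 => ?_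
    refine ⟨fun h5 => ⟨h5, ?_⟩, fun h5 => h5.1⟩
    rw [hR]
    have h6 : |((p.2 - z : ℤ) : ℝ) - sl μ s * ((p.1 - ((i * n : ℕ) : ℤ) : ℤ) : ℝ)| ≤ ε * wd μ s (N * n) := h5
    have e1 : ((p.1 - ((i * n : ℕ) : ℤ) : ℤ) : ℝ) = (p.1 : ℝ) - ((i * n : ℕ) : ℝ) := by push_cast; ring
    have e2 : ((p.2 - z : ℤ) : ℝ) = (p.2 : ℝ) - z := by push_cast; ring
    rw [e1, e2] at h6
    show |((p.2 - (0 : Pt).2 : ℤ) : ℝ) - sl μ s * ((p.1 - (0 : Pt).1 : ℤ) : ℝ)| ≤ (K₃ + ε) * wd μ s T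
    have e3 : ((p.2 - (0 : Pt).2 : ℤ) : ℝ) = (p.2 : ℝ) := by
      show ((p.2 - 0 : ℤ) : ℝ) = _
      push_cast; ring
    have e4 : ((p.1 - (0 : Pt).1 : ℤ) : ℝ) = (p.1 : ℝ) := by
      show ((p.1 - 0 : ℤ) : ℝ) = _
      push_cast; ring
    rw [e3, e4, hT]
    rw [abs_le] at h6 hz ⊢
    constructor <;> linarith [h6.1, h6.2, hz.1, hz.2]
  rw [h4]
  exact Wall66.cS_mono_set Set.inter_subset_right η _ _

end

end Pool.Agent.W_7d29a1_C1
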