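import Pool.Agent.W_7d29a1_C1.WinA84
import Pool.Agent.W_7d29a1_HZ.NS
import Pool.Agent.W_7d29a1_HZ.Z21_Env94

/-!
[C1] HYBRIDS, CLOSURE (C) (helper84): **the tilted free polymer stays in the window**. `loc84`: for the tilts `|h| EE K ≤ K ^ κ` the
quenched probability that the path of `K = m + k` rows is at the time `m` at a distance `> K ^ ε wd m` from the line is at most
`exp (- K ^ c')`, outside an event of probability `exp (- K ^ c')`.
-/

set_option autoImplicit false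

namespace Pool.Agent.W_7d29a1_C1.Win84

open MeasureTheory ProbabilityTheory Filter Topology Finset
open Pool.Agent.W_7d29a1_F Pool.Agent.W_7d29a1_X Pool.Agent.W_7d29a1_h4g Pool.Agent.W_7d29a1_H
open Pool.Agent.W_7d29a1_HS (In wd md md_abs wd_ge_one)
open Pool.Agent.W_7d29a1_L (T kap exp_T exp_T_add)
open Pool.Agent.W_7d29a1_HZ (gp P1 NSp ns PBox pbox wd' EE' EE'_pow wd'_pow)
open scoped ENNReal

noncomputable section

variable {μ : Measure ℝ} {s : ℝ} [IsProbabilityMeasure μ] {c C : ℝ} {n₀ : ℕ}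

/-- The lower bound of the variance (`LB20` of `W_7d29a1_LB`, `LB17` of `EndF17`), repeated to keep the imports short. -/
def LB84 (μ : Measure ℝ) (s : ℝ) : Prop :=
  ∀ ε : ℝ, 0 < ε → ∃ n₁ : ℕ, ∀ n : ℕ, n₁ ≤ n → wd μ s n ≤ (n : ℝ) ^ ε * EE μ s n ^ 2

theorem ev84 (K : ℝ) {d : ℝ} (hd : 0 < d) : ∀ᶠ n : ℕ in atTop, K ≤ (n : ℝ) ^ d :=
  ((tendsto_rpow_atTop hd).comp tendsto_natCast_atTop_atTop).eventually_ge_atTop K

theorem EE'_eq (n : ℕ) : EE' μ s n = EE μ s n := max_eq_right (one_le_EE n)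

theorem wd_two (h : In μ s c C n₀) {n : ℕ} (hn : 1 ≤ n) : 2 ≤ wd μ s n := by
  have h1 := wd_ge_one h hn
  have h2 := one_le_EE (μ := μ) (s := s) n
  linarith

theorem wd'_eq' (h : In μ s c C n₀) {n : ℕ} (hn : 1 ≤ n) : wd' μ s n = wd μ s n :=
  max_eq_right (by linarith [wd_two h hn])

/-- The upper tail of the tilted luck. -/
theorem up_T (h : In μ s c C n₀) : ∃ B : ℝ, 1 ≤ B ∧ ∃ n₁ : ℕ, 1 ≤ n₁ ∧ ∀ r, n₁ ≤ r → ∀ t : ℝ,
    |t| * wd μ s r ≤ c / 2 * EE μ s r → ∀ (K : ℕ) (x : ℝ),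
    (law μ).real {η | ¬ T μ s (sl μ s) t η 0 K ≤ C * EE μ s r * (x + (((K / r : ℕ) : ℝ) + 1) * Real.log B) +
      (((K / r : ℕ) : ℝ) + 1) * EE μ s r} ≤ Real.exp (-x) := by
  obtain ⟨B, hB, n₁, hn0, hn1, hmom⟩ := Pool.Agent.W_7d29a1_HZ.Z94.mom_tilt h
  refine ⟨B, hB, n₁, hn1, fun r hr t ht K x => ?_⟩
  have hr1 : 1 ≤ r := hn1.trans hr
  have hr0 : (0 : ℝ) < r := by exact_mod_cast hr1
  have hE := EE_pos (μ := μ) (s := s) r
  have hC := h.C1
  have hCE : 0 < C * EE μ s r := by positivity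
  obtain ⟨k, hk⟩ : ∃ k : ℝ, k = ((K / r : ℕ) : ℝ) + 1 := ⟨_, rfl⟩
  rw [← hk]
  have hk0 : 0 < k := by rw [hk]; positivity
  obtain ⟨y, hy⟩ : ∃ y : ℝ, y = C * EE μ s r * (x + k * Real.log B) := ⟨_, rfl⟩
  rw [← hy]
  have hI : Integrable (fun η => Real.exp (1 / (C * EE μ s r) * V μ (s + t) η 0 K)) (law μ) :=
    ((Sub_V (μ := μ) (s := s + t) 0 K).const_mul _).exp_int h.em
  have h1 := ProbabilityTheory.measure_ge_le_exp_mul_mgf (μ := law μ) (X := fun η => V μ (s + t) η 0 K) y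
    (t := 1 / (C * EE μ s r)) (by positivity) hI
  have h2 := hmom r hr t ht K
  have h3 : mgf (fun η => V μ (s + t) η 0 K) (law μ) (1 / (C * EE μ s r)) ≤ B ^ (K / r + 1) := h2
  have h4 : Real.exp (-(1 / (C * EE μ s r)) * y) = Real.exp (-x) * Real.exp (-(k * Real.log B)) := by
    rw [← Real.exp_add, hy]
    congr 1
    field_simp
    ring
  have h5 : B ^ (K / r + 1) = Real.exp (k * Real.log B) := by
    have h6 : k = ((K / r + 1 : ℕ) : ℝ) := by
      rw [hk]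
      push_cast
      ring
    rw [h6, Real.exp_nat_mul, Real.exp_log (by linarith)]
  have h7 : (law μ).real {η | y ≤ V μ (s + t) η 0 K} ≤ Real.exp (-x) := by
    refine h1.trans ?_
    rw [h4]
    calc Real.exp (-x) * Real.exp (-(k * Real.log B)) * mgf (fun η => V μ (s + t) η 0 K) (law μ) (1 / (C * EE μ s r))
        ≤ Real.exp (-x) * Real.exp (-(k * Real.log B)) * Real.exp (k * Real.log B) := by
          rw [← h5]
          exact mul_le_mul_of_nonneg_left h3 (by positivity)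
      _ = Real.exp (-x) := by
          rw [mul_assoc, ← Real.exp_add, neg_add_cancel, Real.exp_zero, mul_one]
  refine (measureReal_mono fun η hη => ?_).trans h7
  have hη' : ¬ T μ s (sl μ s) t η 0 K ≤ y + k * EE μ s r := hη
  show y ≤ V μ (s + t) η 0 K
  rw [not_le] at hη'
  have hex := ex_nonneg h.em h.nd s t
  have ht1 := Pool.Agent.W_7d29a1_HZ.Z94.t_le_one h hr1 ht
  have hexE := Pool.Agent.W_7d29a1_HZ.Z94.ex_le_EE h hr1 (t := t) (by linarith) (by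
    refine ht.trans ?_
    have h0 := mul_le_mul_of_nonneg_right h.c1 hE.le
    linarith only [h0, hE])
  have hKr : (K : ℝ) ≤ k * r := by
    have h8 : K < (K / r + 1) * r := by
      have := Nat.lt_div_mul_add (a := K) (b := r) (by omega)
      calc K < K / r * r + r := this
        _ = (K / r + 1) * r := by ring
    have h9 : (K : ℝ) ≤ (((K / r + 1) * r : ℕ) : ℝ) := by exact_mod_cast h8.le
    rw [hk]
    push_cast at h9
    exact h9
  have h10 : T μ s (sl μ s) t η 0 K = V μ (s + t) η 0 K + K * ex μ s t := rfl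
  have h11 : (K : ℝ) * ex μ s t ≤ k * EE μ s r := by
    calc (K : ℝ) * ex μ s t ≤ k * r * ex μ s t := mul_le_mul_of_nonneg_right hKr hex
      _ = k * (r * ex μ s t) := by ring
      _ ≤ k * EE μ s r := mul_le_mul_of_nonneg_left hexE hk0.le
  rw [h10] at hη'
  linarith

/-- The lower bound of the tilted luck. -/
theorem low_T (h : In μ s c C n₀) (t : ℝ) (η : Env) (K : ℕ) :
    -X μ s η 0 K (md μ s K) - |t| ≤ T μ s (sl μ s) t η 0 K := by
  have h1 := Pool.Agent.W_7d29a1_HZ.Z94.V_tilt_ge h t η K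
  have h10 : T μ s (sl μ s) t η 0 K = V μ (s + t) η 0 K + K * ex μ s t := rfl
  rw [h10]
  linarith

/-- The bad sites of the row `m`. -/
def bd (μ : Measure ℝ) (s : ℝ) (K : ℕ) (ε : ℝ) (m : ℕ) : Finset ℤ := by
  classical
  exact (Icc (0 : ℤ) m).filter fun y => ¬ |(y : ℝ) - sl μ s * m| ≤ (K : ℝ) ^ ε * wd' μ s m

omit [IsProbabilityMeasure μ] in
theorem mem_bd {K : ℕ} {ε : ℝ} {m : ℕ} {y : ℤ} : y ∈ bd μ s K ε m ↔ (0 ≤ y ∧ y ≤ m) ∧
    ¬ |(y : ℝ) - sl μ s * m| ≤ (K : ℝ) ^ ε * wd' μ s m := by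
  unfold bd
  rw [mem_filter, mem_Icc]

omit [IsProbabilityMeasure μ] in
theorem bd_sub (K : ℕ) (ε : ℝ) (m : ℕ) : bd μ s K ε m ⊆ Icc (0 : ℤ) m := by
  intro y hy
  rw [mem_Icc]
  exact (mem_bd.1 hy).1

/-- The polymer with fixed end in the cone: the bad sites have small quenched probability. -/
theorem pin84 (h : In μ s c C n₀) {ε : ℝ} (hε : 0 < ε) : ∃ δ c' : ℝ, 0 < δ ∧ 0 < c' ∧ ∃ K₀ : ℕ, ∀ K : ℕ, K₀ ≤ K →
    ∀ m k : ℕ, 1 ≤ m → m + k = K → ∀ u : ℤ, 0 ≤ u → u ≤ K → |(u : ℝ) - sl μ s * K| ≤ (K : ℝ) ^ δ * wd' μ s K →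
    (law μ).real {η | ¬ ∑ y ∈ bd μ s K ε m, W μ s η 0 m y * W μ s η ((0 : Pt).1 + m, (0 : Pt).2 + y) k (u - y) ≤
      Real.exp (-(1 / 2 * (K : ℝ) ^ c')) * W μ s η 0 K u} ≤ Real.exp (-(1 / 2 * (K : ℝ) ^ c')) := by
  classical
  obtain ⟨δ, c', hδ, hc', L₀, hns⟩ := ns h ε hε
  refine ⟨δ, c', hδ, hc', L₀, fun K hK m k hm hmk u hu0 huK hu => ?_⟩
  subst hmk
  obtain ⟨x, hx⟩ : ∃ x : ℝ, x = ((m + k : ℕ) : ℝ) ^ c' := ⟨_, rfl⟩
  have h1 := hns (m + k) hK (m + k) (by omega) le_rfl u hu0 huK hu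
  rw [Pool.Agent.W_7d29a1_HZ.Z74.P1_path] at h1
  rw [← hx] at h1 ⊢
  obtain ⟨F, hF⟩ : ∃ F : Env → ℝ, F = fun η => ∑ S ∈ (range (m + k)).powerset, gp μ s η (m + k) u S *
    (if ¬ NSp μ s (m + k) (m + k) ε S then 1 else 0) := ⟨_, rfl⟩
  have h2 : ∫⁻ η, ENNReal.ofReal (F η) ∂(law μ) ≤ ENNReal.ofReal (Real.exp (-x)) := by
    rw [hF]
    exact h1
  have hFm : Measurable F := by
    rw [hF]
    exact Finset.measurable_sum _ fun S _ => (Pool.Agent.W_7d29a1_HZ.Z74.meas_gp (m + k) u S).mul measurable_const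
  have h3 : ∀ η, ¬ (∑ y ∈ bd μ s (m + k) ε m, W μ s η 0 m y * W μ s η ((0 : Pt).1 + m, (0 : Pt).2 + y) k (u - y) ≤
      Real.exp (-(1 / 2 * x)) * W μ s η 0 (m + k) u) → Real.exp (-(1 / 2 * x)) ≤ F η := by
    intro η hη
    by_contra hcon
    rw [not_le] at hcon
    refine hη ((pin_sum η m k (bd_sub _ _ _) u (fun S => ¬ NSp μ s (m + k) (m + k) ε S) fun S hS hN => ?_).trans ?_)
    · rw [mem_bd] at hS
      refine hS.2 ?_
      have h4 := hN 0 m hm (by omega)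
      rw [zero_add, pos_zero, sub_zero] at h4
      exact h4
    · have h5 : F η = ∑ S ∈ (range (m + k)).powerset, gp μ s η (m + k) u S *
          (if ¬ NSp μ s (m + k) (m + k) ε S then 1 else 0) := by rw [hF]
      rw [← h5, mul_comm]
      exact mul_le_mul_of_nonneg_right hcon.le (W_nonneg _ _ _ _)
  have h6 := mul_meas_ge_le_lintegral (μ := law μ) (hFm.ennreal_ofReal) (ENNReal.ofReal (Real.exp (-(1 / 2 * x))))
  have h7 : (law μ) {η | ENNReal.ofReal (Real.exp (-(1 / 2 * x))) ≤ ENNReal.ofReal (F η)} ≤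
      ENNReal.ofReal (Real.exp (-(1 / 2 * x))) := by
    have h8 := h6.trans h2
    have h9 : ENNReal.ofReal (Real.exp (-x)) = ENNReal.ofReal (Real.exp (-(1 / 2 * x))) * ENNReal.ofReal (Real.exp (-(1 / 2 * x))) := by
      rw [← ENNReal.ofReal_mul (Real.exp_pos _).le, ← Real.exp_add]
      congr 2
      ring
    rw [h9] at h8
    exact (ENNReal.mul_le_mul_iff_right (by simp [Real.exp_pos]) ENNReal.ofReal_ne_top).1 h8
  have h10 : (law μ) {η | ¬ ∑ y ∈ bd μ s (m + k) ε m, W μ s η 0 m y * W μ s η ((0 : Pt).1 + m, (0 : Pt).2 + y) k (u - y) ≤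
      Real.exp (-(1 / 2 * x)) * W μ s η 0 (m + k) u} ≤ ENNReal.ofReal (Real.exp (-(1 / 2 * x))) := by
    refine (measure_mono fun η hη => ?_).trans h7
    exact ENNReal.ofReal_le_ofReal (h3 η hη)
  exact ENNReal.toReal_le_of_le_ofReal (Real.exp_pos _).le h10

/-- The numbers of the tail of the end point. -/
theorem num84 {a Er wr w K1 K2 c C5 D h' Th T1 T2 t : ℝ} (ha : 1 ≤ a) (hEr : 1 ≤ Er) (hwr : 0 < wr) (hK1 : 1 ≤ K1) (hc : 0 < c)
    (hw : wr ≤ K1 * w) (hh : h' = c / 2 * (Er / wr)) (hD : D = a ^ 8 * w) (hT1 : T1 ≤ C5 * a ^ 2 * Er)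
    (hT2 : T2 ≤ C5 * a ^ 2 * Er) (hTh : -(4 * K2 * a ^ 2 * Er) - t ≤ Th) (ht : t ≤ 1)
    (hbig : K1 / c * 8 * (|C5| + 4 * |K2| + 4) ≤ a) :
    Real.exp (-(h' * D / 2)) * (Real.exp T1 + Real.exp T2) ≤ Real.exp (-a ^ 2) * Real.exp Th := by
  have ha0 : 0 < a := by linarith
  have hEr0 : 0 < Er := by linarith
  have hK10 : 0 < K1 := by linarith
  have h1 : c / (4 * K1) * a ^ 8 * Er ≤ h' * D / 2 := by
    rw [hh, hD]
    have h2 : 1 / K1 ≤ w / wr := by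
      rw [div_le_div_iff₀ hK10 hwr]
      linarith
    have h3 : c / 2 * (Er / wr) * (a ^ 8 * w) / 2 = c / 4 * Er * a ^ 8 * (w / wr) := by
      field_simp
      ring
    rw [h3]
    calc c / (4 * K1) * a ^ 8 * Er = c / 4 * Er * a ^ 8 * (1 / K1) := by
          field_simp
      _ ≤ _ := mul_le_mul_of_nonneg_left h2 (by positivity)
  have h4 : 2 * (|C5| + 4 * |K2| + 4) * a ^ 2 ≤ c / (4 * K1) * a ^ 8 := by
    have h5 : 2 * (|C5| + 4 * |K2| + 4) ≤ c / (4 * K1) * a := by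
      rw [div_mul_eq_mul_div, le_div_iff₀ (by positivity)]
      have h6 : K1 / c * 8 * (|C5| + 4 * |K2| + 4) = K1 * 8 * (|C5| + 4 * |K2| + 4) / c := by ring
      rw [h6, div_le_iff₀ hc] at hbig
      linarith
    have h7 : a * a ^ 2 ≤ a ^ 8 := by
      have : a * a ^ 2 = a ^ 3 := by ring
      rw [this]
      exact pow_le_pow_right₀ ha (by norm_num)
    calc 2 * (|C5| + 4 * |K2| + 4) * a ^ 2 ≤ c / (4 * K1) * a * a ^ 2 := mul_le_mul_of_nonneg_right h5 (by positivity)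
      _ = c / (4 * K1) * (a * a ^ 2) := by ring
      _ ≤ c / (4 * K1) * a ^ 8 := mul_le_mul_of_nonneg_left h7 (by positivity)
  obtain ⟨q, hq⟩ : ∃ q : ℝ, q = a ^ 2 * Er := ⟨_, rfl⟩
  have hq1 : a ^ 2 ≤ q := by
    rw [hq]
    exact le_mul_of_one_le_right (sq_nonneg a) hEr
  have hq2 : 1 ≤ q := (one_le_pow₀ ha).trans hq1
  have h8 : 2 * (|C5| + 4 * |K2| + 4) * q ≤ h' * D / 2 := by
    calc 2 * (|C5| + 4 * |K2| + 4) * q = 2 * (|C5| + 4 * |K2| + 4) * a ^ 2 * Er := by rw [hq]; ring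
      _ ≤ c / (4 * K1) * a ^ 8 * Er := mul_le_mul_of_nonneg_right h4 hEr0.le
      _ ≤ _ := h1
  have hC5 : C5 * q ≤ |C5| * q := mul_le_mul_of_nonneg_right (le_abs_self _) (by linarith)
  have hK2 : K2 * q ≤ |K2| * q := mul_le_mul_of_nonneg_right (le_abs_self _) (by linarith)
  have hC50 : 0 ≤ |C5| * q := by positivity
  have hK20 : 0 ≤ |K2| * q := by positivity
  have hT1' : T1 ≤ C5 * q := by rw [hq]; linarith
  have hT2' : T2 ≤ C5 * q := by rw [hq]; linarith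
  have hTh' : -(4 * (K2 * q)) - t ≤ Th := by
    have : 4 * (K2 * q) = 4 * K2 * a ^ 2 * Er := by rw [hq]; ring
    rw [this]
    exact hTh
  have h9 : Real.exp T1 + Real.exp T2 ≤ Real.exp (C5 * q + 1) := by
    have h10 := Real.exp_le_exp.2 hT1'
    have h11 := Real.exp_le_exp.2 hT2'
    have h12 : 2 * Real.exp (C5 * q) ≤ Real.exp (C5 * q + 1) := by
      rw [Real.exp_add]
      have h13 := Real.add_one_le_exp (1 : ℝ)
      have h14 := Real.exp_pos (C5 * q)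
      have h15 := mul_le_mul_of_nonneg_left h13 h14.le
      linarith only [h15]
    linarith
  calc Real.exp (-(h' * D / 2)) * (Real.exp T1 + Real.exp T2)
      ≤ Real.exp (-(h' * D / 2)) * Real.exp (C5 * q + 1) := mul_le_mul_of_nonneg_left h9 (Real.exp_pos _).le
    _ = Real.exp (-(h' * D / 2) + (C5 * q + 1)) := (Real.exp_add _ _).symm
    _ ≤ Real.exp (-a ^ 2 + Th) := Real.exp_le_exp.2 (by linarith only [h8, hTh', hC5, hK2, hq1, hq2, hC50, hK20, ht])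
    _ = _ := Real.exp_add _ _

end

end Pool.Agent.W_7d29a1_C1.Win84
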