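import Pool.Agent.W_7d29a1_C1.FutB67
import Pool.Agent.W_7d29a1_C1.WinB84

/-!
MP_7d29a1_pr, C1 (helper78): the smoothness event `FA67` of helper67 for ALL lengths `L ≤ K ^ p` of the future (short futures too: the seam of
a long window may be a little above the row at which the force is switched off).
-/

set_option autoImplicit false

namespace Pool.Agent.W_7d29a1_C1.Nbr78

open Finset MeasureTheory ProbabilityTheory Filter Topology
open Pool.Agent.W_7d29a1_F Pool.Agent.W_7d29a1_X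
open Pool.Agent.W_7d29a1_H (sl EE EE_pos one_le_EE)
open Pool.Agent.W_7d29a1_HS (In wd md)
open Pool.Agent.W_7d29a1_HZ (wd' EE' PBox)
open Pool.Agent.W_7d29a1_C1 (FE67 FA67 fut_real67 futB67)
open scoped ENNReal

noncomputable section

variable {μ : Measure ℝ} {s : ℝ} [IsProbabilityMeasure μ] {c C : ℝ} {n₀ : ℕ}

/-- The bound of one free energy from the box event. -/
theorem absV78 (h : In μ s c C n₀) {B n : ℕ} (hn : n ≤ B) (hB1 : 1 ≤ B) {δ ε : ℝ} (hδ : 0 ≤ δ) {η : Env} (hB : PBox μ s B δ ε η)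
    {x : ℤ} (hx : |x| ≤ 2 * (B : ℤ)) :
    |V μ s η (0, x) n| ≤ (B : ℝ) ^ ε * EE μ s n + Real.log (n + 1) := by
  have hBR : (1 : ℝ) ≤ B := by exact_mod_cast hB1
  have hE := one_le_EE (μ := μ) (s := s) n
  have hE' : EE' μ s n = EE μ s n := max_eq_right hE
  have e0 : ((0 : ℤ), x) = (((0 : ℕ) : ℤ), x) := rfl
  have hbox := hB 0 n (by omega) x hx
  rw [hE'] at hbox
  obtain ⟨R, hR⟩ : ∃ R : ℝ, R = (B : ℝ) ^ ε * EE μ s n := ⟨_, rfl⟩
  rw [← hR] at hbox ⊢
  have hR0 : 0 ≤ R := by rw [hR]; positivity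
  have hl : 0 ≤ Real.log ((n : ℝ) + 1) := Real.log_nonneg (by have : (0 : ℝ) ≤ n := Nat.cast_nonneg n; linarith)
  have hV := exp_V (μ := μ) (s := s) η (0, x) n
  unfold WS at hV
  have hn0 : (0 : ℝ) < (n : ℝ) + 1 := by positivity
  rw [abs_le]
  constructor
  · -- lower bound: the site `md n`
    have h1 := h.md_nonneg n
    have h2 := h.md_le_nat n
    have h3 : |((md μ s n : ℤ) : ℝ) - sl μ s * n| ≤ (B : ℝ) ^ δ * wd' μ s n := by
      refine (Pool.Agent.W_7d29a1_HS.md_abs n).trans ?_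
      have h4 : (1 : ℝ) ≤ (B : ℝ) ^ δ := Real.one_le_rpow hBR hδ
      have h5 : (1 : ℝ) ≤ wd' μ s n := le_max_left _ _
      nlinarith
    have h4 := (hbox (md μ s n) h1 h2).2.2 h3
    have h5 : Real.exp (-R) ≤ Real.exp (V μ s η (0, x) n) := by
      rw [hV]
      refine h4.trans ?_
      exact single_le_sum (f := fun y => W μ s η (0, x) n y) (fun y _ => W_nonneg η _ n y) (mem_Icc.2 ⟨h1, h2⟩)
    have h6 := Real.exp_le_exp.1 h5
    linarith
  · have h5 : Real.exp (V μ s η (0, x) n) ≤ ((n : ℝ) + 1) * Real.exp R := by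
      rw [hV]
      have h6 : ∀ y ∈ Icc (0 : ℤ) n, W μ s η (0, x) n y ≤ Real.exp R := by
        intro y hy
        rw [mem_Icc] at hy
        exact (hbox y hy.1 hy.2).1
      refine (sum_le_sum h6).trans ?_
      rw [sum_const, nsmul_eq_mul]
      refine mul_le_mul_of_nonneg_right ?_ (Real.exp_pos _).le
      rw [Int.card_Icc]
      have : ((n : ℤ) + 1 - 0).toNat = n + 1 := by omega
      rw [this]
      push_cast
      linarith
    have h6 := Real.log_le_log (Real.exp_pos _) h5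
    rw [Real.log_exp, Real.log_mul hn0.ne' (Real.exp_pos _).ne', Real.log_exp] at h6
    linarith

/-- The difference of two free energies from the box event. -/
theorem diffV78 (h : In μ s c C n₀) {B n : ℕ} (hn : n ≤ B) (hB1 : 1 ≤ B) {δ ε : ℝ} (hδ : 0 ≤ δ) {η : Env} (hB : PBox μ s B δ ε η)
    {x x' : ℤ} (hx : |x| ≤ 2 * (B : ℤ)) (hx' : |x'| ≤ 2 * (B : ℤ)) :
    |V μ s η (0, x) n - V μ s η (0, x') n| ≤ 2 * ((B : ℝ) ^ ε + (1 + C)) * EE μ s n := by
  have hE := one_le_EE (μ := μ) (s := s) n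
  have hC := h.C1
  rcases Nat.eq_zero_or_pos n with h0 | h0
  · subst h0
    rw [V_zero, V_zero, sub_self, abs_zero]
    have : (0 : ℝ) ≤ (B : ℝ) ^ ε := Real.rpow_nonneg (Nat.cast_nonneg _) _
    nlinarith
  · have h1 := absV78 h hn hB1 hδ hB hx
    have h2 := absV78 h hn hB1 hδ hB hx'
    have hnR : (1 : ℝ) ≤ n := by exact_mod_cast h0
    have h3 : Real.log ((n : ℝ) + 1) ≤ (1 + C) * EE μ s n := by
      have h4 : (n : ℝ) + 1 ≤ 2 * n := by linarith
      have h5 := Real.log_le_log (by linarith) h4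
      rw [Real.log_mul two_ne_zero (by linarith)] at h5
      have h6 := h.lg n h0
      have h7 : Real.log 2 ≤ 1 := by
        have := Real.log_two_lt_d9
        linarith
      linarith
    have h8 := abs_sub (V μ s η (0, x) n) (V μ s η (0, x') n)
    linarith

/-- **The deterministic step for short futures**. -/
theorem fa_short (h : In μ s c C n₀)
    (hU : ∀ ε : ℝ, 0 < ε → ∃ n₁ : ℕ, ∀ n : ℕ, n₁ ≤ n → EE μ s n ^ 2 ≤ (n : ℝ) ^ ε * wd μ s n) {e : ℝ} (he : 0 < e) :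
    ∃ K₀ : ℕ, ∀ K L : ℕ, K₀ ≤ K → (L : ℝ) ≤ (K : ℝ) ^ (5 / 2 : ℝ) → ∀ δ : ℝ, 0 ≤ δ → ∀ η : Env, PBox μ s (K ^ 3) δ (e / 24) η →
      (∀ T : ℕ, K ≤ T → T ≤ K ^ 3 → T ≤ L → FE67 μ s (e / 12) T L η) → FA67 μ s e K L η := by
  obtain ⟨n₂, hU2⟩ := hU (e / 12) (by positivity)
  have ev1 : ∀ᶠ K : ℕ in atTop, (4 : ℝ) ≤ (K : ℝ) ^ (e / 2) :=
    ((tendsto_rpow_atTop (by positivity : 0 < e / 2)).comp tendsto_natCast_atTop_atTop).eventually_ge_atTop _
  have ev2 : ∀ᶠ K : ℕ in atTop, 2 * (2 + C) ≤ (K : ℝ) ^ (e / 8) :=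
    ((tendsto_rpow_atTop (by positivity : 0 < e / 8)).comp tendsto_natCast_atTop_atTop).eventually_ge_atTop _
  obtain ⟨n₃, hn₃⟩ := eventually_atTop.1 (ev1.and ev2)
  refine ⟨max n₂ (max n₃ 1), fun K L hK hKL δ hδ η hP hG x x' hx hx' => ?_⟩
  have k2 : n₂ ≤ K := (le_max_left _ _).trans hK
  obtain ⟨q1, q2⟩ := hn₃ K ((le_max_left _ _).trans ((le_max_right _ _).trans hK))
  have hK1 : 1 ≤ K := (le_max_right _ _).trans ((le_max_right _ _).trans hK)
  have hKR : (1 : ℝ) ≤ K := by exact_mod_cast hK1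
  have hK0 : (0 : ℝ) < K := by linarith
  obtain ⟨D, hD⟩ : ∃ D : ℝ, D = |((x : ℝ) - x')| := ⟨_, rfl⟩
  have hD0 : 0 ≤ D := by rw [hD]; exact abs_nonneg _
  have hEK := EE_pos (μ := μ) (s := s) K
  have hEL := EE_pos (μ := μ) (s := s) L
  have hK3 : K ≤ K ^ 3 := Nat.le_self_pow (by norm_num) K
  have hL3 : L ≤ K ^ 3 := by
    have h7 : (L : ℝ) ≤ ((K ^ 3 : ℕ) : ℝ) := by
      push_cast
      refine hKL.trans ?_
      rw [← Real.rpow_natCast]
      exact Real.rpow_le_rpow_of_exponent_le hKR (by norm_num)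
    exact_mod_cast h7
  have hbx : ∀ z : ℤ, |z| ≤ (K : ℤ) → |z| ≤ 2 * ((K ^ 3 : ℕ) : ℤ) := by
    intro z hz
    have : (K : ℤ) ≤ ((K ^ 3 : ℕ) : ℤ) := by exact_mod_cast hK3
    have h0 : (0 : ℤ) ≤ ((K ^ 3 : ℕ) : ℤ) := by positivity
    linarith
  -- the crude bound
  have hcr : |V μ s η (0, x) L - V μ s η (0, x') L| ≤ (K : ℝ) ^ (e / 4) * EE μ s L := by
    have h1 := diffV78 h hL3 (hK1.trans hK3) hδ hP (hbx x hx) (hbx x' hx')
    refine h1.trans (mul_le_mul_of_nonneg_right ?_ hEL.le)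
    have e1 : (((K ^ 3 : ℕ) : ℝ)) ^ (e / 24) = (K : ℝ) ^ (e / 8) := by
      push_cast
      rw [← Real.rpow_natCast (K : ℝ) 3, ← Real.rpow_mul hK0.le]
      congr 1
      push_cast
      ring
    rw [e1]
    have e2 : (K : ℝ) ^ (e / 4) = (K : ℝ) ^ (e / 8) * (K : ℝ) ^ (e / 8) := by
      rw [← Real.rpow_add hK0]
      congr 1
      ring
    have e3 : (1 : ℝ) ≤ (K : ℝ) ^ (e / 8) := Real.one_le_rpow hKR (by positivity)
    have hC := h.C1
    rw [e2]
    nlinarith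
  have h4e : (K : ℝ) ^ (e / 4) ≤ (K : ℝ) ^ e := Real.rpow_le_rpow_of_exponent_le hKR (by linarith)
  have hsq := Real.sqrt_nonneg D
  rw [← hD]
  rcases le_or_gt L K with hLK | hLK
  · -- short
    refine hcr.trans (mul_le_mul h4e ?_ hEL.le (by positivity))
    have := Pool.Agent.W_7d29a1_H.EE_mono (μ := μ) (s := s) hLK
    linarith
  · rcases le_or_gt D (wd μ s K) with hc | hc
    · have h3 := hG K le_rfl hK3 hLK.le x x' hx hx' (by rw [← hD]; exact hc)
      refine h3.trans ?_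
      refine mul_le_mul (Real.rpow_le_rpow_of_exponent_le hKR (by linarith)) ?_ hEK.le (by positivity)
      linarith
    · -- the first scale
      have hex : ∃ T : ℕ, K ≤ T ∧ D ≤ wd μ s T := by
        obtain ⟨T, hT1, hT2⟩ := ((Pool.Agent.W_7d29a1_HS.wd_tendsto h).eventually_ge_atTop D |>.and (eventually_ge_atTop K)).exists
        exact ⟨T, hT2, hT1⟩
      classical
      obtain ⟨T, hTf⟩ : ∃ T : ℕ, T = Nat.find hex := ⟨_, rfl⟩
      have hTs := Nat.find_spec hex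
      rw [← hTf] at hTs
      obtain ⟨hKT, hDT⟩ := hTs
      have hmin : ∀ m : ℕ, K ≤ m → m < T → wd μ s m < D := by
        intro m hm1 hm2
        by_contra hcon
        rw [not_lt] at hcon
        have h3 := Nat.find_min' hex ⟨hm1, hcon⟩
        omega
      -- the unit
      have hunit : ∀ m : ℕ, K ≤ m → (m : ℝ) ≤ (K : ℝ) ^ (3 : ℝ) → wd μ s m < D → EE μ s m ≤ (K : ℝ) ^ (e / 8) * Real.sqrt D := by
        intro m hm1 hm3 hwm
        have hm0 : (0 : ℝ) ≤ m := Nat.cast_nonneg m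
        have hEm := EE_pos (μ := μ) (s := s) m
        have h10 := hU2 m (k2.trans hm1)
        have h12 : (m : ℝ) ^ (e / 12) ≤ (K : ℝ) ^ (e / 4) := by
          have h15 := Real.rpow_le_rpow hm0 hm3 (show 0 ≤ e / 12 by positivity)
          rw [← Real.rpow_mul hK0.le, show 3 * (e / 12) = e / 4 by ring] at h15
          exact h15
        have h13 : EE μ s m ^ 2 ≤ ((K : ℝ) ^ (e / 8) * Real.sqrt D) ^ 2 := by
          have e1 : ((K : ℝ) ^ (e / 8) * Real.sqrt D) ^ 2 = (K : ℝ) ^ (e / 4) * D := by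
            rw [mul_pow, Real.sq_sqrt hD0, ← Real.rpow_natCast, ← Real.rpow_mul hK0.le]
            congr 2
            push_cast
            ring
          rw [e1]
          refine h10.trans (mul_le_mul h12 hwm.le (h.wd_nonneg m) (by positivity))
        exact (pow_le_pow_iff_left₀ hEm.le (by positivity) (by norm_num)).1 h13
      have h53 : (K : ℝ) ^ (5 / 2 : ℝ) ≤ (K : ℝ) ^ (3 : ℝ) := Real.rpow_le_rpow_of_exponent_le hKR (by norm_num)
      rcases le_or_gt T L with hTL | hTL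
      · have hne : K ≠ T := by
          rintro rfl
          linarith
        obtain ⟨m, rfl⟩ : ∃ m : ℕ, T = m + 1 := ⟨T - 1, by omega⟩
        have hKm : K ≤ m := by omega
        have hwm : wd μ s m < D := hmin m hKm (by omega)
        have hm1 : 1 ≤ m := hK1.trans hKm
        have hmR : (1 : ℝ) ≤ m := by exact_mod_cast hm1
        have hm0 : (0 : ℝ) < m := by linarith
        have h6 : ((m + 1 : ℕ) : ℝ) ≤ (K : ℝ) ^ (5 / 2 : ℝ) := by
          have : ((m + 1 : ℕ) : ℝ) ≤ L := by exact_mod_cast hTL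
          linarith
        have h8 := hG (m + 1) hKT (hTL.trans hL3) hTL x x' (hx.trans (by exact_mod_cast hKT)) (hx'.trans (by exact_mod_cast hKT))
          (by rw [← hD]; exact hDT)
        refine h8.trans ?_
        have hEm := EE_pos (μ := μ) (s := s) m
        have h9 : EE μ s (m + 1) ≤ 4 * EE μ s m := by
          have h10 := Pool.Agent.W_7d29a1_HS.scale_b h hm1 (Nat.le_succ m)
          have e1 : (((m.succ : ℕ)) : ℝ) = m + 1 := by push_cast; ring
          rw [e1] at h10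
          have h11 : (m : ℝ) * EE μ s (m + 1) ≤ m * (4 * EE μ s m) := by
            refine h10.trans ?_
            nlinarith
          exact le_of_mul_le_mul_left h11 hm0
        have h11 := hunit m hKm (by
          have : (m : ℝ) ≤ ((m + 1 : ℕ) : ℝ) := by push_cast; linarith
          linarith) hwm
        have h12 : ((m + 1 : ℕ) : ℝ) ^ (e / 12) ≤ (K : ℝ) ^ (e / 4) := by
          have h15 := Real.rpow_le_rpow (Nat.cast_nonneg _) (h6.trans h53) (show 0 ≤ e / 12 by positivity)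
          rw [← Real.rpow_mul hK0.le, show 3 * (e / 12) = e / 4 by ring] at h15
          exact h15
        have h16 : (K : ℝ) ^ (e / 4) * (4 * ((K : ℝ) ^ (e / 8) * Real.sqrt D)) ≤ (K : ℝ) ^ e * Real.sqrt D := by
          have e1 : (K : ℝ) ^ e = (K : ℝ) ^ (e / 4) * (K : ℝ) ^ (e / 8) * (K : ℝ) ^ (e / 8) * (K : ℝ) ^ (e / 2) := by
            rw [← Real.rpow_add hK0, ← Real.rpow_add hK0, ← Real.rpow_add hK0]
            congr 1
            ring
          have h17 : (1 : ℝ) ≤ (K : ℝ) ^ (e / 8) := Real.one_le_rpow hKR (by positivity)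
          have h18 : 0 ≤ (K : ℝ) ^ (e / 4) * (K : ℝ) ^ (e / 8) * Real.sqrt D := by positivity
          have h19 : (4 : ℝ) ≤ (K : ℝ) ^ (e / 8) * (K : ℝ) ^ (e / 2) := by nlinarith
          calc (K : ℝ) ^ (e / 4) * (4 * ((K : ℝ) ^ (e / 8) * Real.sqrt D))
              = (K : ℝ) ^ (e / 4) * (K : ℝ) ^ (e / 8) * Real.sqrt D * 4 := by ring
            _ ≤ (K : ℝ) ^ (e / 4) * (K : ℝ) ^ (e / 8) * Real.sqrt D * ((K : ℝ) ^ (e / 8) * (K : ℝ) ^ (e / 2)) :=
                mul_le_mul_of_nonneg_left h19 h18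
            _ = _ := by rw [e1]; ring
        have hE1 := EE_pos (μ := μ) (s := s) (m + 1)
        calc ((m + 1 : ℕ) : ℝ) ^ (e / 12) * EE μ s (m + 1) ≤ (K : ℝ) ^ (e / 4) * (4 * ((K : ℝ) ^ (e / 8) * Real.sqrt D)) :=
              mul_le_mul h12 (h9.trans (mul_le_mul_of_nonneg_left h11 (by norm_num))) hE1.le (by positivity)
          _ ≤ (K : ℝ) ^ e * Real.sqrt D := h16
          _ ≤ _ := mul_le_mul_of_nonneg_left (by linarith) (by positivity)
      · have hwL := hmin L hLK.le hTL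
        have h11 := hunit L hLK.le (hKL.trans h53) hwL
        refine hcr.trans ?_
        calc (K : ℝ) ^ (e / 4) * EE μ s L ≤ (K : ℝ) ^ (e / 4) * ((K : ℝ) ^ (e / 8) * Real.sqrt D) :=
              mul_le_mul_of_nonneg_left h11 (by positivity)
          _ = (K : ℝ) ^ (e / 4 + e / 8) * Real.sqrt D := by rw [Real.rpow_add hK0]; ring
          _ ≤ (K : ℝ) ^ e * Real.sqrt D :=
              mul_le_mul_of_nonneg_right (Real.rpow_le_rpow_of_exponent_le hKR (by linarith)) hsq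
          _ ≤ _ := mul_le_mul_of_nonneg_left (by linarith) (by positivity)

/-- **Smoothness of the future at all scales at once**, all lengths `L ≤ K ^ p`. -/
theorem futC78 (h : In μ s c C n₀)
    (hU : ∀ ε : ℝ, 0 < ε → ∃ n₁ : ℕ, ∀ n : ℕ, n₁ ≤ n → EE μ s n ^ 2 ≤ (n : ℝ) ^ ε * wd μ s n) :
    ∀ e : ℝ, 0 < e → ∀ p : ℝ, ∃ c' : ℝ, 0 < c' ∧ ∃ K₀ : ℕ, ∀ K : ℕ, K₀ ≤ K → ∀ L : ℕ, (L : ℝ) ≤ (K : ℝ) ^ p →
      (law μ).real {η | ¬ FA67 μ s e K L η} ≤ Real.exp (-(K : ℝ) ^ c') := by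
  intro e he p
  obtain ⟨c₂, hc₂, K₂, hB⟩ := futB67 h hU e he p
  obtain ⟨c₁, hc₁, T₁, hF⟩ := fut_real67 h (e / 12) (by positivity) (max p 0)
  obtain ⟨δ, c₃, hδ, hc₃, L₃, hbox⟩ := Pool.Agent.W_7d29a1_HZ.pbox h (e / 24) (by positivity)
  obtain ⟨K₁, hdet⟩ := fa_short h hU he
  obtain ⟨g, hg⟩ : ∃ g : ℝ, g = min c₁ c₃ := ⟨_, rfl⟩
  have hg0 : 0 < g := by rw [hg]; positivity
  have ev1 := Pool.Agent.W_7d29a1_HZ.Z22.absorb 3 3 (b := 1) (g := g) one_pos hg0
  obtain ⟨N₁, hN₁⟩ := eventually_atTop.1 ev1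
  refine ⟨min c₂ (g / 2), by positivity, max (max (max T₁ K₁) (max N₁ 1)) (max K₂ L₃), fun K hK L hLp => ?_⟩
  have k1 : T₁ ≤ K := (le_max_left _ _).trans ((le_max_left _ _).trans ((le_max_left _ _).trans hK))
  have k2 : K₁ ≤ K := (le_max_right _ _).trans ((le_max_left _ _).trans ((le_max_left _ _).trans hK))
  have k3 : N₁ ≤ K := (le_max_left _ _).trans ((le_max_right _ _).trans ((le_max_left _ _).trans hK))
  have hK1 : 1 ≤ K := (le_max_right _ _).trans ((le_max_right _ _).trans ((le_max_left _ _).trans hK))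
  have k4 : K₂ ≤ K := (le_max_left _ _).trans ((le_max_right _ _).trans hK)
  have k5 : L₃ ≤ K := (le_max_right _ _).trans ((le_max_right _ _).trans hK)
  have hKR : (1 : ℝ) ≤ K := by exact_mod_cast hK1
  have hK0 : (0 : ℝ) < K := by linarith
  rcases le_or_gt ((K : ℝ) ^ (5 / 2 : ℝ)) (L : ℝ) with hKL | hKL
  · refine (hB K k4 L hKL hLp).trans (Real.exp_le_exp.2 (neg_le_neg ?_))
    exact Real.rpow_le_rpow_of_exponent_le hKR (min_le_left _ _)
  · obtain ⟨A, hA⟩ : ∃ A : Finset ℕ, A = (Icc K (K ^ 3)).filter fun T => T ≤ L := ⟨_, rfl⟩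
    have hK3 : K ≤ K ^ 3 := Nat.le_self_pow (by norm_num) K
    have hsub : {η : Env | ¬ FA67 μ s e K L η} ⊆ {η | ¬ PBox μ s (K ^ 3) δ (e / 24) η} ∪ ⋃ T ∈ A, {η | ¬ FE67 μ s (e / 12) T L η} := by
      intro η hη
      by_contra hcon
      rw [Set.mem_union, not_or] at hcon
      refine hη (hdet K L k2 hKL.le δ hδ.le η (not_not.1 hcon.1) fun T hT1 hT2 hT3 => ?_)
      by_contra h1
      refine hcon.2 (Set.mem_iUnion₂.2 ⟨T, ?_, h1⟩)
      rw [hA, mem_filter, mem_Icc]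
      exact ⟨⟨hT1, hT2⟩, hT3⟩
    have hq1 : (K : ℝ) ^ g ≤ (K : ℝ) ^ c₁ := Real.rpow_le_rpow_of_exponent_le hKR (by rw [hg]; exact min_le_left _ _)
    have h0 : (law μ).real {η | ¬ PBox μ s (K ^ 3) δ (e / 24) η} ≤ Real.exp (-(K : ℝ) ^ g) := by
      have h1 : (law μ).real {η | ¬ PBox μ s (K ^ 3) δ (e / 24) η} ≤ Real.exp (-((K ^ 3 : ℕ) : ℝ) ^ c₃) :=
        ENNReal.toReal_le_of_le_ofReal (Real.exp_pos _).le (hbox (K ^ 3) (k5.trans hK3))
      refine h1.trans (Real.exp_le_exp.2 (neg_le_neg ?_))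
      have h2 : (K : ℝ) ≤ ((K ^ 3 : ℕ) : ℝ) := by exact_mod_cast hK3
      exact (Real.rpow_le_rpow_of_exponent_le hKR (by rw [hg]; exact min_le_right _ _)).trans (Real.rpow_le_rpow hK0.le h2 hc₃.le)
    have h1 : ∀ T ∈ A, (law μ).real {η | ¬ FE67 μ s (e / 12) T L η} ≤ Real.exp (-(K : ℝ) ^ g) := by
      intro T hT
      rw [hA, mem_filter, mem_Icc] at hT
      obtain ⟨⟨hT1, -⟩, hT3⟩ := hT
      have hTK : (K : ℝ) ≤ T := by exact_mod_cast hT1
      have hTR : (1 : ℝ) ≤ T := hKR.trans hTK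
      have h2 := hF T (k1.trans hT1) L hT3 (hLp.trans ((Real.rpow_le_rpow_of_exponent_le hKR (le_max_left _ _)).trans
        (Real.rpow_le_rpow hK0.le hTK (le_max_right _ _))))
      refine h2.trans (Real.exp_le_exp.2 (neg_le_neg (hq1.trans (Real.rpow_le_rpow hK0.le hTK hc₁.le))))
    refine (measureReal_mono hsub (measure_ne_top _ _)).trans ((measureReal_union_le _ _).trans ?_)
    refine (add_le_add h0 ((measureReal_biUnion_finset_le _ _).trans (sum_le_sum h1))).trans ?_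
    rw [sum_const, nsmul_eq_mul]
    have h2 : (A.card : ℝ) ≤ 2 * (K : ℝ) ^ (3 : ℝ) := by
      have h3 : A.card ≤ K ^ 3 + 1 := by
        rw [hA]
        refine (card_filter_le _ _).trans ?_
        rw [Nat.card_Icc]
        omega
      have h4 : (A.card : ℝ) ≤ (K : ℝ) ^ (3 : ℕ) + 1 := by exact_mod_cast h3
      have h5 : (K : ℝ) ^ (3 : ℝ) = (K : ℝ) ^ (3 : ℕ) := by
        rw [← Real.rpow_natCast]
        norm_num
      have h6 : (1 : ℝ) ≤ (K : ℝ) ^ (3 : ℕ) := one_le_pow₀ hKR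
      rw [h5]
      linarith
    have h3 := hN₁ K k3
    rw [one_mul] at h3
    have h4 : Real.exp (-(K : ℝ) ^ (g / 2)) ≤ Real.exp (-(K : ℝ) ^ (min c₂ (g / 2))) :=
      Real.exp_le_exp.2 (neg_le_neg (Real.rpow_le_rpow_of_exponent_le hKR (min_le_right _ _)))
    refine le_trans ?_ (h3.trans h4)
    have h5 : Real.exp (-(K : ℝ) ^ g) ≤ (K : ℝ) ^ (3 : ℝ) * Real.exp (-(K : ℝ) ^ g) :=
      le_mul_of_one_le_left (Real.exp_pos _).le (Real.one_le_rpow hKR (by norm_num))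
    have h6 := mul_le_mul_of_nonneg_right h2 (Real.exp_pos (-(K : ℝ) ^ g)).le
    linarith

end

end Pool.Agent.W_7d29a1_C1.Nbr78
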