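import Pool.Agent.W_7d29a1_C1.FutC78

/-!
MP_7d29a1_pr, C1 (helper78): `FUT67` of helper67 without the lower bound of the length of the future (`L < T` too).
-/

set_option autoImplicit false

namespace Pool.Agent.W_7d29a1_C1.Nbr78

open Finset MeasureTheory ProbabilityTheory Filter Topology
open Pool.Agent.W_7d29a1_F Pool.Agent.W_7d29a1_X
open Pool.Agent.W_7d29a1_H (sl EE EE_pos one_le_EE)
open Pool.Agent.W_7d29a1_HS (In wd md)
open Pool.Agent.W_7d29a1_HZ (wd' EE' PBox)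
open Pool.Agent.W_7d29a1_C1 (FE67 FA67 fut_real67)
open scoped ENNReal

noncomputable section

variable {μ : Measure ℝ} {s : ℝ} [IsProbabilityMeasure μ] {c C : ℝ} {n₀ : ℕ}

/-- **Smoothness of the future at the scale `T`**, all lengths `L ≤ T ^ p` (also `L < T`). -/
theorem futE78 (h : In μ s c C n₀) : ∀ e : ℝ, 0 < e → ∀ p : ℝ, ∃ c' : ℝ, 0 < c' ∧ ∃ T₀ : ℕ, ∀ T : ℕ, T₀ ≤ T → ∀ L : ℕ,
    (L : ℝ) ≤ (T : ℝ) ^ p → (law μ).real {η | ¬ FE67 μ s e T L η} ≤ Real.exp (-(T : ℝ) ^ c') := by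
  intro e he p
  obtain ⟨c₁, hc₁, T₁, hF⟩ := fut_real67 h e he p
  obtain ⟨δ, c₃, hδ, hc₃, L₃, hbox⟩ := Pool.Agent.W_7d29a1_HZ.pbox h (e / 2) (by positivity)
  have ev2 : ∀ᶠ K : ℕ in atTop, 2 * (2 + C) ≤ (K : ℝ) ^ (e / 2) :=
    ((tendsto_rpow_atTop (by positivity : 0 < e / 2)).comp tendsto_natCast_atTop_atTop).eventually_ge_atTop _
  obtain ⟨n₃, hn₃⟩ := eventually_atTop.1 ev2
  refine ⟨min c₁ c₃, by positivity, max (max T₁ L₃) (max n₃ 1), fun T hT L hLp => ?_⟩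
  have k1 : T₁ ≤ T := (le_max_left _ _).trans ((le_max_left _ _).trans hT)
  have k2 : L₃ ≤ T := (le_max_right _ _).trans ((le_max_left _ _).trans hT)
  have q2 := hn₃ T ((le_max_left _ _).trans ((le_max_right _ _).trans hT))
  have hK1 : 1 ≤ T := (le_max_right _ _).trans ((le_max_right _ _).trans hT)
  have hKR : (1 : ℝ) ≤ T := by exact_mod_cast hK1
  have hK0 : (0 : ℝ) < T := by linarith
  rcases le_or_gt T L with hTL | hTL
  · refine (hF T k1 L hTL hLp).trans (Real.exp_le_exp.2 (neg_le_neg ?_))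
    exact Real.rpow_le_rpow_of_exponent_le hKR (min_le_left _ _)
  · have h0 : (law μ).real {η | ¬ PBox μ s T δ (e / 2) η} ≤ Real.exp (-(T : ℝ) ^ (min c₁ c₃)) := by
      have h1 : (law μ).real {η | ¬ PBox μ s T δ (e / 2) η} ≤ Real.exp (-(T : ℝ) ^ c₃) :=
        ENNReal.toReal_le_of_le_ofReal (Real.exp_pos _).le (hbox T k2)
      refine h1.trans (Real.exp_le_exp.2 (neg_le_neg ?_))
      exact Real.rpow_le_rpow_of_exponent_le hKR (min_le_right _ _)
    refine (measureReal_mono ?_ (measure_ne_top _ _)).trans h0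
    intro η hη hP
    refine hη fun x x' hx hx' _ => ?_
    have h1 := diffV78 h hTL.le hK1 hδ.le hP (show |x| ≤ 2 * (T : ℤ) by omega) (show |x'| ≤ 2 * (T : ℤ) by omega)
    have hE := Pool.Agent.W_7d29a1_H.EE_mono (μ := μ) (s := s) hTL.le
    have hEL := EE_pos (μ := μ) (s := s) L
    have hC := h.C1
    have e2 : (T : ℝ) ^ e = (T : ℝ) ^ (e / 2) * (T : ℝ) ^ (e / 2) := by
      rw [← Real.rpow_add hK0]
      congr 1
      ring
    have e3 : (1 : ℝ) ≤ (T : ℝ) ^ (e / 2) := Real.one_le_rpow hKR (by positivity)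
    have h2 : 2 * ((T : ℝ) ^ (e / 2) + (1 + C)) ≤ (T : ℝ) ^ e := by
      rw [e2]
      nlinarith
    exact h1.trans (mul_le_mul h2 hE hEL.le (by positivity))

end

end Pool.Agent.W_7d29a1_C1.Nbr78
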