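import Pool.Agent.W_7d29a1_C1.Excl53E
import Pool.Agent.W_7d29a1_C1.StayG78
import Pool.Agent.W_7d29a1_C1.GeoP37
import Pool.Agent.W_7d29a1_C1.Rat22
import Pool.Agent.W_7d29a1_C1.Osc22

/-!
Both halves (MP_7d29a1_pr), attractor route [C1], SEP (move the contact): FORWARD STEEPNESS, THE EVENT `Fw`. (helper53)

`VK`: the mass of the routes which stay in `I` until they visit `S`. `Fw a b γ v κ`: from every site with `|lat - ctr| ≥ a w_v`,
rows `[lo, ra)`, the routes which are in `|lat - ctr| < a w_v` from the next row on until they visit the strip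
`|lat - ctr| ≤ b w_v` in a row `≤ ra v κ` are a part `exp (-γ)`. Hence (`Fw_VS`) from every far site one visits the strip with
probability at most (number of rows) `exp (-γ)`.
* `meas_Fw`, `Fw_mono`; `Fw_R` (a window inside of the strip is changed), `Fw_off` (a window off `|lat - ctr| < a w_v + 1`),
  `Fw_up` (a window above is changed): `γ → γ - 2 d`;
* `FwA`, `FwT`: thresholds as in StayG78; `FwA_stepT`, `FwA_stepS`;
* `fr_Fz`: the sites of the far events are far sites; `Fw_QA`: the input `hF` of `exclF53E`; `QA_le_lv`, `St_QA`: the input `hE`;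
(The inner windows of `Excl53E` from the geometry: InwG53.)
-/

set_option autoImplicit false

namespace Pool.Agent.W_7d29a1_C1.SD53

open Finset MeasureTheory
open Pool.Agent.W_7d29a1_F Pool.Agent.W_7d29a1_h4g Pool.Agent.W_7d29a1_H Pool.Agent.W_7d29a1_HS
open Pool.Agent.W_7d29a1_C1.K91 (wt wt_pos measurable_wt)
open Pool.Agent.W_7d29a1_C1.K91P
open Pool.Agent.W_7d29a1_C1.H60
open Pool.Agent.W_7d29a1_C1.G37 (Gm)
open Pool.Agent.W_7d29a1_C1.Sy78 (sp Rg sr St lv lv_in lv_out lv_stop lv_nonneg lat_win lat_succ pc78 pc78_mono pc78_range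
  pc78_insert pc78_geo)

open Pool.Agent.W_7d29a1_C1.Rt22 (Ro)

noncomputable section

/-! ### Killed visits -/

open Classical in
/-- The routes which stay in `I` until they visit `S`, `j` rows. -/
def vk (Γ : Cx) (ω : Env) (S I : Set (ℕ × ℤ)) : ℕ → ℕ → ℤ → ℝ
  | k, 0, x => if (k, x) ∈ S then bW Γ ω k x else 0
  | k, j + 1, x => if (k, x) ∈ S then bW Γ ω k x else
      if (k, x) ∈ I then wt ω k x * (vk Γ ω S I (k + 1) j x + Γ.p k * vk Γ ω S I (k + 1) j (x + 1)) else 0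

/-- **The mass of the routes which stay in `I` until they visit `S` (row `≤ e`).** -/
def VK (Γ : Cx) (ω : Env) (e : ℕ) (S I : Set (ℕ × ℤ)) (k : ℕ) (q : ℤ) : ℝ := vk Γ ω S I k (e - k) q

section vk

variable {Γ : Cx} {ω ω' : Env} {S I : Set (ℕ × ℤ)} {e : ℕ}

theorem vk_mem {k : ℕ} {x : ℤ} (h : (k, x) ∈ S) : ∀ j, vk Γ ω S I k j x = bW Γ ω k x
  | 0 => by unfold vk; rw [if_pos h]
  | j + 1 => by unfold vk; rw [if_pos h]

theorem VK_mem {k : ℕ} {x : ℤ} (h : (k, x) ∈ S) : VK Γ ω e S I k x = bW Γ ω k x := vk_mem h _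

theorem VK_stop {k : ℕ} (hk : e ≤ k) {x : ℤ} (h : (k, x) ∉ S) : VK Γ ω e S I k x = 0 := by
  unfold VK
  rw [Nat.sub_eq_zero_of_le hk]
  unfold vk
  rw [if_neg h]

theorem VK_out {k : ℕ} {x : ℤ} (h : (k, x) ∉ S) (h' : (k, x) ∉ I) : VK Γ ω e S I k x = 0 := by
  unfold VK
  cases e - k with
  | zero => unfold vk; rw [if_neg h]
  | succ j => unfold vk; rw [if_neg h, if_neg h']

theorem VK_in {k : ℕ} (hk : k < e) {x : ℤ} (h : (k, x) ∉ S) (h' : (k, x) ∈ I) :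
    VK Γ ω e S I k x = wt ω k x * (VK Γ ω e S I (k + 1) x + Γ.p k * VK Γ ω e S I (k + 1) (x + 1)) := by
  unfold VK
  have e1 : e - k = e - (k + 1) + 1 := by omega
  rw [e1]
  conv_lhs => unfold vk
  rw [if_neg h, if_pos h']

/-- **Visits by the last exit from the complement of `I`.** -/
theorem VS_le_VK (he : e ≤ Γ.N) {k₀ : ℕ} {ε : ℝ} (hε : 0 ≤ ε)
    (h : ∀ k y, k₀ ≤ k → k < e → (k, y) ∉ S → (k, y) ∉ I →
      wt ω k y * (VK Γ ω e S I (k + 1) y + Γ.p k * VK Γ ω e S I (k + 1) (y + 1)) ≤ ε * bW Γ ω k y) :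
    ∀ k, k ≤ e → k₀ ≤ k → ∀ q, VS Γ ω e S k q ≤ VK Γ ω e S I k q + ((e - k : ℕ) : ℝ) * ε * bW Γ ω k q := by
  refine down (fun _ q => ?_) fun k hk ih hk₀ q => ?_
  · rw [Nat.sub_self, Nat.cast_zero, zero_mul, zero_mul, add_zero]
    by_cases h1 : (e, q) ∈ S
    · rw [VS_mem h1, VK_mem h1]
    · rw [VS_top h1, VK_stop le_rfl h1]
  · have b0 := (bW_pos Γ ω k q).le
    have n0 : (0 : ℝ) ≤ ((e - k : ℕ) : ℝ) := Nat.cast_nonneg _
    by_cases h1 : (k, q) ∈ S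
    · rw [VS_mem h1, VK_mem h1]
      have := mul_nonneg (mul_nonneg n0 hε) b0
      linarith
    · have a1 := ih (by omega) q
      have a2 := mul_le_mul_of_nonneg_left (ih (by omega) (q + 1)) (Γ.p_pos k).le
      have a3 := mul_le_mul_of_nonneg_left (add_le_add a1 a2) (wt_pos ω k q).le
      have e1 : ((e - k : ℕ) : ℝ) = ((e - (k + 1) : ℕ) : ℝ) + 1 := by
        rw [show e - k = e - (k + 1) + 1 by omega]
        push_cast
        ring
      have e2 := bW_step (Γ := Γ) (ω := ω) (show k < Γ.N by omega) q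
      rw [VS_step hk h1]
      refine a3.trans ?_
      have a4 : wt ω k q * (VK Γ ω e S I (k + 1) q + ((e - (k + 1) : ℕ) : ℝ) * ε * bW Γ ω (k + 1) q +
          Γ.p k * (VK Γ ω e S I (k + 1) (q + 1) + ((e - (k + 1) : ℕ) : ℝ) * ε * bW Γ ω (k + 1) (q + 1))) =
          wt ω k q * (VK Γ ω e S I (k + 1) q + Γ.p k * VK Γ ω e S I (k + 1) (q + 1)) +
            ((e - (k + 1) : ℕ) : ℝ) * ε * bW Γ ω k q := by
        rw [e2]; ring
      rw [a4, e1]
      by_cases h2 : (k, q) ∈ I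
      · rw [VK_in hk h1 h2]
        have := mul_nonneg hε b0
        nlinarith
      · rw [VK_out h1 h2]
        have := h k q hk₀ hk h1 h2
        nlinarith

/-- **Two environments**, equal off `B`; no site of `B` is read. `B`: sites off `S`, `I`, or sites with the predecessors in `S`. -/
theorem VK_cmp {k₀ : ℕ} {B : Set (ℕ × ℤ)} {C : ℝ}
    (heq : ∀ k y, k₀ ≤ k → k < e → (k, y) ∉ B → wt ω' k y = wt ω k y)
    (hB : ∀ k y, k₀ ≤ k → k ≤ e → (k, y) ∈ B → ((k, y) ∉ S ∧ (k, y) ∉ I) ∨ ∀ k', k = k' + 1 → (k', y) ∈ S ∧ (k', y - 1) ∈ S)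
    (hC : ∀ k y, k₀ ≤ k → k ≤ e → (k, y) ∈ S → (k, y) ∉ B → bW Γ ω' k y ≤ C * bW Γ ω k y) :
    ∀ k, k ≤ e → k₀ ≤ k → ∀ q, ((k, q) ∈ B → (k, q) ∉ S ∧ (k, q) ∉ I) → VK Γ ω' e S I k q ≤ C * VK Γ ω e S I k q := by
  refine down (fun hk₀ q hq => ?_) fun k hk ih hk₀ q hq => ?_
  · by_cases h : (e, q) ∈ S
    · rw [VK_mem h, VK_mem h]; exact hC e q hk₀ le_rfl h fun h1 => (hq h1).1 h
    · rw [VK_stop le_rfl h, VK_stop le_rfl h, mul_zero]
  · by_cases h : (k, q) ∈ S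
    · rw [VK_mem h, VK_mem h]; exact hC k q hk₀ hk.le h fun h1 => (hq h1).1 h
    · by_cases h' : (k, q) ∈ I
      · have hq' : (k, q) ∉ B := fun h1 => (hq h1).2 h'
        rw [VK_in hk h h', VK_in hk h h', heq k q hk₀ hk hq']
        have a1 := ih (by omega) q fun h1 => by
          rcases hB (k + 1) q (by omega) (by omega) h1 with h2 | h2
          · exact h2
          · exact absurd (h2 k rfl).1 h
        have a2 := mul_le_mul_of_nonneg_left (ih (by omega) (q + 1) fun h1 => by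
          rcases hB (k + 1) (q + 1) (by omega) (by omega) h1 with h2 | h2
          · exact h2
          · have := (h2 k rfl).2
            rw [add_sub_cancel_right] at this
            exact absurd this h) (Γ.p_pos k).le
        have a3 := mul_le_mul_of_nonneg_left (add_le_add a1 a2) (wt_pos ω k q).le
        calc _ ≤ _ := a3
          _ = _ := by ring
      · rw [VK_out h h', VK_out h h', mul_zero]

theorem meas_bW (Γ : Cx) (k : ℕ) (q : ℤ) : Measurable fun ω : Env => bW Γ ω k q := pm_bw measurable_wt _ _ _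

theorem meas_VK (Γ : Cx) (S I : Set (ℕ × ℤ)) (e k : ℕ) (q : ℤ) : Measurable fun ω : Env => VK Γ ω e S I k q := by
  classical
  have key : ∀ (j k : ℕ) (y : ℤ), Measurable fun ω : Env => vk Γ ω S I k j y := by
    intro j
    induction j with
    | zero =>
      intro k y
      by_cases hS : (k, y) ∈ S
      · have e1 : (fun ω : Env => vk Γ ω S I k 0 y) = fun ω => bW Γ ω k y := by
          funext ω
          exact vk_mem hS 0
        rw [e1]
        exact meas_bW Γ k y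
      · have e1 : (fun ω : Env => vk Γ ω S I k 0 y) = fun _ => (0 : ℝ) := by
          funext ω
          unfold vk
          exact if_neg hS
        rw [e1]
        exact measurable_const
    | succ j ih =>
      intro k y
      by_cases hS : (k, y) ∈ S
      · have e1 : (fun ω : Env => vk Γ ω S I k (j + 1) y) = fun ω => bW Γ ω k y := by
          funext ω
          exact vk_mem hS (j + 1)
        rw [e1]
        exact meas_bW Γ k y
      · by_cases hI : (k, y) ∈ I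
        · have e1 : (fun ω : Env => vk Γ ω S I k (j + 1) y) = fun ω =>
              wt ω k y * (vk Γ ω S I (k + 1) j y + Γ.p k * vk Γ ω S I (k + 1) j (y + 1)) := by
            funext ω
            conv_lhs => unfold vk
            rw [if_neg hS, if_pos hI]
          rw [e1]
          exact (measurable_wt k y).mul ((ih (k + 1) y).add (measurable_const.mul (ih (k + 1) (y + 1))))
        · have e1 : (fun ω : Env => vk Γ ω S I k (j + 1) y) = fun _ => (0 : ℝ) := by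
            funext ω
            conv_lhs => unfold vk
            rw [if_neg hS, if_neg hI]
          rw [e1]
          exact measurable_const
  exact key (e - k) k q

end vk

/-! ### The event -/

section ev

variable (Γ : Cx) (G : Gm)

/-- The far sites. -/
def Fz (v : ℕ) (κ : ℤ × ℤ) (a : ℝ) : Set (ℕ × ℤ) := {c | G.lo v κ ≤ (c.1 : ℤ) ∧ a * G.w v ≤ |G.lat c - G.ctr v κ|}

/-- The sites before them. -/
def Ii (v : ℕ) (κ : ℤ × ℤ) (a : ℝ) : Set (ℕ × ℤ) := {c | |G.lat c - G.ctr v κ| < a * G.w v}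

/-- The last row of the visits. -/
def er (v : ℕ) (κ : ℤ × ℤ) : ℕ := min (G.ra v κ) Γ.N

/-- **FORWARD STEEPNESS.** -/
def Fw (a b γ : ℝ) (v : ℕ) (κ : ℤ × ℤ) : Set Env :=
  {ω | ∀ (k : ℕ) (y : ℤ), (k, y) ∈ Fz G v κ a → k < er Γ G v κ →
    wt ω k y * (VK Γ ω (er Γ G v κ) (sp G v κ b) (Ii G v κ a) (k + 1) y +
      Γ.p k * VK Γ ω (er Γ G v κ) (sp G v κ b) (Ii G v κ a) (k + 1) (y + 1)) ≤ Real.exp (-γ) * bW Γ ω k y}

theorem er_le (v : ℕ) (κ : ℤ × ℤ) : er Γ G v κ ≤ Γ.N := min_le_right _ _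

theorem meas_Fw (a b γ : ℝ) (v : ℕ) (κ : ℤ × ℤ) : MeasurableSet (Fw Γ G a b γ v κ) := by
  have e : Fw Γ G a b γ v κ = ⋂ k : ℕ, ⋂ y : ℤ, {ω | (k, y) ∈ Fz G v κ a → k < er Γ G v κ →
      wt ω k y * (VK Γ ω (er Γ G v κ) (sp G v κ b) (Ii G v κ a) (k + 1) y +
        Γ.p k * VK Γ ω (er Γ G v κ) (sp G v κ b) (Ii G v κ a) (k + 1) (y + 1)) ≤ Real.exp (-γ) * bW Γ ω k y} := by
    ext ω
    simp only [Fw, Set.mem_ofPred_eq, Set.mem_iInter]
  rw [e]
  refine MeasurableSet.iInter fun k => MeasurableSet.iInter fun y => ?_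
  by_cases h : (k, y) ∈ Fz G v κ a
  · by_cases h' : k < er Γ G v κ
    · simp only [h, h', true_imp_iff]
      exact measurableSet_le ((measurable_wt k y).mul ((meas_VK Γ _ _ _ _ y).add (measurable_const.mul (meas_VK Γ _ _ _ _ (y + 1)))))
        (measurable_const.mul (meas_bW Γ k y))
    · simp [h']
  · simp [h]

variable {Γ G}

theorem Fw_mono {a b γ γ' : ℝ} {v : ℕ} {κ : ℤ × ℤ} (hγ : γ' ≤ γ) : Fw Γ G a b γ v κ ⊆ Fw Γ G a b γ' v κ := by
  intro ω h k y hk hke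
  refine (h k y hk hke).trans ?_
  exact mul_le_mul_of_nonneg_right (Real.exp_le_exp.2 (by linarith)) (bW_pos _ _ _ _).le

/-- The step changes the lateral coordinate by at most `1`. -/
theorem lat_pred (hv0 : 0 ≤ G.v) (hv1 : G.v ≤ 1) (k : ℕ) (y : ℤ) {z c : ℝ} (h : |G.lat (k + 1, y) - z| ≤ c) :
    |G.lat (k, y) - z| ≤ c + 1 ∧ |G.lat (k, y - 1) - z| ≤ c + 1 := by
  unfold Gm.lat at h ⊢
  simp only at h ⊢
  push_cast at h ⊢
  obtain ⟨h4, h5⟩ := abs_le.1 h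
  constructor
  · rw [abs_le]
    constructor <;> linarith
  · rw [abs_le]
    constructor <;> linarith

/-- **The transport.** `ω`, `ω'` are equal off `B` in the rows of the visits; masses off `B` within `exp d`. -/
theorem Fw_tr {a b γ d : ℝ} {v : ℕ} {κ : ℤ × ℤ} {ω ω' : Env} {B : Set (ℕ × ℤ)} (hab : b < a)
    (hv0 : 0 ≤ G.v) (hv1 : G.v ≤ 1)
    (hr : Ro (wt ω) (wt ω') Γ.p Γ.N B (Real.exp d))
    (heq : ∀ k y, (k, y) ∉ B → wt ω' k y = wt ω k y)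
    (hB : ∀ k y, (G.lo v κ).toNat ≤ k → k ≤ er Γ G v κ → (k, y) ∈ B → a * G.w v + 1 ≤ |G.lat (k, y) - G.ctr v κ| ∨
      |G.lat (k, y) - G.ctr v κ| + 1 ≤ b * G.w v)
    (h : ω ∈ Fw Γ G a b γ v κ) : ω' ∈ Fw Γ G a b (γ - 2 * d) v κ := by
  intro k y hk hke
  have hw := G.w_pos v
  have hbw := mul_lt_mul_of_pos_right hab hw
  have hk0 : (G.lo v κ).toNat ≤ k := by
    have := hk.1
    simp only at this
    omega
  have nS : ∀ {k : ℕ} {y : ℤ}, a * G.w v ≤ |G.lat (k, y) - G.ctr v κ| → (k, y) ∉ sp G v κ b := fun {k y} h3 h4 => by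
    have h5 : |G.lat (k, y) - G.ctr v κ| ≤ b * G.w v := h4
    linarith
  have nI : ∀ {k : ℕ} {y : ℤ}, a * G.w v ≤ |G.lat (k, y) - G.ctr v κ| → (k, y) ∉ Ii G v κ a := fun {k y} h3 h4 => by
    have h5 : |G.lat (k, y) - G.ctr v κ| < a * G.w v := h4
    linarith
  have hB' : ∀ k y, (G.lo v κ).toNat ≤ k → k ≤ er Γ G v κ → (k, y) ∈ B → ((k, y) ∉ sp G v κ b ∧ (k, y) ∉ Ii G v κ a) ∨
      ∀ k', k = k' + 1 → (k', y) ∈ sp G v κ b ∧ (k', y - 1) ∈ sp G v κ b := fun k y h0 h1 h2 => by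
    rcases hB k y h0 h1 h2 with h3 | h3
    · exact Or.inl ⟨nS (by linarith), nI (by linarith)⟩
    · refine Or.inr fun k' hk' => ?_
      subst hk'
      obtain ⟨h4, h5⟩ := lat_pred hv0 hv1 k' y (le_refl |G.lat (k' + 1, y) - G.ctr v κ|)
      refine ⟨?_, ?_⟩
      · show |G.lat (k', y) - G.ctr v κ| ≤ b * G.w v
        linarith
      · show |G.lat (k', y - 1) - G.ctr v κ| ≤ b * G.w v
        linarith
  have cmp := VK_cmp (Γ := Γ) (ω := ω) (ω' := ω') (e := er Γ G v κ) (S := sp G v κ b) (I := Ii G v κ a) (k₀ := (G.lo v κ).toNat)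
    (B := B) (C := Real.exp d) (fun k y _ _ h1 => heq k y h1) hB' (fun k y _ _ _ h3 => hr.up k y h3)
  by_cases h1 : (k, y) ∈ B
  · have s0 : a * G.w v + 1 ≤ |G.lat (k, y) - G.ctr v κ| := by
      rcases hB k y hk0 hke.le h1 with h3 | h3
      · exact h3
      · have h4 := hk.2
        linarith
    obtain ⟨s1, s2⟩ : a * G.w v ≤ |G.lat (k + 1, y) - G.ctr v κ| ∧ a * G.w v ≤ |G.lat (k + 1, y + 1) - G.ctr v κ| := by
      have p1 := lat_pred hv0 hv1 k y (le_refl |G.lat (k + 1, y) - G.ctr v κ|)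
      have p2 := lat_pred hv0 hv1 k (y + 1) (le_refl |G.lat (k + 1, y + 1) - G.ctr v κ|)
      rw [add_sub_cancel_right] at p2
      exact ⟨by linarith [p1.1], by linarith [p2.2]⟩
    rw [VK_out (nS s1) (nI s1), VK_out (nS s2) (nI s2), mul_zero, add_zero, mul_zero]
    exact mul_nonneg (Real.exp_pos _).le (bW_pos _ _ _ _).le
  · have hnk := nS hk.2
    have b1 : ∀ q, (q = y ∨ q = y + 1) → (k + 1, q) ∈ B → (k + 1, q) ∉ sp G v κ b ∧ (k + 1, q) ∉ Ii G v κ a := fun q hq h2 => by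
      rcases hB' (k + 1) q (by omega) (by omega) h2 with h3 | h3
      · exact h3
      · obtain ⟨h4, h5⟩ := h3 k rfl
        rcases hq with rfl | rfl
        · exact absurd h4 hnk
        · rw [add_sub_cancel_right] at h5
          exact absurd h5 hnk
    have a1 := cmp (k + 1) (by omega) (by omega) y (b1 y (Or.inl rfl))
    have a2 := mul_le_mul_of_nonneg_left (cmp (k + 1) (by omega) (by omega) (y + 1) (b1 (y + 1) (Or.inr rfl))) (Γ.p_pos k).le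
    have a3 := mul_le_mul_of_nonneg_left (add_le_add a1 a2) (wt_pos ω k y).le
    rw [heq k y h1]
    have a4 := h k y hk hke
    have a5 : bW Γ ω k y ≤ Real.exp d * bW Γ ω' k y := hr.dn k y h1
    calc _ ≤ _ := a3
      _ = Real.exp d * (wt ω k y * (VK Γ ω (er Γ G v κ) (sp G v κ b) (Ii G v κ a) (k + 1) y +
          Γ.p k * VK Γ ω (er Γ G v κ) (sp G v κ b) (Ii G v κ a) (k + 1) (y + 1))) := by ring
      _ ≤ Real.exp d * (Real.exp (-γ) * (Real.exp d * bW Γ ω' k y)) :=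
          mul_le_mul_of_nonneg_left (a4.trans (mul_le_mul_of_nonneg_left a5 (Real.exp_pos _).le)) (Real.exp_pos _).le
      _ = Real.exp (-(γ - 2 * d)) * bW Γ ω' k y := by
          rw [show -(γ - 2 * d) = d + (-γ + d) by ring, Real.exp_add, Real.exp_add]
          ring

/-- A window: sites near its centre. -/
theorem win_col {u v : ℕ} {κ κ' : ℤ × ℤ} {k : ℕ} {y : ℤ} (h : (((k : ℤ), y) : Pt) ∈ G.win u κ') :
    |G.lat (k, y) - G.ctr v κ| ≤ |G.ctr u κ' - G.ctr v κ| + (G.kw * G.w u + 1) ∧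
      |G.ctr u κ' - G.ctr v κ| ≤ |G.lat (k, y) - G.ctr v κ| + (G.kw * G.w u + 1) := by
  have h2 := lat_win h
  have e1 : G.lat (k, y) - G.ctr v κ = (G.ctr u κ' - G.ctr v κ) + (G.lat (k, y) - G.ctr u κ') := by ring
  have e2 : G.ctr u κ' - G.ctr v κ = (G.lat (k, y) - G.ctr v κ) - (G.lat (k, y) - G.ctr u κ') := by ring
  constructor
  · rw [e1]
    exact (abs_add_le _ _).trans (add_le_add le_rfl h2)
  · rw [e2]
    exact (abs_sub _ _).trans (add_le_add le_rfl h2)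

/-- **(I)** A window inside of the strip is changed. -/
theorem Fw_R {a b γ d : ℝ} {u v : ℕ} {κ κ' : ℤ × ℤ} (hv0 : 0 ≤ G.v) (hv1 : G.v ≤ 1) (hab : b < a)
    (hg : |G.ctr u κ' - G.ctr v κ| + G.kw * G.w u + 2 ≤ b * G.w v) {η ω : Env}
    (hr : Ro (wt ω) (wt (G.R u κ' η ω)) Γ.p Γ.N (O22.Bw G u κ') (Real.exp d)) (h : ω ∈ Fw Γ G a b γ v κ) :
    G.R u κ' η ω ∈ Fw Γ G a b (γ - 2 * d) v κ :=
  Fw_tr hab hv0 hv1 hr (fun k y h1 => Gm.wt_gl_of_not_mem fun h2 => h1 h2)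
    (fun k y _ _ h1 => Or.inr (by have := (win_col (v := v) (κ := κ) (k := k) (y := y) h1).1; linarith)) h

/-- **(I')** A window off `|lat - ctr| < a w_v + 1` is changed. -/
theorem Fw_off {a b γ d : ℝ} {u v : ℕ} {κ κ' : ℤ × ℤ} (hv0 : 0 ≤ G.v) (hv1 : G.v ≤ 1) (hab : b < a)
    (hg : a * G.w v + G.kw * G.w u + 2 ≤ |G.ctr u κ' - G.ctr v κ|) {η ω : Env}
    (hr : Ro (wt ω) (wt (G.R u κ' η ω)) Γ.p Γ.N (O22.Bw G u κ') (Real.exp d)) (h : ω ∈ Fw Γ G a b γ v κ) :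
    G.R u κ' η ω ∈ Fw Γ G a b (γ - 2 * d) v κ :=
  Fw_tr hab hv0 hv1 hr (fun k y h1 => Gm.wt_gl_of_not_mem fun h2 => h1 h2)
    (fun k y _ _ h1 => Or.inl (by have := (win_col (v := v) (κ := κ) (k := k) (y := y) h1).2; linarith)) h

/-- **(II)** A window above is changed. -/
theorem Fw_up {a b γ d : ℝ} {u v : ℕ} {κ κ' : ℤ × ℤ} (hv0 : 0 ≤ G.v) (hv1 : G.v ≤ 1) (hab : b < a) (h0 : 0 ≤ G.rcc u κ')
    (hrow : G.ra v κ < G.ra u κ') {η ω : Env}
    (hr : Ro (wt ω) (wt (G.R u κ' η ω)) Γ.p Γ.N (O22.Bw G u κ') (Real.exp d))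
    (h : ω ∈ Fw Γ G a b γ v κ) : G.R u κ' η ω ∈ Fw Γ G a b (γ - 2 * d) v κ := by
  refine Fw_tr hab hv0 hv1 hr (fun k y h1 => Gm.wt_gl_of_not_mem fun h2 => h1 h2) (fun k y _ h2 h1 => ?_) h
  have h3 : k ≤ G.ra v κ := h2.trans (min_le_left _ _)
  have h4 : G.rcc u κ' + G.T (u - 1) < (k : ℤ) := h1.1
  have h5 := G.ra_cast h0
  omega

/-- **(III)** A window below the box is changed. -/
theorem Fw_dn {a b γ d : ℝ} {u v : ℕ} {κ κ' : ℤ × ℤ} (hv0 : 0 ≤ G.v) (hv1 : G.v ≤ 1) (hab : b < a) (h0 : 0 ≤ G.rcc u κ')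
    (hrow : (G.re u κ' : ℤ) ≤ G.lo v κ) {η ω : Env}
    (hr : Ro (wt ω) (wt (G.R u κ' η ω)) Γ.p Γ.N (O22.Bw G u κ') (Real.exp d))
    (h : ω ∈ Fw Γ G a b γ v κ) : G.R u κ' η ω ∈ Fw Γ G a b (γ - 2 * d) v κ := by
  refine Fw_tr hab hv0 hv1 hr (fun k y h1 => Gm.wt_gl_of_not_mem fun h2 => h1 h2) (fun k y h2 _ h1 => ?_) h
  have h4 : (k : ℤ) ≤ G.rcc u κ' + G.T u := h1.2.1
  have h5 := G.re_cast h0
  omega

/-! ### Thresholds -/

variable (Γ G)

/-- The event of `T A v κ`. -/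
def FwA (a b : ℝ) (ga D : ℕ → ℝ) (q : ℕ) (A : Finset ℕ) (v : ℕ) (κ : ℤ × ℤ) : Set Env := Fw Γ G a b (ga v - pc78 D q A v) v κ

/-- The event of `Tt v κ`. -/
def FwT (a b : ℝ) (ga D : ℕ → ℝ) (q v : ℕ) (κ : ℤ × ℤ) : Set Env := Fw Γ G a b (ga v - pc78 D q (range (v + 1)) v) v κ

theorem meas_FwA (a b : ℝ) (ga D : ℕ → ℝ) (q : ℕ) (A : Finset ℕ) (v : ℕ) (κ : ℤ × ℤ) : MeasurableSet (FwA Γ G a b ga D q A v κ) :=
  meas_Fw Γ G _ _ _ _ _

theorem meas_FwT (a b : ℝ) (ga D : ℕ → ℝ) (q v : ℕ) (κ : ℤ × ℤ) : MeasurableSet (FwT Γ G a b ga D q v κ) := meas_Fw Γ G _ _ _ _ _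

variable {Γ G} {a b : ℝ} {ga D : ℕ → ℝ} {q : ℕ}

theorem FwA_mono (hD : ∀ u, 0 ≤ D u) {A B : Finset ℕ} (h : A ⊆ B) (v : ℕ) (κ : ℤ × ℤ) :
    FwA Γ G a b ga D q A v κ ⊆ FwA Γ G a b ga D q B v κ := Fw_mono (by linarith [pc78_mono hD q h v])

theorem FwA_sub (hD : ∀ u, 0 ≤ D u) (A : Finset ℕ) (v : ℕ) (κ : ℤ × ℤ) : FwA Γ G a b ga D q A v κ ⊆ FwT Γ G a b ga D q v κ :=
  Fw_mono (by linarith [pc78_range hD q A v])

/-- `FwT` with a plain threshold. -/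
theorem FwT_sub (hD : ∀ u, 0 ≤ D u) {v : ℕ} {X r γ : ℝ} (hX : 0 ≤ X) (hr0 : 0 ≤ r) (hr1 : r < 1) (h : ∀ u, u + q ≤ v → D u ≤ X * r ^ (v - u))
    (hγ : γ + X * (r ^ q / (1 - r)) ≤ ga v) (κ : ℤ × ℤ) : FwT Γ G a b ga D q v κ ⊆ Fw Γ G a b γ v κ :=
  Fw_mono (by linarith [pc78_geo hD hX hr0 hr1 h (range (v + 1))])

/-- The general step: any window inside of the strip. -/
theorem FwA_R {A : Finset ℕ} {u v : ℕ} (hu : u ∉ A) (huv : u + q ≤ v) {κ κ' : ℤ × ℤ} (hv0 : 0 ≤ G.v) (hv1 : G.v ≤ 1) (hab : b < a)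
    (hg : |G.ctr u κ' - G.ctr v κ| + G.kw * G.w u + 2 ≤ b * G.w v) {d : ℝ} (hD : 2 * d ≤ D u) {η ω : Env}
    (hr : Ro (wt ω) (wt (G.R u κ' η ω)) Γ.p Γ.N (O22.Bw G u κ') (Real.exp d)) (h : ω ∈ FwA Γ G a b ga D q A v κ) :
    G.R u κ' η ω ∈ FwA Γ G a b ga D q (insert u A) v κ := by
  refine Fw_mono ?_ (Fw_R hv0 hv1 hab hg hr h)
  rw [pc78_insert hu huv]
  linarith

/-- **`stepT`.** -/
theorem FwA_stepT {A : Finset ℕ} {u v : ℕ} (hu : u ∉ A) (huv : u + q ≤ v) (y : ℕ × ℤ) (hv0 : 0 ≤ G.v) (hv1 : G.v ≤ 1) (hab : b < a)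
    (hg : (G.kw + 1) * G.w u + 2 ≤ (b - 1) * G.w v) {d : ℝ} (hD : 2 * d ≤ D u) {η ω : Env}
    (hr : Ro (wt ω) (wt (G.R u (G.loc u y) η ω)) Γ.p Γ.N (O22.Bw G u (G.loc u y)) (Real.exp d)) (h : ω ∈ FwA Γ G a b ga D q A v (G.loc v y)) :
    G.R u (G.loc u y) η ω ∈ FwA Γ G a b ga D q (insert u A) v (G.loc v y) := by
  refine FwA_R hu huv hv0 hv1 hab ?_ hD hr h
  have h1 := G.lat_ctr u y
  have h2 := G.lat_ctr v y
  have h3 := G.g_le u
  have h4 := G.g_le v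
  have hw := G.w_pos v
  have hw' := G.w_pos u
  have e1 : G.ctr u (G.loc u y) - G.ctr v (G.loc v y) = (G.lat y - G.ctr v (G.loc v y)) - (G.lat y - G.ctr u (G.loc u y)) := by ring
  rw [e1]
  have h5 := abs_sub (G.lat y - G.ctr v (G.loc v y)) (G.lat y - G.ctr u (G.loc u y))
  linarith

/-- **`stepS`.** -/
theorem FwA_stepS {s v : ℕ} (hsv : s + q ≤ v) {κ : ℤ × ℤ} {ρ : ℕ × ℤ} (hρ : G.Nb s κ ρ) (hv0 : 0 ≤ G.v) (hv1 : G.v ≤ 1) (hab : b < a)
    (hg : (G.kw + G.kb) * G.w s + 2 ≤ (b - 1) * G.w v) {d : ℝ} (hD : 2 * d ≤ D s) {η ω : Env}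
    (hr : Ro (wt ω) (wt (G.R s κ η ω)) Γ.p Γ.N (O22.Bw G s κ) (Real.exp d)) (h : ω ∈ FwA Γ G a b ga D q ∅ v (G.loc v ρ)) :
    G.R s κ η ω ∈ FwA Γ G a b ga D q {s} v (G.loc v ρ) := by
  have key := FwA_R (Γ := Γ) (G := G) (a := a) (b := b) (ga := ga) (D := D) (q := q) (A := ∅) (u := s) (v := v) (κ := G.loc v ρ) (κ' := κ)
    (notMem_empty s) hsv hv0 hv1 hab ?_ hD hr h
  · exact key
  · have h1 := hρ.2.2
    have h2 := G.lat_ctr v ρ
    have h4 := G.g_le v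
    have hw := G.w_pos v
    have e1 : G.ctr s κ - G.ctr v (G.loc v ρ) = (G.lat ρ - G.ctr v (G.loc v ρ)) - (G.lat ρ - G.ctr s κ) := by ring
    rw [e1]
    have h5 := abs_sub (G.lat ρ - G.ctr v (G.loc v ρ)) (G.lat ρ - G.ctr s κ)
    linarith

/-! ### Use -/

/-- **The sites of the far events are far sites.** -/
theorem fr_Fz {t τ u i : ℕ} (hτ : τ < t) (hu : t + 2 ≤ u) {x : ℕ × ℤ} {r : ℤ} (hr : r ∈ G.fr t τ x) {y : ℤ}
    (hy : y ∈ G.fs i τ x r) (hW : a * G.w u + G.g u / 2 ≤ G.W i τ) :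
    (r.toNat, y) ∈ Fz G u (G.loc u x) a ∧ r.toNat < G.ra u (G.loc u x) := by
  have h0 := G.fr_lt_ra hτ hu hr
  have hr' := hr
  unfold Gm.fr at hr'
  rw [mem_filter, mem_Icc] at hr'
  obtain ⟨⟨h1, h2⟩, -⟩ := hr'
  have h3 := G.T_lt8 (show t - 1 < t by omega)
  have h4 := G.T_mono' (show τ ≤ t - 1 by omega)
  have h5 := G.T_mono' (show t ≤ u - 2 by omega)
  have h6 := G.T_pos' t
  have h7 := G.lt_rcc u x
  have h8 := G.lo_le u x
  have h9 : 0 ≤ r := by omega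
  have e1 : ((r.toNat : ℕ) : ℤ) = r := Int.toNat_of_nonneg h9
  have e2 : ((r.toNat : ℕ) : ℝ) = (r : ℝ) := by exact_mod_cast e1
  refine ⟨⟨?_, ?_⟩, by omega⟩
  · show G.lo u (G.loc u x) ≤ ((r.toNat : ℕ) : ℤ)
    rw [e1]; omega
  · have a1 : G.W i τ ≤ |((y : ℝ) - G.v * (r : ℝ)) - G.lat x| := hy
    have a2 := G.lat_ctr u x
    have e3 : G.lat (r.toNat, y) = (y : ℝ) - G.v * (r : ℝ) := by
      unfold Gm.lat
      simp only
      rw [e2]
    rw [e3]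
    have a3 : (y : ℝ) - G.v * (r : ℝ) - G.lat x = ((y : ℝ) - G.v * (r : ℝ) - G.ctr u (G.loc u x)) - (G.lat x - G.ctr u (G.loc u x)) := by
      ring
    rw [a3] at a1
    have a4 := abs_sub ((y : ℝ) - G.v * (r : ℝ) - G.ctr u (G.loc u x)) (G.lat x - G.ctr u (G.loc u x))
    linarith

/-- **Visits of the strip from the far sites.** -/
theorem Fw_VS {γ : ℝ} {v : ℕ} {κ : ℤ × ℤ} {ω : Env} (hab : b < a) (h : ω ∈ Fw Γ G a b γ v κ) {k : ℕ} {y : ℤ} (hk : (k, y) ∈ Fz G v κ a)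
    (hke : k ≤ er Γ G v κ) :
    VS Γ ω (er Γ G v κ) (sp G v κ b) k y ≤ ((er Γ G v κ - k : ℕ) : ℝ) * Real.exp (-γ) * bW Γ ω k y := by
  have hk0 : (G.lo v κ).toNat ≤ k := by
    have := hk.1
    simp only at this
    omega
  have h1 := VS_le_VK (Γ := Γ) (ω := ω) (S := sp G v κ b) (I := Ii G v κ a) (er_le Γ G v κ) (k₀ := (G.lo v κ).toNat)
    (Real.exp_pos (-γ)).le (fun k y h0 h1 h2 h3 => h k y ⟨by
      have := Int.self_le_toNat (G.lo v κ)
      show G.lo v κ ≤ (k : ℤ)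
      omega, not_lt.1 h3⟩ h1) k hke hk0 y
  have hw := G.w_pos v
  have h2 := mul_lt_mul_of_pos_right hab hw
  have h3 := hk.2
  rw [VK_out (fun h4 => by
      have h5 : |G.lat (k, y) - G.ctr v κ| ≤ b * G.w v := h4
      linarith) (fun h4 => by
      have h5 : |G.lat (k, y) - G.ctr v κ| < a * G.w v := h4
      linarith), zero_add] at h1
  exact h1

/-- **The input `hF` of `exclF53E`.** -/
theorem Fw_QA {γ : ℝ} {v : ℕ} {κ : ℤ × ℤ} {ω : Env} (hab : b < a) (h : ω ∈ Fw Γ G a b γ v κ) (hN : G.ra v κ ≤ Γ.N) {k : ℕ} {y : ℤ}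
    (hk : (k, y) ∈ Fz G v κ a) (hka : k ≤ G.ra v κ) {Mo : Set ℤ} (hMo : ∀ z ∈ Mo, (G.ra v κ, z) ∈ sp G v κ b) :
    QA Γ ω (G.ra v κ) Mo k y ≤ ((G.ra v κ - k : ℕ) : ℝ) * Real.exp (-γ) * bW Γ ω k y := by
  have e1 : er Γ G v κ = G.ra v κ := min_eq_left hN
  have h1 := Fw_VS hab h hk (by rw [e1]; exact hka)
  rw [e1] at h1
  exact (QA_le_VS hN hMo k hka y).trans h1

/-- To be off the strip at one row is to leave it. -/
theorem QA_le_lv {ω : Env} {S : Set (ℕ × ℤ)} {e e' : ℕ} (he : e ≤ Γ.N) (h : e' < e) {A : Set ℤ} (hA : ∀ z ∈ A, (e', z) ∉ S) :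
    ∀ k, k ≤ e' → ∀ q, QA Γ ω e' A k q ≤ lv (wt ω) Γ.p Γ.N S e k q := by
  refine down (fun q => ?_) fun k hk ih q => ?_
  · rw [QA_self]
    by_cases h1 : q ∈ A
    · rw [tf_mem h1, lv_out h (hA q h1)]
      exact le_rfl
    · rw [tf_not h1]
      exact lv_nonneg (wt_pos ω) Γ.p_pos _ _
  · by_cases hS : (k, q) ∈ S
    · rw [QA_step A hk, lv_in (by omega) hS]
      exact mul_le_mul_of_nonneg_left (add_le_add (ih q) (mul_le_mul_of_nonneg_left (ih (q + 1)) (Γ.p_pos k).le))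
        (wt_pos ω k q).le
    · rw [lv_out (by omega) hS]
      exact QA_le_bW (by omega) A k hk.le q

/-- **The input `hE` of `exclE53E`, `exclF53E`.** -/
theorem St_QA {β : ℝ} {v : ℕ} {κ : ℤ × ℤ} {ω : Env} (h : ω ∈ St Γ G a b β v κ) {e : ℕ} (he : e ≤ G.ra v κ) (heN : e < Γ.N)
    {k : ℕ} (hke : k ≤ e) {y : ℤ} (hk : (k, y) ∈ Rg G v κ a) {A : Set ℤ} (hA : ∀ z ∈ A, (e, z) ∉ sp G v κ b) :
    QA Γ ω e A k y ≤ Real.exp (-β) * bW Γ ω k y :=
  (QA_le_lv (Sy78.sr_le Γ G v κ) (lt_min (by omega) heN) hA k hke y).trans (h k y hk)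

end ev

end

end Pool.Agent.W_7d29a1_C1.SD53
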