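import Pool.Agent.W_7d29a1_C1.Fw53

/-!
MP_7d29a1_pr, attractor route [C1], TAME, the clause `Fw` of `hT` (helper75), part 1: FORWARD STEEPNESS FROM KERNEL ENVELOPES,
deterministic (form `Fw53` of helper53, killed visits; style `StayE78` of helper78).

* `VK_le_sum`, `start_le` : the killed visits are at most the sum over the rows of the mass which is in `S` at that row;
* **`fw_env75`** : upper envelope of the kernels of the rows `k < i ≤ r` from the start and from the sites of `S` (cost `U` of the lateral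
  distance, `U X ≤ c'/4 X + CU`, linear decay `c'` in the skew), growth of `bw / ρ` at the row `r` with the slope `σ ≤ c'/4` above `B`,
  lower bound `B ρ A e^(-Q₁ E) ≤ bw` of the start ⇒ the visits of the strip `b` from a start at the lateral distance `≥ a` are a part
  `e^(-β E)` as soon as `β + 2 CU + (3/2) c' b + Q₁ + Q₂ + 3 ≤ (3/4) c' a`.
-/

set_option autoImplicit false

namespace Pool.Agent.W_7d29a1_C1.FW75

open Finset
open Pool.Agent.W_7d29a1_F Pool.Agent.W_7d29a1_h4g Pool.Agent.W_7d29a1_H Pool.Agent.W_7d29a1_HS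
open Pool.Agent.W_7d29a1_C1.K91 (wt wt_pos measurable_wt)
open Pool.Agent.W_7d29a1_C1.K91P
open Pool.Agent.W_7d29a1_C1.H60
open Pool.Agent.W_7d29a1_C1.Sp22 (bf bf_zero bf_succ bf_nonneg bf_ker)
open Pool.Agent.W_7d29a1_C1.U16 (ker ker_zero ker_nonneg ker_eq_zero bw_ker)
open Pool.Agent.W_7d29a1_C1.SD53 (VK VK_mem VK_stop VK_out VK_in bW_pos)

noncomputable section

/-! ### The sum over the rows -/

open Classical in
/-- The backward mass of the sites of the row `i` in `S`. -/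
def gT (w : ℕ → ℤ → ℝ) (p : ℕ → ℝ) (N : ℕ) (S : Set (ℕ × ℤ)) (i : ℕ) (z : ℤ) : ℝ := if (i, z) ∈ S then bw w p i (N - i) z else 0

theorem gT_nonneg {w : ℕ → ℤ → ℝ} {p : ℕ → ℝ} {N : ℕ} {S : Set (ℕ × ℤ)} (hw : ∀ k y, 0 < w k y) (hp : ∀ k, 0 < p k) (i : ℕ) (z : ℤ) :
    0 ≤ gT w p N S i z := by
  classical
  unfold gT
  split_ifs
  · exact (bw_pos hw hp _ _ _).le
  · exact le_rfl

section sum

variable {Γ : Cx} {ω : Env} {S I : Set (ℕ × ℤ)} {e : ℕ}

/-- The killed visits, row by row. -/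
theorem VK_le_sum : ∀ k, k ≤ e → ∀ y, VK Γ ω e S I k y ≤
    ∑ i ∈ Ico k (e + 1), bf (wt ω) Γ.p (gT (wt ω) Γ.p Γ.N S i) k (i - k) y := by
  classical
  have hnn : ∀ k i y, 0 ≤ bf (wt ω) Γ.p (gT (wt ω) Γ.p Γ.N S i) k (i - k) y := fun k i y =>
    bf_nonneg (fun k y => (wt_pos ω k y).le) Γ.p_pos (gT_nonneg (wt_pos ω) Γ.p_pos i) _ _ _
  refine SD53.down (fun y => ?_) fun k hk ih y => ?_
  · rw [sum_eq_sum_Ico_succ_bot (Nat.lt_succ_self e), Ico_self, sum_empty, add_zero, Nat.sub_self, bf_zero]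
    by_cases h : (e, y) ∈ S
    · rw [VK_mem h]
      unfold gT
      rw [if_pos h]
      exact le_rfl
    · rw [VK_stop le_rfl h]
      exact gT_nonneg (wt_pos ω) Γ.p_pos e y
  · rw [sum_eq_sum_Ico_succ_bot (show k < e + 1 by omega)]
    have h2 : 0 ≤ ∑ i ∈ Ico (k + 1) (e + 1), bf (wt ω) Γ.p (gT (wt ω) Γ.p Γ.N S i) k (i - k) y := sum_nonneg fun i _ => hnn k i y
    by_cases h : (k, y) ∈ S
    · rw [VK_mem h]
      have h1 : bf (wt ω) Γ.p (gT (wt ω) Γ.p Γ.N S k) k (k - k) y = SD53.bW Γ ω k y := by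
        rw [Nat.sub_self, bf_zero]
        exact if_pos h
      rw [h1]
      linarith
    · by_cases h' : (k, y) ∈ I
      · rw [VK_in hk h h']
        have h1 : ∑ i ∈ Ico (k + 1) (e + 1), bf (wt ω) Γ.p (gT (wt ω) Γ.p Γ.N S i) k (i - k) y =
            wt ω k y * (∑ i ∈ Ico (k + 1) (e + 1), bf (wt ω) Γ.p (gT (wt ω) Γ.p Γ.N S i) (k + 1) (i - (k + 1)) y +
              Γ.p k * ∑ i ∈ Ico (k + 1) (e + 1), bf (wt ω) Γ.p (gT (wt ω) Γ.p Γ.N S i) (k + 1) (i - (k + 1)) (y + 1)) := by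
          rw [mul_sum, ← sum_add_distrib, mul_sum]
          refine sum_congr rfl fun i hi => ?_
          have := mem_Ico.1 hi
          rw [show i - k = i - (k + 1) + 1 by omega, bf_succ]
        rw [h1]
        have h3 := mul_le_mul_of_nonneg_left (add_le_add (ih y) (mul_le_mul_of_nonneg_left (ih (y + 1)) (Γ.p_pos k).le)) (wt_pos ω k y).le
        have h4 := hnn k k y
        linarith
      · rw [VK_out h h']
        have h4 := hnn k k y
        linarith

/-- The killed visits after one step. -/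
theorem start_le {k : ℕ} (hk : k < e) (y : ℤ) :
    wt ω k y * (VK Γ ω e S I (k + 1) y + Γ.p k * VK Γ ω e S I (k + 1) (y + 1)) ≤
      ∑ i ∈ Ico (k + 1) (e + 1), bf (wt ω) Γ.p (gT (wt ω) Γ.p Γ.N S i) k (i - k) y := by
  have h1 : ∑ i ∈ Ico (k + 1) (e + 1), bf (wt ω) Γ.p (gT (wt ω) Γ.p Γ.N S i) k (i - k) y =
      wt ω k y * (∑ i ∈ Ico (k + 1) (e + 1), bf (wt ω) Γ.p (gT (wt ω) Γ.p Γ.N S i) (k + 1) (i - (k + 1)) y +
        Γ.p k * ∑ i ∈ Ico (k + 1) (e + 1), bf (wt ω) Γ.p (gT (wt ω) Γ.p Γ.N S i) (k + 1) (i - (k + 1)) (y + 1)) := by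
    rw [mul_sum, ← sum_add_distrib, mul_sum]
    refine sum_congr rfl fun i hi => ?_
    have := mem_Ico.1 hi
    rw [show i - k = i - (k + 1) + 1 by omega, bf_succ]
  rw [h1]
  exact mul_le_mul_of_nonneg_left (add_le_add (VK_le_sum _ (by omega) y)
    (mul_le_mul_of_nonneg_left (VK_le_sum _ (by omega) (y + 1)) (Γ.p_pos k).le)) (wt_pos ω k y).le

end sum

/-! ### The envelopes -/

variable {w : ℕ → ℤ → ℝ} {p : ℕ → ℝ} {N e : ℕ} {S : Set (ℕ × ℤ)}

/-- **FORWARD STEEPNESS FROM ENVELOPES.** -/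
theorem fw_env75 (hw : ∀ k y, 0 < w k y) (hp : ∀ k, 0 < p k) {r : ℕ} (hN : r ≤ N) (her : e ≤ r) {L : ℕ → ℤ → ℝ}
    {ctr W E c' a b σ CU Q₁ Q₂ β B : ℝ} {ρ : ℕ → ℤ → ℝ} (hρ : ∀ k y, 0 < ρ k y) {A : ℕ → ℕ → ℝ} {U : ℝ → ℝ} {k : ℕ} {y : ℤ}
    (hW : 0 < W) (hE : 0 ≤ E) (hc : 0 < c') (hσ0 : 0 ≤ σ) (hσ : σ ≤ c' / 4) (hB : 0 < B)
    (hU : ∀ X, 0 ≤ X → U X ≤ c' / 4 * X + CU) (hA : ∀ i, k ≤ i → i ≤ r → A k i * A i r = A k r) (hA0 : ∀ k i, 0 ≤ A k i)
    (up : ∀ i z, k < i → i ≤ e → (i, z) ∈ S → ker w p k (i - k) y z ≤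
      ρ k y / ρ i z * (A k i * Real.exp (U (|L k y - ctr| / W) * E - c' * (E / W) * |L i z - L k y|)))
    (up2 : ∀ i z v, k < i → i ≤ e → (i, z) ∈ S → ker w p i (r - i) z v ≤
      ρ i z / ρ r v * (A i r * Real.exp (U (|L i z - ctr| / W) * E - c' * (E / W) * |L r v - L i z|)))
    (D2 : ∀ v, bw w p r (N - r) v / ρ r v ≤ Real.exp (Q₂ * E + σ * (E / W) * |L r v - ctr|) * B)
    (hS : ∀ i z, k < i → i ≤ e → (i, z) ∈ S → |L i z - ctr| ≤ b * W) (hn : ((r - k : ℕ) : ℝ) + 1 ≤ Real.exp E)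
    (hβ : β + (2 * CU + 3 / 2 * c' * b + Q₁ + Q₂ + 3) ≤ 3 / 4 * c' * a)
    (hy : a * W ≤ |L k y - ctr|)
    (lo : ρ k y * (A k r * Real.exp (-(Q₁ * E))) * B ≤ bw w p k (N - k) y) :
    ∑ i ∈ Ico (k + 1) (e + 1), bf w p (gT w p N S i) k (i - k) y ≤ Real.exp (-(β * E)) * bw w p k (N - k) y := by
  classical
  have hA1 : 0 ≤ A k r := hA0 k r
  obtain ⟨cst, hcst⟩ : ∃ cst, cst = 2 * CU + 3 / 2 * c' * b + Q₂ - 3 / 4 * c' * a := ⟨_, rfl⟩
  -- one term
  have term : ∀ i z v, k < i → i ≤ e → (i, z) ∈ S → ker w p k (i - k) y z * (ker w p i (r - i) z v * bw w p r (N - r) v) ≤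
      ρ k y * A k r * Real.exp (cst * E) * B := by
    intro i z v hki hie hz
    have u1 := up i z hki hie hz
    have u2 := up2 i z v hki hie hz
    have d2 := D2 v
    have hρk := hρ k y
    have hρi := hρ i z
    have hρv := hρ r v
    rw [div_le_iff₀ hρv] at d2
    obtain ⟨f1, hf1⟩ : ∃ f, f = Real.exp (U (|L k y - ctr| / W) * E - c' * (E / W) * |L i z - L k y|) := ⟨_, rfl⟩
    obtain ⟨f2, hf2⟩ : ∃ f, f = Real.exp (U (|L i z - ctr| / W) * E - c' * (E / W) * |L r v - L i z|) := ⟨_, rfl⟩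
    obtain ⟨f3, hf3⟩ : ∃ f, f = Real.exp (Q₂ * E + σ * (E / W) * |L r v - ctr|) := ⟨_, rfl⟩
    rw [← hf1] at u1
    rw [← hf2] at u2
    rw [← hf3] at d2
    have p1 : 0 < f1 := by rw [hf1]; exact Real.exp_pos _
    have p2 : 0 < f2 := by rw [hf2]; exact Real.exp_pos _
    have p3 : 0 < f3 := by rw [hf3]; exact Real.exp_pos _
    have k0 := ker_nonneg hw hp k (i - k) y z
    have k1 := ker_nonneg hw hp i (r - i) z v
    have b0 := bw_pos hw hp (N - r) r v
    have s1 : ker w p i (r - i) z v * bw w p r (N - r) v ≤ ρ i z / ρ r v * (A i r * f2) * (f3 * B * ρ r v) :=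
      mul_le_mul u2 d2 b0.le (k1.trans u2)
    have s2 : ker w p k (i - k) y z * (ker w p i (r - i) z v * bw w p r (N - r) v) ≤
        ρ k y / ρ i z * (A k i * f1) * (ρ i z / ρ r v * (A i r * f2) * (f3 * B * ρ r v)) :=
      mul_le_mul u1 s1 (mul_nonneg k1 b0.le) (k0.trans u1)
    have e1 : ρ k y / ρ i z * (A k i * f1) * (ρ i z / ρ r v * (A i r * f2) * (f3 * B * ρ r v)) = ρ k y * (A k i * A i r) * (f1 * f2 * f3) * B := by
      field_simp
    rw [e1, hA i hki.le (by omega)] at s2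
    refine s2.trans ?_
    have h5 : f1 * f2 * f3 ≤ Real.exp (cst * E) := by
      rw [hf1, hf2, hf3, ← Real.exp_add, ← Real.exp_add]
      refine Real.exp_le_exp.2 ?_
      have hEW : 0 ≤ E / W := by positivity
      obtain ⟨D, hD⟩ : ∃ D, D = |L i z - ctr| / W := ⟨_, rfl⟩
      obtain ⟨X, hX⟩ : ∃ X, X = |L r v - L i z| / W := ⟨_, rfl⟩
      obtain ⟨Y, hY⟩ : ∃ Y, Y = |L k y - ctr| / W := ⟨_, rfl⟩
      have hD0 : 0 ≤ D := by rw [hD]; positivity
      have hX0 : 0 ≤ X := by rw [hX]; positivity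
      have hY0 : 0 ≤ Y := by rw [hY]; positivity
      have hYa : a ≤ Y := by rw [hY, le_div_iff₀ hW]; exact hy
      have hDb : D ≤ b := by
        rw [hD, div_le_iff₀ hW]
        exact hS i z hki hie hz
      have g1 : Y - D ≤ |L i z - L k y| / W := by
        rw [hD, hY, ← sub_div]
        refine div_le_div_of_nonneg_right ?_ hW.le
        have := abs_sub_abs_le_abs_sub (L k y - ctr) (L i z - ctr)
        rw [show L k y - ctr - (L i z - ctr) = L k y - L i z by ring] at this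
        rwa [abs_sub_comm (L i z) (L k y)]
      have g2 : |L r v - ctr| / W ≤ X + D := by
        rw [hX, hD, ← add_div]
        refine div_le_div_of_nonneg_right ?_ hW.le
        have t1 := abs_add_le (L r v - L i z) (L i z - ctr)
        rwa [show L r v - L i z + (L i z - ctr) = L r v - ctr by ring] at t1
      have m1 : E / W * |L i z - L k y| = E * (|L i z - L k y| / W) := by ring
      have m2 : E / W * |L r v - L i z| = E * X := by rw [hX]; ring
      have m3 : E / W * |L r v - ctr| = E * (|L r v - ctr| / W) := by ring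
      rw [← hD, ← hY, mul_assoc c', mul_assoc c', mul_assoc σ, m1, m2, m3]
      have u3 := hU Y hY0
      have u4 := hU D hD0
      have q1 : U Y - c' * (|L i z - L k y| / W) + (U D - c' * X) + (Q₂ + σ * (|L r v - ctr| / W)) ≤ cst := by
        rw [hcst]
        have v1 := mul_le_mul_of_nonneg_left g1 hc.le
        have v2 := mul_le_mul_of_nonneg_left g2 hσ0
        have v3 : σ * X ≤ c' / 4 * X := mul_le_mul_of_nonneg_right hσ hX0
        have v4 : σ * D ≤ c' / 4 * D := mul_le_mul_of_nonneg_right hσ hD0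
        have v5 : c' * D ≤ c' * b := mul_le_mul_of_nonneg_left hDb hc.le
        have v6 : c' * a ≤ c' * Y := mul_le_mul_of_nonneg_left hYa hc.le
        have v8 : 0 ≤ c' * X := by positivity
        nlinarith
      have q2 := mul_le_mul_of_nonneg_right q1 hE
      calc _ = (U Y - c' * (|L i z - L k y| / W) + (U D - c' * X) + (Q₂ + σ * (|L r v - ctr| / W))) * E := by ring
        _ ≤ cst * E := q2
    have h6 : 0 ≤ ρ k y * A k r := mul_nonneg hρk.le hA1
    exact mul_le_mul_of_nonneg_right (mul_le_mul_of_nonneg_left h5 h6) hB.le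
  -- the sum
  obtain ⟨Tm, hTm⟩ : ∃ Tm, Tm = ρ k y * A k r * Real.exp (cst * E) * B := ⟨_, rfl⟩
  have hTm0 : 0 ≤ Tm := by
    rw [hTm]
    have := hρ k y
    positivity
  obtain ⟨n, hnn⟩ : ∃ n : ℝ, n = ((r - k : ℕ) : ℝ) + 1 := ⟨_, rfl⟩
  have hn1 : 1 ≤ n := by rw [hnn]; have : (0 : ℝ) ≤ ((r - k : ℕ) : ℝ) := Nat.cast_nonneg _; linarith
  have row : ∀ i ∈ Ico (k + 1) (e + 1), bf w p (gT w p N S i) k (i - k) y ≤ n * (n * Tm) := by
    intro i hi
    obtain ⟨h1, h2⟩ := mem_Ico.1 hi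
    rw [bf_ker]
    have h4 : ∀ z ∈ Icc y (y + ((i - k : ℕ) : ℤ)), ker w p k (i - k) y z * gT w p N S i z ≤ n * Tm := by
      intro z _
      by_cases hz : (i, z) ∈ S
      · have h5 : gT w p N S i z = bw w p i (N - i) z := if_pos hz
        rw [h5, show N - i = (r - i) + (N - r) by omega, bw_ker, show i + (r - i) = r by omega, mul_sum]
        refine (sum_le_card_nsmul _ _ Tm fun v _ => ?_).trans ?_
        · rw [hTm]
          exact term i z v (by omega) (by omega) hz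
        · rw [nsmul_eq_mul, Int.card_Icc]
          refine mul_le_mul_of_nonneg_right ?_ hTm0
          rw [hnn]
          have h6 : (z + ((r - i : ℕ) : ℤ) + 1 - z).toNat ≤ (r - k) + 1 := by omega
          exact_mod_cast h6
      · have h5 : gT w p N S i z = 0 := if_neg hz
        rw [h5, mul_zero]
        positivity
    refine (sum_le_card_nsmul _ _ (n * Tm) h4).trans ?_
    rw [nsmul_eq_mul, Int.card_Icc]
    refine mul_le_mul_of_nonneg_right ?_ (by positivity)
    rw [hnn]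
    have h6 : (y + ((i - k : ℕ) : ℤ) + 1 - y).toNat ≤ (r - k) + 1 := by omega
    exact_mod_cast h6
  have tot : ∑ i ∈ Ico (k + 1) (e + 1), bf w p (gT w p N S i) k (i - k) y ≤ n * (n * (n * Tm)) := by
    refine (sum_le_card_nsmul _ _ _ row).trans ?_
    rw [nsmul_eq_mul, Nat.card_Ico]
    refine mul_le_mul_of_nonneg_right ?_ (by positivity)
    rw [hnn]
    have h6 : e + 1 - (k + 1) ≤ (r - k) + 1 := by omega
    exact_mod_cast h6
  have hn3 : n * (n * (n * Tm)) ≤ Real.exp (3 * E) * Tm := by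
    have h1 : n * (n * n) ≤ Real.exp E * (Real.exp E * Real.exp E) := by
      have h0 : n ≤ Real.exp E := by rw [hnn]; exact hn
      have h2 : n * n ≤ Real.exp E * Real.exp E := mul_le_mul h0 h0 (by linarith) (Real.exp_pos _).le
      exact mul_le_mul h0 h2 (by positivity) (Real.exp_pos _).le
    have h2 : Real.exp (3 * E) = Real.exp E * (Real.exp E * Real.exp E) := by
      rw [← Real.exp_add, ← Real.exp_add]
      congr 1
      ring
    rw [h2]
    calc n * (n * (n * Tm)) = n * (n * n) * Tm := by ring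
      _ ≤ _ := mul_le_mul_of_nonneg_right h1 hTm0
  refine tot.trans (hn3.trans ?_)
  have fin : Real.exp (3 * E) * Tm ≤ Real.exp (-(β * E)) * (ρ k y * (A k r * Real.exp (-(Q₁ * E))) * B) := by
    have h1 : Real.exp (3 * E) * Real.exp (cst * E) ≤ Real.exp (-(β * E)) * Real.exp (-(Q₁ * E)) := by
      rw [← Real.exp_add, ← Real.exp_add]
      refine Real.exp_le_exp.2 ?_
      have h2 : (3 + cst) * E ≤ (-β - Q₁) * E := mul_le_mul_of_nonneg_right (by rw [hcst]; linarith) hE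
      linarith
    have h2 : 0 ≤ ρ k y * A k r * B := by
      have := hρ k y
      positivity
    calc Real.exp (3 * E) * Tm = Real.exp (3 * E) * Real.exp (cst * E) * (ρ k y * A k r * B) := by rw [hTm]; ring
      _ ≤ Real.exp (-(β * E)) * Real.exp (-(Q₁ * E)) * (ρ k y * A k r * B) := mul_le_mul_of_nonneg_right h1 h2
      _ = _ := by ring
  exact fin.trans (mul_le_mul_of_nonneg_left lo (Real.exp_pos _).le)

end

end Pool.Agent.W_7d29a1_C1.FW75
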