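import Pool.Agent.W_7d29a1_C1.FwE75
import Pool.Agent.W_7d29a1_C1.StayF78
import Pool.Agent.W_7d29a1_C1.Ou37

/-!
MP_7d29a1_pr, attractor route [C1], TAME, the clause `Fw` of `hT` (helper75), part 2: FORWARD STEEPNESS FROM THE LEVELS.

* **`fk_slab75`** : ONE start `(k, y)`, `k < er`, `a w ≤ |lat - ctr|`, chain of slabs (it may depend on the start) over the rows `[k, r]`
  (`er ≤ r`), lower bound of the mass of the start (asked only if `|lat - ctr| < a w + 1`), growth of `bw / wt` at the row `r` with slope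
  `≤ c / 32` ⇒ the line of `(k, y)` in `Fw Γ G a b (β E) u κ`;
* `lo_of75` : the lower bound of a start from ONE kernel to one site of the row `r` and a lower bound of `bw / wt` there;
* `D2_ou75`, `lo_ou75` : the two inputs at the row `r = re` from the sets `OuD`, `OuT` (any scale function: `Ou`, `PR`) of helper37.
-/

set_option autoImplicit false

namespace Pool.Agent.W_7d29a1_C1.FW75

open MeasureTheory ProbabilityTheory Filter Topology Finset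
open Pool.Agent.W_7d29a1_F Pool.Agent.W_7d29a1_h4g Pool.Agent.W_7d29a1_H Pool.Agent.W_7d29a1_HS
open Pool.Agent.W_7d29a1_C1.K91 (wt wt_pos measurable_wt)
open Pool.Agent.W_7d29a1_C1.K91P
open Pool.Agent.W_7d29a1_C1.H60
open Pool.Agent.W_7d29a1_C1.G37 (Gm)
open Pool.Agent.W_7d29a1_C1.U16 (lat16 Far16 ker ker_zero ker_nonneg)
open Pool.Agent.W_7d29a1_C1.FarK89 (gr LQ LQ_nonneg gr_nonneg gr_one_le gr_mono)
open Pool.Agent.W_7d29a1_C1.H75 (hc)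
open Pool.Agent.W_7d29a1_C1.FarW89 (nk bl bl_add ker_nk Slabs far_up far_low89 lt)
open Pool.Agent.W_7d29a1_C1.K78 (lev_pay rows78)
open Pool.Agent.W_7d29a1_C1.Sy78 (sp env_all ker_bw_le)
open Pool.Agent.W_7d29a1_C1.SD53 (bW bW_pos VK VK_mem VK_stop VK_out VK_in Fw Fz Ii er)

noncomputable section

variable {μ : Measure ℝ} {s : ℝ} [IsProbabilityMeasure μ] {c C : ℝ} {n₀ : ℕ}

omit [IsProbabilityMeasure μ] in
/-- **One kernel, one site** ⇒ the lower bound of the start. -/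
theorem lo_of75 {Γ : Cx} {ω : Env} {k r : ℕ} {y z : ℤ} {E Q₁ Q₃ B : ℝ} (hkr : k ≤ r) (hr : r ≤ Γ.N)
    (h1 : Real.exp (-(Q₁ * E)) ≤ nk μ s Γ.h ω Γ.p Γ.M k (r - k) y z)
    (h2 : B ≤ Real.exp (Q₃ * E) * (bw (wt ω) Γ.p r (Γ.N - r) z / wt ω r z)) :
    wt ω k y * (Real.exp (((r - k : ℕ) : ℝ) * lam μ s + Γ.h * sl μ s * bl Γ.M k (r - k)) * Real.exp (-((Q₁ + Q₃) * E))) * B ≤
      bw (wt ω) Γ.p k (Γ.N - k) y := by
  refine le_trans ?_ (ker_bw_le (wt_pos ω) Γ.p_pos hkr hr y z)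
  have e1 := ker_nk (μ := μ) (s := s) (h := Γ.h) (η := ω) (p := Γ.p) (M := Γ.M) k (r - k) y z
  rw [show k + (r - k) = r by omega] at e1
  rw [e1]
  have hy := wt_pos ω k y
  have hz := wt_pos ω r z
  obtain ⟨X, hX⟩ : ∃ X, X = Real.exp (((r - k : ℕ) : ℝ) * lam μ s + Γ.h * sl μ s * bl Γ.M k (r - k)) := ⟨_, rfl⟩
  have hX0 : 0 < X := by rw [hX]; exact Real.exp_pos _
  rw [← hX]
  have hb := bw_pos (wt_pos ω) Γ.p_pos (Γ.N - r) r z
  obtain ⟨b, hb'⟩ : ∃ b, b = bw (wt ω) Γ.p r (Γ.N - r) z := ⟨_, rfl⟩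
  rw [← hb'] at h2 hb ⊢
  have h3 : Real.exp (-(Q₃ * E)) * B ≤ b / wt ω r z := by
    have h4 := mul_le_mul_of_nonneg_left h2 (Real.exp_pos (-(Q₃ * E))).le
    rwa [← mul_assoc, ← Real.exp_add, neg_add_cancel, Real.exp_zero, one_mul] at h4
  have h5 : Real.exp (-(Q₁ * E)) * (Real.exp (-(Q₃ * E)) * B) ≤ nk μ s Γ.h ω Γ.p Γ.M k (r - k) y z * (b / wt ω r z) := by
    have h6 := mul_le_mul_of_nonneg_left h3 (Real.exp_pos (-(Q₁ * E))).le
    exact h6.trans (mul_le_mul_of_nonneg_right h1 (div_pos hb hz).le)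
  have e2 : Real.exp (-((Q₁ + Q₃) * E)) = Real.exp (-(Q₁ * E)) * Real.exp (-(Q₃ * E)) := by
    rw [← Real.exp_add]; congr 1; ring
  calc wt ω k y * (X * Real.exp (-((Q₁ + Q₃) * E))) * B = wt ω k y * X * (Real.exp (-(Q₁ * E)) * (Real.exp (-(Q₃ * E)) * B)) := by
        rw [e2]; ring
    _ ≤ wt ω k y * X * (nk μ s Γ.h ω Γ.p Γ.M k (r - k) y z * (b / wt ω r z)) := mul_le_mul_of_nonneg_left h5 (by positivity)
    _ = X * (wt ω k y / wt ω r z) * nk μ s Γ.h ω Γ.p Γ.M k (r - k) y z * b := by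
        field_simp

/-- **FORWARD STEEPNESS FROM THE SLABS, ONE START** (the chain may depend on the start). -/
theorem fk_slab75 (h0 : In μ s c C n₀) (P : ℕ) : ∃ n₁ : ℕ, 1 ≤ n₁ ∧ ∀ Q : ℝ, 0 ≤ Q → ∃ CU : ℝ, 0 < CU ∧
    ∀ {θ K : ℝ} {Γ : Cx} {G : Gm} {ω : Env} {o : Pt} {r T N : ℕ → ℕ} {q : ℕ → ℝ} {bs : ℕ → Pt} {m₁ m₂ Tt : ℕ}, m₁ ≤ m₂ → Γ.s = s →
    G.v = sl μ s → 0 ≤ G.v → G.v ≤ 1 → Slabs μ s c θ K Γ.h P ω o r T N q bs m₁ m₂ Tt n₁ Q →
    ∀ (u : ℕ) (κ : ℤ × ℤ) (a b a' b' σ Q₁ Q₂ β B : ℝ), |((o.2 : ℝ) - G.v * (o.1 : ℝ)) - G.ctr u κ| ≤ 1 → b < a →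
    a' * wd μ s Tt ≤ a * G.w u → b * G.w u ≤ b' * wd μ s Tt → 0 ≤ σ → σ ≤ c / 32 →
    er Γ G u κ ≤ r m₂ → r m₂ ≤ Γ.N → ((r m₂ - r m₁ : ℕ) : ℝ) + 1 ≤ Real.exp (EE μ s Tt) → 0 < B →
    (∀ v : ℤ, bw (wt ω) Γ.p (r m₂) (Γ.N - r m₂) v / wt ω (r m₂) v ≤
      Real.exp (Q₂ * EE μ s Tt + σ * (EE μ s Tt / wd μ s Tt) * |G.lat (r m₂, v) - G.ctr u κ|) * B) →
    β + (2 * CU + 3 / 2 * (c / 8) * b' + Q₁ + Q₂ + 3) ≤ 3 / 4 * (c / 8) * a' →
    ∀ (k : ℕ) (y : ℤ), r m₁ ≤ k → k < er Γ G u κ → a * G.w u ≤ |G.lat (k, y) - G.ctr u κ| →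
      (|G.lat (k, y) - G.ctr u κ| < a * G.w u + 1 →
        wt ω k y * (Real.exp (((r m₂ - k : ℕ) : ℝ) * lam μ s + Γ.h * sl μ s * bl Γ.M k (r m₂ - k)) * Real.exp (-(Q₁ * EE μ s Tt))) * B ≤
          bw (wt ω) Γ.p k (Γ.N - k) y) →
      wt ω k y * (VK Γ ω (er Γ G u κ) (sp G u κ b) (Ii G u κ a) (k + 1) y +
        Γ.p k * VK Γ ω (er Γ G u κ) (sp G u κ b) (Ii G u κ a) (k + 1) (y + 1)) ≤ Real.exp (-(β * EE μ s Tt)) * bW Γ ω k y := by
  have hc0 := h0.c0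
  obtain ⟨C₅, hC₅, m₀, hm₀, H⟩ := env_all h0 P
  obtain ⟨m₃, hm₃⟩ := eventually_atTop.1 ((wd_tendsto h0).eventually_ge_atTop 1)
  refine ⟨max m₀ m₃, hm₀.trans (le_max_left _ _), fun Q hQ => ?_⟩
  have hΛ : 0 ≤ LQ (2 * P) (c / 8) (C₅ * Q) := LQ_nonneg _ (by positivity)
  obtain ⟨C₁, hC₁, hpay⟩ := lev_pay (2 * P) hΛ (show 0 < c / 8 / 4 by positivity)
  refine ⟨C₁ + Q, by positivity, ?_⟩
  intro θ K Γ G ω o r T N q bs m₁ m₂ Tt hm hs hv hv0 hv1 S u κ a b a' b' σ Q₁ Q₂ β B ho hab haw hbw hσ0 hσ her hrN hn hB D2 hβ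
    k y hk1 hke hy0 lo
  have S' : Slabs μ s c θ K Γ.h P ω o r T N q bs m₁ m₂ Tt m₀ Q :=
    { S with
      Tt1 := (le_max_left _ _).trans S.Tt1
      T1 := fun u hu hub => (le_max_left _ _).trans (S.T1 u hu hub) }
  have hw1 : 1 ≤ wd μ s Tt := hm₃ Tt ((le_max_right _ _).trans S.Tt1)
  have hw0 : 0 < wd μ s Tt := by linarith
  have hE0 : 0 < EE μ s Tt := EE_pos _
  have hp : ∀ k, k < Γ.M → Γ.p k = Real.exp (s + Γ.h) := fun k hk => by
    unfold Cx.p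
    rw [if_pos hk, hs]
  have hp' : ∀ k, Γ.M ≤ k → Γ.p k = Real.exp s := fun k hk => by
    unfold Cx.p
    rw [if_neg (not_lt.2 hk), hs]
  have env := fun k i h1 h2 h3 x y => H hm hp hp' S' k i h1 h2 h3 x y
  have hwu := G.w_pos u
  have hbw' := mul_lt_mul_of_pos_right hab hwu
  have hkr : k < r m₂ := lt_of_lt_of_le hke her
  -- far starts
  rcases le_or_gt (a * G.w u + 1) |G.lat (k, y) - G.ctr u κ| with hfar | hnear
  · have nS : ∀ {k : ℕ} {y : ℤ}, a * G.w u ≤ |G.lat (k, y) - G.ctr u κ| → (k, y) ∉ sp G u κ b := fun {k y} h3 h4 => by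
      have h5 : |G.lat (k, y) - G.ctr u κ| ≤ b * G.w u := h4
      linarith
    have nI : ∀ {k : ℕ} {y : ℤ}, a * G.w u ≤ |G.lat (k, y) - G.ctr u κ| → (k, y) ∉ Ii G u κ a := fun {k y} h3 h4 => by
      have h5 : |G.lat (k, y) - G.ctr u κ| < a * G.w u := h4
      linarith
    obtain ⟨s1, s2⟩ : a * G.w u ≤ |G.lat (k + 1, y) - G.ctr u κ| ∧ a * G.w u ≤ |G.lat (k + 1, y + 1) - G.ctr u κ| := by
      have p1 := SD53.lat_pred hv0 hv1 k y (le_refl |G.lat (k + 1, y) - G.ctr u κ|)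
      have p2 := SD53.lat_pred hv0 hv1 k (y + 1) (le_refl |G.lat (k + 1, y + 1) - G.ctr u κ|)
      rw [add_sub_cancel_right] at p2
      exact ⟨by linarith [p1.1], by linarith [p2.2]⟩
    rw [VK_out (nS s1) (nI s1), VK_out (nS s2) (nI s2), mul_zero, add_zero, mul_zero]
    exact mul_nonneg (Real.exp_pos _).le (bW_pos _ _ _ _).le
  refine (start_le hke y).trans ?_
  -- the envelope of a kernel in the letters of `fw_env75`
  have upk : ∀ (k i : ℕ) (y z : ℤ), r m₁ ≤ k → k < i → i ≤ r m₂ → ker (wt ω) Γ.p k (i - k) y z ≤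
      wt ω k y / wt ω i z * (Real.exp (((i - k : ℕ) : ℝ) * lam μ s + Γ.h * sl μ s * bl Γ.M k (i - k)) *
        Real.exp ((LQ (2 * P) (c / 8) (C₅ * Q) * gr (2 * P) (|G.lat (k, y) - G.ctr u κ| / wd μ s Tt + 1) + Q) *
          EE μ s Tt - c / 8 * (EE μ s Tt / wd μ s Tt) * |G.lat (i, z) - G.lat (k, y)|)) := by
    intro k i y z h1 h2 h3
    have g1 := env k i h1 h2 h3 y z
    have e1 := ker_nk (μ := μ) (s := s) (h := Γ.h) (η := ω) (p := Γ.p) (M := Γ.M) k (i - k) y z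
    rw [show k + (i - k) = i by omega] at e1
    rw [e1]
    have hy := wt_pos ω k y
    have hz := wt_pos ω i z
    have g2 : nk μ s Γ.h ω Γ.p Γ.M k (i - k) y z ≤ Real.exp ((LQ (2 * P) (c / 8) (C₅ * Q) * gr (2 * P) (|G.lat (k, y) - G.ctr u κ| / wd μ s Tt + 1) + Q) *
        EE μ s Tt - c / 8 * (EE μ s Tt / wd μ s Tt) * |G.lat (i, z) - G.lat (k, y)|) := by
      refine g1.trans (Real.exp_le_exp.2 ?_)
      have e2 : hc μ s c Tt / 8 = c / 8 * (EE μ s Tt / wd μ s Tt) := by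
        unfold hc
        ring
      have e3 : ((z - y : ℤ) : ℝ) - sl μ s * ((i - k : ℕ) : ℝ) = G.lat (i, z) - G.lat (k, y) := by
        unfold Gm.lat
        rw [hv, Nat.cast_sub h2.le]
        push_cast
        ring
      rw [e2, e3]
      have g3 : |lat16 μ s o ((k : ℤ), y)| / wd μ s Tt ≤ |G.lat (k, y) - G.ctr u κ| / wd μ s Tt + 1 := by
        have g4 : |lat16 μ s o ((k : ℤ), y)| ≤ |G.lat (k, y) - G.ctr u κ| + 1 := by
          have e4 : lat16 μ s o ((k : ℤ), y) = (G.lat (k, y) - G.ctr u κ) - (((o.2 : ℝ) - G.v * (o.1 : ℝ)) - G.ctr u κ) := by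
            unfold lat16 Gm.lat
            rw [hv]
            push_cast
            ring
          rw [e4]
          exact (abs_sub _ _).trans (by linarith)
        rw [div_add' _ _ _ hw0.ne', one_mul]
        exact div_le_div_of_nonneg_right (by linarith) hw0.le
      have g5 := gr_mono (2 * P) (show 0 ≤ |lat16 μ s o ((k : ℤ), y)| / wd μ s Tt by positivity) g3
      have g6 := mul_le_mul_of_nonneg_right (add_le_add (mul_le_mul_of_nonneg_left g5 hΛ) (le_refl Q)) hE0.le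
      linarith
    calc Real.exp (((i - k : ℕ) : ℝ) * lam μ s + Γ.h * sl μ s * bl Γ.M k (i - k)) * (wt ω k y / wt ω i z) * nk μ s Γ.h ω Γ.p Γ.M k (i - k) y z
        = wt ω k y / wt ω i z * (Real.exp (((i - k : ℕ) : ℝ) * lam μ s + Γ.h * sl μ s * bl Γ.M k (i - k)) * nk μ s Γ.h ω Γ.p Γ.M k (i - k) y z) := by ring
      _ ≤ _ := mul_le_mul_of_nonneg_left (mul_le_mul_of_nonneg_left g2 (Real.exp_pos _).le) (div_pos hy hz).le
  refine fw_env75 (w := wt ω) (p := Γ.p) (N := Γ.N) (e := er Γ G u κ) (S := sp G u κ b) (wt_pos ω) Γ.p_pos (r := r m₂) hrN her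
    (L := fun k y => G.lat (k, y)) (ctr := G.ctr u κ) (W := wd μ s Tt) (E := EE μ s Tt) (c' := c / 8)
    (a := a') (b := b') (σ := σ) (CU := C₁ + Q) (Q₁ := Q₁) (Q₂ := Q₂) (β := β) (B := B) (ρ := wt ω) (fun k y => wt_pos ω k y)
    (A := fun k i => Real.exp (((i - k : ℕ) : ℝ) * lam μ s + Γ.h * sl μ s * bl Γ.M k (i - k)))
    (U := fun X => LQ (2 * P) (c / 8) (C₅ * Q) * gr (2 * P) (X + 1) + Q) hw0 hE0.le (by positivity) hσ0
    (by linarith) hB ?_ ?_ (fun k i => (Real.exp_pos _).le) ?_ ?_ D2 ?_ ?_ hβ (haw.trans hy0) ?_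
  · intro X hX
    have := hpay X hX
    linarith
  · intro i h2 h3
    show Real.exp _ * Real.exp _ = Real.exp _
    rw [← Real.exp_add]
    congr 1
    have e1 : r m₂ - k = (i - k) + (r m₂ - i) := by omega
    have e2 : bl Γ.M k (r m₂ - k) = bl Γ.M k (i - k) + bl Γ.M i (r m₂ - i) := by
      rw [e1, bl_add, show k + (i - k) = i by omega]
    rw [e2, show ((r m₂ - k : ℕ) : ℝ) = ((i - k : ℕ) : ℝ) + ((r m₂ - i : ℕ) : ℝ) by rw [e1]; push_cast; ring]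
    push_cast
    ring
  · intro i z h1 h2 _
    exact upk k i y z hk1 h1 (h2.trans her)
  · intro i z v h1 h2 h3
    rcases eq_or_lt_of_le (h2.trans her) with h4 | h4
    · -- the last row
      subst h4
      show ker (wt ω) Γ.p (r m₂) (r m₂ - r m₂) z v ≤ wt ω (r m₂) z / wt ω (r m₂) v * (Real.exp (((r m₂ - r m₂ : ℕ) : ℝ) * lam μ s + Γ.h * sl μ s * bl Γ.M (r m₂) (r m₂ - r m₂)) *
        Real.exp ((LQ (2 * P) (c / 8) (C₅ * Q) * gr (2 * P) (|G.lat (r m₂, z) - G.ctr u κ| / wd μ s Tt + 1) + Q) *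
          EE μ s Tt - c / 8 * (EE μ s Tt / wd μ s Tt) * |G.lat (r m₂, v) - G.lat (r m₂, z)|))
      have hz := wt_pos ω (r m₂) z
      have hv' := wt_pos ω (r m₂) v
      rw [Nat.sub_self, ker_zero]
      split_ifs with g
      · subst g
        rw [div_self hv'.ne', one_mul, sub_self, abs_zero, mul_zero, sub_zero]
        have e2 : bl Γ.M (r m₂) 0 = 0 := by unfold bl; simp
        rw [e2]
        simp only [Nat.cast_zero, zero_mul, mul_zero, add_zero, Real.exp_zero, one_mul]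
        refine Real.one_le_exp ?_
        have g2 : 0 ≤ gr (2 * P) (|G.lat (r m₂, v) - G.ctr u κ| / wd μ s Tt + 1) := gr_nonneg _ (by positivity)
        positivity
      · positivity
    · exact upk i (r m₂) z v (by omega) h4 le_rfl
  · intro i z _ _ h2
    have h3 : |G.lat (i, z) - G.ctr u κ| ≤ b * G.w u := h2
    exact h3.trans hbw
  · refine le_trans ?_ hn
    have h2 : r m₂ - k ≤ r m₂ - r m₁ := by omega
    have h3 : ((r m₂ - k : ℕ) : ℝ) ≤ ((r m₂ - r m₁ : ℕ) : ℝ) := by exact_mod_cast h2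
    linarith
  · exact lo hnear

/-! ### The inputs at the row `re` from the sets of helper37 -/

section ou

variable {Γ : Cx} {G : Gm} {ω : Env}

omit [IsProbabilityMeasure μ] in
/-- `bw / wt` at a row is the gauge times the normalised mass. -/
theorem bw_div75 (k : ℕ) (y : ℤ) : bw (wt ω) Γ.p k (Γ.N - k) y / wt ω k y = Ou37.gam μ s Γ k 0 * Ou37.bn μ s Γ k y ω := by
  rw [Ou37.bw_bn (μ := μ) (s := s)]
  unfold Rt22.gg
  have h1 := wt_pos ω k y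
  have e : Ou37.gam μ s Γ k y = Ou37.gam μ s Γ k 0 := rfl
  rw [e]
  field_simp

omit [IsProbabilityMeasure μ] in
/-- **D2 at the row `re` from `OuD`** (`y₀` a site of the strip; `B` = its `bw / wt`). -/
theorem D2_ou75 {E : ℕ → ℝ} {R Q4 sgm sg : ℝ} {u : ℕ} {κ : ℤ × ℤ} {Tt : ℕ} {Q₂ σ : ℝ}
    (h : ω ∈ Ou37.OuD μ s Γ G E R Q4 sgm sg u κ) {y₀ : ℤ} (hy₀ : |G.lat (G.re u κ, y₀) - G.ctr u κ| ≤ R * G.w u)
    (hQ : Q4 * E u + sg ≤ Q₂ * EE μ s Tt) (hs : sgm * E u / G.w u ≤ σ * (EE μ s Tt / wd μ s Tt)) (v : ℤ) :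
    bw (wt ω) Γ.p (G.re u κ) (Γ.N - G.re u κ) v / wt ω (G.re u κ) v ≤
      Real.exp (Q₂ * EE μ s Tt + σ * (EE μ s Tt / wd μ s Tt) * |G.lat (G.re u κ, v) - G.ctr u κ|) *
        (bw (wt ω) Γ.p (G.re u κ) (Γ.N - G.re u κ) y₀ / wt ω (G.re u κ) y₀) := by
  rw [bw_div75 (μ := μ) (s := s), bw_div75 (μ := μ) (s := s)]
  have h1 := h v y₀ hy₀
  have g0 : 0 < Ou37.gam μ s Γ (G.re u κ) 0 := Ou37.gam_pos _ _
  have b0 := Ou37.bn_pos (μ := μ) (s := s) (Γ := Γ) (G.re u κ) y₀ ω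
  have h2 : (Q4 + sgm * (|G.lat (G.re u κ, v) - G.ctr u κ| / G.w u)) * E u + sg ≤
      Q₂ * EE μ s Tt + σ * (EE μ s Tt / wd μ s Tt) * |G.lat (G.re u κ, v) - G.ctr u κ| := by
    have h3 := mul_le_mul_of_nonneg_right hs (abs_nonneg (G.lat (G.re u κ, v) - G.ctr u κ))
    have e : sgm * (|G.lat (G.re u κ, v) - G.ctr u κ| / G.w u) * E u = sgm * E u / G.w u * |G.lat (G.re u κ, v) - G.ctr u κ| := by ring
    calc (Q4 + sgm * (|G.lat (G.re u κ, v) - G.ctr u κ| / G.w u)) * E u + sg = (Q4 * E u + sg) + sgm * (|G.lat (G.re u κ, v) - G.ctr u κ| / G.w u) * E u := by ring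
      _ ≤ _ := by rw [e]; linarith
  have h4 := h1.trans (mul_le_mul_of_nonneg_right (Real.exp_le_exp.2 h2) b0.le)
  calc _ ≤ Ou37.gam μ s Γ (G.re u κ) 0 * (Real.exp (Q₂ * EE μ s Tt + σ * (EE μ s Tt / wd μ s Tt) * |G.lat (G.re u κ, v) - G.ctr u κ|) *
        Ou37.bn μ s Γ (G.re u κ) y₀ ω) := mul_le_mul_of_nonneg_left h4 g0.le
    _ = _ := by ring

omit [IsProbabilityMeasure μ] in
/-- **The lower bound of `bw / wt` at a far site of the row `re` from `OuT`** (`PR J` : `E := fun u => E (u + J)`). -/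
theorem lo_ou75 {E : ℕ → ℝ} {R Q' sg : ℝ} {u : ℕ} {κ : ℤ × ℤ} {Tt : ℕ} {Q₃ : ℝ}
    (h : ω ∈ Ou37.OuT μ s Γ G E R Q' sg u κ) {y₀ z : ℤ} (hy₀ : |G.lat (G.re u κ, y₀) - G.ctr u κ| ≤ R * G.w u)
    (hz : |G.lat (G.re u κ, z) - G.ctr u κ| ≤ R * G.w u) (hQ : Q' * E u + sg ≤ Q₃ * EE μ s Tt) :
    bw (wt ω) Γ.p (G.re u κ) (Γ.N - G.re u κ) y₀ / wt ω (G.re u κ) y₀ ≤
      Real.exp (Q₃ * EE μ s Tt) * (bw (wt ω) Γ.p (G.re u κ) (Γ.N - G.re u κ) z / wt ω (G.re u κ) z) := by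
  rw [bw_div75 (μ := μ) (s := s), bw_div75 (μ := μ) (s := s)]
  have hr := G.ra_le_re u κ
  have h1 := h (G.re u κ, z) ⟨by show G.ra u κ ≤ G.re u κ + 1; omega, le_rfl, hz⟩ (G.re u κ, y₀) ⟨by show G.ra u κ ≤ G.re u κ + 1; omega, le_rfl, hy₀⟩
  have g0 : 0 < Ou37.gam μ s Γ (G.re u κ) 0 := Ou37.gam_pos _ _
  have b0 := Ou37.bn_pos (μ := μ) (s := s) (Γ := Γ) (G.re u κ) z ω
  have h4 := h1.trans (mul_le_mul_of_nonneg_right (Real.exp_le_exp.2 hQ) b0.le)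
  calc _ ≤ Ou37.gam μ s Γ (G.re u κ) 0 * (Real.exp (Q₃ * EE μ s Tt) * Ou37.bn μ s Γ (G.re u κ) z ω) :=
        mul_le_mul_of_nonneg_left h4 g0.le
    _ = _ := by ring

end ou

end

end Pool.Agent.W_7d29a1_C1.FW75
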