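import Pool.Agent.W_7d29a1_C1.TmR89
import Pool.Agent.W_7d29a1_C1.DfG94
import Pool.Agent.W_7d29a1_C1.Geo58
import Pool.Agent.W_7d29a1_C1.Tilt87

/-!
MP_7d29a1_pr, attractor route [C1], field `nu`: THE NUMBERS OF THE FORWARD CLAUSE over the grid (helper51). `sc51`, `cn51` : the scales and the
cuts of a contact. `FwNm51`, `fwNm51` : the eventual lines (force, number of rows, cone).
-/

set_option autoImplicit false

namespace Pool.Agent.W_7d29a1_C1.FwN51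

open MeasureTheory Finset Filter Topology
open Pool.Agent.W_7d29a1_F Pool.Agent.W_7d29a1_h4g Pool.Agent.W_7d29a1_H Pool.Agent.W_7d29a1_HS
open Pool.Agent.W_7d29a1_C1.T10
open Pool.Agent.W_7d29a1_C1.H60 (Cx Adm)
open Pool.Agent.W_7d29a1_C1.H8
open Pool.Agent.W_7d29a1_C1.TmR89 (Sc89)
open Pool.Agent.W_7d29a1_C1.TmG94 (ro94 Cn94)
open scoped ENNReal

noncomputable section

variable {μ : Measure ℝ}

/-! ### The grid -/

/-- The scales. -/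
theorem sc51 {s R C₀ : ℝ} {B h₀ K L : ℕ} {G : Gd} (g : GW μ s R B C₀ h₀ K L G) : Sc89 μ s B K C₀ (Tg h₀ K) where
  TK v hv := by
    rw [Tg_pos hv, Tg_pos (by omega), pow_succ]
    ring
  w3 v hv := by
    have h1 := g.small v hv
    have h2 : (1 : ℝ) ≤ v := by exact_mod_cast hv
    linarith
  wB := g.wB
  wB' := g.wB'
  w2 := g.w2

/-- The cuts of a contact. -/
theorem cn51 {s R C₀ : ℝ} {B h₀ K L : ℕ} {G : Gd} (g : GW μ s R B C₀ h₀ K L G) (x : ℕ × ℤ) : Cn94 μ s B G (Tg h₀ K) L x where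
  zle v hv hL := by
    rw [g.ok.z_dg hL x]
    exact Nat.le_add_right _ _
  zst v hv hL := by
    have h1 := g.ok.row_place (by omega : v ≤ v + 1) hL x
    have h2 : (G.z v x).1 = (G.z (v + 1) x).1 + (G.z v (G.rel (v + 1) x)).1 := by
      rw [g.ok.z_dg hL x]
      rfl
    have h3 : ∀ w, 1 ≤ w → Tg h₀ K w = 2 * G.H w := fun w hw => by
      rw [g.H w, Tg_pos hw]
      unfold Hg
      rw [max_eq_left hw]
      ring
    rw [h2, h3 v hv, h3 (v + 1) (by omega)]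
    omega
  lat v hv hL := g.lat_base' hv hL x

/-! ### The eventual lines -/

/-- **The numbers of the clause at the scale `n`.** -/
structure FwNm51 (μ : Measure ℝ) (s c : ℝ) (e e₀ ε : ℝ) (K Q x B n₁ K₂ Cn : ℕ) (C₀ c₂ δ' κ : ℝ) (n : ℕ) : Prop where
  m10 : 10 ≤ m8 K e n
  ε1 : 1 ≤ ε * m8 K e n
  h1 : n₁ ≤ h8 Q e₀ n
  TL : Tg (h8 Q e₀ n) K (m8 K e n + x) + 1 ≤ n
  /-- the force -/
  fo : ∀ Γ : Cx, Adm μ s c₂ δ' κ n Γ → 12 * (|Γ.h| * (Tg (h8 Q e₀ n) K (m8 K e n + x) : ℝ)) ≤ 1 ∧ ∀ v, 1 ≤ v → v ≤ m8 K e n + x →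
    C₀ * (|Γ.h| * wd μ s (Tg (h8 Q e₀ n) K v)) ≤ c / 4 * EE μ s (Tg (h8 Q e₀ n) K v)
  /-- the number of the rows -/
  ex : ∀ v, 1 ≤ v → (Tg (h8 Q e₀ n) K (m8 K e n + x) : ℝ) ≤ Real.exp (EE μ s (2 * Tg (h8 Q e₀ n) K v))
  /-- the cone -/
  cone : ∀ u : ℕ, ε * m8 K e n ≤ u → n₁ * K₂ ^ ((m8 K e n / 2 - u + 1) / Cn) ≤ Tg (h8 Q e₀ n) K (u + 1)

variable [IsProbabilityMeasure μ]

theorem fwNm51 {s c C : ℝ} {n₀ : ℕ} (hI : In μ s c C n₀) (hE9 : ∀ᶠ n : ℕ in atTop, (n : ℝ) ^ (1 / 9 : ℝ) ≤ EE μ s n)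
    {e e₀ ε : ℝ} (he : 0 < e) (he1 : e ≤ 1 / 32) (he₀ : 0 < e₀) (hee : e₀ ≤ e) (hε : 0 < ε) {K Q x B n₁ K₂ Cn : ℕ} (hK : 2 ≤ K)
    (hQ : 1 ≤ Q) (hK₂ : 1 ≤ K₂) (hKK : K₂ ≤ K) (hCn : 1 / ε ≤ Cn) {C₀ c₂ δ' κ : ℝ} (hC₀ : 1 ≤ C₀) (hδ' : 0 ≤ δ') :
    ∀ᶠ n : ℕ in atTop, FwNm51 μ s c e e₀ ε K Q x B n₁ K₂ Cn C₀ c₂ δ' κ n := by
  have hc0 := hI.c0
  have hlK : 0 < Real.log K := Real.log_pos (by exact_mod_cast (by omega : 1 < K))
  have hκm : 0 < e / (8 * Real.log K) := by positivity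
  have hlog : Tendsto (fun n : ℕ => e / (8 * Real.log K) * Real.log n) atTop atTop :=
    (Real.tendsto_log_atTop.comp tendsto_natCast_atTop_atTop).const_mul_atTop hκm
  have ev : ∀ {y : ℝ}, 0 < y → ∀ M : ℝ, ∀ᶠ n : ℕ in atTop, M ≤ (n : ℝ) ^ y := fun hy M =>
    ((tendsto_rpow_atTop hy).comp tendsto_natCast_atTop_atTop).eventually_ge_atTop M
  obtain ⟨kap, hkap⟩ : ∃ kap : ℝ, kap = min (1 / 12) (c / (4 * C₀)) := ⟨_, rfl⟩
  have hkap0 : 0 < kap := by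
    rw [hkap]
    exact lt_min (by norm_num) (by positivity)
  obtain ⟨n₂, htl⟩ := H60.tilt87 hI hE9 (e := e) (kap := kap) (c := c₂) (δ := δ') (κ := κ) he1 hδ' hkap0
  obtain ⟨n₃, hn₃⟩ := eventually_atTop.1 hE9
  have hlogn : ∀ᶠ n : ℕ in atTop, Real.log n ≤ (n : ℝ) ^ (e₀ / 36) :=
    ((isLittleO_log_rpow_atTop (show 0 < e₀ / 36 by positivity)).comp_tendsto tendsto_natCast_atTop_atTop).bound one_pos |>.mono
      fun n hn => by
        simp only [Function.comp_apply, Real.norm_eq_abs, one_mul] at hn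
        exact (le_abs_self _).trans (hn.trans (le_of_eq (abs_of_nonneg (by positivity))))
  filter_upwards [gridN8 (x := x) he he1 he₀ hee hK hQ, hlog.eventually_ge_atTop 10, hlog.eventually_ge_atTop (1 / ε), htl,
    ev (show 0 < e₀ / 4 by positivity) (n₁ : ℝ), ev (show 0 < e₀ / 4 by positivity) (n₂ : ℝ), ev (show 0 < e₀ / 4 by positivity) (n₃ : ℝ),
    hlogn, eventually_ge_atTop 2] with n hg h10 hε1 htl e1 e2 e3 hln hn2
  have hn1 : (1 : ℝ) ≤ n := by exact_mod_cast (by omega : 1 ≤ n)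
  have n0 : (0 : ℝ) < n := by linarith
  have hh : ∀ {a : ℕ}, (a : ℝ) ≤ (n : ℝ) ^ (e₀ / 4) → a ≤ h8 Q e₀ n := fun h => by exact_mod_cast h.trans hg.h1
  have T1 : ∀ v, 1 ≤ v → h8 Q e₀ n ≤ Tg (h8 Q e₀ n) K v := fun v hv => by
    rw [Tg_pos hv]
    have h1 : 1 ≤ K ^ v := Nat.one_le_pow _ _ (by omega)
    nlinarith
  have hTL := Ge58.T_lt58 hg (by omega : 1 ≤ K) (by linarith : e ≤ 1) hn2 (le_refl (m8 K e n + x))
  refine ⟨by exact_mod_cast h10.trans hg.m1, ?_, hh e1, hTL.2, fun Γ hA => ⟨?_, fun v hv hvL => ?_⟩, fun v hv => ?_, fun u hu => ?_⟩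
  · have h1 := hε1.trans hg.m1
    rw [div_le_iff₀ hε] at h1
    linarith
  · have h1 := (htl Γ hA (Tg (h8 Q e₀ n) K (m8 K e n + x)) (by linarith [hTL.1, Real.rpow_nonneg n0.le e])).1
    have h2 : kap ≤ 1 / 12 := hkap ▸ min_le_left _ _
    linarith
  · have h0 := (Ge58.T_lt58 hg (by omega : 1 ≤ K) (by linarith : e ≤ 1) hn2 hvL).1
    have h1 := (htl Γ hA (Tg (h8 Q e₀ n) K v) (by linarith [Real.rpow_nonneg n0.le e])).2 ((hh e2).trans (T1 v hv))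
    have h2 : kap ≤ c / (4 * C₀) := hkap ▸ min_le_right _ _
    have h3 := EE_pos (μ := μ) (s := s) (Tg (h8 Q e₀ n) K v)
    have h4 : C₀ * (kap * EE μ s (Tg (h8 Q e₀ n) K v)) ≤ c / 4 * EE μ s (Tg (h8 Q e₀ n) K v) := by
      have h5 : C₀ * kap ≤ c / 4 := by
        calc C₀ * kap ≤ C₀ * (c / (4 * C₀)) := mul_le_mul_of_nonneg_left h2 (by linarith)
          _ = c / 4 := by field_simp
      calc C₀ * (kap * EE μ s (Tg (h8 Q e₀ n) K v)) = C₀ * kap * EE μ s (Tg (h8 Q e₀ n) K v) := by ring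
        _ ≤ _ := mul_le_mul_of_nonneg_right h5 h3.le
    exact (mul_le_mul_of_nonneg_left h1 (by linarith)).trans h4
  · have h1 : EE μ s (h8 Q e₀ n) ≤ EE μ s (2 * Tg (h8 Q e₀ n) K v) := EE_mono (by have := T1 v hv; omega)
    have h2 := hn₃ (h8 Q e₀ n) (hh e3)
    have h3 : (n : ℝ) ^ (e₀ / 36) ≤ (h8 Q e₀ n : ℝ) ^ (1 / 9 : ℝ) := by
      calc (n : ℝ) ^ (e₀ / 36) = ((n : ℝ) ^ (e₀ / 4)) ^ (1 / 9 : ℝ) := by
            rw [← Real.rpow_mul n0.le]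
            congr 1
            ring
        _ ≤ _ := Real.rpow_le_rpow (by positivity) hg.h1 (by norm_num)
    have h4 : Real.log n ≤ EE μ s (2 * Tg (h8 Q e₀ n) K v) := ((hln.trans h3).trans h2).trans h1
    have h5 : (Tg (h8 Q e₀ n) K (m8 K e n + x) : ℝ) ≤ n := by exact_mod_cast (by omega : Tg (h8 Q e₀ n) K (m8 K e n + x) ≤ n)
    calc (Tg (h8 Q e₀ n) K (m8 K e n + x) : ℝ) ≤ n := h5
      _ = Real.exp (Real.log n) := (Real.exp_log n0).symm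
      _ ≤ _ := Real.exp_le_exp.2 h4
  · have hm1 : (1 : ℝ) ≤ ε * m8 K e n := by
      have h1 := hε1.trans hg.m1
      rw [div_le_iff₀ hε] at h1
      linarith
    have hu1 : 1 ≤ u := by
      have h1 : (1 : ℝ) ≤ u := hm1.trans hu
      exact_mod_cast h1
    have h2 : m8 K e n ≤ Cn * u := by
      have h3 : (m8 K e n : ℝ) ≤ Cn * u := by
        calc (m8 K e n : ℝ) = 1 / ε * (ε * m8 K e n) := by field_simp
          _ ≤ Cn * u := mul_le_mul hCn hu (by positivity) (Nat.cast_nonneg _)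
      exact_mod_cast h3
    have hCn0 : 0 < Cn := by
      have h3 : (0 : ℝ) < Cn := lt_of_lt_of_le (by positivity) hCn
      exact_mod_cast h3
    have h3 : (m8 K e n / 2 - u + 1) / Cn ≤ u := by
      have h6 : 1 ≤ Cn * u := Nat.mul_pos hCn0 hu1
      refine (Nat.div_le_div_right (c := Cn) (show m8 K e n / 2 - u + 1 ≤ Cn * u by omega)).trans ?_
      rw [Nat.mul_div_cancel_left _ hCn0]
    have h4 : K₂ ^ ((m8 K e n / 2 - u + 1) / Cn) ≤ K ^ (u + 1) :=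
      (Nat.pow_le_pow_right hK₂ (h3.trans (Nat.le_succ u))).trans (Nat.pow_le_pow_left hKK _)
    rw [Tg_pos (by omega)]
    have h5 := Nat.mul_le_mul (hh e1) h4
    calc n₁ * K₂ ^ ((m8 K e n / 2 - u + 1) / Cn) ≤ h8 Q e₀ n * K ^ (u + 1) := h5
      _ ≤ 2 * h8 Q e₀ n * K ^ (u + 1) := by
        rw [mul_assoc]
        omega

end

end Pool.Agent.W_7d29a1_C1.FwN51
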