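import Pool.Agent.W_7d29a1_C1.HpQ2
import Pool.Agent.W_7d29a1_C1.WrO57
import Pool.Agent.W_7d29a1_C1.PotT86

/-!
Both halves (MP_7d29a1_pr), attractor route [C1], SEP + TAME: THE CLAUSE OF THE SLOT `Ou`, FROM ONE THEOREM USED FIVE TIMES. (helper57)

* `ClQ.cut`, `ClQ.interc` : a clause cut at the scales close to `M`;
* `OuN57` : the set `Ou5` (WrO57) with ONE slope `sgm`: radii `rc, r0, R0, R2, R1`, every price is `sgm * radius`;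
* `clQ_Ou57` : the clause of `OuN57` from the clause of `Ou37.Ou` at all radii `≥ Rmin`; `clQ_Ou57'` : the same without cut;
* `evn_OuN57` : the slot `sOu`.
-/

set_option autoImplicit false

namespace Pool.Agent.W_7d29a1_C1.OQ57

open Finset MeasureTheory
open Pool.Agent.W_7d29a1_F hiding Bw G
open Pool.Agent.W_7d29a1_h4g Pool.Agent.W_7d29a1_HS
open Pool.Agent.W_7d29a1_H hiding ex gg
open Pool.Agent.W_7d29a1_C1.H60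
open Pool.Agent.W_7d29a1_C1.G37 (Gm Wok gmW)
open Pool.Agent.W_7d29a1_C1.P25 (Stb)
open Pool.Agent.W_7d29a1_C1.N49
open Pool.Agent.W_7d29a1_C1.Q49
open Pool.Agent.W_7d29a1_C1.PW86
open Pool.Agent.W_7d29a1_C1.Hp2
open Pool.Agent.W_7d29a1_C1.WO57
open scoped ENNReal

noncomputable section

variable {P : Pre} {Dd : Dat} {μ : Measure ℝ} {s : ℝ} {t : Tm} {k D : ℕ} {Fs : Gm → Finset (ℕ → ℕ)}
  {X Y : Cx → Gm → (ℕ → ℝ) → ℕ → ℤ × ℤ → Set Env} {e : Gm → ℕ}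

/-- A clause holds when it is cut. -/
theorem ClQ_cut (h : ClQ P Dd μ s t k D Fs X) : ClQ P Dd μ s t k D Fs fun Γ G E => cut86 G (e G) (X Γ G E) :=
  h.mono (Evn.of_all fun _ _ _ _ _ _ _ _ _ _ _ _ _ _ _ _ _ _ _ _ _ _ _ _ _ _ _ _ _ _ _ => sub_cut86)

/-- The intersection of two cut clauses. -/
theorem ClQ_interc (h : ClQ P Dd μ s t k D Fs fun Γ G E => cut86 G (e G) (X Γ G E))
    (h' : ClQ P Dd μ s t k D Fs fun Γ G E => cut86 G (e G) (Y Γ G E)) :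
    ClQ P Dd μ s t k D Fs fun Γ G E => cut86 G (e G) fun u κ => X Γ G E u κ ∩ Y Γ G E u κ :=
  (h.inter h').mono (Evn.of_all fun _ _ _ _ _ _ _ _ _ _ _ _ _ _ _ _ _ _ _ _ _ _ _ _ _ _ _ _ _ _ _ => cut_inter86)

/-- **The set of the slot `Ou` with one slope** `sgm`: radii `rc, r0` (with the profile) and `R0, R2, R1` (tame masses); prices `sgm * radius`. -/
abbrev OuN57 (μ : Measure ℝ) (s sgm rc r0 R0 R2 R1 : ℝ) (Γ : Cx) (G : Gm) (E : ℕ → ℝ) : ℝ → ℕ → ℤ × ℤ → Set Env :=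
  Ou5 μ s rc (sgm * rc) (sgm * rc) sgm r0 (sgm * r0) (sgm * r0) sgm R0 (sgm * R0) R2 (sgm * R2) R1 (sgm * R1) Γ G E

/-- The leaf: `Ou37.Ou` at the radius `R`, prices `sgm * R`, slope `sgm`. -/
abbrev OuL57 (μ : Measure ℝ) (s sgm R : ℝ) (Γ : Cx) (G : Gm) (E : ℕ → ℝ) (u : ℕ) (κ : ℤ × ℤ) : Set Env :=
  Ou37.Ou μ s Γ G E R (sgm * R) (sgm * R) sgm 0 u κ

/-- **THE CLAUSE OF THE SLOT `Ou`**, cut, from ONE leaf used five times. -/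
theorem clQ_Ou57 {sgm Rmin rc r0 R0 R2 R1 : ℝ}
    (h : ∀ R, Rmin ≤ R → ClQ P Dd μ s t k D Fs fun Γ G E => cut86 G (e G) (OuL57 μ s sgm R Γ G E)) (h1 : Rmin ≤ rc) (h2 : Rmin ≤ r0)
    (h3 : Rmin ≤ R0) (h4 : Rmin ≤ R2) (h5 : Rmin ≤ R1) :
    ClQ P Dd μ s t k D Fs fun Γ G E => cut86 G (e G) (OuN57 μ s sgm rc r0 R0 R2 R1 Γ G E 0) :=
  (ClQ_interc (h _ h1) (ClQ_interc (h _ h2) (ClQ_interc (h _ h3) (ClQ_interc (h _ h4) (h _ h5))))).mono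
    (Evn.of_all fun _ _ _ _ _ _ _ _ _ _ _ _ _ _ _ _ _ _ _ _ _ _ _ _ _ _ _ _ _ _ _ =>
      cut_mono86 fun _ h => ⟨h.1, h.2.1, h.2.2.1.1, h.2.2.2.1.1, h.2.2.2.2.1⟩)

/-- **THE CLAUSE OF THE SLOT `Ou`**, without cut. -/
theorem clQ_Ou57' {sgm Rmin rc r0 R0 R2 R1 : ℝ}
    (h : ∀ R, Rmin ≤ R → ClQ P Dd μ s t k D Fs (OuL57 μ s sgm R)) (h1 : Rmin ≤ rc) (h2 : Rmin ≤ r0)
    (h3 : Rmin ≤ R0) (h4 : Rmin ≤ R2) (h5 : Rmin ≤ R1) :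
    ClQ P Dd μ s t k D Fs fun Γ G E => OuN57 μ s sgm rc r0 R0 R2 R1 Γ G E 0 :=
  ((h _ h1).inter ((h _ h2).inter ((h _ h3).inter ((h _ h4).inter (h _ h5))))).mono
    (Evn.of_all fun _ _ _ _ _ _ _ _ _ _ _ _ _ _ _ _ _ _ _ _ _ _ _ _ _ _ _ _ _ _ _ =>
      fun _ h => ⟨h.1, h.2.1, h.2.2.1.1, h.2.2.2.1.1, h.2.2.2.2.1⟩)

/-- **THE SLOT `Ou`**, one slope. -/
theorem evn_OuN57 (hCd : P.Cr ≤ P.Cd) (sgm rc r0 R0 R2 R1 : ℝ) :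
    Evn P Dd μ s fun q _ _ _ _ Γ G mt τ0 E =>
      Stb Γ G mt q τ0 (fun u => P.Cr * E u) (bN P.Cd E) (fun u => E u / 16) (OuN57 μ s sgm rc r0 R0 R2 R1 Γ G E) :=
  evn_Ou5 hCd _ _ _ _ _ _ _ _ _ _ _ _ _ _

end

end Pool.Agent.W_7d29a1_C1.OQ57
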