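import Pool.Agent.W_7d29a1_C1.FwC75
import Pool.Agent.W_7d29a1_C1.OuQ57
import Pool.Agent.W_7d29a1_C1.HpE39

/-!
MP_7d29a1_pr, attractor route [C1], TAME (helper75): THE CLAUSES `Fw` AND `St` IN THE FORM `ClQ`, the numbers of `Evn` inserted.

* `evn_nu75` : the letters and numbers which `fw_own75` (FwC75) and `st_own78` (StT78) ask;
* `ClQ_own75` : a clause may be enlarged at the owners; `ClQ_ownc75` : the same, cut;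
* **`fwQ75`** : `ClQ` of `Fw Γ G a b (β E u)` from `ClQ` of `SlF75`, `DT78` and of the slot `Ou` at the radius `a + 2` with its own slope;
* **`stQ75`** : `ClQ` of `Sy78.St Γ G a b ((βc + 1/16) E u)` from `ClQ` of `SlT78` and `DT78`.
-/

set_option autoImplicit false

namespace Pool.Agent.W_7d29a1_C1.FW75

open MeasureTheory ProbabilityTheory Filter Topology Finset
open Pool.Agent.W_7d29a1_F hiding Bw G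
open Pool.Agent.W_7d29a1_h4g Pool.Agent.W_7d29a1_HS
open Pool.Agent.W_7d29a1_H hiding ex gg
open Pool.Agent.W_7d29a1_C1.H60
open Pool.Agent.W_7d29a1_C1.G37 (Gm Wok gmW)
open Pool.Agent.W_7d29a1_C1.SF98
open Pool.Agent.W_7d29a1_C1.N49
open Pool.Agent.W_7d29a1_C1.PW86
open Pool.Agent.W_7d29a1_C1.Dep6
open Pool.Agent.W_7d29a1_C1.Q49
open Pool.Agent.W_7d29a1_C1.Hp2
open Pool.Agent.W_7d29a1_C1.Hp39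
open Pool.Agent.W_7d29a1_C1.OQ57 (OuL57)
open Pool.Agent.W_7d29a1_C1.SD53 (Fw)
open Pool.Agent.W_7d29a1_C1.Sy78 (rt78 DT78 SlT78 st_own78)
open scoped ENNReal

noncomputable section

/-- The letters and numbers at the own slabs. -/
structure Nu75 (μ : Measure ℝ) (s : ℝ) (Kr n₁ : ℕ) (Γ : Cx) (G : Gm) (mt : ℕ) (E : ℕ → ℝ) : Prop where
  hK : G.K = Kr
  hs : Γ.s = s
  hv : G.v = sl μ s
  hw : ∀ u, G.w u = wd μ s (G.T u)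
  hE : E = fun u => EE μ s (G.T u)
  hT : n₁ ≤ G.T0
  hM : G.M ≤ mt
  hN : (Γ.N : ℝ) + 1 ≤ Real.exp (EE μ s G.T0)

section Cl

variable {P : Pre} {Dd : Dat} {μ : Measure ℝ} {s : ℝ} {t : Tm} {k D : ℕ} {Fs : Gm → Finset (ℕ → ℕ)}
  {X Y : Cx → Gm → (ℕ → ℝ) → ℕ → ℤ × ℤ → Set Env}

theorem evn_nu75 [IsProbabilityMeasure μ] {c C : ℝ} {n₀ : ℕ} (h0 : In μ s c C n₀) (n₁ : ℕ) :
    Evn P Dd μ s fun _ _ _ _ _ Γ G mt _ E => Nu75 μ s Dd.K n₁ Γ G mt E := by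
  refine ((((evn_geo (P := P) (Dd := Dd) (μ := μ) (s := s)).and evn_adm).and (evn_N h0)).and
    (evn_mt.and (evn_T0 fun _ _ _ _ _ _ _ => n₁))).mono fun q η A lam n Γ G mt τ0 E h => ?_
  obtain ⟨⟨⟨⟨h1, h2, h3, h4, -⟩, -, h5, -⟩, h6⟩, ⟨h7, -⟩, h8⟩ := h
  exact ⟨h3, h5, h4, h1, funext h2, h8, by omega, h6 _ le_rfl⟩

/-- A clause may be enlarged at the owners. -/
theorem ClQ_own75 (h : ClQ P Dd μ s t k D Fs X) (hX : Evn P Dd μ s fun _ _ _ _ _ Γ G mt _ E => ∀ (ρ : XS Γ G mt) (u : ℕ), 1 ≤ u → u ≤ mt →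
    X Γ G E u (G.loc u ρ.1) ⊆ Y Γ G E u (G.loc u ρ.1)) : ClQ P Dd μ s t k D Fs Y := by
  obtain ⟨C2₀, B, h⟩ := h
  refine ⟨C2₀, B, fun C2 hC => (((h C2 hC).and hX).and (evn_mt (P := P) (Dd := Dd) (μ := μ) (s := s))).mono
    fun q η A lam n Γ G mt τ0 E h1 hτ E2 E3 => ?_⟩
  obtain ⟨⟨h1, h2⟩, h3, -⟩ := h1
  obtain ⟨bad, hb, hc⟩ := h1 hτ E2 E3
  exact ⟨bad, hb, fun η hη ρ u Z a1 a2 a3 a4 a5 => h2 ρ u (hτ.trans a1) (by omega) (hc η hη ρ u Z a1 a2 a3 a4 a5)⟩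

/-- The same, cut. -/
theorem ClQ_ownc75 {e : Gm → ℕ} (h : ClQ P Dd μ s t k D Fs fun Γ G E => cut86 G (e G) (X Γ G E))
    (hX : Evn P Dd μ s fun _ _ _ _ _ Γ G mt _ E => ∀ (ρ : XS Γ G mt) (u : ℕ), 1 ≤ u → u ≤ mt →
      X Γ G E u (G.loc u ρ.1) ⊆ Y Γ G E u (G.loc u ρ.1)) : ClQ P Dd μ s t k D Fs fun Γ G E => cut86 G (e G) (Y Γ G E) :=
  ClQ_own75 h (hX.mono fun _ _ _ _ _ _ _ _ _ _ h ρ u h1 h2 _ hω hu => h ρ u h1 h2 (hω hu))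

end Cl

section Main

variable {μ : Measure ℝ} {s : ℝ} [IsProbabilityMeasure μ] {c C : ℝ} {n₀ : ℕ}

/-- **THE CLAUSE `Fw`, form `ClQ`.** Order: `K₀ | P | n₁ | Kr = Dd.K, Kg, Q, Q₁, Q₂, σ, β, b | a₀ | a, the slope sgm | the record of the
constants, TAME data, families`. -/
theorem fwQ75 (h0 : In μ s c C n₀) : ∃ K₀ : ℕ, ∀ P : ℕ, ∃ n₁ : ℕ, 1 ≤ n₁ ∧ ∀ {Kr : ℕ} {Kg Q Q₁ Q₂ σ β b : ℝ}, 1 ≤ Kr → K₀ ≤ 8 * Kr ^ 2 →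
    0 ≤ Kg → 0 ≤ Q → 0 ≤ Q₁ → 0 ≤ σ → σ ≤ c / 32 → 0 ≤ β → 0 ≤ b → ∃ a₀ : ℝ, b < a₀ ∧ 2 ≤ a₀ ∧ ∀ a, a₀ ≤ a →
    ∀ {θ Kf sgm : ℝ}, 0 ≤ sgm → sgm ≤ 3 * c / (4096 * (Kr : ℝ) ^ 2) →
    ∀ {Pr : Pre} {Dd : Dat} {t : Tm} {k D : ℕ} {Fs : Gm → Finset (ℕ → ℕ)} {e : Gm → ℕ}, Dd.K = Kr →
      ClQ Pr Dd μ s t k D Fs (fun Γ G _ => cut86 G (e G) fun u κ => SlF75 μ s c θ Kf Kg P Γ G (8 * G.K ^ 2 * G.T u) n₁ Q Q₁ u κ) →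
      ClQ Pr Dd μ s t k D Fs (fun Γ G _ => cut86 G (e G) fun u κ => DT78 μ s Γ G (8 * G.K ^ 2 * G.T u) Q₂ σ u κ) →
      ClQ Pr Dd μ s t k D Fs (fun Γ G E => cut86 G (e G) (OuL57 μ s sgm (a + 2) Γ G E)) →
      ClQ Pr Dd μ s t k D Fs (fun Γ G E => cut86 G (e G) fun u κ => Fw Γ G a b (β * E u) u κ) := by
  obtain ⟨K₀, H⟩ := fw_own75 h0
  obtain ⟨k1, k2⟩ := sl_mem (μ := μ) h0.em h0.nd s
  refine ⟨K₀, fun P => ?_⟩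
  obtain ⟨n₁, hn₁, H⟩ := H P
  refine ⟨n₁, hn₁, ?_⟩
  intro Kr Kg Q Q₁ Q₂ σ β b hKr hK₀ hKg hQ hQ₁ hσ0 hσ hβ hb
  obtain ⟨a₀, ha1, ha2, H1⟩ := H (Q₂ := Q₂) (σ := σ) hKr hKg hQ hQ₁ hβ hb
  refine ⟨a₀, ha1, ha2, ?_⟩
  intro a ha θ Kf sgm hsg0 hsg Pr Dd t k D Fs e hDK cS cD cP
  have c1 := OQ57.ClQ_interc cS (OQ57.ClQ_interc cD cP)
  refine ClQ_ownc75 c1 ((evn_nu75 (P := Pr) (Dd := Dd) h0 n₁).mono fun q η A lam n Γ G mt τ0 E hN ρ u hu hum => ?_)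
  rintro ω ⟨hS, hD, hP⟩
  rw [hN.hE] at hP ⊢
  have hK : G.K = Kr := hN.hK.trans hDK
  exact H1 a ha (mt := mt) hK hσ0 hσ hsg0 hsg hN.hs hN.hv (by rw [hN.hv]; exact k1.le) (by rw [hN.hv]; exact k2.le) hN.hw (by rw [hK]; exact hK₀)
    hN.hT hN.hN ρ u hu hum ⟨hS, hD, hP.1⟩

/-- **THE CLAUSE `St`, form `ClQ`.** -/
theorem stQ75 (h0 : In μ s c C n₀) : ∃ K₀ : ℕ, ∀ P : ℕ, ∃ n₁ : ℕ, 1 ≤ n₁ ∧ ∀ Q : ℝ, 0 ≤ Q → ∃ CU : ℝ, 0 < CU ∧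
    ∀ {Kr : ℕ} {θ Kf a b σ Q₁ Q₂ βc : ℝ}, K₀ ≤ 8 * Kr ^ 2 → 0 ≤ a → 0 ≤ σ → σ ≤ c / 32 → 0 ≤ βc → 0 ≤ Q₁ → 0 ≤ Q₂ →
      16 * (Kr : ℝ) ^ 2 * (a + 16 / c * (βc + 1 / 16 + (2 * CU + 5 / 4 * (c / 8) * a + Q₁ + (Q₂ + σ) + σ + 3))) ≤ b →
    ∀ {Pr : Pre} {Dd : Dat} {t : Tm} {k D : ℕ} {Fs : Gm → Finset (ℕ → ℕ)} {e : Gm → ℕ}, Dd.K = Kr →
      ClQ Pr Dd μ s t k D Fs (fun Γ G _ => cut86 G (e G) fun u κ => SlT78 μ s c θ Kf P Γ G a (8 * G.K ^ 2 * G.T u) n₁ Q Q₁ u κ) →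
      ClQ Pr Dd μ s t k D Fs (fun Γ G _ => cut86 G (e G) fun u κ => DT78 μ s Γ G (8 * G.K ^ 2 * G.T u) Q₂ σ u κ) →
      ClQ Pr Dd μ s t k D Fs (fun Γ G E => cut86 G (e G) fun u κ => Sy78.St Γ G a b ((βc + 1 / 16) * E u) u κ) := by
  obtain ⟨K₀, H⟩ := st_own78 h0
  refine ⟨K₀, fun P => ?_⟩
  obtain ⟨n₁, hn₁, H⟩ := H P
  refine ⟨n₁, hn₁, fun Q hQ => ?_⟩
  obtain ⟨CU, hCU, H⟩ := H Q hQ
  refine ⟨CU, hCU, ?_⟩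
  intro Kr θ Kf a b σ Q₁ Q₂ βc hK₀ ha hσ0 hσ hβ hQ₁ hQ₂ hb Pr Dd t k D Fs e hDK cS cD
  refine ClQ_ownc75 (OQ57.ClQ_interc cS cD) ((evn_nu75 (P := Pr) (Dd := Dd) h0 n₁).mono fun q η A lam n Γ G mt τ0 E hN ρ u hu hum => ?_)
  have hK : G.K = Kr := hN.hK.trans hDK
  rw [hN.hE]
  exact H (mt := mt) ha hσ0 hσ hβ hQ₁ hQ₂ (by rw [hK]; exact hb) hN.hs hN.hv hN.hw (by rw [hK]; exact hK₀) hN.hT hN.hN ρ u hu hum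

end Main

end

end Pool.Agent.W_7d29a1_C1.FW75
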