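import Pool.Agent.W_7d29a1_C1.NsE94
import Pool.Agent.W_7d29a1_C1.StayF78
import Pool.Agent.W_7d29a1_C1.FaAv25
import Pool.Agent.W_7d29a1_C1.Osc22

/-!
MP_7d29a1_pr, [C1] SHELL / SEP: THE CLAUSE NS (helper25 84425) in the letters of `Geo37`, `FaAv25`, `Osc22`. (helper94)

* `NS Γ G th m0 τ0 t x`: for all distance scales `k ≥ t + m0` and all coarse rows `r` of the scale `t`: from every site of the ball `Av` the far set
  `fs k` of the row `r` is reached with probability at most `exp (-(2 th t k))`; `meas_NS`;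
* `far_NS`, **`fa_NS`**: the full far mass (`SD53.fa`) is at most the far mass off the ball (`FA25.fa`) plus `8 exp (-(2 th t k))`;
* **`ns_slab94`**: NS from one chain of slabs around the contact, lower levels to one place of each coarse row, and the growth of `bw / wt` there.
-/

set_option autoImplicit false

namespace Pool.Agent.W_7d29a1_C1.NS94

open MeasureTheory ProbabilityTheory Filter Topology Finset
open Pool.Agent.W_7d29a1_F Pool.Agent.W_7d29a1_h4g Pool.Agent.W_7d29a1_H Pool.Agent.W_7d29a1_HS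
open Pool.Agent.W_7d29a1_C1.K91 (wt wt_pos measurable_wt)
open Pool.Agent.W_7d29a1_C1.K91P (bw bw_pos)
open Pool.Agent.W_7d29a1_C1.H60
open Pool.Agent.W_7d29a1_C1.E53
open Pool.Agent.W_7d29a1_C1.G37 (Gm)
open Pool.Agent.W_7d29a1_C1.H75 (hc)
open Pool.Agent.W_7d29a1_C1.FarK89 Pool.Agent.W_7d29a1_C1.FarW89
open Pool.Agent.W_7d29a1_C1.U16
open Pool.Agent.W_7d29a1_C1.Sp22 (Ms)
open Pool.Agent.W_7d29a1_C1.SD53 (XX bx ZG_l_pos ZG_r_pos ms_l ms_r)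
open Pool.Agent.W_7d29a1_C1.O22 (Ste)
open Pool.Agent.W_7d29a1_C1.FA25 (Av rr lr)
open scoped ENNReal

noncomputable section

/-- **NO STEEP FUTURE** at the scale `t` of the contact `x`. -/
def NS (Γ : Cx) (G : Gm) (th : ℕ → ℕ → ℝ) (m0 τ0 t : ℕ) (x : ℕ × ℤ) : Set Env :=
  {ω | ∀ k, t + m0 ≤ k → k ≤ G.M → ∀ r ∈ G.fr t τ0 x, r ≤ (Γ.N : ℤ) →
    Ste Γ (Av G t τ0 x) r.toNat (bx Γ (G.fs k τ0 x r)) (Real.exp (-(2 * th t k))) ω}

variable {Γ : Cx} {G : Gm}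

theorem meas_ker94 {p : ℕ → ℝ} (i n : ℕ) (a b : ℤ) : Measurable fun ω : Env => ker (wt ω) p i n a b :=
  pm_fw (W := fun ω k => wt ω (i + k)) (p := fun k => p (i + k)) (l := fun _ => dlt a) (fun k y => measurable_wt (i + k) y)
    (fun _ => measurable_const) n b

theorem meas_Ste (B : Set (ℕ × ℤ)) (r : ℕ) (F : Finset ℤ) (a : ℝ) : MeasurableSet {ω : Env | Ste Γ B r F a ω} := by
  have e : {ω : Env | Ste Γ B r F a ω} = ⋂ i : ℕ, ⋂ x : ℤ, {ω : Env | i < r → (i, x) ∈ B →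
      ∑ z ∈ F, ker (wt ω) Γ.p i (r - i) x z * bw (wt ω) Γ.p r (Γ.N - r) z ≤ a * bw (wt ω) Γ.p i (Γ.N - i) x} := by
    ext ω
    simp only [Set.mem_setOf_eq, Set.mem_iInter]
    exact Iff.rfl
  rw [e]
  refine MeasurableSet.iInter fun i => MeasurableSet.iInter fun x => ?_
  by_cases h1 : i < r
  · by_cases h2 : (i, x) ∈ B
    · simp only [h1, h2, forall_const]
      refine measurableSet_le (Finset.measurable_fun_sum _ fun z _ => ?_) (measurable_const.mul (pm_bw (W := wt) (p := Γ.p) measurable_wt _ _ _))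
      exact (meas_ker94 _ _ _ _).mul (pm_bw (W := wt) (p := Γ.p) measurable_wt _ _ _)
    · simp [h2]
  · simp [h1]

theorem meas_NS (th : ℕ → ℕ → ℝ) (m0 τ0 t : ℕ) (x : ℕ × ℤ) : MeasurableSet (NS Γ G th m0 τ0 t x) := by
  have e : NS Γ G th m0 τ0 t x = ⋂ k : ℕ, ⋂ r : ℤ, {ω : Env | t + m0 ≤ k → k ≤ G.M → r ∈ G.fr t τ0 x → r ≤ (Γ.N : ℤ) →
      Ste Γ (Av G t τ0 x) r.toNat (bx Γ (G.fs k τ0 x r)) (Real.exp (-(2 * th t k))) ω} := by
    ext ω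
    simp only [NS, Set.mem_setOf_eq, Set.mem_iInter]
    exact ⟨fun h k r h1 h2 h3 h4 => h k h1 h2 r h3 h4, fun h k h1 h2 r h3 h4 => h k r h1 h2 h3 h4⟩
  rw [e]
  refine MeasurableSet.iInter fun k => MeasurableSet.iInter fun r => ?_
  by_cases h1 : t + m0 ≤ k ∧ k ≤ G.M ∧ r ∈ G.fr t τ0 x ∧ r ≤ (Γ.N : ℤ)
  · obtain ⟨a1, a2, a3, a4⟩ := h1
    simp only [a1, a2, a3, a4, forall_const]
    exact meas_Ste _ _ _ _
  · have e2 : {ω : Env | t + m0 ≤ k → k ≤ G.M → r ∈ G.fr t τ0 x → r ≤ (Γ.N : ℤ) →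
        Ste Γ (Av G t τ0 x) r.toNat (bx Γ (G.fs k τ0 x r)) (Real.exp (-(2 * th t k))) ω} = Set.univ := by
      ext ω
      simp only [Set.mem_setOf_eq, Set.mem_univ, iff_true]
      intro a1 a2 a3 a4
      exact absurd ⟨a1, a2, a3, a4⟩ h1
    rw [e2]
    exact MeasurableSet.univ

theorem fr_nonneg {t τ : ℕ} {x : ℕ × ℤ} {r : ℤ} (hr : r ∈ G.fr t τ x) : 0 ≤ r := by
  unfold Gm.fr at hr
  rw [mem_filter, mem_Icc] at hr
  have h1 := G.T_pos' t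
  have h2 : (0 : ℤ) ≤ (x.1 : ℤ) := by positivity
  linarith [hr.1.1]

/-- One group, one row. -/
theorem far_NS {th : ℕ → ℕ → ℝ} {m0 τ0 t k : ℕ} {x : ℕ × ℤ} {ω : Env} (h : ω ∈ NS Γ G th m0 τ0 t x) (hk : t + m0 ≤ k) (hkM : k ≤ G.M)
    {r : ℤ} (hr : r ∈ G.fr t τ0 x) (hrN : r ≤ (Γ.N : ℤ)) {m : ℤ → ℝ} (hm : Ms m 0 Γ.hi Γ.N) :
    PG Γ m r.toNat (bx Γ (G.fs k τ0 x r)) ω ≤ FA25.PK Γ m (Av G t τ0 x) r.toNat (bx Γ (G.fs k τ0 x r)) ω +
      Real.exp (-(2 * th t k)) * ZG Γ m ω := by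
  have hr0 := fr_nonneg hr
  exact FA25.far_total hm (by omega) (SD53.bx_sub _) (Real.exp_pos _).le (h k hk hkM r hr hrN).bf

/-- **THE FULL FAR MASS.** -/
theorem fa_NS (hΓ : Γ.Ok) {th : ℕ → ℕ → ℝ} {m0 τ0 t k : ℕ} (hτ : τ0 < t) {x : XX Γ} {ω : Env} (h : ω ∈ NS Γ G th m0 τ0 t x.1)
    (hk : t + m0 ≤ k) (hkM : k ≤ G.M) :
    SD53.fa Γ G t k τ0 x ω ≤ FA25.fa Γ G t k τ0 x ω + ENNReal.ofReal (8 * Real.exp (-(2 * th t k))) := by
  unfold SD53.fa FA25.fa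
  obtain ⟨st, hst⟩ : ∃ st : ℝ, st = Real.exp (-(2 * th t k)) := ⟨_, rfl⟩
  have hst0 : 0 ≤ st := by rw [hst]; positivity
  have key : ∀ m : ℤ → ℝ, Ms m 0 Γ.hi Γ.N → (∀ y, 0 ≤ m y) → 0 < ZG Γ m ω → ∀ r ∈ G.fr t τ0 x.1, r ≤ (Γ.N : ℤ) →
      ENNReal.ofReal (SD53.PX Γ m r.toNat (G.fs k τ0 x.1 r) ω) ≤
        ENNReal.ofReal (FA25.PA Γ m (Av G t τ0 x.1) r.toNat (G.fs k τ0 x.1 r) ω) + ENNReal.ofReal st := by
    intro m hm hm0 hZ r hr hrN
    rw [← ENNReal.ofReal_add (FA25.PA_nonneg hm0 _ _ _ _) hst0]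
    refine ENNReal.ofReal_le_ofReal ?_
    have h1 := far_NS h hk hkM hr hrN hm
    rw [← hst] at h1
    unfold SD53.PX FA25.PA
    rw [div_add' _ _ _ hZ.ne']
    exact div_le_div_of_nonneg_right h1 hZ.le
  have h2 : ∀ r ∈ (G.fr t τ0 x.1).filter (fun r => r ≤ (Γ.N : ℤ)),
      ENNReal.ofReal (SD53.PX Γ Cx.l r.toNat (G.fs k τ0 x.1 r) ω) + ENNReal.ofReal (SD53.PX Γ Γ.r r.toNat (G.fs k τ0 x.1 r) ω) ≤
        (ENNReal.ofReal (FA25.PA Γ Cx.l (Av G t τ0 x.1) r.toNat (G.fs k τ0 x.1 r) ω) +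
          ENNReal.ofReal (FA25.PA Γ Γ.r (Av G t τ0 x.1) r.toNat (G.fs k τ0 x.1 r) ω)) + ENNReal.ofReal (2 * st) := by
    intro r hr
    obtain ⟨a1, a2⟩ := mem_filter.1 hr
    have g1 := key Cx.l (ms_l hΓ) Cx.l_nonneg (ZG_l_pos hΓ ω) r a1 a2
    have g2 := key Γ.r (ms_r hΓ) (Cx.r_nonneg hΓ) (ZG_r_pos hΓ ω) r a1 a2
    refine (add_le_add g1 g2).trans (le_of_eq ?_)
    rw [two_mul, ENNReal.ofReal_add hst0 hst0]
    ring
  refine (sum_le_sum h2).trans ?_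
  rw [sum_add_distrib]
  refine add_le_add le_rfl ?_
  rw [sum_const, nsmul_eq_mul, ← hst]
  have h3 : ((G.fr t τ0 x.1).filter (fun r => r ≤ (Γ.N : ℤ))).card ≤ 4 :=
    (card_le_card (filter_subset _ _)).trans (G.card_fr hτ x.1)
  have h4 : (((G.fr t τ0 x.1).filter (fun r => r ≤ (Γ.N : ℤ))).card : ℝ≥0∞) ≤ ENNReal.ofReal 4 := by
    have e : ENNReal.ofReal 4 = ((4 : ℕ) : ℝ≥0∞) := by simp
    rw [e]
    exact_mod_cast h3
  calc _ ≤ ENNReal.ofReal 4 * ENNReal.ofReal (2 * st) := mul_le_mul' h4 le_rfl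
    _ = ENNReal.ofReal (8 * st) := by
      rw [← ENNReal.ofReal_mul (by norm_num)]
      congr 1
      ring

/-! ### NS from the levels -/

variable {μ : Measure ℝ} {s : ℝ}

/-- The normalised form of `Ste`, one place. -/
theorem ste_nk {h : ℝ} {η : Env} {p : ℕ → ℝ} {M N : ℕ} (hp : ∀ k, 0 < p k) {i e : ℕ} (hie : i ≤ e) (he : e ≤ N) {z : ℤ}
    {Q : ℤ → Prop} [DecidablePred Q] {st : ℝ}
    (h1 : PM16 (fun a b x z => nk μ s h η p M a (b - a) x z) (bh16 μ s h η p M N) i e z Q ≤ st * bh16 μ s h η p M N i z)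
    {F : Finset ℤ} (hF : ∀ y ∈ F, Q y) :
    ∑ y ∈ F, ker (wt η) p i (e - i) z y * bw (wt η) p e (N - e) y ≤ st * bw (wt η) p i (N - i) z := by
  have hz := wt_pos η i z
  obtain ⟨Z, hZ⟩ : ∃ Z : ℝ, Z = Real.exp (((N - i : ℕ) : ℝ) * lam μ s + h * sl μ s * bl M i (N - i)) := ⟨_, rfl⟩
  have hZ0 : 0 < Z := by rw [hZ]; positivity
  have one : ∀ y, ker (wt η) p i (e - i) z y * bw (wt η) p e (N - e) y =
      Z * wt η i z * (nk μ s h η p M i (e - i) z y * bh16 μ s h η p M N e y) := by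
    intro y
    have g1 := ker_nk (μ := μ) (s := s) (h := h) (η := η) (p := p) (M := M) i (e - i) z y
    rw [Nat.add_sub_cancel' hie] at g1
    have hy := wt_pos η e y
    rw [g1, bw_bh16 (μ := μ) (s := s) (h := h) (M := M) y]
    have g2 : Z = Real.exp (((e - i : ℕ) : ℝ) * lam μ s + h * sl μ s * bl M i (e - i)) *
        Real.exp (((N - e : ℕ) : ℝ) * lam μ s + h * sl μ s * bl M e (N - e)) := by
      rw [hZ, ← Real.exp_add]
      congr 1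
      have g3 : N - i = (e - i) + (N - e) := by omega
      have g4 : bl M i (N - i) = bl M i (e - i) + bl M e (N - e) := by
        have := bl_add M i (e - i) (N - e)
        rwa [Nat.add_sub_cancel' hie, ← g3] at this
      rw [g4, g3]
      push_cast
      ring
    rw [g2]
    field_simp
  have hnn : ∀ y, 0 ≤ nk μ s h η p M i (e - i) z y * bh16 μ s h η p M N e y :=
    fun y => mul_nonneg (nk_nonneg hp _ _ _ _) (bh16_pos hp _ _).le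
  calc ∑ y ∈ F, ker (wt η) p i (e - i) z y * bw (wt η) p e (N - e) y
      = Z * wt η i z * ∑ y ∈ F, nk μ s h η p M i (e - i) z y * bh16 μ s h η p M N e y := by
        rw [mul_sum]
        exact sum_congr rfl fun y _ => one y
    _ ≤ Z * wt η i z * (st * bh16 μ s h η p M N i z) := by
        refine mul_le_mul_of_nonneg_left (le_trans ?_ h1) (by positivity)
        unfold PM16
        calc ∑ y ∈ F, nk μ s h η p M i (e - i) z y * bh16 μ s h η p M N e y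
            = ∑ y ∈ F.filter (fun y => y ∈ Icc z (z + ((e - i : ℕ) : ℤ))), nk μ s h η p M i (e - i) z y * bh16 μ s h η p M N e y := by
              symm
              refine sum_subset (filter_subset _ _) fun y hy hy' => ?_
              have hn : ¬ (z ≤ y ∧ y ≤ z + ((e - i : ℕ) : ℤ)) := fun hc => hy' (mem_filter.2 ⟨hy, mem_Icc.2 hc⟩)
              rw [nk_eq_zero _ _ hn, zero_mul]
          _ ≤ _ := by
              refine sum_le_sum_of_subset_of_nonneg (fun y hy => ?_) fun y _ _ => hnn y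
              obtain ⟨a1, a2⟩ := mem_filter.1 hy
              exact mem_filter.2 ⟨a2, hF y a1⟩
    _ = _ := by
        rw [bw_bh16 (μ := μ) (s := s) (h := h) (M := M) z, hZ]
        ring

/-- Numbers: all distance scales at once. -/
theorem num_NS (A : ℕ) {a b X : ℝ} (ha : 0 < a) : ∃ m00 : ℕ, ∀ n : ℕ, m00 ≤ n → b * (n : ℝ) ^ A + X ≤ a * 2 ^ n := by
  have h1 : Tendsto (fun n : ℕ => ((n : ℝ) ^ A) / (2 : ℝ) ^ n) atTop (𝓝 0) := tendsto_pow_const_div_const_pow_of_one_lt A (by norm_num)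
  have h2 : Tendsto (fun n : ℕ => (1 : ℝ) / (2 : ℝ) ^ n) atTop (𝓝 0) := by
    have := tendsto_pow_const_div_const_pow_of_one_lt (r := (2 : ℝ)) 0 (by norm_num)
    simpa using this
  have h3 : Tendsto (fun n : ℕ => b * (((n : ℝ) ^ A) / (2 : ℝ) ^ n) + X * ((1 : ℝ) / (2 : ℝ) ^ n)) atTop (𝓝 (b * 0 + X * 0)) :=
    (h1.const_mul b).add (h2.const_mul X)
  rw [mul_zero, mul_zero, add_zero] at h3
  obtain ⟨m, hm⟩ := eventually_atTop.1 (h3.eventually (gt_mem_nhds ha))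
  refine ⟨m, fun n hn => ?_⟩
  have h4 := hm n hn
  have h5 : (0 : ℝ) < 2 ^ n := by positivity
  have h6 : b * (n : ℝ) ^ A + X = (b * ((n : ℝ) ^ A / 2 ^ n) + X * (1 / 2 ^ n)) * 2 ^ n := by
    field_simp
  rw [h6]
  exact mul_le_mul_of_nonneg_right h4.le h5.le

theorem w_pow94 (u n : ℕ) : 2 ^ n * G.w u ≤ G.w (u + n) := FA25.w_pow u n

variable [IsProbabilityMeasure μ] {c C : ℝ} {n₀ : ℕ}

/-- **NS FROM THE LEVELS.** -/
theorem ns_slab94 (h0 : In μ s c C n₀) (P : ℕ) : ∃ n₁ : ℕ, 1 ≤ n₁ ∧ ∀ (Q R Q₁ Q₂ eta Lw : ℝ) (A : ℕ), 0 ≤ Q → 0 ≤ R → 0 ≤ Q₁ → 0 ≤ Q₂ →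
    0 ≤ eta → 1 ≤ Lw → ∃ m00 : ℕ, ∀ {θ K : ℝ} {Γ : Cx} {G : Gm} {ω : Env} {o : Pt} {r T Nr : ℕ → ℕ} {q : ℕ → ℝ} {bs : ℕ → Pt}
      {m₁ m₂ Tt : ℕ}, m₁ ≤ m₂ → Γ.s = s → G.v = sl μ s → Slabs μ s c θ K Γ.h P ω o r T Nr q bs m₁ m₂ Tt n₁ Q → r m₂ ≤ Γ.N →
      (Γ.N : ℝ) + 1 ≤ Real.exp (EE μ s Tt) →
      ∀ (t τ0 m0 : ℕ) (x : ℕ × ℤ) (th : ℕ → ℕ → ℝ) (σ : ℝ), m00 ≤ m0 → τ0 < t → G.lam ≤ 2 ^ m0 → 0 ≤ σ → σ ≤ c / 16 →
      |((o.2 : ℝ) - G.v * (o.1 : ℝ)) - G.lat x| ≤ R * wd μ s Tt → G.w t ≤ wd μ s Tt → wd μ s Tt ≤ Lw * G.w t →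
      (r m₁ : ℤ) ≤ (x.1 : ℤ) - 2 * (G.T (t - 1) : ℤ) →
      (∀ k, t + m0 ≤ k → k ≤ G.M → th t k ≤ eta * ((k - t : ℕ) : ℝ) ^ A * EE μ s Tt) →
      (∀ e : ℕ, (e : ℤ) ∈ G.fr t τ0 x → e ≤ Γ.N → e ≤ r m₂ ∧ ∃ z₀ : ℤ, |G.lat (e, z₀) - G.lat x| ≤ R * wd μ s Tt ∧
        (∀ (i : ℕ) (z : ℤ), (i, z) ∈ Av G t τ0 x → i < e → Real.exp (-(Q₁ * EE μ s Tt)) ≤ nk μ s Γ.h ω Γ.p Γ.M i (e - i) z z₀) ∧
        ∀ v : ℤ, bw (wt ω) Γ.p e (Γ.N - e) v / wt ω e v ≤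
          Real.exp (Q₂ * EE μ s Tt + σ * (EE μ s Tt / wd μ s Tt) * |G.lat (e, v) - G.lat (e, z₀)|) *
            (bw (wt ω) Γ.p e (Γ.N - e) z₀ / wt ω e z₀)) →
      ω ∈ NS Γ G th m0 τ0 t x := by
  have hc0 := h0.c0
  obtain ⟨C₅, hC₅, m₀, hm₀, H⟩ := Sy78.env_all h0 P
  obtain ⟨m₃, hm₃⟩ := eventually_atTop.1 ((wd_tendsto h0).eventually_ge_atTop 1)
  refine ⟨max m₀ m₃, hm₀.trans (le_max_left _ _), fun Q R Q₁ Q₂ eta Lw A hQ hR hQ₁ hQ₂ heta hLw => ?_⟩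
  have hΛ : 0 ≤ LQ (2 * P) (c / 8) (C₅ * Q) := LQ_nonneg _ (by positivity)
  obtain ⟨U, hU⟩ : ∃ U : ℝ, U = LQ (2 * P) (c / 8) (C₅ * Q) * gr (2 * P) (1 + R) + Q := ⟨_, rfl⟩
  have hgR := gr_nonneg (2 * P) (show (0 : ℝ) ≤ 1 + R by linarith)
  have hU0 : 0 ≤ U := by rw [hU]; positivity
  obtain ⟨D₀, hD₀⟩ : ∃ D₀ : ℝ, D₀ = 4 / (c / 8) * (Q₁ + U + (Q₂ + c / 16 * R) + c / 8 * 1 + 1) := ⟨_, rfl⟩
  obtain ⟨m00, hm00⟩ := num_NS A (a := c / 32 * (1 / Lw)) (b := 2 * eta) (X := c / 32 * D₀) (by positivity)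
  refine ⟨m00, ?_⟩
  intro θ K Γ G ω o r T Nr q bs m₁ m₂ Tt hm hs hv S hrN hN t τ0 m0 x th σ hm0 hτ hlam hσ0 hσ ho hwt hwT hr1 hth hrow
  have S' : Slabs μ s c θ K Γ.h P ω o r T Nr q bs m₁ m₂ Tt m₀ Q :=
    { S with
      Tt1 := (le_max_left _ _).trans S.Tt1
      T1 := fun u hu hub => (le_max_left _ _).trans (S.T1 u hu hub) }
  have hw1 : 1 ≤ wd μ s Tt := hm₃ Tt ((le_max_right _ _).trans S.Tt1)
  have hw0 : 0 < wd μ s Tt := by linarith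
  have hE0 : 0 < EE μ s Tt := EE_pos _
  have hp : ∀ k, k < Γ.M → Γ.p k = Real.exp (s + Γ.h) := fun k hk => by
    unfold Cx.p
    rw [if_pos hk, hs]
  have hp' : ∀ k, Γ.M ≤ k → Γ.p k = Real.exp s := fun k hk => by
    unfold Cx.p
    rw [if_neg (not_lt.2 hk), hs]
  have Sy := sys_model16 (μ := μ) (s := s) (h := Γ.h) (η := ω) (p := Γ.p) (M := Γ.M) (N := Γ.N) Γ.p_pos
  intro k hk hkM rr' hr hrN'
  obtain ⟨e, he⟩ : ∃ e : ℕ, rr' = (e : ℤ) := ⟨rr'.toNat, (Int.toNat_of_nonneg (fr_nonneg hr)).symm⟩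
  subst he
  rw [Int.toNat_natCast]
  have heN : e ≤ Γ.N := by exact_mod_cast hrN'
  obtain ⟨her, z₀, hz₀, hlo, hD2⟩ := hrow e hr heN
  intro i z hie hiz
  -- the distance
  obtain ⟨D, hD⟩ : ∃ D : ℝ, D = G.W k τ0 / wd μ s Tt := ⟨_, rfl⟩
  have hwt0 := G.w_pos t
  have hWk : G.w k ≤ G.W k τ0 := by
    unfold Gm.W
    have h1 : 2 ^ m0 * G.w τ0 ≤ G.w k := (w_pow94 τ0 m0).trans (G.w_mono (by omega))
    have h2 := mul_le_mul_of_nonneg_right hlam (G.w_pos τ0).le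
    linarith
  have hDk : 1 / Lw * 2 ^ (k - t) ≤ D := by
    have h1 := w_pow94 (G := G) t (k - t)
    rw [show t + (k - t) = k by omega] at h1
    rw [hD, le_div_iff₀ hw0]
    calc 1 / Lw * 2 ^ (k - t) * wd μ s Tt ≤ 1 / Lw * 2 ^ (k - t) * (Lw * G.w t) :=
          mul_le_mul_of_nonneg_left hwT (by positivity)
      _ = 2 ^ (k - t) * G.w t := by field_simp
      _ ≤ _ := h1.trans hWk
  have hnum := hm00 (k - t) (by omega)
  have hA0 : 0 ≤ 2 * eta * ((k - t : ℕ) : ℝ) ^ A := by positivity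
  have hDc : 2 * eta * ((k - t : ℕ) : ℝ) ^ A + c / 32 * D₀ ≤ c / 32 * D := by
    refine hnum.trans ?_
    rw [mul_assoc]
    exact mul_le_mul_of_nonneg_left hDk (by positivity)
  have hDD₀ : D₀ ≤ D := by
    have h1 : c / 32 * D₀ ≤ c / 32 * D := by linarith
    exact le_of_mul_le_mul_left h1 (by positivity)
  have hst : Real.exp (-(c / 8 / 4 * D * EE μ s Tt)) ≤ Real.exp (-(2 * th t k)) := by
    refine Real.exp_le_exp.2 ?_
    have h1 := hth k hk hkM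
    have hD₀0 : 0 ≤ D₀ := by rw [hD₀]; positivity
    have h2 : 2 * eta * ((k - t : ℕ) : ℝ) ^ A ≤ c / 32 * D := by
      have : 0 ≤ c / 32 * D₀ := by positivity
      linarith
    have h3 := mul_le_mul_of_nonneg_right h2 hE0.le
    linarith
  obtain ⟨hi1, hi2⟩ := hiz
  have hi1' : |((i : ℕ) : ℤ) - x.1| ≤ rr G t τ0 := hi1
  have hi2' : |G.lat (i, z) - G.lat x| ≤ lr G t τ0 := hi2
  have hri : r m₁ ≤ i := by
    have h1 := (abs_le.1 hi1').1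
    unfold rr at h1
    have h2 := G.T_pos' (τ0 + 1 - G.m2)
    omega
  have hlz : |G.lat (i, z) - G.lat x| ≤ 1 * wd μ s Tt := by
    refine hi2'.trans ?_
    unfold lr
    have h1 := G.w_mono (show t - 1 ≤ t by omega)
    have h2 := mul_nonneg (FA25.la_nonneg (G := G)) (G.w_pos (τ0 + 1 - G.m2)).le
    linarith
  have key := nsA94 Sy (a := i) (r := e) hie.le heN (z := z) (y₀ := z₀) (l := fun y => G.lat (e, y) - G.lat x)
    (lz := G.lat (i, z) - G.lat x) (E := EE μ s Tt) (w := wd μ s Tt) (c' := c / 8) (σ := σ) (Q₁ := Q₁) (Q₂ := U)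
    (Q₄ := Q₂ + c / 16 * R) (R := 1) (D := D) hE0 hw0 (by positivity) (by linarith) hlz
    (fun y _ _ => by
      have g1 := H hm hp hp' S' i e hri hie her z y
      refine g1.trans (Real.exp_le_exp.2 ?_)
      have e3 : ((y - z : ℤ) : ℝ) - sl μ s * ((e - i : ℕ) : ℝ) = (G.lat (e, y) - G.lat x) - (G.lat (i, z) - G.lat x) := by
        unfold Gm.lat
        rw [hv, Nat.cast_sub hie.le]
        push_cast
        ring
      have e2 : hc μ s c Tt / 8 * |(G.lat (e, y) - G.lat x) - (G.lat (i, z) - G.lat x)| =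
          c / 8 * (|(G.lat (e, y) - G.lat x) - (G.lat (i, z) - G.lat x)| / wd μ s Tt) * EE μ s Tt := by
        unfold hc
        field_simp
      rw [e3, e2, hU]
      have g3 : |lat16 μ s o ((i : ℤ), z)| / wd μ s Tt ≤ 1 + R := by
        rw [div_le_iff₀ hw0]
        have e4 : lat16 μ s o ((i : ℤ), z) = (G.lat (i, z) - G.lat x) - (((o.2 : ℝ) - G.v * (o.1 : ℝ)) - G.lat x) := by
          unfold lat16 Gm.lat
          rw [hv]
          push_cast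
          ring
        rw [e4]
        refine (abs_sub _ _).trans ?_
        linarith
      have g5 := gr_mono (2 * P) (show 0 ≤ |lat16 μ s o ((i : ℤ), z)| / wd μ s Tt by positivity) g3
      have g6 := mul_le_mul_of_nonneg_right (add_le_add (mul_le_mul_of_nonneg_left g5 hΛ) (le_refl Q)) hE0.le
      linarith)
    (hlo i z ⟨hi1, hi2⟩ hie)
    (fun v => by
      have g1 := hD2 v
      have hE' : 0 < Real.exp (-(((Γ.N - e : ℕ) : ℝ) * lam μ s + Γ.h * sl μ s * bl Γ.M e (Γ.N - e))) := Real.exp_pos _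
      have hb0 : 0 ≤ bw (wt ω) Γ.p e (Γ.N - e) z₀ / wt ω e z₀ :=
        div_nonneg (bw_pos (wt_pos ω) Γ.p_pos _ _ _).le (wt_pos ω _ _).le
      have g2 : Real.exp (Q₂ * EE μ s Tt + σ * (EE μ s Tt / wd μ s Tt) * |G.lat (e, v) - G.lat (e, z₀)|) ≤
          Real.exp ((Q₂ + c / 16 * R + σ * (|G.lat (e, v) - G.lat x| / wd μ s Tt)) * EE μ s Tt) := by
        refine Real.exp_le_exp.2 ?_
        have g3 : |G.lat (e, v) - G.lat (e, z₀)| ≤ |G.lat (e, v) - G.lat x| + R * wd μ s Tt := by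
          have := abs_sub (G.lat (e, v) - G.lat x) (G.lat (e, z₀) - G.lat x)
          have e5 : (G.lat (e, v) - G.lat x) - (G.lat (e, z₀) - G.lat x) = G.lat (e, v) - G.lat (e, z₀) := by ring
          rw [e5] at this
          linarith
        have g4 := mul_le_mul_of_nonneg_left g3 (show 0 ≤ σ * (EE μ s Tt / wd μ s Tt) by positivity)
        have e6 : σ * (EE μ s Tt / wd μ s Tt) * (|G.lat (e, v) - G.lat x| + R * wd μ s Tt) =
            σ * (|G.lat (e, v) - G.lat x| / wd μ s Tt) * EE μ s Tt + σ * R * EE μ s Tt := by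
          field_simp
        have g5 : σ * R * EE μ s Tt ≤ c / 16 * R * EE μ s Tt :=
          mul_le_mul_of_nonneg_right (mul_le_mul_of_nonneg_right hσ hR) hE0.le
        rw [e6] at g4
        linarith
      unfold bh16
      calc _ ≤ Real.exp (-(((Γ.N - e : ℕ) : ℝ) * lam μ s + Γ.h * sl μ s * bl Γ.M e (Γ.N - e))) *
            (Real.exp ((Q₂ + c / 16 * R + σ * (|G.lat (e, v) - G.lat x| / wd μ s Tt)) * EE μ s Tt) *
              (bw (wt ω) Γ.p e (Γ.N - e) z₀ / wt ω e z₀)) :=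
            mul_le_mul_of_nonneg_left (g1.trans (mul_le_mul_of_nonneg_right g2 hb0)) hE'.le
        _ = _ := by ring)
    hN (by rw [← hD₀]; exact hDD₀)
  have hkey2 : PM16 (fun a b x z => nk μ s Γ.h ω Γ.p Γ.M a (b - a) x z) (bh16 μ s Γ.h ω Γ.p Γ.M Γ.N) i e z
      (fun y => D * wd μ s Tt ≤ |G.lat (e, y) - G.lat x|) ≤ Real.exp (-(2 * th t k)) * bh16 μ s Γ.h ω Γ.p Γ.M Γ.N i z :=
    key.trans (mul_le_mul_of_nonneg_right hst (bh16_pos Γ.p_pos i z).le)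
  refine ste_nk Γ.p_pos hie.le heN hkey2 (F := bx Γ (G.fs k τ0 x (e : ℤ))) fun y hy => ?_
  have h3 : G.W k τ0 ≤ |((y : ℝ) - G.v * (((e : ℕ) : ℤ) : ℝ)) - G.lat x| := by
    classical
    unfold SD53.bx at hy
    rw [mem_filter] at hy
    exact hy.2
  show D * wd μ s Tt ≤ |G.lat (e, y) - G.lat x|
  rw [hD, div_mul_cancel₀ _ hw0.ne']
  have e7 : G.lat (e, y) = (y : ℝ) - G.v * (((e : ℕ) : ℤ) : ℝ) := by
    unfold Gm.lat
    push_cast
    ring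
  rw [e7]
  exact h3

end

end Pool.Agent.W_7d29a1_C1.NS94
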