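import Pool.Agent.W_7d29a1_C1.ShlL51
import Pool.Agent.W_7d29a1_C1.CtQ90
import Pool.Agent.W_7d29a1_C1.Tm31
import Pool.Agent.W_7d29a1_C1.NsG94

/-!
MP_7d29a1_pr, attractor route [C1], field `nu`: **FEW SCALES OF A CONTACT ARE NOT REGULAR**, from the two clauses (future, past). (helper51)

`ClT51 .. Good` : one clause with the order of the constants; everything of the analysis is existential. `FwQ51`, `PaQ51` : the future, the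
past. `NsQ51` : no steep future at `b ≤ 7 m8 / 16`, if the future is locally regular at the scale `b + 1` (`ClA51` : the constant `A` is given).
`TmQ51` : the count. `tmU51 : FwQ51 ⇒ NsQ51 ⇒ PaQ51 ⇒ TmQ51` (the tower count `ctQ90` three times; the scales below `ε m8` and above
`(1 - ε) m8` are given away). The top scale of the regularity is `m8 / 2`.
-/

set_option autoImplicit false
set_option linter.unusedSectionVars false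

namespace Pool.Agent.W_7d29a1_C1.Nu51

open MeasureTheory Finset Filter Topology
open Pool.Agent.W_7d29a1_F Pool.Agent.W_7d29a1_h4g Pool.Agent.W_7d29a1_H Pool.Agent.W_7d29a1_HS
open Pool.Agent.W_7d29a1_C1.T10 (Gd pt Tg Hg GW)
open Pool.Agent.W_7d29a1_C1.H60
open Pool.Agent.W_7d29a1_C1.H40 (Tk Cut)
open Pool.Agent.W_7d29a1_C1.G37 (Gm Wok)
open Pool.Agent.W_7d29a1_C1.H8
open Pool.Agent.W_7d29a1_C1.H77 (Zt77)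
open Pool.Agent.W_7d29a1_C1.Dep6
open Pool.Agent.W_7d29a1_C1.D31 (Lr31 TM31)
open Pool.Agent.W_7d29a1_C1.NS94 (NS)
open Pool.Agent.W_7d29a1_C1.U16 (bh16)
open Pool.Agent.W_7d29a1_C1.SysP84 (fh84)
open scoped ENNReal

noncomputable section

variable {μ : Measure ℝ} [IsProbabilityMeasure μ]

/-! ### One clause -/

/-- **ONE CLAUSE AT ONE CONTEXT**: depths with the moments `z`, their tails, and the analysis: a scale `u ∈ [ε m8, (1 - ε) m8]` which feels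
nothing is in `Good`. -/
def ClE51 (μ : Measure ℝ) (e e₀ ε : ℝ) (K Q x n E₀ : ℕ) (z AA a g AA' a' g' th e' : ℝ) (G : Gd) (Γ : Cx)
    (Good : ℕ → ℕ × ℤ → Set Env) : Prop :=
  ∃ (dL : Cut (ℕ × ℤ) → Cut (ℕ × ℤ) → Env → ℕ) (dN : Cut (ℕ × ℤ) → Cut (ℕ × ℤ) → Cut (ℕ × ℤ) → Env → ℕ) (Mm tl : ℝ≥0∞) (q₀ : ℝ)
    (Sw : Finset ℤ) (scL : Cut (ℕ × ℤ) → Cut (ℕ × ℤ) → ℕ) (scN : Cut (ℕ × ℤ) → Cut (ℕ × ℤ) → Cut (ℕ × ℤ) → ℕ) (bad : Set Env),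
    1 ≤ Mm ∧ Mm ≤ 2 ∧ Dp2 μ (ENNReal.ofReal z) Mm dL ∧ Dp3 μ (ENNReal.ofReal z) Mm dN ∧ Sw.card ≤ 1 ∧ 1 ≤ q₀ ∧
    (∀ a b, law μ {η | E₀ < dL a b η} ≤ tl) ∧
    tl ≤ ENNReal.ofReal (AA * Real.exp (-(a * (q₀ * th ^ E₀) ^ g)) + AA' * Real.exp (-(a' * (q₀ * th ^ E₀) ^ g'))) ∧
    law μ bad ≤ ENNReal.ofReal ((n : ℝ) ^ (-(3 : ℝ))) ∧
    ∀ η ∉ bad, ∀ c ∈ S8 e K n G Γ, Real.exp (-((n : ℝ) ^ e')) ≤ Γ.w c η → ∀ u : ℕ, ε * m8 K e n ≤ u → u + ε * m8 K e n ≤ m8 K e n →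
      Ok6 Sw dL dN scL scN (Zt77 G (Tg (h8 Q e₀ n) K) (m8 K e n + x) c) u η →
      OkS6 Sw E₀ scL scN (Zt77 G (Tg (h8 Q e₀ n) K) (m8 K e n + x) c) u → η ∈ Good u c

/-- The events `Good` of one clause: the constant `A`, the constants of the separation, the geometry, the heights, the grid, the context. -/
abbrev GdF51 (μ : Measure ℝ) (s : ℝ) : Type :=
  (A : ℝ) → (k : SC51) → (T0 : ℕ) → Wok μ s T0 k.K → (M : ℕ) → (T : ℕ → ℕ) → Gd → Cx → ℕ → ℕ × ℤ → Set Env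

/-- **A CLAUSE WITH THE ORDER OF THE CONSTANTS**, after `ρ, e, K, R, B, C₀` and `Φ, σ, δ`: the tails of the depths | the moment `z`, `E₀ ≥ δ₀ m8` |
the constant `A` of the regularity | the constants `k` of the separation | `mb` | `m₁` | `s₁, e'` | `c₂, δ', κ` | the period | `n`. -/
def ClT51 (μ : Measure ℝ) (s ρ e : ℝ) (K : ℕ) (R : ℝ) (B : ℕ) (C₀ ε : ℝ) (Good : GdF51 μ s) : Prop :=
  ∃ AA a g AA' a' g' th : ℝ, 0 < AA ∧ 0 < a ∧ 0 < g ∧ 0 < AA' ∧ 0 < a' ∧ 0 < g' ∧ 1 < th ∧ ∀ z δ₀ : ℝ, 1 ≤ z → 0 < δ₀ →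
    ∃ A : ℝ, 0 ≤ A ∧ ∀ k : SC51, k.K = K → ∃ mb : ℕ, ∀ m : ℕ, mb ≤ m → ∀ m₁ : ℕ, 1 ≤ m₁ → ∃ s₁ e' : ℝ, 0 < s₁ ∧ 0 < e' ∧
      ∀ c₂ : ℝ, 0 < c₂ → c₂ ≤ s₁ → ∀ δ' : ℝ, 0 < δ' → δ' ≤ c₂ / 16 → ∃ κ₀ : ℝ, 0 < κ₀ ∧ ∀ κ : ℝ, 0 < κ → κ ≤ κ₀ →
        ∃ Q₀ : ℕ, 1 ≤ Q₀ ∧ ∀ Q : ℕ, Q₀ ∣ Q → 1 ≤ Q → ∀ᶠ n : ℕ in atTop, ∀ E₀ : ℕ, δ₀ * m8 K e n ≤ E₀ → ∀ G : Gd,
          GW μ s R B C₀ (h8 Q (ρ * e) n) K (m8 K e n + ((k.up m).m0 + m₁)) G → ∀ (hW : Wok μ s (2 * h8 Q (ρ * e) n) k.K) (Γ : Cx),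
            Adm μ s c₂ δ' κ n Γ → ClE51 μ e (ρ * e) ε K Q ((k.up m).m0 + m₁) n E₀ z AA a g AA' a' g' th e' G Γ
              (Good A (k.up m) (2 * h8 Q (ρ * e) n) hW (m8 K e n) (Tg (h8 Q (ρ * e) n) K) G Γ)

/-- **A CLAUSE WITH A GIVEN CONSTANT `A`.** -/
def ClA51 (μ : Measure ℝ) (s ρ e : ℝ) (K : ℕ) (R : ℝ) (B : ℕ) (C₀ ε : ℝ) (Good : GdF51 μ s) : Prop :=
  ∃ AA a g AA' a' g' th : ℝ, 0 < AA ∧ 0 < a ∧ 0 < g ∧ 0 < AA' ∧ 0 < a' ∧ 0 < g' ∧ 1 < th ∧ ∀ z δ₀ : ℝ, 1 ≤ z → 0 < δ₀ →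
    ∀ A : ℝ, 0 ≤ A → ∀ k : SC51, k.K = K → ∃ mb : ℕ, ∀ m : ℕ, mb ≤ m → ∀ m₁ : ℕ, 1 ≤ m₁ → ∃ s₁ e' : ℝ, 0 < s₁ ∧ 0 < e' ∧
      ∀ c₂ : ℝ, 0 < c₂ → c₂ ≤ s₁ → ∀ δ' : ℝ, 0 < δ' → δ' ≤ c₂ / 16 → ∃ κ₀ : ℝ, 0 < κ₀ ∧ ∀ κ : ℝ, 0 < κ → κ ≤ κ₀ →
        ∃ Q₀ : ℕ, 1 ≤ Q₀ ∧ ∀ Q : ℕ, Q₀ ∣ Q → 1 ≤ Q → ∀ᶠ n : ℕ in atTop, ∀ E₀ : ℕ, δ₀ * m8 K e n ≤ E₀ → ∀ G : Gd,
          GW μ s R B C₀ (h8 Q (ρ * e) n) K (m8 K e n + ((k.up m).m0 + m₁)) G → ∀ (hW : Wok μ s (2 * h8 Q (ρ * e) n) k.K) (Γ : Cx),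
            Adm μ s c₂ δ' κ n Γ → ClE51 μ e (ρ * e) ε K Q ((k.up m).m0 + m₁) n E₀ z AA a g AA' a' g' th e' G Γ
              (Good A (k.up m) (2 * h8 Q (ρ * e) n) hW (m8 K e n) (Tg (h8 Q (ρ * e) n) K) G Γ)

/-- The part of a clause after the constant `A`. -/
def ClK51 (μ : Measure ℝ) (s ρ e : ℝ) (K : ℕ) (R : ℝ) (B : ℕ) (C₀ ε AA a g AA' a' g' th z δ₀ A : ℝ) (Good : GdF51 μ s) : Prop :=
  ∀ k : SC51, k.K = K → ∃ mb : ℕ, ∀ m : ℕ, mb ≤ m → ∀ m₁ : ℕ, 1 ≤ m₁ → ∃ s₁ e' : ℝ, 0 < s₁ ∧ 0 < e' ∧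
    ∀ c₂ : ℝ, 0 < c₂ → c₂ ≤ s₁ → ∀ δ' : ℝ, 0 < δ' → δ' ≤ c₂ / 16 → ∃ κ₀ : ℝ, 0 < κ₀ ∧ ∀ κ : ℝ, 0 < κ → κ ≤ κ₀ →
      ∃ Q₀ : ℕ, 1 ≤ Q₀ ∧ ∀ Q : ℕ, Q₀ ∣ Q → 1 ≤ Q → ∀ᶠ n : ℕ in atTop, ∀ E₀ : ℕ, δ₀ * m8 K e n ≤ E₀ → ∀ G : Gd,
        GW μ s R B C₀ (h8 Q (ρ * e) n) K (m8 K e n + ((k.up m).m0 + m₁)) G → ∀ (hW : Wok μ s (2 * h8 Q (ρ * e) n) k.K) (Γ : Cx),
          Adm μ s c₂ δ' κ n Γ → ClE51 μ e (ρ * e) ε K Q ((k.up m).m0 + m₁) n E₀ z AA a g AA' a' g' th e' G Γ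
            (Good A (k.up m) (2 * h8 Q (ρ * e) n) hW (m8 K e n) (Tg (h8 Q (ρ * e) n) K) G Γ)

/-- The future is locally regular. -/
def GdFw51 (μ : Measure ℝ) (s Φ σ : ℝ) : GdF51 μ s := fun A _ _ _ M T G Γ b c =>
  {ω | Lr31 μ s (pt c) T (M / 2) 2 A Φ σ (bh16 μ s Γ.h ω Γ.p Γ.M Γ.N ((G.z b c).1 + T b)) ((G.z b c).1 + T b) b}

/-- The future is not steep at `b ≤ 7 M / 16`, if it is locally regular at the scale `b + 1`. -/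
def GdNs51 (μ : Measure ℝ) (s Φ σ : ℝ) : GdF51 μ s := fun A k T0 hW M T G Γ b c =>
  {ω | 16 * b ≤ 7 * M → Lr31 μ s (pt c) T (M / 2) 2 A Φ σ (bh16 μ s Γ.h ω Γ.p Γ.M Γ.N ((G.z (b + 1) c).1 + T (b + 1)))
    ((G.z (b + 1) c).1 + T (b + 1)) (b + 1) → ω ∈ NS Γ (k.G hW M) (k.th μ s T0) k.m0 k.τ₀ b c}

/-- The two pasts are locally regular. -/
def GdPa51 (μ : Measure ℝ) (s Φ σ : ℝ) : GdF51 μ s := fun A _ _ _ M T G Γ b c =>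
  {ω | Lr31 μ s (pt c) T (M / 2) 2 A Φ σ (fh84 μ s Γ.h ω Γ.p Γ.M Cx.l ((G.z b c).1 - T b)) ((G.z b c).1 - T b) b ∧
    Lr31 μ s (pt c) T (M / 2) 2 A Φ σ (fh84 μ s Γ.h ω Γ.p Γ.M Γ.r ((G.z b c).1 - T b)) ((G.z b c).1 - T b) b}

/-- **THE CLAUSE OF THE FUTURE.** -/
def FwQ51 (μ : Measure ℝ) (s : ℝ) : Prop :=
  ∃ Φ : ℝ, 1 ≤ Φ ∧ ∀ ρ : ℝ, 0 < ρ → ρ ≤ 1 → ∀ e : ℝ, 0 < e → e ≤ 1 / 32 → ∃ K₁ : ℕ, ∀ K : ℕ, K₁ ≤ K →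
    ∀ (R : ℝ) (B : ℕ) (C₀ : ℝ), 1 ≤ R → 2 ≤ B → 1 ≤ C₀ → ∀ σ ε : ℝ, 0 < σ → 0 < ε → ClT51 μ s ρ e K R B C₀ ε (GdFw51 μ s Φ σ)

/-- **THE CLAUSE `NS`.** -/
def NsQ51 (μ : Measure ℝ) (s : ℝ) : Prop :=
  ∀ Φ : ℝ, 1 ≤ Φ → ∀ ρ : ℝ, 0 < ρ → ρ ≤ 1 → ∀ e : ℝ, 0 < e → e ≤ 1 / 32 → ∃ K₁ : ℕ, ∀ K : ℕ, K₁ ≤ K →
    ∀ (R : ℝ) (B : ℕ) (C₀ : ℝ), 1 ≤ R → 2 ≤ B → 1 ≤ C₀ → ∃ σ₀ : ℝ, 0 < σ₀ ∧ ∀ σ ε : ℝ, 0 < σ → σ ≤ σ₀ → 0 < ε →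
      ClA51 μ s ρ e K R B C₀ ε (GdNs51 μ s Φ σ)

/-- **THE CLAUSE OF THE PAST.** -/
def PaQ51 (μ : Measure ℝ) (s : ℝ) : Prop :=
  ∃ Φ : ℝ, 1 ≤ Φ ∧ ∀ ρ : ℝ, 0 < ρ → ρ ≤ 1 → ∀ e : ℝ, 0 < e → e ≤ 1 / 32 → ∃ K₁ : ℕ, ∀ K : ℕ, K₁ ≤ K →
    ∀ (R : ℝ) (B : ℕ) (C₀ : ℝ), 1 ≤ R → 2 ≤ B → 1 ≤ C₀ → ∀ σ ε : ℝ, 0 < σ → 0 < ε → ClT51 μ s ρ e K R B C₀ ε (GdPa51 μ s Φ σ)

/-- **FEW SCALES ARE NOT REGULAR**, one context. -/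
def Tm51 (μ : Measure ℝ) (s A Φ σ δ e e' : ℝ) (K Q n : ℕ) (e₀ : ℝ) (k : SC51) (hW : Wok μ s (2 * h8 Q e₀ n) k.K) (G : Gd) (Γ : Cx) :
    Prop :=
  ∃ bad : Set Env, law μ bad ≤ 3 * ENNReal.ofReal ((n : ℝ) ^ (-(2 : ℝ))) ∧ ∀ ω ∉ bad, ∀ c ∈ S8 e K n G Γ,
    Real.exp (-((n : ℝ) ^ e')) ≤ Γ.w c ω → ∀ F : Finset ℕ, F ⊆ range (m8 K e n + 1) →
      (∀ b ∈ F, ¬ (TM31 μ s Γ G (Tg (h8 Q e₀ n) K) (m8 K e n / 2) 2 A Φ σ b c ω ∧ (16 * b ≤ 7 * m8 K e n →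
        ω ∈ NS Γ (k.G hW (m8 K e n)) (k.th μ s (2 * h8 Q e₀ n)) k.m0 k.τ₀ b c))) → (F.card : ℝ) ≤ δ * m8 K e n

/-- **FEW SCALES ARE NOT REGULAR, WITH THE ORDER OF THE CONSTANTS** (helper77's `TmQ77`). -/
def TmQ51 (μ : Measure ℝ) (s : ℝ) : Prop :=
  ∃ Φ : ℝ, 1 ≤ Φ ∧ ∀ ρ : ℝ, 0 < ρ → ρ ≤ 1 → ∀ e : ℝ, 0 < e → e ≤ 1 / 32 → ∃ K₁ : ℕ, ∀ K : ℕ, K₁ ≤ K →
    ∀ (R : ℝ) (B : ℕ) (C₀ : ℝ), 1 ≤ R → 2 ≤ B → 1 ≤ C₀ → ∀ σ δ : ℝ, 0 < σ → 0 < δ → ∃ A : ℝ, 0 ≤ A ∧ ∀ k : SC51, k.K = K →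
      ∃ mb : ℕ, ∀ m : ℕ, mb ≤ m → ∀ m₁ : ℕ, 1 ≤ m₁ → ∃ s₁ e' : ℝ, 0 < s₁ ∧ 0 < e' ∧
        ∀ c₂ : ℝ, 0 < c₂ → c₂ ≤ s₁ → ∀ δ' : ℝ, 0 < δ' → δ' ≤ c₂ / 16 → ∃ κ₀ : ℝ, 0 < κ₀ ∧ ∀ κ : ℝ, 0 < κ → κ ≤ κ₀ →
          ∃ Q₀ : ℕ, 1 ≤ Q₀ ∧ ∀ Q : ℕ, Q₀ ∣ Q → 1 ≤ Q → ∀ᶠ n : ℕ in atTop, ∀ G : Gd,
            GW μ s R B C₀ (h8 Q (ρ * e) n) K (m8 K e n + ((k.up m).m0 + m₁)) G → ∀ (hW : Wok μ s (2 * h8 Q (ρ * e) n) k.K) (Γ : Cx),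
              Adm μ s c₂ δ' κ n Γ → Tm51 μ s A Φ σ δ e e' K Q n (ρ * e) (k.up m) hW G Γ

/-! ### The count of one clause -/

/-- The number of the sites. -/
theorem cardS8_51 {s c C : ℝ} {n₀ : ℕ} (hI : In μ s c C n₀) {e e₀ : ℝ} (he : 0 < e) (he1 : e ≤ 1 / 32) (he₀ : 0 < e₀) (hee : e₀ ≤ e)
    {K : ℕ} (hK : 2 ≤ K) (x : ℕ) {c₂ δ κ : ℝ} (hc₂ : c₂ ≤ 1 / 32) {R C₀ : ℝ} {B Q : ℕ} (hQ : 1 ≤ Q) :
    ∀ᶠ n : ℕ in atTop, ∀ G : Gd, GW μ s R B C₀ (h8 Q e₀ n) K (m8 K e n + x) G → ∀ Γ : Cx, Adm μ s c₂ δ κ n Γ →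
      ((S8 e K n G Γ).card : ℝ) ≤ (n : ℝ) ^ (16 : ℝ) := by
  have ev : ∀ {y : ℝ}, 0 < y → ∀ M : ℝ, ∀ᶠ n : ℕ in atTop, M ≤ (n : ℝ) ^ y := fun hy M =>
    ((tendsto_rpow_atTop hy).comp tendsto_natCast_atTop_atTop).eventually_ge_atTop M
  by_cases hB : 1 ≤ B
  swap
  · refine Eventually.of_forall fun n G hG => ?_
    have := hG.B2
    omega
  filter_upwards [gridN8 (x := x) he he1 he₀ hee hK hQ, Vn8 hI he he1 he₀ hee hK hQ hB,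
    ev (show (0 : ℝ) < 29 / 32 by norm_num) 4, eventually_ge_atTop 3] with n hg8 hV8 ev4 hn3
  intro G hG Γ hA
  have hV : G.V (m8 K e n) ≤ n := by
    have h1 := hG.V (m8 K e n) hg8.m0 (Nat.le_add_right _ _)
    have h3 := hV8 (m8 K e n) hg8.m0 le_rfl
    have h4 : (G.V (m8 K e n) : ℝ) ≤ n := by
      have h5 : (0 : ℝ) ≤ (m8 K e n : ℝ) + 2 := by positivity
      linarith
    exact_mod_cast h4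
  have hs₀ : ∀ r : ℕ, |(G.s r : ℝ) - Pool.Agent.W_7d29a1_H.sl μ s * r| ≤ n := fun r => by
    refine (hG.err' r).trans ?_
    have h1 : ((m8 K e n + x + 2 : ℕ) : ℝ) ≤ n := by exact_mod_cast hg8.Lx
    push_cast at h1 ⊢
    linarith
  have hn1 : 1 ≤ n := by omega
  have hkN : G.H (m8 K e n) * ((Γ.N - n - T98.dT (G.H (m8 K e n)) ((n : ℝ) ^ e)) / G.H (m8 K e n)) ≤ Γ.N := by
    refine (Nat.mul_div_le _ _).trans ?_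
    omega
  have h1 : (S8 e K n G Γ).card ≤ n ^ 16 := card_Sc8 hkN (rows_le8 hA hc₂ hn1 ev4) hn3 hV (sl8 hI) hs₀
  have e2 : (n : ℝ) ^ (16 : ℝ) = (n : ℝ) ^ 16 := by norm_cast
  rw [e2]
  exact_mod_cast h1

/-- The count of a clause after the constant `A`. -/
def CtK51 (μ : Measure ℝ) (s ρ e : ℝ) (K : ℕ) (R : ℝ) (B : ℕ) (C₀ δ A : ℝ) (Good : GdF51 μ s) : Prop :=
  ∀ k : SC51, k.K = K → ∃ mb : ℕ, ∀ m : ℕ, mb ≤ m → ∀ m₁ : ℕ, 1 ≤ m₁ → ∃ s₁ e' : ℝ, 0 < s₁ ∧ 0 < e' ∧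
    ∀ c₂ : ℝ, 0 < c₂ → c₂ ≤ s₁ → ∀ δ' : ℝ, 0 < δ' → δ' ≤ c₂ / 16 → ∃ κ₀ : ℝ, 0 < κ₀ ∧ ∀ κ : ℝ, 0 < κ → κ ≤ κ₀ →
      ∃ Q₀ : ℕ, 1 ≤ Q₀ ∧ ∀ Q : ℕ, Q₀ ∣ Q → 1 ≤ Q → ∀ᶠ n : ℕ in atTop, ∀ G : Gd,
        GW μ s R B C₀ (h8 Q (ρ * e) n) K (m8 K e n + ((k.up m).m0 + m₁)) G → ∀ (hW : Wok μ s (2 * h8 Q (ρ * e) n) k.K) (Γ : Cx),
          Adm μ s c₂ δ' κ n Γ → ∃ bad : Set Env, law μ bad ≤ ENNReal.ofReal ((n : ℝ) ^ (-(2 : ℝ))) ∧ ∀ ω ∉ bad,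
            ∀ c ∈ S8 e K n G Γ, Real.exp (-((n : ℝ) ^ e')) ≤ Γ.w c ω → ∀ F : Finset ℕ, F ⊆ range (m8 K e n + 1) →
              (∀ b ∈ F, ω ∉ Good A (k.up m) (2 * h8 Q (ρ * e) n) hW (m8 K e n) (Tg (h8 Q (ρ * e) n) K) G Γ b c) →
              (F.card : ℝ) ≤ δ * m8 K e n

open Classical in
/-- **THE COUNT OF ONE CLAUSE**, the part after the tails. -/
theorem ck51 {s c C : ℝ} {n₀ : ℕ} (hI : In μ s c C n₀) {ρ e : ℝ} (hρ : 0 < ρ) (hρ1 : ρ ≤ 1) (he : 0 < e) (he1 : e ≤ 1 / 32) {K : ℕ}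
    (hK : 2 ≤ K) {R : ℝ} {B : ℕ} {C₀ δ : ℝ} (hδ : 0 < δ) {AA a g AA' a' g' th : ℝ} (hAA : 0 < AA) (ha : 0 < a) (hg : 0 < g)
    (hAA' : 0 < AA') (ha' : 0 < a') (hg' : 0 < g') (hth : 1 < th) :
    ∃ z δ₀ : ℝ, 1 ≤ z ∧ 0 < δ₀ ∧ ∀ (A : ℝ) (Good : GdF51 μ s),
      ClK51 μ s ρ e K R B C₀ (δ / 4) AA a g AA' a' g' th z δ₀ A Good → CtK51 μ s ρ e K R B C₀ δ A Good := by
  obtain ⟨z, δ₀, hz, hδ₀, hct⟩ := Ct90.ctQ90 (μ := μ) (s := s) he he1 hK (show 0 < δ / 4 by linarith) 1 1 hAA ha hg hAA' ha' hg' hth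
  refine ⟨z, δ₀, hz, hδ₀, fun A Good h => ?_⟩
  have he₀ : 0 < ρ * e := mul_pos hρ he
  have hee : ρ * e ≤ e := mul_le_of_le_one_left he.le hρ1
  intro k hk
  obtain ⟨mb, h⟩ := h k hk
  refine ⟨mb, fun m hm m₁ hm₁ => ?_⟩
  obtain ⟨s₁, e', hs₁, he', h⟩ := h m hm m₁ hm₁
  refine ⟨min s₁ (1 / 32), e', lt_min hs₁ (by norm_num), he', fun c₂ hc₂ hc₂s δ' hδ' hδc => ?_⟩
  obtain ⟨κ₀, hκ₀, h⟩ := h c₂ hc₂ (hc₂s.trans (min_le_left _ _)) δ' hδ' hδc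
  refine ⟨κ₀, hκ₀, fun κ hκ hκκ => ?_⟩
  obtain ⟨Q₀, hQ₀, h⟩ := h κ hκ hκκ
  refine ⟨Q₀, hQ₀, fun Q hQQ hQ1 => ?_⟩
  have hlK : 0 < Real.log K := Real.log_pos (by exact_mod_cast (by omega : 1 < K))
  have hκm : 0 < e / (8 * Real.log K) := by positivity
  have hlog : Tendsto (fun n : ℕ => e / (8 * Real.log K) * Real.log n) atTop atTop :=
    (Real.tendsto_log_atTop.comp tendsto_natCast_atTop_atTop).const_mul_atTop hκm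
  filter_upwards [h Q hQQ hQ1, hct (ρ * e) he₀ hee ((k.up m).m0 + m₁) 0 R C₀ B Q hQ1,
    cardS8_51 (μ := μ) hI he he1 he₀ hee hK ((k.up m).m0 + m₁) (c₂ := c₂) (δ := δ') (κ := κ) (hc₂s.trans (min_le_right _ _)) (R := R) (C₀ := C₀)
      (B := B) hQ1, gridN8 (x := 0) he he1 he₀ hee hK hQ1, hlog.eventually_ge_atTop (8 / δ)] with n h hct hcard hg8 hl
  intro G hG hW Γ hA'
  obtain ⟨E₀, hE₀, hct⟩ := hct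
  obtain ⟨dL, dN, Mm, tl, q₀, Sw, scL, scN, bad, hM1, hM2, hdL, hdN, hSw, hq₀, htl, htl', hbad, hcl⟩ := h E₀ hE₀ G hG hW Γ hA'
  obtain ⟨Bd, _, hBd, hB⟩ := hct G hG (S8 e K n G Γ) (hcard G hG Γ hA') hM1 hM2 hdL hdN Sw hSw q₀ hq₀ htl htl' scL scN
    (bad := bad) (Qp := fun c η => Real.exp (-((n : ℝ) ^ e')) ≤ Γ.w c η)
    (Un := fun u c => {η | (δ / 4 * m8 K e n ≤ u ∧ u + δ / 4 * m8 K e n ≤ m8 K e n) ∧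
      η ∉ Good A (k.up m) (2 * h8 Q (ρ * e) n) hW (m8 K e n) (Tg (h8 Q (ρ * e) n) K) G Γ u c})
    hbad (fun η hη c hc hQ u hu h1 h2 h3 => h3.2 (hcl η hη c hc hQ u h3.1.1 h3.1.2 h1 h2)) {0} (by simp) (by simp)
  refine ⟨Bd, hBd, fun ω hω c hc hw F hF hFG => ?_⟩
  have h1 := hB ω hω c hc hw (F.filter fun u : ℕ => δ / 4 * m8 K e n ≤ (u : ℝ) ∧ (u : ℝ) + δ / 4 * m8 K e n ≤ m8 K e n)
    ((filter_subset _ _).trans hF) fun u hu => by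
    obtain ⟨h1, h2⟩ := mem_filter.1 hu
    exact ⟨0, by simp, h2, hFG u h1⟩
  have h2 : ((F.filter fun u : ℕ => ¬ (δ / 4 * m8 K e n ≤ (u : ℝ) ∧ (u : ℝ) + δ / 4 * m8 K e n ≤ m8 K e n)).card : ℝ) ≤
      2 * (δ / 4 * m8 K e n + 1) := by
    have h3 : (F.filter fun u : ℕ => ¬ (δ / 4 * m8 K e n ≤ (u : ℝ) ∧ (u : ℝ) + δ / 4 * m8 K e n ≤ m8 K e n)) ⊆
        range ⌈δ / 4 * (m8 K e n : ℝ)⌉₊ ∪ (range ⌈δ / 4 * (m8 K e n : ℝ)⌉₊).image fun i => m8 K e n - i := by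
      intro u hu
      obtain ⟨h4, h5⟩ := mem_filter.1 hu
      have h6 : u ≤ m8 K e n := Nat.lt_succ_iff.1 (mem_range.1 (hF h4))
      rw [mem_union, mem_image]
      by_cases h7 : δ / 4 * m8 K e n ≤ (u : ℝ)
      · right
        have h8 : ¬ ((u : ℝ) + δ / 4 * m8 K e n ≤ m8 K e n) := fun h => h5 ⟨h7, h⟩
        rw [not_le] at h8
        refine ⟨m8 K e n - u, ?_, by omega⟩
        rw [mem_range]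
        refine Nat.lt_ceil.2 ?_
        rw [Nat.cast_sub h6]
        linarith
      · left
        rw [not_le] at h7
        rw [mem_range]
        exact Nat.lt_ceil.2 h7
    have h4 := (card_le_card h3).trans ((card_union_le _ _).trans (Nat.add_le_add_left card_image_le _))
    rw [card_range] at h4
    have h5 : ((⌈δ / 4 * (m8 K e n : ℝ)⌉₊ : ℕ) : ℝ) < δ / 4 * m8 K e n + 1 := Nat.ceil_lt_add_one (by positivity)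
    have h6 : ((F.filter fun u : ℕ => ¬ (δ / 4 * m8 K e n ≤ (u : ℝ) ∧ (u : ℝ) + δ / 4 * m8 K e n ≤ m8 K e n)).card : ℝ) ≤
        (⌈δ / 4 * (m8 K e n : ℝ)⌉₊ : ℝ) + (⌈δ / 4 * (m8 K e n : ℝ)⌉₊ : ℝ) := by exact_mod_cast h4
    linarith
  have h3 : (F.filter fun u : ℕ => δ / 4 * m8 K e n ≤ (u : ℝ) ∧ (u : ℝ) + δ / 4 * m8 K e n ≤ m8 K e n).card +
      (F.filter fun u : ℕ => ¬ (δ / 4 * m8 K e n ≤ (u : ℝ) ∧ (u : ℝ) + δ / 4 * m8 K e n ≤ m8 K e n)).card = F.card :=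
    card_filter_add_card_filter_not _
  have h4 : (F.card : ℝ) = ((F.filter fun u : ℕ => δ / 4 * m8 K e n ≤ (u : ℝ) ∧ (u : ℝ) + δ / 4 * m8 K e n ≤ m8 K e n).card : ℝ) +
      ((F.filter fun u : ℕ => ¬ (δ / 4 * m8 K e n ≤ (u : ℝ) ∧ (u : ℝ) + δ / 4 * m8 K e n ≤ m8 K e n)).card : ℝ) := by exact_mod_cast h3.symm
  have h5 : 8 ≤ δ * m8 K e n := by
    have h6 := hl.trans hg8.m1
    rw [div_le_iff₀ hδ] at h6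
    linarith
  rw [h4]
  linarith

/-- **THE COUNT OF ONE CLAUSE.** -/
theorem cl51 {s c C : ℝ} {n₀ : ℕ} (hI : In μ s c C n₀) {ρ e : ℝ} (hρ : 0 < ρ) (hρ1 : ρ ≤ 1) (he : 0 < e) (he1 : e ≤ 1 / 32) {K : ℕ}
    (hK : 2 ≤ K) {R : ℝ} {B : ℕ} {C₀ δ : ℝ} (hδ : 0 < δ) {Good : GdF51 μ s} (h : ClT51 μ s ρ e K R B C₀ (δ / 4) Good) :
    ∃ A : ℝ, 0 ≤ A ∧ CtK51 μ s ρ e K R B C₀ δ A Good := by
  obtain ⟨AA, a, g, AA', a', g', th, hAA, ha, hg, hAA', ha', hg', hth, h⟩ := h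
  obtain ⟨z, δ₀, hz, hδ₀, hck⟩ := ck51 (R := R) (B := B) (C₀ := C₀) hI hρ hρ1 he he1 hK hδ hAA ha hg hAA' ha' hg' hth
  obtain ⟨A, hA, h⟩ := h z δ₀ hz hδ₀
  exact ⟨A, hA, hck A Good h⟩

/-- **THE COUNT OF ONE CLAUSE WITH A GIVEN CONSTANT.** -/
theorem ca51 {s c C : ℝ} {n₀ : ℕ} (hI : In μ s c C n₀) {ρ e : ℝ} (hρ : 0 < ρ) (hρ1 : ρ ≤ 1) (he : 0 < e) (he1 : e ≤ 1 / 32) {K : ℕ}
    (hK : 2 ≤ K) {R : ℝ} {B : ℕ} {C₀ δ : ℝ} (hδ : 0 < δ) {Good : GdF51 μ s} (h : ClA51 μ s ρ e K R B C₀ (δ / 4) Good) :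
    ∀ A : ℝ, 0 ≤ A → CtK51 μ s ρ e K R B C₀ δ A Good := by
  obtain ⟨AA, a, g, AA', a', g', th, hAA, ha, hg, hAA', ha', hg', hth, h⟩ := h
  obtain ⟨z, δ₀, hz, hδ₀, hck⟩ := ck51 (R := R) (B := B) (C₀ := C₀) hI hρ hρ1 he he1 hK hδ hAA ha hg hAA' ha' hg' hth
  exact fun A hA => hck A Good (h z δ₀ hz hδ₀ A hA)

/-! ### Monotonicity of the regularity -/

theorem lr_mono51 {s c C : ℝ} {n₀ : ℕ} (hI : In μ s c C n₀) {κ : Pt} {T : ℕ → ℕ} {Mt : ℕ} {K₁ A Φ σ A' Φ' σ' : ℝ} {F : ℤ → ℝ}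
    {row b : ℕ} (hA : 0 ≤ A) (hAA : A ≤ A') (hΦ : 1 ≤ Φ) (hΦΦ : Φ ≤ Φ') (hσσ : σ ≤ σ') (hF : ∀ y, 0 ≤ F y)
    (h : Lr31 μ s κ T Mt K₁ A Φ σ F row b) : Lr31 μ s κ T Mt K₁ A' Φ' σ' F row b := by
  intro n hn y y₀ h1 h2
  refine (h n hn y y₀ h1 h2).trans (mul_le_mul_of_nonneg_right (Real.exp_le_exp.2 ?_) (hF y₀))
  have hE : 0 ≤ EE μ s (T b) := zero_le_one.trans (Pool.Agent.W_7d29a1_H.one_le_EE (μ := μ) (s := s) _)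
  have h3 : Φ ^ n ≤ Φ' ^ n := pow_le_pow_left₀ (by linarith) hΦΦ n
  have h4 : 0 ≤ Φ ^ n := by positivity
  have h5 : A * (Φ ^ n * EE μ s (T b)) ≤ A' * (Φ' ^ n * EE μ s (T b)) :=
    mul_le_mul hAA (mul_le_mul_of_nonneg_right h3 hE) (by positivity) (hA.trans hAA)
  have h6 : σ * (EE μ s (T b) / wd μ s (T b)) * |(y : ℝ) - y₀| ≤ σ' * (EE μ s (T b) / wd μ s (T b)) * |(y : ℝ) - y₀| :=
    mul_le_mul_of_nonneg_right (mul_le_mul_of_nonneg_right hσσ (div_nonneg hE (hI.wd_nonneg _))) (abs_nonneg _)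
  linarith

/-- The count of a family of scales with the shift `1`. -/
theorem sh51 {U : ℕ → Prop} {M : ℕ} {b : ℝ} (hU : ∀ F : Finset ℕ, F ⊆ range (M + 1) → (∀ u ∈ F, U u) → (F.card : ℝ) ≤ b)
    (F : Finset ℕ) (hF : ∀ u ∈ F, u + 1 ≤ M) (h : ∀ u ∈ F, U (u + 1)) : (F.card : ℝ) ≤ b := by
  classical
  have h1 : F.card = (F.image fun u => u + 1).card := (card_image_of_injective _ fun _ _ h => by simpa using h).symm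
  rw [h1]
  refine hU _ (fun w hw => ?_) fun w hw => ?_
  · obtain ⟨u, hu, rfl⟩ := mem_image.1 hw
    exact mem_range.2 (by have := hF u hu; omega)
  · obtain ⟨u, hu, rfl⟩ := mem_image.1 hw
    exact h u hu

/-- **FEW SCALES ARE NOT REGULAR.** -/
theorem tmU51 {s c C : ℝ} {n₀ : ℕ} (hI : In μ s c C n₀) (hF : FwQ51 μ s) (hN : NsQ51 μ s) (hP : PaQ51 μ s) : TmQ51 μ s := by
  obtain ⟨Φf, hΦf, hF⟩ := hF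
  obtain ⟨Φp, hΦp, hP⟩ := hP
  have hN := hN Φf hΦf
  refine ⟨max Φf Φp, hΦf.trans (le_max_left _ _), fun ρ hρ hρ1 e he he1 => ?_⟩
  obtain ⟨Kf, hF⟩ := hF ρ hρ hρ1 e he he1
  obtain ⟨Kp, hP⟩ := hP ρ hρ hρ1 e he he1
  obtain ⟨Kn, hN⟩ := hN ρ hρ hρ1 e he he1
  refine ⟨max (max Kf Kp) (max Kn 2), fun K hK R B C₀ hR hB hC σ δ hσ hδ => ?_⟩
  have k1 : Kf ≤ K := (le_max_left _ _).trans ((le_max_left _ _).trans hK)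
  have k2 : Kp ≤ K := (le_max_right _ _).trans ((le_max_left _ _).trans hK)
  have k4 : Kn ≤ K := (le_max_left _ _).trans ((le_max_right _ _).trans hK)
  have k3 : 2 ≤ K := (le_max_right _ _).trans ((le_max_right _ _).trans hK)
  have hδ2 : 0 < δ / 4 := by linarith
  obtain ⟨σ₀, hσ₀, hN⟩ := hN K k4 R B C₀ hR hB hC
  obtain ⟨σf, hσf⟩ : ∃ v : ℝ, v = min σ σ₀ := ⟨_, rfl⟩
  have hσf0 : 0 < σf := hσf ▸ lt_min hσ hσ₀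
  have hσf1 : σf ≤ σ := hσf ▸ min_le_left _ _
  have hσf2 : σf ≤ σ₀ := hσf ▸ min_le_right _ _
  obtain ⟨Af, hAf, hF⟩ := cl51 hI hρ hρ1 he he1 k3 hδ2 (hF K k1 R B C₀ hR hB hC σf (δ / 4 / 4) hσf0 (by linarith))
  have hN := ca51 hI hρ hρ1 he he1 k3 hδ2 (hN σf (δ / 4 / 4) hσf0 hσf2 (by linarith)) Af hAf
  obtain ⟨Ap, hAp, hP⟩ := cl51 hI hρ hρ1 he he1 k3 hδ2 (hP K k2 R B C₀ hR hB hC σ (δ / 4 / 4) hσ (by linarith))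
  refine ⟨max Af Ap, hAf.trans (le_max_left _ _), fun k hk => ?_⟩
  obtain ⟨mf, hF⟩ := hF k hk
  obtain ⟨mn, hN⟩ := hN k hk
  obtain ⟨mp, hP⟩ := hP k hk
  refine ⟨max (max mf mp) mn, fun m hm m₁ hm₁ => ?_⟩
  obtain ⟨sf, ef, hsf, hef, hF⟩ := hF m ((le_max_left _ _).trans ((le_max_left _ _).trans hm)) m₁ hm₁
  obtain ⟨sp, ep, hsp, hep, hP⟩ := hP m ((le_max_right _ _).trans ((le_max_left _ _).trans hm)) m₁ hm₁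
  obtain ⟨sn, en, hsn, hen, hN⟩ := hN m ((le_max_right _ _).trans hm) m₁ hm₁
  refine ⟨min (min sf sp) sn, min (min ef ep) en, lt_min (lt_min hsf hsp) hsn, lt_min (lt_min hef hep) hen,
    fun c₂ hc₂ hc₂s δ' hδ' hδc => ?_⟩
  obtain ⟨κf, hκf, hF⟩ := hF c₂ hc₂ (hc₂s.trans ((min_le_left _ _).trans (min_le_left _ _))) δ' hδ' hδc
  obtain ⟨κp, hκp, hP⟩ := hP c₂ hc₂ (hc₂s.trans ((min_le_left _ _).trans (min_le_right _ _))) δ' hδ' hδc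
  obtain ⟨κn, hκn, hN⟩ := hN c₂ hc₂ (hc₂s.trans (min_le_right _ _)) δ' hδ' hδc
  refine ⟨min (min κf κp) κn, lt_min (lt_min hκf hκp) hκn, fun κ hκ hκκ => ?_⟩
  obtain ⟨Qf, hQf, hF⟩ := hF κ hκ (hκκ.trans ((min_le_left _ _).trans (min_le_left _ _)))
  obtain ⟨Qp, hQp, hP⟩ := hP κ hκ (hκκ.trans ((min_le_left _ _).trans (min_le_right _ _)))
  obtain ⟨Qn, hQn, hN⟩ := hN κ hκ (hκκ.trans (min_le_right _ _))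
  refine ⟨Qf * Qp * Qn, Nat.mul_pos (Nat.mul_pos hQf hQp) hQn, fun Q hQ hQ1 => ?_⟩
  filter_upwards [hF Q (((dvd_mul_right _ _).trans (dvd_mul_right _ _)).trans hQ) hQ1,
    hP Q (((dvd_mul_left _ _).trans (dvd_mul_right _ _)).trans hQ) hQ1, hN Q ((dvd_mul_left _ _).trans hQ) hQ1,
    eventually_ge_atTop 1, gridN8 (x := 0) he he1 (mul_pos hρ he) (mul_le_of_le_one_left he.le hρ1) k3 hQ1] with n hF hP hN hn1 hg8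
  intro G hG hW Γ hA
  obtain ⟨bf, hbf, hF⟩ := hF G hG hW Γ hA
  obtain ⟨bp, hbp, hP⟩ := hP G hG hW Γ hA
  obtain ⟨bn, hbn, hN⟩ := hN G hG hW Γ hA
  have hnR : (1 : ℝ) ≤ n := by exact_mod_cast hn1
  refine ⟨bf ∪ (bp ∪ bn), ?_, fun ω hω c' hc' hw F hFr hFb => ?_⟩
  · have e3 : (3 : ℝ≥0∞) = 1 + (1 + 1) := by norm_num
    rw [e3, add_mul, add_mul, one_mul]
    exact (measure_union_le _ _).trans (add_le_add hbf ((measure_union_le _ _).trans (add_le_add hbp hbn)))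
  classical
  have wg : ∀ {e'' : ℝ}, min (min ef ep) en ≤ e'' → Real.exp (-((n : ℝ) ^ e'')) ≤ Γ.w c' ω := fun h => le_trans (Real.exp_le_exp.2
    (neg_le_neg (Real.rpow_le_rpow_of_exponent_le hnR h))) hw
  have wf := wg ((min_le_left _ _).trans (min_le_left _ _))
  have wp := wg ((min_le_left _ _).trans (min_le_right _ _))
  have wn := wg (min_le_right _ _)
  obtain ⟨T, hT⟩ : ∃ T : ℕ → ℕ, T = Tg (h8 Q (ρ * e) n) K := ⟨_, rfl⟩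
  rw [← hT] at hF hP hN hFb
  obtain ⟨Uf, hUf⟩ : ∃ U : ℕ → Prop, U = fun b => ω ∉ GdFw51 μ s Φf σf Af (k.up m) (2 * h8 Q (ρ * e) n) hW (m8 K e n) T G Γ b c' := ⟨_, rfl⟩
  obtain ⟨Up, hUp⟩ : ∃ U : ℕ → Prop, U = fun b => ω ∉ GdPa51 μ s Φp σ Ap (k.up m) (2 * h8 Q (ρ * e) n) hW (m8 K e n) T G Γ b c' := ⟨_, rfl⟩
  obtain ⟨Un, hUn⟩ : ∃ U : ℕ → Prop, U = fun b => ω ∉ GdNs51 μ s Φf σf Af (k.up m) (2 * h8 Q (ρ * e) n) hW (m8 K e n) T G Γ b c' := ⟨_, rfl⟩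
  have hcf : ∀ F : Finset ℕ, F ⊆ range (m8 K e n + 1) → (∀ b ∈ F, Uf b) → (F.card : ℝ) ≤ δ / 4 * m8 K e n := by
    rw [hUf]
    exact hF ω (fun h => hω (Or.inl h)) c' hc' wf
  have hcp : ∀ F : Finset ℕ, F ⊆ range (m8 K e n + 1) → (∀ b ∈ F, Up b) → (F.card : ℝ) ≤ δ / 4 * m8 K e n := by
    rw [hUp]
    exact hP ω (fun h => hω (Or.inr (Or.inl h))) c' hc' wp
  have hcn : ∀ F : Finset ℕ, F ⊆ range (m8 K e n + 1) → (∀ b ∈ F, Un b) → (F.card : ℝ) ≤ δ / 4 * m8 K e n := by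
    rw [hUn]
    exact hN ω (fun h => hω (Or.inr (Or.inr h))) c' hc' wn
  have key : ∀ b ∈ F, Uf b ∨ Up b ∨ Un b ∨ (16 * b ≤ 7 * m8 K e n ∧ Uf (b + 1)) := by
    intro b hb
    by_contra hcon
    push Not at hcon
    obtain ⟨a1, a2, a3, a4⟩ := hcon
    rw [hUf] at a1 a4
    rw [hUp] at a2
    rw [hUn] at a3
    simp only [not_not] at a1 a2 a3 a4
    obtain ⟨p1, p2⟩ := a2
    have hok := hA.ok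
    refine hFb b hb ⟨⟨?_, ?_, ?_⟩, fun h16 => a3 h16 (a4 h16)⟩
    · exact lr_mono51 hI hAf (le_max_left _ _) hΦf (le_max_left _ _) hσf1 (fun y => (U16.bh16_pos (fun k => Γ.p_pos k) _ y).le) a1
    · exact lr_mono51 hI hAp (le_max_right _ _) hΦp (le_max_right _ _) le_rfl
        (fun y => SysP84.fh_nonneg (fun k => Γ.p_pos k) (fun y => Cx.l_nonneg y) _ y) p1
    · exact lr_mono51 hI hAp (le_max_right _ _) hΦp (le_max_right _ _) le_rfl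
        (fun y => SysP84.fh_nonneg (fun k => Γ.p_pos k) (fun y => Cx.r_nonneg hok y) _ y) p2
  have hsub : F ⊆ F.filter Uf ∪ (F.filter Up ∪ (F.filter Un ∪ F.filter fun b => 16 * b ≤ 7 * m8 K e n ∧ Uf (b + 1))) := by
    intro b hb
    simp only [mem_union, mem_filter]
    rcases key b hb with h | h | h | h
    · exact Or.inl ⟨hb, h⟩
    · exact Or.inr (Or.inl ⟨hb, h⟩)
    · exact Or.inr (Or.inr (Or.inl ⟨hb, h⟩))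
    · exact Or.inr (Or.inr (Or.inr ⟨hb, h⟩))
  have q1 := hcf (F.filter Uf) ((filter_subset _ _).trans hFr) fun b hb => (mem_filter.1 hb).2
  have q2 := hcp (F.filter Up) ((filter_subset _ _).trans hFr) fun b hb => (mem_filter.1 hb).2
  have q3 := hcn (F.filter Un) ((filter_subset _ _).trans hFr) fun b hb => (mem_filter.1 hb).2
  have hm0 := hg8.m0
  have q4 := sh51 hcf (F.filter fun b => 16 * b ≤ 7 * m8 K e n ∧ Uf (b + 1)) (fun b hb => by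
    have := (mem_filter.1 hb).2.1
    omega) fun b hb => (mem_filter.1 hb).2.2
  have h3 := (card_le_card hsub).trans ((card_union_le _ _).trans (Nat.add_le_add_left ((card_union_le _ _).trans
    (Nat.add_le_add_left (card_union_le _ _) _)) _))
  have h4 : (F.card : ℝ) ≤ ((F.filter Uf).card : ℝ) + (((F.filter Up).card : ℝ) + (((F.filter Un).card : ℝ) +
      ((F.filter fun b => 16 * b ≤ 7 * m8 K e n ∧ Uf (b + 1)).card : ℝ))) := by exact_mod_cast h3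
  linarith

end

end Pool.Agent.W_7d29a1_C1.Nu51
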