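import Pool.Agent.W_7d29a1_C1.FwN51
import Pool.Agent.W_7d29a1_C1.TmU51

/-!
MP_7d29a1_pr, attractor route [C1], field `nu`: **THE CLAUSE OF THE FUTURE, CLOSED** (helper51). `TmF51` : the clause of one contact (the forward
twin of `tmR89`; helper94's `tmG94`). `TpF51` : the top off a rare event (helper17). `fwS51 : TmF51 ⇒ TpF51 ⇒ FwQ51`.
-/

set_option autoImplicit false

namespace Pool.Agent.W_7d29a1_C1.FwN51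

open MeasureTheory Finset Filter Topology
open Pool.Agent.W_7d29a1_F Pool.Agent.W_7d29a1_h4g Pool.Agent.W_7d29a1_H Pool.Agent.W_7d29a1_HS
open Pool.Agent.W_7d29a1_C1.T10
open Pool.Agent.W_7d29a1_C1.H60 (Cx Adm)
open Pool.Agent.W_7d29a1_C1.H8
open Pool.Agent.W_7d29a1_C1.H40 (Cut)
open Pool.Agent.W_7d29a1_C1.Dep6
open Pool.Agent.W_7d29a1_C1.U16 (bh16)
open Pool.Agent.W_7d29a1_C1.H77 (Zt77)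
open Pool.Agent.W_7d29a1_C1.D31 (Lr31)
open Pool.Agent.W_7d29a1_C1.Nu51
open Pool.Agent.W_7d29a1_C1.TmR89 (Sc89)
open Pool.Agent.W_7d29a1_C1.TmG94 (ro94 Cn94 TopF94)
open scoped ENNReal

noncomputable section

/-- **THE CLAUSE OF ONE CONTACT**, the future. -/
def TmF51 (μ : Measure ℝ) (s c : ℝ) : Prop :=
  ∃ (Φ : ℝ) (K₂ : ℕ), 1 ≤ Φ ∧ 2 ≤ K₂ ∧ ∀ (K B : ℕ) (C₀ : ℝ), K₂ ≤ K → 2 ≤ B → 1 ≤ C₀ → ∀ Cn : ℕ, 1 ≤ Cn → ∀ σ : ℝ, 0 < σ →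
    ∃ AA a g AA' a' g' : ℝ, 0 < AA ∧ 0 < a ∧ 0 < g ∧ 0 < AA' ∧ 0 < a' ∧ 0 < g' ∧ ∀ z : ℝ, 1 ≤ z →
    ∃ (A q₁ : ℝ) (n₁ : ℕ), 0 ≤ A ∧ 1 ≤ q₁ ∧ 1 ≤ n₁ ∧ ∀ T : ℕ → ℕ, n₁ ≤ T 1 → Sc89 μ s B K C₀ T → ∀ D : ℕ,
      ∃ (dL : Cut (ℕ × ℤ) → Cut (ℕ × ℤ) → Env → ℕ) (dN : Cut (ℕ × ℤ) → Cut (ℕ × ℤ) → Cut (ℕ × ℤ) → Env → ℕ),
        Dp2 μ (ENNReal.ofReal z) 2 dL ∧ Dp3 μ (ENNReal.ofReal z) 2 dN ∧ (∀ a b η, dL a b η ≤ max D 1) ∧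
        (∀ E₀ x y, 1 ≤ E₀ → law μ {η | E₀ < dL x y η} ≤
          ENNReal.ofReal (AA * Real.exp (-(a * (q₁ * (17 / 16) ^ E₀) ^ g)) + AA' * Real.exp (-(a' * (q₁ * (17 / 16) ^ E₀) ^ g')))) ∧
        ∀ (Γ : Cx) (G : Gd) (L M : ℕ) (x : ℕ × ℤ) (ω : Env) (b : ℕ), Γ.s = s → M + 5 ≤ L → L < D → Cn94 μ s B G T L x →
          ro94 G T x L ≤ Γ.N → (∀ v, 1 ≤ v → v ≤ L → |Γ.h| * wd μ s (B * T v) ≤ c / 4 * EE μ s (B * T v)) →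
          1 ≤ b → b ≤ M → 12 * (|Γ.h| * ((ro94 G T x L - ro94 G T x b : ℕ) : ℝ)) ≤ 1 →
          ((ro94 G T x L - ro94 G T x b : ℕ) : ℝ) ≤ Real.exp (EE μ s (2 * T (b + 1))) →
          n₁ * K₂ ^ ((M - b + 1) / Cn) ≤ T (b + 1) → Ok6 ∅ dL dN lb6 lbN6 (Zt77 G T L x) b ω →
          TopF94 μ s Γ G T M L (4 * C₀) x ω →
            Lr31 μ s (pt x) T M 2 A Φ σ (bh16 μ s Γ.h ω Γ.p Γ.M Γ.N ((G.z b x).1 + T b)) ((G.z b x).1 + T b) b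

/-- **THE TOP OF THE FUTURE OFF A RARE EVENT.** -/
def TpF51 (μ : Measure ℝ) (s : ℝ) : Prop :=
  ∀ (K B : ℕ) (R C₀ : ℝ), 2 ≤ K → 2 ≤ B → 1 ≤ C₀ → 1 ≤ R → ∀ e : ℝ, 0 < e → e ≤ 1 / 32 → ∀ e₀ : ℝ, 0 < e₀ → e₀ ≤ e → ∀ (x : ℕ) (Kt : ℝ),
    0 < Kt → ∃ s₁ e' : ℝ, 0 < s₁ ∧ 0 < e' ∧ ∀ c₂ : ℝ, 0 < c₂ → c₂ ≤ s₁ → ∀ δ' : ℝ, 0 < δ' → δ' ≤ c₂ / 16 → ∃ κ₀ : ℝ, 0 < κ₀ ∧
      ∀ κ : ℝ, 0 < κ → κ ≤ κ₀ → ∃ Q₀ : ℕ, 1 ≤ Q₀ ∧ ∀ Q : ℕ, Q₀ ∣ Q → 1 ≤ Q → ∀ᶠ n : ℕ in atTop, ∀ G : Gd,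
        GW μ s R B C₀ (h8 Q e₀ n) K (m8 K e n + x) G → ∀ Γ : Cx, Adm μ s c₂ δ' κ n Γ →
          ∃ bad : Set Env, law μ bad ≤ ENNReal.ofReal ((n : ℝ) ^ (-(3 : ℝ))) ∧ ∀ ω ∉ bad, ∀ c ∈ S8 e K n G Γ,
            Real.exp (-((n : ℝ) ^ e')) ≤ Γ.w c ω → TopF94 μ s Γ G (Tg (h8 Q e₀ n) K) (m8 K e n / 2) (m8 K e n + x) Kt c ω

variable {μ : Measure ℝ} [IsProbabilityMeasure μ]

/-- **THE CLAUSE OF THE FUTURE.** -/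
theorem fwS51 {s c C : ℝ} {n₀ : ℕ} (hI : In μ s c C n₀) (hE9 : ∀ᶠ n : ℕ in atTop, (n : ℝ) ^ (1 / 9 : ℝ) ≤ EE μ s n)
    (hT : TmF51 μ s c) (hP : TpF51 μ s) : FwQ51 μ s := by
  obtain ⟨Φ, K₂, hΦ, hK₂, H⟩ := hT
  refine ⟨Φ, hΦ, fun ρ hρ hρ1 e he he1 => ⟨K₂, fun K hK R B C₀ hR hB hC σ ε hσ hε => ?_⟩⟩
  have hK2 : 2 ≤ K := hK₂.trans hK
  have he₀ : 0 < ρ * e := mul_pos hρ he
  have hee : ρ * e ≤ e := mul_le_of_le_one_left he.le hρ1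
  obtain ⟨Cn, hCn⟩ : ∃ Cn : ℕ, Cn = ⌈1 / ε⌉₊ := ⟨_, rfl⟩
  have hCn1 : 1 / ε ≤ Cn := hCn ▸ Nat.le_ceil _
  have hCn2 : 1 ≤ Cn := by
    have h1 : (0 : ℝ) < Cn := lt_of_lt_of_le (by positivity) hCn1
    exact_mod_cast h1
  obtain ⟨AA, a, g, AA', a', g', hAA, ha, hg, hAA', ha', hg', H⟩ := H K B C₀ hK hB hC Cn hCn2 σ hσ
  refine ⟨AA, a, g, AA', a', g', 17 / 16, hAA, ha, hg, hAA', ha', hg', by norm_num, fun z δ₀ hz hδ₀ => ?_⟩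
  obtain ⟨A, q₁, n₁, hA, hq₁, hn₁, H⟩ := H z hz
  refine ⟨A, hA, fun k hk => ⟨0, fun m _ m₁ hm₁ => ?_⟩⟩
  obtain ⟨x, hx⟩ : ∃ x : ℕ, x = (k.up m).m0 + m₁ := ⟨_, rfl⟩
  rw [← hx]
  obtain ⟨s₁, e', hs₁, he', hP⟩ := hP K B R C₀ hK2 hB hC hR e he he1 (ρ * e) he₀ hee x (4 * C₀) (by linarith)
  refine ⟨s₁, e', hs₁, he', fun c₂ hc₂ hc₂s δ' hδ' hδc => ?_⟩
  obtain ⟨κ₀, hκ₀, hP⟩ := hP c₂ hc₂ hc₂s δ' hδ' hδc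
  refine ⟨κ₀, hκ₀, fun κ hκ hκκ => ?_⟩
  obtain ⟨Q₀, hQ₀, hP⟩ := hP κ hκ hκκ
  refine ⟨Q₀, hQ₀, fun Q hQQ hQ1 => ?_⟩
  filter_upwards [hP Q hQQ hQ1, fwNm51 (x := x) (B := B) (n₁ := n₁) (K₂ := K₂) (C₀ := C₀) (c₂ := c₂) (δ' := δ') (κ := κ) hI hE9 he he1 he₀ hee
    hε hK2 hQ1 (by omega) hK hCn1 hC hδ'.le] with n hP hN
  intro E₀ hE₀ G hG hW Γ hA'
  obtain ⟨bad, hbad, hP⟩ := hP G hG Γ hA'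
  obtain ⟨T, hT⟩ : ∃ T : ℕ → ℕ, T = Tg (h8 Q (ρ * e) n) K := ⟨_, rfl⟩
  have hE1 : 1 ≤ E₀ := by
    have h1 : (10 : ℝ) ≤ m8 K e n := by exact_mod_cast hN.m10
    have h2 : (0 : ℝ) < E₀ := lt_of_lt_of_le (by positivity) hE₀
    exact_mod_cast h2
  have hT1 : n₁ ≤ Tg (h8 Q (ρ * e) n) K 1 := by
    rw [Tg_pos le_rfl]
    have h1 : 1 ≤ K ^ 1 := Nat.one_le_pow _ _ (by omega)
    have h2 := hN.h1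
    nlinarith
  obtain ⟨dL, dN, hdL, hdN, -, htl, H⟩ := H (Tg (h8 Q (ρ * e) n) K) hT1 (sc51 hG) (m8 K e n + x + 1)
  refine ⟨dL, dN, 2, _, q₁, ∅, lb6, lbN6, bad, by norm_num, le_rfl, hdL, hdN, by simp, hq₁, fun a b => htl E₀ a b hE1, le_rfl, hbad,
    fun η hη c' hc' hw u hu hu' hok _ => ?_⟩
  show Lr31 μ s (pt c') (Tg (h8 Q (ρ * e) n) K) (m8 K e n / 2) 2 A Φ σ
    (bh16 μ s Γ.h η Γ.p Γ.M Γ.N ((G.z u c').1 + Tg (h8 Q (ρ * e) n) K u)) ((G.z u c').1 + Tg (h8 Q (ρ * e) n) K u) u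
  by_cases hb : u ≤ m8 K e n / 2
  swap
  · intro j hj
    omega
  have hm10 := hN.m10
  have hu1 : 1 ≤ u := by
    have h1 : (1 : ℝ) ≤ u := hN.ε1.trans hu
    exact_mod_cast h1
  have hro : ro94 G (Tg (h8 Q (ρ * e) n) K) c' (m8 K e n + x) - ro94 G (Tg (h8 Q (ρ * e) n) K) c' u ≤
      Tg (h8 Q (ρ * e) n) K (m8 K e n + x) := by
    have h1 : (G.z u c').1 = (G.z (m8 K e n + x) c').1 + (G.z u (G.rel (m8 K e n + x) c')).1 := by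
      rw [hG.ok.z_le (show u ≤ m8 K e n + x by omega) le_rfl c']
      rfl
    unfold ro94
    omega
  have hroR : ((ro94 G (Tg (h8 Q (ρ * e) n) K) c' (m8 K e n + x) - ro94 G (Tg (h8 Q (ρ * e) n) K) c' u : ℕ) : ℝ) ≤
      (Tg (h8 Q (ρ * e) n) K (m8 K e n + x) : ℝ) := by exact_mod_cast hro
  refine H Γ G (m8 K e n + x) (m8 K e n / 2) c' η u hA'.hs (by omega) (by omega) (cn51 hG c') ?_ (fun v hv hvL => ?_) hu1 hb ?_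
    (hroR.trans (hN.ex (u + 1) (by omega))) (hN.cone u hu) hok (hP η hη c' hc' hw)
  · have h1 := Ge58.hN58 hc' (i := m8 K e n + x) hN.TL
    unfold ro94
    omega
  · have h1 := (hN.fo Γ hA').2 v hv hvL
    have h2 : EE μ s (Tg (h8 Q (ρ * e) n) K v) ≤ EE μ s (B * Tg (h8 Q (ρ * e) n) K v) := EE_mono (Nat.le_mul_of_pos_left _ (by omega))
    have h3 := mul_le_mul_of_nonneg_left (hG.wB v hv) (abs_nonneg Γ.h)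
    have h4 : c / 4 * EE μ s (Tg (h8 Q (ρ * e) n) K v) ≤ c / 4 * EE μ s (B * Tg (h8 Q (ρ * e) n) K v) :=
      mul_le_mul_of_nonneg_left h2 (by have := hI.c0; linarith)
    nlinarith
  · have h1 := (hN.fo Γ hA').1
    have h2 := mul_le_mul_of_nonneg_left hroR (abs_nonneg Γ.h)
    linarith

end

end Pool.Agent.W_7d29a1_C1.FwN51
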