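import Pool.Agent.W_7d29a1_C1.FwF75

/-!
MP_7d29a1_pr, attractor route [C1], TAME, the clause `Fw` of `hT` (helper75), part 3: THE EVENT `Fw` AT ONE OWN SLAB, pointwise.

Order of the constants: `P | n₁ | K (reach), cw (wd Tt ≤ cw w u), Q (cost of the slabs), Q₁ (lower level, polylog in the start), Q₂ (D2),
σ ≤ c / 32, β, b | a₀ | a ≥ a₀, slope sgm ≤ 3 c / (256 cw) of PR at the radius R = a + 2`.

* `Chn75` : the chain of slabs of ONE start `(k, y)` up to the row `r₂` and the lower level STRAIGHT UP (cost polylog in the start);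
* `lo_row75` : `OuT` read at a row of `[ra - 1, re]`;
* `fw_num75` : the number line; **`fwT75`** : chains of all starts `lo ≤ k < er`, D2 at the row `r₂` (letters of `lv_slab78`), PR at `R = a + 2`
  ⇒ `ω ∈ Fw Γ G a b (β EE Tt) u κ`.
-/

set_option autoImplicit false

namespace Pool.Agent.W_7d29a1_C1.FW75

open MeasureTheory ProbabilityTheory Filter Topology Finset
open Pool.Agent.W_7d29a1_F Pool.Agent.W_7d29a1_h4g Pool.Agent.W_7d29a1_H Pool.Agent.W_7d29a1_HS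
open Pool.Agent.W_7d29a1_C1.K91 (wt wt_pos measurable_wt)
open Pool.Agent.W_7d29a1_C1.K91P
open Pool.Agent.W_7d29a1_C1.H60
open Pool.Agent.W_7d29a1_C1.G37 (Gm)
open Pool.Agent.W_7d29a1_C1.FarK89 (gr gr_nonneg gr_one_le gr_mono)
open Pool.Agent.W_7d29a1_C1.FarW89 (nk bl Slabs)
open Pool.Agent.W_7d29a1_C1.K78 (lev_pay)
open Pool.Agent.W_7d29a1_C1.SD53 (bW bW_pos Fw Fz Ii er)

noncomputable section

/-! ### The numbers -/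

/-- **THE NUMBER LINE** : the linear gain in `a` pays everything. -/
theorem fw_num75 {c cw : ℝ} (hc : 0 < c) (hcw : 1 ≤ cw) (P : ℕ) {K CU Q₁ Q₂ β b : ℝ} (hK : 0 ≤ K) (hQ₁ : 0 ≤ Q₁) :
    ∃ a₀ : ℝ, b < a₀ ∧ 2 ≤ a₀ ∧ cw ≤ a₀ ∧ ∀ a, a₀ ≤ a → ∀ sgm : ℝ, sgm ≤ 3 * c / (256 * cw) →
      β + (2 * CU + 3 / 2 * (c / 8) * b + (Q₁ * gr (2 * P) (a + 1 + K) + sgm * (a + 2)) + Q₂ + 3) ≤ 3 / 4 * (c / 8) * (a / cw) := by
  have hcw0 : 0 < cw := by linarith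
  obtain ⟨t, ht⟩ : ∃ t, t = 3 * c / (32 * cw) := ⟨_, rfl⟩
  have ht0 : 0 < t := by rw [ht]; positivity
  obtain ⟨C₁, hC₁, hpay⟩ := lev_pay (2 * P) hQ₁ (show 0 < t / 4 by positivity)
  obtain ⟨X, hX⟩ : ∃ X, X = β + 2 * CU + 3 / 2 * (c / 8) * b + t / 4 * K + C₁ + Q₂ + 3 := ⟨_, rfl⟩
  refine ⟨max (b + 1) (max 2 (max cw (2 / t * X))), lt_of_lt_of_le (by linarith) (le_max_left _ _),
    (le_max_left _ _).trans (le_max_right _ _), ((le_max_left _ _).trans (le_max_right _ _)).trans (le_max_right _ _), fun a ha sgm hs => ?_⟩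
  have h2 : 2 ≤ a := ((le_max_left _ _).trans (le_max_right _ _)).trans ha
  have h3 : 2 / t * X ≤ a := (((le_max_right _ _).trans (le_max_right _ _)).trans (le_max_right _ _)).trans ha
  have h4 := hpay (a + K) (by linarith)
  have e1 : a + K + 1 = a + 1 + K := by ring
  rw [e1] at h4
  have h5 : sgm * (a + 2) ≤ t / 8 * (a + 2) := by
    refine mul_le_mul_of_nonneg_right (hs.trans (le_of_eq ?_)) (by linarith)
    rw [ht]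
    field_simp
    norm_num
  have h6 : X ≤ t / 2 * a := by
    have h7 := mul_le_mul_of_nonneg_left h3 (show 0 ≤ t / 2 by positivity)
    rwa [← mul_assoc, show t / 2 * (2 / t) = 1 by field_simp, one_mul] at h7
  have e2 : 3 / 4 * (c / 8) * (a / cw) = t * a := by
    rw [ht]
    field_simp
    norm_num
  rw [e2]
  nlinarith

/-! ### The chain of one start -/

section chain

variable (μ : Measure ℝ) (s c θ K Kg : ℝ) (P : ℕ) (Γ : Cx) (G : Gm) (ω : Env) (Tt n₁ : ℕ) (Q Q₁ : ℝ) (r₂ u : ℕ) (κ : ℤ × ℤ)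
  (k : ℕ) (y : ℤ)

/-- **THE CHAIN OF ONE START** : slabs up to the row `r₂`, and the lower level straight up (cost polylog in the start). -/
def Chn75 : Prop :=
  ∃ (o : Pt) (r T N : ℕ → ℕ) (q : ℕ → ℝ) (bs : ℕ → Pt) (m₁ m₂ : ℕ), m₁ ≤ m₂ ∧ r m₁ ≤ k ∧ r m₂ = r₂ ∧
    |((o.2 : ℝ) - G.v * (o.1 : ℝ)) - G.ctr u κ| ≤ 1 ∧ Slabs μ s c θ K Γ.h P ω o r T N q bs m₁ m₂ Tt n₁ Q ∧
    ∀ z : ℤ, |G.lat (r₂, z) - G.lat (k, y)| ≤ 1 →
      Real.exp (-(Q₁ * gr (2 * P) (|G.lat (k, y) - G.ctr u κ| / wd μ s Tt + Kg) * EE μ s Tt)) ≤ nk μ s Γ.h ω Γ.p Γ.M k (r₂ - k) y z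

end chain

variable {μ : Measure ℝ} {s : ℝ} [IsProbabilityMeasure μ] {c C : ℝ} {n₀ : ℕ}

omit [IsProbabilityMeasure μ] in
/-- **`OuT` at a row of `[ra - 1, re]`.** -/
theorem lo_row75 {Γ : Cx} {G : Gm} {ω : Env} {E : ℕ → ℝ} {R Q' sg : ℝ} {u : ℕ} {κ : ℤ × ℤ} {r : ℕ} {X : ℝ}
    (h : ω ∈ Ou37.OuT μ s Γ G E R Q' sg u κ) (h1 : G.ra u κ ≤ r + 1) (h2 : r ≤ G.re u κ) {y₀ z : ℤ}
    (hy₀ : |G.lat (r, y₀) - G.ctr u κ| ≤ R * G.w u) (hz : |G.lat (r, z) - G.ctr u κ| ≤ R * G.w u) (hQ : Q' * E u + sg ≤ X) :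
    bw (wt ω) Γ.p r (Γ.N - r) y₀ / wt ω r y₀ ≤ Real.exp X * (bw (wt ω) Γ.p r (Γ.N - r) z / wt ω r z) := by
  rw [bw_div75 (μ := μ) (s := s), bw_div75 (μ := μ) (s := s)]
  have h3 := h (r, z) ⟨h1, h2, hz⟩ (r, y₀) ⟨h1, h2, hy₀⟩
  have g0 : 0 < Ou37.gam μ s Γ r 0 := Ou37.gam_pos _ _
  have b0 := Ou37.bn_pos (μ := μ) (s := s) (Γ := Γ) r z ω
  have h4 := h3.trans (mul_le_mul_of_nonneg_right (Real.exp_le_exp.2 hQ) b0.le)
  calc _ ≤ Ou37.gam μ s Γ r 0 * (Real.exp X * Ou37.bn μ s Γ r z ω) := mul_le_mul_of_nonneg_left h4 g0.le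
    _ = _ := by ring

/-- A far start: nothing to pay. -/
theorem far_zero75 {Γ : Cx} {G : Gm} {ω : Env} {a b : ℝ} {u : ℕ} {κ : ℤ × ℤ} {k : ℕ} {y : ℤ} (hab : b < a) (hv0 : 0 ≤ G.v) (hv1 : G.v ≤ 1)
    (hfar : a * G.w u + 1 ≤ |G.lat (k, y) - G.ctr u κ|) :
    wt ω k y * (SD53.VK Γ ω (er Γ G u κ) (Sy78.sp G u κ b) (Ii G u κ a) (k + 1) y +
      Γ.p k * SD53.VK Γ ω (er Γ G u κ) (Sy78.sp G u κ b) (Ii G u κ a) (k + 1) (y + 1)) = 0 := by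
  have hbw' := mul_lt_mul_of_pos_right hab (G.w_pos u)
  have nS : ∀ {k : ℕ} {y : ℤ}, a * G.w u ≤ |G.lat (k, y) - G.ctr u κ| → (k, y) ∉ Sy78.sp G u κ b := fun {k y} h3 h4 => by
    have h5 : |G.lat (k, y) - G.ctr u κ| ≤ b * G.w u := h4
    linarith
  have nI : ∀ {k : ℕ} {y : ℤ}, a * G.w u ≤ |G.lat (k, y) - G.ctr u κ| → (k, y) ∉ Ii G u κ a := fun {k y} h3 h4 => by
    have h5 : |G.lat (k, y) - G.ctr u κ| < a * G.w u := h4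
    linarith
  obtain ⟨s1, s2⟩ : a * G.w u ≤ |G.lat (k + 1, y) - G.ctr u κ| ∧ a * G.w u ≤ |G.lat (k + 1, y + 1) - G.ctr u κ| := by
    have p1 := SD53.lat_pred hv0 hv1 k y (le_refl |G.lat (k + 1, y) - G.ctr u κ|)
    have p2 := SD53.lat_pred hv0 hv1 k (y + 1) (le_refl |G.lat (k + 1, y + 1) - G.ctr u κ|)
    rw [add_sub_cancel_right] at p2
    exact ⟨by linarith [p1.1], by linarith [p2.2]⟩
  rw [SD53.VK_out (nS s1) (nI s1), SD53.VK_out (nS s2) (nI s2), mul_zero, add_zero, mul_zero]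

/-- **THE EVENT `Fw` AT ONE OWN SLAB.** -/
theorem fwT75 (h0 : In μ s c C n₀) (P : ℕ) : ∃ n₁ : ℕ, 1 ≤ n₁ ∧ ∀ {Kg cw Q Q₁ Q₂ β b : ℝ}, 0 ≤ Kg → 1 ≤ cw → 0 ≤ Q → 0 ≤ Q₁ → 0 ≤ b →
    ∃ a₀ : ℝ, b < a₀ ∧ 2 ≤ a₀ ∧ cw ≤ a₀ ∧ ∀ a, a₀ ≤ a → ∀ {θ K : ℝ} {Γ : Cx} {G : Gm} {ω : Env} {Tt u r₂ : ℕ} {κ : ℤ × ℤ} {σ sgm : ℝ}
      {E : ℕ → ℝ} {z₀ : ℤ}, Γ.s = s → G.v = sl μ s → 0 ≤ G.v → G.v ≤ 1 → (Γ.N : ℝ) + 1 ≤ Real.exp (EE μ s Tt) →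
      G.w u ≤ wd μ s Tt → wd μ s Tt ≤ cw * G.w u → 1 ≤ G.w u → E u ≤ EE μ s Tt → 0 ≤ sgm → sgm ≤ 3 * c / (256 * cw) → 0 ≤ σ →
      σ ≤ c / 32 → G.ra u κ ≤ r₂ → r₂ ≤ G.re u κ → r₂ ≤ Γ.N → |G.lat (r₂, z₀) - G.ctr u κ| ≤ wd μ s Tt →
      (∀ v : ℤ, bw (wt ω) Γ.p r₂ (Γ.N - r₂) v / wt ω r₂ v ≤
        Real.exp (Q₂ * EE μ s Tt + σ * (EE μ s Tt / wd μ s Tt) * |G.lat (r₂, v) - G.lat (r₂, z₀)|) *
          (bw (wt ω) Γ.p r₂ (Γ.N - r₂) z₀ / wt ω r₂ z₀)) →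
      ω ∈ Ou37.OuT μ s Γ G E (a + 2) (sgm * (a + 2)) 0 u κ →
      (∀ (k : ℕ) (y : ℤ), G.lo u κ ≤ (k : ℤ) → k < er Γ G u κ → a * G.w u ≤ |G.lat (k, y) - G.ctr u κ| →
        |G.lat (k, y) - G.ctr u κ| < a * G.w u + 1 → Chn75 μ s c θ K Kg P Γ G ω Tt n₁ Q Q₁ r₂ u κ k y) →
      ω ∈ Fw Γ G a b (β * EE μ s Tt) u κ := by
  have hc0 := h0.c0
  obtain ⟨n₁, hn₁, H⟩ := fk_slab75 h0 P
  refine ⟨n₁, hn₁, ?_⟩
  intro Kg cw Q Q₁ Q₂ β b hKg hcw hQ hQ₁ hb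
  obtain ⟨CU, hCU, H1⟩ := H Q hQ
  obtain ⟨a₀, ha1, ha2, ha3, Hn⟩ := fw_num75 hc0 hcw P (K := Kg) (CU := CU) (Q₁ := Q₁) (Q₂ := Q₂ + c / 32) (β := β) (b := b) hKg hQ₁
  refine ⟨a₀, ha1, ha2, ha3, ?_⟩
  intro a ha θ K Γ G ω Tt u r₂ κ σ sgm E z₀ hs hv hv0 hv1 hNE hwT hTw hw1 hE hsg0 hsg hσ0 hσ hra hre hrN hz₀ D2 hPR hch
  have hab : b < a := lt_of_lt_of_le ha1 ha
  have hcw0 : 0 < cw := by linarith
  have hw0 : 0 < G.w u := G.w_pos u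
  have hwT0 : 0 < wd μ s Tt := lt_of_lt_of_le hw0 hwT
  have hE0 : 0 < EE μ s Tt := EE_pos _
  have ha0 : 0 ≤ a := by linarith
  intro k y hky hke
  rcases le_or_gt (a * G.w u + 1) |G.lat (k, y) - G.ctr u κ| with hfar | hnear
  · rw [far_zero75 hab hv0 hv1 hfar]
    exact mul_nonneg (Real.exp_pos _).le (bW_pos _ _ _ _).le
  have hy0 : a * G.w u ≤ |G.lat (k, y) - G.ctr u κ| := hky.2
  obtain ⟨o, r, T, N, q, bs, m₁, m₂, hm, hk1, hr2, ho, S, low⟩ := hch k y hky.1 hke hy0 hnear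
  have hkr : k < r₂ := lt_of_lt_of_le hke ((min_le_left _ _).trans hra)
  subst hr2
  have hn : ((r m₂ - r m₁ : ℕ) : ℝ) + 1 ≤ Real.exp (EE μ s Tt) := by
    refine le_trans ?_ hNE
    have h1 : ((r m₂ - r m₁ : ℕ) : ℝ) ≤ (Γ.N : ℝ) := by exact_mod_cast (Nat.sub_le _ _).trans hrN
    linarith
  obtain ⟨B, hB⟩ : ∃ B, B = bw (wt ω) Γ.p (r m₂) (Γ.N - r m₂) z₀ / wt ω (r m₂) z₀ := ⟨_, rfl⟩
  have hB0 : 0 < B := by rw [hB]; exact div_pos (bw_pos (wt_pos ω) Γ.p_pos _ _ _) (wt_pos ω _ _)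
  rw [← hB] at D2
  refine H1 hm hs hv hv0 hv1 S u κ a b (a / cw) b σ (Q₁ * gr (2 * P) (a + 1 + Kg) + sgm * (a + 2)) (Q₂ + c / 32) β B ho hab ?_ ?_ hσ0 hσ
    ((min_le_left _ _).trans hra) hrN hn hB0 ?_ (Hn a ha sgm hsg) k y hk1 hke hy0 fun _ => ?_
  · rw [div_mul_eq_mul_div, div_le_iff₀ hcw0]
    have := mul_le_mul_of_nonneg_left hTw ha0
    linarith
  · exact mul_le_mul_of_nonneg_left hwT hb
  · intro v
    refine (D2 v).trans (mul_le_mul_of_nonneg_right (Real.exp_le_exp.2 ?_) hB0.le)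
    have h1 : |G.lat (r m₂, v) - G.lat (r m₂, z₀)| ≤ |G.lat (r m₂, v) - G.ctr u κ| + wd μ s Tt := by
      have h2 := abs_sub (G.lat (r m₂, v) - G.ctr u κ) (G.lat (r m₂, z₀) - G.ctr u κ)
      rw [show G.lat (r m₂, v) - G.ctr u κ - (G.lat (r m₂, z₀) - G.ctr u κ) = G.lat (r m₂, v) - G.lat (r m₂, z₀) by ring] at h2
      linarith
    have h2 : 0 ≤ σ * (EE μ s Tt / wd μ s Tt) := by positivity
    have h3 := mul_le_mul_of_nonneg_left h1 h2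
    have h4 : σ * (EE μ s Tt / wd μ s Tt) * wd μ s Tt = σ * EE μ s Tt := by field_simp
    have h5 : σ * EE μ s Tt ≤ c / 32 * EE μ s Tt := mul_le_mul_of_nonneg_right hσ hE0.le
    nlinarith
  · -- the lower bound of the start
    obtain ⟨z, hz⟩ : ∃ z : ℤ, z = ⌊(y : ℝ) + G.v * (((r m₂ : ℕ) : ℝ) - (k : ℝ))⌋ := ⟨_, rfl⟩
    have hz1 : |G.lat (r m₂, z) - G.lat (k, y)| ≤ 1 := by
      have e1 : G.lat (r m₂, z) - G.lat (k, y) = (z : ℝ) - ((y : ℝ) + G.v * (((r m₂ : ℕ) : ℝ) - (k : ℝ))) := by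
        unfold Gm.lat
        simp only
        ring
      rw [e1, abs_le, hz]
      have g1 := Int.floor_le ((y : ℝ) + G.v * (((r m₂ : ℕ) : ℝ) - (k : ℝ)))
      have g2 := Int.lt_floor_add_one ((y : ℝ) + G.v * (((r m₂ : ℕ) : ℝ) - (k : ℝ)))
      constructor <;> linarith
    have hz2 : |G.lat (r m₂, z) - G.ctr u κ| ≤ (a + 2) * G.w u := by
      have h2 := abs_add_le (G.lat (r m₂, z) - G.lat (k, y)) (G.lat (k, y) - G.ctr u κ)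
      rw [show G.lat (r m₂, z) - G.lat (k, y) + (G.lat (k, y) - G.ctr u κ) = G.lat (r m₂, z) - G.ctr u κ by ring] at h2
      linarith
    have hz3 : |G.lat (r m₂, z₀) - G.ctr u κ| ≤ (a + 2) * G.w u := by
      have h2 := mul_le_mul_of_nonneg_right (show cw ≤ a + 2 by linarith [ha3.trans ha]) hw0.le
      linarith
    have hX : sgm * (a + 2) * E u + 0 ≤ sgm * (a + 2) * EE μ s Tt := by
      rw [add_zero]
      exact mul_le_mul_of_nonneg_left hE (mul_nonneg hsg0 (by linarith))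
    have f2 := lo_row75 hPR (r := r m₂) (by omega) hre hz3 hz2 hX
    rw [← hB] at f2
    have f1 := low z hz1
    have f3 : Real.exp (-(Q₁ * gr (2 * P) (a + 1 + Kg) * EE μ s Tt)) ≤ nk μ s Γ.h ω Γ.p Γ.M k (r m₂ - k) y z := by
      refine le_trans (Real.exp_le_exp.2 ?_) f1
      have g1 : |G.lat (k, y) - G.ctr u κ| / wd μ s Tt ≤ a + 1 := by
        rw [div_le_iff₀ hwT0]
        have g2 := mul_le_mul_of_nonneg_left hwT (show 0 ≤ a + 1 by linarith)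
        linarith
      have g2 := gr_mono (2 * P) (show 0 ≤ |G.lat (k, y) - G.ctr u κ| / wd μ s Tt + Kg by positivity) (show
        |G.lat (k, y) - G.ctr u κ| / wd μ s Tt + Kg ≤ a + 1 + Kg by linarith)
      have g3 := mul_le_mul_of_nonneg_right (mul_le_mul_of_nonneg_left g2 hQ₁) hE0.le
      linarith
    exact lo_of75 hkr.le hrN f3 f2

end

end Pool.Agent.W_7d29a1_C1.FW75
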