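import Pool.Agent.W_7d29a1_C1.LrF89
import Pool.Agent.W_7d29a1_C1.ArmPa88
import Pool.Agent.W_7d29a1_C1.D2F16

/-!
MP_7d29a1_pr, [C1], FIELD nu, THE PAST HALF OF A TAME SCALE: (LR) of the forward masses `fh84` at the first row of a tower (rows downward)
which is not felt. (helper89)

The layers `f, .., f + m - 1` below the row `r f`; heights `T v` (`Far16`, steep levels `q v ≤ q₀ Θ ^ (v - f)`), labels `Tn v ≤ T v` (nodes
read backward: `Cn * nu ≤ Δ + k`, centres within `C₀ ρ ^ (Δ + k)` units of the line). **`lr_towP89`**: for places within `K₁` widths of the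
scale `f + mt` (`mt + 4 < m`) and a reference of the scale `f + n`, `n ≤ mt`:
`fh x ≤ exp (A Φ ^ (pw n) EE (T f) + σ (EE (T f) / wd (T f)) |x - x'|) fh x'`; `pw` from `In`, `Φ` before the ratio `K₂`, `B₂ ≤ Φ ^ Cn`.
THE ORDER: `pw | Φ | θn K0 Bn | K₂ | P θ K B₂ Cn b kT | Bp | K₁ C₀ | Rm (radius of the nodes) | σ Y q₀ δ Δ | A₀ n₁`.
-/

set_option autoImplicit false

namespace Pool.Agent.W_7d29a1_C1.TmP89

open MeasureTheory ProbabilityTheory Filter Topology Finset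
open Pool.Agent.W_7d29a1_F Pool.Agent.W_7d29a1_h4g Pool.Agent.W_7d29a1_H Pool.Agent.W_7d29a1_HS
open Pool.Agent.W_7d29a1_C1.H75 Pool.Agent.W_7d29a1_C1.U16 Pool.Agent.W_7d29a1_C1.FarK89 Pool.Agent.W_7d29a1_C1.FarW89
open Pool.Agent.W_7d29a1_C1.DD84 Pool.Agent.W_7d29a1_C1.SysN89 Pool.Agent.W_7d29a1_C1.SysP84 Pool.Agent.W_7d29a1_C1.LrN89
open Pool.Agent.W_7d29a1_C1.LrQ89 Pool.Agent.W_7d29a1_C1.LrF89
open Pool.Agent.W_7d29a1_C1.H94 (nu Cs94)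
open Pool.Agent.W_7d29a1_C1.ArmPa88 (armP88)
open Pool.Agent.W_7d29a1_g (rv)

noncomputable section

theorem div_add89 (a b : ℕ) {c : ℕ} (hc : 1 ≤ c) : (a + b) / c ≤ a / c + b / c + 1 := by
  by_contra hcon
  have h1 := Nat.div_add_mod a c
  have h2 := Nat.mod_lt a (show 0 < c by omega)
  have h3 := Nat.div_add_mod b c
  have h4 := Nat.mod_lt b (show 0 < c by omega)
  have h5 := Nat.mul_div_le (a + b) c
  have h6 : a / c + b / c + 2 ≤ (a + b) / c := by omega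
  have h7 := Nat.mul_le_mul_left c h6
  have h8 : c * (a / c + b / c + 2) = c * (a / c) + c * (b / c) + 2 * c := by ring
  omega

/-- A level of a node which is not felt, seen from the step `i + 3`, for a place of the scale `n`. -/
theorem node_levP89 {Cn Δ k i n a : ℕ} (hCn : 1 ≤ Cn) (hin : i ≤ n) (h : Cn * a ≤ Δ + k) :
    a ≤ ((k : ℤ) - (i + 3 : ℕ)).natAbs + (n / Cn + ((Δ + 3) / Cn + 4)) := by
  have h1 := node_lev16 (j := i + 3) hCn h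
  have h2 : (Δ + (i + 3)) / Cn ≤ (n + (Δ + 3)) / Cn := Nat.div_le_div_right (by omega)
  have h3 := div_add89 n (Δ + 3) hCn
  omega

/-- **The centres** for a place of the scale `n`. -/
theorem cenP89 {Cn Δ k i n ρ R : ℕ} {C₀ K₁ wk wn a x Bw : ℝ} (hCn : 1 ≤ Cn) (hin : i ≤ n) (hρ : 1 ≤ ρ) (hρR : ρ ^ Cn ≤ R)
    (hC₀ : 0 ≤ C₀) (hK₁ : 0 ≤ K₁) (hR : C₀ + K₁ ≤ R) (hB : 1 ≤ Bw) (hBR : Bw ^ Cn ≤ R) (hwk : 0 ≤ wk) (hw : wn ≤ Bw ^ (n + 1 - k) * wk)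
    (ha : |a| ≤ C₀ * (ρ : ℝ) ^ (Δ + k) * wk) (hx : |x| ≤ K₁ * wn) :
    |a - x| ≤ (R : ℝ) ^ (((k : ℤ) - (i + 3 : ℕ)).natAbs + (n / Cn + ((Δ + 3) / Cn + 4))) * wk := by
  obtain ⟨d, hd⟩ : ∃ d, d = ((k : ℤ) - (i + 3 : ℕ)).natAbs := ⟨_, rfl⟩
  obtain ⟨e, he⟩ : ∃ e, e = d + (n / Cn + ((Δ + 3) / Cn + 3)) := ⟨_, rfl⟩
  have hR1 : 1 ≤ R := (Nat.one_le_pow _ _ (by omega)).trans hρR
  have hR1' : (1 : ℝ) ≤ R := by exact_mod_cast hR1
  have hρ1 : (1 : ℝ) ≤ ρ := by exact_mod_cast hρ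
  have hce : d + n + Δ + 3 ≤ Cn * e := by
    have h1 := Nat.div_add_mod n Cn
    have h2 := Nat.mod_lt n (show 0 < Cn by omega)
    have h3 := Nat.div_add_mod (Δ + 3) Cn
    have h4 := Nat.mod_lt (Δ + 3) (show 0 < Cn by omega)
    have h5 : d ≤ Cn * d := Nat.le_mul_of_pos_left _ (by omega)
    have h6 : Cn * (d + (n / Cn + ((Δ + 3) / Cn + 3))) = Cn * d + Cn * (n / Cn) + Cn * ((Δ + 3) / Cn) + 3 * Cn := by ring
    rw [he, h6]
    omega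
  have hcn : Δ + k ≤ Cn * e := by omega
  have hcn' : n + 1 - k ≤ Cn * e := by omega
  have h1 : (ρ : ℝ) ^ (Δ + k) ≤ (R : ℝ) ^ e := by
    calc (ρ : ℝ) ^ (Δ + k) ≤ (ρ : ℝ) ^ (Cn * e) := pow_le_pow_right₀ hρ1 hcn
      _ = ((ρ : ℝ) ^ Cn) ^ e := by rw [pow_mul]
      _ ≤ (R : ℝ) ^ e := pow_le_pow_left₀ (by positivity) (by exact_mod_cast hρR) e
  have h2 : Bw ^ (n + 1 - k) ≤ (R : ℝ) ^ e := by
    calc Bw ^ (n + 1 - k) ≤ Bw ^ (Cn * e) := pow_le_pow_right₀ hB hcn'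
      _ = (Bw ^ Cn) ^ e := by rw [pow_mul]
      _ ≤ (R : ℝ) ^ e := pow_le_pow_left₀ (by positivity) hBR e
  have h3 : C₀ * (ρ : ℝ) ^ (Δ + k) * wk ≤ C₀ * (R : ℝ) ^ e * wk :=
    mul_le_mul_of_nonneg_right (mul_le_mul_of_nonneg_left h1 hC₀) hwk
  have h4 : K₁ * wn ≤ K₁ * ((R : ℝ) ^ e * wk) :=
    mul_le_mul_of_nonneg_left (hw.trans (mul_le_mul_of_nonneg_right h2 hwk)) hK₁
  have h5 : (C₀ + K₁) * ((R : ℝ) ^ e * wk) ≤ R * ((R : ℝ) ^ e * wk) := mul_le_mul_of_nonneg_right hR (by positivity)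
  have h6 := abs_sub a x
  have h7 : (R : ℝ) ^ (d + (n / Cn + ((Δ + 3) / Cn + 4))) = (R : ℝ) ^ e * R := by
    rw [← pow_succ, he]
    congr 1
  rw [← hd, h7]
  linarith only [ha, hx, h3, h4, h5, h6]

/-- The number hypothesis of the arms. -/
theorem num89 {c₁ Z E E' X : ℝ} (hZ : 64 ≤ c₁ * Z) (hE : 1 ≤ E) (hEE : E ≤ 2 * E') (hX : X ≤ Real.exp E) :
    16 * (X * Real.exp (-(c₁ * (Z / 8 * E')))) ≤ 1 := by
  have hE'0 : 0 ≤ E' := by linarith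
  have h5 : 4 * E ≤ c₁ * (Z / 8 * E') := by
    have h7 := mul_le_mul_of_nonneg_right hZ hE'0
    have e1 : c₁ * (Z / 8 * E') = c₁ * Z * E' / 8 := by ring
    rw [e1]
    linarith only [h7, hEE]
  have h7 : Real.exp (-(c₁ * (Z / 8 * E'))) ≤ Real.exp (-(4 * E)) := Real.exp_le_exp.2 (neg_le_neg h5)
  have h8 : Real.exp (-(3 : ℝ)) ≤ 1 / 16 := by
    rw [Real.exp_neg, one_div]
    refine inv_anti₀ (by norm_num) ?_
    have e1 : Real.exp 3 = Real.exp 1 ^ 3 := by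
      rw [← Real.exp_nat_mul]
      norm_num
    rw [e1]
    have e2 := Real.exp_one_gt_d9
    have e3 : (2.7 : ℝ) ^ 3 ≤ Real.exp 1 ^ 3 := pow_le_pow_left₀ (by norm_num) (by linarith only [e2]) 3
    have e4 : (16 : ℝ) ≤ 2.7 ^ 3 := by norm_num
    linarith only [e3, e4]
  calc 16 * (X * Real.exp (-(c₁ * (Z / 8 * E')))) ≤ 16 * (Real.exp E * Real.exp (-(4 * E))) := by
        refine mul_le_mul_of_nonneg_left (mul_le_mul hX h7 (Real.exp_pos _).le (Real.exp_pos _).le) (by norm_num)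
    _ = 16 * Real.exp (-(3 * E)) := by
        rw [← Real.exp_add]
        congr 2
        ring
    _ ≤ 16 * Real.exp (-(3 : ℝ)) := mul_le_mul_of_nonneg_left (Real.exp_le_exp.2 (by linarith only [hE])) (by norm_num)
    _ ≤ 1 := by linarith only [h8]

variable {μ : Measure ℝ} [IsProbabilityMeasure μ] {s c C : ℝ} {n₀ : ℕ}

omit [IsProbabilityMeasure μ] in
/-- Fewer far places. -/
theorem PMP_mono89 {h : ℝ} {η : Env} {p : ℕ → ℝ} {M : ℕ} {l : ℤ → ℝ} (hpos : ∀ k, 0 < p k) (hl : ∀ y, 0 ≤ l y) (a e : ℕ) (x : ℤ)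
    {Q Q' : ℤ → Prop} [DecidablePred Q] [DecidablePred Q'] (hQ : ∀ z, Q z → Q' z) :
    PMP84 μ s h η p M l a e x Q ≤ PMP84 μ s h η p M l a e x Q' := by
  unfold PMP84
  refine sum_le_sum_of_subset_of_nonneg (fun z hz => ?_) fun z _ _ => ?_
  · rw [mem_filter] at hz ⊢
    exact ⟨hz.1, hQ z hz.2⟩
  · exact mul_nonneg (nk_nonneg hpos _ _ _ _) (fh_nonneg hpos hl _ _)

/-- **(LR) FOR THE FORWARD MASSES AT THE FIRST ROW OF A TOWER WHICH IS NOT FELT.** -/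
theorem lr_towP89 (h0 : In μ s c C n₀) : ∃ pw : ℕ, ∀ Φ : ℝ, 1 ≤ Φ → ∀ {θn : ℝ}, 0 < θn → ∀ (K0 : ℕ) {Bn : ℕ}, 1 ≤ Bn → ∃ K₂ : ℕ, 2 ≤ K₂ ∧
    ∀ (P : ℕ) (θ K B₂ : ℝ) (Cn : ℕ), 0 < θ → 4 ≤ K → 2 ≤ B₂ → 1 ≤ Cn → B₂ ≤ Φ ^ Cn → ∀ b kT : ℕ, ∃ Bp : ℝ, 2 ≤ Bp ∧
    ∀ K₁ C₀ : ℝ, 1 ≤ K₁ → 0 ≤ C₀ → ∃ Rm : ℝ,
    ∀ (σ Y q₀ δ : ℝ) (Δ : ℕ), 0 < σ → 8 ≤ Y → 0 ≤ q₀ → 0 < δ → δ ≤ θ * sl μ s → δ ≤ θ * (1 - sl μ s) →
    ∃ (A₀ : ℝ) (n₁ : ℕ), 0 ≤ A₀ ∧ 1 ≤ n₁ ∧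
    ∀ {c₀ δ₁ c₁ A aa g Y₁ : ℝ} {Kb n₃ : ℕ}, Cs94 μ s c₀ δ₁ c₁ A aa g θn Y₁ K0 Kb n₃ → 4 * b * Bn ≤ Kb → 8 * Y₁ ≤ Y → 64 ≤ c₁ * Y →
    ∀ {R ρ : ℕ}, 1 ≤ ρ → ρ ^ Cn ≤ R → Rm ≤ R →
    ∀ {h : ℝ} {η : Env} {p : ℕ → ℝ} {M : ℕ} {l : ℤ → ℝ}, (∀ y, 0 ≤ l y) →
    (∀ k, k < M → p k = Real.exp (s + h)) → (∀ k, M ≤ k → p k = Real.exp s) →
    ∀ {κ : Pt} {r T Tn N : ℕ → ℕ} {q : ℕ → ℝ} {bs : ℕ → Pt} {w : ℕ → ℤ} {be : ℕ → ℝ} {f m mt : ℕ} {Θ B₁ : ℝ} {xc : ℕ → ℤ},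
    1 ≤ Θ → Θ ^ 4 ≤ 2 → Θ ^ 8 ≤ Φ → mt + 4 < m → LayP84 μ s c θ K h P η κ r T N q bs f (f + m) n₁ →
    StQ89 μ s B₁ B₂ δ η κ r T q w be (f + 1) (f + (mt + 3)) → 3 * Bp ≤ B₁ → (r f ≤ M ∨ M ≤ r (f + m)) →
    ((r f - r (f + m) : ℕ) : ℝ) ≤ Real.exp (EE μ s (Tn f)) →
    (∀ v, f ≤ v → v + 1 < f + m → K₂ * T v ≤ T (v + 1) ∧ T (v + 1) ≤ b * T v) →
    (∀ v, f ≤ v → v + 1 < f + m → K₂ * Tn v ≤ Tn (v + 1) ∧ Tn (v + 1) ≤ b * Tn v) →
    (∀ v, f ≤ v → v < f + m → Tn v ≤ T v ∧ T v ≤ kT * Tn v) → (∀ v, f ≤ v → v < f + m → n₁ ≤ Tn v ∧ Bn * n₃ ≤ Tn v) →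
    (∀ v, f ≤ v → v < f + m → r v ≤ r (v + 1) + Tn v ∧ Tn v ≤ Bn * (r v - r (v + 1))) → n₁ * K₂ ^ ((mt + 1) / Cn) ≤ T f →
    (∀ v, f ≤ v → v < f + m → q v ≤ q₀ * Θ ^ (v - f)) →
    (∀ k, 1 ≤ k → k < m → Cn * nu μ s c₀ δ₁ Y (wd μ s (Tn (f + (k - 1)))) (wd μ s (Tn (f + k)) / wd μ s (Tn (f + (k - 1)))) R
      (-(r (f + (k - 1)) : ℤ)) (r (f + (k - 1)) - r (f + k)) (r (f + k) - r (f + (k + 1))) (-xc k) (rv 0 η) ≤ Δ + k) →
    (∀ k, 1 ≤ k → k < m → |lt μ s κ r (f + k) (xc k)| ≤ C₀ * (ρ : ℝ) ^ (Δ + k) * wd μ s (Tn (f + (k - 1)))) →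
    (∀ x : ℤ, |lt μ s κ r f x| ≤ K₁ * wd μ s (T (f + (mt + 1))) →
      16 * (((r f - r (f + m) : ℕ) : ℝ) * PMP84 μ s h η p M l (r f) (r (f + m)) x
        (fun z => 4 ^ (m - (mt + 4)) * wd μ s (Tn (f + (m - 1))) ≤ |lt μ s κ r (f + m) z - lt μ s κ r f x|)) ≤
          fh84 μ s h η p M l (r f) x) →
    ∀ n, n ≤ mt → ∀ x x' : ℤ, |lt μ s κ r f x'| ≤ K₁ * wd μ s (T (f + n)) → |lt μ s κ r f x| ≤ K₁ * wd μ s (T (f + mt)) →
      fh84 μ s h η p M l (r f) x ≤ Real.exp (A₀ * (Φ ^ (pw * n) * EE μ s (T f)) +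
        σ * (EE μ s (T f) / wd μ s (T f)) * |(x : ℝ) - x'|) * fh84 μ s h η p M l (r f) x' := by
  obtain ⟨pw, HL⟩ := lr_rowF89 h0
  refine ⟨pw, fun Φ hΦ => ?_⟩
  obtain ⟨K₀, hK₀, HL⟩ := HL Φ hΦ
  intro θn hθn K0 Bn hBn
  obtain ⟨K1, n₄, hK1, HA⟩ := armP88 h0 hθn K0 hBn
  obtain ⟨Kc, hKc, HC⟩ := cone16 h0
  obtain ⟨Ks, n₅, hKs, hn₅, HS⟩ := scale_num h0
  obtain ⟨aE, n₆, haE, -, hn₆, HE⟩ := Pool.Agent.W_7d29a1_HL.EE_pow h0
  obtain ⟨K₂, hK₂⟩ : ∃ K₂ : ℕ, K₂ = max (max K₀ K1) (max (max Kc Ks) Bn) := ⟨_, rfl⟩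
  have k0 : K₀ ≤ K₂ := by rw [hK₂]; exact (le_max_left _ _).trans (le_max_left _ _)
  have k1 : K1 ≤ K₂ := by rw [hK₂]; exact (le_max_right _ _).trans (le_max_left _ _)
  have kc : Kc ≤ K₂ := by rw [hK₂]; exact ((le_max_left _ _).trans (le_max_left _ _)).trans (le_max_right _ _)
  have ks : Ks ≤ K₂ := by rw [hK₂]; exact ((le_max_right _ _).trans (le_max_left _ _)).trans (le_max_right _ _)
  have kB : Bn ≤ K₂ := by rw [hK₂]; exact (le_max_right _ _).trans (le_max_right _ _)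
  have hK₂2 : 2 ≤ K₂ := hK₀.trans k0
  refine ⟨K₂, hK₂2, ?_⟩
  intro P θ K B₂ Cn hθ hK hB₂ hCn hBΦ b kT
  obtain ⟨Bp, hBp, HL⟩ := HL P θ K B₂ Cn hθ hK hB₂ hCn hBΦ b
  refine ⟨Bp, hBp, ?_⟩
  intro K₁ C₀ hK₁ hC₀
  obtain ⟨Bw, n₈, hBw, hn₈, HW⟩ := wd_next h0 b
  obtain ⟨Bk, n₉, hBk, hn₉, HK⟩ := wd_next h0 kT
  obtain ⟨Rm, hRm⟩ : ∃ Rm : ℝ, Rm = max (Bw ^ Cn) (C₀ + K₁ * Bk) := ⟨_, rfl⟩
  refine ⟨Rm, ?_⟩
  intro σ Y q₀ δ Δ hσ hY hq₀ hδ hδ1 hδ2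
  obtain ⟨j₁, hj₁⟩ : ∃ j₁ : ℕ, j₁ = (Δ + 3) / Cn + 5 := ⟨_, rfl⟩
  obtain ⟨A₀, j₀, n₂, hA₀, hn₂, HL⟩ := HL σ K₁ q₀ 0 (2 * Y) j₁ hσ hK₁ hq₀ le_rfl (by linarith only [hY])
  obtain ⟨n₇, hn₇, HC⟩ := HC δ hδ (j₁ + j₀)
  obtain ⟨n₁, hn₁⟩ : ∃ n₁ : ℕ, n₁ = max (max (max n₂ n₄) (max n₅ n₆)) (max n₇ (max n₈ n₉)) := ⟨_, rfl⟩
  have l2 : n₂ ≤ n₁ := by rw [hn₁]; exact ((le_max_left _ _).trans (le_max_left _ _)).trans (le_max_left _ _)
  have l4 : n₄ ≤ n₁ := by rw [hn₁]; exact ((le_max_right _ _).trans (le_max_left _ _)).trans (le_max_left _ _)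
  have l5 : n₅ ≤ n₁ := by rw [hn₁]; exact ((le_max_left _ _).trans (le_max_right _ _)).trans (le_max_left _ _)
  have l6 : n₆ ≤ n₁ := by rw [hn₁]; exact ((le_max_right _ _).trans (le_max_right _ _)).trans (le_max_left _ _)
  have l7 : n₇ ≤ n₁ := by rw [hn₁]; exact (le_max_left _ _).trans (le_max_right _ _)
  have l8 : n₈ ≤ n₁ := by rw [hn₁]; exact ((le_max_left _ _).trans (le_max_right _ _)).trans (le_max_right _ _)
  have l9 : n₉ ≤ n₁ := by rw [hn₁]; exact ((le_max_right _ _).trans (le_max_right _ _)).trans (le_max_right _ _)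
  refine ⟨A₀, n₁, hA₀, hn₂.trans l2, ?_⟩
  intro c₀ δ₁ c₁ A aa g Y₁ Kb n₃ hCs hKb hYY hcY R ρ hρ hρR hRmR h η p M l hl hp hp' κ r T Tn N q bs w be f m mt Θ B₁ xc hΘ hΘ2 hΘΦ
    hmt hL hSt hBpB hM hN hT hTn hTT hbig hrn hΔ hq hnu hxc htop
  have hpos : ∀ k, 0 < p k := by
    intro k
    rcases lt_or_ge k M with h2 | h2
    · rw [hp k h2]
      exact Real.exp_pos _
    · rw [hp' k h2]
      exact Real.exp_pos _
  -- numbers of the tower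
  have hTg := tow_grow16 (T := T) (f := f) (m := m) (K := K₂) fun v h1 h2 => (hT v h1 h2).1
  have hTng := tow_grow16 (T := Tn) (f := f) (m := m) (K := K₂) fun v h1 h2 => (hTn v h1 h2).1
  have hbigT : ∀ v, f ≤ v → v < f + m → n₁ ≤ T v := fun v h1 h2 => (hbig v h1 h2).1.trans (hTT v h1 h2).1
  have hn₁1 : 1 ≤ n₁ := hn₂.trans l2
  have hwT0 : ∀ v, f ≤ v → v < f + m → 0 < wd μ s (T v) := fun v h1 h2 => h0.wd_pos (hn₁1.trans (hbigT v h1 h2))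
  have hwn0 : ∀ v, f ≤ v → v < f + m → 0 < wd μ s (Tn v) := fun v h1 h2 => h0.wd_pos (hn₁1.trans (hbig v h1 h2).1)
  have hwTm : ∀ v, f ≤ v → v + 1 < f + m → wd μ s (T v) ≤ wd μ s (T (v + 1)) := fun v h1 h2 =>
    (HS _ _ (l5.trans (hbigT v h1 (by omega))) ((Nat.mul_le_mul_right _ ks).trans (hT v h1 h2).1)).1
  have hwnm : ∀ v, f ≤ v → v + 1 < f + m → wd μ s (Tn v) ≤ wd μ s (Tn (v + 1)) := fun v h1 h2 =>
    (HS _ _ (l5.trans (hbig v h1 (by omega)).1) ((Nat.mul_le_mul_right _ ks).trans (hTn v h1 h2).1)).1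
  have hwTm' : ∀ d v, f ≤ v → v + d < f + m → wd μ s (T v) ≤ wd μ s (T (v + d)) := by
    intro d
    induction d with
    | zero => intro v _ _; exact le_rfl
    | succ d ih => intro v h1 h2; exact (ih v h1 (by omega)).trans (hwTm (v + d) (by omega) (by omega))
  have hwnm' : ∀ d v, f ≤ v → v + d < f + m → wd μ s (Tn v) ≤ wd μ s (Tn (v + d)) := by
    intro d
    induction d with
    | zero => intro v _ _; exact le_rfl
    | succ d ih => intro v h1 h2; exact (ih v h1 (by omega)).trans (hwnm (v + d) (by omega) (by omega))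
  have hBw1 : 1 ≤ Bw := by linarith only [hBw]
  have hwnR : ∀ d v, f ≤ v → v + d < f + m → wd μ s (Tn (v + d)) ≤ Bw ^ d * wd μ s (Tn v) := by
    intro d
    induction d with
    | zero => intro v _ _; rw [pow_zero, one_mul, Nat.add_zero]
    | succ d ih =>
      intro v h1 h2
      have h3 := ih v h1 (by omega)
      have h5 := hTn (v + d) (by omega) (by omega)
      have h4 := HW (Tn (v + d)) (Tn (v + d + 1)) (l8.trans (hbig (v + d) (by omega) (by omega)).1)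
        ((Nat.le_mul_of_pos_left _ (by omega : 0 < K₂)).trans h5.1) h5.2
      calc wd μ s (Tn (v + (d + 1))) ≤ Bw * wd μ s (Tn (v + d)) := h4
        _ ≤ Bw * (Bw ^ d * wd μ s (Tn v)) := mul_le_mul_of_nonneg_left h3 (by linarith only [hBw1])
        _ = _ := by rw [pow_succ]; ring
  have hrr := hL.rr
  have hr0 : ∀ a b, f ≤ a → a ≤ b → b ≤ f + m → r b ≤ r a := by
    intro a b' h1 h2 h3
    have := rd_mono (r := r) (a := f) (b := f + m) hrr (b' - a) a h1 (by omega)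
    rwa [show a + (b' - a) = b' by omega] at this
  have hY0 : 0 < Y := by linarith only [hY]
  have hc₁ := hCs.c₁0
  have hEf := one_le_EE (μ := μ) (s := s) (Tn f)
  have hTf : ∀ v, f ≤ v → v < f + m → T f ≤ T v := by
    intro v h1 h2
    have h3 := hTg (v - f) (by omega)
    rw [show f + (v - f) = v by omega] at h3
    exact (Nat.le_mul_of_pos_left _ (Nat.pow_pos (by omega))).trans h3
  refine HL hl hp hp' hΘ hΘ2 hΘΦ (hL.sub le_rfl (by omega : f + (mt + 4) ≤ f + m) l2)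
    (fun v h1 h2 => ⟨(Nat.mul_le_mul_right _ k0).trans (hT v h1 (by omega)).1, (hT v h1 (by omega)).2⟩)
    (fun v h1 h2 => hq v h1 (by omega)) hBpB hδ1 hδ2 hSt ?_ 0 (by rw [abs_zero, zero_mul]) ?_ |> fun key n hn x x' hx' hx => by
      simpa only [sub_zero] using key n hn x x' (by rw [sub_zero]; exact hx') (by rw [sub_zero]; exact hx)
  · -- the cone
    intro v h1 h2
    have h3 : n₇ * Kc ^ ((mt + 1) / Cn) ≤ T v := by
      calc n₇ * Kc ^ ((mt + 1) / Cn) ≤ n₁ * K₂ ^ ((mt + 1) / Cn) := Nat.mul_le_mul l7 (Nat.pow_le_pow_left kc _)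
        _ ≤ T f := hΔ
        _ ≤ T v := hTf v h1.le (by omega)
    have h4 := HC _ _ h3
    rwa [← add_assoc] at h4
  · -- the arms
    intro i n hin hn x hx
    rw [sub_zero] at hx
    obtain ⟨Z, hZ⟩ : ∃ Z : ℝ, Z = 2 ^ (n / Cn + j₁) * Y := ⟨_, rfl⟩
    have hZY : Y ≤ Z := by
      rw [hZ]
      exact le_mul_of_one_le_left hY0.le (one_le_pow₀ (by norm_num))
    have hZ1 : 1 ≤ Z := by linarith only [hZY, hY]
    have hxn : |lt μ s κ r f x| ≤ K₁ * Bk * wd μ s (Tn (f + n)) := by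
      have h1 := hTT (f + n) (by omega) (by omega)
      have h2 := HK (Tn (f + n)) (T (f + n)) (l9.trans (hbig (f + n) (by omega) (by omega)).1) h1.1 h1.2
      have h3 := mul_le_mul_of_nonneg_left h2 (show 0 ≤ K₁ by linarith only [hK₁])
      linarith only [hx, h3]
    have hwik : ∀ k, 1 ≤ k → k < m → wd μ s (Tn (f + n)) ≤ Bw ^ (n + 1 - k) * wd μ s (Tn (f + (k - 1))) := by
      intro k hk1 hkm
      rcases Nat.lt_or_ge n (k - 1) with h5 | h5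
      · have h6 := hwnm' (k - 1 - n) (f + n) (by omega) (by omega)
        rw [show f + n + (k - 1 - n) = f + (k - 1) by omega] at h6
        rw [show n + 1 - k = 0 by omega, pow_zero, one_mul]
        exact h6
      · have h6 := hwnR (n + 1 - k) (f + (k - 1)) (by omega) (by omega)
        rw [show f + (k - 1) + (n + 1 - k) = f + n by omega] at h6
        exact h6
    have hnum : 16 * (((r f - r (f + m) : ℕ) : ℝ) * Real.exp (-(c₁ * (Z / 8 * EE μ s (r f - r (f + (i + 3))))))) ≤ 1 := by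
      have h1 : Tn f ≤ r f - r (f + (i + 3)) := by
        have h2 := (hrn (f + (i + 2)) (by omega) (by omega)).2
        have h3 := hTng (i + 2) (by omega)
        have h4 : Bn ≤ K₂ ^ (i + 2) := kB.trans (Nat.le_self_pow (by omega) K₂)
        have h5 : Bn * Tn f ≤ Bn * (r (f + (i + 2)) - r (f + (i + 2) + 1)) := ((Nat.mul_le_mul_right _ h4).trans h3).trans h2
        have h6 : Tn f ≤ r (f + (i + 2)) - r (f + (i + 2) + 1) := Nat.le_of_mul_le_mul_left h5 (by omega)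
        have h7 := hr0 f (f + (i + 2)) le_rfl (by omega) (by omega)
        rw [show f + (i + 2) + 1 = f + (i + 3) by omega] at h6
        omega
      have h2 := HE (Tn f) _ (l6.trans (hbig f le_rfl (by omega)).1) h1
      have hTf0 : (0 : ℝ) < Tn f := by exact_mod_cast hn₁1.trans (hbig f le_rfl (by omega)).1
      have h3 : (1 : ℝ) ≤ (((r f - r (f + (i + 3)) : ℕ) : ℝ) / Tn f) ^ aE := by
        refine Real.one_le_rpow ?_ haE.le
        rw [one_le_div hTf0]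
        exact_mod_cast h1
      have h4 : EE μ s (Tn f) ≤ 2 * EE μ s (r f - r (f + (i + 3))) := by
        have := mul_le_mul_of_nonneg_right h3 (show 0 ≤ EE μ s (Tn f) by linarith only [hEf])
        linarith only [this, h2]
      exact num89 (hcY.trans (mul_le_mul_of_nonneg_left hZY hc₁.le)) hEf h4 hN
    have hwm1 := hwn0 (f + (m - 1)) (by omega) (by omega)
    have htop' : 16 * (((r f - r (f + m) : ℕ) : ℝ) * PMP84 μ s h η p M l (r f) (r (f + m)) x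
        (fun z => 4 ^ (m - (i + 3)) * (Z * wd μ s (Tn (f + (m - 1)))) ≤ |lt μ s κ r (f + m) z - lt μ s κ r f x|)) ≤
          fh84 μ s h η p M l (r f) x := by
      have hxm : |lt μ s κ r f x| ≤ K₁ * wd μ s (T (f + (mt + 1))) := by
        have h1 := hwTm' (mt + 1 - n) (f + n) (by omega) (by omega)
        rw [show f + n + (mt + 1 - n) = f + (mt + 1) by omega] at h1
        exact hx.trans (mul_le_mul_of_nonneg_left h1 (by linarith only [hK₁]))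
      refine le_trans (mul_le_mul_of_nonneg_left (mul_le_mul_of_nonneg_left ?_ (Nat.cast_nonneg _)) (by norm_num)) (htop x hxm)
      refine PMP_mono89 hpos hl _ _ x fun z hz => le_trans ?_ hz
      have h1 : (4 : ℝ) ^ (m - (mt + 4)) ≤ 4 ^ (m - (i + 3)) := pow_le_pow_right₀ (by norm_num) (by omega)
      have h2 : wd μ s (Tn (f + (m - 1))) ≤ Z * wd μ s (Tn (f + (m - 1))) := le_mul_of_one_le_left hwm1.le hZ1
      exact mul_le_mul h1 h2 hwm1.le (by positivity)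
    have hBR : Bw ^ Cn ≤ (R : ℝ) := ((le_max_left _ _).trans_eq hRm.symm).trans hRmR
    have hR1 : 1 ≤ R := (Nat.one_le_pow _ _ (by omega)).trans hρR
    have harm := HA hCs b hKb hp hp' hl (κ := κ) (r := r) (T := Tn) (u := f) (m := m) (j := i + 3) (by omega) (by omega)
      (fun k hk => by
        rw [show f + (k + 1) = f + k + 1 by omega]
        exact ⟨hrr (f + k) (by omega) (by omega), (hrn (f + k) (by omega) (by omega)).1⟩)
      (fun k hk => by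
        rw [show f + (k + 1) = f + k + 1 by omega]
        exact (hrn (f + k) (by omega) (by omega)).2)
      (fun k hk => ⟨l4.trans (hbig (f + k) (by omega) (by omega)).1, (hbig (f + k) (by omega) (by omega)).2⟩)
      (fun k hk => by
        rw [show f + (k + 1) = f + k + 1 by omega]
        have h1 := hTn (f + k) (by omega) (by omega)
        exact ⟨(Nat.mul_le_mul_right _ k1).trans h1.1, h1.2⟩)
      (fun k hk1 hk2 => by
        rcases hM with h1 | h1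
        · exact Or.inl ((hr0 f (f + (k - 1)) le_rfl (by omega) (by omega)).trans h1)
        · exact Or.inr (h1.trans (hr0 (f + (k + 1)) (f + m) (by omega) (by omega) le_rfl)))
      (x := x) (xc := xc) (R := R) (Y := Y) (Z := Z) (l0 := n / Cn + ((Δ + 3) / Cn + 4)) hR1 hY hYY
      (by rw [hZ, hj₁]; exact le_of_eq (by congr 1))
      (fun k hk1 hk2 => node_levP89 hCn hin (hnu k hk1 hk2))
      (fun k hk1 hk2 => cenP89 hCn hin hρ hρR hC₀ (show 0 ≤ K₁ * Bk by positivity) (((le_max_right _ _).trans_eq hRm.symm).trans hRmR)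
        hBw1 hBR (hwn0 (f + (k - 1)) (by omega) (by omega)).le (hwik k hk1 hk2) (hxc k hk1 hk2) hxn)
      hnum htop'
    refine harm.trans (mul_le_mul_of_nonneg_left (PMP_mono89 hpos hl _ _ x fun z hz => ?_) (by norm_num))
    rw [show i + 3 - 1 = i + 2 by omega] at hz
    have h1 := hTT (f + (i + 2)) (by omega) (by omega)
    have h2 := U16.wd_le_two h0 (hn₁1.trans (hbig (f + (i + 2)) (by omega) (by omega)).1) h1.1
    have h3 := mul_le_mul_of_nonneg_left h2 (show 0 ≤ Z by linarith only [hZ1])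
    rw [hZ] at hz h3
    linarith only [hz, h3]

end

end Pool.Agent.W_7d29a1_C1.TmP89
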