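import Pool.Agent.W_7d29a1_C1.LrG94
import Pool.Agent.W_7d29a1_C1.TmP89

/-!
MP_7d29a1_pr, [C1] SHELL, FIELD nu, THE FUTURE HALF OF A TAME SCALE: (LR) of the backward masses (`Sys16`) at the first row of a tower (rows
upward) which is not felt. (helper94; forward twin of helper89's `TmP89.lr_towP89`)

The layers `f, .., f + m - 1` above the row `r f`; heights `T v` (`Far16`, steep levels `q v ≤ q₀ Θ ^ (v - f)`), labels `Tn v ≤ T v` (nodes: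
`Cn * nu ≤ Δ + k`, centres within `C₀ ρ ^ (Δ + k)` units of the line). **`lr_towF94`**: for places within `K₁` widths of the scale `f + mt`
(`mt + 4 < m`) and a reference of the scale `f + n`, `n ≤ mt`:
`B x ≤ exp (A Φ ^ (pw n) EE (T f) + σ (EE (T f) / wd (T f)) |x - x'|) B x'`; `pw` from `In`, `Φ` before the ratio `K₂`, `B₂ ≤ Φ ^ Cn`.
THE ORDER: `pw | Φ | θn K0 Bn | K₂ | P θ K B₂ Cn b kT | Bp | K₁ C₀ | Rm (radius of the nodes) | σ Y q₀ δ Δ | A₀ n₁`.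
THE TOP is asked beyond `4 ^ (m - (mt + 4)) (2 ^ ((mt + 1) / Cn) wd)` only.
-/

set_option autoImplicit false

namespace Pool.Agent.W_7d29a1_C1.TmF94

open MeasureTheory ProbabilityTheory Filter Topology Finset
open Pool.Agent.W_7d29a1_F Pool.Agent.W_7d29a1_h4g Pool.Agent.W_7d29a1_H Pool.Agent.W_7d29a1_HS
open Pool.Agent.W_7d29a1_C1.H75 Pool.Agent.W_7d29a1_C1.U16 Pool.Agent.W_7d29a1_C1.FarK89 Pool.Agent.W_7d29a1_C1.FarW89
open Pool.Agent.W_7d29a1_C1.DD84 Pool.Agent.W_7d29a1_C1.SysN89 Pool.Agent.W_7d29a1_C1.LrN89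
open Pool.Agent.W_7d29a1_C1.H94 (nu Cs94)
open Pool.Agent.W_7d29a1_C1.ArmD88 (arm88)
open Pool.Agent.W_7d29a1_C1.LrG94 (lr_rowG94)
open Pool.Agent.W_7d29a1_C1.TmP89 (node_levP89 cenP89 num89)

noncomputable section

variable {μ : Measure ℝ} [IsProbabilityMeasure μ] {s c C : ℝ} {n₀ : ℕ}

/-- **(LR) FOR THE BACKWARD MASSES AT THE FIRST ROW OF A TOWER WHICH IS NOT FELT.** -/
theorem lr_towF94 (h0 : In μ s c C n₀) : ∃ pw : ℕ, ∀ Φ : ℝ, 1 ≤ Φ → ∀ {θn : ℝ}, 0 < θn → ∀ (K0 : ℕ) {Bn : ℕ}, 1 ≤ Bn → ∃ K₂ : ℕ, 2 ≤ K₂ ∧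
    ∀ (P : ℕ) (θ K B₂ : ℝ) (Cn : ℕ), 0 < θ → 4 ≤ K → 2 ≤ B₂ → 1 ≤ Cn → B₂ ≤ Φ ^ Cn → ∀ b kT : ℕ, ∃ Bp : ℝ, 2 ≤ Bp ∧
    ∀ K₁ C₀ : ℝ, 1 ≤ K₁ → 0 ≤ C₀ → ∃ Rm : ℝ,
    ∀ (σ Y q₀ δ : ℝ) (Δ : ℕ), 0 < σ → 8 ≤ Y → 0 ≤ q₀ → 0 < δ → δ ≤ θ * sl μ s → δ ≤ θ * (1 - sl μ s) →
    ∃ (A₀ : ℝ) (n₁ : ℕ), 0 ≤ A₀ ∧ 1 ≤ n₁ ∧
    ∀ {c₀ δ₁ c₁ A aa g Y₁ : ℝ} {Kb n₃ : ℕ}, Cs94 μ s c₀ δ₁ c₁ A aa g θn Y₁ K0 Kb n₃ → 4 * b * Bn ≤ Kb → 8 * Y₁ ≤ Y → 64 ≤ c₁ * Y →
    ∀ {R ρ : ℕ}, 1 ≤ ρ → ρ ^ Cn ≤ R → Rm ≤ R →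
    ∀ {h : ℝ} {η : Env} {p : ℕ → ℝ} {M Nt : ℕ} {Bm : ℕ → ℤ → ℝ}, Sys16 (fun a b x z => nk μ s h η p M a (b - a) x z) Bm Nt →
    (∀ k, k < M → p k = Real.exp (s + h)) → (∀ k, M ≤ k → p k = Real.exp s) →
    ∀ {κ : Pt} {r T Tn N : ℕ → ℕ} {q : ℕ → ℝ} {bs : ℕ → Pt} {w : ℕ → ℤ} {be : ℕ → ℝ} {f m mt : ℕ} {Θ B₁ : ℝ} {xc : ℕ → ℤ},
    1 ≤ Θ → Θ ^ 2 ≤ 2 → Θ ^ 4 ≤ Φ → mt + 4 < m → Lay89 μ s c θ K h P η κ r T N q bs f (f + m) n₁ →
    StL89 μ s B₁ B₂ δ η κ r T q w be (f + 1) (f + (mt + 3)) → 2 * Bp ≤ B₁ → r (f + m) ≤ Nt → (M ≤ r f ∨ r (f + m) ≤ M) →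
    ((r (f + m) - r f : ℕ) : ℝ) ≤ Real.exp (EE μ s (Tn f)) →
    (∀ v, f ≤ v → v + 1 < f + m → K₂ * T v ≤ T (v + 1) ∧ T (v + 1) ≤ b * T v) →
    (∀ v, f ≤ v → v + 1 < f + m → K₂ * Tn v ≤ Tn (v + 1) ∧ Tn (v + 1) ≤ b * Tn v) →
    (∀ v, f ≤ v → v < f + m → Tn v ≤ T v ∧ T v ≤ kT * Tn v) → (∀ v, f ≤ v → v < f + m → n₁ ≤ Tn v ∧ Bn * n₃ ≤ Tn v) →
    (∀ v, f ≤ v → v < f + m → r (v + 1) ≤ r v + Tn v ∧ Tn v ≤ Bn * (r (v + 1) - r v)) → n₁ * K₂ ^ ((mt + 1) / Cn) ≤ T f →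
    (∀ v, f ≤ v → v < f + m → q v ≤ q₀ * Θ ^ (v - f)) →
    (∀ k, 1 ≤ k → k < m → Cn * nu μ s c₀ δ₁ Y (wd μ s (Tn (f + (k - 1)))) (wd μ s (Tn (f + k)) / wd μ s (Tn (f + (k - 1)))) R
      (r (f + (k - 1)) : ℤ) (r (f + k) - r (f + (k - 1))) (r (f + (k + 1)) - r (f + k)) (xc k) η ≤ Δ + k) →
    (∀ k, 1 ≤ k → k < m → |lt μ s κ r (f + k) (xc k)| ≤ C₀ * (ρ : ℝ) ^ (Δ + k) * wd μ s (Tn (f + (k - 1)))) →
    (∀ x : ℤ, |lt μ s κ r f x| ≤ K₁ * wd μ s (T (f + (mt + 1))) →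
      16 * (((r (f + m) - r f : ℕ) : ℝ) * PM16 (fun a b x z => nk μ s h η p M a (b - a) x z) Bm (r f) (r (f + m)) x
        (fun z => 4 ^ (m - (mt + 4)) * (2 ^ ((mt + 1) / Cn) * wd μ s (Tn (f + (m - 1)))) ≤
          |lt μ s κ r (f + m) z - lt μ s κ r f x|)) ≤ Bm (r f) x) →
    ∀ n, n ≤ mt → ∀ x x' : ℤ, |lt μ s κ r f x'| ≤ K₁ * wd μ s (T (f + n)) → |lt μ s κ r f x| ≤ K₁ * wd μ s (T (f + mt)) →
      Bm (r f) x ≤ Real.exp (A₀ * (Φ ^ (pw * n) * EE μ s (T f)) + σ * (EE μ s (T f) / wd μ s (T f)) * |(x : ℝ) - x'|) * Bm (r f) x' := by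
  obtain ⟨pw, HL⟩ := lr_rowG94 h0
  refine ⟨pw, fun Φ hΦ => ?_⟩
  obtain ⟨K₀, hK₀, HL⟩ := HL Φ hΦ
  intro θn hθn K0 Bn hBn
  obtain ⟨K1, n₄, hK1, HA⟩ := arm88 h0 hθn K0 hBn
  obtain ⟨Kc, hKc, HC⟩ := cone16 h0
  obtain ⟨Ks, n₅, hKs, hn₅, HS⟩ := scale_num h0
  obtain ⟨aE, n₆, haE, -, hn₆, HE⟩ := Pool.Agent.W_7d29a1_HL.EE_pow h0
  obtain ⟨K₂, hK₂⟩ : ∃ K₂ : ℕ, K₂ = max (max K₀ K1) (max (max Kc Ks) Bn) := ⟨_, rfl⟩
  have k0 : K₀ ≤ K₂ := by rw [hK₂]; exact (le_max_left _ _).trans (le_max_left _ _)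
  have k1 : K1 ≤ K₂ := by rw [hK₂]; exact (le_max_right _ _).trans (le_max_left _ _)
  have kc : Kc ≤ K₂ := by rw [hK₂]; exact ((le_max_left _ _).trans (le_max_left _ _)).trans (le_max_right _ _)
  have ks : Ks ≤ K₂ := by rw [hK₂]; exact ((le_max_right _ _).trans (le_max_left _ _)).trans (le_max_right _ _)
  have kB : Bn ≤ K₂ := by rw [hK₂]; exact (le_max_right _ _).trans (le_max_right _ _)
  have hK₂2 : 2 ≤ K₂ := hK₀.trans k0
  refine ⟨K₂, hK₂2, ?_⟩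
  intro P θ K B₂ Cn hθ hK hB₂ hCn hBΦ b kT
  obtain ⟨Bp, hBp, HL⟩ := HL P θ K B₂ Cn hθ hK hB₂ hCn hBΦ b
  refine ⟨Bp, hBp, ?_⟩
  intro K₁ C₀ hK₁ hC₀
  obtain ⟨Bw, n₈, hBw, hn₈, HW⟩ := wd_next h0 b
  obtain ⟨Bk, n₉, hBk, hn₉, HK⟩ := wd_next h0 kT
  obtain ⟨Rm, hRm⟩ : ∃ Rm : ℝ, Rm = max (Bw ^ Cn) (C₀ + K₁ * Bk) := ⟨_, rfl⟩
  refine ⟨Rm, ?_⟩
  intro σ Y q₀ δ Δ hσ hY hq₀ hδ hδ1 hδ2
  obtain ⟨j₂, hj₂⟩ : ∃ j₂ : ℕ, j₂ = (Δ + 3) / Cn + 5 := ⟨_, rfl⟩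
  obtain ⟨A₀, j₀, n₂, hA₀, hn₂, HL⟩ := HL σ K₁ q₀ 0 (2 * Y) j₂ hσ hK₁ hq₀ le_rfl (by linarith only [hY])
  obtain ⟨n₇, hn₇, HC⟩ := HC δ hδ (j₂ + j₀)
  obtain ⟨n₁, hn₁⟩ : ∃ n₁ : ℕ, n₁ = max (max (max n₂ n₄) (max n₅ n₆)) (max n₇ (max n₈ n₉)) := ⟨_, rfl⟩
  have l2 : n₂ ≤ n₁ := by rw [hn₁]; exact ((le_max_left _ _).trans (le_max_left _ _)).trans (le_max_left _ _)
  have l4 : n₄ ≤ n₁ := by rw [hn₁]; exact ((le_max_right _ _).trans (le_max_left _ _)).trans (le_max_left _ _)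
  have l5 : n₅ ≤ n₁ := by rw [hn₁]; exact ((le_max_left _ _).trans (le_max_right _ _)).trans (le_max_left _ _)
  have l6 : n₆ ≤ n₁ := by rw [hn₁]; exact ((le_max_right _ _).trans (le_max_right _ _)).trans (le_max_left _ _)
  have l7 : n₇ ≤ n₁ := by rw [hn₁]; exact (le_max_left _ _).trans (le_max_right _ _)
  have l8 : n₈ ≤ n₁ := by rw [hn₁]; exact ((le_max_left _ _).trans (le_max_right _ _)).trans (le_max_right _ _)
  have l9 : n₉ ≤ n₁ := by rw [hn₁]; exact ((le_max_right _ _).trans (le_max_right _ _)).trans (le_max_right _ _)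
  refine ⟨A₀, n₁, hA₀, hn₂.trans l2, ?_⟩
  intro c₀ δ₁ c₁ A aa g Y₁ Kb n₃ hCs hKb hYY hcY R ρ hρ hρR hRmR h η p M Nt Bm S hp hp' κ r T Tn N q bs w be f m mt Θ B₁ xc hΘ hΘ2 hΘΦ
    hmt hL hSt hBpB hrN hM hN hT hTn hTT hbig hrn hΔ hq hnu hxc htop
  -- numbers of the tower
  have hTg := tow_grow16 (T := T) (f := f) (m := m) (K := K₂) fun v h1 h2 => (hT v h1 h2).1
  have hTng := tow_grow16 (T := Tn) (f := f) (m := m) (K := K₂) fun v h1 h2 => (hTn v h1 h2).1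
  have hbigT : ∀ v, f ≤ v → v < f + m → n₁ ≤ T v := fun v h1 h2 => (hbig v h1 h2).1.trans (hTT v h1 h2).1
  have hn₁1 : 1 ≤ n₁ := hn₂.trans l2
  have hwT0 : ∀ v, f ≤ v → v < f + m → 0 < wd μ s (T v) := fun v h1 h2 => h0.wd_pos (hn₁1.trans (hbigT v h1 h2))
  have hwn0 : ∀ v, f ≤ v → v < f + m → 0 < wd μ s (Tn v) := fun v h1 h2 => h0.wd_pos (hn₁1.trans (hbig v h1 h2).1)
  have hwTm : ∀ v, f ≤ v → v + 1 < f + m → wd μ s (T v) ≤ wd μ s (T (v + 1)) := fun v h1 h2 =>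
    (HS _ _ (l5.trans (hbigT v h1 (by omega))) ((Nat.mul_le_mul_right _ ks).trans (hT v h1 h2).1)).1
  have hwnm : ∀ v, f ≤ v → v + 1 < f + m → wd μ s (Tn v) ≤ wd μ s (Tn (v + 1)) := fun v h1 h2 =>
    (HS _ _ (l5.trans (hbig v h1 (by omega)).1) ((Nat.mul_le_mul_right _ ks).trans (hTn v h1 h2).1)).1
  have hwTm' : ∀ d v, f ≤ v → v + d < f + m → wd μ s (T v) ≤ wd μ s (T (v + d)) := by
    intro d
    induction d with
    | zero => intro v _ _; exact le_rfl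
    | succ d ih => intro v h1 h2; exact (ih v h1 (by omega)).trans (hwTm (v + d) (by omega) (by omega))
  have hwnm' : ∀ d v, f ≤ v → v + d < f + m → wd μ s (Tn v) ≤ wd μ s (Tn (v + d)) := by
    intro d
    induction d with
    | zero => intro v _ _; exact le_rfl
    | succ d ih => intro v h1 h2; exact (ih v h1 (by omega)).trans (hwnm (v + d) (by omega) (by omega))
  have hBw1 : 1 ≤ Bw := by linarith only [hBw]
  have hwnR : ∀ d v, f ≤ v → v + d < f + m → wd μ s (Tn (v + d)) ≤ Bw ^ d * wd μ s (Tn v) := by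
    intro d
    induction d with
    | zero => intro v _ _; rw [pow_zero, one_mul, Nat.add_zero]
    | succ d ih =>
      intro v h1 h2
      have h3 := ih v h1 (by omega)
      have h5 := hTn (v + d) (by omega) (by omega)
      have h4 := HW (Tn (v + d)) (Tn (v + d + 1)) (l8.trans (hbig (v + d) (by omega) (by omega)).1)
        ((Nat.le_mul_of_pos_left _ (by omega : 0 < K₂)).trans h5.1) h5.2
      calc wd μ s (Tn (v + (d + 1))) ≤ Bw * wd μ s (Tn (v + d)) := h4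
        _ ≤ Bw * (Bw ^ d * wd μ s (Tn v)) := mul_le_mul_of_nonneg_left h3 (by linarith only [hBw1])
        _ = _ := by rw [pow_succ]; ring
  have hrr := hL.rr
  have hr0 : ∀ a b, f ≤ a → a ≤ b → b ≤ f + m → r a ≤ r b := by
    intro a b' h1 h2 h3
    have := r_mono (r := r) (a := f) (b := f + m) hrr (b' - a) a h1 (by omega)
    rwa [show a + (b' - a) = b' by omega] at this
  have hY0 : 0 < Y := by linarith only [hY]
  have hc₁ := hCs.c₁0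
  have hEf := one_le_EE (μ := μ) (s := s) (Tn f)
  have hTf : ∀ v, f ≤ v → v < f + m → T f ≤ T v := by
    intro v h1 h2
    have h3 := hTg (v - f) (by omega)
    rw [show f + (v - f) = v by omega] at h3
    exact (Nat.le_mul_of_pos_left _ (Nat.pow_pos (by omega))).trans h3
  refine HL S hp hp' hΘ hΘ2 hΘΦ (hL.sub le_rfl (by omega : f + (mt + 4) ≤ f + m) l2) ((hr0 (f + (mt + 4)) (f + m) (by omega) (by omega) le_rfl).trans hrN)
    (fun v h1 h2 => ⟨(Nat.mul_le_mul_right _ k0).trans (hT v h1 (by omega)).1, (hT v h1 (by omega)).2⟩)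
    (fun v h1 h2 => hq v h1 (by omega)) hBpB hδ1 hδ2 hSt ?_ 0 (by rw [abs_zero, zero_mul]) ?_ |> fun key n hn x x' hx' hx => by
      simpa only [sub_zero] using key n hn x x' (by rw [sub_zero]; exact hx') (by rw [sub_zero]; exact hx)
  · -- the cone
    intro v h1 h2
    have h3 : n₇ * Kc ^ ((mt + 1) / Cn) ≤ T v := by
      calc n₇ * Kc ^ ((mt + 1) / Cn) ≤ n₁ * K₂ ^ ((mt + 1) / Cn) := Nat.mul_le_mul l7 (Nat.pow_le_pow_left kc _)
        _ ≤ T f := hΔ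
        _ ≤ T v := hTf v h1.le (by omega)
    have h4 := HC _ _ h3
    rwa [← add_assoc] at h4
  · -- the arms
    intro i n hin hn x hx
    rw [sub_zero] at hx
    obtain ⟨Z, hZ⟩ : ∃ Z : ℝ, Z = 2 ^ (n / Cn + j₂) * Y := ⟨_, rfl⟩
    have hZY : Y ≤ Z := by
      rw [hZ]
      exact le_mul_of_one_le_left hY0.le (one_le_pow₀ (by norm_num))
    have hZ1 : 1 ≤ Z := by linarith only [hZY, hY]
    have hxn : |lt μ s κ r f x| ≤ K₁ * Bk * wd μ s (Tn (f + n)) := by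
      have h1 := hTT (f + n) (by omega) (by omega)
      have h2 := HK (Tn (f + n)) (T (f + n)) (l9.trans (hbig (f + n) (by omega) (by omega)).1) h1.1 h1.2
      have h3 := mul_le_mul_of_nonneg_left h2 (show 0 ≤ K₁ by linarith only [hK₁])
      linarith only [hx, h3]
    have hwik : ∀ k, 1 ≤ k → k < m → wd μ s (Tn (f + n)) ≤ Bw ^ (n + 1 - k) * wd μ s (Tn (f + (k - 1))) := by
      intro k hk1 hkm
      rcases Nat.lt_or_ge n (k - 1) with h5 | h5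
      · have h6 := hwnm' (k - 1 - n) (f + n) (by omega) (by omega)
        rw [show f + n + (k - 1 - n) = f + (k - 1) by omega] at h6
        rw [show n + 1 - k = 0 by omega, pow_zero, one_mul]
        exact h6
      · have h6 := hwnR (n + 1 - k) (f + (k - 1)) (by omega) (by omega)
        rw [show f + (k - 1) + (n + 1 - k) = f + n by omega] at h6
        exact h6
    have hnum : 16 * (((r (f + m) - r f : ℕ) : ℝ) * Real.exp (-(c₁ * (Z / 8 * EE μ s (r (f + (i + 3)) - r f))))) ≤ 1 := by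
      have h1 : Tn f ≤ r (f + (i + 3)) - r f := by
        have h2 := (hrn (f + (i + 2)) (by omega) (by omega)).2
        have h3 := hTng (i + 2) (by omega)
        have h4 : Bn ≤ K₂ ^ (i + 2) := kB.trans (Nat.le_self_pow (by omega) K₂)
        have h5 : Bn * Tn f ≤ Bn * (r (f + (i + 2) + 1) - r (f + (i + 2))) := ((Nat.mul_le_mul_right _ h4).trans h3).trans h2
        have h6 : Tn f ≤ r (f + (i + 2) + 1) - r (f + (i + 2)) := Nat.le_of_mul_le_mul_left h5 (by omega)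
        have h7 := hr0 f (f + (i + 2)) le_rfl (by omega) (by omega)
        rw [show f + (i + 2) + 1 = f + (i + 3) by omega] at h6
        omega
      have h2 := HE (Tn f) _ (l6.trans (hbig f le_rfl (by omega)).1) h1
      have hTf0 : (0 : ℝ) < Tn f := by exact_mod_cast hn₁1.trans (hbig f le_rfl (by omega)).1
      have h3 : (1 : ℝ) ≤ (((r (f + (i + 3)) - r f : ℕ) : ℝ) / Tn f) ^ aE := by
        refine Real.one_le_rpow ?_ haE.le
        rw [one_le_div hTf0]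
        exact_mod_cast h1
      have h4 : EE μ s (Tn f) ≤ 2 * EE μ s (r (f + (i + 3)) - r f) := by
        have := mul_le_mul_of_nonneg_right h3 (show 0 ≤ EE μ s (Tn f) by linarith only [hEf])
        linarith only [this, h2]
      exact num89 (hcY.trans (mul_le_mul_of_nonneg_left hZY hc₁.le)) hEf h4 hN
    have hwm1 := hwn0 (f + (m - 1)) (by omega) (by omega)
    have htop' : 16 * (((r (f + m) - r f : ℕ) : ℝ) * PM16 (fun a b x z => nk μ s h η p M a (b - a) x z) Bm (r f) (r (f + m)) x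
        (fun z => 4 ^ (m - (i + 3)) * (Z * wd μ s (Tn (f + (m - 1)))) ≤ |lt μ s κ r (f + m) z - lt μ s κ r f x|)) ≤ Bm (r f) x := by
      have hxm : |lt μ s κ r f x| ≤ K₁ * wd μ s (T (f + (mt + 1))) := by
        have h1 := hwTm' (mt + 1 - n) (f + n) (by omega) (by omega)
        rw [show f + n + (mt + 1 - n) = f + (mt + 1) by omega] at h1
        exact hx.trans (mul_le_mul_of_nonneg_left h1 (by linarith only [hK₁]))
      refine le_trans (mul_le_mul_of_nonneg_left (mul_le_mul_of_nonneg_left ?_ (Nat.cast_nonneg _)) (by norm_num)) (htop x hxm)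
      refine PM16_mono S hrN x fun z _ _ hz => le_trans ?_ hz
      -- the factor `2 ^ ((mt + 1) / Cn)` is paid by the levels between
      have h1 : (4 : ℝ) ^ (m - (mt + 4)) * 2 ^ ((mt + 1) / Cn) ≤ 4 ^ (m - (i + 3)) * Z := by
        have h2 : (mt + 1) / Cn ≤ (mt + 1 - i) + (n / Cn + j₂) := by
          have h3 := Pool.Agent.W_7d29a1_C1.TmP89.div_add89 n (mt + 1 - n) hCn
          rw [show n + (mt + 1 - n) = mt + 1 by omega] at h3
          have h4 := Nat.div_le_self (mt + 1 - n) Cn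
          have h5 : 5 ≤ j₂ := by rw [hj₂]; exact Nat.le_add_left _ _
          clear hj₂
          generalize (mt + 1) / Cn = y1 at h3 ⊢
          generalize (mt + 1 - n) / Cn = y2 at h3 h4
          generalize n / Cn = y3 at h3 ⊢
          omega
        have h5 : (4 : ℝ) ^ (m - (i + 3)) = 4 ^ (m - (mt + 4)) * 4 ^ (mt + 1 - i) := by
          rw [← pow_add]
          congr 1
          omega
        have h6 : (2 : ℝ) ^ ((mt + 1) / Cn) ≤ 2 ^ (mt + 1 - i) * 2 ^ (n / Cn + j₂) := by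
          rw [← pow_add]
          exact pow_le_pow_right₀ (by norm_num) h2
        have h7 : (2 : ℝ) ^ (mt + 1 - i) ≤ 4 ^ (mt + 1 - i) := pow_le_pow_left₀ (by norm_num) (by norm_num) _
        have h8 : (2 : ℝ) ^ (n / Cn + j₂) ≤ Z := by
          rw [hZ]
          exact le_mul_of_one_le_right (by positivity) (by linarith only [hY])
        rw [h5, mul_assoc]
        refine mul_le_mul_of_nonneg_left (h6.trans ?_) (by positivity)
        exact mul_le_mul h7 h8 (by positivity) (by positivity)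
      have h2 := mul_le_mul_of_nonneg_right h1 hwm1.le
      calc _ = (4 : ℝ) ^ (m - (mt + 4)) * 2 ^ ((mt + 1) / Cn) * wd μ s (Tn (f + (m - 1))) := by ring
        _ ≤ _ := h2
        _ = _ := by ring
    have hBR : Bw ^ Cn ≤ (R : ℝ) := ((le_max_left _ _).trans_eq hRm.symm).trans hRmR
    have hR1 : 1 ≤ R := (Nat.one_le_pow _ _ (by omega)).trans hρR
    have harm := HA hCs b hKb S hp hp' (κ := κ) (r := r) (T := Tn) (u := f) (m := m) (j := i + 3) (by omega) (by omega)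
      (fun k hk => by
        rw [show f + (k + 1) = f + k + 1 by omega]
        exact ⟨hrr (f + k) (by omega) (by omega), (hrn (f + k) (by omega) (by omega)).1⟩)
      (fun k hk => by
        rw [show f + (k + 1) = f + k + 1 by omega]
        exact (hrn (f + k) (by omega) (by omega)).2)
      (fun k hk => ⟨l4.trans (hbig (f + k) (by omega) (by omega)).1, (hbig (f + k) (by omega) (by omega)).2⟩)
      (fun k hk => by
        rw [show f + (k + 1) = f + k + 1 by omega]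
        have h1 := hTn (f + k) (by omega) (by omega)
        exact ⟨(Nat.mul_le_mul_right _ k1).trans h1.1, h1.2⟩) hrN
      (fun k hk1 hk2 => by
        rcases hM with h1 | h1
        · exact Or.inr (h1.trans (hr0 f (f + (k - 1)) le_rfl (by omega) (by omega)))
        · exact Or.inl ((hr0 (f + (k + 1)) (f + m) (by omega) (by omega) le_rfl).trans h1))
      (x := x) (xc := xc) (R := R) (Y := Y) (Z := Z) (l0 := n / Cn + ((Δ + 3) / Cn + 4)) hR1 hY hYY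
      (by rw [hZ, hj₂]; exact le_of_eq (by congr 1))
      (fun k hk1 hk2 => node_levP89 hCn hin (hnu k hk1 hk2))
      (fun k hk1 hk2 => cenP89 hCn hin hρ hρR hC₀ (show 0 ≤ K₁ * Bk by positivity) (((le_max_right _ _).trans_eq hRm.symm).trans hRmR)
        hBw1 hBR (hwn0 (f + (k - 1)) (by omega) (by omega)).le (hwik k hk1 hk2) (hxc k hk1 hk2) hxn)
      hnum htop'
    refine harm.trans (mul_le_mul_of_nonneg_left ?_ (by norm_num))
    refine PM16_mono S ((hr0 (f + (i + 3)) (f + m) (by omega) (by omega) le_rfl).trans hrN) x fun z _ _ hz => ?_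
    rw [show i + 3 - 1 = i + 2 by omega] at hz
    have h1 := hTT (f + (i + 2)) (by omega) (by omega)
    have h2 := U16.wd_le_two h0 (hn₁1.trans (hbig (f + (i + 2)) (by omega) (by omega)).1) h1.1
    have h3 := mul_le_mul_of_nonneg_left h2 (show 0 ≤ Z by linarith only [hZ1])
    rw [hZ] at hz h3
    linarith only [hz, h3]

end

end Pool.Agent.W_7d29a1_C1.TmF94
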