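import Pool.Agent.W_7d29a1_C1.TmR89
import Pool.Agent.W_7d29a1_C1.TmF94
import Pool.Agent.W_7d29a1_C1.DfG94

/-!
MP_7d29a1_pr, [C1], FIELD nu, THE FORWARD CLAUSE: A SCALE OF A CONTACT WHICH IS NOT FELT IS TAME IN THE FUTURE. (helper94; forward twin of
helper89's `TmR89.tmR89`, whose letters `Sc89`, `la89`, `co89`, `Hl89` are used)

`tmG94`: the two depths (levels and steep levels of the layers of the upper edges of the tower `Zt77`, nodes of the future) exist with moments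
at most two, and at a scale `b` which does not feel them (`Ok6`, no row of a switch) the future masses of the row `z_b + T_b` are locally regular
(`Lr31`, clause `fut` of `TM31`). `TopF94` (DfG94): the crude bound of the far mass at the top edge. The switch row may be anywhere (`Sw70`).
-/

set_option autoImplicit false

namespace Pool.Agent.W_7d29a1_C1.TmG94

open MeasureTheory ProbabilityTheory Filter Topology Finset
open Pool.Agent.W_7d29a1_F Pool.Agent.W_7d29a1_h4g Pool.Agent.W_7d29a1_H Pool.Agent.W_7d29a1_HS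
open Pool.Agent.W_7d29a1_C1.S71 Pool.Agent.W_7d29a1_C1.H40 Pool.Agent.W_7d29a1_C1.Dep6
open Pool.Agent.W_7d29a1_C1.H75 Pool.Agent.W_7d29a1_C1.U16
open Pool.Agent.W_7d29a1_C1.FarW89 (nk bl lt)
open Pool.Agent.W_7d29a1_C1.H94 (nu Cs94)
open Pool.Agent.W_7d29a1_C1.T10 (Gd pt)
open Pool.Agent.W_7d29a1_C1.H60 (Cx)
open Pool.Agent.W_7d29a1_C1.D31 (Lr31)
open Pool.Agent.W_7d29a1_C1.H77 (Zt77 uc77 split_uc77 split3_uc77)
open Pool.Agent.W_7d29a1_C1.Swm70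
open Pool.Agent.W_7d29a1_C1.StD94 (stF_famD94)
open Pool.Agent.W_7d29a1_C1.TmF94 (lr_towF94)
open Pool.Agent.W_7d29a1_C1.TmR89 (la89 co89 Sc89 Hl89)
open scoped ENNReal

noncomputable section

variable {μ : Measure ℝ} {s c C : ℝ} {n₀ : ℕ}

section Geom

variable {B K L : ℕ} {C₀ : ℝ} {G : Gd} {T : ℕ → ℕ} {x : ℕ × ℤ}

/-- **The rows of a layer.** -/
theorem rows94 (h : Cn94 μ s B G T L x) (hT : Sc89 μ s B K C₀ T) (hK : 2 ≤ K) {v : ℕ} (h1 : 1 ≤ v) (h2 : v < L) :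
    ro94 G T x v ≤ ro94 G T x (v + 1) ∧ ro94 G T x (v + 1) - ro94 G T x v ≤ T (v + 1) ∧
      T (v + 1) ≤ 4 * (ro94 G T x (v + 1) - ro94 G T x v) := by
  have a3 := h.zle v h1 h2
  have a4 := h.zst v h1 h2
  have a5 : 2 * T v ≤ T (v + 1) := by
    rw [hT.TK v h1]
    exact Nat.mul_le_mul_right _ hK
  unfold ro94
  omega

theorem mono94 (h : Cn94 μ s B G T L x) (hT : Sc89 μ s B K C₀ T) (hK : 2 ≤ K) : ∀ d v, 1 ≤ v → v + d ≤ L →
    ro94 G T x v ≤ ro94 G T x (v + d)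
  | 0, _, _, _ => le_rfl
  | d + 1, v, h1, h2 => (mono94 h hT hK d v h1 (by omega)).trans (rows94 h hT hK (v := v + d) (by omega) (by omega)).1

/-- **The column of an upper edge.** -/
theorem colU94 (h : Cn94 μ s B G T L x) {v : ℕ} (h1 : 1 ≤ v) (h2 : v ≤ L) :
    |la89 μ s (uc77 G T x v) - ((x.2 : ℝ) - sl μ s * (x.1 : ℝ))| + 1 ≤ wd μ s (B * T v) ∧
      |lat16 μ s (pt x) ((ro94 G T x v : ℤ), co89 μ s (uc77 G T x v))| ≤ wd μ s (B * T v) := by
  have h3 := h.lat v h1 h2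
  have e1 : lat16 μ s (pt x) (G.x v x) = la89 μ s (uc77 G T x v) - ((x.2 : ℝ) - sl μ s * (x.1 : ℝ)) := by
    unfold lat16 la89
    show ((((G.z v x).2 - x.2 : ℤ)) : ℝ) - sl μ s * ((((G.z v x).1 : ℤ) - (x.1 : ℤ) : ℤ) : ℝ) =
      (((G.z v x).2 : ℤ) : ℝ) - sl μ s * ((G.z v x).1 : ℝ) - ((x.2 : ℝ) - sl μ s * (x.1 : ℝ))
    push_cast
    ring
  rw [e1] at h3
  refine ⟨h3, ?_⟩
  have h4 := colC6_line (μ := μ) (s := s) (κ := pt x) (latC := la89 μ s) (x := (x.2 : ℝ) - sl μ s * (x.1 : ℝ)) (by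
    show ((x.2 : ℤ) : ℝ) - sl μ s * (((x.1 : ℕ) : ℤ) : ℝ) = _
    push_cast
    ring) (uc77 G T x v) (B := wd μ s (B * T v) - 1) (by linarith)
  rw [row_uc94] at h4
  unfold co89
  linarith

end Geom

/-! ### The clause -/

variable [IsProbabilityMeasure μ]

/-- **A SCALE WHICH IS NOT FELT IS TAME IN THE FUTURE.** -/
theorem tmG94 (h0 : In μ s c C n₀) (hCs : ∃ (c₀ δ₁ c₁ A a g θ : ℝ) (K0 : ℕ), ∀ Kb : ℕ, ∃ (n₃ : ℕ) (Y₁ : ℝ),
      Cs94 μ s c₀ δ₁ c₁ A a g θ Y₁ K0 Kb n₃) :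
    ∃ (Φ : ℝ) (K₂ : ℕ), 1 ≤ Φ ∧ 2 ≤ K₂ ∧ ∀ (K B : ℕ) (C₀ : ℝ), K₂ ≤ K → 2 ≤ B → 1 ≤ C₀ → ∀ Cn : ℕ, 1 ≤ Cn → ∀ σ : ℝ, 0 < σ →
    ∃ AA a g AA' a' g' : ℝ, 0 < AA ∧ 0 < a ∧ 0 < g ∧ 0 < AA' ∧ 0 < a' ∧ 0 < g' ∧ ∀ z : ℝ, 1 ≤ z →
    ∃ (A q₁ : ℝ) (n₁ : ℕ), 0 ≤ A ∧ 1 ≤ q₁ ∧ 1 ≤ n₁ ∧ ∀ T : ℕ → ℕ, n₁ ≤ T 1 → Sc89 μ s B K C₀ T → ∀ D : ℕ,
      ∃ (dL : Cut (ℕ × ℤ) → Cut (ℕ × ℤ) → Env → ℕ) (dN : Cut (ℕ × ℤ) → Cut (ℕ × ℤ) → Cut (ℕ × ℤ) → Env → ℕ),
        Dp2 μ (ENNReal.ofReal z) 2 dL ∧ Dp3 μ (ENNReal.ofReal z) 2 dN ∧ (∀ a b η, dL a b η ≤ max D 1) ∧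
        (∀ E₀ x y, 1 ≤ E₀ → law μ {η | E₀ < dL x y η} ≤
          ENNReal.ofReal (AA * Real.exp (-(a * (q₁ * (17 / 16) ^ E₀) ^ g)) + AA' * Real.exp (-(a' * (q₁ * (17 / 16) ^ E₀) ^ g')))) ∧
        ∀ (Γ : Cx) (G : Gd) (L M : ℕ) (x : ℕ × ℤ) (ω : Env) (b : ℕ), Γ.s = s → M + 5 ≤ L → L < D → Cn94 μ s B G T L x →
          ro94 G T x L ≤ Γ.N →
          (∀ v, 1 ≤ v → v ≤ L → |Γ.h| * wd μ s (B * T v) ≤ c / 4 * EE μ s (B * T v)) →
          1 ≤ b → b ≤ M → 12 * (|Γ.h| * ((ro94 G T x L - ro94 G T x b : ℕ) : ℝ)) ≤ 1 →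
          ((ro94 G T x L - ro94 G T x b : ℕ) : ℝ) ≤ Real.exp (EE μ s (2 * T (b + 1))) →
          n₁ * K₂ ^ ((M - b + 1) / Cn) ≤ T (b + 1) → Ok6 ∅ dL dN lb6 lbN6 (Zt77 G T L x) b ω →
          TopF94 μ s Γ G T M L (4 * C₀) x ω →
            Lr31 μ s (pt x) T M 2 A Φ σ (bh16 μ s Γ.h ω Γ.p Γ.M Γ.N ((G.z b x).1 + T b)) ((G.z b x).1 + T b) b := by
  obtain ⟨c₀, δ₁, c₁, Ac, aa, g, θn, K0, hCs⟩ := hCs
  obtain ⟨pw, HL⟩ := lr_towF94 h0
  obtain ⟨Ds, hDs, HS⟩ := stF_famD94 h0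
  obtain ⟨Φ₀, hΦ₀⟩ : ∃ Φ₀ : ℝ, Φ₀ = max 2 Ds := ⟨_, rfl⟩
  have hΦ2 : 2 ≤ Φ₀ := hΦ₀ ▸ le_max_left _ _
  have hΦD : Ds ≤ Φ₀ := hΦ₀ ▸ le_max_right _ _
  have hΦ1 : 1 ≤ Φ₀ := by linarith only [hΦ2]
  have hθn : 0 < θn := by
    obtain ⟨n₃, Y₁, h⟩ := hCs 0
    exact h.θ0
  have hc₁ : 0 < c₁ := by
    obtain ⟨n₃, Y₁, h⟩ := hCs 0
    exact h.c₁0
  obtain ⟨K₂', hK₂', HL⟩ := HL Φ₀ hΦ1 hθn K0 (Bn := 8) (by norm_num)
  obtain ⟨K3, n₄, hK3, HN⟩ := ndok88 h0 hθn K0 (Bn := 8) (by norm_num)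
  obtain ⟨K4, n₅, hK4, hn₅, HC⟩ := Pool.Agent.W_7d29a1_C1.DD84.scale_num h0
  obtain ⟨K₂, hK₂⟩ : ∃ K₂ : ℕ, K₂ = max (max K₂' K3) K4 := ⟨_, rfl⟩
  have k2 : K₂' ≤ K₂ := hK₂ ▸ (le_max_left _ _).trans (le_max_left _ _)
  have k3 : K3 ≤ K₂ := hK₂ ▸ (le_max_right _ _).trans (le_max_left _ _)
  have k4 : K4 ≤ K₂ := hK₂ ▸ le_max_right _ _
  refine ⟨Φ₀ ^ pw, K₂, one_le_pow₀ hΦ1, hK₂'.trans k2, ?_⟩
  intro K B C₀ hKK hB hC₀ Cn hCn σ hσ
  have hK2 : 2 ≤ K := (hK₂'.trans k2).trans hKK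
  have hBR : (2 : ℝ) ≤ B := by exact_mod_cast hB
  have hKR : (2 : ℝ) ≤ K := by exact_mod_cast hK2
  obtain ⟨θ, hθe⟩ : ∃ θ : ℝ, θ = 1 / (4 * B) := ⟨_, rfl⟩
  have hθ : 0 < θ := by rw [hθe]; positivity
  have hθ1 : θ ≤ 1 := by
    rw [hθe, div_le_one (by positivity)]
    linarith only [hBR]
  have hθB : θ * B = 1 / 4 := by
    rw [hθe]
    field_simp
  obtain ⟨P, Al, al, gl, nl, hAl, hal, hgl, hnl, HF⟩ := lv_fam h0 (K := 4) (by norm_num) hθ hθ1
  have hΦC : Φ₀ ≤ Φ₀ ^ Cn := le_self_pow₀ hΦ1 (by omega)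
  obtain ⟨Bp, hBp, HL⟩ := HL P θ 4 Φ₀ Cn hθ le_rfl hΦ2 hCn hΦC K B
  obtain ⟨Rm, HL⟩ := HL 4 (C₀ ^ 2) (by norm_num) (by positivity)
  obtain ⟨R, hR⟩ : ∃ R : ℕ, R = ⌈max 1 Rm⌉₊ := ⟨_, rfl⟩
  have hRR : max 1 Rm ≤ (R : ℝ) := hR ▸ Nat.le_ceil _
  have hR1 : 1 ≤ R := by
    have : (1 : ℝ) ≤ R := (le_max_left _ _).trans hRR
    exact_mod_cast this
  have hRm : Rm ≤ (R : ℝ) := (le_max_right _ _).trans hRR
  obtain ⟨δs, hδ0, hδ1, hδ2, HS⟩ := HS θ hθ
  obtain ⟨Bw, nw, hBw, hnw, HW⟩ := DD84.wd_next h0 K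
  obtain ⟨Lm, hLm⟩ : ∃ Lm : ℝ, Lm = 2 * (C₀ * Bw) := ⟨_, rfl⟩
  have hLm1 : 1 ≤ Lm := by
    rw [hLm]
    have := mul_le_mul hC₀ hBw (by norm_num) (by linarith only [hC₀])
    linarith only [this]
  obtain ⟨As, as, gs, ns, hAs, has, hgs, hns, HS⟩ := HS (2 * Bp) Φ₀ Lm 1 (by linarith only [hBp]) hΦ2 hΦD hLm1 one_pos
  refine ⟨Al, al, gl, As, as, gs, hAl, hal, hgl, hAs, has, hgs, fun z hz => ?_⟩
  obtain ⟨n₃, Y₁, hC⟩ := hCs (4 * K * 8)
  obtain ⟨Y₂, hY1, hY8, HX⟩ := dp3_x6 hC hR1 (z := z ^ Cn) (d := 1 / 4) (one_le_pow₀ hz) (by norm_num)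
  obtain ⟨Y, hY⟩ : ∃ Y : ℝ, Y = max Y₂ (64 / c₁) := ⟨_, rfl⟩
  have hYY : Y₂ ≤ Y := hY ▸ le_max_left _ _
  have hYc : 64 ≤ c₁ * Y := by
    have h1 : 64 / c₁ ≤ Y := hY ▸ le_max_right _ _
    rw [div_le_iff₀ hc₁] at h1
    linarith only [h1]
  obtain ⟨Y₀, hY₀, HD⟩ := depI6 (μ := μ) (th := 17 / 16) (z := z) hAl hal hgl hAs has hgs (by norm_num) hz
  obtain ⟨q₀, hq₀⟩ : ∃ q₀ : ℝ, q₀ = 3 * (Y₀ * (17 / 16)) := ⟨_, rfl⟩
  have hq0 : 0 ≤ q₀ := by rw [hq₀]; positivity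
  have hBK0 : (0 : ℝ) < B * K := by positivity
  obtain ⟨A₀, n₁, hA₀, hn₁, HL⟩ := HL (σ / (4 * (B * K))) Y q₀ δs 0 (by positivity) (hY8.trans hYY) hq0 hδ0 hδ1 hδ2
  obtain ⟨n₁', hn₁'⟩ : ∃ n : ℕ, n = max (max (max n₁ nl) (max n₄ ns)) (max (max (8 * n₃) nw) n₅) := ⟨_, rfl⟩
  have l1 : n₁ ≤ n₁' := by rw [hn₁']; exact ((le_max_left _ _).trans (le_max_left _ _)).trans (le_max_left _ _)
  have l2 : nl ≤ n₁' := by rw [hn₁']; exact ((le_max_right _ _).trans (le_max_left _ _)).trans (le_max_left _ _)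
  have l3 : n₄ ≤ n₁' := by rw [hn₁']; exact ((le_max_left _ _).trans (le_max_right _ _)).trans (le_max_left _ _)
  have l4 : ns ≤ n₁' := by rw [hn₁']; exact ((le_max_right _ _).trans (le_max_right _ _)).trans (le_max_left _ _)
  have l5 : 8 * n₃ ≤ n₁' := by rw [hn₁']; exact ((le_max_left _ _).trans (le_max_left _ _)).trans (le_max_right _ _)
  have l6 : nw ≤ n₁' := by rw [hn₁']; exact ((le_max_right _ _).trans (le_max_left _ _)).trans (le_max_right _ _)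
  have l7 : n₅ ≤ n₁' := by rw [hn₁']; exact (le_max_right _ _).trans (le_max_right _ _)
  refine ⟨2 * (B * K) * A₀ + 1, Y₀, n₁', by positivity, hY₀, hn₁.trans l1, ?_⟩
  intro T hT1 hT D
  -- the scales
  have hTn : ∀ v, 1 ≤ v → n₁' ≤ T v := by
    intro v hv
    induction v, hv using Nat.le_induction with
    | base => exact hT1
    | succ v hv ih =>
      rw [hT.TK v hv]
      exact ih.trans (Nat.le_mul_of_pos_left _ (by omega))
  have hT2 : ∀ v, 1 ≤ v → 2 * T v ≤ T (v + 1) := fun v hv => by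
    rw [hT.TK v hv]
    exact Nat.mul_le_mul_right _ hK2
  have hT0 : ∀ v, 1 ≤ v → 1 ≤ T v := fun v hv => (hn₁.trans l1).trans (hTn v hv)
  have hBB : ∀ v, 1 ≤ v → wd μ s (B * T v) ≤ wd μ s (B * T (v + 1)) := fun v hv => by
    refine (HC (B * T v) (B * T (v + 1)) ((l7.trans (hTn v hv)).trans (Nat.le_mul_of_pos_left _ (by omega))) ?_).1
    rw [hT.TK v hv]
    calc K4 * (B * T v) = B * (K4 * T v) := by ring
      _ ≤ B * (K * T v) := Nat.mul_le_mul_left _ (Nat.mul_le_mul_right _ (k4.trans hKK))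
  obtain ⟨Wg, hWg⟩ : ∃ Wg : ℕ → ℤ, Wg = fun v => ⌊wd μ s (T v)⌋ := ⟨_, rfl⟩
  have hWg' : ∀ v, Wg v = ⌊wd μ s (T v)⌋ := fun v => by rw [hWg]
  have hLv := HF (Λ := ℕ × ℤ) (Hl89 B T) (fun a b => by
    have h1 := hTn (max (lb6 a b) 1) (le_max_right _ _)
    exact (l2.trans h1).trans (Nat.le_mul_of_pos_left _ (by omega))) (co89 μ s)
  have hLs := HS (Λ := ℕ × ℤ) (Hl89 B T) (fun a => Wg a.sc) (ceC6 (la89 μ s) (sl μ s))
  have hE2 : Ev2 μ 0 (fun _ _ : Cut (ℕ × ℤ) => Set.univ) := Ev2.univ μ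
  have hE3 : Ev3 μ 0 (fun _ _ _ : Cut (ℕ × ℤ) => Set.univ) := Ev3.univ μ
  obtain ⟨d1, d2, d3⟩ := HD Y₀ le_rfl D hLv hLs hE2 hE3 (by rw [mul_zero]; exact zero_le)
  obtain ⟨wN, hwN⟩ : ∃ wN : Cut (ℕ × ℤ) → Cut (ℕ × ℤ) → Cut (ℕ × ℤ) → ℝ, wN = fun a b _ => wd μ s (2 * T (lb6 a b)) := ⟨_, rfl⟩
  obtain ⟨qN, hqN⟩ : ∃ qN : Cut (ℕ × ℤ) → Cut (ℕ × ℤ) → Cut (ℕ × ℤ) → ℝ,
    qN = fun a b e => wd μ s (2 * T (lb6 b e)) / wd μ s (2 * T (lb6 a b)) := ⟨_, rfl⟩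
  have d4 := HX Y hYY wN qN (fun _ b _ => co89 μ s b)
  rw [ENNReal.ofReal_pow (by linarith only [hz])] at d4
  have d5 := d3 _ Cn d4
  refine ⟨_, _, d1, d5, fun a b η => ?_, d2, ?_⟩
  · refine max_le (max_le ?_ ?_) ((dE6_le _ 1 a b η).trans (le_max_right _ _))
    · exact (dep_le _ D η).trans (le_max_left _ _)
    · exact (dep_le _ D η).trans (le_max_left _ _)
  intro Γ G L M x ω b hΓs hML hLD hG hLN hforce hb1 hbM hhD hN hcone hok htop
  have hY₀0 : 0 ≤ Y₀ := by linarith only [hY₀]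
  obtain ⟨r, hr⟩ : ∃ r : ℕ → ℕ, r = ro94 G T x := ⟨_, rfl⟩
  have hrr : ∀ v, 1 ≤ v → v < L → r v ≤ r (v + 1) ∧ r (v + 1) - r v ≤ T (v + 1) ∧ T (v + 1) ≤ 4 * (r (v + 1) - r v) :=
    fun v h1 h2 => by
      rw [hr]
      exact rows94 hG hT hK2 h1 h2
  have hmono : ∀ d v, 1 ≤ v → v + d ≤ L → r v ≤ r (v + d) := fun d v h1 h2 => by
    rw [hr]
    exact mono94 hG hT hK2 d v h1 h2
  rw [← hr] at hhD hN hLN
  have hrz : ∀ v, ((r v : ℕ) : ℤ) = (uc77 G T x v).row := fun v => by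
    rw [hr]
    exact (row_uc94 v).symm
  have hnR : ∀ v, nR (uc77 G T x v) (uc77 G T x (v + 1)) = r (v + 1) - r v := fun v => by
    rw [hr]
    exact nR_uc94
  have hlb : ∀ v, lb6 (uc77 G T x v) (uc77 G T x (v + 1)) = v + 1 := fun v => lb_uc94 v
  have hHl : ∀ v, Hl89 B T (uc77 G T x v) (uc77 G T x (v + 1)) = B * T (v + 1) := fun v => by
    unfold Hl89
    rw [hlb, max_eq_left (by omega)]
  have hrbL : r b ≤ r L := by
    have := hmono (L - b) b hb1 (by omega)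
    rwa [show b + (L - b) = L by omega] at this
  have hbL : b + (L - b) = L := by omega
  -- the switch
  obtain ⟨Dr, hDr⟩ : ∃ Dr : ℕ, Dr = r L - r b := ⟨_, rfl⟩
  rw [← hDr] at hhD
  obtain ⟨M', hM1, hM2, hM3⟩ : ∃ M' : ℕ, (M' ≤ r b ∨ r L ≤ M') ∧ Γ.M ≤ M' + Dr ∧ M' ≤ Γ.M + Dr := by
    by_cases h1 : Γ.M ≤ r b ∨ r L ≤ Γ.M
    · exact ⟨Γ.M, h1, by omega, by omega⟩
    · push Not at h1
      exact ⟨r b, Or.inl le_rfl, by omega, by omega⟩
  have hSw := cx70 Γ hΓs M' hM2 hM3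
  have s0 := h0.sl_pos.le
  have s1 := h0.sl_lt.le
  have hhD0 : 0 ≤ |Γ.h| * (Dr : ℝ) := by positivity
  have hE6 : Real.exp (6 * (|Γ.h| * Dr)) ≤ 2 := by
    have h1 := Real.log_two_gt_d9
    calc Real.exp (6 * (|Γ.h| * Dr)) ≤ Real.exp (Real.log 2) := Real.exp_le_exp.2 (by linarith only [hhD, h1])
      _ = 2 := Real.exp_log two_pos
  have Sy := sys_model16 (μ := μ) (s := s) (h := Γ.h) (η := ω) (p := pr70 s Γ.h M') (M := M') (N := Γ.N) hSw.pos'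
  -- the top
  have htop' : ∀ y : ℤ, |lt μ s (pt x) r b y| ≤ 4 * wd μ s (B * T (M + 2)) →
      16 * (((r L - r b : ℕ) : ℝ) * PM16 (fun a b' x' z' => nk μ s Γ.h ω (pr70 s Γ.h M') M' a (b' - a) x' z')
        (bh16 μ s Γ.h ω (pr70 s Γ.h M') M' Γ.N) (r b) (r L) y
        (fun z => 4 ^ (L - M - 4) * wd μ s (2 * T L) ≤ |lt μ s (pt x) r L z - lt μ s (pt x) r b y|)) ≤
        bh16 μ s Γ.h ω (pr70 s Γ.h M') M' Γ.N (r b) y := by
    intro y hy
    have h1 := htop b hb1 hbM y (by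
      rw [← hr]
      refine hy.trans ?_
      have h2 := hT.wB (M + 2) (by omega)
      linarith only [h2])
    rw [← hr] at h1
    have h2 := PM_sw70 (η := ω) hSw.symm s0 s1 Γ.N (r b) (r L) y
      (fun z => 4 ^ (L - M - 4) * wd μ s (2 * T L) ≤ |lt μ s (pt x) r L z - lt μ s (pt x) r b y|)
    have h3 := bh_sw70 (η := ω) hSw s0 s1 Γ.N (r b) y
    obtain ⟨X, hX⟩ : ∃ X : ℝ, X = PM16 (fun a b' x' z' => nk μ s Γ.h ω Γ.p Γ.M a (b' - a) x' z')
      (bh16 μ s Γ.h ω Γ.p Γ.M Γ.N) (r b) (r L) y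
      (fun z => 4 ^ (L - M - 4) * wd μ s (2 * T L) ≤ |lt μ s (pt x) r L z - lt μ s (pt x) r b y|) := ⟨_, rfl⟩
    have h1' : 32 * (((r L - r b : ℕ) : ℝ) * X) ≤ bh16 μ s Γ.h ω Γ.p Γ.M Γ.N (r b) y := by
      rw [hX]
      exact h1
    rw [← hX] at h2
    have f0 := bh_nonneg70 (μ := μ) (s := s) (h := Γ.h) (η := ω) (M := M') hSw.pos' Γ.N (r b) y
    have e4 := Real.exp_pos (4 * (|Γ.h| * (Dr : ℝ)))
    have e46 : Real.exp (4 * (|Γ.h| * (Dr : ℝ))) * Real.exp (2 * (|Γ.h| * Dr)) = Real.exp (6 * (|Γ.h| * Dr)) := by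
      rw [← Real.exp_add]
      congr 1
      ring
    have hrw0 : (0 : ℝ) ≤ ((r L - r b : ℕ) : ℝ) := Nat.cast_nonneg _
    calc _ ≤ 16 * (((r L - r b : ℕ) : ℝ) * (Real.exp (4 * (|Γ.h| * Dr)) * X)) :=
          mul_le_mul_of_nonneg_left (mul_le_mul_of_nonneg_left h2 hrw0) (by norm_num)
      _ = Real.exp (4 * (|Γ.h| * Dr)) * (32 * (((r L - r b : ℕ) : ℝ) * X)) / 2 := by ring
      _ ≤ Real.exp (4 * (|Γ.h| * Dr)) * (Real.exp (2 * (|Γ.h| * Dr)) * bh16 μ s Γ.h ω (pr70 s Γ.h M') M' Γ.N (r b) y) / 2 :=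
          div_le_div_of_nonneg_right (mul_le_mul_of_nonneg_left (h1'.trans h3) e4.le) two_pos.le
      _ = Real.exp (6 * (|Γ.h| * Dr)) / 2 * bh16 μ s Γ.h ω (pr70 s Γ.h M') M' Γ.N (r b) y := by
          rw [← e46]
          ring
      _ ≤ 1 * bh16 μ s Γ.h ω (pr70 s Γ.h M') M' Γ.N (r b) y := mul_le_mul_of_nonneg_right (by linarith only [hE6]) f0
      _ = _ := one_mul _
  -- the nodes have the right numbers
  have hnd : ∀ k, 1 ≤ k → k < L - b → NdOk μ s θn (4 * K * 8) n₃ (r (b + k) - r (b + (k - 1))) (r (b + (k + 1)) - r (b + k))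
      (wd μ s (2 * T (b + (k - 1) + 1))) (wd μ s (2 * T (b + k + 1)) / wd μ s (2 * T (b + (k - 1) + 1))) := by
    intro k hk1 hk2
    exact HN hC K le_rfl (r := r) (T := fun v => 2 * T (v + 1)) (u := b) (m := L - b) (by omega)
      (fun i hi => by
        have a1 := hrr (b + i) (by omega) (by omega)
        rw [show b + (i + 1) = b + i + 1 by omega]
        refine ⟨a1.1, ?_⟩
        show r (b + i + 1) ≤ r (b + i) + 2 * T (b + i + 1)
        omega)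
      (fun i hi => by
        have a1 := hrr (b + i) (by omega) (by omega)
        rw [show b + (i + 1) = b + i + 1 by omega]
        show 2 * T (b + i + 1) ≤ 8 * (r (b + i + 1) - r (b + i))
        omega)
      (fun i hi => by
        have a1 := hTn (b + i + 1) (by omega)
        show n₄ ≤ 2 * T (b + i + 1) ∧ 8 * n₃ ≤ 2 * T (b + i + 1)
        omega)
      (fun i hi => by
        show K3 * (2 * T (b + i + 1)) ≤ 2 * T (b + (i + 1) + 1) ∧ 2 * T (b + (i + 1) + 1) ≤ K * (2 * T (b + i + 1))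
        rw [show b + (i + 1) + 1 = b + i + 1 + 1 by omega, hT.TK (b + i + 1) (by omega)]
        have a1 : K3 * T (b + i + 1) ≤ K * T (b + i + 1) := Nat.mul_le_mul_right _ (k3.trans hKK)
        constructor
        · calc K3 * (2 * T (b + i + 1)) = 2 * (K3 * T (b + i + 1)) := by ring
            _ ≤ 2 * (K * T (b + i + 1)) := Nat.mul_le_mul_left _ a1
        · exact le_of_eq (by ring))
      k hk1 hk2
  -- the steep levels
  have hst : ∀ v, b ≤ v → v < L → ∃ β' : ℝ, |β' - (((pt x).2 : ℝ) + sl μ s * ((r v : ℝ) - ((pt x).1 : ℝ)))| ≤ wd μ s (B * T (v + 1)) ∧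
      ω ∈ DD84.StE84 μ s (2 * Bp) Φ₀ δs (B * T (v + 1)) (r (v + 1) - r v) (Wg v) (Wg (v + 1)) (r v : ℤ) β'
        (3 * (Y₀ * (17 / 16) ^ (v + 1 - b))) := by
    intro v hv1 hv2
    obtain ⟨P', Q', hZ⟩ := split_uc77 (G := G) (T := T) (x := x) (L := L) (v := v) hv2
    have h1 := (ok_lay6 hLv hLs hY₀0 (by norm_num) hok hZ (l := v + 1 - b) (by rw [hlb]; omega) (by rw [hlb]; omega) (by omega)).2
    have hw := h0.wd_pos (n := B * T (v + 1)) ((hT0 (v + 1) (by omega)).trans (Nat.le_mul_of_pos_left _ (by omega)))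
    have a1 := hrr v (by omega) hv2
    have w0 := hT.w3 v (by omega)
    have w1 := hT.w3 (v + 1) (by omega)
    have f0 : wd μ s (T v) ≤ 2 * (Wg v : ℝ) := by
      rw [hWg']
      have := Int.lt_floor_add_one (wd μ s (T v))
      linarith only [this, w0]
    have f1 : wd μ s (T (v + 1)) ≤ 2 * (Wg (v + 1) : ℝ) := by
      rw [hWg']
      have := Int.lt_floor_add_one (wd μ s (T (v + 1)))
      linarith only [this, w1]
    have g0 : (0 : ℤ) < Wg v := by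
      have : (0 : ℝ) < (Wg v : ℝ) := by linarith only [f0, w0]
      exact_mod_cast this
    have g1 : (0 : ℤ) < Wg (v + 1) := by
      have : (0 : ℝ) < (Wg (v + 1) : ℝ) := by linarith only [f1, w1]
      exact_mod_cast this
    have u1 := hT.wB (v + 1) (by omega)
    have u2 : wd μ s (T (v + 1)) ≤ Bw * wd μ s (T v) := by
      refine HW (T v) (T (v + 1)) (l6.trans (hTn v (by omega))) ?_ (le_of_eq (hT.TK v (by omega)))
      have := hT2 v (by omega)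
      omega
    have hC0 : 0 ≤ C₀ := by linarith only [hC₀]
    have hst1 : StOk μ s θ Lm ns (Hl89 B T (uc77 G T x v) (uc77 G T x (v + 1))) (nR (uc77 G T x v) (uc77 G T x (v + 1)))
        (Wg (uc77 G T x v).sc) (Wg (uc77 G T x (v + 1)).sc) := by
      rw [hHl, hnR v]
      refine ⟨?_, ?_, ?_, g0, g1, ?_, ?_⟩
      · exact (l4.trans (hTn (v + 1) (by omega))).trans (Nat.le_mul_of_pos_left _ (by omega))
      · have a2 : (T (v + 1) : ℝ) ≤ 4 * ((r (v + 1) - r v : ℕ) : ℝ) := by exact_mod_cast a1.2.2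
        push_cast at a2 ⊢
        calc θ * ((B : ℝ) * T (v + 1)) = θ * B * T (v + 1) := by ring
          _ = T (v + 1) / 4 := by
            rw [hθB]
            ring
          _ ≤ _ := by linarith only [a2]
      · exact a1.2.1.trans (Nat.le_mul_of_pos_left _ (by omega))
      · rw [hLm]
        show wd μ s (B * T (v + 1)) ≤ 2 * (C₀ * Bw) * (Wg v : ℝ)
        have b1 := mul_le_mul_of_nonneg_left u2 hC0
        have b2 := mul_le_mul_of_nonneg_left f0 (show 0 ≤ C₀ * Bw by positivity)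
        linarith only [u1, b1, b2, show C₀ * Bw * (2 * (Wg v : ℝ)) = 2 * (C₀ * Bw) * (Wg v : ℝ) by ring,
          show C₀ * (Bw * wd μ s (T v)) = C₀ * Bw * wd μ s (T v) by ring]
      · rw [hLm]
        show wd μ s (B * T (v + 1)) ≤ 2 * (C₀ * Bw) * (Wg (v + 1) : ℝ)
        have b1 := mul_le_mul_of_nonneg_left f1 hC0
        have b2 : C₀ * (2 * (Wg (v + 1) : ℝ)) ≤ Bw * (C₀ * (2 * (Wg (v + 1) : ℝ))) :=
          le_mul_of_one_le_left (by positivity) (by linarith only [hBw])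
        linarith only [u1, b1, b2, show Bw * (C₀ * (2 * (Wg (v + 1) : ℝ))) = 2 * (C₀ * Bw) * (Wg (v + 1) : ℝ) by ring]
    have hcol := (colU94 hG (v := v) (by omega) (by omega)).1
    have hbb := hBB v (by omega)
    have hb : |(((pt x).2 : ℝ) + sl μ s * ((r v : ℝ) - ((pt x).1 : ℝ))) -
        ceC6 (la89 μ s) (sl μ s) (uc77 G T x v) (uc77 G T x (v + 1))| ≤ 1 ^ (v + 1 - b) *
          wd μ s (Hl89 B T (uc77 G T x v) (uc77 G T x (v + 1))) := by
      rw [hHl, one_pow, one_mul]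
      have e2 : (r v : ℝ) = (((uc77 G T x v).row : ℤ) : ℝ) := by
        rw [← hrz v]
        push_cast
        rfl
      have e1 : (((pt x).2 : ℝ) + sl μ s * ((r v : ℝ) - ((pt x).1 : ℝ))) -
          ceC6 (la89 μ s) (sl μ s) (uc77 G T x v) (uc77 G T x (v + 1)) =
          -(la89 μ s (uc77 G T x v) - ((x.2 : ℝ) - sl μ s * (x.1 : ℝ))) := by
        unfold ceC6
        rw [e2]
        show ((x.2 : ℤ) : ℝ) + sl μ s * ((((uc77 G T x v).row : ℤ) : ℝ) - (((x.1 : ℕ) : ℤ) : ℝ)) - _ = _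
        push_cast
        ring
      rw [e1, abs_neg]
      linarith only [hcol, hbb]
    obtain ⟨β', b1, b2⟩ := stF_line (R := 1) (Th := 1) (l := v + 1 - b) (by linarith only [hΦ2])
      (by rw [hHl]; exact hw) le_rfl zero_le_one le_rfl (by rw [Real.one_rpow]) (by positivity) h1 hst1 hb
    rw [hHl, hnR v] at b2
    rw [hHl] at b1
    rw [one_pow, mul_one, ← hrz v] at b2
    exact ⟨β', b1, b2⟩
  choose! β hβ using hst
  have key := HL hC le_rfl (hY1.trans hYY) hYc (R := R) (ρ := 1) le_rfl (by rw [one_pow]; exact hR1) hRm Sy hSw.q1 hSw.q2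
    (κ := pt x) (r := r) (T := fun v => B * T (v + 1)) (Tn := fun v => 2 * T (v + 1)) (N := fun v => r (v + 1) - r v)
    (q := fun v => 3 * (Y₀ * (17 / 16) ^ (v + 1 - b))) (bs := fun v => ((r v : ℤ), co89 μ s (uc77 G T x v)))
    (w := Wg) (be := β) (f := b) (m := L - b) (mt := M - b) (Θ := 17 / 16) (B₁ := 2 * Bp)
    (xc := fun k => co89 μ s (uc77 G T x (b + k))) (by norm_num) (by norm_num)
    (le_trans (by norm_num) hΦ2) (by omega) ?_ ?_ le_rfl (by rw [hbL]; exact hLN) (by rw [hbL]; exact hM1) (by rw [hbL]; exact hN)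
    ?_ ?_ ?_ ?_ ?_ ?_ ?_ ?_ ?_ ?_
  · -- conclusion
    have hEE : EE μ s (B * T (b + 1)) ≤ 2 * (B * K) * EE μ s (T b) := by
      have h1 := Pool.Agent.W_7d29a1_HS.EE_le_mul h0 (n' := T b) (n := B * T (b + 1)) (hT0 b hb1) (by
        have := hT2 b hb1
        exact (by omega : T b ≤ T (b + 1)).trans (Nat.le_mul_of_pos_left _ (by omega)))
      have h2 : (0 : ℝ) < T b := by exact_mod_cast hT0 b hb1
      rw [hT.TK b hb1] at h1 ⊢
      push_cast at h1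
      have h3 : EE μ s (B * (K * T b)) * T b ≤ (2 * (B * K) * EE μ s (T b)) * T b := by
        refine h1.trans (le_of_eq ?_)
        ring
      exact le_of_mul_le_mul_right h3 h2
    have hww : ∀ n, b + n ≤ M → wd μ s (T (b + n)) ≤ 2 * wd μ s (B * T (b + n + 1)) := fun n hn => by
      refine U16.wd_le_two h0 (hT0 (b + n) (by omega)) ?_
      have := hT2 (b + n) (by omega)
      exact (by omega : T (b + n) ≤ T (b + n + 1)).trans (Nat.le_mul_of_pos_left _ (by omega))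
    have hfin : Lr31 μ s (pt x) T M 2 (2 * (B * K) * A₀) (Φ₀ ^ pw) σ (bh16 μ s Γ.h ω (pr70 s Γ.h M') M' Γ.N (r b)) (r b) b := by
      intro n hn y y₀ hy0 hy
      have h1 := key n (by omega) y y₀
        (hy0.trans (by
          have := hww n hn
          show 2 * wd μ s (T (b + n)) ≤ 4 * wd μ s (B * T (b + n + 1))
          linarith only [this]))
        (hy.trans (by
          have := hww (M - b) (by omega)
          rw [show b + (M - b) = M by omega] at this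
          show 2 * wd μ s (T M) ≤ 4 * wd μ s (B * T (b + (M - b) + 1))
          rw [show b + (M - b) = M by omega]
          linarith only [this]))
      refine h1.trans (mul_le_mul_of_nonneg_right (Real.exp_le_exp.2 (add_le_add ?_ ?_)) (bh_nonneg70 hSw.pos' _ _ _))
      · show A₀ * (Φ₀ ^ (pw * n) * EE μ s (B * T (b + 1))) ≤ 2 * (B * K) * A₀ * ((Φ₀ ^ pw) ^ n * EE μ s (T b))
        rw [pow_mul]
        have h2 := mul_le_mul_of_nonneg_left hEE (show 0 ≤ A₀ * (Φ₀ ^ pw) ^ n by positivity)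
        calc _ = A₀ * (Φ₀ ^ pw) ^ n * EE μ s (B * T (b + 1)) := by ring
          _ ≤ _ := h2
          _ = _ := by ring
      · show σ / (4 * (B * K)) * (EE μ s (B * T (b + 1)) / wd μ s (B * T (b + 1))) * |(y : ℝ) - y₀| ≤
          σ * (EE μ s (T b) / wd μ s (T b)) * |(y : ℝ) - y₀|
        refine mul_le_mul_of_nonneg_right ?_ (abs_nonneg _)
        have w0 := h0.wd_pos (n := T b) (hT0 b hb1)
        have w1 := h0.wd_pos (n := B * T (b + 1)) ((hT0 (b + 1) (by omega)).trans (Nat.le_mul_of_pos_left _ (by omega)))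
        have w2 := hww 0 (by omega)
        rw [Nat.add_zero] at w2
        have h2 : EE μ s (B * T (b + 1)) / wd μ s (B * T (b + 1)) ≤ 4 * (B * K) * (EE μ s (T b) / wd μ s (T b)) := by
          rw [div_le_iff₀ w1]
          have h3 : EE μ s (T b) ≤ 2 * (EE μ s (T b) / wd μ s (T b)) * wd μ s (B * T (b + 1)) := by
            have h4 : EE μ s (T b) = EE μ s (T b) / wd μ s (T b) * wd μ s (T b) := by field_simp
            have h5 := mul_le_mul_of_nonneg_left w2 (show 0 ≤ EE μ s (T b) / wd μ s (T b) from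
              div_nonneg (EE_pos (μ := μ) (s := s) (T b)).le w0.le)
            linarith only [h4, h5]
          have h4 := mul_le_mul_of_nonneg_left h3 (show 0 ≤ 2 * ((B : ℝ) * K) by positivity)
          linarith only [hEE, h4]
        calc _ ≤ σ / (4 * (B * K)) * (4 * (B * K) * (EE μ s (T b) / wd μ s (T b))) := mul_le_mul_of_nonneg_left h2 (by positivity)
          _ = _ := by field_simp
    have h2 := lr_fut70 (η := ω) hSw s0 s1 (one_le_pow₀ hΦ1) (by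
      have := one_le_EE (μ := μ) (s := s) (T b)
      linarith only [this, hhD, hhD0]) hfin
    rw [hr] at h2
    exact h2
  · -- the layers
    refine ⟨fun v _ _ => by positivity, fun v h1 h2 => ?_, fun v h1 h2 => ?_, fun v h1 h2 => (hrr v (by omega) (by omega)).1,
      fun v h1 h2 => le_rfl, fun v h1 h2 => ?_, fun v h1 h2 => ?_, fun v h1 h2 => ?_, fun v h1 h2 => hforce (v + 1) (by omega) (by omega),
      fun v h1 h2 => ?_⟩
    · exact (l1.trans (hTn (v + 1) (by omega))).trans (Nat.le_mul_of_pos_left _ (by omega))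
    · exact (hrr v (by omega) (by omega)).2.1.trans (Nat.le_mul_of_pos_left _ (by omega))
    · have := (hrr v (by omega) (by omega)).1
      show ((r (v + 1) : ℕ) : ℤ) ≤ ((r v : ℕ) : ℤ) + ((r (v + 1) - r v : ℕ) : ℤ)
      omega
    · have h3 := (colU94 hG (v := v) (by omega) (by omega)).2
      rw [← hr] at h3
      exact h3.trans (hBB v (by omega))
    · obtain ⟨P', Q', hZ⟩ := split_uc77 (G := G) (T := T) (x := x) (L := L) (v := v) (by omega)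
      have h3 := (ok_lay6 hLv hLs hY₀0 (by norm_num) hok hZ (l := v + 1 - b) (by rw [hlb]; omega) (by rw [hlb]; omega) (by omega)).1
      unfold lvS at h3
      have a1 := hrr v (by omega) (by omega)
      rw [hg6_eq (by
        rw [hHl, ← hrz v, ← hrz (v + 1)]
        have a2 : r (v + 1) - r v ≤ B * T (v + 1) := a1.2.1.trans (Nat.le_mul_of_pos_left _ (by omega))
        push_cast
        have a3 : ((r (v + 1) : ℕ) : ℤ) ≤ (r v : ℤ) + ((B * T (v + 1) : ℕ) : ℤ) := by omega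
        push_cast at a3
        exact a3), hHl, hnR v, ← hrz v] at h3
      refine Far16_mono ?_ _ _ _ _ h3
      show Y₀ * (17 / 16) ^ (v + 1 - b) ≤ 3 * (Y₀ * (17 / 16) ^ (v + 1 - b))
      have : 0 ≤ Y₀ * (17 / 16 : ℝ) ^ (v + 1 - b) := by positivity
      linarith only [this]
    · have a1 := (hrr v (by omega) (by omega)).2.2
      have a2 : (T (v + 1) : ℝ) ≤ 4 * ((r (v + 1) - r v : ℕ) : ℝ) := by exact_mod_cast a1
      show θ * ((B * T (v + 1) : ℕ) : ℝ) ≤ ((r (v + 1) - r v : ℕ) : ℝ)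
      push_cast at a2 ⊢
      calc θ * ((B : ℝ) * T (v + 1)) = θ * B * T (v + 1) := by ring
        _ = T (v + 1) / 4 := by
          rw [hθB]
          ring
        _ ≤ _ := by linarith only [a2]
  · -- the steep levels
    refine ⟨fun v h1 h2 => ?_, fun v h1 h2 => ?_, fun v h1 h2 => (hβ v (by omega) (by omega)).1, fun v h1 h2 => (hβ v (by omega) (by omega)).2⟩
    · have w0 := hT.w3 v (by omega)
      have f0 := Int.lt_floor_add_one (wd μ s (T v))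
      rw [← hWg'] at f0
      have : (0 : ℝ) < (Wg v : ℝ) := by linarith only [f0, w0]
      exact_mod_cast this
    · have f0 := Int.floor_le (wd μ s (T (v + 1)))
      rw [← hWg'] at f0
      exact f0.trans (hT.wB' (v + 1) (by omega))
  · -- the heights
    intro v h1 h2
    show K₂' * (B * T (v + 1)) ≤ B * T (v + 1 + 1) ∧ B * T (v + 1 + 1) ≤ K * (B * T (v + 1))
    rw [hT.TK (v + 1) (by omega)]
    have a1 : K₂' * T (v + 1) ≤ K * T (v + 1) := Nat.mul_le_mul_right _ (k2.trans hKK)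
    constructor
    · calc K₂' * (B * T (v + 1)) = B * (K₂' * T (v + 1)) := by ring
        _ ≤ B * (K * T (v + 1)) := Nat.mul_le_mul_left _ a1
    · exact le_of_eq (by ring)
  · intro v h1 h2
    show K₂' * (2 * T (v + 1)) ≤ 2 * T (v + 1 + 1) ∧ 2 * T (v + 1 + 1) ≤ K * (2 * T (v + 1))
    rw [hT.TK (v + 1) (by omega)]
    have a1 : K₂' * T (v + 1) ≤ K * T (v + 1) := Nat.mul_le_mul_right _ (k2.trans hKK)
    constructor
    · calc K₂' * (2 * T (v + 1)) = 2 * (K₂' * T (v + 1)) := by ring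
        _ ≤ 2 * (K * T (v + 1)) := Nat.mul_le_mul_left _ a1
    · exact le_of_eq (by ring)
  · intro v h1 h2
    show 2 * T (v + 1) ≤ B * T (v + 1) ∧ B * T (v + 1) ≤ B * (2 * T (v + 1))
    exact ⟨Nat.mul_le_mul_right _ hB, Nat.mul_le_mul_left _ (by omega)⟩
  · intro v h1 h2
    have a1 := hTn (v + 1) (by omega)
    show n₁ ≤ 2 * T (v + 1) ∧ 8 * n₃ ≤ 2 * T (v + 1)
    omega
  · intro v h1 h2
    have a1 := hrr v (by omega) (by omega)
    show r (v + 1) ≤ r v + 2 * T (v + 1) ∧ 2 * T (v + 1) ≤ 8 * (r (v + 1) - r v)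
    omega
  · show n₁ * K₂' ^ ((M - b + 1) / Cn) ≤ B * T (b + 1)
    calc n₁ * K₂' ^ ((M - b + 1) / Cn) ≤ n₁' * K₂ ^ ((M - b + 1) / Cn) := Nat.mul_le_mul l1 (Nat.pow_le_pow_left k2 _)
      _ ≤ T (b + 1) := hcone
      _ ≤ B * T (b + 1) := Nat.le_mul_of_pos_left _ (by omega)
  · intro v h1 h2
    show 3 * (Y₀ * (17 / 16) ^ (v + 1 - b)) ≤ q₀ * (17 / 16) ^ (v - b)
    rw [hq₀, show v + 1 - b = (v - b) + 1 by omega, pow_succ]
    exact le_of_eq (by ring)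
  · intro k hk1 hk2
    obtain ⟨j, rfl⟩ : ∃ j, k = j + 1 := ⟨k - 1, by omega⟩
    obtain ⟨P', Q', hZ⟩ := split3_uc77 (G := G) (T := T) (x := x) (L := L) (v := b + j) (by omega)
    have h1 := (ok_nod6 hLv hY₀0 (by norm_num) hok hZ (fun h => by
      obtain ⟨i, hi, -⟩ := h
      exact absurd hi (Finset.notMem_empty i)) (l := j + 1) (by show b ≤ b + j + 1 + (j + 1); omega) (by show b + j + 1 ≤ b + (j + 1); omega)
      (by omega)).1
    have h2 := hnd (j + 1) (by omega) hk2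
    have e1 := hnR (b + j)
    have e2 := hnR (b + j + 1)
    have e3 := hlb (b + j)
    have e4 := hlb (b + j + 1)
    simp only [Nat.add_sub_cancel] at h2 ⊢
    have hnd' : NdOk μ s θn (4 * K * 8) n₃ (nR (uc77 G T x (b + j)) (uc77 G T x (b + j + 1)))
        (nR (uc77 G T x (b + j + 1)) (uc77 G T x (b + j + 2)))
        (wN (uc77 G T x (b + j)) (uc77 G T x (b + j + 1)) (uc77 G T x (b + j + 2)))
        (qN (uc77 G T x (b + j)) (uc77 G T x (b + j + 1)) (uc77 G T x (b + j + 2))) := by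
      rw [hwN, hqN]
      show NdOk μ s θn (4 * K * 8) n₃ (nR (uc77 G T x (b + j)) (uc77 G T x (b + j + 1)))
        (nR (uc77 G T x (b + j + 1)) (uc77 G T x (b + j + 1 + 1)))
        (wd μ s (2 * T (lb6 (uc77 G T x (b + j)) (uc77 G T x (b + j + 1)))))
        (wd μ s (2 * T (lb6 (uc77 G T x (b + j + 1)) (uc77 G T x (b + j + 1 + 1)))) /
          wd μ s (2 * T (lb6 (uc77 G T x (b + j)) (uc77 G T x (b + j + 1)))))
      rw [e1, e2, e3, e4]
      exact h2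
    rw [dpX6_eq ω hnd'] at h1
    rw [hwN, hqN] at h1
    have h1' : Cn * nu μ s c₀ δ₁ Y (wd μ s (2 * T (lb6 (uc77 G T x (b + j)) (uc77 G T x (b + j + 1)))))
        (wd μ s (2 * T (lb6 (uc77 G T x (b + j + 1)) (uc77 G T x (b + j + 1 + 1)))) /
          wd μ s (2 * T (lb6 (uc77 G T x (b + j)) (uc77 G T x (b + j + 1))))) R (uc77 G T x (b + j)).row
        (nR (uc77 G T x (b + j)) (uc77 G T x (b + j + 1))) (nR (uc77 G T x (b + j + 1)) (uc77 G T x (b + j + 1 + 1)))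
        (co89 μ s (uc77 G T x (b + j + 1))) ω ≤ j + 1 := h1
    rw [e1, e2, e3, e4, ← hrz (b + j)] at h1'
    rw [Nat.zero_add]
    exact h1'
  · intro k hk1 hk2
    have h1 := (colU94 hG (v := b + k) (by omega) (by omega)).2
    rw [← hr] at h1
    have h2 := hT.wB (b + k) (by omega)
    have h3 := hT.w2 (b + k) (by omega)
    show |lat16 μ s (pt x) ((r (b + k) : ℤ), co89 μ s (uc77 G T x (b + k)))| ≤ C₀ ^ 2 * ((1 : ℕ) : ℝ) ^ (0 + k) * wd μ s (2 * T (b + (k - 1) + 1))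
    rw [show b + (k - 1) + 1 = b + k by omega, Nat.cast_one, one_pow, mul_one]
    have h4 := mul_le_mul_of_nonneg_left h3 (show 0 ≤ C₀ by linarith only [hC₀])
    linarith only [h1, h2, h4, show C₀ * (C₀ * wd μ s (2 * T (b + k))) = C₀ ^ 2 * wd μ s (2 * T (b + k)) by ring]
  · intro y hy
    have h1 := htop' y (by
      refine hy.trans (le_of_eq ?_)
      show 4 * wd μ s (B * T (b + (M - b + 1) + 1)) = _
      rw [show b + (M - b + 1) + 1 = M + 2 by omega])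
    rw [hbL]
    refine le_trans (mul_le_mul_of_nonneg_left (mul_le_mul_of_nonneg_left ?_ (Nat.cast_nonneg _)) (by norm_num)) h1
    refine PM16_mono Sy hLN y fun z _ _ hz => le_trans ?_ hz
    show 4 ^ (L - M - 4) * wd μ s (2 * T L) ≤
      4 ^ (L - b - (M - b + 4)) * (2 ^ ((M - b + 1) / Cn) * wd μ s (2 * T (b + (L - b - 1) + 1)))
    rw [show L - b - (M - b + 4) = L - M - 4 by omega, show b + (L - b - 1) + 1 = L by omega]
    have hwL := h0.wd_pos (n := 2 * T L) (by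
      have := hT0 L (by omega)
      omega)
    exact mul_le_mul_of_nonneg_left (le_mul_of_one_le_left hwL.le (one_le_pow₀ (by norm_num))) (by positivity)

end

end Pool.Agent.W_7d29a1_C1.TmG94
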