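import Pool.Agent.W_7d29a1_C1.DfG94
import Pool.Agent.W_7d29a1_C1.CrI84
import Pool.Agent.W_7d29a1_C1.Geo58

/-!
MP_7d29a1_pr, [C1] FIELD nu, THE FUTURE: **THE FAR MASS OF THE TOP EDGE IS SMALL**, from helper84's crude top with two sizes (`crd84f`, clause `ca`).
(helper17)

`TpFw17` : the Prop with the order of the constants (the form of helper89's `TpPa89`); `tpf17 : In → hE9 → LB84 → UB84 → FUT84 → TpFw17`.
The box has `N = 4 Na ^ 3` rows, the force lives on at most `Na` of them; the heights of the crude top start at `T = ⌈N ^ τ⌉`, a place of the rows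
`z_b + T_b`, `b ≤ m8 / 2`, has its future through the row `z_L + T_L` within `N ^ ε` widths, `N ^ ε ≤ 4 ^ (L - M - 4) / 2`.
-/

set_option autoImplicit false

namespace Pool.Agent.W_7d29a1_C1.TpF17

open MeasureTheory ProbabilityTheory Filter Topology Finset
open Pool.Agent.W_7d29a1_F Pool.Agent.W_7d29a1_h4g Pool.Agent.W_7d29a1_H Pool.Agent.W_7d29a1_HS
open Pool.Agent.W_7d29a1_C1.T10 (Gd pt Tg Hg GW Tg_pos Tg_mono Hg_mono Tg_Hg Tg_lt)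
open Pool.Agent.W_7d29a1_C1.H60 (Cx Adm)
open Pool.Agent.W_7d29a1_C1.H8 (S8 m8 h8 GridN8 gridN8)
open Pool.Agent.W_7d29a1_C1.T98 (w_zero98)
open Pool.Agent.W_7d29a1_C1.U16 (lat16 PM16 bh16 Sys16 PM16_mono sys_model16)
open Pool.Agent.W_7d29a1_C1.FarW89 (nk)
open Pool.Agent.W_7d29a1_C1.Win84 (LB84 UB84 FUT84 ev84)
open Pool.Agent.W_7d29a1_C1.Cr84 (CrS84 crd84f)
open Pool.Agent.W_7d29a1_C1.TmG94 (ro94 TopF94)

noncomputable section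

variable {μ : Measure ℝ} {s : ℝ}

/-- **THE TOP OF THE FUTURE, WITH THE ORDER OF THE CONSTANTS** (helper89's `TpPa89` for the backward masses). -/
def TpFw17 (μ : Measure ℝ) [IsProbabilityMeasure μ] (s : ℝ) : Prop :=
  ∀ (K B : ℕ) (R C₀ : ℝ), 2 ≤ K → 2 ≤ B → 1 ≤ C₀ → 1 ≤ R → ∀ e : ℝ, 0 < e → e ≤ 1 / 32 → ∀ e₀ : ℝ, 0 < e₀ → e₀ ≤ e → ∀ (x : ℕ) (Kt : ℝ), 0 < Kt →
    ∃ s₁ e' : ℝ, 0 < s₁ ∧ 0 < e' ∧ ∀ c₂ : ℝ, 0 < c₂ → c₂ ≤ s₁ → ∀ δ' : ℝ, 0 < δ' → δ' ≤ c₂ / 16 → ∃ κ₀ : ℝ, 0 < κ₀ ∧ ∀ κ : ℝ, 0 < κ → κ ≤ κ₀ →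
      ∃ Q₀ : ℕ, 1 ≤ Q₀ ∧ ∀ Q : ℕ, Q₀ ∣ Q → 1 ≤ Q → ∀ᶠ n : ℕ in atTop, ∀ G : Gd, GW μ s R B C₀ (h8 Q e₀ n) K (m8 K e n + x) G →
        ∀ Γ : Cx, Adm μ s c₂ δ' κ n Γ → ∃ bad : Set Env, law μ bad ≤ ENNReal.ofReal ((n : ℝ) ^ (-(3 : ℝ))) ∧
          ∀ ω ∉ bad, ∀ c ∈ S8 e K n G Γ, Real.exp (-((n : ℝ) ^ e')) ≤ Γ.w c ω →
            TopF94 μ s Γ G (Tg (h8 Q e₀ n) K) (m8 K e n / 2) (m8 K e n + x) Kt c ω

/-- Numbers: the powers of `2` and `K` at the top. -/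
theorem pw17 {e : ℝ} (K : ℕ) (hK : 2 ≤ K) {n m : ℕ} (hn : 1 ≤ n) (hm : e / (8 * Real.log K) * Real.log n ≤ m) :
    (n : ℝ) ^ (e * Real.log 2 / (8 * Real.log K)) ≤ 2 ^ m ∧ (n : ℝ) ^ (e / 8) ≤ (K : ℝ) ^ m := by
  have hlK : 0 < Real.log K := Real.log_pos (by exact_mod_cast (by omega : 1 < K))
  have hl2 : 0 < Real.log 2 := Real.log_pos (by norm_num)
  have hK0 : (0 : ℝ) < K := by exact_mod_cast (by omega : 0 < K)
  have hn0 : (0 : ℝ) < n := by exact_mod_cast hn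
  constructor
  · rw [Real.rpow_def_of_pos hn0, ← Real.rpow_natCast, Real.rpow_def_of_pos (by norm_num : (0 : ℝ) < 2)]
    refine Real.exp_le_exp.2 ?_
    have h1 := mul_le_mul_of_nonneg_left hm hl2.le
    refine le_trans (le_of_eq ?_) h1
    ring
  · rw [Real.rpow_def_of_pos hn0, ← Real.rpow_natCast, Real.rpow_def_of_pos hK0]
    refine Real.exp_le_exp.2 ?_
    have h1 := mul_le_mul_of_nonneg_left hm hlK.le
    refine le_trans (le_of_eq ?_) h1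
    field_simp

/-- The sizes of the box of a context. -/
theorem box17 {c₂ δ κ : ℝ} {n : ℕ} {Γ : Cx} (hn : 4 ≤ n) (hc₂ : c₂ ≤ 1) (hA : Adm μ s c₂ δ κ n Γ) : ∃ Na N : ℕ, n ≤ Na ∧ Na ≤ N ∧ Γ.M ≤ Na ∧
    Γ.M + 1 ≤ Γ.N ∧ Γ.N ≤ N ∧ (N : ℝ) ≤ (n : ℝ) ^ (7 : ℝ) ∧ |Γ.h| * EE μ s Na ≤ (Na : ℝ) ^ κ := by
  obtain ⟨Na, L, hNa, hNan, hL3, hL2, hM, hΓN, -, hh⟩ := hA.hor
  have hn1 : (4 : ℝ) ≤ n := by exact_mod_cast hn
  have hn0 : (0 : ℝ) < n := by linarith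
  have hNa1 : 1 ≤ Na := by omega
  have hNa3 : Na ≤ Na ^ 3 := Nat.le_self_pow (by norm_num) Na
  have h1' : 1 ≤ Na ^ 3 := Nat.one_le_pow _ _ hNa1
  refine ⟨Na, 4 * Na ^ 3, hNa, by omega, hM, by omega, by omega, ?_, hh⟩
  have h1 : (Na : ℝ) ≤ (n : ℝ) ^ (2 : ℝ) := hNan.trans (Real.rpow_le_rpow_of_exponent_le (by linarith) (by linarith only [hc₂]))
  have h2 : (Na : ℝ) ^ 3 ≤ ((n : ℝ) ^ (2 : ℝ)) ^ 3 := pow_le_pow_left₀ (Nat.cast_nonneg _) h1 3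
  have h4 : ((n : ℝ) ^ (2 : ℝ)) ^ 3 = (n : ℝ) ^ (6 : ℝ) := by
    rw [← Real.rpow_natCast, ← Real.rpow_mul hn0.le]
    norm_num
  have h5 : (n : ℝ) ^ (7 : ℝ) = n * (n : ℝ) ^ (6 : ℝ) := by
    rw [show (7 : ℝ) = 1 + 6 by norm_num, Real.rpow_add hn0, Real.rpow_one]
  push_cast
  rw [h5]
  rw [h4] at h2
  have h6 : 0 ≤ (n : ℝ) ^ (6 : ℝ) := by positivity
  have h7 := mul_le_mul_of_nonneg_right hn1 h6
  linarith only [h2, h7]

/-- The row of the lower end of the tower and the number of rows to the top. -/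
theorem rows17 {R : ℝ} {B K L b h₀ : ℕ} {C₀ : ℝ} {G : Gd} (g : GW μ s R B C₀ h₀ K L G) (hb1 : 1 ≤ b) (hbL : b + 2 ≤ L) (c : ℕ × ℤ) :
    c.1 < ro94 G (Tg h₀ K) c b ∧ ro94 G (Tg h₀ K) c b ≤ c.1 + Tg h₀ K b ∧ ∃ m : ℕ, ro94 G (Tg h₀ K) c L = ro94 G (Tg h₀ K) c b + m ∧
      Tg h₀ K L ≤ 4 * m ∧ m ≤ Tg h₀ K L := by
  have hK := g.K2
  have e1 := Tg_Hg (h₀ := h₀) (K := K) hb1
  have e2 := Tg_Hg (h₀ := h₀) (K := K) (show 1 ≤ L by omega)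
  have e3 := g.H b
  have e4 := g.H L
  have a1 := Gd.row_le (G := G) b c
  have a2 := g.ok.row_lt (show b ≤ L by omega) c
  have a3 := Gd.row_le (G := G) L c
  have a4 := g.ok.row_lt (le_refl L) c
  have h1 := Tg_lt (h₀ := h₀) (K := K) hb1 (L - b)
  rw [show b + (L - b) = L by omega] at h1
  have h2 : 4 ≤ K ^ (L - b) := by
    calc 4 = 2 ^ 2 := rfl
      _ ≤ K ^ 2 := Nat.pow_le_pow_left hK 2
      _ ≤ K ^ (L - b) := Nat.pow_le_pow_right (by omega) (by omega)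
  have h3 : 4 * Tg h₀ K b ≤ Tg h₀ K L := by
    rw [h1, mul_comm]
    exact Nat.mul_le_mul_left _ h2
  unfold ro94
  refine ⟨by omega, by omega, (G.z L c).1 + Tg h₀ K L - ((G.z b c).1 + Tg h₀ K b), by omega, by omega, by omega⟩

variable [IsProbabilityMeasure μ] {c C : ℝ} {n₀ : ℕ}

/-- **THE TOP OF THE FUTURE.** -/
theorem tpf17 (h0 : In μ s c C n₀) (hE9 : ∀ᶠ n : ℕ in atTop, (n : ℝ) ^ (1 / 9 : ℝ) ≤ EE μ s n) (hL : LB84 μ s) (hU : UB84 μ s)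
    (hF : FUT84 μ s) : TpFw17 μ s := by
  intro K B R C₀ hK _ _ _ e he he1 e₀ he₀ hee x Kt hKt
  have hlK : 0 < Real.log K := Real.log_pos (by exact_mod_cast (by omega : 1 < K))
  have hl2 : 0 < Real.log 2 := Real.log_pos (by norm_num)
  obtain ⟨θ, hθ⟩ : ∃ θ : ℝ, θ = e * Real.log 2 / (8 * Real.log K) := ⟨_, rfl⟩
  have hθ0 : 0 < θ := by rw [hθ]; positivity
  obtain ⟨δ, κ₀, c', hδ, hκ₀, hc', N₀, HG⟩ := crd84f h0 hL hU hF (ε := θ / 14) (τ := e / 112) (by positivity) (by positivity)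
  refine ⟨1, 1, one_pos, one_pos, fun c₂ hc₂ hc₂1 δ' hδ' _ => ⟨κ₀, hκ₀, fun κ hκ hκκ => ⟨1, le_rfl, fun Q _ hQ => ?_⟩⟩⟩
  have ev1 := Pool.Agent.W_7d29a1_HZ.Z22.absorb 32 3 (b := 1) (g := c') one_pos hc'
  obtain ⟨N₁, hN₁⟩ := eventually_atTop.1 ev1
  filter_upwards [gridN8 he he1 he₀ hee (x := x) hK hQ, Pool.Agent.W_7d29a1_C1.Ge58.tiltG58 h0 hE9 (e₀ := e₀) (c := c₂) (κ := κ) he1 hδ'.le one_pos (Q := Q) (x := x) (show 1 ≤ K by omega),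
    ev84 512 (show (0 : ℝ) < θ / 2 by positivity), ev84 8 (show (0 : ℝ) < e / 16 by positivity), ev84 (Kt * (2 * wd μ s 1)) (show (0 : ℝ) < 1 / 2 by norm_num),
    eventually_ge_atTop (max (max N₀ N₁) 4), (tendsto_natCast_atTop_atTop (R := ℝ)).eventually_ge_atTop 4] with n hg htl hθn hen hKn hnN hn4
  intro G gW Γ hA
  have hnN₀ : N₀ ≤ n := ((le_max_left _ _).trans (le_max_left _ _)).trans hnN
  have hnN₁ : N₁ ≤ n := ((le_max_right _ _).trans (le_max_left _ _)).trans hnN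
  have hn4' : 4 ≤ n := (le_max_right _ _).trans hnN
  have hn1R : (1 : ℝ) ≤ n := by linarith
  have hn0 : (0 : ℝ) < n := by linarith
  obtain ⟨Na, N, hnNa, hNaN, hM, hMN, hΓN, hN7, hh⟩ := box17 hn4' hc₂1 hA
  have hnN' : n ≤ N := hnNa.trans hNaN
  have hN0 : (0 : ℝ) < N := by exact_mod_cast (show 0 < N by omega)
  have hN1 : (1 : ℝ) ≤ N := by exact_mod_cast (show 1 ≤ N by omega)
  have hnNR : (n : ℝ) ≤ N := by exact_mod_cast hnN'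
  have hNp : ∀ u : ℝ, 0 ≤ u → (N : ℝ) ^ u ≤ (n : ℝ) ^ (7 * u) := by
    intro u hu
    rw [Real.rpow_mul hn0.le]
    exact Real.rpow_le_rpow hN0.le hN7 hu
  obtain ⟨T, hT⟩ : ∃ T : ℕ, T = ⌈(N : ℝ) ^ (e / 112)⌉₊ := ⟨_, rfl⟩
  have hNT : (N : ℝ) ^ (e / 112) ≤ T := by rw [hT]; exact Nat.le_ceil _
  have hTN : T ≤ N := by
    rw [hT]
    refine Nat.ceil_le.2 ?_
    calc (N : ℝ) ^ (e / 112) ≤ (N : ℝ) ^ (1 : ℝ) := Real.rpow_le_rpow_of_exponent_le hN1 (by linarith)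
      _ = N := Real.rpow_one _
  have hTn : (T : ℝ) ≤ 2 * (n : ℝ) ^ (e / 16) := by
    have h1 := hNp (e / 112) (by positivity)
    rw [show 7 * (e / 112) = e / 16 by ring] at h1
    have h2 : (T : ℝ) < (N : ℝ) ^ (e / 112) + 1 := by rw [hT]; exact Nat.ceil_lt_add_one (by positivity)
    have h3 : (1 : ℝ) ≤ (n : ℝ) ^ (e / 16) := Real.one_le_rpow hn1R (by positivity)
    linarith
  have hκN : |Γ.h| * EE μ s Na ≤ (N : ℝ) ^ κ₀ := by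
    have h1 : (Na : ℝ) ^ κ ≤ (Na : ℝ) ^ κ₀ := Real.rpow_le_rpow_of_exponent_le (by exact_mod_cast (show 1 ≤ Na by omega)) hκκ
    have h2 : (Na : ℝ) ^ κ₀ ≤ (N : ℝ) ^ κ₀ := Real.rpow_le_rpow (Nat.cast_nonneg _) (by exact_mod_cast hNaN) hκ₀.le
    exact hh.trans (h1.trans h2)
  obtain ⟨Gs, hGs, HS⟩ := HG N Na T (hnN₀.trans hnN') hNT hTN Γ.h hκN
  -- the probability
  have hexp : 32 * ((N : ℝ) ^ (3 : ℝ) * Real.exp (-(N : ℝ) ^ c')) ≤ 1 := by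
    have h1 := hN₁ N (hnN₁.trans hnN')
    have h2 : Real.exp (-(N : ℝ) ^ (c' / 2)) ≤ 1 := by
      rw [Real.exp_le_one_iff]
      have : (0 : ℝ) ≤ (N : ℝ) ^ (c' / 2) := Real.rpow_nonneg hN0.le _
      linarith
    rw [one_mul] at h1
    rw [← mul_assoc]
    exact h1.trans h2
  have hexp0 := Real.exp_pos (-(N : ℝ) ^ c')
  refine ⟨Gsᶜ, ?_, ?_⟩
  · rw [← ofReal_measureReal (measure_ne_top _ _)]
    refine ENNReal.ofReal_le_ofReal (hGs.trans ?_)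
    rw [Real.rpow_neg hn0.le, ← one_div, le_div_iff₀ (by positivity), mul_comm]
    have h1 : (n : ℝ) ^ (3 : ℝ) ≤ (N : ℝ) ^ (3 : ℝ) := Real.rpow_le_rpow hn0.le hnNR (by norm_num)
    have h2 := mul_le_mul_of_nonneg_right h1 hexp0.le
    have h3 : 0 ≤ (N : ℝ) ^ (3 : ℝ) * Real.exp (-(N : ℝ) ^ c') := by positivity
    linarith only [h2, h3, hexp]
  intro ω hω c hc hw b hb1 hbM y hy
  have hωG : ω ∈ Gs := by
    rw [Set.mem_compl_iff, not_not] at hω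
    exact hω
  -- the numbers of the tower
  obtain ⟨M8, hM8⟩ : ∃ M8 : ℕ, M8 = m8 K e n := ⟨_, rfl⟩
  obtain ⟨L, hL'⟩ : ∃ L : ℕ, L = m8 K e n + x := ⟨_, rfl⟩
  obtain ⟨h₀, hh₀⟩ : ∃ h₀ : ℕ, h₀ = h8 Q e₀ n := ⟨_, rfl⟩
  obtain ⟨q1, q2⟩ := pw17 K hK (show 1 ≤ n by omega) hg.m1
  rw [← hθ, ← hM8] at q1
  rw [← hM8] at q2
  have hM10 : 10 ≤ M8 := by
    have h1 : (n : ℝ) ^ θ ≤ 2 ^ M8 := q1
    have h2 : (512 : ℝ) * 512 ≤ (n : ℝ) ^ θ := by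
      have : (n : ℝ) ^ θ = (n : ℝ) ^ (θ / 2) * (n : ℝ) ^ (θ / 2) := by
        rw [← Real.rpow_add hn0, add_halves]
      rw [this]
      exact mul_le_mul hθn hθn (by norm_num) (by linarith)
    by_contra hcon
    push Not at hcon
    have h3 : (2 : ℝ) ^ M8 ≤ 2 ^ 10 := pow_le_pow_right₀ (by norm_num) hcon.le
    have h4 : (2 : ℝ) ^ 10 = 1024 := by norm_num
    linarith only [h1, h2, h3, h4]
  rw [← hM8] at hbM hy ⊢
  rw [← hL', ← hh₀] at gW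
  rw [← hM8] at hL'
  rw [← hh₀] at hy ⊢
  rw [← hL']
  obtain ⟨r1, r2, m, r3, r4, r5⟩ := rows17 gW hb1 (show b + 2 ≤ L by omega) c
  obtain ⟨a, ha⟩ : ∃ a : ℕ, a = ro94 G (Tg h₀ K) c b := ⟨_, rfl⟩
  rw [← ha] at r1 r2 r3 hy ⊢
  rw [r3, Nat.add_sub_cancel_left]
  have hTL : 4 * (Tg h₀ K L : ℝ) ≤ (n : ℝ) ^ e ∧ Tg h₀ K L + 1 ≤ n := by
    have := Pool.Agent.W_7d29a1_C1.Ge58.T_lt58 hg (show 1 ≤ K by omega) (by linarith) (show 2 ≤ n by omega) (i := L) (by omega)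
    rw [← hh₀] at this
    exact this
  have hrow : (G.z L c).1 + Tg h₀ K L + 1 ≤ Γ.N := Pool.Agent.W_7d29a1_C1.Ge58.hN58 hc hTL.2
  have hamN : a + m + 1 ≤ Γ.N := by
    have : ro94 G (Tg h₀ K) c L = (G.z L c).1 + Tg h₀ K L := rfl
    omega
  have hmn : m ≤ n := by omega
  -- the masses
  have hpos : ∀ k, 0 < Γ.p k := by
    intro k
    unfold Cx.p
    split_ifs <;> exact Real.exp_pos _
  have hp : ∀ k, k < Γ.M → Γ.p k = Real.exp (s + Γ.h) := by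
    intro k hk
    unfold Cx.p
    rw [if_pos hk, hA.hs]
  have hp' : ∀ k, Γ.M ≤ k → Γ.p k = Real.exp s := by
    intro k hk
    unfold Cx.p
    rw [if_neg (by omega), hA.hs]
  have hS := sys_model16 (μ := μ) (s := s) (h := Γ.h) (η := ω) (M := Γ.M) (N := Γ.N) hpos
  have hCr := HS ω hωG Γ.M Γ.N Γ.p hM hMN hΓN hp hp'
  -- the height
  have hTLb : (n : ℝ) ^ (e / 8) ≤ Tg h₀ K L := by
    have h1 : K ^ M8 ≤ Tg h₀ K L := by
      rw [Tg_pos (by omega)]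
      have h2 : K ^ M8 ≤ K ^ L := Nat.pow_le_pow_right (by omega) (by omega)
      have h3 : 1 ≤ 2 * h₀ := by have := gW.h1; omega
      calc K ^ M8 ≤ K ^ L := h2
        _ ≤ 2 * h₀ * K ^ L := Nat.le_mul_of_pos_left _ h3
    exact q2.trans (by exact_mod_cast h1)
  have hTm : T ≤ m := by
    have h1 : (n : ℝ) ^ (e / 8) = (n : ℝ) ^ (e / 16) * (n : ℝ) ^ (e / 16) := by
      rw [← Real.rpow_add hn0]
      congr 1
      ring
    have h16 : 0 < (n : ℝ) ^ (e / 16) := by positivity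
    have h1e := mul_le_mul_of_nonneg_right hen h16.le
    rw [← h1] at h1e
    have h2 : (Tg h₀ K L : ℝ) ≤ 4 * m := by exact_mod_cast r4
    have h3 : (T : ℝ) ≤ m := by linarith only [h1e, h2, hTLb, hTn]
    exact_mod_cast h3
  -- the column
  have hcc : 0 < c.2 ∧ c.2 ≤ c.1 + 1 := by
    by_contra hcon
    have h1 : c.2 ≤ 0 ∨ (c.1 : ℤ) + 1 < c.2 := by omega
    have h2 := w_zero98 Γ h1 ω
    rw [h2] at hw
    exact absurd hw (not_le.2 (Real.exp_pos _))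
  have hc1N : c.1 ≤ N := by omega
  have hs0 := h0.sl_pos
  have hs1 := h0.sl_lt
  have hwdn : Kt * wd μ s (Tg h₀ K (M8 / 2 + 2)) ≤ n := by
    have h1 : wd μ s (Tg h₀ K (M8 / 2 + 2)) ≤ 2 * wd μ s 1 * Tg h₀ K (M8 / 2 + 2) := by
      have h5 : 1 ≤ Tg h₀ K (M8 / 2 + 2) := by
        rw [Tg_pos (by omega)]
        have := gW.h1
        exact Nat.mul_pos (by omega) (Nat.pow_pos (by omega))
      have h6 := wd_lower_one h0 (le_refl 1) h5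
      push_cast at h6
      linarith only [h6]
    have h2 : (Tg h₀ K (M8 / 2 + 2) : ℝ) ≤ Tg h₀ K L := by
      exact_mod_cast Tg_mono (h₀ := h₀) (show 1 ≤ K by omega) (show M8 / 2 + 2 ≤ L by omega)
    have h3 : (Tg h₀ K L : ℝ) ≤ (n : ℝ) ^ (1 / 2 : ℝ) := by
      have h4 : (n : ℝ) ^ e ≤ (n : ℝ) ^ (1 / 2 : ℝ) := Real.rpow_le_rpow_of_exponent_le hn1R (by linarith only [he1])
      have h5 : (0 : ℝ) ≤ Tg h₀ K L := Nat.cast_nonneg _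
      linarith only [hTL.1, h4, h5]
    have hw1 : 0 ≤ wd μ s 1 := (h0.wd_pos le_rfl).le
    calc Kt * wd μ s (Tg h₀ K (M8 / 2 + 2)) ≤ Kt * (2 * wd μ s 1 * Tg h₀ K (M8 / 2 + 2)) := mul_le_mul_of_nonneg_left h1 hKt.le
      _ = Kt * (2 * wd μ s 1) * Tg h₀ K (M8 / 2 + 2) := by ring
      _ ≤ (n : ℝ) ^ (1 / 2 : ℝ) * (n : ℝ) ^ (1 / 2 : ℝ) := mul_le_mul hKn (h2.trans h3) (Nat.cast_nonneg _) (by positivity)
      _ = n := by
        rw [← Real.rpow_add hn0]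
        norm_num
  have hyN : |y| ≤ 4 * N := by
    have h1 : |((y - c.2 : ℤ) : ℝ) - sl μ s * (((a : ℤ) - (c.1 : ℤ) : ℤ) : ℝ)| ≤ n := hy.trans hwdn
    push_cast at h1
    have ha1 : (c.1 : ℝ) ≤ a := by exact_mod_cast r1.le
    have ha2 : (a : ℝ) ≤ c.1 + n := by
      have h2 : Tg h₀ K b ≤ Tg h₀ K L := Tg_mono (h₀ := h₀) (show 1 ≤ K by omega) (show b ≤ L by omega)
      exact_mod_cast (show a ≤ c.1 + n by omega)
    have h3 : |sl μ s * ((a : ℝ) - c.1)| ≤ n := by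
      have h6 : 0 ≤ (a : ℝ) - c.1 := by linarith only [ha1]
      rw [abs_mul, abs_of_pos hs0, abs_of_nonneg h6]
      have := mul_le_mul hs1.le (show (a : ℝ) - c.1 ≤ n by linarith only [ha2]) h6 (by norm_num : (0 : ℝ) ≤ 1)
      linarith only [this]
    have h4 : |(c.2 : ℝ)| ≤ N := by
      have h5 : (0 : ℝ) < c.2 := by exact_mod_cast hcc.1
      rw [abs_of_pos h5]
      have h6 : (c.2 : ℤ) ≤ N := by omega
      exact_mod_cast h6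
    have h5 : |(y : ℝ)| ≤ 4 * N := by
      have e1 : (y : ℝ) = ((y : ℝ) - c.2 - sl μ s * ((a : ℝ) - c.1)) + sl μ s * ((a : ℝ) - c.1) + c.2 := by ring
      rw [e1]
      refine (abs_add_three _ _ _).trans ?_
      linarith only [h1, h3, h4, hnNR]
    exact_mod_cast h5
  -- the clause
  have hwL : wd μ s m ≤ 2 * wd μ s (2 * Tg h₀ K L) := by
    have hT1 : 1 ≤ T := by
      have h1 : (1 : ℝ) ≤ T := (Real.one_le_rpow hN1 (by positivity)).trans hNT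
      exact_mod_cast h1
    exact wd_le_two h0 (hT1.trans hTm) (by omega)
  have hw2 : 0 ≤ wd μ s (2 * Tg h₀ K L) := h0.wd_nonneg _
  have hNe : 2 * (N : ℝ) ^ (θ / 14) ≤ 4 ^ (L - M8 / 2 - 4) := by
    have h1 := hNp (θ / 14) (by positivity)
    rw [show 7 * (θ / 14) = θ / 2 by ring] at h1
    have h2 : (n : ℝ) ^ θ = (n : ℝ) ^ (θ / 2) * (n : ℝ) ^ (θ / 2) := by
      rw [← Real.rpow_add hn0]
      congr 1
      ring
    have h3 : 0 < (n : ℝ) ^ (θ / 2) := by positivity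
    have h4 := mul_le_mul_of_nonneg_right hθn h3.le
    rw [← h2] at h4
    have h5 : (2 : ℝ) ^ M8 ≤ 2 ^ 8 * 4 ^ (L - M8 / 2 - 4) := by
      rw [show (4 : ℝ) = 2 ^ 2 by norm_num, ← pow_mul, ← pow_add]
      exact pow_le_pow_right₀ (by norm_num) (by omega)
    have h6 : (2 : ℝ) ^ 8 = 256 := by norm_num
    rw [h6] at h5
    linarith only [h5, h4, q1, h1]
  have hca := hCr.ca a m hTm hamN (by
    rcases le_or_gt m (Γ.M - a) with h1 | h1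
    · exact Or.inl h1
    · refine Or.inr ?_
      have h2 := htl Γ hA hg L (by omega)
      rw [← hh₀] at h2
      have h3 : ((Γ.M - a : ℕ) : ℝ) ≤ Tg h₀ K L := by exact_mod_cast (show Γ.M - a ≤ Tg h₀ K L by omega)
      exact (mul_le_mul_of_nonneg_left h3 (abs_nonneg _)).trans h2) y hyN
  have hB0 := (hS.b0 a y (by omega)).le
  have hmono : PM16 (fun a b' x' z' => nk μ s Γ.h ω Γ.p Γ.M a (b' - a) x' z') (bh16 μ s Γ.h ω Γ.p Γ.M Γ.N) a (a + m) y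
      (fun z => 4 ^ (L - M8 / 2 - 4) * wd μ s (2 * Tg h₀ K L) ≤
        |lat16 μ s (pt c) (((a + m : ℕ) : ℤ), z) - lat16 μ s (pt c) ((a : ℤ), y)|) ≤
      PM16 (fun a b x z => nk μ s Γ.h ω Γ.p Γ.M a (b - a) x z) (bh16 μ s Γ.h ω Γ.p Γ.M Γ.N) a (a + m) y
        (fun z => (N : ℝ) ^ (θ / 14) * wd μ s m ≤ |(z : ℝ) - y - sl μ s * m|) := by
    refine PM16_mono hS (by omega) y fun z _ _ hz => ?_
    have e1 : lat16 μ s (pt c) (((a + m : ℕ) : ℤ), z) - lat16 μ s (pt c) ((a : ℤ), y) = (z : ℝ) - y - sl μ s * m := by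
      unfold lat16
      push_cast
      ring
    rw [e1] at hz
    refine le_trans ?_ hz
    calc (N : ℝ) ^ (θ / 14) * wd μ s m ≤ (N : ℝ) ^ (θ / 14) * (2 * wd μ s (2 * Tg h₀ K L)) := mul_le_mul_of_nonneg_left hwL (by positivity)
      _ = 2 * (N : ℝ) ^ (θ / 14) * wd μ s (2 * Tg h₀ K L) := by ring
      _ ≤ _ := mul_le_mul_of_nonneg_right hNe hw2
  have hmR : (m : ℝ) ≤ (N : ℝ) ^ (3 : ℝ) := by
    have h1 : (m : ℝ) ≤ N := by exact_mod_cast hmn.trans hnN'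
    calc (m : ℝ) ≤ N := h1
      _ = (N : ℝ) ^ (1 : ℝ) := (Real.rpow_one _).symm
      _ ≤ _ := Real.rpow_le_rpow_of_exponent_le hN1 (by norm_num)
  have hm0 : (0 : ℝ) ≤ m := Nat.cast_nonneg _
  calc 32 * ((m : ℝ) * _) ≤ 32 * ((m : ℝ) * (Real.exp (-(N : ℝ) ^ c') * bh16 μ s Γ.h ω Γ.p Γ.M Γ.N a y)) :=
        mul_le_mul_of_nonneg_left (mul_le_mul_of_nonneg_left (hmono.trans hca) hm0) (by norm_num)
    _ ≤ 32 * ((N : ℝ) ^ (3 : ℝ) * (Real.exp (-(N : ℝ) ^ c') * bh16 μ s Γ.h ω Γ.p Γ.M Γ.N a y)) :=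
        mul_le_mul_of_nonneg_left (mul_le_mul_of_nonneg_right hmR (mul_nonneg hexp0.le hB0)) (by norm_num)
    _ = 32 * ((N : ℝ) ^ (3 : ℝ) * Real.exp (-(N : ℝ) ^ c')) * bh16 μ s Γ.h ω Γ.p Γ.M Γ.N a y := by ring
    _ ≤ 1 * bh16 μ s Γ.h ω Γ.p Γ.M Γ.N a y := mul_le_mul_of_nonneg_right hexp hB0
    _ = _ := one_mul _

end

end Pool.Agent.W_7d29a1_C1.TpF17
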