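import Pool.Agent.W_7d29a1_C1.FwS51
import Pool.Agent.W_7d29a1_C1.TmG94
import Pool.Agent.W_7d29a1_C1.TpF17
import Pool.Agent.W_7d29a1_C1.ArmE94
import Pool.Agent.W_7d29a1_C1.Fut67
import Pool.Agent.W_7d29a1_C1.Tilt57B

/-!
MP_7d29a1_pr, attractor route [C1], field `nu`: **`FwQ51` IS A THEOREM** (helper51): helper94's `tmG94` and helper17's `tpf17` in the closed
shell `fwS51`.
-/

set_option autoImplicit false

namespace Pool.Agent.W_7d29a1_C1.FwN51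

open MeasureTheory Finset Filter Topology
open Pool.Agent.W_7d29a1_F Pool.Agent.W_7d29a1_h4g Pool.Agent.W_7d29a1_H Pool.Agent.W_7d29a1_HS
open Pool.Agent.W_7d29a1_C1.Nu51
open Pool.Agent.W_7d29a1_C1.Tl57 (ee9_57)
open scoped ENNReal

noncomputable section

variable {μ : Measure ℝ} [IsProbabilityMeasure μ] {s c C : ℝ} {n₀ : ℕ}

/-- The clause of one contact. -/
theorem tmF51 (hI : In μ s c C n₀) : TmF51 μ s c :=
  Pool.Agent.W_7d29a1_C1.TmG94.tmG94 hI (Pool.Agent.W_7d29a1_C1.H94.cs94_all hI.em hI.nd s)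

/-- The top of the future. -/
theorem tpF51 (hI : In μ s c C n₀) : TpF51 μ s :=
  Pool.Agent.W_7d29a1_C1.TpF17.tpf17 hI (ee9_57 hI) (Pool.Agent.W_7d29a1_LB.lb_all hI.em hI.nd s)
    (Pool.Agent.W_7d29a1_LB.ub_all29 hI.em hI.nd s) (Pool.Agent.W_7d29a1_C1.fut_real67 hI)

/-- **THE CLAUSE OF THE FUTURE**, no hypothesis left. -/
theorem fwZ51 (hI : In μ s c C n₀) : FwQ51 μ s := fwS51 hI (ee9_57 hI) (tmF51 hI) (tpF51 hI)

end

end Pool.Agent.W_7d29a1_C1.FwN51
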