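import Pool.Agent.W_7d29a1_C1.GateX87
import Pool.Agent.W_7d29a1_C1.GateG87
import Pool.Agent.W_7d29a1_C1.GateC18

/-!
MP_7d29a1_pr, attractor route, [C1] SEP, THE GATE: THE CORE MASS IS CARRIED BY EVERY SITE OF THE CORE OF THE GATE ROW (G3). (helper65)

* `Z1_last`: if for every site `z` of the core of the row `a + j` the mass from `z` into the core of the row `a + (j + i)` (weighted with
  the future) is at most `G` times the mass through `v`, then `Z1 ≤ G * (ker q v * bw v)`;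
* `G3_65`: over the model, rows `a + 4 n`, `a + 5 n`: `η ∈ Co18 … Q ∩ Up18 … U`, profile between the core sites of the gate row
  `exp (h (u - v)) (bw u · wt v) ≤ exp β (bw v · wt u)`: `G = exp (β + (U + Q) E)`;
* `hZ65`: the hypothesis `hZ` of `gtS58`, `gtT58` from the profile on the core, `X87` and the slope.
-/

set_option autoImplicit false

namespace Pool.Agent.W_7d29a1_C1.Gt66

open Finset MeasureTheory
open Pool.Agent.W_7d29a1_F Pool.Agent.W_7d29a1_h4g Pool.Agent.W_7d29a1_H Pool.Agent.W_7d29a1_HS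
open Pool.Agent.W_7d29a1_C1.K91 (wt wt_pos)
open Pool.Agent.W_7d29a1_C1.K91P (fw bw fw_succ fw_nonneg bw_pos)
open Pool.Agent.W_7d29a1_C1.U16 (ker ker_zero ker_succ ker_nonneg ker_eq_zero fw_ker bw_ker ker_add ker_W lat16)
open Pool.Agent.W_7d29a1_C1.GL18
open Pool.Agent.W_7d29a1_C1.H75
open Pool.Agent.W_7d29a1_C1.PW58 (lt lat_lt Co58)

noncomputable section

attribute [local instance 10] Classical.propDecidable

section Det

variable {w : ℕ → ℤ → ℝ} {p : ℕ → ℝ} {a : ℕ}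

/-- **The last rows of the core mass.** -/
theorem Z1_last (hw : ∀ k y, 0 < w k y) (hp : ∀ k, 0 < p k) {N j i k : ℕ} (hk : k + 1 ≤ a) {q v : ℤ} {Co : ℕ → ℤ → Prop} {G : ℝ}
    (H : ∀ z, Co j z → ∀ F : Finset ℤ, (∀ u ∈ F, Co (j + i) u) →
      ∑ u ∈ F, ker w p (a + j) i z u * bw w p (a + (j + i)) (N - (a + (j + i))) u ≤
        G * (ker w p (a + j) i z v * bw w p (a + (j + i)) (N - (a + (j + i))) v)) (hG : 0 ≤ G) :
    Z1 w p N a (j + i) Co k q ≤
      G * (ker w p (k + 1) (a + (j + i) - (k + 1)) q v * bw w p (a + (j + i)) (N - (a + (j + i))) v) := by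
  have hw' : ∀ k y, 0 ≤ w k y := fun k y => (hw k y).le
  have hp' : ∀ k, 0 ≤ p k := fun k => (hp k).le
  obtain ⟨g, hg⟩ : ∃ g : ℤ → ℝ, g = fun u => bw w p (a + (j + i)) (N - (a + (j + i))) u := ⟨_, rfl⟩
  have g0 : ∀ u, 0 ≤ g u := fun u => by
    rw [hg]
    exact (bw_pos hw hp _ _ u).le
  -- the masses of the contact at the row `a + j`, in the core
  obtain ⟨m₁, hm₁⟩ : ∃ m₁ : ℤ → ℝ, m₁ = fun z => if Co j z then Ks w p (a + j) k q z else 0 := ⟨_, rfl⟩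
  have K0 : ∀ z, 0 ≤ Ks w p (a + j) k q z := fun z => ker_nonneg hw hp _ _ _ z
  have m0 : ∀ z, 0 ≤ m₁ z := fun z => by
    rw [hm₁]
    show 0 ≤ if Co j z then Ks w p (a + j) k q z else 0
    split_ifs
    · exact K0 z
    · exact le_rfl
  have m1le : ∀ z, m₁ z ≤ Ks w p (a + j) k q z := fun z => by
    rw [hm₁]
    show (if Co j z then Ks w p (a + j) k q z else 0) ≤ Ks w p (a + j) k q z
    split_ifs
    · exact le_rfl
    · exact K0 z
  have m1off : ∀ z, z ∉ Ic (a + j) k q → m₁ z = 0 := fun z hz => by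
    rw [hm₁]
    show (if Co j z then Ks w p (a + j) k q z else 0) = 0
    split_ifs
    · exact Ks_off hz
    · rfl
  have h1 : ∀ z, ms w p a Co (Ks w p a k q) j z ≤ m₁ z := fun z => by
    rw [hm₁]
    show _ ≤ if Co j z then Ks w p (a + j) k q z else 0
    split_ifs with h
    · refine (ms_le_all hw' hp' (fun y => ker_nonneg hw hp _ _ _ y) j z).trans (le_of_eq ?_)
      exact ms_Ks hk j q z
    · exact (ms_off h).le
  have h2 : ∀ u, ms w p a Co (Ks w p a k q) (j + i) u ≤ if Co (j + i) u then ms w p (a + j) All m₁ i u else 0 := fun u => by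
    split_ifs with h
    · rw [ms_cut]
      exact ms_mono hw' hp' m0 (fun _ _ _ => trivial) h1 i u
    · exact (ms_off h).le
  have e1 : Z1 w p N a (j + i) Co k q = ∑ u ∈ Icc q (q + ((a - (k + 1) : ℕ) : ℤ) + ((j + i : ℕ) : ℤ)),
      ms w p a Co (Ks w p a k q) (j + i) u * g u := by
    rw [hg]
    exact expand (Ks w p a k q) (fun y hy => Ks_off hy) (lo := q) (hi := q + ((a - (k + 1) : ℕ) : ℤ)) (fun y hy => mem_Icc.1 hy)
      (j + i) _
  obtain ⟨F, hF⟩ : ∃ F : Finset ℤ, F = (Icc q (q + ((a - (k + 1) : ℕ) : ℤ) + ((j + i : ℕ) : ℤ))).filter fun u => Co (j + i) u :=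
    ⟨_, rfl⟩
  have e2 : Z1 w p N a (j + i) Co k q ≤ ∑ u ∈ F, ms w p (a + j) All m₁ i u * g u := by
    rw [e1, hF, sum_filter]
    refine sum_le_sum fun u _ => ?_
    have h3 := mul_le_mul_of_nonneg_right (h2 u) (g0 u)
    split_ifs with h
    · rw [if_pos h] at h3
      exact h3
    · rw [if_neg h, zero_mul] at h3
      exact h3
  have e3 : ∀ u, ms w p (a + j) All m₁ i u = ∑ z ∈ Ic (a + j) k q, m₁ z * ker w p (a + j) i z u := fun u => by
    rw [ms_expand m1off i u]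
    exact sum_congr rfl fun z _ => by rw [ms_ker]
  have e4 : ∑ u ∈ F, ms w p (a + j) All m₁ i u * g u =
      ∑ z ∈ Ic (a + j) k q, m₁ z * ∑ u ∈ F, ker w p (a + j) i z u * g u := by
    have h4 : ∀ u ∈ F, ms w p (a + j) All m₁ i u * g u = ∑ z ∈ Ic (a + j) k q, m₁ z * (ker w p (a + j) i z u * g u) := fun u _ => by
      rw [e3, sum_mul]
      exact sum_congr rfl fun z _ => by ring
    rw [sum_congr rfl h4, sum_comm]
    exact sum_congr rfl fun z _ => by rw [mul_sum]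
  have e5 : ∀ z ∈ Ic (a + j) k q, m₁ z * ∑ u ∈ F, ker w p (a + j) i z u * g u ≤ m₁ z * (G * (ker w p (a + j) i z v * g v)) := by
    intro z _
    by_cases h : Co j z
    · refine mul_le_mul_of_nonneg_left ?_ (m0 z)
      rw [hg]
      exact H z h F fun u hu => by
        rw [hF] at hu
        exact (mem_filter.1 hu).2
    · have : m₁ z = 0 := by
        rw [hm₁]
        exact if_neg h
      rw [this, zero_mul, zero_mul]
  have e6 : ∑ z ∈ Ic (a + j) k q, m₁ z * ker w p (a + j) i z v ≤ ker w p (k + 1) (a + (j + i) - (k + 1)) q v := by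
    rw [← e3]
    refine (ms_mono hw' hp' K0 (fun _ _ h => h) m1le i v).trans (le_of_eq ?_)
    have h5 := ms_Ks (w := w) (p := p) (a := a + j) (k := k) (show k + 1 ≤ a + j by omega) i q v
    rw [h5]
    congr 1
    omega
  calc Z1 w p N a (j + i) Co k q ≤ ∑ u ∈ F, ms w p (a + j) All m₁ i u * g u := e2
    _ = ∑ z ∈ Ic (a + j) k q, m₁ z * ∑ u ∈ F, ker w p (a + j) i z u * g u := e4
    _ ≤ ∑ z ∈ Ic (a + j) k q, m₁ z * (G * (ker w p (a + j) i z v * g v)) := sum_le_sum e5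
    _ = G * ((∑ z ∈ Ic (a + j) k q, m₁ z * ker w p (a + j) i z v) * g v) := by
        rw [sum_mul, mul_sum]
        exact sum_congr rfl fun z _ => by ring
    _ ≤ G * (ker w p (k + 1) (a + (j + i) - (k + 1)) q v * g v) :=
        mul_le_mul_of_nonneg_left (mul_le_mul_of_nonneg_right e6 (g0 v)) hG
    _ = _ := by rw [hg]

end Det

section Model

variable {μ : Measure ℝ} {s c : ℝ}

/-- From one site of the core of the row `a + 4 n` into the core of the gate row. -/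
theorem g3_one [IsProbabilityMeasure μ] {η : Env} {p : ℕ → ℝ} {N a n : ℕ} {h : ℝ} {x₀ : ℤ} (hp0 : ∀ k, 0 < p k)
    (hp : ∀ k, a + 4 * n ≤ k → k < a + 5 * n → p k = Real.exp (s + h)) {K₁ K Q U β : ℝ} (hK : K₁ * wd μ s n ≤ K * wd μ s n)
    (hCo : η ∈ Co18 μ s K₁ n ((a : ℤ), x₀) Q) (hUp : η ∈ Up18 μ s c K n ((a : ℤ), x₀) U) {z v : ℤ}
    (hz : |lat16 μ s ((a : ℤ), x₀) ((a : ℤ) + ((4 * n : ℕ) : ℤ), z)| ≤ K₁ * wd μ s n)
    (hv : |lat16 μ s ((a : ℤ), x₀) ((a : ℤ) + ((5 * n : ℕ) : ℤ), v)| ≤ K₁ * wd μ s n) {F : Finset ℤ}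
    (hB : ∀ u ∈ F, Real.exp (h * ((u - v : ℤ) : ℝ)) * (bw (wt η) p (a + 5 * n) (N - (a + 5 * n)) u * wt η (a + 5 * n) v) ≤
      Real.exp β * (bw (wt η) p (a + 5 * n) (N - (a + 5 * n)) v * wt η (a + 5 * n) u)) :
    ∑ u ∈ F, ker (wt η) p (a + 4 * n) n z u * bw (wt η) p (a + 5 * n) (N - (a + 5 * n)) u ≤
      Real.exp (β + (U + Q) * EE μ s n) * (ker (wt η) p (a + 4 * n) n z v * bw (wt η) p (a + 5 * n) (N - (a + 5 * n)) v) := by
  have e45 : a + 4 * n + n = a + 5 * n := by ring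
  have b0 : ∀ u, 0 ≤ bw (wt η) p (a + 5 * n) (N - (a + 5 * n)) u := fun u => (bw_pos (fun k y => wt_pos η k y) hp0 _ _ u).le
  have w0 : 0 ≤ ker (wt η) p (a + 4 * n) n z v := ker_nonneg (fun k y => wt_pos η k y) hp0 _ _ _ _
  have hlow : Real.exp (-(Q * EE μ s n)) ≤ W μ s η (((a + 4 * n : ℕ) : ℤ), z) n (v - z) := by
    have h1 := hCo z v hz hv
    have e : ((((a : ℤ), x₀) : Pt).1 + ((4 * n : ℕ) : ℤ), z) = ((((a + 4 * n : ℕ) : ℤ), z) : Pt) := by
      ext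
      · show (a : ℤ) + ((4 * n : ℕ) : ℤ) = ((a + 4 * n : ℕ) : ℤ)
        push_cast
        ring
      · rfl
    rw [e] at h1
    exact h1
  have hV : V μ s η (((a + 4 * n : ℕ) : ℤ), z) n ≤ U * EE μ s n := by
    have h1 := hUp (((a + 4 * n : ℕ) : ℤ), z) n (by
      show (a : ℤ) ≤ ((a + 4 * n : ℕ) : ℤ)
      omega) (by
      show ((a + 4 * n : ℕ) : ℤ) + (n : ℤ) ≤ (a : ℤ) + ((5 * n : ℕ) : ℤ)
      omega) (by
      refine le_trans (le_of_eq ?_) (hz.trans hK)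
      congr 2)
    exact t3_V h1
  have hsum : ∑ u ∈ F, W μ s η (((a + 4 * n : ℕ) : ℤ), z) n (u - z) ≤ Real.exp (U * EE μ s n) := by
    refine le_trans ?_ (Real.exp_le_exp.2 hV)
    have h1 := WS_le_exp_V (μ := μ) (s := s) η (((a + 4 * n : ℕ) : ℤ), z) n (F.image fun u => u - z)
    refine le_trans (le_of_eq ?_) h1
    unfold WS
    rw [sum_image fun x _ y _ hxy => by
      have : x - z = y - z := hxy
      omega]
  have hone : ∀ u ∈ F, ker (wt η) p (a + 4 * n) n z u * bw (wt η) p (a + 5 * n) (N - (a + 5 * n)) u ≤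
      Real.exp (β + Q * EE μ s n) * W μ s η (((a + 4 * n : ℕ) : ℤ), z) n (u - z) *
        (ker (wt η) p (a + 4 * n) n z v * bw (wt η) p (a + 5 * n) (N - (a + 5 * n)) v) := by
    intro u hu
    have hWu : 0 ≤ W μ s η (((a + 4 * n : ℕ) : ℤ), z) n (u - z) := WR_nonneg _ _ _ _ _
    refine ker_two (μ := μ) (s := s) (h := h) η (i := a + 4 * n) (j := n) (fun k h1 h2 => hp k h1 (by omega))
      (mul_nonneg (Real.exp_pos _).le hWu) (le_refl (W μ s η (((a + 4 * n : ℕ) : ℤ), z) n (u - z))) hlow (qB := Real.exp β)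
      ?_ (b0 v) ?_ (Real.exp_pos _).le
    · rw [e45]
      exact hB u hu
    · rw [mul_right_comm, ← Real.exp_add]
      exact le_of_eq (by congr 2; ring)
  refine (sum_le_sum hone).trans ?_
  rw [← sum_mul, ← mul_sum]
  refine mul_le_mul_of_nonneg_right ?_ (mul_nonneg w0 (b0 v))
  refine (mul_le_mul_of_nonneg_left hsum (Real.exp_pos _).le).trans (le_of_eq ?_)
  rw [← Real.exp_add]
  congr 1
  ring

/-- **G3**: the core mass is carried by every site `v` of the core of the gate row. -/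
theorem G3_65 [IsProbabilityMeasure μ] {η : Env} {p : ℕ → ℝ} {N a n k : ℕ} {h : ℝ} {x₀ : ℤ} (hp0 : ∀ k, 0 < p k)
    (hp : ∀ k, a + 4 * n ≤ k → k < a + 5 * n → p k = Real.exp (s + h)) (hk : k + 1 ≤ a) {K₁ K Q U β : ℝ}
    (hK : K₁ * wd μ s n ≤ K * wd μ s n)
    (hCo : η ∈ Co18 μ s K₁ n ((a : ℤ), x₀) Q) (hUp : η ∈ Up18 μ s c K n ((a : ℤ), x₀) U) {Co : ℕ → ℤ → Prop}
    (hC4 : ∀ z, Co (4 * n) z → |lat16 μ s ((a : ℤ), x₀) ((a : ℤ) + ((4 * n : ℕ) : ℤ), z)| ≤ K₁ * wd μ s n)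
    {q v : ℤ} (hv : |lat16 μ s ((a : ℤ), x₀) ((a : ℤ) + ((5 * n : ℕ) : ℤ), v)| ≤ K₁ * wd μ s n)
    (hB : ∀ u, Co (5 * n) u → Real.exp (h * ((u - v : ℤ) : ℝ)) *
        (bw (wt η) p (a + 5 * n) (N - (a + 5 * n)) u * wt η (a + 5 * n) v) ≤
      Real.exp β * (bw (wt η) p (a + 5 * n) (N - (a + 5 * n)) v * wt η (a + 5 * n) u)) :
    Z1 (wt η) p N a (5 * n) Co k q ≤ Real.exp (β + (U + Q) * EE μ s n) *
      (ker (wt η) p (k + 1) (a + 5 * n - (k + 1)) q v * bw (wt η) p (a + 5 * n) (N - (a + 5 * n)) v) := by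
  have e45 : 4 * n + n = 5 * n := by ring
  have key := Z1_last (w := wt η) (p := p) (a := a) (fun k y => wt_pos η k y) hp0 (N := N) (j := 4 * n) (i := n) (k := k) hk
    (q := q) (v := v) (Co := Co) (G := Real.exp (β + (U + Q) * EE μ s n))
  rw [e45] at key
  exact key (fun z hz F hF => g3_one hp0 hp hK hCo hUp (hC4 z hz) hv fun u hu => hB u (hF u hu)) (Real.exp_pos _).le

/-- **`hZ` of `gtS58`, `gtT58`**: `G₃ = exp (β₁ + 2 q E + β₃ + (U + Q) E)`, `β₁` = profile between the sites of the core, `q` = level of the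
site weights of the gate row, `β₃` = slope over the core, `U`, `Q` = levels of `Up18`, `Co18`. -/
theorem hZ65 [IsProbabilityMeasure μ] {η : Env} {p : ℕ → ℝ} {N a n k : ℕ} {h : ℝ} {x₀ : ℤ} (hn : 1 ≤ n) (hp0 : ∀ k, 0 < p k)
    (hp : ∀ k, a + 4 * n ≤ k → k < a + 5 * n → p k = Real.exp (s + h)) (hk : k + 1 ≤ a) {K₁ Kc Ku Kx Q U qx β₁ β₃ : ℝ}
    (hw : 0 ≤ wd μ s n) (hc : K₁ ≤ Kc) (hu : K₁ ≤ Ku) (hx : K₁ ≤ Kx) (hCo : η ∈ Co18 μ s Kc n ((a : ℤ), x₀) Q)
    (hUp : η ∈ Up18 μ s c Ku n ((a : ℤ), x₀) U) (hX : η ∈ X87 μ s Kx n ((a : ℤ), x₀) (5 * n) qx) {q v : ℤ}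
    (hv : |lt μ s x₀ (5 * n) v| ≤ K₁ * wd μ s n)
    (hprof : ∀ u, |lt μ s x₀ (5 * n) u| ≤ K₁ * wd μ s n →
      bw (wt η) p (a + 5 * n) (N - (a + 5 * n)) u ≤ Real.exp β₁ * bw (wt η) p (a + 5 * n) (N - (a + 5 * n)) v)
    (hh : |h| * (2 * (K₁ * wd μ s n)) ≤ β₃) :
    Z1 (wt η) p N a (5 * n) (Co58 μ s K₁ n x₀) k q ≤ Real.exp (β₁ + 2 * (qx * EE μ s n) + β₃ + (U + Q) * EE μ s n) *
      (ker (wt η) p (k + 1) (a + 5 * n - (k + 1)) q v * bw (wt η) p (a + 5 * n) (N - (a + 5 * n)) v) := by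
  have hcc : K₁ * wd μ s n ≤ Kc * wd μ s n := mul_le_mul_of_nonneg_right hc hw
  have hl : ∀ (j : ℕ) (x : ℤ), lat16 μ s ((a : ℤ), x₀) ((a : ℤ) + (j : ℤ), x) = lt μ s x₀ j x := fun j x => by
    rw [← Nat.cast_add, lat_lt]
  have hCo' : η ∈ Co18 μ s K₁ n ((a : ℤ), x₀) Q := fun z v' hz hv' => hCo z v' (hz.trans hcc) (hv'.trans hcc)
  have hwt : ∀ x : ℤ, wt η (a + 5 * n) x = Real.exp (η ((a : ℤ) + ((5 * n : ℕ) : ℤ), x)) := fun x => by
    unfold wt
    rw [if_neg (by omega)]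
    push_cast
    rfl
  have hxx : ∀ x : ℤ, |lt μ s x₀ (5 * n) x| ≤ K₁ * wd μ s n → |η ((a : ℤ) + ((5 * n : ℕ) : ℤ), x)| ≤ qx * EE μ s n := fun x hx' => by
    refine hX x ?_
    rw [hl]
    exact hx'.trans (mul_le_mul_of_nonneg_right hx hw)
  refine G3_65 hp0 hp hk (mul_le_mul_of_nonneg_right hu hw) hCo' hUp (fun z hz => ?_) ?_ fun u hu' => ?_
  · rw [hl]
    exact hz
  · rw [hl]
    exact hv
  · have hu1 : |lt μ s x₀ (5 * n) u| ≤ K₁ * wd μ s n := hu'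
    have b0 : ∀ u, 0 < bw (wt η) p (a + 5 * n) (N - (a + 5 * n)) u := fun u => bw_pos (fun k y => wt_pos η k y) hp0 _ _ u
    have k1 := hprof u hu1
    have k2 : wt η (a + 5 * n) v ≤ Real.exp (2 * (qx * EE μ s n)) * wt η (a + 5 * n) u := by
      rw [hwt, hwt, ← Real.exp_add]
      have y1 := (abs_le.1 (hxx u hu1)).1
      have y2 := (abs_le.1 (hxx v hv)).2
      exact Real.exp_le_exp.2 (by linarith)
    have k3 : Real.exp (h * ((u - v : ℤ) : ℝ)) ≤ Real.exp β₃ := by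
      refine Real.exp_le_exp.2 ((le_abs_self _).trans ?_)
      rw [abs_mul]
      refine (mul_le_mul_of_nonneg_left ?_ (abs_nonneg h)).trans hh
      have e1 : ((u - v : ℤ) : ℝ) = lt μ s x₀ (5 * n) u - lt μ s x₀ (5 * n) v := by
        unfold PW58.lt
        push_cast
        ring
      rw [e1]
      refine (abs_sub _ _).trans ?_
      linarith
    have k12 := mul_le_mul k1 k2 (wt_pos η _ _).le (mul_nonneg (Real.exp_pos _).le (b0 v).le)
    calc _ ≤ Real.exp β₃ * (Real.exp β₁ * bw (wt η) p (a + 5 * n) (N - (a + 5 * n)) v *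
          (Real.exp (2 * (qx * EE μ s n)) * wt η (a + 5 * n) u)) :=
          mul_le_mul k3 k12 (mul_nonneg (b0 u).le (wt_pos η _ _).le) (Real.exp_pos _).le
      _ = (Real.exp β₁ * Real.exp (2 * (qx * EE μ s n)) * Real.exp β₃) *
          (bw (wt η) p (a + 5 * n) (N - (a + 5 * n)) v * wt η (a + 5 * n) u) := by ring
      _ = _ := by rw [← Real.exp_add, ← Real.exp_add]

end Model

end

end Pool.Agent.W_7d29a1_C1.Gt66
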