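import Pool.Agent.W_7d29a1_C1.Basin76

/-!
MP_7d29a1_pr, attractor route (board 73236, 73848, zzzg = the letter of 22:59): THE GATE AT THE QUANTILES OF THE EXIT LAW.
(helper76)

`k v` = weight from the contact `c` to the site `v` of the gate row, `a v` = mass of a group `X` (one of the two groups of
paths, or an earlier meeting point) at `v`, `B v` = weight of everything behind, `ν v = k v * B v / Zc` = exit law of `c`.

* `Spl a k` : `a / k` is the sum of a non increasing and a non decreasing function; `spl_of_tp` : true for every kernel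
  with nonnegative minors and every masses at the row of `c`;
* `gate_le` : `q * (a v0 * Zc) ≤ k v0 * Z_X` as soon as both tails `ν (≤ v0)`, `ν (≥ v0)` are `≥ q`: forcing everything
  through `v0` lowers the probability of `c` against ANY group by the factor `q` at most;
* `exists_mid`, `exists_median` : such sites exist, in every set of mass `> 2 q`;
* `Flat a k β e` : the mouth `β` of the tube is in one class for the group; `flat_of_CR` from the cross ratio of the last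
  block; `mouth_le` : the same for a mouth with any profile `A`;
* `hazard` : the probability of `first meeting = c` after the luck is at least `q² / ((1+e)² (1+δ)²)` times the old one;
* `move_le`, `move` : after the luck the pairs which met in `ρ` or not yet have mass at least
  `c * w_ρ / (w_ρ + P(met earlier))`.
-/

set_option autoImplicit false

namespace Pool.Agent.W_7d29a1_C1.Gate76

open Finset Pool.Agent.W_7d29a1_C1.Gini76 Pool.Agent.W_7d29a1_C1.CR76 Pool.Agent.W_7d29a1_C1.Basin76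

noncomputable section

variable {ι κ : Type*} [LinearOrder ι] [LinearOrder κ]

/-- `a / k` = non increasing + non decreasing. -/
def Spl (a k : κ → ℝ) : Prop :=
  ∃ a1 a2 : κ → ℝ, (∀ v, a v = a1 v + a2 v) ∧ (∀ v, 0 ≤ a1 v) ∧ (∀ v, 0 ≤ a2 v) ∧
    (∀ v v', v ≤ v' → a1 v' * k v ≤ a1 v * k v') ∧ (∀ v v', v ≤ v' → a2 v * k v' ≤ a2 v' * k v)

/-- Every group of masses at the row of `c`. -/
theorem spl_of_tp {K : ι → κ → ℝ} (h0 : ∀ x v, 0 ≤ K x v)
    (htp : ∀ x x' v v', x ≤ x' → v ≤ v' → K x v' * K x' v ≤ K x v * K x' v')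
    (Λ : Finset ι) {m : ι → ℝ} (hm : ∀ x ∈ Λ, 0 ≤ m x) (c : ι) :
    Spl (fun v => ∑ x ∈ Λ, m x * K x v) (K c) := by
  refine ⟨fun v => ∑ x ∈ Λ.filter (fun x => x ≤ c), m x * K x v,
    fun v => ∑ x ∈ Λ.filter (fun x => ¬ x ≤ c), m x * K x v, ?_, ?_, ?_, ?_, ?_⟩
  · intro v
    exact (sum_filter_add_sum_filter_not Λ (fun x => x ≤ c) _).symm
  · intro v
    exact sum_nonneg fun x hx => mul_nonneg (hm x (mem_of_mem_filter x hx)) (h0 x v)
  · intro v
    exact sum_nonneg fun x hx => mul_nonneg (hm x (mem_of_mem_filter x hx)) (h0 x v)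
  · intro v v' hv
    simp only [sum_mul]
    refine sum_le_sum fun x hx => ?_
    have hx' := mem_filter.1 hx
    have := htp x c v v' hx'.2 hv
    have h1 := hm x hx'.1
    nlinarith [mul_le_mul_of_nonneg_left this h1]
  · intro v v' hv
    simp only [sum_mul]
    refine sum_le_sum fun x hx => ?_
    have hx' := mem_filter.1 hx
    have := htp c x v v' (le_of_lt (not_le.1 hx'.2)) hv
    have h1 := hm x hx'.1
    nlinarith [mul_le_mul_of_nonneg_left this h1]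

/-- **THE GATE.** -/
theorem gate_le {a k : κ → ℝ} (h : Spl a k) (S : Finset κ) {B : κ → ℝ} (hB : ∀ v, 0 ≤ B v) (hk : ∀ v, 0 ≤ k v)
    {q : ℝ} {v0 : κ} (h1 : q * ∑ v ∈ S, k v * B v ≤ ∑ v ∈ S.filter (fun v => v ≤ v0), k v * B v)
    (h2 : q * ∑ v ∈ S, k v * B v ≤ ∑ v ∈ S.filter (fun v => v0 ≤ v), k v * B v) :
    q * (a v0 * ∑ v ∈ S, k v * B v) ≤ k v0 * ∑ v ∈ S, a v * B v := by
  obtain ⟨a1, a2, ha, p1, p2, m1, m2⟩ := h
  have e1 : a1 v0 * ∑ v ∈ S.filter (fun v => v ≤ v0), k v * B v ≤ k v0 * ∑ v ∈ S, a1 v * B v := by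
    calc a1 v0 * ∑ v ∈ S.filter (fun v => v ≤ v0), k v * B v
        = ∑ v ∈ S.filter (fun v => v ≤ v0), (a1 v0 * k v) * B v := by
          rw [mul_sum]; exact sum_congr rfl fun v _ => by ring
      _ ≤ ∑ v ∈ S.filter (fun v => v ≤ v0), (a1 v * k v0) * B v := by
          refine sum_le_sum fun v hv => ?_
          exact mul_le_mul_of_nonneg_right (m1 v v0 (mem_filter.1 hv).2) (hB v)
      _ ≤ ∑ v ∈ S, (a1 v * k v0) * B v :=
          sum_le_sum_of_subset_of_nonneg (filter_subset _ _) fun v _ _ =>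
            mul_nonneg (mul_nonneg (p1 v) (hk v0)) (hB v)
      _ = k v0 * ∑ v ∈ S, a1 v * B v := by
          rw [mul_sum]; exact sum_congr rfl fun v _ => by ring
  have e2 : a2 v0 * ∑ v ∈ S.filter (fun v => v0 ≤ v), k v * B v ≤ k v0 * ∑ v ∈ S, a2 v * B v := by
    calc a2 v0 * ∑ v ∈ S.filter (fun v => v0 ≤ v), k v * B v
        = ∑ v ∈ S.filter (fun v => v0 ≤ v), (a2 v0 * k v) * B v := by
          rw [mul_sum]; exact sum_congr rfl fun v _ => by ring
      _ ≤ ∑ v ∈ S.filter (fun v => v0 ≤ v), (a2 v * k v0) * B v := by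
          refine sum_le_sum fun v hv => ?_
          exact mul_le_mul_of_nonneg_right (m2 v0 v (mem_filter.1 hv).2) (hB v)
      _ ≤ ∑ v ∈ S, (a2 v * k v0) * B v :=
          sum_le_sum_of_subset_of_nonneg (filter_subset _ _) fun v _ _ =>
            mul_nonneg (mul_nonneg (p2 v) (hk v0)) (hB v)
      _ = k v0 * ∑ v ∈ S, a2 v * B v := by
          rw [mul_sum]; exact sum_congr rfl fun v _ => by ring
  have e3 : ∑ v ∈ S, a v * B v = (∑ v ∈ S, a1 v * B v) + ∑ v ∈ S, a2 v * B v := by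
    rw [← sum_add_distrib]; exact sum_congr rfl fun v _ => by rw [ha v]; ring
  have f1 := mul_le_mul_of_nonneg_left h1 (p1 v0)
  have f2 := mul_le_mul_of_nonneg_left h2 (p2 v0)
  rw [e3, ha v0]
  nlinarith

/-- Sites with two tails `≥ q` exist in every set of mass `> 2 q`. -/
theorem exists_mid (S G : Finset κ) (hG : G ⊆ S) {n : κ → ℝ} (hn : ∀ v ∈ S, 0 ≤ n v) {q : ℝ} (hq : 0 < q)
    (hT : 0 < ∑ v ∈ S, n v) (h : 2 * q * ∑ v ∈ S, n v < ∑ v ∈ G, n v) :
    ∃ v0 ∈ G, q * ∑ v ∈ S, n v ≤ ∑ v ∈ S.filter (fun v => v ≤ v0), n v ∧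
      q * ∑ v ∈ S, n v ≤ ∑ v ∈ S.filter (fun v => v0 ≤ v), n v := by
  classical
  by_contra hcon
  push Not at hcon
  set t : ℝ := q * ∑ v ∈ S, n v with ht
  have ht0 : 0 < t := mul_pos hq hT
  set G1 := G.filter (fun v0 => ∑ v ∈ S.filter (fun v => v ≤ v0), n v < t) with hG1
  set G2 := G.filter (fun v0 => ∑ v ∈ S.filter (fun v => v0 ≤ v), n v < t) with hG2
  have cov : G ⊆ G1 ∪ G2 := by
    intro v hv
    rw [mem_union, hG1, hG2, mem_filter, mem_filter]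
    by_cases h1 : t ≤ ∑ u ∈ S.filter (fun u => u ≤ v), n u
    · exact Or.inr ⟨hv, hcon v hv h1⟩
    · exact Or.inl ⟨hv, not_le.1 h1⟩
  have b1 : ∑ v ∈ G1, n v ≤ t := by
    rcases G1.eq_empty_or_nonempty with h0 | hne
    · rw [h0, sum_empty]; exact ht0.le
    · have hmem := G1.max'_mem hne
      have hlt := (mem_filter.1 hmem).2
      refine le_trans (sum_le_sum_of_subset_of_nonneg (fun v hv => ?_) fun v hv _ => hn v (mem_of_mem_filter v hv)) hlt.le
      rw [mem_filter]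
      exact ⟨hG (mem_of_mem_filter v hv), G1.le_max' v hv⟩
  have b2 : ∑ v ∈ G2, n v ≤ t := by
    rcases G2.eq_empty_or_nonempty with h0 | hne
    · rw [h0, sum_empty]; exact ht0.le
    · have hmem := G2.min'_mem hne
      have hlt := (mem_filter.1 hmem).2
      refine le_trans (sum_le_sum_of_subset_of_nonneg (fun v hv => ?_) fun v hv _ => hn v (mem_of_mem_filter v hv)) hlt.le
      rw [mem_filter]
      exact ⟨hG (mem_of_mem_filter v hv), G2.min'_le v hv⟩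
  have b3 : ∑ v ∈ G, n v ≤ ∑ v ∈ G1 ∪ G2, n v := by
    refine sum_le_sum_of_subset_of_nonneg cov fun v hv _ => hn v (hG ?_)
    rcases mem_union.1 hv with h' | h' <;> exact mem_of_mem_filter v h'
  have b4 : ∑ v ∈ G1 ∪ G2, n v ≤ ∑ v ∈ G1, n v + ∑ v ∈ G2, n v := by
    have := sum_union_inter (s₁ := G1) (s₂ := G2) (f := n)
    have h0 : 0 ≤ ∑ v ∈ G1 ∩ G2, n v := sum_nonneg fun v hv =>
      hn v (hG (mem_of_mem_filter v (mem_inter.1 hv).1))
    linarith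
  linarith

/-- The median. -/
theorem exists_median (S : Finset κ) {n : κ → ℝ} (hn : ∀ v ∈ S, 0 ≤ n v) (hT : 0 < ∑ v ∈ S, n v) :
    ∃ v0 ∈ S, 1 / 2 * ∑ v ∈ S, n v ≤ ∑ v ∈ S.filter (fun v => v ≤ v0), n v ∧
      1 / 2 * ∑ v ∈ S, n v ≤ ∑ v ∈ S.filter (fun v => v0 ≤ v), n v := by
  classical
  set T := S.filter (fun v0 => 1 / 2 * ∑ v ∈ S, n v ≤ ∑ v ∈ S.filter (fun v => v ≤ v0), n v) with hTd
  have hne : T.Nonempty := by
    have hS : S.Nonempty := by
      rcases S.eq_empty_or_nonempty with h | h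
      · rw [h, sum_empty] at hT; exact absurd hT (lt_irrefl _)
      · exact h
    refine ⟨S.max' hS, mem_filter.2 ⟨S.max'_mem hS, ?_⟩⟩
    rw [filter_true_of_mem fun v hv => S.le_max' v hv]
    linarith
  refine ⟨T.min' hne, (mem_filter.1 (T.min'_mem hne)).1, (mem_filter.1 (T.min'_mem hne)).2, ?_⟩
  set v0 := T.min' hne with hv0
  -- the mass strictly below `v0` is at most one half
  have hlow : ∑ v ∈ S.filter (fun v => v < v0), n v ≤ 1 / 2 * ∑ v ∈ S, n v := by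
    rcases (S.filter (fun v => v < v0)).eq_empty_or_nonempty with h | hne'
    · rw [h, sum_empty]; linarith
    · set u := (S.filter (fun v => v < v0)).max' hne' with hu
      have hum := (S.filter (fun v => v < v0)).max'_mem hne'
      have hu1 := mem_filter.1 hum
      have hnot : u ∉ T := fun hc => absurd (T.min'_le u hc) (not_le.2 hu1.2)
      have hlt : ∑ v ∈ S.filter (fun v => v ≤ u), n v < 1 / 2 * ∑ v ∈ S, n v := by
        by_contra hcc
        exact hnot (mem_filter.2 ⟨hu1.1, not_lt.1 hcc⟩)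
      refine le_trans (sum_le_sum_of_subset_of_nonneg (fun v hv => ?_) fun v hv _ => hn v (mem_of_mem_filter v hv)) hlt.le
      rw [mem_filter]
      exact ⟨mem_of_mem_filter v hv, (S.filter (fun v => v < v0)).le_max' v hv⟩
  have hsplit : ∑ v ∈ S, n v = ∑ v ∈ S.filter (fun v => v < v0), n v + ∑ v ∈ S.filter (fun v => v0 ≤ v), n v := by
    rw [← sum_filter_add_sum_filter_not S (fun v => v < v0)]
    congr 1
    exact sum_congr (filter_congr fun v _ => by rw [not_lt]) fun _ _ => rfl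
  linarith

/-! ### mouths -/

/-- The mouth `β` lies in one class of the group. -/
def Flat (a k : κ → ℝ) (β : Finset κ) (e : ℝ) : Prop := ∀ v ∈ β, ∀ v' ∈ β, a v * k v' ≤ (1 + e) * (a v' * k v)

/-- Composition with the last block: profiles `u`, `u'` at the beginning of the block, cross ratio of the block between the
corners at most `1 + e`. -/
theorem flat_of_CR {J : ι → κ → ℝ} {Y : Set ι} {X : Set κ} (h : TP J Y X) (S : Finset ι) (hS : ∀ y ∈ S, y ∈ Y)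
    {u u' : ι → ℝ} (hu : ∀ y ∈ S, 0 ≤ u y) (hu' : ∀ y ∈ S, 0 ≤ u' y) {ya yb : ι} {za zb : κ} (hya : ya ∈ Y)
    (hyb : yb ∈ Y) (hza : za ∈ X) (hzb : zb ∈ X) (hyab : ya ≤ yb) (hw : ∀ y ∈ S, ya ≤ y ∧ y ≤ yb) (β : Finset κ)
    (hβ : ∀ v ∈ β, v ∈ X ∧ za ≤ v ∧ v ≤ zb) {e : ℝ} (hc : CR J ya yb za zb ≤ 1 + e) :
    Flat (fun v => ∑ y ∈ S, u y * J y v) (fun v => ∑ y ∈ S, u' y * J y v) β e := by
  have conv : ∀ (w : ι → ℝ) (v : κ), ∑ y ∈ S, w y * J y v = pull S (fun v y => J y v) w v := fun w v => by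
    unfold pull; exact sum_congr rfl fun y _ => by ring
  intro v hv v' hv'
  obtain ⟨x1, l1, r1⟩ := hβ v hv
  obtain ⟨x2, l2, r2⟩ := hβ v' hv'
  simp only [conv]
  have step : ∀ (p p' : κ), p ∈ X → p' ∈ X → za ≤ p → p ≤ zb → za ≤ p' → p' ≤ zb → p ≤ p' →
      CR (fun v y => J y v) p p' ya yb ≤ 1 + e := by
    intro p p' hp hp' q1 _ _ q4 hpp
    rw [CR_flip]
    exact (h.CR_mono hya hya hyb hyb hza hp hp' hzb le_rfl hyab le_rfl q1 hpp q4).trans hc
  rcases le_total v v' with hvv | hvv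
  · exact cond_le h.flip S hS x1 x2 hya hyb hvv hyab hw u u' hu hu' (step v v' x1 x2 l1 r1 l2 r2 hvv)
  · exact cond_le' h.flip S hS x2 x1 hya hyb hvv hyab hw u u' hu hu' (step v' v x2 x1 l2 r2 l1 r1 hvv)

/-- Masses which arrive from outside the window of the block are a small part. -/
theorem flat_add {a a' k k' : κ → ℝ} {β : Finset κ} {e δ : ℝ} (h : Flat a k β e) (he : 0 ≤ e) (hδ : 0 ≤ δ) (hδ1 : δ < 1)
    (ha : ∀ v ∈ β, a v ≤ a' v) (ha' : ∀ v ∈ β, (1 - δ) * a' v ≤ a v)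
    (hk : ∀ v ∈ β, k v ≤ k' v) (hk' : ∀ v ∈ β, (1 - δ) * k' v ≤ k v)
    (ha0 : ∀ v ∈ β, 0 ≤ a' v) (hk0 : ∀ v ∈ β, 0 ≤ k' v) (ha1 : ∀ v ∈ β, 0 ≤ a v) (hk1 : ∀ v ∈ β, 0 ≤ k v) :
    ∀ v ∈ β, ∀ v' ∈ β, (1 - δ) ^ 2 * (a' v * k' v') ≤ (1 + e) * (a' v' * k' v) := by
  intro v hv v' hv'
  have d0 : 0 ≤ 1 - δ := by linarith
  calc (1 - δ) ^ 2 * (a' v * k' v') = ((1 - δ) * a' v) * ((1 - δ) * k' v') := by ring
    _ ≤ a v * k v' := mul_le_mul (ha' v hv) (hk' v' hv') (mul_nonneg d0 (hk0 v' hv')) (ha1 v hv)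
    _ ≤ (1 + e) * (a v' * k v) := h v hv v' hv'
    _ ≤ (1 + e) * (a' v' * k' v) := by
        have := mul_le_mul (ha v' hv') (hk v hv) (hk1 v hv) (ha0 v' hv')
        exact mul_le_mul_of_nonneg_left this (by linarith)

/-- **THE GATE WITH A MOUTH** of any profile `A`. -/
theorem mouth_le {a k : κ → ℝ} {S β : Finset κ} {A B : κ → ℝ} {q e : ℝ} {v0 : κ} (hv0 : v0 ∈ β) (hk0 : 0 < k v0)
    (hA : ∀ v ∈ β, 0 ≤ A v) (he : 0 ≤ e) (hZ : 0 ≤ q * ∑ v ∈ S, k v * B v) (hf : Flat a k β e)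
    (hkA : 0 ≤ ∑ v ∈ β, k v * A v)
    (hg : q * (a v0 * ∑ v ∈ S, k v * B v) ≤ k v0 * ∑ v ∈ S, a v * B v) :
    q * ((∑ v ∈ β, a v * A v) * ∑ v ∈ S, k v * B v) ≤ (1 + e) * ((∑ v ∈ β, k v * A v) * ∑ v ∈ S, a v * B v) := by
  have h1 : (∑ v ∈ β, a v * A v) * k v0 ≤ (1 + e) * (a v0 * ∑ v ∈ β, k v * A v) := by
    rw [sum_mul, mul_sum, mul_sum]
    refine sum_le_sum fun v hv => ?_
    have := mul_le_mul_of_nonneg_right (hf v hv v0 hv0) (hA v hv)
    nlinarith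
  refine le_of_mul_le_mul_right ?_ hk0
  calc q * ((∑ v ∈ β, a v * A v) * ∑ v ∈ S, k v * B v) * k v0
      = (q * ∑ v ∈ S, k v * B v) * ((∑ v ∈ β, a v * A v) * k v0) := by ring
    _ ≤ (q * ∑ v ∈ S, k v * B v) * ((1 + e) * (a v0 * ∑ v ∈ β, k v * A v)) :=
        mul_le_mul_of_nonneg_left h1 hZ
    _ = ((1 + e) * ∑ v ∈ β, k v * A v) * (q * (a v0 * ∑ v ∈ S, k v * B v)) := by ring
    _ ≤ ((1 + e) * ∑ v ∈ β, k v * A v) * (k v0 * ∑ v ∈ S, a v * B v) :=
        mul_le_mul_of_nonneg_left hg (mul_nonneg (by linarith) hkA)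
    _ = (1 + e) * ((∑ v ∈ β, k v * A v) * ∑ v ∈ S, a v * B v) * k v0 := by ring

/-! ### the hazard and the move -/

/-- **HAZARD.** `N` = pairs without meeting up to `c`; `Zc`, `ZM`, `ZR` = old totals, `kA`, `MA`, `RA` = weights through
the mouth, `ZM'`, `ZR'` = new totals. If the mouth costs `c` the factor `g` at most against each of the two groups and the two groups use
the mouth up to `1 + δ`, then the new probability of `first meeting = c` is at least `1 / (g² (1+δ)²)` times the old. -/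
theorem hazard {N Zc ZM ZR kA MA RA ZM' ZR' g δ : ℝ} (hN : 0 ≤ N) (hZc : 0 ≤ Zc) (hZM : 0 < ZM) (hZR : 0 < ZR)
    (hkA : 0 ≤ kA) (hMA : 0 < MA) (hRA : 0 < RA) (hg : 0 < g) (hδ : 0 ≤ δ)
    (h1 : MA * Zc ≤ g * (kA * ZM)) (h2 : RA * Zc ≤ g * (kA * ZR)) (h3 : ZM' ≤ (1 + δ) * MA) (h4 : ZR' ≤ (1 + δ) * RA)
    (hM' : 0 < ZM') (hR' : 0 < ZR') :
    N * Zc ^ 2 / (ZM * ZR) ≤ (g ^ 2 * (1 + δ) ^ 2) * (N * kA ^ 2 / (ZM' * ZR')) := by
  have a1 : Zc / ZM ≤ g * (kA / MA) := by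
    rw [div_le_iff₀ hZM]
    have : Zc = MA * Zc / MA := by field_simp
    rw [this]
    have e : g * (kA / MA) * ZM = g * (kA * ZM) / MA := by ring
    rw [e]
    exact div_le_div_of_nonneg_right h1 hMA.le
  have a2 : Zc / ZR ≤ g * (kA / RA) := by
    rw [div_le_iff₀ hZR]
    have : Zc = RA * Zc / RA := by field_simp
    rw [this]
    have e : g * (kA / RA) * ZR = g * (kA * ZR) / RA := by ring
    rw [e]
    exact div_le_div_of_nonneg_right h2 hRA.le
  have b1 : kA / MA ≤ (1 + δ) * (kA / ZM') := by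
    rw [div_le_iff₀ hMA]
    have e : (1 + δ) * (kA / ZM') * MA = kA * ((1 + δ) * MA) / ZM' := by ring
    rw [e, le_div_iff₀ hM']
    exact mul_le_mul_of_nonneg_left h3 hkA
  have b2 : kA / RA ≤ (1 + δ) * (kA / ZR') := by
    rw [div_le_iff₀ hRA]
    have e : (1 + δ) * (kA / ZR') * RA = kA * ((1 + δ) * RA) / ZR' := by ring
    rw [e, le_div_iff₀ hR']
    exact mul_le_mul_of_nonneg_left h4 hkA
  have c1 : Zc / ZM ≤ g * (1 + δ) * (kA / ZM') := by
    calc Zc / ZM ≤ g * (kA / MA) := a1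
      _ ≤ g * ((1 + δ) * (kA / ZM')) := mul_le_mul_of_nonneg_left b1 hg.le
      _ = _ := by ring
  have c2 : Zc / ZR ≤ g * (1 + δ) * (kA / ZR') := by
    calc Zc / ZR ≤ g * (kA / RA) := a2
      _ ≤ g * ((1 + δ) * (kA / ZR')) := mul_le_mul_of_nonneg_left b2 hg.le
      _ = _ := by ring
  have n2 : 0 ≤ Zc / ZR := div_nonneg hZc hZR.le
  have n1 : 0 ≤ g * (1 + δ) * (kA / ZM') := by positivity
  calc N * Zc ^ 2 / (ZM * ZR) = N * ((Zc / ZM) * (Zc / ZR)) := by field_simp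
    _ ≤ N * ((g * (1 + δ) * (kA / ZM')) * (g * (1 + δ) * (kA / ZR'))) := by
        exact mul_le_mul_of_nonneg_left (mul_le_mul c1 c2 n2 n1) hN
    _ = (g ^ 2 * (1 + δ) ^ 2) * (N * kA ^ 2 / (ZM' * ZR')) := by field_simp

/-- The earlier meeting points `r` (weights `N r`, masses `rA r` through the mouth, old totals `Z r`) against the contacts
`c` of the box `ρ` which have their gate in this mouth. -/
theorem move_le {σ σ' : Type*} (E : Finset σ) (Q : Finset σ') {Ne : σ → ℝ} {rA Ze : σ → ℝ} {Nc kA Zc : σ' → ℝ} {g : ℝ}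
    (hNe : ∀ r ∈ E, 0 ≤ Ne r) (hNc : ∀ c ∈ Q, 0 ≤ Nc c) (hrA : ∀ r ∈ E, 0 ≤ rA r) (hZc : ∀ c ∈ Q, 0 ≤ Zc c)
    (h : ∀ r ∈ E, ∀ c ∈ Q, rA r * Zc c ≤ g * (kA c * Ze r)) :
    (∑ r ∈ E, Ne r * rA r ^ 2) * (∑ c ∈ Q, Nc c * Zc c ^ 2) ≤
      g ^ 2 * ((∑ c ∈ Q, Nc c * kA c ^ 2) * ∑ r ∈ E, Ne r * Ze r ^ 2) := by
  rw [sum_mul_sum, sum_mul_sum, mul_sum, sum_comm]
  refine sum_le_sum fun c hc => ?_
  rw [mul_sum]
  refine sum_le_sum fun r hr => ?_
  have h1 := h r hr c hc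
  have h0 : 0 ≤ rA r * Zc c := mul_nonneg (hrA r hr) (hZc c hc)
  have h2 : (rA r * Zc c) ^ 2 ≤ (g * (kA c * Ze r)) ^ 2 := pow_le_pow_left₀ h0 h1 2
  have h3 := mul_le_mul_of_nonneg_left h2 (mul_nonneg (hNe r hr) (hNc c hc))
  nlinarith

/-- **MOVE.** `De` = pairs which met earlier, `Dρ` = pairs which met in `ρ`, both through the mouth; `Dall` = all pairs
through the mouth; `we`, `wρ` the old totals. After the luck the pairs through the tube which had not met before `ρ` have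
probability at least `wρ / (g² (1+δ)² (wρ + we))`. -/
theorem move {De Dρ MA RA ZM' ZR' we wρ g δ : ℝ} (hDe : 0 ≤ De) (hDρ : 0 ≤ Dρ) (hwρ : 0 < wρ) (hwe : 0 ≤ we)
    (hg : 1 ≤ g) (hδ : 0 ≤ δ) (h : De * wρ ≤ g ^ 2 * (Dρ * we)) (hall : De + Dρ ≤ MA * RA) (hMA : 0 < MA) (hRA : 0 < RA)
    (h3 : ZM' ≤ (1 + δ) * MA) (h4 : ZR' ≤ (1 + δ) * RA) (hM' : 0 < ZM') (hR' : 0 < ZR') :
    wρ / (wρ + we) ≤ (g ^ 2 * (1 + δ) ^ 2) * ((MA * RA - De) / (ZM' * ZR')) := by
  have hall0 : 0 < MA * RA := mul_pos hMA hRA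
  have g2 : 1 ≤ g ^ 2 := one_le_pow₀ hg
  have hs : 0 < wρ + we := by linarith
  -- `1 - De / Dall ≥ Dρ / (De + Dρ)` and so on
  have k1 : wρ * (MA * RA) ≤ g ^ 2 * (MA * RA - De) * (wρ + we) := by
    have t1 : 0 ≤ MA * RA - De - Dρ := by linarith
    -- `MA RA = De + Dρ + rest`
    have t2 : wρ * (De + Dρ) ≤ g ^ 2 * Dρ * (wρ + we) := by
      have : wρ * Dρ ≤ g ^ 2 * (Dρ * wρ) := by nlinarith [mul_nonneg hDρ hwρ.le]
      nlinarith
    have t3 : wρ * (MA * RA - De - Dρ) ≤ g ^ 2 * (MA * RA - De - Dρ) * (wρ + we) := by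
      have u1 : wρ * (MA * RA - De - Dρ) ≤ (wρ + we) * (MA * RA - De - Dρ) :=
        mul_le_mul_of_nonneg_right (by linarith) t1
      have u2 : 0 ≤ (wρ + we) * (MA * RA - De - Dρ) := mul_nonneg hs.le t1
      nlinarith
    nlinarith
  have k2 : ZM' * ZR' ≤ (1 + δ) ^ 2 * (MA * RA) := by
    calc ZM' * ZR' ≤ ((1 + δ) * MA) * ((1 + δ) * RA) := mul_le_mul h3 h4 hR'.le (by positivity)
      _ = _ := by ring
  have k3 : 0 ≤ MA * RA - De := by linarith
  rw [div_le_iff₀ hs]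
  have e : (g ^ 2 * (1 + δ) ^ 2) * ((MA * RA - De) / (ZM' * ZR')) * (wρ + we) =
      (g ^ 2 * (MA * RA - De) * (wρ + we)) * ((1 + δ) ^ 2 / (ZM' * ZR')) := by ring
  rw [e]
  have k4 : 1 / (MA * RA) ≤ (1 + δ) ^ 2 / (ZM' * ZR') := by
    rw [div_le_div_iff₀ hall0 (mul_pos hM' hR'), one_mul]
    exact k2
  calc wρ = (wρ * (MA * RA)) * (1 / (MA * RA)) := by field_simp
    _ ≤ (g ^ 2 * (MA * RA - De) * (wρ + we)) * (1 / (MA * RA)) :=
        mul_le_mul_of_nonneg_right k1 (by positivity)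
    _ ≤ (g ^ 2 * (MA * RA - De) * (wρ + we)) * ((1 + δ) ^ 2 / (ZM' * ZR')) :=
        mul_le_mul_of_nonneg_left k4 (mul_nonneg (mul_nonneg (by positivity) k3) hs.le)

end

end Pool.Agent.W_7d29a1_C1.Gate76
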