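import Pool.Agent.W_7d29a1_C1.Early30

/-!
MP_7d29a1_pr, attractor route, [C1] SEP: THE POINTWISE END OF `cmpA` AND `M3A` FROM THE GATE (helper76; gate = helper66, helper28)

`w` = old environment, `w'` = new one, they agree on the rows `< b`. `Co` = the core of the row `b`. A contact `c` has the
GATE with core mass `Z1` and constant `g` when at every `v` of the core
`(mass of X at v) Z1 ≤ g (total of X) (mass of the paths of c at v)`, for the two groups X (`Gg`) resp. for another contact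
X = d (`Gd`); both follow from the pointwise form over the sites of an earlier row `a` (`Gt`).
* `stay76`: if both groups go through the core in `w'` up to 1/8, then `n_c Z1² (Z' Z') ≤ 2 g² (Z Z) w'_c`;
* `one76`, `sum76`: the early contacts and the contacts of the cell: `n_c Z1² (e' + k') ≤ g² (e + k) w'_c(core)` and
  `k' (Z' Z') ≤ 4 w'_nb (e' + k')` (`e'`, `k'` = the weights through the core);
* `cell76`: `∑ over the gated contacts of n_c Z1(c)² / (e + k) ≤ 4 g² w'_nb / (Z' Z')`;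
* `new76`: the leak + the gain give the hypothesis on the new masses.
-/

set_option autoImplicit false

namespace Pool.Agent.W_7d29a1_C1.GD76

open Finset
open Pool.Agent.W_7d29a1_C1.K91 (Grp Box)
open Pool.Agent.W_7d29a1_C1.K91P hiding ZZ
open Pool.Agent.W_7d29a1_C1.U16 (ker ker_eq_zero ker_nonneg ker_congr fw_ker bw_ker ker_add)
open Pool.Agent.W_7d29a1_C1.SepA35
open Pool.Agent.W_7d29a1_C1.E30

noncomputable section

variable {w w' : ℕ → ℤ → ℝ} {p : ℕ → ℝ} {l r : ℤ → ℝ} {X lo hi : ℤ} {N : ℕ}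

/-- The profile `F` on the core. -/
def on (Co : Finset ℤ) (F : ℤ → ℝ) (v : ℤ) : ℝ := if v ∈ Co then F v else 0

/-- The profile `F` off the core. -/
def off (Co : Finset ℤ) (F : ℤ → ℝ) (v : ℤ) : ℝ := if v ∈ Co then 0 else F v

/-- The weight of the pairs before the contact `c`. -/
def nc (w : ℕ → ℤ → ℝ) (p : ℕ → ℝ) (l r : ℤ → ℝ) (c : ℕ × ℤ) : ℝ :=
  dp w p l r c.1 (c.2 - 1) c.2 * (p c.1 * (w c.1 (c.2 - 1) * w c.1 c.2))

/-- The mass of the paths of `c` at the site `v` of the row `b`. -/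
def kc (w : ℕ → ℤ → ℝ) (p : ℕ → ℝ) (b : ℕ) (c : ℕ × ℤ) (v : ℤ) : ℝ := ker w p (c.1 + 1) (b - (c.1 + 1)) c.2 v

/-- The total of the paths of `c`. -/
def zc (w : ℕ → ℤ → ℝ) (p : ℕ → ℝ) (N : ℕ) (c : ℕ × ℤ) : ℝ := bw w p (c.1 + 1) (N - (c.1 + 1)) c.2

/-- The gate of `c` against the group `m`. -/
def Gg (w : ℕ → ℤ → ℝ) (p : ℕ → ℝ) (m : ℤ → ℝ) (lo hi : ℤ) (N b : ℕ) (Co : Finset ℤ) (c : ℕ × ℤ) (Z1 g : ℝ) : Prop :=
  ∀ v ∈ Co, fw w p m b v * Z1 ≤ g * (ZZ w p m lo hi N * kc w p b c v)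

/-- The gate of `c` against the contact `d`. -/
def Gd (w : ℕ → ℤ → ℝ) (p : ℕ → ℝ) (N b : ℕ) (Co : Finset ℤ) (c : ℕ × ℤ) (Z1 g : ℝ) (d : ℕ × ℤ) : Prop :=
  ∀ v ∈ Co, kc w p b d v * Z1 ≤ g * (zc w p N d * kc w p b c v)

/-- The gate of `c` against all the sites of the row `a`. -/
def Gt (w : ℕ → ℤ → ℝ) (p : ℕ → ℝ) (N a b : ℕ) (Co : Finset ℤ) (c : ℕ × ℤ) (Z1 g : ℝ) : Prop :=
  ∀ y : ℤ, ∀ v ∈ Co, ker w p a (b - a) y v * Z1 ≤ g * (bw w p a (N - a) y * kc w p b c v)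

theorem on_nonneg {Co : Finset ℤ} {F : ℤ → ℝ} (hF : ∀ v, 0 ≤ F v) (v : ℤ) : 0 ≤ on Co F v := by
  unfold on
  split_ifs
  · exact hF v
  · exact le_rfl

theorem off_nonneg {Co : Finset ℤ} {F : ℤ → ℝ} (hF : ∀ v, 0 ≤ F v) (v : ℤ) : 0 ≤ off Co F v := by
  unfold off
  split_ifs
  · exact le_rfl
  · exact hF v

theorem on_le {Co : Finset ℤ} {F : ℤ → ℝ} (hF : ∀ v, 0 ≤ F v) (v : ℤ) : on Co F v ≤ F v := by
  unfold on
  split_ifs
  · exact le_rfl
  · exact hF v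

theorem on_add_off (Co : Finset ℤ) (F : ℤ → ℝ) (v : ℤ) : on Co F v + off Co F v = F v := by
  unfold on off
  split_ifs <;> simp

theorem nc_nonneg (hw : ∀ k y, 0 < w k y) (hp : ∀ k, 0 < p k) (h : Grp l r X) (c : ℕ × ℤ) : 0 ≤ nc w p l r c :=
  mul_nonneg (dp_nonneg hw hp h c.1 _ _ (by omega)) (mul_nonneg (hp _).le (mul_nonneg (hw _ _).le (hw _ _).le))

theorem kc_nonneg (hw : ∀ k y, 0 < w k y) (hp : ∀ k, 0 < p k) (b : ℕ) (c : ℕ × ℤ) (v : ℤ) : 0 ≤ kc w p b c v :=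
  ker_nonneg hw hp _ _ _ _

theorem zc_pos (hw : ∀ k y, 0 < w k y) (hp : ∀ k, 0 < p k) (c : ℕ × ℤ) : 0 < zc w p N c := bw_pos hw hp _ _ _

theorem ww_nc (c : ℕ × ℤ) : ww w p l r N c = nc w p l r c * zc w p N c ^ 2 := by
  unfold ww nc zc
  ring

/-- The mass of the paths of `c` with the end profile `F` on the core. -/
theorem bf_on {b : ℕ} {Co : Finset ℤ} (F : ℤ → ℝ) (c : ℕ × ℤ) :
    bf w p (on Co F) (c.1 + 1) (b - (c.1 + 1)) c.2 = ∑ v ∈ Co, kc w p b c v * F v := by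
  rw [bf_ker]
  have e1 : ∑ v ∈ Icc c.2 (c.2 + ((b - (c.1 + 1) : ℕ) : ℤ)), ker w p (c.1 + 1) (b - (c.1 + 1)) c.2 v * on Co F v =
      ∑ v ∈ Icc c.2 (c.2 + ((b - (c.1 + 1) : ℕ) : ℤ)) ∪ Co, kc w p b c v * on Co F v := by
    refine sum_subset subset_union_left fun v _ hv => ?_
    have h1 : ker w p (c.1 + 1) (b - (c.1 + 1)) c.2 v = 0 := by
      rw [mem_Icc] at hv
      exact ker_eq_zero _ _ _ _ (by omega)
    show ker w p (c.1 + 1) (b - (c.1 + 1)) c.2 v * on Co F v = 0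
    rw [h1, zero_mul]
  have e2 : ∑ v ∈ Co, kc w p b c v * F v = ∑ v ∈ Icc c.2 (c.2 + ((b - (c.1 + 1) : ℕ) : ℤ)) ∪ Co, kc w p b c v * on Co F v := by
    rw [← sum_subset (subset_union_right (s₁ := Icc c.2 (c.2 + ((b - (c.1 + 1) : ℕ) : ℤ))) (s₂ := Co))]
    · exact sum_congr rfl fun v hv => by rw [on, if_pos hv]
    · intro v _ hv
      rw [on, if_neg hv, mul_zero]
  rw [e1, e2]

/-- The weight through the core. -/
def wc (w : ℕ → ℤ → ℝ) (p : ℕ → ℝ) (l r : ℤ → ℝ) (b : ℕ) (Co : Finset ℤ) (F : ℤ → ℝ) (c : ℕ × ℤ) : ℝ :=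
  nc w p l r c * (∑ v ∈ Co, kc w p b c v * F v) ^ 2

theorem wc_cw {b : ℕ} {Co : Finset ℤ} (F : ℤ → ℝ) (c : ℕ × ℤ) : wc w p l r b Co F c = cw w p l r b (on Co F) (on Co F) c := by
  unfold wc cw nc
  rw [bf_on]
  ring

theorem wc_nonneg (hw : ∀ k y, 0 < w k y) (hp : ∀ k, 0 < p k) (h : Grp l r X) (b : ℕ) (Co : Finset ℤ) (F : ℤ → ℝ) (c : ℕ × ℤ) :
    0 ≤ wc w p l r b Co F c := mul_nonneg (nc_nonneg hw hp h c) (sq_nonneg _)

/-- Everything with the profile `F`, against the part through the core. -/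
theorem split76 (hw : ∀ k y, 0 < w k y) (hp : ∀ k, 0 < p k) (h : Box l r X lo hi N) {b : ℕ} (hb : b ≤ N) {S : Finset (ℕ × ℤ)}
    (hS : ∀ c ∈ S, c.1 < b ∧ c.2 ∈ Icc lo hi) {Co : Finset ℤ} {F : ℤ → ℝ} (hF : ∀ v, 0 ≤ F v) :
    ∑ c ∈ S, cw w p l r b F F c ≤ ∑ c ∈ S, wc w p l r b Co F c + 2 * (s1 w p l lo hi b (off Co F) * s1 w p r lo hi b F) := by
  have ho := off_nonneg (Co := Co) hF
  have h1 := cw_sum_le hw hp h hb hS ho hF
  have h2 : ∀ c ∈ S, cw w p l r b F F c ≤ wc w p l r b Co F c + 2 * cw w p l r b (off Co F) F c := by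
    intro c _
    have e : F = fun u => on Co F u + off Co F u := funext fun u => (on_add_off Co F u).symm
    have e1 := cw_add (w := w) (p := p) (l := l) (r := r) b (on Co F) (off Co F) F c
    rw [← e] at e1
    have e2 := cw_add (w := w) (p := p) (l := l) (r := r) b (on Co F) (off Co F) (on Co F) c
    rw [← e] at e2
    have e3 := cw_comm (w := w) (p := p) (l := l) (r := r) b (on Co F) F c
    have e4 : cw w p l r b (off Co F) (on Co F) c ≤ cw w p l r b (off Co F) F c :=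
      cw_mono hw hp h.g b (on_nonneg hF) ho (fun _ => le_rfl) (on_le hF) c
    rw [wc_cw]
    linarith
  calc _ ≤ ∑ c ∈ S, (wc w p l r b Co F c + 2 * cw w p l r b (off Co F) F c) := sum_le_sum h2
    _ = ∑ c ∈ S, wc w p l r b Co F c + 2 * ∑ c ∈ S, cw w p l r b (off Co F) F c := by rw [sum_add_distrib, mul_sum]
    _ ≤ _ := by linarith

/-- The mass of a group off the core. -/
theorem s1_off {b : ℕ} (m F : ℤ → ℝ) (Co : Finset ℤ) :
    s1 w p m lo hi b (off Co F) = ∑ v ∈ Icc lo hi \ Co, fw w p m b v * F v := by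
  unfold s1
  rw [← sum_sdiff (filter_subset (fun v => v ∈ Co) (Icc lo hi))]
  have e1 : ∑ v ∈ (Icc lo hi).filter (fun v => v ∈ Co), fw w p m b v * off Co F v = 0 :=
    sum_eq_zero fun v hv => by rw [off, if_pos (mem_filter.1 hv).2, mul_zero]
  rw [e1, add_zero]
  have e2 : Icc lo hi \ (Icc lo hi).filter (fun v => v ∈ Co) = Icc lo hi \ Co := by
    ext v
    simp only [mem_sdiff, mem_filter]
    tauto
  rw [e2]
  exact sum_congr rfl fun v hv => by rw [off, if_neg (mem_sdiff.1 hv).2]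

/-! ### Two environments -/

section Two

variable {b : ℕ} {Co : Finset ℤ}

theorem nc_congr76 (hag : ∀ k, k < b → ∀ y, w k y = w' k y) {c : ℕ × ℤ} (hc : c.1 < b) : nc w p l r c = nc w' p l r c := by
  have h1 : ∀ (m : ℤ → ℝ) y, fw w p m c.1 y = fw w' p m c.1 y := fun m y =>
    fw_congr c.1 (fun i hi y => hag i (by omega) y) y
  unfold nc dp
  rw [h1, h1, h1, h1, hag c.1 (by omega), hag c.1 (by omega)]

theorem kc_congr76 (hag : ∀ k, k < b → ∀ y, w k y = w' k y) {c : ℕ × ℤ} (hc : c.1 < b) (v : ℤ) : kc w p b c v = kc w' p b c v :=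
  ker_congr _ _ _ _ fun i _ hi => ⟨funext fun y => hag i (by omega) y, rfl⟩

theorem wc_congr76 (hag : ∀ k, k < b → ∀ y, w k y = w' k y) (F : ℤ → ℝ) {c : ℕ × ℤ} (hc : c.1 < b) :
    wc w p l r b Co F c = wc w' p l r b Co F c := by
  unfold wc
  rw [nc_congr76 hag hc]
  simp only [kc_congr76 hag hc]

/-- `Z' Z1 ≤ (8/7) g Z k'` for one group. -/
theorem grp76 (hw' : ∀ k y, 0 < w' k y) (hp : ∀ k, 0 < p k)
    (hag : ∀ k, k < b → ∀ y, w k y = w' k y) (hCo : Co ⊆ Icc lo hi) {m : ℤ → ℝ}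
    (hz : s1 w' p m lo hi b (bw w' p b (N - b)) = ZZ w' p m lo hi N) {c : ℕ × ℤ} {Z1 g : ℝ} (hZ1 : 0 ≤ Z1)
    (gate : Gg w p m lo hi N b Co c Z1 g)
    (new : 8 * mA w' p m N b (Icc lo hi \ Co) ≤ ZZ w' p m lo hi N) :
    7 / 8 * ZZ w' p m lo hi N * Z1 ≤ g * (ZZ w p m lo hi N * ∑ v ∈ Co, kc w p b c v * bw w' p b (N - b) v) := by
  have e1 : ZZ w' p m lo hi N = mA w' p m N b Co + mA w' p m N b (Icc lo hi \ Co) := by
    rw [← hz]
    unfold s1 mA
    rw [add_comm]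
    exact (sum_sdiff hCo).symm
  have h1 : 7 / 8 * ZZ w' p m lo hi N ≤ mA w' p m N b Co := by linarith
  refine (mul_le_mul_of_nonneg_right h1 hZ1).trans ?_
  unfold mA
  rw [sum_mul, mul_sum, mul_sum]
  refine sum_le_sum fun v hv => ?_
  have h2 := gate v hv
  have h3 : fw w' p m b v = fw w p m b v := (fw_congr b (fun i hi y => hag i (by omega) y) v).symm
  have h4 := mul_le_mul_of_nonneg_right h2 (bw_pos hw' hp (N - b) b v).le
  rw [h3]
  calc fw w p m b v * bw w' p b (N - b) v * Z1 = fw w p m b v * Z1 * bw w' p b (N - b) v := by ring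
    _ ≤ _ := h4
    _ = _ := by ring

/-- The part through the core is at most everything. -/
theorem wc_le76 (hw' : ∀ k y, 0 < w' k y) (hp : ∀ k, 0 < p k) (h : Grp l r X) (hb : b ≤ N) {c : ℕ × ℤ} (hc : c.1 < b) :
    wc w' p l r b Co (bw w' p b (N - b)) c ≤ ww w' p l r N c := by
  rw [wc_cw, ww_cw hb hc]
  have hF : ∀ v, 0 ≤ bw w' p b (N - b) v := fun v => (bw_pos hw' hp _ _ _).le
  exact cw_mono hw' hp h b (on_nonneg hF) hF (on_le hF) (on_le hF) c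

/-- **THE CONTACT STAYS.** -/
theorem stay76 (hw : ∀ k y, 0 < w k y) (hw' : ∀ k y, 0 < w' k y) (hp : ∀ k, 0 < p k) (h : Box l r X lo hi N) (hb : b ≤ N)
    (hag : ∀ k, k < b → ∀ y, w k y = w' k y) (hCo : Co ⊆ Icc lo hi) {c : ℕ × ℤ} (hc : c.1 < b) {Z1 g : ℝ} (hZ1 : 0 ≤ Z1)
    (gl : Gg w p l lo hi N b Co c Z1 g) (gr : Gg w p r lo hi N b Co c Z1 g)
    (newl : 8 * mA w' p l N b (Icc lo hi \ Co) ≤ ZZ w' p l lo hi N)
    (newr : 8 * mA w' p r N b (Icc lo hi \ Co) ≤ ZZ w' p r lo hi N) :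
    nc w p l r c * Z1 ^ 2 * (ZZ w' p l lo hi N * ZZ w' p r lo hi N) ≤
      2 * g ^ 2 * (ZZ w p l lo hi N * ZZ w p r lo hi N) * ww w' p l r N c := by
  have zl := grp76 hw' hp hag hCo (s1_ZZ (w := w') (p := p) h hb).1 hZ1 gl newl
  have zr := grp76 hw' hp hag hCo (s1_ZZ (w := w') (p := p) h hb).2 hZ1 gr newr
  have n0 := nc_nonneg hw hp h.g c
  have z1 := ZZ_nonneg (lo := lo) (hi := hi) (N := N) hw' hp h.g.l0
  have z2 := ZZ_nonneg (lo := lo) (hi := hi) (N := N) hw' hp h.g.r0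
  have z3 := ZZ_nonneg (lo := lo) (hi := hi) (N := N) hw hp h.g.l0
  have z4 := ZZ_nonneg (lo := lo) (hi := hi) (N := N) hw hp h.g.r0
  obtain ⟨K, hK⟩ : ∃ K, K = ∑ v ∈ Co, kc w p b c v * bw w' p b (N - b) v := ⟨_, rfl⟩
  rw [← hK] at zl zr
  have h1 := mul_le_mul zl zr (mul_nonneg (mul_nonneg (by norm_num) z2) hZ1) ((mul_nonneg (mul_nonneg (by norm_num) z1) hZ1).trans zl)
  have h2 := mul_le_mul_of_nonneg_left h1 n0
  have h3 : nc w p l r c * K ^ 2 ≤ ww w' p l r N c := by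
    have := wc_le76 (Co := Co) hw' hp h.g hb hc
    rw [← wc_congr76 hag _ hc] at this
    rw [hK]
    exact this
  have h4 := mul_le_mul_of_nonneg_left h3 (mul_nonneg (sq_nonneg g) (mul_nonneg z3 z4))
  have h5 : 0 ≤ nc w p l r c * Z1 ^ 2 * (ZZ w' p l lo hi N * ZZ w' p r lo hi N) :=
    mul_nonneg (mul_nonneg n0 (sq_nonneg _)) (mul_nonneg z1 z2)
  nlinarith [h2, h4, h5]

/-- The gate of `c` against `d`: the new masses through the core. -/
theorem gd76 (hw' : ∀ k y, 0 < w' k y) (hp : ∀ k, 0 < p k) {c d : ℕ × ℤ} {Z1 g : ℝ} (gate : Gd w p N b Co c Z1 g d) :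
    (∑ v ∈ Co, kc w p b d v * bw w' p b (N - b) v) * Z1 ≤
      g * (zc w p N d * ∑ v ∈ Co, kc w p b c v * bw w' p b (N - b) v) := by
  rw [sum_mul, mul_sum, mul_sum]
  refine sum_le_sum fun v hv => ?_
  have h4 := mul_le_mul_of_nonneg_right (gate v hv) (bw_pos hw' hp (N - b) b v).le
  calc kc w p b d v * bw w' p b (N - b) v * Z1 = kc w p b d v * Z1 * bw w' p b (N - b) v := by ring
    _ ≤ _ := h4
    _ = _ := by ring

/-- **ONE GATED CONTACT OF THE CELL** against a set `S` of contacts (the early ones and the cell). -/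
theorem one76 (hw : ∀ k y, 0 < w k y) (hw' : ∀ k y, 0 < w' k y) (hp : ∀ k, 0 < p k) (h : Grp l r X)
    {c : ℕ × ℤ} {S : Finset (ℕ × ℤ)} {Z1 g : ℝ} (hZ1 : 0 ≤ Z1)
    (gate : ∀ d ∈ S, Gd w p N b Co c Z1 g d) :
    nc w p l r c * Z1 ^ 2 * ∑ d ∈ S, wc w p l r b Co (bw w' p b (N - b)) d ≤
      g ^ 2 * (∑ d ∈ S, ww w p l r N d) * wc w p l r b Co (bw w' p b (N - b)) c := by
  have n0 := nc_nonneg hw hp h c
  rw [mul_sum, mul_sum, sum_mul]
  refine sum_le_sum fun d hd => ?_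
  have h1 := gd76 hw' hp (gate d hd)
  have n1 := nc_nonneg hw hp h d
  have s0 : 0 ≤ ∑ v ∈ Co, kc w p b d v * bw w' p b (N - b) v :=
    sum_nonneg fun v _ => mul_nonneg (kc_nonneg hw hp b d v) (bw_pos hw' hp _ _ _).le
  have h2 := pow_le_pow_left₀ (mul_nonneg s0 hZ1) h1 2
  have h3 := mul_le_mul_of_nonneg_left h2 (mul_nonneg n0 n1)
  rw [ww_nc]
  unfold wc
  calc _ = nc w p l r c * nc w p l r d * ((∑ v ∈ Co, kc w p b d v * bw w' p b (N - b) v) * Z1) ^ 2 := by ring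
    _ ≤ _ := h3
    _ = _ := by ring

/-- **THE SUM OVER THE CELL.** -/
theorem sum76 (hw : ∀ k y, 0 < w k y) (hw' : ∀ k y, 0 < w' k y) (hp : ∀ k, 0 < p k) (h : Box l r X lo hi N)
    {low e : ℕ} (hlb : low ≤ b) (hbe : b ≤ e) (he : e ≤ N)
    (hag : ∀ k, k < b → ∀ y, w k y = w' k y) {κ nb : Finset (ℕ × ℤ)}
    (hκ : ∀ c ∈ κ, c.1 < b ∧ c.2 ∈ Icc lo hi) (hκn : κ ⊆ nb)
    (new : 16 * mA w' p l N b (Icc lo hi \ Co) ≤ ZZ w' p l lo hi N)
    (met : 16 * nm w' p l r lo hi N e ≤ ZZ w' p l lo hi N * ZZ w' p r lo hi N)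
    (col : 16 * ∑ i ∈ Ico low e, ∑ q ∈ (Icc lo hi).filter (fun q => (i, q) ∉ nb),
      fw w' p l (i + 1) q * bw w' p (i + 1) (N - (i + 1)) q ≤ ZZ w' p l lo hi N) :
    (∑ c ∈ κ, wc w p l r b Co (bw w' p b (N - b)) c) * (ZZ w' p l lo hi N * ZZ w' p r lo hi N) ≤
      2 * (∑ c ∈ nb, ww w' p l r N c) *
        (∑ c ∈ range low ×ˢ Icc lo hi, wc w p l r b Co (bw w' p b (N - b)) c +
          ∑ c ∈ κ, wc w p l r b Co (bw w' p b (N - b)) c) := by
  have hb : b ≤ N := hbe.trans he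
  have hF' : ∀ v, 0 ≤ bw w' p b (N - b) v := fun v => (bw_pos hw' hp _ _ _).le
  have hZl := ZZ_nonneg (lo := lo) (hi := hi) (N := N) hw' hp h.g.l0
  have hZr := ZZ_nonneg (lo := lo) (hi := hi) (N := N) hw' hp h.g.r0
  obtain ⟨Es, hEs⟩ : ∃ Es : Finset (ℕ × ℤ), Es = range low ×ˢ Icc lo hi := ⟨_, rfl⟩
  have hE : ∀ c ∈ Es, c.1 < b ∧ c.2 ∈ Icc lo hi := by
    intro c hc
    rw [hEs, mem_product, mem_range] at hc
    exact ⟨by omega, hc.2⟩
  rw [← hEs]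
  have wwb : ∀ c : ℕ × ℤ, c.1 < b → ww w' p l r N c = cw w' p l r b (bw w' p b (N - b)) (bw w' p b (N - b)) c :=
    fun c hc => ww_cw hb hc
  -- the early pairs
  have early : ∑ c ∈ Es, ww w' p l r N c ≤ ∑ c ∈ Es, wc w p l r b Co (bw w' p b (N - b)) c +
      ZZ w' p l lo hi N * ZZ w' p r lo hi N / 8 := by
    have h1 := split76 hw' hp h hb hE (Co := Co) hF'
    have h3 : s1 w' p r lo hi b (bw w' p b (N - b)) = ZZ w' p r lo hi N := (s1_ZZ (w := w') (p := p) h hb).2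
    have h4 : s1 w' p l lo hi b (off Co (bw w' p b (N - b))) = mA w' p l N b (Icc lo hi \ Co) := s1_off _ _ _
    rw [h3, h4, ← sum_congr rfl fun c hc => wwb c (hE c hc).1,
      ← sum_congr rfl fun c hc => wc_congr76 (Co := Co) hag (bw w' p b (N - b)) (hE c hc).1] at h1
    have h6 := mul_le_mul_of_nonneg_right (show mA w' p l N b (Icc lo hi \ Co) ≤ ZZ w' p l lo hi N / 16 by linarith) hZr
    linarith
  -- all pairs
  have all : ZZ w' p l lo hi N * ZZ w' p r lo hi N ≤ ∑ c ∈ Es, ww w' p l r N c + ∑ c ∈ nb, ww w' p l r N c +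
      ZZ w' p l lo hi N * ZZ w' p r lo hi N / 8 := by
    have h1 := nm_total (w := w') (p := p) h e he
    have h2 : ∑ i ∈ range e, mt w' p l r lo hi N i = ∑ c ∈ Es, ww w' p l r N c +
        ∑ i ∈ Ico low e, mt w' p l r lo hi N i := by
      rw [hEs, sum_product, range_eq_Ico, range_eq_Ico,
        ← sum_Ico_consecutive (fun i => mt w' p l r lo hi N i) (Nat.zero_le low) (hlb.trans hbe)]
      rfl
    have h3 : ∑ i ∈ Ico low e, mt w' p l r lo hi N i ≤ ∑ c ∈ nb, ww w' p l r N c +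
        (∑ i ∈ Ico low e, ∑ q ∈ (Icc lo hi).filter (fun q => (i, q) ∉ nb),
          fw w' p l (i + 1) q * bw w' p (i + 1) (N - (i + 1)) q) * ZZ w' p r lo hi N := by
      have e1 : ∀ i ∈ Ico low e, mt w' p l r lo hi N i ≤
          ∑ q ∈ (Icc lo hi).filter (fun q => (i, q) ∈ nb), ww w' p l r N (i, q) +
          (∑ q ∈ (Icc lo hi).filter (fun q => (i, q) ∉ nb),
            fw w' p l (i + 1) q * bw w' p (i + 1) (N - (i + 1)) q) * ZZ w' p r lo hi N := by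
        intro i hi'
        rw [mem_Ico] at hi'
        rw [mt_ww, ← sum_filter_add_sum_filter_not (Icc lo hi) (fun q => (i, q) ∈ nb)]
        exact add_le_add le_rfl (col_le hw' hp h (by omega) (filter_subset _ _))
      refine (sum_le_sum e1).trans ?_
      rw [sum_add_distrib, ← sum_mul]
      refine add_le_add ?_ le_rfl
      calc ∑ i ∈ Ico low e, ∑ q ∈ (Icc lo hi).filter (fun q => (i, q) ∈ nb), ww w' p l r N (i, q) =
            ∑ c ∈ (Ico low e ×ˢ Icc lo hi).filter (fun c => c ∈ nb), ww w' p l r N c := by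
            rw [sum_filter, sum_product]
            refine sum_congr rfl fun i _ => ?_
            rw [sum_filter]
        _ ≤ _ := sum_le_sum_of_subset_of_nonneg (fun c hc => (mem_filter.1 hc).2) fun c _ _ =>
            ww_nonneg hw' hp h.g c
    have h4 := mul_le_mul_of_nonneg_right (show ∑ i ∈ Ico low e, ∑ q ∈ (Icc lo hi).filter (fun q => (i, q) ∉ nb),
      fw w' p l (i + 1) q * bw w' p (i + 1) (N - (i + 1)) q ≤ ZZ w' p l lo hi N / 16 by linarith) hZr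
    have h5 : (∑ x ∈ Icc lo hi, l x * bw w' p 0 N x) * ∑ y ∈ Icc lo hi, r y * bw w' p 0 N y =
        ZZ w' p l lo hi N * ZZ w' p r lo hi N := rfl
    rw [h5] at h1
    linarith
  have k1 : ∑ c ∈ κ, wc w p l r b Co (bw w' p b (N - b)) c ≤ ∑ c ∈ nb, ww w' p l r N c := by
    refine le_trans (sum_le_sum fun c hc => ?_) (sum_le_sum_of_subset_of_nonneg hκn fun c _ _ => ww_nonneg hw' hp h.g c)
    rw [wc_congr76 hag _ (hκ c hc).1]
    exact wc_le76 hw' hp h.g hb (hκ c hc).1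
  have e0 : 0 ≤ ∑ c ∈ Es, wc w p l r b Co (bw w' p b (N - b)) c := sum_nonneg fun c _ => wc_nonneg hw hp h.g b Co _ c
  have k0 : 0 ≤ ∑ c ∈ κ, wc w p l r b Co (bw w' p b (N - b)) c := sum_nonneg fun c _ => wc_nonneg hw hp h.g b Co _ c
  have W0 : 0 ≤ ∑ c ∈ nb, ww w' p l r N c := sum_nonneg fun c _ => ww_nonneg hw' hp h.g c
  obtain ⟨e', he'⟩ : ∃ e', e' = ∑ c ∈ Es, wc w p l r b Co (bw w' p b (N - b)) c := ⟨_, rfl⟩
  obtain ⟨k', hk'⟩ : ∃ k', k' = ∑ c ∈ κ, wc w p l r b Co (bw w' p b (N - b)) c := ⟨_, rfl⟩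
  obtain ⟨W', hW'⟩ : ∃ W', W' = ∑ c ∈ nb, ww w' p l r N c := ⟨_, rfl⟩
  obtain ⟨Z', hZ'⟩ : ∃ Z', Z' = ZZ w' p l lo hi N * ZZ w' p r lo hi N := ⟨_, rfl⟩
  rw [← he'] at e0 early
  rw [← hk'] at k0 k1
  rw [← hW'] at W0 k1 all
  rw [← hZ'] at early all
  have Z0 : 0 ≤ Z' := hZ' ▸ mul_nonneg hZl hZr
  rw [← he', ← hk', ← hW', ← hZ']
  -- `3/4 Z' ≤ e' + W'`
  have h7 : 3 / 4 * Z' ≤ e' + W' := by linarith
  -- `k' Z' ≤ (4/3) (k' e' + k' W')`
  have h8 := mul_le_mul_of_nonneg_left h7 k0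
  have h9 : k' * e' ≤ W' * e' := mul_le_mul_of_nonneg_right k1 e0
  have h10 : 0 ≤ W' * k' := mul_nonneg W0 k0
  have h11 : 0 ≤ W' * e' := mul_nonneg W0 e0
  nlinarith

/-- The share of the contact `c` in the weights through the core of the early contacts and of the cell. -/
def Rc (w : ℕ → ℤ → ℝ) (p : ℕ → ℝ) (l r : ℤ → ℝ) (lo hi : ℤ) (N low b : ℕ) (Co : Finset ℤ) (κ : Finset (ℕ × ℤ)) (c : ℕ × ℤ) : ℝ :=
  wc w p l r b Co (bw w p b (N - b)) c / (∑ d ∈ range low ×ˢ Icc lo hi, wc w p l r b Co (bw w p b (N - b)) d +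
    ∑ d ∈ κ, wc w p l r b Co (bw w p b (N - b)) d)

theorem Rc_nonneg (hw : ∀ k y, 0 < w k y) (hp : ∀ k, 0 < p k) (h : Grp l r X) (low : ℕ) (κ : Finset (ℕ × ℤ)) (c : ℕ × ℤ) :
    0 ≤ Rc w p l r lo hi N low b Co κ c :=
  div_nonneg (wc_nonneg hw hp h _ _ _ _) (add_nonneg (sum_nonneg fun _ _ => wc_nonneg hw hp h _ _ _ _)
    (sum_nonneg fun _ _ => wc_nonneg hw hp h _ _ _ _))

/-- **ONE GATED CONTACT**, old against new. -/
theorem le_Rc (hw : ∀ k y, 0 < w k y) (hw' : ∀ k y, 0 < w' k y) (hp : ∀ k, 0 < p k) (h : Grp l r X)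
    (hag : ∀ k, k < b → ∀ y, w k y = w' k y) {low : ℕ} (hlb : low ≤ b) {κ : Finset (ℕ × ℤ)} (hκ : ∀ c ∈ κ, c.1 < b)
    {c : ℕ × ℤ} (hc : c ∈ κ) {Z1 g : ℝ} (hZ1 : 0 ≤ Z1) (hpos : 0 < Z1 → 0 < ∑ v ∈ Co, kc w p b c v)
    (gate : ∀ d : ℕ × ℤ, (d.1 < low ∧ d.2 ∈ Icc lo hi) ∨ d ∈ κ → Gd w p N b Co c Z1 g d) :
    nc w p l r c * Z1 ^ 2 / (∑ d ∈ range low ×ˢ Icc lo hi, ww w p l r N d + ∑ d ∈ κ, ww w p l r N d) ≤
      g ^ 2 * Rc w' p l r lo hi N low b Co κ c := by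
  have n0 := nc_nonneg hw hp h c
  have hF' : ∀ v, 0 ≤ bw w' p b (N - b) v := fun v => (bw_pos hw' hp _ _ _).le
  have hE : ∀ d ∈ range low ×ˢ Icc lo hi, d.1 < low ∧ d.2 ∈ Icc lo hi := fun d hd => by
    rw [mem_product, mem_range] at hd
    exact hd
  have h1 := one76 (N := N) (b := b) (Co := Co) hw hw' hp h (c := c) hZ1 (S := range low ×ˢ Icc lo hi) (g := g)
    fun d hd => gate d (Or.inl (hE d hd))
  have h2 := one76 (N := N) (b := b) (Co := Co) hw hw' hp h (c := c) hZ1 (S := κ) (g := g) fun d hd => gate d (Or.inr hd)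
  have e1 : ∑ d ∈ range low ×ˢ Icc lo hi, wc w p l r b Co (bw w' p b (N - b)) d =
      ∑ d ∈ range low ×ˢ Icc lo hi, wc w' p l r b Co (bw w' p b (N - b)) d :=
    sum_congr rfl fun d hd => wc_congr76 hag _ (by have := (hE d hd).1; omega)
  have e2 : ∑ d ∈ κ, wc w p l r b Co (bw w' p b (N - b)) d = ∑ d ∈ κ, wc w' p l r b Co (bw w' p b (N - b)) d :=
    sum_congr rfl fun d hd => wc_congr76 hag _ (hκ d hd)
  have e3 : wc w p l r b Co (bw w' p b (N - b)) c = wc w' p l r b Co (bw w' p b (N - b)) c := wc_congr76 hag _ (hκ c hc)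
  rw [e1, e3] at h1
  rw [e2, e3] at h2
  unfold Rc
  obtain ⟨D, hD⟩ : ∃ D, D = ∑ d ∈ range low ×ˢ Icc lo hi, ww w p l r N d + ∑ d ∈ κ, ww w p l r N d := ⟨_, rfl⟩
  obtain ⟨D', hD'⟩ : ∃ D', D' = ∑ d ∈ range low ×ˢ Icc lo hi, wc w' p l r b Co (bw w' p b (N - b)) d +
    ∑ d ∈ κ, wc w' p l r b Co (bw w' p b (N - b)) d := ⟨_, rfl⟩
  obtain ⟨x, hx⟩ : ∃ x, x = wc w' p l r b Co (bw w' p b (N - b)) c := ⟨_, rfl⟩
  rw [← hD, ← hD', ← hx]
  rw [← hx] at h1 h2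
  have h3 : nc w p l r c * Z1 ^ 2 * D' ≤ g ^ 2 * D * x := by
    rw [hD, hD']
    linarith
  have D0 : 0 ≤ D := hD ▸ add_nonneg (sum_nonneg fun d _ => ww_nonneg hw hp h d) (sum_nonneg fun d _ => ww_nonneg hw hp h d)
  have E0 : 0 ≤ ∑ d ∈ range low ×ˢ Icc lo hi, wc w' p l r b Co (bw w' p b (N - b)) d :=
    sum_nonneg fun d _ => wc_nonneg hw' hp h _ _ _ _
  have x0 : 0 ≤ x := hx ▸ wc_nonneg hw' hp h _ _ _ _
  have xD : x ≤ D' := by
    rw [hx, hD']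
    have := single_le_sum (f := fun d => wc w' p l r b Co (bw w' p b (N - b)) d) (fun d _ => wc_nonneg hw' hp h _ _ _ _) hc
    linarith
  rcases D0.eq_or_lt with hD0 | hD0
  · rw [← hD0, div_zero]
    exact mul_nonneg (sq_nonneg _) (div_nonneg x0 (x0.trans xD))
  rcases (x0.trans xD).eq_or_lt with hD1 | hD1
  · -- `D' = 0`: then `n_c Z1 = 0`
    have x1 : x = 0 := le_antisymm (xD.trans hD1.ge) x0
    have h4 : nc w p l r c * Z1 ^ 2 = 0 := by
      rcases hZ1.eq_or_lt with hZ | hZ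
      · rw [← hZ]
        ring
      have h5 := hpos hZ
      have h6 : 0 < ∑ v ∈ Co, kc w' p b c v * bw w' p b (N - b) v := by
        obtain ⟨v, hv, hv'⟩ := exists_lt_of_sum_lt (s := Co) (f := fun _ => (0 : ℝ)) (g := fun v => kc w p b c v)
          (by simpa using h5)
        have h7 : 0 < kc w' p b c v := by
          rw [← kc_congr76 hag (hκ c hc)]
          exact hv'
        exact lt_of_lt_of_le (mul_pos h7 (bw_pos hw' hp (N - b) b v))
          (single_le_sum (f := fun v => kc w' p b c v * bw w' p b (N - b) v)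
            (fun v _ => mul_nonneg (kc_nonneg hw' hp b c v) (hF' v)) hv)
      have h8 : nc w' p l r c * (∑ v ∈ Co, kc w' p b c v * bw w' p b (N - b) v) ^ 2 = 0 := by
        have : wc w' p l r b Co (bw w' p b (N - b)) c = 0 := hx ▸ x1
        exact this
      rcases mul_eq_zero.1 h8 with h9 | h9
      · rw [nc_congr76 hag (hκ c hc), h9, zero_mul]
      · exact absurd h9 (pow_pos h6 2).ne'
    rw [h4, zero_div]
    exact mul_nonneg (sq_nonneg _) (div_nonneg x0 (x0.trans xD))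
  rw [← mul_div_assoc, div_le_div_iff₀ hD0 hD1]
  linarith

/-- **THE SUM OVER THE CELL**, in the new environment. -/
theorem sum_Rc (hw' : ∀ k y, 0 < w' k y) (hp : ∀ k, 0 < p k) (h : Box l r X lo hi N) (hZ : 0 < ZZ w' p l lo hi N * ZZ w' p r lo hi N)
    {low e : ℕ} (hlb : low ≤ b) (hbe : b ≤ e) (he : e ≤ N) {κ nb : Finset (ℕ × ℤ)}
    (hκ : ∀ c ∈ κ, c.1 < b ∧ c.2 ∈ Icc lo hi) (hκn : κ ⊆ nb)
    (new : 16 * mA w' p l N b (Icc lo hi \ Co) ≤ ZZ w' p l lo hi N)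
    (met : 16 * nm w' p l r lo hi N e ≤ ZZ w' p l lo hi N * ZZ w' p r lo hi N)
    (col : 16 * ∑ i ∈ Ico low e, ∑ q ∈ (Icc lo hi).filter (fun q => (i, q) ∉ nb),
      fw w' p l (i + 1) q * bw w' p (i + 1) (N - (i + 1)) q ≤ ZZ w' p l lo hi N) :
    ∑ c ∈ κ, Rc w' p l r lo hi N low b Co κ c ≤
      2 * ((∑ c ∈ nb, ww w' p l r N c) / (ZZ w' p l lo hi N * ZZ w' p r lo hi N)) := by
  have h1 := sum76 (Co := Co) hw' hw' hp h hlb hbe he (fun _ _ _ => rfl) hκ hκn new met col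
  unfold Rc
  rw [← sum_div]
  have W0 : 0 ≤ ∑ c ∈ nb, ww w' p l r N c := sum_nonneg fun c _ => ww_nonneg hw' hp h.g c
  have D0 : 0 ≤ ∑ d ∈ range low ×ˢ Icc lo hi, wc w' p l r b Co (bw w' p b (N - b)) d +
      ∑ d ∈ κ, wc w' p l r b Co (bw w' p b (N - b)) d :=
    add_nonneg (sum_nonneg fun d _ => wc_nonneg hw' hp h.g _ _ _ _) (sum_nonneg fun d _ => wc_nonneg hw' hp h.g _ _ _ _)
  rcases D0.eq_or_lt with hD0 | hD0
  · rw [← hD0, div_zero]
    exact mul_nonneg (by norm_num) (div_nonneg W0 hZ.le)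
  rw [← mul_div_assoc, div_le_div_iff₀ hD0 hZ]
  exact h1

/-! ### The leak and the gain give the hypotheses on the new masses -/

theorem off76 (hw : ∀ k y, 0 < w k y) (hp : ∀ k, 0 < p k) (hag : ∀ k, k < b → ∀ y, w k y = w' k y)
    {m : ℤ → ℝ} (hm : ∀ y, 0 ≤ m y) (hz : s1 w p m lo hi b (bw w p b (N - b)) = ZZ w p m lo hi N) {Y : ℝ} (hY : 0 ≤ Y)
    (leak : ∀ v ∈ Icc lo hi \ Co, bw w' p b (N - b) v ≤ Y * bw w p b (N - b) v) :
    mA w' p m N b (Icc lo hi \ Co) ≤ Y * ZZ w p m lo hi N := by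
  rw [← hz]
  unfold mA s1
  rw [mul_sum]
  refine (sum_le_sum fun v hv => ?_).trans (sum_le_sum_of_subset_of_nonneg (sdiff_subset (s := Icc lo hi) (t := Co))
    fun v _ _ => mul_nonneg hY (mul_nonneg (fw_nonneg hw hp hm b v) (bw_pos hw hp _ _ v).le))
  have h3 : fw w' p m b v = fw w p m b v := (fw_congr b (fun i hi y => hag i (by omega) y) v).symm
  rw [h3]
  have := mul_le_mul_of_nonneg_left (leak v hv) (fw_nonneg hw hp hm b v)
  linarith

/-- The new total from the gain of the contact. -/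
theorem tot76 (hw : ∀ k y, 0 < w k y) (hw' : ∀ k y, 0 < w' k y) (hp : ∀ k, 0 < p k) (hag : ∀ k, k < b → ∀ y, w k y = w' k y)
    {m : ℤ → ℝ} (hm : ∀ y, 0 ≤ m y) {c : ℕ × ℤ} (hc : c.1 < b) (hcq : c.2 ∈ Icc lo hi)
    (hz : s1 w' p m lo hi (c.1 + 1) (bw w' p (c.1 + 1) (N - (c.1 + 1))) = ZZ w' p m lo hi N) {β lam : ℝ}
    (hβ : β * ZZ w p m lo hi N ≤ fw w p m (c.1 + 1) c.2 * zc w p N c) (hlam : 0 ≤ lam) (gain : lam * zc w p N c ≤ zc w' p N c) :
    lam * β * ZZ w p m lo hi N ≤ ZZ w' p m lo hi N := by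
  have f0 := fw_nonneg hw hp hm (c.1 + 1) c.2
  have e1 : fw w' p m (c.1 + 1) c.2 = fw w p m (c.1 + 1) c.2 := (fw_congr _ (fun i hi y => hag i (by omega) y) _).symm
  calc lam * β * ZZ w p m lo hi N = lam * (β * ZZ w p m lo hi N) := by ring
    _ ≤ lam * (fw w p m (c.1 + 1) c.2 * zc w p N c) := mul_le_mul_of_nonneg_left hβ hlam
    _ = fw w p m (c.1 + 1) c.2 * (lam * zc w p N c) := by ring
    _ ≤ fw w p m (c.1 + 1) c.2 * zc w' p N c := mul_le_mul_of_nonneg_left gain f0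
    _ = fw w' p m (c.1 + 1) c.2 * bw w' p (c.1 + 1) (N - (c.1 + 1)) c.2 := by rw [e1]; rfl
    _ ≤ s1 w' p m lo hi (c.1 + 1) (bw w' p (c.1 + 1) (N - (c.1 + 1))) :=
      single_le_sum (f := fun y => fw w' p m (c.1 + 1) y * bw w' p (c.1 + 1) (N - (c.1 + 1)) y)
        (fun y _ => mul_nonneg (fw_nonneg hw' hp hm _ y) (bw_pos hw' hp _ _ y).le) hcq
    _ = _ := hz

/-- **THE NEW MASS OFF THE CORE**: `16 Y ≤ lam β`. -/
theorem new76 (hw : ∀ k y, 0 < w k y) (hw' : ∀ k y, 0 < w' k y) (hp : ∀ k, 0 < p k) (h : Box l r X lo hi N) (hb : b ≤ N)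
    (hag : ∀ k, k < b → ∀ y, w k y = w' k y) {c : ℕ × ℤ} (hc : c.1 < b) (hcq : c.2 ∈ Icc lo hi) {Y β lam : ℝ} (hY : 0 ≤ Y)
    (hlam : 0 ≤ lam) (hnum : 16 * Y ≤ lam * β)
    (leak : ∀ v ∈ Icc lo hi \ Co, bw w' p b (N - b) v ≤ Y * bw w p b (N - b) v) (gain : lam * zc w p N c ≤ zc w' p N c)
    (hl : β * ZZ w p l lo hi N ≤ fw w p l (c.1 + 1) c.2 * zc w p N c)
    (hr : β * ZZ w p r lo hi N ≤ fw w p r (c.1 + 1) c.2 * zc w p N c) :
    16 * mA w' p l N b (Icc lo hi \ Co) ≤ ZZ w' p l lo hi N ∧ 16 * mA w' p r N b (Icc lo hi \ Co) ≤ ZZ w' p r lo hi N := by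
  have a1 := s1_ZZ (w := w) (p := p) h hb
  have a2 := s1_ZZ (w := w') (p := p) h (a := c.1 + 1) (by omega)
  have z3 := ZZ_nonneg (lo := lo) (hi := hi) (N := N) hw hp h.g.l0
  have z4 := ZZ_nonneg (lo := lo) (hi := hi) (N := N) hw hp h.g.r0
  constructor
  · have h1 := off76 hw hp hag h.g.l0 a1.1 hY leak
    have h2 := tot76 hw hw' hp hag h.g.l0 hc hcq a2.1 hl hlam gain
    have h3 := mul_le_mul_of_nonneg_right hnum z3
    linarith
  · have h1 := off76 hw hp hag h.g.r0 a1.2 hY leak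
    have h2 := tot76 hw hw' hp hag h.g.r0 hc hcq a2.2 hr hlam gain
    have h3 := mul_le_mul_of_nonneg_right hnum z4
    linarith

/-- The weight of a contact is at most the share of either group at the contact. -/
theorem share76 (hw : ∀ k y, 0 < w k y) (hp : ∀ k, 0 < p k) (h : Box l r X lo hi N) {c : ℕ × ℤ} (hc : c.1 < N)
    (hcq : c.2 ∈ Icc lo hi) (hZl : 0 < ZZ w p l lo hi N) (hZr : 0 < ZZ w p r lo hi N) {β : ℝ}
    (hβ : β * (ZZ w p l lo hi N * ZZ w p r lo hi N) ≤ ww w p l r N c) :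
    β * ZZ w p l lo hi N ≤ fw w p l (c.1 + 1) c.2 * zc w p N c ∧ β * ZZ w p r lo hi N ≤ fw w p r (c.1 + 1) c.2 * zc w p N c := by
  obtain ⟨k, q⟩ := c
  have hl := fun k y => fw_nonneg hw hp h.g.l0 k y
  have hr := fun k y => fw_nonneg hw hp h.g.r0 k y
  have z0 : 0 < zc w p N (k, q) := zc_pos hw hp _
  have e1 : p k * (w k (q - 1) * fw w p l k (q - 1)) ≤ fw w p l (k + 1) q := by
    rw [fw_succ]
    linarith [mul_nonneg (hw k q).le (hl k q)]
  have e2 : w k q * fw w p r k q ≤ fw w p r (k + 1) q := by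
    rw [fw_succ]
    linarith [mul_nonneg (hp k).le (mul_nonneg (hw k (q - 1)).le (hr k (q - 1)))]
  have e3 : dp w p l r k (q - 1) q ≤ fw w p l k (q - 1) * fw w p r k q := by
    unfold dp
    linarith [mul_nonneg (hl k q) (hr k (q - 1))]
  have e4 : 0 ≤ p k * (w k (q - 1) * w k q) := mul_nonneg (hp k).le (mul_nonneg (hw _ _).le (hw _ _).le)
  have h2 : nc w p l r (k, q) ≤ fw w p l (k + 1) q * fw w p r (k + 1) q := by
    calc nc w p l r (k, q) ≤ fw w p l k (q - 1) * fw w p r k q * (p k * (w k (q - 1) * w k q)) :=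
          mul_le_mul_of_nonneg_right e3 e4
      _ = p k * (w k (q - 1) * fw w p l k (q - 1)) * (w k q * fw w p r k q) := by ring
      _ ≤ _ := mul_le_mul e1 e2 (mul_nonneg (hw _ _).le (hr _ _)) (hl _ _)
  have h3 : ww w p l r N (k, q) ≤ fw w p l (k + 1) q * zc w p N (k, q) * (fw w p r (k + 1) q * zc w p N (k, q)) := by
    rw [ww_nc]
    calc _ ≤ fw w p l (k + 1) q * fw w p r (k + 1) q * zc w p N (k, q) ^ 2 := mul_le_mul_of_nonneg_right h2 (sq_nonneg _)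
      _ = _ := by ring
  have hcq' : q ∈ Icc lo hi := hcq
  have a2 := s1_ZZ (w := w) (p := p) h (a := k + 1) (by simpa using hc)
  have m1 : fw w p l (k + 1) q * zc w p N (k, q) ≤ ZZ w p l lo hi N := by
    rw [← a2.1]
    exact single_le_sum (f := fun y => fw w p l (k + 1) y * bw w p (k + 1) (N - (k + 1)) y)
      (fun y _ => mul_nonneg (hl _ y) (bw_pos hw hp _ _ y).le) hcq'
  have m2 : fw w p r (k + 1) q * zc w p N (k, q) ≤ ZZ w p r lo hi N := by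
    rw [← a2.2]
    exact single_le_sum (f := fun y => fw w p r (k + 1) y * bw w p (k + 1) (N - (k + 1)) y)
      (fun y _ => mul_nonneg (hr _ y) (bw_pos hw hp _ _ y).le) hcq'
  have n1 : 0 ≤ fw w p l (k + 1) q * zc w p N (k, q) := mul_nonneg (hl _ _) z0.le
  have n2 : 0 ≤ fw w p r (k + 1) q * zc w p N (k, q) := mul_nonneg (hr _ _) z0.le
  constructor
  · have h4 : β * ZZ w p l lo hi N * ZZ w p r lo hi N ≤ fw w p l (k + 1) q * zc w p N (k, q) * ZZ w p r lo hi N := by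
      have := mul_le_mul_of_nonneg_left m2 n1
      linarith
    exact le_of_mul_le_mul_right h4 hZr
  · have h4 : β * ZZ w p r lo hi N * ZZ w p l lo hi N ≤ fw w p r (k + 1) q * zc w p N (k, q) * ZZ w p l lo hi N := by
      have := mul_le_mul_of_nonneg_right m1 n2
      linarith
    exact le_of_mul_le_mul_right h4 hZl

end Two

/-! ### The gate over the sites of a row -/

/-- Against a group. -/
theorem Gt.gg (hw : ∀ k y, 0 < w k y) (hp : ∀ k, 0 < p k) {a b : ℕ} (hab : a ≤ b) {Co : Finset ℤ} {c : ℕ × ℤ} {Z1 g : ℝ}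
    (hg : 0 ≤ g) {m : ℤ → ℝ} (hm : ∀ y, 0 ≤ m y) (hm0 : ∀ y, y ∉ Icc lo hi → fw w p m a y = 0)
    (hz : s1 w p m lo hi a (bw w p a (N - a)) = ZZ w p m lo hi N) (G : Gt w p N a b Co c Z1 g) :
    Gg w p m lo hi N b Co c Z1 g := by
  intro v hv
  have e1 := fw_ker (w := w) (p := p) (l := m) a (b - a) v
  rw [Nat.add_sub_cancel' hab] at e1
  rw [e1, ← hz, sum_mul]
  have k0 := kc_nonneg hw hp b c v
  have f0 : ∀ y, 0 ≤ fw w p m a y * bw w p a (N - a) y := fun y => mul_nonneg (fw_nonneg hw hp hm a y) (bw_pos hw hp _ _ y).le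
  calc ∑ y ∈ Icc (v - ((b - a : ℕ) : ℤ)) v, fw w p m a y * ker w p a (b - a) y v * Z1 ≤
        ∑ y ∈ Icc (v - ((b - a : ℕ) : ℤ)) v, g * kc w p b c v * (fw w p m a y * bw w p a (N - a) y) := by
        refine sum_le_sum fun y _ => ?_
        have := mul_le_mul_of_nonneg_left (G y v hv) (fw_nonneg hw hp hm a y)
        linarith
    _ = g * kc w p b c v * ∑ y ∈ Icc (v - ((b - a : ℕ) : ℤ)) v, fw w p m a y * bw w p a (N - a) y := by rw [mul_sum]
    _ ≤ g * kc w p b c v * s1 w p m lo hi a (bw w p a (N - a)) := by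
        refine mul_le_mul_of_nonneg_left ?_ (mul_nonneg hg k0)
        unfold s1
        have e2 : ∑ y ∈ Icc (v - ((b - a : ℕ) : ℤ)) v, fw w p m a y * bw w p a (N - a) y ≤
            ∑ y ∈ Icc (v - ((b - a : ℕ) : ℤ)) v ∪ Icc lo hi, fw w p m a y * bw w p a (N - a) y :=
          sum_le_sum_of_subset_of_nonneg subset_union_left fun y _ _ => f0 y
        refine e2.trans (le_of_eq ?_)
        refine (sum_subset subset_union_right fun y _ hy => ?_).symm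
        rw [hm0 y hy, zero_mul]
    _ = _ := by ring

/-- Against an earlier contact. -/
theorem Gt.gd (hw : ∀ k y, 0 < w k y) (hp : ∀ k, 0 < p k) {a b : ℕ} (hab : a ≤ b) (haN : a ≤ N) {Co : Finset ℤ} {c d : ℕ × ℤ}
    {Z1 g : ℝ} (hg : 0 ≤ g) (hd : d.1 < a) (G : Gt w p N a b Co c Z1 g) : Gd w p N b Co c Z1 g d := by
  intro v hv
  have e1 := ker_add (w := w) (p := p) (d.1 + 1) (a - (d.1 + 1)) (b - a) d.2 v
  rw [show a - (d.1 + 1) + (b - a) = b - (d.1 + 1) by omega, show d.1 + 1 + (a - (d.1 + 1)) = a by omega] at e1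
  have e2 := bw_ker (w := w) (p := p) (d.1 + 1) (a - (d.1 + 1)) (N - a) d.2
  rw [show a - (d.1 + 1) + (N - a) = N - (d.1 + 1) by omega, show d.1 + 1 + (a - (d.1 + 1)) = a by omega] at e2
  have k0 := kc_nonneg hw hp b c v
  obtain ⟨n, hn⟩ : ∃ n, n = a - (d.1 + 1) := ⟨_, rfl⟩
  have f0 : ∀ y, 0 ≤ ker w p (d.1 + 1) n d.2 y * bw w p a (N - a) y := fun y =>
    mul_nonneg (ker_nonneg hw hp _ _ _ _) (bw_pos hw hp _ _ y).le
  show ker w p (d.1 + 1) (b - (d.1 + 1)) d.2 v * Z1 ≤ g * (bw w p (d.1 + 1) (N - (d.1 + 1)) d.2 * kc w p b c v)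
  rw [e1, e2, ← hn, sum_mul]
  calc ∑ y ∈ Icc (v - ((b - a : ℕ) : ℤ)) v, ker w p (d.1 + 1) n d.2 y * ker w p a (b - a) y v * Z1 ≤
        ∑ y ∈ Icc (v - ((b - a : ℕ) : ℤ)) v, g * kc w p b c v * (ker w p (d.1 + 1) n d.2 y * bw w p a (N - a) y) := by
        refine sum_le_sum fun y _ => ?_
        have := mul_le_mul_of_nonneg_left (G y v hv) (ker_nonneg hw hp (d.1 + 1) n d.2 y)
        linarith
    _ = g * kc w p b c v * ∑ y ∈ Icc (v - ((b - a : ℕ) : ℤ)) v, ker w p (d.1 + 1) n d.2 y * bw w p a (N - a) y := by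
        rw [mul_sum]
    _ ≤ g * kc w p b c v * ∑ y ∈ Icc d.2 (d.2 + (n : ℤ)), ker w p (d.1 + 1) n d.2 y * bw w p a (N - a) y := by
        refine mul_le_mul_of_nonneg_left ?_ (mul_nonneg hg k0)
        have e3 : ∑ y ∈ Icc (v - ((b - a : ℕ) : ℤ)) v, ker w p (d.1 + 1) n d.2 y * bw w p a (N - a) y ≤
            ∑ y ∈ Icc (v - ((b - a : ℕ) : ℤ)) v ∪ Icc d.2 (d.2 + (n : ℤ)), ker w p (d.1 + 1) n d.2 y * bw w p a (N - a) y :=
          sum_le_sum_of_subset_of_nonneg subset_union_left fun y _ _ => f0 y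
        refine e3.trans (le_of_eq ?_)
        refine (sum_subset subset_union_right fun y _ hy => ?_).symm
        rw [ker_eq_zero _ _ _ _ (by rw [mem_Icc] at hy; omega), zero_mul]
    _ = _ := by ring

end

end Pool.Agent.W_7d29a1_C1.GD76
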