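import Pool.Agent.W_7d29a1_C1.Fkg31

/-!
MP_7d29a1_pr, attractor route, [C1] SEP: THE GATE IN THE AVERAGE OVER ONE WINDOW, the FKG step. (helper66)

`κ i` = weight of the path `i` of the contact (everything else in it is fixed), `D` = the denominator, nondecreasing in every site;
`Fz i j` = the frozen sites for the pair `i, j` (everything except the sites of the wall rows off the two paths); `T` = typical:
decreasing in the other sites; `C i j` = the walls off the two paths, probability at least `p`, whatever the pair is.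
`favg`: `∫_T Z² / D ≤ (2 / p) ∫_{T, good} Z² / D`, `good` = the pairs with walls have relative mass at least `p / 2`.
-/

set_option autoImplicit false

namespace Pool.Agent.W_7d29a1_C1.Gt66

open MeasureTheory ProbabilityTheory Finset
open Pool.Agent.W_7d29a1_F Pool.Agent.W_7d29a1_h4g Pool.Agent.W_7d29a1_H Pool.Agent.W_7d29a1_HS
open Pool.Agent.W_7d29a1_C1.F31 (DecO FinO fkg_fun)

noncomputable section

attribute [local instance 10] Classical.propDecidable

variable {μ : Measure ℝ} {ι : Type*}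

/-- Mass of the pairs with walls. -/
def QC (P : Finset ι) (κ : ι → Env → ℝ) (C : ι → ι → Set Env) (ξ : Env) : ℝ :=
  ∑ i ∈ P, ∑ j ∈ P, if ξ ∈ C i j then κ i ξ * κ j ξ else 0

theorem QC_le {P : Finset ι} {κ : ι → Env → ℝ} (h0 : ∀ i ξ, 0 ≤ κ i ξ) (C : ι → ι → Set Env) (ξ : Env) :
    QC P κ C ξ ≤ (∑ i ∈ P, κ i ξ) ^ 2 := by
  rw [sq, sum_mul_sum]
  refine sum_le_sum fun i _ => sum_le_sum fun j _ => ?_
  split_ifs
  · exact le_rfl
  · exact mul_nonneg (h0 i ξ) (h0 j ξ)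

theorem QC_nonneg {P : Finset ι} {κ : ι → Env → ℝ} (h0 : ∀ i ξ, 0 ≤ κ i ξ) (C : ι → ι → Set Env) (ξ : Env) :
    0 ≤ QC P κ C ξ := by
  refine sum_nonneg fun i _ => sum_nonneg fun j _ => ?_
  split_ifs
  · exact mul_nonneg (h0 i ξ) (h0 j ξ)
  · exact le_rfl

theorem measurable_QC {P : Finset ι} {κ : ι → Env → ℝ} (mκ : ∀ i, Measurable (κ i)) {C : ι → ι → Set Env}
    (mC : ∀ i j, MeasurableSet (C i j)) : Measurable (QC P κ C) := by
  refine Finset.measurable_sum _ fun i _ => Finset.measurable_sum _ fun j _ => ?_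
  exact Measurable.ite (mC i j) ((mκ i).mul (mκ j)) measurable_const

/-- The pairs with walls have relative mass at least `q`. -/
def Gd66 (P : Finset ι) (κ : ι → Env → ℝ) (C : ι → ι → Set Env) (q : ℝ) : Set Env :=
  {ξ | q * (∑ i ∈ P, κ i ξ) ^ 2 ≤ QC P κ C ξ}

theorem measurable_Gd66 {P : Finset ι} {κ : ι → Env → ℝ} (mκ : ∀ i, Measurable (κ i)) {C : ι → ι → Set Env}
    (mC : ∀ i j, MeasurableSet (C i j)) (q : ℝ) : MeasurableSet (Gd66 P κ C q) :=
  measurableSet_le ((Finset.measurable_sum _ fun i _ => mκ i).pow_const 2 |>.const_mul q) (measurable_QC mκ mC)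

/-- **FKG IN THE AVERAGE.** -/
theorem favg [IsProbabilityMeasure μ] {P : Finset ι} {κ : ι → Env → ℝ} (h0 : ∀ i ξ, 0 ≤ κ i ξ)
    (mκ : ∀ i, Measurable (κ i)) {D : Env → ℝ} (mD : Measurable D) (hD : ∀ ξ, 0 < D ξ) {K : ℝ}
    (hK : ∀ ξ, (∑ i ∈ P, κ i ξ) ^ 2 ≤ K * D ξ) {T : Set Env} (mT : MeasurableSet T) {Fz : ι → ι → Set Pt} {C : ι → ι → Set Env}
    (mC : ∀ i j, MeasurableSet (C i j)) (hC : ∀ i ∈ P, ∀ j ∈ P, DecO (Fz i j) (C i j))
    (fC : ∀ i ∈ P, ∀ j ∈ P, FinO (Fz i j) (C i j)) (hT : ∀ i ∈ P, ∀ j ∈ P, DecO (Fz i j) T)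
    (hκ : ∀ i ∈ P, ∀ j ∈ P, ∀ ξ ξ' : Env, (∀ x ∈ Fz i j, ξ x = ξ' x) → κ i ξ * κ j ξ = κ i ξ' * κ j ξ')
    (hDm : ∀ ξ ξ' : Env, (∀ x, ξ x ≤ ξ' x) → D ξ ≤ D ξ') {p : ℝ} (hp : 0 < p)
    (hpC : ∀ i ∈ P, ∀ j ∈ P, p ≤ (law μ).real (C i j)) :
    ∫ ξ in T, (∑ i ∈ P, κ i ξ) ^ 2 / D ξ ∂(law μ) ≤
      (2 / p) * ∫ ξ in T ∩ Gd66 P κ C (p / 2), (∑ i ∈ P, κ i ξ) ^ 2 / D ξ ∂(law μ) := by
  set Z : Env → ℝ := fun ξ => ∑ i ∈ P, κ i ξ with hZ
  have mZ : Measurable Z := Finset.measurable_sum _ fun i _ => mκ i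
  have Z0 : ∀ ξ, 0 ≤ Z ξ := fun ξ => sum_nonneg fun i _ => h0 i ξ
  have hK' : ∀ ξ, Z ξ ^ 2 / D ξ ≤ K := fun ξ => (div_le_iff₀ (hD ξ)).2 (hK ξ)
  have hK0 : 0 ≤ K := le_trans (div_nonneg (sq_nonneg _) (hD 0).le) (hK' 0)
  -- one pair
  have pair_le : ∀ i ∈ P, ∀ j ∈ P, ∀ ξ, κ i ξ * κ j ξ ≤ Z ξ ^ 2 := by
    intro i hi j hj ξ
    rw [sq]
    exact mul_le_mul (single_le_sum (f := fun i => κ i ξ) (fun i _ => h0 i ξ) hi)
      (single_le_sum (f := fun i => κ i ξ) (fun i _ => h0 i ξ) hj) (h0 j ξ) (Z0 ξ)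
  set f : ι → ι → Env → ℝ := fun i j ξ => T.indicator (fun ξ => κ i ξ * κ j ξ / D ξ) ξ with hf
  have f0 : ∀ i j ξ, 0 ≤ f i j ξ := fun i j ξ => Set.indicator_nonneg (fun x _ =>
    div_nonneg (mul_nonneg (h0 i x) (h0 j x)) (hD x).le) ξ
  have mf : ∀ i j, Measurable (f i j) := fun i j => (((mκ i).mul (mκ j)).div mD).indicator mT
  have fK : ∀ i ∈ P, ∀ j ∈ P, ∀ ξ, f i j ξ ≤ K := by
    intro i hi j hj ξ
    refine (Set.indicator_le_self' (fun _ _ => div_nonneg (mul_nonneg (h0 i _) (h0 j _)) (hD _).le) ξ).trans ?_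
    exact (div_le_div_of_nonneg_right (pair_le i hi j hj ξ) (hD ξ).le).trans (hK' ξ)
  have bI : ∀ {g : Env → ℝ}, Measurable g → (∀ ξ, 0 ≤ g ξ) → (∀ ξ, g ξ ≤ K) → Integrable g (law μ) := by
    intro g mg g0 gK
    refine (integrable_const K).mono' mg.aestronglyMeasurable (Filter.Eventually.of_forall fun ξ => ?_)
    rw [Real.norm_eq_abs, abs_of_nonneg (g0 ξ)]
    exact gK ξ
  have fI : ∀ i ∈ P, ∀ j ∈ P, Integrable (f i j) (law μ) := fun i hi j hj => bI (mf i j) (f0 i j) (fK i hi j hj)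
  have key : ∀ i ∈ P, ∀ j ∈ P, p * ∫ ξ, f i j ξ ∂(law μ) ≤ ∫ ξ in C i j, f i j ξ ∂(law μ) := by
    intro i hi j hj
    have h1 := fkg_fun (μ := μ) (S := Fz i j) (F := f i j) (C := C i j) (mf i j) (fI i hi j hj) (mC i j) (fun η η' h2 h3 => by
      by_cases hη' : η' ∈ T
      · have hη : η ∈ T := hT i hi j hj η η' h2 h3 hη'
        rw [hf]
        simp only [Set.indicator_of_mem hη', Set.indicator_of_mem hη]
        rw [hκ i hi j hj η η' h3]
        exact div_le_div_of_nonneg_left (mul_nonneg (h0 i _) (h0 j _)) (hD η) (hDm η η' h2)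
      · rw [hf]
        simp only [Set.indicator_of_notMem hη']
        exact f0 i j η) (hC i hi j hj) (fC i hi j hj)
    refine le_trans ?_ h1
    rw [mul_comm]
    exact mul_le_mul_of_nonneg_left (hpC i hi j hj) (integral_nonneg (f0 i j))
  -- sum over the pairs
  have e1 : ∫ ξ in T, Z ξ ^ 2 / D ξ ∂(law μ) = ∑ i ∈ P, ∑ j ∈ P, ∫ ξ, f i j ξ ∂(law μ) := by
    rw [← integral_indicator mT]
    have h1 : ∀ ξ, T.indicator (fun ξ => Z ξ ^ 2 / D ξ) ξ = ∑ i ∈ P, ∑ j ∈ P, f i j ξ := by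
      intro ξ
      by_cases h : ξ ∈ T
      · rw [hf]
        simp only [Set.indicator_of_mem h]
        rw [sq, hZ]
        simp only
        rw [sum_mul_sum, sum_div]
        exact sum_congr rfl fun i _ => by rw [sum_div]
      · rw [hf]
        simp only [Set.indicator_of_notMem h, sum_const_zero]
    simp only [h1]
    rw [integral_finset_sum _ fun i hi => integrable_finset_sum _ fun j hj => fI i hi j hj]
    exact sum_congr rfl fun i hi => integral_finset_sum _ fun j hj => fI i hi j hj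
  have e2 : ∑ i ∈ P, ∑ j ∈ P, ∫ ξ in C i j, f i j ξ ∂(law μ) = ∫ ξ in T, QC P κ C ξ / D ξ ∂(law μ) := by
    rw [← integral_indicator mT]
    have h1 : ∀ ξ, T.indicator (fun ξ => QC P κ C ξ / D ξ) ξ = ∑ i ∈ P, ∑ j ∈ P, (C i j).indicator (f i j) ξ := by
      intro ξ
      by_cases h : ξ ∈ T
      · rw [Set.indicator_of_mem h]
        unfold QC
        rw [sum_div]
        refine sum_congr rfl fun i _ => ?_
        rw [sum_div]
        refine sum_congr rfl fun j _ => ?_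
        by_cases h2 : ξ ∈ C i j
        · rw [if_pos h2, Set.indicator_of_mem h2, hf]
          simp only [Set.indicator_of_mem h]
        · rw [if_neg h2, Set.indicator_of_notMem h2, zero_div]
      · rw [Set.indicator_of_notMem h]
        symm
        refine sum_eq_zero fun i _ => sum_eq_zero fun j _ => ?_
        by_cases h2 : ξ ∈ C i j
        · rw [Set.indicator_of_mem h2, hf]
          simp only [Set.indicator_of_notMem h]
        · rw [Set.indicator_of_notMem h2]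
    simp only [h1]
    rw [integral_finset_sum _ fun i hi => integrable_finset_sum _ fun j hj => (fI i hi j hj).indicator (mC i j)]
    refine sum_congr rfl fun i hi => ?_
    rw [integral_finset_sum _ fun j hj => (fI i hi j hj).indicator (mC i j)]
    exact sum_congr rfl fun j _ => (integral_indicator (mC i j)).symm
  have h3 : p * ∫ ξ in T, Z ξ ^ 2 / D ξ ∂(law μ) ≤ ∫ ξ in T, QC P κ C ξ / D ξ ∂(law μ) := by
    rw [e1, ← e2, mul_sum]
    refine sum_le_sum fun i hi => ?_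
    rw [mul_sum]
    exact sum_le_sum fun j hj => key i hi j hj
  -- the good part
  set G := Gd66 P κ C (p / 2) with hG
  have mG : MeasurableSet G := measurable_Gd66 mκ mC _
  have mZD : Measurable fun ξ => Z ξ ^ 2 / D ξ := (mZ.pow_const 2).div mD
  have iZ : Integrable (fun ξ => Z ξ ^ 2 / D ξ) (law μ) := bI mZD (fun ξ => div_nonneg (sq_nonneg _) (hD ξ).le) hK'
  have iQ : Integrable (fun ξ => QC P κ C ξ / D ξ) (law μ) :=
    bI ((measurable_QC mκ mC).div mD) (fun ξ => div_nonneg (QC_nonneg h0 C ξ) (hD ξ).le) fun ξ =>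
      (div_le_div_of_nonneg_right (QC_le h0 C ξ) (hD ξ).le).trans (hK' ξ)
  have h4 : ∫ ξ in T, QC P κ C ξ / D ξ ∂(law μ) ≤ (∫ ξ in T ∩ G, Z ξ ^ 2 / D ξ ∂(law μ)) +
      p / 2 * ∫ ξ in T, Z ξ ^ 2 / D ξ ∂(law μ) := by
    rw [← integral_indicator mT, ← integral_indicator (mT.inter mG), ← integral_indicator mT, ← integral_const_mul,
      ← integral_add (iZ.indicator (mT.inter mG)) ((iZ.indicator mT).const_mul _)]
    refine integral_mono (iQ.indicator mT) ((iZ.indicator (mT.inter mG)).add ((iZ.indicator mT).const_mul _)) fun ξ => ?_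
    show T.indicator (fun ξ => QC P κ C ξ / D ξ) ξ ≤ (T ∩ G).indicator (fun ξ => Z ξ ^ 2 / D ξ) ξ +
      p / 2 * T.indicator (fun ξ => Z ξ ^ 2 / D ξ) ξ
    by_cases h : ξ ∈ T
    · rw [Set.indicator_of_mem h, Set.indicator_of_mem h]
      by_cases h2 : ξ ∈ G
      · rw [Set.indicator_of_mem (Set.mem_inter h h2)]
        have h5 := div_le_div_of_nonneg_right (QC_le (P := P) h0 C ξ) (hD ξ).le
        have h6 : 0 ≤ p / 2 * (Z ξ ^ 2 / D ξ) := mul_nonneg (by positivity) (div_nonneg (sq_nonneg _) (hD ξ).le)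
        exact h5.trans (le_add_of_nonneg_right h6)
      · rw [Set.indicator_of_notMem fun h3 => h2 h3.2, zero_add]
        have h5 : QC P κ C ξ ≤ p / 2 * Z ξ ^ 2 := (not_le.1 h2).le
        calc QC P κ C ξ / D ξ ≤ (p / 2 * Z ξ ^ 2) / D ξ := div_le_div_of_nonneg_right h5 (hD ξ).le
          _ = p / 2 * (Z ξ ^ 2 / D ξ) := by ring
    · rw [Set.indicator_of_notMem h, Set.indicator_of_notMem h, Set.indicator_of_notMem fun h3 => h h3.1]
      simp
  have h5 : p / 2 * ∫ ξ in T, Z ξ ^ 2 / D ξ ∂(law μ) ≤ ∫ ξ in T ∩ G, Z ξ ^ 2 / D ξ ∂(law μ) := by linarith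
  have h6 : ∫ ξ in T, Z ξ ^ 2 / D ξ ∂(law μ) = (2 / p) * (p / 2 * ∫ ξ in T, Z ξ ^ 2 / D ξ ∂(law μ)) := by
    field_simp
  rw [h6]
  exact mul_le_mul_of_nonneg_left h5 (by positivity)

end

end Pool.Agent.W_7d29a1_C1.Gt66
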