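import Pool.Agent.W_7d29a1_C1.LevF16
import Pool.Agent.W_7d29a1_C1.Leg12
import Pool.Agent.W_7d29a1_C1.Seq71

/-!
MP_7d29a1_pr, [C1] SEP, THE GATE WITH THIN STRIPS (helper66 81504, 82173, 84354): the LOWER LEVELS, blind to the wall sites. (helper18)

Block of `5 n` rows above `a`, `w = wd n`, `E = EE n`, lateral coordinate `lat16 μ s a`. Thin strips: rows `(n, n + m]` and
`(3n, 3n + m]`, `2 m ≤ n`. Tubes `Tu`: in the first strip around the lateral place `- (K₁ + 8) w`, in the second one around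
`(K₁ + 8) w`, half width `6 w`. `Sw` = the wall sites: rows of the strips, `|lat| ≤ K₂ w`, off the tubes.

`Lo18 Q`: all `x` of the first row with `|lat| ≤ K₂ w`, all `v` of the last row with `|lat| ≤ K₁ w`: the weight of the paths from `x`
to `v` WHICH DO NOT USE THE SITES OF `Sw` is at least `exp (- Q E)`. `Sd18 Q₁`: the same from the sites `sd` (lateral
`σ (K₂ - 2) w`, rows `0`, `n + m`, `3n + m`) to the sites `vt` (lateral `σ (K₂ + 8) w`, last row), `σ = ± 1`; `Q₁` does not depend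
on `K₂`. `lo18_off`, `sd18_off`: they do not read `Sw`.
-/

set_option autoImplicit false

namespace Pool.Agent.W_7d29a1_C1.GL18

open MeasureTheory ProbabilityTheory Filter Topology
open Pool.Agent.W_7d29a1_F Pool.Agent.W_7d29a1_h4g Pool.Agent.W_7d29a1_H Pool.Agent.W_7d29a1_HS
open Pool.Agent.W_7d29a1_C1.U16 (LevS bx16 lat16 lev_prob lev_low box_cone)
open Pool.Agent.W_7d29a1_C1.S71 (Off)

noncomputable section

variable {μ : Measure ℝ} {s : ℝ}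

/-! ### Geometry -/

/-- The site of the row `r` at the lateral place `κ w`. -/
def ft (μ : Measure ℝ) (s : ℝ) (a : Pt) (n r : ℕ) (κ : ℝ) : Pt := (a.1 + (r : ℤ), a.2 + ⌊sl μ s * r + κ * wd μ s n⌋)

theorem ft_lat (a : Pt) (n r : ℕ) (κ : ℝ) : lat16 μ s a (ft μ s a n r κ) ≤ κ * wd μ s n ∧
    κ * wd μ s n - 1 < lat16 μ s a (ft μ s a n r κ) := by
  have g1 := Int.floor_le (sl μ s * r + κ * wd μ s n)
  have g2 := Int.lt_floor_add_one (sl μ s * r + κ * wd μ s n)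
  unfold lat16 ft
  push_cast
  constructor <;> linarith

/-- The wall rows. -/
def Wr (n m : ℕ) (a : Pt) : Set Pt :=
  {p | (a.1 + n < p.1 ∧ p.1 ≤ a.1 + n + m) ∨ (a.1 + 3 * n < p.1 ∧ p.1 ≤ a.1 + 3 * n + m)}

/-- The two tubes. -/
def Tu (μ : Measure ℝ) (s K₁ : ℝ) (n m : ℕ) (a : Pt) : Set Pt :=
  {p | a.1 + n < p.1 ∧ p.1 ≤ a.1 + n + m ∧ |lat16 μ s a p + (K₁ + 8) * wd μ s n| ≤ 6 * wd μ s n} ∪
  {p | a.1 + 3 * n < p.1 ∧ p.1 ≤ a.1 + 3 * n + m ∧ |lat16 μ s a p - (K₁ + 8) * wd μ s n| ≤ 6 * wd μ s n}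

/-- The wall sites. -/
def Sw (μ : Measure ℝ) (s K₁ K₂ : ℝ) (n m : ℕ) (a : Pt) : Set Pt :=
  {p | p ∈ Wr n m a ∧ |lat16 μ s a p| ≤ K₂ * wd μ s n ∧ p ∉ Tu μ s K₁ n m a}

/-- In the first strip the open sites of the window are left of the core. -/
theorem open_left {K₁ K₂ : ℝ} {n m : ℕ} {a p : Pt} (h1 : a.1 + n < p.1) (h2 : p.1 ≤ a.1 + n + m)
    (h3 : |lat16 μ s a p| ≤ K₂ * wd μ s n) (h4 : p ∉ Sw μ s K₁ K₂ n m a) (hm : 2 * m ≤ n) :
    lat16 μ s a p ≤ -((K₁ + 2) * wd μ s n) := by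
  have h5 : p ∈ Tu μ s K₁ n m a := by
    by_contra h5
    exact h4 ⟨Or.inl ⟨h1, h2⟩, h3, h5⟩
  rcases h5 with ⟨_, _, h6⟩ | ⟨h6, _, _⟩
  · linarith [(abs_le.1 h6).2]
  · omega

/-- In the second strip the open sites of the window are right of the core. -/
theorem open_right {K₁ K₂ : ℝ} {n m : ℕ} {a p : Pt} (h1 : a.1 + 3 * n < p.1) (h2 : p.1 ≤ a.1 + 3 * n + m)
    (h3 : |lat16 μ s a p| ≤ K₂ * wd μ s n) (h4 : p ∉ Sw μ s K₁ K₂ n m a) (hm : 2 * m ≤ n) :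
    (K₁ + 2) * wd μ s n ≤ lat16 μ s a p := by
  have h5 : p ∈ Tu μ s K₁ n m a := by
    by_contra h5
    exact h4 ⟨Or.inr ⟨h1, h2⟩, h3, h5⟩
  rcases h5 with ⟨_, h6, _⟩ | ⟨_, _, h6⟩
  · omega
  · linarith [(abs_le.1 h6).1]

/-- The starts of the side: lateral `κ w` (`κ = ± (K₂ - 2)`), rows `0`, `n + m`, `3 n + m`. -/
def rw3 (n m : ℕ) : Fin 3 → ℕ := ![0, n + m, 3 * n + m]

/-! ### The sets -/

/-- **THE LOWER LEVELS**: all weights from the window of the first row to the core of the last row, off the walls. -/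
def Lo18 (μ : Measure ℝ) (s K₁ K₂ : ℝ) (n m : ℕ) (a : Pt) (Q : ℝ) : Set Env :=
  {η | ∀ x v : ℤ, |lat16 μ s a (a.1, x)| ≤ K₂ * wd μ s n → |lat16 μ s a (a.1 + ((5 * n : ℕ) : ℤ), v)| ≤ K₁ * wd μ s n →
      Real.exp (-(Q * EE μ s n)) ≤ WR μ s (Sw μ s K₁ K₂ n m a)ᶜ η (a.1, x) (5 * n) (v - x)}

/-- **THE SIDE**: from the side of the window at the rows `0`, `n + m`, `3 n + m` straight up, off the walls. -/
def Sd18 (μ : Measure ℝ) (s K₁ K₂ : ℝ) (n m : ℕ) (a : Pt) (Q : ℝ) : Set Env :=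
  {η | ∀ (σ : ℝ) (i : Fin 3), σ = 1 ∨ σ = -1 → Real.exp (-(Q * EE μ s n)) ≤ WR μ s (Sw μ s K₁ K₂ n m a)ᶜ η
      (ft μ s a n (rw3 n m i) (σ * (K₂ - 2))) (5 * n - rw3 n m i)
      ((ft μ s a n (5 * n) (σ * (K₂ + 8))).2 - (ft μ s a n (rw3 n m i) (σ * (K₂ - 2))).2)}

theorem lo18_off (K₁ K₂ : ℝ) (n m : ℕ) (a : Pt) (Q : ℝ) : Off (Sw μ s K₁ K₂ n m a) (Lo18 μ s K₁ K₂ n m a Q) := by
  intro η η' h
  have e : ∀ x v : ℤ, WR μ s (Sw μ s K₁ K₂ n m a)ᶜ η (a.1, x) (5 * n) (v - x) =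
      WR μ s (Sw μ s K₁ K₂ n m a)ᶜ η' (a.1, x) (5 * n) (v - x) := fun x v => WR_dep _ _ _ _ fun p hp => h p hp.2
  unfold Lo18
  simp only [Set.mem_ofPred_eq, e]

theorem sd18_off (K₁ K₂ : ℝ) (n m : ℕ) (a : Pt) (Q : ℝ) : Off (Sw μ s K₁ K₂ n m a) (Sd18 μ s K₁ K₂ n m a Q) := by
  intro η η' h
  have e : ∀ (p : Pt) (j : ℕ) (y : ℤ), WR μ s (Sw μ s K₁ K₂ n m a)ᶜ η p j y = WR μ s (Sw μ s K₁ K₂ n m a)ᶜ η' p j y :=
    fun p j y => WR_dep _ _ _ _ fun p hp => h p hp.2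
  unfold Sd18
  simp only [Set.mem_ofPred_eq, e]

/-- They read only the rows `(a.1, a.1 + 5 n]`. -/
theorem lo18_rows {K₁ K₂ : ℝ} {n m : ℕ} {a : Pt} {Q : ℝ} {η η' : Env} (h : ∀ p ∈ rows a.1 (a.1 + ((5 * n : ℕ) : ℤ)), η p = η' p) :
    η ∈ Lo18 μ s K₁ K₂ n m a Q ↔ η' ∈ Lo18 μ s K₁ K₂ n m a Q := by
  have e : ∀ x v : ℤ, WR μ s (Sw μ s K₁ K₂ n m a)ᶜ η (a.1, x) (5 * n) (v - x) =
      WR μ s (Sw μ s K₁ K₂ n m a)ᶜ η' (a.1, x) (5 * n) (v - x) :=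
    fun x v => WR_dep _ _ _ _ fun p hp => h p ⟨hp.1.1, hp.1.2.1⟩
  unfold Lo18
  simp only [Set.mem_ofPred_eq, e]

theorem rw3_le {n m : ℕ} (hm : 2 * m ≤ n) (i : Fin 3) : rw3 n m i ≤ 5 * n := by
  fin_cases i <;> simp [rw3] <;> omega

theorem sd18_rows {K₁ K₂ : ℝ} {n m : ℕ} (hm : 2 * m ≤ n) {a : Pt} {Q : ℝ} {η η' : Env}
    (h : ∀ p ∈ rows a.1 (a.1 + ((5 * n : ℕ) : ℤ)), η p = η' p) : η ∈ Sd18 μ s K₁ K₂ n m a Q ↔ η' ∈ Sd18 μ s K₁ K₂ n m a Q := by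
  have e : ∀ (i : Fin 3) (κ : ℝ) (y : ℤ),
      WR μ s (Sw μ s K₁ K₂ n m a)ᶜ η (ft μ s a n (rw3 n m i) κ) (5 * n - rw3 n m i) y =
      WR μ s (Sw μ s K₁ K₂ n m a)ᶜ η' (ft μ s a n (rw3 n m i) κ) (5 * n - rw3 n m i) y :=
    fun i κ y => WR_dep _ _ _ _ fun p hp => h p
      ⟨by
        have h1 := hp.1.1
        unfold ft at h1
        dsimp only at h1
        have h2 : (0 : ℤ) ≤ ((rw3 n m i : ℕ) : ℤ) := Int.natCast_nonneg _
        linarith, by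
        have h1 := hp.1.2.1
        unfold ft at h1
        dsimp only at h1
        have h2 := rw3_le hm i
        push_cast [Nat.cast_sub h2] at h1 ⊢
        linarith⟩
  unfold Sd18
  simp only [Set.mem_ofPred_eq, e]

theorem lo18_meas (K₁ K₂ : ℝ) (n m : ℕ) (a : Pt) (Q : ℝ) : MeasurableSet (Lo18 μ s K₁ K₂ n m a Q) := by
  have e : Lo18 μ s K₁ K₂ n m a Q = ⋂ (x : ℤ) (v : ℤ) (_ : |lat16 μ s a (a.1, x)| ≤ K₂ * wd μ s n)
      (_ : |lat16 μ s a (a.1 + ((5 * n : ℕ) : ℤ), v)| ≤ K₁ * wd μ s n),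
      {η | Real.exp (-(Q * EE μ s n)) ≤ WR μ s (Sw μ s K₁ K₂ n m a)ᶜ η (a.1, x) (5 * n) (v - x)} := by
    ext η
    simp only [Set.mem_iInter]
    exact Iff.rfl
  rw [e]
  exact MeasurableSet.iInter fun x => MeasurableSet.iInter fun v => MeasurableSet.iInter fun _ => MeasurableSet.iInter fun _ =>
    measurableSet_le measurable_const (measurable_WR _ _ _ _)

theorem sd18_meas (K₁ K₂ : ℝ) (n m : ℕ) (a : Pt) (Q : ℝ) : MeasurableSet (Sd18 μ s K₁ K₂ n m a Q) := by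
  have e : Sd18 μ s K₁ K₂ n m a Q = ⋂ (i : Fin 3), ({η | Real.exp (-(Q * EE μ s n)) ≤ WR μ s (Sw μ s K₁ K₂ n m a)ᶜ η
      (ft μ s a n (rw3 n m i) (1 * (K₂ - 2))) (5 * n - rw3 n m i)
      ((ft μ s a n (5 * n) (1 * (K₂ + 8))).2 - (ft μ s a n (rw3 n m i) (1 * (K₂ - 2))).2)} ∩
      {η | Real.exp (-(Q * EE μ s n)) ≤ WR μ s (Sw μ s K₁ K₂ n m a)ᶜ η
      (ft μ s a n (rw3 n m i) (-1 * (K₂ - 2))) (5 * n - rw3 n m i)
      ((ft μ s a n (5 * n) (-1 * (K₂ + 8))).2 - (ft μ s a n (rw3 n m i) (-1 * (K₂ - 2))).2)}) := by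
    ext η
    simp only [Set.mem_iInter, Set.mem_inter_iff]
    constructor
    · intro h i
      exact ⟨h 1 i (Or.inl rfl), h (-1) i (Or.inr rfl)⟩
    · rintro h σ i (rfl | rfl)
      · exact (h i).1
      · exact (h i).2
  rw [e]
  exact MeasurableSet.iInter fun i => (measurableSet_le measurable_const (measurable_WR _ _ _ _)).inter
    (measurableSet_le measurable_const (measurable_WR _ _ _ _))

theorem lo18_mono [IsProbabilityMeasure μ] {K₁ K₂ Q Q' : ℝ} {n m : ℕ} {a : Pt} (hQ : Q ≤ Q') :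
    Lo18 μ s K₁ K₂ n m a Q ⊆ Lo18 μ s K₁ K₂ n m a Q' := by
  intro η hη x v hx hv
  refine le_trans (Real.exp_le_exp.2 ?_) (hη x v hx hv)
  have := EE_pos (μ := μ) (s := s) n
  nlinarith

theorem sd18_mono [IsProbabilityMeasure μ] {K₁ K₂ Q Q' : ℝ} {n m : ℕ} {a : Pt} (hQ : Q ≤ Q') :
    Sd18 μ s K₁ K₂ n m a Q ⊆ Sd18 μ s K₁ K₂ n m a Q' := by
  intro η hη σ i hσ
  refine le_trans (Real.exp_le_exp.2 ?_) (hη σ i hσ)
  have := EE_pos (μ := μ) (s := s) n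
  nlinarith

/-! ### The chain -/

/-- Two consecutive segments. -/
theorem seg2 {R : Set Pt} {η : Env} {r u u' u'' : ℤ} {m n : ℕ} {A B : ℝ} (hA0 : 0 < A) (hA : A ≤ WR μ s R η (r, u) m (u' - u))
    (hB0 : 0 ≤ B) (hB : B ≤ WR μ s R η (r + m, u') n (u'' - u')) : A * B ≤ WR μ s R η (r, u) (m + n) (u'' - u) := by
  have hk : 0 ≤ u' - u ∧ u' - u ≤ m := by
    by_contra hk
    have : WR μ s R η (r, u) m (u' - u) = 0 := by
      unfold WR
      rw [Zr_eq_zero R η (r, u) hk, mul_zero]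
    linarith
  have h1 := (mul_le_mul_of_nonneg_right hA hB0).trans (mul_le_mul_of_nonneg_left hB (WR_nonneg (μ := μ) (s := s) R η (r, u) m (u' - u)))
  have h2 := WR_mul_le (μ := μ) (s := s) R η (r, u) m n (u'' - u') hk.1 hk.2
  have e1 : u + (u' - u) = u' := by ring
  have e2 : u' - u + (u'' - u') = u'' - u := by ring
  dsimp only at h2
  rw [e1, e2] at h2
  exact h1.trans h2

/-- A chain of `k` segments, from the row `ρ i` to the row `ρ (i + 1)`. -/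
theorem chainR {R : Set Pt} {η : Env} {a : Pt} {ρ : ℕ → ℕ} {u : ℕ → ℤ} {A : ℝ} (k : ℕ) (hρ : ∀ i < k, ρ i ≤ ρ (i + 1))
    (hA : ∀ i < k, Real.exp (-A) ≤ WR μ s R η (a.1 + (ρ i : ℤ), u i) (ρ (i + 1) - ρ i) (u (i + 1) - u i)) :
    Real.exp (-(k * A)) ≤ WR μ s R η (a.1 + (ρ 0 : ℤ), u 0) (ρ k - ρ 0) (u k - u 0) ∧ ρ 0 ≤ ρ k := by
  induction k with
  | zero =>
    simp [WR, Zr]
  | succ k ih =>
    obtain ⟨h1, h3⟩ := ih (fun i hi => hρ i (by omega)) fun i hi => hA i (by omega)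
    have h2 := hA k (by omega)
    have h4 := hρ k (by omega)
    refine ⟨?_, h3.trans h4⟩
    have e1 : -(((k + 1 : ℕ) : ℝ) * A) = -(k * A) + -A := by push_cast; ring
    have e2 : ρ (k + 1) - ρ 0 = (ρ k - ρ 0) + (ρ (k + 1) - ρ k) := by omega
    have e3 : a.1 + (ρ k : ℤ) = a.1 + (ρ 0 : ℤ) + ((ρ k - ρ 0 : ℕ) : ℤ) := by omega
    rw [e1, Real.exp_add, e2]
    rw [e3] at h2
    exact seg2 (Real.exp_pos _) h1 (Real.exp_pos _).le h2

/-! ### The legs -/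

/-- A leg which meets no strip. -/
theorem leg_free {K₁ K₂ A : ℝ} {n m : ℕ} {a : Pt} {η : Env} {r j : ℕ} {x x' : ℤ} (hm : 2 * m ≤ n)
    (hr : r + j ≤ n ∨ (n + m ≤ r ∧ r + j ≤ 3 * n) ∨ 3 * n + m ≤ r) (h : Real.exp (-A) ≤ W μ s η (a.1 + (r : ℤ), x) j (x' - x)) :
    Real.exp (-A) ≤ WR μ s (Sw μ s K₁ K₂ n m a)ᶜ η (a.1 + (r : ℤ), x) j (x' - x) := by
  refine h.trans (WR_mono_on η _ j _ fun p _ h2 h3 h4 => ?_)
  dsimp only at h2 h3
  rcases h4.1 with h5 | h5 <;> omega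

/-- A leg through a strip. -/
theorem leg_tube {K₁ K₂ A ρ κ : ℝ} {n m : ℕ} {a : Pt} {η : Env} {r : ℕ} (hw : 1 ≤ wd μ s n)
    (hρ : ρ ≤ 4 * wd μ s n)
    (hκ : (r = n ∧ κ = -(K₁ + 8)) ∨ (r = 3 * n ∧ κ = K₁ + 8) ∨ K₂ + 8 ≤ |κ|)
    (h : Real.exp (-A) ≤ WR μ s (St μ s ρ (ft μ s a n r κ)) η (ft μ s a n r κ) m ((ft μ s a n (r + m) κ).2 - (ft μ s a n r κ).2)) :
    Real.exp (-A) ≤ WR μ s (Sw μ s K₁ K₂ n m a)ᶜ η (ft μ s a n r κ) m ((ft μ s a n (r + m) κ).2 - (ft μ s a n r κ).2) := by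
  refine h.trans (WR_mono_on η _ m _ fun p hp h2 h3 h4 => ?_)
  have h5 : |((p.2 - (ft μ s a n r κ).2 : ℤ) : ℝ) - sl μ s * ((p.1 - (ft μ s a n r κ).1 : ℤ) : ℝ)| ≤ ρ := hp
  obtain ⟨g1, g2⟩ := ft_lat (μ := μ) (s := s) a n r κ
  have e : lat16 μ s a p = lat16 μ s a (ft μ s a n r κ) + (((p.2 - (ft μ s a n r κ).2 : ℤ) : ℝ) -
      sl μ s * ((p.1 - (ft μ s a n r κ).1 : ℤ) : ℝ)) := by
    unfold lat16
    push_cast
    ring
  have h6 : |lat16 μ s a p - κ * wd μ s n| ≤ 5 * wd μ s n := by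
    rw [e]
    rw [abs_le] at h5 ⊢
    constructor <;> linarith [h5.1, h5.2]
  have h2' : a.1 + (r : ℤ) < p.1 := h2
  have h3' : p.1 ≤ a.1 + (r : ℤ) + m := h3
  rcases hκ with ⟨k1, k2⟩ | ⟨k1, k2⟩ | k1
  · refine h4.2.2 (Or.inl ⟨by omega, by omega, ?_⟩)
    rw [k2] at h6
    have e2 : lat16 μ s a p + (K₁ + 8) * wd μ s n = lat16 μ s a p - -(K₁ + 8) * wd μ s n := by ring
    rw [e2]
    linarith
  · refine h4.2.2 (Or.inr ⟨by omega, by omega, ?_⟩)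
    rw [k2] at h6
    linarith
  · have h7 := h4.2.1
    have h8 : |κ * wd μ s n| = |κ| * wd μ s n := by rw [abs_mul, abs_of_pos (show 0 < wd μ s n by linarith)]
    have h9 : |κ * wd μ s n| ≤ |lat16 μ s a p| + |lat16 μ s a p - κ * wd μ s n| := by
      have := abs_sub_abs_le_abs_sub (κ * wd μ s n) (lat16 μ s a p)
      rw [abs_sub_comm (κ * wd μ s n)] at this
      linarith
    have h10 := mul_le_mul_of_nonneg_right k1 (show 0 ≤ wd μ s n by linarith)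
    rw [← h8] at h10
    nlinarith

section Low

variable [IsProbabilityMeasure μ] {c C : ℝ} {n₀ : ℕ}

/-- A leg inside a box with a good level. -/
theorem leg_box {K κ q : ℝ} {n i : ℕ} {a : Pt} {η : Env} (hw : 1 ≤ wd μ s n) (hq : 0 ≤ q)
    (hb : η ∈ LevS μ s c (1 / 2) n (bx16 μ s (ft μ s a n (i * n) κ) n (K * wd μ s n)) q)
    (hcone : ∀ (b p : Pt) (j : ℕ) (y : ℤ), p ∈ bx16 μ s b n (K * wd μ s n) → (p.1 + (j : ℤ), p.2 + y) ∈ bx16 μ s b n (K * wd μ s n) →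
      1 / 2 * (n : ℝ) ≤ j → 0 ≤ y ∧ y ≤ j) {r j : ℕ} {x x' : ℤ} (h1 : i * n ≤ r) (h2 : r + j ≤ (i + 1) * n) (h3 : n ≤ 2 * j)
    (hx : |lat16 μ s a (a.1 + (r : ℤ), x) - κ * wd μ s n| ≤ (K - 1) * wd μ s n)
    (hx' : |lat16 μ s a (a.1 + ((r + j : ℕ) : ℤ), x') - κ * wd μ s n| ≤ (K - 1) * wd μ s n) :
    Real.exp (-(q * EE μ s n)) ≤ W μ s η (a.1 + (r : ℤ), x) j (x' - x) := by
  obtain ⟨g1, g2⟩ := ft_lat (μ := μ) (s := s) a n (i * n) κ
  have key : ∀ (t : ℕ) (z : ℤ), i * n ≤ t → t ≤ (i + 1) * n → |lat16 μ s a (a.1 + (t : ℤ), z) - κ * wd μ s n| ≤ (K - 1) * wd μ s n →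
      ((a.1 + (t : ℤ), z) : Pt) ∈ bx16 μ s (ft μ s a n (i * n) κ) n (K * wd μ s n) := by
    intro t z k1 k2 k3
    have k2' : t ≤ i * n + n := by rwa [Nat.succ_mul] at k2
    refine ⟨?_, ?_, ?_⟩
    · show a.1 + ((i * n : ℕ) : ℤ) ≤ a.1 + (t : ℤ)
      omega
    · show a.1 + (t : ℤ) ≤ a.1 + ((i * n : ℕ) : ℤ) + n
      omega
    · have e : (((((a.1 + (t : ℤ), z) : Pt).2 - (ft μ s a n (i * n) κ).2 : ℤ) : ℝ) -
          sl μ s * ((((a.1 + (t : ℤ), z) : Pt).1 - (ft μ s a n (i * n) κ).1 : ℤ) : ℝ)) =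
          lat16 μ s a (a.1 + (t : ℤ), z) - lat16 μ s a (ft μ s a n (i * n) κ) := by
        unfold lat16
        push_cast
        ring
      rw [e]
      rw [abs_le] at k3 ⊢
      constructor <;> linarith [k3.1, k3.2]
  have hp := key r x h1 (by omega) hx
  have hp' := key (r + j) x' (by omega) h2 hx'
  have e1 : ((a.1 + ((r + j : ℕ) : ℤ), x') : Pt) = (((a.1 + (r : ℤ), x) : Pt).1 + (j : ℤ), ((a.1 + (r : ℤ), x) : Pt).2 + (x' - x)) := by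
    ext
    · show a.1 + ((r + j : ℕ) : ℤ) = a.1 + (r : ℤ) + (j : ℤ)
      push_cast
      ring
    · show x' = x + (x' - x)
      ring
  rw [e1] at hp'
  have h3' : 1 / 2 * (n : ℝ) ≤ j := by
    have : (n : ℝ) ≤ 2 * j := by exact_mod_cast h3
    linarith
  obtain ⟨c1, c2⟩ := hcone _ _ _ _ hp hp' h3'
  exact lev_low hq hb hp hp' h3' c1 c2

/-- The boxes: five rows of blocks at the lateral place `κ`. -/
def BX (μ : Measure ℝ) (s c K κ : ℝ) (n : ℕ) (a : Pt) (q : ℝ) : Set Env :=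
  {η | ∀ i < 5, η ∈ LevS μ s c (1 / 2) n (bx16 μ s (ft μ s a n (i * n) κ) n (K * wd μ s n)) q}

/-- The tubes. -/
def TB (μ : Measure ℝ) (s κ : ℝ) (n m : ℕ) (a : Pt) (r : ℕ) (A : ℝ) : Set Env :=
  {η | Real.exp (-(A * EE μ s m)) ≤ WR μ s (St μ s ((1 + 1) * wd μ s m) (ft μ s a n r κ)) η (ft μ s a n r κ) m
    ((ft μ s a n (r + m) κ).2 - (ft μ s a n r κ).2)}

/-- The cone condition. -/
def CC (μ : Measure ℝ) (s K : ℝ) (n : ℕ) : Prop :=
  ∀ (b p : Pt) (j : ℕ) (y : ℤ), p ∈ bx16 μ s b n (K * wd μ s n) → (p.1 + (j : ℤ), p.2 + y) ∈ bx16 μ s b n (K * wd μ s n) →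
      1 / 2 * (n : ℝ) ≤ j → 0 ≤ y ∧ y ≤ j

/-- The rows of the chain. -/
def rL (n m : ℕ) : ℕ → ℕ
  | 0 => 0
  | 1 => n
  | 2 => n + m
  | 3 => 2 * n
  | 4 => 3 * n
  | 5 => 3 * n + m
  | 6 => 4 * n
  | _ => 5 * n

/-- The columns of the chain. -/
def uL (μ : Measure ℝ) (s κ₁ κ₂ κ₃ : ℝ) (n m : ℕ) (a : Pt) (x v : ℤ) : ℕ → ℤ
  | 0 => x
  | 1 => (ft μ s a n n κ₁).2
  | 2 => (ft μ s a n (n + m) κ₁).2
  | 3 => (ft μ s a n (2 * n) κ₂).2
  | 4 => (ft μ s a n (3 * n) κ₃).2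
  | 5 => (ft μ s a n (3 * n + m) κ₃).2
  | 6 => (ft μ s a n (4 * n) κ₂).2
  | _ => v

/-- **THE CHAIN** through two tubes. -/
theorem chain7 {K₁ K₂ K κ κ₁ κ₂ κ₃ q A Q : ℝ} {n m : ℕ} {a : Pt} {η : Env} (hw : 1 ≤ wd μ s n) (hwm : wd μ s m ≤ 2 * wd μ s n)
    (hEm : EE μ s m ≤ EE μ s n) (hm : 2 * m ≤ n) (hq : 0 ≤ q) (hA : 0 ≤ A) (hqQ : q ≤ Q) (hAQ : A ≤ Q)
    (hb : η ∈ BX μ s c K κ n a q) (hcone : CC μ s K n) (t1 : η ∈ TB μ s κ₁ n m a n A) (t3 : η ∈ TB μ s κ₃ n m a (3 * n) A)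
    (k1 : |κ₁ - κ| ≤ K - 2) (k2 : |κ₂ - κ| ≤ K - 2) (k3 : |κ₃ - κ| ≤ K - 2)
    (l1 : κ₁ = -(K₁ + 8) ∨ K₂ + 8 ≤ |κ₁|) (l3 : κ₃ = K₁ + 8 ∨ K₂ + 8 ≤ |κ₃|) {x v : ℤ}
    (hx : |lat16 μ s a (a.1, x) - κ * wd μ s n| ≤ (K - 1) * wd μ s n)
    (hv : |lat16 μ s a (a.1 + ((5 * n : ℕ) : ℤ), v) - κ * wd μ s n| ≤ (K - 1) * wd μ s n) :
    ∀ i < 7, Real.exp (-(Q * EE μ s n)) ≤ WR μ s (Sw μ s K₁ K₂ n m a)ᶜ η (a.1 + (rL n m i : ℤ), uL μ s κ₁ κ₂ κ₃ n m a x v i)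
      (rL n m (i + 1) - rL n m i) (uL μ s κ₁ κ₂ κ₃ n m a x v (i + 1) - uL μ s κ₁ κ₂ κ₃ n m a x v i) := by
  have hE := EE_pos (μ := μ) (s := s) n
  have hEm0 := EE_pos (μ := μ) (s := s) m
  have hw0 : 0 ≤ wd μ s n := by linarith
  have eq1 : Real.exp (-(Q * EE μ s n)) ≤ Real.exp (-(q * EE μ s n)) := Real.exp_le_exp.2 (by nlinarith)
  have eq2 : Real.exp (-(Q * EE μ s n)) ≤ Real.exp (-(A * EE μ s m)) := Real.exp_le_exp.2 (by
    have h1 : A * EE μ s m ≤ A * EE μ s n := mul_le_mul_of_nonneg_left hEm hA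
    have h2 : A * EE μ s n ≤ Q * EE μ s n := mul_le_mul_of_nonneg_right hAQ hE.le
    linarith)
  have hL : ∀ (r : ℕ) (τ : ℝ), |τ - κ| ≤ K - 2 → |lat16 μ s a (ft μ s a n r τ) - κ * wd μ s n| ≤ (K - 1) * wd μ s n := by
    intro r τ h1
    obtain ⟨g1, g2⟩ := ft_lat (μ := μ) (s := s) a n r τ
    have h2 := mul_le_mul_of_nonneg_right h1 hw0
    have h3 : |(τ - κ) * wd μ s n| ≤ (K - 2) * wd μ s n := by rwa [abs_mul, abs_of_nonneg hw0]
    rw [abs_le] at h3 ⊢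
    constructor <;> linarith [h3.1, h3.2]
  have hρ : (1 + 1) * wd μ s m ≤ 4 * wd μ s n := by linarith
  intro i hi
  interval_cases i
  · have e : rL n m (0 + 1) - rL n m 0 = n := by simp [rL]
    rw [e]
    refine eq1.trans (leg_free hm (Or.inl ?_) ?_)
    · simp [rL]
    · refine leg_box (i := 0) hw hq (hb 0 (by omega)) hcone ?_ ?_ (by omega) ?_ ?_
      · simp [rL]
      · simp [rL]
      · have e1 : a.1 + ((rL n m 0 : ℕ) : ℤ) = a.1 := by simp [rL]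
        rw [e1]
        exact hx
      · have e1 : rL n m 0 + n = n := by simp [rL]
        rw [e1]
        exact hL n κ₁ k1
  · have e : rL n m (1 + 1) - rL n m 1 = m := by simp [rL]
    rw [e]
    exact eq2.trans (leg_tube hw hρ (by
      rcases l1 with l1 | l1
      · exact Or.inl ⟨rfl, l1⟩
      · exact Or.inr (Or.inr l1)) t1)
  · have e : rL n m (2 + 1) - rL n m 2 = n - m := by simp only [rL]; omega
    rw [e]
    refine eq1.trans (leg_free hm (Or.inr (Or.inl ⟨?_, ?_⟩)) ?_)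
    · simp [rL]
    · simp only [rL]; omega
    · refine leg_box (i := 1) hw hq (hb 1 (by omega)) hcone ?_ ?_ (by omega) ?_ ?_
      · simp only [rL]; omega
      · simp only [rL]; omega
      · exact hL (n + m) κ₁ k1
      · have e1 : rL n m 2 + (n - m) = 2 * n := by simp only [rL]; omega
        rw [e1]
        exact hL (2 * n) κ₂ k2
  · have e : rL n m (3 + 1) - rL n m 3 = n := by simp only [rL]; omega
    rw [e]
    refine eq1.trans (leg_free hm (Or.inr (Or.inl ⟨?_, ?_⟩)) ?_)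
    · simp only [rL]; omega
    · simp only [rL]; omega
    · refine leg_box (i := 2) hw hq (hb 2 (by omega)) hcone ?_ ?_ (by omega) ?_ ?_
      · simp only [rL]; omega
      · simp only [rL]; omega
      · exact hL (2 * n) κ₂ k2
      · have e1 : rL n m 3 + n = 3 * n := by simp only [rL]; omega
        rw [e1]
        exact hL (3 * n) κ₃ k3
  · have e : rL n m (4 + 1) - rL n m 4 = m := by simp only [rL]; omega
    rw [e]
    exact eq2.trans (leg_tube hw hρ (by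
      rcases l3 with l3 | l3
      · exact Or.inr (Or.inl ⟨rfl, l3⟩)
      · exact Or.inr (Or.inr l3)) t3)
  · have e : rL n m (5 + 1) - rL n m 5 = n - m := by simp only [rL]; omega
    rw [e]
    refine eq1.trans (leg_free hm (Or.inr (Or.inr ?_)) ?_)
    · simp [rL]
    · refine leg_box (i := 3) hw hq (hb 3 (by omega)) hcone ?_ ?_ (by omega) ?_ ?_
      · simp only [rL]; omega
      · simp only [rL]; omega
      · exact hL (3 * n + m) κ₃ k3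
      · have e1 : rL n m 5 + (n - m) = 4 * n := by simp only [rL]; omega
        rw [e1]
        exact hL (4 * n) κ₂ k2
  · have e : rL n m (6 + 1) - rL n m 6 = n := by simp only [rL]; omega
    rw [e]
    refine eq1.trans (leg_free hm (Or.inr (Or.inr ?_)) ?_)
    · simp only [rL]; omega
    · refine leg_box (i := 4) hw hq (hb 4 (by omega)) hcone ?_ ?_ (by omega) ?_ ?_
      · simp only [rL]; omega
      · simp only [rL]; omega
      · exact hL (4 * n) κ₂ k2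
      · have e1 : rL n m 6 + n = 5 * n := by simp only [rL]; omega
        rw [e1]
        exact hv

/-- **FROM THE BOXES AND THE TUBES TO THE LOWER LEVELS.** -/
theorem lo18_of {K₁ K₂ q A Q : ℝ} {n m : ℕ} {a : Pt} {η : Env} (hw : 1 ≤ wd μ s n) (hwm : wd μ s m ≤ 2 * wd μ s n)
    (hEm : EE μ s m ≤ EE μ s n) (hm : 2 * m ≤ n) (hK₁ : 0 ≤ K₁) (hK₂ : 0 ≤ K₂) (hq : 0 ≤ q) (hA : 0 ≤ A) (hqQ : q ≤ Q) (hAQ : A ≤ Q)
    (hb : η ∈ BX μ s c (K₁ + K₂ + 16) 0 n a q) (hcone : CC μ s (K₁ + K₂ + 16) n) (t1 : η ∈ TB μ s (-(K₁ + 8)) n m a n A)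
    (t3 : η ∈ TB μ s (K₁ + 8) n m a (3 * n) A) : η ∈ Lo18 μ s K₁ K₂ n m a (7 * Q) := by
  intro x v hx hv
  have hw0 : 0 ≤ wd μ s n := by linarith
  have hmono : ∀ i < 7, rL n m i ≤ rL n m (i + 1) := by
    intro i hi
    interval_cases i <;> simp only [rL] <;> omega
  have h1 := (chainR 7 hmono (chain7 (K₁ := K₁) (K₂ := K₂) (κ₂ := 0) hw hwm hEm hm hq hA hqQ hAQ hb hcone t1 t3
    (by rw [sub_zero, abs_neg, abs_of_nonneg (by linarith)]; linarith)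
    (by rw [sub_zero, abs_zero]; linarith) (by rw [sub_zero, abs_of_nonneg (by linarith)]; linarith) (Or.inl rfl) (Or.inl rfl)
    (x := x) (v := v)
    (by
      rw [zero_mul, sub_zero]
      exact hx.trans (mul_le_mul_of_nonneg_right (by linarith) hw0))
    (by
      rw [zero_mul, sub_zero]
      exact hv.trans (mul_le_mul_of_nonneg_right (by linarith) hw0)))).1
  have e0 : a.1 + ((rL n m 0 : ℕ) : ℤ) = a.1 := by simp [rL]
  have e1 : rL n m 7 - rL n m 0 = 5 * n := by simp [rL]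
  rw [e0, e1] at h1
  have e2 : ((7 : ℕ) : ℝ) * (Q * EE μ s n) = 7 * Q * EE μ s n := by push_cast; ring
  rw [e2] at h1
  exact h1

/-- One side. -/
theorem sd18_one {K₁ K₂ σ q A Q : ℝ} {n m : ℕ} {a : Pt} {η : Env} (hw : 1 ≤ wd μ s n) (hwm : wd μ s m ≤ 2 * wd μ s n)
    (hEm : EE μ s m ≤ EE μ s n) (hm : 2 * m ≤ n) (hσ : σ = 1 ∨ σ = -1) (hq : 0 ≤ q) (hA : 0 ≤ A) (hqQ : q ≤ Q)
    (hAQ : A ≤ Q) (hb : η ∈ BX μ s c 14 (σ * K₂) n a q) (hcone : CC μ s 14 n) (t1 : η ∈ TB μ s (σ * (K₂ + 8)) n m a n A)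
    (t3 : η ∈ TB μ s (σ * (K₂ + 8)) n m a (3 * n) A) (i : Fin 3) :
    Real.exp (-(7 * Q * EE μ s n)) ≤ WR μ s (Sw μ s K₁ K₂ n m a)ᶜ η
      (ft μ s a n (rw3 n m i) (σ * (K₂ - 2))) (5 * n - rw3 n m i)
      ((ft μ s a n (5 * n) (σ * (K₂ + 8))).2 - (ft μ s a n (rw3 n m i) (σ * (K₂ - 2))).2) := by
  have hE := EE_pos (μ := μ) (s := s) n
  have hw0 : 0 ≤ wd μ s n := by linarith
  have hQ : 0 ≤ Q := hA.trans hAQ
  have hs2 : σ * σ = 1 := by rcases hσ with rfl | rfl <;> norm_num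
  have habs : |σ| = 1 := by rcases hσ with rfl | rfl <;> norm_num
  have eq1 : Real.exp (-(Q * EE μ s n)) ≤ Real.exp (-(q * EE μ s n)) := Real.exp_le_exp.2 (by nlinarith)
  have hK8 : |σ * (K₂ + 8) - σ * K₂| ≤ 14 - 2 := by
    rw [show σ * (K₂ + 8) - σ * K₂ = σ * 8 by ring, abs_mul, habs]
    norm_num
  have hK8' : K₂ + 8 ≤ |σ * (K₂ + 8)| := by
    rw [abs_mul, habs, one_mul]
    exact le_abs_self _
  have hL : ∀ (r : ℕ) (τ : ℝ), |τ - σ * K₂| ≤ 14 - 2 →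
      |lat16 μ s a (ft μ s a n r τ) - σ * K₂ * wd μ s n| ≤ (14 - 1) * wd μ s n := by
    intro r τ h1
    obtain ⟨g1, g2⟩ := ft_lat (μ := μ) (s := s) a n r τ
    have h2 := mul_le_mul_of_nonneg_right h1 hw0
    have h3 : |(τ - σ * K₂) * wd μ s n| ≤ (14 - 2) * wd μ s n := by rwa [abs_mul, abs_of_nonneg hw0]
    rw [abs_le] at h3 ⊢
    constructor <;> linarith [h3.1, h3.2]
  have hK2 : |σ * (K₂ - 2) - σ * K₂| ≤ 14 - 2 := by
    rw [show σ * (K₂ - 2) - σ * K₂ = σ * (-2) by ring, abs_mul, habs]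
    norm_num
  have hmono : ∀ i < 7, rL n m i ≤ rL n m (i + 1) := by
    intro i hi
    interval_cases i <;> simp only [rL] <;> omega
  have hch := chain7 (K₁ := K₁) (K₂ := K₂) (a := a) (η := η) (κ := σ * K₂) (κ₂ := σ * (K₂ + 8)) (n := n) (m := m) hw hwm hEm hm hq hA hqQ hAQ hb hcone t1 t3 hK8 hK8
    hK8 (Or.inr hK8') (Or.inr hK8') (x := (ft μ s a n 0 (σ * (K₂ - 2))).2) (v := (ft μ s a n (5 * n) (σ * (K₂ + 8))).2)
    (by
      have := hL 0 (σ * (K₂ - 2)) hK2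
      have e : ft μ s a n 0 (σ * (K₂ - 2)) = (a.1, (ft μ s a n 0 (σ * (K₂ - 2))).2) := by
        ext
        · simp [ft]
        · rfl
      rw [e] at this
      exact this)
    (hL (5 * n) (σ * (K₂ + 8)) hK8)
  fin_cases i
  · have h1 := (chainR 7 hmono hch).1
    have e1 : rL n m 7 - rL n m 0 = 5 * n := by simp [rL]
    rw [e1] at h1
    have e2 : ((7 : ℕ) : ℝ) * (Q * EE μ s n) = 7 * Q * EE μ s n := by push_cast; ring
    rw [e2] at h1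
    exact h1
  · have h1 := (chainR (R := (Sw μ s K₁ K₂ n m a)ᶜ) (η := η) (a := a) (μ := μ) (s := s) (ρ := fun i => rL n m (i + 2))
      (u := fun i => if i = 0 then (ft μ s a n (n + m) (σ * (K₂ - 2))).2 else
        uL μ s (σ * (K₂ + 8)) (σ * (K₂ + 8)) (σ * (K₂ + 8)) n m a (ft μ s a n 0 (σ * (K₂ - 2))).2
          (ft μ s a n (5 * n) (σ * (K₂ + 8))).2 (i + 2)) (A := Q * EE μ s n) 5 (fun i hi => hmono (i + 2) (by omega)) (by
      intro i hi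
      by_cases h0 : i = 0
      · subst h0
        rw [if_pos rfl, if_neg (by omega)]
        have e : rL n m (0 + 1 + 2) - rL n m (0 + 2) = n - m := by simp only [rL]; omega
        show Real.exp (-(Q * EE μ s n)) ≤ WR μ s (Sw μ s K₁ K₂ n m a)ᶜ η (a.1 + ((rL n m (0 + 2) : ℕ) : ℤ), (ft μ s a n (n + m) (σ * (K₂ - 2))).2)
          (rL n m (0 + 1 + 2) - rL n m (0 + 2)) _
        rw [e]
        refine eq1.trans (leg_free hm (Or.inr (Or.inl ⟨?_, ?_⟩)) ?_)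
        · simp [rL]
        · simp only [rL]; omega
        · refine leg_box (i := 1) hw hq (hb 1 (by omega)) hcone ?_ ?_ (by omega) ?_ ?_
          · simp only [rL]; omega
          · simp only [rL]; omega
          · exact hL (n + m) (σ * (K₂ - 2)) hK2
          · have e1 : rL n m (0 + 2) + (n - m) = 2 * n := by simp only [rL]; omega
            rw [e1]
            exact hL (2 * n) (σ * (K₂ + 8)) hK8
      · rw [if_neg h0, if_neg (by omega)]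
        exact hch (i + 2) (by omega))).1
    have e1 : rL n m (5 + 2) - rL n m (0 + 2) = 5 * n - (n + m) := by simp [rL]
    rw [if_pos rfl, if_neg (by omega)] at h1
    rw [e1] at h1
    refine le_trans (Real.exp_le_exp.2 ?_) h1
    push_cast
    nlinarith [mul_nonneg hQ hE.le]
  · have h1 := (chainR (R := (Sw μ s K₁ K₂ n m a)ᶜ) (η := η) (a := a) (μ := μ) (s := s) (ρ := fun i => rL n m (i + 5))
      (u := fun i => if i = 0 then (ft μ s a n (3 * n + m) (σ * (K₂ - 2))).2 else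
        uL μ s (σ * (K₂ + 8)) (σ * (K₂ + 8)) (σ * (K₂ + 8)) n m a (ft μ s a n 0 (σ * (K₂ - 2))).2
          (ft μ s a n (5 * n) (σ * (K₂ + 8))).2 (i + 5)) (A := Q * EE μ s n) 2 (fun i hi => hmono (i + 5) (by omega)) (by
      intro i hi
      by_cases h0 : i = 0
      · subst h0
        rw [if_pos rfl, if_neg (by omega)]
        have e : rL n m (0 + 1 + 5) - rL n m (0 + 5) = n - m := by simp only [rL]; omega
        show Real.exp (-(Q * EE μ s n)) ≤ WR μ s (Sw μ s K₁ K₂ n m a)ᶜ η (a.1 + ((rL n m (0 + 5) : ℕ) : ℤ), (ft μ s a n (3 * n + m) (σ * (K₂ - 2))).2)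
          (rL n m (0 + 1 + 5) - rL n m (0 + 5)) _
        rw [e]
        refine eq1.trans (leg_free hm (Or.inr (Or.inr ?_)) ?_)
        · simp [rL]
        · refine leg_box (i := 3) hw hq (hb 3 (by omega)) hcone ?_ ?_ (by omega) ?_ ?_
          · simp only [rL]; omega
          · simp only [rL]; omega
          · exact hL (3 * n + m) (σ * (K₂ - 2)) hK2
          · have e1 : rL n m (0 + 5) + (n - m) = 4 * n := by simp only [rL]; omega
            rw [e1]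
            exact hL (4 * n) (σ * (K₂ + 8)) hK8
      · rw [if_neg h0, if_neg (by omega)]
        exact hch (i + 5) (by omega))).1
    have e1 : rL n m (2 + 5) - rL n m (0 + 5) = 5 * n - (3 * n + m) := by simp [rL]
    rw [if_pos rfl, if_neg (by omega)] at h1
    rw [e1] at h1
    refine le_trans (Real.exp_le_exp.2 ?_) h1
    push_cast
    nlinarith [mul_nonneg hQ hE.le]

end Low

end

end Pool.Agent.W_7d29a1_C1.GL18
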