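import Pool.Agent.W_7d29a1_C1.NumH58

/-!
MP_7d29a1_pr, attractor route, [C1] SEP: THE GATE WITH ITS NUMBERS. (helper58)

`gate58`: the clause (gt) from `NumT58`, the typical set `TF58`, the good set of the walls and one profile clause at the row `a + 5 n`.
-/

set_option autoImplicit false

namespace Pool.Agent.W_7d29a1_C1.PW58

open MeasureTheory ProbabilityTheory Finset
open Pool.Agent.W_7d29a1_F Pool.Agent.W_7d29a1_h4g Pool.Agent.W_7d29a1_H Pool.Agent.W_7d29a1_HS Pool.Agent.W_7d29a1_HL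
open Pool.Agent.W_7d29a1_C1
open Pool.Agent.W_7d29a1_C1.K91 (wt wt_pos)
open Pool.Agent.W_7d29a1_C1.K91P (fw bw bw_pos fw_nonneg)
open Pool.Agent.W_7d29a1_C1.U16 (ker ker_nonneg ker_eq_zero lat16 ker_W)
open Pool.Agent.W_7d29a1_C1.H75
open Pool.Agent.W_7d29a1_C1.GL18
open Pool.Agent.W_7d29a1_C1.Gt66

noncomputable section

attribute [local instance 10] Classical.propDecidable

variable {μ : Measure ℝ} {s c C : ℝ} {n₀ : ℕ}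

/-- **THE GATE WITH ITS NUMBERS**, `hZ` a letter. -/
theorem gateZ58 [IsProbabilityMeasure μ] (h : In μ s c C n₀) {k₀ R G : ℝ} {j K1h M K2h : ℕ} {U₀ Q₀ U₁ Q₁ U Q A B Y p₀ ε : ℝ}
    {n₂ T n m K₁ K₂ : ℕ} (H : NumT58 μ s c k₀ R G j K1h M K2h U₀ Q₀ U₁ Q₁ U Q A B Y p₀ ε n₂ T n m K₁ K₂) (hU : 0 ≤ U) (hp₀ : 0 < p₀)
    {a N : ℕ} {x0 : ℤ} {η : Env} (hN : a + 5 * n ≤ N)
    (hη : η ∈ TF58 μ s c K1h K2h K₁ K₂ U₀ Q₀ U₁ Q₁ U Q Y n m ((a : ℤ), x0))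
    {p : ℕ → ℝ} (hp0 : ∀ k, 0 < p k) {τ : ℝ} (hp : ∀ k, a ≤ k → k < a + 5 * n → p k = Real.exp (s + τ)) {k : ℕ} {q : ℤ} (hk : k + 1 ≤ a)
    (hD : η ∈ Gd66 (Ps (Co58 μ s K₁ n x0) (Ic a k q) (5 * n)) (kap p a N (kc p (k + 1) a q))
      (fun π π' => DT58 μ s (Sw μ s K₁ K₂ n m ((a : ℤ), x0)) (Ex66 a π π') ((a : ℤ), x0) M m A B) (p₀ / 2))
    {b y' : ℝ} (hprof : ∀ v v' : ℤ, |lt μ s x0 (5 * n) v| ≤ K₁ * wd μ s n → |lt μ s x0 (5 * n) v'| ≤ R * wd μ s T →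
      bw (wt η) p (a + 5 * n) (N - (a + 5 * n)) v ≤ Real.exp b * bw (wt η) p (a + 5 * n) (N - (a + 5 * n)) v')
    {v : ℤ} (hv : |lt μ s x0 (5 * n) v| ≤ K₁ * wd μ s n)
    (hZ : Z1 (wt η) p N a (5 * n) (Co58 μ s K₁ n x0) k q ≤
      Real.exp y' * (ker (wt η) p (k + 1) (a + 5 * n - (k + 1)) q v * bw (wt η) p (a + 5 * n) (N - (a + 5 * n)) v))
    (hb : b + 2 * EE μ s n + |τ| * (((K₁ : ℝ) + K₂ + 9) * wd μ s n) + y' ≤ G * EE μ s T) (y : ℤ) :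
    ker (wt η) p a (5 * n) y v * Z1 (wt η) p N a (5 * n) (Co58 μ s K₁ n x0) k q ≤
      12 / p₀ * (bw (wt η) p a (N - a) y * ker (wt η) p (k + 1) (a + 5 * n - (k + 1)) q v) := by
  obtain ⟨⟨⟨⟨hLo, hSd⟩, hUp, hUs⟩, hJp, hX⟩, hCo, hUp0⟩ := hη
  have w1 := H.sc.w1
  have w0 : 0 < wd μ s n := by linarith
  have hK12 : (K₁ : ℝ) + 3 ≤ K₂ := by exact_mod_cast H.K12
  have hK2h : (K₂ : ℝ) ≤ K2h := by exact_mod_cast H.k2h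
  have hK10 : (0 : ℝ) ≤ K₁ := Nat.cast_nonneg _
  have hE : EE μ s n ≠ 0 := (EE_pos n).ne'
  obtain ⟨q₁, hq₁⟩ : ∃ q₁ : ℝ, q₁ = b / EE μ s n := ⟨_, rfl⟩
  have hq₁' : q₁ * EE μ s n = b := by rw [hq₁, div_mul_cancel₀ _ hE]
  obtain ⟨q₃, hq₃⟩ : ∃ q₃ : ℝ, q₃ = |τ| * (((K₁ : ℝ) + K₂ + 9) * wd μ s n) / EE μ s n := ⟨_, rfl⟩
  have hq₃' : q₃ * EE μ s n = |τ| * (((K₁ : ℝ) + K₂ + 9) * wd μ s n) := by rw [hq₃, div_mul_cancel₀ _ hE]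
  obtain ⟨e₃, he₃⟩ : ∃ e₃ : ℝ, e₃ = Real.exp ((q₁ + 2 * 1 + q₃ + U₁ + Q₁) * EE μ s n -
      hc μ s c (2 * n) * (((K₂ : ℝ) - 2 - K₁) * wd μ s n - 1)) := ⟨_, rfl⟩
  refine gtT58 h H.n1 H.m1 H.m2 w1 hU (by linarith) (K := (K2h : ℝ) + 3) (by linarith) hN hLo hUp hJp hp0 hp hk hp₀ hD
    (fun π π' hC i r x h1 h2 h3 => H.wallD a x0 π π' η hC i r x h1 h2 h3) hv (e₃ := e₃) (G₃ := Real.exp y')
    (by rw [he₃]; positivity) (Real.exp_pos _).le ?_ (fun i z hz => ?_) hZ H.hep y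
  · rw [he₃]
    refine H.heG _ y' ?_
    have e1 : (q₁ + 2 * 1 + q₃ + U₁ + Q₁) * EE μ s n = q₁ * EE μ s n + 2 * EE μ s n + q₃ * EE μ s n + (U₁ + Q₁) * EE μ s n := by ring
    rw [e1, hq₁', hq₃']
    linarith
  · refine side87S h hp0 hp hN H.m2 H.n1 w1 (K₁ := K₁) (K₂ := K₂) (K := (K2h : ℝ) + 10) (q := 1) (q₁ := q₁) (q₃ := q₃) hK10 (by linarith)
      (by linarith) hSd hUs hX hv (fun σ hσ => ?_) hq₃'.ge he₃.ge i z hz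
    rw [hq₁']
    refine hprof v _ hv ?_
    have f1 := ft_lat (μ := μ) (s := s) ((a : ℤ), x0) n (5 * n) (σ * ((K₂ : ℝ) + 8))
    obtain ⟨v₀, hv₀⟩ : ∃ v₀, v₀ = (ft μ s ((a : ℤ), x0) n (5 * n) (σ * ((K₂ : ℝ) + 8))).2 := ⟨_, rfl⟩
    have ef : ft μ s ((a : ℤ), x0) n (5 * n) (σ * ((K₂ : ℝ) + 8)) = (((a + 5 * n : ℕ) : ℤ), v₀) := by
      rw [hv₀, Nat.cast_add]
      rfl
    rw [ef, lat_lt] at f1
    rw [← hv₀]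
    have hσ1 : |σ| = 1 := by rcases hσ with rfl | rfl <;> simp
    have f2 : |σ * ((K₂ : ℝ) + 8) * wd μ s n| = ((K₂ : ℝ) + 8) * wd μ s n := by
      rw [abs_mul, abs_mul, hσ1, one_mul, abs_of_nonneg (show (0 : ℝ) ≤ (K₂ : ℝ) + 8 by linarith), abs_of_pos w0]
    have f3 := abs_le.1 f2.le
    have f4 := H.le_R
    rw [abs_le]
    constructor <;> linarith [f1.1, f1.2, f3.1, f3.2]

end

end Pool.Agent.W_7d29a1_C1.PW58
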