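import Pool.Agent.W_7d29a1_C1.GateN58
import Pool.Agent.W_7d29a1_C1.MovI71
import Pool.Agent.W_7d29a1_C1.MovJ42

/-!
MP_7d29a1_pr, attractor route, [C1] SEP: THE DATA `GwIn` OF ONE WINDOW FROM THE NUMBERS. (helper58)

`TF58_meas`, `TF58_dec`, `TF58_rows`, `TF58_gl`; `sideN58`: the sides; **`gwN58`**: `NumT58` to `GwIn` (`hZ` a letter).
-/

set_option autoImplicit false

namespace Pool.Agent.W_7d29a1_C1.PW58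

open MeasureTheory ProbabilityTheory Finset
open Pool.Agent.W_7d29a1_F Pool.Agent.W_7d29a1_h4g Pool.Agent.W_7d29a1_H Pool.Agent.W_7d29a1_HS Pool.Agent.W_7d29a1_HL
open Pool.Agent.W_7d29a1_C1
open Pool.Agent.W_7d29a1_C1.K91 (wt wt_pos)
open Pool.Agent.W_7d29a1_C1.K91P (fw bw bw_pos fw_nonneg)
open Pool.Agent.W_7d29a1_C1.U16 (ker ker_nonneg ker_eq_zero lat16 ker_W)
open Pool.Agent.W_7d29a1_C1.H60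
open Pool.Agent.W_7d29a1_C1.H75
open Pool.Agent.W_7d29a1_C1.GL18
open Pool.Agent.W_7d29a1_C1.Gt66
open Pool.Agent.W_7d29a1_C1.S71 (gl gl_of_mem gl_of_not_mem Off)
open Pool.Agent.W_7d29a1_C1.F31 (DecO FinO)
open Pool.Agent.W_7d29a1_C1.SD53 (Luk)
open Pool.Agent.W_7d29a1_C1.MJ42 (dec_off42 x87_off42 x87_rows42 gl_rows42)
open Pool.Agent.W_7d29a1_C1.MC71 (GwIn)
open scoped ENNReal

noncomputable section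

attribute [local instance 10] Classical.propDecidable

variable {μ : Measure ℝ} {s c C : ℝ} {n₀ : ℕ}

/-! ### The typical set -/

section sets

variable {K1h K2h K₁ K₂ : ℕ} {U₀ Q₀ U₁ Q₁ U Q Y : ℝ} {n m : ℕ} {b : Pt}

theorem TF58_meas [IsProbabilityMeasure μ] : MeasurableSet (TF58 μ s c K1h K2h K₁ K₂ U₀ Q₀ U₁ Q₁ U Q Y n m b) :=
  ((((lo18_meas _ _ _ _ _ _).inter (sd18_meas _ _ _ _ _ _)).inter ((up18_meas _ _ _ _).inter (us18_meas _ _ _ _ _))).inter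
    ((jp18_meas _ _ _ _ _).inter (meas_X87 _ _ _ _ _))).inter ((co18_meas _ _ _ _).inter (up18_meas _ _ _ _))

theorem co18_offN {K Kc₁ Kc₂ Qc : ℝ} (hm : 2 * m ≤ n) : Off (Sw μ s Kc₁ Kc₂ n m b) (Co18 μ s K n b Qc) := by
  intro η η' h
  refine co18_dep fun p h1 h2 => h p fun h3 => ?_
  rcases h3.1 with h4 | h4 <;> omega

theorem TF58_dec (hm : 2 * m ≤ n) : DecO (Sw μ s K₁ K₂ n m b)ᶜ (TF58 μ s c K1h K2h K₁ K₂ U₀ Q₀ U₁ Q₁ U Q Y n m b) :=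
  DecO.inter (DecO.inter (DecO.inter (DecO.inter (dec_off42 (lo18_off K₁ K₂ n m b Q)) (dec_off42 (sd18_off K₁ K₂ n m b Q₁)))
    (DecO.inter (DecO.of_dec up18_dec _) (DecO.of_dec us18_dec _))) (DecO.inter (DecO.of_dec jp18_dec _) (dec_off42 (x87_off42 hm))))
    (DecO.inter (dec_off42 (co18_offN hm)) (DecO.of_dec up18_dec _))

theorem TF58_rows [IsProbabilityMeasure μ] (hn : 1 ≤ n) (hm : 2 * m ≤ n) {η η' : Env}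
    (h : ∀ p ∈ rows b.1 (b.1 + ((5 * n : ℕ) : ℤ)), η p = η' p) :
    η ∈ TF58 μ s c K1h K2h K₁ K₂ U₀ Q₀ U₁ Q₁ U Q Y n m b ↔ η' ∈ TF58 μ s c K1h K2h K₁ K₂ U₀ Q₀ U₁ Q₁ U Q Y n m b := by
  unfold TF58
  simp only [Set.mem_inter_iff, lo18_rows h, sd18_rows hm h, up18_rows h, us18_rows hm h, jp18_rows hm h, co18_rows h, x87_rows42 hn h]

/-- Blind to the sites above the block. -/
theorem TF58_gl [IsProbabilityMeasure μ] (hn : 1 ≤ n) (hm : 2 * m ≤ n) {B : Set Pt} (hB : ∀ p ∈ B, b.1 + ((5 * n : ℕ) : ℤ) < p.1) (η ω : Env) :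
    gl B η ω ∈ TF58 μ s c K1h K2h K₁ K₂ U₀ Q₀ U₁ Q₁ U Q Y n m b ↔ ω ∈ TF58 μ s c K1h K2h K₁ K₂ U₀ Q₀ U₁ Q₁ U Q Y n m b :=
  TF58_rows hn hm (gl_rows42 hB η ω)

theorem TF58_off [IsProbabilityMeasure μ] (hn : 1 ≤ n) (hm : 2 * m ≤ n) {B : Set Pt} (hB : ∀ p ∈ B, b.1 + ((5 * n : ℕ) : ℤ) < p.1) :
    Off B (TF58 μ s c K1h K2h K₁ K₂ U₀ Q₀ U₁ Q₁ U Q Y n m b) := fun _ _ h =>
  TF58_rows hn hm fun p hp => h p fun hp' => absurd (hB p hp') (not_lt.2 hp.2)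

end sets

/-! ### The sides -/

/-- The exponent of the sides: `b` the profile, `r` the slope. -/
def eN58 (μ : Measure ℝ) (s c U₁ Q₁ b r : ℝ) (n K₁ K₂ : ℕ) : ℝ :=
  Real.exp (b + 2 * EE μ s n + r + (U₁ + Q₁) * EE μ s n - hc μ s c (2 * n) * (((K₂ : ℝ) - 2 - K₁) * wd μ s n - 1))

section one

variable {k₀ R G : ℝ} {j K1h M K2h : ℕ} {U₀ Q₀ U₁ Q₁ U Q A B Y p₀ ε : ℝ} {n₂ T n m K₁ K₂ : ℕ}

theorem sideN58 [IsProbabilityMeasure μ] (h : In μ s c C n₀)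
    (H : NumT58 μ s c k₀ R G j K1h M K2h U₀ Q₀ U₁ Q₁ U Q A B Y p₀ ε n₂ T n m K₁ K₂) {a N : ℕ} {x0 : ℤ} {η : Env} (hN : a + 5 * n ≤ N)
    (hη : η ∈ TF58 μ s c K1h K2h K₁ K₂ U₀ Q₀ U₁ Q₁ U Q Y n m ((a : ℤ), x0))
    {p : ℕ → ℝ} (hp0 : ∀ k, 0 < p k) {τ : ℝ} (hp : ∀ k, a ≤ k → k < a + 5 * n → p k = Real.exp (s + τ)) {b r : ℝ}
    (hprof : ∀ v v' : ℤ, |lt μ s x0 (5 * n) v| ≤ K₁ * wd μ s n → |lt μ s x0 (5 * n) v'| ≤ R * wd μ s T →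
      bw (wt η) p (a + 5 * n) (N - (a + 5 * n)) v ≤ Real.exp b * bw (wt η) p (a + 5 * n) (N - (a + 5 * n)) v')
    (hr : |τ| * (((K₁ : ℝ) + K₂ + 9) * wd μ s n) ≤ r) {v : ℤ} (hv : |lt μ s x0 (5 * n) v| ≤ K₁ * wd μ s n) (i : Fin 3) (z : ℤ)
    (hz : ¬ |lt μ s x0 (rw3 n m i) z| ≤ ((K₂ : ℝ) - 2) * wd μ s n) :
    ker (wt η) p (a + rw3 n m i) (5 * n - rw3 n m i) z v * bw (wt η) p (a + 5 * n) (N - (a + 5 * n)) v ≤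
      eN58 μ s c U₁ Q₁ b r n K₁ K₂ * bw (wt η) p (a + rw3 n m i) (N - (a + rw3 n m i)) z := by
  obtain ⟨⟨⟨⟨hLo, hSd⟩, hUp, hUs⟩, hJp, hX⟩, hCo, hUp0⟩ := hη
  have w1 := H.sc.w1
  have w0 : 0 < wd μ s n := by linarith
  have hK12 : (K₁ : ℝ) + 3 ≤ K₂ := by exact_mod_cast H.K12
  have hK2h : (K₂ : ℝ) ≤ K2h := by exact_mod_cast H.k2h
  have hK10 : (0 : ℝ) ≤ K₁ := Nat.cast_nonneg _
  have hE : EE μ s n ≠ 0 := (EE_pos n).ne'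
  obtain ⟨q₁, hq₁⟩ : ∃ q₁ : ℝ, q₁ = b / EE μ s n := ⟨_, rfl⟩
  have hq₁' : q₁ * EE μ s n = b := by rw [hq₁, div_mul_cancel₀ _ hE]
  obtain ⟨q₃, hq₃⟩ : ∃ q₃ : ℝ, q₃ = r / EE μ s n := ⟨_, rfl⟩
  have hq₃' : q₃ * EE μ s n = r := by rw [hq₃, div_mul_cancel₀ _ hE]
  have he₃ : Real.exp ((q₁ + 2 * 1 + q₃ + U₁ + Q₁) * EE μ s n - hc μ s c (2 * n) * (((K₂ : ℝ) - 2 - K₁) * wd μ s n - 1)) =
      eN58 μ s c U₁ Q₁ b r n K₁ K₂ := by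
    unfold eN58
    congr 2
    have e1 : (q₁ + 2 * 1 + q₃ + U₁ + Q₁) * EE μ s n = q₁ * EE μ s n + 2 * EE μ s n + q₃ * EE μ s n + (U₁ + Q₁) * EE μ s n := by ring
    rw [e1, hq₁', hq₃']
  refine side87S h hp0 hp hN H.m2 H.n1 w1 (K₁ := K₁) (K₂ := K₂) (K := (K2h : ℝ) + 10) (q := 1) (q₁ := q₁) (q₃ := q₃) hK10 (by linarith)
    (by linarith) hSd hUs hX hv (fun σ hσ => ?_) (by rw [hq₃']; exact hr) he₃.le i z hz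
  rw [hq₁']
  refine hprof v _ hv ?_
  have f1 := ft_lat (μ := μ) (s := s) ((a : ℤ), x0) n (5 * n) (σ * ((K₂ : ℝ) + 8))
  obtain ⟨v₀, hv₀⟩ : ∃ v₀, v₀ = (ft μ s ((a : ℤ), x0) n (5 * n) (σ * ((K₂ : ℝ) + 8))).2 := ⟨_, rfl⟩
  have ef : ft μ s ((a : ℤ), x0) n (5 * n) (σ * ((K₂ : ℝ) + 8)) = (((a + 5 * n : ℕ) : ℤ), v₀) := by
    rw [hv₀, Nat.cast_add]
    rfl
  rw [ef, lat_lt] at f1
  rw [← hv₀]
  have hσ1 : |σ| = 1 := by rcases hσ with rfl | rfl <;> simp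
  have f2 : |σ * ((K₂ : ℝ) + 8) * wd μ s n| = ((K₂ : ℝ) + 8) * wd μ s n := by
    rw [abs_mul, abs_mul, hσ1, one_mul, abs_of_nonneg (show (0 : ℝ) ≤ (K₂ : ℝ) + 8 by linarith), abs_of_pos w0]
  have f3 := abs_le.1 f2.le
  have f4 := H.le_R
  rw [abs_le]
  constructor <;> linarith [f1.1, f1.2, f3.1, f3.2]

/-- `3 e₃ G₃ ≤ 1`. -/
theorem heGN58 [IsProbabilityMeasure μ] (H : NumT58 μ s c k₀ R G j K1h M K2h U₀ Q₀ U₁ Q₁ U Q A B Y p₀ ε n₂ T n m K₁ K₂) {b r y' : ℝ}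
    (hb : b + 2 * EE μ s n + r + y' ≤ G * EE μ s T) : 3 * eN58 μ s c U₁ Q₁ b r n K₁ K₂ * Real.exp y' ≤ 1 :=
  H.heG _ y' (by linarith)

/-- **ONE WINDOW FROM THE NUMBERS**, `hZ` a letter. -/
theorem gwN58 [IsProbabilityMeasure μ] (h : In μ s c C n₀)
    (H : NumT58 μ s c k₀ R G j K1h M K2h U₀ Q₀ U₁ Q₁ U Q A B Y p₀ ε n₂ T n m K₁ K₂) (hU : 0 ≤ U) (hp₀ : 0 < p₀)
    {Γ : Cx} (hΓ : ∀ k, 0 < Γ.p k) {Bw B₂ : Set Pt} {a b' : ℕ} {x0 z₀ : ℤ} {E2 L : Set Env} {Lk : Env → Set Env} {Mi Mo : Set ℤ}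
    {gA Gl Yl : ℝ} {c₁ : ℝ≥0∞} (hN : a + 5 * n ≤ Γ.N)
    (Sw_sub : Sw μ s K₁ K₂ n m ((a : ℤ), x0) ⊆ Bw) (B₂_sub : B₂ ⊆ Bw) (B₂_rows : ∀ x ∈ B₂, ((a + 5 * n : ℕ) : ℤ) < x.1)
    {τ : ℝ} (hp : ∀ k, a ≤ k → k < a + 5 * n → Γ.p k = Real.exp (s + τ))
    (mE : MeasurableSet E2) (dE : DecO (Sw μ s K₁ K₂ n m ((a : ℤ), x0))ᶜ E2)
    (mL : MeasurableSet L) (mLk : ∀ ω, MeasurableSet (Lk ω))
    (pLk : ∀ ω ∈ TF58 μ s c K1h K2h K₁ K₂ U₀ Q₀ U₁ Q₁ U Q Y n m ((a : ℤ), x0) ∩ E2, c₁ ≤ law μ (Lk ω))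
    (toL : ∀ ω ∈ TF58 μ s c K1h K2h K₁ K₂ U₀ Q₀ U₁ Q₁ U Q Y n m ((a : ℤ), x0) ∩ E2, ∀ η ∈ Lk ω, gl B₂ η ω ∈ L)
    (luk : ∀ ω ∈ TF58 μ s c K1h K2h K₁ K₂ U₀ Q₀ U₁ Q₁ U Q Y n m ((a : ℤ), x0) ∩ E2, ∀ η ∈ Lk ω,
      Luk Γ (a + 5 * n) b' Mi Mo Set.univ gA Gl Yl ω (gl B₂ η ω))
    (Mo_core : ∀ v ∈ Mo, |lt μ s x0 (5 * n) v| ≤ K₁ * wd μ s n) (z_Mi : z₀ ∈ Mi) (z_Mo : z₀ ∈ Mo)
    {b r y' : ℝ} (hprof : ∀ ω ∈ E2, ∀ v v' : ℤ, |lt μ s x0 (5 * n) v| ≤ K₁ * wd μ s n → |lt μ s x0 (5 * n) v'| ≤ R * wd μ s T →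
      bw (wt ω) Γ.p (a + 5 * n) (Γ.N - (a + 5 * n)) v ≤ Real.exp b * bw (wt ω) Γ.p (a + 5 * n) (Γ.N - (a + 5 * n)) v')
    (hr : |τ| * (((K₁ : ℝ) + K₂ + 9) * wd μ s n) ≤ r)
    (hZ : ∀ ω ∈ TF58 μ s c K1h K2h K₁ K₂ U₀ Q₀ U₁ Q₁ U Q Y n m ((a : ℤ), x0) ∩ E2, ∀ v, |lt μ s x0 (5 * n) v| ≤ K₁ * wd μ s n →
      ∀ (k : ℕ) (q : ℤ), k + 1 ≤ a → Z1 (wt ω) Γ.p Γ.N a (5 * n) (Co58 μ s K₁ n x0) k q ≤
        Real.exp y' * (ker (wt ω) Γ.p (k + 1) (a + 5 * n - (k + 1)) q v * bw (wt ω) Γ.p (a + 5 * n) (Γ.N - (a + 5 * n)) v))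
    (hb : b + 2 * EE μ s n + r + y' ≤ G * EE μ s T) :
    GwIn μ s c Γ Bw B₂ K₁ K₂ n m a b' x0 z₀ (fun (π π' : Pa (5 * n)) => DT58 μ s (Sw μ s K₁ K₂ n m ((a : ℤ), x0)) (Ex66 a π π') ((a : ℤ), x0) M m A B)
      (TF58 μ s c K1h K2h K₁ K₂ U₀ Q₀ U₁ Q₁ U Q Y n m ((a : ℤ), x0) ∩ E2) L Lk Mi Mo (K2h + 3) Q U Y A
      (eN58 μ s c U₁ Q₁ b r n K₁ K₂) (Real.exp y') p₀ gA Gl Yl c₁ where
  n1 := H.n1
  m1 := H.m1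
  m2 := H.m2
  w1 := H.sc.w1
  U0 := hU
  K12 := by
    have h1 : (K₁ : ℝ) + 3 ≤ K₂ := by exact_mod_cast H.K12
    linarith
  K2K := by
    have h1 : (K₂ : ℝ) ≤ K2h := by exact_mod_cast H.k2h
    linarith
  hN := hN
  p₀_pos := hp₀
  e0 := (Real.exp_pos _).le
  G0 := (Real.exp_pos _).le
  heG := heGN58 H hb
  hep := H.hep
  Sw_sub := Sw_sub
  B₂_sub := B₂_sub
  B₂_rows := B₂_rows
  slope := ⟨τ, hp⟩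
  walls := H.walls a x0
  cS := fun π π' η hη i r x h1 h2 h3 => H.wallD a x0 π π' η hη i r x h1 h2 h3
  mTF := TF58_meas.inter mE
  dTF := DecO.inter (TF58_dec H.m2) dE
  lo := fun ω hω => hω.1.1.1.1.1
  up := fun ω hω => hω.1.1.1.2.1
  jp := fun ω hω => hω.1.1.2.1
  mL := mL
  mLk := mLk
  pLk := pLk
  toL := toL
  side := fun ω hω v hv i y hy => sideN58 h H hN hω.1 hΓ hp (hprof ω hω.2) hr hv i y hy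
  hZ := hZ
  luk := luk
  Mo_core := Mo_core
  z_Mi := z_Mi
  z_Mo := z_Mo

end one

end

end Pool.Agent.W_7d29a1_C1.PW58
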