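import Pool.Agent.W_7d29a1_C1.GateL18
import Pool.Agent.W_7d29a1_C1.JmpL75

/-!
MP_7d29a1_pr, [C1] SEP, THE GATE WITH THIN STRIPS: THE PROBABILITIES OF THE LEVELS. (helper18)

`lo18_prob`: the lower levels through the two tubes, `Q = Q (K₁, K₂, ε)`. `sd18_prob`: the sides, `Q₁ = Q₁ (ε)` only.
`Up18 K U`: all lucks (tilts `0`, `± hc (2 n)`) of the starts of the window `|lat| ≤ K w`, rows `(a, a + 5 n]`, are at most `U EE n`.
`Us18 U₁`: the same for the six starts of the sides, `U₁ = U₁ (ε)` only. `Jp18 Y`: inside a strip (`m` rows, `n = M m`) nothing goes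
from `K₂ w ≤ |lat| ≤ (K₂ + 1) w` to `|lat| ≤ (K₂ - 1) w`: mass at most `exp (- Y EE n)`. The last three are decreasing.
-/

set_option autoImplicit false

namespace Pool.Agent.W_7d29a1_C1.GL18

open MeasureTheory ProbabilityTheory Filter Topology
open Pool.Agent.W_7d29a1_F Pool.Agent.W_7d29a1_h4g Pool.Agent.W_7d29a1_H Pool.Agent.W_7d29a1_HS
open Pool.Agent.W_7d29a1_HR (Dec Fin' V_mono_env)
open Pool.Agent.W_7d29a1_L (T kap Sub_T T_sh)
open Pool.Agent.W_7d29a1_C1.U16 (LevS bx16 lat16 lev_prob lev_low box_cone)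
open Pool.Agent.W_7d29a1_C1.S71 (Off)
open Pool.Agent.W_7d29a1_C1.H75

noncomputable section

variable {μ : Measure ℝ} {s : ℝ} [IsProbabilityMeasure μ] {c C : ℝ} {n₀ : ℕ}

/-! ### Boxes and tubes -/

theorem cc_of (h : In μ s c C n₀) {K : ℝ} (hK : 0 < K) : ∃ n₁ : ℕ, ∀ n : ℕ, n₁ ≤ n → CC μ s K n := by
  obtain ⟨n₁, hn₁⟩ := box_cone h (K := K) (θ := 1 / 2) hK (by norm_num)
  exact ⟨n₁, fun n hn b p j y h1 h2 h3 => hn₁ n hn b n p j y h1 h2 h3⟩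

theorem bx_prob (h : In μ s c C n₀) {K ε : ℝ} (hK : 0 < K) (hε : 0 < ε) : ∃ q : ℝ, 0 ≤ q ∧ ∃ n₁ : ℕ, ∀ n : ℕ, n₁ ≤ n →
    ∀ (κ : ℝ) (a : Pt), (law μ).real (BX μ s c K κ n a q)ᶜ ≤ ε := by
  obtain ⟨A, al, g, hA, hal, hg, -, n1, -, hlev⟩ := lev_prob h (K := K) (θ := 1 / 2) hK (by norm_num) (by norm_num)
  obtain ⟨q, hq1, hq0⟩ : ∃ q : ℝ, A * Real.exp (-(al * q ^ g)) ≤ ε / 5 ∧ 0 ≤ q := by
    have h1 := (tendsto_rpow_atTop hg).const_mul_atTop hal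
    have h2 := (Real.tendsto_exp_neg_atTop_nhds_zero.comp h1).const_mul A
    rw [mul_zero] at h2
    exact ((h2.eventually_le_const (show (0 : ℝ) < ε / 5 by linarith)).and (eventually_ge_atTop 0)).exists
  refine ⟨q, hq0, n1, fun n hn κ a => ?_⟩
  have hsub : (BX μ s c K κ n a q)ᶜ ⊆ ⋃ i ∈ Finset.range 5,
      (LevS μ s c (1 / 2) n (bx16 μ s (ft μ s a n (i * n) κ) n (K * wd μ s n)) q)ᶜ := by
    intro η hη
    simp only [BX, Set.mem_compl_iff, Set.mem_ofPred_eq, not_forall] at hη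
    obtain ⟨i, hi, h1⟩ := hη
    exact Set.mem_biUnion (Finset.mem_coe.2 (Finset.mem_range.2 hi)) h1
  refine (measureReal_mono hsub (measure_ne_top _ _)).trans ((measureReal_biUnion_finset_le _ _).trans
    ((Finset.sum_le_sum fun i _ => (hlev n hn n le_rfl (ft μ s a n (i * n) κ) _ subset_rfl q hq0).trans hq1).trans ?_))
  rw [Finset.sum_const, Finset.card_range, nsmul_eq_mul]
  push_cast
  linarith

theorem tb_prob (h : In μ s c C n₀) {ε : ℝ} (hε : 0 < ε) : ∃ A : ℝ, 0 ≤ A ∧ ∃ m₁ : ℕ, ∀ m : ℕ, m₁ ≤ m →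
    ∀ (κ : ℝ) (n : ℕ) (a : Pt) (r : ℕ), (law μ).real (TB μ s κ n m a r A)ᶜ ≤ ε := by
  obtain ⟨A, hA, m1, hleg⟩ := Pool.Agent.W_7d29a1_C1.H12.leg12 h (C₃ := 1) (q := ε) zero_le_one hε
  obtain ⟨m2, hm2⟩ := eventually_atTop.1 ((wd_tendsto h).eventually_ge_atTop 1)
  refine ⟨A, hA, max m1 m2, fun m hm κ n a r => ?_⟩
  have hw := hm2 m ((le_max_right _ _).trans hm)
  have h1 := hleg m ((le_max_left _ _).trans hm) (ft μ s a n r κ) ((ft μ s a n (r + m) κ).2 - (ft μ s a n r κ).2) (by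
    have g1 := Int.floor_le (sl μ s * r + κ * wd μ s n)
    have g2 := Int.lt_floor_add_one (sl μ s * r + κ * wd μ s n)
    have g3 := Int.floor_le (sl μ s * ((r + m : ℕ) : ℝ) + κ * wd μ s n)
    have g4 := Int.lt_floor_add_one (sl μ s * ((r + m : ℕ) : ℝ) + κ * wd μ s n)
    unfold ft
    push_cast at g1 g2 g3 g4 ⊢
    rw [abs_le]
    constructor <;> linarith)
  have e : (TB μ s κ n m a r A)ᶜ = {η | WR μ s (St μ s ((1 + 1) * wd μ s m) (ft μ s a n r κ)) η (ft μ s a n r κ) m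
      ((ft μ s a n (r + m) κ).2 - (ft μ s a n r κ).2) < Real.exp (-(A * EE μ s m))} := by
    ext η
    simp only [TB, Set.mem_compl_iff, Set.mem_ofPred_eq, not_le]
  rw [e]
  exact h1

/-- Five bad events. -/
theorem five_le {S A B D E F : Set Env} (h : S ⊆ A ∪ B ∪ (D ∪ E) ∪ F) {ε : ℝ} (hA : (law μ).real A ≤ ε) (hB : (law μ).real B ≤ ε)
    (hD : (law μ).real D ≤ ε) (hE : (law μ).real E ≤ ε) (hF : (law μ).real F ≤ ε) : (law μ).real S ≤ 5 * ε := by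
  have h0 := measureReal_mono (μ := law μ) h
  have h1 := measureReal_union_le (μ := law μ) (A ∪ B ∪ (D ∪ E)) F
  have h2 := measureReal_union_le (μ := law μ) (A ∪ B) (D ∪ E)
  have h3 := measureReal_union_le (μ := law μ) A B
  have h4 := measureReal_union_le (μ := law μ) D E
  linarith

/-- **THE LOWER LEVELS** through the two tubes. -/
theorem lo18_prob (h : In μ s c C n₀) {K₁ K₂ ε : ℝ} (hK₁ : 0 ≤ K₁) (hK₂ : 0 ≤ K₂) (hε : 0 < ε) : ∃ Q : ℝ, 0 ≤ Q ∧ ∃ m₁ : ℕ,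
    ∀ n m : ℕ, m₁ ≤ m → 2 * m ≤ n → ∀ a : Pt, (law μ).real (Lo18 μ s K₁ K₂ n m a Q)ᶜ ≤ ε := by
  obtain ⟨q, hq, n1, hbx⟩ := bx_prob h (K := K₁ + K₂ + 16) (ε := ε / 5) (by linarith) (by linarith)
  obtain ⟨A, hA, m1, htb⟩ := tb_prob h (ε := ε / 5) (by linarith)
  obtain ⟨n2, hcc⟩ := cc_of h (K := K₁ + K₂ + 16) (by linarith)
  obtain ⟨n3, hn3⟩ := eventually_atTop.1 ((wd_tendsto h).eventually_ge_atTop 1)
  refine ⟨7 * max q A, by positivity, max (max n1 n2) (max (max n3 m1) 1), fun n m hm hmn a => ?_⟩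
  have k1 : n1 ≤ m := le_trans (le_trans (le_max_left _ _) (le_max_left _ _)) hm
  have k2 : n2 ≤ m := le_trans (le_trans (le_max_right _ _) (le_max_left _ _)) hm
  have k3 : n3 ≤ m := le_trans (le_trans (le_trans (le_max_left _ _) (le_max_left _ _)) (le_max_right _ _)) hm
  have k4 : m1 ≤ m := le_trans (le_trans (le_trans (le_max_right _ _) (le_max_left _ _)) (le_max_right _ _)) hm
  have k5 : 1 ≤ m := le_trans (le_trans (le_max_right _ _) (le_max_right _ _)) hm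
  have hmn' : m ≤ n := by omega
  have hw := hn3 n (k3.trans hmn')
  have hwm := wd_le_two h k5 hmn'
  have hEm : EE μ s m ≤ EE μ s n := EE_mono hmn'
  have b := hbx n (k1.trans hmn') 0 a
  have t1 := htb m k4 (-(K₁ + 8)) n a n
  have t3 := htb m k4 (K₁ + 8) n a (3 * n)
  have hsub : (Lo18 μ s K₁ K₂ n m a (7 * max q A))ᶜ ⊆ (BX μ s c (K₁ + K₂ + 16) 0 n a q)ᶜ ∪ (TB μ s (-(K₁ + 8)) n m a n A)ᶜ ∪
      (∅ ∪ ∅) ∪ (TB μ s (K₁ + 8) n m a (3 * n) A)ᶜ := by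
    intro η hη
    by_contra hcon
    simp only [Set.mem_union, not_or, Set.mem_compl_iff, not_not, Set.mem_empty_iff_false, not_false_eq_true, and_true] at hcon
    obtain ⟨⟨k1, k2⟩, k3⟩ := hcon
    exact hη (lo18_of hw hwm hEm hmn hK₁ hK₂ hq hA (le_max_left _ _) (le_max_right _ _) k1 (hcc n (by omega)) k2 k3)
  have h0 : (law μ).real (∅ : Set Env) ≤ ε / 5 := by
    rw [measureReal_empty]
    linarith
  have := five_le hsub b t1 h0 h0 t3
  linarith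

/-- **THE SIDES**: the cost does not depend on the place of the side. -/
theorem sd18_prob (h : In μ s c C n₀) {ε : ℝ} (hε : 0 < ε) : ∃ Q : ℝ, 0 ≤ Q ∧ ∃ m₁ : ℕ, ∀ (K₁ K₂ : ℝ) (n m : ℕ), m₁ ≤ m →
    2 * m ≤ n → ∀ a : Pt, (law μ).real (Sd18 μ s K₁ K₂ n m a Q)ᶜ ≤ ε := by
  obtain ⟨q, hq, n1, hbx⟩ := bx_prob h (K := 14) (ε := ε / 10) (by norm_num) (by linarith)
  obtain ⟨A, hA, m1, htb⟩ := tb_prob h (ε := ε / 10) (by linarith)
  obtain ⟨n2, hcc⟩ := cc_of h (K := 14) (by norm_num)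
  obtain ⟨n3, hn3⟩ := eventually_atTop.1 ((wd_tendsto h).eventually_ge_atTop 1)
  refine ⟨7 * max q A, by positivity, max (max n1 n2) (max (max n3 m1) 1), fun K₁ K₂ n m hm hmn a => ?_⟩
  have k1 : n1 ≤ m := le_trans (le_trans (le_max_left _ _) (le_max_left _ _)) hm
  have k2 : n2 ≤ m := le_trans (le_trans (le_max_right _ _) (le_max_left _ _)) hm
  have k3 : n3 ≤ m := le_trans (le_trans (le_trans (le_max_left _ _) (le_max_left _ _)) (le_max_right _ _)) hm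
  have k4 : m1 ≤ m := le_trans (le_trans (le_trans (le_max_right _ _) (le_max_left _ _)) (le_max_right _ _)) hm
  have k5 : 1 ≤ m := le_trans (le_trans (le_max_right _ _) (le_max_right _ _)) hm
  have hmn' : m ≤ n := by omega
  have hw := hn3 n (k3.trans hmn')
  have hwm := wd_le_two h k5 hmn'
  have hEm : EE μ s m ≤ EE μ s n := EE_mono hmn'
  have one : ∀ σ : ℝ, σ = 1 ∨ σ = -1 → ∀ η : Env, η ∈ BX μ s c 14 (σ * K₂) n a q → η ∈ TB μ s (σ * (K₂ + 8)) n m a n A →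
      η ∈ TB μ s (σ * (K₂ + 8)) n m a (3 * n) A → ∀ i : Fin 3, Real.exp (-(7 * max q A * EE μ s n)) ≤
        WR μ s (Sw μ s K₁ K₂ n m a)ᶜ η (ft μ s a n (rw3 n m i) (σ * (K₂ - 2))) (5 * n - rw3 n m i)
        ((ft μ s a n (5 * n) (σ * (K₂ + 8))).2 - (ft μ s a n (rw3 n m i) (σ * (K₂ - 2))).2) := fun σ hσ η h1 h2 h3 i =>
    sd18_one hw hwm hEm hmn hσ hq hA (le_max_left _ _) (le_max_right _ _) h1 (hcc n (by omega)) h2 h3 i
  obtain ⟨S, hS⟩ : ∃ S : ℝ → Set Env, S = fun σ => (BX μ s c 14 (σ * K₂) n a q)ᶜ ∪ (TB μ s (σ * (K₂ + 8)) n m a n A)ᶜ ∪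
      (∅ ∪ ∅) ∪ (TB μ s (σ * (K₂ + 8)) n m a (3 * n) A)ᶜ := ⟨_, rfl⟩
  have h0 : (law μ).real (∅ : Set Env) ≤ ε / 10 := by
    rw [measureReal_empty]
    linarith
  have hSp : ∀ σ : ℝ, (law μ).real (S σ) ≤ 5 * (ε / 10) := fun σ => by
    rw [hS]
    exact five_le subset_rfl (hbx n (k1.trans hmn') _ a) (htb m k4 _ n a n) h0 h0 (htb m k4 _ n a (3 * n))
  have hmem : ∀ (σ : ℝ) (η : Env), η ∉ S σ → η ∈ BX μ s c 14 (σ * K₂) n a q ∧ η ∈ TB μ s (σ * (K₂ + 8)) n m a n A ∧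
      η ∈ TB μ s (σ * (K₂ + 8)) n m a (3 * n) A := by
    intro σ η hη
    rw [hS] at hη
    simp only [Set.mem_union, not_or, Set.mem_compl_iff, not_not, Set.mem_empty_iff_false, not_false_eq_true, and_true] at hη
    exact ⟨hη.1.1, hη.1.2, hη.2⟩
  have hsub : (Sd18 μ s K₁ K₂ n m a (7 * max q A))ᶜ ⊆ S 1 ∪ S (-1) := by
    intro η hη
    by_contra hcon
    rw [Set.mem_union, not_or] at hcon
    refine hη fun σ i hσ => ?_
    rcases hσ with rfl | rfl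
    · obtain ⟨g1, g2, g3⟩ := hmem 1 η hcon.1
      exact one 1 (Or.inl rfl) η g1 g2 g3 i
    · obtain ⟨g1, g2, g3⟩ := hmem (-1) η hcon.2
      exact one (-1) (Or.inr rfl) η g1 g2 g3 i
  have h1 := measureReal_mono (μ := law μ) hsub
  have h2 := measureReal_union_le (μ := law μ) (S 1) (S (-1))
  have h3 := hSp 1
  have h4 := hSp (-1)
  linarith

end

end Pool.Agent.W_7d29a1_C1.GL18
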