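import Pool.Agent.W_7d29a1_C1.GateC66
import Pool.Agent.W_7d29a1_C1.UniA16

/-!
MP_7d29a1_pr, attractor route, [C1] SEP: THE WALLS OFF THE TWO PATHS, THIN STRIPS: probability, monotonicity, use. (helper66)

`wallsP`: at the scale `m` (`n ≤ M m`), strength `A EE n`, one family `D : Set Pt → Set Env` (the argument is the set of the sites which
stay free), probability at least `p` for every set.
-/

set_option autoImplicit false

namespace Pool.Agent.W_7d29a1_C1.Gt66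

open MeasureTheory ProbabilityTheory Filter Topology
open Pool.Agent.W_7d29a1_F Pool.Agent.W_7d29a1_h4g Pool.Agent.W_7d29a1_H Pool.Agent.W_7d29a1_HS Pool.Agent.W_7d29a1_HL
open Pool.Agent.W_7d29a1_HR (Dec Fin')
open Pool.Agent.W_7d29a1_C1
open Pool.Agent.W_7d29a1_C1.S71 (Off)
open Pool.Agent.W_7d29a1_C1.F31 (DecO FinO)
open Pool.Agent.W_7d29a1_C1.BP58
open Pool.Agent.W_7d29a1_C1.Wall66 (Gd)

noncomputable section

variable {μ : Measure ℝ} [IsProbabilityMeasure μ] {s c C : ℝ} {n₀ : ℕ}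

/-- A wall event in the form of `favg`: `Q` = the sites it reads. -/
theorem decO_of {Q : Set Pt} {D : Set Env} (hD : Gd D) : DecO Qᶜ D := DecO.of_dec hD.d _

theorem finO_of {Q : Set Pt} {D : Set Env} (hD : Gd D) (oD : On20 Q D) : FinO Qᶜ D :=
  FinO.of_fin hD.f fun η η' hh => oD η η' fun p hp => hh p (Set.notMem_compl_iff.2 hp)

/-- **THE WALLS, thin strips.** -/
theorem wallsP (h : In μ s c C n₀) {K2 : ℝ} (hK2 : 0 ≤ K2) {M : ℕ} (hM : 1 ≤ M) {A : ℝ} (hA : 0 ≤ A) :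
    ∃ p : ℝ, 0 < p ∧ ∃ n₁ : ℕ, ∀ n m : ℕ, n₁ ≤ m → m ≤ n → n ≤ M * m → ∀ (a : Pt) (Sw : Set Pt),
      Sw ⊆ tb (sl μ s) a (K2 * wd μ s n) → ∃ D : Set Pt → Set Env, ∀ Ex : Set Pt, Gd (D Ex) ∧ On20 (Sw \ Ex) (D Ex) ∧
        p ≤ (law μ).real (D Ex) ∧ ∀ η ∈ D Ex, ∀ (i : ℤ) (r : ℕ) (x : ℤ), a.1 ≤ i → i + r ≤ a.1 + 5 * n → m - 1 ≤ r →
          cS μ s (Sw \ Ex) η (i, x) r ≤ Real.exp (-(A * EE μ s n)) := by
  obtain ⟨B, hB, hw⟩ := gateM58 (μ := μ) (s := s) h (R := K2 * (2 * M)) (by positivity) (K := 5 * M) (by omega)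
  obtain ⟨p, hp, n₁, hp1⟩ := hw (A * (2 * M)) (1 / 2) (by norm_num)
  refine ⟨p, hp, n₁ + 2, fun n m hm hmn hnM a Sw hSw => ?_⟩
  have hm1 : 1 ≤ m := by omega
  have hmR : (0 : ℝ) < m := by exact_mod_cast hm1
  have hMr : (n : ℝ) / m ≤ M := by
    rw [div_le_iff₀ hmR]
    exact_mod_cast hnM
  have hwd : K2 * wd μ s n ≤ K2 * (2 * M) * wd μ s m := by
    have h1 := Pool.Agent.W_7d29a1_C1.U16.wd_le h hm1 hmn
    have h2 := h.wd_nonneg m
    have h3 : 2 * ((n : ℝ) / m) * wd μ s m ≤ 2 * M * wd μ s m := mul_le_mul_of_nonneg_right (by linarith) h2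
    calc K2 * wd μ s n ≤ K2 * (2 * M * wd μ s m) := mul_le_mul_of_nonneg_left (h1.trans h3) hK2
      _ = _ := by ring
  have hEE : EE μ s n ≤ 2 * M * EE μ s m := by
    have h1 := scale_b h hm1 hmn
    have h2 := EE_pos (μ := μ) (s := s) m
    have h3 : (n : ℝ) ≤ M * m := by exact_mod_cast hnM
    have h4 : (m : ℝ) * EE μ s n ≤ m * (2 * M * EE μ s m) := by
      calc (m : ℝ) * EE μ s n ≤ 2 * (n * EE μ s m) := h1
        _ ≤ 2 * (M * m * EE μ s m) := by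
            have := mul_le_mul_of_nonneg_right h3 h2.le
            linarith
        _ = _ := by ring
    exact le_of_mul_le_mul_left h4 hmR
  have hSw' : Sw ⊆ tb (sl μ s) a (K2 * (2 * M) * wd μ s m) := fun q hq => le_trans (hSw hq) hwd
  refine ⟨fun Ex => D58 μ s Sw Ex a (5 * M) m (m - 1) (1 / 2) (A * (2 * M)) B, fun Ex => ⟨?_, ?_, ?_, ?_⟩⟩
  · exact gd_D58 hSw' Ex a (5 * M) m (m - 1) (1 / 2) (A * (2 * M)) B
  · exact (on_D58 Sw Ex a (5 * M) m (m - 1) (1 / 2) (A * (2 * M)) B).mono fun q hq => hq.1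
  · refine hp1 m (by omega) a Sw Ex (m - 1) hSw' ?_
    have h1 : 2 ≤ m := by omega
    have h2 : ((m - 1 : ℕ) : ℝ) = m - 1 := by
      rw [Nat.cast_sub hm1]
      norm_num
    rw [h2]
    have h3 : (2 : ℝ) ≤ m := by exact_mod_cast h1
    linarith
  · intro η hη i r x h1 h2 h3
    have h4 := (hη ((i : ℤ), x) r h1 (by
      show i + r ≤ a.1 + ((5 * M * m : ℕ) : ℤ)
      have h5 : 5 * n ≤ 5 * M * m := by
        calc 5 * n ≤ 5 * (M * m) := Nat.mul_le_mul_left 5 hnM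
          _ = _ := by ring
      have h6 : ((5 * n : ℕ) : ℤ) ≤ ((5 * M * m : ℕ) : ℤ) := by exact_mod_cast h5
      push_cast at h6 ⊢
      linarith)).2.1 h3
    refine h4.trans (Real.exp_le_exp.2 ?_)
    have h7 := mul_le_mul_of_nonneg_left hEE hA
    linarith

end

end Pool.Agent.W_7d29a1_C1.Gt66
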