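import Pool.Agent.W_7d29a1_C1.GateU18

/-!
MP_7d29a1_pr, [C1] SEP, THE GATE WITH THIN STRIPS: THE PROBABILITIES OF THE UPPER LEVELS. (helper18)

`up18_prob`: `U = U (K, ε)`. `us18_prob`: `U₁ = U₁ (ε)` only (free of the place of the sides). `jp18_prob`: for every `Y` and `ε` the
number `M` of the thin strips in the unit can be chosen.
-/

set_option autoImplicit false

namespace Pool.Agent.W_7d29a1_C1.GL18

open MeasureTheory ProbabilityTheory Filter Topology
open Pool.Agent.W_7d29a1_F Pool.Agent.W_7d29a1_h4g Pool.Agent.W_7d29a1_H Pool.Agent.W_7d29a1_HS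
open Pool.Agent.W_7d29a1_C1.U16 (lat16)
open Pool.Agent.W_7d29a1_C1.H75

noncomputable section

variable {μ : Measure ℝ} {s : ℝ} [IsProbabilityMeasure μ] {c C : ℝ} {n₀ : ℕ}

theorem EE_two (h : In μ s c C n₀) (n : ℕ) : EE μ s (2 * n) ≤ 2 * EE μ s n := by
  have := Pool.Agent.W_7d29a1_H.EE_le_mul h.em s (m := 2 * n) (n := n) (k := 2) (by norm_num) le_rfl
  push_cast at this
  exact this

/-- One window of the scale `2 n`. -/
theorem jm2_prob (h : In μ s c C n₀) {K U : ℝ} (hK : 0 ≤ K) (hU : 0 ≤ U) {n : ℕ} (hn : n₀ ≤ n) (hn1 : 1 ≤ n) (b : Pt) :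
    (law μ).real {η | sh b η ∉ Jm μ s c (2 * n) 0 (K * wd μ s n) (U * EE μ s n)} ≤
      3 * ((4 * K + 2) * (C * Real.exp (-(U / (2 * C))))) := by
  have hC : 0 < C := lt_of_lt_of_le one_pos h.C1
  have hE := EE_pos (μ := μ) (s := s) n
  have hE2 := EE_pos (μ := μ) (s := s) (2 * n)
  have hw := h.wd_pos hn1
  have hw2 := h.wd_pos (n := 2 * n) (by omega)
  have h1 := jm_prob_sh (c := c) h (n := 2 * n) (by omega) (by omega) (D := K * wd μ s n) (mul_nonneg hK hw.le) 0 (U * EE μ s n) b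
  refine h1.trans ?_
  have h2 : wd μ s n ≤ 2 * wd μ s (2 * n) := wd_le_two h hn1 (by omega)
  have h3 : 2 * (K * wd μ s n) / wd μ s (2 * n) ≤ 4 * K := by
    rw [div_le_iff₀ hw2]
    nlinarith
  have h4 : -(U * EE μ s n / (C * EE μ s (2 * n))) ≤ -(U / (2 * C)) := by
    rw [neg_le_neg_iff, div_le_div_iff₀ (by positivity) (by positivity)]
    have := mul_le_mul_of_nonneg_left (EE_two h n) (mul_nonneg hU hC.le)
    nlinarith
  refine mul_le_mul_of_nonneg_left ?_ (by norm_num)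
  refine mul_le_mul (by linarith) (mul_le_mul_of_nonneg_left (Real.exp_le_exp.2 h4) hC.le) (by positivity) (by positivity)

theorem exp_small {B C ε : ℝ} (hC : 0 < C) (hε : 0 < ε) : ∃ U : ℝ, 0 ≤ U ∧ B * (C * Real.exp (-(U / (2 * C)))) ≤ ε := by
  have h1 : Tendsto (fun U : ℝ => U / (2 * C)) atTop atTop := tendsto_id.atTop_div_const (by positivity)
  have h2 := ((Real.tendsto_exp_neg_atTop_nhds_zero.comp h1).const_mul C).const_mul B
  rw [mul_zero, mul_zero] at h2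
  obtain ⟨U, hU, hU0⟩ := ((h2.eventually_le_const hε).and (eventually_ge_atTop 0)).exists
  exact ⟨U, hU0, hU⟩

/-- **THE WINDOW.** -/
theorem up18_prob (h : In μ s c C n₀) {K ε : ℝ} (hK : 0 ≤ K) (hε : 0 < ε) : ∃ U : ℝ, 0 ≤ U ∧ ∃ n₁ : ℕ, ∀ n : ℕ, n₁ ≤ n →
    ∀ a : Pt, (law μ).real (Up18 μ s c K n a U)ᶜ ≤ ε := by
  have hC : 0 < C := lt_of_lt_of_le one_pos h.C1
  obtain ⟨U, hU, hU1⟩ := exp_small (B := 3 * (4 * K + 2)) hC hε
  refine ⟨U, hU, max n₀ 1, fun n hn a => ?_⟩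
  have h1 := jm2_prob h hK hU ((le_max_left _ _).trans hn) ((le_max_right _ _).trans hn) a
  have hsub : (Up18 μ s c K n a U)ᶜ ⊆ {η | sh a η ∉ Jm μ s c (2 * n) 0 (K * wd μ s n) (U * EE μ s n)} := by
    intro η hη hcon
    refine hη fun p j g1 g2 g3 => jm_t3 hcon g1 (g2.trans ?_) g3
    push_cast
    omega
  refine (measureReal_mono hsub (measure_ne_top _ _)).trans (h1.trans ?_)
  linarith

/-- **THE SIX STARTS OF THE SIDES.** -/
theorem us18_prob (h : In μ s c C n₀) {ε : ℝ} (hε : 0 < ε) : ∃ U : ℝ, 0 ≤ U ∧ ∃ n₁ : ℕ, ∀ (K₂ : ℝ) (n m : ℕ), n₁ ≤ n →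
    ∀ a : Pt, (law μ).real (Us18 μ s c K₂ n m a U)ᶜ ≤ ε := by
  have hC : 0 < C := lt_of_lt_of_le one_pos h.C1
  obtain ⟨U, hU, hU1⟩ := exp_small (B := 3 * (4 * 0 + 2)) hC (show 0 < ε / 6 by linarith)
  refine ⟨U, hU, max n₀ 1, fun K₂ n m hn a => ?_⟩
  have h1 := fun b : Pt => jm2_prob h le_rfl hU ((le_max_left _ _).trans hn) ((le_max_right _ _).trans hn) b
  obtain ⟨S, hS⟩ : ∃ S : ℝ × Fin 3 → Set Env, S = fun z => {η | sh (ft μ s a n (rw3 n m z.2) (z.1 * (K₂ - 2))) η ∉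
      Jm μ s c (2 * n) 0 (0 * wd μ s n) (U * EE μ s n)} := ⟨_, rfl⟩
  have hSp : ∀ z, (law μ).real (S z) ≤ ε / 6 := fun z => by
    rw [hS]
    exact (h1 _).trans (by linarith)
  have hsub : (Us18 μ s c K₂ n m a U)ᶜ ⊆ ⋃ z ∈ ({1, -1} : Finset ℝ) ×ˢ (Finset.univ : Finset (Fin 3)), S z := by
    intro η hη
    simp only [Us18, Set.mem_compl_iff, Set.mem_ofPred_eq, not_forall] at hη
    obtain ⟨σ, i, hσ, h2⟩ := hη
    refine Set.mem_biUnion (x := (σ, i)) ?_ ?_
    · simp only [Finset.coe_product, Set.mem_prod, Finset.mem_coe, Finset.mem_insert, Finset.mem_singleton, Finset.mem_univ,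
        and_true]
      exact hσ
    · rw [hS]
      intro hcon
      refine h2 (jm_t3 hcon le_rfl ?_ ?_)
      · have : (5 * n - rw3 n m i : ℕ) ≤ 4 * (2 * n) := by omega
        have h3 : ((5 * n - rw3 n m i : ℕ) : ℤ) ≤ ((4 * (2 * n) : ℕ) : ℤ) := by exact_mod_cast this
        exact add_le_add le_rfl h3
      · unfold lat16
        simp
  refine (measureReal_mono hsub (measure_ne_top _ _)).trans ((measureReal_biUnion_finset_le _ _).trans
    ((Finset.sum_le_sum fun z _ => hSp z).trans ?_))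
  rw [Finset.sum_const, nsmul_eq_mul, Finset.card_product]
  have h2 : ({1, -1} : Finset ℝ).card = 2 := by
    rw [Finset.card_insert_of_notMem (by norm_num), Finset.card_singleton]
  rw [h2]
  simp only [Finset.card_univ, Fintype.card_fin]
  push_cast
  linarith

/-- **NO JUMP.** -/
theorem jp18_prob (h : In μ s c C n₀) {K₂ ε : ℝ} (hK : 0 ≤ K₂) (Y : ℝ) (hε : 0 < ε) : ∃ M₀ m₁ : ℕ, ∀ M m : ℕ, M₀ ≤ M → m₁ ≤ m →
    ∀ a : Pt, (law μ).real (Jp18 μ s K₂ (M * m) m a Y)ᶜ ≤ ε := by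
  have hC : 0 < C := lt_of_lt_of_le one_pos h.C1
  have hc0 := h.c0
  obtain ⟨α, nα, hα, hα1, hnα, hpow⟩ := Pool.Agent.W_7d29a1_HL.EE_pow h
  obtain ⟨J, nJ, hJ⟩ := Pool.Agent.W_7d29a1_HL.hsl h ((|Y| + 2) / c)
  obtain ⟨nw, hnw⟩ := eventually_atTop.1 ((wd_tendsto h).eventually_ge_atTop 1)
  obtain ⟨M₁, hM₁⟩ : ∃ M₁ : ℕ, ∀ M : ℕ, M₁ ≤ M →
      3 * ((4 * (K₂ + 2) * M + 2 * M) * (C * Real.exp (-((M : ℝ) ^ α / (2 * C))))) ≤ ε / 2 := by
    have e1 : Tendsto (fun M : ℕ => (M : ℝ) ^ α) atTop atTop := (tendsto_rpow_atTop hα).comp tendsto_natCast_atTop_atTop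
    have e2 : Tendsto (fun M : ℕ => ((M : ℝ) ^ α) ^ (1 / α) * Real.exp (-(1 / (2 * C)) * (M : ℝ) ^ α)) atTop (𝓝 0) :=
      (tendsto_rpow_mul_exp_neg_mul_atTop_nhds_zero (1 / α) (1 / (2 * C)) (by positivity)).comp e1
    have e3 := e2.const_mul (3 * (4 * (K₂ + 2) + 2) * C)
    rw [mul_zero] at e3
    obtain ⟨M₁, hM₁⟩ := eventually_atTop.1 (e3.eventually_le_const (show 0 < ε / 2 by linarith))
    refine ⟨M₁, fun M hM => le_trans (le_of_eq ?_) (hM₁ M hM)⟩
    have e4 : ((M : ℝ) ^ α) ^ (1 / α) = M := by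
      rw [← Real.rpow_mul (Nat.cast_nonneg M), mul_one_div_cancel hα.ne', Real.rpow_one]
    rw [e4]
    have e5 : -(1 / (2 * C)) * (M : ℝ) ^ α = -((M : ℝ) ^ α / (2 * C)) := by ring
    rw [e5]
    ring
  refine ⟨max M₁ (2 ^ J + 1), max (max nα nJ) (max nw (max n₀ 1)), fun M m hM hm a => ?_⟩
  have m1 : nα ≤ m := le_trans (le_trans (le_max_left _ _) (le_max_left _ _)) hm
  have m2 : nJ ≤ m := le_trans (le_trans (le_max_right _ _) (le_max_left _ _)) hm
  have m3 : nw ≤ m := le_trans (le_trans (le_max_left _ _) (le_max_right _ _)) hm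
  have m4 : n₀ ≤ m := le_trans (le_trans (le_max_left _ _) (le_trans (le_max_right _ _) (le_max_right _ _))) hm
  have m5 : 1 ≤ m := le_trans (le_trans (le_max_right _ _) (le_trans (le_max_right _ _) (le_max_right _ _))) hm
  have M1 : 2 ^ J + 1 ≤ M := (le_max_right _ _).trans hM
  have M2 : 1 ≤ M := le_trans (Nat.le_add_left 1 _) M1
  have hMr : (1 : ℝ) ≤ M := by exact_mod_cast M2
  have hmn : m ≤ M * m := Nat.le_mul_of_pos_left m (by omega)
  have hmr : (0 : ℝ) < m := by exact_mod_cast m5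
  have hJm : 2 ^ J * m ≤ M * m := Nat.mul_le_mul_right m (le_trans (Nat.le_succ _) M1)
  have hsl := hJ (M * m) m m2 hJm
  have hp := hpow m (M * m) m1 hmn
  have eM : ((M * m : ℕ) : ℝ) / m = M := by
    push_cast
    field_simp
  rw [eM] at hp
  have hwm : 0 < wd μ s m := h.wd_pos m5
  have hwn1 : 1 ≤ wd μ s (M * m) := hnw (M * m) (m3.trans hmn)
  have hEn1 : 1 ≤ EE μ s (M * m) := one_le_EE (M * m)
  have hEm := EE_pos (μ := μ) (s := s) m
  -- the ratio of the widths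
  have hvA := vA_le_two h m5 hmn
  have hwr : wd μ s (M * m) ≤ 2 * M * wd μ s m := by
    unfold wd
    push_cast
    have h0 : (0 : ℝ) ≤ (M : ℝ) * m := by positivity
    have := mul_le_mul_of_nonneg_left hvA h0
    linarith
  -- the slope
  have hslope : (|Y| + 2) * EE μ s (M * m) ≤ hc μ s c m * wd μ s (M * m) := by
    unfold hc
    rw [div_mul_eq_mul_div, le_div_iff₀ hwm]
    have h1 : (|Y| + 2) / c * EE μ s (M * m) * wd μ s m = ((|Y| + 2) * EE μ s (M * m) * wd μ s m) / c := by ring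
    rw [h1, div_le_iff₀ hc0] at hsl
    nlinarith
  obtain ⟨S, hS⟩ : ∃ S : ℕ → Set Env, S = fun i => {η | sh (ft μ s a (M * m) (i * (M * m)) 0) η ∉
      Jm μ s c m 0 ((K₂ + 2) * wd μ s (M * m)) (EE μ s (M * m))} := ⟨_, rfl⟩
  have hSp : ∀ i, (law μ).real (S i) ≤ ε / 2 := by
    intro i
    rw [hS]
    have h1 := jm_prob_sh (c := c) h (n := m) m4 m5 (D := (K₂ + 2) * wd μ s (M * m)) (by positivity) 0 (EE μ s (M * m))
      (ft μ s a (M * m) (i * (M * m)) 0)
    refine h1.trans (le_trans ?_ (hM₁ M ((le_max_left _ _).trans hM)))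
    have h3 : 2 * ((K₂ + 2) * wd μ s (M * m)) / wd μ s m ≤ 4 * (K₂ + 2) * M := by
      rw [div_le_iff₀ hwm]
      nlinarith
    have h4 : -(EE μ s (M * m) / (C * EE μ s m)) ≤ -((M : ℝ) ^ α / (2 * C)) := by
      rw [neg_le_neg_iff, div_le_div_iff₀ (by positivity) (by positivity)]
      have := mul_le_mul_of_nonneg_left hp hC.le
      nlinarith
    refine mul_le_mul_of_nonneg_left ?_ (by norm_num)
    refine mul_le_mul (by linarith) (mul_le_mul_of_nonneg_left (Real.exp_le_exp.2 h4) hC.le) (by positivity) (by positivity)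
  have hsub : (Jp18 μ s K₂ (M * m) m a Y)ᶜ ⊆ S 1 ∪ S 3 := by
    intro η hη
    by_contra hcon
    rw [Set.mem_union, not_or] at hcon
    refine hη fun i p j A hi g1 g2 g3 g4 g5 => ?_
    have hmem : sh (ft μ s a (M * m) (i * (M * m)) 0) η ∈ Jm μ s c m 0 ((K₂ + 2) * wd μ s (M * m)) (EE μ s (M * m)) := by
      rw [hS] at hcon
      rcases hi with rfl | rfl
      · exact not_not.1 hcon.1
      · exact not_not.1 hcon.2
    obtain ⟨l1, l2⟩ := ft_lat (μ := μ) (s := s) a (M * m) (i * (M * m)) 0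
    have e : lat16 μ s (ft μ s a (M * m) (i * (M * m)) 0) p = lat16 μ s a p - lat16 μ s a (ft μ s a (M * m) (i * (M * m)) 0) := by
      unfold lat16
      push_cast
      ring
    have ht3 : η ∈ T3 μ s c m (EE μ s (M * m)) p j := by
      refine jm_t3 hmem g1 (g2.trans ?_) ?_
      · show a.1 + ((i * (M * m) : ℕ) : ℤ) + m ≤ a.1 + ((i * (M * m) : ℕ) : ℤ) + ((4 * m : ℕ) : ℤ)
        push_cast
        omega
      · rw [e]
        rw [zero_mul] at l1 l2
        rw [abs_le] at g4 ⊢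
        constructor <;> linarith [g4.1, g4.2]
    have hfar := t3_far (hc_nonneg h m) ht3 (ρ := wd μ s (M * m)) A (by
      intro y hy
      have h5 := g5 y hy
      have e2 : (y : ℝ) - sl μ s * j = lat16 μ s a (p.1 + (j : ℤ), p.2 + y) - lat16 μ s a p := by
        unfold lat16
        push_cast
        ring
      rw [e2]
      have h6 := abs_sub_abs_le_abs_sub (lat16 μ s a p) (lat16 μ s a (p.1 + (j : ℤ), p.2 + y))
      rw [abs_sub_comm] at h6
      linarith)
    refine hfar.trans ?_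
    have h2 : (2 : ℝ) ≤ Real.exp (EE μ s (M * m)) := by
      have h7 := Real.add_one_le_exp (EE μ s (M * m))
      linarith
    have h8 : EE μ s (M * m) - hc μ s c m * wd μ s (M * m) ≤ -((|Y| + 1) * EE μ s (M * m)) := by linarith
    calc 2 * Real.exp (EE μ s (M * m) - hc μ s c m * wd μ s (M * m)) ≤
        Real.exp (EE μ s (M * m)) * Real.exp (-((|Y| + 1) * EE μ s (M * m))) :=
          mul_le_mul h2 (Real.exp_le_exp.2 h8) (Real.exp_pos _).le (Real.exp_pos _).le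
      _ = Real.exp (-(|Y| * EE μ s (M * m))) := by
          rw [← Real.exp_add]
          congr 1
          ring
      _ ≤ Real.exp (-(Y * EE μ s (M * m))) := Real.exp_le_exp.2 (by nlinarith [le_abs_self Y])
  have h1 := measureReal_mono (μ := law μ) hsub
  have h2 := measureReal_union_le (μ := law μ) (S 1) (S 3)
  have h3 := hSp 1
  have h4 := hSp 3
  linarith

end

end Pool.Agent.W_7d29a1_C1.GL18
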