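import Pool.Agent.W_7d29a1_C1.KerP16

/-!
MP_7d29a1_pr, attractor route, [C1] SEP: THE GATE IN THE AVERAGE OVER ONE WINDOW, deterministic part. (helper66)

Block rows `a, …, a + n`. `ms w p a A m j y` = masses at the row `a + j` (weights of the rows below, as `fw`) of the paths which start
with `m` and stay in `A`. `Pa n` = paths of `n` steps, `en` end point, `wg` weight. `av` = masses which avoid two given paths.

* `swap`: exchange of the tails: `Σ_π κ(π) (X_n(v) - masses which avoid π) ≤ Z_X k_n(v)`;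
* `two_avoid`: met one of two paths ≤ met the first + met the second;
* `gate`: if a set of pairs of paths of `c` of mass `≥ q Zc²` has, for every pair, `avoiding masses at v ≤ ε₁ X_n(v) + e₂`, then
  `(1 - ε₁) q X_n(v) Zc² ≤ 2 Zc Z_X k_n(v) + q' e₂`.
-/

set_option autoImplicit false

namespace Pool.Agent.W_7d29a1_C1.Gt66

open Finset
open Pool.Agent.W_7d29a1_C1.K91P (fw bw fw_succ)
open Pool.Agent.W_7d29a1_C1.U16 (ker)

noncomputable section

attribute [local instance 10] Classical.propDecidable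

/-- Masses of the paths which stay in `A`. -/
def ms (w : ℕ → ℤ → ℝ) (p : ℕ → ℝ) (a : ℕ) (A : ℕ → ℤ → Prop) (m : ℤ → ℝ) : ℕ → ℤ → ℝ
  | 0, y => if A 0 y then m y else 0
  | n + 1, y => if A (n + 1) y then w (a + n) y * ms w p a A m n y + p (a + n) * (w (a + n) (y - 1) * ms w p a A m n (y - 1))
      else 0

/-- No restriction. -/
def All : ℕ → ℤ → Prop := fun _ _ => True

variable {w : ℕ → ℤ → ℝ} {p : ℕ → ℝ} {a : ℕ} {A A' : ℕ → ℤ → Prop} {m m' : ℤ → ℝ}

theorem ms_zero_of (h : A 0 = fun _ => True) (y : ℤ) : ms w p a A m 0 y = m y := by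
  simp [ms, h]

theorem ms_in {n : ℕ} {y : ℤ} (h : A (n + 1) y) : ms w p a A m (n + 1) y =
    w (a + n) y * ms w p a A m n y + p (a + n) * (w (a + n) (y - 1) * ms w p a A m n (y - 1)) := by
  simp [ms, h]

theorem ms_off {n : ℕ} {y : ℤ} (h : ¬ A n y) : ms w p a A m n y = 0 := by
  cases n with
  | zero => simp [ms, h]
  | succ n => simp [ms, h]

theorem ms_all_zero (y : ℤ) : ms w p a All m 0 y = m y := by simp [ms, All]

theorem ms_all_succ (n : ℕ) (y : ℤ) : ms w p a All m (n + 1) y =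
    w (a + n) y * ms w p a All m n y + p (a + n) * (w (a + n) (y - 1) * ms w p a All m n (y - 1)) := ms_in trivial

/-- The masses of the two groups. -/
theorem ms_fw (l : ℤ → ℝ) : ∀ (n : ℕ) (y : ℤ), ms w p a All (fw w p l a) n y = fw w p l (a + n) y
  | 0, y => ms_all_zero y
  | n + 1, y => by
    rw [ms_all_succ, ms_fw l n y, ms_fw l n (y - 1)]
    show _ = fw w p l (a + n + 1) y
    rw [fw_succ]

theorem ms_nonneg (hw : ∀ k y, 0 ≤ w k y) (hp : ∀ k, 0 ≤ p k) (hm : ∀ y, 0 ≤ m y) : ∀ (n : ℕ) (y : ℤ), 0 ≤ ms w p a A m n y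
  | 0, y => by
    unfold ms
    split_ifs
    · exact hm y
    · exact le_rfl
  | n + 1, y => by
    unfold ms
    split_ifs
    · have h1 := ms_nonneg hw hp hm n y
      have h2 := ms_nonneg hw hp hm n (y - 1)
      have h3 := hw (a + n) y
      have h4 := hw (a + n) (y - 1)
      have h5 := hp (a + n)
      positivity
    · exact le_rfl

theorem ms_mono (hw : ∀ k y, 0 ≤ w k y) (hp : ∀ k, 0 ≤ p k) (hm' : ∀ y, 0 ≤ m' y) (hA : ∀ j y, A j y → A' j y)
    (h : ∀ y, m y ≤ m' y) : ∀ (n : ℕ) (y : ℤ), ms w p a A m n y ≤ ms w p a A' m' n y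
  | 0, y => by
    by_cases h1 : A 0 y
    · simp only [ms, if_pos h1, if_pos (hA 0 y h1)]
      exact h y
    · rw [ms_off h1]
      exact ms_nonneg hw hp hm' 0 y
  | n + 1, y => by
    by_cases h1 : A (n + 1) y
    · rw [ms_in h1, ms_in (hA _ _ h1)]
      have h2 := ms_mono hw hp hm' hA h n y
      have h3 := ms_mono hw hp hm' hA h n (y - 1)
      exact add_le_add (mul_le_mul_of_nonneg_left h2 (hw _ _))
        (mul_le_mul_of_nonneg_left (mul_le_mul_of_nonneg_left h3 (hw _ _)) (hp _))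
    · rw [ms_off h1]
      exact ms_nonneg hw hp hm' _ y

theorem ms_le_all (hw : ∀ k y, 0 ≤ w k y) (hp : ∀ k, 0 ≤ p k) (hm : ∀ y, 0 ≤ m y) (n : ℕ) (y : ℤ) :
    ms w p a A m n y ≤ ms w p a All m n y := ms_mono hw hp hm (fun _ _ _ => trivial) (fun _ => le_rfl) n y

/-- Linearity. -/
theorem ms_lin (c c' : ℝ) : ∀ (n : ℕ) (y : ℤ), ms w p a A (fun x => c * m x + c' * m' x) n y =
    c * ms w p a A m n y + c' * ms w p a A m' n y
  | 0, y => by
    unfold ms
    split_ifs
    · rfl
    · ring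
  | n + 1, y => by
    by_cases h1 : A (n + 1) y
    · rw [ms_in h1, ms_in h1, ms_in h1, ms_lin c c' n y, ms_lin c c' n (y - 1)]
      ring
    · rw [ms_off h1, ms_off h1, ms_off h1]
      ring

theorem ms_sum {ι : Type*} (s : Finset ι) (f : ι → ℤ → ℝ) : ∀ (n : ℕ) (y : ℤ), ms w p a A (fun x => ∑ i ∈ s, f i x) n y =
    ∑ i ∈ s, ms w p a A (f i) n y
  | 0, y => by
    unfold ms
    split_ifs
    · rfl
    · simp
  | n + 1, y => by
    by_cases h1 : A (n + 1) y
    · rw [ms_in h1, ms_sum s f n y, ms_sum s f n (y - 1), mul_sum, mul_sum, mul_sum, ← sum_add_distrib]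
      exact sum_congr rfl fun i _ => (ms_in h1).symm
    · rw [ms_off h1]
      exact (sum_eq_zero fun i _ => ms_off h1).symm

theorem ms_smul (c : ℝ) (n : ℕ) (y : ℤ) : ms w p a A (fun x => c * m x) n y = c * ms w p a A m n y := by
  have h := ms_lin (w := w) (p := p) (a := a) (A := A) (m := m) (m' := m) c 0 n y
  simp only [zero_mul, add_zero] at h
  exact h

/-! ### Paths -/

/-- Paths of `n` steps. -/
inductive Pa : ℕ → Type
  | z : ℤ → Pa 0
  | s : {n : ℕ} → Pa n → Bool → Pa (n + 1)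

/-- Steps. -/
def st (b : Bool) : ℤ := if b then 1 else 0

/-- End point. -/
def en : {n : ℕ} → Pa n → ℤ
  | _, .z y => y
  | _, .s π b => en π + st b

/-- Start. -/
def s0 : {n : ℕ} → Pa n → ℤ
  | _, .z y => y
  | _, .s π _ => s0 π

/-- Weight: the sites of the rows `a, …, a + n - 1`. -/
def wg (w : ℕ → ℤ → ℝ) (p : ℕ → ℝ) (a : ℕ) : {n : ℕ} → Pa n → ℝ
  | _, .z _ => 1
  | n + 1, .s π b => wg w p a π * (w (a + n) (en π) * if b then p (a + n) else 1)

/-- The site `(j, x)` is on the path. -/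
def onp : {n : ℕ} → Pa n → ℕ → ℤ → Prop
  | _, .z y => fun j x => j = 0 ∧ x = y
  | n + 1, .s π b => fun j x => onp π j x ∨ (j = n + 1 ∧ x = en π + st b)

/-- One more step. -/
def cons (n : ℕ) : Pa n × Bool ↪ Pa (n + 1) where
  toFun q := .s q.1 q.2
  inj' := by
    rintro ⟨π, b⟩ ⟨π', b'⟩ h
    simp only [Pa.s.injEq] at h
    exact Prod.ext h.1 h.2

/-- The paths which start in `I` and stay in `C`. -/
def Ps (C : ℕ → ℤ → Prop) (I : Finset ℤ) : (n : ℕ) → Finset (Pa n)
  | 0 => (I.filter fun y => C 0 y).map ⟨Pa.z, fun _ _ h => by simpa using h⟩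
  | n + 1 => (((Ps C I n) ×ˢ (univ : Finset Bool)).filter fun q => C (n + 1) (en q.1 + st q.2)).map (cons n)

theorem onp_row : ∀ {n : ℕ} (π : Pa n) {j : ℕ} {x : ℤ}, onp π j x → j ≤ n
  | _, .z _, _, _, h => le_of_eq h.1
  | n + 1, .s π _, _, _, h => h.elim (fun h1 => (onp_row π h1).trans (Nat.le_succ n)) fun h1 => le_of_eq h1.1

/-- The position of the path at its last row. -/
theorem onp_last : ∀ {n : ℕ} (π : Pa n) {x : ℤ}, onp π n x ↔ x = en π
  | _, .z _, _ => ⟨fun h => h.2, fun h => ⟨rfl, h⟩⟩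
  | n + 1, .s π _, _ => ⟨fun h => h.elim (fun h1 => absurd (onp_row π h1) (by omega)) fun h1 => h1.2, fun h => Or.inr ⟨rfl, h⟩⟩

theorem onp_lt {n : ℕ} (π : Pa n) (b : Bool) {j : ℕ} (hj : j ≤ n) {x : ℤ} : onp (.s π b) j x ↔ onp π j x :=
  ⟨fun h => h.elim id fun h1 => absurd h1.1 (by omega), Or.inl⟩

theorem onp_one : ∀ {n : ℕ} (π : Pa n) {j : ℕ} {x x' : ℤ}, onp π j x → onp π j x' → x = x'
  | _, .z _, _, _, _, h, h' => h.2.trans h'.2.symm
  | n + 1, .s π b, j, x, x', h, h' => by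
    by_cases hj : j ≤ n
    · exact onp_one π ((onp_lt π b hj).1 h) ((onp_lt π b hj).1 h')
    · rcases h with h | h
      · exact absurd (onp_row π h) hj
      · rcases h' with h' | h'
        · exact absurd (onp_row π h') hj
        · exact h.2.trans h'.2.symm

theorem onp_ex : ∀ {n : ℕ} (π : Pa n) {j : ℕ}, j ≤ n → ∃ x, onp π j x
  | _, .z y, j, h => ⟨y, by omega, rfl⟩
  | n + 1, .s π b, j, h => by
    by_cases hj : j ≤ n
    · obtain ⟨x, hx⟩ := onp_ex π hj
      exact ⟨x, Or.inl hx⟩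
    · exact ⟨en π + st b, Or.inr ⟨by omega, rfl⟩⟩

theorem mem_Ps_succ {C : ℕ → ℤ → Prop} {I : Finset ℤ} {n : ℕ} {π : Pa n} {b : Bool} :
    Pa.s π b ∈ Ps C I (n + 1) ↔ π ∈ Ps C I n ∧ C (n + 1) (en π + st b) := by
  constructor
  · intro h
    obtain ⟨q, hq, hq'⟩ := mem_map.1 h
    have h1 : q.1 = π ∧ q.2 = b := by
      have h2 : Pa.s q.1 q.2 = Pa.s π b := hq'
      simpa using h2
    rw [← h1.1, ← h1.2]
    exact ⟨(mem_product.1 (mem_filter.1 hq).1).1, (mem_filter.1 hq).2⟩
  · intro h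
    exact mem_map.2 ⟨(π, b), mem_filter.2 ⟨mem_product.2 ⟨h.1, mem_univ _⟩, h.2⟩, rfl⟩

theorem Ps_conf {C : ℕ → ℤ → Prop} {I : Finset ℤ} : ∀ {n : ℕ} {π : Pa n}, π ∈ Ps C I n → ∀ {j : ℕ} {x : ℤ}, onp π j x → C j x
  | _, .z y, h, j, x, h1 => by
    obtain ⟨y', hy, hy'⟩ := mem_map.1 h
    have h3 : y' = y := by
      have h4 : Pa.z y' = Pa.z y := hy'
      simpa using h4
    obtain ⟨rfl, rfl⟩ := h1
    rw [← h3]
    exact (mem_filter.1 hy).2
  | n + 1, .s π b, h, j, x, h1 => by
    have h2 := mem_Ps_succ.1 h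
    rcases h1 with h1 | ⟨rfl, rfl⟩
    · exact Ps_conf h2.1 h1
    · exact h2.2

theorem wg_nonneg (hw : ∀ k y, 0 ≤ w k y) (hp : ∀ k, 0 ≤ p k) : ∀ {n : ℕ} (π : Pa n), 0 ≤ wg w p a π
  | _, .z _ => zero_le_one
  | n + 1, .s π b => by
    refine mul_nonneg (wg_nonneg hw hp π) (mul_nonneg (hw _ _) ?_)
    split_ifs
    · exact hp _
    · exact zero_le_one

/-- A sum over the paths with one more step. -/
theorem sum_Ps_succ {C : ℕ → ℤ → Prop} {I : Finset ℤ} {n : ℕ} (F : Pa (n + 1) → ℝ) :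
    ∑ π ∈ Ps C I (n + 1), F π = ∑ π ∈ Ps C I n, ((if C (n + 1) (en π) then F (.s π false) else 0) +
      if C (n + 1) (en π + 1) then F (.s π true) else 0) := by
  have h1 : Ps C I (n + 1) = (((Ps C I n) ×ˢ (univ : Finset Bool)).filter fun q => C (n + 1) (en q.1 + st q.2)).map (cons n) := rfl
  rw [h1, sum_map, sum_filter, sum_product]
  refine sum_congr rfl fun π _ => ?_
  rw [Fintype.sum_bool, add_comm]
  have e1 : en π + st false = en π := by simp [st]
  have e2 : en π + st true = en π + 1 := by simp [st]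
  show (if C (n + 1) (en π + st false) then F (.s π false) else 0) + (if C (n + 1) (en π + st true) then F (.s π true) else 0) = _
  rw [e1, e2]

theorem sum_Ps_zero {C : ℕ → ℤ → Prop} {I : Finset ℤ} (F : Pa 0 → ℝ) :
    ∑ π ∈ Ps C I 0, F π = ∑ y ∈ I, if C 0 y then F (.z y) else 0 := by
  have h1 : Ps C I 0 = (I.filter fun y => C 0 y).map ⟨Pa.z, fun _ _ h => by simpa using h⟩ := rfl
  rw [h1, sum_map, sum_filter]
  rfl

theorem ms_supp {C : ℕ → ℤ → Prop} {I : Finset ℤ} {k : ℤ → ℝ} (hk : ∀ y, y ∉ I → k y = 0) {lo hi : ℤ}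
    (hI : ∀ y ∈ I, lo ≤ y ∧ y ≤ hi) : ∀ (n : ℕ) (u : ℤ), (hi + n < u ∨ u < lo) → ms w p a C k n u = 0
  | 0, u, hu => by
    have : u ∉ I := fun h => by
      have := hI u h
      push_cast at hu
      omega
    unfold ms
    rw [hk u this]
    simp
  | n + 1, u, hu => by
    push_cast at hu
    by_cases h1 : C (n + 1) u
    · rw [ms_in h1, ms_supp hk hI n u (by omega), ms_supp hk hI n (u - 1) (by omega)]
      ring
    · exact ms_off h1

/-- **Expansion**: `Σ_π κ(start) weight g(end) = Σ_u masses(u) g(u)`. -/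
theorem expand {C : ℕ → ℤ → Prop} {I : Finset ℤ} (k : ℤ → ℝ) (hk : ∀ y, y ∉ I → k y = 0) {lo hi : ℤ}
    (hI : ∀ y ∈ I, lo ≤ y ∧ y ≤ hi) : ∀ (n : ℕ) (g : ℤ → ℝ),
    ∑ π ∈ Ps C I n, k (s0 π) * wg w p a π * g (en π) = ∑ u ∈ Icc lo (hi + n), ms w p a C k n u * g u
  | 0, g => by
    rw [sum_Ps_zero]
    have h1 : ∑ u ∈ Icc lo (hi + (0 : ℕ)), ms w p a C k 0 u * g u = ∑ u ∈ I, ms w p a C k 0 u * g u := by
      refine (sum_subset (fun y hy => ?_) fun y _ hy => ?_).symm
      · rw [mem_Icc]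
        have := hI y hy
        push_cast
        omega
      · have : ms w p a C k 0 y = 0 := by
          unfold ms
          rw [hk y hy]
          simp
        rw [this, zero_mul]
    rw [h1]
    refine sum_congr rfl fun y _ => ?_
    show (if C 0 y then k y * 1 * g y else 0) = _
    unfold ms
    split_ifs
    · ring
    · ring
  | n + 1, g => by
    rw [sum_Ps_succ]
    have h1 : ∀ π ∈ Ps C I n, ((if C (n + 1) (en π) then k (s0 (Pa.s π false)) * wg w p a (Pa.s π false) *
        g (en (Pa.s π false)) else 0) + if C (n + 1) (en π + 1) then k (s0 (Pa.s π true)) *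
        wg w p a (Pa.s π true) * g (en (Pa.s π true)) else 0) = k (s0 π) * wg w p a π *
          (fun u => w (a + n) u * ((if C (n + 1) u then g u else 0) + p (a + n) * if C (n + 1) (u + 1) then g (u + 1) else 0))
            (en π) := by
      intro π _
      have e1 : en (Pa.s π false) = en π := by simp [en, st]
      have e2 : en (Pa.s π true) = en π + 1 := by simp [en, st]
      have e3 : wg w p a (Pa.s π false) = wg w p a π * (w (a + n) (en π) * 1) := by simp [wg]
      have e4 : wg w p a (Pa.s π true) = wg w p a π * (w (a + n) (en π) * p (a + n)) := by simp [wg]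
      have e5 : ∀ b, s0 (Pa.s π b) = s0 π := fun b => rfl
      rw [e1, e2, e3, e4, e5, e5]
      by_cases h1 : C (n + 1) (en π) <;> by_cases h2 : C (n + 1) (en π + 1) <;> simp [h1, h2] <;> ring
    rw [sum_congr rfl h1, expand k hk hI n (fun u => w (a + n) u * ((if C (n + 1) u then g u else 0) +
      p (a + n) * if C (n + 1) (u + 1) then g (u + 1) else 0))]
    -- regroup by the end point
    have h2 : ∀ u : ℤ, (hi + n < u ∨ u < lo) → ms w p a C k n u = 0 := fun u hu => ms_supp hk hI n u hu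
    have h3 : ∑ u ∈ Icc lo (hi + (n + 1 : ℕ)), ms w p a C k (n + 1) u * g u =
        ∑ u ∈ Icc lo (hi + (n + 1 : ℕ)), ((w (a + n) u * ms w p a C k n u) * (if C (n + 1) u then g u else 0)) +
        ∑ u ∈ Icc lo (hi + (n + 1 : ℕ)), ((p (a + n) * (w (a + n) (u - 1) * ms w p a C k n (u - 1))) *
          (if C (n + 1) u then g u else 0)) := by
      rw [← sum_add_distrib]
      refine sum_congr rfl fun u _ => ?_
      by_cases hu : C (n + 1) u
      · rw [ms_in hu, if_pos hu]
        ring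
      · rw [ms_off hu, if_neg hu]
        ring
    have h4 : ∑ u ∈ Icc lo (hi + (n + 1 : ℕ)), ((w (a + n) u * ms w p a C k n u) * (if C (n + 1) u then g u else 0)) =
        ∑ u ∈ Icc lo (hi + n), ((w (a + n) u * ms w p a C k n u) * (if C (n + 1) u then g u else 0)) := by
      refine (sum_subset (Icc_subset_Icc le_rfl (by push_cast; omega)) fun y hy hy' => ?_).symm
      rw [mem_Icc] at hy hy'
      rw [h2 y (Or.inl (by omega))]
      ring
    have h5 : ∑ u ∈ Icc lo (hi + (n + 1 : ℕ)), ((p (a + n) * (w (a + n) (u - 1) * ms w p a C k n (u - 1))) *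
          (if C (n + 1) u then g u else 0)) = ∑ u ∈ Icc lo (hi + n), ((p (a + n) * (w (a + n) u * ms w p a C k n u)) *
          (if C (n + 1) (u + 1) then g (u + 1) else 0)) := by
      have h6 : ∑ u ∈ Icc (lo + 1) (hi + n + 1), ((p (a + n) * (w (a + n) (u - 1) * ms w p a C k n (u - 1))) *
          (if C (n + 1) u then g u else 0)) = ∑ u ∈ Icc lo (hi + n), ((p (a + n) * (w (a + n) u * ms w p a C k n u)) *
          (if C (n + 1) (u + 1) then g (u + 1) else 0)) := by
        refine sum_nbij' (fun u => u - 1) (fun u => u + 1) ?_ ?_ ?_ ?_ ?_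
        · intro u hu
          rw [mem_Icc] at hu ⊢
          omega
        · intro u hu
          rw [mem_Icc] at hu ⊢
          omega
        · intro u _
          ring
        · intro u _
          ring
        · intro u _
          simp only [sub_add_cancel]
      rw [← h6]
      refine (sum_subset (fun y hy => ?_) fun y hy hy' => ?_).symm
      · rw [mem_Icc] at hy ⊢
        push_cast
        omega
      · rw [mem_Icc] at hy hy'
        push_cast at hy
        rw [h2 (y - 1) (by omega)]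
        ring
    rw [h3, h4, h5, ← sum_add_distrib]
    refine sum_congr rfl fun u _ => ?_
    ring

end

end Pool.Agent.W_7d29a1_C1.Gt66
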