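import Pool.Agent.W_7d29a1_C1.GateR66

/-!
MP_7d29a1_pr, attractor route, [C1] SEP: THE GATE, the exchange of the tails and its consequence. (helper66)

`Av π π' j y` = the site is on none of the two paths. `swap`, `two_avoid`, `gate` as announced in GateR66.
-/

set_option autoImplicit false

namespace Pool.Agent.W_7d29a1_C1.Gt66

open Finset
open Pool.Agent.W_7d29a1_C1.K91P (fw bw fw_succ)

noncomputable section

attribute [local instance 10] Classical.propDecidable

variable {w : ℕ → ℤ → ℝ} {p : ℕ → ℝ} {a : ℕ} {A A' : ℕ → ℤ → Prop} {m m' k : ℤ → ℝ}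

/-- Off one path. -/
def A1 {n : ℕ} (π : Pa n) : ℕ → ℤ → Prop := fun j x => ¬ onp π j x

/-- Off two paths. -/
def A2 {n : ℕ} (π π' : Pa n) : ℕ → ℤ → Prop := fun j x => ¬ onp π j x ∧ ¬ onp π' j x

/-- Masses see only the rows up to the present one. -/
theorem ms_congr {n : ℕ} (h : ∀ j, j ≤ n → ∀ y, (A j y ↔ A' j y)) : ∀ y : ℤ, ms w p a A m n y = ms w p a A' m n y := by
  induction n with
  | zero =>
    intro y
    unfold ms
    simp only [h 0 le_rfl y]
  | succ n ih =>
    intro y
    have h1 := ih fun j hj y => h j (by omega) y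
    by_cases h2 : A (n + 1) y
    · rw [ms_in h2, ms_in ((h (n + 1) le_rfl y).1 h2), h1 y, h1 (y - 1)]
    · rw [ms_off h2, ms_off fun h3 => h2 ((h (n + 1) le_rfl y).2 h3)]

/-- **Two avoided sets**: `off the first + off the second ≤ all + off both`. -/
theorem two_avoid (hw : ∀ k y, 0 ≤ w k y) (hp : ∀ k, 0 ≤ p k) (hm : ∀ y, 0 ≤ m y) (A A' : ℕ → ℤ → Prop) :
    ∀ (n : ℕ) (y : ℤ), ms w p a A m n y + ms w p a A' m n y ≤ ms w p a All m n y + ms w p a (fun j x => A j x ∧ A' j x) m n y
  | 0, y => by
    rw [ms_all_zero]
    have h0 := hm y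
    by_cases h1 : A 0 y <;> by_cases h2 : A' 0 y <;> simp [ms, h1, h2, h0]
  | n + 1, y => by
    have i1 := two_avoid hw hp hm A A' n y
    have i2 := two_avoid hw hp hm A A' n (y - 1)
    have a1 := ms_le_all (A := A) (a := a) hw hp hm n y
    have a2 := ms_le_all (A := A) (a := a) hw hp hm n (y - 1)
    have b1 := ms_le_all (A := A') (a := a) hw hp hm n y
    have b2 := ms_le_all (A := A') (a := a) hw hp hm n (y - 1)
    have c1 := ms_nonneg (A := All) (a := a) hw hp hm n y
    have c2 := ms_nonneg (A := All) (a := a) hw hp hm n (y - 1)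
    have w1 := hw (a + n) y
    have w2 := hw (a + n) (y - 1)
    have p1 := hp (a + n)
    rw [ms_all_succ]
    by_cases h1 : A (n + 1) y
    · by_cases h2 : A' (n + 1) y
      · rw [ms_in h1, ms_in h2, ms_in (A := fun j x => A j x ∧ A' j x) ⟨h1, h2⟩]
        have e1 := mul_le_mul_of_nonneg_left i1 w1
        have e2 := mul_le_mul_of_nonneg_left (mul_le_mul_of_nonneg_left i2 w2) p1
        linarith
      · rw [ms_in h1, ms_off h2, ms_off (A := fun j x => A j x ∧ A' j x) fun h => h2 h.2]
        have e1 := mul_le_mul_of_nonneg_left a1 w1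
        have e2 := mul_le_mul_of_nonneg_left (mul_le_mul_of_nonneg_left a2 w2) p1
        linarith
    · rw [ms_off h1, ms_off (A := fun j x => A j x ∧ A' j x) fun h => h1 h.1]
      by_cases h2 : A' (n + 1) y
      · rw [ms_in h2]
        have e1 := mul_le_mul_of_nonneg_left b1 w1
        have e2 := mul_le_mul_of_nonneg_left (mul_le_mul_of_nonneg_left b2 w2) p1
        linarith
      · rw [ms_off h2]
        have : 0 ≤ w (a + n) y * ms w p a All m n y + p (a + n) * (w (a + n) (y - 1) * ms w p a All m n (y - 1)) := by positivity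
        linarith

/-- Every path of the contact with a function of its end point: the mass which avoids the path. -/
theorem swap_pt (hw : ∀ k y, 0 ≤ w k y) (hp : ∀ k, 0 ≤ p k) (hm : ∀ y, 0 ≤ m y) (hk0 : ∀ y, 0 ≤ k y) {C : ℕ → ℤ → Prop}
    {I : Finset ℤ} (hk : ∀ y, y ∉ I → k y = 0) : ∀ (n : ℕ) (u v : ℤ),
    ms w p a C k n u * ms w p a All m n v - (∑ π ∈ Ps C I n, if en π = u then k (s0 π) * wg w p a π *
      ms w p a (A1 π) m n v else 0) ≤ ms w p a All m n u * ms w p a All k n v
  | 0, u, v => by
    rw [ms_all_zero, ms_all_zero, ms_all_zero]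
    have h1 : (∑ π ∈ Ps C I 0, if en π = u then k (s0 π) * wg w p a π * ms w p a (A1 π) m 0 v else 0) =
        if u ≠ v then ms w p a C k 0 u * m v else 0 := by
      rw [sum_Ps_zero]
      have e0 : ∀ y ∈ I, (if C 0 y then (if en (Pa.z y) = u then k (s0 (Pa.z y)) * wg w p a (Pa.z y) *
          ms w p a (A1 (Pa.z y)) m 0 v else 0) else 0) =
          if y = u then (if C 0 y then k y * ms w p a (A1 (Pa.z y)) m 0 v else 0) else 0 := by
        intro y _
        show (if C 0 y then (if y = u then k y * 1 * ms w p a (A1 (Pa.z y)) m 0 v else 0) else 0) = _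
        by_cases g1 : C 0 y <;> by_cases g2 : y = u <;> simp [g1, g2]
      rw [sum_congr rfl e0, sum_ite_eq' I u fun y => if C 0 y then k y * ms w p a (A1 (Pa.z y)) m 0 v else 0]
      have e1 : ms w p a (A1 (Pa.z u)) m 0 v = if u ≠ v then m v else 0 := by
        unfold ms A1 onp
        by_cases h : v = u
        · subst h
          simp
        · have h' : u ≠ v := fun h2 => h h2.symm
          simp [h, h']
      rw [e1]
      by_cases h2 : u ≠ v
      · rw [if_pos h2, if_pos h2]
        by_cases h3 : u ∈ I
        · by_cases h4 : C 0 u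
          · simp [ms, h3, h4]
          · simp [ms, h4]
        · simp [ms, h3, hk u h3]
      · rw [if_neg h2, if_neg h2]
        simp
    rw [h1]
    by_cases h2 : u ≠ v
    · rw [if_pos h2, sub_self]
      exact mul_nonneg (hm u) (hk0 v)
    · rw [if_neg h2, sub_zero]
      rw [not_not] at h2
      subst h2
      have h3 : ms w p a C k 0 u ≤ k u := by
        have := ms_le_all (w := w) (p := p) (a := a) (A := C) (m := k) hw hp hk0 0 u
        rwa [ms_all_zero] at this
      calc ms w p a C k 0 u * m u ≤ k u * m u := mul_le_mul_of_nonneg_right h3 (hm u)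
        _ = m u * k u := mul_comm _ _
  | n + 1, u, v => by
    have w1 := hw (a + n)
    have p1 := hp (a + n)
    -- the joint masses
    set F : ℤ → ℤ → ℝ := fun u v => ∑ π ∈ Ps C I n, if en π = u then k (s0 π) * wg w p a π *
      ms w p a (A1 π) m n v else 0 with hF
    have ih : ∀ x y, ms w p a C k n x * ms w p a All m n y - F x y ≤ ms w p a All m n x * ms w p a All k n y :=
      fun x y => swap_pt hw hp hm hk0 hk n x y
    have hpos : 0 ≤ ∑ π ∈ Ps C I (n + 1), if en π = u then k (s0 π) * wg w p a π * ms w p a (A1 π) m (n + 1) v else 0 := by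
      refine sum_nonneg fun π _ => ?_
      split_ifs
      · exact mul_nonneg (mul_nonneg (hk0 _) (wg_nonneg hw hp _)) (ms_nonneg hw hp hm _ _)
      · exact le_rfl
    by_cases hu : C (n + 1) u
    · by_cases huv : u = v
      · subst huv
        -- the path ends at the site: nothing avoids it
        have h2 := ms_le_all (w := w) (p := p) (a := a) (A := C) (m := k) hw hp hk0 (n + 1) u
        have h3 := ms_nonneg (w := w) (p := p) (a := a) (A := All) (m := m) hw hp hm (n + 1) u
        nlinarith [mul_le_mul_of_nonneg_right h2 h3]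
      · have h1 : (∑ π ∈ Ps C I (n + 1), if en π = u then k (s0 π) * wg w p a π *
            ms w p a (A1 π) m (n + 1) v else 0) =
            w (a + n) u * (w (a + n) v * F u v + p (a + n) * (w (a + n) (v - 1) * F u (v - 1))) +
            p (a + n) * (w (a + n) (u - 1) * (w (a + n) v * F (u - 1) v + p (a + n) * (w (a + n) (v - 1) * F (u - 1) (v - 1)))) := by
          rw [sum_Ps_succ]
          have h2 : ∀ π ∈ Ps C I n, ((if C (n + 1) (en π) then (if en (Pa.s π false) = u then k (s0 (Pa.s π false)) *
              wg w p a (Pa.s π false) * ms w p a (A1 (Pa.s π false)) m (n + 1) v else 0) else 0) +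
              if C (n + 1) (en π + 1) then (if en (Pa.s π true) = u then k (s0 (Pa.s π true)) *
              wg w p a (Pa.s π true) * ms w p a (A1 (Pa.s π true)) m (n + 1) v else 0) else 0) =
              (if en π = u then k (s0 π) * wg w p a π * (w (a + n) u * (w (a + n) v * ms w p a (A1 π) m n v +
                (p (a + n) * w (a + n) (v - 1)) * ms w p a (A1 π) m n (v - 1))) else 0) +
              (if en π = u - 1 then k (s0 π) * wg w p a π * ((p (a + n) * w (a + n) (u - 1)) *
                (w (a + n) v * ms w p a (A1 π) m n v + (p (a + n) * w (a + n) (v - 1)) * ms w p a (A1 π) m n (v - 1)))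
                else 0) := by
            intro π _
            have e1 : en (Pa.s π false) = en π := by simp [en, st]
            have e2 : en (Pa.s π true) = en π + 1 := by simp [en, st]
            have e3 : wg w p a (Pa.s π false) = wg w p a π * (w (a + n) (en π) * 1) := by simp [wg]
            have e4 : wg w p a (Pa.s π true) = wg w p a π * (w (a + n) (en π) * p (a + n)) := by simp [wg]
            have e5 : ∀ b, s0 (Pa.s π b) = s0 π := fun b => rfl
            have e6 : ∀ b, en (Pa.s π b) = u → ms w p a (A1 (Pa.s π b)) m (n + 1) v =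
                w (a + n) v * ms w p a (A1 π) m n v + p (a + n) * (w (a + n) (v - 1) * ms w p a (A1 π) m n (v - 1)) := by
              intro b hb
              have h3 : A1 (Pa.s π b) (n + 1) v := fun h4 => huv (hb.symm.trans ((onp_last (Pa.s π b)).1 h4).symm)
              have h4 : ∀ y : ℤ, ms w p a (A1 (Pa.s π b)) m n y = ms w p a (A1 π) m n y :=
                ms_congr fun j hj y => not_congr (onp_lt π b hj)
              rw [ms_in h3, h4, h4]
            by_cases g1 : en π = u
            · have g2 : ¬ en π = u - 1 := by omega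
              have g3 : ¬ en (Pa.s π true) = u := by rw [e2]; omega
              have g4 : en (Pa.s π false) = u := by rw [e1]; exact g1
              have g5 : C (n + 1) (en π) := by rw [g1]; exact hu
              rw [if_pos g5, if_pos g4, if_neg g3, if_pos g1, if_neg g2, e5, e3, e6 false g4, g1]
              split_ifs <;> ring
            · by_cases g2 : en π = u - 1
              · have g3 : en (Pa.s π true) = u := by rw [e2]; omega
                have g4 : ¬ en (Pa.s π false) = u := by rw [e1]; exact g1
                have g5 : C (n + 1) (en π + 1) := by rw [g2, sub_add_cancel]; exact hu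
                rw [if_neg g4, if_pos g5, if_pos g3, if_neg g1, if_pos g2, e5, e4, e6 true g3, g2]
                split_ifs <;> ring
              · have g3 : ¬ en (Pa.s π true) = u := by rw [e2]; omega
                have g4 : ¬ en (Pa.s π false) = u := by rw [e1]; exact g1
                rw [if_neg g4, if_neg g3, if_neg g1, if_neg g2]
                simp
          rw [sum_congr rfl h2, sum_add_distrib]
          have h5 : ∀ (x : ℤ) (c d e : ℝ), (∑ π ∈ Ps C I n, if en π = x then k (s0 π) * wg w p a π *
              (c * (d * ms w p a (A1 π) m n v + e * ms w p a (A1 π) m n (v - 1))) else 0) =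
              c * (d * F x v + e * F x (v - 1)) := by
            intro x c d e
            rw [hF]
            simp only [mul_sum, ← sum_add_distrib]
            refine sum_congr rfl fun π _ => ?_
            split_ifs <;> ring
          rw [h5, h5]
          ring
        rw [h1, ms_in hu, ms_all_succ, ms_all_succ, ms_all_succ]
        have i1 := ih u v
        have i2 := ih u (v - 1)
        have i3 := ih (u - 1) v
        have i4 := ih (u - 1) (v - 1)
        have c1 : 0 ≤ w (a + n) u * w (a + n) v := mul_nonneg (w1 _) (w1 _)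
        have c2 : 0 ≤ p (a + n) * (w (a + n) u * w (a + n) (v - 1)) := mul_nonneg p1 (mul_nonneg (w1 _) (w1 _))
        have c3 : 0 ≤ p (a + n) * (w (a + n) (u - 1) * w (a + n) v) := mul_nonneg p1 (mul_nonneg (w1 _) (w1 _))
        have c4 : 0 ≤ p (a + n) * (p (a + n) * (w (a + n) (u - 1) * w (a + n) (v - 1))) :=
          mul_nonneg p1 (mul_nonneg p1 (mul_nonneg (w1 _) (w1 _)))
        have j1 := mul_le_mul_of_nonneg_left i1 c1
        have j2 := mul_le_mul_of_nonneg_left i2 c2
        have j3 := mul_le_mul_of_nonneg_left i3 c3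
        have j4 := mul_le_mul_of_nonneg_left i4 c4
        linarith
    · rw [ms_off hu, zero_mul]
      have h2 := mul_nonneg (ms_nonneg (w := w) (p := p) (a := a) (A := All) (m := m) hw hp hm (n + 1) u)
        (ms_nonneg (w := w) (p := p) (a := a) (A := All) (m := k) hw hp hk0 (n + 1) v)
      linarith

end

end Pool.Agent.W_7d29a1_C1.Gt66
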