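import Pool.Agent.W_7d29a1_C1.GateC66

/-!
MP_7d29a1_pr, attractor route, [C1] SEP: THE GATE, thin strips, the side at three rows, the jumps inside the strips (the plan of helper18,
board 85009). (helper66)

Rows `0 < j₁ < r₂ = j₁ + l₁ < j₃ < r₄ = j₃ + l₃ < n`; sets `N0, N2, N4` of sites at the rows `0, r₂, r₄`, window `Vs` on the rows of the
strips. Masses at `v` which avoid the two paths: outside of `N0, N2, N4` at one of the three rows (`side`), or outside of the window at a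
row of a strip (`jump`), or they cross the two walls (`walls`).
-/

set_option autoImplicit false

namespace Pool.Agent.W_7d29a1_C1.Gt66

open Finset MeasureTheory
open Pool.Agent.W_7d29a1_F Pool.Agent.W_7d29a1_h4g Pool.Agent.W_7d29a1_H Pool.Agent.W_7d29a1_HS Pool.Agent.W_7d29a1_HL
open Pool.Agent.W_7d29a1_C1.K91 (wt wt_pos)
open Pool.Agent.W_7d29a1_C1.K91P (fw bw fw_succ)
open Pool.Agent.W_7d29a1_C1.U16 (ker)

noncomputable section

attribute [local instance 10] Classical.propDecidable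

section Det

variable {w : ℕ → ℤ → ℝ} {p : ℕ → ℝ} {a : ℕ} {A A' : ℕ → ℤ → Prop} {m m' : ℤ → ℝ}

/-- Equal at the start, equal regions afterwards. -/
theorem ms_ext (h0 : ∀ y, ms w p a A m 0 y = ms w p a A' m' 0 y) : ∀ (n : ℕ), (∀ j, 1 ≤ j → j ≤ n → ∀ y, (A j y ↔ A' j y)) →
    ∀ y : ℤ, ms w p a A m n y = ms w p a A' m' n y
  | 0, _, y => h0 y
  | n + 1, h, y => by
    have i1 := ms_ext h0 n (fun j h1 h2 => h j h1 (by omega)) y
    have i2 := ms_ext h0 n (fun j h1 h2 => h j h1 (by omega)) (y - 1)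
    by_cases hA : A (n + 1) y
    · rw [ms_in hA, ms_in ((h (n + 1) (by omega) le_rfl y).1 hA), i1, i2]
    · rw [ms_off hA, ms_off fun h1 => hA ((h (n + 1) (by omega) le_rfl y).2 h1)]

/-- Only the masses of the cone count. -/
theorem ms_cone : ∀ (n : ℕ) (y : ℤ) {m m' : ℤ → ℝ}, (∀ x, y - n ≤ x → x ≤ y → m x = m' x) → ms w p a A m n y = ms w p a A m' n y
  | 0, y, m, m', h => by
    by_cases hA : A 0 y
    · unfold ms
      rw [if_pos hA, if_pos hA]
      exact h y (by simp) le_rfl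
    · rw [ms_off hA, ms_off hA]
  | n + 1, y, m, m', h => by
    have i1 := ms_cone n y (m := m) (m' := m') fun x h1 h2 => h x (by push_cast; omega) h2
    have i2 := ms_cone n (y - 1) (m := m) (m' := m') fun x h1 h2 => h x (by push_cast; omega) (by omega)
    by_cases hA : A (n + 1) y
    · rw [ms_in hA, ms_in hA, i1, i2]
    · rw [ms_off hA, ms_off hA]

/-- Expansion of the free masses over the cone. -/
theorem ms_all_cone (n : ℕ) (v : ℤ) : ms w p a All m n v = ∑ x ∈ Icc (v - n) v, m x * ker w p a n x v := by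
  have h1 : ms w p a All m n v = ms w p a All (fun x => if x ∈ Icc (v - (n : ℤ)) v then m x else 0) n v :=
    ms_cone n v fun x h1 h2 => by rw [if_pos (mem_Icc.2 ⟨h1, h2⟩)]
  rw [h1, ms_expand (F := Icc (v - (n : ℤ)) v) (fun y hy => if_neg hy)]
  refine sum_congr rfl fun x hx => ?_
  simp only [if_pos hx]
  rw [ms_ker]

/-- The masses at the row `r` with one more restriction there. -/
theorem ms_at (r : ℕ) (N : ℤ → Prop) (y : ℤ) :
    ms w p a (fun j z => A j z ∧ (j = r → N z)) m r y = if N y then ms w p a A m r y else 0 := by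
  cases r with
  | zero =>
    by_cases hN : N y
    · rw [if_pos hN]
      by_cases hA : A 0 y
      · unfold ms
        rw [if_pos hA, if_pos ⟨hA, fun _ => hN⟩]
      · rw [ms_off hA, ms_off fun h => hA h.1]
    · rw [if_neg hN, ms_off fun h => hN (h.2 rfl)]
  | succ r =>
    have e : ∀ z, ms w p a (fun j z => A j z ∧ (j = r + 1 → N z)) m r z = ms w p a A m r z :=
      ms_congr fun j hj z => ⟨fun h => h.1, fun h => ⟨h, fun h1 => by omega⟩⟩
    by_cases hN : N y
    · rw [if_pos hN]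
      by_cases hA : A (r + 1) y
      · rw [ms_in hA, ms_in (A := fun j z => A j z ∧ (j = r + 1 → N z)) ⟨hA, fun _ => hN⟩, e, e]
      · rw [ms_off hA, ms_off (A := fun j z => A j z ∧ (j = r + 1 → N z)) fun h => hA h.1]
    · rw [if_neg hN, ms_off (A := fun j z => A j z ∧ (j = r + 1 → N z)) fun h => hN (h.2 rfl)]

/-- **PEEL** one row. -/
theorem peel (hw : ∀ k y, 0 ≤ w k y) (hp : ∀ k, 0 ≤ p k) (hm : ∀ y, 0 ≤ m y) (r i : ℕ) (N : ℤ → Prop) (v : ℤ) :
    ms w p a A m (r + i) v ≤ ms w p a (fun j z => A j z ∧ (j = r → N z)) m (r + i) v +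
      ∑ y ∈ Icc (v - i) v, if N y then 0 else ms w p a A m r y * ker w p (a + r) i y v := by
  set M : ℤ → ℝ := ms w p a A m r with hM
  have M0 : ∀ y, 0 ≤ M y := fun y => ms_nonneg hw hp hm r y
  set M1 : ℤ → ℝ := fun y => if N y then M y else 0 with hM1
  set M2 : ℤ → ℝ := fun y => if N y then 0 else M y with hM2
  have M20 : ∀ y, 0 ≤ M2 y := fun y => by
    rw [hM2]
    simp only
    split_ifs
    · exact le_rfl
    · exact M0 y
  have e1 : ms w p a A m (r + i) v = ms w p (a + r) (fun q z => A (r + q) z) M1 i v + ms w p (a + r) (fun q z => A (r + q) z) M2 i v := by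
    have h1 : M = fun y => 1 * M1 y + 1 * M2 y := by
      funext y
      rw [hM1, hM2]
      simp only
      split_ifs <;> ring
    rw [ms_cut r i v, ← hM, h1, ms_lin, one_mul, one_mul]
  have e2 : ms w p a (fun j z => A j z ∧ (j = r → N z)) m (r + i) v = ms w p (a + r) (fun q z => A (r + q) z) M1 i v := by
    rw [ms_cut r i v]
    refine ms_ext (fun y => ?_) i (fun j h1 h2 y => ⟨fun h => h.1, fun h => ⟨h, fun h3 => by omega⟩⟩) v
    have h3 := ms_at (w := w) (p := p) (a := a) (A := A) (m := m) r N y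
    by_cases hA : A (r + 0) y
    · by_cases hN : N y
      · conv_lhs => unfold ms
        conv_rhs => unfold ms
        rw [if_pos ⟨hA, fun _ => hN⟩, if_pos hA, h3]
      · conv_lhs => unfold ms
        conv_rhs => unfold ms
        rw [if_neg fun h => hN (h.2 (add_zero r)), if_pos hA]
        simp only [hM1, if_neg hN]
    · rw [ms_off (A := fun q z => A (r + q) z) hA, ms_off (A := fun q z => A (r + q) z ∧ (r + q = r → N z)) fun h => hA h.1]
  have e3 : ms w p (a + r) (fun q z => A (r + q) z) M2 i v ≤ ∑ y ∈ Icc (v - i) v, if N y then 0 else M y * ker w p (a + r) i y v := by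
    refine (ms_le_all hw hp M20 i v).trans (le_of_eq ?_)
    rw [ms_all_cone]
    refine sum_congr rfl fun y _ => ?_
    rw [hM2]
    simp only
    split_ifs
    · exact zero_mul _
    · rfl
  rw [e1, e2]
  linarith

/-- The last exit, the part before the exit inside `A`. -/
theorem duhamelA (hw : ∀ k y, 0 ≤ w k y) (hp : ∀ k, 0 ≤ p k) (hm : ∀ y, 0 ≤ m y) {V : ℕ → ℤ → Prop} {Rm : ℕ → Finset ℤ}
    (hR : ∀ j x, ¬ V j x → (V (j + 1) x ∨ V (j + 1) (x + 1)) → x ∈ Rm j) : ∀ (n : ℕ) (v : ℤ),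
    ms w p a A m n v ≤ ms w p a (fun j y => A j y ∧ V j y) m n v +
      ∑ j ∈ range n, ∑ x ∈ Rm j, ms w p a A m j x * ks w p a V n j x v + if V n v then 0 else ms w p a A m n v
  | 0, v => by
    simp only [range_zero, sum_empty, add_zero]
    have h0 := hm v
    by_cases h1 : A 0 v <;> by_cases h2 : V 0 v <;> simp [ms, h1, h2, h0]
  | n + 1, v => by
    have X0 := fun y => ms_nonneg (A := A) (a := a) hw hp hm (n + 1) y
    have T0 : 0 ≤ ∑ j ∈ range (n + 1), ∑ x ∈ Rm j, ms w p a A m j x * ks w p a V (n + 1) j x v :=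
      sum_nonneg fun j _ => sum_nonneg fun x _ => mul_nonneg (ms_nonneg hw hp hm _ _) (ks_nonneg hw hp _ _ _ _ _)
    have M0 := ms_nonneg (A := fun j y => A j y ∧ V j y) (a := a) hw hp hm (n + 1) v
    by_cases hV : V (n + 1) v
    · rw [if_pos hV, add_zero]
      by_cases hA : A (n + 1) v
      · rw [ms_in hA, ms_in (A := fun j y => A j y ∧ V j y) ⟨hA, hV⟩]
        have i1 := duhamelA hw hp hm hR n v
        have i2 := duhamelA hw hp hm hR n (v - 1)
        have w1 := hw (a + n) v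
        have w2 := hw (a + n) (v - 1)
        have p1 := hp (a + n)
        have j1 := mul_le_mul_of_nonneg_left i1 w1
        have j2 := mul_le_mul_of_nonneg_left (mul_le_mul_of_nonneg_left i2 w2) p1
        have hlast : w (a + n) v * (if V n v then 0 else ms w p a A m n v) +
            p (a + n) * (w (a + n) (v - 1) * (if V n (v - 1) then 0 else ms w p a A m n (v - 1))) ≤
            ∑ x ∈ Rm n, ms w p a A m n x * ks w p a V (n + 1) n x v := by
          have e1 : ∀ x, ks w p a V (n + 1) n x v = w (a + n) v * (if v = x then 1 else 0) +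
              p (a + n) * (w (a + n) (v - 1) * (if v - 1 = x then 1 else 0)) := fun x => by
            rw [ks_succ le_rfl x hV, ks_self, ks_self]
          have e2 : ∑ x ∈ Rm n, ms w p a A m n x * ks w p a V (n + 1) n x v =
              w (a + n) v * (∑ x ∈ Rm n, if v = x then ms w p a A m n x else 0) +
              p (a + n) * (w (a + n) (v - 1) * ∑ x ∈ Rm n, if v - 1 = x then ms w p a A m n x else 0) := by
            rw [mul_sum, mul_sum, mul_sum, ← sum_add_distrib]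
            refine sum_congr rfl fun x _ => ?_
            rw [e1]
            by_cases g1 : v = x <;> by_cases g2 : v - 1 = x <;> simp [g1, g2] <;> ring
          rw [e2, sum_ite_eq, sum_ite_eq]
          refine add_le_add (mul_le_mul_of_nonneg_left ?_ w1) (mul_le_mul_of_nonneg_left (mul_le_mul_of_nonneg_left ?_ w2) p1)
          · by_cases g : V n v
            · rw [if_pos g]
              split_ifs
              · exact ms_nonneg hw hp hm _ _
              · exact le_rfl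
            · rw [if_neg g, if_pos (hR n v g (Or.inl hV))]
          · by_cases g : V n (v - 1)
            · rw [if_pos g]
              split_ifs
              · exact ms_nonneg hw hp hm _ _
              · exact le_rfl
            · rw [if_neg g, if_pos (hR n (v - 1) g (Or.inr (by rwa [sub_add_cancel])))]
        have hrest : ∑ j ∈ range n, ∑ x ∈ Rm j, ms w p a A m j x * ks w p a V (n + 1) j x v =
            w (a + n) v * (∑ j ∈ range n, ∑ x ∈ Rm j, ms w p a A m j x * ks w p a V n j x v) +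
            p (a + n) * (w (a + n) (v - 1) * ∑ j ∈ range n, ∑ x ∈ Rm j, ms w p a A m j x * ks w p a V n j x (v - 1)) := by
          simp only [mul_sum, ← sum_add_distrib]
          refine sum_congr rfl fun j hj => sum_congr rfl fun x _ => ?_
          rw [ks_succ (mem_range.1 hj).le x hV]
          ring
        rw [sum_range_succ, hrest]
        linarith
      · rw [ms_off hA]
        linarith
    · rw [if_neg hV]
      linarith

/-- Passing through the row `j + d`. -/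
theorem ks_cut (hw : ∀ k y, 0 ≤ w k y) (hp : ∀ k, 0 ≤ p k) {V : ℕ → ℤ → Prop} {j d e : ℕ} (hd : 1 ≤ d) {F : Finset ℤ}
    (hF : ∀ y, V (j + d) y → y ∈ F) (x v : ℤ) :
    ks w p a V (j + d + e) j x v ≤ ∑ z ∈ F, ker w p (a + j) d x z * ker w p (a + (j + d)) e z v := by
  unfold ks
  have e1 : j + d + e - j = d + e := by omega
  have e2 : (fun y : ℤ => if y = x then (1 : ℝ) else 0) = dl x := rfl
  rw [e1, e2, ms_cut d e v, ms_start (F := F) (fun y hy => by
    rcases hy with h | h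
    · omega
    · exact hF y h) e v]
  refine sum_le_sum fun z _ => ?_
  have h1 : ms w p (a + j) (fun i y => i = 0 ∨ V (j + i) y) (dl x) d z ≤ ker w p (a + j) d x z := by
    rw [← ms_ker]
    exact ms_le_all hw hp (dl_nonneg x) d z
  have h2 : ms w p (a + j + d) (fun r y => d + r = 0 ∨ V (j + (d + r)) y) (dl z) e v ≤ ker w p (a + (j + d)) e z v := by
    rw [← ms_ker, ← add_assoc]
    exact ms_le_all hw hp (dl_nonneg z) e v
  exact mul_le_mul h1 h2 (ms_nonneg hw hp (dl_nonneg z) _ _) (by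
    rw [← ms_ker]
    exact ms_nonneg hw hp (dl_nonneg x) _ _)

/-- The windows: `N0, N2, N4` at three rows, `Vs` on the strips, the cone of `v`. -/
def VV (n : ℕ) (v : ℤ) (j₁ r₂ j₃ r₄ : ℕ) (N0 N2 N4 : ℤ → Prop) (Vs : ℕ → ℤ → Prop) : ℕ → ℤ → Prop := fun j y =>
  (v - ((n : ℤ) - j) ≤ y ∧ y ≤ v) ∧ (j = 0 → N0 y) ∧ (j = r₂ → N2 y) ∧ (j = r₄ → N4 y) ∧ (j₁ ≤ j → j < r₂ → Vs j y) ∧
    (j₃ ≤ j → j < r₄ → Vs j y)

/-- The window as a finite set. -/
def FV (n : ℕ) (v : ℤ) (j₁ r₂ j₃ r₄ : ℕ) (N0 N2 N4 : ℤ → Prop) (Vs : ℕ → ℤ → Prop) (j : ℕ) : Finset ℤ :=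
  (Icc (v - ((n : ℤ) - j)) v).filter fun y => VV n v j₁ r₂ j₃ r₄ N0 N2 N4 Vs j y

theorem mem_FV {n : ℕ} {v : ℤ} {j₁ r₂ j₃ r₄ : ℕ} {N0 N2 N4 : ℤ → Prop} {Vs : ℕ → ℤ → Prop} (j : ℕ) (y : ℤ) :
    VV n v j₁ r₂ j₃ r₄ N0 N2 N4 Vs j y ↔ y ∈ FV n v j₁ r₂ j₃ r₄ N0 N2 N4 Vs j := by
  unfold FV
  rw [mem_filter, mem_Icc]
  exact ⟨fun h => ⟨h.1, h⟩, fun h => h.2⟩

/-- **THE JUMPS.** -/
theorem jumps (hw : ∀ k y, 0 ≤ w k y) (hp : ∀ k, 0 ≤ p k) (hm : ∀ y, 0 ≤ m y) {n j₁ l₁ j₃ l₃ : ℕ} {v : ℤ}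
    {N0 N2 N4 : ℤ → Prop} {Vs : ℕ → ℤ → Prop} (hj1 : 1 ≤ j₁) (h13 : j₁ + l₁ < j₃) (h34 : j₃ + l₃ < n)
    (hN2 : ∀ y, N2 y → Vs (j₁ + l₁) y) (hN4 : ∀ y, N4 y → Vs (j₃ + l₃) y)
    (hA0 : ∀ y, A 0 y → N0 y) (hA2 : ∀ y, A (j₁ + l₁) y → N2 y) (hA4 : ∀ y, A (j₃ + l₃) y → N4 y)
    {U εJ : ℝ} (hU0 : 0 ≤ U) (hε : 0 ≤ εJ) {F0 : Finset ℤ} (hF0 : ∀ y, A 0 y → y ∈ F0)
    (u0 : ∀ x ∈ F0, ∀ j, 1 ≤ j → j < n → ∀ G : Finset ℤ, ∑ y ∈ G, ker w p a j x y ≤ U)
    (u2 : ∀ z, N2 z → ker w p (a + (j₁ + l₁)) (n - (j₁ + l₁)) z v ≤ U)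
    (u4 : ∀ z, N4 z → ker w p (a + (j₃ + l₃)) (n - (j₃ + l₃)) z v ≤ U)
    (J1 : ∀ j, j₁ ≤ j → j < j₁ + l₁ → ∀ x, ¬ Vs j x → (Vs (j + 1) x ∨ Vs (j + 1) (x + 1)) → ∀ G : Finset ℤ, (∀ z ∈ G, N2 z) →
      ∑ z ∈ G, ker w p (a + j) (j₁ + l₁ - j) x z ≤ εJ)
    (J3 : ∀ j, j₃ ≤ j → j < j₃ + l₃ → ∀ x, ¬ Vs j x → (Vs (j + 1) x ∨ Vs (j + 1) (x + 1)) → ∀ G : Finset ℤ, (∀ z ∈ G, N4 z) →
      ∑ z ∈ G, ker w p (a + j) (j₃ + l₃ - j) x z ≤ εJ) :
    ms w p a A m n v ≤ ms w p a (fun j y => A j y ∧ VV n v j₁ (j₁ + l₁) j₃ (j₃ + l₃) N0 N2 N4 Vs j y) m n v +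
      (l₁ + l₃) * (U * εJ * U * ∑ x ∈ F0, m x) := by
  set V := VV n v j₁ (j₁ + l₁) j₃ (j₃ + l₃) N0 N2 N4 Vs with hV
  set K : ℝ := U * εJ * U * ∑ x ∈ F0, m x with hK
  have s0 : 0 ≤ ∑ x ∈ F0, m x := sum_nonneg fun x _ => hm x
  have K0 : 0 ≤ K := by positivity
  set Rm : ℕ → Finset ℤ := fun j => (Icc (v - ((n : ℤ) - j)) v).filter fun x => ¬ V j x ∧ (V (j + 1) x ∨ V (j + 1) (x + 1)) with hRm
  have hR : ∀ j x, ¬ V j x → (V (j + 1) x ∨ V (j + 1) (x + 1)) → x ∈ Rm j := by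
    intro j x h1 h2
    refine mem_filter.2 ⟨mem_Icc.2 ?_, h1, h2⟩
    rcases h2 with h | h
    · have h3 := h.1
      push_cast at h3
      omega
    · have h3 := h.1
      push_cast at h3
      omega
  have hVn : V n v := by
    refine ⟨⟨by omega, le_rfl⟩, fun h => by omega, fun h => by omega, fun h => by omega, fun _ h => by omega, fun _ h => by omega⟩
  have h1 := duhamelA (w := w) (p := p) (a := a) (A := A) (m := m) hw hp hm hR n v
  rw [if_pos hVn, add_zero] at h1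
  refine h1.trans (add_le_add_right ?_ _)
  -- the free masses at a row
  have X1 : ∀ j, 1 ≤ j → j < n → ∀ G : Finset ℤ, ∑ y ∈ G, ms w p a A m j y ≤ U * ∑ x ∈ F0, m x := by
    intro j hj hjn G
    refine tot_le (A := A) j hF0 hm fun x hx => ?_
    refine le_trans (sum_le_sum fun y _ => ?_) (u0 x hx j hj hjn G)
    rw [← ms_ker]
    exact ms_le_all hw hp (dl_nonneg x) j y
  -- one strip
  have one : ∀ (j₀ l : ℕ) (N : ℤ → Prop), 1 ≤ j₀ → j₀ + l < n → (∀ y, V (j₀ + l) y → N y) →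
      (∀ z, N z → ker w p (a + (j₀ + l)) (n - (j₀ + l)) z v ≤ U) →
      (∀ j, j₀ ≤ j → j < j₀ + l → ∀ x, ¬ Vs j x → (Vs (j + 1) x ∨ Vs (j + 1) (x + 1)) → ∀ G : Finset ℤ, (∀ z ∈ G, N z) →
        ∑ z ∈ G, ker w p (a + j) (j₀ + l - j) x z ≤ εJ) →
      ∀ j, j₀ ≤ j → j < j₀ + l → ∀ x, ¬ Vs j x → (Vs (j + 1) x ∨ Vs (j + 1) (x + 1)) → ks w p a V n j x v ≤ εJ * U := by
    intro j₀ l N hj0 hjn hVN uN JN j i1 i2 x hx1 hx2
    obtain ⟨d, hd⟩ : ∃ d, j₀ + l = j + d := ⟨j₀ + l - j, by omega⟩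
    obtain ⟨e, he⟩ : ∃ e, n = j + d + e := ⟨n - (j₀ + l), by omega⟩
    have h2 := ks_cut (w := w) (p := p) (a := a) hw hp (V := V) (j := j) (d := d) (e := e) (by omega)
      (F := (Icc (v - ((n : ℤ) - (j + d : ℕ))) v).filter fun y => N y) (fun y hy => by
        refine mem_filter.2 ⟨mem_Icc.2 ?_, hVN y (by rw [hd]; exact hy)⟩
        exact hy.1) x v
    rw [← he] at h2
    refine h2.trans ?_
    have h3 : ∀ z ∈ (Icc (v - ((n : ℤ) - (j + d : ℕ))) v).filter fun y => N y,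
        ker w p (a + j) d x z * ker w p (a + (j + d)) e z v ≤ ker w p (a + j) d x z * U := by
      intro z hz
      have h4 := uN z (mem_filter.1 hz).2
      rw [hd, show n - (j + d) = e by omega] at h4
      refine mul_le_mul_of_nonneg_left h4 ?_
      rw [← ms_ker]
      exact ms_nonneg hw hp (dl_nonneg x) _ _
    refine (sum_le_sum h3).trans ?_
    rw [← sum_mul]
    refine mul_le_mul_of_nonneg_right ?_ hU0
    have h5 := JN j i1 i2 x hx1 hx2 ((Icc (v - ((n : ℤ) - (j + d : ℕ))) v).filter fun y => N y) fun z hz => (mem_filter.1 hz).2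
    rwa [hd, show j + d - j = d by omega] at h5
  have VV2 : ∀ y, V (j₁ + l₁) y → N2 y := fun y hy => hy.2.2.1 rfl
  have VV4 : ∀ y, V (j₃ + l₃) y → N4 y := fun y hy => hy.2.2.2.1 rfl
  have o1 := one j₁ l₁ N2 hj1 (by omega) VV2 u2 J1
  have o3 := one j₃ l₃ N4 (by omega) (by omega) VV4 u4 J3
  -- the terms
  have term : ∀ j ∈ range n, ∑ x ∈ Rm j, ms w p a A m j x * ks w p a V n j x v ≤
      (if j₁ ≤ j ∧ j < j₁ + l₁ then K else 0) + (if j₃ ≤ j ∧ j < j₃ + l₃ then K else 0) := by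
    intro j hj
    have hjn := mem_range.1 hj
    -- the next site is in the window of the strip
    have nxt : ∀ (z : ℤ), V (j + 1) z → (j₁ ≤ j → j < j₁ + l₁ → Vs (j + 1) z) ∧ (j₃ ≤ j → j < j₃ + l₃ → Vs (j + 1) z) := by
      intro z hz
      refine ⟨fun i1 i2 => ?_, fun i1 i2 => ?_⟩
      · by_cases h : j + 1 < j₁ + l₁
        · exact hz.2.2.2.2.1 (by omega) h
        · have h3 : j + 1 = j₁ + l₁ := by omega
          rw [h3]
          exact hN2 z (hz.2.2.1 h3)
      · by_cases h : j + 1 < j₃ + l₃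
        · exact hz.2.2.2.2.2 (by omega) h
        · have h3 : j + 1 = j₃ + l₃ := by omega
          rw [h3]
          exact hN4 z (hz.2.2.2.1 h3)
    by_cases hs1 : j₁ ≤ j ∧ j < j₁ + l₁
    · rw [if_pos hs1, if_neg (by omega), add_zero]
      have h3 : ∀ x ∈ Rm j, ms w p a A m j x * ks w p a V n j x v ≤ ms w p a A m j x * (εJ * U) := by
        intro x hx
        refine mul_le_mul_of_nonneg_left ?_ (ms_nonneg hw hp hm _ _)
        obtain ⟨h4, h5, h6⟩ := mem_filter.1 hx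
        refine o1 j hs1.1 hs1.2 x (fun h7 => h5 ?_) (h6.imp (fun h => (nxt _ h).1 hs1.1 hs1.2) fun h => (nxt _ h).1 hs1.1 hs1.2)
        exact ⟨mem_Icc.1 h4, fun h => by omega, fun h => by omega, fun h => by omega, fun _ _ => h7, fun h _ => by omega⟩
      refine (sum_le_sum h3).trans ?_
      rw [← sum_mul]
      have h8 := X1 j (by omega) hjn (Rm j)
      calc _ ≤ (U * ∑ x ∈ F0, m x) * (εJ * U) := mul_le_mul_of_nonneg_right h8 (by positivity)
        _ = K := by rw [hK]; ring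
    · by_cases hs3 : j₃ ≤ j ∧ j < j₃ + l₃
      · rw [if_neg hs1, if_pos hs3, zero_add]
        have h3 : ∀ x ∈ Rm j, ms w p a A m j x * ks w p a V n j x v ≤ ms w p a A m j x * (εJ * U) := by
          intro x hx
          refine mul_le_mul_of_nonneg_left ?_ (ms_nonneg hw hp hm _ _)
          obtain ⟨h4, h5, h6⟩ := mem_filter.1 hx
          refine o3 j hs3.1 hs3.2 x (fun h7 => h5 ?_) (h6.imp (fun h => (nxt _ h).2 hs3.1 hs3.2) fun h => (nxt _ h).2 hs3.1 hs3.2)
          exact ⟨mem_Icc.1 h4, fun h => by omega, fun h => by omega, fun h => by omega, fun _ h => by omega, fun _ _ => h7⟩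
        refine (sum_le_sum h3).trans ?_
        rw [← sum_mul]
        have h8 := X1 j (by omega) hjn (Rm j)
        calc _ ≤ (U * ∑ x ∈ F0, m x) * (εJ * U) := mul_le_mul_of_nonneg_right h8 (by positivity)
          _ = K := by rw [hK]; ring
      · rw [if_neg hs1, if_neg hs3, add_zero]
        refine le_of_eq (sum_eq_zero fun x hx => ?_)
        obtain ⟨h4, h5, h6⟩ := mem_filter.1 hx
        have h7 : ¬ A j x := by
          intro hAx
          refine h5 ⟨mem_Icc.1 h4, fun h => hA0 x (by rw [← h]; exact hAx), fun h => hA2 x (by rw [← h]; exact hAx),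
            fun h => hA4 x (by rw [← h]; exact hAx), fun i1 i2 => absurd ⟨i1, i2⟩ hs1, fun i1 i2 => absurd ⟨i1, i2⟩ hs3⟩
        rw [ms_off h7, zero_mul]
  refine (sum_le_sum term).trans ?_
  rw [sum_add_distrib, add_mul]
  have cnt : ∀ j₀ l : ℕ, ∑ j ∈ range n, (if j₀ ≤ j ∧ j < j₀ + l then K else 0) ≤ l * K := by
    intro j₀ l
    rw [← sum_filter, sum_const, nsmul_eq_mul]
    refine mul_le_mul_of_nonneg_right ?_ K0
    have h1 : ((range n).filter fun j => j₀ ≤ j ∧ j < j₀ + l) ⊆ Ico j₀ (j₀ + l) := fun j hj => mem_Ico.2 (mem_filter.1 hj).2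
    have h2 := card_le_card h1
    rw [Nat.card_Ico] at h2
    have h3 : j₀ + l - j₀ = l := by omega
    rw [h3] at h2
    exact_mod_cast h2
  exact add_le_add (cnt _ _) (cnt _ _)

end Det

end

end Pool.Agent.W_7d29a1_C1.Gt66
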