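import Pool.Agent.W_7d29a1_C1.GateU66

/-!
MP_7d29a1_pr, attractor route, [C1] SEP: THE GATE, thin strips, in the letters of the model (`havV`). (helper66)
-/

set_option autoImplicit false

namespace Pool.Agent.W_7d29a1_C1.Gt66

open Finset MeasureTheory
open Pool.Agent.W_7d29a1_F Pool.Agent.W_7d29a1_h4g Pool.Agent.W_7d29a1_H Pool.Agent.W_7d29a1_HS Pool.Agent.W_7d29a1_HL
open Pool.Agent.W_7d29a1_C1.K91 (wt wt_pos)
open Pool.Agent.W_7d29a1_C1.K91P (fw bw fw_succ)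
open Pool.Agent.W_7d29a1_C1.U16 (ker)

noncomputable section

attribute [local instance 10] Classical.propDecidable

/-! ### In the letters of the model -/

variable {μ : Measure ℝ} {s : ℝ}

/-- The kernel, exact. -/
theorem br_ker {w : ℕ → ℤ → ℝ} {p : ℕ → ℝ} (η : Env) (i n : ℕ) (x y : ℤ)
    (hw : ∀ k, i < k → k ≤ i + n → ∀ y, w k y = Real.exp (-lam μ s) * Real.exp (η ((k : ℤ), y)))
    (hp : ∀ k, i ≤ k → k ≤ i + n → p k = Real.exp s) :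
    ker w p i (n + 1) x y = w i x * (W μ s η ((i : ℤ), x) n (y - x) + Real.exp s * W μ s η ((i : ℤ), x) n (y - x - 1)) := by
  have h1 : ker w p i (n + 1) x y = ms w p i (AS Set.univ i) (dl x) (n + 1) y := by
    rw [← ms_ker]
    exact ms_congr (fun j _ z => ⟨fun _ => Or.inr trivial, fun _ => trivial⟩) y
  rw [h1, br (μ := μ) (s := s) η Set.univ i x n hw hp y, if_pos (Set.mem_univ _)]
  rfl

/-- The side of one row. -/
theorem side_row {w : ℕ → ℤ → ℝ} {p : ℕ → ℝ} {a : ℕ} {A : ℕ → ℤ → Prop} {m : ℤ → ℝ} (hw : ∀ k y, 0 ≤ w k y) (hp : ∀ k, 0 ≤ p k)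
    (hm : ∀ y, 0 ≤ m y) (r i : ℕ) (N N' : ℤ → Prop) (v : ℤ) (hN : ∀ y ∈ Icc (v - (i : ℤ)) v, N' y → N y) {B e₃ Z : ℝ} {F : ℤ → ℝ}
    (hB : 0 ≤ B) (he : 0 ≤ e₃) (side : ∀ y, ¬ N' y → ker w p (a + r) i y v * B ≤ e₃ * F y)
    (hF0 : ∀ y, 0 ≤ F y) (hZ : ∀ G : Finset ℤ, ∑ y ∈ G, ms w p a All m r y * F y ≤ Z) :
    ms w p a A m (r + i) v * B ≤ ms w p a (fun j z => A j z ∧ (j = r → N z)) m (r + i) v * B + e₃ * Z := by
  have h1 := peel (w := w) (p := p) (a := a) (A := A) (m := m) hw hp hm r i N v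
  have h2 : (∑ y ∈ Icc (v - (i : ℤ)) v, if N y then 0 else ms w p a A m r y * ker w p (a + r) i y v) * B ≤ e₃ * Z := by
    rw [sum_mul]
    refine le_trans (sum_le_sum fun y hy => ?_) (?_ : ∑ y ∈ Icc (v - (i : ℤ)) v, e₃ * (ms w p a All m r y * F y) ≤ e₃ * Z)
    · have X0 := ms_nonneg (w := w) (p := p) (a := a) (A := All) (m := m) hw hp hm r y
      have h0 : 0 ≤ e₃ * (ms w p a All m r y * F y) := mul_nonneg he (mul_nonneg X0 (hF0 y))
      by_cases h : N y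
      · rw [if_pos h, zero_mul]
        exact h0
      · rw [if_neg h]
        have h3 := side y fun h4 => h (hN y hy h4)
        have h5 := ms_le_all (w := w) (p := p) (a := a) (A := A) (m := m) hw hp hm r y
        have k0 : 0 ≤ ker w p (a + r) i y v := by
          rw [← ms_ker]
          exact ms_nonneg hw hp (dl_nonneg y) _ _
        calc ms w p a A m r y * ker w p (a + r) i y v * B = ms w p a A m r y * (ker w p (a + r) i y v * B) := by ring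
          _ ≤ ms w p a All m r y * (ker w p (a + r) i y v * B) := mul_le_mul_of_nonneg_right h5 (mul_nonneg k0 hB)
          _ ≤ ms w p a All m r y * (e₃ * F y) := mul_le_mul_of_nonneg_left h3 X0
          _ = _ := by ring
    · rw [← mul_sum]
      exact mul_le_mul_of_nonneg_left (hZ _) he
  have h3 := mul_le_mul_of_nonneg_right h1 hB
  rw [add_mul] at h3
  linarith

/-- **THE HYPOTHESIS OF `gate`, thin strips.** -/
theorem havV (η : Env) {p : ℕ → ℝ} (hp0 : ∀ k, 0 ≤ p k) {h : ℝ} {a j₁ l₁ j₃ l₃ n : ℕ} (hj1 : 1 ≤ j₁) (hl1 : 1 ≤ l₁)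
    (hl3 : 1 ≤ l₃) (h13 : j₁ + l₁ < j₃) (h34 : j₃ + l₃ < n) (hp : ∀ k, a ≤ k → k < a + n → p k = Real.exp (s + h))
    {m : ℤ → ℝ} (hm : ∀ y, 0 ≤ m y) {Co : ℕ → ℤ → Prop} {I : Finset ℤ} {Sw : Set Pt} {N0 N2 N4 : ℤ → Prop} {Vs : ℕ → ℤ → Prop}
    (hN2 : ∀ y, N2 y → Vs (j₁ + l₁) y) (hN4 : ∀ y, N4 y → Vs (j₃ + l₃) y)
    (S1 : ∀ j, j₁ < j → j ≤ j₁ + l₁ → ∀ x y, Vs j x → (((a + j : ℕ) : ℤ), x) ∉ Sw → Co j y → x < y)
    (S2 : ∀ j, j₃ < j → j ≤ j₃ + l₃ → ∀ x y, Vs j x → (((a + j : ℕ) : ℤ), x) ∉ Sw → Co j y → y < x)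
    {U : ℝ} (hU : 1 ≤ U)
    (up0 : ∀ x, N0 x → ∀ r, r < n → cS μ s Set.univ η ((a : ℤ), x) r ≤ U)
    (up2 : ∀ x, N2 x → cS μ s Set.univ η (((a + (j₁ + l₁) : ℕ) : ℤ), x) (n - (j₁ + l₁) - 1) ≤ U)
    (up4 : ∀ x, N4 x → cS μ s Set.univ η (((a + (j₃ + l₃) : ℕ) : ℤ), x) (n - (j₃ + l₃) - 1) ≤ U)
    (wu1 : ∀ x, Vs j₁ x → wt η (a + j₁) x ≤ U) (wu2 : ∀ x, N2 x → wt η (a + (j₁ + l₁)) x ≤ U)
    (wu3 : ∀ x, Vs j₃ x → wt η (a + j₃) x ≤ U) (wu4 : ∀ x, N4 x → wt η (a + (j₃ + l₃)) x ≤ U) {v : ℤ} (wuv : wt η (a + n) v ≤ U)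
    {π π' : Pa n} (hπ : π ∈ Ps Co I n) (hπ' : π' ∈ Ps Co I n) {ε : ℝ} (hε : 0 ≤ ε)
    (D1 : ∀ x, Vs j₁ x → cS μ s (Sw \ Ex66 a π π') η (((a + j₁ : ℕ) : ℤ), x) (l₁ - 1) ≤ ε)
    (D3 : ∀ x, Vs j₃ x → cS μ s (Sw \ Ex66 a π π') η (((a + j₃ : ℕ) : ℤ), x) (l₃ - 1) ≤ ε) {εJ : ℝ} (hεJ : 0 ≤ εJ)
    (J1 : ∀ j, j₁ ≤ j → j < j₁ + l₁ → ∀ x, ¬ Vs j x → (Vs (j + 1) x ∨ Vs (j + 1) (x + 1)) → ∀ G : Finset ℤ,
      (∀ z ∈ G, N2 z ∨ N2 (z + 1)) → wt η (a + j) x * ∑ z ∈ G, W μ s η (((a + j : ℕ) : ℤ), x) (j₁ + l₁ - 1 - j) (z - x) ≤ εJ)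
    (J3 : ∀ j, j₃ ≤ j → j < j₃ + l₃ → ∀ x, ¬ Vs j x → (Vs (j + 1) x ∨ Vs (j + 1) (x + 1)) → ∀ G : Finset ℤ,
      (∀ z ∈ G, N4 z ∨ N4 (z + 1)) → wt η (a + j) x * ∑ z ∈ G, W μ s η (((a + j : ℕ) : ℤ), x) (j₃ + l₃ - 1 - j) (z - x) ≤ εJ)
    {c : ℝ} (hc : 0 < c) (lo : ∀ x, N0 x → c ≤ W μ s η ((a : ℤ), x) n (v - x))
    {B e₃ Z : ℝ} (hB : 0 ≤ B) (he : 0 ≤ e₃) {F : ℕ → ℤ → ℝ} (hF : ∀ r y, 0 ≤ F r y)
    (side0 : ∀ y, ¬ N0 y → ker (wt η) p a n y v * B ≤ e₃ * F 0 y)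
    (side2 : ∀ y, ¬ N2 y → ker (wt η) p (a + (j₁ + l₁)) (n - (j₁ + l₁)) y v * B ≤ e₃ * F (j₁ + l₁) y)
    (side4 : ∀ y, ¬ N4 y → ker (wt η) p (a + (j₃ + l₃)) (n - (j₃ + l₃)) y v * B ≤ e₃ * F (j₃ + l₃) y)
    (hZ : ∀ r, (r = 0 ∨ r = j₁ + l₁ ∨ r = j₃ + l₃) → ∀ G : Finset ℤ, ∑ y ∈ G, ms (wt η) p a All m r y * F r y ≤ Z) :
    ms (wt η) p a (A2 π π') m n v * B ≤
      C66 μ s * U ^ 6 * (ε + (l₁ + l₃) * εJ) / c * ms (wt η) p a All m n v * B + 3 * (e₃ * Z) := by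
  have wt0 : ∀ k y, 0 ≤ wt η k y := fun k y => (wt_pos η k y).le
  set L : ℝ := Real.exp (-lam μ s) with hL
  set es : ℝ := Real.exp s with hes
  have L0 : 0 < L := Real.exp_pos _
  have es0 : 0 < es := Real.exp_pos _
  have U0 : 0 < U := lt_of_lt_of_le one_pos hU
  -- the three rows
  set A : ℕ → ℤ → Prop := fun j z => ((A2 π π' j z ∧ (j = 0 → (N0 z ∧ z ∈ Icc (v - (n : ℤ)) v))) ∧ (j = j₁ + l₁ → N2 z)) ∧
    (j = j₃ + l₃ → N4 z) with hA
  have st1 : ms (wt η) p a (A2 π π') m n v * B ≤ ms (wt η) p a A m n v * B + 3 * (e₃ * Z) := by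
    have q0 := side_row (w := wt η) (p := p) (a := a) (A := A2 π π') (m := m) wt0 hp0 hm 0 n
      (fun z => N0 z ∧ z ∈ Icc (v - (n : ℤ)) v) N0 v (fun y hy h1 => ⟨h1, hy⟩) (F := F 0) hB he
      (fun y hy => by rw [add_zero]; exact side0 y hy) (hF 0) (hZ 0 (Or.inl rfl))
    rw [zero_add] at q0
    have q2 := side_row (w := wt η) (p := p) (a := a)
      (A := fun j z => A2 π π' j z ∧ (j = 0 → (N0 z ∧ z ∈ Icc (v - (n : ℤ)) v))) (m := m) wt0 hp0 hm (j₁ + l₁) (n - (j₁ + l₁))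
      N2 N2 v (fun _ _ h1 => h1) (F := F (j₁ + l₁)) hB he side2 (hF _) (hZ _ (Or.inr (Or.inl rfl)))
    rw [show j₁ + l₁ + (n - (j₁ + l₁)) = n by omega] at q2
    have q4 := side_row (w := wt η) (p := p) (a := a)
      (A := fun j z => (A2 π π' j z ∧ (j = 0 → (N0 z ∧ z ∈ Icc (v - (n : ℤ)) v))) ∧ (j = j₁ + l₁ → N2 z)) (m := m) wt0 hp0 hm
      (j₃ + l₃) (n - (j₃ + l₃)) N4 N4 v (fun _ _ h1 => h1) (F := F (j₃ + l₃)) hB he side4 (hF _) (hZ _ (Or.inr (Or.inr rfl)))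
    rw [show j₃ + l₃ + (n - (j₃ + l₃)) = n by omega] at q4
    linarith
  -- gauge free weights
  set w₁ : ℕ → ℤ → ℝ := fun k y => L * wt η k y with hw₁
  set p' : ℕ → ℝ := fun k => Real.exp (-h) * p k with hp'
  set m₁ : ℤ → ℝ := fun x => Real.exp (-(h * x)) * m x with hm₁
  set w₂ : ℕ → ℤ → ℝ := Function.update w₁ a fun _ => 1 with hw₂
  set m₂ : ℤ → ℝ := fun x => w₁ a x * m₁ x with hm₂
  have w1p : ∀ k y, 0 < w₁ k y := fun k y => mul_pos L0 (wt_pos _ _ _)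
  have w20 : ∀ k y, 0 ≤ w₂ k y := by
    intro k y
    rw [hw₂]
    by_cases hk : k = a
    · subst hk
      rw [Function.update_self]
      exact zero_le_one
    · rw [Function.update_of_ne hk]
      exact (w1p k y).le
  have p'0 : ∀ k, 0 ≤ p' k := fun k => mul_nonneg (Real.exp_pos _).le (hp0 k)
  have m20 : ∀ y, 0 ≤ m₂ y := fun y => mul_nonneg (w1p _ _).le (mul_nonneg (Real.exp_pos _).le (hm y))
  have w2in : ∀ k, a < k → ∀ y, w₂ k y = L * Real.exp (η ((k : ℤ), y)) := by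
    intro k hk y
    rw [hw₂, Function.update_of_ne (by omega), hw₁]
    show L * wt η k y = _
    unfold wt
    rw [if_neg (by omega)]
  have w2a : ∀ x, w₂ a x = 1 := fun x => by rw [hw₂, Function.update_self]
  have w2wt : ∀ k, a < k → ∀ y, w₂ k y = L * wt η k y := fun k hk y => by rw [hw₂, Function.update_of_ne (by omega)]
  have p'e : ∀ k, a ≤ k → k < a + n → p' k = es := by
    intro k h1 h2
    rw [hp']
    show Real.exp (-h) * p k = es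
    rw [hp k h1 h2, ← Real.exp_add]
    congr 1
    ring
  have tr : ∀ (A : ℕ → ℤ → Prop), Real.exp (-(n * lam μ s + h * v)) * ms (wt η) p a A m n v = ms w₂ p' a A m₂ n v := by
    intro A
    rw [← tilt (lam μ s) h n v]
    obtain ⟨n', rfl⟩ : ∃ n', n = n' + 1 := ⟨n - 1, by omega⟩
    exact first_row n' v
  have one : ∀ (j l : ℕ) (x : ℤ) (A : ℕ → ℤ → Prop) (S : Set Pt) (G : Finset ℤ), 1 ≤ l → j + l ≤ n →
      (∀ r z, 1 ≤ r → r ≤ l → A r z → (((a + j + r : ℕ) : ℤ), z) ∈ S) →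
      ∑ y ∈ G, ms w₂ p' (a + j) A (dl x) l y ≤ (1 + es) * (w₂ (a + j) x * cS μ s S η (((a + j : ℕ) : ℤ), x) (l - 1)) := by
    intro j l x A S G hl hjl hA
    obtain ⟨l', rfl⟩ : ∃ l', l = l' + 1 := ⟨l - 1, by omega⟩
    have e : l' + 1 - 1 = l' := by omega
    rw [e]
    exact br_sum w20 p'0 η S (a + j) l' x (fun k h1 h2 y => w2in k (by omega) y) (fun k h1 h2 => p'e k (by omega) (by omega)) hA G
  set UU : ℝ := (1 + es) * ((1 + L) * U ^ 2) with hUU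
  have UU0 : 0 ≤ UU := by positivity
  have hUs : U ≤ U ^ 2 := by nlinarith
  have cS0 : ∀ (S : Set Pt) (q : Pt) (r : ℕ), 0 ≤ cS μ s S η q r := fun S q r => sum_nonneg fun y _ => WR_nonneg _ _ _ _ _
  have U0x : ∀ x, N0 x → ∀ l, 1 ≤ l → l ≤ n → ∀ (A : ℕ → ℤ → Prop) (G : Finset ℤ), ∑ y ∈ G, ms w₂ p' a A (dl x) l y ≤ UU := by
    intro x hx l hl hln A G
    have h1 := one 0 l x A Set.univ G hl (by omega) (fun _ _ _ _ _ => trivial)
    rw [add_zero, w2a, one_mul] at h1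
    have h2 := up0 x hx (l - 1) (by omega)
    refine h1.trans (mul_le_mul_of_nonneg_left (h2.trans (hUs.trans ?_)) (by positivity))
    have : 0 ≤ L * U ^ 2 := by positivity
    linarith
  have Ujx : ∀ (j : ℕ) (x : ℤ), 1 ≤ j → j < n → wt η (a + j) x ≤ U →
      cS μ s Set.univ η (((a + j : ℕ) : ℤ), x) (n - j - 1) ≤ U → ∀ (A : ℕ → ℤ → Prop) (y : ℤ),
      ms w₂ p' (a + j) A (dl x) (n - j) y ≤ UU := by
    intro j x hj hjn h3 h2 A y
    have h1 := one j (n - j) x A Set.univ {y} (by omega) (by omega) (fun _ _ _ _ _ => trivial)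
    rw [sum_singleton] at h1
    rw [w2wt (a + j) (by omega)] at h1
    refine h1.trans (mul_le_mul_of_nonneg_left ?_ (by positivity))
    calc L * wt η (a + j) x * cS μ s Set.univ η (((a + j : ℕ) : ℤ), x) (n - j - 1) ≤ L * U * U :=
          mul_le_mul (mul_le_mul_of_nonneg_left h3 L0.le) h2 (cS0 _ _ _) (by positivity)
      _ ≤ (1 + L) * U ^ 2 := by nlinarith [sq_nonneg U]
  have epj : ∀ (j l : ℕ) (x : ℤ) (G : Finset ℤ), 1 ≤ j → 1 ≤ l → j + l < n → wt η (a + j) x ≤ U →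
      cS μ s (Sw \ Ex66 a π π') η (((a + j : ℕ) : ℤ), x) (l - 1) ≤ ε →
      ∀ (A : ℕ → ℤ → Prop), (∀ r z, 1 ≤ r → r ≤ l → A r z → (((a + j + r : ℕ) : ℤ), z) ∈ Sw \ Ex66 a π π') →
      ∑ y ∈ G, ms w₂ p' (a + j) A (dl x) l y ≤ (1 + es) * (L * U * ε) := by
    intro j l x G hj hl hjl h3 hD A hA
    have h1 := one j l x A (Sw \ Ex66 a π π') G hl (by omega) hA
    rw [w2wt (a + j) (by omega)] at h1
    refine h1.trans (mul_le_mul_of_nonneg_left ?_ (by positivity))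
    exact mul_le_mul (mul_le_mul_of_nonneg_left h3 L0.le) hD (cS0 _ _ _) (by positivity)
  have jmp : ∀ (j l : ℕ) (x : ℤ) (N : ℤ → Prop), 1 ≤ j → j + (l + 1) < n →
      (∀ G : Finset ℤ, (∀ z ∈ G, N z ∨ N (z + 1)) → wt η (a + j) x * ∑ z ∈ G, W μ s η (((a + j : ℕ) : ℤ), x) l (z - x) ≤ εJ) →
      ∀ G : Finset ℤ, (∀ z ∈ G, N z) → ∑ z ∈ G, ker w₂ p' (a + j) (l + 1) x z ≤ (1 + es) * (L * εJ) := by
    intro j l x N hj hjl hJ G hG
    have e1 : ∀ z ∈ G, ker w₂ p' (a + j) (l + 1) x z = L * (wt η (a + j) x * W μ s η (((a + j : ℕ) : ℤ), x) l (z - x)) +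
        es * (L * (wt η (a + j) x * W μ s η (((a + j : ℕ) : ℤ), x) l (z - 1 - x))) := by
      intro z _
      rw [br_ker (μ := μ) (s := s) η (a + j) l x z (fun k h1 h2 y => w2in k (by omega) y) (fun k h1 h2 => p'e k (by omega) (by omega)),
        w2wt (a + j) (by omega), show z - x - 1 = z - 1 - x by ring]
      ring
    rw [sum_congr rfl e1, sum_add_distrib, ← mul_sum, ← mul_sum, ← mul_sum, ← mul_sum, ← mul_sum]
    have g1 := hJ G fun z hz => Or.inl (hG z hz)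
    have g2 := hJ (G.image fun z => z - 1) fun z hz => by
      obtain ⟨z', hz', rfl⟩ := mem_image.1 hz
      exact Or.inr (by rw [sub_add_cancel]; exact hG z' hz')
    rw [sum_image fun y _ z _ h => by simpa using h] at g2
    have k1 := mul_le_mul_of_nonneg_left g1 L0.le
    have k2 := mul_le_mul_of_nonneg_left (mul_le_mul_of_nonneg_left g2 L0.le) es0.le
    calc _ ≤ L * εJ + es * (L * εJ) := add_le_add k1 k2
      _ = _ := by ring
  -- the windows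
  set V := VV n v j₁ (j₁ + l₁) j₃ (j₃ + l₃) N0 N2 N4 Vs with hV
  set FF := FV n v j₁ (j₁ + l₁) j₃ (j₃ + l₃) N0 N2 N4 Vs with hFF
  have V0 : ∀ x, V 0 x → N0 x := fun x hx => hx.2.1 rfl
  have V2 : ∀ x, V (j₁ + l₁) x → N2 x := fun x hx => hx.2.2.1 rfl
  have V4 : ∀ x, V (j₃ + l₃) x → N4 x := fun x hx => hx.2.2.2.1 rfl
  have Vs1 : ∀ j, j₁ ≤ j → j ≤ j₁ + l₁ → ∀ x, V j x → Vs j x := by
    intro j i1 i2 x hx
    rcases Nat.lt_or_ge j (j₁ + l₁) with h1 | h1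
    · exact hx.2.2.2.2.1 i1 h1
    · have h2 : j = j₁ + l₁ := by omega
      rw [h2] at hx ⊢
      exact hN2 x (V2 x hx)
  have Vs3 : ∀ j, j₃ ≤ j → j ≤ j₃ + l₃ → ∀ x, V j x → Vs j x := by
    intro j i1 i2 x hx
    rcases Nat.lt_or_ge j (j₃ + l₃) with h1 | h1
    · exact hx.2.2.2.2.2 i1 h1
    · have h2 : j = j₃ + l₃ := by omega
      rw [h2] at hx ⊢
      exact hN4 x (V4 x hx)
  have A0F : ∀ y, A 0 y → y ∈ FF 0 := by
    intro y hy
    have h1 := hy.1.1.2 rfl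
    refine (mem_FV 0 y).1 ⟨by have := mem_Icc.1 h1.2; simpa using this, fun _ => h1.1, fun h2 => by omega, fun h2 => by omega,
      fun h2 _ => by omega, fun h2 _ => by omega⟩
  have F0N : ∀ x ∈ FF 0, N0 x := fun x hx => V0 x ((mem_FV 0 x).2 hx)
  have jm := jumps (w := w₂) (p := p') (a := a) (A := A) (m := m₂) w20 p'0 m20 (n := n) (j₁ := j₁) (l₁ := l₁) (j₃ := j₃) (l₃ := l₃)
    (v := v) (N0 := N0) (N2 := N2) (N4 := N4) (Vs := Vs) hj1 h13 h34 hN2 hN4 (fun y hy => (hy.1.1.2 rfl).1) (fun y hy => hy.1.2 rfl)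
    (fun y hy => hy.2 rfl) (U := UU) (εJ := (1 + es) * (L * εJ)) UU0 (by positivity) (F0 := FF 0) A0F
    (fun x hx j i1 i2 G => by
      refine le_trans (le_of_eq ?_) (U0x x (F0N x hx) j i1 i2.le All G)
      exact sum_congr rfl fun y _ => (ms_ker a j x y).symm)
    (fun z hz => by
      rw [← ms_ker]
      exact Ujx (j₁ + l₁) z (by omega) (by omega) (wu2 z hz) (up2 z hz) All v)
    (fun z hz => by
      rw [← ms_ker]
      exact Ujx (j₃ + l₃) z (by omega) (by omega) (wu4 z hz) (up4 z hz) All v)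
    (fun j i1 i2 x h1 h2 G hG => by
      have h3 := jmp j (j₁ + l₁ - 1 - j) x N2 (by omega) (by omega) (J1 j i1 i2 x h1 h2) G hG
      rwa [show j₁ + l₁ - 1 - j + 1 = j₁ + l₁ - j by omega] at h3)
    (fun j i1 i2 x h1 h2 G hG => by
      have h3 := jmp j (j₃ + l₃ - 1 - j) x N4 (by omega) (by omega) (J3 j i1 i2 x h1 h2) G hG
      rwa [show j₃ + l₃ - 1 - j + 1 = j₃ + l₃ - j by omega] at h3)
  have mV : ∀ j y, V j y ↔ y ∈ FF j := mem_FV
  have wl := walls (w := w₂) (p := p') (a := a) (m := m₂) (V := V) (Co := Co)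
    (TL := fun j x => j₁ < j ∧ V j x ∧ (((a + j : ℕ) : ℤ), x) ∉ Sw) (TR := fun j x => j₃ < j ∧ V j x ∧ (((a + j : ℕ) : ℤ), x) ∉ Sw)
    (F := FF) (I := I) (j₁ := j₁) (l₁ := l₁) (j₃ := j₃) (l₃ := l₃) (n := n) (U := UU) (ε := (1 + es) * (L * U * ε)) (π := π) (π' := π')
    (v := v) w20 p'0 m20 mV (by omega) h34.le
    (fun j i1 i2 x y hx hy => S1 j hx.1 i2 x y (Vs1 j i1 i2 x hx.2.1) hx.2.2 hy)
    (fun j i1 i2 x y hx hy => S2 j hx.1 i2 x y (Vs3 j i1 i2 x hx.2.1) hx.2.2 hy) UU0 (by positivity) hπ hπ'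
    (fun x hx => U0x x (F0N x hx) j₁ hj1 (by omega) V (FF j₁))
    (fun x hx y => by
      have h1 := V2 x ((mV _ x).2 hx)
      exact Ujx (j₁ + l₁) x (by omega) (by omega) (wu2 x h1) (up2 x h1) _ y)
    (fun x hx => U0x x (F0N x hx) j₃ (by omega) (by omega) V (FF j₃))
    (fun x hx y => by
      have h1 := V4 x ((mV _ x).2 hx)
      exact Ujx (j₃ + l₃) x (by omega) (by omega) (wu4 x h1) (up4 x h1) _ y)
    (fun x hx => by
      have h1 := Vs1 j₁ le_rfl (by omega) x ((mV _ x).2 hx)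
      refine epj j₁ l₁ x _ hj1 hl1 (by omega) (wu1 x h1) (D1 x h1) _ fun r z h1 h2 h3 => ?_
      rw [add_assoc]
      have h4 : (((a + (j₁ + r) : ℕ) : ℤ), z) ∈ Sw := by
        by_contra h5
        exact h3.2.1 ⟨by omega, h3.1, h5⟩
      exact ⟨h4, fun h5 => by
        rcases mem_Ex66.1 h5 with h6 | h6
        · exact h3.2.2.1 h6
        · exact h3.2.2.2 h6⟩)
    (fun x hx => by
      have h1 := Vs3 j₃ le_rfl (by omega) x ((mV _ x).2 hx)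
      refine epj j₃ l₃ x _ (by omega) hl3 (by omega) (wu3 x h1) (D3 x h1) _ fun r z h1 h2 h3 => ?_
      rw [add_assoc]
      have h4 : (((a + (j₃ + r) : ℕ) : ℤ), z) ∈ Sw := by
        by_contra h5
        exact h3.2.1 ⟨by omega, h3.1, h5⟩
      exact ⟨h4, fun h5 => by
        rcases mem_Ex66.1 h5 with h6 | h6
        · exact h3.2.2.1 h6
        · exact h3.2.2.2 h6⟩)
  -- from below
  have low : c / (L * U) * ∑ x ∈ FF 0, m₂ x ≤ ms w₂ p' a All m₂ n v := by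
    have b := ms_mono (w := w₂) (p := p') (a := a) (A := All) (A' := All) (m := fun x => if x ∈ FF 0 then m₂ x else 0) (m' := m₂)
      w20 p'0 m20 (fun _ _ h => h) (fun y => by
        show (if y ∈ FF 0 then m₂ y else 0) ≤ m₂ y
        split_ifs
        · exact le_rfl
        · exact m20 y) n v
    rw [ms_expand (F := FF 0) (fun y hy => if_neg hy)] at b
    refine le_trans ?_ b
    rw [mul_sum]
    refine sum_le_sum fun x hx => ?_
    simp only [if_pos hx]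
    rw [ms_ker, mul_comm]
    refine mul_le_mul_of_nonneg_left ?_ (m20 x)
    obtain ⟨n', rfl⟩ : ∃ n', n = n' + 1 := ⟨n - 1, by omega⟩
    have h1 := br_low (μ := μ) (s := s) (w := w₂) (p := p') η a n' x v (fun k h1 h2 y => w2in k h1 y)
      (fun k h1 h2 => p'e k h1 (by omega))
    rw [w2a, one_mul] at h1
    have h2 := lo x (F0N x hx)
    have h4 : wt η (a + (n' + 1)) v = Real.exp (η (((a + (n' + 1) : ℕ) : ℤ), v)) := by
      unfold wt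
      rw [if_neg (by omega)]
    rw [h4] at wuv
    have h5 : 0 ≤ ker w₂ p' a (n' + 1) x v := by
      rw [← ms_ker]
      exact ms_nonneg w20 p'0 (dl_nonneg x) _ _
    rw [div_le_iff₀ (by positivity)]
    rw [← h1] at h2
    refine h2.trans ?_
    calc L * Real.exp (η (((a + (n' + 1) : ℕ) : ℤ), v)) * ker w₂ p' a (n' + 1) x v ≤ L * U * ker w₂ p' a (n' + 1) x v :=
          mul_le_mul_of_nonneg_right (mul_le_mul_of_nonneg_left wuv L0.le) h5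
      _ = _ := by ring
  -- together
  set E : ℝ := Real.exp (-(n * lam μ s + h * v)) with hE
  have E0 : 0 < E := Real.exp_pos _
  set X := ms (wt η) p a All m n v with hX
  set S := ∑ x ∈ FF 0, m₂ x with hS
  have S0 : 0 ≤ S := sum_nonneg fun x _ => m20 x
  have sub : ms w₂ p' a (fun j y => A j y ∧ V j y) m₂ n v ≤ ms w₂ p' a (fun j x => A2 π π' j x ∧ V j x) m₂ n v :=
    ms_mono w20 p'0 m20 (fun j y hy => ⟨hy.1.1.1.1, hy.2⟩) (fun _ => le_rfl) n v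
  rw [← tr] at low
  have hS1 : S ≤ L * U / c * (E * X) := by
    rw [div_mul_eq_mul_div, div_le_iff₀ (by positivity)] at low
    rw [div_mul_eq_mul_div, le_div_iff₀ hc]
    linarith
  have tot : E * ms (wt η) p a A m n v ≤ (2 * (UU * ((1 + es) * (L * U * ε)) * UU) +
      (l₁ + l₃) * (UU * ((1 + es) * (L * εJ)) * UU)) * S := by
    rw [tr]
    calc _ ≤ _ := jm
      _ ≤ 2 * (UU * ((1 + es) * (L * U * ε)) * UU * S) + (l₁ + l₃) * (UU * ((1 + es) * (L * εJ)) * UU * S) :=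
          add_le_add (sub.trans wl) le_rfl
      _ = _ := by ring
  have P0 : 0 ≤ 2 * (UU * ((1 + es) * (L * U * ε)) * UU) + (l₁ + l₃) * (UU * ((1 + es) * (L * εJ)) * UU) := by positivity
  have tot2 := tot.trans (mul_le_mul_of_nonneg_left hS1 P0)
  have X0 : 0 ≤ X := ms_nonneg wt0 hp0 hm n v
  have coef : (2 * (UU * ((1 + es) * (L * U * ε)) * UU) + (l₁ + l₃) * (UU * ((1 + es) * (L * εJ)) * UU)) * (L * U / c) ≤
      C66 μ s * U ^ 6 * (ε + (l₁ + l₃) * εJ) / c := by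
    rw [mul_div_assoc', div_le_div_iff_of_pos_right hc]
    unfold C66
    rw [← hL, ← hes, hUU]
    have e1 : (2 * ((1 + es) * ((1 + L) * U ^ 2) * ((1 + es) * (L * U * ε)) * ((1 + es) * ((1 + L) * U ^ 2))) +
        ((l₁ : ℝ) + l₃) * ((1 + es) * ((1 + L) * U ^ 2) * ((1 + es) * (L * εJ)) * ((1 + es) * ((1 + L) * U ^ 2)))) * (L * U) =
        (1 + es) ^ 3 * (1 + L) ^ 2 * L ^ 2 * U ^ 5 * (2 * (U * ε) + (l₁ + l₃) * εJ) := by ring
    have e2 : 2 * (1 + es) ^ 3 * (1 + L) ^ 2 * L ^ 2 * U ^ 6 * (ε + (l₁ + l₃) * εJ) =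
        (1 + es) ^ 3 * (1 + L) ^ 2 * L ^ 2 * U ^ 5 * (2 * (U * ε) + 2 * U * ((l₁ + l₃) * εJ)) := by ring
    rw [e1, e2]
    refine mul_le_mul_of_nonneg_left ?_ (by positivity)
    have h1 : 0 ≤ ((l₁ : ℝ) + l₃) * εJ := by positivity
    nlinarith
  have fin1 : E * ms (wt η) p a A m n v ≤ E * (C66 μ s * U ^ 6 * (ε + (l₁ + l₃) * εJ) / c * X) := by
    calc _ ≤ _ := tot2
      _ = ((2 * (UU * ((1 + es) * (L * U * ε)) * UU) + (l₁ + l₃) * (UU * ((1 + es) * (L * εJ)) * UU)) * (L * U / c)) * (E * X) := by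
          ring
      _ ≤ C66 μ s * U ^ 6 * (ε + (l₁ + l₃) * εJ) / c * (E * X) := mul_le_mul_of_nonneg_right coef (by positivity)
      _ = _ := by ring
  have fin2 := le_of_mul_le_mul_left fin1 E0
  have fin3 := mul_le_mul_of_nonneg_right fin2 hB
  linarith

end

end Pool.Agent.W_7d29a1_C1.Gt66
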