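import Pool.Agent.W_7d29a1_C1.GateW66

/-!
MP_7d29a1_pr, attractor route, [C1] SEP: THE GATE WITH THIN STRIPS AND WITHOUT THE RIM (helper18 85009), over K91P. (helper87)

One source `y` at the row `a` (`dl y`), end `v` at the row `a + n`. Strips = rows `i₁ … r₂`, `r₂ = i₁ + l₁`, and `i₃ … r₄`,
`r₄ = i₃ + l₃` (relative rows). `V j` = window in the strips, `Vin r` = smaller window at the three rows `0, r₂, r₄`.
* (S3) outside of `Vin r` at one of the three rows: `ker * B n v ≤ e₃ * B r z` (`B` = future masses);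
* (J) through the sites outside of `V j` next to `V (j + 1)` at a row of a strip into `Vin` at its last row: `≤ eJ` (a jump);
* (U), (W), (L): levels, walls, lower bound as in `GateW66`.
`gv87`: `masses which avoid π, π' ≤ ε * ker + 2 e₃ * B 0 y / B n v`, `ε = (2 U² ew + (l₁ + l₃) U eJ) / c`.
-/

set_option autoImplicit false

namespace Pool.Agent.W_7d29a1_C1.Gt66

open Finset
open Pool.Agent.W_7d29a1_C1.K91P (fw bw fw_succ fw_nonneg bw_pos)
open Pool.Agent.W_7d29a1_C1.U16 (ker ker_zero ker_succ ker_nonneg ker_eq_zero fw_ker bw_ker ker_add)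

noncomputable section

attribute [local instance 10] Classical.propDecidable

variable {w : ℕ → ℤ → ℝ} {p : ℕ → ℝ} {a : ℕ}

theorem ms_le_ker (hw : ∀ k y, 0 ≤ w k y) (hp : ∀ k, 0 ≤ p k) (A : ℕ → ℤ → Prop) (x : ℤ) (n : ℕ) (v : ℤ) :
    ms w p a A (dl x) n v ≤ ker w p a n x v := by
  rw [← ms_ker]
  exact ms_le_all hw hp (dl_nonneg x) n v

/-- **The jump.** From `x` at the row `a + j` with the row `r` inside `G`. -/
theorem ks_jump (hw : ∀ k y, 0 ≤ w k y) (hp : ∀ k, 0 ≤ p k) {V : ℕ → ℤ → Prop} {G : Finset ℤ} {n j r : ℕ} (hj : j < r) (hr : r ≤ n)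
    (hV : ∀ z, V r z → z ∈ G) {x v : ℤ} {U : ℝ} (hU : ∀ z ∈ G, ker w p (a + r) (n - r) z v ≤ U) :
    ks w p a V n j x v ≤ (∑ z ∈ G, ker w p (a + j) (r - j) x z) * U := by
  have e0 : n - j = (r - j) + (n - r) := by omega
  have e1 : ks w p a V n j x v = ms w p (a + j) (fun i y => i = 0 ∨ V (j + i) y) (dl x) (n - j) v := rfl
  rw [e1, e0, ms_cut (r - j) (n - r) v, ms_start (F := G) (fun z h => hV z (by
    rcases h with h | h
    · omega
    · have e2 : j + (r - j + 0) = r := by omega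
      rw [e2] at h
      exact h)) (n - r) v]
  have e3 : a + j + (r - j) = a + r := by omega
  rw [e3]
  calc _ ≤ ∑ z ∈ G, ker w p (a + j) (r - j) x z * U := by
        refine sum_le_sum fun z hz => ?_
        refine mul_le_mul (ms_le_ker hw hp _ x _ z) ((ms_le_ker hw hp _ z _ v).trans (hU z hz))
          (ms_nonneg hw hp (dl_nonneg z) _ _) ?_
        exact (ms_nonneg (A := All) hw hp (dl_nonneg x) _ _).trans (le_of_eq (ms_ker _ _ _ _))
    _ = _ := by rw [← sum_mul]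

/-- The modified window for the source `y`: `{y}` and `{v}` at the rows `0` and `n`, the given sets at the rows of the strips, the light
cone elsewhere. -/
def Fm (V Vin : ℕ → Finset ℤ) (i₁ l₁ i₃ l₃ n : ℕ) (y v : ℤ) (j : ℕ) : Finset ℤ :=
  if j = n then {v} else if j = 0 then {y} else if j = i₁ + l₁ ∨ j = i₃ + l₃ then Vin j else if (i₁ ≤ j ∧ j < i₁ + l₁) ∨ (i₃ ≤ j ∧ j < i₃ + l₃) then V j
    else Icc y (y + j)

variable {V Vin : ℕ → Finset ℤ} {i₁ l₁ i₃ l₃ n : ℕ} {y v : ℤ}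

theorem Fm_last : Fm V Vin i₁ l₁ i₃ l₃ n y v n = {v} := by
  unfold Fm
  rw [if_pos rfl]

theorem Fm_zero (hn : 0 ≠ n) : Fm V Vin i₁ l₁ i₃ l₃ n y v 0 = {y} := by
  unfold Fm
  rw [if_neg hn, if_pos rfl]

theorem Fm_in {j : ℕ} (hn : j ≠ n) (h0 : j ≠ 0) (h : j = i₁ + l₁ ∨ j = i₃ + l₃) : Fm V Vin i₁ l₁ i₃ l₃ n y v j = Vin j := by
  unfold Fm
  rw [if_neg hn, if_neg h0, if_pos h]

theorem Fm_strip {j : ℕ} (hn : j ≠ n) (h0 : j ≠ 0) (h1 : ¬ (j = i₁ + l₁ ∨ j = i₃ + l₃))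
    (h : (i₁ ≤ j ∧ j < i₁ + l₁) ∨ (i₃ ≤ j ∧ j < i₃ + l₃)) : Fm V Vin i₁ l₁ i₃ l₃ n y v j = V j := by
  unfold Fm
  rw [if_neg hn, if_neg h0, if_neg h1, if_pos h]

theorem Fm_free {j : ℕ} (hn : j ≠ n) (h0 : j ≠ 0) (h1 : ¬ (j = i₁ + l₁ ∨ j = i₃ + l₃))
    (h : ¬ ((i₁ ≤ j ∧ j < i₁ + l₁) ∨ (i₃ ≤ j ∧ j < i₃ + l₃))) : Fm V Vin i₁ l₁ i₃ l₃ n y v j = Icc y (y + j) := by
  unfold Fm
  rw [if_neg hn, if_neg h0, if_neg h1, if_neg h]

/-- The sites outside of `V j` next to `V (j + 1)`. -/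
def Rim (V : ℕ → Finset ℤ) (j : ℕ) : Finset ℤ := (V (j + 1) ∪ (V (j + 1)).image fun z => z - 1).filter fun x => x ∉ V j

/-- **THE GATE WITH THIN STRIPS**, source inside. -/
theorem gv_in (hw : ∀ k y, 0 ≤ w k y) (hp : ∀ k, 0 ≤ p k) {Co TL TR : ℕ → ℤ → Prop} {I : Finset ℤ}
    (hi1 : 0 < i₁) (h13 : i₁ + l₁ < i₃) (h3n : i₃ + l₃ < n)
    (hsub1 : Vin (i₁ + l₁) ⊆ V (i₁ + l₁)) (hsub3 : Vin (i₃ + l₃) ⊆ V (i₃ + l₃))
    (hTL : ∀ j, i₁ ≤ j → j ≤ i₁ + l₁ → ∀ x y, TL j x → Co j y → x < y)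
    (hTR : ∀ j, i₃ ≤ j → j ≤ i₃ + l₃ → ∀ x y, TR j x → Co j y → y < x) {U ew eJ e₃ : ℝ} (hU0 : 0 ≤ U) (hew : 0 ≤ ew) (heJ : 0 ≤ eJ)
    (he3 : 0 ≤ e₃) {π π' : Pa n} (hπ : π ∈ Ps Co I n) (hπ' : π' ∈ Ps Co I n)
    {B : ℕ → ℤ → ℝ} (hB0 : ∀ r z, 0 ≤ B r z) (hB : ∀ r ≤ n, ∀ y : ℤ, ∑ z ∈ Icc y (y + r), ker w p a r y z * B r z ≤ B 0 y)
    (S1 : ∀ z, z ∉ Vin (i₁ + l₁) → ker w p (a + (i₁ + l₁)) (n - (i₁ + l₁)) z v * B n v ≤ e₃ * B (i₁ + l₁) z)
    (S3 : ∀ z, z ∉ Vin (i₃ + l₃) → ker w p (a + (i₃ + l₃)) (n - (i₃ + l₃)) z v * B n v ≤ e₃ * B (i₃ + l₃) z)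
    (J1 : ∀ j, i₁ ≤ j → j < i₁ + l₁ → ∑ x ∈ Rim V j, ker w p a j y x * ∑ z ∈ Vin (i₁ + l₁), ker w p (a + j) (i₁ + l₁ - j) x z ≤ eJ)
    (J3 : ∀ j, i₃ ≤ j → j < i₃ + l₃ → ∑ x ∈ Rim V j, ker w p a j y x * ∑ z ∈ Vin (i₃ + l₃), ker w p (a + j) (i₃ + l₃ - j) x z ≤ eJ)
    (U1 : ∑ z ∈ V i₁, ker w p a i₁ y z ≤ U) (U3 : ∑ z ∈ V i₃, ker w p a i₃ y z ≤ U)
    (U2 : ∀ x ∈ Vin (i₁ + l₁), ker w p (a + (i₁ + l₁)) (n - (i₁ + l₁)) x v ≤ U)
    (U4 : ∀ x ∈ Vin (i₃ + l₃), ker w p (a + (i₃ + l₃)) (n - (i₃ + l₃)) x v ≤ U)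
    (W1 : ∀ x ∈ V i₁, ∑ z ∈ V (i₁ + l₁), ms w p (a + i₁)
      (fun r z => z ∈ V (i₁ + r) ∧ ¬ TL (i₁ + r) z ∧ A2 π π' (i₁ + r) z) (dl x) l₁ z ≤ ew)
    (W3 : ∀ x ∈ V i₃, ∑ z ∈ V (i₃ + l₃), ms w p (a + i₃)
      (fun r z => z ∈ V (i₃ + r) ∧ ¬ TR (i₃ + r) z ∧ A2 π π' (i₃ + r) z) (dl x) l₃ z ≤ ew) :
    ms w p a (A2 π π') (dl y) n v * B n v ≤ (2 * (U * ew * U) + (l₁ + l₃) * (eJ * U)) * B n v + 2 * (e₃ * B 0 y) := by
  obtain ⟨r₂, hr2⟩ : ∃ r₂, r₂ = i₁ + l₁ := ⟨_, rfl⟩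
  obtain ⟨r₄, hr4⟩ : ∃ r₄, r₄ = i₃ + l₃ := ⟨_, rfl⟩
  obtain ⟨F, hF⟩ : ∃ F, F = Fm V Vin i₁ l₁ i₃ l₃ n y v := ⟨_, rfl⟩
  obtain ⟨W, hWd⟩ : ∃ W : ℕ → ℤ → Prop, W = fun j x => x ∈ F j := ⟨_, rfl⟩
  have hWm : ∀ j x, W j x ↔ x ∈ F j := fun j x => by rw [hWd]
  have F0 : F 0 = {y} := by rw [hF]; exact Fm_zero (by omega)
  have F2 : F r₂ = Vin r₂ := by rw [hF, hr2]; exact Fm_in (by omega) (by omega) (Or.inl rfl)
  have F4 : F r₄ = Vin r₄ := by rw [hF, hr4]; exact Fm_in (by omega) (by omega) (Or.inr rfl)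
  have Fn : F n = {v} := by rw [hF]; exact Fm_last
  have ker0 : ∀ i m x z, 0 ≤ ker w p i m x z := fun i m x z =>
    (ms_nonneg (A := All) hw hp (dl_nonneg x) m z).trans (le_of_eq (ms_ker _ _ _ _))
  -- the sets of the strips
  have FV : ∀ j, (i₁ ≤ j ∧ j ≤ i₁ + l₁) ∨ (i₃ ≤ j ∧ j ≤ i₃ + l₃) → F j ⊆ V j := by
    intro j hj
    by_cases h1 : j = i₁ + l₁
    · rw [h1, ← hr2, F2, hr2]; exact hsub1
    · by_cases h3 : j = i₃ + l₃
      · rw [h3, ← hr4, F4, hr4]; exact hsub3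
      · rw [hF, Fm_strip (by omega) (by omega) (by omega) (by omega)]
  -- inside the modified window
  have k1 : ms w p a (fun j x => A2 π π' j x ∧ W j x) (dl y) n v ≤ 2 * (U * ew * U) := by
    have hend : ∀ (i : ℕ) (x z : ℤ), i < n → ker w p (a + i) (n - i) x v ≤ U →
        ms w p (a + i) (fun r z => W (i + r) z) (dl x) (n - i) z ≤ U := by
      intro i x z hi hx
      by_cases hz : z = v
      · rw [hz]
        exact (ms_le_ker hw hp _ _ _ _).trans hx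
      · rw [ms_off]
        · exact hU0
        · intro h
          rw [show i + (n - i) = n by omega] at h
          have := (hWm _ _).1 h
          rw [Fn, mem_singleton] at this
          exact hz this
    have h := walls (w := w) (p := p) (a := a) hw hp (dl_nonneg y) (V := W) (F := F) hWm (I := I) (j₁ := i₁) (l₁ := l₁) (j₃ := i₃)
      (l₃ := l₃) (n := n) (by omega) (by omega) hTL hTR hU0 hew hπ hπ' (v := v)
      (fun x hx => by
        rw [F0, mem_singleton] at hx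
        rw [hx]
        refine (sum_le_sum fun z _ => ms_le_ker hw hp _ _ _ z).trans (le_trans ?_ U1)
        exact sum_le_sum_of_subset_of_nonneg (FV i₁ (by omega)) fun z _ _ => ker0 _ _ _ _)
      (fun x hx z => by
        rw [← hr2, F2, hr2] at hx
        exact hend _ x z (by omega) (U2 x hx))
      (fun x hx => by
        rw [F0, mem_singleton] at hx
        rw [hx]
        refine (sum_le_sum fun z _ => ms_le_ker hw hp _ _ _ z).trans (le_trans ?_ U3)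
        exact sum_le_sum_of_subset_of_nonneg (FV i₃ (by omega)) fun z _ _ => ker0 _ _ _ _)
      (fun x hx z => by
        rw [← hr4, F4, hr4] at hx
        exact hend _ x z (by omega) (U4 x hx))
      (fun x hx => by
        have hx' : x ∈ V i₁ := FV i₁ (by omega) hx
        refine le_trans ?_ (W1 x hx')
        have hs : F (i₁ + l₁) ⊆ V (i₁ + l₁) := FV _ (by omega)
        refine le_trans (sum_le_sum fun z _ => ?_) (sum_le_sum_of_subset_of_nonneg hs fun z _ _ => ms_nonneg hw hp (dl_nonneg x) _ _)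
        have e : ∀ z, ms w p (a + i₁) (fun r z => W (i₁ + r) z ∧ ¬ TL (i₁ + r) z ∧ A2 π π' (i₁ + r) z) (dl x) l₁ z =
            ms w p (a + i₁) (fun r z => r ≤ l₁ ∧ W (i₁ + r) z ∧ ¬ TL (i₁ + r) z ∧ A2 π π' (i₁ + r) z) (dl x) l₁ z :=
          ms_congr (fun r hr z => ⟨fun h => ⟨hr, h⟩, fun h => h.2⟩)
        rw [e]
        exact ms_mono hw hp (dl_nonneg x) (fun r z h => ⟨FV _ (by omega) ((hWm _ _).1 h.2.1), h.2.2⟩) (fun _ => le_rfl) _ _)
      (fun x hx => by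
        have hx' : x ∈ V i₃ := FV i₃ (by omega) hx
        refine le_trans ?_ (W3 x hx')
        have hs : F (i₃ + l₃) ⊆ V (i₃ + l₃) := FV _ (by omega)
        refine le_trans (sum_le_sum fun z _ => ?_) (sum_le_sum_of_subset_of_nonneg hs fun z _ _ => ms_nonneg hw hp (dl_nonneg x) _ _)
        have e : ∀ z, ms w p (a + i₃) (fun r z => W (i₃ + r) z ∧ ¬ TR (i₃ + r) z ∧ A2 π π' (i₃ + r) z) (dl x) l₃ z =
            ms w p (a + i₃) (fun r z => r ≤ l₃ ∧ W (i₃ + r) z ∧ ¬ TR (i₃ + r) z ∧ A2 π π' (i₃ + r) z) (dl x) l₃ z :=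
          ms_congr (fun r hr z => ⟨fun h => ⟨hr, h⟩, fun h => h.2⟩)
        rw [e]
        exact ms_mono hw hp (dl_nonneg x) (fun r z h => ⟨FV _ (by omega) ((hWm _ _).1 h.2.1), h.2.2⟩) (fun _ => le_rfl) _ _)
    refine h.trans (le_of_eq ?_)
    rw [F0, sum_singleton]
    unfold dl
    rw [if_pos rfl, mul_one]
  -- the last exit
  have hR : ∀ j x, ¬ W j x → (W (j + 1) x ∨ W (j + 1) (x + 1)) → x ∈ Rim F j := by
    intro j x h1 h2
    unfold Rim
    refine mem_filter.2 ⟨mem_union.2 (h2.imp (fun h => (hWm _ _).1 h) fun h => mem_image.2 ⟨x + 1, (hWm _ _).1 h, by ring⟩),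
      fun h => h1 ((hWm _ _).2 h)⟩
  have hRo : ∀ j x, x ∈ Rim F j → x ∉ F j := fun j x hx => (mem_filter.1 hx).2
  have k2 := duhamel (w := w) (p := p) (a := a) (A := A2 π π') hw hp (dl_nonneg y) hR n v
  rw [if_pos ((hWm _ _).2 (by rw [Fn]; exact mem_singleton_self _)), add_zero] at k2
  -- one row
  have row : ∀ j ∈ range n, (∑ x ∈ Rim F j, ms w p a All (dl y) j x * ks w p a W n j x v) * B n v ≤
      (if (i₁ ≤ j ∧ j < i₁ + l₁) ∨ (i₃ ≤ j ∧ j < i₃ + l₃) then eJ * U * B n v else 0) +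
        (if j = r₂ ∨ j = r₄ then e₃ * B 0 y else 0) := by
    intro j hj
    have hjn := mem_range.1 hj
    have kk0 : ∀ x, 0 ≤ ms w p a All (dl y) j x := fun x => ms_nonneg hw hp (dl_nonneg y) j x
    by_cases h2 : j = r₂ ∨ j = r₄
    · rw [if_pos h2]
      have h3 : ¬ ((i₁ ≤ j ∧ j < i₁ + l₁) ∨ (i₃ ≤ j ∧ j < i₃ + l₃)) := by omega
      rw [if_neg h3, zero_add, sum_mul]
      have hS : ∀ x ∈ Rim F j, ks w p a W n j x v * B n v ≤ e₃ * B j x := by
        intro x hx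
        have hx' := hRo j x hx
        have h4 : ks w p a W n j x v ≤ ker w p (a + j) (n - j) x v := by
          have e1 : ks w p a W n j x v = ms w p (a + j) (fun i y => i = 0 ∨ W (j + i) y) (dl x) (n - j) v := rfl
          rw [e1]
          exact ms_le_ker hw hp _ _ _ _
        refine (mul_le_mul_of_nonneg_right h4 (hB0 _ _)).trans ?_
        rcases h2 with h2 | h2
        · rw [h2] at hx' ⊢
          rw [F2, hr2] at hx'
          rw [hr2]
          exact S1 x hx'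
        · rw [h2] at hx' ⊢
          rw [F4, hr4] at hx'
          rw [hr4]
          exact S3 x hx'
      calc _ ≤ ∑ x ∈ Rim F j, e₃ * (ker w p a j y x * B j x) := by
            refine sum_le_sum fun x hx => ?_
            rw [← ms_ker (w := w) (p := p) a j y x]
            calc _ = ms w p a All (dl y) j x * (ks w p a W n j x v * B n v) := by ring
              _ ≤ ms w p a All (dl y) j x * (e₃ * B j x) := mul_le_mul_of_nonneg_left (hS x hx) (kk0 x)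
              _ = _ := by ring
        _ = e₃ * ∑ x ∈ Rim F j, ker w p a j y x * B j x := by rw [mul_sum]
        _ ≤ e₃ * B 0 y := by
            refine mul_le_mul_of_nonneg_left ?_ he3
            refine le_trans ?_ (hB j hjn.le y)
            calc ∑ x ∈ Rim F j, ker w p a j y x * B j x ≤ ∑ x ∈ Rim F j ∪ Icc y (y + j), ker w p a j y x * B j x :=
                  sum_le_sum_of_subset_of_nonneg subset_union_left fun x _ _ => mul_nonneg (ker0 _ _ _ _) (hB0 _ _)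
              _ = _ := (sum_subset subset_union_right fun x _ hx => by
                  rw [ker_eq_zero a j y x fun h => hx (mem_Icc.2 h), zero_mul]).symm
    · rw [if_neg h2, add_zero]
      by_cases h3 : (i₁ ≤ j ∧ j < i₁ + l₁) ∨ (i₃ ≤ j ∧ j < i₃ + l₃)
      · rw [if_pos h3]
        refine mul_le_mul_of_nonneg_right ?_ (hB0 _ _)
        have hsubR : Rim F j ⊆ Rim V j := by
          intro x hx
          have hx1 := mem_filter.1 hx
          have hs : F (j + 1) ⊆ V (j + 1) := FV _ (by omega)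
          refine mem_filter.2 ⟨?_, ?_⟩
          · rcases mem_union.1 hx1.1 with h | h
            · exact mem_union_left _ (hs h)
            · exact mem_union_right _ (image_subset_image hs h)
          · have h4 := hx1.2
            rw [hF, Fm_strip (by omega) (by omega) (by omega) h3] at h4
            exact h4
        have hnn : ∀ (G : Finset ℤ) (i m : ℕ) (x : ℤ), 0 ≤ ker w p a j y x * ∑ z ∈ G, ker w p i m x z := fun G i m x =>
          mul_nonneg (ker0 _ _ _ _) (sum_nonneg fun z _ => ker0 _ _ _ _)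
        rcases h3 with h3 | h3
        · have hJ : ∀ x, ks w p a W n j x v ≤ (∑ z ∈ Vin r₂, ker w p (a + j) (r₂ - j) x z) * U := fun x =>
            ks_jump hw hp (G := Vin r₂) (r := r₂) (by omega) (by omega) (fun z hz => by
              have := (hWm _ _).1 hz
              rwa [F2] at this) (fun z hz => by
              rw [hr2] at hz ⊢
              exact U2 z hz)
          calc _ ≤ ∑ x ∈ Rim F j, (ker w p a j y x * ∑ z ∈ Vin r₂, ker w p (a + j) (r₂ - j) x z) * U := by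
                refine sum_le_sum fun x hx => ?_
                rw [← ms_ker (w := w) (p := p) a j y x, mul_assoc]
                exact mul_le_mul_of_nonneg_left (hJ x) (kk0 x)
            _ = (∑ x ∈ Rim F j, ker w p a j y x * ∑ z ∈ Vin r₂, ker w p (a + j) (r₂ - j) x z) * U := by rw [sum_mul]
            _ ≤ eJ * U := by
                refine mul_le_mul_of_nonneg_right ?_ hU0
                refine (sum_le_sum_of_subset_of_nonneg hsubR fun x _ _ => hnn _ _ _ x).trans ?_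
                rw [hr2]
                exact J1 j h3.1 h3.2
        · have hJ : ∀ x, ks w p a W n j x v ≤ (∑ z ∈ Vin r₄, ker w p (a + j) (r₄ - j) x z) * U := fun x =>
            ks_jump hw hp (G := Vin r₄) (r := r₄) (by omega) (by omega) (fun z hz => by
              have := (hWm _ _).1 hz
              rwa [F4] at this) (fun z hz => by
              rw [hr4] at hz ⊢
              exact U4 z hz)
          calc _ ≤ ∑ x ∈ Rim F j, (ker w p a j y x * ∑ z ∈ Vin r₄, ker w p (a + j) (r₄ - j) x z) * U := by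
                refine sum_le_sum fun x hx => ?_
                rw [← ms_ker (w := w) (p := p) a j y x, mul_assoc]
                exact mul_le_mul_of_nonneg_left (hJ x) (kk0 x)
            _ = (∑ x ∈ Rim F j, ker w p a j y x * ∑ z ∈ Vin r₄, ker w p (a + j) (r₄ - j) x z) * U := by rw [sum_mul]
            _ ≤ eJ * U := by
                refine mul_le_mul_of_nonneg_right ?_ hU0
                refine (sum_le_sum_of_subset_of_nonneg hsubR fun x _ _ => hnn _ _ _ x).trans ?_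
                rw [hr4]
                exact J3 j h3.1 h3.2
      · rw [if_neg h3]
        refine le_of_eq ?_
        rw [sum_eq_zero, zero_mul]
        intro x hx
        have hx' := hRo j x hx
        have : ms w p a All (dl y) j x = 0 := by
          by_cases h0 : j = 0
          · subst h0
            rw [F0, mem_singleton] at hx'
            rw [ms_all_zero]
            unfold dl
            rw [if_neg hx']
          · rw [hF, Fm_free (by omega) h0 (by omega) h3] at hx'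
            rw [ms_ker]
            exact ker_eq_zero a j y x fun h => hx' (mem_Icc.2 h)
        rw [this, zero_mul]
  have k3 : (∑ j ∈ range n, ∑ x ∈ Rim F j, ms w p a All (dl y) j x * ks w p a W n j x v) * B n v ≤
      (l₁ + l₃) * (eJ * U) * B n v + 2 * (e₃ * B 0 y) := by
    rw [sum_mul]
    refine (sum_le_sum row).trans ?_
    rw [sum_add_distrib, ← sum_filter, ← sum_filter, sum_const, sum_const, nsmul_eq_mul, nsmul_eq_mul]
    have c1 : (((range n).filter fun j => (i₁ ≤ j ∧ j < i₁ + l₁) ∨ (i₃ ≤ j ∧ j < i₃ + l₃)).card : ℝ) ≤ l₁ + l₃ := by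
      have h1 : ((range n).filter fun j => (i₁ ≤ j ∧ j < i₁ + l₁) ∨ (i₃ ≤ j ∧ j < i₃ + l₃)) ⊆ Ico i₁ (i₁ + l₁) ∪ Ico i₃ (i₃ + l₃) := by
        intro j hj
        have := (mem_filter.1 hj).2
        rw [mem_union, mem_Ico, mem_Ico]
        exact this
      have h2 := (card_le_card h1).trans (card_union_le _ _)
      rw [Nat.card_Ico, Nat.card_Ico, Nat.add_sub_cancel_left, Nat.add_sub_cancel_left] at h2
      exact_mod_cast h2
    have c2 : (((range n).filter fun j => j = r₂ ∨ j = r₄).card : ℝ) ≤ 2 := by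
      have h1 : ((range n).filter fun j => j = r₂ ∨ j = r₄) ⊆ {r₂, r₄} := by
        intro j hj
        have := (mem_filter.1 hj).2
        rw [mem_insert, mem_singleton]
        exact this
      have h2 := (card_le_card h1).trans card_le_two
      exact_mod_cast h2
    have b1 : 0 ≤ eJ * U * B n v := mul_nonneg (mul_nonneg heJ hU0) (hB0 _ _)
    have b2 : 0 ≤ e₃ * B 0 y := mul_nonneg he3 (hB0 _ _)
    have := mul_le_mul_of_nonneg_right c1 b1
    have := mul_le_mul_of_nonneg_right c2 b2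
    linarith
  calc ms w p a (A2 π π') (dl y) n v * B n v ≤ (ms w p a (fun j x => A2 π π' j x ∧ W j x) (dl y) n v +
        ∑ j ∈ range n, ∑ x ∈ Rim F j, ms w p a All (dl y) j x * ks w p a W n j x v) * B n v := mul_le_mul_of_nonneg_right k2 (hB0 _ _)
    _ = ms w p a (fun j x => A2 π π' j x ∧ W j x) (dl y) n v * B n v +
        (∑ j ∈ range n, ∑ x ∈ Rim F j, ms w p a All (dl y) j x * ks w p a W n j x v) * B n v := by ring
    _ ≤ 2 * (U * ew * U) * B n v + ((l₁ + l₃) * (eJ * U) * B n v + 2 * (e₃ * B 0 y)) :=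
        add_le_add (mul_le_mul_of_nonneg_right k1 (hB0 _ _)) k3
    _ = _ := by ring

/-- **THE GATE WITH THIN STRIPS.** -/
theorem gv87 (hw : ∀ k y, 0 ≤ w k y) (hp : ∀ k, 0 ≤ p k) {Co TL TR : ℕ → ℤ → Prop} {I : Finset ℤ}
    (hi1 : 0 < i₁) (h13 : i₁ + l₁ < i₃) (h3n : i₃ + l₃ < n)
    (hsub1 : Vin (i₁ + l₁) ⊆ V (i₁ + l₁)) (hsub3 : Vin (i₃ + l₃) ⊆ V (i₃ + l₃))
    (hTL : ∀ j, i₁ ≤ j → j ≤ i₁ + l₁ → ∀ x y, TL j x → Co j y → x < y)
    (hTR : ∀ j, i₃ ≤ j → j ≤ i₃ + l₃ → ∀ x y, TR j x → Co j y → y < x) {U ew eJ e₃ c : ℝ} (hU0 : 0 ≤ U) (hew : 0 ≤ ew) (heJ : 0 ≤ eJ)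
    (he3 : 0 ≤ e₃) (hc : 0 < c) {π π' : Pa n} (hπ : π ∈ Ps Co I n) (hπ' : π' ∈ Ps Co I n)
    {B : ℕ → ℤ → ℝ} (hB0 : ∀ r z, 0 ≤ B r z) (hB : ∀ r ≤ n, ∀ y : ℤ, ∑ z ∈ Icc y (y + r), ker w p a r y z * B r z ≤ B 0 y)
    (S0 : ∀ z, z ∉ Vin 0 → ker w p a n z v * B n v ≤ e₃ * B 0 z)
    (S1 : ∀ z, z ∉ Vin (i₁ + l₁) → ker w p (a + (i₁ + l₁)) (n - (i₁ + l₁)) z v * B n v ≤ e₃ * B (i₁ + l₁) z)
    (S3 : ∀ z, z ∉ Vin (i₃ + l₃) → ker w p (a + (i₃ + l₃)) (n - (i₃ + l₃)) z v * B n v ≤ e₃ * B (i₃ + l₃) z)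
    (J1 : ∀ y ∈ Vin 0, ∀ j, i₁ ≤ j → j < i₁ + l₁ →
      ∑ x ∈ Rim V j, ker w p a j y x * ∑ z ∈ Vin (i₁ + l₁), ker w p (a + j) (i₁ + l₁ - j) x z ≤ eJ)
    (J3 : ∀ y ∈ Vin 0, ∀ j, i₃ ≤ j → j < i₃ + l₃ →
      ∑ x ∈ Rim V j, ker w p a j y x * ∑ z ∈ Vin (i₃ + l₃), ker w p (a + j) (i₃ + l₃ - j) x z ≤ eJ)
    (U1 : ∀ y ∈ Vin 0, ∑ z ∈ V i₁, ker w p a i₁ y z ≤ U) (U3 : ∀ y ∈ Vin 0, ∑ z ∈ V i₃, ker w p a i₃ y z ≤ U)
    (U2 : ∀ x ∈ Vin (i₁ + l₁), ker w p (a + (i₁ + l₁)) (n - (i₁ + l₁)) x v ≤ U)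
    (U4 : ∀ x ∈ Vin (i₃ + l₃), ker w p (a + (i₃ + l₃)) (n - (i₃ + l₃)) x v ≤ U)
    (W1 : ∀ x ∈ V i₁, ∑ z ∈ V (i₁ + l₁), ms w p (a + i₁)
      (fun r z => z ∈ V (i₁ + r) ∧ ¬ TL (i₁ + r) z ∧ A2 π π' (i₁ + r) z) (dl x) l₁ z ≤ ew)
    (W3 : ∀ x ∈ V i₃, ∑ z ∈ V (i₃ + l₃), ms w p (a + i₃)
      (fun r z => z ∈ V (i₃ + r) ∧ ¬ TR (i₃ + r) z ∧ A2 π π' (i₃ + r) z) (dl x) l₃ z ≤ ew)
    (L : ∀ y ∈ Vin 0, c ≤ ker w p a n y v) (y : ℤ) :
    ms w p a (A2 π π') (dl y) n v * B n v ≤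
      (2 * (U * ew * U) + (l₁ + l₃) * (eJ * U)) / c * (ker w p a n y v * B n v) + 2 * e₃ * B 0 y := by
  have E0 : 0 ≤ 2 * (U * ew * U) + (l₁ + l₃) * (eJ * U) := by positivity
  by_cases hy : y ∈ Vin 0
  · have h1 := gv_in (w := w) (p := p) (a := a) (y := y) (v := v) hw hp hi1 h13 h3n hsub1 hsub3 hTL hTR hU0 hew heJ he3 hπ hπ' hB0 hB
      S1 S3 (J1 y hy) (J3 y hy) (U1 y hy) (U3 y hy) U2 U4 W1 W3
    refine h1.trans ?_
    have h2 : (2 * (U * ew * U) + (l₁ + l₃) * (eJ * U)) ≤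
        (2 * (U * ew * U) + (l₁ + l₃) * (eJ * U)) / c * ker w p a n y v := by
      rw [div_mul_eq_mul_div, le_div_iff₀ hc]
      exact mul_le_mul_of_nonneg_left (L y hy) E0
    have h3 := mul_le_mul_of_nonneg_right h2 (hB0 n v)
    linarith
  · have h1 := mul_le_mul_of_nonneg_right (ms_le_ker (a := a) hw hp (A2 π π') y n v) (hB0 n v)
    have h2 := S0 y hy
    have h3 : 0 ≤ ker w p a n y v := (ms_nonneg (A := All) hw hp (dl_nonneg y) _ _).trans (le_of_eq (ms_ker _ _ _ _))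
    have h4 : 0 ≤ (2 * (U * ew * U) + (l₁ + l₃) * (eJ * U)) / c * (ker w p a n y v * B n v) :=
      mul_nonneg (div_nonneg E0 hc.le) (mul_nonneg h3 (hB0 _ _))
    have h5 : 0 ≤ e₃ * B 0 y := mul_nonneg he3 (hB0 _ _)
    linarith

end

end Pool.Agent.W_7d29a1_C1.Gt66
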