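import Pool.Agent.W_7d29a1_C1.GateT66

/-!
MP_7d29a1_pr, attractor route, [C1] SEP: THE GATE, walls off the two paths ⇒ (almost) everything meets one of them. (helper66)

Rows (relative to `a`) `0 < j₁ < j₂ < j₃ < j₄ < n`, window `V`, core `Co`, tubes `TL` (left of the core, rows `j₁ … j₂`) and `TR`
(right of the core, rows `j₃ … j₄`). A path in the window which avoids both paths `π, π'` of the core stays on one side of the lower
one of them: it crosses the strip `j₁ … j₂` or the strip `j₃ … j₄` off the tube.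
`walls`: `ms (A2 π π' ∧ V) m n v ≤ 2 U² ε Σ_{x ∈ V 0} m x`; `route`: `X_n(v) ≥ c Σ_{x ∈ V 0} m x`; `hav`: the hypothesis of `gate`.
-/

set_option autoImplicit false

namespace Pool.Agent.W_7d29a1_C1.Gt66

open Finset
open Pool.Agent.W_7d29a1_C1.K91P (fw bw fw_succ)
open Pool.Agent.W_7d29a1_C1.U16 (ker)

noncomputable section

attribute [local instance 10] Classical.propDecidable

variable {w : ℕ → ℤ → ℝ} {p : ℕ → ℝ} {a : ℕ} {A A' : ℕ → ℤ → Prop} {m m' k : ℤ → ℝ}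

/-- One site. -/
def dl (x : ℤ) : ℤ → ℝ := fun y => if y = x then 1 else 0

theorem dl_nonneg (x y : ℤ) : 0 ≤ dl x y := by
  unfold dl
  split_ifs
  · exact zero_le_one
  · exact le_rfl

/-- Cut at the row `a + j`. -/
theorem ms_cut (j : ℕ) : ∀ (i : ℕ) (y : ℤ), ms w p a A m (j + i) y =
    ms w p (a + j) (fun r z => A (j + r) z) (ms w p a A m j) i y
  | 0, y => by
    have e : ms w p (a + j) (fun r z => A (j + r) z) (ms w p a A m j) 0 y = if A j y then ms w p a A m j y else 0 := rfl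
    rw [e]
    by_cases h : A j y
    · rw [if_pos h]
      rfl
    · rw [if_neg h]
      exact ms_off h
  | i + 1, y => by
    have e : ms w p (a + j) (fun r z => A (j + r) z) (ms w p a A m j) (i + 1) y = if A (j + (i + 1)) y then
        w (a + j + i) y * ms w p (a + j) (fun r z => A (j + r) z) (ms w p a A m j) i y +
          p (a + j + i) * (w (a + j + i) (y - 1) * ms w p (a + j) (fun r z => A (j + r) z) (ms w p a A m j) i (y - 1)) else 0 := rfl
    rw [e, ← ms_cut j i y, ← ms_cut j i (y - 1)]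
    by_cases h : A (j + (i + 1)) y
    · rw [if_pos h]
      have h2 : A ((j + i) + 1) y := h
      have h3 := ms_in (w := w) (p := p) (a := a) (m := m) h2
      rw [show a + (j + i) = a + j + i by omega] at h3
      exact h3
    · rw [if_neg h]
      exact ms_off (A := A) (n := j + (i + 1)) h

/-- Expansion over the starts. -/
theorem ms_expand {F : Finset ℤ} (hm : ∀ y, y ∉ F → m y = 0) (n : ℕ) (y : ℤ) :
    ms w p a A m n y = ∑ x ∈ F, m x * ms w p a A (dl x) n y := by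
  have e : m = fun z => ∑ x ∈ F, m x * dl x z := by
    funext z
    unfold dl
    have h1 : ∀ x ∈ F, m x * (if z = x then (1 : ℝ) else 0) = if z = x then m x else 0 := fun x _ => by
      split_ifs <;> simp
    rw [sum_congr rfl h1, sum_ite_eq]
    by_cases hz : z ∈ F
    · rw [if_pos hz]
    · rw [if_neg hz, hm z hz]
  conv_lhs => rw [e]
  rw [ms_sum]
  exact sum_congr rfl fun x _ => ms_smul (m x) n y

/-- Only the starts in `F` matter when `A 0` is inside `F`. -/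
theorem ms_start {F : Finset ℤ} (hF : ∀ y, A 0 y → y ∈ F) (n : ℕ) (y : ℤ) :
    ms w p a A m n y = ∑ x ∈ F, m x * ms w p a A (dl x) n y := by
  have h1 : ∀ (n : ℕ) (y : ℤ), ms w p a A m n y = ms w p a A (fun x => if x ∈ F then m x else 0) n y := by
    intro n
    induction n with
    | zero =>
      intro y
      by_cases h : A 0 y
      · conv_lhs => unfold ms
        conv_rhs => unfold ms
        rw [if_pos h, if_pos h, if_pos (hF y h)]
      · rw [ms_off h, ms_off h]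
    | succ n ih =>
      intro y
      by_cases h : A (n + 1) y
      · rw [ms_in h, ms_in h, ih, ih]
      · rw [ms_off h, ms_off h]
  rw [h1, ms_expand (F := F) (fun y hy => if_neg hy)]
  refine sum_congr rfl fun x hx => ?_
  simp only [if_pos hx]

/-- Passing through `t`. -/
theorem ms_via (hw : ∀ k y, 0 ≤ w k y) (hp : ∀ k, 0 ≤ p k) (hm : ∀ y, 0 ≤ m y) (j i : ℕ) (t y : ℤ) :
    ms w p a A m j t * ms w p (a + j) (fun r z => A (j + r) z) (dl t) i y ≤ ms w p a A m (j + i) y := by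
  rw [ms_cut, ← ms_smul]
  refine ms_mono hw hp (fun z => ms_nonneg hw hp hm j z) (fun _ _ h => h) (fun z => ?_) i y
  unfold dl
  split_ifs with h
  · rw [h, mul_one]
  · rw [mul_zero]
    exact ms_nonneg hw hp hm j z

theorem ms_ker (i n : ℕ) (x y : ℤ) : ms w p i All (dl x) n y = ker w p i n x y := by
  unfold ker
  have h : ∀ (n : ℕ) (y : ℤ), ms w p i All (dl x) n y = fw (fun k => w (i + k)) (fun k => p (i + k)) (Pool.Agent.W_7d29a1_C1.U16.dlt x) n y := by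
    intro n
    induction n with
    | zero =>
      intro y
      rw [ms_all_zero]
      rfl
    | succ n ih =>
      intro y
      rw [ms_all_succ, ih, ih]
      rfl
  exact h n y

/-! ### Total masses -/

/-- The total mass of the kernels from the sites of `F` is at most `U`. -/
theorem tot_le {F Y : Finset ℤ} {U : ℝ} (n : ℕ) (hF : ∀ y, A 0 y → y ∈ F)
    (hm : ∀ y, 0 ≤ m y) (hU : ∀ x ∈ F, ∑ y ∈ Y, ms w p a A (dl x) n y ≤ U) :
    ∑ y ∈ Y, ms w p a A m n y ≤ U * ∑ x ∈ F, m x := by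
  have h1 : ∀ y ∈ Y, ms w p a A m n y = ∑ x ∈ F, m x * ms w p a A (dl x) n y := fun y _ => ms_start hF n y
  rw [sum_congr rfl h1, sum_comm, mul_sum]
  refine sum_le_sum fun x hx => ?_
  rw [← mul_sum, mul_comm U]
  exact mul_le_mul_of_nonneg_left (hU x hx) (hm x)

/-! ### Positions -/

/-- The position at the row `j`. -/
def posn : {n : ℕ} → Pa n → ℕ → ℤ
  | _, .z y => fun _ => y
  | n + 1, .s π b => fun j => if j ≤ n then posn π j else en π + st b

theorem posn_le {n : ℕ} (π : Pa n) (b : Bool) {j : ℕ} (hj : j ≤ n) : posn (Pa.s π b) j = posn π j := by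
  show (if j ≤ n then posn π j else en π + st b) = posn π j
  rw [if_pos hj]

theorem posn_gt {n : ℕ} (π : Pa n) (b : Bool) {j : ℕ} (hj : ¬ j ≤ n) : posn (Pa.s π b) j = en π + st b := by
  show (if j ≤ n then posn π j else en π + st b) = en π + st b
  rw [if_neg hj]

theorem onp_posn : ∀ {n : ℕ} (π : Pa n) {j : ℕ} {x : ℤ}, onp π j x ↔ j ≤ n ∧ x = posn π j
  | _, .z y, j, x => ⟨fun h => ⟨le_of_eq h.1, h.2⟩, fun h => ⟨by omega, h.2⟩⟩
  | n + 1, .s π b, j, x => by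
    by_cases hj : j ≤ n
    · rw [onp_lt π b hj, onp_posn π, posn_le π b hj]
      exact ⟨fun h => ⟨by omega, h.2⟩, fun h => ⟨hj, h.2⟩⟩
    · rw [posn_gt π b hj]
      constructor
      · intro h
        rcases h with h | h
        · exact absurd (onp_row π h) hj
        · exact ⟨by omega, h.2⟩
      · intro h
        exact Or.inr ⟨by omega, h.2⟩

theorem posn_last : ∀ {n : ℕ} (π : Pa n), posn π n = en π
  | _, .z _ => rfl
  | n + 1, .s π b => by
    rw [posn_gt π b (by omega)]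
    rfl

theorem posn_step : ∀ {n : ℕ} (π : Pa n) {j : ℕ}, j < n → posn π j ≤ posn π (j + 1) ∧ posn π (j + 1) ≤ posn π j + 1
  | n + 1, .s π b, j, h => by
    have hb : 0 ≤ st b ∧ st b ≤ 1 := by cases b <;> simp [st]
    by_cases hj : j + 1 ≤ n
    · have h1 := posn_step π (j := j) (by omega)
      have e1 := posn_le π b (j := j) (by omega)
      have e2 := posn_le π b hj
      rw [e1, e2]
      exact h1
    · have hjn : j = n := by omega
      subst hjn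
      have e1 : posn (Pa.s π b) j = en π := by rw [posn_le π b le_rfl, posn_last]
      have e2 : posn (Pa.s π b) (j + 1) = en π + st b := posn_gt π b (by omega)
      rw [e1, e2]
      omega

/-- A barrier: masses which avoid it stay on their side. -/
theorem barrier (hw : ∀ k y, 0 ≤ w k y) (hp : ∀ k, 0 ≤ p k) (hm : ∀ y, 0 ≤ m y) {β : ℕ → ℤ} : ∀ (n : ℕ),
    (∀ j < n, β j ≤ β (j + 1) ∧ β (j + 1) ≤ β j + 1) → (∀ j ≤ n, ∀ x, A j x → x ≠ β j) → ∀ y : ℤ,
    ms w p a A m n y ≤ ms w p a (fun j x => A j x ∧ β j < x) m n y + ms w p a (fun j x => A j x ∧ x < β j) m n y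
  | 0, _, hA, y => by
    by_cases h : A 0 y
    · have h1 := hA 0 le_rfl y h
      have h0 := hm y
      rcases lt_or_gt_of_ne h1 with h2 | h2
      · have h3 : ¬ β 0 < y := by omega
        simp [ms, h, h2, h3]
      · have h3 : ¬ y < β 0 := by omega
        simp [ms, h, h2, h3]
    · rw [ms_off h]
      exact add_nonneg (ms_nonneg hw hp hm _ _) (ms_nonneg hw hp hm _ _)
  | n + 1, hβ, hA, y => by
    by_cases h : A (n + 1) y
    · have h1 := hA (n + 1) le_rfl y h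
      have h2 := hβ n (by omega)
      have i1 := barrier hw hp hm n (fun j hj => hβ j (by omega)) (fun j hj => hA j (by omega)) y
      have i2 := barrier hw hp hm n (fun j hj => hβ j (by omega)) (fun j hj => hA j (by omega)) (y - 1)
      have w1 := hw (a + n) y
      have w2 := hw (a + n) (y - 1)
      have p1 := hp (a + n)
      rw [ms_in h]
      rcases lt_or_gt_of_ne h1 with h3 | h3
      · -- left
        have r1 : ms w p a (fun j x => A j x ∧ β j < x) m n y = 0 := ms_off fun h4 => by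
          have := h4.2
          omega
        have r2 : ms w p a (fun j x => A j x ∧ β j < x) m n (y - 1) = 0 := ms_off fun h4 => by
          have := h4.2
          omega
        rw [r1, zero_add] at i1
        rw [r2, zero_add] at i2
        rw [ms_off (A := fun j x => A j x ∧ β j < x) fun h4 => by
          have := h4.2
          omega, ms_in (A := fun j x => A j x ∧ x < β j) ⟨h, h3⟩, zero_add]
        exact add_le_add (mul_le_mul_of_nonneg_left i1 w1) (mul_le_mul_of_nonneg_left (mul_le_mul_of_nonneg_left i2 w2) p1)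
      · have r1 : ms w p a (fun j x => A j x ∧ x < β j) m n y = 0 := ms_off fun h4 => by
          have := h4.2
          omega
        have r2 : ms w p a (fun j x => A j x ∧ x < β j) m n (y - 1) = 0 := ms_off fun h4 => by
          have := h4.2
          omega
        rw [r1, add_zero] at i1
        rw [r2, add_zero] at i2
        rw [ms_off (A := fun j x => A j x ∧ x < β j) fun h4 => by
          have := h4.2
          omega, ms_in (A := fun j x => A j x ∧ β j < x) ⟨h, h3⟩, add_zero]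
        exact add_le_add (mul_le_mul_of_nonneg_left i1 w1) (mul_le_mul_of_nonneg_left (mul_le_mul_of_nonneg_left i2 w2) p1)
    · rw [ms_off h]
      exact add_nonneg (ms_nonneg hw hp hm _ _) (ms_nonneg hw hp hm _ _)

/-- One strip: what crosses the rows `i … i + l` inside `S` (everything else inside `V`) is at most `U² ε` times the start. -/
theorem strip (hw : ∀ k y, 0 ≤ w k y) (hp : ∀ k, 0 ≤ p k) (hm : ∀ y, 0 ≤ m y) {V S : ℕ → ℤ → Prop} {F : ℕ → Finset ℤ}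
    (hV : ∀ j y, V j y ↔ y ∈ F j) {U ε : ℝ} (hU0 : 0 ≤ U) (hε : 0 ≤ ε) {i l r : ℕ}
    (hA : ∀ j x, A j x → V j x) (hS : ∀ j x, i ≤ j → j ≤ i + l → A j x → S j x)
    (hU1 : ∀ x ∈ F 0, ∑ y ∈ F i, ms w p a V (dl x) i y ≤ U)
    (hU2 : ∀ x ∈ F (i + l), ∀ y, ms w p (a + (i + l)) (fun r z => V (i + l + r) z) (dl x) r y ≤ U)
    (hε1 : ∀ x ∈ F i, ∑ y ∈ F (i + l), ms w p (a + i) (fun r z => S (i + r) z) (dl x) l y ≤ ε) (v : ℤ) :
    ms w p a A m (i + l + r) v ≤ U * ε * U * ∑ x ∈ F 0, m x := by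
  have hF : ∀ j, ∀ y, V j y → y ∈ F j := fun j y h => (hV j y).1 h
  -- first piece
  set M1 : ℤ → ℝ := ms w p a A m i with hM1
  have M10 : ∀ y, 0 ≤ M1 y := fun y => ms_nonneg hw hp hm i y
  have t1 : ∑ y ∈ F i, M1 y ≤ U * ∑ x ∈ F 0, m x := by
    refine tot_le (A := A) i (fun y h => hF 0 y (hA 0 y h)) hm fun x hx => ?_
    exact (sum_le_sum fun y _ => ms_mono hw hp (dl_nonneg x) hA (fun _ => le_rfl) i y).trans (hU1 x hx)
  -- second piece
  set A2' : ℕ → ℤ → Prop := fun r z => A (i + r) z with hA2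
  set M2 : ℤ → ℝ := ms w p a A m (i + l) with hM2
  have M20 : ∀ y, 0 ≤ M2 y := fun y => ms_nonneg hw hp hm (i + l) y
  have t2 : ∑ y ∈ F (i + l), M2 y ≤ ε * ∑ x ∈ F i, M1 x := by
    have e : ∀ y ∈ F (i + l), M2 y = ms w p (a + i) A2' M1 l y := fun y _ => ms_cut i l y
    rw [sum_congr rfl e]
    refine tot_le (A := A2') l (fun y h => hF i y (hA i y (by simpa [hA2] using h))) M10 fun x hx => ?_
    refine le_trans (sum_le_sum fun y _ => ?_) (hε1 x hx)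
    -- restrict to the rows of the strip
    have h1 : ∀ y, ms w p (a + i) A2' (dl x) l y ≤ ms w p (a + i) (fun r z => S (i + r) z) (dl x) l y := by
      have h2 : ∀ q, q ≤ l → ∀ y, ms w p (a + i) A2' (dl x) q y ≤ ms w p (a + i) (fun r z => S (i + r) z) (dl x) q y := by
        intro q
        induction q with
        | zero =>
          intro _ y
          by_cases h3 : A2' 0 y
          · have h4 : S (i + 0) y := hS (i + 0) y (by omega) (by omega) h3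
            conv_lhs => unfold ms
            conv_rhs => unfold ms
            rw [if_pos h3, if_pos h4]
          · rw [ms_off h3]
            exact ms_nonneg hw hp (dl_nonneg x) _ _
        | succ q ih =>
          intro hq y
          by_cases h3 : A2' (q + 1) y
          · have h4 : (fun r z => S (i + r) z) (q + 1) y := hS (i + (q + 1)) y (by omega) (by omega) h3
            rw [ms_in h3, ms_in (A := fun r z => S (i + r) z) h4]
            exact add_le_add (mul_le_mul_of_nonneg_left (ih (by omega) y) (hw _ _))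
              (mul_le_mul_of_nonneg_left (mul_le_mul_of_nonneg_left (ih (by omega) (y - 1)) (hw _ _)) (hp _))
          · rw [ms_off h3]
            exact ms_nonneg hw hp (dl_nonneg x) _ _
      exact h2 l le_rfl
    exact h1 y
  -- third piece
  have t3 : ms w p a A m (i + l + r) v ≤ U * ∑ x ∈ F (i + l), M2 x := by
    rw [ms_cut (i + l) r v]
    have h1 := ms_mono (w := w) (p := p) (a := a + (i + l)) (A := fun r z => A (i + l + r) z)
      (A' := fun r z => V (i + l + r) z) (m := M2) (m' := M2) hw hp M20 (fun j y h => hA _ _ h) (fun _ => le_rfl) r v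
    refine h1.trans ?_
    rw [ms_start (A := fun r z => V (i + l + r) z) (F := F (i + l)) (fun y h => hF (i + l) y (by simpa using h)) r v, mul_sum]
    refine sum_le_sum fun x hx => ?_
    rw [mul_comm U]
    exact mul_le_mul_of_nonneg_left (hU2 x hx v) (M20 x)
  have s0 : 0 ≤ ∑ x ∈ F 0, m x := sum_nonneg fun x _ => hm x
  calc ms w p a A m (i + l + r) v ≤ U * ∑ x ∈ F (i + l), M2 x := t3
    _ ≤ U * (ε * ∑ x ∈ F i, M1 x) := mul_le_mul_of_nonneg_left t2 hU0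
    _ ≤ U * (ε * (U * ∑ x ∈ F 0, m x)) := mul_le_mul_of_nonneg_left (mul_le_mul_of_nonneg_left t1 hε) hU0
    _ = _ := by ring

/-- **WALLS.** Everything inside the window which avoids two paths of the core crosses one of the two strips off its tube. -/
theorem walls (hw : ∀ k y, 0 ≤ w k y) (hp : ∀ k, 0 ≤ p k) (hm : ∀ y, 0 ≤ m y) {V Co TL TR : ℕ → ℤ → Prop} {F : ℕ → Finset ℤ}
    (hV : ∀ j y, V j y ↔ y ∈ F j) {I : Finset ℤ} {j₁ l₁ j₃ l₃ n : ℕ} (h12 : j₁ + l₁ ≤ n) (h34 : j₃ + l₃ ≤ n)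
    (hTL : ∀ j, j₁ ≤ j → j ≤ j₁ + l₁ → ∀ x y, TL j x → Co j y → x < y)
    (hTR : ∀ j, j₃ ≤ j → j ≤ j₃ + l₃ → ∀ x y, TR j x → Co j y → y < x) {U ε : ℝ} (hU0 : 0 ≤ U) (hε : 0 ≤ ε)
    {π π' : Pa n} (hπ : π ∈ Ps Co I n) (hπ' : π' ∈ Ps Co I n) {v : ℤ}
    (hU1 : ∀ x ∈ F 0, ∑ y ∈ F j₁, ms w p a V (dl x) j₁ y ≤ U)
    (hU2 : ∀ x ∈ F (j₁ + l₁), ∀ y, ms w p (a + (j₁ + l₁)) (fun r z => V (j₁ + l₁ + r) z) (dl x) (n - (j₁ + l₁)) y ≤ U)
    (hU3 : ∀ x ∈ F 0, ∑ y ∈ F j₃, ms w p a V (dl x) j₃ y ≤ U)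
    (hU4 : ∀ x ∈ F (j₃ + l₃), ∀ y, ms w p (a + (j₃ + l₃)) (fun r z => V (j₃ + l₃ + r) z) (dl x) (n - (j₃ + l₃)) y ≤ U)
    (hε1 : ∀ x ∈ F j₁, ∑ y ∈ F (j₁ + l₁), ms w p (a + j₁)
      (fun r z => V (j₁ + r) z ∧ ¬ TL (j₁ + r) z ∧ A2 π π' (j₁ + r) z) (dl x) l₁ y ≤ ε)
    (hε3 : ∀ x ∈ F j₃, ∑ y ∈ F (j₃ + l₃), ms w p (a + j₃)
      (fun r z => V (j₃ + r) z ∧ ¬ TR (j₃ + r) z ∧ A2 π π' (j₃ + r) z) (dl x) l₃ y ≤ ε) :
    ms w p a (fun j x => A2 π π' j x ∧ V j x) m n v ≤ 2 * (U * ε * U * ∑ x ∈ F 0, m x) := by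
  set β : ℕ → ℤ := fun j => min (posn π j) (posn π' j) with hβ
  have c1 : ∀ j ≤ n, Co j (posn π j) := fun j hj => Ps_conf hπ ((onp_posn π).2 ⟨hj, rfl⟩)
  have c2 : ∀ j ≤ n, Co j (posn π' j) := fun j hj => Ps_conf hπ' ((onp_posn π').2 ⟨hj, rfl⟩)
  have b1 : ∀ j < n, β j ≤ β (j + 1) ∧ β (j + 1) ≤ β j + 1 := fun j hj => by
    have h1 := posn_step π hj
    have h2 := posn_step π' hj
    simp only [hβ]
    omega
  have b2 : ∀ j ≤ n, ∀ x, (A2 π π' j x ∧ V j x) → x ≠ β j := fun j hj x hx e => by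
    rcases min_choice (posn π j) (posn π' j) with h | h
    · exact hx.1.1 ((onp_posn π).2 ⟨hj, by rw [e, hβ]; exact h⟩)
    · exact hx.1.2 ((onp_posn π').2 ⟨hj, by rw [e, hβ]; exact h⟩)
  have h0 := barrier (a := a) (A := fun j x => A2 π π' j x ∧ V j x) hw hp hm (β := β) n b1 b2 v
  have h1 : ms w p a (fun j x => (A2 π π' j x ∧ V j x) ∧ β j < x) m n v ≤ U * ε * U * ∑ x ∈ F 0, m x := by
    obtain ⟨r, hr⟩ : ∃ r, n = j₁ + l₁ + r := ⟨n - (j₁ + l₁), by omega⟩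
    have hr' : n - (j₁ + l₁) = r := by omega
    rw [hr'] at hU2
    have h2 := strip (a := a) (A := fun j x => (A2 π π' j x ∧ V j x) ∧ β j < x ∧ j ≤ n) (V := V)
      (S := fun j x => V j x ∧ ¬ TL j x ∧ A2 π π' j x) (i := j₁) (l := l₁) (r := r) hw hp hm hV hU0 hε (fun j x h => h.1.2)
      (fun j x i1 i2 h => ⟨h.1.2, fun h3 => by
        have h4 := hTL j i1 i2 x _ h3 (c1 j h.2.2)
        have h5 := hTL j i1 i2 x _ h3 (c2 j h.2.2)
        have h6 := h.2.1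
        simp only [hβ] at h6
        omega, h.1.1⟩) hU1 hU2 hε1 v
    rw [← hr] at h2
    refine le_trans (le_of_eq ?_) h2
    exact ms_congr (fun j hj y => ⟨fun h => ⟨h.1, h.2, hj⟩, fun h => ⟨h.1, h.2.1⟩⟩) v
  have h3 : ms w p a (fun j x => (A2 π π' j x ∧ V j x) ∧ x < β j) m n v ≤ U * ε * U * ∑ x ∈ F 0, m x := by
    obtain ⟨r, hr⟩ : ∃ r, n = j₃ + l₃ + r := ⟨n - (j₃ + l₃), by omega⟩
    have hr' : n - (j₃ + l₃) = r := by omega
    rw [hr'] at hU4
    have h2 := strip (a := a) (A := fun j x => (A2 π π' j x ∧ V j x) ∧ x < β j ∧ j ≤ n) (V := V)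
      (S := fun j x => V j x ∧ ¬ TR j x ∧ A2 π π' j x) (i := j₃) (l := l₃) (r := r) hw hp hm hV hU0 hε (fun j x h => h.1.2)
      (fun j x i1 i2 h => ⟨h.1.2, fun h3 => by
        have h4 := hTR j i1 i2 x _ h3 (c1 j h.2.2)
        have h5 := hTR j i1 i2 x _ h3 (c2 j h.2.2)
        have h6 := h.2.1
        simp only [hβ] at h6
        omega, h.1.1⟩) hU3 hU4 hε3 v
    rw [← hr] at h2
    refine le_trans (le_of_eq ?_) h2
    exact ms_congr (fun j hj y => ⟨fun h => ⟨h.1, h.2, hj⟩, fun h => ⟨h.1, h.2.1⟩⟩) v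
  linarith

/-- **ROUTE.** The masses of the window reach `v` through `t₁, …, t₄`. -/
theorem route (hw : ∀ k y, 0 ≤ w k y) (hp : ∀ k, 0 ≤ p k) (hm : ∀ y, 0 ≤ m y) {F0 : Finset ℤ} {i₁ i₂ i₃ i₄ i₅ : ℕ}
    {t₁ t₂ t₃ t₄ v : ℤ} {c₀ c₁ c₂ c₃ c₄ : ℝ} (h0 : 0 ≤ c₀) (h1 : 0 ≤ c₁) (h2 : 0 ≤ c₂) (h3 : 0 ≤ c₃) (h4 : 0 ≤ c₄)
    (k0 : ∀ x ∈ F0, c₀ ≤ ker w p a i₁ x t₁) (k1 : c₁ ≤ ker w p (a + i₁) i₂ t₁ t₂) (k2 : c₂ ≤ ker w p (a + (i₁ + i₂)) i₃ t₂ t₃)
    (k3 : c₃ ≤ ker w p (a + (i₁ + i₂ + i₃)) i₄ t₃ t₄) (k4 : c₄ ≤ ker w p (a + (i₁ + i₂ + i₃ + i₄)) i₅ t₄ v) :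
    c₀ * c₁ * c₂ * c₃ * c₄ * ∑ x ∈ F0, m x ≤ ms w p a All m (i₁ + i₂ + i₃ + i₄ + i₅) v := by
  have s0 : 0 ≤ ∑ x ∈ F0, m x := sum_nonneg fun x _ => hm x
  have all : ∀ j, (fun r z => All (j + r) z) = (All : ℕ → ℤ → Prop) := fun _ => rfl
  have a0 : c₀ * ∑ x ∈ F0, m x ≤ ms w p a All m i₁ t₁ := by
    have e := ms_expand (w := w) (p := p) (a := a) (A := All) (m := fun x => if x ∈ F0 then m x else 0) (F := F0)
      (fun y hy => if_neg hy) i₁ t₁
    have b := ms_mono (w := w) (p := p) (a := a) (A := All) (A' := All) (m := fun x => if x ∈ F0 then m x else 0) (m' := m)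
      hw hp hm (fun _ _ h => h) (fun y => by
        show (if y ∈ F0 then m y else 0) ≤ m y
        split_ifs
        · exact le_rfl
        · exact hm y) i₁ t₁
    rw [e] at b
    refine le_trans ?_ b
    rw [mul_sum]
    refine sum_le_sum fun x hx => ?_
    simp only [if_pos hx]
    rw [ms_ker, mul_comm]
    exact mul_le_mul_of_nonneg_left (k0 x hx) (hm x)
  have via : ∀ (j i : ℕ) (t y : ℤ), ms w p a All m j t * ker w p (a + j) i t y ≤ ms w p a All m (j + i) y := by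
    intro j i t y
    have := ms_via (w := w) (p := p) (a := a) (A := All) (m := m) hw hp hm j i t y
    rw [all j, ms_ker] at this
    exact this
  have step : ∀ {c d : ℝ} (j i : ℕ) (t y : ℤ), 0 ≤ d → c * ∑ x ∈ F0, m x ≤ ms w p a All m j t → d ≤ ker w p (a + j) i t y →
      c * d * ∑ x ∈ F0, m x ≤ ms w p a All m (j + i) y := by
    intro c d j i t y hd hc hk
    refine le_trans ?_ (via j i t y)
    calc c * d * ∑ x ∈ F0, m x = (c * ∑ x ∈ F0, m x) * d := by ring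
      _ ≤ ms w p a All m j t * d := mul_le_mul_of_nonneg_right hc hd
      _ ≤ _ := mul_le_mul_of_nonneg_left hk (ms_nonneg hw hp hm _ _)
  exact step _ _ _ _ h4 (step _ _ _ _ h3 (step _ _ _ _ h2 (step _ _ _ _ h1 a0 k1) k2) k3) k4

/-- **The hypothesis of `gate` inside the window.** -/
theorem hav (hw : ∀ k y, 0 ≤ w k y) (hp : ∀ k, 0 ≤ p k) (hm : ∀ y, 0 ≤ m y) {V Co TL TR : ℕ → ℤ → Prop} {F : ℕ → Finset ℤ}
    (hV : ∀ j y, V j y ↔ y ∈ F j) {I : Finset ℤ} {i₁ i₂ i₃ i₄ i₅ : ℕ}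
    (hTL : ∀ j, i₁ ≤ j → j ≤ i₁ + i₂ → ∀ x y, TL j x → Co j y → x < y)
    (hTR : ∀ j, i₁ + i₂ + i₃ ≤ j → j ≤ i₁ + i₂ + i₃ + i₄ → ∀ x y, TR j x → Co j y → y < x)
    {U ε : ℝ} (hU0 : 0 ≤ U) (hε : 0 ≤ ε) {π π' : Pa (i₁ + i₂ + i₃ + i₄ + i₅)} (hπ : π ∈ Ps Co I (i₁ + i₂ + i₃ + i₄ + i₅))
    (hπ' : π' ∈ Ps Co I (i₁ + i₂ + i₃ + i₄ + i₅)) {t₁ t₂ t₃ t₄ v : ℤ} {c₀ c₁ c₂ c₃ c₄ : ℝ} (h0 : 0 < c₀) (h1 : 0 < c₁)
    (h2 : 0 < c₂) (h3 : 0 < c₃) (h4 : 0 < c₄)
    (hU1 : ∀ x ∈ F 0, ∑ y ∈ F i₁, ms w p a V (dl x) i₁ y ≤ U)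
    (hU2 : ∀ x ∈ F (i₁ + i₂), ∀ y, ms w p (a + (i₁ + i₂)) (fun r z => V (i₁ + i₂ + r) z) (dl x) (i₃ + i₄ + i₅) y ≤ U)
    (hU3 : ∀ x ∈ F 0, ∑ y ∈ F (i₁ + i₂ + i₃), ms w p a V (dl x) (i₁ + i₂ + i₃) y ≤ U)
    (hU4 : ∀ x ∈ F (i₁ + i₂ + i₃ + i₄), ∀ y, ms w p (a + (i₁ + i₂ + i₃ + i₄))
      (fun r z => V (i₁ + i₂ + i₃ + i₄ + r) z) (dl x) i₅ y ≤ U)
    (hε1 : ∀ x ∈ F i₁, ∑ y ∈ F (i₁ + i₂), ms w p (a + i₁)
      (fun r z => V (i₁ + r) z ∧ ¬ TL (i₁ + r) z ∧ A2 π π' (i₁ + r) z) (dl x) i₂ y ≤ ε)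
    (hε3 : ∀ x ∈ F (i₁ + i₂ + i₃), ∑ y ∈ F (i₁ + i₂ + i₃ + i₄), ms w p (a + (i₁ + i₂ + i₃))
      (fun r z => V (i₁ + i₂ + i₃ + r) z ∧ ¬ TR (i₁ + i₂ + i₃ + r) z ∧ A2 π π' (i₁ + i₂ + i₃ + r) z) (dl x) i₄ y ≤ ε)
    (k0 : ∀ x ∈ F 0, c₀ ≤ ker w p a i₁ x t₁) (k1 : c₁ ≤ ker w p (a + i₁) i₂ t₁ t₂) (k2 : c₂ ≤ ker w p (a + (i₁ + i₂)) i₃ t₂ t₃)
    (k3 : c₃ ≤ ker w p (a + (i₁ + i₂ + i₃)) i₄ t₃ t₄) (k4 : c₄ ≤ ker w p (a + (i₁ + i₂ + i₃ + i₄)) i₅ t₄ v) :
    ms w p a (fun j x => A2 π π' j x ∧ V j x) m (i₁ + i₂ + i₃ + i₄ + i₅) v ≤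
      2 * U ^ 2 * ε / (c₀ * c₁ * c₂ * c₃ * c₄) * ms w p a All m (i₁ + i₂ + i₃ + i₄ + i₅) v := by
  have e1 : i₁ + i₂ + i₃ + i₄ + i₅ - (i₁ + i₂) = i₃ + i₄ + i₅ := by omega
  have e2 : i₁ + i₂ + i₃ + i₄ + i₅ - (i₁ + i₂ + i₃ + i₄) = i₅ := by omega
  have hA := walls (a := a) (w := w) (p := p) (m := m) (j₁ := i₁) (l₁ := i₂) (j₃ := i₁ + i₂ + i₃) (l₃ := i₄)
    hw hp hm hV (by omega) (by omega) hTL hTR hU0 hε hπ hπ' (v := v) hU1 (by rw [e1]; exact hU2) hU3 (by rw [e2]; exact hU4)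
    hε1 hε3
  have hB := route (a := a) (w := w) (p := p) (m := m) hw hp hm h0.le h1.le h2.le h3.le h4.le k0 k1 k2 k3 k4
  have hc : 0 < c₀ * c₁ * c₂ * c₃ * c₄ := by positivity
  refine hA.trans ?_
  rw [div_mul_eq_mul_div, le_div_iff₀ hc]
  have h5 : 0 ≤ 2 * U ^ 2 * ε := by positivity
  calc 2 * (U * ε * U * ∑ x ∈ F 0, m x) * (c₀ * c₁ * c₂ * c₃ * c₄) =
      2 * U ^ 2 * ε * (c₀ * c₁ * c₂ * c₃ * c₄ * ∑ x ∈ F 0, m x) := by ring
    _ ≤ _ := mul_le_mul_of_nonneg_left hB h5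

end

end Pool.Agent.W_7d29a1_C1.Gt66
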