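import Pool.Agent.W_7d29a1_C1.GateX87

/-!
MP_7d29a1_pr, attractor route, [C1] SEP, GATE: the side hypothesis of `avo58`, `gtS58`, `gtT58` from the profile clause of `PR_prof`
(helper37): `bw v · wt v₀ ≤ exp x · (bw v₀ · wt v)` at the two sites `v₀` of the row `a + 5 n`, any real `x`. (helper87)
-/

set_option autoImplicit false

namespace Pool.Agent.W_7d29a1_C1.Gt66

open Finset MeasureTheory Filter Topology
open Pool.Agent.W_7d29a1_F Pool.Agent.W_7d29a1_h4g Pool.Agent.W_7d29a1_H Pool.Agent.W_7d29a1_HS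
open Pool.Agent.W_7d29a1_C1.K91 (wt wt_pos)
open Pool.Agent.W_7d29a1_C1.K91P (fw bw fw_succ fw_nonneg bw_pos)
open Pool.Agent.W_7d29a1_C1.U16 (ker lat16)
open Pool.Agent.W_7d29a1_C1.GL18
open Pool.Agent.W_7d29a1_C1.H75
open Pool.Agent.W_7d29a1_C1.PW58 (lt lat_lt)

noncomputable section

variable {μ : Measure ℝ} {s c C : ℝ} {n₀ : ℕ}

/-- The site `v₀` of the row `a + 5 n` and its place. -/
theorem v0_lat [IsProbabilityMeasure μ] {a n : ℕ} {x₀ : ℤ} {K₂ σ : ℝ} (hσ : σ = 1 ∨ σ = -1) (hK : 0 ≤ K₂ + 8) (w0 : 0 < wd μ s n) :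
    |lt μ s x₀ (5 * n) (ft μ s ((a : ℤ), x₀) n (5 * n) (σ * (K₂ + 8))).2| ≤ (K₂ + 8) * wd μ s n + 1 := by
  have hσ1 : |σ| = 1 := by rcases hσ with rfl | rfl <;> simp
  have f1 := ft_lat (μ := μ) (s := s) ((a : ℤ), x₀) n (5 * n) (σ * (K₂ + 8))
  have ef : ft μ s ((a : ℤ), x₀) n (5 * n) (σ * (K₂ + 8)) =
      (((a + 5 * n : ℕ) : ℤ), (ft μ s ((a : ℤ), x₀) n (5 * n) (σ * (K₂ + 8))).2) := by
    refine Prod.ext ?_ rfl
    show (a : ℤ) + ((5 * n : ℕ) : ℤ) = _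
    push_cast
    rfl
  rw [ef, lat_lt] at f1
  have f2 : |σ * (K₂ + 8) * wd μ s n| = (K₂ + 8) * wd μ s n := by
    rw [abs_mul, abs_mul, hσ1, one_mul, abs_of_nonneg hK, abs_of_pos w0]
  have f3 := abs_le.1 f2.le
  rw [abs_le]
  constructor <;> linarith [f1.1, f1.2, f3.1, f3.2]

/-- **THE SIDE HYPOTHESIS OF `avo58`, `gtS58`, `gtT58`, from the profile clause.** -/
theorem side87P [IsProbabilityMeasure μ] (hin : In μ s c C n₀) {η : Env} {p : ℕ → ℝ} {N a n m : ℕ} {h : ℝ} {x₀ : ℤ} (hp0 : ∀ k, 0 < p k)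
    (hp : ∀ k, a ≤ k → k < a + 5 * n → p k = Real.exp (s + h)) (hN : a + 5 * n ≤ N) (hm : 2 * m ≤ n) (hn : 1 ≤ n)
    (hw : 1 ≤ wd μ s n) {K₁ K₂ Q U x y : ℝ} (hK₀ : 0 ≤ K₁) (hK : K₁ ≤ K₂)
    (hSd : η ∈ Sd18 μ s K₁ K₂ n m ((a : ℤ), x₀) Q) (hUs : η ∈ Us18 μ s c K₂ n m ((a : ℤ), x₀) U)
    {v : ℤ} (hv : |lt μ s x₀ (5 * n) v| ≤ K₁ * wd μ s n)
    (hprof : ∀ v₀ : ℤ, |lt μ s x₀ (5 * n) v₀| ≤ (K₂ + 9) * wd μ s n →
      bw (wt η) p (a + 5 * n) (N - (a + 5 * n)) v * wt η (a + 5 * n) v₀ ≤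
        Real.exp x * (bw (wt η) p (a + 5 * n) (N - (a + 5 * n)) v₀ * wt η (a + 5 * n) v))
    (hh : |h| * ((K₁ + K₂ + 9) * wd μ s n) ≤ y) {e₃ : ℝ}
    (he3 : Real.exp (x + y + (U + Q) * EE μ s n - hc μ s c (2 * n) * ((K₂ - 2 - K₁) * wd μ s n - 1)) ≤ e₃) (i : Fin 3) (z : ℤ)
    (hz : ¬ |lt μ s x₀ (rw3 n m i) z| ≤ (K₂ - 2) * wd μ s n) :
    ker (wt η) p (a + rw3 n m i) (5 * n - rw3 n m i) z v * bw (wt η) p (a + 5 * n) (N - (a + 5 * n)) v ≤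
      e₃ * bw (wt η) p (a + rw3 n m i) (N - (a + rw3 n m i)) z := by
  have w0 : 0 < wd μ s n := by linarith
  have hE := EE_pos (μ := μ) (s := s) n
  have hv' : |lat16 μ s ((a : ℤ), x₀) ((a : ℤ) + ((5 * n : ℕ) : ℤ), v)| ≤ K₁ * wd μ s n := by
    rw [← Nat.cast_add, lat_lt]
    exact hv
  have hz' : ¬ |lat16 μ s ((a : ℤ), x₀) ((a : ℤ) + ((rw3 n m i : ℕ) : ℤ), z)| ≤ (K₂ - 2) * wd μ s n := by
    rw [← Nat.cast_add, lat_lt]
    exact hz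
  have eq : (x + y) / EE μ s n * EE μ s n = x + y := div_mul_cancel₀ _ hE.ne'
  have g := side87Z (μ := μ) (s := s) (η := η) (p := p) (N := N) (a := a) (n := n) (m := m) (h := h) (x₀ := x₀) hp0 hp hN hm hn hin hK
    hSd hUs hv' (qB := (x + y) / EE μ s n) (fun σ hσ => ?_) i z hz'
  · refine g.trans (mul_le_mul_of_nonneg_right ?_ (bw_pos (fun k y => wt_pos η k y) hp0 _ _ _).le)
    refine le_trans (le_of_eq ?_) he3
    congr 1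
    rw [add_mul, add_mul, eq]
    ring
  · have hl0 := v0_lat (μ := μ) (s := s) (a := a) (n := n) (x₀ := x₀) (K₂ := K₂) hσ (by linarith) w0
    obtain ⟨v₀, hv₀⟩ : ∃ v₀, v₀ = (ft μ s ((a : ℤ), x₀) n (5 * n) (σ * (K₂ + 8))).2 := ⟨_, rfl⟩
    rw [← hv₀] at hl0 ⊢
    have hp1 := hprof v₀ (hl0.trans (by nlinarith))
    have hd : |((v - v₀ : ℤ) : ℝ)| ≤ (K₁ + K₂ + 9) * wd μ s n := by
      have e1 : ((v - v₀ : ℤ) : ℝ) = lt μ s x₀ (5 * n) v - lt μ s x₀ (5 * n) v₀ := by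
        unfold lt
        push_cast
        ring
      rw [e1]
      refine (abs_sub _ _).trans ?_
      nlinarith
    have hy : h * ((v - v₀ : ℤ) : ℝ) ≤ y := by
      refine le_trans (le_abs_self _) ?_
      rw [abs_mul]
      exact (mul_le_mul_of_nonneg_left hd (abs_nonneg h)).trans hh
    have k0 : 0 ≤ bw (wt η) p (a + 5 * n) (N - (a + 5 * n)) v * wt η (a + 5 * n) v₀ :=
      mul_nonneg (bw_pos (fun k y => wt_pos η k y) hp0 _ _ _).le (wt_pos η _ _).le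
    rw [eq, add_comm x y, Real.exp_add, mul_assoc]
    exact mul_le_mul (Real.exp_le_exp.2 hy) hp1 k0 (Real.exp_pos _).le

end

end Pool.Agent.W_7d29a1_C1.Gt66
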