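import Mathlib.Probability.Distributions.Gaussian.Real
import Mathlib.MeasureTheory.Integral.Pi
import Mathlib.MeasureTheory.Function.L2Space
import Mathlib.Analysis.SpecialFunctions.Trigonometric.Series
import Mathlib.Analysis.Complex.ExponentialBounds

/-!
MP_7d29a1_pr, attractor route, Gaussian part (helper17): independent Gaussian variables on a finite index type, the density of a
shift (Cameron - Martin), its exact second moments, and the second difference of a function which is Lipschitz in one direction.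
-/

set_option autoImplicit false

namespace Pool.Agent.W_7d29a1_C1

open MeasureTheory ProbabilityTheory Set Finset
open scoped ENNReal NNReal

noncomputable section

variable {ι : Type*} [Fintype ι]

/-- Independent centred Gaussian variables of variance `v`. -/
def gpi (ι : Type*) [Fintype ι] (v : ℝ≥0) : Measure (ι → ℝ) := Measure.pi fun _ => gaussianReal 0 v

instance (v : ℝ≥0) : IsProbabilityMeasure (gpi ι v) := by
  unfold gpi
  infer_instance

/-- The density of the shift by `a`. -/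
def cmd (v : ℝ≥0) (a x : ι → ℝ) : ℝ := Real.exp ((∑ i, a i * x i) / v - (∑ i, a i ^ 2) / (2 * v))

theorem cmd_pos (v : ℝ≥0) (a x : ι → ℝ) : 0 < cmd v a x := Real.exp_pos _

theorem cmd_prod (v : ℝ≥0) (a x : ι → ℝ) :
    cmd v a x = ∏ i, Real.exp (a i / v * x i) * Real.exp (-(a i ^ 2 / (2 * v))) := by
  unfold cmd
  simp_rw [← Real.exp_add]
  rw [← Real.exp_sum, Finset.sum_add_distrib, Finset.sum_neg_distrib]
  congr 1
  rw [Finset.sum_div, Finset.sum_div, ← sub_eq_add_neg]
  congr 1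
  exact Finset.sum_congr rfl fun i _ => by ring

theorem measurable_cmd (v : ℝ≥0) (a : ι → ℝ) : Measurable (cmd v a) := by
  unfold cmd
  fun_prop

/-- One variable. -/
theorem gaussianReal_eq_wd {v : ℝ≥0} (hv : v ≠ 0) (a : ℝ) :
    gaussianReal a v = (gaussianReal 0 v).withDensity fun x =>
      ENNReal.ofReal (Real.exp (a / v * x) * Real.exp (-(a ^ 2 / (2 * v)))) := by
  rw [gaussianReal_of_var_ne_zero _ hv, gaussianReal_of_var_ne_zero _ hv, ← withDensity_mul]
  · congr 1
    funext x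
    simp only [Pi.mul_apply, gaussianPDF]
    rw [← ENNReal.ofReal_mul (gaussianPDFReal_nonneg _ _ _)]
    congr 1
    unfold gaussianPDFReal
    have hv' : (v : ℝ) ≠ 0 := by exact_mod_cast hv
    have e : Real.exp (-(x - a) ^ 2 / (2 * v)) =
        Real.exp (-(x - 0) ^ 2 / (2 * v)) * (Real.exp (a / v * x) * Real.exp (-(a ^ 2 / (2 * v)))) := by
      rw [← Real.exp_add, ← Real.exp_add]
      congr 1
      field_simp
      ring
    rw [e]
    ring
  · exact measurable_gaussianPDF _ _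
  · fun_prop

theorem integrable_exp_lin (v : ℝ≥0) (b k : ℝ) : Integrable (fun x => Real.exp (b * x) * k) (gaussianReal 0 v) :=
  (integrable_exp_mul_gaussianReal b).mul_const k

theorem integrable_cmd (v : ℝ≥0) (a : ι → ℝ) : Integrable (cmd v a) (gpi ι v) := by
  have h : cmd v a = fun x => ∏ i, Real.exp (a i / v * x i) * Real.exp (-(a i ^ 2 / (2 * v))) := by
    funext x
    exact cmd_prod v a x
  rw [h]
  exact Integrable.fintype_prod (f := fun i x => Real.exp (a i / v * x) * Real.exp (-(a i ^ 2 / (2 * v))))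
    fun i => integrable_exp_lin v _ _

/-- The shifted law has the density `cmd v a`. -/
theorem pi_eq_wd {v : ℝ≥0} (hv : v ≠ 0) (a : ι → ℝ) :
    (Measure.pi fun i => gaussianReal (a i) v) = (gpi ι v).withDensity fun x => ENNReal.ofReal (cmd v a x) := by
  refine Measure.pi_eq fun s hs => ?_
  have hm : MeasurableSet (Set.pi univ s) := MeasurableSet.univ_pi hs
  rw [withDensity_apply _ hm, ← ofReal_integral_eq_lintegral_ofReal (integrable_cmd v a).integrableOn
    (ae_of_all _ fun x => (cmd_pos v a x).le), ← integral_indicator hm]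
  have e1 : (Set.pi univ s).indicator (cmd v a) = fun x => ∏ i, (s i).indicator
      (fun y => Real.exp (a i / v * y) * Real.exp (-(a i ^ 2 / (2 * v)))) (x i) := by
    funext x
    by_cases hx : x ∈ Set.pi univ s
    · rw [Set.indicator_of_mem hx, cmd_prod]
      refine Finset.prod_congr rfl fun i _ => ?_
      rw [Set.indicator_of_mem (hx i (mem_univ i))]
    · rw [Set.indicator_of_notMem hx]
      have h2 : ∃ i, x i ∉ s i := by
        by_contra hc
        push Not at hc
        exact hx fun i _ => hc i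
      obtain ⟨i, hi⟩ := h2
      exact (Finset.prod_eq_zero (Finset.mem_univ i) (Set.indicator_of_notMem hi _)).symm
  rw [e1]
  unfold gpi
  rw [integral_fintype_prod_eq_prod (fun i => (s i).indicator
      (fun y => Real.exp (a i / v * y) * Real.exp (-(a i ^ 2 / (2 * v))))), ENNReal.ofReal_prod_of_nonneg]
  · refine Finset.prod_congr rfl fun i _ => ?_
    rw [integral_indicator (hs i), gaussianReal_eq_wd hv (a i), withDensity_apply _ (hs i),
      ofReal_integral_eq_lintegral_ofReal (integrable_exp_lin v _ _).integrableOn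
        (ae_of_all _ fun x => by positivity)]
  · intro i _
    exact integral_nonneg fun x => Set.indicator_nonneg (fun y _ => by positivity) x

theorem gpi_map (v : ℝ≥0) (a : ι → ℝ) :
    (gpi ι v).map (fun x => x + a) = Measure.pi fun i => gaussianReal (a i) v := by
  have h := Measure.pi_map_pi (μ := fun _ : ι => gaussianReal 0 v) (f := fun i x => x + a i)
    (fun i => (measurable_id.add_const (a i)).aemeasurable)
  have e : (fun (x : ι → ℝ) (i : ι) => x i + a i) = fun x => x + a := rfl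
  rw [e] at h
  unfold gpi
  rw [h]
  congr 1
  funext i
  rw [gaussianReal_map_add_const, zero_add]

/-- **Cameron - Martin.** -/
theorem cm17 {v : ℝ≥0} (hv : v ≠ 0) (a : ι → ℝ) (F : (ι → ℝ) → ℝ) :
    ∫ x, F (x + a) ∂(gpi ι v) = ∫ x, F x * cmd v a x ∂(gpi ι v) := by
  have h1 : ∫ y, F y ∂((gpi ι v).map fun x => x + a) = ∫ x, F (x + a) ∂(gpi ι v) :=
    integral_map_equiv (MeasurableEquiv.addRight a) F
  rw [← h1, gpi_map, pi_eq_wd hv, integral_withDensity_eq_integral_toReal_smul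
    (measurable_cmd v a).ennreal_ofReal (ae_of_all _ fun x => ENNReal.ofReal_lt_top)]
  refine integral_congr_ae (ae_of_all _ fun x => ?_)
  simp only [smul_eq_mul]
  rw [ENNReal.toReal_ofReal (cmd_pos v a x).le, mul_comm]

theorem integral_cmd {v : ℝ≥0} (hv : v ≠ 0) (a : ι → ℝ) : ∫ x, cmd v a x ∂(gpi ι v) = 1 := by
  have h := cm17 hv a fun _ => (1 : ℝ)
  simp only [one_mul] at h
  rw [← h]
  simp

theorem cmd_mul (v : ℝ≥0) (a b x : ι → ℝ) :
    cmd v a x * cmd v b x = Real.exp ((∑ i, a i * b i) / v) * cmd v (a + b) x := by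
  unfold cmd
  rw [← Real.exp_add, ← Real.exp_add]
  congr 1
  have e1 : ∑ i, (a + b) i * x i = ∑ i, a i * x i + ∑ i, b i * x i := by
    rw [← Finset.sum_add_distrib]
    exact Finset.sum_congr rfl fun i _ => by simp only [Pi.add_apply]; ring
  have e2 : ∑ i, (a + b) i ^ 2 = ∑ i, a i ^ 2 + ∑ i, b i ^ 2 + 2 * ∑ i, a i * b i := by
    rw [Finset.mul_sum, ← Finset.sum_add_distrib, ← Finset.sum_add_distrib]
    exact Finset.sum_congr rfl fun i _ => by simp only [Pi.add_apply]; ring
  rw [e1, e2]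
  ring

theorem integrable_cmd_mul {v : ℝ≥0} (a b : ι → ℝ) : Integrable (fun x => cmd v a x * cmd v b x) (gpi ι v) := by
  simp_rw [cmd_mul]
  exact (integrable_cmd v _).const_mul _

theorem integral_cmd_mul {v : ℝ≥0} (hv : v ≠ 0) (a b : ι → ℝ) :
    ∫ x, cmd v a x * cmd v b x ∂(gpi ι v) = Real.exp ((∑ i, a i * b i) / v) := by
  simp_rw [cmd_mul]
  rw [integral_const_mul, integral_cmd hv, mul_one]

/-- The second difference of the density, in `L ^ 2`. -/
theorem integral_cmd_sd {v : ℝ≥0} (hv : v ≠ 0) (a : ι → ℝ) {q : ℝ} (hq : q = (∑ i, a i ^ 2) / v) :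
    ∫ x, (cmd v a x + cmd v (-a) x - 2) ^ 2 ∂(gpi ι v) = 4 * (Real.cosh q - 1) := by
  have h1 : (∑ i, a i * a i) / (v : ℝ) = q := by
    rw [hq]
    congr 1
    exact Finset.sum_congr rfl fun i _ => by ring
  have h2 : (∑ i, (-a) i * (-a) i) / (v : ℝ) = q := by
    rw [← h1]
    congr 1
    exact Finset.sum_congr rfl fun i _ => by simp only [Pi.neg_apply]; ring
  have h3 : (∑ i, a i * (-a) i) / (v : ℝ) = -q := by
    rw [← h1, ← neg_div, ← Finset.sum_neg_distrib]
    congr 1
    exact Finset.sum_congr rfl fun i _ => by simp only [Pi.neg_apply]; ring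
  have i1 := integrable_cmd_mul (v := v) a a
  have i2 := integrable_cmd_mul (v := v) (-a) (-a)
  have i3 := integrable_cmd_mul (v := v) a (-a)
  have i4 := integrable_cmd v a
  have i5 := integrable_cmd v (-a)
  have e : (fun x => (cmd v a x + cmd v (-a) x - 2) ^ 2) = fun x =>
      ((((cmd v a x * cmd v a x + cmd v (-a) x * cmd v (-a) x) + 2 * (cmd v a x * cmd v (-a) x)) -
        4 * cmd v a x) - 4 * cmd v (-a) x) + 4 := by
    funext x
    ring
  rw [e, integral_add, integral_sub, integral_sub, integral_add, integral_add, integral_const_mul, integral_const_mul,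
    integral_const_mul, integral_cmd_mul hv, integral_cmd_mul hv, integral_cmd_mul hv, integral_cmd hv, integral_cmd hv,
    h1, h2, h3, Real.cosh_eq]
  · simp only [integral_const, probReal_univ, smul_eq_mul]
    ring
  · exact i1
  · exact i2
  · exact i1.add i2
  · exact i3.const_mul _
  · exact (i1.add i2).add (i3.const_mul _)
  · exact i4.const_mul _
  · exact ((i1.add i2).add (i3.const_mul _)).sub (i4.const_mul _)
  · exact i5.const_mul _
  · exact (((i1.add i2).add (i3.const_mul _)).sub (i4.const_mul _)).sub (i5.const_mul _)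
  · exact integrable_const _

theorem cosh_le17 {q : ℝ} (hq : |q| ≤ 1) : 4 * (Real.cosh q - 1) ≤ 4 * q ^ 2 := by
  have h1 := Real.cosh_le_exp_half_sq q
  have h2 : q ^ 2 ≤ 1 := by
    rw [← sq_abs]
    nlinarith [abs_nonneg q]
  have h3 : Real.exp (q ^ 2 / 2) ≤ 1 + q ^ 2 := by
    have h4 : |q ^ 2 / 2| ≤ 1 := by
      rw [abs_of_nonneg (by positivity)]
      linarith
    have h5 := Real.abs_exp_sub_one_le h4
    rw [abs_of_nonneg (show (0 : ℝ) ≤ q ^ 2 / 2 by positivity)] at h5
    have h6 := le_abs_self (Real.exp (q ^ 2 / 2) - 1)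
    linarith
  linarith

/-- The constant vector. -/
def cst (ι : Type*) (r : ℝ) : ι → ℝ := fun _ => r

/-- `S² ≤ ..` : the second moment of the sum. -/
theorem sq_sum_int {v : ℝ≥0} (hv : v ≠ 0) (hι : 0 < Fintype.card ι) :
    Integrable (fun x : ι → ℝ => (∑ i, x i) ^ 2) (gpi ι v) ∧
      ∫ x, (∑ i, x i) ^ 2 ∂(gpi ι v) ≤ 6 * (Fintype.card ι * v) := by
  have hv' : (0 : ℝ) < v := by exact_mod_cast pos_iff_ne_zero.2 hv
  have hm : (0 : ℝ) < Fintype.card ι := by exact_mod_cast hι
  obtain ⟨m, hmd⟩ : ∃ m : ℝ, m = Fintype.card ι := ⟨_, rfl⟩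
  rw [← hmd] at hm ⊢
  obtain ⟨r, hrd⟩ : ∃ r : ℝ, r = Real.sqrt (2 * v / m) := ⟨_, rfl⟩
  have hr : 0 < r := by
    rw [hrd]
    positivity
  have hr2 : r ^ 2 = 2 * v / m := by
    rw [hrd, Real.sq_sqrt (by positivity)]
  have hsum : ∀ b : ℝ, (∑ i : ι, cst ι b i ^ 2) / (2 * (v : ℝ)) = m * b ^ 2 / (2 * v) := by
    intro b
    unfold cst
    rw [Finset.sum_const, Finset.card_univ, nsmul_eq_mul, hmd]
  have key : ∀ x : ι → ℝ, (∑ i, x i) ^ 2 ≤ (m * v) * Real.exp 1 * (cmd v (cst ι r) x + cmd v (-cst ι r) x) := by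
    intro x
    have e1 : cmd v (cst ι r) x = Real.exp (r * (∑ i, x i) / v) * Real.exp (-1) := by
      unfold cmd
      rw [← Real.exp_add, hsum, hr2]
      congr 1
      unfold cst
      rw [← Finset.mul_sum]
      field_simp
      ring
    have e2 : cmd v (-cst ι r) x = Real.exp (-(r * (∑ i, x i) / v)) * Real.exp (-1) := by
      have h0 : -cst ι r = cst ι (-r) := rfl
      rw [h0]
      unfold cmd
      rw [← Real.exp_add, hsum, neg_sq, hr2]
      congr 1
      unfold cst
      rw [← Finset.mul_sum]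
      field_simp
      ring
    obtain ⟨y, hy⟩ : ∃ y : ℝ, y = r * (∑ i, x i) / v := ⟨_, rfl⟩
    have h3 : y ^ 2 ≤ 2 * (Real.exp y + Real.exp (-y)) := by
      have h4 := Real.quadratic_le_exp_of_nonneg (abs_nonneg y)
      have h5 : Real.exp |y| ≤ Real.exp y + Real.exp (-y) := by
        rcases abs_cases y with h | h
        · rw [h.1]
          linarith [Real.exp_pos (-y)]
        · rw [h.1]
          linarith [Real.exp_pos y]
      have h6 := abs_nonneg y
      rw [sq_abs] at h4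
      nlinarith
    have h7 : (∑ i, x i) ^ 2 = (m * v / 2) * y ^ 2 := by
      have h8 : (∑ i, x i) = y * v / r := by
        rw [hy]
        field_simp
      rw [h8, div_pow, mul_pow, hr2]
      field_simp
    rw [h7, e1, e2, ← hy]
    have h9 : (m * v) * Real.exp 1 * (Real.exp y * Real.exp (-1) + Real.exp (-y) * Real.exp (-1)) =
        (m * v) * (Real.exp y + Real.exp (-y)) * (Real.exp 1 * Real.exp (-1)) := by ring
    rw [h9, ← Real.exp_add, add_neg_cancel, Real.exp_zero, mul_one]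
    have h10 : 0 ≤ m * v / 2 := by positivity
    nlinarith [mul_le_mul_of_nonneg_left h3 h10]
  have hi : Integrable (fun x : ι → ℝ => (m * v) * Real.exp 1 * (cmd v (cst ι r) x + cmd v (-cst ι r) x)) (gpi ι v) :=
    ((integrable_cmd v _).add (integrable_cmd v _)).const_mul _
  have hI : Integrable (fun x : ι → ℝ => (∑ i, x i) ^ 2) (gpi ι v) := by
    refine hi.mono' ?_ (ae_of_all _ fun x => ?_)
    · exact (by fun_prop : Measurable fun x : ι → ℝ => (∑ i, x i) ^ 2).aestronglyMeasurable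
    · rw [Real.norm_eq_abs, abs_of_nonneg (sq_nonneg _)]
      exact key x
  refine ⟨hI, (integral_mono hI hi key).trans ?_⟩
  rw [integral_const_mul, integral_add (integrable_cmd v _) (integrable_cmd v _), integral_cmd hv, integral_cmd hv]
  have h3 := Real.exp_one_lt_d9
  have h4 : 0 < m * v := by positivity
  nlinarith

/-- **Second difference**: if `Φ` moves by at most `K |u|` when all coordinates are shifted by `u`, then the second difference of
`r ↦ E Φ (x + r)` is at most `7 K r ^ 2 (m / v) ^ (1 / 2)`. -/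
theorem sd17 {v : ℝ≥0} (hv : v ≠ 0) (hι : 0 < Fintype.card ι) {Φ : (ι → ℝ) → ℝ} (hΦ : Measurable Φ)
    (hi : Integrable Φ (gpi ι v)) {K : ℝ} (hK : 0 ≤ K) (hL : ∀ x u, |Φ (x + cst ι u) - Φ x| ≤ K * |u|)
    {r : ℝ} (hq : Fintype.card ι * r ^ 2 / v ≤ 1) :
    |∫ x, Φ (x + cst ι r) ∂(gpi ι v) + ∫ x, Φ (x + cst ι (-r)) ∂(gpi ι v) - 2 * ∫ x, Φ x ∂(gpi ι v)| ≤
      7 * K * r ^ 2 * Real.sqrt (Fintype.card ι / v) := by
  have hv' : (0 : ℝ) < v := by exact_mod_cast pos_iff_ne_zero.2 hv
  have hm : (0 : ℝ) < Fintype.card ι := by exact_mod_cast hι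
  obtain ⟨m, hmd⟩ : ∃ m : ℝ, m = Fintype.card ι := ⟨_, rfl⟩
  rw [← hmd] at hm hq ⊢
  obtain ⟨q, hqd⟩ : ∃ q : ℝ, q = m * r ^ 2 / v := ⟨_, rfl⟩
  rw [← hqd] at hq
  have hq0 : 0 ≤ q := by rw [hqd]; positivity
  -- the part which is not invariant
  obtain ⟨S, hS⟩ : ∃ S : (ι → ℝ) → ℝ, S = fun x => ∑ i, x i := ⟨_, rfl⟩
  obtain ⟨Θ, hΘ⟩ : ∃ Θ : (ι → ℝ) → ℝ, Θ = fun x => Φ x - Φ (x - cst ι (S x / m)) := ⟨_, rfl⟩
  have hSm : Measurable S := by rw [hS]; fun_prop
  have hcm : Measurable fun x : ι → ℝ => x - cst ι (S x / m) := by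
    refine measurable_pi_iff.2 fun i => ?_
    show Measurable fun x : ι → ℝ => x i - S x / m
    exact (measurable_pi_apply i).sub (hSm.div_const m)
  have hΘm : Measurable Θ := by
    rw [hΘ]
    exact hΦ.sub (hΦ.comp hcm)
  have hSadd : ∀ x u, S (x + cst ι u) = S x + m * u := by
    intro x u
    rw [hS]
    simp only [Pi.add_apply, cst]
    rw [Finset.sum_add_distrib, Finset.sum_const, Finset.card_univ, nsmul_eq_mul, hmd]
  have hinv : ∀ x u, (x + cst ι u) - cst ι (S (x + cst ι u) / m) = x - cst ι (S x / m) := by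
    intro x u
    funext i
    simp only [Pi.sub_apply, Pi.add_apply, cst]
    rw [hSadd]
    field_simp
    ring
  have hΘb : ∀ x, |Θ x| ≤ K / m * |S x| := by
    intro x
    have h1 := hL (x - cst ι (S x / m)) (S x / m)
    rw [sub_add_cancel, abs_div, abs_of_pos hm] at h1
    rw [hΘ]
    calc |Φ x - Φ (x - cst ι (S x / m))| ≤ K * (|S x| / m) := h1
      _ = K / m * |S x| := by ring
  obtain ⟨hS1, hS2⟩ := sq_sum_int (ι := ι) hv hι
  have hS1' : Integrable (fun x => S x ^ 2) (gpi ι v) := by rw [hS]; exact hS1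
  have hS2' : ∫ x, S x ^ 2 ∂(gpi ι v) ≤ 6 * (m * v) := by rw [hS, hmd]; exact hS2
  have hSq : ∀ x, Θ x ^ 2 ≤ (K / m) ^ 2 * S x ^ 2 := by
    intro x
    rw [← sq_abs (Θ x), ← sq_abs (S x), ← mul_pow]
    exact pow_le_pow_left₀ (abs_nonneg _) (hΘb x) 2
  have hΘ2 : Integrable (fun x => Θ x ^ 2) (gpi ι v) :=
    (hS1'.const_mul ((K / m) ^ 2)).mono' (hΘm.pow_const 2).aestronglyMeasurable
      (ae_of_all _ fun x => by rw [Real.norm_eq_abs, abs_of_nonneg (sq_nonneg _)]; exact hSq x)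
  have hΘI2 : ∫ x, Θ x ^ 2 ∂(gpi ι v) ≤ 6 * K ^ 2 * (v / m) := by
    calc ∫ x, Θ x ^ 2 ∂(gpi ι v) ≤ ∫ x, (K / m) ^ 2 * S x ^ 2 ∂(gpi ι v) := integral_mono hΘ2 (hS1'.const_mul _) hSq
      _ = (K / m) ^ 2 * ∫ x, S x ^ 2 ∂(gpi ι v) := integral_const_mul _ _
      _ ≤ (K / m) ^ 2 * (6 * (m * v)) := mul_le_mul_of_nonneg_left hS2' (sq_nonneg _)
      _ = 6 * K ^ 2 * (v / m) := by field_simp
  have hΘ1 : Integrable Θ (gpi ι v) := by
    refine ((integrable_const (1 : ℝ)).add hΘ2).mono' hΘm.aestronglyMeasurable (ae_of_all _ fun x => ?_)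
    rw [Real.norm_eq_abs]
    have h1 := sq_abs (Θ x)
    have h2 : |Θ x| ≤ 1 + Θ x ^ 2 := by nlinarith [sq_nonneg (|Θ x| - 1), abs_nonneg (Θ x)]
    exact h2
  -- the three integrals
  have hshift : ∀ u : ℝ, Integrable (fun x => Φ (x + cst ι u)) (gpi ι v) := by
    intro u
    have h1 : Integrable (fun x => Φ (x + cst ι u) - Φ x) (gpi ι v) := by
      refine (integrable_const (K * |u|)).mono' ?_ (ae_of_all _ fun x => ?_)
      · exact ((hΦ.comp (measurable_id.add_const _)).sub hΦ).aestronglyMeasurable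
      · rw [Real.norm_eq_abs]
        exact hL x u
    have h2 := h1.add hi
    refine h2.congr (ae_of_all _ fun x => ?_)
    simp
  have hΨ : Integrable (fun x => Φ (x - cst ι (S x / m))) (gpi ι v) := by
    have h2 := hi.sub hΘ1
    refine h2.congr (ae_of_all _ fun x => ?_)
    rw [hΘ]
    simp
  have hone : ∀ u : ℝ, ∫ x, Φ (x + cst ι u) ∂(gpi ι v) - ∫ x, Φ (x - cst ι (S x / m)) ∂(gpi ι v) =
      ∫ x, Θ x * cmd v (cst ι u) x ∂(gpi ι v) := by
    intro u
    rw [← cm17 hv, ← integral_sub (hshift u) hΨ]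
    refine integral_congr_ae (ae_of_all _ fun x => ?_)
    rw [hΘ]
    simp only
    rw [hinv]
  have hzero : ∫ x, Φ x ∂(gpi ι v) - ∫ x, Φ (x - cst ι (S x / m)) ∂(gpi ι v) = ∫ x, Θ x ∂(gpi ι v) := by
    rw [← integral_sub hi hΨ, hΘ]
  obtain ⟨D, hD⟩ : ∃ D : (ι → ℝ) → ℝ, D = fun x => cmd v (cst ι r) x + cmd v (-cst ι r) x - 2 := ⟨_, rfl⟩
  have hprod : ∀ a : ι → ℝ, Integrable (fun x => Θ x * cmd v a x) (gpi ι v) := by
    intro a
    refine (hΘ2.add (integrable_cmd_mul (v := v) a a)).mono' (hΘm.mul (measurable_cmd v a)).aestronglyMeasurable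
      (ae_of_all _ fun x => ?_)
    rw [Real.norm_eq_abs, abs_mul, abs_of_pos (cmd_pos v a x)]
    have h1 := sq_abs (Θ x)
    have h2 : |Θ x| * cmd v a x ≤ Θ x ^ 2 + cmd v a x * cmd v a x := by
      nlinarith [sq_nonneg (|Θ x| - cmd v a x), sq_nonneg (|Θ x|), sq_nonneg (cmd v a x)]
    exact h2
  have hneg : cst ι (-r) = -cst ι r := rfl
  have hall : ∫ x, Φ (x + cst ι r) ∂(gpi ι v) + ∫ x, Φ (x + cst ι (-r)) ∂(gpi ι v) - 2 * ∫ x, Φ x ∂(gpi ι v) =
      ∫ x, Θ x * D x ∂(gpi ι v) := by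
    have h1 := hone r
    have h2 := hone (-r)
    rw [hneg] at h2 ⊢
    have h3 : ∫ x, Θ x * D x ∂(gpi ι v) = ∫ x, Θ x * cmd v (cst ι r) x ∂(gpi ι v) +
        ∫ x, Θ x * cmd v (-cst ι r) x ∂(gpi ι v) - 2 * ∫ x, Θ x ∂(gpi ι v) := by
      have i1 : Integrable (fun x => Θ x * cmd v (cst ι r) x + Θ x * cmd v (-cst ι r) x) (gpi ι v) := (hprod _).add (hprod _)
      rw [← integral_const_mul, ← integral_add (hprod _) (hprod _), ← integral_sub i1 (hΘ1.const_mul 2)]
      refine integral_congr_ae (ae_of_all _ fun x => ?_)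
      rw [hD]
      simp only
      ring
    rw [h3, ← h1, ← h2, ← hzero]
    ring
  have hsq : (∑ i : ι, cst ι r i ^ 2) / (v : ℝ) = q := by
    unfold cst
    rw [Finset.sum_const, Finset.card_univ, nsmul_eq_mul, hqd, hmd]
  have hD2 : ∫ x, D x ^ 2 ∂(gpi ι v) ≤ 4 * q ^ 2 := by
    rw [hD, integral_cmd_sd hv (cst ι r) hsq.symm]
    exact cosh_le17 (by rw [abs_of_nonneg hq0]; exact hq)
  have hD2i : Integrable (fun x => D x ^ 2) (gpi ι v) := by
    have e : (fun x => D x ^ 2) = fun x => ((((cmd v (cst ι r) x * cmd v (cst ι r) x + cmd v (-cst ι r) x * cmd v (-cst ι r) x) +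
        2 * (cmd v (cst ι r) x * cmd v (-cst ι r) x)) - 4 * cmd v (cst ι r) x) - 4 * cmd v (-cst ι r) x) + 4 := by
      funext x
      rw [hD]
      ring
    rw [e]
    exact (((((integrable_cmd_mul _ _).add (integrable_cmd_mul _ _)).add ((integrable_cmd_mul _ _).const_mul _)).sub
      ((integrable_cmd v _).const_mul _)).sub ((integrable_cmd v _).const_mul _)).add (integrable_const _)
  rw [hall]
  rcases eq_or_lt_of_le hK with hK0 | hK0
  · have : ∀ x, Θ x = 0 := by
      intro x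
      have h1 := hΘb x
      rw [← hK0, zero_div, zero_mul] at h1
      exact abs_eq_zero.1 (le_antisymm h1 (abs_nonneg _))
    simp only [this, zero_mul, integral_zero, abs_zero]
    positivity
  rcases eq_or_lt_of_le hq0 with hq1 | hq1
  · have hr0 : r = 0 := by
      rw [hqd] at hq1
      have h1 : m * r ^ 2 = 0 := by
        field_simp at hq1
        linarith
      rcases mul_eq_zero.1 h1 with h | h
      · exact absurd h hm.ne'
      · exact pow_eq_zero_iff (two_ne_zero) |>.1 h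
    have h2 : ∀ x, D x = 0 := by
      intro x
      rw [hD, hr0]
      have h3 : cst ι (0 : ℝ) = 0 := rfl
      simp only [h3, neg_zero]
      have h4 : cmd v (0 : ι → ℝ) x = 1 := by
        unfold cmd
        simp
      rw [h4]
      norm_num
    simp only [h2, mul_zero, integral_zero, abs_zero]
    positivity
  obtain ⟨c, hc⟩ : ∃ c : ℝ, c = 2 * q * Real.sqrt (m / v) / K := ⟨_, rfl⟩
  have hsr : 0 < Real.sqrt (m / v) := by positivity
  have hc0 : 0 < c := by rw [hc]; positivity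
  have hAM : ∀ x, |Θ x * D x| ≤ c / 2 * Θ x ^ 2 + 1 / (2 * c) * D x ^ 2 := by
    intro x
    rw [abs_mul]
    have h1 := sq_nonneg (c * |Θ x| - |D x|)
    have h2 := sq_abs (Θ x)
    have h3 := sq_abs (D x)
    have h4 : 2 * c * (|Θ x| * |D x|) ≤ c ^ 2 * Θ x ^ 2 + D x ^ 2 := by nlinarith
    have h5 : c / 2 * Θ x ^ 2 + 1 / (2 * c) * D x ^ 2 = (c ^ 2 * Θ x ^ 2 + D x ^ 2) / (2 * c) := by
      field_simp
    rw [h5, le_div_iff₀ (by positivity)]
    linarith
  have hfin : ∫ x, |Θ x * D x| ∂(gpi ι v) ≤ c / 2 * ∫ x, Θ x ^ 2 ∂(gpi ι v) + 1 / (2 * c) * ∫ x, D x ^ 2 ∂(gpi ι v) := by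
    rw [← integral_const_mul, ← integral_const_mul, ← integral_add (hΘ2.const_mul _) (hD2i.const_mul _)]
    exact integral_mono_of_nonneg (ae_of_all _ fun x => abs_nonneg _) ((hΘ2.const_mul _).add (hD2i.const_mul _))
      (ae_of_all _ hAM)
  have hs1 : Real.sqrt (m / v) ^ 2 = m / v := Real.sq_sqrt (by positivity)
  have hqs : q = r ^ 2 * Real.sqrt (m / v) ^ 2 := by
    rw [hs1, hqd]
    ring
  calc |∫ x, Θ x * D x ∂(gpi ι v)| ≤ ∫ x, |Θ x * D x| ∂(gpi ι v) := abs_integral_le_integral_abs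
    _ ≤ c / 2 * ∫ x, Θ x ^ 2 ∂(gpi ι v) + 1 / (2 * c) * ∫ x, D x ^ 2 ∂(gpi ι v) := hfin
    _ ≤ c / 2 * (6 * K ^ 2 * (v / m)) + 1 / (2 * c) * (4 * q ^ 2) := by
        gcongr
    _ = 7 * K * r ^ 2 * Real.sqrt (m / v) := by
        have h1 : (v : ℝ) / m = 1 / Real.sqrt (m / v) ^ 2 := by
          rw [hs1]
          field_simp
        rw [h1, hc]
        have h2 : (2 * q * Real.sqrt (m / v) / K) / 2 * (6 * K ^ 2 * (1 / Real.sqrt (m / v) ^ 2)) +
            1 / (2 * (2 * q * Real.sqrt (m / v) / K)) * (4 * q ^ 2) = 7 * K * q / Real.sqrt (m / v) := by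
          field_simp
          ring
        rw [h2, hqs]
        field_simp

end

end Pool.Agent.W_7d29a1_C1
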