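import Pool.Agent.W_7d29a1_C1.VTa31
import Pool.Agent.W_7d29a1_C1.NsG94
import Pool.Agent.W_7d29a1_C1.ShlL51

/-!
MP_7d29a1_pr, attractor route [C1], SHELL: THE GOOD SCALES OF `Td51` GIVE THE FACTS WHICH `vt31` READS (helper27).

`Un27`: the scales which are not tame (local regularity, levels, steepness), all shifts inside. `gd27`: `GdS31` at a good scale `v`.
`us27`: from the hypotheses of `Td51.det` to those of `vt31`: the ball `o = u + m0 + 1`, the early meetings, a good scale in every shell.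
`cn27`: the count of `Un27` from the counts of its parts. `sl27`: the slack is below the threshold after `m0` is raised.
`gT27`, `gw27`, `gv27`: the geometry of the separation in the letters of the frame.

Order of the constants: `k`, `η`, `A` | `mb` (`sl27`) | everything else is given.
-/

set_option autoImplicit false

namespace Pool.Agent.W_7d29a1_C1.Gd27

open MeasureTheory Finset Filter Topology
open Pool.Agent.W_7d29a1_F Pool.Agent.W_7d29a1_h4g Pool.Agent.W_7d29a1_H Pool.Agent.W_7d29a1_HS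
open Pool.Agent.W_7d29a1_C1.T10 (Gd Tg Hg GW)
open Pool.Agent.W_7d29a1_C1.H60
open Pool.Agent.W_7d29a1_C1.H40 (Tk)
open Pool.Agent.W_7d29a1_C1.H49 (cnt ex em ex_mono)
open Pool.Agent.W_7d29a1_C1.G37 (Gm Wok gmW)
open Pool.Agent.W_7d29a1_C1.N49 (thN slN bN)
open Pool.Agent.W_7d29a1_C1.SF98 (XS FS wS up p98)
open Pool.Agent.W_7d29a1_C1.SD53 (XX bx)
open Pool.Agent.W_7d29a1_C1.FA25 (Av)
open Pool.Agent.W_7d29a1_C1.O22 (Ste)
open Pool.Agent.W_7d29a1_C1.NS94 (NS)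
open Pool.Agent.W_7d29a1_C1.D31 (TM31 GdS31)
open Pool.Agent.W_7d29a1_C1.Nu51
open scoped ENNReal

noncomputable section

/-! ### The event of the scales which are not tame -/

/-- **THE SCALE `u` IS NOT TAME** for the contact `c`: local regularity at `u + 1` and at `u + m0 + 1`, levels at the slabs `u - 1`, `u`,
`u + m0 - 1`, `u + m0`, steepness at `u`. -/
def Un27 (μ : Measure ℝ) (s : ℝ) (c θ Kw : ℝ) (P : ℕ) (Γ : Cx) (GS : Gm) (th : ℕ → ℕ → ℝ) (m0 τ₀ : ℕ) (G : Gd) (h₀ Kg Lg Lm : ℕ)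
    (y : ℕ → ℝ) (Mt : ℕ) (K₁ A Φ σ₁ : ℝ) (u : ℕ) (x : ℕ × ℤ) : Set Env :=
  {ω | ¬ (TM31 μ s Γ G (Tg h₀ Kg) Mt K₁ A Φ σ₁ (u + 1) x ω ∧ TM31 μ s Γ G (Tg h₀ Kg) Mt K₁ A Φ σ₁ (u + m0 + 1) x ω ∧
    ω ∉ Rch (lvL G (LvE Lm (EL60 μ s c θ Kw P (Tg h₀ Kg) y)) Lg) (u - 1) x ∧
    ω ∉ Rch (lvL G (LvE Lm (EL60 μ s c θ Kw P (Tg h₀ Kg) y)) Lg) u x ∧
    ω ∉ Rch (lvL G (LvE Lm (EL60 μ s c θ Kw P (Tg h₀ Kg) y)) Lg) (u + m0 - 1) x ∧
    ω ∉ Rch (lvL G (LvE Lm (EL60 μ s c θ Kw P (Tg h₀ Kg) y)) Lg) (u + m0) x ∧ ω ∈ NS Γ GS th m0 τ₀ u x)}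

variable {μ : Measure ℝ} {s c θ Kw : ℝ} {P : ℕ} {k : SC51} {T0 : ℕ} {hW : Wok μ s T0 k.K} {M : ℕ} {Γ : Cx} {G : Gd} {h₀ Kg Lg Lm : ℕ}
  {y : ℕ → ℝ} {Mt : ℕ} {K₁ A Φ σ₁ : ℝ} {Un : ℕ → ℕ × ℤ → Set Env} {x : XS Γ (k.G hW M) (M + k.J)} {ω : Env}

/-- **`GdS31` AT A GOOD SCALE.** -/
theorem gd27 {v κk : ℕ} {κv : ℝ} (h : Gd51 μ s k hW M Γ Un x v ω) (h1 : v + k.m0 ≤ κk) (h2 : κk ≤ M)
    (hκ1 : κv ≤ k.th μ s T0 v κk + k.sl μ s T0 k.τ₀) (hκ2 : κv ≤ 2 * k.th μ s T0 v κk)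
    (htm : TM31 μ s Γ G (Tg h₀ Kg) Mt K₁ A Φ σ₁ (v + 1) x.1 ω)
    (hr1 : ω ∉ Rch (lvL G (LvE Lm (EL60 μ s c θ Kw P (Tg h₀ Kg) y)) Lg) (v - 1) x.1)
    (hr2 : ω ∉ Rch (lvL G (LvE Lm (EL60 μ s c θ Kw P (Tg h₀ Kg) y)) Lg) v x.1)
    (hns : ω ∈ NS Γ (k.G hW M) (k.th μ s T0) k.m0 k.τ₀ v x.1) :
    GdS31 μ s c θ Kw P Γ (k.G hW M) G h₀ Kg Lg Lm y Mt K₁ A Φ σ₁ k.τ₀ v κk κv (up x) ω := by
  obtain ⟨_, _, _, h4⟩ := h
  refine ⟨htm, hr1, hr2, (h4 κk h1 h2).2.trans_le (ex_mono (by linarith)), fun r hr hrN => ?_⟩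
  have h5 := hns κk h1 h2 (r : ℤ) hr (by exact_mod_cast hrN)
  rw [Int.toNat_natCast] at h5
  exact h5.mono (Set.Subset.refl _) (Finset.Subset.refl _) (Real.exp_le_exp.2 (by linarith))

/-- **FROM `Td51.det` TO `vt31`**: `u` and one scale in every shell `l₀ ≤ l ≤ lm` are good. -/
theorem us27 {u l₀ l₁ lm : ℕ} {κv : ℕ → ℝ} {κ₀ : ℝ}
    (hu : Gd51 μ s k hW M Γ (Un27 μ s c θ Kw P Γ (k.G hW M) (k.th μ s T0) k.m0 k.τ₀ G h₀ Kg Lg Lm y Mt K₁ A Φ σ₁) x u ω)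
    (hl : ∀ l, l₀ ≤ l → l ≤ lm → ∃ j, Gd51 μ s k hW M Γ
      (Un27 μ s c θ Kw P Γ (k.G hW M) (k.th μ s T0) k.m0 k.τ₀ G h₀ Kg Lg Lm y Mt K₁ A Φ σ₁) x j ω ∧ u + (l - 1) / 2 ≤ j ∧ j + 2 ≤ u + l)
    (h01 : l₀ ≤ l₁) (h1 : 2 * k.m0 + 5 ≤ l₁) (hM : u + lm + k.m0 ≤ M + 2) (huM : u + k.m0 ≤ M)
    (hκ1 : ∀ v, u ≤ v → v + 2 ≤ u + lm → κv v ≤ k.th μ s T0 v (v + k.m0) + k.sl μ s T0 k.τ₀)
    (hκ2 : ∀ v, u ≤ v → v + 2 ≤ u + lm → κv v ≤ 2 * k.th μ s T0 v (v + k.m0))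
    (hκ₀ : κ₀ ≤ k.th μ s T0 u (u + k.m0) + k.sl μ s T0 k.τ₀) :
    TM31 μ s Γ G (Tg h₀ Kg) Mt K₁ A Φ σ₁ (u + k.m0 + 1) x.1 ω ∧
    ω ∉ Rch (lvL G (LvE Lm (EL60 μ s c θ Kw P (Tg h₀ Kg) y)) Lg) (u + k.m0 + 1 - 2) x.1 ∧
    ω ∉ Rch (lvL G (LvE Lm (EL60 μ s c θ Kw P (Tg h₀ Kg) y)) Lg) (u + k.m0 + 1 - 1) x.1 ∧
    em (SD53.row Γ) (SD53.w Γ) ((k.G hW M).dk (u + k.m0) k.τ₀) (up x) ω < ex (-κ₀) ∧
    ∀ l, l₁ ≤ l → l ≤ lm → ∃ v, u + k.m0 + 1 + 1 ≤ v ∧ u + (l - 1) / 2 ≤ v ∧ v + 2 ≤ u + l ∧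
      GdS31 μ s c θ Kw P Γ (k.G hW M) G h₀ Kg Lg Lm y Mt K₁ A Φ σ₁ k.τ₀ v (v + k.m0) (κv v) (up x) ω := by
  obtain ⟨_, _, h3, h4⟩ := hu
  have h5 : _ ∧ _ := not_not.1 h3
  obtain ⟨_, t2, _, _, r3, r4, _⟩ := h5
  refine ⟨t2, ?_, ?_, (h4 (u + k.m0) le_rfl huM).1.trans_le (ex_mono (by linarith)), fun l hl1 hl2 => ?_⟩
  · rw [show u + k.m0 + 1 - 2 = u + k.m0 - 1 by omega]
    exact r3
  · rw [show u + k.m0 + 1 - 1 = u + k.m0 by omega]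
    exact r4
  · obtain ⟨v, g1, g2, g3⟩ := hl l (h01.trans hl1) hl2
    have g4 := g1.2.2.1
    have g5 : _ ∧ _ := not_not.1 g4
    obtain ⟨t1, _, r1, r2, _, _, ns⟩ := g5
    have hv : u + (k.m0 + 2) ≤ v := by omega
    exact ⟨v, by omega, g2, g3, gd27 g1 le_rfl (by omega) (hκ1 v (by omega) (by omega)) (hκ2 v (by omega) (by omega)) t1 r1 r2 ns⟩

/-! ### The count -/

/-- The count of a family of sets with a shift. -/
theorem sh27 {U : ℕ → Prop} {M : ℕ} {b : ℝ} (hU : ∀ F : Finset ℕ, F ⊆ range (M + 1) → (∀ u ∈ F, U u) → (F.card : ℝ) ≤ b) (a : ℕ)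
    (F : Finset ℕ) (hF : F ⊆ range (M + 1)) (h : ∀ u ∈ F, U (u + a)) : (F.card : ℝ) ≤ b + a := by
  classical
  have h1 : (F.filter fun u => u + a ≤ M).card = ((F.filter fun u => u + a ≤ M).image fun u => u + a).card :=
    (card_image_of_injective _ fun _ _ h => by simpa using h).symm
  have h2 := hU ((F.filter fun u => u + a ≤ M).image fun u => u + a) (fun w hw => by
      obtain ⟨u, hu, rfl⟩ := mem_image.1 hw
      rw [mem_filter] at hu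
      exact mem_range.2 (by omega)) (fun w hw => by
      obtain ⟨u, hu, rfl⟩ := mem_image.1 hw
      rw [mem_filter] at hu
      exact h u hu.1)
  have h3 : (F.filter fun u => ¬ u + a ≤ M) ⊆ Finset.Icc (M + 1 - a) M := by
    intro u hu
    rw [mem_filter] at hu
    have h4 := mem_range.1 (hF hu.1)
    rw [Finset.mem_Icc]
    omega
  have h4 := card_le_card h3
  rw [Nat.card_Icc] at h4
  have h5 := Finset.card_filter_add_card_filter_not (s := F) (fun u => u + a ≤ M)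
  have h6 : (F.filter fun u => ¬ u + a ≤ M).card ≤ a := by omega
  have h7 : ((F.filter fun u => u + a ≤ M).card : ℝ) + ((F.filter fun u => ¬ u + a ≤ M).card : ℝ) = F.card := by exact_mod_cast h5
  have h8 : ((F.filter fun u => ¬ u + a ≤ M).card : ℝ) ≤ a := by exact_mod_cast h6
  rw [← h1] at h2
  linarith

/-- The same with a shift downwards: `u - 1`. -/
theorem sd27 {U : ℕ → Prop} {M : ℕ} {b : ℝ} (hU : ∀ F : Finset ℕ, F ⊆ range (M + 1) → (∀ u ∈ F, U u) → (F.card : ℝ) ≤ b)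
    (F : Finset ℕ) (hF : F ⊆ range (M + 1)) (h : ∀ u ∈ F, U (u - 1)) : (F.card : ℝ) ≤ b + 1 := by
  classical
  have h1 : ((F.filter fun u => 1 ≤ u).image fun u => u - 1).card = (F.filter fun u => 1 ≤ u).card := by
    refine card_image_of_injOn fun a ha b' hb hab => ?_
    have ha' := (mem_filter.1 (Finset.mem_coe.1 ha)).2
    have hb' := (mem_filter.1 (Finset.mem_coe.1 hb)).2
    have : a - 1 = b' - 1 := hab
    omega
  have h2 := hU ((F.filter fun u => 1 ≤ u).image fun u => u - 1) (fun w hw => by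
      obtain ⟨u, hu, rfl⟩ := mem_image.1 hw
      rw [mem_filter] at hu
      have := mem_range.1 (hF hu.1)
      exact mem_range.2 (by omega)) (fun w hw => by
      obtain ⟨u, hu, rfl⟩ := mem_image.1 hw
      rw [mem_filter] at hu
      exact h u hu.1)
  have h3 : (F.filter fun u => ¬ 1 ≤ u) ⊆ {0} := by
    intro u hu
    rw [mem_filter] at hu
    rw [mem_singleton]
    omega
  have h4 := card_le_card h3
  rw [card_singleton] at h4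
  have h5 := Finset.card_filter_add_card_filter_not (s := F) (fun u => 1 ≤ u)
  have h7 : ((F.filter fun u => 1 ≤ u).card : ℝ) + ((F.filter fun u => ¬ 1 ≤ u).card : ℝ) = F.card := by exact_mod_cast h5
  have h8 : ((F.filter fun u => ¬ 1 ≤ u).card : ℝ) ≤ 1 := by exact_mod_cast h4
  rw [h1] at h2
  linarith

/-- **THE COUNT OF `Un27`** from the count `b₁` of the scales without local regularity or steepness and the count `b₂` of the reached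
scales. -/
theorem cn27 {GS : Gm} {th : ℕ → ℕ → ℝ} {m0 τ₀ : ℕ} {c' : ℕ × ℤ} {b₁ b₂ : ℝ} (hm0 : 1 ≤ m0)
    (h1 : ∀ F : Finset ℕ, F ⊆ range (M + 1) → (∀ b ∈ F, ¬ (TM31 μ s Γ G (Tg h₀ Kg) Mt K₁ A Φ σ₁ b c' ω ∧ ω ∈ NS Γ GS th m0 τ₀ b c')) →
      (F.card : ℝ) ≤ b₁)
    (h2 : ∀ F : Finset ℕ, F ⊆ range (M + 1) → (∀ b ∈ F, ω ∈ Rch (lvL G (LvE Lm (EL60 μ s c θ Kw P (Tg h₀ Kg) y)) Lg) (b - 2) c') →
      (F.card : ℝ) ≤ b₂)
    (F : Finset ℕ) (hF : F ⊆ range (M + 1))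
    (h : ∀ u ∈ F, ω ∈ Un27 μ s c θ Kw P Γ GS th m0 τ₀ G h₀ Kg Lg Lm y Mt K₁ A Φ σ₁ u c') :
    (F.card : ℝ) ≤ 3 * b₁ + 4 * b₂ + (3 * m0 + 8) := by
  classical
  obtain ⟨T1, hT1⟩ : ∃ T1 : ℕ → Prop, T1 = fun b => ¬ (TM31 μ s Γ G (Tg h₀ Kg) Mt K₁ A Φ σ₁ b c' ω ∧ ω ∈ NS Γ GS th m0 τ₀ b c') :=
    ⟨_, rfl⟩
  obtain ⟨T2, hT2⟩ : ∃ T2 : ℕ → Prop, T2 = fun b => ω ∈ Rch (lvL G (LvE Lm (EL60 μ s c θ Kw P (Tg h₀ Kg) y)) Lg) (b - 2) c' := ⟨_, rfl⟩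
  have H1 : ∀ F : Finset ℕ, F ⊆ range (M + 1) → (∀ u ∈ F, T1 u) → (F.card : ℝ) ≤ b₁ := by rw [hT1]; exact h1
  have H2 : ∀ F : Finset ℕ, F ⊆ range (M + 1) → (∀ u ∈ F, T2 u) → (F.card : ℝ) ≤ b₂ := by rw [hT2]; exact h2
  have key : ∀ u ∈ F, (T1 (u + 1) ∨ T1 (u + (m0 + 1)) ∨ T1 (u + 0)) ∨ (T2 (u + 1) ∨ T2 (u + 2) ∨ T2 (u + (m0 + 1)) ∨ T2 (u + (m0 + 2))) := by
    intro u hu
    have h3 := h u hu
    by_contra hcon
    push Not at hcon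
    obtain ⟨⟨a1, a2, a3⟩, a4, a5, a6, a7⟩ := hcon
    rw [hT1] at a1 a2 a3
    rw [hT2] at a4 a5 a6 a7
    simp only [not_not] at a1 a2 a3
    refine h3 ⟨a1.1, ?_, ?_, ?_, ?_, ?_, a3.2⟩
    · rw [show u + m0 + 1 = u + (m0 + 1) by omega]
      exact a2.1
    · rw [show u - 1 = u + 1 - 2 by omega]
      exact a4
    · have a8 := a5
      simp only [Nat.add_sub_cancel] at a8
      exact a8
    · rw [show u + m0 - 1 = u + (m0 + 1) - 2 by omega]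
      exact a6
    · rw [show u + m0 = u + (m0 + 2) - 2 by omega]
      exact a7
  have hs : F ⊆ ((F.filter fun u => T1 (u + 1)) ∪ ((F.filter fun u => T1 (u + (m0 + 1))) ∪ (F.filter fun u => T1 (u + 0)))) ∪
      ((F.filter fun u => T2 (u + 1)) ∪ ((F.filter fun u => T2 (u + 2)) ∪ ((F.filter fun u => T2 (u + (m0 + 1))) ∪
        (F.filter fun u => T2 (u + (m0 + 2)))))) := by
    intro u hu
    simp only [mem_union, mem_filter]
    rcases key u hu with (h1 | h1 | h1) | (h1 | h1 | h1 | h1)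
    · exact Or.inl (Or.inl ⟨hu, h1⟩)
    · exact Or.inl (Or.inr (Or.inl ⟨hu, h1⟩))
    · exact Or.inl (Or.inr (Or.inr ⟨hu, h1⟩))
    · exact Or.inr (Or.inl ⟨hu, h1⟩)
    · exact Or.inr (Or.inr (Or.inl ⟨hu, h1⟩))
    · exact Or.inr (Or.inr (Or.inr (Or.inl ⟨hu, h1⟩)))
    · exact Or.inr (Or.inr (Or.inr (Or.inr ⟨hu, h1⟩)))
  have hc := card_le_card hs
  have e1 := card_union_le ((F.filter fun u => T1 (u + 1)) ∪ ((F.filter fun u => T1 (u + (m0 + 1))) ∪ (F.filter fun u => T1 (u + 0))))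
    ((F.filter fun u => T2 (u + 1)) ∪ ((F.filter fun u => T2 (u + 2)) ∪ ((F.filter fun u => T2 (u + (m0 + 1))) ∪
        (F.filter fun u => T2 (u + (m0 + 2))))))
  have e2 := card_union_le (F.filter fun u => T1 (u + 1)) ((F.filter fun u => T1 (u + (m0 + 1))) ∪ (F.filter fun u => T1 (u + 0)))
  have e3 := card_union_le (F.filter fun u => T1 (u + (m0 + 1))) (F.filter fun u => T1 (u + 0))
  have e4 := card_union_le (F.filter fun u => T2 (u + 1)) ((F.filter fun u => T2 (u + 2)) ∪ ((F.filter fun u => T2 (u + (m0 + 1))) ∪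
        (F.filter fun u => T2 (u + (m0 + 2)))))
  have e5 := card_union_le (F.filter fun u => T2 (u + 2)) ((F.filter fun u => T2 (u + (m0 + 1))) ∪ (F.filter fun u => T2 (u + (m0 + 2))))
  have e6 := card_union_le (F.filter fun u => T2 (u + (m0 + 1))) (F.filter fun u => T2 (u + (m0 + 2)))
  have hN : F.card ≤ (F.filter fun u => T1 (u + 1)).card + (F.filter fun u => T1 (u + (m0 + 1))).card + (F.filter fun u => T1 (u + 0)).card +
      ((F.filter fun u => T2 (u + 1)).card + (F.filter fun u => T2 (u + 2)).card + (F.filter fun u => T2 (u + (m0 + 1))).card +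
        (F.filter fun u => T2 (u + (m0 + 2))).card) := by omega
  have sub : ∀ p : ℕ → Prop, F.filter p ⊆ range (M + 1) := fun p => (filter_subset _ _).trans hF
  have s1 := sh27 H1 1 (F.filter fun u => T1 (u + 1)) (sub _) fun u hu => (mem_filter.1 hu).2
  have s2 := sh27 H1 (m0 + 1) (F.filter fun u => T1 (u + (m0 + 1))) (sub _) fun u hu => (mem_filter.1 hu).2
  have s3 := sh27 H1 0 (F.filter fun u => T1 (u + 0)) (sub _) fun u hu => (mem_filter.1 hu).2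
  have s4 := sh27 H2 1 (F.filter fun u => T2 (u + 1)) (sub _) fun u hu => (mem_filter.1 hu).2
  have s5 := sh27 H2 2 (F.filter fun u => T2 (u + 2)) (sub _) fun u hu => (mem_filter.1 hu).2
  have s6 := sh27 H2 (m0 + 1) (F.filter fun u => T2 (u + (m0 + 1))) (sub _) fun u hu => (mem_filter.1 hu).2
  have s7 := sh27 H2 (m0 + 2) (F.filter fun u => T2 (u + (m0 + 2))) (sub _) fun u hu => (mem_filter.1 hu).2
  have hNR : (F.card : ℝ) ≤ (F.filter fun u => T1 (u + 1)).card + (F.filter fun u => T1 (u + (m0 + 1))).card +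
      (F.filter fun u => T1 (u + 0)).card + ((F.filter fun u => T2 (u + 1)).card + (F.filter fun u => T2 (u + 2)).card +
        (F.filter fun u => T2 (u + (m0 + 1))).card + (F.filter fun u => T2 (u + (m0 + 2))).card) := by exact_mod_cast hN
  push_cast at s1 s2 s3 s4 s5 s6 s7
  linarith

/-! ### The slack and the geometry -/

/-- **The slack is below the threshold** after `m0` is raised. -/
theorem sl27 (k : SC51) : ∃ mb : ℕ, ∀ m, mb ≤ m → ∀ {μ : Measure ℝ} {s : ℝ} {T0 : ℕ}, (∀ a b, a ≤ b → k.E μ s T0 a ≤ k.E μ s T0 b) →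
    (∀ a, 0 ≤ k.E μ s T0 a) → ∀ v, k.τ₀ ≤ v →
    (k.up m).sl μ s T0 (k.up m).τ₀ ≤ (k.up m).th μ s T0 v (v + (k.up m).m0) := by
  obtain ⟨mb, hmb⟩ := exists_nat_ge ((k.τ₀ : ℝ) * k.Cb / k.η)
  refine ⟨mb, fun m hm μ s T0 hmono h0 v hv => ?_⟩
  show slN k.Cb (k.E μ s T0) k.m2 k.τ₀ ≤ thN k.η k.A (k.E μ s T0) v (v + (k.m0 + m))
  unfold slN thN bN
  have hη := k.hη
  have hCb := k.hCb
  have e1 : v + (k.m0 + m) - v = k.m0 + m := by omega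
  rw [e1]
  have h1 : ∑ w ∈ range (k.τ₀ - k.m2), k.Cb * k.E μ s T0 w ≤ ∑ _w ∈ range (k.τ₀ - k.m2), k.Cb * k.E μ s T0 v := by
    refine sum_le_sum fun w hw => mul_le_mul_of_nonneg_left (hmono w v ?_) hCb
    rw [mem_range] at hw
    omega
  rw [sum_const, card_range, nsmul_eq_mul] at h1
  have h2 : ((k.τ₀ - k.m2 : ℕ) : ℝ) ≤ k.τ₀ := by exact_mod_cast Nat.sub_le _ _
  have hmR : (mb : ℝ) ≤ m := by exact_mod_cast hm
  have h3 : (k.τ₀ : ℝ) * k.Cb ≤ k.η * m := by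
    rw [div_le_iff₀ hη] at hmb
    have := mul_le_mul_of_nonneg_right hmR hη.le
    linarith
  have h4 : k.η * (m : ℝ) ≤ k.η * ((k.m0 + m : ℕ) : ℝ) ^ k.A := by
    refine mul_le_mul_of_nonneg_left ?_ hη.le
    have h5 : (1 : ℝ) ≤ ((k.m0 + m : ℕ) : ℝ) := by
      have := k.hm
      exact_mod_cast (by omega : 1 ≤ k.m0 + m)
    have h6 : ((k.m0 + m : ℕ) : ℝ) ≤ ((k.m0 + m : ℕ) : ℝ) ^ k.A := le_self_pow₀ h5 (by have := k.hA; omega)
    have h7 : (m : ℝ) ≤ ((k.m0 + m : ℕ) : ℝ) := by exact_mod_cast Nat.le_add_left _ _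
    exact h7.trans h6
  have hEv := h0 v
  have h5 : ((k.τ₀ - k.m2 : ℕ) : ℝ) * (k.Cb * k.E μ s T0 v) ≤ k.τ₀ * (k.Cb * k.E μ s T0 v) :=
    mul_le_mul_of_nonneg_right h2 (mul_nonneg hCb hEv)
  have h6 := mul_le_mul_of_nonneg_right (h3.trans h4) hEv
  have h7 : (k.τ₀ : ℝ) * k.Cb * k.E μ s T0 v = k.τ₀ * (k.Cb * k.E μ s T0 v) := by ring
  linarith

/-- The scales of the separation are the scales of the frame. -/
theorem gT27 {h₀ : ℕ} {hW' : Wok μ s (2 * h₀) k.K} {u : ℕ} (hu : 1 ≤ u) : (k.G hW' M).T u = Tg h₀ k.K u := by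
  show 2 * h₀ * k.K ^ u = if u = 0 then 0 else 2 * h₀ * k.K ^ u
  rw [if_neg (by omega)]

theorem gv27 : (k.G hW M).v = sl μ s := rfl

theorem gw27 {u : ℕ} : (k.G hW M).w u = wd μ s (Tk T0 k.K u) := rfl

theorem gwT27 {h₀ : ℕ} {hW' : Wok μ s (2 * h₀) k.K} {u : ℕ} (hu : 1 ≤ u) : (k.G hW' M).w u = wd μ s (Tg h₀ k.K u) := by
  rw [← gT27 (M := M) (hW' := hW') hu]
  rfl

end

end Pool.Agent.W_7d29a1_C1.Gd27
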