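import Pool.Agent.W_7d29a1_C1.GeoR58
import Pool.Agent.W_7d29a1_C1.FrmH10
import Pool.Agent.W_7d29a1_C1.SgN8

/-!
MP_7d29a1_pr, [C1] SHELL, (W): **THE FIELDS OF ONE PLACE WHICH COME FROM THE CONTEXT** (helper58): rows, tilt, region, box, cells of the
seam row. `PlG58` = these fields of `Pl11` (helper11) with the same names; `plG58` : all places of all contexts, in the order of
`Tl45` (`c₂ δ κ`, the period `Q`, `n`).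
-/

set_option autoImplicit false

namespace Pool.Agent.W_7d29a1_C1.Ge58

open MeasureTheory Finset Filter
open Pool.Agent.W_7d29a1_F Pool.Agent.W_7d29a1_h4g Pool.Agent.W_7d29a1_H Pool.Agent.W_7d29a1_HS
open Pool.Agent.W_7d29a1_C1
open Pool.Agent.W_7d29a1_C1.T10
open Pool.Agent.W_7d29a1_C1.H60 (Cx AT Adm)
open Pool.Agent.W_7d29a1_C1.D31 (NV31 V31 DW31)
open Pool.Agent.W_7d29a1_C1.JnC35 (ln35)
open Pool.Agent.W_7d29a1_C1.H8 (V8 S8 NB8 KV8 m8 h8 uc8 sg8 uc8_near uc8_sep)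
open Pool.Agent.W_7d29a1_C1.Fr47 (NS47)

noncomputable section

variable {μ : Measure ℝ} {s : ℝ}

/-- **THE CONTEXT FIELDS OF `Pl11`.** -/
structure PlG58 (μ : Measure ℝ) (s : ℝ) (Γ : Cx) (σ : NS47) (G : Gd) (i : ℕ) (q₀ : ℕ × ℤ) (S : Finset (ℕ × ℤ)) (n' n : ℕ) (κ : Pt)
    (ρ : ℝ) : Prop where
  eκ : κ = ((((G.z i q₀).1 : ℕ) : ℤ), xm G i q₀)
  ok : Γ.Ok
  hs : Γ.s = s
  hh : 64 * (|Γ.h| * (σ.T i : ℕ)) ≤ 1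
  -- the rows
  T32 : 32 ∣ σ.T i
  he : σ.c0 i (G.z i q₀) + n' + n = (G.z i q₀).1 + 5 * (σ.T i / 8)
  hn' : σ.T i ≤ 2 * n'
  hn : σ.T i ≤ 2 * n
  hnT : n ≤ σ.T i
  r1 : σ.c0 i (G.z i q₀) + n' ≤ (G.z i q₀).1
  r2 : (G.z i q₀).1 + G.H i ≤ σ.c0 i (G.z i q₀) + n' + n
  hH : G.H i ≤ σ.T i
  okG : ∃ L : ℕ, G.Ok L ∧ i ≤ L
  hS : ∀ b, G.z i b = G.z i q₀ → b ∈ S
  -- the box
  geo : Geo58 μ s Γ G (σ.T i) i q₀ ρ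
  -- the cells
  a1 : 0 ≤ (G.z i q₀).2 + σ.α₁ i
  a2 : 0 ≤ (G.z i q₀).2 + σ.α₂ i
  b1 : (G.z i q₀).2 + σ.β₁ i ≤ Γ.k + σ.c0 i (G.z i q₀)
  b2 : (G.z i q₀).2 + σ.β₂ i ≤ Γ.k + σ.c0 i (G.z i q₀)
  ab : σ.β₁ i < σ.α₂ i

/-! ### The rows -/

/-- **THE ROWS OF ONE PLACE**: `c0 = z - T + 1`, `n' = R₁ kF`, `n = z + 5 T / 8 - cF`. -/
theorem rowW58 {th : ℝ} (h0 : 0 < th) (h1 : th ≤ 1 / 4) {R₁ : ℕ} (hR : 1 ≤ R₁) : ∃ n₁ : ℕ, 1 ≤ n₁ ∧ ∀ {T z n : ℕ}, n₁ ≤ T → T ≤ z →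
    32 ∣ T → n = z + 5 * T / 8 - cF th R₁ z T →
    z - T + 1 + R₁ * kF th R₁ T + n = z + 5 * (T / 8) ∧ T ≤ 2 * (R₁ * kF th R₁ T) ∧ T ≤ 2 * n ∧ n ≤ T ∧ z - T + 1 + R₁ * kF th R₁ T ≤ z ∧
      z + T / 2 ≤ z - T + 1 + R₁ * kF th R₁ T + n := by
  obtain ⟨n₁, hn₁, H⟩ := rowsF h0 h1 hR 0
  refine ⟨max n₁ (4 * R₁ + 4), hn₁.trans (le_max_left _ _), fun {T z n} hT hTz hd hn => ?_⟩
  have hT1 := (le_max_left _ _).trans hT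
  have hT2 := (le_max_right _ _).trans hT
  obtain ⟨a1, a2, a3, _, _, _⟩ := H T z hT1 hTz
  have ec : cF th R₁ z T = z - T + 1 + R₁ * kF th R₁ T := rfl
  have hT0 : (0 : ℝ) ≤ T := Nat.cast_nonneg _
  have b1 : ((z - cF th R₁ z T : ℕ) : ℝ) ≤ T / 16 + R₁ := a3.trans (by nlinarith)
  have b2 : 16 * (z - cF th R₁ z T) ≤ T + 16 * R₁ := by
    have : (16 : ℝ) * ((z - cF th R₁ z T : ℕ) : ℝ) ≤ T + 16 * R₁ := by linarith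
    exact_mod_cast this
  obtain ⟨y, hy⟩ : ∃ y, y = R₁ * kF th R₁ T := ⟨_, rfl⟩
  rw [ec] at a1 b2 hn
  rw [← hy] at a1 b2 hn ⊢
  obtain ⟨t, ht⟩ := hd
  subst ht
  omega

/-- `c0` of `So47`. -/
theorem c0_58 (σ : NS47) (i : ℕ) (z : ℕ × ℤ) : σ.c0 i z = z.1 - σ.T i + 1 := rfl

/-- The line at the seam row. -/
theorem lnc58 {G : Gd} {i T : ℕ} {q₀ : ℕ × ℤ} (hT : T ≤ (G.z i q₀).1) {cm : ℤ} (hcm : cm = (G.V i : ℤ) / 2) :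
    ln35 μ s ((((G.z i q₀).1 : ℕ) : ℤ), xm G i q₀) ((G.z i q₀).1 - T + 1 : ℕ) = (G.z i q₀).2 + ((cm : ℝ) + sl μ s * (1 - (T : ℝ))) := by
  have e1 : (((G.z i q₀).1 - T + 1 : ℕ) : ℤ) = (G.z i q₀).1 - (T : ℤ) + 1 := by omega
  unfold ln35
  show ((xm G i q₀ : ℤ) : ℝ) + sl μ s * (((((G.z i q₀).1 - T + 1 : ℕ) : ℤ) - (((G.z i q₀).1 : ℕ) : ℤ) : ℤ) : ℝ) = _
  rw [e1]
  unfold xm
  rw [← hcm]
  push_cast
  ring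

/-! ### The cells of the seam row -/

/-- **THE CELLS OF `sg8`** with the middles `uc8` are in the region; `rad ≤ d w / 8`, `d ≤ 1`, `1 ≤ ρ`, `8 ≤ d w`. -/
theorem cel58 {Γ : Cx} {G : Gd} {T : ℕ → ℕ} {i : ℕ} {q₀ : ℕ × ℤ} {ρ : ℝ} (H : Geo58 μ s Γ G (T i) i q₀ ρ) (hρ : 1 ≤ ρ) {d : ℝ} (hd : 0 < d)
    (hd1 : d ≤ 1) (hw : 8 ≤ d * wd μ s (T i)) {cm : ℕ → ℤ} (hcm : cm i = (G.V i : ℤ) / 2) {rad : ℕ → ℕ}
    (hr : (rad i : ℝ) ≤ d / 8 * wd μ s (T i)) {u : ℕ → Bool → ℤ} (hu : ∀ b, u i b = uc8 μ s d (wd μ s (T i)) (cm i) (1 - (T i : ℤ)) b)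
    {m₂ P : ℕ} {c₁ c₃ Q S φ v v₁ g₂ : ℝ} {σ : NS47} (hσ : σ = sg8 μ s T cm u rad m₂ P c₁ c₃ Q S φ v v₁ g₂) :
    0 ≤ (G.z i q₀).2 + σ.α₁ i ∧ 0 ≤ (G.z i q₀).2 + σ.α₂ i ∧ (G.z i q₀).2 + σ.β₁ i ≤ Γ.k + σ.c0 i (G.z i q₀) ∧
      (G.z i q₀).2 + σ.β₂ i ≤ Γ.k + σ.c0 i (G.z i q₀) ∧ σ.β₁ i < σ.α₂ i := by
  have hT := H.Tz
  have hw0 : 0 < wd μ s (T i) := by
    by_contra hcon
    have : d * wd μ s (T i) ≤ 0 := mul_nonpos_of_nonneg_of_nonpos hd.le (not_lt.1 hcon)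
    linarith
  have hdw : d * wd μ s (T i) ≤ wd μ s (T i) := by nlinarith
  have ec : σ.c0 i (G.z i q₀) = (G.z i q₀).1 - T i + 1 := by rw [hσ]; rfl
  have key : ∀ x : ℤ, |(x : ℝ) - ((cm i : ℝ) + sl μ s * (1 - (T i : ℝ)))| ≤ wd μ s (T i) →
      0 ≤ (G.z i q₀).2 + x ∧ (G.z i q₀).2 + x ≤ Γ.k + σ.c0 i (G.z i q₀) := by
    intro x hx
    obtain ⟨g1, g2⟩ := H.col ((G.z i q₀).1 - T i + 1) ((G.z i q₀).2 + x) (by omega) (by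
      rw [lnc58 hT hcm]
      have e : (((G.z i q₀).2 + x : ℤ) : ℝ) - ((G.z i q₀).2 + ((cm i : ℝ) + sl μ s * (1 - (T i : ℝ)))) =
        (x : ℝ) - ((cm i : ℝ) + sl μ s * (1 - (T i : ℝ))) := by
        push_cast
        ring
      rw [e]
      nlinarith)
    rw [ec]
    exact ⟨g1, by omega⟩
  have hm : ∀ b, |(u i b : ℝ) - ((cm i : ℝ) + sl μ s * (1 - (T i : ℝ)) +
      (if b then 3 / 4 * d * wd μ s (T i) else -(3 / 4 * d * wd μ s (T i))))| ≤ 1 := by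
    intro b
    have h1 := uc8_near (μ := μ) (s := s) d (wd μ s (T i)) (cm i) (1 - (T i : ℤ)) b
    rw [hu b]
    push_cast at h1 ⊢
    exact h1
  have hf := hm false
  have ht := hm true
  simp only [Bool.false_eq_true, if_false, if_true] at hf ht
  rw [abs_le] at hf ht
  have hr0 : (0 : ℝ) ≤ rad i := Nat.cast_nonneg _
  have f1 := (key (u i false - rad i) (by
    rw [abs_le]
    push_cast
    constructor <;> nlinarith)).1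
  have f2 := (key (u i false + rad i) (by
    rw [abs_le]
    push_cast
    constructor <;> nlinarith)).2
  have f3 := (key (u i true - rad i) (by
    rw [abs_le]
    push_cast
    constructor <;> nlinarith)).1
  have f4 := (key (u i true + rad i) (by
    rw [abs_le]
    push_cast
    constructor <;> nlinarith)).2
  refine ⟨?_, ?_, ?_, ?_, ?_⟩
  · rw [hσ]; exact f1
  · rw [hσ]; exact f3
  · have : σ.β₁ i = u i false + rad i := by rw [hσ]; rfl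
    rw [this]; exact f2
  · have : σ.β₂ i = u i true + rad i := by rw [hσ]; rfl
    rw [this]; exact f4
  · have e1 : σ.β₁ i = u i false + rad i := by rw [hσ]; rfl
    have e2 : σ.α₂ i = u i true - rad i := by rw [hσ]; rfl
    rw [e1, e2]
    have : ((u i false + rad i : ℤ) : ℝ) < ((u i true - rad i : ℤ) : ℝ) := by
      push_cast
      nlinarith
    exact_mod_cast this

/-! ### The box -/

/-- The box of a site is made of sites. -/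
theorem box58 {e : ℝ} {K n L : ℕ} {G : Gd} {Γ : Cx} (hG : G.Ok L) {q₀ : ℕ × ℤ} (hq : q₀ ∈ S8 e K n G Γ) (hmL : m8 K e n ≤ L) {i : ℕ}
    (hi : i ≤ m8 K e n) (b : ℕ × ℤ) (hb : G.z i b = G.z i q₀) : b ∈ S8 e K n G Γ := by
  have h2 : q₀ ∈ T98.Sc G (m8 K e n) (⌈(n : ℝ) ^ e⌉₊ / G.H (m8 K e n))
    ((Γ.N - n - T98.dT (G.H (m8 K e n)) ((n : ℝ) ^ e)) / G.H (m8 K e n)) Γ.N := hq
  unfold T98.Sc at h2
  exact T98.St_box hG hmL hi h2 hb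

/-! ### All the places of all the contexts -/

/-- The radii of the cells. -/
def cu58 (μ : Measure ℝ) (s d : ℝ) (T : ℕ → ℕ) (cm : ℕ → ℤ) (j : ℕ) (b : Bool) : ℤ := uc8 μ s d (wd μ s (T j)) (cm j) (1 - (T j : ℤ)) b

/-- **ALL THE PLACES OF ALL THE CONTEXTS**, in the order of `Tl45`. `M` : number of levels between the two scales; `ρ'` : window. -/
theorem plG58 [IsProbabilityMeasure μ] {c C : ℝ} {n₀ : ℕ} (h : In μ s c C n₀)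
    (hE9 : ∀ᶠ n : ℕ in atTop, (n : ℝ) ^ (1 / 9 : ℝ) ≤ EE μ s n) {R : ℝ} {B : ℕ} {C₀ th d : ℝ} (hth : 0 < th) (hth4 : th ≤ 1 / 4)
    (hd : 0 < d) (hd1 : d ≤ 1) {ρ e : ℝ} (hρ : 0 < ρ) (hρ1 : ρ ≤ 1) (he : 0 < e) (he1 : e ≤ 1 / 32) {K : ℕ} (hK : 8 ≤ K) :
    ∃ M : ℕ, ∀ (Z m₀ m₁ : ℕ), M ≤ m₁ → ∀ (R₁ : ℕ), 1 ≤ R₁ → ∀ (ρ' : ℝ), 1 ≤ ρ' → ∀ kv : KV8, kv.w₁ ≤ kv.w₁' → C₀ + ρ' + 1 ≤ kv.w₁' →
    ∀ (n₁ : ℕ) (c₂ δ κ : ℝ), 0 ≤ δ → ∀ Q : ℕ, 32 ∣ Q → 1 ≤ Q → ∀ᶠ n : ℕ in atTop, ∀ G : Gd,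
      GW μ s R B C₀ (h8 Q (ρ * e) n) K (m8 K e n + (m₀ + m₁)) G → ∀ ν : NV31, NB8 μ s (Tg (h8 Q (ρ * e) n) K) (m₀ + m₁) kv ν →
        ∀ Γ : Cx, Adm μ s c₂ δ κ n Γ → ∀ i, 2 ≤ i → i < m8 K e n / Z → ∀ q₀ ∈ S8 e K n G Γ, ∀ ω ∈ V8 μ s Γ ν kv.u G i q₀,
        n₁ ≤ Tg (h8 Q (ρ * e) n) K i ∧ i ≤ m8 K e n ∧ ∀ {T : ℕ → ℕ}, T = Tg (h8 Q (ρ * e) n) K → ∀ {cm : ℕ → ℤ}, (∀ j, cm j = (G.V j : ℤ) / 2) →
        ∀ {rad : ℕ → ℕ}, (rad i : ℝ) ≤ d / 8 * wd μ s (T i) → ∀ {m₂ P : ℕ} {c₁ c₃ Q' S' φ v v₁ g₂ : ℝ} {nn : ℕ},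
        nn = (G.z i q₀).1 + 5 * T i / 8 - cF th R₁ (G.z i q₀).1 (T i) →
          PlG58 μ s Γ (sg8 μ s T cm (cu58 μ s d T cm) rad m₂ P c₁ c₃ Q' S' φ v v₁ g₂) G i q₀ (S8 e K n G Γ) (R₁ * kF th R₁ (T i)) nn
            ((((G.z i q₀).1 : ℕ) : ℤ), xm G i q₀) ρ' := by
  obtain ⟨J, nw, hJ⟩ := hwoT58 h
  refine ⟨J, fun Z m₀ m₁ hm₁ R₁ hR₁ ρ' hρ' kv hw1 hw' n₁ c₂ δ κ hδ Q hQ hQ1 => ?_⟩
  obtain ⟨nr, hnr, HR⟩ := rowW58 hth hth4 hR₁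
  obtain ⟨nd, hnd⟩ := eventually_atTop.1 ((wd_tendsto h).eventually_ge_atTop (8 / d))
  have hK1 : 1 ≤ K := by omega
  have he0 : 0 < ρ * e := mul_pos hρ he
  have hee : ρ * e ≤ e := by nlinarith
  have ev1 := H8.gridN8 (x := m₀ + m₁) he he1 he0 hee (show 2 ≤ K by omega) hQ1
  have ev2 := tiltG58 h hE9 (e := e) (e₀ := ρ * e) (kap := 1 / 64) (c := c₂) (δ := δ) (κ := κ) he1 hδ (by norm_num) (Q := Q)
    (x := m₀ + m₁) hK1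
  have ev3 : ∀ᶠ n : ℕ in atTop, ((max (max n₁ nw) (max nr nd) : ℕ) : ℝ) ≤ (n : ℝ) ^ (ρ * e / 4) :=
    ((tendsto_rpow_atTop (by positivity)).comp tendsto_natCast_atTop_atTop).eventually_ge_atTop _
  filter_upwards [ev1, ev2, ev3, eventually_ge_atTop 2] with n gN ht hb h2 G g ν N Γ hA i hi him q₀ hq ω hω
  have hiZ : i ≤ m8 K e n := him.le.trans (Nat.div_le_self _ _)
  have hbig : max (max n₁ nw) (max nr nd) ≤ Tg (h8 Q (ρ * e) n) K i := by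
    have a1 : max (max n₁ nw) (max nr nd) ≤ h8 Q (ρ * e) n := by exact_mod_cast hb.trans gN.h1
    have a2 : 1 ≤ K ^ i := Nat.one_le_pow _ _ (by omega)
    rw [Tg_pos (by omega)]
    nlinarith [Nat.zero_le (h8 Q (ρ * e) n)]
  have hb1 : n₁ ≤ Tg (h8 Q (ρ * e) n) K i := ((le_max_left _ _).trans (le_max_left _ _)).trans hbig
  have hb2 : nw ≤ Tg (h8 Q (ρ * e) n) K i := ((le_max_right _ _).trans (le_max_left _ _)).trans hbig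
  have hb3 : nr ≤ Tg (h8 Q (ρ * e) n) K i := ((le_max_left _ _).trans (le_max_right _ _)).trans hbig
  have hb4 : nd ≤ Tg (h8 Q (ρ * e) n) K i := ((le_max_right _ _).trans (le_max_right _ _)).trans hbig
  have hωz : ω ∈ V8 μ s Γ ν kv.u G i (G.z i q₀) := by
    rw [V8_base g.ok (by rw [N.em]; omega)]
    exact hω
  have geo : Geo58 μ s Γ G (Tg (h8 Q (ρ * e) n) K i) i q₀ ρ' := geoS58 h g gN (by linarith) h2 le_rfl N hωz hq (by omega) (by omega)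
    (by linarith) (hJ _ _ _ _ (by omega) (by omega) (by omega) hb2) hw1 hw'
  refine ⟨hb1, hiZ, ?_⟩
  intro T hT cm hcm rad hrad m₂ P c₁ c₃ Q' S' φ v v₁ g₂ nn hnn
  subst hT
  have hd32 : 32 ∣ Tg (h8 Q (ρ * e) n) K i := Tg_dvd (dvd_mul_of_dvd_left hQ _) K i
  obtain ⟨r1, r2, r3, r4, r5, r6⟩ := HR hb3 geo.Tz hd32 hnn
  have hH : Tg (h8 Q (ρ * e) n) K i = 2 * G.H i := by
    rw [g.H]
    exact Tg_Hg (by omega)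
  have hwd : 8 ≤ d * wd μ s (Tg (h8 Q (ρ * e) n) K i) := by
    have := hnd _ hb4
    rw [div_le_iff₀ hd] at this
    linarith
  obtain ⟨b1, b2, b3, b4, b5⟩ := cel58 (σ := sg8 μ s (Tg (h8 Q (ρ * e) n) K) cm (cu58 μ s d (Tg (h8 Q (ρ * e) n) K) cm) rad m₂ P c₁ c₃
    Q' S' φ v v₁ g₂) geo hρ' hd hd1 hwd (hcm i) hrad (fun b => rfl) rfl
  have hti := ht Γ hA gN i (by omega)
  refine ⟨rfl, ⟨hA.k1, hA.q0, hA.q1⟩, hA.hs, ?_, hd32, r1, r2, r3, r4, r5, ?_, ?_, ⟨_, g.ok, by omega⟩, fun b hb => ?_, geo, b1, b2, b3, b4, b5⟩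
  · show 64 * (|Γ.h| * (Tg (h8 Q (ρ * e) n) K i : ℕ)) ≤ 1
    linarith
  · show (G.z i q₀).1 + G.H i ≤ (G.z i q₀).1 - Tg (h8 Q (ρ * e) n) K i + 1 + R₁ * kF th R₁ (Tg (h8 Q (ρ * e) n) K i) + nn
    omega
  · show G.H i ≤ Tg (h8 Q (ρ * e) n) K i
    omega
  · exact box58 g.ok hq (by omega) hiZ b hb

end

end Pool.Agent.W_7d29a1_C1.Ge58
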