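import Pool.Agent.W_7d29a1_C1.GeW58
import Pool.Agent.W_7d29a1_C1.FaD45

/-!
MP_7d29a1_pr, [C1] SHELL, (W): **THE CONTEXT FIELDS AT THE NUMBERS OF SIDE F** (helper58). `tf58` : `n₁ ≤ TF45 ≤ T ≤ 4 TF45`; `rad58` : the
radius of the cells; `plX58` : `plG58` at `sg45`.
-/

set_option autoImplicit false

namespace Pool.Agent.W_7d29a1_C1.Ge58

open MeasureTheory Finset Filter
open Pool.Agent.W_7d29a1_F Pool.Agent.W_7d29a1_h4g Pool.Agent.W_7d29a1_H Pool.Agent.W_7d29a1_HS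
open Pool.Agent.W_7d29a1_C1
open Pool.Agent.W_7d29a1_C1.T10
open Pool.Agent.W_7d29a1_C1.H60 (Cx Adm)
open Pool.Agent.W_7d29a1_C1.D31 (NV31)
open Pool.Agent.W_7d29a1_C1.H8 (V8 S8 NB8 KV8 m8 h8)
open Pool.Agent.W_7d29a1_C1.F45

noncomputable section

variable {μ : Measure ℝ} {s : ℝ}

/-- **THE LENGTH OF THE LANES.** -/
theorem tf58 {th : ℝ} (h0 : 0 < th) (h1 : th ≤ 1 / 4) {a : LnI} {o : LnO} (ho : o.Ok a) {Q : ℕ} (hQ : 1 ≤ Q) (n₁ : ℕ) :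
    ∃ N : ℕ, 1 ≤ N ∧ ∀ (T : ℕ → ℕ) (j : ℕ), N ≤ T j → n₁ ≤ TF45 th o Q T j ∧ 1 ≤ TF45 th o Q T j ∧ TF45 th o Q T j ≤ T j ∧
      T j ≤ 4 * TF45 th o Q T j := by
  obtain ⟨N, hN, H⟩ := rowsF h0 h1 (R145_pos ho hQ) 0
  refine ⟨max N (max (4 * R145 o Q + 4) (4 * n₁ + 4)), hN.trans (le_max_left _ _), fun T j hT => ?_⟩
  have hT1 := (le_max_left _ _).trans hT
  have hT2 := ((le_max_left _ _).trans (le_max_right _ _)).trans hT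
  have hT3 := ((le_max_right _ _).trans (le_max_right _ _)).trans hT
  obtain ⟨a1, a2, a3, _, _, _⟩ := H (T j) (T j) hT1 le_rfl
  have ec : cF th (R145 o Q) (T j) (T j) = T j - T j + 1 + R145 o Q * kF th (R145 o Q) (T j) := rfl
  have hT0 : (0 : ℝ) ≤ T j := Nat.cast_nonneg _
  have b1 : ((T j - cF th (R145 o Q) (T j) (T j) : ℕ) : ℝ) ≤ T j / 16 + R145 o Q := a3.trans (by nlinarith)
  have b2 : 16 * (T j - cF th (R145 o Q) (T j) (T j)) ≤ T j + 16 * R145 o Q := by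
    have : (16 : ℝ) * ((T j - cF th (R145 o Q) (T j) (T j) : ℕ) : ℝ) ≤ T j + 16 * R145 o Q := by linarith
    exact_mod_cast this
  rw [ec, ← nMTF45] at a1 b2
  have hM : nM45 th o Q T j ≤ TF45 th o Q T j := by
    unfold nM45 TF45
    exact Nat.mul_le_mul_right _ (Nat.mul_le_mul_left _ (Nat.mul_le_mul_right _ ho.aj))
  omega

/-- **THE RADIUS OF THE CELLS.** -/
theorem rad58 [IsProbabilityMeasure μ] {c C : ℝ} {n₀ : ℕ} (h : In μ s c C n₀) {cc d th K0 : ℝ} {o : LnO} (ho : o.Ok (lnI cc d th K0)) {Q : ℕ} {T : ℕ → ℕ} {j : ℕ}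
    (h1 : 1 ≤ TF45 th o Q T j) (h2 : TF45 th o Q T j ≤ T j) :
    ((⌊o.th * wd μ s (TF45 th o Q T j)⌋₊ : ℕ) : ℝ) ≤ d / 8 * wd μ s (T j) := by
  have e1 := wd_le_two h h1 h2
  have e2 : o.th ≤ d / 16 := ho.th1
  have e3 := ho.th0
  have e4 := h.wd_nonneg (TF45 th o Q T j)
  refine (Nat.floor_le (mul_nonneg e3.le e4)).trans ?_
  nlinarith

/-- **`plG58` AT `sg45`.** -/
theorem plX58 [IsProbabilityMeasure μ] {c C : ℝ} {n₀ : ℕ} (h : In μ s c C n₀)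
    (hE9 : ∀ᶠ n : ℕ in atTop, (n : ℝ) ^ (1 / 9 : ℝ) ≤ EE μ s n) {R : ℝ} {B : ℕ} {C₀ th d : ℝ} (hth : 0 < th) (hth4 : th ≤ 1 / 4)
    (hd : 0 < d) (hd1 : d ≤ 1) {ρ e : ℝ} (hρ : 0 < ρ) (hρ1 : ρ ≤ 1) (he : 0 < e) (he1 : e ≤ 1 / 32) {K : ℕ} (hK : 8 ≤ K) :
    ∃ M : ℕ, ∀ (Z m₀ m₁ : ℕ), M ≤ m₁ → ∀ (cc K0 : ℝ) (o : LnO), o.Ok (lnI cc d th K0) → ∀ Qp : ℕ, 1 ≤ Qp → ∀ (ρ' : ℝ), 1 ≤ ρ' →
    ∀ kv : KV8, kv.w₁ ≤ kv.w₁' → C₀ + ρ' + 1 ≤ kv.w₁' → ∀ (n₁ : ℕ) (c₂ δ κ : ℝ), 0 ≤ δ → ∀ Q : ℕ, 32 ∣ Q → 1 ≤ Q →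
    ∀ᶠ n : ℕ in atTop, ∀ G : Gd,
      GW μ s R B C₀ (h8 Q (ρ * e) n) K (m8 K e n + (m₀ + m₁)) G → ∀ ν : NV31, NB8 μ s (Tg (h8 Q (ρ * e) n) K) (m₀ + m₁) kv ν →
        ∀ Γ : Cx, Adm μ s c₂ δ κ n Γ → ∀ i, 2 ≤ i → i < m8 K e n / Z → ∀ q₀ ∈ S8 e K n G Γ, ∀ ω ∈ V8 μ s Γ ν kv.u G i q₀,
        ∀ {T : ℕ → ℕ}, T = Tg (h8 Q (ρ * e) n) K → n₁ ≤ TF45 th o Qp T i ∧ TF45 th o Qp T i ≤ T i ∧ T i ≤ 4 * TF45 th o Qp T i ∧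
        i ≤ m8 K e n ∧ ∀ {cm : ℕ → ℤ}, (∀ j, cm j = (G.V j : ℤ) / 2) → ∀ {k : KE45} {m₂ : ℕ} {φ v v₁ g₂ : ℝ} {nn : ℕ},
        nn = (G.z i q₀).1 + 5 * T i / 8 - cF th (R145 o Qp) (G.z i q₀).1 (T i) →
          PlG58 μ s Γ (sg45 μ s d th o Qp k T cm m₂ φ v v₁ g₂) G i q₀ (S8 e K n G Γ) (nM45 th o Qp T i + TF45 th o Qp T i) nn
            ((((G.z i q₀).1 : ℕ) : ℤ), xm G i q₀) ρ' := by
  obtain ⟨M, HM⟩ := plG58 h hE9 (R := R) (B := B) (C₀ := C₀) hth hth4 hd hd1 hρ hρ1 he he1 hK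
  refine ⟨M, fun Z m₀ m₁ hm₁ cc K0 o ho Qp hQp ρ' hρ' kv hw1 hw' n₁ c₂ δ κ hδ Q hQ hQ1 => ?_⟩
  obtain ⟨N, hN, HT⟩ := tf58 hth hth4 ho hQp n₁
  filter_upwards [HM Z m₀ m₁ hm₁ (R145 o Qp) (R145_pos ho hQp) ρ' hρ' kv hw1 hw' N c₂ δ κ hδ Q hQ hQ1] with n H G g ν hν Γ hA i hi him q₀
    hq ω hω T hT
  obtain ⟨g1, g2, g3⟩ := H G g ν hν Γ hA i hi him q₀ hq ω hω
  obtain ⟨t1, t2, t3, t4⟩ := HT T i (by rw [hT]; exact g1)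
  refine ⟨t1, t3, t4, g2, fun {cm} hcm {k m₂ φ v v₁ g₂ nn} hnn => ?_⟩
  rw [nMTF45]
  exact g3 hT hcm (rad := fun j => ⌊o.th * wd μ s (TF45 th o Qp T j)⌋₊) (rad58 h ho t2 t3) hnn

end

end Pool.Agent.W_7d29a1_C1.Ge58
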