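import Pool.Agent.W_7d29a1_C1.SkelF49

/-!
Both halves (MP_7d29a1_pr), attractor route: MOVE THE CONTACT, the field `relbad` of `MoveD` (early alternatives which are
not near): rows by `Lg` (not covered from the distance scale `i + 1`), columns by a lateral estimate. (helper49)
-/

set_option autoImplicit false

namespace Pool.Agent.W_7d29a1_C1.H49

open MeasureTheory Finset
open scoped ENNReal

variable {Ω X : Type*} [MeasurableSpace Ω] [Fintype X] {P : Measure Ω} {p : Par X} {w : X → Ω → ℝ≥0∞}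
  {fa : ℕ → ℕ → ℕ → X → Ω → ℝ≥0∞}

open Classical in
/-- The mass of the early alternatives between the distance scales `i` and `i + 1` which are not near and not negligible. -/
noncomputable def lb (p : Par X) (w : X → Ω → ℝ≥0∞) (near : ℕ → X → X → Prop) (t i : ℕ) (x : X) (ω : Ω) : ℝ≥0∞ :=
  ∑ ρ, if p.row ρ < p.row x - p.dk i (t - 1) ∧ ¬ p.row ρ < p.row x - p.dk (i + 1) (t - 1) ∧ ¬ near i x ρ ∧
    ex (-p.be t i) ≤ w ρ ω then w ρ ω else 0

omit [MeasurableSpace Ω] in
/-- Pointwise. -/
theorem rb_le {near : ℕ → X → X → Prop} {t i : ℕ} {C4 e4 : ℝ≥0∞} {x : X} {ω : Ω}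
    (hrel : ∀ ρ, p.row ρ < p.row x - p.dk i (t - 1) → ¬ p.rel i x ρ →
      i < p.M ∧ (p.row ρ < p.row x - p.dk (i + 1) (t - 1) ∨ ¬ near i x ρ))
    (hlat : i < p.M → lb p w near t i x ω ≤ C4 * fa t (i + 1) (t - 1) x ω + e4) :
    rb p w fa t i x ω ≤ (1 + C4) * ex (-(p.th t (i + 1) - p.th t i)) + ex (p.th t i + p.sl (t - 1)) * e4 +
      Fintype.card X * ex (-p.be t i) * ex (p.th t i + p.sl (t - 1)) := by
  classical
  unfold rb
  by_cases hE : Er p w fa t i x ω
  · rw [if_pos hE]
    set e := em p.row w (p.dk i (t - 1)) x ω with he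
    set q : ℝ := p.th t i + p.sl (t - 1) with hq
    have he1 : e⁻¹ ≤ ex q := by
      rw [ENNReal.inv_le_iff_inv_le, ex_inv]; exact hE.2
    by_cases hiM : i < p.M
    · -- not covered from `i + 1`
      have hno : ¬ Cv p w fa t (i + 1) (t - 1) (p.sl (t - 1)) x ω := hE.1.2 (i + 1) (by rw [mem_Ioc]; omega)
      have hem : em p.row w (p.dk (i + 1) (t - 1)) x ω ≤ ex (-(p.th t (i + 1) + p.sl (t - 1))) := by
        by_contra h; exact hno (Or.inl (not_le.1 h).le)
      have hfa : fa t (i + 1) (t - 1) x ω ≤ ex (-(p.th t (i + 1) + p.sl (t - 1))) := by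
        by_contra h; exact hno (Or.inr (not_le.1 h).le)
      have hsum : ∑ ρ, (if p.rel i x ρ then 0 else nu p w t i x ρ ω) ≤
          e⁻¹ * (em p.row w (p.dk (i + 1) (t - 1)) x ω + lb p w near t i x ω + Fintype.card X * ex (-p.be t i)) := by
        have e1 : (Fintype.card X : ℝ≥0∞) * ex (-p.be t i) = ∑ _ρ : X, ex (-p.be t i) := by
          rw [sum_const, card_univ, nsmul_eq_mul]
        rw [e1]
        unfold em lb
        rw [← sum_add_distrib, ← sum_add_distrib, mul_sum]
        refine sum_le_sum fun ρ _ => ?_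
        by_cases h1 : p.rel i x ρ
        · rw [if_pos h1]; exact zero_le
        · rw [if_neg h1]
          unfold nu
          by_cases h2 : p.row ρ < p.row x - p.dk i (t - 1)
          · rw [if_pos h2, ENNReal.div_eq_inv_mul]
            refine mul_le_mul' le_rfl ?_
            obtain ⟨-, h3⟩ := hrel ρ h2 h1
            by_cases h4 : p.row ρ < p.row x - p.dk (i + 1) (t - 1)
            · rw [if_pos h4]; exact le_self_add.trans le_self_add
            · rcases h3 with h3 | h3
              · exact absurd h3 h4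
              · by_cases h5 : ex (-p.be t i) ≤ w ρ ω
                · rw [if_neg h4, if_pos ⟨h2, h4, h3, h5⟩, zero_add]; exact le_self_add
                · exact (not_le.1 h5).le.trans le_add_self
          · rw [if_neg h2]; exact zero_le
      refine hsum.trans ?_
      calc _ ≤ ex q * (ex (-(p.th t (i + 1) + p.sl (t - 1))) + (C4 * ex (-(p.th t (i + 1) + p.sl (t - 1))) + e4) +
            Fintype.card X * ex (-p.be t i)) := by
            refine mul_le_mul' he1 (add_le_add (add_le_add hem ((hlat hiM).trans ?_)) le_rfl)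
            exact add_le_add (mul_le_mul' le_rfl hfa) le_rfl
        _ = (1 + C4) * (ex q * ex (-(p.th t (i + 1) + p.sl (t - 1)))) + ex q * e4 +
            Fintype.card X * ex (-p.be t i) * ex q := by ring
        _ = _ := by
            rw [← ex_add, hq]
            congr 4
            ring
    · refine le_trans (le_of_eq (sum_eq_zero fun ρ _ => ?_)) zero_le
      by_cases h1 : p.rel i x ρ
      · rw [if_pos h1]
      · rw [if_neg h1]
        unfold nu
        rw [if_neg]
        exact fun h2 => hiM (hrel ρ h2 h1).1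
  · rw [if_neg hE]; exact zero_le

omit [MeasurableSpace Ω] in
/-- `rb` is at most one. -/
theorem rb_le_one {t i : ℕ} {x : X} {ω : Ω} : rb p w fa t i x ω ≤ 1 := by
  classical
  unfold rb
  split_ifs
  · have h3 : ∀ ρ, nu p w t i x ρ ω = (if p.row ρ < p.row x - p.dk i (t - 1) then w ρ ω else 0) *
        (em p.row w (p.dk i (t - 1)) x ω)⁻¹ := by
      intro ρ
      unfold nu
      by_cases h2 : p.row ρ < p.row x - p.dk i (t - 1)
      · rw [if_pos h2, if_pos h2, ENNReal.div_eq_inv_mul, mul_comm]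
      · rw [if_neg h2, if_neg h2, zero_mul]
    calc _ ≤ ∑ ρ, nu p w t i x ρ ω := by
          refine sum_le_sum fun ρ _ => ?_
          split_ifs
          · exact zero_le
          · exact le_rfl
      _ = (em p.row w (p.dk i (t - 1)) x ω) * (em p.row w (p.dk i (t - 1)) x ω)⁻¹ := by
          rw [sum_congr rfl fun ρ _ => h3 ρ, ← sum_mul]; rfl
      _ ≤ 1 := ENNReal.mul_inv_le_one _
  · exact zero_le

/-- THE FIELD `relbad`. On `G t i` (probability at least `1 - δ4`) the lateral estimate `hlat` holds for the sites `x`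
which are not negligible. -/
theorem relbad_of [IsProbabilityMeasure P] (mw : ∀ x, Measurable (w x)) (mfa : ∀ t k τ x, Measurable (fa t k τ x))
    (sum_w : ∀ ω, ∑ x, w x ω ≤ 1) {near : ℕ → X → X → Prop} {τ0 : ℕ} {G : ℕ → ℕ → Set Ω}
    (mG : ∀ t i, MeasurableSet (G t i)) {C4 e4 δ4 δ3 : ℝ≥0∞}
    (hrel : ∀ t i, p.rg τ0 t i → ∀ x ρ, p.row ρ < p.row x - p.dk i (t - 1) → ¬ p.rel i x ρ →
      i < p.M ∧ (p.row ρ < p.row x - p.dk (i + 1) (t - 1) ∨ ¬ near i x ρ))
    (hlat : ∀ t i, p.rg τ0 t i → i < p.M → ∀ ω ∈ G t i, ∀ x, ex (-p.be t i) ≤ w x ω →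
      lb p w near t i x ω ≤ C4 * fa t (i + 1) (t - 1) x ω + e4)
    (hG : ∀ t i, p.rg τ0 t i → P (G t i)ᶜ ≤ δ4)
    (num : ∀ t i, p.rg τ0 t i → (1 + C4) * ex (-(p.th t (i + 1) - p.th t i)) + ex (p.th t i + p.sl (t - 1)) * e4 +
      Fintype.card X * ex (-p.be t i) * ex (p.th t i + p.sl (t - 1)) + Fintype.card X * ex (-p.be t i) + δ4 ≤ δ3) :
    ∀ t i, p.rg τ0 t i → ∑ x, ∫⁻ ω, w x ω * rb p w fa t i x ω ∂P ≤ δ3 := by
  classical
  intro t i h
  set B := (1 + C4) * ex (-(p.th t (i + 1) - p.th t i)) + ex (p.th t i + p.sl (t - 1)) * e4 +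
      Fintype.card X * ex (-p.be t i) * ex (p.th t i + p.sl (t - 1)) with hB
  have mr : ∀ x, Measurable fun ω => w x ω * rb p w fa t i x ω := fun x => (mw x).mul (mrb mw mfa t i x)
  have hpt : ∀ ω, ∑ x, w x ω * rb p w fa t i x ω ≤ B + Fintype.card X * ex (-p.be t i) +
      (G t i)ᶜ.indicator 1 ω := by
    intro ω
    by_cases hω : ω ∈ G t i
    · refine le_trans ?_ le_self_add
      have e1 : (Fintype.card X : ℝ≥0∞) * ex (-p.be t i) = ∑ _ρ : X, ex (-p.be t i) := by
        rw [sum_const, card_univ, nsmul_eq_mul]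
      calc ∑ x, w x ω * rb p w fa t i x ω ≤ ∑ x, (w x ω * B + ex (-p.be t i)) := by
            refine sum_le_sum fun x _ => ?_
            by_cases h1 : ex (-p.be t i) ≤ w x ω
            · exact (mul_le_mul' le_rfl (rb_le (hrel t i h x) fun h2 => hlat t i h h2 ω hω x h1)).trans le_self_add
            · refine le_trans ?_ le_add_self
              calc _ ≤ w x ω * 1 := mul_le_mul' le_rfl rb_le_one
                _ ≤ _ := by rw [mul_one]; exact (not_le.1 h1).le
        _ = (∑ x, w x ω) * B + Fintype.card X * ex (-p.be t i) := by rw [sum_add_distrib, ← sum_mul, e1]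
        _ ≤ 1 * B + Fintype.card X * ex (-p.be t i) := add_le_add (mul_le_mul' (sum_w ω) le_rfl) le_rfl
        _ = _ := by rw [one_mul]
    · rw [Set.indicator_of_mem (show ω ∈ (G t i)ᶜ from hω)]
      refine le_trans ?_ le_add_self
      calc ∑ x, w x ω * rb p w fa t i x ω ≤ ∑ x, w x ω * 1 :=
            sum_le_sum fun x _ => mul_le_mul' le_rfl rb_le_one
        _ ≤ 1 := by simp only [mul_one]; exact sum_w ω
  rw [← lintegral_finsetSum _ fun x _ => mr x]
  calc _ ≤ ∫⁻ ω, ((B + Fintype.card X * ex (-p.be t i)) + (G t i)ᶜ.indicator 1 ω) ∂P := lintegral_mono hpt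
    _ = B + Fintype.card X * ex (-p.be t i) + P (G t i)ᶜ := by
        rw [lintegral_add_left measurable_const, lintegral_const, measure_univ, mul_one,
          lintegral_indicator_one (mG t i).compl]
    _ ≤ B + Fintype.card X * ex (-p.be t i) + δ4 := add_le_add le_rfl (hG t i h)
    _ ≤ δ3 := num t i h

end Pool.Agent.W_7d29a1_C1.H49
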