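import Pool.Agent.W_7d29a1_C1.ChnH40
import Pool.Agent.W_7d29a1_C1.HitM49
import Pool.Agent.W_7d29a1_C1.Rel49

/-!
MP_7d29a1_pr, the attractor route, separation by moving the contact: THE GEOMETRY (cells, windows, target sites, distances, rows
of the far events) and the geometric fields of `MoveD`, `HitD`, `HitQ`, `Rel49`, `GR`. (helper37)

A site is `c = (row, column)`. Scale `u`: `T u = T0 K ^ u` rows, mesh of the rows `T (u-2)`, mesh of the lateral coordinate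
`lat = column - v row` is `g u`, lateral width `w u`. `loc u c` = the cell; `rcc u κ` = first row above the cell; the window of the
scale `u` = rows `(rcc + T (u-1), rcc + T u]`, laterally at most `kw * w u` from the centre of the cell.
-/

set_option autoImplicit false

namespace Pool.Agent.W_7d29a1_C1.G37

open MeasureTheory Finset
open Pool.Agent.W_7d29a1_F Pool.Agent.W_7d29a1_C1.S71 Pool.Agent.W_7d29a1_C1.H40 Pool.Agent.W_7d29a1_C1.H49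
open scoped ENNReal

noncomputable section

/-- The parameters of the geometry. -/
structure Gm where
  T0 : ℕ
  K : ℕ
  M : ℕ
  v : ℝ
  g : ℕ → ℕ
  w : ℕ → ℝ
  kw : ℝ
  kn : ℝ
  kb : ℝ
  lam : ℝ
  Cg : ℕ
  Cw : ℕ
  m0 : ℕ
  m1 : ℕ
  m2 : ℕ
  hT : 1 ≤ T0
  hK : 8 ≤ K
  g_pos : ∀ u, 0 < g u
  g_dvd : ∀ u, g u ∣ g (u + 1)
  w_two : ∀ u, 2 * w u ≤ w (u + 1)
  w_up : ∀ u, w (u + 1) ≤ Cw * w u
  g_le : ∀ u, (g u : ℝ) ≤ w u
  w_le : ∀ u, w u ≤ Cg * g u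
  kn_nonneg : 0 ≤ kn
  kb_ge : 1 ≤ kb
  kw_nonneg : 0 ≤ kw
  lam_ge : kn + 2 * kb ≤ lam
  m1_ge : 1 ≤ m1
  m2_ge : 3 ≤ m2

namespace Gm

variable (G : Gm)

/-- The scale `u` in rows. -/
def T (u : ℕ) : ℕ := Tk G.T0 G.K u

/-- The lateral coordinate. -/
def lat (c : ℕ × ℤ) : ℝ := (c.2 : ℝ) - G.v * (c.1 : ℝ)

/-- The cell of a site. -/
def loc (u : ℕ) (c : ℕ × ℤ) : ℤ × ℤ := ((c.1 : ℤ) / (G.T (u - 2) : ℤ), ⌊G.lat c / (G.g u : ℝ)⌋)

/-- The first row of a cell. -/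
def lo (u : ℕ) (κ : ℤ × ℤ) : ℤ := (G.T (u - 2) : ℤ) * κ.1

/-- The first row above a cell. -/
def rcc (u : ℕ) (κ : ℤ × ℤ) : ℤ := (G.T (u - 2) : ℤ) * (κ.1 + 1)

/-- The lateral coordinate of the centre of a cell. -/
def ctr (u : ℕ) (κ : ℤ × ℤ) : ℝ := (G.g u : ℝ) * ((κ.2 : ℝ) + 1 / 2)

/-- The base of the window. -/
def base (u : ℕ) (κ : ℤ × ℤ) : Pt :=
  (G.rcc u κ + G.T (u - 1), ⌊G.ctr u κ + G.v * ((G.rcc u κ : ℝ) + (G.T (u - 1) : ℝ))⌋)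

/-- The window. -/
def win (u : ℕ) (κ : ℤ × ℤ) : Set Pt :=
  {p | G.rcc u κ + G.T (u - 1) < p.1 ∧ p.1 ≤ G.rcc u κ + G.T u ∧
    |((p.2 : ℝ) - ((G.base u κ).2 : ℝ)) - G.v * ((p.1 : ℝ) - ((G.base u κ).1 : ℝ))| ≤ G.kw * G.w u}

/-- The target sites of a cell. -/
def Nb (s : ℕ) (κ : ℤ × ℤ) (c : ℕ × ℤ) : Prop :=
  G.lo s κ ≤ (c.1 : ℤ) ∧ (c.1 : ℤ) < G.rcc s κ + G.T s ∧ |G.lat c - G.ctr s κ| ≤ G.kb * G.w s

/-- The distance (in rows) of the early alternatives. -/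
def dk (k τ : ℕ) : ℤ := 2 * (G.T k : ℤ) - (G.T τ : ℤ)

/-- The distance (in rows) of the late alternatives. -/
def dl (i : ℕ) : ℤ := (G.T i : ℤ)

/-- Lateral nearness. -/
def near (i : ℕ) (x ρ : ℕ × ℤ) : Prop := |G.lat x - G.lat ρ| ≤ G.kn * G.w (i + 1)

/-- The relation of the move; at the top distance scale every earlier site is admitted. -/
def rel (i : ℕ) (x ρ : ℕ × ℤ) : Prop :=
  (G.T i : ℤ) ≤ (x.1 : ℤ) - (ρ.1 : ℤ) ∧
    (i < G.M → (x.1 : ℤ) - (ρ.1 : ℤ) ≤ 2 * (G.T (i + 1) : ℤ) ∧ G.near i x ρ)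

/-- The scales paid between `s` and `i`. -/
def S (s i : ℕ) : Finset ℕ := Ico (s + 1) (i + 1 - G.m1)

/-- The rows of the far events. -/
def fr (t τ : ℕ) (x : ℕ × ℤ) : Finset ℤ :=
  (Icc ((x.1 : ℤ) + G.T t) ((x.1 : ℤ) + G.T t + G.T (t - 1) + 2 * G.T τ)).filter fun r => (G.T (t - 1) : ℤ) ∣ r

/-- The width of the far events. -/
def W (k τ : ℕ) : ℝ := 2 * G.w k - G.lam * G.w τ

/-- The sites of the far event in the row `r`. -/
def fs (k τ : ℕ) (x : ℕ × ℤ) (r : ℤ) : Set ℤ := {y | G.W k τ ≤ |((y : ℝ) - G.v * (r : ℝ)) - G.lat x|}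

/-! ### Numbers -/

theorem T_pos (u : ℕ) : 1 ≤ G.T u := Tk_pos G.hT G.hK u

theorem T_mono {u v : ℕ} (h : u ≤ v) : G.T u ≤ G.T v := Tk_mono G.hK h

theorem T_succ (u : ℕ) : 8 * G.T u ≤ G.T (u + 1) := Tk_succ G.hK u

theorem T_dvd {u v : ℕ} (h : u ≤ v) : G.T u ∣ G.T v := Tk_dvd h

theorem T_mono' {u v : ℕ} (h : u ≤ v) : (G.T u : ℤ) ≤ (G.T v : ℤ) := by exact_mod_cast G.T_mono h

theorem T_lt8 {u v : ℕ} (h : u < v) : 8 * (G.T u : ℤ) ≤ (G.T v : ℤ) := by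
  have h1 := G.T_succ u
  have h2 := G.T_mono (show u + 1 ≤ v by omega)
  exact_mod_cast h1.trans h2

theorem T_pos' (u : ℕ) : (1 : ℤ) ≤ (G.T u : ℤ) := by exact_mod_cast G.T_pos u

theorem g_pos' (u : ℕ) : (0 : ℝ) < G.g u := by exact_mod_cast G.g_pos u

theorem w_pos (u : ℕ) : 0 < G.w u := (G.g_pos' u).trans_le (G.g_le u)

theorem w_mono {u v : ℕ} (h : u ≤ v) : G.w u ≤ G.w v := by
  induction h with
  | refl => exact le_rfl
  | @step m h ih => exact ih.trans (by have h1 := G.w_two m; have h2 := G.w_pos m; linarith)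

theorem g_dvd' {u v : ℕ} (h : u ≤ v) : G.g u ∣ G.g v := by
  induction h with
  | refl => exact dvd_rfl
  | step h ih => exact ih.trans (G.g_dvd _)

/-! ### Cells -/

theorem loc_nest {u v : ℕ} (h : u ≤ v) {x y : ℕ × ℤ} (e : G.loc u x = G.loc u y) : G.loc v x = G.loc v y := by
  have h1 : (x.1 : ℤ) / (G.T (u - 2) : ℤ) = (y.1 : ℤ) / (G.T (u - 2) : ℤ) := congrArg Prod.fst e
  have h2 : ⌊G.lat x / (G.g u : ℝ)⌋ = ⌊G.lat y / (G.g u : ℝ)⌋ := congrArg Prod.snd e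
  have key1 : ∀ z : ℤ, z / (G.T (v - 2) : ℤ) = (z / (G.T (u - 2) : ℤ)) / ((G.T (v - 2) / G.T (u - 2) : ℕ) : ℤ) := by
    intro z
    obtain ⟨q, hq⟩ := G.T_dvd (show u - 2 ≤ v - 2 by omega)
    have hp := G.T_pos (u - 2)
    rw [hq, Nat.mul_div_cancel_left _ (by omega), Int.ediv_ediv_of_nonneg (by positivity)]
    push_cast
    rfl
  have key2 : ∀ z : ℝ, ⌊z / (G.g v : ℝ)⌋ = ⌊z / (G.g u : ℝ)⌋ / ((G.g v / G.g u : ℕ) : ℤ) := by
    intro z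
    obtain ⟨q, hq⟩ := G.g_dvd' h
    have hp := G.g_pos u
    rw [hq, Nat.mul_div_cancel_left _ hp, ← Int.floor_div_natCast, div_div]
    push_cast
    rfl
  refine Prod.ext ?_ ?_
  · show (x.1 : ℤ) / (G.T (v - 2) : ℤ) = (y.1 : ℤ) / (G.T (v - 2) : ℤ)
    rw [key1, key1, h1]
  · show ⌊G.lat x / (G.g v : ℝ)⌋ = ⌊G.lat y / (G.g v : ℝ)⌋
    rw [key2, key2, h2]

theorem lo_le (u : ℕ) (c : ℕ × ℤ) : G.lo u (G.loc u c) ≤ (c.1 : ℤ) :=
  Int.mul_ediv_self_le (by have := G.T_pos' (u - 2); omega)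

theorem lt_rcc (u : ℕ) (c : ℕ × ℤ) : (c.1 : ℤ) < G.rcc u (G.loc u c) :=
  lt_nxt (G.T_pos (u - 2)) _

theorem rcc_eq (u : ℕ) (κ : ℤ × ℤ) : G.rcc u κ = G.lo u κ + G.T (u - 2) := by
  unfold rcc lo
  ring

theorem rcc_mono {u v : ℕ} (h : u ≤ v) (c : ℕ × ℤ) : G.rcc u (G.loc u c) ≤ G.rcc v (G.loc v c) :=
  nxt_mono (G.T_pos _) (G.T_pos _) (G.T_dvd (by omega)) _

theorem lat_ctr (u : ℕ) (c : ℕ × ℤ) : |G.lat c - G.ctr u (G.loc u c)| ≤ (G.g u : ℝ) / 2 := by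
  have hg := G.g_pos' u
  have h1 : (⌊G.lat c / (G.g u : ℝ)⌋ : ℝ) ≤ G.lat c / (G.g u : ℝ) := Int.floor_le _
  have h2 : G.lat c / (G.g u : ℝ) < (⌊G.lat c / (G.g u : ℝ)⌋ : ℝ) + 1 := Int.lt_floor_add_one _
  have h3 : (⌊G.lat c / (G.g u : ℝ)⌋ : ℝ) * (G.g u : ℝ) ≤ G.lat c := (le_div_iff₀ hg).1 h1
  have h4 : G.lat c < ((⌊G.lat c / (G.g u : ℝ)⌋ : ℝ) + 1) * (G.g u : ℝ) := (div_lt_iff₀ hg).1 h2
  show |G.lat c - (G.g u : ℝ) * ((⌊G.lat c / (G.g u : ℝ)⌋ : ℝ) + 1 / 2)| ≤ _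
  rw [abs_le]
  constructor <;> nlinarith

/-! ### Windows -/

theorem win_rows {u : ℕ} {κ : ℤ × ℤ} {p : Pt} (h : p ∈ G.win u κ) :
    G.rcc u κ + G.T (u - 1) < p.1 ∧ p.1 ≤ G.rcc u κ + G.T u := ⟨h.1, h.2.1⟩

/-- The rows above which an event of the window `(v, κ')` and of what is beyond it may read. -/
def Hi (v : ℕ) (κ : ℤ × ℤ) : Set Pt := {p | p.1 ≤ G.rcc v κ + G.T (v - 1)}

/-- The order of two windows. -/
theorem win_sub_Hi {u v : ℕ} (huv : u < v) {κ κ' : ℤ × ℤ} (h : G.rcc u κ ≤ G.rcc v κ') : G.win u κ ⊆ G.Hi v κ' := by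
  intro p hp
  have h1 := G.T_mono' (show u ≤ v - 1 by omega)
  have h2 := hp.2.1
  show p.1 ≤ G.rcc v κ' + G.T (v - 1)
  linarith

theorem win_disj_Hi (v : ℕ) (κ : ℤ × ℤ) : Disjoint (G.win v κ) (G.Hi v κ) := by
  rw [Set.disjoint_left]
  intro p h1 h2
  exact absurd h1.1 (not_lt.2 h2)

theorem win_disj {u v : ℕ} (huv : u < v) {κ κ' : ℤ × ℤ} (h : G.rcc u κ ≤ G.rcc v κ') :
    Disjoint (G.win u κ) (G.win v κ') :=
  ((G.win_disj_Hi v κ').mono_right (G.win_sub_Hi huv h)).symm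

/-- The windows of one centre. -/
theorem win_disj_same {u v : ℕ} (huv : u < v) (c : ℕ × ℤ) :
    Disjoint (G.win u (G.loc u c)) (G.win v (G.loc v c)) := G.win_disj huv (G.rcc_mono huv.le c)

/-- The rows of the window of a target site. -/
theorem rcc_nb {s v : ℕ} (h : s ≤ v) {κ : ℤ × ℤ} {c : ℕ × ℤ} (hc : G.Nb s κ c) : G.rcc s κ ≤ G.rcc v (G.loc v c) := by
  refine le_trans ?_ (G.rcc_mono h c)
  have h1 : (G.T (s - 2) : ℤ) * κ.1 ≤ (c.1 : ℤ) := hc.1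
  have h2 := G.T_pos' (s - 2)
  have h3 : κ.1 ≤ (c.1 : ℤ) / (G.T (s - 2) : ℤ) := by
    rw [Int.le_ediv_iff_mul_le (by linarith)]
    linarith
  show (G.T (s - 2) : ℤ) * (κ.1 + 1) ≤ (G.T (s - 2) : ℤ) * ((c.1 : ℤ) / (G.T (s - 2) : ℤ) + 1)
  exact mul_le_mul_of_nonneg_left (by linarith) (by linarith)

/-! ### Resampling -/

/-- The resampling of a window. -/
def R (u : ℕ) (κ : ℤ × ℤ) (η ω : Env) : Env := gl (G.win u κ) η ω

variable {μ : Measure ℝ} [IsProbabilityMeasure μ]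

theorem measurable_R (u : ℕ) (κ : ℤ × ℤ) : Measurable fun z : Env × Env => G.R u κ z.1 z.2 := measurable_gl _

theorem mp_R (u : ℕ) (κ : ℤ × ℤ) :
    MeasurePreserving (fun z : Env × Env => G.R u κ z.1 z.2) ((law μ).prod (law μ)) (law μ) := mp_gl _

omit [IsProbabilityMeasure μ] in
theorem gl_gl (A : Set Pt) (η η' ω : Env) : gl A η (gl A η' ω) = gl A η ω := by
  funext p
  by_cases h : p ∈ A
  · rw [gl_of_mem h, gl_of_mem h]
  · rw [gl_of_not_mem h, gl_of_not_mem h, gl_of_not_mem h]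

theorem R_R (u : ℕ) (κ : ℤ × ℤ) (η η' ω : Env) : G.R u κ η (G.R u κ η' ω) = G.R u κ η ω := gl_gl _ _ _ _

theorem gl_comm {A B : Set Pt} (h : Disjoint A B) (η η' ω : Env) : gl A η (gl B η' ω) = gl B η' (gl A η ω) := by
  funext p
  by_cases h1 : p ∈ A
  · have h2 : p ∉ B := fun h2 => Set.disjoint_left.1 h h1 h2
    rw [gl_of_mem h1, gl_of_not_mem h2, gl_of_mem h1]
  · by_cases h2 : p ∈ B
    · rw [gl_of_not_mem h1, gl_of_mem h2, gl_of_mem h2]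
    · rw [gl_of_not_mem h1, gl_of_not_mem h2, gl_of_not_mem h2, gl_of_not_mem h1]

/-- **Slab** of `Late87`. -/
theorem slab (u : ℕ) (κ : ℤ × ℤ) {T L : Set Env} (mT : MeasurableSet T) (mL : MeasurableSet L) (hd : Disjoint T L) :
    Lt87.Slab (law μ) (G.R u κ) T L :=
  ⟨G.mp_R u κ, fun η η' ω => G.R_R u κ η η' ω, mT, mL, hd⟩

/-- An event which reads only the window `(v, κ')` and the rows beyond it does not see the resampling of a lower window. -/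
theorem off_iff {u v : ℕ} (huv : u < v) {κ κ' : ℤ × ℤ} (h : G.rcc u κ ≤ G.rcc v κ') {E : Set Env}
    (hE : Off (G.Hi v κ') E) (η ω : Env) : ω ∈ E ↔ G.R u κ η ω ∈ E :=
  ((hE.mono (G.win_sub_Hi huv h)).gl η ω).symm

/-! ### Moves -/

theorem lo_le_row {s : ℕ} {κ : ℤ × ℤ} {c : ℕ × ℤ} (h : G.Nb s κ c) : G.lo s κ ≤ (c.1 : ℤ) := h.1

theorem dk_anti (k τ τ' : ℕ) (h : τ ≤ τ') : G.dk k τ' ≤ G.dk k τ := by
  have := G.T_mono' h
  unfold dk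
  linarith

theorem hdl {t i : ℕ} (h : t ≤ i) : G.dl i ≤ G.dk i (t - 1) := by
  have := G.T_mono' (show t - 1 ≤ i by omega)
  unfold dl dk
  linarith

theorem card_S (s i : ℕ) : i ≤ s + (G.S s i).card + G.m1 := by
  unfold S
  rw [Nat.card_Ico]
  omega

theorem S_sub (s i : ℕ) : G.S s i ⊆ Ioo s i := by
  intro v hv
  have := G.m1_ge
  unfold S at hv
  rw [mem_Ico] at hv
  rw [mem_Ioo]
  omega

theorem mem_S {s i v : ℕ} (h : v ∈ G.S s i) : s < v ∧ v + G.m1 ≤ i := by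
  have := G.m1_ge
  unfold S at h
  rw [mem_Ico] at h
  omega

/-- The rows of a move. -/
theorem move_row {s i : ℕ} (hi : i < G.M) (hs : s < i) {x ρ ρ' : ℕ × ℤ} (hr : G.rel i x ρ)
    (hn : G.Nb s (G.loc s ρ) ρ') : (x.1 : ℤ) - ρ'.1 ≤ 3 * G.T (i + 1) ∧ (ρ'.1 : ℤ) ≤ x.1 := by
  obtain ⟨h1, h2⟩ := hr
  replace h2 := (h2 hi).1
  have h3 := G.lt_rcc s ρ
  have h4 := G.lo_le s ρ
  have h5 := hn.1
  have h6 := hn.2.1
  have h7 := G.rcc_eq s (G.loc s ρ)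
  have h8 := G.T_lt8 hs
  have h9 := G.T_mono' (show s - 2 ≤ s by omega)
  have h10 := G.T_mono' (show i ≤ i + 1 by omega)
  have h11 := G.T_pos' s
  have h12 := G.T_pos' i
  constructor <;> linarith

/-- The columns of a move. -/
theorem move_lat {s i : ℕ} (hi : i < G.M) (hs : s < i) {x ρ ρ' : ℕ × ℤ} (hr : G.rel i x ρ)
    (hn : G.Nb s (G.loc s ρ) ρ') : |G.lat x - G.lat ρ'| ≤ (G.kn + 2 * G.kb) * G.w (i + 1) := by
  have h1 := (hr.2 hi).2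
  have h2 := G.lat_ctr s ρ
  have h3 := hn.2.2
  have h4 := G.g_le s
  have h5 : G.w s ≤ G.w (i + 1) := G.w_mono (by omega)
  have h6 := G.kb_ge
  have h7 := G.w_pos s
  have h8 : |G.lat x - G.lat ρ| ≤ G.kn * G.w (i + 1) := h1
  have h9 : |G.lat x - G.lat ρ'| ≤ |G.lat x - G.lat ρ| + |G.lat ρ - G.ctr s (G.loc s ρ)| +
      |G.lat ρ' - G.ctr s (G.loc s ρ)| := by
    have e : G.lat x - G.lat ρ' = (G.lat x - G.lat ρ) + (G.lat ρ - G.ctr s (G.loc s ρ)) -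
        (G.lat ρ' - G.ctr s (G.loc s ρ)) := by ring
    rw [e]
    exact (abs_sub _ _).trans (add_le_add (abs_add_le _ _) le_rfl)
  have h10 : G.kb * G.w s ≤ G.kb * G.w (i + 1) := mul_le_mul_of_nonneg_left h5 (by linarith)
  have h11 : G.w s ≤ G.kb * G.w s := le_mul_of_one_le_left h7.le h6
  have h12 : (G.kn + 2 * G.kb) * G.w (i + 1) = G.kn * G.w (i + 1) + G.kb * G.w (i + 1) + G.kb * G.w (i + 1) := by ring
  rw [h12]
  linarith

/-- **`mvrow`.** -/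
theorem mvrow {t s i k : ℕ} (ht : t ≤ i) (hi : i < G.M) (hs : s < i) {x ρ ρ' : ℕ × ℤ} (hr : G.rel i x ρ)
    (hn : G.Nb s (G.loc s ρ) ρ') : (x.1 : ℤ) - G.dk k (t - 1) ≤ (ρ'.1 : ℤ) - G.dk k (i + G.m2) := by
  have h1 := (G.move_row hi hs hr hn).1
  have h2 := G.T_mono' (show t - 1 ≤ i by omega)
  have h3 := G.T_lt8 (show i < i + 1 by omega)
  have h4 := G.T_lt8 (show i + 1 < i + G.m2 by have := G.m2_ge; omega)
  have h5 := G.T_pos' i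
  unfold dk
  linarith

/-- **`mvfa`**: rows. -/
theorem fr_sub {t s i t' : ℕ} (ht : t ≤ i) (hi : i < G.M) (hs : s < i) {x ρ ρ' : ℕ × ℤ} (hr : G.rel i x ρ)
    (hn : G.Nb s (G.loc s ρ) ρ') : G.fr t' (t - 1) x ⊆ G.fr t' (i + G.m2) ρ' := by
  obtain ⟨h0, h1⟩ := G.move_row hi hs hr hn
  have h2 := G.T_mono' (show t - 1 ≤ i by omega)
  have h3 := G.T_lt8 (show i < i + 1 by omega)
  have h4 := G.T_lt8 (show i + 1 < i + G.m2 by have := G.m2_ge; omega)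
  have h5 := G.T_pos' i
  intro r h
  unfold fr at h ⊢
  rw [mem_filter, mem_Icc] at h ⊢
  refine ⟨⟨?_, ?_⟩, h.2⟩ <;> linarith [h.1.1, h.1.2]

/-- **`mvfa`**: columns. -/
theorem fs_sub {t s i k : ℕ} (ht : t ≤ i) (hi : i < G.M) (hs : s < i) {x ρ ρ' : ℕ × ℤ} (hr : G.rel i x ρ)
    (hn : G.Nb s (G.loc s ρ) ρ') (r : ℤ) : G.fs k (t - 1) x r ⊆ G.fs k (i + G.m2) ρ' r := by
  have h1 := G.move_lat hi hs hr hn
  have h2 : G.w (t - 1) ≤ G.w (i + 1) := G.w_mono (by omega)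
  have h3 : 2 * G.w (i + 1) ≤ G.w (i + G.m2) :=
    (G.w_two (i + 1)).trans (G.w_mono (by have := G.m2_ge; omega))
  have h4 := G.w_pos (i + 1)
  have h5 := G.kn_nonneg
  have h6 := G.kb_ge
  have h7 := G.lam_ge
  have h8 : (G.kn + 2 * G.kb) * G.w (i + 1) ≤ G.lam * (G.w (i + G.m2) - G.w (t - 1)) :=
    mul_le_mul h7 (by linarith) h4.le (by linarith)
  intro y hy
  have h9 : G.W k (t - 1) ≤ |((y : ℝ) - G.v * (r : ℝ)) - G.lat x| := hy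
  show G.W k (i + G.m2) ≤ |((y : ℝ) - G.v * (r : ℝ)) - G.lat ρ'|
  have h10 : |((y : ℝ) - G.v * (r : ℝ)) - G.lat x| ≤ |((y : ℝ) - G.v * (r : ℝ)) - G.lat ρ'| + |G.lat x - G.lat ρ'| := by
    have e : ((y : ℝ) - G.v * (r : ℝ)) - G.lat x = (((y : ℝ) - G.v * (r : ℝ)) - G.lat ρ') - (G.lat x - G.lat ρ') := by ring
    rw [e]
    exact abs_sub _ _
  unfold W at h9 ⊢
  nlinarith

theorem fr_mono {t τ τ' : ℕ} (h : τ ≤ τ') (x : ℕ × ℤ) : G.fr t τ x ⊆ G.fr t τ' x := by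
  have h1 := G.T_mono' h
  intro r hr
  unfold fr at hr ⊢
  rw [mem_filter, mem_Icc] at hr ⊢
  refine ⟨⟨hr.1.1, ?_⟩, hr.2⟩
  linarith [hr.1.2]

theorem fs_mono {k τ τ' : ℕ} (h : τ ≤ τ') (x : ℕ × ℤ) (r : ℤ) : G.fs k τ x r ⊆ G.fs k τ' x r := by
  have h1 := G.w_mono h
  have h2 := G.lam_ge
  have h3 := G.kn_nonneg
  have h4 := G.kb_ge
  intro y hy
  have h5 : G.W k τ ≤ |((y : ℝ) - G.v * (r : ℝ)) - G.lat x| := hy
  show G.W k τ' ≤ |((y : ℝ) - G.v * (r : ℝ)) - G.lat x|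
  unfold W at h5 ⊢
  nlinarith

/-- The rows of the far events: at least one. -/
theorem fr_nonempty (t τ : ℕ) (x : ℕ × ℤ) : (G.fr t τ x).Nonempty := by
  have hp := G.T_pos (t - 1)
  refine ⟨nxt (G.T (t - 1)) ((x.1 : ℤ) + G.T t), ?_⟩
  have h1 := lt_nxt hp ((x.1 : ℤ) + G.T t)
  have h2 := nxt_le hp ((x.1 : ℤ) + G.T t)
  have h3 := G.T_pos' τ
  unfold fr
  rw [mem_filter, mem_Icc]
  refine ⟨⟨h1.le, by linarith⟩, ?_⟩
  unfold nxt
  exact dvd_mul_right _ _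

/-- The rows of the far events: at most four. -/
theorem card_fr {t τ : ℕ} (h : τ < t) (x : ℕ × ℤ) : (G.fr t τ x).card ≤ 4 := by
  have hp := G.T_pos' (t - 1)
  have h1 := G.T_mono' (show τ ≤ t - 1 by omega)
  set D : ℤ := (G.T (t - 1) : ℤ) with hD
  set a : ℤ := (x.1 : ℤ) + G.T t with ha
  have hsub : G.fr t τ x ⊆ (Icc (a / D) (a / D + 3)).image fun z => D * z := by
    intro r hr
    unfold fr at hr
    rw [mem_filter, mem_Icc, ← hD] at hr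
    obtain ⟨⟨h2, h3⟩, z, rfl⟩ := hr
    rw [mem_image]
    refine ⟨z, ?_, rfl⟩
    have h4 := Int.emod_nonneg a (show D ≠ 0 by omega)
    have h5 := Int.mul_ediv_add_emod a D
    have h6 := Int.emod_lt_of_pos a (show 0 < D by omega)
    rw [mem_Icc]
    constructor
    · by_contra h7
      have h8 : z ≤ a / D - 1 := by omega
      have h9 : D * z ≤ D * (a / D - 1) := mul_le_mul_of_nonneg_left h8 (by omega)
      nlinarith
    · by_contra h7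
      have h8 : a / D + 4 ≤ z := by omega
      have h9 : D * (a / D + 4) ≤ D * z := mul_le_mul_of_nonneg_left h8 (by omega)
      nlinarith
  refine (card_le_card hsub).trans (card_image_le.trans ?_)
  rw [Int.card_Icc]
  omega

end Gm

end

end Pool.Agent.W_7d29a1_C1.G37
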