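import Pool.Agent.W_7d29a1_C1.GeoT37
import Pool.Agent.W_7d29a1_C1.GeoN37

/-!
MP_7d29a1_pr, the attractor route, separation by moving the contact: THE COUNT OF THE SUBCELLS, with a constant which depends on `K`
only (not on `kn`, `kb`). (helper37)
-/

set_option autoImplicit false

namespace Pool.Agent.W_7d29a1_C1.G37

open MeasureTheory Finset
open Pool.Agent.W_7d29a1_F Pool.Agent.W_7d29a1_C1.S71 Pool.Agent.W_7d29a1_C1.H40 Pool.Agent.W_7d29a1_C1.H49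

noncomputable section

namespace Gm

variable (G : Gm) {F : Finset (ℕ × ℤ)}

/-- **The bound of the number of the subcells** (rows `K`, columns `Cw Cg`). -/
def A0n : ℕ := (2 * (G.K + 1) + 1) * (2 * (G.Cw * G.Cg + 1) + 1)

theorem A0n_pos : 1 ≤ G.A0n := Nat.mul_pos (by omega) (by omega)

theorem T_one (u : ℕ) : G.T (u + 1 - 2) ≤ G.K * G.T (u - 2) := by
  have hK := G.hK
  rcases u with _ | _ | u
  · exact Nat.le_mul_of_pos_left _ (by omega)
  · exact Nat.le_mul_of_pos_left _ (by omega)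
  · exact (G.T_succ_eq u).le

/-- **`ref`**: the subcells of a cell, `A0n` many (no `kn`, no `kb`). -/
theorem ref_count0 (u : ℕ) (κ : ℤ × ℤ) : ∃ A : Finset (ℤ × ℤ), A.card ≤ G.A0n ∧
    ∀ y : {c // c ∈ F}, G.loc (u + 1) y.1 = κ → G.loc u y.1 ∈ A := by
  classical
  by_cases hex : ∃ y : {c // c ∈ F}, G.loc (u + 1) y.1 = κ
  · obtain ⟨y, hy⟩ := hex
    refine ⟨bx (G.loc u y.1) (G.K + 1) (G.Cw * G.Cg + 1), (card_bx _ _ _).le, fun z hz => G.loc_near ?_ ?_⟩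
    · refine (G.cell_rows (hz.trans hy.symm)).trans ?_
      have h1 : (G.T (u + 1 - 2) : ℤ) ≤ (G.K : ℤ) * G.T (u - 2) := by exact_mod_cast G.T_one u
      linarith
    · refine (G.cell_lat (hz.trans hy.symm)).trans ((G.g_le (u + 1)).trans ((G.w_up u).trans ?_))
      have h1 : (G.Cw : ℝ) * G.w u ≤ G.Cw * (G.Cg * G.g u) := mul_le_mul_of_nonneg_left (G.w_le u) (Nat.cast_nonneg _)
      refine h1.trans (le_of_eq ?_)
      push_cast
      ring
  · exact ⟨∅, Nat.zero_le _, fun y hy => absurd ⟨y, hy⟩ hex⟩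

/-- The same, seen through several scales: the cells of the scale `u` in a cell of the scale `u + n`. -/
theorem ref_pow (u : ℕ) : ∀ (n : ℕ) (κ : ℤ × ℤ), ∃ A : Finset (ℤ × ℤ), A.card ≤ G.A0n ^ n ∧
    ∀ y : {c // c ∈ F}, G.loc (u + n) y.1 = κ → G.loc u y.1 ∈ A
  | 0, κ => ⟨{κ}, by simp, fun y hy => by rw [mem_singleton]; exact hy⟩
  | n + 1, κ => by
    classical
    obtain ⟨A, hA, hA'⟩ := G.ref_count0 (F := F) (u + n) κ
    choose B hB hB' using fun κ' => ref_pow u n κ'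
    refine ⟨A.biUnion B, ?_, fun y hy => mem_biUnion.2 ⟨_, hA' y hy, hB' _ y rfl⟩⟩
    calc (A.biUnion B).card ≤ ∑ κ' ∈ A, (B κ').card := card_biUnion_le
      _ ≤ ∑ _κ' ∈ A, G.A0n ^ n := sum_le_sum fun κ' _ => hB κ'
      _ = A.card * G.A0n ^ n := by rw [sum_const, smul_eq_mul]
      _ ≤ G.A0n * G.A0n ^ n := Nat.mul_le_mul_right _ hA
      _ = G.A0n ^ (n + 1) := by ring

end Gm

/-- In the model the count depends on `K` only. -/
theorem A0n_gmW {μ : Measure ℝ} {s : ℝ} {T0 K : ℕ} (h : Wok μ s T0 K) (M m0 m1 m2 : ℕ) (kw kn kb lam : ℝ) (hw : 0 ≤ kw) (hn : 0 ≤ kn)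
    (hb : 1 ≤ kb) (hl : kn + 2 * kb ≤ lam) (h1 : 1 ≤ m1) (h2 : 3 ≤ m2) :
    (gmW h M m0 m1 m2 kw kn kb lam hw hn hb hl h1 h2).A0n = (2 * (K + 1) + 1) * (2 * (2 * K * 2 + 1) + 1) := rfl

end

end Pool.Agent.W_7d29a1_C1.G37
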