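import Pool.Agent.W_7d29a1_C1.GeoS58

/-!
MP_7d29a1_pr, [C1] SHELL: THE COLUMNS OF THE CONFIGURATION OF (S). (helper58)

The fields `box`, `boxS`, `yp`, `reach`, `mp` of helper12's `Cf12`, from the events `V8`. `To` the scale of the outer ball, `T` of the inner
one, `row = zo - To` the lower edge row, `c0 = z - T + 1`, `c3 = z + T + 1`, `c3 + n₃ = zo + To`.
-/

set_option autoImplicit false

namespace Pool.Agent.W_7d29a1_C1.Ge58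

open MeasureTheory Finset
open Pool.Agent.W_7d29a1_F Pool.Agent.W_7d29a1_h4g Pool.Agent.W_7d29a1_H Pool.Agent.W_7d29a1_HS
open Pool.Agent.W_7d29a1_C1
open Pool.Agent.W_7d29a1_C1.T10
open Pool.Agent.W_7d29a1_C1.H60 (Cx AT)
open Pool.Agent.W_7d29a1_C1.D31 (NV31 V31 DW31)
open Pool.Agent.W_7d29a1_C1.JnC35 (ln35)
open Pool.Agent.W_7d29a1_C1.H8 (V8 S8 NB8 KV8 m8 h8)

noncomputable section

variable {μ : Measure ℝ} {s : ℝ}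

/-! ### The window of the lower edge row -/

theorem win58 {Γ : Cx} {ν : NV31} {G : Gd} {i : ℕ} {c : ℕ × ℤ} {ω : Env} (hω : ω ∈ V31 μ s Γ ν G i c) (hW : ν.W1 i ≤ ν.W2 i) (x : ℤ)
    (hx : |(x : ℝ) - ν.cn G i c (sl μ s)| ≤ ν.W2 i) : 0 ≤ x ∧ x ≤ ν.row G i c := fwl58 (pos58 hω.2 hW hx)

/-- `D` rows above the edge row: the line has moved by `t`, `0 ≤ t ≤ D`. -/
theorem far58 {cn W r t : ℝ} {row D : ℕ} (H : ∀ x : ℤ, |(x : ℝ) - cn| ≤ W → 0 ≤ x ∧ x ≤ row) (hr0 : 0 ≤ r) (hr : r + 1 ≤ W) (ht0 : 0 ≤ t)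
    (ht : t ≤ D) {x : ℤ} (hx : |(x : ℝ) - (cn + t)| ≤ r) : 0 ≤ x ∧ x ≤ (row : ℤ) + D := by
  rw [abs_le] at hx
  constructor
  · obtain ⟨y, hy⟩ : ∃ y : ℤ, y = ⌈cn - W⌉ := ⟨_, rfl⟩
    have y1 : cn - W ≤ y := by rw [hy]; exact Int.le_ceil _
    have y2 : (y : ℝ) < cn - W + 1 := by rw [hy]; exact Int.ceil_lt_add_one _
    have y3 := (H y (by
      rw [abs_le]
      constructor <;> linarith)).1
    have y4 : (y : ℝ) < x := by linarith [hx.1]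
    have y5 : y < x := by exact_mod_cast y4
    omega
  · obtain ⟨y, hy⟩ : ∃ y : ℤ, y = ⌊cn + W⌋ := ⟨_, rfl⟩
    have y1 : (y : ℝ) ≤ cn + W := by rw [hy]; exact Int.floor_le _
    have y2 : cn + W < y + 1 := by rw [hy]; exact Int.lt_floor_add_one _
    have y3 := (H y (by
      rw [abs_le]
      constructor <;> linarith)).2
    have y4 : (x : ℝ) < y + D := by linarith [hx.2]
    have y5 : x < y + (D : ℤ) := by exact_mod_cast y4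
    omega

/-- A line which moves by `sl D`: it is passed by no step and by all steps. -/
theorem reach58 {r b t D : ℝ} (h1 : r + 1 ≤ t) (h2 : r + 1 ≤ D - t) {y : ℤ} (hy : |(y : ℝ) - b| ≤ r) :
    (y : ℝ) ≤ ⌊b + t⌋ ∧ (⌊b + t⌋ : ℝ) ≤ y + D := by
  rw [abs_le] at hy
  have e1 := Int.floor_le (b + t)
  have e2 := Int.lt_floor_add_one (b + t)
  constructor <;> linarith [hy.1, hy.2]

/-- `wd n` is small against `n`. -/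
theorem wd_small58 [IsProbabilityMeasure μ] {c C : ℝ} {n₀ : ℕ} (h : In μ s c C n₀) (A : ℝ) {θ : ℝ} (hθ : 0 < θ) : ∃ n₁ : ℕ, 1 ≤ n₁ ∧
    ∀ n : ℕ, n₁ ≤ n → A * wd μ s n + 1 ≤ θ * n := by
  have h1 : Filter.Tendsto (fun n : ℕ => |A| * vA 1 μ s n + 1 / (n : ℝ)) Filter.atTop (nhds (|A| * 0 + 0)) :=
    (h.tv.const_mul |A|).add tendsto_one_div_atTop_nhds_zero_nat
  rw [mul_zero, add_zero] at h1
  obtain ⟨n₁, hn₁⟩ := Filter.eventually_atTop.1 (h1.eventually (Iio_mem_nhds hθ))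
  refine ⟨max n₁ 1, le_max_right _ _, fun n hn => ?_⟩
  have h2 : |A| * vA 1 μ s n + 1 / (n : ℝ) < θ := hn₁ n ((le_max_left _ _).trans hn)
  have hn1 : (0 : ℝ) < n := by
    have : 1 ≤ n := (le_max_right _ _).trans hn
    exact_mod_cast this
  have h3 := mul_le_mul_of_nonneg_right h2.le hn1.le
  have h4 : (|A| * vA 1 μ s n + 1 / (n : ℝ)) * n = |A| * wd μ s n + 1 := by
    unfold wd
    field_simp
  rw [h4] at h3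
  have h5 : A * wd μ s n ≤ |A| * wd μ s n := mul_le_mul_of_nonneg_right (le_abs_self A) (h.wd_nonneg n)
  linarith

/-! ### The fields -/

/-- The columns of one configuration. -/
structure Cl58 (μ : Measure ℝ) (s : ℝ) (Γ : Cx) (ν : NV31) (G : Gd) (i : ℕ) (q₀ : ℕ × ℤ) (T To n₃ : ℕ) (ω₁' Ke : ℝ) : Prop where
  zo : To ≤ (G.z (i + ν.m₂) q₀).1
  z0 : T ≤ (G.z i q₀).1
  zz : (G.z (i + ν.m₂) q₀).1 ≤ (G.z i q₀).1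
  N : (G.z (i + ν.m₂) q₀).1 + To < Γ.N
  upp : (G.z i q₀).1 + T + 1 + n₃ = (G.z (i + ν.m₂) q₀).1 + To
  half : To ≤ 2 * (2 * T + n₃)
  box : ∀ x : ℤ, |(x : ℝ) - ν.cn G i q₀ (sl μ s)| ≤ ω₁' * wd μ s To → x ∈ Icc 0 Γ.hi
  boxS : ∀ y : ℤ, |(y : ℝ) - ((G.z i q₀).2 + sl μ s * ((((G.z i q₀).1 - T + 1 : ℕ) : ℝ) - (G.z i q₀).1))| ≤ (Ke + 2) * wd μ s To →
    y ∈ Icc (0 : ℤ) (Γ.k + ((G.z i q₀).1 - T + 1 : ℕ))
  yp : ⌊ν.cn' G i q₀ (sl μ s)⌋ ∈ Icc 0 Γ.hi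
  reach : ∀ y : ℤ, |(y : ℝ) - ((G.z i q₀).2 + sl μ s * ((((G.z i q₀).1 - T + 1 : ℕ) : ℝ) - (G.z i q₀).1))| ≤ (Ke + 1) * wd μ s To →
    y ≤ ⌊ν.cn' G i q₀ (sl μ s)⌋ ∧ ⌊ν.cn' G i q₀ (sl μ s)⌋ ≤ y + 2 * T + n₃

/-- **THE FIELDS FROM THE EVENTS `V31`.** -/
theorem cl58 {Γ : Cx} {ν : NV31} {G : Gd} {L i : ℕ} {q₀ : ℕ × ℤ} {ω : Env} (hω : ω ∈ V31 μ s Γ ν G i (G.z i q₀)) (hG : G.Ok L)
    (hL : i + ν.m₂ ≤ L) (hs0 : 0 ≤ sl μ s) (hs1 : sl μ s ≤ 1) {T To n₃ : ℕ} (eTo : To = ν.Ts (i + ν.m₂)) (hTo : To ≤ (G.z (i + ν.m₂) q₀).1)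
    (hT : T < To) (hN : (G.z (i + ν.m₂) q₀).1 + To < Γ.N)
    (hup : (G.z i q₀).1 + T + 1 + n₃ = (G.z (i + ν.m₂) q₀).1 + To) (hhalf : To ≤ 2 * (2 * T + n₃)) {ω₁' Ke : ℝ} (hKe : 0 ≤ Ke)
    (hwo : 1 ≤ wd μ s To) (hW12 : ν.W1 i ≤ ν.W2 i) (hW2 : ω₁' * wd μ s To ≤ ν.W2 i) (hKw : Ke + 3 ≤ ω₁')
    (hr1 : 2 * ((Ke + 1) * wd μ s To + 1) ≤ sl μ s * To) (hr2 : 2 * ((Ke + 1) * wd μ s To + 1) ≤ (1 - sl μ s) * To) :
    Cl58 μ s Γ ν G i q₀ T To n₃ ω₁' Ke := by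
  have hz : G.z i (G.z i q₀) = G.z i q₀ := hG.z_z le_rfl (by omega) q₀
  have hzo : G.z (i + ν.m₂) (G.z i q₀) = G.z (i + ν.m₂) q₀ := hG.z_z (Nat.le_add_right _ _) hL q₀
  have hzz : (G.z (i + ν.m₂) q₀).1 ≤ (G.z i q₀).1 := by
    have h1 := Gd.row_le (G := G) (i + ν.m₂) (G.z i q₀)
    rw [hzo] at h1
    exact h1
  have er : ν.row G i (G.z i q₀) = ν.row G i q₀ := by
    unfold NV31.row
    rw [hzo]
  have ec : ν.cn G i (G.z i q₀) (sl μ s) = ν.cn G i q₀ (sl μ s) := by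
    unfold NV31.cn
    rw [hz, er]
  have H := win58 hω hW12
  rw [er, ec] at H
  have ero : ν.row G i q₀ = (G.z (i + ν.m₂) q₀).1 - To := by
    unfold NV31.row
    rw [eTo]
  obtain ⟨ro, hro⟩ : ∃ ro : ℕ, ro = ν.row G i q₀ := ⟨_, rfl⟩
  obtain ⟨cn, hcn⟩ : ∃ cn : ℝ, cn = ν.cn G i q₀ (sl μ s) := ⟨_, rfl⟩
  obtain ⟨z, hzd⟩ : ∃ z, z = G.z i q₀ := ⟨_, rfl⟩
  have hcn' : cn = (z.2 : ℝ) + sl μ s * ((ro : ℝ) - z.1) := by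
    rw [hcn, hzd, hro]
    rfl
  have ecn' : ν.cn' G i q₀ (sl μ s) = cn + sl μ s * ((2 * To : ℕ) : ℝ) := by
    unfold NV31.cn' NV31.nr
    rw [← eTo, hcn]
  rw [← hro, ← hcn] at H
  have hro' : ro = (G.z (i + ν.m₂) q₀).1 - To := hro.trans ero
  have hKw' : Ke * wd μ s To + 3 * wd μ s To ≤ ν.W2 i := by
    have := mul_le_mul_of_nonneg_right hKw (show 0 ≤ wd μ s To by linarith)
    linarith
  have hKe0 : 0 ≤ Ke * wd μ s To := mul_nonneg hKe (by linarith)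
  -- the line at `c0`
  obtain ⟨c0, hc0⟩ : ∃ c0 : ℕ, c0 = (G.z i q₀).1 - T + 1 := ⟨_, rfl⟩
  have hc0r : ro ≤ c0 := by omega
  have hDr : ((c0 - ro : ℕ) : ℝ) = (c0 : ℝ) - ro := Nat.cast_sub hc0r
  have eLn : (z.2 : ℝ) + sl μ s * ((c0 : ℝ) - z.1) = cn + sl μ s * ((c0 - ro : ℕ) : ℝ) := by
    rw [hcn', hDr]
    ring
  have hD0 : (0 : ℝ) ≤ ((c0 - ro : ℕ) : ℝ) := Nat.cast_nonneg _
  have hrz : T ≤ (G.z i q₀).1 := by omega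
  refine ⟨hTo, hrz, hzz, hN, hup, hhalf, fun x hx => ?_, fun y hy => ?_, ?_, fun y hy => ?_⟩
  · rw [← hcn] at hx
    obtain ⟨h1, h2⟩ := H x (hx.trans hW2)
    rw [mem_Icc]
    refine ⟨h1, ?_⟩
    unfold Cx.hi
    omega
  · rw [← hzd] at hc0
    rw [← hzd, ← hc0, eLn] at hy
    obtain ⟨h1, h2⟩ := far58 H (r := (Ke + 2) * wd μ s To) (by linarith) (by linarith) (mul_nonneg hs0 hD0) (mul_le_of_le_one_left hD0 hs1) hy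
    rw [mem_Icc, ← hzd, ← hc0]
    refine ⟨h1, ?_⟩
    omega
  · rw [ecn']
    have hT0 : (0 : ℝ) ≤ ((2 * To : ℕ) : ℝ) := Nat.cast_nonneg _
    obtain ⟨h1, h2⟩ := far58 H (r := 1) zero_le_one (by linarith) (mul_nonneg hs0 hT0) (mul_le_of_le_one_left hT0 hs1)
      (x := ⌊cn + sl μ s * ((2 * To : ℕ) : ℝ)⌋) (by
        have e1 := Int.floor_le (cn + sl μ s * ((2 * To : ℕ) : ℝ))
        have e2 := Int.lt_floor_add_one (cn + sl μ s * ((2 * To : ℕ) : ℝ))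
        rw [abs_le]
        constructor <;> linarith)
    rw [mem_Icc]
    refine ⟨h1, ?_⟩
    unfold Cx.hi
    omega
  · have hDD : c0 - ro + (2 * T + n₃) = 2 * To := by omega
    rw [← hzd] at hc0
    rw [← hzd, ← hc0, eLn] at hy
    have e1 : cn + sl μ s * ((2 * To : ℕ) : ℝ) = (cn + sl μ s * ((c0 - ro : ℕ) : ℝ)) + sl μ s * ((2 * T + n₃ : ℕ) : ℝ) := by
      rw [← hDD]
      push_cast
      ring
    rw [ecn', e1]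
    have hh : (To : ℝ) ≤ 2 * ((2 * T + n₃ : ℕ) : ℝ) := by exact_mod_cast hhalf
    have k1 := mul_le_mul_of_nonneg_left hh hs0
    have k2 := mul_le_mul_of_nonneg_left hh (show 0 ≤ 1 - sl μ s by linarith)
    obtain ⟨h1, h2⟩ := reach58 (r := (Ke + 1) * wd μ s To) (b := cn + sl μ s * ((c0 - ro : ℕ) : ℝ)) (t := sl μ s * ((2 * T + n₃ : ℕ) : ℝ))
      (D := ((2 * T + n₃ : ℕ) : ℝ)) (by linarith) (by linarith) hy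
    generalize ⌊cn + sl μ s * ((c0 - ro : ℕ) : ℝ) + sl μ s * ((2 * T + n₃ : ℕ) : ℝ)⌋ = f at h1 h2 ⊢
    have h3 : (f : ℝ) ≤ ((y + (2 * T + n₃ : ℕ) : ℤ) : ℝ) := by
      rw [Int.cast_add, Int.cast_natCast]
      exact h2
    have h4 := Int.cast_le.1 h3
    refine ⟨Int.cast_le.1 h1, ?_⟩
    push_cast at h4
    linarith

/-- The rows of one configuration. -/
theorem rows58 {h₀ K L : ℕ} {G : Gd} (hG : G.Ok L) (hH : ∀ v, G.H v = Hg h₀ K v) (hK : 4 ≤ K) {i m₂ : ℕ} (hi : 1 ≤ i) (hm : 1 ≤ m₂)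
    (hL : i + m₂ ≤ L) (h1 : 1 ≤ h₀) (q₀ : ℕ × ℤ) : Tg h₀ K i < Tg h₀ K (i + m₂) ∧
      (G.z i q₀).1 + Tg h₀ K i + 1 ≤ (G.z (i + m₂) q₀).1 + Tg h₀ K (i + m₂) ∧
      Tg h₀ K (i + m₂) + (G.z i q₀).1 + Tg h₀ K i + 1 ≤ 2 * (2 * Tg h₀ K i + ((G.z (i + m₂) q₀).1 + Tg h₀ K (i + m₂))) + 1 ∧
      Tg h₀ K (i + m₂) ≤ 2 * (2 * Tg h₀ K i + ((G.z (i + m₂) q₀).1 + Tg h₀ K (i + m₂) - ((G.z i q₀).1 + Tg h₀ K i + 1))) := by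
  have a1 := Gd.row_le (G := G) i q₀
  have a2 := hG.row_lt hL q₀
  have a3 := Tg_Hg (h₀ := h₀) (K := K) (v := i + m₂) (by omega)
  have a4 := Tg_lt (h₀ := h₀) (K := K) hi m₂
  have a5 : 4 ≤ K ^ m₂ := hK.trans (Nat.le_self_pow (by omega) K)
  have a6 : Tg h₀ K i * 4 ≤ Tg h₀ K (i + m₂) := by
    rw [a4]
    exact Nat.mul_le_mul_left _ a5
  have a7 : 1 ≤ Tg h₀ K i := by
    rw [Tg_pos hi]
    have : 0 < h₀ * K ^ i := Nat.mul_pos (by omega) (Nat.pow_pos (by omega))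
    nlinarith
  rw [hH] at a2
  refine ⟨?_, ?_, ?_, ?_⟩ <;> omega

/-- **THE COLUMNS FROM THE EVENTS OF `FrS8`**: `w₁ ≤ w₁'`, `Ke + 3 ≤ w₁'`. -/
theorem clS58 [IsProbabilityMeasure μ] {c C : ℝ} {n₀ : ℕ} (h : In μ s c C n₀) {Ke : ℝ} (hKe : 0 ≤ Ke) : ∃ n₁ : ℕ, 1 ≤ n₁ ∧
    ∀ {Γ : Cx} {R : ℝ} {B : ℕ} {C₀ : ℝ} {K L : ℕ} {G : Gd} {e e₀ : ℝ} {Q x n : ℕ}, GW μ s R B C₀ (h8 Q e₀ n) K L G → 4 ≤ K →
    H8.GridN8 e e₀ K Q x n → e ≤ 1 → 2 ≤ n → m8 K e n + x ≤ L → ∀ {m₂ : ℕ} {κ : KV8} {ν : NV31}, NB8 μ s (Tg (h8 Q e₀ n) K) m₂ κ ν →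
    1 ≤ m₂ → ∀ {i : ℕ} {q₀ : ℕ × ℤ} {u : ℝ} {ω : Env}, ω ∈ V8 μ s Γ ν u G i (G.z i q₀) → q₀ ∈ S8 e K n G Γ → 1 ≤ i →
    i + m₂ ≤ m8 K e n + x → n₁ ≤ Tg (h8 Q e₀ n) K (i + m₂) → κ.w₁ ≤ κ.w₁' → Ke + 3 ≤ κ.w₁' →
    Cl58 μ s Γ ν G i q₀ (Tg (h8 Q e₀ n) K i) (Tg (h8 Q e₀ n) K (i + m₂))
      ((G.z (i + m₂) q₀).1 + Tg (h8 Q e₀ n) K (i + m₂) - ((G.z i q₀).1 + Tg (h8 Q e₀ n) K i + 1)) κ.w₁' Ke := by
  have hs := sl_mem (μ := μ) h.em h.nd s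
  obtain ⟨θ, hθ⟩ : ∃ θ : ℝ, θ = min (sl μ s) (1 - sl μ s) / 2 := ⟨_, rfl⟩
  have hθ0 : 0 < θ := by
    rw [hθ]
    have := lt_min hs.1 (show 0 < 1 - sl μ s by linarith)
    linarith
  have hθ1 : 2 * θ ≤ sl μ s := by
    rw [hθ]
    linarith [min_le_left (sl μ s) (1 - sl μ s)]
  have hθ2 : 2 * θ ≤ 1 - sl μ s := by
    rw [hθ]
    linarith [min_le_right (sl μ s) (1 - sl μ s)]
  obtain ⟨n₁, hn₁, H⟩ := wd_small58 h (Ke + 1) hθ0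
  refine ⟨n₁, hn₁, ?_⟩
  intro Γ R B C₀ K L G e e₀ Q x n g hK hN he1 hn2 hL m₂ κ ν N hm₂ i q₀ u ω hω hq hi hix hT hw hKw
  obtain ⟨h0, hh0⟩ : ∃ h0 : ℕ, h0 = h8 Q e₀ n := ⟨_, rfl⟩
  have hTo := To58 hN (by omega) g.ok g.H hL hq (i := i + m₂) (by omega) hix
  obtain ⟨r1, r2, _, r4⟩ := rows58 g.ok g.H hK hi hm₂ (by omega) g.h1 q₀
  have hNN := hN58 hq (i := i + m₂) (T_lt58 hN (by omega) he1 hn2 hix).2
  have hwo : 1 ≤ wd μ s (Tg (h8 Q e₀ n) K (i + m₂)) := by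
    have h1 := g.small (i + m₂) (by omega)
    have h2 : (0 : ℝ) ≤ ((i + m₂ : ℕ) : ℝ) := Nat.cast_nonneg _
    linarith
  have hwn := H _ hT
  have hT0 : (0 : ℝ) ≤ (Tg (h8 Q e₀ n) K (i + m₂) : ℝ) := Nat.cast_nonneg _
  have k1 := mul_le_mul_of_nonneg_right hθ1 hT0
  have k2 := mul_le_mul_of_nonneg_right hθ2 hT0
  have em := N.em
  refine cl58 hω.1.2.1 g.ok (by rw [em]; omega) hs.1.le hs.2.le (by rw [N.eT, em]) (by rw [em]; exact hTo) r1 (by rw [em]; omega)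
    (by rw [em]; omega) r4 hKe hwo ((N.hW1 i).trans ((mul_le_mul_of_nonneg_right hw (by linarith)).trans (N.hW21 i))) (N.hW21 i) hKw
    (by linarith) (by linarith)

/-- **`mp`**: a column near the line at the row `c3`. -/
theorem mp58 {Γ : Cx} {G : Gd} {T i : ℕ} {q₀ : ℕ × ℤ} {ρ : ℝ} (H : Geo58 μ s Γ G T i q₀ ρ) {ζ : ℤ}
    (hζ : |((ζ : ℤ) : ℝ) - ((G.V i : ℤ) / 2 : ℤ) - sl μ s * (T + 1)| ≤ ρ * wd μ s T) :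
    (G.z i q₀).2 + ζ ∈ Icc (0 : ℤ) (Γ.k + ((G.z i q₀).1 + T + 1 : ℕ)) := by
  obtain ⟨h1, h2⟩ := H.col ((G.z i q₀).1 + T + 1) ((G.z i q₀).2 + ζ) (by omega) (by
    refine le_trans (le_of_eq ?_) hζ
    congr 1
    unfold ln35 xm
    push_cast
    ring)
  rw [mem_Icc]
  refine ⟨h1, ?_⟩
  omega

end

end Pool.Agent.W_7d29a1_C1.Ge58
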