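import Pool.Agent.W_7d29a1_C1.Geo58

/-!
MP_7d29a1_pr, [C1] SHELL: THE GEOMETRY OF THE FRESH BALL FROM THE EVENTS `V8` OF `FrS8`. (helper58)

`To58` : a site of `S8` has `T ≤ z.1` at every level (the rows of `S8` start at `n ^ e`); `geoS58` : `Geo58` from `V8`, `NB8`, `S8`.
-/

set_option autoImplicit false

namespace Pool.Agent.W_7d29a1_C1.Ge58

open MeasureTheory Finset
open Pool.Agent.W_7d29a1_F Pool.Agent.W_7d29a1_h4g Pool.Agent.W_7d29a1_H Pool.Agent.W_7d29a1_HS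
open Pool.Agent.W_7d29a1_C1
open Pool.Agent.W_7d29a1_C1.T10
open Pool.Agent.W_7d29a1_C1.H60 (Cx AT)
open Pool.Agent.W_7d29a1_C1.D31 (NV31 V31 DW31)
open Pool.Agent.W_7d29a1_C1.H8 (V8 S8 NB8 KV8 m8 h8)

noncomputable section

variable {μ : Measure ℝ} {s : ℝ}

/-- **The balls of all levels around the sites of `S8` are above the row `0`.** -/
theorem To58 {e e₀ : ℝ} {K Q x n : ℕ} (g : H8.GridN8 e e₀ K Q x n) (hK : 1 ≤ K) {G : Gd} {L : ℕ} (hG : G.Ok L)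
    (hH : ∀ v, G.H v = Hg (h8 Q e₀ n) K v) (hL : m8 K e n + x ≤ L) {Γ : Cx} {q₀ : ℕ × ℤ} (hq : q₀ ∈ S8 e K n G Γ) {i : ℕ} (hi : 1 ≤ i)
    (hix : i ≤ m8 K e n + x) : Tg (h8 Q e₀ n) K i ≤ (G.z i q₀).1 := by
  have h1 : G.H (m8 K e n) * (⌈(n : ℝ) ^ e⌉₊ / G.H (m8 K e n)) ≤ q₀.1 := by
    have h2 : q₀ ∈ T98.Sc G (m8 K e n) (⌈(n : ℝ) ^ e⌉₊ / G.H (m8 K e n))
      ((Γ.N - n - T98.dT (G.H (m8 K e n)) ((n : ℝ) ^ e)) / G.H (m8 K e n)) Γ.N := hq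
    unfold T98.Sc at h2
    exact (T98.mem_St.1 h2).1.1
  have h0 : 0 < G.H (m8 K e n) := hG.H0 _ (by omega)
  have h3 := Nat.lt_mul_div_succ ⌈(n : ℝ) ^ e⌉₊ h0
  have h4 := hG.row_lt (show i ≤ L by omega) q₀
  have h5 : (4 * Tg (h8 Q e₀ n) K (m8 K e n + x) : ℝ) ≤ ⌈(n : ℝ) ^ e⌉₊ := g.TL.trans (Nat.le_ceil _)
  have h6 : 4 * Tg (h8 Q e₀ n) K (m8 K e n + x) ≤ ⌈(n : ℝ) ^ e⌉₊ := by exact_mod_cast h5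
  have h7 : Tg (h8 Q e₀ n) K i ≤ Tg (h8 Q e₀ n) K (m8 K e n + x) := Tg_mono hK hix
  have h8' := Tg_Hg (h₀ := h8 Q e₀ n) (K := K) hi
  have h9 : G.H (m8 K e n) ≤ Tg (h8 Q e₀ n) K (m8 K e n + x) := by
    have a1 : Hg (h8 Q e₀ n) K (m8 K e n) ≤ Hg (h8 Q e₀ n) K (m8 K e n + x) := Hg_mono hK (Nat.le_add_right _ _)
    have a2 := Tg_Hg (h₀ := h8 Q e₀ n) (K := K) (v := m8 K e n + x) (by omega)
    rw [hH]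
    omega
  have h10 : 2 * G.H i = Tg (h8 Q e₀ n) K i := by rw [hH, h8']
  rw [mul_add, mul_one] at h3
  omega

/-- **`Geo58` FROM THE EVENTS OF `FrS8`**: `w₁ ≤ w₁'`, `C₀ + ρ + 1 ≤ w₁'`. -/
theorem geoS58 [IsProbabilityMeasure μ] {c C : ℝ} {n₀ : ℕ} (h : In μ s c C n₀) {Γ : Cx} {R : ℝ} {B : ℕ} {C₀ : ℝ} {K L : ℕ} {G : Gd}
    {e e₀ : ℝ} {Q x n : ℕ} (g : GW μ s R B C₀ (h8 Q e₀ n) K L G) (hN : H8.GridN8 e e₀ K Q x n) (he1 : e ≤ 1) (hn2 : 2 ≤ n)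
    (hL : m8 K e n + x ≤ L) {m₂ : ℕ} {κ : KV8} {ν : NV31} (N : NB8 μ s (Tg (h8 Q e₀ n) K) m₂ κ ν) {i : ℕ} {q₀ : ℕ × ℤ} {u : ℝ} {ω : Env}
    (hω : ω ∈ V8 μ s Γ ν u G i (G.z i q₀)) (hq : q₀ ∈ S8 e K n G Γ) (hi : 1 ≤ i) (hix : i + m₂ ≤ m8 K e n + x) {ρ : ℝ} (hρ : 0 ≤ ρ)
    (hwo : wd μ s (Tg (h8 Q e₀ n) K i) ≤ wd μ s (Tg (h8 Q e₀ n) K (i + m₂))) (hw : κ.w₁ ≤ κ.w₁') (hw' : C₀ + ρ + 1 ≤ κ.w₁') :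
    Geo58 μ s Γ G (Tg (h8 Q e₀ n) K i) i q₀ ρ := by
  have hK1 : 1 ≤ K := by have := g.K2; omega
  exact geoN58 h g N hω.1 hi (by omega) hρ hwo hw hw' (hN58 hq (T_lt58 hN hK1 he1 hn2 (by omega)).2)

end

end Pool.Agent.W_7d29a1_C1.Ge58
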