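import Pool.Agent.W_7d29a1_C1.GeoI10

/-!
MP_7d29a1_pr, attractor route, the shell (helper10): the grid in the units `wd (2 T v)` of the level events `EL60`. For every `δ > 0` there
is a grid whose boxes of level `v` are narrower than `δ wd (2 T v)`, errors included (`GU`, `geoU10`); lateral distances (`lat16`) between
the sites and the base points of all levels, rows, number of places, number of levels.
-/

set_option autoImplicit false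

namespace Pool.Agent.W_7d29a1_C1.T10

open MeasureTheory Filter Topology
open Pool.Agent.W_7d29a1_F Pool.Agent.W_7d29a1_h4g Pool.Agent.W_7d29a1_H Pool.Agent.W_7d29a1_HS
open Pool.Agent.W_7d29a1_C1.S71 Pool.Agent.W_7d29a1_C1.U16

noncomputable section

/-- **THE GRID IN THE UNITS OF THE LEVEL EVENTS**. -/
structure GU (μ : Measure ℝ) (s : ℝ) (δ C₀ : ℝ) (h₀ K L : ℕ) (G : Gd) : Prop where
  K2 : 2 ≤ K
  h1 : 1 ≤ h₀
  ok : G.Ok L
  nest : G.Nest L (H60.AT (Tg h₀ K))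
  H : ∀ v, G.H v = Hg h₀ K v
  V01 : G.V 0 = G.V 1
  /-- one width is at least one column -/
  w1 : ∀ v, 1 ≤ v → 1 ≤ wd μ s (2 * Tg h₀ K v)
  /-- the boxes are narrow, errors included -/
  V : ∀ v, 1 ≤ v → v ≤ L → (G.V v : ℝ) + (v + 2) ≤ δ * wd μ s (2 * Tg h₀ K v)
  /-- and not too narrow -/
  V' : ∀ v, 1 ≤ v → v ≤ L → wd μ s (2 * Tg h₀ K v) ≤ C₀ * K * G.V v
  err : ∀ v, v ≤ L → ∀ r, r < G.H v → |(G.s r : ℝ) - sl μ s * r| ≤ v + 1
  err' : ∀ r, |(G.s r : ℝ) - sl μ s * r| ≤ L + 2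
  /-- the number of places -/
  card : ∀ v t, v ≤ t → t ≤ L → ((G.subs v t).card : ℝ) ≤ C₀ * K * (K : ℝ) ^ (2 * (t - v))

/-- The places of the levels `0` and `1` are the same. -/
theorem subs_congr {G : Gd} {v v' t t' : ℕ} (h1 : G.H v = G.H v') (h2 : G.V v = G.V v') (h3 : G.H t = G.H t') (h4 : G.V t = G.V t') :
    G.subs v t = G.subs v' t' := by
  unfold Gd.subs
  rw [h1, h2, h3, h4]

/-- **EXISTENCE**: `C₀` depends on `δ` and the law only. -/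
theorem geoU10 {μ : Measure ℝ} [IsProbabilityMeasure μ] {s c C : ℝ} {n₀ : ℕ} (hI : In μ s c C n₀) {δ : ℝ} (hδ : 0 < δ) :
    ∃ C₀ : ℝ, 0 < C₀ ∧ ∃ n₁ : ℕ, 1 ≤ n₁ ∧ ∀ (K h₀ L : ℕ), 2 ≤ K → n₁ ≤ h₀ → ∃ G : Gd, GU μ s δ C₀ h₀ K L G := by
  obtain ⟨κ, hκ, hκ1, H⟩ := geo10 hI
  obtain ⟨a, k, n₂, _, hW⟩ := grW17 hI
  obtain ⟨n₃, hn₃⟩ := Pool.Agent.W_7d29a1_HZ.wd'_eq hI
  have hk := hW.k0
  have hb := hW.b0
  obtain ⟨D, hD⟩ : ∃ D : ℝ, D = δ * κ ^ 2 / 4 := ⟨_, rfl⟩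
  have hD0 : 0 < D := by rw [hD]; positivity
  obtain ⟨e, hee⟩ : ∃ e : ℝ, e = δ * κ / 4 := ⟨_, rfl⟩
  have he0 : 0 < e := by rw [hee]; positivity
  obtain ⟨n₁, hn₁, HG⟩ := H hD0 he0
  obtain ⟨b, hbd⟩ : ∃ b : ℝ, b = (2 : ℝ) ^ (1 - a) := ⟨_, rfl⟩
  have hb0 : 0 < b := by rw [hbd]; positivity
  have hC0 : 0 < max ((κ ^ 2)⁻¹) (k⁻¹ * b / D) := lt_max_of_lt_left (by positivity)
  refine ⟨max ((κ ^ 2)⁻¹) (k⁻¹ * b / D), hC0, max n₁ (max n₂ n₃), hn₁.trans (le_max_left _ _), fun K h₀ L hK hh => ?_⟩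
  obtain ⟨G, g, g2, g1⟩ := HG K h₀ L hK ((le_max_left _ _).trans hh)
  have hh2 : n₂ ≤ h₀ := ((le_max_left _ _).trans (le_max_right _ _)).trans hh
  have hh3 : n₃ ≤ h₀ := ((le_max_right _ _).trans (le_max_right _ _)).trans hh
  have hh1 : 1 ≤ h₀ := hn₁.trans ((le_max_left _ _).trans hh)
  have hK1 : 1 ≤ K := by omega
  have hK0 : (0 : ℝ) < K := by exact_mod_cast hK1
  have hT : ∀ v, 1 ≤ v → h₀ ≤ Tg h₀ K v := fun v hv => by
    rw [Tg_pos hv, mul_comm 2 h₀, mul_assoc]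
    exact Nat.le_mul_of_pos_right _ (Nat.mul_pos two_pos (Nat.pow_pos hK1))
  -- the width at `2 T v` from above
  have w2 : ∀ v, 1 ≤ v → wd μ s (2 * Tg h₀ K v) ≤ k⁻¹ * b * wd μ s (Tg h₀ K v) := fun v hv => by
    have h1 := hW.up (Tg h₀ K v) (2 * Tg h₀ K v) (hh2.trans (hT v hv)) (by omega)
    have h0 : (0 : ℝ) < (Tg h₀ K v : ℕ) := by exact_mod_cast hh1.trans (hT v hv)
    have e1 : ((2 * Tg h₀ K v : ℕ) : ℝ) / (Tg h₀ K v : ℕ) = 2 := by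
      push_cast
      field_simp
    rw [e1, ← hbd] at h1
    rw [mul_assoc, inv_mul_eq_div, le_div_iff₀ hk]
    linarith
  have cardpos : ∀ v t, 1 ≤ v → v ≤ t → t ≤ L → ((G.subs v t).card : ℝ) ≤ max ((κ ^ 2)⁻¹) (k⁻¹ * b / D) * K * (K : ℝ) ^ (2 * (t - v)) :=
    fun v t hv hvt ht => by
    refine (g.card hκ hD0 hh1 hK1 hv hvt ht (by linarith [g1 v hv])).trans ?_
    refine mul_le_mul_of_nonneg_right ?_ (by positivity)
    rw [div_eq_mul_inv, mul_comm]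
    exact mul_le_mul_of_nonneg_right (le_max_left _ _) hK0.le
  refine ⟨G, hK, hh1, g.ok, g.nest, g.H, g.V01, fun v hv => ?_, fun v hv hvL => ?_, fun v hv hvL => ?_, g.err, g.err', ?_⟩
  · -- one column
    have h1 : n₃ ≤ 2 * Tg h₀ K v := hh3.trans ((hT v hv).trans (by omega))
    refine le_trans ?_ (hn₃ _ h1).2.2
    refine Real.one_le_rpow ?_ (by norm_num)
    exact_mod_cast (show 1 ≤ 2 * Tg h₀ K v by have := hh1.trans (hT v hv); omega)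
  · have h1 := g.Vle v hv hvL
    have h2 := g.small v hv
    have h3 := g2 v hv
    have h4 := g1 v hv
    have hv0 : (1 : ℝ) ≤ v := by exact_mod_cast hv
    have e1 : D / κ = δ * κ / 4 := by
      rw [hD]
      field_simp
    rw [e1] at h1
    rw [hee] at h2
    have h5 : δ * (κ * wd μ s (Tg h₀ K v)) ≤ δ * wd μ s (2 * Tg h₀ K v) := mul_le_mul_of_nonneg_left h3 hδ.le
    have h6 : 0 < δ * (κ * wd μ s (Tg h₀ K v)) := by positivity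
    have h7 : δ * κ / 4 * wd μ s (Tg h₀ K v) = δ * (κ * wd μ s (Tg h₀ K v)) / 4 := by ring
    rw [h7] at h1 h2
    linarith
  · have h1 := g.leV v hv hvL
    have h2 := w2 v hv
    have h3 := g1 v hv
    have hV0 : (0 : ℝ) ≤ G.V v := by positivity
    have h4 : wd μ s (Tg h₀ K v) ≤ K / D * G.V v := by
      rw [div_mul_eq_mul_div, div_le_iff₀ hK0] at h1
      rw [div_mul_eq_mul_div, le_div_iff₀ hD0]
      linarith
    calc wd μ s (2 * Tg h₀ K v) ≤ k⁻¹ * b * wd μ s (Tg h₀ K v) := h2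
      _ ≤ k⁻¹ * b * (K / D * G.V v) := mul_le_mul_of_nonneg_left h4 (by positivity)
      _ = k⁻¹ * b / D * K * G.V v := by field_simp
      _ ≤ max ((κ ^ 2)⁻¹) (k⁻¹ * b / D) * K * G.V v :=
        mul_le_mul_of_nonneg_right (mul_le_mul_of_nonneg_right (le_max_right _ _) hK0.le) hV0
  · intro v t hvt ht
    rcases Nat.eq_zero_or_pos t with ht0 | ht0
    · have hv0 : v = 0 := by omega
      subst hv0
      subst ht0
      have h1 : (G.subs 0 0).card ≤ 1 := by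
        refine (Gd.card_subs G 0 0).trans ?_
        rw [Nat.div_self (g.ok.H0 0 ht), Nat.div_self (g.ok.V0 0 ht)]
      have h2 : ((G.subs 0 0).card : ℝ) ≤ 1 := by exact_mod_cast h1
      have h3 : (1 : ℝ) ≤ (κ ^ 2)⁻¹ := one_le_inv₀ (by positivity) |>.2 (pow_le_one₀ hκ.le hκ1)
      have h4 : (1 : ℝ) ≤ max ((κ ^ 2)⁻¹) (k⁻¹ * b / D) := h3.trans (le_max_left _ _)
      have h5 : (1 : ℝ) ≤ K := by exact_mod_cast hK1
      rw [Nat.sub_self, Nat.mul_zero, pow_zero, mul_one]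
      exact h2.trans (one_le_mul_of_one_le_of_one_le h4 h5)
    · rcases Nat.eq_zero_or_pos v with hv0 | hv0
      · subst hv0
        have e1 : G.subs 0 t = G.subs 1 t := subs_congr g.H01 g.V01 rfl rfl
        rw [e1]
        refine (cardpos 1 t le_rfl ht0 ht).trans ?_
        exact mul_le_mul_of_nonneg_left (pow_le_pow_right₀ (by exact_mod_cast hK1) (by omega)) (by positivity)
      · exact cardpos v t hv0 hvt ht

/-! ### Lateral distances -/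

section lat

variable {μ : Measure ℝ} {s : ℝ}

theorem lat_swap (p q : Pt) : lat16 μ s p q = -lat16 μ s q p := by
  unfold lat16
  push_cast
  ring

theorem lat_self (p : Pt) : lat16 μ s p p = 0 := by
  unfold lat16
  simp

theorem lat_chain (p q r : Pt) : lat16 μ s p r = lat16 μ s p q + lat16 μ s q r := by
  unfold lat16
  push_cast
  ring

theorem lat_tri (p q r : Pt) : |lat16 μ s p r| ≤ |lat16 μ s p q| + |lat16 μ s q r| := by
  rw [lat_chain p q r]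
  exact abs_add_le _ _

theorem lat_shift (p q a : Pt) : lat16 μ s (p + a) (q + a) = lat16 μ s p q := by
  unfold lat16
  have e1 : (q + a).2 - (p + a).2 = q.2 - p.2 := by
    show q.2 + a.2 - (p.2 + a.2) = _
    ring
  have e2 : (q + a).1 - (p + a).1 = q.1 - p.1 := by
    show q.1 + a.1 - (p.1 + a.1) = _
    ring
  rw [e1, e2]

namespace GU

variable {δ C₀ : ℝ} {h₀ K L : ℕ} {G : Gd}

theorem K1 (g : GU μ s δ C₀ h₀ K L G) : 1 ≤ K := by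
  have := g.K2
  omega

theorem TH (g : GU μ s δ C₀ h₀ K L G) {v : ℕ} (hv : 1 ≤ v) : Tg h₀ K v = 2 * G.H v := by rw [g.H, Tg_Hg hv]

theorem H01 (g : GU μ s δ C₀ h₀ K L G) : G.H 0 = G.H 1 := by rw [g.H, g.H, Hg_zero]

theorem z01 (g : GU μ s δ C₀ h₀ K L G) (c : ℕ × ℤ) : G.z 0 c = G.z 1 c := by
  unfold Gd.z
  rw [g.H01, g.V01]

/-- **One place in the innermost slab.** -/
theorem dg0 (g : GU μ s δ C₀ h₀ K L G) (hL : 1 ≤ L) (c : ℕ × ℤ) : G.dg 0 c = 0 := by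
  have h1 := g.ok.z_dg (show 0 < L by omega) c
  rw [g.z01] at h1
  exact (add_eq_left.1 h1.symm)

theorem A0 (_ : GU μ s δ C₀ h₀ K L G) : H60.AT (Tg h₀ K) 0 = ∅ := H60.AT_zero (Tg_zero h₀ K)

/-- The scales of `slabsT60`: `T (v + 1) = T₁ K ^ v`. -/
theorem T1 (h₀ K v : ℕ) : Tg h₀ K (v + 1) = 2 * h₀ * K * K ^ v := by
  rw [Tg_pos (by omega), pow_succ]
  ring

/-- The condition of `slabsT60` and `nest_AT`. -/
theorem HT (g : GU μ s δ C₀ h₀ K L G) (v : ℕ) : G.H (v + 1) + Tg h₀ K v ≤ Tg h₀ K (v + 1) + G.H v := by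
  rw [g.H, g.H]
  exact Tg_nest g.K1 v

/-- **A SITE AND THE BASE OF ITS BOX.** -/
theorem lat_base (g : GU μ s δ C₀ h₀ K L G) {v : ℕ} (hv : 1 ≤ v) (hL : v ≤ L) (c : ℕ × ℤ) :
    |lat16 μ s (G.x v c) (pt c)| + 1 ≤ δ * wd μ s (2 * Tg h₀ K v) := by
  have h1 := g.ok.col hL (b := c) (g.err v hL)
  have h2 := g.V v hv hL
  have e : lat16 μ s (G.x v c) (pt c) = (c.2 : ℝ) - (G.z v c).2 - sl μ s * ((c.1 : ℝ) - (G.z v c).1) := by
    unfold lat16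
    show ((c.2 - (G.z v c).2 : ℤ) : ℝ) - sl μ s * (((c.1 : ℤ) - ((G.z v c).1 : ℤ) : ℤ) : ℝ) = _
    push_cast
    ring
  rw [e]
  linarith

theorem lat_base' (g : GU μ s δ C₀ h₀ K L G) {v : ℕ} (hv : 1 ≤ v) (hL : v ≤ L) (c : ℕ × ℤ) :
    |lat16 μ s (pt c) (G.x v c)| + 1 ≤ δ * wd μ s (2 * Tg h₀ K v) := by
  rw [lat_swap, abs_neg]
  exact g.lat_base hv hL c

/-- **The base points of two levels.** -/
theorem lat_lev (g : GU μ s δ C₀ h₀ K L G) {u v : ℕ} (huv : u ≤ v) (hv : 1 ≤ v) (hL : v ≤ L) (c : ℕ × ℤ) :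
    |lat16 μ s (G.x v c) (G.x u c)| + 1 ≤ δ * wd μ s (2 * Tg h₀ K v) := by
  have h1 := g.lat_base hv hL (G.z u c)
  have e1 : G.x v (G.z u c) = G.x v c := Gd.x_congr (g.ok.z_z huv hL c)
  rw [e1] at h1
  exact h1

theorem lat_lev' (g : GU μ s δ C₀ h₀ K L G) {u v : ℕ} (huv : u ≤ v) (hv : 1 ≤ v) (hL : v ≤ L) (c : ℕ × ℤ) :
    |lat16 μ s (G.x u c) (G.x v c)| + 1 ≤ δ * wd μ s (2 * Tg h₀ K v) := by
  rw [lat_swap, abs_neg]
  exact g.lat_lev huv hv hL c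

/-- **Two sites of the same box.** -/
theorem lat_same (g : GU μ s δ C₀ h₀ K L G) {v : ℕ} (hv : 1 ≤ v) (hL : v ≤ L) {c d : ℕ × ℤ} (hcd : G.z v c = G.z v d) :
    |lat16 μ s (pt c) (pt d)| + 2 ≤ 2 * (δ * wd μ s (2 * Tg h₀ K v)) := by
  have h1 := g.lat_base' hv hL c
  have h2 := g.lat_base hv hL d
  have h3 := lat_tri (μ := μ) (s := s) (pt c) (G.x v c) (pt d)
  rw [Gd.x_congr hcd] at h1 h3
  linarith

/-- A site of the same box of a lower level sees the higher base points as its own. -/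
theorem lat_in (g : GU μ s δ C₀ h₀ K L G) {t v : ℕ} (htv : t ≤ v) (hv : 1 ≤ v) (hL : v ≤ L) {a c : ℕ × ℤ} (hac : G.z t a = G.z t c) :
    |lat16 μ s (pt a) (G.x v c)| + 1 ≤ δ * wd μ s (2 * Tg h₀ K v) := by
  rw [← g.ok.x_nested htv hL hac]
  exact g.lat_base' hv hL a

/-- From any reference line. -/
theorem lat_ref (g : GU μ s δ C₀ h₀ K L G) {v : ℕ} (hv : 1 ≤ v) (hL : v ≤ L) (κ : Pt) (c : ℕ × ℤ) :
    |lat16 μ s κ (G.x v c)| + 1 ≤ |lat16 μ s κ (pt c)| + δ * wd μ s (2 * Tg h₀ K v) := by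
  have h1 := g.lat_base' hv hL c
  have h2 := lat_tri (μ := μ) (s := s) κ (pt c) (G.x v c)
  linarith

/-- The place of the box of level `u` in the box of level `v`: lateral coordinate. -/
theorem lat_place (g : GU μ s δ C₀ h₀ K L G) {u v : ℕ} (huv : u ≤ v) (hv : 1 ≤ v) (hL : v ≤ L) (c : ℕ × ℤ) :
    |((G.z u (G.rel v c)).2 : ℝ) - sl μ s * (G.z u (G.rel v c)).1| + 1 ≤ δ * wd μ s (2 * Tg h₀ K v) := by
  have h1 := g.lat_lev huv hv hL c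
  have e : lat16 μ s (G.x v c) (G.x u c) = ((G.z u (G.rel v c)).2 : ℝ) - sl μ s * (G.z u (G.rel v c)).1 := by
    rw [g.ok.x_le huv hL c]
    unfold lat16
    have e1 : (G.x v c + pt (G.z u (G.rel v c))).2 - (G.x v c).2 = (G.z u (G.rel v c)).2 := by
      show (G.x v c).2 + (pt (G.z u (G.rel v c))).2 - (G.x v c).2 = _
      show (G.x v c).2 + (G.z u (G.rel v c)).2 - (G.x v c).2 = _
      ring
    have e2 : (G.x v c + pt (G.z u (G.rel v c))).1 - (G.x v c).1 = ((G.z u (G.rel v c)).1 : ℤ) := by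
      show (G.x v c).1 + ((G.z u (G.rel v c)).1 : ℤ) - (G.x v c).1 = _
      ring
    rw [e1, e2]
    push_cast
    ring
  rw [← e]
  exact h1

/-- The same for all the places. -/
theorem lat_subs (g : GU μ s δ C₀ h₀ K L G) {u v : ℕ} (huv : u ≤ v) (hv : 1 ≤ v) (hL : v ≤ L) {o : ℕ × ℤ} (ho : o ∈ G.subs u v) :
    o.1 + G.H u ≤ G.H v ∧ |(o.2 : ℝ) - sl μ s * o.1| + 1 ≤ δ * wd μ s (2 * Tg h₀ K v) := by
  obtain ⟨i, hi⟩ := g.ok.dvdH huv hL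
  obtain ⟨j, hj⟩ := g.ok.dvdV huv hL
  have H0 := g.ok.H0 u (huv.trans hL)
  have V0 := g.ok.V0 u (huv.trans hL)
  unfold Gd.subs at ho
  rw [Finset.mem_image] at ho
  obtain ⟨w, hw, rfl⟩ := ho
  rw [Finset.mem_product, Finset.mem_range, Finset.mem_range, hi, hj, Nat.mul_div_cancel_left _ H0,
    Nat.mul_div_cancel_left _ V0] at hw
  have h1 : G.H u * w.1 + G.H u ≤ G.H v := by
    rw [hi]
    calc G.H u * w.1 + G.H u = G.H u * (w.1 + 1) := by ring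
      _ ≤ G.H u * i := Nat.mul_le_mul_left _ hw.1
  refine ⟨h1, ?_⟩
  have h2 := g.err v hL (G.H u * w.1) (by omega)
  have h3 : (G.V u : ℤ) * (w.2 : ℤ) ≤ G.V v := by
    rw [hj]
    push_cast
    exact mul_le_mul_of_nonneg_left (by exact_mod_cast hw.2.le) (by positivity)
  have h4 : (0 : ℤ) ≤ (G.V u : ℤ) * (w.2 : ℤ) := by positivity
  have h3' : ((G.V u : ℤ) : ℝ) * ((w.2 : ℤ) : ℝ) ≤ (G.V v : ℝ) := by exact_mod_cast h3
  have h4' : (0 : ℝ) ≤ ((G.V u : ℤ) : ℝ) * ((w.2 : ℤ) : ℝ) := by exact_mod_cast h4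
  have h5 := g.V v hv hL
  have h6 : |((G.s (G.H u * w.1) + (G.V u : ℤ) * (w.2 : ℤ) : ℤ) : ℝ) - sl μ s * ((G.H u * w.1 : ℕ) : ℝ)| ≤ G.V v + (v + 1) := by
    rw [Int.cast_add, Int.cast_mul]
    rw [abs_le] at h2 ⊢
    constructor <;> linarith [h2.1, h2.2]
  show |((G.s (G.H u * w.1) + (G.V u : ℤ) * (w.2 : ℤ) : ℤ) : ℝ) - sl μ s * ((G.H u * w.1 : ℕ) : ℝ)| + 1 ≤ _
  linarith

/-- Every base of the level `v` inside a box of the level `t` is at a place of `subs v t`. -/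
theorem base_mem (g : GU μ s δ C₀ h₀ K L G) {v t : ℕ} (hvt : v ≤ t) (ht : t ≤ L) (c : ℕ × ℤ) :
    ∃ o ∈ G.subs v t, G.z v c = G.z t c + o :=
  ⟨_, g.ok.mem_subs hvt ht c, g.ok.z_le hvt ht c⟩

/-! ### Rows -/

/-- **The tower is above the row `0`**: the hypothesis `hrow` of `slabsT60`. -/
theorem row_ge (g : GU μ s δ C₀ h₀ K L G) {t : ℕ} (ht : t ≤ L) {c : ℕ × ℤ} (hc : Tg h₀ K t + G.H t ≤ c.1) {v : ℕ} (hv : v ≤ t) :
    Tg h₀ K v ≤ (G.z v c).1 := by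
  rcases Nat.eq_zero_or_pos v with h0 | h0
  · rw [h0, Tg_zero]
    exact Nat.zero_le _
  · have h1 := g.ok.row_lt (hv.trans ht) c
    have h2 := Tg_mono (h₀ := h₀) g.K1 hv
    have h3 : G.H v ≤ G.H t := by
      rw [g.H, g.H]
      exact Hg_mono g.K1 hv
    omega

/-- The regions of all levels `v ≤ t` of a site in the rows `(z_t - T_t, z_t + T_t]`. -/
theorem row_in (g : GU μ s δ C₀ h₀ K L G) {v t : ℕ} (hvt : v ≤ t) (ht : t ≤ L) (c : ℕ × ℤ) :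
    (G.z t c).1 ≤ (G.z v c).1 ∧ (G.z v c).1 + Tg h₀ K v ≤ (G.z t c).1 + Tg h₀ K t := by
  have h1 := congrArg Prod.fst (g.ok.z_le hvt ht c)
  have h1' : (G.z v c).1 = (G.z t c).1 + (G.z v (G.rel t c)).1 := h1
  have h2 := g.ok.row_place hvt ht c
  have h3 : G.H v ≤ G.H t := by
    rw [g.H, g.H]
    exact Hg_mono g.K1 hvt
  have h4 : G.H t + Tg h₀ K v ≤ Tg h₀ K t + G.H v := by
    rcases Nat.eq_zero_or_pos v with h0 | h0
    · rcases Nat.eq_zero_or_pos t with t0 | t0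
      · rw [h0, t0]
        omega
      · rw [g.TH t0, h0, Tg_zero]
        omega
    · rw [g.TH h0, g.TH (show 1 ≤ t by omega)]
      omega
  omega

end GU

end lat

/-! ### The number of levels -/

theorem lev_ex {h₀ K X : ℕ} (hK : 2 ≤ K) (h0 : 1 ≤ h₀) (hX : 2 * h₀ * K ≤ X) :
    ∃ L, 1 ≤ L ∧ Tg h₀ K L ≤ X ∧ X < Tg h₀ K (L + 1) := by
  have h1 : 0 < 2 * h₀ := by omega
  have h2 : K ≤ X / (2 * h₀) := by
    rw [Nat.le_div_iff_mul_le h1, mul_comm]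
    exact hX
  have h3 : X / (2 * h₀) ≠ 0 := by omega
  have h4 : 1 ≤ Nat.log K (X / (2 * h₀)) := (Nat.le_log_iff_pow_le (by omega) h3).2 (by rwa [pow_one])
  refine ⟨Nat.log K (X / (2 * h₀)), h4, ?_, ?_⟩
  · rw [Tg_pos h4]
    calc 2 * h₀ * K ^ Nat.log K (X / (2 * h₀)) ≤ 2 * h₀ * (X / (2 * h₀)) := Nat.mul_le_mul_left _ (Nat.pow_log_le_self K h3)
      _ ≤ X := Nat.mul_div_le _ _
  · rw [Tg_pos (by omega)]
    have h5 : X / (2 * h₀) < K ^ (Nat.log K (X / (2 * h₀)) + 1) := Nat.lt_pow_succ_log_self (by omega) _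
    have h6 := Nat.lt_mul_div_succ X h1
    calc X < 2 * h₀ * (X / (2 * h₀) + 1) := h6
      _ ≤ 2 * h₀ * K ^ (Nat.log K (X / (2 * h₀)) + 1) := Nat.mul_le_mul_left _ h5

/-- **THE NUMBERS OF THE INSTANCE**: base height `h₀` = the multiple `Q₀ ⌈n ^ ε⌉` of `Q₀`, top radius at most `n ^ ε'`, at least
`κ log n` levels. -/
theorem lev_num {K : ℕ} (hK : 2 ≤ K) {ε ε' : ℝ} (h0 : 0 < ε) (hεε : ε < ε') {Q₀ : ℕ} (hQ : 1 ≤ Q₀) (m₂ : ℕ) :
    ∀ᶠ n : ℕ in atTop, ∃ L : ℕ, 1 ≤ L ∧ ((Tg (Q₀ * ⌈(n : ℝ) ^ ε⌉₊) K L : ℕ) : ℝ) ≤ (n : ℝ) ^ ε' ∧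
      (ε' - ε) / (2 * Real.log K) * Real.log n + m₂ ≤ L := by
  have hK0 : (0 : ℝ) < K := by exact_mod_cast (show 0 < K by omega)
  have hlK : 0 < Real.log K := Real.log_pos (by exact_mod_cast (show 1 < K by omega))
  have hQ0 : (0 : ℝ) < Q₀ := by exact_mod_cast hQ
  have hd : 0 < ε' - ε := by linarith
  -- eventually `n ^ ((ε' - ε) / 2)` beats the constants
  have e1 : ∀ᶠ n : ℕ in atTop, 8 * (Q₀ : ℝ) * (K : ℝ) ^ (m₂ + 2) ≤ (n : ℝ) ^ ((ε' - ε) / 2) :=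
    ((tendsto_rpow_atTop (by linarith)).comp tendsto_natCast_atTop_atTop).eventually_ge_atTop _
  filter_upwards [e1, eventually_ge_atTop 1] with n h1 hn
  have hn0 : (0 : ℝ) < n := by exact_mod_cast hn
  have hn1 : (1 : ℝ) ≤ n := by exact_mod_cast hn
  obtain ⟨A, hA⟩ : ∃ A : ℝ, A = (n : ℝ) ^ ε := ⟨_, rfl⟩
  have hA1 : 1 ≤ A := by rw [hA]; exact Real.one_le_rpow hn1 h0.le
  obtain ⟨B, hB⟩ : ∃ B : ℝ, B = (n : ℝ) ^ ((ε' - ε) / 2) := ⟨_, rfl⟩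
  have hB0 : 0 < B := by rw [hB]; positivity
  have hAB : (n : ℝ) ^ ε' = A * (B * B) := by
    rw [hA, hB, ← Real.rpow_add hn0, ← Real.rpow_add hn0]
    congr 1
    ring
  rw [← hB] at h1
  rw [← hA]
  have hc1 : (⌈A⌉₊ : ℝ) ≤ 2 * A := by
    have := Nat.ceil_lt_add_one (show 0 ≤ A by linarith)
    linarith
  have hc0 : 1 ≤ ⌈A⌉₊ := Nat.one_le_ceil_iff.2 (by linarith)
  have hP : (1 : ℝ) ≤ (K : ℝ) ^ (m₂ + 1) := one_le_pow₀ (by exact_mod_cast (show 1 ≤ K by omega))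
  have hB1 : 1 ≤ B := by
    have a1 : (1 : ℝ) ≤ Q₀ := by exact_mod_cast hQ
    have a2 : (1 : ℝ) ≤ (K : ℝ) ^ (m₂ + 2) := one_le_pow₀ (by exact_mod_cast (show 1 ≤ K by omega))
    nlinarith
  -- the top radius
  obtain ⟨X, hX⟩ : ∃ X : ℕ, X = ⌊A * (B * B)⌋₊ := ⟨_, rfl⟩
  have hABpos : 0 ≤ A * (B * B) := by positivity
  have hX1 : (X : ℝ) ≤ A * (B * B) := by rw [hX]; exact Nat.floor_le hABpos
  have hX2 : A * (B * B) < X + 1 := by rw [hX]; exact Nat.lt_floor_add_one _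
  have hXge : A * (B * B) ≤ 2 * X := by
    have a1 : (1 : ℝ) ≤ A * (B * B) := by
      have := one_le_mul_of_one_le_of_one_le hB1 hB1
      exact one_le_mul_of_one_le_of_one_le hA1 this
    have a2 : 1 ≤ X := by
      rw [hX]
      exact Nat.floor_pos.2 a1
    have a3 : (1 : ℝ) ≤ X := by exact_mod_cast a2
    linarith
  -- `2 h₀ K ^ (m₂ + 2) B ≤ X`
  have key : 2 * ((Q₀ * ⌈A⌉₊ : ℕ) : ℝ) * (K : ℝ) ^ (m₂ + 2) * B ≤ X := by
    push_cast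
    have a1 : 2 * ((Q₀ : ℝ) * ⌈A⌉₊) * (K : ℝ) ^ (m₂ + 2) * B ≤ 2 * ((Q₀ : ℝ) * (2 * A)) * (K : ℝ) ^ (m₂ + 2) * B := by
      gcongr
    have a2 : 2 * ((Q₀ : ℝ) * (2 * A)) * (K : ℝ) ^ (m₂ + 2) * B = A * B * (8 * Q₀ * (K : ℝ) ^ (m₂ + 2)) / 2 := by ring
    have a3 : A * B * (8 * Q₀ * (K : ℝ) ^ (m₂ + 2)) ≤ A * B * B := mul_le_mul_of_nonneg_left h1 (by positivity)
    have a4 : A * B * B = A * (B * B) := by ring
    linarith
  have hh0 : 1 ≤ Q₀ * ⌈A⌉₊ := Nat.mul_pos hQ hc0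
  have hKX : 2 * (Q₀ * ⌈A⌉₊) * K ≤ X := by
    have a1 : ((2 * (Q₀ * ⌈A⌉₊) * K : ℕ) : ℝ) ≤ X := by
      refine le_trans ?_ key
      push_cast
      have a2 : (K : ℝ) ≤ (K : ℝ) ^ (m₂ + 2) := by
        calc (K : ℝ) = (K : ℝ) ^ 1 := (pow_one _).symm
          _ ≤ (K : ℝ) ^ (m₂ + 2) := pow_le_pow_right₀ (by exact_mod_cast (show 1 ≤ K by omega)) (by omega)
      have a3 : 2 * ((Q₀ : ℝ) * ⌈A⌉₊) * K ≤ 2 * ((Q₀ : ℝ) * ⌈A⌉₊) * (K : ℝ) ^ (m₂ + 2) := by gcongr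
      have a4 : 2 * ((Q₀ : ℝ) * ⌈A⌉₊) * (K : ℝ) ^ (m₂ + 2) ≤ 2 * ((Q₀ : ℝ) * ⌈A⌉₊) * (K : ℝ) ^ (m₂ + 2) * B :=
        le_mul_of_one_le_right (by positivity) hB1
      linarith
    exact_mod_cast a1
  obtain ⟨L, hL1, hL2, hL3⟩ := lev_ex hK hh0 hKX
  refine ⟨L, hL1, ?_, ?_⟩
  · have a1 : ((Tg (Q₀ * ⌈A⌉₊) K L : ℕ) : ℝ) ≤ X := by exact_mod_cast hL2
    rw [hAB]
    exact a1.trans hX1
  · -- the number of levels
    rw [Tg_pos (by omega)] at hL3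
    have a1 : (X : ℝ) < 2 * ((Q₀ * ⌈A⌉₊ : ℕ) : ℝ) * (K : ℝ) ^ (L + 1) := by exact_mod_cast hL3
    have a2 : 2 * ((Q₀ * ⌈A⌉₊ : ℕ) : ℝ) * ((K : ℝ) ^ (m₂ + 2) * B) < 2 * ((Q₀ * ⌈A⌉₊ : ℕ) : ℝ) * (K : ℝ) ^ (L + 1) := by
      refine lt_of_le_of_lt (le_trans (le_of_eq (by ring)) key) a1
    have hpos : (0 : ℝ) < 2 * ((Q₀ * ⌈A⌉₊ : ℕ) : ℝ) := by
      have : (0 : ℝ) < ((Q₀ * ⌈A⌉₊ : ℕ) : ℝ) := by exact_mod_cast hh0
      linarith
    have a3 : (K : ℝ) ^ (m₂ + 2) * B < (K : ℝ) ^ (L + 1) := lt_of_mul_lt_mul_left a2 hpos.le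
    have a4 : Real.log ((K : ℝ) ^ (m₂ + 2) * B) < Real.log ((K : ℝ) ^ (L + 1)) := Real.log_lt_log (by positivity) a3
    rw [Real.log_mul (by positivity) hB0.ne', Real.log_pow, Real.log_pow, hB, Real.log_rpow hn0] at a4
    have a5 : (ε' - ε) / (2 * Real.log K) * Real.log n * Real.log K = (ε' - ε) / 2 * Real.log n := by
      field_simp
    have a6 : ((ε' - ε) / (2 * Real.log K) * Real.log n + m₂) * Real.log K ≤ L * Real.log K := by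
      push_cast at a4
      nlinarith
    exact le_of_mul_le_mul_right a6 hlK

end

end Pool.Agent.W_7d29a1_C1.T10
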