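import Pool.Agent.W_7d29a1_C1.GeoB37
import Pool.Agent.W_7d29a1_C1.ChnT40

/-!
MP_7d29a1_pr, the attractor route: `LatW` of ChnR40 (lateral geometry with the lower cuts) for the geometry of the model. (helper40)
-/

set_option autoImplicit false

namespace Pool.Agent.W_7d29a1_C1.G37

open MeasureTheory Finset
open Pool.Agent.W_7d29a1_F Pool.Agent.W_7d29a1_C1.S71 Pool.Agent.W_7d29a1_C1.H40 Pool.Agent.W_7d29a1_C1.H49

noncomputable section

namespace Gm

variable (G : Gm) {F : Finset (ℕ × ℤ)}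

/-- **`LatW`**, near form. -/
theorem latWG {mt la m3 : ℕ} {W : Set {c // c ∈ F}} :
    LatW (G.geoJ F mt W) (G.rjG F la m3 W).near (fun x => G.lat x.1) G.latC G.w G.kn (G.kb + 1) :=
  { G.latG with lbl := fun v y => G.lat_ctr_le v y.1 }

end Gm

end

end Pool.Agent.W_7d29a1_C1.G37
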