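import Mathlib

/-!
Both halves (MP_7d29a1_pr), attractor route: SEPARATED BLOCKS CHOSEN GREEDILY FROM OUTSIDE (helper77).

`V t` = the scale `t < m` is usable (sees the rows beyond the block `t` only). `grd M m V t` = `V t` and no scale of
`(t, t + M)` has been chosen. The chosen scales are `M` apart, `grd M m V t` depends on `V t'`, `t' ≥ t`, only, and
`#V ≤ M #grd`. Hence no residue classes are needed: the total number of scales which are not usable decides.
-/

set_option autoImplicit false

namespace Pool.Agent.W_7d29a1_C1.H77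

/-- Chosen from outside: usable, and nothing has been chosen in `(t, t + M)`. -/
def grd (M m : ℕ) (V : ℕ → Prop) (t : ℕ) : Prop :=
  t < m ∧ V t ∧ ∀ t', t < t' → t' < t + M → t' < m → ¬ grd M m V t'
termination_by m - t

variable {M m : ℕ} {V V' : ℕ → Prop} {t t' : ℕ}

theorem grd_iff : grd M m V t ↔ t < m ∧ V t ∧ ∀ t', t < t' → t' < t + M → t' < m → ¬ grd M m V t' := by
  rw [grd]

theorem grd_lt (h : grd M m V t) : t < m := (grd_iff.1 h).1

theorem grd_V (h : grd M m V t) : V t := (grd_iff.1 h).2.1

/-- The chosen scales are `M` apart. -/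
theorem grd_sep (h : grd M m V t) (h' : grd M m V t') (hlt : t < t') : t + M ≤ t' := by
  by_contra hc
  exact (grd_iff.1 h).2.2 t' hlt (not_le.1 hc) (grd_lt h') h'

/-- Within `M` above a usable scale there is a chosen one. -/
theorem grd_cover (hM : 0 < M) (ht : t < m) (hV : V t) : ∃ t', t ≤ t' ∧ t' < t + M ∧ grd M m V t' := by
  by_cases h : grd M m V t
  · exact ⟨t, le_rfl, by omega, h⟩
  · by_contra hc
    push Not at hc
    exact h (grd_iff.2 ⟨ht, hV, fun t' h1 h2 _ h4 => hc t' h1.le h2 h4⟩)

/-- It depends on the scales `≥ t` only. -/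
theorem grd_congr (h : ∀ u, t ≤ u → u < m → (V u ↔ V' u)) : grd M m V t ↔ grd M m V' t := by
  have key : ∀ k t, m - t ≤ k → (∀ u, t ≤ u → u < m → (V u ↔ V' u)) → (grd M m V t ↔ grd M m V' t) := by
    intro k
    induction k with
    | zero =>
      intro t hk _
      have hn : ¬ t < m := by omega
      rw [grd_iff, grd_iff]
      simp only [hn, false_and]
    | succ k ih =>
      intro t hk h
      rw [grd_iff, grd_iff]
      refine and_congr_right fun ht => and_congr (h t le_rfl ht) ?_
      refine forall_congr' fun t' => forall_congr' fun h1 => forall_congr' fun _ => forall_congr' fun h3 => ?_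
      exact not_congr (ih t' (by omega) fun u hu hum => h u (h1.le.trans hu) hum)
  exact key (m - t) t le_rfl h

open Classical in
/-- **COUNT.** -/
theorem grd_card (hM : 0 < M) : ((Finset.range m).filter V).card ≤ M * ((Finset.range m).filter (grd M m V)).card := by
  have h1 : (Finset.range m).filter V ⊆
      ((Finset.range m).filter (grd M m V)).biUnion fun t' => Finset.Icc (t' + 1 - M) t' := by
    intro t ht
    obtain ⟨h1, h2⟩ := Finset.mem_filter.1 ht
    obtain ⟨t', h3, h4, h5⟩ := grd_cover hM (Finset.mem_range.1 h1) h2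
    refine Finset.mem_biUnion.2 ⟨t', Finset.mem_filter.2 ⟨Finset.mem_range.2 (grd_lt h5), h5⟩, Finset.mem_Icc.2 ⟨?_, h3⟩⟩
    omega
  calc ((Finset.range m).filter V).card ≤ _ := Finset.card_le_card h1
    _ ≤ ∑ t' ∈ (Finset.range m).filter (grd M m V), (Finset.Icc (t' + 1 - M) t').card := Finset.card_biUnion_le
    _ ≤ ∑ _t' ∈ (Finset.range m).filter (grd M m V), M := Finset.sum_le_sum fun t' _ => by
      rw [Nat.card_Icc]
      omega
    _ = _ := by rw [Finset.sum_const, smul_eq_mul, mul_comm]

open Classical in
/-- The chosen scales which are not in `X`: many, when few scales are not usable and few are in `X`. -/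
theorem grd_net (hM : 0 < M) {X : ℕ → Prop} {a b r : ℕ} (h1 : ((Finset.range m).filter fun t => ¬ V t).card ≤ a)
    (h2 : ((Finset.range m).filter X).card ≤ b) (h3 : a + M * (b + r) ≤ m) :
    ((Finset.range m).filter fun t => grd M m V t ∧ X t).card + r ≤ ((Finset.range m).filter (grd M m V)).card := by
  have e1 : ((Finset.range m).filter V).card + ((Finset.range m).filter fun t => ¬ V t).card = m := by
    have := Finset.card_filter_add_card_filter_not (s := Finset.range m) V
    rwa [Finset.card_range] at this
  have e2 := grd_card (m := m) (V := V) hM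
  have e3 : ((Finset.range m).filter fun t => grd M m V t ∧ X t).card ≤ b := by
    refine (Finset.card_le_card fun t ht => ?_).trans h2
    obtain ⟨q1, q2⟩ := Finset.mem_filter.1 ht
    exact Finset.mem_filter.2 ⟨q1, q2.2⟩
  have e4 : M * (b + r) ≤ M * ((Finset.range m).filter (grd M m V)).card := by omega
  have e5 := Nat.le_of_mul_le_mul_left e4 hM
  omega

/-- The events. -/
def GD {Z : Type*} (M m : ℕ) (V : ℕ → Set Z) (t : ℕ) : Set Z := {z | grd M m (fun u => z ∈ V u) t}

theorem GD_sub {Z : Type*} (V : ℕ → Set Z) : GD M m V t ⊆ V t := fun _ h => grd_V h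

/-- Two points with the same usable scales `≥ t`. -/
theorem GD_congr {Z : Type*} {V : ℕ → Set Z} {z z' : Z} (h : ∀ u, t ≤ u → u < m → (z ∈ V u ↔ z' ∈ V u)) :
    z ∈ GD M m V t ↔ z' ∈ GD M m V t := grd_congr h

theorem GD_sep {Z : Type*} {V : ℕ → Set Z} {z : Z} (h : z ∈ GD M m V t) (h1 : t < t') (h2 : t' < t + M) :
    z ∉ GD M m V t' := fun h' => by
  have := grd_sep h h' h1
  omega

theorem measurableSet_GD {Z : Type*} [MeasurableSpace Z] {V : ℕ → Set Z} (hV : ∀ t < m, MeasurableSet (V t)) (t : ℕ) :
    MeasurableSet (GD M m V t) := by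
  have key : ∀ k t, m - t ≤ k → MeasurableSet (GD M m V t) := by
    intro k
    induction k with
    | zero =>
      intro t hk
      have : GD M m V t = ∅ := by
        ext z
        simp only [Set.mem_empty_iff_false, iff_false]
        intro h
        have := grd_lt h
        omega
      rw [this]
      exact MeasurableSet.empty
    | succ k ih =>
      intro t hk
      by_cases ht : t < m
      · have e : GD M m V t = V t ∩ ⋂ t' ∈ Finset.Ioo t (min (t + M) m), (GD M m V t')ᶜ := by
          ext z
          simp only [Set.mem_inter_iff, Set.mem_iInter, Finset.mem_Ioo, Set.mem_compl_iff, lt_min_iff, and_imp]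
          unfold GD
          rw [Set.mem_ofPred_eq, grd_iff]
          constructor
          · rintro ⟨_, h1, h2⟩
            exact ⟨h1, fun t' a b c => h2 t' a b c⟩
          · rintro ⟨h1, h2⟩
            exact ⟨ht, h1, fun t' a b c => h2 t' a b c⟩
        rw [e]
        refine (hV t ht).inter (Finset.measurableSet_biInter _ fun t' ht' => (ih t' ?_).compl)
        have := (Finset.mem_Ioo.1 ht').1
        omega
      · have : GD M m V t = ∅ := by
          ext z
          simp only [Set.mem_empty_iff_false, iff_false]
          intro h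
          exact ht (grd_lt h)
        rw [this]
        exact MeasurableSet.empty
  exact key (m - t) t le_rfl

end Pool.Agent.W_7d29a1_C1.H77
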