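import Mathlib

/-!
MP_7d29a1_pr, attractor route [C1], SEP: **THE CONSTANTS OF PAGE 694 C, ONE AFTER THE OTHER, AS A FILTER.** (helper2)

`Cst`: the record of the constants, in the order of the page. Every constant is large (`Ix`, `atTop`), small and positive (`Ix`), or the output of
a theorem (`Is`, a predicate `S i`). `C.cut i` : the constants before `i` (the others are erased). **`FC S`**: the filter of the records which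
are beyond a threshold, which reads only the earlier constants, at every stage. `EvC S φ` : `φ` holds eventually; conjunction: `and`, `mono`,
`filter_upwards`. A leaf takes what it needs by `FC.ge`, `FC.geN`, `FC.le`, `FC.spec`, `FC.pos`.

(Generated; the order of the fields is the order of the choices.)
-/

set_option autoImplicit false

namespace Pool.Agent.W_7d29a1_C1.Cs2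

open Filter

noncomputable section

/-- **THE CONSTANTS**, in the order of the choices. -/
@[ext] structure Cst where
  /-- level of the upper kernels of all the starts, before the luck (`up98_prob`, slope `c / 16`) (large) -/
  V1 : ℝ
  /-- level of `StB` (positive) (large) -/
  Uw : ℝ
  /-- levels of the rows of the window: power (`far98_prob` at `KF = 4`, `th = 1 / 8`) (spec) -/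
  PF : ℕ
  /-- levels of the rows of the window: level (large) -/
  qF : ℝ
  /-- lanes: lower bound of `jl` (`≥ 16`) (large) -/
  jl0 : ℕ
  /-- lanes: `T_r = N nr`, `nr = T / (jl N)` (`lane15`) (spec) -/
  jl : ℕ
  /-- slope of the slot `Ou` (`≤ c / 80`, `≤ c / (64 jl)`); the level of the slot at the radius `R` is `sgm * R` (small) -/
  sgm : ℝ
  /-- `St`: outer radius (inner radius `5 / 2`, `βc = 1 / 16`) (large) -/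
  bS : ℝ
  /-- radius of `Ou` for the core (`≥ bS + 5`, `≥ Rmin`) (large) -/
  rc : ℝ
  /-- gate: half width of the core (large) -/
  kc : ℝ
  /-- gate: lower bound of `j` (`≥ 40`) (large) -/
  j0 : ℕ
  /-- gate: the first outputs of `num58` (`Uc, Qc` = its `U₀, Q₀`) (spec) -/
  j : ℕ
  K1h : ℕ
  Uc : ℝ
  Qc : ℝ
  U1g : ℝ
  Q1g : ℝ
  /-- radius of `Ou` for the gate; `num58` at `R = R0 - 1`, `G = 2 sgm (R0 + 1) + 10 + Uc + Qc` (large) -/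
  R0 : ℝ
  /-- gate: the second outputs of `num58` (spec) -/
  M : ℕ
  K2h : ℕ
  Ug : ℝ
  Qg : ℝ
  Ag : ℝ
  Bg : ℝ
  Yg : ℝ
  pG : ℝ
  /-- gate: `n2 ≤ m` (large) -/
  n2 : ℕ
  /-- half width of the window (large) -/
  kw : ℝ
  /-- strip of the lower kernels (large) -/
  Re : ℝ
  /-- level of the lower kernels (large) -/
  Qe : ℝ
  /-- radius of `Ou` before the luck; strip `bA = R2 - 1` (large) -/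
  R2 : ℝ
  /-- lanes: upper bound of the width (lower bound `Kb = 2`) (large) -/
  Kl : ℝ
  /-- radius of `Ou` for the lanes (`≥ kw + 3`, `≥ ρ Kl + 2`, `≥ Rmin`) (large) -/
  r0 : ℝ
  /-- lanes: tame level (the `q` of `blk30`) (large) -/
  qt : ℝ
  /-- the middle slab (`mid99`) (spec) -/
  dM : ℝ
  cM : ℝ
  qM : ℝ
  UM : ℝ
  /-- lanes: `δ` (`≤ 4 dM`, `≤ 1`); the middle slab at `rM = δ / 4`, the lanes at `ρ = δ / 32` (small) -/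
  dl : ℝ
  /-- lanes: level `U0` (spec) -/
  U0 : ℝ
  /-- lanes: lower bound of `Kp, KM` (large) -/
  K0 : ℝ
  /-- lanes: reach (`blk30`) (spec) -/
  Kp : ℝ
  KM : ℝ
  /-- lane B: luck (large) -/
  LB : ℝ
  /-- lane B: probability, level (spec) -/
  pB : ℝ
  UB : ℝ
  /-- lane A: luck (large) -/
  LA : ℝ
  /-- lane A: probability, level (spec) -/
  pA : ℝ
  UA : ℝ
  /-- lanes: the last outputs of `blk30` (spec) -/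
  YA : ℝ
  YB : ℝ
  Z : ℝ
  N0 : ℕ
  /-- lanes: pieces of a slab (`≥ N0`) (large) -/
  N : ℕ
  /-- half of the conditional probability of the lucky lane block (spec) -/
  pL : ℝ
  /-- new content: exponent of the upper kernels (large) -/
  al : ℝ
  /-- new content: level of the lower kernels (large) -/
  U1n : ℝ
  /-- radius of `Ou` after the luck; strip `bB = R1 - 1`; `Fw`: inner radius `bF = R1` (large) -/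
  R1 : ℝ
  /-- `Pre`: ratio of one window (large) -/
  Cr : ℝ
  /-- `Pre`: step of the slack (`> Cr`) (large) -/
  Cd : ℝ
  /-- `Pre`: loss (`≥ 4 Cr`, `≥ 2 Cd`) (large) -/
  Cb : ℝ
  /-- `Pre`: `c'`, the gain of one window (`≤ 1`) (small) -/
  cp : ℝ
  /-- `Pre`: constant of the early moment (`ENNReal.ofReal C1`) (large) -/
  C1 : ℝ
  /-- `Fw`: level (large) -/
  gf : ℝ
  /-- `Fw`: outer radius (`> R1`) (large) -/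
  aF : ℝ
  /-- half width of the nodes (large) -/
  kn : ℝ
  /-- width of the blocks (large) -/
  kb : ℝ
  /-- `Pre`: `r`, scales lost above (large) -/
  rr : ℕ
  /-- `Pre`: `m3` (large) -/
  m3 : ℕ
  /-- `Pre`: scales of the contact above the last scale (large) -/
  J1 : ℕ

/-- The stages with a threshold. -/
inductive Ix
  | V1
  | Uw
  | qF
  | jl0
  | sgm
  | bS
  | rc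
  | kc
  | j0
  | R0
  | n2
  | kw
  | Re
  | Qe
  | R2
  | Kl
  | r0
  | qt
  | dl
  | K0
  | LB
  | LA
  | N
  | al
  | U1n
  | R1
  | Cr
  | Cd
  | Cb
  | cp
  | C1
  | gf
  | aF
  | kn
  | kb
  | rr
  | m3
  | J1

/-- The stages which are the output of a theorem, named after their first number. -/
inductive Is
  | PF
  | jl
  | j
  | M
  | dM
  | U0
  | Kp
  | pB
  | pA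
  | YA
  | pL

/-- **THE CONSTANTS BEFORE THE STAGE `i`**, the others are erased. -/
def Cst.cut (C : Cst) : Ix → Cst
  | .V1 => ⟨0, 0, 0, 0, 0, 0, 0, 0, 0, 0, 0, 0, 0, 0, 0, 0, 0, 0, 0, 0, 0, 0, 0, 0, 0, 0, 0, 0, 0, 0, 0, 0, 0, 0, 0, 0, 0, 0, 0, 0, 0,
      0, 0, 0, 0, 0, 0, 0, 0, 0, 0, 0, 0, 0, 0, 0, 0, 0, 0, 0, 0, 0, 0, 0, 0, 0, 0, 0, 0, 0⟩
  | .Uw => ⟨C.V1, 0, 0, 0, 0, 0, 0, 0, 0, 0, 0, 0, 0, 0, 0, 0, 0, 0, 0, 0, 0, 0, 0, 0, 0, 0, 0, 0, 0, 0, 0, 0, 0, 0, 0, 0, 0, 0, 0, 0,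
      0, 0, 0, 0, 0, 0, 0, 0, 0, 0, 0, 0, 0, 0, 0, 0, 0, 0, 0, 0, 0, 0, 0, 0, 0, 0, 0, 0, 0, 0⟩
  | .qF => ⟨C.V1, C.Uw, C.PF, 0, 0, 0, 0, 0, 0, 0, 0, 0, 0, 0, 0, 0, 0, 0, 0, 0, 0, 0, 0, 0, 0, 0, 0, 0, 0, 0, 0, 0, 0, 0, 0, 0, 0, 0,
      0, 0, 0, 0, 0, 0, 0, 0, 0, 0, 0, 0, 0, 0, 0, 0, 0, 0, 0, 0, 0, 0, 0, 0, 0, 0, 0, 0, 0, 0, 0, 0⟩
  | .jl0 => ⟨C.V1, C.Uw, C.PF, C.qF, 0, 0, 0, 0, 0, 0, 0, 0, 0, 0, 0, 0, 0, 0, 0, 0, 0, 0, 0, 0, 0, 0, 0, 0, 0, 0, 0, 0, 0, 0, 0, 0, 0,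
      0, 0, 0, 0, 0, 0, 0, 0, 0, 0, 0, 0, 0, 0, 0, 0, 0, 0, 0, 0, 0, 0, 0, 0, 0, 0, 0, 0, 0, 0, 0, 0, 0⟩
  | .sgm => ⟨C.V1, C.Uw, C.PF, C.qF, C.jl0, C.jl, 0, 0, 0, 0, 0, 0, 0, 0, 0, 0, 0, 0, 0, 0, 0, 0, 0, 0, 0, 0, 0, 0, 0, 0, 0, 0, 0, 0, 0,
      0, 0, 0, 0, 0, 0, 0, 0, 0, 0, 0, 0, 0, 0, 0, 0, 0, 0, 0, 0, 0, 0, 0, 0, 0, 0, 0, 0, 0, 0, 0, 0, 0, 0, 0⟩
  | .bS => ⟨C.V1, C.Uw, C.PF, C.qF, C.jl0, C.jl, C.sgm, 0, 0, 0, 0, 0, 0, 0, 0, 0, 0, 0, 0, 0, 0, 0, 0, 0, 0, 0, 0, 0, 0, 0, 0, 0, 0, 0,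
      0, 0, 0, 0, 0, 0, 0, 0, 0, 0, 0, 0, 0, 0, 0, 0, 0, 0, 0, 0, 0, 0, 0, 0, 0, 0, 0, 0, 0, 0, 0, 0, 0, 0, 0, 0⟩
  | .rc => ⟨C.V1, C.Uw, C.PF, C.qF, C.jl0, C.jl, C.sgm, C.bS, 0, 0, 0, 0, 0, 0, 0, 0, 0, 0, 0, 0, 0, 0, 0, 0, 0, 0, 0, 0, 0, 0, 0, 0, 0,
      0, 0, 0, 0, 0, 0, 0, 0, 0, 0, 0, 0, 0, 0, 0, 0, 0, 0, 0, 0, 0, 0, 0, 0, 0, 0, 0, 0, 0, 0, 0, 0, 0, 0, 0, 0, 0⟩
  | .kc => ⟨C.V1, C.Uw, C.PF, C.qF, C.jl0, C.jl, C.sgm, C.bS, C.rc, 0, 0, 0, 0, 0, 0, 0, 0, 0, 0, 0, 0, 0, 0, 0, 0, 0, 0, 0, 0, 0, 0, 0,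
      0, 0, 0, 0, 0, 0, 0, 0, 0, 0, 0, 0, 0, 0, 0, 0, 0, 0, 0, 0, 0, 0, 0, 0, 0, 0, 0, 0, 0, 0, 0, 0, 0, 0, 0, 0, 0, 0⟩
  | .j0 => ⟨C.V1, C.Uw, C.PF, C.qF, C.jl0, C.jl, C.sgm, C.bS, C.rc, C.kc, 0, 0, 0, 0, 0, 0, 0, 0, 0, 0, 0, 0, 0, 0, 0, 0, 0, 0, 0, 0, 0,
      0, 0, 0, 0, 0, 0, 0, 0, 0, 0, 0, 0, 0, 0, 0, 0, 0, 0, 0, 0, 0, 0, 0, 0, 0, 0, 0, 0, 0, 0, 0, 0, 0, 0, 0, 0, 0, 0, 0⟩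
  | .R0 => ⟨C.V1, C.Uw, C.PF, C.qF, C.jl0, C.jl, C.sgm, C.bS, C.rc, C.kc, C.j0, C.j, C.K1h, C.Uc, C.Qc, C.U1g, C.Q1g, 0, 0, 0, 0, 0, 0,
      0, 0, 0, 0, 0, 0, 0, 0, 0, 0, 0, 0, 0, 0, 0, 0, 0, 0, 0, 0, 0, 0, 0, 0, 0, 0, 0, 0, 0, 0, 0, 0, 0, 0, 0, 0, 0, 0, 0, 0, 0, 0,
      0, 0, 0, 0, 0⟩
  | .n2 => ⟨C.V1, C.Uw, C.PF, C.qF, C.jl0, C.jl, C.sgm, C.bS, C.rc, C.kc, C.j0, C.j, C.K1h, C.Uc, C.Qc, C.U1g, C.Q1g, C.R0, C.M, C.K2h,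
      C.Ug, C.Qg, C.Ag, C.Bg, C.Yg, C.pG, 0, 0, 0, 0, 0, 0, 0, 0, 0, 0, 0, 0, 0, 0, 0, 0, 0, 0, 0, 0, 0, 0, 0, 0, 0, 0, 0, 0, 0, 0,
      0, 0, 0, 0, 0, 0, 0, 0, 0, 0, 0, 0, 0, 0⟩
  | .kw => ⟨C.V1, C.Uw, C.PF, C.qF, C.jl0, C.jl, C.sgm, C.bS, C.rc, C.kc, C.j0, C.j, C.K1h, C.Uc, C.Qc, C.U1g, C.Q1g, C.R0, C.M, C.K2h,
      C.Ug, C.Qg, C.Ag, C.Bg, C.Yg, C.pG, C.n2, 0, 0, 0, 0, 0, 0, 0, 0, 0, 0, 0, 0, 0, 0, 0, 0, 0, 0, 0, 0, 0, 0, 0, 0, 0, 0, 0, 0,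
      0, 0, 0, 0, 0, 0, 0, 0, 0, 0, 0, 0, 0, 0, 0⟩
  | .Re => ⟨C.V1, C.Uw, C.PF, C.qF, C.jl0, C.jl, C.sgm, C.bS, C.rc, C.kc, C.j0, C.j, C.K1h, C.Uc, C.Qc, C.U1g, C.Q1g, C.R0, C.M, C.K2h,
      C.Ug, C.Qg, C.Ag, C.Bg, C.Yg, C.pG, C.n2, C.kw, 0, 0, 0, 0, 0, 0, 0, 0, 0, 0, 0, 0, 0, 0, 0, 0, 0, 0, 0, 0, 0, 0, 0, 0, 0, 0,
      0, 0, 0, 0, 0, 0, 0, 0, 0, 0, 0, 0, 0, 0, 0, 0⟩
  | .Qe => ⟨C.V1, C.Uw, C.PF, C.qF, C.jl0, C.jl, C.sgm, C.bS, C.rc, C.kc, C.j0, C.j, C.K1h, C.Uc, C.Qc, C.U1g, C.Q1g, C.R0, C.M, C.K2h,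
      C.Ug, C.Qg, C.Ag, C.Bg, C.Yg, C.pG, C.n2, C.kw, C.Re, 0, 0, 0, 0, 0, 0, 0, 0, 0, 0, 0, 0, 0, 0, 0, 0, 0, 0, 0, 0, 0, 0, 0, 0,
      0, 0, 0, 0, 0, 0, 0, 0, 0, 0, 0, 0, 0, 0, 0, 0, 0⟩
  | .R2 => ⟨C.V1, C.Uw, C.PF, C.qF, C.jl0, C.jl, C.sgm, C.bS, C.rc, C.kc, C.j0, C.j, C.K1h, C.Uc, C.Qc, C.U1g, C.Q1g, C.R0, C.M, C.K2h,
      C.Ug, C.Qg, C.Ag, C.Bg, C.Yg, C.pG, C.n2, C.kw, C.Re, C.Qe, 0, 0, 0, 0, 0, 0, 0, 0, 0, 0, 0, 0, 0, 0, 0, 0, 0, 0, 0, 0, 0, 0,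
      0, 0, 0, 0, 0, 0, 0, 0, 0, 0, 0, 0, 0, 0, 0, 0, 0, 0⟩
  | .Kl => ⟨C.V1, C.Uw, C.PF, C.qF, C.jl0, C.jl, C.sgm, C.bS, C.rc, C.kc, C.j0, C.j, C.K1h, C.Uc, C.Qc, C.U1g, C.Q1g, C.R0, C.M, C.K2h,
      C.Ug, C.Qg, C.Ag, C.Bg, C.Yg, C.pG, C.n2, C.kw, C.Re, C.Qe, C.R2, 0, 0, 0, 0, 0, 0, 0, 0, 0, 0, 0, 0, 0, 0, 0, 0, 0, 0, 0, 0,
      0, 0, 0, 0, 0, 0, 0, 0, 0, 0, 0, 0, 0, 0, 0, 0, 0, 0, 0⟩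
  | .r0 => ⟨C.V1, C.Uw, C.PF, C.qF, C.jl0, C.jl, C.sgm, C.bS, C.rc, C.kc, C.j0, C.j, C.K1h, C.Uc, C.Qc, C.U1g, C.Q1g, C.R0, C.M, C.K2h,
      C.Ug, C.Qg, C.Ag, C.Bg, C.Yg, C.pG, C.n2, C.kw, C.Re, C.Qe, C.R2, C.Kl, 0, 0, 0, 0, 0, 0, 0, 0, 0, 0, 0, 0, 0, 0, 0, 0, 0, 0,
      0, 0, 0, 0, 0, 0, 0, 0, 0, 0, 0, 0, 0, 0, 0, 0, 0, 0, 0, 0⟩
  | .qt => ⟨C.V1, C.Uw, C.PF, C.qF, C.jl0, C.jl, C.sgm, C.bS, C.rc, C.kc, C.j0, C.j, C.K1h, C.Uc, C.Qc, C.U1g, C.Q1g, C.R0, C.M, C.K2h,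
      C.Ug, C.Qg, C.Ag, C.Bg, C.Yg, C.pG, C.n2, C.kw, C.Re, C.Qe, C.R2, C.Kl, C.r0, 0, 0, 0, 0, 0, 0, 0, 0, 0, 0, 0, 0, 0, 0, 0, 0,
      0, 0, 0, 0, 0, 0, 0, 0, 0, 0, 0, 0, 0, 0, 0, 0, 0, 0, 0, 0, 0⟩
  | .dl => ⟨C.V1, C.Uw, C.PF, C.qF, C.jl0, C.jl, C.sgm, C.bS, C.rc, C.kc, C.j0, C.j, C.K1h, C.Uc, C.Qc, C.U1g, C.Q1g, C.R0, C.M, C.K2h,
      C.Ug, C.Qg, C.Ag, C.Bg, C.Yg, C.pG, C.n2, C.kw, C.Re, C.Qe, C.R2, C.Kl, C.r0, C.qt, C.dM, C.cM, C.qM, C.UM, 0, 0, 0, 0, 0, 0,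
      0, 0, 0, 0, 0, 0, 0, 0, 0, 0, 0, 0, 0, 0, 0, 0, 0, 0, 0, 0, 0, 0, 0, 0, 0, 0⟩
  | .K0 => ⟨C.V1, C.Uw, C.PF, C.qF, C.jl0, C.jl, C.sgm, C.bS, C.rc, C.kc, C.j0, C.j, C.K1h, C.Uc, C.Qc, C.U1g, C.Q1g, C.R0, C.M, C.K2h,
      C.Ug, C.Qg, C.Ag, C.Bg, C.Yg, C.pG, C.n2, C.kw, C.Re, C.Qe, C.R2, C.Kl, C.r0, C.qt, C.dM, C.cM, C.qM, C.UM, C.dl, C.U0, 0, 0,
      0, 0, 0, 0, 0, 0, 0, 0, 0, 0, 0, 0, 0, 0, 0, 0, 0, 0, 0, 0, 0, 0, 0, 0, 0, 0, 0, 0⟩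
  | .LB => ⟨C.V1, C.Uw, C.PF, C.qF, C.jl0, C.jl, C.sgm, C.bS, C.rc, C.kc, C.j0, C.j, C.K1h, C.Uc, C.Qc, C.U1g, C.Q1g, C.R0, C.M, C.K2h,
      C.Ug, C.Qg, C.Ag, C.Bg, C.Yg, C.pG, C.n2, C.kw, C.Re, C.Qe, C.R2, C.Kl, C.r0, C.qt, C.dM, C.cM, C.qM, C.UM, C.dl, C.U0, C.K0,
      C.Kp, C.KM, 0, 0, 0, 0, 0, 0, 0, 0, 0, 0, 0, 0, 0, 0, 0, 0, 0, 0, 0, 0, 0, 0, 0, 0, 0, 0, 0⟩
  | .LA => ⟨C.V1, C.Uw, C.PF, C.qF, C.jl0, C.jl, C.sgm, C.bS, C.rc, C.kc, C.j0, C.j, C.K1h, C.Uc, C.Qc, C.U1g, C.Q1g, C.R0, C.M, C.K2h,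
      C.Ug, C.Qg, C.Ag, C.Bg, C.Yg, C.pG, C.n2, C.kw, C.Re, C.Qe, C.R2, C.Kl, C.r0, C.qt, C.dM, C.cM, C.qM, C.UM, C.dl, C.U0, C.K0,
      C.Kp, C.KM, C.LB, C.pB, C.UB, 0, 0, 0, 0, 0, 0, 0, 0, 0, 0, 0, 0, 0, 0, 0, 0, 0, 0, 0, 0, 0, 0, 0, 0⟩
  | .N => ⟨C.V1, C.Uw, C.PF, C.qF, C.jl0, C.jl, C.sgm, C.bS, C.rc, C.kc, C.j0, C.j, C.K1h, C.Uc, C.Qc, C.U1g, C.Q1g, C.R0, C.M, C.K2h,
      C.Ug, C.Qg, C.Ag, C.Bg, C.Yg, C.pG, C.n2, C.kw, C.Re, C.Qe, C.R2, C.Kl, C.r0, C.qt, C.dM, C.cM, C.qM, C.UM, C.dl, C.U0, C.K0,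
      C.Kp, C.KM, C.LB, C.pB, C.UB, C.LA, C.pA, C.UA, C.YA, C.YB, C.Z, C.N0, 0, 0, 0, 0, 0, 0, 0, 0, 0, 0, 0, 0, 0, 0, 0, 0, 0⟩
  | .al => ⟨C.V1, C.Uw, C.PF, C.qF, C.jl0, C.jl, C.sgm, C.bS, C.rc, C.kc, C.j0, C.j, C.K1h, C.Uc, C.Qc, C.U1g, C.Q1g, C.R0, C.M, C.K2h,
      C.Ug, C.Qg, C.Ag, C.Bg, C.Yg, C.pG, C.n2, C.kw, C.Re, C.Qe, C.R2, C.Kl, C.r0, C.qt, C.dM, C.cM, C.qM, C.UM, C.dl, C.U0, C.K0,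
      C.Kp, C.KM, C.LB, C.pB, C.UB, C.LA, C.pA, C.UA, C.YA, C.YB, C.Z, C.N0, C.N, C.pL, 0, 0, 0, 0, 0, 0, 0, 0, 0, 0, 0, 0, 0, 0,
      0⟩
  | .U1n => ⟨C.V1, C.Uw, C.PF, C.qF, C.jl0, C.jl, C.sgm, C.bS, C.rc, C.kc, C.j0, C.j, C.K1h, C.Uc, C.Qc, C.U1g, C.Q1g, C.R0, C.M, C.K2h,
      C.Ug, C.Qg, C.Ag, C.Bg, C.Yg, C.pG, C.n2, C.kw, C.Re, C.Qe, C.R2, C.Kl, C.r0, C.qt, C.dM, C.cM, C.qM, C.UM, C.dl, C.U0, C.K0,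
      C.Kp, C.KM, C.LB, C.pB, C.UB, C.LA, C.pA, C.UA, C.YA, C.YB, C.Z, C.N0, C.N, C.pL, C.al, 0, 0, 0, 0, 0, 0, 0, 0, 0, 0, 0, 0,
      0, 0⟩
  | .R1 => ⟨C.V1, C.Uw, C.PF, C.qF, C.jl0, C.jl, C.sgm, C.bS, C.rc, C.kc, C.j0, C.j, C.K1h, C.Uc, C.Qc, C.U1g, C.Q1g, C.R0, C.M, C.K2h,
      C.Ug, C.Qg, C.Ag, C.Bg, C.Yg, C.pG, C.n2, C.kw, C.Re, C.Qe, C.R2, C.Kl, C.r0, C.qt, C.dM, C.cM, C.qM, C.UM, C.dl, C.U0, C.K0,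
      C.Kp, C.KM, C.LB, C.pB, C.UB, C.LA, C.pA, C.UA, C.YA, C.YB, C.Z, C.N0, C.N, C.pL, C.al, C.U1n, 0, 0, 0, 0, 0, 0, 0, 0, 0, 0,
      0, 0, 0⟩
  | .Cr => ⟨C.V1, C.Uw, C.PF, C.qF, C.jl0, C.jl, C.sgm, C.bS, C.rc, C.kc, C.j0, C.j, C.K1h, C.Uc, C.Qc, C.U1g, C.Q1g, C.R0, C.M, C.K2h,
      C.Ug, C.Qg, C.Ag, C.Bg, C.Yg, C.pG, C.n2, C.kw, C.Re, C.Qe, C.R2, C.Kl, C.r0, C.qt, C.dM, C.cM, C.qM, C.UM, C.dl, C.U0, C.K0,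
      C.Kp, C.KM, C.LB, C.pB, C.UB, C.LA, C.pA, C.UA, C.YA, C.YB, C.Z, C.N0, C.N, C.pL, C.al, C.U1n, C.R1, 0, 0, 0, 0, 0, 0, 0, 0,
      0, 0, 0, 0⟩
  | .Cd => ⟨C.V1, C.Uw, C.PF, C.qF, C.jl0, C.jl, C.sgm, C.bS, C.rc, C.kc, C.j0, C.j, C.K1h, C.Uc, C.Qc, C.U1g, C.Q1g, C.R0, C.M, C.K2h,
      C.Ug, C.Qg, C.Ag, C.Bg, C.Yg, C.pG, C.n2, C.kw, C.Re, C.Qe, C.R2, C.Kl, C.r0, C.qt, C.dM, C.cM, C.qM, C.UM, C.dl, C.U0, C.K0,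
      C.Kp, C.KM, C.LB, C.pB, C.UB, C.LA, C.pA, C.UA, C.YA, C.YB, C.Z, C.N0, C.N, C.pL, C.al, C.U1n, C.R1, C.Cr, 0, 0, 0, 0, 0, 0,
      0, 0, 0, 0, 0⟩
  | .Cb => ⟨C.V1, C.Uw, C.PF, C.qF, C.jl0, C.jl, C.sgm, C.bS, C.rc, C.kc, C.j0, C.j, C.K1h, C.Uc, C.Qc, C.U1g, C.Q1g, C.R0, C.M, C.K2h,
      C.Ug, C.Qg, C.Ag, C.Bg, C.Yg, C.pG, C.n2, C.kw, C.Re, C.Qe, C.R2, C.Kl, C.r0, C.qt, C.dM, C.cM, C.qM, C.UM, C.dl, C.U0, C.K0,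
      C.Kp, C.KM, C.LB, C.pB, C.UB, C.LA, C.pA, C.UA, C.YA, C.YB, C.Z, C.N0, C.N, C.pL, C.al, C.U1n, C.R1, C.Cr, C.Cd, 0, 0, 0, 0,
      0, 0, 0, 0, 0, 0⟩
  | .cp => ⟨C.V1, C.Uw, C.PF, C.qF, C.jl0, C.jl, C.sgm, C.bS, C.rc, C.kc, C.j0, C.j, C.K1h, C.Uc, C.Qc, C.U1g, C.Q1g, C.R0, C.M, C.K2h,
      C.Ug, C.Qg, C.Ag, C.Bg, C.Yg, C.pG, C.n2, C.kw, C.Re, C.Qe, C.R2, C.Kl, C.r0, C.qt, C.dM, C.cM, C.qM, C.UM, C.dl, C.U0, C.K0,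
      C.Kp, C.KM, C.LB, C.pB, C.UB, C.LA, C.pA, C.UA, C.YA, C.YB, C.Z, C.N0, C.N, C.pL, C.al, C.U1n, C.R1, C.Cr, C.Cd, C.Cb, 0, 0,
      0, 0, 0, 0, 0, 0, 0⟩
  | .C1 => ⟨C.V1, C.Uw, C.PF, C.qF, C.jl0, C.jl, C.sgm, C.bS, C.rc, C.kc, C.j0, C.j, C.K1h, C.Uc, C.Qc, C.U1g, C.Q1g, C.R0, C.M, C.K2h,
      C.Ug, C.Qg, C.Ag, C.Bg, C.Yg, C.pG, C.n2, C.kw, C.Re, C.Qe, C.R2, C.Kl, C.r0, C.qt, C.dM, C.cM, C.qM, C.UM, C.dl, C.U0, C.K0,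
      C.Kp, C.KM, C.LB, C.pB, C.UB, C.LA, C.pA, C.UA, C.YA, C.YB, C.Z, C.N0, C.N, C.pL, C.al, C.U1n, C.R1, C.Cr, C.Cd, C.Cb, C.cp,
      0, 0, 0, 0, 0, 0, 0, 0⟩
  | .gf => ⟨C.V1, C.Uw, C.PF, C.qF, C.jl0, C.jl, C.sgm, C.bS, C.rc, C.kc, C.j0, C.j, C.K1h, C.Uc, C.Qc, C.U1g, C.Q1g, C.R0, C.M, C.K2h,
      C.Ug, C.Qg, C.Ag, C.Bg, C.Yg, C.pG, C.n2, C.kw, C.Re, C.Qe, C.R2, C.Kl, C.r0, C.qt, C.dM, C.cM, C.qM, C.UM, C.dl, C.U0, C.K0,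
      C.Kp, C.KM, C.LB, C.pB, C.UB, C.LA, C.pA, C.UA, C.YA, C.YB, C.Z, C.N0, C.N, C.pL, C.al, C.U1n, C.R1, C.Cr, C.Cd, C.Cb, C.cp,
      C.C1, 0, 0, 0, 0, 0, 0, 0⟩
  | .aF => ⟨C.V1, C.Uw, C.PF, C.qF, C.jl0, C.jl, C.sgm, C.bS, C.rc, C.kc, C.j0, C.j, C.K1h, C.Uc, C.Qc, C.U1g, C.Q1g, C.R0, C.M, C.K2h,
      C.Ug, C.Qg, C.Ag, C.Bg, C.Yg, C.pG, C.n2, C.kw, C.Re, C.Qe, C.R2, C.Kl, C.r0, C.qt, C.dM, C.cM, C.qM, C.UM, C.dl, C.U0, C.K0,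
      C.Kp, C.KM, C.LB, C.pB, C.UB, C.LA, C.pA, C.UA, C.YA, C.YB, C.Z, C.N0, C.N, C.pL, C.al, C.U1n, C.R1, C.Cr, C.Cd, C.Cb, C.cp,
      C.C1, C.gf, 0, 0, 0, 0, 0, 0⟩
  | .kn => ⟨C.V1, C.Uw, C.PF, C.qF, C.jl0, C.jl, C.sgm, C.bS, C.rc, C.kc, C.j0, C.j, C.K1h, C.Uc, C.Qc, C.U1g, C.Q1g, C.R0, C.M, C.K2h,
      C.Ug, C.Qg, C.Ag, C.Bg, C.Yg, C.pG, C.n2, C.kw, C.Re, C.Qe, C.R2, C.Kl, C.r0, C.qt, C.dM, C.cM, C.qM, C.UM, C.dl, C.U0, C.K0,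
      C.Kp, C.KM, C.LB, C.pB, C.UB, C.LA, C.pA, C.UA, C.YA, C.YB, C.Z, C.N0, C.N, C.pL, C.al, C.U1n, C.R1, C.Cr, C.Cd, C.Cb, C.cp,
      C.C1, C.gf, C.aF, 0, 0, 0, 0, 0⟩
  | .kb => ⟨C.V1, C.Uw, C.PF, C.qF, C.jl0, C.jl, C.sgm, C.bS, C.rc, C.kc, C.j0, C.j, C.K1h, C.Uc, C.Qc, C.U1g, C.Q1g, C.R0, C.M, C.K2h,
      C.Ug, C.Qg, C.Ag, C.Bg, C.Yg, C.pG, C.n2, C.kw, C.Re, C.Qe, C.R2, C.Kl, C.r0, C.qt, C.dM, C.cM, C.qM, C.UM, C.dl, C.U0, C.K0,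
      C.Kp, C.KM, C.LB, C.pB, C.UB, C.LA, C.pA, C.UA, C.YA, C.YB, C.Z, C.N0, C.N, C.pL, C.al, C.U1n, C.R1, C.Cr, C.Cd, C.Cb, C.cp,
      C.C1, C.gf, C.aF, C.kn, 0, 0, 0, 0⟩
  | .rr => ⟨C.V1, C.Uw, C.PF, C.qF, C.jl0, C.jl, C.sgm, C.bS, C.rc, C.kc, C.j0, C.j, C.K1h, C.Uc, C.Qc, C.U1g, C.Q1g, C.R0, C.M, C.K2h,
      C.Ug, C.Qg, C.Ag, C.Bg, C.Yg, C.pG, C.n2, C.kw, C.Re, C.Qe, C.R2, C.Kl, C.r0, C.qt, C.dM, C.cM, C.qM, C.UM, C.dl, C.U0, C.K0,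
      C.Kp, C.KM, C.LB, C.pB, C.UB, C.LA, C.pA, C.UA, C.YA, C.YB, C.Z, C.N0, C.N, C.pL, C.al, C.U1n, C.R1, C.Cr, C.Cd, C.Cb, C.cp,
      C.C1, C.gf, C.aF, C.kn, C.kb, 0, 0, 0⟩
  | .m3 => ⟨C.V1, C.Uw, C.PF, C.qF, C.jl0, C.jl, C.sgm, C.bS, C.rc, C.kc, C.j0, C.j, C.K1h, C.Uc, C.Qc, C.U1g, C.Q1g, C.R0, C.M, C.K2h,
      C.Ug, C.Qg, C.Ag, C.Bg, C.Yg, C.pG, C.n2, C.kw, C.Re, C.Qe, C.R2, C.Kl, C.r0, C.qt, C.dM, C.cM, C.qM, C.UM, C.dl, C.U0, C.K0,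
      C.Kp, C.KM, C.LB, C.pB, C.UB, C.LA, C.pA, C.UA, C.YA, C.YB, C.Z, C.N0, C.N, C.pL, C.al, C.U1n, C.R1, C.Cr, C.Cd, C.Cb, C.cp,
      C.C1, C.gf, C.aF, C.kn, C.kb, C.rr, 0, 0⟩
  | .J1 => ⟨C.V1, C.Uw, C.PF, C.qF, C.jl0, C.jl, C.sgm, C.bS, C.rc, C.kc, C.j0, C.j, C.K1h, C.Uc, C.Qc, C.U1g, C.Q1g, C.R0, C.M, C.K2h,
      C.Ug, C.Qg, C.Ag, C.Bg, C.Yg, C.pG, C.n2, C.kw, C.Re, C.Qe, C.R2, C.Kl, C.r0, C.qt, C.dM, C.cM, C.qM, C.UM, C.dl, C.U0, C.K0,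
      C.Kp, C.KM, C.LB, C.pB, C.UB, C.LA, C.pA, C.UA, C.YA, C.YB, C.Z, C.N0, C.N, C.pL, C.al, C.U1n, C.R1, C.Cr, C.Cd, C.Cb, C.cp,
      C.C1, C.gf, C.aF, C.kn, C.kb, C.rr, C.m3, 0⟩

/-- **THE CONSTANTS UP TO THE STAGE `i`** (its outputs included), the others are erased. -/
def Cst.cutS (C : Cst) : Is → Cst
  | .PF => ⟨C.V1, C.Uw, C.PF, 0, 0, 0, 0, 0, 0, 0, 0, 0, 0, 0, 0, 0, 0, 0, 0, 0, 0, 0, 0, 0, 0, 0, 0, 0, 0, 0, 0, 0, 0, 0, 0, 0, 0, 0,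
      0, 0, 0, 0, 0, 0, 0, 0, 0, 0, 0, 0, 0, 0, 0, 0, 0, 0, 0, 0, 0, 0, 0, 0, 0, 0, 0, 0, 0, 0, 0, 0⟩
  | .jl => ⟨C.V1, C.Uw, C.PF, C.qF, C.jl0, C.jl, 0, 0, 0, 0, 0, 0, 0, 0, 0, 0, 0, 0, 0, 0, 0, 0, 0, 0, 0, 0, 0, 0, 0, 0, 0, 0, 0, 0, 0,
      0, 0, 0, 0, 0, 0, 0, 0, 0, 0, 0, 0, 0, 0, 0, 0, 0, 0, 0, 0, 0, 0, 0, 0, 0, 0, 0, 0, 0, 0, 0, 0, 0, 0, 0⟩
  | .j => ⟨C.V1, C.Uw, C.PF, C.qF, C.jl0, C.jl, C.sgm, C.bS, C.rc, C.kc, C.j0, C.j, C.K1h, C.Uc, C.Qc, C.U1g, C.Q1g, 0, 0, 0, 0, 0, 0,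
      0, 0, 0, 0, 0, 0, 0, 0, 0, 0, 0, 0, 0, 0, 0, 0, 0, 0, 0, 0, 0, 0, 0, 0, 0, 0, 0, 0, 0, 0, 0, 0, 0, 0, 0, 0, 0, 0, 0, 0, 0, 0,
      0, 0, 0, 0, 0⟩
  | .M => ⟨C.V1, C.Uw, C.PF, C.qF, C.jl0, C.jl, C.sgm, C.bS, C.rc, C.kc, C.j0, C.j, C.K1h, C.Uc, C.Qc, C.U1g, C.Q1g, C.R0, C.M, C.K2h,
      C.Ug, C.Qg, C.Ag, C.Bg, C.Yg, C.pG, 0, 0, 0, 0, 0, 0, 0, 0, 0, 0, 0, 0, 0, 0, 0, 0, 0, 0, 0, 0, 0, 0, 0, 0, 0, 0, 0, 0, 0, 0,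
      0, 0, 0, 0, 0, 0, 0, 0, 0, 0, 0, 0, 0, 0⟩
  | .dM => ⟨C.V1, C.Uw, C.PF, C.qF, C.jl0, C.jl, C.sgm, C.bS, C.rc, C.kc, C.j0, C.j, C.K1h, C.Uc, C.Qc, C.U1g, C.Q1g, C.R0, C.M, C.K2h,
      C.Ug, C.Qg, C.Ag, C.Bg, C.Yg, C.pG, C.n2, C.kw, C.Re, C.Qe, C.R2, C.Kl, C.r0, C.qt, C.dM, C.cM, C.qM, C.UM, 0, 0, 0, 0, 0, 0,
      0, 0, 0, 0, 0, 0, 0, 0, 0, 0, 0, 0, 0, 0, 0, 0, 0, 0, 0, 0, 0, 0, 0, 0, 0, 0⟩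
  | .U0 => ⟨C.V1, C.Uw, C.PF, C.qF, C.jl0, C.jl, C.sgm, C.bS, C.rc, C.kc, C.j0, C.j, C.K1h, C.Uc, C.Qc, C.U1g, C.Q1g, C.R0, C.M, C.K2h,
      C.Ug, C.Qg, C.Ag, C.Bg, C.Yg, C.pG, C.n2, C.kw, C.Re, C.Qe, C.R2, C.Kl, C.r0, C.qt, C.dM, C.cM, C.qM, C.UM, C.dl, C.U0, 0, 0,
      0, 0, 0, 0, 0, 0, 0, 0, 0, 0, 0, 0, 0, 0, 0, 0, 0, 0, 0, 0, 0, 0, 0, 0, 0, 0, 0, 0⟩
  | .Kp => ⟨C.V1, C.Uw, C.PF, C.qF, C.jl0, C.jl, C.sgm, C.bS, C.rc, C.kc, C.j0, C.j, C.K1h, C.Uc, C.Qc, C.U1g, C.Q1g, C.R0, C.M, C.K2h,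
      C.Ug, C.Qg, C.Ag, C.Bg, C.Yg, C.pG, C.n2, C.kw, C.Re, C.Qe, C.R2, C.Kl, C.r0, C.qt, C.dM, C.cM, C.qM, C.UM, C.dl, C.U0, C.K0,
      C.Kp, C.KM, 0, 0, 0, 0, 0, 0, 0, 0, 0, 0, 0, 0, 0, 0, 0, 0, 0, 0, 0, 0, 0, 0, 0, 0, 0, 0, 0⟩
  | .pB => ⟨C.V1, C.Uw, C.PF, C.qF, C.jl0, C.jl, C.sgm, C.bS, C.rc, C.kc, C.j0, C.j, C.K1h, C.Uc, C.Qc, C.U1g, C.Q1g, C.R0, C.M, C.K2h,
      C.Ug, C.Qg, C.Ag, C.Bg, C.Yg, C.pG, C.n2, C.kw, C.Re, C.Qe, C.R2, C.Kl, C.r0, C.qt, C.dM, C.cM, C.qM, C.UM, C.dl, C.U0, C.K0,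
      C.Kp, C.KM, C.LB, C.pB, C.UB, 0, 0, 0, 0, 0, 0, 0, 0, 0, 0, 0, 0, 0, 0, 0, 0, 0, 0, 0, 0, 0, 0, 0, 0⟩
  | .pA => ⟨C.V1, C.Uw, C.PF, C.qF, C.jl0, C.jl, C.sgm, C.bS, C.rc, C.kc, C.j0, C.j, C.K1h, C.Uc, C.Qc, C.U1g, C.Q1g, C.R0, C.M, C.K2h,
      C.Ug, C.Qg, C.Ag, C.Bg, C.Yg, C.pG, C.n2, C.kw, C.Re, C.Qe, C.R2, C.Kl, C.r0, C.qt, C.dM, C.cM, C.qM, C.UM, C.dl, C.U0, C.K0,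
      C.Kp, C.KM, C.LB, C.pB, C.UB, C.LA, C.pA, C.UA, 0, 0, 0, 0, 0, 0, 0, 0, 0, 0, 0, 0, 0, 0, 0, 0, 0, 0, 0, 0, 0⟩
  | .YA => ⟨C.V1, C.Uw, C.PF, C.qF, C.jl0, C.jl, C.sgm, C.bS, C.rc, C.kc, C.j0, C.j, C.K1h, C.Uc, C.Qc, C.U1g, C.Q1g, C.R0, C.M, C.K2h,
      C.Ug, C.Qg, C.Ag, C.Bg, C.Yg, C.pG, C.n2, C.kw, C.Re, C.Qe, C.R2, C.Kl, C.r0, C.qt, C.dM, C.cM, C.qM, C.UM, C.dl, C.U0, C.K0,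
      C.Kp, C.KM, C.LB, C.pB, C.UB, C.LA, C.pA, C.UA, C.YA, C.YB, C.Z, C.N0, 0, 0, 0, 0, 0, 0, 0, 0, 0, 0, 0, 0, 0, 0, 0, 0, 0⟩
  | .pL => ⟨C.V1, C.Uw, C.PF, C.qF, C.jl0, C.jl, C.sgm, C.bS, C.rc, C.kc, C.j0, C.j, C.K1h, C.Uc, C.Qc, C.U1g, C.Q1g, C.R0, C.M, C.K2h,
      C.Ug, C.Qg, C.Ag, C.Bg, C.Yg, C.pG, C.n2, C.kw, C.Re, C.Qe, C.R2, C.Kl, C.r0, C.qt, C.dM, C.cM, C.qM, C.UM, C.dl, C.U0, C.K0,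
      C.Kp, C.KM, C.LB, C.pB, C.UB, C.LA, C.pA, C.UA, C.YA, C.YB, C.Z, C.N0, C.N, C.pL, 0, 0, 0, 0, 0, 0, 0, 0, 0, 0, 0, 0, 0, 0,
      0⟩

/-- **THE VALUE OF THE STAGE `i`** (a small constant: its inverse). -/
def Cst.val (C : Cst) : Ix → ℝ
  | .V1 => C.V1
  | .Uw => C.Uw
  | .qF => C.qF
  | .jl0 => (C.jl0 : ℝ)
  | .sgm => C.sgm⁻¹
  | .bS => C.bS
  | .rc => C.rc
  | .kc => C.kc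
  | .j0 => (C.j0 : ℝ)
  | .R0 => C.R0
  | .n2 => (C.n2 : ℝ)
  | .kw => C.kw
  | .Re => C.Re
  | .Qe => C.Qe
  | .R2 => C.R2
  | .Kl => C.Kl
  | .r0 => C.r0
  | .qt => C.qt
  | .dl => C.dl⁻¹
  | .K0 => C.K0
  | .LB => C.LB
  | .LA => C.LA
  | .N => (C.N : ℝ)
  | .al => C.al
  | .U1n => C.U1n
  | .R1 => C.R1
  | .Cr => C.Cr
  | .Cd => C.Cd
  | .Cb => C.Cb
  | .cp => C.cp⁻¹
  | .C1 => C.C1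
  | .gf => C.gf
  | .aF => C.aF
  | .kn => C.kn
  | .kb => C.kb
  | .rr => (C.rr : ℝ)
  | .m3 => (C.m3 : ℝ)
  | .J1 => (C.J1 : ℝ)

/-- The small constants are positive. -/
structure Cst.Pos (C : Cst) : Prop where
  sgm : 0 < C.sgm
  dl : 0 < C.dl
  cp : 0 < C.cp

/-- The records which are beyond the thresholds `f`. -/
structure Cst.Ad (S : Is → Cst → Prop) (f : Ix → Cst → ℝ) (C : Cst) : Prop where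
  pos : C.Pos
  spec : ∀ i, S i (C.cutS i)
  ge : ∀ i, f i (C.cut i) ≤ C.val i

variable {S S' : Is → Cst → Prop}

/-- **THE FILTER OF THE CONSTANTS.** -/
def FC (S : Is → Cst → Prop) : Filter Cst where
  sets := {A | ∃ f : Ix → Cst → ℝ, ∀ C, C.Ad S f → C ∈ A}
  univ_sets := ⟨fun _ _ => 0, fun _ _ => trivial⟩
  sets_of_superset := fun ⟨f, hf⟩ h => ⟨f, fun C hC => h (hf C hC)⟩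
  inter_sets := fun ⟨f, hf⟩ ⟨g, hg⟩ => ⟨fun i C => max (f i C) (g i C), fun C hC =>
    ⟨hf C ⟨hC.pos, hC.spec, fun i => (le_max_left _ _).trans (hC.ge i)⟩, hg C ⟨hC.pos, hC.spec, fun i => (le_max_right _ _).trans (hC.ge i)⟩⟩⟩

theorem ev_iff {φ : Cst → Prop} : (∀ᶠ C in FC S, φ C) ↔ ∃ f : Ix → Cst → ℝ, ∀ C, C.Ad S f → φ C := Iff.rfl

/-- **THE QUANTIFIER**: `φ` holds for all the constants, each beyond a threshold which reads only the earlier ones. -/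
abbrev EvC (S : Is → Cst → Prop) (φ : Cst → Prop) : Prop := ∀ᶠ C in FC S, φ C

theorem EvC.and {φ ψ : Cst → Prop} (h : EvC S φ) (h' : EvC S ψ) : EvC S fun C => φ C ∧ ψ C := Eventually.and h h'

theorem EvC.mono {φ ψ : Cst → Prop} (h : EvC S φ) (h' : ∀ C, φ C → ψ C) : EvC S ψ := Eventually.mono h h'

/-- A stronger specification. -/
theorem FC.le_of (h : ∀ i C, S' i C → S i C) : FC S' ≤ FC S := fun _ ⟨f, hf⟩ =>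
  ⟨f, fun C hC => hf C ⟨hC.pos, fun i => h i _ (hC.spec i), hC.ge⟩⟩

namespace FC

/-- **LARGE**: `f (C.cut i) ≤ C.val i` (for a small constant: `≤` its inverse). -/
theorem ge (S : Is → Cst → Prop) (i : Ix) (f : Cst → ℝ) : ∀ᶠ C in FC S, f (C.cut i) ≤ C.val i := by
  classical
  refine ⟨fun k C => if k = i then f C else 0, fun C hC => ?_⟩
  have h := hC.ge i
  rwa [if_pos rfl] at h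

theorem ge_max (S : Is → Cst → Prop) (i : Ix) (f : Cst → ℝ) (x : ℝ) : ∀ᶠ C in FC S, max x (f (C.cut i)) ≤ C.val i :=
  ge S i fun C => max x (f C)

/-- The outputs satisfy their specification. -/
theorem spec (S : Is → Cst → Prop) : ∀ᶠ C in FC S, ∀ i, S i (C.cutS i) := ⟨fun _ _ => 0, fun _ hC => hC.spec⟩

/-- The small constants are positive. -/
theorem pos (S : Is → Cst → Prop) : ∀ᶠ C in FC S, C.Pos := ⟨fun _ _ => 0, fun _ hC => hC.pos⟩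

theorem V1_ge (S : Is → Cst → Prop) (f : Cst → ℝ) : ∀ᶠ C in FC S, f (C.cut .V1) ≤ C.V1 := ge S .V1 f

theorem Uw_ge (S : Is → Cst → Prop) (f : Cst → ℝ) : ∀ᶠ C in FC S, f (C.cut .Uw) ≤ C.Uw := ge S .Uw f

theorem qF_ge (S : Is → Cst → Prop) (f : Cst → ℝ) : ∀ᶠ C in FC S, f (C.cut .qF) ≤ C.qF := ge S .qF f

theorem jl0_ge (S : Is → Cst → Prop) (f : Cst → ℕ) : ∀ᶠ C in FC S, f (C.cut .jl0) ≤ C.jl0 := by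
  filter_upwards [ge S .jl0 fun C => (f C : ℝ)] with C h1
  have h2 : ((f (C.cut .jl0) : ℕ) : ℝ) ≤ (C.jl0 : ℝ) := h1
  exact_mod_cast h2

theorem sgm_le (S : Is → Cst → Prop) (f : Cst → ℝ) (hf : ∀ C, 0 < f C) : ∀ᶠ C in FC S, 0 < C.sgm ∧ C.sgm ≤ f (C.cut .sgm) := by
  filter_upwards [ge S .sgm fun C => (f C)⁻¹, pos S] with C h1 h2
  have h3 : (f (C.cut .sgm))⁻¹ ≤ C.sgm⁻¹ := h1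
  exact ⟨h2.sgm, (inv_le_inv₀ (hf _) h2.sgm).1 h3⟩

theorem bS_ge (S : Is → Cst → Prop) (f : Cst → ℝ) : ∀ᶠ C in FC S, f (C.cut .bS) ≤ C.bS := ge S .bS f

theorem rc_ge (S : Is → Cst → Prop) (f : Cst → ℝ) : ∀ᶠ C in FC S, f (C.cut .rc) ≤ C.rc := ge S .rc f

theorem kc_ge (S : Is → Cst → Prop) (f : Cst → ℝ) : ∀ᶠ C in FC S, f (C.cut .kc) ≤ C.kc := ge S .kc f

theorem j0_ge (S : Is → Cst → Prop) (f : Cst → ℕ) : ∀ᶠ C in FC S, f (C.cut .j0) ≤ C.j0 := by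
  filter_upwards [ge S .j0 fun C => (f C : ℝ)] with C h1
  have h2 : ((f (C.cut .j0) : ℕ) : ℝ) ≤ (C.j0 : ℝ) := h1
  exact_mod_cast h2

theorem R0_ge (S : Is → Cst → Prop) (f : Cst → ℝ) : ∀ᶠ C in FC S, f (C.cut .R0) ≤ C.R0 := ge S .R0 f

theorem n2_ge (S : Is → Cst → Prop) (f : Cst → ℕ) : ∀ᶠ C in FC S, f (C.cut .n2) ≤ C.n2 := by
  filter_upwards [ge S .n2 fun C => (f C : ℝ)] with C h1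
  have h2 : ((f (C.cut .n2) : ℕ) : ℝ) ≤ (C.n2 : ℝ) := h1
  exact_mod_cast h2

theorem kw_ge (S : Is → Cst → Prop) (f : Cst → ℝ) : ∀ᶠ C in FC S, f (C.cut .kw) ≤ C.kw := ge S .kw f

theorem Re_ge (S : Is → Cst → Prop) (f : Cst → ℝ) : ∀ᶠ C in FC S, f (C.cut .Re) ≤ C.Re := ge S .Re f

theorem Qe_ge (S : Is → Cst → Prop) (f : Cst → ℝ) : ∀ᶠ C in FC S, f (C.cut .Qe) ≤ C.Qe := ge S .Qe f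

theorem R2_ge (S : Is → Cst → Prop) (f : Cst → ℝ) : ∀ᶠ C in FC S, f (C.cut .R2) ≤ C.R2 := ge S .R2 f

theorem Kl_ge (S : Is → Cst → Prop) (f : Cst → ℝ) : ∀ᶠ C in FC S, f (C.cut .Kl) ≤ C.Kl := ge S .Kl f

theorem r0_ge (S : Is → Cst → Prop) (f : Cst → ℝ) : ∀ᶠ C in FC S, f (C.cut .r0) ≤ C.r0 := ge S .r0 f

theorem qt_ge (S : Is → Cst → Prop) (f : Cst → ℝ) : ∀ᶠ C in FC S, f (C.cut .qt) ≤ C.qt := ge S .qt f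

theorem dl_le (S : Is → Cst → Prop) (f : Cst → ℝ) (hf : ∀ C, 0 < f C) : ∀ᶠ C in FC S, 0 < C.dl ∧ C.dl ≤ f (C.cut .dl) := by
  filter_upwards [ge S .dl fun C => (f C)⁻¹, pos S] with C h1 h2
  have h3 : (f (C.cut .dl))⁻¹ ≤ C.dl⁻¹ := h1
  exact ⟨h2.dl, (inv_le_inv₀ (hf _) h2.dl).1 h3⟩

theorem K0_ge (S : Is → Cst → Prop) (f : Cst → ℝ) : ∀ᶠ C in FC S, f (C.cut .K0) ≤ C.K0 := ge S .K0 f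

theorem LB_ge (S : Is → Cst → Prop) (f : Cst → ℝ) : ∀ᶠ C in FC S, f (C.cut .LB) ≤ C.LB := ge S .LB f

theorem LA_ge (S : Is → Cst → Prop) (f : Cst → ℝ) : ∀ᶠ C in FC S, f (C.cut .LA) ≤ C.LA := ge S .LA f

theorem N_ge (S : Is → Cst → Prop) (f : Cst → ℕ) : ∀ᶠ C in FC S, f (C.cut .N) ≤ C.N := by
  filter_upwards [ge S .N fun C => (f C : ℝ)] with C h1
  have h2 : ((f (C.cut .N) : ℕ) : ℝ) ≤ (C.N : ℝ) := h1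
  exact_mod_cast h2

theorem al_ge (S : Is → Cst → Prop) (f : Cst → ℝ) : ∀ᶠ C in FC S, f (C.cut .al) ≤ C.al := ge S .al f

theorem U1n_ge (S : Is → Cst → Prop) (f : Cst → ℝ) : ∀ᶠ C in FC S, f (C.cut .U1n) ≤ C.U1n := ge S .U1n f

theorem R1_ge (S : Is → Cst → Prop) (f : Cst → ℝ) : ∀ᶠ C in FC S, f (C.cut .R1) ≤ C.R1 := ge S .R1 f

theorem Cr_ge (S : Is → Cst → Prop) (f : Cst → ℝ) : ∀ᶠ C in FC S, f (C.cut .Cr) ≤ C.Cr := ge S .Cr f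

theorem Cd_ge (S : Is → Cst → Prop) (f : Cst → ℝ) : ∀ᶠ C in FC S, f (C.cut .Cd) ≤ C.Cd := ge S .Cd f

theorem Cb_ge (S : Is → Cst → Prop) (f : Cst → ℝ) : ∀ᶠ C in FC S, f (C.cut .Cb) ≤ C.Cb := ge S .Cb f

theorem cp_le (S : Is → Cst → Prop) (f : Cst → ℝ) (hf : ∀ C, 0 < f C) : ∀ᶠ C in FC S, 0 < C.cp ∧ C.cp ≤ f (C.cut .cp) := by
  filter_upwards [ge S .cp fun C => (f C)⁻¹, pos S] with C h1 h2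
  have h3 : (f (C.cut .cp))⁻¹ ≤ C.cp⁻¹ := h1
  exact ⟨h2.cp, (inv_le_inv₀ (hf _) h2.cp).1 h3⟩

theorem C1_ge (S : Is → Cst → Prop) (f : Cst → ℝ) : ∀ᶠ C in FC S, f (C.cut .C1) ≤ C.C1 := ge S .C1 f

theorem gf_ge (S : Is → Cst → Prop) (f : Cst → ℝ) : ∀ᶠ C in FC S, f (C.cut .gf) ≤ C.gf := ge S .gf f

theorem aF_ge (S : Is → Cst → Prop) (f : Cst → ℝ) : ∀ᶠ C in FC S, f (C.cut .aF) ≤ C.aF := ge S .aF f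

theorem kn_ge (S : Is → Cst → Prop) (f : Cst → ℝ) : ∀ᶠ C in FC S, f (C.cut .kn) ≤ C.kn := ge S .kn f

theorem kb_ge (S : Is → Cst → Prop) (f : Cst → ℝ) : ∀ᶠ C in FC S, f (C.cut .kb) ≤ C.kb := ge S .kb f

theorem rr_ge (S : Is → Cst → Prop) (f : Cst → ℕ) : ∀ᶠ C in FC S, f (C.cut .rr) ≤ C.rr := by
  filter_upwards [ge S .rr fun C => (f C : ℝ)] with C h1
  have h2 : ((f (C.cut .rr) : ℕ) : ℝ) ≤ (C.rr : ℝ) := h1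
  exact_mod_cast h2

theorem m3_ge (S : Is → Cst → Prop) (f : Cst → ℕ) : ∀ᶠ C in FC S, f (C.cut .m3) ≤ C.m3 := by
  filter_upwards [ge S .m3 fun C => (f C : ℝ)] with C h1
  have h2 : ((f (C.cut .m3) : ℕ) : ℝ) ≤ (C.m3 : ℝ) := h1
  exact_mod_cast h2

theorem J1_ge (S : Is → Cst → Prop) (f : Cst → ℕ) : ∀ᶠ C in FC S, f (C.cut .J1) ≤ C.J1 := by
  filter_upwards [ge S .J1 fun C => (f C : ℝ)] with C h1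
  have h2 : ((f (C.cut .J1) : ℕ) : ℝ) ≤ (C.J1 : ℝ) := h1
  exact_mod_cast h2

end FC

end

end Pool.Agent.W_7d29a1_C1.Cs2
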