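import Pool.Agent.W_7d29a1_C1.GsC37
import Pool.Agent.W_7d29a1_C1.SepC2

/-!
MP_7d29a1_pr, [C1] attractor route, SEP: THE NUMBERS OF THE GATE SLAB, in the form `EvC`. (helper37)

* `num37_of` : `Num37` from explicit thresholds of `R2` and `R1`;
* `U37`, `d37`, `q37` : the numbers `U₁`, `d₁`, `q₀` as functions of the record (up to `R2`);
* **`num37E`** : eventually `Num37`, `Km`, `z` = any functions of the record up to `R1`.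
-/

set_option autoImplicit false

namespace Pool.Agent.W_7d29a1_C1.Gs37

open Filter
open Pool.Agent.W_7d29a1_C1.Cs2

noncomputable section

/-- The threshold of `R2`. -/
def r2t37 (c kw Ck V₁ υ Re U₁ bS : ℝ) : ℝ := kw + 2 + (Re + 2) + (bS + 2) + 4 * |2 * (2 * V₁ + Ck) + 5 * (1 + υ) + U₁ + 2 + c| / c

/-- The threshold of `R1`. -/
def r1t37 (c kw V₁ Km R2 z : ℝ) : ℝ :=
  R2 + (|1 + 2 * V₁ + c / 2 * Km + c + 2 + z + c| + |Km|) + 1 + kw + 3 + 4 * (|1 + 2 * V₁ + c / 2 * Km + c + 2 + z + c| + |Km|) / c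

/-- **`Num37`, EXPLICIT.** -/
theorem num37_of {c Λ kw Ck V₁ υ Re Qe Qg sgm bS Km R2 U₁ d₁ q₀ R1 bB z : ℝ} (hc : 0 < c) (hkw : 0 ≤ kw) (hs : 0 ≤ sgm)
    (hs' : sgm ≤ c / 80) (hV : 0 ≤ V₁) (hυ : 0 ≤ υ) (hRe : 0 ≤ Re) (hQg : 0 ≤ Qg) (hbS : 0 ≤ bS) (hU0 : 0 ≤ U₁)
    (hU : Qe + c / 8 * (Re + kw) + 1 + Λ ≤ U₁) (hR2 : r2t37 c kw Ck V₁ υ Re U₁ bS ≤ R2)
    (hd : 2 * (2 * V₁ + Ck) + 5 * (sgm * R2 + 1 + υ) + U₁ + 2 ≤ d₁) (hq : Qg + (sgm * R2 + 1) + c / 8 * (bS + 1) ≤ q₀)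
    (h1 : r1t37 c kw V₁ Km R2 z ≤ R1) (h2 : R1 ≤ bB + 1) : Num37 c Λ kw Ck V₁ υ Re Qe Qg sgm bS Km R2 U₁ d₁ q₀ R1 bB z := by
  unfold r2t37 at hR2
  unfold r1t37 at h1
  obtain ⟨Y, hY⟩ : ∃ Y, Y = |2 * (2 * V₁ + Ck) + 5 * (1 + υ) + U₁ + 2 + c| := ⟨_, rfl⟩
  have hY0 : 0 ≤ Y := by rw [hY]; exact abs_nonneg _
  have hY1 : 2 * (2 * V₁ + Ck) + 5 * (1 + υ) + U₁ + 2 + c ≤ Y := by rw [hY]; exact le_abs_self _
  rw [← hY] at hR2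
  obtain ⟨Z, hZ⟩ : ∃ Z, Z = |1 + 2 * V₁ + c / 2 * Km + c + 2 + z + c| + |Km| := ⟨_, rfl⟩
  have hZ0 : 0 ≤ Z := by rw [hZ]; positivity
  have hZ1 : 1 + 2 * V₁ + c / 2 * Km + c + 2 + z + c ≤ Z := by
    rw [hZ]
    have := le_abs_self (1 + 2 * V₁ + c / 2 * Km + c + 2 + z + c)
    have := abs_nonneg Km
    linarith
  have hZ2 : Km ≤ Z := by
    rw [hZ]
    have := le_abs_self Km
    have := abs_nonneg (1 + 2 * V₁ + c / 2 * Km + c + 2 + z + c)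
    linarith
  rw [← hZ] at h1
  have hYc : c * (4 * Y / c) = 4 * Y := by field_simp
  have hY2 : 0 ≤ 4 * Y / c := by positivity
  have hZc : c * (4 * Z / c) = 4 * Z := by field_simp
  have hZ3 : 0 ≤ 4 * Z / c := by positivity
  have hR20 : 0 ≤ R2 := by linarith
  have hR10 : 0 ≤ R1 := by linarith
  have g1 := mul_le_mul_of_nonneg_right hs' hR20
  have g2 := mul_le_mul_of_nonneg_left hR2 hc.le
  have g3 := mul_le_mul_of_nonneg_right hs' hR10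
  have g4 := mul_le_mul_of_nonneg_left h1 hc.le
  have g5 : 0 ≤ c * (kw + 2 + (Re + 2) + (bS + 2)) := by positivity
  have g6 : 0 ≤ c * (R2 + Z + 1 + kw + 3) := by positivity
  rw [mul_add, hYc] at g2
  rw [mul_add, hZc] at g4
  refine ⟨hs, hV, hυ, hRe, hbS, hQg, hU0, by linarith, by linarith, by linarith, by linarith, hU, ?_, hd, hq, by linarith, by linarith, ?_⟩
  · linarith
  · linarith

/-! ### The form `EvC` -/

variable {c Λ : ℝ} {Ck : ℝ → ℝ}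

/-- The level of the early lower kernels at the strip `R2 - 1`. -/
def U37 (c Λ : ℝ) (C : Cst) : ℝ := |C.Qe + c / 8 * (C.Re + C.kw) + 1 + Λ|

/-- **The price `d₁` of the gate slab** (`RG = exp (d₁ E)`). -/
def d37 (c Λ : ℝ) (Ck : ℝ → ℝ) (C : Cst) : ℝ := 2 * (2 * C.V1 + Ck C.kw) + 5 * (C.sgm * C.R2 + 1 + C.Uw) + U37 c Λ C + 2

/-- **The price `q₀` of the way into the mouth** (`g0 = exp (-(q₀ E))`). -/
def q37 (c : ℝ) (C : Cst) : ℝ := C.Qg + (C.sgm * C.R2 + 1) + c / 8 * (C.bS + 1)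

/-- **THE NUMBERS OF THE GATE SLAB**, eventually. -/
theorem num37E (S : Is → Cst → Prop) (hc : 0 < c) (Km z : Cst → ℝ) (hKm : ∀ C : Cst, Km (C.cut .R1) = Km C)
    (hz : ∀ C : Cst, z (C.cut .R1) = z C) (hQg : ∀ᶠ C in FC S, 0 ≤ C.Qg) : ∀ᶠ C in FC S,
    Num37 c Λ C.kw (Ck C.kw) C.V1 C.Uw C.Re C.Qe C.Qg C.sgm C.bS (Km C) C.R2 (U37 c Λ C) (d37 c Λ Ck C) (q37 c C) C.R1 (C.R1 - 1) (z C) := by
  filter_upwards [FC.V1_ge S fun _ => 0, FC.Uw_ge S fun _ => 0, FC.sgm_le S (fun _ => c / 80) (fun _ => by positivity),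
    FC.bS_ge S fun _ => 0, FC.kw_ge S fun _ => 0, FC.Re_ge S fun _ => 0, hQg,
    FC.R2_ge S fun p => r2t37 c p.kw (Ck p.kw) p.V1 p.Uw p.Re (U37 c Λ p) p.bS,
    FC.R1_ge S fun p => r1t37 c p.kw p.V1 (Km p) p.R2 (z p)] with C h1 h2 h3 h4 h5 h6 h7 h8 h9
  have h9' : r1t37 c C.kw C.V1 (Km (C.cut .R1)) C.R2 (z (C.cut .R1)) ≤ C.R1 := h9
  rw [hKm, hz] at h9'
  exact num37_of hc h5 h3.1.le h3.2 h1 h2 h6 h7 h4 (abs_nonneg _) (le_abs_self _) h8 le_rfl le_rfl h9' (by linarith)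

end

end Pool.Agent.W_7d29a1_C1.Gs37
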