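import Pool.Agent.W_7d29a1_C1.LucB76
import Pool.Agent.W_7d29a1_C1.RatB22
import Pool.Agent.W_7d29a1_C1.OuS37
import Pool.Agent.W_7d29a1_C1.KerP16

/-!
MP_7d29a1_pr, [C1] attractor route, SEP: **THE GATE SLAB `Gs76`** (helper37; helper76's structure, helper22's blocks)

Window `(u, κ)`, `a = ra - 1`, gate rows `(a, a + n]`; `ω` old, `ω'` new, `ω₀ = spl (a + n + 1) ω' ω` (new rows `≤ a + n`, old above).
* `gu37` : `bW ω₀ a ≤ exp d * bW ω a` : one block of RatB22;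
* `qa_low37` : one kernel into a site of the mouth; **`gl37`** : `exp (-(Qn + X + K)) * bW ω a z ≤ QA ω₀ (a + n) Mi a z`;
* **`gs37`** : `Gs76`, with `gf` as a hypothesis.
-/

set_option autoImplicit false

namespace Pool.Agent.W_7d29a1_C1.Gs37

open Finset MeasureTheory
open Pool.Agent.W_7d29a1_F hiding Bw G
open Pool.Agent.W_7d29a1_h4g Pool.Agent.W_7d29a1_HS
open Pool.Agent.W_7d29a1_H hiding ex gg
open Pool.Agent.W_7d29a1_C1.K91 (wt wt_pos measurable_wt)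
open Pool.Agent.W_7d29a1_C1.K91P (fw bw bw_pos bw_congr)
open Pool.Agent.W_7d29a1_C1.U16 (ker ker_nonneg ker_W)
open Pool.Agent.W_7d29a1_C1.FarW89 (bl bl_add)
open Pool.Agent.W_7d29a1_C1.H60
open Pool.Agent.W_7d29a1_C1.G37 (Gm)
open Pool.Agent.W_7d29a1_C1.SD53
open Pool.Agent.W_7d29a1_C1.E53
open Pool.Agent.W_7d29a1_C1.Lb76
open Pool.Agent.W_7d29a1_C1.Rt22 (Ro lo_sum gg)
open Pool.Agent.W_7d29a1_C1.RB22
open Pool.Agent.W_7d29a1_C1.Ou37 (gam gam_pos bn_pos bw_bn)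

noncomputable section

variable {μ : Measure ℝ} {s : ℝ} {Γ : Cx} {G : Gm} {u : ℕ} {κ : ℤ × ℤ} {ω ω' : Env}

/-! ### The block -/

/-- **`gu`** : the backward masses of the row `a` with the new gate rows. -/
theorem gu37 {γ : ℕ → ℤ → ℝ} {b A X Q Uw U₁ al q d : ℝ} {a rf : ℕ} (hγ : ∀ k y, 0 < γ k y) (hv0 : 0 ≤ G.v) (hv1 : G.v ≤ 1)
    (hb : G.kw * G.w u + 2 ≤ b * G.w u) (hb0 : 0 ≤ b * G.w u) (har : a < rf) (hrN : rf ≤ Γ.N)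
    (heq : ∀ k y, k < rf → (k, y) ∉ Bk G u κ a rf → wt ω k y = wt ω' k y) (hal : 0 ≤ al)
    (hQ : 0 ≤ Q) (hUw : 0 ≤ Uw) (hq : Q + Uw ≤ q) (hU₁ : 0 ≤ U₁) (hA : A ≤ Real.exp al) (hX0 : 0 ≤ X)
    (hX : X * Real.exp (1 + al + 5 * q + U₁) ≤ 1 / 2) (hd : 2 + 2 * al + 5 * q + U₁ ≤ d)
    (hK : ω ∈ KiB Γ G γ b A X u κ a rf) (hT : ω ∈ TmB Γ G γ b Q u κ a rf) (hS : ω ∈ StB G b Uw u κ rf)
    (hK' : ω' ∈ KiB Γ G γ b A X u κ a rf) (hL : ω' ∈ LoB Γ G γ b U₁ u κ a rf) :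
    Ro (wt ω) (wt (spl rf ω' ω)) Γ.p Γ.N (Bk G u κ a rf) (Real.exp d) := by
  refine ro_blk hγ hv0 hv1 hb hb0 har hrN (fun k y h => ?_) hal hQ hUw hq hU₁ hA hX0 hX hd hK hT hS
    (kiB_congr hγ hv0 hv1 hb (fun k y _ h2 => (wt_spl_lt h2 y).symm) hK') (loB_congr hγ (fun k y _ h2 => (wt_spl_lt h2 y).symm) hL)
  rcases lt_or_ge k rf with h1 | h1
  · rw [wt_spl_lt h1]
    exact heq k y h1 h
  · rw [wt_spl_ge h1]

/-- At the row `a` and below. -/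
theorem ro_low37 {B : Set (ℕ × ℤ)} {w w' : ℕ → ℤ → ℝ} {R : ℝ} {a : ℕ} (h : Ro w w' Γ.p Γ.N B R) (hB : ∀ c ∈ B, a < c.1) {k : ℕ} (hk : k ≤ a)
    (z : ℤ) : bw w' Γ.p k (Γ.N - k) z ≤ R * bw w Γ.p k (Γ.N - k) z ∧ bw w Γ.p k (Γ.N - k) z ≤ R * bw w' Γ.p k (Γ.N - k) z :=
  ⟨h.up k z fun h1 => absurd (hB _ h1) (by simp only; omega), h.dn k z fun h1 => absurd (hB _ h1) (by simp only; omega)⟩

/-! ### One kernel -/

/-- The gauges of two rows, one slope. -/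
theorem gam_split {a n : ℕ} (haN : a + n ≤ Γ.N) {g : ℝ} (hg : (g = Γ.h ∧ a + n ≤ Γ.M) ∨ (g = 0 ∧ Γ.M ≤ a)) (x y : ℤ) :
    gam μ s Γ a x = Real.exp (n * lam μ s + g * sl μ s * n) * gam μ s Γ (a + n) y := by
  unfold gam
  rw [← Real.exp_add]
  congr 1
  have e1 : Γ.N - a = n + (Γ.N - (a + n)) := by omega
  have e2 : bl Γ.M a (Γ.N - a) = bl Γ.M a n + bl Γ.M (a + n) (Γ.N - (a + n)) := by rw [e1, bl_add]
  rw [e2, e1]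
  push_cast
  have e3 : Γ.h * sl μ s * (bl Γ.M a n : ℝ) = g * sl μ s * n := by
    unfold bl
    rcases hg with ⟨h1, h2⟩ | ⟨h1, h2⟩
    · rw [h1, min_eq_left (by omega)]
    · rw [h1, Nat.sub_eq_zero_of_le h2, Nat.min_zero]
      simp
  linarith [e3]

/-- **One kernel into a site of the mouth.** -/
theorem qa_low37 (hs : Γ.s = s) {ω₀ : Env} {a n : ℕ} (haN : a + n ≤ Γ.N) {g : ℝ} (hg : (g = Γ.h ∧ a + n ≤ Γ.M) ∨ (g = 0 ∧ Γ.M ≤ a))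
    {Mi : Set ℤ} {v₀ : ℤ} (hv : v₀ ∈ Mi) (z : ℤ) :
    wt ω₀ a z * gam μ s Γ a z * (Real.exp (g * (((v₀ - z : ℤ) : ℝ) - sl μ s * n)) * W μ s ω₀ ((a : ℤ), z) n (v₀ - z) *
      Ou37.bn μ s Γ (a + n) v₀ ω₀) ≤ QA Γ ω₀ (a + n) Mi a z := by
  have h1 : ker (wt ω₀) Γ.p a n z v₀ * bW Γ ω₀ (a + n) v₀ ≤ QA Γ ω₀ (a + n) Mi a z := by
    have h2 := lo_sum (wt_pos ω₀) Γ.p_pos (F := tf Γ ω₀ (a + n) Mi) (tf_nonneg (a + n) Mi) a n z {v₀}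
    rw [sum_singleton, tf_mem hv] at h2
    unfold QA
    rw [Nat.add_sub_cancel_left]
    exact h2
  have hp : ∀ k, a ≤ k → k < a + n → Γ.p k = Real.exp (s + g) := by
    intro k h2 h3
    unfold Cx.p
    rcases hg with ⟨h4, h5⟩ | ⟨h4, h5⟩
    · rw [if_pos (by omega), hs, h4]
    · rw [if_neg (by omega), hs, h4, add_zero]
  have h3 := ker_W (μ := μ) (s := s) (h := g) ω₀ (p := Γ.p) a z n v₀ hp
  have h4 : bW Γ ω₀ (a + n) v₀ = (wt ω₀ (a + n) v₀ * gam μ s Γ (a + n) v₀) * Ou37.bn μ s Γ (a + n) v₀ ω₀ :=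
    bw_bn (μ := μ) (s := s) (Γ := Γ) (a + n) v₀ ω₀
  refine le_trans (le_of_eq ?_) h1
  rw [h4, gam_split (μ := μ) (s := s) haN hg z v₀]
  have h5 : ker (wt ω₀) Γ.p a n z v₀ * ((wt ω₀ (a + n) v₀ * gam μ s Γ (a + n) v₀) * Ou37.bn μ s Γ (a + n) v₀ ω₀) =
      (ker (wt ω₀) Γ.p a n z v₀ * wt ω₀ (a + n) v₀) * (gam μ s Γ (a + n) v₀ * Ou37.bn μ s Γ (a + n) v₀ ω₀) := by ring
  rw [h5, h3]
  have h6 : Real.exp (n * lam μ s + g * ((v₀ - z : ℤ) : ℝ)) =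
      Real.exp (n * lam μ s + g * sl μ s * n) * Real.exp (g * (((v₀ - z : ℤ) : ℝ) - sl μ s * n)) := by
    rw [← Real.exp_add]
    congr 1
    ring
  rw [h6]
  ring

/-- **`gl`** : from `z` in the row `a` to the site `v₀` of the mouth through the new gate rows. -/
theorem gl37 (hs : Γ.s = s) {a n : ℕ} (haN : a + n < Γ.N) {g : ℝ} (hg : (g = Γ.h ∧ a + n ≤ Γ.M) ∨ (g = 0 ∧ Γ.M ≤ a))
    (hrow : ∀ y, wt ω' a y = wt ω a y) {Mi : Set ℤ} {v₀ z : ℤ} (hv : v₀ ∈ Mi) {Qn X K : ℝ}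
    (hW : Real.exp (-Qn) ≤ W μ s (spl (a + n + 1) ω' ω) ((a : ℤ), z) n (v₀ - z))
    (hT : Ou37.bn μ s Γ a z ω ≤ Real.exp X * Ou37.bn μ s Γ (a + n) v₀ ω) (hK : |g * (((v₀ - z : ℤ) : ℝ) - sl μ s * n)| ≤ K) :
    Real.exp (-(Qn + X + K)) * bW Γ ω a z ≤ QA Γ (spl (a + n + 1) ω' ω) (a + n) Mi a z := by
  set ω₀ := spl (a + n + 1) ω' ω with hω₀
  refine le_trans ?_ (qa_low37 (μ := μ) (s := s) hs haN.le hg hv z)
  have e1 : wt ω₀ a z = wt ω a z := by rw [hω₀, wt_spl_lt (by omega), hrow]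
  have e2 : Ou37.bn μ s Γ (a + n) v₀ ω₀ = Ou37.bn μ s Γ (a + n) v₀ ω :=
    Ou37.bn_congr haN (fun i hi => funext fun y => by rw [hω₀, wt_spl_ge (by omega)]) v₀
  have e3 : bW Γ ω a z = (wt ω a z * gam μ s Γ a z) * Ou37.bn μ s Γ a z ω := bw_bn (μ := μ) (s := s) (Γ := Γ) a z ω
  rw [e1, e2, e3]
  have h0 : 0 < wt ω a z * gam μ s Γ a z := mul_pos (wt_pos ω a z) (gam_pos _ _)
  have h1 : 0 < Ou37.bn μ s Γ (a + n) v₀ ω := bn_pos _ _ _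
  have h2 : Real.exp (-K) ≤ Real.exp (g * (((v₀ - z : ℤ) : ℝ) - sl μ s * n)) := Real.exp_le_exp.2 (by
    have := neg_le_of_abs_le hK
    linarith)
  have h3 : Real.exp (-K) * Real.exp (-Qn) ≤
      Real.exp (g * (((v₀ - z : ℤ) : ℝ) - sl μ s * n)) * W μ s ω₀ ((a : ℤ), z) n (v₀ - z) :=
    mul_le_mul h2 hW (Real.exp_pos _).le (Real.exp_pos _).le
  calc Real.exp (-(Qn + X + K)) * ((wt ω a z * gam μ s Γ a z) * Ou37.bn μ s Γ a z ω)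
      = (wt ω a z * gam μ s Γ a z) * (Real.exp (-(Qn + X + K)) * Ou37.bn μ s Γ a z ω) := by ring
    _ ≤ (wt ω a z * gam μ s Γ a z) * (Real.exp (-(Qn + X + K)) * (Real.exp X * Ou37.bn μ s Γ (a + n) v₀ ω)) :=
        mul_le_mul_of_nonneg_left (mul_le_mul_of_nonneg_left hT (Real.exp_pos _).le) h0.le
    _ = (wt ω a z * gam μ s Γ a z) * ((Real.exp (-K) * Real.exp (-Qn)) * Ou37.bn μ s Γ (a + n) v₀ ω) := by
        rw [← Real.exp_add, ← mul_assoc (Real.exp (-(Qn + X + K))), ← Real.exp_add]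
        congr 3
        ring
    _ ≤ _ := mul_le_mul_of_nonneg_left (mul_le_mul_of_nonneg_right h3 h1.le) h0.le

/-! ### The slab -/

/-- **THE GATE SLAB.** -/
theorem gs37 {a n : ℕ} {B : Set (ℕ × ℤ)} {RG sG g0 : ℝ} {Mi₀ Mo₀ Mi Mo : Set ℤ} (hB : ∀ c ∈ B, a < c.1) (hR0 : 0 ≤ RG) (hs0 : 0 ≤ sG) (hg0 : 0 < g0)
    (heq : ∀ k y, k < a → wt ω' k y = wt ω k y) (hR : Ro (wt ω) (wt (spl (a + n + 1) ω' ω)) Γ.p Γ.N B RG)
    (gf : ∀ z, z ∉ Mo₀ → QA Γ (spl (a + n + 1) ω' ω) (a + n) Mo a z ≤ sG * bW Γ ω a z)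
    (gl : ∀ z ∈ Mi₀, g0 * bW Γ ω a z ≤ QA Γ (spl (a + n + 1) ω' ω) (a + n) Mi a z) :
    Gs76 Γ ω (spl (a + n + 1) ω' ω) a (a + n) Mi₀ Mo₀ Mi Mo g0 RG sG :=
  ⟨by omega, hR0, hs0, hg0, fun k y hk => by rw [wt_spl_lt (by omega), heq k y hk], fun z => (ro_low37 hR hB le_rfl z).1, gf, gl⟩

end

end Pool.Agent.W_7d29a1_C1.Gs37
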