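import Pool.Agent.W_7d29a1_C1.WqT98
import Pool.Agent.W_7d29a1_C1.SepS2

/-!
MP_7d29a1_pr, [C1] attractor route, SEP: THE PARTS `gw` AND `ratio` OF `wp98` OVER THE FILTER OF THE CONSTANTS. (helper97)

* `GwP97` : the input `gw` of `wp98`, literally; `Gk97` : what the constants of the gate owe each other, eventually (`gk97`);
* `kap97` : the largest tilt; `rC97` : the rate of the tilt on the core (`≤ 7 / 8`); `g3C97` : the rate of the third clause;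
* **`gwS97`** : `GwP97` from the luck `LkP98`, and the exponent of the third clause, at all the windows above a threshold;
* `RatS97`, **`ratC97`** : the field `ratio` of ONE window, price `x ≥ xF C`, `xF` reads the constants before `Kl` only;
* **`gtC97`** : both together (`Gt97`), for `Ew98` at the number records `nm15 .. (C.g ε) C.l` and any `F : Cf98` with the constants of `C`.
-/

set_option autoImplicit false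

namespace Pool.Agent.W_7d29a1_C1.Q49

open Finset MeasureTheory Filter
open Pool.Agent.W_7d29a1_F hiding Bw G
open Pool.Agent.W_7d29a1_h4g Pool.Agent.W_7d29a1_H Pool.Agent.W_7d29a1_HS
open Pool.Agent.W_7d29a1_C1.H60
open Pool.Agent.W_7d29a1_C1.G37 (Gm Wok gmW)
open Pool.Agent.W_7d29a1_C1.PW58
open Pool.Agent.W_7d29a1_C1.SF98
open Pool.Agent.W_7d29a1_C1.P25
open Pool.Agent.W_7d29a1_C1.N49
open Pool.Agent.W_7d29a1_C1.D98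
open Pool.Agent.W_7d29a1_C1.SD53
open Pool.Agent.W_7d29a1_C1.Cs2
open Pool.Agent.W_7d29a1_C1.Nm15
open Pool.Agent.W_7d29a1_C1.MC71 (GwIn)
open Pool.Agent.W_7d29a1_C1.Gt52 (yN52)
open scoped ENNReal

noncomputable section

attribute [local instance 10] Classical.propDecidable

variable {μ : Measure ℝ} {s c : ℝ}

/-! ### The gate -/

/-- **THE INPUT `gw` OF `wp98`**, literally. -/
abbrev GwP97 (μ : Measure ℝ) (s c : ℝ) (Γ : Cx) (G : Gm) (Q : Nm98) (R : Nr98) (u : ℕ) (κ : ℤ × ℤ) (M : ℕ) (A B p₀ X r : ℝ) (TF : Set Env)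
    (x gu y : ℝ) (c₁ : ℝ≥0∞) : Prop :=
  GwIn μ s c Γ (G.win u κ) (B98 Γ G Q u κ) (Q.K1 u) (Q.K2 u) (Q.n u) (Q.m u) (ag98 Γ G Q u κ) (rl98 Γ G Q u κ + 2 * Q.T u)
    (co98 G u κ (ag98 Γ G Q u κ)) (co98 G u κ (rl98 Γ G Q u κ)) (cw98 μ s Γ G Q u κ M A B (Q.n u)) TF (LuA98 μ s c Γ G Q R u κ)
    (Lc98 μ s c Γ G Q (KL98 μ s Γ G Q R) u κ) {co98 G u κ (rl98 Γ G Q u κ)} (mo98 μ s Γ G Q u κ) (Q.K2h + 3) Q.Q Q.U Q.Y A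
    (eN58 μ s c Q.U1 Q.Q1 (X + 2 * (1 * EE μ s (Q.n u))) (r * EE μ s (G.T u)) (Q.n u) (Q.K1 u) (Q.K2 u))
    (Real.exp (yN52 μ s Q.Uc Q.Qc X (r * EE μ s (G.T u)) (Q.n u))) p₀ (Real.exp (x * EE μ s (Q.T u))) (Real.exp (gu * EE μ s (Q.T u)))
    (Real.exp (y * EE μ s (Q.T u))) c₁

/-- The rate of the third clause of the gate: reads `sgm, Uc, Qc, R0` only. -/
def g3C97 (C : Cst) : ℝ := C.sgm * C.R0 + 5 + (C.Uc + C.Qc)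

/-- The rate of the tilt on the core. -/
def rC97 (C : Cst) (kap : ℝ) : ℝ := kap * (C.kc + 1 + (C.R0 - 1))

/-- What the constants of the gate owe each other. -/
structure Gk97 (μ : Measure ℝ) (s c ε : ℝ) (C : Cst) : Prop where
  sg : Sg2 C
  ok : ∃ n₁ : ℕ, (C.g ε).Ok μ s c n₁
  lane : ∀ n₁ : ℕ, ∃ T₁ : ℕ, ∀ T : ℕ, T₁ ≤ T → n₁ ≤ nr15 C.l T ∧ 1 ≤ nr15 C.l T ∧ Sc58 μ s C.l.jl (C.l.N * nr15 C.l T) T
  s0 : 0 < C.sgm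
  kc : 2 ≤ C.kc
  R0 : 0 ≤ C.R0
  kw : C.R0 ≤ C.kw
  R1 : C.R2 ≤ C.R1
  d0 : 0 < C.dl
  d1 : C.dl ≤ 1

theorem gk97 {Cc ε : ℝ} : EvC (S0 μ s c Cc ε) (Gk97 μ s c ε) := by
  filter_upwards [sg2 (μ := μ) (s := s) (c := c) (Cc := Cc) (ε := ε), ok2 (μ := μ) (s := s) (c := c) (Cc := Cc) (ε := ε),
    lane2 (μ := μ) (s := s) (c := c) (Cc := Cc) (ε := ε), FC.sgm_le (S0 μ s c Cc ε) (fun _ => 1) fun _ => one_pos,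
    FC.kc_ge (S0 μ s c Cc ε) fun _ => 2, FC.R0_ge (S0 μ s c Cc ε) fun _ => 0, FC.kw_ge (S0 μ s c Cc ε) fun C => C.R0,
    FC.R1_ge (S0 μ s c Cc ε) fun C => C.R2, FC.dl_le (S0 μ s c Cc ε) (fun _ => 1) fun _ => one_pos] with C h1 h2 h3 h4 h5 h6 h7 h8 h9
  exact ⟨h1, h2, h3, h4.1, h5, h6, h7, h8, h9.1, h9.2⟩

/-- The largest tilt. -/
def kap97 (c : ℝ) (C : Cst) : ℝ := min (c / 8) (7 / 8 / (C.kc + C.R0 + 1))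

theorem kap97_le (c : ℝ) (C : Cst) : kap97 c C ≤ c / 8 := min_le_left _ _

theorem Gk97.kap_pos {ε : ℝ} {C : Cst} (h : Gk97 μ s c ε C) (hc : 0 < c) : 0 < kap97 c C := by
  have h1 := h.kc
  have h2 := h.R0
  exact lt_min (by linarith) (div_pos (by norm_num) (by linarith))

theorem Gk97.g30 {ε : ℝ} {C : Cst} (h : Gk97 μ s c ε C) : 0 ≤ g3C97 C := by
  have h1 := mul_nonneg h.s0.le h.R0
  have h2 := h.sg.Uc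
  have h3 := h.sg.Qc
  unfold g3C97
  linarith

theorem Gk97.rate {ε : ℝ} {C : Cst} (h : Gk97 μ s c ε C) {kap : ℝ} (h0 : 0 ≤ kap) (hk : kap ≤ kap97 c C) : rC97 C kap ≤ 7 / 8 := by
  have h1 := h.kc
  have h2 := h.R0
  have h3 : 0 < C.kc + C.R0 + 1 := by linarith
  have h4 : kap ≤ 7 / 8 / (C.kc + C.R0 + 1) := hk.trans (min_le_right _ _)
  have h5 : kap * (C.kc + C.R0 + 1) ≤ 7 / 8 := (le_div_iff₀ h3).1 h4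
  have h6 : kap * (C.kc + 1 + (C.R0 - 1)) ≤ kap * (C.kc + C.R0 + 1) := mul_le_mul_of_nonneg_left (by linarith) h0
  exact h6.trans h5

/-- The number record of the windows at the constants (`C.Nm`). -/
abbrev Nm97 (μ : Measure ℝ) (s c ε : ℝ) (C : Cst) : NmF := fun _ G _ => nm15 μ s c (C.g ε) C.l G

/-- The constants of the families are those of the record (`cf19 C`, `C.cf`). -/
structure Cf97 (C : Cst) (F : Cf98) : Prop where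
  sgm : F.sgm = C.sgm
  R0 : F.R0 = C.R0
  R2 : F.R2 = C.R2
  R1 : F.R1 = C.R1
  V1 : F.V₁ = C.V1
  Re : F.Re = C.Re
  Qe : F.Qe = C.Qe
  Uw : F.Uw = C.Uw

/-- **THE GATE OF ONE WINDOW AT THE CONSTANTS**, from the luck `LkP98` on `TF98`; the exponent of the third clause. -/
theorem gwS97 [IsProbabilityMeasure μ] {Cc : ℝ} {n₀ : ℕ} (h : In μ s c Cc n₀) {ε : ℝ} {C : Cst} (g : Gk97 μ s c ε C) {P : Pre}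
    (hP : P.kw = C.kw) {F : Cf98} (hF : Cf97 C F) {kap : ℝ} (hk0 : 0 ≤ kap) (hk : kap ≤ kap97 c C) :
    Ew98 μ s c kap P (Nm97 μ s c ε C) F fun Γ G _ _ E u κ =>
      (∀ x y y' gu z : ℝ, LkP98 μ s c Γ G (Nm97 μ s c ε C Γ G E) (F.nr μ s c Γ G E) u κ (TF98 μ s c (Nm97 μ s c ε C) F Γ G E u κ)
          x y y' gu z →
        GwP97 μ s c Γ G (Nm97 μ s c ε C Γ G E) (F.nr μ s c Γ G E) u κ C.M C.Ag C.Bg C.pG (C.sgm * C.R0 * E u + E u / 16) (rC97 C kap)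
          (TF98 μ s c (Nm97 μ s c ε C) F Γ G E u κ) x gu y (ENNReal.ofReal C.pL)) ∧
      yN52 μ s C.Uc C.Qc (C.sgm * C.R0 * E u + E u / 16) (rC97 C kap * EE μ s (G.T u)) ((Nm97 μ s c ε C Γ G E).n u) ≤
        g3C97 C * EE μ s (G.T u) := by
  obtain ⟨n1, hn1⟩ := g.ok
  obtain ⟨n2, hn2⟩ := g.lane 1
  refine ⟨max n1 n2, fun Γ G mt τ0 E u κ W => ?_⟩
  have hT1 : n1 ≤ G.T u := (le_max_left _ _).trans (W.w.hT u)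
  have hT2 : n2 ≤ G.T u := (le_max_right _ _).trans (W.w.hT u)
  have H : NumT58 μ s c C.kc (C.R0 - 1) C.Gg C.j C.K1h C.M C.K2h C.Uc C.Qc C.U1g C.Q1g C.Ug C.Qg C.Ag C.Bg C.Yg C.pG ε C.n2 (G.T u)
      ((Nm97 μ s c ε C Γ G E).n u) ((Nm97 μ s c ε C Γ G E).m u) ((Nm97 μ s c ε C Γ G E).K1 u)
      ((Nm97 μ s c ε C Γ G E).K2 u) := nm15_num (l := C.l) hn1 hT1
  have hL : Sc58 μ s C.jl ((Nm97 μ s c ε C Γ G E).T u) (G.T u) := (hn2 _ hT2).2.2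
  have hE0 := EE_pos (μ := μ) (s := s) (G.T u)
  have hwT : 1 ≤ wd μ s (G.T u) := hL.w1.trans hL.wnT
  have hr := g.rate hk0 hk
  have hUc := g.sg.Uc
  have hQc := g.sg.Qc
  have hs0 := g.s0
  have hmo : (Nm97 μ s c ε C Γ G E).δ / 4 * wd μ s ((Nm97 μ s c ε C Γ G E).T u) + 1 ≤
      (Nm97 μ s c ε C Γ G E).K1 u * wd μ s ((Nm97 μ s c ε C Γ G E).n u) := by
    have h3 : C.dl / 4 * wd μ s ((Nm97 μ s c ε C Γ G E).T u) ≤ 1 * wd μ s (G.T u) :=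
      (mul_le_mul_of_nonneg_right (by linarith [g.d1]) (zero_le_one.trans hL.w1)).trans (mul_le_mul_of_nonneg_left hL.wnT zero_le_one)
    have h4 : 2 * wd μ s (G.T u) ≤ C.kc * wd μ s (G.T u) := mul_le_mul_of_nonneg_right g.kc (by linarith)
    have h5 := H.kc_le
    show C.dl / 4 * wd μ s ((Nm97 μ s c ε C Γ G E).T u) + 1 ≤ _
    linarith
  have hδ : 0 ≤ (Nm97 μ s c ε C Γ G E).δ / 4 * wd μ s ((Nm97 μ s c ε C Γ G E).T u) :=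
    mul_nonneg (div_nonneg g.d0.le (by norm_num)) (zero_le_one.trans hL.w1)
  refine ⟨fun x y y' gu z lk => ?_, ?_⟩
  · have key := gw98 (N := Nm97 μ s c ε C) (F := F) (E := E) h W H g.sg.Ug (add_nonneg hUc hQc) g.sg.pG
      (by rw [hP]; linarith [g.kw]) (by rw [hF.R0]; linarith) hmo hδ lk
      (by
        rw [hF.R0, hF.sgm]
        show 2 * (C.sgm * C.R0 + 1 / 16) + 8 + 2 * (kap * (C.kc + 1 + (C.R0 - 1))) + (C.Uc + C.Qc) ≤ C.Gg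
        unfold rC97 at hr
        unfold Cst.Gg
        linarith)
    rw [hF.R0, hF.sgm] at key
    exact key
  · have hn := H.sc.EnT
    have h1 := yN98 (μ := μ) (s := s) (Q := Nm97 μ s c ε C Γ G E) (G := G) (u := u) (X := C.sgm * C.R0 * E u + E u / 16)
      (r := rC97 C kap) (x₀ := C.sgm * C.R0 + 1 / 16) (by rw [W.w.hE u]; linarith) hn (add_nonneg hUc hQc)
    refine h1.trans (mul_le_mul_of_nonneg_right ?_ hE0.le)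
    show C.sgm * C.R0 + 1 / 16 + 4 + rC97 C kap + (C.Uc + C.Qc) ≤ g3C97 C
    unfold g3C97
    linarith

/-! ### The ratio -/

/-- **THE FIELD `ratio` OF ONE WINDOW AT GIVEN NUMBERS.** -/
def RatS97 (μ : Measure ℝ) (s c kw V ρ Q y sgm R₂ xF : ℝ) : Prop :=
  ∃ n₁ : ℕ, ∀ {P : Pre} {N : NmF} {F : Cf98} {Γ : Cx} {G : Gm} {mt τ0 : ℕ} {E : ℕ → ℝ} {u : ℕ} {κ : ℤ × ℤ}, F.sgm = sgm → F.R2 = R₂ →
    R₂ ≤ F.R1 → F.V₁ = V → F.Re = ρ → F.Qe = Q → F.Uw ≤ y →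
    Win52 μ s kw (c / 8) n₁ (N Γ G E) (F.nr μ s c Γ G E) Γ G mt τ0 E u κ →
    ∀ ω, Tc98 μ s c P N F Γ G E u κ ω → ∀ ξ, G.R u κ ξ ω ∈ TP98 μ s c Γ G (N Γ G E) (F.nr μ s c Γ G E) u κ →
      O22.Pr Γ (G.ra u κ - 1) (G.re u κ) (O22.Bw G u κ) (xF * E u) ω (G.R u κ ξ ω)

/-- **THE FIELD `ratio` OF ONE WINDOW**: `kw, V, Re, Qe, Uw, sgm | R₂ | xF`. -/
theorem ratS97 [IsProbabilityMeasure μ] {C : ℝ} {n₀ : ℕ} (hI : In μ s c C n₀) {kw V ρ Q y sgm : ℝ} (hkw : 0 ≤ kw) (hV : 0 ≤ V)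
    (hρ : 0 ≤ ρ) (hQ : 0 ≤ Q) (hy : 0 ≤ y) (hs0 : 0 ≤ sgm) (hs1 : sgm ≤ c / 80) : ∃ R₀ : ℝ, ∀ R₂ : ℝ, R₀ ≤ R₂ → ∃ Cd : ℝ, ∀ xF : ℝ,
      Cd ≤ xF → RatS97 μ s c kw V ρ Q y sgm R₂ xF := by
  obtain ⟨R₀, H⟩ := Ge52.ratC52 hI hkw hV hρ hQ hy hs0 hs1
  refine ⟨R₀, fun R₂ hR => ?_⟩
  obtain ⟨Cd, H⟩ := H R₂ hR
  refine ⟨Cd, fun xF hx => ?_⟩
  obtain ⟨n₁, -, H⟩ := H xF hx
  refine ⟨n₁, fun {P N F Γ G mt τ0 E u κ} hsg hR2 hR1 hV1 hRe hQe hUw W ω hω ξ hξ => ?_⟩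
  have hT : ω ∈ Ou37.OuT μ s Γ G E R₂ (sgm * R₂) (E u / 16) u κ := by
    have h1 := hω.R2
    rwa [hR2, hsg] at h1
  rw [W.hE u]
  exact H (P := N Γ G E) (R := F.nr μ s c Γ G E) (E := E) (sg := E u / 16) ⟨W.hs, W.hv, W.hw u, W.hk, W.tilt, W.hT u⟩ W.rc W.reN
    (W.ok.fit u W.hu) hRe hQe (le_of_eq (by show F.V₁ * _ = _; rw [hV1])) le_rfl (by show R₂ - 1 ≤ F.R1 - 1; linarith)
    (mul_le_mul_of_nonneg_right hUw (EE_pos _).le) (W.hE u) (le_of_eq (by rw [W.hE u]; ring)) ω ⟨hω.tp, hT⟩ ξ hξ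

/-- The thresholds as functions. -/
theorem ratG97 [IsProbabilityMeasure μ] {C : ℝ} {n₀ : ℕ} (hI : In μ s c C n₀) :
    ∃ (f : ℝ × ℝ × ℝ × ℝ × ℝ × ℝ → ℝ) (g : ℝ × ℝ × ℝ × ℝ × ℝ × ℝ → ℝ → ℝ), ∀ a, (0 ≤ a.1 ∧ 0 ≤ a.2.1 ∧ 0 ≤ a.2.2.1 ∧ 0 ≤ a.2.2.2.1 ∧
      0 ≤ a.2.2.2.2.1 ∧ 0 ≤ a.2.2.2.2.2 ∧ a.2.2.2.2.2 ≤ c / 80) → ∀ R₂, f a ≤ R₂ → ∀ x, g a R₂ ≤ x →
      RatS97 μ s c a.1 a.2.1 a.2.2.1 a.2.2.2.1 a.2.2.2.2.1 a.2.2.2.2.2 R₂ x := by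
  classical
  have key : ∀ a : ℝ × ℝ × ℝ × ℝ × ℝ × ℝ, ∃ R₀ : ℝ, (0 ≤ a.1 ∧ 0 ≤ a.2.1 ∧ 0 ≤ a.2.2.1 ∧ 0 ≤ a.2.2.2.1 ∧
      0 ≤ a.2.2.2.2.1 ∧ 0 ≤ a.2.2.2.2.2 ∧ a.2.2.2.2.2 ≤ c / 80) → ∀ R₂, R₀ ≤ R₂ → ∃ Cd : ℝ, ∀ x, Cd ≤ x →
      RatS97 μ s c a.1 a.2.1 a.2.2.1 a.2.2.2.1 a.2.2.2.2.1 a.2.2.2.2.2 R₂ x := by
    intro a
    by_cases h : (0 ≤ a.1 ∧ 0 ≤ a.2.1 ∧ 0 ≤ a.2.2.1 ∧ 0 ≤ a.2.2.2.1 ∧ 0 ≤ a.2.2.2.2.1 ∧ 0 ≤ a.2.2.2.2.2 ∧ a.2.2.2.2.2 ≤ c / 80)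
    · obtain ⟨R₀, H⟩ := ratS97 hI h.1 h.2.1 h.2.2.1 h.2.2.2.1 h.2.2.2.2.1 h.2.2.2.2.2.1 h.2.2.2.2.2.2
      exact ⟨R₀, fun _ => H⟩
    · exact ⟨0, fun h' => absurd h' h⟩
  choose f hf using key
  have key2 : ∀ (a : ℝ × ℝ × ℝ × ℝ × ℝ × ℝ) (R₂ : ℝ), ∃ Cd : ℝ, (0 ≤ a.1 ∧ 0 ≤ a.2.1 ∧ 0 ≤ a.2.2.1 ∧ 0 ≤ a.2.2.2.1 ∧
      0 ≤ a.2.2.2.2.1 ∧ 0 ≤ a.2.2.2.2.2 ∧ a.2.2.2.2.2 ≤ c / 80) → f a ≤ R₂ → ∀ x, Cd ≤ x →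
      RatS97 μ s c a.1 a.2.1 a.2.2.1 a.2.2.2.1 a.2.2.2.2.1 a.2.2.2.2.2 R₂ x := by
    intro a R₂
    by_cases h : (0 ≤ a.1 ∧ 0 ≤ a.2.1 ∧ 0 ≤ a.2.2.1 ∧ 0 ≤ a.2.2.2.1 ∧ 0 ≤ a.2.2.2.2.1 ∧ 0 ≤ a.2.2.2.2.2 ∧ a.2.2.2.2.2 ≤ c / 80) ∧
      f a ≤ R₂
    · obtain ⟨Cd, H⟩ := hf a h.1 R₂ h.2
      exact ⟨Cd, fun _ _ => H⟩
    · exact ⟨0, fun h1 h2 => absurd ⟨h1, h2⟩ h⟩
  choose g hg using key2
  exact ⟨f, g, fun a ha R₂ hR x hx => hg a R₂ ha hR x hx⟩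

/-- **THE FIELD `ratio` OF ONE WINDOW OVER THE FILTER OF THE CONSTANTS**; `xF` reads the constants before `Kl` only. -/
theorem ratC97 [IsProbabilityMeasure μ] {C : ℝ} {n₀ : ℕ} (hI : In μ s c C n₀) (S : Is → Cst → Prop) : ∃ xF : Cst → ℝ,
    (∀ K, 0 ≤ xF K) ∧ (∀ K, xF (K.cut .Kl) = xF K) ∧ (∀ K, xF (K.cut .LB) = xF K) ∧
    ∀ᶠ K in FC S, ∀ x, xF K ≤ x → RatS97 μ s c K.kw K.V1 K.Re K.Qe K.Uw K.sgm K.R2 x := by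
  obtain ⟨f, g, H⟩ := ratG97 hI
  have hc : 0 < c / 80 := by have := hI.c0; linarith
  refine ⟨fun K => max 0 (g (K.kw, K.V1, K.Re, K.Qe, K.Uw, K.sgm) K.R2), fun _ => le_max_left _ _, fun _ => rfl, fun _ => rfl, ?_⟩
  filter_upwards [FC.V1_ge S fun _ => 0, FC.Uw_ge S fun _ => 0, FC.sgm_le S (fun _ => c / 80) (fun _ => hc), FC.kw_ge S fun _ => 0,
    FC.Re_ge S fun _ => 0, FC.Qe_ge S fun _ => 0, FC.R2_ge S fun K => f (K.kw, K.V1, K.Re, K.Qe, K.Uw, K.sgm)] with K h1 h2 h3 h4 h5 h6 h7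
  intro x hx
  exact H (K.kw, K.V1, K.Re, K.Qe, K.Uw, K.sgm) ⟨h4, h1, h5, h6, h2, h3.1.le, h3.2⟩ K.R2 h7 x ((le_max_right _ _).trans hx)

/-! ### Together -/

/-- **THE PARTS `gw` AND `ratio` OF ONE WINDOW.** -/
structure Gt97 (μ : Measure ℝ) (s c ε x kap : ℝ) (C : Cst) (P : Pre) (F : Cf98) (Γ : Cx) (G : Gm) (E : ℕ → ℝ) (u : ℕ)
    (κ : ℤ × ℤ) : Prop where
  /-- the gate, from the luck -/
  gw : ∀ x y y' gu z : ℝ, LkP98 μ s c Γ G (Nm97 μ s c ε C Γ G E) (F.nr μ s c Γ G E) u κ (TF98 μ s c (Nm97 μ s c ε C) F Γ G E u κ)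
      x y y' gu z →
    GwP97 μ s c Γ G (Nm97 μ s c ε C Γ G E) (F.nr μ s c Γ G E) u κ C.M C.Ag C.Bg C.pG (C.sgm * C.R0 * E u + E u / 16) (rC97 C kap)
      (TF98 μ s c (Nm97 μ s c ε C) F Γ G E u κ) x gu y (ENNReal.ofReal C.pL)
  /-- the exponent of the third clause -/
  y3 : yN52 μ s C.Uc C.Qc (C.sgm * C.R0 * E u + E u / 16) (rC97 C kap * EE μ s (G.T u)) ((Nm97 μ s c ε C Γ G E).n u) ≤
    g3C97 C * EE μ s (G.T u)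
  /-- the ratio -/
  ra : ∀ ω ∈ Tx ((Fam98o μ s c P (Nm97 μ s c ε C) F).TT Γ G E) (fun u => E u / 16) u κ, ∀ ξ,
    G.R u κ ξ ω ∈ TF98 μ s c (Nm97 μ s c ε C) F Γ G E u κ →
    O22.Pr Γ (G.ra u κ - 1) (G.re u κ) (O22.Bw G u κ) (x * E u) ω (G.R u κ ξ ω)

/-- **THE PART `ratio` OVER THE FILTER OF THE CONSTANTS**: all prices `x ≥ xF C`, all tilts `kap ≤ c / 8`. -/
theorem raC97 [IsProbabilityMeasure μ] {Cc : ℝ} {n₀ : ℕ} (h : In μ s c Cc n₀) (S : Is → Cst → Prop) : ∃ xF : Cst → ℝ,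
    (∀ K, 0 ≤ xF K) ∧ (∀ K, xF (K.cut .Kl) = xF K) ∧ (∀ K, xF (K.cut .LB) = xF K) ∧
    EvC S fun C => ∀ x, xF C ≤ x → ∀ kap : ℝ, kap ≤ c / 8 → ∀ {P : Pre} {N : NmF} {F : Cf98}, P.kw = C.kw → Cf97 C F →
      Ew98 μ s c kap P N F fun Γ G _ _ E u κ =>
        ∀ ω ∈ Tx ((Fam98o μ s c P N F).TT Γ G E) (fun u => E u / 16) u κ, ∀ ξ, G.R u κ ξ ω ∈ TF98 μ s c N F Γ G E u κ →
          O22.Pr Γ (G.ra u κ - 1) (G.re u κ) (O22.Bw G u κ) (x * E u) ω (G.R u κ ξ ω) := by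
  obtain ⟨xF, h0, h1, h2, hxF⟩ := ratC97 h S
  refine ⟨xF, h0, h1, h2, ?_⟩
  filter_upwards [hxF, FC.R1_ge S fun C => C.R2] with C hx hR x hxx kap hk P N F hP hF
  obtain ⟨n2, H2⟩ := hx x hxx
  refine ⟨n2, fun Γ G mt τ0 E u κ W ω hω ξ hξ => ?_⟩
  have W2 := W.w.monoK hk
  rw [hP] at W2
  exact H2 hF.sgm hF.R2 (by rw [hF.R1]; exact hR) hF.V1 hF.Re hF.Qe hF.Uw.le W2 ω (W.tc ω hω) ξ hξ.1

/-- **THE PARTS `gw` AND `ratio` OVER THE FILTER OF THE CONSTANTS**: all prices `x ≥ xF C`, all tilts `0 ≤ kap ≤ kap97 c C`. -/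
theorem gtC97 [IsProbabilityMeasure μ] {Cc : ℝ} {n₀ : ℕ} (h : In μ s c Cc n₀) (ε : ℝ) : ∃ xF : Cst → ℝ,
    (∀ K, 0 ≤ xF K) ∧ (∀ K, xF (K.cut .Kl) = xF K) ∧ (∀ K, xF (K.cut .LB) = xF K) ∧
    EvC (S0 μ s c Cc ε) fun C => 0 < kap97 c C ∧ 0 ≤ g3C97 C ∧ ∀ x, xF C ≤ x → ∀ kap : ℝ, 0 ≤ kap → kap ≤ kap97 c C →
      ∀ {P : Pre} {F : Cf98}, P.kw = C.kw → Cf97 C F → Ew98 μ s c kap P (Nm97 μ s c ε C) F fun Γ G _ _ E u κ =>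
        Gt97 μ s c ε x kap C P F Γ G E u κ := by
  obtain ⟨xF, h0, h1, h2, hxF⟩ := raC97 h (S0 μ s c Cc ε)
  refine ⟨xF, h0, h1, h2, ?_⟩
  filter_upwards [gk97 (μ := μ) (s := s) (c := c) (Cc := Cc) (ε := ε), hxF] with C g hx
  refine ⟨g.kap_pos h.c0, g.g30, fun x hxx kap hk0 hk {P F} hP hF => ?_⟩
  exact ((gwS97 h g hP hF hk0 hk).and (hx x hxx kap (hk.trans (kap97_le _ _)) hP hF)).mono fun Γ G mt τ0 E u κ _ a => ⟨a.1.1, a.1.2, a.2⟩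

end

end Pool.Agent.W_7d29a1_C1.Q49
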