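import Pool.Agent.W_7d29a1_C1.RoB22
import Pool.Agent.W_7d29a1_C1.KiP52
import Pool.Agent.W_7d29a1_C1.LoW18
import Pool.Agent.W_7d29a1_C1.Osc22

/-!
MP_7d29a1_pr, [C1] attractor route, SEP: THE RATIO OF TWO TYPICAL CONTENTS, CONSTANTS BEFORE THE LUCK. (helper52)

* `Kt52` : the kernels of one block: the totals with a slope `Up22` and the lower kernels `Lw18`, the same for every strip;
* `blk52` : they give `KiB` and `LoB` on every strip `b` with `ρ + kw + 1 ≤ b`;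
* `tm52` : `TmB` from `OuT`;
* **`pr52`** : `Pr` (Osc22) of the pair `(ω, R u κ η ω)`, both contents with `Kt52` on the two blocks;
* `lvr52`, `lr52` : the inputs of `ratW22` (RoB22) from `Kt52`.
-/

set_option autoImplicit false

namespace Pool.Agent.W_7d29a1_C1.Ge52

open Finset MeasureTheory Filter
open Pool.Agent.W_7d29a1_F hiding Bw G
open Pool.Agent.W_7d29a1_h4g Pool.Agent.W_7d29a1_HS
open Pool.Agent.W_7d29a1_H hiding ex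
open Pool.Agent.W_7d29a1_C1.K91 (wt wt_pos)
open Pool.Agent.W_7d29a1_C1.K91P (bw bw_pos)
open Pool.Agent.W_7d29a1_C1.U16 (lat16)
open Pool.Agent.W_7d29a1_C1.H75 (hc)
open Pool.Agent.W_7d29a1_C1.H60
open Pool.Agent.W_7d29a1_C1.G37 (Gm)
open Pool.Agent.W_7d29a1_C1.O22 (Bw Pr pr_R)
open Pool.Agent.W_7d29a1_C1.Rt22
open Pool.Agent.W_7d29a1_C1.RB22
open Pool.Agent.W_7d29a1_C1.GL18 (Lw18 lw18_lob lw18_meas lw18_mono)
open Pool.Agent.W_7d29a1_C1.Ou37 (gam OuT)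
open Pool.Agent.W_7d29a1_C1.Up52 (Up22 lo52)
open Pool.Agent.W_7d29a1_C1.Ki52 (kib_up gau_gam KiB_mono)

noncomputable section

variable (μ : Measure ℝ) (s c : ℝ) (Γ : Cx) (G : Gm)

/-- **THE KERNELS OF ONE BLOCK** `(a, e)`, base `o` of the coordinate, sites `A` avoided by the lower kernels. -/
def Kt52 (V ρ Q : ℝ) (o : Pt) (A : Set Pt) (u : ℕ) (κ : ℤ × ℤ) (a e : ℕ) : Set Env :=
  Up22 μ s (hc μ s c (G.T u)) (V * EE μ s (G.T u)) (c / 16 * (EE μ s (G.T u) / wd μ s (G.T u))) (lo52 μ s o) a (e - 1) ∩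
    Lw18 μ s G u κ a e ρ A Q

variable {μ s c Γ G} {u : ℕ} {κ : ℤ × ℤ}

/-- **`TmB` from `OuT`.** -/
theorem tm52 {E : ℕ → ℝ} {R Q' sg b x : ℝ} (hb : b * G.w u + 1 ≤ R * G.w u) (hx : Q' * E u + sg ≤ x) :
    OuT μ s Γ G E R Q' sg u κ ⊆ TmB Γ G (gam μ s Γ) b x u κ (G.ra u κ - 1) (G.re u κ) := by
  intro ω h c c' h1 h2 h3 h4 h5 h6
  have key := h c ⟨by omega, h2, h5.trans hb⟩ c' ⟨by omega, h4, h6.trans hb⟩
  rw [Ou37.bn_eq, Ou37.bn_eq] at key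
  refine key.trans (mul_le_mul_of_nonneg_right (Real.exp_le_exp.2 hx) ?_)
  exact (bn_pos (Γ := Γ) (γ := gam μ s Γ) (fun k y => Ou37.gam_pos k y) ω c).le

theorem StB_mono {b b' x x' : ℝ} {e : ℕ} (hb : b' * G.w u ≤ b * G.w u) (hx : x ≤ x') : StB G b x u κ e ⊆ StB G b' x' u κ e := by
  intro ω h v hv
  obtain ⟨h1, h2⟩ := h v (hv.trans (by linarith))
  exact ⟨(Real.exp_le_exp.2 (by linarith)).trans h1, h2.trans (Real.exp_le_exp.2 hx)⟩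

theorem LoB_mono {γ : ℕ → ℤ → ℝ} (hγ : ∀ k y, 0 < γ k y) {b U U' : ℝ} {a e : ℕ} (hU : U ≤ U') :
    LoB Γ G γ b U u κ a e ⊆ LoB Γ G γ b U' u κ a e := by
  intro ω h c hc
  obtain ⟨J, hJ, hk⟩ := h c hc
  refine ⟨J, hJ, (mul_le_mul_of_nonneg_right (Real.exp_le_exp.2 (by linarith)) (gB_pos hγ e ω _ _).le).trans hk⟩

variable [IsProbabilityMeasure μ] {C : ℝ} {n₀ : ℕ}

/-- **`KiB` AND `LoB` ON EVERY STRIP** from the kernels of the block. -/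
theorem blk52 (h : In μ s c C n₀) {kw : ℝ} (hkw : 0 ≤ kw) : ∃ Ck : ℝ, 0 < Ck ∧ ∃ n₁ : ℕ, 1 ≤ n₁ ∧
    ∀ {V ρ Q b : ℝ} {Γ : Cx} {G : Gm} {u : ℕ} {κ : ℤ × ℤ} {a e : ℕ} {o : Pt} {A : Set Pt}, 0 ≤ V → 0 ≤ ρ → Γ.s = s → G.v = sl μ s →
      G.w u = wd μ s (G.T u) → G.kw = kw → |Γ.h| * wd μ s (G.T u) ≤ c / 8 * EE μ s (G.T u) → n₁ ≤ G.T u → ρ + kw + 1 ≤ b →
      0 ≤ G.rcc u κ → G.ra u κ ≤ a + 1 → e ≤ G.re u κ → e ≤ Γ.N → o.2 = ⌊G.ctr u κ + G.v * (o.1 : ℝ)⌋ →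
      Kt52 μ s c G V ρ Q o A u κ a e ⊆
        KiB Γ G (gam μ s Γ) b (Real.exp ((2 * V + Ck) * EE μ s (G.T u))) (Real.exp ((2 * V + Ck - c / 2 * b) * EE μ s (G.T u))) u κ a e ∩
          LoB Γ G (gam μ s Γ) b ((Q + ρ + Ck) * EE μ s (G.T u)) u κ a e := by
  obtain ⟨Ck, hCk, n₁, hn₁, H⟩ := kib_up h hkw
  obtain ⟨n₂, hn₂⟩ := eventually_atTop.1 (h.tE.eventually_ge_atTop 1)
  have hc0 := h.c0
  have hc1 := h.c1
  have hs0 := h.sl_pos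
  have hs1 := h.sl_lt
  refine ⟨Ck + kw + 4 + |lam μ s|, by positivity, max n₁ n₂, hn₁.trans (le_max_left _ _),
    fun {V ρ Q b Γ G u κ a e o A} hV hρ hs hv hw hkw' hh hT hb h0 ha he heN ho ω hω => ?_⟩
  have hT1 : n₁ ≤ G.T u := (le_max_left _ _).trans hT
  have hE1 : 1 ≤ EE μ s (G.T u) := hn₂ (G.T u) ((le_max_right _ _).trans hT)
  have hw2 : 2 * EE μ s (G.T u) ≤ wd μ s (G.T u) := wd_ge_one h (hn₁.trans hT1)
  obtain ⟨E, hE⟩ : ∃ E, E = EE μ s (G.T u) := ⟨_, rfl⟩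
  obtain ⟨w, hwe⟩ : ∃ w, w = wd μ s (G.T u) := ⟨_, rfl⟩
  have g := gau_gam (μ := μ) (s := s) Γ
  have hvv0 : 0 ≤ G.v := by rw [hv]; exact hs0.le
  have hvv1 : G.v ≤ 1 := by rw [hv]; exact hs1.le
  have hlen : e ≤ a + G.T u + 1 := Ki52.blk_len (by omega) he
  have k1 := H (V₁ := V) (κ := κ) (b := b) hV hs hv hw hkw' hh hT1 (by linarith) g heN hlen ho hω.1
  have hl0 : 0 ≤ |lam μ s| := abs_nonneg _
  refine ⟨KiB_mono g.pos ?_ ?_ k1, ?_⟩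
  · exact Real.exp_le_exp.2 (mul_le_mul_of_nonneg_right (by linarith) (by linarith))
  · exact Real.exp_le_exp.2 (mul_le_mul_of_nonneg_right (by linarith) (by linarith))
  · refine lw18_lob hs hv g hvv0 hvv1 h0 ha he heN hρ ?_ ?_ hω.2
    · rw [hw]
      have : (ρ + kw + 1) * wd μ s (G.T u) ≤ b * wd μ s (G.T u) := mul_le_mul_of_nonneg_right hb (by linarith)
      nlinarith
    · rw [hkw', hw]
      rw [← hE] at hE1 hw2 hh ⊢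
      rw [← hwe] at hw2 hh ⊢
      have hw0 : 0 < w := by linarith
      have a0 := abs_nonneg Γ.h
      have a1 : |Γ.h| ≤ 1 := by
        have b1 : |Γ.h| * w ≤ 1 * w := by nlinarith
        exact le_of_mul_le_mul_right b1 hw0
      have a2 : |Γ.h * sl μ s| ≤ 1 := by
        rw [abs_mul, abs_of_pos hs0]
        exact mul_le_one₀ a1 hs0.le hs1.le
      have a3 : |Γ.h| * (ρ * w + kw * w + 3) = (ρ + kw) * (|Γ.h| * w) + 3 * |Γ.h| := by ring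
      have a4 : (ρ + kw) * (|Γ.h| * w) ≤ (ρ + kw) * (c / 8 * E) := mul_le_mul_of_nonneg_left hh (by linarith)
      have a5 : (ρ + kw) * (c / 8 * E) ≤ (ρ + kw) * E := by
        refine mul_le_mul_of_nonneg_left ?_ (by linarith)
        nlinarith
      have a6 : |lam μ s| ≤ |lam μ s| * E := le_mul_of_one_le_right hl0 hE1
      have a7 : 0 ≤ Ck * E := by positivity
      rw [a3]
      nlinarith

/-- The level of the pair. -/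
def cd52 (V ρ Q x y Ck : ℝ) : ℝ := 2 + 2 * (2 * V + Ck) + 5 * (x + y) + (Q + ρ + Ck)

/-- **THE RATIO OF TWO TYPICAL CONTENTS.** Every constant before the strip `b`, and `b` before the luck. -/
theorem pr52 (h : In μ s c C n₀) {kw : ℝ} (hkw : 0 ≤ kw) : ∃ Ck : ℝ, 0 < Ck ∧ ∃ n₁ : ℕ, 1 ≤ n₁ ∧
    ∀ {V ρ Q x y b : ℝ} {Γ : Cx} {G : Gm} {u : ℕ} {κ : ℤ × ℤ} {r : ℕ} {o o' : Pt} {A A' : Set Pt} {ω η : Env},
      0 ≤ V → 0 ≤ ρ → 0 ≤ Q → 0 ≤ x → 0 ≤ y → cd52 V ρ Q x y Ck ≤ c / 2 * b → Γ.s = s → G.v = sl μ s →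
      G.w u = wd μ s (G.T u) → G.kw = kw → |Γ.h| * wd μ s (G.T u) ≤ c / 8 * EE μ s (G.T u) → n₁ ≤ G.T u → ρ + kw + 1 ≤ b →
      0 ≤ G.rcc u κ → G.ra u κ ≤ r → r ≤ G.re u κ → G.re u κ ≤ Γ.N → o.2 = ⌊G.ctr u κ + G.v * (o.1 : ℝ)⌋ →
      o'.2 = ⌊G.ctr u κ + G.v * (o'.1 : ℝ)⌋ →
      ω ∈ TmB Γ G (gam μ s Γ) b (x * EE μ s (G.T u)) u κ (G.ra u κ - 1) (G.re u κ) →
      ω ∈ StB G b (y * EE μ s (G.T u)) u κ r → ω ∈ StB G b (y * EE μ s (G.T u)) u κ (G.re u κ) →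
      ω ∈ Kt52 μ s c G V ρ Q o A u κ (G.ra u κ - 1) r → ω ∈ Kt52 μ s c G V ρ Q o' A' u κ (r - 1) (G.re u κ) →
      G.R u κ η ω ∈ Kt52 μ s c G V ρ Q o A u κ (G.ra u κ - 1) r →
      G.R u κ η ω ∈ Kt52 μ s c G V ρ Q o' A' u κ (r - 1) (G.re u κ) →
      Ro (wt ω) (wt (G.R u κ η ω)) Γ.p Γ.N (Bw G u κ) (Real.exp (2 * (cd52 V ρ Q x y Ck * EE μ s (G.T u)))) ∧
        Pr Γ (G.ra u κ - 1) (G.re u κ) (Bw G u κ) (2 * (cd52 V ρ Q x y Ck * EE μ s (G.T u))) ω (G.R u κ η ω) := by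
  obtain ⟨Ck, hCk, n₁, hn₁, H⟩ := blk52 h hkw
  obtain ⟨n₂, hn₂⟩ := eventually_atTop.1 (h.tE.eventually_ge_atTop 1)
  have hc0 := h.c0
  have hs0 := h.sl_pos
  have hs1 := h.sl_lt
  refine ⟨Ck, hCk, max n₁ n₂, hn₁.trans (le_max_left _ _),
    fun {V ρ Q x y b Γ G u κ r o o' A A' ω η} hV hρ hQ hx hy hnum hs hv hw hkw' hh hT hb h0 har hre heN ho ho' hTm hS1 hS2 hk1 hk2
      hk1' hk2' => ?_⟩
  have hT1 : n₁ ≤ G.T u := (le_max_left _ _).trans hT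
  have hE1 : 1 ≤ EE μ s (G.T u) := hn₂ (G.T u) ((le_max_right _ _).trans hT)
  have hw2 : 2 * EE μ s (G.T u) ≤ wd μ s (G.T u) := wd_ge_one h (hn₁.trans hT1)
  have hvv0 : 0 ≤ G.v := by rw [hv]; exact hs0.le
  have hvv1 : G.v ≤ 1 := by rw [hv]; exact hs1.le
  have hra := ra_pos (G := G) u κ
  have f1 := fun ω' (hω' : ω' ∈ Kt52 μ s c G V ρ Q o A u κ (G.ra u κ - 1) r) =>
    H (b := b) hV hρ hs hv hw hkw' hh hT1 hb h0 (by omega) hre (hre.trans heN) ho hω'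
  have f2 := fun ω' (hω' : ω' ∈ Kt52 μ s c G V ρ Q o' A' u κ (r - 1) (G.re u κ)) =>
    H (b := b) hV hρ hs hv hw hkw' hh hT1 hb h0 (by omega) le_rfl heN ho' hω'
  obtain ⟨E, hE⟩ : ∃ E, E = EE μ s (G.T u) := ⟨_, rfl⟩
  rw [← hE] at f1 f2 hE1 hw2 hTm hS1 hS2 ⊢
  have hb0 : 0 ≤ b := by linarith
  have hw0 : 0 < G.w u := by rw [hw]; linarith
  have hbw : G.kw * G.w u + 2 ≤ b * G.w u := by
    have a1 : (kw + 1) * G.w u ≤ b * G.w u := mul_le_mul_of_nonneg_right (by linarith) hw0.le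
    have a2 : 2 ≤ G.w u := by rw [hw]; linarith
    rw [hkw']
    linarith
  have hE0 : 0 ≤ E := by linarith
  have hnumE : cd52 V ρ Q x y Ck * E ≤ c / 2 * b * E := mul_le_mul_of_nonneg_right hnum hE0
  unfold cd52 at hnumE
  have key := two_pair (Γ := Γ) (G := G) (γ := gam μ s Γ) (b := b) (A := Real.exp ((2 * V + Ck) * E))
    (X := Real.exp ((2 * V + Ck - c / 2 * b) * E)) (Q := x * E) (Uw := y * E) (U₁ := (Q + ρ + Ck) * E) (al := (2 * V + Ck) * E)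
    (q := x * E + y * E) (d := cd52 V ρ Q x y Ck * E) (u := u) (r := r) (κ := κ) (ω := ω) (η := η)
    (fun k z => Ou37.gam_pos k z) hvv0 hvv1 h0 hbw (mul_nonneg hb0 hw0.le) har hre heN (by positivity) (by positivity) (by positivity)
    le_rfl (by positivity) le_rfl (Real.exp_pos _).le ?_ ?_ hTm
    ⟨⟨(f1 ω hk1).1, (f2 ω hk2).1⟩, hS1, hS2⟩ ⟨⟨(f1 _ hk1').1, (f1 _ hk1').2⟩, (f2 _ hk2').1, (f2 _ hk2').2⟩
  · refine ⟨key.2.2, pr_R h0 (by omega) (fun z => key.2.2.up _ z ?_) fun z => key.2.2.dn _ z ?_⟩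
    · intro hz
      have := (bw_rows h0 hz).1
      omega
    · intro hz
      have := (bw_rows h0 hz).1
      omega
  · rw [← Real.exp_add]
    have e1 : Real.exp (-1 : ℝ) ≤ 1 / 2 := by
      rw [Real.exp_neg, inv_eq_one_div]
      refine one_div_le_one_div_of_le (by norm_num) ?_
      have := Real.add_one_le_exp (1 : ℝ)
      linarith
    refine (Real.exp_le_exp.2 ?_).trans e1
    nlinarith
  · unfold cd52
    nlinarith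

/-- **The old content in the letters of `ratW22`.** -/
theorem lvr52 (h : In μ s c C n₀) {kw : ℝ} (hkw : 0 ≤ kw) : ∃ Ck : ℝ, 0 < Ck ∧ ∃ n₁ : ℕ, 1 ≤ n₁ ∧
    ∀ {V ρ Q b AA XX Uw : ℝ} {Γ : Cx} {G : Gm} {u : ℕ} {κ : ℤ × ℤ} {r : ℕ} {o o' : Pt} {A A' : Set Pt}, 0 ≤ V → 0 ≤ ρ → Γ.s = s →
      G.v = sl μ s → G.w u = wd μ s (G.T u) → G.kw = kw → |Γ.h| * wd μ s (G.T u) ≤ c / 8 * EE μ s (G.T u) → n₁ ≤ G.T u →
      ρ + kw + 1 ≤ b → 0 ≤ G.rcc u κ → G.ra u κ ≤ r → r ≤ G.re u κ → G.re u κ ≤ Γ.N → o.2 = ⌊G.ctr u κ + G.v * (o.1 : ℝ)⌋ →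
      o'.2 = ⌊G.ctr u κ + G.v * (o'.1 : ℝ)⌋ → Real.exp ((2 * V + Ck) * EE μ s (G.T u)) ≤ AA →
      Real.exp ((2 * V + Ck - c / 2 * b) * EE μ s (G.T u)) ≤ XX →
      (Kt52 μ s c G V ρ Q o A u κ (G.ra u κ - 1) r ∩ Kt52 μ s c G V ρ Q o' A' u κ (r - 1) (G.re u κ)) ∩
        (StB G b Uw u κ r ∩ StB G b Uw u κ (G.re u κ)) ⊆ LvR Γ G (gam μ s Γ) b AA XX Uw u κ r := by
  obtain ⟨Ck, hCk, n₁, hn₁, H⟩ := blk52 h hkw
  refine ⟨Ck, hCk, n₁, hn₁, fun {V ρ Q b AA XX Uw Γ G u κ r o o' A A'} hV hρ hs hv hw hkw' hh hT hb h0 har hre heN ho ho' hA hX ω hω => ?_⟩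
  have hra := ra_pos (G := G) u κ
  have f1 := H (b := b) hV hρ hs hv hw hkw' hh hT hb h0 (by omega) hre (hre.trans heN) ho hω.1.1
  have f2 := H (b := b) hV hρ hs hv hw hkw' hh hT hb h0 (by omega) le_rfl heN ho' hω.1.2
  exact ⟨⟨KiB_mono (fun k z => Ou37.gam_pos k z) hA hX f1.1, KiB_mono (fun k z => Ou37.gam_pos k z) hA hX f2.1⟩, hω.2⟩

/-- **The new content in the letters of `ratW22`**: `Kt52` on the gate block, `KiB` and `LoB` on the lane block. -/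
theorem lr52 (h : In μ s c C n₀) {kw : ℝ} (hkw : 0 ≤ kw) : ∃ Ck : ℝ, 0 < Ck ∧ ∃ n₁ : ℕ, 1 ≤ n₁ ∧
    ∀ {V ρ Q b AA XX UU : ℝ} {Γ : Cx} {G : Gm} {u : ℕ} {κ : ℤ × ℤ} {r : ℕ} {o : Pt} {A : Set Pt}, 0 ≤ V → 0 ≤ ρ → Γ.s = s →
      G.v = sl μ s → G.w u = wd μ s (G.T u) → G.kw = kw → |Γ.h| * wd μ s (G.T u) ≤ c / 8 * EE μ s (G.T u) → n₁ ≤ G.T u →
      ρ + kw + 1 ≤ b → 0 ≤ G.rcc u κ → G.ra u κ ≤ r → r ≤ G.re u κ → G.re u κ ≤ Γ.N → o.2 = ⌊G.ctr u κ + G.v * (o.1 : ℝ)⌋ →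
      Real.exp ((2 * V + Ck) * EE μ s (G.T u)) ≤ AA → Real.exp ((2 * V + Ck - c / 2 * b) * EE μ s (G.T u)) ≤ XX →
      (Q + ρ + Ck) * EE μ s (G.T u) ≤ UU →
      Kt52 μ s c G V ρ Q o A u κ (G.ra u κ - 1) r ∩ (KiB Γ G (gam μ s Γ) b AA XX u κ (r - 1) (G.re u κ) ∩
        LoB Γ G (gam μ s Γ) b UU u κ (r - 1) (G.re u κ)) ⊆ LR Γ G (gam μ s Γ) b AA XX UU u κ r := by
  obtain ⟨Ck, hCk, n₁, hn₁, H⟩ := blk52 h hkw
  refine ⟨Ck, hCk, n₁, hn₁, fun {V ρ Q b AA XX UU Γ G u κ r o A} hV hρ hs hv hw hkw' hh hT hb h0 har hre heN ho hA hX hU ω hω => ?_⟩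
  have hra := ra_pos (G := G) u κ
  have f1 := H (b := b) hV hρ hs hv hw hkw' hh hT hb h0 (by omega) hre (hre.trans heN) ho hω.1
  exact ⟨⟨KiB_mono (fun k z => Ou37.gam_pos k z) hA hX f1.1, LoB_mono (fun k z => Ou37.gam_pos k z) hU f1.2⟩, hω.2⟩

end

end Pool.Agent.W_7d29a1_C1.Ge52
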