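import Pool.Agent.W_7d29a1_C1.GwE52
import Pool.Agent.W_7d29a1_C1.SepE98

/-!
MP_7d29a1_pr, [C1] attractor route, SEP: THE EARLY RATIO IN THE LETTERS OF SepE98, WITH ALL NUMBERS. (helper52)

* `Cm52` : the standing conditions on a scale; `Ey52` : the kernels of the gate block and of the rows `(rl98, re)`, early levels;
* `kt52_of` : `Kt52` from `UpS` and `Lw18` at the base `pt98 a`;
* **`ratE52`** : `kw, V, Re, Qe, Uw, sgm ≤ c / 80` given, `∃ R₀, ∀ R₂ ≥ R₀, ∃ Cd, ∃ n₁` : the ratio `exp (Cd E)` of the pair `(ω, R u κ ξ ω)`;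
* **`ratT52`** : the same for `TP98` (v3), the field `ratio` of `WQ28`.
-/

set_option autoImplicit false

namespace Pool.Agent.W_7d29a1_C1.Ge52

open Finset MeasureTheory Filter
open Pool.Agent.W_7d29a1_F hiding Bw G
open Pool.Agent.W_7d29a1_h4g Pool.Agent.W_7d29a1_HS
open Pool.Agent.W_7d29a1_H hiding ex
open Pool.Agent.W_7d29a1_C1.K91 (wt wt_pos)
open Pool.Agent.W_7d29a1_C1.U16 (lat16)
open Pool.Agent.W_7d29a1_C1.H75 (hc)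
open Pool.Agent.W_7d29a1_C1.H60
open Pool.Agent.W_7d29a1_C1.G37 (Gm)
open Pool.Agent.W_7d29a1_C1.O22 (Bw Pr)
open Pool.Agent.W_7d29a1_C1.Rt22
open Pool.Agent.W_7d29a1_C1.RB22
open Pool.Agent.W_7d29a1_C1.GL18 (Lw18)
open Pool.Agent.W_7d29a1_C1.Ou37 (gam OuT)
open Pool.Agent.W_7d29a1_C1.Up52 (Up22 lo52 UpS upS_22 upS_mono)
open Pool.Agent.W_7d29a1_C1.D98

noncomputable section

/-- **The standing conditions on the scale `u`.** -/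
structure Cm52 (μ : Measure ℝ) (s c : ℝ) (Γ : Cx) (G : Gm) (kw : ℝ) (n₁ u : ℕ) : Prop where
  hs : Γ.s = s
  hv : G.v = sl μ s
  hw : G.w u = wd μ s (G.T u)
  hk : G.kw = kw
  hh : |Γ.h| * wd μ s (G.T u) ≤ c / 8 * EE μ s (G.T u)
  hT : n₁ ≤ G.T u

variable (μ : Measure ℝ) (s c : ℝ) (Γ : Cx) (G : Gm) (P : Nm98) (R : Nr98) (u : ℕ) (κ : ℤ × ℤ)

/-- **The kernels of the gate block and of the rows `(rl98, re)`**, early levels. -/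
def Ey52 : Set Env := (Lw18 μ s G u κ (G.ra u κ - 1) (rf98 Γ G P u κ) R.Re (Sg98 μ s Γ G P u κ) R.Qe ∩
    UpS μ s (hc μ s c (G.T u)) (pt98 G u κ (G.ra u κ - 1)) (rl98 Γ G P u κ - (G.ra u κ - 1)) (R.Vs u) (R.sV u)) ∩
  (Lw18 μ s G u κ (rl98 Γ G P u κ) (G.re u κ) R.Re ∅ R.Qe ∩
    UpS μ s (hc μ s c (G.T u)) (pt98 G u κ (rl98 Γ G P u κ)) (G.re u κ - 1 - rl98 Γ G P u κ) (R.Vs u) (R.sV u))

variable {μ s c Γ G P R u κ}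

theorem pt98_line (k : ℕ) : (pt98 G u κ k).2 = ⌊G.ctr u κ + G.v * (((pt98 G u κ k).1 : ℤ) : ℝ)⌋ := by
  show ⌊G.ctr u κ + G.v * (k : ℝ)⌋ = ⌊G.ctr u κ + G.v * (((k : ℤ)) : ℝ)⌋
  rw [Int.cast_natCast]

/-- `Kt52` from `UpS` and `Lw18` at the base `pt98 a`. -/
theorem kt52_of {V ρ Q Vs sV : ℝ} {A : Set Pt} {a e : ℕ} (hV : Vs ≤ V * EE μ s (G.T u))
    (hs : sV ≤ c / 16 * (EE μ s (G.T u) / wd μ s (G.T u))) (hae : a ≤ e - 1) {ω : Env} (h1 : ω ∈ Lw18 μ s G u κ a e ρ A Q)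
    (h2 : ω ∈ UpS μ s (hc μ s c (G.T u)) (pt98 G u κ a) (e - 1 - a) Vs sV) :
    ω ∈ Kt52 μ s c G V ρ Q (pt98 G u κ a) A u κ a e := by
  refine ⟨upS_22 (N := e - 1 - a) (show ((pt98 G u κ a).1) ≤ (a : ℤ) from le_rfl) ?_ (upS_mono hV hs le_rfl h2), h1⟩
  show ((e - 1 : ℕ) : ℤ) ≤ (a : ℤ) + ((e - 1 - a : ℕ) : ℤ)
  omega

variable [IsProbabilityMeasure μ] {C : ℝ} {n₀ : ℕ}

/-- **THE RATIO OF TWO TYPICAL CONTENTS IN THE LETTERS OF SepE98.** -/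
theorem ratE52 (h : In μ s c C n₀) {kw V ρ Q y sgm : ℝ} (hkw : 0 ≤ kw) (hV : 0 ≤ V) (hρ : 0 ≤ ρ) (hQ : 0 ≤ Q) (hy : 0 ≤ y)
    (hs0 : 0 ≤ sgm) (hs1 : sgm ≤ c / 80) : ∃ R₀ : ℝ, ρ + kw + 2 ≤ R₀ ∧ ∀ R₂ : ℝ, R₀ ≤ R₂ → ∃ Cd : ℝ, 0 < Cd ∧ ∃ n₁ : ℕ, 1 ≤ n₁ ∧
      ∀ {Γ : Cx} {G : Gm} {P : Nm98} {R : Nr98} {u : ℕ} {κ : ℤ × ℤ} {E : ℕ → ℝ} {sg : ℝ} {ω ξ : Env}, Cm52 μ s c Γ G kw n₁ u →
        0 ≤ G.rcc u κ → G.re u κ ≤ Γ.N → Fit98 G P u → R.Re = ρ → R.Qe = Q → R.Vs u ≤ V * EE μ s (G.T u) →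
        R.sV u ≤ c / 16 * (EE μ s (G.T u) / wd μ s (G.T u)) → R₂ - 1 ≤ R.b u → R.Uw u ≤ y * EE μ s (G.T u) →
        E u = EE μ s (G.T u) → sg ≤ 1 / 16 * EE μ s (G.T u) →
        ω ∈ Ey52 μ s c Γ G P R u κ → ω ∈ StB G (R.b u) (R.Uw u) u κ (rf98 Γ G P u κ) → ω ∈ StB G (R.b u) (R.Uw u) u κ (G.re u κ) →
        ω ∈ OuT μ s Γ G E R₂ (sgm * R₂) sg u κ → G.R u κ ξ ω ∈ Ey52 μ s c Γ G P R u κ →
        Ro (wt ω) (wt (G.R u κ ξ ω)) Γ.p Γ.N (Bw G u κ) (Real.exp (Cd * EE μ s (G.T u))) ∧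
          Pr Γ (G.ra u κ - 1) (G.re u κ) (Bw G u κ) (Cd * EE μ s (G.T u)) ω (G.R u κ ξ ω) := by
  obtain ⟨Ck, hCk, n₁, hn₁, H⟩ := pr52 h hkw
  obtain ⟨n₂, hn₂⟩ := eventually_atTop.1 (h.tE.eventually_ge_atTop 1)
  have hc0 := h.c0
  obtain ⟨K₀, hK₀⟩ : ∃ K₀ : ℝ, K₀ = 2 + 2 * (2 * V + Ck) + 5 * (1 / 16 + y) + (Q + ρ + Ck) := ⟨_, rfl⟩
  have hK0 : 0 ≤ K₀ := by rw [hK₀]; positivity
  refine ⟨max (ρ + kw + 2) (4 * (K₀ + c) / c), le_max_left _ _, fun R₂ hR => ?_⟩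
  have hR1 : ρ + kw + 2 ≤ R₂ := (le_max_left _ _).trans hR
  have hR2 : 4 * (K₀ + c) / c ≤ R₂ := (le_max_right _ _).trans hR
  have hR0 : 0 ≤ R₂ := by linarith
  have hx0 : 0 ≤ sgm * R₂ := mul_nonneg hs0 hR0
  have hnum : cd52 V ρ Q (sgm * R₂ + 1 / 16) y Ck ≤ c / 2 * (R₂ - 1) := by
    have e1 : cd52 V ρ Q (sgm * R₂ + 1 / 16) y Ck = K₀ + 5 * (sgm * R₂) := by
      unfold cd52
      rw [hK₀]
      ring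
    rw [e1]
    have e2 : 4 * (K₀ + c) ≤ c * R₂ := by
      rw [div_le_iff₀ hc0] at hR2
      linarith
    have e3 : sgm * R₂ ≤ c / 80 * R₂ := mul_le_mul_of_nonneg_right hs1 hR0
    nlinarith
  have hcd : 0 < cd52 V ρ Q (sgm * R₂ + 1 / 16) y Ck := by
    unfold cd52
    positivity
  refine ⟨2 * cd52 V ρ Q (sgm * R₂ + 1 / 16) y Ck, by positivity, max n₁ n₂, hn₁.trans (le_max_left _ _),
    fun {Γ G P R u κ E sg ω ξ} M h0 hN hF hRe hQe hVs hsV hRb hUw hE hsg ho1 hst1 hst2 hou hn1 => ?_⟩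
  have hT1 : n₁ ≤ G.T u := (le_max_left _ _).trans M.hT
  have hE1 : 1 ≤ EE μ s (G.T u) := hn₂ (G.T u) ((le_max_right _ _).trans M.hT)
  have hw2 : 2 * EE μ s (G.T u) ≤ wd μ s (G.T u) := wd_ge_one h (hn₁.trans hT1)
  have hw0 : 0 < G.w u := G.w_pos u
  have hw1 : 1 ≤ G.w u := by rw [M.hw]; linarith
  have hra := ra_pos98 (G := G) (u := u) (κ := κ)
  have g1 := ra_le_rl98 (Γ := Γ) (G := G) (P := P) (u := u) (κ := κ)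
  have g2 := rl_T98 (Γ := Γ) (κ := κ) hF
  have hbw : (R₂ - 1) * G.w u ≤ R.b u * G.w u := mul_le_mul_of_nonneg_right hRb hw0.le
  have k1 : ∀ ω' ∈ Ey52 μ s c Γ G P R u κ,
      ω' ∈ Kt52 μ s c G V ρ Q (pt98 G u κ (G.ra u κ - 1)) (Sg98 μ s Γ G P u κ) u κ (G.ra u κ - 1) (rf98 Γ G P u κ) ∧
      ω' ∈ Kt52 μ s c G V ρ Q (pt98 G u κ (rf98 Γ G P u κ - 1)) ∅ u κ (rf98 Γ G P u κ - 1) (G.re u κ) := by
    intro ω' hω'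
    obtain ⟨⟨a1, a2⟩, a3, a4⟩ := hω'
    rw [hRe, hQe] at a1 a3
    constructor
    · exact kt52_of hVs hsV (by unfold rf98; omega) a1 a2
    · have e1 : rf98 Γ G P u κ - 1 = rl98 Γ G P u κ := by unfold rf98; omega
      rw [e1]
      exact kt52_of hVs hsV (by omega) a3 a4
  have hTm : ω ∈ TmB Γ G (gam μ s Γ) (R₂ - 1) ((sgm * R₂ + 1 / 16) * EE μ s (G.T u)) u κ (G.ra u κ - 1) (G.re u κ) := by
    refine tm52 (E := E) (R := R₂) (Q' := sgm * R₂) (sg := sg) ?_ ?_ hou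
    · nlinarith
    · rw [hE]
      linarith
  have key := H (V := V) (ρ := ρ) (Q := Q) (x := sgm * R₂ + 1 / 16) (y := y) (b := R₂ - 1) (Γ := Γ) (G := G) (u := u) (κ := κ)
    (r := rf98 Γ G P u κ) (ω := ω) (η := ξ) hV hρ hQ (by positivity) hy hnum M.hs M.hv M.hw M.hk M.hh hT1 (by linarith) h0
    (by unfold rf98; omega) (by unfold rf98; omega) hN (pt98_line _) (pt98_line _) hTm (StB_mono hbw hUw hst1) (StB_mono hbw hUw hst2)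
    (k1 ω ho1).1 (k1 ω ho1).2 (k1 _ hn1).1 (k1 _ hn1).2
  have e5 : 2 * cd52 V ρ Q (sgm * R₂ + 1 / 16) y Ck * EE μ s (G.T u) = 2 * (cd52 V ρ Q (sgm * R₂ + 1 / 16) y Ck * EE μ s (G.T u)) := by
    ring
  rw [e5]
  exact key

omit [IsProbabilityMeasure μ] in
/-- `TP98` contains the early kernels. -/
theorem tp_ey52 : TP98 μ s c Γ G P R u κ ⊆ Ey52 μ s c Γ G P R u κ := fun _ h =>
  ⟨⟨KG98.loE (TP98.kg h), KG98.upS (TP98.kg h)⟩, XO98.loF (TP98.xo h), XO98.upF (TP98.xo h)⟩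

/-- **THE FIELD `ratio` OF `WQ28`**: the old content in `TP98` and `OuT` at the radius `R₂`, the new content in `TP98`. -/
theorem ratT52 (h : In μ s c C n₀) {kw V ρ Q y sgm : ℝ} (hkw : 0 ≤ kw) (hV : 0 ≤ V) (hρ : 0 ≤ ρ) (hQ : 0 ≤ Q) (hy : 0 ≤ y)
    (hs0 : 0 ≤ sgm) (hs1 : sgm ≤ c / 80) : ∃ R₀ : ℝ, ρ + kw + 2 ≤ R₀ ∧ ∀ R₂ : ℝ, R₀ ≤ R₂ → ∃ Cd : ℝ, 0 < Cd ∧ ∃ n₁ : ℕ, 1 ≤ n₁ ∧
      ∀ {Γ : Cx} {G : Gm} {P : Nm98} {R : Nr98} {u : ℕ} {κ : ℤ × ℤ} {E : ℕ → ℝ} {sg : ℝ}, Cm52 μ s c Γ G kw n₁ u →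
        0 ≤ G.rcc u κ → G.re u κ ≤ Γ.N → Fit98 G P u → R.Re = ρ → R.Qe = Q → R.Vs u ≤ V * EE μ s (G.T u) →
        R.sV u ≤ c / 16 * (EE μ s (G.T u) / wd μ s (G.T u)) → R₂ - 1 ≤ R.b u → R.Uw u ≤ y * EE μ s (G.T u) →
        E u = EE μ s (G.T u) → sg ≤ 1 / 16 * EE μ s (G.T u) →
        ∀ ω ∈ TP98 μ s c Γ G P R u κ ∩ OuT μ s Γ G E R₂ (sgm * R₂) sg u κ, ∀ ξ, G.R u κ ξ ω ∈ TP98 μ s c Γ G P R u κ →
          Ro (wt ω) (wt (G.R u κ ξ ω)) Γ.p Γ.N (Bw G u κ) (Real.exp (Cd * EE μ s (G.T u))) ∧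
            Pr Γ (G.ra u κ - 1) (G.re u κ) (Bw G u κ) (Cd * EE μ s (G.T u)) ω (G.R u κ ξ ω) := by
  obtain ⟨R₀, h1, H⟩ := ratE52 h hkw hV hρ hQ hy hs0 hs1
  refine ⟨R₀, h1, fun R₂ hR => ?_⟩
  obtain ⟨Cd, h2, n₁, h3, K⟩ := H R₂ hR
  exact ⟨Cd, h2, n₁, h3, fun {Γ G P R u κ E sg} M h0 hN hF hRe hQe hVs hsV hRb hUw hE hsg ω hω ξ hξ =>
    K M h0 hN hF hRe hQe hVs hsV hRb hUw hE hsg (tp_ey52 hω.1) (XO98.stf (TP98.xo hω.1)) (XO98.stt (TP98.xo hω.1)) hω.2 (tp_ey52 hξ)⟩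

omit [IsProbabilityMeasure μ] in
theorem Pr_mono52 {a e : ℕ} {B : Set (ℕ × ℤ)} {d d' : ℝ} {ω ω' : Env} (h : Pr Γ a e B d ω ω') (hd : d ≤ d') : Pr Γ a e B d' ω ω' where
  ha := h.ha
  lt := h.lt
  ge := h.ge
  off := h.off
  up := fun x => (h.up x).trans (mul_le_mul_of_nonneg_right (Real.exp_le_exp.2 hd) (K91P.bw_pos (wt_pos ω) Γ.p_pos _ _ _).le)
  dn := fun x => (h.dn x).trans (mul_le_mul_of_nonneg_right (Real.exp_le_exp.2 hd) (K91P.bw_pos (wt_pos ω') Γ.p_pos _ _ _).le)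

/-- **THE FIELD `ratio`, EVERY CONSTANT BEYOND A THRESHOLD OF THE EARLIER ONES** : `kw, V, Re, Qe, Uw, sgm | R₂ | xF | n₁`. -/
theorem ratC52 (h : In μ s c C n₀) {kw V ρ Q y sgm : ℝ} (hkw : 0 ≤ kw) (hV : 0 ≤ V) (hρ : 0 ≤ ρ) (hQ : 0 ≤ Q) (hy : 0 ≤ y)
    (hs0 : 0 ≤ sgm) (hs1 : sgm ≤ c / 80) : ∃ R₀ : ℝ, ∀ R₂ : ℝ, R₀ ≤ R₂ → ∃ Cd : ℝ, ∀ xF : ℝ, Cd ≤ xF → ∃ n₁ : ℕ, 1 ≤ n₁ ∧
      ∀ {Γ : Cx} {G : Gm} {P : Nm98} {R : Nr98} {u : ℕ} {κ : ℤ × ℤ} {E : ℕ → ℝ} {sg : ℝ}, Cm52 μ s c Γ G kw n₁ u →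
        0 ≤ G.rcc u κ → G.re u κ ≤ Γ.N → Fit98 G P u → R.Re = ρ → R.Qe = Q → R.Vs u ≤ V * EE μ s (G.T u) →
        R.sV u ≤ c / 16 * (EE μ s (G.T u) / wd μ s (G.T u)) → R₂ - 1 ≤ R.b u → R.Uw u ≤ y * EE μ s (G.T u) →
        E u = EE μ s (G.T u) → sg ≤ 1 / 16 * EE μ s (G.T u) →
        ∀ ω ∈ TP98 μ s c Γ G P R u κ ∩ OuT μ s Γ G E R₂ (sgm * R₂) sg u κ, ∀ ξ, G.R u κ ξ ω ∈ TP98 μ s c Γ G P R u κ →
          Pr Γ (G.ra u κ - 1) (G.re u κ) (Bw G u κ) (xF * EE μ s (G.T u)) ω (G.R u κ ξ ω) := by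
  obtain ⟨R₀, -, H⟩ := ratT52 h hkw hV hρ hQ hy hs0 hs1
  refine ⟨R₀, fun R₂ hR => ?_⟩
  obtain ⟨Cd, -, n₁, h3, K⟩ := H R₂ hR
  refine ⟨Cd, fun xF hx => ⟨n₁, h3, fun {Γ G P R u κ E sg} M h0 hN hF hRe hQe hVs hsV hRb hUw hE hsg ω hω ξ hξ => ?_⟩⟩
  exact Pr_mono52 (K M h0 hN hF hRe hQe hVs hsV hRb hUw hE hsg ω hω ξ hξ).2 (mul_le_mul_of_nonneg_right hx (EE_pos _).le)

end

end Pool.Agent.W_7d29a1_C1.Ge52
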