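import Pool.Agent.W_7d29a1_C1.SepE98
import Pool.Agent.W_7d29a1_C1.E2F42
import Pool.Agent.W_7d29a1_C1.GateO58
import Pool.Agent.W_7d29a1_C1.G3x65

/-!
MP_7d29a1_pr, attractor route, [C1] SEP: THE FIELD `gw` OF ONE WINDOW (`GwIn`) OVER THE CONCRETE WINDOW OF SepE98, from `NumT58`.
(helper52; letters of helper58, helper65, helper71, helper97, helper98)

* `sideA52` : the sides, the profile only at the places `|lt v'| ≤ (K₂ + 9) w_n`; `profA52` : the own weights of the gate row (`X87`);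
* `gwB52` : `NumT58` to `GwIn` for a set `TF ⊆ TF58`, the profile WITH the own weights, the third clause closed (`hZ65`);
* `lat_lt52` : the coordinate of the gate block and the one of the window differ by at most `1`;
* **`gwT52`** : `GwIn` of the window: typical set `TP98 ∩ E2`, lucky set `LuA98`, lane block `B98`.
-/

set_option autoImplicit false

namespace Pool.Agent.W_7d29a1_C1.Gt52

open MeasureTheory ProbabilityTheory Finset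
open Pool.Agent.W_7d29a1_F hiding Bw G
open Pool.Agent.W_7d29a1_h4g Pool.Agent.W_7d29a1_H Pool.Agent.W_7d29a1_HS Pool.Agent.W_7d29a1_HL
open Pool.Agent.W_7d29a1_C1
open Pool.Agent.W_7d29a1_C1.K91 (wt wt_pos)
open Pool.Agent.W_7d29a1_C1.K91P (fw bw bw_pos fw_nonneg)
open Pool.Agent.W_7d29a1_C1.U16 (ker ker_nonneg ker_eq_zero lat16 ker_W)
open Pool.Agent.W_7d29a1_C1.H60
open Pool.Agent.W_7d29a1_C1.H75
open Pool.Agent.W_7d29a1_C1.GL18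
open Pool.Agent.W_7d29a1_C1.Gt66
open Pool.Agent.W_7d29a1_C1.G37 (Gm)
open Pool.Agent.W_7d29a1_C1.S71 (gl gl_of_mem gl_of_not_mem Off)
open Pool.Agent.W_7d29a1_C1.F31 (DecO FinO)
open Pool.Agent.W_7d29a1_C1.SD53 (Luk)
open Pool.Agent.W_7d29a1_C1.MC71 (GwIn)
open Pool.Agent.W_7d29a1_C1.PW58
open Pool.Agent.W_7d29a1_C1.D98
open scoped ENNReal

noncomputable section

attribute [local instance 10] Classical.propDecidable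

variable {μ : Measure ℝ} {s c C : ℝ} {n₀ : ℕ}

/-! ### The sides and the own weights -/

section one

variable {k₀ R G : ℝ} {j K1h M K2h : ℕ} {U₀ Q₀ U₁ Q₁ U Q A B Y p₀ ε : ℝ} {n₂ T n m K₁ K₂ : ℕ}

/-- **THE SIDES**, the profile only at `|lt v'| ≤ (K₂ + 9) w_n`. -/
theorem sideA52 [IsProbabilityMeasure μ] (h : In μ s c C n₀)
    (H : NumT58 μ s c k₀ R G j K1h M K2h U₀ Q₀ U₁ Q₁ U Q A B Y p₀ ε n₂ T n m K₁ K₂) {a N : ℕ} {x0 : ℤ} {η : Env} (hN : a + 5 * n ≤ N)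
    (hη : η ∈ TF58 μ s c K1h K2h K₁ K₂ U₀ Q₀ U₁ Q₁ U Q Y n m ((a : ℤ), x0))
    {p : ℕ → ℝ} (hp0 : ∀ k, 0 < p k) {τ : ℝ} (hp : ∀ k, a ≤ k → k < a + 5 * n → p k = Real.exp (s + τ)) {b r : ℝ} {v : ℤ}
    (hprof : ∀ v' : ℤ, |lt μ s x0 (5 * n) v'| ≤ ((K₂ : ℝ) + 9) * wd μ s n →
      bw (wt η) p (a + 5 * n) (N - (a + 5 * n)) v ≤ Real.exp b * bw (wt η) p (a + 5 * n) (N - (a + 5 * n)) v')
    (hr : |τ| * (((K₁ : ℝ) + K₂ + 9) * wd μ s n) ≤ r) (hv : |lt μ s x0 (5 * n) v| ≤ K₁ * wd μ s n) (i : Fin 3) (z : ℤ)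
    (hz : ¬ |lt μ s x0 (rw3 n m i) z| ≤ ((K₂ : ℝ) - 2) * wd μ s n) :
    ker (wt η) p (a + rw3 n m i) (5 * n - rw3 n m i) z v * bw (wt η) p (a + 5 * n) (N - (a + 5 * n)) v ≤
      eN58 μ s c U₁ Q₁ b r n K₁ K₂ * bw (wt η) p (a + rw3 n m i) (N - (a + rw3 n m i)) z := by
  obtain ⟨⟨⟨⟨hLo, hSd⟩, hUp, hUs⟩, hJp, hX⟩, hCo, hUp0⟩ := hη
  have w1 := H.sc.w1
  have w0 : 0 < wd μ s n := by linarith
  have hK12 : (K₁ : ℝ) + 3 ≤ K₂ := by exact_mod_cast H.K12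
  have hK2h : (K₂ : ℝ) ≤ K2h := by exact_mod_cast H.k2h
  have hK10 : (0 : ℝ) ≤ K₁ := Nat.cast_nonneg _
  have hE : EE μ s n ≠ 0 := (EE_pos n).ne'
  obtain ⟨q₁, hq₁⟩ : ∃ q₁ : ℝ, q₁ = b / EE μ s n := ⟨_, rfl⟩
  have hq₁' : q₁ * EE μ s n = b := by rw [hq₁, div_mul_cancel₀ _ hE]
  obtain ⟨q₃, hq₃⟩ : ∃ q₃ : ℝ, q₃ = r / EE μ s n := ⟨_, rfl⟩
  have hq₃' : q₃ * EE μ s n = r := by rw [hq₃, div_mul_cancel₀ _ hE]
  have he₃ : Real.exp ((q₁ + 2 * 1 + q₃ + U₁ + Q₁) * EE μ s n - hc μ s c (2 * n) * (((K₂ : ℝ) - 2 - K₁) * wd μ s n - 1)) =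
      eN58 μ s c U₁ Q₁ b r n K₁ K₂ := by
    unfold eN58
    congr 2
    have e1 : (q₁ + 2 * 1 + q₃ + U₁ + Q₁) * EE μ s n = q₁ * EE μ s n + 2 * EE μ s n + q₃ * EE μ s n + (U₁ + Q₁) * EE μ s n := by ring
    rw [e1, hq₁', hq₃']
  refine side87S h hp0 hp hN H.m2 H.n1 w1 (K₁ := K₁) (K₂ := K₂) (K := (K2h : ℝ) + 10) (q := 1) (q₁ := q₁) (q₃ := q₃) hK10 (by linarith)
    (by linarith) hSd hUs hX hv (fun σ hσ => ?_) (by rw [hq₃']; exact hr) he₃.le i z hz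
  rw [hq₁']
  refine hprof _ ?_
  have f1 := ft_lat (μ := μ) (s := s) ((a : ℤ), x0) n (5 * n) (σ * ((K₂ : ℝ) + 8))
  obtain ⟨v₀, hv₀⟩ : ∃ v₀, v₀ = (ft μ s ((a : ℤ), x0) n (5 * n) (σ * ((K₂ : ℝ) + 8))).2 := ⟨_, rfl⟩
  have ef : ft μ s ((a : ℤ), x0) n (5 * n) (σ * ((K₂ : ℝ) + 8)) = (((a + 5 * n : ℕ) : ℤ), v₀) := by
    rw [hv₀, Nat.cast_add]
    rfl
  rw [ef, lat_lt] at f1
  rw [← hv₀]
  have hσ1 : |σ| = 1 := by rcases hσ with rfl | rfl <;> simp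
  have f2 : |σ * ((K₂ : ℝ) + 8) * wd μ s n| = ((K₂ : ℝ) + 8) * wd μ s n := by
    rw [abs_mul, abs_mul, hσ1, one_mul, abs_of_nonneg (show (0 : ℝ) ≤ (K₂ : ℝ) + 8 by linarith), abs_of_pos w0]
  have f3 := abs_le.1 f2.le
  rw [abs_le]
  constructor <;> linarith [f1.1, f1.2, f3.1, f3.2]

/-- The own weights of the row `a + 5 n`. -/
theorem wt_le52 {K q : ℝ} {a : ℕ} {x0 : ℤ} {η : Env} (hn : 1 ≤ n) (hX : η ∈ X87 μ s K n ((a : ℤ), x0) (5 * n) q) {x : ℤ}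
    (hx : |lt μ s x0 (5 * n) x| ≤ K * wd μ s n) :
    Real.exp (-(q * EE μ s n)) ≤ wt η (a + 5 * n) x ∧ wt η (a + 5 * n) x ≤ Real.exp (q * EE μ s n) := by
  have hwt : wt η (a + 5 * n) x = Real.exp (η ((a : ℤ) + ((5 * n : ℕ) : ℤ), x)) := by
    unfold wt
    rw [if_neg (by omega)]
    push_cast
    rfl
  have h1 : |η ((a : ℤ) + ((5 * n : ℕ) : ℤ), x)| ≤ q * EE μ s n := by
    refine hX x ?_
    have h2 := lat_lt (μ := μ) (s := s) a x0 (5 * n) x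
    rw [Nat.cast_add] at h2
    show |lat16 μ s ((a : ℤ), x0) ((a : ℤ) + ((5 * n : ℕ) : ℤ), x)| ≤ _
    rw [h2]
    exact hx
  rw [hwt]
  rw [abs_le] at h1
  exact ⟨Real.exp_le_exp.2 h1.1, Real.exp_le_exp.2 h1.2⟩

/-- **THE PROFILE WITHOUT THE OWN WEIGHTS**: `exp (X + 2 q E_n)`. -/
theorem profA52 {K q : ℝ} {a N : ℕ} {x0 : ℤ} {η : Env} {p : ℕ → ℝ} (hp0 : ∀ k, 0 < p k) (hn : 1 ≤ n)
    (hX : η ∈ X87 μ s K n ((a : ℤ), x0) (5 * n) q) {v v' : ℤ} (hv : |lt μ s x0 (5 * n) v| ≤ K * wd μ s n)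
    (hv' : |lt μ s x0 (5 * n) v'| ≤ K * wd μ s n) {X : ℝ}
    (hB : bw (wt η) p (a + 5 * n) (N - (a + 5 * n)) v * wt η (a + 5 * n) v' ≤
      Real.exp X * (bw (wt η) p (a + 5 * n) (N - (a + 5 * n)) v' * wt η (a + 5 * n) v)) :
    bw (wt η) p (a + 5 * n) (N - (a + 5 * n)) v ≤
      Real.exp (X + 2 * (q * EE μ s n)) * bw (wt η) p (a + 5 * n) (N - (a + 5 * n)) v' := by
  have b0 : ∀ x, 0 < bw (wt η) p (a + 5 * n) (N - (a + 5 * n)) x := fun x => bw_pos (fun k y => wt_pos η k y) hp0 _ _ x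
  have h1 := (wt_le52 hn hX hv).2
  have h2 := (wt_le52 hn hX hv').1
  have h3 := mul_le_mul_of_nonneg_left h2 (b0 v).le
  have h4 := mul_le_mul_of_nonneg_left (mul_le_mul_of_nonneg_left h1 (b0 v').le) (Real.exp_pos X).le
  have h5 := (h3.trans hB).trans h4
  have h6 := mul_le_mul_of_nonneg_right h5 (Real.exp_pos (q * EE μ s n)).le
  have e1 : bw (wt η) p (a + 5 * n) (N - (a + 5 * n)) v * Real.exp (-(q * EE μ s n)) * Real.exp (q * EE μ s n) =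
      bw (wt η) p (a + 5 * n) (N - (a + 5 * n)) v := by
    rw [mul_assoc, ← Real.exp_add, neg_add_cancel, Real.exp_zero, mul_one]
  have e2 : Real.exp X * (bw (wt η) p (a + 5 * n) (N - (a + 5 * n)) v' * Real.exp (q * EE μ s n)) * Real.exp (q * EE μ s n) =
      Real.exp (X + 2 * (q * EE μ s n)) * bw (wt η) p (a + 5 * n) (N - (a + 5 * n)) v' := by
    have e3 : X + 2 * (q * EE μ s n) = X + q * EE μ s n + q * EE μ s n := by ring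
    rw [e3, Real.exp_add, Real.exp_add]
    ring
  rw [e1, e2] at h6
  exact h6

/-- The exponent of the third clause. -/
def yN52 (μ : Measure ℝ) (s U₀ Q₀ X r : ℝ) (n : ℕ) : ℝ :=
  X + 2 * (1 * EE μ s n) + 2 * (1 * EE μ s n) + r + (U₀ + Q₀) * EE μ s n

/-- **ONE WINDOW FROM THE NUMBERS**, the profile with the own weights. -/
theorem gwB52 [IsProbabilityMeasure μ] (h : In μ s c C n₀)
    (H : NumT58 μ s c k₀ R G j K1h M K2h U₀ Q₀ U₁ Q₁ U Q A B Y p₀ ε n₂ T n m K₁ K₂) (hU : 0 ≤ U) (hp₀ : 0 < p₀)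
    {Γ : Cx} {Bw B₂ : Set Pt} {a b' : ℕ} {x0 z₀ : ℤ} {TF L : Set Env} {Lk : Env → Set Env} {Mi Mo : Set ℤ}
    {gA Gl Yl : ℝ} {c₁ : ℝ≥0∞} (hN : a + 5 * n ≤ Γ.N)
    (Sw_sub : Sw μ s K₁ K₂ n m ((a : ℤ), x0) ⊆ Bw) (B₂_sub : B₂ ⊆ Bw) (B₂_rows : ∀ x ∈ B₂, ((a + 5 * n : ℕ) : ℤ) < x.1)
    {τ : ℝ} (hp : ∀ k, a ≤ k → k < a + 5 * n → Γ.p k = Real.exp (s + τ))
    (TF_sub : TF ⊆ TF58 μ s c K1h K2h K₁ K₂ U₀ Q₀ U₁ Q₁ U Q Y n m ((a : ℤ), x0))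
    (mTF : MeasurableSet TF) (dTF : DecO (Sw μ s K₁ K₂ n m ((a : ℤ), x0))ᶜ TF)
    (mL : MeasurableSet L) (mLk : ∀ ω, MeasurableSet (Lk ω)) (pLk : ∀ ω ∈ TF, c₁ ≤ law μ (Lk ω))
    (toL : ∀ ω ∈ TF, ∀ η ∈ Lk ω, gl B₂ η ω ∈ L)
    (luk : ∀ ω ∈ TF, ∀ η ∈ Lk ω, Luk Γ (a + 5 * n) b' Mi Mo Set.univ gA Gl Yl ω (gl B₂ η ω))
    (Mo_core : ∀ v ∈ Mo, |lt μ s x0 (5 * n) v| ≤ K₁ * wd μ s n) (z_Mi : z₀ ∈ Mi) (z_Mo : z₀ ∈ Mo)
    {X r : ℝ} (hprof : ∀ ω ∈ TF, ∀ v v' : ℤ, |lt μ s x0 (5 * n) v| ≤ K₁ * wd μ s n →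
      |lt μ s x0 (5 * n) v'| ≤ ((K₂ : ℝ) + 9) * wd μ s n →
      bw (wt ω) Γ.p (a + 5 * n) (Γ.N - (a + 5 * n)) v * wt ω (a + 5 * n) v' ≤
        Real.exp X * (bw (wt ω) Γ.p (a + 5 * n) (Γ.N - (a + 5 * n)) v' * wt ω (a + 5 * n) v))
    (hr : |τ| * (((K₁ : ℝ) + K₂ + 9) * wd μ s n) ≤ r)
    (hb : 2 * X + 8 * EE μ s n + 2 * r + (U₀ + Q₀) * EE μ s n ≤ G * EE μ s T) :
    GwIn μ s c Γ Bw B₂ K₁ K₂ n m a b' x0 z₀ (fun (π π' : Pa (5 * n)) => DT58 μ s (Sw μ s K₁ K₂ n m ((a : ℤ), x0)) (Ex66 a π π') ((a : ℤ), x0) M m A B)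
      TF L Lk Mi Mo (K2h + 3) Q U Y A
      (eN58 μ s c U₁ Q₁ (X + 2 * (1 * EE μ s n)) r n K₁ K₂) (Real.exp (yN52 μ s U₀ Q₀ X r n)) p₀ gA Gl Yl c₁ := by
  have hK12 : (K₁ : ℝ) + 3 ≤ K₂ := by exact_mod_cast H.K12
  have hK2h : (K₂ : ℝ) ≤ K2h := by exact_mod_cast H.k2h
  have hK1h : (K₁ : ℝ) ≤ K1h := by exact_mod_cast H.k1h
  have hK10 : (0 : ℝ) ≤ K₁ := Nat.cast_nonneg _
  have w1 := H.sc.w1
  have w0 : 0 < wd μ s n := by linarith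
  have hr' : |τ| * (2 * ((K₁ : ℝ) * wd μ s n)) ≤ r := by
    refine le_trans (mul_le_mul_of_nonneg_left ?_ (abs_nonneg _)) hr
    nlinarith
  have prA : ∀ ω ∈ TF, ∀ v v' : ℤ, |lt μ s x0 (5 * n) v| ≤ K₁ * wd μ s n → |lt μ s x0 (5 * n) v'| ≤ ((K₂ : ℝ) + 9) * wd μ s n →
      bw (wt ω) Γ.p (a + 5 * n) (Γ.N - (a + 5 * n)) v ≤
        Real.exp (X + 2 * (1 * EE μ s n)) * bw (wt ω) Γ.p (a + 5 * n) (Γ.N - (a + 5 * n)) v' := by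
    intro ω hω v v' hv hv'
    refine profA52 Γ.p_pos H.n1 (TF_sub hω).1.2.2 (hv.trans ?_) (hv'.trans ?_) (hprof ω hω v v' hv hv')
    · exact mul_le_mul_of_nonneg_right (by linarith) w0.le
    · exact mul_le_mul_of_nonneg_right (by linarith) w0.le
  exact
    { n1 := H.n1
      m1 := H.m1
      m2 := H.m2
      w1 := H.sc.w1
      U0 := hU
      K12 := by linarith
      K2K := by linarith
      hN := hN
      p₀_pos := hp₀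
      e0 := (Real.exp_pos _).le
      G0 := (Real.exp_pos _).le
      heG := by
        refine heGN58 H ?_
        unfold yN52
        linarith
      hep := H.hep
      Sw_sub := Sw_sub
      B₂_sub := B₂_sub
      B₂_rows := B₂_rows
      slope := ⟨τ, hp⟩
      walls := H.walls a x0
      cS := fun π π' η hη i r x h1 h2 h3 => H.wallD a x0 π π' η hη i r x h1 h2 h3
      mTF := mTF
      dTF := dTF
      lo := fun ω hω => (TF_sub hω).1.1.1.1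
      up := fun ω hω => (TF_sub hω).1.1.2.1
      jp := fun ω hω => (TF_sub hω).1.2.1
      mL := mL
      mLk := mLk
      pLk := pLk
      toL := toL
      side := fun ω hω v hv i y hy => sideA52 h H hN (TF_sub hω) Γ.p_pos hp (fun v' hv' => prA ω hω v v' hv hv') hr hv i y hy
      hZ := by
        intro ω hω v hv k q hk
        refine hZ65 H.n1 Γ.p_pos (fun k h1 h2 => hp k (by omega) h2) hk (Kc := K1h) (Ku := (K1h : ℝ) + 1) (Kx := (K2h : ℝ) + 10)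
          w0.le hK1h (by linarith) (by linarith) (TF_sub hω).2.1 (TF_sub hω).2.2 (TF_sub hω).1.2.2 hv (fun x hx => ?_) hr'
        exact prA ω hω x v hx (hv.trans (mul_le_mul_of_nonneg_right (by linarith) w0.le))
      luk := luk
      Mo_core := Mo_core
      z_Mi := z_Mi
      z_Mo := z_Mo }

end one

/-! ### The concrete window -/

section win

variable {Γ : Cx} {G : Gm} {P : Nm98} {Rn : Nr98} {u : ℕ} {κ : ℤ × ℤ}

/-- **One slope on the gate block.** -/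
theorem slope52 (hs : Γ.s = s) (hF : Fit98 G P u) (hN : NoSw98 Γ G u κ) :
    ∃ τ : ℝ, |τ| ≤ |Γ.h| ∧ ∀ k, ag98 Γ G P u κ ≤ k → k < ag98 Γ G P u κ + 5 * P.n u → Γ.p k = Real.exp (s + τ) := by
  have h1 := rl_T98 (Γ := Γ) (κ := κ) hF
  rw [rl_eq98] at h1
  rcases noM98 hN with h2 | h2
  · refine ⟨0, by rw [abs_zero]; exact abs_nonneg _, fun k h3 _ => ?_⟩
    rw [ag_eq98] at h3
    unfold Cx.p
    rw [if_neg (by omega), add_zero, hs]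
  · refine ⟨Γ.h, le_rfl, fun k _ h3 => ?_⟩
    unfold Cx.p
    rw [if_pos (by omega), hs]

/-- The coordinate of the gate block and the one of the window. -/
theorem lat_lt52 (hv : G.v = sl μ s) (x : ℤ) :
    |lt μ s (co98 G u κ (ag98 Γ G P u κ)) (5 * P.n u) x - (G.lat (rl98 Γ G P u κ, x) - G.ctr u κ)| ≤ 1 := by
  have h1 := Int.floor_le (G.ctr u κ + G.v * ((ag98 Γ G P u κ : ℕ) : ℝ))
  have h2 := Int.lt_floor_add_one (G.ctr u κ + G.v * ((ag98 Γ G P u κ : ℕ) : ℝ))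
  have e : lt μ s (co98 G u κ (ag98 Γ G P u κ)) (5 * P.n u) x - (G.lat (rl98 Γ G P u κ, x) - G.ctr u κ) =
      G.ctr u κ + G.v * ((ag98 Γ G P u κ : ℕ) : ℝ) - (⌊G.ctr u κ + G.v * ((ag98 Γ G P u κ : ℕ) : ℝ)⌋ : ℤ) := by
    unfold lt co98 Gm.lat rl98
    rw [← hv]
    push_cast
    ring
  rw [e, abs_le]
  constructor <;> linarith

/-- **THE FIELD `gw`.** -/
theorem gwT52 [IsProbabilityMeasure μ] (h : In μ s c C n₀) {kc R G₀ : ℝ} {j M : ℕ} {A B p₀ ε : ℝ} {n₂ : ℕ}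
    (H : NumT58 μ s c kc R G₀ j P.K1h M P.K2h P.Uc P.Qc P.U1 P.Q1 P.U P.Q A B P.Y p₀ ε n₂ (G.T u) (P.n u) (P.m u) (P.K1 u) (P.K2 u))
    (hU : 0 ≤ P.U) (hUQ : 0 ≤ P.Uc + P.Qc) (hp₀ : 0 < p₀) {τ0 : ℕ} (hO : Ok98 G P Rn τ0) (hu : τ0 < u)
    (hs : Γ.s = s) (hv : G.v = sl μ s) (h0 : 0 ≤ G.rcc u κ) (hw : G.w u = wd μ s (G.T u)) (hreN : G.re u κ ≤ Γ.N) (hkw : R ≤ G.kw)
    (hN : NoSw98 Γ G u κ) {kap : ℝ} (hkap : |Γ.h| * wd μ s (G.T u) ≤ kap * EE μ s (G.T u))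
    {E2 : Set Env} (mE : MeasurableSet E2) (dE : DecO (Sg98 μ s Γ G P u κ)ᶜ E2)
    {b' : ℕ} {z₀ : ℤ} {Mi Mo : Set ℤ} {gA Gl Yl : ℝ}
    (luk : ∀ ω ∈ TP98 μ s c Γ G P Rn u κ ∩ E2, ∀ η ∈ Lc98 μ s c Γ G P (KL98 μ s Γ G P Rn) u κ ω,
      Luk Γ (ag98 Γ G P u κ + 5 * P.n u) b' Mi Mo Set.univ gA Gl Yl ω (gl (B98 Γ G P u κ) η ω))
    (Mo_core : ∀ v ∈ Mo, |lt μ s (co98 G u κ (ag98 Γ G P u κ)) (5 * P.n u) v| ≤ P.K1 u * wd μ s (P.n u)) (z_Mi : z₀ ∈ Mi) (z_Mo : z₀ ∈ Mo)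
    {X x : ℝ} (hprof : ∀ ω ∈ TP98 μ s c Γ G P Rn u κ ∩ E2, ∀ v v' : ℤ,
      |lt μ s (co98 G u κ (ag98 Γ G P u κ)) (5 * P.n u) v| ≤ P.K1 u * wd μ s (P.n u) →
      |lt μ s (co98 G u κ (ag98 Γ G P u κ)) (5 * P.n u) v'| ≤ ((P.K2 u : ℝ) + 9) * wd μ s (P.n u) →
      bw (wt ω) Γ.p (ag98 Γ G P u κ + 5 * P.n u) (Γ.N - (ag98 Γ G P u κ + 5 * P.n u)) v * wt ω (ag98 Γ G P u κ + 5 * P.n u) v' ≤
        Real.exp X * (bw (wt ω) Γ.p (ag98 Γ G P u κ + 5 * P.n u) (Γ.N - (ag98 Γ G P u κ + 5 * P.n u)) v' *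
          wt ω (ag98 Γ G P u κ + 5 * P.n u) v))
    (hX : X ≤ x * EE μ s (G.T u)) (hb : 2 * x + 8 + 2 * (kap * (kc + 1 + R)) + (P.Uc + P.Qc) ≤ G₀) :
    GwIn μ s c Γ (G.win u κ) (B98 Γ G P u κ) (P.K1 u) (P.K2 u) (P.n u) (P.m u) (ag98 Γ G P u κ) b' (co98 G u κ (ag98 Γ G P u κ)) z₀
      (fun (π π' : Pa (5 * P.n u)) => DT58 μ s (Sg98 μ s Γ G P u κ) (Ex66 (ag98 Γ G P u κ) π π') (pt98 G u κ (ag98 Γ G P u κ)) M (P.m u) A B)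
      (TP98 μ s c Γ G P Rn u κ ∩ E2) (LuA98 μ s c Γ G P Rn u κ) (Lc98 μ s c Γ G P (KL98 μ s Γ G P Rn) u κ) Mi Mo (P.K2h + 3) P.Q P.U P.Y A
      (eN58 μ s c P.U1 P.Q1 (X + 2 * (1 * EE μ s (P.n u))) (kap * (kc + 1 + R) * EE μ s (G.T u)) (P.n u) (P.K1 u) (P.K2 u))
      (Real.exp (yN52 μ s P.Uc P.Qc X (kap * (kc + 1 + R) * EE μ s (G.T u)) (P.n u))) p₀ gA Gl Yl (ENNReal.ofReal P.pL) := by
  have hF := hO.fit u hu
  have hn1 := hO.n1 u hu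
  have hm2 := hO.m2 u hu
  have hre := rl_T98 (Γ := Γ) (κ := κ) hF
  have w1 := H.sc.w1
  have wT := H.sc.wnT
  have w0 : 0 < wd μ s (P.n u) := by linarith
  have wT0 : 0 < wd μ s (G.T u) := by linarith
  have leR := H.le_R
  have lek := H.le_kc
  have E0 : 0 < EE μ s (G.T u) := EE_pos _
  have EnT := H.sc.EnT
  obtain ⟨τ, hτ, hp⟩ := slope52 (P := P) (κ := κ) hs hF hN
  refine gwB52 h H hU hp₀ (by rw [rl_eq98] at hre; omega) ?_ B98_sub (fun y hy => hy.2.1) hp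
    (fun ω hω => TP98.gt hω.1) (meas_TP98.inter mE) (DecO.inter (dec_TP98 hO hu) dE) meas_LuA98 (fun ω => meas_Lc98 meas_KL98 ω)
    (fun ω hω => pLk_TP98 hω.1) (fun ω hω η hη => toL_TP98 hO hu hω.1 hη) luk Mo_core z_Mi z_Mo hprof ?_ ?_
  · refine sg_win42 hv h0 hF hm2 ?_
    have h1 : R * wd μ s (G.T u) ≤ G.kw * wd μ s (G.T u) := mul_le_mul_of_nonneg_right hkw wT0.le
    rw [hw]
    linarith
  · have h1 : ((P.K1 u : ℝ) + P.K2 u + 9) * wd μ s (P.n u) ≤ (kc + 1 + R) * wd μ s (G.T u) := by linarith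
    have h2 : 0 ≤ (kc + 1 + R) * wd μ s (G.T u) := le_trans (by positivity) h1
    have h3 : 0 ≤ kc + 1 + R := by
      by_contra hcon
      have := mul_neg_of_neg_of_pos (not_le.1 hcon) wT0
      linarith
    calc |τ| * (((P.K1 u : ℝ) + P.K2 u + 9) * wd μ s (P.n u)) ≤ |Γ.h| * ((kc + 1 + R) * wd μ s (G.T u)) :=
          mul_le_mul hτ h1 (by positivity) (abs_nonneg _)
      _ = (kc + 1 + R) * (|Γ.h| * wd μ s (G.T u)) := by ring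
      _ ≤ (kc + 1 + R) * (kap * EE μ s (G.T u)) := mul_le_mul_of_nonneg_left hkap h3
      _ = kap * (kc + 1 + R) * EE μ s (G.T u) := by ring
  · have h1 := mul_le_mul_of_nonneg_left EnT hUQ
    have h2 := mul_le_mul_of_nonneg_right hb E0.le
    linarith

end win

end

end Pool.Agent.W_7d29a1_C1.Gt52
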