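import Pool.Agent.W_7d29a1_C1.E2H97
import Pool.Agent.W_7d29a1_C1.GwT52
import Pool.Agent.W_7d29a1_C1.GwF52
import Pool.Agent.W_7d29a1_C1.WrO57

/-!
MP_7d29a1_pr, [C1] attractor route, SEP: THE WINDOW WITH `TF = TP98 ∩ OuG97`. (helper97)

`TF97` : `TP98` and the slot `Ou5` of the rows `≥ rl98` (`OuG97`).
* `tfSub97` : `LvA98 ∩ Ou5 ⊆ TF97`; `txSub97` : the same for `TT25`;
* `hprof97` : the profile clause of `gwT52`; **`gwU97`** : `gwT52` at `E2 = OuG97` (profile, measurability, `DecO` discharged);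
* **`ratioU97`** : the field `ratio` of `WQ28` (from `ratC52`) with `T ⊆ LvA98 ∩ Ou5`, `TF = TF97`.
-/

set_option autoImplicit false

namespace Pool.Agent.W_7d29a1_C1.E2H97

open MeasureTheory Finset
open Pool.Agent.W_7d29a1_F hiding Bw G
open Pool.Agent.W_7d29a1_h4g Pool.Agent.W_7d29a1_HS
open Pool.Agent.W_7d29a1_H hiding ex gg
open Pool.Agent.W_7d29a1_C1.K91 (wt wt_pos)
open Pool.Agent.W_7d29a1_C1.K91P (bw bw_pos bw_zero)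
open Pool.Agent.W_7d29a1_C1.U16 (lat16)
open Pool.Agent.W_7d29a1_C1.H60
open Pool.Agent.W_7d29a1_C1.G37 (Gm)
open Pool.Agent.W_7d29a1_C1.GL18
open Pool.Agent.W_7d29a1_C1.Gt66
open Pool.Agent.W_7d29a1_C1.S71 (Off gl)
open Pool.Agent.W_7d29a1_C1.F31 (DecO)
open Pool.Agent.W_7d29a1_C1.PW58
open Pool.Agent.W_7d29a1_C1.SD53 (Luk)
open Pool.Agent.W_7d29a1_C1.MC71 (GwIn)
open Pool.Agent.W_7d29a1_C1.Ou37 (OuT)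
open Pool.Agent.W_7d29a1_C1.D98
open Pool.Agent.W_7d29a1_C1.Gt52 (gwT52 yN52)
open Pool.Agent.W_7d29a1_C1.Ge52 (Cm52 ratC52)
open Pool.Agent.W_7d29a1_C1.WO57 (Ou5)

noncomputable section

attribute [local instance 10] Classical.propDecidable

variable {μ : Measure ℝ} {s c C : ℝ} {n₀ : ℕ} {Γ : Cx} {G : Gm} {P : Nm98} {Rn : Nr98} {u : ℕ} {κ : ℤ × ℤ}

/-- **`TF`**: `TP98` and the slot `Ou` of the rows `≥ rl98`. -/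
def TF97 (μ : Measure ℝ) (s c : ℝ) (Γ : Cx) (G : Gm) (P : Nm98) (Rn : Nr98) (E : ℕ → ℝ)
    (rc Qc Q4c sgc r0 Qr Q4r sgr R0 x0 R2 x2 R1 x1 sg : ℝ) (u : ℕ) (κ : ℤ × ℤ) : Set Env :=
  TP98 μ s c Γ G P Rn u κ ∩ OuG97 μ s Γ G E rc Qc Q4c sgc r0 Qr Q4r sgr R0 x0 R2 x2 R1 x1 sg (rl98 Γ G P u κ) u κ

section tf

variable {E : ℕ → ℝ} {rc Qc Q4c sgc r0 Qr Q4r sgr R0 x0 R2 x2 R1 x1 sg : ℝ}

/-- **The typical set is contained in `TF97`.** -/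
theorem tfSub97 : LvA98 μ s c Γ G P Rn u κ ∩ Ou5 μ s rc Qc Q4c sgc r0 Qr Q4r sgr R0 x0 R2 x2 R1 x1 Γ G E sg u κ ⊆
    TF97 μ s c Γ G P Rn E rc Qc Q4c sgc r0 Qr Q4r sgr R0 x0 R2 x2 R1 x1 sg u κ := fun _ h =>
  tf97_sub h.1 h.2.1 h.2.2.1 h.2.2.2.1 h.2.2.2.2.1 h.2.2.2.2.2

/-- The same for the typical set of `In25`. -/
theorem txSub97 {St Fw : ℝ → ℕ → ℤ × ℤ → Set Env} {smax : ℕ → ℝ} :
    SF98.Tx (P25.TT25 (LvA98 μ s c Γ G P Rn) (Ou5 μ s rc Qc Q4c sgc r0 Qr Q4r sgr R0 x0 R2 x2 R1 x1 Γ G E) St Fw) smax u κ ⊆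
      TF97 μ s c Γ G P Rn E rc Qc Q4c sgc r0 Qr Q4r sgr R0 x0 R2 x2 R1 x1 (smax u) u κ := fun _ h => tfSub97 ⟨h.1, h.2.1⟩

theorem meas_TF97 [IsProbabilityMeasure μ] : MeasurableSet (TF97 μ s c Γ G P Rn E rc Qc Q4c sgc r0 Qr Q4r sgr R0 x0 R2 x2 R1 x1 sg u κ) :=
  tf97_meas

theorem dec_TF97 [IsProbabilityMeasure μ] {τ0 : ℕ} (H : Ok98 G P Rn τ0) (hu : τ0 < u) (hN : G.re u κ ≤ Γ.N) :
    DecO (Sg98 μ s Γ G P u κ)ᶜ (TF97 μ s c Γ G P Rn E rc Qc Q4c sgc r0 Qr Q4r sgr R0 x0 R2 x2 R1 x1 sg u κ) := tf97_dec H hu hN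

end tf

/-- **THE PROFILE CLAUSE OF `gwT52`.** -/
theorem hprof97 {R0 X : ℝ} (hv : G.v = sl μ s) (hF : Fit98 G P u) (hw0 : 0 ≤ wd μ s (P.n u)) (hK : P.K1 u ≤ P.K2 u)
    (hR : ((P.K2 u : ℝ) + 9) * wd μ s (P.n u) + 1 ≤ R0 * G.w u) {ω : Env} (h : ω ∈ OuTl μ s Γ G R0 X (rl98 Γ G P u κ) u κ) (v v' : ℤ)
    (h1 : |lt μ s (co98 G u κ (ag98 Γ G P u κ)) (5 * P.n u) v| ≤ P.K1 u * wd μ s (P.n u))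
    (h2 : |lt μ s (co98 G u κ (ag98 Γ G P u κ)) (5 * P.n u) v'| ≤ ((P.K2 u : ℝ) + 9) * wd μ s (P.n u)) :
    bw (wt ω) Γ.p (ag98 Γ G P u κ + 5 * P.n u) (Γ.N - (ag98 Γ G P u κ + 5 * P.n u)) v * wt ω (ag98 Γ G P u κ + 5 * P.n u) v' ≤
      Real.exp X * (bw (wt ω) Γ.p (ag98 Γ G P u κ + 5 * P.n u) (Γ.N - (ag98 Γ G P u κ + 5 * P.n u)) v' *
        wt ω (ag98 Γ G P u κ + 5 * P.n u) v) := by
  have k1 : (P.K1 u : ℝ) ≤ P.K2 u := by exact_mod_cast hK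
  have g1 : (P.K1 u : ℝ) * wd μ s (P.n u) ≤ ((P.K2 u : ℝ) + 9) * wd μ s (P.n u) := mul_le_mul_of_nonneg_right (by linarith) hw0
  have r1 := rl_T98 (Γ := Γ) (κ := κ) hF
  have r2 := le_ag98 (Γ := Γ) (G := G) (P := P) (u := u) (κ := κ)
  rw [rl_eq98] at r1
  exact profL97 (rl := rl98 Γ G P u κ) hv (le_of_eq rl_eq98) (by omega) (by omega) h v v'
    (by
      have h3 : |lt μ s ⌊G.ctr u κ + G.v * (ag98 Γ G P u κ : ℝ)⌋ (5 * P.n u) v| ≤ P.K1 u * wd μ s (P.n u) := h1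
      linarith)
    (by
      have h3 : |lt μ s ⌊G.ctr u κ + G.v * (ag98 Γ G P u κ : ℝ)⌋ (5 * P.n u) v'| ≤ ((P.K2 u : ℝ) + 9) * wd μ s (P.n u) := h2
      linarith)

/-- **THE WINDOW WITH `TF = TF97`**: `gwT52` at `E2 = OuG97`; `X = x0 E + sg`, rate `x0 + 1 / 16`. -/
theorem gwU97 [IsProbabilityMeasure μ] (h : In μ s c C n₀) {kc R G₀ : ℝ} {j M : ℕ} {A B p₀ ε : ℝ} {n₂ : ℕ}
    (H : NumT58 μ s c kc R G₀ j P.K1h M P.K2h P.Uc P.Qc P.U1 P.Q1 P.U P.Q A B P.Y p₀ ε n₂ (G.T u) (P.n u) (P.m u) (P.K1 u) (P.K2 u))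
    (hU : 0 ≤ P.U) (hUQ : 0 ≤ P.Uc + P.Qc) (hp₀ : 0 < p₀) {τ0 : ℕ} (hO : Ok98 G P Rn τ0) (hu : τ0 < u)
    (hs : Γ.s = s) (hv : G.v = sl μ s) (h0 : 0 ≤ G.rcc u κ) (hw : G.w u = wd μ s (G.T u)) (hreN : G.re u κ ≤ Γ.N) (hkw : R ≤ G.kw)
    (hN : NoSw98 Γ G u κ) {kap : ℝ} (hkap : |Γ.h| * wd μ s (G.T u) ≤ kap * EE μ s (G.T u))
    {E : ℕ → ℝ} {rc Qc Q4c sgc r0 Qr Q4r sgr R0 x0 R2 x2 R1 x1 sg : ℝ} (hE : E u = EE μ s (G.T u))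
    (hsg : sg ≤ 1 / 16 * EE μ s (G.T u)) (hR0 : R + 1 ≤ R0)
    {b' : ℕ} {z₀ : ℤ} {Mi Mo : Set ℤ} {gA Gl Yl : ℝ}
    (luk : ∀ ω ∈ TF97 μ s c Γ G P Rn E rc Qc Q4c sgc r0 Qr Q4r sgr R0 x0 R2 x2 R1 x1 sg u κ,
      ∀ η ∈ Lc98 μ s c Γ G P (KL98 μ s Γ G P Rn) u κ ω,
      Luk Γ (ag98 Γ G P u κ + 5 * P.n u) b' Mi Mo Set.univ gA Gl Yl ω (gl (B98 Γ G P u κ) η ω))
    (Mo_core : ∀ v ∈ Mo, |lt μ s (co98 G u κ (ag98 Γ G P u κ)) (5 * P.n u) v| ≤ P.K1 u * wd μ s (P.n u)) (z_Mi : z₀ ∈ Mi) (z_Mo : z₀ ∈ Mo)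
    (hb : 2 * (x0 + 1 / 16) + 8 + 2 * (kap * (kc + 1 + R)) + (P.Uc + P.Qc) ≤ G₀) :
    GwIn μ s c Γ (G.win u κ) (B98 Γ G P u κ) (P.K1 u) (P.K2 u) (P.n u) (P.m u) (ag98 Γ G P u κ) b' (co98 G u κ (ag98 Γ G P u κ)) z₀
      (fun (π π' : Pa (5 * P.n u)) => DT58 μ s (Sg98 μ s Γ G P u κ) (Ex66 (ag98 Γ G P u κ) π π') (pt98 G u κ (ag98 Γ G P u κ)) M (P.m u) A B)
      (TF97 μ s c Γ G P Rn E rc Qc Q4c sgc r0 Qr Q4r sgr R0 x0 R2 x2 R1 x1 sg u κ) (LuA98 μ s c Γ G P Rn u κ)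
      (Lc98 μ s c Γ G P (KL98 μ s Γ G P Rn) u κ) Mi Mo (P.K2h + 3) P.Q P.U P.Y A
      (eN58 μ s c P.U1 P.Q1 (x0 * E u + sg + 2 * (1 * EE μ s (P.n u))) (kap * (kc + 1 + R) * EE μ s (G.T u)) (P.n u) (P.K1 u) (P.K2 u))
      (Real.exp (yN52 μ s P.Uc P.Qc (x0 * E u + sg) (kap * (kc + 1 + R) * EE μ s (G.T u)) (P.n u))) p₀ gA Gl Yl (ENNReal.ofReal P.pL) := by
  have hF := hO.fit u hu
  have w1 := H.sc.w1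
  have wT := H.sc.wnT
  have leR := H.le_R
  have hR : ((P.K2 u : ℝ) + 9) * wd μ s (P.n u) + 1 ≤ R0 * G.w u := by
    rw [hw]
    have h1 : (R + 1) * wd μ s (G.T u) ≤ R0 * wd μ s (G.T u) := mul_le_mul_of_nonneg_right hR0 (by linarith)
    nlinarith
  exact gwT52 h H hU hUQ hp₀ hO hu hs hv h0 hw hreN hkw hN hkap meas_OuG97 (MJ42.dec_off42 (offSg97 hO hu hreN)) luk Mo_core z_Mi z_Mo
    (fun ω hω v v' h1 h2 => hprof97 hv hF (by linarith) (by have := H.K12; omega) hR (OuG97.tR0 hω.2) v v' h1 h2)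
    (by rw [hE]; linarith) hb

/-- **THE FIELD `ratio` OF `WQ28`**, thresholds `kw, V, Re, Qe, Uw, sgm | R₂ | xF | n₁` (helper52's `ratC52`). -/
theorem ratioU97 [IsProbabilityMeasure μ] (h : In μ s c C n₀) {kw V ρ Q y sgm : ℝ} (hkw : 0 ≤ kw) (hV : 0 ≤ V) (hρ : 0 ≤ ρ) (hQ : 0 ≤ Q)
    (hy : 0 ≤ y) (hs0 : 0 ≤ sgm) (hs1 : sgm ≤ c / 80) : ∃ R₀ : ℝ, ∀ R₂ : ℝ, R₀ ≤ R₂ → ∃ Cd : ℝ, ∀ xF : ℝ, Cd ≤ xF → ∃ n₁ : ℕ, 1 ≤ n₁ ∧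
      ∀ {Γ : Cx} {G : Gm} {P : Nm98} {Rn : Nr98} {u : ℕ} {κ : ℤ × ℤ} {E : ℕ → ℝ}
        {rc Qc Q4c sgc r0 Qr Q4r sgr R0 x0 R1 x1 sg : ℝ}, Cm52 μ s c Γ G kw n₁ u →
        0 ≤ G.rcc u κ → G.re u κ ≤ Γ.N → Fit98 G P u → Rn.Re = ρ → Rn.Qe = Q → Rn.Vs u ≤ V * EE μ s (G.T u) →
        Rn.sV u ≤ c / 16 * (EE μ s (G.T u) / wd μ s (G.T u)) → R₂ - 1 ≤ Rn.b u → Rn.Uw u ≤ y * EE μ s (G.T u) →
        E u = EE μ s (G.T u) → sg ≤ 1 / 16 * EE μ s (G.T u) →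
        ∀ ω ∈ LvA98 μ s c Γ G P Rn u κ ∩ Ou5 μ s rc Qc Q4c sgc r0 Qr Q4r sgr R0 x0 R₂ (sgm * R₂) R1 x1 Γ G E sg u κ, ∀ ξ,
          G.R u κ ξ ω ∈ TF97 μ s c Γ G P Rn E rc Qc Q4c sgc r0 Qr Q4r sgr R0 x0 R₂ (sgm * R₂) R1 x1 sg u κ →
          O22.Pr Γ (G.ra u κ - 1) (G.re u κ) (O22.Bw G u κ) (xF * EE μ s (G.T u)) ω (G.R u κ ξ ω) := by
  obtain ⟨R₀, H⟩ := ratC52 h hkw hV hρ hQ hy hs0 hs1
  refine ⟨R₀, fun R₂ hR => ?_⟩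
  obtain ⟨Cd, H⟩ := H R₂ hR
  refine ⟨Cd, fun xF hx => ?_⟩
  obtain ⟨n₁, hn₁, H⟩ := H xF hx
  exact ⟨n₁, hn₁, fun {Γ G P Rn u κ E rc Qc Q4c sgc r0 Qr Q4r sgr R0 x0 R1 x1 sg} M h0 hN hF hRe hQe hVs hsV hRb hUw hE hsg ω hω ξ hξ =>
    H M h0 hN hF hRe hQe hVs hsV hRb hUw hE hsg ω ⟨LvA_TP98 hω.1, hω.2.2.2.2.1⟩ ξ hξ.1⟩

end

end Pool.Agent.W_7d29a1_C1.E2H97
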