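import Pool.Agent.W_7d29a1_C1.LocD91
import Pool.Agent.W_7d29a1_C1.Unc31
import Pool.Agent.W_7d29a1_C1.Suc21

/-!
MP_7d29a1_pr, attractor route, the shell (helper10): the balance point on a success (the field `hB` of `pdg9`).

`seam_mass` : a profile `a` concentrated on the cells `β` up to the slope `ph` and a future `G` which is flat on the cells up to `V` and
grows at most like `ph` outside have the total `B0 ∑_β a` up to the factor `V (1 + e1)`. The amplitude `B0` cancels in the balance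
point: `B = log ∑_β b - log ∑_β a` up to `X + 2 log V + 2 log (1 + e1)`, and `a`, `b` are functions of the rows before the seam.
-/

set_option autoImplicit false

namespace Pool.Agent.W_7d29a1_C1.H10

open Finset
open Pool.Agent.W_7d29a1_F
open Pool.Agent.W_7d29a1_C1.K91 (Box Grp wt wt_pos)
open Pool.Agent.W_7d29a1_C1.K91P
open Pool.Agent.W_7d29a1_C1.H60
open Pool.Agent.W_7d29a1_C1.Sh21 (Prf SeamIn)

noncomputable section

/-! ### One profile -/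

theorem seam_mass {S β : Finset ℤ} {a G ph : ℤ → ℝ} {e1 V B0 : ℝ} (hβ : β ⊆ S) (a0 : ∀ x, 0 ≤ a x) (G0 : ∀ x, 0 ≤ G x)
    (V0 : 0 ≤ V) (b0 : 0 ≤ B0) (off : ∑ x ∈ S \ β, a x * ph x ≤ e1 * ∑ x ∈ β, a x) (ph1 : ∀ x ∈ β, ph x ≤ 1)
    (P : Prf S β G ph V B0) :
    (∑ x ∈ β, a x) * B0 ≤ V * ∑ x ∈ S, a x * G x ∧ ∑ x ∈ S, a x * G x ≤ V * (1 + e1) * ((∑ x ∈ β, a x) * B0) := by
  have e0 : ∑ x ∈ S, a x * G x = ∑ x ∈ S \ β, a x * G x + ∑ x ∈ β, a x * G x := (sum_sdiff hβ).symm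
  have h1 : (∑ x ∈ β, a x) * B0 ≤ V * ∑ x ∈ β, a x * G x := by
    rw [sum_mul, mul_sum]
    refine sum_le_sum fun x hx => ?_
    have := mul_le_mul_of_nonneg_left (P.lw x hx) (a0 x)
    linarith
  have h2 : ∑ x ∈ S \ β, a x * G x ≤ V * B0 * ∑ x ∈ S \ β, a x * ph x := by
    rw [mul_sum]
    refine sum_le_sum fun x hx => ?_
    have := mul_le_mul_of_nonneg_left (P.up x (sdiff_subset hx)) (a0 x)
    linarith
  have h3 : ∑ x ∈ β, a x * G x ≤ V * B0 * ∑ x ∈ β, a x := by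
    rw [mul_sum]
    refine sum_le_sum fun x hx => ?_
    have e1 : V * ph x * B0 ≤ V * B0 := by
      have := mul_le_mul_of_nonneg_left (ph1 x hx) (mul_nonneg V0 b0)
      linarith
    have := mul_le_mul_of_nonneg_left ((P.up x (hβ hx)).trans e1) (a0 x)
    linarith
  have h4 := mul_le_mul_of_nonneg_left off (mul_nonneg V0 b0)
  have e2 : V * (1 + e1) * ((∑ x ∈ β, a x) * B0) = V * B0 * ∑ x ∈ β, a x + V * B0 * (e1 * ∑ x ∈ β, a x) := by ring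
  refine ⟨h1.trans (mul_le_mul_of_nonneg_left ?_ V0), ?_⟩
  · exact sum_le_sum_of_subset_of_nonneg hβ fun x _ _ => mul_nonneg (a0 x) (G0 x)
  · rw [e0, e2]
    linarith

/-- In logarithms. -/
theorem log_seam {S β : Finset ℤ} {a G ph : ℤ → ℝ} {e1 V B0 : ℝ} (hβ : β ⊆ S) (a0 : ∀ x, 0 ≤ a x) (G0 : ∀ x, 0 ≤ G x)
    (V1 : 1 ≤ V) (e10 : 0 ≤ e1) (b0 : 0 < B0) (pa : 0 < ∑ x ∈ β, a x)
    (off : ∑ x ∈ S \ β, a x * ph x ≤ e1 * ∑ x ∈ β, a x) (ph1 : ∀ x ∈ β, ph x ≤ 1) (P : Prf S β G ph V B0) :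
    |Real.log (∑ x ∈ S, a x * G x) - (Real.log (∑ x ∈ β, a x) + Real.log B0)| ≤ Real.log V + Real.log (1 + e1) := by
  have V0 : 0 < V := by linarith
  obtain ⟨h1, h2⟩ := seam_mass hβ a0 G0 V0.le b0.le off ph1 P
  have p0 : 0 < (∑ x ∈ β, a x) * B0 := mul_pos pa b0
  have pS : 0 < ∑ x ∈ S, a x * G x := by
    have : 0 < V * ∑ x ∈ S, a x * G x := lt_of_lt_of_le p0 h1
    exact (mul_pos_iff_of_pos_left V0).1 this
  have l1 := Real.log_le_log p0 h1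
  have l2 := Real.log_le_log pS h2
  rw [Real.log_mul pa.ne' b0.ne', Real.log_mul V0.ne' pS.ne'] at l1
  rw [Real.log_mul (by positivity) p0.ne', Real.log_mul V0.ne' (by positivity), Real.log_mul pa.ne' b0.ne'] at l2
  have l3 : 0 ≤ Real.log (1 + e1) := Real.log_nonneg (by linarith)
  rw [abs_le]
  constructor <;> linarith

/-! ### The balance point of a context -/

variable {Γ : Cx}

/-- The total of a group from the profiles at the row `i`, on the columns which can be reached. -/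
theorem tot10 {m : ℤ → ℝ} {η : Env} (h0 : ∀ y, y < 0 → m y = 0) (h1 : ∀ y, Γ.hi - Γ.N < y → m y = 0) {i : ℕ} (hi : i ≤ Γ.N)
    {h : ℤ} (hh : Γ.hi - Γ.N + i ≤ h) (hh2 : h ≤ Γ.hi) :
    ∑ x ∈ Icc 0 h, fw (wt η) Γ.p m i x * bw (wt η) Γ.p i (Γ.N - i) x = ∑ y ∈ Icc 0 Γ.hi, m y * bw (wt η) Γ.p 0 Γ.N y := by
  have e1 := U31.sum_fw_bw (w := wt η) (p := Γ.p) h0 h1 (by unfold Cx.hi; omega) i hi
  rw [← e1]
  refine sum_subset (Icc_subset_Icc le_rfl hh2) fun x hx hx' => ?_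
  rw [mem_Icc] at hx hx'
  rw [fw_hi (B := Γ.hi - Γ.N) h1 i x (by omega), zero_mul]

/-- **The balance point on a success**: `η` may be any content of the inside. -/
structure Bal (Γ : Cx) (η : Env) (i : ℕ) (h : ℤ) (β : Finset ℤ) (ph : ℤ → ℝ) (e1 V B0 : ℝ) : Prop where
  iN : i ≤ Γ.N
  h1 : Γ.hi - Γ.N + i ≤ h
  h2 : h ≤ Γ.hi
  sub : β ⊆ Icc 0 h
  V1 : 1 ≤ V
  e0 : 0 ≤ e1
  b0 : 0 < B0
  ph1 : ∀ x ∈ β, ph x ≤ 1
  pa : 0 < ∑ x ∈ β, fw (wt η) Γ.p Cx.l i x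
  pb : 0 < ∑ x ∈ β, fw (wt η) Γ.p Γ.r i x
  offa : ∑ x ∈ Icc 0 h \ β, fw (wt η) Γ.p Cx.l i x * ph x ≤ e1 * ∑ x ∈ β, fw (wt η) Γ.p Cx.l i x
  offb : ∑ x ∈ Icc 0 h \ β, fw (wt η) Γ.p Γ.r i x * ph x ≤ e1 * ∑ x ∈ β, fw (wt η) Γ.p Γ.r i x
  P : Prf (Icc 0 h) β (bw (wt η) Γ.p i (Γ.N - i)) ph V B0

theorem B_bal (hG : L91.Msk Γ) {η : Env} {X : ℝ}
    (hX : ∀ y ∈ Icc (1 : ℤ) Γ.k, |Real.log (bw (wt η) Γ.p 0 Γ.N (y - 1)) - Real.log (bw (wt η) Γ.p 0 Γ.N y)| ≤ X)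
    {i : ℕ} {h : ℤ} {β : Finset ℤ} {ph : ℤ → ℝ} {e1 V B0 : ℝ} (D : Bal Γ η i h β ph e1 V B0) :
    |Γ.B η - (Real.log (∑ x ∈ β, fw (wt η) Γ.p Γ.r i x) - Real.log (∑ x ∈ β, fw (wt η) Γ.p Cx.l i x))| ≤
      X + 2 * (Real.log V + Real.log (1 + e1)) := by
  have k0 := L91.log_Z0_ZR hG η hX
  have a0 := fw_nonneg (w := wt η) (p := Γ.p) (wt_pos η) L91.p_pos L91.l_nonneg i
  have b0 := fw_nonneg (w := wt η) (p := Γ.p) (wt_pos η) L91.p_pos (L91.r_nonneg hG) i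
  have g0 : ∀ y, 0 ≤ bw (wt η) Γ.p i (Γ.N - i) y := fun y => (bw_pos (wt_pos η) L91.p_pos _ _ _).le
  have ka := log_seam D.sub a0 g0 D.V1 D.e0 D.b0 D.pa D.offa D.ph1 D.P
  have kb := log_seam D.sub b0 g0 D.V1 D.e0 D.b0 D.pb D.offb D.ph1 D.P
  have ta := tot10 (Γ := Γ) (m := Cx.l) (η := η) (fun y hy => if_neg (by omega)) (fun y hy => if_neg (by
    unfold Cx.hi at hy
    omega)) D.iN D.h1 D.h2
  have tb := tot10 (Γ := Γ) (m := Γ.r) (η := η) (fun y hy => if_neg (by omega)) (fun y hy => if_neg (by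
    unfold Cx.hi at hy
    omega)) D.iN D.h1 D.h2
  rw [L91.sum_l] at ta
  have ta' : ∑ x ∈ Icc 0 h, fw (wt η) Γ.p Cx.l i x * bw (wt η) Γ.p i (Γ.N - i) x = Γ.ZM η := ta
  have tb' : ∑ x ∈ Icc 0 h, fw (wt η) Γ.p Γ.r i x * bw (wt η) Γ.p i (Γ.N - i) x = Γ.ZR η := tb
  rw [ta'] at ka
  rw [tb'] at kb
  unfold Cx.B
  rw [abs_le] at k0 ka kb ⊢
  constructor <;> linarith [k0.1, k0.2, ka.1, ka.2, kb.1, kb.2]

/-- **The balance points of two contents of the inside** differ by the logarithms of the constants only. -/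
theorem hB10 (hG : L91.Msk Γ) {η η' : Env} {X X' : ℝ}
    (hX : ∀ y ∈ Icc (1 : ℤ) Γ.k, |Real.log (bw (wt η) Γ.p 0 Γ.N (y - 1)) - Real.log (bw (wt η) Γ.p 0 Γ.N y)| ≤ X)
    (hX' : ∀ y ∈ Icc (1 : ℤ) Γ.k, |Real.log (bw (wt η') Γ.p 0 Γ.N (y - 1)) - Real.log (bw (wt η') Γ.p 0 Γ.N y)| ≤ X')
    {i : ℕ} {h h' : ℤ} {β : Finset ℤ} {ph ph' : ℤ → ℝ} {e1 e1' V V' B0 B0' : ℝ} (D : Bal Γ η i h β ph e1 V B0)
    (D' : Bal Γ η' i h' β ph' e1' V' B0') (heq : ∀ q : Pt, q.1 < i → η q = η' q) :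
    |Γ.B η - Γ.B η'| ≤ (X + 2 * (Real.log V + Real.log (1 + e1))) + (X' + 2 * (Real.log V' + Real.log (1 + e1'))) := by
  have hw : ∀ j, j < i → ∀ y, wt η j y = wt η' j y := fun j hj y => by
    unfold wt
    rw [heq ((j : ℤ), y) (by show ((j : ℕ) : ℤ) < i; exact_mod_cast hj)]
  have ea : ∑ x ∈ β, fw (wt η') Γ.p Cx.l i x = ∑ x ∈ β, fw (wt η) Γ.p Cx.l i x :=
    sum_congr rfl fun x _ => (fw_congr i hw x).symm
  have eb : ∑ x ∈ β, fw (wt η') Γ.p Γ.r i x = ∑ x ∈ β, fw (wt η) Γ.p Γ.r i x :=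
    sum_congr rfl fun x _ => (fw_congr i hw x).symm
  have k := B_bal hG hX D
  have k' := B_bal hG hX' D'
  rw [ea, eb] at k'
  rw [abs_le] at k k' ⊢
  constructor <;> linarith [k.1, k.2, k'.1, k'.2]

/-- **`Bal` from a success** (`SeamIn`, `Sh21.All`, `Sh21.Fut`): `V` becomes `V * L * U * L`. -/
theorem Bal.of21 (hG : L91.Msk Γ) {η : Env} {h : ℤ} {c0 n1 ne nb n3 m : ℕ} {a1 b1 a2 b2 xa xb s da db ya yb za zb : ℤ}
    {ph p1 pe p2 p3 : ℤ → ℝ} {δ e e1 e2 U L L0 V A0 A1 A2 A3 G0 : ℝ}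
    (S : Sh21.All (wt η) Γ.p 0 h c0 n1 ne nb n3 a1 b1 a2 b2 xa xb s da db ya yb za zb ph p1 pe p2 p3 δ e U L L0 A0 A1 A2 A3)
    (F : Sh21.Fut (wt η) Γ.p 0 (h + n1 + ne + nb + n3) (c0 + n1 + ne + nb + n3) m za zb p3 V G0)
    (I : SeamIn 0 h (fw (wt η) Γ.p Cx.l c0) (fw (wt η) Γ.p Γ.r c0) a1 b1 a2 b2 ph e1 e2)
    (hN : c0 + (n1 + ne + (nb + (n3 + m))) = Γ.N) (h1 : Γ.hi - Γ.N + c0 ≤ h) (h2 : h ≤ Γ.hi) (he1 : 0 ≤ e1) :
    Bal Γ η c0 h (F74.cl2 a1 b1 a2 b2) ph e1 (V * L * U * L) (A0 * A1 * (A2 * (A3 * G0))) := by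
  have P := S.chain0 (wt_pos η) L91.p_pos F
  have V1 := F.V1
  have G1 := F.G0p
  have L1 := S.L1
  have U1 := S.U1
  have A0p := S.A0p
  have A1p := S.A1p
  have A2p := S.A2p
  have A3p := S.A3p
  have g1 := S.g.h1
  have g2 := S.g.h2
  have g3 := S.g.h3
  have g7 := S.g.h7
  have g8 := S.g.h8
  have a0 := fw_nonneg (w := wt η) (p := Γ.p) (wt_pos η) L91.p_pos L91.l_nonneg c0
  have b0 := fw_nonneg (w := wt η) (p := Γ.p) (wt_pos η) L91.p_pos (L91.r_nonneg hG) c0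
  have eN : Γ.N - c0 = n1 + ne + (nb + (n3 + m)) := by omega
  have sub : F74.cl2 a1 b1 a2 b2 ⊆ Icc 0 h := fun x hx => by
    unfold F74.cl2 at hx
    rw [mem_union, mem_Icc, mem_Icc] at hx
    rw [mem_Icc]
    omega
  exact
    { iN := by omega
      h1 := h1
      h2 := h2
      sub := sub
      V1 := by
        have k1 : 1 ≤ V * L := one_le_mul_of_one_le_of_one_le V1 L1
        have k2 : 1 ≤ V * L * U := one_le_mul_of_one_le_of_one_le k1 U1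
        exact one_le_mul_of_one_le_of_one_le k2 L1
      e0 := he1
      b0 := by positivity
      ph1 := S.I.ph1
      pa := lt_of_lt_of_le I.p2 (sum_le_sum_of_subset_of_nonneg subset_union_right fun x _ _ => a0 x)
      pb := lt_of_lt_of_le I.p1 (sum_le_sum_of_subset_of_nonneg subset_union_left fun x _ _ => b0 x)
      offa := I.I.offa
      offb := I.I.offb
      P := by rw [eN]; exact P }

end

end Pool.Agent.W_7d29a1_C1.H10
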