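import Pool.Agent.W_7d29a1_C1.SepI98
import Pool.Agent.W_7d29a1_C1.Pos25

/-!
Both halves (MP_7d29a1_pr), [C1] attractor route, SEP: THE INSTANCE FROM THE SETS (helper25)

`In25` : the inputs of the separation in terms of the four families `Lv`, `Ou`, `St`, `Fw` (each: `Stb`, one statement) and of the
lucky events `L`; `stp` and the potential part of the oscillation are proved here. `In25.toI : InI98`; `sep25` = `hsep` of `nuS77`.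
-/

set_option autoImplicit false

namespace Pool.Agent.W_7d29a1_C1.P25

open Finset MeasureTheory
open Pool.Agent.W_7d29a1_F
open Pool.Agent.W_7d29a1_C1.K91 (wt)
open Pool.Agent.W_7d29a1_C1.S71 (Off)
open Pool.Agent.W_7d29a1_C1.H60
open Pool.Agent.W_7d29a1_C1.G37 (Gm)
open Pool.Agent.W_7d29a1_C1.H49 (Par MoveQ ex lm Hf Hs Osc fac rat hM gM cnt Cov)
open Pool.Agent.W_7d29a1_C1.FA25 (Av la rr lr)
open Pool.Agent.W_7d29a1_C1.N49 (Num98)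
open Pool.Agent.W_7d29a1_C1.PS86 (pot86 PN)
open Pool.Agent.W_7d29a1_C1.SF98
open scoped ENNReal

noncomputable section

variable {Γ : Cx} {G : Gm} {mt q τ0 : ℕ} {dR d smax sl b : ℕ → ℝ} {TT : ℝ → ℕ → ℤ × ℤ → Set Env} {L : ℕ → ℤ × ℤ → Set Env}

/-- **The potential part of the oscillation.** -/
theorem oscp25 (S : Stb Γ G mt q τ0 dR d smax TT) (R : RatW Γ G mt τ0 dR smax TT L) (hq : q ≤ G.m2 + 1)
    (hm2 : la G + G.kw + G.kb + 2 ≤ 2 ^ (G.m2 - 1)) {lam m3 : ℕ} (hm3 : 3 ≤ m3) (hsl : Monotone sl) (hsm : ∀ v, sl v ≤ smax v)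
    (hdb : ∀ u, τ0 < u → 2 * d u ≤ b u) {z : ℝ≥0∞} (hz : z ≤ 1) {u j : ℕ} (hu0 : τ0 < u) (hu : u < j) (hj : j ≤ G.M)
    (κ : KS Γ G mt u) {y : XS Γ G mt} (hy : y ∈ G.nb (FS Γ G mt) u κ) {ω : Env} (hω : ω ∈ Tx TT smax u κ.1) {η : Env}
    (hη : G.R u κ.1 η ω ∈ L u κ.1) {σ : ℝ} (hσ : σ + b u ≤ sl (j + G.m2)) :
    pot86 Γ G mt lam m3 TT z (j + G.m2) σ y ω ≤ pot86 Γ G mt lam m3 TT z (j + G.m2) (σ + b u) y (G.R u κ.1 η ω) := by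
  have h1 := hdb u hu0
  refine PS86.pot_of hz fun v ρ hr hv => ?_
  have h2 := slabs25 S R hq hm2 hm3 hu0 (show u + G.m2 < j + G.m2 by omega) (show j + G.m2 ≤ G.M + G.m2 by omega) (mem_loc κ)
    ((G.mem_nb).1 hy) hω hη (sg := σ) (fun v hv => by
      have h3 := hsl hv
      have h4 := hsm v
      linarith) hr hv
  exact S.mono _ _ _ _ (by linarith) h2

variable (Γ G mt) in
/-- **THE INPUTS OF THE SEPARATION.** -/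
structure In25 (μ : Measure ℝ) (lam : ℕ) (Lv : ℕ → ℤ × ℤ → Set Env) (Ou St Fw : ℝ → ℕ → ℤ × ℤ → Set Env)
    (L : ℕ → ℤ × ℤ → Set Env) (d sl smax : ℕ → ℝ) (th be : ℕ → ℕ → ℝ) (b : ℕ → ℝ)
    (st : ℕ → ℕ → ℕ) (κ3 θ : ℝ≥0∞) (τ0 q r q0 m1 m3 n1 C' : ℕ) (c c1 C1 Ast δ3 : ℝ≥0∞) (aS bS : ℝ) (βS dR : ℕ → ℝ) : Prop where
  ok : Γ.Ok
  v0 : 0 ≤ G.v
  v1 : G.v ≤ 1
  MT : G.M ≤ mt
  hm2 : la G + G.kw + G.kb + 2 ≤ 2 ^ (G.m2 - 1)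
  hkb : G.kb ≤ 2 ^ q
  q_ge : 2 ≤ q
  q_le : q ≤ G.m2 + 1
  An_le : G.An ≤ C'
  qr_le : q + r ≤ m1
  -- numbers
  num : Num98 Γ G mt d sl smax th be b st κ3 θ τ0 q n1 c c1 2 Ast δ3
  st_la : ∀ t i, τ0 < t → t + G.m0 ≤ i → i ≤ G.M → st t i + lam ≤ i
  hq0 : 2 * m3 ≤ q0
  κ3_ne : κ3 ≠ 0
  m3_ge : 3 ≤ m3
  R_b : ∀ u, τ0 < u → 4 * dR u ≤ b u
  d_b : ∀ u, τ0 < u → 2 * d u ≤ b u
  sl_smax : ∀ v, sl v ≤ smax v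
  -- sets
  sLv : Stb Γ G mt q τ0 dR d smax fun _ => Lv
  sOu : Stb Γ G mt q τ0 dR d smax Ou
  sSt : Stb Γ G mt q τ0 dR d smax St
  sFw : Stb Γ G mt q τ0 dR d smax Fw
  mL : ∀ u κ, MeasurableSet (L u κ)
  dis : ∀ u κ, Disjoint (Lv u κ) (L u κ)
  -- `St`
  bS_le : bS + 5 / 2 ≤ 2 * G.kn
  aS_ge : ∀ u, τ0 < u → G.w u / 2 + 1 ≤ aS * G.w u
  βS_ge : ∀ u, τ0 < u → Real.exp (-βS u) ≤ 1 / 2
  St_sub : ∀ u, τ0 < u → u < G.M → ∀ κ, St (sl (u - 1)) u κ ⊆ Sy78.St Γ G aS bS (βS u) u κ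
  -- ratio off the window
  ro : RatW Γ G mt τ0 dR smax (TT25 Lv Ou St Fw) L
  -- averaged comparisons
  cmpA : ∀ t i, (p98 Γ G mt th sl be b st κ3 θ).rg τ0 t i → ∀ u ∈ Ico (st t i) i, ∀ y : XS Γ G mt,
    ∀ ω ∈ Tx (TT25 Lv Ou St Fw) smax u (G.loc u y.1),
      c * ∫⁻ ξ, (Tx (TT25 Lv Ou St Fw) smax u (G.loc u y.1)).indicator (wS Γ G mt y) (G.R u (G.loc u y.1) ξ ω) ∂(law μ) ≤
        ∫⁻ η, (L u (G.loc u y.1)).indicator (wS Γ G mt y) (G.R u (G.loc u y.1) η ω) ∂(law μ)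
  M3A : ∀ t i, (p98 Γ G mt th sl be b st κ3 θ).rg τ0 t i → ∀ s ∈ Ico (st t i) i, ∀ κ : KS Γ G mt s,
    ∀ ω ∈ TA (TT25 Lv Ou St Fw) q d sl ∅ s κ.1, ω ∈ Hs (p98 Γ G mt th sl be b st κ3 θ) (wS Γ G mt) (G.cel (FS Γ G mt)) t i s κ →
      ∫⁻ ξ, (TA (TT25 Lv Ou St Fw) q d sl ∅ s κ.1).indicator (rat (pX Γ G th sl be b st κ3 θ) (SD53.w Γ) (G.cel (Γ.rows 0 Γ.N))
        (G.low (Γ.rows 0 Γ.N)) t i s (upK κ)) (G.R s κ.1 ξ ω) ∂(law μ) ≤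
      C1 * ∫⁻ η, (L s κ.1).indicator (fun ω => ∑ ρ ∈ G.nb (Γ.rows 0 Γ.N) s (upK κ), SD53.w Γ ρ ω) (G.R s κ.1 η ω) ∂(law μ)
  -- exclusion
  exclF : ∀ t i, (p98 Γ G mt th sl be b st κ3 θ).rg τ0 t i → ∀ x : XS Γ G mt, ∀ u ∈ Sq q r (st t i) i,
    ∀ ω ∈ Tx (TT25 Lv Ou St Fw) smax u (G.loc u x.1), ∀ η, G.R u (G.loc u x.1) η ω ∈ L u (G.loc u x.1) →
    ∀ ω₁ ∈ Hf (pX Γ G th sl be b st κ3 θ) (SD53.w Γ) (SD53.fa Γ G) t i (up x),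
      Lt87.Reach (fun v => G.R v (G.loc v x.1)) (fun v => Tx (TT25 Lv Ou St Fw) smax v (G.loc v x.1) ∪ L v (G.loc v x.1))
        ((Sq q r (st t i) i).filter fun v => v % q = u % q) u ω ω₁ →
    ∀ ω₂ ∈ Hf (pX Γ G th sl be b st κ3 θ) (SD53.w Γ) (SD53.fa Γ G) t i (up x),
      Lt87.Reach (fun v => G.R v (G.loc v x.1)) (fun v => Tx (TT25 Lv Ou St Fw) smax v (G.loc v x.1) ∪ L v (G.loc v x.1))
        ((Sq q r (st t i) i).filter fun v => v % q = u % q) u (G.R u (G.loc u x.1) η ω) ω₂ → False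
  exclE : ∀ t i, (p98 Γ G mt th sl be b st κ3 θ).rg τ0 t i → ∀ s ∈ Ico (st t i) i, ∀ κ : KS Γ G mt s,
    ∀ ρ ∈ G.nb (FS Γ G mt) s κ, ∀ u ∈ Sq q r s i,
    ∀ ω ∈ Tx (TT25 Lv Ou St Fw) smax u (G.loc u ρ.1), ∀ η, G.R u (G.loc u ρ.1) η ω ∈ L u (G.loc u ρ.1) →
    ∀ ω₁ ∈ Hs (pX Γ G th sl be b st κ3 θ) (SD53.w Γ) (G.cel (Γ.rows 0 Γ.N)) t i s (upK κ) ∩ TA (TT25 Lv Ou St Fw) q d sl ∅ s κ.1,
      Lt87.Reach (Function.update (fun v => G.R v (G.loc v ρ.1)) s (G.R s κ.1))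
        (Function.update (fun v => Tx (TT25 Lv Ou St Fw) smax v (G.loc v ρ.1) ∪ L v (G.loc v ρ.1)) s
          (Tx (TT25 Lv Ou St Fw) smax s κ.1 ∪ L s κ.1))
          (insert s ((Sq q r s i).filter fun v => v % q = u % q)) u ω ω₁ →
    ∀ ω₂ ∈ Hs (pX Γ G th sl be b st κ3 θ) (SD53.w Γ) (G.cel (Γ.rows 0 Γ.N)) t i s (upK κ) ∩ TA (TT25 Lv Ou St Fw) q d sl ∅ s κ.1,
      Lt87.Reach (Function.update (fun v => G.R v (G.loc v ρ.1)) s (G.R s κ.1))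
        (Function.update (fun v => Tx (TT25 Lv Ou St Fw) smax v (G.loc v ρ.1) ∪ L v (G.loc v ρ.1)) s
          (Tx (TT25 Lv Ou St Fw) smax s κ.1 ∪ L s κ.1))
          (insert s ((Sq q r s i).filter fun v => v % q = u % q)) u (G.R u (G.loc u ρ.1) η ω) ω₂ → False

variable {μ : Measure ℝ} {lam : ℕ} {Lv : ℕ → ℤ × ℤ → Set Env} {Ou St Fw : ℝ → ℕ → ℤ × ℤ → Set Env}
  {th be : ℕ → ℕ → ℝ} {st : ℕ → ℕ → ℕ} {κ3 θ : ℝ≥0∞} {r q0 m1 m3 n1 C' : ℕ}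
  {c c1 C1 Ast δ3 : ℝ≥0∞} {aS bS : ℝ} {βS : ℕ → ℝ}

/-- **THE INSTANCE.** -/
theorem In25.toI (h : In25 Γ G mt μ lam Lv Ou St Fw L d sl smax th be b st κ3 θ τ0 q r q0 m1 m3 n1 C' c c1 C1 Ast δ3 aS bS βS dR) :
    InI98 Γ G mt μ lam Lv Ou St Fw L d sl smax th be b st κ3 θ τ0 q r q0 m1 m3 n1 C' c c1 C1 Ast δ3 aS bS βS dR := by
  have S := Stb.tt h.sLv h.sOu h.sSt h.sFw
  have pn := pn98 (lam := lam) h.num h.st_la h.hq0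
  exact
  { ok := h.ok
    v0 := h.v0
    v1 := h.v1
    MT := h.MT
    hm2 := h.hm2
    An_le := h.An_le
    qr_le := h.qr_le
    num := h.num
    st_la := h.st_la
    hq0 := h.hq0
    κ3_ne := h.κ3_ne
    m3_ge := h.m3_ge
    d_b := h.R_b
    ms := ⟨fun u κ => h.sLv.meas 0 u κ, h.sOu.meas, h.sSt.meas, h.sFw.meas⟩
    moO := fun sg sg' hs u κ => h.sOu.mono sg sg' u κ hs
    moS := fun sg sg' hs u κ => h.sSt.mono sg sg' u κ hs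
    moF := fun sg sg' hs u κ => h.sFw.mono sg sg' u κ hs
    mL := h.mL
    dis := h.dis
    bS_le := h.bS_le
    aS_ge := h.aS_ge
    βS_ge := h.βS_ge
    St_sub := h.St_sub
    ro := fun u hu hM κ ω hω η hη => h.ro u κ.1 hu hM (mem_loc κ) ω hω η hη
    stp := stp25 S h.ro h.q_ge h.hkb
    oscp := fun u j hu huj hj κ y hy ω hω η hη σ hσ =>
      oscp25 S h.ro h.q_le h.hm2 h.m3_ge h.num.sl_mono h.sl_smax h.d_b pn.y_le hu huj hj κ hy hω hη hσ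
    cmpA := h.cmpA
    M3A := h.M3A
    exclF := h.exclF
    exclE := h.exclE }

/-- **THE SEPARATION.** -/
theorem sep25 {θ δ : ℝ} {C1 Ast : ℝ≥0∞} (m2 q0 m1 n1 C' : ℕ) (hθ : 1 < θ) (hd : 0 < δ) (hC1 : C1 ≠ ⊤) (hAst : Ast ≠ ⊤) :
    ∃ m0 : ℕ, ∀ {Γ : Cx} {G : Gm} {mt : ℕ} {μ : Measure ℝ} [IsProbabilityMeasure μ] {lam : ℕ} {Lv : ℕ → ℤ × ℤ → Set Env}
      {Ou St Fw : ℝ → ℕ → ℤ × ℤ → Set Env} {L : ℕ → ℤ × ℤ → Set Env} {d sl smax : ℕ → ℝ}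
      {th be : ℕ → ℕ → ℝ} {b : ℕ → ℝ} {st : ℕ → ℕ → ℕ} {κ3 : ℝ≥0∞} {τ0 q r m3 : ℕ} {c c1 δ3 : ℝ≥0∞} {aS bS : ℝ} {βS dR : ℕ → ℝ},
      In25 Γ G mt μ lam Lv Ou St Fw L d sl smax th be b st κ3 (ENNReal.ofReal θ) τ0 q r q0 m1 m3 n1 C' c c1 C1 Ast δ3 aS bS βS dR →
      G.m2 = m2 → m0 ≤ G.m0 → ∀ {a b' : ℕ}, δ * G.M ≤ a → b' ≤ δ * G.M / 8 →
      ∑ x : XS Γ G mt, ∫⁻ ω in {ω | a ≤ cnt (p98 Γ G mt th sl be b st κ3 (ENNReal.ofReal θ)) (wS Γ G mt) (fa98 Γ G mt) τ0 τ0 (sl τ0) x ω ∧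
        (ENNReal.ofReal θ ^ 2)⁻¹ ^ b' ≤ pot86 Γ G mt lam m3 (TT25 Lv Ou St Fw) (1 + c1)⁻¹ τ0 (sl τ0) x ω}, wS Γ G mt x ω ∂(law μ) ≤
          2 * ENNReal.ofReal (θ ^ (-(δ / 2) * G.M)) := by
  obtain ⟨m0, hm0⟩ := sepI98 (C1 := C1) (Ast := Ast) m2 q0 m1 n1 C' hθ hd hC1 hAst
  refine ⟨m0, fun {Γ G mt μ} _ {lam Lv Ou St Fw L d sl smax th be b st κ3 τ0 q r m3 c c1 δ3 aS bS βS dR} h h1 h2 {a b'} ha hb => ?_⟩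
  exact hm0 h.toI h1 h2 ha hb

end

end Pool.Agent.W_7d29a1_C1.P25
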