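import Pool.Agent.W_7d29a1_C1.PotW86
import Pool.Agent.W_7d29a1_C1.Sep25

/-!
Both halves (MP_7d29a1_pr), attractor route [C1], SEP: THE TYPICAL EVENTS HOLD AT THE OWN SLABS WHERE NOTHING IS FELT (helper86)

`Cl86 .. bad X` : a clause: off `bad` the event `X u (loc u ρ)` holds at every own slab `(u, ρ)` (`ODW`, regular list `PW`) where no
layer and no node is felt (`Ok6`, `OkS6`). `Cl86.inter`, `ht86` : the clause of `TT25 Lv Ou St Fw` from the four clauses. `ODW.triple` : the cuts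
`ct (u - 1) ρ, ct u ρ, ct (u + 1) ρ` are successive. `potC86` : the probability of a small potential, from the clause.
-/

set_option autoImplicit false

namespace Pool.Agent.W_7d29a1_C1.PW86

open Finset MeasureTheory
open Pool.Agent.W_7d29a1_F Pool.Agent.W_7d29a1_C1.S71
open Pool.Agent.W_7d29a1_C1.H60
open Pool.Agent.W_7d29a1_C1.G37 (Gm)
open Pool.Agent.W_7d29a1_C1.H40
open Pool.Agent.W_7d29a1_C1.Dep6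
open Pool.Agent.W_7d29a1_C1.SF98
open Pool.Agent.W_7d29a1_C1.P25 (TT25)
open Pool.Agent.W_7d29a1_C1.PS86 (rj pot86 dpT_le)
open scoped ENNReal

noncomputable section

/-! ### The exact cuts of an own slab -/

section Triple

variable {σ Λ : Type*} {G : Geo σ Λ} {lat : σ → ℝ} {latC : Cut Λ → ℝ} {w : ℕ → ℝ}

/-- **The cuts `ct (u - 1) ρ, ct u ρ, ct (u + 1) ρ` are successive.** -/
theorem triple86 {C0 : ℝ} {C2 D : ℕ} {Z : List (Cut Λ)} {ρ : σ} {u : ℕ} (h : ODW G lat latC w C0 C2 D Z ρ u) (hC : 1 ≤ C2)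
    (hu : 1 ≤ u) : ∃ P Q, Z = P ++ G.ct (u - 1) ρ :: G.ct u ρ :: G.ct (u + 1) ρ :: Q := by
  obtain ⟨v0, v1, v2, P, Lo, Bo, Cl, Bl, Tw, e, a1, -, -, -, -, -, -, -, -, -, -, -, ⟨n, Cl', e1, e2⟩, -⟩ := h
  obtain ⟨k, rfl⟩ : ∃ k, u = v0 + k + 1 := ⟨u - 1 - v0, by omega⟩
  obtain ⟨n', rfl⟩ : ∃ n', n = k + (n' + 3) := ⟨n - k - 3, by omega⟩
  refine ⟨P ++ (Lo ++ (Bo ++ G.up ρ v0 k)), G.up ρ (v0 + k + 1 + 1 + 1) n' ++ (Cl' ++ (Bl ++ Tw)), ?_⟩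
  rw [e, e1, Geo.up_add, Geo.up_succ, Geo.up_succ, Geo.up_succ, show v0 + k + 1 - 1 = v0 + k by omega]
  simp only [List.append_assoc, List.cons_append]

end Triple

/-! ### The clauses -/

variable (Γ : Cx) (G : Gm) (mt : ℕ) in
/-- **A CLAUSE.** -/
def Cl86 (Sw : Finset ℤ) (E0 : ℕ) (dL : Cut (ℤ × ℤ) → Cut (ℤ × ℤ) → Env → ℕ) (dN : Cut (ℤ × ℤ) → Cut (ℤ × ℤ) → Cut (ℤ × ℤ) → Env → ℕ)
    (scL : Cut (ℤ × ℤ) → Cut (ℤ × ℤ) → ℕ) (scN : Cut (ℤ × ℤ) → Cut (ℤ × ℤ) → Cut (ℤ × ℤ) → ℕ) (C0 : ℝ) (C2 D τ : ℕ)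
    (bad : Set Env) (X : ℕ → ℤ × ℤ → Set Env) : Prop :=
  ∀ η ∉ bad, ∀ (ρ : XS Γ G mt) (u : ℕ) Z, τ ≤ u → u < G.M → PW (gj Γ G mt) Z →
    ODW (gj Γ G mt) (fun x => G.lat x.1) G.latC G.w C0 C2 D Z ρ u → Ok6 Sw dL dN scL scN Z u η → OkS6 Sw E0 scL scN Z u →
    η ∈ X u (G.loc u ρ.1)

variable {Γ : Cx} {G : Gm} {mt : ℕ} {Sw : Finset ℤ} {E0 : ℕ} {dL : Cut (ℤ × ℤ) → Cut (ℤ × ℤ) → Env → ℕ}
  {dN : Cut (ℤ × ℤ) → Cut (ℤ × ℤ) → Cut (ℤ × ℤ) → Env → ℕ} {scL : Cut (ℤ × ℤ) → Cut (ℤ × ℤ) → ℕ}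
  {scN : Cut (ℤ × ℤ) → Cut (ℤ × ℤ) → Cut (ℤ × ℤ) → ℕ} {C0 : ℝ} {C2 D τ : ℕ} {bad bad' : Set Env} {X Y : ℕ → ℤ × ℤ → Set Env}

theorem Cl86.inter (h : Cl86 Γ G mt Sw E0 dL dN scL scN C0 C2 D τ bad X) (h' : Cl86 Γ G mt Sw E0 dL dN scL scN C0 C2 D τ bad' Y) :
    Cl86 Γ G mt Sw E0 dL dN scL scN C0 C2 D τ (bad ∪ bad') fun u κ => X u κ ∩ Y u κ := fun η hη ρ u Z a1 a2 a3 a4 a5 a6 =>
  ⟨h η (fun h1 => hη (Or.inl h1)) ρ u Z a1 a2 a3 a4 a5 a6, h' η (fun h1 => hη (Or.inr h1)) ρ u Z a1 a2 a3 a4 a5 a6⟩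

theorem Cl86.mono (h : Cl86 Γ G mt Sw E0 dL dN scL scN C0 C2 D τ bad X) (hb : bad ⊆ bad') (hX : ∀ u κ, X u κ ⊆ Y u κ) :
    Cl86 Γ G mt Sw E0 dL dN scL scN C0 C2 D τ bad' Y := fun η hη ρ u Z a1 a2 a3 a4 a5 a6 =>
  hX _ _ (h η (fun h1 => hη (hb h1)) ρ u Z a1 a2 a3 a4 a5 a6)

/-- **THE CLAUSE OF THE TYPICAL EVENTS** from the four clauses. -/
theorem ht86 {Lv : ℕ → ℤ × ℤ → Set Env} {Ou St Fw : ℝ → ℕ → ℤ × ℤ → Set Env} {bL bO bS bF : Set Env}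
    (cL : Cl86 Γ G mt Sw E0 dL dN scL scN C0 C2 D τ bL Lv) (cO : Cl86 Γ G mt Sw E0 dL dN scL scN C0 C2 D τ bO (Ou 0))
    (cS : Cl86 Γ G mt Sw E0 dL dN scL scN C0 C2 D τ bS (St 0)) (cF : Cl86 Γ G mt Sw E0 dL dN scL scN C0 C2 D τ bF (Fw 0)) :
    Cl86 Γ G mt Sw E0 dL dN scL scN C0 C2 D τ (bL ∪ (bO ∪ (bS ∪ bF))) (TT25 Lv Ou St Fw 0) :=
  cL.inter (cO.inter (cS.inter cF))

/-- The stronger form (slack below zero). -/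
theorem Cl86.slack {F : ℝ → ℕ → ℤ × ℤ → Set Env} (hF : ∀ sg sg' u κ, sg ≤ sg' → F sg u κ ⊆ F sg' u κ) {sg : ℝ} (hs : sg ≤ 0)
    (h : Cl86 Γ G mt Sw E0 dL dN scL scN C0 C2 D τ bad (F sg)) : Cl86 Γ G mt Sw E0 dL dN scL scN C0 C2 D τ bad (F 0) :=
  h.mono subset_rfl fun u κ => hF _ _ u κ hs

/-! ### The probability -/

section Prob

variable {lam m3 : ℕ} {TT : ℝ → ℕ → ℤ × ℤ → Set Env} {y : ℝ≥0∞}

/-- **THE POTENTIAL IS SMALL ONLY WITH SMALL PROBABILITY**, from the clause. -/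
theorem potC86 {μ : Measure ℝ} [IsProbabilityMeasure μ] {A : ℕ} (hmt : G.M + G.m2 ≤ mt + 1) (hA : G.A0n ≤ A) (hla : G.An ≤ A ^ lam)
    (hC0 : 4 * (G.kn + (G.kb + 1) + 1) ≤ C0) (hD : 1 ≤ D) {z M tl : ℝ≥0∞}
    (hL : Dp2 μ z M dL) (hN : Dp3 μ z M dN) (hz : 1 ≤ z) (hz' : z ≠ ∞) (hM : 1 ≤ M)
    (htl : ∀ a b, law μ {η | E0 < dL a b η} ≤ tl) {σ : ℝ} (hσ : 0 ≤ σ) (mT : ∀ σ σ' u κ, σ ≤ σ' → TT σ u κ ⊆ TT σ' u κ)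
    (hT : Cl86 Γ G mt Sw E0 dL dN scL scN C0 C2 D τ bad (TT 0)) (hy : y ≤ 1) {r b : ℕ}
    (hb : 6 * (C2 + 3) * nSt G.M G.m2 lam + 2 * ((G.M + G.m2) / D) + 9 * r + 9 * (Sw.card * E0) ≤ b) :
    law μ {η | ∃ x : XS Γ G mt, pot86 Γ G mt lam m3 TT y τ σ x η < y ^ (3 * b)} ≤
      (law μ bad + ((FW6 (gj Γ G mt)).card : ℝ≥0∞) ^ 2 * tl) +
        (nCodeJ (max 1 ((FS Γ G mt).image (G.loc mt)).card) (A ^ 2) mt G.m2 : ℝ≥0∞) *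
          (3 * (M ^ (3 * (mt + G.m2) + 1) / z ^ r)) :=
  potW86 hmt hA hla hC0 hD hL hN hz hz' hM Sw E0 htl scL scN hσ mT hT hy hb

end Prob

end

end Pool.Agent.W_7d29a1_C1.PW86
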