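import Pool.Agent.W_7d29a1_C1.KerP16

/-!
MP_7d29a1_pr, attractor route [C1], SHELL, junction `uncovered => D`: most of the future of a far place stays far. (helper31)

`half31`: kernel envelope at the place, lower bound to one site `v₀` (on the line of the place), local regularity of the future mass at
the later row: the mass to the sites at distance `≥ D` is at most the half. `half31'`: a displacement which is impossible.
-/

set_option autoImplicit false

namespace Pool.Agent.W_7d29a1_C1.D31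

open Finset
open Pool.Agent.W_7d29a1_C1.K91P (fw bw fw_nonneg bw_pos)
open Pool.Agent.W_7d29a1_C1.U16 (ker fw_ker bw_ker ker_nonneg ker_eq_zero)

noncomputable section

variable {w : ℕ → ℤ → ℝ} {p : ℕ → ℝ}

/-- One route. -/
theorem single_bw (hw : ∀ k y, 0 < w k y) (hp : ∀ k, 0 < p k) {i n N : ℕ} (hin : i + n ≤ N) (x v : ℤ) :
    ker w p i n x v * bw w p (i + n) (N - (i + n)) v ≤ bw w p i (N - i) x := by
  have e : N - i = n + (N - (i + n)) := by omega
  rw [e, bw_ker i n (N - (i + n)) x]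
  by_cases hv : x ≤ v ∧ v ≤ x + n
  · exact single_le_sum (f := fun y => ker w p i n x y * bw w p (i + n) (N - (i + n)) y)
      (fun y _ => mul_nonneg (ker_nonneg hw hp i n x y) (bw_pos hw hp _ _ _).le) (mem_Icc.2 hv)
  · rw [ker_eq_zero (w := w) (p := p) i n x v hv, zero_mul]
    exact sum_nonneg fun y _ => mul_nonneg (ker_nonneg hw hp i n x y) (bw_pos hw hp _ _ _).le

/-- **MOST OF THE FUTURE STAYS NEAR THE LINE.** -/
theorem half31 (hw : ∀ k y, 0 < w k y) (hp : ∀ k, 0 < p k) {i n N : ℕ} (hin : i + n ≤ N) {x v₀ : ℤ} {B : Finset ℤ}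
    {κ U a r σ cK D b : ℝ} {d : ℤ → ℝ} (hκ : 0 < κ)
    (hup : ∀ v ∈ B, x ≤ v → v ≤ x + n → ker w p i n x v ≤ κ * Real.exp (U - cK * d v))
    (hlow : κ * Real.exp (-a) ≤ ker w p i n x v₀)
    (hLR : ∀ v ∈ B, x ≤ v → v ≤ x + n → bw w p (i + n) (N - (i + n)) v ≤
      Real.exp (r + σ * |(v : ℝ) - v₀|) * bw w p (i + n) (N - (i + n)) v₀)
    (hdist : ∀ v ∈ B, |(v : ℝ) - v₀| ≤ d v + 1) (hD : ∀ v ∈ B, D ≤ d v) (hσ : 0 ≤ σ) (hσc : σ ≤ cK)
    (hnum : U + a + r + σ + b ≤ (cK - σ) * D) (hcard : 2 * (B.card : ℝ) ≤ Real.exp b) :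
    ∑ v ∈ B, ker w p i n x v * bw w p (i + n) (N - (i + n)) v ≤ 1 / 2 * bw w p i (N - i) x := by
  set f := bw w p (i + n) (N - (i + n)) with hf
  have hf0 : ∀ v, 0 < f v := fun v => bw_pos hw hp _ _ _
  have h1 : ∀ v ∈ B, ker w p i n x v * f v ≤ Real.exp (-b) * bw w p i (N - i) x := by
    intro v hv
    by_cases hr : x ≤ v ∧ v ≤ x + n
    · have t1 := hup v hv hr.1 hr.2
      have t2 := hLR v hv hr.1 hr.2
      have t3 := hdist v hv
      have t4 := hD v hv
      have t5 : (cK - σ) * D ≤ (cK - σ) * d v := mul_le_mul_of_nonneg_left t4 (by linarith)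
      have t6 : σ * |(v : ℝ) - v₀| ≤ σ * (d v + 1) := mul_le_mul_of_nonneg_left t3 hσ
      have t7 : Real.exp (U - cK * d v) * Real.exp (r + σ * |(v : ℝ) - v₀|) ≤ Real.exp (-b) * Real.exp (-a) := by
        rw [← Real.exp_add, ← Real.exp_add]
        refine Real.exp_le_exp.2 ?_
        nlinarith
      calc ker w p i n x v * f v ≤ κ * Real.exp (U - cK * d v) * (Real.exp (r + σ * |(v : ℝ) - v₀|) * f v₀) :=
            mul_le_mul t1 t2 (hf0 v).le (mul_nonneg hκ.le (Real.exp_pos _).le)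
        _ = κ * (Real.exp (U - cK * d v) * Real.exp (r + σ * |(v : ℝ) - v₀|)) * f v₀ := by ring
        _ ≤ κ * (Real.exp (-b) * Real.exp (-a)) * f v₀ :=
            mul_le_mul_of_nonneg_right (mul_le_mul_of_nonneg_left t7 hκ.le) (hf0 v₀).le
        _ = Real.exp (-b) * ((κ * Real.exp (-a)) * f v₀) := by ring
        _ ≤ Real.exp (-b) * (ker w p i n x v₀ * f v₀) :=
            mul_le_mul_of_nonneg_left (mul_le_mul_of_nonneg_right hlow (hf0 v₀).le) (Real.exp_pos _).le
        _ ≤ _ := mul_le_mul_of_nonneg_left (single_bw hw hp hin x v₀) (Real.exp_pos _).le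
    · rw [ker_eq_zero (w := w) (p := p) i n x v hr, zero_mul]
      exact mul_nonneg (Real.exp_pos _).le (bw_pos hw hp _ _ _).le
  refine (sum_le_sum h1).trans ?_
  rw [sum_const, nsmul_eq_mul, ← mul_assoc]
  refine mul_le_mul_of_nonneg_right ?_ (bw_pos hw hp _ _ _).le
  have h2 := mul_le_mul_of_nonneg_right hcard (Real.exp_pos (-b)).le
  rw [← Real.exp_add, add_neg_cancel, Real.exp_zero] at h2
  linarith

/-- A displacement which is impossible. -/
theorem half31' (hw : ∀ k y, 0 < w k y) (hp : ∀ k, 0 < p k) {i n N : ℕ} {x : ℤ} {B : Finset ℤ}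
    (hB : ∀ v ∈ B, ¬ (x ≤ v ∧ v ≤ x + n)) :
    ∑ v ∈ B, ker w p i n x v * bw w p (i + n) (N - (i + n)) v ≤ 1 / 2 * bw w p i (N - i) x := by
  rw [sum_eq_zero fun v hv => by rw [ker_eq_zero (w := w) (p := p) i n x v (hB v hv), zero_mul]]
  exact mul_nonneg (by norm_num) (bw_pos hw hp _ _ _).le

/-- The lateral displacement is at most the number of the rows. -/
theorem not_reach {sl : ℝ} (h0 : 0 ≤ sl) (h1 : sl ≤ 1) {n : ℕ} {x v : ℤ} {cen cen' : ℝ} (hc : cen' = cen + sl * n)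
    (hd : (n : ℝ) < |((v : ℝ) - cen') - ((x : ℝ) - cen)|) : ¬ (x ≤ v ∧ v ≤ x + n) := by
  rintro ⟨h2, h3⟩
  have h2' : (x : ℝ) ≤ v := by exact_mod_cast h2
  have h3' : (v : ℝ) ≤ x + n := by exact_mod_cast h3
  have hn : (0 : ℝ) ≤ n := Nat.cast_nonneg n
  refine absurd hd (not_lt.2 ?_)
  rw [hc, abs_le]
  constructor <;> nlinarith

end

end Pool.Agent.W_7d29a1_C1.D31
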