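import Pool.Agent.W_7d29a1_C1.Klv56
import Pool.Agent.W_7d29a1_C1.Half31
import Pool.Agent.W_7d29a1_C1.TamK16

/-!
MP_7d29a1_pr, attractor route [C1], SHELL, model instance of the stay lemma (helper56, for helper31).

`halfM56`: levels of the kernel over slabs from the edge row to the later row and local regularity of the normalised future `bh16` there:
from a place in a shell at most the half of the future is within `D'` of the line at the later row. `halfT56`: the top shell (impossible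
displacement).
-/

set_option autoImplicit false

namespace Pool.Agent.W_7d29a1_C1.H56

open MeasureTheory ProbabilityTheory Filter Topology Finset
open Pool.Agent.W_7d29a1_F Pool.Agent.W_7d29a1_h4g Pool.Agent.W_7d29a1_H Pool.Agent.W_7d29a1_HS
open Pool.Agent.W_7d29a1_C1.H75 Pool.Agent.W_7d29a1_C1.U16 Pool.Agent.W_7d29a1_C1.FarK89 Pool.Agent.W_7d29a1_C1.FarW89
open Pool.Agent.W_7d29a1_C1.K91 (wt wt_pos)
open Pool.Agent.W_7d29a1_C1.K91P (fw bw bw_pos)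
open Pool.Agent.W_7d29a1_C1.D31

noncomputable section

variable {μ : Measure ℝ} {s h : ℝ} {η : Env} {p : ℕ → ℝ} {M N : ℕ}

/-- The cost of the shell. -/
def cs56 (μ : Measure ℝ) (s c : ℝ) (P : ℕ) (C₅ C₆ Q K Lη r : ℝ) (Tt : ℕ) (W : ℝ) : ℝ :=
  (LQ (2 * P) (c / 8) (C₅ * Q) * gr (2 * P) (W / wd μ s Tt) + Q) * EE μ s Tt + C₆ * Q * gr (2 * P) (W / wd μ s Tt + K) * EE μ s Tt +
    r + 6 * Lη

/-- (5) **MOST OF THE FUTURE OF A PLACE IN THE SHELL STAYS FAR FROM THE LINE.** -/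
theorem halfM56 [IsProbabilityMeasure μ] {c : ℝ} {P : ℕ} {C₅ C₆ Q K : ℝ} {Tt i nn : ℕ} {cen cenR : ℝ} (hC₅ : 0 ≤ C₅) (hC₆ : 0 ≤ C₆)
    (hQ : 0 ≤ Q) (hK : 0 ≤ K) (hw : 0 < wd μ s Tt) (hs0 : 0 ≤ sl μ s) (hs1 : sl μ s ≤ 1) (hp : ∀ k, 0 < p k)
    (hcenR : cenR = cen + sl μ s * nn)
    (hup : ∀ (x : ℤ) (L : ℝ), |η ((i : ℤ), x)| ≤ L → ∀ z : ℤ, wt η i x * nk μ s h η p M i nn x z ≤
      Real.exp (L + (LQ (2 * P) (c / 8) (C₅ * Q) * gr (2 * P) (|(x : ℝ) - cen| / wd μ s Tt) + Q) * EE μ s Tt -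
        hc μ s c Tt / 8 * |((z : ℝ) - cenR) - ((x : ℝ) - cen)|))
    (hlow : ∀ (x : ℤ) (L : ℝ), |η ((i : ℤ), x)| ≤ L → ∀ z : ℤ, |((z : ℝ) - cenR) - ((x : ℝ) - cen)| ≤ 1 →
      Real.exp (-(C₆ * Q * gr (2 * P) (|(x : ℝ) - cen| / wd μ s Tt + K) * EE μ s Tt + L)) ≤ wt η i x * nk μ s h η p M i nn x z)
    (hin : i + nn ≤ N) {lo hi : ℤ} {W₀ W D' r σ b Lη : ℝ} (hη0 : ∀ x ∈ Icc lo hi, |η ((i : ℤ), x)| ≤ Lη)
    (hη1 : ∀ v ∈ Icc lo hi, |η (((i + nn : ℕ) : ℤ), v)| ≤ Lη)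
    (hLR : ∀ v v₀ : ℤ, |(v₀ : ℝ) - cenR| ≤ W + 1 → |(v : ℝ) - v₀| ≤ nn + 1 →
      bh16 μ s h η p M N (i + nn) v ≤ Real.exp (r + σ * |(v : ℝ) - v₀|) * bh16 μ s h η p M N (i + nn) v₀)
    (hσ : 0 ≤ σ) (hσc : σ ≤ hc μ s c Tt / 8)
    (hnum : cs56 μ s c P C₅ C₆ Q K Lη r Tt W + σ + b ≤ (hc μ s c Tt / 8 - σ) * (W₀ - D'))
    (hcard : 2 * ((Icc lo hi).card : ℝ) ≤ Real.exp b) {x : ℤ} (hx : x ∈ Icc lo hi) (hxN : x ≤ hi - N + i) (hx0 : W₀ < |(x : ℝ) - cen|)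
    (hx1 : |(x : ℝ) - cen| ≤ W) :
    ∑ v ∈ Icc lo hi \ (Icc lo hi).filter (fun v : ℤ => D' < |(v : ℝ) - cenR|),
      ker (wt η) p i nn x v * bw (wt η) p (i + nn) (N - (i + nn)) v ≤ 1 / 2 * bw (wt η) p i (N - i) x := by
  have hE := EE_pos (μ := μ) (s := s) Tt
  have hn0 : (0 : ℝ) ≤ nn := Nat.cast_nonneg nn
  have hxl := mem_Icc.1 hx
  have hLη : |η ((i : ℤ), x)| ≤ Lη := hη0 x hx
  have hW0 : 0 ≤ W := (abs_nonneg _).trans hx1
  -- the site on the line of the place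
  obtain ⟨v₀, hv₀⟩ : ∃ v₀ : ℤ, v₀ = ⌊(x : ℝ) + sl μ s * nn⌋ := ⟨_, rfl⟩
  have f1 : (v₀ : ℝ) ≤ (x : ℝ) + sl μ s * nn := by rw [hv₀]; exact Int.floor_le _
  have f2 : (x : ℝ) + sl μ s * nn < (v₀ : ℝ) + 1 := by rw [hv₀]; exact Int.lt_floor_add_one _
  have f3 : x ≤ v₀ := by
    rw [hv₀]
    exact Int.le_floor.2 (by nlinarith)
  have f4 : v₀ ≤ x + nn := by
    have h5 : (v₀ : ℝ) ≤ ((x + nn : ℤ) : ℝ) := by
      push_cast
      nlinarith
    exact_mod_cast h5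
  have f5 : |((v₀ : ℝ) - cenR) - ((x : ℝ) - cen)| ≤ 1 := by
    rw [hcenR, abs_le]
    constructor <;> linarith
  have f6 : v₀ ∈ Icc lo hi := mem_Icc.2 ⟨hxl.1.trans f3, by omega⟩
  -- the constant
  obtain ⟨N₀, hN₀⟩ : ∃ N₀ : ℝ, N₀ = Real.exp (nn * lam μ s + h * sl μ s * bl M i nn) := ⟨_, rfl⟩
  have hN₀p : 0 < N₀ := by rw [hN₀]; exact Real.exp_pos _
  have hker : ∀ v : ℤ, ker (wt η) p i nn x v = N₀ * (wt η i x * nk μ s h η p M i nn x v / wt η (i + nn) v) := by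
    intro v
    rw [ker_nk (μ := μ) (s := s) (h := h) (M := M), hN₀]
    ring
  have hk0 : ∀ v : ℤ, 0 ≤ wt η i x * nk μ s h η p M i nn x v := fun v => k_nonneg56 hp i nn x v
  have hinv : ∀ v ∈ Icc lo hi, 1 / wt η (i + nn) v ≤ Real.exp Lη := by
    intro v hv
    have h1 := wt_ge56 (hη1 v hv)
    have h2 := wt_pos η (i + nn) v
    rw [div_le_iff₀ h2]
    have h3 := mul_le_mul_of_nonneg_left h1 (Real.exp_pos Lη).le
    rw [← Real.exp_add, add_neg_cancel, Real.exp_zero] at h3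
    exact h3
  have hinv' : ∀ v ∈ Icc lo hi, Real.exp (-Lη) ≤ 1 / wt η (i + nn) v := by
    intro v hv
    have h1 := wt_le56 (hη1 v hv)
    have h2 := wt_pos η (i + nn) v
    rw [le_div_iff₀ h2]
    have h3 := mul_le_mul_of_nonneg_left h1 (Real.exp_pos (-Lη)).le
    rw [← Real.exp_add, neg_add_cancel, Real.exp_zero] at h3
    exact h3
  obtain ⟨U, hU⟩ : ∃ U : ℝ, U = 2 * Lη + (LQ (2 * P) (c / 8) (C₅ * Q) * gr (2 * P) (W / wd μ s Tt) + Q) * EE μ s Tt := ⟨_, rfl⟩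
  obtain ⟨a, ha⟩ : ∃ a : ℝ, a = C₆ * Q * gr (2 * P) (W / wd μ s Tt + K) * EE μ s Tt + 2 * Lη := ⟨_, rfl⟩
  have hg1 : gr (2 * P) (|(x : ℝ) - cen| / wd μ s Tt) ≤ gr (2 * P) (W / wd μ s Tt) :=
    gr_mono (2 * P) (by positivity) (div_le_div_of_nonneg_right hx1 hw.le)
  have hg2 : gr (2 * P) (|(x : ℝ) - cen| / wd μ s Tt + K) ≤ gr (2 * P) (W / wd μ s Tt + K) :=
    gr_mono (2 * P) (by positivity) (by have := div_le_div_of_nonneg_right hx1 hw.le; linarith)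
  -- the upper bound
  have k1 : ∀ v ∈ Icc lo hi, ker (wt η) p i nn x v ≤ N₀ * Real.exp (U - hc μ s c Tt / 8 * |((v : ℝ) - cenR) - ((x : ℝ) - cen)|) := by
    intro v hv
    rw [hker v]
    refine mul_le_mul_of_nonneg_left ?_ hN₀p.le
    have h1 := hup x Lη hLη v
    have h2 : wt η i x * nk μ s h η p M i nn x v / wt η (i + nn) v = wt η i x * nk μ s h η p M i nn x v * (1 / wt η (i + nn) v) := by
      ring
    rw [h2]
    refine (mul_le_mul h1 (hinv v hv) (by have := wt_pos η (i + nn) v; positivity) (Real.exp_pos _).le).trans ?_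
    rw [← Real.exp_add]
    refine Real.exp_le_exp.2 ?_
    have h3 := mul_le_mul_of_nonneg_right (add_le_add (mul_le_mul_of_nonneg_left hg1
      (LQ_nonneg (2 * P) (c₁ := c / 8) (mul_nonneg hC₅ hQ))) (le_refl Q)) hE.le
    rw [hU]
    linarith
  -- the lower bound
  have k2 : N₀ * Real.exp (-a) ≤ ker (wt η) p i nn x v₀ := by
    rw [hker v₀]
    refine mul_le_mul_of_nonneg_left ?_ hN₀p.le
    have h1 := hlow x Lη hLη v₀ f5
    have h2 : wt η i x * nk μ s h η p M i nn x v₀ / wt η (i + nn) v₀ =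
        wt η i x * nk μ s h η p M i nn x v₀ * (1 / wt η (i + nn) v₀) := by ring
    rw [h2]
    refine le_trans ?_ (mul_le_mul h1 (hinv' v₀ f6) (Real.exp_pos _).le (hk0 v₀))
    rw [← Real.exp_add]
    refine Real.exp_le_exp.2 ?_
    have h3 := mul_le_mul_of_nonneg_right (mul_le_mul_of_nonneg_left hg2 (mul_nonneg hC₆ hQ)) hE.le
    rw [ha]
    linarith
  -- local regularity
  have k3 : ∀ v ∈ Icc lo hi, x ≤ v → v ≤ x + nn → bw (wt η) p (i + nn) (N - (i + nn)) v ≤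
      Real.exp ((r + 2 * Lη) + σ * |(v : ℝ) - v₀|) * bw (wt η) p (i + nn) (N - (i + nn)) v₀ := by
    intro v hv h1 h2
    have h1' : (x : ℝ) ≤ v := by exact_mod_cast h1
    have h2' : (v : ℝ) ≤ x + nn := by exact_mod_cast h2
    have f3' : (x : ℝ) ≤ v₀ := by exact_mod_cast f3
    have f4' : (v₀ : ℝ) ≤ x + nn := by exact_mod_cast f4
    have h3 := hLR v v₀ (by
      have h4 := abs_sub_abs_le_abs_sub ((v₀ : ℝ) - cenR) ((x : ℝ) - cen)
      linarith) (by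
      rw [abs_le]
      constructor <;> linarith)
    rw [bw_bh16 (μ := μ) (s := s) (h := h) (M := M) (a := i + nn) v, bw_bh16 (μ := μ) (s := s) (h := h) (M := M) (a := i + nn) v₀]
    obtain ⟨z₀, hz₀⟩ : ∃ z₀ : ℝ, z₀ = Real.exp (((N - (i + nn) : ℕ) : ℝ) * lam μ s + h * sl μ s * bl M (i + nn) (N - (i + nn))) := ⟨_, rfl⟩
    have hz₀p : 0 < z₀ := by rw [hz₀]; exact Real.exp_pos _
    rw [← hz₀]
    have w1 := wt_le56 (hη1 v hv)
    have w2 := hinv v₀ f6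
    have w3 := wt_pos η (i + nn) v₀
    have w4 := wt_pos η (i + nn) v
    have hb0 : 0 ≤ bh16 μ s h η p M N (i + nn) v₀ := by
      unfold bh16
      have := bw_pos (w := wt η) (wt_pos η) hp (N - (i + nn)) (i + nn) v₀
      positivity
    have hbv : 0 ≤ bh16 μ s h η p M N (i + nn) v := by
      unfold bh16
      have := bw_pos (w := wt η) (wt_pos η) hp (N - (i + nn)) (i + nn) v
      positivity
    calc z₀ * (wt η (i + nn) v * bh16 μ s h η p M N (i + nn) v)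
        ≤ z₀ * (Real.exp Lη * (Real.exp (r + σ * |(v : ℝ) - v₀|) * bh16 μ s h η p M N (i + nn) v₀)) :=
          mul_le_mul_of_nonneg_left (mul_le_mul w1 h3 hbv (Real.exp_pos _).le) hz₀p.le
      _ = z₀ * (Real.exp Lη * Real.exp (r + σ * |(v : ℝ) - v₀|)) * (1 * bh16 μ s h η p M N (i + nn) v₀) := by ring
      _ ≤ z₀ * (Real.exp Lη * Real.exp (r + σ * |(v : ℝ) - v₀|)) *
          ((Real.exp Lη * wt η (i + nn) v₀) * bh16 μ s h η p M N (i + nn) v₀) := by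
          refine mul_le_mul_of_nonneg_left (mul_le_mul_of_nonneg_right ?_ hb0) (by positivity)
          rw [div_le_iff₀ w3] at w2
          exact w2
      _ = (Real.exp Lη * Real.exp (r + σ * |(v : ℝ) - v₀|) * Real.exp Lη) *
          (z₀ * (wt η (i + nn) v₀ * bh16 μ s h η p M N (i + nn) v₀)) := by ring
      _ = _ := by
          rw [← Real.exp_add, ← Real.exp_add]
          congr 2
          ring
  -- the near part
  have hB : Icc lo hi \ (Icc lo hi).filter (fun v : ℤ => D' < |(v : ℝ) - cenR|) ⊆ Icc lo hi := Finset.sdiff_subset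
  have hnear : ∀ v ∈ Icc lo hi \ (Icc lo hi).filter (fun v : ℤ => D' < |(v : ℝ) - cenR|), |(v : ℝ) - cenR| ≤ D' := by
    intro v hv
    rw [Finset.mem_sdiff, Finset.mem_filter] at hv
    by_contra hcon
    exact hv.2 ⟨hv.1, not_le.1 hcon⟩
  refine half31 (κ := N₀) (U := U) (a := a) (r := r + 2 * Lη) (σ := σ) (cK := hc μ s c Tt / 8) (D := W₀ - D') (b := b)
    (d := fun v : ℤ => |((v : ℝ) - cenR) - ((x : ℝ) - cen)|) (v₀ := v₀) (wt_pos η) hp hin hN₀p (fun v hv _ _ => k1 v (hB hv)) k2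
    (fun v hv h1 h2 => k3 v (hB hv) h1 h2) ?_ ?_ hσ hσc ?_ ?_
  · intro v _
    have h1 := abs_sub_le (v : ℝ) (((x : ℝ) - cen) + cenR) v₀
    have h2 : |(v : ℝ) - (((x : ℝ) - cen) + cenR)| = |((v : ℝ) - cenR) - ((x : ℝ) - cen)| := by
      congr 1
      ring
    have h3 : |(((x : ℝ) - cen) + cenR) - (v₀ : ℝ)| ≤ 1 := by
      rw [abs_sub_comm]
      have h4 : (v₀ : ℝ) - (((x : ℝ) - cen) + cenR) = ((v₀ : ℝ) - cenR) - ((x : ℝ) - cen) := by ring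
      rw [h4]
      exact f5
    show |(v : ℝ) - v₀| ≤ |((v : ℝ) - cenR) - ((x : ℝ) - cen)| + 1
    linarith
  · intro v hv
    have h1 := hnear v hv
    have h2 := abs_sub_abs_le_abs_sub ((x : ℝ) - cen) ((v : ℝ) - cenR)
    rw [abs_sub_comm ((x : ℝ) - cen) ((v : ℝ) - cenR)] at h2
    show W₀ - D' ≤ |((v : ℝ) - cenR) - ((x : ℝ) - cen)|
    linarith
  · unfold cs56 at hnum
    rw [hU, ha]
    linarith
  · refine le_trans ?_ hcard
    have h1 : ((Icc lo hi \ (Icc lo hi).filter (fun v : ℤ => D' < |(v : ℝ) - cenR|)).card : ℝ) ≤ ((Icc lo hi).card : ℝ) := by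
      exact_mod_cast card_le_card hB
    linarith

/-- (5) The top shell: the near part cannot be reached. -/
theorem halfT56 (hs0 : 0 ≤ sl μ s) (hs1 : sl μ s ≤ 1) (hp : ∀ k, 0 < p k) {i nn : ℕ} {cen cenR : ℝ}
    (hcenR : cenR = cen + sl μ s * nn) {lo hi x : ℤ} {W₀ D' : ℝ} (hx0 : W₀ < |(x : ℝ) - cen|) (hnn : (nn : ℝ) + D' ≤ W₀) :
    ∑ v ∈ Icc lo hi \ (Icc lo hi).filter (fun v : ℤ => D' < |(v : ℝ) - cenR|),
      ker (wt η) p i nn x v * bw (wt η) p (i + nn) (N - (i + nn)) v ≤ 1 / 2 * bw (wt η) p i (N - i) x := by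
  refine half31' (wt_pos η) hp fun v hv => not_reach hs0 hs1 hcenR ?_
  rw [Finset.mem_sdiff, Finset.mem_filter] at hv
  have h1 : |(v : ℝ) - cenR| ≤ D' := by
    by_contra hcon
    exact hv.2 ⟨hv.1, not_le.1 hcon⟩
  have h2 := abs_sub_abs_le_abs_sub ((x : ℝ) - cen) ((v : ℝ) - cenR)
  rw [abs_sub_comm ((x : ℝ) - cen) ((v : ℝ) - cenR)] at h2
  linarith

end

end Pool.Agent.W_7d29a1_C1.H56
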