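import Pool.Agent.W_7d29a1_C1.Psi17

/-!
MP_7d29a1_pr, attractor route, lower half (helper24): the second difference of the free energy seen through a Gaussian walk at a
large slope is at most `k ^ 2` times (twice) the one at a slope which is `k` times smaller (Harnack for small slopes).
-/

set_option autoImplicit false

namespace Pool.Agent.W_7d29a1_C1

open MeasureTheory ProbabilityTheory Set Finset
open scoped ENNReal NNReal

noncomputable section

variable {ι : Type*} [Fintype ι]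

/-- Powers of the density of a shift. -/
theorem cmd_pow24 (v : ℝ≥0) (a x : ι → ℝ) (n : ℕ) :
    cmd v a x ^ n = Real.exp (((n : ℝ) ^ 2 - n) * (∑ i, a i ^ 2) / (2 * v)) * cmd v (fun i => n * a i) x := by
  unfold cmd
  rw [← Real.exp_nat_mul, ← Real.exp_add]
  congr 1
  have e1 : ∑ i, (n : ℝ) * a i * x i = n * ∑ i, a i * x i := by
    rw [Finset.mul_sum]
    exact Finset.sum_congr rfl fun i _ => by ring
  have e2 : ∑ i, ((n : ℝ) * a i) ^ 2 = (n : ℝ) ^ 2 * ∑ i, a i ^ 2 := by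
    rw [Finset.mul_sum]
    exact Finset.sum_congr rfl fun i _ => by ring
  rw [e1, e2]
  ring

/-- The part of the density above `2`. -/
theorem cmd_tail24 {v : ℝ≥0} (hv : v ≠ 0) (a : ι → ℝ) (q : ℕ) {th : ℝ} (hth : th = (∑ i, a i ^ 2) / v)
    (hq : (q + 1) * th ≤ 1) :
    ∫ x, (if 2 < cmd v a x then cmd v a x else 0) ∂(gpi ι v) ≤ (Real.exp (1 / 2) / 2) ^ q := by
  have hv' : (0 : ℝ) < v := by exact_mod_cast pos_iff_ne_zero.2 hv
  have hi : Integrable (fun x => (1 / 2) ^ q * cmd v a x ^ (q + 1)) (gpi ι v) := by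
    have e : (fun x => (1 / 2 : ℝ) ^ q * cmd v a x ^ (q + 1)) = fun x => ((1 / 2 : ℝ) ^ q *
        Real.exp ((((q + 1 : ℕ) : ℝ) ^ 2 - ((q + 1 : ℕ) : ℝ)) * (∑ i, a i ^ 2) / (2 * v))) *
          cmd v (fun i => ((q + 1 : ℕ) : ℝ) * a i) x := by
      funext x
      rw [cmd_pow24]
      ring
    rw [e]
    exact (integrable_cmd v _).const_mul _
  have hb : ∀ x : ι → ℝ, (if 2 < cmd v a x then cmd v a x else 0) ≤ (1 / 2) ^ q * cmd v a x ^ (q + 1) := by
    intro x
    have hp := cmd_pos v a x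
    split_ifs with h
    · have h1 : (1 : ℝ) ≤ (1 / 2 * cmd v a x) ^ q := one_le_pow₀ (by linarith)
      calc cmd v a x = 1 * cmd v a x := (one_mul _).symm
        _ ≤ (1 / 2 * cmd v a x) ^ q * cmd v a x := mul_le_mul_of_nonneg_right h1 hp.le
        _ = (1 / 2) ^ q * cmd v a x ^ (q + 1) := by ring
    · positivity
  have hm : Measurable fun x : ι → ℝ => (if 2 < cmd v a x then cmd v a x else 0) := by
    refine Measurable.ite ?_ (measurable_cmd v a) measurable_const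
    exact measurableSet_lt measurable_const (measurable_cmd v a)
  have hi2 : Integrable (fun x : ι → ℝ => (if 2 < cmd v a x then cmd v a x else 0)) (gpi ι v) := by
    refine hi.mono' hm.aestronglyMeasurable (ae_of_all _ fun x => ?_)
    rw [Real.norm_eq_abs, abs_of_nonneg]
    · exact hb x
    · split_ifs
      · exact (cmd_pos v a x).le
      · exact le_refl _
  refine (integral_mono hi2 hi hb).trans ?_
  have e : (fun x => (1 / 2 : ℝ) ^ q * cmd v a x ^ (q + 1)) = fun x => ((1 / 2 : ℝ) ^ q *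
      Real.exp ((((q + 1 : ℕ) : ℝ) ^ 2 - ((q + 1 : ℕ) : ℝ)) * (∑ i, a i ^ 2) / (2 * v))) *
        cmd v (fun i => ((q + 1 : ℕ) : ℝ) * a i) x := by
    funext x
    rw [cmd_pow24]
    ring
  rw [e, integral_const_mul, integral_cmd hv, mul_one]
  have e0 : (Real.exp (1 / 2) / 2 : ℝ) ^ q = Real.exp (q * (1 / 2)) / 2 ^ q := by
    rw [div_pow, ← Real.exp_nat_mul]
  rw [e0]
  have e2 : (((q + 1 : ℕ) : ℝ) ^ 2 - ((q + 1 : ℕ) : ℝ)) * (∑ i, a i ^ 2) / (2 * v) = q * (((q : ℝ) + 1) * th) / 2 := by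
    rw [hth]
    push_cast
    field_simp
    ring
  rw [e2]
  have h1 : (q : ℝ) * (((q : ℝ) + 1) * th) / 2 ≤ q * (1 / 2) := by
    have h2 : (q : ℝ) * (((q : ℝ) + 1) * th) ≤ q * 1 := mul_le_mul_of_nonneg_left hq (Nat.cast_nonneg q)
    linarith
  have h2 := Real.exp_le_exp.2 h1
  calc (1 / 2 : ℝ) ^ q * Real.exp (q * (((q : ℝ) + 1) * th) / 2) ≤ (1 / 2 : ℝ) ^ q * Real.exp (q * (1 / 2)) :=
        mul_le_mul_of_nonneg_left h2 (by positivity)
    _ = Real.exp (q * (1 / 2)) / 2 ^ q := by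
        rw [one_div, inv_pow]
        ring

/-- Summation of second differences. -/
theorem sum_sd24 {g : ℕ → ℝ} {B : ℝ} {k : ℕ} (h0 : g 1 - g 0 ≤ B)
    (h1 : ∀ j, j + 1 < k → g (j + 2) - 2 * g (j + 1) + g j ≤ 2 * B) (hk : 1 ≤ k) : g k - g 0 ≤ k ^ 2 * B := by
  have key : ∀ j, j < k → g (j + 1) - g j ≤ (2 * j + 1) * B := by
    intro j
    induction j with
    | zero =>
      intro _
      simpa using h0
    | succ j ih =>
      intro hj
      have h2 := ih (by omega)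
      have h3 := h1 j hj
      push_cast
      have e : g (j + 1 + 1) = g (j + 2) := rfl
      rw [e]
      linarith
  have key2 : ∀ j, j ≤ k → g j - g 0 ≤ (j : ℝ) ^ 2 * B := by
    intro j
    induction j with
    | zero =>
      intro _
      simp
    | succ j ih =>
      intro hj
      have h2 := ih (by omega)
      have h3 := key j (by omega)
      push_cast
      linarith
  exact key2 k (le_refl k)

/-- **Harnack for second differences.** -/
theorem harn24 {v : ℝ≥0} (hv : v ≠ 0) {Φ : (ι → ℝ) → ℝ} (hΦ : Measurable Φ)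
    (hi : Integrable Φ (gpi ι v)) {K : ℝ} (hK : 0 ≤ K) (hL : ∀ x u, |Φ (x + cst ι u) - Φ x| ≤ K * |u|)
    (hc : ∀ x u, 2 * Φ x ≤ Φ (x + cst ι u) + Φ (x + cst ι (-u)))
    {r : ℝ} (hr : 0 ≤ r) {k q : ℕ} (hk : 1 ≤ k) (hq : (q + 1) * (Fintype.card ι * (k * r) ^ 2 / v) ≤ 1) :
    ∫ x, Φ (x + cst ι (k * r)) ∂(gpi ι v) + ∫ x, Φ (x + cst ι (-(k * r))) ∂(gpi ι v) - 2 * ∫ x, Φ x ∂(gpi ι v) ≤
      (k : ℝ) ^ 2 * (2 * (∫ x, Φ (x + cst ι r) ∂(gpi ι v) + ∫ x, Φ (x + cst ι (-r)) ∂(gpi ι v) -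
        2 * ∫ x, Φ x ∂(gpi ι v)) + 2 * K * r * (Real.exp (1 / 2) / 2) ^ q) := by
  have hv' : (0 : ℝ) < v := by exact_mod_cast pos_iff_ne_zero.2 hv
  have hshift : ∀ u : ℝ, Integrable (fun x => Φ (x + cst ι u)) (gpi ι v) := by
    intro u
    have h1 : Integrable (fun x => Φ (x + cst ι u) - Φ x) (gpi ι v) := by
      refine (integrable_const (K * |u|)).mono' ?_ (ae_of_all _ fun x => ?_)
      · exact ((hΦ.comp (measurable_id.add_const _)).sub hΦ).aestronglyMeasurable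
      · rw [Real.norm_eq_abs]
        exact hL x u
    refine (h1.add hi).congr (ae_of_all _ fun x => ?_)
    simp
  obtain ⟨Q, hQ⟩ : ∃ Q : (ι → ℝ) → ℝ, Q = fun x => Φ (x + cst ι r) + Φ (x + cst ι (-r)) - 2 * Φ x := ⟨_, rfl⟩
  have hQ0 : ∀ x, 0 ≤ Q x := by
    intro x
    rw [hQ]
    have := hc x r
    simp only
    linarith
  have hQb : ∀ x, Q x ≤ 2 * K * r := by
    intro x
    have h1 := (abs_le.1 (hL x r)).2
    have h2 := (abs_le.1 (hL x (-r))).2
    rw [abs_neg] at h2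
    rw [abs_of_nonneg hr] at h1 h2
    rw [hQ]
    simp only
    linarith
  have hQm : Measurable Q := by
    rw [hQ]
    exact ((hΦ.comp (measurable_id.add_const _)).add (hΦ.comp (measurable_id.add_const _))).sub (hΦ.const_mul 2)
  obtain ⟨φ, hφ⟩ : ∃ φ : ℝ → ℝ, φ = fun h => ∫ x, Φ (x + cst ι h) ∂(gpi ι v) := ⟨_, rfl⟩
  have hφ0 : φ 0 = ∫ x, Φ x ∂(gpi ι v) := by
    rw [hφ]
    have e : cst ι 0 = 0 := rfl
    simp only [e, add_zero]
  have hcst : ∀ a b : ℝ, ∀ x : ι → ℝ, x + cst ι a + cst ι b = x + cst ι (a + b) := by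
    intro a b x
    funext i
    simp [cst, add_assoc]
  have hQi : ∀ h : ℝ, ∫ x, Q (x + cst ι h) ∂(gpi ι v) = φ (h + r) + φ (h - r) - 2 * φ h := by
    intro h
    rw [hφ]
    simp only
    have i1 : Integrable (fun x => Φ (x + cst ι (h + r)) + Φ (x + cst ι (h - r))) (gpi ι v) := (hshift _).add (hshift _)
    rw [← integral_const_mul, ← integral_add (hshift _) (hshift _), ← integral_sub i1 ((hshift _).const_mul 2), hQ]
    refine integral_congr_ae (ae_of_all _ fun x => ?_)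
    simp only
    rw [hcst, hcst, sub_eq_add_neg h r]
  obtain ⟨D, hD⟩ : ∃ D : ℝ, D = φ r + φ (-r) - 2 * φ 0 := ⟨_, rfl⟩
  have hD0 : ∫ x, Q x ∂(gpi ι v) = D := by
    have h := hQi 0
    have e : cst ι 0 = 0 := rfl
    rw [e, zero_add, zero_sub] at h
    simp only [add_zero] at h
    rw [h, hD]
  have hQI : Integrable Q (gpi ι v) := by
    refine (integrable_const (2 * K * r)).mono' hQm.aestronglyMeasurable (ae_of_all _ fun x => ?_)
    rw [Real.norm_eq_abs, abs_of_nonneg (hQ0 x)]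
    exact hQb x
  -- the shifted second difference
  have main : ∀ h : ℝ, |h| ≤ k * r → φ (h + r) + φ (h - r) - 2 * φ h ≤ 2 * D + 2 * K * r * (Real.exp (1 / 2) / 2) ^ q := by
    intro h hh
    rw [← hQi, cm17 hv]
    have hsum : (∑ i, cst ι h i ^ 2) = Fintype.card ι * h ^ 2 := by
      unfold cst
      rw [Finset.sum_const, Finset.card_univ, nsmul_eq_mul]
    have hth : ((q : ℝ) + 1) * ((∑ i, cst ι h i ^ 2) / v) ≤ 1 := by
      rw [hsum]
      refine le_trans ?_ hq
      have h1 : h ^ 2 ≤ (k * r) ^ 2 := by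
        rw [← sq_abs h]
        exact pow_le_pow_left₀ (abs_nonneg h) hh 2
      have h2 : (Fintype.card ι : ℝ) * h ^ 2 / v ≤ Fintype.card ι * (k * r) ^ 2 / v :=
        div_le_div_of_nonneg_right (mul_le_mul_of_nonneg_left h1 (Nat.cast_nonneg _)) hv'.le
      exact mul_le_mul_of_nonneg_left h2 (by positivity)
    have ht := cmd_tail24 hv (cst ι h) q rfl hth
    have hb : ∀ x, Q x * cmd v (cst ι h) x ≤ 2 * Q x + 2 * K * r * (if 2 < cmd v (cst ι h) x then cmd v (cst ι h) x else 0) := by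
      intro x
      have hp := cmd_pos v (cst ι h) x
      split_ifs with h3
      · have h4 := mul_le_mul_of_nonneg_right (hQb x) hp.le
        have h5 := hQ0 x
        linarith
      · push Not at h3
        have h4 := mul_le_mul_of_nonneg_left h3 (hQ0 x)
        linarith
    have hm : Measurable fun x : ι → ℝ => (if 2 < cmd v (cst ι h) x then cmd v (cst ι h) x else 0) := by
      refine Measurable.ite ?_ (measurable_cmd v _) measurable_const
      exact measurableSet_lt measurable_const (measurable_cmd v _)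
    have hi1 : Integrable (fun x : ι → ℝ => (if 2 < cmd v (cst ι h) x then cmd v (cst ι h) x else 0)) (gpi ι v) := by
      refine (integrable_cmd v (cst ι h)).mono' hm.aestronglyMeasurable (ae_of_all _ fun x => ?_)
      rw [Real.norm_eq_abs]
      split_ifs
      · rw [abs_of_pos (cmd_pos v _ x)]
      · rw [abs_zero]
        exact (cmd_pos v _ x).le
    have hi2 : Integrable (fun x => Q x * cmd v (cst ι h) x) (gpi ι v) := by
      refine ((integrable_cmd v (cst ι h)).const_mul (2 * K * r)).mono' (hQm.mul (measurable_cmd v _)).aestronglyMeasurable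
        (ae_of_all _ fun x => ?_)
      rw [Real.norm_eq_abs, abs_of_nonneg (mul_nonneg (hQ0 x) (cmd_pos v _ x).le)]
      exact mul_le_mul_of_nonneg_right (hQb x) (cmd_pos v _ x).le
    have h6 := integral_mono hi2 ((hQI.const_mul 2).add (hi1.const_mul (2 * K * r))) hb
    have e : (fun x => 2 * Q x + 2 * K * r * (if 2 < cmd v (cst ι h) x then cmd v (cst ι h) x else 0)) =
        (fun x => 2 * Q x) + fun x => 2 * K * r * (if 2 < cmd v (cst ι h) x then cmd v (cst ι h) x else 0) := rfl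
    have h7 : ∫ x, (2 * Q x + 2 * K * r * (if 2 < cmd v (cst ι h) x then cmd v (cst ι h) x else 0)) ∂(gpi ι v) =
        2 * D + 2 * K * r * ∫ x, (if 2 < cmd v (cst ι h) x then cmd v (cst ι h) x else 0) ∂(gpi ι v) := by
      rw [integral_add (hQI.const_mul 2) (hi1.const_mul (2 * K * r)), integral_const_mul, integral_const_mul, hD0]
    have h8 : ∫ x, Q x * cmd v (cst ι h) x ∂(gpi ι v) ≤
        2 * D + 2 * K * r * ∫ x, (if 2 < cmd v (cst ι h) x then cmd v (cst ι h) x else 0) ∂(gpi ι v) := by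
      rw [← h7]
      exact h6
    have h9 : 2 * K * r * ∫ x, (if 2 < cmd v (cst ι h) x then cmd v (cst ι h) x else 0) ∂(gpi ι v) ≤
        2 * K * r * (Real.exp (1 / 2) / 2) ^ q := mul_le_mul_of_nonneg_left ht (by positivity)
    linarith
  obtain ⟨B, hB⟩ : ∃ B : ℝ, B = 2 * D + 2 * K * r * (Real.exp (1 / 2) / 2) ^ q := ⟨_, rfl⟩
  rw [← hB] at main
  obtain ⟨g, hg⟩ : ∃ g : ℕ → ℝ, g = fun j : ℕ => φ ((j : ℝ) * r) + φ (-((j : ℝ) * r)) := ⟨_, rfl⟩
  have hkr : (1 : ℝ) ≤ k := by exact_mod_cast hk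
  have s0 : g 1 - g 0 ≤ B := by
    have h1 := main 0 (by rw [abs_zero]; positivity)
    rw [zero_add, zero_sub] at h1
    rw [hg]
    simp only [Nat.cast_one, one_mul, Nat.cast_zero, zero_mul, neg_zero]
    linarith
  have s1 : ∀ j, j + 1 < k → g (j + 2) - 2 * g (j + 1) + g j ≤ 2 * B := by
    intro j hj
    have hj1 : ((j : ℝ) + 1) * r ≤ k * r := mul_le_mul_of_nonneg_right (by exact_mod_cast hj.le) hr
    have hj0 : 0 ≤ ((j : ℝ) + 1) * r := by positivity
    have h1 := main (((j : ℝ) + 1) * r) (by rw [abs_of_nonneg hj0]; exact hj1)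
    have h2 := main (-(((j : ℝ) + 1) * r)) (by rw [abs_neg, abs_of_nonneg hj0]; exact hj1)
    have e1 : ((j : ℝ) + 1) * r + r = ((j + 2 : ℕ) : ℝ) * r := by push_cast; ring
    have e2 : ((j : ℝ) + 1) * r - r = (j : ℝ) * r := by ring
    have e3 : -(((j : ℝ) + 1) * r) + r = -((j : ℝ) * r) := by ring
    have e4 : -(((j : ℝ) + 1) * r) - r = -(((j + 2 : ℕ) : ℝ) * r) := by push_cast; ring
    rw [e1, e2] at h1
    rw [e3, e4] at h2
    rw [hg]
    simp only
    have e5 : ((j + 1 : ℕ) : ℝ) * r = ((j : ℝ) + 1) * r := by push_cast; ring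
    rw [e5]
    linarith
  have s2 := sum_sd24 s0 s1 hk
  rw [hg] at s2
  simp only [Nat.cast_zero, zero_mul, neg_zero] at s2
  have hφr : ∫ x, Φ (x + cst ι r) ∂(gpi ι v) = φ r := by rw [hφ]
  have hφr' : ∫ x, Φ (x + cst ι (-r)) ∂(gpi ι v) = φ (-r) := by rw [hφ]
  have hφk : ∫ x, Φ (x + cst ι (k * r)) ∂(gpi ι v) = φ (k * r) := by rw [hφ]
  have hφk' : ∫ x, Φ (x + cst ι (-(k * r))) ∂(gpi ι v) = φ (-(k * r)) := by rw [hφ]
  rw [hφr, hφr', hφk, hφk', ← hφ0, ← hD, ← hB]
  linarith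

/-- Midpoint convexity of the free energy in the slope. -/
theorem LG_conv24 (m : ℕ) (h u : ℝ) {p : Fin (m + 1) → ℝ} (hp : ∀ k, 0 ≤ p k) (hs : 0 < ∑ k, p k) (ξ : Fin m → ℝ) :
    2 * LG m h p ξ ≤ LG m h p (ξ + cst (Fin m) u) + LG m h p (ξ + cst (Fin m) (-u)) := by
  have hpos : ∀ ζ : Fin m → ℝ, 0 < ∑ k : Fin (m + 1), p k * Real.exp (h * ((k : ℕ) : ℝ) + wk m ζ k) := by
    intro ζ
    obtain ⟨k, -, hk⟩ := Finset.exists_lt_of_sum_lt (s := Finset.univ) (f := fun _ : Fin (m + 1) => (0 : ℝ)) (g := p)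
      (by simpa using hs)
    exact Finset.sum_pos' (fun j _ => mul_nonneg (hp j) (Real.exp_pos _).le)
      ⟨k, Finset.mem_univ k, mul_pos hk (Real.exp_pos _)⟩
  have hcs : (∑ k : Fin (m + 1), p k * Real.exp (h * ((k : ℕ) : ℝ) + wk m ξ k)) ^ 2 ≤
      (∑ k : Fin (m + 1), p k * Real.exp (h * ((k : ℕ) : ℝ) + wk m (ξ + cst (Fin m) u) k)) *
      ∑ k : Fin (m + 1), p k * Real.exp (h * ((k : ℕ) : ℝ) + wk m (ξ + cst (Fin m) (-u)) k) := by
    refine Finset.sum_sq_le_sum_mul_sum_of_sq_le_mul Finset.univ (fun k _ => mul_nonneg (hp k) (Real.exp_pos _).le)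
      (fun k _ => mul_nonneg (hp k) (Real.exp_pos _).le) fun k _ => le_of_eq ?_
    have hk : (k : ℕ) ≤ m := by have := k.2; omega
    rw [wk_add, wk_add, wk_cst m u hk, wk_cst m (-u) hk]
    rw [mul_pow, ← Real.exp_nat_mul, mul_mul_mul_comm, ← Real.exp_add, sq (p k)]
    congr 1
    congr 1
    push_cast
    ring
  unfold LG
  have h1 := Real.log_le_log (pow_pos (hpos ξ) 2) hcs
  rw [Real.log_pow, Real.log_mul (hpos _).ne' (hpos _).ne'] at h1
  exact_mod_cast h1

section random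

variable {Ω : Type*} [MeasurableSpace Ω] {ν : Measure Ω} [IsProbabilityMeasure ν] {m : ℕ} {P : Ω → Fin (m + 1) → ℝ}

/-- **Harnack for `Psi`**: with `D r = Psi r + Psi (- r) - 2 Psi 0`, `D (k r) ≤ k ^ 2 (2 D r + tiny)`. -/
theorem psi24 {v : ℝ≥0} (hv : v ≠ 0) (hP : ∀ k, Measurable fun ω => P ω k) (h0 : ∀ ω k, 0 ≤ P ω k)
    (hs : ∀ ω, 0 < ∑ k, P ω k) {r : ℝ} (hr : 0 ≤ r) {k q : ℕ} (hk : 1 ≤ k) (hq : (q + 1) * (m * (k * r) ^ 2 / v) ≤ 1) :
    Psi ν m v P (k * r) + Psi ν m v P (-(k * r)) - 2 * Psi ν m v P 0 ≤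
      (k : ℝ) ^ 2 * (2 * (Psi ν m v P r + Psi ν m v P (-r) - 2 * Psi ν m v P 0) +
        2 * m * r * (Real.exp (1 / 2) / 2) ^ q) := by
  obtain ⟨Φ, hΦ⟩ : ∃ Φ : (Fin m → ℝ) → ℝ, Φ = fun ξ => ∫ ω, LG m 0 (P ω) ξ ∂ν := ⟨_, rfl⟩
  have hΦm : Measurable Φ := by
    rw [hΦ]
    have h1 : StronglyMeasurable fun z : (Fin m → ℝ) × Ω => LG m 0 (P z.2) z.1 := (measurable_LG hP 0).stronglyMeasurable
    exact (h1.integral_prod_right').measurable
  have hmeas : ∀ ζ : Fin m → ℝ, Measurable fun ω => LG m 0 (P ω) ζ := fun ζ =>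
    (measurable_LG hP 0).comp (measurable_const.prodMk measurable_id)
  have hdi : ∀ ξ ξ' : Fin m → ℝ, Integrable (fun ω => LG m 0 (P ω) ξ - LG m 0 (P ω) ξ') ν := by
    intro ξ ξ'
    refine (integrable_const (∑ i, |ξ i - ξ' i|)).mono' ((hmeas ξ).sub (hmeas ξ')).aestronglyMeasurable
      (ae_of_all _ fun ω => ?_)
    rw [Real.norm_eq_abs]
    exact LG_abs m 0 (h0 ω) (hs ω) ξ ξ'
  have hall : (∀ ξ : Fin m → ℝ, Integrable (fun ω => LG m 0 (P ω) ξ) ν) ∨
      ∀ ξ : Fin m → ℝ, ¬ Integrable (fun ω => LG m 0 (P ω) ξ) ν := by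
    by_cases hI : Integrable (fun ω => LG m 0 (P ω) 0) ν
    · refine Or.inl fun ξ => ?_
      refine ((hdi ξ 0).add hI).congr (ae_of_all _ fun ω => ?_)
      simp
    · refine Or.inr fun ξ hc => hI ?_
      refine ((hc.sub (hdi ξ 0))).congr (ae_of_all _ fun ω => ?_)
      simp
  have hdiff : ∀ ξ ξ', |Φ ξ - Φ ξ'| ≤ ∑ i, |ξ i - ξ' i| := by
    intro ξ ξ'
    rcases hall with hI | hI
    · rw [hΦ]
      simp only
      rw [← integral_sub (hI ξ) (hI ξ')]
      refine abs_integral_le_integral_abs.trans ?_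
      calc ∫ ω, |LG m 0 (P ω) ξ - LG m 0 (P ω) ξ'| ∂ν ≤ ∫ _, ∑ i, |ξ i - ξ' i| ∂ν :=
            integral_mono (hdi ξ ξ').abs (integrable_const _) fun ω => LG_abs m 0 (h0 ω) (hs ω) ξ ξ'
        _ = ∑ i, |ξ i - ξ' i| := by simp
    · rw [hΦ]
      simp only
      rw [integral_undef (hI ξ), integral_undef (hI ξ')]
      simp only [sub_zero, abs_zero]
      exact Finset.sum_nonneg fun i _ => abs_nonneg _
  have hconv : ∀ ξ u, 2 * Φ ξ ≤ Φ (ξ + cst (Fin m) u) + Φ (ξ + cst (Fin m) (-u)) := by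
    intro ξ u
    rcases hall with hI | hI
    · rw [hΦ]
      simp only
      rw [← integral_const_mul, ← integral_add (hI _) (hI _)]
      exact integral_mono ((hI ξ).const_mul 2) ((hI _).add (hI _)) fun ω => LG_conv24 m 0 u (h0 ω) (hs ω) ξ
    · rw [hΦ]
      simp only
      rw [integral_undef (hI _), integral_undef (hI _), integral_undef (hI _)]
      simp
  have hΦi : Integrable Φ (gpi (Fin m) v) := by
    have hc : ∀ i : Fin m, Integrable (fun ξ : Fin m → ℝ => |ξ i|) (gpi (Fin m) v) := by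
      intro i
      have h1 : MeasurePreserving (Function.eval i) (gpi (Fin m) v) (gaussianReal 0 v) :=
        measurePreserving_eval (μ := fun _ : Fin m => gaussianReal 0 v) i
      have h2 : Integrable (fun x : ℝ => x) (gaussianReal 0 v) := by
        have := memLp_id_gaussianReal (μ := 0) (v := v) 1
        exact this.integrable (by simp)
      exact (h1.integrable_comp_of_integrable h2.abs)
    refine ((integrable_const |Φ 0|).add (integrable_finsetSum Finset.univ fun i _ => hc i)).mono'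
      hΦm.aestronglyMeasurable (ae_of_all _ fun ξ => ?_)
    rw [Real.norm_eq_abs]
    have h1 := hdiff ξ 0
    have h2 : |Φ ξ| ≤ |Φ 0| + |Φ ξ - Φ 0| := by
      have := abs_sub_abs_le_abs_sub (Φ ξ) (Φ 0)
      linarith
    simp only [Pi.zero_apply, sub_zero] at h1
    simp only [Pi.add_apply]
    have e3 : (∑ i, fun ξ : Fin m → ℝ => |ξ i|) ξ = ∑ i, |ξ i| := by
      rw [Finset.sum_apply]
    linarith
  have hLip : ∀ x u, |Φ (x + cst (Fin m) u) - Φ x| ≤ m * |u| := by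
    intro x u
    refine (hdiff _ _).trans (le_of_eq ?_)
    have e : ∀ i : Fin m, |(x + cst (Fin m) u) i - x i| = |u| := by
      intro i
      simp [cst]
    simp only [e]
    simp
  have hPsi : ∀ h, Psi ν m v P h = ∫ ξ, Φ (ξ + cst (Fin m) h) ∂(gpi (Fin m) v) := by
    intro h
    unfold Psi
    rw [hΦ]
    refine integral_congr_ae (ae_of_all _ fun ξ => ?_)
    simp only
    refine integral_congr_ae (ae_of_all _ fun ω => ?_)
    exact LG_shift m h (P ω) ξ
  have h00 : Psi ν m v P 0 = ∫ ξ, Φ ξ ∂(gpi (Fin m) v) := by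
    rw [hPsi]
    have e : cst (Fin m) 0 = 0 := rfl
    rw [e]
    simp
  rw [hPsi r, hPsi (-r), hPsi (k * r), hPsi (-(k * r)), h00]
  have hcard : (Fintype.card (Fin m) : ℝ) = m := by simp
  exact harn24 (ι := Fin m) hv hΦm hΦi (K := (m : ℝ)) (by positivity) hLip hconv hr hk (by rw [hcard]; exact hq)

end random

end

end Pool.Agent.W_7d29a1_C1
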