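import Pool.Agent.W_7d29a1_C1.KapR20
import Pool.Agent.W_7d29a1_C1.BrK32

/-!
MP_7d29a1_pr, attractor route, [C1] SEP: **THE FIRST EXITS FROM THE CORE**, killed kernels. (helper62)

* `xf`, `exit62` : a harmonic profile is at most the mass of the paths in the core plus the mass through the FIRST sites off the core;
* `push62` : from the row `a₀` to a later row: off the strip;
* `core62`, `coreP62` : as `core_mass`, `core_Ps` of Kap20 / KapR20, with the first exits only: no site beyond the core by more than one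
  step is read.
-/

set_option autoImplicit false

namespace Pool.Agent.W_7d29a1_C1.Hc62

open Finset
open Pool.Agent.W_7d29a1_C1.K91P (fw bw bw_pos bw_zero bw_succ)
open Pool.Agent.W_7d29a1_C1.U16 (ker ker_zero ker_succ ker_nonneg ker_eq_zero)
open Pool.Agent.W_7d29a1_C1.Sp22 (Har har_bw ker_back kw kw_nn kw_le bf bf_ker bf_zero bf_succ)
open Pool.Agent.W_7d29a1_C1.Cmp71 (ker_nn)
open Pool.Agent.W_7d29a1_C1.Kap20 (vc vc_zero vc_succ vc_nonneg vc_le_bf Cx Ps_eq)
open Pool.Agent.W_7d29a1_C1.Gt66 (Pa Ps en s0 st wg)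

noncomputable section

attribute [local instance 10] Classical.propDecidable

variable {w : ℕ → ℤ → ℝ} {p : ℕ → ℝ} {Co : ℕ → ℤ → Prop} {Fx : ℕ → Finset ℤ} {g : ℕ → ℤ → ℝ}

/-- The sites of the core. -/
def Dc (Co : ℕ → ℤ → Prop) : Set (ℕ × ℤ) := {c | Co c.1 c.2}

/-- Mass through the first sites off the core in the row `i + j`. -/
def xf (w : ℕ → ℤ → ℝ) (p : ℕ → ℝ) (D : Set (ℕ × ℤ)) (Fx : ℕ → Finset ℤ) (g : ℕ → ℤ → ℝ) (i j : ℕ) (x : ℤ) : ℝ :=
  ∑ y ∈ Fx (i + j), ker (kw Dᶜ w) p i j x y * g (i + j) y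

variable {D : Set (ℕ × ℤ)}

theorem xf_nonneg (hw : ∀ k y, 0 < w k y) (hp : ∀ k, 0 < p k) (hg : ∀ k y, 0 ≤ g k y) (i j : ℕ) (x : ℤ) : 0 ≤ xf w p D Fx g i j x :=
  sum_nonneg fun _ _ => mul_nonneg (ker_nn (fun k y => kw_nn (fun k y => (hw k y).le) _ k y) hp _ _ _ _) (hg _ _)

theorem xf_succ (i j : ℕ) (x : ℤ) : xf w p D Fx g i (j + 1) x =
    kw Dᶜ w i x * (xf w p D Fx g (i + 1) j x + p i * xf w p D Fx g (i + 1) j (x + 1)) := by
  unfold xf
  have e : i + (j + 1) = i + 1 + j := by ring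
  rw [e, mul_sum, ← sum_add_distrib, mul_sum]
  refine sum_congr rfl fun y _ => ?_
  rw [ker_back]
  ring

/-- **THE FIRST EXITS.** -/
theorem exit62 (hw : ∀ k y, 0 < w k y) (hp : ∀ k, 0 < p k) {e : ℕ} (hg : ∀ k y, 0 ≤ g k y) (hH : Har w p e g)
    (hF : ∀ r y, Co r y → (¬ Co (r + 1) y → y ∈ Fx (r + 1)) ∧ (¬ Co (r + 1) (y + 1) → y + 1 ∈ Fx (r + 1))) :
    ∀ (n i : ℕ) (x : ℤ), i + n ≤ e → Co i x →
      g i x ≤ vc w p Co (g (i + n)) i n x + ∑ j ∈ range n, xf w p (Dc Co) Fx g i (j + 1) x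
  | 0, i, x, _, _ => by
    rw [vc_zero, Nat.add_zero, range_zero, sum_empty, add_zero]
  | n + 1, i, x, hn, hx => by
    have hpi := hp i
    have hwi := hw i x
    have key : ∀ y : ℤ, (¬ Co (i + 1) y → y ∈ Fx (i + 1)) → g (i + 1) y ≤
        (if Co (i + 1) y then vc w p Co (g (i + (n + 1))) (i + 1) n y else 0) + ∑ j ∈ range (n + 1), xf w p (Dc Co) Fx g (i + 1) j y := by
      intro y hy
      rw [sum_range_succ']
      by_cases hc : Co (i + 1) y
      · rw [if_pos hc]
        have h3 := exit62 hw hp hg hH hF n (i + 1) y (by omega) hc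
        have e1 : i + 1 + n = i + (n + 1) := by ring
        rw [e1] at h3
        have h4 := xf_nonneg (D := Dc Co) (Fx := Fx) hw hp hg (i + 1) 0 y
        linarith
      · rw [if_neg hc, zero_add]
        have h4 : 0 ≤ ∑ j ∈ range n, xf w p (Dc Co) Fx g (i + 1) (j + 1) y := sum_nonneg fun j _ => xf_nonneg hw hp hg _ _ _
        have h5 : g (i + 1) y ≤ xf w p (Dc Co) Fx g (i + 1) 0 y := by
          unfold xf
          have h6 := single_le_sum (f := fun z => ker (kw (Dc Co)ᶜ w) p (i + 1) 0 y z * g (i + 1 + 0) z) (fun z _ =>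
            mul_nonneg (ker_nn (fun k y => kw_nn (fun k y => (hw k y).le) _ k y) hp _ _ _ _) (hg _ _))
            (show y ∈ Fx (i + 1 + 0) from hy hc)
          have e1 : ker (kw (Dc Co)ᶜ w) p (i + 1) 0 y y = 1 := by rw [ker_zero, if_pos rfl]
          rw [e1, one_mul] at h6
          exact h6
        linarith
    have k1 := key x (hF i x hx).1
    have k2 := key (x + 1) (hF i x hx).2
    rw [hH i (by omega) x, vc_succ]
    simp only [xf_succ]
    have e3 : kw (Dc Co)ᶜ w i x = w i x := by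
      unfold kw
      exact if_neg fun h => h hx
    rw [← mul_sum, sum_add_distrib, ← mul_sum, e3, ← mul_add]
    refine mul_le_mul_of_nonneg_left ?_ hwi.le
    nlinarith [mul_le_mul_of_nonneg_left k2 hpi.le]

/-! ### Off the strip at a later row -/

theorem bf_add62 (f : ℤ → ℝ) (n : ℕ) : ∀ (m k : ℕ) (y : ℤ), bf w p f k (m + n) y = bf w p (bf w p f (k + m) n) k m y
  | 0, k, y => by
    rw [bf_zero, Nat.zero_add, Nat.add_zero]
  | m + 1, k, y => by
    have e : m + 1 + n = (m + n) + 1 := by ring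
    have e2 : k + (m + 1) = k + 1 + m := by ring
    rw [e, bf_succ, bf_succ, e2, bf_add62 f n m (k + 1) y, bf_add62 f n m (k + 1) (y + 1)]

/-- The masses in the core end in the core. -/
theorem vc_in {G : ℤ → ℝ} : ∀ (n i : ℕ) (x : ℤ), Co i x → vc w p Co G i n x = vc w p Co (fun y => if Co (i + n) y then G y else 0) i n x
  | 0, i, x, hx => by
    rw [vc_zero, vc_zero, Nat.add_zero, if_pos hx]
  | n + 1, i, x, _ => by
    have e : i + (n + 1) = i + 1 + n := by ring
    have key : ∀ z, Co (i + 1) z → vc w p Co G (i + 1) n z = vc w p Co (fun y => if Co (i + (n + 1)) y then G y else 0) (i + 1) n z :=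
      fun z hz => by rw [vc_in n (i + 1) z hz, e]
    rw [vc_succ, vc_succ]
    congr 2
    · split_ifs with h
      · exact key x h
      · rfl
    · congr 1
      split_ifs with h
      · exact key (x + 1) h
      · rfl

theorem bf_add_fun {f f' : ℤ → ℝ} (i n : ℕ) (x : ℤ) : bf w p (fun y => f y + f' y) i n x = bf w p f i n x + bf w p f' i n x := by
  rw [bf_ker, bf_ker, bf_ker, ← sum_add_distrib]
  exact sum_congr rfl fun y _ => by ring

/-- Off the strip at the row `i + n`: at most the first exits. -/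
theorem off62 (hw : ∀ k y, 0 < w k y) (hp : ∀ k, 0 < p k) {N : ℕ}
    (hF : ∀ r y, Co r y → (¬ Co (r + 1) y → y ∈ Fx (r + 1)) ∧ (¬ Co (r + 1) (y + 1) → y + 1 ∈ Fx (r + 1))) {n i : ℕ} {x : ℤ}
    (hn : i + n ≤ N) (hx : Co i x) :
    bf w p (fun y => if Co (i + n) y then 0 else bw w p (i + n) (N - (i + n)) y) i n x ≤
      ∑ j ∈ range n, xf w p (Dc Co) Fx (fun i y => bw w p i (N - i) y) i (j + 1) x := by
  have h1 := exit62 (Co := Co) (Fx := Fx) hw hp (g := fun i y => bw w p i (N - i) y)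
    (fun k y => (bw_pos hw hp _ _ _).le) (har_bw w p N) hF n i x hn hx
  rw [vc_in n i x hx] at h1
  have h2 := vc_le_bf (Co := Co) (G := fun y => if Co (i + n) y then bw w p (i + n) (N - (i + n)) y else 0) hw hp (fun y => by
    show 0 ≤ (if Co (i + n) y then bw w p (i + n) (N - (i + n)) y else 0)
    split_ifs
    · exact (bw_pos hw hp _ _ _).le
    · exact le_rfl) n i x
  have h3 := bf_add_fun (w := w) (p := p) (f := fun y => if Co (i + n) y then bw w p (i + n) (N - (i + n)) y else 0)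
    (f' := fun y => if Co (i + n) y then 0 else bw w p (i + n) (N - (i + n)) y) i n x
  have h4 : (fun y => (if Co (i + n) y then bw w p (i + n) (N - (i + n)) y else 0) + if Co (i + n) y then 0 else bw w p (i + n) (N - (i + n)) y) =
      fun y => bw w p (i + n) (N - (i + n)) y := by
    funext y
    split_ifs
    · rw [add_zero]
    · rw [zero_add]
  rw [h4] at h3
  have h5 : bf w p (fun y => bw w p (i + n) (N - (i + n)) y) i n x = bw w p i (N - i) x := by
    have h6 := U16.bw_ker (w := w) (p := p) i n (N - (i + n)) x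
    rw [bf_ker]
    have e : n + (N - (i + n)) = N - i := by omega
    rw [e] at h6
    exact h6.symm
  rw [h5] at h3
  linarith

/-- **OFF THE STRIP AT A LATER ROW**, for a contact. -/
theorem push62 (hw : ∀ k y, 0 < w k y) (hp : ∀ k, 0 < p k) {N k a n : ℕ} (ha : k ≤ a) (hn : a + n ≤ N) {q : ℤ} (C0 : Finset ℤ)
    (hC0 : ∀ x ∈ C0, Co a x)
    (hF : ∀ r y, Co r y → (¬ Co (r + 1) y → y ∈ Fx (r + 1)) ∧ (¬ Co (r + 1) (y + 1) → y + 1 ∈ Fx (r + 1))) {e1 e2 : ℝ}
    (h1 : ∑ x ∈ (Icc q (q + (a - k : ℕ))).filter (fun x => x ∉ C0), ker w p k (a - k) q x * bw w p a (N - a) x ≤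
      e1 * bw w p k (N - k) q)
    (h2 : ∀ x ∈ C0, ∑ j ∈ range n, xf w p (Dc Co) Fx (fun i y => bw w p i (N - i) y) a (j + 1) x ≤ e2 * bw w p a (N - a) x)
    (he2 : 0 ≤ e2) :
    ∑ x ∈ (Icc q (q + (a + n - k : ℕ))).filter (fun x => ¬ Co (a + n) x), ker w p k (a + n - k) q x * bw w p (a + n) (N - (a + n)) x ≤
      (e1 + e2) * bw w p k (N - k) q := by
  have hk0 : ∀ x, 0 ≤ ker w p k (a - k) q x := fun x => ker_nonneg hw hp _ _ q x
  have hB0 : ∀ x, 0 < bw w p a (N - a) x := fun x => bw_pos hw hp _ _ x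
  obtain ⟨f, hf⟩ : ∃ f : ℤ → ℝ, f = fun y => if Co (a + n) y then 0 else bw w p (a + n) (N - (a + n)) y := ⟨_, rfl⟩
  have e0 : a + n - k = (a - k) + n := by omega
  have ez : bw w p k (N - k) q = ∑ x ∈ Icc q (q + (a - k : ℕ)), ker w p k (a - k) q x * bw w p a (N - a) x := by
    have := U16.bw_ker (w := w) (p := p) k (a - k) (N - a) q
    rw [show N - k = (a - k) + (N - a) by omega, this, show k + (a - k) = a by omega]
  have l1 : ∑ x ∈ (Icc q (q + (a + n - k : ℕ))).filter (fun x => ¬ Co (a + n) x), ker w p k (a + n - k) q x *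
      bw w p (a + n) (N - (a + n)) x = bf w p f k (a + n - k) q := by
    rw [bf_ker, sum_filter, hf]
    refine sum_congr rfl fun x _ => ?_
    by_cases h : Co (a + n) x
    · simp [h]
    · simp [h]
  rw [l1, e0, bf_add62, show k + (a - k) = a by omega, bf_ker]
  have hz1 : ∀ z ∈ C0, bf w p f a n z ≤ e2 * bw w p a (N - a) z := fun z hz => by
    rw [hf]
    exact (off62 hw hp hF hn (hC0 z hz)).trans (h2 z hz)
  have hz2 : ∀ z, bf w p f a n z ≤ bw w p a (N - a) z := fun z => by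
    have h6 := U16.bw_ker (w := w) (p := p) a n (N - (a + n)) z
    rw [show n + (N - (a + n)) = N - a by omega] at h6
    rw [h6, bf_ker, hf]
    refine sum_le_sum fun y _ => mul_le_mul_of_nonneg_left ?_ (ker_nonneg hw hp _ _ _ _)
    show (if Co (a + n) y then 0 else bw w p (a + n) (N - (a + n)) y) ≤ _
    split_ifs
    · exact (bw_pos hw hp _ _ _).le
    · exact le_rfl
  have hsplit := sum_filter_add_sum_filter_not (Icc q (q + (a - k : ℕ))) (fun x => x ∈ C0)
    (fun x => ker w p k (a - k) q x * bf w p f a n x)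
  rw [← hsplit]
  have g1 : ∑ x ∈ (Icc q (q + (a - k : ℕ))).filter (fun x => x ∈ C0), ker w p k (a - k) q x * bf w p f a n x ≤
      e2 * bw w p k (N - k) q := by
    rw [ez, mul_sum]
    refine (sum_le_sum fun x hx => ?_).trans (sum_le_sum_of_subset_of_nonneg (filter_subset _ _) fun x _ _ =>
      mul_nonneg he2 (mul_nonneg (hk0 x) (hB0 x).le))
    have := mul_le_mul_of_nonneg_left (hz1 x (mem_filter.1 hx).2) (hk0 x)
    linarith
  have g2 : ∑ x ∈ (Icc q (q + (a - k : ℕ))).filter (fun x => ¬ x ∈ C0), ker w p k (a - k) q x * bf w p f a n x ≤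
      e1 * bw w p k (N - k) q :=
    (sum_le_sum fun x _ => mul_le_mul_of_nonneg_left (hz2 x) (hk0 x)).trans h1
  linarith

/-- **THE CONTACT STAYS IN THE CORE.** `q` = its site (row `k`), `C0` = the inner core at the row `a`. -/
theorem core62 (hw : ∀ k y, 0 < w k y) (hp : ∀ k, 0 < p k) {N k a n : ℕ} (ha : k ≤ a) (hn : a + n ≤ N) {q : ℤ} (C0 : Finset ℤ)
    (hC0 : ∀ x ∈ C0, Co a x)
    (hF : ∀ r y, Co r y → (¬ Co (r + 1) y → y ∈ Fx (r + 1)) ∧ (¬ Co (r + 1) (y + 1) → y + 1 ∈ Fx (r + 1))) {e1 e2 : ℝ}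
    (h1 : ∑ x ∈ (Icc q (q + (a - k : ℕ))).filter (fun x => x ∉ C0), ker w p k (a - k) q x * bw w p a (N - a) x ≤
      e1 * bw w p k (N - k) q)
    (h2 : ∀ x ∈ C0, ∑ j ∈ range n, xf w p (Dc Co) Fx (fun i y => bw w p i (N - i) y) a (j + 1) x ≤ e2 * bw w p a (N - a) x)
    (he2 : 0 ≤ e2) :
    (1 - e1 - e2) * bw w p k (N - k) q ≤
      ∑ x ∈ C0, ker w p k (a - k) q x * vc w p Co (fun y => bw w p (a + n) (N - (a + n)) y) a n x := by
  have hk0 : ∀ x, 0 ≤ ker w p k (a - k) q x := fun x => ker_nonneg hw hp _ _ q x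
  have hB0 : ∀ x, 0 < bw w p a (N - a) x := fun x => bw_pos hw hp _ _ x
  have e0 : N - k = (a - k) + (N - a) := by omega
  have ez : bw w p k (N - k) q = ∑ x ∈ Icc q (q + (a - k : ℕ)), ker w p k (a - k) q x * bw w p a (N - a) x := by
    have := U16.bw_ker (w := w) (p := p) k (a - k) (N - a) q
    rw [e0, this, show k + (a - k) = a by omega]
  have hV : ∀ x ∈ C0, (1 - e2) * bw w p a (N - a) x ≤ vc w p Co (fun y => bw w p (a + n) (N - (a + n)) y) a n x := by
    intro x hx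
    have h3 := exit62 (Co := Co) (Fx := Fx) hw hp (g := fun i y => bw w p i (N - i) y)
      (fun k y => (bw_pos hw hp _ _ _).le) (har_bw w p N) hF n a x hn (hC0 x hx)
    have h4 := h2 x hx
    have h5 : bw w p a (N - a) x ≤ vc w p Co (fun y => bw w p (a + n) (N - (a + n)) y) a n x + e2 * bw w p a (N - a) x :=
      h3.trans (add_le_add le_rfl h4)
    linarith
  have hin : ∑ x ∈ (Icc q (q + (a - k : ℕ))).filter (fun x => x ∈ C0), ker w p k (a - k) q x * bw w p a (N - a) x ≤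
      ∑ x ∈ C0, ker w p k (a - k) q x * bw w p a (N - a) x :=
    sum_le_sum_of_subset_of_nonneg (fun x hx => (mem_filter.1 hx).2) fun x _ _ => mul_nonneg (hk0 x) (hB0 x).le
  have hout : ∑ x ∈ C0, ker w p k (a - k) q x * bw w p a (N - a) x ≤
      ∑ x ∈ (Icc q (q + (a - k : ℕ))).filter (fun x => x ∈ C0), ker w p k (a - k) q x * bw w p a (N - a) x := by
    have e3 : ∑ x ∈ C0, ker w p k (a - k) q x * bw w p a (N - a) x =
        ∑ x ∈ C0.filter (fun x => x ∈ Icc q (q + (a - k : ℕ))), ker w p k (a - k) q x * bw w p a (N - a) x := by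
      rw [sum_filter]
      refine sum_congr rfl fun x _ => ?_
      split_ifs with hc
      · rfl
      · rw [ker_eq_zero k (a - k) q x (fun h => hc (mem_Icc.2 h)), zero_mul]
    rw [e3]
    refine sum_le_sum_of_subset_of_nonneg (fun x hx => ?_) fun x _ _ => mul_nonneg (hk0 x) (hB0 x).le
    rw [mem_filter] at hx ⊢
    exact ⟨hx.2, hx.1⟩
  have hsplit := sum_filter_add_sum_filter_not (Icc q (q + (a - k : ℕ))) (fun x => x ∈ C0)
    (fun x => ker w p k (a - k) q x * bw w p a (N - a) x)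
  rw [← ez] at hsplit
  have hA : (1 - e1) * bw w p k (N - k) q ≤ ∑ x ∈ C0, ker w p k (a - k) q x * bw w p a (N - a) x := by linarith
  have hle : ∑ x ∈ C0, ker w p k (a - k) q x * bw w p a (N - a) x ≤ bw w p k (N - k) q := by
    refine hout.trans ?_
    rw [← hsplit]
    have : 0 ≤ ∑ x ∈ (Icc q (q + (a - k : ℕ))).filter (fun x => ¬ x ∈ C0), ker w p k (a - k) q x * bw w p a (N - a) x :=
      sum_nonneg fun x _ => mul_nonneg (hk0 x) (hB0 x).le
    linarith
  calc (1 - e1 - e2) * bw w p k (N - k) q = (1 - e1) * bw w p k (N - k) q - e2 * bw w p k (N - k) q := by ring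
    _ ≤ ∑ x ∈ C0, ker w p k (a - k) q x * bw w p a (N - a) x - e2 * ∑ x ∈ C0, ker w p k (a - k) q x * bw w p a (N - a) x := by
        have := mul_le_mul_of_nonneg_left hle he2
        linarith
    _ = ∑ x ∈ C0, ker w p k (a - k) q x * ((1 - e2) * bw w p a (N - a) x) := by
        rw [mul_sum, ← sum_sub_distrib]
        exact sum_congr rfl fun x _ => by ring
    _ ≤ _ := sum_le_sum fun x hx => mul_le_mul_of_nonneg_left (hV x hx) (hk0 x)

/-- **THE CORE PATHS OF THE CONTACT** carry almost all of its mass: `C 0` = the inner core, `C r` (`1 ≤ r`) = the core; `Co` = the core at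
the true rows, also in the row `a`. -/
theorem coreP62 (hw : ∀ k y, 0 < w k y) (hp : ∀ k, 0 < p k) {N k a n : ℕ} (ha : k ≤ a) (hn : a + n ≤ N) {q : ℤ} {C : ℕ → ℤ → Prop}
    {C0 : Finset ℤ} (hC : ∀ y, C 0 y ↔ y ∈ C0) (hCC : ∀ r y, 1 ≤ r → (C r y ↔ Co (a + r) y)) {I : Finset ℤ}
    (hI : Icc q (q + (a - k : ℕ)) ⊆ I) (hC0 : ∀ x ∈ C0, Co a x)
    (hF : ∀ r y, Co r y → (¬ Co (r + 1) y → y ∈ Fx (r + 1)) ∧ (¬ Co (r + 1) (y + 1) → y + 1 ∈ Fx (r + 1))) {e1 e2 : ℝ}
    (h1 : ∑ x ∈ (Icc q (q + (a - k : ℕ))).filter (fun x => x ∉ C0), ker w p k (a - k) q x * bw w p a (N - a) x ≤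
      e1 * bw w p k (N - k) q)
    (h2 : ∀ x ∈ C0, ∑ j ∈ range n, xf w p (Dc Co) Fx (fun i y => bw w p i (N - i) y) a (j + 1) x ≤ e2 * bw w p a (N - a) x)
    (he2 : 0 ≤ e2) :
    (1 - e1 - e2) * bw w p k (N - k) q ≤ ∑ π ∈ Ps C I n, ker w p k (a - k) q (s0 π) * wg w p a π *
      bw w p (a + n) (N - (a + n)) (en π) := by
  have h3 := core62 (Co := Co) (Fx := Fx) hw hp ha hn C0 hC0 hF h1 h2 he2
  have hv : ∀ (m i : ℕ) (x : ℤ), a ≤ i → vc w p (Cx a C) (fun y => bw w p (a + n) (N - (a + n)) y) i m x =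
      vc w p Co (fun y => bw w p (a + n) (N - (a + n)) y) i m x := by
    intro m
    induction m with
    | zero =>
      intro i x _
      rw [vc_zero, vc_zero]
    | succ m ih =>
      intro i x hi
      rw [vc_succ, vc_succ]
      have e5 : ∀ y, Cx a C (i + 1) y ↔ Co (i + 1) y := fun y => by
        unfold Cx
        rw [hCC (i + 1 - a) y (by omega), show a + (i + 1 - a) = i + 1 by omega]
      simp only [e5, ih (i + 1) _ (by omega)]
  refine h3.trans ?_
  rw [Ps_eq (fun y => ker w p k (a - k) q y) (fun y => bw w p (a + n) (N - (a + n)) y)]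
  have h0 : ∀ x, 0 ≤ ker w p k (a - k) q x * vc w p (Cx a C) (fun y => bw w p (a + n) (N - (a + n)) y) a n x := fun x =>
    mul_nonneg (ker_nonneg hw hp _ _ _ _) (vc_nonneg hw hp (fun y => (bw_pos hw hp _ _ _).le) n a x)
  rw [← sum_filter]
  have e4 : ∑ x ∈ C0, ker w p k (a - k) q x * vc w p Co (fun y => bw w p (a + n) (N - (a + n)) y) a n x =
      ∑ x ∈ C0.filter (fun x => x ∈ Icc q (q + (a - k : ℕ))), ker w p k (a - k) q x *
        vc w p (Cx a C) (fun y => bw w p (a + n) (N - (a + n)) y) a n x := by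
    rw [sum_filter]
    refine sum_congr rfl fun x _ => ?_
    split_ifs with h
    · rw [hv n a x le_rfl]
    · rw [ker_eq_zero k (a - k) q x (fun h' => h (mem_Icc.2 h')), zero_mul]
  rw [e4]
  refine sum_le_sum_of_subset_of_nonneg (fun x hx => ?_) fun x _ _ => h0 x
  rw [mem_filter] at hx ⊢
  exact ⟨hI hx.2, (hC x).2 hx.1⟩

end

end Pool.Agent.W_7d29a1_C1.Hc62
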