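import Pool.Agent.W_7d29a1_C1.FkgO10
import Pool.Agent.W_7d29a1_C1.CtxM68

/-!
MP_7d29a1_pr, attractor route, the shell (helper10): the lane weight. `cz O w` is the weight `w` with the sites of `O` set to zero,
`wl O c` is the natural weight of the contact `c` (helper60, helper68) with the numerator computed from `cz O` (the masses in the
denominator are the full ones). It is nonnegative, at most the natural weight, nonincreasing in the sites of `O`, hence (`FkgO10`)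
positively correlated with every event decreasing in the sites of `O` when the rest is frozen.
-/

set_option autoImplicit false

namespace Pool.Agent.W_7d29a1_C1.H10

open MeasureTheory ProbabilityTheory Filter Topology
open Pool.Agent.W_7d29a1_F Pool.Agent.W_7d29a1_h4g Pool.Agent.W_7d29a1_H Pool.Agent.W_7d29a1_HS
open Pool.Agent.W_7d29a1_HR (Dec Fin')
open Pool.Agent.W_7d29a1_C1.S71
open Pool.Agent.W_7d29a1_C1.F31
open Pool.Agent.W_7d29a1_C1.K91 (Box Grp wt wt_pos measurable_wt)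
open Pool.Agent.W_7d29a1_C1.K91P
open Pool.Agent.W_7d29a1_C1.H60
open scoped ENNReal

noncomputable section

/-! ### Monotonicity of the masses -/

section mono

variable {w w' : ℕ → ℤ → ℝ} {p : ℕ → ℝ} {l r : ℤ → ℝ} {X : ℤ}

theorem fw_nonneg10 (hw : ∀ k y, 0 ≤ w k y) (hp : ∀ k, 0 < p k) (hl : ∀ y, 0 ≤ l y) : ∀ k y, 0 ≤ fw w p l k y
  | 0, y => hl y
  | k + 1, y => by
    have h1 := fw_nonneg10 hw hp hl k y
    have h2 := fw_nonneg10 hw hp hl k (y - 1)
    have h3 := hw k y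
    have h4 := hw k (y - 1)
    have h5 := hp k
    rw [fw_succ]
    positivity

theorem bw_nonneg10 (hw : ∀ k y, 0 ≤ w k y) (hp : ∀ k, 0 < p k) : ∀ (j k : ℕ) (y : ℤ), 0 ≤ bw w p k j y
  | 0, k, y => by rw [bw_zero]; exact zero_le_one
  | j + 1, k, y => by
    have h1 := bw_nonneg10 hw hp j (k + 1) y
    have h2 := bw_nonneg10 hw hp j (k + 1) (y + 1)
    have h3 := hw k y
    have h5 := hp k
    rw [bw_succ]
    positivity

theorem fw_mono10 (hw : ∀ k y, 0 ≤ w k y) (hw' : ∀ k y, w k y ≤ w' k y) (hp : ∀ k, 0 < p k) (hl : ∀ y, 0 ≤ l y) :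
    ∀ k y, fw w p l k y ≤ fw w' p l k y
  | 0, y => le_rfl
  | k + 1, y => by
    have h1 := fw_mono10 hw hw' hp hl k y
    have h2 := fw_mono10 hw hw' hp hl k (y - 1)
    have g1 := fw_nonneg10 hw hp hl k y
    have g2 := fw_nonneg10 hw hp hl k (y - 1)
    rw [fw_succ, fw_succ]
    exact add_le_add (mul_le_mul (hw' k y) h1 g1 ((hw k y).trans (hw' k y)))
      (mul_le_mul_of_nonneg_left (mul_le_mul (hw' k (y - 1)) h2 g2 ((hw k (y - 1)).trans (hw' k (y - 1)))) (hp k).le)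

theorem bw_mono10 (hw : ∀ k y, 0 ≤ w k y) (hw' : ∀ k y, w k y ≤ w' k y) (hp : ∀ k, 0 < p k) :
    ∀ (j k : ℕ) (y : ℤ), bw w p k j y ≤ bw w' p k j y
  | 0, k, y => by rw [bw_zero, bw_zero]
  | j + 1, k, y => by
    have h1 := bw_mono10 hw hw' hp j (k + 1) y
    have h2 := bw_mono10 hw hw' hp j (k + 1) (y + 1)
    have g1 := bw_nonneg10 hw hp j (k + 1) y
    have g2 := bw_nonneg10 hw hp j (k + 1) (y + 1)
    have h5 := (hp k).le
    rw [bw_succ, bw_succ]
    exact mul_le_mul (hw' k y) (add_le_add h1 (mul_le_mul_of_nonneg_left h2 h5)) (add_nonneg g1 (mul_nonneg h5 g2))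
      ((hw k y).trans (hw' k y))

/-- The determinants at the row `0`. -/
theorem dp0_10 (h : Grp l r X) {x y : ℤ} (hxy : x ≤ y) : 0 ≤ l x * r y - l y * r x := by
  by_cases hy : X ≤ y
  · by_cases hx : X ≤ x
    · rw [h.lX x hx, h.lX y hy]
      simp
    · rw [h.lX y hy, zero_mul, sub_zero]
      exact mul_nonneg (h.l0 x) (h.r0 y)
  · rw [h.rX x (by omega), mul_zero, sub_zero]
    exact mul_nonneg (h.l0 x) (h.r0 y)

/-- **LGV**, nonnegative weights. -/
theorem dp_nonneg10 (hw : ∀ k y, 0 ≤ w k y) (hp : ∀ k, 0 < p k) (h : Grp l r X) :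
    ∀ (k : ℕ) (x y : ℤ), x ≤ y → 0 ≤ dp w p l r k x y
  | 0, x, y, hxy => dp0_10 h hxy
  | k + 1, x, y, hxy => by
    rcases eq_or_lt_of_le hxy with h1 | h1
    · rw [h1, dp_self]
    · have a1 := dp_nonneg10 hw hp h k x y hxy
      have a2 := dp_nonneg10 hw hp h k (x - 1) y (by omega)
      have a3 := dp_nonneg10 hw hp h k x (y - 1) (by omega)
      have a4 := dp_nonneg10 hw hp h k (x - 1) (y - 1) (by omega)
      have b1 := hw k x
      have b2 := hw k y
      have b3 := hw k (x - 1)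
      have b4 := hw k (y - 1)
      have hpk := hp k
      rw [dp_succ]
      positivity

/-- **The determinants are nondecreasing in the weights.** -/
theorem dp_mono10 (hw : ∀ k y, 0 ≤ w k y) (hw' : ∀ k y, w k y ≤ w' k y) (hp : ∀ k, 0 < p k) (h : Grp l r X) :
    ∀ (k : ℕ) (x y : ℤ), x ≤ y → dp w p l r k x y ≤ dp w' p l r k x y
  | 0, x, y, hxy => le_rfl
  | k + 1, x, y, hxy => by
    rcases eq_or_lt_of_le hxy with h1 | h1
    · rw [h1, dp_self, dp_self]
    · have key : ∀ x y : ℤ, x ≤ y → w k x * w k y * dp w p l r k x y ≤ w' k x * w' k y * dp w' p l r k x y := fun x y hxy =>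
        mul_le_mul (mul_le_mul (hw' k x) (hw' k y) (hw k y) ((hw k x).trans (hw' k x)))
          (dp_mono10 hw hw' hp h k x y hxy) (dp_nonneg10 hw hp h k x y hxy)
          (mul_nonneg ((hw k x).trans (hw' k x)) ((hw k y).trans (hw' k y)))
      have hpk := (hp k).le
      rw [dp_succ, dp_succ]
      exact add_le_add (add_le_add (add_le_add (key x y hxy)
        (mul_le_mul_of_nonneg_left (key (x - 1) y (by omega)) hpk))
        (mul_le_mul_of_nonneg_left (key x (y - 1) (by omega)) hpk))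
        (mul_le_mul_of_nonneg_left (key (x - 1) (y - 1) (by omega)) (pow_nonneg hpk 2))

/-- The numerator of the natural weight. -/
def nu (w : ℕ → ℤ → ℝ) (p : ℕ → ℝ) (l r : ℤ → ℝ) (N : ℕ) (c : ℕ × ℤ) : ℝ :=
  dp w p l r c.1 (c.2 - 1) c.2 * (p c.1 * (w c.1 (c.2 - 1) * w c.1 c.2) * bw w p (c.1 + 1) (N - (c.1 + 1)) c.2 ^ 2)

theorem nu_nonneg (hw : ∀ k y, 0 ≤ w k y) (hp : ∀ k, 0 < p k) (h : Grp l r X) (N : ℕ) (c : ℕ × ℤ) : 0 ≤ nu w p l r N c := by
  have h1 := dp_nonneg10 hw hp h c.1 (c.2 - 1) c.2 (by omega)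
  have h2 := hw c.1 (c.2 - 1)
  have h3 := hw c.1 c.2
  have h4 := hp c.1
  unfold nu
  positivity

theorem nu_mono (hw : ∀ k y, 0 ≤ w k y) (hw' : ∀ k y, w k y ≤ w' k y) (hp : ∀ k, 0 < p k) (h : Grp l r X) (N : ℕ)
    (c : ℕ × ℤ) : nu w p l r N c ≤ nu w' p l r N c := by
  have h2 := hw c.1 (c.2 - 1)
  have h3 := hw c.1 c.2
  have h4 := (hp c.1).le
  have g2 := h2.trans (hw' c.1 (c.2 - 1))
  have g3 := h3.trans (hw' c.1 c.2)
  have b := bw_nonneg10 hw hp (N - (c.1 + 1)) (c.1 + 1) c.2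
  unfold nu
  refine mul_le_mul (dp_mono10 hw hw' hp h c.1 (c.2 - 1) c.2 (by omega)) ?_ (by positivity)
    ((dp_nonneg10 hw hp h c.1 (c.2 - 1) c.2 (by omega)).trans (dp_mono10 hw hw' hp h c.1 (c.2 - 1) c.2 (by omega)))
  refine mul_le_mul (mul_le_mul_of_nonneg_left (mul_le_mul (hw' c.1 (c.2 - 1)) (hw' c.1 c.2) h3 g2) h4)
    (pow_le_pow_left₀ b (bw_mono10 hw hw' hp _ _ _) 2) (by positivity) (by positivity)

end mono

/-! ### The weights with a set of sites set to zero -/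

open scoped Classical in
/-- The weight `w` with the sites of `O` set to zero. -/
def cz (O : Set Pt) (w : ℕ → ℤ → ℝ) (k : ℕ) (y : ℤ) : ℝ := if ((k : ℤ), y) ∈ O then 0 else w k y

theorem cz_mem {O : Set Pt} {w : ℕ → ℤ → ℝ} {k : ℕ} {y : ℤ} (h : ((k : ℤ), y) ∈ O) : cz O w k y = 0 := if_pos h

theorem cz_not {O : Set Pt} {w : ℕ → ℤ → ℝ} {k : ℕ} {y : ℤ} (h : ((k : ℤ), y) ∉ O) : cz O w k y = w k y := if_neg h

theorem cz_nonneg (O : Set Pt) {w : ℕ → ℤ → ℝ} (hw : ∀ k y, 0 ≤ w k y) (k : ℕ) (y : ℤ) : 0 ≤ cz O w k y := by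
  unfold cz
  split_ifs
  · exact le_rfl
  · exact hw k y

theorem cz_le (O : Set Pt) {w : ℕ → ℤ → ℝ} (hw : ∀ k y, 0 ≤ w k y) (k : ℕ) (y : ℤ) : cz O w k y ≤ w k y := by
  unfold cz
  split_ifs
  · exact hw k y
  · exact le_rfl

theorem cz_anti {O O' : Set Pt} (hO : O ⊆ O') {w : ℕ → ℤ → ℝ} (hw : ∀ k y, 0 ≤ w k y) (k : ℕ) (y : ℤ) :
    cz O' w k y ≤ cz O w k y := by
  by_cases h : ((k : ℤ), y) ∈ O'
  · rw [cz_mem h]
    exact cz_nonneg O hw k y
  · rw [cz_not h, cz_not fun h1 => h (hO h1)]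

theorem wt_congr10 {η η' : Env} {k : ℕ} {y : ℤ} (h : η ((k : ℤ), y) = η' ((k : ℤ), y)) : wt η k y = wt η' k y := by
  unfold wt
  rw [h]

theorem wt_le10 {η η' : Env} (h : ∀ p, η p ≤ η' p) (k : ℕ) (y : ℤ) : wt η k y ≤ wt η' k y := by
  unfold wt
  split_ifs
  · exact le_rfl
  · exact Real.exp_le_exp.2 (h _)

/-- The weights with `O'` set to zero do not read the sites of `O ⊆ O'`. -/
theorem cz_congr {O O' : Set Pt} (hO : O ⊆ O') {η η' : Env} (h : ∀ p, p ∉ O → η p = η' p) : cz O' (wt η) = cz O' (wt η') := by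
  funext k y
  by_cases h1 : ((k : ℤ), y) ∈ O'
  · rw [cz_mem h1, cz_mem h1]
  · rw [cz_not h1, cz_not h1]
    exact wt_congr10 (h _ fun h2 => h1 (hO h2))

theorem measurable_cz (O : Set Pt) (k : ℕ) (y : ℤ) : Measurable fun η : Env => cz O (wt η) k y := by
  by_cases h : ((k : ℤ), y) ∈ O
  · have e : (fun η : Env => cz O (wt η) k y) = fun _ => (0 : ℝ) := funext fun η => cz_mem h
    rw [e]
    exact measurable_const
  · have e : (fun η : Env => cz O (wt η) k y) = fun η => wt η k y := funext fun η => cz_not h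
    rw [e]
    exact measurable_wt k y

/-! ### The lane weight -/

variable {Γ : Cx} {O O' B : Set Pt}

theorem w_eq_nu (Γ : Cx) (c : ℕ × ℤ) (η : Env) : Γ.w c η = nu (wt η) Γ.p Cx.l Γ.r Γ.N c / (Γ.ZM η * Γ.ZR η) := rfl

/-- **The lane weight**: the numerator is computed with the sites of `O` set to zero. -/
def wl (Γ : Cx) (O : Set Pt) (c : ℕ × ℤ) (η : Env) : ℝ := nu (cz O (wt η)) Γ.p Cx.l Γ.r Γ.N c / (Γ.ZM η * Γ.ZR η)

theorem wl_nonneg (h : Γ.Ok) (O : Set Pt) (c : ℕ × ℤ) (η : Env) : 0 ≤ wl Γ O c η :=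
  div_nonneg (nu_nonneg (cz_nonneg O fun k y => (wt_pos η k y).le) Γ.p_pos (Cx.box1 h).g _ _)
    (mul_nonneg (Γ.ZM_pos η).le (Cx.ZR_pos h η).le)

/-- The lane weight is at most the natural weight. -/
theorem wl_le_w (h : Γ.Ok) (O : Set Pt) (c : ℕ × ℤ) (η : Env) : wl Γ O c η ≤ Γ.w c η := by
  rw [w_eq_nu]
  exact div_le_div_of_nonneg_right (nu_mono (cz_nonneg O fun k y => (wt_pos η k y).le) (cz_le O fun k y => (wt_pos η k y).le)
    Γ.p_pos (Cx.box1 h).g _ _) (mul_nonneg (Γ.ZM_pos η).le (Cx.ZR_pos h η).le)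

/-- The lane weight decreases with the set. -/
theorem wl_anti_set (h : Γ.Ok) (hO : O ⊆ O') (c : ℕ × ℤ) (η : Env) : wl Γ O' c η ≤ wl Γ O c η :=
  div_le_div_of_nonneg_right (nu_mono (cz_nonneg O' fun k y => (wt_pos η k y).le) (cz_anti hO fun k y => (wt_pos η k y).le)
    Γ.p_pos (Cx.box1 h).g _ _) (mul_nonneg (Γ.ZM_pos η).le (Cx.ZR_pos h η).le)

theorem meas_wl (Γ : Cx) (O : Set Pt) (c : ℕ × ℤ) : Measurable (wl Γ O c) := by
  have h1 := pm_dp (W := fun η : Env => cz O (wt η)) (p := Γ.p) (l := fun _ => Cx.l) (r := fun _ => Γ.r) (measurable_cz O)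
    (fun _ => measurable_const) (fun _ => measurable_const) c.1 (c.2 - 1) c.2
  have h2 := pm_bw (W := fun η : Env => cz O (wt η)) (p := Γ.p) (measurable_cz O) (Γ.N - (c.1 + 1)) (c.1 + 1) c.2
  exact (h1.mul ((measurable_const.mul ((measurable_cz O _ _).mul (measurable_cz O _ _))).mul (h2.pow_const 2))).div
    (Γ.meas_ZM.mul Γ.meas_ZR)

/-! ### The masses are nondecreasing in the environment -/

theorem ZM_mono {η η' : Env} (h : ∀ p, η p ≤ η' p) : Γ.ZM η ≤ Γ.ZM η' :=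
  bw_mono10 (fun k y => (wt_pos η k y).le) (wt_le10 h) Γ.p_pos _ _ _

theorem ZR_mono (hk : Γ.Ok) {η η' : Env} (h : ∀ p, η p ≤ η' p) : Γ.ZR η ≤ Γ.ZR η' := by
  unfold Cx.ZR
  exact Finset.sum_le_sum fun y _ => mul_le_mul_of_nonneg_left
    (bw_mono10 (fun k y => (wt_pos η k y).le) (wt_le10 h) Γ.p_pos _ _ _) (Cx.r_nonneg hk y)

/-- **The lane weight is nonincreasing in the sites which are set to zero in the numerator.** -/
theorem antO_wl (h : Γ.Ok) (hO : O ⊆ O') (c : ℕ × ℤ) : AntO O (wl Γ O' c) := fun η η' h1 h2 => by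
  unfold wl
  rw [cz_congr hO h2]
  have a1 := Γ.ZM_pos η
  have a2 := Cx.ZR_pos h η
  have a3 := Cx.ZR_pos h η'
  exact div_le_div_of_nonneg_left (nu_nonneg (cz_nonneg O' fun k y => (wt_pos η' k y).le) Γ.p_pos (Cx.box1 h).g _ _)
    (mul_pos a1 a2) (mul_le_mul (ZM_mono h1) (ZR_mono h h1) a2.le (Γ.ZM_pos η').le)

/-! ### Sums over a set of contacts -/

/-- The lane weight of a set of contacts. -/
def wlS (Γ : Cx) (O : Set Pt) (Q : Finset (ℕ × ℤ)) (η : Env) : ℝ := ∑ c ∈ Q, wl Γ O c η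

theorem wlS_nonneg (h : Γ.Ok) (O : Set Pt) (Q : Finset (ℕ × ℤ)) (η : Env) : 0 ≤ wlS Γ O Q η :=
  Finset.sum_nonneg fun c _ => wl_nonneg h O c η

theorem wlS_le (h : Γ.Ok) (O : Set Pt) (Q : Finset (ℕ × ℤ)) (η : Env) : wlS Γ O Q η ≤ ∑ c ∈ Q, Γ.w c η :=
  Finset.sum_le_sum fun c _ => wl_le_w h O c η

theorem wlS_le_one (h : Γ.Ok) (O : Set Pt) {Q : Finset (ℕ × ℤ)} (hQ : Q ⊆ Γ.rows 0 Γ.N) (η : Env) : wlS Γ O Q η ≤ 1 :=
  (wlS_le h O Q η).trans ((Finset.sum_le_sum_of_subset_of_nonneg hQ fun c _ _ => Cx.w_nonneg h c η).trans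
    (Cx.sum_w_le h η 0 Γ.N le_rfl))

theorem meas_wlS (Γ : Cx) (O : Set Pt) (Q : Finset (ℕ × ℤ)) : Measurable (wlS Γ O Q) :=
  Finset.measurable_sum _ fun c _ => meas_wl Γ O c

theorem antO_wlS (h : Γ.Ok) (hO : O ⊆ O') (Q : Finset (ℕ × ℤ)) : AntO O (wlS Γ O' Q) :=
  AntO.sum fun c _ => antO_wl h hO c

/-! ### Resampling -/

theorem gl_gl_mono {η η' f : Env} (h : ∀ p, η p ≤ η' p) (p : Pt) : gl B η f p ≤ gl B η' f p := gl_le h p

/-- The function seen through a resampling of `B`. -/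
theorem AntO.gl {F : Env → ℝ} (hF : AntO O F) (B : Set Pt) (f : Env) : AntO O fun η => F (gl B η f) := fun η η' h1 h2 =>
  hF (S71.gl B η f) (S71.gl B η' f) (gl_le h1) fun p hp => by
    unfold S71.gl
    split_ifs
    · exact h2 p hp
    · rfl

theorem decO_gl10 {S : Set Pt} {A : Set Env} (hA : DecO S A) (B : Set Pt) (f : Env) : DecO S {η | gl B η f ∈ A} :=
  fun η η' h1 h2 h3 => hA (gl B η f) (gl B η' f) (gl_le h1) (fun p hp => by
    unfold S71.gl
    split_ifs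
    · exact h2 p hp
    · rfl) h3

theorem fin_gl10 {A : Set Env} (fA : Fin' A) (B : Set Pt) (f : Env) : Fin' {η | gl B η f ∈ A} := by
  obtain ⟨D, hD⟩ := fA
  refine ⟨D, fun η η' h => ?_⟩
  exact hD _ _ fun p hp => by
    unfold S71.gl
    split_ifs
    · exact h p hp
    · rfl

theorem off_gl10 {T : Set Env} (hT : Off O T) (B : Set Pt) (f : Env) : Off O {η | gl B η f ∈ T} := fun η η' h =>
  hT _ _ fun p hp => by
    unfold S71.gl
    split_ifs
    · exact h p hp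
    · rfl

/-! ### The comparison -/

variable {μ : Measure ℝ}

/-- **A function with a typical lower bound.** `F` is nonincreasing in the sites of `O`; for every frozen part in `T` the function is at
least `b` with probability at least `p` over the sites of `O`, and the decreasing event `A` has probability at least `c`; `b` does not
read `O`. Then `c p ∫_T b ≤ ∫_{T ∩ A} F`. The typical event needs no monotonicity. -/
theorem typ10 [IsProbabilityMeasure μ] {F : Env → ℝ} {K c p : ℝ} {A T : Set Env} {b : Env → ℝ} (mF : Measurable F)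
    (F0 : ∀ η, 0 ≤ F η) (FK : ∀ η, F η ≤ K) (hF : AntO O F) (mA : MeasurableSet A) (hA : DecO Oᶜ A) (fA : Fin' A)
    (mT : MeasurableSet T) (hT : Off O T) (hc0 : 0 ≤ c) (hc : ∀ f ∈ T, c ≤ (law μ).real {η | gl O η f ∈ A})
    (mb : Measurable b)
    (hp : ∀ f ∈ T, p ≤ (law μ).real {η | b f ≤ F (gl O η f)}) :
    ENNReal.ofReal (c * p) * ∫⁻ η in T, ENNReal.ofReal (b η) ∂(law μ) ≤ ∫⁻ η in T ∩ A, ENNReal.ofReal (F η) ∂(law μ) := by
  have : IsProbabilityMeasure (law μ) := by unfold law; infer_instance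
  have h1 := fkgO (μ := μ) mF F0 FK hF mA hA fA mT hT hc0 hc
  refine le_trans ?_ h1
  rw [ENNReal.ofReal_mul hc0, mul_assoc]
  refine mul_le_mul_right ?_ _
  have mE : Measurable fun η => ENNReal.ofReal (F η) := mF.ennreal_ofReal
  have mB : Measurable fun η => ENNReal.ofReal (b η) := mb.ennreal_ofReal
  rw [← lintegral_indicator mT, ← lintegral_indicator mT, lintegral_gl (μ := μ) O (mE.indicator mT),
    ← lintegral_const_mul' _ _ ENNReal.ofReal_ne_top]
  refine lintegral_mono fun f => ?_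
  by_cases hf : f ∈ T
  · have hin : ∀ η, gl O η f ∈ T := fun η => (hT.gl η f).2 hf
    have m1 : Measurable fun η => F (gl O η f) := mF.comp (measurable_gl_left O f)
    have mS : MeasurableSet {η | b f ≤ F (gl O η f)} := measurableSet_le measurable_const m1
    rw [Set.indicator_of_mem hf]
    have e1 : ∫⁻ η, T.indicator (fun η => ENNReal.ofReal (F η)) (gl O η f) ∂(law μ) =
        ∫⁻ η, ENNReal.ofReal (F (gl O η f)) ∂(law μ) := lintegral_congr fun η => Set.indicator_of_mem (hin η) _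
    rw [e1]
    have h2 : ∫⁻ η in {η | b f ≤ F (gl O η f)}, ENNReal.ofReal (b f) ∂(law μ) ≤
        ∫⁻ η in {η | b f ≤ F (gl O η f)}, ENNReal.ofReal (F (gl O η f)) ∂(law μ) :=
      setLIntegral_mono m1.ennreal_ofReal fun η hη => ENNReal.ofReal_le_ofReal hη
    rw [setLIntegral_const] at h2
    refine le_trans ?_ (h2.trans (setLIntegral_le_lintegral _ _))
    rw [mul_comm]
    refine mul_le_mul_right ?_ _
    have h3 := hp f hf
    rw [Measure.real] at h3
    exact (ENNReal.ofReal_le_iff_le_toReal (measure_ne_top _ _)).2 h3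
  · rw [Set.indicator_of_notMem hf, mul_zero]
    exact zero_le

/-- **The lane weight and the walls.** `O` = the sites off the strips, `O ⊆ O'`; `T` = the content of the strips (and anything else
which does not read `O`), `A` = walls, no exit (decreasing in the sites of `O`). -/
theorem wln10 [IsProbabilityMeasure μ] (h : Γ.Ok) (hO : O ⊆ O') {Q : Finset (ℕ × ℤ)} (hQ : Q ⊆ Γ.rows 0 Γ.N) {c : ℝ}
    {A T : Set Env} (mA : MeasurableSet A) (hA : DecO Oᶜ A) (fA : Fin' A) (mT : MeasurableSet T) (hT : Off O T) (hc0 : 0 ≤ c)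
    (hc : ∀ f ∈ T, c ≤ (law μ).real {η | gl O η f ∈ A}) :
    ENNReal.ofReal c * ∫⁻ η in T, ENNReal.ofReal (wlS Γ O' Q η) ∂(law μ) ≤
      ∫⁻ η in T ∩ A, ENNReal.ofReal (∑ c ∈ Q, Γ.w c η) ∂(law μ) :=
  (fkgO (μ := μ) (meas_wlS Γ O' Q) (wlS_nonneg h O' Q) (wlS_le_one h O' hQ) (antO_wlS h hO Q) mA hA fA mT hT hc0 hc).trans
    (lintegral_mono fun η => ENNReal.ofReal_le_ofReal (wlS_le h O' Q η))

/-- **The lane weight and the walls, resampled content.** Everything is seen through the resampling of `B` with the frozen part `f0`. -/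
theorem wln10_gl [IsProbabilityMeasure μ] (h : Γ.Ok) (hO : O ⊆ O') {Q : Finset (ℕ × ℤ)} (hQ : Q ⊆ Γ.rows 0 Γ.N) {c : ℝ}
    {A T : Set Env} (mA : MeasurableSet A) (hA : DecO Oᶜ A) (fA : Fin' A) (mT : MeasurableSet T) (hT : Off O T) (hc0 : 0 ≤ c)
    (B : Set Pt) (f0 : Env) (hc : ∀ f, gl B f f0 ∈ T → c ≤ (law μ).real {η | gl B (gl O η f) f0 ∈ A}) :
    ENNReal.ofReal c * ∫⁻ η in {η | gl B η f0 ∈ T}, ENNReal.ofReal (wlS Γ O' Q (gl B η f0)) ∂(law μ) ≤
      ∫⁻ η in {η | gl B η f0 ∈ T ∩ A}, ENNReal.ofReal (∑ c ∈ Q, Γ.w c (gl B η f0)) ∂(law μ) :=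
  (fkgO (μ := μ) ((meas_wlS Γ O' Q).comp (measurable_gl_left B f0)) (fun η => wlS_nonneg h O' Q _)
    (fun η => wlS_le_one h O' hQ _) ((antO_wlS h hO Q).gl B f0) ((measurable_gl_left B f0) mA) (decO_gl10 hA B f0) (fin_gl10 fA B f0)
    ((measurable_gl_left B f0) mT) (off_gl10 hT B f0) hc0 hc).trans
    (lintegral_mono fun η => ENNReal.ofReal_le_ofReal (wlS_le h O' Q _))

/-- **The lane weight, the walls and a typical event**, resampled content: if for every strip content in `T` the lane weight is at least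
`b` (a function of the strips) with probability at least `p` over the sites off the strips, and the walls `A` have probability at least
`c`, then the natural weight integrated over `T ∩ A` is at least `c p ∫_T b`. -/
theorem wln10_typ [IsProbabilityMeasure μ] (h : Γ.Ok) (hO : O ⊆ O') {Q : Finset (ℕ × ℤ)} (hQ : Q ⊆ Γ.rows 0 Γ.N) {c p : ℝ}
    {A T : Set Env} {b : Env → ℝ} (mA : MeasurableSet A) (hA : DecO Oᶜ A) (fA : Fin' A) (mT : MeasurableSet T) (hT : Off O T)
    (hc0 : 0 ≤ c) (B : Set Pt) (f0 : Env) (hc : ∀ f, gl B f f0 ∈ T → c ≤ (law μ).real {η | gl B (gl O η f) f0 ∈ A})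
    (mb : Measurable b)
    (hp : ∀ f, gl B f f0 ∈ T → p ≤ (law μ).real {η | b f ≤ wlS Γ O' Q (gl B (gl O η f) f0)}) :
    ENNReal.ofReal (c * p) * ∫⁻ η in {η | gl B η f0 ∈ T}, ENNReal.ofReal (b η) ∂(law μ) ≤
      ∫⁻ η in {η | gl B η f0 ∈ T ∩ A}, ENNReal.ofReal (∑ c ∈ Q, Γ.w c (gl B η f0)) ∂(law μ) :=
  (typ10 (μ := μ) (F := fun η => wlS Γ O' Q (gl B η f0)) ((meas_wlS Γ O' Q).comp (measurable_gl_left B f0))
    (fun η => wlS_nonneg h O' Q _) (fun η => wlS_le_one h O' hQ _) ((antO_wlS h hO Q).gl B f0) ((measurable_gl_left B f0) mA)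
    (decO_gl10 hA B f0) (fin_gl10 fA B f0) ((measurable_gl_left B f0) mT) (off_gl10 hT B f0) hc0 hc mb hp).trans
    (lintegral_mono fun η => ENNReal.ofReal_le_ofReal (wlS_le h O' Q _))

end

end Pool.Agent.W_7d29a1_C1.H10
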