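import Pool.Agent.W_7d29a1_C1.GateR66
import Pool.Agent.W_7d29a1_C1.GateF66
import Pool.Agent.W_7d29a1_C1.Wln10
import Pool.Agent.W_7d29a1_C1.Cnt58

/-!
MP_7d29a1_pr, attractor route, [C1] SEP: THE WEIGHTS OF THE PATHS OF A CONTACT AS FUNCTIONS OF THE ENVIRONMENT. (helper58)

`kap k π η = k η (start) * weight of π * bw (end)`: measurable, `≥ 0`, reads off the wall sites `S` (rows `a, …, a + n - 1`) only the sites
of `π`; `k` = masses of the contact at the row `a` (rows below). `ZZ` = product of the totals of two groups: measurable, positive,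
nondecreasing. `sum_kap`: `∑_π kap ≤` the total of the contact; `kap_sq_le`: `(∑ kap)² ≤ K * ZZ` in the fibre, `K` of the frozen rest.
**`favgW58`** = `favg` of helper66 over these, window `W ⊇ S` fresh, any frozen rest `ω`.
-/

set_option autoImplicit false

namespace Pool.Agent.W_7d29a1_C1.PW58

open MeasureTheory ProbabilityTheory Finset
open Pool.Agent.W_7d29a1_F Pool.Agent.W_7d29a1_h4g Pool.Agent.W_7d29a1_H Pool.Agent.W_7d29a1_HS
open Pool.Agent.W_7d29a1_C1.S71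
open Pool.Agent.W_7d29a1_C1.F31 (DecO FinO)
open Pool.Agent.W_7d29a1_C1.K91 (Box Grp wt wt_pos measurable_wt)
open Pool.Agent.W_7d29a1_C1.K91P
open Pool.Agent.W_7d29a1_C1.U16 (ker ker_nonneg fw_ker bw_ker dlt)
open Pool.Agent.W_7d29a1_C1.H10 (fw_mono10 bw_mono10)
open Pool.Agent.W_7d29a1_C1.Cnt58 (Gr Zt Zt_row Zt_nonneg)
open Pool.Agent.W_7d29a1_C1.Gt66
open scoped ENNReal

noncomputable section

attribute [local instance 10] Classical.propDecidable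

/-! ### Weights -/

theorem wt_eq {η η' : Env} {k : ℕ} {y : ℤ} (h : η ((k : ℤ), y) = η' ((k : ℤ), y)) : wt η k y = wt η' k y := by
  unfold wt
  rw [h]

theorem wt_mono {η η' : Env} (h : ∀ x, η x ≤ η' x) (k : ℕ) (y : ℤ) : wt η k y ≤ wt η' k y := by
  unfold wt
  split_ifs
  · exact le_rfl
  · exact Real.exp_le_exp.2 (h _)

variable {w w' : ℕ → ℤ → ℝ} {p : ℕ → ℝ}

/-- `bw` reads the rows from `k` on. -/
theorem bw_congr : ∀ (j k : ℕ) (y : ℤ), (∀ i z, k ≤ i → w i z = w' i z) → bw w p k j y = bw w' p k j y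
  | 0, k, y, _ => by rw [bw_zero, bw_zero]
  | j + 1, k, y, h => by
    rw [bw_succ, bw_succ, h k y le_rfl, bw_congr j (k + 1) y fun i z hi => h i z (by omega),
      bw_congr j (k + 1) (y + 1) fun i z hi => h i z (by omega)]

/-- `fw` reads the rows below `k`. -/
theorem fw_congr (m : ℤ → ℝ) : ∀ (k : ℕ) (y : ℤ), (∀ i z, i < k → w i z = w' i z) → fw w p m k y = fw w' p m k y
  | 0, y, _ => rfl
  | k + 1, y, h => by
    rw [fw_succ, fw_succ, h k y (by omega), h k (y - 1) (by omega), fw_congr m k y fun i z hi => h i z (by omega),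
      fw_congr m k (y - 1) fun i z hi => h i z (by omega)]

/-- `ker` reads the rows `i, …, i + n - 1`. -/
theorem ker_congr (i n : ℕ) (x y : ℤ) (h : ∀ j z, i ≤ j → j < i + n → w j z = w' j z) : ker w p i n x y = ker w' p i n x y := by
  unfold ker
  exact fw_congr _ n y fun j z hj => h (i + j) z (by omega) (by omega)

/-- The weight of a path reads its sites. -/
theorem wg_congr {a : ℕ} : ∀ {n : ℕ} (π : Pa n), (∀ j < n, ∀ x, onp π j x → w (a + j) x = w' (a + j) x) → wg w p a π = wg w' p a π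
  | _, .z _, _ => rfl
  | n + 1, .s π b, h => by
    show wg w p a π * (w (a + n) (en π) * _) = wg w' p a π * (w' (a + n) (en π) * _)
    rw [wg_congr π fun j hj x hx => h j (by omega) x ((onp_lt π b (by omega)).2 hx),
      h n (by omega) (en π) ((onp_lt π b le_rfl).2 ((onp_last π).2 rfl))]

theorem measurable_wg {a : ℕ} : ∀ {n : ℕ} (π : Pa n), Measurable fun η : Env => wg (wt η) p a π
  | _, .z _ => measurable_const
  | n + 1, .s π b => by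
    show Measurable fun η : Env => wg (wt η) p a π * (wt η (a + n) (en π) * _)
    exact (measurable_wg π).mul ((measurable_wt _ _).mul measurable_const)

/-! ### The sites of a path, the frozen sites -/

variable {n : ℕ}

/-- The sites of a path whose weights are read. -/
def sit (a : ℕ) (π : Pa n) : Set Pt := {x | ∃ j < n, x.1 = ((a + j : ℕ) : ℤ) ∧ onp π j x.2}

/-- The frozen sites of a pair: everything except the sites of `S` off the two paths. -/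
def Fr (S : Set Pt) (a : ℕ) (π π' : Pa n) : Set Pt := Sᶜ ∪ (sit a π ∪ sit a π')

theorem mem_Fr {S : Set Pt} {a : ℕ} {π π' : Pa n} {x : Pt} : x ∉ Fr S a π π' ↔ x ∈ S ∧ x ∉ sit a π ∧ x ∉ sit a π' := by
  unfold Fr
  simp only [Set.mem_union, Set.mem_compl_iff, not_or, not_not]

theorem finite_sit (a : ℕ) (π : Pa n) : (sit a π).Finite := by
  classical
  have h1 : ∀ j : ℕ, ∃ x : ℤ, j ≤ n → ∀ x', onp π j x' → x' = x := by
    intro j
    by_cases hj : j ≤ n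
    · obtain ⟨x, hx⟩ := onp_ex π hj
      exact ⟨x, fun _ x' hx' => onp_one π hx' hx⟩
    · exact ⟨0, fun h => absurd h hj⟩
  choose f hf using h1
  refine ((Finset.range n).image fun j => (((a + j : ℕ) : ℤ), f j)).finite_toSet.subset ?_
  rintro ⟨r, x⟩ ⟨j, hj, h2, h3⟩
  simp only [Finset.coe_image, Set.mem_image, Finset.mem_coe, Finset.mem_range]
  exact ⟨j, hj, Prod.ext h2.symm (hf j hj.le x h3).symm⟩

/-! ### The weight of a path of the contact -/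

/-- Masses of the contact at the row `a`, weight of the path, free end. -/
def kap (p : ℕ → ℝ) (a N : ℕ) (k : Env → ℤ → ℝ) (π : Pa n) (η : Env) : ℝ :=
  k η (s0 π) * wg (wt η) p a π * bw (wt η) p (a + n) (N - (a + n)) (en π)

theorem kap_nonneg {a N : ℕ} {k : Env → ℤ → ℝ} (hp : ∀ i, 0 < p i) (hk : ∀ η y, 0 ≤ k η y) (π : Pa n) (η : Env) :
    0 ≤ kap p a N k π η :=
  mul_nonneg (mul_nonneg (hk η _) (wg_nonneg (fun i y => (wt_pos η i y).le) (fun i => (hp i).le) π))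
    (bw_pos (wt_pos η) hp _ _ _).le

theorem measurable_kap {a N : ℕ} {k : Env → ℤ → ℝ} (mk : ∀ y, Measurable fun η => k η y) (π : Pa n) :
    Measurable (kap p a N k π) := ((mk _).mul (measurable_wg π)).mul (meas_bw _ _ _)

/-- The rows of the walls. -/
def InRows (a n : ℕ) (S : Set Pt) : Prop := ∀ x ∈ S, (a : ℤ) ≤ x.1 ∧ x.1 < (a + n : ℕ)

/-- `kap` reads, of the sites of `S`, those of the path. -/
theorem kap_congr {a N : ℕ} {k : Env → ℤ → ℝ} {S : Set Pt} (hS : InRows a n S)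
    (hk : ∀ η η' : Env, (∀ x, x ∉ S → η x = η' x) → ∀ y, k η y = k η' y) (π : Pa n) {η η' : Env}
    (h : ∀ x, x ∉ S ∨ x ∈ sit a π → η x = η' x) : kap p a N k π η = kap p a N k π η' := by
  unfold kap
  rw [hk η η' (fun x hx => h x (Or.inl hx)), wg_congr (a := a) (w := wt η) (w' := wt η') π fun j hj x hx =>
      wt_eq (h _ (Or.inr ⟨j, hj, rfl, hx⟩)),
    bw_congr (w := wt η) (w' := wt η') (N - (a + n)) (a + n) (en π) fun i z hi => wt_eq (h _ (Or.inl fun hx => by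
      have := (hS _ hx).2
      simp only at this
      omega))]

/-- **The product of two paths reads the frozen sites of the pair.** -/
theorem kap_pair {a N : ℕ} {k : Env → ℤ → ℝ} {S : Set Pt} (hS : InRows a n S)
    (hk : ∀ η η' : Env, (∀ x, x ∉ S → η x = η' x) → ∀ y, k η y = k η' y) (π π' : Pa n) {η η' : Env}
    (h : ∀ x ∈ Fr S a π π', η x = η' x) : kap p a N k π η * kap p a N k π' η = kap p a N k π η' * kap p a N k π' η' := by
  have h1 : ∀ x, x ∉ S ∨ x ∈ sit a π → η x = η' x := fun x hx => h x (hx.elim Or.inl fun h => Or.inr (Or.inl h))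
  have h2 : ∀ x, x ∉ S ∨ x ∈ sit a π' → η x = η' x := fun x hx => h x (hx.elim Or.inl fun h => Or.inr (Or.inr h))
  rw [kap_congr hS hk π h1, kap_congr hS hk π' h2]

/-! ### The masses of the contact -/

/-- The masses at the row `a` of the contact `(r, q)` (single start at the row `r ≤ a`). -/
def kc (p : ℕ → ℝ) (r a : ℕ) (q : ℤ) (η : Env) (y : ℤ) : ℝ := ker (wt η) p r (a - r) q y

theorem kc_nonneg (hp : ∀ i, 0 < p i) (r a : ℕ) (q : ℤ) (η : Env) (y : ℤ) : 0 ≤ kc p r a q η y := ker_nonneg (wt_pos η) hp _ _ _ _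

theorem kc_off {r a : ℕ} (hr : r ≤ a) {S : Set Pt} (hS : InRows a n S) (q : ℤ) (η η' : Env) (h : ∀ x, x ∉ S → η x = η' x) (y : ℤ) :
    kc p r a q η y = kc p r a q η' y := ker_congr _ _ _ _ fun j z h1 h2 => wt_eq (h _ fun hx => by
  have := (hS _ hx).1
  simp only at this
  omega)

theorem measurable_kc (r a : ℕ) (q : ℤ) (y : ℤ) : Measurable fun η => kc p r a q η y := by
  have h1 : ∀ (w : ℕ → ℤ → Env → ℝ) (_ : ∀ i z, Measurable (w i z)) (p : ℕ → ℝ) (m : ℤ → ℝ) (n : ℕ) (y : ℤ),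
      Measurable fun η => fw (fun i z => w i z η) p m n y := by
    intro w mw p m n
    induction n with
    | zero => exact fun y => measurable_const
    | succ n ih => exact fun y => ((mw n y).mul (ih y)).add (measurable_const.mul ((mw n (y - 1)).mul (ih (y - 1))))
  exact h1 (fun i z η => wt η (r + i) z) (fun i z => measurable_wt _ _) (fun i => p (r + i)) _ (a - r) y

/-- The start of a path of `Ps` is in `I`. -/
theorem s0_mem {C : ℕ → ℤ → Prop} {I : Finset ℤ} : ∀ {n : ℕ} {π : Pa n}, π ∈ Ps C I n → s0 π ∈ I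
  | 0, .z y, h => by
    obtain ⟨y', hy, hy'⟩ := mem_map.1 h
    have h4 : Pa.z y' = Pa.z y := hy'
    have h3 : y' = y := by simpa using h4
    exact h3 ▸ (mem_filter.1 hy).1
  | n + 1, .s π b, h => by
    have h1 : π ∈ Ps C I n := (mem_Ps_succ.1 h).1
    have h2 : s0 π ∈ I := s0_mem h1
    exact h2

/-- Shift of the rows. -/
theorem ms_shift {A : ℕ → ℤ → Prop} {m : ℤ → ℝ} {r a : ℕ} (hr : r ≤ a) : ∀ (n : ℕ) (y : ℤ),
    ms w p a A m n y = ms (fun i => w (r + i)) (fun i => p (r + i)) (a - r) A m n y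
  | 0, y => rfl
  | n + 1, y => by
    have e : r + (a - r + n) = a + n := by omega
    unfold ms
    rw [ms_shift hr n y, ms_shift hr n (y - 1), e]

/-- **The paths of the contact carry at most its total mass.** -/
theorem sum_kap {r a N : ℕ} (hp : ∀ i, 0 < p i) (hr : r ≤ a) (hN : a + n ≤ N) (q : ℤ) {C : ℕ → ℤ → Prop} (I : Finset ℤ)
    (hI : ∀ y ∈ I, q ≤ y ∧ y ≤ q + (a - r : ℕ)) (η : Env) :
    ∑ π ∈ Ps C I n, kap p a N (kc p r a q) π η ≤ bw (wt η) p r (N - r) q := by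
  have w0 : ∀ i y, 0 ≤ wt η i y := fun i y => (wt_pos η i y).le
  have p0 : ∀ i, 0 ≤ p i := fun i => (hp i).le
  have g0 : ∀ u, 0 ≤ bw (wt η) p (a + n) (N - (a + n)) u := fun u => (bw_pos (wt_pos η) hp _ _ _).le
  set k' : ℤ → ℝ := fun y => if y ∈ I then kc p r a q η y else 0 with hk'
  have k0 : ∀ y, 0 ≤ k' y := fun y => by
    rw [hk']
    simp only
    split_ifs
    · exact kc_nonneg hp r a q η y
    · exact le_rfl
  have kle : ∀ y, k' y ≤ kc p r a q η y := fun y => by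
    rw [hk']
    simp only
    split_ifs
    · exact le_rfl
    · exact kc_nonneg hp r a q η y
  have h1 : ∑ π ∈ Ps C I n, kap p a N (kc p r a q) π η =
      ∑ π ∈ Ps C I n, k' (s0 π) * wg (wt η) p a π * bw (wt η) p (a + n) (N - (a + n)) (en π) :=
    sum_congr rfl fun π hπ => by
      have e : k' (s0 π) = kc p r a q η (s0 π) := if_pos (s0_mem hπ)
      rw [e]
      rfl
  rw [h1, expand (w := wt η) (p := p) (a := a) (C := C) (I := I) k' (fun y hy => if_neg hy) (lo := q) (hi := q + (a - r : ℕ)) hI n]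
  have e2 : N - r = (a - r + n) + (N - (a + n)) := by omega
  have e3 : r + (a - r + n) = a + n := by omega
  rw [e2, bw_ker r (a - r + n) (N - (a + n)) q, e3]
  have e4 : q + ((a - r : ℕ) : ℤ) + (n : ℤ) = q + ((a - r + n : ℕ) : ℤ) := by push_cast; ring
  rw [e4]
  refine sum_le_sum fun u _ => mul_le_mul_of_nonneg_right ?_ (g0 u)
  calc ms (wt η) p a C k' n u ≤ ms (wt η) p a All k' n u := ms_le_all w0 p0 k0 n u
    _ ≤ ms (wt η) p a All (kc p r a q η) n u := ms_mono w0 p0 (fun y => kc_nonneg hp r a q η y) (fun _ _ h => h) kle n u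
    _ = ker (wt η) p r (a - r + n) q u := by
      rw [ms_shift hr]
      exact ms_fw (w := fun i => wt η (r + i)) (p := fun i => p (r + i)) (a := a - r) (dlt q) n u

/-! ### The denominator -/

/-- Product of the totals of the two groups. -/
def ZZ (p : ℕ → ℝ) (l r : ℤ → ℝ) (lo hi : ℤ) (N : ℕ) (η : Env) : ℝ := Zt (wt η) p l lo hi N * Zt (wt η) p r lo hi N

variable {l r m : ℤ → ℝ} {lo hi : ℤ} {N : ℕ}

theorem Zt_mono (hp : ∀ i, 0 < p i) (h : Gr m lo hi N) {η η' : Env} (hη : ∀ x, η x ≤ η' x) :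
    Zt (wt η) p m lo hi N ≤ Zt (wt η') p m lo hi N :=
  sum_le_sum fun y _ => mul_le_mul_of_nonneg_left (bw_mono10 (fun i z => (wt_pos η i z).le) (wt_mono hη) hp _ _ _) (h.m0 y)

theorem Zt_pos (hp : ∀ i, 0 < p i) (h : Gr m lo hi N) {x : ℤ} (hx : 0 < m x) (η : Env) : 0 < Zt (wt η) p m lo hi N := by
  have h1 : lo ≤ x := by
    by_contra hc
    exact hx.ne' (h.lo0 x (by omega))
  have h2 : x ≤ hi := by
    by_contra hc
    exact hx.ne' (h.hi0 x (by omega))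
  exact (mul_pos hx (bw_pos (wt_pos η) hp N 0 x)).trans_le
    (single_le_sum (f := fun y => m y * bw (wt η) p 0 N y) (fun y _ => mul_nonneg (h.m0 y) (bw_pos (wt_pos η) hp N 0 y).le)
      (mem_Icc.2 ⟨h1, h2⟩))

theorem measurable_Zt (m : ℤ → ℝ) (lo hi : ℤ) (N : ℕ) : Measurable fun η => Zt (wt η) p m lo hi N :=
  Finset.measurable_sum _ fun _ _ => measurable_const.mul (meas_bw _ _ _)

theorem ZZ_mono (hp : ∀ i, 0 < p i) (hl : Gr l lo hi N) (hr : Gr r lo hi N) {η η' : Env} (hη : ∀ x, η x ≤ η' x) :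
    ZZ p l r lo hi N η ≤ ZZ p l r lo hi N η' :=
  mul_le_mul (Zt_mono hp hl hη) (Zt_mono hp hr hη) (Zt_nonneg (wt_pos η) hp hr) (Zt_nonneg (wt_pos η') hp hl)

theorem ZZ_pos (hp : ∀ i, 0 < p i) (hl : Gr l lo hi N) (hr : Gr r lo hi N) {x y : ℤ} (hx : 0 < l x) (hy : 0 < r y) (η : Env) :
    0 < ZZ p l r lo hi N η := mul_pos (Zt_pos hp hl hx η) (Zt_pos hp hr hy η)

theorem measurable_ZZ (l r : ℤ → ℝ) (lo hi : ℤ) (N : ℕ) : Measurable (ZZ p l r lo hi N) :=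
  (measurable_Zt l lo hi N).mul (measurable_Zt r lo hi N)

/-- One site of one row. -/
theorem fw_bw_le (hp : ∀ i, 0 < p i) (h : Gr m lo hi N) {r : ℕ} (hr : r ≤ N) {q : ℤ} (h1 : lo ≤ q) (h2 : q ≤ hi) (η : Env) :
    fw (wt η) p m r q * bw (wt η) p r (N - r) q ≤ Zt (wt η) p m lo hi N := by
  rw [← Zt_row h hr]
  exact single_le_sum (f := fun x => fw (wt η) p m r x * bw (wt η) p r (N - r) x)
    (fun x _ => mul_nonneg (fw_nonneg (wt_pos η) hp h.m0 r x) (bw_pos (wt_pos η) hp _ _ _).le) (mem_Icc.2 ⟨h1, h2⟩)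

/-- **The square of the mass of a contact against the denominator.** -/
theorem sq_le_ZZ (hp : ∀ i, 0 < p i) (hl : Gr l lo hi N) (hr : Gr r lo hi N) {b : ℕ} (hb : b ≤ N) {q : ℤ} (h1 : lo ≤ q) (h2 : q ≤ hi)
    (η : Env) : fw (wt η) p l b q * fw (wt η) p r b q * bw (wt η) p b (N - b) q ^ 2 ≤ ZZ p l r lo hi N η := by
  have e : fw (wt η) p l b q * fw (wt η) p r b q * bw (wt η) p b (N - b) q ^ 2 =
      (fw (wt η) p l b q * bw (wt η) p b (N - b) q) * (fw (wt η) p r b q * bw (wt η) p b (N - b) q) := by ring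
  rw [e]
  exact mul_le_mul (fw_bw_le hp hl hb h1 h2 η) (fw_bw_le hp hr hb h1 h2 η)
    (mul_nonneg (fw_nonneg (wt_pos η) hp hr.m0 b q) (bw_pos (wt_pos η) hp _ _ _).le) (Zt_nonneg (wt_pos η) hp hl)

/-- The masses below the row `b` do not read the window. -/
theorem fw_gl {W : Set Pt} {b : ℕ} (hW : ∀ x ∈ W, (b : ℤ) ≤ x.1) (m : ℤ → ℝ) (q : ℤ) (ξ ω : Env) :
    fw (wt (gl W ξ ω)) p m b q = fw (wt ω) p m b q := fw_congr m b q fun i z hi => wt_eq (by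
  have h : ((i : ℤ), z) ∉ W := fun hx => by
    have := hW _ hx
    simp only at this
    omega
  unfold gl
  rw [if_neg h])

/-- **THE BOUND IN THE FIBRE**: a window of the rows `≥ b`, any frozen rest. -/
theorem kap_sq_le {a : ℕ} (hp : ∀ i, 0 < p i) (hl : Gr l lo hi N) (hr : Gr r lo hi N) {b : ℕ} (hba : b ≤ a) (hN : a + n ≤ N)
    {q : ℤ} (h1 : lo ≤ q) (h2 : q ≤ hi) {W : Set Pt} (hW : ∀ x ∈ W, (b : ℤ) ≤ x.1) {C : ℕ → ℤ → Prop} (I : Finset ℤ)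
    (hI : ∀ y ∈ I, q ≤ y ∧ y ≤ q + (a - b : ℕ)) {ω : Env} (hfl : 0 < fw (wt ω) p l b q) (hfr : 0 < fw (wt ω) p r b q) (ξ : Env) :
    (∑ π ∈ Ps C I n, kap p a N (kc p b a q) π (gl W ξ ω)) ^ 2 ≤
      (fw (wt ω) p l b q * fw (wt ω) p r b q)⁻¹ * ZZ p l r lo hi N (gl W ξ ω) := by
  have e1 := sq_le_ZZ hp hl hr (b := b) (by omega) h1 h2 (gl W ξ ω)
  rw [fw_gl hW l q ξ ω, fw_gl hW r q ξ ω] at e1
  have e2 := sum_kap (n := n) hp hba hN q (C := C) I hI (gl W ξ ω)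
  have e3 : 0 ≤ ∑ π ∈ Ps C I n, kap p a N (kc p b a q) π (gl W ξ ω) := sum_nonneg fun π _ =>
    kap_nonneg hp (fun η y => kc_nonneg hp b a q η y) π _
  have hf := mul_pos hfl hfr
  rw [← div_eq_inv_mul, le_div_iff₀ hf, mul_comm]
  exact (mul_le_mul_of_nonneg_left (pow_le_pow_left₀ e3 e2 2) hf.le).trans e1

/-! ### The average over a window -/

variable {μ : Measure ℝ}

theorem gl_mono {W : Set Pt} {ξ ξ' ω : Env} (h : ∀ x, ξ x ≤ ξ' x) (x : Pt) : gl W ξ ω x ≤ gl W ξ' ω x := by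
  unfold gl
  split_ifs
  · exact h x
  · exact le_rfl

theorem gl_eq {W : Set Pt} {ξ ξ' ω : Env} {x : Pt} (h : ξ x = ξ' x) : gl W ξ ω x = gl W ξ' ω x := by
  unfold gl
  rw [h]

/-- **`favg` OF helper66 FOR THE PATHS OF ONE CONTACT, a window `W` fresh, the rest `ω` frozen.** -/
theorem favgW58 [IsProbabilityMeasure μ] {a : ℕ} {P : Finset (Pa n)} {k : Env → ℤ → ℝ} {S W : Set Pt} (hp : ∀ i, 0 < p i)
    (hS : InRows a n S) (hSW : S ⊆ W) (k0 : ∀ η y, 0 ≤ k η y) (mk : ∀ y, Measurable fun η => k η y)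
    (hk : ∀ η η' : Env, (∀ x, x ∉ S → η x = η' x) → ∀ y, k η y = k η' y)
    {D : Env → ℝ} (mD : Measurable D) (hD : ∀ η, 0 < D η) (hDm : ∀ η η' : Env, (∀ x, η x ≤ η' x) → D η ≤ D η')
    {T : Set Env} (mT : MeasurableSet T) (hT : ∀ π ∈ P, ∀ π' ∈ P, DecO (Fr S a π π') T)
    {C : Pa n → Pa n → Set Env} (mC : ∀ π π', MeasurableSet (C π π'))
    (hC : ∀ π ∈ P, ∀ π' ∈ P, DecO (Fr S a π π') (C π π')) (fC : ∀ π ∈ P, ∀ π' ∈ P, FinO (Fr S a π π') (C π π'))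
    {p₀ : ℝ} (hp₀ : 0 < p₀) (hpC : ∀ π ∈ P, ∀ π' ∈ P, p₀ ≤ (law μ).real (C π π'))
    (ω : Env) {K : ℝ} (hK : ∀ ξ, (∑ π ∈ P, kap p a N k π (gl W ξ ω)) ^ 2 ≤ K * D (gl W ξ ω)) :
    ∫ ξ in {ξ | gl W ξ ω ∈ T}, (∑ π ∈ P, kap p a N k π (gl W ξ ω)) ^ 2 / D (gl W ξ ω) ∂(law μ) ≤
      (2 / p₀) * ∫ ξ in {ξ | gl W ξ ω ∈ T ∩ Gd66 P (kap p a N k) C (p₀ / 2)},
        (∑ π ∈ P, kap p a N k π (gl W ξ ω)) ^ 2 / D (gl W ξ ω) ∂(law μ) := by
  have mg : Measurable fun ξ => gl W ξ ω := measurable_gl_left W ω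
  have hgl : ∀ {π π' : Pa n} {ξ ξ' : Env}, (∀ x ∈ Fr S a π π', ξ x = ξ' x) → ∀ x ∈ Fr S a π π', gl W ξ ω x = gl W ξ' ω x :=
    fun h x hx => gl_eq (h x hx)
  have h1 := favg (μ := μ) (P := P) (κ := fun π ξ => kap p a N k π (gl W ξ ω)) (fun π ξ => kap_nonneg hp k0 π _)
    (fun π => (measurable_kap mk π).comp mg) (D := fun ξ => D (gl W ξ ω)) (mD.comp mg) (fun ξ => hD _) (K := K) hK
    (T := {ξ | gl W ξ ω ∈ T}) (mg mT) (Fz := Fr S a) (C := C) mC hC fC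
    (fun π hπ π' hπ' η η' h2 h3 h4 => hT π hπ π' hπ' _ _ (gl_mono h2) (hgl h3) h4)
    (fun π _ π' _ ξ ξ' h => kap_pair hS hk π π' (hgl h)) (fun ξ ξ' h => hDm _ _ (gl_mono h)) hp₀ hpC
  have e : {ξ | gl W ξ ω ∈ T ∩ Gd66 P (kap p a N k) C (p₀ / 2)} =
      {ξ | gl W ξ ω ∈ T} ∩ Gd66 P (fun π ξ => kap p a N k π (gl W ξ ω)) C (p₀ / 2) := by
    ext ξ
    have e1 : QC P (kap p a N k) C (gl W ξ ω) = QC P (fun π ξ => kap p a N k π (gl W ξ ω)) C ξ := by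
      unfold QC
      refine sum_congr rfl fun π hπ => sum_congr rfl fun π' hπ' => ?_
      obtain ⟨F, hF, hF'⟩ := fC π hπ π' hπ'
      have e2 : gl W ξ ω ∈ C π π' ↔ ξ ∈ C π π' := hF' _ _ fun x hx => by
        unfold gl
        rw [if_pos (hSW (mem_Fr.1 (hF x hx)).1)]
      by_cases hx : ξ ∈ C π π'
      · rw [if_pos hx, if_pos (e2.2 hx)]
      · rw [if_neg hx, if_neg fun h => hx (e2.1 h)]
    show (gl W ξ ω ∈ T ∧ p₀ / 2 * (∑ π ∈ P, kap p a N k π (gl W ξ ω)) ^ 2 ≤ QC P (kap p a N k) C (gl W ξ ω)) ↔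
      (gl W ξ ω ∈ T ∧ p₀ / 2 * (∑ π ∈ P, kap p a N k π (gl W ξ ω)) ^ 2 ≤ QC P (fun π ξ => kap p a N k π (gl W ξ ω)) C ξ)
    rw [e1]
  rw [e]
  exact h1

theorem ind_gl {B : Set Pt} {A : Set Env} (F : Env → ℝ≥0∞) (ξ ω : Env) :
    A.indicator F (gl B ξ ω) = {ξ | gl B ξ ω ∈ A}.indicator (fun ξ => F (gl B ξ ω)) ξ := by
  by_cases h : gl B ξ ω ∈ A
  · rw [Set.indicator_of_mem h, Set.indicator_of_mem (show ξ ∈ {ξ | gl B ξ ω ∈ A} from h)]
  · rw [Set.indicator_of_notMem h, Set.indicator_of_notMem (show ξ ∉ {ξ | gl B ξ ω ∈ A} from h)]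

/-- Real integral and `lintegral` of a bounded function over a set of the fibre. -/
theorem lint_gl [IsProbabilityMeasure μ] {B : Set Pt} {A : Set Env} (mA : MeasurableSet A) {F : Env → ℝ} (mF : Measurable F)
    (F0 : ∀ η, 0 ≤ F η) (ω : Env) {K : ℝ} (FK : ∀ ξ, F (gl B ξ ω) ≤ K) :
    ∫⁻ ξ, A.indicator (fun η => ENNReal.ofReal (F η)) (gl B ξ ω) ∂(law μ) =
      ENNReal.ofReal (∫ ξ in {ξ | gl B ξ ω ∈ A}, F (gl B ξ ω) ∂(law μ)) := by
  have : IsProbabilityMeasure (law μ) := by unfold law; infer_instance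
  have mg : Measurable fun ξ => gl B ξ ω := measurable_gl_left B ω
  have mA' : MeasurableSet {ξ | gl B ξ ω ∈ A} := mg mA
  have hI : Integrable (fun ξ => F (gl B ξ ω)) (law μ) :=
    (integrable_const K).mono' (mF.comp mg).aestronglyMeasurable (Filter.Eventually.of_forall fun ξ => by
      rw [Real.norm_eq_abs, abs_of_nonneg (F0 _)]
      exact FK ξ)
  rw [ofReal_integral_eq_lintegral_ofReal hI.integrableOn (Filter.Eventually.of_forall fun ξ => F0 _), ← lintegral_indicator mA']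
  exact lintegral_congr fun ξ => ind_gl _ ξ ω

/-- **THE FIELD `hgate` OF `CmpG20.avg_gate_gl`**: weight `w₀ Zc² / D`, `w₀` frozen, the core paths carry the share `1 / C₀` on `T`. -/
theorem hgate58 [IsProbabilityMeasure μ] {a : ℕ} {P : Finset (Pa n)} {k : Env → ℤ → ℝ} {S B : Set Pt} (hp : ∀ i, 0 < p i)
    (hS : InRows a n S) (hSB : S ⊆ B) (k0 : ∀ η y, 0 ≤ k η y) (mk : ∀ y, Measurable fun η => k η y)
    (hk : ∀ η η' : Env, (∀ x, x ∉ S → η x = η' x) → ∀ y, k η y = k η' y)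
    {D : Env → ℝ} (mD : Measurable D) (hD : ∀ η, 0 < D η) (hDm : ∀ η η' : Env, (∀ x, η x ≤ η' x) → D η ≤ D η')
    {T : Set Env} (mT : MeasurableSet T) (hT : ∀ π ∈ P, ∀ π' ∈ P, DecO (Fr S a π π') T)
    {C : Pa n → Pa n → Set Env} (mC : ∀ π π', MeasurableSet (C π π'))
    (hC : ∀ π ∈ P, ∀ π' ∈ P, DecO (Fr S a π π') (C π π')) (fC : ∀ π ∈ P, ∀ π' ∈ P, FinO (Fr S a π π') (C π π'))
    {p₀ : ℝ} (hp₀ : 0 < p₀) (hpC : ∀ π ∈ P, ∀ π' ∈ P, p₀ ≤ (law μ).real (C π π'))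
    {w₀ Zc : Env → ℝ} (w₀0 : ∀ η, 0 ≤ w₀ η) (hw₀ : ∀ ξ ω, w₀ (gl B ξ ω) = w₀ ω)
    (hle : ∀ η, ∑ π ∈ P, kap p a N k π η ≤ Zc η) {C₀ : ℝ} (hcore : ∀ η ∈ T, Zc η ≤ C₀ * ∑ π ∈ P, kap p a N k π η)
    (hK : ∀ η, w₀ η * Zc η ^ 2 ≤ D η) (ω : Env) :
    ∫⁻ ξ, T.indicator (fun η => ENNReal.ofReal (w₀ η * Zc η ^ 2 / D η)) (gl B ξ ω) ∂(law μ) ≤
      ENNReal.ofReal (C₀ ^ 2 * (2 / p₀)) * ∫⁻ ξ, (T ∩ Gd66 P (kap p a N k) C (p₀ / 2)).indicator
        (fun η => ENNReal.ofReal (w₀ η * Zc η ^ 2 / D η)) (gl B ξ ω) ∂(law μ) := by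
  have : IsProbabilityMeasure (law μ) := by unfold law; infer_instance
  set Z : Env → ℝ := fun η => ∑ π ∈ P, kap p a N k π η with hZ
  have Z0 : ∀ η, 0 ≤ Z η := fun η => sum_nonneg fun π _ => kap_nonneg hp k0 π η
  have mZ' : Measurable Z := Finset.measurable_sum _ fun π _ => measurable_kap mk π
  set G : Set Env := Gd66 P (kap p a N k) C (p₀ / 2) with hG
  have mG : MeasurableSet G := measurable_Gd66 (fun π => measurable_kap mk π) mC _
  rcases eq_or_lt_of_le (w₀0 ω) with h0 | h0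
  · have e : ∀ ξ, T.indicator (fun η => ENNReal.ofReal (w₀ η * Zc η ^ 2 / D η)) (gl B ξ ω) = 0 := fun ξ => by
      by_cases h : gl B ξ ω ∈ T
      · rw [Set.indicator_of_mem h, hw₀, ← h0, zero_mul, zero_div, ENNReal.ofReal_zero]
      · rw [Set.indicator_of_notMem h]
    rw [lintegral_congr e, lintegral_zero]
    exact zero_le
  have hKξ : ∀ ξ, Z (gl B ξ ω) ^ 2 ≤ (w₀ ω)⁻¹ * D (gl B ξ ω) := fun ξ => by
    have h1 := hK (gl B ξ ω)
    rw [hw₀] at h1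
    have h2 : Z (gl B ξ ω) ^ 2 ≤ Zc (gl B ξ ω) ^ 2 := pow_le_pow_left₀ (Z0 _) (hle _) 2
    rw [← div_eq_inv_mul, le_div_iff₀ h0, mul_comm]
    exact (mul_le_mul_of_nonneg_left h2 h0.le).trans h1
  have h1 := favgW58 (μ := μ) (n := n) (a := a) (N := N) (P := P) (k := k) (S := S) (W := B) hp hS hSB k0 mk hk mD hD hDm mT hT mC
    hC fC hp₀ hpC ω hKξ
  -- `F = w₀ Z² / D`
  set F : Env → ℝ := fun η => Z η ^ 2 / D η with hF
  have mF : Measurable F := (mZ'.pow_const 2).div mD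
  have F0 : ∀ η, 0 ≤ F η := fun η => div_nonneg (sq_nonneg _) (hD η).le
  have FK : ∀ ξ, F (gl B ξ ω) ≤ (w₀ ω)⁻¹ := fun ξ => (div_le_iff₀ (hD _)).2 (hKξ ξ)
  have hC2 : 0 ≤ C₀ ^ 2 * (2 / p₀) := by positivity
  have a1 : ∀ ξ, T.indicator (fun η => ENNReal.ofReal (w₀ η * Zc η ^ 2 / D η)) (gl B ξ ω) ≤
      ENNReal.ofReal (w₀ ω * C₀ ^ 2) * T.indicator (fun η => ENNReal.ofReal (F η)) (gl B ξ ω) := fun ξ => by
    by_cases h : gl B ξ ω ∈ T
    · rw [Set.indicator_of_mem h, Set.indicator_of_mem h, hw₀, ← ENNReal.ofReal_mul (by positivity)]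
      refine ENNReal.ofReal_le_ofReal ?_
      rw [hF]
      simp only
      rw [← mul_div_assoc]
      refine div_le_div_of_nonneg_right ?_ (hD _).le
      rw [mul_assoc]
      refine mul_le_mul_of_nonneg_left ?_ h0.le
      rw [← mul_pow]
      exact pow_le_pow_left₀ ((Z0 _).trans (hle _)) (hcore _ h) 2
    · rw [Set.indicator_of_notMem h]
      exact zero_le
  have a2 : ∀ ξ, ENNReal.ofReal (w₀ ω) * (T ∩ G).indicator (fun η => ENNReal.ofReal (F η)) (gl B ξ ω) ≤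
      (T ∩ G).indicator (fun η => ENNReal.ofReal (w₀ η * Zc η ^ 2 / D η)) (gl B ξ ω) := fun ξ => by
    by_cases h : gl B ξ ω ∈ T ∩ G
    · rw [Set.indicator_of_mem h, Set.indicator_of_mem h, hw₀, ← ENNReal.ofReal_mul h0.le]
      refine ENNReal.ofReal_le_ofReal ?_
      rw [hF]
      simp only
      rw [← mul_div_assoc]
      exact div_le_div_of_nonneg_right (mul_le_mul_of_nonneg_left (pow_le_pow_left₀ (Z0 _) (hle _) 2) h0.le) (hD _).le
    · rw [Set.indicator_of_notMem h, mul_zero]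
      exact zero_le
  have mg : Measurable fun ξ => gl B ξ ω := measurable_gl_left B ω
  have mI : ∀ {A : Set Env}, MeasurableSet A → Measurable fun ξ => A.indicator (fun η => ENNReal.ofReal (F η)) (gl B ξ ω) :=
    fun mA => (mF.ennreal_ofReal.indicator mA).comp mg
  calc ∫⁻ ξ, T.indicator (fun η => ENNReal.ofReal (w₀ η * Zc η ^ 2 / D η)) (gl B ξ ω) ∂(law μ)
      ≤ ∫⁻ ξ, ENNReal.ofReal (w₀ ω * C₀ ^ 2) * T.indicator (fun η => ENNReal.ofReal (F η)) (gl B ξ ω) ∂(law μ) :=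
        lintegral_mono a1
    _ = ENNReal.ofReal (w₀ ω * C₀ ^ 2) * ENNReal.ofReal (∫ ξ in {ξ | gl B ξ ω ∈ T}, F (gl B ξ ω) ∂(law μ)) := by
        rw [lintegral_const_mul _ (mI mT), lint_gl mT mF F0 ω FK]
    _ ≤ ENNReal.ofReal (w₀ ω * C₀ ^ 2) * ENNReal.ofReal ((2 / p₀) * ∫ ξ in {ξ | gl B ξ ω ∈ T ∩ G}, F (gl B ξ ω) ∂(law μ)) :=
        mul_le_mul' le_rfl (ENNReal.ofReal_le_ofReal h1)
    _ = ENNReal.ofReal (C₀ ^ 2 * (2 / p₀)) * (ENNReal.ofReal (w₀ ω) *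
          ENNReal.ofReal (∫ ξ in {ξ | gl B ξ ω ∈ T ∩ G}, F (gl B ξ ω) ∂(law μ))) := by
        rw [ENNReal.ofReal_mul (p := w₀ ω) h0.le, ENNReal.ofReal_mul (p := 2 / p₀) (by positivity),
          ENNReal.ofReal_mul (p := C₀ ^ 2) (by positivity)]
        ring
    _ = ENNReal.ofReal (C₀ ^ 2 * (2 / p₀)) *
          ∫⁻ ξ, ENNReal.ofReal (w₀ ω) * (T ∩ G).indicator (fun η => ENNReal.ofReal (F η)) (gl B ξ ω) ∂(law μ) := by
        rw [lintegral_const_mul _ (mI (mT.inter mG)), lint_gl (mT.inter mG) mF F0 ω FK]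
    _ ≤ _ := mul_le_mul' le_rfl (lintegral_mono a2)

/-! ### The contacts of a context -/

variable {Γ : H60.Cx}

/-- The part of the natural weight before the contact. -/
def w0 (Γ : H60.Cx) (c : ℕ × ℤ) (η : Env) : ℝ :=
  dp (wt η) Γ.p H60.Cx.l Γ.r c.1 (c.2 - 1) c.2 * (Γ.p c.1 * (wt η c.1 (c.2 - 1) * wt η c.1 c.2))

/-- The total of the contact. -/
def zc (Γ : H60.Cx) (c : ℕ × ℤ) (η : Env) : ℝ := bw (wt η) Γ.p (c.1 + 1) (Γ.N - (c.1 + 1)) c.2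

theorem w_eq (Γ : H60.Cx) (c : ℕ × ℤ) (η : Env) : Γ.w c η = w0 Γ c η * zc Γ c η ^ 2 / (Γ.ZM η * Γ.ZR η) := by
  unfold H60.Cx.w w0 zc
  ring

theorem D_pos (h : Γ.Ok) (η : Env) : 0 < Γ.ZM η * Γ.ZR η := mul_pos (H60.Cx.ZM_pos Γ η) (H60.Cx.ZR_pos h η)

theorem zc_pos (c : ℕ × ℤ) (η : Env) : 0 < zc Γ c η := bw_pos (wt_pos η) (H60.Cx.p_pos Γ) _ _ _

theorem w0_nonneg (h : Γ.Ok) (c : ℕ × ℤ) (η : Env) : 0 ≤ w0 Γ c η := by
  have h1 := H60.Cx.w_nonneg h c η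
  rw [w_eq] at h1
  by_contra hc
  have h2 : w0 Γ c η * zc Γ c η ^ 2 / (Γ.ZM η * Γ.ZR η) < 0 :=
    div_neg_of_neg_of_pos (mul_neg_of_neg_of_pos (not_le.1 hc) (pow_pos (zc_pos c η) 2)) (D_pos h η)
  linarith

theorem w0_gl {c : ℕ × ℤ} {B : Set Pt} (hB : ∀ x ∈ B, (c.1 : ℤ) < x.1) (ξ ω : Env) : w0 Γ c (gl B ξ ω) = w0 Γ c ω := by
  have hw : ∀ i z, i < c.1 + 1 → wt (gl B ξ ω) i z = wt ω i z := fun i z hi => wt_eq (by
    have h : ((i : ℤ), z) ∉ B := fun hx => by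
      have := hB _ hx
      simp only at this
      omega
    unfold gl
    rw [if_neg h])
  have hf : ∀ (m : ℤ → ℝ) (y : ℤ), fw (wt (gl B ξ ω)) Γ.p m c.1 y = fw (wt ω) Γ.p m c.1 y := fun m y =>
    PW58.fw_congr m c.1 y fun i z hi => hw i z (by omega)
  unfold w0 dp
  rw [hf, hf, hf, hf, hw c.1 _ (by omega), hw c.1 _ (by omega)]

theorem D_mono (h : Γ.Ok) {η η' : Env} (hη : ∀ x, η x ≤ η' x) : Γ.ZM η * Γ.ZR η ≤ Γ.ZM η' * Γ.ZR η' := by
  have h1 : ∀ j k y, bw (wt η) Γ.p k j y ≤ bw (wt η') Γ.p k j y := fun j k y =>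
    bw_mono10 (fun i z => (wt_pos η i z).le) (wt_mono hη) (H60.Cx.p_pos Γ) j k y
  refine mul_le_mul (h1 _ _ _) (sum_le_sum fun y _ => mul_le_mul_of_nonneg_left (h1 _ _ _) (H60.Cx.r_nonneg h y)) (H60.Cx.ZR_pos h η).le
    (H60.Cx.ZM_pos Γ η').le

/-- **THE FIELD `hgate` FOR THE NATURAL WEIGHT OF A CONTACT OF A CONTEXT.** Window `B` of the rows above the contact, walls `S ⊆ B` in the
rows `a, …, a + n - 1`, `P` = paths of the core from the row `a`. -/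
theorem hgateC58 [IsProbabilityMeasure μ] (h : Γ.Ok) {c : ℕ × ℤ} (hc : c ∈ Γ.rows 0 Γ.N) {a : ℕ} (hca : c.1 + 1 ≤ a) (hN : a + n ≤ Γ.N)
    {Co : ℕ → ℤ → Prop} {I : Finset ℤ} (hI : ∀ y ∈ I, c.2 ≤ y ∧ y ≤ c.2 + (a - (c.1 + 1) : ℕ)) {S B : Set Pt} (hS : InRows a n S)
    (hSB : S ⊆ B) (hB : ∀ x ∈ B, (c.1 : ℤ) < x.1) {T : Set Env} (mT : MeasurableSet T)
    (hT : ∀ π ∈ Ps Co I n, ∀ π' ∈ Ps Co I n, DecO (Fr S a π π') T) {C : Pa n → Pa n → Set Env} (mC : ∀ π π', MeasurableSet (C π π'))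
    (hC : ∀ π ∈ Ps Co I n, ∀ π' ∈ Ps Co I n, DecO (Fr S a π π') (C π π'))
    (fC : ∀ π ∈ Ps Co I n, ∀ π' ∈ Ps Co I n, FinO (Fr S a π π') (C π π')) {p₀ : ℝ} (hp₀ : 0 < p₀)
    (hpC : ∀ π ∈ Ps Co I n, ∀ π' ∈ Ps Co I n, p₀ ≤ (law μ).real (C π π')) {C₀ : ℝ}
    (hcore : ∀ η ∈ T, zc Γ c η ≤ C₀ * ∑ π ∈ Ps Co I n, kap Γ.p a Γ.N (kc Γ.p (c.1 + 1) a c.2) π η) (ω : Env) :
    ∫⁻ ξ, T.indicator (fun η => ENNReal.ofReal (Γ.w c η)) (gl B ξ ω) ∂(law μ) ≤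
      ENNReal.ofReal (C₀ ^ 2 * (2 / p₀)) * ∫⁻ ξ, (T ∩ Gd66 (Ps Co I n) (kap Γ.p a Γ.N (kc Γ.p (c.1 + 1) a c.2)) C (p₀ / 2)).indicator
        (fun η => ENNReal.ofReal (Γ.w c η)) (gl B ξ ω) ∂(law μ) := by
  have e : (fun η => ENNReal.ofReal (Γ.w c η)) = fun η => ENNReal.ofReal (w0 Γ c η * zc Γ c η ^ 2 / (Γ.ZM η * Γ.ZR η)) :=
    funext fun η => by rw [w_eq]
  rw [e]
  have hp := H60.Cx.p_pos Γ
  refine hgate58 (N := Γ.N) hp hS hSB (fun η y => kc_nonneg hp _ _ _ η y) (measurable_kc (p := Γ.p) (c.1 + 1) a c.2)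
    (fun η η' hη y => kc_off hca hS c.2 η η' hη y) (D := fun η => Γ.ZM η * Γ.ZR η) ((H60.Cx.meas_ZM Γ).mul (H60.Cx.meas_ZR Γ))
    (D_pos h) (fun η η' hη => D_mono h hη) mT hT mC hC fC hp₀ hpC (w₀ := w0 Γ c) (Zc := zc Γ c) (w0_nonneg h c) (w0_gl hB)
    (fun η => sum_kap hp hca hN c.2 I hI η) hcore (fun η => ?_) ω
  have h1 := H60.Cx.w_le_one h hc η
  rw [w_eq, div_le_one (D_pos h η)] at h1
  exact h1

/-! ### General form: `T ⊆ TF`, the prefactor reads the window off the walls, core weight on the right -/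

/-- **THE GATE IN THE AVERAGE, core weight.** Only `TF` is decreasing in the wall sites; `w₀` reads no wall site; `D` is nondecreasing. -/
theorem hgateF58 [IsProbabilityMeasure μ] {a : ℕ} {P : Finset (Pa n)} {k : Env → ℤ → ℝ} {S B : Set Pt} (hp : ∀ i, 0 < p i)
    (hS : InRows a n S) (hSB : S ⊆ B) (k0 : ∀ η y, 0 ≤ k η y) (mk : ∀ y, Measurable fun η => k η y)
    (hk : ∀ η η' : Env, (∀ x, x ∉ S → η x = η' x) → ∀ y, k η y = k η' y)
    {D : Env → ℝ} (mD : Measurable D) (hD : ∀ η, 0 < D η) (hDm : ∀ η η' : Env, (∀ x, η x ≤ η' x) → D η ≤ D η')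
    {TF : Set Env} (mTF : MeasurableSet TF) (hTF : ∀ π ∈ P, ∀ π' ∈ P, DecO (Fr S a π π') TF)
    {C : Pa n → Pa n → Set Env} (mC : ∀ π π', MeasurableSet (C π π'))
    (hC : ∀ π ∈ P, ∀ π' ∈ P, DecO (Fr S a π π') (C π π')) (fC : ∀ π ∈ P, ∀ π' ∈ P, FinO (Fr S a π π') (C π π'))
    {p₀ : ℝ} (hp₀ : 0 < p₀) (hpC : ∀ π ∈ P, ∀ π' ∈ P, p₀ ≤ (law μ).real (C π π'))
    {w₀ : Env → ℝ} (w₀0 : ∀ η, 0 ≤ w₀ η) (mw₀ : Measurable w₀)
    (hw₀ : ∀ η η' : Env, (∀ x, x ∉ S → η x = η' x) → w₀ η = w₀ η') {K : ℝ}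
    (ω : Env) (hK : ∀ ξ, w₀ (gl B ξ ω) * (∑ π ∈ P, kap p a N k π (gl B ξ ω)) ^ 2 ≤ K * D (gl B ξ ω)) :
    ∫⁻ ξ, TF.indicator (fun η => ENNReal.ofReal (w₀ η * (∑ π ∈ P, kap p a N k π η) ^ 2 / D η)) (gl B ξ ω) ∂(law μ) ≤
      ENNReal.ofReal (2 / p₀) * ∫⁻ ξ, (TF ∩ Gd66 P (kap p a N k) C (p₀ / 2)).indicator
        (fun η => ENNReal.ofReal (w₀ η * (∑ π ∈ P, kap p a N k π η) ^ 2 / D η)) (gl B ξ ω) ∂(law μ) := by
  have : IsProbabilityMeasure (law μ) := by unfold law; infer_instance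
  set k' : Env → ℤ → ℝ := fun η y => Real.sqrt (w₀ η) * k η y with hk'
  have ek : ∀ (π : Pa n) (η : Env), kap p a N k' π η = Real.sqrt (w₀ η) * kap p a N k π η := fun π η => by
    unfold kap
    rw [hk']
    ring
  have eS : ∀ η, (∑ π ∈ P, kap p a N k' π η) ^ 2 = w₀ η * (∑ π ∈ P, kap p a N k π η) ^ 2 := fun η => by
    rw [sum_congr rfl fun π _ => ek π η, ← mul_sum, mul_pow, Real.sq_sqrt (w₀0 η)]
  have k0' : ∀ η y, 0 ≤ k' η y := fun η y => mul_nonneg (Real.sqrt_nonneg _) (k0 η y)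
  have mk' : ∀ y, Measurable fun η => k' η y := fun y => (mw₀.sqrt).mul (mk y)
  have hkk : ∀ η η' : Env, (∀ x, x ∉ S → η x = η' x) → ∀ y, k' η y = k' η' y := fun η η' h y => by
    rw [hk']
    simp only
    rw [hw₀ η η' h, hk η η' h y]
  have hK' : ∀ ξ, (∑ π ∈ P, kap p a N k' π (gl B ξ ω)) ^ 2 ≤ K * D (gl B ξ ω) := fun ξ => by
    rw [eS]
    exact hK ξ
  have h1 := favgW58 (μ := μ) (n := n) (a := a) (N := N) (P := P) (k := k') (S := S) (W := B) hp hS hSB k0' mk' hkk mD hD hDm mTF hTF mC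
    hC fC hp₀ hpC ω hK'
  set G' : Set Env := Gd66 P (kap p a N k') C (p₀ / 2) with hG'
  have mG' : MeasurableSet G' := measurable_Gd66 (fun π => measurable_kap mk' π) mC _
  set F : Env → ℝ := fun η => (∑ π ∈ P, kap p a N k' π η) ^ 2 / D η with hF
  have mF : Measurable F := ((Finset.measurable_sum _ fun π _ => measurable_kap mk' π).pow_const 2).div mD
  have F0 : ∀ η, 0 ≤ F η := fun η => div_nonneg (sq_nonneg _) (hD η).le
  have FK : ∀ ξ, F (gl B ξ ω) ≤ K := fun ξ => (div_le_iff₀ (hD _)).2 (hK' ξ)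
  have eF : (fun η => ENNReal.ofReal (w₀ η * (∑ π ∈ P, kap p a N k π η) ^ 2 / D η)) = fun η => ENNReal.ofReal (F η) :=
    funext fun η => by
      rw [hF]
      simp only
      rw [eS]
  rw [eF, lint_gl mTF mF F0 ω FK]
  have h2 : (TF ∩ G').indicator (fun η => ENNReal.ofReal (F η)) ≤
      (TF ∩ Gd66 P (kap p a N k) C (p₀ / 2)).indicator (fun η => ENNReal.ofReal (F η)) := by
    intro η
    by_cases h : η ∈ TF ∩ G'
    · rcases eq_or_lt_of_le (w₀0 η) with h0 | h0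
      · have e : F η = 0 := by
          rw [hF]
          simp only
          rw [eS, ← h0, zero_mul, zero_div]
        rw [Set.indicator_of_mem h]
        simp only
        rw [e, ENNReal.ofReal_zero]
        exact zero_le
      · have h3 : η ∈ TF ∩ Gd66 P (kap p a N k) C (p₀ / 2) := by
          refine ⟨h.1, ?_⟩
          have h4 : p₀ / 2 * (∑ π ∈ P, kap p a N k' π η) ^ 2 ≤ QC P (kap p a N k') C η := h.2
          have h5 : QC P (kap p a N k') C η = w₀ η * QC P (kap p a N k) C η := by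
            unfold QC
            rw [mul_sum]
            refine sum_congr rfl fun π _ => ?_
            rw [mul_sum]
            refine sum_congr rfl fun π' _ => ?_
            split_ifs
            · rw [ek, ek]
              have e3 := Real.mul_self_sqrt (w₀0 η)
              calc Real.sqrt (w₀ η) * kap p a N k π η * (Real.sqrt (w₀ η) * kap p a N k π' η)
                  = (Real.sqrt (w₀ η) * Real.sqrt (w₀ η)) * (kap p a N k π η * kap p a N k π' η) := by ring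
                _ = _ := by rw [e3]
            · rw [mul_zero]
          rw [h5, eS] at h4
          show p₀ / 2 * (∑ π ∈ P, kap p a N k π η) ^ 2 ≤ QC P (kap p a N k) C η
          refine le_of_mul_le_mul_left (a := w₀ η) ?_ h0
          calc w₀ η * (p₀ / 2 * (∑ π ∈ P, kap p a N k π η) ^ 2) = p₀ / 2 * (w₀ η * (∑ π ∈ P, kap p a N k π η) ^ 2) := by ring
            _ ≤ _ := h4
        rw [Set.indicator_of_mem h, Set.indicator_of_mem h3]
    · rw [Set.indicator_of_notMem h]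
      exact zero_le
  calc ENNReal.ofReal (∫ ξ in {ξ | gl B ξ ω ∈ TF}, F (gl B ξ ω) ∂(law μ))
      ≤ ENNReal.ofReal ((2 / p₀) * ∫ ξ in {ξ | gl B ξ ω ∈ TF ∩ G'}, F (gl B ξ ω) ∂(law μ)) := ENNReal.ofReal_le_ofReal h1
    _ = ENNReal.ofReal (2 / p₀) * ∫⁻ ξ, (TF ∩ G').indicator (fun η => ENNReal.ofReal (F η)) (gl B ξ ω) ∂(law μ) := by
        rw [ENNReal.ofReal_mul (p := 2 / p₀) (by positivity), lint_gl (mTF.inter mG') mF F0 ω FK]
    _ ≤ _ := mul_le_mul' le_rfl (lintegral_mono fun ξ => h2 _)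

/-- **THE SAME FROM THE FULL WEIGHT ON `T ⊆ TF`**, where the core carries the share `1 / C₀`. -/
theorem hgateT58 [IsProbabilityMeasure μ] {a : ℕ} {P : Finset (Pa n)} {k : Env → ℤ → ℝ} {S B : Set Pt} (hp : ∀ i, 0 < p i)
    (hS : InRows a n S) (hSB : S ⊆ B) (k0 : ∀ η y, 0 ≤ k η y) (mk : ∀ y, Measurable fun η => k η y)
    (hk : ∀ η η' : Env, (∀ x, x ∉ S → η x = η' x) → ∀ y, k η y = k η' y)
    {D : Env → ℝ} (mD : Measurable D) (hD : ∀ η, 0 < D η) (hDm : ∀ η η' : Env, (∀ x, η x ≤ η' x) → D η ≤ D η')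
    {T TF : Set Env} (hTT : T ⊆ TF) (mTF : MeasurableSet TF) (hTF : ∀ π ∈ P, ∀ π' ∈ P, DecO (Fr S a π π') TF)
    {C : Pa n → Pa n → Set Env} (mC : ∀ π π', MeasurableSet (C π π'))
    (hC : ∀ π ∈ P, ∀ π' ∈ P, DecO (Fr S a π π') (C π π')) (fC : ∀ π ∈ P, ∀ π' ∈ P, FinO (Fr S a π π') (C π π'))
    {p₀ : ℝ} (hp₀ : 0 < p₀) (hpC : ∀ π ∈ P, ∀ π' ∈ P, p₀ ≤ (law μ).real (C π π'))
    {w₀ Zc : Env → ℝ} (w₀0 : ∀ η, 0 ≤ w₀ η) (mw₀ : Measurable w₀)
    (hw₀ : ∀ η η' : Env, (∀ x, x ∉ S → η x = η' x) → w₀ η = w₀ η') {K : ℝ}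
    (ω : Env) (hK : ∀ ξ, w₀ (gl B ξ ω) * (∑ π ∈ P, kap p a N k π (gl B ξ ω)) ^ 2 ≤ K * D (gl B ξ ω))
    {C₀ : ℝ} (hZ : ∀ η, 0 ≤ Zc η) (hcore : ∀ η ∈ T, Zc η ≤ C₀ * ∑ π ∈ P, kap p a N k π η) :
    ∫⁻ ξ, T.indicator (fun η => ENNReal.ofReal (w₀ η * Zc η ^ 2 / D η)) (gl B ξ ω) ∂(law μ) ≤
      ENNReal.ofReal (C₀ ^ 2 * (2 / p₀)) * ∫⁻ ξ, (TF ∩ Gd66 P (kap p a N k) C (p₀ / 2)).indicator
        (fun η => ENNReal.ofReal (w₀ η * (∑ π ∈ P, kap p a N k π η) ^ 2 / D η)) (gl B ξ ω) ∂(law μ) := by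
  have h1 := hgateF58 (μ := μ) (N := N) hp hS hSB k0 mk hk mD hD hDm mTF hTF mC hC fC hp₀ hpC w₀0 mw₀ hw₀ ω hK
  have mg : Measurable fun ξ => gl B ξ ω := measurable_gl_left B ω
  have mF : Measurable fun η => w₀ η * (∑ π ∈ P, kap p a N k π η) ^ 2 / D η :=
    (mw₀.mul ((Finset.measurable_sum _ fun π _ => measurable_kap mk π).pow_const 2)).div mD
  have a1 : ∀ ξ, T.indicator (fun η => ENNReal.ofReal (w₀ η * Zc η ^ 2 / D η)) (gl B ξ ω) ≤ ENNReal.ofReal (C₀ ^ 2) *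
      TF.indicator (fun η => ENNReal.ofReal (w₀ η * (∑ π ∈ P, kap p a N k π η) ^ 2 / D η)) (gl B ξ ω) := fun ξ => by
    by_cases h : gl B ξ ω ∈ T
    · rw [Set.indicator_of_mem h, Set.indicator_of_mem (hTT h), ← ENNReal.ofReal_mul (sq_nonneg _)]
      refine ENNReal.ofReal_le_ofReal ?_
      rw [← mul_div_assoc]
      refine div_le_div_of_nonneg_right ?_ (hD _).le
      calc w₀ (gl B ξ ω) * Zc (gl B ξ ω) ^ 2 ≤ w₀ (gl B ξ ω) * (C₀ * ∑ π ∈ P, kap p a N k π (gl B ξ ω)) ^ 2 :=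
            mul_le_mul_of_nonneg_left (pow_le_pow_left₀ (hZ _) (hcore _ h) 2) (w₀0 _)
        _ = _ := by ring
    · rw [Set.indicator_of_notMem h]
      exact zero_le
  calc ∫⁻ ξ, T.indicator (fun η => ENNReal.ofReal (w₀ η * Zc η ^ 2 / D η)) (gl B ξ ω) ∂(law μ)
      ≤ ∫⁻ ξ, ENNReal.ofReal (C₀ ^ 2) *
          TF.indicator (fun η => ENNReal.ofReal (w₀ η * (∑ π ∈ P, kap p a N k π η) ^ 2 / D η)) (gl B ξ ω) ∂(law μ) := lintegral_mono a1
    _ = ENNReal.ofReal (C₀ ^ 2) * ∫⁻ ξ,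
          TF.indicator (fun η => ENNReal.ofReal (w₀ η * (∑ π ∈ P, kap p a N k π η) ^ 2 / D η)) (gl B ξ ω) ∂(law μ) :=
        lintegral_const_mul _ ((mF.ennreal_ofReal.indicator mTF).comp mg)
    _ ≤ _ := mul_le_mul' le_rfl h1
    _ = _ := by rw [← mul_assoc, ← ENNReal.ofReal_mul (sq_nonneg _)]

end

end Pool.Agent.W_7d29a1_C1.PW58
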