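import Pool.Agent.W_7d29a1_C1.HcoA62
import Pool.Agent.W_7d29a1_C1.Ou37
import Pool.Agent.W_7d29a1_C1.GateU18
import Pool.Agent.W_7d29a1_C1.StayG78
import Pool.Agent.W_7d29a1_C1.PathW58

/-!
MP_7d29a1_pr, attractor route, [C1] SEP: **THE MASS OF A CONTACT THROUGH THE CORE OF THE GATE BLOCK** (`hcore` of the early moment and of
the comparison), in the letters of the model. (helper62)

`la v c0 k y = y - v k - c0` lateral place. `C62`: row `0` of the block `|la| ≤ R0`, the other rows `|la| ≤ R1`.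
* `exit_le62` : one exit site: killed kernel, switch row anywhere, tame normalised masses (`bn` of Ou37);
* `hcore62` : stay at the row `a` (`e1`, strip `R00`), upper levels `W ≤ U` from the strip to the sites just beyond the next one, tame
  masses (reference = the inner place): `(1 - (e1 + 2 n₀ B0) - 2 n B1) bw ≤ ∑ kap` over the core paths;
* `st62`, `up62`, `tm62`, `tmP62` : these three from `St` (StayG78), `T3` (GateU18), `OuT` (Ou37), the profile clause of every row.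
-/

set_option autoImplicit false

namespace Pool.Agent.W_7d29a1_C1.Hc62

open Finset MeasureTheory
open Pool.Agent.W_7d29a1_F hiding Bw G
open Pool.Agent.W_7d29a1_h4g Pool.Agent.W_7d29a1_HS
open Pool.Agent.W_7d29a1_H hiding ex gg
open Pool.Agent.W_7d29a1_C1.K91 (wt wt_pos)
open Pool.Agent.W_7d29a1_C1.K91P (fw bw bw_pos)
open Pool.Agent.W_7d29a1_C1.U16 (ker ker_nonneg ker_eq_zero lat16)
open Pool.Agent.W_7d29a1_C1.FarW89 (bl bl_add)
open Pool.Agent.W_7d29a1_C1.Sp22 (kw bf_ker)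
open Pool.Agent.W_7d29a1_C1.Br32 (kil_up)
open Pool.Agent.W_7d29a1_C1.Gt66 (Pa Ps)
open Pool.Agent.W_7d29a1_C1.PW58 (kap kc)
open Pool.Agent.W_7d29a1_C1.G37 (Gm)
open Pool.Agent.W_7d29a1_C1.Rt22 (gg)
open Pool.Agent.W_7d29a1_C1.Ou37 (gam bn bn_pos bw_bn Zo OuT)
open Pool.Agent.W_7d29a1_C1.GL18 (T3 t3_W)
open Pool.Agent.W_7d29a1_C1.Sy78 (St Rg St_bF)
open Pool.Agent.W_7d29a1_C1.H75 (hc)

noncomputable section

attribute [local instance 10] Classical.propDecidable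

variable {v c0 R0 R1 : ℝ}

/-- The lateral place. -/
def la (v c0 : ℝ) (k : ℕ) (y : ℤ) : ℝ := (y : ℝ) - v * k - c0

/-- The core at the true rows. -/
def Co62 (v c0 R1 : ℝ) (k : ℕ) (y : ℤ) : Prop := |la v c0 k y| ≤ R1

/-- The core at the rows of the block: inner core in the first row. -/
def C62 (v c0 R0 R1 : ℝ) (a r : ℕ) (y : ℤ) : Prop := if r = 0 then |la v c0 a y| ≤ R0 else |la v c0 (a + r) y| ≤ R1

/-- The sites just beyond the core. -/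
def Fx62 (v c0 R1 : ℝ) (k : ℕ) : Finset ℤ := {⌊v * k + c0 + R1⌋ + 1, ⌈v * k + c0 - R1⌉ - 1}

theorem fx_card (k : ℕ) : (Fx62 v c0 R1 k).card ≤ 2 := card_le_two

theorem fx_mem {k : ℕ} {y : ℤ} (h : R1 < |la v c0 k y|) (h' : |la v c0 k y| ≤ R1 + 1) : y ∈ Fx62 v c0 R1 k := by
  unfold Fx62
  rw [mem_insert, mem_singleton]
  unfold la at h h'
  rcases abs_cases ((y : ℝ) - v * k - c0) with ⟨h1, _⟩ | ⟨h1, _⟩
  · left
    rw [h1] at h h'
    have h2 : ⌊v * k + c0 + R1⌋ = y - 1 := by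
      rw [Int.floor_eq_iff]
      push_cast
      constructor <;> linarith
    omega
  · right
    rw [h1] at h h'
    have h2 : ⌈v * k + c0 - R1⌉ = y + 1 := by
      rw [Int.ceil_eq_iff]
      push_cast
      constructor <;> linarith
    omega

theorem fx_la (hR : 0 ≤ R1) {k : ℕ} {y : ℤ} (h : y ∈ Fx62 v c0 R1 k) : R1 < |la v c0 k y| ∧ |la v c0 k y| ≤ R1 + 1 := by
  unfold Fx62 at h
  rw [mem_insert, mem_singleton] at h
  rcases h with h | h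
  · have h1 := Int.floor_le (v * k + c0 + R1)
    have h2 := Int.lt_floor_add_one (v * k + c0 + R1)
    have h3 : (y : ℝ) = ⌊v * k + c0 + R1⌋ + 1 := by
      rw [h]
      push_cast
      ring
    have h4 : 0 ≤ la v c0 k y := by unfold la; linarith
    rw [abs_of_nonneg h4]
    unfold la
    constructor <;> linarith
  · have h1 := Int.le_ceil (v * k + c0 - R1)
    have h2 := Int.ceil_lt_add_one (v * k + c0 - R1)
    have h3 : (y : ℝ) = ⌈v * k + c0 - R1⌉ - 1 := by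
      rw [h]
      push_cast
      ring
    have h4 : la v c0 k y ≤ 0 := by unfold la; linarith
    rw [abs_of_nonpos h4]
    unfold la
    constructor <;> linarith

theorem la_step (hv0 : 0 ≤ v) (hv1 : v ≤ 1) (k : ℕ) (y d : ℤ) (hd : d = 0 ∨ d = 1) : |la v c0 (k + 1) (y + d)| ≤ |la v c0 k y| + 1 := by
  have h1 : la v c0 (k + 1) (y + d) = la v c0 k y + (d - v) := by
    unfold la
    push_cast
    ring
  rw [h1]
  refine (abs_add_le _ _).trans (add_le_add le_rfl ?_)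
  rw [abs_le]
  rcases hd with rfl | rfl
  · push_cast
    constructor <;> linarith
  · push_cast
    constructor <;> linarith

theorem fx_step (hv0 : 0 ≤ v) (hv1 : v ≤ 1) (r : ℕ) (y : ℤ) (h : Co62 v c0 R1 r y) :
    (¬ Co62 v c0 R1 (r + 1) y → y ∈ Fx62 v c0 R1 (r + 1)) ∧ (¬ Co62 v c0 R1 (r + 1) (y + 1) → y + 1 ∈ Fx62 v c0 R1 (r + 1)) := by
  have h0 : |la v c0 r y| ≤ R1 := h
  constructor
  · intro h1
    have h2 := la_step (c0 := c0) hv0 hv1 r y 0 (Or.inl rfl)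
    rw [add_zero] at h2
    exact fx_mem (not_le.1 h1) (by linarith)
  · intro h1
    exact fx_mem (not_le.1 h1) (by linarith [la_step (c0 := c0) hv0 hv1 r y 1 (Or.inr rfl)])

/-- Differences of lateral places. -/
theorem la_sub (a j : ℕ) (x y : ℤ) : ((y - x : ℤ) : ℝ) - v * j = la v c0 (a + j) y - la v c0 a x := by
  unfold la
  push_cast
  ring

variable {μ : Measure ℝ} {s : ℝ} {Γ : H60.Cx}

/-- The gauge over `j` rows. -/
theorem gam_add {a j : ℕ} (h : a + j ≤ Γ.N) (x y : ℤ) :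
    gam μ s Γ a x = Real.exp (j * lam μ s + Γ.h * sl μ s * bl Γ.M a j) * gam μ s Γ (a + j) y := by
  unfold gam
  rw [← Real.exp_add]
  have e1 : Γ.N - a = j + (Γ.N - (a + j)) := by omega
  have e2 : bl Γ.M a (Γ.N - a) = bl Γ.M a j + bl Γ.M (a + j) (Γ.N - (a + j)) := by
    rw [← bl_add, ← e1]
  rw [e2, e1]
  congr 1
  push_cast
  ring

/-- **ONE EXIT SITE.** -/
theorem exit_le62 (hs : Γ.s = s) {η : Env} {a j : ℕ} (haj : a + j ≤ Γ.N) {x y : ℤ} (h0 : R0 ≤ R1)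
    (hx : |la (sl μ s) c0 a x| ≤ R0) (hy : |la (sl μ s) c0 (a + j) y| ≤ R1 + 1) {U A : ℝ}
    (hU : W μ s η ((a : ℤ), x) j (y - x) ≤ U) (hA : bn μ s Γ (a + j) y η ≤ Real.exp A * bn μ s Γ a x η) :
    ker (kw (Dc (Co62 (sl μ s) c0 R1))ᶜ (wt η)) Γ.p a j x y * bw (wt η) Γ.p (a + j) (Γ.N - (a + j)) y ≤
      Real.exp (|Γ.h| * (2 * R1 + 1) + A) * U * bw (wt η) Γ.p a (Γ.N - a) x := by
  obtain ⟨m, hm⟩ : ∃ m, m = bl Γ.M a j := ⟨_, rfl⟩
  have hmj : m = min j (Γ.M - a) := hm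
  obtain ⟨n, hn⟩ : ∃ n, n = j - m := ⟨_, rfl⟩
  have hmn : m + n = j := by omega
  obtain ⟨R, hR⟩ : ∃ R : Set Pt, R = {q | |(q.2 : ℝ) - sl μ s * (q.1 : ℝ) - c0| ≤ R1} := ⟨_, rfl⟩
  have hR1 : 0 ≤ R1 := (abs_nonneg _).trans (hx.trans h0)
  have hsub := fun (i : ℕ) (z : ℤ) => la_sub (v := sl μ s) (c0 := c0) a i x z
  have h1 := kil_up (μ := μ) (s := s) (h := Γ.h) (D := Dc (Co62 (sl μ s) c0 R1)) (R := R) (p := Γ.p) (v := sl μ s) (K := 2 * R1 + 1)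
    (i := a) (m := m) (n := n) (x := x) (y := y) η (show |la (sl μ s) c0 a x| ≤ R1 from hx.trans h0)
    (fun k _ _ z => by
      rw [hR]
      show |la (sl μ s) c0 k z| ≤ R1 ↔ |((z : ℤ) : ℝ) - sl μ s * (((k : ℤ)) : ℝ) - c0| ≤ R1
      unfold la
      rw [Int.cast_natCast])
    (fun k h1 h2 => by
      unfold H60.Cx.p
      rw [if_pos (by omega), hs])
    (fun k h1 h2 => by
      unfold H60.Cx.p
      rw [if_neg (by omega), hs])
    (fun _ z hz => by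
      have h3 : |la (sl μ s) c0 (a + m) z| ≤ R1 := hz
      rw [hsub m z]
      refine (abs_sub _ _).trans ?_
      linarith)
    (fun h3 => by
      have h4 : m = j := by omega
      rw [h4, hsub j y]
      refine (abs_sub _ _).trans ?_
      linarith)
  rw [hmn] at h1
  have hW : WR μ s (Br32.Re R (a + j)) η ((a : ℤ), x) j (y - x) ≤ U := (WR_le_W _ _ _ _ _).trans hU
  have hW0 : 0 ≤ WR μ s (Br32.Re R (a + j)) η ((a : ℤ), x) j (y - x) := WR_nonneg _ _ _ _ _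
  have hU0 : 0 ≤ U := hW0.trans hW
  have hwa := wt_pos η a x
  have hwy := wt_pos η (a + j) y
  have hga : 0 < gam μ s Γ (a + j) y := Real.exp_pos _
  have hba := bn_pos (μ := μ) (s := s) (Γ := Γ) a x η
  have hby := bn_pos (μ := μ) (s := s) (Γ := Γ) (a + j) y η
  have hk0 : 0 ≤ ker (kw (Dc (Co62 (sl μ s) c0 R1))ᶜ (wt η)) Γ.p a j x y :=
    Cmp71.ker_nn (fun k y => Sp22.kw_nn (fun k y => (wt_pos η k y).le) _ k y) Γ.p_pos _ _ _ _
  rw [bw_bn (μ := μ) (s := s) (a + j) y η, bw_bn (μ := μ) (s := s) a x η]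
  unfold gg
  rw [gam_add (μ := μ) (s := s) haj x y]
  calc ker (kw (Dc (Co62 (sl μ s) c0 R1))ᶜ (wt η)) Γ.p a j x y * (wt η (a + j) y * gam μ s Γ (a + j) y * bn μ s Γ (a + j) y η)
      = ker (kw (Dc (Co62 (sl μ s) c0 R1))ᶜ (wt η)) Γ.p a j x y * wt η (a + j) y * (gam μ s Γ (a + j) y * bn μ s Γ (a + j) y η) := by
        ring
    _ ≤ (wt η a x * (Real.exp ((j : ℝ) * lam μ s + Γ.h * sl μ s * m + |Γ.h| * (2 * R1 + 1)) * U)) *
        (gam μ s Γ (a + j) y * (Real.exp A * bn μ s Γ a x η)) := by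
        refine mul_le_mul (h1.trans ?_) (mul_le_mul_of_nonneg_left hA hga.le) (by positivity) (by positivity)
        exact mul_le_mul_of_nonneg_left (mul_le_mul_of_nonneg_left hW (Real.exp_pos _).le) hwa.le
    _ = _ := by
        rw [← hm, Real.exp_add, Real.exp_add (|Γ.h| * (2 * R1 + 1))]
        ring

/-- The sites of the inner core. -/
def Cz62 (v c0 R0 : ℝ) (a : ℕ) : Finset ℤ := Icc ⌈v * a + c0 - R0⌉ ⌊v * a + c0 + R0⌋

theorem mem_Cz62 {a : ℕ} {y : ℤ} : y ∈ Cz62 v c0 R0 a ↔ |la v c0 a y| ≤ R0 := by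
  unfold Cz62 la
  rw [mem_Icc, Int.ceil_le, Int.le_floor, abs_le]
  constructor
  · rintro ⟨h1, h2⟩
    constructor <;> linarith
  · rintro ⟨h1, h2⟩
    constructor <;> linarith

/-- The first exits of one stage. -/
theorem stage62 (hs : Γ.s = s) (h0 : R0 ≤ R1) (hR : 0 ≤ R1) {a n : ℕ} (haN : a + n ≤ Γ.N) {η : Env} {U A : ℝ} (hU : 0 ≤ U)
    (up : ∀ x, |la (sl μ s) c0 a x| ≤ R0 → ∀ j, 1 ≤ j → j ≤ n → ∀ y, R1 < |la (sl μ s) c0 (a + j) y| →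
      |la (sl μ s) c0 (a + j) y| ≤ R1 + 1 → W μ s η ((a : ℤ), x) j (y - x) ≤ U)
    (tm : ∀ x, |la (sl μ s) c0 a x| ≤ R0 → ∀ j, 1 ≤ j → j ≤ n → ∀ y, |la (sl μ s) c0 (a + j) y| ≤ R1 + 1 →
      bn μ s Γ (a + j) y η ≤ Real.exp A * bn μ s Γ a x η) {x : ℤ} (hx : |la (sl μ s) c0 a x| ≤ R0) :
    ∑ j ∈ range n, xf (wt η) Γ.p (Dc (Co62 (sl μ s) c0 R1)) (Fx62 (sl μ s) c0 R1) (fun i y => bw (wt η) Γ.p i (Γ.N - i) y) a (j + 1) x ≤
      2 * n * (Real.exp (|Γ.h| * (2 * R1 + 1) + A) * U) * bw (wt η) Γ.p a (Γ.N - a) x := by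
  obtain ⟨B, hB⟩ : ∃ B : ℝ, B = Real.exp (|Γ.h| * (2 * R1 + 1) + A) * U := ⟨_, rfl⟩
  have hB0 : 0 ≤ B := by rw [hB]; positivity
  rw [← hB]
  have hb : 0 ≤ bw (wt η) Γ.p a (Γ.N - a) x := (bw_pos (wt_pos η) Γ.p_pos _ _ _).le
  have h2 : ∀ j ∈ range n, xf (wt η) Γ.p (Dc (Co62 (sl μ s) c0 R1)) (Fx62 (sl μ s) c0 R1)
      (fun i y => bw (wt η) Γ.p i (Γ.N - i) y) a (j + 1) x ≤ 2 * (B * bw (wt η) Γ.p a (Γ.N - a) x) := by
    intro j hj
    have hj' := mem_range.1 hj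
    unfold xf
    refine (sum_le_card_nsmul _ _ (B * bw (wt η) Γ.p a (Γ.N - a) x) fun y hy => ?_).trans ?_
    · obtain ⟨g1, g2⟩ := fx_la hR hy
      rw [hB]
      exact exit_le62 hs (by omega) h0 hx g2 (up x hx (j + 1) (by omega) (by omega) y g1 g2)
        (tm x hx (j + 1) (by omega) (by omega) y g2)
    · rw [nsmul_eq_mul]
      have g3 : (((Fx62 (sl μ s) c0 R1 (a + (j + 1))).card : ℕ) : ℝ) ≤ 2 := by exact_mod_cast fx_card _
      exact mul_le_mul_of_nonneg_right g3 (by positivity)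
  refine (sum_le_card_nsmul _ _ _ h2).trans (le_of_eq ?_)
  rw [card_range, nsmul_eq_mul]
  ring

/-- **THE MASS OF A CONTACT THROUGH THE CORE.** Stay at the row `a₀` (strip `R00`), then `n₀` rows in the strip `R0`, then the block of `n`
rows in the core `R1`. -/
theorem hcore62 (hs : Γ.s = s) (hv0 : 0 ≤ sl μ s) (hv1 : sl μ s ≤ 1) {R00 : ℝ} (h00 : R00 ≤ R0) (h0 : R0 ≤ R1) (hR : 0 ≤ R0)
    {k a n₀ n : ℕ} (hka : k ≤ a) (haN : a + n₀ + n ≤ Γ.N) {q : ℤ} {η : Env} {e1 U U' A A' : ℝ}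
    (st : ∑ x ∈ (Icc q (q + (a - k : ℕ))).filter (fun x => R00 < |la (sl μ s) c0 a x|),
      ker (wt η) Γ.p k (a - k) q x * bw (wt η) Γ.p a (Γ.N - a) x ≤ e1 * bw (wt η) Γ.p k (Γ.N - k) q)
    (up : ∀ x, |la (sl μ s) c0 a x| ≤ R00 → ∀ j, 1 ≤ j → j ≤ n₀ → ∀ y, R0 < |la (sl μ s) c0 (a + j) y| →
      |la (sl μ s) c0 (a + j) y| ≤ R0 + 1 → W μ s η ((a : ℤ), x) j (y - x) ≤ U)
    (tm : ∀ x, |la (sl μ s) c0 a x| ≤ R00 → ∀ j, 1 ≤ j → j ≤ n₀ → ∀ y, |la (sl μ s) c0 (a + j) y| ≤ R0 + 1 →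
      bn μ s Γ (a + j) y η ≤ Real.exp A * bn μ s Γ a x η)
    (up' : ∀ x, |la (sl μ s) c0 (a + n₀) x| ≤ R0 → ∀ j, 1 ≤ j → j ≤ n → ∀ y, R1 < |la (sl μ s) c0 (a + n₀ + j) y| →
      |la (sl μ s) c0 (a + n₀ + j) y| ≤ R1 + 1 → W μ s η (((a + n₀ : ℕ) : ℤ), x) j (y - x) ≤ U')
    (tm' : ∀ x, |la (sl μ s) c0 (a + n₀) x| ≤ R0 → ∀ j, 1 ≤ j → j ≤ n → ∀ y, |la (sl μ s) c0 (a + n₀ + j) y| ≤ R1 + 1 →
      bn μ s Γ (a + n₀ + j) y η ≤ Real.exp A' * bn μ s Γ (a + n₀) x η) (hU : 0 ≤ U) (hU' : 0 ≤ U') {I : Finset ℤ}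
    (hI : Icc q (q + (a + n₀ - k : ℕ)) ⊆ I) :
    (1 - (e1 + 2 * n₀ * (Real.exp (|Γ.h| * (2 * R0 + 1) + A) * U)) - 2 * n * (Real.exp (|Γ.h| * (2 * R1 + 1) + A') * U')) *
      bw (wt η) Γ.p k (Γ.N - k) q ≤ ∑ π ∈ Ps (C62 (sl μ s) c0 R0 R1 (a + n₀)) I n, kap Γ.p (a + n₀) Γ.N (kc Γ.p k (a + n₀) q) π η := by
  have hR1 : 0 ≤ R1 := hR.trans h0
  -- the first stage
  have s1 := push62 (w := wt η) (p := Γ.p) (Co := Co62 (sl μ s) c0 R0) (Fx := Fx62 (sl μ s) c0 R0) (wt_pos η) Γ.p_pos hka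
    (show a + n₀ ≤ Γ.N by omega) (q := q) (Cz62 (sl μ s) c0 R00 a) (fun x hx => (mem_Cz62.1 hx).trans h00)
    (fun r y => fx_step hv0 hv1 r y) (e1 := e1) (e2 := 2 * n₀ * (Real.exp (|Γ.h| * (2 * R0 + 1) + A) * U)) (by
      refine le_trans (le_of_eq ?_) st
      refine sum_congr (filter_congr fun x _ => ?_) fun _ _ => rfl
      rw [mem_Cz62, not_le]) (fun x hx => stage62 hs h00 hR (by omega) hU up tm (mem_Cz62.1 hx)) (by positivity)
  exact coreP62 (w := wt η) (p := Γ.p) (Co := Co62 (sl μ s) c0 R1) (Fx := Fx62 (sl μ s) c0 R1) (wt_pos η) Γ.p_pos (by omega) haN (q := q)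
    (C := C62 (sl μ s) c0 R0 R1 (a + n₀)) (C0 := Cz62 (sl μ s) c0 R0 (a + n₀)) (fun y => by
      rw [mem_Cz62]
      unfold C62
      rw [if_pos rfl]) (fun r y hr => by
      unfold C62 Co62
      rw [if_neg (by omega)]) hI (fun x hx => (mem_Cz62.1 hx).trans h0) (fun r y => fx_step hv0 hv1 r y)
    (e1 := e1 + 2 * n₀ * (Real.exp (|Γ.h| * (2 * R0 + 1) + A) * U))
    (e2 := 2 * n * (Real.exp (|Γ.h| * (2 * R1 + 1) + A') * U')) (by
      refine le_trans (le_of_eq ?_) s1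
      refine sum_congr (filter_congr fun x _ => ?_) fun _ _ => rfl
      rw [mem_Cz62]
      rfl) (fun x hx => stage62 hs h0 hR1 haN hU' up' tm' (mem_Cz62.1 hx)) (by positivity)

/-! ### The inputs -/

variable {G : Gm} {u : ℕ} {κ : ℤ × ℤ}

/-- The lateral places seen from the base and from the centre of the cell. -/
theorem la_ctr (hGv : G.v = sl μ s) (hc0 : |c0 - G.ctr u κ| ≤ 1) (k : ℕ) (y : ℤ) :
    |G.lat (k, y) - G.ctr u κ| ≤ |la (sl μ s) c0 k y| + 1 ∧ |la (sl μ s) c0 k y| ≤ |G.lat (k, y) - G.ctr u κ| + 1 := by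
  have e : G.lat (k, y) - G.ctr u κ = la (sl μ s) c0 k y + (c0 - G.ctr u κ) := by
    unfold la Gm.lat
    rw [hGv]
    ring
  have e' : la (sl μ s) c0 k y = G.lat (k, y) - G.ctr u κ + -(c0 - G.ctr u κ) := by
    rw [e]
    ring
  constructor
  · rw [e]
    exact (abs_add_le _ _).trans (add_le_add le_rfl hc0)
  · rw [e']
    refine (abs_add_le _ _).trans (add_le_add le_rfl ?_)
    rw [abs_neg]
    exact hc0

/-- **Stay.** -/
theorem st62 (hGv : G.v = sl μ s) (hc0 : |c0 - G.ctr u κ| ≤ 1) {a' b β : ℝ} {η : Env} (h : η ∈ St Γ G a' b β u κ) {k a : ℕ} (hka : k ≤ a)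
    (ha : a ≤ G.ra u κ) (haN : a < Γ.N) {q : ℤ} (hk : (k, q) ∈ Rg G u κ a') (hR : b * G.w u + 1 ≤ R0) :
    ∑ x ∈ (Icc q (q + (a - k : ℕ))).filter (fun x => R0 < |la (sl μ s) c0 a x|),
      ker (wt η) Γ.p k (a - k) q x * bw (wt η) Γ.p a (Γ.N - a) x ≤ Real.exp (-β) * bw (wt η) Γ.p k (Γ.N - k) q := by
  have h1 := St_bF h hka ha haN hk (F := (Icc q (q + (a - k : ℕ))).filter (fun x => R0 < |la (sl μ s) c0 a x|))
    fun z hz _ _ => by
      have g1 := (mem_filter.1 hz).2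
      have g2 := (la_ctr hGv hc0 a z).2
      linarith
  refine le_trans (le_of_eq ?_) h1
  unfold Lt74.bF
  rw [bf_ker, sum_filter]
  refine sum_congr rfl fun x hx => ?_
  by_cases h2 : R0 < |la (sl μ s) c0 a x|
  · rw [if_pos h2, if_pos (mem_filter.2 ⟨hx, h2⟩)]
  · have h3 : x ∉ (Icc q (q + (a - k : ℕ))).filter (fun x => R0 < |la (sl μ s) c0 a x|) := by
      rw [mem_filter]
      exact fun h3 => h2 h3.2
    rw [if_neg h2, if_neg h3, mul_zero]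

/-- **The upper levels.** -/
theorem up62 {c : ℝ} {n' : ℕ} {bb : ℝ} {η : Env} {a j : ℕ} {x y : ℤ} (hc0 : 0 ≤ hc μ s c n')
    (h : η ∈ T3 μ s c n' bb ((a : ℤ), x) j) (hx : |la (sl μ s) c0 a x| ≤ R0) (hy : R1 < |la (sl μ s) c0 (a + j) y|) :
    W μ s η ((a : ℤ), x) j (y - x) ≤ Real.exp (bb - hc μ s c n' * (R1 - R0)) := by
  refine (t3_W h (y - x)).trans (Real.exp_le_exp.2 ?_)
  rw [la_sub (c0 := c0) a j x y]
  have h1 := abs_sub_abs_le_abs_sub (la (sl μ s) c0 (a + j) y) (la (sl μ s) c0 a x)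
  have h2 : R1 - R0 ≤ |la (sl μ s) c0 (a + j) y - la (sl μ s) c0 a x| := by linarith
  have := mul_le_mul_of_nonneg_left h2 hc0
  linarith

/-- **Tame masses**, from `OuT`. -/
theorem tm62 (hGv : G.v = sl μ s) (hc0 : |c0 - G.ctr u κ| ≤ 1) {E : ℕ → ℝ} {R Q' sg : ℝ} {η : Env} (h : η ∈ OuT μ s Γ G E R Q' sg u κ)
    {a j : ℕ} (ha : G.ra u κ ≤ a + 1) (haj : a + j ≤ G.re u κ) {x y : ℤ} (h01 : R0 ≤ R1) (h1 : R1 + 2 ≤ R * G.w u)
    (hx : |la (sl μ s) c0 a x| ≤ R0) (hy : |la (sl μ s) c0 (a + j) y| ≤ R1 + 1) :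
    bn μ s Γ (a + j) y η ≤ Real.exp (Q' * E u + sg) * bn μ s Γ a x η :=
  h (a, x) ⟨ha, by show a ≤ G.re u κ; omega, ((la_ctr hGv hc0 a x).1.trans (by linarith))⟩ (a + j, y)
    ⟨by show G.ra u κ ≤ a + j + 1; omega, haj, ((la_ctr hGv hc0 (a + j) y).1.trans (by linarith))⟩

/-- **Tame masses**, from the profile clause (`profO20`): only the reference place is inner. -/
theorem tmP62 (hGv : G.v = sl μ s) (hc0 : |c0 - G.ctr u κ| ≤ 1) {E : ℕ → ℝ} {Q sl' Rr : ℝ} (hw : 0 < G.w u) (hE : 0 ≤ E u) (hsl : 0 ≤ sl')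
    {η : Env} {a j : ℕ} {x y : ℤ} (h : ∀ (k' : ℕ) (y' : ℤ), a ≤ k' → k' ≤ G.re u κ →
      bn μ s Γ k' y' η ≤ Real.exp ((Q + sl' * (|G.lat (k', y') - G.ctr u κ| / G.w u)) * E u) * bn μ s Γ a x η)
    (haj : a + j ≤ G.re u κ) (hR : R1 + 2 ≤ Rr * G.w u) (hy : |la (sl μ s) c0 (a + j) y| ≤ R1 + 1) :
    bn μ s Γ (a + j) y η ≤ Real.exp ((Q + sl' * Rr) * E u) * bn μ s Γ a x η := by
  refine (h (a + j) y (by omega) haj).trans (mul_le_mul_of_nonneg_right (Real.exp_le_exp.2 ?_) (bn_pos _ _ _).le)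
  refine mul_le_mul_of_nonneg_right (add_le_add le_rfl (mul_le_mul_of_nonneg_left ?_ hsl)) hE
  rw [div_le_iff₀ hw]
  have := (la_ctr (u := u) (κ := κ) hGv hc0 (a + j) y).1
  linarith

/-! ### The set of core paths -/

theorem Ps_mono62 {C C' : ℕ → ℤ → Prop} (h : ∀ r y, C r y → C' r y) {I : Finset ℤ} : ∀ n, Ps C I n ⊆ Ps C' I n
  | 0 => by
    intro π hπ
    obtain ⟨y, hy, rfl⟩ := mem_map.1 hπ
    exact mem_map.2 ⟨y, mem_filter.2 ⟨(mem_filter.1 hy).1, h 0 y (mem_filter.1 hy).2⟩, rfl⟩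
  | n + 1 => by
    intro π hπ
    obtain ⟨q, hq, rfl⟩ := mem_map.1 hπ
    obtain ⟨h1, h2⟩ := mem_filter.1 hq
    obtain ⟨h3, h4⟩ := mem_product.1 h1
    exact mem_map.2 ⟨q, mem_filter.2 ⟨mem_product.2 ⟨Ps_mono62 h n h3, h4⟩, h _ _ h2⟩, rfl⟩

/-- Into the core `Co58` of the gate (letters of `Co58` written out): base `(a, x0)`. -/
theorem C_co58 {K₁ : ℝ} {nn : ℕ} {a : ℕ} {x0 : ℤ} (h0 : R0 ≤ K₁ * wd μ s nn) (hR1 : R1 ≤ K₁ * wd μ s nn) (r : ℕ) (y : ℤ)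
    (h : C62 (sl μ s) ((x0 : ℝ) - sl μ s * a) R0 R1 a r y) : |(y : ℝ) - x0 - sl μ s * r| ≤ K₁ * wd μ s nn := by
  have e : ∀ r : ℕ, la (sl μ s) ((x0 : ℝ) - sl μ s * a) (a + r) y = (y : ℝ) - x0 - sl μ s * r := fun r => by
    unfold la
    push_cast
    ring
  unfold C62 at h
  by_cases hr : r = 0
  · rw [if_pos hr] at h
    have h1 := e 0
    rw [Nat.add_zero] at h1
    rw [h1] at h
    rw [hr]
    exact h.trans h0
  · rw [if_neg hr, e r] at h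
    exact h.trans hR1

end

end Pool.Agent.W_7d29a1_C1.Hc62
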