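import Pool.Agent.W_7d29a1_C1.LoF18
import Pool.Agent.W_7d29a1_C1.GateQ18

/-!
MP_7d29a1_pr, [C1] SEP, THE LOWER KERNELS FROM THE RIM OF THE WINDOW: the probability. (helper18)

`loe18_prob`: the clearance `κ` (between the walls `A` and the sides of the window) depends on `ε` only; then the half width of the
window `X ≤ k w`, the number `T ≥ θ n` of the first rows without walls; then `R`, `Q`. `UpE18`: the tilts `0`, `± hc n` of all starts of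
the strip `|lat| ≤ D` between the rows `b.1` and `b.1 + 4 n` (decreasing); `upe18_prob`.
-/

set_option autoImplicit false

namespace Pool.Agent.W_7d29a1_C1.GL18

open MeasureTheory ProbabilityTheory Filter Topology
open Pool.Agent.W_7d29a1_F Pool.Agent.W_7d29a1_h4g Pool.Agent.W_7d29a1_H Pool.Agent.W_7d29a1_HS
open Pool.Agent.W_7d29a1_HL (cS)
open Pool.Agent.W_7d29a1_HR (Dec)
open Pool.Agent.W_7d29a1_L (T_sh)
open Pool.Agent.W_7d29a1_C1.U16 (lat16 LevS bx16 lev_prob lev_low box_cone)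
open Pool.Agent.W_7d29a1_C1.S71 (Off)
open Pool.Agent.W_7d29a1_C1.H75

noncomputable section

variable {μ : Measure ℝ} {s c : ℝ} [IsProbabilityMeasure μ] {C : ℝ} {n₀ : ℕ}

theorem cd_of (h : In μ s c C n₀) {K θ : ℝ} (hK : 0 < K) (hθ : 0 < θ) : ∃ n₁ : ℕ, ∀ n : ℕ, n₁ ≤ n → CD μ s K θ n := by
  obtain ⟨n₁, hn₁⟩ := box_cone h (K := K) (θ := θ) hK hθ
  exact ⟨n₁, fun n hn b N p j y h1 h2 h3 => hn₁ n hn b N p j y h1 h2 h3⟩

/-- One box. -/
theorem lv_prob (h : In μ s c C n₀) {K θ ε : ℝ} (hK : 0 < K) (hθ : 0 < θ) (hθ1 : θ ≤ 1) (hε : 0 < ε) : ∃ q : ℝ, 0 ≤ q ∧ ∃ n₁ : ℕ,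
    ∀ n : ℕ, n₁ ≤ n → ∀ b : Pt, (law μ).real (LevS μ s c θ n (bx16 μ s b n (K * wd μ s n)) q)ᶜ ≤ ε := by
  obtain ⟨A, al, g, hA, hal, hg, -, n1, -, hlev⟩ := lev_prob h (K := K) (θ := θ) hK hθ hθ1
  obtain ⟨q, hq1, hq0⟩ : ∃ q : ℝ, A * Real.exp (-(al * q ^ g)) ≤ ε ∧ 0 ≤ q := by
    have h1 := (tendsto_rpow_atTop hg).const_mul_atTop hal
    have h2 := (Real.tendsto_exp_neg_atTop_nhds_zero.comp h1).const_mul A
    rw [mul_zero] at h2
    exact ((h2.eventually_le_const hε).and (eventually_ge_atTop 0)).exists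
  exact ⟨q, hq0, n1, fun n hn b => (hlev n hn n le_rfl b _ subset_rfl q hq0).trans hq1⟩

theorem cb_prob (h : In μ s c C n₀) {ε : ℝ} (hε : 0 < ε) : ∃ q : ℝ, 0 ≤ q ∧ ∃ n₁ : ℕ, ∀ n : ℕ, n₁ ≤ n →
    ∀ (b : Pt) (Z : ℝ), (law μ).real (CB μ s c n b Z q)ᶜ ≤ ε := by
  obtain ⟨q, hq, n1, hlev⟩ := lv_prob h (K := 6) (θ := 1 / 3) (ε := ε / 5) (by norm_num) (by norm_num) (by norm_num) (by linarith)
  refine ⟨q, hq, n1, fun n hn b Z => ?_⟩
  have hsub : (CB μ s c n b Z q)ᶜ ⊆ ⋃ i ∈ Finset.range 5,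
      (LevS μ s c (1 / 3) n (bx16 μ s (cl μ s b Z (i * (n / 4))) n (6 * wd μ s n)) q)ᶜ := by
    intro η hη
    simp only [CB, Set.mem_compl_iff, Set.mem_ofPred_eq, not_forall] at hη
    obtain ⟨i, hi, h1⟩ := hη
    exact Set.mem_biUnion (Finset.mem_coe.2 (Finset.mem_range.2 hi)) h1
  refine (measureReal_mono hsub (measure_ne_top _ _)).trans ((measureReal_biUnion_finset_le _ _).trans
    ((Finset.sum_le_sum fun i _ => hlev n hn _).trans ?_))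
  rw [Finset.sum_const, Finset.card_range, nsmul_eq_mul]
  push_cast
  linarith

theorem jb_prob (h : In μ s c C n₀) {n : ℕ} (hn : n₀ ≤ n) (hn1 : 1 ≤ n) {κ U : ℝ} (hκ : 0 ≤ κ) (b : Pt) :
    (law μ).real (JB μ s c n b (κ * wd μ s n) U)ᶜ ≤ 3 * ((2 * κ + 2) * (C * Real.exp (-(U / C)))) := by
  have hC : 0 < C := lt_of_lt_of_le one_pos h.C1
  have hE := EE_pos (μ := μ) (s := s) n
  have hw := h.wd_pos hn1
  have h1 := jm_prob_sh (c := c) h hn hn1 (D := κ * wd μ s n) (mul_nonneg hκ hw.le) 0 (U * EE μ s n) b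
  have e1 : 2 * (κ * wd μ s n) / wd μ s n = 2 * κ := by
    field_simp
  have e2 : U * EE μ s n / (C * EE μ s n) = U / C := by
    field_simp
  rw [e1, e2] at h1
  exact h1

/-- The numbers of a confinement. -/
theorem conf_num {c C : ℝ} (hc : 0 < c) (hC : 0 < C) (q k : ℝ) {ε : ℝ} (hε : 0 < ε) : ∃ κ U : ℝ, 1 ≤ κ ∧ 0 ≤ U ∧
    2 * U + q + C + 2 * c + 2 ≤ c * κ ∧ 3 * ((2 * (κ + k) + 2) * (C * Real.exp (-(U / C)))) ≤ ε := by
  -- `κ = 1 + |2 U + q + C + 2 c + 2| / c`, `U = C x`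
  obtain ⟨a, ha⟩ : ∃ a : ℝ, a = 3 * C * (2 * (1 + (|q| + C + 2 * c + 2) / c + |k|) + 2) := ⟨_, rfl⟩
  obtain ⟨b, hb⟩ : ∃ b : ℝ, b = 3 * C * (4 * C / c) := ⟨_, rfl⟩
  have t1 := Real.tendsto_pow_mul_exp_neg_atTop_nhds_zero 1
  have t0 := Real.tendsto_exp_neg_atTop_nhds_zero
  have t2 := (t0.const_mul a).add (t1.const_mul b)
  rw [mul_zero, mul_zero, add_zero] at t2
  obtain ⟨x, hx, hx0⟩ := ((t2.eventually_le_const hε).and (eventually_ge_atTop 0)).exists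
  refine ⟨1 + (2 * (C * x) + |q| + C + 2 * c + 2) / c, C * x, ?_, by positivity, ?_, ?_⟩
  · have : 0 ≤ (2 * (C * x) + |q| + C + 2 * c + 2) / c := by positivity
    linarith
  · have e : c * (1 + (2 * (C * x) + |q| + C + 2 * c + 2) / c) = c + (2 * (C * x) + |q| + C + 2 * c + 2) := by
      field_simp
    rw [e]
    linarith [le_abs_self q]
  · have e1 : C * x / C = x := by field_simp
    rw [e1]
    have e2 : (2 * (C * x) + |q| + C + 2 * c + 2) / c = (|q| + C + 2 * c + 2) / c + 2 * C / c * x := by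
      field_simp
      ring
    have e3 : a * Real.exp (-x) + b * (x ^ 1 * Real.exp (-x)) =
        3 * ((2 * (1 + ((|q| + C + 2 * c + 2) / c + 2 * C / c * x) + |k|) + 2) * (C * Real.exp (-x))) := by
      rw [ha, hb]
      ring
    refine le_trans ?_ hx
    rw [e3, e2]
    have h1 : 0 ≤ C * Real.exp (-x) := by positivity
    have h2 := le_abs_self k
    nlinarith

/-- **THE PROBABILITY.** -/
theorem loe18_prob (h : In μ s c C n₀) {ε : ℝ} (hε : 0 < ε) : ∃ κ : ℝ, 0 ≤ κ ∧ ∀ (k θ : ℝ), 0 ≤ k → 0 < θ → θ ≤ 1 →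
    ∃ R Q : ℝ, 0 ≤ R ∧ 0 ≤ Q ∧ ∃ n₁ : ℕ, ∀ n : ℕ, n₁ ≤ n → ∀ N T : ℕ, N ≤ n → T < N → θ * n ≤ T →
      ∀ X ρ : ℝ, 0 ≤ X → X ≤ k * wd μ s n → R * wd μ s n ≤ ρ → ∀ (b : Pt) (A : Set Pt),
        (∀ p ∈ A, b.1 + T < p.1 ∧ |lat16 μ s b p| ≤ X - κ * wd μ s n) → (law μ).real (LoE18 μ s X ρ n N b A Q)ᶜ ≤ ε := by
  have hC : 0 < C := lt_of_lt_of_le one_pos h.C1
  have hc0 := h.c0
  obtain ⟨q, hq, n1, hcb⟩ := cb_prob h (ε := ε / 6) (by linarith)
  obtain ⟨κ, U, hκ1, hU, hκ, hnum⟩ := conf_num hc0 hC q 6 (ε := ε / 6) (by linarith)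
  refine ⟨κ + 5, by linarith, fun k θ hk hθ hθ1 => ?_⟩
  obtain ⟨q', hq', n2, hlv⟩ := lv_prob h (K := k + 4) (θ := θ) (ε := ε / 6) (by linarith) hθ hθ1 (by linarith)
  obtain ⟨κ', U', hκ1', hU', hκ', hnum'⟩ := conf_num hc0 hC q' (k + 5) (ε := ε / 6) (by linarith)
  obtain ⟨n3, hcd⟩ := cd_of h (K := 6) (θ := 1 / 3) (by norm_num) (by norm_num)
  obtain ⟨n4, hcd'⟩ := cd_of h (K := k + 4) (θ := θ) (by linarith) hθ
  obtain ⟨n5, hn5⟩ := eventually_atTop.1 ((wd_tendsto h).eventually_ge_atTop 1)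
  refine ⟨κ + κ' + k + 4, q' + 3 * q + U + 4, by linarith, by positivity, max (max (max n1 n2) (max n3 n4)) (max (max n5 n₀) 12),
    fun n hn N T hN hTN hT X ρ hX hXk hρ b A hA => ?_⟩
  simp only [max_le_iff] at hn
  obtain ⟨⟨⟨k1, k2⟩, k3, k4⟩, ⟨k5, k6⟩, k7⟩ := hn
  have hw := hn5 n k5
  have hw0 : 0 ≤ wd μ s n := by linarith
  have hn1 : 1 ≤ n := by omega
  obtain ⟨S, hS⟩ : ∃ S : Fin 6 → Set Env, S = ![(CB μ s c n b X q)ᶜ, (CB μ s c n b (-X) q)ᶜ,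
    (JB μ s c n (cl μ s b X 0) ((κ + 6) * wd μ s n) U)ᶜ, (JB μ s c n (cl μ s b (-X) 0) ((κ + 6) * wd μ s n) U)ᶜ,
    (LevS μ s c θ n (bx16 μ s b n ((k + 4) * wd μ s n)) q')ᶜ, (JB μ s c n b ((κ' + (k + 5)) * wd μ s n) U')ᶜ] := ⟨_, rfl⟩
  have hSp : ∀ i, (law μ).real (S i) ≤ ε / 6 := by
    intro i
    rw [hS]
    fin_cases i
    · exact hcb n k1 b X
    · exact hcb n k1 b (-X)
    · exact (jb_prob h k6 hn1 (by linarith) _).trans hnum
    · exact (jb_prob h k6 hn1 (by linarith) _).trans hnum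
    · exact hlv n k2 b
    · exact (jb_prob h k6 hn1 (by linarith) _).trans hnum'
  have hsub : (LoE18 μ s X ρ n N b A (q' + 3 * q + U + 4))ᶜ ⊆ ⋃ i ∈ (Finset.univ : Finset (Fin 6)), S i := by
    intro η hη
    by_contra hcon
    simp only [Set.mem_iUnion, Finset.mem_univ, exists_true_left, not_exists] at hcon
    rw [hS] at hcon
    have c1 := hcon 0
    have c2 := hcon 1
    have c3 := hcon 2
    have c4 := hcon 3
    have c5 := hcon 4
    have c6 := hcon 5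
    simp only [Matrix.cons_val_zero, Matrix.cons_val_one, Matrix.cons_val, Set.mem_compl_iff, not_not] at c1 c2 c3 c4 c5 c6
    refine hη (loe18_of h k7 hN hTN hw hq hU hκ1 hκ hq' hU' hκ1' hκ' hT hX hXk le_rfl ?_ ?_ hA c1 c2 c3 c4 c5 c6 (hcd n k3)
      (hcd' n k4))
    · exact le_trans (mul_le_mul_of_nonneg_right (by linarith) hw0) hρ
    · exact le_trans (mul_le_mul_of_nonneg_right (by linarith) hw0) hρ
  refine (measureReal_mono hsub (measure_ne_top _ _)).trans ((measureReal_biUnion_finset_le _ _).trans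
    ((Finset.sum_le_sum fun i _ => hSp i).trans ?_))
  rw [Finset.sum_const, Finset.card_univ, Fintype.card_fin, nsmul_eq_mul]
  push_cast
  linarith

/-! ### The upper kernels of the strip -/

/-- **THE UPPER KERNELS** of the strip `|lat| ≤ D`, all rows of the window. -/
def UpE18 (μ : Measure ℝ) (s c : ℝ) (n N : ℕ) (b : Pt) (D U : ℝ) : Set Env :=
  {η | ∀ (p : Pt) (j : ℕ), b.1 ≤ p.1 → p.1 + j ≤ b.1 + N → |lat16 μ s b p| ≤ D → η ∈ T3 μ s c n (U * EE μ s n) p j}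

omit [IsProbabilityMeasure μ] in
theorem upe18_dec {n N : ℕ} {b : Pt} {D U : ℝ} : Dec (UpE18 μ s c n N b D U) := fun _ _ hh hη p j h1 h2 h3 =>
  t3_dec _ _ hh (hη p j h1 h2 h3)

theorem upe18_meas (n N : ℕ) (b : Pt) (D U : ℝ) : MeasurableSet (UpE18 μ s c n N b D U) := by
  have e : UpE18 μ s c n N b D U = ⋂ (p : Pt) (j : ℕ) (_ : b.1 ≤ p.1) (_ : p.1 + j ≤ b.1 + N)
      (_ : |lat16 μ s b p| ≤ D), T3 μ s c n (U * EE μ s n) p j := by
    ext η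
    simp only [Set.mem_iInter]
    exact Iff.rfl
  rw [e]
  exact MeasurableSet.iInter fun p => MeasurableSet.iInter fun j => MeasurableSet.iInter fun _ => MeasurableSet.iInter fun _ =>
    MeasurableSet.iInter fun _ => t3_meas

omit [IsProbabilityMeasure μ] in
theorem upe18_rows {n N : ℕ} {b : Pt} {D U : ℝ} {η η' : Env} (h : ∀ p ∈ rows b.1 (b.1 + N), η p = η' p) :
    η ∈ UpE18 μ s c n N b D U ↔ η' ∈ UpE18 μ s c n N b D U := by
  have key : ∀ η η' : Env, (∀ p ∈ rows b.1 (b.1 + N), η p = η' p) → η ∈ UpE18 μ s c n N b D U → η' ∈ UpE18 μ s c n N b D U := by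
    intro η η' h hη p j h1 h2 h3
    refine (t3_rows fun q hq => h q ⟨lt_of_le_of_lt h1 hq.1, hq.2.trans h2⟩).1 (hη p j h1 h2 h3)
  exact ⟨key η η' h, key η' η fun p hp => (h p hp).symm⟩

theorem upe18_mono {n N : ℕ} {b : Pt} {D D' U U' : ℝ} (hD : D' ≤ D) (hU : U ≤ U') : UpE18 μ s c n N b D U ⊆ UpE18 μ s c n N b D' U' := by
  intro η hη p j h1 h2 h3
  have hE := EE_pos (μ := μ) (s := s) n
  exact t3_mono (mul_le_mul_of_nonneg_right hU hE.le) (hη p j h1 h2 (h3.trans hD))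

/-- `U` grows like the logarithm of `k`: the number is explicit. -/
theorem upe18_prob (h : In μ s c C n₀) {n N : ℕ} (hn : n₀ ≤ n) (hn1 : 1 ≤ n) (hN : N ≤ 4 * n) {k U : ℝ} (hk : 0 ≤ k) (b : Pt) :
    (law μ).real (UpE18 μ s c n N b (k * wd μ s n) U)ᶜ ≤ 3 * ((2 * k + 2) * (C * Real.exp (-(U / C)))) := by
  refine (measureReal_mono ?_ (measure_ne_top _ _)).trans (jb_prob h hn hn1 hk b)
  intro η hη hcon
  refine hη fun p j g1 g2 g3 => jm_t3 hcon g1 (g2.trans ?_) g3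
  push_cast
  omega

end

end Pool.Agent.W_7d29a1_C1.GL18
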