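import Pool.Agent.W_7d29a1_C1.HcoB62
import Pool.Agent.W_7d29a1_C1.LoP18
import Pool.Agent.W_7d29a1_C1.GateS58

/-!
MP_7d29a1_pr, attractor route, [C1] SEP: **THE FIELD `core` OF `CwIn` (comparison) AND `hcore` OF THE EARLY MOMENT**, in the letters of the
gate. (helper62)

`Z1_62`: the sum over the core paths is `Z1` of GateG87. `upE62`, `upU62`: the levels of the starts from `UpE18`, `Up18`. `num62`: one line of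
numbers per stage. `core62_71`: `(1 - e) bw ≤ Z1`, two stages, `e` explicit. **`core62_43`**: one stage (first exits from the row `a`),
`bw ≤ 4 / 3 * Z1`. **`core62_fin`**: the same from `St`, `UpE18`, the profile clause of `profO20` and one line of constants.
-/

set_option autoImplicit false

namespace Pool.Agent.W_7d29a1_C1.Hc62

open Finset MeasureTheory
open Pool.Agent.W_7d29a1_F hiding Bw G
open Pool.Agent.W_7d29a1_h4g Pool.Agent.W_7d29a1_HS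
open Pool.Agent.W_7d29a1_H hiding ex gg
open Pool.Agent.W_7d29a1_C1.K91 (wt wt_pos)
open Pool.Agent.W_7d29a1_C1.K91P (fw bw bw_pos)
open Pool.Agent.W_7d29a1_C1.U16 (ker ker_nonneg ker_eq_zero lat16)
open Pool.Agent.W_7d29a1_C1.Gt66 (Pa Ps en s0 wg Ic kp Ks Z1)
open Pool.Agent.W_7d29a1_C1.PW58 (kap kc Co58 lt)
open Pool.Agent.W_7d29a1_C1.G37 (Gm)
open Pool.Agent.W_7d29a1_C1.Ou37 (gam bn bn_pos OuT)
open Pool.Agent.W_7d29a1_C1.GL18 (T3 UpE18 Up18)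
open Pool.Agent.W_7d29a1_C1.Sy78 (St Rg)
open Pool.Agent.W_7d29a1_C1.H75 (hc)

noncomputable section

attribute [local instance 10] Classical.propDecidable

variable {μ : Measure ℝ} {s : ℝ} {Γ : H60.Cx} {G : Gm} {u : ℕ} {κ : ℤ × ℤ} {c0 R00 R0 R1 : ℝ}

theorem Z1_62 {p : ℕ → ℝ} {N a n k : ℕ} {q : ℤ} {Co : ℕ → ℤ → Prop} (η : Env) :
    ∑ π ∈ Ps Co (Ic a k q) n, kap p a N (kc p (k + 1) a q) π η = Z1 (wt η) p N a n Co k q := rfl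

/-- Levels from `UpE18`. -/
theorem upE62 {c : ℝ} {n' N : ℕ} {b : Pt} {D U : ℝ} {η : Env} (hη : η ∈ UpE18 μ s c n' N b D U) {a n : ℕ} (hb : b.1 = a)
    {ε : ℝ} (hbx : |(b.2 : ℝ) - sl μ s * a - c0| ≤ ε) (hD : R0 + ε ≤ D) (hN : n ≤ N) (hc0 : 0 ≤ hc μ s c n') {x : ℤ}
    (hx : |la (sl μ s) c0 a x| ≤ R0) {j : ℕ} (hj : j ≤ n) {y : ℤ} (hy : R1 < |la (sl μ s) c0 (a + j) y|) :
    W μ s η ((a : ℤ), x) j (y - x) ≤ Real.exp (U * EE μ s n' - hc μ s c n' * (R1 - R0)) := by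
  refine up62 hc0 (hη ((a : ℤ), x) j (le_of_eq hb) (by
    rw [hb]
    show (a : ℤ) + (j : ℤ) ≤ (a : ℤ) + (N : ℤ)
    have : (j : ℤ) ≤ (N : ℤ) := by exact_mod_cast hj.trans hN
    linarith) ?_) hx hy
  have e : lat16 μ s b ((a : ℤ), x) = la (sl μ s) c0 a x + -((b.2 : ℝ) - sl μ s * a - c0) := by
    unfold lat16 la
    rw [hb]
    push_cast
    ring
  rw [e]
  refine (abs_add_le _ _).trans ?_
  rw [abs_neg]
  linarith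

/-- Levels from `Up18`. -/
theorem upU62 {c K U : ℝ} {nn a n : ℕ} {x0 : ℤ} {η : Env} (hη : η ∈ Up18 μ s c K nn ((a : ℤ), x0) U) (hn : n ≤ 5 * nn)
    (hK : R0 ≤ K * wd μ s nn) (hc0 : 0 ≤ hc μ s c (2 * nn)) {x : ℤ} (hx : |la (sl μ s) ((x0 : ℝ) - sl μ s * a) a x| ≤ R0) {j : ℕ}
    (hj : j ≤ n) {y : ℤ} (hy : R1 < |la (sl μ s) ((x0 : ℝ) - sl μ s * a) (a + j) y|) :
    W μ s η ((a : ℤ), x) j (y - x) ≤ Real.exp (U * EE μ s nn - hc μ s c (2 * nn) * (R1 - R0)) := by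
  refine up62 hc0 (hη ((a : ℤ), x) j le_rfl (by
    show (a : ℤ) + (j : ℤ) ≤ (a : ℤ) + ((5 * nn : ℕ) : ℤ)
    have : (j : ℤ) ≤ ((5 * nn : ℕ) : ℤ) := by exact_mod_cast hj.trans hn
    linarith) ?_) hx hy
  have e : lat16 μ s ((a : ℤ), x0) ((a : ℤ), x) = la (sl μ s) ((x0 : ℝ) - sl μ s * a) a x := by
    unfold lat16 la
    push_cast
    ring
  rw [e]
  exact hx.trans hK

/-- One line of numbers. -/
theorem num62 {n : ℕ} {H A B Y : ℝ} (h : Real.log (32 * n) + (H + A + B) ≤ Y) :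
    2 * (n : ℝ) * (Real.exp (H + A) * Real.exp (B - Y)) ≤ 1 / 16 := by
  rcases Nat.eq_zero_or_pos n with h0 | h0
  · rw [h0]
    norm_num
  · have hn : (0 : ℝ) < 32 * n := by
      have : (1 : ℝ) ≤ n := by exact_mod_cast h0
      linarith
    rw [← Real.exp_add]
    have h1 : Real.exp (H + A + (B - Y)) ≤ Real.exp (-Real.log (32 * n)) := Real.exp_le_exp.2 (by linarith)
    rw [Real.exp_neg, Real.exp_log hn] at h1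
    have h2 := mul_le_mul_of_nonneg_left h1 (show (0 : ℝ) ≤ 2 * n by linarith)
    refine h2.trans (le_of_eq ?_)
    field_simp
    norm_num

/-- **THE CORE MASS OF A CONTACT**, general numbers. -/
theorem core62_71 (hs : Γ.s = s) (hv0 : 0 ≤ sl μ s) (hv1 : sl μ s ≤ 1) (hGv : G.v = sl μ s) {c₁ : ℝ} {a₀ m a n nn : ℕ} {x0 : ℤ}
    (ha : a₀ + m = a) (haN : a + n ≤ Γ.N) (hN0 : a₀ < Γ.N) (hc0 : c0 = (x0 : ℝ) - sl μ s * a) (hctr : |c0 - G.ctr u κ| ≤ 1)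
    {c : ℕ × ℤ} (hca : c.1 + 1 ≤ a₀) (har : a₀ ≤ G.ra u κ) {a' b β : ℝ} (hRg : (c.1 + 1, c.2) ∈ Rg G u κ a') {η : Env}
    -- the strips
    (h00 : R00 ≤ R0) (h01 : R0 ≤ R1) (hR0 : 0 ≤ R0) (hb : b * G.w u + 1 ≤ R00) {K₁ : ℝ} (hR1 : R1 ≤ K₁ * wd μ s nn)
    -- stay
    (hSt : η ∈ St Γ G a' b β u κ)
    -- levels
    {n₀ N₀ : ℕ} {b₀ : Pt} {D U₀ : ℝ} (hE : η ∈ UpE18 μ s c₁ n₀ N₀ b₀ D U₀) (hb₀ : b₀.1 = a₀) (hbx : |(b₀.2 : ℝ) - sl μ s * a₀ - c0| ≤ 1)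
    (hD : R00 + 1 ≤ D) (hmN : m ≤ N₀) (hh0 : 0 ≤ hc μ s c₁ n₀)
    {n₁ N₁ : ℕ} {b₁ : Pt} {D₁ U₁ : ℝ} (hE₁ : η ∈ UpE18 μ s c₁ n₁ N₁ b₁ D₁ U₁) (hb₁ : b₁.1 = a) (hbx₁ : |(b₁.2 : ℝ) - sl μ s * a - c0| ≤ 1)
    (hD₁ : R0 + 1 ≤ D₁) (hnN : n ≤ N₁) (hh1 : 0 ≤ hc μ s c₁ n₁)
    -- masses, the reference in the strip of the start
    {A A' : ℝ}
    (tm : ∀ x, |la (sl μ s) c0 a₀ x| ≤ R00 → ∀ j, 1 ≤ j → j ≤ m → ∀ y, |la (sl μ s) c0 (a₀ + j) y| ≤ R0 + 1 →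
      bn μ s Γ (a₀ + j) y η ≤ Real.exp A * bn μ s Γ a₀ x η)
    (tm' : ∀ x, |la (sl μ s) c0 a x| ≤ R0 → ∀ j, 1 ≤ j → j ≤ n → ∀ y, |la (sl μ s) c0 (a + j) y| ≤ R1 + 1 →
      bn μ s Γ (a + j) y η ≤ Real.exp A' * bn μ s Γ a x η) :
    (1 - (Real.exp (-β) + 2 * m * (Real.exp (|Γ.h| * (2 * R0 + 1) + A) * Real.exp (U₀ * EE μ s n₀ - hc μ s c₁ n₀ * (R0 - R00)))) -
      2 * n * (Real.exp (|Γ.h| * (2 * R1 + 1) + A') * Real.exp (U₁ * EE μ s n₁ - hc μ s c₁ n₁ * (R1 - R0)))) *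
      bw (wt η) Γ.p (c.1 + 1) (Γ.N - (c.1 + 1)) c.2 ≤ Z1 (wt η) Γ.p Γ.N a n (Co58 μ s K₁ nn x0) c.1 c.2 := by
  subst ha
  have hw : 0 ≤ R0 := hR0
  have h1 := hcore62 (Γ := Γ) (μ := μ) (c0 := c0) hs hv0 hv1 h00 h01 hR0 (k := c.1 + 1) (a := a₀) (n₀ := m) (n := n) hca haN (q := c.2)
    (η := η) (e1 := Real.exp (-β)) (st62 hGv hctr hSt hca har hN0 hRg hb)
    (fun x hx j _ hj y hy _ => upE62 hE hb₀ hbx hD hmN hh0 hx hj hy) tm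
    (fun x hx j _ hj y hy _ => upE62 hE₁ hb₁ hbx₁ hD₁ hnN hh1 hx hj hy) tm' (Real.exp_pos _).le (Real.exp_pos _).le
    (I := Ic (a₀ + m) c.1 c.2) (fun x hx => hx)
  refine h1.trans ?_
  rw [← Z1_62]
  refine sum_le_sum_of_subset_of_nonneg (Ps_mono62 (fun r y hy => ?_) n) fun π _ _ =>
    Gt66.kp_nonneg (wt_pos η) Γ.p_pos (a := a₀ + m) (k := c.1) (q := c.2) π
  rw [hc0] at hy
  exact C_co58 (h01.trans hR1) hR1 r y hy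

/-- **`core` OF `CwIn`**, `C₀ = 4 / 3`: first exits from the row `a`, the starts in the strip `R0` of `St`. -/
theorem core62_43 (hs : Γ.s = s) (hv0 : 0 ≤ sl μ s) (hv1 : sl μ s ≤ 1) (hGv : G.v = sl μ s) {c₁ : ℝ} {a n nn : ℕ} {x0 : ℤ}
    (haN : a + n ≤ Γ.N) (hN0 : a < Γ.N) (hx0 : |(x0 : ℝ) - sl μ s * a - G.ctr u κ| ≤ 1)
    {c : ℕ × ℤ} (hca : c.1 + 1 ≤ a) (har : a ≤ G.ra u κ) {a' b β : ℝ} (hRg : (c.1 + 1, c.2) ∈ Rg G u κ a') {η : Env}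
    (h01 : R0 ≤ R1) (hR0 : 0 ≤ R0) (hb : b * G.w u + 1 ≤ R0) {K₁ : ℝ} (hR1 : R1 ≤ K₁ * wd μ s nn)
    (hSt : η ∈ St Γ G a' b β u κ)
    {n₁ N₁ : ℕ} {D₁ U₁ : ℝ} (hE₁ : η ∈ UpE18 μ s c₁ n₁ N₁ ((a : ℤ), x0) D₁ U₁) (hD₁ : R0 ≤ D₁) (hnN : n ≤ N₁)
    (hh1 : 0 ≤ hc μ s c₁ n₁) {A : ℝ}
    (tm : ∀ x, |la (sl μ s) ((x0 : ℝ) - sl μ s * a) a x| ≤ R0 → ∀ j, 1 ≤ j → j ≤ n → ∀ y,
      |la (sl μ s) ((x0 : ℝ) - sl μ s * a) (a + j) y| ≤ R1 + 1 → bn μ s Γ (a + j) y η ≤ Real.exp A * bn μ s Γ a x η)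
    (num1 : Real.log 8 ≤ β)
    (num3 : Real.log (32 * n) + (|Γ.h| * (2 * R1 + 1) + A + U₁ * EE μ s n₁) ≤ hc μ s c₁ n₁ * (R1 - R0)) :
    bw (wt η) Γ.p (c.1 + 1) (Γ.N - (c.1 + 1)) c.2 ≤ 4 / 3 * Z1 (wt η) Γ.p Γ.N a n (Co58 μ s K₁ nn x0) c.1 c.2 := by
  obtain ⟨c0, hc0⟩ : ∃ c0, c0 = (x0 : ℝ) - sl μ s * a := ⟨_, rfl⟩
  rw [← hc0] at hx0 tm
  have hb0 : 0 < bw (wt η) Γ.p (c.1 + 1) (Γ.N - (c.1 + 1)) c.2 := bw_pos (wt_pos η) Γ.p_pos _ _ _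
  have h1 := hcore62 (Γ := Γ) (μ := μ) (c0 := c0) hs hv0 hv1 (R00 := R0) (R0 := R0) (R1 := R1) le_rfl h01 hR0 (k := c.1 + 1) (a := a)
    (n₀ := 0) (n := n) hca haN (q := c.2) (η := η) (e1 := Real.exp (-β)) (A := 0) (U := 0) (st62 hGv hx0 hSt hca har hN0 hRg hb)
    (fun x _ j h2 h3 => by omega) (fun x _ j h2 h3 => by omega)
    (fun x hx j _ hj y hy _ => upE62 hE₁ rfl (ε := 0) (by rw [hc0]; simp) (by linarith) hnN hh1 hx hj hy) tm le_rfl (Real.exp_pos _).le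
    (I := Ic a c.1 c.2) (fun x hx => hx)
  have h3 := num62 num3
  have h4 : Real.exp (-β) ≤ 1 / 8 := by
    refine (Real.exp_le_exp.2 (neg_le_neg num1)).trans (le_of_eq ?_)
    rw [Real.exp_neg, Real.exp_log (by norm_num)]
    norm_num
  have h5 : ∑ π ∈ Ps (C62 (sl μ s) c0 R0 R1 (a + 0)) (Ic a c.1 c.2) n, kap Γ.p (a + 0) Γ.N (kc Γ.p (c.1 + 1) (a + 0) c.2) π η ≤
      Z1 (wt η) Γ.p Γ.N a n (Co58 μ s K₁ nn x0) c.1 c.2 := by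
    rw [← Z1_62, Nat.add_zero]
    refine sum_le_sum_of_subset_of_nonneg (Ps_mono62 (fun r y hy => ?_) n) fun π _ _ =>
      Gt66.kp_nonneg (wt_pos η) Γ.p_pos (a := a) (k := c.1) (q := c.2) π
    rw [hc0] at hy
    exact C_co58 (h01.trans hR1) hR1 r y hy
  have h6 := (mul_le_mul_of_nonneg_right (show (3 / 4 : ℝ) ≤ 1 - (Real.exp (-β) + 2 * (0 : ℕ) * (Real.exp (|Γ.h| * (2 * R0 + 1) + 0) * 0)) -
    2 * n * (Real.exp (|Γ.h| * (2 * R1 + 1) + A) * Real.exp (U₁ * EE μ s n₁ - hc μ s c₁ n₁ * (R1 - R0))) by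
      rw [mul_zero, mul_zero, add_zero]
      linarith) hb0.le).trans (h1.trans h5)
  linarith

/-- One line of constants. -/
theorem numc62 {n : ℕ} {c w E h U A kc b Rr R0 R1 : ℝ} (hc : 0 ≤ c) (hw : 0 < w) (hw1 : 1 ≤ w) (hE : 0 ≤ E) (hh : |h| * w ≤ c / 8 * E)
    (hlog : Real.log (32 * n) ≤ E) (h1 : kc * w ≤ R1) (h2 : R1 ≤ Rr * w) (h0 : R0 ≤ b * w) (hR : 0 ≤ Rr)
    (hkc : 1 + c / 4 * (Rr + 1) + A + U ≤ c * (kc - b)) :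
    Real.log (32 * n) + (|h| * (2 * R1 + 1) + A * E + U * E) ≤ c * E / w * (R1 - R0) := by
  have h3 : |h| * (2 * R1 + 1) ≤ c / 4 * (Rr + 1) * E := by
    have g1 : |h| * (2 * R1 + 1) ≤ |h| * (2 * (Rr + 1) * w) := mul_le_mul_of_nonneg_left (by nlinarith) (abs_nonneg _)
    have g2 : |h| * (2 * (Rr + 1) * w) = 2 * (Rr + 1) * (|h| * w) := by ring
    have g3 : 2 * (Rr + 1) * (|h| * w) ≤ 2 * (Rr + 1) * (c / 8 * E) := mul_le_mul_of_nonneg_left hh (by linarith)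
    have g4 : 2 * (Rr + 1) * (c / 8 * E) = c / 4 * (Rr + 1) * E := by ring
    linarith
  have h4 : c * (kc - b) * E ≤ c * E / w * (R1 - R0) := by
    have g1 : c * E / w * ((kc - b) * w) ≤ c * E / w * (R1 - R0) :=
      mul_le_mul_of_nonneg_left (by nlinarith) (div_nonneg (mul_nonneg hc hE) hw.le)
    have g2 : c * E / w * ((kc - b) * w) = c * (kc - b) * E := by
      field_simp
    linarith
  have h5 := mul_le_mul_of_nonneg_right hkc hE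
  nlinarith

/-- **`core` FROM THE SETS OF THE WINDOW.** `hprof` = the conclusion of `profO20`. -/
theorem core62_fin (hs : Γ.s = s) (hv0 : 0 ≤ sl μ s) (hv1 : sl μ s ≤ 1) (hGv : G.v = sl μ s) (hGw : G.w u = wd μ s (G.T u)) {c₁ : ℝ}
    (hc₁ : 0 ≤ c₁) (hw : 2 ≤ wd μ s (G.T u)) (hE0 : 0 ≤ EE μ s (G.T u)) (hh : |Γ.h| * wd μ s (G.T u) ≤ c₁ / 8 * EE μ s (G.T u))
    {a n nn : ℕ} {x0 : ℤ} (hx0 : |(x0 : ℝ) - sl μ s * a - G.ctr u κ| ≤ 1) (hn : 1 ≤ n) (hare : a + n ≤ G.re u κ) (hre : G.re u κ ≤ Γ.N)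
    {k : ℕ × ℤ} (hka : k.1 + 1 ≤ a) (har : a ≤ G.ra u κ) {aS bS β : ℝ} (hRg : (k.1 + 1, k.2) ∈ Rg G u κ aS) {η : Env} (hbS : 0 ≤ bS)
    {K₁ kc Rr : ℝ} (h1 : kc * G.w u ≤ K₁ * wd μ s nn) (h2 : K₁ * wd μ s nn + 2 ≤ Rr * G.w u) (hkb : bS + 1 ≤ kc)
    -- stay
    (hSt : η ∈ St Γ G aS bS β u κ) (hβ : Real.log 8 ≤ β)
    -- levels
    {N₁ : ℕ} {D₁ U₁ : ℝ} (hE₁ : η ∈ UpE18 μ s c₁ (G.T u) N₁ ((a : ℤ), x0) D₁ U₁) (hnN : n ≤ N₁) (hD₁ : (bS + 1) * G.w u ≤ D₁)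
    -- masses
    {Q sl' : ℝ} (hsl' : 0 ≤ sl')
    (hprof : ∀ (y y' : ℤ) (k' : ℕ), |G.lat (a, y) - G.ctr u κ| ≤ (bS + 1) * G.w u → a ≤ k' → k' ≤ G.re u κ →
      bn μ s Γ k' y' η ≤ Real.exp ((Q + sl' * (|G.lat (k', y') - G.ctr u κ| / G.w u)) * EE μ s (G.T u)) * bn μ s Γ a y η)
    -- numbers
    (hlog : Real.log (32 * n) ≤ EE μ s (G.T u)) (hkc : 1 + c₁ / 4 * (Rr + 1) + (Q + sl' * Rr) + U₁ ≤ c₁ * (kc - (bS + 1))) :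
    bw (wt η) Γ.p (k.1 + 1) (Γ.N - (k.1 + 1)) k.2 ≤ 4 / 3 * Z1 (wt η) Γ.p Γ.N a n (Co58 μ s K₁ nn x0) k.1 k.2 := by
  have hw0 : 0 < G.w u := by rw [hGw]; linarith
  have hw2 : 2 ≤ G.w u := by rw [hGw]; exact hw
  have hh1 : 0 ≤ hc μ s c₁ (G.T u) := div_nonneg (mul_nonneg hc₁ hE0) (by linarith)
  have hR01 : bS * G.w u + 1 ≤ (bS + 1) * G.w u := by linarith
  have hkw : (bS + 1) * G.w u ≤ kc * G.w u := mul_le_mul_of_nonneg_right hkb hw0.le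
  have hRr : 0 ≤ Rr := by
    by_contra hcon
    have : Rr * G.w u < 0 := mul_neg_of_neg_of_pos (not_le.1 hcon) hw0
    have g1 : 0 ≤ (bS + 1) * G.w u := by positivity
    linarith
  refine core62_43 (R0 := bS * G.w u + 1) (R1 := K₁ * wd μ s nn) hs hv0 hv1 hGv (by omega) (by omega) hx0 hka har hRg (by linarith)
    (by positivity) le_rfl le_rfl hSt hE₁ (by linarith) hnN hh1 (A := (Q + sl' * Rr) * EE μ s (G.T u)) ?_ hβ ?_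
  · intro x hx j _ hj y hy
    refine tmP62 (E := fun _ => EE μ s (G.T u)) (Q := Q) (sl' := sl') hGv hx0 hw0 hE0 hsl' (R1 := K₁ * wd μ s nn)
      (fun k' y' h3 h4 => hprof x y' k' ?_ h3 h4) (by omega) h2 hy
    have := (la_ctr (u := u) (κ := κ) hGv hx0 a x).1
    linarith
  · have h3 := numc62 (n := n) (R0 := bS * G.w u + 1) (b := bS + 1) (A := Q + sl' * Rr) hc₁ (by linarith : 0 < wd μ s (G.T u)) (by linarith)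
      hE0 hh hlog (by rw [← hGw]; exact h1) (by rw [← hGw]; linarith : K₁ * wd μ s nn ≤ Rr * wd μ s (G.T u)) (by rw [← hGw]; exact hR01)
      hRr hkc
    exact h3

end

end Pool.Agent.W_7d29a1_C1.Hc62
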