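import Mathlib

/-!
Both halves (MP_7d29a1_pr), attractor route: THE PRICE OF A NEAR TIE, ABSTRACT FORM WITH MEASURABLE HIT SETS. (helper9)

Slabs `0, .., m-1`, a larger index is further outside; `R u η ω` = the environment `ω` with the slab `u` taken from `η`;
`T u`, `L u` = the slab `u` is typical, lucky (functions of the slab). Hit sets `K 0, .., K m`:

* a filling of the slab `u` inside `T u ∪ L u` does not leave the next hit set (`step`, `keep`);
* a typical filling and a lucky filling of the slab `u` are never both in `K u` (`excl`);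
* the weight `G` of the lucky fillings is at least `c` times the weight of the typical ones (`cmp`);
* `h` does not distinguish the fillings inside `T u ∪ L u`.

Then `∫ h G 1_(K 0) (1 + c)^(number of typical slabs) ≤ ∫ h G 1_(K m)`. The slabs are integrated from inside to outside.
-/

set_option autoImplicit false

namespace Pool.Agent.W_7d29a1_C1.Hit9

open MeasureTheory
open scoped ENNReal

variable {Ω : Type*} [MeasurableSpace Ω] {P : Measure Ω}

/-- The data. -/
structure HitData (P : Measure Ω) (m : ℕ) (R : ℕ → Ω → Ω → Ω) (T L K : ℕ → Set Ω) (G h : Ω → ℝ≥0∞) (c : ℝ≥0∞) :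
    Prop where
  mp : ∀ u < m, MeasurePreserving (fun w : Ω × Ω => R u w.1 w.2) (P.prod P) P
  mT : ∀ u < m, MeasurableSet (T u)
  mL : ∀ u < m, MeasurableSet (L u)
  mK : ∀ u ≤ m, MeasurableSet (K u)
  mG : Measurable G
  mh : Measurable h
  disj : ∀ u < m, Disjoint (T u) (L u)
  /-- typical / lucky at `v` does not see the other slabs -/
  bT : ∀ u < m, ∀ v < m, u ≠ v → ∀ η ω, R u η ω ∈ T v ↔ ω ∈ T v
  /-- one hit filling inside `T u ∪ L u`: all of them are in the next hit set -/
  step : ∀ u < m, ∀ η η' ω, R u η ω ∈ K u → (R u η ω ∈ T u ∨ R u η ω ∈ L u) → (R u η' ω ∈ T u ∨ R u η' ω ∈ L u) →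
    R u η' ω ∈ K (u + 1)
  /-- an abnormal filling stays hit -/
  keep : ∀ u < m, ∀ ω, ω ∈ K u → ω ∉ T u → ω ∉ L u → ω ∈ K (u + 1)
  /-- not both -/
  excl : ∀ u < m, ∀ η η' ω, R u η ω ∈ K u → R u η ω ∈ T u → R u η' ω ∈ K u → R u η' ω ∈ L u → False
  /-- `h` is blind inside `T u ∪ L u` -/
  bh : ∀ u < m, ∀ η η' ω, (R u η ω ∈ T u ∨ R u η ω ∈ L u) → (R u η' ω ∈ T u ∨ R u η' ω ∈ L u) → h (R u η ω) = h (R u η' ω)
  /-- the comparison at one slab, everything else fixed -/
  cmp : ∀ u < m, ∀ ω, c * ∫⁻ η in {η | R u η ω ∈ T u}, G (R u η ω) ∂P ≤ ∫⁻ η in {η | R u η ω ∈ L u}, G (R u η ω) ∂P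

open Classical in
/-- The factor of the slab `u`. -/
noncomputable def fT (T : ℕ → Set Ω) (c : ℝ≥0∞) (u : ℕ) (ω : Ω) : ℝ≥0∞ := if ω ∈ T u then 1 + c else 1

theorem measurable_fT {T : ℕ → Set Ω} {c : ℝ≥0∞} {u : ℕ} (hT : MeasurableSet (T u)) : Measurable (fT T c u) := by
  classical
  unfold fT
  exact Measurable.ite hT measurable_const measurable_const

/-- The product of the factors of the slabs `u, .., m-1`. -/
noncomputable def FT (T : ℕ → Set Ω) (c : ℝ≥0∞) (m u : ℕ) (ω : Ω) : ℝ≥0∞ := ∏ v ∈ Finset.Ico u m, fT T c v ω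

/-- The integrand at the stage `u`. -/
noncomputable def VV (T K : ℕ → Set Ω) (G h : Ω → ℝ≥0∞) (c : ℝ≥0∞) (m u : ℕ) (ω : Ω) : ℝ≥0∞ :=
  (K u).indicator (fun ω => h ω * G ω * FT T c m u ω) ω

namespace HitData

variable {m : ℕ} {R : ℕ → Ω → Ω → Ω} {T L K : ℕ → Set Ω} {G h : Ω → ℝ≥0∞} {c : ℝ≥0∞}

theorem meas_FT (d : HitData P m R T L K G h c) (u : ℕ) : Measurable (FT T c m u) := by
  unfold FT
  exact Finset.measurable_prod _ fun v hv => measurable_fT (d.mT v (Finset.mem_Ico.1 hv).2)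

theorem meas_VV (d : HitData P m R T L K G h c) {u : ℕ} (hu : u ≤ m) : Measurable (VV T K G h c m u) := by
  unfold VV
  exact ((d.mh.mul d.mG).mul (d.meas_FT u)).indicator (d.mK u hu)

/-- The outer factors do not see the slab `u`. -/
theorem FT_blind (d : HitData P m R T L K G h c) {u : ℕ} (hu : u < m) (η η' ω : Ω) :
    FT T c m (u + 1) (R u η ω) = FT T c m (u + 1) (R u η' ω) := by
  classical
  unfold FT
  refine Finset.prod_congr rfl fun v hv => ?_
  obtain ⟨hv1, hv2⟩ := Finset.mem_Ico.1 hv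
  have h1 : R u η ω ∈ T v ↔ R u η' ω ∈ T v :=
    (d.bT u hu v hv2 (by omega) η ω).trans (d.bT u hu v hv2 (by omega) η' ω).symm
  unfold fT
  simp only [h1]

/-- **One slab.** -/
theorem one [SFinite P] (d : HitData P m R T L K G h c) {u : ℕ} (hu : u < m) :
    ∫⁻ ω, VV T K G h c m u ω ∂P ≤ ∫⁻ ω, VV T K G h c m (u + 1) ω ∂P := by
  classical
  have hmp := d.mp u hu
  have hmR : Measurable (fun w : Ω × Ω => R u w.1 w.2) := hmp.measurable
  have conv : ∀ F : Ω → ℝ≥0∞, Measurable F → ∫⁻ ω, F ω ∂P = ∫⁻ ω, ∫⁻ η, F (R u η ω) ∂P ∂P := by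
    intro F hF
    rw [← hmp.lintegral_comp hF]
    exact lintegral_prod_symm' (fun w : Ω × Ω => F (R u w.1 w.2)) (hF.comp hmR)
  have hRω : ∀ ω, Measurable fun η => R u η ω := fun ω => hmR.comp (measurable_id.prodMk measurable_const)
  rw [conv _ (d.meas_VV hu.le), conv _ (d.meas_VV hu)]
  refine lintegral_mono fun ω => ?_
  -- everything but the slab `u` fixed
  have eF : ∀ ω, FT T c m u ω = fT T c u ω * FT T c m (u + 1) ω := by
    intro ω
    unfold FT
    rw [Finset.prod_eq_prod_Ico_succ_bot hu]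
  have mT' : MeasurableSet {η | R u η ω ∈ T u} := (hRω ω) (d.mT u hu)
  have mL' : MeasurableSet {η | R u η ω ∈ L u} := (hRω ω) (d.mL u hu)
  have mG' : Measurable fun η => G (R u η ω) := d.mG.comp (hRω ω)
  have mV' : Measurable fun η => VV T K G h c m (u + 1) (R u η ω) := (d.meas_VV hu).comp (hRω ω)
  set N : Set Ω := {η | R u η ω ∈ T u} ∪ {η | R u η ω ∈ L u} with hN
  have mN : MeasurableSet N := mT'.union mL'
  have hdis : Disjoint {η | R u η ω ∈ T u} {η | R u η ω ∈ L u} := by
    rw [Set.disjoint_left]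
    intro η h1 h2
    exact (Set.disjoint_left.1 (d.disj u hu)) h1 h2
  -- off `T u ∪ L u`
  have hoff : ∫⁻ η in Nᶜ, VV T K G h c m u (R u η ω) ∂P ≤ ∫⁻ η in Nᶜ, VV T K G h c m (u + 1) (R u η ω) ∂P := by
    refine setLIntegral_mono' mN.compl fun η hη => ?_
    have h1 : R u η ω ∉ T u := fun hh => hη (Or.inl hh)
    have h2 : R u η ω ∉ L u := fun hh => hη (Or.inr hh)
    by_cases hK : R u η ω ∈ K u
    · have hK' := d.keep u hu _ hK h1 h2
      unfold VV
      rw [Set.indicator_of_mem hK, Set.indicator_of_mem hK', eF]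
      unfold fT
      rw [if_neg h1, one_mul]
    · unfold VV
      rw [Set.indicator_of_notMem hK]
      exact zero_le
  -- on `T u ∪ L u`
  have hon : ∫⁻ η in N, VV T K G h c m u (R u η ω) ∂P ≤ ∫⁻ η in N, VV T K G h c m (u + 1) (R u η ω) ∂P := by
    by_cases hex : ∃ η0, R u η0 ω ∈ K u ∧ (R u η0 ω ∈ T u ∨ R u η0 ω ∈ L u)
    · obtain ⟨η0, hK0, hN0⟩ := hex
      set a : ℝ≥0∞ := h (R u η0 ω) * FT T c m (u + 1) (R u η0 ω) with ha
      have hval : ∀ η ∈ N, VV T K G h c m (u + 1) (R u η ω) = a * G (R u η ω) := by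
        intro η hη
        have hK' : R u η ω ∈ K (u + 1) := d.step u hu η0 η ω hK0 hN0 hη
        unfold VV
        rw [Set.indicator_of_mem hK', d.FT_blind hu η η0 ω, d.bh u hu η η0 ω hη hN0]
        ring
      have hvT : ∀ η ∈ {η | R u η ω ∈ T u}, VV T K G h c m u (R u η ω) ≤ (a * (1 + c)) * G (R u η ω) := by
        intro η hη
        unfold VV
        by_cases hK : R u η ω ∈ K u
        · rw [Set.indicator_of_mem hK, eF, d.FT_blind hu η η0 ω, d.bh u hu η η0 ω (Or.inl hη) hN0]
          unfold fT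
          rw [if_pos (show R u η ω ∈ T u from hη)]
          exact le_of_eq (by ring)
        · rw [Set.indicator_of_notMem hK]
          exact zero_le
      have hvL : ∀ η ∈ {η | R u η ω ∈ L u}, VV T K G h c m u (R u η ω) ≤ a * G (R u η ω) := by
        intro η hη
        have hT0 : R u η ω ∉ T u := fun hh => (Set.disjoint_left.1 (d.disj u hu)) hh hη
        unfold VV
        by_cases hK : R u η ω ∈ K u
        · rw [Set.indicator_of_mem hK, eF, d.FT_blind hu η η0 ω, d.bh u hu η η0 ω (Or.inr hη) hN0]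
          unfold fT
          rw [if_neg hT0]
          exact le_of_eq (by ring)
        · rw [Set.indicator_of_notMem hK]
          exact zero_le
      have rhs : ∫⁻ η in N, VV T K G h c m (u + 1) (R u η ω) ∂P =
          a * (∫⁻ η in {η | R u η ω ∈ T u}, G (R u η ω) ∂P + ∫⁻ η in {η | R u η ω ∈ L u}, G (R u η ω) ∂P) := by
        rw [setLIntegral_congr_fun mN hval, lintegral_const_mul _ mG', hN, lintegral_union mL' hdis]
      rw [rhs, hN, lintegral_union mL' hdis]
      by_cases hTK : ∃ η1, R u η1 ω ∈ K u ∧ R u η1 ω ∈ T u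
      · -- a typical hit: no lucky hit
        obtain ⟨η1, hK1, hT1⟩ := hTK
        have hL0 : ∫⁻ η in {η | R u η ω ∈ L u}, VV T K G h c m u (R u η ω) ∂P = 0 := by
          have : ∀ η ∈ {η | R u η ω ∈ L u}, VV T K G h c m u (R u η ω) = 0 := by
            intro η hη
            have hK : R u η ω ∉ K u := fun hh => d.excl u hu η1 η ω hK1 hT1 hh hη
            unfold VV
            rw [Set.indicator_of_notMem hK]
          rw [setLIntegral_congr_fun mL' this, lintegral_zero]
        rw [hL0, add_zero]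
        calc ∫⁻ η in {η | R u η ω ∈ T u}, VV T K G h c m u (R u η ω) ∂P
            ≤ ∫⁻ η in {η | R u η ω ∈ T u}, (a * (1 + c)) * G (R u η ω) ∂P := setLIntegral_mono' mT' hvT
          _ = a * (∫⁻ η in {η | R u η ω ∈ T u}, G (R u η ω) ∂P + c * ∫⁻ η in {η | R u η ω ∈ T u}, G (R u η ω) ∂P) := by
              rw [lintegral_const_mul _ mG']
              ring
          _ ≤ _ := by
              gcongr
              exact d.cmp u hu ω
      · -- no typical hit
        have hT0 : ∫⁻ η in {η | R u η ω ∈ T u}, VV T K G h c m u (R u η ω) ∂P = 0 := by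
          have : ∀ η ∈ {η | R u η ω ∈ T u}, VV T K G h c m u (R u η ω) = 0 := by
            intro η hη
            have hK : R u η ω ∉ K u := fun hh => hTK ⟨η, hh, hη⟩
            unfold VV
            rw [Set.indicator_of_notMem hK]
          rw [setLIntegral_congr_fun mT' this, lintegral_zero]
        rw [hT0, zero_add]
        calc ∫⁻ η in {η | R u η ω ∈ L u}, VV T K G h c m u (R u η ω) ∂P
            ≤ ∫⁻ η in {η | R u η ω ∈ L u}, a * G (R u η ω) ∂P := setLIntegral_mono' mL' hvL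
          _ = a * ∫⁻ η in {η | R u η ω ∈ L u}, G (R u η ω) ∂P := lintegral_const_mul _ mG'
          _ ≤ _ := by
              rw [mul_add]
              exact le_add_self
    · -- nothing is hit
      have : ∀ η ∈ N, VV T K G h c m u (R u η ω) = 0 := by
        intro η hη
        have hK : R u η ω ∉ K u := fun hh => hex ⟨η, hh, hη⟩
        unfold VV
        rw [Set.indicator_of_notMem hK]
      rw [setLIntegral_congr_fun mN this, lintegral_zero]
      exact zero_le
  calc ∫⁻ η, VV T K G h c m u (R u η ω) ∂P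
      = ∫⁻ η in N, VV T K G h c m u (R u η ω) ∂P + ∫⁻ η in Nᶜ, VV T K G h c m u (R u η ω) ∂P :=
        (lintegral_add_compl _ mN).symm
    _ ≤ ∫⁻ η in N, VV T K G h c m (u + 1) (R u η ω) ∂P + ∫⁻ η in Nᶜ, VV T K G h c m (u + 1) (R u η ω) ∂P :=
        add_le_add hon hoff
    _ = _ := lintegral_add_compl _ mN

/-- **THE PRICE.** -/
theorem chain [SFinite P] (d : HitData P m R T L K G h c) :
    ∫⁻ ω in K 0, h ω * G ω * FT T c m 0 ω ∂P ≤ ∫⁻ ω in K m, h ω * G ω ∂P := by
  have key : ∀ k, k ≤ m → ∫⁻ ω, VV T K G h c m 0 ω ∂P ≤ ∫⁻ ω, VV T K G h c m k ω ∂P := by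
    intro k
    induction k with
    | zero => exact fun _ => le_rfl
    | succ k ih => exact fun hk => (ih (by omega)).trans (d.one (by omega))
  have h1 := key m le_rfl
  unfold VV at h1
  rw [lintegral_indicator (d.mK 0 (Nat.zero_le m)), lintegral_indicator (d.mK m le_rfl)] at h1
  refine h1.trans (le_of_eq ?_)
  congr 1
  funext ω
  unfold FT
  rw [Finset.Ico_self, Finset.prod_empty, mul_one]

end HitData

open Classical in
/-- The number of slabs which are not typical. -/
noncomputable def abn (T : ℕ → Set Ω) (m : ℕ) (ω : Ω) : ℕ := ((Finset.range m).filter fun u => ω ∉ T u).card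

omit [MeasurableSpace Ω] in
theorem FT_eq (T : ℕ → Set Ω) (c : ℝ≥0∞) (hc : c ≠ ∞) (m : ℕ) (ω : Ω) :
    FT T c m 0 ω = (1 + c) ^ m * ((1 + c)⁻¹) ^ abn T m ω := by
  classical
  have hg0 : (1 + c) ≠ 0 := by simp
  have hg1 : (1 + c) ≠ ∞ := ENNReal.add_ne_top.2 ⟨ENNReal.one_ne_top, hc⟩
  unfold FT
  rw [← Finset.range_eq_Ico]
  have h1 : ∀ v ∈ Finset.range m, fT T c v ω = (1 + c) * (if ω ∉ T v then (1 + c)⁻¹ else 1) := by
    intro v _
    unfold fT
    by_cases hv : ω ∈ T v
    · rw [if_pos hv, if_neg (not_not.2 hv), mul_one]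
    · rw [if_neg hv, if_pos hv, ENNReal.mul_inv_cancel hg0 hg1]
  rw [Finset.prod_congr rfl h1, Finset.prod_mul_distrib, Finset.prod_const, Finset.card_range, Finset.prod_ite,
    Finset.prod_const, Finset.prod_const_one, mul_one]
  rfl

/-- **THE PRICE, in the form used by the recursion**: the abnormal (not typical) slabs under the integral. -/
theorem HitData.price [SFinite P] {m : ℕ} {R : ℕ → Ω → Ω → Ω} {T L K : ℕ → Set Ω} {G h : Ω → ℝ≥0∞} {c : ℝ≥0∞}
    (d : HitData P m R T L K G h c) (hc : c ≠ ∞) :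
    (1 + c) ^ m * ∫⁻ ω in K 0, h ω * G ω * ((1 + c)⁻¹) ^ abn T m ω ∂P ≤ ∫⁻ ω in K m, h ω * G ω ∂P := by
  have hg1 : (1 + c) ^ m ≠ ∞ := ENNReal.pow_ne_top (ENNReal.add_ne_top.2 ⟨ENNReal.one_ne_top, hc⟩)
  refine le_trans (le_of_eq ?_) d.chain
  rw [← lintegral_const_mul' _ _ hg1]
  refine lintegral_congr fun ω => ?_
  rw [FT_eq T c hc m ω]
  ring

end Pool.Agent.W_7d29a1_C1.Hit9
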