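import Pool.Agent.W_7d29a1_C1.Late87

/-!
Both halves (MP_7d29a1_pr), attractor route, MOVE THE CONTACT: Hoelder over the residue classes of the slabs. (helper6)

The exclusions of `HitF` compare a typical with a lucky content of the slab `u`, the slabs inside of `u` being typical
or lucky. They are needed only inside of one class of slabs (for instance one residue modulo `q`), whose members are far
apart, so that the level of a lucky content of the next inner slab is small against the bonus of `u`: `q` is chosen after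
this level. The price per slab is then `1 + c1` with `(1 + c1) ^ q = 1 + c`, for all slabs, and a slab which is not typical
costs `1 + c1`: the fraction of slabs which are not typical does not depend on `q`.
-/

set_option autoImplicit false

namespace Pool.Agent.W_7d29a1_C1.H6

open MeasureTheory Finset
open Pool.Agent.W_7d29a1_C1.Lt87
open scoped ENNReal

variable {Ω : Type*}

theorem fac_pow {T : Set Ω} {c c1 : ℝ≥0∞} {q : ℕ} (e : (1 + c1) ^ q = 1 + c) (ω : Ω) :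
    fac T c1 ω ^ q = fac T c ω := by
  classical
  unfold fac
  split_ifs
  · exact one_pow _
  · rw [← ENNReal.inv_pow, e]

theorem fac_root {T : Set Ω} {c c1 : ℝ≥0∞} {q : ℕ} (hq : q ≠ 0) (e : (1 + c1) ^ q = 1 + c) (ω : Ω) :
    fac T c ω ^ ((q : ℝ)⁻¹) = fac T c1 ω := by
  rw [← fac_pow e ω, ENNReal.pow_rpow_inv_natCast hq]

variable [MeasurableSpace Ω] {P : Measure Ω}

/-- **HOELDER OVER THE CLASSES.** -/
theorem hold6 {S : Finset ℕ} {T : ℕ → Set Ω} (mT : ∀ u ∈ S, MeasurableSet (T u)) {q : ℕ} (hq : q ≠ 0) {cl : ℕ → ℕ}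
    (hcl : ∀ u ∈ S, cl u < q) {c c1 : ℝ≥0∞} (e : (1 + c1) ^ q = 1 + c) {f : Ω → ℝ≥0∞} (mf : AEMeasurable f P)
    {B : ℝ≥0∞} (h : ∀ r < q, ∫⁻ ω, f ω * ∏ u ∈ S.filter (fun u => cl u = r), fac (T u) c ω ∂P ≤
      B * (1 + c)⁻¹ ^ (S.filter (fun u => cl u = r)).card) :
    ∫⁻ ω, f ω * ∏ u ∈ S, fac (T u) c1 ω ∂P ≤ B * (1 + c1)⁻¹ ^ S.card := by
  classical
  have hq0 : (0 : ℝ) ≤ (q : ℝ)⁻¹ := by positivity
  have hqq : (q : ℝ) ≠ 0 := by exact_mod_cast hq
  set z : ℝ := (q : ℝ)⁻¹ with hz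
  have hmaps : ∀ u ∈ S, cl u ∈ range q := fun u hu => mem_range.2 (hcl u hu)
  -- a product over all slabs is a product over the classes
  have eprod : ∀ g : ℕ → ℝ≥0∞, ∏ r ∈ range q, ∏ u ∈ S.filter (fun u => cl u = r), g u = ∏ u ∈ S, g u :=
    fun g => prod_fiberwise_of_maps_to hmaps g
  have econst : ∀ x : ℝ≥0∞, ∏ _r ∈ range q, x ^ z = x := by
    intro x
    rw [prod_const, card_range, hz, ENNReal.rpow_inv_natCast_pow hq]
  have hpt : ∀ ω, ∏ r ∈ range q, (f ω * ∏ u ∈ S.filter (fun u => cl u = r), fac (T u) c ω) ^ z =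
      f ω * ∏ u ∈ S, fac (T u) c1 ω := by
    intro ω
    have h1 : ∀ r ∈ range q, (f ω * ∏ u ∈ S.filter (fun u => cl u = r), fac (T u) c ω) ^ z =
        f ω ^ z * ∏ u ∈ S.filter (fun u => cl u = r), fac (T u) c1 ω := by
      intro r _
      rw [ENNReal.mul_rpow_of_nonneg _ _ hq0, ← ENNReal.prod_rpow_of_nonneg hq0]
      congr 1
      exact prod_congr rfl fun u _ => fac_root hq e ω
    rw [prod_congr rfl h1, prod_mul_distrib, econst, eprod fun u => fac (T u) c1 ω]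
  have hm : ∀ r ∈ range q, AEMeasurable (fun ω => f ω * ∏ u ∈ S.filter (fun u => cl u = r), fac (T u) c ω) P := by
    intro r _
    exact mf.mul (Finset.measurable_fun_prod _ fun u hu =>
      measurable_fac (mT u (mem_filter.1 hu).1) c).aemeasurable
  have hsum : ∑ _r ∈ range q, z = 1 := by
    rw [sum_const, card_range, nsmul_eq_mul, hz]
    exact mul_inv_cancel₀ hqq
  have key := ENNReal.lintegral_prod_norm_pow_le (μ := P) (range q)
    (f := fun r ω => f ω * ∏ u ∈ S.filter (fun u => cl u = r), fac (T u) c ω) hm (p := fun _ => z) hsum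
    (fun _ _ => hq0)
  have hroot : ∀ n : ℕ, ((1 + c)⁻¹ ^ n) ^ z = (1 + c1)⁻¹ ^ n := by
    intro n
    have h1 : (1 + c)⁻¹ ^ n = ((1 + c1)⁻¹ ^ n) ^ q := by
      rw [← e, ENNReal.inv_pow, ← pow_mul, ← pow_mul, mul_comm]
    rw [h1, hz, ENNReal.pow_rpow_inv_natCast hq]
  calc ∫⁻ ω, f ω * ∏ u ∈ S, fac (T u) c1 ω ∂P
      = ∫⁻ ω, ∏ r ∈ range q, (f ω * ∏ u ∈ S.filter (fun u => cl u = r), fac (T u) c ω) ^ z ∂P :=
        lintegral_congr fun ω => (hpt ω).symm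
    _ ≤ ∏ r ∈ range q, (∫⁻ ω, f ω * ∏ u ∈ S.filter (fun u => cl u = r), fac (T u) c ω ∂P) ^ z := key
    _ ≤ ∏ r ∈ range q, (B * (1 + c)⁻¹ ^ (S.filter (fun u => cl u = r)).card) ^ z :=
        Finset.prod_le_prod' fun r hr => ENNReal.rpow_le_rpow (h r (mem_range.1 hr)) hq0
    _ = ∏ r ∈ range q, (B ^ z * (1 + c1)⁻¹ ^ (S.filter (fun u => cl u = r)).card) := by
        refine prod_congr rfl fun r _ => ?_
        rw [ENNReal.mul_rpow_of_nonneg _ _ hq0, hroot]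
    _ = B * (1 + c1)⁻¹ ^ S.card := by
        rw [prod_mul_distrib, econst]
        congr 1
        have h2 := eprod fun _ => (1 + c1)⁻¹
        simpa only [prod_const] using h2

omit [MeasurableSpace Ω] in
/-- The slack grows. -/
theorem slack_union {S : Finset ℕ} {h : Finset ℕ → Ω → ℝ≥0∞}
    (mono : ∀ u ∈ S, ∀ A ω, h A ω ≤ h (insert u A) ω) (A : Finset ℕ) (ω : Ω) :
    ∀ B : Finset ℕ, B ⊆ S → h A ω ≤ h (A ∪ B) ω := by
  classical
  intro B
  induction B using Finset.induction_on with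
  | empty => intro _; rw [union_empty]
  | insert u B hu ih =>
    intro hs
    rw [union_insert]
    exact (ih fun v hv => hs (mem_insert_of_mem hv)).trans (mono u (hs (mem_insert_self _ _)) _ ω)

/-- **THE PRICE OF A LATE ALTERNATIVE, the exclusions being asked only inside of one class of slabs.** -/
theorem late6 [SFinite P] {R : ℕ → Ω → Ω → Ω} {S : Finset ℕ} {T L : ℕ → Set Ω} {q : ℕ} (hq : q ≠ 0) {cl : ℕ → ℕ}
    (hcl : ∀ u ∈ S, cl u < q) {E : ℕ → ℕ → Ω → Ω → Prop} {H : Set Ω}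
    (d : ∀ r < q, HitF P R (S.filter fun u => cl u = r) T L (E r) H)
    {c c1 : ℝ≥0∞} (hc : c ≠ ⊤) (e : (1 + c1) ^ q = 1 + c) {G : Ω → ℝ≥0∞} (mG : Measurable G)
    (cmp : ∀ u ∈ S, ∀ ω ∈ T u, c * G ω ≤ ∫⁻ η, (L u).indicator G (R u η ω) ∂P)
    {h : Finset ℕ → Ω → ℝ≥0∞} (mh : ∀ A, Measurable (h A)) (mono : ∀ u ∈ S, ∀ A ω, h A ω ≤ h (insert u A) ω)
    (inv : ∀ u ∈ S, ∀ A, ∀ ω ∈ T u, ∀ η, R u η ω ∈ L u → h A ω ≤ h (insert u A) (R u η ω)) (A : Finset ℕ) :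
    ∫⁻ ω, G ω * (h A ω * H.indicator 1 ω * ∏ u ∈ S, fac (T u) c1 ω) ∂P ≤
      (1 + c1)⁻¹ ^ S.card * ∫⁻ ω, G ω * h (A ∪ S) ω ∂P := by
  classical
  have hq1 : 0 < q := Nat.pos_of_ne_zero hq
  have mT : ∀ u ∈ S, MeasurableSet (T u) := fun u hu =>
    ((d (cl u) (hcl u hu)).slab u (mem_filter.2 ⟨hu, rfl⟩)).mT
  have mH : MeasurableSet H := (d 0 hq1).mH
  have h1c : (1 + c) ≠ ⊤ := ENNReal.add_ne_top.2 ⟨ENNReal.one_ne_top, hc⟩
  have h1c0 : (1 + c) ≠ 0 := by simp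
  set f : Ω → ℝ≥0∞ := fun ω => G ω * (h A ω * H.indicator 1 ω) with hf
  have mf : Measurable f := mG.mul ((mh A).mul (measurable_one.indicator mH))
  have key := hold6 (P := P) mT hq hcl e mf.aemeasurable (B := ∫⁻ ω, G ω * h (A ∪ S) ω ∂P) (fun r hr => by
    set Sr := S.filter fun u => cl u = r with hSr
    have hsub : Sr ⊆ S := filter_subset _ _
    have h1 := (d r hr).late hc mG (fun u hu => cmp u (hsub hu)) mh (fun u hu => mono u (hsub hu))
      (fun u hu => inv u (hsub hu)) A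
    have h2 : ∫⁻ ω, G ω * h (A ∪ Sr) ω ∂P ≤ ∫⁻ ω, G ω * h (A ∪ S) ω ∂P := by
      refine lintegral_mono fun ω => mul_le_mul' le_rfl ?_
      have h3 := slack_union mono (A ∪ Sr) ω S subset_rfl
      rwa [union_assoc, union_eq_right.2 hsub] at h3
    have h4 : ∫⁻ ω, f ω * ∏ u ∈ Sr, fac (T u) c ω ∂P =
        ∫⁻ ω, G ω * (h A ω * H.indicator 1 ω * ∏ u ∈ Sr, fac (T u) c ω) ∂P :=
      lintegral_congr fun ω => by rw [hf]; ring
    rw [h4, ← ENNReal.inv_pow, ← div_eq_mul_inv,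
      ENNReal.le_div_iff_mul_le (Or.inl (pow_ne_zero _ h1c0)) (Or.inl (ENNReal.pow_ne_top h1c)), mul_comm]
    exact h1.trans h2)
  calc _ = ∫⁻ ω, f ω * ∏ u ∈ S, fac (T u) c1 ω ∂P := lintegral_congr fun ω => by rw [hf]; ring
    _ ≤ _ := key
    _ = _ := mul_comm _ _

/-- The price per slab: the root. -/
theorem exists_c1 {c : ℝ≥0∞} (hc : c ≠ ⊤) (hc0 : c ≠ 0) {q : ℕ} (hq : q ≠ 0) :
    ∃ c1 : ℝ≥0∞, c1 ≠ ⊤ ∧ c1 ≠ 0 ∧ (1 + c1) ^ q = 1 + c := by
  have hz : (0 : ℝ) ≤ (q : ℝ)⁻¹ := by positivity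
  have hz' : (0 : ℝ) < (q : ℝ)⁻¹ := by
    have : (0 : ℝ) < q := by exact_mod_cast Nat.pos_of_ne_zero hq
    positivity
  have h1c : (1 + c) ≠ ⊤ := ENNReal.add_ne_top.2 ⟨ENNReal.one_ne_top, hc⟩
  set θ : ℝ≥0∞ := (1 + c) ^ ((q : ℝ)⁻¹) with hθ
  have h1 : 1 < θ := by
    rw [hθ]
    refine ENNReal.one_lt_rpow ?_ hz'
    exact ENNReal.lt_add_right ENNReal.one_ne_top hc0
  have h2 : θ ≠ ⊤ := ENNReal.rpow_ne_top_of_nonneg hz h1c
  have h3 : 1 + (θ - 1) = θ := add_tsub_cancel_of_le h1.le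
  refine ⟨θ - 1, ENNReal.sub_ne_top h2, ?_, ?_⟩
  · exact (tsub_pos_of_lt h1).ne'
  · rw [h3, hθ, ENNReal.rpow_inv_natCast_pow hq]

end Pool.Agent.W_7d29a1_C1.H6
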