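import Pool.Agent.W_7d29a1_C1.HitM49
import Pool.Agent.W_7d29a1_C1.Hold6

/-!
Both halves (MP_7d29a1_pr), attractor route, MOVE THE CONTACT: the fields `hzF`, `hzE` of `MoveD` from exclusions inside
of one residue class of scales. (helper6, over helper49 HitM49)

`HitD` asks the exclusion at the window `u` against arbitrary (typical or lucky) contents of all inner windows of `S`.
`HitQ` asks it only against changes of the windows of the same residue mod `q` (and of the window of the move). The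
price per window is `1 + c1` with `(1 + c1) ^ q = 1 + c`, and a window which is not typical costs the same `1 + c1`.
-/

set_option autoImplicit false

namespace Pool.Agent.W_7d29a1_C1.H49

open MeasureTheory Finset
open scoped ENNReal

section HitQ

variable {Ω X : Type*} [MeasurableSpace Ω] [Fintype X] {P : Measure Ω} {p : Par X} {w : X → Ω → ℝ≥0∞}
  {fa : ℕ → ℕ → ℕ → X → Ω → ℝ≥0∞} {pot : ℕ → ℝ → X → Ω → ℝ≥0∞}

omit [MeasurableSpace Ω] [Fintype X] in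
theorem fac_eq (T : Set Ω) (c : ℝ≥0∞) (ω : Ω) : Lt87.fac T c ω = fac T c ω := rfl

/-- THE HIT DATA, exclusions inside of one class mod `q`. -/
structure HitQ (P : Measure Ω) (p : Par X) (w : X → Ω → ℝ≥0∞) (fa : ℕ → ℕ → ℕ → X → Ω → ℝ≥0∞)
    (pot : ℕ → ℝ → X → Ω → ℝ≥0∞) {K : ℕ → Type*} (cel : ∀ u, X → K u) (R : ∀ u, K u → Ω → Ω → Ω)
    (T L : ∀ u, K u → Set Ω) (nb : ∀ s, K s → Finset X) (S : ℕ → ℕ → Finset ℕ) (τ0 q : ℕ) (c c1 : ℝ≥0∞) : Prop where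
  q_ne : q ≠ 0
  root : (1 + c1) ^ q = 1 + c
  c_top : c ≠ ⊤
  b_nonneg : ∀ v, 0 ≤ p.b v
  slab : ∀ u κ, Lt87.Slab P (R u κ) (T u κ) (L u κ)
  S_sub : ∀ s i, S s i ⊆ Ioo s i
  slack : ∀ t i, p.rg τ0 t i → p.sl (t - 1) + ∑ v ∈ Ico (p.st t i) i, p.b v ≤ p.sl (i + p.m2)
  cmp : ∀ t i, p.rg τ0 t i → ∀ u ∈ Ico (p.st t i) i, ∀ y, ∀ ω ∈ T u (cel u y),
    c * w y ω ≤ ∫⁻ η, (L u (cel u y)).indicator (w y) (R u (cel u y) η ω) ∂P
  stepT : ∀ t i, p.rg τ0 t i → ∀ s ∈ Ico (p.st t i) i, ∀ y, ∀ u ∈ S s i, ∀ v ∈ S s i, u < v →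
    ∀ ω ∈ T u (cel u y) ∪ L u (cel u y), ∀ η, R u (cel u y) η ω ∈ T u (cel u y) ∪ L u (cel u y) →
      (ω ∈ T v (cel v y) ↔ R u (cel u y) η ω ∈ T v (cel v y))
  stepS : ∀ t i, p.rg τ0 t i → ∀ s ∈ Ico (p.st t i) i, ∀ κ, ∀ ρ ∈ nb s κ, ∀ v ∈ S s i,
    ∀ ω ∈ T s κ ∪ L s κ, ∀ η, R s κ η ω ∈ T s κ ∪ L s κ → (ω ∈ T v (cel v ρ) ↔ R s κ η ω ∈ T v (cel v ρ))
  exclF : ∀ t i, p.rg τ0 t i → ∀ x, ∀ u ∈ S (p.st t i) i, ∀ ω ∈ T u (cel u x), ∀ η, R u (cel u x) η ω ∈ L u (cel u x) →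
    ∀ ω₁ ∈ Hf p w fa t i x, Lt87.Reach (fun v => R v (cel v x)) (fun v => T v (cel v x) ∪ L v (cel v x))
      ((S (p.st t i) i).filter fun v => v % q = u % q) u ω ω₁ →
    ∀ ω₂ ∈ Hf p w fa t i x, Lt87.Reach (fun v => R v (cel v x)) (fun v => T v (cel v x) ∪ L v (cel v x))
      ((S (p.st t i) i).filter fun v => v % q = u % q) u (R u (cel u x) η ω) ω₂ → False
  exclE : ∀ t i, p.rg τ0 t i → ∀ s ∈ Ico (p.st t i) i, ∀ κ, ∀ ρ ∈ nb s κ, ∀ u ∈ S s i,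
    ∀ ω ∈ T u (cel u ρ), ∀ η, R u (cel u ρ) η ω ∈ L u (cel u ρ) →
    ∀ ω₁ ∈ Hs p w cel t i s κ, Lt87.Reach (Function.update (fun v => R v (cel v ρ)) s (R s κ))
      (Function.update (fun v => T v (cel v ρ) ∪ L v (cel v ρ)) s (T s κ ∪ L s κ))
      (insert s ((S s i).filter fun v => v % q = u % q)) u ω ω₁ →
    ∀ ω₂ ∈ Hs p w cel t i s κ, Lt87.Reach (Function.update (fun v => R v (cel v ρ)) s (R s κ))
      (Function.update (fun v => T v (cel v ρ) ∪ L v (cel v ρ)) s (T s κ ∪ L s κ))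
      (insert s ((S s i).filter fun v => v % q = u % q)) u (R u (cel u ρ) η ω) ω₂ → False
  oscT : ∀ t i, p.rg τ0 t i → ∀ u ∈ Ico (p.st t i) i, ∀ y, ∀ ω ∈ T u (cel u y), ∀ η,
    R u (cel u y) η ω ∈ L u (cel u y) → Osc p w fa pot (i + p.m2) y (p.b u) ω (R u (cel u y) η ω)
  oscS : ∀ t i, p.rg τ0 t i → ∀ s ∈ Ico (p.st t i) i, ∀ κ, ∀ ρ ∈ nb s κ, ∀ ω ∈ T s κ ∪ L s κ, ∀ η,
    R s κ η ω ∈ L s κ → Osc p w fa pot (i + p.m2) ρ (p.b s) ω (R s κ η ω)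

namespace HitQ

variable {K : ℕ → Type*} {cel : ∀ u, X → K u} {R : ∀ u, K u → Ω → Ω → Ω} {T L : ∀ u, K u → Set Ω}
  {nb : ∀ s, K s → Finset X} {S : ℕ → ℕ → Finset ℕ} {τ0 q : ℕ} {c c1 : ℝ≥0∞}

/-- One class. -/
theorem toD (d : HitQ P p w fa pot cel R T L nb S τ0 q c c1) (r : ℕ) :
    HitD P p w fa pot cel R T L nb (fun s i => (S s i).filter fun v => v % q = r) τ0 c where
  c_top := d.c_top
  b_nonneg := d.b_nonneg
  slab := d.slab
  S_sub := fun s i => (filter_subset _ _).trans (d.S_sub s i)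
  slack := d.slack
  cmp := d.cmp
  stepT := fun t i h s hs y u hu v hv huv =>
    d.stepT t i h s hs y u (mem_filter.1 hu).1 v (mem_filter.1 hv).1 huv
  stepS := fun t i h s hs κ ρ hρ v hv => d.stepS t i h s hs κ ρ hρ v (mem_filter.1 hv).1
  exclF := fun t i h x u hu ω hω η hη ω₁ h1 h2 ω₂ h3 h4 => by
    obtain ⟨hu1, hu2⟩ := mem_filter.1 hu
    rw [← hu2] at h2 h4
    exact d.exclF t i h x u hu1 ω hω η hη ω₁ h1 h2 ω₂ h3 h4
  exclE := fun t i h s hs κ ρ hρ u hu ω hω η hη ω₁ h1 h2 ω₂ h3 h4 => by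
    obtain ⟨hu1, hu2⟩ := mem_filter.1 hu
    rw [← hu2] at h2 h4
    exact d.exclE t i h s hs κ ρ hρ u hu1 ω hω η hη ω₁ h1 h2 ω₂ h3 h4
  oscT := d.oscT
  oscS := d.oscS

/-- The field `hzF` of `MoveD` with the price `1 + c1`, `Cz = 1`. -/
theorem hzF [SFinite P] (d : HitQ P p w fa pot cel R T L nb S τ0 q c c1) (mw : ∀ x, Measurable (w x))
    (mfa : ∀ t k τ x, Measurable (fa t k τ x)) (mpot : ∀ τ σ x, Measurable (pot τ σ x)) (hθ : 1 ≤ p.θ)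
    (dk_anti : ∀ k τ τ', τ ≤ τ' → p.dk k τ' ≤ p.dk k τ)
    (fa_mono : ∀ t k τ τ' x ω, τ ≤ τ' → fa t k τ x ω ≤ fa t k τ' x ω)
    (pot_mono : ∀ τ τ' σ σ' x ω, τ ≤ τ' → σ ≤ σ' → pot τ σ x ω ≤ pot τ' σ' x ω)
    (st_lt : ∀ t i, p.rg τ0 t i → p.st t i < i) :
    ∀ t i, p.rg τ0 t i → ∀ x, ∫⁻ ω, w x ω * (hM p w fa pot t i x ∅ ω * (Hf p w fa t i x).indicator 1 ω *
      ∏ u ∈ S (p.st t i) i, fac (T u (cel u x)) c1 ω) ∂P ≤
        1 * (1 + c1)⁻¹ ^ (S (p.st t i) i).card * ∫⁻ ω, w x ω * gM p w fa pot (i + p.m2) x ω ∂P := by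
  intro t i h x
  have mH : MeasurableSet (Hf p w fa t i x) :=
    (measurableSet_le measurable_const (mfa _ _ _ x)).inter (measurableSet_le measurable_const (mw x))
  have mf : Measurable fun ω => w x ω * (hM p w fa pot t i x ∅ ω * (Hf p w fa t i x).indicator 1 ω) :=
    (mw x).mul ((mhM mw mfa mpot t i x ∅).mul (measurable_one.indicator mH))
  have key := H6.hold6 (P := P) (S := S (p.st t i) i) (T := fun u => T u (cel u x)) (fun u _ => (d.slab u _).mT)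
    d.q_ne (cl := fun u => u % q) (fun u _ => Nat.mod_lt _ (Nat.pos_of_ne_zero d.q_ne)) d.root mf.aemeasurable
    (B := ∫⁻ ω, w x ω * gM p w fa pot (i + p.m2) x ω ∂P) (fun r _ => by
      have h1 := (d.toD r).hzF mw mfa mpot hθ dk_anti fa_mono pot_mono st_lt t i h x
      rw [one_mul] at h1
      refine le_trans (le_of_eq (lintegral_congr fun ω => ?_)) (h1.trans (le_of_eq (mul_comm _ _)))
      simp only [fac_eq]
      ring)
  calc _ = ∫⁻ ω, w x ω * (hM p w fa pot t i x ∅ ω * (Hf p w fa t i x).indicator 1 ω) *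
        ∏ u ∈ S (p.st t i) i, Lt87.fac (T u (cel u x)) c1 ω ∂P := lintegral_congr fun ω => by
          simp only [fac_eq]
          ring
    _ ≤ _ := key
    _ = _ := by rw [one_mul, mul_comm]

/-- The field `hzE` of `MoveD` with the price `1 + c1`, `Cz = 1`. -/
theorem hzE [SFinite P] (d : HitQ P p w fa pot cel R T L nb S τ0 q c c1) (mw : ∀ x, Measurable (w x))
    (mfa : ∀ t k τ x, Measurable (fa t k τ x)) (mpot : ∀ τ σ x, Measurable (pot τ σ x)) (hθ : 1 ≤ p.θ)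
    (dk_anti : ∀ k τ τ', τ ≤ τ' → p.dk k τ' ≤ p.dk k τ)
    (fa_mono : ∀ t k τ τ' x ω, τ ≤ τ' → fa t k τ x ω ≤ fa t k τ' x ω)
    (pot_mono : ∀ τ τ' σ σ' x ω, τ ≤ τ' → σ ≤ σ' → pot τ σ x ω ≤ pot τ' σ' x ω) :
    ∀ t i, p.rg τ0 t i → ∀ s ∈ Ico (p.st t i) i, ∀ κ : K s, ∀ ρ ∈ nb s κ,
      ∫⁻ ω in T s κ ∪ L s κ, (hM p w fa pot t i ρ ∅ ω * (Hs p w cel t i s κ).indicator 1 ω *
        ∏ u ∈ S s i, fac (T u (cel u ρ)) c1 ω) * ∫⁻ η, (L s κ).indicator (w ρ) (R s κ η ω) ∂P ∂P ≤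
          1 * (1 + c1)⁻¹ ^ (S s i).card * ∫⁻ ω, w ρ ω * gM p w fa pot (i + p.m2) ρ ω ∂P := by
  intro t i h s hs κ ρ hρ
  have mH : MeasurableSet (Hs p w cel t i s κ) := by
    have e : Hs p w cel t i s κ = ⋃ ρ : X, {ω | cel s ρ = κ ∧ ex (-p.be t i) ≤ w ρ ω ∧
        p.κ3 ≤ lm p.row w (p.dl i) ρ ω} := by
      ext ω; simp [Hs]
    rw [e]
    refine MeasurableSet.iUnion fun ρ => ?_
    by_cases h : cel s ρ = κ
    · simp only [h, true_and]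
      exact (measurableSet_le measurable_const (mw ρ)).inter
        (measurableSet_le measurable_const (measurable_lm mw _ _))
    · simp [h]
  have hsl := d.slab s κ
  have mav : Measurable fun ω => ∫⁻ η, (L s κ).indicator (w ρ) (R s κ η ω) ∂P := by
    have h1 : Measurable fun z : Ω × Ω => (L s κ).indicator (w ρ) (R s κ z.2 z.1) :=
      ((mw ρ).indicator hsl.mL).comp (hsl.mp.measurable.comp measurable_swap)
    exact h1.lintegral_prod_right'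
  have mf : Measurable fun ω => (hM p w fa pot t i ρ ∅ ω * (Hs p w cel t i s κ).indicator 1 ω) *
      ∫⁻ η, (L s κ).indicator (w ρ) (R s κ η ω) ∂P :=
    ((mhM mw mfa mpot t i ρ ∅).mul (measurable_one.indicator mH)).mul mav
  have key := H6.hold6 (P := P.restrict (T s κ ∪ L s κ)) (S := S s i) (T := fun u => T u (cel u ρ))
    (fun u _ => (d.slab u _).mT) d.q_ne (cl := fun u => u % q)
    (fun u _ => Nat.mod_lt _ (Nat.pos_of_ne_zero d.q_ne)) d.root mf.aemeasurable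
    (B := ∫⁻ ω, w ρ ω * gM p w fa pot (i + p.m2) ρ ω ∂P) (fun r _ => by
      have h1 := (d.toD r).hzE mw mfa mpot hθ dk_anti fa_mono pot_mono t i h s hs κ ρ hρ
      rw [one_mul] at h1
      refine le_trans (le_of_eq (lintegral_congr fun ω => ?_)) (h1.trans (le_of_eq (mul_comm _ _)))
      simp only [fac_eq]
      ring)
  calc _ = ∫⁻ ω in T s κ ∪ L s κ, (hM p w fa pot t i ρ ∅ ω * (Hs p w cel t i s κ).indicator 1 ω) *
          (∫⁻ η, (L s κ).indicator (w ρ) (R s κ η ω) ∂P) * ∏ u ∈ S s i, Lt87.fac (T u (cel u ρ)) c1 ω ∂P :=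
        lintegral_congr fun ω => by
          simp only [fac_eq]
          ring
    _ ≤ _ := key
    _ = _ := by rw [one_mul, mul_comm]

end HitQ

end HitQ

end Pool.Agent.W_7d29a1_C1.H49
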