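import Pool.Agent.W_7d29a1_C1.PertX97
import Pool.Agent.W_7d29a1_C1.LocR91

/-!
Both halves (MP_7d29a1_pr), attractor route [C1]: THE CONTACT FUNCTIONAL OF ONE CONTACT IS A FUNCTION OF THE INSIDE. (helper74)

`hone_ct`, `hone_pt` : for one `Cell` (rows near the model rows), the level integral `Cc` of the contact functional, and the
probability `mw` of the first meeting, are those of the inner system, up to tiny terms.
-/

set_option autoImplicit false

namespace Pool.Agent.W_7d29a1_C1.H1c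

open Finset MeasureTheory
open Pool.Agent.W_7d29a1_C1.K91 (lev lev' zs cut)
open Pool.Agent.W_7d29a1_C1.K97
open Pool.Agent.W_7d29a1_C1.L91

noncomputable section

variable {A1 A2 B1 B2 : ℝ}

/-! ### The level integral on the whole line -/

/-- The tail of a function with exponential decay around `b`. -/
theorem tail_shift {F : ℝ → ℝ} (hFm : Measurable F) {E b B R0 Lam : ℝ} (hF : ∀ a, |F a| ≤ E * Real.exp (-|a - b|))
    (hb : |b - B| ≤ R0) (hL : R0 ≤ Lam) :
    ∫ a in {a : ℝ | Lam < |a - B|}, |F a| ≤ 2 * E * Real.exp (-(Lam - R0)) := by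
  have hE : 0 ≤ E := by
    have h := (abs_nonneg _).trans (hF b)
    rw [sub_self, abs_zero, neg_zero, Real.exp_zero, mul_one] at h
    exact h
  have ie : Integrable fun a : ℝ => Real.exp (-|a - b|) := integrable_exp_abs.comp_sub_right b
  have h1 : ∫ a in {a : ℝ | Lam < |a - B|}, |F a| ≤ ∫ a in {a : ℝ | Lam < |a - B|}, E * Real.exp (-|a - b|) := by
    refine integral_mono ?_ (ie.const_mul E).integrableOn hF
    have : Integrable F := (ie.const_mul E).mono' hFm.aestronglyMeasurable (Filter.Eventually.of_forall fun a => by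
      rw [Real.norm_eq_abs]
      exact hF a)
    exact this.abs.integrableOn
  have h2 : ∫ a in {a : ℝ | Lam < |a - B|}, E * Real.exp (-|a - b|) ≤
      ∫ a in {a : ℝ | Lam - R0 < |a - b|}, E * Real.exp (-|a - b|) := by
    refine setIntegral_mono_set (ie.const_mul E).integrableOn (Filter.Eventually.of_forall fun a => ?_)
      (LE.le.eventuallyLE fun a ha => ?_)
    · show 0 ≤ E * Real.exp (-|a - b|)
      positivity
    · have h3 : Lam < |a - B| := ha
      have h4 : |a - B| ≤ |a - b| + |b - B| := abs_sub_le a b B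
      show Lam - R0 < |a - b|
      linarith
  have h3 : ∫ a in {a : ℝ | Lam - R0 < |a - b|}, Real.exp (-|a - b|) = ∫ u in {u : ℝ | Lam - R0 < |u|}, Real.exp (-|u|) := by
    have hm : MeasurableSet {u : ℝ | Lam - R0 < |u|} := measurableSet_lt measurable_const (continuous_abs.measurable)
    have hm' : MeasurableSet {a : ℝ | Lam - R0 < |a - b|} :=
      measurableSet_lt measurable_const ((continuous_abs.measurable).comp (measurable_id.sub_const b))
    rw [← integral_indicator hm, ← integral_indicator hm']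
    rw [← integral_sub_right_eq_self (μ := volume) ({u : ℝ | Lam - R0 < |u|}.indicator fun u => Real.exp (-|u|)) b]
    rfl
  have h4 := integral_exp_abs_tail (M := Lam - R0) (by linarith)
  rw [integral_const_mul] at h1
  rw [integral_const_mul, integral_const_mul, h3] at h2
  have h5 := mul_le_mul_of_nonneg_left h4 hE
  linarith

/-- **The level integral of a functional of the inside, whole line.** -/
theorem level_full (a1 : 0 < A1) (a2 : 0 < A2) (b1 : 0 < B1) (b2 : 0 < B2)
    {F φ : ℝ → ℝ} {K D E M b R0 : ℝ} (hFm : Measurable F) (hφm : Measurable φ)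
    (hK : ∀ a, |F a - lev' A1 A2 B1 B2 a * φ (lev A1 A2 B1 B2 a)| ≤ K)
    (hD : ∀ c, |φ c| ≤ D * Real.exp (-|c|))
    (hE : ∀ a, |F a| ≤ E * Real.exp (-|a - b|)) (hb : |b - Real.log (B2 / A1)| ≤ R0) (hR : R0 ≤ M + 1)
    (w1 : Real.log (B1 / B2) ≤ -(M + 1)) (w2 : M + 1 ≤ Real.log (A1 / A2)) (hM : 0 ≤ M) :
    |(∫ a, F a) - ∫ c, φ c| ≤ 2 * (M + 1) * K + 4 * D * Real.exp (-M) + 2 * E * Real.exp (-(M + 1 - R0)) := by
  have hd : 0 < A1 * B2 - A2 * B1 := by
    have h1 : Real.log (B1 / B2) < Real.log (A1 / A2) := by linarith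
    have h2 : B1 / B2 < A1 / A2 := (Real.log_lt_log_iff (by positivity) (by positivity)).1 h1
    rw [div_lt_div_iff₀ b2 a2] at h2
    linarith
  set B := Real.log (B2 / A1) with hB
  set W : Set ℝ := Set.Icc (B - (M + 1)) (B - (M + 1) + 2 * (M + 1)) with hW
  have hWm : MeasurableSet W := measurableSet_Icc
  set g : ℝ → ℝ := W.indicator fun _ => (1 : ℝ) with hg
  have gm : Measurable g := measurable_const.indicator hWm
  have mem : ∀ a, |a - B| ≤ M + 1 → a ∈ W := by
    intro a ha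
    have h1 := (abs_le.1 ha).1
    have h2 := (abs_le.1 ha).2
    rw [hW, Set.mem_Icc]
    constructor <;> linarith
  have g1 : ∀ a, |a - B| ≤ M + 1 → g a = 1 := fun a ha => Set.indicator_of_mem (mem a ha) _
  have gB : g B = 1 := g1 B (by rw [sub_self, abs_zero]; linarith)
  have gle : ∀ a, |g a| ≤ 1 := by
    intro a
    by_cases ha : a ∈ W
    · rw [hg, Set.indicator_of_mem ha, abs_one]
    · rw [hg, Set.indicator_of_notMem ha, abs_zero]
      exact zero_le_one
  have hφi : Integrable φ := (integrable_exp_abs.const_mul D).mono' hφm.aestronglyMeasurable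
    (Filter.Eventually.of_forall fun c => by
      rw [Real.norm_eq_abs]
      exact hD c)
  have key := level_int a1 a2 b1 b2 hd (F := F) (φ := φ) (g := g) (K := K) (S := 2 * (M + 1)) (s0 := B - (M + 1)) (G := 1)
    (M := M) (O := 0) hFm gm hφi hφm hK gle (fun a ha => Set.indicator_of_notMem ha _) (by linarith)
    (fun a ha => by rw [← hB, gB, g1 a ha, sub_self, abs_zero]) w1 w2 hM (tail_le hφi hD hM)
  rw [← hB, gB, one_mul] at key
  have ie : Integrable fun a : ℝ => E * Real.exp (-|a - b|) := (integrable_exp_abs.comp_sub_right b).const_mul E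
  have hFi : Integrable F := ie.mono' hFm.aestronglyMeasurable (Filter.Eventually.of_forall fun a => by
    rw [Real.norm_eq_abs]
    exact hE a)
  have gFi : Integrable fun a => g a * F a := hFi.bdd_mul (c := 1) gm.aestronglyMeasurable
    (Filter.Eventually.of_forall fun a => by
      rw [Real.norm_eq_abs]
      exact gle a)
  have hTm : MeasurableSet {a : ℝ | M + 1 < |a - B|} :=
    measurableSet_lt measurable_const ((continuous_abs.measurable).comp (measurable_id.sub_const B))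
  have t1 : |(∫ a, F a) - ∫ a, g a * F a| ≤ ∫ a in {a : ℝ | M + 1 < |a - B|}, |F a| := by
    rw [← integral_sub hFi gFi, ← integral_indicator hTm]
    refine (abs_integral_le_integral_abs).trans ?_
    refine integral_mono (hFi.sub gFi).abs (hFi.abs.indicator hTm) fun a => ?_
    show |F a - g a * F a| ≤ _
    by_cases ha : M + 1 < |a - B|
    · rw [Set.indicator_of_mem (show a ∈ {a : ℝ | M + 1 < |a - B|} from ha)]
      by_cases hw : a ∈ W
      · rw [hg, Set.indicator_of_mem hw, one_mul, sub_self, abs_zero]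
        exact abs_nonneg _
      · rw [hg, Set.indicator_of_notMem hw, zero_mul, sub_zero]
    · rw [Set.indicator_of_notMem (show a ∉ {a : ℝ | M + 1 < |a - B|} from ha), g1 a (not_lt.1 ha), one_mul, sub_self,
        abs_zero]
  have t2 := tail_shift hFm hE hb hR
  have e : (∫ a, F a) - ∫ c, φ c = ((∫ a, F a) - ∫ a, g a * F a) + ((∫ a, g a * F a) - ∫ c, φ c) := by ring
  rw [e]
  refine (abs_add_le _ _).trans ?_
  linarith

/-! ### The balance of the real row -/

variable {p : ℝ} {lo hi : ℤ} {wk ml mr f f' f1 f2 : ℤ → ℝ} {q : ℤ} {kap eta rr : ℝ}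

/-- The balance of two totals which are near those of the model. -/
theorem bal {X Y z1 z2 M : ℝ} (a1 : 0 < A1) (a2 : 0 < A2) (b1 : 0 < B1) (b2 : 0 < B2) (hz1 : 0 < z1) (hz2 : 0 < z2)
    (hr : 1 ≤ rr) (h12 : z1 ≤ rr * z2) (h21 : z2 ≤ rr * z1)
    (hX : |X - (A1 * z1 + A2 * z2)| ≤ 1 / 2 * (A1 * z1 + A2 * z2))
    (hY : |Y - (B1 * z1 + B2 * z2)| ≤ 1 / 2 * (B1 * z1 + B2 * z2))
    (w1 : Real.log (B1 / B2) ≤ -(M + 1)) (w2 : M + 1 ≤ Real.log (A1 / A2)) (hM : Real.log rr ≤ M) :
    0 < X ∧ 0 < Y ∧ |Real.log (Y / X) - Real.log (B2 / A1)| ≤ Real.log rr + 2 := by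
  have hrr : 0 < rr := by linarith
  -- the second cell is negligible for the left group
  have k1 : A2 * z2 ≤ A1 * z1 := by
    have h1 : rr ≤ A1 / A2 := by
      rw [← Real.exp_log hrr, ← Real.exp_log (div_pos a1 a2)]
      exact Real.exp_le_exp.2 (by linarith)
    rw [le_div_iff₀ a2] at h1
    have h2 := mul_le_mul_of_nonneg_left h21 a2.le
    have h3 := mul_le_mul_of_nonneg_right h1 hz1.le
    linarith
  have k2 : B1 * z1 ≤ B2 * z2 := by
    have h1 : rr ≤ B2 / B1 := by
      rw [← Real.exp_log hrr, ← Real.exp_log (div_pos b2 b1)]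
      refine Real.exp_le_exp.2 ?_
      have : Real.log (B2 / B1) = - Real.log (B1 / B2) := by rw [← Real.log_inv, inv_div]
      linarith
    rw [le_div_iff₀ b1] at h1
    have h2 := mul_le_mul_of_nonneg_left h12 b1.le
    have h3 := mul_le_mul_of_nonneg_right h1 hz2.le
    linarith
  have az := mul_pos a1 hz1
  have az2 := mul_pos a2 hz2
  have bz := mul_pos b2 hz2
  have bz1 := mul_pos b1 hz1
  have x1 := (abs_le.1 hX).1
  have x2 := (abs_le.1 hX).2
  have y1 := (abs_le.1 hY).1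
  have y2 := (abs_le.1 hY).2
  have X0 : 1 / 2 * (A1 * z1) ≤ X := by linarith
  have X1 : X ≤ 3 * (A1 * z1) := by linarith
  have Y0 : 1 / 2 * (B2 * z2) ≤ Y := by linarith
  have Y1 : Y ≤ 3 * (B2 * z2) := by linarith
  have Xp : 0 < X := by linarith
  have Yp : 0 < Y := by linarith
  refine ⟨Xp, Yp, ?_⟩
  have l6 : Real.log 6 ≤ 2 := by
    have h1 : (6 : ℝ) ≤ Real.exp 2 := by
      have h2 : (2.7182818283 : ℝ) < Real.exp 1 := Real.exp_one_gt_d9
      have h3 : Real.exp 2 = Real.exp 1 * Real.exp 1 := by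
        rw [← Real.exp_add]
        norm_num
      rw [h3]
      nlinarith
    calc Real.log 6 ≤ Real.log (Real.exp 2) := Real.log_le_log (by norm_num) h1
      _ = 2 := Real.log_exp 2
  have up : Y / X ≤ 6 * rr * (B2 / A1) := by
    rw [div_le_iff₀ Xp]
    have h1 : 6 * rr * (B2 / A1) * (1 / 2 * (A1 * z1)) ≤ 6 * rr * (B2 / A1) * X :=
      mul_le_mul_of_nonneg_left X0 (by positivity)
    have h2 : 6 * rr * (B2 / A1) * (1 / 2 * (A1 * z1)) = 3 * (B2 * (rr * z1)) := by
      field_simp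
      ring
    have h3 := mul_le_mul_of_nonneg_left h21 b2.le
    linarith
  have dn : B2 / A1 ≤ 6 * rr * (Y / X) := by
    rw [div_le_iff₀ a1]
    have h1 : 1 / 2 * (B2 * z2) / (3 * (A1 * z1)) ≤ Y / X := by
      rw [div_le_div_iff₀ (by positivity) Xp]
      have h2 : 1 / 2 * (B2 * z2) * X ≤ Y * X := mul_le_mul_of_nonneg_right Y0 Xp.le
      have h3 : Y * X ≤ Y * (3 * (A1 * z1)) := mul_le_mul_of_nonneg_left X1 Yp.le
      linarith
    have h4 := mul_le_mul_of_nonneg_left h1 (show 0 ≤ 6 * rr * A1 by positivity)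
    have h5 : 6 * rr * A1 * (1 / 2 * (B2 * z2) / (3 * (A1 * z1))) = B2 * (rr * z2) / z1 := by
      field_simp
      ring
    have h6 : B2 ≤ B2 * (rr * z2) / z1 := by
      rw [le_div_iff₀ hz1]
      exact mul_le_mul_of_nonneg_left h12 b2.le
    linarith
  have q1 : 0 < Y / X := div_pos Yp Xp
  have q2 : 0 < B2 / A1 := div_pos b2 a1
  have u1 := Real.log_le_log q1 up
  have u2 := Real.log_le_log q2 dn
  rw [Real.log_mul (by positivity) q2.ne', Real.log_mul (by norm_num) hrr.ne'] at u1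
  rw [Real.log_mul (by positivity) q1.ne', Real.log_mul (by norm_num) hrr.ne'] at u2
  rw [abs_le]
  constructor <;> linarith

/-- The real totals are near those of the model. -/
theorem Cell.tot (h : Cell lo hi A1 A2 B1 B2 kap eta rr p wk f f' ml mr f1 f2 q) :
    (|rz lo hi p wk ml f q - (A1 * rz lo hi p wk f1 f' q + A2 * rz lo hi p wk f2 f' q)| ≤
        1 / 2 * (A1 * rz lo hi p wk f1 f' q + A2 * rz lo hi p wk f2 f' q) ∧
      |rz lo hi p wk mr f q - (B1 * rz lo hi p wk f1 f' q + B2 * rz lo hi p wk f2 f' q)| ≤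
        1 / 2 * (B1 * rz lo hi p wk f1 f' q + B2 * rz lo hi p wk f2 f' q)) ∧
    (|tm lo hi p wk ml f - (A1 * tm lo hi p wk f1 f' + A2 * tm lo hi p wk f2 f')| ≤
        1 / 2 * (A1 * tm lo hi p wk f1 f' + A2 * tm lo hi p wk f2 f') ∧
      |tm lo hi p wk mr f - (B1 * tm lo hi p wk f1 f' + B2 * tm lo hi p wk f2 f')| ≤
        1 / 2 * (B1 * tm lo hi p wk f1 f' + B2 * tm lo hi p wk f2 f')) := by
  have key : ∀ {m : ℤ → ℝ} {C1 C2 : ℝ}, (∃ T, 0 < T ∧ Nr lo hi p wk m f (fun y => C1 * f1 y + C2 * f2 y) f' q eta T) →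
      |rz lo hi p wk m f q - (C1 * rz lo hi p wk f1 f' q + C2 * rz lo hi p wk f2 f' q)| ≤
        1 / 2 * (C1 * rz lo hi p wk f1 f' q + C2 * rz lo hi p wk f2 f' q) ∧
      |tm lo hi p wk m f - (C1 * tm lo hi p wk f1 f' + C2 * tm lo hi p wk f2 f')| ≤
        1 / 2 * (C1 * tm lo hi p wk f1 f' + C2 * tm lo hi p wk f2 f') := by
    intro m C1 C2 hn
    obtain ⟨T, hT, n⟩ := hn
    have d1 := rz_ds (q := q) (m := m) (f := f) (m' := fun y => C1 * f1 y + C2 * f2 y) (f' := f') (lo := lo) (hi := hi) h.p0 h.w0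
    have d2 := tm_ds (m := m) (f := f) (m' := fun y => C1 * f1 y + C2 * f2 y) (f' := f') (lo := lo) (hi := hi) h.p0 h.w0
    have n1 := n.z
    have n2 := n.u
    rw [rz_lin] at d1 n1
    rw [tm_lin] at d2 n2
    have p0 := h.p0
    have e1 : (1 + p) * ds lo hi wk m f (fun y => C1 * f1 y + C2 * f2 y) f' ≤ (1 + p) * (eta * T) :=
      mul_le_mul_of_nonneg_left n.d (by linarith)
    have e2 : (1 + p) * (eta * T) ≤ 1 / 2 * T := by
      have := mul_le_mul_of_nonneg_right h.e1 hT.le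
      linarith
    constructor <;> linarith
  have l := key h.nl
  have r := key h.nr
  exact ⟨⟨l.1, r.1⟩, ⟨l.2, r.2⟩⟩

/-! ### The contact functional -/

theorem cw_le {κ κ' : ℝ} (h : Cutd lo hi p wk ml mr f q κ κ') : cw lo hi p wk ml mr f q ≤ p := by
  have hp := h.p0
  have w1 := h.w0 (q - 1)
  have w2 := h.w0 q
  have f1 := h.f0 (q - 1)
  have f2 := h.f0 q
  have l1 := h.l0 (q - 1)
  have l2 := h.l0 q
  have r1 := h.r0 (q - 1)
  have r2 := h.r0 q
  have sl := rz_left hp h.w0 h.f0 h.l0 h.q1 (lo := lo) (hi := hi)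
  have sr := rz_right hp h.w0 h.f0 h.r0 h.q2 (lo := lo) (hi := hi)
  unfold cw
  rw [div_le_iff₀ (mul_pos h.zl h.zr)]
  have k1 := mul_le_mul sl sr (by positivity) h.zl.le
  have k2 : dw p wk ml mr f q ≤ p * ((ml (q - 1) * wk (q - 1) * (f (q - 1) + p * f q)) *
      (mr q * wk q * (f (q - 1) + p * f q))) := by
    unfold dw
    have k3 : 0 ≤ ml q * mr (q - 1) * (p * (wk (q - 1) * wk q)) * (f (q - 1) + p * f q) ^ 2 := by positivity
    nlinarith
  have k4 := mul_le_mul_of_nonneg_left k1 hp.le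
  linarith

/-- **H1, contact functional.** The real contact functional (level integrated) is the inner one. -/
theorem hone_ct {κ κ' M : ℝ} (a1 : 0 < A1) (a2 : 0 < A2) (b1 : 0 < B1) (b2 : 0 < B2)
    (h : Cell lo hi A1 A2 B1 B2 kap eta rr p wk f f' ml mr f1 f2 q) (hc : Cutd lo hi p wk ml mr f q κ κ') (hr : 1 ≤ rr)
    (w1 : Real.log (B1 / B2) ≤ -(M + 1)) (w2 : M + 1 ≤ Real.log (A1 / A2)) (hM : Real.log rr + 1 ≤ M) :
    |Cc lo hi p wk ml mr f q - Cc lo hi p wk f1 f2 f' q| ≤
      2 * (M + 1) * (176 * (1 + p) * kap ^ 8 * eta) + 12 * kap ^ 8 * rr * Real.exp (-M) +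
        6 * (Kl p κ κ' * p) * rr * Real.exp (-M) := by
  have M0 : 0 ≤ M := by
    have := Real.log_nonneg hr
    linarith
  have hrr : 0 < rr := by linarith
  have T := Cell.tot h
  have B := bal a1 a2 b1 b2 h.z1 h.z2 hr h.z12 h.z21 T.1.1 T.1.2 w1 w2 (by linarith)
  have hE : ∀ a, |cta lo hi p wk ml mr f q a| ≤ (Kl p κ κ' * p) * Real.exp (-|a - lvl lo hi p wk ml mr f q|) := by
    intro a
    refine (cta_size hc a).trans ?_
    have hK := Kl_nonneg hc.p0 hc.k1 hc.k1'
    exact mul_le_mul (mul_le_mul_of_nonneg_left (cw_le hc) hK) (lg_le _) (lg_pos _).le (mul_nonneg hK hc.p0.le)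
  have key := level_full a1 a2 b1 b2 (F := cta lo hi p wk ml mr f q) (φ := cta lo hi p wk f1 f2 f' q)
    (K := 176 * (1 + p) * kap ^ 8 * eta) (D := 3 * kap ^ 8 * rr) (E := Kl p κ κ' * p) (M := M)
    (b := lvl lo hi p wk ml mr f q) (R0 := Real.log rr + 2) measurable_cta measurable_cta
    (fun a => h.ct_near a1 a2 b1 b2 a) (fun c => h.ct_dec c) hE B.2.2 (by linarith) w1 w2 M0
  have e : Real.exp (-(M + 1 - (Real.log rr + 2))) = rr * Real.exp 1 * Real.exp (-M) := by
    have : -(M + 1 - (Real.log rr + 2)) = Real.log rr + 1 + -M := by ring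
    rw [this, Real.exp_add, Real.exp_add, Real.exp_log hrr]
  rw [e] at key
  have e3 : Real.exp 1 ≤ 3 := by
    have := Real.exp_one_lt_d9
    linarith
  have hK := mul_nonneg (Kl_nonneg hc.p0 hc.k1 hc.k1') hc.p0.le
  have k1 : 2 * (Kl p κ κ' * p) * (rr * Real.exp 1 * Real.exp (-M)) ≤ 6 * (Kl p κ κ' * p) * rr * Real.exp (-M) := by
    have h1 : rr * Real.exp 1 * Real.exp (-M) ≤ rr * 3 * Real.exp (-M) :=
      mul_le_mul_of_nonneg_right (mul_le_mul_of_nonneg_left e3 hrr.le) (Real.exp_pos _).le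
    have := mul_le_mul_of_nonneg_left h1 (show 0 ≤ 2 * (Kl p κ κ' * p) by linarith)
    linarith
  unfold Cc
  linarith

/-- The probability of a first meeting is at most one. -/
theorem mw_le (hp : 0 < p) (hw : ∀ y, 0 < wk y) (hf : ∀ y, 0 < f y) (hl : ∀ y, 0 ≤ ml y) (hr : ∀ y, 0 ≤ mr y)
    (q1 : q - 1 ∈ Icc lo hi) (q2 : q ∈ Icc lo hi) (hd : 0 ≤ ml (q - 1) * mr q - ml q * mr (q - 1))
    (zl : 0 < tm lo hi p wk ml f) (zr : 0 < tm lo hi p wk mr f) :
    0 ≤ mw lo hi p wk ml mr f q ∧ mw lo hi p wk ml mr f q ≤ 1 := by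
  have w1 := hw (q - 1)
  have w2 := hw q
  have f1 := hf (q - 1)
  have f2 := hf q
  have f3 := hf (q + 1)
  have l1 := hl (q - 1)
  have l2 := hl q
  have r1 := hr (q - 1)
  have r2 := hr q
  have s1 : p * wk (q - 1) * (ml (q - 1) * f q) ≤ tm lo hi p wk ml f := by
    have b := tm_term hp hw hf hl q1
    simp only [sub_add_cancel] at b
    have : 0 ≤ ml (q - 1) * wk (q - 1) * f (q - 1) := by positivity
    have e : ml (q - 1) * wk (q - 1) * (f (q - 1) + p * f q) =
        ml (q - 1) * wk (q - 1) * f (q - 1) + p * wk (q - 1) * (ml (q - 1) * f q) := by ring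
    linarith
  have s2 : wk q * (mr q * f q) ≤ tm lo hi p wk mr f := by
    have b := tm_term hp hw hf hr q2
    have : 0 ≤ mr q * wk q * (p * f (q + 1)) := by positivity
    have e : mr q * wk q * (f q + p * f (q + 1)) = wk q * (mr q * f q) + mr q * wk q * (p * f (q + 1)) := by ring
    linarith
  unfold mw
  refine ⟨by positivity, ?_⟩
  rw [div_le_one (mul_pos zl zr)]
  have k1 := mul_le_mul s1 s2 (by positivity) zl.le
  have k2 : 0 ≤ ml q * mr (q - 1) * (p * (wk (q - 1) * wk q) * f q ^ 2) := by positivity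
  nlinarith

/-- **H1, first meeting.** -/
theorem hone_pt {κ κ' M : ℝ} (a1 : 0 < A1) (a2 : 0 < A2) (b1 : 0 < B1) (b2 : 0 < B2)
    (h : Cell lo hi A1 A2 B1 B2 kap eta rr p wk f f' ml mr f1 f2 q) (hc : Cutd lo hi p wk ml mr f q κ κ') (hr : 1 ≤ rr)
    (w1 : Real.log (B1 / B2) ≤ -(M + 1)) (w2 : M + 1 ≤ Real.log (A1 / A2)) (hM : Real.log rr + 1 ≤ M) :
    |mw lo hi p wk ml mr f q - mw lo hi p wk f1 f2 f' q| ≤
      2 * (M + 1) * (16 * (1 + p) * eta) + 8 * rr * Real.exp (-M) + 6 * rr * Real.exp (-M) := by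
  have M0 : 0 ≤ M := by
    have := Real.log_nonneg hr
    linarith
  have hrr : 0 < rr := by linarith
  have T := Cell.tot h
  have B := bal a1 a2 b1 b2 h.m1 h.m2 hr h.m12 h.m21 T.2.1 T.2.2 w1 w2 (by linarith)
  have m01 := mw_le hc.p0 hc.w0 hc.f0 hc.l0 hc.r0 hc.q1 hc.q2 hc.det B.1 B.2.1
  have hE : ∀ a, |pta lo hi p wk ml mr f q a| ≤ 1 * Real.exp (-|a - nlv lo hi p wk ml mr f|) := by
    intro a
    rw [pta_eq B.1 B.2.1, abs_mul, abs_of_nonneg m01.1, abs_of_pos (lg_pos _)]
    exact mul_le_mul m01.2 (lg_le _) (lg_pos _).le zero_le_one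
  have key := level_full a1 a2 b1 b2 (F := pta lo hi p wk ml mr f q) (φ := pta lo hi p wk f1 f2 f' q)
    (K := 16 * (1 + p) * eta) (D := 2 * rr) (E := 1) (M := M)
    (b := nlv lo hi p wk ml mr f) (R0 := Real.log rr + 2) measurable_pt measurable_pt
    (fun a => h.pt_near a1 a2 b1 b2 a) (fun c => h.pt_dec c) hE B.2.2 (by linarith) w1 w2 M0
  rw [integral_pta B.1 B.2.1, integral_pta h.m1 h.m2] at key
  have e : Real.exp (-(M + 1 - (Real.log rr + 2))) = rr * Real.exp 1 * Real.exp (-M) := by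
    have : -(M + 1 - (Real.log rr + 2)) = Real.log rr + 1 + -M := by ring
    rw [this, Real.exp_add, Real.exp_add, Real.exp_log hrr]
  rw [e] at key
  have e3 : Real.exp 1 ≤ 3 := by
    have := Real.exp_one_lt_d9
    linarith
  have k1 : 2 * 1 * (rr * Real.exp 1 * Real.exp (-M)) ≤ 6 * rr * Real.exp (-M) := by
    have h1 : rr * Real.exp 1 * Real.exp (-M) ≤ rr * 3 * Real.exp (-M) :=
      mul_le_mul_of_nonneg_right (mul_le_mul_of_nonneg_left e3 hrr.le) (Real.exp_pos _).le
    linarith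
  linarith

end

end Pool.Agent.W_7d29a1_C1.H1c
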