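import Pool.Agent.W_7d29a1_C1.PertX97

/-!
MP_7d29a1_pr, the attractor route: the row functionals do not depend on the box (as soon as it contains the masses) and are invariant
under a shift of the columns. (helper97)
-/

set_option autoImplicit false

namespace Pool.Agent.W_7d29a1_C1.K97

open Finset K91

noncomputable section

variable {p : ℝ} {lo hi lo' hi' : ℤ} {wk ml mr m f : ℤ → ℝ} {q s : ℤ}

/-- The masses live in `[lo, hi)`. -/
def Sup (lo hi : ℤ) (m : ℤ → ℝ) : Prop := ∀ y, y < lo ∨ hi ≤ y → m y = 0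

theorem Sup.add {m2 : ℤ → ℝ} (h : Sup lo hi m) (h2 : Sup lo hi m2) : Sup lo hi fun y => m y + m2 y := by
  intro y hy
  show m y + m2 y = 0
  rw [h y hy, h2 y hy, add_zero]

theorem Sup.smul (h : Sup lo hi m) (a : ℝ) : Sup lo hi fun y => a * m y := by
  intro y hy
  show a * m y = 0
  rw [h y hy, mul_zero]

theorem sum_box {g : ℤ → ℝ} (h1 : ∀ y, y < lo ∨ hi < y → g y = 0) (h2 : ∀ y, y < lo' ∨ hi' < y → g y = 0) :
    ∑ y ∈ Icc lo hi, g y = ∑ y ∈ Icc lo' hi', g y := by
  have e1 : ∑ y ∈ Icc lo hi, g y = ∑ y ∈ Icc (min lo lo') (max hi hi'), g y := by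
    refine sum_subset (Icc_subset_Icc (min_le_left _ _) (le_max_left _ _)) fun y _ hy => h1 y ?_
    rw [mem_Icc, not_and_or, not_le, not_le] at hy
    exact hy
  have e2 : ∑ y ∈ Icc lo' hi', g y = ∑ y ∈ Icc (min lo lo') (max hi hi'), g y := by
    refine sum_subset (Icc_subset_Icc (min_le_right _ _) (le_max_right _ _)) fun y _ hy => h2 y ?_
    rw [mem_Icc, not_and_or, not_le, not_le] at hy
    exact hy
  rw [e1, e2]

theorem rz_box (h : Sup lo hi m) (h' : Sup lo' hi' m) : rz lo hi p wk m f q = rz lo' hi' p wk m f q := by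
  unfold rz zs
  refine sum_box (fun y hy => ?_) (fun y hy => ?_)
  · rw [h y (by omega)]
    ring
  · rw [h' y (by omega)]
    ring

theorem tm_box (h : Sup lo hi m) (h' : Sup lo' hi' m) : tm lo hi p wk m f = tm lo' hi' p wk m f := by
  unfold tm
  refine sum_box (fun y hy => ?_) (fun y hy => ?_)
  · rw [h y (by omega)]
    ring
  · rw [h' y (by omega)]
    ring

theorem rt_box (h : Sup lo hi m) (h' : Sup lo' hi' m) : rt lo hi p wk m f q = rt lo' hi' p wk m f q := by
  unfold rt cut
  refine sum_box (fun y hy => ?_) (fun y hy => ?_)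
  · simp only [h y (by omega), h (y - 1) (by omega)]
    ring
  · simp only [h' y (by omega), h' (y - 1) (by omega)]
    ring

/-- **The contact functional does not depend on the box.** -/
theorem ct_box (hl : Sup lo hi ml) (hr : Sup lo hi mr) (hl' : Sup lo' hi' ml) (hr' : Sup lo' hi' mr) :
    ct lo hi p wk ml mr f q = ct lo' hi' p wk ml mr f q := by
  unfold ct ctg ctl
  rw [rz_box (hl.add hr) (hl'.add hr'), rt_box (hl.add hr) (hl'.add hr')]

/-- **The meeting functional does not depend on the box.** -/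
theorem pt_box (hl : Sup lo hi ml) (hr : Sup lo hi mr) (hl' : Sup lo' hi' ml) (hr' : Sup lo' hi' mr) :
    pt lo hi p wk ml mr f q = pt lo' hi' p wk ml mr f q := by
  unfold pt
  rw [tm_box (hl.add hr) (hl'.add hr')]

/-! ### Shift of the columns -/

theorem sum_sh (g : ℤ → ℝ) : ∑ y ∈ Icc (lo - s) (hi - s), g (y + s) = ∑ y ∈ Icc lo hi, g y := by
  refine sum_bij' (fun y _ => y + s) (fun y _ => y - s) ?_ ?_ ?_ ?_ ?_
  · intro y hy
    rw [mem_Icc] at hy ⊢
    omega
  · intro y hy
    rw [mem_Icc] at hy ⊢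
    omega
  · intro y _
    ring
  · intro y _
    ring
  · intro y _
    rfl

/-- A function seen from the column `s`. -/
def shf (s : ℤ) (m : ℤ → ℝ) (y : ℤ) : ℝ := m (y + s)

theorem rz_sh : rz (lo - s) (hi - s) p (shf s wk) (shf s m) (shf s f) (q - s) = rz lo hi p wk m f q := by
  unfold rz zs
  rw [← sum_sh (s := s) (lo := lo) (hi := hi)]
  refine sum_congr rfl fun y _ => ?_
  unfold shf
  have e1 : y - 1 + s = y + s - 1 := by ring
  have e2 : y - 1 + 1 + s = y + s - 1 + 1 := by ring
  have e3 : y + 1 + s = y + s + 1 := by ring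
  by_cases h : y < q - s
  · rw [if_pos h, if_pos (by omega)]
    simp only [e3]
  · rw [if_neg h, if_neg (by omega)]
    simp only [e1, e2]

theorem tm_sh : tm (lo - s) (hi - s) p (shf s wk) (shf s m) (shf s f) = tm lo hi p wk m f := by
  unfold tm
  rw [← sum_sh (s := s) (lo := lo) (hi := hi)]
  refine sum_congr rfl fun y _ => ?_
  unfold shf
  have e3 : y + 1 + s = y + s + 1 := by ring
  rw [e3]

theorem rt_sh : rt (lo - s) (hi - s) p (shf s wk) (shf s m) (shf s f) (q - s) = rt lo hi p wk m f q := by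
  unfold rt cut
  rw [← sum_sh (s := s) (lo := lo) (hi := hi)]
  refine sum_congr rfl fun y _ => ?_
  unfold shf
  have e1 : y - 1 + s = y + s - 1 := by ring
  by_cases h : y < q - s
  · rw [if_pos h, if_pos (by omega)]
    simp only [e1]
  · rw [if_neg h, if_neg (by omega)]
    simp only [e1]

/-- **The contact functional under a shift of the columns.** -/
theorem ct_sh : ct (lo - s) (hi - s) p (shf s wk) (shf s ml) (shf s mr) (shf s f) (q - s) = ct lo hi p wk ml mr f q := by
  have e0 : (fun y => shf s ml y + shf s mr y) = shf s (fun y => ml y + mr y) := rfl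
  have e1 : q - s - 1 + s = q - 1 := by ring
  have e2 : q - s + s = q := by ring
  unfold ct ctg ctl
  rw [e0, rz_sh, rt_sh]
  unfold shf
  rw [e1, e2]

/-- **The meeting functional under a shift of the columns.** -/
theorem pt_sh : pt (lo - s) (hi - s) p (shf s wk) (shf s ml) (shf s mr) (shf s f) (q - s) = pt lo hi p wk ml mr f q := by
  have e0 : (fun y => shf s ml y + shf s mr y) = shf s (fun y => ml y + mr y) := rfl
  have e1 : q - s - 1 + s = q - 1 := by ring
  have e2 : q - s + s = q := by ring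
  unfold pt
  rw [e0, tm_sh]
  unfold shf
  rw [e1, e2]

end

end Pool.Agent.W_7d29a1_C1.K97
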