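import Pool.Agent.W_7d29a1_C1.Hone74
import Pool.Agent.W_7d29a1_C1.Fact74
import Pool.Agent.W_7d29a1_C1.PertB97

/-!
Both halves (MP_7d29a1_pr), attractor route [C1]: H1 FOR ONE CONTACT, OVER THE ROWS OF K91P. (helper74)

`Fin`, `Win` : the contact functional and the first meeting weight of the inner system: rows of the box only, two single starts
`a1 < a2` (the left corners of the two cells) at the first row, flat end at the last row. `h1_ct`, `h1_pt` : on a success the contact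
functional `Cc` and the meeting weight `mw` of a context are `Fin`, `Win`, up to tiny terms. `Fin_congr`, `Fin_sh` : `Fin` only sees
the rows of the box, and is invariant under a shift of the columns.
-/

set_option autoImplicit false
set_option linter.unusedSectionVars false

namespace Pool.Agent.W_7d29a1_C1.H1c

open Finset MeasureTheory
open Pool.Agent.W_7d29a1_C1.K91 (lev lev' zs cut shw sum_shift)
open Pool.Agent.W_7d29a1_C1.K97
open Pool.Agent.W_7d29a1_C1.L91
open Pool.Agent.W_7d29a1_C1.K91P (fw bw shp bw_pos fw_comp bw_comp)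
open Pool.Agent.W_7d29a1_C1.R26P
open Pool.Agent.W_7d29a1_C1.F74
open Pool.Agent.W_7d29a1_C1.CR76 (CR)

noncomputable section

/-! ### Upper bounds of the totals -/

section tot

variable {p : ℝ} {lo hi : ℤ} {wk m f : ℤ → ℝ} {ρ : ℝ}

theorem tot_ge (hp : 0 < p) (hw : ∀ y, 0 < wk y) (hm : ∀ y, 0 ≤ m y) (hf : ∀ y, 0 < f y) (hlh : lo ≤ hi) (hρ : 1 ≤ ρ)
    (r1 : ∀ y ∈ Icc lo hi, f (y - 1) ≤ ρ * f y ∧ f (y + 1) ≤ ρ * f y)
    (h0 : m (lo - 1) = 0) (h1 : m hi = 0) (q : ℤ) :
    rz lo hi p wk m f q ≤ (1 + p) * ρ * U lo hi wk m f ∧ rt lo hi p wk m f q ≤ (1 + p) * ρ * U lo hi wk m f ∧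
      tm lo hi p wk m f ≤ (1 + p) * ρ * U lo hi wk m f := by
  have ρ0 : 0 < ρ := by linarith
  have nn : ∀ y, 0 ≤ wk y * (m y * f y) := fun y => mul_nonneg (hw y).le (mul_nonneg (hm y) (hf y).le)
  refine ⟨?_, ?_, ?_⟩
  · unfold rz zs U
    rw [mul_sum]
    refine sum_le_sum fun y hy => ?_
    have a := nn y
    have b := mul_nonneg (hm y) (hw y).le
    have r := r1 y hy
    by_cases hq : y < q
    · rw [if_pos hq]
      have c := mul_le_mul_of_nonneg_left r.2 (mul_nonneg b hp.le)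
      have d : wk y * (m y * f y) ≤ ρ * (wk y * (m y * f y)) := le_mul_of_one_le_left a hρ
      linarith
    · rw [if_neg hq]
      simp only [sub_add_cancel]
      have c := mul_le_mul_of_nonneg_left r.1 b
      have d : p * (wk y * (m y * f y)) ≤ ρ * (p * (wk y * (m y * f y))) := le_mul_of_one_le_left (mul_nonneg hp.le a) hρ
      linarith
  · set g : ℤ → ℝ := fun y => p * ρ * (wk y * (m y * f y)) with hg
    have g0 : g (lo - 1) = 0 := by
      simp only [hg]
      rw [h0]
      ring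
    have g1 : g hi = 0 := by
      simp only [hg]
      rw [h1]
      ring
    have sh := sum_shift hlh g0 g1
    have k1 : rt lo hi p wk m f q ≤ ∑ y ∈ Icc lo hi, (ρ * (wk y * (m y * f y)) + g (y - 1)) := by
      unfold rt cut
      refine sum_le_sum fun y hy => ?_
      have a := nn y
      have b := nn (y - 1)
      have c := mul_nonneg (hw (y - 1)).le (hm (y - 1))
      have d := mul_nonneg (hw y).le (hm y)
      have r := r1 y hy
      simp only [hg]
      by_cases hq : y < q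
      · rw [if_pos hq]
        have e1 : wk y * (m y * f y) ≤ ρ * (wk y * (m y * f y)) := le_mul_of_one_le_left a hρ
        have e2 : p * (wk (y - 1) * m (y - 1)) * f y ≤ p * ρ * (wk (y - 1) * (m (y - 1) * f (y - 1))) := by
          by_cases h2 : y = lo
          · rw [h2, h0]
            simp
          · have r2 := (r1 (y - 1) (mem_Icc.2 (by have := mem_Icc.1 hy; omega))).2
            rw [sub_add_cancel] at r2
            have := mul_le_mul_of_nonneg_left r2 (mul_nonneg hp.le c)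
            linarith
        linarith
      · rw [if_neg hq]
        have e1 := mul_le_mul_of_nonneg_left r.1 d
        have e2 : p * (wk (y - 1) * (m (y - 1) * f (y - 1))) ≤ ρ * (p * (wk (y - 1) * (m (y - 1) * f (y - 1)))) :=
          le_mul_of_one_le_left (mul_nonneg hp.le b) hρ
        linarith
    rw [sum_add_distrib, sh, ← sum_add_distrib] at k1
    refine k1.trans (le_of_eq ?_)
    unfold U
    rw [mul_sum]
    refine sum_congr rfl fun y _ => ?_
    simp only [hg]
    ring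
  · unfold tm U
    rw [mul_sum]
    refine sum_le_sum fun y hy => ?_
    have a := nn y
    have b := mul_nonneg (hm y) (hw y).le
    have r := r1 y hy
    have c := mul_le_mul_of_nonneg_left r.2 (mul_nonneg b hp.le)
    have d : wk y * (m y * f y) ≤ ρ * (wk y * (m y * f y)) := le_mul_of_one_le_left a hρ
    linarith

theorem U_le_tm (hp : 0 < p) (hw : ∀ y, 0 < wk y) (hm : ∀ y, 0 ≤ m y) (hf : ∀ y, 0 < f y) :
    U lo hi wk m f ≤ tm lo hi p wk m f := by
  unfold tm U
  refine sum_le_sum fun y _ => ?_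
  have b := mul_nonneg (hm y) (hw y).le
  have c : 0 ≤ m y * wk y * (p * f (y + 1)) := mul_nonneg b (mul_nonneg hp.le (hf _).le)
  linarith

end tot

/-! ### The inner system -/

/-- The contact functional of the inner system: rows `W 0, .., W (K + J)`, starts `a1`, `a2`, contact row `K`, flat end. -/
def Fin (W : ℕ → ℤ → ℝ) (P : ℕ → ℝ) (K J : ℕ) (a1 a2 q : ℤ) : ℝ :=
  Cc a1 (a2 + K + 1) (P K) (W K) (fw W P (sg a1) K) (fw W P (sg a2) K) (bw W P (K + 1) J) q

/-- The first meeting weight of the inner system. -/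
def Win (W : ℕ → ℤ → ℝ) (P : ℕ → ℝ) (K J : ℕ) (a1 a2 q : ℤ) : ℝ :=
  mw a1 (a2 + K + 1) (P K) (W K) (fw W P (sg a1) K) (fw W P (sg a2) K) (bw W P (K + 1) J) q

theorem sup_sg {W : ℕ → ℤ → ℝ} {P : ℕ → ℝ} {K : ℕ} {a lo hi : ℤ} (h1 : lo ≤ a) (h2 : a + K < hi) :
    Sup lo hi (fw W P (sg a) K) := by
  intro y hy
  rcases hy with hy | hy
  · exact K91P.fw_lo (A := a) (fun z hz => by unfold sg; rw [if_neg (by omega)]) K y (by omega)
  · exact K91P.fw_hi (B := a) (fun z hz => by unfold sg; rw [if_neg (by omega)]) K y (by omega)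

theorem cc_box {p : ℝ} {lo hi lo' hi' : ℤ} {wk ml mr f : ℤ → ℝ} {q : ℤ} (hl : Sup lo hi ml) (hr : Sup lo hi mr)
    (hl' : Sup lo' hi' ml) (hr' : Sup lo' hi' mr) : Cc lo hi p wk ml mr f q = Cc lo' hi' p wk ml mr f q := by
  unfold Cc cta
  refine integral_congr_ae (Filter.Eventually.of_forall fun a => ?_)
  exact ct_box hl (hr.smul _) hl' (hr'.smul _)

theorem mw_box {p : ℝ} {lo hi lo' hi' : ℤ} {wk ml mr f : ℤ → ℝ} {q : ℤ} (hl : Sup lo hi ml) (hr : Sup lo hi mr)
    (hl' : Sup lo' hi' ml) (hr' : Sup lo' hi' mr) : mw lo hi p wk ml mr f q = mw lo' hi' p wk ml mr f q := by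
  unfold mw
  rw [tm_box hl hl', tm_box hr hr']

theorem cc_fsmul {p : ℝ} {lo hi : ℤ} {wk ml mr f : ℤ → ℝ} {q : ℤ} {c : ℝ} (hc : 0 < c) :
    Cc lo hi p wk ml mr (fun y => c * f y) q = Cc lo hi p wk ml mr f q := by
  unfold Cc cta
  refine integral_congr_ae (Filter.Eventually.of_forall fun a => ?_)
  exact ct_fsmul hc

theorem mw_fsmul {p : ℝ} {lo hi : ℤ} {wk ml mr f : ℤ → ℝ} {q : ℤ} {c : ℝ} (hc : 0 < c) :
    mw lo hi p wk ml mr (fun y => c * f y) q = mw lo hi p wk ml mr f q := by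
  unfold mw
  rw [tm_fsmul, tm_fsmul]
  have e1 : (ml (q - 1) * mr q - ml q * mr (q - 1)) * (p * (wk (q - 1) * wk q) * (c * f q) ^ 2) =
      c ^ 2 * ((ml (q - 1) * mr q - ml q * mr (q - 1)) * (p * (wk (q - 1) * wk q) * f q ^ 2)) := by ring
  have e2 : c * tm lo hi p wk ml f * (c * tm lo hi p wk mr f) = c ^ 2 * (tm lo hi p wk ml f * tm lo hi p wk mr f) := by ring
  rw [e1, e2, mul_div_mul_left _ _ (by positivity)]

/-- A shift of the columns. -/
def shc (s : ℤ) (W : ℕ → ℤ → ℝ) (i : ℕ) (y : ℤ) : ℝ := W i (y + s)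

theorem fw_shc {W : ℕ → ℤ → ℝ} {P : ℕ → ℝ} (s a : ℤ) : ∀ (k : ℕ) (y : ℤ),
    fw (shc s W) P (sg (a - s)) k y = fw W P (sg a) k (y + s)
  | 0, y => by
    show sg (a - s) y = sg a (y + s)
    unfold sg
    by_cases h : y + s = a
    · rw [if_pos h, if_pos (by omega)]
    · rw [if_neg h, if_neg (by omega)]
  | k + 1, y => by
    rw [K91P.fw_succ, K91P.fw_succ, fw_shc s a k y, fw_shc s a k (y - 1)]
    unfold shc
    have e : y - 1 + s = y + s - 1 := by ring
    rw [e]

theorem bw_shc {W : ℕ → ℤ → ℝ} {P : ℕ → ℝ} (s : ℤ) : ∀ (j k : ℕ) (y : ℤ), bw (shc s W) P k j y = bw W P k j (y + s)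
  | 0, k, y => by rw [K91P.bw_zero, K91P.bw_zero]
  | j + 1, k, y => by
    rw [K91P.bw_succ, K91P.bw_succ, bw_shc s j (k + 1) y, bw_shc s j (k + 1) (y + 1)]
    unfold shc
    have e : y + 1 + s = y + s + 1 := by ring
    rw [e]

/-- **Shift of the columns.** -/
theorem Fin_sh (W : ℕ → ℤ → ℝ) (P : ℕ → ℝ) (K J : ℕ) (a1 a2 q s : ℤ) :
    Fin (shc s W) P K J (a1 - s) (a2 - s) (q - s) = Fin W P K J a1 a2 q := by
  unfold Fin Cc cta
  refine integral_congr_ae (Filter.Eventually.of_forall fun a => ?_)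
  have e1 : fw (shc s W) P (sg (a1 - s)) K = shf s (fw W P (sg a1) K) := funext fun y => fw_shc s a1 K y
  have e2 : (fun y => Real.exp (-a) * fw (shc s W) P (sg (a2 - s)) K y) =
      shf s (fun y => Real.exp (-a) * fw W P (sg a2) K y) := funext fun y => by
    show _ = Real.exp (-a) * fw W P (sg a2) K (y + s)
    rw [fw_shc s a2 K y]
  have e3 : bw (shc s W) P (K + 1) J = shf s (bw W P (K + 1) J) := funext fun y => bw_shc s J (K + 1) y
  have e4 : shc s W K = shf s (W K) := rfl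
  have e5 : a2 - s + K + 1 = a2 + K + 1 - s := by ring
  show ct (a1 - s) (a2 - s + K + 1) (P K) (shc s W K) _ _ _ (q - s) = _
  rw [e1, e2, e3, e4, e5]
  exact ct_sh

theorem Win_sh (W : ℕ → ℤ → ℝ) (P : ℕ → ℝ) (K J : ℕ) (a1 a2 q s : ℤ) :
    Win (shc s W) P K J (a1 - s) (a2 - s) (q - s) = Win W P K J a1 a2 q := by
  have e1 : fw (shc s W) P (sg (a1 - s)) K = shf s (fw W P (sg a1) K) := funext fun y => fw_shc s a1 K y
  have e2 : fw (shc s W) P (sg (a2 - s)) K = shf s (fw W P (sg a2) K) := funext fun y => fw_shc s a2 K y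
  have e3 : bw (shc s W) P (K + 1) J = shf s (bw W P (K + 1) J) := funext fun y => bw_shc s J (K + 1) y
  have e4 : shc s W K = shf s (W K) := rfl
  have e5 : a2 - s + K + 1 = a2 + K + 1 - s := by ring
  unfold Win mw
  rw [e1, e2, e3, e4, e5, tm_sh, tm_sh]
  unfold shf
  have e6 : q - s - 1 + s = q - 1 := by ring
  have e7 : q - s + s = q := by ring
  rw [e6, e7]

theorem fw_cg {W W' : ℕ → ℤ → ℝ} {P P' : ℕ → ℝ} {l : ℤ → ℝ} : ∀ (k : ℕ), (∀ i < k, ∀ y, W i y = W' i y) →
    (∀ i < k, P i = P' i) → ∀ y, fw W P l k y = fw W' P' l k y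
  | 0, _, _, _ => rfl
  | k + 1, h, h', y => by
    rw [K91P.fw_succ, K91P.fw_succ, fw_cg k (fun i hi => h i (by omega)) (fun i hi => h' i (by omega)) y,
      fw_cg k (fun i hi => h i (by omega)) (fun i hi => h' i (by omega)) (y - 1), h k (by omega) y, h k (by omega) (y - 1),
      h' k (by omega)]

theorem bw_cg {W W' : ℕ → ℤ → ℝ} {P P' : ℕ → ℝ} : ∀ (j k : ℕ), (∀ i < k + j, ∀ y, W i y = W' i y) →
    (∀ i < k + j, P i = P' i) → ∀ y, bw W P k j y = bw W' P' k j y
  | 0, k, _, _, y => by rw [K91P.bw_zero, K91P.bw_zero]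
  | j + 1, k, h, h', y => by
    rw [K91P.bw_succ, K91P.bw_succ, bw_cg j (k + 1) (fun i hi => h i (by omega)) (fun i hi => h' i (by omega)) y,
      bw_cg j (k + 1) (fun i hi => h i (by omega)) (fun i hi => h' i (by omega)) (y + 1), h k (by omega) y,
      h' k (by omega)]

/-- **Only the rows of the box matter.** -/
theorem Fin_congr {W W' : ℕ → ℤ → ℝ} {P P' : ℕ → ℝ} {K J : ℕ} (h : ∀ i < K + 1 + J, ∀ y, W i y = W' i y)
    (h' : ∀ i < K + 1 + J, P i = P' i) (a1 a2 q : ℤ) : Fin W P K J a1 a2 q = Fin W' P' K J a1 a2 q := by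
  have e1 : fw W P (sg a1) K = fw W' P' (sg a1) K :=
    funext fun y => fw_cg K (fun i hi => h i (by omega)) (fun i hi => h' i (by omega)) y
  have e2 : fw W P (sg a2) K = fw W' P' (sg a2) K :=
    funext fun y => fw_cg K (fun i hi => h i (by omega)) (fun i hi => h' i (by omega)) y
  have e3 : bw W P (K + 1) J = bw W' P' (K + 1) J := funext fun y => bw_cg J (K + 1) h h' y
  have e4 : W K = W' K := funext fun y => h K (by omega) y
  unfold Fin
  rw [e1, e2, e3, e4, h' K (by omega)]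

theorem Win_congr {W W' : ℕ → ℤ → ℝ} {P P' : ℕ → ℝ} {K J : ℕ} (h : ∀ i < K + 1 + J, ∀ y, W i y = W' i y)
    (h' : ∀ i < K + 1 + J, P i = P' i) (a1 a2 q : ℤ) : Win W P K J a1 a2 q = Win W' P' K J a1 a2 q := by
  have e1 : fw W P (sg a1) K = fw W' P' (sg a1) K :=
    funext fun y => fw_cg K (fun i hi => h i (by omega)) (fun i hi => h' i (by omega)) y
  have e2 : fw W P (sg a2) K = fw W' P' (sg a2) K :=
    funext fun y => fw_cg K (fun i hi => h i (by omega)) (fun i hi => h' i (by omega)) y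
  have e3 : bw W P (K + 1) J = bw W' P' (K + 1) J := funext fun y => bw_cg J (K + 1) h h' y
  have e4 : W K = W' K := funext fun y => h K (by omega) y
  unfold Win
  rw [e1, e2, e3, e4, h' K (by omega)]

end

end Pool.Agent.W_7d29a1_C1.H1c
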