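import Pool.Agent.W_7d29a1_C1.HoneB74

/-!
Both halves (MP_7d29a1_pr), attractor route [C1]: H1 FOR ONE CONTACT, OVER THE ROWS OF K91P, last part. (helper74)

`Suc` : the inequalities of a success around one row `k = c0 + n1 + j` (rows near the model rows, amplitudes, regularity);
`h1_ct`, `h1_pt` : the contact functional `Cc` and the meeting weight `mw` are those of the inner system, `Fin`, `Win`.
-/

set_option autoImplicit false
set_option linter.unusedSectionVars false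

namespace Pool.Agent.W_7d29a1_C1.H1c

open Finset MeasureTheory
open Pool.Agent.W_7d29a1_C1.K91 (lev lev' zs cut shw sum_shift)
open Pool.Agent.W_7d29a1_C1.K97
open Pool.Agent.W_7d29a1_C1.L91
open Pool.Agent.W_7d29a1_C1.K91P (fw bw shp bw_pos fw_comp bw_comp)
open Pool.Agent.W_7d29a1_C1.R26P
open Pool.Agent.W_7d29a1_C1.F74

noncomputable section

variable {w : ℕ → ℤ → ℝ} {p : ℕ → ℝ} {lo hi : ℤ} {c0 n1 j n2 n3 m : ℕ} {a1 b1 a2 b2 xa xb ya yb za zb ua ub q : ℤ}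
  {l r : ℤ → ℝ} {δ ε ρ kap R1 M : ℝ}

/-- The ratio of the totals of the two cells. -/
def rrt (pk ρ R1 : ℝ) : ℝ := (1 + pk) ^ 2 * ρ ^ 2 * R1 / min 1 pk

/-- The inequalities of a success around one row. -/
structure Suc (w : ℕ → ℤ → ℝ) (p : ℕ → ℝ) (lo hi : ℤ) (l r : ℤ → ℝ) (c0 n1 j n2 n3 m : ℕ)
    (a1 b1 a2 b2 xa xb ya yb za zb ua ub q : ℤ) (δ ε ρ kap R1 M : ℝ) : Prop where
  R : Row w p lo hi c0 n1 j n2 n3 m a1 b2 ua ub ya yb za zb δ ε ρ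
  hl : Ent w p lo hi l c0 n1 j (j + (n2 + (n3 + m) + 1)) a1 b1 a2 b2 xa xb δ ε
  hr : Ent w p lo hi r c0 n1 j (j + (n2 + (n3 + m) + 1)) a1 b1 a2 b2 xa xb δ ε
  A1 : 0 < am w p c0 n1 a1 b1 xa (fw w p l c0)
  A2 : 0 < am w p c0 n1 a2 b2 xa (fw w p l c0)
  B1 : 0 < am w p c0 n1 a1 b1 xa (fw w p r c0)
  B2 : 0 < am w p c0 n1 a2 b2 xa (fw w p r c0)
  G : Reg lo hi (w (c0 + n1 + j)) (bw w p (c0 + n1 + j + 1) (n2 + (n3 + m))) q kap
  G' : Reg lo hi (w (c0 + n1 + j)) (bw w p (c0 + n1 + j + 1) (n2 + n3)) q kap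
  e1 : (1 + p (c0 + n1 + j)) * et (p (c0 + n1 + j)) δ ε ρ ≤ 1 / 2
  r1 : 1 ≤ R1
  t12 : bw w p c0 (n1 + j + (n2 + n3 + 1)) a1 ≤ R1 * bw w p c0 (n1 + j + (n2 + n3 + 1)) a2
  t21 : bw w p c0 (n1 + j + (n2 + n3 + 1)) a2 ≤ R1 * bw w p c0 (n1 + j + (n2 + n3 + 1)) a1
  w1 : Real.log (am w p c0 n1 a1 b1 xa (fw w p r c0) / am w p c0 n1 a2 b2 xa (fw w p r c0)) ≤ -(M + 1)
  w2 : M + 1 ≤ Real.log (am w p c0 n1 a1 b1 xa (fw w p l c0) / am w p c0 n1 a2 b2 xa (fw w p l c0))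
  hM : Real.log (rrt (p (c0 + n1 + j)) ρ R1) + 1 ≤ M

theorem rrt_one {pk : ℝ} (hp : 0 < pk) (hρ : 1 ≤ ρ) (h1 : 1 ≤ R1) : 1 ≤ rrt pk ρ R1 := by
  have mp : 0 < min 1 pk := lt_min one_pos hp
  unfold rrt
  rw [le_div_iff₀ mp, one_mul]
  have h2 : min 1 pk ≤ 1 := min_le_left _ _
  have h3 : 1 ≤ (1 + pk) ^ 2 := by nlinarith
  have h4 : 1 ≤ ρ ^ 2 := by nlinarith
  have h5 : 1 * 1 ≤ (1 + pk) ^ 2 * ρ ^ 2 := mul_le_mul h3 h4 zero_le_one (by linarith)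
  have h6 : 1 * 1 ≤ (1 + pk) ^ 2 * ρ ^ 2 * R1 := mul_le_mul (by linarith) h1 zero_le_one (by linarith)
  linarith

/-- The total of one cell, inner system. -/
theorem tot_in (g : Geo lo hi n1 j a1 b1 a2 b2 xa xb) (N : ℕ) :
    (∑ y ∈ Icc lo hi, w (c0 + n1 + j) y * (kf w p c0 (n1 + j) a1 y *
      (bw w p (c0 + n1 + j + 1) N y + p (c0 + n1 + j) * bw w p (c0 + n1 + j + 1) N (y + 1))) =
      bw w p c0 (n1 + j + (N + 1)) a1) ∧
    (∑ y ∈ Icc lo hi, w (c0 + n1 + j) y * (kf w p c0 (n1 + j) a2 y *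
      (bw w p (c0 + n1 + j + 1) N y + p (c0 + n1 + j) * bw w p (c0 + n1 + j + 1) N (y + 1))) =
      bw w p c0 (n1 + j + (N + 1)) a2) := by
  constructor
  · have h := total_mod (w := w) (p := p) (c0 := c0) g 1 0 N
    rw [one_mul, zero_mul, add_zero] at h
    rw [← h]
    exact sum_congr rfl fun y _ => by ring
  · have h := total_mod (w := w) (p := p) (c0 := c0) g 0 1 N
    rw [one_mul, zero_mul, zero_add] at h
    rw [← h]
    exact sum_congr rfl fun y _ => by ring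

/-- **The cell of a success.** -/
theorem Suc.cell (hw : ∀ k y, 0 < w k y) (hp : ∀ k, 0 < p k)
    (S : Suc w p lo hi l r c0 n1 j n2 n3 m a1 b1 a2 b2 xa xb ya yb za zb ua ub q δ ε ρ kap R1 M) :
    Cell lo hi (am w p c0 n1 a1 b1 xa (fw w p l c0)) (am w p c0 n1 a2 b2 xa (fw w p l c0))
      (am w p c0 n1 a1 b1 xa (fw w p r c0)) (am w p c0 n1 a2 b2 xa (fw w p r c0)) kap
      (et (p (c0 + n1 + j)) δ ε ρ) (rrt (p (c0 + n1 + j)) ρ R1) (p (c0 + n1 + j)) (w (c0 + n1 + j))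
      (bw w p (c0 + n1 + j + 1) (n2 + (n3 + m))) (Pm w p (c0 + n1 + j) n2 n3 m ya za zb)
      (fw w p l (c0 + n1 + j)) (fw w p r (c0 + n1 + j)) (kf w p c0 (n1 + j) a1) (kf w p c0 (n1 + j) a2) q := by
  have g := S.hl.g
  have g1 := g.h1
  have g2 := g.h2
  have g3 := g.h3
  have g7 := g.h7
  have g8 := g.h8
  have nn0 : (0 : ℤ) ≤ ((n1 + j : ℕ) : ℤ) := by positivity
  have hlh : lo ≤ hi := by omega
  have pk := hp (c0 + n1 + j)
  have wk := hw (c0 + n1 + j)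
  have mp : 0 < min 1 (p (c0 + n1 + j)) := lt_min one_pos pk
  have ρ1 := S.R.ρ1
  have δ0 := S.hl.δ0
  have ε0 := S.hl.ε0
  have f0 : ∀ y, 0 < bw w p (c0 + n1 + j + 1) (n2 + (n3 + m)) y := fun y => bw_pos hw hp _ _ y
  have i0 : ∀ y, 0 < bw w p (c0 + n1 + j + 1) (n2 + n3) y := fun y => bw_pos hw hp _ _ y
  have f0' : ∀ y, 0 < Pm w p (c0 + n1 + j) n2 n3 m ya za zb y := fun y => Pm_pos hw hp S.R.gx _ y
  have k1 : ∀ y, 0 ≤ kf w p c0 (n1 + j) a1 y := fun y => kf_nonneg hw hp _ _ _ _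
  have k2 : ∀ y, 0 ≤ kf w p c0 (n1 + j) a2 y := fun y => kf_nonneg hw hp _ _ _ _
  have K0 : 0 < Ce w p (c0 + n1 + j + 1) n2 n3 m ya za zb / Ce w p (c0 + n1 + j + 1) n2 n3 0 ya za zb :=
    div_pos (Ce_pos hw hp S.R.gx _ n2 m) (Ce_pos hw hp S.R.gx _ n2 0)
  set KK := Ce w p (c0 + n1 + j + 1) n2 n3 m ya za zb / Ce w p (c0 + n1 + j + 1) n2 n3 0 ya za zb with hKK
  have ePm : ∀ y, Pm w p (c0 + n1 + j) n2 n3 m ya za zb y = KK * bw w p (c0 + n1 + j + 1) (n2 + n3) y := fun y => rfl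
  have ri : ∀ y ∈ Icc lo hi, Pm w p (c0 + n1 + j) n2 n3 m ya za zb (y - 1) ≤ ρ * Pm w p (c0 + n1 + j) n2 n3 m ya za zb y ∧
      Pm w p (c0 + n1 + j) n2 n3 m ya za zb (y + 1) ≤ ρ * Pm w p (c0 + n1 + j) n2 n3 m ya za zb y := by
    intro y hy
    have r := S.R.ri y hy
    rw [ePm, ePm, ePm]
    constructor
    · have := mul_le_mul_of_nonneg_left r.1 K0.le
      linarith
    · have := mul_le_mul_of_nonneg_left r.2 K0.le
      linarith
  -- the boundary of the box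
  have z1l : kf w p c0 (n1 + j) a1 (lo - 1) = 0 := kf_zero c0 (n1 + j) (by omega)
  have z2l : kf w p c0 (n1 + j) a2 (lo - 1) = 0 := kf_zero c0 (n1 + j) (by omega)
  have z1h : kf w p c0 (n1 + j) a1 hi = 0 := kf_zero c0 (n1 + j) (by omega)
  have z2h : kf w p c0 (n1 + j) a2 hi = 0 := kf_zero c0 (n1 + j) (by omega)
  -- the masses of the two cells
  have Up : ∀ a : ℤ, a ∈ Icc lo hi → 0 < U lo hi (w (c0 + n1 + j)) (kf w p c0 (n1 + j) a)
      (Pm w p (c0 + n1 + j) n2 n3 m ya za zb) := by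
    intro a ha
    have t : 0 < w (c0 + n1 + j) a * (kf w p c0 (n1 + j) a a * Pm w p (c0 + n1 + j) n2 n3 m ya za zb a) :=
      mul_pos (wk a) (mul_pos (kf_pos hw hp c0 (n1 + j) le_rfl (by omega)) (f0' a))
    refine t.trans_le ?_
    unfold U
    exact single_le_sum (f := fun y => w (c0 + n1 + j) y * (kf w p c0 (n1 + j) a y * Pm w p (c0 + n1 + j) n2 n3 m ya za zb y))
      (fun y _ => mul_nonneg (wk y).le (mul_nonneg (kf_nonneg hw hp _ _ _ _) (f0' y).le)) ha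
  have U1 := Up a1 (by rw [mem_Icc]; omega)
  have U2 := Up a2 (by rw [mem_Icc]; omega)
  -- the ratio of the masses
  have ti := tot_in (w := w) (p := p) (c0 := c0) g (n2 + n3)
  have up : ∀ a : ℤ, U lo hi (w (c0 + n1 + j)) (kf w p c0 (n1 + j) a) (Pm w p (c0 + n1 + j) n2 n3 m ya za zb) ≤
      KK * ∑ y ∈ Icc lo hi, w (c0 + n1 + j) y * (kf w p c0 (n1 + j) a y *
      (bw w p (c0 + n1 + j + 1) (n2 + n3) y + p (c0 + n1 + j) * bw w p (c0 + n1 + j + 1) (n2 + n3) (y + 1))) := by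
    intro a
    unfold U
    rw [mul_sum]
    refine sum_le_sum fun y _ => ?_
    rw [ePm]
    have h1 : 0 ≤ KK * (w (c0 + n1 + j) y * (kf w p c0 (n1 + j) a y *
        (p (c0 + n1 + j) * bw w p (c0 + n1 + j + 1) (n2 + n3) (y + 1)))) :=
      mul_nonneg K0.le (mul_nonneg (wk y).le (mul_nonneg (kf_nonneg hw hp _ _ _ _) (mul_nonneg pk.le (i0 _).le)))
    linarith
  have dn : ∀ a : ℤ, KK * ∑ y ∈ Icc lo hi, w (c0 + n1 + j) y * (kf w p c0 (n1 + j) a y *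
      (bw w p (c0 + n1 + j + 1) (n2 + n3) y + p (c0 + n1 + j) * bw w p (c0 + n1 + j + 1) (n2 + n3) (y + 1))) ≤
      (1 + p (c0 + n1 + j) * ρ) * U lo hi (w (c0 + n1 + j)) (kf w p c0 (n1 + j) a) (Pm w p (c0 + n1 + j) n2 n3 m ya za zb) := by
    intro a
    have s := step_le (lo := lo) (hi := hi) (wk := w (c0 + n1 + j)) (m := kf w p c0 (n1 + j) a)
      (f := Pm w p (c0 + n1 + j) n2 n3 m ya za zb) (ρ := ρ) wk (fun y => kf_nonneg hw hp _ _ _ _) pk fun y hy => (ri y hy).2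
    refine le_trans (le_of_eq ?_) s
    rw [mul_sum]
    refine sum_congr rfl fun y _ => ?_
    rw [ePm, ePm]
    ring
  have P1 : 1 + p (c0 + n1 + j) * ρ ≤ (1 + p (c0 + n1 + j)) * ρ := by
    have : 1 ≤ ρ := ρ1
    linarith
  have R0 : 0 < R1 := by linarith [S.r1]
  have rat : ∀ a a' : ℤ, (∑ y ∈ Icc lo hi, w (c0 + n1 + j) y * (kf w p c0 (n1 + j) a y *
      (bw w p (c0 + n1 + j + 1) (n2 + n3) y + p (c0 + n1 + j) * bw w p (c0 + n1 + j + 1) (n2 + n3) (y + 1)))) ≤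
      R1 * (∑ y ∈ Icc lo hi, w (c0 + n1 + j) y * (kf w p c0 (n1 + j) a' y *
      (bw w p (c0 + n1 + j + 1) (n2 + n3) y + p (c0 + n1 + j) * bw w p (c0 + n1 + j + 1) (n2 + n3) (y + 1)))) →
      0 ≤ U lo hi (w (c0 + n1 + j)) (kf w p c0 (n1 + j) a') (Pm w p (c0 + n1 + j) n2 n3 m ya za zb) →
      (1 + p (c0 + n1 + j)) * ρ * U lo hi (w (c0 + n1 + j)) (kf w p c0 (n1 + j) a) (Pm w p (c0 + n1 + j) n2 n3 m ya za zb) ≤
      rrt (p (c0 + n1 + j)) ρ R1 * (min 1 (p (c0 + n1 + j)) *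
        U lo hi (w (c0 + n1 + j)) (kf w p c0 (n1 + j) a') (Pm w p (c0 + n1 + j) n2 n3 m ya za zb)) := by
    intro a a' h u0
    have h1 := up a
    have h2 := dn a'
    have h3 := mul_le_mul_of_nonneg_left h K0.le
    have h4 : U lo hi (w (c0 + n1 + j)) (kf w p c0 (n1 + j) a) (Pm w p (c0 + n1 + j) n2 n3 m ya za zb) ≤
        R1 * ((1 + p (c0 + n1 + j)) * ρ *
          U lo hi (w (c0 + n1 + j)) (kf w p c0 (n1 + j) a') (Pm w p (c0 + n1 + j) n2 n3 m ya za zb)) := by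
      have h5 := mul_le_mul_of_nonneg_left h2 R0.le
      have h6 := mul_le_mul_of_nonneg_left (mul_le_mul_of_nonneg_right P1 u0) R0.le
      linarith
    have h7 : 0 ≤ (1 + p (c0 + n1 + j)) * ρ := by positivity
    have h8 := mul_le_mul_of_nonneg_left h4 h7
    refine h8.trans (le_of_eq ?_)
    unfold rrt
    field_simp
  have q12 := rat a1 a2 (by rw [ti.1, ti.2]; exact S.t12) U2.le
  have q21 := rat a2 a1 (by rw [ti.1, ti.2]; exact S.t21) U1.le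
  -- the totals
  have lo1 := tot_le (q := q) pk wk k1 f0' hlh z1l z1h
  have lo2 := tot_le (q := q) pk wk k2 f0' hlh z2l z2h
  have hi1 := tot_ge pk wk k1 f0' hlh ρ1 ri z1l z1h q
  have hi2 := tot_ge pk wk k2 f0' hlh ρ1 ri z2l z2h q
  have lp1 := mul_pos mp U1
  have lp2 := mul_pos mp U2
  have rr1 := rrt_one pk ρ1 S.r1
  have rr0 : 0 ≤ rrt (p (c0 + n1 + j)) ρ R1 := by linarith
  -- the positive totals of the model rows
  have TT : ∀ C1 C2 : ℝ, 0 < C1 → 0 < C2 → 0 < min 1 (p (c0 + n1 + j)) * U lo hi (w (c0 + n1 + j))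
      (fun y => C1 * kf w p c0 (n1 + j) a1 y + C2 * kf w p c0 (n1 + j) a2 y) (Pm w p (c0 + n1 + j) n2 n3 m ya za zb) := by
    intro C1 C2 h1 h2
    refine mul_pos mp ?_
    have e : U lo hi (w (c0 + n1 + j)) (fun y => C1 * kf w p c0 (n1 + j) a1 y + C2 * kf w p c0 (n1 + j) a2 y)
        (Pm w p (c0 + n1 + j) n2 n3 m ya za zb) =
        C1 * U lo hi (w (c0 + n1 + j)) (kf w p c0 (n1 + j) a1) (Pm w p (c0 + n1 + j) n2 n3 m ya za zb) +
        C2 * U lo hi (w (c0 + n1 + j)) (kf w p c0 (n1 + j) a2) (Pm w p (c0 + n1 + j) n2 n3 m ya za zb) := by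
      unfold U
      rw [mul_sum, mul_sum, ← sum_add_distrib]
      exact sum_congr rfl fun y _ => by ring
    rw [e]
    have := mul_pos h1 U1
    have := mul_pos h2 U2
    linarith
  have et0 : 0 ≤ et (p (c0 + n1 + j)) δ ε ρ := by
    unfold et
    positivity
  exact
    { p0 := pk
      w0 := wk
      f0 := f0
      f0' := f0'
      g1 := k1
      g2 := k2
      R := S.G
      R' := ⟨S.G'.k1, S.G'.q1, S.G'.q2, S.G'.wl, S.G'.wr, S.G'.wl2, S.G'.wr2, by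
        rw [ePm, ePm]
        have := mul_le_mul_of_nonneg_left S.G'.fl K0.le
        linarith, by
        rw [ePm, ePm]
        have := mul_le_mul_of_nonneg_left S.G'.fr K0.le
        linarith⟩
      e0 := et0
      e1 := S.e1
      nl := ⟨_, TT _ _ S.A1 S.A2, nr74 hw hp S.R S.hl q⟩
      nr := ⟨_, TT _ _ S.B1 S.B2, nr74 hw hp S.R S.hr q⟩
      r0 := rr0
      z1 := lp1.trans_le lo1.1
      z2 := lp2.trans_le lo2.1
      z12 := hi1.1.trans (q12.trans (mul_le_mul_of_nonneg_left lo2.1 rr0))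
      z21 := hi2.1.trans (q21.trans (mul_le_mul_of_nonneg_left lo1.1 rr0))
      t1 := lp1.trans_le lo1.2.1
      t2 := lp2.trans_le lo2.2.1
      t12 := hi1.2.1.trans (q12.trans (mul_le_mul_of_nonneg_left lo2.2.1 rr0))
      t21 := hi2.2.1.trans (q21.trans (mul_le_mul_of_nonneg_left lo1.2.1 rr0))
      m1 := lp1.trans_le lo1.2.2
      m2 := lp2.trans_le lo2.2.2
      m12 := hi1.2.2.trans (q12.trans (mul_le_mul_of_nonneg_left lo2.2.2 rr0))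
      m21 := hi2.2.2.trans (q21.trans (mul_le_mul_of_nonneg_left lo1.2.2 rr0)) }

/-- The inner contact functional, in any box. -/
theorem fin_eq (g : Geo lo hi n1 j a1 b1 a2 b2 xa xb) (N : ℕ) (q : ℤ) :
    Cc lo hi (p (c0 + n1 + j)) (w (c0 + n1 + j)) (kf w p c0 (n1 + j) a1) (kf w p c0 (n1 + j) a2)
      (bw w p (c0 + n1 + j + 1) N) q = Fin (shw w c0) (shp p c0) (n1 + j) N a1 a2 q := by
  have g1 := g.h1
  have g2 := g.h2
  have g3 := g.h3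
  have g7 := g.h7
  have g8 := g.h8
  unfold Fin
  have e0 : c0 + n1 + j = c0 + (n1 + j) := by ring
  have e1 : bw w p (c0 + n1 + j + 1) N = bw (shw w c0) (shp p c0) (n1 + j + 1) N := by
    funext y
    have : c0 + n1 + j + 1 = c0 + (n1 + j + 1) := by ring
    rw [this]
    exact bw_comp c0 N (n1 + j + 1) y
  rw [e1, e0]
  exact cc_box (sup_sg g7 (by omega)) (sup_sg (by omega) (by omega)) (sup_sg le_rfl (by omega)) (sup_sg (by omega) (by omega))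

theorem win_eq (g : Geo lo hi n1 j a1 b1 a2 b2 xa xb) (N : ℕ) (q : ℤ) :
    mw lo hi (p (c0 + n1 + j)) (w (c0 + n1 + j)) (kf w p c0 (n1 + j) a1) (kf w p c0 (n1 + j) a2)
      (bw w p (c0 + n1 + j + 1) N) q = Win (shw w c0) (shp p c0) (n1 + j) N a1 a2 q := by
  have g1 := g.h1
  have g2 := g.h2
  have g3 := g.h3
  have g7 := g.h7
  have g8 := g.h8
  unfold Win
  have e0 : c0 + n1 + j = c0 + (n1 + j) := by ring
  have e1 : bw w p (c0 + n1 + j + 1) N = bw (shw w c0) (shp p c0) (n1 + j + 1) N := by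
    funext y
    have : c0 + n1 + j + 1 = c0 + (n1 + j + 1) := by ring
    rw [this]
    exact bw_comp c0 N (n1 + j + 1) y
  rw [e1, e0]
  exact mw_box (sup_sg g7 (by omega)) (sup_sg (by omega) (by omega)) (sup_sg le_rfl (by omega)) (sup_sg (by omega) (by omega))

/-- **H1 for one contact, contact functional.** -/
theorem h1_ct {κ κ' : ℝ} (hw : ∀ k y, 0 < w k y) (hp : ∀ k, 0 < p k)
    (S : Suc w p lo hi l r c0 n1 j n2 n3 m a1 b1 a2 b2 xa xb ya yb za zb ua ub q δ ε ρ kap R1 M)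
    (C : Cutd lo hi (p (c0 + n1 + j)) (w (c0 + n1 + j)) (fw w p l (c0 + n1 + j)) (fw w p r (c0 + n1 + j))
      (bw w p (c0 + n1 + j + 1) (n2 + (n3 + m))) q κ κ') :
    |Cc lo hi (p (c0 + n1 + j)) (w (c0 + n1 + j)) (fw w p l (c0 + n1 + j)) (fw w p r (c0 + n1 + j))
      (bw w p (c0 + n1 + j + 1) (n2 + (n3 + m))) q - Fin (shw w c0) (shp p c0) (n1 + j) (n2 + n3) a1 a2 q| ≤
      2 * (M + 1) * (176 * (1 + p (c0 + n1 + j)) * kap ^ 8 * et (p (c0 + n1 + j)) δ ε ρ) +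
        12 * kap ^ 8 * rrt (p (c0 + n1 + j)) ρ R1 * Real.exp (-M) +
        6 * (Kl (p (c0 + n1 + j)) κ κ' * p (c0 + n1 + j)) * rrt (p (c0 + n1 + j)) ρ R1 * Real.exp (-M) := by
  have K0 : 0 < Ce w p (c0 + n1 + j + 1) n2 n3 m ya za zb / Ce w p (c0 + n1 + j + 1) n2 n3 0 ya za zb :=
    div_pos (Ce_pos hw hp S.R.gx _ n2 m) (Ce_pos hw hp S.R.gx _ n2 0)
  have key := hone_ct S.A1 S.A2 S.B1 S.B2 (S.cell hw hp) C (rrt_one (hp _) S.R.ρ1 S.r1) S.w1 S.w2 S.hM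
  have e : Cc lo hi (p (c0 + n1 + j)) (w (c0 + n1 + j)) (kf w p c0 (n1 + j) a1) (kf w p c0 (n1 + j) a2)
      (Pm w p (c0 + n1 + j) n2 n3 m ya za zb) q = Fin (shw w c0) (shp p c0) (n1 + j) (n2 + n3) a1 a2 q := by
    rw [← fin_eq S.hl.g]
    exact cc_fsmul K0
  rw [e] at key
  exact key

/-- **H1 for one contact, first meeting.** -/
theorem h1_pt {κ κ' : ℝ} (hw : ∀ k y, 0 < w k y) (hp : ∀ k, 0 < p k)
    (S : Suc w p lo hi l r c0 n1 j n2 n3 m a1 b1 a2 b2 xa xb ya yb za zb ua ub q δ ε ρ kap R1 M)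
    (C : Cutd lo hi (p (c0 + n1 + j)) (w (c0 + n1 + j)) (fw w p l (c0 + n1 + j)) (fw w p r (c0 + n1 + j))
      (bw w p (c0 + n1 + j + 1) (n2 + (n3 + m))) q κ κ') :
    |mw lo hi (p (c0 + n1 + j)) (w (c0 + n1 + j)) (fw w p l (c0 + n1 + j)) (fw w p r (c0 + n1 + j))
      (bw w p (c0 + n1 + j + 1) (n2 + (n3 + m))) q - Win (shw w c0) (shp p c0) (n1 + j) (n2 + n3) a1 a2 q| ≤
      2 * (M + 1) * (16 * (1 + p (c0 + n1 + j)) * et (p (c0 + n1 + j)) δ ε ρ) +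
        8 * rrt (p (c0 + n1 + j)) ρ R1 * Real.exp (-M) + 6 * rrt (p (c0 + n1 + j)) ρ R1 * Real.exp (-M) := by
  have K0 : 0 < Ce w p (c0 + n1 + j + 1) n2 n3 m ya za zb / Ce w p (c0 + n1 + j + 1) n2 n3 0 ya za zb :=
    div_pos (Ce_pos hw hp S.R.gx _ n2 m) (Ce_pos hw hp S.R.gx _ n2 0)
  have key := hone_pt S.A1 S.A2 S.B1 S.B2 (S.cell hw hp) C (rrt_one (hp _) S.R.ρ1 S.r1) S.w1 S.w2 S.hM
  have e : mw lo hi (p (c0 + n1 + j)) (w (c0 + n1 + j)) (kf w p c0 (n1 + j) a1) (kf w p c0 (n1 + j) a2)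
      (Pm w p (c0 + n1 + j) n2 n3 m ya za zb) q = Win (shw w c0) (shp p c0) (n1 + j) (n2 + n3) a1 a2 q := by
    rw [← win_eq S.hl.g]
    exact mw_fsmul K0
  rw [e] at key
  exact key

end

end Pool.Agent.W_7d29a1_C1.H1c
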