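import Pool.Agent.W_7d29a1_C1.D2J96

/-!
MP_7d29a1_pr, [C1] attractor route: TAMENESS FROM `In` ALONE. (helper16, over helper43's `htD43` and helper96's `d2J96`)
-/

set_option autoImplicit false

namespace Pool.Agent.W_7d29a1_C1.U16

open MeasureTheory
open Pool.Agent.W_7d29a1_F Pool.Agent.W_7d29a1_h4g Pool.Agent.W_7d29a1_H Pool.Agent.W_7d29a1_HS
open Pool.Agent.W_7d29a1_C1.Ht43

/-- **THE HALF `hT`**, no hypothesis but `In`. -/
theorem htQ16 {μ : Measure ℝ} [IsProbabilityMeasure μ] {s c C a Cg aS : ℝ} {n₀ : ℕ} (h0 : In μ s c C n₀) (haS : 0 ≤ aS) :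
    HtQ43 μ s a Cg aS := htD43 h0 haS (DJ96.d2J96 h0)

end Pool.Agent.W_7d29a1_C1.U16
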