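import Pool.Agent.W_7d29a1_C1.Cnt58
import Pool.Agent.W_7d29a1_C1.Basin76
import Pool.Agent.W_7d29a1_C1.Ctx60

/-!
MP_7d29a1_pr, [C1] attractor route, THE MEETING PROBABILITY OF A TUBE FROM THE CROSS RATIO OF `W μ s`. (helper58)

`hv_of_kW`: the tube condition `Hv` of `Cnt58` for the rows with the step weight `exp (s + h)` is the same inequality for the kernel
`kW μ s η i n`. `hv_of_CR`: it follows from `CR (kW μ s η i n) x x' y y' ≤ 1 + ε` (`RK26`, pinch) with `c = 1 / (1 + ε)`.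
`hv_below`, `hv_above`: in a context, rows on one side of the switch row.
-/

set_option autoImplicit false

namespace Pool.Agent.W_7d29a1_C1.Cnt58

open Finset MeasureTheory
open Pool.Agent.W_7d29a1_F
open Pool.Agent.W_7d29a1_C1.CR76
open Pool.Agent.W_7d29a1_C1.Basin76
open Pool.Agent.W_7d29a1_C1.K91 (wt wt_pos)
open Pool.Agent.W_7d29a1_C1.U16 (ker ker_W)
open Pool.Agent.W_7d29a1_C1.H60

noncomputable section

variable {μ : Measure ℝ} {s h : ℝ}

/-- The condition of the tube is a condition on the kernel `W μ s`. -/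
theorem hv_of_kW (η : Env) {p : ℕ → ℝ} {i n : ℕ} (hp : ∀ k, i ≤ k → k < i + n → p k = Real.exp (s + h)) {c : ℝ} {I O : Finset ℤ}
    (H : ∀ x ∈ I, ∀ y ∈ I, x < y → ∀ u ∈ O, ∀ v ∈ O, u < v →
      c * (kW μ s η i n x u * kW μ s η i n y v) ≤ kW μ s η i n x v * kW μ s η i n y u) : Hv (wt η) p c ⟨i, n, I, O⟩ := by
  intro x hx y hy hxy u hu v hv huv
  show c * (ker (wt η) p i n x u * ker (wt η) p i n y v) ≤ ker (wt η) p i n x v * ker (wt η) p i n y u
  have a1 := ker_W (μ := μ) (s := s) (h := h) η i x n u hp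
  have a2 := ker_W (μ := μ) (s := s) (h := h) η i y n v hp
  have a3 := ker_W (μ := μ) (s := s) (h := h) η i x n v hp
  have a4 := ker_W (μ := μ) (s := s) (h := h) η i y n u hp
  have b1 := wt_pos η (i + n) u
  have b2 := wt_pos η (i + n) v
  have b3 := wt_pos η i x
  have b4 := wt_pos η i y
  have H1 := H x hx y hy hxy u hu v hv huv
  unfold kW at H1
  set E : ℝ := Real.exp (n * lam μ s + h * ((u - x : ℤ) : ℝ)) * Real.exp (n * lam μ s + h * ((v - y : ℤ) : ℝ)) with hE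
  have e1 : Real.exp (n * lam μ s + h * ((v - x : ℤ) : ℝ)) * Real.exp (n * lam μ s + h * ((u - y : ℤ) : ℝ)) = E := by
    rw [hE, ← Real.exp_add, ← Real.exp_add]
    congr 1
    push_cast
    ring
  have e0 : 0 < E := mul_pos (Real.exp_pos _) (Real.exp_pos _)
  have f1 : (c * (ker (wt η) p i n x u * ker (wt η) p i n y v)) * (wt η (i + n) u * wt η (i + n) v) =
      (wt η i x * wt η i y * E) * (c * (W μ s η ((i : ℤ), x) n (u - x) * W μ s η ((i : ℤ), y) n (v - y))) := by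
    calc _ = c * ((ker (wt η) p i n x u * wt η (i + n) u) * (ker (wt η) p i n y v * wt η (i + n) v)) := by ring
      _ = _ := by
        rw [a1, a2, hE]
        ring
  have f2 : (ker (wt η) p i n x v * ker (wt η) p i n y u) * (wt η (i + n) u * wt η (i + n) v) =
      (wt η i x * wt η i y * E) * (W μ s η ((i : ℤ), x) n (v - x) * W μ s η ((i : ℤ), y) n (u - y)) := by
    calc _ = (ker (wt η) p i n x v * wt η (i + n) v) * (ker (wt η) p i n y u * wt η (i + n) u) := by ring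
      _ = _ := by
        rw [a3, a4, ← e1]
        ring
  have f3 : (c * (ker (wt η) p i n x u * ker (wt η) p i n y v)) * (wt η (i + n) u * wt η (i + n) v) ≤
      (ker (wt η) p i n x v * ker (wt η) p i n y u) * (wt η (i + n) u * wt η (i + n) v) := by
    rw [f1, f2]
    exact mul_le_mul_of_nonneg_left H1 (by positivity)
  exact le_of_mul_le_mul_right f3 (mul_pos b1 b2)

/-- The condition of the tube from the cross ratio of the corners. -/
theorem hv_of_CR (η : Env) {p : ℕ → ℝ} {i n : ℕ} (hp : ∀ k, i ≤ k → k < i + n → p k = Real.exp (s + h)) {x x' y y' : ℤ}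
    (h1 : x' ≤ y) (h2 : y' ≤ x + n) {ε : ℝ} (hε : 0 ≤ ε) (hCR : CR (kW μ s η i n) x x' y y' ≤ 1 + ε) {I O : Finset ℤ}
    (hI : I ⊆ Icc x x') (hO : O ⊆ Icc y y') : Hv (wt η) p (1 / (1 + ε)) ⟨i, n, I, O⟩ := by
  refine hv_of_kW (μ := μ) (s := s) (h := h) η hp fun a ha b hb hab u hu v hv huv => ?_
  have ha := mem_Icc.1 (hI ha)
  have hb := mem_Icc.1 (hI hb)
  have hu := mem_Icc.1 (hO hu)
  have hv := mem_Icc.1 (hO hv)
  have hT := TP_kW (μ := μ) (s := s) η i n x x'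
  have e1 : CR (kW μ s η i n) a b u v ≤ 1 + ε :=
    (hT.CR_mono (ya := x) (y := a) (y' := b) (yb := x') (xa := y) (x := u) (x' := v) (xb := y')
      ⟨le_rfl, by omega⟩ ⟨by omega, by omega⟩ ⟨by omega, by omega⟩ ⟨by omega, le_rfl⟩ ⟨h1, by omega⟩ ⟨by omega, by omega⟩
      ⟨by omega, by omega⟩ ⟨by omega, h2⟩ ha.1 hab.le hb.2 hu.1 huv.le hv.2).trans hCR
  have p1 : 0 < kW μ s η i n a v := kW_pos η i (by omega) (by omega)
  have p2 : 0 < kW μ s η i n b u := kW_pos η i (by omega) (by omega)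
  unfold CR at e1
  rw [div_le_iff₀ (mul_pos p1 p2)] at e1
  rw [one_div, inv_mul_le_iff₀ (by linarith)]
  exact e1

/-- Below the switch row. -/
theorem hv_below (Γ : Cx) (η : Env) {i n : ℕ} (hM : i + n ≤ Γ.M) {x x' y y' : ℤ}
    (h1 : x' ≤ y) (h2 : y' ≤ x + n) {ε : ℝ} (hε : 0 ≤ ε) (hCR : CR (kW μ Γ.s η i n) x x' y y' ≤ 1 + ε) {I O : Finset ℤ}
    (hI : I ⊆ Icc x x') (hO : O ⊆ Icc y y') : Hv (wt η) Γ.p (1 / (1 + ε)) ⟨i, n, I, O⟩ :=
  hv_of_CR (μ := μ) (s := Γ.s) (h := Γ.h) η (fun k _ hk => if_pos (show k < Γ.M by omega)) h1 h2 hε hCR hI hO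

/-- Above the switch row. -/
theorem hv_above (Γ : Cx) (η : Env) {i n : ℕ} (hM : Γ.M ≤ i) {x x' y y' : ℤ}
    (h1 : x' ≤ y) (h2 : y' ≤ x + n) {ε : ℝ} (hε : 0 ≤ ε) (hCR : CR (kW μ Γ.s η i n) x x' y y' ≤ 1 + ε) {I O : Finset ℤ}
    (hI : I ⊆ Icc x x') (hO : O ⊆ Icc y y') : Hv (wt η) Γ.p (1 / (1 + ε)) ⟨i, n, I, O⟩ :=
  hv_of_CR (μ := μ) (s := Γ.s) (h := 0) η (fun k hk _ => by rw [add_zero]; exact if_neg (show ¬ k < Γ.M by omega)) h1 h2 hε hCR hI hO

end

end Pool.Agent.W_7d29a1_C1.Cnt58
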