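import Pool.Agent.W_7d29a1_C1.Psi17

/-!
MP_7d29a1_pr, attractor route, the hybrids (helper8). Part A: the second difference of `log (c + e ^ a)` against a Lipschitz weight in
the level `a`: the mass of the balance point times the square of the step.
-/

set_option autoImplicit false

namespace Pool.Agent.W_7d29a1_C1.H8

open MeasureTheory ProbabilityTheory Set
open scoped ENNReal NNReal

noncomputable section

/-- `log (1 + e ^ u)`. -/
def sp (u : ℝ) : ℝ := Real.log (1 + Real.exp u)

/-- `log (1 + e ^ (- |u|))`. -/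
def rr (u : ℝ) : ℝ := Real.log (1 + Real.exp (-|u|))

theorem sp_eq (u : ℝ) : sp u = max u 0 + rr u := by
  unfold sp rr
  rcases le_total 0 u with h | h
  · rw [max_eq_left h, abs_of_nonneg h]
    have e : 1 + Real.exp u = Real.exp u * (1 + Real.exp (-u)) := by
      rw [mul_add, mul_one, ← Real.exp_add]
      simp
      ring
    rw [e, Real.log_mul (Real.exp_pos _).ne' (by positivity), Real.log_exp]
  · rw [max_eq_right h, abs_of_nonpos h]
    simp

theorem continuous_sp : Continuous sp := by
  unfold sp
  exact (continuous_const.add Real.continuous_exp).log fun u => by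
    have := Real.exp_pos u
    exact (by linarith : (0 : ℝ) < 1 + Real.exp u).ne'

theorem continuous_rr : Continuous rr := by
  unfold rr
  exact (continuous_const.add (Real.continuous_exp.comp continuous_abs.neg)).log fun u => by
    have h1 := Real.exp_pos (-|u|)
    exact (show (0 : ℝ) < 1 + Real.exp (-|u|) by linarith).ne'

theorem rr_nonneg (u : ℝ) : 0 ≤ rr u := Real.log_nonneg (by have := Real.exp_pos (-|u|); linarith)

theorem rr_le (u : ℝ) : rr u ≤ Real.exp (-|u|) := by
  unfold rr
  have h := Real.log_le_sub_one_of_pos (show 0 < 1 + Real.exp (-|u|) by positivity)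
  linarith

theorem rr_neg (u : ℝ) : rr (-u) = rr u := by
  unfold rr
  rw [abs_neg]

theorem sp_mono {a b : ℝ} (h : a ≤ b) : sp a ≤ sp b := by
  unfold sp
  exact Real.log_le_log (by positivity) (by linarith [Real.exp_le_exp.2 h])

theorem sp_sub {a b : ℝ} (h : a ≤ b) : sp b ≤ sp a + (b - a) := by
  unfold sp
  have h1 : 1 + Real.exp b ≤ Real.exp (b - a) * (1 + Real.exp a) := by
    rw [mul_add, mul_one, ← Real.exp_add]
    have h2 : (1 : ℝ) ≤ Real.exp (b - a) := Real.one_le_exp (by linarith)
    have h3 : b - a + a = b := by ring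
    rw [h3]
    linarith
  have h4 := Real.log_le_log (by positivity) h1
  rw [Real.log_mul (Real.exp_pos _).ne' (by positivity), Real.log_exp] at h4
  linarith

theorem sp_lip (a b : ℝ) : |sp a - sp b| ≤ |a - b| := by
  rcases le_total a b with h | h
  · rw [abs_sub_comm (sp a), abs_of_nonneg (by linarith [sp_mono h]), abs_sub_comm a, abs_of_nonneg (by linarith)]
    linarith [sp_sub h]
  · rw [abs_of_nonneg (by linarith [sp_mono h]), abs_of_nonneg (by linarith)]
    linarith [sp_sub h]

theorem int_exp_abs : Integrable fun u : ℝ => Real.exp (-|u|) := by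
  have h1 : IntegrableOn (fun u : ℝ => Real.exp (-|u|)) (Ioi 0) :=
    (integrableOn_exp_neg_Ioi 0).congr_fun (fun u hu => by
      show Real.exp (-u) = Real.exp (-|u|)
      rw [abs_of_pos (by exact hu)]) measurableSet_Ioi
  have h2 : IntegrableOn (fun u : ℝ => Real.exp (-|u|)) (Iic 0) := by
    rw [← Measure.map_neg_eq_self (volume : Measure ℝ)]
    have m : MeasurableEmbedding fun x : ℝ => -x := (Homeomorph.neg ℝ).measurableEmbedding
    rw [m.integrableOn_map_iff]
    simp_rw [Function.comp_def, abs_neg, neg_preimage, neg_Iic, neg_zero]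
    exact Iff.mpr integrableOn_Ici_iff_integrableOn_Ioi h1
  have h3 := h2.union h1
  rwa [Iic_union_Ioi, integrableOn_univ] at h3

theorem integral_exp_abs : ∫ u : ℝ, Real.exp (-|u|) = 2 := by
  rw [integral_comp_abs (f := fun u => Real.exp (-u)), integral_exp_neg_Ioi_zero]
  norm_num

theorem int_rr : Integrable rr :=
  int_exp_abs.mono' continuous_rr.aestronglyMeasurable (ae_of_all _ fun u => by
    rw [Real.norm_eq_abs, abs_of_nonneg (rr_nonneg u)]
    exact rr_le u)

theorem integral_rr_le : ∫ u, rr u ≤ 2 := by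
  rw [← integral_exp_abs]
  exact integral_mono int_rr int_exp_abs rr_le

theorem integral_rr_nonneg : 0 ≤ ∫ u, rr u := integral_nonneg rr_nonneg

/-- The hat of half width `|x|`. -/
def hat (x u : ℝ) : ℝ := max (|x| - |u|) 0

theorem hat_nonneg (x u : ℝ) : 0 ≤ hat x u := le_max_right _ _

theorem continuous_hat (x : ℝ) : Continuous (hat x) := by
  unfold hat
  fun_prop

theorem hat_eq_zero {x u : ℝ} (h : |x| ≤ |u|) : hat x u = 0 := max_eq_right (by linarith)

theorem hat_cs (x : ℝ) : HasCompactSupport (hat x) := by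
  refine HasCompactSupport.intro (K := Icc (-|x|) |x|) isCompact_Icc fun u hu => hat_eq_zero ?_
  by_contra hc
  rw [not_le, abs_lt] at hc
  exact hu ⟨hc.1.le, hc.2.le⟩

theorem int_hat (x : ℝ) : Integrable (hat x) := (continuous_hat x).integrable_of_hasCompactSupport (hat_cs x)

theorem integral_hat (x : ℝ) : ∫ u, hat x u = x ^ 2 := by
  have h1 : ∫ u, hat x u = 2 * ∫ u in Ioi (0 : ℝ), max (|x| - u) 0 :=
    integral_comp_abs (f := fun u => max (|x| - u) 0)
  have h2 : ∫ u in Ioi (0 : ℝ), max (|x| - u) 0 = ∫ u in (0 : ℝ)..|x|, (|x| - u) := by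
    rw [intervalIntegral.integral_of_le (abs_nonneg x)]
    have h3 : ∫ u in Ioi (0 : ℝ), max (|x| - u) 0 = ∫ u in Ioi (0 : ℝ), (Ioc 0 |x|).indicator (fun u => |x| - u) u := by
      refine setIntegral_congr_fun measurableSet_Ioi fun u hu => ?_
      have hu' : 0 < u := hu
      by_cases h : u ≤ |x|
      · rw [indicator_of_mem (show u ∈ Ioc 0 |x| from ⟨hu', h⟩)]
        exact max_eq_left (by linarith)
      · rw [indicator_of_notMem (fun hc => h hc.2)]
        exact max_eq_right (by linarith [not_le.1 h])
    rw [h3, setIntegral_indicator measurableSet_Ioc]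
    congr 2
    ext u
    simp only [mem_inter_iff, mem_Ioi, mem_Ioc]
    tauto
  rw [h1, h2, intervalIntegral.integral_sub (by simp) (by simp), intervalIntegral.integral_const, integral_id]
  simp only [sub_zero, smul_eq_mul]
  have h4 := sq_abs x
  nlinarith

/-- A weight in the level: a continuous probability density with compact support and the Lipschitz constant `L`. -/
structure Wgt (g : ℝ → ℝ) (L : ℝ) : Prop where
  cont : Continuous g
  cs : HasCompactSupport g
  nn : ∀ x, 0 ≤ g x
  one : ∫ x, g x = 1
  lip : ∀ x y, |g x - g y| ≤ L * |x - y|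

variable {g : ℝ → ℝ} {L : ℝ}

theorem Wgt.L0 (h : Wgt g L) : 0 ≤ L := by
  have h1 := h.lip 1 0
  have h2 := abs_nonneg (g 1 - g 0)
  simp at h1
  linarith

theorem Wgt.int (h : Wgt g L) : Integrable g := h.cont.integrable_of_hasCompactSupport h.cs

theorem Wgt.int_mul (h : Wgt g L) {f : ℝ → ℝ} (hf : Continuous f) : Integrable fun x => g x * f x :=
  (h.cont.mul hf).integrable_of_hasCompactSupport h.cs.mul_right

theorem Wgt.shift (h : Wgt g L) (b : ℝ) : Wgt (fun x => g (x + b)) L where
  cont := h.cont.comp (continuous_id.add continuous_const)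
  cs := h.cs.comp_homeomorph (Homeomorph.addRight b)
  nn := fun x => h.nn _
  one := by
    rw [integral_add_right_eq_self (fun x => g x)]
    exact h.one
  lip := fun x y => by
    have := h.lip (x + b) (y + b)
    rwa [show x + b - (y + b) = x - y by ring] at this

theorem max_sd (x u : ℝ) : max (u + x) 0 + max (u - x) 0 - 2 * max u 0 = hat x u := by
  unfold hat
  rcases abs_cases x with ⟨h1, h1'⟩ | ⟨h1, h1'⟩ <;> rcases abs_cases u with ⟨h2, h2'⟩ | ⟨h2, h2'⟩ <;> rw [h1, h2] <;>
    rcases max_cases (u + x) 0 with ⟨h3, h3'⟩ | ⟨h3, h3'⟩ <;> rcases max_cases (u - x) 0 with ⟨h4, h4'⟩ | ⟨h4, h4'⟩ <;>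
    rcases max_cases u 0 with ⟨h5, h5'⟩ | ⟨h5, h5'⟩ <;> rw [h3, h4, h5] <;>
    first
    | (rw [max_eq_left (by linarith)]; linarith)
    | (rw [max_eq_right (by linarith)]; linarith)

/-- **The second difference at the balance point `0`.** -/
theorem sd_zero (h : Wgt g L) (x : ℝ) :
    |(∫ u, g u * (sp (u + x) + sp (u - x) - 2 * sp u)) - x ^ 2 * g 0| ≤ L * (4 * |x| + |x| ^ 3) := by
  have hL := h.L0
  have e0 : ∀ u, g u * (sp (u + x) + sp (u - x) - 2 * sp u) =
      g u * hat x u + (g u * rr (u + x) + g u * rr (u - x) - 2 * (g u * rr u)) := by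
    intro u
    rw [sp_eq, sp_eq, sp_eq, ← max_sd]
    ring
  have c1 : Continuous fun u : ℝ => rr (u + x) := continuous_rr.comp (continuous_id.add continuous_const)
  have c2 : Continuous fun u : ℝ => rr (u - x) := continuous_rr.comp (continuous_id.sub continuous_const)
  have i0 := h.int_mul (continuous_hat x)
  have i1 := h.int_mul c1
  have i2 := h.int_mul c2
  have i3 := h.int_mul continuous_rr
  have e1 : ∫ u, g u * (sp (u + x) + sp (u - x) - 2 * sp u) =
      (∫ u, g u * hat x u) + ((∫ u, g u * rr (u + x)) + (∫ u, g u * rr (u - x)) - 2 * ∫ u, g u * rr u) := by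
    simp only [e0]
    have i12 : Integrable fun u => g u * rr (u + x) + g u * rr (u - x) := i1.add i2
    have i4 : Integrable fun u => g u * rr (u + x) + g u * rr (u - x) - 2 * (g u * rr u) := i12.sub (i3.const_mul 2)
    rw [integral_add i0 i4, integral_sub i12 (i3.const_mul 2), integral_add i1 i2, integral_const_mul]
  have e2 : ∫ u, g u * rr (u + x) = ∫ u, g (u - x) * rr u := by
    have := integral_sub_right_eq_self (μ := volume) (fun u => g u * rr (u + x)) x
    rw [← this]
    refine integral_congr_ae (ae_of_all _ fun u => ?_)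
    show g (u - x) * rr (u - x + x) = g (u - x) * rr u
    rw [sub_add_cancel]
  have e3 : ∫ u, g u * rr (u - x) = ∫ u, g (u + x) * rr u := by
    have := integral_add_right_eq_self (μ := volume) (fun u => g u * rr (u - x)) x
    rw [← this]
    refine integral_congr_ae (ae_of_all _ fun u => ?_)
    show g (u + x) * rr (u + x - x) = g (u + x) * rr u
    rw [add_sub_cancel_right]
  have j1 : Integrable fun u => g (u - x) * rr u := by
    have := (h.shift (-x)).int_mul continuous_rr
    simpa only [← sub_eq_add_neg] using this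
  have j2 : Integrable fun u => g (u + x) * rr u := (h.shift x).int_mul continuous_rr
  have b1 : |(∫ u, g u * rr (u + x)) + (∫ u, g u * rr (u - x)) - 2 * ∫ u, g u * rr u| ≤ 4 * L * |x| := by
    have e4 : (∫ u, g u * rr (u + x)) + (∫ u, g u * rr (u - x)) - 2 * ∫ u, g u * rr u =
        ∫ u, (g (u - x) + g (u + x) - 2 * g u) * rr u := by
      have j12 : Integrable fun u => g (u - x) * rr u + g (u + x) * rr u := j1.add j2
      rw [e2, e3, ← integral_add j1 j2, ← integral_const_mul, ← integral_sub j12 (i3.const_mul 2)]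
      refine integral_congr_ae (ae_of_all _ fun u => ?_)
      ring
    rw [e4]
    refine abs_integral_le_integral_abs.trans ?_
    have b2 : ∀ u, |(g (u - x) + g (u + x) - 2 * g u) * rr u| ≤ 2 * L * |x| * rr u := by
      intro u
      rw [abs_mul, abs_of_nonneg (rr_nonneg u)]
      refine mul_le_mul_of_nonneg_right ?_ (rr_nonneg u)
      have k1 := h.lip (u - x) u
      have k2 := h.lip (u + x) u
      rw [show u - x - u = -x by ring, abs_neg] at k1
      rw [show u + x - u = x by ring] at k2
      have k3 : g (u - x) + g (u + x) - 2 * g u = (g (u - x) - g u) + (g (u + x) - g u) := by ring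
      rw [k3]
      refine (abs_add_le _ _).trans ?_
      linarith
    have j3 : Integrable fun u => |(g (u - x) + g (u + x) - 2 * g u) * rr u| := by
      refine Integrable.abs ?_
      refine ((j1.add j2).sub (i3.const_mul 2)).congr (ae_of_all _ fun u => ?_)
      simp only [Pi.add_apply, Pi.sub_apply]
      ring
    calc ∫ u, |(g (u - x) + g (u + x) - 2 * g u) * rr u| ≤ ∫ u, 2 * L * |x| * rr u :=
          integral_mono j3 (int_rr.const_mul _) b2
      _ = 2 * L * |x| * ∫ u, rr u := integral_const_mul _ _
      _ ≤ 2 * L * |x| * 2 := mul_le_mul_of_nonneg_left integral_rr_le (by positivity)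
      _ = 4 * L * |x| := by ring
  have b3 : |(∫ u, g u * hat x u) - x ^ 2 * g 0| ≤ L * |x| ^ 3 := by
    have e5 : (∫ u, g u * hat x u) - x ^ 2 * g 0 = ∫ u, (g u - g 0) * hat x u := by
      rw [← integral_hat x, ← integral_mul_const, ← integral_sub i0 ((int_hat x).mul_const _)]
      refine integral_congr_ae (ae_of_all _ fun u => ?_)
      ring
    rw [e5]
    refine abs_integral_le_integral_abs.trans ?_
    have b4 : ∀ u, |(g u - g 0) * hat x u| ≤ L * |x| * hat x u := by
      intro u
      rw [abs_mul, abs_of_nonneg (hat_nonneg x u)]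
      rcases le_or_gt |x| |u| with hu | hu
      · rw [hat_eq_zero hu]
        simp
      · refine mul_le_mul_of_nonneg_right ?_ (hat_nonneg x u)
        have k1 := h.lip u 0
        rw [sub_zero] at k1
        exact k1.trans (mul_le_mul_of_nonneg_left hu.le hL)
    have j4 : Integrable fun u => |(g u - g 0) * hat x u| := by
      refine Integrable.abs ?_
      refine (i0.sub ((int_hat x).const_mul (g 0))).congr (ae_of_all _ fun u => ?_)
      simp only [Pi.sub_apply]
      ring
    calc ∫ u, |(g u - g 0) * hat x u| ≤ ∫ u, L * |x| * hat x u := integral_mono j4 ((int_hat x).const_mul _) b4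
      _ = L * |x| * ∫ u, hat x u := integral_const_mul _ _
      _ = L * |x| ^ 3 := by rw [integral_hat, ← sq_abs]; ring
  rw [e1]
  have e6 : (∫ u, g u * hat x u) + ((∫ u, g u * rr (u + x)) + (∫ u, g u * rr (u - x)) - 2 * ∫ u, g u * rr u) - x ^ 2 * g 0 =
      ((∫ u, g u * hat x u) - x ^ 2 * g 0) + ((∫ u, g u * rr (u + x)) + (∫ u, g u * rr (u - x)) - 2 * ∫ u, g u * rr u) := by ring
  rw [e6]
  refine (abs_add_le _ _).trans ?_
  linarith

/-- **The second difference at the balance point `b`.** -/
theorem sd_at (h : Wgt g L) (b x : ℝ) :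
    |(∫ u, g u * (sp (u - b + x) + sp (u - b - x) - 2 * sp (u - b))) - x ^ 2 * g b| ≤ L * (4 * |x| + |x| ^ 3) := by
  have h1 := sd_zero (h.shift b) x
  have e := integral_add_right_eq_self (μ := volume)
    (fun u => g u * (sp (u - b + x) + sp (u - b - x) - 2 * sp (u - b))) b
  rw [zero_add] at h1
  rw [← e]
  simpa only [add_sub_cancel_right] using h1

/-! ### The triangle -/

/-- The triangular density of half width `τ`. -/
def tri (τ x : ℝ) : ℝ := hat τ x / τ ^ 2

theorem hat_lip (x u v : ℝ) : |hat x u - hat x v| ≤ |u - v| := by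
  unfold hat
  refine (abs_max_sub_max_le_abs _ _ _).trans ?_
  rw [show |x| - |u| - (|x| - |v|) = -(|u| - |v|) by ring, abs_neg]
  exact abs_abs_sub_abs_le_abs_sub u v

theorem wgt_tri {τ : ℝ} (hτ : 0 < τ) : Wgt (tri τ) (1 / τ ^ 2) where
  cont := (continuous_hat τ).div_const _
  cs := by
    refine HasCompactSupport.intro (K := Icc (-|τ|) |τ|) isCompact_Icc fun u hu => ?_
    have : hat τ u = 0 := hat_eq_zero (by
      by_contra hc
      rw [not_le, abs_lt] at hc
      exact hu ⟨hc.1.le, hc.2.le⟩)
    unfold tri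
    rw [this, zero_div]
  nn := fun x => div_nonneg (hat_nonneg _ _) (sq_nonneg _)
  one := by
    unfold tri
    rw [integral_div, integral_hat]
    exact div_self (by positivity)
  lip := fun x y => by
    unfold tri
    rw [← sub_div, abs_div, abs_of_nonneg (sq_nonneg τ), one_div, div_eq_inv_mul]
    exact mul_le_mul_of_nonneg_left (hat_lip τ x y) (by positivity)

theorem tri_le {τ : ℝ} (hτ : 0 < τ) (x : ℝ) : tri τ x ≤ 1 / τ := by
  unfold tri hat
  rw [abs_of_pos hτ, div_le_div_iff₀ (by positivity) hτ]
  have h1 : max (τ - |x|) 0 ≤ τ := max_le (by linarith [abs_nonneg x]) hτ.le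
  nlinarith

theorem tri_supp {τ x : ℝ} (hτ : 0 < τ) (h : tri τ x ≠ 0) : |x| ≤ τ := by
  by_contra hc
  refine h ?_
  unfold tri
  rw [hat_eq_zero (by rw [abs_of_pos hτ]; exact (not_le.1 hc).le), zero_div]

end

end Pool.Agent.W_7d29a1_C1.H8
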