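import Pool.Agent.W_7d29a1_C1.HybA8

/-!
MP_7d29a1_pr, attractor route, the hybrids (helper8). Part B: one site of the telescope.
-/

set_option autoImplicit false

namespace Pool.Agent.W_7d29a1_C1.H8

open MeasureTheory ProbabilityTheory Set
open scoped ENNReal NNReal

noncomputable section

/-- Lipschitz with constant `1`. -/
def L1 (f : ℝ → ℝ) : Prop := ∀ x y, |f x - f y| ≤ |x - y|

theorem L1.cont {f : ℝ → ℝ} (h : L1 f) : Continuous f := by
  have : LipschitzWith 1 f := LipschitzWith.of_dist_le_mul fun x y => by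
    rw [Real.dist_eq, Real.dist_eq, NNReal.coe_one, one_mul]
    exact h x y
  exact this.continuous

theorem L1.comp {f g : ℝ → ℝ} (h : L1 f) (h' : L1 g) : L1 fun x => f (g x) := fun x y => (h _ _).trans (h' x y)

theorem L1.add_const {f : ℝ → ℝ} (h : L1 f) (c : ℝ) : L1 fun x => f (x + c) := fun x y => by
  have := h (x + c) (y + c)
  rwa [show x + c - (y + c) = x - y by ring] at this

theorem L1.sub_left {f : ℝ → ℝ} (h : L1 f) (c : ℝ) : L1 fun x => f (c - x) := fun x y => by
  have := h (c - x) (c - y)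
  rwa [show c - x - (c - y) = -(x - y) by ring, abs_neg] at this

/-! ### Gaussian facts -/

theorem gauss_int_abs (v : ℝ≥0) : Integrable (fun x : ℝ => |x|) (gaussianReal 0 v) := by
  have h := memLp_id_gaussianReal (μ := 0) (v := v) 1
  exact (h.integrable (by simp)).abs

theorem gauss_int_sq (v : ℝ≥0) : Integrable (fun x : ℝ => x ^ 2) (gaussianReal 0 v) := by
  have h := memLp_id_gaussianReal (μ := 0) (v := v) 2
  have h2 : MemLp (fun x : ℝ => x) 2 (gaussianReal 0 v) := by exact_mod_cast h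
  exact h2.integrable_sq

theorem gauss_int_cube (v : ℝ≥0) : Integrable (fun x : ℝ => |x| ^ 3) (gaussianReal 0 v) := by
  have h := memLp_id_gaussianReal (μ := 0) (v := v) 3
  have h2 : MemLp (fun x : ℝ => x) ((3 : ℕ) : ℝ≥0∞) (gaussianReal 0 v) := by exact_mod_cast h
  have h3 := h2.integrable_norm_pow (by norm_num)
  simpa only [Real.norm_eq_abs] using h3

theorem gauss_sq (v : ℝ≥0) : ∫ x, x ^ 2 ∂(gaussianReal 0 v) = v := by
  have h := variance_fun_id_gaussianReal (μ := 0) (v := v)
  rw [variance_of_integral_eq_zero (by fun_prop) (by simp [integral_id_gaussianReal])] at h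
  exact h

theorem gauss_neg (v : ℝ≥0) (f : ℝ → ℝ) : ∫ x, f (-x) ∂(gaussianReal 0 v) = ∫ x, f x ∂(gaussianReal 0 v) := by
  have h := gaussianReal_map_neg (μ := 0) (v := v)
  rw [neg_zero] at h
  have h2 := (Homeomorph.neg ℝ).measurableEmbedding.integral_map (μ := gaussianReal 0 v) f
  have e : (⇑(Homeomorph.neg ℝ) : ℝ → ℝ) = fun x => -x := rfl
  rw [e, h] at h2
  exact h2.symm

theorem L1.int_gauss {f : ℝ → ℝ} (h : L1 f) (v : ℝ≥0) : Integrable f (gaussianReal 0 v) := by
  refine ((integrable_const |f 0|).add (gauss_int_abs v)).mono' h.cont.aestronglyMeasurable (ae_of_all _ fun x => ?_)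
  rw [Real.norm_eq_abs]
  have h1 := h x 0
  rw [sub_zero] at h1
  have h2 := abs_sub_abs_le_abs_sub (f x) (f 0)
  simp only [Pi.add_apply]
  linarith

/-! ### Averages in the level -/

variable {g : ℝ → ℝ} {L : ℝ}

/-- The average of `f` over the level `l + θ`. -/
def Av (g f : ℝ → ℝ) (l : ℝ) : ℝ := ∫ θ, g θ * f (θ + l)

theorem Av_lip (h : Wgt g L) {f : ℝ → ℝ} (hf : L1 f) : L1 (Av g f) := by
  intro x y
  unfold Av
  have i1 := h.int_mul (hf.add_const x).cont
  have i2 := h.int_mul (hf.add_const y).cont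
  rw [← integral_sub i1 i2]
  refine abs_integral_le_integral_abs.trans ?_
  calc ∫ θ, |g θ * f (θ + x) - g θ * f (θ + y)| ≤ ∫ θ, g θ * |x - y| := by
        refine integral_mono (i1.sub i2).abs (h.int.mul_const _) fun θ => ?_
        show |g θ * f (θ + x) - g θ * f (θ + y)| ≤ g θ * |x - y|
        rw [← mul_sub, abs_mul, abs_of_nonneg (h.nn θ)]
        refine mul_le_mul_of_nonneg_left ?_ (h.nn θ)
        have := hf (θ + x) (θ + y)
        rwa [show θ + x - (θ + y) = x - y by ring] at this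
    _ = |x - y| := by rw [integral_mul_const, h.one, one_mul]

theorem Av_le (h : Wgt g L) {f f' : ℝ → ℝ} (hf : L1 f) (hf' : L1 f') {l l' : ℝ}
    (hh : ∀ θ, g θ ≠ 0 → f (θ + l) ≤ f' (θ + l')) : Av g f l ≤ Av g f' l' := by
  unfold Av
  refine integral_mono (h.int_mul (hf.add_const l).cont) (h.int_mul (hf'.add_const l').cont) fun θ => ?_
  by_cases h0 : g θ = 0
  · show g θ * f (θ + l) ≤ g θ * f' (θ + l')
    rw [h0, zero_mul, zero_mul]
  · exact mul_le_mul_of_nonneg_left (hh θ h0) (h.nn θ)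

/-! ### The mean of the logarithm -/

variable {Ω : Type*} [MeasurableSpace Ω] {ν : Measure Ω} [IsProbabilityMeasure ν]

/-- A positive weight with an integrable logarithm. -/
structure Pl (ν : Measure Ω) (f : Ω → ℝ) : Prop where
  meas : Measurable f
  pos : ∀ ω, 0 < f ω
  int : Integrable (fun ω => Real.log (f ω)) ν

theorem log_add_le {a b : ℝ} (ha : 0 < a) (hb : 0 < b) : |Real.log (a + b)| ≤ |Real.log a| + |Real.log b| + Real.log 2 := by
  have h2 : (0 : ℝ) < Real.log 2 := Real.log_pos (by norm_num)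
  rw [abs_le]
  constructor
  · have h1 := Real.log_le_log ha (show a ≤ a + b by linarith)
    have h3 := neg_abs_le (Real.log a)
    have h4 := abs_nonneg (Real.log b)
    linarith
  · rcases le_total a b with h | h
    · have h1 := Real.log_le_log (by positivity) (show a + b ≤ 2 * b by linarith)
      rw [Real.log_mul (by norm_num) hb.ne'] at h1
      have h3 := le_abs_self (Real.log b)
      have h4 := abs_nonneg (Real.log a)
      linarith
    · have h1 := Real.log_le_log (by positivity) (show a + b ≤ 2 * a by linarith)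
      rw [Real.log_mul (by norm_num) ha.ne'] at h1
      have h3 := le_abs_self (Real.log a)
      have h4 := abs_nonneg (Real.log b)
      linarith

theorem Pl.add {f f' : Ω → ℝ} (h : Pl ν f) (h' : Pl ν f') : Pl ν fun ω => f ω + f' ω where
  meas := h.meas.add h'.meas
  pos := fun ω => add_pos (h.pos ω) (h'.pos ω)
  int := by
    refine ((h.int.abs.add h'.int.abs).add (integrable_const (Real.log 2))).mono'
      (Real.measurable_log.comp (h.meas.add h'.meas)).aestronglyMeasurable (ae_of_all _ fun ω => ?_)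
    rw [Real.norm_eq_abs]
    exact log_add_le (h.pos ω) (h'.pos ω)

theorem Pl.const_mul {f : Ω → ℝ} (h : Pl ν f) {c : ℝ} (hc : 0 < c) : Pl ν fun ω => c * f ω where
  meas := h.meas.const_mul c
  pos := fun ω => mul_pos hc (h.pos ω)
  int := by
    refine ((integrable_const (Real.log c)).add h.int).congr (ae_of_all _ fun ω => ?_)
    simp only [Pi.add_apply]
    rw [Real.log_mul hc.ne' (h.pos ω).ne']

/-- The mean of `log (e ^ x A + C)`. -/
def Lg (ν : Measure Ω) (A C : Ω → ℝ) (x : ℝ) : ℝ := ∫ ω, Real.log (Real.exp x * A ω + C ω) ∂ν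

/-- The two weights: `A > 0`, `C ≥ 0`. -/
structure Cf (ν : Measure Ω) (A C : Ω → ℝ) : Prop where
  hA : Pl ν A
  Cm : Measurable C
  C0 : ∀ ω, 0 ≤ C ω
  int : Integrable (fun ω => Real.log (A ω + C ω)) ν

variable {A C C' : Ω → ℝ}

theorem Cf.of_pos (hA : Pl ν A) (hC : Pl ν C) : Cf ν A C := ⟨hA, hC.meas, fun ω => (hC.pos ω).le, (hA.add hC).int⟩

theorem Cf.zero (hA : Pl ν A) : Cf ν A fun _ => 0 := ⟨hA, measurable_const, fun _ => le_rfl, by simpa using hA.int⟩

theorem logx_mono {a c : ℝ} (ha : 0 < a) (hc : 0 ≤ c) {x y : ℝ} (h : x ≤ y) :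
    Real.log (Real.exp x * a + c) ≤ Real.log (Real.exp y * a + c) := by
  have h1 := mul_pos (Real.exp_pos x) ha
  exact Real.log_le_log (by positivity) (by
    have := mul_le_mul_of_nonneg_right (Real.exp_le_exp.2 h) ha.le
    linarith)

theorem logx_sub {a c : ℝ} (ha : 0 < a) (hc : 0 ≤ c) {x y : ℝ} (h : x ≤ y) :
    Real.log (Real.exp y * a + c) ≤ Real.log (Real.exp x * a + c) + (y - x) := by
  have h1 := mul_pos (Real.exp_pos x) ha
  have h2 : Real.exp y * a + c ≤ Real.exp (y - x) * (Real.exp x * a + c) := by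
    have e : Real.exp y = Real.exp (y - x) * Real.exp x := by rw [← Real.exp_add]; congr 1; ring
    have h3 : (1 : ℝ) ≤ Real.exp (y - x) := Real.one_le_exp (by linarith)
    have h4 := mul_le_mul_of_nonneg_right h3 hc
    rw [e, mul_add]
    linarith [mul_assoc (Real.exp (y - x)) (Real.exp x) a]
  have h5 := Real.log_le_log (by have := mul_pos (Real.exp_pos y) ha; positivity) h2
  rw [Real.log_mul (Real.exp_pos _).ne' (by positivity), Real.log_exp] at h5
  linarith

theorem logx_lip {a c : ℝ} (ha : 0 < a) (hc : 0 ≤ c) (x y : ℝ) :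
    |Real.log (Real.exp x * a + c) - Real.log (Real.exp y * a + c)| ≤ |x - y| := by
  rcases le_total x y with h | h
  · rw [abs_sub_comm, abs_of_nonneg (by linarith [logx_mono ha hc h]), abs_sub_comm x, abs_of_nonneg (by linarith)]
    linarith [logx_sub ha hc h]
  · rw [abs_of_nonneg (by linarith [logx_mono ha hc h]), abs_of_nonneg (by linarith)]
    linarith [logx_sub ha hc h]

theorem Cf.meas (h : Cf ν A C) (x : ℝ) : Measurable fun ω => Real.log (Real.exp x * A ω + C ω) :=
  Real.measurable_log.comp ((h.hA.meas.const_mul _).add h.Cm)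

theorem Cf.intx (h : Cf ν A C) (x : ℝ) : Integrable (fun ω => Real.log (Real.exp x * A ω + C ω)) ν := by
  refine ((integrable_const |x|).add h.int.abs).mono' (h.meas x).aestronglyMeasurable (ae_of_all _ fun ω => ?_)
  rw [Real.norm_eq_abs]
  have h1 := logx_lip (h.hA.pos ω) (h.C0 ω) x 0
  rw [Real.exp_zero, one_mul, sub_zero] at h1
  have h2 := abs_sub_abs_le_abs_sub (Real.log (Real.exp x * A ω + C ω)) (Real.log (A ω + C ω))
  simp only [Pi.add_apply]
  linarith

theorem Cf.lip (h : Cf ν A C) : L1 (Lg ν A C) := by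
  intro x y
  unfold Lg
  rw [← integral_sub (h.intx x) (h.intx y)]
  refine abs_integral_le_integral_abs.trans ?_
  calc ∫ ω, |Real.log (Real.exp x * A ω + C ω) - Real.log (Real.exp y * A ω + C ω)| ∂ν ≤ ∫ _, |x - y| ∂ν :=
        integral_mono ((h.intx x).sub (h.intx y)).abs (integrable_const _) fun ω => logx_lip (h.hA.pos ω) (h.C0 ω) x y
    _ = |x - y| := by simp

theorem Lg_zero (hA : Pl ν A) (x : ℝ) : Lg ν A (fun _ => 0) x = x + ∫ ω, Real.log (A ω) ∂ν := by
  unfold Lg
  have e : ∀ ω, Real.log (Real.exp x * A ω + 0) = x + Real.log (A ω) := fun ω => by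
    rw [add_zero, Real.log_mul (Real.exp_pos _).ne' (hA.pos ω).ne', Real.log_exp]
  simp only [e]
  rw [integral_add (integrable_const _) hA.int]
  simp

/-- The second difference of the mean. -/
theorem Lg_sd (hA : Pl ν A) (hC : Pl ν C) (u x : ℝ) :
    Lg ν A C (u + x) + Lg ν A C (u - x) - 2 * Lg ν A C u =
      ∫ ω, (sp (u - (Real.log (C ω) - Real.log (A ω)) + x) + sp (u - (Real.log (C ω) - Real.log (A ω)) - x) -
        2 * sp (u - (Real.log (C ω) - Real.log (A ω)))) ∂ν := by
  have h := Cf.of_pos hA hC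
  have e : ∀ ω y, Real.log (Real.exp y * A ω + C ω) = Real.log (C ω) + sp (y - (Real.log (C ω) - Real.log (A ω))) := by
    intro ω y
    have hc := hC.pos ω
    have ha := hA.pos ω
    unfold sp
    rw [← Real.log_mul hc.ne' (by positivity)]
    congr 1
    have e1 : y - (Real.log (C ω) - Real.log (A ω)) = y + Real.log (A ω) - Real.log (C ω) := by ring
    rw [e1, Real.exp_sub, Real.exp_add, Real.exp_log ha, Real.exp_log hc]
    field_simp
    ring
  unfold Lg
  have i12 := (h.intx (u + x)).add (h.intx (u - x))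
  have i12' : Integrable (fun ω => Real.log (Real.exp (u + x) * A ω + C ω) + Real.log (Real.exp (u - x) * A ω + C ω)) ν := i12
  rw [← integral_add (h.intx (u + x)) (h.intx (u - x)), ← integral_const_mul,
    ← integral_sub i12' ((h.intx u).const_mul 2)]
  refine integral_congr_ae (ae_of_all _ fun ω => ?_)
  show Real.log (Real.exp (u + x) * A ω + C ω) + Real.log (Real.exp (u - x) * A ω + C ω) -
    2 * Real.log (Real.exp u * A ω + C ω) = _
  rw [e, e, e]
  have e2 : u + x - (Real.log (C ω) - Real.log (A ω)) = u - (Real.log (C ω) - Real.log (A ω)) + x := by ring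
  have e3 : u - x - (Real.log (C ω) - Real.log (A ω)) = u - (Real.log (C ω) - Real.log (A ω)) - x := by ring
  rw [e2, e3]
  ring

/-- The second difference of the averaged mean. -/
theorem Av_sd (h : Wgt g L) (hA : Pl ν A) (hC : Pl ν C) (l x : ℝ) :
    |Av g (Lg ν A C) (l + x) + Av g (Lg ν A C) (l - x) - 2 * Av g (Lg ν A C) l -
      x ^ 2 * ∫ ω, g (Real.log (C ω) - Real.log (A ω) - l) ∂ν| ≤ L * (4 * |x| + |x| ^ 3) := by
  have hc := Cf.of_pos hA hC
  obtain ⟨B, hB⟩ : ∃ B : Ω → ℝ, B = fun ω => Real.log (C ω) - Real.log (A ω) := ⟨_, rfl⟩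
  have mB : Measurable B := by
    rw [hB]
    exact (Real.measurable_log.comp hC.meas).sub (Real.measurable_log.comp hA.meas)
  obtain ⟨S, hS⟩ : ∃ S : ℝ → ℝ → ℝ, S = fun u b => sp (u - b + x) + sp (u - b - x) - 2 * sp (u - b) := ⟨_, rfl⟩
  have cS : Continuous fun z : ℝ × ℝ => S z.1 z.2 := by
    rw [hS]
    have k1 : Continuous fun z : ℝ × ℝ => sp (z.1 - z.2 + x) := continuous_sp.comp (by fun_prop)
    have k2 : Continuous fun z : ℝ × ℝ => sp (z.1 - z.2 - x) := continuous_sp.comp (by fun_prop)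
    have k3 : Continuous fun z : ℝ × ℝ => sp (z.1 - z.2) := continuous_sp.comp (by fun_prop)
    exact (k1.add k2).sub (k3.const_mul 2)
  have bS : ∀ u b, |S u b| ≤ 2 * |x| := by
    intro u b
    rw [hS]
    have k1 := sp_lip (u - b + x) (u - b)
    have k2 := sp_lip (u - b - x) (u - b)
    rw [show u - b + x - (u - b) = x by ring] at k1
    rw [show u - b - x - (u - b) = -x by ring, abs_neg] at k2
    show |sp (u - b + x) + sp (u - b - x) - 2 * sp (u - b)| ≤ 2 * |x|
    rw [show sp (u - b + x) + sp (u - b - x) - 2 * sp (u - b) = (sp (u - b + x) - sp (u - b)) + (sp (u - b - x) - sp (u - b)) by ring]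
    refine (abs_add_le _ _).trans ?_
    linarith
  have e1 : Av g (Lg ν A C) (l + x) + Av g (Lg ν A C) (l - x) - 2 * Av g (Lg ν A C) l =
      ∫ θ, g θ * ∫ ω, S (θ + l) (B ω) ∂ν := by
    unfold Av
    have i1 := h.int_mul (hc.lip.add_const (l + x)).cont
    have i2 := h.int_mul (hc.lip.add_const (l - x)).cont
    have i3 := h.int_mul (hc.lip.add_const l).cont
    have i12 : Integrable fun θ => g θ * Lg ν A C (θ + (l + x)) + g θ * Lg ν A C (θ + (l - x)) := i1.add i2
    rw [← integral_add i1 i2, ← integral_const_mul, ← integral_sub i12 (i3.const_mul 2)]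
    refine integral_congr_ae (ae_of_all _ fun θ => ?_)
    show g θ * Lg ν A C (θ + (l + x)) + g θ * Lg ν A C (θ + (l - x)) - 2 * (g θ * Lg ν A C (θ + l)) =
      g θ * ∫ ω, S (θ + l) (B ω) ∂ν
    have e2 := Lg_sd hA hC (θ + l) x
    rw [hS, hB]
    simp only
    rw [← e2, show θ + (l + x) = θ + l + x by ring, show θ + (l - x) = θ + l - x by ring]
    ring
  have e3 : ∫ θ, g θ * ∫ ω, S (θ + l) (B ω) ∂ν = ∫ ω, (∫ θ, g θ * S (θ + l) (B ω)) ∂ν := by
    have e4 : ∀ θ, g θ * ∫ ω, S (θ + l) (B ω) ∂ν = ∫ ω, g θ * S (θ + l) (B ω) ∂ν := fun θ => (integral_const_mul _ _).symm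
    simp only [e4]
    refine integral_integral_swap ?_
    have m1 : Measurable fun z : ℝ × Ω => g z.1 * S (z.1 + l) (B z.2) := by
      refine (h.cont.measurable.comp measurable_fst).mul ?_
      exact cS.measurable.comp ((measurable_fst.add_const l).prodMk (mB.comp measurable_snd))
    refine (((h.int.mul_const (2 * |x|)).comp_fst ν)).mono' m1.aestronglyMeasurable (ae_of_all _ fun z => ?_)
    rw [Real.norm_eq_abs]
    show |g z.1 * S (z.1 + l) (B z.2)| ≤ g z.1 * (2 * |x|)
    rw [abs_mul, abs_of_nonneg (h.nn _)]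
    exact mul_le_mul_of_nonneg_left (bS _ _) (h.nn _)
  have e5 : ∀ ω, ∫ θ, g θ * S (θ + l) (B ω) = ∫ θ, g θ * (sp (θ - (B ω - l) + x) + sp (θ - (B ω - l) - x) - 2 * sp (θ - (B ω - l))) := by
    intro ω
    refine integral_congr_ae (ae_of_all _ fun θ => ?_)
    rw [hS]
    show g θ * (sp (θ + l - B ω + x) + sp (θ + l - B ω - x) - 2 * sp (θ + l - B ω)) = _
    rw [show θ + l - B ω = θ - (B ω - l) by ring]
  have hb : ∀ ω, |(∫ θ, g θ * S (θ + l) (B ω)) - x ^ 2 * g (B ω - l)| ≤ L * (4 * |x| + |x| ^ 3) := by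
    intro ω
    rw [e5]
    exact sd_at h (B ω - l) x
  have bg : ∃ K, ∀ u, |g u| ≤ K := by
    obtain ⟨K, hK⟩ := h.cs.exists_bound_of_continuous h.cont
    exact ⟨K, fun u => by simpa [Real.norm_eq_abs] using hK u⟩
  obtain ⟨K, hK⟩ := bg
  have ig : Integrable (fun ω => g (B ω - l)) ν :=
    (integrable_const K).mono' (h.cont.measurable.comp (mB.sub_const l)).aestronglyMeasurable
      (ae_of_all _ fun ω => by rw [Real.norm_eq_abs]; exact hK _)
  have mS : StronglyMeasurable fun z : Ω × ℝ => g z.2 * S (z.2 + l) (B z.1) := by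
    refine Measurable.stronglyMeasurable ?_
    refine (h.cont.measurable.comp measurable_snd).mul ?_
    exact cS.measurable.comp ((measurable_snd.add_const l).prodMk (mB.comp measurable_fst))
  have iS : Integrable (fun ω => ∫ θ, g θ * S (θ + l) (B ω)) ν := by
    refine (integrable_const (2 * |x|)).mono' (mS.integral_prod_right').aestronglyMeasurable (ae_of_all _ fun ω => ?_)
    rw [Real.norm_eq_abs]
    refine abs_integral_le_integral_abs.trans ?_
    calc ∫ θ, |g θ * S (θ + l) (B ω)| ≤ ∫ θ, g θ * (2 * |x|) := by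
          refine integral_mono_of_nonneg (ae_of_all _ fun θ => abs_nonneg _) (h.int.mul_const _) (ae_of_all _ fun θ => ?_)
          show |g θ * S (θ + l) (B ω)| ≤ g θ * (2 * |x|)
          rw [abs_mul, abs_of_nonneg (h.nn _)]
          exact mul_le_mul_of_nonneg_left (bS _ _) (h.nn _)
      _ = 2 * |x| := by rw [integral_mul_const, h.one, one_mul]
  have e6 : (∫ ω, g (Real.log (C ω) - Real.log (A ω) - l) ∂ν) = ∫ ω, g (B ω - l) ∂ν := by rw [hB]
  rw [e1, e3, e6, ← integral_const_mul, ← integral_sub iS (ig.const_mul _)]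
  refine abs_integral_le_integral_abs.trans ?_
  calc ∫ ω, |(∫ θ, g θ * S (θ + l) (B ω)) - x ^ 2 * g (B ω - l)| ∂ν ≤ ∫ _, L * (4 * |x| + |x| ^ 3) ∂ν :=
        integral_mono (iS.sub (ig.const_mul _)).abs (integrable_const _) hb
    _ = L * (4 * |x| + |x| ^ 3) := by simp

/-- The error of the Gaussian step. -/
def gerr (v : ℝ≥0) (L : ℝ) : ℝ := L / 2 * (4 * (∫ x, |x| ∂(gaussianReal 0 v)) + ∫ x, |x| ^ 3 ∂(gaussianReal 0 v))

/-- **The Gaussian step.** -/
theorem gstep (h : Wgt g L) (hA : Pl ν A) (hC : Pl ν C) (v : ℝ≥0) (l : ℝ) :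
    |(∫ x, Av g (Lg ν A C) (l - x) ∂(gaussianReal 0 v)) - Av g (Lg ν A C) l -
      v / 2 * ∫ ω, g (Real.log (C ω) - Real.log (A ω) - l) ∂ν| ≤ gerr v L := by
  have hL := h.L0
  have hc := (Cf.of_pos hA hC).lip
  obtain ⟨G, hG⟩ : ∃ G : ℝ → ℝ, G = Av g (Lg ν A C) := ⟨_, rfl⟩
  have lG : L1 G := by rw [hG]; exact Av_lip h hc
  obtain ⟨q, hq⟩ : ∃ q : ℝ, q = ∫ ω, g (Real.log (C ω) - Real.log (A ω) - l) ∂ν := ⟨_, rfl⟩
  have hsd : ∀ x, |G (l + x) + G (l - x) - 2 * G l - x ^ 2 * q| ≤ L * (4 * |x| + |x| ^ 3) := by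
    intro x
    rw [hG, hq]
    exact Av_sd h hA hC l x
  rw [← hG, ← hq]
  have i1 : Integrable (fun x => G (l - x)) (gaussianReal 0 v) := (lG.sub_left l).int_gauss v
  have i2 : Integrable (fun x => G (l + x)) (gaussianReal 0 v) := by
    have := (lG.add_const l).int_gauss v
    simpa only [add_comm] using this
  have e1 : ∫ x, G (l + x) ∂(gaussianReal 0 v) = ∫ x, G (l - x) ∂(gaussianReal 0 v) := by
    have := gauss_neg v fun x => G (l + x)
    rw [← this]
    rfl
  have i3 : Integrable (fun x : ℝ => x ^ 2 * q) (gaussianReal 0 v) := (gauss_int_sq v).mul_const q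
  have i12 : Integrable (fun x => G (l + x) + G (l - x)) (gaussianReal 0 v) := i2.add i1
  have i123 : Integrable (fun x => G (l + x) + G (l - x) - 2 * G l) (gaussianReal 0 v) := i12.sub (integrable_const _)
  have e2 : (∫ x, G (l - x) ∂(gaussianReal 0 v)) - G l - v / 2 * q =
      1 / 2 * ∫ x, (G (l + x) + G (l - x) - 2 * G l - x ^ 2 * q) ∂(gaussianReal 0 v) := by
    have k1 : ∫ x, x ^ 2 * q ∂(gaussianReal 0 v) = v * q := by rw [integral_mul_const, gauss_sq]
    have k2 : ∫ _, 2 * G l ∂(gaussianReal 0 v) = 2 * G l := by simp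
    rw [integral_sub i123 i3, integral_sub i12 (integrable_const _), integral_add i2 i1, e1, k1, k2]
    ring
  rw [e2, abs_mul, abs_of_pos (by norm_num : (0 : ℝ) < 1 / 2)]
  have i4 : Integrable (fun x : ℝ => L * (4 * |x| + |x| ^ 3)) (gaussianReal 0 v) :=
    (((gauss_int_abs v).const_mul 4).add (gauss_int_cube v)).const_mul L
  have h5 : |∫ x, (G (l + x) + G (l - x) - 2 * G l - x ^ 2 * q) ∂(gaussianReal 0 v)| ≤
      ∫ x, L * (4 * |x| + |x| ^ 3) ∂(gaussianReal 0 v) :=
    abs_integral_le_integral_abs.trans (integral_mono (i123.sub i3).abs i4 hsd)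
  have e6 : ∫ x, L * (4 * |x| + |x| ^ 3) ∂(gaussianReal 0 v) =
      L * (4 * (∫ x, |x| ∂(gaussianReal 0 v)) + ∫ x, |x| ^ 3 ∂(gaussianReal 0 v)) := by
    rw [integral_const_mul, integral_add ((gauss_int_abs v).const_mul 4) (gauss_int_cube v), integral_const_mul]
  rw [e6] at h5
  unfold gerr
  linarith

/-- **One site**: the gap `1` system at the level `l` against the gap `0` system after the Gaussian step. -/
theorem step8 (h : Wgt g L) (hA : Pl ν A) (hC : Pl ν C) (hC' : Pl ν C') (v : ℝ≥0) {e : ℝ}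
    (hLM : ∀ a0, |(∫ a, g (a - a0) * (Lg ν A C' a - Lg ν A C a)) -
      v / 2 * ∫ ω, g (Real.log (C ω) - Real.log (A ω) - a0) ∂ν| ≤ e) (l : ℝ) :
    |Av g (Lg ν A C') l - ∫ x, Av g (Lg ν A C) (l - x) ∂(gaussianReal 0 v)| ≤ e + gerr v L := by
  have h1 := gstep h hA hC v l
  have h2 := hLM l
  have hc := (Cf.of_pos hA hC).lip
  have hc' := (Cf.of_pos hA hC').lip
  have e1 : ∫ a, g (a - l) * (Lg ν A C' a - Lg ν A C a) = Av g (Lg ν A C') l - Av g (Lg ν A C) l := by
    unfold Av
    rw [← integral_sub (h.int_mul (hc'.add_const l).cont) (h.int_mul (hc.add_const l).cont)]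
    have := integral_add_right_eq_self (μ := volume) (fun a => g (a - l) * (Lg ν A C' a - Lg ν A C a)) l
    rw [← this]
    refine integral_congr_ae (ae_of_all _ fun θ => ?_)
    show g (θ + l - l) * (Lg ν A C' (θ + l) - Lg ν A C (θ + l)) = g θ * Lg ν A C' (θ + l) - g θ * Lg ν A C (θ + l)
    rw [add_sub_cancel_right]
    ring
  rw [e1] at h2
  rw [abs_le] at h1 h2 ⊢
  constructor <;> linarith [h1.1, h1.2, h2.1, h2.2]

end

end Pool.Agent.W_7d29a1_C1.H8
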