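import Pool.Agent.W_7d29a1_C1.HybB8

/-!
MP_7d29a1_pr, attractor route, the hybrids (helper8). Part C: the telescope. The masses of the past are deterministic. SIGN TRICK: a
level `θ ≥ 0` in front of the left group can only raise the next hybrid, `θ ≤ 0` can only lower it, so the smoothing in `θ` costs
`O(τ)` in all, and no smoothness of the level of the left group is needed.
-/

set_option autoImplicit false

namespace Pool.Agent.W_7d29a1_C1.H8

open MeasureTheory ProbabilityTheory Set Finset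
open scoped ENNReal NNReal

noncomputable section

variable {g : ℝ → ℝ} {L : ℝ}
variable {Ω : Type*} [MeasurableSpace Ω] {ν : Measure Ω} [IsProbabilityMeasure ν]

/-- The right group, gap `1`: the masses `p j` at the sites `j + 1`. -/
def C1 (R : ℕ → Ω → ℝ) (k : ℕ) (p : ℕ → ℝ) (ω : Ω) : ℝ := ∑ j ∈ range k, p j * R (j + 1) ω

/-- The right group, gap `0`: the masses `p j` at the sites `j`. -/
def C0 (R : ℕ → Ω → ℝ) (k : ℕ) (p : ℕ → ℝ) (ω : Ω) : ℝ := ∑ j ∈ range k, p j * R j ω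

/-- The masses without the first one. -/
def tl (p : ℕ → ℝ) : ℕ → ℝ := fun j => p (j + 1)

theorem C0_succ (R : ℕ → Ω → ℝ) (k : ℕ) (p : ℕ → ℝ) (ω : Ω) : C0 R (k + 1) p ω = p 0 * R 0 ω + C1 R k (tl p) ω := by
  unfold C0 C1 tl
  rw [Finset.sum_range_succ']
  ring

theorem pl_sum {R : ℕ → Ω → ℝ} (hR : ∀ j, Pl ν (R j)) : ∀ (k : ℕ) (p : ℕ → ℝ), (∀ j, j < k + 1 → 0 < p j) →
    Pl ν fun ω => ∑ j ∈ range (k + 1), p j * R j ω
  | 0, p, hp => by
    have := (hR 0).const_mul (hp 0 (by omega))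
    simpa using this
  | k + 1, p, hp => by
    have h1 := pl_sum hR k p fun j hj => hp j (by omega)
    have h2 := (hR (k + 1)).const_mul (hp (k + 1) (by omega))
    have h3 := h1.add h2
    simpa only [Finset.sum_range_succ _ (k + 1)] using h3

theorem pl_C0 {R : ℕ → Ω → ℝ} (hR : ∀ j, Pl ν (R j)) {k : ℕ} {p : ℕ → ℝ} (hp : ∀ j, j < k + 1 → 0 < p j) :
    Pl ν (C0 R (k + 1) p) := pl_sum hR k p hp

theorem pl_C1 {R : ℕ → Ω → ℝ} (hR : ∀ j, Pl ν (R j)) {k : ℕ} {p : ℕ → ℝ} (hp : ∀ j, j < k + 1 → 0 < p j) :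
    Pl ν (C1 R (k + 1) p) := pl_sum (R := fun j => R (j + 1)) (fun j => hR (j + 1)) k p hp

theorem cf_C1 {R : ℕ → Ω → ℝ} (hR : ∀ j, Pl ν (R j)) {k : ℕ} {p : ℕ → ℝ} (hp : ∀ j, j < k → 0 < p j) :
    Cf ν (R 0) (C1 R k p) := by
  rcases k with _ | k
  · have e : C1 R 0 p = fun _ => 0 := by
      funext ω
      simp [C1]
    rw [e]
    exact Cf.zero (hR 0)
  · exact Cf.of_pos (hR 0) (pl_C1 hR hp)

/-- The mean level of the left group after the last site, if it starts at `l`: the walk steps are Gaussian. -/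
def val (v : ℝ≥0) : ℕ → (ℕ → ℝ) → ℝ → ℝ
  | 0, _, l => l
  | k + 1, p, l => ∫ x, val v k (tl p) (Real.log (p 0 + Real.exp (l - x))) ∂(gaussianReal 0 v)

theorem val_zero (v : ℝ≥0) (p : ℕ → ℝ) (l : ℝ) : val v 0 p l = l := rfl

theorem val_succ (v : ℝ≥0) (k : ℕ) (p : ℕ → ℝ) (l : ℝ) :
    val v (k + 1) p l = ∫ x, val v k (tl p) (Real.log (p 0 + Real.exp (l - x))) ∂(gaussianReal 0 v) := rfl

theorem L1_next {c : ℝ} (hc : 0 ≤ c) : L1 fun x => Real.log (c + Real.exp x) := by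
  intro x y
  have h := logx_lip (a := 1) (c := c) one_pos hc x y
  rw [mul_one, mul_one, add_comm _ c, add_comm _ c] at h
  exact h

theorem val_lip (v : ℝ≥0) : ∀ (k : ℕ) (p : ℕ → ℝ), (∀ j, j < k → 0 < p j) → L1 (val v k p)
  | 0, p, _ => fun x y => le_rfl
  | k + 1, p, hp => by
    have ih := val_lip v k (tl p) fun j hj => hp (j + 1) (by omega)
    have hc := (hp 0 (by omega)).le
    have key : ∀ l, L1 fun x => val v k (tl p) (Real.log (p 0 + Real.exp (l - x))) := fun l =>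
      ih.comp ((L1_next hc).sub_left l)
    intro x y
    rw [val_succ, val_succ, ← integral_sub ((key x).int_gauss v) ((key y).int_gauss v)]
    refine abs_integral_le_integral_abs.trans ?_
    calc ∫ u, |val v k (tl p) (Real.log (p 0 + Real.exp (x - u))) - val v k (tl p) (Real.log (p 0 + Real.exp (y - u)))| ∂(gaussianReal 0 v)
        ≤ ∫ _, |x - y| ∂(gaussianReal 0 v) := by
          refine integral_mono (((key x).int_gauss v).sub ((key y).int_gauss v)).abs (integrable_const _) fun u => ?_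
          have h1 := (ih.comp (L1_next hc)) (x - u) (y - u)
          rwa [show x - u - (y - u) = x - y by ring] at h1
      _ = |x - y| := by simp

/-- The comparison of the gap `1` and the gap `0` systems at one site. -/
def LMs (ν : Measure Ω) (g : ℝ → ℝ) (v : ℝ≥0) (R : ℕ → Ω → ℝ) (k : ℕ) (p : ℕ → ℝ) (e : ℝ) : Prop :=
  ∀ a0, |(∫ a, g (a - a0) * (Lg ν (R 0) (C1 R k p) a - Lg ν (R 0) (C0 R k p) a)) -
    v / 2 * ∫ ω, g (Real.log (C0 R k p ω) - Real.log (R 0 ω) - a0) ∂ν| ≤ e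

/-- The masses from the index `z` on. -/
def dr (z : ℕ) (p : ℕ → ℝ) : ℕ → ℝ := fun j => p (z + j)

theorem dr_zero (p : ℕ → ℝ) : dr 0 p = p := by
  funext j
  simp [dr]

theorem dr_tl (z : ℕ) (p : ℕ → ℝ) : dr z (tl p) = dr (z + 1) p := by
  funext j
  simp only [dr, tl]
  congr 1
  omega

/-- **The telescope, upper half**: the weight lives on `θ ≥ 0`. -/
theorem tel_up (h : Wgt g L) (hs : ∀ θ, g θ ≠ 0 → 0 ≤ θ) (v : ℝ≥0) {R : ℕ → Ω → ℝ} (hR : ∀ j, Pl ν (R j)) :
    ∀ (k : ℕ) (p : ℕ → ℝ) (e : ℕ → ℝ), (∀ j, j < k → 0 < p j) →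
    (∀ z, z < k → LMs ν g v R (k - z) (dr z p) (e z)) → ∀ l,
    Av g (Lg ν (R 0) (C1 R k p)) l ≤
      (∫ θ, g θ * θ) + val v k p l + (∫ ω, Real.log (R 0 ω) ∂ν) + ∑ z ∈ range k, (e z + gerr v L)
  | 0, p, e, _, _, l => by
    have e0 : C1 R 0 p = fun _ => 0 := by
      funext ω
      simp [C1]
    rw [e0, val_zero]
    unfold Av
    have e1 : ∀ θ, g θ * Lg ν (R 0) (fun _ => 0) (θ + l) = g θ * θ + g θ * (l + ∫ ω, Real.log (R 0 ω) ∂ν) := by
      intro θ
      rw [Lg_zero (hR 0)]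
      ring
    simp only [e1]
    have i1 : Integrable fun θ => g θ * θ := h.int_mul continuous_id
    rw [integral_add i1 (h.int.mul_const _), integral_mul_const, h.one]
    simp
    linarith
  | k + 1, p, e, hp, hLM, l => by
    have hp' : ∀ j, j < k → 0 < tl p j := fun j hj => hp (j + 1) (by omega)
    have hp0 := hp 0 (by omega)
    have ih := tel_up h hs v hR k (tl p) (fun z => e (z + 1)) hp' (fun z hz => by
      have := hLM (z + 1) (by omega)
      rw [dr_tl]
      rwa [show k + 1 - (z + 1) = k - z by omega] at this)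
    have h0 := hLM 0 (by omega)
    rw [dr_zero, Nat.sub_zero] at h0
    have hst := step8 h (hR 0) (pl_C0 hR hp) (pl_C1 hR hp) v h0 l
    have hc0 := (Cf.of_pos (hR 0) (pl_C0 hR hp)).lip
    have hc1 := (cf_C1 hR hp').lip
    have hv := val_lip v k (tl p) hp'
    obtain ⟨K, hK⟩ : ∃ K : ℝ, K = (∫ θ, g θ * θ) + (∫ ω, Real.log (R 0 ω) ∂ν) + ∑ z ∈ range k, (e (z + 1) + gerr v L) := ⟨_, rfl⟩
    have hx : ∀ x, Av g (Lg ν (R 0) (C0 R (k + 1) p)) (l - x) ≤ val v k (tl p) (Real.log (p 0 + Real.exp (l - x))) + K := by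
      intro x
      have h1 : Av g (Lg ν (R 0) (C0 R (k + 1) p)) (l - x) ≤
          Av g (Lg ν (R 0) (C1 R k (tl p))) (Real.log (p 0 + Real.exp (l - x))) := by
        refine Av_le h hc0 hc1 fun θ hθ => ?_
        have hθ0 := hs θ hθ
        unfold Lg
        refine integral_mono ((Cf.of_pos (hR 0) (pl_C0 hR hp)).intx _) ((cf_C1 hR hp').intx _) fun ω => ?_
        show Real.log (Real.exp (θ + (l - x)) * R 0 ω + C0 R (k + 1) p ω) ≤
          Real.log (Real.exp (θ + Real.log (p 0 + Real.exp (l - x))) * R 0 ω + C1 R k (tl p) ω)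
        have r0 := (hR 0).pos ω
        have c0 := (pl_C0 hR hp).pos ω
        refine Real.log_le_log (by positivity) ?_
        rw [C0_succ, Real.exp_add θ (Real.log _), Real.exp_log (by positivity), Real.exp_add]
        have h2 : 1 ≤ Real.exp θ := Real.one_le_exp hθ0
        have h3 : 0 ≤ p 0 * R 0 ω := by positivity
        nlinarith
      have h2 := ih (Real.log (p 0 + Real.exp (l - x)))
      rw [hK]
      linarith
    have i1 : Integrable (fun x => Av g (Lg ν (R 0) (C0 R (k + 1) p)) (l - x)) (gaussianReal 0 v) :=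
      ((Av_lip h hc0).sub_left l).int_gauss v
    have i2 : Integrable (fun x => val v k (tl p) (Real.log (p 0 + Real.exp (l - x)))) (gaussianReal 0 v) :=
      (hv.comp ((L1_next hp0.le).sub_left l)).int_gauss v
    have h3 : ∫ x, Av g (Lg ν (R 0) (C0 R (k + 1) p)) (l - x) ∂(gaussianReal 0 v) ≤ val v (k + 1) p l + K := by
      rw [val_succ]
      calc _ ≤ ∫ x, (val v k (tl p) (Real.log (p 0 + Real.exp (l - x))) + K) ∂(gaussianReal 0 v) :=
            integral_mono i1 (i2.add (integrable_const K)) hx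
        _ = _ := by
            rw [integral_add i2 (integrable_const K)]
            simp
    have h4 := (abs_le.1 hst).2
    rw [Finset.sum_range_succ']
    rw [hK] at h3
    linarith

/-- **The telescope, lower half**: the weight lives on `θ ≤ 0`. -/
theorem tel_low (h : Wgt g L) (hs : ∀ θ, g θ ≠ 0 → θ ≤ 0) (v : ℝ≥0) {R : ℕ → Ω → ℝ} (hR : ∀ j, Pl ν (R j)) :
    ∀ (k : ℕ) (p : ℕ → ℝ) (e : ℕ → ℝ), (∀ j, j < k → 0 < p j) →
    (∀ z, z < k → LMs ν g v R (k - z) (dr z p) (e z)) → ∀ l,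
    (∫ θ, g θ * θ) + val v k p l + (∫ ω, Real.log (R 0 ω) ∂ν) - ∑ z ∈ range k, (e z + gerr v L) ≤
      Av g (Lg ν (R 0) (C1 R k p)) l
  | 0, p, e, _, _, l => by
    have e0 : C1 R 0 p = fun _ => 0 := by
      funext ω
      simp [C1]
    rw [e0, val_zero]
    unfold Av
    have e1 : ∀ θ, g θ * Lg ν (R 0) (fun _ => 0) (θ + l) = g θ * θ + g θ * (l + ∫ ω, Real.log (R 0 ω) ∂ν) := by
      intro θ
      rw [Lg_zero (hR 0)]
      ring
    simp only [e1]
    have i1 : Integrable fun θ => g θ * θ := h.int_mul continuous_id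
    rw [integral_add i1 (h.int.mul_const _), integral_mul_const, h.one]
    simp
    linarith
  | k + 1, p, e, hp, hLM, l => by
    have hp' : ∀ j, j < k → 0 < tl p j := fun j hj => hp (j + 1) (by omega)
    have hp0 := hp 0 (by omega)
    have ih := tel_low h hs v hR k (tl p) (fun z => e (z + 1)) hp' (fun z hz => by
      have := hLM (z + 1) (by omega)
      rw [dr_tl]
      rwa [show k + 1 - (z + 1) = k - z by omega] at this)
    have h0 := hLM 0 (by omega)
    rw [dr_zero, Nat.sub_zero] at h0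
    have hst := step8 h (hR 0) (pl_C0 hR hp) (pl_C1 hR hp) v h0 l
    have hc0 := (Cf.of_pos (hR 0) (pl_C0 hR hp)).lip
    have hc1 := (cf_C1 hR hp').lip
    have hv := val_lip v k (tl p) hp'
    obtain ⟨K, hK⟩ : ∃ K : ℝ, K = (∫ θ, g θ * θ) + (∫ ω, Real.log (R 0 ω) ∂ν) - ∑ z ∈ range k, (e (z + 1) + gerr v L) := ⟨_, rfl⟩
    have hx : ∀ x, val v k (tl p) (Real.log (p 0 + Real.exp (l - x))) + K ≤ Av g (Lg ν (R 0) (C0 R (k + 1) p)) (l - x) := by
      intro x
      have h1 : Av g (Lg ν (R 0) (C1 R k (tl p))) (Real.log (p 0 + Real.exp (l - x))) ≤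
          Av g (Lg ν (R 0) (C0 R (k + 1) p)) (l - x) := by
        refine Av_le h hc1 hc0 fun θ hθ => ?_
        have hθ0 := hs θ hθ
        unfold Lg
        refine integral_mono ((cf_C1 hR hp').intx _) ((Cf.of_pos (hR 0) (pl_C0 hR hp)).intx _) fun ω => ?_
        show Real.log (Real.exp (θ + Real.log (p 0 + Real.exp (l - x))) * R 0 ω + C1 R k (tl p) ω) ≤
          Real.log (Real.exp (θ + (l - x)) * R 0 ω + C0 R (k + 1) p ω)
        have r0 := (hR 0).pos ω
        have c0 := (cf_C1 hR hp').C0 ω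
        refine Real.log_le_log (by positivity) ?_
        rw [C0_succ, Real.exp_add θ (Real.log _), Real.exp_log (by positivity), Real.exp_add]
        have h2 : Real.exp θ ≤ 1 := Real.exp_le_one_iff.2 hθ0
        have h3 : 0 ≤ p 0 * R 0 ω := by positivity
        nlinarith
      have h2 := ih (Real.log (p 0 + Real.exp (l - x)))
      rw [hK]
      linarith
    have i1 : Integrable (fun x => Av g (Lg ν (R 0) (C0 R (k + 1) p)) (l - x)) (gaussianReal 0 v) :=
      ((Av_lip h hc0).sub_left l).int_gauss v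
    have i2 : Integrable (fun x => val v k (tl p) (Real.log (p 0 + Real.exp (l - x)))) (gaussianReal 0 v) :=
      (hv.comp ((L1_next hp0.le).sub_left l)).int_gauss v
    have h3 : val v (k + 1) p l + K ≤ ∫ x, Av g (Lg ν (R 0) (C0 R (k + 1) p)) (l - x) ∂(gaussianReal 0 v) := by
      rw [val_succ]
      calc _ = ∫ x, (val v k (tl p) (Real.log (p 0 + Real.exp (l - x))) + K) ∂(gaussianReal 0 v) := by
            rw [integral_add i2 (integrable_const K)]
            simp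
        _ ≤ _ := integral_mono (i2.add (integrable_const K)) i1 hx
    have h4 := (abs_le.1 hst).1
    rw [Finset.sum_range_succ']
    rw [hK] at h3
    linarith

/-- The free energy of the masses `p 0, …, p k` is the left site `p 0` with the right group. -/
theorem C0_full {R : ℕ → Ω → ℝ} (hR : ∀ j, Pl ν (R j)) {k : ℕ} {p : ℕ → ℝ} (hp : ∀ j, j < k + 1 → 0 < p j) :
    Lg ν (R 0) (C1 R k (tl p)) (Real.log (p 0)) = ∫ ω, Real.log (∑ j ∈ range (k + 1), p j * R j ω) ∂ν := by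
  unfold Lg
  refine integral_congr_ae (ae_of_all _ fun ω => ?_)
  show Real.log (Real.exp (Real.log (p 0)) * R 0 ω + C1 R k (tl p) ω) = Real.log (∑ j ∈ range (k + 1), p j * R j ω)
  rw [Real.exp_log (hp 0 (by omega)), ← C0_succ]
  rfl

/-- **THE HYBRIDS**: the masses `p 0, …, p k`, the future profile `R 0, …, R k` against the Gaussian walk. -/
theorem hyb8 {τ : ℝ} (hτ : 0 < τ) (v : ℝ≥0) {R : ℕ → Ω → ℝ} (hR : ∀ j, Pl ν (R j)) {k : ℕ} {p : ℕ → ℝ} {e : ℕ → ℝ}
    (hp : ∀ j, j < k + 1 → 0 < p j) (hLM : ∀ z, z < k → LMs ν (tri τ) v R (k - z) (dr (z + 1) p) (e z)) :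
    |(∫ ω, Real.log (∑ j ∈ range (k + 1), p j * R j ω) ∂ν) - (∫ ω, Real.log (R 0 ω) ∂ν) - val v k (tl p) (Real.log (p 0))| ≤
      4 * τ + ∑ z ∈ range k, (e z + gerr v (1 / τ ^ 2)) := by
  have hW := wgt_tri hτ
  have hp' : ∀ j, j < k → 0 < tl p j := fun j hj => hp (j + 1) (by omega)
  have hc := (cf_C1 hR hp').lip
  obtain ⟨l, hl⟩ : ∃ l : ℝ, l = Real.log (p 0) := ⟨_, rfl⟩
  have key : ∀ b : ℝ, |b| = τ → Wgt (fun x => tri τ (x + b)) (1 / τ ^ 2) ∧
      (∀ z, z < k → LMs ν (fun x => tri τ (x + b)) v R (k - z) (dr z (tl p)) (e z)) ∧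
      |Av (fun x => tri τ (x + b)) (Lg ν (R 0) (C1 R k (tl p))) l - Lg ν (R 0) (C1 R k (tl p)) l| ≤ 2 * τ ∧
      |(∫ θ, tri τ (θ + b) * θ)| ≤ 2 * τ := by
    intro b hb
    have hWb := hW.shift b
    have hsup : ∀ θ, tri τ (θ + b) ≠ 0 → |θ| ≤ 2 * τ := by
      intro θ hθ
      have h1 := tri_supp hτ hθ
      have h2 := abs_sub_abs_le_abs_sub θ (-b)
      rw [abs_neg, sub_neg_eq_add] at h2
      linarith
    refine ⟨hWb, fun z hz a0 => ?_, ?_, ?_⟩
    · have h1 := hLM z hz (a0 - b)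
      rw [dr_tl]
      have e1 : ∀ a : ℝ, a - (a0 - b) = a - a0 + b := fun a => by ring
      simp only [e1] at h1
      exact h1
    · have i1 := hWb.int_mul (hc.add_const l).cont
      have e1 : Av (fun x => tri τ (x + b)) (Lg ν (R 0) (C1 R k (tl p))) l - Lg ν (R 0) (C1 R k (tl p)) l =
          ∫ θ, tri τ (θ + b) * (Lg ν (R 0) (C1 R k (tl p)) (θ + l) - Lg ν (R 0) (C1 R k (tl p)) l) := by
        have e2 : ∀ θ, tri τ (θ + b) * (Lg ν (R 0) (C1 R k (tl p)) (θ + l) - Lg ν (R 0) (C1 R k (tl p)) l) =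
            tri τ (θ + b) * Lg ν (R 0) (C1 R k (tl p)) (θ + l) - tri τ (θ + b) * Lg ν (R 0) (C1 R k (tl p)) l := fun θ => by ring
        simp only [e2]
        rw [integral_sub i1 (hWb.int.mul_const _), integral_mul_const, hWb.one, one_mul]
        rfl
      rw [e1]
      refine abs_integral_le_integral_abs.trans ?_
      calc ∫ θ, |tri τ (θ + b) * (Lg ν (R 0) (C1 R k (tl p)) (θ + l) - Lg ν (R 0) (C1 R k (tl p)) l)| ≤
            ∫ θ, tri τ (θ + b) * (2 * τ) := by
            refine integral_mono_of_nonneg (ae_of_all _ fun θ => abs_nonneg _) (hWb.int.mul_const _) (ae_of_all _ fun θ => ?_)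
            show |tri τ (θ + b) * (Lg ν (R 0) (C1 R k (tl p)) (θ + l) - Lg ν (R 0) (C1 R k (tl p)) l)| ≤ tri τ (θ + b) * (2 * τ)
            by_cases h0 : tri τ (θ + b) = 0
            · rw [h0]
              simp
            · rw [abs_mul, abs_of_nonneg (hWb.nn θ)]
              refine mul_le_mul_of_nonneg_left ?_ (hWb.nn θ)
              have h1 := hc (θ + l) l
              rw [add_sub_cancel_right] at h1
              exact h1.trans (hsup θ h0)
        _ = 2 * τ := by rw [integral_mul_const, hWb.one, one_mul]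
    · refine abs_integral_le_integral_abs.trans ?_
      calc ∫ θ, |tri τ (θ + b) * θ| ≤ ∫ θ, tri τ (θ + b) * (2 * τ) := by
            refine integral_mono_of_nonneg (ae_of_all _ fun θ => abs_nonneg _) (hWb.int.mul_const _) (ae_of_all _ fun θ => ?_)
            show |tri τ (θ + b) * θ| ≤ tri τ (θ + b) * (2 * τ)
            by_cases h0 : tri τ (θ + b) = 0
            · rw [h0]
              simp
            · rw [abs_mul, abs_of_nonneg (hWb.nn θ)]
              exact mul_le_mul_of_nonneg_left (hsup θ h0) (hWb.nn θ)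
        _ = 2 * τ := by rw [integral_mul_const, hWb.one, one_mul]
  have hfull := C0_full hR hp
  rw [← hl] at hfull ⊢
  rw [← hfull]
  obtain ⟨W1, M1, A1, B1⟩ := key (-τ) (by rw [abs_neg, abs_of_pos hτ])
  obtain ⟨W2, M2, A2, B2⟩ := key τ (abs_of_pos hτ)
  have s1 : ∀ θ, tri τ (θ + -τ) ≠ 0 → 0 ≤ θ := by
    intro θ hθ
    have h1 := (abs_le.1 (tri_supp hτ hθ)).1
    linarith
  have s2 : ∀ θ, tri τ (θ + τ) ≠ 0 → θ ≤ 0 := by
    intro θ hθ
    have h1 := (abs_le.1 (tri_supp hτ hθ)).2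
    linarith
  have u1 := tel_up W1 s1 v hR k (tl p) e hp' M1 l
  have u2 := tel_low W2 s2 v hR k (tl p) e hp' M2 l
  rw [abs_le] at A1 B1 A2 B2 ⊢
  constructor <;> linarith [A1.1, A1.2, B1.1, B1.2, A2.1, A2.2, B2.1, B2.2]

/-! ### The Gaussian walk -/

theorem gpi_eval (m : ℕ) (v : ℝ≥0) (i : Fin m) : Integrable (fun ξ : Fin m → ℝ => |ξ i|) (gpi (Fin m) v) := by
  have h1 : MeasurePreserving (Function.eval i) (gpi (Fin m) v) (gaussianReal 0 v) :=
    measurePreserving_eval (μ := fun _ : Fin m => gaussianReal 0 v) i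
  exact h1.integrable_comp_of_integrable (gauss_int_abs v)

theorem integrable_LG (m : ℕ) (v : ℝ≥0) {p : Fin (m + 1) → ℝ} (hp : ∀ k, 0 ≤ p k) (hs : 0 < ∑ k, p k) :
    Integrable (fun ξ => LG m 0 p ξ) (gpi (Fin m) v) := by
  have hm : Measurable fun ξ : Fin m → ℝ => LG m 0 p ξ := by
    unfold LG
    refine Real.measurable_log.comp (Finset.measurable_sum _ fun k _ => ?_)
    exact measurable_const.mul (Real.measurable_exp.comp ((measurable_wk m k).const_add _))
  refine ((integrable_const |LG m 0 p 0|).add (integrable_finsetSum Finset.univ fun i _ => gpi_eval m v i)).mono'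
    hm.aestronglyMeasurable (ae_of_all _ fun ξ => ?_)
  rw [Real.norm_eq_abs]
  have h1 := LG_abs m 0 hp hs ξ 0
  have h2 := abs_sub_abs_le_abs_sub (LG m 0 p ξ) (LG m 0 p 0)
  simp only [Pi.zero_apply, sub_zero] at h1
  simp only [Pi.add_apply]
  have e3 : (∑ i, fun ξ : Fin m → ℝ => |ξ i|) ξ = ∑ i, |ξ i| := by
    rw [Finset.sum_apply]
  linarith

theorem wk_cons (k : ℕ) (x : ℝ) (ξ : Fin k → ℝ) (j : ℕ) :
    wk (k + 1) (Fin.cons x ξ : Fin (k + 1) → ℝ) (j + 1) = x + wk k ξ j := by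
  unfold wk
  rw [Fin.sum_univ_succ]
  simp only [Fin.val_zero, Nat.zero_lt_succ, if_true, Fin.cons_zero, Fin.cons_succ, Fin.val_succ, Nat.add_lt_add_iff_right]

theorem wk_zero (k : ℕ) (ξ : Fin k → ℝ) : wk k ξ 0 = 0 := by
  unfold wk
  simp

/-- The masses `exp l, p 0, …, p (k - 1)`. -/
def qm (k : ℕ) (l : ℝ) (p : ℕ → ℝ) : Fin (k + 1) → ℝ := Fin.cons (Real.exp l) fun j : Fin k => p j

theorem LG_qm (k : ℕ) (l : ℝ) (p : ℕ → ℝ) (ξ : Fin k → ℝ) :
    LG k 0 (qm k l p) ξ = Real.log (Real.exp l + ∑ j ∈ range k, p j * Real.exp (wk k ξ (j + 1))) := by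
  unfold LG qm
  rw [Fin.sum_univ_succ]
  simp only [Fin.cons_zero, Fin.cons_succ, zero_mul, zero_add, Fin.val_zero, Fin.val_succ, wk_zero, Real.exp_zero, mul_one]
  rw [Fin.sum_univ_eq_sum_range (fun j => p j * Real.exp (wk k ξ (j + 1))) k]

theorem LG_qm_succ (k : ℕ) (l : ℝ) {p : ℕ → ℝ} (hp : ∀ j, j < k + 1 → 0 < p j) (x : ℝ) (ξ : Fin k → ℝ) :
    LG (k + 1) 0 (qm (k + 1) l p) (Fin.cons x ξ : Fin (k + 1) → ℝ) =
      x + LG k 0 (qm k (Real.log (p 0 + Real.exp (l - x))) (tl p)) ξ := by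
  have hp0 := hp 0 (by omega)
  rw [LG_qm, LG_qm, Real.exp_log (by positivity)]
  have e : Real.exp l + ∑ j ∈ range (k + 1), p j * Real.exp (wk (k + 1) (Fin.cons x ξ : Fin (k + 1) → ℝ) (j + 1)) =
      Real.exp x * (p 0 + Real.exp (l - x) + ∑ j ∈ range k, tl p j * Real.exp (wk k ξ (j + 1))) := by
    rw [Finset.sum_range_succ', wk_cons, wk_zero, mul_add, mul_add, Finset.mul_sum, ← Real.exp_add]
    have e1 : x + (l - x) = l := by ring
    rw [e1, add_zero]
    have e2 : ∀ j ∈ range k, p (j + 1) * Real.exp (wk (k + 1) (Fin.cons x ξ : Fin (k + 1) → ℝ) (j + 1 + 1)) =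
        Real.exp x * (tl p j * Real.exp (wk k ξ (j + 1))) := by
      intro j _
      rw [wk_cons, Real.exp_add]
      unfold tl
      ring
    rw [Finset.sum_congr rfl e2]
    ring
  have hpos : 0 < p 0 + Real.exp (l - x) + ∑ j ∈ range k, tl p j * Real.exp (wk k ξ (j + 1)) := by
    have h1 := Real.exp_pos (l - x)
    have h2 : 0 ≤ ∑ j ∈ range k, tl p j * Real.exp (wk k ξ (j + 1)) :=
      Finset.sum_nonneg fun j hj => mul_nonneg (hp (j + 1) (by have := Finset.mem_range.1 hj; omega)).le (Real.exp_pos _).le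
    linarith
  rw [e, Real.log_mul (Real.exp_pos _).ne' hpos.ne', Real.log_exp]

theorem qm_nonneg {k : ℕ} (l : ℝ) {p : ℕ → ℝ} (hp : ∀ j, j < k → 0 < p j) (i : Fin (k + 1)) : 0 ≤ qm k l p i := by
  unfold qm
  refine Fin.cases ?_ (fun j => ?_) i
  · rw [Fin.cons_zero]
    exact (Real.exp_pos _).le
  · rw [Fin.cons_succ]
    exact (hp j j.2).le

theorem qm_sum {k : ℕ} (l : ℝ) {p : ℕ → ℝ} (hp : ∀ j, j < k → 0 < p j) : 0 < ∑ i, qm k l p i := by
  refine Finset.sum_pos' (fun i _ => qm_nonneg l hp i) ⟨0, Finset.mem_univ _, ?_⟩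
  unfold qm
  rw [Fin.cons_zero]
  exact Real.exp_pos _

/-- The mean level is a mean over the walk. -/
theorem val_eq (v : ℝ≥0) : ∀ (k : ℕ) (p : ℕ → ℝ) (l : ℝ), (∀ j, j < k → 0 < p j) →
    val v k p l = ∫ ξ, LG k 0 (qm k l p) ξ ∂(gpi (Fin k) v)
  | 0, p, l, _ => by
    rw [val_zero]
    simp only [LG_qm]
    simp
  | k + 1, p, l, hp => by
    have hp' : ∀ j, j < k → 0 < tl p j := fun j hj => hp (j + 1) (by omega)
    have hp0 := hp 0 (by omega)
    have hmp : MeasurePreserving (MeasurableEquiv.piFinSuccAbove (fun _ : Fin (k + 1) => ℝ) 0)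
        (gpi (Fin (k + 1)) v) ((gaussianReal 0 v).prod (gpi (Fin k) v)) :=
      measurePreserving_piFinSuccAbove (fun _ : Fin (k + 1) => gaussianReal 0 v) 0
    have hsy := hmp.symm
    have hs : ∀ z : ℝ × (Fin k → ℝ), (MeasurableEquiv.piFinSuccAbove (fun _ : Fin (k + 1) => ℝ) 0).symm z =
        (Fin.cons z.1 z.2 : Fin (k + 1) → ℝ) := by
      intro z
      show Fin.insertNth (0 : Fin (k + 1)) z.1 z.2 = (Fin.cons z.1 z.2 : Fin (k + 1) → ℝ)
      rw [Fin.insertNth_zero']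
    have e1 : ∫ ξ, LG (k + 1) 0 (qm (k + 1) l p) ξ ∂(gpi (Fin (k + 1)) v) =
        ∫ z, LG (k + 1) 0 (qm (k + 1) l p) (Fin.cons z.1 z.2 : Fin (k + 1) → ℝ) ∂((gaussianReal 0 v).prod (gpi (Fin k) v)) := by
      rw [← hsy.integral_comp (MeasurableEquiv.piFinSuccAbove (fun _ : Fin (k + 1) => ℝ) 0).symm.measurableEmbedding]
      simp only [hs]
    have i0 : Integrable (fun z : ℝ × (Fin k → ℝ) => LG (k + 1) 0 (qm (k + 1) l p) (Fin.cons z.1 z.2 : Fin (k + 1) → ℝ))
        ((gaussianReal 0 v).prod (gpi (Fin k) v)) := by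
      have := hsy.integrable_comp_of_integrable (integrable_LG (k + 1) v (qm_nonneg l hp) (qm_sum l hp))
      refine this.congr (ae_of_all _ fun z => ?_)
      show LG (k + 1) 0 (qm (k + 1) l p) ((MeasurableEquiv.piFinSuccAbove (fun _ : Fin (k + 1) => ℝ) 0).symm z) = _
      rw [hs]
    rw [e1, integral_prod _ i0, val_succ]
    have e2 : ∀ x, ∫ ξ, LG (k + 1) 0 (qm (k + 1) l p) (Fin.cons x ξ : Fin (k + 1) → ℝ) ∂(gpi (Fin k) v) =
        x + val v k (tl p) (Real.log (p 0 + Real.exp (l - x))) := by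
      intro x
      rw [val_eq v k (tl p) _ hp']
      have e3 : ∀ ξ, LG (k + 1) 0 (qm (k + 1) l p) (Fin.cons x ξ : Fin (k + 1) → ℝ) =
          x + LG k 0 (qm k (Real.log (p 0 + Real.exp (l - x))) (tl p)) ξ := fun ξ => LG_qm_succ k l hp x ξ
      simp only [e3]
      rw [integral_add (integrable_const _) (integrable_LG k v (qm_nonneg _ hp') (qm_sum _ hp'))]
      simp
    simp only [e2]
    have i1 : Integrable (fun x : ℝ => x) (gaussianReal 0 v) := by
      have h := memLp_id_gaussianReal (μ := 0) (v := v) 1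
      exact h.integrable (by simp)
    have i2 : Integrable (fun x => val v k (tl p) (Real.log (p 0 + Real.exp (l - x)))) (gaussianReal 0 v) :=
      ((val_lip v k (tl p) hp').comp ((L1_next hp0.le).sub_left l)).int_gauss v
    rw [integral_add i1 i2, integral_id_gaussianReal, zero_add]

/-- The final hybrid is `LG`. -/
theorem val_LG (v : ℝ≥0) (k : ℕ) {p : ℕ → ℝ} (hp : ∀ j, j < k + 1 → 0 < p j) :
    val v k (tl p) (Real.log (p 0)) = ∫ ξ, LG k 0 (fun i : Fin (k + 1) => p i) ξ ∂(gpi (Fin k) v) := by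
  rw [val_eq v k (tl p) _ fun j hj => hp (j + 1) (by omega)]
  have e : qm k (Real.log (p 0)) (tl p) = fun i : Fin (k + 1) => p i := by
    funext i
    unfold qm tl
    refine Fin.cases ?_ (fun j => ?_) i
    · rw [Fin.cons_zero, Real.exp_log (hp 0 (by omega))]
      rfl
    · rw [Fin.cons_succ]
      rfl
  rw [e]

/-- **THE HYBRIDS, final form.** -/
theorem hyb8LG {τ : ℝ} (hτ : 0 < τ) (v : ℝ≥0) {R : ℕ → Ω → ℝ} (hR : ∀ j, Pl ν (R j)) {k : ℕ} {p : ℕ → ℝ} {e : ℕ → ℝ}
    (hp : ∀ j, j < k + 1 → 0 < p j) (hLM : ∀ z, z < k → LMs ν (tri τ) v R (k - z) (dr (z + 1) p) (e z)) :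
    |(∫ ω, Real.log (∑ j ∈ range (k + 1), p j * R j ω) ∂ν) - (∫ ω, Real.log (R 0 ω) ∂ν) -
      ∫ ξ, LG k 0 (fun i : Fin (k + 1) => p i) ξ ∂(gpi (Fin k) v)| ≤
      4 * τ + ∑ z ∈ range k, (e z + gerr v (1 / τ ^ 2)) := by
  rw [← val_LG v k hp]
  exact hyb8 hτ v hR hp hLM

end

end Pool.Agent.W_7d29a1_C1.H8
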