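import Pool.Agent.W_7d29a1_C1.HybC8

/-!
MP_7d29a1_pr, attractor route, the hybrids (helper8). Part D: the near sites cost little in total, because the logarithm of the mass of the
right group decreases from the first to the last hybrid by a bounded amount; the moments of the Gaussian steps.
-/

set_option autoImplicit false

namespace Pool.Agent.W_7d29a1_C1.H8

open MeasureTheory ProbabilityTheory Set Finset
open scoped ENNReal NNReal

noncomputable section

/-! ### The Gaussian error -/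

theorem gauss_scale (v : ℝ≥0) {f : ℝ → ℝ} (hf : Measurable f) :
    ∫ x, f x ∂(gaussianReal 0 v) = ∫ x, f (Real.sqrt v * x) ∂(gaussianReal 0 1) := by
  have h := gaussianReal_map_const_mul (μ := 0) (v := 1) (Real.sqrt v)
  have e : NNReal.mk (Real.sqrt v ^ 2) (sq_nonneg _) * 1 = v := by
    rw [mul_one]
    ext
    show Real.sqrt v ^ 2 = v
    exact Real.sq_sqrt v.2
  rw [mul_zero, e] at h
  rw [← h, integral_map (by fun_prop) hf.aestronglyMeasurable]

/-- The Gaussian error is at most `K L (1 + v) ^ 2`. -/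
theorem gerr_le : ∃ K : ℝ, 0 ≤ K ∧ ∀ (v : ℝ≥0) (L : ℝ), 0 ≤ L → gerr v L ≤ K * L * (1 + v) ^ 2 := by
  obtain ⟨K1, hK1⟩ : ∃ K1 : ℝ, K1 = ∫ x, |x| ∂(gaussianReal 0 1) := ⟨_, rfl⟩
  obtain ⟨K3, hK3⟩ : ∃ K3 : ℝ, K3 = ∫ x, |x| ^ 3 ∂(gaussianReal 0 1) := ⟨_, rfl⟩
  have p1 : 0 ≤ K1 := by rw [hK1]; exact integral_nonneg fun x => abs_nonneg x
  have p3 : 0 ≤ K3 := by rw [hK3]; exact integral_nonneg fun x => by positivity
  refine ⟨2 * K1 + K3 / 2, by positivity, fun v L hL => ?_⟩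
  have hv : (0 : ℝ) ≤ v := v.2
  have hs := Real.sqrt_nonneg (v : ℝ)
  have hs2 := Real.sq_sqrt hv
  have e1 : ∫ x, |x| ∂(gaussianReal 0 v) = Real.sqrt v * K1 := by
    rw [gauss_scale v (f := fun x => |x|) (by fun_prop), hK1, ← integral_const_mul]
    refine integral_congr_ae (ae_of_all _ fun x => ?_)
    show |Real.sqrt v * x| = Real.sqrt v * |x|
    rw [abs_mul, abs_of_nonneg hs]
  have e3 : ∫ x, |x| ^ 3 ∂(gaussianReal 0 v) = Real.sqrt v ^ 3 * K3 := by
    rw [gauss_scale v (f := fun x => |x| ^ 3) (by fun_prop), hK3, ← integral_const_mul]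
    refine integral_congr_ae (ae_of_all _ fun x => ?_)
    show |Real.sqrt v * x| ^ 3 = Real.sqrt v ^ 3 * |x| ^ 3
    rw [abs_mul, abs_of_nonneg hs, mul_pow]
  unfold gerr
  rw [e1, e3]
  have b1 : Real.sqrt v ≤ (1 + v) ^ 2 := by nlinarith [sq_nonneg (Real.sqrt v - 1)]
  have b3 : Real.sqrt v ^ 3 ≤ (1 + v) ^ 2 := by
    have : Real.sqrt v ^ 3 = Real.sqrt v * v := by rw [pow_succ, hs2]; ring
    rw [this]
    nlinarith [sq_nonneg (Real.sqrt v - 1)]
  have c1 := mul_le_mul_of_nonneg_right b1 p1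
  have c3 := mul_le_mul_of_nonneg_right b3 p3
  have h5 : L / 2 * (4 * (Real.sqrt v * K1) + Real.sqrt v ^ 3 * K3) ≤ L / 2 * (4 * ((1 + v) ^ 2 * K1) + (1 + v) ^ 2 * K3) :=
    mul_le_mul_of_nonneg_left (by linarith) (by linarith)
  calc _ ≤ _ := h5
    _ = _ := by ring

/-! ### Telescoping with a lag -/

theorem lag_sum (f : ℕ → ℝ) (d : ℕ) : ∀ K : ℕ, ∑ i ∈ range K, (f i - f (i + d)) = ∑ i ∈ range d, (f i - f (K + i))
  | 0 => by simp
  | K + 1 => by
    rw [Finset.sum_range_succ, lag_sum f d K]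
    have h : ∑ i ∈ range d, (f (K + i) - f (K + 1 + i)) = f K - f (K + d) := by
      have := Finset.sum_range_sub' (fun i => f (K + i)) d
      simp only [add_zero] at this
      rw [← this]
      refine Finset.sum_congr rfl fun i _ => ?_
      rw [show K + 1 + i = K + (i + 1) by ring]
    have h2 : ∑ i ∈ range d, (f i - f (K + 1 + i)) =
        ∑ i ∈ range d, (f i - f (K + i)) + ∑ i ∈ range d, (f (K + i) - f (K + 1 + i)) := by
      rw [← Finset.sum_add_distrib]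
      exact Finset.sum_congr rfl fun i _ => by ring
    rw [h2, h]

theorem lag_le {f : ℕ → ℝ} {k : ℕ} (hf : ∀ i j, i ≤ j → j ≤ k → f j ≤ f i) {d K : ℕ} (hK : K + d ≤ k) :
    ∑ i ∈ range K, (f i - f (i + d)) ≤ d * (f 0 - f k) := by
  rw [lag_sum]
  calc ∑ i ∈ range d, (f i - f (K + i)) ≤ ∑ _i ∈ range d, (f 0 - f k) :=
        Finset.sum_le_sum fun i hi => by
          have hi' := Finset.mem_range.1 hi
          have h1 := hf 0 i (by omega) (by omega)
          have h2 := hf (K + i) k (by omega) le_rfl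
          linarith
    _ = d * (f 0 - f k) := by rw [Finset.sum_const, card_range, nsmul_eq_mul]

/-! ### The near sites -/

variable {Ω : Type*} [MeasurableSpace Ω] {ν : Measure Ω} [IsProbabilityMeasure ν]

/-- The share of the first `d` masses in the right group (gap `0`). -/
def NG (ν : Measure Ω) (R : ℕ → Ω → ℝ) (k : ℕ) (p : ℕ → ℝ) (d : ℕ) : ℝ :=
  ∫ ω, C0 R (min d k) p ω / C0 R k p ω ∂ν

/-- The mass of the sites from `i` to `k`. -/
def Sf (R : ℕ → Ω → ℝ) (k : ℕ) (p : ℕ → ℝ) (i : ℕ) (ω : Ω) : ℝ := ∑ j ∈ Finset.Ico i (k + 1), p j * R j ω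

theorem Sf_pos {R : ℕ → Ω → ℝ} (hR : ∀ j, Pl ν (R j)) {k : ℕ} {p : ℕ → ℝ} (hp : ∀ j, j < k + 1 → 0 < p j) {i : ℕ} (hi : i ≤ k)
    (ω : Ω) : 0 < Sf R k p i ω := by
  refine Finset.sum_pos (fun j hj => mul_pos (hp j (Finset.mem_Ico.1 hj).2) ((hR j).pos ω)) ?_
  exact Finset.nonempty_Ico.2 (by omega)

theorem Sf_anti {R : ℕ → Ω → ℝ} (hR : ∀ j, Pl ν (R j)) {k : ℕ} {p : ℕ → ℝ} (hp : ∀ j, j < k + 1 → 0 < p j) {i j : ℕ} (hij : i ≤ j)
    (ω : Ω) : Sf R k p j ω ≤ Sf R k p i ω := by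
  refine Finset.sum_le_sum_of_subset_of_nonneg (Finset.Ico_subset_Ico_left hij) fun a ha _ => ?_
  exact (mul_pos (hp a (Finset.mem_Ico.1 ha).2) ((hR a).pos ω)).le

theorem Sf_eq (R : ℕ → Ω → ℝ) (k : ℕ) (p : ℕ → ℝ) {i : ℕ} (hi : i ≤ k) (ω : Ω) :
    Sf R k p i ω = ∑ j ∈ range (k - i + 1), p (i + j) * R (i + j) ω := by
  unfold Sf
  rw [Finset.sum_Ico_eq_sum_range]
  rw [show k + 1 - i = k - i + 1 by omega]

theorem pl_Sf {R : ℕ → Ω → ℝ} (hR : ∀ j, Pl ν (R j)) {k : ℕ} {p : ℕ → ℝ} (hp : ∀ j, j < k + 1 → 0 < p j) {i : ℕ} (hi : i ≤ k) :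
    Pl ν (Sf R k p i) := by
  have h := pl_sum (R := fun j => R (i + j)) (fun j => hR (i + j)) (k - i) (fun j => p (i + j)) fun j hj => hp (i + j) (by omega)
  have e : Sf R k p i = fun ω => ∑ j ∈ range (k - i + 1), p (i + j) * R (i + j) ω := by
    funext ω
    exact Sf_eq R k p hi ω
  rw [e]
  exact h

/-- The profile is stationary: `R (j + 1) = R j ∘ T`. -/
structure Stat (ν : Measure Ω) (R : ℕ → Ω → ℝ) (T : Ω → Ω) : Prop where
  mp : MeasurePreserving T ν ν
  eq : ∀ j ω, R (j + 1) ω = R j (T ω)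

theorem Stat.iter {R : ℕ → Ω → ℝ} {T : Ω → Ω} (h : Stat ν R T) (z : ℕ) :
    MeasurePreserving (T^[z]) ν ν ∧ ∀ j ω, R (z + j) ω = R j (T^[z] ω) := by
  induction z with
  | zero => exact ⟨MeasurePreserving.id ν, fun j ω => by simp⟩
  | succ z ih =>
    refine ⟨?_, fun j ω => ?_⟩
    · rw [Function.iterate_succ']
      exact h.mp.comp ih.1
    · rw [show z + 1 + j = z + (j + 1) by ring, ih.2 (j + 1) ω, h.eq, Function.iterate_succ_apply']

theorem NG_eq {R : ℕ → Ω → ℝ} {T : Ω → Ω} (h : Stat ν R T) (hR : ∀ j, Pl ν (R j)) {k : ℕ} {p : ℕ → ℝ}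
    (hp : ∀ j, j < k + 1 → 0 < p j) {z d : ℕ} (hz : z < k) :
    NG ν R (k - z) (dr (z + 1) p) d ≤
      if z + 1 + d ≤ k then (∫ ω, Real.log (Sf R k p (z + 1) ω) ∂ν) - ∫ ω, Real.log (Sf R k p (z + 1 + d) ω) ∂ν else 1 := by
  obtain ⟨hT, hTe⟩ := h.iter (z + 1)
  have e1 : ∀ r ω, C0 R r (dr (z + 1) p) (T^[z + 1] ω) = ∑ j ∈ range r, p (z + 1 + j) * R (z + 1 + j) ω := by
    intro r ω
    unfold C0 dr
    exact Finset.sum_congr rfl fun j _ => by rw [hTe]
  have e2 : ∀ ω, C0 R (k - z) (dr (z + 1) p) (T^[z + 1] ω) = Sf R k p (z + 1) ω := by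
    intro ω
    rw [e1, Sf_eq R k p (show z + 1 ≤ k by omega)]
    rw [show k - (z + 1) + 1 = k - z by omega]
  have mC : ∀ r, Measurable (C0 R r (dr (z + 1) p)) := fun r =>
    Finset.measurable_sum _ fun j _ => (hR j).meas.const_mul _
  have e3 : NG ν R (k - z) (dr (z + 1) p) d =
      ∫ ω, C0 R (min d (k - z)) (dr (z + 1) p) (T^[z + 1] ω) / C0 R (k - z) (dr (z + 1) p) (T^[z + 1] ω) ∂ν := by
    unfold NG
    have h2 := integral_map (μ := ν) (φ := T^[z + 1]) hT.measurable.aemeasurable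
      (f := fun ω => C0 R (min d (k - z)) (dr (z + 1) p) ω / C0 R (k - z) (dr (z + 1) p) ω)
      (((mC _).div (mC _)).aestronglyMeasurable)
    rw [hT.map_eq] at h2
    exact h2
  rw [e3]
  have hS := fun ω => Sf_pos hR hp (show z + 1 ≤ k by omega) ω
  have num0 : ∀ ω, 0 ≤ C0 R (min d (k - z)) (dr (z + 1) p) (T^[z + 1] ω) := by
    intro ω
    rw [e1]
    exact Finset.sum_nonneg fun j hj => (mul_pos (hp _ (by
      have := Finset.mem_range.1 hj
      omega)) ((hR _).pos ω)).le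
  have hle : ∀ ω, C0 R (min d (k - z)) (dr (z + 1) p) (T^[z + 1] ω) ≤ Sf R k p (z + 1) ω := by
    intro ω
    rw [← e2, e1, e1]
    refine Finset.sum_le_sum_of_subset_of_nonneg (Finset.range_subset_range.2 (min_le_right _ _)) fun j hj _ => ?_
    exact (mul_pos (hp _ (by have := Finset.mem_range.1 hj; omega)) ((hR _).pos ω)).le
  have hint : Integrable (fun ω => C0 R (min d (k - z)) (dr (z + 1) p) (T^[z + 1] ω) / C0 R (k - z) (dr (z + 1) p) (T^[z + 1] ω)) ν := by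
    refine (integrable_const (1 : ℝ)).mono' (((mC _).comp hT.measurable).div ((mC _).comp hT.measurable)).aestronglyMeasurable
      (ae_of_all _ fun ω => ?_)
    rw [Real.norm_eq_abs, e2, abs_of_nonneg (div_nonneg (num0 ω) (hS ω).le), div_le_one (hS ω)]
    exact hle ω
  split_ifs with hd
  · have hS2 := fun ω => Sf_pos hR hp hd ω
    have i1 := (pl_Sf hR hp (show z + 1 ≤ k by omega)).int
    have i2 := (pl_Sf hR hp hd).int
    rw [← integral_sub i1 i2]
    refine integral_mono hint (i1.sub i2) fun ω => ?_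
    show C0 R (min d (k - z)) (dr (z + 1) p) (T^[z + 1] ω) / C0 R (k - z) (dr (z + 1) p) (T^[z + 1] ω) ≤
      Real.log (Sf R k p (z + 1) ω) - Real.log (Sf R k p (z + 1 + d) ω)
    have e4 : C0 R (min d (k - z)) (dr (z + 1) p) (T^[z + 1] ω) = Sf R k p (z + 1) ω - Sf R k p (z + 1 + d) ω := by
      rw [e1, min_eq_left (by omega), Sf_eq R k p hd, Sf_eq R k p (show z + 1 ≤ k by omega)]
      have e5 : k - (z + 1) + 1 = d + (k - (z + 1 + d) + 1) := by omega
      rw [e5, Finset.sum_range_add]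
      have e6 : ∀ j, z + 1 + (d + j) = z + 1 + d + j := fun j => by ring
      simp only [e6]
      ring
    rw [e4, e2, sub_div, div_self (hS ω).ne']
    have h3 := Real.log_le_sub_one_of_pos (div_pos (hS2 ω) (hS ω))
    rw [Real.log_div (hS2 ω).ne' (hS ω).ne'] at h3
    linarith
  · calc _ ≤ ∫ _, (1 : ℝ) ∂ν := integral_mono hint (integrable_const _) fun ω => by
          show C0 R (min d (k - z)) (dr (z + 1) p) (T^[z + 1] ω) / C0 R (k - z) (dr (z + 1) p) (T^[z + 1] ω) ≤ 1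
          rw [e2, div_le_one (hS ω)]
          exact hle ω
      _ = 1 := by simp

/-- **The near sites**: the sum of the shares over the hybrids. -/
theorem near_sum {R : ℕ → Ω → ℝ} {T : Ω → Ω} (h : Stat ν R T) (hR : ∀ j, Pl ν (R j)) {k : ℕ} {p : ℕ → ℝ}
    (hp : ∀ j, j < k + 1 → 0 < p j) (d : ℕ) :
    ∑ z ∈ range k, NG ν R (k - z) (dr (z + 1) p) d ≤
      d * (1 + ((∫ ω, Real.log (∑ j ∈ range (k + 1), p j * R j ω) ∂ν) - ∫ ω, Real.log (p k * R k ω) ∂ν)) := by
  obtain ⟨f, hf⟩ : ∃ f : ℕ → ℝ, f = fun i => ∫ ω, Real.log (Sf R k p i ω) ∂ν := ⟨_, rfl⟩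
  have anti : ∀ i j, i ≤ j → j ≤ k → f j ≤ f i := by
    intro i j hij hj
    rw [hf]
    exact integral_mono (pl_Sf hR hp hj).int (pl_Sf hR hp (hij.trans hj)).int fun ω =>
      Real.log_le_log (Sf_pos hR hp hj ω) (Sf_anti hR hp hij ω)
  have f0 : f 0 = ∫ ω, Real.log (∑ j ∈ range (k + 1), p j * R j ω) ∂ν := by
    rw [hf]
    unfold Sf
    simp only [← Finset.range_eq_Ico]
  have fk : f k = ∫ ω, Real.log (p k * R k ω) ∂ν := by
    rw [hf]
    unfold Sf
    simp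
  rw [← f0, ← fk]
  have hb : ∀ z ∈ range k, NG ν R (k - z) (dr (z + 1) p) d ≤ if z + 1 + d ≤ k then f (z + 1) - f (z + 1 + d) else 1 := by
    intro z hz
    have := NG_eq h hR hp (d := d) (Finset.mem_range.1 hz)
    rw [hf]
    exact this
  refine (Finset.sum_le_sum hb).trans ?_
  rcases le_or_gt (d + 1) k with hdk | hdk
  · obtain ⟨K, hK⟩ : ∃ K, k = K + d := ⟨k - d, by omega⟩
    have e1 : ∑ z ∈ range k, (if z + 1 + d ≤ k then f (z + 1) - f (z + 1 + d) else 1) =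
        ∑ z ∈ range K, (f (z + 1) - f (z + 1 + d)) + ∑ z ∈ range d, (1 : ℝ) := by
      rw [hK, Finset.sum_range_add]
      congr 1
      · refine Finset.sum_congr rfl fun z hz => ?_
        rw [if_pos (by have := Finset.mem_range.1 hz; omega)]
      · refine Finset.sum_congr rfl fun z hz => ?_
        rw [if_neg (by omega)]
    rw [e1]
    have h1 : ∑ z ∈ range K, (f (z + 1) - f (z + 1 + d)) ≤ d * (f 0 - f k) := by
      have h2 : ∑ z ∈ range K, (f (z + 1) - f (z + 1 + d)) = ∑ i ∈ range d, (f (1 + i) - f (K + 1 + i)) := by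
        have := lag_sum (fun i => f (1 + i)) d K
        have e3 : ∀ i, 1 + (i + d) = i + 1 + d := fun i => by ring
        have e4 : ∀ i, 1 + i = i + 1 := fun i => by ring
        have e5 : ∀ i, 1 + (K + i) = K + 1 + i := fun i => by ring
        simp only [e3, e5] at this
        rw [← this]
        exact Finset.sum_congr rfl fun i _ => by rw [e4]
      rw [h2]
      calc _ ≤ ∑ _i ∈ range d, (f 0 - f k) := Finset.sum_le_sum fun i hi => by
            have hi' := Finset.mem_range.1 hi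
            have h3 := anti 0 (1 + i) (by omega) (by omega)
            have h4 := anti (K + 1 + i) k (by omega) le_rfl
            linarith
        _ = d * (f 0 - f k) := by rw [Finset.sum_const, card_range, nsmul_eq_mul]
    rw [Finset.sum_const, card_range, nsmul_eq_mul, mul_one]
    linarith
  · have h1 : ∑ z ∈ range k, (if z + 1 + d ≤ k then f (z + 1) - f (z + 1 + d) else 1) = k := by
      have : ∀ z ∈ range k, (if z + 1 + d ≤ k then f (z + 1) - f (z + 1 + d) else 1) = 1 := fun z _ => by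
        rw [if_neg (by omega)]
      rw [Finset.sum_congr rfl this]
      simp
    rw [h1]
    have h2 := anti 0 k (by omega) le_rfl
    have h3 : (k : ℝ) ≤ d := by exact_mod_cast (by omega : k ≤ d)
    have h4 : (0 : ℝ) ≤ d := by positivity
    nlinarith

/-- **THE HYBRIDS with the near sites.** -/
theorem hyb8N {τ : ℝ} (hτ : 0 < τ) (v : ℝ≥0) {R : ℕ → Ω → ℝ} {T : Ω → Ω} (h : Stat ν R T) (hR : ∀ j, Pl ν (R j)) {k : ℕ}
    {p : ℕ → ℝ} {d : ℕ} {e₁ e₂ : ℝ} (he₂ : 0 ≤ e₂) (hp : ∀ j, j < k + 1 → 0 < p j)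
    (hLM : ∀ z, z < k → LMs ν (tri τ) v R (k - z) (dr (z + 1) p) (e₁ + e₂ * NG ν R (k - z) (dr (z + 1) p) d)) :
    |(∫ ω, Real.log (∑ j ∈ range (k + 1), p j * R j ω) ∂ν) - (∫ ω, Real.log (R 0 ω) ∂ν) -
      ∫ ξ, LG k 0 (fun i : Fin (k + 1) => p i) ξ ∂(gpi (Fin k) v)| ≤
      4 * τ + k * (e₁ + gerr v (1 / τ ^ 2)) +
        e₂ * (d * (1 + ((∫ ω, Real.log (∑ j ∈ range (k + 1), p j * R j ω) ∂ν) - ∫ ω, Real.log (p k * R k ω) ∂ν))) := by
  refine (hyb8LG hτ v hR hp hLM).trans ?_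
  have h1 := mul_le_mul_of_nonneg_left (near_sum h hR hp d) he₂
  have h2 : ∑ z ∈ range k, (e₁ + e₂ * NG ν R (k - z) (dr (z + 1) p) d + gerr v (1 / τ ^ 2)) =
      k * (e₁ + gerr v (1 / τ ^ 2)) + e₂ * ∑ z ∈ range k, NG ν R (k - z) (dr (z + 1) p) d := by
    rw [Finset.mul_sum, Finset.sum_add_distrib, Finset.sum_add_distrib, Finset.sum_const, Finset.sum_const, card_range,
      nsmul_eq_mul, nsmul_eq_mul]
    ring
  rw [h2]
  linarith

end

end Pool.Agent.W_7d29a1_C1.H8
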