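import Pool.Agent.W_7d29a1_L.LsA1

/-!
MP_7d29a1_pr, attractor route (helper8): the future profile and the logarithm of the mass of the paths in a window (definitions).
-/

set_option autoImplicit false

namespace Pool.Agent.W_7d29a1_C1.H8

open MeasureTheory
open Pool.Agent.W_7d29a1_F
open Pool.Agent.W_7d29a1_L (T)

noncomputable section

/-- The future profile: `M` rows, free end, from the site `j`. -/
def Rf (μ : Measure ℝ) (s σ h : ℝ) (M j : ℕ) (η : Env) : ℝ := Real.exp (T μ s σ h η ((0 : ℤ), ((j : ℕ) : ℤ)) M)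

/-- The logarithm of the mass of the paths which are in the window `y₀, …, y₀ + k` at the time `n` and run for `M` more rows. -/
def Wn (μ : Measure ℝ) (s σ h : ℝ) (n M : ℕ) (y₀ : ℤ) (k : ℕ) (η : Env) : ℝ :=
  Real.log (∑ j ∈ Finset.range (k + 1), (W μ s η 0 n (y₀ + ((j : ℕ) : ℤ)) *
    Real.exp (h * (((y₀ + ((j : ℕ) : ℤ) : ℤ) : ℝ) - σ * n))) * Real.exp (T μ s σ h η ((n : ℤ), y₀ + ((j : ℕ) : ℤ)) M))

end

end Pool.Agent.W_7d29a1_C1.H8
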