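import Pool.Agent.W_7d29a1_C1.HybD8
import Pool.Agent.W_7d29a1_C1.WnD8
import Pool.Agent.W_7d29a1_HS.Defs

/-!
MP_7d29a1_pr, attractor route (helper8): the statement of the loss of memory at one site (`LM8`).
-/

set_option autoImplicit false

namespace Pool.Agent.W_7d29a1_C1.H8

open MeasureTheory Filter Topology
open Pool.Agent.W_7d29a1_F Pool.Agent.W_7d29a1_h4g Pool.Agent.W_7d29a1_H Pool.Agent.W_7d29a1_HS
open scoped ENNReal NNReal

noncomputable section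

/-- **The loss of memory at one site.** For the scale `n`, the variance `v`, all horizons `M`, all forces `h`, all masses `q` of the
window: the systems with the gap `1` and with the gap `0` between the left site and the right group differ, against the triangular weight
of width `τ = n ^ (- c) EE n` in the level, by `v / 2` times the mean weight of the balance point. The error is `n ^ (- c) / EE n` plus
`n ^ (δ + c) / EE n` times the mean share of the sites nearer than `n ^ e` in the right group. -/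
def LM8 (μ : Measure ℝ) (s : ℝ) : Prop :=
  ∀ e : ℝ, 0 < e → ∃ c : ℝ, 0 < c ∧ c ≤ e ∧ ∀ δ : ℝ, 0 < δ → ∃ κ : ℝ, 0 < κ ∧ κ ≤ δ ∧ ∀ᶠ n : ℕ in atTop, ∃ v : ℝ≥0,
    (n : ℝ) ^ (-δ) ≤ (v : ℝ) ∧ (v : ℝ) ≤ (n : ℝ) ^ δ ∧
    ∀ N : ℕ, n ≤ N → (N : ℝ) ≤ (n : ℝ) ^ (1 + c) → ∀ M : ℕ, (n : ℝ) ^ (1 + δ) ≤ M → M ≤ N →
      ∀ h : ℝ, |h| * EE μ s n ≤ (n : ℝ) ^ (-(2 * δ)) → |h| * EE μ s N ≤ (N : ℝ) ^ κ →
        ∀ (k : ℕ) (q : ℕ → ℝ), (k : ℝ) ≤ (n : ℝ) ^ δ * wd μ s n → (∀ j, j < k → 0 < q j) →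
          LMs (law μ) (tri ((n : ℝ) ^ (-c) * EE μ s n)) v (fun j => Rf μ s (sl μ s) h M j) k q
            ((n : ℝ) ^ (-c) / EE μ s n + (n : ℝ) ^ (δ + c) / EE μ s n *
              NG (law μ) (fun j => Rf μ s (sl μ s) h M j) k q ⌈(n : ℝ) ^ e⌉₊)

end

end Pool.Agent.W_7d29a1_C1.H8
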