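import Pool.Agent.W_7d29a1_C1.EndF17
import Pool.Agent.W_7d29a1_C1.WnD8

/-!
MP_7d29a1_pr, attractor route (helper8): the statement of the window (`WN8`).
-/

set_option autoImplicit false

namespace Pool.Agent.W_7d29a1_C1.H8

open MeasureTheory Filter Topology
open Pool.Agent.W_7d29a1_F Pool.Agent.W_7d29a1_h4g Pool.Agent.W_7d29a1_H Pool.Agent.W_7d29a1_HS

noncomputable section

/-- **The window.** The paths of `n + M` rows are in a window of `m` sites at the time `n`, and the mass of the last site of the window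
is not too small. -/
def WN8 (μ : Measure ℝ) (s : ℝ) : Prop :=
  ∀ c : ℝ, 0 < c → ∀ δ : ℝ, 0 < δ → ∃ κ : ℝ, 0 < κ ∧ κ ≤ δ ∧ ∀ᶠ n : ℕ in atTop, ∃ (y₀ : ℤ) (m : ℕ),
    0 ≤ y₀ ∧ 1 ≤ m ∧ y₀ + m ≤ n ∧ (m : ℝ) ≤ (n : ℝ) ^ δ * wd μ s n ∧
    ∀ N : ℕ, n ≤ N → (N : ℝ) ≤ (n : ℝ) ^ (1 + c) → ∀ M : ℕ, (n : ℝ) ^ (1 + δ) ≤ M → M ≤ N →
      ∀ h : ℝ, |h| * EE μ s n ≤ (n : ℝ) ^ (-(2 * δ)) → |h| * EE μ s N ≤ (N : ℝ) ^ κ →
        FM17 μ s (n + M) h - ∫ η, Wn μ s (sl μ s) h n M y₀ m η ∂(law μ) ≤ 1 ∧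
        (∫ η, Wn μ s (sl μ s) h n M y₀ m η ∂(law μ)) -
          (h * (((y₀ + m : ℤ) : ℝ) - sl μ s * n) - ∫ η, X μ s η 0 n (y₀ + m) ∂(law μ)) -
          FM17 μ s M h ≤ (n : ℝ) ^ (c + δ) * EE μ s n

end

end Pool.Agent.W_7d29a1_C1.H8
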