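import Pool.Agent.W_7d29a1_C1.HybM8
import Pool.Agent.W_7d29a1_C1.WN8
import Pool.Agent.W_7d29a1_C1.LMP8

/-!
MP_7d29a1_pr, attractor route, the hybrids (helper8). Part E: from the loss of memory at one site (`LM8`) and the window (`WN8`) to the
increments of the mean free energies (`LMF17`).
-/

set_option autoImplicit false

namespace Pool.Agent.W_7d29a1_C1.H8

open MeasureTheory ProbabilityTheory Set Finset Filter Topology
open Pool.Agent.W_7d29a1_F Pool.Agent.W_7d29a1_h4g Pool.Agent.W_7d29a1_H Pool.Agent.W_7d29a1_HS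
open Pool.Agent.W_7d29a1_L (T kap exp_T exp_T_add T_sh T_zero)
open Pool.Agent.W_7d29a1_h47 (EM)
open scoped ENNReal NNReal

noncomputable section

/-- The width is at least a power (from `wd'_eq` of `W_7d29a1_HZ`). -/
def Wl8 (μ : Measure ℝ) (s : ℝ) : Prop := ∃ n₁ : ℕ, ∀ n : ℕ, n₁ ≤ n → (n : ℝ) ^ (1 / 4 : ℝ) ≤ wd μ s n

section core

variable {μ : Measure ℝ} {s : ℝ} [IsProbabilityMeasure μ] {c C : ℝ} {n₀ : ℕ}

/-- The paths in the window are some of the paths. -/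
theorem Wn_le (hμ : EM μ) {h : ℝ} {n M : ℕ} {y₀ : ℤ} {k : ℕ} (h0 : 0 ≤ y₀) (h1 : y₀ + k ≤ n) :
    ∫ η, Wn μ s (sl μ s) h n M y₀ k η ∂(law μ) ≤ FM17 μ s (n + M) h := by
  unfold FM17
  refine integral_mono (plWn (s := s) (σ := sl μ s) (h := h) hμ M h0 h1).2 (T_int8 hμ 0 (n + M)) fun η => ?_
  show Wn μ s (sl μ s) h n M y₀ k η ≤ T μ s (sl μ s) h η 0 (n + M)
  have hpos : ∀ y ∈ Finset.Icc (0 : ℤ) n, 0 < (W μ s η 0 n y * Real.exp (h * ((y : ℝ) - sl μ s * n))) *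
      Real.exp (T μ s (sl μ s) h η ((n : ℤ), y) M) := by
    intro y hy
    rw [Finset.mem_Icc] at hy
    exact mul_pos (mul_pos (W_pos η 0 hy.1 hy.2) (Real.exp_pos _)) (Real.exp_pos _)
  have hadd := exp_T_add (μ := μ) (s := s) (v := sl μ s) (h := h) η 0 n M
  simp only [Prod.fst_zero, Prod.snd_zero, zero_add] at hadd
  rw [← Real.log_exp (T μ s (sl μ s) h η 0 (n + M)), hadd]
  unfold Wn
  refine Real.log_le_log ?_ ?_
  · refine Finset.sum_pos (fun j hj => hpos _ ?_) ⟨0, Finset.mem_range.2 (by omega)⟩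
    have := Finset.mem_range.1 hj
    exact Finset.mem_Icc.2 ⟨by omega, by omega⟩
  · have hinj : Set.InjOn (fun j : ℕ => y₀ + (j : ℤ)) (Finset.range (k + 1)) := fun a _ b _ hab => by
      have h2 : y₀ + (a : ℤ) = y₀ + (b : ℤ) := hab
      omega
    rw [← Finset.sum_image (s := Finset.range (k + 1)) (g := fun j : ℕ => y₀ + (j : ℤ))
      (f := fun y : ℤ => (W μ s η 0 n y * Real.exp (h * ((y : ℝ) - sl μ s * n))) *
        Real.exp (T μ s (sl μ s) h η ((n : ℤ), y) M)) hinj]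
    refine Finset.sum_le_sum_of_subset_of_nonneg ?_ fun y hy _ => (hpos y hy).le
    intro y hy
    obtain ⟨j, hj, rfl⟩ := Finset.mem_image.1 hy
    have := Finset.mem_range.1 hj
    exact Finset.mem_Icc.2 ⟨by omega, by omega⟩

/-- The numbers. -/
theorem numE8 {n E w K c δ e : ℝ} (hn : 1 ≤ n) (hE : 0 < E) (hK : 0 ≤ K) (he : 0 < e) (hδ : 0 < δ) (hce : c ≤ e)
    (he1 : e ≤ 1 / 80) (hδc : δ ≤ c / 16) (hw : w ≤ n ^ δ * E ^ 2) (hwl : n ^ (1 / 4 : ℝ) ≤ w)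
    (hbig : 200 * (K + 1) ≤ n ^ (c / 16)) {k v d D g B : ℝ} (hk0 : 0 ≤ k) (hk : k ≤ n ^ δ * w) (hv0 : 0 ≤ v) (hv : v ≤ n ^ δ)
    (hg : g ≤ K * (1 / (n ^ (-c) * E) ^ 2) * (1 + v) ^ 2) (hd0 : 0 ≤ d) (hd : d ≤ n ^ e + 1)
    (hD : D ≤ n ^ (c / 4 + δ) * E)
    (hB : B ≤ 4 * (n ^ (-c) * E) + k * (n ^ (-c) / E + g) + n ^ (δ + c) / E * (d * (1 + D))) :
    B + 1 ≤ n ^ (-(c / 4)) * E := by
  have hn0 : 0 < n := by linarith
  have hcc : c ≤ 1 / 80 := hce.trans he1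
  -- the size of the unit
  have hE2 : n ^ (1 / 4 - δ) ≤ E ^ 2 := by
    have h1 : n ^ (1 / 4 : ℝ) ≤ n ^ δ * E ^ 2 := hwl.trans hw
    have h2 : n ^ (1 / 4 - δ) = n ^ (-δ) * n ^ (1 / 4 : ℝ) := by
      rw [← Real.rpow_add hn0]
      ring_nf
    have h3 : n ^ (-δ) * n ^ δ = 1 := by
      rw [← Real.rpow_add hn0]
      simp
    rw [h2]
    calc n ^ (-δ) * n ^ (1 / 4 : ℝ) ≤ n ^ (-δ) * (n ^ δ * E ^ 2) := mul_le_mul_of_nonneg_left h1 (Real.rpow_nonneg hn0.le _)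
      _ = E ^ 2 := by rw [← mul_assoc, h3, one_mul]
  have hE1 : n ^ (1 / 9 : ℝ) ≤ E := by
    have h1 : (n ^ (1 / 9 : ℝ)) ^ 2 ≤ E ^ 2 := by
      rw [← Real.rpow_natCast, ← Real.rpow_mul hn0.le]
      refine le_trans (Real.rpow_le_rpow_of_exponent_le hn ?_) hE2
      push_cast
      linarith
    exact le_of_sq_le_sq h1 hE.le
  have pw : ∀ a b : ℝ, n ^ a * n ^ b = n ^ (a + b) := fun a b => (Real.rpow_add hn0 a b).symm
  have mono : ∀ a b : ℝ, a ≤ b → n ^ a ≤ n ^ b := fun a b h => Real.rpow_le_rpow_of_exponent_le hn h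
  have pos : ∀ a : ℝ, 0 < n ^ a := fun a => Real.rpow_pos_of_pos hn0 a
  -- each term is at most `n ^ (- c / 4 - c / 16) E`
  have t1 : 4 * (n ^ (-c) * E) ≤ 4 * (n ^ (-(c / 4) - c / 16) * E) := by
    have := mono (-c) (-(c / 4) - c / 16) (by linarith)
    have h3 := mul_le_mul_of_nonneg_right this hE.le
    linarith
  have t2 : k * (n ^ (-c) / E) ≤ n ^ (-(c / 4) - c / 16) * E := by
    have h1 : k ≤ n ^ (δ + δ) * E ^ 2 := by
      calc k ≤ n ^ δ * w := hk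
        _ ≤ n ^ δ * (n ^ δ * E ^ 2) := mul_le_mul_of_nonneg_left hw (pos _).le
        _ = n ^ (δ + δ) * E ^ 2 := by rw [← pw]; ring
    have h2 : k * (n ^ (-c) / E) ≤ n ^ (δ + δ) * E ^ 2 * (n ^ (-c) / E) :=
      mul_le_mul_of_nonneg_right h1 (div_nonneg (pos _).le hE.le)
    have h3 : n ^ (δ + δ) * E ^ 2 * (n ^ (-c) / E) = n ^ (δ + δ + -c) * E := by
      rw [← pw (δ + δ) (-c)]
      generalize n ^ (δ + δ) = A
      generalize n ^ (-c) = A'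
      field_simp
    rw [h3] at h2
    exact h2.trans (mul_le_mul_of_nonneg_right (mono _ _ (by linarith)) hE.le)
  have t3 : k * g ≤ 4 * K * (n ^ (-(c / 4) - c / 16) * E) := by
    have h1 : k ≤ n ^ (δ + δ) * E ^ 2 := by
      calc k ≤ n ^ δ * w := hk
        _ ≤ n ^ δ * (n ^ δ * E ^ 2) := mul_le_mul_of_nonneg_left hw (pos _).le
        _ = n ^ (δ + δ) * E ^ 2 := by rw [← pw]; ring
    have h2 : (1 + v) ^ 2 ≤ 4 * n ^ (δ + δ) := by
      have h3 : 1 ≤ n ^ δ := Real.one_le_rpow hn hδ.le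
      have h4 : 1 + v ≤ 2 * n ^ δ := by linarith
      calc (1 + v) ^ 2 ≤ (2 * n ^ δ) ^ 2 := pow_le_pow_left₀ (by linarith) h4 2
        _ = 4 * (n ^ δ * n ^ δ) := by ring
        _ = _ := by rw [pw]
    have h5 : 1 / (n ^ (-c) * E) ^ 2 = n ^ (c + c) / E ^ 2 := by
      have h6 : n ^ (c + c) * (n ^ (-c)) ^ 2 = 1 := by
        rw [pow_two, pw, pw]
        ring_nf
        simp
      rw [div_eq_div_iff (by positivity) (by positivity), mul_pow, one_mul]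
      calc E ^ 2 = (n ^ (c + c) * (n ^ (-c)) ^ 2) * E ^ 2 := by rw [h6, one_mul]
        _ = _ := by ring
    have h7 : g ≤ K * (n ^ (c + c) / E ^ 2) * (4 * n ^ (δ + δ)) := by
      rw [h5] at hg
      exact hg.trans (mul_le_mul_of_nonneg_left h2 (mul_nonneg hK (div_nonneg (pos _).le (sq_nonneg _))))
    have h8 : 0 ≤ K * (n ^ (c + c) / E ^ 2) * (4 * n ^ (δ + δ)) := by
      have := pos (c + c)
      have := pos (δ + δ)
      positivity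
    calc k * g ≤ k * (K * (n ^ (c + c) / E ^ 2) * (4 * n ^ (δ + δ))) := mul_le_mul_of_nonneg_left h7 hk0
      _ ≤ n ^ (δ + δ) * E ^ 2 * (K * (n ^ (c + c) / E ^ 2) * (4 * n ^ (δ + δ))) := mul_le_mul_of_nonneg_right h1 h8
      _ = 4 * K * (n ^ (δ + δ) * n ^ (c + c) * n ^ (δ + δ)) := by
          field_simp
      _ = 4 * K * n ^ (δ + δ + (c + c) + (δ + δ)) := by rw [pw, pw]
      _ ≤ 4 * K * (n ^ (-(c / 4) - c / 16) * E) := by
          refine mul_le_mul_of_nonneg_left ?_ (by positivity)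
          calc n ^ (δ + δ + (c + c) + (δ + δ)) ≤ n ^ (-(c / 4) - c / 16 + 1 / 9) := mono _ _ (by linarith)
            _ = n ^ (-(c / 4) - c / 16) * n ^ (1 / 9 : ℝ) := (pw _ _).symm
            _ ≤ n ^ (-(c / 4) - c / 16) * E := mul_le_mul_of_nonneg_left hE1 (pos _).le
  have t4 : n ^ (δ + c) / E * (d * (1 + D)) ≤ 4 * (n ^ (-(c / 4) - c / 16) * E) := by
    have h1 : d ≤ 2 * n ^ e := by
      have := Real.one_le_rpow hn he.le
      linarith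
    have h2 : 1 + D ≤ 2 * (n ^ (c / 4 + δ) * E) := by
      have h3 : 1 ≤ n ^ (c / 4 + δ) * E := by
        have h4 := Real.one_le_rpow hn (show 0 ≤ c / 4 + δ by linarith)
        have h5 : 1 ≤ E := (Real.one_le_rpow hn (by norm_num)).trans hE1
        nlinarith
      linarith
    have h6 : 0 ≤ n ^ (δ + c) / E := div_nonneg (pos _).le hE.le
    have h7 : 0 ≤ n ^ (c / 4 + δ) * E := mul_nonneg (pos _).le hE.le
    calc n ^ (δ + c) / E * (d * (1 + D)) ≤ n ^ (δ + c) / E * (d * (2 * (n ^ (c / 4 + δ) * E))) :=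
          mul_le_mul_of_nonneg_left (mul_le_mul_of_nonneg_left h2 hd0) h6
      _ ≤ n ^ (δ + c) / E * (2 * n ^ e * (2 * (n ^ (c / 4 + δ) * E))) :=
          mul_le_mul_of_nonneg_left (mul_le_mul_of_nonneg_right h1 (by positivity)) h6
      _ = 4 * (n ^ (δ + c) * n ^ e * n ^ (c / 4 + δ)) := by
          field_simp
          ring
      _ = 4 * n ^ (δ + c + e + (c / 4 + δ)) := by rw [pw, pw]
      _ ≤ 4 * (n ^ (-(c / 4) - c / 16) * E) := by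
          refine mul_le_mul_of_nonneg_left ?_ (by norm_num)
          calc n ^ (δ + c + e + (c / 4 + δ)) ≤ n ^ (-(c / 4) - c / 16 + 1 / 9) := mono _ _ (by linarith)
            _ = n ^ (-(c / 4) - c / 16) * n ^ (1 / 9 : ℝ) := (pw _ _).symm
            _ ≤ n ^ (-(c / 4) - c / 16) * E := mul_le_mul_of_nonneg_left hE1 (pos _).le
  have t5 : 1 ≤ n ^ (-(c / 4) - c / 16) * E := by
    calc (1 : ℝ) = n ^ (0 : ℝ) := (Real.rpow_zero n).symm
      _ ≤ n ^ (-(c / 4) - c / 16 + 1 / 9) := mono _ _ (by linarith)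
      _ = n ^ (-(c / 4) - c / 16) * n ^ (1 / 9 : ℝ) := (pw _ _).symm
      _ ≤ n ^ (-(c / 4) - c / 16) * E := mul_le_mul_of_nonneg_left hE1 (pos _).le
  have t6 : B + 1 ≤ (10 + 4 * K) * (n ^ (-(c / 4) - c / 16) * E) := by
    have e1 : k * (n ^ (-c) / E + g) = k * (n ^ (-c) / E) + k * g := by ring
    rw [e1] at hB
    linarith
  have t7 : (10 + 4 * K) * (n ^ (-(c / 4) - c / 16) * E) ≤ n ^ (c / 16) * (n ^ (-(c / 4) - c / 16) * E) :=
    mul_le_mul_of_nonneg_right (by linarith) (mul_nonneg (pos _).le hE.le)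
  have t8 : n ^ (c / 16) * (n ^ (-(c / 4) - c / 16) * E) = n ^ (-(c / 4)) * E := by
    rw [← mul_assoc, pw]
    ring_nf
  linarith

/-- **The loss of memory at one site and the window give the increments of the mean free energies.** -/
theorem lmf8 (h : In μ s c C n₀) (hL : LB17 μ s) (hw : Wl8 μ s) (hM : LM8 μ s) (hW : WN8 μ s) : LMF17 μ s := by
  obtain ⟨K, hK0, hK⟩ := gerr_le
  obtain ⟨c₁, hc₁, hce, hM⟩ := hM (1 / 80) (by norm_num)
  refine ⟨c₁ / 4, by positivity, fun δ₀ hδ₀ => ?_⟩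
  obtain ⟨δ, hδ⟩ : ∃ δ : ℝ, δ = min δ₀ (c₁ / 16) := ⟨_, rfl⟩
  have hδ0 : 0 < δ := by rw [hδ]; exact lt_min hδ₀ (by positivity)
  have hδ1 : δ ≤ δ₀ := by rw [hδ]; exact min_le_left _ _
  have hδ2 : δ ≤ c₁ / 16 := by rw [hδ]; exact min_le_right _ _
  obtain ⟨κ₁, hκ₁, hκδ₁, hM⟩ := hM δ hδ0
  obtain ⟨κ₂, hκ₂, hκδ₂, hW⟩ := hW (c₁ / 4) (by positivity) δ hδ0
  obtain ⟨n₂, hn₂⟩ := hw
  obtain ⟨n₃, hL⟩ := hL δ hδ0
  refine ⟨min κ₁ κ₂, lt_min hκ₁ hκ₂, (min_le_left _ _).trans (hκδ₁.trans hδ1), ?_⟩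
  filter_upwards [hM, hW, eventually_ge_atTop 1, eventually_ge_atTop n₂, eventually_ge_atTop n₃,
    ev_pow17 (200 * (K + 1)) (show 0 < c₁ / 16 by positivity)] with n hM hW g1 g2 g3 hbig
  obtain ⟨v, hv1, hv2, hM⟩ := hM
  obtain ⟨y₀, m, hy0, hm1, hym, hmw, hW⟩ := hW
  have hnR : (1 : ℝ) ≤ n := by exact_mod_cast g1
  have hn0 : (0 : ℝ) < n := by linarith
  have mono : ∀ a b : ℝ, a ≤ b → (n : ℝ) ^ a ≤ (n : ℝ) ^ b := fun a b h => Real.rpow_le_rpow_of_exponent_le hnR h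
  have hE0 : 0 < EE μ s n := by have := one_le_EE (μ := μ) (s := s) n; linarith
  have hwl := hn₂ n g2
  have hw0 : 0 ≤ wd μ s n := (Real.rpow_nonneg hn0.le _).trans hwl
  refine ⟨y₀, m, v, hy0, hm1, hym, hmw.trans (mul_le_mul_of_nonneg_right (mono _ _ hδ1) hw0),
    (mono _ _ (by linarith)).trans hv1, fun N hnN hN M hM1 hM2 => ⟨0, (y₀ : ℝ) - sl μ s * n, fun r hr1 hr2 => ?_⟩⟩
  have hNR : (1 : ℝ) ≤ N := by exact_mod_cast (g1.trans hnN)
  have hN1 : (N : ℝ) ≤ (n : ℝ) ^ (1 + c₁) := hN.trans (mono _ _ (by linarith))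
  have hM1' : (n : ℝ) ^ (1 + δ) ≤ M := (mono _ _ (by linarith)).trans hM1
  have hr1' : |r| * EE μ s n ≤ (n : ℝ) ^ (-(2 * δ)) := hr1.trans (mono _ _ (by linarith))
  have hκa : |r| * EE μ s N ≤ (N : ℝ) ^ κ₁ := hr2.trans (Real.rpow_le_rpow_of_exponent_le hNR (min_le_left _ _))
  have hκb : |r| * EE μ s N ≤ (N : ℝ) ^ κ₂ := hr2.trans (Real.rpow_le_rpow_of_exponent_le hNR (min_le_right _ _))
  have hLM := hM N hnN hN1 M hM1' hM2 r hr1' hκa
  obtain ⟨hWa, hWb⟩ := hW N hnN hN M hM1' hM2 r hr1' hκb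
  have hτ : 0 < (n : ℝ) ^ (-c₁) * EE μ s n := mul_pos (Real.rpow_pos_of_pos hn0 _) hE0
  have he₂ : 0 ≤ (n : ℝ) ^ (δ + c₁) / EE μ s n := div_nonneg (Real.rpow_nonneg hn0.le _) hE0.le
  have hhyb := hybM8 (s := s) (σ := sl μ s) (h := r) h.em hτ v (n := n) (M := M) (y₀ := y₀) (k := m)
    (d := ⌈(n : ℝ) ^ (1 / 80 : ℝ)⌉₊) he₂ hy0 hym (fun k' q hk' hq => hLM k' q
      (le_trans (by exact_mod_cast hk') hmw) hq)
  have hle := Wn_le (s := s) (h := r) (n := n) (M := M) h.em hy0 hym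
  obtain ⟨Wi, hWi⟩ : ∃ x : ℝ, x = ∫ η, Wn μ s (sl μ s) r n M y₀ m η ∂(law μ) := ⟨_, rfl⟩
  obtain ⟨Ps, hPs⟩ : ∃ x : ℝ, x = Psi (law μ) m v (fun η i => W μ s η 0 n (y₀ + ((i : ℕ) : ℤ))) r := ⟨_, rfl⟩
  obtain ⟨Xi, hXi⟩ : ∃ x : ℝ, x = r * (((y₀ + m : ℤ) : ℝ) - sl μ s * n) - ∫ η, X μ s η 0 n (y₀ + m) ∂(law μ) := ⟨_, rfl⟩
  have hFM : ∫ η, T μ s (sl μ s) r η 0 M ∂(law μ) = FM17 μ s M r := rfl
  rw [hFM, ← hWi, ← hPs, ← hXi] at hhyb
  rw [← hWi] at hWa hWb hle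
  rw [← hXi] at hWb
  have hnum := numE8 (n := (n : ℝ)) (E := EE μ s n) (w := wd μ s n) (K := K) (c := c₁) (δ := δ) (e := 1 / 80) hnR hE0 hK0
    (by norm_num) hδ0 hce le_rfl hδ2 (hL n g3) hwl hbig (k := m) (v := v) (d := ⌈(n : ℝ) ^ (1 / 80 : ℝ)⌉₊)
    (D := Wi - Xi - FM17 μ s M r) (g := gerr v (1 / ((n : ℝ) ^ (-c₁) * EE μ s n) ^ 2)) (Nat.cast_nonneg _) hmw v.2 hv2
    (hK v _ (by positivity)) (Nat.cast_nonneg _) (Nat.ceil_lt_add_one (Real.rpow_nonneg hn0.le _)).le hWb le_rfl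
  rw [← hPs]
  rw [abs_le] at hhyb ⊢
  constructor <;> linarith [hhyb.1, hhyb.2]

end core

end

end Pool.Agent.W_7d29a1_C1.H8
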