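import Pool.Agent.W_7d29a1_C1.HybD8
import Pool.Agent.W_7d29a1_C1.WnD8

/-!
MP_7d29a1_pr, attractor route, the hybrids (helper8). Part M: the polymer. The free energy of the paths which are in the window
`y₀, …, y₀ + k` at the time `n`, and which run for `M` more rows, against the masses of the window seen through the Gaussian walk.
-/

set_option autoImplicit false

namespace Pool.Agent.W_7d29a1_C1.H8

open MeasureTheory ProbabilityTheory Set Finset
open Pool.Agent.W_7d29a1_F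
open Pool.Agent.W_7d29a1_L (T kap exp_T exp_T_add T_sh T_zero)
open Pool.Agent.W_7d29a1_h47 (EM)
open scoped ENNReal NNReal

noncomputable section

variable {μ : Measure ℝ} [IsProbabilityMeasure μ] {s σ h : ℝ}

omit [IsProbabilityMeasure μ] in
theorem measurable_T (a : Pt) (M : ℕ) : Measurable fun η : Env => T μ s σ h η a M := by
  unfold T
  exact (measurable_V a M).add_const _

theorem T_int8 (hμ : EM μ) (a : Pt) (M : ℕ) : Integrable (fun η => T μ s σ h η a M) (law μ) := by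
  unfold T
  exact ((Sub_V a M).integrable hμ).add (integrable_const _)

theorem pl_Rf (hμ : EM μ) (M j : ℕ) : Pl (law μ) (Rf μ s σ h M j) where
  meas := Real.measurable_exp.comp (measurable_T _ _)
  pos := fun η => Real.exp_pos _
  int := by
    unfold Rf
    simp only [Real.log_exp]
    exact T_int8 hμ _ _

theorem stat_Rf (M : ℕ) : Stat (law μ) (fun j => Rf μ s σ h M j) (sh ((0 : ℤ), (1 : ℤ))) where
  mp := mp_sh _
  eq := fun j η => by
    unfold Rf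
    rw [T_sh]
    have e1 : ((0 : ℤ), ((j + 1 : ℕ) : ℤ)) = ((0 : ℤ), ((j : ℕ) : ℤ)) + ((0 : ℤ), (1 : ℤ)) := by
      ext <;> simp
    rw [e1]

theorem int_sh8 (a : Pt) {f : Env → ℝ} (hf : Measurable f) : ∫ η, f (sh a η) ∂(law μ) = ∫ η, f η ∂(law μ) := by
  have h := mp_sh (μ := μ) a
  rw [← integral_map h.measurable.aemeasurable hf.aestronglyMeasurable, h.map_eq]

theorem T_mean (a : Pt) (M : ℕ) : ∫ η, T μ s σ h η a M ∂(law μ) = ∫ η, T μ s σ h η 0 M ∂(law μ) := by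
  have h1 := int_sh8 (μ := μ) a (f := fun η => T μ s σ h η 0 M) (measurable_T _ _)
  simp only [T_sh, zero_add] at h1
  exact h1

/-- The masses of the window. -/
def pw (μ : Measure ℝ) (s σ h : ℝ) (n : ℕ) (y₀ : ℤ) (η : Env) (j : ℕ) : ℝ :=
  W μ s η 0 n (y₀ + ((j : ℕ) : ℤ)) * Real.exp (h * (((y₀ + ((j : ℕ) : ℤ) : ℤ) : ℝ) - σ * n))

omit [IsProbabilityMeasure μ] in
theorem pw_pos {n : ℕ} {y₀ : ℤ} {k : ℕ} (h0 : 0 ≤ y₀) (h1 : y₀ + k ≤ n) (η : Env) {j : ℕ} (hj : j < k + 1) :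
    0 < pw μ s σ h n y₀ η j := mul_pos (W_pos η 0 (by omega) (by omega)) (Real.exp_pos _)

omit [IsProbabilityMeasure μ] in
theorem measurable_pw (n : ℕ) (y₀ : ℤ) (j : ℕ) : Measurable fun η : Env => pw μ s σ h n y₀ η j :=
  (measurable_W 0 n _).mul_const _

theorem plW (hμ : EM μ) {n : ℕ} {y : ℤ} (h0 : 0 ≤ y) (h1 : y ≤ n) : Pl (law μ) fun η => W μ s η 0 n y where
  meas := measurable_W 0 n y
  pos := fun η => W_pos η 0 h0 h1
  int := by
    have h2 : Integrable (fun η => X μ s η 0 n y) (law μ) := (Sub_X 0 h0 h1).integrable hμ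
    refine h2.neg.congr (ae_of_all _ fun η => ?_)
    simp [X]

theorem plpw (hμ : EM μ) {n : ℕ} {y₀ : ℤ} {k : ℕ} (h0 : 0 ≤ y₀) (h1 : y₀ + k ≤ n) {j : ℕ} (hj : j < k + 1) :
    Pl (law μ) fun η => pw μ s σ h n y₀ η j := by
  have h2 := (plW (s := s) hμ (y := y₀ + ((j : ℕ) : ℤ)) (n := n) (by omega) (by omega)).const_mul
    (Real.exp_pos (h * (((y₀ + ((j : ℕ) : ℤ) : ℤ) : ℝ) - σ * n)))
  have e : (fun η => pw μ s σ h n y₀ η j) = fun η =>
      Real.exp (h * (((y₀ + ((j : ℕ) : ℤ) : ℤ) : ℝ) - σ * n)) * W μ s η 0 n (y₀ + ((j : ℕ) : ℤ)) := by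
    funext η
    unfold pw
    ring
  rw [e]
  exact h2

/-- The rows up to `n`. -/
def Pa (n : ℕ) : Set Pt := {p | p.1 ≤ n}

/-- The past `η` and the future `η'`. -/
def gn (n : ℕ) (η η' : Env) : Env := haveI := Classical.decPred (· ∈ Pa n); fun p => if p ∈ Pa n then η p else η' p

omit [IsProbabilityMeasure μ] in
theorem W_gn (n : ℕ) (y : ℤ) (η η' : Env) : W μ s (gn n η η') 0 n y = W μ s η 0 n y := by
  refine W_dep_rows (μ := μ) (s := s) 0 n y fun p hp => ?_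
  have hp2 := hp.2
  unfold gn
  rw [if_pos (show p ∈ Pa n by
    show p.1 ≤ n
    simpa using hp2)]

omit [IsProbabilityMeasure μ] in
theorem T_gn (n M : ℕ) (y : ℤ) (η η' : Env) : T μ s σ h (gn n η η') ((n : ℤ), y) M = T μ s σ h η' ((n : ℤ), y) M := by
  unfold T
  congr 1
  refine V_dep_rows (μ := μ) (s := s + h) ((n : ℤ), y) M fun p hp => ?_
  have hp1 := hp.1
  unfold gn
  rw [if_neg (show p ∉ Pa n from fun hc => by
    have hc' : p.1 ≤ n := hc
    have hp1' : (n : ℤ) < p.1 := hp1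
    omega)]

omit [IsProbabilityMeasure μ] in
theorem Wn_gn (n M : ℕ) (y₀ : ℤ) (k : ℕ) (η η' : Env) : Wn μ s σ h n M y₀ k (gn n η η') =
    Real.log (∑ j ∈ range (k + 1), pw μ s σ h n y₀ η j * Real.exp (T μ s σ h η' ((n : ℤ), y₀ + ((j : ℕ) : ℤ)) M)) := by
  unfold Wn pw
  simp only [W_gn, T_gn]

theorem plWn (hμ : EM μ) {n : ℕ} (M : ℕ) {y₀ : ℤ} {k : ℕ} (h0 : 0 ≤ y₀) (h1 : y₀ + k ≤ n) :
    Measurable (Wn μ s σ h n M y₀ k) ∧ Integrable (Wn μ s σ h n M y₀ k) (law μ) := by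
  have hT : ∀ j : ℕ, Pl (law μ) fun η => Real.exp (T μ s σ h η ((n : ℤ), y₀ + ((j : ℕ) : ℤ)) M) := fun j =>
    ⟨Real.measurable_exp.comp (measurable_T _ _), fun η => Real.exp_pos _, by
      simp only [Real.log_exp]
      exact T_int8 hμ _ _⟩
  have hmul : ∀ j, j < k + 1 → Pl (law μ) fun η => pw μ s σ h n y₀ η j * Real.exp (T μ s σ h η ((n : ℤ), y₀ + ((j : ℕ) : ℤ)) M) := by
    intro j hj
    have a1 := plpw (s := s) (σ := σ) (h := h) hμ h0 h1 hj
    have a2 := hT j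
    refine ⟨a1.meas.mul a2.meas, fun η => mul_pos (a1.pos η) (a2.pos η), ?_⟩
    refine (a1.int.add a2.int).congr (ae_of_all _ fun η => ?_)
    simp only [Pi.add_apply]
    rw [Real.log_mul (a1.pos η).ne' (a2.pos η).ne']
  have hsum : ∀ r, r < k + 1 → Pl (law μ) fun η => ∑ j ∈ range (r + 1), pw μ s σ h n y₀ η j *
      Real.exp (T μ s σ h η ((n : ℤ), y₀ + ((j : ℕ) : ℤ)) M) := by
    intro r
    induction r with
    | zero =>
      intro hr
      simpa using hmul 0 hr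
    | succ r ih =>
      intro hr
      have := (ih (by omega)).add (hmul (r + 1) hr)
      simpa only [Finset.sum_range_succ _ (r + 1)] using this
  have hk := hsum k (by omega)
  exact ⟨Real.measurable_log.comp hk.meas, hk.int⟩

/-- The mean over the future only. -/
def inn8 (μ : Measure ℝ) (s σ h : ℝ) (n M : ℕ) (y₀ : ℤ) (k : ℕ) (η : Env) : ℝ :=
  ∫ η', Real.log (∑ j ∈ range (k + 1), pw μ s σ h n y₀ η j * Rf μ s σ h M j η') ∂(law μ)

theorem inn8_eq {n : ℕ} (M : ℕ) {y₀ : ℤ} {k : ℕ} (η : Env) :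
    ∫ η', Wn μ s σ h n M y₀ k (gn n η η') ∂(law μ) = inn8 μ s σ h n M y₀ k η := by
  unfold inn8
  simp only [Wn_gn]
  have hf : Measurable fun η' : Env => Real.log (∑ j ∈ range (k + 1), pw μ s σ h n y₀ η j * Rf μ s σ h M j η') :=
    Real.measurable_log.comp (Finset.measurable_sum _ fun j _ =>
      (Real.measurable_exp.comp (measurable_T _ _)).const_mul _)
  have h1 := int_sh8 (μ := μ) ((n : ℤ), y₀) hf
  rw [← h1]
  refine integral_congr_ae (ae_of_all _ fun η' => ?_)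
  unfold Rf
  simp only [T_sh]
  congr 1
  refine Finset.sum_congr rfl fun j _ => ?_
  congr 3
  exact Prod.ext (by simp) (by simp; ring)

theorem int_inn8 (hμ : EM μ) {n : ℕ} (M : ℕ) {y₀ : ℤ} {k : ℕ} (h0 : 0 ≤ y₀) (h1 : y₀ + k ≤ n) :
    Integrable (inn8 μ s σ h n M y₀ k) (law μ) ∧
      ∫ η, inn8 μ s σ h n M y₀ k η ∂(law μ) = ∫ η, Wn μ s σ h n M y₀ k η ∂(law μ) := by
  obtain ⟨m1, i1⟩ := plWn (s := s) (σ := σ) (h := h) hμ M h0 h1
  have := Classical.decPred (· ∈ Pa n)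
  obtain ⟨g1, g2, -⟩ := integral_glue (μ := μ) (Pa n) m1 i1
  have e : ∀ η, ∫ η', Wn μ s σ h n M y₀ k (fun p => if p ∈ Pa n then η p else η' p) ∂(law μ) = inn8 μ s σ h n M y₀ k η := by
    intro η
    rw [← inn8_eq]
    refine integral_congr_ae (ae_of_all _ fun η' => ?_)
    unfold gn
    congr!
  simp only [e] at g1 g2
  exact ⟨g2, g1.symm⟩

omit [IsProbabilityMeasure μ] in
theorem LG_pw (n : ℕ) (y₀ : ℤ) {k : ℕ} (h0 : 0 ≤ y₀) (h1 : y₀ + k ≤ n) (η : Env) (ξ : Fin k → ℝ) :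
    LG k 0 (fun i : Fin (k + 1) => pw μ s σ h n y₀ η i) ξ =
      LG k h (fun i : Fin (k + 1) => W μ s η 0 n (y₀ + ((i : ℕ) : ℤ))) ξ + h * ((y₀ : ℝ) - σ * n) := by
  unfold LG
  have e : ∑ i : Fin (k + 1), pw μ s σ h n y₀ η i * Real.exp (0 * ((i : ℕ) : ℝ) + wk k ξ i) =
      Real.exp (h * ((y₀ : ℝ) - σ * n)) *
        ∑ i : Fin (k + 1), W μ s η 0 n (y₀ + ((i : ℕ) : ℤ)) * Real.exp (h * ((i : ℕ) : ℝ) + wk k ξ i) := by
    rw [Finset.mul_sum]
    refine Finset.sum_congr rfl fun i _ => ?_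
    unfold pw
    have e1 : Real.exp (h * (((y₀ + ((i : ℕ) : ℤ) : ℤ) : ℝ) - σ * n)) * Real.exp (0 * ((i : ℕ) : ℝ) + wk k ξ i) =
        Real.exp (h * ((y₀ : ℝ) - σ * n)) * Real.exp (h * ((i : ℕ) : ℝ) + wk k ξ i) := by
      rw [← Real.exp_add, ← Real.exp_add]
      congr 1
      push_cast
      ring
    calc _ = W μ s η 0 n (y₀ + ((i : ℕ) : ℤ)) * (Real.exp (h * (((y₀ + ((i : ℕ) : ℤ) : ℤ) : ℝ) - σ * n)) *
          Real.exp (0 * ((i : ℕ) : ℝ) + wk k ξ i)) := by ring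
      _ = _ := by rw [e1]; ring
  have hpos : 0 < ∑ i : Fin (k + 1), W μ s η 0 n (y₀ + ((i : ℕ) : ℤ)) * Real.exp (h * ((i : ℕ) : ℝ) + wk k ξ i) :=
    Finset.sum_pos (fun i _ => mul_pos (W_pos η 0 (by omega) (by have := i.2; omega)) (Real.exp_pos _)) Finset.univ_nonempty
  rw [e, Real.log_mul (Real.exp_pos _).ne' hpos.ne', Real.log_exp]
  ring

theorem prod_LG (hμ : EM μ) (v : ℝ≥0) {n : ℕ} {y₀ : ℤ} {k : ℕ} (h0 : 0 ≤ y₀) (h1 : y₀ + k ≤ n) :
    Integrable (fun z : (Fin k → ℝ) × Env => LG k h (fun i : Fin (k + 1) => W μ s z.2 0 n (y₀ + ((i : ℕ) : ℤ))) z.1)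
      ((gpi (Fin k) v).prod (law μ)) := by
  have hP : ∀ i : Fin (k + 1), Pl (law μ) fun η => W μ s η 0 n (y₀ + ((i : ℕ) : ℤ)) := fun i =>
    plW hμ (by omega) (by have := i.2; omega)
  have hm := measurable_LG (m := k) (P := fun η (i : Fin (k + 1)) => W μ s η 0 n (y₀ + ((i : ℕ) : ℤ))) (fun i => (hP i).meas) h
  have hsum : ∀ r, r < k + 1 → Pl (law μ) fun η => ∑ j ∈ range (r + 1), W μ s η 0 n (y₀ + ((j : ℕ) : ℤ)) *
      Real.exp (h * ((j : ℕ) : ℝ)) := by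
    intro r
    induction r with
    | zero =>
      intro hr
      have := (plW (s := s) hμ (n := n) (y := y₀ + ((0 : ℕ) : ℤ)) (by simpa using h0) (by push_cast; omega)).const_mul
        (Real.exp_pos (h * ((0 : ℕ) : ℝ)))
      simpa [mul_comm] using this
    | succ r ih =>
      intro hr
      have := (ih (by omega)).add ((plW (s := s) hμ (n := n) (y := y₀ + (((r + 1 : ℕ) : ℕ) : ℤ)) (by omega) (by omega)).const_mul
        (Real.exp_pos (h * ((r + 1 : ℕ) : ℝ))))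
      simpa only [Finset.sum_range_succ _ (r + 1), mul_comm (Real.exp _)] using this
  have hk := (hsum k (by omega)).int
  have e0 : ∀ η, LG k h (fun i : Fin (k + 1) => W μ s η 0 n (y₀ + ((i : ℕ) : ℤ))) 0 =
      Real.log (∑ j ∈ range (k + 1), W μ s η 0 n (y₀ + ((j : ℕ) : ℤ)) * Real.exp (h * ((j : ℕ) : ℝ))) := by
    intro η
    unfold LG
    rw [← Fin.sum_univ_eq_sum_range (fun j => W μ s η 0 n (y₀ + ((j : ℕ) : ℤ)) * Real.exp (h * ((j : ℕ) : ℝ))) (k + 1)]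
    congr 1
    refine Finset.sum_congr rfl fun i _ => ?_
    congr 2
    have : wk k (0 : Fin k → ℝ) i = 0 := by
      unfold wk
      simp
    rw [this, add_zero]
  have i1 : Integrable (fun z : (Fin k → ℝ) × Env => |LG k h (fun i : Fin (k + 1) => W μ s z.2 0 n (y₀ + ((i : ℕ) : ℤ))) 0|)
      ((gpi (Fin k) v).prod (law μ)) := by
    have : Integrable (fun η => |LG k h (fun i : Fin (k + 1) => W μ s η 0 n (y₀ + ((i : ℕ) : ℤ))) 0|) (law μ) := by
      simp only [e0]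
      exact hk.abs
    exact this.comp_snd (gpi (Fin k) v)
  have i2 : Integrable (fun z : (Fin k → ℝ) × Env => ∑ i, |z.1 i|) ((gpi (Fin k) v).prod (law μ)) := by
    have : Integrable (fun ξ : Fin k → ℝ => ∑ i, |ξ i|) (gpi (Fin k) v) :=
      integrable_finsetSum _ fun i _ => gpi_eval k v i
    exact this.comp_fst (law μ)
  refine (i1.add i2).mono' hm.aestronglyMeasurable (ae_of_all _ fun z => ?_)
  rw [Real.norm_eq_abs]
  have h2 := LG_abs k h (p := fun i : Fin (k + 1) => W μ s z.2 0 n (y₀ + ((i : ℕ) : ℤ))) (fun i => ((hP i).pos z.2).le)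
    (Finset.sum_pos (fun i _ => (hP i).pos z.2) Finset.univ_nonempty) z.1 0
  have h3 := abs_sub_abs_le_abs_sub (LG k h (fun i : Fin (k + 1) => W μ s z.2 0 n (y₀ + ((i : ℕ) : ℤ))) z.1)
    (LG k h (fun i : Fin (k + 1) => W μ s z.2 0 n (y₀ + ((i : ℕ) : ℤ))) 0)
  simp only [Pi.zero_apply, sub_zero] at h2
  simp only [Pi.add_apply]
  linarith

/-- **THE HYBRIDS FOR THE POLYMER**, window form. -/
theorem hybM8 (hμ : EM μ) {τ : ℝ} (hτ : 0 < τ) (v : ℝ≥0) {n M : ℕ} {y₀ : ℤ} {k d : ℕ} {e₁ e₂ : ℝ} (he₂ : 0 ≤ e₂)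
    (h0 : 0 ≤ y₀) (h1 : y₀ + k ≤ n)
    (hLM : ∀ (k' : ℕ) (q : ℕ → ℝ), k' ≤ k → (∀ j, j < k' → 0 < q j) →
      LMs (law μ) (tri τ) v (fun j => Rf μ s σ h M j) k' q (e₁ + e₂ * NG (law μ) (fun j => Rf μ s σ h M j) k' q d)) :
    |(∫ η, Wn μ s σ h n M y₀ k η ∂(law μ)) - (∫ η, T μ s σ h η 0 M ∂(law μ)) - h * ((y₀ : ℝ) - σ * n) -
      Psi (law μ) k v (fun η i => W μ s η 0 n (y₀ + ((i : ℕ) : ℤ))) h| ≤
      4 * τ + k * (e₁ + gerr v (1 / τ ^ 2)) + e₂ * (d * (1 + ((∫ η, Wn μ s σ h n M y₀ k η ∂(law μ)) -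
        (h * (((y₀ + k : ℤ) : ℝ) - σ * n) - ∫ η, X μ s η 0 n (y₀ + k) ∂(law μ)) - ∫ η, T μ s σ h η 0 M ∂(law μ)))) := by
  obtain ⟨i1, e1⟩ := int_inn8 (s := s) (σ := σ) (h := h) hμ M h0 h1
  have hXi : Integrable (fun η => X μ s η 0 n (y₀ + k)) (law μ) := (Sub_X 0 (by omega) h1).integrable hμ
  obtain ⟨G, hG⟩ : ∃ G : Env → ℝ, G = fun η => ∫ ξ, LG k h (fun i : Fin (k + 1) => W μ s η 0 n (y₀ + ((i : ℕ) : ℤ))) ξ ∂(gpi (Fin k) v) :=
    ⟨_, rfl⟩
  have hprod := prod_LG (s := s) (h := h) hμ v h0 h1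
  have iG : Integrable G (law μ) := by
    rw [hG]
    exact hprod.integral_prod_right
  have eG : ∫ η, G η ∂(law μ) = Psi (law μ) k v (fun η i => W μ s η 0 n (y₀ + ((i : ℕ) : ℤ))) h := by
    rw [hG]
    unfold Psi
    exact (integral_integral_swap hprod).symm
  obtain ⟨ET, hET⟩ : ∃ ET : ℝ, ET = ∫ η, T μ s σ h η 0 M ∂(law μ) := ⟨_, rfl⟩
  have hR0 : ∀ j : ℕ, ∫ η, Real.log (Rf μ s σ h M j η) ∂(law μ) = ET := by
    intro j
    unfold Rf
    simp only [Real.log_exp]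
    rw [T_mean, hET]
  have key : ∀ η, |inn8 μ s σ h n M y₀ k η - ET - h * ((y₀ : ℝ) - σ * n) - G η| ≤
      4 * τ + k * (e₁ + gerr v (1 / τ ^ 2)) + e₂ * (d * (1 + (inn8 μ s σ h n M y₀ k η -
        (h * (((y₀ + k : ℤ) : ℝ) - σ * n) - X μ s η 0 n (y₀ + k)) - ET))) := by
    intro η
    have hp : ∀ j, j < k + 1 → 0 < pw μ s σ h n y₀ η j := fun j hj => pw_pos h0 h1 η hj
    have h2 := hyb8N hτ v (stat_Rf (μ := μ) (s := s) (σ := σ) (h := h) M) (fun j => pl_Rf hμ M j) (k := k)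
      (p := pw μ s σ h n y₀ η) (d := d) (e₁ := e₁) (e₂ := e₂) he₂ hp (fun z hz => by
        refine hLM (k - z) (dr (z + 1) (pw μ s σ h n y₀ η)) (by omega) fun j hj => ?_
        exact hp _ (by omega))
    have e2 : ∫ ξ, LG k 0 (fun i : Fin (k + 1) => pw μ s σ h n y₀ η i) ξ ∂(gpi (Fin k) v) = G η + h * ((y₀ : ℝ) - σ * n) := by
      rw [hG]
      have e3 : ∀ ξ, LG k 0 (fun i : Fin (k + 1) => pw μ s σ h n y₀ η i) ξ =
          LG k h (fun i : Fin (k + 1) => W μ s η 0 n (y₀ + ((i : ℕ) : ℤ))) ξ + h * ((y₀ : ℝ) - σ * n) := fun ξ =>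
        LG_pw n y₀ h0 h1 η ξ
      simp only [e3]
      have i4 : Integrable (fun ξ => LG k h (fun i : Fin (k + 1) => W μ s η 0 n (y₀ + ((i : ℕ) : ℤ))) ξ) (gpi (Fin k) v) := by
        have i5 := integrable_LG k v (p := fun i : Fin (k + 1) => pw μ s σ h n y₀ η i) (fun i => (hp i i.2).le)
          (Finset.sum_pos (fun i _ => hp i i.2) Finset.univ_nonempty)
        have i6 := i5.sub (integrable_const (h * ((y₀ : ℝ) - σ * n)))
        refine i6.congr (ae_of_all _ fun ξ => ?_)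
        simp only [Pi.sub_apply, e3]
        ring
      rw [integral_add i4 (integrable_const _)]
      simp
    have e4 : ∫ η', Real.log (pw μ s σ h n y₀ η k * Rf μ s σ h M k η') ∂(law μ) =
        (h * (((y₀ + k : ℤ) : ℝ) - σ * n) - X μ s η 0 n (y₀ + k)) + ET := by
      have e5 : ∀ η', Real.log (pw μ s σ h n y₀ η k * Rf μ s σ h M k η') =
          Real.log (pw μ s σ h n y₀ η k) + Real.log (Rf μ s σ h M k η') := fun η' =>
        Real.log_mul (hp k (by omega)).ne' ((pl_Rf hμ M k).pos η').ne'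
      simp only [e5]
      rw [integral_add (integrable_const _) (pl_Rf hμ M k).int, hR0]
      have e6 : Real.log (pw μ s σ h n y₀ η k) = h * (((y₀ + k : ℤ) : ℝ) - σ * n) - X μ s η 0 n (y₀ + k) := by
        unfold pw X
        rw [Real.log_mul (W_pos η 0 (by omega) (by omega)).ne' (Real.exp_pos _).ne', Real.log_exp]
        ring
      rw [e6]
      simp
    rw [hR0, e2, e4] at h2
    have e7 : inn8 μ s σ h n M y₀ k η = ∫ η', Real.log (∑ j ∈ range (k + 1), pw μ s σ h n y₀ η j * Rf μ s σ h M j η') ∂(law μ) := rfl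
    rw [e7]
    refine le_trans (le_of_eq ?_) (h2.trans (le_of_eq ?_))
    · congr 1
      ring
    · ring
  rw [← e1, ← eG, ← hET]
  have j1 : Integrable (fun η => inn8 μ s σ h n M y₀ k η - ET - h * ((y₀ : ℝ) - σ * n) - G η) (law μ) :=
    ((i1.sub (integrable_const _)).sub (integrable_const _)).sub iG
  have j2 : Integrable (fun η => 4 * τ + k * (e₁ + gerr v (1 / τ ^ 2)) + e₂ * (d * (1 + (inn8 μ s σ h n M y₀ k η -
        (h * (((y₀ + k : ℤ) : ℝ) - σ * n) - X μ s η 0 n (y₀ + k)) - ET)))) (law μ) := by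
    refine (integrable_const _).add (((((integrable_const _).add ((i1.sub ((integrable_const _).sub hXi)).sub (integrable_const _))).const_mul _)).const_mul _)
  have h3 : |∫ η, (inn8 μ s σ h n M y₀ k η - ET - h * ((y₀ : ℝ) - σ * n) - G η) ∂(law μ)| ≤
      ∫ η, (4 * τ + k * (e₁ + gerr v (1 / τ ^ 2)) + e₂ * (d * (1 + (inn8 μ s σ h n M y₀ k η -
        (h * (((y₀ + k : ℤ) : ℝ) - σ * n) - X μ s η 0 n (y₀ + k)) - ET)))) ∂(law μ) :=
    abs_integral_le_integral_abs.trans (integral_mono j1.abs j2 key)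
  have e8 : ∫ η, (inn8 μ s σ h n M y₀ k η - ET - h * ((y₀ : ℝ) - σ * n) - G η) ∂(law μ) =
      (∫ η, inn8 μ s σ h n M y₀ k η ∂(law μ)) - ET - h * ((y₀ : ℝ) - σ * n) - ∫ η, G η ∂(law μ) := by
    have k1 : Integrable (fun η => inn8 μ s σ h n M y₀ k η - ET) (law μ) := i1.sub (integrable_const _)
    have k2 : Integrable (fun η => inn8 μ s σ h n M y₀ k η - ET - h * ((y₀ : ℝ) - σ * n)) (law μ) := k1.sub (integrable_const _)
    rw [integral_sub k2 iG, integral_sub k1 (integrable_const _), integral_sub i1 (integrable_const _)]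
    simp
  have e9 : ∫ η, (4 * τ + k * (e₁ + gerr v (1 / τ ^ 2)) + e₂ * (d * (1 + (inn8 μ s σ h n M y₀ k η -
        (h * (((y₀ + k : ℤ) : ℝ) - σ * n) - X μ s η 0 n (y₀ + k)) - ET)))) ∂(law μ) =
      4 * τ + k * (e₁ + gerr v (1 / τ ^ 2)) + e₂ * (d * (1 + ((∫ η, inn8 μ s σ h n M y₀ k η ∂(law μ)) -
        (h * (((y₀ + k : ℤ) : ℝ) - σ * n) - ∫ η, X μ s η 0 n (y₀ + k) ∂(law μ)) - ET))) := by
    have k0 : Integrable (fun η => h * (((y₀ + k : ℤ) : ℝ) - σ * n) - X μ s η 0 n (y₀ + k)) (law μ) := (integrable_const _).sub hXi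
    have k1 : Integrable (fun η => inn8 μ s σ h n M y₀ k η - (h * (((y₀ + k : ℤ) : ℝ) - σ * n) - X μ s η 0 n (y₀ + k))) (law μ) := i1.sub k0
    have k2 : Integrable (fun η => inn8 μ s σ h n M y₀ k η - (h * (((y₀ + k : ℤ) : ℝ) - σ * n) - X μ s η 0 n (y₀ + k)) - ET) (law μ) :=
      k1.sub (integrable_const _)
    have k3 : Integrable (fun η => 1 + (inn8 μ s σ h n M y₀ k η - (h * (((y₀ + k : ℤ) : ℝ) - σ * n) - X μ s η 0 n (y₀ + k)) - ET)) (law μ) :=
      (integrable_const _).add k2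
    rw [integral_add (integrable_const _) ((k3.const_mul _).const_mul _), integral_const_mul, integral_const_mul,
      integral_add (integrable_const _) k2, integral_sub k1 (integrable_const _), integral_sub i1 k0,
      integral_sub (integrable_const _) hXi]
    simp
  rw [e8, e9] at h3
  exact h3

end

end Pool.Agent.W_7d29a1_C1.H8
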