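import Pool.Agent.W_7d29a1_C1.Box47

/-!
MP_7d29a1_pr, [C1], SHELL with BOX WEIGHTS: THE INSIDE IS USABLE. (helper47)

Deterministic, over Box47. If the weight of `Q` is at least `1 - ε`, both paths are in the unions of the cells `β j` (row `i`) and `δ j`
(row `K = i + n`) up to `1/8`, then there are cells `β j₁`, `β j₂`, `δ j₃` (the exit cell is COMMON) with
`P_M (β j₁ → δ j₃)`, `P_R (β j₂ → δ j₃) ≥ 1 / (4 card ^ 4)` (`usable`); if such cells are regular (`hmodM`, `hmodR`) they satisfy the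
hypothesis `hin` of `new_of_inG` and `β j₁ < β j₂` (`usable_inG`).
-/

set_option autoImplicit false

namespace Pool.Agent.W_7d29a1_C1.Bx47

open Finset
open Pool.Agent.W_7d29a1_C1.K91 (Grp Box ps2 ps2_congr ps2_add ps2_mul)
open Pool.Agent.W_7d29a1_C1.K91P
open Pool.Agent.W_7d29a1_C1.U31 (sum_fw_bw)
open Pool.Agent.W_7d29a1_C1.U16 (ker ker_zero ker_succ ker_nonneg ker_eq_zero ker_congr fw_ker bw_ker ker_add)

noncomputable section

variable {w : ℕ → ℤ → ℝ} {p : ℕ → ℝ} {l r : ℤ → ℝ} {X lo hi : ℤ} {N : ℕ}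

/-- `mq` against a function of the exits. -/
def MF (w : ℕ → ℤ → ℝ) (p : ℕ → ℝ) (Q : Finset (ℕ × ℤ)) (lo hi : ℤ) (F : ℤ → ℝ) (i n : ℕ) (x x' : ℤ) : ℝ :=
  ∑ y ∈ Icc lo hi, ∑ y' ∈ Icc lo hi, mq w p Q i n x x' y y' * (F y * F y')

theorem MF_not (Q : Finset (ℕ × ℤ)) (F : ℤ → ℝ) (i n : ℕ) {x x' : ℤ} (h : ¬ x < x') : MF w p Q lo hi F i n x x' = 0 := by
  unfold MF
  refine sum_eq_zero fun y _ => sum_eq_zero fun y' _ => ?_
  rw [mq_not Q i n h, zero_mul]

theorem MF_zero (Q : Finset (ℕ × ℤ)) (F : ℤ → ℝ) (i : ℕ) (x x' : ℤ) : MF w p Q lo hi F i 0 x x' = 0 := by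
  unfold MF
  exact sum_eq_zero fun y _ => sum_eq_zero fun y' _ => by rw [mq_zero, zero_mul]

theorem MF_nonneg (hw : ∀ k y, 0 < w k y) (hp : ∀ k, 0 < p k) (Q : Finset (ℕ × ℤ)) {F : ℤ → ℝ} (hF : ∀ y, 0 ≤ F y) (i n : ℕ)
    (x x' : ℤ) : 0 ≤ MF w p Q lo hi F i n x x' :=
  sum_nonneg fun y _ => sum_nonneg fun y' _ => mul_nonneg (mq_nonneg hw hp Q n i x x' y y') (mul_nonneg (hF y) (hF y'))

theorem MF_succ (Q : Finset (ℕ × ℤ)) (F : ℤ → ℝ) (i n : ℕ) (x x' : ℤ) : MF w p Q lo hi F i (n + 1) x x' =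
    if x < x' then w i x * w i x' * (MF w p Q lo hi F (i + 1) n x x' + p i * MF w p Q lo hi F (i + 1) n (x + 1) x' +
      p i * MF w p Q lo hi F (i + 1) n x (x' + 1) + p i ^ 2 * MF w p Q lo hi F (i + 1) n (x + 1) (x' + 1) +
      if x + 1 = x' ∧ (i, x') ∈ Q then p i * (∑ y ∈ Icc lo hi, ker w p (i + 1) n x' y * F y) ^ 2 else 0) else 0 := by
  by_cases h : x < x'
  · rw [if_pos h]
    have e1 : (if x + 1 = x' ∧ (i, x') ∈ Q then p i * (∑ y ∈ Icc lo hi, ker w p (i + 1) n x' y * F y) ^ 2 else 0) =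
        ∑ y ∈ Icc lo hi, ∑ y' ∈ Icc lo hi, (if x + 1 = x' ∧ (i, x') ∈ Q then
          p i * (ker w p (i + 1) n x' y * ker w p (i + 1) n x' y') else 0) * (F y * F y') := by
      split_ifs
      · rw [sq, sum_mul_sum, mul_sum]
        refine sum_congr rfl fun y _ => ?_
        rw [mul_sum]
        exact sum_congr rfl fun y' _ => by ring
      · simp
    rw [e1]
    unfold MF
    simp only [mul_sum, ← sum_add_distrib]
    refine sum_congr rfl fun y _ => sum_congr rfl fun y' _ => ?_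
    rw [mq_succ, if_pos h]
    ring
  · rw [if_neg h, MF_not Q F i (n + 1) h]

/-- **`MF` is a sum of squares in the exits**: Cauchy - Schwarz over the cells. -/
theorem MF_sq (hw : ∀ k y, 0 < w k y) (hp : ∀ k, 0 < p k) (Q : Finset (ℕ × ℤ)) {ι : Type*} [Fintype ι] {f : ι → ℤ → ℝ} {F : ℤ → ℝ}
    (hf : ∀ j y, 0 ≤ f j y) (hF0 : ∀ y, 0 ≤ F y) (hF : ∀ y, F y ≤ ∑ j, f j y) : ∀ (n i : ℕ) (x x' : ℤ),
    MF w p Q lo hi F i n x x' ≤ Fintype.card ι * ∑ j, MF w p Q lo hi (f j) i n x x'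
  | 0, i, x, x' => by
    rw [MF_zero]
    refine mul_nonneg (by positivity) (sum_nonneg fun j _ => MF_nonneg hw hp Q (hf j) i 0 x x')
  | n + 1, i, x, x' => by
    by_cases h : x < x'
    · have s1 := MF_sq hw hp Q hf hF0 hF n (i + 1) x x'
      have s2 := MF_sq hw hp Q hf hF0 hF n (i + 1) (x + 1) x'
      have s3 := MF_sq hw hp Q hf hF0 hF n (i + 1) x (x' + 1)
      have s4 := MF_sq hw hp Q hf hF0 hF n (i + 1) (x + 1) (x' + 1)
      have b1 := hw i x
      have b2 := hw i x'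
      have hpk := hp i
      have s5 : (if x + 1 = x' ∧ (i, x') ∈ Q then p i * (∑ y ∈ Icc lo hi, ker w p (i + 1) n x' y * F y) ^ 2 else 0) ≤
          Fintype.card ι * ∑ j, (if x + 1 = x' ∧ (i, x') ∈ Q then
            p i * (∑ y ∈ Icc lo hi, ker w p (i + 1) n x' y * f j y) ^ 2 else 0) := by
        split_ifs with hc
        · rw [← mul_sum]
          have t1 : ∑ y ∈ Icc lo hi, ker w p (i + 1) n x' y * F y ≤
              ∑ j, ∑ y ∈ Icc lo hi, ker w p (i + 1) n x' y * f j y := by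
            rw [sum_comm]
            refine sum_le_sum fun y _ => ?_
            rw [← mul_sum]
            exact mul_le_mul_of_nonneg_left (hF y) (ker_nonneg hw hp _ _ _ _)
          have t0 : 0 ≤ ∑ y ∈ Icc lo hi, ker w p (i + 1) n x' y * F y :=
            sum_nonneg fun y _ => mul_nonneg (ker_nonneg hw hp _ _ _ _) (hF0 y)
          have t2 : (∑ y ∈ Icc lo hi, ker w p (i + 1) n x' y * F y) ^ 2 ≤
              (∑ j, ∑ y ∈ Icc lo hi, ker w p (i + 1) n x' y * f j y) ^ 2 := pow_le_pow_left₀ t0 t1 2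
          have t3 : (∑ j, ∑ y ∈ Icc lo hi, ker w p (i + 1) n x' y * f j y) ^ 2 ≤
              (Fintype.card ι : ℝ) * ∑ j, (∑ y ∈ Icc lo hi, ker w p (i + 1) n x' y * f j y) ^ 2 :=
            sq_sum_le_card_mul_sum_sq
          calc _ ≤ p i * ((Fintype.card ι : ℝ) * ∑ j, (∑ y ∈ Icc lo hi, ker w p (i + 1) n x' y * f j y) ^ 2) :=
                mul_le_mul_of_nonneg_left (t2.trans t3) hpk.le
            _ = _ := by ring
        · simp
      have e : ∑ j, MF w p Q lo hi (f j) i (n + 1) x x' = w i x * w i x' * (∑ j, MF w p Q lo hi (f j) (i + 1) n x x' +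
          p i * ∑ j, MF w p Q lo hi (f j) (i + 1) n (x + 1) x' + p i * ∑ j, MF w p Q lo hi (f j) (i + 1) n x (x' + 1) +
          p i ^ 2 * ∑ j, MF w p Q lo hi (f j) (i + 1) n (x + 1) (x' + 1) +
          ∑ j, if x + 1 = x' ∧ (i, x') ∈ Q then p i * (∑ y ∈ Icc lo hi, ker w p (i + 1) n x' y * f j y) ^ 2 else 0) := by
        rw [mul_sum (f := fun j => MF w p Q lo hi (f j) (i + 1) n (x + 1) x'),
          mul_sum (f := fun j => MF w p Q lo hi (f j) (i + 1) n x (x' + 1)),
          mul_sum (f := fun j => MF w p Q lo hi (f j) (i + 1) n (x + 1) (x' + 1)),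
          ← sum_add_distrib, ← sum_add_distrib, ← sum_add_distrib, ← sum_add_distrib, mul_sum]
        refine sum_congr rfl fun j _ => ?_
        rw [MF_succ, if_pos h]
      rw [e, MF_succ, if_pos h]
      have c2 := mul_le_mul_of_nonneg_left s2 hpk.le
      have c3 := mul_le_mul_of_nonneg_left s3 hpk.le
      have c4 := mul_le_mul_of_nonneg_left s4 (sq_nonneg (p i))
      calc _ ≤ w i x * w i x' * (Fintype.card ι * ∑ j, MF w p Q lo hi (f j) (i + 1) n x x' +
            p i * (Fintype.card ι * ∑ j, MF w p Q lo hi (f j) (i + 1) n (x + 1) x') +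
            p i * (Fintype.card ι * ∑ j, MF w p Q lo hi (f j) (i + 1) n x (x' + 1)) +
            p i ^ 2 * (Fintype.card ι * ∑ j, MF w p Q lo hi (f j) (i + 1) n (x + 1) (x' + 1)) +
            Fintype.card ι * ∑ j, (if x + 1 = x' ∧ (i, x') ∈ Q then
              p i * (∑ y ∈ Icc lo hi, ker w p (i + 1) n x' y * f j y) ^ 2 else 0)) :=
          mul_le_mul_of_nonneg_left (by linarith) (by positivity)
        _ = _ := by ring
    · rw [MF_not Q F i (n + 1) h]
      exact mul_nonneg (by positivity) (sum_nonneg fun j _ => MF_nonneg hw hp Q (hf j) i (n + 1) x x')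

/-- `MF` is at most the product. -/
theorem MF_le (hw : ∀ k y, 0 < w k y) (hp : ∀ k, 0 < p k) (Q : Finset (ℕ × ℤ)) {F : ℤ → ℝ} (hF : ∀ y, 0 ≤ F y) (i n : ℕ)
    (x x' : ℤ) : MF w p Q lo hi F i n x x' ≤
      (∑ y ∈ Icc lo hi, ker w p i n x y * F y) * ∑ y ∈ Icc lo hi, ker w p i n x' y * F y := by
  unfold MF
  rw [sum_mul_sum]
  refine sum_le_sum fun y _ => sum_le_sum fun y' _ => ?_
  calc _ ≤ (ker w p i n x y * ker w p i n x' y') * (F y * F y') :=
        mul_le_mul_of_nonneg_right (mq_le hw hp Q n i x x' y y') (mul_nonneg (hF y) (hF y'))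
    _ = _ := by ring

/-- Pigeonhole. -/
theorem pig {ι : Type*} [Fintype ι] [Nonempty ι] {f : ι → ℝ} {a : ℝ} (h : a ≤ ∑ j, f j) : ∃ j, a / Fintype.card ι ≤ f j := by
  by_contra hc
  push Not at hc
  have hn : 0 < (Fintype.card ι : ℝ) := by exact_mod_cast Fintype.card_pos
  have h1 : ∑ j, f j < ∑ _j : ι, a / Fintype.card ι := sum_lt_sum_of_nonempty univ_nonempty fun j _ => hc j
  rw [sum_const, card_univ, nsmul_eq_mul] at h1
  have h2 : (Fintype.card ι : ℝ) * (a / Fintype.card ι) = a := by field_simp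
  rw [h2] at h1
  exact absurd h (not_le.2 h1)

/-- The mass which is in `δ` at the row `K`. -/
theorem thrS_row {m : ℤ → ℝ} (m1 : ∀ y, y < lo → m y = 0) {K i n : ℕ} (hK : i + n = K)
    {δ : Finset ℤ} (hδ : δ ⊆ Icc lo hi) : thrS w p m N K i n (Icc lo hi) δ = ∑ y ∈ δ, fw w p m K y * bw w p K (N - K) y := by
  unfold thrS thr
  rw [sum_comm]
  refine sum_congr rfl fun y hy => ?_
  have hy2 := mem_Icc.1 (hδ hy)
  have e1 : fw w p m K y = ∑ x ∈ Icc lo hi, fw w p m i x * ker w p i n x y := by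
    rw [← hK, fw_ker]
    have e2 : ∑ x ∈ Icc (y - n) y, fw w p m i x * ker w p i n x y =
        ∑ x ∈ (Icc (y - n) y).filter (fun x => x ∈ Icc lo hi), fw w p m i x * ker w p i n x y := by
      rw [sum_filter]
      refine sum_congr rfl fun x hx => ?_
      split_ifs with h1
      · rfl
      · rw [mem_Icc] at hx h1
        rw [fw_lo m1 i x (by omega), zero_mul]
    rw [e2]
    refine sum_subset (fun x hx => (mem_filter.1 hx).2) fun x hx hx' => ?_
    rw [ker_eq_zero i n x y, mul_zero]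
    rintro ⟨a1, a2⟩
    exact hx' (mem_filter.2 ⟨mem_Icc.2 ⟨by omega, a1⟩, hx⟩)
  rw [e1, sum_mul]
  exact sum_congr rfl fun x _ => by ring

/-- **Usable cells.** -/
theorem usable (hw : ∀ k y, 0 < w k y) (hp : ∀ k, 0 < p k) (h : Box l r X lo hi N) {Q : Finset (ℕ × ℤ)} {K i n : ℕ}
    (hK : i + n = K) (hKN : K ≤ N) (hQ : Q ⊆ Ico i K ×ˢ Icc lo hi) {ε ZM ZR : ℝ} (hε4 : ε ≤ 1 / 4)
    (hZM : ZM = ∑ y ∈ Icc lo hi, l y * bw w p 0 N y) (hZR : ZR = ∑ y ∈ Icc lo hi, r y * bw w p 0 N y)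
    (hM : 0 < ZM) (hR : 0 < ZR) (hε : (1 - ε) * (ZM * ZR) ≤ ∑ c ∈ Q, cq w p l r N c.1 c.2)
    {ι : Type*} [Fintype ι] [Nonempty ι] {β δ : ι → Finset ℤ} (hβ : ∀ j, β j ⊆ Icc lo hi) (hδ : ∀ j, δ j ⊆ Icc lo hi)
    (oM : ∑ x ∈ Icc lo hi \ univ.biUnion β, fw w p l i x * bw w p i (N - i) x ≤ ZM / 8)
    (oR : ∑ x ∈ Icc lo hi \ univ.biUnion β, fw w p r i x * bw w p i (N - i) x ≤ ZR / 8)
    (oKM : ∑ y ∈ Icc lo hi \ univ.biUnion δ, fw w p l K y * bw w p K (N - K) y ≤ ZM / 8)
    (oKR : ∑ y ∈ Icc lo hi \ univ.biUnion δ, fw w p r K y * bw w p K (N - K) y ≤ ZR / 8) :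
    ∃ j₁ j₂ j₃, 1 / (4 * (Fintype.card ι : ℝ) ^ 4) * ZM ≤ thrS w p l N K i n (β j₁) (δ j₃) ∧
      1 / (4 * (Fintype.card ι : ℝ) ^ 4) * ZR ≤ thrS w p r N K i n (β j₂) (δ j₃) := by
  classical
  have hlo : lo + N ≤ hi := by
    have := h.X0
    have := h.X1
    omega
  have hN : (0 : ℤ) ≤ N := by positivity
  have zM : ∑ a ∈ Icc lo hi, fw w p l i a * bw w p i (N - i) a = ZM := by
    rw [hZM, sum_fw_bw (fun y hy => (h.lo0 y hy).1) (fun y hy => (h.hi0 y hy).1) hlo i (by omega)]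
  have zR : ∑ a ∈ Icc lo hi, fw w p r i a * bw w p i (N - i) a = ZR := by
    rw [hZR, sum_fw_bw (fun y hy => (h.lo0 y hy).2) (fun y hy => (h.hi0 y hy).2) hlo i (by omega)]
  set b := bw w p i (N - i) with hb
  set A := fw w p l i with hA
  set B := fw w p r i with hB
  set G := bw w p K (N - K) with hG
  set W := univ.biUnion β with hW
  set V := univ.biUnion δ with hV
  have hWs : W ⊆ Icc lo hi := biUnion_subset.2 fun j _ => hβ j
  have hVs : V ⊆ Icc lo hi := biUnion_subset.2 fun j _ => hδ j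
  have A0 : ∀ a, 0 ≤ A a := fw_nonneg hw hp h.g.l0 i
  have B0 : ∀ a, 0 ≤ B a := fw_nonneg hw hp h.g.r0 i
  have G0 : ∀ a, 0 < G a := bw_pos hw hp _ _
  have b0 : ∀ a, 0 < b a := bw_pos hw hp _ _
  -- the functions of the exits
  set F : ℤ → ℝ := fun y => if y ∈ V then G y else 0 with hF
  have F0 : ∀ y, 0 ≤ F y := fun y => by
    rw [hF]
    dsimp only
    split_ifs
    · exact (G0 y).le
    · exact le_rfl
  set f : ι → ℤ → ℝ := fun j y => if y ∈ δ j then G y else 0 with hf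
  have f0 : ∀ j y, 0 ≤ f j y := fun j y => by
    rw [hf]
    dsimp only
    split_ifs
    · exact (G0 y).le
    · exact le_rfl
  have Ff : ∀ y, F y ≤ ∑ j, f j y := by
    intro y
    by_cases hy : y ∈ V
    · obtain ⟨j, _, hj⟩ := mem_biUnion.1 hy
      have e1 : F y = f j y := by
        rw [hF, hf]
        dsimp only
        rw [if_pos hy, if_pos hj]
      rw [e1]
      exact single_le_sum (f := fun j => f j y) (fun j _ => f0 j y) (mem_univ j)
    · have e1 : F y = 0 := by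
        rw [hF]
        dsimp only
        rw [if_neg hy]
      rw [e1]
      exact sum_nonneg fun j _ => f0 j y
  -- off V
  have k0 : ∀ x y, 0 ≤ ker w p i n x y := fun x y => ker_nonneg hw hp i n x y
  set off : ℤ → ℝ := fun x => ∑ y ∈ Icc lo hi \ V, ker w p i n x y * G y with hoff
  have off0 : ∀ x, 0 ≤ off x := fun x => sum_nonneg fun y _ => mul_nonneg (k0 x y) (G0 y).le
  have sk : ∀ x, ∑ y ∈ Icc lo hi, ker w p i n x y * G y ≤ b x := fun x => sum_ker_le hw hp hK hKN x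
  have HV : ∀ x x', HH w p Q lo hi N K i n x x' ≤ MF w p Q lo hi F i n x x' + (off x * b x' + b x * off x') := by
    intro x x'
    have e1 : HH w p Q lo hi N K i n x x' - MF w p Q lo hi F i n x x' =
        ∑ y ∈ Icc lo hi, ∑ y' ∈ Icc lo hi, mq w p Q i n x x' y y' * (G y * G y' - F y * F y') := by
      unfold HH MF
      rw [← sum_sub_distrib]
      refine sum_congr rfl fun y _ => ?_
      rw [← sum_sub_distrib]
      exact sum_congr rfl fun y' _ => by rw [hG]; ring
    have e2 : ∑ y ∈ Icc lo hi, ∑ y' ∈ Icc lo hi, mq w p Q i n x x' y y' * (G y * G y' - F y * F y') ≤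
        ∑ y ∈ Icc lo hi, ∑ y' ∈ Icc lo hi, ((if y ∈ V then 0 else ker w p i n x y * G y) * (ker w p i n x' y' * G y') +
          (ker w p i n x y * G y) * (if y' ∈ V then 0 else ker w p i n x' y' * G y')) := by
      refine sum_le_sum fun y _ => sum_le_sum fun y' _ => ?_
      have q0 := mq_nonneg hw hp Q n i x x' y y'
      have q1 := mq_le hw hp Q n i x x' y y'
      have g1 := (G0 y).le
      have g2 := (G0 y').le
      have p1 := mul_nonneg (mul_nonneg (k0 x y) g1) (mul_nonneg (k0 x' y') g2)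
      have p2 : mq w p Q i n x x' y y' * (G y * G y') ≤ ker w p i n x y * G y * (ker w p i n x' y' * G y') := by
        calc _ ≤ (ker w p i n x y * ker w p i n x' y') * (G y * G y') := mul_le_mul_of_nonneg_right q1 (mul_nonneg g1 g2)
          _ = _ := by ring
      have eF : ∀ z, F z = if z ∈ V then G z else 0 := fun z => by rw [hF]
      rw [eF, eF]
      by_cases h1 : y ∈ V
      · by_cases h2 : y' ∈ V
        · rw [if_pos h1, if_pos h1, if_pos h2, if_pos h2]
          simp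
        · rw [if_pos h1, if_pos h1, if_neg h2, if_neg h2]
          simp only [mul_zero, sub_zero, zero_mul, zero_add]
          exact p2
      · by_cases h2 : y' ∈ V
        · rw [if_neg h1, if_neg h1, if_pos h2, if_pos h2]
          simp only [zero_mul, sub_zero, mul_zero, add_zero]
          exact p2
        · rw [if_neg h1, if_neg h1, if_neg h2, if_neg h2]
          simp only [mul_zero, sub_zero]
          linarith
    have e3 : ∀ z, ∑ y ∈ Icc lo hi, (if y ∈ V then 0 else ker w p i n z y * G y) = off z := by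
      intro z
      rw [hoff]
      dsimp only
      rw [← filter_notMem_eq_sdiff, sum_filter]
      refine sum_congr rfl fun y _ => ?_
      split_ifs <;> rfl
    have e4 : ∑ y ∈ Icc lo hi, ∑ y' ∈ Icc lo hi, ((if y ∈ V then 0 else ker w p i n x y * G y) * (ker w p i n x' y' * G y') +
          (ker w p i n x y * G y) * (if y' ∈ V then 0 else ker w p i n x' y' * G y')) =
        off x * (∑ y ∈ Icc lo hi, ker w p i n x' y * G y) + (∑ y ∈ Icc lo hi, ker w p i n x y * G y) * off x' := by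
      rw [← e3 x, ← e3 x', sum_mul_sum, sum_mul_sum, ← sum_add_distrib]
      exact sum_congr rfl fun y _ => by rw [← sum_add_distrib]
    have e5 := mul_le_mul_of_nonneg_left (sk x') (off0 x)
    have e6 := mul_le_mul_of_nonneg_right (sk x) (off0 x')
    linarith
  -- the sum over the starts
  have S1 : (1 - ε) * (ZM * ZR) ≤ ps2 lo hi (fun x x' => dp w p l r i x x' * MF w p Q lo hi F i n x x') + ZM * ZR / 4 := by
    refine hε.trans ?_
    rw [sum_cq' h hK hKN hQ]
    have e1 : ps2 lo hi (fun x x' => dp w p l r i x x' * HH w p Q lo hi N K i n x x') ≤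
        ps2 lo hi (fun x x' => dp w p l r i x x' * MF w p Q lo hi F i n x x' +
          (A x * off x * (B x' * b x') + A x * b x * (B x' * off x'))) := by
      refine sum_le_sum fun x _ => sum_le_sum fun x' _ => ?_
      show dp w p l r i x x' * HH w p Q lo hi N K i n x x' ≤ dp w p l r i x x' * MF w p Q lo hi F i n x x' +
          (A x * off x * (B x' * b x') + A x * b x * (B x' * off x'))
      by_cases hx : x < x'
      · have d0 := dp_nonneg hw hp h.g i x x' hx.le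
        have d1 : dp w p l r i x x' ≤ A x * B x' := by
          unfold dp
          have := mul_nonneg (A0 x') (B0 x)
          linarith
        have c1 := mul_le_mul_of_nonneg_left (HV x x') d0
        have c2 : dp w p l r i x x' * (off x * b x' + b x * off x') ≤ A x * B x' * (off x * b x' + b x * off x') :=
          mul_le_mul_of_nonneg_right d1 (add_nonneg (mul_nonneg (off0 x) (b0 x').le) (mul_nonneg (b0 x).le (off0 x')))
        calc _ ≤ dp w p l r i x x' * (MF w p Q lo hi F i n x x' + (off x * b x' + b x * off x')) := c1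
          _ = dp w p l r i x x' * MF w p Q lo hi F i n x x' + dp w p l r i x x' * (off x * b x' + b x * off x') := by ring
          _ ≤ dp w p l r i x x' * MF w p Q lo hi F i n x x' + A x * B x' * (off x * b x' + b x * off x') := by linarith
          _ = _ := by ring
      · rw [HH_not Q K i n hx, MF_not Q F i n hx]
        have t1 := mul_nonneg (mul_nonneg (A0 x) (off0 x)) (mul_nonneg (B0 x') (b0 x').le)
        have t2 := mul_nonneg (mul_nonneg (A0 x) (b0 x).le) (mul_nonneg (B0 x') (off0 x'))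
        linarith
    have e2 : ps2 lo hi (fun x x' => A x * off x * (B x' * b x') + A x * b x * (B x' * off x')) =
        (∑ x ∈ Icc lo hi, A x * off x) * (∑ x ∈ Icc lo hi, B x * b x) +
          (∑ x ∈ Icc lo hi, A x * b x) * ∑ x ∈ Icc lo hi, B x * off x := by
      rw [ps2_add, sum_mul_sum, sum_mul_sum]
      rfl
    have hsV : Icc lo hi \ V ⊆ Icc lo hi := sdiff_subset
    have e3 : ∀ m : ℤ → ℝ, (∀ y, y < lo → m y = 0) → ∑ x ∈ Icc lo hi, fw w p m i x * off x =
        ∑ y ∈ Icc lo hi \ V, fw w p m K y * G y := by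
      intro m m1
      rw [← thrS_row m1 hK hsV]
      unfold thrS thr
      exact sum_congr rfl fun x _ => by rw [hoff]; dsimp only; rw [mul_sum]
    have e4 := e3 l (fun y hy => (h.lo0 y hy).1)
    have e5 := e3 r (fun y hy => (h.lo0 y hy).2)
    rw [ps2_add, e2, zM, zR, e4, e5] at e1
    have e6 := mul_le_mul_of_nonneg_right oKM hR.le
    have e7 := mul_le_mul_of_nonneg_left oKR hM.le
    linarith
  have S2 : ps2 lo hi (fun x x' => dp w p l r i x x' * MF w p Q lo hi F i n x x') ≤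
      (∑ x ∈ W, ∑ x' ∈ W, dp w p l r i x x' * MF w p Q lo hi F i n x x') + ZM * ZR / 4 := by
    have e1 : ps2 lo hi (fun x x' => dp w p l r i x x' * MF w p Q lo hi F i n x x') ≤
        ps2 lo hi (fun x x' => (if x ∈ W then (if x' ∈ W then dp w p l r i x x' * MF w p Q lo hi F i n x x' else 0) else 0) +
          ((if x ∈ W then 0 else A x * b x) * (B x' * b x') + A x * b x * (if x' ∈ W then 0 else B x' * b x'))) := by
      refine sum_le_sum fun x _ => sum_le_sum fun x' _ => ?_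
      show dp w p l r i x x' * MF w p Q lo hi F i n x x' ≤
        (if x ∈ W then (if x' ∈ W then dp w p l r i x x' * MF w p Q lo hi F i n x x' else 0) else 0) +
          ((if x ∈ W then 0 else A x * b x) * (B x' * b x') + A x * b x * (if x' ∈ W then 0 else B x' * b x'))
      have t0 : 0 ≤ A x * b x * (B x' * b x') := mul_nonneg (mul_nonneg (A0 x) (b0 x).le) (mul_nonneg (B0 x') (b0 x').le)
      have t1 : dp w p l r i x x' * MF w p Q lo hi F i n x x' ≤ A x * b x * (B x' * b x') := by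
        by_cases hx : x < x'
        · have d1 : dp w p l r i x x' ≤ A x * B x' := by
            unfold dp
            have := mul_nonneg (A0 x') (B0 x)
            linarith
          have FG : ∀ z, ∑ y ∈ Icc lo hi, ker w p i n z y * F y ≤ b z := fun z => by
            refine le_trans (sum_le_sum fun y _ => mul_le_mul_of_nonneg_left ?_ (k0 z y)) (sk z)
            rw [hF]
            dsimp only
            split_ifs
            · exact le_rfl
            · exact (G0 y).le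
          have m1 : MF w p Q lo hi F i n x x' ≤ b x * b x' :=
            (MF_le hw hp Q F0 i n x x').trans (mul_le_mul (FG x) (FG x')
              (sum_nonneg fun y _ => mul_nonneg (k0 x' y) (F0 y)) (b0 x).le)
          calc _ ≤ A x * B x' * (b x * b x') := mul_le_mul d1 m1 (MF_nonneg hw hp Q F0 i n x x') (mul_nonneg (A0 x) (B0 x'))
            _ = _ := by ring
        · rw [MF_not Q F i n hx, mul_zero]
          exact t0
      by_cases h1 : x ∈ W
      · by_cases h2 : x' ∈ W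
        · rw [if_pos h1, if_pos h2, if_pos h1, if_pos h2]
          simp
        · rw [if_pos h1, if_neg h2, if_pos h1, if_neg h2]
          simp only [zero_mul, zero_add]
          exact t1
      · rw [if_neg h1, if_neg h1]
        have t2 : 0 ≤ A x * b x * (if x' ∈ W then 0 else B x' * b x') := by
          refine mul_nonneg (mul_nonneg (A0 x) (b0 x).le) ?_
          split_ifs
          · exact le_rfl
          · exact mul_nonneg (B0 x') (b0 x').le
        linarith
    have e2 : ps2 lo hi (fun x x' => (if x ∈ W then 0 else A x * b x) * (B x' * b x') +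
        A x * b x * (if x' ∈ W then 0 else B x' * b x')) =
        (∑ x ∈ Icc lo hi \ W, A x * b x) * ZR + ZM * ∑ x ∈ Icc lo hi \ W, B x * b x := by
      have e3 : ∀ g : ℤ → ℝ, ∑ x ∈ Icc lo hi, (if x ∈ W then 0 else g x) = ∑ x ∈ Icc lo hi \ W, g x := by
        intro g
        rw [← filter_notMem_eq_sdiff, sum_filter]
        refine sum_congr rfl fun y _ => ?_
        split_ifs <;> rfl
      rw [← zM, ← zR, ← e3, ← e3, ps2_add, sum_mul_sum, sum_mul_sum]
      rfl
    have e4 : ps2 lo hi (fun x x' => if x ∈ W then (if x' ∈ W then dp w p l r i x x' * MF w p Q lo hi F i n x x' else 0) else 0) =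
        ∑ x ∈ W, ∑ x' ∈ W, dp w p l r i x x' * MF w p Q lo hi F i n x x' := by
      have e5 : ∀ g : ℤ → ℝ, ∑ x ∈ Icc lo hi, (if x ∈ W then g x else 0) = ∑ x ∈ W, g x := by
        intro g
        rw [← sum_filter]
        refine sum_congr ?_ fun _ _ => rfl
        ext x
        rw [mem_filter]
        exact ⟨fun h1 => h1.2, fun h1 => ⟨hWs h1, h1⟩⟩
      unfold ps2
      have e6 : ∀ x, ∑ x' ∈ Icc lo hi, (if x ∈ W then (if x' ∈ W then dp w p l r i x x' * MF w p Q lo hi F i n x x' else 0) else 0) =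
          if x ∈ W then ∑ x' ∈ W, dp w p l r i x x' * MF w p Q lo hi F i n x x' else 0 := by
        intro x
        split_ifs
        · exact e5 _
        · simp
      rw [sum_congr rfl fun x _ => e6 x, e5]
    rw [ps2_add, e2, e4] at e1
    have e6 := mul_le_mul_of_nonneg_right oM hR.le
    have e7 := mul_le_mul_of_nonneg_left oR hM.le
    linarith
  have hZZ : 0 < ZM * ZR := mul_pos hM hR
  have S3 : ZM * ZR / 4 ≤ ∑ x ∈ W, ∑ x' ∈ W, dp w p l r i x x' * MF w p Q lo hi F i n x x' := by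
    have := mul_le_mul_of_nonneg_right hε4 hZZ.le
    linarith
  -- cells
  set n0 : ℝ := (Fintype.card ι : ℝ) with hn0
  have n0p : 0 < n0 := by
    rw [hn0]
    exact_mod_cast Fintype.card_pos
  have dM : ∀ (j : ι) (x x' : ℤ), 0 ≤ dp w p l r i x x' * MF w p Q lo hi (f j) i n x x' := by
    intro j x x'
    by_cases hx : x < x'
    · exact mul_nonneg (dp_nonneg hw hp h.g i x x' hx.le) (MF_nonneg hw hp Q (f0 j) i n x x')
    · rw [MF_not Q (f j) i n hx, mul_zero]
  have S4 : ∑ x ∈ W, ∑ x' ∈ W, dp w p l r i x x' * MF w p Q lo hi F i n x x' ≤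
      n0 * ∑ j, ∑ x ∈ W, ∑ x' ∈ W, dp w p l r i x x' * MF w p Q lo hi (f j) i n x x' := by
    have e1 : ∑ j, ∑ x ∈ W, ∑ x' ∈ W, dp w p l r i x x' * MF w p Q lo hi (f j) i n x x' =
        ∑ x ∈ W, ∑ x' ∈ W, dp w p l r i x x' * ∑ j, MF w p Q lo hi (f j) i n x x' := by
      rw [sum_comm]
      refine sum_congr rfl fun x _ => ?_
      rw [sum_comm]
      exact sum_congr rfl fun x' _ => by rw [mul_sum]
    rw [e1, mul_sum]
    refine sum_le_sum fun x _ => ?_
    rw [mul_sum]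
    refine sum_le_sum fun x' _ => ?_
    by_cases hx : x < x'
    · calc _ ≤ dp w p l r i x x' * (n0 * ∑ j, MF w p Q lo hi (f j) i n x x') :=
            mul_le_mul_of_nonneg_left (MF_sq hw hp Q f0 F0 Ff n i x x') (dp_nonneg hw hp h.g i x x' hx.le)
        _ = _ := by ring
    · rw [MF_not Q F i n hx, mul_zero]
      refine mul_nonneg n0p.le ?_
      rw [mul_sum]
      exact sum_nonneg fun j _ => dM j x x'
  have S5 : ZM * ZR / 4 / n0 ≤ ∑ j, ∑ x ∈ W, ∑ x' ∈ W, dp w p l r i x x' * MF w p Q lo hi (f j) i n x x' := by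
    rw [div_le_iff₀ n0p]
    exact (S3.trans S4).trans_eq (mul_comm _ _)
  obtain ⟨j₃, h3⟩ := pig S5
  have cov : ∀ (g : ℤ → ℝ), (∀ x, 0 ≤ g x) → ∑ x ∈ W, g x ≤ ∑ j, ∑ x ∈ β j, g x := by
    intro g g0
    have e1 : ∀ j, ∑ x ∈ β j, g x = ∑ x ∈ W, if x ∈ β j then g x else 0 := by
      intro j
      rw [← sum_filter]
      refine sum_congr ?_ fun _ _ => rfl
      ext x
      rw [mem_filter]
      exact ⟨fun h1 => ⟨mem_biUnion.2 ⟨j, mem_univ j, h1⟩, h1⟩, fun h1 => h1.2⟩
    rw [sum_congr rfl fun j _ => e1 j, sum_comm]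
    refine sum_le_sum fun x hx => ?_
    obtain ⟨j, _, hj⟩ := mem_biUnion.1 hx
    have e2 : g x = if x ∈ β j then g x else 0 := (if_pos hj).symm
    calc g x = if x ∈ β j then g x else 0 := e2
      _ ≤ _ := single_le_sum (f := fun j => if x ∈ β j then g x else 0) (fun j _ => by
        split_ifs
        · exact g0 x
        · exact le_rfl) (mem_univ j)
  set T : ℤ → ℤ → ℝ := fun x x' => dp w p l r i x x' * MF w p Q lo hi (f j₃) i n x x' with hT
  have T0 : ∀ x x', 0 ≤ T x x' := fun x x' => dM j₃ x x'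
  have S6 : ZM * ZR / 4 / n0 / n0 ≤ ∑ j₁, ∑ x ∈ β j₁, ∑ x' ∈ W, T x x' :=
    h3.trans (cov (fun x => ∑ x' ∈ W, T x x') fun x => sum_nonneg fun x' _ => T0 x x')
  obtain ⟨j₁, h1⟩ := pig S6
  have S7 : ZM * ZR / 4 / n0 / n0 / n0 ≤ ∑ j₂, ∑ x ∈ β j₁, ∑ x' ∈ β j₂, T x x' := by
    refine h1.trans ?_
    rw [sum_comm (s := univ)]
    exact sum_le_sum fun x _ => cov (fun x' => T x x') fun x' => T0 x x'
  obtain ⟨j₂, h2⟩ := pig S7
  have S8 : ∑ x ∈ β j₁, ∑ x' ∈ β j₂, T x x' ≤ thrS w p l N K i n (β j₁) (δ j₃) * thrS w p r N K i n (β j₂) (δ j₃) := by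
    have e3 : ∀ m : ℤ → ℝ, ∀ β' : Finset ℤ, thrS w p m N K i n β' (δ j₃) =
        ∑ x ∈ β', fw w p m i x * ∑ y ∈ Icc lo hi, ker w p i n x y * f j₃ y := by
      intro m β'
      unfold thrS thr
      refine sum_congr rfl fun x _ => ?_
      rw [← mul_sum]
      congr 1
      have e4 : ∀ y ∈ Icc lo hi, ker w p i n x y * f j₃ y = if y ∈ δ j₃ then ker w p i n x y * G y else 0 := by
        intro y _
        rw [hf]
        dsimp only
        split_ifs
        · rfl
        · rw [mul_zero]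
      rw [sum_congr rfl e4, ← sum_filter]
      refine sum_congr ?_ fun _ _ => rfl
      ext y
      rw [mem_filter]
      exact ⟨fun h1 => ⟨hδ j₃ h1, h1⟩, fun h1 => h1.2⟩
    rw [e3, e3, sum_mul_sum]
    refine sum_le_sum fun x _ => sum_le_sum fun x' _ => ?_
    by_cases hx : x < x'
    · have d1 : dp w p l r i x x' ≤ A x * B x' := by
        unfold dp
        have := mul_nonneg (A0 x') (B0 x)
        linarith
      calc T x x' ≤ A x * B x' * ((∑ y ∈ Icc lo hi, ker w p i n x y * f j₃ y) * ∑ y ∈ Icc lo hi, ker w p i n x' y * f j₃ y) :=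
            mul_le_mul d1 (MF_le hw hp Q (f0 j₃) i n x x') (MF_nonneg hw hp Q (f0 j₃) i n x x') (mul_nonneg (A0 x) (B0 x'))
        _ = _ := by ring
    · rw [hT]
      dsimp only
      rw [MF_not Q (f j₃) i n hx, mul_zero]
      exact mul_nonneg (mul_nonneg (A0 x) (sum_nonneg fun y _ => mul_nonneg (k0 x y) (f0 j₃ y)))
        (mul_nonneg (B0 x') (sum_nonneg fun y _ => mul_nonneg (k0 x' y) (f0 j₃ y)))
  have key : 1 / (4 * n0 ^ 4) * (ZM * ZR) ≤ thrS w p l N K i n (β j₁) (δ j₃) * thrS w p r N K i n (β j₂) (δ j₃) := by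
    have e1 : ZM * ZR / 4 / n0 / n0 / n0 / n0 = 1 / (4 * n0 ^ 4) * (ZM * ZR) := by
      field_simp
    rw [← e1]
    exact h2.trans S8
  have u1 : thrS w p l N K i n (β j₁) (δ j₃) ≤ ZM := by
    have := thrS_add hw hp h h.g.l0 (fun y hy => (h.lo0 y hy).1) (fun y hy => (h.hi0 y hy).1) hK hKN (hβ j₁)
      (empty_subset _) (hδ j₃) (disjoint_empty_right (β j₁))
    rw [← hZM] at this
    unfold thrS at this ⊢
    rw [sum_empty, add_zero] at this
    exact this
  have u2 : thrS w p r N K i n (β j₂) (δ j₃) ≤ ZR := by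
    have := thrS_add hw hp h h.g.r0 (fun y hy => (h.lo0 y hy).2) (fun y hy => (h.hi0 y hy).2) hK hKN (hβ j₂)
      (empty_subset _) (hδ j₃) (disjoint_empty_right (β j₂))
    rw [← hZR] at this
    unfold thrS at this ⊢
    rw [sum_empty, add_zero] at this
    exact this
  have v1 : 0 ≤ thrS w p l N K i n (β j₁) (δ j₃) := sum_nonneg fun x _ => sum_nonneg fun y _ => thr_nonneg hw hp h.g.l0 K i n x y
  have v2 : 0 ≤ thrS w p r N K i n (β j₂) (δ j₃) := sum_nonneg fun x _ => sum_nonneg fun y _ => thr_nonneg hw hp h.g.r0 K i n x y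
  refine ⟨j₁, j₂, j₃, ?_, ?_⟩
  · refine le_of_mul_le_mul_right ?_ hR
    calc 1 / (4 * n0 ^ 4) * ZM * ZR = 1 / (4 * n0 ^ 4) * (ZM * ZR) := by ring
      _ ≤ _ := key.trans (mul_le_mul_of_nonneg_left u2 v1)
  · refine le_of_mul_le_mul_left ?_ hM
    calc ZM * (1 / (4 * n0 ^ 4) * ZR) = 1 / (4 * n0 ^ 4) * (ZM * ZR) := by ring
      _ ≤ _ := key.trans (mul_le_mul_of_nonneg_right u1 v2)

/-- **The inside is usable**: the cells of `usable`, if regular, satisfy `hin` of `new_of_inG`, and they are ordered. -/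
theorem usable_inG (hw : ∀ k y, 0 < w k y) (hp : ∀ k, 0 < p k) (h : Box l r X lo hi N) {Q : Finset (ℕ × ℤ)} {K i n : ℕ}
    (hK : i + n = K) (hKN : K ≤ N) (hQ : Q ⊆ Ico i K ×ˢ Icc lo hi) {ε κ ZM ZR : ℝ} (hε4 : ε ≤ 1 / 4) (hκ : 0 < κ) (hκε : ε < κ ^ 2)
    (hZM : ZM = ∑ y ∈ Icc lo hi, l y * bw w p 0 N y) (hZR : ZR = ∑ y ∈ Icc lo hi, r y * bw w p 0 N y)
    (hM : 0 < ZM) (hR : 0 < ZR) (hε : (1 - ε) * (ZM * ZR) ≤ ∑ c ∈ Q, cq w p l r N c.1 c.2)
    {ι : Type*} [Fintype ι] [Nonempty ι] {β δ : ι → Finset ℤ} (hβ : ∀ j, β j ⊆ Icc lo hi) (hδ : ∀ j, δ j ⊆ Icc lo hi)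
    (oM : ∑ x ∈ Icc lo hi \ univ.biUnion β, fw w p l i x * bw w p i (N - i) x ≤ ZM / 8)
    (oR : ∑ x ∈ Icc lo hi \ univ.biUnion β, fw w p r i x * bw w p i (N - i) x ≤ ZR / 8)
    (oKM : ∑ y ∈ Icc lo hi \ univ.biUnion δ, fw w p l K y * bw w p K (N - K) y ≤ ZM / 8)
    (oKR : ∑ y ∈ Icc lo hi \ univ.biUnion δ, fw w p r K y * bw w p K (N - K) y ≤ ZR / 8)
    (hmodM : ∀ j j₃, 1 / (4 * (Fintype.card ι : ℝ) ^ 4) * ZM ≤ thrS w p l N K i n (β j) (δ j₃) →
      ∀ x ∈ β j, ∀ y ∈ δ j₃, κ * ZM ≤ thr w p l N K i n x y)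
    (hmodR : ∀ j j₃, 1 / (4 * (Fintype.card ι : ℝ) ^ 4) * ZR ≤ thrS w p r N K i n (β j) (δ j₃) →
      ∀ x ∈ β j, ∀ y ∈ δ j₃, κ * ZR ≤ thr w p r N K i n x y) :
    ∃ j₁ j₂ j₃, (∀ x ∈ β j₁, ∀ x' ∈ β j₂, x < x') ∧
      (∀ x ∈ β j₁, ∀ x' ∈ β j₂, ∀ y ∈ δ j₃, ∀ y' ∈ δ j₃,
        (1 - ε / κ ^ 2) * (ker w p i n x y * ker w p i n x' y') ≤ mq w p Q i n x x' y y') ∧
      1 / (4 * (Fintype.card ι : ℝ) ^ 4) * ZM ≤ thrS w p l N K i n (β j₁) (δ j₃) ∧
      1 / (4 * (Fintype.card ι : ℝ) ^ 4) * ZR ≤ thrS w p r N K i n (β j₂) (δ j₃) := by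
  obtain ⟨j₁, j₂, j₃, a1, a2⟩ := usable hw hp h hK hKN hQ hε4 hZM hZR hM hR hε hβ hδ oM oR oKM oKR
  have b1 := hmodM j₁ j₃ a1
  have b2 := hmodR j₂ j₃ a2
  have c : ∀ x ∈ β j₁, ∀ x' ∈ β j₂, ∀ y ∈ δ j₃, ∀ y' ∈ δ j₃,
      (1 - ε / κ ^ 2) * (ker w p i n x y * ker w p i n x' y') ≤ mq w p Q i n x x' y y' := fun x hx x' hx' y hy y' hy' =>
    inG_of_old hw hp h hK hKN hQ hκ hZM hZR hM hR hε (hβ j₁ hx) (hβ j₂ hx') (hδ j₃ hy) (hδ j₃ hy') (b1 x hx y hy) (b2 x' hx' y' hy')
  -- there is a site in the exit cell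
  have n0p : 0 < (Fintype.card ι : ℝ) := by exact_mod_cast Fintype.card_pos
  have hne : (δ j₃).Nonempty := by
    by_contra hc
    rw [not_nonempty_iff_eq_empty] at hc
    unfold thrS at a1
    rw [hc] at a1
    simp only [sum_empty, sum_const_zero] at a1
    have : 0 < 1 / (4 * (Fintype.card ι : ℝ) ^ 4) * ZM := by positivity
    linarith
  obtain ⟨y, hy⟩ := hne
  refine ⟨j₁, j₂, j₃, ?_, c, a1, a2⟩
  intro x hx x' hx'
  have kp : ∀ (m : ℤ → ℝ) (Z : ℝ) (z : ℤ), (∀ y, 0 ≤ m y) → 0 < Z → κ * Z ≤ thr w p m N K i n z y → 0 < ker w p i n z y := by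
    intro m Z z hm hZ hz
    have h1 : 0 < thr w p m N K i n z y := lt_of_lt_of_le (mul_pos hκ hZ) hz
    refine lt_of_le_of_ne (ker_nonneg hw hp i n z y) fun h2 => ?_
    unfold thr at h1
    rw [← h2, zero_mul, mul_zero] at h1
    exact lt_irrefl _ h1
  have k1 := kp l ZM x h.g.l0 hM (b1 x hx y hy)
  have k2 := kp r ZR x' h.g.r0 hR (b2 x' hx' y hy)
  by_contra hlt
  have h3 := c x hx x' hx' y hy y hy
  rw [mq_not Q i n hlt] at h3
  have h4 : 0 < 1 - ε / κ ^ 2 := by
    rw [sub_pos, div_lt_one (by positivity)]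
    exact hκε
  have := mul_pos h4 (mul_pos k1 k2)
  linarith

end

end Pool.Agent.W_7d29a1_C1.Bx47
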