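import Pool.Agent.W_7d29a1_C1.Pol48
import Pool.Agent.W_7d29a1_C1.InE60
import Pool.Agent.W_7d29a1_C1.GeoF10
import Pool.Agent.W_7d29a1_C1.ShlB8

/-!
Both halves (MP_7d29a1_pr), attractor route, SHELL: THE INSIDE OF A SUCCESS, ALL THE NUMBERS OF THE GRID DISCHARGED (helper60).

`inE48` : the kernel of the rows `ρ₀ → z + 5 T / 8` for a contact of a success of level `t` over the grid `GW`, levels `yl8 U K χ` as in
`ShlR8` / `FrS8`, any unit comparable with `2 T`, any line within `Λ' wd (2 T)` of the box; envelope `A (1 + U) ^ 4`, lower bound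
`A (1 + U) ^ 2`, the constant `A` before `U` (over helper48's `enG48`).
-/

set_option autoImplicit false
set_option linter.unusedSectionVars false

namespace Pool.Agent.W_7d29a1_C1.H60

open MeasureTheory ProbabilityTheory Filter Topology
open Pool.Agent.W_7d29a1_F Pool.Agent.W_7d29a1_h4g Pool.Agent.W_7d29a1_H Pool.Agent.W_7d29a1_HS
open Pool.Agent.W_7d29a1_C1.S71 Pool.Agent.W_7d29a1_C1.Sw9 Pool.Agent.W_7d29a1_C1.H75 Pool.Agent.W_7d29a1_C1.U16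
open Pool.Agent.W_7d29a1_C1.FarK89 Pool.Agent.W_7d29a1_C1.FarW89
open Pool.Agent.W_7d29a1_C1.T10 Pool.Agent.W_7d29a1_C1.S83 Pool.Agent.W_7d29a1_C1.D31
open Pool.Agent.W_7d29a1_C1.H8 (yl8)
open scoped ENNReal

noncomputable section

variable {μ : Measure ℝ} {s : ℝ} [IsProbabilityMeasure μ] {c C : ℝ} {n₀ : ℕ}

/-! ### The heights of the level events -/

theorem yl8_nonneg {U K χ : ℝ} (hU : 0 ≤ U) (hK : 0 ≤ K) (l : ℕ) : 0 ≤ yl8 U K χ l :=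
  mul_nonneg hU (Real.rpow_nonneg hK _)

theorem yl8_mono {U K χ : ℝ} (hU : 0 ≤ U) (hK : 1 ≤ K) (hχ : 0 ≤ χ) : Monotone (yl8 U K χ) := fun a b hab => by
  unfold yl8
  have h1 : (a : ℝ) ≤ b := by exact_mod_cast hab
  exact mul_le_mul_of_nonneg_left (Real.rpow_le_rpow_of_exponent_le hK (mul_le_mul_of_nonneg_left h1 hχ)) hU

theorem yl8_le {U K χ R : ℝ} (hU : 0 ≤ U) (hK : 0 ≤ K) (hR : K ^ χ ≤ R) (l : ℕ) : yl8 U K χ l ≤ U * R ^ l := by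
  unfold yl8
  refine mul_le_mul_of_nonneg_left ?_ hU
  rw [Real.rpow_mul hK, Real.rpow_natCast]
  exact pow_le_pow_left₀ (Real.rpow_nonneg hK _) hR l

/-- The exponent `χ` of the heights : `K ^ χ ≤ R` for a small `χ`. -/
theorem exists_chi60 {K R : ℝ} (hK : 0 < K) (hR : 1 < R) : ∃ χ₀ : ℝ, 0 < χ₀ ∧ ∀ χ : ℝ, 0 ≤ χ → χ ≤ χ₀ → K ^ χ ≤ R := by
  obtain ⟨a, ha⟩ : ∃ a : ℝ, a = |Real.log K| + 1 := ⟨_, rfl⟩
  have ha0 : 0 < a := by rw [ha]; positivity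
  have hl : 0 < Real.log R := Real.log_pos hR
  refine ⟨Real.log R / a, by positivity, fun χ h0 h1 => ?_⟩
  have h2 : Real.log K * χ ≤ Real.log R := by
    have h3 : Real.log K ≤ a := by
      rw [ha]
      linarith [le_abs_self (Real.log K)]
    have h4 : χ * a ≤ Real.log R := by rwa [le_div_iff₀ ha0] at h1
    calc Real.log K * χ ≤ a * χ := mul_le_mul_of_nonneg_right h3 h0
      _ = χ * a := mul_comm _ _
      _ ≤ _ := h4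
  rw [Real.rpow_def_of_pos hK]
  calc Real.exp (Real.log K * χ) ≤ Real.exp (Real.log R) := Real.exp_le_exp.2 h2
    _ = R := Real.exp_log (by linarith)

/-- **THE KERNEL OF THE INSIDE OF A SUCCESS**, rows `ρ₀ → z + 5 T / 8`. -/
theorem inE48 (h0 : In μ s c C n₀) (P : ℕ) {K : ℕ} (hK : 8 ≤ K) {a : ℕ} (ha : 1 ≤ a) {θ Kw D Λ' C₀ : ℝ} (hθ : 0 < θ)
    (hθ8 : θ ≤ 1 / 64) (hD : 0 ≤ D) (hΛ' : 0 ≤ Λ') (hKw : 2 * (2 * a * D + (Λ' + C₀ ^ 2)) + 8 ≤ Kw) :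
    ∃ R : ℝ, 1 < R ∧ ∃ A : ℝ, 1 ≤ A ∧ ∀ c₂ σ : ℝ, 0 < c₂ → 0 < σ → ∃ n₁ : ℕ, 1 ≤ n₁ ∧
    ∀ U χ : ℝ, 0 ≤ U → 0 ≤ χ → (K : ℝ) ^ χ ≤ R →
    ∀ {R' : ℝ} {B : ℕ} {h : ℝ} {p : ℕ → ℝ} {M h₀ : ℕ} {G : Gd} {L Lm : ℕ} {t : ℕ} {x : ℕ × ℤ} {η : Env} {κ' : Pt}
      {r₀ r₁ : ℤ} {ρ₀ Tt : ℕ} {q₁ : ℝ}, GW μ s R' B C₀ h₀ K L G → (∀ k, k < M → p k = Real.exp (s + h)) →
      (∀ k, M ≤ k → p k = Real.exp s) → n₁ ≤ h₀ → 2 ≤ t → t ≤ L → t ≤ Lm + 1 → 0 ≤ q₁ → q₁ ≤ U → Tg h₀ K t ≤ (G.z t x).1 →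
      η ∉ Rch (lvL G (LvE Lm (EL60 μ s c θ Kw P (Tg h₀ K) (yl8 U K χ))) L) (t - 2) x →
      sh (G.x t x) η ∈ ELx60 μ s c θ Kw P (2 * Tg h₀ K t) (Tg h₀ K (t - 1)) r₀ r₁ q₁ (G.z (t - 1) (G.rel t x)) →
      |lat16 μ s κ' (G.x t x)| ≤ Λ' * wd μ s (2 * Tg h₀ K t) → n₁ ≤ Tt → Tt ≤ a * (2 * Tg h₀ K t) → 2 * Tg h₀ K t ≤ a * Tt →
      -(Tg h₀ K t : ℤ) ≤ r₀ → r₁ ≤ Tg h₀ K t → (5 * Tg h₀ K t / 8 : ℕ) ≤ r₁ → ((G.z t x).1 : ℤ) + r₀ ≤ ρ₀ →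
      (ρ₀ : ℝ) + Tg h₀ K (t - 1) + 2 * θ * Tg h₀ K t ≤ (G.z t x).1 →
      |h| * wd μ s (2 * Tg h₀ K t) ≤ c / 8 * EE μ s (2 * Tg h₀ K t) →
      (∀ P', 2 * P ≤ P' → ∀ I J : Finset ℤ, En31 P' (c / 8 / (2 * a ^ 2)) c₂ (EE μ s Tt) (wd μ s Tt)
        (A * (1 + U) ^ 4) σ (fun z => lat16 μ s κ' ((ρ₀ : ℤ), z))
        (fun z => lat16 μ s κ' ((((G.z t x).1 + 5 * Tg h₀ K t / 8 : ℕ) : ℤ), z))
        (nk μ s h η p M ρ₀ ((G.z t x).1 + 5 * Tg h₀ K t / 8 - ρ₀)) I J) ∧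
      (∀ z z' : ℤ, |lat16 μ s κ' ((ρ₀ : ℤ), z)| ≤ D * wd μ s Tt →
        |lat16 μ s κ' ((((G.z t x).1 + 5 * Tg h₀ K t / 8 : ℕ) : ℤ), z')| ≤ D * wd μ s Tt →
        Real.exp (-(A * (1 + U) ^ 2 * EE μ s Tt)) ≤ nk μ s h η p M ρ₀ ((G.z t x).1 + 5 * Tg h₀ K t / 8 - ρ₀) z z') := by
  have haR : (1 : ℝ) ≤ a := by exact_mod_cast ha
  have hKR : (8 : ℝ) ≤ K := by exact_mod_cast hK
  have hc0 := h0.c0
  obtain ⟨R, hR, H⟩ := P48.enG48 h0 P (show 2 ≤ K by omega) (θ := θ) (Kw := Kw) (D := 2 * a * D + (Λ' + C₀ ^ 2)) hθ (by linarith)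
    (by positivity) hKw
  obtain ⟨A, hA, H⟩ := H (C₀ ^ 2) (by positivity)
  obtain ⟨g₁, hg₁⟩ : ∃ g₁ : ℝ, g₁ = gr (2 * P) (2 * a + (Λ' + C₀ ^ 2) + 1) := ⟨_, rfl⟩
  have hg1 : 1 ≤ g₁ := by rw [hg₁]; exact gr_one_le _ (by positivity)
  have hga : 1 ≤ g₁ * a := by nlinarith
  refine ⟨R, hR, A * (g₁ * a), by nlinarith, fun c₂ σ hc₂ hσ => ?_⟩
  obtain ⟨n₁, hn₁, H⟩ := H c₂ σ hc₂ hσ
  obtain ⟨n₂, hn₂, HU⟩ := enU60 h0 ha hc₂ hσ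
  obtain ⟨n₃, H3⟩ := eventually_atTop.1 ((wd_tendsto h0).eventually_ge_atTop 1)
  refine ⟨max (max n₁ n₂) (max n₃ 64), (hn₁.trans (le_max_left _ _)).trans (le_max_left _ _), fun U χ hU hχ hUR => ?_⟩
  have H1w : ∀ n, max (max n₁ n₂) (max n₃ 64) ≤ n → 0 < wd μ s n := fun n hn => by
    linarith [H3 n (((le_max_left _ _).trans (le_max_right _ _)).trans hn)]
  intro R' B h p M h₀ G L Lm t x η κ' r₀ r₁ ρ₀ Tt q₁ g hp hp' hh ht htL htLm hq1 hq1' hrow hY hx hκ' hTt hTa hTa' hr0 hr1 hr1' hρ₀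
    hρ₀' hforce
  have hh1 : n₁ ≤ h₀ := ((le_max_left _ _).trans (le_max_left _ _)).trans hh
  have hh2 : n₂ ≤ h₀ := ((le_max_right _ _).trans (le_max_left _ _)).trans hh
  have hh3 : 64 ≤ h₀ := ((le_max_right _ _).trans (le_max_right _ _)).trans hh
  have gu := g.toGU
  have hTH : Tg h₀ K t = 2 * G.H t := g.TH (by omega)
  have hTH' : Tg h₀ K (t - 1) = 2 * G.H (t - 1) := g.TH (by omega)
  have hKT : K * Tg h₀ K (t - 1) ≤ Tg h₀ K t := g.Tpred (by omega)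
  have h8T : 8 * Tg h₀ K (t - 1) ≤ Tg h₀ K t := (Nat.mul_le_mul_right _ hK).trans hKT
  have hhT : h₀ ≤ Tg h₀ K t := by
    rw [Tg_pos (show 1 ≤ t by omega), mul_comm 2 h₀, mul_assoc]
    have h1 : 1 ≤ K ^ t := Nat.one_le_pow t K (by omega)
    exact Nat.le_mul_of_pos_right _ (by omega)
  have hT64 : 64 ≤ Tg h₀ K t := hh3.trans hhT
  have hT2 : h₀ ≤ 2 * Tg h₀ K t := by omega
  have hz1 : (G.z t x).1 ≤ (G.z (t - 1) x).1 := (g.row_in (Nat.sub_le _ _) htL x).1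
  have hx' : sh (G.x t x) η ∈ ELx60 μ s c θ Kw P (2 * Tg h₀ K t) (Tg h₀ K (t - 1)) r₀ r₁ q₁ (G.dg (t - 1) x) := by
    unfold Gd.dg
    rw [Nat.sub_add_cancel (show 1 ≤ t by omega)]
    exact hx
  obtain ⟨s1, s2⟩ := H U hU (h := h) (p := p) (M := M) (κ := pt x) (ρ₀ := ρ₀) (ρ₁ := (G.z t x).1 + 5 * Tg h₀ K t / 8) hp hp' g.ok g.H hh1
    ht htL htLm (yl8_mono hU (by linarith) hχ) (yl8_nonneg hU (by linarith)) (yl8_le hU (by linarith) hUR) hq1 hq1'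
    (fun v hv => (g.Tmono hv).trans (hrow.trans (g.row_in hv htL x).1)) hY hx'
    (fun v hv1 hv2 => gu.lat_base' hv1 (hv2.trans htL) x) hr0 hr1 hρ₀ (by push_cast; push_cast at hr1'; omega) (by
      push_cast
      linarith) (by
      obtain ⟨F, hF⟩ : ∃ F : ℕ, F = 5 * Tg h₀ K t / 8 := ⟨_, rfl⟩
      have e2 : (5 * Tg h₀ K t : ℝ) ≤ 8 * (F : ℝ) + 7 := by
        have : 5 * Tg h₀ K t ≤ 8 * F + 7 := by omega
        exact_mod_cast this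
      rw [← hF]
      have e1 : (((((G.z t x).1 + F : ℕ) : ℤ) + G.H (t - 1) - (((G.z t x).1 : ℤ) + G.H t + Tg h₀ K (t - 1)) : ℤ) : ℝ) =
          (F : ℝ) + (G.H (t - 1) : ℝ) - (G.H t : ℝ) - (Tg h₀ K (t - 1) : ℝ) := by
        push_cast
        ring
      rw [e1]
      have e3 : (Tg h₀ K t : ℝ) = 2 * (G.H t : ℝ) := by exact_mod_cast hTH
      have e4 : (Tg h₀ K (t - 1) : ℝ) = 2 * (G.H (t - 1) : ℝ) := by exact_mod_cast hTH'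
      have e5 : 8 * (Tg h₀ K (t - 1) : ℝ) ≤ (Tg h₀ K t : ℝ) := by exact_mod_cast h8T
      have e6 : (64 : ℝ) ≤ (Tg h₀ K t : ℝ) := by exact_mod_cast hT64
      have e7 : θ * (2 * Tg h₀ K t : ℕ) ≤ 1 / 64 * (2 * Tg h₀ K t : ℕ) := mul_le_mul_of_nonneg_right hθ8 (Nat.cast_nonneg _)
      push_cast at e7 ⊢
      linarith) hforce
  have hw21 := gu.lat_base (show 1 ≤ t by omega) htL x
  have hκκ : |lat16 μ s (pt x) κ'| ≤ (Λ' + C₀ ^ 2) * wd μ s (2 * Tg h₀ K t) := by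
    have h1 := lat_tri (μ := μ) (s := s) κ' (G.x t x) (pt x)
    rw [lat_swap, abs_neg]
    linarith
  have hpp : ∀ k, 0 < p k := fun k => by
    rcases lt_or_ge k M with h3 | h3
    · rw [hp k h3]; exact Real.exp_pos _
    · rw [hp' k h3]; exact Real.exp_pos _
  have n2 : n₂ ≤ 2 * Tg h₀ K t := hh2.trans hT2
  have nT : max n₁ n₂ ≤ Tt := (le_max_left _ _).trans hTt
  refine ⟨fun P' hP' I J => ?_, fun z z' hz hz' => ?_⟩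
  · have e := s1 (2 * P) le_rfl I J
    have e1 := HU (P := 2 * P) ((le_max_right _ _).trans nT) n2 hTa hTa' hκκ (by positivity) (q := A * (1 + U) ^ 4) (by positivity)
      (by positivity) (fun _ _ => nk_nonneg hpp _ _ _ _) e.up
    have hw : 0 < wd μ s Tt := H1w Tt (hTt)
    refine en_weak (EE_pos (μ := μ) (s := s) Tt) hw e1 hP' (le_of_eq ?_) le_rfl le_rfl le_rfl
    rw [← hg₁]
    ring
  · have e1 := loU60 h0 ha (hn₁.trans ((le_max_left _ _).trans nT)) (hn₂.trans n2) hTa hTa' hκκ hD (by positivity) s2 z z' hz hz'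
    refine le_trans (Real.exp_le_exp.2 ?_) e1
    have hE := EE_pos (μ := μ) (s := s) Tt
    have h1 : A * (1 + U) ^ 2 * a ≤ A * (g₁ * a) * (1 + U) ^ 2 := by
      have h2 : A * (1 + U) ^ 2 * a ≤ A * (1 + U) ^ 2 * a * g₁ := le_mul_of_one_le_right (by positivity) hg1
      linarith
    have := mul_le_mul_of_nonneg_right h1 hE.le
    linarith

end

end Pool.Agent.W_7d29a1_C1.H60
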