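import Pool.Agent.W_7d29a1_C1.InsF10

/-!
MP_7d29a1_pr, [C1] SHELL, SIDE F (helper73): `rho73` : THE ROWS OF THE INSIDE OF A SUCCESS, which starts at `r₁ = c₀ + (R₁ + RB) k` (hypotheses of `inE48`).
-/

set_option autoImplicit false

namespace Pool.Agent.W_7d29a1_C1.Sb73

open MeasureTheory Finset
open Pool.Agent.W_7d29a1_F Pool.Agent.W_7d29a1_h4g Pool.Agent.W_7d29a1_H Pool.Agent.W_7d29a1_HS
open Pool.Agent.W_7d29a1_C1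
open Pool.Agent.W_7d29a1_C1.T10

noncomputable section

/-! ### The rows of the inside of a success -/

/-- **THE INSIDE STARTS AT `r₁ = c₀ + (R₁ + RB) k`** : the hypotheses on the rows of `inE48`, for `32 ≤ th K`, `θ ≤ th / 128`. -/
theorem rho73 {th : ℝ} (h0 : 0 < th) (h1 : th ≤ 1 / 4) {R₁ : ℕ} (hR : 1 ≤ R₁) : ∃ n₁ : ℕ, 1 ≤ n₁ ∧
    ∀ {μ : Measure ℝ} {s R C₀ : ℝ} {B h₀ K L : ℕ} {G : Gd}, GW μ s R B C₀ h₀ K L G → n₁ ≤ h₀ → 32 ≤ th * K → ∀ RB : ℕ,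
    (RB : ℝ) ≤ th / 8 * R₁ → ∀ {θ : ℝ}, 0 ≤ θ → θ ≤ th / 128 → ∀ t, 1 ≤ t → ∀ z : ℕ, Tg h₀ K t ≤ z → ∀ ρ₀ : ℕ,
      ρ₀ = z + 1 - Tg h₀ K t + (R₁ + RB) * kF th R₁ (Tg h₀ K t) →
      (ρ₀ : ℝ) + Tg h₀ K (t - 1) + 2 * θ * Tg h₀ K t ≤ z ∧ (z : ℤ) + rA10 th R₁ (Tg h₀ K) t ≤ ρ₀ ∧
      -(Tg h₀ K t : ℤ) ≤ rA10 th R₁ (Tg h₀ K) t ∧ ρ₀ = cF th R₁ z (Tg h₀ K t) + RB * kF th R₁ (Tg h₀ K t) := by
  obtain ⟨n₁, hn₁, H⟩ := rowsF h0 h1 hR 0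
  refine ⟨max n₁ ⌈64 / th⌉₊, hn₁.trans (le_max_left _ _), fun {μ s R C₀ B h₀ K L G} g hn hK RB hRB {θ} hθ hθ1 t ht z hz ρ₀ hρ₀ => ?_⟩
  have hK1 := g.K1
  have hT : h₀ ≤ Tg h₀ K t := by
    rw [Tg_pos ht, mul_comm 2 h₀, mul_assoc]
    exact Nat.le_mul_of_pos_right _ (Nat.mul_pos two_pos (Nat.pow_pos (by omega)))
  obtain ⟨T, hTe⟩ : ∃ T : ℕ, T = Tg h₀ K t := ⟨_, rfl⟩
  obtain ⟨T', hTe'⟩ : ∃ T' : ℕ, T' = Tg h₀ K (t - 1) := ⟨_, rfl⟩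
  have hKT : K * T' ≤ T := by rw [hTe, hTe']; exact g.Tpred ht
  have hrA := rA10_cF (th := th) (R₁ := R₁) (T := Tg h₀ K) (j := t) (z := z) hz
  have hlow := rA10_low th R₁ (Tg h₀ K) t
  rw [← hTe] at hz hT hρ₀ hrA ⊢
  have hlow' : -(T : ℤ) ≤ rA10 th R₁ (Tg h₀ K) t := by rw [hTe]; exact hlow
  rw [← hTe']
  have hnT : n₁ ≤ T := (le_max_left _ _).trans (hn.trans hT)
  have h64 : 64 ≤ th * T := by
    have h2 : (64 / th : ℝ) ≤ T := (Nat.le_ceil _).trans (by exact_mod_cast (le_max_right _ _).trans (hn.trans hT))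
    rw [div_le_iff₀ h0] at h2
    linarith
  obtain ⟨-, -, -, -, -, a6⟩ := H T z hnT hz
  have hT0 : (0 : ℝ) ≤ T := Nat.cast_nonneg _
  have hTp : (T' : ℝ) ≤ th * T / 32 := by
    have h2 : (K : ℝ) * T' ≤ T := by exact_mod_cast hKT
    have h3 : 32 * (T' : ℝ) ≤ th * K * T' := mul_le_mul_of_nonneg_right hK (Nat.cast_nonneg _)
    have h4 : th * (K * T') ≤ th * T := mul_le_mul_of_nonneg_left h2 h0.le
    nlinarith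
  obtain ⟨y, hy⟩ : ∃ y : ℕ, y = T' + ⌈2 * θ * T⌉₊ := ⟨_, rfl⟩
  have hc1 : 2 * θ * T ≤ (⌈2 * θ * T⌉₊ : ℝ) := Nat.le_ceil _
  have hc2 : (⌈2 * θ * T⌉₊ : ℝ) < 2 * θ * T + 1 := Nat.ceil_lt_add_one (by positivity)
  have hθT : 2 * θ * T ≤ th * T / 64 := by
    have := mul_le_mul_of_nonneg_right hθ1 hT0
    linarith
  have hyT : (y : ℝ) ≤ th * T / 16 := by
    rw [hy]
    push_cast
    linarith
  have a7 := a6 RB y hRB hyT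
  have hyz : y ≤ z := by
    have h2 : (y : ℝ) ≤ T := by
      have h3 : th * T ≤ 1 / 4 * T := mul_le_mul_of_nonneg_right h1 hT0
      linarith
    have h4 : y ≤ T := by exact_mod_cast h2
    omega
  have e1 : ρ₀ = cF th R₁ z T + RB * kF th R₁ T := by
    rw [hρ₀]
    unfold cF
    have : (R₁ + RB) * kF th R₁ T = R₁ * kF th R₁ T + RB * kF th R₁ T := by ring
    omega
  have a8 : ρ₀ + y ≤ z := by omega
  refine ⟨?_, ?_, hlow', e1⟩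
  · have h2 : (ρ₀ : ℝ) + y ≤ z := by exact_mod_cast a8
    rw [hy] at h2
    push_cast at h2
    linarith
  · rw [e1, ← hrA]
    push_cast
    have : (0 : ℤ) ≤ (RB : ℤ) * (kF th R₁ T : ℤ) := by positivity
    linarith

end

end Pool.Agent.W_7d29a1_C1.Sb73
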