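import Pool.Agent.W_7d29a1_C1.InE48
import Pool.Agent.W_7d29a1_C1.RhoI73
import Pool.Agent.W_7d29a1_C1.FaD45

/-!
MP_7d29a1_pr, [C1] SHELL, side F, LsU (helper29): **THE INSIDE OF A SUCCESS IN THE LETTERS OF `LsU`** (`inE48` of helper60 and helper48,
rows by `rho73` of helper73): line of the middle `κ = (z.1, z.2 + cm)` of the box, unit `EE (T_l)`, `wd (T_l)`, first row
`c₀ + (R₁ + N) k` with `N = 0` (`c₀'`, the row of the cells) or any `N ≤ th / 8 R₁` (`r₁`, the end of the typical rows).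
-/

set_option autoImplicit false

namespace Pool.Agent.W_7d29a1_C1.F29

open MeasureTheory ProbabilityTheory Filter Topology
open Pool.Agent.W_7d29a1_F Pool.Agent.W_7d29a1_h4g Pool.Agent.W_7d29a1_H Pool.Agent.W_7d29a1_HS
open Pool.Agent.W_7d29a1_C1.S71 Pool.Agent.W_7d29a1_C1.Sw9 Pool.Agent.W_7d29a1_C1.H75 Pool.Agent.W_7d29a1_C1.U16
open Pool.Agent.W_7d29a1_C1.FarK89 Pool.Agent.W_7d29a1_C1.FarW89
open Pool.Agent.W_7d29a1_C1.T10 Pool.Agent.W_7d29a1_C1.S83 Pool.Agent.W_7d29a1_C1.D31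
open Pool.Agent.W_7d29a1_C1.H60 Pool.Agent.W_7d29a1_C1.Sb73
open Pool.Agent.W_7d29a1_C1.JnC35 (ln35 lat_ln)
open Pool.Agent.W_7d29a1_C1.H8 (yl8)

noncomputable section

variable {μ : Measure ℝ} {s : ℝ} [IsProbabilityMeasure μ] {c C : ℝ} {n₀ : ℕ}

/-- The line of the middle of the box. -/
def kp29 (G : Gd) (l : ℕ) (x : ℕ × ℤ) : Pt := (((G.z l x).1 : ℤ), xm G l x)

/-- **THE INSIDE OF A SUCCESS.** -/
theorem inU29 (h0 : In μ s c C n₀) {th : ℝ} (hth : 0 < th) (hth4 : th ≤ 1 / 4) {K : ℕ} (hK : 8 ≤ K) (hKth : 32 ≤ th * K) {C₀ D : ℝ}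
    (hC : 1 ≤ C₀) (hD : 0 ≤ D) : ∃ θ Kw : ℝ, 0 < θ ∧ θ ≤ 1 ∧ 0 < Kw ∧ ∀ P : ℕ, ∃ χ : ℝ, 0 < χ ∧ ∃ A : ℝ, 1 ≤ A ∧
    ∀ c₂ σ : ℝ, 0 < c₂ → 0 < σ → ∀ R₁ RB : ℕ, 1 ≤ R₁ → (RB : ℝ) ≤ th / 8 * R₁ → ∃ n₁ : ℕ, 1 ≤ n₁ ∧
    ∀ {U qx : ℝ}, 0 ≤ qx → qx ≤ U → ∀ {R' : ℝ} {B : ℕ} {h : ℝ} {p : ℕ → ℝ} {M h₀ : ℕ} {G : Gd} {L Lm l : ℕ} {x : ℕ × ℤ} {η : Env},
      GW μ s R' B C₀ h₀ K L G → (∀ k, k < M → p k = Real.exp (s + h)) → (∀ k, M ≤ k → p k = Real.exp s) → n₁ ≤ h₀ → 2 ≤ l → l ≤ L →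
      l ≤ Lm + 1 → Tg h₀ K l ≤ (G.z l x).1 →
      η ∉ Rch (lvL G (LvE Lm (EL60 μ s c θ Kw P (Tg h₀ K) (yl8 U K χ))) L) (l - 2) x →
      sh (G.x l x) η ∈ Sp10 μ s c θ Kw P (Tg h₀ K) 2 (rA10 th R₁ (Tg h₀ K)) (rE10 (Tg h₀ K)) qx l (G.z (l - 1) (G.rel l x)) →
      |h| * Tg h₀ K l ≤ 1 →
      ∀ N : ℕ, N ≤ RB → ∀ ρ₀ : ℕ, ρ₀ = (G.z l x).1 + 1 - Tg h₀ K l + (R₁ + N) * kF th R₁ (Tg h₀ K l) →
      (∀ P', 2 * P ≤ P' → ∀ I J : Finset ℤ, En31 P' (c / 64) c₂ (EE μ s (Tg h₀ K l)) (wd μ s (Tg h₀ K l))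
        (A * (1 + U) ^ 4) σ (fun y => (y : ℝ) - ln35 μ s (kp29 G l x) ρ₀)
        (fun y => (y : ℝ) - ln35 μ s (kp29 G l x) ((G.z l x).1 + 5 * Tg h₀ K l / 8))
        (nk μ s h η p M ρ₀ ((G.z l x).1 + 5 * Tg h₀ K l / 8 - ρ₀)) I J) ∧
      (∀ y y' : ℤ, |(y : ℝ) - ln35 μ s (kp29 G l x) ρ₀| ≤ D * wd μ s (Tg h₀ K l) →
        |(y' : ℝ) - ln35 μ s (kp29 G l x) ((G.z l x).1 + 5 * Tg h₀ K l / 8)| ≤ D * wd μ s (Tg h₀ K l) →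
        Real.exp (-(A * (1 + U) ^ 2 * EE μ s (Tg h₀ K l))) ≤
          nk μ s h η p M ρ₀ ((G.z l x).1 + 5 * Tg h₀ K l / 8 - ρ₀) y y') := by
  have hc := h0.c0
  obtain ⟨Kw, hKw⟩ : ∃ Kw : ℝ, Kw = 2 * (2 * (2 : ℕ) * D + (C₀ ^ 2 + C₀ ^ 2)) + 8 := ⟨_, rfl⟩
  have hKw0 : 0 < Kw := by
    rw [hKw]
    positivity
  refine ⟨th / 128, Kw, by linarith, by linarith, hKw0, fun P => ?_⟩
  obtain ⟨R, hR, A, hA, H⟩ := inE48 h0 P hK (a := 2) (by norm_num) (θ := th / 128) (Kw := Kw) (D := D) (Λ' := C₀ ^ 2) (C₀ := C₀)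
    (by linarith) (by linarith) hD (by positivity) (le_of_eq hKw.symm)
  obtain ⟨χ, hχ, hχR⟩ := exists_chi60 (K := (K : ℝ)) (R := R) (by exact_mod_cast (show 0 < K by omega)) hR
  refine ⟨χ, hχ, A, hA, fun c₂ σ hc₂ hσ R₁ RB hR₁ hRB => ?_⟩
  obtain ⟨n₁, hn₁, H⟩ := H c₂ σ hc₂ hσ
  obtain ⟨n₂, hn₂, HR⟩ := rho73 hth hth4 hR₁
  obtain ⟨n₃, H3⟩ := eventually_atTop.1 (h0.tE.eventually_ge_atTop (32 * wd μ s 1 / c))
  refine ⟨max (max n₁ n₂) n₃, (hn₁.trans (le_max_left _ _)).trans (le_max_left _ _), ?_⟩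
  intro U qx hqx hqU R' B h p M h₀ G L Lm l x η g hp hp' hh hl hlL hlLm hrow hY hSp hforce N hN ρ₀ hρ₀
  have hh1 : n₁ ≤ h₀ := ((le_max_left _ _).trans (le_max_left _ _)).trans hh
  have hh2 : n₂ ≤ h₀ := ((le_max_right _ _).trans (le_max_left _ _)).trans hh
  have hh3 : n₃ ≤ h₀ := (le_max_right _ _).trans hh
  obtain ⟨T, hT⟩ : ∃ T : ℕ, T = Tg h₀ K l := ⟨_, rfl⟩
  have hhT : h₀ ≤ T := by
    rw [hT, Tg_pos (show 1 ≤ l by omega), mul_comm 2 h₀, mul_assoc]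
    exact Nat.le_mul_of_pos_right _ (Nat.mul_pos two_pos (Nat.pow_pos (by omega)))
  have hNB : (N : ℝ) ≤ th / 8 * R₁ := le_trans (by exact_mod_cast hN) hRB
  obtain ⟨r1, r2, r3, -⟩ := HR g hh2 hKth N hNB (θ := th / 128) (by linarith) le_rfl l (by omega) (G.z l x).1 hrow ρ₀ hρ₀
  -- the line
  have hlat : |lat16 μ s (kp29 G l x) (G.x l x)| ≤ C₀ ^ 2 * wd μ s (2 * Tg h₀ K l) := by
    have e1 : lat16 μ s (kp29 G l x) (G.x l x) = -(((G.V l : ℤ) / 2 : ℤ) : ℝ) := by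
      unfold lat16 kp29 xm
      have e2 : (G.x l x).1 = ((G.z l x).1 : ℤ) := rfl
      have e3 : (G.x l x).2 = (G.z l x).2 := rfl
      simp only [e2, e3]
      push_cast
      ring
    have v1 := g.V l (by omega) hlL
    have v2 := g.wB l (by omega)
    have v3 := g.w2 l (by omega)
    have hV0 : (0 : ℤ) ≤ (G.V l : ℤ) / 2 := Int.ediv_nonneg (Int.natCast_nonneg _) (by norm_num)
    have hV1 : (((G.V l : ℤ) / 2 : ℤ) : ℝ) ≤ (G.V l : ℝ) := by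
      have : (G.V l : ℤ) / 2 ≤ (G.V l : ℤ) := Int.ediv_le_self _ (Int.natCast_nonneg _)
      exact_mod_cast this
    have hV0' : (0 : ℝ) ≤ (((G.V l : ℤ) / 2 : ℤ) : ℝ) := by exact_mod_cast hV0
    rw [e1, abs_neg, abs_of_nonneg hV0']
    have hl0 : (0 : ℝ) ≤ (l : ℝ) := Nat.cast_nonneg _
    have v4 := mul_le_mul_of_nonneg_left v3 (show (0 : ℝ) ≤ C₀ by linarith)
    calc (((G.V l : ℤ) / 2 : ℤ) : ℝ) ≤ (G.V l : ℝ) := hV1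
      _ ≤ wd μ s (B * Tg h₀ K l) := by linarith
      _ ≤ C₀ * wd μ s (Tg h₀ K l) := v2
      _ ≤ C₀ * (C₀ * wd μ s (2 * Tg h₀ K l)) := v4
      _ = C₀ ^ 2 * wd μ s (2 * Tg h₀ K l) := by ring
  -- the force
  have hT1 : 1 ≤ T := g.h1.trans hhT
  have hF : |h| * wd μ s (2 * Tg h₀ K l) ≤ c / 8 * EE μ s (2 * Tg h₀ K l) := by
    rw [← hT] at hforce ⊢
    have f1 := wd_le h0 le_rfl (show 1 ≤ 2 * T by omega)
    have f2 : 32 * wd μ s 1 / c ≤ EE μ s (2 * T) := H3 _ (by omega)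
    rw [div_le_iff₀ hc] at f2
    have f3 : (2 : ℝ) * (((2 * T : ℕ) : ℝ) / ((1 : ℕ) : ℝ)) * wd μ s 1 = 4 * T * wd μ s 1 := by
      push_cast
      ring
    rw [f3] at f1
    have hw1 : 0 < wd μ s 1 := h0.wd_pos le_rfl
    calc |h| * wd μ s (2 * T) ≤ |h| * (4 * T * wd μ s 1) := mul_le_mul_of_nonneg_left f1 (abs_nonneg h)
      _ = |h| * T * (4 * wd μ s 1) := by ring
      _ ≤ 1 * (4 * wd μ s 1) := mul_le_mul_of_nonneg_right hforce (by positivity)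
      _ ≤ c / 8 * EE μ s (2 * T) := by linarith
  have hx : sh (G.x l x) η ∈ ELx60 μ s c (th / 128) Kw P (2 * Tg h₀ K l) (Tg h₀ K (l - 1)) (rA10 th R₁ (Tg h₀ K) l) (rE10 (Tg h₀ K) l) qx
      (G.z (l - 1) (G.rel l x)) := hSp.2
  have hU : 0 ≤ U := hqx.trans hqU
  obtain ⟨s1, s2⟩ := H U χ hU hχ.le (hχR χ hχ.le le_rfl) g hp hp' hh1 hl hlL hlLm hqx hqU hrow hY hx hlat (Tt := Tg h₀ K l)
    (by rw [← hT]; exact hh1.trans hhT) (by omega) le_rfl r3 (by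
      unfold rE10
      have : 5 * Tg h₀ K l / 8 ≤ Tg h₀ K l := by omega
      exact_mod_cast this) le_rfl r2 r1 hF
  have fn : ∀ r : ℕ, (fun y : ℤ => lat16 μ s (kp29 G l x) ((r : ℤ), y)) = fun y : ℤ => (y : ℝ) - ln35 μ s (kp29 G l x) r := fun r => by
    funext y
    exact lat_ln μ s (kp29 G l x) r y
  refine ⟨fun P' hP' I J => ?_, fun y y' hy hy' => ?_⟩
  · have h1 := s1 P' hP' I J
    rw [fn, fn] at h1
    have e : c / 8 / (2 * ((2 : ℕ) : ℝ) ^ 2) = c / 64 := by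
      push_cast
      ring
    rw [e] at h1
    exact h1
  · refine s2 y y' ?_ ?_
    · rw [lat_ln]
      exact hy
    · rw [lat_ln]
      exact hy'

end

end Pool.Agent.W_7d29a1_C1.F29
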