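import Pool.Agent.W_7d29a1_C1.JnE35
import Pool.Agent.W_7d29a1_C1.FreA20

/-!
MP_7d29a1_pr, [C1], SHELL, FRESH BALL: **THE EXIT IN ANOTHER UNIT** (helper35). `Ex35.unit` : unit `(E, w)` to `(E', w')`, centres moved by
`≤ D w'`; `Ex35.model` : `(EE n, wd n)` to `(EE Tt, wd Tt)`, `n ≤ Tt ≤ 6 n`; `Ex35.level` : weaker constants.
-/

set_option autoImplicit false

namespace Pool.Agent.W_7d29a1_C1.JnE35

open MeasureTheory Finset
open Pool.Agent.W_7d29a1_F Pool.Agent.W_7d29a1_h4g Pool.Agent.W_7d29a1_H Pool.Agent.W_7d29a1_HS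
open Pool.Agent.W_7d29a1_C1
open Pool.Agent.W_7d29a1_C1.FarK89 (gr gr_nonneg gr_one_le gr_mono gr_mul)
open Pool.Agent.W_7d29a1_C1.S83 (gr_pow_mono)

noncomputable section

variable {P P' : ℕ} {q q' κ κ' U U' G G' E w ce cz E' w' ce' cz' A A' B D : ℝ} {a : ℤ} {N : ℕ} {δ δ' δ₁ : Finset ℤ} {K₂ : ℤ → ℤ → ℝ}

/-- The exponent in the other unit. -/
theorem unit35 (hE : 0 < E) (hw : 0 < w) (hE' : 0 < E') (hw' : 0 < w') (hq : 0 ≤ q) (hκ' : 0 ≤ κ') (hA : E ≤ A * E') (hB : w' ≤ B * w)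
    (hB1 : 1 ≤ B) (hr : κ' * (E' / w') ≤ κ * (E / w)) (hD : 0 ≤ D) (hc : |ce' - ce| ≤ D * w') (hcc : |(cz' - cz) - (ce' - ce)| ≤ D * w')
    (v z : ℤ) : q * gr P (|(v : ℝ) - ce| / w) * E - κ * (E / w) * |((z : ℝ) - cz) - ((v : ℝ) - ce)| ≤
      (q * gr P (B * (1 + D)) * A + κ' * D) * gr P (|(v : ℝ) - ce'| / w') * E' - κ' * (E' / w') * |((z : ℝ) - cz') - ((v : ℝ) - ce')| := by
  obtain ⟨X, hX⟩ : ∃ X : ℝ, X = |(v : ℝ) - ce| / w := ⟨_, rfl⟩
  obtain ⟨X', hX'⟩ : ∃ X : ℝ, X = |(v : ℝ) - ce'| / w' := ⟨_, rfl⟩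
  have hX0 : 0 ≤ X := by rw [hX]; positivity
  have hX0' : 0 ≤ X' := by rw [hX']; positivity
  have hBD : 0 ≤ B * (1 + D) := by positivity
  have g1 : X ≤ B * (X' + D) := by
    have e1 : |(v : ℝ) - ce| ≤ (X' + D) * w' := by
      have e2 := abs_add_le ((v : ℝ) - ce') (ce' - ce)
      rw [sub_add_sub_cancel] at e2
      have e3 : |(v : ℝ) - ce'| = X' * w' := by
        rw [hX']
        field_simp
      rw [e3] at e2
      linarith
    rw [hX, div_le_iff₀ hw]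
    refine e1.trans ((mul_le_mul_of_nonneg_left hB (by positivity)).trans (le_of_eq ?_))
    ring
  have g2 : gr P X ≤ gr P (B * (1 + D)) * gr P X' := by
    refine gr_mul P hBD hX0' hX0 ?_
    nlinarith [mul_nonneg (mul_nonneg (zero_le_one.trans hB1) hD) hX0']
  have g0 := gr_nonneg P hX0'
  have g0' := gr_nonneg P hBD
  have g3 : q * gr P X * E ≤ q * gr P (B * (1 + D)) * A * gr P X' * E' := by
    calc q * gr P X * E ≤ q * (gr P (B * (1 + D)) * gr P X') * (A * E') :=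
          mul_le_mul (mul_le_mul_of_nonneg_left g2 hq) hA hE.le (by positivity)
      _ = _ := by ring
  have g4 : |((z : ℝ) - cz') - ((v : ℝ) - ce')| ≤ |((z : ℝ) - cz) - ((v : ℝ) - ce)| + D * w' := by
    have e2 := abs_sub (((z : ℝ) - cz) - ((v : ℝ) - ce)) ((cz' - cz) - (ce' - ce))
    have e3 : ((z : ℝ) - cz) - ((v : ℝ) - ce) - ((cz' - cz) - (ce' - ce)) = ((z : ℝ) - cz') - ((v : ℝ) - ce') := by ring
    rw [e3] at e2
    linarith
  have g5 := mul_le_mul_of_nonneg_left g4 (mul_nonneg hκ' (div_pos hE' hw').le)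
  have g6 : κ' * (E' / w') * (|((z : ℝ) - cz) - ((v : ℝ) - ce)| + D * w') =
      κ' * (E' / w') * |((z : ℝ) - cz) - ((v : ℝ) - ce)| + κ' * D * E' := by
    field_simp
  rw [g6] at g5
  have g7 := mul_le_mul_of_nonneg_right hr (abs_nonneg (((z : ℝ) - cz) - ((v : ℝ) - ce)))
  have g8 : κ' * D * E' ≤ κ' * D * gr P X' * E' := by
    have e1 := gr_one_le P hX0'
    have e2 : 0 ≤ κ' * D := by positivity
    nlinarith [mul_nonneg e2 hE'.le]
  rw [← hX, ← hX']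
  linarith

/-- **THE EXIT IN ANOTHER UNIT.** -/
theorem Ex35.unit (X : Ex35 P q κ U G E w ce cz a N δ δ' K₂) (hE : 0 < E) (hw : 0 < w) (hE' : 0 < E') (hw' : 0 < w') (hq : 0 ≤ q)
    (hU : 0 ≤ U) (hG : 0 ≤ G) (hκ' : 0 ≤ κ') (hA : E ≤ A * E') (hA1 : 0 < A') (hA' : E' ≤ A' * E) (hB : w' ≤ B * w) (hB1 : 1 ≤ B)
    (hr : κ' * (E' / w') ≤ κ * (E / w)) (hD : 0 ≤ D) (hc : |ce' - ce| ≤ D * w') (hcc : |(cz' - cz) - (ce' - ce)| ≤ D * w') (hδ : δ₁ ⊆ δ')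
    (hne : δ₁.Nonempty) :
    Ex35 P (q * gr P (B * (1 + D)) * A + κ' * D) κ' (A * U) (G / A') E' w' ce' cz' a N δ δ₁ K₂ := by
  have hu := unit35 (P := P) (q := q) hE hw hE' hw' hq hκ' hA hB hB1 hr hD hc hcc
  have hG' : Real.exp (-(G * E)) ≤ Real.exp (-(G / A' * E')) := by
    refine Real.exp_le_exp.2 ?_
    have h1 : G / A' * E' ≤ G * E := by
      rw [div_mul_eq_mul_div, div_le_iff₀ hA1]
      calc G * E' ≤ G * (A' * E) := mul_le_mul_of_nonneg_left hA' hG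
        _ = _ := by ring
    linarith
  have hU' : U * E ≤ A * U * E' := by
    calc U * E ≤ U * (A * E') := mul_le_mul_of_nonneg_left hA hU
      _ = _ := by ring
  refine ⟨X.k0, X.kz, X.aδ, fun v z => (X.en v z).trans (Real.exp_le_exp.2 (hu v z)), fun v z hv => ?_, fun v z hv => ?_, fun z hz => ?_, hne⟩
  · exact (X.ofe v z hv).trans (mul_le_mul hG' (Real.exp_le_exp.2 (hu v z)) (Real.exp_pos _).le (Real.exp_pos _).le)
  · refine (X.cell v z hv).trans (add_le_add ?_ ?_)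
    · exact mul_le_mul_of_nonneg_right (Real.exp_le_exp.2 hU') (X.k0 a z)
    · exact mul_le_mul hG' (Real.exp_le_exp.2 (hu v z)) (Real.exp_pos _).le (Real.exp_pos _).le
  · exact (Real.exp_le_exp.2 (by linarith)).trans (X.lo z (hδ hz))

/-- Weaker constants. -/
theorem Ex35.level (X : Ex35 P q κ U G E w ce cz a N δ δ' K₂) (hE : 0 < E) (hw : 0 < w) (hq : 0 ≤ q) (hP : P ≤ P') (hqq : q ≤ q')
    (hκ : κ' ≤ κ) (hU : U ≤ U') (hG : G' ≤ G) (hδ : δ₁ ⊆ δ') (hne : δ₁.Nonempty) : Ex35 P' q' κ' U' G' E w ce cz a N δ δ₁ K₂ := by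
  have hu : ∀ v z : ℤ, q * gr P (|(v : ℝ) - ce| / w) * E - κ * (E / w) * |((z : ℝ) - cz) - ((v : ℝ) - ce)| ≤
      q' * gr P' (|(v : ℝ) - ce| / w) * E - κ' * (E / w) * |((z : ℝ) - cz) - ((v : ℝ) - ce)| := by
    intro v z
    have hX0 : 0 ≤ |(v : ℝ) - ce| / w := by positivity
    have g1 := mul_le_mul hqq (gr_pow_mono hP hX0) (gr_nonneg P hX0) (hq.trans hqq)
    have g2 := mul_le_mul_of_nonneg_right g1 hE.le
    have g3 := mul_le_mul_of_nonneg_right (mul_le_mul_of_nonneg_right hκ (div_pos hE hw).le) (abs_nonneg (((z : ℝ) - cz) - ((v : ℝ) - ce)))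
    linarith
  have hG' : Real.exp (-(G * E)) ≤ Real.exp (-(G' * E)) := by
    refine Real.exp_le_exp.2 ?_
    have := mul_le_mul_of_nonneg_right hG hE.le
    linarith
  have hU' := mul_le_mul_of_nonneg_right hU hE.le
  refine ⟨X.k0, X.kz, X.aδ, fun v z => (X.en v z).trans (Real.exp_le_exp.2 (hu v z)), fun v z hv => ?_, fun v z hv => ?_, fun z hz => ?_, hne⟩
  · exact (X.ofe v z hv).trans (mul_le_mul hG' (Real.exp_le_exp.2 (hu v z)) (Real.exp_pos _).le (Real.exp_pos _).le)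
  · refine (X.cell v z hv).trans (add_le_add ?_ ?_)
    · exact mul_le_mul_of_nonneg_right (Real.exp_le_exp.2 hU') (X.k0 a z)
    · exact mul_le_mul hG' (Real.exp_le_exp.2 (hu v z)) (Real.exp_pos _).le (Real.exp_pos _).le
  · exact (Real.exp_le_exp.2 (by linarith)).trans (X.lo z (hδ hz))

/-- **THE UNITS OF THE BALL.** -/
theorem Ex35.model {μ : Measure ℝ} [IsProbabilityMeasure μ] {s c C : ℝ} {n₀ : ℕ} (h0 : In μ s c C n₀) {n Tt : ℕ} (hn : 1 ≤ n) (h1 : n ≤ Tt)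
    (h6 : Tt ≤ 6 * n) (hwn : 0 < wd μ s n) (hwT : 0 < wd μ s Tt) (X : Ex35 P q κ U G (EE μ s n) (wd μ s n) ce cz a N δ δ' K₂) (hq : 0 ≤ q)
    (hU : 0 ≤ U) (hG : 0 ≤ G) (hκ : 0 ≤ κ) (hD : 0 ≤ D) (hc : |ce' - ce| ≤ D * wd μ s Tt)
    (hcc : |(cz' - cz) - (ce' - ce)| ≤ D * wd μ s Tt) (hδ : δ₁ ⊆ δ') (hne : δ₁.Nonempty) :
    Ex35 P (q * gr P (12 * (1 + D)) + κ / 12 * D) (κ / 12) U (G / 6) (EE μ s Tt) (wd μ s Tt) ce' cz' a N δ δ₁ K₂ := by
  have hE := EE_pos (μ := μ) (s := s) n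
  have hE' := EE_pos (μ := μ) (s := s) Tt
  have e1 : EE μ s n ≤ 1 * EE μ s Tt := by
    have := EE_unit20 h0 (B := 1) (T := Tt) (T' := n) le_rfl (by omega)
    exact_mod_cast this
  have e2 : EE μ s Tt ≤ 6 * EE μ s n := by
    have := EE_unit20 h0 (B := 6) (T := n) (T' := Tt) (by norm_num) h6
    exact_mod_cast this
  have e3 : wd μ s Tt ≤ 12 * wd μ s n := by
    have h2 := wd_unit20 h0 (B := 6) hn (hn.trans h1) h6
    have h3 : (2 : ℝ) * (6 : ℕ) = 12 := by norm_num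
    rwa [h3] at h2
  have e4 : wd μ s n ≤ 2 * wd μ s Tt := by
    have h2 := wd_unit20 h0 (B := 1) (T := Tt) (T' := n) (hn.trans h1) hn (by omega)
    have h3 : (2 : ℝ) * (1 : ℕ) = 2 := by norm_num
    rwa [h3] at h2
  have e5 : κ / 12 * (EE μ s Tt / wd μ s Tt) ≤ κ * (EE μ s n / wd μ s n) := by
    have h2 : EE μ s Tt / wd μ s Tt ≤ 12 * (EE μ s n / wd μ s n) := by
      rw [div_le_iff₀ hwT, mul_div_assoc', div_mul_eq_mul_div, le_div_iff₀ hwn]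
      calc EE μ s Tt * wd μ s n ≤ (6 * EE μ s n) * (2 * wd μ s Tt) := mul_le_mul e2 e4 hwn.le (by positivity)
        _ = _ := by ring
    calc κ / 12 * (EE μ s Tt / wd μ s Tt) ≤ κ / 12 * (12 * (EE μ s n / wd μ s n)) := mul_le_mul_of_nonneg_left h2 (by positivity)
      _ = _ := by ring
  have h7 := X.unit (A := 1) (A' := 6) (B := 12) (κ' := κ / 12) hE hwn hE' hwT hq hU hG (by positivity) e1 (by norm_num) e2 e3 (by norm_num) e5 hD
    hc hcc hδ hne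
  rwa [mul_one, one_mul] at h7

end

end Pool.Agent.W_7d29a1_C1.JnE35
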