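import Pool.Agent.W_7d29a1_C1.FreE83
import Pool.Agent.W_7d29a1_C1.EnC83
import Pool.Agent.W_7d29a1_C1.FreA20
import Pool.Agent.W_7d29a1_C1.Loc31

/-!
Both halves (MP_7d29a1_pr), attractor route [C1], SHELL: THE LAST BLOCK OF THE BALL AND THE DETERMINISTIC ENVELOPE IN THE UNIT OF THE BALL
(helper60, asked by helper12).

`k5o60` : helper83's `freE83` (rows `c3 .. c3 + n3`, `To ≤ 8 n3`, `n3 ≤ 2 To`) in the unit `(EE To, wd To)`, rate `c / 32`. `kap_en60` : the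
deterministic envelope `kap31` of an inner unit as `En31` in the outer unit, another centre.
-/

set_option autoImplicit false
set_option linter.unusedSectionVars false

namespace Pool.Agent.W_7d29a1_C1.H60

open MeasureTheory ProbabilityTheory Filter Topology
open Pool.Agent.W_7d29a1_F Pool.Agent.W_7d29a1_h4g Pool.Agent.W_7d29a1_H Pool.Agent.W_7d29a1_HS
open Pool.Agent.W_7d29a1_C1 Pool.Agent.W_7d29a1_C1.H75 Pool.Agent.W_7d29a1_C1.U16 Pool.Agent.W_7d29a1_C1.FarK89 Pool.Agent.W_7d29a1_C1.FarW89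
open Pool.Agent.W_7d29a1_C1.S83
open Pool.Agent.W_7d29a1_C1.D31

noncomputable section

/-! ### The deterministic envelope -/

/-- **`kap31` OF AN INNER UNIT AS `En31` OF THE OUTER UNIT**, the centre moved by `a`. -/
theorem kap_en60 {P n : ℕ} {c c₁ c₂ c₃ Q S E w Eᵢ wᵢ ρ B D a σ cen cen' : ℝ} {ℓ ℓ' : ℤ → ℝ} {I J : Finset ℤ} (hE : 0 < E) (hw : 0 < w)
    (hEi : 0 ≤ Eᵢ) (hwi : 0 < wᵢ) (hQ : 0 ≤ Q) (hS : 0 ≤ S) (hρ : 0 ≤ ρ) (hD : 0 ≤ D) (hρw : w ≤ ρ * wᵢ) (hB : Eᵢ ≤ B * E)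
    (hr : c * (E / w) ≤ c₃ * (Eᵢ / wᵢ)) (ha : |a| ≤ D * wᵢ) (hℓ : ∀ x : ℤ, ℓ x + a = (x : ℝ) - cen)
    (hℓ' : ∀ x z : ℤ, ℓ' z - ℓ x = ((z : ℝ) - cen') - ((x : ℝ) - cen)) (hσ : 0 ≤ σ)
    (hsum : ∀ x, ∑ y ∈ J, Real.exp (-(c₂ * (E / w) * |ℓ' y - ℓ x|)) ≤ Real.exp (σ * E)) :
    En31 P c c₂ E w ((Q * gr P (AQ P c₁ Q + ρ + D) + S) * B) σ ℓ ℓ' (kap31 P c₁ c₃ Q S Eᵢ wᵢ cen cen' n) I J := by
  have hB0 : 0 ≤ B := by
    by_contra hcon
    have := mul_neg_of_neg_of_pos (not_le.1 hcon) hE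
    linarith
  have hA := AQ_nonneg P c₁ Q
  have hg := gr_nonneg P (show 0 ≤ AQ P c₁ Q + ρ + D by linarith)
  refine ⟨by positivity, hσ, fun x y => kap31_nonneg x y, fun x _ y _ => (kap31_le x y).trans ?_, hsum⟩
  unfold kapo31
  refine Real.exp_le_exp.2 ?_
  obtain ⟨X, hX⟩ : ∃ X : ℝ, X = |ℓ x| / w := ⟨_, rfl⟩
  have hX0 : 0 ≤ X := by rw [hX]; positivity
  have g1 : |(x : ℝ) - cen| / wᵢ ≤ ρ * X + D := by
    have e2 := abs_add_le (ℓ x) a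
    rw [hℓ x] at e2
    have e3 : |ℓ x| = X * w := by
      rw [hX]
      field_simp
    have e4 : X * w ≤ X * (ρ * wᵢ) := mul_le_mul_of_nonneg_left hρw hX0
    rw [div_le_iff₀ hwi]
    linarith
  have hY0 : 0 ≤ |(x : ℝ) - cen| / wᵢ := by positivity
  have g2 : gr P (AQ P c₁ Q + |(x : ℝ) - cen| / wᵢ) ≤ gr P (AQ P c₁ Q + ρ + D) * gr P X :=
    gr_mul P (by linarith) hX0 (by linarith) (by nlinarith [mul_nonneg hρ hX0, mul_nonneg hD hX0, mul_nonneg hA hX0])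
  have g3 := gr_one_le P hX0
  have g4 : Q * gr P (AQ P c₁ Q + |(x : ℝ) - cen| / wᵢ) + S ≤ (Q * gr P (AQ P c₁ Q + ρ + D) + S) * gr P X := by
    have h1 := mul_le_mul_of_nonneg_left g2 hQ
    have h2 : S ≤ S * gr P X := le_mul_of_one_le_right hS g3
    linarith
  have g5 : (Q * gr P (AQ P c₁ Q + |(x : ℝ) - cen| / wᵢ) + S) * Eᵢ ≤ (Q * gr P (AQ P c₁ Q + ρ + D) + S) * gr P X * (B * E) := by
    refine mul_le_mul g4 hB hEi ?_
    have := gr_nonneg P hX0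
    positivity
  have g6 := mul_le_mul_of_nonneg_right hr (abs_nonneg (ℓ' y - ℓ x))
  rw [← hX]
  rw [hℓ' x y] at g6 ⊢
  linarith

variable {μ : Measure ℝ} {s : ℝ} [IsProbabilityMeasure μ] {c C : ℝ} {n₀ : ℕ}

/-- The sum field at the scale `To`. -/
theorem sum_en60 (h0 : In μ s c C n₀) {c₂ σ : ℝ} (hc₂ : 0 < c₂) (hσ : 0 < σ) : ∃ n₁ : ℕ, 1 ≤ n₁ ∧ ∀ To : ℕ, n₁ ≤ To →
    ∀ (cen cen' : ℝ) (J : Finset ℤ) (x : ℤ), ∑ y ∈ J, Real.exp (-(c₂ * (EE μ s To / wd μ s To) * |((y : ℝ) - cen') - ((x : ℝ) - cen)|)) ≤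
      Real.exp (σ * EE μ s To) := by
  obtain ⟨n₁, hn₁, H⟩ := sumR83 h0 hc₂ hσ
  refine ⟨n₁, hn₁, fun To hT cen cen' J x => ?_⟩
  have h1 := H To hT (cen' + ((x : ℝ) - cen)) J
  refine le_trans (le_of_eq (Finset.sum_congr rfl fun y _ => ?_)) h1
  rw [show (y : ℝ) - cen' - ((x : ℝ) - cen) = (y : ℝ) - (cen' + ((x : ℝ) - cen)) by ring]

/-! ### The last block -/

/-- **THE LAST BLOCK IN THE UNIT OF THE BALL.** -/
theorem k5o60 (h0 : In μ s c C n₀) : ∃ (P₀ : ℕ) (Q₃ k₅ : ℝ), 0 ≤ Q₃ ∧ 0 ≤ k₅ ∧ ∀ c₂ : ℝ, 0 < c₂ → ∃ n₁ : ℕ, 1 ≤ n₁ ∧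
    ∀ To : ℕ, n₁ ≤ To → ∀ n3 : ℕ, To ≤ 8 * n3 → n3 ≤ 2 * To → ∀ (κ : Pt) (c3 : ℕ), ∃ E5 : Set Env, MeasurableSet E5 ∧
      On20 (rows ((c3 : ℤ) - 1) (c3 + n3)) E5 ∧ 1 / 2 ≤ (law μ).real E5 ∧
      ∀ η ∈ E5, ∀ (h : ℝ) (p : ℕ → ℝ) (M : ℕ), (∀ k, k < M → p k = Real.exp (s + h)) → (∀ k, M ≤ k → p k = Real.exp s) →
        |h| * wd μ s To ≤ c / 64 * EE μ s To →
        (∀ P', P₀ ≤ P' → ∀ I J : Finset ℤ, En31 P' (c / 32) c₂ (EE μ s To) (wd μ s To) Q₃ 1 (fun x => lat16 μ s κ ((c3 : ℤ), x))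
          (fun y => lat16 μ s κ (((c3 + n3 : ℕ) : ℤ), y)) (K5 μ s h η p M c3 n3) I J) ∧
        ∀ x y : ℤ, |lat16 μ s κ ((c3 : ℤ), x)| ≤ wd μ s To → |lat16 μ s κ (((c3 + n3 : ℕ) : ℤ), y)| ≤ wd μ s To →
          Real.exp (-(k₅ * EE μ s To)) ≤ K5 μ s h η p M c3 n3 x y := by
  have hc0 := h0.c0
  obtain ⟨P₀, q, U, hq, hU, H⟩ := freE83 h0 (θ := 1 / 16) (D := 2) (η' := 1 / 2) (by norm_num) (by norm_num) (by norm_num) (by norm_num)
  refine ⟨P₀, q * gr P₀ (2 + 0 + 1) * 2, 2 * U, ?_, by linarith, fun c₂ hc₂ => ?_⟩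
  · have := gr_nonneg P₀ (show (0 : ℝ) ≤ 2 + 0 + 1 by norm_num)
    positivity
  obtain ⟨n₁, hn₁, H⟩ := H c₂ 1 hc₂ one_pos
  obtain ⟨n₂, hn₂, HS⟩ := sum_en60 h0 hc₂ one_pos
  obtain ⟨n₃, H3⟩ := eventually_atTop.1 ((wd_tendsto h0).eventually_ge_atTop 1)
  refine ⟨max (max n₁ n₂) n₃, (hn₁.trans (le_max_left _ _)).trans (le_max_left _ _), fun To hTo n3 h8 h2 κ c3 => ?_⟩
  have t1 : n₁ ≤ To := ((le_max_left _ _).trans (le_max_left _ _)).trans hTo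
  have t2 : n₂ ≤ To := ((le_max_right _ _).trans (le_max_left _ _)).trans hTo
  have t3 : n₃ ≤ To := (le_max_right _ _).trans hTo
  have hT1 : 1 ≤ To := hn₁.trans t1
  have hw : 0 < wd μ s To := by linarith [H3 To t3]
  have hw2 : 0 < wd μ s (2 * To) := by linarith [H3 (2 * To) (by omega)]
  have hE := EE_pos (μ := μ) (s := s) To
  have hE2 := EE_pos (μ := μ) (s := s) (2 * To)
  -- the units
  have u1 : EE μ s To ≤ EE μ s (2 * To) := EE_mono (by omega)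
  have u2 : EE μ s (2 * To) ≤ 2 * EE μ s To := by
    have := EE_unit20 h0 (B := 2) (T := To) (T' := 2 * To) (by norm_num) le_rfl
    exact_mod_cast this
  have u3 : wd μ s To ≤ 2 * wd μ s (2 * To) := by
    have := wd_unit20 h0 (B := 1) (T := 2 * To) (T' := To) (by omega) hT1 (by omega)
    push_cast at this
    linarith
  have u4 : wd μ s (2 * To) ≤ 4 * wd μ s To := by
    have := wd_unit20 h0 (B := 2) (T := To) (T' := 2 * To) hT1 (by omega) le_rfl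
    push_cast at this
    linarith
  have u5 : c / 32 * (EE μ s To / wd μ s To) ≤ c / 8 * (EE μ s (2 * To) / wd μ s (2 * To)) := by
    have h3 : EE μ s To / wd μ s To ≤ 4 * (EE μ s (2 * To) / wd μ s (2 * To)) := by
      rw [div_le_iff₀ hw]
      calc EE μ s To ≤ EE μ s (2 * To) := u1
        _ = EE μ s (2 * To) / wd μ s (2 * To) * wd μ s (2 * To) := by field_simp
        _ ≤ EE μ s (2 * To) / wd μ s (2 * To) * (4 * wd μ s To) := mul_le_mul_of_nonneg_left u4 (by positivity)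
        _ = _ := by ring
    have h4 := mul_le_mul_of_nonneg_left h3 (show 0 ≤ c / 32 by positivity)
    linarith
  obtain ⟨E5, mE, oE, pE, HE⟩ := H (2 * To) (by omega) n3 (by
    have : (To : ℝ) ≤ 8 * n3 := by exact_mod_cast h8
    push_cast
    linarith) h2 κ c3
  refine ⟨E5, mE, oE, by linarith, fun η hη h p M hp hp' hh => ?_⟩
  have hh' : |h| * wd μ s (2 * To) ≤ c / 8 * EE μ s (2 * To) := by
    have h3 := mul_le_mul_of_nonneg_left u4 (abs_nonneg h)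
    have h4 := mul_le_mul_of_nonneg_left u1 (show 0 ≤ c / 16 by positivity)
    have h5 : 0 ≤ c / 16 * EE μ s (2 * To) := by positivity
    linarith
  obtain ⟨s1, s2⟩ := HE η hη h p M hp hp' hh'
  refine ⟨fun P' hP' I J => ?_, fun x y hx hy => ?_⟩
  · have e1 : En31 P₀ (c / 32) c₂ (EE μ s To) (wd μ s To) (q * gr P₀ (2 + 0 + 1) * 2) 1 (fun x => lat16 μ s κ ((c3 : ℤ), x))
        (fun y => lat16 μ s κ (((c3 + n3 : ℕ) : ℤ), y)) (K5 μ s h η p M c3 n3) I J := by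
      have e2 := s1 P₀ le_rfl I J
      refine en_unit (a := 0) (D := 0) hE hw hE2.le hw2 hq le_rfl (by norm_num) u3 u2 u5 (by rw [abs_zero, zero_mul]) e2.k0
        (fun x hx y hy => ?_) one_pos.le fun x => ?_
      · refine (e2.up x hx y hy).trans (Real.exp_le_exp.2 ?_)
        have hX : 0 ≤ |lat16 μ s κ ((c3 : ℤ), x)| / wd μ s (2 * To) := by positivity
        have g1 := gr_mono P₀ hX (show |lat16 μ s κ ((c3 : ℤ), x)| / wd μ s (2 * To) ≤ |lat16 μ s κ ((c3 : ℤ), x)| / wd μ s (2 * To) + 1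
          by linarith)
        have g2 := mul_le_mul_of_nonneg_right (mul_le_mul_of_nonneg_left g1 hq) hE2.le
        rw [add_zero]
        linarith
      · have h3 := HS To t2 ((κ.2 : ℝ) + sl μ s * (((c3 : ℤ) - κ.1 : ℤ) : ℝ)) ((κ.2 : ℝ) + sl μ s * ((((c3 + n3 : ℕ) : ℤ) - κ.1 : ℤ) : ℝ)) J x
        refine (Finset.sum_le_sum fun y _ => le_of_eq ?_).trans h3
        congr 4
        unfold lat16
        push_cast
        ring
    exact en_weak hE hw e1 hP' le_rfl le_rfl le_rfl le_rfl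
  · have h3 := s2 x y (by linarith) (by linarith)
    refine le_trans (Real.exp_le_exp.2 ?_) h3
    have := mul_le_mul_of_nonneg_left u2 hU.le
    linarith

end

end Pool.Agent.W_7d29a1_C1.H60
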