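import Pool.Agent.W_7d29a1_C1.KBu21
import Pool.Agent.W_7d29a1_C1.FrcK26

/-!
Both halves (MP_7d29a1_pr), attractor route [C1]: THE FIRST BUFFER OF `Pcs` AND `KSep` FROM `BT26` (helper26). (helper21)

`Pb21` : the fields of `Pcs` of the rows `c0 → c0 + n1` and `KSep`, `pb21` : from `BT26` of `W = kW η c0 n1`, the single weights of the cells
of the row `c0` and the envelope of every start. Constants: `L` sees `ell`, `Cg` (level of the row `c0 + n1`), `be`, `K0`, `Λ`, `u`; `e` : exits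
`gx`; `es` : separation `g`.
-/

set_option autoImplicit false
set_option linter.unusedSectionVars false

namespace Pool.Agent.W_7d29a1_C1.Sh21

open Finset MeasureTheory Pool.Agent.W_7d29a1_F Pool.Agent.W_7d29a1_h4g Pool.Agent.W_7d29a1_H Pool.Agent.W_7d29a1_HS
open Pool.Agent.W_7d29a1_C1 Pool.Agent.W_7d29a1_C1.H75 Pool.Agent.W_7d29a1_C1.U16 Pool.Agent.W_7d29a1_C1.FarK89 Pool.Agent.W_7d29a1_C1.FarW89
open Pool.Agent.W_7d29a1_C1.K91 (wt wt_pos)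
open Pool.Agent.W_7d29a1_C1.S12 (Lam12 Lam12_pos)
open Pool.Agent.W_7d29a1_C1.D31 (En31 kapo31 kap31 kapo31_pos kap31_nonneg kap31_le kap31_of_reach le_kap31)
open Pool.Agent.W_7d29a1_C1.JnC35 (ln35 comp35_cut AQ_mono)
open Pool.Agent.W_7d29a1_C1.H60 (kr60 kr60_nonneg kf_nk60 mvk60 sum_kr60 stp60)
open Pool.Agent.W_7d29a1_C1.CR76 Pool.Agent.W_7d29a1_C1.F74 Pool.Agent.W_7d29a1_C1.R26P
open Pool.Agent.W_7d29a1_C1.B26 (BT26 PtW26)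
open Pool.Agent.W_7d29a1_C1.K97 (mc)
open Pool.Agent.W_7d29a1_C1.Basin76

noncomputable section

/-- **THE FIRST BUFFER OF `Pcs` AND THE SEPARATION.** -/
structure Pb21 (w : ℕ → ℤ → ℝ) (p : ℕ → ℝ) (lo h : ℤ) (c0 n1 : ℕ) (a1 b1 a2 b2 xa xb s : ℤ) (Z : Finset ℤ) (kc k0 k1 : ℤ → ℤ → ℝ)
    (δ e es L L0 A0 : ℝ) : Prop where
  g : Geo21 lo h n1 a1 b1 a2 b2 xa xb
  kcn : ∀ a ∈ cl2 a1 b1 a2 b2, ∀ z, 0 ≤ kc a z
  kck : ∀ a ∈ cl2 a1 b1 a2 b2, ∀ z, kc a z ≤ k0 a z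
  k0n : ∀ x ∈ Icc lo h, ∀ z, 0 ≤ k0 x z
  k1n : ∀ x ∈ Icc lo (h + n1), ∀ z, 0 ≤ k1 x z
  c1 : CR (kf w p c0 n1) a1 b1 xa xb ≤ 1 + δ
  c2 : CR (kf w p c0 n1) a2 b2 xa xb ≤ 1 + δ
  q1 : ∀ y ∈ Icc a1 b1, kf w p c0 n1 a1 xa ≤ L0 * kf w p c0 n1 y xa ∧ kf w p c0 n1 y xa ≤ L0 * kf w p c0 n1 a1 xa
  q2 : ∀ y ∈ Icc a2 b2, kf w p c0 n1 a2 xa ≤ L0 * kf w p c0 n1 y xa ∧ kf w p c0 n1 y xa ≤ L0 * kf w p c0 n1 a2 xa
  s0 : Stp w p lo h c0 n1 (Icc lo h) Z k0 k1 L A0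
  s0c : Stp w p lo h c0 n1 (cl2 a1 b1 a2 b2) Z kc k1 L A0
  xl : ∀ a ∈ cl2 a1 b1 a2 b2, ∀ z ∈ Z, ∑ x ∈ (Icc lo (h + n1)).filter (· < xa), kf w p c0 n1 a x * k1 x z ≤ e * A0 * kc a z
  xr : ∀ a ∈ cl2 a1 b1 a2 b2, ∀ z ∈ Z, ∑ x ∈ (Icc lo (h + n1)).filter (xb < ·), kf w p c0 n1 a x * k1 x z ≤ e * A0 * kc a z
  sp : KSep w p lo h c0 n1 a1 a2 s Z kc k1 es A0

variable {μ : Measure ℝ} {s h : ℝ} {η : Env} {p : ℕ → ℝ} {M P : ℕ} {κ : Pt} {c0 n1 c3 : ℕ} {W : ℤ → ℤ → ℝ} {L3 : ℤ → ℝ}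
  {E w E0 B c₁ c₃ Q S ck dk b0 be Cg u u1 Λ D A X ell K0 δ : ℝ} {a z : ℤ} {T : Finset ℤ}

/-- The pointwise bound of the buffer with `exp (be |L3| E0)`. -/
theorem pt21 {mu : Bool → ℝ} {ub : Bool → ℤ} {R g G' hB : ℝ} (H : PtW26 W L3 ub mu R E0 A ell g G' be hB) (hA : 0 ≤ A) (hE : 0 ≤ E0)
    (hb : be ≤ hB) (hbe : 0 ≤ be) (hg : 0 ≤ g) (hG : 0 ≤ G') (hell : 0 ≤ ell) (hmu : ∀ i, |mu i| ≤ K0) (i : Bool) {y : ℤ}
    (hy : |(y : ℝ) - ub i| ≤ R) (x : ℤ) : W y x * Real.exp (be * |L3 x| * E0) ≤ 3 * Real.exp ((ell + be * K0) * E0) * A := by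
  have h1 := mul_le_mul_of_nonneg_right (H i y hy x) (Real.exp_pos (be * |L3 x| * E0)).le
  have key : ∀ m : ℝ, |m| ≤ K0 → be * |L3 x| ≤ be * K0 + hB * |L3 x - m| := by
    intro m hm
    have t1 : |L3 x| ≤ |m| + |L3 x - m| := by
      have := abs_add_le m (L3 x - m)
      rwa [add_sub_cancel] at this
    have t2 := mul_le_mul_of_nonneg_left (t1.trans (add_le_add hm le_rfl)) hbe
    have t3 := mul_le_mul_of_nonneg_right hb (abs_nonneg (L3 x - m))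
    linarith
  have K00 : 0 ≤ K0 := (abs_nonneg _).trans (hmu true)
  have a1 : Real.exp ((ell - hB * |L3 x - mu i|) * E0) * Real.exp (be * |L3 x| * E0) ≤ Real.exp ((ell + be * K0) * E0) := by
    rw [← Real.exp_add]
    refine Real.exp_le_exp.2 ?_
    have := mul_le_mul_of_nonneg_right (key _ (hmu i)) hE
    linarith
  have a2 : Real.exp ((-g - hB * |L3 x - mu (!i)|) * E0) * Real.exp (be * |L3 x| * E0) ≤ Real.exp ((ell + be * K0) * E0) := by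
    rw [← Real.exp_add]
    refine Real.exp_le_exp.2 ?_
    have := mul_le_mul_of_nonneg_right (key _ (hmu (!i))) hE
    have := mul_nonneg hg hE
    have := mul_nonneg hell hE
    linarith
  have a3 : Real.exp ((-G' - be * |L3 x|) * E0) * Real.exp (be * |L3 x| * E0) ≤ Real.exp ((ell + be * K0) * E0) := by
    rw [← Real.exp_add]
    refine Real.exp_le_exp.2 ?_
    have := mul_nonneg hG hE
    have := mul_nonneg hell hE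
    have := mul_nonneg (mul_nonneg hbe K00) hE
    linarith
  have a4 := mul_le_mul_of_nonneg_right (add_le_add (add_le_add a1 a2) a3) hA
  refine h1.trans (le_trans (le_of_eq ?_) (a4.trans (le_of_eq ?_))) <;> ring

/-- A step with a larger amplitude. -/
theorem Stp.mono {w : ℕ → ℤ → ℝ} {p : ℕ → ℝ} {lo h : ℤ} {r n : ℕ} {S' Z : Finset ℤ} {k k' k'' : ℤ → ℤ → ℝ} {L L' A A' : ℝ}
    (H : Stp w p lo h r n S' Z k k' L A) (hk : ∀ x ∈ S', ∀ z ∈ Z, k x z ≤ k'' x z) (hk0 : ∀ x ∈ S', ∀ z ∈ Z, 0 ≤ k x z)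
    (hLA : L * A ≤ L' * A') (h0 : 0 ≤ L' * A') : Stp w p lo h r n S' Z k'' k' L' A' := fun x hx z hz =>
  (H x hx z hz).trans (mul_le_mul hLA (hk x hx z hz) (hk0 x hx z hz) h0)

section main

variable {lo hi : ℤ} {a1 b1 a2 b2 xa xb s₀ x1 x2 : ℤ} {Z : Finset ℤ} {k0 : ℤ → ℤ → ℝ} {L0f : ℤ → ℝ} {ub : Bool → ℤ} {mu : Bool → ℝ}
  {R K Kx del δ₀ ellw Kc g gx G' hB e es L L0 θ : ℝ} {Pw : ℕ} {Qw hw : ℝ}

/-- **THE FIRST BUFFER OF `Pcs` AND THE SEPARATION FROM `BT26`.** -/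
theorem pb21 (G : Bg21 μ s h η p M P κ c0 n1 c3 (kW μ s η c0 n1) L3 E w E0 B c₁ c₃ Q S ck b0 be Cg D)
    (H : BT26 (kW μ s η c0 n1) L0f L3 E0 ub mu R K Kx del A δ₀ ell ellw Kc be g gx G' hB Pw Qw hw)
    (hbB : be ≤ hB) (hg : 0 ≤ g) (hG : 0 ≤ G') (hell : 0 ≤ ell) (hmu : ∀ i, |mu i| ≤ K0) (A1 : 1 ≤ A)
    (Ge : Geo21 lo hi n1 a1 b1 a2 b2 xa xb) (hc1 : ∀ y : ℤ, a1 ≤ y → y ≤ b1 → |(y : ℝ) - ub false| ≤ R)
    (hc2 : ∀ y : ℤ, a2 ≤ y → y ≤ b2 → |(y : ℝ) - ub true| ≤ R) (hm : Monotone L3) (hxa : -K ≤ L3 xa) (hxa' : L3 xa ≤ -Kx)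
    (hxb : L3 xb ≤ K) (hxb' : Kx ≤ L3 xb) (hs1 : mu false + del / 4 ≤ L3 s₀) (hs2 : L3 s₀ + del / 4 ≤ mu true)
    (hx1 : |L3 x1 - mu false| ≤ Kc) (hx1a : xa ≤ x1) (hx1b : x1 ≤ xb) (hx2 : |L3 x2 - mu true| ≤ Kc) (hx2a : xa ≤ x2) (hx2b : x2 ≤ xb)
    (hwt : ∀ y ∈ cl2 a1 b1 a2 b2, Real.exp (-(u * E)) ≤ wt η c0 y ∧ wt η c0 y ≤ Real.exp (u * E))
    (hΛ : ∀ y ∈ cl2 a1 b1 a2 b2, |(y : ℝ) - ln35 μ s κ c0| ≤ Λ * w) (hn : (n1 : ℝ) + 1 ≤ Real.exp E)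
    (ht : 1 ≤ θ) (hmc : ∀ k < n1, mc θ (p (c0 + k)) (Real.exp s)) (δ₀0 : 0 ≤ δ₀) (hδ : θ ^ (4 * n1) * δ₀ ≤ δ)
    (hk0n : ∀ x ∈ Icc lo hi, ∀ z, 0 ≤ k0 x z) (hk0 : Stp (wt η) p lo hi c0 n1 (Icc lo hi) Z k0 (kr60 μ s η P c₁ c₃ E w κ c3 Q S (c0 + n1)) 1
      (Lam12 μ s h M c0 n1)) (hck : ∀ a ∈ cl2 a1 b1 a2 b2, ∀ z, kc21 μ s P dk ck E w κ c0 c3 a z ≤ k0 a z)
    (hL : Real.exp ((ell + be * K0 + u + Cg + S + ck * Λ + be * D + 4) * E) ≤ L) (hL1 : 1 ≤ L)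
    (hL0 : (1 + δ) * Real.exp ((2 * u + 2 * ell + 2) * E) ≤ L0)
    (he : Real.exp (-(gx * E0)) * Real.exp ((u + Cg + S + ck * Λ + be * D + 1) * E) ≤ e)
    (hes : Real.exp (-(g * E0)) * Real.exp ((u + Cg + S + ck * Λ + be * D + 1) * E) ≤ es) :
    Pb21 (wt η) p lo hi c0 n1 a1 b1 a2 b2 xa xb s₀ Z (kc21 μ s P dk ck E w κ c0 c3) k0 (kr60 μ s η P c₁ c₃ E w κ c3 Q S (c0 + n1))
      δ e es L L0 (Lam12 μ s h M c0 n1 * A) := by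
  have E1 := G.E1
  have E00 := G.E0p
  have A0 : 0 ≤ A := by linarith
  have hL12 := Lam12_pos (μ := μ) (s := s) (h := h) M c0 n1
  have g1 := Ge.h1
  have g2 := Ge.h2
  have g3 := Ge.h3
  have g4 := Ge.h4
  have g5 := Ge.h5
  have g6 := Ge.h6
  have O := H.out a1 b1 a2 b2 xa xb s₀ g1 g3 hc1 hc2 hxa hxa' hxb hxb' g5 hs1 hs2
  have cell : ∀ y ∈ cl2 a1 b1 a2 b2, ∃ i, |(y : ℝ) - ub i| ≤ R := fun y hy => by
    rcases cl2_or hy with h1 | h1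
    · exact ⟨false, hc1 y h1.1 h1.2⟩
    · exact ⟨true, hc2 y h1.1 h1.2⟩
  have mem1 : ∀ y ∈ Icc a1 b1, y ∈ cl2 a1 b1 a2 b2 := fun y hy => by
    unfold cl2
    exact mem_union_left _ hy
  have mem2 : ∀ y ∈ Icc a2 b2, y ∈ cl2 a1 b1 a2 b2 := fun y hy => by
    unfold cl2
    exact mem_union_right _ hy
  have m1 : a1 ∈ cl2 a1 b1 a2 b2 := mem1 _ (mem_Icc.2 ⟨le_rfl, g1⟩)
  have m2 : a2 ∈ cl2 a1 b1 a2 b2 := mem2 _ (mem_Icc.2 ⟨le_rfl, g3⟩)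
  have δ0 : 0 ≤ δ := le_trans (by positivity) hδ
  have cr1 : CR (kf (wt η) p c0 n1) a1 b1 xa xb ≤ 1 + δ :=
    (CR_kW21 (μ := μ) (s := s) G.hp ht hmc g1 g5 δ₀0 O.cr1).trans (by linarith)
  have cr2 : CR (kf (wt η) p c0 n1) a2 b2 xa xb ≤ 1 + δ :=
    (CR_kW21 (μ := μ) (s := s) G.hp ht hmc g3 g5 δ₀0 O.cr2).trans (by linarith)
  have up : ∀ y ∈ cl2 a1 b1 a2 b2, ∀ x, kW μ s η c0 n1 y x ≤ Real.exp (ell * E0) * A := fun y hy x => O.up y (cl2_or hy) x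
  have ex : ∀ (T : Finset ℤ) (a : ℤ) (X e' : ℝ), a ∈ cl2 a1 b1 a2 b2 → 0 ≤ X →
      ∑ x ∈ T, kW μ s η c0 n1 a x * Real.exp (be * |L3 x| * E0) ≤ X * A →
      X * Real.exp ((u + Cg + S + ck * Λ + be * D + 1) * E) ≤ e' → ∀ z,
      ∑ x ∈ T, kf (wt η) p c0 n1 a x * kr60 μ s η P c₁ c₃ E w κ c3 Q S (c0 + n1) x z ≤
        e' * (Lam12 μ s h M c0 n1 * A) * kc21 μ s P dk ck E w κ c0 c3 a z := by
    intro T a X e' ha hX hT he' z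
    refine (G.key (dk := dk) (hΛ a ha) (hwt a ha).2 A0 hX hT z).trans ?_
    exact mul_le_mul_of_nonneg_right (mul_le_mul_of_nonneg_right he' (by positivity)) (kc21_nonneg _ _)
  refine
    { g := Ge
      kcn := fun a _ z => kc21_nonneg _ _
      kck := hck
      k0n := hk0n
      k1n := fun x _ z => kr60_nonneg _ _
      c1 := cr1
      c2 := cr2
      q1 := fun y hy => ?_
      q2 := fun y hy => ?_
      s0 := ?_
      s0c := fun a ha z _ => ?_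
      xl := fun a ha z _ => ?_
      xr := fun a ha z _ => ?_
      sp := ⟨fun z _ => ?_, fun z _ => ?_⟩ }
  · have l1 : ∀ y ∈ Icc a1 b1, Real.exp (-(ell * E0)) * A ≤ kW μ s η c0 n1 y x1 := fun y hy =>
      O.lowc1 y (mem_Icc.1 hy).1 (mem_Icc.1 hy).2 x1 hx1
    have r1 := G.rat (hwt _ m1).2 (hwt _ (mem1 y hy)).1 hell (up a1 m1 x1) (l1 y hy) A0
    have r2 := G.rat (hwt _ (mem1 y hy)).2 (hwt _ m1).1 hell (up y (mem1 y hy) x1) (l1 a1 (mem_Icc.2 ⟨le_rfl, g1⟩)) A0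
    obtain ⟨t1, t2⟩ := q21 G.hp hy (by omega) (by omega) hx1a hx1b δ0 cr1 r1 r2
    exact ⟨t1.trans (mul_le_mul_of_nonneg_right hL0 (kf_nonneg (wt_pos η) G.hp _ _ _ _)),
      t2.trans (mul_le_mul_of_nonneg_right hL0 (kf_nonneg (wt_pos η) G.hp _ _ _ _))⟩
  · have l1 : ∀ y ∈ Icc a2 b2, Real.exp (-(ell * E0)) * A ≤ kW μ s η c0 n1 y x2 := fun y hy =>
      O.lowc2 y (mem_Icc.1 hy).1 (mem_Icc.1 hy).2 x2 hx2
    have r1 := G.rat (hwt _ m2).2 (hwt _ (mem2 y hy)).1 hell (up a2 m2 x2) (l1 y hy) A0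
    have r2 := G.rat (hwt _ (mem2 y hy)).2 (hwt _ m2).1 hell (up y (mem2 y hy) x2) (l1 a2 (mem_Icc.2 ⟨le_rfl, g3⟩)) A0
    obtain ⟨t1, t2⟩ := q21 G.hp hy (by omega) (by omega) hx2a hx2b δ0 cr2 r1 r2
    exact ⟨t1.trans (mul_le_mul_of_nonneg_right hL0 (kf_nonneg (wt_pos η) G.hp _ _ _ _)),
      t2.trans (mul_le_mul_of_nonneg_right hL0 (kf_nonneg (wt_pos η) G.hp _ _ _ _))⟩
  · refine hk0.mono (fun x hx z _ => le_rfl) (fun x hx z _ => hk0n x hx z) ?_ (by positivity)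
    have t1 := mul_le_mul hL1 (le_mul_of_one_le_right hL12.le A1) hL12.le (by linarith)
    exact t1
  · obtain ⟨i, hi⟩ := cell a ha
    refine G.s0c (dk := dk) (hΛ a ha) (hwt a ha).2 A0 (X := 3 * Real.exp ((ell + be * K0) * E0)) (by positivity)
      (fun x => pt21 H.pt A0 E00 hbB G.be0 hg hG hell hmu i hi x) hn ?_ z
    refine le_trans ?_ hL
    have K00 : 0 ≤ K0 := (abs_nonneg _).trans (hmu true)
    have t1 : (3 : ℝ) ≤ Real.exp (2 * E) := by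
      have := Real.add_one_le_exp (2 * E)
      linarith
    have t2 : Real.exp ((ell + be * K0) * E0) ≤ Real.exp ((ell + be * K0) * E) :=
      Real.exp_le_exp.2 (mul_le_mul_of_nonneg_left G.EE (add_nonneg hell (mul_nonneg G.be0 K00)))
    have t3 := mul_le_mul t1 t2 (Real.exp_pos _).le (Real.exp_pos _).le
    refine (mul_le_mul_of_nonneg_right t3 (Real.exp_pos _).le).trans (le_of_eq ?_)
    rw [← Real.exp_add, ← Real.exp_add]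
    congr 1
    ring
  · obtain ⟨i, hi⟩ := cell a ha
    refine ex _ a (Real.exp (-(gx * E0))) e ha (Real.exp_pos _).le (H.exw i a hi _ fun x hx => ?_) he z
    have h1 : L3 x ≤ L3 xa := hm (mem_filter.1 hx).2.le
    have h2 := neg_le_abs (L3 x)
    linarith
  · obtain ⟨i, hi⟩ := cell a ha
    refine ex _ a (Real.exp (-(gx * E0))) e ha (Real.exp_pos _).le (H.exw i a hi _ fun x hx => ?_) he z
    have h1 : L3 xb ≤ L3 x := hm (mem_filter.1 hx).2.le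
    have h2 := le_abs_self (L3 x)
    linarith
  · exact ex _ a1 (Real.exp (-(g * E0))) es m1 (Real.exp_pos _).le (O.sep1 a1 le_rfl g1 _ fun x hx => (mem_filter.1 hx).2) hes z
  · exact ex _ a2 (Real.exp (-(g * E0))) es m2 (Real.exp_pos _).le
      (O.sep2 a2 le_rfl g3 _ fun x hx => by have := (mem_filter.1 hx).2; omega) hes z

end main

end

end Pool.Agent.W_7d29a1_C1.Sh21
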