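import Pool.Agent.W_7d29a1_C1.KBv21
import Pool.Agent.W_7d29a1_C1.PshB83

/-!
Both halves (MP_7d29a1_pr), attractor route [C1]: THE FIRST BUFFER OF `Pcs` AND `KSep`, ALL NUMBERS DISCHARGED. (helper21)

`kBz21` : `Pb21` from `BT26` (rows `c0 → c0 + n1`, scale `TF`, `T / 4 ≤ TF ≤ T`) and the single weights `RowG` of the row `c0`; unit of the
box `T`; the columns `xa`, `xb`, `s` are chosen inside. Constants explicit: `u = u0 (1 + log (2 + K0))`, `Λ = 2 (K0 + 1) + D`,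
`CL = ell + be K0 + u + Q gr P (AQ P c₁ Q) + S + ck Λ + be D + 4`; `L = exp (CL E)`, `L0 = exp ((2 u + 2 ell + 7) E)`,
exits `exp (-((gx / 4 - CL) E))`, separation `exp (-((g / 4 - CL) E))`, cross ratio `exp 4 * δ₀`.
-/

set_option autoImplicit false
set_option linter.unusedSectionVars false

namespace Pool.Agent.W_7d29a1_C1.Sh21

open Finset MeasureTheory Pool.Agent.W_7d29a1_F Pool.Agent.W_7d29a1_h4g Pool.Agent.W_7d29a1_H Pool.Agent.W_7d29a1_HS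
open Pool.Agent.W_7d29a1_C1 Pool.Agent.W_7d29a1_C1.H75 Pool.Agent.W_7d29a1_C1.U16 Pool.Agent.W_7d29a1_C1.FarK89 Pool.Agent.W_7d29a1_C1.FarW89
open Pool.Agent.W_7d29a1_C1.K91 (wt wt_pos)
open Pool.Agent.W_7d29a1_C1.S12 (Lam12 Lam12_pos)
open Pool.Agent.W_7d29a1_C1.D31 (En31 kapo31 kap31 kapo31_pos kap31_nonneg kap31_le kap31_of_reach le_kap31)
open Pool.Agent.W_7d29a1_C1.JnC35 (ln35 comp35_cut AQ_mono)
open Pool.Agent.W_7d29a1_C1.H60 (kr60 kr60_nonneg kf_nk60 mvk60 sum_kr60 stp60)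
open Pool.Agent.W_7d29a1_C1.CR76 Pool.Agent.W_7d29a1_C1.F74 Pool.Agent.W_7d29a1_C1.R26P
open Pool.Agent.W_7d29a1_C1.B26 (BT26 PtW26 lt26 lt26_mono th26)
open Pool.Agent.W_7d29a1_C1.K97 (mc)
open Pool.Agent.W_7d29a1_C1.Basin76
open Pool.Agent.W_7d29a1_C1.S83 (RowG nk_kW83 unit83 wt_abs83)

noncomputable section

/-- The exponent of the weights of the cells. -/
def ub21 (u0 K0 : ℝ) : ℝ := u0 * (1 + Real.log (2 + K0))

/-- The exponent `CL`. -/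
def cb21 (P : ℕ) (c₁ ck Q S ell be K0 u0 D : ℝ) : ℝ :=
  ell + be * K0 + ub21 u0 K0 + Q * gr P (AQ P c₁ Q) + S + ck * (2 * (K0 + 1) + D) + be * D + 4

section det

variable {μ : Measure ℝ} {s : ℝ} {h : ℝ} {η : Env} {p : ℕ → ℝ} {M P c0 c3 n1 n' : ℕ} {κ : Pt} {x0 : ℤ} {ub tb : Bool → ℤ} {L0f : ℤ → ℝ}
  {a1 b1 a2 b2 lo hi : ℤ} {Z : Finset ℤ} {k0 : ℤ → ℤ → ℝ}
  {c₁ c₃ ck dk Q S be u0 R K K0 Kc del D Kx A δ₀ ell ellw g gx G' hB hw' E w E0 w0 : ℝ} {Pw : ℕ} {Qw : ℝ}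

/-- **THE FIRST BUFFER**, deterministic: two units `(E, w)`, `(E0, w0)`. -/
theorem kBd21 (hK0 : 0 ≤ K0) (hKK : K0 + 2 ≤ K) (hD : 0 ≤ D) (hs1 : 0 < sl μ s) (hs2 : sl μ s < 1)
    (hE01 : 1 ≤ E0) (u1 : E0 ≤ E) (u2 : E ≤ 4 * E0) (hw : 0 < w) (hw0 : 2 ≤ w0) (u3 : w0 ≤ 2 * w) (thd : 1 ≤ del / 4 * w0) (thc : 1 ≤ Kc * w0)
    (thK1 : (K + K0 + 2) * w0 ≤ sl μ s * n1) (thK2 : (K + K0 + 2) * w0 ≤ (1 - sl μ s) * n1) (hnE : (n1 : ℝ) + 1 ≤ Real.exp E)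
    (hp : ∀ k, k < M → p k = Real.exp (s + h)) (hp' : ∀ k, M ≤ k → p k = Real.exp s) (hh : |h| * n1 ≤ 1) (hr : c0 + n1 ≤ c3)
    (nk1 : ∀ x y, nk μ s h η p M c0 n1 x y ≤ Real.exp 1 * kW μ s η c0 n1 x y)
    (nk2 : ∀ x y, kW μ s η c0 n1 x y ≤ Real.exp 1 * nk μ s h η p M c0 n1 x y)
    (hR : |(x0 : ℝ) - ln35 μ s κ c0| ≤ D * w) (hu0 : 0 ≤ u0) (hrow : η ∈ RowG (c0 : ℤ) x0 w0 (u0 * E0))
    (hub : ∀ i, |((ub i - x0 : ℤ) : ℝ)| ≤ K0 * w0) (hRw : R ≤ w0) (htb : ∀ i, |((tb i - x0 : ℤ) : ℝ) - sl μ s * n'| ≤ K0 * w0)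
    (hsep : (tb false : ℝ) + del * w0 ≤ tb true)
    (HB : BT26 (kW μ s η c0 n1) L0f (fun x => lt26 (sl μ s) w0 n1 (x - x0)) E0 ub (fun i => lt26 (sl μ s) w0 n' (tb i - x0)) R K Kx del A
      δ₀ ell ellw Kc be g gx G' hB Pw Qw hw')
    (hbe : 0 < be) (hbB : be ≤ hB) (hg : 0 ≤ g) (hgx : 0 ≤ gx) (hG : 0 ≤ G') (hell : 0 ≤ ell) (hA : 1 ≤ A) (hKx : 0 ≤ Kx) (hKx1 : Kx + 1 ≤ K)
    (hδ0 : 0 ≤ δ₀) (hδ1 : δ₀ ≤ 1) (hc₁ : 0 < c₁) (hck : 0 ≤ ck) (hck3 : ck ≤ c₃) (hrate : 8 * (c₁ + ck) ≤ be) (hQ : 0 ≤ Q) (hS : 0 ≤ S)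
    (hab1 : a1 ≤ b1) (hab2 : b1 < a2) (hab3 : a2 ≤ b2) (hab4 : lo ≤ a1) (hab5 : b2 ≤ hi)
    (hc1 : ∀ y : ℤ, a1 ≤ y → y ≤ b1 → |(y : ℝ) - ub false| ≤ R) (hc2 : ∀ y : ℤ, a2 ≤ y → y ≤ b2 → |(y : ℝ) - ub true| ≤ R)
    (hk0n : ∀ x ∈ Icc lo hi, ∀ z, 0 ≤ k0 x z)
    (hk0 : Stp (wt η) p lo hi c0 n1 (Icc lo hi) Z k0 (kr60 μ s η P c₁ c₃ E w κ c3 Q S (c0 + n1)) 1 (Lam12 μ s h M c0 n1))
    (hkck : ∀ a ∈ cl2 a1 b1 a2 b2, ∀ z, kc21 μ s P dk ck E w κ c0 c3 a z ≤ k0 a z) :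
    ∃ xa xb s₀ : ℤ, (∀ x : ℤ, xa ≤ x → x ≤ xb → |(x : ℝ) - ln35 μ s κ (c0 + n1)| ≤ (2 * K + D) * w) ∧
      Pb21 (wt η) p lo hi c0 n1 a1 b1 a2 b2 xa xb s₀ Z (kc21 μ s P dk ck E w κ c0 c3) k0
        (kr60 μ s η P c₁ c₃ E w κ c3 Q S (c0 + n1)) (Real.exp 4 * δ₀)
        (Real.exp (-((gx / 4 - cb21 P c₁ ck Q S ell be K0 u0 D) * E))) (Real.exp (-((g / 4 - cb21 P c₁ ck Q S ell be K0 u0 D) * E)))
        (Real.exp (cb21 P c₁ ck Q S ell be K0 u0 D * E)) (Real.exp ((2 * ub21 u0 K0 + 2 * ell + 7) * E))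
        (Lam12 μ s h M c0 n1 * A) := by
  have hE1 : 1 ≤ E := by linarith
  have hE : 0 < E := by linarith
  have hw00 : 0 < w0 := by linarith
  -- the base and the line
  have hln : ln35 μ s κ (c0 + n1) = ln35 μ s κ c0 + sl μ s * n1 := by
    unfold ln35
    push_cast
    ring
  have L3e : ∀ x : ℤ, lt26 (sl μ s) w0 n1 (x - x0) * w0 = (x : ℝ) - x0 - sl μ s * n1 := fun x => by
    unfold lt26
    rw [div_mul_cancel₀ _ hw00.ne']
    push_cast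
    ring
  have hL3 : ∀ x : ℤ, |(x : ℝ) - ln35 μ s κ (c0 + n1)| ≤ |lt26 (sl μ s) w0 n1 (x - x0)| * w0 + D * w := fun x => by
    have e1 : (x : ℝ) - ln35 μ s κ (c0 + n1) = ((x : ℝ) - x0 - sl μ s * n1) + ((x0 : ℝ) - ln35 μ s κ c0) := by
      rw [hln]
      ring
    rw [e1]
    refine (abs_add_le _ _).trans (add_le_add (le_of_eq ?_) hR)
    rw [← L3e x, abs_mul, abs_of_pos hw00]
  -- the weights of the cells
  obtain ⟨u, hud⟩ : ∃ u : ℝ, u = ub21 u0 K0 := ⟨_, rfl⟩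
  have hlogK : 0 ≤ Real.log (2 + K0) := Real.log_nonneg (by linarith)
  have hu : 0 ≤ u := by
    rw [hud]
    unfold ub21
    positivity
  have cellx : ∀ y ∈ cl2 a1 b1 a2 b2, |((y - x0 : ℤ) : ℝ)| ≤ (K0 + 1) * w0 := by
    have key : ∀ (i : Bool) (y : ℤ), |(y : ℝ) - ub i| ≤ R → |((y - x0 : ℤ) : ℝ)| ≤ (K0 + 1) * w0 := fun i y hy => by
      have e1 : ((y - x0 : ℤ) : ℝ) = ((y : ℝ) - ub i) + ((ub i - x0 : ℤ) : ℝ) := by
        push_cast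
        ring
      rw [e1]
      refine (abs_add_le _ _).trans ?_
      have := hub i
      linarith
    intro y hy
    rcases cl2_or hy with h1 | h1
    · exact key false y (hc1 y h1.1 h1.2)
    · exact key true y (hc2 y h1.1 h1.2)
  have hwt : ∀ y ∈ cl2 a1 b1 a2 b2, Real.exp (-(u * E)) ≤ wt η c0 y ∧ wt η c0 y ≤ Real.exp (u * E) := fun y hy => by
    have h1 := S83.RowG.win hrow hw00 (mul_nonneg hu0 (by linarith : (0 : ℝ) ≤ E0)) (cellx y hy)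
    have h2 : |η ((c0 : ℤ), y)| ≤ u * E := by
      refine h1.trans ?_
      rw [hud]
      unfold ub21
      rw [show (1 : ℝ) + (K0 + 1) = 2 + K0 by ring]
      have := mul_le_mul_of_nonneg_left u1 (show 0 ≤ u0 * (1 + Real.log (2 + K0)) by positivity)
      linarith
    obtain ⟨w1, w2⟩ := wt_abs83 η c0 y
    exact ⟨(Real.exp_le_exp.2 (neg_le_neg h2)).trans w1, w2.trans (Real.exp_le_exp.2 h2)⟩
  have hΛ : ∀ y ∈ cl2 a1 b1 a2 b2, |(y : ℝ) - ln35 μ s κ c0| ≤ (2 * (K0 + 1) + D) * w := fun y hy => by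
    have e1 : (y : ℝ) - ln35 μ s κ c0 = ((y - x0 : ℤ) : ℝ) + ((x0 : ℝ) - ln35 μ s κ c0) := by
      push_cast
      ring
    rw [e1]
    refine (abs_add_le _ _).trans ?_
    have h1 := cellx y hy
    have h2 := mul_le_mul_of_nonneg_left u3 (show 0 ≤ K0 + 1 by linarith)
    linarith
  -- the numbers
  have hAQ := gr_nonneg P (AQ_nonneg P c₁ Q)
  have hp0 : ∀ k, 0 < p k := fun k => by
    by_cases hk : k < M
    · rw [hp k hk]
      exact Real.exp_pos _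
    · rw [hp' k (not_lt.1 hk)]
      exact Real.exp_pos _
  have G : Bg21 μ s h η p M P κ c0 n1 c3 (kW μ s η c0 n1) (fun x => lt26 (sl μ s) w0 n1 (x - x0)) E w E0 4 c₁ c₃ Q S ck (c₁ + ck) be
      (Q * gr P (AQ P c₁ Q)) D := by
    refine
      { E1 := hE1
        w0 := hw
        E0p := by linarith
        EE := u1
        EB := u2
        hp := hp0
        nk1 := nk1
        nk2 := nk2
        L3e := fun x => ?_
        D0 := hD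
        ck0 := hck
        ck3 := hck3
        Q0 := hQ
        hg := fun X hX => ?_
        b00 := by linarith
        be0 := hbe.le
        hb := by linarith
        r := hr }
    · rw [div_le_iff₀ hw]
      refine (hL3 x).trans ?_
      have := mul_le_mul_of_nonneg_left u3 (abs_nonneg (lt26 (sl μ s) w0 n1 (x - x0)))
      linarith
    · have h1 := lipQ P hc₁ hQ le_rfl (le_refl (0 : ℝ)) hX
      rw [zero_add, add_zero] at h1
      linarith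
  -- the columns
  obtain ⟨y0, hy0⟩ : ∃ y0 : ℝ, y0 = (x0 : ℝ) + sl μ s * n1 := ⟨_, rfl⟩
  have L3y : ∀ x : ℤ, lt26 (sl μ s) w0 n1 (x - x0) = ((x : ℝ) - y0) / w0 := fun x => by
    rw [eq_div_iff hw00.ne', L3e x, hy0]
    ring
  obtain ⟨mu, hmu⟩ : ∃ mu : Bool → ℝ, mu = fun i => lt26 (sl μ s) w0 n' (tb i - x0) := ⟨_, rfl⟩
  have hmuK : ∀ i, |mu i| ≤ K0 := fun i => by
    rw [hmu]
    show |lt26 (sl μ s) w0 n' (tb i - x0)| ≤ K0
    unfold lt26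
    rw [abs_div, abs_of_pos hw00, div_le_iff₀ hw00]
    exact htb i
  have hmusep : mu false + del ≤ mu true := by
    rw [hmu]
    show lt26 (sl μ s) w0 n' (tb false - x0) + del ≤ lt26 (sl μ s) w0 n' (tb true - x0)
    unfold lt26
    rw [← sub_nonneg]
    have e1 : (((tb true - x0 : ℤ) : ℝ) - sl μ s * n') / w0 - ((((tb false - x0 : ℤ) : ℝ) - sl μ s * n') / w0 + del) =
        ((tb true : ℝ) - tb false - del * w0) / w0 := by
      field_simp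
      push_cast
      ring
    rw [e1]
    exact div_nonneg (by linarith) hw00.le
  rw [← hmu] at HB
  have hi0 : 0 < 1 / w0 := by positivity
  have hi1 : 1 / w0 ≤ 1 / 2 := one_div_le_one_div_of_le (by norm_num) hw0
  have hid : 1 / w0 ≤ del / 4 := by rw [div_le_iff₀ hw00]; exact thd
  have hic : 1 / w0 ≤ Kc := by rw [div_le_iff₀ hw00]; exact thc
  -- the column `⌊y0 + m w0⌋`
  have col : ∀ m : ℝ, m - 1 / w0 ≤ lt26 (sl μ s) w0 n1 (⌊y0 + m * w0⌋ - x0) ∧ lt26 (sl μ s) w0 n1 (⌊y0 + m * w0⌋ - x0) ≤ m := fun m => by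
    have f1 := Int.floor_le (y0 + m * w0)
    have f2 := Int.lt_floor_add_one (y0 + m * w0)
    rw [L3y]
    constructor
    · rw [le_div_iff₀ hw00]
      have : (m - 1 / w0) * w0 = m * w0 - 1 := by field_simp
      rw [this]
      linarith
    · rw [div_le_iff₀ hw00]
      linarith
  obtain ⟨xa, hxad⟩ : ∃ xa : ℤ, xa = ⌊y0 + (-K + 1 / w0) * w0⌋ := ⟨_, rfl⟩
  obtain ⟨xb, hxbd⟩ : ∃ xb : ℤ, xb = ⌊y0 + K * w0⌋ := ⟨_, rfl⟩
  obtain ⟨s₀, hs0d⟩ : ∃ s₀ : ℤ, s₀ = ⌊y0 + ((mu false + mu true) / 2) * w0⌋ := ⟨_, rfl⟩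
  obtain ⟨x1, hx1d⟩ : ∃ x1 : ℤ, x1 = ⌊y0 + mu false * w0⌋ := ⟨_, rfl⟩
  obtain ⟨x2, hx2d⟩ : ∃ x2 : ℤ, x2 = ⌊y0 + mu true * w0⌋ := ⟨_, rfl⟩
  have ca := col (-K + 1 / w0)
  have cb := col K
  have cs := col ((mu false + mu true) / 2)
  have c1' := col (mu false)
  have c2' := col (mu true)
  rw [← hxad] at ca
  rw [← hxbd] at cb
  rw [← hs0d] at cs
  rw [← hx1d] at c1'
  rw [← hx2d] at c2'
  have hmono : Monotone fun x : ℤ => lt26 (sl μ s) w0 n1 (x - x0) := fun x y hxy =>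
    lt26_mono hw00 n1 (by omega)
  have hlt : ∀ x y : ℤ, lt26 (sl μ s) w0 n1 (x - x0) < lt26 (sl μ s) w0 n1 (y - x0) → x ≤ y := fun x y hxy => by
    by_contra hc
    have := hmono (show y ≤ x by omega)
    simp only at this
    linarith
  have mK := hmuK false
  have mK' := hmuK true
  rw [abs_le] at mK mK'
  have Kx1 : -K ≤ lt26 (sl μ s) w0 n1 (xa - x0) := by linarith [ca.1]
  have Kx2 : lt26 (sl μ s) w0 n1 (xa - x0) ≤ -Kx := by linarith [ca.2]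
  have Kx3 : lt26 (sl μ s) w0 n1 (xb - x0) ≤ K := cb.2
  have Kx4 : Kx ≤ lt26 (sl μ s) w0 n1 (xb - x0) := by linarith [cb.1]
  have xa1 : xa ≤ x1 := hlt _ _ (by linarith [ca.2, c1'.1])
  have xa2 : xa ≤ x2 := hlt _ _ (by linarith [ca.2, c2'.1])
  have x1b : x1 ≤ xb := hlt _ _ (by linarith [cb.1, c1'.2])
  have x2b : x2 ≤ xb := hlt _ _ (by linarith [cb.1, c2'.2])
  have xab : xa ≤ xb := xa1.trans x1b
  have b2x : b2 ≤ xa := by
    have m2 : b2 ∈ cl2 a1 b1 a2 b2 := by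
      unfold cl2
      simp only [mem_union, mem_Icc]
      omega
    have h1 := (abs_le.1 (cellx b2 m2)).2
    have h2 := mul_le_mul_of_nonneg_right Kx1 hw00.le
    rw [L3e] at h2
    push_cast at h1
    have h3 : (b2 : ℝ) ≤ xa := by linarith
    exact_mod_cast h3
  have xba : xb ≤ a1 + n1 := by
    have m1 : a1 ∈ cl2 a1 b1 a2 b2 := by
      unfold cl2
      simp only [mem_union, mem_Icc]
      omega
    have h1 := (abs_le.1 (cellx a1 m1)).1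
    have h2 := mul_le_mul_of_nonneg_right Kx3 hw00.le
    rw [L3e] at h2
    push_cast at h1
    have h3 : (xb : ℝ) ≤ a1 + n1 := by linarith
    exact_mod_cast h3
  have Ge : Geo21 lo hi n1 a1 b1 a2 b2 xa xb := ⟨hab1, hab2, hab3, b2x, xab, xba, hab4, hab5⟩
  refine ⟨xa, xb, s₀, fun x hx1 hx2 => ?_, ?_⟩
  · refine (hL3 x).trans ?_
    have h1 := hmono hx1
    have h2 := hmono hx2
    simp only at h1 h2
    have h3 : |lt26 (sl μ s) w0 n1 (x - x0)| ≤ K := abs_le.2 ⟨by linarith, by linarith⟩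
    have h4 := mul_le_mul h3 u3 hw00.le (by linarith)
    linarith
  · have hθ : (Real.exp |h|) ^ (4 * n1) ≤ Real.exp 4 := by
      rw [← Real.exp_nat_mul]
      refine Real.exp_le_exp.2 ?_
      push_cast
      linarith
    have K00 := hK0
    refine pb21 (θ := Real.exp |h|) (K0 := K0) (Λ := 2 * (K0 + 1) + D) (u := u) G HB hbB hg hG hell hmuK hA Ge hc1 hc2 hmono Kx1 Kx2 Kx3 Kx4
      ?_ ?_ ?_ xa1 x1b ?_ xa2 x2b hwt hΛ hnE (Real.one_le_exp (abs_nonneg h)) (fun k hk => ?_) hδ0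
      (mul_le_mul_of_nonneg_right hθ hδ0) hk0n hk0 hkck (Real.exp_le_exp.2 (mul_le_mul_of_nonneg_right ?_ hE.le)) (Real.one_le_exp ?_)
      ?_ ?_ ?_
    · linarith [cs.1]
    · linarith [cs.2]
    · rw [abs_le]
      constructor <;> linarith [c1'.1, c1'.2]
    · rw [abs_le]
      constructor <;> linarith [c2'.1, c2'.2]
    · have hab := abs_nonneg h
      have hl := neg_abs_le h
      have hu' := le_abs_self h
      by_cases hk' : c0 + k < M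
      · rw [hp _ hk']
        unfold mc
        rw [← Real.exp_add, ← Real.exp_add]
        exact ⟨Real.exp_le_exp.2 (by linarith), Real.exp_le_exp.2 (by linarith)⟩
      · rw [hp' _ (not_lt.1 hk')]
        unfold mc
        rw [← Real.exp_add]
        exact ⟨Real.exp_le_exp.2 (by linarith), Real.exp_le_exp.2 (by linarith)⟩
    · rw [hud]
      unfold cb21
      linarith
    · unfold cb21
      rw [← hud]
      positivity
    · rw [hud]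
      have e4 : 1 + Real.exp 4 * δ₀ ≤ Real.exp (5 * E) := by
        have a1 : Real.exp 4 * δ₀ ≤ Real.exp 4 := mul_le_of_le_one_right (Real.exp_pos _).le hδ1
        have a2 : (1 : ℝ) ≤ Real.exp 4 := Real.one_le_exp (by norm_num)
        have a3 : (2 : ℝ) ≤ Real.exp 1 := by
          have := Real.add_one_le_exp (1 : ℝ)
          linarith
        have a4 : Real.exp 5 = Real.exp 1 * Real.exp 4 := by
          rw [← Real.exp_add]
          norm_num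
        have a5 : Real.exp 5 ≤ Real.exp (5 * E) := Real.exp_le_exp.2 (by linarith)
        have a6 := mul_le_mul_of_nonneg_right a3 (Real.exp_pos 4).le
        linarith
      refine (mul_le_mul_of_nonneg_right e4 (Real.exp_pos _).le).trans ?_
      rw [← Real.exp_add]
      refine Real.exp_le_exp.2 ?_
      linarith
    · rw [← Real.exp_add]
      refine Real.exp_le_exp.2 ?_
      rw [hud]
      unfold cb21
      have := mul_le_mul_of_nonneg_left u2 hgx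
      have t1 : 0 ≤ (ell + be * K0 + 3) * E := by positivity
      linarith
    · rw [← Real.exp_add]
      refine Real.exp_le_exp.2 ?_
      rw [hud]
      unfold cb21
      have := mul_le_mul_of_nonneg_left u2 hg
      have t1 : 0 ≤ (ell + be * K0 + 3) * E := by positivity
      linarith

end det

variable {μ : Measure ℝ} {s c C : ℝ} {n₀ : ℕ} [IsProbabilityMeasure μ]

/-- **THE FIRST BUFFER, NUMBERS DISCHARGED.** -/
theorem kBz21 (h0 : In μ s c C n₀) {K K0 Kc del D : ℝ} (hK0 : 0 ≤ K0) (hKK : K0 + 2 ≤ K) (hKc : 0 < Kc) (hdel : 0 < del) (hD : 0 ≤ D) :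
    ∃ n₁ : ℕ, 1 ≤ n₁ ∧ ∀ {T TF nM nB n1 n' : ℕ}, n₁ ≤ TF → TF ≤ T → T ≤ 4 * TF → nM ≤ TF → nB ≤ TF → n1 = nM + (TF + nB) →
      ∀ {h : ℝ} {η : Env} {p : ℕ → ℝ} {M P c0 c3 : ℕ} {κ : Pt} {x0 : ℤ} {ub tb : Bool → ℤ} {L0f : ℤ → ℝ} {a1 b1 a2 b2 lo hi : ℤ}
        {Z : Finset ℤ} {k0 : ℤ → ℤ → ℝ} {c₁ c₃ ck dk Q S be u0 R Kx A δ₀ ell ellw g gx G' hB hw : ℝ} {Pw : ℕ} {Qw : ℝ},
      (∀ k, k < M → p k = Real.exp (s + h)) → (∀ k, M ≤ k → p k = Real.exp s) → |h| * n1 ≤ 1 → c0 + n1 ≤ c3 →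
      |(x0 : ℝ) - ln35 μ s κ c0| ≤ D * wd μ s T → 0 ≤ u0 → η ∈ RowG (c0 : ℤ) x0 (wd μ s TF) (u0 * EE μ s TF) →
      (∀ i, |((ub i - x0 : ℤ) : ℝ)| ≤ K0 * wd μ s TF) → R ≤ wd μ s TF →
      (∀ i, |((tb i - x0 : ℤ) : ℝ) - sl μ s * n'| ≤ K0 * wd μ s TF) → (tb false : ℝ) + del * wd μ s TF ≤ tb true →
      BT26 (kW μ s η c0 n1) L0f (fun x => lt26 (sl μ s) (wd μ s TF) n1 (x - x0)) (EE μ s TF) ub
        (fun i => lt26 (sl μ s) (wd μ s TF) n' (tb i - x0)) R K Kx del A δ₀ ell ellw Kc be g gx G' hB Pw Qw hw →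
      0 < be → be ≤ hB → 0 ≤ g → 0 ≤ gx → 0 ≤ G' → 0 ≤ ell → 1 ≤ A → 0 ≤ Kx → Kx + 1 ≤ K → 0 ≤ δ₀ → δ₀ ≤ 1 →
      0 < c₁ → 0 ≤ ck → ck ≤ c₃ → 8 * (c₁ + ck) ≤ be → 0 ≤ Q → 0 ≤ S →
      a1 ≤ b1 → b1 < a2 → a2 ≤ b2 → lo ≤ a1 → b2 ≤ hi → (∀ y : ℤ, a1 ≤ y → y ≤ b1 → |(y : ℝ) - ub false| ≤ R) →
      (∀ y : ℤ, a2 ≤ y → y ≤ b2 → |(y : ℝ) - ub true| ≤ R) →
      (∀ x ∈ Icc lo hi, ∀ z, 0 ≤ k0 x z) →
      Stp (wt η) p lo hi c0 n1 (Icc lo hi) Z k0 (kr60 μ s η P c₁ c₃ (EE μ s T) (wd μ s T) κ c3 Q S (c0 + n1)) 1 (Lam12 μ s h M c0 n1) →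
      (∀ a ∈ cl2 a1 b1 a2 b2, ∀ z, kc21 μ s P dk ck (EE μ s T) (wd μ s T) κ c0 c3 a z ≤ k0 a z) →
      ∃ xa xb s₀ : ℤ, (∀ x : ℤ, xa ≤ x → x ≤ xb → |(x : ℝ) - ln35 μ s κ (c0 + n1)| ≤ (2 * K + D) * wd μ s T) ∧
        Pb21 (wt η) p lo hi c0 n1 a1 b1 a2 b2 xa xb s₀ Z (kc21 μ s P dk ck (EE μ s T) (wd μ s T) κ c0 c3) k0
          (kr60 μ s η P c₁ c₃ (EE μ s T) (wd μ s T) κ c3 Q S (c0 + n1)) (Real.exp 4 * δ₀)
          (Real.exp (-((gx / 4 - cb21 P c₁ ck Q S ell be K0 u0 D) * EE μ s T)))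
          (Real.exp (-((g / 4 - cb21 P c₁ ck Q S ell be K0 u0 D) * EE μ s T)))
          (Real.exp (cb21 P c₁ ck Q S ell be K0 u0 D * EE μ s T)) (Real.exp ((2 * ub21 u0 K0 + 2 * ell + 7) * EE μ s T))
          (Lam12 μ s h M c0 n1 * A) := by
  have hs1 := h0.sl_pos
  have hs2 := h0.sl_lt
  obtain ⟨mn, hmn⟩ : ∃ mn : ℝ, mn = min (sl μ s) (1 - sl μ s) := ⟨_, rfl⟩
  have hmn0 : 0 < mn := by rw [hmn]; exact lt_min hs1 (by linarith)
  have hmn1 : mn ≤ sl μ s := by rw [hmn]; exact min_le_left _ _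
  have hmn2 : mn ≤ 1 - sl μ s := by rw [hmn]; exact min_le_right _ _
  obtain ⟨N1, H1⟩ := th26 h0 (th := min (del / 4) Kc) (lt_min (by linarith) hKc) ((K + K0 + 2) / mn)
  refine ⟨max N1 1, le_max_right _ _, ?_⟩
  intro T TF nM nB n1 n' hTF hT1 hT4 hnM hnB hn1 h η p M P c0 c3 κ x0 ub tb L0f a1 b1 a2 b2 lo hi Z k0 c₁ c₃ ck dk Q S be u0 R Kx A δ₀
    ell ellw g gx G' hB hw Pw Qw hp hp' hh hr hx0 hu0 hrow hub hR htb hsep HB hbe hbB hg hgx hG hell hA hKx hKx1 hδ0 hδ1 hc₁ hck hck3 hrate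
    hQ hS hab1 hab2 hab3 hab4 hab5 hc1 hc2 hk0n hk0 hkck
  have th := H1 TF ((le_max_left _ _).trans hTF)
  have hTF1 : 1 ≤ TF := (le_max_right _ _).trans hTF
  have hw0 : 0 < wd μ s TF := by linarith [th.w2]
  have hwT := h0.wd_pos (hTF1.trans hT1)
  obtain ⟨u1, u2, u3, u4, u5⟩ := unit83 h0 hTF1 hT1 hT4 hwT hw0
  have hTFR : (1 : ℝ) ≤ TF := by exact_mod_cast hTF1
  have hn1R : (n1 : ℝ) ≤ 3 * TF := by
    have : n1 ≤ 3 * TF := by omega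
    exact_mod_cast this
  have hn1R' : (TF : ℝ) ≤ n1 := by
    have : TF ≤ n1 := by omega
    exact_mod_cast this
  have thR := th.RE
  have thK := th.KT
  have hp0 : ∀ k, 0 < p k := fun k => by
    by_cases hk : k < M
    · rw [hp k hk]
      exact Real.exp_pos _
    · rw [hp' k (not_lt.1 hk)]
      exact Real.exp_pos _
  have nk := fun x y => nk_kW83 h0 (h := h) (η := η) (p := p) (M := M) hp hp' c0 n1 x y
  have key : (K + K0 + 2) * wd μ s TF ≤ mn * n1 := by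
    have a1 : (K + K0 + 2) * wd μ s TF = mn * ((K + K0 + 2) / mn * wd μ s TF) := by field_simp
    rw [a1]
    exact mul_le_mul_of_nonneg_left (thK.trans hn1R') hmn0.le
  have n0 : (0 : ℝ) ≤ n1 := Nat.cast_nonneg _
  refine kBd21 hK0 hKK hD hs1 hs2 (one_le_EE TF) u1 u2 hwT th.w2 u3 (th.thw.trans (mul_le_mul_of_nonneg_right (min_le_left _ _) hw0.le))
    (th.thw.trans (mul_le_mul_of_nonneg_right (min_le_right _ _) hw0.le)) (key.trans (mul_le_mul_of_nonneg_right hmn1 n0))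
    (key.trans (mul_le_mul_of_nonneg_right hmn2 n0)) ?_ hp hp' hh hr (fun x y => (nk x y).2.trans
      (mul_le_mul_of_nonneg_right (Real.exp_le_exp.2 hh) (W_nonneg η _ _ _))) (fun x y => ?_) hx0 hu0 hrow hub hR htb hsep HB hbe hbB hg
    hgx hG hell hA hKx hKx1 hδ0 hδ1 hc₁ hck hck3 hrate hQ hS hab1 hab2 hab3 hab4 hab5 hc1 hc2 hk0n hk0 hkck
  · have a1 : Real.exp (EE μ s TF) ≤ Real.exp (EE μ s T) := Real.exp_le_exp.2 u1
    have a2 : (n1 : ℝ) + 1 ≤ 2 * (6 * (TF : ℝ)) ^ 3 := by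
      have b1 : (6 * (TF : ℝ)) ^ 3 = 216 * (TF : ℝ) ^ 3 := by ring
      have b2 : (TF : ℝ) ≤ (TF : ℝ) ^ 3 := by
        calc (TF : ℝ) = (TF : ℝ) ^ 1 := (pow_one _).symm
          _ ≤ (TF : ℝ) ^ 3 := pow_le_pow_right₀ hTFR (by norm_num)
      rw [b1]
      linarith
    linarith
  · have h1 := (nk x y).1
    have h2 := mul_le_mul_of_nonneg_left h1 (Real.exp_pos (|h| * n1)).le
    rw [← mul_assoc, ← Real.exp_add, add_neg_cancel, Real.exp_zero, one_mul] at h2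
    exact h2.trans (mul_le_mul_of_nonneg_right (Real.exp_le_exp.2 hh) (nk_nonneg hp0 _ _ _ _))

end

end Pool.Agent.W_7d29a1_C1.Sh21
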