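import Pool.Agent.W_7d29a1_C1.KStp21
import Pool.Agent.W_7d29a1_C1.JnD35

/-!
Both halves (MP_7d29a1_pr), attractor route [C1], SHELL: THE ENVELOPE FIELDS OF `Pcs` FROM `En31` (helper60).

`kr60 .. Q S r y z` = weight of the place `(r, y)` times the cut envelope `kap31` from the row `r` to the row `c3`, line of `κ`, amplitude
`Lam12 = exp (n λ + h sl bl)` of a step: all the weights telescope. `stp60` : `Stp` of one step from `En31` of its normalised kernel; `ex60` :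
exits from a window; `mv60` : from any row back to the cells of `c0` (the deterministic envelope `k0` of `So`); `wt60` : the weights of the row
`c0` go into the level; `lst60` : the last buffer, whose last step has no weight.
-/

set_option autoImplicit false
set_option linter.unusedSectionVars false

namespace Pool.Agent.W_7d29a1_C1.H60

open Finset
open Pool.Agent.W_7d29a1_F Pool.Agent.W_7d29a1_h4g Pool.Agent.W_7d29a1_H Pool.Agent.W_7d29a1_HS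
open Pool.Agent.W_7d29a1_C1 Pool.Agent.W_7d29a1_C1.H75 Pool.Agent.W_7d29a1_C1.U16 Pool.Agent.W_7d29a1_C1.FarK89 Pool.Agent.W_7d29a1_C1.FarW89
open Pool.Agent.W_7d29a1_C1.K91 (wt wt_pos)
open Pool.Agent.W_7d29a1_C1.S83 (RowG)
open Pool.Agent.W_7d29a1_C1.S12 (st12 Lam12)
open Pool.Agent.W_7d29a1_C1.D31 (En31 kapo31 kap31 kapo31_pos kap31_nonneg kap31_le kap31_of_reach le_kap31)
open Pool.Agent.W_7d29a1_C1.JnC35 (ln35 comp35_cut AQ_mono)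
open Pool.Agent.W_7d29a1_C1.Sh21 (Stp)
open Pool.Agent.W_7d29a1_C1.R26P (kf)

noncomputable section

variable {μ : MeasureTheory.Measure ℝ} {s h : ℝ} {η : Env} {p : ℕ → ℝ} {M P : ℕ}
  {c c₁ c₂ c₃ c₃' c₅ cₖ dₖ E w Q S q σ : ℝ} {κ : Pt} {lo H x a : ℤ} {r n c3 c0 : ℕ}

/-- **The envelope from the row `r` to the row `c3`**, with the weight of the place. -/
def kr60 (μ : MeasureTheory.Measure ℝ) (s : ℝ) (η : Env) (P : ℕ) (c₁ c₃ E w : ℝ) (κ : Pt) (c3 : ℕ) (Q S : ℝ) (r : ℕ) (y z : ℤ) : ℝ :=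
  wt η r y * kap31 P c₁ c₃ Q S E w (ln35 μ s κ r) (ln35 μ s κ c3) (c3 - r) y z

theorem kr60_nonneg (y z : ℤ) : 0 ≤ kr60 μ s η P c₁ c₃ E w κ c3 Q S r y z := mul_nonneg (wt_pos η r y).le (kap31_nonneg y z)

/-- The real kernel. -/
theorem kf_nk60 (x y : ℤ) : kf (wt η) p r n x y = Lam12 μ s h M r n * (wt η r x / wt η (r + n) y) * nk μ s h η p M r n x y :=
  ker_nk r n x y

/-- The weights telescope. -/
theorem sum_kr60 (T : Finset ℤ) (x z : ℤ) : ∑ y ∈ T, kf (wt η) p r n x y * kr60 μ s η P c₁ c₃ E w κ c3 Q S (r + n) y z =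
    Lam12 μ s h M r n * (wt η r x * ∑ y ∈ T, nk μ s h η p M r n x y *
      kap31 P c₁ c₃ Q S E w (ln35 μ s κ (r + n)) (ln35 μ s κ c3) (c3 - (r + n)) y z) := by
  rw [mul_sum, mul_sum]
  refine sum_congr rfl fun y _ => ?_
  have h2 := wt_pos η (r + n) y
  rw [kf_nk60 (μ := μ) (s := s) (h := h) (M := M) x y]
  unfold kr60
  field_simp

/-- **ONE STEP.** -/
theorem stp60 (hE : 0 < E) (hw : 0 < w) (hc₁ : 0 < c₁) (hc₂ : 0 ≤ c₂) (hc₃ : 0 ≤ c₃') (h3 : c₃' ≤ c₃) (hcc : c₃' + c₁ + c₂ ≤ c)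
    (hQ : 0 ≤ Q) (hr : r + n ≤ c3)
    (en : En31 P c c₂ E w q σ (fun x => (x : ℝ) - ln35 μ s κ r) (fun y => (y : ℝ) - ln35 μ s κ (r + n)) (nk μ s h η p M r n)
      (Icc lo H) (Icc lo (H + n))) (Z : Finset ℤ) :
    Stp (wt η) p lo H r n (Icc lo H) Z (kr60 μ s η P c₁ c₃' E w κ c3 (Q + q) (S + σ) r) (kr60 μ s η P c₁ c₃ E w κ c3 Q S (r + n)) 1
      (Lam12 μ s h M r n) := by
  intro x hx z _
  rw [sum_kr60 (h := h) (M := M), one_mul]
  refine mul_le_mul_of_nonneg_left ?_ (Real.exp_pos _).le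
  unfold kr60
  refine mul_le_mul_of_nonneg_left ?_ (wt_pos η r x).le
  have h1 := comp35_cut (S := S) (cen₃ := ln35 μ s κ c3) (m := c3 - (r + n)) hE hw hc₁ hc₂ hc₃ h3 hcc en hQ
    (fun x y hxy => nk_eq_zero r n hxy) hx z
  rwa [show n + (c3 - (r + n)) = c3 - r by omega] at h1

/-- **EXITS FROM A WINDOW** : `|x - line| ≤ U w`, all the ends at distance `≥ K w`. -/
theorem ex60 {U K : ℝ} (hE : 0 < E) (hw : 0 < w) (hc₁ : 0 < c₁) (hc₂ : 0 ≤ c₂) (hc₃ : 0 ≤ c₃') (h3 : c₃' ≤ c₃) (hc₅ : 0 ≤ c₅)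
    (hcc : c₃' + c₁ + c₂ + c₅ ≤ c) (hQ : 0 ≤ Q) (hr : r + n ≤ c3) {I J : Finset ℤ}
    (en : En31 P c c₂ E w q σ (fun x => (x : ℝ) - ln35 μ s κ r) (fun y => (y : ℝ) - ln35 μ s κ (r + n)) (nk μ s h η p M r n) I J)
    (hx : x ∈ I) (hxU : |(x : ℝ) - ln35 μ s κ r| ≤ U * w) {T : Finset ℤ} (hT : T ⊆ J)
    (hTK : ∀ v ∈ T, K * w ≤ |(v : ℝ) - ln35 μ s κ (r + n)|) (z : ℤ) :
    ∑ v ∈ T, kf (wt η) p r n x v * kr60 μ s η P c₁ c₃ E w κ c3 Q S (r + n) v z ≤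
      Real.exp (-(c₅ * (K - U) * E)) * Lam12 μ s h M r n * kr60 μ s η P c₁ c₃' E w κ c3 (Q + q) (S + σ) r x z := by
  have hEw : 0 ≤ E / w := (div_pos hE hw).le
  have en' : En31 P (c - c₅) c₂ E w q σ (fun x => (x : ℝ) - ln35 μ s κ r) (fun y => (y : ℝ) - ln35 μ s κ (r + n))
      (fun x y => Real.exp (c₅ * (K - U) * E) * nk μ s h η p M r n x y) {x} T := by
    refine ⟨en.q0, en.s0, fun a b => mul_nonneg (Real.exp_pos _).le (en.k0 a b), fun a ha v hv => ?_, fun a => ?_⟩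
    · rw [mem_singleton] at ha
      subst ha
      refine (mul_le_mul_of_nonneg_left (en.up a hx v (hT hv)) (Real.exp_pos _).le).trans ?_
      rw [← Real.exp_add]
      refine Real.exp_le_exp.2 ?_
      obtain ⟨t, ht⟩ : ∃ t : ℝ, t = |(v : ℝ) - ln35 μ s κ (r + n) - ((a : ℝ) - ln35 μ s κ r)| := ⟨_, rfl⟩
      have h1 : (K - U) * w ≤ t := by
        have h2 := abs_sub_abs_le_abs_sub ((v : ℝ) - ln35 μ s κ (r + n)) ((a : ℝ) - ln35 μ s κ r)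
        have h3 := hTK v hv
        rw [ht]
        linarith
      have h2 := mul_le_mul_of_nonneg_left h1 (mul_nonneg hc₅ hEw)
      have e2 : c₅ * (E / w) * ((K - U) * w) = c₅ * (K - U) * E := by
        field_simp
      rw [e2] at h2
      rw [← ht]
      have e3 : (c - c₅) * (E / w) * t = c * (E / w) * t - c₅ * (E / w) * t := by ring
      rw [e3]
      linarith
    · exact (sum_le_sum_of_subset_of_nonneg hT fun _ _ _ => (Real.exp_pos _).le).trans (en.sum a)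
  have h1 := comp35_cut (S := S) (cen₃ := ln35 μ s κ c3) (m := c3 - (r + n)) (Q := Q) hE hw hc₁ hc₂ hc₃ h3 (by linarith) en' hQ
    (fun x y hxy => by rw [nk_eq_zero r n hxy, mul_zero]) (mem_singleton_self x) z
  rw [show n + (c3 - (r + n)) = c3 - r by omega] at h1
  have e1 : ∑ y ∈ T, Real.exp (c₅ * (K - U) * E) * nk μ s h η p M r n x y *
      kap31 P c₁ c₃ Q S E w (ln35 μ s κ (r + n)) (ln35 μ s κ c3) (c3 - (r + n)) y z = Real.exp (c₅ * (K - U) * E) *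
      ∑ y ∈ T, nk μ s h η p M r n x y * kap31 P c₁ c₃ Q S E w (ln35 μ s κ (r + n)) (ln35 μ s κ c3) (c3 - (r + n)) y z := by
    rw [mul_sum]
    exact sum_congr rfl fun y _ => by ring
  rw [e1] at h1
  have h4 := mul_le_mul_of_nonneg_left h1 (Real.exp_pos (-(c₅ * (K - U) * E))).le
  rw [← mul_assoc, ← Real.exp_add, neg_add_cancel, Real.exp_zero, one_mul] at h4
  rw [sum_kr60 (h := h) (M := M)]
  unfold kr60
  have h5 := mul_le_mul_of_nonneg_left (mul_le_mul_of_nonneg_left h4 (wt_pos η r x).le) (Real.exp_pos (n * lam μ s + h * sl μ s * bl M r n)).le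
  refine (h5.trans (le_of_eq ?_))
  unfold Lam12
  ring

/-- The start of an envelope is moved to a place of an earlier row (cut sets included); `C` = the cost. -/
theorem mvk60 {K Λ : ℝ} (hE : 0 < E) (hw : 0 < w) (hd : 0 ≤ cₖ) (hck : cₖ ≤ c₃) (hQ : 0 ≤ Q) {Q₀ S₀ : ℝ} (hQ₀ : 0 ≤ Q₀)
    (hS₀ : 0 ≤ S₀) (h0 : c0 ≤ r) (hr : r ≤ c3) (hx : |(x : ℝ) - ln35 μ s κ r| ≤ K * w) (ha : |(a : ℝ) - ln35 μ s κ c0| ≤ Λ * w) (hax : a ≤ x)
    (hxa : x ≤ a + (r - c0 : ℕ)) (z : ℤ) :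
    kap31 P c₁ c₃ Q S E w (ln35 μ s κ r) (ln35 μ s κ c3) (c3 - r) x z ≤
      Real.exp ((Q * gr P (AQ P c₁ Q + K) + S + cₖ * (K + Λ)) * E) *
        kap31 P dₖ cₖ Q₀ S₀ E w (ln35 μ s κ c0) (ln35 μ s κ c3) (c3 - c0) a z := by
  by_cases h1 : x ≤ z ∧ z ≤ x + (c3 - r : ℕ)
  swap
  · have e : kap31 P c₁ c₃ Q S E w (ln35 μ s κ r) (ln35 μ s κ c3) (c3 - r) x z = 0 := if_neg h1
    rw [e]
    exact mul_nonneg (Real.exp_pos _).le (kap31_nonneg _ _)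
  rw [kap31_of_reach h1.1 h1.2, kap31_of_reach (show a ≤ z by omega) (by omega)]
  unfold kapo31
  rw [← Real.exp_add]
  refine Real.exp_le_exp.2 ?_
  have hEw : 0 ≤ E / w := (div_pos hE hw).le
  have hA := AQ_nonneg P c₁ Q
  have hA0 := AQ_nonneg P dₖ Q₀
  have g1 : gr P (AQ P c₁ Q + |(x : ℝ) - ln35 μ s κ r| / w) ≤ gr P (AQ P c₁ Q + K) := by
    refine gr_mono P (by positivity) (add_le_add le_rfl ?_)
    rwa [div_le_iff₀ hw]
  have g2 := mul_le_mul_of_nonneg_right (mul_le_mul_of_nonneg_left g1 hQ) hE.le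
  have g3 : 0 ≤ (Q₀ * gr P (AQ P dₖ Q₀ + |(a : ℝ) - ln35 μ s κ c0| / w) + S₀) * E := by
    have := gr_nonneg P (show 0 ≤ AQ P dₖ Q₀ + |(a : ℝ) - ln35 μ s κ c0| / w by positivity)
    positivity
  have g4 : |(z : ℝ) - ln35 μ s κ c3 - ((a : ℝ) - ln35 μ s κ c0)| ≤
      |(z : ℝ) - ln35 μ s κ c3 - ((x : ℝ) - ln35 μ s κ r)| + (K + Λ) * w := by
    have h2 := abs_add_le ((z : ℝ) - ln35 μ s κ c3 - ((x : ℝ) - ln35 μ s κ r)) (((x : ℝ) - ln35 μ s κ r) - ((a : ℝ) - ln35 μ s κ c0))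
    have h3 := abs_sub ((x : ℝ) - ln35 μ s κ r) ((a : ℝ) - ln35 μ s κ c0)
    have e : (z : ℝ) - ln35 μ s κ c3 - ((x : ℝ) - ln35 μ s κ r) + (((x : ℝ) - ln35 μ s κ r) - ((a : ℝ) - ln35 μ s κ c0)) =
        (z : ℝ) - ln35 μ s κ c3 - ((a : ℝ) - ln35 μ s κ c0) := by ring
    rw [e] at h2
    linarith
  have g5 := mul_le_mul_of_nonneg_left g4 (mul_nonneg hd hEw)
  have e5 : cₖ * (E / w) * (|(z : ℝ) - ln35 μ s κ c3 - ((x : ℝ) - ln35 μ s κ r)| + (K + Λ) * w) =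
      cₖ * (E / w) * |(z : ℝ) - ln35 μ s κ c3 - ((x : ℝ) - ln35 μ s κ r)| + cₖ * (K + Λ) * E := by
    field_simp
  rw [e5] at g5
  have g6 := mul_le_mul_of_nonneg_right (mul_le_mul_of_nonneg_right hck hEw)
    (abs_nonneg ((z : ℝ) - ln35 μ s κ c3 - ((x : ℝ) - ln35 μ s κ r)))
  linarith

/-- **FROM A ROW BACK TO THE CELLS.** -/
theorem mv60 {K Λ u : ℝ} (hE : 0 < E) (hw : 0 < w) (hd : 0 ≤ cₖ) (hck : cₖ ≤ c₃) (hQ : 0 ≤ Q) {Q₀ S₀ : ℝ} (hQ₀ : 0 ≤ Q₀)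
    (hS₀ : 0 ≤ S₀) (h0 : c0 ≤ r) (hr : r ≤ c3) (hx : |(x : ℝ) - ln35 μ s κ r| ≤ K * w) (ha : |(a : ℝ) - ln35 μ s κ c0| ≤ Λ * w)
    (hax : a ≤ x) (hxa : x ≤ a + (r - c0 : ℕ)) (hwt : wt η r x ≤ Real.exp (u * E)) (z : ℤ) :
    kr60 μ s η P c₁ c₃ E w κ c3 Q S r x z ≤ Real.exp ((u + Q * gr P (AQ P c₁ Q + K) + S + cₖ * (K + Λ)) * E) *
      kap31 P dₖ cₖ Q₀ S₀ E w (ln35 μ s κ c0) (ln35 μ s κ c3) (c3 - c0) a z := by
  unfold kr60
  have h1 := mvk60 (μ := μ) (s := s) (S := S) (P := P) (c₁ := c₁) (dₖ := dₖ) hE hw hd hck hQ hQ₀ hS₀ h0 hr hx ha hax hxa z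
  refine (mul_le_mul hwt h1 (kap31_nonneg _ _) (Real.exp_pos _).le).trans (le_of_eq ?_)
  rw [← mul_assoc, ← Real.exp_add]
  congr 2
  ring

/-- **EXITS, SEEN FROM A CELL OF `c0`.** -/
theorem exc60 {U K Λ u : ℝ} (hE : 0 < E) (hw : 0 < w) (hc₁ : 0 < c₁) (hc₂ : 0 ≤ c₂) (hc₃ : 0 ≤ c₃) (hc₅ : 0 ≤ c₅)
    (hcc : c₃ + c₁ + c₂ + c₅ ≤ c) (hd : 0 ≤ cₖ) (hck : cₖ ≤ c₃) (hQ : 0 ≤ Q) {Q₀ S₀ : ℝ} (hQ₀ : 0 ≤ Q₀) (hS₀ : 0 ≤ S₀) (h0 : c0 ≤ r)
    (hr : r + n ≤ c3)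
    {I J : Finset ℤ}
    (en : En31 P c c₂ E w q σ (fun x => (x : ℝ) - ln35 μ s κ r) (fun y => (y : ℝ) - ln35 μ s κ (r + n)) (nk μ s h η p M r n) I J)
    (hx : x ∈ I) (hxU : |(x : ℝ) - ln35 μ s κ r| ≤ U * w) {T : Finset ℤ} (hT : T ⊆ J)
    (hTK : ∀ v ∈ T, K * w ≤ |(v : ℝ) - ln35 μ s κ (r + n)|) (ha : |(a : ℝ) - ln35 μ s κ c0| ≤ Λ * w) (hax : a ≤ x)
    (hxa : x ≤ a + (r - c0 : ℕ)) (hwt : wt η r x ≤ Real.exp (u * E)) (z : ℤ) :
    ∑ v ∈ T, kf (wt η) p r n x v * kr60 μ s η P c₁ c₃ E w κ c3 Q S (r + n) v z ≤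
      Real.exp ((u + (Q + q) * gr P (AQ P c₁ (Q + q) + U) + (S + σ) + cₖ * (U + Λ) - c₅ * (K - U)) * E) * Lam12 μ s h M r n *
        kap31 P dₖ cₖ Q₀ S₀ E w (ln35 μ s κ c0) (ln35 μ s κ c3) (c3 - c0) a z := by
  have h1 := ex60 (h := h) (M := M) (c₃ := c₃) (c₃' := c₃) (S := S) hE hw hc₁ hc₂ hc₃ le_rfl hc₅ hcc hQ hr en hx hxU hT hTK z
  have h2 := mv60 (η := η) (P := P) (c₁ := c₁) (dₖ := dₖ) (S := S + σ) (S₀ := S₀) (Q₀ := Q₀) (Q := Q + q) hE hw hd hck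
    (add_nonneg hQ en.q0) hQ₀ hS₀ h0 (show r ≤ c3 by omega) hxU ha hax hxa hwt z
  refine h1.trans ((mul_le_mul_of_nonneg_left h2 (mul_nonneg (Real.exp_pos _).le (Real.exp_pos _).le)).trans (le_of_eq ?_))
  have e1 : Real.exp ((u + (Q + q) * gr P (AQ P c₁ (Q + q) + U) + (S + σ) + cₖ * (U + Λ) - c₅ * (K - U)) * E) =
      Real.exp (-(c₅ * (K - U) * E)) * Real.exp ((u + (Q + q) * gr P (AQ P c₁ (Q + q) + U) + (S + σ) + cₖ * (U + Λ)) * E) := by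
    rw [← Real.exp_add]
    congr 1
    ring
  rw [e1]
  unfold Lam12
  ring

/-- **The weights of the row `c0` go into the level** (`k0` has no weight). -/
theorem wt60 {u : ℝ} (hE : 0 < E) (hw : 0 < w) (hc₁ : 0 < c₁) (hP : 1 ≤ P) (hQ : 0 ≤ Q) (hu : 0 ≤ u) {cen : ℝ} (m : ℕ) (ce : ℝ)
    (hwt : wt η r x ≤ Real.exp (u * (1 + Real.log (1 + |(x : ℝ) - cen| / w)) * E)) (z : ℤ) :
    wt η r x * kap31 P c₁ c₃ Q S E w cen ce m x z ≤ kap31 P c₁ c₃ (Q + u) S E w cen ce m x z := by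
  by_cases h1 : x ≤ z ∧ z ≤ x + (m : ℤ)
  swap
  · have e : kap31 P c₁ c₃ Q S E w cen ce m x z = 0 := if_neg h1
    rw [e, mul_zero]
    exact kap31_nonneg _ _
  rw [kap31_of_reach h1.1 h1.2, kap31_of_reach h1.1 h1.2]
  unfold kapo31
  refine (mul_le_mul_of_nonneg_right hwt (Real.exp_pos _).le).trans ?_
  rw [← Real.exp_add]
  refine Real.exp_le_exp.2 ?_
  obtain ⟨X, hX⟩ : ∃ X : ℝ, X = |(x : ℝ) - cen| / w := ⟨_, rfl⟩
  have hX0 : 0 ≤ X := by rw [hX]; positivity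
  have hA := AQ_nonneg P c₁ Q
  have hA' := AQ_nonneg P c₁ (Q + u)
  rw [← hX]
  have g1 : gr P (AQ P c₁ Q + X) ≤ gr P (AQ P c₁ (Q + u) + X) :=
    gr_mono P (by positivity) (add_le_add (AQ_mono hc₁ hQ (by linarith)) le_rfl)
  have g2 : 1 + Real.log (1 + X) ≤ gr P (AQ P c₁ (Q + u) + X) := by
    have h2 : gr 1 X ≤ gr P X := S83.gr_pow_mono hP hX0
    have h3 : gr P X ≤ gr P (AQ P c₁ (Q + u) + X) := gr_mono P hX0 (by linarith)
    have e4 : gr 1 X = 1 + Real.log (1 + X) := by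
      unfold gr
      rw [pow_one]
    rw [e4] at h2
    linarith
  have g3 := mul_le_mul_of_nonneg_right (mul_le_mul_of_nonneg_left g1 hQ) hE.le
  have g4 := mul_le_mul_of_nonneg_right (mul_le_mul_of_nonneg_left g2 hu) hE.le
  linarith

/-! ### The last buffer -/

/-- **THE LAST BUFFER** : one term. -/
theorem lst60 (hE : 0 < E) (hw : 0 < w) (hc : c₃ ≤ c) (hS : 0 ≤ S) (hqQ : q ≤ Q) {I J : Finset ℤ}
    (en : En31 P c c₂ E w q σ (fun x => (x : ℝ) - ln35 μ s κ r) (fun y => (y : ℝ) - ln35 μ s κ (r + (n + 1)))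
      (st12 (nk μ s h η p M r n) (p (r + n))) I J) {x z : ℤ} (hx : x ∈ I) (hz : z ∈ J) :
    kf (wt η) p r (n + 1) x z ≤ Lam12 μ s h M r n * kr60 μ s η P c₁ c₃ E w κ (r + (n + 1)) Q S r x z := by
  have e1 : kf (wt η) p r (n + 1) x z = Lam12 μ s h M r n * (wt η r x * st12 (nk μ s h η p M r n) (p (r + n)) x z) :=
    Fr47.ker_st47 r n x z
  have hEw : 0 ≤ E / w := (div_pos hE hw).le
  rw [e1]
  refine mul_le_mul_of_nonneg_left ?_ (Real.exp_pos _).le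
  unfold kr60
  refine mul_le_mul_of_nonneg_left ?_ (wt_pos η r x).le
  rw [show r + (n + 1) - r = n + 1 by omega]
  refine le_kap31 (fun hn => ?_) ((en.up x hx z hz).trans (Real.exp_le_exp.2 ?_))
  · unfold st12
    rw [nk_eq_zero r n (x := x) (y := z) (by push_cast at hn; omega), nk_eq_zero r n (x := x) (y := z - 1) (by push_cast at hn; omega)]
    ring
  · have hX0 : 0 ≤ |(x : ℝ) - ln35 μ s κ r| / w := by positivity
    have hA := AQ_nonneg P c₁ Q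
    have g1 : gr P (|(x : ℝ) - ln35 μ s κ r| / w) ≤ gr P (AQ P c₁ Q + |(x : ℝ) - ln35 μ s κ r| / w) := gr_mono P hX0 (by linarith)
    have g0 := gr_nonneg P hX0
    have g2 : q * gr P (|(x : ℝ) - ln35 μ s κ r| / w) ≤ Q * gr P (AQ P c₁ Q + |(x : ℝ) - ln35 μ s κ r| / w) :=
      mul_le_mul hqQ g1 g0 (en.q0.trans hqQ)
    have g3 := mul_le_mul_of_nonneg_right g2 hE.le
    have g4 := mul_le_mul_of_nonneg_right (mul_le_mul_of_nonneg_right hc hEw)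
      (abs_nonneg ((z : ℝ) - ln35 μ s κ (r + (n + 1)) - ((x : ℝ) - ln35 μ s κ r)))
    have g5 := mul_nonneg hS hE.le
    linarith

/-- **THE ENDS OF THE LAST BUFFER OFF THE WINDOW**, seen from a cell of `c0` (fields `yl`, `yr`). -/
theorem lstc60 {U K Λ u : ℝ} (hE : 0 < E) (hw : 0 < w) (hd : 0 ≤ cₖ) (hck : cₖ ≤ c₃) (hc₅ : 0 ≤ c₅) (hcc : c₃ + c₅ ≤ c)
    (hS : 0 ≤ S) (hqQ : q ≤ Q) {Q₀ S₀ : ℝ} (hQ₀ : 0 ≤ Q₀) (hS₀ : 0 ≤ S₀) (hp : ∀ k, 0 < p k) (h0 : c0 ≤ r) {I J : Finset ℤ}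
    (en : En31 P c c₂ E w q σ (fun x => (x : ℝ) - ln35 μ s κ r) (fun y => (y : ℝ) - ln35 μ s κ (r + (n + 1)))
      (st12 (nk μ s h η p M r n) (p (r + n))) I J) {x z : ℤ} (hx : x ∈ I) (hz : z ∈ J) (hxU : |(x : ℝ) - ln35 μ s κ r| ≤ U * w)
    (hzK : K * w ≤ |(z : ℝ) - ln35 μ s κ (r + (n + 1))|) (ha : |(a : ℝ) - ln35 μ s κ c0| ≤ Λ * w) (hax : a ≤ x)
    (hxa : x ≤ a + (r - c0 : ℕ)) (hwt : wt η r x ≤ Real.exp (u * E)) :
    kf (wt η) p r (n + 1) x z ≤ Real.exp ((u + Q * gr P (AQ P c₁ Q + U) + S + cₖ * (U + Λ) - c₅ * (K - U)) * E) * Lam12 μ s h M r n *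
      kap31 P dₖ cₖ Q₀ S₀ E w (ln35 μ s κ c0) (ln35 μ s κ (r + (n + 1))) (r + (n + 1) - c0) a z := by
  have hEw : 0 ≤ E / w := (div_pos hE hw).le
  have en' : En31 P (c - c₅) c₂ E w q σ (fun x => (x : ℝ) - ln35 μ s κ r) (fun y => (y : ℝ) - ln35 μ s κ (r + (n + 1)))
      (fun a b => Real.exp (c₅ * (K - U) * E) * st12 (nk μ s h η p M r n) (p (r + n)) a b) {x} {z} := by
    refine ⟨en.q0, en.s0, fun a b => mul_nonneg (Real.exp_pos _).le (en.k0 a b), fun a ha v hv => ?_, fun a => ?_⟩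
    · rw [mem_singleton] at ha hv
      subst ha
      subst hv
      refine (mul_le_mul_of_nonneg_left (en.up a hx v hz) (Real.exp_pos _).le).trans ?_
      rw [← Real.exp_add]
      refine Real.exp_le_exp.2 ?_
      obtain ⟨t, ht⟩ : ∃ t : ℝ, t = |(v : ℝ) - ln35 μ s κ (r + (n + 1)) - ((a : ℝ) - ln35 μ s κ r)| := ⟨_, rfl⟩
      have h1 : (K - U) * w ≤ t := by
        have h2 := abs_sub_abs_le_abs_sub ((v : ℝ) - ln35 μ s κ (r + (n + 1))) ((a : ℝ) - ln35 μ s κ r)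
        rw [ht]
        linarith
      have h2 := mul_le_mul_of_nonneg_left h1 (mul_nonneg hc₅ hEw)
      have e2 : c₅ * (E / w) * ((K - U) * w) = c₅ * (K - U) * E := by
        field_simp
      rw [e2] at h2
      rw [← ht]
      have e3 : (c - c₅) * (E / w) * t = c * (E / w) * t - c₅ * (E / w) * t := by ring
      rw [e3]
      linarith
    · exact (sum_le_sum_of_subset_of_nonneg (singleton_subset_iff.2 hz) fun _ _ _ => (Real.exp_pos _).le).trans (en.sum a)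
  have e1 : kf (wt η) p r (n + 1) x z = Lam12 μ s h M r n * (wt η r x * st12 (nk μ s h η p M r n) (p (r + n)) x z) :=
    Fr47.ker_st47 r n x z
  have k1 : st12 (nk μ s h η p M r n) (p (r + n)) x z ≤ Real.exp (-(c₅ * (K - U) * E)) *
      kap31 P c₁ c₃ Q S E w (ln35 μ s κ r) (ln35 μ s κ (r + (n + 1))) (r + (n + 1) - r) x z := by
    have h2 : Real.exp (c₅ * (K - U) * E) * st12 (nk μ s h η p M r n) (p (r + n)) x z ≤
        kap31 P c₁ c₃ Q S E w (ln35 μ s κ r) (ln35 μ s κ (r + (n + 1))) (r + (n + 1) - r) x z := by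
      rw [show r + (n + 1) - r = n + 1 by omega]
      refine le_kap31 (fun hn => ?_) ((en'.up x (mem_singleton_self x) z (mem_singleton_self z)).trans (Real.exp_le_exp.2 ?_))
      · unfold st12
        rw [nk_eq_zero r n (x := x) (y := z) (by push_cast at hn; omega), nk_eq_zero r n (x := x) (y := z - 1) (by push_cast at hn; omega)]
        ring
      · have hX0 : 0 ≤ |(x : ℝ) - ln35 μ s κ r| / w := by positivity
        have hA := AQ_nonneg P c₁ Q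
        have g1 : gr P (|(x : ℝ) - ln35 μ s κ r| / w) ≤ gr P (AQ P c₁ Q + |(x : ℝ) - ln35 μ s κ r| / w) := gr_mono P hX0 (by linarith)
        have g0 := gr_nonneg P hX0
        have g2 : q * gr P (|(x : ℝ) - ln35 μ s κ r| / w) ≤ Q * gr P (AQ P c₁ Q + |(x : ℝ) - ln35 μ s κ r| / w) :=
          mul_le_mul hqQ g1 g0 (en.q0.trans hqQ)
        have g3 := mul_le_mul_of_nonneg_right g2 hE.le
        have g4 := mul_le_mul_of_nonneg_right (mul_le_mul_of_nonneg_right (show c₃ ≤ c - c₅ by linarith) hEw)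
          (abs_nonneg ((z : ℝ) - ln35 μ s κ (r + (n + 1)) - ((x : ℝ) - ln35 μ s κ r)))
        have g5 := mul_nonneg hS hE.le
        linarith
    have h4 := mul_le_mul_of_nonneg_left h2 (Real.exp_pos (-(c₅ * (K - U) * E))).le
    rwa [← mul_assoc, ← Real.exp_add, neg_add_cancel, Real.exp_zero, one_mul] at h4
  have k2 := mvk60 (μ := μ) (s := s) (P := P) (κ := κ) (c₁ := c₁) (dₖ := dₖ) (S := S) (S₀ := S₀) (Q₀ := Q₀) (Q := Q) (c3 := r + (n + 1)) hE hw hd hck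
    (en.q0.trans hqQ) hQ₀ hS₀ h0 (show r ≤ r + (n + 1) by omega) hxU ha hax hxa z
  rw [e1]
  have k3 : wt η r x * st12 (nk μ s h η p M r n) (p (r + n)) x z ≤ Real.exp (u * E) * (Real.exp (-(c₅ * (K - U) * E)) *
      (Real.exp ((Q * gr P (AQ P c₁ Q + U) + S + cₖ * (U + Λ)) * E) *
        kap31 P dₖ cₖ Q₀ S₀ E w (ln35 μ s κ c0) (ln35 μ s κ (r + (n + 1))) (r + (n + 1) - c0) a z)) := by
    refine mul_le_mul hwt (k1.trans (mul_le_mul_of_nonneg_left k2 (Real.exp_pos _).le)) ?_ (Real.exp_pos _).le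
    exact S12.st12_nonneg (fun _ _ => nk_nonneg hp _ _ _ _) (hp _).le x z
  refine (mul_le_mul_of_nonneg_left k3 (Real.exp_pos (n * lam μ s + h * sl μ s * bl M r n)).le).trans (le_of_eq ?_)
  have e2 : Real.exp ((u + Q * gr P (AQ P c₁ Q + U) + S + cₖ * (U + Λ) - c₅ * (K - U)) * E) =
      Real.exp (u * E) * (Real.exp (-(c₅ * (K - U) * E)) * Real.exp ((Q * gr P (AQ P c₁ Q + U) + S + cₖ * (U + Λ)) * E)) := by
    rw [← Real.exp_add, ← Real.exp_add]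
    congr 1
    ring
  rw [e2]
  unfold Lam12
  ring

end

end Pool.Agent.W_7d29a1_C1.H60
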