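import Pool.Agent.W_7d29a1_C1.PertR97
import Pool.Agent.W_7d29a1_C1.HoneB74

/-!
MP_7d29a1_pr, the attractor route: THE COST OF A TILT. (helper97)

Two sequences of step weights `P`, `P'` which agree up to the factor `θ` in every row: forward masses, backward masses and LGV
determinants agree up to a power of `θ`; the contact functional `Fin` of the inner system moves by at most a relative amount of the
weight `Cin` of the contact, the first meeting weight `Win` agrees up to a factor.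
-/

set_option autoImplicit false

namespace Pool.Agent.W_7d29a1_C1.T97

open Finset MeasureTheory
open Pool.Agent.W_7d29a1_C1.K91 (Grp)
open Pool.Agent.W_7d29a1_C1.K97
open Pool.Agent.W_7d29a1_C1.L91 (Cutd cta Cc cw lvl mw lg)
open Pool.Agent.W_7d29a1_C1.K91P (fw bw dp fw_succ bw_succ bw_zero fw_nonneg bw_pos dp_self dp_succ dp_nonneg fw_lo fw_hi)
open Pool.Agent.W_7d29a1_C1.R26P
open Pool.Agent.W_7d29a1_C1.H1c (Fin Win)

noncomputable section

variable {W : ℕ → ℤ → ℝ} {P P' : ℕ → ℝ} {θ : ℝ} {l r : ℤ → ℝ} {X : ℤ}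

/-- Forward masses. -/
theorem mc_fw (hW : ∀ k y, 0 < W k y) (hP : ∀ k, 0 < P k) (hP' : ∀ k, 0 < P' k) (ht : 1 ≤ θ) (hl : ∀ y, 0 ≤ l y) :
    ∀ (k : ℕ), (∀ i < k, mc θ (P i) (P' i)) → ∀ y, mc (θ ^ k) (fw W P l k y) (fw W P' l k y)
  | 0, _, y => by
    rw [pow_zero]
    exact mc_refl le_rfl (hl y)
  | k + 1, h, y => by
    have i1 := mc_fw hW hP hP' ht hl k (fun i hi => h i (by omega)) y
    have i2 := mc_fw hW hP hP' ht hl k (fun i hi => h i (by omega)) (y - 1)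
    have n1 := fw_nonneg hW hP hl k y
    have n2 := fw_nonneg hW hP hl k (y - 1)
    have n1' := fw_nonneg hW hP' hl k y
    have n2' := fw_nonneg hW hP' hl k (y - 1)
    have w1 := hW k y
    have w2 := hW k (y - 1)
    have p1 := hP k
    have p1' := hP' k
    rw [fw_succ, fw_succ]
    have j1 := (i1.smul w1.le).pw ht (Nat.le_succ k) (by positivity) (by positivity)
    have j2 := (h k (by omega)).mul (i2.smul w2.le) (by positivity) p1.le p1'.le (by positivity) (by positivity)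
    rw [← pow_succ'] at j2
    exact j1.add j2

/-- Backward masses. -/
theorem mc_bw (hW : ∀ k y, 0 < W k y) (hP : ∀ k, 0 < P k) (hP' : ∀ k, 0 < P' k) (ht : 1 ≤ θ) :
    ∀ (j k : ℕ), (∀ i, k ≤ i → i < k + j → mc θ (P i) (P' i)) → ∀ y, mc (θ ^ j) (bw W P k j y) (bw W P' k j y)
  | 0, k, _, y => by
    rw [pow_zero, bw_zero, bw_zero]
    exact mc_refl le_rfl zero_le_one
  | j + 1, k, h, y => by
    have i1 := mc_bw hW hP hP' ht j (k + 1) (fun i hi hi2 => h i (by omega) (by omega)) y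
    have i2 := mc_bw hW hP hP' ht j (k + 1) (fun i hi hi2 => h i (by omega) (by omega)) (y + 1)
    have n1 := bw_pos hW hP j (k + 1) y
    have n2 := bw_pos hW hP j (k + 1) (y + 1)
    have n1' := bw_pos hW hP' j (k + 1) y
    have n2' := bw_pos hW hP' j (k + 1) (y + 1)
    have w1 := hW k y
    have p1 := hP k
    have p1' := hP' k
    rw [bw_succ, bw_succ]
    have j1 := i1.pw ht (Nat.le_succ j) n1.le n1'.le
    have j2 := (h k le_rfl (by omega)).mul i2 (by positivity) p1.le p1'.le n2.le n2'.le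
    rw [← pow_succ'] at j2
    exact (j1.add j2).smul w1.le

/-- **LGV determinants.** -/
theorem mc_dp (hW : ∀ k y, 0 < W k y) (hP : ∀ k, 0 < P k) (hP' : ∀ k, 0 < P' k) (ht : 1 ≤ θ) (g : Grp l r X) :
    ∀ (k : ℕ), (∀ i < k, mc θ (P i) (P' i)) → ∀ x y, x ≤ y → mc (θ ^ (2 * k)) (dp W P l r k x y) (dp W P' l r k x y)
  | 0, _, x, y, hxy => by
    have h0 := dp_nonneg hW hP g 0 x y hxy
    exact mc_refl (by simp) h0
  | k + 1, h, x, y, hxy => by
    rcases eq_or_lt_of_le hxy with h1 | h1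
    · rw [h1, dp_self, dp_self]
      exact mc_refl (one_le_pow₀ ht) le_rfl
    · have ih := mc_dp hW hP hP' ht g k (fun i hi => h i (by omega))
      have i1 := ih x y hxy
      have i2 := ih (x - 1) y (by omega)
      have i3 := ih x (y - 1) (by omega)
      have i4 := ih (x - 1) (y - 1) (by omega)
      have a1 := dp_nonneg hW hP g k x y hxy
      have a2 := dp_nonneg hW hP g k (x - 1) y (by omega)
      have a3 := dp_nonneg hW hP g k x (y - 1) (by omega)
      have a4 := dp_nonneg hW hP g k (x - 1) (y - 1) (by omega)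
      have a1' := dp_nonneg hW hP' g k x y hxy
      have a2' := dp_nonneg hW hP' g k (x - 1) y (by omega)
      have a3' := dp_nonneg hW hP' g k x (y - 1) (by omega)
      have a4' := dp_nonneg hW hP' g k (x - 1) (y - 1) (by omega)
      have b1 := hW k x
      have b2 := hW k y
      have b3 := hW k (x - 1)
      have b4 := hW k (y - 1)
      have p1 := hP k
      have p1' := hP' k
      have hk := h k (by omega)
      have hk2 : mc (θ * θ) (P k ^ 2) (P' k ^ 2) := by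
        rw [pow_two, pow_two]
        exact hk.mul hk (by positivity) p1.le p1'.le p1.le p1'.le
      rw [dp_succ, dp_succ]
      have e : θ ^ (2 * (k + 1)) = θ * θ * θ ^ (2 * k) := by
        rw [mul_add, mul_one, pow_add]
        ring
      have j1 : mc (θ ^ (2 * (k + 1))) (W k x * W k y * dp W P l r k x y) (W k x * W k y * dp W P' l r k x y) :=
        (i1.smul (mul_nonneg b1.le b2.le)).pw ht (by omega) (by positivity) (by positivity)
      have j2 : mc (θ ^ (2 * (k + 1))) (P k * (W k (x - 1) * W k y * dp W P l r k (x - 1) y))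
          (P' k * (W k (x - 1) * W k y * dp W P' l r k (x - 1) y)) := by
        have := hk.mul (i2.smul (mul_nonneg b3.le b2.le)) (by positivity) p1.le p1'.le (by positivity) (by positivity)
        rw [← pow_succ'] at this
        exact this.pw ht (by omega) (by positivity) (by positivity)
      have j3 : mc (θ ^ (2 * (k + 1))) (P k * (W k x * W k (y - 1) * dp W P l r k x (y - 1)))
          (P' k * (W k x * W k (y - 1) * dp W P' l r k x (y - 1))) := by
        have := hk.mul (i3.smul (mul_nonneg b1.le b4.le)) (by positivity) p1.le p1'.le (by positivity) (by positivity)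
        rw [← pow_succ'] at this
        exact this.pw ht (by omega) (by positivity) (by positivity)
      have j4 : mc (θ ^ (2 * (k + 1))) (P k ^ 2 * (W k (x - 1) * W k (y - 1) * dp W P l r k (x - 1) (y - 1)))
          (P' k ^ 2 * (W k (x - 1) * W k (y - 1) * dp W P' l r k (x - 1) (y - 1))) := by
        rw [e]
        exact hk2.mul (i4.smul (mul_nonneg b3.le b4.le)) (by positivity) (by positivity) (by positivity) (by positivity)
          (by positivity)
      exact ((j1.add j2).add j3).add j4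

/-! ### The inner system -/

/-- The weight of a contact of the inner system. -/
def Cin (W : ℕ → ℤ → ℝ) (P : ℕ → ℝ) (K J : ℕ) (a1 a2 q : ℤ) : ℝ :=
  cw a1 (a2 + K + 1) (P K) (W K) (fw W P (sg a1) K) (fw W P (sg a2) K) (bw W P (K + 1) J) q

variable {K J : ℕ} {a1 a2 q : ℤ} {κ κ' : ℝ}

theorem grp_in (h : a1 < a2) : Grp (sg a1) (sg a2) a2 where
  l0 := fun y => sg_nonneg a1 y
  r0 := fun y => sg_nonneg a2 y
  lX := fun y hy => by
    unfold sg
    rw [if_neg (by omega)]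
  rX := fun y hy => by
    unfold sg
    rw [if_neg (by omega)]

theorem sg_pos (a : ℤ) : 0 < sg a a := by
  unfold sg
  rw [if_pos rfl]
  exact one_pos

/-- The data of a contact row of the inner system. -/
theorem cutd_in (hW : ∀ k y, 0 < W k y) (hP : ∀ k, 0 < P k) (h : a1 < a2) (hq1 : a1 ≤ q - 1) (hq2 : q ≤ a2 + K + 1)
    (hκ : 1 ≤ κ) (hκ' : 1 ≤ κ') (wl : W K (q - 1) ≤ κ * W K q) (wr : W K q ≤ κ * W K (q - 1))
    (fl : bw W P (K + 1) J (q - 1) ≤ κ' * bw W P (K + 1) J q) (fr : bw W P (K + 1) J q ≤ κ' * bw W P (K + 1) J (q - 1)) :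
    Cutd a1 (a2 + K + 1) (P K) (W K) (fw W P (sg a1) K) (fw W P (sg a2) K) (bw W P (K + 1) J) q κ κ' where
  p0 := hP K
  w0 := hW K
  f0 := bw_pos hW hP _ _
  l0 := fw_nonneg hW hP (fun y => sg_nonneg a1 y) K
  r0 := fw_nonneg hW hP (fun y => sg_nonneg a2 y) K
  llo := fun y hy => fw_lo (A := a1) (fun z hz => by unfold sg; rw [if_neg (by omega)]) K y hy
  rlo := fun y hy => fw_lo (A := a1) (fun z hz => by unfold sg; rw [if_neg (by omega)]) K y hy
  lhi := fw_hi (B := a2) (fun z hz => by unfold sg; rw [if_neg (by omega)]) K _ (by omega)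
  rhi := fw_hi (B := a2) (fun z hz => by unfold sg; rw [if_neg (by omega)]) K _ (by omega)
  q1 := mem_Icc.2 ⟨hq1, by omega⟩
  q2 := mem_Icc.2 ⟨by omega, hq2⟩
  det := by
    have := dp_nonneg hW hP (grp_in h) K (q - 1) q (by omega)
    unfold dp at this
    exact this
  k1 := hκ
  k1' := hκ'
  wl := wl
  wr := wr
  fl := fl
  fr := fr
  zl := K91P.rz_pos (hP K) (hW K) (bw_pos hW hP _ _) (fw_nonneg hW hP (fun y => sg_nonneg a1 y) K)
    ⟨a1, mem_Icc.2 ⟨le_rfl, by omega⟩, K91P.fw_stay hW hP (fun y => sg_nonneg a1 y) (sg_pos a1) K⟩ q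
  zr := K91P.rz_pos (hP K) (hW K) (bw_pos hW hP _ _) (fw_nonneg hW hP (fun y => sg_nonneg a2 y) K)
    ⟨a2, mem_Icc.2 ⟨h.le, by omega⟩, K91P.fw_stay hW hP (fun y => sg_nonneg a2 y) (sg_pos a2) K⟩ q

/-- The two rows agree up to the factor `θ ^ (K + J + 1)`. -/
theorem tl_in (hW : ∀ k y, 0 < W k y) (hP : ∀ k, 0 < P k) (hP' : ∀ k, 0 < P' k) (ht : 1 ≤ θ) (h : a1 < a2)
    (hpp : ∀ i < K + J + 1, mc θ (P i) (P' i)) (h16 : (θ ^ (K + J + 1)) ^ 16 ≤ 3 / 2) :
    Tl (θ ^ (K + J + 1)) (P K) (P' K) (fw W P (sg a1) K) (fw W P' (sg a1) K) (fw W P (sg a2) K) (fw W P' (sg a2) K)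
      (bw W P (K + 1) J) (bw W P' (K + 1) J) q where
  t1 := one_le_pow₀ ht
  t16 := h16
  p := by
    have := hpp K (by omega)
    rw [← pow_one θ] at this
    exact this.pw ht (by omega) (hP K).le (hP' K).le
  l := fun y => (mc_fw hW hP hP' ht (fun y => sg_nonneg a1 y) K (fun i hi => hpp i (by omega)) y).pw ht (by omega)
    (fw_nonneg hW hP (fun y => sg_nonneg a1 y) K y) (fw_nonneg hW hP' (fun y => sg_nonneg a1 y) K y)
  r := fun y => (mc_fw hW hP hP' ht (fun y => sg_nonneg a2 y) K (fun i hi => hpp i (by omega)) y).pw ht (by omega)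
    (fw_nonneg hW hP (fun y => sg_nonneg a2 y) K y) (fw_nonneg hW hP' (fun y => sg_nonneg a2 y) K y)
  f := fun y => (mc_bw hW hP hP' ht J (K + 1) (fun i hi hi2 => hpp i (by omega)) y).pw ht (by omega)
    (bw_pos hW hP _ _ y).le (bw_pos hW hP' _ _ y).le
  det := by
    have h1 := mc_dp hW hP hP' ht (grp_in h) K (fun i hi => hpp i (by omega)) (q - 1) q (by omega)
    have h2 := h1.pw (k := (K + J + 1) * 2) ht (by omega) (dp_nonneg hW hP (grp_in h) K (q - 1) q (by omega))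
      (dp_nonneg hW hP' (grp_in h) K (q - 1) q (by omega))
    rw [pow_mul] at h2
    exact h2

theorem ratio_tilt {f0 f1 g0 g1 Θ κ : ℝ} (hΘ : 1 ≤ Θ) (h16 : Θ ^ 16 ≤ 3 / 2) (hκ : 0 ≤ κ) (g1p : 0 ≤ g1)
    (h : f0 ≤ κ * f1) (m0 : mc Θ f0 g0) (m1 : mc Θ f1 g1) : g0 ≤ 2 * κ * g1 := by
  have h2 : Θ * Θ ≤ 2 := by
    have i1 : Θ ^ 2 ≤ Θ ^ 16 := pow_le_pow_right₀ hΘ (by norm_num)
    rw [← pow_two]
    linarith
  have t0 : 0 ≤ Θ := by linarith
  calc g0 ≤ Θ * f0 := m0.2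
    _ ≤ Θ * (κ * f1) := mul_le_mul_of_nonneg_left h t0
    _ ≤ Θ * (κ * (Θ * g1)) := mul_le_mul_of_nonneg_left (mul_le_mul_of_nonneg_left m1.1 hκ) t0
    _ = Θ * Θ * (κ * g1) := by ring
    _ ≤ 2 * (κ * g1) := mul_le_mul_of_nonneg_right h2 (mul_nonneg hκ g1p)
    _ = 2 * κ * g1 := by ring

/-- The two cuts of a tilt. -/
theorem cutd_tilt (hW : ∀ k y, 0 < W k y) (hP : ∀ k, 0 < P k) (hP' : ∀ k, 0 < P' k) (ht : 1 ≤ θ) (h : a1 < a2)
    (hpp : ∀ i < K + J + 1, mc θ (P i) (P' i)) (h16 : (θ ^ (K + J + 1)) ^ 16 ≤ 3 / 2) (hq1 : a1 ≤ q - 1)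
    (hq2 : q ≤ a2 + K + 1) (hκ : 1 ≤ κ) (hκ' : 1 ≤ κ') (wl : W K (q - 1) ≤ κ * W K q) (wr : W K q ≤ κ * W K (q - 1))
    (fl : bw W P (K + 1) J (q - 1) ≤ κ' * bw W P (K + 1) J q) (fr : bw W P (K + 1) J q ≤ κ' * bw W P (K + 1) J (q - 1)) :
    Cutd a1 (a2 + K + 1) (P K) (W K) (fw W P (sg a1) K) (fw W P (sg a2) K) (bw W P (K + 1) J) q κ (2 * κ') ∧
    Cutd a1 (a2 + K + 1) (P' K) (W K) (fw W P' (sg a1) K) (fw W P' (sg a2) K) (bw W P' (K + 1) J) q κ (2 * κ') := by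
  have H := tl_in (q := q) hW hP hP' ht h hpp h16
  have b0 := bw_pos hW hP J (K + 1) (q - 1)
  have b1 := bw_pos hW hP J (K + 1) q
  have b0' := bw_pos hW hP' J (K + 1) (q - 1)
  have b1' := bw_pos hW hP' J (K + 1) q
  have n1 := mul_nonneg (show 0 ≤ κ' by linarith) b0.le
  have n2 := mul_nonneg (show 0 ≤ κ' by linarith) b1.le
  constructor
  · exact cutd_in hW hP h hq1 hq2 hκ (by linarith) wl wr (by linarith) (by linarith)
  · exact cutd_in hW hP' h hq1 hq2 hκ (by linarith) wl wr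
      (ratio_tilt H.t1 h16 (by linarith) b1'.le fl (H.f _) (H.f _))
      (ratio_tilt H.t1 h16 (by linarith) b0'.le fr (H.f _) (H.f _))

/-- **THE COST OF A TILT, CONTACT FUNCTIONAL.** -/
theorem Fin_tilt (hW : ∀ k y, 0 < W k y) (hP : ∀ k, 0 < P k) (hP' : ∀ k, 0 < P' k) (ht : 1 ≤ θ) (h : a1 < a2)
    (hpp : ∀ i < K + J + 1, mc θ (P i) (P' i)) (h16 : (θ ^ (K + J + 1)) ^ 16 ≤ 3 / 2) (hq1 : a1 ≤ q - 1)
    (hq2 : q ≤ a2 + K + 1) (hκ : 1 ≤ κ) (hκ' : 1 ≤ κ') (wl : W K (q - 1) ≤ κ * W K q) (wr : W K q ≤ κ * W K (q - 1))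
    (fl : bw W P (K + 1) J (q - 1) ≤ κ' * bw W P (K + 1) J q) (fr : bw W P (K + 1) J q ≤ κ' * bw W P (K + 1) J (q - 1)) :
    |Fin W P' K J a1 a2 q - Fin W P K J a1 a2 q| ≤
      Kt (P K) κ (2 * κ') * ((θ ^ (K + J + 1)) ^ 16 - 1) * Cin W P K J a1 a2 q := by
  obtain ⟨c1, c2⟩ := cutd_tilt hW hP hP' ht h hpp h16 hq1 hq2 hκ hκ' wl wr fl fr
  exact Cc_rel c1 c2 (tl_in hW hP hP' ht h hpp h16)

/-- **THE COST OF A TILT, FIRST MEETING WEIGHT.** -/
theorem Win_tilt (hW : ∀ k y, 0 < W k y) (hP : ∀ k, 0 < P k) (hP' : ∀ k, 0 < P' k) (ht : 1 ≤ θ) (h : a1 < a2)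
    (hpp : ∀ i < K + J + 1, mc θ (P i) (P' i)) (h16 : (θ ^ (K + J + 1)) ^ 16 ≤ 3 / 2) (hq1 : a1 ≤ q - 1)
    (hq2 : q ≤ a2 + K + 1) : mc ((θ ^ (K + J + 1)) ^ 16) (Win W P K J a1 a2 q) (Win W P' K J a1 a2 q) := by
  -- the ratios are finite numbers, their size does not matter
  have e1 : ∀ {u v : ℝ}, 0 < u → 0 < v → ∃ κ : ℝ, 1 ≤ κ ∧ u ≤ κ * v ∧ v ≤ κ * u := by
    intro u v hu hv
    have a1 : 0 < u / v := div_pos hu hv
    have a2 : 0 < v / u := div_pos hv hu
    refine ⟨1 + u / v + v / u, by linarith, ?_, ?_⟩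
    · have i1 : u / v * v = u := div_mul_cancel₀ _ hv.ne'
      have i2 : 0 < v / u * v := by positivity
      have i3 : (1 + u / v + v / u) * v = v + u / v * v + v / u * v := by ring
      rw [i3, i1]
      linarith
    · have i1 : v / u * u = v := div_mul_cancel₀ _ hu.ne'
      have i2 : 0 < u / v * u := by positivity
      have i3 : (1 + u / v + v / u) * u = u + u / v * u + v / u * u := by ring
      rw [i3, i1]
      linarith
  obtain ⟨κ, hκ, wl, wr⟩ := e1 (hW K (q - 1)) (hW K q)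
  obtain ⟨κ', hκ', fl, fr⟩ := e1 (bw_pos hW hP J (K + 1) (q - 1)) (bw_pos hW hP J (K + 1) q)
  obtain ⟨c1, c2⟩ := cutd_tilt hW hP hP' ht h hpp h16 hq1 hq2 hκ hκ' wl wr fl fr
  have st1 := K91P.fw_stay hW hP (fun y => sg_nonneg a1 y) (sg_pos a1) K
  have st2 := K91P.fw_stay hW hP (fun y => sg_nonneg a2 y) (sg_pos a2) K
  have st1' := K91P.fw_stay hW hP' (fun y => sg_nonneg a1 y) (sg_pos a1) K
  have st2' := K91P.fw_stay hW hP' (fun y => sg_nonneg a2 y) (sg_pos a2) K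
  have m1 : a1 ∈ Icc a1 (a2 + (K : ℤ) + 1) := mem_Icc.2 ⟨le_rfl, by omega⟩
  have m2 : a2 ∈ Icc a1 (a2 + (K : ℤ) + 1) := mem_Icc.2 ⟨h.le, by omega⟩
  exact mw_rel c1 c2 (tl_in hW hP hP' ht h hpp h16)
    (K91P.tm_pos (hP K) (hW K) (bw_pos hW hP _ _) (fw_nonneg hW hP (fun y => sg_nonneg a1 y) K) ⟨a1, m1, st1⟩)
    (K91P.tm_pos (hP K) (hW K) (bw_pos hW hP _ _) (fw_nonneg hW hP (fun y => sg_nonneg a2 y) K) ⟨a2, m2, st2⟩)
    (K91P.tm_pos (hP' K) (hW K) (bw_pos hW hP' _ _) (fw_nonneg hW hP' (fun y => sg_nonneg a1 y) K) ⟨a1, m1, st1'⟩)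
    (K91P.tm_pos (hP' K) (hW K) (bw_pos hW hP' _ _) (fw_nonneg hW hP' (fun y => sg_nonneg a2 y) K) ⟨a2, m2, st2'⟩)

end

end Pool.Agent.W_7d29a1_C1.T97
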