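import Pool.Agent.W_7d29a1_C1.FrX24
import Pool.Agent.W_7d29a1_C1.KInI60
import Pool.Agent.W_7d29a1_C1.TiltK97

/-!
MP_7d29a1_pr, [C1] SHELL (helper24): THE EXIT HALF OF `Pcs`, SECOND BLOCK. Rows `re = e + n` (place `a'`), `r2 = re + t`, `c3 = r2 + (m + 1)`,
from the facts `X2`, `V2`, `r2 - r4` of `FX24`. Fields `l2`, `of`, `l3`, `cx`, `s2`, `s3`, `yl`, `yr`.
-/

set_option autoImplicit false

namespace Pool.Agent.W_7d29a1_C1.P24

open MeasureTheory ProbabilityTheory Filter Topology Finset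
open Pool.Agent.W_7d29a1_F Pool.Agent.W_7d29a1_h4g Pool.Agent.W_7d29a1_H Pool.Agent.W_7d29a1_HS
open Pool.Agent.W_7d29a1_C1
open Pool.Agent.W_7d29a1_C1.CR76 Pool.Agent.W_7d29a1_C1.Basin76
open Pool.Agent.W_7d29a1_C1.K91 (wt wt_pos)
open Pool.Agent.W_7d29a1_C1.FarK89 (gr gr_nonneg gr_one_le gr_mono gr_mul AQ AQ_nonneg)
open Pool.Agent.W_7d29a1_C1.FarW89 (nk nk_nonneg nk_eq_zero nk_K1 bl bl_le)
open Pool.Agent.W_7d29a1_C1.S12 (st12 Lam12 Lam12_pos)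
open Pool.Agent.W_7d29a1_C1.JnC35 (ln35)
open Pool.Agent.W_7d29a1_C1.S83 (RowG)
open Pool.Agent.W_7d29a1_C1.D31 (En31)
open Pool.Agent.W_7d29a1_C1.R26P (kf)
open Pool.Agent.W_7d29a1_C1.H60 (kr60 kr60_nonneg kf_nk60 stp60 lst60 lstc60)
open Pool.Agent.W_7d29a1_C1.Sh21 (Stp)

noncomputable section

variable {μ : Measure ℝ} {s c C : ℝ} {n₀ : ℕ} {hh : ℝ} {η : Env} {p : ℕ → ℝ} {M : ℕ}

/-! ### Units, weights -/

/-- The units of a block against the units of the box. -/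
structure Un24 (En wn E w : ℝ) : Prop where
  En1 : 1 ≤ En
  wn0 : 0 < wn
  w0 : 0 < w
  e1 : En ≤ E
  e2 : E ≤ 32 * En
  a1 : w ≤ 32 * wn
  a2 : wn ≤ 2 * w

theorem Un24.E1 {En wn E w : ℝ} (u : Un24 En wn E w) : 1 ≤ E := u.En1.trans u.e1

theorem Un24.rate {En wn E w : ℝ} (u : Un24 En wn E w) : E / w ≤ 64 * (En / wn) := by
  have h1 := u.En1
  have h2 := u.wn0
  have h3 := u.w0
  have h4 := u.e2
  have h5 := u.a2
  rw [div_le_iff₀ h3]
  have e1 : 64 * (En / wn) * w = 64 * En * (w / wn) := by ring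
  rw [e1]
  have e2 : 1 / 2 ≤ w / wn := by
    rw [le_div_iff₀ h2]
    linarith
  nlinarith

theorem wt_row24 {r : ℕ} {z : ℤ} {w E u : ℝ} (hr : η ∈ RowG (r : ℤ) z w (u * E)) (hw : 0 < w) (hu : 0 ≤ u) (hE : 0 ≤ E) {y : ℤ}
    (hy : |(y : ℝ) - z| ≤ w) : wt η r y ≤ Real.exp (2 * u * E) ∧ Real.exp (-(2 * u * E)) ≤ wt η r y := by
  have huE : 0 ≤ u * E := mul_nonneg hu hE
  have h1 : |η ((r : ℤ), y)| ≤ 2 * u * E := by
    refine (hr y).trans ?_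
    have e1 : |((y - z : ℤ) : ℝ)| / w ≤ 1 := by
      rw [div_le_one hw]
      push_cast
      exact hy
    have e2 : Real.log (1 + |((y - z : ℤ) : ℝ)| / w) ≤ 1 := by
      have e3 : Real.log (1 + |((y - z : ℤ) : ℝ)| / w) ≤ 1 + |((y - z : ℤ) : ℝ)| / w - 1 := Real.log_le_sub_one_of_pos (by positivity)
      linarith
    have := mul_le_mul_of_nonneg_left (show 1 + Real.log (1 + |((y - z : ℤ) : ℝ)| / w) ≤ 2 by linarith) huE
    linarith
  obtain ⟨h2, h3⟩ := abs_le.1 h1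
  have h4 : 0 ≤ 2 * u * E := by positivity
  unfold wt
  by_cases h0 : r = 0
  · rw [if_pos h0]
    exact ⟨Real.one_le_exp h4, Real.exp_le_one_iff.2 (by linarith)⟩
  · rw [if_neg h0]
    exact ⟨Real.exp_le_exp.2 h3, Real.exp_le_exp.2 h2⟩

/-! ### The lower halves -/

section

variable {n t m re : ℕ} {a' e2 : ℤ} {ρ U β h G K ε E w u : ℝ}

/-- **`l2`.** -/
theorem l2_24 [IsProbabilityMeasure μ] (X : XO24 μ s η ((re : ℤ), a') n t m e2 ρ U β h G K ε) (hp : ∀ k, k < M → p k = Real.exp (s + hh))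
    (hp' : ∀ k, M ≤ k → p k = Real.exp s) (s0 : 0 ≤ sl μ s) (s1 : sl μ s ≤ 1) (hh1 : |hh| * t ≤ 1) (hu : 0 ≤ u) (hU : 0 ≤ U)
    (hE : EE μ s n ≤ E) (hE1 : 1 ≤ E) (hw : 0 < w) (r2 : η ∈ RowG (re : ℤ) a' w (u * E))
    (r3 : η ∈ RowG ((re + t : ℕ) : ℤ) e2 w (u * E)) (hρ : 0 ≤ ρ) :
    Lam12 μ s hh M re t ≤ Real.exp ((U + 4 * u + 1) * E) * ∑ y ∈ Ce24 e2 ρ, kf (wt η) p re t a' y := by
  have hE0 : 0 ≤ E := by linarith
  have hp0 : ∀ k, 0 < p k := fun k => by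
    rcases lt_or_ge k M with h5 | h5
    · rw [hp k h5]; exact Real.exp_pos _
    · rw [hp' k h5]; exact Real.exp_pos _
  obtain ⟨g1, g2⟩ := nk_kW (μ := μ) (η := η) (n := t) hp hp' s0 s1 hh1 (i := re) a' e2
  have g3 : Real.exp (-(U * EE μ s n)) ≤ kW μ s η re t a' e2 := X.loF
  obtain ⟨-, w1⟩ := wt_row24 r2 hw hu hE0 (y := a') (by rw [sub_self, abs_zero]; exact hw.le)
  obtain ⟨w2, -⟩ := wt_row24 r3 hw hu hE0 (y := e2) (by rw [sub_self, abs_zero]; exact hw.le)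
  have hw2 := wt_pos η (re + t) e2
  have n0 : 0 ≤ nk μ s hh η p M re t a' e2 := nk_nonneg hp0 _ _ _ _
  have L0 := Lam12_pos (μ := μ) (s := s) (h := hh) M re t
  -- the kernel at the two centers
  have k1 : Real.exp (-((U + 1) * E)) ≤ nk μ s hh η p M re t a' e2 := by
    have h1 := mul_le_mul_of_nonneg_left (g3.trans g2) (Real.exp_pos (-1)).le
    rw [← mul_assoc, ← Real.exp_add, ← Real.exp_add, neg_add_cancel, Real.exp_zero, one_mul] at h1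
    refine le_trans (Real.exp_le_exp.2 ?_) h1
    have := mul_le_mul_of_nonneg_left hE hU
    linarith
  have k2 : Real.exp (-(4 * u * E)) ≤ wt η re a' / wt η (re + t) e2 := by
    rw [le_div_iff₀ hw2]
    calc Real.exp (-(4 * u * E)) * wt η (re + t) e2 ≤ Real.exp (-(4 * u * E)) * Real.exp (2 * u * E) :=
          mul_le_mul_of_nonneg_left w2 (Real.exp_pos _).le
      _ = Real.exp (-(2 * u * E)) := by
        rw [← Real.exp_add]
        congr 1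
        ring
      _ ≤ _ := w1
  have k3 : Lam12 μ s hh M re t ≤ Real.exp ((U + 4 * u + 1) * E) * kf (wt η) p re t a' e2 := by
    rw [kf_nk60 (μ := μ) (s := s) (h := hh) (M := M)]
    have h1 := mul_le_mul k2 k1 (Real.exp_pos _).le (div_pos (wt_pos η re a') hw2).le
    rw [← Real.exp_add] at h1
    have h2 := mul_le_mul_of_nonneg_left h1 (Real.exp_pos ((U + 4 * u + 1) * E)).le
    rw [← Real.exp_add] at h2
    have e1 : (U + 4 * u + 1) * E + (-(4 * u * E) + -((U + 1) * E)) = 0 := by ring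
    rw [e1, Real.exp_zero] at h2
    calc Lam12 μ s hh M re t = Lam12 μ s hh M re t * 1 := (mul_one _).symm
      _ ≤ Lam12 μ s hh M re t * (Real.exp ((U + 4 * u + 1) * E) *
          (wt η re a' / wt η (re + t) e2 * nk μ s hh η p M re t a' e2)) := mul_le_mul_of_nonneg_left h2 L0.le
      _ = _ := by ring
  refine k3.trans (mul_le_mul_of_nonneg_left ?_ (Real.exp_pos _).le)
  refine single_le_sum (f := fun y => kf (wt η) p re t a' y) (fun y _ => ?_) (mem_Ce24.2 (by rw [sub_self, abs_zero]; exact hρ))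
  rw [kf_nk60 (μ := μ) (s := s) (h := hh) (M := M)]
  exact mul_nonneg (mul_nonneg L0.le (div_pos (wt_pos _ _ _) (wt_pos _ _ _)).le) (nk_nonneg hp0 _ _ _ _)

/-- **`l3`**, at one column. -/
theorem l3c24 [IsProbabilityMeasure μ] (X : XO24 μ s η ((re : ℤ), a') n t m e2 ρ U β h G K ε) (hp : ∀ k, k < M → p k = Real.exp (s + hh))
    (hp' : ∀ k, M ≤ k → p k = Real.exp s) (s0 : 0 ≤ sl μ s) (s1 : sl μ s ≤ 1) (hh1 : |hh| * m ≤ 1) (hu : 0 ≤ u) (hU : 0 ≤ U)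
    (hE : EE μ s n ≤ E) (hE1 : 1 ≤ E) (hw : 0 < w) (r3 : η ∈ RowG ((re + t : ℕ) : ℤ) e2 w (u * E)) (hρw : ρ ≤ w) {z₀ : ℤ}
    (hz : |(z₀ : ℝ) - (a' + sl μ s * n)| ≤ 2 * wd μ s n) {y : ℤ} (hy : y ∈ Ce24 e2 ρ) :
    Lam12 μ s hh M (re + t) m ≤ Real.exp ((U + 4 * u + 1) * E) * kf (wt η) p (re + t) (m + 1) y z₀ := by
  have hE0 : 0 ≤ E := by linarith
  have hp0 : ∀ k, 0 < p k := fun k => by
    rcases lt_or_ge k M with h5 | h5
    · rw [hp k h5]; exact Real.exp_pos _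
    · rw [hp' k h5]; exact Real.exp_pos _
  obtain ⟨g1, g2⟩ := nk_kW (μ := μ) (η := η) (n := m) hp hp' s0 s1 hh1 (i := re + t) y z₀
  have g3 : Real.exp (-(U * EE μ s n)) ≤ kW μ s η ((re : ℤ) + t) m y z₀ := X.loR y hy z₀ hz
  have ec : ((re + t : ℕ) : ℤ) = (re : ℤ) + t := by push_cast; ring
  rw [ec] at g2
  obtain ⟨-, w1⟩ := wt_row24 r3 hw hu hE0 (y := y) ((mem_Ce24.1 hy).trans hρw)
  have L0 := Lam12_pos (μ := μ) (s := s) (h := hh) M (re + t) m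
  have kfs : ∀ z, kf (wt η) p (re + t) (m + 1) y z = Lam12 μ s hh M (re + t) m *
      (wt η (re + t) y * st12 (nk μ s hh η p M (re + t) m) (p (re + t + m)) y z) := fun z =>
    Pool.Agent.W_7d29a1_C1.Fr47.ker_st47 (re + t) m y z
  have st0 : ∀ z, nk μ s hh η p M (re + t) m y z ≤ st12 (nk μ s hh η p M (re + t) m) (p (re + t + m)) y z := fun z => by
    unfold st12
    have := mul_nonneg (hp0 (re + t + m)).le (nk_nonneg (μ := μ) (s := s) (h := hh) (η := η) (M := M) hp0 (re + t) m y (z - 1))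
    linarith
  have k1 : Real.exp (-((U + 1) * E)) ≤ nk μ s hh η p M (re + t) m y z₀ := by
    have h1 := mul_le_mul_of_nonneg_left (g3.trans g2) (Real.exp_pos (-1)).le
    rw [← mul_assoc, ← Real.exp_add, ← Real.exp_add, neg_add_cancel, Real.exp_zero, one_mul] at h1
    refine le_trans (Real.exp_le_exp.2 ?_) h1
    have := mul_le_mul_of_nonneg_left hE hU
    linarith
  rw [kfs]
  have h1 := mul_le_mul w1 (k1.trans (st0 z₀)) (Real.exp_pos _).le (wt_pos η (re + t) y).le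
  rw [← Real.exp_add] at h1
  have h2 := mul_le_mul_of_nonneg_left h1 (Real.exp_pos ((U + 4 * u + 1) * E)).le
  rw [← Real.exp_add] at h2
  have e1 : 1 ≤ Real.exp ((U + 4 * u + 1) * E + (-(2 * u * E) + -((U + 1) * E))) := Real.one_le_exp (by
    have : 0 ≤ u * E := mul_nonneg hu hE0
    linarith)
  calc Lam12 μ s hh M (re + t) m = Lam12 μ s hh M (re + t) m * 1 := (mul_one _).symm
    _ ≤ Lam12 μ s hh M (re + t) m * (Real.exp ((U + 4 * u + 1) * E) *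
        (wt η (re + t) y * st12 (nk μ s hh η p M (re + t) m) (p (re + t + m)) y z₀)) :=
      mul_le_mul_of_nonneg_left (e1.trans h2) L0.le
    _ = _ := by ring

/-- **`l3`**, on a window. -/
theorem l3_24 [IsProbabilityMeasure μ] (X : XO24 μ s η ((re : ℤ), a') n t m e2 ρ U β h G K ε) (hp : ∀ k, k < M → p k = Real.exp (s + hh))
    (hp' : ∀ k, M ≤ k → p k = Real.exp s) (s0 : 0 ≤ sl μ s) (s1 : sl μ s ≤ 1) (hh1 : |hh| * m ≤ 1) (hu : 0 ≤ u) (hU : 0 ≤ U)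
    (hE : EE μ s n ≤ E) (hE1 : 1 ≤ E) (hw : 0 < w) (r3 : η ∈ RowG ((re + t : ℕ) : ℤ) e2 w (u * E)) (hρw : ρ ≤ w) {za zb z₀ : ℤ}
    (h1 : za ≤ z₀) (h2 : z₀ ≤ zb) (hz : |(z₀ : ℝ) - (a' + sl μ s * n)| ≤ 2 * wd μ s n) {y : ℤ} (hy : y ∈ Ce24 e2 ρ) :
    Lam12 μ s hh M (re + t) m ≤ Real.exp ((U + 4 * u + 1) * E) * ∑ z ∈ Icc za zb, kf (wt η) p (re + t) (m + 1) y z := by
  have hp0 : ∀ k, 0 < p k := fun k => by
    rcases lt_or_ge k M with h5 | h5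
    · rw [hp k h5]; exact Real.exp_pos _
    · rw [hp' k h5]; exact Real.exp_pos _
  refine (l3c24 X hp hp' s0 s1 hh1 hu hU hE hE1 hw r3 hρw hz hy).trans (mul_le_mul_of_nonneg_left ?_ (Real.exp_pos _).le)
  exact single_le_sum (f := fun z => kf (wt η) p (re + t) (m + 1) y z)
    (fun z _ => R26P.kf_nonneg (fun k y => wt_pos η k y) hp0 _ _ _ _) (mem_Icc.2 ⟨h1, h2⟩)

/-! ### The walls of the second cell -/

/-- **The wall**, for the starts within `K w` of the line. -/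
theorem ofn24 [IsProbabilityMeasure μ] {κ : Pt} {Kw : ℝ} (X : XO24 μ s η ((re : ℤ), a') n t m e2 ρ U β h (32 * G) K ε)
    (hp : ∀ k, k < M → p k = Real.exp (s + hh)) (hp' : ∀ k, M ≤ k → p k = Real.exp s) (s0 : 0 ≤ sl μ s) (s1 : sl μ s ≤ 1)
    (hh1 : |hh| * t ≤ 1) (un : Un24 (EE μ s n) (wd μ s n) E w) (hβ : 0 ≤ β) (h0 : 0 ≤ h) (hKw : 0 ≤ Kw)
    (hG : β * (Kw + 1) ≤ G) (ha : |(a' : ℝ) - ln35 μ s κ re| ≤ w) {v y : ℤ} (hv : |(v : ℝ) - ln35 μ s κ re| ≤ Kw * w)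
    (hy : y ∉ Ce24 e2 ρ) :
    nk μ s hh η p M re t v y ≤ Real.exp (-((G - β * (Kw + 1) - 1) * E) -
      h / 64 * (E / w) * |((y : ℝ) - ln35 μ s κ (re + t)) - ((v : ℝ) - ln35 μ s κ re)|) := by
  have g1 := (nk_kW (μ := μ) (η := η) (n := t) hp hp' s0 s1 hh1 (i := re) v y).1
  have g2 := X.offF v y (fun hc => hy (mem_Ce24.2 hc.2))
  have hE1 := un.E1
  have hEn := un.En1
  have hwn := un.wn0
  have hw := un.w0
  have hE2 := un.e2
  have ha1 := un.a1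
  refine (g1.trans (mul_le_mul_of_nonneg_left g2 (Real.exp_pos 1).le)).trans ?_
  rw [← Real.exp_add]
  refine Real.exp_le_exp.2 ?_
  obtain ⟨En, hEnd⟩ : ∃ x : ℝ, x = EE μ s n := ⟨_, rfl⟩
  obtain ⟨wn, hwnd⟩ : ∃ x : ℝ, x = wd μ s n := ⟨_, rfl⟩
  rw [← hEnd, ← hwnd]
  rw [← hEnd] at hEn hE2
  rw [← hwnd] at hwn ha1
  have hrate : E / w ≤ 64 * (En / wn) := by rw [hEnd, hwnd]; exact un.rate
  -- the distance to the center
  have d1 : |(v : ℝ) - a'| / wn ≤ 32 * (Kw + 1) := by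
    rw [div_le_iff₀ hwn]
    have e1 := abs_sub ((v : ℝ) - ln35 μ s κ re) ((a' : ℝ) - ln35 μ s κ re)
    rw [sub_sub_sub_cancel_right] at e1
    have e3 : (Kw + 1) * w ≤ (Kw + 1) * (32 * wn) := mul_le_mul_of_nonneg_left ha1 (by linarith)
    linarith
  have d2 := mul_le_mul_of_nonneg_left d1 hβ
  -- the lateral distance
  have eD : ((y : ℝ) - (a' + sl μ s * t)) - ((v : ℝ) - a') = ((y : ℝ) - ln35 μ s κ (re + t)) - ((v : ℝ) - ln35 μ s κ re) := by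
    rw [ln35_add]
    ring
  rw [eD]
  obtain ⟨X0, hX0⟩ : ∃ X0 : ℝ, X0 = |((y : ℝ) - ln35 μ s κ (re + t)) - ((v : ℝ) - ln35 μ s κ re)| := ⟨_, rfl⟩
  rw [← hX0]
  have hX00 : 0 ≤ X0 := by rw [hX0]; exact abs_nonneg _
  have d3 : h / 64 * (E / w) * X0 ≤ h * (X0 / wn) * En := by
    have e1 := mul_le_mul_of_nonneg_left hrate (show 0 ≤ h / 64 by positivity)
    have e2 := mul_le_mul_of_nonneg_right e1 hX00
    calc h / 64 * (E / w) * X0 ≤ h / 64 * (64 * (En / wn)) * X0 := e2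
      _ = h * (X0 / wn) * En := by ring
  have d4 : (G - β * (Kw + 1)) * E ≤ (G - β * (Kw + 1)) * (32 * En) := mul_le_mul_of_nonneg_left hE2 (by linarith)
  have d5 : (-(32 * G) + β * (|(v : ℝ) - a'| / wn)) * En ≤ (-(32 * G) + β * (32 * (Kw + 1))) * En :=
    mul_le_mul_of_nonneg_right (by linarith) (by linarith)
  have d6 : (-(32 * G) + β * (|(v : ℝ) - a'| / wn) - h * (X0 / wn)) * En =
      (-(32 * G) + β * (|(v : ℝ) - a'| / wn)) * En - h * (X0 / wn) * En := by ring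
  show 1 + (-(32 * G) + β * (|(v : ℝ) - a'| / wn) - h * (X0 / wn)) * En ≤ _
  rw [d6]
  linarith

end

/-! ### The cross ratio under a tilt -/

/-- **CROSS RATIO UNDER A TILT** of every row, from determinants. -/
theorem kf_tilt24 {W : ℕ → ℤ → ℝ} {p₀ : ℕ → ℝ} {θ δ : ℝ} {r n : ℕ} {y y' x x' : ℤ} (hW : ∀ k y, 0 < W k y) (hp : ∀ k, 0 < p k)
    (hp₀ : ∀ k, 0 < p₀ k) (ht : 1 ≤ θ) (hm : ∀ k, p k ≤ θ * p₀ k ∧ p₀ k ≤ θ * p k) (hy : y ≤ y') (hx : x ≤ x') (hδ : 0 ≤ δ)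
    (H : kf W p₀ r n y x * kf W p₀ r n y' x' ≤ (1 + δ) * (kf W p₀ r n y x' * kf W p₀ r n y' x)) :
    kf W p r n y x * kf W p r n y' x' ≤ (1 + θ ^ (4 * n) * δ) * (kf W p r n y x' * kf W p r n y' x) := by
  have nn : ∀ a b, 0 ≤ kf W p r n a b := fun a b => R26P.kf_nonneg hW hp r n a b
  have hθ : 0 ≤ θ ^ (4 * n) * δ := mul_nonneg (by positivity) hδ
  rcases eq_or_lt_of_le hy with h | h
  · subst h
    have := mul_nonneg hθ (mul_nonneg (nn y x') (nn y x))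
    linarith [mul_comm (kf W p r n y x) (kf W p r n y x')]
  have hg : K91.Grp (R26P.sg y) (R26P.sg y') y' := ⟨R26P.sg_nonneg y, R26P.sg_nonneg y', fun z hz => by
    unfold R26P.sg; rw [if_neg (by omega)], fun z hz => by unfold R26P.sg; rw [if_neg (by omega)]⟩
  have hmm : ∀ i < n, K97.mc θ (K91P.shp p r i) (K91P.shp p₀ r i) := fun i _ => hm (r + i)
  have d1 := (T97.mc_dp (R26P.shw_pos hW r) (R26P.shp_pos hp r) (R26P.shp_pos hp₀ r) ht hg n hmm x x' hx).1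
  have f1 := (T97.mc_fw (R26P.shw_pos hW r) (R26P.shp_pos hp r) (R26P.shp_pos hp₀ r) ht (R26P.sg_nonneg y) n hmm x').2
  have f2 := (T97.mc_fw (R26P.shw_pos hW r) (R26P.shp_pos hp r) (R26P.shp_pos hp₀ r) ht (R26P.sg_nonneg y') n hmm x).2
  have f1' : kf W p₀ r n y x' ≤ θ ^ n * kf W p r n y x' := f1
  have f2' : kf W p₀ r n y' x ≤ θ ^ n * kf W p r n y' x := f2
  have d1' : kf W p r n y x * kf W p r n y' x' - kf W p r n y x' * kf W p r n y' x ≤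
      θ ^ (2 * n) * (kf W p₀ r n y x * kf W p₀ r n y' x' - kf W p₀ r n y x' * kf W p₀ r n y' x) := by
    unfold K91P.dp at d1
    unfold R26P.kf
    linarith
  have n0 : 0 ≤ kf W p₀ r n y' x := R26P.kf_nonneg hW hp₀ r n y' x
  have x0 : kf W p₀ r n y x' * kf W p₀ r n y' x ≤ θ ^ (2 * n) * (kf W p r n y x' * kf W p r n y' x) := by
    refine (mul_le_mul f1' f2' n0 (mul_nonneg (by positivity) (nn y x'))).trans (le_of_eq ?_)
    rw [two_mul, pow_add]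
    ring
  have e4 : θ ^ (4 * n) = θ ^ (2 * n) * θ ^ (2 * n) := by
    rw [← pow_add]
    congr 1
    ring
  have g1 : θ ^ (2 * n) * (kf W p₀ r n y x * kf W p₀ r n y' x' - kf W p₀ r n y x' * kf W p₀ r n y' x) ≤
      θ ^ (2 * n) * (δ * (θ ^ (2 * n) * (kf W p r n y x' * kf W p r n y' x))) := by
    refine mul_le_mul_of_nonneg_left ?_ (by positivity)
    have := mul_le_mul_of_nonneg_left x0 hδ
    linarith
  rw [e4]
  linarith

/-- Without force the normalised kernel is the plain one. -/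
theorem nk0_24 {p₀ : ℕ → ℝ} (h₀ : ∀ k, p₀ k = Real.exp s) (i n : ℕ) (x y : ℤ) : nk μ s 0 η p₀ 0 i n x y = kW μ s η i n x y := by
  obtain ⟨m, hm⟩ : ∃ m : ℕ, m = bl 0 i n := ⟨_, rfl⟩
  have hmn : m ≤ n := by rw [hm]; exact bl_le 0 i n
  have h1 := nk_K1 (μ := μ) (s := s) (h := 0) (η := η) (p := p₀) (M := 0) (fun k _ => by rw [h₀, add_zero]) (fun k _ => h₀ k) i n x y
  rw [← hm, Pool.Agent.W_7d29a1_C1.U16.K1_eq] at h1
  have h2 : kW μ s η i n x y = ∑ z ∈ Icc (0 : ℤ) m, W μ s η ((i : ℤ), x) m z * W μ s η ((i : ℤ) + m, x + z) (n - m) (y - x - z) := by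
    unfold kW
    have e : n = m + (n - m) := by omega
    conv_lhs => rw [e]
    exact W_add η ((i : ℤ), x) m (n - m) (y - x)
  rw [h1, h2]
  refine sum_congr rfl fun z _ => ?_
  rw [zero_mul, Real.exp_zero, one_mul]

/-- **`cx`.** -/
theorem cx24 [IsProbabilityMeasure μ] {n t m re : ℕ} {a' e2 : ℤ} {ρ U β h G K ε : ℝ} (X : XO24 μ s η ((re : ℤ), a') n t m e2 ρ U β h G K ε)
    (hp : ∀ k, k < M → p k = Real.exp (s + hh)) (hp' : ∀ k, M ≤ k → p k = Real.exp s) (hh1 : |hh| * (m + 1 : ℕ) ≤ 1)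
    (hε : 0 ≤ ε) {ya yb za zb : ℤ} (hya : ya ∈ Ce24 e2 ρ) (hyb : yb ∈ Ce24 e2 ρ) (hy : ya ≤ yb) (hz : za ≤ zb)
    (h1 : |((za : ℝ) - (a' + sl μ s * n))| + 1 ≤ K * wd μ s n) (h2 : |((zb : ℝ) - (a' + sl μ s * n))| + 1 ≤ K * wd μ s n) :
    CR (kf (wt η) p (re + t) (m + 1)) ya yb za zb ≤ 1 + Real.exp 4 * ε := by
  have hp0 : ∀ k, 0 < p k := fun k => by
    rcases lt_or_ge k M with h5 | h5
    · rw [hp k h5]; exact Real.exp_pos _
    · rw [hp' k h5]; exact Real.exp_pos _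
  obtain ⟨p₀, hp₀⟩ : ∃ p₀ : ℕ → ℝ, p₀ = fun _ => Real.exp s := ⟨_, rfl⟩
  have p₀p : ∀ k, 0 < p₀ k := fun k => by rw [hp₀]; exact Real.exp_pos _
  have hpe : ∀ k, p₀ k = Real.exp s := fun k => by rw [hp₀]
  have hW : ∀ k y, 0 < wt η k y := fun k y => wt_pos η k y
  obtain ⟨θ, hθ⟩ : ∃ θ : ℝ, θ = Real.exp |hh| := ⟨_, rfl⟩
  have ht : 1 ≤ θ := by rw [hθ]; exact Real.one_le_exp (abs_nonneg _)
  have hm : ∀ k, p k ≤ θ * p₀ k ∧ p₀ k ≤ θ * p k := fun k => by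
    rw [hpe, hθ]
    have a1 := le_abs_self hh
    have a2 := neg_abs_le hh
    have a3 := abs_nonneg hh
    rcases lt_or_ge k M with h5 | h5
    · rw [hp k h5, ← Real.exp_add, ← Real.exp_add]
      exact ⟨Real.exp_le_exp.2 (by linarith), Real.exp_le_exp.2 (by linarith)⟩
    · rw [hp' k h5, ← Real.exp_add]
      exact ⟨Real.exp_le_exp.2 (by linarith), Real.exp_le_exp.2 (by linarith)⟩
  -- the plain kernel
  have k0 : ∀ y z, kf (wt η) p₀ (re + t) (m + 1) y z = Lam12 μ s 0 0 (re + t) m *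
      (wt η (re + t) y * (kW μ s η ((re : ℤ) + t) m y z + Real.exp s * kW μ s η ((re : ℤ) + t) m y (z - 1))) := fun y z => by
    have e1 : kf (wt η) p₀ (re + t) (m + 1) y z = Lam12 μ s 0 0 (re + t) m *
      (wt η (re + t) y * st12 (nk μ s 0 η p₀ 0 (re + t) m) (p₀ (re + t + m)) y z) :=
      Pool.Agent.W_7d29a1_C1.Fr47.ker_st47 (re + t) m y z
    rw [e1]
    unfold st12
    rw [nk0_24 hpe, nk0_24 hpe, hpe]
    push_cast
    rfl
  have win : ∀ z : ℤ, |((z : ℝ) - (a' + sl μ s * n))| + 1 ≤ K * wd μ s n →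
      |((z : ℝ) - (a' + sl μ s * n))| ≤ K * wd μ s n ∧ |(((z - 1 : ℤ) : ℝ) - (a' + sl μ s * n))| ≤ K * wd μ s n := fun z hz => by
    refine ⟨by linarith, ?_⟩
    have e1 : ((z - 1 : ℤ) : ℝ) - (a' + sl μ s * n) = ((z : ℝ) - (a' + sl μ s * n)) - 1 := by push_cast; ring
    rw [e1]
    have := abs_sub ((z : ℝ) - (a' + sl μ s * n)) 1
    rw [abs_one] at this
    linarith
  obtain ⟨a1, a2⟩ := win za h1
  obtain ⟨b1, b2⟩ := win zb h2
  have r1 := X.rk ya hya yb hyb za zb a1 b1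
  have r2 := X.rk ya hya yb hyb za (zb - 1) a1 b2
  have r3 := X.rk ya hya yb hyb (za - 1) zb a2 b1
  have r4 := X.rk ya hya yb hyb (za - 1) (zb - 1) a2 b2
  have hs := Real.exp_pos s
  have L0 := Lam12_pos (μ := μ) (s := s) (h := 0) 0 (re + t) m
  have wa := wt_pos η (re + t) ya
  have wb := wt_pos η (re + t) yb
  have H0 : kf (wt η) p₀ (re + t) (m + 1) ya za * kf (wt η) p₀ (re + t) (m + 1) yb zb ≤
      (1 + ε) * (kf (wt η) p₀ (re + t) (m + 1) ya zb * kf (wt η) p₀ (re + t) (m + 1) yb za) := by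
    rw [k0, k0, k0, k0]
    have c1 := mul_le_mul_of_nonneg_left r2 hs.le
    have c2 := mul_le_mul_of_nonneg_left r3 hs.le
    have c3 := mul_le_mul_of_nonneg_left r4 (mul_nonneg hs.le hs.le)
    have key : (kW μ s η ((re : ℤ) + t) m ya za + Real.exp s * kW μ s η ((re : ℤ) + t) m ya (za - 1)) *
        (kW μ s η ((re : ℤ) + t) m yb zb + Real.exp s * kW μ s η ((re : ℤ) + t) m yb (zb - 1)) ≤
        (1 + ε) * ((kW μ s η ((re : ℤ) + t) m ya zb + Real.exp s * kW μ s η ((re : ℤ) + t) m ya (zb - 1)) *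
        (kW μ s η ((re : ℤ) + t) m yb za + Real.exp s * kW μ s η ((re : ℤ) + t) m yb (za - 1))) := by
      have r1' : kW μ s η ((re : ℤ) + t) m ya za * kW μ s η ((re : ℤ) + t) m yb zb ≤
        (1 + ε) * (kW μ s η ((re : ℤ) + t) m ya zb * kW μ s η ((re : ℤ) + t) m yb za) := r1
      have c1' : Real.exp s * (kW μ s η ((re : ℤ) + t) m ya za * kW μ s η ((re : ℤ) + t) m yb (zb - 1)) ≤
        Real.exp s * ((1 + ε) * (kW μ s η ((re : ℤ) + t) m ya (zb - 1) * kW μ s η ((re : ℤ) + t) m yb za)) := c1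
      have c2' : Real.exp s * (kW μ s η ((re : ℤ) + t) m ya (za - 1) * kW μ s η ((re : ℤ) + t) m yb zb) ≤
        Real.exp s * ((1 + ε) * (kW μ s η ((re : ℤ) + t) m ya zb * kW μ s η ((re : ℤ) + t) m yb (za - 1))) := c2
      have c3' : Real.exp s * Real.exp s * (kW μ s η ((re : ℤ) + t) m ya (za - 1) * kW μ s η ((re : ℤ) + t) m yb (zb - 1)) ≤
        Real.exp s * Real.exp s * ((1 + ε) * (kW μ s η ((re : ℤ) + t) m ya (zb - 1) * kW μ s η ((re : ℤ) + t) m yb (za - 1))) := c3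
      linarith
    have := mul_le_mul_of_nonneg_left key (show 0 ≤ Lam12 μ s 0 0 (re + t) m * wt η (re + t) ya *
      (Lam12 μ s 0 0 (re + t) m * wt η (re + t) yb) by positivity)
    linarith
  have g := kf_tilt24 (p := p) hW hp0 p₀p ht hm hy hz hε H0
  have nn : ∀ a b, 0 ≤ kf (wt η) p (re + t) (m + 1) a b := fun a b => R26P.kf_nonneg hW hp0 _ _ a b
  have hθ4 : θ ^ (4 * (m + 1)) ≤ Real.exp 4 := by
    rw [hθ, ← Real.exp_nat_mul]
    refine Real.exp_le_exp.2 ?_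
    push_cast at hh1 ⊢
    linarith
  unfold CR
  refine div_le_of_le_mul₀ (mul_nonneg (nn _ _) (nn _ _)) (by positivity) (g.trans ?_)
  refine mul_le_mul_of_nonneg_right ?_ (mul_nonneg (nn _ _) (nn _ _))
  have := mul_le_mul_of_nonneg_right hθ4 hε
  linarith

/-! ### The envelope behind the last step -/

/-- **The envelope of the kernel and one more step.** -/
theorem en_st24 {P : ℕ} {cc c₂ E w q σ A B S π : ℝ} {k : ℤ → ℤ → ℝ}
    (H : ∀ I J : Finset ℤ, En31 P cc c₂ E w q σ (fun x => (x : ℝ) - A) (fun y => (y : ℝ) - B) k I J)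
    (hsum : ∀ (z : ℝ) (J : Finset ℤ), ∑ y ∈ J, Real.exp (-(c₂ * (E / w) * |(y : ℝ) - z|)) ≤ Real.exp (σ * E)) (hπ : 0 ≤ π)
    (hπE : 1 + π ≤ Real.exp E) (hc : 0 ≤ cc) (hcw : cc * (E / w) ≤ E) (s0 : 0 ≤ S) (s1 : S ≤ 1) (hE : 0 ≤ E) (hw : 0 < w)
    (I J : Finset ℤ) :
    En31 P cc c₂ E w (q + 2) σ (fun x => (x : ℝ) - A) (fun y => (y : ℝ) - (B + S)) (st12 k π) I J := by
  have H0 := H ∅ ∅
  have hEw : 0 ≤ E / w := div_nonneg hE hw.le
  refine ⟨by linarith [H0.q0], H0.s0, fun x y => S12.st12_nonneg H0.k0 hπ x y, fun x _ z _ => ?_, fun x => ?_⟩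
  · obtain ⟨g1, g2⟩ := skew24 (z := (z : ℝ)) (b := B) (v := (x : ℝ)) (a := A) hc hEw s0 s1
    have u1 := (H {x} {z}).up x (mem_singleton_self x) z (mem_singleton_self z)
    have u2 := (H {x} {z - 1}).up x (mem_singleton_self x) (z - 1) (mem_singleton_self _)
    have X0 : 0 ≤ |(x : ℝ) - A| / w := by positivity
    have gr1 := gr_one_le P X0
    obtain ⟨Y, hY⟩ : ∃ Y : ℝ, Y = Real.exp (q * gr P (|(x : ℝ) - A| / w) * E + E - cc * (E / w) * |((z : ℝ) - (B + S)) - ((x : ℝ) - A)|) :=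
      ⟨_, rfl⟩
    have hY0 : 0 ≤ Y := by rw [hY]; exact (Real.exp_pos _).le
    have v1 : k x z ≤ Y := by
      rw [hY]
      exact u1.trans (Real.exp_le_exp.2 (by linarith))
    have v2 : k x (z - 1) ≤ Y := by
      rw [hY]
      refine u2.trans (Real.exp_le_exp.2 ?_)
      push_cast
      linarith
    have v3 : st12 k π x z ≤ (1 + π) * Y := by
      unfold st12
      have := mul_le_mul_of_nonneg_left v2 hπ
      linarith
    refine v3.trans ((mul_le_mul_of_nonneg_right hπE hY0).trans ?_)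
    rw [hY, ← Real.exp_add]
    refine Real.exp_le_exp.2 ?_
    have := mul_le_mul_of_nonneg_right (mul_le_mul_of_nonneg_left gr1 (show (0 : ℝ) ≤ 2 by norm_num)) hE
    show E + (q * gr P (|(x : ℝ) - A| / w) * E + E - cc * (E / w) * |((z : ℝ) - (B + S)) - ((x : ℝ) - A)|) ≤
      (q + 2) * gr P (|(x : ℝ) - A| / w) * E - cc * (E / w) * |((z : ℝ) - (B + S)) - ((x : ℝ) - A)|
    linarith
  · have g := hsum (B + S + ((x : ℝ) - A)) J
    refine le_trans (le_of_eq (sum_congr rfl fun y _ => ?_)) g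
    congr 4
    ring

/-! ### The fields from the envelopes -/

section env

variable {P : ℕ} {cc c₁ c₂ c₃ c₃' c₅ E w q σ Q S : ℝ} {κ : Pt} {lo H : ℤ} {r t m : ℕ}

/-- **`s2`** : the step through the second cell. -/
theorem s2_24 (hen : ∀ I J : Finset ℤ, En31 P cc c₂ E w q σ (fun x => (x : ℝ) - ln35 μ s κ r) (fun y => (y : ℝ) - ln35 μ s κ (r + t))
      (nk μ s hh η p M r t) I J) (hE : 0 < E) (hw : 0 < w) (hc₁ : 0 < c₁) (hc₂ : 0 ≤ c₂) (hc₃ : 0 ≤ c₃') (h3 : c₃' ≤ c₃)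
    (hcc : c₃' + c₁ + c₂ ≤ cc) (hQ : 0 ≤ Q) (Z : Finset ℤ) :
    Stp (wt η) p lo H r t (Icc lo H) Z (kr60 μ s η P c₁ c₃' E w κ (r + t + (m + 1)) (Q + q) (S + σ) r)
      (kr60 μ s η P c₁ c₃ E w κ (r + t + (m + 1)) Q S (r + t)) 1 (Lam12 μ s hh M r t) :=
  stp60 hE hw hc₁ hc₂ hc₃ h3 hcc hQ (by omega) (hen _ _) Z

/-- **`s3`** : the last buffer. -/
theorem s3_24 (hen : ∀ I J : Finset ℤ, En31 P cc c₂ E w q σ (fun x => (x : ℝ) - ln35 μ s κ r) (fun y => (y : ℝ) - ln35 μ s κ (r + m))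
      (nk μ s hh η p M r m) I J)
    (hsum : ∀ (z : ℝ) (J : Finset ℤ), ∑ y ∈ J, Real.exp (-(c₂ * (E / w) * |(y : ℝ) - z|)) ≤ Real.exp (σ * E)) (hp : ∀ k, 0 < p k)
    (hpE : 1 + p (r + m) ≤ Real.exp E) (hcc : 0 ≤ cc) (hcw : cc * (E / w) ≤ E) (s0 : 0 ≤ sl μ s) (s1 : sl μ s ≤ 1) (hE : 0 < E) (hw : 0 < w)
    (hc : c₃ ≤ cc) (hS : 0 ≤ S) (hqQ : q + 2 ≤ Q) (y z : ℤ) :
    kf (wt η) p r (m + 1) y z ≤ Lam12 μ s hh M r m * kr60 μ s η P c₁ c₃ E w κ (r + (m + 1)) Q S r y z := by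
  have en := en_st24 hen hsum (hp (r + m)).le hpE hcc hcw s0 s1 hE.le hw {y} {z}
  have e1 : ln35 μ s κ (r + m) + sl μ s = ln35 μ s κ (r + (m + 1)) := by
    rw [ln35_add, ln35_add]
    push_cast
    ring
  rw [e1] at en
  exact lst60 hE hw hc hS hqQ en (mem_singleton_self y) (mem_singleton_self z)

/-- **`yl`, `yr`** : the ends of the last buffer off the window, seen from a cell of the row `c0`. -/
theorem yl_24 {c0 : ℕ} {K U Λ u cₖ dₖ Q₀ S₀ : ℝ} {a : ℤ}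
    (hen : ∀ I J : Finset ℤ, En31 P cc c₂ E w q σ (fun x => (x : ℝ) - ln35 μ s κ r) (fun y => (y : ℝ) - ln35 μ s κ (r + m))
      (nk μ s hh η p M r m) I J)
    (hsum : ∀ (z : ℝ) (J : Finset ℤ), ∑ y ∈ J, Real.exp (-(c₂ * (E / w) * |(y : ℝ) - z|)) ≤ Real.exp (σ * E)) (hp : ∀ k, 0 < p k)
    (hpE : 1 + p (r + m) ≤ Real.exp E) (hcc : 0 ≤ cc) (hcw : cc * (E / w) ≤ E) (s0 : 0 ≤ sl μ s) (s1 : sl μ s ≤ 1) (hE : 0 < E) (hw : 0 < w)
    (hd : 0 ≤ cₖ) (hck : cₖ ≤ c₃) (hc₅ : 0 ≤ c₅) (h35 : c₃ + c₅ ≤ cc) (hS : 0 ≤ S) (hqQ : q + 2 ≤ Q) (hQ₀ : 0 ≤ Q₀) (hS₀ : 0 ≤ S₀)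
    (h0 : c0 ≤ r) {y z : ℤ} (hyU : |(y : ℝ) - ln35 μ s κ r| ≤ U * w) (hzK : K * w ≤ |(z : ℝ) - ln35 μ s κ (r + (m + 1))|)
    (ha : |(a : ℝ) - ln35 μ s κ c0| ≤ Λ * w) (hay : a ≤ y) (hya : y ≤ a + (r - c0 : ℕ)) (hwt : wt η r y ≤ Real.exp (u * E)) {ge : ℝ}
    (hge : ge + u + Q * gr P (AQ P c₁ Q + U) + S + cₖ * (U + Λ) ≤ c₅ * (K - U)) :
    kf (wt η) p r (m + 1) y z ≤ Real.exp (-(ge * E)) * Lam12 μ s hh M r m *
      D31.kap31 P dₖ cₖ Q₀ S₀ E w (ln35 μ s κ c0) (ln35 μ s κ (r + (m + 1))) (r + (m + 1) - c0) a z := by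
  have en := en_st24 hen hsum (hp (r + m)).le hpE hcc hcw s0 s1 hE.le hw {y} {z}
  have e1 : ln35 μ s κ (r + m) + sl μ s = ln35 μ s κ (r + (m + 1)) := by
    rw [ln35_add, ln35_add]
    push_cast
    ring
  rw [e1] at en
  have g := lstc60 (c₁ := c₁) (dₖ := dₖ) hE hw hd hck hc₅ h35 hS hqQ hQ₀ hS₀ hp h0 en (mem_singleton_self y) (mem_singleton_self z) hyU hzK ha hay
    hya hwt
  refine g.trans (mul_le_mul_of_nonneg_right (mul_le_mul_of_nonneg_right (Real.exp_le_exp.2 ?_) (Lam12_pos _ _ _).le)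
    (D31.kap31_nonneg _ _))
  have := mul_le_mul_of_nonneg_right hge hE.le
  linarith

/-- **`of`** : the walls of a cell, summed against the envelope behind. -/
theorem of_24 {Kw G' ch : ℝ} {Cc : Finset ℤ}
    (wall : ∀ v y : ℤ, |(v : ℝ) - ln35 μ s κ r| ≤ Kw * w → y ∉ Cc → nk μ s hh η p M r t v y ≤
      Real.exp (-(G' * E) - ch * (E / w) * |((y : ℝ) - ln35 μ s κ (r + t)) - ((v : ℝ) - ln35 μ s κ r)|))
    (hsum : ∀ (z : ℝ) (J : Finset ℤ), ∑ y ∈ J, Real.exp (-(c₂ * (E / w) * |(y : ℝ) - z|)) ≤ Real.exp (σ * E)) (hp : ∀ k, 0 < p k)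
    (hq : 0 ≤ q) (hσ : 0 ≤ σ) (hE : 0 < E) (hw : 0 < w) (hc₁ : 0 < c₁) (hc₂ : 0 ≤ c₂) (hc₃ : 0 ≤ c₃') (h3 : c₃' ≤ c₃)
    (hcc : c₃' + c₁ + c₂ ≤ ch) (hQ : 0 ≤ Q) {v z : ℤ} (hv : |(v : ℝ) - ln35 μ s κ r| ≤ Kw * w) {T : Finset ℤ} (hT : ∀ y ∈ T, y ∉ Cc) :
    ∑ y ∈ T, kf (wt η) p r t v y * kr60 μ s η P c₁ c₃ E w κ (r + t + (m + 1)) Q S (r + t) y z ≤
      Real.exp (-(G' * E)) * Lam12 μ s hh M r t * kr60 μ s η P c₁ c₃' E w κ (r + t + (m + 1)) (Q + q) (S + σ) r v z := by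
  have en' : En31 P ch c₂ E w q σ (fun x => (x : ℝ) - ln35 μ s κ r) (fun y => (y : ℝ) - ln35 μ s κ (r + t))
      (fun x y => Real.exp (G' * E) * nk μ s hh η p M r t x y) {v} T := by
    refine ⟨hq, hσ, fun a b => mul_nonneg (Real.exp_pos _).le (nk_nonneg hp _ _ _ _), fun a ha y hy => ?_, fun a => ?_⟩
    · rw [mem_singleton] at ha
      subst ha
      refine (mul_le_mul_of_nonneg_left (wall a y hv (hT y hy)) (Real.exp_pos _).le).trans ?_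
      rw [← Real.exp_add]
      refine Real.exp_le_exp.2 ?_
      have g1 := gr_nonneg P (show 0 ≤ |(a : ℝ) - ln35 μ s κ r| / w by positivity)
      have g2 : 0 ≤ q * gr P (|(a : ℝ) - ln35 μ s κ r| / w) * E := by positivity
      show G' * E + (-(G' * E) - ch * (E / w) * |((y : ℝ) - ln35 μ s κ (r + t)) - ((a : ℝ) - ln35 μ s κ r)|) ≤
        q * gr P (|(a : ℝ) - ln35 μ s κ r| / w) * E - ch * (E / w) * |((y : ℝ) - ln35 μ s κ (r + t)) - ((a : ℝ) - ln35 μ s κ r)|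
      linarith
    · have g := hsum (ln35 μ s κ (r + t) + ((a : ℝ) - ln35 μ s κ r)) T
      refine le_trans (le_of_eq (sum_congr rfl fun y _ => ?_)) g
      congr 4
      ring
  have h1 := JnC35.comp35_cut (S := S) (cen₃ := ln35 μ s κ (r + t + (m + 1))) (m := m + 1) (Q := Q) hE hw hc₁ hc₂ hc₃ h3 hcc en' hQ
    (fun x y hxy => by rw [nk_eq_zero r t hxy, mul_zero]) (mem_singleton_self v) z
  have e1 : ∑ y ∈ T, Real.exp (G' * E) * nk μ s hh η p M r t v y *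
      D31.kap31 P c₁ c₃ Q S E w (ln35 μ s κ (r + t)) (ln35 μ s κ (r + t + (m + 1))) (m + 1) y z = Real.exp (G' * E) *
      ∑ y ∈ T, nk μ s hh η p M r t v y * D31.kap31 P c₁ c₃ Q S E w (ln35 μ s κ (r + t)) (ln35 μ s κ (r + t + (m + 1))) (m + 1) y z := by
    rw [mul_sum]
    exact sum_congr rfl fun y _ => by ring
  rw [e1] at h1
  have h4 := mul_le_mul_of_nonneg_left h1 (Real.exp_pos (-(G' * E))).le
  rw [← mul_assoc, ← Real.exp_add, neg_add_cancel, Real.exp_zero, one_mul] at h4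
  rw [H60.sum_kr60 (h := hh) (M := M)]
  unfold kr60
  rw [show r + t + (m + 1) - (r + t) = m + 1 by omega, show r + t + (m + 1) - r = t + (m + 1) by omega]
  have h5 := mul_le_mul_of_nonneg_left (mul_le_mul_of_nonneg_left h4 (wt_pos η r v).le) (Lam12_pos (μ := μ) (s := s) (h := hh) M r t).le
  refine h5.trans (le_of_eq ?_)
  ring

end env

end

end Pool.Agent.W_7d29a1_C1.P24
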