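import Pool.Agent.W_7d29a1_C1.KEy24

/-!
MP_7d29a1_pr, [C1] SHELL (helper24): THE EXIT HALF OF `Pcs`, SECOND BLOCK, AS ONE STRUCTURE. `en_evr24`: the envelope of the normalised
kernel in the unit of the box, any line near the line of the block. `Py24`: the fields of `Pcs` of the second block. `kEz24`: they follow
from the facts `FXz24` of the exit set.
-/

set_option autoImplicit false

namespace Pool.Agent.W_7d29a1_C1.P24

open MeasureTheory ProbabilityTheory Filter Topology Finset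
open Pool.Agent.W_7d29a1_F Pool.Agent.W_7d29a1_h4g Pool.Agent.W_7d29a1_H Pool.Agent.W_7d29a1_HS
open Pool.Agent.W_7d29a1_C1
open Pool.Agent.W_7d29a1_C1.CR76 Pool.Agent.W_7d29a1_C1.Basin76
open Pool.Agent.W_7d29a1_C1.H75 (hc)
open Pool.Agent.W_7d29a1_C1.U16 (fq16 lat16)
open Pool.Agent.W_7d29a1_C1.K91 (wt wt_pos)
open Pool.Agent.W_7d29a1_C1.FarK89 (gr gr_nonneg gr_one_le gr_mono gr_mul AQ AQ_nonneg)
open Pool.Agent.W_7d29a1_C1.FarW89 (nk nk_nonneg nk_eq_zero nk_K1 bl bl_le)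
open Pool.Agent.W_7d29a1_C1.S12 (st12 Lam12 Lam12_pos)
open Pool.Agent.W_7d29a1_C1.JnC35 (ln35)
open Pool.Agent.W_7d29a1_C1.S83 (RowG gr_pow_mono sumR83)
open Pool.Agent.W_7d29a1_C1.D31 (En31)
open Pool.Agent.W_7d29a1_C1.R26P (kf)
open Pool.Agent.W_7d29a1_C1.H60 (kr60 kr60_nonneg kf_nk60 stp60 lst60 lstc60)
open Pool.Agent.W_7d29a1_C1.Sh21 (Stp)
open Pool.Agent.W_7d29a1_C1.F74 (Gex)

noncomputable section

variable {μ : Measure ℝ} {s c C : ℝ} {n₀ : ℕ} {hh : ℝ} {η : Env} {p : ℕ → ℝ} {M : ℕ}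

/-- **THE ENVELOPE IN THE UNIT OF THE BOX.** -/
theorem en_evr24 [IsProbabilityMeasure μ] {b κ : Pt} {lo hi : ℤ} {r m n P P' : ℕ} {κ₀ q R σ c₂ E w : ℝ}
    (V : η ∈ EVR24 μ s κ₀ n P lo hi b q) (hlo : lo ≤ r) (hhi : (r : ℤ) + m ≤ hi) (hp : ∀ k, k < M → p k = Real.exp (s + hh))
    (hp' : ∀ k, M ≤ k → p k = Real.exp s) (s0 : 0 ≤ sl μ s) (s1 : sl μ s ≤ 1) (hh1 : |hh| * m ≤ 1)
    (un : Un24 (EE μ s n) (wd μ s n) E w) (hq : 0 ≤ q) (hκ : 0 ≤ κ₀) (hR : 0 ≤ R) (hb : |ln35 μ s b r - ln35 μ s κ r| ≤ R * w)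
    (hP : P + 1 ≤ P') (hσ : 0 ≤ σ)
    (hsum : ∀ (z : ℝ) (J : Finset ℤ), ∑ y ∈ J, Real.exp (-(c₂ * (E / w) * |(y : ℝ) - z|)) ≤ Real.exp (σ * E)) (I J : Finset ℤ) :
    En31 P' (κ₀ / 64) c₂ E w ((1 + Real.log 2) ^ P * q * gr P' (32 * R + 32) + 1) σ (fun x => (x : ℝ) - ln35 μ s κ r)
      (fun y => (y : ℝ) - ln35 μ s κ (r + m)) (nk μ s hh η p M r m) I J := by
  have hp0 : ∀ k, 0 < p k := fun k => by
    rcases lt_or_ge k M with h5 | h5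
    · rw [hp k h5]; exact Real.exp_pos _
    · rw [hp' k h5]; exact Real.exp_pos _
  have hA : 0 ≤ (1 + Real.log 2) ^ P := by
    have := Real.log_nonneg (show (1 : ℝ) ≤ 2 by norm_num)
    positivity
  have hgR := gr_nonneg P' (show 0 ≤ 32 * R + 32 by positivity)
  have hEn := un.En1
  have hwn := un.wn0
  have hE1 := un.E1
  refine ⟨by positivity, hσ, fun x y => nk_nonneg hp0 _ _ _ _, fun x _ y _ => ?_, fun x => ?_⟩
  · have g1 := (nk_kW (μ := μ) (η := η) (n := m) hp hp' s0 s1 hh1 (i := r) x y).1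
    have g2 := V ((r : ℤ), x) m hlo hhi (y - x)
    have e0 : lat16 μ s b ((r : ℤ), x) = (x : ℝ) - ln35 μ s b r := by
      unfold lat16 ln35
      push_cast
      ring
    have e1 : ((y - x : ℤ) : ℝ) - sl μ s * m = ((y : ℝ) - ln35 μ s κ (r + m)) - ((x : ℝ) - ln35 μ s κ r) := by
      rw [ln35_add]
      push_cast
      ring
    have e2 : hc μ s κ₀ n = κ₀ * (EE μ s n / wd μ s n) := by
      unfold hc
      ring
    rw [e0, e1, e2] at g2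
    refine (g1.trans (mul_le_mul_of_nonneg_left g2 (Real.exp_pos 1).le)).trans ?_
    rw [← Real.exp_add]
    refine Real.exp_le_exp.2 ?_
    obtain ⟨X, hX⟩ : ∃ X : ℝ, X = |(x : ℝ) - ln35 μ s b r| / wd μ s n := ⟨_, rfl⟩
    have x0 : 0 ≤ X := by rw [hX]; positivity
    have h2 := fq16_scale (A := 2) (by norm_num) P (u := X) (v := X + 1) x0 (by linarith) (by linarith)
    have hl := log_nn24 x0
    have h3 : fq16 P X ≤ gr P' X := by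
      refine le_trans ?_ (gr_pow_mono hP x0)
      unfold fq16 gr
      rw [abs_of_nonneg x0]
      exact pow_le_pow_right₀ (by linarith) (Nat.le_succ P)
    have h4 : q * fq16 P (X + 1) * EE μ s n ≤ (1 + Real.log 2) ^ P * q * gr P' X * EE μ s n := by
      have := mul_le_mul_of_nonneg_right (mul_le_mul_of_nonneg_left (h2.trans (mul_le_mul_of_nonneg_left h3 hA)) hq)
        (show 0 ≤ EE μ s n by linarith)
      have e3 : q * ((1 + Real.log 2) ^ P * gr P' X) * EE μ s n = (1 + Real.log 2) ^ P * q * gr P' X * EE μ s n := by ring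
      rwa [e3] at this
    have h5 := unit24 (P := P') (q := (1 + Real.log 2) ^ P * q) (κ := κ₀) (v := (x : ℝ)) (show 0 < EE μ s n by linarith) hwn un.w0 un.e1 un.e2
      un.a1 un.a2 (by positivity) hκ hR hb (abs_nonneg (((y : ℝ) - ln35 μ s κ (r + m)) - ((x : ℝ) - ln35 μ s κ r)))
    rw [← hX] at h5 ⊢
    have h6 := gr_one_le P' (show 0 ≤ |(x : ℝ) - ln35 μ s κ r| / w by have := un.w0; positivity)
    have h7 : 1 ≤ gr P' (|(x : ℝ) - ln35 μ s κ r| / w) * E := by nlinarith only [h6, hE1]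
    show 1 + (q * fq16 P (X + 1) * EE μ s n - κ₀ * (EE μ s n / wd μ s n) * |((y : ℝ) - ln35 μ s κ (r + m)) - ((x : ℝ) - ln35 μ s κ r)|) ≤
      ((1 + Real.log 2) ^ P * q * gr P' (32 * R + 32) + 1) * gr P' (|(x : ℝ) - ln35 μ s κ r| / w) * E -
        κ₀ / 64 * (E / w) * |((y : ℝ) - ln35 μ s κ (r + m)) - ((x : ℝ) - ln35 μ s κ r)|
    linarith only [h7, h5, h4]
  · have g := hsum (ln35 μ s κ (r + m) + ((x : ℝ) - ln35 μ s κ r)) J
    refine le_trans (le_of_eq (sum_congr rfl fun y _ => ?_)) g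
    congr 4
    ring

/-! ### Windows -/

/-- The window of half width `K` around the line at the row `r`: its left end, its right end. -/
def wl24 (μ : Measure ℝ) (s : ℝ) (T : ℕ) (κ : Pt) (r : ℕ) (K : ℝ) : ℤ := ⌈ln35 μ s κ r - K * wd μ s T⌉

def wr24 (μ : Measure ℝ) (s : ℝ) (T : ℕ) (κ : Pt) (r : ℕ) (K : ℝ) : ℤ := ⌊ln35 μ s κ r + K * wd μ s T⌋

theorem mem_w24 {T : ℕ} {κ : Pt} {r : ℕ} {K : ℝ} {v : ℤ} : (wl24 μ s T κ r K ≤ v ∧ v ≤ wr24 μ s T κ r K) ↔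
    |(v : ℝ) - ln35 μ s κ r| ≤ K * wd μ s T := by
  unfold wl24 wr24
  rw [Int.ceil_le, Int.le_floor, abs_le]
  constructor
  · rintro ⟨h1, h2⟩
    constructor <;> linarith
  · rintro ⟨h1, h2⟩
    constructor <;> linarith

theorem wl24_lt {T : ℕ} {κ : Pt} {r : ℕ} {K : ℝ} {v : ℤ} (h : v < wl24 μ s T κ r K) : K * wd μ s T ≤ |(v : ℝ) - ln35 μ s κ r| := by
  unfold wl24 at h
  rw [Int.lt_ceil] at h
  rw [abs_sub_comm]
  exact le_trans (by linarith) (le_abs_self _)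

theorem lt_wr24 {T : ℕ} {κ : Pt} {r : ℕ} {K : ℝ} {v : ℤ} (h : wr24 μ s T κ r K < v) : K * wd μ s T ≤ |(v : ℝ) - ln35 μ s κ r| := by
  unfold wr24 at h
  rw [Int.floor_lt] at h
  exact le_trans (by linarith) (le_abs_self _)

theorem wl24_near {T : ℕ} {κ : Pt} {r : ℕ} {K : ℝ} (hK : 0 ≤ K) (hw : 0 ≤ wd μ s T) :
    |(wl24 μ s T κ r K : ℝ) - ln35 μ s κ r| ≤ K * wd μ s T + 1 := by
  unfold wl24
  have f1 := Int.le_ceil (ln35 μ s κ r - K * wd μ s T)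
  have f2 := Int.ceil_lt_add_one (ln35 μ s κ r - K * wd μ s T)
  have f3 := mul_nonneg hK hw
  rw [abs_le]
  constructor <;> linarith

theorem wr24_near {T : ℕ} {κ : Pt} {r : ℕ} {K : ℝ} (hK : 0 ≤ K) (hw : 0 ≤ wd μ s T) :
    |(wr24 μ s T κ r K : ℝ) - ln35 μ s κ r| ≤ K * wd μ s T + 1 := by
  unfold wr24
  have f1 := Int.floor_le (ln35 μ s κ r + K * wd μ s T)
  have f2 := Int.lt_floor_add_one (ln35 μ s κ r + K * wd μ s T)
  have f3 := mul_nonneg hK hw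
  rw [abs_le]
  constructor <;> linarith

/-- Windows of two rows which are far from each other in the unit of the rows. -/
theorem xv24' [IsProbabilityMeasure μ] (h : In μ s c C n₀) (ρ ρ' : ℝ) : ∃ n₂ : ℕ, ∀ T : ℕ, n₂ ≤ T → ∀ n : ℕ, T ≤ 8 * n →
    ∀ (κ : Pt) (r : ℕ) (x v : ℤ), |(x : ℝ) - ln35 μ s κ r| ≤ ρ' * wd μ s T → |(v : ℝ) - ln35 μ s κ (r + n)| ≤ ρ * wd μ s T →
      x ≤ v ∧ v ≤ x + n := by
  have s0 := h.sl_pos
  have s1 := h.sl_lt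
  obtain ⟨b, hb⟩ : ∃ b : ℝ, b = min (sl μ s) (1 - sl μ s) := ⟨_, rfl⟩
  have hb0 : 0 < b := by rw [hb]; exact lt_min s0 (by linarith)
  have hbs : b ≤ sl μ s := by rw [hb]; exact min_le_left _ _
  have hbs' : b ≤ 1 - sl μ s := by rw [hb]; exact min_le_right _ _
  have hx : 0 < b / 8 / (|ρ| + |ρ'| + 1) := by positivity
  obtain ⟨nv, hnv⟩ := eventually_atTop.1 (h.tv.eventually_le_const hx)
  refine ⟨nv, fun T hT n hn κ r x v hx hv => ?_⟩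
  have e1 : wd μ s T = T * vA 1 μ s T := rfl
  have hT0 : (0 : ℝ) ≤ T := Nat.cast_nonneg T
  have hTn : (T : ℝ) ≤ 8 * n := by exact_mod_cast hn
  have g0 : wd μ s T * (|ρ| + |ρ'| + 1) ≤ b * n := by
    have g1 := mul_le_mul_of_nonneg_left (hnv T hT) hT0
    rw [← e1] at g1
    have g2 := mul_le_mul_of_nonneg_right g1 (show 0 ≤ |ρ| + |ρ'| + 1 by positivity)
    have e2 : T * (b / 8 / (|ρ| + |ρ'| + 1)) * (|ρ| + |ρ'| + 1) = T * (b / 8) := by field_simp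
    rw [e2] at g2
    nlinarith only [hTn, hb0, g2]
  have hw := h.wd_nonneg T
  have g1 : ρ * wd μ s T ≤ |ρ| * wd μ s T := mul_le_mul_of_nonneg_right (le_abs_self ρ) hw
  have g2 : ρ' * wd μ s T ≤ |ρ'| * wd μ s T := mul_le_mul_of_nonneg_right (le_abs_self ρ') hw
  obtain ⟨x1, x2⟩ := abs_le.1 (hx.trans g2)
  obtain ⟨v1, v2⟩ := abs_le.1 (hv.trans g1)
  rw [ln35_add] at v1 v2
  have hn0 : (0 : ℝ) ≤ n := Nat.cast_nonneg n
  have m1 := mul_le_mul_of_nonneg_right hbs hn0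
  have m2 := mul_le_mul_of_nonneg_right hbs' hn0
  constructor
  · have : (x : ℝ) ≤ v := by linarith
    exact_mod_cast this
  · have : (v : ℝ) ≤ x + n := by linarith
    exact_mod_cast this

/-- The middle of the exit is near the line. -/
theorem am_near24 {κ : Pt} {e T : ℕ} (he : (e : ℤ) = κ.1 + rE24 T) :
    |((κ.2 + cM24 μ s T : ℤ) : ℝ) - ln35 μ s κ (e + 6 * (T / 32))| ≤ 1 := by
  have e1 : ln35 μ s κ (e + 6 * (T / 32)) = κ.2 + sl μ s * ((rE24 T + 6 * (T / 32) : ℕ) : ℝ) := by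
    unfold ln35
    have e2 : (((e + 6 * (T / 32) : ℕ) : ℤ) - κ.1 : ℤ) = ((rE24 T + 6 * (T / 32) : ℕ) : ℤ) := by
      push_cast
      rw [he]
      ring
    rw [e2, Int.cast_natCast]
  rw [e1]
  unfold cM24
  have f1 := Int.floor_le (sl μ s * ((rE24 T + 6 * (T / 32) : ℕ) : ℝ))
  have f2 := Int.lt_floor_add_one (sl μ s * ((rE24 T + 6 * (T / 32) : ℕ) : ℝ))
  push_cast at f1 f2 ⊢
  rw [abs_le]
  constructor <;> linarith only [f2, f1]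

/-! ### The second block -/

/-- **THE FIELDS OF `Pcs` OF THE SECOND BLOCK.** `re` = row of the second block, `H` = right end of the box in this row. -/
structure Py24 (w : ℕ → ℤ → ℝ) (p : ℕ → ℝ) (lo H : ℤ) (re nb n3 : ℕ) (Z : Finset ℤ) (a1 b2 da db ya yb za zb ua ub : ℤ)
    (k0 ke k2 : ℤ → ℤ → ℝ) (δ e L A2 A3 : ℝ) : Prop where
  A2p : 0 < A2
  A3p : 0 < A3
  ken : ∀ x z, 0 ≤ ke x z
  k2n : ∀ x z, 0 ≤ k2 x z
  gd : lo ≤ da ∧ db ≤ H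
  gy : lo ≤ ya ∧ yb ≤ H + nb
  gx : Gex n3 ya yb za zb
  s2 : Stp w p lo H re nb (Icc lo H) Z ke k2 L A2
  l2 : ∀ v ∈ Icc da db, A2 ≤ L * ∑ y ∈ Icc ya yb, kf w p re nb v y
  of : ∀ v ∈ Icc lo H, ua ≤ v → v ≤ ub → ∀ z ∈ Z,
    ∑ y ∈ (Icc lo (H + nb)).filter (fun y => ¬ (ya ≤ y ∧ y ≤ yb)), kf w p re nb v y * k2 y z ≤ e * A2 * ke v z
  s3 : ∀ y ∈ Icc lo (H + nb), ∀ z ∈ Z, kf w p (re + nb) n3 y z ≤ L * A3 * k2 y z
  l3 : ∀ y ∈ Icc ya yb, A3 ≤ L * kf w p (re + nb) n3 y ((za + zb) / 2)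
  cx : CR (kf w p (re + nb) n3) ya yb za zb ≤ 1 + δ
  yl : ∀ z ∈ Z, z < za → kf w p (re + nb) n3 ya z ≤ e * A3 * k0 a1 z
  yr : ∀ z ∈ Z, zb < z → kf w p (re + nb) n3 yb z ≤ e * A3 * k0 b2 z

/-- **THE SECOND BLOCK FROM THE FACTS OF THE EXIT SET.** -/
theorem kEz24 [IsProbabilityMeasure μ] (h : In μ s c C n₀) {c' : ℝ} {P : ℕ} {d U β q u : ℝ} (hd : 0 < d) (hd2 : d ≤ 1 / 2) (hU : 0 ≤ U)
    (hβ : 0 ≤ β) (hq : 0 ≤ q) (hu : 0 ≤ u) {Pk : ℕ} (hPk : P + 1 ≤ Pk) {c₁ c₂ c₃ c₃e cₖ dₖ c₅ σ : ℝ} (hc₁ : 0 < c₁) (hc₂ : 0 < c₂)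
    (hc₃e : 0 ≤ c₃e) (h3 : c₃e ≤ c₃) (hcc : c₃e + c₁ + c₂ ≤ c / 131072) (hcₖ : 0 ≤ cₖ) (hck : cₖ ≤ c₃) (hc₅ : 0 < c₅)
    (h35 : c₃ + c₅ ≤ c / 32768) (hσ : 0 < σ) :
    ∃ qe : ℝ, 0 ≤ qe ∧ ∀ Q S Q₀ S₀ Λ ge Ku : ℝ, qe + 2 ≤ Q → 0 ≤ S → 0 ≤ Q₀ → 0 ≤ S₀ → 0 ≤ Λ → 0 ≤ ge → 0 ≤ Ku →
    ∃ K' Gc Kc : ℝ, 2 ≤ K' ∧ 0 ≤ Gc ∧ 0 ≤ Kc ∧ ∀ G K : ℝ, Gc ≤ G → Kc ≤ K → ∃ n₂ : ℕ, ∀ T : ℕ, n₂ ≤ T → 32 ∣ T →
    ∀ (κ : Pt) (ζ : Env), FXz24 μ s c c' P d U β q G K 1 u T κ ζ → ∀ (hh : ℝ) (p : ℕ → ℝ) (M : ℕ),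
    (∀ k, k < M → p k = Real.exp (s + hh)) → (∀ k, M ≤ k → p k = Real.exp s) → |hh| * T ≤ 1 →
    ∀ (c0 e : ℕ) (lo H : ℤ) (Z : Finset ℤ) (a1 b2 zm : ℤ), (e : ℤ) = κ.1 + rE24 T → c0 + T ≤ e →
      |(zm : ℝ) - ln35 μ s κ (e + 6 * (T / 32) + T / 32 + (5 * (T / 32) + 1))| ≤ 2 →
      (∀ v : ℤ, |(v : ℝ) - ln35 μ s κ (e + 6 * (T / 32))| ≤ wd μ s T → lo ≤ v ∧ v ≤ H) →
      (∀ v : ℤ, |(v : ℝ) - ln35 μ s κ (e + 6 * (T / 32) + T / 32)| ≤ 2 * wd μ s T → lo ≤ v ∧ v ≤ H + (T / 32 : ℕ)) →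
      |(a1 : ℝ) - ln35 μ s κ c0| ≤ Λ * wd μ s T → |(b2 : ℝ) - ln35 μ s κ c0| ≤ Λ * wd μ s T →
      Py24 (wt ζ) p lo H (e + 6 * (T / 32)) (T / 32) (5 * (T / 32) + 1) Z a1 b2 (κ.2 + cM24 μ s T) (κ.2 + cM24 μ s T)
        (pt24 μ s (((e + 6 * (T / 32) : ℕ) : ℤ), κ.2 + cM24 μ s T) (T / 32) - ⌊d * wd μ s (T / 32)⌋)
        (pt24 μ s (((e + 6 * (T / 32) : ℕ) : ℤ), κ.2 + cM24 μ s T) (T / 32) + ⌊d * wd μ s (T / 32)⌋)
        (zm - (⌈K' * wd μ s T⌉ + 1)) (zm + (⌈K' * wd μ s T⌉ + 1))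
        (wl24 μ s T κ (e + 6 * (T / 32)) Ku) (wr24 μ s T κ (e + 6 * (T / 32)) Ku)
        (D31.kap31 Pk dₖ cₖ Q₀ S₀ (EE μ s T) (wd μ s T) (ln35 μ s κ c0) (ln35 μ s κ (e + 6 * (T / 32) + T / 32 + (5 * (T / 32) + 1)))
          (e + 6 * (T / 32) + T / 32 + (5 * (T / 32) + 1) - c0))
        (kr60 μ s ζ Pk c₁ c₃e (EE μ s T) (wd μ s T) κ (e + 6 * (T / 32) + T / 32 + (5 * (T / 32) + 1)) (Q + qe) (S + σ) (e + 6 * (T / 32)))
        (kr60 μ s ζ Pk c₁ c₃ (EE μ s T) (wd μ s T) κ (e + 6 * (T / 32) + T / 32 + (5 * (T / 32) + 1)) Q S (e + 6 * (T / 32) + T / 32))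
        (Real.exp 4 * Real.exp (-((6 * (T / 32) : ℕ) : ℝ) ^ c')) (Real.exp (-(ge * EE μ s T))) (Real.exp ((U + 4 * u + 1) * EE μ s T))
        (Lam12 μ s hh M (e + 6 * (T / 32)) (T / 32)) (Lam12 μ s hh M (e + 6 * (T / 32) + T / 32) (5 * (T / 32))) := by
  have h0 := h.c0
  have hc1 := h.c1
  have s0 := h.sl_pos
  have s1 := h.sl_lt
  have hlog2 := Real.log_nonneg (show (1 : ℝ) ≤ 2 by norm_num)
  have hgr := gr_nonneg Pk (show (0 : ℝ) ≤ 32 * 1 + 32 by norm_num)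
  obtain ⟨qe, hqe⟩ : ∃ qe : ℝ, qe = (1 + Real.log 2) ^ P * q * gr Pk (32 * 1 + 32) + 1 := ⟨_, rfl⟩
  have hqe0 : 0 ≤ qe := by rw [hqe]; positivity
  refine ⟨qe, hqe0, fun Q S Q₀ S₀ Λ ge Ku hQ hS hQ₀ hS₀ hΛ hge hKu => ?_⟩
  have hQ0 : 0 ≤ Q := by linarith
  obtain ⟨K', hK'⟩ : ∃ K' : ℝ, K' = 2 + (ge + 2 * u + Q * gr Pk (AQ Pk c₁ Q + 2) + S + cₖ * (2 + Λ)) / c₅ := ⟨_, rfl⟩
  have hgA := gr_nonneg Pk (show 0 ≤ AQ Pk c₁ Q + 2 by have := AQ_nonneg Pk c₁ Q; linarith)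
  have hK'2 : 2 ≤ K' := by
    rw [hK']
    have : 0 ≤ (ge + 2 * u + Q * gr Pk (AQ Pk c₁ Q + 2) + S + cₖ * (2 + Λ)) / c₅ := by positivity
    linarith
  have hK'e : ge + 2 * u + Q * gr Pk (AQ Pk c₁ Q + 2) + S + cₖ * (2 + Λ) ≤ c₅ * (K' - 2) := by
    rw [hK', add_sub_cancel_left, mul_div_cancel₀ _ hc₅.ne']
  refine ⟨K', β * (Ku + 1) + 1 + ge, 32 * (K' + 4), hK'2, by positivity, by positivity, fun G K hG hK => ?_⟩
  obtain ⟨nw, hnw⟩ := eventually_atTop.1 ((wd_tendsto h).eventually_ge_atTop 4)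
  obtain ⟨ne, hne⟩ := eventually_atTop.1 (h.tE.eventually_ge_atTop (Real.log (1 + Real.exp (|s| + 1))))
  obtain ⟨ns, hns1, hns⟩ := sumR83 h hc₂ hσ
  obtain ⟨nx, hnx⟩ := xv24' h (K' + 1) 2
  obtain ⟨ny, hny⟩ := xv24' h 2 Λ
  refine ⟨32 * (nw + 1) + ne + ns + nx + ny, fun T hT h32 κ ζ F hh p M hp hp' hh1 c0 e lo H Z a1 b2 zm he hc0 hzm B1 B2 ha1 hb2 => ?_⟩
  obtain ⟨t, ht⟩ : ∃ t : ℕ, t = T / 32 := ⟨_, rfl⟩
  have hTt : T = 32 * t := by rw [ht]; omega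
  rw [← ht] at B1 B2 hzm ⊢
  obtain ⟨re, hre⟩ : ∃ re : ℕ, re = e + 6 * t := ⟨_, rfl⟩
  rw [← hre] at B1 B2 hzm ⊢
  obtain ⟨a', ha'⟩ : ∃ a' : ℤ, a' = κ.2 + cM24 μ s T := ⟨_, rfl⟩
  obtain ⟨e2, he2⟩ : ∃ e2 : ℤ, e2 = pt24 μ s (((re : ℕ) : ℤ), a') t := ⟨_, rfl⟩
  obtain ⟨E, hEd⟩ : ∃ E : ℝ, E = EE μ s T := ⟨_, rfl⟩
  obtain ⟨w, hwd⟩ : ∃ w : ℝ, w = wd μ s T := ⟨_, rfl⟩
  have F1 := F e he
  rw [← ht, ← ha'] at F1
  have hn1 : 1 ≤ 6 * t := by omega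
  have hw4 : 4 ≤ w := by rw [hwd]; exact hnw T (by omega)
  have hwn4 : 4 ≤ wd μ s (6 * t) := hnw _ (by omega)
  have hC := cmp24 h hn1 (show 6 * t ≤ T by omega) (show T ≤ 16 * (6 * t) by omega) (by linarith only [hwn4])
  have un : Un24 (EE μ s (6 * t)) (wd μ s (6 * t)) E w := by
    rw [hEd, hwd]
    exact ⟨one_le_EE _, by linarith only [hwn4], by rw [← hwd]; linarith only [hw4], hC.e1, hC.e2, hC.a1, hC.a2⟩
  have hE1 := un.E1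
  have hw0 : 0 < w := by linarith only [hw4]
  have hhn : ∀ m : ℕ, m ≤ T → |hh| * m ≤ 1 := fun m hm =>
    (mul_le_mul_of_nonneg_left (by exact_mod_cast hm : (m : ℝ) ≤ T) (abs_nonneg hh)).trans hh1
  have hhh : |hh| ≤ 1 := by
    have := hhn 1 (by omega)
    rwa [Nat.cast_one, mul_one] at this
  have hp0 : ∀ k, 0 < p k := fun k => by
    rcases lt_or_ge k M with h5 | h5
    · rw [hp k h5]; exact Real.exp_pos _
    · rw [hp' k h5]; exact Real.exp_pos _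
  have hpE : ∀ k, 1 + p k ≤ Real.exp E := fun k => by
    have e1 := le_abs_self s
    have e3 := le_abs_self hh
    have e4 : p k ≤ Real.exp (|s| + 1) := by
      rcases lt_or_ge k M with h5 | h5
      · rw [hp k h5]; exact Real.exp_le_exp.2 (by linarith only [e3, e1, hhh])
      · rw [hp' k h5]; exact Real.exp_le_exp.2 (by linarith only [e1])
    have e5 := hne T (by omega)
    rw [← hEd, Real.log_le_iff_le_exp (by positivity)] at e5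
    linarith only [e5, e4]
  have hsum : ∀ (z : ℝ) (J : Finset ℤ), ∑ y ∈ J, Real.exp (-(c₂ * (E / w) * |(y : ℝ) - z|)) ≤ Real.exp (σ * E) := fun z J => by
    rw [hEd, hwd]
    exact hns T (by omega) z J
  have hcw : c / 512 / 64 * (E / w) ≤ E := by
    have e1 : E / w ≤ E := div_le_self (by linarith only [hE1]) (by linarith)
    have e3 : 0 ≤ E / w := by positivity
    nlinarith only [e1, hc₂, hc₁, hE1, hc1, hcc, hc₃e]
  -- places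
  have hre1 : (e : ℤ) + (6 * t : ℕ) = ((re : ℕ) : ℤ) := by rw [hre]; push_cast; ring
  have am : |(a' : ℝ) - ln35 μ s κ re| ≤ 1 := by
    have := am_near24 (μ := μ) (s := s) he
    rw [← ht, ← hre, ← ha'] at this
    exact this
  have e2n : |(e2 : ℝ) - ln35 μ s κ (re + t)| ≤ 2 := by
    have g1 := pt24_near (μ := μ) (s := s) (((re : ℕ) : ℤ), a') t
    rw [← he2] at g1
    have g2 := abs_add_le ((e2 : ℝ) - a' - sl μ s * t) ((a' : ℝ) - ln35 μ s κ re)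
    rw [ln35_add]
    have e1 : (e2 : ℝ) - a' - sl μ s * t + ((a' : ℝ) - ln35 μ s κ re) = (e2 : ℝ) - (ln35 μ s κ re + sl μ s * t) := by ring
    rw [e1] at g2
    have g1' : |(e2 : ℝ) - a' - sl μ s * t| ≤ 1 := g1
    linarith only [g2, g1, am]
  obtain ⟨ρ, hρ⟩ : ∃ ρ : ℝ, ρ = d * wd μ s t := ⟨_, rfl⟩
  have ht1 : 1 ≤ t := by omega
  have hρw : ρ ≤ w := by
    have g1 := Pool.Agent.W_7d29a1_C1.U16.wd_le_two h ht1 (show t ≤ T by omega)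
    rw [← hwd] at g1
    have g2 := h.wd_nonneg t
    rw [hρ]
    nlinarith only [hw4, g1, hd, hd2]
  have hρ0 : 0 ≤ ρ := by
    have g2 := h.wd_nonneg t
    rw [hρ]
    positivity
  have ynear : ∀ y : ℤ, y ∈ Ce24 e2 ρ → |(y : ℝ) - ln35 μ s κ (re + t)| ≤ 2 * w := fun y hy => by
    have g1 := mem_Ce24.1 hy
    have g2 := abs_add_le ((y : ℝ) - e2) ((e2 : ℝ) - ln35 μ s κ (re + t))
    rw [sub_add_sub_cancel] at g2
    linarith only [g2, g1, hρw, e2n, hw4]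
  -- the facts
  have X2 : XO24 μ s ζ (((re : ℕ) : ℤ), a') (6 * t) t (5 * t) e2 ρ U β (c / 2048) (32 * G) K (Real.exp (-((6 * t : ℕ) : ℝ) ^ c')) := by
    have := F1.D.X2
    rw [hre1, ← he2, ← hρ] at this
    exact this
  have V2 : ζ ∈ EVR24 μ s (c / 512) (6 * t) P ((re : ℕ) : ℤ) (((re : ℕ) : ℤ) + (6 * t : ℕ)) (((re : ℕ) : ℤ), a') q := by
    have := F1.V2
    rw [hre1] at this
    exact this
  have r2 : ζ ∈ RowG ((re : ℕ) : ℤ) a' w (u * E) := by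
    have := F1.r2
    rw [hre1, ← hwd, ← hEd] at this
    exact this
  have r3 : ζ ∈ RowG ((re + t : ℕ) : ℤ) e2 w (u * E) := by
    have := F1.r3
    rw [hre1, ← he2, ← hwd, ← hEd] at this
    rw [Nat.cast_add]
    exact this
  -- envelopes
  have lnb : ∀ r : ℕ, ln35 μ s (((re : ℕ) : ℤ), a') r - ln35 μ s κ r = (a' : ℝ) - ln35 μ s κ re := fun r => by
    unfold ln35
    push_cast
    ring
  have en : ∀ (r m : ℕ), re ≤ r → r + m ≤ re + 6 * t → ∀ I J : Finset ℤ,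
      En31 Pk (c / 512 / 64) c₂ E w qe σ (fun x => (x : ℝ) - ln35 μ s κ r) (fun y => (y : ℝ) - ln35 μ s κ (r + m))
        (nk μ s hh ζ p M r m) I J := fun r m h1 h2 I J => by
    rw [hqe]
    exact en_evr24 V2 (by exact_mod_cast h1) (by push_cast; omega) hp hp' s0.le s1.le (hhn m (by omega)) un hq (by positivity) zero_le_one
      (by rw [lnb, one_mul]; linarith only [am, hw4]) hPk hσ.le hsum I J
  have en1 := en re t le_rfl (by omega)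
  have en2 := en (re + t) (5 * t) (by omega) (by omega)
  have hdiv : c / 131072 ≤ c / 512 / 64 := by
    rw [div_div]
    exact div_le_div_of_nonneg_left h0.le (by norm_num) (by norm_num)
  have h35' : c₃ + c₅ ≤ c / 512 / 64 := by
    rw [div_div]
    norm_num
    exact h35
  have hc₃ : 0 ≤ c₃ := hc₃e.trans h3
  have hL1 : 1 ≤ Real.exp ((U + 4 * u + 1) * E) := Real.one_le_exp (by positivity)
  have hA2 := Lam12_pos (μ := μ) (s := s) (h := hh) M re t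
  have hA3 := Lam12_pos (μ := μ) (s := s) (h := hh) M (re + t) (5 * t)
  rw [← ha', ← he2, ← hρ, ← hEd, ← hwd]
  have hya : (e2 - ⌊ρ⌋ : ℤ) ∈ Ce24 e2 ρ := by
    unfold Ce24
    have : (0 : ℤ) ≤ ⌊ρ⌋ := Int.floor_nonneg.2 hρ0
    exact mem_Icc.2 ⟨le_rfl, by omega⟩
  have hyb : (e2 + ⌊ρ⌋ : ℤ) ∈ Ce24 e2 ρ := by
    unfold Ce24
    have : (0 : ℤ) ≤ ⌊ρ⌋ := Int.floor_nonneg.2 hρ0
    exact mem_Icc.2 ⟨by omega, le_rfl⟩
  have hyy : e2 - ⌊ρ⌋ ≤ e2 + ⌊ρ⌋ := by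
    have : (0 : ℤ) ≤ ⌊ρ⌋ := Int.floor_nonneg.2 hρ0
    omega
  obtain ⟨c3, hc3⟩ : ∃ c3 : ℕ, c3 = re + t + (5 * t + 1) := ⟨_, rfl⟩
  rw [← hc3]
  rw [← hc3] at hzm
  -- the window of the future
  obtain ⟨Wz, hWz⟩ : ∃ Wz : ℤ, Wz = ⌈K' * w⌉ + 1 := ⟨_, rfl⟩
  rw [← hWz]
  have hWz1 : K' * w + 1 ≤ (Wz : ℝ) := by
    rw [hWz]
    push_cast
    linarith only [Int.le_ceil (K' * w)]
  have hWz2 : (Wz : ℝ) ≤ K' * w + 2 := by
    rw [hWz]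
    push_cast
    linarith only [Int.ceil_lt_add_one (K' * w)]
  have hKw : 1 ≤ K' * w := by nlinarith only [hK'2, hw4]
  have hWz0 : 0 ≤ Wz := by
    have : (0 : ℝ) ≤ Wz := by linarith only [hWz1, hKw]
    exact_mod_cast this
  have zln : |((zm - Wz : ℤ) : ℝ) - ln35 μ s κ c3| ≤ K' * w + 4 := by
    obtain ⟨m1, m2⟩ := abs_le.1 hzm
    rw [abs_le]
    push_cast
    constructor <;> linarith only [m1, m2, hWz1, hWz2, hKw]
  have zrn : |((zm + Wz : ℤ) : ℝ) - ln35 μ s κ c3| ≤ K' * w + 4 := by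
    obtain ⟨m1, m2⟩ := abs_le.1 hzm
    rw [abs_le]
    push_cast
    constructor <;> linarith only [m1, m2, hWz1, hWz2, hKw]
  have zlt : ∀ z : ℤ, z < zm - Wz → K' * wd μ s T ≤ |(z : ℝ) - ln35 μ s κ c3| := fun z hz => by
    have h1 : (z : ℝ) ≤ zm - Wz - 1 := by exact_mod_cast (by omega : z ≤ zm - Wz - 1)
    have h2 := (abs_le.1 hzm).2
    rw [abs_sub_comm, ← hwd]
    exact le_trans (by linarith only [h1, h2, hWz1]) (le_abs_self _)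
  have zgt : ∀ z : ℤ, zm + Wz < z → K' * wd μ s T ≤ |(z : ℝ) - ln35 μ s κ c3| := fun z hz => by
    have h1 : (zm : ℝ) + Wz + 1 ≤ z := by exact_mod_cast (by omega : zm + Wz + 1 ≤ z)
    have h2 := (abs_le.1 hzm).1
    rw [← hwd]
    exact le_trans (by linarith only [h1, h2, hWz1]) (le_abs_self _)
  have hl3 : |ln35 μ s κ c3 - (a' + sl μ s * ((6 * t : ℕ) : ℝ))| ≤ 2 := by
    have e1 : ln35 μ s κ c3 - (a' + sl μ s * ((6 * t : ℕ) : ℝ)) = (ln35 μ s κ re - a') + sl μ s := by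
      rw [hc3, show re + t + (5 * t + 1) = re + (6 * t + 1) by ring, ln35_add]
      push_cast
      ring
    rw [e1]
    have g1 := abs_add_le (ln35 μ s κ re - a') (sl μ s)
    rw [abs_sub_comm, abs_of_pos s0] at g1
    linarith only [g1, am, s1]
  have cnt : ∀ z : ℤ, |(z : ℝ) - ln35 μ s κ c3| ≤ K' * w + 4 →
      |(z : ℝ) - (a' + sl μ s * ((6 * t : ℕ) : ℝ))| + 1 ≤ K * wd μ s (6 * t) := fun z hz => by
    have g1 := abs_add_le ((z : ℝ) - ln35 μ s κ c3) (ln35 μ s κ c3 - (a' + sl μ s * ((6 * t : ℕ) : ℝ)))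
    rw [sub_add_sub_cancel] at g1
    have g2 := mul_le_mul_of_nonneg_left un.a1 (show 0 ≤ K' + 4 by linarith only [hK'2])
    have g3 := mul_le_mul_of_nonneg_right hK (show 0 ≤ wd μ s (6 * t) by linarith only [hwn4])
    linarith only [g1, g2, g3, hz, hl3, hw4]
  have hK'w : K' * w + 4 ≤ (K' + 1) * wd μ s T := by
    rw [← hwd]
    linarith only [hw4]
  have wty : ∀ y : ℤ, y ∈ Ce24 e2 ρ → wt ζ (re + t) y ≤ Real.exp (2 * u * E) := fun y hy =>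
    (wt_row24 r3 hw0 hu (by linarith only [hE1]) ((mem_Ce24.1 hy).trans hρw)).1
  have cell : ∀ (a y : ℤ), |(a : ℝ) - ln35 μ s κ c0| ≤ Λ * wd μ s T → y ∈ Ce24 e2 ρ → a ≤ y ∧ y ≤ a + ((re + t - c0 : ℕ) : ℤ) :=
    fun a y ha hy => by
    have g1 := ynear y hy
    rw [hwd] at g1
    have e1 : c0 + (re + t - c0) = re + t := by omega
    refine hny T (by omega) (re + t - c0) (by omega) κ c0 a y ha ?_
    rw [e1]
    exact g1
  have hyl : ∀ (a y z : ℤ), |(a : ℝ) - ln35 μ s κ c0| ≤ Λ * wd μ s T → y ∈ Ce24 e2 ρ → K' * wd μ s T ≤ |(z : ℝ) - ln35 μ s κ c3| →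
      kf (wt ζ) p (re + t) (5 * t + 1) y z ≤ Real.exp (-(ge * E)) * Lam12 μ s hh M (re + t) (5 * t) *
        D31.kap31 Pk dₖ cₖ Q₀ S₀ E w (ln35 μ s κ c0) (ln35 μ s κ c3) (c3 - c0) a z := fun a y z ha hy hz => by
    obtain ⟨q1, q2⟩ := cell a y ha hy
    rw [hc3]
    refine yl_24 (c₁ := c₁) (Q := Q) (S := S) (U := 2) (K := K') (Λ := Λ) (u := 2 * u) (c₃ := c₃) (c₅ := c₅) en2 hsum hp0 (hpE _) (by positivity)
      hcw s0.le s1.le (by linarith only [hE1]) hw0 hcₖ hck hc₅.le h35' hS hQ hQ₀ hS₀ (by omega) (ynear y hy) (by rw [hwd, ← hc3]; exact hz)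
      (by rw [hwd]; exact ha) q1 q2 (wty y hy) hK'e
  refine ⟨hA2, hA3, fun x z => kr60_nonneg x z, fun x z => kr60_nonneg x z, B1 a' (by linarith only [am, hw4, hwd]), ⟨(B2 _ ?_).1, (B2 _ ?_).2⟩, ⟨hyy, ?_, ?_, ?_⟩,
    ?_, ?_, ?_, ?_, ?_, ?_, ?_, ?_⟩
  · rw [← hwd]
    exact ynear _ hya
  · rw [← hwd]
    exact ynear _ hyb
  · refine (hnx T (by omega) (5 * t + 1) (by omega) κ (re + t) _ _ (by rw [← hwd]; exact ynear _ hyb) ?_).1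
    rw [← hc3]
    exact zln.trans hK'w
  · omega
  · refine (hnx T (by omega) (5 * t + 1) (by omega) κ (re + t) _ _ (by rw [← hwd]; exact ynear _ hya) ?_).2
    rw [← hc3]
    exact zrn.trans hK'w
  · -- s2
    rw [hc3]
    intro x hx z hz
    exact (s2_24 (m := 5 * t) (Q := Q) (S := S) (lo := lo) (H := H) en1 (by linarith only [hE1]) hw0 hc₁ hc₂.le hc₃e h3 (hcc.trans hdiv) hQ0 Z
      x hx z hz).trans (mul_le_mul_of_nonneg_right (mul_le_mul_of_nonneg_right hL1 hA2.le) (kr60_nonneg x z))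
  · -- l2
    intro v hv
    have ev : v = a' := by rw [mem_Icc] at hv; omega
    rw [ev]
    exact l2_24 X2 hp hp' s0.le s1.le (hhn t (by omega)) hu hU un.e1 hE1 hw0 r2 r3 hρ0
  · -- of
    intro v _ hv1 hv2 z _
    have hvK : |(v : ℝ) - ln35 μ s κ re| ≤ Ku * w := by
      rw [hwd]
      exact mem_w24.1 ⟨hv1, hv2⟩
    have g := of_24 (η := ζ) (p := p) (M := M) (hh := hh) (μ := μ) (s := s) (r := re) (t := t) (m := 5 * t) (P := Pk) (q := qe) (σ := σ) (c₂ := c₂)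
      (c₁ := c₁) (c₃' := c₃e) (c₃ := c₃) (Q := Q) (S := S) (κ := κ) (Kw := Ku) (G' := G - β * (Ku + 1) - 1) (ch := c / 2048 / 64) (Cc := Ce24 e2 ρ)
      (fun v y hv hy => ofn24 X2 hp hp' s0.le s1.le (hhn t (by omega)) un hβ (by positivity) hKu (by linarith only [hG, hge]) (by linarith only [am, hw4]) hv hy)
      hsum hp0 hqe0 hσ.le (by linarith only [hE1]) hw0 hc₁ hc₂.le hc₃e h3 (by
        refine hcc.trans (le_of_eq ?_)
        rw [div_div]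
        norm_num) hQ0 hvK
      (T := (Icc lo (H + (t : ℕ))).filter (fun y => ¬ (e2 - ⌊ρ⌋ ≤ y ∧ y ≤ e2 + ⌊ρ⌋))) (z := z) (fun y hy hc => (mem_filter.1 hy).2 (mem_Icc.1 hc))
    rw [← hc3] at g
    refine g.trans (mul_le_mul_of_nonneg_right (mul_le_mul_of_nonneg_right (Real.exp_le_exp.2 ?_) hA2.le) (kr60_nonneg v z))
    have := mul_le_mul_of_nonneg_right (show ge ≤ G - β * (Ku + 1) - 1 by linarith only [hG]) (show 0 ≤ E by linarith only [hE1])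
    linarith only [this]
  · -- s3
    intro y _ z _
    have g := s3_24 (μ := μ) (s := s) (η := ζ) (P := Pk) (c₁ := c₁) (c₃ := c₃) (Q := Q) (S := S) en2 hsum hp0 (hpE _) (by positivity) hcw s0.le s1.le
      (by linarith only [hE1]) hw0 (by linarith only [h35, hc₅]) hS hQ y z
    rw [← hc3] at g
    refine g.trans ?_
    rw [mul_assoc]
    exact le_mul_of_one_le_left (mul_nonneg hA3.le (kr60_nonneg y z)) hL1
  · -- l3
    intro y hy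
    have e1 : (zm - Wz + (zm + Wz)) / 2 = zm := by omega
    rw [e1]
    refine l3c24 X2 hp hp' s0.le s1.le (hhn (5 * t) (by omega)) hu hU un.e1 hE1 hw0 r3 hρw ?_ hy
    have g2 := abs_add_le ((zm : ℝ) - ln35 μ s κ c3) (ln35 μ s κ c3 - (a' + sl μ s * ((6 * t : ℕ) : ℝ)))
    rw [sub_add_sub_cancel] at g2
    linarith only [g2, hzm, hl3, hwn4]
  · -- cx
    exact cx24 X2 hp hp' (hhn (5 * t + 1) (by omega)) (Real.exp_pos _).le hya hyb hyy (by omega) (cnt _ zln) (cnt _ zrn)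
  · intro z _ hz
    exact hyl a1 _ z ha1 hya (zlt z hz)
  · intro z _ hz
    exact hyl b2 _ z hb2 hyb (zgt z hz)

end

end Pool.Agent.W_7d29a1_C1.P24
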