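import Pool.Agent.W_7d29a1_C1.Box47

/-!
MP_7d29a1_pr, [C1], THE FIRST MEETING IN THE BOX, deterministic part (helper35). `ast w p C T i n x y`: the mass of the paths
`(i, x) → (i + n, y)` which are in `C` at the rows `i + 1, ..., i + T`. `ast_le`: if `Q` contains all the contacts of the rows
`[i + n0, i + T)` whose site is in `C`, then the pairs with the left path in `C` and the right path in `C'` at the first `n0` rows (where
`C` is on the left of `C'`) meet first at a contact of `Q`, up to the pairs without a common site in the rows `[i, i + T]` (`pb`).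
`pb_lgv`: these pairs as determinants.
-/

set_option autoImplicit false

namespace Pool.Agent.W_7d29a1_C1.KM35

open Finset
open Pool.Agent.W_7d29a1_C1.K91 (Grp Box ps2 ps2_congr ps2_add ps2_mul)
open Pool.Agent.W_7d29a1_C1.K91P
open Pool.Agent.W_7d29a1_C1.U16 (ker ker_zero ker_succ ker_nonneg ker_eq_zero ker_congr fw_ker dlt dlt_nonneg)
open Pool.Agent.W_7d29a1_C1.Bx47 (mq mq_zero mq_succ mq_not mq_nonneg mq_le ker_left)

noncomputable section

variable {w : ℕ → ℤ → ℝ} {p : ℕ → ℝ}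

open Classical in
/-- The mass of the paths `(i, x) → (i + n, y)` which are in `C` at the rows `i + 1, ..., i + T`. -/
def ast (w : ℕ → ℤ → ℝ) (p : ℕ → ℝ) (C : ℕ → ℤ → Prop) : ℕ → ℕ → ℕ → ℤ → ℤ → ℝ
  | 0, i, n, x, y => ker w p i n x y
  | _ + 1, _, 0, _, _ => 0
  | T + 1, i, n + 1, x, y => w i x * ((if C (i + 1) x then ast w p C T (i + 1) n x y else 0) +
      p i * (if C (i + 1) (x + 1) then ast w p C T (i + 1) n (x + 1) y else 0))

theorem ast_zero (C : ℕ → ℤ → Prop) (i n : ℕ) (x y : ℤ) : ast w p C 0 i n x y = ker w p i n x y := rfl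

open Classical in
theorem ast_succ (C : ℕ → ℤ → Prop) (T i n : ℕ) (x y : ℤ) : ast w p C (T + 1) i (n + 1) x y =
    w i x * ((if C (i + 1) x then ast w p C T (i + 1) n x y else 0) +
      p i * (if C (i + 1) (x + 1) then ast w p C T (i + 1) n (x + 1) y else 0)) := rfl

theorem ast_nonneg (hw : ∀ k y, 0 < w k y) (hp : ∀ k, 0 < p k) (C : ℕ → ℤ → Prop) : ∀ (T i n : ℕ) (x y : ℤ),
    0 ≤ ast w p C T i n x y
  | 0, i, n, x, y => ker_nonneg hw hp i n x y
  | _ + 1, _, 0, _, _ => le_rfl
  | T + 1, i, n + 1, x, y => by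
    classical
    rw [ast_succ]
    have a1 := ast_nonneg hw hp C T (i + 1) n x y
    have a2 := ast_nonneg hw hp C T (i + 1) n (x + 1) y
    have b1 := hw i x
    have hpk := hp i
    split_ifs <;> positivity

theorem ast_le_ker (hw : ∀ k y, 0 < w k y) (hp : ∀ k, 0 < p k) (C : ℕ → ℤ → Prop) : ∀ (T i n : ℕ) (x y : ℤ),
    ast w p C T i n x y ≤ ker w p i n x y
  | 0, _, _, _, _ => le_rfl
  | _ + 1, i, 0, x, y => ker_nonneg hw hp i 0 x y
  | T + 1, i, n + 1, x, y => by
    classical
    rw [ast_succ, ker_left]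
    have a1 := ast_le_ker hw hp C T (i + 1) n x y
    have a2 := ast_le_ker hw hp C T (i + 1) n (x + 1) y
    have k1 := ker_nonneg (w := w) (p := p) hw hp (i + 1) n x y
    have k2 := ker_nonneg (w := w) (p := p) hw hp (i + 1) n (x + 1) y
    have b1 := hw i x
    have hpk := hp i
    refine mul_le_mul_of_nonneg_left (add_le_add ?_ (mul_le_mul_of_nonneg_left ?_ hpk.le)) b1.le
    · split_ifs
      · exact a1
      · exact k1
    · split_ifs
      · exact a2
      · exact k2

/-- The pairs which do not meet before the row `i + T`, then free. -/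
def nk (w : ℕ → ℤ → ℝ) (p : ℕ → ℝ) (T i n : ℕ) (x x' y y' : ℤ) : ℝ :=
  pb w p (fun u u' => ker w p (i + T) (n - T) u y * ker w p (i + T) (n - T) u' y') i T x x'

theorem nk_nonneg (hw : ∀ k y, 0 < w k y) (hp : ∀ k, 0 < p k) (T i n : ℕ) (x x' y y' : ℤ) : 0 ≤ nk w p T i n x x' y y' :=
  pb_nonneg hw hp (fun _ _ => mul_nonneg (ker_nonneg hw hp _ _ _ _) (ker_nonneg hw hp _ _ _ _)) _ _ _ _

theorem nk_succ (T i n : ℕ) {x x' : ℤ} (h : x < x') (y y' : ℤ) : nk w p (T + 1) i (n + 1) x x' y y' =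
    w i x * w i x' * (nk w p T (i + 1) n x x' y y' + p i * nk w p T (i + 1) n (x + 1) x' y y' +
      p i * nk w p T (i + 1) n x (x' + 1) y y' + p i ^ 2 * nk w p T (i + 1) n (x + 1) (x' + 1) y y') := by
  unfold nk
  rw [pb_succ, if_pos h, show i + (T + 1) = i + 1 + T by ring, show n + 1 - (T + 1) = n - T by omega]

theorem nk_not (T i n : ℕ) {x x' : ℤ} (h : ¬ x < x') (y y' : ℤ) : nk w p T i n x x' y y' = 0 := pb_not _ _ _ h

/-- All the meetings in `C` are contacts of `Q`. -/
theorem ast_ker_le (hw : ∀ k y, 0 < w k y) (hp : ∀ k, 0 < p k) {C : ℕ → ℤ → Prop} {Q : Finset (ℕ × ℤ)} (y y' : ℤ) :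
    ∀ (T i n : ℕ) (x x' : ℤ), x < x' → T ≤ n → (∀ k q, i ≤ k → k < i + T → C (k + 1) q → (k, q) ∈ Q) →
    ast w p C T i n x y * ker w p i n x' y' ≤ mq w p Q i n x x' y y' + nk w p T i n x x' y y'
  | 0, i, n, x, x', hx, _, _ => by
    have h1 : nk w p 0 i n x x' y y' = ker w p i n x y * ker w p i n x' y' := by
      unfold nk
      rw [pb_zero, if_pos hx, add_zero, Nat.sub_zero]
    rw [ast_zero, h1]
    have h2 := mq_nonneg (w := w) (p := p) hw hp Q n i x x' y y'
    linarith
  | T + 1, i, 0, x, x', hx, hT, _ => absurd hT (by omega)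
  | T + 1, i, n + 1, x, x', hx, hT, hQ => by
    classical
    have hQ' : ∀ k q, i + 1 ≤ k → k < i + 1 + T → C (k + 1) q → (k, q) ∈ Q :=
      fun k q h1 h2 h3 => hQ k q (by omega) (by omega) h3
    have b1 := hw i x
    have b2 := hw i x'
    have hpk := hp i
    have k3 := ker_nonneg (w := w) (p := p) hw hp (i + 1) n x' y'
    have k4 := ker_nonneg (w := w) (p := p) hw hp (i + 1) n (x' + 1) y'
    have m1 := mq_nonneg (w := w) (p := p) hw hp Q n (i + 1) x x' y y'
    have m3 := mq_nonneg (w := w) (p := p) hw hp Q n (i + 1) x (x' + 1) y y'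
    have m4 := mq_nonneg (w := w) (p := p) hw hp Q n (i + 1) (x + 1) (x' + 1) y y'
    have n1 := nk_nonneg (w := w) (p := p) hw hp T (i + 1) n x x' y y'
    have n3 := nk_nonneg (w := w) (p := p) hw hp T (i + 1) n x (x' + 1) y y'
    have n4 := nk_nonneg (w := w) (p := p) hw hp T (i + 1) n (x + 1) (x' + 1) y y'
    obtain ⟨A0, hA0⟩ : ∃ A0 : ℝ, A0 = if C (i + 1) x then ast w p C T (i + 1) n x y else 0 := ⟨_, rfl⟩
    obtain ⟨A1, hA1⟩ : ∃ A1 : ℝ, A1 = if C (i + 1) (x + 1) then ast w p C T (i + 1) n (x + 1) y else 0 := ⟨_, rfl⟩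
    -- the four first steps
    have s1 : A0 * ker w p (i + 1) n x' y' ≤ mq w p Q (i + 1) n x x' y y' + nk w p T (i + 1) n x x' y y' := by
      rw [hA0]
      split_ifs
      · exact ast_ker_le hw hp y y' T (i + 1) n x x' hx (by omega) hQ'
      · rw [zero_mul]
        linarith
    have s3 : A0 * ker w p (i + 1) n (x' + 1) y' ≤ mq w p Q (i + 1) n x (x' + 1) y y' + nk w p T (i + 1) n x (x' + 1) y y' := by
      rw [hA0]
      split_ifs
      · exact ast_ker_le hw hp y y' T (i + 1) n x (x' + 1) (by omega) (by omega) hQ'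
      · rw [zero_mul]
        linarith
    have s4 : A1 * ker w p (i + 1) n (x' + 1) y' ≤
        mq w p Q (i + 1) n (x + 1) (x' + 1) y y' + nk w p T (i + 1) n (x + 1) (x' + 1) y y' := by
      rw [hA1]
      split_ifs
      · exact ast_ker_le hw hp y y' T (i + 1) n (x + 1) (x' + 1) (by omega) (by omega) hQ'
      · rw [zero_mul]
        linarith
    have s2 : p i * (A1 * ker w p (i + 1) n x' y') ≤ p i * mq w p Q (i + 1) n (x + 1) x' y y' +
        p i * nk w p T (i + 1) n (x + 1) x' y y' +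
        (if x + 1 = x' ∧ (i, x') ∈ Q then p i * (ker w p (i + 1) n x' y * ker w p (i + 1) n x' y') else 0) := by
      by_cases h1 : x + 1 = x'
      · rw [mq_not Q (i + 1) n (show ¬ x + 1 < x' by omega), nk_not T (i + 1) n (show ¬ x + 1 < x' by omega), mul_zero, add_zero,
          zero_add]
        rw [hA1]
        by_cases h2 : C (i + 1) (x + 1)
        · rw [if_pos h2, if_pos ⟨h1, by rw [← h1]; exact hQ i (x + 1) le_rfl (by omega) h2⟩, h1]
          exact mul_le_mul_of_nonneg_left (mul_le_mul_of_nonneg_right (ast_le_ker hw hp C T (i + 1) n x' y) k3) hpk.le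
        · rw [if_neg h2, zero_mul, mul_zero]
          have c1 := ker_nonneg (w := w) (p := p) hw hp (i + 1) n x' y
          split_ifs
          · positivity
          · exact le_rfl
      · rw [if_neg (fun h => h1 h.1), add_zero, ← mul_add]
        refine mul_le_mul_of_nonneg_left ?_ hpk.le
        rw [hA1]
        split_ifs
        · exact ast_ker_le hw hp y y' T (i + 1) n (x + 1) x' (by omega) (by omega) hQ'
        · rw [zero_mul]
          exact add_nonneg (mq_nonneg hw hp Q n (i + 1) (x + 1) x' y y') (nk_nonneg hw hp T (i + 1) n (x + 1) x' y y')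
    rw [ast_succ, ← hA0, ← hA1, ker_left, mq_succ, if_pos hx, nk_succ T i n hx]
    have t3 := mul_le_mul_of_nonneg_left s3 hpk.le
    have t4 := mul_le_mul_of_nonneg_left s4 (sq_nonneg (p i))
    calc w i x * (A0 + p i * A1) * (w i x' * (ker w p (i + 1) n x' y' + p i * ker w p (i + 1) n (x' + 1) y'))
        = w i x * w i x' * (A0 * ker w p (i + 1) n x' y' + p i * (A1 * ker w p (i + 1) n x' y') +
          p i * (A0 * ker w p (i + 1) n (x' + 1) y') + p i ^ 2 * (A1 * ker w p (i + 1) n (x' + 1) y')) := by ring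
      _ ≤ w i x * w i x' * ((mq w p Q (i + 1) n x x' y y' + p i * mq w p Q (i + 1) n (x + 1) x' y y' +
          p i * mq w p Q (i + 1) n x (x' + 1) y y' + p i ^ 2 * mq w p Q (i + 1) n (x + 1) (x' + 1) y y' +
          (if x + 1 = x' ∧ (i, x') ∈ Q then p i * (ker w p (i + 1) n x' y * ker w p (i + 1) n x' y') else 0)) +
          (nk w p T (i + 1) n x x' y y' + p i * nk w p T (i + 1) n (x + 1) x' y y' +
          p i * nk w p T (i + 1) n x (x' + 1) y y' + p i ^ 2 * nk w p T (i + 1) n (x + 1) (x' + 1) y y')) :=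
        mul_le_mul_of_nonneg_left (by linarith) (by positivity)
      _ = _ := by ring

/-- **THE FIRST MEETING IS IN `Q`**: the left path in `C` at the rows `(i, i + T]`, the right path in `C'` at the rows `(i, i + n0]`. -/
theorem ast_le (hw : ∀ k y, 0 < w k y) (hp : ∀ k, 0 < p k) {C C' : ℕ → ℤ → Prop} {Q : Finset (ℕ × ℤ)} (y y' : ℤ) :
    ∀ (n0 T i n : ℕ) (x x' : ℤ), x < x' → n0 ≤ T → T ≤ n → (∀ k q, i + n0 ≤ k → k < i + T → C (k + 1) q → (k, q) ∈ Q) →
    (∀ k, i < k → k ≤ i + n0 → ∀ q q', C k q → C' k q' → q < q') →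
    ast w p C T i n x y * ast w p C' n0 i n x' y' ≤ mq w p Q i n x x' y y' + nk w p T i n x x' y y'
  | 0, T, i, n, x, x', hx, _, hT, hQ, _ => ast_ker_le hw hp y y' T i n x x' hx hT hQ
  | n0 + 1, 0, i, n, x, x', hx, h0, _, _, _ => absurd h0 (by omega)
  | n0 + 1, T + 1, i, 0, x, x', hx, _, hT, _, _ => absurd hT (by omega)
  | n0 + 1, T + 1, i, n + 1, x, x', hx, h0, hT, hQ, hC => by
    classical
    have hQ' : ∀ k q, i + 1 + n0 ≤ k → k < i + 1 + T → C (k + 1) q → (k, q) ∈ Q :=
      fun k q h1 h2 h3 => hQ k q (by omega) (by omega) h3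
    have hC' : ∀ k, i + 1 < k → k ≤ i + 1 + n0 → ∀ q q', C k q → C' k q' → q < q' :=
      fun k h1 h2 => hC k (by omega) (by omega)
    have b1 := hw i x
    have b2 := hw i x'
    have hpk := hp i
    have key : ∀ z z' : ℤ, (if C (i + 1) z then ast w p C T (i + 1) n z y else 0) *
        (if C' (i + 1) z' then ast w p C' n0 (i + 1) n z' y' else 0) ≤
        mq w p Q (i + 1) n z z' y y' + nk w p T (i + 1) n z z' y y' := by
      intro z z'
      have m1 := mq_nonneg (w := w) (p := p) hw hp Q n (i + 1) z z' y y'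
      have n1 := nk_nonneg (w := w) (p := p) hw hp T (i + 1) n z z' y y'
      by_cases h1 : C (i + 1) z
      · by_cases h2 : C' (i + 1) z'
        · rw [if_pos h1, if_pos h2]
          exact ast_le hw hp y y' n0 T (i + 1) n z z' (hC (i + 1) (by omega) (by omega) z z' h1 h2) (by omega) (by omega) hQ' hC'
        · rw [if_neg h2, mul_zero]
          linarith
      · rw [if_neg h1, zero_mul]
        linarith
    have s1 := key x x'
    have s2 := mul_le_mul_of_nonneg_left (key (x + 1) x') hpk.le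
    have s3 := mul_le_mul_of_nonneg_left (key x (x' + 1)) hpk.le
    have s4 := mul_le_mul_of_nonneg_left (key (x + 1) (x' + 1)) (sq_nonneg (p i))
    have c0 : 0 ≤ (if x + 1 = x' ∧ (i, x') ∈ Q then p i * (ker w p (i + 1) n x' y * ker w p (i + 1) n x' y') else 0) := by
      have c1 := ker_nonneg (w := w) (p := p) hw hp (i + 1) n x' y
      have c2 := ker_nonneg (w := w) (p := p) hw hp (i + 1) n x' y'
      split_ifs
      · positivity
      · exact le_rfl
    rw [ast_succ, ast_succ, mq_succ, if_pos hx, nk_succ T i n hx]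
    obtain ⟨A0, hA0⟩ : ∃ A0 : ℝ, A0 = if C (i + 1) x then ast w p C T (i + 1) n x y else 0 := ⟨_, rfl⟩
    obtain ⟨A1, hA1⟩ : ∃ A1 : ℝ, A1 = if C (i + 1) (x + 1) then ast w p C T (i + 1) n (x + 1) y else 0 := ⟨_, rfl⟩
    obtain ⟨B0, hB0⟩ : ∃ B0 : ℝ, B0 = if C' (i + 1) x' then ast w p C' n0 (i + 1) n x' y' else 0 := ⟨_, rfl⟩
    obtain ⟨B1, hB1⟩ : ∃ B1 : ℝ, B1 = if C' (i + 1) (x' + 1) then ast w p C' n0 (i + 1) n (x' + 1) y' else 0 := ⟨_, rfl⟩
    rw [← hA0, ← hB0] at s1
    rw [← hA1, ← hB0] at s2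
    rw [← hA0, ← hB1] at s3
    rw [← hA1, ← hB1] at s4
    rw [← hA0, ← hA1, ← hB0, ← hB1]
    calc w i x * (A0 + p i * A1) * (w i x' * (B0 + p i * B1))
        = w i x * w i x' * (A0 * B0 + p i * (A1 * B0) + p i * (A0 * B1) + p i ^ 2 * (A1 * B1)) := by ring
      _ ≤ w i x * w i x' * ((mq w p Q (i + 1) n x x' y y' + p i * mq w p Q (i + 1) n (x + 1) x' y y' +
          p i * mq w p Q (i + 1) n x (x' + 1) y y' + p i ^ 2 * mq w p Q (i + 1) n (x + 1) (x' + 1) y y' +
          (if x + 1 = x' ∧ (i, x') ∈ Q then p i * (ker w p (i + 1) n x' y * ker w p (i + 1) n x' y') else 0)) +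
          (nk w p T (i + 1) n x x' y y' + p i * nk w p T (i + 1) n (x + 1) x' y y' +
          p i * nk w p T (i + 1) n x (x' + 1) y y' + p i ^ 2 * nk w p T (i + 1) n (x + 1) (x' + 1) y y')) :=
        mul_le_mul_of_nonneg_left (by linarith) (by positivity)
      _ = _ := by ring

end

end Pool.Agent.W_7d29a1_C1.KM35
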