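import Pool.Agent.W_7d29a1_C1.ParM35
import Pool.Agent.W_7d29a1_C1.ArrM56

/-!
[C1] MEET_d, PAIRS OF BRIDGES (helper35, over `ArrM56` of helper56). `arrM`: the arrow inequality; `par`: parallel pairs, no hypothesis
besides `In`; `meet_c`: all the pairs of bridges with `|x' - x| ≤ d wd T₁`, `|y' - y| ≤ d wd T₁` (common end, common start, crossing pairs
included) have no common site in the rows `0, ..., T₁` with mean quenched probability at most `e`.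
-/

set_option autoImplicit false

namespace Pool.Agent.W_7d29a1_C1.MeetP35

open MeasureTheory ProbabilityTheory Filter Topology Finset
open Pool.Agent.W_7d29a1_F Pool.Agent.W_7d29a1_h4g Pool.Agent.W_7d29a1_H Pool.Agent.W_7d29a1_HS
open Pool.Agent.W_7d29a1_C1.Arr89
open Pool.Agent.W_7d29a1_C1.Arr35 (Tube pQ)
open Pool.Agent.W_7d29a1_C1.Meet35
open Pool.Agent.W_7d29a1_C1.EpK35

noncomputable section

variable {μ : Measure ℝ} {s : ℝ}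

theorem qM_eq56 {κ : Type*} [Fintype κ] [DecidableEq κ] (π : κ → ℕ → ℤ → ℝ) (T : ℕ) (x : κ → ℤ) (Q : (κ → Finset ℕ) → Prop) :
    qM π T x Q = ArrM56.qM π T x Q := rfl

theorem qM_two56 (π : ℕ → ℕ → ℤ → ℝ) (T : ℕ) (x : ℕ → ℤ) (j : ℕ) :
    qM (fun i : Fin 2 => π (j + i)) T (fun i : Fin 2 => x (j + i)) (fun _ => True) =
      ArrM56.p2 (π j) (π (j + 1)) T (x j) (x (j + 1)) := by
  rw [qM_eq56]
  unfold ArrM56.p2
  have e1 : (fun i : Fin 2 => π (j + i)) = ![π j, π (j + 1)] := by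
    funext i
    fin_cases i <;> rfl
  have e2 : (fun i : Fin 2 => x (j + i)) = ![x j, x (j + 1)] := by
    funext i
    fin_cases i <;> rfl
  rw [e1, e2]

/-- **The arrow inequality of monotone families.** -/
theorem arrM : ArrM := by
  intro π h0 h1 hm T N M x hx lo hi
  have hπ : ∀ i j, i ≤ j → ∀ k y, π i k y ≤ π j k y := by
    intro i j hij
    induction hij with
    | refl => exact fun k y => le_rfl
    | step _ ih => exact fun k y => (ih k y).trans (hm _ k y)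
  have h2 := ArrM56.arrM_conf h0 h1 hπ T N M hx lo hi
  rw [sum_congr rfl fun j _ => qM_two56 π T x j]
  exact h2

/-! ### The pair of bridges as a pair of arrow paths -/

theorem PBr_p2 (η : Env) (T₁ T₂ : ℕ) {x y x' y' : ℤ} (h0 : 0 ≤ y - x) (h1 : y - x ≤ ((T₁ + T₂ : ℕ) : ℤ)) (h0' : 0 ≤ y' - x')
    (h1' : y' - x' ≤ ((T₁ + T₂ : ℕ) : ℤ)) :
    PBr μ s η T₁ T₂ x y x' y' = ArrM56.p2 (fld μ s η T₁ T₂ y) (fld μ s η T₁ T₂ y') T₁ x x' := by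
  rw [ArrM56.p2_pairs]
  unfold PBr PP
  refine sum_congr rfl fun p hp => ?_
  obtain ⟨h2, -⟩ := mem_filter.1 hp
  obtain ⟨h4, h5⟩ := mem_product.1 h2
  rw [PX_fld η T₁ T₂ y h0 h1 (mem_powerset.1 h4), PX_fld η T₁ T₂ y' h0' h1' (mem_powerset.1 h5)]

/-- **Monotonicity of the pair of bridges.** -/
theorem PBr_mono (η : Env) (T₁ T₂ : ℕ) {x y x' y' x₁ y₁ x₁' y₁' : ℤ} (hx : x ≤ x') (hx1 : x₁ ≤ x) (hy1 : y₁ ≤ y) (hx1' : x' ≤ x₁')
    (hy1' : y' ≤ y₁') (h0 : 0 ≤ y - x) (h1 : y - x ≤ ((T₁ + T₂ : ℕ) : ℤ)) (h0' : 0 ≤ y' - x') (h1' : y' - x' ≤ ((T₁ + T₂ : ℕ) : ℤ))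
    (g0 : 0 ≤ y₁ - x₁) (g1 : y₁ - x₁ ≤ ((T₁ + T₂ : ℕ) : ℤ)) (g0' : 0 ≤ y₁' - x₁') (g1' : y₁' - x₁' ≤ ((T₁ + T₂ : ℕ) : ℤ)) :
    PBr μ s η T₁ T₂ x y x' y' ≤ PBr μ s η T₁ T₂ x₁ y₁ x₁' y₁' := by
  rw [PBr_p2 η T₁ T₂ h0 h1 h0' h1', PBr_p2 η T₁ T₂ g0 g1 g0' g1']
  exact ArrM56.pair_le (fun k z => fld_nonneg _ _ _ _ _ _) (fun k z => fld_le_one _ _ _ _ _ _) (fun k z => fld_nonneg _ _ _ _ _ _)
    (fun k z => fld_le_one _ _ _ _ _ _) (fun k z => fld_nonneg _ _ _ _ _ _) (fun k z => fld_le_one _ _ _ _ _ _)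
    (fun k z => fld_nonneg _ _ _ _ _ _) (fun k z => fld_le_one _ _ _ _ _ _) (fun k z => fld_mono η T₁ T₂ hy1 k z)
    (fun k z => fld_mono η T₁ T₂ hy1' k z) hx hx1 hx1'

theorem PP_swap (η : Env) (g g' : ℤ → ℝ) (T : ℕ) (x x' : ℤ) : PP μ s η g g' T x x' = PP μ s η g' g T x' x := by
  unfold PP
  refine sum_nbij' (fun p => (p.2, p.1)) (fun p => (p.2, p.1)) ?_ ?_ (fun _ _ => rfl) (fun _ _ => rfl) (fun _ _ => mul_comm _ _)
  · intro p hp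
    obtain ⟨h2, h3⟩ := mem_filter.1 hp
    obtain ⟨h4, h5⟩ := mem_product.1 h2
    exact mem_filter.2 ⟨mem_product.2 ⟨h5, h4⟩, h3.symm⟩
  · intro p hp
    obtain ⟨h2, h3⟩ := mem_filter.1 hp
    obtain ⟨h4, h5⟩ := mem_product.1 h2
    exact mem_filter.2 ⟨mem_product.2 ⟨h5, h4⟩, h3.symm⟩

theorem PBr_swap (η : Env) (T₁ T₂ : ℕ) (x y x' y' : ℤ) : PBr μ s η T₁ T₂ x y x' y' = PBr μ s η T₁ T₂ x' y' x y := PP_swap _ _ _ _ _ _

variable [IsProbabilityMeasure μ] {c C : ℝ} {n₀ : ℕ}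

/-- **PARALLEL PAIRS**, no hypothesis. -/
theorem par (h : In μ s c C n₀) {K B e : ℝ} (hK : 0 ≤ K) (hB : 0 ≤ B) (he : 0 < e) : ∃ d : ℝ, 0 < d ∧ ∃ n₁ : ℕ,
    ∀ T₁ T₂ : ℕ, n₁ ≤ T₁ → (T₂ : ℝ) ≤ B * T₁ → ∀ r : ℕ, (r : ℝ) ≤ d * wd μ s T₁ →
    ∀ y : ℤ, |(y : ℝ) - sl μ s * ((T₁ + T₂ : ℕ) : ℝ)| ≤ K * wd μ s T₁ → ∫ η, PBr μ s η T₁ T₂ 0 y r (y + r) ∂(law μ) ≤ e :=
  parM h arrM hK hB he

/-- **MEET_d, PAIRS OF BRIDGES**: all the pairs with near starts and near ends. -/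
theorem meet_c (h : In μ s c C n₀) {K B e : ℝ} (hK : 0 ≤ K) (hB : 0 ≤ B) (he : 0 < e) : ∃ d : ℝ, 0 < d ∧ ∃ n₁ : ℕ,
    ∀ T₁ T₂ : ℕ, n₁ ≤ T₁ → (T₂ : ℝ) ≤ B * T₁ → ∀ x y x' y' : ℤ, |((x' - x : ℤ) : ℝ)| ≤ d * wd μ s T₁ →
    |((y' - y : ℤ) : ℝ)| ≤ d * wd μ s T₁ → |((y - x : ℤ) : ℝ) - sl μ s * ((T₁ + T₂ : ℕ) : ℝ)| ≤ K * wd μ s T₁ →
    ∫ η, PBr μ s η T₁ T₂ x y x' y' ∂(law μ) ≤ e := by
  obtain ⟨d₀, hd₀, n1, hpar⟩ := par h (show 0 ≤ K + 3 by linarith) hB he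
  obtain ⟨D, hD, n2, hep⟩ := ep_K h (show 0 ≤ 2 * (K + 3) by linarith)
  obtain ⟨d, hd⟩ : ∃ d : ℝ, d = min d₀ 1 := ⟨_, rfl⟩
  have hd0 : 0 < d := by rw [hd]; exact lt_min hd₀ one_pos
  have hdd : d ≤ d₀ := by rw [hd]; exact min_le_left _ _
  have hd1 : d ≤ 1 := by rw [hd]; exact min_le_right _ _
  refine ⟨d, hd0, max (max n1 n2) 1, fun T₁ T₂ hT hT2 => ?_⟩
  have hTn1 : n1 ≤ T₁ := (le_max_left _ _).trans ((le_max_left _ _).trans hT)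
  have hTn2 : n2 ≤ T₁ := (le_max_right _ _).trans ((le_max_left _ _).trans hT)
  have hT1 : 1 ≤ T₁ := (le_max_right _ _).trans hT
  have hw1 := h.wd_pos hT1
  have hTT : T₁ ≤ T₁ + T₂ := Nat.le_add_right _ _
  have hw2 := wd_le_two h hT1 hTT
  have hdw : d * wd μ s T₁ ≤ wd μ s T₁ := by
    have := mul_le_mul_of_nonneg_right hd1 hw1.le
    linarith
  -- displacements in the cone
  have hrch : ∀ u : ℤ, |(u : ℝ) - sl μ s * ((T₁ + T₂ : ℕ) : ℝ)| ≤ (K + 3) * wd μ s T₁ → 0 ≤ u ∧ u ≤ ((T₁ + T₂ : ℕ) : ℤ) := by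
    intro u hu
    have h2 : |(u : ℝ) - sl μ s * ((T₁ + T₂ : ℕ) : ℝ)| ≤ 2 * (K + 3) * wd μ s (T₁ + T₂) := by
      have h3 := mul_le_mul_of_nonneg_left hw2 (show 0 ≤ K + 3 by linarith)
      linarith
    obtain ⟨q1, q2, -⟩ := hep (T₁ + T₂) (hTn2.trans hTT) u h2
    exact ⟨q1, q2⟩
  -- starts in order
  have key : ∀ x y x' y' : ℤ, x ≤ x' → ((x' - x : ℤ) : ℝ) ≤ d * wd μ s T₁ → |((y' - y : ℤ) : ℝ)| ≤ d * wd μ s T₁ →
      |((y - x : ℤ) : ℝ) - sl μ s * ((T₁ + T₂ : ℕ) : ℝ)| ≤ (K + 2) * wd μ s T₁ →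
      |((y' - x' : ℤ) : ℝ) - sl μ s * ((T₁ + T₂ : ℕ) : ℝ)| ≤ (K + 2) * wd μ s T₁ →
      ∫ η, PBr μ s η T₁ T₂ x y x' y' ∂(law μ) ≤ e := by
    intro x y x' y' hx hx' hy' hyx hyx'
    obtain ⟨y₁, hy₁⟩ : ∃ y₁ : ℤ, y₁ = min y y' := ⟨_, rfl⟩
    have a1 : y₁ ≤ y := by rw [hy₁]; exact min_le_left _ _
    have a2 : y₁ ≤ y' := by rw [hy₁]; exact min_le_right _ _
    obtain ⟨r, hr⟩ : ∃ r : ℕ, (r : ℤ) = max (x' - x) (y' - y₁) := ⟨(max (x' - x) (y' - y₁)).toNat, Int.toNat_of_nonneg (le_max_of_le_left (by omega))⟩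
    have b1 : x' - x ≤ r := by rw [hr]; exact le_max_left _ _
    have b2 : y' - y₁ ≤ r := by rw [hr]; exact le_max_right _ _
    have hy'' := abs_le.1 hy'
    push_cast at hy''
    have c1 : ((y' - y₁ : ℤ) : ℝ) ≤ d * wd μ s T₁ := by
      rcases min_choice y y' with h3 | h3
      · rw [hy₁, h3]
        push_cast
        linarith [hy''.2]
      · rw [hy₁, h3, sub_self, Int.cast_zero]
        positivity
    have hrR : (r : ℝ) ≤ d * wd μ s T₁ := by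
      have h3 : ((r : ℤ) : ℝ) ≤ d * wd μ s T₁ := by
        rw [hr]
        rcases max_choice (x' - x) (y' - y₁) with h4 | h4
        · rw [h4]
          exact hx'
        · rw [h4]
          exact c1
      rwa [Int.cast_natCast] at h3
    have c2 : |((y₁ - x : ℤ) : ℝ) - sl μ s * ((T₁ + T₂ : ℕ) : ℝ)| ≤ (K + 3) * wd μ s T₁ := by
      have h3 := abs_le.1 hyx
      push_cast at h3
      have h4 : (y : ℝ) - d * wd μ s T₁ ≤ y₁ := by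
        rcases min_choice y y' with h3 | h3
        · rw [hy₁, h3]
          linarith [mul_pos hd0 hw1]
        · rw [hy₁, h3]
          linarith [hy''.1]
      have h5 : (y₁ : ℝ) ≤ y := by exact_mod_cast a1
      rw [abs_le]
      push_cast
      constructor <;> linarith [h3.1, h3.2]
    obtain ⟨p0, p1⟩ := hrch (y - x) (hyx.trans (mul_le_mul_of_nonneg_right (by linarith) hw1.le))
    obtain ⟨p0', p1'⟩ := hrch (y' - x') (hyx'.trans (mul_le_mul_of_nonneg_right (by linarith) hw1.le))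
    obtain ⟨q0, q1⟩ := hrch (y₁ - x) c2
    have h6 := hpar T₁ T₂ hTn1 hT2 r (hrR.trans (mul_le_mul_of_nonneg_right hdd hw1.le)) (y₁ - x) c2
    refine le_trans ?_ h6
    have e1 : y₁ + r - x = y₁ - x + r := by ring
    have h7 := int_PBr (μ := μ) (s := s) T₁ T₂ x y₁ (x + r) (y₁ + r)
    rw [add_sub_cancel_left, e1] at h7
    rw [← h7]
    refine integral_mono (int_01 (measurable_PBr T₁ T₂ _ _ _ _) (fun η => PBr_nonneg η T₁ T₂ _ _ _ _) (fun η => PBr_le_one η T₁ T₂ _ _ _ _))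
      (int_01 (measurable_PBr T₁ T₂ _ _ _ _) (fun η => PBr_nonneg η T₁ T₂ _ _ _ _) (fun η => PBr_le_one η T₁ T₂ _ _ _ _)) fun η => ?_
    exact PBr_mono η T₁ T₂ hx le_rfl a1 (by omega) (by omega) p0 p1 p0' p1' q0 q1 (by omega) (by omega)
  intro x y x' y' hx hy hyx
  have hx2 := abs_le.1 hx
  have hy2 := abs_le.1 hy
  have hyx2 := abs_le.1 hyx
  push_cast at hx2 hy2 hyx2
  have hK1 : K * wd μ s T₁ ≤ (K + 2) * wd μ s T₁ := mul_le_mul_of_nonneg_right (by linarith) hw1.le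
  have hyx' : |((y' - x' : ℤ) : ℝ) - sl μ s * ((T₁ + T₂ : ℕ) : ℝ)| ≤ (K + 2) * wd μ s T₁ := by
    rw [abs_le]
    push_cast
    constructor <;> linarith [hx2.1, hx2.2, hy2.1, hy2.2, hyx2.1, hyx2.2]
  rcases le_total x x' with h1 | h1
  · refine key x y x' y' h1 ?_ hy (hyx.trans hK1) hyx'
    push_cast
    exact hx2.2
  · simp_rw [PBr_swap _ T₁ T₂ x y x' y']
    refine key x' y' x y h1 ?_ ?_ hyx' (hyx.trans hK1)
    · push_cast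
      linarith [hx2.1]
    · push_cast
      rw [abs_sub_comm]
      rw [abs_le]
      exact hy2

end

end Pool.Agent.W_7d29a1_C1.MeetP35
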