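import Pool.Agent.W_7d29a1_C1.Rank26B
import Pool.Agent.W_7d29a1_HZ.Defs

/-!
Both halves (MP_7d29a1_pr), attractor route [C1]: LGV FOR PATHS AND THE CROSS RATIO. (helper26)

* `lgv` : the minor of the slab kernel is the weight of the pairs of paths without common site in the rows `0, ..., n`;
* `lgv_gp` : the same with the laws `gp` of the polymers with two fixed ends;
* `minor_le`, `CR_of_pairs` : **the cross ratio is at most `1 + 2 p` if two polymers `x → y`, `x' → y'` have no common site (in any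
  set of rows) with quenched probability at most `p`**; every row `r` (`kW_row`); for the rows of `K91` : `CR_kf` of `Rank26B`;
* `tv_det` : the minor from total variation at one row : no meeting of the pair itself is needed.
-/

set_option autoImplicit false
set_option linter.unusedSectionVars false

namespace Pool.Agent.W_7d29a1_C1.R26

open Finset MeasureTheory Pool.Agent.W_7d29a1_F Pool.Agent.W_7d29a1_C1.Gini76 Pool.Agent.W_7d29a1_C1.CR76
  Pool.Agent.W_7d29a1_C1.Basin76
open Pool.Agent.W_7d29a1_X (pos pth pos_nonneg pos_le pos_zero pos_insert pos_insert_succ pos_succ_of pth_nonneg pth_succ_of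
  pth_succ_insert)
open Pool.Agent.W_7d29a1_HZ (gp)

noncomputable section

variable {μ : Measure ℝ} {s : ℝ}

/-! ### Pairs of paths without common site -/

/-- The paths `S` from `x` and `S'` from `x'` have no common site in the rows `0, ..., n`. -/
def DJ (n : ℕ) (x x' : ℤ) (S S' : Finset ℕ) : Prop := ∀ k, k ≤ n → x + pos S k ≠ x' + pos S' k

open Classical in
/-- The weight of the pairs of paths `x → z`, `x' → z'` without common site in the rows `0, ..., n`. -/
def aw (μ : Measure ℝ) (s : ℝ) (η : Env) (n : ℕ) (x x' z z' : ℤ) : ℝ :=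
  ∑ S ∈ (range n).powerset, ∑ S' ∈ (range n).powerset,
    if x + pos S n = z ∧ x' + pos S' n = z' ∧ DJ n x x' S S' then
      pth μ s (sh (0, x) η) n S * pth μ s (sh (0, x') η) n S' else 0

theorem sum2_insert (n : ℕ) (G : Finset ℕ → Finset ℕ → ℝ) :
    ∑ S ∈ (range (n + 1)).powerset, ∑ S' ∈ (range (n + 1)).powerset, G S S' =
      ∑ S ∈ (range n).powerset, ∑ S' ∈ (range n).powerset,
        (G S S' + G S (insert n S') + G (insert n S) S' + G (insert n S) (insert n S')) := by
  have e : ∀ H : Finset ℕ → ℝ, ∑ S ∈ (range (n + 1)).powerset, H S =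
      ∑ S ∈ (range n).powerset, (H S + H (insert n S)) := by
    intro H
    rw [range_add_one, sum_powerset_insert (by simp), sum_add_distrib]
  rw [e]
  refine sum_congr rfl fun S _ => ?_
  rw [e, e, ← sum_add_distrib]
  exact sum_congr rfl fun S' _ => by ring

/-- the weight of a site of the row `n + 1` -/
def cz (μ : Measure ℝ) (s : ℝ) (η : Env) (n : ℕ) (z : ℤ) : ℝ := Real.exp (η ((n : ℤ) + 1, z)) * Real.exp (-lam μ s)

theorem sh_site (η : Env) (n : ℕ) (x u : ℤ) : sh (0, x) η ((n : ℤ) + 1, u) = η ((n : ℤ) + 1, x + u) := by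
  show η (((n : ℤ) + 1, u) + (0, x)) = _
  congr 1
  refine Prod.ext ?_ ?_
  · show (n : ℤ) + 1 + 0 = (n : ℤ) + 1
    ring
  · show u + x = x + u
    ring

theorem pth_zero_step (η : Env) (x : ℤ) {n : ℕ} {S : Finset ℕ} (h : S ⊆ range n) :
    pth μ s (sh (0, x) η) (n + 1) S = cz μ s η n (x + (pos S n + 0)) * (1 * pth μ s (sh (0, x) η) n S) := by
  rw [pth_succ_of _ h, sh_site]
  unfold cz
  rw [add_zero, one_mul]

theorem pth_one_step (η : Env) (x : ℤ) {n : ℕ} {S : Finset ℕ} (h : S ⊆ range n) :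
    pth μ s (sh (0, x) η) (n + 1) (insert n S) =
      cz μ s η n (x + (pos S n + 1)) * (Real.exp s * pth μ s (sh (0, x) η) n S) := by
  rw [pth_succ_insert _ h, sh_site]
  rfl

open Classical in
theorem aw_term (η : Env) {n : ℕ} {x x' z z' : ℤ} {S S' T T' : Finset ℕ} {a a' : ℤ} {α α' : ℝ}
    (hT : pos T (n + 1) = pos S n + a) (hT' : pos T' (n + 1) = pos S' n + a')
    (hk : ∀ k, k ≤ n → pos T k = pos S k) (hk' : ∀ k, k ≤ n → pos T' k = pos S' k)
    (hw : pth μ s (sh (0, x) η) (n + 1) T = cz μ s η n (x + (pos S n + a)) * (α * pth μ s (sh (0, x) η) n S))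
    (hw' : pth μ s (sh (0, x') η) (n + 1) T' = cz μ s η n (x' + (pos S' n + a')) * (α' * pth μ s (sh (0, x') η) n S')) :
    (if x + pos T (n + 1) = z ∧ x' + pos T' (n + 1) = z' ∧ DJ (n + 1) x x' T T' then
      pth μ s (sh (0, x) η) (n + 1) T * pth μ s (sh (0, x') η) (n + 1) T' else 0) =
    (if z = z' then 0 else cz μ s η n z * cz μ s η n z') * ((α * α') *
      (if x + pos S n = z - a ∧ x' + pos S' n = z' - a' ∧ DJ n x x' S S' then
        pth μ s (sh (0, x) η) n S * pth μ s (sh (0, x') η) n S' else 0)) := by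
  have hD : DJ (n + 1) x x' T T' ↔ DJ n x x' S S' ∧ x + (pos S n + a) ≠ x' + (pos S' n + a') := by
    constructor
    · intro h
      refine ⟨fun k hk1 => ?_, ?_⟩
      · have := h k (by omega)
        rwa [hk k hk1, hk' k hk1] at this
      · have := h (n + 1) le_rfl
        rwa [hT, hT'] at this
    · rintro ⟨h1, h2⟩ k hk1
      rcases Nat.lt_or_ge k (n + 1) with h3 | h3
      · rw [hk k (by omega), hk' k (by omega)]
        exact h1 k (by omega)
      · have : k = n + 1 := by omega
        rw [this, hT, hT']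
        exact h2
  by_cases h1 : x + (pos S n + a) = z ∧ x' + (pos S' n + a') = z' ∧ DJ n x x' S S'
  · obtain ⟨e1, e2, h3⟩ := h1
    by_cases hz : z = z'
    · rw [if_neg fun h => (hD.1 h.2.2).2 (by rw [e1, e2, hz]), if_pos hz, zero_mul]
    · rw [if_pos ⟨by rw [hT]; exact e1, by rw [hT']; exact e2, hD.2 ⟨h3, by rw [e1, e2]; exact hz⟩⟩, if_neg hz,
        if_pos ⟨by linarith, by linarith, h3⟩, hw, hw', e1, e2]
      ring
  · have e2 : (if x + pos S n = z - a ∧ x' + pos S' n = z' - a' ∧ DJ n x x' S S' then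
        pth μ s (sh (0, x) η) n S * pth μ s (sh (0, x') η) n S' else 0) = 0 :=
      if_neg fun h => h1 ⟨by linarith [h.1], by linarith [h.2.1], h.2.2⟩
    rw [if_neg fun h => h1 ⟨by rw [← hT]; exact h.1, by rw [← hT']; exact h.2.1, (hD.1 h.2.2).1⟩, e2, mul_zero,
      mul_zero]

/-- The recursion of the pairs. -/
theorem aw_succ (η : Env) (n : ℕ) (x x' z z' : ℤ) :
    aw μ s η (n + 1) x x' z z' = (if z = z' then 0 else cz μ s η n z * cz μ s η n z') *
      (aw μ s η n x x' z z' + Real.exp s * aw μ s η n x x' z (z' - 1) + Real.exp s * aw μ s η n x x' (z - 1) z' +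
        Real.exp s * Real.exp s * aw μ s η n x x' (z - 1) (z' - 1)) := by
  classical
  unfold aw
  rw [sum2_insert]
  simp only [mul_add, mul_sum]
  simp only [← sum_add_distrib]
  refine sum_congr rfl fun S hS => sum_congr rfl fun S' hS' => ?_
  rw [mem_powerset] at hS hS'
  have p0 : pos S (n + 1) = pos S n + 0 := by rw [pos_succ_of hS, add_zero]
  have p0' : pos S' (n + 1) = pos S' n + 0 := by rw [pos_succ_of hS', add_zero]
  have p1 : pos (insert n S) (n + 1) = pos S n + 1 := pos_insert_succ hS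
  have p1' : pos (insert n S') (n + 1) = pos S' n + 1 := pos_insert_succ hS'
  have k0 : ∀ k, k ≤ n → pos S k = pos S k := fun _ _ => rfl
  have k0' : ∀ k, k ≤ n → pos S' k = pos S' k := fun _ _ => rfl
  have k1 : ∀ k, k ≤ n → pos (insert n S) k = pos S k := fun k hk => pos_insert hk
  have k1' : ∀ k, k ≤ n → pos (insert n S') k = pos S' k := fun k hk => pos_insert hk
  rw [aw_term η p0 p0' k0 k0' (pth_zero_step η x hS) (pth_zero_step η x' hS'),
    aw_term η p0 p1' k0 k1' (pth_zero_step η x hS) (pth_one_step η x' hS'),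
    aw_term η p1 p0' k1 k0' (pth_one_step η x hS) (pth_zero_step η x' hS'),
    aw_term η p1 p1' k1 k1' (pth_one_step η x hS) (pth_one_step η x' hS')]
  simp only [sub_zero]
  ring

/-- **LGV.** -/
theorem lgv (η : Env) {x x' : ℤ} (hx : x < x') : ∀ (n : ℕ) {z z' : ℤ}, z ≤ z' →
    NIk (kW μ s η 0 n) x x' z z' = aw μ s η n x x' z z'
  | 0, z, z', hz => by
    classical
    have e : ∀ u v : ℤ, kW μ s η 0 0 u v = if v = u then 1 else 0 := by
      intro u v
      unfold kW W WR
      show _ * (if v - u = 0 then (1 : ℝ) else 0) = _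
      by_cases h : v = u
      · subst h
        simp
      · rw [if_neg h, if_neg (by omega), mul_zero]
    unfold NIk aw
    rw [e, e, e, e, range_zero, powerset_empty, sum_singleton, sum_singleton]
    have p1 : pth μ s (sh (0, x) η) 0 ∅ = 1 := by
      unfold pth
      simp [pos]
    have p2 : pth μ s (sh (0, x') η) 0 ∅ = 1 := by
      unfold pth
      simp [pos]
    rw [p1, p2, pos_zero, add_zero, add_zero, mul_one]
    by_cases h1 : z = x
    · subst h1
      rw [if_neg (show ¬ z = x' by omega), mul_zero, sub_zero, if_pos rfl, one_mul]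
      by_cases h2 : z' = x'
      · rw [if_pos h2, if_pos ⟨rfl, h2.symm, fun k hk => by
          have : k = 0 := by omega
          subst this
          rw [pos_zero, add_zero, add_zero]
          omega⟩]
      · rw [if_neg h2, if_neg fun h => h2 h.2.1.symm]
    · rw [if_neg h1, zero_mul, if_neg (show ¬ (x = z ∧ _ ∧ _) from fun h => h1 h.1.symm)]
      by_cases h2 : z = x'
      · rw [if_neg (show ¬ z' = x by omega), zero_mul, sub_zero]
      · rw [if_neg h2, mul_zero, sub_zero]
  | n + 1, z, z', hz => by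
    rw [aw_succ]
    rcases eq_or_lt_of_le hz with h | h
    · rw [if_pos h, zero_mul, h]
      unfold NIk
      ring
    · rw [if_neg h.ne, ← lgv η hx n hz, ← lgv η hx n (show z ≤ z' - 1 by omega), ← lgv η hx n (show z - 1 ≤ z' by omega),
        ← lgv η hx n (show z - 1 ≤ z' - 1 by omega)]
      unfold NIk cz
      rw [kW_succ, kW_succ, kW_succ, kW_succ, zero_add]
      ring

/-! ### The laws of the polymers with fixed ends -/

theorem W_kW (η : Env) (n : ℕ) (x y : ℤ) : W μ s (sh (0, x) η) 0 n (y - x) = kW μ s η 0 n x y := by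
  unfold kW
  rw [W_sh, zero_add]

open Classical in
/-- The quenched probability of the pairs without common site. -/
theorem lgv_gp (η : Env) {n : ℕ} {x x' y y' : ℤ} (hx : x < x') (hy : y ≤ y') (h1 : x ≤ y) (h2 : y ≤ x + n)
    (h3 : x' ≤ y') (h4 : y' ≤ x' + n) :
    NIk (kW μ s η 0 n) x x' y y' =
      (∑ S ∈ (range n).powerset, ∑ S' ∈ (range n).powerset, gp μ s (sh (0, x) η) n (y - x) S *
        gp μ s (sh (0, x') η) n (y' - x') S' * (if DJ n x x' S S' then 1 else 0)) *
        (kW μ s η 0 n x y * kW μ s η 0 n x' y') := by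
  have q1 : kW μ s η 0 n x y ≠ 0 := (kW_pos η 0 h1 h2).ne'
  have q2 : kW μ s η 0 n x' y' ≠ 0 := (kW_pos η 0 h3 h4).ne'
  rw [lgv η hx n hy]
  unfold aw
  rw [sum_mul]
  refine sum_congr rfl fun S _ => ?_
  rw [sum_mul]
  refine sum_congr rfl fun S' _ => ?_
  unfold gp
  rw [W_kW, W_kW]
  by_cases a1 : pos S n = y - x
  · by_cases a2 : pos S' n = y' - x'
    · rw [if_pos a1, if_pos a2]
      by_cases a3 : DJ n x x' S S'
      · rw [if_pos a3, if_pos ⟨by omega, by omega, a3⟩]
        field_simp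
      · rw [if_neg a3, if_neg fun h => a3 h.2.2]
        ring
    · rw [if_neg a2, if_neg fun h => a2 (by omega)]
      ring
  · rw [if_neg a1, if_neg fun h => a1 (by omega)]
    ring

theorem gp_nn26 (η : Env) (n : ℕ) (y : ℤ) (S : Finset ℕ) : 0 ≤ gp μ s η n y S := by
  unfold gp
  split_ifs
  · exact div_nonneg (pth_nonneg _ _ _) (W_nonneg η 0 n y)
  · exact le_rfl

open Classical in
/-- The minor is at most the quenched probability of any larger event of the pair. -/
theorem minor_le (η : Env) {n : ℕ} {x x' y y' : ℤ} (hx : x < x') (hy : y ≤ y') (h1 : x ≤ y) (h2 : y ≤ x + n)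
    (h3 : x' ≤ y') (h4 : y' ≤ x' + n) (A : Finset ℕ → Finset ℕ → Prop) (hA : ∀ S S', DJ n x x' S S' → A S S') {p : ℝ}
    (hp : ∑ S ∈ (range n).powerset, ∑ S' ∈ (range n).powerset, gp μ s (sh (0, x) η) n (y - x) S *
        gp μ s (sh (0, x') η) n (y' - x') S' * (if A S S' then 1 else 0) ≤ p) :
    NIk (kW μ s η 0 n) x x' y y' ≤ p * (kW μ s η 0 n x y * kW μ s η 0 n x' y') := by
  rw [lgv_gp η hx hy h1 h2 h3 h4]
  refine mul_le_mul_of_nonneg_right (le_trans (sum_le_sum fun S _ => sum_le_sum fun S' _ => ?_) hp)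
    (mul_nonneg (kW_nonneg η 0 n x y) (kW_nonneg η 0 n x' y'))
  refine mul_le_mul_of_nonneg_left ?_ (mul_nonneg (gp_nn26 _ _ _ _) (gp_nn26 _ _ _ _))
  by_cases h : DJ n x x' S S'
  · rw [if_pos h, if_pos (hA S S' h)]
  · rw [if_neg h]
    split_ifs <;> norm_num

open Classical in
/-- **The cross ratio from the pairs of paths.** -/
theorem CR_of_pairs (η : Env) {n : ℕ} {x x' y y' : ℤ} (hx : x < x') (hy : y ≤ y') (h1 : x' ≤ y) (h2 : y' ≤ x + n)
    (A : Finset ℕ → Finset ℕ → Prop) (hA : ∀ S S', DJ n x x' S S' → A S S') {p : ℝ} (p0 : 0 ≤ p) (p1 : p ≤ 1 / 2)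
    (hp : ∑ S ∈ (range n).powerset, ∑ S' ∈ (range n).powerset, gp μ s (sh (0, x) η) n (y - x) S *
        gp μ s (sh (0, x') η) n (y' - x') S' * (if A S S' then 1 else 0) ≤ p) :
    CR (kW μ s η 0 n) x x' y y' ≤ 1 + 2 * p := by
  have h := minor_le η hx hy (by omega) (by omega) (by omega) (by omega) A hA hp
  exact (CR_le_of_NM (kW_pos η 0 (by omega) (by omega)) (kW_pos η 0 (by omega) (by omega)) (by linarith) h).trans
    (one_div_le p0 p1)

/-- Every row. -/
theorem kW_row (η : Env) (r : ℤ) (n : ℕ) (x z : ℤ) : kW μ s η r n x z = kW μ s (sh (r, 0) η) 0 n x z := by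
  unfold kW
  rw [W_sh]
  congr 1
  refine Prod.ext ?_ ?_
  · show r = 0 + r
    ring
  · show x = x + 0
    ring

theorem CR_row (η : Env) (r : ℤ) (n : ℕ) (x x' z z' : ℤ) :
    CR (kW μ s η r n) x x' z z' = CR (kW μ s (sh (r, 0) η) 0 n) x x' z z' := by
  unfold CR
  rw [kW_row η r n x z, kW_row η r n x' z', kW_row η r n x z', kW_row η r n x' z]

/-! ### Total variation at one row -/

/-- **The minor from total variation at one row**: `1 → 1'` and `2 → 1'` have nearly the same law at the row, `2 → 1'` and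
`2 → 2'` too. -/
theorem tv_det {κ : Type*} (S : Finset κ) (u1 u2 v1 v2 : κ → ℝ) (hu1 : ∀ z ∈ S, 0 ≤ u1 z) (hu2 : ∀ z ∈ S, 0 ≤ u2 z)
    (hv1 : ∀ z ∈ S, 0 ≤ v1 z) (hv2 : ∀ z ∈ S, 0 ≤ v2 z) {K11 K21 K22 a b : ℝ} (e11 : K11 = ∑ z ∈ S, u1 z * v1 z)
    (e21 : K21 = ∑ z ∈ S, u2 z * v1 z) (e22 : K22 = ∑ z ∈ S, u2 z * v2 z) (p11 : 0 < K11) (p21 : 0 < K21) (p22 : 0 < K22)
    (ha : ∑ z ∈ S, |u1 z / K11 - u2 z / K21| * v1 z ≤ a) (hb : ∑ z ∈ S, u2 z * |v1 z / K21 - v2 z / K22| ≤ b) :
    K11 * K22 - (∑ z ∈ S, u1 z * v2 z) * K21 ≤ (a / 2 + b) * (K11 * K22) := by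
  set α : κ → ℝ := fun z => u1 z / K11 with hα
  set β : κ → ℝ := fun z => u2 z / K21 with hβ
  have s1 : ∑ z ∈ S, α z * v1 z = 1 := by
    have : ∑ z ∈ S, α z * v1 z = (∑ z ∈ S, u1 z * v1 z) / K11 := by
      rw [sum_div]
      exact sum_congr rfl fun z _ => by simp only [hα]; ring
    rw [this, ← e11, div_self p11.ne']
  have s2 : ∑ z ∈ S, β z * v1 z = 1 := by
    have : ∑ z ∈ S, β z * v1 z = (∑ z ∈ S, u2 z * v1 z) / K21 := by
      rw [sum_div]
      exact sum_congr rfl fun z _ => by simp only [hβ]; ring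
    rw [this, ← e21, div_self p21.ne']
  set R : ℝ := K22 / K21 with hR
  have hR0 : 0 < R := div_pos p22 p21
  have s3 : ∑ z ∈ S, β z * v2 z = R := by
    have : ∑ z ∈ S, β z * v2 z = (∑ z ∈ S, u2 z * v2 z) / K21 := by
      rw [sum_div]
      exact sum_congr rfl fun z _ => by simp only [hβ]; ring
    rw [this, ← e22]
  -- the positive part
  have ePos : ∑ z ∈ S, max (β z - α z) 0 * v1 z ≤ a / 2 := by
    have h1 : ∀ z ∈ S, max (β z - α z) 0 * v1 z = (|α z - β z| * v1 z + (β z * v1 z - α z * v1 z)) / 2 := by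
      intro z _
      rcases le_total (β z) (α z) with h | h
      · rw [max_eq_right (by linarith), abs_of_nonneg (by linarith)]
        ring
      · rw [max_eq_left (by linarith), abs_of_nonpos (by linarith)]
        ring
    rw [sum_congr rfl h1, ← sum_div, sum_add_distrib, sum_sub_distrib, s1, s2, sub_self, add_zero]
    exact div_le_div_of_nonneg_right ha (by norm_num)
  -- `v2` against `R v1`
  have eV : ∑ z ∈ S, β z * |v2 z - R * v1 z| ≤ R * b := by
    have h1 : ∀ z ∈ S, β z * |v2 z - R * v1 z| = R * (u2 z * |v1 z / K21 - v2 z / K22|) := by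
      intro z _
      have h2 : v2 z - R * v1 z = -(K22 * (v1 z / K21 - v2 z / K22)) := by
        simp only [hR]
        field_simp
        ring
      rw [h2, abs_neg, abs_mul, abs_of_pos p22]
      simp only [hβ, hR]
      ring
    rw [sum_congr rfl h1, ← mul_sum]
    exact mul_le_mul_of_nonneg_left hb hR0.le
  have key : R - ∑ z ∈ S, α z * v2 z ≤ R * (a / 2 + b) := by
    rw [← s3, ← sum_sub_distrib]
    have h1 : ∀ z ∈ S, β z * v2 z - α z * v2 z ≤ R * (max (β z - α z) 0 * v1 z) + β z * |v2 z - R * v1 z| := by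
      intro z hz
      have g1 := hv1 z hz
      have g2 := hv2 z hz
      have g3 : 0 ≤ β z := div_nonneg (hu2 z hz) p21.le
      by_cases h : α z ≤ β z
      · have h2 : max (β z - α z) 0 = β z - α z := max_eq_left (by linarith)
        rw [h2]
        have h0 : 0 ≤ α z := div_nonneg (hu1 z hz) p11.le
        have h3 : (β z - α z) * (v2 z - R * v1 z) ≤ β z * |v2 z - R * v1 z| := by
          refine (mul_le_mul_of_nonneg_left (le_abs_self _) (by linarith)).trans ?_
          exact mul_le_mul_of_nonneg_right (by linarith) (abs_nonneg _)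
        nlinarith
      · have h2 : max (β z - α z) 0 = 0 := max_eq_right (by linarith)
        rw [h2]
        have h3 : β z * v2 z ≤ α z * v2 z := mul_le_mul_of_nonneg_right (by linarith) g2
        have h4 : 0 ≤ β z * |v2 z - R * v1 z| := mul_nonneg g3 (abs_nonneg _)
        linarith
    refine (sum_le_sum h1).trans ?_
    rw [sum_add_distrib, ← mul_sum, s3]
    nlinarith [mul_le_mul_of_nonneg_left ePos hR0.le]
  have e12 : (∑ z ∈ S, u1 z * v2 z) = K11 * ∑ z ∈ S, α z * v2 z := by
    rw [mul_sum]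
    refine sum_congr rfl fun z _ => ?_
    simp only [hα]
    field_simp
  rw [e12]
  have e : K22 = R * K21 := by
    simp only [hR]
    field_simp
  rw [e]
  nlinarith [mul_le_mul_of_nonneg_left key (mul_pos p11 p21).le]

end

end Pool.Agent.W_7d29a1_C1.R26
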