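import Pool.Agent.W_7d29a1_C1.KM35
import Pool.Agent.W_7d29a1_C1.MeetT35
import Pool.Agent.W_7d29a1_C1.Rank26C

/-!
MP_7d29a1_pr, [C1], THE FIRST MEETING IN THE BOX, bridge to the bridges of MEET (helper35). `pb_lgv`: the pairs without a common site as
determinants; `nk_eq`: `nk (wt η) p T i n x x' y y' = PBr (rows from i) T (n - T) * ker x y * ker x' y'`.
-/

set_option autoImplicit false

namespace Pool.Agent.W_7d29a1_C1.KM35

open Finset MeasureTheory
open Pool.Agent.W_7d29a1_F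
open Pool.Agent.W_7d29a1_X (pos pth pth_nonneg pos_nonneg pos_le pos_zero)
open Pool.Agent.W_7d29a1_C1.K91 (Grp Box ps2 ps2_congr ps2_add ps2_mul wt wt_pos)
open Pool.Agent.W_7d29a1_C1.K91P
open Pool.Agent.W_7d29a1_C1.U16 (ker ker_zero ker_succ ker_nonneg ker_eq_zero ker_congr fw_ker dlt dlt_nonneg ker_W)
open Pool.Agent.W_7d29a1_C1.Gini76 (NIk)
open Pool.Agent.W_7d29a1_C1.Basin76 (kW kW_pos kW_nonneg)
open Pool.Agent.W_7d29a1_C1.R26 (aw DJ lgv kW_row)
open Pool.Agent.W_7d29a1_C1.Arr89 (ps ps_succ ps_zero NI Zt Gg)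
open Pool.Agent.W_7d29a1_C1.MeetP35 (PBr PP gB Zt_gB)

noncomputable section

/-! ### The pairs without a common site as determinants -/

section Det

variable {w : ℕ → ℤ → ℝ} {p : ℕ → ℝ}

theorem pb_shift (g : ℤ → ℤ → ℝ) (i : ℕ) : ∀ (j k : ℕ) (x y : ℤ),
    pb (fun k => w (i + k)) (fun k => p (i + k)) g k j x y = pb w p g (i + k) j x y
  | 0, k, x, y => by rw [pb_zero, pb_zero]
  | j + 1, k, x, y => by
    rw [pb_succ, pb_succ, pb_shift g i j (k + 1), pb_shift g i j (k + 1), pb_shift g i j (k + 1), pb_shift g i j (k + 1)]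
    rfl

theorem dlt_self (x : ℤ) : dlt x x = 1 := if_pos rfl

theorem dlt_ne {x y : ℤ} (h : y ≠ x) : dlt x y = 0 := if_neg h

theorem pb_lgv (g : ℤ → ℤ → ℝ) (i j : ℕ) {x x' lo hi : ℤ} (hx : x < x') (h1 : lo ≤ x) (h2 : x' + j ≤ hi) :
    pb w p g i j x x' = ps2 lo hi (fun u u' => (ker w p i j x u * ker w p i j x' u' - ker w p i j x u' * ker w p i j x' u) *
      if u < u' then g u u' else 0) := by
  have hj : (0 : ℤ) ≤ j := by positivity
  have hB : Box (dlt x) (dlt x') x' lo hi j := by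
    refine ⟨⟨dlt_nonneg x, dlt_nonneg x', fun y hy => dlt_ne (by omega), fun y hy => dlt_ne (by omega)⟩, fun y hy => ?_, fun y hy => ?_,
      by omega, h2, ⟨x, ?_⟩⟩
    · exact ⟨dlt_ne (by omega), dlt_ne (by omega)⟩
    · exact ⟨dlt_ne (by omega), dlt_ne (by omega)⟩
    · rw [dlt_self]
      have := dlt_nonneg x' x
      linarith
  have h3 := sum_dp_pb (w := fun k => w (i + k)) (p := fun k => p (i + k)) hB g j 0 (by omega)
  have h4 : ps2 lo hi (fun u v => dp (fun k => w (i + k)) (fun k => p (i + k)) (dlt x) (dlt x') 0 u v *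
      pb (fun k => w (i + k)) (fun k => p (i + k)) g 0 j u v) = pb w p g i j x x' := by
    have h5 : ∀ u ∈ Icc lo hi, ∀ v ∈ Icc lo hi, dp (fun k => w (i + k)) (fun k => p (i + k)) (dlt x) (dlt x') 0 u v *
        pb (fun k => w (i + k)) (fun k => p (i + k)) g 0 j u v = if u = x then (if v = x' then pb w p g i j x x' else 0) else 0 := by
      intro u _ v _
      have e : dp (fun k => w (i + k)) (fun k => p (i + k)) (dlt x) (dlt x') 0 u v = dlt x u * dlt x' v - dlt x v * dlt x' u := rfl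
      rw [e, pb_shift, add_zero]
      by_cases a1 : u = x
      · rw [if_pos a1, a1, dlt_self, dlt_ne (show x ≠ x' by omega), mul_zero, sub_zero, one_mul]
        by_cases a2 : v = x'
        · rw [if_pos a2, a2, dlt_self, one_mul]
        · rw [if_neg a2, dlt_ne a2, zero_mul]
      · rw [if_neg a1, dlt_ne a1, zero_mul, zero_sub]
        by_cases a2 : v = x
        · by_cases a3 : u = x'
          · rw [a2, a3, pb_not g i j (show ¬ x' < x by omega), mul_zero]
          · rw [dlt_ne a3, mul_zero, neg_zero, zero_mul]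
        · rw [dlt_ne a2, zero_mul, neg_zero, zero_mul]
    rw [ps2_congr h5]
    unfold ps2
    rw [sum_eq_single_of_mem x (mem_Icc.2 ⟨h1, by omega⟩) fun u _ hu => by
      rw [sum_congr rfl fun v _ => if_neg hu, sum_const_zero]]
    rw [sum_congr rfl fun v _ => if_pos rfl, sum_ite_eq', if_pos (mem_Icc.2 ⟨by omega, by omega⟩)]
  rw [h4, zero_add] at h3
  exact h3

end Det

/-! ### The pairs of bridges -/

variable {μ : Measure ℝ} {s h : ℝ}

/-- Two paths without a common site keep their order. -/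
theorem DJ_lt {n : ℕ} {x x' : ℤ} (hx : x < x') {S S' : Finset ℕ} (hD : DJ n x x' S S') : ∀ k, k ≤ n → x + pos S k < x' + pos S' k := by
  intro k
  induction k with
  | zero =>
    intro _
    rw [pos_zero, pos_zero]
    omega
  | succ k ih =>
    intro hk
    have h1 := ih (by omega)
    have h2 := hD (k + 1) hk
    have e : ∀ A : Finset ℕ, pos A (k + 1) = pos A k + if k ∈ A then 1 else 0 := fun A => ps_succ A k
    rw [e, e] at h2 ⊢
    split_ifs at h2 ⊢ <;> omega

/-- The pair of bridges, by the end positions. -/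
theorem PBr_det (η : Env) (T T₂ : ℕ) {x x' y y' lo hi : ℤ} (hx : x < x') (h1 : lo ≤ x) (h2 : x' + T ≤ hi)
    (a0 : 0 ≤ y - x) (a1 : y - x ≤ ((T + T₂ : ℕ) : ℤ)) (a0' : 0 ≤ y' - x') (a1' : y' - x' ≤ ((T + T₂ : ℕ) : ℤ)) :
    PBr μ s η T T₂ x y x' y' * (kW μ s η 0 (T + T₂) x y * kW μ s η 0 (T + T₂) x' y') =
      ps2 lo hi (fun u u' => if u < u' then NIk (kW μ s η 0 T) x x' u u' * (gB μ s η T T₂ y u * gB μ s η T T₂ y' u') else 0) := by
  classical
  have q1 : 0 < kW μ s η 0 (T + T₂) x y := kW_pos η 0 (by omega) (by omega)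
  have q2 : 0 < kW μ s η 0 (T + T₂) x' y' := kW_pos η 0 (by omega) (by omega)
  have z1 : ∀ x y : ℤ, Zt μ s η (gB μ s η T T₂ y) T 0 x = kW μ s η 0 (T + T₂) x y := by
    intro x y
    rw [Zt_gB η T T₂ y T 0 (by omega)]
    rfl
  have L : PBr μ s η T T₂ x y x' y' * (kW μ s η 0 (T + T₂) x y * kW μ s η 0 (T + T₂) x' y') =
      ∑ S ∈ (range T).powerset, ∑ S' ∈ (range T).powerset, if DJ T x x' S S' then
        (pth μ s (sh (0, x) η) T S * pth μ s (sh (0, x') η) T S') * (gB μ s η T T₂ y (x + pos S T) * gB μ s η T T₂ y' (x' + pos S' T))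
        else 0 := by
    unfold PBr PP
    rw [sum_mul, sum_filter, sum_product]
    refine sum_congr rfl fun S _ => sum_congr rfl fun S' _ => ?_
    by_cases hD : DJ T x x' S S'
    · rw [if_pos hD, if_pos (show NI T x x' S S' from fun k hk => hD k hk)]
      unfold Gg
      rw [z1, z1]
      field_simp
    · rw [if_neg hD, if_neg (show ¬ NI T x x' S S' from fun h => hD fun k hk => h k hk)]
  rw [L]
  have R1 : ∀ u ∈ Icc lo hi, ∀ u' ∈ Icc lo hi, (if u < u' then NIk (kW μ s η 0 T) x x' u u' *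
      (gB μ s η T T₂ y u * gB μ s η T T₂ y' u') else 0) = ∑ S ∈ (range T).powerset, ∑ S' ∈ (range T).powerset,
      if u = x + pos S T then (if u' = x' + pos S' T then (if DJ T x x' S S' then
        (pth μ s (sh (0, x) η) T S * pth μ s (sh (0, x') η) T S') * (gB μ s η T T₂ y (x + pos S T) * gB μ s η T T₂ y' (x' + pos S' T))
        else 0) else 0) else 0 := by
    intro u _ u' _
    by_cases hu : u < u'
    · rw [if_pos hu, lgv η hx T hu.le]
      unfold Pool.Agent.W_7d29a1_C1.R26.aw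
      rw [sum_mul]
      refine sum_congr rfl fun S _ => ?_
      rw [sum_mul]
      refine sum_congr rfl fun S' _ => ?_
      by_cases b1 : u = x + pos S T
      · rw [if_pos b1]
        by_cases b2 : u' = x' + pos S' T
        · rw [if_pos b2]
          by_cases b3 : DJ T x x' S S'
          · rw [if_pos ⟨b1.symm, b2.symm, b3⟩, if_pos b3, b1, b2]
          · rw [if_neg fun h => b3 h.2.2, if_neg b3, zero_mul]
        · rw [if_neg fun h => b2 h.2.1.symm, if_neg b2, zero_mul]
      · rw [if_neg fun h => b1 h.1.symm, if_neg b1, zero_mul]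
    · rw [if_neg hu]
      symm
      refine sum_eq_zero fun S _ => sum_eq_zero fun S' _ => ?_
      by_cases b1 : u = x + pos S T
      · rw [if_pos b1]
        by_cases b2 : u' = x' + pos S' T
        · rw [if_pos b2, if_neg]
          intro b3
          have := DJ_lt hx b3 T le_rfl
          omega
        · rw [if_neg b2]
      · rw [if_neg b1]
  rw [ps2_congr R1]
  unfold ps2
  have R2 : ∑ u ∈ Icc lo hi, ∑ u' ∈ Icc lo hi, ∑ S ∈ (range T).powerset, ∑ S' ∈ (range T).powerset,
      (if u = x + pos S T then (if u' = x' + pos S' T then (if DJ T x x' S S' then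
        (pth μ s (sh (0, x) η) T S * pth μ s (sh (0, x') η) T S') * (gB μ s η T T₂ y (x + pos S T) * gB μ s η T T₂ y' (x' + pos S' T))
        else 0) else 0) else 0) = ∑ S ∈ (range T).powerset, ∑ S' ∈ (range T).powerset, ∑ u ∈ Icc lo hi, ∑ u' ∈ Icc lo hi,
      (if u = x + pos S T then (if u' = x' + pos S' T then (if DJ T x x' S S' then
        (pth μ s (sh (0, x) η) T S * pth μ s (sh (0, x') η) T S') * (gB μ s η T T₂ y (x + pos S T) * gB μ s η T T₂ y' (x' + pos S' T))
        else 0) else 0) else 0) := by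
    have e1 : ∀ u ∈ Icc lo hi, ∑ u' ∈ Icc lo hi, ∑ S ∈ (range T).powerset, ∑ S' ∈ (range T).powerset,
      (if u = x + pos S T then (if u' = x' + pos S' T then (if DJ T x x' S S' then
        (pth μ s (sh (0, x) η) T S * pth μ s (sh (0, x') η) T S') * (gB μ s η T T₂ y (x + pos S T) * gB μ s η T T₂ y' (x' + pos S' T))
        else 0) else 0) else 0) = ∑ S ∈ (range T).powerset, ∑ S' ∈ (range T).powerset, ∑ u' ∈ Icc lo hi,
      (if u = x + pos S T then (if u' = x' + pos S' T then (if DJ T x x' S S' then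
        (pth μ s (sh (0, x) η) T S * pth μ s (sh (0, x') η) T S') * (gB μ s η T T₂ y (x + pos S T) * gB μ s η T T₂ y' (x' + pos S' T))
        else 0) else 0) else 0) := by
      intro u _
      rw [sum_comm]
      exact sum_congr rfl fun S _ => sum_comm
    rw [sum_congr rfl e1, sum_comm]
    exact sum_congr rfl fun S _ => sum_comm
  rw [R2]
  refine sum_congr rfl fun S _ => sum_congr rfl fun S' _ => ?_
  have p1 := pos_nonneg S T
  have p2 := pos_le S T
  have p3 := pos_nonneg S' T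
  have p4 := pos_le S' T
  have m1 : x + pos S T ∈ Icc lo hi := mem_Icc.2 ⟨by omega, by omega⟩
  have m2 : x' + pos S' T ∈ Icc lo hi := mem_Icc.2 ⟨by omega, by omega⟩
  rw [sum_eq_single_of_mem _ m1 fun u _ hu => by rw [sum_congr rfl fun v _ => if_neg hu, sum_const_zero],
    sum_congr rfl fun v _ => if_pos rfl, sum_eq_single_of_mem _ m2 fun u _ hu => if_neg hu, if_pos rfl]

/-- The factor of the bridge `ker_W`. -/
def fa (μ : Measure ℝ) (s h : ℝ) (η : Env) (i n : ℕ) (x y : ℤ) : ℝ :=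
  wt η i x * Real.exp (n * lam μ s + h * ((y - x : ℤ) : ℝ)) / wt η (i + n) y

theorem fa_pos (η : Env) (i n : ℕ) (x y : ℤ) : 0 < fa μ s h η i n x y := by
  unfold fa
  have h1 := wt_pos η i x
  have h2 := wt_pos η (i + n) y
  positivity

theorem ker_fa (η : Env) {p : ℕ → ℝ} (i n : ℕ) (x y : ℤ) (hp : ∀ k, i ≤ k → k < i + n → p k = Real.exp (s + h)) :
    ker (wt η) p i n x y = fa μ s h η i n x y * kW μ s η i n x y := by
  have h1 := ker_W (μ := μ) (s := s) (h := h) η i x n y hp
  have h2 := wt_pos η (i + n) y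
  unfold fa kW
  rw [div_mul_eq_mul_div, eq_div_iff h2.ne', h1]
  ring

theorem fa_mul (η : Env) (i T m : ℕ) (x u y : ℤ) :
    fa μ s h η i T x u * fa μ s h η (i + T) m u y = fa μ s h η i (T + m) x y := by
  unfold fa
  have h1 := wt_pos η (i + T) u
  have h2 := wt_pos η (i + (T + m)) y
  have e : Real.exp (((T + m : ℕ) : ℝ) * lam μ s + h * ((y - x : ℤ) : ℝ)) =
      Real.exp (T * lam μ s + h * ((u - x : ℤ) : ℝ)) * Real.exp (m * lam μ s + h * ((y - u : ℤ) : ℝ)) := by
    rw [← Real.exp_add]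
    congr 1
    push_cast
    ring
  rw [e, add_assoc i T m]
  field_simp

theorem fa_cross (η : Env) (i n : ℕ) (x x' y y' : ℤ) :
    fa μ s h η i n x y' * fa μ s h η i n x' y = fa μ s h η i n x y * fa μ s h η i n x' y' := by
  unfold fa
  have e : Real.exp (n * lam μ s + h * ((y' - x : ℤ) : ℝ)) * Real.exp (n * lam μ s + h * ((y - x' : ℤ) : ℝ)) =
      Real.exp (n * lam μ s + h * ((y - x : ℤ) : ℝ)) * Real.exp (n * lam μ s + h * ((y' - x' : ℤ) : ℝ)) := by
    rw [← Real.exp_add, ← Real.exp_add]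
    congr 1
    push_cast
    ring
  have h1 := wt_pos η (i + n) y
  have h2 := wt_pos η (i + n) y'
  field_simp
  linear_combination (wt η i x * wt η i x') * e

/-- **THE PAIRS WITHOUT A COMMON SITE** in the rows `[i, i + T]`. -/
theorem nk_eq (η : Env) {p : ℕ → ℝ} (i T m : ℕ) {x x' y y' : ℤ} (hx : x < x') (hp : ∀ k, i ≤ k → k < i + (T + m) → p k = Real.exp (s + h))
    (a0 : 0 ≤ y - x) (a1 : y - x ≤ ((T + m : ℕ) : ℤ)) (a0' : 0 ≤ y' - x') (a1' : y' - x' ≤ ((T + m : ℕ) : ℤ)) :
    nk (wt η) p T i (T + m) x x' y y' = PBr μ s (sh ((i : ℤ), 0) η) T m x y x' y' *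
      (ker (wt η) p i (T + m) x y * ker (wt η) p i (T + m) x' y') := by
  have e0 : ∀ x y : ℤ, ker (wt η) p i (T + m) x y = fa μ s h η i (T + m) x y * kW μ s (sh ((i : ℤ), 0) η) 0 (T + m) x y := by
    intro x y
    rw [ker_fa (μ := μ) (s := s) (h := h) η i (T + m) x y hp, kW_row]
  have e1 : ∀ x u : ℤ, ker (wt η) p i T x u = fa μ s h η i T x u * kW μ s (sh ((i : ℤ), 0) η) 0 T x u := by
    intro x u
    rw [ker_fa (μ := μ) (s := s) (h := h) η i T x u (fun k h1 h2 => hp k h1 (by omega)), kW_row]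
  have e2 : ∀ u y : ℤ, ker (wt η) p (i + T) m u y = fa μ s h η (i + T) m u y * gB μ s (sh ((i : ℤ), 0) η) T m y u := by
    intro u y
    rw [ker_fa (μ := μ) (s := s) (h := h) η (i + T) m u y (fun k h1 h2 => hp k (by omega) (by omega))]
    congr 1
    unfold kW gB
    rw [W_sh]
    congr 1
    refine Prod.ext ?_ ?_
    · show ((i + T : ℕ) : ℤ) = (T : ℤ) + i
      push_cast
      ring
    · show u = u + 0
      ring
  rw [e0 x y, e0 x' y']
  have h3 := PBr_det (μ := μ) (s := s) (sh ((i : ℤ), 0) η) T m (lo := x) (hi := x' + T) hx le_rfl le_rfl a0 a1 a0' a1'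
  have h4 : PBr μ s (sh ((i : ℤ), 0) η) T m x y x' y' * (fa μ s h η i (T + m) x y * kW μ s (sh ((i : ℤ), 0) η) 0 (T + m) x y *
      (fa μ s h η i (T + m) x' y' * kW μ s (sh ((i : ℤ), 0) η) 0 (T + m) x' y')) =
      fa μ s h η i (T + m) x y * fa μ s h η i (T + m) x' y' * (PBr μ s (sh ((i : ℤ), 0) η) T m x y x' y' *
      (kW μ s (sh ((i : ℤ), 0) η) 0 (T + m) x y * kW μ s (sh ((i : ℤ), 0) η) 0 (T + m) x' y')) := by ring
  rw [h4, h3]
  unfold nk
  rw [pb_lgv (w := wt η) (p := p) _ i T hx le_rfl le_rfl, ← ps2_mul]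
  refine ps2_congr fun u _ u' _ => ?_
  by_cases hu : u < u'
  · rw [if_pos hu, if_pos hu, show T + m - T = m by omega, e1, e1, e1, e1, e2, e2]
    unfold NIk
    have f1 := fa_mul (μ := μ) (s := s) (h := h) η i T m x u y
    have f2 := fa_mul (μ := μ) (s := s) (h := h) η i T m x' u' y'
    have f3 := fa_mul (μ := μ) (s := s) (h := h) η i T m x u' y'
    have f4 := fa_mul (μ := μ) (s := s) (h := h) η i T m x' u y
    have f5 := fa_cross (μ := μ) (s := s) (h := h) η i (T + m) x x' y y'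
    have g1 : fa μ s h η i T x u * fa μ s h η i T x' u' * (fa μ s h η (i + T) m u y * fa μ s h η (i + T) m u' y') =
        fa μ s h η i (T + m) x y * fa μ s h η i (T + m) x' y' := by
      rw [← f1, ← f2]
      ring
    have g2 : fa μ s h η i T x u' * fa μ s h η i T x' u * (fa μ s h η (i + T) m u y * fa μ s h η (i + T) m u' y') =
        fa μ s h η i (T + m) x y * fa μ s h η i (T + m) x' y' := by
      rw [← f5, ← f3, ← f4]
      ring
    linear_combination (kW μ s (sh ((i : ℤ), 0) η) 0 T x u * kW μ s (sh ((i : ℤ), 0) η) 0 T x' u' *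
      (gB μ s (sh ((i : ℤ), 0) η) T m y u * gB μ s (sh ((i : ℤ), 0) η) T m y' u')) * g1 -
      (kW μ s (sh ((i : ℤ), 0) η) 0 T x u' * kW μ s (sh ((i : ℤ), 0) η) 0 T x' u *
      (gB μ s (sh ((i : ℤ), 0) η) T m y u * gB μ s (sh ((i : ℤ), 0) η) T m y' u')) * g2
  · rw [if_neg hu, if_neg hu, mul_zero, mul_zero]

end

end Pool.Agent.W_7d29a1_C1.KM35
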