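import Pool.Agent.W_7d29a1_C1.KN35

/-!
MP_7d29a1_pr, [C1], THE FIRST MEETING IN THE BOX, one path (helper35). `eG`: the quenched probability that the first `T` steps of the
bridge satisfy `Q`. `ast_eq`: `ast (wt η) p C T i n x y = (1 - probability to leave C at the rows (i, i + T]) * ker x y`. `eG_right`,
`eG_left`: monotonicity of the exits to one side.
-/

set_option autoImplicit false

namespace Pool.Agent.W_7d29a1_C1.KM35

open Finset MeasureTheory
open Pool.Agent.W_7d29a1_F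
open Pool.Agent.W_7d29a1_X (pos pth pth_nonneg pos_nonneg pos_le pos_zero Zr_succ89 Zr_zero89)
open Pool.Agent.W_7d29a1_C1.K91 (Grp Box ps2 ps2_congr ps2_add ps2_mul wt wt_pos)
open Pool.Agent.W_7d29a1_C1.K91P
open Pool.Agent.W_7d29a1_C1.U16 (ker ker_zero ker_succ ker_nonneg ker_eq_zero ker_congr fw_ker dlt dlt_nonneg ker_W)
open Pool.Agent.W_7d29a1_C1.Basin76 (kW kW_pos kW_nonneg)
open Pool.Agent.W_7d29a1_C1.R26 (kW_row)
open Pool.Agent.W_7d29a1_C1.Arr89 (ps ps_succ ps_zero NI Zt Gg PX pa flow pos_pa)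
open Pool.Agent.W_7d29a1_C1.Arr35 (pQ)
open Pool.Agent.W_7d29a1_C1.Exit35 (Stay WR_path)
open Pool.Agent.W_7d29a1_C1.MeetG35 (Zt_path Gg_nonneg Gg_sum_le exG)
open Pool.Agent.W_7d29a1_C1.MeetP35 (PBr PP gB gB_nonneg Zt_gB fld fld_nonneg fld_le_one fld_mono PX_fld)

noncomputable section

variable {μ : Measure ℝ} {s h : ℝ}

/-! ### The first step of the restricted weights -/

theorem WR_zero' (R : Set Pt) (η : Env) (a : Pt) (y : ℤ) : WR μ s R η a 0 y = if y = 0 then 1 else 0 := by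
  unfold WR
  rw [Zr_zero89]
  by_cases hy : y = 0
  · subst hy
    simp
  · simp [hy]

theorem WR_out (R : Set Pt) (η : Env) (a : Pt) {n : ℕ} {y : ℤ} (hy : ¬ (0 ≤ y ∧ y ≤ n)) : WR μ s R η a n y = 0 := by
  unfold WR
  rw [Zr_eq_zero R η a hy, mul_zero]

open Classical in
theorem WR_one (R : Set Pt) (η : Env) (k x a : ℤ) (ha : a = 0 ∨ a = 1) : WR μ s R η (k, x) 1 a =
    if ((k + 1, x + a) : Pt) ∈ R then Real.exp (η (k + 1, x + a)) * Real.exp (s * a - lam μ s) else 0 := by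
  unfold WR
  have e : Zr R η (k, x) 1 a = R.indicator (fun p => Real.exp (η p)) (k + 1, x + a) := by
    have e1 : Zr R η (k, x) (0 + 1) a = R.indicator (fun p => Real.exp (η p)) ((((k, x) : Pt).1 + ((0 : ℕ) + 1), ((k, x) : Pt).2 + a)) *
      (Zr R η (k, x) 0 a + Zr R η (k, x) 0 (a - 1)) := Zr_succ89 R η (k, x) 0 a
    rw [Zr_zero89, Zr_zero89] at e1
    have e2 : ((((k, x) : Pt).1 + (((0 : ℕ) : ℤ) + 1), ((k, x) : Pt).2 + a) : Pt) = (k + 1, x + a) := by
      refine Prod.ext ?_ rfl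
      show k + (((0 : ℕ) : ℤ) + 1) = k + 1
      simp
    have e3 : ((if a = 0 then 1 else 0) + (if a - 1 = 0 then 1 else 0) : ℝ) = 1 := by
      rcases ha with h1 | h1
      · rw [h1]; norm_num
      · rw [h1]; norm_num
    rw [e3, mul_one] at e1
    rw [← e2]
    exact e1
  rw [e]
  by_cases h1 : ((k + 1, x + a) : Pt) ∈ R
  · rw [if_pos h1, Set.indicator_of_mem h1]
    push_cast
    rw [one_mul]
    ring
  · rw [if_neg h1, Set.indicator_of_notMem h1, mul_zero]

/-- The total restricted weight with the end profile `g`. -/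
def SR (μ : Measure ℝ) (s : ℝ) (R : Set Pt) (η : Env) (g : ℤ → ℝ) (T : ℕ) (k x : ℤ) : ℝ :=
  ∑ z ∈ Icc (0 : ℤ) T, WR μ s R η (k, x) T z * g (x + z)

theorem SR_zero (R : Set Pt) (η : Env) (g : ℤ → ℝ) (k x : ℤ) : SR μ s R η g 0 k x = g x := by
  unfold SR
  have e : Icc (0 : ℤ) ((0 : ℕ) : ℤ) = {0} := by simp
  rw [e, sum_singleton, WR_zero', if_pos rfl, one_mul, add_zero]

theorem sum_sh (T : ℕ) {a : ℤ} (a0 : 0 ≤ a) (a1 : a ≤ 1) (f : ℤ → ℝ) (hf : ∀ z, ¬ (0 ≤ z ∧ z ≤ (T : ℤ)) → f z = 0) :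
    ∑ z ∈ Icc (0 : ℤ) ((1 + T : ℕ) : ℤ), f (z - a) = ∑ z ∈ Icc (0 : ℤ) T, f z := by
  have h1 : ∑ z ∈ Icc (0 : ℤ) ((1 + T : ℕ) : ℤ), f (z - a) = ∑ z ∈ Icc (-a) (((1 + T : ℕ) : ℤ) - a), f z := by
    refine sum_nbij' (fun z => z - a) (fun z => z + a) ?_ ?_ ?_ ?_ ?_
    · intro z hz
      rw [mem_Icc] at hz ⊢
      omega
    · intro z hz
      rw [mem_Icc] at hz ⊢
      omega
    · intro z _
      show z - a + a = z
      ring
    · intro z _
      show z + a - a = z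
      ring
    · intro z _
      rfl
  rw [h1]
  symm
  refine sum_subset (fun z hz => ?_) fun z _ hz' => ?_
  · rw [mem_Icc] at hz ⊢
    push_cast
    omega
  · exact hf z fun h => hz' (mem_Icc.2 h)

open Classical in
theorem SR_succ (R : Set Pt) (η : Env) (g : ℤ → ℝ) (T : ℕ) (k x : ℤ) : SR μ s R η g (T + 1) k x =
    (if ((k + 1, x) : Pt) ∈ R then Real.exp (η (k + 1, x)) * Real.exp (-lam μ s) * SR μ s R η g T (k + 1) x else 0) +
    (if ((k + 1, x + 1) : Pt) ∈ R then Real.exp (η (k + 1, x + 1)) * Real.exp (s - lam μ s) * SR μ s R η g T (k + 1) (x + 1) else 0) := by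
  have e0 : SR μ s R η g (T + 1) k x = ∑ z ∈ Icc (0 : ℤ) ((1 + T : ℕ) : ℤ), WR μ s R η (k, x) (1 + T) z * g (x + z) := by
    unfold SR
    rw [add_comm T 1]
  have e1 : ∀ z ∈ Icc (0 : ℤ) ((1 + T : ℕ) : ℤ), WR μ s R η (k, x) (1 + T) z * g (x + z) =
      WR μ s R η (k, x) 1 0 * ((fun u => WR μ s R η (k + 1, x) T u * g (x + u)) (z - 0)) +
      WR μ s R η (k, x) 1 1 * ((fun u => WR μ s R η (k + 1, x + 1) T u * g (x + 1 + u)) (z - 1)) := by
    intro z _
    rw [WR_add]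
    have e2 : Icc (0 : ℤ) ((1 : ℕ) : ℤ) = {0, 1} := by
      ext a
      rw [mem_Icc, mem_insert, mem_singleton]
      push_cast
      omega
    rw [e2, sum_pair (by norm_num)]
    have e3 : ((((k, x) : Pt).1 + ((1 : ℕ) : ℤ), ((k, x) : Pt).2 + 0) : Pt) = (k + 1, x) := by
      refine Prod.ext ?_ ?_
      · show k + ((1 : ℕ) : ℤ) = k + 1
        push_cast
        ring
      · show x + 0 = x
        ring
    have e4 : ((((k, x) : Pt).1 + ((1 : ℕ) : ℤ), ((k, x) : Pt).2 + 1) : Pt) = (k + 1, x + 1) := by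
      refine Prod.ext ?_ rfl
      show k + ((1 : ℕ) : ℤ) = k + 1
      push_cast
      ring
    rw [e3, e4]
    show (_ + _) * _ = WR μ s R η (k, x) 1 0 * (WR μ s R η (k + 1, x) T (z - 0) * g (x + (z - 0))) +
      WR μ s R η (k, x) 1 1 * (WR μ s R η (k + 1, x + 1) T (z - 1) * g (x + 1 + (z - 1)))
    rw [show x + (z - 0) = x + z by ring, show x + 1 + (z - 1) = x + z by ring]
    ring
  rw [e0, sum_congr rfl e1, sum_add_distrib, ← mul_sum, ← mul_sum,
    sum_sh T le_rfl (by norm_num) (fun u => WR μ s R η (k + 1, x) T u * g (x + u)) (fun z hz => by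
      show WR μ s R η (k + 1, x) T z * g (x + z) = 0
      rw [WR_out R η _ hz, zero_mul]),
    sum_sh T (by norm_num) le_rfl (fun u => WR μ s R η (k + 1, x + 1) T u * g (x + 1 + u)) (fun z hz => by
      show WR μ s R η (k + 1, x + 1) T z * g (x + 1 + z) = 0
      rw [WR_out R η _ hz, zero_mul]),
    WR_one R η k x 0 (Or.inl rfl), WR_one R η k x 1 (Or.inr rfl)]
  have e5 : Real.exp (s * ((0 : ℤ) : ℝ) - lam μ s) = Real.exp (-lam μ s) := by
    congr 1
    push_cast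
    ring
  have e6 : Real.exp (s * ((1 : ℤ) : ℝ) - lam μ s) = Real.exp (s - lam μ s) := by
    congr 1
    push_cast
    ring
  rw [e5, e6, add_zero]
  unfold SR
  split_ifs <;> ring

/-- The region of the sites of `C`. -/
def RC (C : ℕ → ℤ → Prop) : Set Pt := {q | C q.1.toNat q.2}

theorem mem_RC (C : ℕ → ℤ → Prop) (i : ℕ) (x : ℤ) : (((i : ℤ) + 1, x) : Pt) ∈ RC C ↔ C (i + 1) x := by
  have e : ((i : ℤ) + 1).toNat = i + 1 := by omega
  show C ((i : ℤ) + 1).toNat x ↔ C (i + 1) x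
  rw [e]

theorem wt_succ (η : Env) (i : ℕ) (y : ℤ) : wt η (i + 1) y = Real.exp (η ((i : ℤ) + 1, y)) := by
  unfold wt
  rw [if_neg (by omega)]
  push_cast
  rfl

/-- The killed mass. -/
theorem ast_SR (η : Env) {p : ℕ → ℝ} (C : ℕ → ℤ → Prop) (m : ℕ) (y : ℤ) {N : ℕ} : ∀ (T i : ℕ) (x : ℤ), N = i + T →
    (∀ k, i ≤ k → k < N + m → p k = Real.exp (s + h)) →
    ast (wt η) p C T i (T + m) x y = fa μ s h η i (T + m) x y * SR μ s (RC C) η (fun u => W μ s η ((N : ℤ), u) m (y - u)) T i x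
  | 0, i, x, hN, hp => by
    rw [ast_zero, SR_zero, zero_add, ker_fa (μ := μ) (s := s) (h := h) η i m x y fun k h1 h2 => hp k h1 (by omega)]
    have e : N = i := by omega
    rw [e]
    rfl
  | T + 1, i, x, hN, hp => by
    classical
    have i1 := ast_SR (p := p) η C m y (N := N) T (i + 1) x (by omega) fun k h1 h2 => hp k (by omega) h2
    have i2 := ast_SR (p := p) η C m y (N := N) T (i + 1) (x + 1) (by omega) fun k h1 h2 => hp k (by omega) h2
    have ei : (((i + 1 : ℕ) : ℤ)) = (i : ℤ) + 1 := by push_cast; ring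
    rw [ei] at i1 i2
    have e1 : T + 1 + m = T + m + 1 := by ring
    rw [e1, ast_succ, SR_succ, i1, i2, hp i le_rfl (by omega)]
    simp only [mem_RC]
    have w0 := wt_pos η i x
    have wn := wt_pos η (i + (T + m + 1)) y
    have e2 : i + 1 + (T + m) = i + (T + m + 1) := by ring
    -- the two factors
    have f1 : wt η i x * fa μ s h η (i + 1) (T + m) x y =
        fa μ s h η i (T + m + 1) x y * (Real.exp (η ((i : ℤ) + 1, x)) * Real.exp (-lam μ s)) := by
      unfold fa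
      rw [e2, wt_succ]
      have e3 : Real.exp (((T + m + 1 : ℕ) : ℝ) * lam μ s + h * ((y - x : ℤ) : ℝ)) * Real.exp (-lam μ s) =
          Real.exp (((T + m : ℕ) : ℝ) * lam μ s + h * ((y - x : ℤ) : ℝ)) := by
        rw [← Real.exp_add]
        congr 1
        push_cast
        ring
      rw [← e3]
      ring
    have f2 : wt η i x * (Real.exp (s + h) * fa μ s h η (i + 1) (T + m) (x + 1) y) =
        fa μ s h η i (T + m + 1) x y * (Real.exp (η ((i : ℤ) + 1, x + 1)) * Real.exp (s - lam μ s)) := by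
      unfold fa
      rw [e2, wt_succ]
      have e3 : Real.exp (((T + m + 1 : ℕ) : ℝ) * lam μ s + h * ((y - x : ℤ) : ℝ)) * Real.exp (s - lam μ s) =
          Real.exp (s + h) * Real.exp (((T + m : ℕ) : ℝ) * lam μ s + h * ((y - (x + 1) : ℤ) : ℝ)) := by
        rw [← Real.exp_add, ← Real.exp_add]
        congr 1
        push_cast
        ring
      have e4 : wt η i x * Real.exp (((T + m + 1 : ℕ) : ℝ) * lam μ s + h * ((y - x : ℤ) : ℝ)) / wt η (i + (T + m + 1)) y *
          (Real.exp (η ((i : ℤ) + 1, x + 1)) * Real.exp (s - lam μ s)) =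
          wt η i x * (Real.exp (((T + m + 1 : ℕ) : ℝ) * lam μ s + h * ((y - x : ℤ) : ℝ)) * Real.exp (s - lam μ s)) *
          Real.exp (η ((i : ℤ) + 1, x + 1)) / wt η (i + (T + m + 1)) y := by ring
      rw [e4, e3]
      ring
    split_ifs
    · linear_combination (SR μ s (RC C) η (fun u => W μ s η ((N : ℤ), u) m (y - u)) T ((i : ℤ) + 1) x) * f1 +
        (SR μ s (RC C) η (fun u => W μ s η ((N : ℤ), u) m (y - u)) T ((i : ℤ) + 1) (x + 1)) * f2
    · linear_combination (SR μ s (RC C) η (fun u => W μ s η ((N : ℤ), u) m (y - u)) T ((i : ℤ) + 1) x) * f1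
    · linear_combination (SR μ s (RC C) η (fun u => W μ s η ((N : ℤ), u) m (y - u)) T ((i : ℤ) + 1) (x + 1)) * f2
    · ring

open Classical in
/-- The quenched probability that the first `T` steps of the bridge `(0, x) → (T + m, y)` satisfy `Q`. -/
def eG (μ : Measure ℝ) (s : ℝ) (η : Env) (T m : ℕ) (x y : ℤ) (Q : Finset ℕ → Prop) : ℝ :=
  ∑ S ∈ (range T).powerset, if Q S then Gg μ s η (gB μ s η T m y) T x S else 0

theorem eG_nonneg (η : Env) (T m : ℕ) (x y : ℤ) (Q : Finset ℕ → Prop) : 0 ≤ eG μ s η T m x y Q := by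
  unfold eG
  refine sum_nonneg fun S _ => ?_
  split_ifs
  · exact Gg_nonneg (gB_nonneg η T m y) _ _ _
  · exact le_rfl

theorem eG_mono (η : Env) (T m : ℕ) (x y : ℤ) {Q Q' : Finset ℕ → Prop} (hQ : ∀ S ⊆ range T, Q S → Q' S) :
    eG μ s η T m x y Q ≤ eG μ s η T m x y Q' := by
  unfold eG
  refine sum_le_sum fun S hS => ?_
  by_cases h1 : Q S
  · rw [if_pos h1, if_pos (hQ S (mem_powerset.1 hS) h1)]
  · rw [if_neg h1]
    split_ifs
    · exact Gg_nonneg (gB_nonneg η T m y) _ _ _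
    · exact le_rfl

theorem eG_or (η : Env) (T m : ℕ) (x y : ℤ) {Q Q1 Q2 : Finset ℕ → Prop} (hQ : ∀ S ⊆ range T, Q S → Q1 S ∨ Q2 S) :
    eG μ s η T m x y Q ≤ eG μ s η T m x y Q1 + eG μ s η T m x y Q2 := by
  classical
  unfold eG
  rw [← sum_add_distrib]
  refine sum_le_sum fun S hS => ?_
  have g0 := Gg_nonneg (μ := μ) (s := s) (η := η) (gB_nonneg (μ := μ) (s := s) η T m y) T x S
  have g1 : 0 ≤ (if Q1 S then Gg μ s η (gB μ s η T m y) T x S else 0) := by
    split_ifs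
    · exact g0
    · exact le_rfl
  have g2 : 0 ≤ (if Q2 S then Gg μ s η (gB μ s η T m y) T x S else 0) := by
    split_ifs
    · exact g0
    · exact le_rfl
  by_cases h1 : Q S
  · rw [if_pos h1]
    rcases hQ S (mem_powerset.1 hS) h1 with h2 | h2
    · rw [if_pos h2]
      linarith
    · rw [if_pos h2]
      linarith
  · rw [if_neg h1]
    linarith

/-- The probability as an arrow probability. -/
theorem eG_pQ (η : Env) (T m : ℕ) {x y : ℤ} (a0 : 0 ≤ y - x) (a1 : y - x ≤ ((T + m : ℕ) : ℤ)) (Q : Finset ℕ → Prop) :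
    eG μ s η T m x y Q = pQ (fld μ s η T m y) T x Q := by
  classical
  unfold eG pQ
  rw [sum_filter]
  refine sum_congr rfl fun S hS => ?_
  by_cases h1 : Q S
  · rw [if_pos h1, if_pos h1, PX_fld η T m y a0 a1 (mem_powerset.1 hS)]
  · rw [if_neg h1, if_neg h1]

theorem sh_sh' (η : Env) (i x : ℤ) : sh (0, x) (sh (i, 0) η) = sh (i, x) η := by
  funext q
  show η (q + (0, x) + (i, 0)) = η (q + (i, x))
  congr 1
  refine Prod.ext ?_ ?_
  · show q.1 + 0 + i = q.1 + i
    ring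
  · show q.2 + x + 0 = q.2 + x
    ring

/-- **THE KILLED MASS IS THE PROBABILITY TO STAY.** -/
theorem ast_eq (η : Env) {p : ℕ → ℝ} (C : ℕ → ℤ → Prop) (i T m : ℕ) {x y : ℤ} (hp : ∀ k, i ≤ k → k < i + (T + m) → p k = Real.exp (s + h))
    (a0 : 0 ≤ y - x) (a1 : y - x ≤ ((T + m : ℕ) : ℤ)) :
    ast (wt η) p C T i (T + m) x y = (1 - eG μ s (sh ((i : ℤ), 0) η) T m x y fun S => ¬ ∀ k < T, C (i + k + 1) (x + pos S (k + 1))) *
      ker (wt η) p i (T + m) x y := by
  classical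
  have q1 : 0 < kW μ s (sh ((i : ℤ), 0) η) 0 (T + m) x y := kW_pos _ 0 (by omega) (by omega)
  have z1 : Zt μ s (sh ((i : ℤ), 0) η) (gB μ s (sh ((i : ℤ), 0) η) T m y) T 0 x = kW μ s (sh ((i : ℤ), 0) η) 0 (T + m) x y := by
    rw [Zt_gB _ T m y T 0 (by omega)]
    rfl
  have g1 : ∀ u : ℤ, W μ s η (((i + T : ℕ) : ℤ), u) m (y - u) = gB μ s (sh ((i : ℤ), 0) η) T m y u := by
    intro u
    unfold gB
    rw [W_sh]
    congr 1
    refine Prod.ext ?_ ?_
    · show ((i + T : ℕ) : ℤ) = (T : ℤ) + i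
      push_cast
      ring
    · show u = u + 0
      ring
  rw [ast_SR (μ := μ) (s := s) (h := h) η C m y (N := i + T) T i x rfl (fun k h1 h2 => hp k h1 (by omega)),
    ker_fa (μ := μ) (s := s) (h := h) η i (T + m) x y hp, kW_row]
  -- the total mass
  have hSR : SR μ s (RC C) η (fun u => W μ s η (((i + T : ℕ) : ℤ), u) m (y - u)) T i x =
      ∑ S ∈ (range T).powerset, if ∀ k < T, C (i + k + 1) (x + pos S (k + 1)) then
        pth μ s (sh (0, x) (sh ((i : ℤ), 0) η)) T S * gB μ s (sh ((i : ℤ), 0) η) T m y (x + pos S T) else 0 := by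
    unfold SR
    have e1 : ∀ z : ℤ, WR μ s (RC C) η ((i : ℤ), x) T z = ∑ S ∈ (range T).powerset,
        if pos S T = z ∧ ∀ k < T, C (i + k + 1) (x + pos S (k + 1)) then pth μ s (sh (0, x) (sh ((i : ℤ), 0) η)) T S else 0 := by
      intro z
      have e2 := WR_sh (μ := μ) (s := s) (RC C) η 0 ((i : ℤ), x) T z
      rw [zero_add] at e2
      rw [← e2, WR_path]
      refine sum_congr rfl fun S _ => ?_
      have e3 : Stay {q : Pt | q + ((i : ℤ), x) ∈ RC C} T S ↔ ∀ k < T, C (i + k + 1) (x + pos S (k + 1)) := by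
        unfold Stay
        refine forall₂_congr fun k _ => ?_
        have e4 : ((((k : ℤ) + 1, pos S (k + 1)) : Pt) + ((i : ℤ), x)) = (((i + k : ℕ) : ℤ) + 1, x + pos S (k + 1)) := by
          refine Prod.ext ?_ ?_
          · show (k : ℤ) + 1 + i = ((i + k : ℕ) : ℤ) + 1
            push_cast
            ring
          · show pos S (k + 1) + x = x + pos S (k + 1)
            ring
        show ((((k : ℤ) + 1, pos S (k + 1)) : Pt) + ((i : ℤ), x)) ∈ RC C ↔ _
        rw [e4, mem_RC]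
      rw [sh_sh']
      by_cases h1 : pos S T = z ∧ ∀ k < T, C (i + k + 1) (x + pos S (k + 1))
      · rw [if_pos h1, if_pos ⟨h1.1, e3.2 h1.2⟩]
      · rw [if_neg h1, if_neg fun h2 => h1 ⟨h2.1, e3.1 h2.2⟩]
    have e5 : ∀ z ∈ Icc (0 : ℤ) T, WR μ s (RC C) η ((i : ℤ), x) T z * W μ s η (((i + T : ℕ) : ℤ), x + z) m (y - (x + z)) =
        ∑ S ∈ (range T).powerset, if pos S T = z then (if ∀ k < T, C (i + k + 1) (x + pos S (k + 1)) then
        pth μ s (sh (0, x) (sh ((i : ℤ), 0) η)) T S * gB μ s (sh ((i : ℤ), 0) η) T m y (x + pos S T) else 0) else 0 := by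
      intro z _
      rw [e1, g1, sum_mul]
      refine sum_congr rfl fun S _ => ?_
      by_cases h1 : pos S T = z
      · rw [if_pos h1]
        by_cases h2 : ∀ k < T, C (i + k + 1) (x + pos S (k + 1))
        · rw [if_pos ⟨h1, h2⟩, if_pos h2, h1]
        · rw [if_neg fun h3 => h2 h3.2, if_neg h2, zero_mul]
      · rw [if_neg fun h3 => h1 h3.1, if_neg h1, zero_mul]
    rw [sum_congr rfl e5, sum_comm]
    refine sum_congr rfl fun S _ => ?_
    rw [sum_ite_eq, if_pos (mem_Icc.2 ⟨pos_nonneg _ _, pos_le _ _⟩)]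
  have hT : kW μ s (sh ((i : ℤ), 0) η) 0 (T + m) x y =
      ∑ S ∈ (range T).powerset, pth μ s (sh (0, x) (sh ((i : ℤ), 0) η)) T S * gB μ s (sh ((i : ℤ), 0) η) T m y (x + pos S T) := by
    rw [← z1, Zt_path]
  have key : SR μ s (RC C) η (fun u => W μ s η (((i + T : ℕ) : ℤ), u) m (y - u)) T i x =
      (1 - eG μ s (sh ((i : ℤ), 0) η) T m x y fun S => ¬ ∀ k < T, C (i + k + 1) (x + pos S (k + 1))) *
        kW μ s (sh ((i : ℤ), 0) η) 0 (T + m) x y := by
    rw [sub_mul, one_mul, hSR]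
    have e6 : (eG μ s (sh ((i : ℤ), 0) η) T m x y fun S => ¬ ∀ k < T, C (i + k + 1) (x + pos S (k + 1))) *
        kW μ s (sh ((i : ℤ), 0) η) 0 (T + m) x y = ∑ S ∈ (range T).powerset, if ¬ ∀ k < T, C (i + k + 1) (x + pos S (k + 1)) then
        pth μ s (sh (0, x) (sh ((i : ℤ), 0) η)) T S * gB μ s (sh ((i : ℤ), 0) η) T m y (x + pos S T) else 0 := by
      unfold eG
      rw [sum_mul]
      refine sum_congr rfl fun S _ => ?_
      by_cases h1 : ¬ ∀ k < T, C (i + k + 1) (x + pos S (k + 1))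
      · rw [if_pos h1, if_pos h1]
        unfold Gg
        rw [z1, div_mul_cancel₀ _ q1.ne']
      · rw [if_neg h1, if_neg h1, zero_mul]
    rw [e6, hT, ← sum_sub_distrib]
    refine sum_congr rfl fun S _ => ?_
    by_cases h1 : ∀ k < T, C (i + k + 1) (x + pos S (k + 1))
    · rw [if_pos h1, if_neg (not_not.2 h1), sub_zero]
    · rw [if_neg h1, if_pos h1, sub_self]
  rw [key]
  ring

end

end Pool.Agent.W_7d29a1_C1.KM35
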