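import Pool.Agent.W_7d29a1_C1.KBv21
import Pool.Agent.W_7d29a1_C1.KSa60
import Pool.Agent.W_7d29a1_C1.KEw24

/-!
MP_7d29a1_pr, attractor route [C1], SHELL, CLOSE: THE RECORD `Pcs` AND `KSep` FROM THE FOUR BLOCKS (helper35): `Pb21` (first buffer),
`Pu60` (inside and tube), `Pw24` (slab of small cross ratio), `Py24` (lane and last buffer), each with its own constants.
-/

set_option autoImplicit false
set_option linter.unusedSectionVars false

namespace Pool.Agent.W_7d29a1_C1.Sh21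

open Finset MeasureTheory Pool.Agent.W_7d29a1_F Pool.Agent.W_7d29a1_h4g Pool.Agent.W_7d29a1_H Pool.Agent.W_7d29a1_HS
open Pool.Agent.W_7d29a1_C1
open Pool.Agent.W_7d29a1_C1.K91 (wt wt_pos)
open Pool.Agent.W_7d29a1_C1.FarW89 (nk nk_nonneg)
open Pool.Agent.W_7d29a1_C1.S12 (Lam12 Lam12_pos)
open Pool.Agent.W_7d29a1_C1.H60 (kf_nk60 Pu60 low60)
open Pool.Agent.W_7d29a1_C1.P24 (Pw24 Py24)
open Pool.Agent.W_7d29a1_C1.CR76 Pool.Agent.W_7d29a1_C1.F74 Pool.Agent.W_7d29a1_C1.R26P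

noncomputable section

variable {w : ℕ → ℤ → ℝ} {p : ℕ → ℝ} {lo h : ℤ} {c0 n1 na ng nb n3 : ℕ}
  {a1 b1 a2 b2 xa xb s da db ya yb za zb va vb xm xn ua ub : ℤ} {kc k0 k1 kg ke k2 : ℤ → ℤ → ℝ} {d0 : Finset ℤ}
  {δ e es L L0 A0 Aa Am A2 A3 : ℝ}

theorem Stp.up35 {r n : ℕ} {S Z : Finset ℤ} {k k' : ℤ → ℤ → ℝ} {L₁ L₂ A : ℝ} (H : Stp w p lo h r n S Z k k' L₁ A) (hL : L₁ ≤ L₂)
    (hA : 0 ≤ A) (hk : ∀ x ∈ S, ∀ z ∈ Z, 0 ≤ k x z) : Stp w p lo h r n S Z k k' L₂ A := fun x hx z hz =>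
  (H x hx z hz).trans (mul_le_mul_of_nonneg_right (mul_le_mul_of_nonneg_right hL hA) (hk x hx z hz))

/-- **THE RECORD FROM THE FOUR BLOCKS.** -/
theorem pcs35 {δB eB LB eU δW eW LW δY eY LY : ℝ}
    (B : Pb21 w p lo h c0 n1 a1 b1 a2 b2 xa xb s (Icc lo (h + n1 + na + ng + nb + n3)) kc k0 k1 δB eB es LB L0 A0)
    (U : Pu60 w p lo (h + n1) (c0 + n1) na (Icc lo (h + n1 + na + ng + nb + n3)) xa xb va vb k1 kg eU Aa)
    (W : Pw24 w p lo (h + n1 + na) (c0 + n1 + na) ng (Icc lo (h + n1 + na + ng + nb + n3)) a1 a2 da db va vb xm xn ua ub d0 kc kg ke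
      δW eW LW Am)
    (Y : Py24 w p lo (h + n1 + na + ng) (c0 + n1 + na + ng) nb n3 (Icc lo (h + n1 + na + ng + nb + n3)) a1 b2 da db ya yb za zb ua ub
      kc ke k2 δY eY LY A2 A3)
    (hw : ∀ k y, 0 < w k y) (hp : ∀ k, 0 < p k) (A0p : 0 < A0) (e0 : 0 ≤ e) (L1 : 1 ≤ L) (L01 : 1 ≤ L0) (δ0 : 0 ≤ δ)
    (d1 : δB ≤ δ) (d2 : δW ≤ δ) (d3 : δY ≤ δ) (e1 : eB ≤ e) (e2 : eU ≤ e) (e3 : eW ≤ e) (e4 : eY ≤ e) (l1 : LB ≤ L) (l2 : LW ≤ L)
    (l3 : LY ≤ L) (l0a : ∀ x ∈ cl2 a1 b1 a2 b2, A0 * Aa ≤ L ^ 2 * ∑ y ∈ Icc va vb, kf w p c0 (n1 + na) x y) (g0 : a1 ≤ va)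
    (g5 : vb ≤ a2 + (n1 + na : ℕ)) :
    Pcs w p lo h c0 n1 na ng nb n3 a1 b1 a2 b2 xa xb da db ya yb za zb va vb xm xn ua ub d0 kc k0 k1 kg ke k2 δ e L L0 A0 Aa Am A2 A3 ∧
      KSep w p lo h c0 n1 a1 a2 s (Icc lo (h + n1 + na + ng + nb + n3)) kc k1 es A0 := by
  have m1 : a1 ∈ cl2 a1 b1 a2 b2 := by
    have h1 := B.g.h1
    unfold cl2
    simp only [mem_union, mem_Icc]
    omega
  have m3 : a2 ∈ cl2 a1 b1 a2 b2 := by
    have h3 := B.g.h3
    unfold cl2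
    simp only [mem_union, mem_Icc]
    omega
  have m4 : b2 ∈ cl2 a1 b1 a2 b2 := by
    have h3 := B.g.h3
    unfold cl2
    simp only [mem_union, mem_Icc]
    omega
  have sub := B.g.sub
  have kk : ∀ {e' C x : ℝ}, e' ≤ e → 0 ≤ C → 0 ≤ x → e' * C * x ≤ e * C * x := fun he hC hx =>
    mul_le_mul_of_nonneg_right (mul_le_mul_of_nonneg_right he hC) hx
  have kn : ∀ (T : Finset ℤ) (r n : ℕ) (x : ℤ), 0 ≤ ∑ y ∈ T, kf w p r n x y := fun T r n x =>
    sum_nonneg fun y _ => kf_nonneg hw hp _ _ _ _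
  refine ⟨?_, B.sp⟩
  exact
    { g := B.g
      δ0 := δ0
      e0 := e0
      L1 := L1
      L01 := L01
      A0p := A0p
      Aap := U.Aap
      Amp := W.Amp
      A2p := Y.A2p
      A3p := Y.A3p
      kcn := B.kcn
      kck := B.kck
      k0n := B.k0n
      k1n := B.k1n
      kgn := fun x _ z => U.kgn x z
      ken := fun x _ z => Y.ken x z
      k2n := fun x _ z => Y.k2n x z
      c1 := B.c1.trans (by linarith)
      c2 := B.c2.trans (by linarith)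
      q1 := B.q1
      q2 := B.q2
      s0 := B.s0.up35 l1 A0p.le fun x hx z _ => B.k0n x hx z
      s0c := B.s0c.up35 l1 A0p.le fun x hx z _ => B.kcn x hx z
      xl := fun a ha z hz => (B.xl a ha z hz).trans (kk e1 A0p.le (B.kcn a ha z))
      xr := fun a ha z hz => (B.xr a ha z hz).trans (kk e1 A0p.le (B.kcn a ha z))
      l0a := l0a
      sa := U.sa.up35 L1 U.Aap.le fun x _ z _ => U.k1n x z
      wl := fun x hx h1 h2 z hz => (U.wl x hx h1 h2 z hz).trans (kk e2 U.Aap.le (U.k1n x z))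
      g0 := g0
      g1 := W.g1
      g2 := W.g2
      g3 := W.g3
      g4 := W.g4
      g5 := g5
      d0s := W.d0s
      d0d := W.d0d
      sm := W.sm.up35 l2 W.Amp.le fun x _ z _ => W.kgn x z
      lm := fun x hx => (W.lm x hx).trans (mul_le_mul_of_nonneg_right l2 (kn _ _ _ _))
      xm1 := fun z hz => (W.xm1 z hz).trans (kk e3 W.Amp.le (B.kcn a1 m1 z))
      xm2 := fun z hz => (W.xm2 z hz).trans (kk e3 W.Amp.le (B.kcn a2 m3 z))
      crm := W.crm.trans (by linarith)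
      fe := fun x hx z hz => (W.fe x hx z hz).trans (kk e3 W.Amp.le (W.kgn x z))
      gd := Y.gd
      gy := Y.gy
      gx := Y.gx
      s2 := Y.s2.up35 l3 Y.A2p.le fun x _ z _ => Y.ken x z
      l2 := fun v hv => (Y.l2 v hv).trans (mul_le_mul_of_nonneg_right l3 (kn _ _ _ _))
      of := fun v hv h1 h2 z hz => (Y.of v hv h1 h2 z hz).trans (kk e4 Y.A2p.le (Y.ken v z))
      s3 := fun y hy z hz => (Y.s3 y hy z hz).trans (mul_le_mul_of_nonneg_right (mul_le_mul_of_nonneg_right l3 Y.A3p.le) (Y.k2n y z))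
      l3 := fun y hy => (Y.l3 y hy).trans (mul_le_mul_of_nonneg_right l3 (kf_nonneg hw hp _ _ _ _))
      cx := Y.cx.trans (by linarith)
      yl := fun z hz hlt => (Y.yl z hz hlt).trans (kk e4 Y.A3p.le (B.kcn a1 m1 z))
      yr := fun z hz hlt => (Y.yr z hz hlt).trans (kk e4 Y.A3p.le (B.kcn b2 m4 z)) }

theorem lam_add35 {μ : Measure ℝ} {sp hh : ℝ} (M r n m : ℕ) :
    Lam12 μ sp hh M r (n + m) = Lam12 μ sp hh M r n * Lam12 μ sp hh M (r + n) m := by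
  unfold Lam12
  rw [← Real.exp_add, FarW89.bl_add]
  congr 1
  push_cast
  ring

/-- **THE FIELD `l0a`** from one lower bound of the normalised kernel with the strength `A`, at one end `v` of the window. -/
theorem l0a35 {μ : Measure ℝ} {sp hh : ℝ} {η : Env} {M : ℕ} {A E U u u' : ℝ} {x v : ℤ} (hp : ∀ k, 0 < p k) (hv : v ∈ Icc va vb)
    (hA : 0 ≤ A) (hk : Real.exp (-(U * E)) * A ≤ nk μ sp hh η p M c0 (n1 + na) x v) (hx : Real.exp (-(u * E)) ≤ wt η c0 x)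
    (hy : wt η (c0 + (n1 + na)) v ≤ Real.exp (u' * E)) (hL : Real.exp ((U + u + u') * E) ≤ L) :
    Lam12 μ sp hh M c0 n1 * A * Lam12 μ sp hh M (c0 + n1) na ≤ L * ∑ y ∈ Icc va vb, kf (wt η) p c0 (n1 + na) x y := by
  have hwx := wt_pos η c0 x
  have hwv := wt_pos η (c0 + (n1 + na)) v
  have hΛ := Lam12_pos (μ := μ) (s := sp) (h := hh) M c0 (n1 + na)
  have e1 : Lam12 μ sp hh M c0 n1 * Lam12 μ sp hh M (c0 + n1) na = Lam12 μ sp hh M c0 (n1 + na) := (lam_add35 M c0 n1 na).symm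
  have e2 : Lam12 μ sp hh M c0 n1 * A * Lam12 μ sp hh M (c0 + n1) na = Lam12 μ sp hh M c0 (n1 + na) * A := by
    rw [← e1]
    ring
  rw [e2]
  have h1 : Real.exp (-((u + u') * E)) ≤ wt η c0 x / wt η (c0 + (n1 + na)) v := by
    rw [le_div_iff₀ hwv]
    refine le_trans ?_ hx
    have := mul_le_mul_of_nonneg_left hy (Real.exp_pos (-((u + u') * E))).le
    refine this.trans (le_of_eq ?_)
    rw [← Real.exp_add]
    congr 1
    ring
  have h2 : Real.exp (-((U + u + u') * E)) * A ≤ wt η c0 x / wt η (c0 + (n1 + na)) v * nk μ sp hh η p M c0 (n1 + na) x v := by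
    have h3 := mul_le_mul h1 hk (mul_nonneg (Real.exp_pos _).le hA) (div_nonneg hwx.le hwv.le)
    refine le_trans (le_of_eq ?_) h3
    rw [← mul_assoc, ← Real.exp_add]
    congr 2
    ring
  have h4 : Lam12 μ sp hh M c0 (n1 + na) * A ≤ Real.exp ((U + u + u') * E) * kf (wt η) p c0 (n1 + na) x v := by
    rw [kf_nk60 (μ := μ) (s := sp) (h := hh) (M := M) x v]
    have h5 := mul_le_mul_of_nonneg_left h2 (mul_nonneg (Real.exp_pos ((U + u + u') * E)).le hΛ.le)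
    refine le_trans (le_of_eq ?_) (h5.trans (le_of_eq ?_))
    · have : Real.exp ((U + u + u') * E) * Real.exp (-((U + u + u') * E)) = 1 := by
        rw [← Real.exp_add, add_neg_cancel, Real.exp_zero]
      calc Lam12 μ sp hh M c0 (n1 + na) * A = (Real.exp ((U + u + u') * E) * Real.exp (-((U + u + u') * E))) *
            (Lam12 μ sp hh M c0 (n1 + na) * A) := by rw [this, one_mul]
        _ = _ := by ring
    · ring
  have kn : ∀ y, 0 ≤ kf (wt η) p c0 (n1 + na) x y := fun y => kf_nonneg (wt_pos η) hp _ _ _ _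
  exact h4.trans (mul_le_mul hL (single_le_sum (f := fun y => kf (wt η) p c0 (n1 + na) x y) (fun y _ => kn y) hv) (kn v)
    ((Real.exp_pos _).le.trans hL))

end

end Pool.Agent.W_7d29a1_C1.Sh21
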