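import Pool.Agent.W_7d29a1_C1.KP35

/-!
MP_7d29a1_pr, [C1], THE FIRST MEETING IN THE BOX, the inequality in one environment (helper35). `eG_right`, `eG_left`: the exits to one
side are monotone in the two ends; `Gg_rows`: the bridges read only the rows strictly between the two ends; `ast_union`; `mq_ge`: in every
environment the first meeting is a contact of `Q` up to three exits and the pairs which do not meet.
-/

set_option autoImplicit false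

namespace Pool.Agent.W_7d29a1_C1.KM35

open Finset MeasureTheory
open Pool.Agent.W_7d29a1_F
open Pool.Agent.W_7d29a1_X (pos pth pth_nonneg pos_nonneg pos_le pos_zero)
open Pool.Agent.W_7d29a1_C1.K91 (wt wt_pos)
open Pool.Agent.W_7d29a1_C1.K91P
open Pool.Agent.W_7d29a1_C1.U16 (ker ker_zero ker_succ ker_nonneg W_last)
open Pool.Agent.W_7d29a1_C1.Bx47 (mq ker_left)
open Pool.Agent.W_7d29a1_C1.Arr89 (ps ps_succ ps_zero NI Zt Gg PX pa flow pos_pa)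
open Pool.Agent.W_7d29a1_C1.Arr35 (pQ)
open Pool.Agent.W_7d29a1_C1.MeetG35 (Zt_path Gg_nonneg Gg_sum_le exG)
open Pool.Agent.W_7d29a1_C1.MeetP35 (PBr PP gB gB_nonneg Zt_gB fld fld_nonneg fld_le_one fld_mono PX_fld PBr_nonneg)
open Pool.Agent.W_7d29a1_C1.ArrM56 (pQ_eqM E1 RR RR_mono flow_mono2 PU)

noncomputable section

variable {μ : Measure ℝ} {s h : ℝ}

/-! ### Monotonicity of the exits to one side -/

theorem eG_right (η : Env) (T m : ℕ) {x y x₁ y₁ : ℤ} (hx : x ≤ x₁) (hy : y ≤ y₁) (a0 : 0 ≤ y - x) (a1 : y - x ≤ ((T + m : ℕ) : ℤ))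
    (b0 : 0 ≤ y₁ - x₁) (b1 : y₁ - x₁ ≤ ((T + m : ℕ) : ℤ)) (F : ℕ → ℝ) :
    (eG μ s η T m x y fun S => ∃ k ≤ T, F k < ((x + pos S k : ℤ) : ℝ)) ≤
      eG μ s η T m x₁ y₁ fun S => ∃ k ≤ T, F k < ((x₁ + pos S k : ℤ) : ℝ) := by
  rw [eG_pQ η T m a0 a1, eG_pQ η T m b0 b1,
    pQ_eqM (fun k z => fld_nonneg η T m y k z) (fun k z => fld_le_one η T m y k z) (a := x) (b := x₁ + T) le_rfl (by omega),
    pQ_eqM (fun k z => fld_nonneg η T m y₁ k z) (fun k z => fld_le_one η T m y₁ k z) (a := x) (b := x₁ + T) hx le_rfl]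
  refine measureReal_mono ?_ (measure_ne_top _ _)
  intro U hU
  unfold Pool.Agent.W_7d29a1_C1.ArrM56.E1 at hU ⊢
  rw [Set.mem_ofPred_eq] at hU ⊢
  obtain ⟨k, hk, h2⟩ := hU
  refine ⟨k, hk, lt_of_lt_of_le h2 ?_⟩
  have e1 : x + pos (pa (RR (fld μ s η T m y) T x (x₁ + T) U) x T) k = flow (RR (fld μ s η T m y) T x (x₁ + T) U) x k := pos_pa _ _ hk
  have e2 : x₁ + pos (pa (RR (fld μ s η T m y₁) T x (x₁ + T) U) x₁ T) k = flow (RR (fld μ s η T m y₁) T x (x₁ + T) U) x₁ k :=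
    pos_pa _ _ hk
  rw [e1, e2]
  exact_mod_cast flow_mono2 (RR_mono (fun k z => fld_mono η T m hy k z) T x (x₁ + T) U) hx k

theorem eG_left (η : Env) (T m : ℕ) {x y x₁ y₁ : ℤ} (hx : x₁ ≤ x) (hy : y₁ ≤ y) (a0 : 0 ≤ y - x) (a1 : y - x ≤ ((T + m : ℕ) : ℤ))
    (b0 : 0 ≤ y₁ - x₁) (b1 : y₁ - x₁ ≤ ((T + m : ℕ) : ℤ)) (F : ℕ → ℝ) :
    (eG μ s η T m x y fun S => ∃ k ≤ T, ((x + pos S k : ℤ) : ℝ) < F k) ≤
      eG μ s η T m x₁ y₁ fun S => ∃ k ≤ T, ((x₁ + pos S k : ℤ) : ℝ) < F k := by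
  rw [eG_pQ η T m a0 a1, eG_pQ η T m b0 b1,
    pQ_eqM (fun k z => fld_nonneg η T m y k z) (fun k z => fld_le_one η T m y k z) (a := x₁) (b := x + T) hx le_rfl,
    pQ_eqM (fun k z => fld_nonneg η T m y₁ k z) (fun k z => fld_le_one η T m y₁ k z) (a := x₁) (b := x + T) le_rfl (by omega)]
  refine measureReal_mono ?_ (measure_ne_top _ _)
  intro U hU
  unfold Pool.Agent.W_7d29a1_C1.ArrM56.E1 at hU ⊢
  rw [Set.mem_ofPred_eq] at hU ⊢
  obtain ⟨k, hk, h2⟩ := hU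
  refine ⟨k, hk, lt_of_le_of_lt ?_ h2⟩
  have e1 : x + pos (pa (RR (fld μ s η T m y) T x₁ (x + T) U) x T) k = flow (RR (fld μ s η T m y) T x₁ (x + T) U) x k := pos_pa _ _ hk
  have e2 : x₁ + pos (pa (RR (fld μ s η T m y₁) T x₁ (x + T) U) x₁ T) k = flow (RR (fld μ s η T m y₁) T x₁ (x + T) U) x₁ k :=
    pos_pa _ _ hk
  rw [e1, e2]
  exact_mod_cast flow_mono2 (RR_mono (fun k z => fld_mono η T m hy k z) T x₁ (x + T) U) hx k

/-! ### The rows -/

/-- The bridges read only the rows strictly between the two ends. -/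
theorem Gg_rows {η η' : Env} {T m : ℕ} (hm : 1 ≤ m) (x y : ℤ) (hη : ∀ q : Pt, 0 < q.1 → q.1 < ((T + m : ℕ) : ℤ) → η q = η' q)
    (S : Finset ℕ) : Gg μ s η (gB μ s η T m y) T x S = Gg μ s η' (gB μ s η' T m y) T x S := by
  obtain ⟨j, rfl⟩ : ∃ j, m = j + 1 := ⟨m - 1, by omega⟩
  -- the weights without the last site
  obtain ⟨A, hA⟩ : ∃ A : Env → ℤ → ℝ, ∀ ζ z, A ζ z = W μ s ζ ((T : ℤ), z) j (y - z) + Real.exp s * W μ s ζ ((T : ℤ), z) j (y - z - 1) :=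
    ⟨_, fun _ _ => rfl⟩
  have hAA : ∀ z, A η z = A η' z := by
    intro z
    have h1 : ∀ v : ℤ, W μ s η ((T : ℤ), z) j v = W μ s η' ((T : ℤ), z) j v := by
      intro v
      refine W_dep (μ := μ) (s := s) ((T : ℤ), z) j v fun q hq => hη q ?_ ?_
      · have := hq.1
        have h2 : (T : ℤ) < q.1 := this
        omega
      · have := hq.2.1
        have h2 : q.1 ≤ (T : ℤ) + j := this
        push_cast
        omega
    rw [hA, hA, h1, h1]
  have hg : ∀ ζ : Env, ∀ z, gB μ s ζ T (j + 1) y z = (Real.exp (-lam μ s) * Real.exp (ζ ((T : ℤ) + (j + 1), y))) * A ζ z := by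
    intro ζ z
    have h1 := W_last (μ := μ) (s := s) ζ ((T : ℤ), z) j (y - z)
    have h2 : Real.exp (-lam μ s) * Real.exp (lam μ s) = 1 := by
      rw [← Real.exp_add, neg_add_cancel, Real.exp_zero]
    have h3 : ((((T : ℤ), z) : Pt).1 + ((j : ℤ) + 1), (((T : ℤ), z) : Pt).2 + (y - z)) = (((T : ℤ) + (j + 1), y) : Pt) := by
      refine Prod.ext rfl ?_
      show z + (y - z) = y
      ring
    rw [h3] at h1
    rw [hA]
    unfold gB
    calc W μ s ζ ((T : ℤ), z) (j + 1) (y - z) = (Real.exp (-lam μ s) * Real.exp (lam μ s)) * W μ s ζ ((T : ℤ), z) (j + 1) (y - z) := by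
          rw [h2, one_mul]
      _ = Real.exp (-lam μ s) * (Real.exp (lam μ s) * W μ s ζ ((T : ℤ), z) (j + 1) (y - z)) := by ring
      _ = _ := by
          rw [h1]
          ring
  have hp : ∀ S : Finset ℕ, pth μ s (sh (0, x) η) T S = pth μ s (sh (0, x) η') T S := by
    intro S
    unfold pth
    congr 1
    refine prod_congr rfl fun k hk => ?_
    rw [mem_range] at hk
    congr 1
    show η (((k : ℤ) + 1, pos S (k + 1)) + (0, x)) = η' (((k : ℤ) + 1, pos S (k + 1)) + (0, x))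
    refine hη _ ?_ ?_
    · show (0 : ℤ) < (k : ℤ) + 1 + 0
      omega
    · show (k : ℤ) + 1 + 0 < ((T + (j + 1) : ℕ) : ℤ)
      push_cast
      omega
  unfold Gg
  rw [Zt_path, Zt_path]
  have e1 : ∀ ζ : Env, ∑ S ∈ (range T).powerset, pth μ s (sh (0, x) ζ) T S * gB μ s ζ T (j + 1) y (x + pos S T) =
      (Real.exp (-lam μ s) * Real.exp (ζ ((T : ℤ) + (j + 1), y))) *
        ∑ S ∈ (range T).powerset, pth μ s (sh (0, x) ζ) T S * A ζ (x + pos S T) := by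
    intro ζ
    rw [mul_sum]
    refine sum_congr rfl fun S _ => ?_
    rw [hg]
    ring
  have e2 : ∀ ζ : Env, pth μ s (sh (0, x) ζ) T S * gB μ s ζ T (j + 1) y (x + pos S T) /
      ∑ S ∈ (range T).powerset, pth μ s (sh (0, x) ζ) T S * gB μ s ζ T (j + 1) y (x + pos S T) =
      pth μ s (sh (0, x) ζ) T S * A ζ (x + pos S T) / ∑ S ∈ (range T).powerset, pth μ s (sh (0, x) ζ) T S * A ζ (x + pos S T) := by
    intro ζ
    have hc : Real.exp (-lam μ s) * Real.exp (ζ ((T : ℤ) + (j + 1), y)) ≠ 0 := by positivity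
    rw [e1, hg]
    have e4 : pth μ s (sh (0, x) ζ) T S * (Real.exp (-lam μ s) * Real.exp (ζ ((T : ℤ) + (j + 1), y)) * A ζ (x + pos S T)) =
        Real.exp (-lam μ s) * Real.exp (ζ ((T : ℤ) + (j + 1), y)) * (pth μ s (sh (0, x) ζ) T S * A ζ (x + pos S T)) := by ring
    rw [e4, mul_div_mul_left _ _ hc]
  rw [e2, e2]
  have e3 : ∀ S : Finset ℕ, pth μ s (sh (0, x) η) T S * A η (x + pos S T) = pth μ s (sh (0, x) η') T S * A η' (x + pos S T) := by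
    intro S
    rw [hp, hAA]
  rw [e3, sum_congr rfl fun S _ => e3 S]

theorem eG_rows {η η' : Env} {T m : ℕ} (hm : 1 ≤ m) (x y : ℤ) (hη : ∀ q : Pt, 0 < q.1 → q.1 < ((T + m : ℕ) : ℤ) → η q = η' q)
    (Q : Finset ℕ → Prop) : eG μ s η T m x y Q = eG μ s η' T m x y Q := by
  classical
  unfold eG
  refine sum_congr rfl fun S _ => ?_
  rw [Gg_rows hm x y hη S]

theorem PBr_rows {η η' : Env} {T m : ℕ} (hm : 1 ≤ m) (x y x' y' : ℤ) (hη : ∀ q : Pt, 0 < q.1 → q.1 < ((T + m : ℕ) : ℤ) → η q = η' q) :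
    PBr μ s η T m x y x' y' = PBr μ s η' T m x y x' y' := by
  unfold PBr PP
  refine sum_congr rfl fun q _ => ?_
  rw [Gg_rows hm x y hη, Gg_rows hm x' y' hη]

/-! ### The union bound for the killed masses -/

section Det

variable {w : ℕ → ℤ → ℝ} {p : ℕ → ℝ}

theorem ast_congr {C C' : ℕ → ℤ → Prop} : ∀ (T i n : ℕ) (x y : ℤ), (∀ k, i < k → ∀ q, C k q ↔ C' k q) →
    ast w p C T i n x y = ast w p C' T i n x y
  | 0, _, _, _, _, _ => rfl
  | _ + 1, _, 0, _, _, _ => rfl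
  | T + 1, i, n + 1, x, y, hC => by
    classical
    rw [ast_succ, ast_succ, ast_congr T (i + 1) n x y fun k hk => hC k (by omega),
      ast_congr T (i + 1) n (x + 1) y fun k hk => hC k (by omega)]
    have h1 := hC (i + 1) (by omega) x
    have h2 := hC (i + 1) (by omega) (x + 1)
    simp only [h1, h2]

/-- Both constraints. -/
theorem ast_union (hw : ∀ k y, 0 < w k y) (hp : ∀ k, 0 < p k) {C₁ C₂ C₃ : ℕ → ℤ → Prop} {N : ℕ}
    (hC : ∀ k q, C₃ k q ↔ C₁ k q ∧ (k ≤ N → C₂ k q)) (y : ℤ) :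
    ∀ (n0 T i n : ℕ) (x : ℤ), i + n0 = N → n0 ≤ T → T ≤ n →
    ast w p C₁ T i n x y + ast w p C₂ n0 i n x y ≤ ast w p C₃ T i n x y + ker w p i n x y
  | 0, T, i, n, x, hN, _, _ => by
    rw [ast_zero, ast_congr (C := C₃) (C' := C₁) T i n x y fun k hk q =>
      ⟨fun h => ((hC k q).1 h).1, fun h => (hC k q).2 ⟨h, fun h2 => absurd h2 (by omega)⟩⟩]
  | n0 + 1, 0, i, n, x, _, h0, _ => absurd h0 (by omega)
  | n0 + 1, T + 1, i, 0, x, _, _, hT => absurd hT (by omega)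
  | n0 + 1, T + 1, i, n + 1, x, hN, h0, hT => by
    classical
    have b1 := hw i x
    have hpk := hp i
    have key : ∀ z : ℤ, (if C₁ (i + 1) z then ast w p C₁ T (i + 1) n z y else 0) + (if C₂ (i + 1) z then ast w p C₂ n0 (i + 1) n z y else 0) ≤
        (if C₃ (i + 1) z then ast w p C₃ T (i + 1) n z y else 0) + ker w p (i + 1) n z y := by
      intro z
      have k0 := ker_nonneg (w := w) (p := p) hw hp (i + 1) n z y
      have k1 := ast_le_ker (w := w) (p := p) hw hp C₁ T (i + 1) n z y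
      have k2 := ast_le_ker (w := w) (p := p) hw hp C₂ n0 (i + 1) n z y
      by_cases h1 : C₁ (i + 1) z
      · by_cases h2 : C₂ (i + 1) z
        · rw [if_pos h1, if_pos h2, if_pos ((hC _ _).2 ⟨h1, fun _ => h2⟩)]
          exact ast_union hw hp hC y n0 T (i + 1) n z (by omega) (by omega) (by omega)
        · rw [if_pos h1, if_neg h2, if_neg (fun h => h2 (((hC _ _).1 h).2 (by omega)))]
          linarith
      · rw [if_neg h1, if_neg (fun h => h1 ((hC (i + 1) z).1 h).1)]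
        split_ifs
        · linarith
        · linarith
    have s1 := key x
    have s2 := mul_le_mul_of_nonneg_left (key (x + 1)) hpk.le
    rw [mul_add, mul_add] at s2
    rw [ast_succ, ast_succ, ast_succ, ker_left, ← mul_add, ← mul_add]
    refine mul_le_mul_of_nonneg_left ?_ b1.le
    linarith

end Det

/-! ### One environment -/

/-- **THE INEQUALITY IN ONE ENVIRONMENT**: `lo k < hi k` = the strip (rows `k ≤ T` after `i`), `md k` = the separation of the two paths in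
the first `n0` rows. -/
theorem mq_ge (η : Env) {p : ℕ → ℝ} (hp0 : ∀ k, 0 < p k) {i n T n0 : ℕ} (hn0 : n0 ≤ T) (hT : T ≤ n)
    (hp : ∀ k, i ≤ k → k < i + n → p k = Real.exp (s + h)) {Q : Finset (ℕ × ℤ)} {lo hi md : ℕ → ℝ} {x x' y y' : ℤ} (hx : x < x')
    (hQ : ∀ k, i + n0 ≤ k → k < i + T → ∀ q : ℤ, lo (k + 1 - i) ≤ q → (q : ℝ) ≤ hi (k + 1 - i) → (k, q) ∈ Q)
    (a0 : 0 ≤ y - x) (a1 : y - x ≤ (n : ℤ)) (a0' : 0 ≤ y' - x') (a1' : y' - x' ≤ (n : ℤ)) :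
    (1 - ((eG μ s (sh ((i : ℤ), 0) η) T (n - T) x y fun S => ∃ k ≤ T, hi k < ((x + pos S k : ℤ) : ℝ)) +
      (eG μ s (sh ((i : ℤ), 0) η) T (n - T) x y fun S => ∃ k ≤ T, ((x + pos S k : ℤ) : ℝ) < lo k) +
      (eG μ s (sh ((i : ℤ), 0) η) n0 (n - n0) x y fun S => ∃ k ≤ n0, md k - 1 < ((x + pos S k : ℤ) : ℝ)) +
      (eG μ s (sh ((i : ℤ), 0) η) n0 (n - n0) x' y' fun S => ∃ k ≤ n0, ((x' + pos S k : ℤ) : ℝ) < md k) +
      PBr μ s (sh ((i : ℤ), 0) η) T (n - T) x y x' y')) * (ker (wt η) p i n x y * ker (wt η) p i n x' y') ≤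
      mq (wt η) p Q i n x x' y y' := by
  obtain ⟨C₁, hC₁⟩ : ∃ C₁ : ℕ → ℤ → Prop, ∀ k q, C₁ k q ↔ (lo (k - i) ≤ (q : ℝ) ∧ (q : ℝ) ≤ hi (k - i)) := ⟨_, fun _ _ => Iff.rfl⟩
  obtain ⟨C₂, hC₂⟩ : ∃ C₂ : ℕ → ℤ → Prop, ∀ k q, C₂ k q ↔ (q : ℝ) ≤ md (k - i) - 1 := ⟨_, fun _ _ => Iff.rfl⟩
  obtain ⟨C', hC'⟩ : ∃ C' : ℕ → ℤ → Prop, ∀ k q, C' k q ↔ md (k - i) ≤ (q : ℝ) := ⟨_, fun _ _ => Iff.rfl⟩
  have hwt := wt_pos η
  have eT : T + (n - T) = n := by omega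
  have e0 : n0 + (n - n0) = n := by omega
  have k1 := ker_nonneg (w := wt η) (p := p) hwt hp0 i n x y
  have k2 := ker_nonneg (w := wt η) (p := p) hwt hp0 i n x' y'
  -- the exits
  have A1 : (1 - ((eG μ s (sh ((i : ℤ), 0) η) T (n - T) x y fun S => ∃ k ≤ T, hi k < ((x + pos S k : ℤ) : ℝ)) +
      (eG μ s (sh ((i : ℤ), 0) η) T (n - T) x y fun S => ∃ k ≤ T, ((x + pos S k : ℤ) : ℝ) < lo k))) * ker (wt η) p i n x y ≤
      ast (wt η) p C₁ T i n x y := by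
    have h1 := ast_eq (μ := μ) (s := s) (h := h) η (p := p) C₁ i T (n - T) (x := x) (y := y)
      (fun k h1 h2 => hp k h1 (by omega)) a0 (by rw [eT]; exact a1)
    rw [eT] at h1
    rw [h1]
    refine mul_le_mul_of_nonneg_right ?_ k1
    have h2 := eG_or (μ := μ) (s := s) (sh ((i : ℤ), 0) η) T (n - T) x y
      (Q := fun S => ¬ ∀ k < T, C₁ (i + k + 1) (x + pos S (k + 1)))
      (Q1 := fun S => ∃ k ≤ T, hi k < ((x + pos S k : ℤ) : ℝ)) (Q2 := fun S => ∃ k ≤ T, ((x + pos S k : ℤ) : ℝ) < lo k) (by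
      intro S _ h3
      push Not at h3
      obtain ⟨k, hk, h4⟩ := h3
      rw [hC₁, show i + k + 1 - i = k + 1 by omega] at h4
      by_cases h5 : lo (k + 1) ≤ ((x + pos S (k + 1) : ℤ) : ℝ)
      · exact Or.inl ⟨k + 1, hk, not_le.1 fun h6 => h4 ⟨h5, h6⟩⟩
      · exact Or.inr ⟨k + 1, hk, not_le.1 h5⟩)
    linarith
  have A2 : (1 - (eG μ s (sh ((i : ℤ), 0) η) n0 (n - n0) x y fun S => ∃ k ≤ n0, md k - 1 < ((x + pos S k : ℤ) : ℝ))) *
      ker (wt η) p i n x y ≤ ast (wt η) p C₂ n0 i n x y := by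
    have h1 := ast_eq (μ := μ) (s := s) (h := h) η (p := p) C₂ i n0 (n - n0) (x := x) (y := y)
      (fun k h1 h2 => hp k h1 (by omega)) a0 (by rw [e0]; exact a1)
    rw [e0] at h1
    rw [h1]
    refine mul_le_mul_of_nonneg_right ?_ k1
    have h2 := eG_mono (μ := μ) (s := s) (sh ((i : ℤ), 0) η) n0 (n - n0) x y
      (Q := fun S => ¬ ∀ k < n0, C₂ (i + k + 1) (x + pos S (k + 1)))
      (Q' := fun S => ∃ k ≤ n0, md k - 1 < ((x + pos S k : ℤ) : ℝ)) (by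
      intro S _ h3
      push Not at h3
      obtain ⟨k, hk, h4⟩ := h3
      rw [hC₂, show i + k + 1 - i = k + 1 by omega] at h4
      exact ⟨k + 1, hk, not_le.1 h4⟩)
    linarith
  have A3 : (1 - (eG μ s (sh ((i : ℤ), 0) η) n0 (n - n0) x' y' fun S => ∃ k ≤ n0, ((x' + pos S k : ℤ) : ℝ) < md k)) *
      ker (wt η) p i n x' y' ≤ ast (wt η) p C' n0 i n x' y' := by
    have h1 := ast_eq (μ := μ) (s := s) (h := h) η (p := p) C' i n0 (n - n0) (x := x') (y := y')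
      (fun k h1 h2 => hp k h1 (by omega)) a0' (by rw [e0]; exact a1')
    rw [e0] at h1
    rw [h1]
    refine mul_le_mul_of_nonneg_right ?_ k2
    have h2 := eG_mono (μ := μ) (s := s) (sh ((i : ℤ), 0) η) n0 (n - n0) x' y'
      (Q := fun S => ¬ ∀ k < n0, C' (i + k + 1) (x' + pos S (k + 1)))
      (Q' := fun S => ∃ k ≤ n0, ((x' + pos S k : ℤ) : ℝ) < md k) (by
      intro S _ h3
      push Not at h3
      obtain ⟨k, hk, h4⟩ := h3
      rw [hC', show i + k + 1 - i = k + 1 by omega] at h4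
      exact ⟨k + 1, hk, not_le.1 h4⟩)
    linarith
  -- the union bound
  obtain ⟨C₃, hC₃⟩ : ∃ C₃ : ℕ → ℤ → Prop, ∀ k q, C₃ k q ↔ C₁ k q ∧ (k ≤ i + n0 → C₂ k q) := ⟨_, fun _ _ => Iff.rfl⟩
  have U := ast_union (w := wt η) (p := p) hwt hp0 (C₁ := C₁) (C₂ := C₂) (C₃ := C₃) (N := i + n0) hC₃ y n0 T i n x rfl hn0 hT
  have M := ast_le (w := wt η) (p := p) hwt hp0 (C := C₃) (C' := C') (Q := Q) y y'
    n0 T i n x x' hx hn0 hT (by
      intro k q h1 h2 h3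
      obtain ⟨h4, h5⟩ := (hC₁ _ _).1 ((hC₃ _ _).1 h3).1
      exact hQ k h1 h2 q h4 h5) (by
      intro k h1 h2 q q' h3 h4
      have h5 := (hC₂ _ _).1 (((hC₃ _ _).1 h3).2 h2)
      have h6 := (hC' _ _).1 h4
      have h7 : (q : ℝ) < q' := by linarith
      exact_mod_cast h7)
  have NK := nk_eq (μ := μ) (s := s) (h := h) η (p := p) i T (n - T) (x := x) (x' := x') (y := y) (y' := y') hx
    (fun k h1 h2 => hp k h1 (by omega)) a0 (by rw [eT]; exact a1) a0' (by rw [eT]; exact a1')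
  rw [eT] at NK
  rw [NK] at M
  -- abbreviations
  obtain ⟨E1, hE1⟩ : ∃ E : ℝ, E = eG μ s (sh ((i : ℤ), 0) η) T (n - T) x y fun S => ∃ k ≤ T, hi k < ((x + pos S k : ℤ) : ℝ) := ⟨_, rfl⟩
  obtain ⟨E2, hE2⟩ : ∃ E : ℝ, E = eG μ s (sh ((i : ℤ), 0) η) T (n - T) x y fun S => ∃ k ≤ T, ((x + pos S k : ℤ) : ℝ) < lo k := ⟨_, rfl⟩
  obtain ⟨E3, hE3⟩ : ∃ E : ℝ, E = eG μ s (sh ((i : ℤ), 0) η) n0 (n - n0) x y fun S => ∃ k ≤ n0, md k - 1 < ((x + pos S k : ℤ) : ℝ) :=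
    ⟨_, rfl⟩
  obtain ⟨E4, hE4⟩ : ∃ E : ℝ, E = eG μ s (sh ((i : ℤ), 0) η) n0 (n - n0) x' y' fun S => ∃ k ≤ n0, ((x' + pos S k : ℤ) : ℝ) < md k :=
    ⟨_, rfl⟩
  rw [← hE1, ← hE2] at A1
  rw [← hE3] at A2
  rw [← hE4] at A3
  rw [← hE1, ← hE2, ← hE3, ← hE4]
  have p1 : 0 ≤ E1 := by rw [hE1]; exact eG_nonneg _ _ _ _ _ _
  have p2 : 0 ≤ E2 := by rw [hE2]; exact eG_nonneg _ _ _ _ _ _
  have p3 : 0 ≤ E3 := by rw [hE3]; exact eG_nonneg _ _ _ _ _ _
  have p4 : 0 ≤ E4 := by rw [hE4]; exact eG_nonneg _ _ _ _ _ _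
  obtain ⟨a, ha⟩ : ∃ a : ℝ, a = ast (wt η) p C₃ T i n x y := ⟨_, rfl⟩
  obtain ⟨a', ha'⟩ : ∃ a' : ℝ, a' = ast (wt η) p C' n0 i n x' y' := ⟨_, rfl⟩
  rw [← ha, ← ha'] at M
  rw [← ha] at U
  rw [← ha'] at A3
  have q0 : 0 ≤ a := by rw [ha]; exact ast_nonneg hwt hp0 _ _ _ _ _ _
  have q1 : 0 ≤ a' := by rw [ha']; exact ast_nonneg hwt hp0 _ _ _ _ _ _
  have q3 : a' ≤ ker (wt η) p i n x' y' := by rw [ha']; exact ast_le_ker hwt hp0 _ _ _ _ _ _
  have q2 : (1 - (E1 + E2 + E3)) * ker (wt η) p i n x y ≤ a := by linarith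
  have key : (1 - (E1 + E2 + E3 + E4)) * (ker (wt η) p i n x y * ker (wt η) p i n x' y') ≤ a * a' := by
    have g1 : (1 - (E1 + E2 + E3)) * ker (wt η) p i n x y * a' ≤ a * a' := mul_le_mul_of_nonneg_right q2 q1
    have g2 : ker (wt η) p i n x y * ((1 - E4) * ker (wt η) p i n x' y') ≤ ker (wt η) p i n x y * a' :=
      mul_le_mul_of_nonneg_left A3 k1
    have g3 : (E1 + E2 + E3) * (ker (wt η) p i n x y * a') ≤ (E1 + E2 + E3) * (ker (wt η) p i n x y * ker (wt η) p i n x' y') :=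
      mul_le_mul_of_nonneg_left (mul_le_mul_of_nonneg_left q3 k1) (by linarith)
    calc (1 - (E1 + E2 + E3 + E4)) * (ker (wt η) p i n x y * ker (wt η) p i n x' y')
        = ker (wt η) p i n x y * ((1 - E4) * ker (wt η) p i n x' y') -
          (E1 + E2 + E3) * (ker (wt η) p i n x y * ker (wt η) p i n x' y') := by ring
      _ ≤ ker (wt η) p i n x y * a' - (E1 + E2 + E3) * (ker (wt η) p i n x y * a') := by linarith
      _ = (1 - (E1 + E2 + E3)) * ker (wt η) p i n x y * a' := by ring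
      _ ≤ _ := g1
  calc _ = (1 - (E1 + E2 + E3 + E4)) * (ker (wt η) p i n x y * ker (wt η) p i n x' y') -
        PBr μ s (sh ((i : ℤ), 0) η) T (n - T) x y x' y' * (ker (wt η) p i n x y * ker (wt η) p i n x' y') := by ring
    _ ≤ _ := by linarith

end

end Pool.Agent.W_7d29a1_C1.KM35
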