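import Pool.Agent.W_7d29a1_C1.KAll21
import Pool.Agent.W_7d29a1_C1.BufC21

/-!
Both halves (MP_7d29a1_pr), attractor route [C1]: `KAll` AND `KMid` FROM ONE-STEP FACTS. (helper21)

Rows `c0 → r1 = c0 + n1 → rg = r1 + na → re = rg + ng → r2 = re + nb → r2 + n3`. `Stp` : one step of a kernel against the envelopes to
the last row; `Stp.comp`; `ex_z` : exits through a window, pointwise in the last column; `kall_of`, `kmid_of`.
-/

set_option autoImplicit false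
set_option linter.unusedSectionVars false

namespace Pool.Agent.W_7d29a1_C1.Sh21

open Finset Pool.Agent.W_7d29a1_C1.Gini76 Pool.Agent.W_7d29a1_C1.CR76 Pool.Agent.W_7d29a1_C1.K91P
  Pool.Agent.W_7d29a1_C1.Basin76 Pool.Agent.W_7d29a1_C1.R26P Pool.Agent.W_7d29a1_C1.F74 Pool.Agent.W_7d29a1_C1.P21

noncomputable section

variable {w : ℕ → ℤ → ℝ} {p : ℕ → ℝ} {lo h : ℤ} {r n m : ℕ} {Z : Finset ℤ} {k k' k'' : ℤ → ℤ → ℝ} {L L' L1 L2 A A0 A1 e e' : ℝ}

/-- **One step against the envelopes.** -/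
def Stp (w : ℕ → ℤ → ℝ) (p : ℕ → ℝ) (lo h : ℤ) (r n : ℕ) (S Z : Finset ℤ) (k k' : ℤ → ℤ → ℝ) (L A : ℝ) : Prop :=
  ∀ x ∈ S, ∀ z ∈ Z, ∑ y ∈ Icc lo (h + n), kf w p r n x y * k' y z ≤ L * A * k x z

theorem sum_split_z (hw : ∀ k y, 0 < w k y) (hp : ∀ k, 0 < p k) {x z : ℤ} (hx : x ∈ Icc lo h) (T : Finset ℤ) (g : ℤ → ℝ) :
    ∑ v ∈ T, kf w p r (n + m) x v * g v = ∑ y ∈ Icc lo (h + n), kf w p r n x y * ∑ v ∈ T, kf w p (r + n) m y v * g v := by
  have e2 : ∀ v ∈ T, kf w p r (n + m) x v * g v = ∑ y ∈ Icc lo (h + n), kf w p r n x y * (kf w p (r + n) m y v * g v) := by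
    intro v _
    rw [kf_split hx, sum_mul]
    exact sum_congr rfl fun y _ => by ring
  rw [sum_congr rfl e2, sum_comm]
  exact sum_congr rfl fun y _ => by rw [mul_sum]

/-- **Two steps.** -/
theorem Stp.comp (hw : ∀ k y, 0 < w k y) (hp : ∀ k, 0 < p k) {S : Finset ℤ} (hS : S ⊆ Icc lo h) (s1 : Stp w p lo h r n S Z k k' L1 A0)
    (s2 : Stp w p lo (h + n) (r + n) m (Icc lo (h + n)) Z k' k'' L2 A1) (hL2 : 0 ≤ L2) (hA1 : 0 ≤ A1) :
    Stp w p lo h r (n + m) S Z k k'' (L1 * L2) (A0 * A1) := by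
  intro x hxS z hz
  have hx := hS hxS
  have eh : h + ((n + m : ℕ) : ℤ) = h + n + m := by push_cast; ring
  rw [eh, sum_split_z (z := z) hw hp hx]
  have t1 : ∑ y ∈ Icc lo (h + n), kf w p r n x y * ∑ v ∈ Icc lo (h + n + m), kf w p (r + n) m y v * k'' v z ≤
      L2 * A1 * ∑ y ∈ Icc lo (h + n), kf w p r n x y * k' y z := by
    rw [mul_sum]
    refine sum_le_sum fun y hy => ?_
    have := mul_le_mul_of_nonneg_left (s2 y hy z hz) (kf_nonneg hw hp r n x y)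
    linarith
  have t2 := mul_le_mul_of_nonneg_left (s1 x hxS z hz) (mul_nonneg hL2 hA1)
  linarith

/-- **Exits through a window, pointwise in the last column.** -/
theorem ex_z (hw : ∀ k y, 0 < w k y) (hp : ∀ k, 0 < p k) {a xa xb z : ℤ} (ha : a ∈ Icc lo h) (hz : z ∈ Z) (Q : Finset ℤ)
    (hQ : Q ⊆ Icc lo (h + n + m)) (xl : ∑ x ∈ (Icc lo (h + n)).filter (· < xa), kf w p r n a x * k' x z ≤ e * A0 * k a z)
    (xr : ∑ x ∈ (Icc lo (h + n)).filter (xb < ·), kf w p r n a x * k' x z ≤ e * A0 * k a z)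
    (s1 : ∑ y ∈ Icc lo (h + n), kf w p r n a y * k' y z ≤ L1 * A0 * k a z)
    (s2 : Stp w p lo (h + n) (r + n) m (Icc lo (h + n)) Z k' k'' L2 A1)
    (win : ∀ x ∈ Icc lo (h + n), xa ≤ x → x ≤ xb → ∑ v ∈ Q, kf w p (r + n) m x v * k'' v z ≤ e' * A1 * k' x z)
    (hk' : ∀ x ∈ Icc lo (h + n), 0 ≤ k' x z) (hk'' : ∀ v ∈ Icc lo (h + n + m), 0 ≤ k'' v z) (hL2 : 0 ≤ L2) (hA1 : 0 ≤ A1)
    (he' : 0 ≤ e') : ∑ v ∈ Q, kf w p r (n + m) a v * k'' v z ≤ (2 * e * L2 + L1 * e') * (A0 * A1) * k a z := by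
  have k0 : ∀ x, 0 ≤ kf w p r n a x := fun x => kf_nonneg hw hp _ _ _ _
  rw [sum_split_z (z := z) hw hp ha]
  have up' : ∀ x ∈ Icc lo (h + n), ∑ v ∈ Q, kf w p (r + n) m x v * k'' v z ≤ L2 * A1 * k' x z := fun x hx =>
    (sum_le_sum_of_subset_of_nonneg hQ fun v hv _ => mul_nonneg (kf_nonneg hw hp _ _ _ _) (hk'' v hv)).trans (s2 x hx z hz)
  have ptw : ∀ x ∈ Icc lo (h + n), kf w p r n a x * ∑ v ∈ Q, kf w p (r + n) m x v * k'' v z ≤
      (if x < xa then kf w p r n a x * (L2 * A1 * k' x z) else 0) + (if xb < x then kf w p r n a x * (L2 * A1 * k' x z) else 0) +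
        kf w p r n a x * (e' * A1 * k' x z) := by
    intro x hx
    have t3 : 0 ≤ kf w p r n a x * (e' * A1 * k' x z) := mul_nonneg (k0 x) (mul_nonneg (mul_nonneg he' hA1) (hk' x hx))
    have u := mul_le_mul_of_nonneg_left (up' x hx) (k0 x)
    have v := mul_nonneg (k0 x) (mul_nonneg (mul_nonneg hL2 hA1) (hk' x hx))
    by_cases h1 : x < xa
    · rw [if_pos h1]
      have : 0 ≤ (if xb < x then kf w p r n a x * (L2 * A1 * k' x z) else 0) := by split_ifs <;> linarith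
      linarith
    · rw [if_neg h1]
      by_cases h2 : xb < x
      · rw [if_pos h2]
        linarith
      · rw [if_neg h2]
        have := mul_le_mul_of_nonneg_left (win x hx (by omega) (by omega)) (k0 x)
        linarith
  refine (sum_le_sum ptw).trans ?_
  rw [sum_add_distrib, sum_add_distrib, ← sum_filter, ← sum_filter]
  have q1 : ∀ T : Finset ℤ, ∑ x ∈ T, kf w p r n a x * (L2 * A1 * k' x z) = L2 * A1 * ∑ x ∈ T, kf w p r n a x * k' x z := by
    intro T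
    rw [mul_sum]
    exact sum_congr rfl fun x _ => by ring
  have q2 : ∑ x ∈ Icc lo (h + n), kf w p r n a x * (e' * A1 * k' x z) = e' * A1 * ∑ x ∈ Icc lo (h + n), kf w p r n a x * k' x z := by
    rw [mul_sum]
    exact sum_congr rfl fun x _ => by ring
  rw [q1, q1, q2]
  have s1' := mul_le_mul_of_nonneg_left xl (mul_nonneg hL2 hA1)
  have s2' := mul_le_mul_of_nonneg_left xr (mul_nonneg hL2 hA1)
  have s3' := mul_le_mul_of_nonneg_left s1 (mul_nonneg he' hA1)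
  linarith

/-- Lower halves: two slabs. -/
theorem low_comp (hw : ∀ k y, 0 < w k y) (hp : ∀ k, 0 < p k) {c d c' d' : Finset ℤ} (hc : c ⊆ Icc lo h) (hd : d ⊆ c')
    (hdT : d ⊆ Icc lo (h + n)) (hL1 : 0 ≤ L1) (hL2 : 0 ≤ L2) (hA1 : 0 ≤ A1) (l1 : ∀ x ∈ c, A0 ≤ L1 * ∑ y ∈ d, kf w p r n x y)
    (l2 : ∀ x ∈ c', A1 ≤ L2 * ∑ y ∈ d', kf w p (r + n) m x y) : ∀ x ∈ c, A0 * A1 ≤ L1 * L2 * ∑ y ∈ d', kf w p r (n + m) x y := by
  intro x hx
  have e2 : ∑ v ∈ d', kf w p r (n + m) x v = ∑ y ∈ Icc lo (h + n), kf w p r n x y * ∑ v ∈ d', kf w p (r + n) m y v := by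
    have := sum_split_z (z := x) (w := w) (p := p) (r := r) (n := n) (m := m) hw hp (hc hx) d' (fun _ => 1)
    simp only [mul_one] at this
    exact this
  have s1 := mul_le_mul_of_nonneg_right (l1 x hx) hA1
  have s2 : (∑ y ∈ d, kf w p r n x y) * A1 ≤ L2 * ∑ v ∈ d', kf w p r (n + m) x v := by
    rw [e2, sum_mul, mul_sum]
    refine (sum_le_sum (g := fun y => L2 * (kf w p r n x y * ∑ v ∈ d', kf w p (r + n) m y v)) fun y hy => ?_).trans
      (sum_le_sum_of_subset_of_nonneg hdT fun y _ _ => mul_nonneg hL2 (mul_nonneg (kf_nonneg hw hp _ _ _ _)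
        (sum_nonneg fun v _ => kf_nonneg hw hp _ _ _ _)))
    have := mul_le_mul_of_nonneg_left (l2 y (hd hy)) (kf_nonneg hw hp r n x y)
    linarith
  have s3 := mul_le_mul_of_nonneg_left s2 hL1
  linarith

/-! ### The pieces -/

variable {c0 n1 ne na ng nb n3 : ℕ} {a1 b1 a2 b2 xa xb s da db ya yb za zb va vb xm xn ua ub : ℤ}
  {kc k0 k1 kg ke k2 : ℤ → ℤ → ℝ} {d0 : Finset ℤ} {δ U L0 Aa Am A2 A3 es : ℝ}

/-- **The facts of the pieces.** One constant `L` for every upper and lower half, `e` for every small part. -/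
structure Pcs (w : ℕ → ℤ → ℝ) (p : ℕ → ℝ) (lo h : ℤ) (c0 n1 na ng nb n3 : ℕ)
    (a1 b1 a2 b2 xa xb da db ya yb za zb va vb xm xn ua ub : ℤ) (d0 : Finset ℤ) (kc k0 k1 kg ke k2 : ℤ → ℤ → ℝ)
    (δ e L L0 A0 Aa Am A2 A3 : ℝ) : Prop where
  g : Geo21 lo h n1 a1 b1 a2 b2 xa xb
  δ0 : 0 ≤ δ
  e0 : 0 ≤ e
  L1 : 1 ≤ L
  L01 : 1 ≤ L0
  A0p : 0 < A0
  Aap : 0 < Aa
  Amp : 0 < Am
  A2p : 0 < A2
  A3p : 0 < A3
  kcn : ∀ a ∈ cl2 a1 b1 a2 b2, ∀ z, 0 ≤ kc a z
  kck : ∀ a ∈ cl2 a1 b1 a2 b2, ∀ z, kc a z ≤ k0 a z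
  k0n : ∀ x ∈ Icc lo h, ∀ z, 0 ≤ k0 x z
  k1n : ∀ x ∈ Icc lo (h + n1), ∀ z, 0 ≤ k1 x z
  kgn : ∀ x ∈ Icc lo (h + n1 + na), ∀ z, 0 ≤ kg x z
  ken : ∀ x ∈ Icc lo (h + n1 + na + ng), ∀ z, 0 ≤ ke x z
  k2n : ∀ x ∈ Icc lo (h + n1 + na + ng + nb), ∀ z, 0 ≤ k2 x z
  -- first buffer
  c1 : CR (kf w p c0 n1) a1 b1 xa xb ≤ 1 + δ
  c2 : CR (kf w p c0 n1) a2 b2 xa xb ≤ 1 + δ
  q1 : ∀ y ∈ Icc a1 b1, kf w p c0 n1 a1 xa ≤ L0 * kf w p c0 n1 y xa ∧ kf w p c0 n1 y xa ≤ L0 * kf w p c0 n1 a1 xa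
  q2 : ∀ y ∈ Icc a2 b2, kf w p c0 n1 a2 xa ≤ L0 * kf w p c0 n1 y xa ∧ kf w p c0 n1 y xa ≤ L0 * kf w p c0 n1 a2 xa
  s0 : Stp w p lo h c0 n1 (Icc lo h) (Icc lo (h + n1 + na + ng + nb + n3)) k0 k1 L A0
  s0c : Stp w p lo h c0 n1 (cl2 a1 b1 a2 b2) (Icc lo (h + n1 + na + ng + nb + n3)) kc k1 L A0
  xl : ∀ a ∈ cl2 a1 b1 a2 b2, ∀ z ∈ Icc lo (h + n1 + na + ng + nb + n3),
    ∑ x ∈ (Icc lo (h + n1)).filter (· < xa), kf w p c0 n1 a x * k1 x z ≤ e * A0 * kc a z
  xr : ∀ a ∈ cl2 a1 b1 a2 b2, ∀ z ∈ Icc lo (h + n1 + na + ng + nb + n3),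
    ∑ x ∈ (Icc lo (h + n1)).filter (xb < ·), kf w p c0 n1 a x * k1 x z ≤ e * A0 * kc a z
  -- the inside; `l0a` : both pieces together (no single weight of the row `c0 + n1`)
  l0a : ∀ x ∈ cl2 a1 b1 a2 b2, A0 * Aa ≤ L ^ 2 * ∑ y ∈ Icc va vb, kf w p c0 (n1 + na) x y
  sa : Stp w p lo (h + n1) (c0 + n1) na (Icc lo (h + n1)) (Icc lo (h + n1 + na + ng + nb + n3)) k1 kg L Aa
  wl : ∀ x ∈ Icc lo (h + n1), xa ≤ x → x ≤ xb → ∀ z ∈ Icc lo (h + n1 + na + ng + nb + n3),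
    ∑ v ∈ (Icc lo (h + n1 + na)).filter (fun v => ¬ (va ≤ v ∧ v ≤ vb)), kf w p (c0 + n1) na x v * kg v z ≤ e * Aa * k1 x z
  -- the slab of small cross ratio
  g0 : a1 ≤ va
  g1 : va ≤ vb
  g2 : vb ≤ xm
  g3 : xm ≤ xn
  g4 : xn ≤ va + ng
  g5 : vb ≤ a2 + (n1 + na : ℕ)
  d0s : d0 ⊆ Icc xm xn
  d0d : d0 ⊆ Icc da db
  sm : Stp w p lo (h + n1 + na) (c0 + n1 + na) ng (Icc lo (h + n1 + na)) (Icc lo (h + n1 + na + ng + nb + n3)) kg ke L Am
  lm : ∀ x ∈ Icc va vb, Am ≤ L * ∑ y ∈ d0, kf w p (c0 + n1 + na) ng x y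
  xm1 : ∀ z ∈ Icc lo (h + n1 + na + ng + nb + n3),
    ∑ x ∈ (Icc lo (h + n1 + na + ng)).filter (· < xm), kf w p (c0 + n1 + na) ng va x * ke x z ≤ e * Am * kc a1 z
  xm2 : ∀ z ∈ Icc lo (h + n1 + na + ng + nb + n3),
    ∑ x ∈ (Icc lo (h + n1 + na + ng)).filter (xn < ·), kf w p (c0 + n1 + na) ng vb x * ke x z ≤ e * Am * kc a2 z
  crm : CR (kf w p (c0 + n1 + na) ng) va vb xm xn ≤ 1 + δ
  fe : ∀ x ∈ Icc va vb, ∀ z ∈ Icc lo (h + n1 + na + ng + nb + n3), ∑ v ∈ (Icc lo (h + n1 + na + ng)).filter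
    (fun v => ¬ (ua ≤ v ∧ v ≤ ub)), kf w p (c0 + n1 + na) ng x v * ke v z ≤ e * Am * kg x z
  -- the lane and the last buffer
  gd : lo ≤ da ∧ db ≤ h + n1 + na + ng
  gy : lo ≤ ya ∧ yb ≤ h + n1 + na + ng + nb
  gx : Gex n3 ya yb za zb
  s2 : Stp w p lo (h + n1 + na + ng) (c0 + n1 + na + ng) nb (Icc lo (h + n1 + na + ng)) (Icc lo (h + n1 + na + ng + nb + n3)) ke k2 L A2
  l2 : ∀ v ∈ Icc da db, A2 ≤ L * ∑ y ∈ Icc ya yb, kf w p (c0 + n1 + na + ng) nb v y
  of : ∀ v ∈ Icc lo (h + n1 + na + ng), ua ≤ v → v ≤ ub → ∀ z ∈ Icc lo (h + n1 + na + ng + nb + n3),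
    ∑ y ∈ (Icc lo (h + n1 + na + ng + nb)).filter (fun y => ¬ (ya ≤ y ∧ y ≤ yb)), kf w p (c0 + n1 + na + ng) nb v y * k2 y z ≤
      e * A2 * ke v z
  s3 : ∀ y ∈ Icc lo (h + n1 + na + ng + nb), ∀ z ∈ Icc lo (h + n1 + na + ng + nb + n3),
    kf w p (c0 + n1 + na + ng + nb) n3 y z ≤ L * A3 * k2 y z
  l3 : ∀ y ∈ Icc ya yb, A3 ≤ L * kf w p (c0 + n1 + na + ng + nb) n3 y ((za + zb) / 2)
  cx : CR (kf w p (c0 + n1 + na + ng + nb) n3) ya yb za zb ≤ 1 + δ
  yl : ∀ z ∈ Icc lo (h + n1 + na + ng + nb + n3), z < za → kf w p (c0 + n1 + na + ng + nb) n3 ya z ≤ e * A3 * kc a1 z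
  yr : ∀ z ∈ Icc lo (h + n1 + na + ng + nb + n3), zb < z → kf w p (c0 + n1 + na + ng + nb) n3 yb z ≤ e * A3 * kc b2 z

variable (P : Pcs w p lo h c0 n1 na ng nb n3 a1 b1 a2 b2 xa xb da db ya yb za zb va vb xm xn ua ub d0 kc k0 k1 kg ke k2
  δ e L L0 A0 Aa Am A2 A3)

include P

/-- Exits from the window `[va, vb]`. -/
theorem xg_of (hw : ∀ k y, 0 < w k y) (hp : ∀ k, 0 < p k) : ∀ a ∈ cl2 a1 b1 a2 b2, ∀ z ∈ Icc lo (h + n1 + na + ng + nb + n3),
    ∀ Q : Finset ℤ, Q ⊆ (Icc lo (h + n1 + na)).filter (fun v => ¬ (va ≤ v ∧ v ≤ vb)) →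
      ∑ x ∈ Q, kf w p c0 (n1 + na) a x * kg x z ≤ 3 * L ^ 3 * e * (A0 * Aa) * kc a z := by
  have L1 := P.L1
  have e0 := P.e0
  have A0p := P.A0p
  have Aap := P.Aap
  have L13 : L ≤ L ^ 3 := by
    calc L = L ^ 1 := (pow_one L).symm
      _ ≤ L ^ 3 := pow_le_pow_right₀ L1 (by norm_num)
  have sub := P.g.sub
  intro a ha z hz Q hQ
  have key := ex_z (m := na) (xa := xa) (xb := xb) (z := z) (e := e) (e' := e) (k := kc) hw hp (sub ha) hz Q
    (hQ.trans (filter_subset _ _)) (P.xl a ha z hz) (P.xr a ha z hz) (P.s0c a ha z hz) P.sa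
    (fun x hx h1 h2 => (sum_le_sum_of_subset_of_nonneg hQ fun v hv _ => mul_nonneg (kf_nonneg hw hp _ _ _ _)
      (P.kgn v (mem_filter.1 hv).1 z)).trans (P.wl x hx h1 h2 z hz)) (fun x hx => P.k1n x hx z) (fun v hv => P.kgn v hv z)
    (by linarith) Aap.le e0
  refine key.trans (mul_le_mul_of_nonneg_right (mul_le_mul_of_nonneg_right ?_ (by positivity)) (P.kcn a ha z))
  have := mul_le_mul_of_nonneg_right L13 e0
  linarith

/-- **`KAll` from the pieces.** -/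
theorem kall_of (hw : ∀ k y, 0 < w k y) (hp : ∀ k, 0 < p k) :
    KAll w p lo h c0 n1 (na + ng) nb n3 a1 b1 a2 b2 xa xb s da db ya yb za zb kc k0 k1 ke k2 δ (6 * L ^ 5 * e) L (L ^ 3) L0
      A0 (Aa * Am) A2 A3 := by
  have L1 := P.L1
  have e0 := P.e0
  have A0p := P.A0p
  have Aap := P.Aap
  have Amp := P.Amp
  have A2p := P.A2p
  have A3p := P.A3p
  have L2 : 1 ≤ L ^ 2 := one_le_pow₀ L1
  have L3 : 1 ≤ L ^ 3 := one_le_pow₀ L1
  have L23 : L ^ 2 ≤ L ^ 3 := pow_le_pow_right₀ L1 (by norm_num)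
  have L13 : L ≤ L ^ 3 := by
    calc L = L ^ 1 := (pow_one L).symm
      _ ≤ L ^ 3 := pow_le_pow_right₀ L1 (by norm_num)
  have L5 : 1 ≤ 6 * L ^ 5 := by
    have := one_le_pow₀ L1 (n := 5)
    linarith
  have ee : e ≤ 6 * L ^ 5 * e := le_mul_of_one_le_left e0 L5
  have eh : h + (n1 : ℤ) + ((na + ng : ℕ) : ℤ) = h + n1 + na + ng := by push_cast; ring
  have eh3 : h + ((n1 + (na + ng) : ℕ) : ℤ) = h + n1 + na + ng := by push_cast; ring
  have er : c0 + n1 + (na + ng) = c0 + n1 + na + ng := by ring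
  have m1 : a1 ∈ cl2 a1 b1 a2 b2 := by
    have h1 := P.g.h1
    unfold cl2
    simp only [mem_union, mem_Icc]
    omega
  have m4 : b2 ∈ cl2 a1 b1 a2 b2 := by
    have h3 := P.g.h3
    unfold cl2
    simp only [mem_union, mem_Icc]
    omega
  have sub := P.g.sub
  have up : ∀ {a z : ℤ} {X : ℝ} {C : ℝ}, a ∈ cl2 a1 b1 a2 b2 → 0 ≤ C → X ≤ e * C * kc a z → X ≤ 6 * L ^ 5 * e * C * kc a z := by
    intro a z X C ha hC h
    refine h.trans (mul_le_mul_of_nonneg_right (mul_le_mul_of_nonneg_right ee hC) (P.kcn a ha z))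
  have L0 : 0 ≤ L := by linarith
  have sam := P.sa.comp hw hp Subset.rfl P.sm L0 Amp.le
  have s0e := P.s0.comp hw hp Subset.rfl sam (by positivity) (by positivity)
  have s0ce := P.s0c.comp hw hp sub sam (by positivity) (by positivity)
  have eh1 : h + ((n1 + na : ℕ) : ℤ) = h + n1 + na := by push_cast; ring
  have er1 : c0 + (n1 + na) = c0 + n1 + na := by ring
  have va1 : Icc va vb ⊆ Icc lo (h + n1 + na) := by
    refine Icc_subset_Icc ?_ ?_
    · have := P.g.h7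
      have := P.g0
      omega
    · have := P.g5
      have := P.g.h8
      have := P.g.h3
      push_cast at this
      have h5 := P.g5
      push_cast at h5
      omega
  have l1 : ∀ x ∈ cl2 a1 b1 a2 b2, A0 * Aa * Am ≤ L ^ 2 * L * ∑ v ∈ Icc da db, kf w p c0 (n1 + (na + ng)) x v := by
    intro x hx
    have h1 := low_comp (m := ng) hw hp (c := cl2 a1 b1 a2 b2) (d := Icc va vb) (c' := Icc va vb) (d' := d0) sub Subset.rfl
      (by rw [eh1]; exact va1) (by positivity) L0 Amp.le P.l0a (by rw [er1]; exact P.lm) x hx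
    rw [show n1 + na + ng = n1 + (na + ng) by ring] at h1
    exact h1.trans (mul_le_mul_of_nonneg_left (sum_le_sum_of_subset_of_nonneg P.d0d fun y _ _ => kf_nonneg hw hp _ _ _ _) (by positivity))
  refine
    { g := P.g
      δ0 := P.δ0
      e0 := by positivity
      L1 := L3
      U1 := L1
      L01 := P.L01
      A0p := A0p
      A1p := by positivity
      A2p := A2p
      A3p := A3p
      kcn := P.kcn
      kck := P.kck
      k0n := P.k0n
      k1n := P.k1n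
      ken := by rw [eh]; exact P.ken
      k2n := by rw [eh]; exact P.k2n
      c1 := P.c1
      c2 := P.c2
      q1 := P.q1
      q2 := P.q2
      xl := fun z hz => up m1 A0p.le (P.xl a1 m1 z (by rw [eh] at hz; exact hz))
      xr := fun z hz => up m4 A0p.le (P.xr b2 m4 z (by rw [eh] at hz; exact hz))
      u1 := fun x hx z hz => ?_
      u1c := fun x hx z hz => ?_
      l1 := fun x hx => ?_
      uc := fun x hx z hz => ?_
      gd := by rw [eh]; exact P.gd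
      gy := by rw [eh]; exact P.gy
      gx := P.gx
      u2 := fun v hv z hz => ?_
      l2 := by rw [er]; exact P.l2
      u3 := fun y hy z hz => ?_
      l3 := fun y hy => ?_
      cx := by rw [er]; exact P.cx
      yl := fun z hz hlt => ?_
      yr := fun z hz hlt => ?_
      off := fun a ha z hz => ?_ }
  · rw [eh] at hz ⊢
    have h1 := s0e x hx z hz
    rw [eh3] at h1
    refine h1.trans (le_of_eq ?_)
    ring
  · rw [eh] at hz ⊢
    have h1 := s0ce x hx z hz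
    rw [eh3] at h1
    refine h1.trans (le_of_eq ?_)
    ring
  · refine le_trans (le_of_eq ?_) ((l1 x hx).trans (le_of_eq ?_)) <;> ring
  · rw [eh] at hz
    refine (sam x hx z hz).trans (mul_le_mul_of_nonneg_right (mul_le_mul_of_nonneg_right ?_ (by positivity)) (P.k1n x hx z))
    calc L * L = L ^ 2 := (pow_two L).symm
      _ ≤ L ^ 3 := L23
  · rw [eh] at hz hv ⊢
    rw [er]
    refine (P.s2 v hv z hz).trans (le_of_eq ?_)
    ring
  · rw [eh] at hz hy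
    rw [er]
    exact (P.s3 y hy z hz).trans (mul_le_mul_of_nonneg_right (mul_le_mul_of_nonneg_right L13 A3p.le) (P.k2n y hy z))
  · rw [er]
    exact (P.l3 y hy).trans (mul_le_mul_of_nonneg_right L13 (kf_nonneg hw hp _ _ _ _))
  · rw [er]
    exact up m1 A3p.le (P.yl z (by rw [eh] at hz; exact hz) hlt)
  · rw [er]
    exact up m4 A3p.le (P.yr z (by rw [eh] at hz; exact hz) hlt)
  · rw [eh] at hz ⊢
    rw [er]
    have kn : ∀ v, 0 ≤ kf w p c0 (n1 + (na + ng)) a v := fun v => kf_nonneg hw hp _ _ _ _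
    have hkc := P.kcn a ha z
    -- far from the line at the row of the exit
    have far : ∑ v ∈ (Icc lo (h + n1 + na + ng)).filter (fun v => ¬ (ua ≤ v ∧ v ≤ ub)), kf w p c0 (n1 + (na + ng)) a v * ke v z ≤
        (L * (3 * L ^ 3 * e) + L ^ 2 * e) * (A0 * Aa * Am) * kc a z := by
      have s0g := P.s0c.comp hw hp sub P.sa L0 Aap.le
      have hQ : (Icc lo (h + n1 + na + ng)).filter (fun v => ¬ (ua ≤ v ∧ v ≤ ub)) ⊆ Icc lo (h + ((n1 + na : ℕ) : ℤ) + ng) := by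
        rw [eh1]
        exact filter_subset _ _
      have e1 := sum_split_z (r := c0) (n := n1 + na) (m := ng) (z := z) hw hp (sub ha)
        ((Icc lo (h + n1 + na + ng)).filter (fun v => ¬ (ua ≤ v ∧ v ≤ ub))) (fun v => ke v z)
      rw [eh1, er1, show n1 + na + ng = n1 + (na + ng) by ring] at e1
      rw [e1]
      have kg0 : ∀ x, 0 ≤ kf w p c0 (n1 + na) a x := fun x => kf_nonneg hw hp _ _ _ _
      have ptw : ∀ x ∈ Icc lo (h + n1 + na), kf w p c0 (n1 + na) a x *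
          ∑ v ∈ (Icc lo (h + n1 + na + ng)).filter (fun v => ¬ (ua ≤ v ∧ v ≤ ub)), kf w p (c0 + n1 + na) ng x v * ke v z ≤
          (if va ≤ x ∧ x ≤ vb then 0 else kf w p c0 (n1 + na) a x * (L * Am * kg x z)) + kf w p c0 (n1 + na) a x * (e * Am * kg x z) := by
        intro x hx
        have hkg := P.kgn x hx z
        split_ifs with hv
        · have := mul_le_mul_of_nonneg_left (P.fe x (mem_Icc.2 hv) z hz) (kg0 x)
          linarith
        · have h2 : ∑ v ∈ (Icc lo (h + n1 + na + ng)).filter (fun v => ¬ (ua ≤ v ∧ v ≤ ub)), kf w p (c0 + n1 + na) ng x v * ke v z ≤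
              L * Am * kg x z := (sum_le_sum_of_subset_of_nonneg (filter_subset _ _) fun v hv _ => mul_nonneg
              (kf_nonneg hw hp _ _ _ _) (P.ken v hv z)).trans (P.sm x hx z hz)
          have h3 := mul_le_mul_of_nonneg_left h2 (kg0 x)
          have h4 := mul_nonneg (kg0 x) (mul_nonneg (mul_nonneg e0 Amp.le) hkg)
          linarith
      refine (sum_le_sum ptw).trans ?_
      rw [sum_add_distrib]
      have t1 : ∑ x ∈ Icc lo (h + n1 + na), (if va ≤ x ∧ x ≤ vb then 0 else kf w p c0 (n1 + na) a x * (L * Am * kg x z)) ≤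
          L * Am * (3 * L ^ 3 * e * (A0 * Aa) * kc a z) := by
        have e2 : ∑ x ∈ Icc lo (h + n1 + na), (if va ≤ x ∧ x ≤ vb then 0 else kf w p c0 (n1 + na) a x * (L * Am * kg x z)) =
            L * Am * ∑ x ∈ (Icc lo (h + n1 + na)).filter (fun v => ¬ (va ≤ v ∧ v ≤ vb)), kf w p c0 (n1 + na) a x * kg x z := by
          rw [mul_sum, sum_filter]
          refine sum_congr rfl fun x _ => ?_
          by_cases h5 : va ≤ x ∧ x ≤ vb
          · rw [if_pos h5, if_neg (not_not.2 h5)]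
          · rw [if_neg h5, if_pos h5]
            ring
        rw [e2]
        exact mul_le_mul_of_nonneg_left (xg_of P hw hp a ha z hz _ Subset.rfl) (by positivity)
      have t2 : ∑ x ∈ Icc lo (h + n1 + na), kf w p c0 (n1 + na) a x * (e * Am * kg x z) ≤ e * Am * (L * L * (A0 * Aa) * kc a z) := by
        have e2 : ∑ x ∈ Icc lo (h + n1 + na), kf w p c0 (n1 + na) a x * (e * Am * kg x z) =
            e * Am * ∑ x ∈ Icc lo (h + n1 + na), kf w p c0 (n1 + na) a x * kg x z := by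
          rw [mul_sum]
          exact sum_congr rfl fun x _ => by ring
        rw [e2]
        have t3 := s0g a ha z hz
        rw [eh1] at t3
        exact mul_le_mul_of_nonneg_left t3 (by positivity)
      linarith
    have ptw : ∀ v ∈ Icc lo (h + n1 + na + ng), kf w p c0 (n1 + (na + ng)) a v *
        ∑ y ∈ (Icc lo (h + n1 + na + ng + nb)).filter (fun y => ¬ (ya ≤ y ∧ y ≤ yb)), kf w p (c0 + n1 + na + ng) nb v y * k2 y z ≤
        e * A2 * (kf w p c0 (n1 + (na + ng)) a v * ke v z) +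
          (if ua ≤ v ∧ v ≤ ub then 0 else L * A2 * (kf w p c0 (n1 + (na + ng)) a v * ke v z)) := by
      intro v hv
      have hke := P.ken v hv z
      split_ifs with h5
      · have := mul_le_mul_of_nonneg_left (P.of v hv h5.1 h5.2 z hz) (kn v)
        linarith
      · have h2 : ∑ y ∈ (Icc lo (h + n1 + na + ng + nb)).filter (fun y => ¬ (ya ≤ y ∧ y ≤ yb)), kf w p (c0 + n1 + na + ng) nb v y * k2 y z ≤
            L * A2 * ke v z := (sum_le_sum_of_subset_of_nonneg (filter_subset _ _) fun y hy _ => mul_nonneg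
            (kf_nonneg hw hp _ _ _ _) (P.k2n y hy z)).trans (P.s2 v hv z hz)
        have h3 := mul_le_mul_of_nonneg_left h2 (kn v)
        have h4 := mul_nonneg (kn v) (mul_nonneg (mul_nonneg e0 A2p.le) hke)
        linarith
    refine (sum_le_sum ptw).trans ?_
    rw [sum_add_distrib, ← mul_sum]
    have t1 := s0ce a ha z hz
    rw [eh3] at t1
    have t2 := mul_le_mul_of_nonneg_left t1 (mul_nonneg e0 A2p.le)
    have t3 : ∑ v ∈ Icc lo (h + n1 + na + ng), (if ua ≤ v ∧ v ≤ ub then 0 else L * A2 * (kf w p c0 (n1 + (na + ng)) a v * ke v z)) ≤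
        L * A2 * ((L * (3 * L ^ 3 * e) + L ^ 2 * e) * (A0 * Aa * Am) * kc a z) := by
      have e2 : ∑ v ∈ Icc lo (h + n1 + na + ng), (if ua ≤ v ∧ v ≤ ub then 0 else L * A2 * (kf w p c0 (n1 + (na + ng)) a v * ke v z)) =
          L * A2 * ∑ v ∈ (Icc lo (h + n1 + na + ng)).filter (fun v => ¬ (ua ≤ v ∧ v ≤ ub)), kf w p c0 (n1 + (na + ng)) a v * ke v z := by
        rw [mul_sum, sum_filter]
        refine sum_congr rfl fun x _ => ?_
        by_cases h5 : ua ≤ x ∧ x ≤ ub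
        · rw [if_pos h5, if_neg (not_not.2 h5)]
        · rw [if_neg h5, if_pos h5]
      rw [e2]
      exact mul_le_mul_of_nonneg_left far (by positivity)
    refine (add_le_add t2 t3).trans ?_
    have q1 : L ^ 3 ≤ L ^ 5 := pow_le_pow_right₀ L1 (by norm_num)
    have q2 : e * (L ^ 3 + L ^ 3 + 3 * L ^ 5) ≤ 6 * L ^ 5 * e := by
      have := mul_le_mul_of_nonneg_left q1 e0
      have := mul_nonneg e0 (show 0 ≤ L ^ 5 by positivity)
      linarith
    have q3 := mul_le_mul_of_nonneg_right q2 (show 0 ≤ A0 * (Aa * Am) * A2 * kc a z by positivity)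
    refine le_trans (le_of_eq ?_) (q3.trans (le_of_eq ?_)) <;> ring

/-- **`KMid` from the pieces.** -/
theorem kmid_of (hw : ∀ k y, 0 < w k y) (hp : ∀ k, 0 < p k) :
    KMid w p lo h c0 (n1 + na) ng 0 a1 a2 va vb xm xn da db d0 (Icc lo (h + n1 + na + ng + nb + n3)) kc kg ke ke δ (3 * L ^ 3 * e)
      (L ^ 3) A0 (Aa * Am) (A0 * Aa) Am 1 := by
  have L1 := P.L1
  have e0 := P.e0
  have A0p := P.A0p
  have Aap := P.Aap
  have Amp := P.Amp
  have L2 : 1 ≤ L ^ 2 := one_le_pow₀ L1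
  have L3 : 1 ≤ L ^ 3 := one_le_pow₀ L1
  have L13 : L ≤ L ^ 3 := by
    calc L = L ^ 1 := (pow_one L).symm
      _ ≤ L ^ 3 := pow_le_pow_right₀ L1 (by norm_num)
  have L23 : L ^ 2 ≤ L ^ 3 := pow_le_pow_right₀ L1 (by norm_num)
  have ee : e ≤ 3 * L ^ 3 * e := by
    have : e ≤ L ^ 3 * e := le_mul_of_one_le_left e0 L3
    linarith
  have eh : h + ((n1 + na : ℕ) : ℤ) = h + n1 + na := by push_cast; ring
  have er : c0 + (n1 + na) = c0 + n1 + na := by ring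
  have m1 : a1 ∈ cl2 a1 b1 a2 b2 := by
    have h1 := P.g.h1
    unfold cl2
    simp only [mem_union, mem_Icc]
    omega
  have m3 : a2 ∈ cl2 a1 b1 a2 b2 := by
    have h3 := P.g.h3
    unfold cl2
    simp only [mem_union, mem_Icc]
    omega
  have sub := P.g.sub
  have xg := xg_of P hw hp
  refine
    { Agp := by positivity
      Amp := Amp
      Arp := one_pos
      g0 := P.g0
      g1 := P.g1
      g2 := P.g2
      g3 := P.g3
      g4 := P.g4
      g5 := P.g5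
      kgn := by rw [eh]; exact P.kgn
      kmn := by rw [eh]; exact P.ken
      d0s := P.d0s
      um := fun x hx z hz => ?_
      lm := fun x hx => ?_
      ur := fun y hy z hz => ?_
      lr := fun y hy => ?_
      xg1 := fun z hz => ?_
      xg2 := fun z hz => ?_
      xm1 := fun z hz => ?_
      xm2 := fun z hz => ?_
      cr := by rw [er]; exact P.crm
      amp := ?_ }
  · rw [eh] at hx ⊢
    rw [er]
    exact (P.sm x hx z hz).trans (mul_le_mul_of_nonneg_right (mul_le_mul_of_nonneg_right L13 Amp.le) (P.kgn x hx z))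
  · rw [er]
    exact (P.lm x hx).trans (mul_le_mul_of_nonneg_right L13 (sum_nonneg fun y _ => kf_nonneg hw hp _ _ _ _))
  · rw [eh] at hy ⊢
    have e1 : ∑ v ∈ Icc lo (h + n1 + na + ng + (0 : ℕ)), kf w p (c0 + (n1 + na) + ng) 0 y v * ke v z = ke y z := by
      rw [Nat.cast_zero, add_zero, sum_eq_single_of_mem y hy fun v _ hv => by rw [kf_zero_row]; unfold sg; rw [if_neg hv, zero_mul]]
      rw [kf_zero_row]
      unfold sg
      rw [if_pos rfl, one_mul]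
    rw [e1, mul_one]
    exact le_mul_of_one_le_left (P.ken y hy z) L3
  · have e1 : ∑ v ∈ Icc da db, kf w p (c0 + (n1 + na) + ng) 0 y v = 1 := by
      rw [sum_eq_single_of_mem y (P.d0d hy) fun v _ hv => by rw [kf_zero_row]; unfold sg; rw [if_neg hv]]
      rw [kf_zero_row]
      unfold sg
      rw [if_pos rfl]
    rw [e1]
    linarith
  · rw [eh]
    refine xg a1 m1 z hz _ fun v hv => ?_
    rw [mem_filter] at hv ⊢
    exact ⟨hv.1, by omega⟩
  · rw [eh]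
    refine xg a2 m3 z hz _ fun v hv => ?_
    rw [mem_filter] at hv ⊢
    exact ⟨hv.1, by omega⟩
  · rw [eh, er]
    exact (P.xm1 z hz).trans (mul_le_mul_of_nonneg_right (mul_le_mul_of_nonneg_right ee Amp.le) (P.kcn a1 m1 z))
  · rw [eh, er]
    exact (P.xm2 z hz).trans (mul_le_mul_of_nonneg_right (mul_le_mul_of_nonneg_right ee Amp.le) (P.kcn a2 m3 z))
  · have : A0 * Aa * (Am * 1) = 1 * (A0 * (Aa * Am)) := by ring
    rw [this]
    exact mul_le_mul_of_nonneg_right L3 (by positivity)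

end

end Pool.Agent.W_7d29a1_C1.Sh21
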