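import Pool.Agent.W_7d29a1_C1.Kap20
import Pool.Agent.W_7d29a1_C1.GateR66

/-!
MP_7d29a1_pr, attractor route, [C1] SEP, gate: **THE CORE PATHS OF A CONTACT**, in the names of GateR66 / GateT66. (helper20)

`core_Ps` : `(1 - e1 - e2) * bw k q ≤ Zc`, `Zc = ∑_(π ∈ Ps C I n) κ(start) weight g(end)`, `κ` = masses of the contact `(k, q)` at the first row
`a` of the block, `g` = `bw` at the row `a + n`, `C` = core (relative rows).
-/

set_option autoImplicit false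

namespace Pool.Agent.W_7d29a1_C1.Kap20

open Finset
open Pool.Agent.W_7d29a1_C1.K91P (fw bw bw_pos bw_zero bw_succ)
open Pool.Agent.W_7d29a1_C1.U16 (ker ker_zero ker_succ ker_nonneg ker_eq_zero)
open Pool.Agent.W_7d29a1_C1.Gt66 (Pa Ps en s0 st wg sum_Ps_succ sum_Ps_zero)

noncomputable section

attribute [local instance 10] Classical.propDecidable

variable {w : ℕ → ℤ → ℝ} {p : ℕ → ℝ}

/-- The core at the true rows. -/
def Cx (a : ℕ) (C : ℕ → ℤ → Prop) (r : ℕ) (y : ℤ) : Prop := C (r - a) y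

/-- One step of the expansion. -/
theorem Ps_step {C : ℕ → ℤ → Prop} {I : Finset ℤ} (a n : ℕ) (κ g : ℤ → ℝ) :
    ∑ π ∈ Ps C I (n + 1), κ (s0 π) * wg w p a π * g (en π) = ∑ π ∈ Ps C I n, κ (s0 π) * wg w p a π *
      (w (a + n) (en π) * ((if C (n + 1) (en π) then g (en π) else 0) + p (a + n) * if C (n + 1) (en π + 1) then g (en π + 1) else 0)) := by
  rw [sum_Ps_succ]
  refine sum_congr rfl fun π _ => ?_
  have e1 : en (Pa.s π false) = en π := by simp [en, st]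
  have e2 : en (Pa.s π true) = en π + 1 := by simp [en, st]
  have e3 : wg w p a (Pa.s π false) = wg w p a π * (w (a + n) (en π) * 1) := by simp [wg]
  have e4 : wg w p a (Pa.s π true) = wg w p a π * (w (a + n) (en π) * p (a + n)) := by simp [wg]
  have e5 : ∀ b, s0 (Pa.s π b) = s0 π := fun b => rfl
  rw [e1, e2, e3, e4, e5, e5]
  by_cases h1 : C (n + 1) (en π) <;> by_cases h2 : C (n + 1) (en π + 1) <;> simp [h1, h2] <;> ring

theorem Ps_vc {C : ℕ → ℤ → Prop} {I : Finset ℤ} {a n : ℕ} (κ : ℤ → ℝ) (G : ℤ → ℝ) : ∀ j, j ≤ n →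
    ∑ π ∈ Ps C I j, κ (s0 π) * wg w p a π * vc w p (Cx a C) G (a + j) (n - j) (en π) =
      ∑ y ∈ I, if C 0 y then κ y * vc w p (Cx a C) G a n y else 0
  | 0, _ => by
    rw [sum_Ps_zero]
    refine sum_congr rfl fun y _ => ?_
    have e1 : s0 (Pa.z y) = y := rfl
    have e2 : wg w p a (Pa.z y) = 1 := rfl
    have e3 : en (Pa.z y) = y := rfl
    rw [e1, e2, e3, Nat.add_zero, Nat.sub_zero, mul_one]
  | j + 1, hj => by
    rw [Ps_step, ← Ps_vc κ G j (by omega)]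
    refine sum_congr rfl fun π _ => ?_
    have e1 : n - j = (n - (j + 1)) + 1 := by omega
    have e2 : ∀ y, Cx a C (a + j + 1) y ↔ C (j + 1) y := fun y => by
      unfold Cx
      rw [show a + j + 1 - a = j + 1 by omega]
    have e3 : a + (j + 1) = a + j + 1 := by ring
    rw [e1, vc_succ, e3]
    simp only [e2]

/-- The mass of the core paths of helper66. -/
theorem Ps_eq {C : ℕ → ℤ → Prop} {I : Finset ℤ} {a n : ℕ} (κ : ℤ → ℝ) (G : ℤ → ℝ) :
    ∑ π ∈ Ps C I n, κ (s0 π) * wg w p a π * G (en π) = ∑ y ∈ I, if C 0 y then κ y * vc w p (Cx a C) G a n y else 0 := by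
  rw [← Ps_vc κ G n le_rfl]
  refine sum_congr rfl fun π _ => ?_
  rw [Nat.sub_self, vc_zero]

/-- **THE CORE PATHS OF THE CONTACT** carry almost all of its mass. -/
theorem core_Ps (hw : ∀ k y, 0 < w k y) (hp : ∀ k, 0 < p k) {N k a n : ℕ} (ha : k ≤ a) (hn : a + n ≤ N) {q : ℤ} {C : ℕ → ℤ → Prop}
    {C0 : Finset ℤ} (hC : ∀ y, C 0 y ↔ y ∈ C0) {I : Finset ℤ} (hI : Icc q (q + (a - k : ℕ)) ⊆ I)
    {lo hi : ℤ} (hC0 : ∀ x ∈ C0, lo ≤ x ∧ x + n ≤ hi) {e1 e2 : ℝ}
    (h1 : ∑ x ∈ (Icc q (q + (a - k : ℕ))).filter (fun x => x ∉ C0), ker w p k (a - k) q x * bw w p a (N - a) x ≤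
      e1 * bw w p k (N - k) q)
    (h2 : ∀ x ∈ C0, ∑ j ∈ range n, ex w p (Cx a C) (fun i y => bw w p i (N - i) y) lo hi a (j + 1) x ≤ e2 * bw w p a (N - a) x)
    (he2 : 0 ≤ e2) :
    (1 - e1 - e2) * bw w p k (N - k) q ≤ ∑ π ∈ Ps C I n, ker w p k (a - k) q (s0 π) * wg w p a π *
      bw w p (a + n) (N - (a + n)) (en π) := by
  have h3 := core_mass (Co := Cx a C) hw hp ha hn C0 hC0 h1 h2 he2
  refine h3.trans ?_
  rw [Ps_eq (fun y => ker w p k (a - k) q y) (fun y => bw w p (a + n) (N - (a + n)) y)]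
  have h0 : ∀ x, 0 ≤ ker w p k (a - k) q x * vc w p (Cx a C) (fun y => bw w p (a + n) (N - (a + n)) y) a n x := fun x =>
    mul_nonneg (ker_nonneg hw hp _ _ _ _) (vc_nonneg hw hp (fun y => (bw_pos hw hp _ _ _).le) n a x)
  rw [← sum_filter]
  have e4 : ∑ x ∈ C0, ker w p k (a - k) q x * vc w p (Cx a C) (fun y => bw w p (a + n) (N - (a + n)) y) a n x =
      ∑ x ∈ C0.filter (fun x => x ∈ Icc q (q + (a - k : ℕ))), ker w p k (a - k) q x *
        vc w p (Cx a C) (fun y => bw w p (a + n) (N - (a + n)) y) a n x := by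
    rw [sum_filter]
    refine sum_congr rfl fun x _ => ?_
    split_ifs with h
    · rfl
    · rw [ker_eq_zero k (a - k) q x (fun h' => h (mem_Icc.2 h')), zero_mul]
  rw [e4]
  refine sum_le_sum_of_subset_of_nonneg (fun x hx => ?_) fun x _ _ => h0 x
  rw [mem_filter] at hx ⊢
  exact ⟨hI hx.2, (hC x).2 hx.1⟩

end

end Pool.Agent.W_7d29a1_C1.Kap20
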