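import Pool.Agent.W_7d29a1_C1.TubG87

/-!
MP_7d29a1_pr, [C1] attractor route, SEP, the gate: EXCHANGE OF THE TAILS OF TWO PATHS AT A COMMON SITE, over K91P. (helper87)

Path of `n` steps from `(a, x)` = `List Bool` of length `n` (`true` = step to the right), `pl n` = all of them, `pW` = weight (the weight
of the end excluded, as in `ker`), `pe` = end column, `mt u s y x` = the paths `u` from `y` and `s` from `x` have a common site.
`Me G s y` (`Av G s y`) = mass with the end weight `G` of the paths from `y` which meet (avoid) the path `s`.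
`swap87`, `gate87`: for every set `Π` of paths from `(a, x)` and every group `m`

  `∑_{s ∈ Π} pW s * bw (pe s) * (∑_y fw m a y * Me (1_v) s y) ≤ Z_m * ker a n x v`.
-/

set_option autoImplicit false

namespace Pool.Agent.W_7d29a1_C1.Sw87

open Finset
open Pool.Agent.W_7d29a1_C1.K91 (Box Grp)
open Pool.Agent.W_7d29a1_C1.K91P
open Pool.Agent.W_7d29a1_C1.U16 (ker ker_zero ker_succ ker_nonneg ker_eq_zero fw_ker bw_ker)
open Pool.Agent.W_7d29a1_C1.Tb87
open Pool.Agent.W_7d29a1_C1.Cnt58 (Gr Zt)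

noncomputable section

/-- The next column. -/
def nx (x : ℤ) (b : Bool) : ℤ := if b then x + 1 else x

/-- The weight of a path (the weight of the end site excluded). -/
def pW (w : ℕ → ℤ → ℝ) (p : ℕ → ℝ) : ℕ → ℤ → List Bool → ℝ
  | _, _, [] => 1
  | a, x, b :: s => w a x * (if b then p a else 1) * pW w p (a + 1) (nx x b) s

/-- The end column. -/
def pe : ℤ → List Bool → ℤ
  | x, [] => x
  | x, b :: s => pe (nx x b) s

/-- All the paths of `n` steps. -/
def pl : ℕ → Finset (List Bool)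
  | 0 => {[]}
  | n + 1 => (pl n).image (List.cons false) ∪ (pl n).image (List.cons true)

theorem mem_pl : ∀ {n : ℕ} {s : List Bool}, s ∈ pl n ↔ s.length = n
  | 0, s => by
    show s ∈ ({[]} : Finset (List Bool)) ↔ _
    rw [mem_singleton]
    exact List.length_eq_zero_iff.symm
  | n + 1, [] => by
    show [] ∈ (pl n).image (List.cons false) ∪ (pl n).image (List.cons true) ↔ _
    simp
  | n + 1, b :: s => by
    show b :: s ∈ (pl n).image (List.cons false) ∪ (pl n).image (List.cons true) ↔ _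
    rw [mem_union, mem_image, mem_image]
    constructor
    · rintro (⟨t, ht, h⟩ | ⟨t, ht, h⟩)
      · rw [List.cons.injEq] at h
        rw [← h.2, List.length_cons, mem_pl.1 ht]
      · rw [List.cons.injEq] at h
        rw [← h.2, List.length_cons, mem_pl.1 ht]
    · intro h
      rw [List.length_cons, Nat.add_right_cancel_iff] at h
      cases b
      · exact Or.inl ⟨s, mem_pl.2 h, rfl⟩
      · exact Or.inr ⟨s, mem_pl.2 h, rfl⟩

theorem sum_pl {n : ℕ} (f : List Bool → ℝ) : ∑ s ∈ pl (n + 1), f s = ∑ s ∈ pl n, (f (false :: s) + f (true :: s)) := by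
  show ∑ s ∈ (pl n).image (List.cons false) ∪ (pl n).image (List.cons true), f s = _
  rw [sum_union, sum_image (fun x _ y _ h => List.cons_injective h), sum_image (fun x _ y _ h => List.cons_injective h),
    sum_add_distrib]
  rw [disjoint_left]
  intro s h1 h2
  rw [mem_image] at h1 h2
  obtain ⟨t, _, rfl⟩ := h1
  obtain ⟨u, _, h⟩ := h2
  rw [List.cons.injEq] at h
  exact Bool.noConfusion h.1

/-- The two paths have a common site (same row, same column); equal lengths. -/
def mt : List Bool → List Bool → ℤ → ℤ → Prop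
  | [], _, y, x => y = x
  | _ :: _, [], y, x => y = x
  | b :: u, c :: s, y, x => y = x ∨ mt u s (nx y b) (nx x c)

theorem mt_self {u s : List Bool} {y x : ℤ} (h : y = x) : mt u s y x := by
  match u, s with
  | [], _ => exact h
  | _ :: _, [] => exact h
  | _ :: _, _ :: _ => exact Or.inl h

theorem mt_symm : ∀ {u s : List Bool} {y x : ℤ}, u.length = s.length → (mt u s y x ↔ mt s u x y)
  | [], [], y, x, _ => eq_comm
  | [], _ :: _, _, _, h => by simp at h
  | _ :: _, [], _, _, h => by simp at h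
  | b :: u, c :: s, y, x, h => by
    have h1 : u.length = s.length := by simpa using h
    show (y = x ∨ mt u s (nx y b) (nx x c)) ↔ (x = y ∨ mt s u (nx x c) (nx y b))
    rw [mt_symm h1, eq_comm]

/-- Common sites by rows. -/
theorem mt_iff : ∀ {u s : List Bool} {y x : ℤ}, u.length = s.length →
    (mt u s y x ↔ ∃ i ≤ s.length, pe y (u.take i) = pe x (s.take i))
  | [], [], y, x, _ => by
    constructor
    · intro h
      exact ⟨0, le_rfl, h⟩
    · rintro ⟨i, _, h⟩
      rw [List.take_nil] at h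
      exact h
  | [], _ :: _, _, _, h => by simp at h
  | _ :: _, [], _, _, h => by simp at h
  | b :: u, c :: s, y, x, h => by
    have h1 : u.length = s.length := by simpa using h
    show (y = x ∨ mt u s (nx y b) (nx x c)) ↔ _
    rw [mt_iff h1]
    constructor
    · rintro (h2 | ⟨i, hi, h2⟩)
      · exact ⟨0, Nat.zero_le _, h2⟩
      · exact ⟨i + 1, by simpa using hi, h2⟩
    · rintro ⟨i, hi, h2⟩
      cases i with
      | zero => exact Or.inl h2
      | succ i => exact Or.inr ⟨i, by simpa using hi, h2⟩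

/-! ### Masses -/

section Det

variable {w : ℕ → ℤ → ℝ} {p : ℕ → ℝ}

theorem pW_nonneg (hw : ∀ k y, 0 < w k y) (hp : ∀ k, 0 < p k) : ∀ (s : List Bool) (a : ℕ) (x : ℤ), 0 ≤ pW w p a x s
  | [], _, _ => zero_le_one
  | b :: s, a, x => by
    have h1 := pW_nonneg hw hp s (a + 1) (nx x b)
    have h2 := hw a x
    have h3 := hp a
    show 0 ≤ w a x * (if b then p a else 1) * pW w p (a + 1) (nx x b) s
    split_ifs <;> positivity

/-- The value is the sum over the paths. -/
theorem vf_pl (G : ℤ → ℝ) : ∀ (n a : ℕ) (x : ℤ), vf w p G a n x = ∑ s ∈ pl n, pW w p a x s * G (pe x s)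
  | 0, a, x => by
    rw [vf_zero]
    show G x = ∑ s ∈ ({[]} : Finset (List Bool)), pW w p a x s * G (pe x s)
    rw [sum_singleton]
    show G x = 1 * G x
    rw [one_mul]
  | n + 1, a, x => by
    rw [vf_succ, vf_pl G n (a + 1) x, vf_pl G n (a + 1) (x + 1), sum_pl, mul_add, mul_sum, mul_sum, mul_sum, ← sum_add_distrib]
    refine sum_congr rfl fun s _ => ?_
    have e1 : pW w p a x (false :: s) = w a x * 1 * pW w p (a + 1) x s := rfl
    have e2 : pW w p a x (true :: s) = w a x * p a * pW w p (a + 1) (x + 1) s := rfl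
    have e3 : pe x (false :: s) = pe x s := rfl
    have e4 : pe x (true :: s) = pe (x + 1) s := rfl
    rw [e1, e2, e3, e4]
    ring

/-- Mass of the paths from `(a, y)` which meet the path `s` from `(a, x)`, end weight `G`. -/
def Me (w : ℕ → ℤ → ℝ) (p : ℕ → ℝ) (G : ℤ → ℝ) : ℕ → ℤ → List Bool → ℤ → ℝ
  | _, x, [], y => if y = x then G y else 0
  | a, x, b :: s, y => if y = x then vf w p G a (s.length + 1) y else
      w a y * (Me w p G (a + 1) (nx x b) s y + p a * Me w p G (a + 1) (nx x b) s (y + 1))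

/-- Mass of the paths from `(a, y)` which avoid the path `s` from `(a, x)`, end weight `G`. -/
def Av (w : ℕ → ℤ → ℝ) (p : ℕ → ℝ) (G : ℤ → ℝ) : ℕ → ℤ → List Bool → ℤ → ℝ
  | _, x, [], y => if y = x then 0 else G y
  | a, x, b :: s, y => if y = x then 0 else
      w a y * (Av w p G (a + 1) (nx x b) s y + p a * Av w p G (a + 1) (nx x b) s (y + 1))

theorem me_av (G : ℤ → ℝ) : ∀ (s : List Bool) (a : ℕ) (x y : ℤ), Me w p G a x s y + Av w p G a x s y = vf w p G a s.length y
  | [], a, x, y => by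
    show (if y = x then G y else 0) + (if y = x then 0 else G y) = vf w p G a 0 y
    rw [vf_zero]
    split_ifs <;> simp
  | b :: s, a, x, y => by
    show (if y = x then vf w p G a (s.length + 1) y else
      w a y * (Me w p G (a + 1) (nx x b) s y + p a * Me w p G (a + 1) (nx x b) s (y + 1))) +
      (if y = x then 0 else w a y * (Av w p G (a + 1) (nx x b) s y + p a * Av w p G (a + 1) (nx x b) s (y + 1))) =
      vf w p G a (s.length + 1) y
    by_cases h : y = x
    · rw [if_pos h, if_pos h, add_zero]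
    · rw [if_neg h, if_neg h, vf_succ, ← me_av G s (a + 1) (nx x b) y, ← me_av G s (a + 1) (nx x b) (y + 1)]
      ring

theorem me_nonneg (hw : ∀ k y, 0 < w k y) (hp : ∀ k, 0 < p k) {G : ℤ → ℝ} (hG : ∀ z, 0 ≤ G z) :
    ∀ (s : List Bool) (a : ℕ) (x y : ℤ), 0 ≤ Me w p G a x s y
  | [], a, x, y => by
    show 0 ≤ if y = x then G y else 0
    split_ifs
    · exact hG y
    · exact le_rfl
  | b :: s, a, x, y => by
    show 0 ≤ if y = x then vf w p G a (s.length + 1) y else
      w a y * (Me w p G (a + 1) (nx x b) s y + p a * Me w p G (a + 1) (nx x b) s (y + 1))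
    split_ifs
    · exact vf_nonneg hw hp hG _ _ _
    · have h1 := me_nonneg hw hp hG s (a + 1) (nx x b) y
      have h2 := me_nonneg hw hp hG s (a + 1) (nx x b) (y + 1)
      have h3 := hw a y
      have h4 := hp a
      positivity

theorem av_nonneg (hw : ∀ k y, 0 < w k y) (hp : ∀ k, 0 < p k) {G : ℤ → ℝ} (hG : ∀ z, 0 ≤ G z) :
    ∀ (s : List Bool) (a : ℕ) (x y : ℤ), 0 ≤ Av w p G a x s y
  | [], a, x, y => by
    show 0 ≤ if y = x then 0 else G y
    split_ifs
    · exact le_rfl
    · exact hG y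
  | b :: s, a, x, y => by
    show 0 ≤ if y = x then 0 else
      w a y * (Av w p G (a + 1) (nx x b) s y + p a * Av w p G (a + 1) (nx x b) s (y + 1))
    split_ifs
    · exact le_rfl
    · have h1 := av_nonneg hw hp hG s (a + 1) (nx x b) y
      have h2 := av_nonneg hw hp hG s (a + 1) (nx x b) (y + 1)
      have h3 := hw a y
      have h4 := hp a
      positivity

open Classical in
/-- `Me` as a sum over the paths. -/
theorem me_pl (G : ℤ → ℝ) : ∀ (s : List Bool) (a : ℕ) (x y : ℤ), Me w p G a x s y =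
    ∑ u ∈ pl s.length, if mt u s y x then pW w p a y u * G (pe y u) else 0
  | [], a, x, y => by
    show (if y = x then G y else 0) = ∑ u ∈ ({[]} : Finset (List Bool)), if mt u [] y x then pW w p a y u * G (pe y u) else 0
    rw [sum_singleton]
    have e : mt [] [] y x ↔ y = x := Iff.rfl
    by_cases h : y = x
    · rw [if_pos h, if_pos (e.2 h)]
      show G y = 1 * G y
      rw [one_mul]
    · rw [if_neg h, if_neg (fun h1 => h (e.1 h1))]
  | c :: s, a, x, y => by
    show (if y = x then vf w p G a (s.length + 1) y else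
      w a y * (Me w p G (a + 1) (nx x c) s y + p a * Me w p G (a + 1) (nx x c) s (y + 1))) =
      ∑ u ∈ pl (s.length + 1), if mt u (c :: s) y x then pW w p a y u * G (pe y u) else 0
    by_cases h : y = x
    · rw [if_pos h, vf_pl]
      exact sum_congr rfl fun u _ => by rw [if_pos (mt_self h)]
    · rw [if_neg h, me_pl G s (a + 1) (nx x c) y, me_pl G s (a + 1) (nx x c) (y + 1), sum_pl, mul_add, mul_sum, mul_sum, mul_sum,
        ← sum_add_distrib]
      refine sum_congr rfl fun u _ => ?_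
      have e1 : pW w p a y (false :: u) = w a y * 1 * pW w p (a + 1) y u := rfl
      have e2 : pW w p a y (true :: u) = w a y * p a * pW w p (a + 1) (y + 1) u := rfl
      have e3 : pe y (false :: u) = pe y u := rfl
      have e4 : pe y (true :: u) = pe (y + 1) u := rfl
      have m1 : mt (false :: u) (c :: s) y x ↔ mt u s y (nx x c) := by
        show (y = x ∨ mt u s (nx y false) (nx x c)) ↔ _
        have : nx y false = y := rfl
        rw [this]
        tauto
      have m2 : mt (true :: u) (c :: s) y x ↔ mt u s (y + 1) (nx x c) := by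
        show (y = x ∨ mt u s (nx y true) (nx x c)) ↔ _
        have : nx y true = y + 1 := rfl
        rw [this]
        tauto
      simp only [m1, m2, e1, e2, e3, e4]
      split_ifs <;> ring

open Classical in
/-- `Av` as a sum over the paths. -/
theorem av_pl (G : ℤ → ℝ) (s : List Bool) (a : ℕ) (x y : ℤ) : Av w p G a x s y =
    ∑ u ∈ pl s.length, if mt u s y x then 0 else pW w p a y u * G (pe y u) := by
  have h1 := me_av (w := w) (p := p) G s a x y
  rw [me_pl, vf_pl] at h1
  have h2 : ∑ u ∈ pl s.length, pW w p a y u * G (pe y u) =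
      (∑ u ∈ pl s.length, if mt u s y x then pW w p a y u * G (pe y u) else 0) +
      ∑ u ∈ pl s.length, if mt u s y x then 0 else pW w p a y u * G (pe y u) := by
    rw [← sum_add_distrib]
    exact sum_congr rfl fun u _ => by split_ifs <;> simp
  linarith

/-- The mass of the meeting pairs. -/
def MM (w : ℕ → ℤ → ℝ) (p : ℕ → ℝ) (G F : ℤ → ℝ) : ℕ → ℕ → ℤ → ℤ → ℝ
  | 0, _, y, x => if y = x then G y * F x else 0
  | n + 1, a, y, x => if y = x then vf w p G a (n + 1) y * vf w p F a (n + 1) x else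
      w a y * w a x * (MM w p G F n (a + 1) y x + p a * MM w p G F n (a + 1) (y + 1) x + p a * MM w p G F n (a + 1) y (x + 1) +
        p a ^ 2 * MM w p G F n (a + 1) (y + 1) (x + 1))

/-- **THE EXCHANGE OF THE TAILS.** -/
theorem MM_swap (G F : ℤ → ℝ) : ∀ (n a : ℕ) (y x : ℤ), MM w p G F n a y x = MM w p F G n a y x
  | 0, a, y, x => by
    show (if y = x then G y * F x else 0) = (if y = x then F y * G x else 0)
    by_cases h : y = x
    · rw [if_pos h, if_pos h, h]
      ring
    · rw [if_neg h, if_neg h]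
  | n + 1, a, y, x => by
    show (if y = x then vf w p G a (n + 1) y * vf w p F a (n + 1) x else
      w a y * w a x * (MM w p G F n (a + 1) y x + p a * MM w p G F n (a + 1) (y + 1) x + p a * MM w p G F n (a + 1) y (x + 1) +
        p a ^ 2 * MM w p G F n (a + 1) (y + 1) (x + 1))) =
      (if y = x then vf w p F a (n + 1) y * vf w p G a (n + 1) x else
      w a y * w a x * (MM w p F G n (a + 1) y x + p a * MM w p F G n (a + 1) (y + 1) x + p a * MM w p F G n (a + 1) y (x + 1) +
        p a ^ 2 * MM w p F G n (a + 1) (y + 1) (x + 1)))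
    by_cases h : y = x
    · rw [if_pos h, if_pos h, h]
      ring
    · rw [if_neg h, if_neg h, MM_swap G F n (a + 1) y x, MM_swap G F n (a + 1) (y + 1) x, MM_swap G F n (a + 1) y (x + 1),
        MM_swap G F n (a + 1) (y + 1) (x + 1)]

theorem MM_nonneg (hw : ∀ k y, 0 < w k y) (hp : ∀ k, 0 < p k) {G F : ℤ → ℝ} (hG : ∀ z, 0 ≤ G z) (hF : ∀ z, 0 ≤ F z) :
    ∀ (n a : ℕ) (y x : ℤ), 0 ≤ MM w p G F n a y x
  | 0, a, y, x => by
    show 0 ≤ if y = x then G y * F x else 0
    split_ifs
    · exact mul_nonneg (hG _) (hF _)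
    · exact le_rfl
  | n + 1, a, y, x => by
    show 0 ≤ if y = x then vf w p G a (n + 1) y * vf w p F a (n + 1) x else
      w a y * w a x * (MM w p G F n (a + 1) y x + p a * MM w p G F n (a + 1) (y + 1) x + p a * MM w p G F n (a + 1) y (x + 1) +
        p a ^ 2 * MM w p G F n (a + 1) (y + 1) (x + 1))
    split_ifs
    · exact mul_nonneg (vf_nonneg hw hp hG _ _ _) (vf_nonneg hw hp hF _ _ _)
    · have h1 := MM_nonneg hw hp hG hF n (a + 1) y x
      have h2 := MM_nonneg hw hp hG hF n (a + 1) (y + 1) x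
      have h3 := MM_nonneg hw hp hG hF n (a + 1) y (x + 1)
      have h4 := MM_nonneg hw hp hG hF n (a + 1) (y + 1) (x + 1)
      have h5 := hw a y
      have h6 := hw a x
      have h7 := hp a
      positivity

theorem MM_le (hw : ∀ k y, 0 < w k y) (hp : ∀ k, 0 < p k) {G F : ℤ → ℝ} (hG : ∀ z, 0 ≤ G z) (hF : ∀ z, 0 ≤ F z) :
    ∀ (n a : ℕ) (y x : ℤ), MM w p G F n a y x ≤ vf w p G a n y * vf w p F a n x
  | 0, a, y, x => by
    show (if y = x then G y * F x else 0) ≤ _
    rw [vf_zero, vf_zero]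
    split_ifs
    · exact le_rfl
    · exact mul_nonneg (hG _) (hF _)
  | n + 1, a, y, x => by
    show (if y = x then vf w p G a (n + 1) y * vf w p F a (n + 1) x else
      w a y * w a x * (MM w p G F n (a + 1) y x + p a * MM w p G F n (a + 1) (y + 1) x + p a * MM w p G F n (a + 1) y (x + 1) +
        p a ^ 2 * MM w p G F n (a + 1) (y + 1) (x + 1))) ≤ _
    split_ifs with h
    · exact le_rfl
    · have h1 := MM_le hw hp hG hF n (a + 1) y x
      have h2 := MM_le hw hp hG hF n (a + 1) (y + 1) x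
      have h3 := MM_le hw hp hG hF n (a + 1) y (x + 1)
      have h4 := MM_le hw hp hG hF n (a + 1) (y + 1) (x + 1)
      have h5 := hw a y
      have h6 := hw a x
      have h7 := hp a
      rw [vf_succ (g := G), vf_succ (g := F)]
      have k2 := mul_le_mul_of_nonneg_left h2 h7.le
      have k3 := mul_le_mul_of_nonneg_left h3 h7.le
      have k4 := mul_le_mul_of_nonneg_left h4 (sq_nonneg (p a))
      have k : MM w p G F n (a + 1) y x + p a * MM w p G F n (a + 1) (y + 1) x + p a * MM w p G F n (a + 1) y (x + 1) +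
          p a ^ 2 * MM w p G F n (a + 1) (y + 1) (x + 1) ≤
          (vf w p G (a + 1) n y + p a * vf w p G (a + 1) n (y + 1)) * (vf w p F (a + 1) n x + p a * vf w p F (a + 1) n (x + 1)) := by
        refine (add_le_add (add_le_add (add_le_add h1 k2) k3) k4).trans (le_of_eq ?_)
        ring
      calc w a y * w a x * (MM w p G F n (a + 1) y x + p a * MM w p G F n (a + 1) (y + 1) x + p a * MM w p G F n (a + 1) y (x + 1) +
          p a ^ 2 * MM w p G F n (a + 1) (y + 1) (x + 1)) ≤ w a y * w a x *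
          ((vf w p G (a + 1) n y + p a * vf w p G (a + 1) n (y + 1)) * (vf w p F (a + 1) n x + p a * vf w p F (a + 1) n (x + 1))) :=
            mul_le_mul_of_nonneg_left k (mul_pos h5 h6).le
        _ = _ := by ring

/-- The sum over all the second paths. -/
theorem me_sum (G F : ℤ → ℝ) : ∀ (n a : ℕ) (y x : ℤ), ∑ s ∈ pl n, pW w p a x s * F (pe x s) * Me w p G a x s y = MM w p G F n a y x
  | 0, a, y, x => by
    show ∑ s ∈ ({[]} : Finset (List Bool)), pW w p a x s * F (pe x s) * Me w p G a x s y = if y = x then G y * F x else 0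
    rw [sum_singleton]
    show 1 * F x * (if y = x then G y else 0) = if y = x then G y * F x else 0
    split_ifs <;> ring
  | n + 1, a, y, x => by
    show _ = if y = x then vf w p G a (n + 1) y * vf w p F a (n + 1) x else
      w a y * w a x * (MM w p G F n (a + 1) y x + p a * MM w p G F n (a + 1) (y + 1) x + p a * MM w p G F n (a + 1) y (x + 1) +
        p a ^ 2 * MM w p G F n (a + 1) (y + 1) (x + 1))
    by_cases h : y = x
    · rw [if_pos h, vf_pl F (n + 1) a x, mul_sum]
      refine sum_congr rfl fun s hs => ?_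
      have hl := mem_pl.1 hs
      cases s with
      | nil => simp at hl
      | cons c s =>
        have hl' : s.length = n := by simpa using hl
        have e : Me w p G a x (c :: s) y = vf w p G a (n + 1) y := by
          show (if y = x then vf w p G a (s.length + 1) y else _) = _
          rw [if_pos h, hl']
        rw [e]
        ring
    · rw [if_neg h, sum_pl, ← me_sum G F n (a + 1) y x, ← me_sum G F n (a + 1) (y + 1) x, ← me_sum G F n (a + 1) y (x + 1),
        ← me_sum G F n (a + 1) (y + 1) (x + 1), mul_sum, mul_sum, mul_sum, ← sum_add_distrib, ← sum_add_distrib, ← sum_add_distrib,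
        mul_sum]
      refine sum_congr rfl fun s _ => ?_
      have e1 : pW w p a x (false :: s) = w a x * 1 * pW w p (a + 1) x s := rfl
      have e2 : pW w p a x (true :: s) = w a x * p a * pW w p (a + 1) (x + 1) s := rfl
      have e3 : pe x (false :: s) = pe x s := rfl
      have e4 : pe x (true :: s) = pe (x + 1) s := rfl
      have e5 : Me w p G a x (false :: s) y = w a y * (Me w p G (a + 1) x s y + p a * Me w p G (a + 1) x s (y + 1)) := if_neg h
      have e6 : Me w p G a x (true :: s) y = w a y * (Me w p G (a + 1) (x + 1) s y + p a * Me w p G (a + 1) (x + 1) s (y + 1)) :=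
        if_neg h
      rw [e1, e2, e3, e4, e5, e6]
      ring

/-- **THE SWAP**, two starts: any set of second paths. -/
theorem swap87 (hw : ∀ k y, 0 < w k y) (hp : ∀ k, 0 < p k) {G F : ℤ → ℝ} (hG : ∀ z, 0 ≤ G z) (hF : ∀ z, 0 ≤ F z) {n a : ℕ}
    {S : Finset (List Bool)} (hS : S ⊆ pl n) (y x : ℤ) :
    ∑ s ∈ S, pW w p a x s * F (pe x s) * Me w p G a x s y ≤ vf w p F a n y * vf w p G a n x := by
  calc ∑ s ∈ S, pW w p a x s * F (pe x s) * Me w p G a x s y ≤ ∑ s ∈ pl n, pW w p a x s * F (pe x s) * Me w p G a x s y :=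
        sum_le_sum_of_subset_of_nonneg hS fun s _ _ => mul_nonneg (mul_nonneg (pW_nonneg hw hp _ _ _) (hF _)) (me_nonneg hw hp hG _ _ _ _)
    _ = MM w p G F n a y x := me_sum G F n a y x
    _ = MM w p F G n a y x := MM_swap _ _ _ _ _ _
    _ ≤ _ := MM_le hw hp hF hG n a y x

end Det

/-! ### Groups -/

section Group

variable {w : ℕ → ℤ → ℝ} {p : ℕ → ℝ} {m : ℤ → ℝ} {lo hi : ℤ} {N : ℕ}

/-- The point mass at the end. -/
def pt (v : ℤ) (z : ℤ) : ℝ := if z = v then 1 else 0

theorem pt_nonneg (v z : ℤ) : 0 ≤ pt v z := by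
  unfold pt
  split_ifs <;> norm_num

theorem vf_pt (a n : ℕ) (x v : ℤ) : vf w p (pt v) a n x = ker w p a n x v := by
  rw [vf_ker]
  by_cases h : x ≤ v ∧ v ≤ x + n
  · rw [sum_eq_single v]
    · unfold pt
      rw [if_pos rfl, mul_one]
    · intro z _ hz
      unfold pt
      rw [if_neg hz, mul_zero]
    · intro hv
      exact absurd (mem_Icc.2 h) hv
  · rw [ker_eq_zero a n x v h]
    refine sum_eq_zero fun z hz => ?_
    rw [mem_Icc] at hz
    unfold pt
    rw [if_neg (fun h1 => h (by rw [← h1]; exact hz)), mul_zero]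

theorem vf_bw {a n : ℕ} (h : a + n ≤ N) (y : ℤ) : vf w p (bw w p (a + n) (N - (a + n))) a n y = bw w p a (N - a) y :=
  (Mo_vf (w := w) (p := p) (N := N) h y).symm

/-- The mass of the group which meets the path `s` and ends in `v`. -/
def mMe (w : ℕ → ℤ → ℝ) (p : ℕ → ℝ) (m : ℤ → ℝ) (lo hi : ℤ) (a : ℕ) (x v : ℤ) (s : List Bool) : ℝ :=
  ∑ y ∈ Icc lo hi, fw w p m a y * Me w p (pt v) a x s y

/-- The mass of the group which avoids the path `s` and ends in `v`. -/
def mAv (w : ℕ → ℤ → ℝ) (p : ℕ → ℝ) (m : ℤ → ℝ) (lo hi : ℤ) (a : ℕ) (x v : ℤ) (s : List Bool) : ℝ :=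
  ∑ y ∈ Icc lo hi, fw w p m a y * Av w p (pt v) a x s y

theorem mMe_mAv (h : Gr m lo hi N) {a n : ℕ} (hN : a + n ≤ N) {s : List Bool} (hs : s.length = n) (x v : ℤ) :
    mMe w p m lo hi a x v s + mAv w p m lo hi a x v s = fw w p m (a + n) v := by
  unfold mMe mAv
  rw [← sum_add_distrib, Cnt58.fw_box h hN v]
  refine sum_congr rfl fun y _ => ?_
  rw [← mul_add, me_av, hs, vf_pt]

theorem mAv_nonneg (hw : ∀ k y, 0 < w k y) (hp : ∀ k, 0 < p k) (h : Gr m lo hi N) (a : ℕ) (x v : ℤ) (s : List Bool) :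
    0 ≤ mAv w p m lo hi a x v s :=
  sum_nonneg fun y _ => mul_nonneg (fw_nonneg hw hp h.m0 _ _) (av_nonneg hw hp (pt_nonneg v) _ _ _ _)

theorem mMe_nonneg (hw : ∀ k y, 0 < w k y) (hp : ∀ k, 0 < p k) (h : Gr m lo hi N) (a : ℕ) (x v : ℤ) (s : List Bool) :
    0 ≤ mMe w p m lo hi a x v s :=
  sum_nonneg fun y _ => mul_nonneg (fw_nonneg hw hp h.m0 _ _) (me_nonneg hw hp (pt_nonneg v) _ _ _ _)

/-- The mass of the paths `s ∈ S` from `(a, x)`, with the free end. -/
def Zc (w : ℕ → ℤ → ℝ) (p : ℕ → ℝ) (N a n : ℕ) (x : ℤ) (S : Finset (List Bool)) : ℝ :=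
  ∑ s ∈ S, pW w p a x s * bw w p (a + n) (N - (a + n)) (pe x s)

theorem Zc_nonneg (hw : ∀ k y, 0 < w k y) (hp : ∀ k, 0 < p k) (a n : ℕ) (x : ℤ) (S : Finset (List Bool)) : 0 ≤ Zc w p N a n x S :=
  sum_nonneg fun s _ => mul_nonneg (pW_nonneg hw hp _ _ _) (bw_pos hw hp _ _ _).le

theorem Zc_all {a n : ℕ} (hN : a + n ≤ N) (x : ℤ) : Zc w p N a n x (pl n) = bw w p a (N - a) x := by
  unfold Zc
  rw [← vf_pl, vf_bw hN]

theorem Zc_le (hw : ∀ k y, 0 < w k y) (hp : ∀ k, 0 < p k) {a n : ℕ} (hN : a + n ≤ N) (x : ℤ) {S : Finset (List Bool)} (hS : S ⊆ pl n) :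
    Zc w p N a n x S ≤ bw w p a (N - a) x := by
  rw [← Zc_all hN]
  exact sum_le_sum_of_subset_of_nonneg hS fun s _ _ => mul_nonneg (pW_nonneg hw hp _ _ _) (bw_pos hw hp _ _ _).le

/-- **THE SWAP, group form.** -/
theorem swapG87 (hw : ∀ k y, 0 < w k y) (hp : ∀ k, 0 < p k) (h : Gr m lo hi N) {a n : ℕ} (hN : a + n ≤ N) (x v : ℤ)
    {S : Finset (List Bool)} (hS : S ⊆ pl n) :
    ∑ s ∈ S, pW w p a x s * bw w p (a + n) (N - (a + n)) (pe x s) * mMe w p m lo hi a x v s ≤
      Zt w p m lo hi N * ker w p a n x v := by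
  unfold mMe
  have e1 : ∑ s ∈ S, pW w p a x s * bw w p (a + n) (N - (a + n)) (pe x s) * ∑ y ∈ Icc lo hi, fw w p m a y * Me w p (pt v) a x s y =
      ∑ y ∈ Icc lo hi, fw w p m a y * ∑ s ∈ S, pW w p a x s * bw w p (a + n) (N - (a + n)) (pe x s) * Me w p (pt v) a x s y := by
    simp only [mul_sum]
    rw [sum_comm]
    exact sum_congr rfl fun y _ => sum_congr rfl fun s _ => by ring
  rw [e1, ← Cnt58.Zt_row (w := w) (p := p) h (show a ≤ N by omega), sum_mul]
  refine sum_le_sum fun y _ => ?_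
  have h1 := swap87 hw hp (pt_nonneg v) (fun z => (bw_pos hw hp (N - (a + n)) (a + n) z).le) (a := a) hS y x
  rw [vf_pt, vf_bw hN] at h1
  calc _ ≤ fw w p m a y * (bw w p a (N - a) y * ker w p a n x v) := mul_le_mul_of_nonneg_left h1 (fw_nonneg hw hp h.m0 _ _)
    _ = _ := by ring

/-- **THE GATE**: if the group avoids the paths of `S` in the mean at most up to the share `1 - c`. -/
theorem gate87 (hw : ∀ k y, 0 < w k y) (hp : ∀ k, 0 < p k) (h : Gr m lo hi N) {a n : ℕ} (hN : a + n ≤ N) (x v : ℤ)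
    {S : Finset (List Bool)} (hS : S ⊆ pl n) {c : ℝ}
    (hav : ∑ s ∈ S, pW w p a x s * bw w p (a + n) (N - (a + n)) (pe x s) * mAv w p m lo hi a x v s ≤
      (1 - c) * (fw w p m (a + n) v * Zc w p N a n x S)) :
    c * (fw w p m (a + n) v * Zc w p N a n x S) ≤ Zt w p m lo hi N * ker w p a n x v := by
  have h1 := swapG87 hw hp h hN x v hS
  have e1 : fw w p m (a + n) v * Zc w p N a n x S =
      (∑ s ∈ S, pW w p a x s * bw w p (a + n) (N - (a + n)) (pe x s) * mMe w p m lo hi a x v s) +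
      ∑ s ∈ S, pW w p a x s * bw w p (a + n) (N - (a + n)) (pe x s) * mAv w p m lo hi a x v s := by
    unfold Zc
    rw [← sum_add_distrib, mul_sum]
    refine sum_congr rfl fun s hs => ?_
    rw [← mMe_mAv (w := w) (p := p) h hN (mem_pl.1 (hS hs)) x v]
    ring
  linarith

/-- **THE GATE**, pointwise form. -/
theorem gate87' (hw : ∀ k y, 0 < w k y) (hp : ∀ k, 0 < p k) (h : Gr m lo hi N) {a n : ℕ} (hN : a + n ≤ N) (x v : ℤ)
    {S : Finset (List Bool)} (hS : S ⊆ pl n) {c : ℝ} (hav : ∀ s ∈ S, mAv w p m lo hi a x v s ≤ (1 - c) * fw w p m (a + n) v) :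
    c * (fw w p m (a + n) v * Zc w p N a n x S) ≤ Zt w p m lo hi N * ker w p a n x v := by
  refine gate87 hw hp h hN x v hS ?_
  unfold Zc
  rw [mul_sum, mul_sum]
  refine sum_le_sum fun s hs => ?_
  have h1 := mul_le_mul_of_nonneg_left (hav s hs) (mul_nonneg (pW_nonneg hw hp s a x) (bw_pos hw hp (N - (a + n)) (a + n) (pe x s)).le)
  calc _ ≤ _ := h1
    _ = _ := by ring

/-! ### Pairs of second paths -/

open Classical in
/-- The mass of the group which avoids both paths. -/
def mAv2 (w : ℕ → ℤ → ℝ) (p : ℕ → ℝ) (m : ℤ → ℝ) (lo hi : ℤ) (a : ℕ) (x v : ℤ) (s t : List Bool) : ℝ :=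
  ∑ y ∈ Icc lo hi, fw w p m a y * ∑ u ∈ pl s.length, if mt u s y x ∨ mt u t y x then 0 else pW w p a y u * pt v (pe y u)

open Classical in
theorem mAv_pl (s : List Bool) (a : ℕ) (x v : ℤ) : mAv w p m lo hi a x v s =
    ∑ y ∈ Icc lo hi, fw w p m a y * ∑ u ∈ pl s.length, if mt u s y x then 0 else pW w p a y u * pt v (pe y u) := by
  unfold mAv
  exact sum_congr rfl fun y _ => by rw [av_pl]

open Classical in
/-- **TWO INDEPENDENT PATHS**: `(mean of 'avoids s')² ≤ (total mass) * (mean of 'avoids s and t')`. -/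
theorem mAv2_ge (hw : ∀ k y, 0 < w k y) (hp : ∀ k, 0 < p k) (h : Gr m lo hi N) {a n : ℕ} (hN : a + n ≤ N) (x v : ℤ)
    {S : Finset (List Bool)} (hS : S ⊆ pl n) (q : List Bool → ℝ) :
    (∑ s ∈ S, q s * mAv w p m lo hi a x v s) ^ 2 ≤
      fw w p m (a + n) v * ∑ s ∈ S, ∑ t ∈ S, q s * q t * mAv2 w p m lo hi a x v s t := by
  obtain ⟨I, hI⟩ : ∃ I : Finset (ℤ × List Bool), I = Icc lo hi ×ˢ pl n := ⟨_, rfl⟩
  obtain ⟨W, hW⟩ : ∃ W : ℤ × List Bool → ℝ, W = fun z => fw w p m a z.1 * (pW w p a z.1 z.2 * pt v (pe z.1 z.2)) := ⟨_, rfl⟩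
  obtain ⟨f, hf⟩ : ∃ f : ℤ × List Bool → ℝ, f = fun z => ∑ s ∈ S, if mt z.2 s z.1 x then 0 else q s := ⟨_, rfl⟩
  have W0 : ∀ z, 0 ≤ W z := by
    intro z
    rw [hW]
    exact mul_nonneg (fw_nonneg hw hp h.m0 _ _) (mul_nonneg (pW_nonneg hw hp _ _ _) (pt_nonneg _ _))
  have e1 : ∑ s ∈ S, q s * mAv w p m lo hi a x v s = ∑ z ∈ I, W z * f z := by
    have k1 : ∀ s ∈ S, q s * mAv w p m lo hi a x v s = ∑ z ∈ I, W z * (if mt z.2 s z.1 x then 0 else q s) := by
      intro s hs
      rw [mAv_pl, mem_pl.1 (hS hs), mul_sum, hI, sum_product]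
      refine sum_congr rfl fun y _ => ?_
      rw [mul_sum, mul_sum]
      refine sum_congr rfl fun u _ => ?_
      rw [hW]
      show q s * (fw w p m a y * if mt u s y x then 0 else pW w p a y u * pt v (pe y u)) =
        fw w p m a y * (pW w p a y u * pt v (pe y u)) * (if mt u s y x then 0 else q s)
      split_ifs <;> ring
    rw [sum_congr rfl k1, sum_comm]
    refine sum_congr rfl fun z _ => ?_
    rw [hf, mul_sum]
  have e2 : fw w p m (a + n) v = ∑ z ∈ I, W z := by
    rw [Cnt58.fw_box h hN v, hI, sum_product]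
    refine sum_congr rfl fun y _ => ?_
    rw [← vf_pt, vf_pl, mul_sum]
    exact sum_congr rfl fun u _ => by rw [hW]
  have e3 : ∑ s ∈ S, ∑ t ∈ S, q s * q t * mAv2 w p m lo hi a x v s t = ∑ z ∈ I, W z * f z ^ 2 := by
    have k1 : ∀ s ∈ S, ∀ t ∈ S, q s * q t * mAv2 w p m lo hi a x v s t =
        ∑ z ∈ I, W z * ((if mt z.2 s z.1 x then 0 else q s) * (if mt z.2 t z.1 x then 0 else q t)) := by
      intro s hs t _
      unfold mAv2
      rw [mem_pl.1 (hS hs), mul_sum, hI, sum_product]
      refine sum_congr rfl fun y _ => ?_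
      rw [mul_sum, mul_sum]
      refine sum_congr rfl fun u _ => ?_
      rw [hW]
      show q s * q t * (fw w p m a y * if mt u s y x ∨ mt u t y x then 0 else pW w p a y u * pt v (pe y u)) =
        fw w p m a y * (pW w p a y u * pt v (pe y u)) * ((if mt u s y x then 0 else q s) * (if mt u t y x then 0 else q t))
      by_cases h1 : mt u s y x
      · rw [if_pos (Or.inl h1), if_pos h1]
        ring
      · by_cases h2 : mt u t y x
        · rw [if_pos (Or.inr h2), if_pos h2]
          ring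
        · rw [if_neg (fun h3 => h3.elim h1 h2), if_neg h1, if_neg h2]
          ring
    rw [sum_congr rfl fun s hs => sum_congr rfl fun t ht => k1 s hs t ht]
    have k2 : ∑ s ∈ S, ∑ t ∈ S, ∑ z ∈ I, W z * ((if mt z.2 s z.1 x then 0 else q s) * (if mt z.2 t z.1 x then 0 else q t)) =
        ∑ z ∈ I, ∑ s ∈ S, ∑ t ∈ S, W z * ((if mt z.2 s z.1 x then 0 else q s) * (if mt z.2 t z.1 x then 0 else q t)) := by
      rw [sum_comm]
      have : ∀ t ∈ S, ∑ s ∈ S, ∑ z ∈ I, W z * ((if mt z.2 s z.1 x then 0 else q s) * (if mt z.2 t z.1 x then 0 else q t)) =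
          ∑ z ∈ I, ∑ s ∈ S, W z * ((if mt z.2 s z.1 x then 0 else q s) * (if mt z.2 t z.1 x then 0 else q t)) := fun t _ => sum_comm
      rw [sum_congr rfl this, sum_comm]
      exact sum_congr rfl fun z _ => sum_comm
    rw [k2]
    refine sum_congr rfl fun z _ => ?_
    rw [hf, sq, sum_mul_sum, mul_sum]
    exact sum_congr rfl fun s _ => by rw [mul_sum]
  rw [e1, e2, e3]
  -- Cauchy - Schwarz
  have key := sum_mul_sq_le_sq_mul_sq I (fun z => Real.sqrt (W z)) (fun z => Real.sqrt (W z) * f z)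
  have s1 : ∑ z ∈ I, Real.sqrt (W z) * (Real.sqrt (W z) * f z) = ∑ z ∈ I, W z * f z :=
    sum_congr rfl fun z _ => by rw [← mul_assoc, Real.mul_self_sqrt (W0 z)]
  have s2 : ∑ z ∈ I, Real.sqrt (W z) ^ 2 = ∑ z ∈ I, W z := sum_congr rfl fun z _ => Real.sq_sqrt (W0 z)
  have s3 : ∑ z ∈ I, (Real.sqrt (W z) * f z) ^ 2 = ∑ z ∈ I, W z * f z ^ 2 :=
    sum_congr rfl fun z _ => by rw [mul_pow, Real.sq_sqrt (W0 z)]
  rw [s1, s2, s3] at key
  exact key

end Group

end

end Pool.Agent.W_7d29a1_C1.Sw87
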