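import Pool.Agent.W_7d29a1_C1.Kap20
import Pool.Agent.W_7d29a1_C1.Swap87

/-!
MP_7d29a1_pr, attractor route, [C1] SEP, gate: **THE CORE PATHS OF A CONTACT**, in the names of Swap87. (helper20)

* `cs Q k q s` : all the sites of the path `s` from `(k, q)` satisfy `Q` (row, column); `cs_iff`: by rows;
* `core Q k q n` : the set of these paths of `n` steps;
* `core_Zc` : `(1 - e1 - e2) * bw k q ≤ Zc (core)`, from the mass off the inner core at the row `a` and the exits of the core after it.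
-/

set_option autoImplicit false

namespace Pool.Agent.W_7d29a1_C1.Kap20

open Finset
open Pool.Agent.W_7d29a1_C1.K91P (fw bw bw_pos bw_zero bw_succ)
open Pool.Agent.W_7d29a1_C1.U16 (ker ker_zero ker_succ ker_nonneg ker_eq_zero)
open Pool.Agent.W_7d29a1_C1.Sp22 (Har har_bw ker_back bf bf_ker bf_zero bf_succ)
open Pool.Agent.W_7d29a1_C1.Sw87 (nx pW pe pl mem_pl sum_pl Zc pW_nonneg)

noncomputable section

variable {w : ℕ → ℤ → ℝ} {p : ℕ → ℝ}

/-- All the sites of the path `s` from `(k, q)` satisfy `Q`. -/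
def cs (Q : ℕ → ℤ → Prop) : ℕ → ℤ → List Bool → Prop
  | k, q, [] => Q k q
  | k, q, b :: s => Q k q ∧ cs Q (k + 1) (nx q b) s

theorem cs_iff {Q : ℕ → ℤ → Prop} : ∀ {s : List Bool} {k : ℕ} {q : ℤ}, cs Q k q s ↔ ∀ j ≤ s.length, Q (k + j) (pe q (s.take j))
  | [], k, q => by
    constructor
    · intro h j hj
      have : j = 0 := by simpa using hj
      subst this
      exact h
    · intro h
      exact h 0 le_rfl
  | b :: s, k, q => by
    show Q k q ∧ cs Q (k + 1) (nx q b) s ↔ _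
    rw [cs_iff]
    constructor
    · rintro ⟨h1, h2⟩ j hj
      cases j with
      | zero => exact h1
      | succ j =>
        have h3 := h2 j (by simpa using hj)
        have e : k + 1 + j = k + (j + 1) := by ring
        rwa [e] at h3
    · intro h
      refine ⟨h 0 (Nat.zero_le _), fun j hj => ?_⟩
      have h3 := h (j + 1) (by simpa using hj)
      have e : k + (j + 1) = k + 1 + j := by ring
      rwa [e] at h3

open Classical in
/-- The paths of `n` steps from `(k, q)` all whose sites satisfy `Q`. -/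
def core (Q : ℕ → ℤ → Prop) (k : ℕ) (q : ℤ) (n : ℕ) : Finset (List Bool) := (pl n).filter (cs Q k q)

theorem core_sub (Q : ℕ → ℤ → Prop) (k : ℕ) (q : ℤ) (n : ℕ) : core Q k q n ⊆ pl n := by
  classical
  exact filter_subset _ _

/-- The mass of the core paths, end weight `G`. -/
def vq (w : ℕ → ℤ → ℝ) (p : ℕ → ℝ) (Q : ℕ → ℤ → Prop) (G : ℤ → ℝ) (n k : ℕ) (q : ℤ) : ℝ :=
  ∑ s ∈ core Q k q n, pW w p k q s * G (pe q s)

open Classical in
theorem vq_eq {Q : ℕ → ℤ → Prop} {G : ℤ → ℝ} (n k : ℕ) (q : ℤ) :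
    vq w p Q G n k q = ∑ s ∈ pl n, if cs Q k q s then pW w p k q s * G (pe q s) else 0 := by
  unfold vq core
  rw [sum_filter]

open Classical in
theorem vq_zero {Q : ℕ → ℤ → Prop} {G : ℤ → ℝ} (k : ℕ) (q : ℤ) : vq w p Q G 0 k q = if Q k q then G q else 0 := by
  rw [vq_eq]
  have e : pl 0 = ({[]} : Finset (List Bool)) := rfl
  rw [e, sum_singleton]
  have e1 : cs Q k q [] ↔ Q k q := Iff.rfl
  have e2 : pW w p k q [] = 1 := rfl
  have e3 : pe q [] = q := rfl
  rw [e2, e3, one_mul]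
  by_cases h : Q k q
  · rw [if_pos (e1.2 h), if_pos h]
  · rw [if_neg fun h1 => h (e1.1 h1), if_neg h]

open Classical in
theorem vq_succ {Q : ℕ → ℤ → Prop} {G : ℤ → ℝ} (n k : ℕ) (q : ℤ) : vq w p Q G (n + 1) k q =
    if Q k q then w k q * (vq w p Q G n (k + 1) q + p k * vq w p Q G n (k + 1) (q + 1)) else 0 := by
  rw [vq_eq, sum_pl]
  by_cases h : Q k q
  · rw [if_pos h, vq_eq, vq_eq, mul_sum, ← sum_add_distrib, mul_sum]
    refine sum_congr rfl fun s _ => ?_
    have e1 : cs Q k q (false :: s) ↔ cs Q (k + 1) q s := ⟨fun h1 => h1.2, fun h1 => ⟨h, h1⟩⟩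
    have e2 : cs Q k q (true :: s) ↔ cs Q (k + 1) (q + 1) s := ⟨fun h1 => h1.2, fun h1 => ⟨h, h1⟩⟩
    have e3 : pW w p k q (false :: s) = w k q * 1 * pW w p (k + 1) q s := rfl
    have e4 : pW w p k q (true :: s) = w k q * p k * pW w p (k + 1) (q + 1) s := rfl
    have e5 : pe q (false :: s) = pe q s := rfl
    have e6 : pe q (true :: s) = pe (q + 1) s := rfl
    rw [e3, e4, e5, e6]
    simp only [e1, e2]
    split_ifs <;> ring
  · rw [if_neg h]
    refine sum_eq_zero fun s _ => ?_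
    have e1 : ¬ cs Q k q (false :: s) := fun h1 => h h1.1
    have e2 : ¬ cs Q k q (true :: s) := fun h1 => h h1.1
    rw [if_neg e1, if_neg e2, add_zero]

open Classical in
/-- From a site of `Q`: the killed masses of Kap20. -/
theorem vq_vc {Q : ℕ → ℤ → Prop} {G : ℤ → ℝ} : ∀ (n k : ℕ) (q : ℤ), vq w p Q G n k q = if Q k q then vc w p Q G k n q else 0
  | 0, k, q => by
    rw [vq_zero, vc_zero]
  | n + 1, k, q => by
    rw [vq_succ, vc_succ, vq_vc n (k + 1) q, vq_vc n (k + 1) (q + 1)]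

/-- Rows without a condition. -/
theorem vq_free {Q : ℕ → ℤ → Prop} {G : ℤ → ℝ} (n : ℕ) : ∀ (m k : ℕ) (q : ℤ), (∀ r, k ≤ r → r < k + m → ∀ y, Q r y) →
    vq w p Q G (m + n) k q = ∑ x ∈ Icc q (q + m), ker w p k m q x * vq w p Q G n (k + m) x
  | 0, k, q, _ => by
    have e : Icc q (q + ((0 : ℕ) : ℤ)) = {q} := by simp
    rw [e, sum_singleton, ker_zero, if_pos rfl, one_mul, Nat.zero_add, Nat.add_zero]
  | m + 1, k, q, h => by
    classical
    have e : m + 1 + n = (m + n) + 1 := by ring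
    have e' : k + (m + 1) = k + 1 + m := by ring
    rw [e, vq_succ, if_pos (h k le_rfl (by omega) q), vq_free n m (k + 1) q (fun r h1 h2 => h r (by omega) (by omega)),
      vq_free n m (k + 1) (q + 1) (fun r h1 h2 => h r (by omega) (by omega)), e']
    have h1 : ∑ x ∈ Icc q (q + (m : ℤ)), ker w p (k + 1) m q x * vq w p Q G n (k + 1 + m) x =
        ∑ x ∈ Icc q (q + ((m + 1 : ℕ) : ℤ)), ker w p (k + 1) m q x * vq w p Q G n (k + 1 + m) x := by
      refine sum_subset (Icc_subset_Icc le_rfl (by push_cast; omega)) fun y hy hy' => ?_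
      rw [mem_Icc] at hy'
      rw [ker_eq_zero (k + 1) m q y (fun h => hy' h), zero_mul]
    have h2 : ∑ x ∈ Icc (q + 1) (q + 1 + (m : ℤ)), ker w p (k + 1) m (q + 1) x * vq w p Q G n (k + 1 + m) x =
        ∑ x ∈ Icc q (q + ((m + 1 : ℕ) : ℤ)), ker w p (k + 1) m (q + 1) x * vq w p Q G n (k + 1 + m) x := by
      refine sum_subset (Icc_subset_Icc (by omega) (by push_cast; omega)) fun y hy hy' => ?_
      rw [mem_Icc] at hy'
      rw [ker_eq_zero (k + 1) m (q + 1) y (fun h => hy' h), zero_mul]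
    rw [h1, h2, mul_sum, ← sum_add_distrib, mul_sum]
    refine sum_congr rfl fun y _ => ?_
    rw [ker_back]
    ring

/-- **THE CORE PATHS OF THE CONTACT** carry almost all of its mass. `k` = the row of the start `q` (`k + 1` of the contact), `a` = first row
with a condition (inner core `C0`), `Q` = core at the rows `a < . ≤ a + n`. -/
theorem core_Zc (hw : ∀ k y, 0 < w k y) (hp : ∀ k, 0 < p k) {N k a n : ℕ} (ha : k ≤ a) (hn : a + n ≤ N) {q : ℤ} {Q : ℕ → ℤ → Prop}
    (hQ : ∀ r, k ≤ r → r < a → ∀ y, Q r y) {C0 : Finset ℤ} (hQa : ∀ y, Q a y ↔ y ∈ C0)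
    {lo hi : ℤ} (hC0 : ∀ x ∈ C0, lo ≤ x ∧ x + n ≤ hi) {e1 e2 : ℝ}
    (h1 : (open Classical in ∑ x ∈ (Icc q (q + (a - k : ℕ))).filter (fun x => x ∉ C0), ker w p k (a - k) q x * bw w p a (N - a) x) ≤
      e1 * bw w p k (N - k) q)
    (h2 : ∀ x ∈ C0, ∑ j ∈ range n, ex w p Q (fun i y => bw w p i (N - i) y) lo hi a (j + 1) x ≤ e2 * bw w p a (N - a) x)
    (he2 : 0 ≤ e2) :
    (1 - e1 - e2) * bw w p k (N - k) q ≤ Zc w p N k (a - k + n) q (core Q k q (a - k + n)) := by
  classical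
  have h3 := core_mass (Co := Q) hw hp ha hn C0 hC0 h1 h2 he2
  refine h3.trans (le_of_eq ?_)
  have e1 : Zc w p N k (a - k + n) q (core Q k q (a - k + n)) =
      vq w p Q (fun y => bw w p (a + n) (N - (a + n)) y) (a - k + n) k q := by
    unfold Zc vq
    rw [show k + (a - k + n) = a + n by omega]
  rw [e1, vq_free n (a - k) k q (fun r h4 h5 => hQ r h4 (by omega)), show k + (a - k) = a by omega]
  have e3 : ∑ x ∈ C0, ker w p k (a - k) q x * vc w p Q (fun y => bw w p (a + n) (N - (a + n)) y) a n x =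
      ∑ x ∈ (Icc q (q + (a - k : ℕ))).filter (fun x => x ∈ C0), ker w p k (a - k) q x *
        vc w p Q (fun y => bw w p (a + n) (N - (a + n)) y) a n x := by
    rw [← sum_filter_add_sum_filter_not C0 (fun x => x ∈ Icc q (q + (a - k : ℕ)))]
    have e4 : ∑ x ∈ C0.filter (fun x => ¬ x ∈ Icc q (q + (a - k : ℕ))), ker w p k (a - k) q x *
        vc w p Q (fun y => bw w p (a + n) (N - (a + n)) y) a n x = 0 := by
      refine sum_eq_zero fun x hx => ?_
      rw [ker_eq_zero k (a - k) q x (fun h => (mem_filter.1 hx).2 (mem_Icc.2 h)), zero_mul]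
    rw [e4, add_zero]
    refine sum_congr ?_ fun _ _ => rfl
    ext x
    rw [mem_filter, mem_filter, and_comm]
  rw [e3, sum_filter]
  refine sum_congr rfl fun x _ => ?_
  rw [vq_vc]
  by_cases hx : x ∈ C0
  · rw [if_pos hx, if_pos ((hQa x).2 hx)]
  · rw [if_neg hx, if_neg fun h => hx ((hQa x).1 h), mul_zero]

end

end Pool.Agent.W_7d29a1_C1.Kap20
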