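import Pool.Agent.W_7d29a1_C1.KdS78
import Pool.Agent.W_7d29a1_C1.FarW89

/-!
MP_7d29a1_pr, attractor route [C1] (helper78): THE ENVELOPE `KD` (Exi21) FOR THE REAL COMPOSITE KERNELS, from the levels `Far16` of the slabs
(`FarW89`: `far_up`, `far_low89`) and from the single weights of the start row and of the end row (`Wl`).

`kd78` : `KD (wt η) p cen lo H (r a) (r b - r a) κ U U' b h Ry Rx`, `κ = exp (n lam + h sl bl)`, `U = (C + Q + 1 + 2 u₀) E`,
`U' = (C₆ Q gr (2P) K + 2 u₀ + 4 b₁ K) E`, `b = 3 b₁ E/w`, `h = hc/8 - b₁ E/w`, `E = EE Tt`, `w = wd Tt`.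
-/

set_option autoImplicit false

namespace Pool.Agent.W_7d29a1_C1.K78

open MeasureTheory ProbabilityTheory Filter Topology Finset
open Pool.Agent.W_7d29a1_F Pool.Agent.W_7d29a1_h4g Pool.Agent.W_7d29a1_H Pool.Agent.W_7d29a1_HS
open Pool.Agent.W_7d29a1_C1.H75 Pool.Agent.W_7d29a1_C1.U16 Pool.Agent.W_7d29a1_C1.FarK89 Pool.Agent.W_7d29a1_C1.FarW89
open Pool.Agent.W_7d29a1_C1.K91 (wt wt_pos)
open Pool.Agent.W_7d29a1_C1.X21 (dc sk dc_nonneg sk_nonneg KD dc_le)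

noncomputable section

/-- The single weights of the row `i` : level `u`, slope `v`. -/
def Wl (η : Env) (cen : ℕ → ℤ) (i : ℕ) (lo H : ℤ) (u v : ℝ) : Prop := ∀ x : ℤ, lo ≤ x → x ≤ H → |η ((i : ℤ), x)| ≤ u + v * dc cen i x

theorem Wl.wt_le {η : Env} {cen : ℕ → ℤ} {i : ℕ} {lo H : ℤ} {u v : ℝ} (h : Wl η cen i lo H u v) {x : ℤ} (h1 : lo ≤ x) (h2 : x ≤ H) :
    wt η i x ≤ Real.exp (u + v * dc cen i x) ∧ Real.exp (-(u + v * dc cen i x)) ≤ wt η i x := by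
  have g := h x h1 h2
  have g0 := (abs_nonneg _).trans g
  obtain ⟨g1, g2⟩ := abs_le.1 g
  unfold wt
  split_ifs
  · exact ⟨Real.one_le_exp g0, Real.exp_le_one_iff.2 (by linarith)⟩
  · exact ⟨Real.exp_le_exp.2 g2, Real.exp_le_exp.2 g1⟩

variable {μ : Measure ℝ} {s : ℝ} [IsProbabilityMeasure μ] {c C : ℝ} {n₀ : ℕ}

omit [IsProbabilityMeasure μ] in
/-- The distance from the line, read at the sites `cen`. -/
theorem lat_dc {κ : Pt} {cen : ℕ → ℤ} {i : ℕ} (hc : |lat16 μ s κ ((i : ℤ), cen i)| ≤ 1) (x : ℤ) :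
    |lat16 μ s κ ((i : ℤ), x)| ≤ dc cen i x + 1 := by
  have e : lat16 μ s κ ((i : ℤ), x) = ((x - cen i : ℤ) : ℝ) + lat16 μ s κ ((i : ℤ), cen i) := by
    unfold lat16
    push_cast
    ring
  rw [e]
  unfold dc
  exact (abs_add_le _ _).trans (by linarith)

omit [IsProbabilityMeasure μ] in
/-- The skew, read at the sites `cen`. -/
theorem sk_lat {κ : Pt} {cen : ℕ → ℤ} {i n : ℕ} (h1 : |lat16 μ s κ ((i : ℤ), cen i)| ≤ 1)
    (h2 : |lat16 μ s κ (((i + n : ℕ) : ℤ), cen (i + n))| ≤ 1) (x y : ℤ) :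
    sk cen i n x y - 2 ≤ |((y - x : ℤ) : ℝ) - sl μ s * (n : ℝ)| := by
  have e : ((y - cen (i + n) - (x - cen i) : ℤ) : ℝ) = (((y - x : ℤ) : ℝ) - sl μ s * (n : ℝ)) +
      (lat16 μ s κ ((i : ℤ), cen i) - lat16 μ s κ (((i + n : ℕ) : ℤ), cen (i + n))) := by
    unfold lat16
    push_cast
    ring
  unfold sk
  rw [e]
  have h3 := abs_add_le (((y - x : ℤ) : ℝ) - sl μ s * (n : ℝ))
    (lat16 μ s κ ((i : ℤ), cen i) - lat16 μ s κ (((i + n : ℕ) : ℤ), cen (i + n)))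
  have h4 := abs_sub (lat16 μ s κ ((i : ℤ), cen i)) (lat16 μ s κ (((i + n : ℕ) : ℤ), cen (i + n)))
  linarith

/-- The level as a constant plus a small slope. -/
theorem lev_pay (P : ℕ) {Λ b₁ : ℝ} (hΛ : 0 ≤ Λ) (hb : 0 < b₁) : ∃ C₁ : ℝ, 0 < C₁ ∧ ∀ d : ℝ, 0 ≤ d → Λ * gr P (d + 1) ≤ b₁ * d + C₁ := by
  obtain ⟨C₀, hC₀, H⟩ := fq16_pay P hb
  have hg := gr_nonneg P (show (0 : ℝ) ≤ 1 by norm_num)
  refine ⟨C₀ * (1 + Λ * gr P 1) ^ 2, by positivity, fun d hd => ?_⟩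
  have h1 := gr_shift P (show (0 : ℝ) ≤ 1 by norm_num) hd
  have h2 := H (Λ * gr P 1) d (by positivity) hd
  rw [gr_fq P hd] at h2
  rw [add_comm d 1]
  calc Λ * gr P (1 + d) ≤ Λ * (gr P 1 * gr P d) := mul_le_mul_of_nonneg_left h1 hΛ
    _ = Λ * gr P 1 * gr P d := by ring
    _ ≤ _ := h2

/-- **THE ENVELOPE OF THE REAL KERNELS.** -/
theorem kd78 (h0 : In μ s c C n₀) (P : ℕ) {θ K : ℝ} (hK : 4 ≤ K) (hθ : 0 < θ) : ∃ C₆ : ℝ, 0 < C₆ ∧ ∀ Q b₁ : ℝ, 0 ≤ Q → 0 < b₁ →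
    ∃ C₁ : ℝ, 0 < C₁ ∧ ∃ n₁ : ℕ, 1 ≤ n₁ ∧
    ∀ {h : ℝ} {η : Env} {p : ℕ → ℝ} {M : ℕ} {κ : Pt} {r T N : ℕ → ℕ} {q : ℕ → ℝ} {bs : ℕ → Pt} {a b Tt : ℕ}, a < b →
    (∀ k, k < M → p k = Real.exp (s + h)) → (∀ k, M ≤ k → p k = Real.exp s) → Slabs μ s c θ K h P η κ r T N q bs a b Tt n₁ Q →
    (∀ u, a ≤ u → u < b → θ * T u ≤ ((r (u + 1) - r u : ℕ) : ℝ)) →
    ∀ (cen : ℕ → ℤ) (lo H : ℤ) (n : ℕ) (u₀ : ℝ), 0 ≤ u₀ → r b = r a + n →
    |lat16 μ s κ ((r a : ℤ), cen (r a))| ≤ 1 → |lat16 μ s κ (((r a + n : ℕ) : ℤ), cen (r a + n))| ≤ 1 →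
    Wl η cen (r a) lo H (u₀ * EE μ s Tt) (b₁ * (EE μ s Tt / wd μ s Tt)) →
    Wl η cen (r a + n) lo (H + n) (u₀ * EE μ s Tt) (b₁ * (EE μ s Tt / wd μ s Tt)) →
    (∀ x, dc cen (r a) x ≤ (K - 2) / 2 * wd μ s (T a) - 2 → lo ≤ x ∧ x ≤ H) →
    (∀ y, dc cen (r a + n) y ≤ (K - 2) / 2 * wd μ s (T (b - 1)) - 2 → lo ≤ y ∧ y ≤ H + n) →
    KD (wt η) p cen lo H (r a) n (Real.exp (n * lam μ s + h * sl μ s * bl M (r a) n))
      ((C₁ + Q + 1 + 2 * u₀) * EE μ s Tt) ((C₆ * Q * gr (2 * P) K + 2 * u₀ + 4 * b₁ * K) * EE μ s Tt)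
      (3 * b₁ * (EE μ s Tt / wd μ s Tt)) (hc μ s c Tt / 8 - b₁ * (EE μ s Tt / wd μ s Tt))
      ((K - 2) / 2 * wd μ s (T a) - 2) ((K - 2) / 2 * wd μ s (T (b - 1)) - 2) := by
  have hc0 := h0.c0
  have hc1 := h0.c1
  obtain ⟨C₅, hC₅, m₁, hm₁, Hup⟩ := far_up h0 P
  obtain ⟨C₆, hC₆, m₂, hm₂, Hlo⟩ := far_low89 h0 P hK hθ
  obtain ⟨m₃, hm₃⟩ := eventually_atTop.1 ((wd_tendsto h0).eventually_ge_atTop 1)
  refine ⟨C₆, hC₆, fun Q b₁ hQ hb₁ => ?_⟩
  have hΛ : 0 ≤ LQ (2 * P) (c / 8) (C₅ * Q) := LQ_nonneg _ (by positivity)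
  obtain ⟨C₁, hC₁, hpay⟩ := lev_pay (2 * P) hΛ hb₁
  refine ⟨C₁, hC₁, max m₁ (max m₂ m₃), hm₁.trans (le_max_left _ _), ?_⟩
  intro h η p M κ r T N q bs a b Tt hab hp hp' hsl hθT cen lo H n u₀ hu₀ hrn hc1a hc2a hW1 hW2 hB1 hB2
  have hS1 : Slabs μ s c θ K h P η κ r T N q bs a b Tt m₁ Q :=
    { hsl with
      Tt1 := (le_max_left _ _).trans hsl.Tt1
      T1 := fun u hu hub => (le_max_left _ _).trans (hsl.T1 u hu hub) }
  have hS2 : Slabs μ s c θ K h P η κ r T N q bs a b Tt m₂ Q :=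
    { hsl with
      Tt1 := (le_max_left _ _).trans ((le_max_right _ _).trans hsl.Tt1)
      T1 := fun u hu hub => (le_max_left _ _).trans ((le_max_right _ _).trans (hsl.T1 u hu hub)) }
  have hw : 1 ≤ wd μ s Tt := hm₃ Tt ((le_max_right _ _).trans ((le_max_right _ _).trans hsl.Tt1))
  have hTt1 : 1 ≤ Tt := hm₁.trans ((le_max_left _ _).trans hsl.Tt1)
  have hn : r b - r a = n := by omega
  have up := fun x y => Hup hab.le hp hp' hS1 x y
  have low := fun ρ x y => Hlo hab hp hp' hS2 hθT ρ x y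
  rw [hn] at up low
  obtain ⟨E, hE⟩ : ∃ E, E = EE μ s Tt := ⟨_, rfl⟩
  obtain ⟨w, hwd⟩ : ∃ w, w = wd μ s Tt := ⟨_, rfl⟩
  rw [← hE, ← hwd] at up
  rw [← hE, ← hwd] at low
  rw [← hE, ← hwd] at hW1 hW2 ⊢
  rw [← hwd] at hw
  have hE0 : 0 < E := by rw [hE]; exact EE_pos _
  have hE1 : 1 ≤ E := by rw [hE]; exact one_le_EE _
  have hw0 : 0 < w := by linarith
  have hEw : 0 < E / w := by positivity
  have hhc : hc μ s c Tt = c * (E / w) := by
    unfold hc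
    rw [← hE, ← hwd, mul_div_assoc]
  have eb : (r b : ℤ) = ((r a + n : ℕ) : ℤ) := by rw [hrn]
  refine ⟨Real.exp_pos _, ?_, ?_⟩
  · -- the upper bound
    intro x y hx1 hx2
    by_cases hcone : x ≤ y ∧ y ≤ x + n
    · have hw1 := (hW1.wt_le hx1 hx2).1
      have hw2 := (hW2.wt_le (x := y) (by omega) (by omega)).2
      have hwy := wt_pos η (r a + n) y
      have hwx := wt_pos η (r a) x
      have h1 := up x y
      have e1 : R26P.kf (wt η) p (r a) n x y = ker (wt η) p (r a) n x y := rfl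
      rw [e1, ker_nk (μ := μ) (s := s) (h := h) (M := M), mul_assoc]
      refine mul_le_mul_of_nonneg_left ?_ (Real.exp_pos _).le
      have h2 : wt η (r a) x / wt η (r a + n) y ≤ Real.exp (u₀ * E + b₁ * (E / w) * dc cen (r a) x +
          (u₀ * E + b₁ * (E / w) * dc cen (r a + n) y)) := by
        rw [div_le_iff₀ hwy]
        calc wt η (r a) x ≤ Real.exp (u₀ * E + b₁ * (E / w) * dc cen (r a) x) := hw1
          _ = Real.exp (u₀ * E + b₁ * (E / w) * dc cen (r a) x + (u₀ * E + b₁ * (E / w) * dc cen (r a + n) y)) *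
              Real.exp (-(u₀ * E + b₁ * (E / w) * dc cen (r a + n) y)) := by
            rw [← Real.exp_add]
            congr 1
            ring
          _ ≤ _ := mul_le_mul_of_nonneg_left hw2 (Real.exp_pos _).le
      have hk0 : 0 ≤ nk μ s h η p M (r a) n x y := by
        refine nk_nonneg (fun k => ?_) _ _ _ _
        rcases lt_or_ge k M with h3 | h3
        · rw [hp k h3]; exact Real.exp_pos _
        · rw [hp' k h3]; exact Real.exp_pos _
      refine (mul_le_mul h2 h1 hk0 (Real.exp_pos _).le).trans ?_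
      rw [← Real.exp_add]
      refine Real.exp_le_exp.2 ?_
      -- the exponents
      obtain ⟨D, hD⟩ : ∃ D, D = dc cen (r a) x := ⟨_, rfl⟩
      obtain ⟨S, hS⟩ : ∃ S, S = sk cen (r a) n x y := ⟨_, rfl⟩
      have hD0 : 0 ≤ D := by rw [hD]; exact dc_nonneg _ _
      have hdcy : dc cen (r a + n) y ≤ S + D := by rw [hD, hS]; exact dc_le (cen := cen) (r a) n x y
      have hlt : |lt μ s κ r a x| / w ≤ D / w + 1 := by
        have h3 : |lt μ s κ r a x| ≤ D + 1 := by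
          rw [hD]
          exact lat_dc hc1a x
        have h4 := div_le_div_of_nonneg_right h3 hw0.le
        rw [add_div] at h4
        have h5 : 1 / w ≤ 1 := by
          rw [div_le_one hw0]
          exact hw
        linarith
      have hgr := gr_mono (2 * P) (show 0 ≤ |lt μ s κ r a x| / w by positivity) hlt
      have hlev : LQ (2 * P) (c / 8) (C₅ * Q) * gr (2 * P) (|lt μ s κ r a x| / w) ≤ b₁ * (D / w) + C₁ :=
        (mul_le_mul_of_nonneg_left hgr hΛ).trans (hpay (D / w) (by positivity))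
      have hskew : S - 2 ≤ |((y - x : ℤ) : ℝ) - sl μ s * ((n : ℕ) : ℝ)| := by
        rw [hS]
        exact sk_lat hc1a hc2a x y
      obtain ⟨Z, hZ⟩ : ∃ Z, Z = |((y - x : ℤ) : ℝ) - sl μ s * ((n : ℕ) : ℝ)| := ⟨_, rfl⟩
      rw [← hZ] at hskew ⊢
      obtain ⟨G, hG⟩ : ∃ G, G = LQ (2 * P) (c / 8) (C₅ * Q) * gr (2 * P) (|lt μ s κ r a x| / w) := ⟨_, rfl⟩
      rw [← hG] at hlev ⊢
      rw [← hD, ← hS, hhc]
      obtain ⟨ω, hω⟩ : ∃ ω, ω = E / w := ⟨_, rfl⟩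
      have hωE : ω ≤ E := by
        rw [hω, div_le_iff₀ hw0]
        nlinarith
      rw [← hω] at hEw ⊢
      have e5 : b₁ * (D / w) * E = b₁ * ω * D := by
        rw [hω]
        ring
      have k1 : (G + Q) * E ≤ b₁ * ω * D + (C₁ + Q) * E := by
        have := mul_le_mul_of_nonneg_right hlev hE0.le
        linarith
      have k2 : b₁ * ω * dc cen (r a + n) y ≤ b₁ * ω * (S + D) := mul_le_mul_of_nonneg_left hdcy (by positivity)
      have k3 : c * ω / 8 * (S - 2) ≤ c * ω / 8 * Z := mul_le_mul_of_nonneg_left hskew (by positivity)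
      have k4 : c * ω / 8 * 2 ≤ E := by nlinarith
      linarith
    · have e1 : R26P.kf (wt η) p (r a) n x y = 0 := R26P.kf_zero (r a) n hcone
      rw [e1]
      positivity
  · -- the lower bound
    intro x y hx hy
    obtain ⟨hx1, hx2⟩ := hB1 x hx
    obtain ⟨hy1, hy2⟩ := hB2 y hy
    have hw1 := (hW1.wt_le hx1 hx2).2
    have hw2 := (hW2.wt_le hy1 hy2).1
    have hwy := wt_pos η (r a + n) y
    have hwx := wt_pos η (r a) x
    have h1 := low 0 x y (by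
        rw [sub_zero]
        have := lat_dc (μ := μ) (s := s) hc1a x
        unfold lt
        linarith) (by
        rw [sub_zero]
        have := lat_dc (μ := μ) (s := s) hc2a y
        unfold lt
        rw [eb]
        linarith)
    have e1 : R26P.kf (wt η) p (r a) n x y = ker (wt η) p (r a) n x y := rfl
    rw [e1, ker_nk (μ := μ) (s := s) (h := h) (M := M), mul_assoc (Real.exp (n * lam μ s + h * sl μ s * bl M (r a) n)), mul_assoc h]
    refine mul_le_mul_of_nonneg_left ?_ (Real.exp_pos _).le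
    have h2 : Real.exp (-(u₀ * E + b₁ * (E / w) * dc cen (r a) x) - (u₀ * E + b₁ * (E / w) * dc cen (r a + n) y)) ≤
        wt η (r a) x / wt η (r a + n) y := by
      rw [le_div_iff₀ hwy]
      calc Real.exp (-(u₀ * E + b₁ * (E / w) * dc cen (r a) x) - (u₀ * E + b₁ * (E / w) * dc cen (r a + n) y)) * wt η (r a + n) y
          ≤ Real.exp (-(u₀ * E + b₁ * (E / w) * dc cen (r a) x) - (u₀ * E + b₁ * (E / w) * dc cen (r a + n) y)) *
            Real.exp (u₀ * E + b₁ * (E / w) * dc cen (r a + n) y) := mul_le_mul_of_nonneg_left hw2 (Real.exp_pos _).le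
        _ = Real.exp (-(u₀ * E + b₁ * (E / w) * dc cen (r a) x)) := by
          rw [← Real.exp_add]
          congr 1
          ring
        _ ≤ _ := hw1
    refine le_trans ?_ (mul_le_mul h2 h1 (Real.exp_pos _).le (by positivity))
    rw [← Real.exp_add]
    refine Real.exp_le_exp.2 ?_
    rw [abs_zero, zero_div, zero_add]
    have hK2 : 0 ≤ (K - 2) / 2 := by linarith
    have hTa : wd μ s (T a) ≤ 2 * w := by
      rw [hwd]
      exact U16.wd_le_two h0 (hm₁.trans ((le_max_left _ _).trans (hsl.T1 a le_rfl hab))) (hsl.TT a le_rfl hab)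
    have hTb : wd μ s (T (b - 1)) ≤ 2 * w := by
      rw [hwd]
      exact U16.wd_le_two h0 (hm₁.trans ((le_max_left _ _).trans (hsl.T1 (b - 1) (by omega) (by omega)))) (hsl.TT (b - 1) (by omega) (by omega))
    have g1 : dc cen (r a) x ≤ K * w := by
      have := mul_le_mul_of_nonneg_left hTa hK2
      nlinarith
    have g2 : dc cen (r a + n) y ≤ K * w := by
      have := mul_le_mul_of_nonneg_left hTb hK2
      nlinarith
    have g3 : b₁ * (E / w) * dc cen (r a) x ≤ b₁ * K * E := by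
      have h3 := mul_le_mul_of_nonneg_left g1 (show 0 ≤ b₁ * (E / w) by positivity)
      have h4 : b₁ * (E / w) * (K * w) = b₁ * K * E := by field_simp
      linarith
    have g4 : b₁ * (E / w) * dc cen (r a + n) y ≤ b₁ * K * E := by
      have h3 := mul_le_mul_of_nonneg_left g2 (show 0 ≤ b₁ * (E / w) by positivity)
      have h4 : b₁ * (E / w) * (K * w) = b₁ * K * E := by field_simp
      linarith
    have g5 : 0 ≤ b₁ * K * E := by positivity
    have g6 : (C₆ * Q * gr (2 * P) K + 2 * u₀ + 4 * b₁ * K) * E = C₆ * Q * gr (2 * P) K * E + 2 * (u₀ * E) + 4 * (b₁ * K * E) := by ring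
    rw [g6]
    linarith

end

end Pool.Agent.W_7d29a1_C1.K78
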