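import Pool.Agent.W_7d29a1_C1.Exi21

/-!
MP_7d29a1_pr, attractor route [C1] (helper78): FROM THE POINTWISE ENVELOPE `KD` (Exi21) TO WEIGHTED ROW SUMS (the style `Krn` of ShDef21).

* `KD.sum_up` : `Σ_x K y x exp (β dc x) ≤ ((n + 1) exp U) exp ((b + β) dc y) κ`, every finite set of ends, every start of the box;
* `KD.sum_low` : `κ ≤ exp U' Σ_(x in d) K y x`, if one site of `d` is in the window;
* `KD.sum_far` : the ends at distance `≥ D` : `≤ (n + 1) exp (U + (b + h) dc y - (h - β) D) κ`;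
* `KD.krn` : both halves with the slope normalised to be `≤ 1` within distance `R₀`;
* `gr_prf` : a profile with `Gr` and a lower bound.
-/

set_option autoImplicit false

namespace Pool.Agent.W_7d29a1_C1.K78

open Finset Pool.Agent.W_7d29a1_C1.K91P Pool.Agent.W_7d29a1_C1.R26P Pool.Agent.W_7d29a1_C1.F74 Pool.Agent.W_7d29a1_C1.X21

noncomputable section

variable {w : ℕ → ℤ → ℝ} {p : ℕ → ℝ} {cen : ℕ → ℤ} {lo H : ℤ} {r n : ℕ} {κ U U' b h Ry Rx β : ℝ}

/-- One end. -/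
theorem KD.one_up (K : KD w p cen lo H r n κ U U' b h Ry Rx) (hβ : 0 ≤ β) {y : ℤ} (h1 : lo ≤ y) (h2 : y ≤ H) (x : ℤ) :
    kf w p r n y x * Real.exp (β * dc cen (r + n) x) ≤ κ * Real.exp (U + (b + β) * dc cen r y - (h - β) * sk cen r n y x) := by
  have g1 := K.up y x h1 h2
  have g3 := dc_le (cen := cen) r n y x
  have g4 := mul_le_mul_of_nonneg_left g3 hβ
  refine (mul_le_mul_of_nonneg_right g1 (Real.exp_pos _).le).trans ?_
  rw [mul_assoc, ← Real.exp_add]
  refine mul_le_mul_of_nonneg_left (Real.exp_le_exp.2 ?_) K.k0.le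
  linarith

/-- The sum over the ends is a sum over the cone. -/
theorem sum_cone (hw : ∀ k y, 0 < w k y) (hp : ∀ k, 0 < p k) (T : Finset ℤ) (y : ℤ) (g : ℤ → ℝ) {B : ℝ} (hB0 : 0 ≤ B)
    (hB : ∀ x ∈ T, kf w p r n y x * g x ≤ B) : ∑ x ∈ T, kf w p r n y x * g x ≤ (n + 1) * B := by
  have e : ∑ x ∈ T, kf w p r n y x * g x = ∑ x ∈ T.filter (fun x => x ∈ Icc y (y + n)), kf w p r n y x * g x := by
    rw [sum_filter]
    refine sum_congr rfl fun x _ => ?_
    by_cases hx : x ∈ Icc y (y + n)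
    · rw [if_pos hx]
    · rw [if_neg hx]
      rw [mem_Icc] at hx
      rw [kf_zero r n hx, zero_mul]
  rw [e]
  refine (sum_le_card_nsmul _ _ B fun x hx => hB x (mem_filter.1 hx).1).trans ?_
  rw [nsmul_eq_mul]
  refine mul_le_mul_of_nonneg_right ?_ hB0
  rw [← card_cone y n]
  exact_mod_cast card_le_card fun x hx => (mem_filter.1 hx).2

/-- **Upper half.** -/
theorem KD.sum_up (hw : ∀ k y, 0 < w k y) (hp : ∀ k, 0 < p k) (K : KD w p cen lo H r n κ U U' b h Ry Rx) (hβ : 0 ≤ β)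
    (hβh : β ≤ h) (T : Finset ℤ) {y : ℤ} (h1 : lo ≤ y) (h2 : y ≤ H) :
    ∑ x ∈ T, kf w p r n y x * Real.exp (β * dc cen (r + n) x) ≤
      ((n + 1) * Real.exp U) * Real.exp ((b + β) * dc cen r y) * κ := by
  have k0 := K.k0
  refine (sum_cone hw hp T y _ (B := κ * Real.exp (U + (b + β) * dc cen r y)) (by positivity) fun x _ => ?_).trans (le_of_eq ?_)
  · refine (KD.one_up K hβ h1 h2 x).trans (mul_le_mul_of_nonneg_left (Real.exp_le_exp.2 ?_) k0.le)
    have := mul_nonneg (sub_nonneg.2 hβh) (sk_nonneg (cen := cen) r n y x)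
    linarith
  · rw [Real.exp_add]
    ring

/-- **Lower half.** -/
theorem KD.sum_low (hw : ∀ k y, 0 < w k y) (hp : ∀ k, 0 < p k) (K : KD w p cen lo H r n κ U U' b h Ry Rx) {d : Finset ℤ} {y x : ℤ}
    (h1 : dc cen r y ≤ Ry) (hx : x ∈ d) (h2 : dc cen (r + n) x ≤ Rx) : κ ≤ Real.exp U' * ∑ x ∈ d, kf w p r n y x := by
  have g1 := K.lw y x h1 h2
  have g2 := single_le_sum (f := fun z => kf w p r n y z) (fun z _ => kf_nonneg hw hp r n y z) hx
  have e : κ = Real.exp U' * (κ * Real.exp (-U')) := by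
    have : Real.exp U' * Real.exp (-U') = 1 := by rw [← Real.exp_add]; simp
    linear_combination (-κ) * this
  calc κ = Real.exp U' * (κ * Real.exp (-U')) := e
    _ ≤ _ := mul_le_mul_of_nonneg_left (g1.trans g2) (Real.exp_pos _).le

/-- **Ends at distance `≥ D`.** -/
theorem KD.sum_far (hw : ∀ k y, 0 < w k y) (hp : ∀ k, 0 < p k) (K : KD w p cen lo H r n κ U U' b h Ry Rx) (hβ : 0 ≤ β)
    (hβh : β ≤ h) (T : Finset ℤ) {y : ℤ} (h1 : lo ≤ y) (h2 : y ≤ H) {D : ℝ} (hT : ∀ x ∈ T, D ≤ dc cen (r + n) x) :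
    ∑ x ∈ T, kf w p r n y x * Real.exp (β * dc cen (r + n) x) ≤
      (n + 1) * Real.exp (U + (b + h) * dc cen r y - (h - β) * D) * κ := by
  have k0 := K.k0
  refine (sum_cone hw hp T y _ (B := κ * Real.exp (U + (b + h) * dc cen r y - (h - β) * D)) (by positivity) fun x hx => ?_).trans
    (le_of_eq ?_)
  · refine (KD.one_up K hβ h1 h2 x).trans (mul_le_mul_of_nonneg_left (Real.exp_le_exp.2 ?_) k0.le)
    have g1 := hT x hx
    have g2 := dc_le (cen := cen) r n y x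
    have g3 : (h - β) * (D - dc cen r y) ≤ (h - β) * sk cen r n y x := mul_le_mul_of_nonneg_left (by linarith) (sub_nonneg.2 hβh)
    nlinarith
  · ring

/-- **Both halves in the form of `Krn`**: slope of the ends `exp (β dc)`, slope of the starts `exp ((b + β) (dc - R₀))`, which is `≤ 1` on
the starts within distance `R₀`. -/
theorem KD.krn (hw : ∀ k y, 0 < w k y) (hp : ∀ k, 0 < p k) (K : KD w p cen lo H r n κ U U' b h Ry Rx) (hβ : 0 ≤ β) (hβh : β ≤ h)
    {R₀ L : ℝ} {S T c d : Finset ℤ} (hS : ∀ y ∈ S, lo ≤ y ∧ y ≤ H) (hc : ∀ y ∈ c, dc cen r y ≤ Ry)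
    (hd : ∃ x ∈ d, dc cen (r + n) x ≤ Rx) (hL1 : (n + 1) * Real.exp (U + (b + β) * R₀) ≤ L) (hL2 : Real.exp U' ≤ L) :
    (∀ y ∈ S, ∑ x ∈ T, kf w p r n y x * Real.exp (β * dc cen (r + n) x) ≤ L * Real.exp ((b + β) * (dc cen r y - R₀)) * κ) ∧
      ∀ y ∈ c, κ ≤ L * ∑ x ∈ d, kf w p r n y x := by
  constructor
  · intro y hy
    refine (KD.sum_up hw hp K hβ hβh T (hS y hy).1 (hS y hy).2).trans ?_
    have e : ((n : ℝ) + 1) * Real.exp U * Real.exp ((b + β) * dc cen r y) * κ =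
        ((n + 1) * Real.exp (U + (b + β) * R₀)) * Real.exp ((b + β) * (dc cen r y - R₀)) * κ := by
      have e1 : Real.exp (U + (b + β) * R₀) * Real.exp ((b + β) * (dc cen r y - R₀)) = Real.exp U * Real.exp ((b + β) * dc cen r y) := by
        rw [← Real.exp_add, ← Real.exp_add]
        congr 1
        ring
      linear_combination (-((n : ℝ) + 1) * κ) * e1
    rw [e]
    exact mul_le_mul_of_nonneg_right (mul_le_mul_of_nonneg_right hL1 (Real.exp_pos _).le) K.k0.le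
  · intro y hy
    obtain ⟨x, hx, hx2⟩ := hd
    refine (KD.sum_low hw hp K (hc y hy) hx hx2).trans ?_
    exact mul_le_mul_of_nonneg_right hL2 (sum_nonneg fun z _ => kf_nonneg hw hp r n y z)

/-- The slope is at most `1` near the centre. -/
theorem slope_le_one {cen : ℕ → ℤ} {b R₀ : ℝ} (hb : 0 ≤ b) {y : ℤ} (hy : dc cen r y ≤ R₀) : Real.exp (b * (dc cen r y - R₀)) ≤ 1 := by
  refine Real.exp_le_one_iff.2 ?_
  nlinarith

/-- **Exits to the left of a window**, in the form of `BufIn` / `ExitS`. -/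
theorem KD.exl (hw : ∀ k y, 0 < w k y) (hp : ∀ k, 0 < p k) (K : KD w p cen lo H r n κ U U' b h Ry Rx) (hβ : 0 ≤ β)
    (hβh : β ≤ h) (T : Finset ℤ) {a xa : ℤ} (h1 : lo ≤ a) (h2 : a ≤ H) {D e R : ℝ} (hb : 0 ≤ b) (ha : dc cen r a ≤ R)
    (hD : D ≤ ((cen (r + n) - xa : ℤ) : ℝ)) (he : (n + 1) * Real.exp (U + (b + h) * R - (h - β) * D) ≤ e) :
    ∑ x ∈ T.filter (fun x => x < xa), kf w p r n a x * Real.exp (β * dc cen (r + n) x) ≤ e * κ := by
  refine (KD.sum_far hw hp K hβ hβh _ h1 h2 (D := D) fun x hx => le_dc_left ?_).trans (mul_le_mul_of_nonneg_right ?_ K.k0.le)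
  · have := (mem_filter.1 hx).2
    refine hD.trans ?_
    exact_mod_cast (by omega : cen (r + n) - xa ≤ cen (r + n) - x)
  · refine le_trans (mul_le_mul_of_nonneg_left (Real.exp_le_exp.2 ?_) (by positivity)) he
    have h3 := K.k0
    have h4 : (b + h) * dc cen r a ≤ (b + h) * R := mul_le_mul_of_nonneg_left ha (by linarith)
    linarith

/-- **Exits to the right of a window.** -/
theorem KD.exr (hw : ∀ k y, 0 < w k y) (hp : ∀ k, 0 < p k) (K : KD w p cen lo H r n κ U U' b h Ry Rx) (hβ : 0 ≤ β)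
    (hβh : β ≤ h) (T : Finset ℤ) {a xb : ℤ} (h1 : lo ≤ a) (h2 : a ≤ H) {D e R : ℝ} (hb : 0 ≤ b) (ha : dc cen r a ≤ R)
    (hD : D ≤ ((xb - cen (r + n) : ℤ) : ℝ)) (he : (n + 1) * Real.exp (U + (b + h) * R - (h - β) * D) ≤ e) :
    ∑ x ∈ T.filter (fun x => xb < x), kf w p r n a x * Real.exp (β * dc cen (r + n) x) ≤ e * κ := by
  refine (KD.sum_far hw hp K hβ hβh _ h1 h2 (D := D) fun x hx => le_dc_right ?_).trans (mul_le_mul_of_nonneg_right ?_ K.k0.le)
  · have := (mem_filter.1 hx).2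
    refine hD.trans ?_
    exact_mod_cast (by omega : xb - cen (r + n) ≤ x - cen (r + n))
  · refine le_trans (mul_le_mul_of_nonneg_left (Real.exp_le_exp.2 ?_) (by positivity)) he
    have h4 : (b + h) * dc cen r a ≤ (b + h) * R := mul_le_mul_of_nonneg_left ha (by linarith)
    linarith

end

end Pool.Agent.W_7d29a1_C1.K78
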