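import Pool.Agent.W_7d29a1_C1.FarW89
import Pool.Agent.W_7d29a1_C1.Loc31

/-!
MP_7d29a1_pr, attractor route [C1], SHELL, model instance of the data of the block (helper56, for helper31).

`k x z = wt i x * nk x z`, `G z = bw (i + n) z / wt (i + n) z`. `hG56`: the composition; `kl56`: upper and lower levels of `k` over slabs;
`one56`: the lower bound by one route; `low56`: the level of the shells for both directions; `lcS56`, `lcE56`: the losses (`Lc31`).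
-/

set_option autoImplicit false

namespace Pool.Agent.W_7d29a1_C1.H56

open MeasureTheory ProbabilityTheory Filter Topology Finset
open Pool.Agent.W_7d29a1_F Pool.Agent.W_7d29a1_h4g Pool.Agent.W_7d29a1_H Pool.Agent.W_7d29a1_HS
open Pool.Agent.W_7d29a1_C1.H75 Pool.Agent.W_7d29a1_C1.U16 Pool.Agent.W_7d29a1_C1.FarK89 Pool.Agent.W_7d29a1_C1.FarW89
open Pool.Agent.W_7d29a1_C1.K91 (wt wt_pos)
open Pool.Agent.W_7d29a1_C1.K91P (fw bw bw_pos GG bw_eq)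
open Pool.Agent.W_7d29a1_C1.D31

noncomputable section

variable {μ : Measure ℝ} {s h : ℝ} {η : Env} {p : ℕ → ℝ} {M N : ℕ}

/-! ### Single weights -/

theorem wt_le56 {i : ℕ} {x : ℤ} {L : ℝ} (h0 : |η ((i : ℤ), x)| ≤ L) : wt η i x ≤ Real.exp L := by
  have hL := (abs_nonneg _).trans h0
  unfold wt
  split_ifs
  · exact Real.one_le_exp hL
  · exact Real.exp_le_exp.2 ((le_abs_self _).trans h0)

theorem wt_ge56 {i : ℕ} {x : ℤ} {L : ℝ} (h0 : |η ((i : ℤ), x)| ≤ L) : Real.exp (-L) ≤ wt η i x := by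
  have hL := (abs_nonneg _).trans h0
  unfold wt
  split_ifs
  · exact Real.exp_le_one_iff.2 (by linarith)
  · exact Real.exp_le_exp.2 (by have := neg_abs_le (η ((i : ℤ), x)); linarith)

/-! ### The composition -/

/-- (1) -/
theorem hG56 (i n : ℕ) (x z : ℤ) : ker (wt η) p i n x z * bw (wt η) p (i + n) (N - (i + n)) z =
    Real.exp (n * lam μ s + h * sl μ s * bl M i n) *
      ((wt η i x * nk μ s h η p M i n x z) * (bw (wt η) p (i + n) (N - (i + n)) z / wt η (i + n) z)) := by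
  have h1 := wt_pos η (i + n) z
  rw [ker_nk (μ := μ) (s := s) (h := h) (M := M)]
  field_simp

theorem k_nonneg56 (hp : ∀ k, 0 < p k) (i n : ℕ) (x z : ℤ) : 0 ≤ wt η i x * nk μ s h η p M i n x z :=
  mul_nonneg (wt_pos η i x).le (nk_nonneg hp i n x z)

theorem G_pos56 (hp : ∀ k, 0 < p k) (j : ℕ) (z : ℤ) : 0 < bw (wt η) p j (N - j) z / wt η j z :=
  div_pos (bw_pos (wt_pos η) hp _ _ _) (wt_pos η j z)

theorem G_eq56 {j : ℕ} (hj : j < N) (z : ℤ) : bw (wt η) p j (N - j) z / wt η j z = GG (wt η) p N j z := by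
  have h1 := wt_pos η j z
  rw [bw_eq hj z, mul_div_cancel_left₀ _ h1.ne']

/-! ### One route -/

/-- The kernel is at least the weight of one route. -/
theorem ker_ge56 {w : ℕ → ℤ → ℝ} (hw : ∀ k y, 0 < w k y) (hp : ∀ k, 0 < p k) {i : ℕ} {lo hi : ℤ} {L B : ℝ} (hB : 0 ≤ B) :
    ∀ n : ℕ, (∀ j y, i ≤ j → j < i + n → y ∈ Icc lo hi → Real.exp (-L) ≤ w j y) → (∀ j, i ≤ j → j < i + n → Real.exp (-B) ≤ p j) →
    ∀ x z : ℤ, x ≤ z → z ≤ x + n → lo ≤ x → z ≤ hi → Real.exp (-(n * (L + B))) ≤ ker w p i n x z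
  | 0, _, _, x, z, h1, h2, _, _ => by
    have e : z = x := by push_cast at h2; omega
    subst e
    rw [ker_zero, if_pos rfl]
    simp
  | n + 1, hL, hBp, x, z, h1, h2, h3, h4 => by
    have ih := ker_ge56 hw hp hB n (fun j y hj hj' => hL j y hj (by omega)) (fun j hj hj' => hBp j hj (by omega))
    have e : Real.exp (-(((n + 1 : ℕ) : ℝ) * (L + B))) = Real.exp (-L) * Real.exp (-B) * Real.exp (-(n * (L + B))) := by
      rw [← Real.exp_add, ← Real.exp_add]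
      congr 1
      push_cast
      ring
    have hB1 : Real.exp (-B) ≤ 1 := Real.exp_le_one_iff.2 (by linarith)
    have a1 := hw (i + n) z
    have a2 := hw (i + n) (z - 1)
    have a3 := hp (i + n)
    have k1 := ker_nonneg hw hp i n x z
    have k2 := ker_nonneg hw hp i n x (z - 1)
    rw [ker_succ, e]
    push_cast at h2
    rcases le_or_gt z (x + n) with h5 | h5
    · have b1 := ih x z h1 h5 h3 h4
      have b2 := hL (i + n) z (by omega) (by omega) (mem_Icc.2 ⟨by omega, h4⟩)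
      have b3 : Real.exp (-L) * Real.exp (-B) * Real.exp (-(n * (L + B))) ≤ w (i + n) z * 1 * ker w p i n x z :=
        mul_le_mul (mul_le_mul b2 hB1 (Real.exp_pos _).le a1.le) b1 (Real.exp_pos _).le (by positivity)
      have b4 : 0 ≤ p (i + n) * (w (i + n) (z - 1) * ker w p i n x (z - 1)) := by positivity
      linarith
    · have b1 := ih x (z - 1) (by omega) (by omega) h3 (by omega)
      have b2 := hL (i + n) (z - 1) (by omega) (by omega) (mem_Icc.2 ⟨by omega, by omega⟩)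
      have b2' := hBp (i + n) (by omega) (by omega)
      have b3 : Real.exp (-L) * Real.exp (-B) * Real.exp (-(n * (L + B))) ≤ w (i + n) (z - 1) * p (i + n) * ker w p i n x (z - 1) :=
        mul_le_mul (mul_le_mul b2 b2' (Real.exp_pos _).le a2.le) b1 (Real.exp_pos _).le (by positivity)
      have b4 : 0 ≤ w (i + n) z * ker w p i n x z := by positivity
      have b5 : w (i + n) (z - 1) * p (i + n) * ker w p i n x (z - 1) = p (i + n) * (w (i + n) (z - 1) * ker w p i n x (z - 1)) := by ring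
      linarith

/-- (3) **ONE ROUTE.** -/
theorem one56 (hs0 : 0 ≤ sl μ s) (hs1 : sl μ s ≤ 1) (hp : ∀ k, 0 < p k) {i n : ℕ} {lo hi : ℤ} {L B : ℝ} (hB : 0 ≤ B)
    (hη : ∀ (j : ℕ) (y : ℤ), i ≤ j → j ≤ i + n → y ∈ Icc lo hi → |η ((j : ℤ), y)| ≤ L)
    (hpB : ∀ j, i ≤ j → j < i + n → |Real.log (p j)| ≤ B) (x z : ℤ) (h1 : x ≤ z) (h2 : z ≤ x + n) (h3 : lo ≤ x) (h4 : z ≤ hi) :
    Real.exp (-(n * (L + B + |lam μ s| + |h|) + L)) ≤ wt η i x * nk μ s h η p M i n x z := by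
  have h5 := ker_ge56 (w := wt η) (wt_pos η) hp hB n (fun j y hj hj' hy => wt_ge56 (hη j y hj hj'.le hy)) (fun j hj hj' => by
    have h6 := hpB j hj hj'
    have h7 := neg_abs_le (Real.log (p j))
    rw [← Real.le_log_iff_exp_le (hp j)]
    linarith) x z h1 h2 h3 h4
  have h6 := wt_ge56 (hη (i + n) z (by omega) le_rfl (mem_Icc.2 ⟨h3.trans h1, h4⟩))
  have w1 := wt_pos η i x
  have w2 := wt_pos η (i + n) z
  have e : wt η i x * nk μ s h η p M i n x z =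
      Real.exp (-(n * lam μ s + h * sl μ s * bl M i n)) * (ker (wt η) p i n x z * wt η (i + n) z) := by
    unfold nk
    field_simp
  rw [e]
  have h7 : Real.exp (-(n * (|lam μ s| + |h|))) ≤ Real.exp (-(n * lam μ s + h * sl μ s * bl M i n)) := by
    refine Real.exp_le_exp.2 (neg_le_neg ?_)
    have hn : (0 : ℝ) ≤ n := Nat.cast_nonneg n
    have hb : ((bl M i n : ℕ) : ℝ) ≤ n := by exact_mod_cast bl_le M i n
    have hb0 : (0 : ℝ) ≤ (bl M i n : ℕ) := Nat.cast_nonneg _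
    have a1 : (n : ℝ) * lam μ s ≤ n * |lam μ s| := mul_le_mul_of_nonneg_left (le_abs_self _) hn
    have a2 : h * sl μ s * bl M i n ≤ |h| * n := by
      have a3 : sl μ s * bl M i n ≤ 1 * n := mul_le_mul hs1 hb hb0 zero_le_one
      have a4 : h * (sl μ s * bl M i n) ≤ |h| * (sl μ s * bl M i n) :=
        mul_le_mul_of_nonneg_right (le_abs_self h) (mul_nonneg hs0 hb0)
      have a5 := mul_le_mul_of_nonneg_left a3 (abs_nonneg h)
      have a6 : h * sl μ s * bl M i n = h * (sl μ s * bl M i n) := by ring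
      rw [a6]
      linarith
    have a3 : (n : ℝ) * (|lam μ s| + |h|) = n * |lam μ s| + |h| * n := by ring
    linarith
  have e2 : Real.exp (-(n * (L + B + |lam μ s| + |h|) + L)) =
      Real.exp (-(n * (|lam μ s| + |h|))) * (Real.exp (-(n * (L + B))) * Real.exp (-L)) := by
    rw [← Real.exp_add, ← Real.exp_add]
    congr 1
    ring
  rw [e2]
  exact mul_le_mul h7 (mul_le_mul h5 h6 (Real.exp_pos _).le (ker_nonneg (wt_pos η) hp _ _ _ _)) (by positivity) (Real.exp_pos _).le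

/-! ### The levels over slabs -/

theorem lt56 {κ : Pt} {r : ℕ → ℕ} {u i : ℕ} (hr : r u = i) (x : ℤ) {cen : ℝ} (hcen : cen = κ.2 + sl μ s * ((i : ℝ) - κ.1)) :
    lt μ s κ r u x = x - cen := by
  unfold lt lat16
  rw [hr, hcen]
  push_cast
  ring

variable [IsProbabilityMeasure μ] {c C : ℝ} {n₀ : ℕ}

/-- (2) **THE LEVELS.** -/
theorem kl56 (h0 : In μ s c C n₀) (P : ℕ) {θ K : ℝ} (hK : 4 ≤ K) (hθ : 0 < θ) : ∃ C₅ C₆ : ℝ, 0 < C₅ ∧ 0 < C₆ ∧ ∃ n₁ : ℕ, 1 ≤ n₁ ∧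
    ∀ {h Q : ℝ} {η : Env} {p : ℕ → ℝ} {M : ℕ} {κ : Pt} {r T Nn : ℕ → ℕ} {q : ℕ → ℝ} {bs : ℕ → Pt} {b Tt i n : ℕ} {cen cen' : ℝ},
    0 < b → r 0 = i → r b = i + n → (∀ k, k < M → p k = Real.exp (s + h)) → (∀ k, M ≤ k → p k = Real.exp s) →
    Slabs μ s c θ K h P η κ r T Nn q bs 0 b Tt n₁ Q →
    cen = κ.2 + sl μ s * ((i : ℝ) - κ.1) → cen' = cen + sl μ s * n →
    (∀ (x : ℤ) (L : ℝ), |η ((i : ℤ), x)| ≤ L → ∀ z : ℤ, wt η i x * nk μ s h η p M i n x z ≤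
      Real.exp (L + (LQ (2 * P) (c / 8) (C₅ * Q) * gr (2 * P) (|(x : ℝ) - cen| / wd μ s Tt) + Q) * EE μ s Tt -
        hc μ s c Tt / 8 * |((z : ℝ) - cen') - ((x : ℝ) - cen)|)) ∧
    ((∀ u, u < b → θ * T u ≤ ((r (u + 1) - r u : ℕ) : ℝ)) → ∀ (x : ℤ) (L : ℝ), |η ((i : ℤ), x)| ≤ L → ∀ z : ℤ,
      |((z : ℝ) - cen') - ((x : ℝ) - cen)| ≤ 1 →
      Real.exp (-(C₆ * Q * gr (2 * P) (|(x : ℝ) - cen| / wd μ s Tt + K) * EE μ s Tt + L)) ≤ wt η i x * nk μ s h η p M i n x z) := by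
  obtain ⟨C₅, hC₅, m₁, hm₁, H1⟩ := far_up h0 P
  obtain ⟨C₆, hC₆, m₂, hm₂, H2⟩ := far_low89 h0 P hK hθ
  obtain ⟨m₃, hm₃⟩ := eventually_atTop.1 ((wd_tendsto h0).eventually_ge_atTop 2)
  refine ⟨C₅, C₆, hC₅, hC₆, max m₁ (max m₂ m₃), hm₁.trans (le_max_left _ _), ?_⟩
  intro h Q η p M κ r T Nn q bs b Tt i n cen cen' hb hr0 hrb hp hp' hS hcen hcen'
  have l1 : ∀ {j : ℕ}, max m₁ (max m₂ m₃) ≤ j → m₁ ≤ j := fun h => (le_max_left _ _).trans h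
  have l2 : ∀ {j : ℕ}, max m₁ (max m₂ m₃) ≤ j → m₂ ≤ j := fun h => ((le_max_left _ _).trans (le_max_right _ _)).trans h
  have l3 : ∀ {j : ℕ}, max m₁ (max m₂ m₃) ≤ j → m₃ ≤ j := fun h => ((le_max_right _ _).trans (le_max_right _ _)).trans h
  have hS1 : Slabs μ s c θ K h P η κ r T Nn q bs 0 b Tt m₁ Q :=
    { hS with
      Tt1 := l1 hS.Tt1
      T1 := fun u hu hub => l1 (hS.T1 u hu hub) }
  have hS2 : Slabs μ s c θ K h P η κ r T Nn q bs 0 b Tt m₂ Q :=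
    { hS with
      Tt1 := l2 hS.Tt1
      T1 := fun u hu hub => l2 (hS.T1 u hu hub) }
  have hpp : ∀ k, 0 < p k := fun k => by
    rcases lt_or_ge k M with hk | hk
    · rw [hp k hk]
      exact Real.exp_pos _
    · rw [hp' k hk]
      exact Real.exp_pos _
  have hrn : r b - r 0 = n := by omega
  have e0 : ∀ x : ℤ, lt μ s κ r 0 x = x - cen := fun x => lt56 hr0 x hcen
  have eb : ∀ z : ℤ, lt μ s κ r b z = z - cen' := fun z => lt56 hrb z (by rw [hcen', hcen]; push_cast; ring)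
  refine ⟨fun x L hL z => ?_, fun hlen x L hL z hz => ?_⟩
  · have h1 := H1 (Nat.zero_le b) hp hp' hS1 x z
    rw [hrn, e0, hr0] at h1
    have h2 := mul_le_mul (wt_le56 hL) h1 (nk_nonneg hpp i n x z) (Real.exp_pos _).le
    rw [← Real.exp_add] at h2
    refine h2.trans (le_of_eq ?_)
    congr 1
    have e : ((z : ℝ) - cen') - ((x : ℝ) - cen) = ((z - x : ℤ) : ℝ) - sl μ s * n := by
      rw [hcen']
      push_cast
      ring
    rw [e]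
    ring
  · have hw0 : 2 ≤ wd μ s (T 0) := hm₃ _ (l3 (hS.T1 0 le_rfl hb))
    have hwb : 2 ≤ wd μ s (T (b - 1)) := hm₃ _ (l3 (hS.T1 (b - 1) (Nat.zero_le _) (by omega)))
    have hK2 : 1 ≤ (K - 2) / 2 := by linarith
    have h1 := H2 hb hp hp' hS2 (fun u _ hub => hlen u hub) ((x : ℝ) - cen) x z (by
      rw [e0, sub_self, abs_zero]
      nlinarith) (by
      rw [eb]
      nlinarith)
    rw [hrn, hr0] at h1
    have h2 := mul_le_mul (wt_ge56 hL) h1 (Real.exp_pos _).le (wt_pos η i x).le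
    rw [← Real.exp_add] at h2
    refine le_trans (le_of_eq ?_) h2
    congr 1
    ring

/-- The level of the shells. -/
def al56 (μ : Measure ℝ) (s : ℝ) (P : ℕ) (C₆ Q K L : ℝ) (Tt : ℕ) (Wd : ℕ → ℝ) (l : ℕ) : ℝ :=
  C₆ * Q * gr (2 * P) (Wd (l + 1) / wd μ s Tt + K + 1) * EE μ s Tt + L

/-- (4) The lower level for both directions: the start or the end of the step in the shell `l`. -/
theorem low56 {P : ℕ} {C₆ Q K : ℝ} {Tt i n : ℕ} {cen cen' : ℝ} (hCQ : 0 ≤ C₆ * Q) (hK : 0 ≤ K) (hw : 1 ≤ wd μ s Tt)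
    (hlow : ∀ (x : ℤ) (L : ℝ), |η ((i : ℤ), x)| ≤ L → ∀ z : ℤ, |((z : ℝ) - cen') - ((x : ℝ) - cen)| ≤ 1 →
      Real.exp (-(C₆ * Q * gr (2 * P) (|(x : ℝ) - cen| / wd μ s Tt + K) * EE μ s Tt + L)) ≤ wt η i x * nk μ s h η p M i n x z)
    {Wd : ℕ → ℝ} {l : ℕ} {Lη : ℝ} {x z : ℤ} (hx : |η ((i : ℤ), x)| ≤ Lη) (hW : |(x : ℝ) - cen| ≤ Wd (l + 1) + 1)
    (hz : |((z : ℝ) - cen') - ((x : ℝ) - cen)| ≤ 1) :
    Real.exp (-al56 μ s P C₆ Q K Lη Tt Wd l) ≤ wt η i x * nk μ s h η p M i n x z := by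
  refine le_trans (Real.exp_le_exp.2 (neg_le_neg ?_)) (hlow x Lη hx z hz)
  unfold al56
  have hE := EE_pos (μ := μ) (s := s) Tt
  have hw0 : 0 < wd μ s Tt := by linarith
  have h1 : |(x : ℝ) - cen| / wd μ s Tt + K ≤ Wd (l + 1) / wd μ s Tt + K + 1 := by
    have h2 : |(x : ℝ) - cen| / wd μ s Tt ≤ (Wd (l + 1) + 1) / wd μ s Tt := div_le_div_of_nonneg_right hW hw0.le
    have h3 : (Wd (l + 1) + 1) / wd μ s Tt = Wd (l + 1) / wd μ s Tt + 1 / wd μ s Tt := add_div _ _ _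
    have h4 : 1 / wd μ s Tt ≤ 1 := by rw [div_le_one hw0]; exact hw
    linarith
  have h2 := gr_mono (2 * P) (by positivity : 0 ≤ |(x : ℝ) - cen| / wd μ s Tt + K) h1
  have h3 := mul_le_mul_of_nonneg_right (mul_le_mul_of_nonneg_left h2 hCQ) hE.le
  linarith

/-- The bound of one route. -/
def aT56 (μ : Measure ℝ) (s h : ℝ) (n : ℕ) (L B : ℝ) : ℝ := n * (L + B + |lam μ s| + |h|) + L

omit [IsProbabilityMeasure μ] in
/-- (4) **STARTS**: the losses at the places of the shells. -/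
theorem lcS56 [IsProbabilityMeasure μ] {P : ℕ} {C₆ Q₀ K : ℝ} {Tt i n : ℕ} {cen cen' : ℝ} (hCQ : 0 ≤ C₆ * Q₀) (hK : 0 ≤ K)
    (hw : 1 ≤ wd μ s Tt) (hlow : ∀ (x : ℤ) (L : ℝ), |η ((i : ℤ), x)| ≤ L → ∀ z : ℤ, |((z : ℝ) - cen') - ((x : ℝ) - cen)| ≤ 1 →
      Real.exp (-(C₆ * Q₀ * gr (2 * P) (|(x : ℝ) - cen| / wd μ s Tt + K) * EE μ s Tt + L)) ≤ wt η i x * nk μ s h η p M i n x z)
    (hs0 : 0 ≤ sl μ s) (hs1 : sl μ s ≤ 1) (hp : ∀ k, 0 < p k) (hcen' : cen' = cen + sl μ s * n)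
    {Pk : ℕ} {c₁ c₃ Q S E w σ R Lη B : ℝ} (hE : 0 < E) (hw' : 0 < w) (hQ : 0 ≤ Q) (hc₁ : 0 < c₁) (hσ : 0 ≤ σ) (hB : 0 ≤ B)
    {lo hi : ℤ} {Wd : ℕ → ℝ} {l₁ L : ℕ} {r : ℕ → ℝ} (hR : ∀ x ∈ Icc lo hi, |(x : ℝ) - cen| ≤ R)
    (hlo : ∀ x : ℤ, |(x : ℝ) - cen| ≤ Wd L → lo ≤ x) (hhi : ∀ x : ℤ, |(x : ℝ) - cen| ≤ Wd L → x + n ≤ hi)
    (hWd : ∀ l, l < L → Wd (l + 1) ≤ Wd L)
    (hη : ∀ (j : ℕ) (y : ℤ), i ≤ j → j ≤ i + n → y ∈ Icc lo hi → |η ((j : ℤ), y)| ≤ Lη)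
    (hpB : ∀ j, i ≤ j → j < i + n → |Real.log (p j)| ≤ B)
    (hLR : ∀ l, l₁ ≤ l → l < L → ∀ z z₀ : ℤ, |(z₀ : ℝ) - cen'| ≤ Wd (l + 1) + 1 → |(z : ℝ) - z₀| ≤ n + 1 →
      bw (wt η) p (i + n) (N - (i + n)) z / wt η (i + n) z ≤
        Real.exp (r l + σ * |(z : ℝ) - z₀|) * (bw (wt η) p (i + n) (N - (i + n)) z₀ / wt η (i + n) z₀)) :
    Lc31 (Icc lo hi) (fun x => (x : ℝ) - cen) (fun z => (z : ℝ) - cen') Wd l₁ L (fun x z => wt η i x * nk μ s h η p M i n x z)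
      (kap31 Pk c₁ c₃ Q S E w cen cen' n) (fun z => bw (wt η) p (i + n) (N - (i + n)) z / wt η (i + n) z) ((c₃ - c₁) * (E / w)) σ
      (loss31 Pk c₁ Q S E w Wd L R σ (aT56 μ s h n Lη B) r (al56 μ s P C₆ Q₀ K Lη Tt Wd)) := by
  refine lc_start hE hw' hQ hc₁ hσ (fun z => (G_pos56 hp _ z).le) hs0 hs1 hcen' hR hhi hWd ?_ hLR ?_
  · intro l hl hL x z hS _ _ h1
    have h2 := hS.2 hL
    have h3 := h2.trans (hWd l hL)
    have hx : x ∈ Icc lo hi := mem_Icc.2 ⟨hlo x h3, by have := hhi x h3; omega⟩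
    exact low56 hCQ hK hw hlow (hη i x le_rfl (by omega) hx) (by linarith) h1
  · intro x z h1 h2 h3 h4
    exact one56 hs0 hs1 hp hB hη hpB x z h1 h2 h3 h4

/-- (4) **ENDS.** -/
theorem lcE56 {P : ℕ} {C₆ Q₀ K : ℝ} {Tt i n : ℕ} {cen cen' : ℝ} (hCQ : 0 ≤ C₆ * Q₀) (hK : 0 ≤ K)
    (hw : 1 ≤ wd μ s Tt) (hlow : ∀ (x : ℤ) (L : ℝ), |η ((i : ℤ), x)| ≤ L → ∀ z : ℤ, |((z : ℝ) - cen') - ((x : ℝ) - cen)| ≤ 1 →
      Real.exp (-(C₆ * Q₀ * gr (2 * P) (|(x : ℝ) - cen| / wd μ s Tt + K) * EE μ s Tt + L)) ≤ wt η i x * nk μ s h η p M i n x z)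
    (hs0 : 0 ≤ sl μ s) (hs1 : sl μ s ≤ 1) (hp : ∀ k, 0 < p k) (hcen' : cen' = cen + sl μ s * n)
    {Pk : ℕ} {c₁ c₃ Q S E w σ R Lη B : ℝ} (hE : 0 < E) (hw' : 0 < w) (hQ : 0 ≤ Q) (hc₁ : 0 < c₁) (hσ : 0 ≤ σ) (hB : 0 ≤ B)
    {lo hi : ℤ} {Wd : ℕ → ℝ} {l₁ L : ℕ} {r : ℕ → ℝ} {F : ℤ → ℝ} (hF : ∀ x, 0 ≤ F x) (hR : ∀ z ∈ Icc lo hi, |(z : ℝ) - cen'| ≤ R)
    (hlo : ∀ z : ℤ, |(z : ℝ) - cen'| ≤ Wd L → lo ≤ z - n) (hhi : ∀ z : ℤ, |(z : ℝ) - cen'| ≤ Wd L → z ≤ hi)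
    (hWd : ∀ l, l < L → Wd (l + 1) ≤ Wd L)
    (hη : ∀ (j : ℕ) (y : ℤ), i ≤ j → j ≤ i + n → y ∈ Icc lo hi → |η ((j : ℤ), y)| ≤ Lη)
    (hpB : ∀ j, i ≤ j → j < i + n → |Real.log (p j)| ≤ B)
    (hLR : ∀ l, l₁ ≤ l → l < L → ∀ x x₀ : ℤ, |(x₀ : ℝ) - cen| ≤ Wd (l + 1) + 1 → |(x : ℝ) - x₀| ≤ n + 1 →
      F x ≤ Real.exp (r l + σ * |(x : ℝ) - x₀|) * F x₀) :
    Lc31 (Icc lo hi) (fun z => (z : ℝ) - cen') (fun x => (x : ℝ) - cen) Wd l₁ L (fun z x => wt η i x * nk μ s h η p M i n x z)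
      (fun z x => kap31 Pk c₁ c₃ Q S E w cen cen' n x z) F ((c₃ - c₁) * (E / w)) σ
      (loss31 Pk c₁ Q S E w Wd L R σ (aT56 μ s h n Lη B) r (al56 μ s P C₆ Q₀ K Lη Tt Wd)) := by
  refine lc_end (k := fun x z => wt η i x * nk μ s h η p M i n x z) hE hw' hQ hc₁ hσ hF hs0 hs1 hcen' hR hlo hWd ?_ hLR ?_
  · intro l hl hL x z hS h5 h6 h1
    have h2 := hS.2 hL
    have h3 := h2.trans (hWd l hL)
    have hx : x ∈ Icc lo hi := mem_Icc.2 ⟨by have := hlo z h3; omega, h5.trans (hhi z h3)⟩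
    refine low56 hCQ hK hw hlow (hη i x le_rfl (by omega) hx) ?_ h1
    have h7 := abs_sub_le ((x : ℝ) - cen) ((z : ℝ) - cen') 0
    rw [sub_zero, sub_zero] at h7
    have h8 := abs_sub_comm ((x : ℝ) - cen) ((z : ℝ) - cen')
    linarith
  · intro x z h1 h2 h3 h4
    exact one56 hs0 hs1 hp hB hη hpB x z h1 h2 h3 h4

/-- (4) The upper level on the windows. -/
theorem up56 {P : ℕ} {C₅ Q : ℝ} {Tt i n : ℕ} {cen cen' W : ℝ} (hC₅ : 0 ≤ C₅) (hQ : 0 ≤ Q) (hh : 0 ≤ hc μ s c Tt) (hw : 0 < wd μ s Tt)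
    (hup : ∀ (x : ℤ) (L : ℝ), |η ((i : ℤ), x)| ≤ L → ∀ z : ℤ, wt η i x * nk μ s h η p M i n x z ≤
      Real.exp (L + (LQ (2 * P) (c / 8) (C₅ * Q) * gr (2 * P) (|(x : ℝ) - cen| / wd μ s Tt) + Q) * EE μ s Tt -
        hc μ s c Tt / 8 * |((z : ℝ) - cen') - ((x : ℝ) - cen)|)) {Lη : ℝ} {x : ℤ} (hx : |η ((i : ℤ), x)| ≤ Lη)
    (hW : |(x : ℝ) - cen| ≤ W) (z : ℤ) : wt η i x * nk μ s h η p M i n x z ≤
      Real.exp (Lη + (LQ (2 * P) (c / 8) (C₅ * Q) * gr (2 * P) (W / wd μ s Tt) + Q) * EE μ s Tt) := by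
  refine (hup x Lη hx z).trans (Real.exp_le_exp.2 ?_)
  have hE := EE_pos (μ := μ) (s := s) Tt
  have h1 := gr_mono (2 * P) (by positivity : 0 ≤ |(x : ℝ) - cen| / wd μ s Tt) (div_le_div_of_nonneg_right hW hw.le)
  have h2 := mul_le_mul_of_nonneg_left h1 (LQ_nonneg (2 * P) (c₁ := c / 8) (mul_nonneg hC₅ hQ))
  have h3 := mul_le_mul_of_nonneg_right (add_le_add h2 (le_refl Q)) hE.le
  have h4 : 0 ≤ hc μ s c Tt / 8 * |((z : ℝ) - cen') - ((x : ℝ) - cen)| := by positivity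
  linarith

end

end Pool.Agent.W_7d29a1_C1.H56
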