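import Pool.Agent.W_7d29a1_C1.MtS21

/-!
Both halves (MP_7d29a1_pr), attractor route [C1]: COMPOSITION OF KERNELS AGAINST SLOPES. (helper21)

`Krn.comp`, `Krn.kcomp` : two slabs. `Krn.mono`, `Krn.one` : constants, the kernel of zero rows. `ex_comp` : exits through a window.
`Ins.of3`, `Mid.of3` : the predicates `Ins` and `Mid` from the kernels of four pieces: first buffer (amplitude `A0`), a typical piece
(`Aa`), the slab of small cross ratio (`Am`), the rest (`Ar`); `A1 = Aa * (Am * Ar)`.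
-/

set_option autoImplicit false
set_option linter.unusedSectionVars false

namespace Pool.Agent.W_7d29a1_C1.Sh21

open Finset Pool.Agent.W_7d29a1_C1.Gini76 Pool.Agent.W_7d29a1_C1.CR76 Pool.Agent.W_7d29a1_C1.K91P
  Pool.Agent.W_7d29a1_C1.Basin76 Pool.Agent.W_7d29a1_C1.R26P Pool.Agent.W_7d29a1_C1.F74 Pool.Agent.W_7d29a1_C1.P21

noncomputable section

variable {S T T' c d c' d' : Finset ℤ} {K K1 K2 K12 : ℤ → ℤ → ℝ} {ph ph' p1 pe pe' : ℤ → ℝ} {L L' L1 L2 A A0 A1 e e' : ℝ}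

theorem Krn.mono (k : Krn S T c d K ph pe L A) (hc : c' ⊆ c) (hd : d ⊆ d') (hK : ∀ x ∈ c, ∀ y ∈ d', 0 ≤ K x y)
    (hph : ∀ x ∈ S, ph x ≤ ph' x) (hpe : ∀ x ∈ S, ∀ y ∈ T, K x y * pe' y ≤ K x y * pe y) (hph0 : ∀ x ∈ S, 0 ≤ ph x) (hL : L ≤ L')
    (hL0 : 0 ≤ L) (hA : 0 ≤ A) : Krn S T c' d' K ph' pe' L' A := by
  refine ⟨fun x hx => ?_, fun x hx => ?_⟩
  · refine (sum_le_sum fun y hy => hpe x hx y hy).trans ((k.up x hx).trans ?_)
    exact mul_le_mul_of_nonneg_right (mul_le_mul hL (hph x hx) (hph0 x hx) (hL0.trans hL)) hA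
  · refine (k.lw x (hc hx)).trans (mul_le_mul hL ?_ ?_ (hL0.trans hL))
    · exact sum_le_sum_of_subset_of_nonneg hd fun y hy _ => hK x (hc hx) y hy
    · exact sum_nonneg fun y hy => hK x (hc hx) y (hd hy)

/-- A larger constant only. -/
theorem Krn.le (k : Krn S T c d K ph pe L A) (hK : ∀ x ∈ c, ∀ y ∈ d, 0 ≤ K x y) (hph0 : ∀ x ∈ S, 0 ≤ ph x) (hL : L ≤ L')
    (hL0 : 0 ≤ L) (hA : 0 ≤ A) : Krn S T c d K ph pe L' A :=
  k.mono Subset.rfl Subset.rfl hK (fun _ _ => le_rfl) (fun _ _ _ _ => le_rfl) hph0 hL hL0 hA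

/-- **Two slabs.** -/
theorem Krn.comp (k1 : Krn S T c d K1 ph p1 L1 A0) (k2 : Krn T T' c' d' K2 p1 pe L2 A1) (hK1 : ∀ x y, 0 ≤ K1 x y)
    (hK2 : ∀ x y, 0 ≤ K2 x y) (h12 : ∀ x ∈ S, ∀ v ∈ T', K12 x v = ∑ y ∈ T, K1 x y * K2 y v) (hc : c ⊆ S) (hd : d ⊆ c') (hdT : d ⊆ T)
    (hd' : d' ⊆ T') (hL1 : 0 ≤ L1) (hL2 : 0 ≤ L2) (hA1 : 0 ≤ A1) : Krn S T' c d' K12 ph pe (L1 * L2) (A0 * A1) := by
  refine ⟨fun x hx => ?_, fun x hx => ?_⟩
  · have e1 : ∑ v ∈ T', K12 x v * pe v = ∑ y ∈ T, K1 x y * ∑ v ∈ T', K2 y v * pe v := by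
      have e2 : ∀ v ∈ T', K12 x v * pe v = ∑ y ∈ T, K1 x y * (K2 y v * pe v) := by
        intro v hv
        rw [h12 x hx v hv, sum_mul]
        exact sum_congr rfl fun y _ => by ring
      rw [sum_congr rfl e2, sum_comm]
      exact sum_congr rfl fun y _ => by rw [mul_sum]
    rw [e1]
    have s1 : ∑ y ∈ T, K1 x y * ∑ v ∈ T', K2 y v * pe v ≤ L2 * A1 * ∑ y ∈ T, K1 x y * p1 y := by
      rw [mul_sum]
      refine sum_le_sum fun y hy => ?_
      have := mul_le_mul_of_nonneg_left (k2.up y hy) (hK1 x y)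
      linarith
    have s2 := mul_le_mul_of_nonneg_left (k1.up x hx) (mul_nonneg hL2 hA1)
    linarith
  · have s1 := mul_le_mul_of_nonneg_right (k1.lw x hx) hA1
    have s2 : (∑ y ∈ d, K1 x y) * A1 ≤ L2 * ∑ v ∈ d', K12 x v := by
      have e2 : ∑ v ∈ d', K12 x v = ∑ y ∈ T, K1 x y * ∑ v ∈ d', K2 y v := by
        rw [sum_congr rfl fun v hv => h12 x (hc hx) v (hd' hv), sum_comm]
        exact sum_congr rfl fun y _ => by rw [mul_sum]
      rw [e2, sum_mul, mul_sum]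
      refine (sum_le_sum (g := fun y => L2 * (K1 x y * ∑ v ∈ d', K2 y v)) fun y hy => ?_).trans
        (sum_le_sum_of_subset_of_nonneg hdT fun y _ _ => mul_nonneg hL2 (mul_nonneg (hK1 x y) (sum_nonneg fun v _ => hK2 y v)))
      have := mul_le_mul_of_nonneg_left (k2.lw y (hd hy)) (hK1 x y)
      linarith
    have s3 := mul_le_mul_of_nonneg_left s2 hL1
    linarith

variable {w : ℕ → ℤ → ℝ} {p : ℕ → ℝ} {lo h : ℤ} {r n m : ℕ}

theorem kf_split {x v : ℤ} (hx : x ∈ Icc lo h) :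
    kf w p r (n + m) x v = ∑ y ∈ Icc lo (h + n), kf w p r n x y * kf w p (r + n) m y v := by
  rw [mem_Icc] at hx
  rw [kf_comp r n m x v (S := Icc lo (h + n)) (Icc_subset_Icc hx.1 (by omega))]
  rfl

/-- **Two slabs of the real kernels.** -/
theorem Krn.kcomp (hw : ∀ k y, 0 < w k y) (hp : ∀ k, 0 < p k) (k1 : Krn (Icc lo h) (Icc lo (h + n)) c d (kf w p r n) ph p1 L1 A0)
    (k2 : Krn (Icc lo (h + n)) (Icc lo (h + n + m)) c' d' (kf w p (r + n) m) p1 pe L2 A1) (hc : c ⊆ Icc lo h) (hd : d ⊆ c')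
    (hdT : d ⊆ Icc lo (h + n)) (hd' : d' ⊆ Icc lo (h + n + m)) (hL1 : 0 ≤ L1) (hL2 : 0 ≤ L2) (hA1 : 0 ≤ A1) :
    Krn (Icc lo h) (Icc lo (h + n + m)) c d' (kf w p r (n + m)) ph pe (L1 * L2) (A0 * A1) :=
  k1.comp k2 (fun x y => kf_nonneg hw hp _ _ _ _) (fun x y => kf_nonneg hw hp _ _ _ _) (fun x hx v _ => kf_split hx) hc hd hdT hd'
    hL1 hL2 hA1

/-- The kernel of zero rows. -/
theorem Krn.one (hpe : ∀ x ∈ S, pe x ≤ L * ph x) (hph : ∀ x ∈ S, 0 ≤ L * ph x) (hcd : c ⊆ d) (hL : 1 ≤ L) :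
    Krn S T c d (kf w p r 0) ph pe L 1 := by
  refine ⟨fun x hx => ?_, fun x hx => ?_⟩
  · have e : ∑ y ∈ T, kf w p r 0 x y * pe y ≤ L * ph x := by
      by_cases hT : x ∈ T
      · rw [sum_eq_single_of_mem x hT fun y _ hy => by rw [kf_zero_row]; unfold sg; rw [if_neg hy, zero_mul]]
        rw [kf_zero_row]
        unfold sg
        rw [if_pos rfl, one_mul]
        exact hpe x hx
      · refine (sum_eq_zero fun y hy => ?_).le.trans (hph x hx)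
        rw [kf_zero_row]
        unfold sg
        rw [if_neg (by rintro rfl; exact hT hy), zero_mul]
    rw [mul_one]
    exact e
  · have e : ∑ y ∈ d, kf w p r 0 x y = 1 := by
      rw [sum_eq_single_of_mem x (hcd hx) fun y _ hy => by rw [kf_zero_row]; unfold sg; rw [if_neg hy]]
      rw [kf_zero_row]
      unfold sg
      rw [if_pos rfl]
    rw [e]
    linarith

/-- **Exits through a window**: the first slab leaves the window with mass `≤ e * A0` (slope `p1`), the second slab has exits `≤ e' * A1`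
from the window. -/
theorem ex_comp (hw : ∀ k y, 0 < w k y) (hp : ∀ k, 0 < p k) {a xa xb : ℤ} (ha : a ∈ Icc lo h) (Q : ℤ → Prop) [DecidablePred Q]
    (xl : ∑ x ∈ (Icc lo (h + n)).filter (· < xa), kf w p r n a x * p1 x ≤ e * A0)
    (xr : ∑ x ∈ (Icc lo (h + n)).filter (xb < ·), kf w p r n a x * p1 x ≤ e * A0)
    (up : ∀ x ∈ Icc lo (h + n), ∑ v ∈ Icc lo (h + n + m), kf w p (r + n) m x v * pe v ≤ L2 * p1 x * A1)
    (win : ∀ x ∈ Icc lo (h + n), xa ≤ x → x ≤ xb → ∑ v ∈ (Icc lo (h + n + m)).filter Q, kf w p (r + n) m x v * pe v ≤ e' * A1)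
    (tot : ∑ x ∈ Icc lo (h + n), kf w p r n a x ≤ L1 * A0) (hpe : ∀ v, 0 ≤ pe v) (hL2 : 0 ≤ L2) (hA1 : 0 ≤ A1) (he' : 0 ≤ e') :
    ∑ v ∈ (Icc lo (h + n + m)).filter Q, kf w p r (n + m) a v * pe v ≤ (2 * e * L2 + L1 * e') * (A0 * A1) := by
  have k0 : ∀ x, 0 ≤ kf w p r n a x := fun x => kf_nonneg hw hp _ _ _ _
  have e1 : ∑ v ∈ (Icc lo (h + n + m)).filter Q, kf w p r (n + m) a v * pe v =
      ∑ x ∈ Icc lo (h + n), kf w p r n a x * ∑ v ∈ (Icc lo (h + n + m)).filter Q, kf w p (r + n) m x v * pe v := by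
    have e2 : ∀ v ∈ (Icc lo (h + n + m)).filter Q, kf w p r (n + m) a v * pe v =
        ∑ x ∈ Icc lo (h + n), kf w p r n a x * (kf w p (r + n) m x v * pe v) := by
      intro v _
      rw [kf_split ha, sum_mul]
      exact sum_congr rfl fun y _ => by ring
    rw [sum_congr rfl e2, sum_comm]
    exact sum_congr rfl fun y _ => by rw [mul_sum]
  have up' : ∀ x ∈ Icc lo (h + n), ∑ v ∈ (Icc lo (h + n + m)).filter Q, kf w p (r + n) m x v * pe v ≤ L2 * p1 x * A1 :=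
    fun x hx => (sum_le_sum_of_subset_of_nonneg (filter_subset _ _) fun v _ _ =>
      mul_nonneg (kf_nonneg hw hp _ _ _ _) (hpe v)).trans (up x hx)
  have nn : ∀ x ∈ Icc lo (h + n), 0 ≤ L2 * p1 x * A1 := fun x hx =>
    (sum_nonneg fun v _ => mul_nonneg (kf_nonneg hw hp _ _ _ _) (hpe v)).trans (up x hx)
  have ptw : ∀ x ∈ Icc lo (h + n), kf w p r n a x * ∑ v ∈ (Icc lo (h + n + m)).filter Q, kf w p (r + n) m x v * pe v ≤
      (if x < xa then kf w p r n a x * (L2 * p1 x * A1) else 0) + (if xb < x then kf w p r n a x * (L2 * p1 x * A1) else 0) +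
        kf w p r n a x * (e' * A1) := by
    intro x hx
    have t3 : 0 ≤ kf w p r n a x * (e' * A1) := mul_nonneg (k0 x) (mul_nonneg he' hA1)
    have u := mul_le_mul_of_nonneg_left (up' x hx) (k0 x)
    have v := mul_nonneg (k0 x) (nn x hx)
    by_cases h1 : x < xa
    · rw [if_pos h1]
      have : 0 ≤ (if xb < x then kf w p r n a x * (L2 * p1 x * A1) else 0) := by split_ifs <;> linarith
      linarith
    · rw [if_neg h1]
      by_cases h2 : xb < x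
      · rw [if_pos h2]
        linarith
      · rw [if_neg h2]
        have := mul_le_mul_of_nonneg_left (win x hx (by omega) (by omega)) (k0 x)
        linarith
  rw [e1]
  refine (sum_le_sum ptw).trans ?_
  rw [sum_add_distrib, sum_add_distrib, ← sum_filter, ← sum_filter, ← sum_mul]
  have s1 : ∑ x ∈ (Icc lo (h + n)).filter (· < xa), kf w p r n a x * (L2 * p1 x * A1) ≤ L2 * A1 * (e * A0) := by
    refine le_trans (le_of_eq ?_) (mul_le_mul_of_nonneg_left xl (mul_nonneg hL2 hA1))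
    rw [mul_sum]
    exact sum_congr rfl fun x _ => by ring
  have s2 : ∑ x ∈ (Icc lo (h + n)).filter (xb < ·), kf w p r n a x * (L2 * p1 x * A1) ≤ L2 * A1 * (e * A0) := by
    refine le_trans (le_of_eq ?_) (mul_le_mul_of_nonneg_left xr (mul_nonneg hL2 hA1))
    rw [mul_sum]
    exact sum_congr rfl fun x _ => by ring
  have s3 := mul_le_mul_of_nonneg_right tot (mul_nonneg he' hA1)
  linarith

/-! ### The inside from its pieces -/

section pieces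

variable {d0 : Finset ℤ} {c0 n1 ne na ng kr nb n3 : ℕ} {a1 b1 a2 b2 xa xb s da db ya yb za zb va vb xm xn : ℤ} {pg pm p2 p3 : ℤ → ℝ}
  {δ δ' L0 L0' U U' Lb La Lm Lr A3 Aa Am Ar e'' : ℝ}

/-- **`Ins` from four pieces** : first buffer, typical piece, slab of small cross ratio, rest. -/
theorem Ins.of3 (hw : ∀ k y, 0 < w k y) (hp : ∀ k, 0 < p k) (hne : ne = na + (ng + kr)) (g : Geo21 lo h n1 a1 b1 a2 b2 xa xb)
    {d1 ca da' : Finset ℤ} (kb : Krn (Icc lo h) (Icc lo (h + n1)) (cl2 a1 b1 a2 b2) d1 (kf w p c0 n1) ph p1 Lb A0)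
    (ka : Krn (Icc lo (h + n1)) (Icc lo (h + n1 + na)) ca da' (kf w p (c0 + n1) na) p1 pg La Aa)
    (km : Krn (Icc lo (h + n1 + na)) (Icc lo (h + n1 + na + ng)) (Icc va vb) d0 (kf w p (c0 + n1 + na) ng) pg pm Lm Am)
    (kr' : Krn (Icc lo (h + n1 + na + ng)) (Icc lo (h + n1 + na + ng + kr)) d0 (Icc da db) (kf w p (c0 + n1 + na + ng) kr)
      pm pe Lr Ar)
    (h1 : d1 ⊆ ca) (h2 : d1 ⊆ Icc lo (h + n1)) (h3 : da' ⊆ Icc va vb) (h4 : Icc va vb ⊆ Icc lo (h + n1 + na))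
    (h5 : d0 ⊆ Icc lo (h + n1 + na + ng)) (h6 : Icc da db ⊆ Icc lo (h + n1 + na + ng + kr)) (h7 : ca ⊆ Icc lo (h + n1))
    (hLb : 1 ≤ Lb) (hLa : 1 ≤ La) (hLm : 1 ≤ Lm) (hLr : 1 ≤ Lr) (hL : Lb * (La * (Lm * Lr)) ≤ L) (hA0 : 0 ≤ A0) (hAa : 0 ≤ Aa)
    (hAm : 0 ≤ Am) (hAr : 0 ≤ Ar) (ph1 : ∀ x ∈ cl2 a1 b1 a2 b2, ph x ≤ 1) (hph : ∀ x ∈ Icc lo h, 0 ≤ ph x)
    (hp1 : ∀ x ∈ Icc lo (h + n1), 0 ≤ p1 x) :
    Ins w p lo h c0 n1 ne a1 b1 a2 b2 da db ph p1 pe L A0 (Aa * (Am * Ar)) := by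
  subst hne
  have g1 := g.h1
  have g2 := g.h2
  have g3 := g.h3
  have g7 := g.h7
  have g8 := g.h8
  have cs : cl2 a1 b1 a2 b2 ⊆ Icc lo h := by
    intro z hz
    unfold cl2 at hz
    rw [mem_union, mem_Icc, mem_Icc] at hz
    rw [mem_Icc]
    omega
  have kmr := km.kcomp hw hp kr' h4 (Subset.refl d0) h5 h6 (by linarith) (by linarith) hAr
  have eh : h + (n1 : ℤ) + (na : ℤ) + (ng : ℤ) + (kr : ℤ) = h + n1 + na + ((ng + kr : ℕ) : ℤ) := by push_cast; ring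
  rw [eh] at kmr h6
  have kin := ka.kcomp hw hp kmr h7 h3 (h3.trans h4) h6 (by linarith) (by positivity) (by positivity)
  have eh2 : h + (n1 : ℤ) + (na : ℤ) + ((ng + kr : ℕ) : ℤ) = h + n1 + ((na + (ng + kr) : ℕ) : ℤ) := by push_cast; ring
  rw [eh2] at kin h6
  have kall := kb.kcomp hw hp kin cs h1 h2 h6 (by linarith) (by positivity) (by positivity)
  have c1 : 1 ≤ La * (Lm * Lr) := by
    have := mul_le_mul hLm hLr zero_le_one (by linarith)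
    have := mul_le_mul hLa this (by norm_num) (by linarith)
    linarith
  refine ⟨kall.le (fun x _ y _ => kf_nonneg hw hp _ _ _ _) hph hL (by positivity) (by positivity), ph1, fun x hx => ?_⟩
  refine (kin.up x hx).trans (mul_le_mul_of_nonneg_right (mul_le_mul_of_nonneg_right ?_ (hp1 x hx)) (by positivity))
  refine le_trans ?_ hL
  exact le_mul_of_one_le_left (by linarith) hLb

/-- **`Mid` from the pieces.** -/
theorem Mid.of3 (hw : ∀ k y, 0 < w k y) (hp : ∀ k, 0 < p k) {kg : ℕ} (hkg : kg = n1 + na) (g : Geo21 lo h n1 a1 b1 a2 b2 xa xb)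
    {ca da' : Finset ℤ}
    (ka : Krn (Icc lo (h + n1)) (Icc lo (h + n1 + na)) ca da' (kf w p (c0 + n1) na) p1 pg La Aa)
    (km : Krn (Icc lo (h + n1 + na)) (Icc lo (h + n1 + na + ng)) (Icc va vb) d0 (kf w p (c0 + n1 + na) ng) pg pm L Am)
    (kr' : Krn (Icc lo (h + n1 + na + ng)) (Icc lo (h + n1 + na + ng + kr)) d0 (Icc da db) (kf w p (c0 + n1 + na + ng) kr)
      pm pe L Ar)
    (xl : ∀ y ∈ cl2 a1 b1 a2 b2, ∑ x ∈ (Icc lo (h + n1)).filter (· < xa), kf w p c0 n1 y x * p1 x ≤ e * A0)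
    (xr : ∀ y ∈ cl2 a1 b1 a2 b2, ∑ x ∈ (Icc lo (h + n1)).filter (xb < ·), kf w p c0 n1 y x * p1 x ≤ e * A0)
    (tot : ∀ y ∈ cl2 a1 b1 a2 b2, ∑ x ∈ Icc lo (h + n1), kf w p c0 n1 y x ≤ Lb * A0)
    (wl : ∀ x ∈ Icc lo (h + n1), xa ≤ x → x ≤ xb → ∑ v ∈ (Icc lo (h + n1 + na)).filter (· < va), kf w p (c0 + n1) na x v * pg v ≤
      e' * Aa)
    (wr : ∀ x ∈ Icc lo (h + n1), xa ≤ x → x ≤ xb → ∑ v ∈ (Icc lo (h + n1 + na)).filter (vb < ·), kf w p (c0 + n1) na x v * pg v ≤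
      e' * Aa)
    (xm1 : ∑ x ∈ (Icc lo (h + n1 + na + ng)).filter (· < xm), kf w p (c0 + n1 + na) ng va x * pm x ≤ e'' * Am)
    (xm2 : ∑ x ∈ (Icc lo (h + n1 + na + ng)).filter (xn < ·), kf w p (c0 + n1 + na) ng vb x * pm x ≤ e'' * Am)
    (cr : CR (kf w p (c0 + n1 + na) ng) va vb xm xn ≤ 1 + δ) (hd0 : d0 ⊆ Icc xm xn) (hee : 2 * e * La + Lb * e' ≤ e'')
    (g0 : a1 ≤ va) (g1 : va ≤ vb) (g2 : vb ≤ xm) (g3 : xm ≤ xn) (g4 : xn ≤ va + ng) (g5 : vb ≤ a2 + kg)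
    (hpg : ∀ v, 0 ≤ pg v) (hLa : 0 ≤ La) (he' : 0 ≤ e') (hL : 1 ≤ L) (hA0 : 0 < A0) (hAa : 0 < Aa) (hAm : 0 < Am) (hAr : 0 < Ar) :
    Mid w p lo h c0 kg ng kr a1 a2 va vb xm xn da db d0 pg pm pe δ e'' L A0 (Aa * (Am * Ar)) (A0 * Aa) Am Ar := by
  subst hkg
  have q1 := g.h1
  have q2 := g.h2
  have q3 := g.h3
  have q7 := g.h7
  have q8 := g.h8
  have m1 : a1 ∈ cl2 a1 b1 a2 b2 := by
    unfold cl2
    simp only [mem_union, mem_Icc]
    omega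
  have m2 : a2 ∈ cl2 a1 b1 a2 b2 := by
    unfold cl2
    simp only [mem_union, mem_Icc]
    omega
  have er : c0 + (n1 + na) = c0 + n1 + na := by ring
  have eh : h + ((n1 + na : ℕ) : ℤ) = h + n1 + na := by push_cast; ring
  have x1 := ex_comp (pe := pg) (a := a1) hw hp (mem_Icc.2 ⟨by omega, by omega⟩) (· < va) (xl a1 m1) (xr a1 m1) ka.up wl (tot a1 m1) hpg hLa
    hAa.le he'
  have x2 := ex_comp (pe := pg) (a := a2) hw hp (mem_Icc.2 ⟨by omega, by omega⟩) (vb < ·) (xl a2 m2) (xr a2 m2) ka.up wr (tot a2 m2) hpg hLa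
    hAa.le he'
  have c1 := mul_le_mul_of_nonneg_right hee (show 0 ≤ A0 * Aa by positivity)
  refine
    { Agp := by positivity
      Amp := hAm
      Arp := hAr
      g0 := g0
      g1 := g1
      g2 := g2
      g3 := g3
      g4 := g4
      g5 := g5
      d0s := hd0
      kmid := by rw [er, eh]; exact km
      krest := by rw [er, eh]; exact kr'
      xg1 := by rw [eh]; exact x1.trans c1
      xg2 := by rw [eh]; exact x2.trans c1
      xm1 := by rw [er, eh]; exact xm1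
      xm2 := by rw [er, eh]; exact xm2
      cr := by rw [er]; exact cr
      amp := ?_ }
  have : A0 * Aa * (Am * Ar) = 1 * (A0 * (Aa * (Am * Ar))) := by ring
  rw [this]
  exact mul_le_mul_of_nonneg_right hL (by positivity)

/-- Larger errors. -/
theorem BufIn.mono (B : BufIn w p lo h c0 n1 a1 b1 a2 b2 xa xb s p1 δ e A0 L0) (hw : ∀ k y, 0 < w k y) (hp : ∀ k, 0 < p k)
    (hδ : δ ≤ δ') (he : e ≤ e') (hA : 0 ≤ A0) (hL : L0 ≤ L0') : BufIn w p lo h c0 n1 a1 b1 a2 b2 xa xb s p1 δ' e' A0 L0' := by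
  have c := mul_le_mul_of_nonneg_right he hA
  exact ⟨B.c1.trans (by linarith), B.c2.trans (by linarith),
    fun y hy => ⟨(B.q1 y hy).1.trans (mul_le_mul_of_nonneg_right hL (kf_nonneg hw hp _ _ _ _)),
      (B.q1 y hy).2.trans (mul_le_mul_of_nonneg_right hL (kf_nonneg hw hp _ _ _ _))⟩,
    fun y hy => ⟨(B.q2 y hy).1.trans (mul_le_mul_of_nonneg_right hL (kf_nonneg hw hp _ _ _ _)),
      (B.q2 y hy).2.trans (mul_le_mul_of_nonneg_right hL (kf_nonneg hw hp _ _ _ _))⟩, B.xl.trans c, B.xr.trans c⟩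

theorem ExitS.mono {A2 : ℝ} (X : ExitS w p lo h r nb n3 da db ya yb za zb pe p2 p3 δ e U L A2 A3) (hw : ∀ k y, 0 < w k y) (hp : ∀ k, 0 < p k)
    (hδ : δ ≤ δ') (he : e ≤ e') (hU : U ≤ U') (hL : L ≤ L') (hU0 : 0 ≤ U) (hL0 : 0 ≤ L) (hA2 : 0 ≤ A2) (hA3 : 0 ≤ A3)
    (hpe : ∀ v ∈ Icc lo h, 0 ≤ pe v) (hp2 : ∀ v ∈ Icc lo (h + nb), 0 ≤ p2 v) :
    ExitS w p lo h r nb n3 da db ya yb za zb pe p2 p3 δ' e' U' L' A2 A3 := by
  have c3 := mul_le_mul_of_nonneg_right he hA3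
  exact ⟨X.gd, X.gy, X.gx, X.k2.le (fun x _ y _ => kf_nonneg hw hp _ _ _ _) hpe hU hU0 hA2,
    X.k3.le (fun x _ y _ => kf_nonneg hw hp _ _ _ _) hp2 hL hL0 hA3,
    X.cx.trans (by linarith), X.yl.trans c3, X.yr.trans c3⟩

/-- **The field `off` of `All`** : the starts of the window `[ua, ub]` leave through the cell, the other starts are rare. -/
theorem off_of (hw : ∀ k y, 0 < w k y) (hp : ∀ k, 0 < p k) {ua ub a : ℤ} {A2 : ℝ}
    (off : ∀ v ∈ Icc lo (h + n1 + ne), ua ≤ v → v ≤ ub →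
      ∑ z ∈ (Icc lo (h + n1 + ne + nb)).filter (fun z => ¬ (ya ≤ z ∧ z ≤ yb)), kf w p (c0 + n1 + ne) nb v z * p2 z ≤ e * pe v * A2)
    (up : ∀ v ∈ Icc lo (h + n1 + ne), ∑ z ∈ Icc lo (h + n1 + ne + nb), kf w p (c0 + n1 + ne) nb v z * p2 z ≤ U * pe v * A2)
    (far : ∑ v ∈ (Icc lo (h + n1 + ne)).filter (fun v => ¬ (ua ≤ v ∧ v ≤ ub)), kf w p c0 (n1 + ne) a v * pe v ≤ e * (A0 * A1))
    (tot : ∑ v ∈ Icc lo (h + n1 + ne), kf w p c0 (n1 + ne) a v * pe v ≤ L * (A0 * A1)) (hp2 : ∀ z ∈ Icc lo (h + n1 + ne + nb), 0 ≤ p2 z)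
    (hpe : ∀ v ∈ Icc lo (h + n1 + ne), 0 ≤ pe v) (he : 0 ≤ e) (hU : 0 ≤ U) (hA2 : 0 ≤ A2) :
    ∑ v ∈ Icc lo (h + n1 + ne), kf w p c0 (n1 + ne) a v *
      ∑ z ∈ (Icc lo (h + n1 + ne + nb)).filter (fun z => ¬ (ya ≤ z ∧ z ≤ yb)), kf w p (c0 + n1 + ne) nb v z * p2 z ≤
        e * (L + U) * (A0 * A1) * A2 := by
  have k0 : ∀ v, 0 ≤ kf w p c0 (n1 + ne) a v := fun v => kf_nonneg hw hp _ _ _ _
  have ptw : ∀ v ∈ Icc lo (h + n1 + ne), kf w p c0 (n1 + ne) a v *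
      ∑ z ∈ (Icc lo (h + n1 + ne + nb)).filter (fun z => ¬ (ya ≤ z ∧ z ≤ yb)), kf w p (c0 + n1 + ne) nb v z * p2 z ≤
      e * A2 * (kf w p c0 (n1 + ne) a v * pe v) +
        (if ¬ (ua ≤ v ∧ v ≤ ub) then U * A2 * (kf w p c0 (n1 + ne) a v * pe v) else 0) := by
    intro v hv
    have n0 : 0 ≤ kf w p c0 (n1 + ne) a v * pe v := mul_nonneg (k0 v) (hpe v hv)
    by_cases hc : ua ≤ v ∧ v ≤ ub
    · rw [if_neg (not_not.2 hc), add_zero]
      have := mul_le_mul_of_nonneg_left (off v hv hc.1 hc.2) (k0 v)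
      linarith
    · rw [if_pos hc]
      have s1 := (sum_le_sum_of_subset_of_nonneg (filter_subset (fun z => ¬ (ya ≤ z ∧ z ≤ yb)) (Icc lo (h + n1 + ne + nb)))
        fun z hz _ => mul_nonneg (kf_nonneg hw hp (c0 + n1 + ne) nb v z) (hp2 z hz)).trans (up v hv)
      have s2 := mul_le_mul_of_nonneg_left s1 (k0 v)
      have s3 : 0 ≤ e * A2 * (kf w p c0 (n1 + ne) a v * pe v) := by positivity
      linarith
  refine (sum_le_sum ptw).trans ?_
  rw [sum_add_distrib, ← mul_sum, ← sum_filter, ← mul_sum]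
  have c1 := mul_le_mul_of_nonneg_left tot (mul_nonneg he hA2)
  have c2 := mul_le_mul_of_nonneg_left far (mul_nonneg hU hA2)
  linarith

end pieces

end

end Pool.Agent.W_7d29a1_C1.Sh21
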