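import Pool.Agent.W_7d29a1_C1.SepD98

/-!
MP_7d29a1_pr, [C1] attractor route, SEP (helper34): THE PROBABILITY OF THE LANE BLOCK OF THE CONCRETE WINDOW. `tube98_34`: the tubes `B58` at the
two base points are in the window, rows `(rl98, rl98 + 3 T_r]`; `cone98_34`: the ends of the two lanes and of the middle slab; **`pG34`**: the
outsides for which the lane block `LE98` is lucky with conditional probability `< p` have probability `≤ ε` (`luc30` of helper30, `mid99` of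
helper99), for every window part `B` which contains the rows of the block = hypothesis `h1` of `ty98_prob`.
-/

set_option autoImplicit false
set_option linter.unusedSectionVars false
set_option linter.unusedVariables false

namespace Pool.Agent.W_7d29a1_C1.D98

open MeasureTheory ProbabilityTheory Finset
open Pool.Agent.W_7d29a1_F hiding Bw G
open Pool.Agent.W_7d29a1_h4g Pool.Agent.W_7d29a1_H Pool.Agent.W_7d29a1_HS
open Pool.Agent.W_7d29a1_C1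
open Pool.Agent.W_7d29a1_C1.H60
open Pool.Agent.W_7d29a1_C1.G37 (Gm)
open Pool.Agent.W_7d29a1_C1.BP58
open Pool.Agent.W_7d29a1_C1.Luc30
open Pool.Agent.W_7d29a1_C1.H75
open Pool.Agent.W_7d29a1_C1.M99 (Mid99 meas_Mid99 on_Mid99 mid99)

noncomputable section

variable {μ : Measure ℝ} {s c C : ℝ} {n₀ : ℕ} {Γ : Cx} {G : Gm} {P : Nm98} {u : ℕ} {κ : ℤ × ℤ}

/-! ### The base points -/

/-- The line through the centre. -/
theorem cone98_34 (k T : ℕ) : |((co98 G u κ (k + T) - co98 G u κ k : ℤ) : ℝ) - G.v * (T : ℝ)| ≤ 1 := by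
  unfold co98
  have h1 := Int.floor_le (G.ctr u κ + G.v * ((k + T : ℕ) : ℝ))
  have h2 := Int.lt_floor_add_one (G.ctr u κ + G.v * ((k + T : ℕ) : ℝ))
  have h3 := Int.floor_le (G.ctr u κ + G.v * (k : ℝ))
  have h4 := Int.lt_floor_add_one (G.ctr u κ + G.v * (k : ℝ))
  rw [abs_le]
  push_cast at h1 h2 ⊢
  constructor <;> linarith

/-- **A tube at a base point is in the window.** -/
theorem tube98_34 (hv : G.v = sl μ s) (h0 : 0 ≤ G.rcc u κ) {k T : ℕ} {Kb : ℝ} (hk : G.ra u κ ≤ k + 1) (hT : k + T + 1 ≤ G.re u κ)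
    (hw : Kb * wd μ s T + 1 ≤ G.kw * G.w u) {p : Pt} (hp : p ∈ B58 μ s T Kb) :
    p + pt98 G u κ k ∈ G.win u κ ∧ (k : ℤ) < (p + pt98 G u κ k).1 ∧ (p + pt98 G u κ k).1 ≤ ((k + T : ℕ) : ℤ) := by
  obtain ⟨h1, h2, h3⟩ := hp
  have e1 : (p + pt98 G u κ k).1 = p.1 + (k : ℤ) := rfl
  have e2 : (p + pt98 G u κ k).2 = p.2 + co98 G u κ k := rfl
  have r1 := G.ra_cast h0
  have r2 := G.re_cast h0
  have hk' : (G.ra u κ : ℤ) ≤ (k : ℤ) + 1 := by exact_mod_cast hk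
  have hT' : (k : ℤ) + (T : ℤ) + 1 ≤ (G.re u κ : ℤ) := by exact_mod_cast hT
  refine ⟨⟨?_, ?_, ?_⟩, ?_, ?_⟩
  · rw [e1]
    omega
  · rw [e1]
    omega
  · rw [e1, e2]
    have b1 : (G.base u κ).1 = G.rcc u κ + G.T (u - 1) := rfl
    have b2 : (G.base u κ).2 = ⌊G.ctr u κ + G.v * ((G.rcc u κ : ℝ) + (G.T (u - 1) : ℝ))⌋ := rfl
    rw [b1, b2]
    unfold co98
    have f1 := Int.floor_le (G.ctr u κ + G.v * (k : ℝ))
    have f2 := Int.lt_floor_add_one (G.ctr u κ + G.v * (k : ℝ))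
    have f3 := Int.floor_le (G.ctr u κ + G.v * ((G.rcc u κ : ℝ) + (G.T (u - 1) : ℝ)))
    have f4 := Int.lt_floor_add_one (G.ctr u κ + G.v * ((G.rcc u κ : ℝ) + (G.T (u - 1) : ℝ)))
    rw [← hv] at h3
    have h5 := abs_le.1 h3
    rw [abs_le]
    push_cast
    constructor <;> nlinarith [h5.1, h5.2]
  · rw [e1]
    omega
  · rw [e1]
    push_cast
    omega

/-- The rows of the lane block are rows of the window. -/
theorem rows98_34 (hF : Fit98 G P u) {i : ℕ} (hi : i ≤ 2) :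
    G.ra u κ ≤ rl98 Γ G P u κ + i * P.T u + 1 ∧ rl98 Γ G P u κ + i * P.T u + P.T u + 1 ≤ G.re u κ := by
  have h1 := rl_T98 (Γ := Γ) (κ := κ) hF
  have h2 := le_ag98 (Γ := Γ) (G := G) (P := P) (u := u) (κ := κ)
  have h3 := ag_le_rl98 (Γ := Γ) (G := G) (P := P) (u := u) (κ := κ)
  have h4 := ra_pos98 (G := G) (u := u) (κ := κ)
  have h5 : i * P.T u ≤ 2 * P.T u := Nat.mul_le_mul_right _ hi
  constructor
  · omega
  · omega

/-! ### The middle slab -/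

theorem on_mm98_34 [IsProbabilityMeasure μ] :
    On20 (rows ((pt98 G u κ (rl98 Γ G P u κ)).1 + (P.T u : ℕ)) ((pt98 G u κ (rl98 Γ G P u κ)).1 + (2 * P.T u : ℕ)))
      (at20 (pt98 G u κ (rl98 Γ G P u κ + P.T u)) (MM98 μ s c Γ G P u κ)) := by
  have h1 := on_at20' (pt98 G u κ (rl98 Γ G P u κ + P.T u)) (on_Mid99 (μ := μ) (s := s) (c := c) (P.T u) P.cM P.qM P.UM P.Kl
    (P.rM * wd μ s (P.T u)) 0 (zM98 Γ G P u κ))
  refine h1.mono fun p hp => ?_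
  have h2 : ((rl98 Γ G P u κ + P.T u : ℕ) : ℤ) < p.1 := hp.1
  have h3 : p.1 ≤ ((rl98 Γ G P u κ + P.T u : ℕ) : ℤ) + (P.T u : ℤ) := hp.2
  constructor
  · show ((rl98 Γ G P u κ : ℕ) : ℤ) + (P.T u : ℤ) < p.1
    push_cast at h2 ⊢
    omega
  · show p.1 ≤ ((rl98 Γ G P u κ : ℕ) : ℤ) + ((2 * P.T u : ℕ) : ℤ)
    push_cast at h3 ⊢
    omega

/-- The numbers of the middle slab and of the lanes in the record. -/
structure Eq34 (P : Nm98) (Kb Kl cM qM UM δ U0 LB KpB UB LA KpA UA ρB YB ρA YA : ℝ) (N : ℕ) : Prop where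
  Kb : P.Kb = Kb
  Kl : P.Kl = Kl
  cM : P.cM = cM
  qM : P.qM = qM
  UM : P.UM = UM
  δ : P.δ = δ
  U0 : P.U0 = U0
  LB : P.LB = LB
  KpB : P.KpB = KpB
  UB : P.UB = UB
  LA : P.LA = LA
  KpA : P.KpA = KpA
  UA : P.UA = UA
  ρB : P.ρB = ρB
  YB : P.YB = YB
  ρA : P.ρA = ρA
  YA : P.YA = YA
  N : P.N = N

/-- **THE PROBABILITY OF THE LANE BLOCK OF THE WINDOW.** -/
theorem pG34 [IsProbabilityMeasure μ] (h : In μ s c C n₀) {ε Kl : ℝ} (hε : 0 < ε) (hKl : 0 ≤ Kl) :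
    ∃ dM cM qM UM : ℝ, 0 < dM ∧ 0 < cM ∧ 0 ≤ qM ∧ 0 < UM ∧ ∀ δ Kb : ℝ, 0 < δ → 1 + δ / 32 ≤ Kb →
    ∃ U0 : ℝ, 0 < U0 ∧ ∀ LB KpB : ℝ, 0 ≤ KpB → ∃ pB : ℝ, 0 < pB ∧ ∃ UB : ℝ, 0 < UB ∧ ∀ LA KpA : ℝ, 0 ≤ KpA →
      ∃ pA : ℝ, 0 < pA ∧ ∃ UA : ℝ, 0 < UA ∧ ∀ ρB YB ρA YA Z : ℝ, 0 < ρB → ρB ≤ Kb → 0 < ρA → ρA ≤ Kb →
      ∃ N₀ : ℕ, 1 ≤ N₀ ∧ ∀ N : ℕ, N₀ ≤ N → ∃ p : ℝ, 0 < p ∧ ∃ n₁ : ℕ, 1 ≤ n₁ ∧
        (∀ n : ℕ, n₁ ≤ n → 1 ≤ wd μ s (N * n) ∧ Z * EE μ s (N * n) ≤ hc μ s c n * (ρA * wd μ s (N * n)) / 4 ∧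
          Z * EE μ s (N * n) ≤ hc μ s c n * (ρB * wd μ s (N * n)) / 4) ∧
        ∀ P : Nm98, Eq34 P Kb Kl cM qM UM δ U0 LB KpB UB LA KpA UA ρB YB ρA YA N → 0 ≤ P.rM → P.rM ≤ dM →
          ∀ (Γ : Cx) (G : Gm) (u : ℕ) (κ : ℤ × ℤ), n₁ ≤ P.nr u → G.v = sl μ s → 0 ≤ G.rcc u κ → Fit98 G P u →
          P.Kb * wd μ s (P.T u) + 1 ≤ G.kw * G.w u →
          ∀ B : Set Pt, (∀ q ∈ G.win u κ, ((rl98 Γ G P u κ : ℕ) : ℤ) < q.1 → q.1 ≤ ((rl98 Γ G P u κ + 3 * P.T u : ℕ) : ℤ) → q ∈ B) →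
            (law μ).real {ω | p ≤ cP μ B (LE98 μ s c Γ G P u κ) ω}ᶜ ≤ ε := by
  obtain ⟨dM, cM, qM, UM, hdM, hcM, hqM, hUM, nM, hnM, HM⟩ := mid99 (μ := μ) (s := s) (c := c) h (show 0 < ε / 6 by positivity) hKl
  refine ⟨dM, cM, qM, UM, hdM, hcM, hqM, hUM, fun δ Kb hδ hKb => ?_⟩
  obtain ⟨U0, hU0, H0⟩ := luc30 (μ := μ) (s := s) h (K := 1) zero_le_one hδ hε hKb hKl 1
  refine ⟨U0, hU0, fun LB KpB hKpB => ?_⟩
  obtain ⟨pB, hpB, UB, hUB, H1⟩ := H0 LB KpB hKpB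
  refine ⟨pB, hpB, UB, hUB, fun LA KpA hKpA => ?_⟩
  obtain ⟨pA, hpA, UA, hUA, H2⟩ := H1 LA KpA hKpA
  refine ⟨pA, hpA, UA, hUA, fun ρB YB ρA YA Z hρB hρB' hρA hρA' => ?_⟩
  obtain ⟨N0, hN0, H3⟩ := H2 ρB YB ρA YA Z hρB hρB' hρA hρA'
  refine ⟨N0, hN0, fun N hN => ?_⟩
  obtain ⟨p, hp, n1, hn1, H4⟩ := H3 N hN
  obtain ⟨nw, hnw⟩ := Filter.eventually_atTop.1 ((wd_tendsto h).eventually_ge_atTop 1)
  have hN1 : 1 ≤ N := hN0.trans hN
  refine ⟨p, hp, max n1 (max nM (max nw 1)), le_trans (by simp) (le_max_right _ _), fun n hn => ?_, fun P hE hr0 hr1 Γ G u κ hn hv h0 hF hw B hB => ?_⟩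
  · have k1 : n1 ≤ n := (le_max_left _ _).trans hn
    have k2 : nw ≤ n := le_trans (by simp) hn
    obtain ⟨z1, z2, -⟩ := H4 n k1
    exact ⟨hnw (N * n) (k2.trans (Nat.le_mul_of_pos_left n hN1)), z1, z2⟩
  · have k1 : n1 ≤ P.nr u := (le_max_left _ _).trans hn
    have k2 : nw ≤ P.nr u := le_trans (by simp) hn
    have k3 : nM ≤ P.nr u := le_trans (by simp) hn
    have k4 : 1 ≤ P.nr u := le_trans (by simp) hn
    have eT : N * P.nr u = P.T u := by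
      unfold Nm98.T
      rw [hE.N]
    have hTn : P.nr u ≤ P.T u := by
      rw [← eT]
      exact Nat.le_mul_of_pos_left _ hN1
    have hw1 : 1 ≤ wd μ s (P.T u) := hnw _ (k2.trans hTn)
    obtain ⟨r0, r0'⟩ := rows98_34 (Γ := Γ) (G := G) (P := P) (u := u) (κ := κ) hF (i := 0) (by norm_num)
    obtain ⟨r2, r2'⟩ := rows98_34 (Γ := Γ) (G := G) (P := P) (u := u) (κ := κ) hF (i := 2) le_rfl
    rw [zero_mul, add_zero] at r0 r0'
    have cA : |((eA98 Γ G P u κ () : ℤ) : ℝ) - sl μ s * (P.T u : ℕ)| ≤ 1 * wd μ s (P.T u) := by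
      rw [← hv]
      refine le_trans ?_ (by linarith : (1 : ℝ) ≤ 1 * wd μ s (P.T u))
      exact cone98_34 _ _
    have cB : |((eB98 Γ G P u κ () : ℤ) : ℝ) - sl μ s * (P.T u : ℕ)| ≤ 1 * wd μ s (P.T u) := by
      rw [← hv]
      refine le_trans ?_ (by linarith : (1 : ℝ) ≤ 1 * wd μ s (P.T u))
      have h3 := cone98_34 (G := G) (u := u) (κ := κ) (rl98 Γ G P u κ + 2 * P.T u) (P.T u)
      have e3 : rl98 Γ G P u κ + 2 * P.T u + P.T u = rl98 Γ G P u κ + 3 * P.T u := by ring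
      rw [e3] at h3
      exact h3
    have cM' : |((zM98 Γ G P u κ : ℤ) : ℝ) - ((0 : ℤ) : ℝ) - sl μ s * (P.T u : ℕ)| ≤ 2 * wd μ s (P.T u) := by
      rw [← hv, Int.cast_zero, sub_zero]
      refine le_trans ?_ (by linarith : (1 : ℝ) ≤ 2 * wd μ s (P.T u))
      have h3 := cone98_34 (G := G) (u := u) (κ := κ) (rl98 Γ G P u κ + P.T u) (P.T u)
      have e3 : rl98 Γ G P u κ + P.T u + P.T u = rl98 Γ G P u κ + 2 * P.T u := by ring
      rw [e3] at h3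
      exact h3
    have hwp : 0 < wd μ s (P.T u) := by linarith
    obtain ⟨-, -, -, -, pM, -⟩ := HM (P.T u) (k3.trans hTn) 0 (zM98 Γ G P u κ) (P.rM * wd μ s (P.T u)) cM' (by positivity)
      (mul_le_mul_of_nonneg_right hr1 hwp.le)
    obtain ⟨-, -, H5⟩ := H4 (P.nr u) k1
    rw [eT] at H5
    have key := H5 Unit Unit (by simp) (by simp) (fun _ => 0) (eA98 Γ G P u κ) (fun _ => 0) (eB98 Γ G P u κ)
      (fun _ => by simp [hwp.le]) (fun _ => cA) (fun _ => by simp [hwp.le]) (fun _ => cB) (fun j j' hj => absurd (Subsingleton.elim j j') hj)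
      (fun j j' hj => absurd (Subsingleton.elim j j') hj) (pt98 G u κ (rl98 Γ G P u κ)) (pt98 G u κ (rl98 Γ G P u κ + 2 * P.T u))
      (by
        show ((rl98 Γ G P u κ + 2 * P.T u : ℕ) : ℤ) = ((rl98 Γ G P u κ : ℕ) : ℤ) + ((2 * P.T u : ℕ) : ℤ)
        push_cast
        ring)
      B
      (fun q hq => by
        obtain ⟨q1, q2, q3⟩ := tube98_34 hv h0 r0 r0' (by rw [hE.Kb] at hw; exact hw) hq
        refine hB _ q1 q2 (q3.trans ?_)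
        push_cast
        omega)
      (fun q hq => by
        obtain ⟨q1, q2, q3⟩ := tube98_34 hv h0 r2 r2' (by rw [hE.Kb] at hw; exact hw) hq
        refine hB _ q1 (lt_of_le_of_lt ?_ q2) (q3.trans ?_)
        · push_cast
          omega
        · push_cast
          omega)
      (at20 (pt98 G u κ (rl98 Γ G P u κ + P.T u)) (MM98 μ s c Γ G P u κ)) (meas_at20 _ meas_MM98) on_mm98_34
      (by
        have e5 : (at20 (pt98 G u κ (rl98 Γ G P u κ + P.T u)) (MM98 μ s c Γ G P u κ))ᶜ =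
            at20 (pt98 G u κ (rl98 Γ G P u κ + P.T u)) (MM98 μ s c Γ G P u κ)ᶜ := rfl
        rw [e5, real_at20 _ meas_MM98.compl]
        unfold MM98
        rw [hE.cM, hE.qM, hE.UM, hE.Kl]
        exact pM)
    unfold LE98 LA98 LB98
    rw [hE.Kb, hE.Kl, hE.δ, hE.U0, hE.LA, hE.KpA, hE.UA, hE.ρA, hE.YA, hE.LB, hE.KpB, hE.UB, hE.ρB, hE.YB, hE.N]
    exact key

/-- The rows of the lane block of the window are in `B98`. -/
theorem rows_B98_34 {q : Pt} (hq : q ∈ G.win u κ) (h1 : ((rl98 Γ G P u κ : ℕ) : ℤ) < q.1)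
    (h2 : q.1 ≤ ((rl98 Γ G P u κ + 3 * P.T u : ℕ) : ℤ)) : q ∈ B98 Γ G P u κ := by
  first | exact ⟨hq, h1⟩ | exact ⟨hq, h1, h2⟩

/-- **THE LUCK OF THE CONTENT IS RARE.** -/
theorem lkP34 [IsProbabilityMeasure μ] (h : In μ s c C n₀) {ε : ℝ} (hε : 0 < ε) : ∃ U : ℝ, 0 < U ∧ ∃ n₁ : ℕ,
    ∀ (Γ : Cx) (G : Gm) (P : Nm98) (u : ℕ) (κ : ℤ × ℤ), n₁ ≤ P.T u → U < P.LA → (law μ).real (Lk98 μ s Γ G P u κ) ≤ ε := by
  obtain ⟨U, hU, n1, H⟩ := lk_prob30 (μ := μ) (s := s) h (K := 0) le_rfl hε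
  refine ⟨U, hU, n1, fun Γ G P u κ hT hL => ?_⟩
  exact H (P.T u) hT Unit (fun _ => 0) (eA98 Γ G P u κ) () _ _ _ (by simp) hL

end

end Pool.Agent.W_7d29a1_C1.D98
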