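import Pool.Agent.W_7d29a1_C1.StW86
import Pool.Agent.W_7d29a1_C1.PGt34

/-!
MP_7d29a1_pr, [C1] attractor route, SEP (helper34): THE LANE BLOCK AND THE WALLS FIT INTO THE STRIP OF THE WINDOW; THE PROBABILITY OF THE LANE BLOCK
AS A FACTOR. `wdL34`, `wdK34`, `thK34` (numbers of the strip); `LnP34`: what is asked of the lane length of a record `P : Gm → Nm98`;
**`facT34`** : `pG34` as `Fac86`; **`facL34`** : `lkP34` as `Fac86`.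
-/

set_option autoImplicit false
set_option linter.unusedSectionVars false
set_option linter.unusedVariables false

namespace Pool.Agent.W_7d29a1_C1.KwK34

open MeasureTheory ProbabilityTheory Finset
open Pool.Agent.W_7d29a1_F hiding Bw G
open Pool.Agent.W_7d29a1_h4g Pool.Agent.W_7d29a1_H Pool.Agent.W_7d29a1_HS
open Pool.Agent.W_7d29a1_C1
open Pool.Agent.W_7d29a1_C1.H60
open Pool.Agent.W_7d29a1_C1.G37 (Gm)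
open Pool.Agent.W_7d29a1_C1.BP58
open Pool.Agent.W_7d29a1_C1.Luc30
open Pool.Agent.W_7d29a1_C1.H75
open Pool.Agent.W_7d29a1_C1.PW58
open Pool.Agent.W_7d29a1_C1.D98
open Pool.Agent.W_7d29a1_C1.PL86 (Wd86 Fac86)

noncomputable section

variable {μ : Measure ℝ} {s c C : ℝ} {n₀ : ℕ} {Γ : Cx} {G : Gm} {u : ℕ} {κ : ℤ × ℤ}

/-! ### The widths -/

/-- The tube of the lanes is in the strip. -/
theorem wdL34 {n T : ℕ} (h1 : wd μ s n ≤ wd μ s T) (h2 : 1 ≤ wd μ s n) {Kb kw : ℝ} (hK : 0 ≤ Kb) (hk : Kb + 1 ≤ kw) :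
    Kb * wd μ s n + 1 ≤ kw * wd μ s T := by
  have h3 : Kb * wd μ s n ≤ Kb * wd μ s T := mul_le_mul_of_nonneg_left h1 hK
  have h4 : (Kb + 1) * wd μ s T ≤ kw * wd μ s T := mul_le_mul_of_nonneg_right hk (by linarith)
  nlinarith

/-- The wall sites are in the strip. -/
theorem wdK34 {kc R G : ℝ} {j K1h M K2h : ℕ} {U₀ Q₀ U₁ Q₁ U Q A B Y p ε : ℝ} {n₂ T n m K₁ K₂ : ℕ}
    (H : NumT58 μ s c kc R G j K1h M K2h U₀ Q₀ U₁ Q₁ U Q A B Y p ε n₂ T n m K₁ K₂) {kw κ' : ℝ} (hk : R + κ' ≤ kw) :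
    (K₂ : ℝ) * wd μ s n ≤ kw * wd μ s T - κ' * wd μ s T := by
  have h1 := H.le_R
  have h2 := H.sc.w1
  have h3 := H.sc.wnT
  have h4 : (R + κ') * wd μ s T ≤ kw * wd μ s T := mul_le_mul_of_nonneg_right hk (by linarith)
  nlinarith

/-- The share of the gate. -/
theorem thK34 {kc R G : ℝ} {j K1h M K2h : ℕ} {U₀ Q₀ U₁ Q₁ U Q A B Y p ε : ℝ} {n₂ T n m K₁ K₂ : ℕ}
    (H : NumT58 μ s c kc R G j K1h M K2h U₀ Q₀ U₁ Q₁ U Q A B Y p ε n₂ T n m K₁ K₂) (hj : 8 ≤ j) :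
    0 < (1 : ℝ) / (2 * j) ∧ (1 : ℝ) / (2 * j) ≤ 1 / 16 ∧ (1 : ℝ) / (2 * j) * (T : ℝ) ≤ n := by
  have hj' : (8 : ℝ) ≤ j := by exact_mod_cast hj
  have h1 : (T : ℝ) ≤ 2 * j * n := by exact_mod_cast H.nj
  have h2 : (0 : ℝ) < 2 * j := by linarith
  refine ⟨by positivity, ?_, ?_⟩
  · exact one_div_le_one_div_of_le (by norm_num) (by linarith)
  · rw [one_div, inv_mul_le_iff₀ h2]
    exact h1

/-! ### The factors -/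

/-- The lane length of a record. -/
def LnP34 (μ : Measure ℝ) (s : ℝ) (P : Gm → Nm98) (n₁ : ℕ) : Prop := ∃ T₁ : ℕ, ∀ (G : Gm) (u : ℕ), T₁ ≤ G.T u →
  n₁ ≤ (P G).nr u ∧ n₁ ≤ (P G).T u ∧ 1 ≤ wd μ s ((P G).T u) ∧ wd μ s ((P G).T u) ≤ wd μ s (G.T u)

/-- **THE LANE BLOCK AS A FACTOR** (hypothesis `h1` of `ty98_prob`, `hT` of `plv86`). -/
theorem facT34 [IsProbabilityMeasure μ] (h : In μ s c C n₀) {ε Kl : ℝ} (hε : 0 < ε) (hKl : 0 ≤ Kl) :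
    ∃ dM cM qM UM : ℝ, 0 < dM ∧ 0 < cM ∧ 0 ≤ qM ∧ 0 < UM ∧ ∀ δ Kb : ℝ, 0 < δ → 1 + δ / 32 ≤ Kb →
    ∃ U0 : ℝ, 0 < U0 ∧ ∀ LB KpB : ℝ, 0 ≤ KpB → ∃ pB : ℝ, 0 < pB ∧ ∃ UB : ℝ, 0 < UB ∧ ∀ LA KpA : ℝ, 0 ≤ KpA →
      ∃ pA : ℝ, 0 < pA ∧ ∃ UA : ℝ, 0 < UA ∧ ∀ ρB YB ρA YA Z : ℝ, 0 < ρB → ρB ≤ Kb → 0 < ρA → ρA ≤ Kb →
      ∃ N₀ : ℕ, 1 ≤ N₀ ∧ ∀ N : ℕ, N₀ ≤ N → ∃ p : ℝ, 0 < p ∧ ∃ n₁ : ℕ, 1 ≤ n₁ ∧
        (∀ n : ℕ, n₁ ≤ n → 1 ≤ wd μ s (N * n) ∧ Z * EE μ s (N * n) ≤ hc μ s c n * (ρA * wd μ s (N * n)) / 4 ∧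
          Z * EE μ s (N * n) ≤ hc μ s c n * (ρB * wd μ s (N * n)) / 4) ∧
        ∀ (P : Gm → Nm98) (kw : ℝ), (∀ G, Eq34 (P G) Kb Kl cM qM UM δ U0 LB KpB UB LA KpA UA ρB YB ρA YA N) →
          (∀ G, 0 ≤ (P G).rM ∧ (P G).rM ≤ dM) → Kb + 1 ≤ kw → LnP34 μ s P n₁ →
          Fac86 μ s c kw P (fun Γ G u κ => {ω | p ≤ cP μ (B98 Γ G (P G) u κ) (LE98 μ s c Γ G (P G) u κ) ω}) ε := by
  obtain ⟨dM, cM, qM, UM, hdM, hcM, hqM, hUM, H⟩ := pG34 h hε hKl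
  refine ⟨dM, cM, qM, UM, hdM, hcM, hqM, hUM, fun δ Kb hδ hKb => ?_⟩
  obtain ⟨U0, hU0, H⟩ := H δ Kb hδ hKb
  refine ⟨U0, hU0, fun LB KpB hKpB => ?_⟩
  obtain ⟨pB, hpB, UB, hUB, H⟩ := H LB KpB hKpB
  refine ⟨pB, hpB, UB, hUB, fun LA KpA hKpA => ?_⟩
  obtain ⟨pA, hpA, UA, hUA, H⟩ := H LA KpA hKpA
  refine ⟨pA, hpA, UA, hUA, fun ρB YB ρA YA Z hρB hρB' hρA hρA' => ?_⟩
  obtain ⟨N₀, hN₀, H⟩ := H ρB YB ρA YA Z hρB hρB' hρA hρA'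
  refine ⟨N₀, hN₀, fun N hN => ?_⟩
  obtain ⟨p, hp, n₁, hn₁, HZ, H⟩ := H N hN
  refine ⟨p, hp, n₁, hn₁, HZ, fun P kw hE hr hkw hL => ?_⟩
  obtain ⟨T₁, hT₁⟩ := hL
  refine ⟨T₁, fun Γ G u κ hW => ?_⟩
  obtain ⟨l1, -, l3, l4⟩ := hT₁ G u hW.T_ge
  refine H (P G) (hE G) (hr G).1 (hr G).2 Γ G u κ l1 hW.v_eq hW.rc hW.fit ?_ _ fun q hq h1 h2 => rows_B98_34 hq h1 h2
  rw [(hE G).Kb, hW.w_eq, hW.kw_eq]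
  exact wdL34 l4 l3 (by linarith) hkw

/-- **THE LUCK OF THE CONTENT IS RARE, AS A FACTOR** (`hL` of `plv86`: rewrite by `compl_compl`). -/
theorem facL34 [IsProbabilityMeasure μ] (h : In μ s c C n₀) {ε : ℝ} (hε : 0 < ε) : ∃ U : ℝ, 0 < U ∧ ∃ n₁ : ℕ,
    ∀ (P : Gm → Nm98) (kw : ℝ), (∀ G, U < (P G).LA) → LnP34 μ s P n₁ →
      ∃ n₂ : ℕ, ∀ (Γ : Cx) (G : Gm) (u : ℕ) (κ : ℤ × ℤ), Wd86 μ s c kw P n₂ Γ G u κ → (law μ).real (Lk98 μ s Γ G (P G) u κ) ≤ ε := by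
  obtain ⟨U, hU, n₁, H⟩ := lkP34 (μ := μ) (s := s) h hε
  refine ⟨U, hU, n₁, fun P kw hL hn => ?_⟩
  obtain ⟨T₁, hT₁⟩ := hn
  exact ⟨T₁, fun Γ G u κ hW => H Γ G (P G) u κ (hT₁ G u hW.T_ge).2.1 (hL G)⟩

end

end Pool.Agent.W_7d29a1_C1.KwK34
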