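import Pool.Agent.W_7d29a1_C1.NmC15
import Pool.Agent.W_7d29a1_C1.KwK34

/-!
MP_7d29a1_pr, [C1] attractor route, SEP (helper34): THE LANE BLOCK AND THE GATE AS FACTORS AT helper15's NUMBER RECORD `nm15`.
`eq_nm34`, `lnP_nm34` (lane length from `lane15`), `kw34`, `hP34` (the premise of `facLo86`), `facGt34`; **`facT34_nm`**, `facL34_nm`.
-/

set_option autoImplicit false
set_option linter.unusedSectionVars false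
set_option linter.unusedVariables false

namespace Pool.Agent.W_7d29a1_C1.KwK34

open MeasureTheory ProbabilityTheory Finset
open Pool.Agent.W_7d29a1_F hiding Bw G
open Pool.Agent.W_7d29a1_h4g Pool.Agent.W_7d29a1_H Pool.Agent.W_7d29a1_HS
open Pool.Agent.W_7d29a1_C1
open Pool.Agent.W_7d29a1_C1.H60
open Pool.Agent.W_7d29a1_C1.G37 (Gm)
open Pool.Agent.W_7d29a1_C1.BP58
open Pool.Agent.W_7d29a1_C1.Luc30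
open Pool.Agent.W_7d29a1_C1.H75
open Pool.Agent.W_7d29a1_C1.PW58
open Pool.Agent.W_7d29a1_C1.D98
open Pool.Agent.W_7d29a1_C1.Nm15
open Pool.Agent.W_7d29a1_C1.PL86 (Wd86 Fac86)

noncomputable section

variable {μ : Measure ℝ} {s c C : ℝ} {n₀ : ℕ} {g : Gc15} {l : Lc15}

/-- The letters of the lanes. -/
theorem eq_nm34 (G : Gm) : Eq34 (nm15 μ s c g l G) l.Kb l.Kl l.cM l.qM l.UM l.δ l.U0 l.LB l.KpB l.UB l.LA l.KpA l.UA l.ρB l.YB l.ρA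
    l.YA l.N :=
  ⟨rfl, rfl, rfl, rfl, rfl, rfl, rfl, rfl, rfl, rfl, rfl, rfl, rfl, rfl, rfl, rfl, rfl, rfl⟩

/-- What `lane15` says of the lane length. -/
def Ln34 (μ : Measure ℝ) (s : ℝ) (l : Lc15) (n₁ : ℕ) : Prop := ∃ T₁ : ℕ, ∀ T : ℕ, T₁ ≤ T → n₁ ≤ nr15 l T ∧ 1 ≤ nr15 l T ∧
  Sc58 μ s l.jl (l.N * nr15 l T) T

/-- **THE LANE LENGTH OF THE RECORD.** -/
theorem lnP_nm34 (hN : 1 ≤ l.N) {n₁ : ℕ} (h : Ln34 μ s l n₁) : LnP34 μ s (nm15 μ s c g l) n₁ := by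
  obtain ⟨T₁, h⟩ := h
  refine ⟨T₁, fun G u hT => ?_⟩
  obtain ⟨h1, h2, h3⟩ := h (G.T u) hT
  exact ⟨h1, h1.trans (Nat.le_mul_of_pos_left _ hN), h3.w1, h3.wnT⟩

/-- **THE WALL SITES AND THE LANES ARE IN THE STRIP OF THE WINDOW.** -/
theorem kw34 {n₁ : ℕ} (H : g.Ok μ s c n₁) {G : Gm} {u : ℕ} (hT : n₁ ≤ G.T u) (hw : G.w u = wd μ s (G.T u)) {κ' : ℝ}
    (hR : g.R + κ' ≤ G.kw) :
    ((nm15 μ s c g l G).K2 u : ℝ) * wd μ s ((nm15 μ s c g l G).n u) ≤ G.kw * G.w u - κ' * G.w u := by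
  rw [hw]
  exact wdK34 (nm15_num H hT) hR

theorem kwB34 {n₁ : ℕ} {G : Gm} {u : ℕ} (hS : Sc58 μ s l.jl (l.N * nr15 l (G.T u)) (G.T u)) (hw : G.w u = wd μ s (G.T u))
    (hK : 0 ≤ l.Kb) (hk : l.Kb + 1 ≤ G.kw) :
    (nm15 μ s c g l G).Kb * wd μ s ((nm15 μ s c g l G).T u) + 1 ≤ G.kw * G.w u := by
  rw [hw]
  exact wdL34 hS.wnT hS.w1 hK hk

/-- **THE PREMISE OF `facLo86`**, share `1 / (2 j)`. -/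
theorem hP34 {n₁ : ℕ} (H : g.Ok μ s c n₁) (hj : 8 ≤ g.j) {kw κ' : ℝ} (hR : g.R + κ' ≤ kw) :
    0 < (1 : ℝ) / (2 * g.j) ∧ (1 : ℝ) / (2 * g.j) ≤ 1 / 16 ∧
    ∃ n₂ : ℕ, ∀ (Γ : Cx) (G : Gm) (u : ℕ) (κ : ℤ × ℤ), Wd86 μ s c kw (nm15 μ s c g l) n₂ Γ G u κ →
      1 ≤ (nm15 μ s c g l G).n u ∧ (1 : ℝ) / (2 * g.j) * G.T u ≤ (nm15 μ s c g l G).n u ∧
        ((nm15 μ s c g l G).K2 u : ℝ) * wd μ s ((nm15 μ s c g l G).n u) ≤ G.kw * G.w u - κ' * G.w u := by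
  have h8 : (8 : ℝ) ≤ g.j := by exact_mod_cast hj
  refine ⟨by positivity, one_div_le_one_div_of_le (by norm_num) (by linarith), n₁, fun Γ G u κ hW => ?_⟩
  exact ⟨nm15_n1 u, (thK34 (nm15_num (l := l) H hW.T_ge) hj).2.2, kw34 H hW.T_ge hW.w_eq (by rw [hW.kw_eq]; exact hR)⟩

/-- **THE GATE BLOCK AS A FACTOR.** -/
theorem facGt34 {n₁ : ℕ} (H : g.Ok μ s c n₁) {kw e : ℝ} (he : g.ε ≤ e) :
    Fac86 μ s c kw (nm15 μ s c g l) (fun Γ G u κ => Gt98 μ s c Γ G (nm15 μ s c g l G) u κ) e :=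
  ⟨n₁, fun Γ G u κ hW => (gt15_prob H hW.T_ge Γ κ).trans he⟩

/-- **THE LANE BLOCK AS A FACTOR**, at `nm15`. -/
theorem facT34_nm [IsProbabilityMeasure μ] (h : In μ s c C n₀) {ε Kl : ℝ} (hε : 0 < ε) (hKl : 0 ≤ Kl) :
    ∃ dM cM qM UM : ℝ, 0 < dM ∧ 0 < cM ∧ 0 ≤ qM ∧ 0 < UM ∧ ∀ δ Kb : ℝ, 0 < δ → 1 + δ / 32 ≤ Kb →
    ∃ U0 : ℝ, 0 < U0 ∧ ∀ LB KpB : ℝ, 0 ≤ KpB → ∃ pB : ℝ, 0 < pB ∧ ∃ UB : ℝ, 0 < UB ∧ ∀ LA KpA : ℝ, 0 ≤ KpA →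
      ∃ pA : ℝ, 0 < pA ∧ ∃ UA : ℝ, 0 < UA ∧ ∀ ρB YB ρA YA Z : ℝ, 0 < ρB → ρB ≤ Kb → 0 < ρA → ρA ≤ Kb →
      ∃ N₀ : ℕ, 1 ≤ N₀ ∧ ∀ N : ℕ, N₀ ≤ N → ∃ p : ℝ, 0 < p ∧ ∃ n₁ : ℕ, 1 ≤ n₁ ∧
        (∀ n : ℕ, n₁ ≤ n → 1 ≤ wd μ s (N * n) ∧ Z * EE μ s (N * n) ≤ hc μ s c n * (ρA * wd μ s (N * n)) / 4 ∧
          Z * EE μ s (N * n) ≤ hc μ s c n * (ρB * wd μ s (N * n)) / 4) ∧
        ∀ (g : Gc15) (l : Lc15) (kw : ℝ), l.Kb = Kb → l.Kl = Kl → l.cM = cM → l.qM = qM → l.UM = UM → l.δ = δ → l.U0 = U0 → l.LB = LB →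
          l.KpB = KpB → l.UB = UB → l.LA = LA → l.KpA = KpA → l.UA = UA → l.ρB = ρB → l.YB = YB → l.ρA = ρA → l.YA = YA → l.N = N →
          0 ≤ l.rM → l.rM ≤ dM → Kb + 1 ≤ kw → Ln34 μ s l n₁ →
          Fac86 μ s c kw (nm15 μ s c g l) (fun Γ G u κ => {ω | p ≤ cP μ (B98 Γ G (nm15 μ s c g l G) u κ)
            (LE98 μ s c Γ G (nm15 μ s c g l G) u κ) ω}) ε := by
  obtain ⟨dM, cM, qM, UM, hdM, hcM, hqM, hUM, H⟩ := facT34 h hε hKl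
  refine ⟨dM, cM, qM, UM, hdM, hcM, hqM, hUM, fun δ Kb hδ hKb => ?_⟩
  obtain ⟨U0, hU0, H⟩ := H δ Kb hδ hKb
  refine ⟨U0, hU0, fun LB KpB hKpB => ?_⟩
  obtain ⟨pB, hpB, UB, hUB, H⟩ := H LB KpB hKpB
  refine ⟨pB, hpB, UB, hUB, fun LA KpA hKpA => ?_⟩
  obtain ⟨pA, hpA, UA, hUA, H⟩ := H LA KpA hKpA
  refine ⟨pA, hpA, UA, hUA, fun ρB YB ρA YA Z hρB hρB' hρA hρA' => ?_⟩
  obtain ⟨N₀, hN₀, H⟩ := H ρB YB ρA YA Z hρB hρB' hρA hρA'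
  refine ⟨N₀, hN₀, fun N hN => ?_⟩
  obtain ⟨p, hp, n₁, hn₁, HZ, H⟩ := H N hN
  refine ⟨p, hp, n₁, hn₁, HZ, fun g l kw e1 e2 e3 e4 e5 e6 e7 e8 e9 e10 e11 e12 e13 e14 e15 e16 e17 e18 h0 h1 hkw hL => ?_⟩
  refine H (nm15 μ s c g l) kw (fun G => ?_) (fun G => ⟨h0, h1⟩) hkw (lnP_nm34 (by rw [e18]; exact hN₀.trans hN) hL)
  subst e1 e2 e3 e4 e5 e6 e7 e8 e9 e10 e11 e12 e13 e14 e15 e16 e17 e18
  exact eq_nm34 G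

/-- **THE LUCK OF THE CONTENT IS RARE**, at `nm15`. -/
theorem facL34_nm [IsProbabilityMeasure μ] (h : In μ s c C n₀) {ε : ℝ} (hε : 0 < ε) : ∃ U : ℝ, 0 < U ∧ ∃ n₁ : ℕ,
    ∀ (g : Gc15) (l : Lc15) (kw : ℝ), U < l.LA → 1 ≤ l.N → Ln34 μ s l n₁ →
      ∃ n₂ : ℕ, ∀ (Γ : Cx) (G : Gm) (u : ℕ) (κ : ℤ × ℤ), Wd86 μ s c kw (nm15 μ s c g l) n₂ Γ G u κ →
        (law μ).real (Lk98 μ s Γ G (nm15 μ s c g l G) u κ) ≤ ε := by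
  obtain ⟨U, hU, n₁, H⟩ := facL34 (μ := μ) (s := s) h hε
  exact ⟨U, hU, n₁, fun g l kw hL hN hn => H (nm15 μ s c g l) kw (fun _ => hL) (lnP_nm34 hN hn)⟩

end

end Pool.Agent.W_7d29a1_C1.KwK34
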