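import Pool.Agent.W_7d29a1_C1.LnS69
import Pool.Agent.W_7d29a1_C1.KwN34

/-!
MP_7d29a1_pr, [C1] attractor route, SEP (helper34): THE LANE BLOCK AS A FACTOR FROM helper69's SPECIFICATION `PGL` OF `pL`.
**`facTy34`** (any record), **`facTy34_nm`** (at `nm15`, the letters of the record `Lc15`): the fields `ty`, `pL`, `p0` of `Lf86` at `p := 2 pL`.
-/

set_option autoImplicit false
set_option linter.unusedSectionVars false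
set_option linter.unusedVariables false

namespace Pool.Agent.W_7d29a1_C1.KwK34

open MeasureTheory ProbabilityTheory Finset
open Pool.Agent.W_7d29a1_F hiding Bw G
open Pool.Agent.W_7d29a1_h4g Pool.Agent.W_7d29a1_H Pool.Agent.W_7d29a1_HS
open Pool.Agent.W_7d29a1_C1
open Pool.Agent.W_7d29a1_C1.H60
open Pool.Agent.W_7d29a1_C1.G37 (Gm)
open Pool.Agent.W_7d29a1_C1.BP58
open Pool.Agent.W_7d29a1_C1.H75
open Pool.Agent.W_7d29a1_C1.D98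
open Pool.Agent.W_7d29a1_C1.Nm15
open Pool.Agent.W_7d29a1_C1.Ln69 (PGL PG6)
open Pool.Agent.W_7d29a1_C1.PL86 (Wd86 Fac86)

noncomputable section

variable {μ : Measure ℝ} {s c e Kb Kl dM cM qM UM δ U0 LB Kp UB LA UA YB YA Z pL : ℝ} {N : ℕ}

/-- **THE LANE BLOCK AS A FACTOR**, from `PGL`. -/
theorem facTy34 (H : PGL μ s c e Kb Kl dM cM qM UM δ U0 LB Kp UB LA UA YB YA Z N pL) : ∃ n₁ : ℕ, ∀ (P : Gm → Nm98) (kw : ℝ),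
    (∀ G, Eq34 (P G) Kb Kl cM qM UM δ U0 LB Kp UB LA Kp UA (δ / 32) YB (δ / 32) YA N) → (∀ G, 0 ≤ (P G).rM ∧ (P G).rM ≤ dM) → 0 ≤ Kb →
      Kb + 1 ≤ kw → LnP34 μ s P n₁ →
      Fac86 μ s c kw P (fun Γ G u κ => {ω | 2 * pL ≤ cP μ (B98 Γ G (P G) u κ) (LE98 μ s c Γ G (P G) u κ) ω}) e := by
  obtain ⟨-, n₁, H⟩ := H
  refine ⟨n₁, fun P kw hE hr hK hkw hL => ?_⟩
  obtain ⟨T₁, hT₁⟩ := hL
  refine ⟨T₁, fun Γ G u κ hW => ?_⟩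
  obtain ⟨l1, -, l3, l4⟩ := hT₁ G u hW.T_ge
  refine H.h1 (P G) (hE G) (hr G).1 (hr G).2 Γ G u κ l1 hW.v_eq hW.rc hW.fit ?_ _ fun q hq h1 h2 => rows_B98_34 hq h1 h2
  rw [(hE G).Kb, hW.w_eq, hW.kw_eq]
  exact wdL34 l4 l3 hK hkw

variable {g : Gc15} {l : Lc15}

/-- **THE LANE BLOCK AS A FACTOR**, from `PGL`, at `nm15`. -/
theorem facTy34_nm (H : PGL μ s c e l.Kb l.Kl dM l.cM l.qM l.UM l.δ l.U0 l.LB l.KpB l.UB l.LA l.UA l.YB l.YA Z l.N l.pL)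
    (hA : l.KpA = l.KpB) (hρA : l.ρA = l.δ / 32) (hρB : l.ρB = l.δ / 32) (h0 : 0 ≤ l.rM) (h1 : l.rM ≤ dM) (hb : 0 ≤ l.Kb) {kw : ℝ}
    (hk : l.Kb + 1 ≤ kw) (hN : 1 ≤ l.N) (hL : ∀ n₁ : ℕ, Ln34 μ s l n₁) :
    0 < 2 * l.pL ∧ (∀ G : Gm, (nm15 μ s c g l G).pL = 2 * l.pL / 2) ∧
      Fac86 μ s c kw (nm15 μ s c g l) (fun Γ G u κ => {ω | 2 * l.pL ≤ cP μ (B98 Γ G (nm15 μ s c g l G) u κ)
        (LE98 μ s c Γ G (nm15 μ s c g l G) u κ) ω}) e := by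
  obtain ⟨n₁, K⟩ := facTy34 H
  refine ⟨by linarith [H.1], fun G => ?_, K (nm15 μ s c g l) kw (fun G => ?_) (fun G => ⟨h0, h1⟩) hb hk (lnP_nm34 hN (hL n₁))⟩
  · show l.pL = 2 * l.pL / 2
    ring
  · have h := eq_nm34 (μ := μ) (s := s) (c := c) (g := g) (l := l) G
    rw [hA, hρA, hρB] at h
    exact h

/-- **`lane15` FOR THE RECORD**: one lane share `jl` for every record. -/
theorem ln34_of [IsProbabilityMeasure μ] {C : ℝ} {n₀ : ℕ} (h : In μ s c C n₀) (j₀ : ℕ) : ∃ jl : ℕ, j₀ ≤ jl ∧ 1 ≤ jl ∧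
    ∀ l : Lc15, l.jl = jl → 1 ≤ l.N → ∀ n₁ : ℕ, Ln34 μ s l n₁ := by
  obtain ⟨jl, h1, h2, H⟩ := lane15 h j₀
  refine ⟨jl, h1, h2, fun l hl hN n₁ => ?_⟩
  obtain ⟨T₁, H⟩ := H l.N hN n₁
  refine ⟨T₁, fun T hT => ?_⟩
  subst hl
  exact H l rfl rfl T hT

end

end Pool.Agent.W_7d29a1_C1.KwK34
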