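import Pool.Agent.W_7d29a1_C1.AsmP68
import Pool.Agent.W_7d29a1_C1.LocS56

/-!
[C1] ASSEMBLY (helper56): `KwP68` of helper68 from the strong form of LOC (`loc56s`).
-/

set_option autoImplicit false

namespace Pool.Agent.W_7d29a1_C1.H56

open MeasureTheory Filter Topology Finset
open Pool.Agent.W_7d29a1_F Pool.Agent.W_7d29a1_H Pool.Agent.W_7d29a1_HS
open Pool.Agent.W_7d29a1_C1.K91P
open Pool.Agent.W_7d29a1_C1.H60 (KwP68)

variable {μ : Measure ℝ} [IsProbabilityMeasure μ]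

/-- **The wild part** of the total contact functional. -/
theorem kwP56 {s c₀ C₀ : ℝ} {n₀ : ℕ} (h : In μ s c₀ C₀ n₀) (hN : Nbr56 μ s) : KwP68 μ s := by
  intro ε hε
  refine ⟨1, one_pos, fun c hc hc1 δ hδ hδc => ?_⟩
  obtain ⟨κ₀, hκ₀, hL⟩ := loc56s h hN hε hc
  refine ⟨κ₀, hκ₀, fun κ _ hκ' => ?_⟩
  filter_upwards [hL κ hκ' δ hδ.le (by linarith) 16] with n hn Γ hΓ
  obtain ⟨R, _, _, _, _, hR1, hR2, hR3⟩ := hn Γ hΓ
  exact ⟨R, fun b hb η => (hR3 b hb η).2.2.1, hR1, hR2⟩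

end Pool.Agent.W_7d29a1_C1.H56
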