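import Pool.Agent.W_7d29a1_C1.DDI84

/-!
[C1] attractor route (helper84), LOCAL REGULARITY AT FAR PLACES (LR), part 1, abstract: the lower bound of the composed kernel at a STEEP
displacement: through the slabs `u .. u + m` along the line of the start, a steep step between two grid points in the slab `u + m + 1`, the
end in the slab `u + m + 2`.
-/

set_option autoImplicit false

namespace Pool.Agent.W_7d29a1_C1.DD84

open Finset Pool.Agent.W_7d29a1_C1.FarK89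

section Env

variable {P : ℕ} {c c₂ Et wt : ℝ} {q E w e s : ℕ → ℝ} {ℓ : ℕ → ℤ → ℝ} {k : ℕ → ℤ → ℤ → ℝ} {B : ℕ → Finset ℤ}

/-- One route of the composed kernel. -/
theorem cmp_ge (hk : ∀ u x y, 0 ≤ k u x y) (n m : ℕ) : ∀ (u : ℕ) (x p z : ℤ), p ∈ B (u + (m + 1)) →
    cmp k B (m + 1) u x p * cmp k B n (u + (m + 1)) p z ≤ cmp k B (m + 1 + n) u x z := by
  induction m with
  | zero =>
    intro u x p z hp
    rw [show 0 + 1 = 1 from rfl] at hp ⊢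
    rw [cmp_one u x hp, show 1 + n = n + 1 by omega]
    show _ ≤ ∑ y ∈ B (u + 1), k u x y * cmp k B n (u + 1) y z
    exact single_le_sum (f := fun y => k u x y * cmp k B n (u + 1) y z)
      (fun y _ => mul_nonneg (hk _ _ _) (cmp_nonneg hk B _ _ _ _)) hp
  | succ m ih =>
    intro u x p z hp
    rw [show m + 1 + 1 + n = (m + 1 + n) + 1 by omega]
    show (∑ y ∈ B (u + 1), k u x y * cmp k B (m + 1) (u + 1) y p) * _ ≤ ∑ y ∈ B (u + 1), k u x y * cmp k B (m + 1 + n) (u + 1) y z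
    rw [sum_mul]
    refine sum_le_sum fun y _ => ?_
    rw [mul_assoc]
    refine mul_le_mul_of_nonneg_left ?_ (hk _ _ _)
    have h1 := ih (u + 1) y p z (by rwa [show u + 1 + (m + 1) = u + (m + 1 + 1) by omega])
    rwa [show u + 1 + (m + 1) = u + (m + 1 + 1) by omega] at h1

/-- **The steep lower bound.** -/
theorem low_steep {u m : ℕ} (h : Env' P c c₂ Et wt q E w e s ℓ k B u (u + (m + 3))) {κ Q g st : ℝ}
    (hQ : ∑ v ∈ Ico u (u + (m + 3)), e v ≤ Q) (hκ : 1 ≤ κ) (hw1 : ∀ v, u ≤ v → v < u + (m + 3) → 2 ≤ w v)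
    (hlow : ∀ v, u ≤ v → v < u + (m + 3) → ∀ x, ∀ y ∈ B (v + 1), |ℓ (v + 1) y - ℓ v x| ≤ κ * w v →
      Real.exp (-(q v * gr P (|ℓ v x| / w v) * E v)) ≤ k v x y)
    {x p₁ p₂ z : ℤ} (hB : ∀ v, u < v → v < u + (m + 1) → ∃ y ∈ B v, |ℓ v y - ℓ u x| ≤ 1)
    (hp₁ : p₁ ∈ B (u + (m + 1))) (hp₂ : p₂ ∈ B (u + (m + 2))) (hz : z ∈ B (u + (m + 3)))
    (h1 : |ℓ (u + (m + 1)) p₁ - ℓ u x| ≤ κ * w (u + m) - 1) (hst : Real.exp (-st) ≤ k (u + (m + 1)) p₁ p₂)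
    (h2 : |ℓ (u + (m + 3)) z - ℓ (u + (m + 2)) p₂| ≤ κ * w (u + (m + 2)))
    (hg1 : gr P (|ℓ u x| / wt + κ) ≤ g) (hg2 : gr P (|ℓ (u + (m + 2)) p₂| / wt) ≤ g) :
    Real.exp (-(Q * g * Et + st)) ≤ cmp k B (m + 3) u x z := by
  have hwt := h.wt0
  have hEt := h.Et0
  have hg0 : 0 ≤ g := (gr_nonneg P (by positivity)).trans hg1
  -- the first slabs
  have h' : Env' P c c₂ Et wt q E w e s ℓ k B u (u + (m + 1)) :=
    ⟨h.c0, h.q0, h.Et0, h.wt0, fun v a b => h.w0 v a (by omega), h.e0, h.s0, fun v a b => h.E0 v a (by omega),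
      fun v a b => h.wle v a (by omega), fun v a b => h.slope v a (by omega), fun v a b => h.en v a (by omega), h.k0,
      fun v a b => h.up v a (by omega), fun v a b => h.sum v a (by omega)⟩
  have e1 := cmp_low h' hκ (fun v a b => hw1 v a (by omega)) (fun v a b => hlow v a (by omega)) (ℓ u x) hB m u le_rfl
    (by omega) x (by simp) p₁ (by rw [show u + m + 1 = u + (m + 1) by omega]; exact hp₁)
    (by rw [show u + m + 1 = u + (m + 1) by omega]; exact h1)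
  rw [show u + m + 1 = u + (m + 1) by omega] at e1
  -- the last slab
  have e3 := hlow (u + (m + 2)) (by omega) (by omega) p₂ z (by rwa [show u + (m + 2) + 1 = u + (m + 3) by omega])
    (by rwa [show u + (m + 2) + 1 = u + (m + 3) by omega])
  have e4 := h.lev (u := u + (m + 2)) (by omega) (by omega) (abs_nonneg (ℓ (u + (m + 2)) p₂))
  -- composition
  have c1 := cmp_ge (k := k) (B := B) h.k0 2 m u x p₁ z hp₁
  have c2 : k (u + (m + 1)) p₁ p₂ * k (u + (m + 2)) p₂ z ≤ cmp k B 2 (u + (m + 1)) p₁ z := by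
    have c3 := cmp_ge (k := k) (B := B) h.k0 1 0 (u + (m + 1)) p₁ p₂ z (by rwa [show u + (m + 1) + (0 + 1) = u + (m + 2) by omega])
    rw [show 0 + 1 = 1 from rfl, cmp_one (B := B) (u + (m + 1)) p₁ (by rwa [show u + (m + 1) + 1 = u + (m + 2) by omega]),
      show u + (m + 1) + 1 = u + (m + 2) by omega,
      cmp_one (B := B) (u + (m + 2)) p₂ (by rwa [show u + (m + 2) + 1 = u + (m + 3) by omega])] at c3
    exact c3
  rw [show m + 1 + 2 = m + 3 by omega] at c1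
  refine le_trans ?_ c1
  have hsum : (∑ v ∈ Ico u (u + (m + 1)), e v) + e (u + (m + 2)) ≤ Q := by
    have s1 : ∑ v ∈ Ico u (u + (m + 3)), e v = (∑ v ∈ Ico u (u + (m + 1)), e v) + e (u + (m + 1)) + e (u + (m + 2)) := by
      rw [show u + (m + 3) = u + (m + 1) + 1 + 1 by omega, sum_Ico_succ_top (by omega), sum_Ico_succ_top (by omega),
        show u + (m + 1) + 1 = u + (m + 2) by omega]
    have s2 := h.e0 (u + (m + 1))
    linarith
  obtain ⟨S₁, hS₁⟩ : ∃ S₁ : ℝ, S₁ = ∑ v ∈ Ico u (u + (m + 1)), e v := ⟨_, rfl⟩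
  rw [← hS₁] at hsum e1
  have hS₁0 : 0 ≤ S₁ := by rw [hS₁]; exact sum_nonneg fun v _ => h.e0 v
  have f1 : Real.exp (-(S₁ * g * Et)) ≤ cmp k B (m + 1) u x p₁ := by
    refine le_trans (Real.exp_le_exp.2 ?_) e1
    have := mul_le_mul_of_nonneg_right (mul_le_mul_of_nonneg_left hg1 hS₁0) hEt.le
    linarith
  have f3 : Real.exp (-(e (u + (m + 2)) * g * Et)) ≤ k (u + (m + 2)) p₂ z := by
    refine le_trans (Real.exp_le_exp.2 ?_) e3
    have := mul_le_mul_of_nonneg_right (mul_le_mul_of_nonneg_left hg2 (h.e0 (u + (m + 2)))) hEt.le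
    linarith
  have f2 : Real.exp (-(e (u + (m + 2)) * g * Et + st)) ≤ cmp k B 2 (u + (m + 1)) p₁ z := by
    refine le_trans ?_ c2
    have := mul_le_mul hst f3 (Real.exp_pos _).le (h.k0 _ _ _)
    rw [← Real.exp_add] at this
    refine le_trans (Real.exp_le_exp.2 ?_) this
    linarith
  have f4 := mul_le_mul f1 f2 (Real.exp_pos _).le (cmp_nonneg h.k0 B _ _ _ _)
  rw [← Real.exp_add] at f4
  refine le_trans (Real.exp_le_exp.2 ?_) f4
  have f5 := mul_le_mul_of_nonneg_right (mul_le_mul_of_nonneg_right hsum hg0) hEt.le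
  have e5 : (S₁ + e (u + (m + 2))) * g * Et = S₁ * g * Et + e (u + (m + 2)) * g * Et := by ring
  rw [e5] at f5
  linarith

/-- **Two places of the same row**: `x` has arms in `Z`, `x'` reaches `Z` by steep steps. The identity of the masses is not needed: only
`F x` through the arms, and the part of `F x'` which passes `Z`. -/
theorem lr_env {u m : ℕ} (h : Env' P c c₂ Et wt q E w e s ℓ k B u (u + (m + 3))) {κ c₁ c₃ Q S Pa g st : ℝ} (hc₁ : 0 < c₁) (hc₃ : 0 ≤ c₃)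
    (hcc : c₁ + c₂ + c₃ ≤ c) (hQ : ∑ v ∈ Ico u (u + (m + 3)), e v ≤ Q) (hS : ∑ v ∈ Ico u (u + (m + 3)), s v ≤ S) (hκ : 1 ≤ κ)
    (hw1 : ∀ v, u ≤ v → v < u + (m + 3) → 2 ≤ w v)
    (hlow : ∀ v, u ≤ v → v < u + (m + 3) → ∀ x, ∀ y ∈ B (v + 1), |ℓ (v + 1) y - ℓ v x| ≤ κ * w v →
      Real.exp (-(q v * gr P (|ℓ v x| / w v) * E v)) ≤ k v x y)
    {F G : ℤ → ℝ} (hG : ∀ z, 0 ≤ G z) {Z : Finset ℤ} (hPa : 0 ≤ Pa) {x x' : ℤ}
    (harm : F x ≤ Pa * ∑ z ∈ Z, cmp k B (m + 3) u x z * G z) (hF' : ∑ z ∈ Z, cmp k B (m + 3) u x' z * G z ≤ F x')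
    (hB : ∀ v, u < v → v < u + (m + 1) → ∃ y ∈ B v, |ℓ v y - ℓ u x'| ≤ 1)
    (hg1 : gr P (|ℓ u x'| / wt + κ) ≤ g)
    (hZ : ∀ z ∈ Z, z ∈ B (u + (m + 3)) ∧ ∃ p₁ ∈ B (u + (m + 1)), ∃ p₂ ∈ B (u + (m + 2)),
      |ℓ (u + (m + 1)) p₁ - ℓ u x'| ≤ κ * w (u + m) - 1 ∧ Real.exp (-st) ≤ k (u + (m + 1)) p₁ p₂ ∧
      |ℓ (u + (m + 3)) z - ℓ (u + (m + 2)) p₂| ≤ κ * w (u + (m + 2)) ∧ gr P (|ℓ (u + (m + 2)) p₂| / wt) ≤ g) :
    F x ≤ Pa * Real.exp ((LQ P c₁ Q * gr P (|ℓ u x| / wt) + S + Q * g) * Et + st) * F x' := by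
  have hwt := h.wt0
  have hEt := h.Et0
  obtain ⟨a, ha⟩ : ∃ a : ℝ, a = (LQ P c₁ Q * gr P (|ℓ u x| / wt) + S) * Et := ⟨_, rfl⟩
  obtain ⟨a', ha'⟩ : ∃ a' : ℝ, a' = Q * g * Et + st := ⟨_, rfl⟩
  have hup : ∀ z ∈ Z, cmp k B (m + 3) u x z ≤ Real.exp a := by
    intro z _
    refine (cmp_up' h hc₁ hc₃ hcc hQ hS le_rfl (m := m + 3) le_rfl x z).trans (Real.exp_le_exp.2 ?_)
    have : 0 ≤ c₃ * (Et / wt) * |ℓ (u + (m + 3)) z - ℓ u x| := by positivity
    rw [ha]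
    linarith
  have hlo : ∀ z ∈ Z, Real.exp (-a') ≤ cmp k B (m + 3) u x' z := by
    intro z hz
    obtain ⟨z1, p₁, q1, p₂, q2, q3, q4, q5, q6⟩ := hZ z hz
    rw [ha']
    exact low_steep h hQ hκ hw1 hlow hB q1 q2 z1 q3 q4 q5 hg1 q6
  have h1 : ∑ z ∈ Z, cmp k B (m + 3) u x z * G z ≤ Real.exp a * ∑ z ∈ Z, G z := by
    rw [mul_sum]
    exact sum_le_sum fun z hz => mul_le_mul_of_nonneg_right (hup z hz) (hG z)
  have h2 : Real.exp (-a') * ∑ z ∈ Z, G z ≤ F x' := by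
    refine le_trans ?_ hF'
    rw [mul_sum]
    exact sum_le_sum fun z hz => mul_le_mul_of_nonneg_right (hlo z hz) (hG z)
  have h3 : ∑ z ∈ Z, G z ≤ Real.exp a' * F x' := by
    have h4 := mul_le_mul_of_nonneg_left h2 (Real.exp_pos a').le
    rw [← mul_assoc, ← Real.exp_add, add_neg_cancel, Real.exp_zero, one_mul] at h4
    exact h4
  have e1 : (LQ P c₁ Q * gr P (|ℓ u x| / wt) + S + Q * g) * Et + st = a + a' := by
    rw [ha, ha']
    ring
  rw [e1]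
  calc F x ≤ Pa * ∑ z ∈ Z, cmp k B (m + 3) u x z * G z := harm
    _ ≤ Pa * (Real.exp a * ∑ z ∈ Z, G z) := mul_le_mul_of_nonneg_left h1 hPa
    _ ≤ Pa * (Real.exp a * (Real.exp a' * F x')) :=
      mul_le_mul_of_nonneg_left (mul_le_mul_of_nonneg_left h3 (Real.exp_pos a).le) hPa
    _ = Pa * Real.exp (a + a') * F x' := by rw [Real.exp_add]; ring

end Env

end Pool.Agent.W_7d29a1_C1.DD84
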