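import Pool.Agent.W_7d29a1_C1.LRB84

/-!
[C1] attractor route (helper84), **LOCAL REGULARITY AT FAR PLACES (LR)**, part 3: any slope `σ`, constant `A Φ ^ (p n)` at the distance
`K₁ wd (T (u + n))` from the centre (= a small power of the distance, as `Φ`, `p` do not depend on the ratio `K` of the scales).
-/

set_option autoImplicit false

namespace Pool.Agent.W_7d29a1_C1.DD84

open MeasureTheory ProbabilityTheory Filter Topology
open Pool.Agent.W_7d29a1_F Pool.Agent.W_7d29a1_h4g Pool.Agent.W_7d29a1_H Pool.Agent.W_7d29a1_HS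
open Pool.Agent.W_7d29a1_C1.FarK89

noncomputable section

variable {μ : Measure ℝ} [IsProbabilityMeasure μ] {s c C : ℝ} {n₀ : ℕ}

/-- **The unit is small against the width**, with the dependence of the constant on `κ`. -/
theorem unit_small_exp (h : In μ s c C n₀) : ∃ (Cu : ℝ) (p n₁ : ℕ), 1 ≤ Cu ∧ 1 ≤ n₁ ∧ ∀ κ : ℝ, 0 < κ → κ ≤ 1 → ∀ m n : ℕ, n₁ ≤ m → m ≤ n →
    EE μ s n ≤ (κ * (wd μ s n / wd μ s m) + Cu * (1 / κ) ^ p) * EE μ s m := by
  obtain ⟨K, a, n₁, hK, ha, hn1, hg⟩ := wd_gain h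
  obtain ⟨p, hp⟩ := exists_nat_ge (1 / a)
  obtain ⟨K', hK'⟩ : ∃ K', K' = max K 1 := ⟨_, rfl⟩
  have hK1 : 1 ≤ K' := by rw [hK']; exact le_max_right _ _
  have hKK : K ≤ K' := by rw [hK']; exact le_max_left _ _
  refine ⟨2 * K' ^ p, p, n₁, ?_, hn1, fun κ hκ hκ1 m n g1 hmn => ?_⟩
  · have : 1 ≤ K' ^ p := one_le_pow₀ hK1
    linarith
  have hκi : 1 ≤ 1 / κ := by rwa [one_le_div hκ]
  obtain ⟨R, hR⟩ : ∃ R : ℝ, R = (K' / κ) ^ p := ⟨_, rfl⟩
  have hKκ : 1 ≤ K' / κ := by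
    rw [one_le_div hκ]
    linarith
  have hR1 : 1 ≤ R := by rw [hR]; exact one_le_pow₀ hKκ
  have hRa : K / κ ≤ R ^ a := by
    have h1 : (K' / κ) ^ (1 / a) ≤ R := by
      rw [hR, ← Real.rpow_natCast]
      exact Real.rpow_le_rpow_of_exponent_le hKκ hp
    have h2 := Real.rpow_le_rpow (by positivity) h1 ha.le
    rw [← Real.rpow_mul (by positivity), one_div, inv_mul_cancel₀ ha.ne', Real.rpow_one] at h2
    exact (div_le_div_of_nonneg_right hKK hκ.le).trans h2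
  have hRe : 2 * K' ^ p * (1 / κ) ^ p = 2 * R := by
    rw [hR, mul_assoc, ← mul_pow, mul_one_div]
  rw [hRe]
  have g3 : 1 ≤ m := hn1.trans g1
  have hm0 : (0 : ℝ) < m := by exact_mod_cast g3
  have hwm := h.wd_pos g3
  have hwn := h.wd_pos (g3.trans hmn)
  have hEm := EE_pos (μ := μ) (s := s) m
  have hEn := EE_pos (μ := μ) (s := s) n
  rcases le_total R ((n : ℝ) / m) with h1 | h1
  · have h2 := hg m n g1 hmn
    have h3 : K / κ ≤ ((n : ℝ) / m) ^ a := hRa.trans (Real.rpow_le_rpow (by linarith) h1 ha.le)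
    have h4 : K / κ * (EE μ s n * wd μ s m) ≤ K * (EE μ s m * wd μ s n) :=
      (mul_le_mul_of_nonneg_right h3 (by positivity)).trans h2
    have h5 : EE μ s n * wd μ s m ≤ κ * (EE μ s m * wd μ s n) := by
      have h6 := mul_le_mul_of_nonneg_left h4 (show 0 ≤ κ / K by positivity)
      have e1 : κ / K * (K / κ * (EE μ s n * wd μ s m)) = EE μ s n * wd μ s m := by field_simp
      have e2 : κ / K * (K * (EE μ s m * wd μ s n)) = κ * (EE μ s m * wd μ s n) := by field_simp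
      rwa [e1, e2] at h6
    have h7 : EE μ s n ≤ κ * (wd μ s n / wd μ s m) * EE μ s m := by
      have e3 : κ * (wd μ s n / wd μ s m) * EE μ s m = κ * (EE μ s m * wd μ s n) / wd μ s m := by ring
      rw [e3, le_div_iff₀ hwm]
      exact h5
    have h8 : 0 ≤ 2 * R * EE μ s m := by positivity
    linarith [show (κ * (wd μ s n / wd μ s m) + 2 * R) * EE μ s m =
      κ * (wd μ s n / wd μ s m) * EE μ s m + 2 * R * EE μ s m by ring]
  · have h2 := scale_b h g3 hmn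
    have h4 : EE μ s n ≤ 2 * R * EE μ s m := by
      have h3 : (n : ℝ) ≤ R * m := by rwa [div_le_iff₀ hm0] at h1
      have h5 : (m : ℝ) * EE μ s n ≤ m * (2 * R * EE μ s m) := by
        refine h2.trans ?_
        have := mul_le_mul_of_nonneg_right h3 hEm.le
        linarith [show (m : ℝ) * (2 * R * EE μ s m) = 2 * (R * m * EE μ s m) by ring]
      exact le_of_mul_le_mul_left h5 hm0
    have h6 : 0 ≤ κ * (wd μ s n / wd μ s m) * EE μ s m := by positivity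
    linarith [show (κ * (wd μ s n / wd μ s m) + 2 * R) * EE μ s m =
      κ * (wd μ s n / wd μ s m) * EE μ s m + 2 * R * EE μ s m by ring]

/-- Growth of the width by the factor `4` for large ratios. -/
theorem wd_four (h : In μ s c C n₀) : ∃ K₀ n₁ : ℕ, 2 ≤ K₀ ∧ 1 ≤ n₁ ∧ ∀ m n : ℕ, n₁ ≤ m → K₀ * m ≤ n → 4 * wd μ s m ≤ wd μ s n := by
  obtain ⟨a, k, ha, hk, n₂, hn2, hr⟩ := wd_ratio h
  obtain ⟨N₁, hN₁⟩ := exists_nat_ge ((4 / k) ^ (1 / a))
  refine ⟨max 2 N₁, n₂, le_max_left _ _, hn2, fun m n hm hmn => ?_⟩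
  have hm1 : 1 ≤ m := hn2.trans hm
  have hm0 : (0 : ℝ) < m := by exact_mod_cast hm1
  have hK0 : 1 ≤ max 2 N₁ := le_trans (by norm_num) (le_max_left _ _)
  have hmn' : m ≤ n := (Nat.le_mul_of_pos_left m hK0).trans hmn
  have hwm := h.wd_pos hm1
  obtain ⟨x, hx⟩ : ∃ x : ℝ, x = (n : ℝ) / m := ⟨_, rfl⟩
  have hxK : ((max 2 N₁ : ℕ) : ℝ) ≤ x := by
    rw [hx, le_div_iff₀ hm0]
    exact_mod_cast hmn
  have hx1' : (N₁ : ℝ) ≤ x := le_trans (by exact_mod_cast (le_max_right _ _)) hxK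
  have e1 := hr m n hm hmn'
  rw [← hx] at e1
  have h1 : 4 / k ≤ x ^ a := by
    have h2 := Real.rpow_le_rpow (by positivity) (hN₁.trans hx1') ha.le
    rw [← Real.rpow_mul (by positivity), one_div a, inv_mul_cancel₀ ha.ne', Real.rpow_one] at h2
    exact h2
  have h3 : 4 ≤ k * x ^ a := by
    have := mul_le_mul_of_nonneg_left h1 hk.le
    rwa [mul_div_cancel₀ _ hk.ne'] at this
  exact (mul_le_mul_of_nonneg_right h3 hwm.le).trans e1

/-- **(LR)** from the comparison of the pairs. `F` = the mass of the row, `x₀` = the centre. -/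
theorem lr_model (h : In μ s c C n₀) : ∃ (g : ℝ) (p K₀ : ℕ), 0 < g ∧ 2 ≤ K₀ ∧ ∀ σ A K₁ Φ : ℝ, 0 < σ → 0 ≤ A → 1 ≤ K₁ → 1 ≤ Φ → ∀ b : ℕ,
    ∃ (A' : ℝ) (n₁ : ℕ), 0 ≤ A' ∧ 1 ≤ n₁ ∧ ∀ (T : ℕ → ℕ) (m : ℕ), n₁ ≤ T 0 → (∀ v, v < m → K₀ * T v ≤ T (v + 1) ∧ T (v + 1) ≤ b * T v) →
    (∀ i, i ≤ m → Φ ^ i ≤ ((T i : ℝ) / T 0) ^ g) → ∀ (F : ℤ → ℝ) (x₀ : ℝ), (∀ x, 0 ≤ F x) →
    (∀ n i, i ≤ n → n ≤ m → ∀ x x' : ℤ, |(x : ℝ) - x₀| ≤ K₁ * wd μ s (T n) → |(x' : ℝ) - x₀| ≤ K₁ * wd μ s (T n) →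
      |(x : ℝ) - x'| ≤ 2 * K₁ * wd μ s (T i) → F x ≤ Real.exp (A * (Φ ^ n * EE μ s (T i))) * F x') →
    ∀ n, n ≤ m → ∀ x x' : ℤ, |(x' : ℝ) - x₀| ≤ K₁ * wd μ s (T n) → |(x : ℝ) - x₀| ≤ K₁ * wd μ s (T m) →
      F x ≤ Real.exp (A' * (Φ ^ (p * n) * EE μ s (T 0)) + σ * (EE μ s (T 0) / wd μ s (T 0)) * |(x : ℝ) - x'|) * F x' := by
  obtain ⟨g, hg, hun⟩ := unit_small_pow h
  obtain ⟨Cu, p, n₂, hCu, hn2, hue⟩ := unit_small_exp h
  obtain ⟨K₀, n₃, hK2, hn3, hK⟩ := wd_four h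
  refine ⟨g, p + 1, K₀, hg, hK2, fun σ A K₁ Φ hσ hA hK₁ hΦ b => ?_⟩
  -- constants
  obtain ⟨A₁, hA₁⟩ : ∃ A₁ : ℝ, A₁ = (A + 1) * Φ * (2 * b + 1) := ⟨_, rfl⟩
  have hΦ0 : 0 < Φ := by linarith
  have hA10 : 0 < A₁ := by rw [hA₁]; positivity
  obtain ⟨κ₁, hκ₁⟩ : ∃ κ₁ : ℝ, κ₁ = min 1 (σ / A₁) := ⟨_, rfl⟩
  have hκ₁0 : 0 < κ₁ := by rw [hκ₁]; exact lt_min one_pos (by positivity)
  have hκ₁1 : κ₁ ≤ 1 := by rw [hκ₁]; exact min_le_left _ _
  have hκ₁σ : A₁ * κ₁ ≤ σ := by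
    have h1 : κ₁ ≤ σ / A₁ := by rw [hκ₁]; exact min_le_right _ _
    rw [le_div_iff₀ hA10] at h1
    linarith
  obtain ⟨Q, n₄, hQ, hn4, hu⟩ := hun (κ₁ / 2) (by positivity)
  refine ⟨A₁ * (Cu * (1 / κ₁) ^ p) + A₁ * Q, max (max n₂ n₃) n₄, by positivity, hn4.trans (le_max_right _ _), ?_⟩
  intro T m hT0 hT hΦT F x₀ hF hpair n hnm x x' hx' hx
  have g2 : n₂ ≤ T 0 := (le_max_left _ _).trans ((le_max_left _ _).trans hT0)
  have g3 : n₃ ≤ T 0 := (le_max_right _ _).trans ((le_max_left _ _).trans hT0)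
  have g4 : n₄ ≤ T 0 := (le_max_right _ _).trans hT0
  have hT01 : 1 ≤ T 0 := hn2.trans g2
  have hmon1 : ∀ v, v < m → T v ≤ T (v + 1) := fun v hv => (Nat.le_mul_of_pos_left _ (by omega)).trans (hT v hv).1
  have hmon : ∀ v, v ≤ m → T 0 ≤ T v := by
    intro v
    induction v with
    | zero => intro _; exact le_rfl
    | succ v ih => intro hv; exact (ih (by omega)).trans (hmon1 v (by omega))
  have hw4 : ∀ v, v < m → 4 * wd μ s (T v) ≤ wd μ s (T (v + 1)) := fun v hv => hK _ _ (g3.trans (hmon v hv.le)) (hT v hv).1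
  have hwpos : ∀ v, v ≤ m → 0 < wd μ s (T v) := fun v hv => h.wd_pos (hT01.trans (hmon v hv))
  have hwmon : ∀ a v, v + a ≤ m → wd μ s (T v) ≤ wd μ s (T (v + a)) := by
    intro a
    induction a with
    | zero => intro v _; exact le_rfl
    | succ a ih =>
      intro v hv
      have h1 := ih v (by omega)
      have h2 := hw4 (v + a) (by omega)
      have h3 := hwpos (v + a) (by omega)
      rw [show v + (a + 1) = v + a + 1 by omega]
      linarith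
  have hE2 : ∀ v, v < m → EE μ s (T (v + 1)) ≤ 2 * b * EE μ s (T v) := by
    intro v hv
    have h3 := scale_b h (hT01.trans (hmon v hv.le)) (hmon1 v hv)
    have hTi : (0 : ℝ) < T v := by exact_mod_cast hT01.trans (hmon v hv.le)
    have h4 : (T (v + 1) : ℝ) ≤ b * T v := by exact_mod_cast (hT v hv).2
    have hEi := EE_pos (μ := μ) (s := s) (T v)
    have h5 : (T v : ℝ) * EE μ s (T (v + 1)) ≤ T v * (2 * b * EE μ s (T v)) := by
      have h6 := mul_le_mul_of_nonneg_right h4 hEi.le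
      linarith
    exact le_of_mul_le_mul_left h5 hTi
  obtain ⟨E₀, hE₀⟩ : ∃ E₀, E₀ = EE μ s (T 0) := ⟨_, rfl⟩
  obtain ⟨w₀, hw₀⟩ : ∃ w₀, w₀ = wd μ s (T 0) := ⟨_, rfl⟩
  have hE0 : 0 < E₀ := by rw [hE₀]; exact EE_pos _
  have hw0 : 0 < w₀ := by rw [hw₀]; exact hwpos 0 (by omega)
  have hTmon : ∀ a v, v + a ≤ m → T v ≤ T (v + a) := by
    intro a
    induction a with
    | zero => intro v _; exact le_rfl
    | succ a ih =>
      intro v hv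
      exact (ih v (by omega)).trans (hmon1 (v + a) (by omega))
  have hwm' : ∀ a b, a ≤ b → b ≤ m → wd μ s (T a) ≤ wd μ s (T b) := by
    intro a b hab hb
    have := hwmon (b - a) a (by omega)
    rwa [show a + (b - a) = b by omega] at this
  -- the scale of `x`
  classical
  have hex : ∃ v, n ≤ v ∧ v ≤ m ∧ |(x : ℝ) - x₀| ≤ K₁ * wd μ s (T v) := ⟨m, hnm, le_rfl, hx⟩
  obtain ⟨n', ⟨hnn, hn'm, hxn⟩, hmin⟩ : ∃ v, (n ≤ v ∧ v ≤ m ∧ |(x : ℝ) - x₀| ≤ K₁ * wd μ s (T v)) ∧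
      ∀ u, u < v → ¬ (n ≤ u ∧ u ≤ m ∧ |(x : ℝ) - x₀| ≤ K₁ * wd μ s (T u)) :=
    ⟨Nat.find hex, Nat.find_spec hex, fun u hu => Nat.find_min hex hu⟩
  have hK₁0 : 0 < K₁ := by linarith
  have hx'n : |(x' : ℝ) - x₀| ≤ K₁ * wd μ s (T n') := hx'.trans (mul_le_mul_of_nonneg_left (hwm' n n' hnn hn'm) hK₁0.le)
  have hxx : |(x : ℝ) - x'| ≤ 2 * K₁ * wd μ s (T n') := by
    have h1 := abs_sub_le (x : ℝ) x₀ x'
    rw [abs_sub_comm x₀ (x' : ℝ)] at h1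
    linarith
  have hex2 : ∃ v, v ≤ n' ∧ |(x : ℝ) - x'| ≤ 2 * K₁ * wd μ s (T v) := ⟨n', le_rfl, hxx⟩
  obtain ⟨i, ⟨hin, hxi⟩, hmin2⟩ : ∃ v, (v ≤ n' ∧ |(x : ℝ) - x'| ≤ 2 * K₁ * wd μ s (T v)) ∧
      ∀ u, u < v → ¬ (u ≤ n' ∧ |(x : ℝ) - x'| ≤ 2 * K₁ * wd μ s (T u)) :=
    ⟨Nat.find hex2, Nat.find_spec hex2, fun u hu => Nat.find_min hex2 hu⟩
  refine (hpair n' i hin hn'm x x' hxn hx'n hxi).trans (mul_le_mul_of_nonneg_right (Real.exp_le_exp.2 ?_) (hF x'))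
  rw [← hE₀, ← hw₀]
  have hΦn : 1 ≤ Φ ^ n := one_le_pow₀ hΦ
  have hΦn0 : 0 < Φ ^ n := by linarith
  have hΦpn : Φ ^ n ≤ Φ ^ ((p + 1) * n) := pow_le_pow_right₀ hΦ (Nat.le_mul_of_pos_left n (by omega))
  have hA₁A : A * Φ ≤ A₁ := by
    rw [hA₁]
    have h1 : A * Φ ≤ (A + 1) * Φ := mul_le_mul_of_nonneg_right (by linarith) hΦ0.le
    have h2 : (A + 1) * Φ * 1 ≤ (A + 1) * Φ * (2 * b + 1) :=
      mul_le_mul_of_nonneg_left (by have : (0 : ℝ) ≤ 2 * b := by positivity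
                                    linarith) (by positivity)
    linarith
  have hA₁B : A * Φ * (2 * b) ≤ A₁ := by
    rw [hA₁]
    exact mul_le_mul (mul_le_mul_of_nonneg_right (by linarith) hΦ0.le) (by linarith) (by positivity) (by positivity)
  have hX0 : 0 ≤ |(x : ℝ) - x'| := abs_nonneg _
  have hCp : 0 ≤ A₁ * (Cu * (1 / κ₁) ^ p) := by positivity
  have hAQ : 0 ≤ A₁ * Q := by positivity
  have hσE : 0 ≤ σ * (E₀ / w₀) := by positivity
  rcases Nat.lt_or_ge (n + 1) n' with hfar | hnear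
  · -- far
    have h1 : ¬ |(x : ℝ) - x₀| ≤ K₁ * wd μ s (T (n' - 1)) := fun hcon => hmin (n' - 1) (by omega) ⟨by omega, by omega, hcon⟩
    rw [not_le] at h1
    have h2 : 4 * wd μ s (T n) ≤ wd μ s (T (n' - 1)) := (hw4 n (by omega)).trans (hwm' (n + 1) (n' - 1) (by omega) (by omega))
    have h3 : wd μ s (T (n' - 1)) ≤ 2 * |(x : ℝ) - x'| := by
      have h4 := abs_sub_le (x : ℝ) x' x₀
      have h5 := mul_le_mul_of_nonneg_left h2 hK₁0.le
      have h6 : 1 * wd μ s (T (n' - 1)) ≤ K₁ * wd μ s (T (n' - 1)) :=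
        mul_le_mul_of_nonneg_right hK₁ (hwpos (n' - 1) (by omega)).le
      linarith
    have h4 : EE μ s (T i) ≤ 2 * b * EE μ s (T (n' - 1)) := by
      have h5 := hE2 (n' - 1) (by omega)
      rw [show n' - 1 + 1 = n' by omega] at h5
      have h6 : T i ≤ T n' := by
        have := hTmon (n' - i) i (by omega)
        rwa [show i + (n' - i) = n' by omega] at this
      exact (EE_mono h6).trans h5
    have h5 := hu (T 0) (T (n' - 1)) g4 (hmon (n' - 1) (by omega))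
    rw [← hE₀, ← hw₀] at h5
    have h6 := hΦT (n' - 1) (by omega)
    have hEn := EE_pos (μ := μ) (s := s) (T (n' - 1))
    have h7 : A * (Φ ^ n' * EE μ s (T i)) ≤ A₁ * ((κ₁ / 2 * (wd μ s (T (n' - 1)) / w₀) + Q) * E₀) := by
      calc A * (Φ ^ n' * EE μ s (T i)) ≤ A * (Φ ^ n' * (2 * b * EE μ s (T (n' - 1)))) :=
            mul_le_mul_of_nonneg_left (mul_le_mul_of_nonneg_left h4 (by positivity)) hA
        _ = A * Φ * (2 * b) * (Φ ^ (n' - 1) * EE μ s (T (n' - 1))) := by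
          rw [show Φ ^ n' = Φ ^ (n' - 1) * Φ by rw [← pow_succ]; congr 1; omega]
          ring
        _ ≤ A₁ * (((T (n' - 1) : ℝ) / T 0) ^ g * EE μ s (T (n' - 1))) :=
          mul_le_mul hA₁B (mul_le_mul_of_nonneg_right h6 hEn.le) (by positivity) hA10.le
        _ ≤ _ := mul_le_mul_of_nonneg_left h5 hA10.le
    have h8 : A₁ * ((κ₁ / 2 * (wd μ s (T (n' - 1)) / w₀) + Q) * E₀) =
        A₁ * κ₁ * (E₀ / w₀) * (wd μ s (T (n' - 1)) / 2) + A₁ * Q * E₀ := by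
      field_simp
    have h9 : A₁ * κ₁ * (E₀ / w₀) * (wd μ s (T (n' - 1)) / 2) ≤ σ * (E₀ / w₀) * |(x : ℝ) - x'| :=
      mul_le_mul (mul_le_mul_of_nonneg_right hκ₁σ (by positivity)) (by linarith) (by have := hwpos (n' - 1) (by omega); positivity) hσE
    have h10 : A₁ * Q * E₀ ≤ (A₁ * (Cu * (1 / κ₁) ^ p) + A₁ * Q) * (Φ ^ ((p + 1) * n) * E₀) := by
      have h11 : E₀ ≤ Φ ^ ((p + 1) * n) * E₀ := le_mul_of_one_le_left hE0.le (hΦn.trans hΦpn)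
      exact mul_le_mul (by linarith) h11 hE0.le (by positivity)
    linarith
  · -- near
    have hΦn' : Φ ^ n' ≤ Φ * Φ ^ n := by
      rw [← pow_succ']
      exact pow_le_pow_right₀ hΦ hnear
    rcases Nat.eq_zero_or_pos i with h0 | h0
    · rw [h0, ← hE₀]
      have h1 : A * (Φ ^ n' * E₀) ≤ A₁ * Q * (Φ ^ ((p + 1) * n) * E₀) := by
        calc A * (Φ ^ n' * E₀) ≤ A * (Φ * Φ ^ n * E₀) := mul_le_mul_of_nonneg_left (mul_le_mul_of_nonneg_right hΦn' hE0.le) hA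
          _ = A * Φ * (Φ ^ n * E₀) := by ring
          _ ≤ A₁ * Q * (Φ ^ ((p + 1) * n) * E₀) := by
            refine mul_le_mul (hA₁A.trans ?_) (mul_le_mul_of_nonneg_right hΦpn hE0.le) (by positivity) (by positivity)
            exact le_mul_of_one_le_right hA10.le hQ
      have h2 : 0 ≤ A₁ * (Cu * (1 / κ₁) ^ p) * (Φ ^ ((p + 1) * n) * E₀) := by positivity
      have h3 : 0 ≤ σ * (E₀ / w₀) * |(x : ℝ) - x'| := by positivity
      rw [add_mul]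
      linarith
    · have h1 : ¬ |(x : ℝ) - x'| ≤ 2 * K₁ * wd μ s (T (i - 1)) := fun hcon => hmin2 (i - 1) (by omega) ⟨by omega, hcon⟩
      rw [not_le] at h1
      have hwi := hwpos (i - 1) (by omega)
      have h2 : wd μ s (T (i - 1)) ≤ |(x : ℝ) - x'| := by
        have h3 : 1 * wd μ s (T (i - 1)) ≤ 2 * K₁ * wd μ s (T (i - 1)) := mul_le_mul_of_nonneg_right (by linarith) hwi.le
        linarith
      have h3 := hE2 (i - 1) (by omega)
      rw [show i - 1 + 1 = i by omega] at h3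
      have hEn := EE_pos (μ := μ) (s := s) (T (i - 1))
      have h4 := hue (κ₁ / Φ ^ n) (by positivity) (by
        rw [div_le_one hΦn0]
        linarith) (T 0) (T (i - 1)) g2 (hmon (i - 1) (by omega))
      rw [← hE₀, ← hw₀] at h4
      have h5 : A * (Φ ^ n' * EE μ s (T i)) ≤ A₁ * Φ ^ n *
          ((κ₁ / Φ ^ n * (wd μ s (T (i - 1)) / w₀) + Cu * (1 / (κ₁ / Φ ^ n)) ^ p) * E₀) := by
        calc A * (Φ ^ n' * EE μ s (T i)) ≤ A * ((Φ * Φ ^ n) * (2 * b * EE μ s (T (i - 1)))) :=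
              mul_le_mul_of_nonneg_left (mul_le_mul hΦn' h3 (EE_pos _).le (by positivity)) hA
          _ = A * Φ * (2 * b) * (Φ ^ n * EE μ s (T (i - 1))) := by ring
          _ ≤ A₁ * (Φ ^ n * EE μ s (T (i - 1))) := mul_le_mul_of_nonneg_right hA₁B (by positivity)
          _ = A₁ * Φ ^ n * EE μ s (T (i - 1)) := by ring
          _ ≤ _ := mul_le_mul_of_nonneg_left h4 (by positivity)
      have h6 : A₁ * Φ ^ n * ((κ₁ / Φ ^ n * (wd μ s (T (i - 1)) / w₀) + Cu * (1 / (κ₁ / Φ ^ n)) ^ p) * E₀) =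
          A₁ * κ₁ * (E₀ / w₀) * wd μ s (T (i - 1)) + A₁ * (Cu * (1 / κ₁) ^ p) * (Φ ^ ((p + 1) * n) * E₀) := by
        have e1 : Φ ^ ((p + 1) * n) = Φ ^ n * (Φ ^ n) ^ p := by
          rw [← pow_mul, ← pow_add]
          congr 1
          ring
        have e2 : (1 / (κ₁ / Φ ^ n)) ^ p = (1 / κ₁) ^ p * (Φ ^ n) ^ p := by
          rw [← mul_pow]
          congr 1
          field_simp
        rw [e1, e2]
        field_simp
      have h7 : A₁ * κ₁ * (E₀ / w₀) * wd μ s (T (i - 1)) ≤ σ * (E₀ / w₀) * |(x : ℝ) - x'| :=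
        mul_le_mul (mul_le_mul_of_nonneg_right hκ₁σ (by positivity)) h2 hwi.le hσE
      have h8 : 0 ≤ A₁ * Q * (Φ ^ ((p + 1) * n) * E₀) := by positivity
      rw [add_mul (A₁ * (Cu * (1 / κ₁) ^ p))]
      linarith

/-- **(LR), the places `x` beyond the last scale.** -/
theorem lr_far (h : In μ s c C n₀) : ∃ (g : ℝ) (K₀ : ℕ), 0 < g ∧ 2 ≤ K₀ ∧ ∀ σ A K₁ Φ : ℝ, 0 < σ → 0 ≤ A → 1 ≤ K₁ → 1 ≤ Φ →
    ∃ (A' : ℝ) (n₁ : ℕ), 0 ≤ A' ∧ 1 ≤ n₁ ∧ ∀ (T : ℕ → ℕ) (m : ℕ), n₁ ≤ T 0 → (∀ v, v < m → K₀ * T v ≤ T (v + 1)) →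
    Φ ^ m ≤ ((T m : ℝ) / T 0) ^ g → ∀ (F : ℤ → ℝ) (x₀ : ℝ) (n : ℕ) (x x' : ℤ), 0 ≤ F x' → n < m →
    K₁ * wd μ s (T m) < |(x : ℝ) - x₀| → |(x' : ℝ) - x₀| ≤ K₁ * wd μ s (T n) →
    F x ≤ Real.exp (A * (Φ ^ m * EE μ s (T m)) + σ / 2 * (EE μ s (T 0) / wd μ s (T 0)) * |(x : ℝ) - x'|) * F x' →
    F x ≤ Real.exp (A' * EE μ s (T 0) + σ * (EE μ s (T 0) / wd μ s (T 0)) * |(x : ℝ) - x'|) * F x' := by
  obtain ⟨g, hg, hun⟩ := unit_small_pow h
  obtain ⟨K₀, n₃, hK2, hn3, hK⟩ := wd_four h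
  refine ⟨g, K₀, hg, hK2, fun σ A K₁ Φ hσ hA hK₁ hΦ => ?_⟩
  obtain ⟨Q, n₄, hQ, hn4, hu⟩ := hun (σ / (4 * (A + 1))) (by positivity)
  refine ⟨A * Q, max n₃ n₄, by positivity, hn4.trans (le_max_right _ _), ?_⟩
  intro T m hT0 hT hΦT F x₀ n x x' hF hnm hx hx' hFx
  have g3 : n₃ ≤ T 0 := (le_max_left _ _).trans hT0
  have g4 : n₄ ≤ T 0 := (le_max_right _ _).trans hT0
  have hT01 : 1 ≤ T 0 := hn3.trans g3
  have hmon1 : ∀ v, v < m → T v ≤ T (v + 1) := fun v hv => (Nat.le_mul_of_pos_left _ (by omega)).trans (hT v hv)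
  have hmon : ∀ v, v ≤ m → T 0 ≤ T v := by
    intro v
    induction v with
    | zero => intro _; exact le_rfl
    | succ v ih => intro hv; exact (ih (by omega)).trans (hmon1 v (by omega))
  have hw4 : ∀ v, v < m → 4 * wd μ s (T v) ≤ wd μ s (T (v + 1)) := fun v hv => hK _ _ (g3.trans (hmon v hv.le)) (hT v hv)
  have hwpos : ∀ v, v ≤ m → 0 < wd μ s (T v) := fun v hv => h.wd_pos (hT01.trans (hmon v hv))
  have hw : ∀ a, n + 1 + a ≤ m → 4 * wd μ s (T n) ≤ wd μ s (T (n + 1 + a)) := by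
    intro a
    induction a with
    | zero => intro h1; exact hw4 n (by omega)
    | succ a ih =>
      intro h1
      have h2 := ih (by omega)
      have h3 := hw4 (n + 1 + a) (by omega)
      have h4 := hwpos (n + 1 + a) (by omega)
      rw [show n + 1 + (a + 1) = n + 1 + a + 1 by omega]
      linarith
  have h4 : 4 * wd μ s (T n) ≤ wd μ s (T m) := by
    have := hw (m - (n + 1)) (by omega)
    rwa [show n + 1 + (m - (n + 1)) = m by omega] at this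
  have hwm := hwpos m le_rfl
  have h5 : wd μ s (T m) ≤ 2 * |(x : ℝ) - x'| := by
    have h6 := abs_sub_le (x : ℝ) x' x₀
    have h7 := mul_le_mul_of_nonneg_left h4 (show 0 ≤ K₁ by linarith)
    have h8 : 1 * wd μ s (T m) ≤ K₁ * wd μ s (T m) := mul_le_mul_of_nonneg_right hK₁ hwm.le
    linarith
  refine hFx.trans (mul_le_mul_of_nonneg_right (Real.exp_le_exp.2 ?_) hF)
  obtain ⟨E₀, hE₀⟩ : ∃ E₀, E₀ = EE μ s (T 0) := ⟨_, rfl⟩
  obtain ⟨w₀, hw₀⟩ : ∃ w₀, w₀ = wd μ s (T 0) := ⟨_, rfl⟩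
  have hE0 : 0 < E₀ := by rw [hE₀]; exact EE_pos _
  have hw0 : 0 < w₀ := by rw [hw₀]; exact hwpos 0 (by omega)
  have h6 := hu (T 0) (T m) g4 (hmon m le_rfl)
  rw [← hE₀, ← hw₀] at h6
  rw [← hE₀, ← hw₀]
  have hEm := EE_pos (μ := μ) (s := s) (T m)
  have h7 : A * (Φ ^ m * EE μ s (T m)) ≤ A * ((σ / (4 * (A + 1)) * (wd μ s (T m) / w₀) + Q) * E₀) :=
    mul_le_mul_of_nonneg_left ((mul_le_mul_of_nonneg_right hΦT hEm.le).trans h6) hA
  have h8 : A * ((σ / (4 * (A + 1)) * (wd μ s (T m) / w₀) + Q) * E₀) =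
      A / (A + 1) * (σ / 4 * (E₀ / w₀) * wd μ s (T m)) + A * Q * E₀ := by
    field_simp
  have h9 : A / (A + 1) * (σ / 4 * (E₀ / w₀) * wd μ s (T m)) ≤ σ / 2 * (E₀ / w₀) * |(x : ℝ) - x'| := by
    have h10 : A / (A + 1) ≤ 1 := by
      rw [div_le_one (by linarith)]
      linarith
    have h11 : σ / 4 * (E₀ / w₀) * wd μ s (T m) ≤ σ / 4 * (E₀ / w₀) * (2 * |(x : ℝ) - x'|) := mul_le_mul_of_nonneg_left h5 (by positivity)
    have h12 : 0 ≤ σ / 4 * (E₀ / w₀) * wd μ s (T m) := by positivity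
    have h13 : A / (A + 1) * (σ / 4 * (E₀ / w₀) * wd μ s (T m)) ≤ 1 * (σ / 4 * (E₀ / w₀) * wd μ s (T m)) :=
      mul_le_mul_of_nonneg_right h10 h12
    linarith
  linarith

/-- The widths of the scales `u + i`, `u + n`. -/
theorem wd_iter (h : In μ s c C n₀) (b : ℕ) : ∃ (Bw : ℝ) (n₁ : ℕ), 2 ≤ Bw ∧ 1 ≤ n₁ ∧ ∀ (T : ℕ → ℕ) (m : ℕ), n₁ ≤ T 0 →
    (∀ v, v < m → T v ≤ T (v + 1) ∧ T (v + 1) ≤ b * T v) → ∀ i n, i ≤ n → n ≤ m → wd μ s (T n) ≤ Bw ^ (n - i) * wd μ s (T i) := by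
  obtain ⟨Bw, n₁, hB, hn1, hw⟩ := wd_next h b
  refine ⟨Bw, n₁, hB, hn1, fun T m hT0 hT i n hin hnm => ?_⟩
  have hmon : ∀ v, v ≤ m → T 0 ≤ T v := by
    intro v
    induction v with
    | zero => intro _; exact le_rfl
    | succ v ih => intro hv; exact (ih (by omega)).trans (hT v (by omega)).1
  have key : ∀ a, i + a ≤ m → wd μ s (T (i + a)) ≤ Bw ^ a * wd μ s (T i) := by
    intro a
    induction a with
    | zero => intro _; rw [pow_zero, one_mul, add_zero]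
    | succ a ih =>
      intro ha
      have h1 := ih (by omega)
      have h2 := hw (T (i + a)) (T (i + a + 1)) (hT0.trans (hmon (i + a) (by omega))) (hT (i + a) (by omega)).1 (hT (i + a) (by omega)).2
      rw [show i + (a + 1) = i + a + 1 by omega, pow_succ]
      calc wd μ s (T (i + a + 1)) ≤ Bw * wd μ s (T (i + a)) := h2
        _ ≤ Bw * (Bw ^ a * wd μ s (T i)) := mul_le_mul_of_nonneg_left h1 (by linarith)
        _ = _ := by ring
  have := key (n - i) (by omega)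
  rwa [show i + (n - i) = n by omega] at this

end

end Pool.Agent.W_7d29a1_C1.DD84
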