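import Pool.Agent.W_7d29a1_C1.SysN89
import Pool.Agent.W_7d29a1_C1.LRP84

/-!
MP_7d29a1_pr, [C1], (LR) FOR THE MASSES `bh16` (forward), one pair, the constant explicit in the level `q₀`. (helper16)

`StF16`: the steep levels of the layers with increasing rows (grids `Wg v`, the events `StE84` centred at `ce v`, within `wd (T v)` of the
line). `stpF16`: they are a `Stp84`. `lr_one16`: **(LR) for `bh16`**: the forward copy of `SysP84.lr_oneP84` over `SysN89.Lay89`.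
-/

set_option autoImplicit false

namespace Pool.Agent.W_7d29a1_C1.U16

open MeasureTheory ProbabilityTheory Filter Topology Finset
open Pool.Agent.W_7d29a1_F Pool.Agent.W_7d29a1_h4g Pool.Agent.W_7d29a1_H Pool.Agent.W_7d29a1_HS
open Pool.Agent.W_7d29a1_C1.H75 Pool.Agent.W_7d29a1_C1.FarK89 Pool.Agent.W_7d29a1_C1.FarW89
open Pool.Agent.W_7d29a1_C1.DD84 Pool.Agent.W_7d29a1_C1.SysN89
open Pool.Agent.W_7d29a1_C1.SysP84 (nk_steep84 Sys84_mono Stp84_mono grid_site84)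
open Pool.Agent.W_7d29a1_C1.K91 (wt wt_pos)

noncomputable section

variable {μ : Measure ℝ} {s : ℝ}

/-- The steep levels `qs` of the layers `a ≤ v < b` with increasing rows: the grid of the row `r v` is `Wg v`, the centre of the event of
the layer `v` is `ce v`. -/
structure StF16 (μ : Measure ℝ) (s B₁ B₂ δ : ℝ) (η : Env) (κ : Pt) (M : ℕ) (r T : ℕ → ℕ) (Wg : ℕ → ℤ) (ce : ℕ → ℝ) (qs : ℕ → ℝ)
    (a b : ℕ) : Prop where
  q0 : ∀ v, a ≤ v → v < b → 0 ≤ qs v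
  W0 : ∀ v, a ≤ v → v < b → 0 < Wg (v + 1)
  W1 : ∀ v, a ≤ v → v < b → (Wg (v + 1) : ℝ) ≤ wd μ s (T v)
  TN : ∀ v, a ≤ v → v < b → r (v + 1) - r v ≤ T v
  sw : ∀ v, a ≤ v → v < b → r (v + 1) ≤ M ∨ M ≤ r v
  cen : ∀ v, a ≤ v → v < b → |ce v - (κ.2 + sl μ s * ((r v : ℝ) - κ.1))| ≤ wd μ s (T v)
  st : ∀ v, a ≤ v → v < b → η ∈ StE84 μ s B₁ B₂ δ (T v) (r (v + 1) - r v) (Wg v) (Wg (v + 1)) (r v) (ce v) (qs v)

theorem StF16.sub {B₁ B₂ δ : ℝ} {η : Env} {κ : Pt} {M : ℕ} {r T : ℕ → ℕ} {Wg : ℕ → ℤ} {ce qs : ℕ → ℝ} {a b a' b' : ℕ}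
    (hS : StF16 μ s B₁ B₂ δ η κ M r T Wg ce qs a b) (ha : a ≤ a') (hb : b' ≤ b) : StF16 μ s B₁ B₂ δ η κ M r T Wg ce qs a' b' :=
  ⟨fun v h1 h2 => hS.q0 v (by omega) (by omega), fun v h1 h2 => hS.W0 v (by omega) (by omega),
    fun v h1 h2 => hS.W1 v (by omega) (by omega), fun v h1 h2 => hS.TN v (by omega) (by omega),
    fun v h1 h2 => hS.sw v (by omega) (by omega), fun v h1 h2 => hS.cen v (by omega) (by omega),
    fun v h1 h2 => hS.st v (by omega) (by omega)⟩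

/-- All places within `L` of the line are in a large box. -/
theorem boxL16 (κ : Pt) (r : ℕ → ℕ) (a b : ℕ) (x₀ : ℤ) (L : ℝ) : ∃ R₀ : ℤ, ∀ R : ℤ, R₀ ≤ R → ∀ v, v ≤ b → ∀ g : ℤ,
    |lt μ s κ r v g| ≤ L → g ∈ bx r a x₀ R v := by
  obtain ⟨R₀, hR₀⟩ : ∃ R₀ : ℤ, R₀ = ∑ v ∈ range (b + 1), |⌈|L| + |κ.2 + sl μ s * ((r v : ℝ) - κ.1) - x₀|⌉| := ⟨_, rfl⟩
  refine ⟨R₀, fun R hR v hv g hg => ?_⟩
  rw [lt_eq] at hg
  obtain ⟨t, ht⟩ : ∃ t : ℝ, t = κ.2 + sl μ s * ((r v : ℝ) - κ.1) := ⟨_, rfl⟩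
  have h1 : |⌈|L| + |κ.2 + sl μ s * ((r v : ℝ) - κ.1) - x₀|⌉| ≤ R₀ := by
    rw [hR₀]
    exact single_le_sum (f := fun v => |⌈|L| + |κ.2 + sl μ s * ((r v : ℝ) - κ.1) - x₀|⌉|) (fun v _ => abs_nonneg _)
      (mem_range.2 (by omega : v < b + 1))
  rw [← ht] at h1 hg
  have h2 := le_abs_self (⌈|L| + |t - x₀|⌉)
  have h3 : |(g : ℝ) - x₀| ≤ (⌈|L| + |t - x₀|⌉ : ℝ) := by
    have h4 := abs_add_le ((g : ℝ) - t) (t - x₀)
    rw [sub_add_sub_cancel] at h4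
    have h5 := le_abs_self L
    have h6 := Int.le_ceil (|L| + |t - x₀|)
    linarith
  have h4 : |(g : ℤ) - x₀| ≤ ⌈|L| + |t - x₀|⌉ := by
    have : ((|g - x₀| : ℤ) : ℝ) ≤ (⌈|L| + |t - x₀|⌉ : ℝ) := by
      push_cast
      exact h3
    exact_mod_cast this
  rw [abs_le] at h4
  unfold bx
  rw [mem_Icc]
  omega

variable [IsProbabilityMeasure μ] {c C : ℝ} {n₀ : ℕ}

/-- **THE STEEP STEPS OF THE LAYERS** (increasing rows). -/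
theorem stpF16 (h0 : In μ s c C n₀) {θ : ℝ} (hθ : 0 < θ) : ∃ (δ₁ : ℝ) (n₁ : ℕ), 0 < δ₁ ∧ 1 ≤ n₁ ∧
    ∀ {K h B₁ B₂ δ' δ Λ : ℝ} {P : ℕ} {η : Env} {p : ℕ → ℝ} {M : ℕ} {κ : Pt} {r T N : ℕ → ℕ} {q qs ce : ℕ → ℝ} {bs : ℕ → Pt} {Wg : ℕ → ℤ}
      {a b n₂ : ℕ}, n₁ ≤ n₂ → 2 ≤ B₁ → 2 ≤ B₂ → 2 * δ ≤ δ' → 2 * δ ≤ δ₁ →
    (∀ k, k < M → p k = Real.exp (s + h)) → (∀ k, M ≤ k → p k = Real.exp s) → Lay89 μ s c θ K h P η κ r T N q bs a b n₂ →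
    StF16 μ s B₁ B₂ δ' η κ M r T Wg ce qs a b →
    ∀ (x₀ R : ℤ), (∀ ρ : ℝ, |ρ| ≤ Λ → ∀ v, a < v → v < b → ∃ z ∈ bx r a x₀ R v, |lt μ s κ r v z - ρ| ≤ 1) →
      (∀ ρ : ℝ, |ρ| ≤ Λ → ∀ v, a ≤ v → v + 1 < b → ∀ g : ℤ, |lt μ s κ r (v + 1) g - ρ| ≤ wd μ s (T v) → g ∈ bx r a x₀ R (v + 1)) →
    Stp84 μ s B₁ B₂ Λ δ T (fun v => (qs v + c / 4) * B₂) (lt μ s κ r) (kk μ s h η p M r) (bx r a x₀ R) (fun v g => Wg v ∣ g) a b := by
  obtain ⟨δ₁, n₁, hδ₁, hn₁, H⟩ := nk_steep84 h0 hθ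
  refine ⟨δ₁, n₁, hδ₁, hn₁, ?_⟩
  intro K h B₁ B₂ δ' δ Λ P η p M κ r T N q qs ce bs Wg a b n₂ hn₂ hB₁ hB₂ hδ hδ' hp hp' hL hS x₀ R hline hgrid
  refine ⟨hline, fun ρ hρ v hv hv' => ?_, fun v hv hv' j x _ y _ hx hy hlx hxy hj => ?_⟩
  · obtain ⟨g, g1, g2, _⟩ := grid_site84 (μ := μ) (s := s) κ r (v + 1) (hS.W0 v hv (by omega)) ρ
    have g3 := g2.trans (hS.W1 v hv (by omega))
    exact ⟨g, hgrid ρ hρ v hv hv' g g3, g1, g3⟩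
  · have hv1 : a ≤ v := hv.le
    have hv2 : v < b := by omega
    have hru := hL.rr v hv1 hv2
    have hw := h0.wd_nonneg (T v)
    have hlen := hL.len v hv1 hv2
    have hsw := hS.sw v hv1 hv2
    have e0 : r v + (r (v + 1) - r v) = r (v + 1) := by omega
    have hd : |(y : ℝ) - x - sl μ s * ((r (v + 1) - r v : ℕ) : ℝ)| ≤ 2 ^ j * wd μ s (T v) := by
      have h1 := lt_sub (μ := μ) (s := s) κ r v (v + 1) x y hru
      rw [h1] at hxy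
      push_cast at hxy ⊢
      exact hxy
    have h2j : (0 : ℝ) < 2 ^ j := by positivity
    have hcen := hS.cen v hv1 hv2
    have hyb : |(x : ℝ) - ce v| ≤ B₁ ^ (j + 1) * wd μ s (T v) := by
      have h0' := hlx
      rw [lt_eq] at h0'
      have h1 := abs_sub_le (x : ℝ) (κ.2 + sl μ s * ((r v : ℝ) - κ.1)) (ce v)
      rw [abs_sub_comm (κ.2 + sl μ s * ((r v : ℝ) - κ.1)) (ce v)] at h1
      have h2 : B₁ ^ j + 1 ≤ B₁ ^ (j + 1) := by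
        have h4 : (1 : ℝ) ≤ B₁ ^ j := one_le_pow₀ (by linarith only [hB₁])
        rw [pow_succ]
        have h5 := mul_le_mul_of_nonneg_left hB₁ (show 0 ≤ B₁ ^ j by linarith only [h4])
        linarith only [h4, h5]
      have h3 := mul_le_mul_of_nonneg_right h2 hw
      linarith only [h0', h1, h3, hcen]
    have hd' : |(y : ℝ) - x - sl μ s * ((r (v + 1) - r v : ℕ) : ℝ)| ≤ 2 ^ (j + 1) * wd μ s (T v) := by
      rw [pow_succ]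
      have : 0 ≤ 2 ^ j * wd μ s (T v) := by positivity
      linarith only [this, hd]
    have hT0 : (0 : ℝ) ≤ T v := Nat.cast_nonneg _
    have hj1 : (2 : ℝ) ^ (j + 1) * wd μ s (T v) ≤ δ' * T v := by
      rw [pow_succ]
      have := mul_le_mul_of_nonneg_right hδ hT0
      linarith only [this, hj]
    have hj2 : (2 : ℝ) ^ (j + 1) * wd μ s (T v) ≤ δ₁ * T v := by
      rw [pow_succ]
      have := mul_le_mul_of_nonneg_right hδ' hT0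
      linarith only [this, hj]
    have h1 := H (hn₂.trans (hL.T1 v hv1 hv2)) hlen (hS.TN v hv1 hv2) hB₂ hp hp' (by rw [e0]; exact hsw) (hL.force v hv1 hv2)
      (hS.st v hv1 hv2) (j + 1) x y hx hy hyb hd' hj1 hj2
    unfold kk
    refine le_trans (Real.exp_le_exp.2 (neg_le_neg (le_of_eq ?_))) h1
    rw [pow_succ]
    ring

/-- **(LR) FOR THE MASSES `bh16`**, one pair: places at the lateral distance `≤ K₁ Bp ^ j wd (T (u + i))` (`j` free); the arms of `x` at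
the row `r (u + (i + 3))`. -/
theorem lr_one16 (h0 : In μ s c C n₀) (P : ℕ) {θ K B₂ : ℝ} (hθ : 0 < θ) (hK : 4 ≤ K) (hB₂ : 2 ≤ B₂) : ∃ (δ₁ : ℝ) (K₀ : ℕ),
    0 < δ₁ ∧ 2 ≤ K₀ ∧ ∀ K₁ R Y Bp : ℝ, 1 ≤ K₁ → 0 ≤ R → 1 ≤ Y → 2 ≤ Bp → ∀ b : ℕ,
    ∃ (A₀ : ℝ) (j₀ n₁ : ℕ), 0 ≤ A₀ ∧ 1 ≤ n₁ ∧ ∀ q₀ : ℝ, 0 ≤ q₀ →
    ∀ {h δ' : ℝ} {η : Env} {p : ℕ → ℝ} {M Nt : ℕ} {κ : Pt} {r T N : ℕ → ℕ} {q qs ce : ℕ → ℝ} {bs : ℕ → Pt} {Wg : ℕ → ℤ}
      {u i j : ℕ} {Θ : ℝ},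
    (∀ k, k < M → p k = Real.exp (s + h)) → (∀ k, M ≤ k → p k = Real.exp s) → 1 ≤ Θ → Θ ^ 2 ≤ 2 →
    Lay89 μ s c θ K h P η κ r T N q bs u (u + (i + 3)) n₁ → r (u + (i + 3)) ≤ Nt →
    StF16 μ s Bp B₂ δ' η κ M r T Wg ce qs u (u + (i + 3)) →
    (∀ v, u ≤ v → v < u + (i + 2) → K₀ * T v ≤ T (v + 1) ∧ T (v + 1) ≤ b * T v) →
    (∀ v, u ≤ v → v < u + (i + 3) → q v ≤ q₀ * Θ ^ (v - u)) → (∀ v, u ≤ v → v < u + (i + 3) → qs v ≤ q₀ * Θ ^ (v - u)) →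
    2 * (2 ^ (j + j₀) * wd μ s (T (u + (i + 1)))) ≤ δ' * T (u + (i + 1)) →
    2 * (2 ^ (j + j₀) * wd μ s (T (u + (i + 1)))) ≤ δ₁ * T (u + (i + 1)) →
    ∀ (ρ : ℝ), |ρ| ≤ R * wd μ s (T u) → ∀ (x x' : ℤ), |lt μ s κ r u x - ρ| ≤ K₁ * (Bp ^ j * wd μ s (T (u + i))) →
    |lt μ s κ r u x' - ρ| ≤ K₁ * (Bp ^ j * wd μ s (T (u + i))) → |(x : ℝ) - x'| ≤ 2 * K₁ * wd μ s (T (u + i)) →
    ∀ (Q : ℤ → Prop) [DecidablePred Q],
    (∀ z, x ≤ z → z ≤ x + ((r (u + (i + 3)) - r u : ℕ) : ℤ) → Q z →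
      |lt μ s κ r (u + (i + 3)) z - lt μ s κ r u x| ≤ Y * 2 ^ j * wd μ s (T (u + (i + 2)))) →
    bh16 μ s h η p M Nt (r u) x ≤
      2 * PM16 (fun a b x z => nk μ s h η p M a (b - a) x z) (bh16 μ s h η p M Nt) (r u) (r (u + (i + 3))) x Q →
    bh16 μ s h η p M Nt (r u) x ≤
      Real.exp (A₀ * (1 + q₀) ^ 4 * (B₂ ^ j * Θ ^ (4 * i) * EE μ s (T (u + i)))) * bh16 μ s h η p M Nt (r u) x' := by
  have hc0 := h0.c0
  obtain ⟨K₀, hK₀, H⟩ := lrb_q h0 (2 * P) (cc := c / 2) (c₁ := c / 8) (c₂ := c / 8) (c₃ := c / 8) (by positivity) (by positivity)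
    (by positivity) (by linarith) hB₂
  obtain ⟨δ₁, m₃, hδ₁, hm₃, HT⟩ := stpF16 h0 hθ
  refine ⟨δ₁, K₀, hδ₁, hK₀, fun K₁ R Y Bp hK₁ hR hY hBp b => ?_⟩
  obtain ⟨C', hC', m₁, hm₁, HS⟩ := sys89 h0 P (θ := θ) (K := K) (by linarith) hθ
  obtain ⟨A, j₀, m₂, hA, hm₂, H2⟩ := H (K - 2) K₁ 1 R Y Bp (by linarith) hK₁ zero_le_one hR hY hBp b
  have hg := gr_nonneg (2 * P) (show (0 : ℝ) ≤ 2 by norm_num)
  obtain ⟨Cq, hCq⟩ : ∃ Cq : ℝ, Cq = C' * gr (2 * P) 2 := ⟨_, rfl⟩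
  have hCq0 : 0 ≤ Cq := by rw [hCq]; positivity
  obtain ⟨Cr, hCr⟩ : ∃ Cr : ℝ, Cr = 1 + Cq + (1 + c / 4) * B₂ := ⟨_, rfl⟩
  have hCr0 : 0 < Cr := by rw [hCr]; positivity
  refine ⟨A * Cr ^ 2, j₀, max (max m₁ m₂) m₃, by positivity, hm₁.trans ((le_max_left _ _).trans (le_max_left _ _)), fun q₀ hq₀ => ?_⟩
  obtain ⟨q₂, hq₂e⟩ : ∃ q₂ : ℝ, q₂ = Cq * (1 + q₀) ^ 2 + (q₀ + c / 4) * B₂ := ⟨_, rfl⟩
  have hq₂ : 0 ≤ q₂ := by rw [hq₂e]; positivity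
  have hq4 : 1 + q₀ ≤ (1 + q₀) ^ 2 := le_self_pow₀ (by linarith only [hq₀]) (by norm_num)
  have hq₂' : A * (1 + q₂) ^ 2 ≤ A * Cr ^ 2 * (1 + q₀) ^ 4 := by
    have e1 : 1 + q₂ ≤ Cr * (1 + q₀) ^ 2 := by
      have e2 : (q₀ + c / 4) * B₂ ≤ (1 + c / 4) * B₂ * (1 + q₀) ^ 2 := by
        have e3 : q₀ + c / 4 ≤ (1 + c / 4) * (1 + q₀) := by
          have : 0 ≤ c / 4 * q₀ + 1 := by positivity
          linarith only [this, show (1 + c / 4) * (1 + q₀) = q₀ + c / 4 + (c / 4 * q₀ + 1) by ring]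
        have e4 : (1 + c / 4) * (1 + q₀) ≤ (1 + c / 4) * (1 + q₀) ^ 2 := mul_le_mul_of_nonneg_left hq4 (by positivity)
        have e5 := mul_le_mul_of_nonneg_right (e3.trans e4) (show 0 ≤ B₂ by linarith only [hB₂])
        linarith only [e5]
      have e6 : 1 ≤ (1 + q₀) ^ 2 := one_le_pow₀ (by linarith only [hq₀])
      rw [hq₂e, hCr]
      linarith only [e2, e6]
    have e7 := mul_le_mul_of_nonneg_left (pow_le_pow_left₀ (by linarith only [hq₂]) e1 2) hA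
    linarith only [e7, show A * (Cr * (1 + q₀) ^ 2) ^ 2 = A * Cr ^ 2 * (1 + q₀) ^ 4 by ring]
  intro h δ' η p M Nt κ r T N q qs ce bs Wg u i j Θ hp hp' hΘ hΘ2 hL hrN hS hT hq hqs hcone hcone' ρ hρ x x' hx hx' hxx Q _ hQ harm
  have hpos : ∀ k, 0 < p k := by
    intro k
    rcases lt_or_ge k M with h2 | h2
    · rw [hp k h2]
      exact Real.exp_pos _
    · rw [hp' k h2]
      exact Real.exp_pos _
  obtain ⟨Λ, hΛ⟩ : ∃ Λ : ℝ, Λ = (R + K₁ + Y + 1) * (Bp ^ j * wd μ s (T (u + (i + 2)))) := ⟨_, rfl⟩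
  obtain ⟨wm, hwm⟩ : ∃ wm : ℝ, wm = ∑ v ∈ range (u + (i + 3)), wd μ s (T v) := ⟨_, rfl⟩
  have hwle : ∀ v, v < u + (i + 3) → wd μ s (T v) ≤ wm := fun v hv => by
    rw [hwm]
    exact single_le_sum (f := fun v => wd μ s (T v)) (fun v _ => h0.wd_nonneg _) (mem_range.2 hv)
  have hwm0 : 0 ≤ wm := by
    rw [hwm]
    exact sum_nonneg fun v _ => h0.wd_nonneg _
  obtain ⟨R₀, hR₀⟩ := boxL16 (μ := μ) (s := s) κ r u (u + (i + 3)) x (|ρ| + |Λ| + wm + 1)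
  obtain ⟨Rb, hRb⟩ : ∃ Rb : ℤ, Rb = max R₀ |x' - x| := ⟨_, rfl⟩
  have hR1 : R₀ ≤ Rb := by rw [hRb]; exact le_max_left _ _
  have hR2 : |x' - x| ≤ Rb := by rw [hRb]; exact le_max_right _ _
  have hxb : x ∈ bx r u x Rb u := by
    unfold bx
    rw [mem_Icc]
    have := (abs_nonneg (x' - x)).trans hR2
    omega
  have hxb' : x' ∈ bx r u x Rb u := by
    unfold bx
    rw [mem_Icc]
    rw [abs_le] at hR2
    omega
  have hline : ∀ ρ' : ℝ, |ρ'| ≤ |ρ| + |Λ| → ∀ v, v ≤ u + (i + 3) → ∃ z ∈ bx r u x Rb v, |lt μ s κ r v z - ρ'| ≤ 1 := by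
    intro ρ' hρ' v hv
    have h1 := line_site (μ := μ) (s := s) κ r ρ' v
    refine ⟨_, hR₀ Rb hR1 v hv _ ?_, h1⟩
    have h2 := abs_add_le (lt μ s κ r v (κ.2 + ⌊sl μ s * (((r v : ℤ) - κ.1 : ℤ) : ℝ) + ρ'⌋) - ρ') ρ'
    rw [sub_add_cancel] at h2
    linarith only [h1, h2, hρ', hwm0]
  have hgrid : ∀ ρ' : ℝ, |ρ'| ≤ Λ → ∀ v, u ≤ v → v + 1 < u + (i + 3) → ∀ g : ℤ, |lt μ s κ r (v + 1) g - ρ'| ≤ wd μ s (T v) →
      g ∈ bx r u x Rb (v + 1) := by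
    intro ρ' hρ' v hv hv' g hg
    refine hR₀ Rb hR1 (v + 1) (by omega) g ?_
    have h2 := abs_add_le (lt μ s κ r (v + 1) g - ρ') ρ'
    rw [sub_add_cancel] at h2
    have h3 := hwle v (by omega)
    have h4 := le_abs_self Λ
    have h5 := abs_nonneg ρ
    linarith only [h2, h3, h4, h5, hg, hρ']
  have hn1 : m₁ ≤ max (max m₁ m₂) m₃ := (le_max_left _ _).trans (le_max_left _ _)
  have hn2 : m₂ ≤ max (max m₁ m₂) m₃ := (le_max_right _ _).trans (le_max_left _ _)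
  have hn3 : m₃ ≤ max (max m₁ m₂) m₃ := le_max_right _ _
  have hsys := HS hn1 hp hp' hL x Rb ρ fun v _ hv => hline ρ (by have := abs_nonneg Λ; linarith only [this]) v hv.le
  obtain ⟨δ, hδ⟩ : ∃ δ : ℝ, δ = min δ' δ₁ / 2 := ⟨_, rfl⟩
  have hδ'' : 2 * δ ≤ δ' := by rw [hδ]; linarith only [min_le_left δ' δ₁]
  have hδ1 : 2 * δ ≤ δ₁ := by rw [hδ]; linarith only [min_le_right δ' δ₁]
  have hstp := HT (Λ := Λ) hn3 hBp hB₂ hδ'' hδ1 hp hp' hL hS x Rb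
    (fun ρ' hρ' v _ hv => hline ρ' (by have := le_abs_self Λ; have := abs_nonneg ρ; linarith) v hv.le) hgrid
  -- the common level
  obtain ⟨q', hq'⟩ : ∃ q' : ℕ → ℝ, q' = fun v => qq P C' q v + |(qs v + c / 4) * B₂| := ⟨_, rfl⟩
  have hqq0 : ∀ v, 0 ≤ qq P C' q v := fun v => by
    unfold qq
    positivity
  have hEE : ∀ v, u ≤ v → v < u + (i + 3) → 0 ≤ EE μ s (T v) := fun v _ _ => (EE_pos _).le
  have hsys' := Sys84_mono (q' := q') (fun v _ _ => h0.wd_nonneg _) hEE (fun v => by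
    rw [hq']
    have := abs_nonneg ((qs v + c / 4) * B₂)
    show qq P C' q v ≤ qq P C' q v + |(qs v + c / 4) * B₂|
    linarith only [this]) hsys
  have hstp' := Stp84_mono (q' := q') (by linarith only [hB₂]) hEE (fun v => by
    rw [hq']
    have h1 := le_abs_self ((qs v + c / 4) * B₂)
    have h2 := hqq0 v
    show (qs v + c / 4) * B₂ ≤ qq P C' q v + |(qs v + c / 4) * B₂|
    linarith only [h1, h2]) hstp
  have hq'' : ∀ v, u ≤ v → v < u + (i + 3) → q' v ≤ q₂ * (Θ ^ 2) ^ (v - u) := by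
    intro v hv hv'
    have h1 := qq_le P hC'.le hq₀ hΘ (hL.q0 v hv hv') (hq v hv hv')
    rw [← hCq] at h1
    have h2 := hqs v hv hv'
    have h3 := hS.q0 v hv hv'
    have h4 : 1 ≤ Θ ^ (v - u) := one_le_pow₀ hΘ
    have h5 : Θ ^ (v - u) ≤ (Θ ^ 2) ^ (v - u) := pow_le_pow_left₀ (by linarith only [hΘ]) (le_self_pow₀ hΘ (by norm_num)) _
    have h6 : |(qs v + c / 4) * B₂| = (qs v + c / 4) * B₂ := abs_of_nonneg (by positivity)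
    have h7 : qs v + c / 4 ≤ (q₀ + c / 4) * (Θ ^ 2) ^ (v - u) := by
      have h8 := mul_le_mul_of_nonneg_left h5 hq₀
      have h9 : c / 4 * 1 ≤ c / 4 * (Θ ^ 2) ^ (v - u) := mul_le_mul_of_nonneg_left (h4.trans h5) (by positivity)
      linarith only [h8, h9, h2]
    have h8 := mul_le_mul_of_nonneg_right h7 (show 0 ≤ B₂ by linarith only [hB₂])
    rw [hq']
    show qq P C' q v + |(qs v + c / 4) * B₂| ≤ _
    rw [h6, hq₂e]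
    linarith only [h1, h8]
  have hrr := hL.rr
  have hbpos : ∀ z, 0 ≤ bh16 μ s h η p M Nt (r (u + (i + 3))) z := fun z =>
    ((sys_model16 (μ := μ) (s := s) (h := h) (η := η) (M := M) (N := Nt) hpos).b0 _ z hrN).le
  have hruN : r u ≤ Nt := (r_mono (r := r) (a := u) (b := u + (i + 3)) hrr (i + 3) u le_rfl le_rfl).trans hrN
  have hbpos' : ∀ z, 0 ≤ bh16 μ s h η p M Nt (r u) z := fun z =>
    ((sys_model16 (μ := μ) (s := s) (h := h) (η := η) (M := M) (N := Nt) hpos).b0 _ z hruN).le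
  have e2 := mass89 (μ := μ) (s := s) (h := h) (η := η) (M := M) (N := Nt) hpos hrr hrN (m := i + 3) le_rfl le_rfl hxb'
  have e3 := pm89 (μ := μ) (s := s) (h := h) (η := η) (p := p) (M := M) (N := Nt) hrr (m := i + 3) le_rfl le_rfl hxb Q
  rw [e3] at harm
  have hZB : ∀ z ∈ (Icc x (x + ((r (u + (i + 3)) - r u : ℕ) : ℤ))).filter Q, z ∈ bx r u x Rb (u + (i + 3)) := by
    intro z hz
    obtain ⟨z1, z2⟩ := mem_filter.1 hz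
    rw [mem_Icc] at z1
    unfold bx at hxb ⊢
    rw [mem_Icc] at hxb ⊢
    omega
  have hT1 : (0 : ℝ) ≤ T (u + (i + 1)) := Nat.cast_nonneg _
  have key := H2 q₂ hq₂ T u i j (Θ ^ 2) Λ δ (one_le_pow₀ hΘ) hΘ2 (hn2.trans (hL.T1 u le_rfl (by omega))) hT (le_of_eq hΛ.symm) (by
      rw [hδ]
      rcases min_choice δ' δ₁ with h1 | h1
      · rw [h1]; linarith only [hcone]
      · rw [h1]; linarith only [hcone'])
    q' (lt μ s κ r) (kk μ s h η p M r) (bx r u x Rb) (fun v g => Wg v ∣ g) ρ (κ.2 + sl μ s * ((r u : ℝ) - κ.1)) hsys' hstp' hq'' hρ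
    (fun z => lt_eq κ r u z) (bh16 μ s h η p M Nt (r u)) (bh16 μ s h η p M Nt (r (u + (i + 3))))
    ((Icc x (x + ((r (u + (i + 3)) - r u : ℕ) : ℤ))).filter Q) x x' hbpos (hbpos' _)
    (by rw [lt_eq] at hx; rw [← sub_sub]; exact hx) (by rw [lt_eq] at hx'; rw [← sub_sub]; exact hx') hxx
    (fun z hz => by
      obtain ⟨z1, z2⟩ := mem_filter.1 hz
      rw [mem_Icc] at z1
      exact ⟨hZB z hz, hQ z z1.1 z1.2 z2⟩) harm (by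
      rw [e2]
      exact sum_le_sum_of_subset_of_nonneg hZB fun z _ _ => mul_nonneg (cmp_nonneg hsys.k0 _ _ _ _ _) (hbpos _))
  rw [← pow_mul] at key
  rw [show 4 * i = 2 * (2 * i) by ring]
  refine key.trans (mul_le_mul_of_nonneg_right (Real.exp_le_exp.2 (mul_le_mul_of_nonneg_right hq₂' ?_)) (hbpos' _))
  have hE' := EE_pos (μ := μ) (s := s) (T (u + i))
  positivity

end

end Pool.Agent.W_7d29a1_C1.U16
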