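import Pool.Agent.W_7d29a1_C1.LRB84

/-!
[C1] attractor route: `DD84.lrb_one` of helper84 with the constant explicit in the level `q₀` (`A (1 + q₀) ^ 2`, `A` before `q₀`). (helper16)
-/

set_option autoImplicit false

namespace Pool.Agent.W_7d29a1_C1.U16

open MeasureTheory ProbabilityTheory Filter Topology
open Pool.Agent.W_7d29a1_F Pool.Agent.W_7d29a1_h4g Pool.Agent.W_7d29a1_H Pool.Agent.W_7d29a1_HS
open Pool.Agent.W_7d29a1_C1.FarK89 Pool.Agent.W_7d29a1_C1.DD84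

noncomputable section

variable {μ : Measure ℝ} [IsProbabilityMeasure μ] {s c C : ℝ} {n₀ : ℕ}

/-- **TWO PLACES AT A FAR LATERAL POSITION**, one pair, the constant is explicit in the level `q₀` (copy of `DD84.lrb_one`). -/
theorem lrq_one (h : In μ s c C n₀) (P : ℕ) {cc c₁ c₂ c₃ B₂ : ℝ} (hc₁ : 0 < c₁) (hc₂ : 0 ≤ c₂) (hc₃ : 0 ≤ c₃) (hcc : c₁ + c₂ + c₃ ≤ cc)
    (hB₂ : 2 ≤ B₂) : ∃ K₀ : ℕ, 2 ≤ K₀ ∧ ∀ κ' K₁ S₀ R Y Bp : ℝ, 2 ≤ κ' → 1 ≤ K₁ → 0 ≤ S₀ → 0 ≤ R → 1 ≤ Y → 2 ≤ Bp → ∀ b : ℕ,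
    ∃ (A : ℝ) (j₀ n₁ : ℕ), 0 ≤ A ∧ 1 ≤ n₁ ∧ ∀ (q₀ : ℝ), 0 ≤ q₀ → ∀ (T : ℕ → ℕ) (u i j : ℕ) (θ Λ δ : ℝ), 1 ≤ θ → θ ≤ 2 → n₁ ≤ T u →
    (∀ v, u ≤ v → v < u + (i + 2) → K₀ * T v ≤ T (v + 1) ∧ T (v + 1) ≤ b * T v) →
    (R + K₁ + Y + 1) * (Bp ^ j * wd μ s (T (u + (i + 2)))) ≤ Λ → 2 ^ (j + j₀) * wd μ s (T (u + (i + 1))) ≤ δ * T (u + (i + 1)) →
    ∀ (q : ℕ → ℝ) (ℓ : ℕ → ℤ → ℝ) (k : ℕ → ℤ → ℤ → ℝ) (B : ℕ → Finset ℤ) (Gr : ℕ → ℤ → Prop) (r β : ℝ),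
    Sys84 μ s P cc c₂ κ' S₀ r T q ℓ k B u (u + (i + 3)) → Stp84 μ s Bp B₂ Λ δ T q ℓ k B Gr u (u + (i + 3)) →
    (∀ v, u ≤ v → v < u + (i + 3) → q v ≤ q₀ * θ ^ (v - u)) → |r| ≤ R * wd μ s (T u) → (∀ x : ℤ, ℓ u x = x - β) →
    ∀ (F G : ℤ → ℝ) (Z : Finset ℤ) (x x' : ℤ), (∀ z, 0 ≤ G z) → 0 ≤ F x' →
    |(x : ℝ) - (β + r)| ≤ K₁ * (Bp ^ j * wd μ s (T (u + i))) → |(x' : ℝ) - (β + r)| ≤ K₁ * (Bp ^ j * wd μ s (T (u + i))) →
    |(x : ℝ) - x'| ≤ 2 * K₁ * wd μ s (T (u + i)) →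
    (∀ z ∈ Z, z ∈ B (u + (i + 3)) ∧ |ℓ (u + (i + 3)) z - ℓ u x| ≤ Y * 2 ^ j * wd μ s (T (u + (i + 2)))) →
    F x ≤ 2 * ∑ z ∈ Z, cmp k B (i + 3) u x z * G z → ∑ z ∈ Z, cmp k B (i + 3) u x' z * G z ≤ F x' →
    F x ≤ Real.exp (A * (1 + q₀) ^ 2 * (B₂ ^ j * θ ^ (2 * i) * EE μ s (T (u + i)))) * F x' := by
  obtain ⟨D', K₀, n₂, hD1, hK2, hn2, henv⟩ := env84 h P
  refine ⟨K₀, hK2, fun κ' K₁ S₀ R Y Bp hκ' hK₁ hS₀ hR hY hBp b => ?_⟩
  have hCL := CL_pos P hc₁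
  have hD0 : 0 < D' := by linarith
  have hκ'0 : 0 < κ' := by linarith
  obtain ⟨Bw, n₃, hBw2, hn3, hBw⟩ := wd_next h b
  obtain ⟨Cg, hCg1, hCg⟩ := gr_exp P (a := R + K₁ + Y + 1 + κ') (b := Bp) (by linarith) (by linarith)
  obtain ⟨j₀, hj₀⟩ : ∃ j₀ : ℕ, 2 + Y * Bw + 2 * K₁ + R ≤ 2 ^ j₀ := by
    obtain ⟨N, hN⟩ := exists_nat_ge (2 + Y * Bw + 2 * K₁ + R)
    exact ⟨N, hN.trans (by exact_mod_cast Nat.lt_two_pow_self.le)⟩
  obtain ⟨A₀, hA₀⟩ : ∃ A₀ : ℝ, A₀ = (CL P c₁ * (1 + 4 * D') ^ 2 * Cg + S₀ * D' + 4 * D' * Cg) * (2 * b * (2 * b)) +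
      2 * B₂ ^ j₀ * (2 * b) + 1 := ⟨_, rfl⟩
  have hB₂00 : 0 < B₂ := by linarith
  refine ⟨A₀, j₀, max n₂ n₃, by rw [hA₀]; positivity, hn2.trans (le_max_left _ _), ?_⟩
  intro q₀ hq₀
  -- the constants
  obtain ⟨A₂, hA₂⟩ : ∃ A₂ : ℝ, A₂ = CL P c₁ * (1 + 4 * q₀ * D') ^ 2 := ⟨_, rfl⟩
  have hA20 : 0 < A₂ := by rw [hA₂]; positivity
  obtain ⟨A₃, hA₃⟩ : ∃ A₃ : ℝ, A₃ = A₂ * Cg + S₀ * D' + 4 * q₀ * D' * Cg := ⟨_, rfl⟩
  have hA30 : 0 ≤ A₃ := by rw [hA₃]; positivity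
  have hB₂0 : 0 < B₂ := hB₂00
  obtain ⟨A₄, hA₄⟩ : ∃ A₄ : ℝ, A₄ = 2 * q₀ * B₂ ^ j₀ := ⟨_, rfl⟩
  have hA40 : 0 ≤ A₄ := by rw [hA₄]; positivity
  have hAfin : A₃ * (2 * b * (2 * b)) + A₄ * (2 * b) + 1 ≤ A₀ * (1 + q₀) ^ 2 := by
    have t1 : 1 ≤ 1 + q₀ := by linarith
    have t2 : 1 ≤ (1 + q₀) ^ 2 := one_le_pow₀ t1
    have t3 : q₀ ≤ (1 + q₀) ^ 2 := by nlinarith only [hq₀]
    have t4 : (1 + 4 * q₀ * D') ^ 2 ≤ (1 + 4 * D') ^ 2 * (1 + q₀) ^ 2 := by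
      rw [← mul_pow]
      refine pow_le_pow_left₀ (by positivity) ?_ 2
      have t5 : (1 + 4 * D') * (1 + q₀) = 1 + 4 * q₀ * D' + (q₀ + 4 * D') := by ring
      rw [t5]
      have : 0 ≤ q₀ + 4 * D' := by positivity
      linarith only [this]
    have t6 : A₃ ≤ (CL P c₁ * (1 + 4 * D') ^ 2 * Cg + S₀ * D' + 4 * D' * Cg) * (1 + q₀) ^ 2 := by
      rw [hA₃, hA₂]
      have t7 : CL P c₁ * (1 + 4 * q₀ * D') ^ 2 * Cg ≤ CL P c₁ * ((1 + 4 * D') ^ 2 * (1 + q₀) ^ 2) * Cg :=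
        mul_le_mul_of_nonneg_right (mul_le_mul_of_nonneg_left t4 hCL.le) (by linarith only [hCg1])
      have t8 : S₀ * D' * 1 ≤ S₀ * D' * (1 + q₀) ^ 2 := mul_le_mul_of_nonneg_left t2 (by positivity)
      have t9 : 4 * D' * Cg * q₀ ≤ 4 * D' * Cg * (1 + q₀) ^ 2 := mul_le_mul_of_nonneg_left t3 (by positivity)
      linarith only [t7, t8, t9, show CL P c₁ * ((1 + 4 * D') ^ 2 * (1 + q₀) ^ 2) * Cg = CL P c₁ * (1 + 4 * D') ^ 2 * Cg * (1 + q₀) ^ 2 by ring,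
        show 4 * D' * Cg * q₀ = 4 * q₀ * D' * Cg by ring,
        show (CL P c₁ * (1 + 4 * D') ^ 2 * Cg + S₀ * D' + 4 * D' * Cg) * (1 + q₀) ^ 2 = CL P c₁ * (1 + 4 * D') ^ 2 * Cg * (1 + q₀) ^ 2 +
          S₀ * D' * (1 + q₀) ^ 2 + 4 * D' * Cg * (1 + q₀) ^ 2 by ring]
    have t10 : A₄ ≤ 2 * B₂ ^ j₀ * (1 + q₀) ^ 2 := by
      rw [hA₄]
      have t11 : 0 ≤ 2 * B₂ ^ j₀ := by positivity
      have := mul_le_mul_of_nonneg_left t3 t11
      linarith only [this, show 2 * q₀ * B₂ ^ j₀ = 2 * B₂ ^ j₀ * q₀ by ring]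
    have t12 := mul_le_mul_of_nonneg_right t6 (show (0 : ℝ) ≤ 2 * b * (2 * b) by positivity)
    have t13 := mul_le_mul_of_nonneg_right t10 (show (0 : ℝ) ≤ 2 * b by positivity)
    rw [hA₀]
    linarith only [t12, t13, t2, show ((CL P c₁ * (1 + 4 * D') ^ 2 * Cg + S₀ * D' + 4 * D' * Cg) * (2 * b * (2 * b)) +
      2 * B₂ ^ j₀ * (2 * b) + 1) * (1 + q₀) ^ 2 = (CL P c₁ * (1 + 4 * D') ^ 2 * Cg + S₀ * D' + 4 * D' * Cg) * (1 + q₀) ^ 2 * (2 * b * (2 * b)) +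
      2 * B₂ ^ j₀ * (1 + q₀) ^ 2 * (2 * b) + (1 + q₀) ^ 2 by ring]
  intro T u i j θ Λ δ hθ hθ2 hT0 hT hΛ hcone q ℓ k B Gr r β hsys hstp hq hr hℓ F G Z x x' hG hF0 hx hx' hxx hZ hF hF'
  have g2 : n₂ ≤ T u := (le_max_left _ _).trans hT0
  have g3 : n₃ ≤ T u := (le_max_right _ _).trans hT0
  have hTu1 : 1 ≤ T u := hn2.trans g2
  have hK1 : 1 ≤ K₀ := by omega
  have hmon1 : ∀ v, u ≤ v → v < u + (i + 2) → T v ≤ T (v + 1) := fun v hv hv' =>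
    (Nat.le_mul_of_pos_left _ hK1).trans (hT v hv hv').1
  have hmon : ∀ a, a ≤ i + 2 → T u ≤ T (u + a) := by
    intro a
    induction a with
    | zero => intro _; exact le_rfl
    | succ a ih =>
      intro ha
      rw [show u + (a + 1) = u + a + 1 by omega]
      exact (ih (by omega)).trans (hmon1 (u + a) (by omega) (by omega))
  -- the envelope
  obtain ⟨e, s', hE, he, hs⟩ := henv (cc := cc) (c₂ := c₂) (κ' := κ') (S₀ := S₀) (r := r) (q₀ := q₀) (θ := θ) (T := T) (q := q)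
    (ℓ := ℓ) (k := k) (B := B) (u := u) (i := i + 1) (M := u + (i + 3)) (by linarith) hc₂ hS₀ hq₀ hθ g2
    (fun v hv hv' => (hT v hv (by omega)).1) (by omega) hsys (fun v hv hv' => hq v hv (by omega))
  rw [show i + 1 + 1 = i + 2 by omega, show i + 1 + 2 = i + 3 by omega] at hE
  rw [show i + 1 + 2 = i + 3 by omega, show i + 1 + 1 = i + 2 by omega] at he
  rw [show i + 1 + 2 = i + 3 by omega] at hs
  obtain ⟨wt, hwt⟩ : ∃ wt, wt = wd μ s (T (u + (i + 2))) := ⟨_, rfl⟩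
  obtain ⟨Et, hEt⟩ : ∃ Et, Et = EE μ s (T (u + (i + 2))) := ⟨_, rfl⟩
  obtain ⟨wv, hwv⟩ : ∃ wv, wv = wd μ s (T (u + (i + 1))) := ⟨_, rfl⟩
  obtain ⟨Ev, hEv⟩ : ∃ Ev, Ev = EE μ s (T (u + (i + 1))) := ⟨_, rfl⟩
  obtain ⟨wi, hwi⟩ : ∃ wi, wi = wd μ s (T (u + i)) := ⟨_, rfl⟩
  obtain ⟨Ei, hEi⟩ : ∃ Ei, Ei = EE μ s (T (u + i)) := ⟨_, rfl⟩
  rw [← hwt, ← hEt] at hE
  have hwt0 : 0 < wt := hE.wt0
  have hEt0 : 0 < Et := hE.Et0
  have hw2 : ∀ v, u ≤ v → v < u + (i + 3) → 2 ≤ wd μ s (T v) := by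
    intro v hv hv'
    have h1 : T u ≤ T v := by
      have := hmon (v - u) (by omega)
      rwa [show u + (v - u) = v by omega] at this
    have h2 := wd_ge_one h (hTu1.trans h1)
    have h3 := one_le_EE (μ := μ) (s := s) (T v)
    linarith
  have hwi2 : 2 ≤ wi := by rw [hwi]; exact hw2 _ (by omega) (by omega)
  have hwv2 : 2 ≤ wv := by rw [hwv]; exact hw2 _ (by omega) (by omega)
  have hEi1 : 1 ≤ Ei := by rw [hEi]; exact one_le_EE _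
  have hEv0 : 0 < Ev := by rw [hEv]; exact EE_pos _
  have hwvt : wv ≤ wt := by
    rw [hwv]
    exact hE.wle _ (by omega) (by omega)
  have hwit : wi ≤ wt := by
    rw [hwi]
    exact hE.wle _ (by omega) (by omega)
  have hwut : wd μ s (T u) ≤ wt := hE.wle u le_rfl (by omega)
  have hwuv : wd μ s (T u) ≤ wv ∧ wi ≤ wv := by
    obtain ⟨e', s'', hE', -, -⟩ := henv (cc := cc) (c₂ := c₂) (κ' := κ') (S₀ := S₀) (r := r) (q₀ := q₀) (θ := θ) (T := T) (q := q)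
      (ℓ := ℓ) (k := k) (B := B) (u := u) (i := i) (M := u + (i + 3)) (by linarith) hc₂ hS₀ hq₀ hθ g2
      (fun v hv hv' => (hT v hv (by omega)).1) (by omega) hsys (fun v hv hv' => hq v hv (by omega))
    rw [hwv, hwi]
    exact ⟨hE'.wle u le_rfl (by omega), hE'.wle (u + i) (by omega) (by omega)⟩
  obtain ⟨hwuv, hwiv⟩ := hwuv
  have hBj1 : 1 ≤ Bp ^ j := one_le_pow₀ (by linarith)
  have h2j1 : (1 : ℝ) ≤ 2 ^ j := one_le_pow₀ (by norm_num)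
  have h2Bw : (2 : ℝ) ^ j ≤ Bp ^ j := pow_le_pow_left₀ (by norm_num) hBp j
  have hwi0 : 0 ≤ wi := by linarith
  -- lateral positions
  have hrw : |r| ≤ R * wi := by
    refine hr.trans (mul_le_mul_of_nonneg_left ?_ hR)
    have : wd μ s (T u) ≤ wi := by
      rcases Nat.eq_zero_or_pos i with h0 | h0
      · rw [hwi, h0, add_zero]
      · obtain ⟨e', s'', hE', -, -⟩ := henv (cc := cc) (c₂ := c₂) (κ' := κ') (S₀ := S₀) (r := r) (q₀ := q₀) (θ := θ) (T := T) (q := q)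
          (ℓ := ℓ) (k := k) (B := B) (u := u) (i := i - 1) (M := u + (i + 3)) (by linarith) hc₂ hS₀ hq₀ hθ g2
          (fun v hv hv' => (hT v hv (by omega)).1) (by omega) hsys (fun v hv hv' => hq v hv (by omega))
        rw [show i - 1 + 1 = i by omega] at hE'
        rw [hwi]
        exact hE'.wle u le_rfl (by omega)
    exact this
  have hlat : ∀ y : ℤ, |(y : ℝ) - (β + r)| ≤ K₁ * (Bp ^ j * wi) → |ℓ u y| ≤ (R + K₁) * (Bp ^ j * wi) := by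
    intro y hy
    rw [hℓ]
    have h1 := abs_add_le ((y : ℝ) - (β + r)) r
    rw [show (y : ℝ) - (β + r) + r = y - β by ring] at h1
    have h3 : R * wi ≤ R * (Bp ^ j * wi) := mul_le_mul_of_nonneg_left (le_mul_of_one_le_left hwi0 hBj1) hR
    linarith
  rw [← hwi] at hx hx'
  have hlx := hlat x hx
  have hlx' := hlat x' hx'
  have hll : ℓ u x - ℓ u x' = x - x' := by rw [hℓ, hℓ]; ring
  rw [← hwt] at hZ hΛ
  have hRK : 0 ≤ R + K₁ := by linarith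
  have hBit : Bp ^ j * wi ≤ Bp ^ j * wt := mul_le_mul_of_nonneg_left hwit (by positivity)
  have hΛ1 : (R + K₁) * (Bp ^ j * wi) ≤ Λ := by
    refine le_trans ?_ hΛ
    exact mul_le_mul (by linarith) hBit (by positivity) (by linarith)
  have hY0 : 0 ≤ Y := by linarith
  have hθi : 1 ≤ θ ^ i := one_le_pow₀ hθ
  have hθi0 : 0 < θ ^ i := by linarith
  have hθ2i : θ ^ (2 * i) = θ ^ i * θ ^ i := by rw [two_mul, pow_add]
  have hθθ : θ ^ i ≤ θ ^ (2 * i) := by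
    rw [hθ2i]
    exact le_mul_of_one_le_left hθi0.le hθi
  have h2B : (2 : ℝ) ^ j ≤ B₂ ^ j := pow_le_pow_left₀ (by norm_num) hB₂ j
  have hB2j1 : 1 ≤ B₂ ^ j := h2j1.trans h2B
  have hQt : q₀ * D' * θ ^ (i + 2) ≤ 4 * q₀ * D' * θ ^ i := by
    rw [pow_add]
    have h1 : θ ^ 2 ≤ 4 := by nlinarith only [hθ, hθ2]
    have h2 : 0 ≤ q₀ * D' * θ ^ i := by positivity
    have := mul_le_mul_of_nonneg_left h1 h2
    linarith
  have hQt0 : 0 ≤ q₀ * D' * θ ^ (i + 2) := by positivity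
  have hgx : ∀ X : ℝ, 0 ≤ X → X ≤ (R + K₁ + Y + 1 + κ') * (Bp ^ j * wt) → gr P (X / wt) ≤ Cg * 2 ^ j := by
    intro X hX0 hX
    refine hCg j (X / wt) (by positivity) ?_
    rw [div_le_iff₀ hwt0, mul_assoc]
    exact hX
  have hBwt : Bp ^ j * wi ≤ Bp ^ j * wt := hBit
  have hwtB : wt ≤ Bp ^ j * wt := le_mul_of_one_le_left hwt0.le hBj1
  obtain ⟨W, hW⟩ : ∃ W, W = Bp ^ j * wt := ⟨_, rfl⟩
  rw [← hW] at hBwt hwtB hgx hΛ
  have hW0 : 0 ≤ W := by linarith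
  have hlxW := hlx.trans (mul_le_mul_of_nonneg_left hBwt hRK)
  have hlxW' := hlx'.trans (mul_le_mul_of_nonneg_left hBwt hRK)
  have hzlat : ∀ z ∈ Z, |ℓ (u + (i + 3)) z| ≤ |ℓ u x| + Y * 2 ^ j * wt := by
    intro z hz
    have h1 := (hZ z hz).2
    have h2 := abs_add_le (ℓ (u + (i + 3)) z - ℓ u x) (ℓ u x)
    rw [sub_add_cancel] at h2
    linarith
  have hYW : Y * 2 ^ j * wt ≤ Y * W := by
    rw [hW, mul_assoc]
    exact mul_le_mul_of_nonneg_left (mul_le_mul_of_nonneg_right h2Bw hwt0.le) hY0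
  -- the grid points
  have hgrid1 := hstp.grid (ℓ u x') (hlx'.trans hΛ1) (u + i) (by omega) (by omega)
  obtain ⟨p₁, hp₁, hG₁, hd₁⟩ := hgrid1
  rw [← hwi] at hd₁
  have hfin := lr_env (u := u) (m := i) hE (κ := κ') (c₁ := c₁) (c₃ := c₃) (Q := q₀ * D' * θ ^ (i + 2)) (S := S₀ * D') (Pa := 2)
    (g := Cg * 2 ^ j) (st := q (u + (i + 1)) * B₂ ^ (j + j₀) * Ev) hc₁ hc₃ hcc he hs (by linarith) hw2
    (fun v hv hv' => hsys.low v hv (by omega)) (F := F) (G := G) hG (Z := Z) (by norm_num) (x := x) (x' := x') hF hF'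
    (fun v hv hv' => hstp.line (ℓ u x') (hlx'.trans hΛ1) v hv (by omega)) ?_ ?_
  · rw [← hEi]
    refine hfin.trans (mul_le_mul_of_nonneg_right ?_ hF0)
    have hLQ : LQ P c₁ (q₀ * D' * θ ^ (i + 2)) ≤ A₂ * θ ^ (2 * i) := by
      refine (lq_le P hc₁ hQt0).trans ?_
      rw [hA₂, hθ2i]
      have h1 : 1 + q₀ * D' * θ ^ (i + 2) ≤ (1 + 4 * q₀ * D') * θ ^ i := by linarith
      have h2 := pow_le_pow_left₀ (by positivity) h1 2
      have h3 := mul_le_mul_of_nonneg_left h2 hCL.le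
      linarith [show CL P c₁ * ((1 + 4 * q₀ * D') * θ ^ i) ^ 2 = CL P c₁ * (1 + 4 * q₀ * D') ^ 2 * (θ ^ i * θ ^ i) by ring]
    have hgrx : gr P (|ℓ u x| / wt) ≤ Cg * 2 ^ j := by
      refine hgx _ (abs_nonneg _) ?_
      have h3 : 0 ≤ (Y + 1 + κ') * W := by positivity
      linarith
    obtain ⟨X, hX⟩ : ∃ X, X = B₂ ^ j * θ ^ (2 * i) := ⟨_, rfl⟩
    have hθ2i0 : 0 < θ ^ (2 * i) := by positivity
    have hX1 : 1 ≤ X := by
      rw [hX]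
      exact one_le_mul_of_one_le_of_one_le hB2j1 (hθi.trans hθθ)
    have k1 : LQ P c₁ (q₀ * D' * θ ^ (i + 2)) * gr P (|ℓ u x| / wt) ≤ A₂ * Cg * X := by
      calc LQ P c₁ (q₀ * D' * θ ^ (i + 2)) * gr P (|ℓ u x| / wt) ≤ (A₂ * θ ^ (2 * i)) * (Cg * 2 ^ j) :=
            mul_le_mul hLQ hgrx (gr_nonneg P (by positivity)) (by positivity)
        _ = A₂ * Cg * (2 ^ j * θ ^ (2 * i)) := by ring
        _ ≤ A₂ * Cg * X := by
          rw [hX]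
          exact mul_le_mul_of_nonneg_left (mul_le_mul_of_nonneg_right h2B hθ2i0.le) (by positivity)
    have k2 : S₀ * D' ≤ S₀ * D' * X := le_mul_of_one_le_right (by positivity) hX1
    have k3 : q₀ * D' * θ ^ (i + 2) * (Cg * 2 ^ j) ≤ 4 * q₀ * D' * Cg * X := by
      calc q₀ * D' * θ ^ (i + 2) * (Cg * 2 ^ j) ≤ (4 * q₀ * D' * θ ^ (2 * i)) * (Cg * 2 ^ j) := by
            refine mul_le_mul_of_nonneg_right (hQt.trans ?_) (by positivity)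
            exact mul_le_mul_of_nonneg_left hθθ (by positivity)
        _ = 4 * q₀ * D' * Cg * (2 ^ j * θ ^ (2 * i)) := by ring
        _ ≤ _ := by
          rw [hX]
          exact mul_le_mul_of_nonneg_left (mul_le_mul_of_nonneg_right h2B hθ2i0.le) (by positivity)
    have hscale : ∀ v, u ≤ v → v < u + (i + 2) → EE μ s (T (v + 1)) ≤ 2 * b * EE μ s (T v) := by
      intro v hv hv'
      have h0 : T u ≤ T v := by
        have := hmon (v - u) (by omega)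
        rwa [show u + (v - u) = v by omega] at this
      have h3 := scale_b h (hTu1.trans h0) (hmon1 v hv hv')
      have hTi : (0 : ℝ) < T v := by exact_mod_cast hTu1.trans h0
      have h4 : (T (v + 1) : ℝ) ≤ b * T v := by exact_mod_cast (hT v hv hv').2
      have hEi := EE_pos (μ := μ) (s := s) (T v)
      have h5 : (T v : ℝ) * EE μ s (T (v + 1)) ≤ T v * (2 * b * EE μ s (T v)) := by
        have h6 := mul_le_mul_of_nonneg_right h4 hEi.le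
        linarith
      exact le_of_mul_le_mul_left h5 hTi
    have kE1 : Ev ≤ 2 * b * Ei := by
      rw [hEv, hEi]
      exact hscale (u + i) (by omega) (by omega)
    have kE2 : Et ≤ 2 * b * Ev := by
      rw [hEv, hEt]
      exact hscale (u + (i + 1)) (by omega) (by omega)
    have kE3 : Et ≤ 2 * b * (2 * b) * Ei := by
      have := mul_le_mul_of_nonneg_left kE1 (show (0 : ℝ) ≤ 2 * b by positivity)
      linarith
    have k4 : (LQ P c₁ (q₀ * D' * θ ^ (i + 2)) * gr P (|ℓ u x| / wt) + S₀ * D' + q₀ * D' * θ ^ (i + 2) * (Cg * 2 ^ j)) * Et ≤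
        A₃ * (2 * b * (2 * b)) * (X * Ei) := by
      have h1 : LQ P c₁ (q₀ * D' * θ ^ (i + 2)) * gr P (|ℓ u x| / wt) + S₀ * D' + q₀ * D' * θ ^ (i + 2) * (Cg * 2 ^ j) ≤ A₃ * X := by
        rw [hA₃]
        linarith [show (A₂ * Cg + S₀ * D' + 4 * q₀ * D' * Cg) * X = A₂ * Cg * X + S₀ * D' * X + 4 * q₀ * D' * Cg * X by ring]
      calc _ ≤ A₃ * X * Et := mul_le_mul_of_nonneg_right h1 hEt0.le
        _ ≤ A₃ * X * (2 * b * (2 * b) * Ei) := mul_le_mul_of_nonneg_left kE3 (by positivity)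
        _ = _ := by ring
    have k5 : q (u + (i + 1)) * B₂ ^ (j + j₀) * Ev ≤ A₄ * (2 * b) * (X * Ei) := by
      have h1 : q (u + (i + 1)) ≤ 2 * q₀ * θ ^ (2 * i) := by
        have h2 := hq (u + (i + 1)) (by omega) (by omega)
        rw [show u + (i + 1) - u = i + 1 by omega, pow_succ] at h2
        have h3 : q₀ * (θ ^ i * θ) ≤ q₀ * (θ ^ (2 * i) * 2) :=
          mul_le_mul_of_nonneg_left (mul_le_mul hθθ hθ2 (by linarith) hθ2i0.le) hq₀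
        linarith
      have h2 : q (u + (i + 1)) * B₂ ^ (j + j₀) ≤ A₄ * X := by
        calc q (u + (i + 1)) * B₂ ^ (j + j₀) ≤ (2 * q₀ * θ ^ (2 * i)) * B₂ ^ (j + j₀) :=
              mul_le_mul_of_nonneg_right h1 (by positivity)
          _ = A₄ * X := by rw [hA₄, hX, pow_add]; ring
      calc q (u + (i + 1)) * B₂ ^ (j + j₀) * Ev ≤ A₄ * X * Ev := mul_le_mul_of_nonneg_right h2 hEv0.le
        _ ≤ A₄ * X * (2 * b * Ei) := mul_le_mul_of_nonneg_left kE1 (by positivity)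
        _ = _ := by ring
    have k6 : (2 : ℝ) ≤ Real.exp (X * Ei) := by
      have h5 : 1 ≤ X * Ei := one_le_mul_of_one_le_of_one_le hX1 hEi1
      have h6 := Real.add_one_le_exp (X * Ei)
      linarith
    rw [← hX]
    calc 2 * Real.exp ((LQ P c₁ (q₀ * D' * θ ^ (i + 2)) * gr P (|ℓ u x| / wt) + S₀ * D' + q₀ * D' * θ ^ (i + 2) * (Cg * 2 ^ j)) * Et +
          q (u + (i + 1)) * B₂ ^ (j + j₀) * Ev) ≤
        Real.exp (X * Ei) * Real.exp (A₃ * (2 * b * (2 * b)) * (X * Ei) + A₄ * (2 * b) * (X * Ei)) :=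
          mul_le_mul k6 (Real.exp_le_exp.2 (add_le_add k4 k5)) (Real.exp_pos _).le (Real.exp_pos _).le
      _ = Real.exp ((A₃ * (2 * b * (2 * b)) + A₄ * (2 * b) + 1) * (X * Ei)) := by
        rw [← Real.exp_add]
        congr 1
        ring
      _ ≤ _ := Real.exp_le_exp.2 (mul_le_mul_of_nonneg_right hAfin (mul_nonneg (by linarith only [hX1]) (by linarith only [hEi1])))
  · have h1 : |ℓ u x'| / wt + κ' = (|ℓ u x'| + κ' * wt) / wt := by field_simp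
    rw [h1]
    refine hgx _ (by positivity) ?_
    have h2 := mul_le_mul_of_nonneg_left hwtB hκ'0.le
    have h3 : 0 ≤ (Y + 1) * W := by positivity
    linarith
  · intro z hz
    refine ⟨(hZ z hz).1, p₁, hp₁, ?_⟩
    have hz1 := hzlat z hz
    obtain ⟨p₂, hp₂, hG₂, hd₂⟩ := hstp.grid (ℓ (u + (i + 3)) z) (by
      refine hz1.trans (le_trans ?_ hΛ)
      linarith [show (R + K₁ + Y + 1) * W = (R + K₁) * W + Y * W + W by ring])
      (u + (i + 1)) (by omega) (by omega)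
    rw [← hwv] at hd₂
    refine ⟨p₂, hp₂, ?_, ?_, ?_, ?_⟩
    · rw [← hwi]
      have h1 := mul_le_mul_of_nonneg_right hκ' hwi0
      have h2 : |ℓ (u + (i + 1)) p₁ - ℓ u x'| ≤ wi := hd₁
      linarith
    · have hst := hstp.steep (u + (i + 1)) (by omega) (by omega) (j + j₀) p₁ hp₁ p₂ hp₂ hG₁ hG₂ ?_ ?_ hcone
      · rw [← hEv] at hst
        exact hst
      · rw [← hwv]
        have h1 : |ℓ (u + (i + 1)) p₁ - ℓ u x'| ≤ wi := hd₁
        have h2 := abs_add_le (ℓ (u + (i + 1)) p₁ - ℓ u x') (ℓ u x')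
        rw [sub_add_cancel] at h2
        have h3 : Bp ^ j * wi ≤ Bp ^ j * wv := mul_le_mul_of_nonneg_left hwiv (by positivity)
        have h4 : wi ≤ Bp ^ j * wv := hwiv.trans (le_mul_of_one_le_left (by linarith) hBj1)
        have h5 := mul_le_mul_of_nonneg_left h3 hRK
        have h6 : (R + K₁ + 1) * (Bp ^ j * wv) ≤ Bp ^ j₀ * (Bp ^ j * wv) := by
          have a1 : R + K₁ + 1 ≤ Bp ^ j₀ := by
            have a2 : (2 : ℝ) ^ j₀ ≤ Bp ^ j₀ := pow_le_pow_left₀ (by norm_num) hBp j₀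
            have a3 : 0 ≤ Y * Bw := by positivity
            linarith
          exact mul_le_mul_of_nonneg_right a1 (by positivity)
        rw [pow_add]
        linarith [show Bp ^ j * Bp ^ j₀ * wv = Bp ^ j₀ * (Bp ^ j * wv) by ring]
      · rw [← hwv]
        have h1 : |ℓ (u + (i + 1)) p₁ - ℓ u x'| ≤ wi := hd₁
        have h3 : |ℓ (u + (i + 2)) p₂ - ℓ (u + (i + 3)) z| ≤ wv := hd₂
        have h5 := (hZ z hz).2
        have h6 : |ℓ u x - ℓ u x'| ≤ 2 * K₁ * wi := by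
          rw [hll, hwi]
          exact hxx
        have h7 : wt ≤ Bw * wv := by
          rw [hwt, hwv]
          exact hBw _ _ (g3.trans (hmon (i + 1) (by omega))) (hmon1 (u + (i + 1)) (by omega) (by omega))
            (hT (u + (i + 1)) (by omega) (by omega)).2
        have t1 := abs_add_le (ℓ (u + (i + 2)) p₂ - ℓ (u + (i + 3)) z) (ℓ (u + (i + 3)) z - ℓ u x)
        rw [sub_add_sub_cancel] at t1
        have t2 := abs_add_le (ℓ (u + (i + 2)) p₂ - ℓ u x) (ℓ u x - ℓ u x')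
        rw [sub_add_sub_cancel] at t2
        have t3 := abs_add_le (ℓ (u + (i + 2)) p₂ - ℓ u x') (ℓ u x' - ℓ (u + (i + 1)) p₁)
        rw [sub_add_sub_cancel, abs_sub_comm (ℓ u x')] at t3
        have h8 : Y * 2 ^ j * wt ≤ (Y * Bw) * (2 ^ j * wv) := by
          calc Y * 2 ^ j * wt ≤ Y * 2 ^ j * (Bw * wv) := mul_le_mul_of_nonneg_left h7 (by positivity)
            _ = _ := by ring
        have hwv0 : 0 ≤ wv := by linarith
        have h9 : wv ≤ 2 ^ j * wv := le_mul_of_one_le_left hwv0 h2j1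
        have h10 : 2 * K₁ * wi ≤ 2 * K₁ * (2 ^ j * wv) := mul_le_mul_of_nonneg_left (hwiv.trans h9) (by linarith)
        have h11 : (2 + Y * Bw + 2 * K₁ + R) * (2 ^ j * wv) ≤ 2 ^ j₀ * (2 ^ j * wv) := mul_le_mul_of_nonneg_right hj₀ (by positivity)
        have h12 : 0 ≤ R * (2 ^ j * wv) := by positivity
        have h13 : |ℓ (u + (i + 1) + 1) p₂ - ℓ (u + (i + 1)) p₁| ≤ 2 ^ j₀ * (2 ^ j * wv) := by
          show |ℓ (u + (i + 2)) p₂ - ℓ (u + (i + 1)) p₁| ≤ 2 ^ j₀ * (2 ^ j * wv)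
          linarith [show (2 + Y * Bw + 2 * K₁ + R) * (2 ^ j * wv) = 2 ^ j * wv + 2 ^ j * wv + Y * Bw * (2 ^ j * wv) + 2 * K₁ * (2 ^ j * wv) +
            R * (2 ^ j * wv) by ring]
        rw [pow_add]
        linarith [show (2 : ℝ) ^ j * 2 ^ j₀ * wv = 2 ^ j₀ * (2 ^ j * wv) by ring]
    · have h3 : |ℓ (u + (i + 2)) p₂ - ℓ (u + (i + 3)) z| ≤ wv := hd₂
      rw [abs_sub_comm, ← hwt]
      have h4 := mul_le_mul_of_nonneg_right hκ' hwt0.le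
      linarith
    · refine hgx _ (abs_nonneg _) ?_
      have h3 : |ℓ (u + (i + 2)) p₂ - ℓ (u + (i + 3)) z| ≤ wv := hd₂
      have h4 := abs_add_le (ℓ (u + (i + 2)) p₂ - ℓ (u + (i + 3)) z) (ℓ (u + (i + 3)) z)
      rw [sub_add_cancel] at h4
      have h5 : 0 ≤ κ' * W := by positivity
      linarith

end

end Pool.Agent.W_7d29a1_C1.U16
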