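import Pool.Agent.W_7d29a1_C1.Tube71
/-!
MP_7d29a1_pr, [C1] attractor route, every tilt: THE LANES, every duration. `legG`: a displacement of the order of the width costs a
bounded number of units in a strip of the order of the width, with probability near one; `lane`: it gains any number of units with
positive probability; `chainV`: blocks of unequal durations; `tubeG`: the lucky tube of half width `d` widths, every duration.
(helper71)
-/

set_option autoImplicit false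

namespace Pool.Agent.W_7d29a1_C1.T71

open MeasureTheory ProbabilityTheory Filter Topology Finset
open Pool.Agent.W_7d29a1_F Pool.Agent.W_7d29a1_h4g Pool.Agent.W_7d29a1_H
open Pool.Agent.W_7d29a1_HS (In wd St cf md tubeIn_of wd_tendsto)
open Pool.Agent.W_7d29a1_HZ (wd' EE')
open Pool.Agent.W_7d29a1_HZ.ZE (lane_bd first_good WR_end)

noncomputable section

variable {μ : Measure ℝ} {s : ℝ} [IsProbabilityMeasure μ] {c C : ℝ} {n₀ : ℕ}

theorem wd'_ge (μ : Measure ℝ) (s : ℝ) (n : ℕ) : 1 ≤ wd' μ s n := le_max_left _ _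
theorem EE'_ge (μ : Measure ℝ) (s : ℝ) (n : ℕ) : 1 ≤ EE' μ s n := le_max_left _ _

/-- (L1) The legs, every duration. -/
theorem legG (h : In μ s c C n₀) : ∀ q C₃ : ℝ, 0 < q → 0 ≤ C₃ → ∃ A R : ℝ, 1 ≤ A ∧ 1 ≤ R ∧ ∃ n₁ : ℕ, ∀ n : ℕ, n₁ ≤ n →
    ∀ (a : Pt) (k : ℤ), |(k : ℝ) - sl μ s * n| ≤ C₃ * wd' μ s n →
      (law μ).real {η | WR μ s (St μ s (R * wd' μ s n) a) η a n k < Real.exp (-(A * EE' μ s n))} ≤ q := by
  intro q C₃ hq hC₃
  obtain ⟨R₀, C', hR₀, hC', n₁, hl⟩ := lane_bd h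
  obtain ⟨α, K, hα, hα1, hK, hw⟩ := Pool.Agent.W_7d29a1_HZ.wd'_pow h
  obtain ⟨α₂, K₂, hα₂, hα₂1, hK₂, hE⟩ := Pool.Agent.W_7d29a1_HZ.EE'_pow h
  obtain ⟨n₂, hn₂⟩ := Pool.Agent.W_7d29a1_HZ.wd'_eq h
  obtain ⟨n₃, hn₃⟩ := in_cone h C₃ hC₃
  have hc0 := h.c0
  obtain ⟨n₄, hn₄⟩ := eventually_atTop.1 ((wd_tendsto h).eventually_ge_atTop (4 / c))
  -- the number of blocks
  obtain ⟨Q, hQ2, hQ⟩ : ∃ Q : ℕ, 2 ≤ Q ∧ 8 * C₃ * K ^ 2 / c ≤ (2 * (Q : ℝ)) ^ α := by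
    have h1 : Tendsto (fun j : ℕ => (2 * (j : ℝ)) ^ α) atTop atTop :=
      (tendsto_rpow_atTop hα).comp (tendsto_natCast_atTop_atTop.const_mul_atTop (by norm_num))
    obtain ⟨Q, h2⟩ := ((h1.eventually_ge_atTop (8 * C₃ * K ^ 2 / c)).and (eventually_ge_atTop 2)).exists
    exact ⟨Q, h2.2, h2.1⟩
  have hQR : (2 : ℝ) ≤ Q := by exact_mod_cast hQ2
  obtain ⟨b, hb⟩ : ∃ b : ℝ, b = Q * C' / q := ⟨_, rfl⟩
  have hb0 : 0 < b := by rw [hb]; positivity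
  have hRK : 0 ≤ R₀ * K := mul_nonneg hR₀ (zero_le_one.trans hK)
  refine ⟨max 1 (2 * b * K₂), R₀ * K + 4 + 2 * C₃, le_max_left _ _, by linarith,
    Q * (n₁ + n₂ + n₃ + n₄ + Q + 1), fun n hn a k hk => ?_⟩
  obtain ⟨τ, hτ⟩ : ∃ τ : ℕ, τ = n / Q := ⟨_, rfl⟩
  have hQ0 : 0 < Q := by omega
  have hdm := Nat.div_add_mod n Q
  have hml := Nat.mod_lt n hQ0
  obtain ⟨ρ, hρ⟩ : ∃ ρ : ℕ, ρ = n % Q := ⟨_, rfl⟩
  rw [← hτ, ← hρ] at hdm
  rw [← hρ] at hml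
  have hτN : n₁ + n₂ + n₃ + n₄ + Q + 1 ≤ τ := by
    rw [hτ]
    exact (Nat.le_div_iff_mul_le hQ0).2 (by rw [mul_comm]; exact hn)
  obtain ⟨P, hP⟩ : ∃ P : ℕ, P = Q - 1 := ⟨_, rfl⟩
  have hP1 : 1 ≤ P := by omega
  have hPQ : P + 1 = Q := by omega
  obtain ⟨τ', hτ'⟩ : ∃ τ' : ℕ, τ' = τ + ρ := ⟨_, rfl⟩
  have hnn : P * τ + τ' = n := by
    rw [← hdm, ← hPQ, hτ']
    ring
  have hτ1 : 1 ≤ τ := by omega
  have hττ : τ ≤ τ' := by omega
  have hτ2 : τ' ≤ 2 * τ := by omega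
  have hτ'1 : 1 ≤ τ' := by omega
  have hτ'n : τ' ≤ n := by omega
  have hPτ : 1 ≤ P * τ := Nat.mul_pos hP1 hτ1
  have hPτn : P * τ ≤ n := by omega
  have hτn : τ ≤ n := hττ.trans hτ'n
  have hn1 : 1 ≤ n := hτ1.trans hτn
  have hnR : (0 : ℝ) < n := by exact_mod_cast hn1
  have hτR : (0 : ℝ) < τ := by exact_mod_cast hτ1
  have hτ'R : (0 : ℝ) < τ' := by exact_mod_cast hτ'1
  have hPR : (1 : ℝ) ≤ P := by exact_mod_cast hP1
  have hPτR : (0 : ℝ) < ((P * τ : ℕ) : ℝ) := by exact_mod_cast hPτ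
  have hww1 := wd'_ge μ s n
  have hτw1 := wd'_ge μ s τ
  have hτ'w1 := wd'_ge μ s τ'
  have hK0 : 0 < K := lt_of_lt_of_le one_pos hK
  obtain ⟨w1, w2, w3⟩ := hw τ n hτ1 hτn
  obtain ⟨w1', w2', w3'⟩ := hw τ' n hτ'1 hτ'n
  obtain ⟨w1'', w2'', w3''⟩ := hw τ τ' hτ1 hττ
  obtain ⟨e1, e2, e3⟩ := hn₂ τ (by omega)
  obtain ⟨e1', e2', e3'⟩ := hn₂ τ' (by omega)
  obtain ⟨hk0, hkn⟩ := hn₃ n (by omega) k hk
  -- the slope
  obtain ⟨v, hv⟩ : ∃ v : ℝ, v = (k : ℝ) / n := ⟨_, rfl⟩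
  have hv0 : 0 ≤ v := by
    rw [hv]
    have : (0 : ℝ) ≤ k := by exact_mod_cast hk0
    positivity
  have hv1 : v ≤ 1 := by
    rw [hv, div_le_one hnR]
    exact_mod_cast hkn
  have hvn : v * n = k := by rw [hv]; field_simp
  have hvd : |v - sl μ s| * n ≤ C₃ * wd' μ s n := by
    have h1 : |v - sl μ s| * n = |(k : ℝ) - sl μ s * n| := by
      have h2 : (k : ℝ) - sl μ s * n = (v - sl μ s) * n := by rw [← hvn]; ring
      rw [h2, abs_mul, abs_of_pos hnR]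
    rw [h1]
    exact hk
  have hvτ : |v - sl μ s| * τ ≤ c / 4 / K * wd' μ s τ := by
    have hQτ : (Q : ℝ) * τ ≤ n := by
      have : Q * τ ≤ n := by omega
      exact_mod_cast this
    have hn2 : (n : ℝ) / τ ≤ 2 * Q := by
      rw [div_le_iff₀ hτR]
      have h8 : ρ ≤ Q * τ := hml.le.trans (Nat.le_mul_of_pos_right _ hτ1)
      have : n ≤ 2 * Q * τ := by rw [mul_assoc]; omega
      exact_mod_cast this
    have hd0 : 0 ≤ |v - sl μ s| := abs_nonneg _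
    have h1 : Q * (|v - sl μ s| * τ) ≤ C₃ * wd' μ s n := by
      calc Q * (|v - sl μ s| * τ) = |v - sl μ s| * (Q * τ) := by ring
        _ ≤ |v - sl μ s| * n := mul_le_mul_of_nonneg_left hQτ hd0
        _ ≤ _ := hvd
    have h2 : wd' μ s n ≤ K * (2 * (Q : ℝ)) ^ (1 - α) * wd' μ s τ := by
      refine w3.trans ?_
      have h3 : ((n : ℝ) / τ) ^ (1 - α) ≤ (2 * (Q : ℝ)) ^ (1 - α) := Real.rpow_le_rpow (by positivity) hn2 (by linarith)
      gcongr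
    have h4 : (2 * (Q : ℝ)) ^ (1 - α) * (2 * (Q : ℝ)) ^ α = 2 * Q := by
      rw [← Real.rpow_add (by positivity)]
      simp
    rw [div_le_iff₀ hc0] at hQ
    have h5 : 0 ≤ (2 * (Q : ℝ)) ^ (1 - α) := by positivity
    have h6 : Q * (|v - sl μ s| * τ) ≤ Q * (c / 4 / K * wd' μ s τ) := by
      calc Q * (|v - sl μ s| * τ) ≤ C₃ * (K * (2 * (Q : ℝ)) ^ (1 - α) * wd' μ s τ) := h1.trans (by gcongr)
        _ = (2 * (Q : ℝ)) ^ (1 - α) * (8 * C₃ * K ^ 2) * (wd' μ s τ / (8 * K)) := by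
            field_simp
        _ ≤ (2 * (Q : ℝ)) ^ (1 - α) * ((2 * (Q : ℝ)) ^ α * c) * (wd' μ s τ / (8 * K)) := by gcongr
        _ = ((2 * (Q : ℝ)) ^ (1 - α) * (2 * (Q : ℝ)) ^ α) * c * (wd' μ s τ / (8 * K)) := by ring
        _ = Q * (c / 4 / K * wd' μ s τ) := by
            rw [h4]
            field_simp
            ring
    exact le_of_mul_le_mul_left h6 (by linarith)
  have hvτ' : |v - sl μ s| * τ' ≤ c / 2 * wd' μ s τ' := by
    have h1 : (τ' : ℝ) ≤ 2 * τ := by exact_mod_cast hτ2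
    have hd0 : 0 ≤ |v - sl μ s| := abs_nonneg _
    calc |v - sl μ s| * τ' ≤ |v - sl μ s| * (2 * τ) := mul_le_mul_of_nonneg_left h1 hd0
      _ = 2 * (|v - sl μ s| * τ) := by ring
      _ ≤ 2 * (c / 4 / K * wd' μ s τ) := by linarith
      _ ≤ 2 * (c / 4 / K * (K * wd' μ s τ')) := by
          have : 0 ≤ c / 4 / K := by positivity
          have h8 := mul_le_mul_of_nonneg_left w1'' this
          linarith
      _ = c / 2 * wd' μ s τ' := by
          field_simp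
          ring
  have hcw : 2 ≤ c / 2 * wd' μ s τ := by
    have h7 := hn₄ τ (by omega)
    rw [div_le_iff₀ hc0] at h7
    rw [e1]
    linarith
  have hcw' : 2 ≤ c / 2 * wd' μ s τ' := by
    have h7 := hn₄ τ' (by omega)
    rw [div_le_iff₀ hc0] at h7
    rw [e1']
    linarith
  -- the middle point
  obtain ⟨k₁, hk₁⟩ : ∃ k₁ : ℤ, k₁ = ⌊v * ((P * τ : ℕ) : ℝ)⌋ := ⟨_, rfl⟩
  have hk₁a : (k₁ : ℝ) ≤ v * ((P * τ : ℕ) : ℝ) := by rw [hk₁]; exact Int.floor_le _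
  have hk₁b : v * ((P * τ : ℕ) : ℝ) < k₁ + 1 := by rw [hk₁]; exact Int.lt_floor_add_one _
  have hk₁0 : 0 ≤ k₁ := by rw [hk₁]; exact Int.floor_nonneg.2 (by positivity)
  have hk₁1 : k₁ ≤ ((P * τ : ℕ) : ℤ) := by
    have h1 : v * ((P * τ : ℕ) : ℝ) ≤ ((P * τ : ℕ) : ℝ) := mul_le_of_le_one_left hPτR.le hv1
    have h2 := Int.floor_le_floor h1
    rw [Int.floor_natCast] at h2
    rw [hk₁]
    exact h2
  have hnnR : ((P * τ : ℕ) : ℝ) + τ' = n := by exact_mod_cast hnn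
  have hk₂0 : 0 ≤ k - k₁ := by
    have h1 : (k₁ : ℝ) ≤ k := by
      refine hk₁a.trans ?_
      rw [← hvn]
      refine mul_le_mul_of_nonneg_left ?_ hv0
      linarith
    have h2 : k₁ ≤ k := by exact_mod_cast h1
    omega
  have hk₂1 : k - k₁ ≤ (τ' : ℤ) := by
    have h1 : (k : ℝ) - τ' < k₁ + 1 := by
      refine lt_of_le_of_lt ?_ hk₁b
      have h8 : v * τ' ≤ τ' := mul_le_of_le_one_left hτ'R.le hv1
      rw [← hvn, ← hnnR, mul_add]
      linarith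
    have h2 : k - τ' < k₁ + 1 := by exact_mod_cast h1
    omega
  have hd1 : |(k₁ : ℝ) - sl μ s * ((P * τ : ℕ) : ℝ)| ≤ C₃ * wd' μ s n + 1 := by
    have h1 : (k₁ : ℝ) - sl μ s * ((P * τ : ℕ) : ℝ) = ((k₁ : ℝ) - v * ((P * τ : ℕ) : ℝ)) + (v - sl μ s) * ((P * τ : ℕ) : ℝ) := by ring
    have h2 : |(v - sl μ s) * ((P * τ : ℕ) : ℝ)| ≤ C₃ * wd' μ s n := by
      rw [abs_mul, abs_of_pos hPτR]
      refine le_trans (mul_le_mul_of_nonneg_left ?_ (abs_nonneg _)) hvd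
      exact_mod_cast hPτn
    have h3 : |(k₁ : ℝ) - v * ((P * τ : ℕ) : ℝ)| ≤ 1 := by
      rw [abs_le]
      constructor <;> linarith
    rw [h1]
    refine (abs_add_le _ _).trans ?_
    linarith
  have hd2 : |((k - k₁ : ℤ) : ℝ) - sl μ s * τ'| ≤ |v - sl μ s| * τ' + 1 := by
    have h1 : ((k - k₁ : ℤ) : ℝ) - sl μ s * τ' = (v * ((P * τ : ℕ) : ℝ) - k₁) + (v - sl μ s) * τ' := by
      push_cast
      rw [← hvn, ← hnnR]
      push_cast
      ring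
    rw [h1]
    refine (abs_add_le _ _).trans ?_
    rw [abs_mul, abs_of_pos hτ'R]
    have h3 : |v * ((P * τ : ℕ) : ℝ) - k₁| ≤ 1 := by
      rw [abs_le]
      constructor <;> linarith
    linarith
  obtain ⟨S, hS⟩ : ∃ S : Set Pt, S = St μ s ((R₀ * K + 4 + 2 * C₃) * wd' μ s n) a := ⟨_, rfl⟩
  rw [← hS]
  have hwτ : R₀ * wd μ s τ ≤ R₀ * K * wd' μ s n := by
    rw [← e1, mul_assoc]
    exact mul_le_mul_of_nonneg_left w1 hR₀
  have hwτ' : R₀ * wd μ s τ' ≤ R₀ * K * wd' μ s n := by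
    rw [← e1', mul_assoc]
    exact mul_le_mul_of_nonneg_left w1' hR₀
  -- the first lane
  have hm1 := hl τ (by omega) P a k₁ S hk₁0 hk₁1
    (by
      have h1 : (k₁ : ℝ) / ((P * τ : ℕ) : ℝ) * τ - sl μ s * τ =
          ((k₁ : ℝ) - v * ((P * τ : ℕ) : ℝ)) / P + (v - sl μ s) * τ := by
        push_cast
        field_simp
        ring
      rw [h1]
      have h2 : |((k₁ : ℝ) - v * ((P * τ : ℕ) : ℝ)) / P| ≤ 1 := by
        rw [abs_div, abs_of_pos (by linarith : (0 : ℝ) < P), div_le_one (by linarith)]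
        refine le_trans ?_ hPR
        rw [abs_le]
        constructor <;> linarith
      have h3 : |(v - sl μ s) * τ| ≤ c / 4 / K * wd' μ s τ := by
        rw [abs_mul, abs_of_pos hτR]
        exact hvτ
      have h4 : c / 4 / K * wd' μ s τ ≤ c / 4 * wd' μ s τ := by
        refine mul_le_mul_of_nonneg_right ?_ (by linarith)
        exact div_le_self (by positivity) hK
      have h5 := abs_add_le (((k₁ : ℝ) - v * ((P * τ : ℕ) : ℝ)) / P) ((v - sl μ s) * τ)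
      rw [← e1]
      have h6 : c * wd' μ s τ = c / 4 * wd' μ s τ + c / 4 * wd' μ s τ + c / 2 * wd' μ s τ := by ring
      have h7 : 0 ≤ c / 4 * wd' μ s τ := by positivity
      linarith)
    (by
      intro p hp1 hp2 hp
      rw [hS]
      show |((p.2 - a.2 : ℤ) : ℝ) - sl μ s * ((p.1 - a.1 : ℤ) : ℝ)| ≤ (R₀ * K + 4 + 2 * C₃) * wd' μ s n
      obtain ⟨u, hu⟩ : ∃ u : ℝ, u = ((p.1 - a.1 : ℤ) : ℝ) := ⟨_, rfl⟩
      have hu0 : 0 ≤ u := by
        rw [hu]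
        have : 0 ≤ p.1 - a.1 := by omega
        exact_mod_cast this
      have hu1 : u ≤ ((P * τ : ℕ) : ℝ) := by
        rw [hu]
        have : p.1 - a.1 ≤ ((P * τ : ℕ) : ℤ) := by omega
        exact_mod_cast this
      rw [← hu] at hp ⊢
      have h1 : ((p.2 - a.2 : ℤ) : ℝ) - sl μ s * u = (((p.2 - a.2 : ℤ) : ℝ) - (k₁ : ℝ) / ((P * τ : ℕ) : ℝ) * u) +
          ((k₁ : ℝ) - sl μ s * ((P * τ : ℕ) : ℝ)) * (u / ((P * τ : ℕ) : ℝ)) := by
        field_simp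
        ring
      rw [h1]
      refine (abs_add_le _ _).trans ?_
      have h2 : |((k₁ : ℝ) - sl μ s * ((P * τ : ℕ) : ℝ)) * (u / ((P * τ : ℕ) : ℝ))| ≤ (C₃ * wd' μ s n + 1) * 1 := by
        rw [abs_mul, abs_of_nonneg (show 0 ≤ u / ((P * τ : ℕ) : ℝ) by positivity)]
        exact mul_le_mul hd1 ((div_le_one hPτR).2 hu1) (by positivity) (by positivity)
      have h6 : (R₀ * K + 4 + 2 * C₃) * wd' μ s n = R₀ * K * wd' μ s n + 4 * wd' μ s n + 2 * (C₃ * wd' μ s n) := by ring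
      have h7 : 0 ≤ C₃ * wd' μ s n := mul_nonneg hC₃ (zero_le_one.trans hww1)
      linarith) hP1
  -- the second lane
  have hm2 := hl τ' (by omega) 1 (a.1 + ((P * τ : ℕ) : ℤ), a.2 + k₁) (k - k₁) S hk₂0 (by rw [one_mul]; exact hk₂1)
    (by
      rw [one_mul]
      have h1 : ((k - k₁ : ℤ) : ℝ) / (τ' : ℝ) * τ' = ((k - k₁ : ℤ) : ℝ) := div_mul_cancel₀ _ hτ'R.ne'
      rw [h1, ← e1']
      have h6 : c * wd' μ s τ' = c / 2 * wd' μ s τ' + c / 2 * wd' μ s τ' := by ring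
      linarith)
    (by
      intro p hp1 hp2 hp
      rw [one_mul] at hp2 hp
      rw [hS]
      show |((p.2 - a.2 : ℤ) : ℝ) - sl μ s * ((p.1 - a.1 : ℤ) : ℝ)| ≤ (R₀ * K + 4 + 2 * C₃) * wd' μ s n
      have hp1' : a.1 + ((P * τ : ℕ) : ℤ) < p.1 := hp1
      have hp2' : p.1 ≤ a.1 + ((P * τ : ℕ) : ℤ) + (τ' : ℤ) := hp2
      obtain ⟨u, hu⟩ : ∃ u : ℝ, u = ((p.1 - (a.1 + ((P * τ : ℕ) : ℤ)) : ℤ) : ℝ) := ⟨_, rfl⟩
      have hu0 : 0 ≤ u := by
        rw [hu]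
        have : 0 ≤ p.1 - (a.1 + ((P * τ : ℕ) : ℤ)) := by omega
        exact_mod_cast this
      have hu1 : u ≤ τ' := by
        rw [hu]
        have : p.1 - (a.1 + ((P * τ : ℕ) : ℤ)) ≤ (τ' : ℤ) := by omega
        exact_mod_cast this
      have hp' : |((p.2 - (a.2 + k₁) : ℤ) : ℝ) - ((k - k₁ : ℤ) : ℝ) / (τ' : ℝ) * u| ≤ R₀ * wd μ s τ' + 2 := by
        rw [hu]
        exact hp
      have h1 : ((p.2 - a.2 : ℤ) : ℝ) - sl μ s * ((p.1 - a.1 : ℤ) : ℝ) =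
          (((p.2 - (a.2 + k₁) : ℤ) : ℝ) - ((k - k₁ : ℤ) : ℝ) / (τ' : ℝ) * u) + ((k₁ : ℝ) - sl μ s * ((P * τ : ℕ) : ℝ)) +
          (((k - k₁ : ℤ) : ℝ) - sl μ s * τ') * (u / (τ' : ℝ)) := by
        rw [hu]
        push_cast
        field_simp
        ring
      rw [h1]
      refine (abs_add_le _ _).trans ?_
      have h3 := abs_add_le (((p.2 - (a.2 + k₁) : ℤ) : ℝ) - ((k - k₁ : ℤ) : ℝ) / (τ' : ℝ) * u) ((k₁ : ℝ) - sl μ s * ((P * τ : ℕ) : ℝ))
      have h2 : |(((k - k₁ : ℤ) : ℝ) - sl μ s * τ') * (u / (τ' : ℝ))| ≤ (C₃ * wd' μ s n + 1) * 1 := by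
        rw [abs_mul, abs_of_nonneg (show 0 ≤ u / (τ' : ℝ) by positivity)]
        refine mul_le_mul (hd2.trans ?_) ((div_le_one hτ'R).2 hu1) (by positivity) (by positivity)
        have h4 : |v - sl μ s| * τ' ≤ |v - sl μ s| * n := by
          refine mul_le_mul_of_nonneg_left ?_ (abs_nonneg _)
          exact_mod_cast hτ'n
        linarith
      have h6 : (R₀ * K + 4 + 2 * C₃) * wd' μ s n = R₀ * K * wd' μ s n + 4 * wd' μ s n + 2 * (C₃ * wd' μ s n) := by ring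
      linarith) le_rfl
  have hp1 := hm1.2 b hb0
  have hp2 := hm2.2 b hb0
  rw [one_mul] at hp2
  have hsub : {η | WR μ s S η a n k < Real.exp (-(max 1 (2 * b * K₂) * EE' μ s n))} ⊆
      {η | WR μ s S η a (P * τ) k₁ < Real.exp (-(b * EE μ s τ))} ∪
        {η | WR μ s S η (a.1 + ((P * τ : ℕ) : ℤ), a.2 + k₁) τ' (k - k₁) < Real.exp (-(b * EE μ s τ'))} := by
    intro η hη
    by_contra hcon
    rw [Set.mem_union, Set.mem_ofPred_eq, Set.mem_ofPred_eq] at hcon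
    push Not at hcon
    obtain ⟨h1, h2⟩ := hcon
    rw [Set.mem_ofPred_eq] at hη
    have h3 := Pool.Agent.W_7d29a1_HS.WR_mul_le (μ := μ) (s := s) S η a (P * τ) τ' (k - k₁) hk₁0 hk₁1
    rw [hnn, add_sub_cancel] at h3
    have h4 := (mul_le_mul h1 h2 (Real.exp_nonneg _) (WR_nonneg _ _ _ _ _)).trans h3
    rw [← Real.exp_add] at h4
    have h5 := lt_of_le_of_lt h4 hη
    rw [Real.exp_lt_exp] at h5
    have h6 : EE μ s τ ≤ K₂ * EE' μ s n := by rw [← e2]; exact (hE τ n hτ1 hτn).1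
    have h7 : EE μ s τ' ≤ K₂ * EE' μ s n := by rw [← e2']; exact (hE τ' n hτ'1 hτ'n).1
    have h8 : 2 * b * K₂ * EE' μ s n ≤ max 1 (2 * b * K₂) * EE' μ s n :=
      mul_le_mul_of_nonneg_right (le_max_right _ _) (zero_le_one.trans (EE'_ge μ s n))
    have h9 := mul_le_mul_of_nonneg_left h6 hb0.le
    have h10 := mul_le_mul_of_nonneg_left h7 hb0.le
    have h11 : 2 * b * K₂ * EE' μ s n = b * (K₂ * EE' μ s n) + b * (K₂ * EE' μ s n) := by ring
    linarith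
  refine (measureReal_mono hsub (measure_ne_top _ _)).trans ((measureReal_union_le _ _).trans ?_)
  have h9 : (P : ℝ) * C' / b + ((1 : ℕ) : ℝ) * C' / b = q := by
    have : (P : ℝ) + 1 = Q := by exact_mod_cast hPQ
    rw [hb]
    field_simp
    push_cast
    linarith
  linarith

/-- (L2) THE LANE: luck for every displacement of at most `C₃` widths, every duration. -/
theorem lane (h : In μ s c C n₀) : ∀ C₃ : ℝ, 0 ≤ C₃ → ∃ R : ℝ, 1 ≤ R ∧ ∀ K : ℝ, ∃ p : ℝ, 0 < p ∧ ∃ n₁ : ℕ, ∀ m : ℕ, n₁ ≤ m →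
    ∀ (a : Pt) (k : ℤ), |(k : ℝ) - sl μ s * m| ≤ C₃ * wd μ s m → p ≤ (law μ).real {η | Real.exp (K * EE μ s m) ≤
      WR μ s (St μ s (R * wd μ s m) a) η a m k} := by
  intro C₃ hC₃
  obtain ⟨R₁, hR₁, hst⟩ := Pool.Agent.W_7d29a1_HL.strip h
  obtain ⟨α, Kw, hα, hα1, hKw, hw⟩ := Pool.Agent.W_7d29a1_HZ.wd'_pow h
  obtain ⟨α₂, Ke, hα₂, hα₂1, hKe, hE⟩ := Pool.Agent.W_7d29a1_HZ.EE'_pow h
  have hKw0 : 0 < Kw := lt_of_lt_of_le one_pos hKw
  have hKe0 : 0 < Ke := lt_of_lt_of_le one_pos hKe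
  obtain ⟨A, R, hA, hR, n₁, hleg⟩ := legG h (1 / 2) (2 * Kw * C₃ + R₁ * Kw) (by norm_num) (by positivity)
  obtain ⟨n₂, hn₂⟩ := Pool.Agent.W_7d29a1_HZ.wd'_eq h
  have hC1 := h.C1
  refine ⟨(R + R₁) * Kw, one_le_mul_of_one_le_of_one_le (by linarith) hKw, fun K => ?_⟩
  obtain ⟨K₀, hK₀⟩ : ∃ K₀ : ℝ, K₀ = max K 0 := ⟨_, rfl⟩
  have hKK : K ≤ K₀ := by rw [hK₀]; exact le_max_left _ _
  have hK0 : 0 ≤ K₀ := by rw [hK₀]; exact le_max_right _ _
  obtain ⟨B₀, hB₀⟩ : ∃ B₀ : ℝ, B₀ = 2 * Ke * (K₀ + A * Ke) := ⟨_, rfl⟩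
  have hB₀0 : 0 < B₀ := by rw [hB₀]; positivity
  obtain ⟨p, hp, n₃, hn₃⟩ := hst (B₀ + C + 2)
  refine ⟨1 / 2 * p, by positivity, 2 * (n₁ + n₂ + n₃ + 1) + 2, fun m hm a k hk => ?_⟩
  obtain ⟨n, hn⟩ : ∃ n : ℕ, n = m / 2 := ⟨_, rfl⟩
  obtain ⟨n', hn'⟩ : ∃ n' : ℕ, n' = m - n := ⟨_, rfl⟩
  have hnm : n + n' = m := by omega
  have hnn' : n ≤ n' := by omega
  have hn'm : n' ≤ m := by omega
  have hm2 : m ≤ 2 * n' := by omega
  have hm4 : m ≤ 4 * n := by omega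
  have hnm' : n ≤ m := by omega
  have hn1 : 1 ≤ n := by omega
  have hn'1 : 1 ≤ n' := by omega
  have hm1 : 1 ≤ m := by omega
  obtain ⟨e1, e2, -⟩ := hn₂ n (by omega)
  obtain ⟨f1, f2, -⟩ := hn₂ n' (by omega)
  obtain ⟨g1, g2, -⟩ := hn₂ m (by omega)
  have hlg := hleg n' (by omega)
  have hE1 : 1 ≤ EE μ s n := one_le_EE n
  have hnR : (1 : ℝ) ≤ n := by exact_mod_cast hn1
  have hn'R : (1 : ℝ) ≤ n' := by exact_mod_cast hn'1
  have hmR : (1 : ℝ) ≤ m := by exact_mod_cast hm1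
  have hw1 := wd'_ge μ s n
  have hw'1 := wd'_ge μ s n'
  have hwm1 := wd'_ge μ s m
  obtain ⟨u1, -, -⟩ := hw n m hn1 hnm'
  obtain ⟨u2, -, u3⟩ := hw n' m hn'1 hn'm
  obtain ⟨u4, -, -⟩ := hw n n' hn1 hnn'
  obtain ⟨v1, -, v2⟩ := hE n m hn1 hnm'
  obtain ⟨v3, -, -⟩ := hE n' m hn'1 hn'm
  have hwm : wd' μ s m ≤ 2 * Kw * wd' μ s n' := by
    have h1 : ((m : ℝ) / n') ^ (1 - α) ≤ 2 := by
      have h2 : (m : ℝ) / n' ≤ 2 := by
        rw [div_le_iff₀ (by linarith)]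
        exact_mod_cast hm2
      have h3 : (1 : ℝ) ≤ (m : ℝ) / n' := by
        rw [le_div_iff₀ (by linarith), one_mul]
        exact_mod_cast hn'm
      calc ((m : ℝ) / n') ^ (1 - α) ≤ ((m : ℝ) / n') ^ (1 : ℝ) := Real.rpow_le_rpow_of_exponent_le h3 (by linarith)
        _ = (m : ℝ) / n' := Real.rpow_one _
        _ ≤ 2 := h2
    calc wd' μ s m ≤ Kw * ((m : ℝ) / n') ^ (1 - α) * wd' μ s n' := u3
      _ ≤ Kw * 2 * wd' μ s n' := by gcongr
      _ = _ := by ring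
  have hEm : EE' μ s m ≤ 2 * Ke * EE' μ s n := by
    have h1 : Real.sqrt ((m : ℝ) / n) ≤ 2 := by
      have h2 : (m : ℝ) / n ≤ 2 ^ 2 := by
        rw [div_le_iff₀ (by linarith)]
        have : (m : ℝ) ≤ 4 * n := by exact_mod_cast hm4
        linarith
      exact (Real.sqrt_le_sqrt h2).trans (by rw [Real.sqrt_sq (by norm_num)])
    have hE0 : 0 ≤ EE' μ s n := zero_le_one.trans (EE'_ge μ s n)
    calc EE' μ s m ≤ Ke * Real.sqrt ((m : ℝ) / n) * EE' μ s n := v2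
      _ ≤ Ke * 2 * EE' μ s n := by gcongr
      _ = _ := by ring
  have hlog : Real.log (n + 1) ≤ (C + 1) * EE μ s n := by
    have h1 := h.lg n hn1
    have h2 : Real.log (n + 1) ≤ Real.log (2 * n) := Real.log_le_log (by linarith) (by linarith)
    rw [Real.log_mul (by norm_num) (by linarith)] at h2
    have h3 : Real.log 2 ≤ 1 := by
      have := Real.log_two_lt_d9
      linarith
    have h4 : (C + 1) * EE μ s n = C * EE μ s n + EE μ s n := by ring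
    linarith
  obtain ⟨E, hEd⟩ : ∃ E : ℤ → Set Env, E = fun y => {η | Real.exp (B₀ * EE μ s n) ≤ WR μ s (St μ s (R₁ * wd μ s n) a) η a n y} :=
    ⟨_, rfl⟩
  obtain ⟨B, hBd⟩ : ∃ B : ℤ → Set Env, B = fun y => {η | Real.exp (-(A * EE' μ s n')) ≤
      WR μ s (St μ s (R * wd' μ s n') (a.1 + n, a.2 + y)) η (a.1 + n, a.2 + y) n' (k - y)} := ⟨_, rfl⟩
  have hEms : ∀ y, MeasurableSet (E y) := fun y => by
    rw [hEd]
    exact measurableSet_le measurable_const (measurable_WR _ _ _ _)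
  have hBms : ∀ y, MeasurableSet (B y) := fun y => by
    rw [hBd]
    exact measurableSet_le measurable_const (measurable_WR _ _ _ _)
  have hUV : Disjoint (rows a.1 (a.1 + n)) (rows (a.1 + n) (a.1 + n + n')) := by
    rw [Set.disjoint_left]
    intro q h1 h2
    have h3 := h1.2
    have h4 := h2.1
    omega
  have dE : ∀ (y : ℤ) (η η' : Env), (∀ p ∈ rows a.1 (a.1 + n), η p = η' p) → (η ∈ E y ↔ η' ∈ E y) := by
    intro y η η' hh
    have h1 := WR_dep (μ := μ) (s := s) (St μ s (R₁ * wd μ s n) a) a n y (fun p hp => hh p ⟨hp.1.1, hp.1.2.1⟩)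
    dsimp only at h1
    rw [hEd]
    simp only [Set.mem_ofPred_eq]
    rw [h1]
  have dB : ∀ (y : ℤ) (η η' : Env), (∀ p ∈ rows (a.1 + n) (a.1 + n + n'), η p = η' p) → (η ∈ B y ↔ η' ∈ B y) := by
    intro y η η' hh
    have h1 := WR_dep (μ := μ) (s := s) (St μ s (R * wd' μ s n') (a.1 + n, a.2 + y)) (a.1 + n, a.2 + y) n' (k - y)
      (fun p hp => hh p ⟨hp.1.1, hp.1.2.1⟩)
    dsimp only at h1
    rw [hBd]
    simp only [Set.mem_ofPred_eq]
    rw [h1]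
  have hend : ∀ (y : ℤ) (η : Env), η ∈ E y → |(y : ℝ) - sl μ s * n| ≤ (R₁ * wd' μ s n) := by
    intro y η hη
    by_contra hcon
    have h1 : WR μ s (St μ s (R₁ * wd μ s n) a) η a n y = 0 := WR_end _ η a hn1 fun h2 => hcon (by
      have h3 : |((a.2 + y - a.2 : ℤ) : ℝ) - sl μ s * ((a.1 + (n : ℤ) - a.1 : ℤ) : ℝ)| ≤ R₁ * wd μ s n := h2
      rw [e1]
      rw [add_sub_cancel_left, add_sub_cancel_left, Int.cast_natCast] at h3
      exact h3)
    rw [hEd] at hη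
    have h2 : Real.exp (B₀ * EE μ s n) ≤ WR μ s (St μ s (R₁ * wd μ s n) a) η a n y := hη
    rw [h1] at h2
    exact absurd h2 (not_le.2 (Real.exp_pos _))
  have hneB : ∀ y ∈ Icc (0 : ℤ) n, (E y).Nonempty → 1 / 2 ≤ (law μ).real (B y) := by
    rintro y hy ⟨η, hη⟩
    have h1 := hlg (a.1 + n, a.2 + y) (k - y) (by
      have h2 := hend y η hη
      have h3 : (m : ℝ) = n + n' := by exact_mod_cast hnm.symm
      rw [← g1] at hk
      have h4 : ((k - y : ℤ) : ℝ) - sl μ s * n' = ((k : ℝ) - sl μ s * m) - ((y : ℝ) - sl μ s * n) := by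
        rw [h3]
        push_cast
        ring
      rw [h4]
      refine (abs_sub _ _).trans ?_
      have h5 : C₃ * wd' μ s m ≤ C₃ * (2 * Kw * wd' μ s n') := mul_le_mul_of_nonneg_left hwm hC₃
      have h6 : R₁ * wd' μ s n ≤ R₁ * (Kw * wd' μ s n') := mul_le_mul_of_nonneg_left u4 (by linarith)
      have h7 : (2 * Kw * C₃ + R₁ * Kw) * wd' μ s n' = C₃ * (2 * Kw * wd' μ s n') + R₁ * (Kw * wd' μ s n') := by ring
      linarith)
    have h2 : (B y)ᶜ = {η | WR μ s (St μ s (R * wd' μ s n') (a.1 + n, a.2 + y)) η (a.1 + n, a.2 + y) n' (k - y) <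
        Real.exp (-(A * EE' μ s n'))} := by
      rw [hBd]
      ext η
      simp only [Set.mem_compl_iff, Set.mem_ofPred_eq, not_le]
    rw [← h2, measureReal_compl (hBms y), probReal_univ] at h1
    linarith
  have hmain := first_good (μ := μ) hUV (1 / 2) E B hEms hBms dE dB (Icc (0 : ℤ) n) hneB Set.univ MeasurableSet.univ
    (fun _ _ _ => Iff.rfl)
  rw [Set.univ_inter, Set.univ_inter] at hmain
  have hp' : p ≤ (law μ).real (⋃ y ∈ Icc (0 : ℤ) n, E y) := by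
    refine (hn₃ n (by omega) a).trans (measureReal_mono (fun η hη => ?_) (measure_ne_top _ _))
    by_contra hcon
    rw [Set.mem_iUnion₂] at hcon
    push Not at hcon
    have h1 : cf μ s (R₁ * wd μ s n) η a n ≤ (n + 1) * Real.exp (B₀ * EE μ s n) := by
      unfold cf
      have h2 : ∀ y ∈ Icc (0 : ℤ) n, WR μ s (St μ s (R₁ * wd μ s n) a) η a n y ≤ Real.exp (B₀ * EE μ s n) := fun y hy => by
        have h3 := hcon y hy
        rw [hEd] at h3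
        exact (not_le.1 h3).le
      refine (Finset.sum_le_sum h2).trans (le_of_eq ?_)
      rw [Finset.sum_const, Int.card_Icc, nsmul_eq_mul]
      have h4 : ((n : ℤ) + 1 - 0).toNat = n + 1 := by omega
      rw [h4]
      push_cast
      ring
    have h2 : (B₀ + C + 2) * EE μ s n ≤ Real.log (cf μ s (R₁ * wd μ s n) η a n) := hη
    have h3 : 0 < Real.log (cf μ s (R₁ * wd μ s n) η a n) := by
      refine lt_of_lt_of_le ?_ h2
      have : 0 < B₀ + C + 2 := by linarith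
      positivity
    have h4 : 0 < cf μ s (R₁ * wd μ s n) η a n := by
      by_contra h5
      have h6 : cf μ s (R₁ * wd μ s n) η a n = 0 :=
        le_antisymm (not_lt.1 h5) (Finset.sum_nonneg fun _ _ => WR_nonneg _ _ _ _ _)
      rw [h6, Real.log_zero] at h3
      exact lt_irrefl _ h3
    have h5 := Real.log_le_log h4 h1
    rw [Real.log_mul (by positivity) (Real.exp_pos _).ne', Real.log_exp] at h5
    have e3 : (B₀ + C + 2) * EE μ s n = (C + 1) * EE μ s n + B₀ * EE μ s n + EE μ s n := by ring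
    linarith
  have hsub : (⋃ y ∈ Icc (0 : ℤ) n, (E y ∩ B y)) ⊆ {η | Real.exp (K * EE μ s m) ≤
      WR μ s (St μ s ((R + R₁) * Kw * wd μ s m) a) η a m k} := by
    intro η hη
    rw [Set.mem_iUnion₂] at hη
    obtain ⟨y, hy, hyE, hyB⟩ := hη
    have hnd := hend y η hyE
    rw [hEd] at hyE
    rw [hBd] at hyB
    rw [← g1]
    have hr1 : R₁ * wd' μ s n ≤ R₁ * (Kw * wd' μ s m) := mul_le_mul_of_nonneg_left u1 (by linarith)
    have hr2 : R * wd' μ s n' ≤ R * (Kw * wd' μ s m) := mul_le_mul_of_nonneg_left u2 (by linarith)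
    have hr3 : 0 ≤ R * (Kw * wd' μ s m) := by positivity
    have h1 : Real.exp (B₀ * EE μ s n) ≤ WR μ s (St μ s ((R + R₁) * Kw * wd' μ s m) a) η a n y := by
      have h1' : Real.exp (B₀ * EE μ s n) ≤ WR μ s (St μ s (R₁ * wd μ s n) a) η a n y := hyE
      refine h1'.trans (Pool.Agent.W_7d29a1_HS.WR_mono_on η a _ _ fun p hp _ _ => ?_)
      have h2 : |((p.2 - a.2 : ℤ) : ℝ) - sl μ s * ((p.1 - a.1 : ℤ) : ℝ)| ≤ R₁ * wd μ s n := hp
      show |((p.2 - a.2 : ℤ) : ℝ) - sl μ s * ((p.1 - a.1 : ℤ) : ℝ)| ≤ (R + R₁) * Kw * wd' μ s m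
      rw [← e1] at h2
      refine h2.trans ?_
      linarith
    have h2 : Real.exp (-(A * EE' μ s n')) ≤ WR μ s (St μ s ((R + R₁) * Kw * wd' μ s m) a) η (a.1 + n, a.2 + y) n' (k - y) := by
      have h2' : Real.exp (-(A * EE' μ s n')) ≤
        WR μ s (St μ s (R * wd' μ s n') (a.1 + n, a.2 + y)) η (a.1 + n, a.2 + y) n' (k - y) := hyB
      refine h2'.trans (Pool.Agent.W_7d29a1_HS.WR_mono_on η _ _ _ fun p hp _ _ => ?_)
      have h3 : |((p.2 - (a.2 + y) : ℤ) : ℝ) - sl μ s * ((p.1 - (a.1 + (n : ℤ)) : ℤ) : ℝ)| ≤ R * wd' μ s n' := hp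
      show |((p.2 - a.2 : ℤ) : ℝ) - sl μ s * ((p.1 - a.1 : ℤ) : ℝ)| ≤ (R + R₁) * Kw * wd' μ s m
      have h4 : ((p.2 - a.2 : ℤ) : ℝ) - sl μ s * ((p.1 - a.1 : ℤ) : ℝ) =
        (((p.2 - (a.2 + y) : ℤ) : ℝ) - sl μ s * ((p.1 - (a.1 + (n : ℤ)) : ℤ) : ℝ)) + ((y : ℝ) - sl μ s * n) := by
        push_cast
        ring
      rw [h4]
      refine (abs_add_le _ _).trans ?_
      linarith
    show Real.exp (K * EE μ s m) ≤ WR μ s (St μ s ((R + R₁) * Kw * wd' μ s m) a) η a m k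
    have hy' := Finset.mem_Icc.1 hy
    have h3 := Pool.Agent.W_7d29a1_HS.WR_mul_le (μ := μ) (s := s) (St μ s ((R + R₁) * Kw * wd' μ s m) a) η a n n' (k - y) hy'.1 hy'.2
    rw [hnm, add_sub_cancel] at h3
    refine le_trans ?_ h3
    refine le_trans ?_ (mul_le_mul h1 h2 (Real.exp_nonneg _) (WR_nonneg _ _ _ _ _))
    rw [← Real.exp_add]
    refine Real.exp_le_exp.2 ?_
    have h4 : K * EE μ s m ≤ K₀ * EE' μ s m := by
      rw [g2]
      exact mul_le_mul_of_nonneg_right hKK (zero_le_one.trans (one_le_EE m))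
    have h5 : A * EE' μ s n' ≤ A * (Ke * EE' μ s m) := mul_le_mul_of_nonneg_left v3 (by linarith)
    have h6 : (K₀ + A * Ke) * EE' μ s m ≤ (K₀ + A * Ke) * (2 * Ke * EE' μ s n) := mul_le_mul_of_nonneg_left hEm (by positivity)
    have h7 : B₀ * EE μ s n = (K₀ + A * Ke) * (2 * Ke * EE' μ s n) := by
      rw [hB₀, e2]
      ring
    linarith
  have := measureReal_mono (μ := law μ) hsub (measure_ne_top _ _)
  linarith

end

end Pool.Agent.W_7d29a1_C1.T71
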