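import Pool.Agent.W_7d29a1_C1.CtxM68
import Pool.Agent.W_7d29a1_C1.Unc31
import Pool.Agent.W_7d29a1_C1.KerP16
import Pool.Agent.W_7d29a1_C1.Half31
import Pool.Agent.W_7d29a1_C1.SysP84

/-!
MP_7d29a1_pr, attractor route [C1]: THE TOP OF THE PAST. A contact of weight `≥ exp (-ω)` gives places near it with mass `≥ exp (-Λ)` in
all the rows of the past, for both groups; so the forward masses near it are comparable (crude) and the mass which comes from places with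
a small probability of passage is negligible. (helper31)
-/

set_option autoImplicit false

namespace Pool.Agent.W_7d29a1_C1.D31

open Finset
open Pool.Agent.W_7d29a1_F Pool.Agent.W_7d29a1_h4g Pool.Agent.W_7d29a1_H Pool.Agent.W_7d29a1_HS
open Pool.Agent.W_7d29a1_C1.K91 (wt wt_pos Box)
open Pool.Agent.W_7d29a1_C1.K91P
open Pool.Agent.W_7d29a1_C1.U31 (sum_fw_bw ms ms_nonneg)
open Pool.Agent.W_7d29a1_C1.U16 (ker fw_ker bw_ker ker_nonneg ker_eq_zero)

noncomputable section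

variable {w : ℕ → ℤ → ℝ} {p : ℕ → ℝ} {m : ℤ → ℝ} {N : ℕ}

/-- The mass of a finite set of places of a row is at most the total mass. -/
theorem mass_le (hw : ∀ k y, 0 < w k y) (hp : ∀ k, 0 < p k) (hm : ∀ y, 0 ≤ m y) {lo hi : ℤ} (hlo : ∀ y, y < lo → m y = 0)
    (hhi : ∀ y, hi - N < y → m y = 0) (hb : lo + N ≤ hi) {k : ℕ} (hk : k ≤ N) (S : Finset ℤ) :
    ∑ y ∈ S, fw w p m k y * bw w p k (N - k) y ≤ ∑ y ∈ Icc lo hi, m y * bw w p 0 N y := by
  classical
  have hnn : ∀ y, 0 ≤ fw w p m k y * bw w p k (N - k) y := fun y => mul_nonneg (fw_nonneg hw hp hm k y) (bw_pos hw hp _ _ _).le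
  rw [← sum_fw_bw (w := w) (p := p) hlo hhi hb k hk]
  have e1 : ∑ y ∈ S, fw w p m k y * bw w p k (N - k) y = ∑ y ∈ S.filter (fun y => y ∈ Icc lo hi), fw w p m k y * bw w p k (N - k) y := by
    rw [sum_filter]
    refine sum_congr rfl fun y _ => ?_
    split_ifs with h1
    · rfl
    · rw [mem_Icc, not_and_or, not_le, not_le] at h1
      rcases h1 with h1 | h1
      · rw [fw_lo hlo k y h1, zero_mul]
      · rw [fw_hi (B := hi - N) (fun z hz => hhi z hz) k y (by omega), zero_mul]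
  rw [e1]
  exact sum_le_sum_of_subset_of_nonneg (fun y hy => (mem_filter.1 hy).2) fun y _ _ => hnn y

/-- The total mass `Z` bounds the mass of all finite sets of places of the rows. -/
def Tot31 (w : ℕ → ℤ → ℝ) (p : ℕ → ℝ) (m : ℤ → ℝ) (N : ℕ) (Z : ℝ) : Prop :=
  ∀ k, k ≤ N → ∀ S : Finset ℤ, ∑ y ∈ S, fw w p m k y * bw w p k (N - k) y ≤ Z

theorem Tot31.one {Z : ℝ} (h : Tot31 w p m N Z) {k : ℕ} (hk : k ≤ N) (y : ℤ) : fw w p m k y * bw w p k (N - k) y ≤ Z := by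
  have h1 := h k hk {y}
  rwa [sum_singleton] at h1

/-- **ONE PLACE OF THE EARLIER ROW**: the row `a`, the place `c` of the row `a + n` with mass `≥ exp (-ω) Z`; passage through `c` from the
places off `B` has probability at most `exp (-ω) / 2`. -/
theorem past_near (hw : ∀ k y, 0 < w k y) (hp : ∀ k, 0 < p k) (hm : ∀ y, 0 ≤ m y) {Z : ℝ} (hZ : 0 < Z) {a n : ℕ} (han : a + n ≤ N)
    (htot : Tot31 w p m N Z) {c : ℤ} {ω : ℝ} (hc : Real.exp (-ω) * Z ≤ fw w p m (a + n) c * bw w p (a + n) (N - (a + n)) c)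
    {B : Finset ℤ}
    (hfar : ∀ b, b ∉ B → ker w p a n b c * bw w p (a + n) (N - (a + n)) c ≤ Real.exp (-ω) / 2 * bw w p a (N - a) b) :
    ∃ b ∈ B, Real.exp (-ω) * Z ≤ 2 * (B.card : ℝ) * (fw w p m a b * bw w p a (N - a) b) := by
  classical
  by_contra hcon
  push Not at hcon
  have hb0 : ∀ b, 0 < bw w p a (N - a) b := fun b => bw_pos hw hp _ _ _
  have hf0 : ∀ b, 0 ≤ fw w p m a b := fun b => fw_nonneg hw hp hm a b
  have hω := Real.exp_pos (-ω)
  have e1 : fw w p m (a + n) c * bw w p (a + n) (N - (a + n)) c =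
      ∑ b ∈ Icc (c - n) c, fw w p m a b * (ker w p a n b c * bw w p (a + n) (N - (a + n)) c) := by
    rw [fw_ker, sum_mul]
    exact sum_congr rfl fun b _ => by ring
  rw [e1, ← sum_filter_add_sum_filter_not (Icc (c - n) c) (fun b => b ∈ B)] at hc
  have h1 : ∑ b ∈ (Icc (c - n) c).filter (fun b => ¬ b ∈ B), fw w p m a b * (ker w p a n b c * bw w p (a + n) (N - (a + n)) c) ≤
      Real.exp (-ω) / 2 * Z := by
    have h2 : ∀ b ∈ (Icc (c - n) c).filter (fun b => ¬ b ∈ B), fw w p m a b * (ker w p a n b c * bw w p (a + n) (N - (a + n)) c) ≤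
        Real.exp (-ω) / 2 * (fw w p m a b * bw w p a (N - a) b) := by
      intro b hb
      have h3 := mul_le_mul_of_nonneg_left (hfar b (mem_filter.1 hb).2) (hf0 b)
      linarith [show fw w p m a b * (Real.exp (-ω) / 2 * bw w p a (N - a) b) =
        Real.exp (-ω) / 2 * (fw w p m a b * bw w p a (N - a) b) by ring]
    refine (sum_le_sum h2).trans ?_
    rw [← mul_sum]
    exact mul_le_mul_of_nonneg_left (htot a (by omega) _) (by positivity)
  have h2 : ∑ b ∈ (Icc (c - n) c).filter (fun b => b ∈ B), fw w p m a b * (ker w p a n b c * bw w p (a + n) (N - (a + n)) c) ≤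
      ∑ b ∈ B, fw w p m a b * bw w p a (N - a) b := by
    refine (sum_le_sum fun b _ => mul_le_mul_of_nonneg_left (single_bw hw hp han b c) (hf0 b)).trans ?_
    exact sum_le_sum_of_subset_of_nonneg (fun b hb => (mem_filter.1 hb).2) fun b _ _ => mul_nonneg (hf0 b) (hb0 b).le
  rcases B.eq_empty_or_nonempty with hB | hB
  · have h3 : ∑ b ∈ B, fw w p m a b * bw w p a (N - a) b = 0 := by rw [hB, sum_empty]
    have h4 : 0 < Real.exp (-ω) * Z := mul_pos hω hZ
    linarith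
  · have hcard : (0 : ℝ) < B.card := by exact_mod_cast hB.card_pos
    have h4 : ∑ b ∈ B, fw w p m a b * bw w p a (N - a) b < ∑ _b ∈ B, Real.exp (-ω) * Z / (2 * B.card) := by
      refine sum_lt_sum_of_nonempty hB fun b hb => ?_
      rw [lt_div_iff₀ (by positivity)]
      have := hcon b hb
      linarith [show fw w p m a b * bw w p a (N - a) b * (2 * (B.card : ℝ)) = 2 * (B.card : ℝ) * (fw w p m a b * bw w p a (N - a) b) by ring]
    rw [sum_const, nsmul_eq_mul] at h4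
    have h5 : (B.card : ℝ) * (Real.exp (-ω) * Z / (2 * B.card)) = Real.exp (-ω) * Z / 2 := by
      field_simp
    rw [h5] at h4
    linarith

/-- **THE PLACES OF THE LATER ROW.** -/
theorem past_at (hw : ∀ k y, 0 < w k y) (hp : ∀ k, 0 < p k) (hm : ∀ y, 0 ≤ m y) {Z : ℝ} {a n : ℕ} {b x : ℤ} {ω lam : ℝ}
    (hb : Real.exp (-ω) * Z ≤ fw w p m a b * bw w p a (N - a) b)
    (hbx : Real.exp (-lam) * bw w p a (N - a) b ≤ ker w p a n b x * bw w p (a + n) (N - (a + n)) x) :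
    Real.exp (-(ω + lam)) * Z ≤ fw w p m (a + n) x * bw w p (a + n) (N - (a + n)) x := by
  have hf0 : 0 ≤ fw w p m a b := fw_nonneg hw hp hm a b
  have hbx0 := bw_pos hw hp (N - (a + n)) (a + n) x
  have h1 : fw w p m a b * ker w p a n b x ≤ fw w p m (a + n) x := by
    rw [fw_ker]
    by_cases hv : x - n ≤ b ∧ b ≤ x
    · exact single_le_sum (f := fun b => fw w p m a b * ker w p a n b x)
        (fun y _ => mul_nonneg (fw_nonneg hw hp hm a y) (ker_nonneg hw hp a n y x)) (mem_Icc.2 hv)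
    · rw [ker_eq_zero a n b x (by omega), mul_zero]
      exact sum_nonneg fun y _ => mul_nonneg (fw_nonneg hw hp hm a y) (ker_nonneg hw hp a n y x)
  have e : Real.exp (-(ω + lam)) = Real.exp (-lam) * Real.exp (-ω) := by
    rw [← Real.exp_add]
    congr 1
    ring
  calc Real.exp (-(ω + lam)) * Z = Real.exp (-lam) * (Real.exp (-ω) * Z) := by rw [e]; ring
    _ ≤ Real.exp (-lam) * (fw w p m a b * bw w p a (N - a) b) := mul_le_mul_of_nonneg_left hb (Real.exp_pos _).le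
    _ = fw w p m a b * (Real.exp (-lam) * bw w p a (N - a) b) := by ring
    _ ≤ fw w p m a b * (ker w p a n b x * bw w p (a + n) (N - (a + n)) x) := mul_le_mul_of_nonneg_left hbx hf0
    _ = fw w p m a b * ker w p a n b x * bw w p (a + n) (N - (a + n)) x := by ring
    _ ≤ _ := mul_le_mul_of_nonneg_right h1 hbx0.le

/-- **THE PLACES NEAR THE CONTACT HAVE MASS** `≥ exp (-(ω + lam)) Z / (2 #B)`: row `a` below the row `a + n` of the place `x` and the row
`a + n'` of the place `c`. -/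
theorem past_place (hw : ∀ k y, 0 < w k y) (hp : ∀ k, 0 < p k) (hm : ∀ y, 0 ≤ m y) {Z : ℝ} (hZ : 0 < Z) {a n n' : ℕ} (han : a + n' ≤ N)
    (htot : Tot31 w p m N Z) {c : ℤ} {ω lam β : ℝ}
    (hc : Real.exp (-ω) * Z ≤ fw w p m (a + n') c * bw w p (a + n') (N - (a + n')) c) {B : Finset ℤ}
    (hfar : ∀ b, b ∉ B → ker w p a n' b c * bw w p (a + n') (N - (a + n')) c ≤ Real.exp (-ω) / 2 * bw w p a (N - a) b)
    (hcard : 2 * (B.card : ℝ) ≤ Real.exp β) {x : ℤ}
    (hx : ∀ b ∈ B, Real.exp (-lam) * bw w p a (N - a) b ≤ ker w p a n b x * bw w p (a + n) (N - (a + n)) x) :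
    Real.exp (-(ω + β + lam)) * Z ≤ fw w p m (a + n) x * bw w p (a + n) (N - (a + n)) x := by
  obtain ⟨b, hb, h1⟩ := past_near hw hp hm hZ han htot hc hfar
  refine past_at hw hp hm ?_ (hx b hb)
  have h0 : 0 ≤ fw w p m a b * bw w p a (N - a) b := mul_nonneg (fw_nonneg hw hp hm a b) (bw_pos hw hp _ _ _).le
  have h2 := h1.trans (mul_le_mul_of_nonneg_right hcard h0)
  have h3 := mul_le_mul_of_nonneg_left h2 (Real.exp_pos (-β)).le
  have e1 : Real.exp (-β) * (Real.exp β * (fw w p m a b * bw w p a (N - a) b)) = fw w p m a b * bw w p a (N - a) b := by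
    rw [← mul_assoc, ← Real.exp_add, neg_add_cancel, Real.exp_zero, one_mul]
  have e2 : Real.exp (-β) * (Real.exp (-ω) * Z) = Real.exp (-(ω + β)) * Z := by
    rw [← mul_assoc, ← Real.exp_add]
    congr 2
    ring
  rwa [e1, e2] at h3

/-- **CRUDE REGULARITY OF THE PAST.** -/
theorem past_cr (hw : ∀ k y, 0 < w k y) (hp : ∀ k, 0 < p k) (hm : ∀ y, 0 ≤ m y) {Z : ℝ} {k : ℕ} (hk : k ≤ N) (htot : Tot31 w p m N Z)
    {x x' : ℤ} {Λ lam : ℝ} (hx' : Real.exp (-Λ) * Z ≤ fw w p m k x' * bw w p k (N - k) x')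
    (hb : bw w p k (N - k) x' ≤ Real.exp lam * bw w p k (N - k) x) : fw w p m k x ≤ Real.exp (Λ + lam) * fw w p m k x' := by
  have hbx := bw_pos hw hp (N - k) k x
  have h1 := htot.one hk x
  have hf := fw_nonneg hw hp hm k x'
  have h2 : Z ≤ Real.exp Λ * (fw w p m k x' * bw w p k (N - k) x') := by
    have h3 := mul_le_mul_of_nonneg_left hx' (Real.exp_pos Λ).le
    rwa [← mul_assoc, ← Real.exp_add, add_neg_cancel, Real.exp_zero, one_mul] at h3
  have h3 := mul_le_mul_of_nonneg_left hb hf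
  have h4 := mul_le_mul_of_nonneg_left h3 (Real.exp_pos Λ).le
  have h5 : fw w p m k x * bw w p k (N - k) x ≤ Real.exp (Λ + lam) * fw w p m k x' * bw w p k (N - k) x := by
    rw [Real.exp_add]
    calc _ ≤ _ := (h1.trans h2).trans h4
      _ = _ := by ring
  exact le_of_mul_le_mul_right h5 hbx

/-- **THE MASS FROM THE FAR PLACES OF THE EARLIER ROW** is negligible at the place `x`. -/
theorem past_top (hw : ∀ k y, 0 < w k y) (hp : ∀ k, 0 < p k) (hm : ∀ y, 0 ≤ m y) {Z : ℝ} {a n : ℕ} (han : a + n ≤ N)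
    (htot : Tot31 w p m N Z) {x : ℤ} {Λ G : ℝ}
    (hx : Real.exp (-Λ) * Z ≤ fw w p m (a + n) x * bw w p (a + n) (N - (a + n)) x) {S : Finset ℤ}
    (hS : ∀ y ∈ S, ker w p a n y x * bw w p (a + n) (N - (a + n)) x ≤ Real.exp (-G) * bw w p a (N - a) y) :
    ∑ y ∈ S, fw w p m a y * ker w p a n y x ≤ Real.exp (-(G - Λ)) * fw w p m (a + n) x := by
  have hbx := bw_pos hw hp (N - (a + n)) (a + n) x
  refine le_of_mul_le_mul_right ?_ hbx
  rw [sum_mul]
  have h1 : ∀ y ∈ S, fw w p m a y * ker w p a n y x * bw w p (a + n) (N - (a + n)) x ≤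
      Real.exp (-G) * (fw w p m a y * bw w p a (N - a) y) := by
    intro y hy
    have h2 := mul_le_mul_of_nonneg_left (hS y hy) (fw_nonneg hw hp hm a y)
    calc _ = fw w p m a y * (ker w p a n y x * bw w p (a + n) (N - (a + n)) x) := by ring
      _ ≤ _ := h2
      _ = _ := by ring
  refine (sum_le_sum h1).trans ?_
  rw [← mul_sum]
  have h2 : Z ≤ Real.exp Λ * (fw w p m (a + n) x * bw w p (a + n) (N - (a + n)) x) := by
    have h3 := mul_le_mul_of_nonneg_left hx (Real.exp_pos Λ).le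
    rwa [← mul_assoc, ← Real.exp_add, add_neg_cancel, Real.exp_zero, one_mul] at h3
  have e : Real.exp (-(G - Λ)) = Real.exp (-G) * Real.exp Λ := by
    rw [← Real.exp_add]
    congr 1
    ring
  rw [e]
  calc _ ≤ Real.exp (-G) * Z := mul_le_mul_of_nonneg_left (htot a (by omega) S) (Real.exp_pos _).le
    _ ≤ Real.exp (-G) * (Real.exp Λ * (fw w p m (a + n) x * bw w p (a + n) (N - (a + n)) x)) :=
      mul_le_mul_of_nonneg_left h2 (Real.exp_pos _).le
    _ = _ := by ring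

/-! ### The contact of a context -/

open Pool.Agent.W_7d29a1_C1.H60 (Cx)

theorem tot_l {Γ : Cx} (h : Γ.Ok) (η : Env) : Tot31 (wt η) Γ.p Cx.l Γ.N (Γ.ZM η) := by
  intro k hk S
  have hb := Cx.box1 h
  rw [← Cx.ZM_eq h]
  exact mass_le (wt_pos η) Γ.p_pos hb.g.l0 (fun y hy => (hb.lo0 y hy).1) (fun y hy => (hb.hi0 y hy).1)
    (by have := hb.X0; have := hb.X1; omega) hk S

theorem tot_r {Γ : Cx} (h : Γ.Ok) (η : Env) : Tot31 (wt η) Γ.p Γ.r Γ.N (Γ.ZR η) := by
  intro k hk S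
  have hb := Cx.box1 h
  exact mass_le (wt_pos η) Γ.p_pos hb.g.r0 (fun y hy => (hb.lo0 y hy).2) (fun y hy => (hb.hi0 y hy).2)
    (by have := hb.X0; have := hb.X1; omega) hk S

/-- **THE TWO PLACES OF A CONTACT HAVE MASS AT LEAST ITS WEIGHT.** -/
theorem contact_place {Γ : Cx} (h : Γ.Ok) {c : ℕ × ℤ} (hc : c ∈ Γ.rows 0 Γ.N) (η : Env) :
    Γ.w c η * Γ.ZM η ≤ fw (wt η) Γ.p Cx.l c.1 (c.2 - 1) * bw (wt η) Γ.p c.1 (Γ.N - c.1) (c.2 - 1) ∧
      Γ.w c η * Γ.ZR η ≤ fw (wt η) Γ.p Γ.r c.1 c.2 * bw (wt η) Γ.p c.1 (Γ.N - c.1) c.2 := by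
  obtain ⟨i, x⟩ := c
  have hc' := Cx.mem_rows.1 hc
  simp only at hc' ⊢
  have hi : i < Γ.N := hc'.1.2
  have ZM := Γ.ZM_pos η
  have ZR := Cx.ZR_pos h η
  have f1 := fw_nonneg (wt_pos η) Γ.p_pos Cx.l_nonneg i (x - 1)
  have f2 := fw_nonneg (wt_pos η) Γ.p_pos Cx.l_nonneg i x
  have f3 := fw_nonneg (wt_pos η) Γ.p_pos (Cx.r_nonneg h) i x
  have f4 := fw_nonneg (wt_pos η) Γ.p_pos (Cx.r_nonneg h) i (x - 1)
  have w1 := wt_pos η i (x - 1)
  have w2 := wt_pos η i x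
  have hp := Γ.p_pos i
  set b := bw (wt η) Γ.p (i + 1) (Γ.N - (i + 1)) with hb
  have b0 : ∀ y, 0 < b y := fun y => bw_pos (wt_pos η) Γ.p_pos _ _ _
  have t1 := (tot_l h η).one hi.le (x - 1)
  have t2 := (tot_r h η).one hi.le x
  set A := fw (wt η) Γ.p Cx.l i (x - 1) * bw (wt η) Γ.p i (Γ.N - i) (x - 1) with hA
  set B := fw (wt η) Γ.p Γ.r i x * bw (wt η) Γ.p i (Γ.N - i) x with hB
  have hA0 : 0 ≤ A := mul_nonneg f1 (bw_pos (wt_pos η) Γ.p_pos _ _ _).le
  have hB0 : 0 ≤ B := mul_nonneg f3 (bw_pos (wt_pos η) Γ.p_pos _ _ _).le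
  have e1 : Γ.p i * (wt η i (x - 1) * b x) ≤ bw (wt η) Γ.p i (Γ.N - i) (x - 1) := by
    rw [bw_eq hi]
    unfold GG
    rw [← hb, sub_add_cancel]
    have : 0 ≤ wt η i (x - 1) * b (x - 1) := mul_nonneg w1.le (b0 _).le
    linarith [show wt η i (x - 1) * (b (x - 1) + Γ.p i * b x) = wt η i (x - 1) * b (x - 1) + Γ.p i * (wt η i (x - 1) * b x) by ring]
  have e2 : wt η i x * b x ≤ bw (wt η) Γ.p i (Γ.N - i) x := by
    rw [bw_eq hi]
    unfold GG
    rw [← hb]
    have : 0 ≤ wt η i x * (Γ.p i * b (x + 1)) := mul_nonneg w2.le (mul_nonneg hp.le (b0 _).le)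
    linarith [show wt η i x * (b x + Γ.p i * b (x + 1)) = wt η i x * b x + wt η i x * (Γ.p i * b (x + 1)) by ring]
  have e3 : dp (wt η) Γ.p Cx.l Γ.r i (x - 1) x ≤ fw (wt η) Γ.p Cx.l i (x - 1) * fw (wt η) Γ.p Γ.r i x := by
    unfold dp
    have : 0 ≤ fw (wt η) Γ.p Cx.l i x * fw (wt η) Γ.p Γ.r i (x - 1) := by positivity
    linarith
  have bx := b0 x
  have key : Γ.w (i, x) η * (Γ.ZM η * Γ.ZR η) ≤ A * B := by
    have e4 : Γ.w (i, x) η * (Γ.ZM η * Γ.ZR η) = dp (wt η) Γ.p Cx.l Γ.r i (x - 1) x *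
        (Γ.p i * (wt η i (x - 1) * wt η i x) * b x ^ 2) := by
      unfold Cx.w
      exact div_mul_cancel₀ _ (mul_pos ZM ZR).ne'
    rw [e4]
    calc _ ≤ fw (wt η) Γ.p Cx.l i (x - 1) * fw (wt η) Γ.p Γ.r i x * (Γ.p i * (wt η i (x - 1) * wt η i x) * b x ^ 2) :=
          mul_le_mul_of_nonneg_right e3 (by positivity)
      _ = fw (wt η) Γ.p Cx.l i (x - 1) * (Γ.p i * (wt η i (x - 1) * b x)) * (fw (wt η) Γ.p Γ.r i x * (wt η i x * b x)) := by ring
      _ ≤ A * B := mul_le_mul (mul_le_mul_of_nonneg_left e1 f1) (mul_le_mul_of_nonneg_left e2 f3)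
          (mul_nonneg f3 (mul_nonneg w2.le bx.le)) hA0
  constructor
  · refine le_of_mul_le_mul_right ?_ ZR
    calc Γ.w (i, x) η * Γ.ZM η * Γ.ZR η = Γ.w (i, x) η * (Γ.ZM η * Γ.ZR η) := by ring
      _ ≤ A * B := key
      _ ≤ A * Γ.ZR η := mul_le_mul_of_nonneg_left t2 hA0
  · refine le_of_mul_le_mul_right ?_ ZM
    calc Γ.w (i, x) η * Γ.ZR η * Γ.ZM η = Γ.w (i, x) η * (Γ.ZM η * Γ.ZR η) := by ring
      _ ≤ A * B := key
      _ ≤ Γ.ZM η * B := mul_le_mul_of_nonneg_right t1 hB0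
      _ = B * Γ.ZM η := mul_comm _ _

/-! ### The form of `SysP84` -/

open Pool.Agent.W_7d29a1_C1.SysP84 (fh84 PMP84)
open Pool.Agent.W_7d29a1_C1.FarW89 (nk bl bl_add ker_nk)

/-- The mass through the places `Q` in terms of the forward masses. -/
theorem pmp_eq {μ : MeasureTheory.Measure ℝ} {s h : ℝ} {η : Env} {p : ℕ → ℝ} {M : ℕ} {l : ℤ → ℝ} {a n : ℕ} {x : ℤ} (Q : ℤ → Prop)
    [DecidablePred Q] : PMP84 μ s h η p M l (a + n) a x Q =
      Real.exp (-(((a + n : ℕ) : ℝ) * lam μ s + h * sl μ s * bl M 0 (a + n))) * wt η (a + n) x *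
        ∑ z ∈ (Icc (x - n) x).filter Q, fw (wt η) p l a z * ker (wt η) p a n z x := by
  unfold PMP84
  rw [Nat.add_sub_cancel_left, mul_sum]
  refine sum_congr rfl fun z _ => ?_
  have h1 := wt_pos η a z
  have h2 := wt_pos η (a + n) x
  rw [ker_nk (μ := μ) (s := s) (h := h) (M := M)]
  unfold fh84
  have e1 : Real.exp (-(((a + n : ℕ) : ℝ) * lam μ s + h * sl μ s * bl M 0 (a + n))) *
      Real.exp ((n : ℝ) * lam μ s + h * sl μ s * bl M a n) = Real.exp (-((a : ℝ) * lam μ s + h * sl μ s * bl M 0 a)) := by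
    rw [← Real.exp_add, bl_add, zero_add]
    congr 1
    push_cast
    ring
  rw [← e1]
  field_simp

/-- **The top hypothesis of the past.** -/
theorem pmp_le {μ : MeasureTheory.Measure ℝ} {s h : ℝ} {η : Env} {p : ℕ → ℝ} {M : ℕ} {l : ℤ → ℝ} {a n : ℕ} {x : ℤ} {Q : ℤ → Prop}
    [DecidablePred Q] {θ : ℝ}
    (hQ : ∑ z ∈ (Icc (x - n) x).filter Q, fw (wt η) p l a z * ker (wt η) p a n z x ≤ θ * fw (wt η) p l (a + n) x) :
    PMP84 μ s h η p M l (a + n) a x Q ≤ θ * fh84 μ s h η p M l (a + n) x := by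
  rw [pmp_eq]
  unfold fh84
  have h2 := wt_pos η (a + n) x
  have h3 := mul_le_mul_of_nonneg_left hQ (mul_nonneg (Real.exp_pos
    (-(((a + n : ℕ) : ℝ) * lam μ s + h * sl μ s * bl M 0 (a + n)))).le h2.le)
  refine h3.trans (le_of_eq ?_)
  ring

/-- The crude comparison of the normalised forward masses. -/
theorem fh_le {μ : MeasureTheory.Measure ℝ} {s h : ℝ} {η : Env} {p : ℕ → ℝ} {M : ℕ} {l : ℤ → ℝ} {k : ℕ} {x x' : ℤ} {A ν : ℝ}
    (hf : fw (wt η) p l k x ≤ Real.exp A * fw (wt η) p l k x') (hf0 : 0 ≤ fw (wt η) p l k x') (hwt : wt η k x ≤ Real.exp ν * wt η k x') :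
    fh84 μ s h η p M l k x ≤ Real.exp (A + ν) * fh84 μ s h η p M l k x' := by
  unfold fh84
  have h2 := wt_pos η k x
  have h3 := wt_pos η k x'
  have h4 := mul_le_mul hf hwt h2.le (mul_nonneg (Real.exp_pos A).le hf0)
  have h5 := mul_le_mul_of_nonneg_left h4 (Real.exp_pos (-((k : ℝ) * lam μ s + h * sl μ s * bl M 0 k))).le
  refine h5.trans (le_of_eq ?_)
  rw [Real.exp_add]
  ring

end

end Pool.Agent.W_7d29a1_C1.D31
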