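import Pool.Agent.W_7d29a1_C1.VIn31
import Pool.Agent.W_7d29a1_C1.Loc31
import Pool.Agent.W_7d29a1_C1.EL60
import Pool.Agent.W_7d29a1_C1.CtxM68

/-!
MP_7d29a1_pr, attractor route [C1], SHELL: THE EVENTS `V` OF THE FRAME (helper31): the data `DW31` of the ball of level `o = t + m₂` of the
leaf, rows `i = z_o - T_o`, `i + n = z_o + T_o`, line through `z_t`. Measurable, blind to the ball, the same for leaves with the same `z_t`.
-/

set_option autoImplicit false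

namespace Pool.Agent.W_7d29a1_C1.D31

open MeasureTheory Finset
open Pool.Agent.W_7d29a1_F Pool.Agent.W_7d29a1_h4g Pool.Agent.W_7d29a1_H Pool.Agent.W_7d29a1_HS
open Pool.Agent.W_7d29a1_C1.S71 Pool.Agent.W_7d29a1_C1.T10
open Pool.Agent.W_7d29a1_C1.H60 (Cx AT mem_AT)
open Pool.Agent.W_7d29a1_C1.K91 (wt wt_pos)
open Pool.Agent.W_7d29a1_C1.K91P

noncomputable section

/-- The numbers of the events `V` (functions of the scale `t`). `Ts` = the scales, `j₀` = first scale, `E`, `w` = units of the envelope,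
windows `W1 ≤ W2`, `W1'`. -/
structure NV31 where
  Ts : ℕ → ℕ
  E : ℕ → ℝ
  w : ℕ → ℝ
  j₀ : ℕ
  m₂ : ℕ
  P : ℕ
  c₁ : ℝ
  c₃ : ℝ
  Q : ℝ
  S : ℝ
  W1 : ℕ → ℝ
  W1' : ℕ → ℝ
  W2 : ℕ → ℝ
  g : ℕ → ℝ
  q₁ : ℕ → ℝ
  q₂ : ℕ → ℝ
  gf : ℕ → ℝ

namespace NV31

variable (ν : NV31) (G : Gd) (t : ℕ) (c : ℕ × ℤ)

/-- The lower edge row of the ball. -/
def row : ℕ := (G.z (t + ν.m₂) c).1 - ν.Ts (t + ν.m₂)

/-- The number of its rows. -/
def nr : ℕ := 2 * ν.Ts (t + ν.m₂)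

/-- The line through `z_t` at the lower edge. -/
def cn (sl : ℝ) : ℝ := ((G.z t c).2 : ℝ) + sl * ((ν.row G t c : ℝ) - ((G.z t c).1 : ℝ))

/-- The line at the upper edge. -/
def cn' (sl : ℝ) : ℝ := ν.cn G t c sl + sl * (ν.nr t : ℝ)

end NV31

/-- The future at the upper edge. -/
def GV (Γ : Cx) (ν : NV31) (G : Gd) (t : ℕ) (c : ℕ × ℤ) (ω : Env) (z : ℤ) : ℝ := GG (wt ω) Γ.p Γ.N (ν.row G t c + ν.nr t) z

/-- **THE EVENT `V t c`.** -/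
def V31 (μ : Measure ℝ) (s : ℝ) (Γ : Cx) (ν : NV31) (G : Gd) (t : ℕ) (c : ℕ × ℤ) : Set Env :=
  {ω | ν.j₀ ≤ t ∧ DW31 (Icc 0 Γ.hi) (ν.cn G t c (sl μ s)) (ν.cn' G t c (sl μ s)) (ν.W1 t) (ν.W1' t) (ν.W2 t)
    (kap31 ν.P ν.c₁ ν.c₃ ν.Q ν.S (ν.E t) (ν.w t) (ν.cn G t c (sl μ s)) (ν.cn' G t c (sl μ s)) (ν.nr t))
    ⌈ν.cn G t c (sl μ s) - ν.W1 t⌉ ⌊ν.cn G t c (sl μ s) + ν.W1 t⌋ ⌊ν.cn' G t c (sl μ s)⌋
    (ν.g t) (ν.q₁ t) (ν.q₂ t) (ν.gf t) (fw (wt ω) Γ.p Cx.l (ν.row G t c)) (fw (wt ω) Γ.p Γ.r (ν.row G t c)) (GV Γ ν G t c ω)}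

variable {μ : Measure ℝ} {s : ℝ} {Γ : Cx} {ν : NV31} {G : Gd} {t : ℕ} {c : ℕ × ℤ}

/-- `V` depends on the box of level `t` only. -/
theorem eV31 {L : ℕ} (hG : G.Ok L) (ht : t + ν.m₂ ≤ L) {d : ℕ × ℤ} (hcd : G.z t c = G.z t d) :
    V31 μ s Γ ν G t c = V31 μ s Γ ν G t d := by
  have h1 : G.z (t + ν.m₂) c = G.z (t + ν.m₂) d := hG.z_nested (Nat.le_add_right t ν.m₂) ht hcd
  have h2 : ν.row G t c = ν.row G t d := by
    unfold NV31.row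
    rw [h1]
  have h3 : ν.cn G t c (sl μ s) = ν.cn G t d (sl μ s) := by
    unfold NV31.cn
    rw [h2, hcd]
  have h4 : ν.cn' G t c (sl μ s) = ν.cn' G t d (sl μ s) := by
    unfold NV31.cn'
    rw [h3]
  have h5 : ∀ ω, GV Γ ν G t c ω = GV Γ ν G t d ω := by
    intro ω
    unfold GV
    rw [h2]
  unfold V31
  rw [h2, h3, h4]
  simp only [h5]

/-- **`V` is blind to the ball.** -/
theorem oV31 : Off (T10.At (G.x (t + ν.m₂) c) (AT ν.Ts (t + ν.m₂))) (V31 μ s Γ ν G t c) := by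
  intro η η' h
  have hrow : ∀ j : ℕ, j < ν.row G t c ∨ ν.row G t c + ν.nr t < j → ∀ y, wt η j y = wt η' j y := by
    intro j hj y
    have h1 : (((j : ℤ), y) : Pt) ∉ T10.At (G.x (t + ν.m₂) c) (AT ν.Ts (t + ν.m₂)) := by
      intro hmem
      have h2 : (((j : ℤ), y) : Pt) - G.x (t + ν.m₂) c ∈ AT ν.Ts (t + ν.m₂) := hmem
      rw [mem_AT] at h2
      have h3 : ((((j : ℤ), y) : Pt) - G.x (t + ν.m₂) c).1 = (j : ℤ) - ((G.z (t + ν.m₂) c).1 : ℤ) := rfl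
      rw [h3] at h2
      unfold NV31.row NV31.nr at hj
      rcases hj with hj | hj <;> omega
    unfold wt
    rw [h _ h1]
  have e1 : fw (wt η) Γ.p Cx.l (ν.row G t c) = fw (wt η') Γ.p Cx.l (ν.row G t c) := by
    funext y
    exact fw_congr _ (fun i hi y => hrow i (Or.inl hi) y) y
  have e2 : fw (wt η) Γ.p Γ.r (ν.row G t c) = fw (wt η') Γ.p Γ.r (ν.row G t c) := by
    funext y
    exact fw_congr _ (fun i hi y => hrow i (Or.inl hi) y) y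
  have e3 : GV Γ ν G t c η = GV Γ ν G t c η' := by
    funext z
    unfold GV GG
    rw [bw_congr _ _ (fun i hi y => hrow i (Or.inr (by omega)) y) z, bw_congr _ _ (fun i hi y => hrow i (Or.inr (by omega)) y) (z + 1)]
  show (_ ∧ _) ↔ (_ ∧ _)
  rw [e1, e2, e3]

/-! ### Measurability -/

theorem meas_imp31 {Ω : Type*} [MeasurableSpace Ω] {A : Prop} {B : Set Ω} (hB : MeasurableSet B) : MeasurableSet {ω : Ω | A → ω ∈ B} := by
  by_cases hA : A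
  · have e : {ω : Ω | A → ω ∈ B} = B := Set.ext fun ω => ⟨fun h => h hA, fun h _ => h⟩
    rw [e]
    exact hB
  · have e : {ω : Ω | A → ω ∈ B} = Set.univ := Set.ext fun ω => ⟨fun _ => trivial, fun _ h => absurd h hA⟩
    rw [e]
    exact MeasurableSet.univ

/-- The clause of tameness. -/
theorem meas_tm31 {Ω : Type*} [MeasurableSpace Ω] {f : Ω → ℤ → ℝ} (hf : ∀ x, Measurable fun ω => f ω x) (A : ℤ → Prop) (q : ℝ) :
    MeasurableSet {ω | ∀ x x' : ℤ, A x → A x' → f ω x ≤ Real.exp q * f ω x'} := by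
  have e : {ω | ∀ x x' : ℤ, A x → A x' → f ω x ≤ Real.exp q * f ω x'} =
      ⋂ x : ℤ, ⋂ x' : ℤ, {ω | A x → ω ∈ {ω | A x' → ω ∈ {ω | f ω x ≤ Real.exp q * f ω x'}}} := by
    ext ω
    simp only [Set.mem_iInter]
    exact Iff.rfl
  rw [e]
  exact MeasurableSet.iInter fun x => MeasurableSet.iInter fun x' => meas_imp31 (meas_imp31
    (measurableSet_le (hf x) ((hf x').const_mul _)))

theorem meas_DW31 {Ω : Type*} [MeasurableSpace Ω] {I : Finset ℤ} {cen cen' W₁ W₁' W₂ : ℝ} {kap : ℤ → ℤ → ℝ} {yl yr yp : ℤ}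
    {g q₁ q₂ gf : ℝ} {L R F : Ω → ℤ → ℝ} (hL : ∀ x, Measurable fun ω => L ω x) (hR : ∀ x, Measurable fun ω => R ω x)
    (hF : ∀ x, Measurable fun ω => F ω x) :
    MeasurableSet {ω | DW31 I cen cen' W₁ W₁' W₂ kap yl yr yp g q₁ q₂ gf (L ω) (R ω) (F ω)} := by
  have fs : ∀ {X : Ω → ℤ → ℝ}, (∀ x, Measurable fun ω => X ω x) → Measurable fun ω => fsum I cen cen' W₂ kap (X ω) (F ω) := by
    intro X hX
    unfold fsum
    refine Finset.measurable_fun_sum _ fun x _ => Finset.measurable_fun_sum _ fun z _ => ?_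
    split_ifs
    · exact measurable_const
    · exact ((hX x).mul_const _).mul (hF z)
  have e : {ω | DW31 I cen cen' W₁ W₁' W₂ kap yl yr yp g q₁ q₂ gf (L ω) (R ω) (F ω)} =
      {ω | 0 < L ω yl} ∩ ({ω | 0 < L ω yr} ∩ ({ω | 0 < R ω yl} ∩ ({ω | 0 < R ω yr} ∩ ({ω | 0 < F ω yp} ∩
      ({ω | g ≤ Real.log (L ω yl) + Real.log (R ω yr) - Real.log (L ω yr) - Real.log (R ω yl)} ∩
      ({ω | ∀ x x' : ℤ, |(x : ℝ) - cen| ≤ W₂ → |(x' : ℝ) - cen| ≤ W₂ → L ω x ≤ Real.exp q₂ * L ω x'} ∩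
      ({ω | ∀ x x' : ℤ, |(x : ℝ) - cen| ≤ W₂ → |(x' : ℝ) - cen| ≤ W₂ → R ω x ≤ Real.exp q₂ * R ω x'} ∩
      ({ω | ∀ x x' : ℤ, |(x : ℝ) - cen'| ≤ W₂ → |(x' : ℝ) - cen'| ≤ W₂ → F ω x ≤ Real.exp q₂ * F ω x'} ∩
      ({ω | fsum I cen cen' W₂ kap (L ω) (F ω) ≤ Real.exp (-gf) * (L ω yl * F ω yp)} ∩
      ({ω | fsum I cen cen' W₂ kap (R ω) (F ω) ≤ Real.exp (-gf) * (R ω yr * F ω yp)} ∩
      ({ω | |(yl : ℝ) - cen| ≤ W₁} ∩ ({ω | |(yr : ℝ) - cen| ≤ W₁} ∩ ({ω | |(yp : ℝ) - cen'| ≤ W₁} ∩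
      ({ω | ∀ x x' : ℤ, |(x : ℝ) - cen| ≤ W₁' → |(x' : ℝ) - cen| ≤ W₁' → L ω x ≤ Real.exp q₁ * L ω x'} ∩
      {ω | ∀ x x' : ℤ, |(x : ℝ) - cen| ≤ W₁' → |(x' : ℝ) - cen| ≤ W₁' → R ω x ≤ Real.exp q₁ * R ω x'})))))))))))))) := by
    ext ω
    constructor
    · intro h
      exact ⟨h.dp.Ll, h.dp.Lr, h.dp.Rl, h.dp.Rr, h.dp.Fp, h.dp.win, h.dp.tL, h.dp.tR, h.dp.tF, h.dp.farL, h.dp.farR, h.yl1, h.yr1,
        h.yp1, h.t1L, h.t1R⟩
    · rintro ⟨h1, h2, h3, h4, h5, h6, h7, h8, h9, h10, h11, h12, h13, h14, h15, h16⟩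
      exact ⟨⟨h1, h2, h3, h4, h5, h6, h7, h8, h9, h10, h11⟩, h12, h13, h14, h15, h16⟩
  rw [e]
  have c0 : ∀ {A : Prop}, MeasurableSet {_ω : Ω | A} := fun {A} => MeasurableSet.const A
  refine (measurableSet_lt measurable_const (hL yl)).inter ((measurableSet_lt measurable_const (hL yr)).inter
    ((measurableSet_lt measurable_const (hR yl)).inter ((measurableSet_lt measurable_const (hR yr)).inter
    ((measurableSet_lt measurable_const (hF yp)).inter ((measurableSet_le measurable_const ((((hL yl).log.add (hR yr).log).sub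
      (hL yr).log).sub (hR yl).log)).inter ((meas_tm31 hL _ _).inter ((meas_tm31 hR _ _).inter ((meas_tm31 hF _ _).inter
    ((measurableSet_le (fs hL) (((hL yl).mul (hF yp)).const_mul _)).inter
    ((measurableSet_le (fs hR) (((hR yr).mul (hF yp)).const_mul _)).inter (c0.inter (c0.inter (c0.inter
    ((meas_tm31 hL _ _).inter (meas_tm31 hR _ _)))))))))))))))

/-- **`V` is measurable.** -/
theorem mV31 : MeasurableSet (V31 μ s Γ ν G t c) := by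
  have h1 : MeasurableSet {_ω : Env | ν.j₀ ≤ t} := MeasurableSet.const _
  refine h1.inter (meas_DW31 (fun x => meas_fw _ _ _) (fun x => meas_fw _ _ _) fun x => ?_)
  unfold GV GG
  exact (meas_bw _ _ _).add ((meas_bw _ _ _).const_mul _)

end

end Pool.Agent.W_7d29a1_C1.D31
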