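import Pool.Agent.W_7d29a1_C1.TamK16
import Pool.Agent.W_7d29a1_HZ.PB
import Pool.Agent.W_7d29a1_C1.PastT31
import Pool.Agent.W_7d29a1_C1.VDef31

/-!
MP_7d29a1_pr, attractor route [C1], SHELL: THE COLUMN OF A CONTACT (helper56, for helper31 `vin31`).

`lat56`: a contact of weight `> 2 θ` lies within `4 A wd i + T` of the line (crude arms: the field `ca` of `CrS84` of helper84, literally,
with `A = N ^ ε`, `θ = exp (-N ^ c')`; behind the force two arms through the last row of the force). `latNum56`: the numbers. `box56`: the hypotheses `hb1`, `hb2`, `hR1`, `hR2` of `vin31`.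
-/

set_option autoImplicit false

namespace Pool.Agent.W_7d29a1_C1.H56

open MeasureTheory ProbabilityTheory Filter Topology Finset
open Pool.Agent.W_7d29a1_F Pool.Agent.W_7d29a1_h4g Pool.Agent.W_7d29a1_H
open Pool.Agent.W_7d29a1_HS (In wd)
open Pool.Agent.W_7d29a1_HZ (wd' wd'_pow)
open Pool.Agent.W_7d29a1_C1.U16 Pool.Agent.W_7d29a1_C1.FarW89
open Pool.Agent.W_7d29a1_C1.H60 (Cx)
open Pool.Agent.W_7d29a1_C1.T10
open Pool.Agent.W_7d29a1_C1.K91 (wt wt_pos)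
open Pool.Agent.W_7d29a1_C1.K91P (fw bw bw_pos)
open Pool.Agent.W_7d29a1_C1.D31

noncomputable section

/-! ### Two arms -/

section arm

variable {K : ℕ → ℕ → ℤ → ℤ → ℝ} {B : ℕ → ℤ → ℝ} {N : ℕ}

/-- The mass through a set of places, along the rows. -/
theorem pm_comp56 (S : Sys16 K B N) {a b e : ℕ} (hab : a ≤ b) (hbe : b ≤ e) (x : ℤ) (Q : ℤ → Prop) [DecidablePred Q] :
    PM16 K B a e x Q = ∑ y ∈ Icc x (x + ((b - a : ℕ) : ℤ)), K a b x y * PM16 K B b e y Q := by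
  have h1 : ∀ y ∈ Icc x (x + ((b - a : ℕ) : ℤ)), K a b x y * PM16 K B b e y Q =
      ∑ z ∈ (Icc x (x + ((e - a : ℕ) : ℤ))).filter Q, K a b x y * (K b e y z * B e z) := by
    intro y hy
    rw [mem_Icc] at hy
    unfold PM16
    rw [mul_sum]
    refine sum_subset (filter_subset_filter _ (Icc_subset_Icc hy.1 (by omega))) fun z hz hz' => ?_
    have h2 : K b e y z = 0 := by
      refine S.out b e y z hbe fun h3 => hz' ?_
      exact mem_filter.2 ⟨mem_Icc.2 h3, (mem_filter.1 hz).2⟩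
    rw [h2, zero_mul, mul_zero]
  rw [sum_congr rfl h1, sum_comm]
  unfold PM16
  refine sum_congr rfl fun z _ => ?_
  rw [S.comp a b e x z hab hbe, sum_mul]
  exact sum_congr rfl fun y _ => by ring

/-- **Two arms.** -/
theorem two_arm56 (S : Sys16 K B N) {a b e : ℕ} (hab : a ≤ b) (hbe : b ≤ e) (heN : e ≤ N) {x : ℤ} {Q1 Q : ℤ → Prop} {Q2 : ℤ → ℤ → Prop}
    [DecidablePred Q1] [DecidablePred Q] [∀ y, DecidablePred (Q2 y)] {θ1 θ2 : ℝ} (h1 : PM16 K B a b x Q1 ≤ θ1 * B a x)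
    (h2 : ∀ y, x ≤ y → y ≤ x + ((b - a : ℕ) : ℤ) → PM16 K B b e y (Q2 y) ≤ θ2 * B b y) (hθ2 : 0 ≤ θ2)
    (hQ : ∀ y z, Q z → ¬ Q1 y → Q2 y z) : PM16 K B a e x Q ≤ (θ1 + θ2) * B a x := by
  rw [pm_comp56 S hab hbe]
  have h3 : ∀ y ∈ Icc x (x + ((b - a : ℕ) : ℤ)), K a b x y * PM16 K B b e y Q ≤
      (if Q1 y then K a b x y * B b y else 0) + θ2 * (K a b x y * B b y) := by
    intro y hy
    have hk := S.k0 a b x y
    have hb := (S.b0 b y (hbe.trans heN)).le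
    rw [mem_Icc] at hy
    by_cases hq : Q1 y
    · rw [if_pos hq]
      have h4 : PM16 K B b e y Q ≤ B b y := by
        have h5 := PM16_split S hbe heN y Q
        have h6 := PM16_nonneg S (a := b) heN y (fun z => ¬ Q z)
        linarith
      have h5 := mul_le_mul_of_nonneg_left h4 hk
      have h6 : 0 ≤ θ2 * (K a b x y * B b y) := by positivity
      linarith
    · rw [if_neg hq, zero_add]
      have h4 := (PM16_mono S heN y fun z _ _ hz => hQ y z hz hq).trans (h2 y hy.1 hy.2)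
      have h5 := mul_le_mul_of_nonneg_left h4 hk
      linarith [show θ2 * (K a b x y * B b y) = K a b x y * (θ2 * B b y) by ring]
  refine (sum_le_sum h3).trans ?_
  rw [sum_add_distrib, ← mul_sum, ← S.step a b x hab (hbe.trans heN), ← sum_filter, add_mul]
  have h4 : ∑ y ∈ (Icc x (x + ((b - a : ℕ) : ℤ))).filter Q1, K a b x y * B b y = PM16 K B a b x Q1 := rfl
  rw [h4]
  linarith

end arm

/-! ### The weight of a contact against the mass of the left walker -/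

section wgt

variable {μ : Measure ℝ} {s : ℝ} {Γ : Cx}

/-- The forward mass of the left group is the kernel from the site `0`. -/
theorem fwl56 (η : Env) (i : ℕ) (z : ℤ) : fw (wt η) Γ.p Cx.l i z ≤ ker (wt η) Γ.p 0 i 0 z := by
  have h1 := fw_ker (w := wt η) (p := Γ.p) (l := Cx.l) 0 i z
  rw [zero_add] at h1
  have hk := ker_nonneg (wt_pos η) Γ.p_pos 0 i 0 z
  rw [h1]
  have h2 : ∀ x ∈ Icc (z - i) z, fw (wt η) Γ.p Cx.l 0 x * ker (wt η) Γ.p 0 i x z = if x = 0 then ker (wt η) Γ.p 0 i 0 z else 0 := by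
    intro x _
    show Cx.l x * _ = _
    unfold Cx.l
    by_cases hx : x = 0
    · rw [if_pos hx, if_pos hx, one_mul, hx]
    · rw [if_neg hx, if_neg hx, zero_mul]
  rw [sum_congr rfl h2, sum_ite_eq']
  split_ifs
  · exact le_rfl
  · exact hk

/-- **The weight of a contact** is at most the probability that the left walker passes next to it. -/
theorem mass56 (hΓ : Γ.Ok) {c : ℕ × ℤ} (hc : c ∈ Γ.rows 0 Γ.N) (η : Env) : Γ.w c η * bh16 μ s Γ.h η Γ.p Γ.M Γ.N 0 0 ≤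
    nk μ s Γ.h η Γ.p Γ.M 0 c.1 0 (c.2 - 1) * bh16 μ s Γ.h η Γ.p Γ.M Γ.N c.1 (c.2 - 1) := by
  have hi : c.1 < Γ.N := (Cx.mem_rows.1 hc).1.2
  have h0 := (contact_place hΓ hc η).1
  have hb := bw_pos (wt_pos η) Γ.p_pos (Γ.N - c.1) c.1 (c.2 - 1)
  have h1 := h0.trans (mul_le_mul_of_nonneg_right (fwl56 η c.1 (c.2 - 1)) hb.le)
  unfold Cx.ZM at h1
  have e0 := bw_bh16 (μ := μ) (s := s) (h := Γ.h) (η := η) (p := Γ.p) (M := Γ.M) (N := Γ.N) (a := 0) 0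
  have e1 := bw_bh16 (μ := μ) (s := s) (h := Γ.h) (η := η) (p := Γ.p) (M := Γ.M) (N := Γ.N) (a := c.1) (c.2 - 1)
  have e2 := ker_nk (μ := μ) (s := s) (h := Γ.h) (η := η) (p := Γ.p) (M := Γ.M) 0 c.1 0 (c.2 - 1)
  rw [Nat.sub_zero] at e0
  rw [zero_add] at e2
  rw [e0, e1, e2] at h1
  have w0 := wt_pos η 0 0
  have w1 := wt_pos η c.1 (c.2 - 1)
  have e3 : Real.exp ((c.1 : ℝ) * lam μ s + Γ.h * sl μ s * bl Γ.M 0 c.1) *
      Real.exp (((Γ.N - c.1 : ℕ) : ℝ) * lam μ s + Γ.h * sl μ s * bl Γ.M c.1 (Γ.N - c.1)) =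
      Real.exp ((Γ.N : ℝ) * lam μ s + Γ.h * sl μ s * bl Γ.M 0 Γ.N) := by
    rw [← Real.exp_add]
    have e4 : bl Γ.M 0 Γ.N = bl Γ.M 0 c.1 + bl Γ.M c.1 (Γ.N - c.1) := by
      have := bl_add Γ.M 0 c.1 (Γ.N - c.1)
      rwa [Nat.add_sub_cancel' hi.le, zero_add] at this
    have e5 : (Γ.N : ℝ) = (c.1 : ℝ) + ((Γ.N - c.1 : ℕ) : ℝ) := by
      rw [Nat.cast_sub hi.le]
      ring
    rw [e4, e5]
    congr 1
    push_cast
    ring
  have hE := Real.exp_pos ((Γ.N : ℝ) * lam μ s + Γ.h * sl μ s * bl Γ.M 0 Γ.N)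
  obtain ⟨E, hEd⟩ : ∃ E, E = Real.exp ((Γ.N : ℝ) * lam μ s + Γ.h * sl μ s * bl Γ.M 0 Γ.N) := ⟨_, rfl⟩
  obtain ⟨E1, hE1⟩ : ∃ E1, E1 = Real.exp ((c.1 : ℝ) * lam μ s + Γ.h * sl μ s * bl Γ.M 0 c.1) := ⟨_, rfl⟩
  obtain ⟨E2, hE2⟩ : ∃ E2, E2 = Real.exp (((Γ.N - c.1 : ℕ) : ℝ) * lam μ s + Γ.h * sl μ s * bl Γ.M c.1 (Γ.N - c.1)) := ⟨_, rfl⟩
  rw [← hEd, ← hE1, ← hE2] at h1
  rw [← hEd, ← hE1, ← hE2] at e3
  rw [← hEd] at hE
  refine le_of_mul_le_mul_left ?_ (mul_pos hE w0)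
  calc E * wt η 0 0 * (Γ.w c η * bh16 μ s Γ.h η Γ.p Γ.M Γ.N 0 0)
      = Γ.w c η * (E * (wt η 0 0 * bh16 μ s Γ.h η Γ.p Γ.M Γ.N 0 0)) := by ring
    _ ≤ _ := h1
    _ = (E1 * E2) * wt η 0 0 * (nk μ s Γ.h η Γ.p Γ.M 0 c.1 0 (c.2 - 1) * bh16 μ s Γ.h η Γ.p Γ.M Γ.N c.1 (c.2 - 1)) := by
        field_simp
    _ = _ := by rw [e3]

/-- A contact of positive weight is in the cone of the left walker. -/
theorem cone56 (hΓ : Γ.Ok) {c : ℕ × ℤ} (hc : c ∈ Γ.rows 0 Γ.N) {η : Env} (hw : 0 < Γ.w c η) : 1 ≤ c.2 ∧ c.2 ≤ c.1 + 1 := by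
  have h0 := (contact_place hΓ hc η).1
  have hb := bw_pos (wt_pos η) Γ.p_pos (Γ.N - c.1) c.1 (c.2 - 1)
  have h1 := h0.trans (mul_le_mul_of_nonneg_right (fwl56 η c.1 (c.2 - 1)) hb.le)
  have h2 := mul_pos hw (Γ.ZM_pos η)
  by_contra hcon
  rw [ker_eq_zero 0 c.1 0 (c.2 - 1) (by omega), zero_mul] at h1
  linarith

/-- **Few passages, small weight.** -/
theorem small56 (hΓ : Γ.Ok) {c : ℕ × ℤ} (hc : c ∈ Γ.rows 0 Γ.N) {η : Env} {Q : ℤ → Prop} [DecidablePred Q] {θ : ℝ} (hθ : 0 ≤ θ)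
    (hPM : PM16 (fun a b x z => nk μ s Γ.h η Γ.p Γ.M a (b - a) x z) (bh16 μ s Γ.h η Γ.p Γ.M Γ.N) 0 c.1 0 Q ≤
      θ * bh16 μ s Γ.h η Γ.p Γ.M Γ.N 0 0) (hQ : Q (c.2 - 1)) : Γ.w c η ≤ θ := by
  rcases le_or_gt (Γ.w c η) 0 with h0 | h0
  · exact h0.trans hθ
  have hi : c.1 < Γ.N := (Cx.mem_rows.1 hc).1.2
  have S := sys_model16 (μ := μ) (s := s) (h := Γ.h) (η := η) (M := Γ.M) (N := Γ.N) Γ.p_pos
  have hb := S.b0 0 0 (Nat.zero_le _)
  have h1 := cone56 hΓ hc h0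
  refine le_of_mul_le_mul_right ?_ hb
  refine (mass56 (μ := μ) (s := s) hΓ hc η).trans (le_trans ?_ hPM)
  unfold PM16
  have hmem : c.2 - 1 ∈ (Icc (0 : ℤ) (0 + ((c.1 - 0 : ℕ) : ℤ))).filter Q := by
    rw [mem_filter, mem_Icc]
    exact ⟨by omega, hQ⟩
  exact single_le_sum (f := fun z => nk μ s Γ.h η Γ.p Γ.M 0 (c.1 - 0) 0 z * bh16 μ s Γ.h η Γ.p Γ.M Γ.N c.1 z)
    (fun z _ => mul_nonneg (S.k0 0 c.1 0 z) (S.b0 _ _ hi.le).le) hmem

end wgt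

/-! ### The column -/

section col

variable {μ : Measure ℝ} {s : ℝ} [IsProbabilityMeasure μ] {c₀ C : ℝ} {n₀ : ℕ} {Γ : Cx}

/-- **THE COLUMN OF A CONTACT.** -/
theorem lat56 (h : In μ s c₀ C n₀) (hΓ : Γ.Ok) {η : Env} {A θ : ℝ} (hA : 0 ≤ A) (hθ : 0 ≤ θ) {N T : ℕ} (hT : 1 ≤ T) (hM : Γ.M ≤ 4 * N)
    (hhT : |Γ.h| * T ≤ 1) (hca : ∀ a m : ℕ, T ≤ m → a + m + 1 ≤ Γ.N → (m ≤ Γ.M - a ∨ |Γ.h| * ((Γ.M - a : ℕ) : ℝ) ≤ 1) → ∀ x : ℤ,
      |x| ≤ 4 * N → PM16 (fun a b x z => nk μ s Γ.h η Γ.p Γ.M a (b - a) x z) (bh16 μ s Γ.h η Γ.p Γ.M Γ.N) a (a + m) x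
        (fun z => A * wd μ s m ≤ |(z : ℝ) - x - sl μ s * m|) ≤ θ * bh16 μ s Γ.h η Γ.p Γ.M Γ.N a x)
    {c : ℕ × ℤ} (hc : c ∈ Γ.rows 0 Γ.N) (hTc : T ≤ c.1) (hw : 2 * θ < Γ.w c η) :
    1 ≤ c.2 ∧ c.2 ≤ c.1 + 1 ∧ |(c.2 : ℝ) - 1 - sl μ s * c.1| < 4 * (A * wd μ s c.1) + T := by
  have hi : c.1 < Γ.N := (Cx.mem_rows.1 hc).1.2
  have S := sys_model16 (μ := μ) (s := s) (h := Γ.h) (η := η) (M := Γ.M) (N := Γ.N) Γ.p_pos
  have hb := S.b0 0 0 (Nat.zero_le _)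
  have h1 := cone56 hΓ hc (η := η) (by linarith)
  refine ⟨h1.1, h1.2, ?_⟩
  have hTR : (1 : ℝ) ≤ T := by exact_mod_cast hT
  have hwc := h.wd_nonneg c.1
  have hs0 := h.sl_pos.le
  have hs1 := h.sl_lt.le
  have hx4 : |(0 : ℤ)| ≤ 4 * (N : ℤ) := by rw [abs_zero]; positivity
  by_contra hcon
  rw [not_lt] at hcon
  have e1 : ((c.2 - 1 : ℤ) : ℝ) - ((0 : ℤ) : ℝ) - sl μ s * c.1 = (c.2 : ℝ) - 1 - sl μ s * c.1 := by push_cast; ring
  have hAw : 0 ≤ A * wd μ s c.1 := mul_nonneg hA hwc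
  by_cases hcase : c.1 ≤ Γ.M - 0 ∨ |Γ.h| * ((Γ.M - 0 : ℕ) : ℝ) ≤ 1
  · -- one arm
    have h2 := hca 0 c.1 hTc (by omega) hcase 0 hx4
    rw [zero_add] at h2
    have h3 := small56 hΓ hc hθ h2 (by
      rw [e1]
      linarith)
    linarith
  · -- two arms
    rw [not_or, not_le, not_le, Nat.sub_zero] at hcase
    obtain ⟨hcM, hhM⟩ := hcase
    have hTM : T ≤ Γ.M := by
      by_contra h2
      rw [not_le] at h2
      have h3 : (Γ.M : ℝ) ≤ T := by exact_mod_cast h2.le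
      have h4 := mul_le_mul_of_nonneg_left h3 (abs_nonneg Γ.h)
      linarith
    have hM1 : 1 ≤ Γ.M := hT.trans hTM
    have a1 := hca 0 Γ.M hTM (by omega) (Or.inl (by omega)) 0 hx4
    rw [zero_add] at a1
    have hwM := Pool.Agent.W_7d29a1_HS.wd_le_two h hM1 hcM.le
    have hwM' := mul_le_mul_of_nonneg_left hwM hA
    obtain ⟨m, hm⟩ : ∃ m : ℕ, m = c.1 - Γ.M := ⟨_, rfl⟩
    have hmc : Γ.M + m = c.1 := by omega
    have hm1 : 1 ≤ m := by omega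
    have hmR : (c.1 : ℝ) = Γ.M + m := by rw [← hmc]; push_cast; ring
    obtain ⟨D2, hD2⟩ : ∃ D2 : ℝ, D2 = 2 * (A * wd μ s c.1) + T := ⟨_, rfl⟩
    -- the second arm
    have a2 : ∀ y : ℤ, 0 ≤ y → y ≤ 0 + ((Γ.M - 0 : ℕ) : ℤ) →
        PM16 (fun a b x z => nk μ s Γ.h η Γ.p Γ.M a (b - a) x z) (bh16 μ s Γ.h η Γ.p Γ.M Γ.N) Γ.M c.1 y
          (fun z => D2 ≤ |(z : ℝ) - y - sl μ s * m|) ≤ θ * bh16 μ s Γ.h η Γ.p Γ.M Γ.N Γ.M y := by
      intro y hy0 hy1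
      rcases le_or_gt T m with hTm | hTm
      · have hwm := Pool.Agent.W_7d29a1_HS.wd_le_two h hm1 (show m ≤ c.1 by omega)
        have hwm' := mul_le_mul_of_nonneg_left hwm hA
        have h2 := hca Γ.M m hTm (by omega) (Or.inr (by simp)) y (by
          rw [abs_of_nonneg hy0]
          have : (Γ.M : ℤ) ≤ 4 * (N : ℤ) := by exact_mod_cast hM
          omega)
        rw [hmc] at h2
        refine le_trans (PM16_mono S hi.le y fun z _ _ hz => ?_) h2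
        rw [hD2] at hz
        linarith
      · have h2 : PM16 (fun a b x z => nk μ s Γ.h η Γ.p Γ.M a (b - a) x z) (bh16 μ s Γ.h η Γ.p Γ.M Γ.N) Γ.M c.1 y
            (fun z => D2 ≤ |(z : ℝ) - y - sl μ s * m|) = 0 := by
          refine PM16_zero y fun z hz1 hz2 => ?_
          rw [not_le, hD2]
          have e2 : c.1 - Γ.M = m := hm.symm
          rw [e2] at hz2
          have b1 : (y : ℝ) ≤ z := by exact_mod_cast hz1
          have b2 : (z : ℝ) ≤ y + m := by exact_mod_cast hz2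
          have b3 : (m : ℝ) < T := by exact_mod_cast hTm
          have b4 : (0 : ℝ) ≤ m := Nat.cast_nonneg m
          have b5 := mul_nonneg hs0 b4
          have b6 := mul_le_mul_of_nonneg_right hs1 b4
          have b7 : |(z : ℝ) - y - sl μ s * m| ≤ m := by
            rw [abs_le]
            constructor <;> linarith
          linarith
        rw [h2]
        exact mul_nonneg hθ (S.b0 _ _ (by omega)).le
    have h3 := two_arm56 S (a := 0) (b := Γ.M) (e := c.1) (Nat.zero_le _) hcM.le hi.le (x := 0)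
      (Q := fun z : ℤ => 4 * (A * wd μ s c.1) + T ≤ |(z : ℝ) - ((0 : ℤ) : ℝ) - sl μ s * c.1|)
      (Q2 := fun (y z : ℤ) => D2 ≤ |(z : ℝ) - y - sl μ s * m|) a1 a2 hθ (fun y z hz hy => by
        rw [not_le] at hy
        rw [hD2]
        have b1 : |(z : ℝ) - ((0 : ℤ) : ℝ) - sl μ s * c.1| ≤ |(z : ℝ) - y - sl μ s * m| + |(y : ℝ) - ((0 : ℤ) : ℝ) - sl μ s * Γ.M| := by
          have e3 : (z : ℝ) - ((0 : ℤ) : ℝ) - sl μ s * c.1 =
              ((z : ℝ) - y - sl μ s * m) + ((y : ℝ) - ((0 : ℤ) : ℝ) - sl μ s * Γ.M) := by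
            rw [hmR]
            ring
          rw [e3]
          exact abs_add_le _ _
        linarith)
    have h4 := small56 hΓ hc (by positivity) h3 (by
      rw [e1]
      exact hcon)
    linarith

/-- **The numbers**: the crude window is small against the row. -/
theorem latNum56 (h : In μ s c₀ C n₀) {e p θ : ℝ} (he : 0 < e) (hp : 0 < p) (hθ : 0 < θ) : ∃ ε₀ : ℝ, 0 < ε₀ ∧ ∀ ε : ℝ, 0 ≤ ε → ε ≤ ε₀ →
    ∃ n₁ : ℕ, ∀ n N i : ℕ, n₁ ≤ n → (N : ℝ) ≤ (n : ℝ) ^ p → (n : ℝ) ^ e ≤ i → (N : ℝ) ^ ε * wd μ s i ≤ θ * i := by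
  obtain ⟨a, K, ha, ha1, hK, hw⟩ := wd'_pow h
  obtain ⟨B, hB⟩ : ∃ B : ℝ, B = K * wd' μ s 1 := ⟨_, rfl⟩
  have hB0 : 0 ≤ B := by
    have h1 : (1 : ℝ) ≤ wd' μ s 1 := le_max_left _ _
    rw [hB]
    positivity
  refine ⟨e * a / (2 * p), by positivity, fun ε hε0 hε => ?_⟩
  have h1 := ((tendsto_rpow_atTop (show (0 : ℝ) < e * (a / 2) by positivity)).comp tendsto_natCast_atTop_atTop).eventually_ge_atTop (B / θ)
  obtain ⟨n₁, hn₁⟩ := eventually_atTop.1 h1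
  refine ⟨max n₁ 1, fun n N i hn hN hi => ?_⟩
  have g1 : n₁ ≤ n := (le_max_left _ _).trans hn
  have g2 : 1 ≤ n := (le_max_right _ _).trans hn
  have hnR : (1 : ℝ) ≤ n := by exact_mod_cast g2
  have hn0 : (0 : ℝ) < n := by linarith
  have hi1 : (1 : ℝ) ≤ i := (Real.one_le_rpow hnR he.le).trans hi
  have hi1' : 1 ≤ i := by exact_mod_cast hi1
  have hi0 : (0 : ℝ) < i := by linarith
  have h2 := hn₁ n g1
  simp only [Function.comp] at h2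
  have h3 : (n : ℝ) ^ (e * (a / 2)) ≤ (i : ℝ) ^ (a / 2) := by
    rw [Real.rpow_mul hn0.le]
    exact Real.rpow_le_rpow (Real.rpow_nonneg hn0.le _) hi (by positivity)
  have h4 : (N : ℝ) ^ ε ≤ (i : ℝ) ^ (a / 2) := by
    calc (N : ℝ) ^ ε ≤ ((n : ℝ) ^ p) ^ ε := Real.rpow_le_rpow (Nat.cast_nonneg N) hN hε0
      _ = (n : ℝ) ^ (p * ε) := by rw [← Real.rpow_mul hn0.le]
      _ ≤ (n : ℝ) ^ (e * (a / 2)) := by
          refine Real.rpow_le_rpow_of_exponent_le hnR ?_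
          have h5 := mul_le_mul_of_nonneg_left hε hp.le
          have h6 : p * (e * a / (2 * p)) = e * (a / 2) := by field_simp
          linarith
      _ ≤ _ := h3
  have h5 : wd μ s i ≤ B * (i : ℝ) ^ (1 - a) := by
    have h6 := (hw 1 i le_rfl hi1').2.2
    have h7 : wd μ s i ≤ wd' μ s i := le_max_right _ _
    refine h7.trans (h6.trans (le_of_eq ?_))
    rw [Nat.cast_one, div_one, hB]
    ring
  have h6 : 0 ≤ (i : ℝ) ^ (a / 2) := Real.rpow_nonneg hi0.le _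
  have h7 : B ≤ θ * (i : ℝ) ^ (a / 2) := by
    have h8 := h2.trans h3
    rw [div_le_iff₀ hθ] at h8
    linarith
  calc (N : ℝ) ^ ε * wd μ s i ≤ (i : ℝ) ^ (a / 2) * (B * (i : ℝ) ^ (1 - a)) :=
        mul_le_mul h4 h5 (h.wd_nonneg i) h6
    _ = B * ((i : ℝ) ^ (a / 2) * (i : ℝ) ^ (1 - a)) := by ring
    _ = B * (i : ℝ) ^ (1 - a / 2) := by
        rw [← Real.rpow_add hi0]
        congr 2
        ring
    _ ≤ θ * (i : ℝ) ^ (a / 2) * (i : ℝ) ^ (1 - a / 2) := mul_le_mul_of_nonneg_right h7 (Real.rpow_nonneg hi0.le _)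
    _ = θ * i := by
        rw [mul_assoc, ← Real.rpow_add hi0]
        have e1 : a / 2 + (1 - a / 2) = 1 := by ring
        rw [e1, Real.rpow_one]

end col

/-! ### The boxes of `vin31` -/

section box

variable {μ : Measure ℝ} {s : ℝ} {Γ : Cx} {ν : NV31} {G : Gd} {t : ℕ} {c : ℕ × ℤ}

/-- The lower edge row against the row of the contact. -/
theorem row56 : ν.row G t c ≤ c.1 := by
  unfold NV31.row Gd.z
  exact (Nat.sub_le _ _).trans (Nat.mul_div_le _ _)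

theorem row_ge56 (hH : 0 < G.H (t + ν.m₂)) : c.1 ≤ ν.row G t c + (G.H (t + ν.m₂) + ν.Ts (t + ν.m₂)) := by
  have h1 := Nat.div_add_mod c.1 (G.H (t + ν.m₂))
  have h2 := Nat.mod_lt c.1 hH
  unfold NV31.row Gd.z
  show c.1 ≤ G.H (t + ν.m₂) * (c.1 / G.H (t + ν.m₂)) - ν.Ts (t + ν.m₂) + _
  omega

/-- **`hb1`, `hb2`, `hR1`, `hR2` OF `vin31`.** -/
theorem box56 {D β W : ℝ} (hs0 : 0 ≤ sl μ s) (hs1 : sl μ s ≤ 1) (hW : 0 ≤ W) (hx : |(c.2 : ℝ) - 1 - sl μ s * c.1| ≤ D)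
    (hz : |(((G.z t c).2 : ℝ) - c.2) - sl μ s * (((G.z t c).1 : ℝ) - c.1)| ≤ β) (hN : ν.row G t c + ν.nr t < Γ.N)
    (h0 : D + 1 + β + W + ν.nr t ≤ sl μ s * ν.row G t c) (h1 : D + 1 + β + W ≤ (1 - sl μ s) * ν.row G t c) :
    (∀ x : ℤ, |(x : ℝ) - ν.cn G t c (sl μ s)| ≤ W → 0 ≤ x ∧ x + ν.nr t ≤ Γ.hi) ∧
    (∀ z : ℤ, |(z : ℝ) - ν.cn' G t c (sl μ s)| ≤ W → 0 ≤ z - ν.nr t) ∧
    (∀ x ∈ Icc 0 Γ.hi, |(x : ℝ) - ν.cn G t c (sl μ s)| ≤ Γ.hi) ∧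
    (∀ z ∈ Icc 0 Γ.hi, |(z : ℝ) - ν.cn' G t c (sl μ s)| ≤ Γ.hi) := by
  obtain ⟨cn, hcn⟩ : ∃ cn, cn = ν.cn G t c (sl μ s) := ⟨_, rfl⟩
  have hcn' : ν.cn' G t c (sl μ s) = cn + sl μ s * (ν.nr t : ℝ) := by rw [hcn]; rfl
  have e1 : cn = sl μ s * ν.row G t c + 1 + ((c.2 : ℝ) - 1 - sl μ s * c.1) +
      ((((G.z t c).2 : ℝ) - c.2) - sl μ s * (((G.z t c).1 : ℝ) - c.1)) := by
    rw [hcn]
    unfold NV31.cn
    ring
  have a1 := abs_le.1 hx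
  have a2 := abs_le.1 hz
  have hn0 : (0 : ℝ) ≤ ν.nr t := Nat.cast_nonneg _
  have hsn := mul_nonneg hs0 hn0
  have hsn' := mul_le_mul_of_nonneg_right hs1 hn0
  have hNR : (ν.row G t c : ℝ) + ν.nr t ≤ Γ.N := by exact_mod_cast hN.le
  have hhi : ((Γ.hi : ℤ) : ℝ) = (Γ.k : ℝ) + Γ.N := by
    unfold Cx.hi
    push_cast
    ring
  have hk : (0 : ℝ) ≤ Γ.k := Nat.cast_nonneg _
  have b1 : (ν.nr t : ℝ) + W ≤ cn := by linarith [e1, a1.1, a2.1]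
  have b2 : cn + W + ν.nr t ≤ Γ.N := by linarith [e1, a1.2, a2.2]
  rw [hcn', ← hcn]
  refine ⟨fun x hx' => ?_, fun z hz' => ?_, fun x hx' => ?_, fun z hz' => ?_⟩
  · have c1 := abs_le.1 hx'
    have d1 : ((0 : ℤ) : ℝ) ≤ x := by
      push_cast
      linarith
    have d2 : ((x + ν.nr t : ℤ) : ℝ) ≤ ((Γ.hi : ℤ) : ℝ) := by
      rw [hhi]
      push_cast
      linarith
    exact ⟨by exact_mod_cast d1, by exact_mod_cast d2⟩
  · have c1 := abs_le.1 hz'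
    have d1 : ((ν.nr t : ℤ) : ℝ) ≤ z := by
      push_cast
      linarith
    have d2 : (ν.nr t : ℤ) ≤ z := by exact_mod_cast d1
    omega
  · rw [mem_Icc] at hx'
    have d1 : (0 : ℝ) ≤ x := by exact_mod_cast hx'.1
    have d2 : (x : ℝ) ≤ ((Γ.hi : ℤ) : ℝ) := by exact_mod_cast hx'.2
    rw [abs_le]
    constructor <;> linarith
  · rw [mem_Icc] at hz'
    have d1 : (0 : ℝ) ≤ z := by exact_mod_cast hz'.1
    have d2 : (z : ℝ) ≤ ((Γ.hi : ℤ) : ℝ) := by exact_mod_cast hz'.2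
    rw [abs_le]
    constructor <;> linarith

end box

end

end Pool.Agent.W_7d29a1_C1.H56
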