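import Pool.Agent.W_7d29a1_C1.SpOne22

/-!
Both halves (MP_7d29a1_pr), [C1] attractor route, SEP: THE LATERAL ESTIMATE, deterministic part (helper74).

Pairs of paths in the model K91P. `G`, `H` harmonic (backward masses with any terminal weight). `nmH_step`: the pairs which have not met
lose in every row the pairs which meet; `sum_mtH_le`: the first meetings, weighted with `G H` of the site of the meeting, are at most
`(Σ l G) (Σ r H)`. Consequence (`lat_left`, `lat_right`): if from every contact of a set `A` (rows `< e`) the path reaches the terminal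
set `F` of the row `e` with quenched probability at least `θ`, then `θ` times the mass of `A` is at most `P_M (S_e ∈ F)`, and at most
`P_R (S_e ∈ F)`.
-/

set_option autoImplicit false

namespace Pool.Agent.W_7d29a1_C1.Lt74

open Finset
open Pool.Agent.W_7d29a1_C1.K91 (Grp Box ps2 ps2_congr ps2_add)
open Pool.Agent.W_7d29a1_C1.K91P (fw bw fw_zero fw_succ bw_zero bw_succ fw_nonneg bw_pos dp dp_nonneg dp_zero_left pb pb_zero pb_succ
  sum_dp_pb_step)
open Pool.Agent.W_7d29a1_C1.Sp22 (bf bf_zero bf_succ bf_nonneg Har har_bw har_bf Ms Zt Ps Zt_pos Ps_fin sum_fw_har pc pc_nonneg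
  bf_mono bf_bw)

noncomputable section

variable {w : ℕ → ℤ → ℝ} {p : ℕ → ℝ} {l r : ℤ → ℝ} {X lo hi : ℤ} {N : ℕ}

/-- The pairs which have not met up to the row `k`, futures weighted with `G`, `H`. -/
def nmH (w : ℕ → ℤ → ℝ) (p : ℕ → ℝ) (l r : ℤ → ℝ) (lo hi : ℤ) (G H : ℕ → ℤ → ℝ) (k : ℕ) : ℝ :=
  ps2 lo hi (fun x y => dp w p l r k x y * if x < y then G k x * H k y else 0)

/-- The pairs which meet at the row `k + 1`. -/
def mtH (w : ℕ → ℤ → ℝ) (p : ℕ → ℝ) (l r : ℤ → ℝ) (lo hi : ℤ) (G H : ℕ → ℤ → ℝ) (k : ℕ) : ℝ :=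
  ∑ q ∈ Icc lo hi, dp w p l r k (q - 1) q * (p k * (w k (q - 1) * w k q) * (G (k + 1) q * H (k + 1) q))

theorem nmH_nonneg (hw : ∀ k y, 0 < w k y) (hp : ∀ k, 0 < p k) (h : Grp l r X) {G H : ℕ → ℤ → ℝ} (hG : ∀ k y, 0 ≤ G k y)
    (hH : ∀ k y, 0 ≤ H k y) (k : ℕ) : 0 ≤ nmH w p l r lo hi G H k := by
  unfold nmH ps2
  refine sum_nonneg fun x _ => sum_nonneg fun y _ => ?_
  show 0 ≤ dp w p l r k x y * (if x < y then G k x * H k y else 0)
  by_cases hxy : x < y
  · rw [if_pos hxy]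
    exact mul_nonneg (dp_nonneg hw hp h k x y hxy.le) (mul_nonneg (hG k x) (hH k y))
  · rw [if_neg hxy, mul_zero]

/-- One row. -/
theorem nmH_step (h : Box l r X lo hi N) {G H : ℕ → ℤ → ℝ} {e e' : ℕ} (hG : Har w p e G) (hH : Har w p e' H) {k : ℕ} (hk : k < e)
    (hk' : k < e') (hN : k < N) :
    nmH w p l r lo hi G H k = nmH w p l r lo hi G H (k + 1) + mtH w p l r lo hi G H k := by
  have hX0 := h.X0
  have hX1 := h.X1
  have hN0 : (0 : ℤ) ≤ N := by positivity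
  set g : ℤ → ℤ → ℝ := fun x y => G (k + 1) x * H (k + 1) y with hg
  have e1 := sum_dp_pb_step (w := w) (p := p) h g hN 0
  have e2 : ps2 lo hi (fun x y => dp w p l r (k + 1) x y * pb w p g (k + 1) 0 x y) = nmH w p l r lo hi G H (k + 1) :=
    ps2_congr fun x _ y _ => by rw [pb_zero]
  rw [e2] at e1
  rw [← e1]
  have e3 : mtH w p l r lo hi G H k = ps2 lo hi (fun x y => if x = y - 1 then
      dp w p l r k (y - 1) y * (p k * (w k (y - 1) * w k y) * (G (k + 1) y * H (k + 1) y)) else 0) := by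
    unfold mtH ps2
    rw [sum_comm]
    refine sum_congr rfl fun y hy => ?_
    rw [sum_ite_eq' (Icc lo hi) (y - 1)]
    by_cases h3 : y - 1 ∈ Icc lo hi
    · rw [if_pos h3]
    · rw [if_neg h3]
      rw [mem_Icc] at h3 hy
      rw [dp_zero_left h k (show y - 1 < lo by omega), zero_mul]
  rw [e3, ← ps2_add]
  unfold nmH
  refine ps2_congr fun x _ y _ => ?_
  rw [hG k hk x, hH k hk' y, pb_succ]
  by_cases hxy : x < y
  · rw [if_pos hxy, if_pos hxy, pb_zero, pb_zero, pb_zero, pb_zero, if_pos hxy, if_pos (show x < y + 1 by omega),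
      if_pos (show x + 1 < y + 1 by omega)]
    by_cases h4 : x = y - 1
    · rw [if_pos h4, if_neg (show ¬ x + 1 < y by omega), h4, sub_add_cancel]
      simp only [hg]
      ring
    · rw [if_neg h4, if_pos (show x + 1 < y by omega)]
      simp only [hg]
      ring
  · rw [if_neg hxy, if_neg hxy, if_neg (show ¬ x = y - 1 by omega)]
    ring

theorem nmH_zero (h : Box l r X lo hi N) (G H : ℕ → ℤ → ℝ) : nmH w p l r lo hi G H 0 =
    (∑ x ∈ Icc lo hi, l x * G 0 x) * ∑ y ∈ Icc lo hi, r y * H 0 y := by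
  unfold nmH ps2
  rw [sum_mul_sum]
  refine sum_congr rfl fun x _ => sum_congr rfl fun y _ => ?_
  show (l x * r y - l y * r x) * (if x < y then G 0 x * H 0 y else 0) = _
  by_cases hxy : x < y
  · rw [if_pos hxy]
    by_cases hx : x < X
    · rw [h.g.rX x hx]
      ring
    · rw [h.g.lX x (by omega), h.g.lX y (by omega)]
      ring
  · rw [if_neg hxy]
    by_cases hx : x < X
    · rw [h.g.rX y (by omega)]
      ring
    · rw [h.g.lX x (by omega)]
      ring

theorem nmH_total (h : Box l r X lo hi N) {G H : ℕ → ℤ → ℝ} {e e' : ℕ} (hG : Har w p e G) (hH : Har w p e' H) : ∀ k, k ≤ e → k ≤ e' →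
    k ≤ N → nmH w p l r lo hi G H 0 = nmH w p l r lo hi G H k + ∑ i ∈ range k, mtH w p l r lo hi G H i
  | 0, _, _, _ => by rw [sum_range_zero, add_zero]
  | k + 1, h1, h2, h3 => by
    rw [nmH_total h hG hH k (by omega) (by omega) (by omega), nmH_step h hG hH (show k < e by omega) (show k < e' by omega)
      (show k < N by omega), sum_range_succ]
    ring

/-- **The first meetings, weighted with the futures**. -/
theorem sum_mtH_le (hw : ∀ k y, 0 < w k y) (hp : ∀ k, 0 < p k) (h : Box l r X lo hi N) {G H : ℕ → ℤ → ℝ} {e e' : ℕ} (hG : Har w p e G)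
    (hH : Har w p e' H) (hG0 : ∀ k y, 0 ≤ G k y) (hH0 : ∀ k y, 0 ≤ H k y) {k : ℕ} (h1 : k ≤ e) (h2 : k ≤ e') (h3 : k ≤ N) :
    ∑ i ∈ range k, mtH w p l r lo hi G H i ≤ (∑ x ∈ Icc lo hi, l x * G 0 x) * ∑ y ∈ Icc lo hi, r y * H 0 y := by
  rw [← nmH_zero h, nmH_total h hG hH k h1 h2 h3]
  have := nmH_nonneg (lo := lo) (hi := hi) hw hp h.g hG0 hH0 k
  linarith

/-! ### Terminal sets -/

/-- Backward mass with the terminal set `F` of the row `e`. -/
def bF (w : ℕ → ℤ → ℝ) (p : ℕ → ℝ) (N e : ℕ) (F : Finset ℤ) (k : ℕ) (y : ℤ) : ℝ :=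
  bf w p (fun y => if y ∈ F then bw w p e (N - e) y else 0) k (e - k) y

theorem bF_nonneg (hw : ∀ k y, 0 < w k y) (hp : ∀ k, 0 < p k) (N e : ℕ) (F : Finset ℤ) (k : ℕ) (y : ℤ) : 0 ≤ bF w p N e F k y :=
  bf_nonneg (fun k y => (hw k y).le) hp (fun y => by
    split_ifs
    · exact (bw_pos hw hp _ _ _).le
    · exact le_rfl) _ _ _

theorem har_bF (w : ℕ → ℤ → ℝ) (p : ℕ → ℝ) (N e : ℕ) (F : Finset ℤ) : Har w p e (bF w p N e F) := har_bf w p _ e

/-- The total. -/
theorem bF_zero {m : ℤ → ℝ} (h : Ms m lo hi N) {e : ℕ} (he : e ≤ N) (F : Finset ℤ) :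
    ∑ x ∈ Icc lo hi, m x * bF w p N e F 0 x = Ps w p m N e F := by
  have h1 := sum_fw_har h (har_bF w p N e F) he (le_refl e)
  rw [← h1, Ps_fin h he F]
  refine sum_congr rfl fun y _ => ?_
  unfold bF
  rw [Nat.sub_self, bf_zero]

/-- A set and its complement. -/
theorem bF_add (hw : ∀ k y, 0 < w k y) (hp : ∀ k, 0 < p k) {e : ℕ} (he : e ≤ N) {F F' : Finset ℤ} {k : ℕ} (hk : k ≤ e) {y : ℤ}
    (hF : ∀ z, y ≤ z → z ≤ y + (e - k : ℕ) → z ∈ F ∨ z ∈ F') :
    bw w p k (N - k) y ≤ bF w p N e F k y + bF w p N e F' k y := by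
  have key : ∀ (j k : ℕ) (y : ℤ), (∀ z, y ≤ z → z ≤ y + (j : ℕ) → z ∈ F ∨ z ∈ F') →
      bf w p (fun y => bw w p e (N - e) y) k j y ≤ bf w p (fun y => if y ∈ F then bw w p e (N - e) y else 0) k j y +
        bf w p (fun y => if y ∈ F' then bw w p e (N - e) y else 0) k j y := by
    intro j
    induction j with
    | zero =>
      intro k y hz
      rw [bf_zero, bf_zero, bf_zero]
      have hb := (bw_pos hw hp (N - e) e y).le
      rcases hz y le_rfl (by simp) with h1 | h1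
      · rw [if_pos h1]
        split_ifs <;> linarith
      · rw [if_pos h1]
        split_ifs <;> linarith
    | succ j ih =>
      intro k y hz
      rw [bf_succ, bf_succ, bf_succ, ← mul_add]
      have h1 := ih (k + 1) y (fun z h1 h2 => hz z h1 (by push_cast; omega))
      have h2 := ih (k + 1) (y + 1) (fun z h1 h2 => hz z (by omega) (by push_cast; omega))
      have h3 := mul_le_mul_of_nonneg_left h2 (hp k).le
      exact mul_le_mul_of_nonneg_left (by linarith) (hw k y).le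
  have h1 := key (e - k) k y hF
  have h2 := bf_bw (w := w) (p := p) (N - e) (e - k) k y
  have e1 : k + (e - k) = e := by omega
  have e2 : e - k + (N - e) = N - k := by omega
  rw [e1, e2] at h2
  rw [← h2]
  exact h1

/-- **THE LATERAL ESTIMATE**, left group. -/
theorem lat_left (hw : ∀ k y, 0 < w k y) (hp : ∀ k, 0 < p k) (h : Box l r X lo hi N) (hlp : ∃ y, 0 < l y) (hrp : ∃ y, 0 < r y) {e : ℕ}
    (he : e ≤ N) (F : Finset ℤ) {A : Finset (ℕ × ℤ)} (hA : ∀ c ∈ A, c.1 < e ∧ lo ≤ c.2 ∧ c.2 ≤ hi) {θ : ℝ}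
    (hθ : ∀ c ∈ A, θ * bw w p (c.1 + 1) (N - (c.1 + 1)) c.2 ≤ bF w p N e F (c.1 + 1) c.2) :
    θ * ∑ c ∈ A, pc w p l r lo hi N c.1 c.2 ≤ Ps w p l N e F / Zt w p l lo hi N := by
  classical
  have zl := Zt_pos hw hp (Ms.left h) hlp
  have zr := Zt_pos hw hp (Ms.right h) hrp
  have h0 : ∀ k y, 0 ≤ bF w p N e F k y := bF_nonneg hw hp N e F
  have h0' : ∀ k y, 0 ≤ bw w p k (N - k) y := fun k y => (bw_pos hw hp _ _ _).le
  have h1 := sum_mtH_le hw hp h (har_bF w p N e F) (har_bw w p N) h0 h0' (le_refl e) he he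
  rw [bF_zero (Ms.left h) he F] at h1
  have h2 : ∑ y ∈ Icc lo hi, r y * bw w p 0 (N - 0) y = Zt w p r lo hi N := rfl
  rw [h2] at h1
  set M := fun c : ℕ × ℤ => dp w p l r c.1 (c.2 - 1) c.2 * (p c.1 * (w c.1 (c.2 - 1) * w c.1 c.2) *
      (bF w p N e F (c.1 + 1) c.2 * bw w p (c.1 + 1) (N - (c.1 + 1)) c.2)) with hM
  have hM0 : ∀ c, 0 ≤ M c := fun c => by
    have b1 := dp_nonneg hw hp h.g c.1 (c.2 - 1) c.2 (by omega)
    have b2 := hw c.1 (c.2 - 1)
    have b3 := hw c.1 c.2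
    have b4 := hp c.1
    have b5 := h0 (c.1 + 1) c.2
    have b6 := h0' (c.1 + 1) c.2
    rw [hM]
    positivity
  have h3 : ∑ c ∈ A, M c ≤ ∑ i ∈ range e, mtH w p l r lo hi (bF w p N e F) (fun k y => bw w p k (N - k) y) i := by
    have e1 : ∑ i ∈ range e, mtH w p l r lo hi (bF w p N e F) (fun k y => bw w p k (N - k) y) i = ∑ c ∈ range e ×ˢ Icc lo hi, M c := by
      rw [sum_product]
      rfl
    rw [e1]
    refine sum_le_sum_of_subset_of_nonneg (fun c hc => ?_) fun c _ _ => hM0 c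
    rw [mem_product, mem_range, mem_Icc]
    exact hA c hc
  have h4 : θ * ∑ c ∈ A, pc w p l r lo hi N c.1 c.2 ≤ (∑ c ∈ A, M c) / (Zt w p l lo hi N * Zt w p r lo hi N) := by
    rw [mul_sum, sum_div]
    refine sum_le_sum fun c hc => ?_
    unfold pc
    rw [← mul_div_assoc]
    refine div_le_div_of_nonneg_right ?_ (mul_pos zl zr).le
    have b1 := dp_nonneg hw hp h.g c.1 (c.2 - 1) c.2 (by omega)
    have b2 := hw c.1 (c.2 - 1)
    have b3 := hw c.1 c.2
    have b4 := hp c.1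
    have b6 := h0' (c.1 + 1) c.2
    have b7 := mul_le_mul_of_nonneg_right (hθ c hc) b6
    rw [hM]
    calc θ * (dp w p l r c.1 (c.2 - 1) c.2 * (p c.1 * (w c.1 (c.2 - 1) * w c.1 c.2) * bw w p (c.1 + 1) (N - (c.1 + 1)) c.2 ^ 2))
        = dp w p l r c.1 (c.2 - 1) c.2 * (p c.1 * (w c.1 (c.2 - 1) * w c.1 c.2) *
            (θ * bw w p (c.1 + 1) (N - (c.1 + 1)) c.2 * bw w p (c.1 + 1) (N - (c.1 + 1)) c.2)) := by ring
      _ ≤ _ := mul_le_mul_of_nonneg_left (mul_le_mul_of_nonneg_left b7 (by positivity)) b1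
  refine h4.trans ?_
  calc (∑ c ∈ A, M c) / (Zt w p l lo hi N * Zt w p r lo hi N) ≤
        Ps w p l N e F * Zt w p r lo hi N / (Zt w p l lo hi N * Zt w p r lo hi N) :=
        div_le_div_of_nonneg_right (h3.trans h1) (mul_pos zl zr).le
    _ = _ := by
        field_simp

/-- **THE LATERAL ESTIMATE**, right group. -/
theorem lat_right (hw : ∀ k y, 0 < w k y) (hp : ∀ k, 0 < p k) (h : Box l r X lo hi N) (hlp : ∃ y, 0 < l y) (hrp : ∃ y, 0 < r y)
    {e : ℕ} (he : e ≤ N) (F : Finset ℤ) {A : Finset (ℕ × ℤ)} (hA : ∀ c ∈ A, c.1 < e ∧ lo ≤ c.2 ∧ c.2 ≤ hi) {θ : ℝ}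
    (hθ : ∀ c ∈ A, θ * bw w p (c.1 + 1) (N - (c.1 + 1)) c.2 ≤ bF w p N e F (c.1 + 1) c.2) :
    θ * ∑ c ∈ A, pc w p l r lo hi N c.1 c.2 ≤ Ps w p r N e F / Zt w p r lo hi N := by
  classical
  have zl := Zt_pos hw hp (Ms.left h) hlp
  have zr := Zt_pos hw hp (Ms.right h) hrp
  have h0 : ∀ k y, 0 ≤ bF w p N e F k y := bF_nonneg hw hp N e F
  have h0' : ∀ k y, 0 ≤ bw w p k (N - k) y := fun k y => (bw_pos hw hp _ _ _).le
  have h1 := sum_mtH_le hw hp h (har_bw w p N) (har_bF w p N e F) h0' h0 he (le_refl e) he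
  rw [bF_zero (Ms.right h) he F] at h1
  have h2 : ∑ y ∈ Icc lo hi, l y * bw w p 0 (N - 0) y = Zt w p l lo hi N := rfl
  rw [h2] at h1
  set M := fun c : ℕ × ℤ => dp w p l r c.1 (c.2 - 1) c.2 * (p c.1 * (w c.1 (c.2 - 1) * w c.1 c.2) *
      (bw w p (c.1 + 1) (N - (c.1 + 1)) c.2 * bF w p N e F (c.1 + 1) c.2)) with hM
  have hM0 : ∀ c, 0 ≤ M c := fun c => by
    have b1 := dp_nonneg hw hp h.g c.1 (c.2 - 1) c.2 (by omega)
    have b2 := hw c.1 (c.2 - 1)
    have b3 := hw c.1 c.2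
    have b4 := hp c.1
    have b5 := h0 (c.1 + 1) c.2
    have b6 := h0' (c.1 + 1) c.2
    rw [hM]
    positivity
  have h3 : ∑ c ∈ A, M c ≤ ∑ i ∈ range e, mtH w p l r lo hi (fun k y => bw w p k (N - k) y) (bF w p N e F) i := by
    have e1 : ∑ i ∈ range e, mtH w p l r lo hi (fun k y => bw w p k (N - k) y) (bF w p N e F) i = ∑ c ∈ range e ×ˢ Icc lo hi, M c := by
      rw [sum_product]
      rfl
    rw [e1]
    refine sum_le_sum_of_subset_of_nonneg (fun c hc => ?_) fun c _ _ => hM0 c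
    rw [mem_product, mem_range, mem_Icc]
    exact hA c hc
  have h4 : θ * ∑ c ∈ A, pc w p l r lo hi N c.1 c.2 ≤ (∑ c ∈ A, M c) / (Zt w p l lo hi N * Zt w p r lo hi N) := by
    rw [mul_sum, sum_div]
    refine sum_le_sum fun c hc => ?_
    unfold pc
    rw [← mul_div_assoc]
    refine div_le_div_of_nonneg_right ?_ (mul_pos zl zr).le
    have b1 := dp_nonneg hw hp h.g c.1 (c.2 - 1) c.2 (by omega)
    have b2 := hw c.1 (c.2 - 1)
    have b3 := hw c.1 c.2
    have b4 := hp c.1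
    have b6 := h0' (c.1 + 1) c.2
    have b7 := mul_le_mul_of_nonneg_right (hθ c hc) b6
    rw [hM]
    calc θ * (dp w p l r c.1 (c.2 - 1) c.2 * (p c.1 * (w c.1 (c.2 - 1) * w c.1 c.2) * bw w p (c.1 + 1) (N - (c.1 + 1)) c.2 ^ 2))
        = dp w p l r c.1 (c.2 - 1) c.2 * (p c.1 * (w c.1 (c.2 - 1) * w c.1 c.2) *
            (θ * bw w p (c.1 + 1) (N - (c.1 + 1)) c.2 * bw w p (c.1 + 1) (N - (c.1 + 1)) c.2)) := by ring
      _ ≤ dp w p l r c.1 (c.2 - 1) c.2 * (p c.1 * (w c.1 (c.2 - 1) * w c.1 c.2) *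
            (bF w p N e F (c.1 + 1) c.2 * bw w p (c.1 + 1) (N - (c.1 + 1)) c.2)) :=
          mul_le_mul_of_nonneg_left (mul_le_mul_of_nonneg_left b7 (by positivity)) b1
      _ = _ := by ring
  refine h4.trans ?_
  calc (∑ c ∈ A, M c) / (Zt w p l lo hi N * Zt w p r lo hi N) ≤
        Zt w p l lo hi N * Ps w p r N e F / (Zt w p l lo hi N * Zt w p r lo hi N) :=
        div_le_div_of_nonneg_right (h3.trans h1) (mul_pos zl zr).le
    _ = _ := by
        field_simp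

/-- The quenched probability to be in a larger set is larger. -/
theorem bF_mono (hw : ∀ k y, 0 < w k y) (hp : ∀ k, 0 < p k) (N e : ℕ) {F F' : Finset ℤ} (k : ℕ) (y : ℤ)
    (hF : ∀ z, y ≤ z → z ≤ y + (e - k : ℕ) → z ∈ F → z ∈ F') : bF w p N e F k y ≤ bF w p N e F' k y := by
  have key : ∀ (j k : ℕ) (y : ℤ), (∀ z, y ≤ z → z ≤ y + (j : ℕ) → z ∈ F → z ∈ F') →
      bf w p (fun y => if y ∈ F then bw w p e (N - e) y else 0) k j y ≤
        bf w p (fun y => if y ∈ F' then bw w p e (N - e) y else 0) k j y := by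
    intro j
    induction j with
    | zero =>
      intro k y hz
      rw [bf_zero, bf_zero]
      have hb := (bw_pos hw hp (N - e) e y).le
      by_cases h1 : y ∈ F
      · rw [if_pos h1, if_pos (hz y le_rfl (by simp) h1)]
      · rw [if_neg h1]
        split_ifs <;> linarith
    | succ j ih =>
      intro k y hz
      rw [bf_succ, bf_succ]
      have h1 := ih (k + 1) y (fun z h1 h2 => hz z h1 (by push_cast; omega))
      have h2 := ih (k + 1) (y + 1) (fun z h1 h2 => hz z (by omega) (by push_cast; omega))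
      have h3 := mul_le_mul_of_nonneg_left h2 (hp k).le
      exact mul_le_mul_of_nonneg_left (by linarith) (hw k y).le
  exact key (e - k) k y hF

/-- **ONE CONTACT.** The contact `(k, q)`, row `e > k`; the reachable sites of the row `e` are in `Fn` or in `Ff`, and the path from
the contact is in `Fn` with quenched probability at most `1 / 2`: the weight of the contact is at most `2 P_X (S_e ∈ Ff)`, for both
groups. -/
theorem lat_pt (hw : ∀ k y, 0 < w k y) (hp : ∀ k, 0 < p k) (h : Box l r X lo hi N) (hlp : ∃ y, 0 < l y) (hrp : ∃ y, 0 < r y) {e k : ℕ}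
    (he : e ≤ N) (hk : k < e) {q : ℤ} (hq : lo ≤ q) (hq' : q ≤ hi) {Fn Ff : Finset ℤ}
    (hcov : ∀ z, q ≤ z → z ≤ q + (e - (k + 1) : ℕ) → z ∈ Fn ∨ z ∈ Ff)
    (hst : bF w p N e Fn (k + 1) q ≤ 1 / 2 * bw w p (k + 1) (N - (k + 1)) q) :
    pc w p l r lo hi N k q ≤ 2 * (Ps w p l N e Ff / Zt w p l lo hi N) ∧
      pc w p l r lo hi N k q ≤ 2 * (Ps w p r N e Ff / Zt w p r lo hi N) := by
  have h1 := bF_add hw hp he (show k + 1 ≤ e by omega) hcov
  have h2 : ∀ c ∈ ({(k, q)} : Finset (ℕ × ℤ)), c.1 < e ∧ lo ≤ c.2 ∧ c.2 ≤ hi := by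
    intro c hc
    rw [mem_singleton] at hc
    subst hc
    exact ⟨hk, hq, hq'⟩
  have h3 : ∀ c ∈ ({(k, q)} : Finset (ℕ × ℤ)), 1 / 2 * bw w p (c.1 + 1) (N - (c.1 + 1)) c.2 ≤ bF w p N e Ff (c.1 + 1) c.2 := by
    intro c hc
    rw [mem_singleton] at hc
    subst hc
    linarith
  have h4 := lat_left hw hp h hlp hrp he Ff h2 h3
  have h5 := lat_right hw hp h hlp hrp he Ff h2 h3
  rw [sum_singleton] at h4 h5
  constructor
  · linarith
  · linarith

/-- **ONE CONTACT WHICH STAYS.** `lat` = column minus `v` times the row. The path from the contact `ρ = (k, q)` (site `q` of the row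
`k + 1`) is in the row `e` at a lateral distance `≥ R` from `ρ` with quenched probability at most `1 / 2`; the place `x` is at a lateral
distance `≥ R + W` from `ρ`. Then the weight of `ρ` is at most `2 P_X (lateral distance of S_e from x at least W)`. -/
theorem lat_stay (hw : ∀ k y, 0 < w k y) (hp : ∀ k, 0 < p k) (h : Box l r X lo hi N) (hlp : ∃ y, 0 < l y) (hrp : ∃ y, 0 < r y)
    {e k : ℕ} (he : e ≤ N) (hk : k < e) {q : ℤ} (hq : lo ≤ q) (hq' : q ≤ hi) {v a b R W : ℝ} {Fs Ff : Finset ℤ}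
    (hFs : ∀ z : ℤ, q ≤ z → z ≤ q + (e - (k + 1) : ℕ) → R ≤ |((z : ℝ) - v * (e : ℝ)) - b| → z ∈ Fs)
    (hFf : ∀ z : ℤ, q ≤ z → z ≤ q + (e - (k + 1) : ℕ) → W ≤ |((z : ℝ) - v * (e : ℝ)) - a| → z ∈ Ff) (hd : R + W ≤ |a - b|)
    (hst : bF w p N e Fs (k + 1) q ≤ 1 / 2 * bw w p (k + 1) (N - (k + 1)) q) :
    pc w p l r lo hi N k q ≤ 2 * (Ps w p l N e Ff / Zt w p l lo hi N) ∧
      pc w p l r lo hi N k q ≤ 2 * (Ps w p r N e Ff / Zt w p r lo hi N) := by
  refine lat_pt hw hp h hlp hrp he hk hq hq' (fun z h1 h2 => ?_) hst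
  by_cases h3 : W ≤ |((z : ℝ) - v * (e : ℝ)) - a|
  · exact Or.inr (hFf z h1 h2 h3)
  · refine Or.inl (hFs z h1 h2 ?_)
    have h4 : |a - b| ≤ |((z : ℝ) - v * (e : ℝ)) - a| + |((z : ℝ) - v * (e : ℝ)) - b| := by
      calc |a - b| = |(((z : ℝ) - v * (e : ℝ)) - b) - (((z : ℝ) - v * (e : ℝ)) - a)| := by congr 1; ring
        _ ≤ |((z : ℝ) - v * (e : ℝ)) - b| + |((z : ℝ) - v * (e : ℝ)) - a| := abs_sub _ _
        _ = _ := add_comm _ _
    rw [not_le] at h3
    linarith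

end

end Pool.Agent.W_7d29a1_C1.Lt74
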