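import Pool.Agent.W_7d29a1_C1.LatR74
import Pool.Agent.W_7d29a1_C1.FaAv25

/-!
Both halves (MP_7d29a1_pr), [C1] attractor route, SEP: THE LATERAL ESTIMATE FOR THE FAR MASS WHICH AVOIDS THE BALL (helper74).

`far_av` : `relj i j x ρ`, `ω` in the event `St` (helper78) of the cell of `ρ` at a scale `i + 3 ≤ u < j` ⇒ `w ρ ≤ 2 fa t (i + 1) (t - 1) x`
for the far mass `FA25.fa` of helper25 (field `far` of `In98`, `C4 = 2`). `hrelA` : the hypothesis `hrel` of `rbJ_le`, `relbad_ofJ`.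
-/

set_option autoImplicit false

namespace Pool.Agent.W_7d29a1_C1.LtS74

open Finset MeasureTheory
open Pool.Agent.W_7d29a1_F
open Pool.Agent.W_7d29a1_C1.K91 (wt)
open Pool.Agent.W_7d29a1_C1.H60
open Pool.Agent.W_7d29a1_C1.G37 (Gm)
open Pool.Agent.W_7d29a1_C1.SD53
open Pool.Agent.W_7d29a1_C1.Sy78 (St)
open Pool.Agent.W_7d29a1_C1.FA25 (Av rr lr la_nonneg PA PA_nonneg)
open scoped ENNReal

noncomputable section

variable {Γ : Cx} {G : Gm}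

/-- The ball of `x` is in the set of `w_le_av`. -/
theorem Av_ball {t τ : ℕ} {x : ℕ × ℤ} {k : ℕ} {y : ℤ} (h : (k, y) ∈ Av G t τ x) :
    (x.1 : ℤ) - 2 * (G.T (t - 1) : ℤ) ≤ (k : ℤ) ∧ |G.lat (k, y) - G.lat x| ≤ G.w (t - 1) := by
  obtain ⟨h1, h2⟩ := h
  have t1 := G.T_pos' (τ + 1 - G.m2)
  have w1 := mul_nonneg (la_nonneg (G := G)) (G.w_pos (τ + 1 - G.m2)).le
  have h3 := (abs_le.1 h1).1
  unfold rr at h3
  simp only at h3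
  unfold lr at h2
  exact ⟨by linarith, by linarith⟩

/-- **`far`**: one contact. -/
theorem far_av (h : Γ.Ok) (hv0 : 0 ≤ G.v) (hv1 : G.v ≤ 1) {a b β : ℝ} (hβ : Real.exp (-β) ≤ 1 / 2) (hb : b + 5 / 2 ≤ 2 * G.kn)
    {t i j u : ℕ} (ht1 : 1 ≤ t) (hti : t ≤ i) {x ρ : XX Γ} (hj : G.relj i j x.1 ρ.1) (hu : i + 3 ≤ u) (huj : u < j)
    (ha : G.w u / 2 + 1 ≤ a * G.w u) (hN : (x.1.1 : ℤ) + G.T t + G.T (t - 1) < Γ.N) {ω : Env}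
    (hs : ω ∈ St Γ G a b β u (G.loc u ρ.1)) : SD53.w Γ ρ ω ≤ 2 * FA25.fa Γ G t (i + 1) (t - 1) x ω := by
  have hρ := Cx.mem_rows.1 ρ.2
  have hp := G.T_pos (t - 1)
  obtain ⟨r0, hr0, hr1, hr2⟩ : ∃ r0 : ℤ, r0 ∈ G.fr t (t - 1) x.1 ∧ (x.1.1 : ℤ) + G.T t ≤ r0 ∧
      r0 ≤ (x.1.1 : ℤ) + G.T t + G.T (t - 1) := by
    have h1 := H40.lt_nxt hp ((x.1.1 : ℤ) + G.T t)
    have h2 := H40.nxt_le hp ((x.1.1 : ℤ) + G.T t)
    have h3 := G.T_pos' (t - 1)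
    refine ⟨H40.nxt (G.T (t - 1)) ((x.1.1 : ℤ) + G.T t), ?_, h1.le, h2⟩
    unfold Gm.fr
    rw [mem_filter, mem_Icc]
    refine ⟨⟨h1.le, by linarith⟩, ?_⟩
    unfold H40.nxt
    exact dvd_mul_right _ _
  have hr0n : 0 ≤ r0 := by
    have : (0 : ℤ) ≤ (x.1.1 : ℤ) := by positivity
    have := G.T_pos' t
    linarith
  obtain ⟨r, rfl⟩ := Int.eq_ofNat_of_zero_le hr0n
  have hrN : r < Γ.N := by
    have : (r : ℤ) < Γ.N := by linarith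
    exact_mod_cast this
  have key := (w_le_av (B := Av G t (t - 1) x.1) h hv0 hv1 hβ hb ht1 hti hρ.2.1 hj hu huj ha hs hr1 hr2 hrN
    (fun k y hk => Av_ball hk)).1
  have key2 : Γ.w ρ.1 ω ≤ 2 * PA Γ Cx.l (Av G t (t - 1) x.1) r (G.fs (i + 1) (t - 1) x.1 (r : ℤ)) ω := key
  calc SD53.w Γ ρ ω ≤ ENNReal.ofReal (2 * PA Γ Cx.l (Av G t (t - 1) x.1) r (G.fs (i + 1) (t - 1) x.1 (r : ℤ)) ω) :=
        ENNReal.ofReal_le_ofReal key2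
    _ = 2 * ENNReal.ofReal (PA Γ Cx.l (Av G t (t - 1) x.1) r (G.fs (i + 1) (t - 1) x.1 (r : ℤ)) ω) := by
        rw [ENNReal.ofReal_mul (by norm_num)]
        simp
    _ ≤ 2 * FA25.fa Γ G t (i + 1) (t - 1) x ω := by
        refine mul_le_mul' le_rfl ?_
        unfold FA25.fa
        have hm : (r : ℤ) ∈ (G.fr t (t - 1) x.1).filter (fun r => r ≤ (Γ.N : ℤ)) :=
          mem_filter.2 ⟨hr0, by exact_mod_cast hrN.le⟩
        refine le_trans ?_ (single_le_sum (f := fun r : ℤ =>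
          ENNReal.ofReal (PA Γ Cx.l (Av G t (t - 1) x.1) r.toNat (G.fs (i + 1) (t - 1) x.1 r) ω) +
          ENNReal.ofReal (PA Γ Γ.r (Av G t (t - 1) x.1) r.toNat (G.fs (i + 1) (t - 1) x.1 r) ω)) (fun _ _ => zero_le) hm)
        exact le_self_add

/-- **The hypothesis `hrel`** of `rbJ_le`, one pair of contacts; `Tn u` = the typical event of the cell of `ρ` at the scale `u`. -/
theorem hrelA (h : Γ.Ok) (hv0 : 0 ≤ G.v) (hv1 : G.v ≤ 1) {a b β : ℝ} (hβ : Real.exp (-β) ≤ 1 / 2) (hb : b + 5 / 2 ≤ 2 * G.kn)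
    {t i m3 : ℕ} (hm3 : 3 ≤ m3) (ht1 : 1 ≤ t) (hti : t ≤ i) (hi : i ≤ G.M) {x ρ : XX Γ}
    (ha : ∀ u, i + m3 ≤ u → G.w u / 2 + 1 ≤ a * G.w u) (hN : (x.1.1 : ℤ) + G.T t + G.T (t - 1) < Γ.N) {ω : Env} {Tn rl : ℕ → Set Env}
    (hT : ∀ u, i + m3 ≤ u → u < G.M → Tn u ⊆ St Γ G a b β u (G.loc u ρ.1))
    (hrl : ∀ j, i ≤ j → j ≤ G.M → G.relj i j x.1 ρ.1 → (∀ u, i + m3 ≤ u → u < j → ω ∉ Tn u) → ω ∈ rl j)
    (hrow : (ρ.1.1 : ℤ) < (x.1.1 : ℤ) - G.dk i (t - 1)) (hno : ∀ j ∈ Icc i G.M, ω ∉ rl j) :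
    i < G.M ∧ ((ρ.1.1 : ℤ) < (x.1.1 : ℤ) - G.dk (i + 1) (t - 1) ∨ SD53.w Γ ρ ω ≤ 2 * FA25.fa Γ G t (i + 1) (t - 1) x ω) := by
  rcases G.relj_cases hti hi hrow with ⟨j, hj⟩ | ⟨h1, h2⟩
  · have hij := hj.1
    have hjM := hj.2.1
    have h3 : ¬ ∀ u, i + m3 ≤ u → u < j → ω ∉ Tn u := fun h4 => hno j (mem_Icc.2 ⟨hij, hjM⟩) (hrl j hij hjM hj h4)
    push Not at h3
    obtain ⟨u, h4, h5, h6⟩ := h3
    exact ⟨by omega, Or.inr (far_av h hv0 hv1 hβ hb ht1 hti hj (by omega) h5 (ha u h4) hN (hT u h4 (by omega) h6))⟩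
  · exact ⟨h1, Or.inl h2⟩

end

end Pool.Agent.W_7d29a1_C1.LtS74
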