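import Pool.Agent.W_7d29a1_C1.Stay78

/-!
Both halves (MP_7d29a1_pr), [C1] attractor route, SEP: THE LATERAL ESTIMATE WITH A KILLED SET, deterministic part (helper74).

`lat_har` : one contact against any function `G` which is harmonic below the row `e`. `bK` : backward mass with the terminal set `F` of
the row `e`, killed on the set `B` (`Sp22.kw`). `har_bK`, `bK_zero`, `bw_le_lv` : the routes which stay in the strip `S` up to the row `e`
avoid `B` and end in `F`. `lat_kill` : the contact is below `B`, the leave mass of helper78 at its future site is at most half: its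
weight is at most twice the probability to avoid `B` and to be in `F` at the row `e`, both groups.
-/

set_option autoImplicit false

namespace Pool.Agent.W_7d29a1_C1.Lt74

open Finset
open Pool.Agent.W_7d29a1_C1.K91 (Grp Box ps2 ps2_congr ps2_add)
open Pool.Agent.W_7d29a1_C1.K91P (fw bw fw_zero fw_succ bw_zero bw_succ fw_nonneg bw_pos dp dp_nonneg)
open Pool.Agent.W_7d29a1_C1.Sp22 (bf bf_zero bf_succ bf_nonneg Har har_bw har_bf Ms Zt Ps Zt_pos sum_fw_har pc kw kw_nn)
open Pool.Agent.W_7d29a1_C1.Sy78 (lv lv_stop lv_in lv_out lv_nonneg bwN down)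

noncomputable section

variable {w : ℕ → ℤ → ℝ} {p : ℕ → ℝ} {l r : ℤ → ℝ} {X lo hi : ℤ} {N : ℕ}

/-- **ONE CONTACT AGAINST A HARMONIC FUNCTION**, both groups. -/
theorem lat_har (hw : ∀ k y, 0 < w k y) (hp : ∀ k, 0 < p k) (h : Box l r X lo hi N) (hlp : ∃ y, 0 < l y) (hrp : ∃ y, 0 < r y) {e k : ℕ}
    (he : e ≤ N) (hk : k < e) {q : ℤ} (hq : lo ≤ q) (hq' : q ≤ hi) {G : ℕ → ℤ → ℝ} (hG : Har w p e G) (h0 : ∀ k y, 0 ≤ G k y)
    {θ : ℝ} (hθ : θ * bw w p (k + 1) (N - (k + 1)) q ≤ G (k + 1) q) :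
    θ * pc w p l r lo hi N k q ≤ (∑ x ∈ Icc lo hi, l x * G 0 x) / Zt w p l lo hi N ∧
      θ * pc w p l r lo hi N k q ≤ (∑ x ∈ Icc lo hi, r x * G 0 x) / Zt w p r lo hi N := by
  have zl := Zt_pos hw hp (Ms.left h) hlp
  have zr := Zt_pos hw hp (Ms.right h) hrp
  have h0' : ∀ k y, 0 ≤ bw w p k (N - k) y := fun k y => (bw_pos hw hp _ _ _).le
  have b1 := dp_nonneg hw hp h.g k (q - 1) q (by omega)
  have b2 := hw k (q - 1)
  have b3 := hw k q
  have b4 := hp k
  have b6 := h0' (k + 1) q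
  have b7 := mul_le_mul_of_nonneg_right hθ b6
  have one : ∀ (G1 G2 : ℕ → ℤ → ℝ), Har w p e G1 → Har w p e G2 → (∀ k y, 0 ≤ G1 k y) → (∀ k y, 0 ≤ G2 k y) →
      dp w p l r k (q - 1) q * (p k * (w k (q - 1) * w k q) * (G1 (k + 1) q * G2 (k + 1) q)) ≤
        (∑ x ∈ Icc lo hi, l x * G1 0 x) * ∑ y ∈ Icc lo hi, r y * G2 0 y := by
    intro G1 G2 g1 g2 n1 n2
    have h1 := sum_mtH_le hw hp h g1 g2 n1 n2 (le_refl e) (le_refl e) he
    refine le_trans ?_ h1
    have t0 : ∀ i q, 0 ≤ dp w p l r i (q - 1) q * (p i * (w i (q - 1) * w i q) * (G1 (i + 1) q * G2 (i + 1) q)) := fun i q => by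
      have c1 := dp_nonneg hw hp h.g i (q - 1) q (by omega)
      have c2 := hw i (q - 1)
      have c3 := hw i q
      have c4 := hp i
      have c5 := n1 (i + 1) q
      have c6 := n2 (i + 1) q
      positivity
    have h2 : dp w p l r k (q - 1) q * (p k * (w k (q - 1) * w k q) * (G1 (k + 1) q * G2 (k + 1) q)) ≤ mtH w p l r lo hi G1 G2 k :=
      single_le_sum (f := fun q => dp w p l r k (q - 1) q * (p k * (w k (q - 1) * w k q) * (G1 (k + 1) q * G2 (k + 1) q)))
        (fun q _ => t0 k q) (mem_Icc.2 ⟨hq, hq'⟩)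
    exact h2.trans (single_le_sum (f := fun i => mtH w p l r lo hi G1 G2 i) (fun i _ => sum_nonneg fun q _ => t0 i q) (mem_range.2 hk))
  have har1 : Har w p e (fun k y => bw w p k (N - k) y) := fun i hi y => har_bw w p N i (by omega) y
  have e1 : ∑ y ∈ Icc lo hi, r y * (fun k y => bw w p k (N - k) y) 0 y = Zt w p r lo hi N := rfl
  have e2 : ∑ y ∈ Icc lo hi, l y * (fun k y => bw w p k (N - k) y) 0 y = Zt w p l lo hi N := rfl
  have k1 := one G (fun k y => bw w p k (N - k) y) hG har1 h0 h0'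
  have k2 := one (fun k y => bw w p k (N - k) y) G har1 hG h0' h0
  rw [e1] at k1
  rw [e2] at k2
  have b0 : 0 ≤ dp w p l r k (q - 1) q * (p k * (w k (q - 1) * w k q)) := by positivity
  have b8 := mul_le_mul_of_nonneg_left b7 b0
  unfold pc
  constructor
  · rw [← mul_div_assoc, div_le_div_iff₀ (mul_pos zl zr) zl]
    have b9 : dp w p l r k (q - 1) q * (p k * (w k (q - 1) * w k q)) *
        (θ * bw w p (k + 1) (N - (k + 1)) q * bw w p (k + 1) (N - (k + 1)) q) ≤
        (∑ x ∈ Icc lo hi, l x * G 0 x) * Zt w p r lo hi N := by linarith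
    have b10 := mul_le_mul_of_nonneg_right b9 zl.le
    linarith
  · rw [← mul_div_assoc, div_le_div_iff₀ (mul_pos zl zr) zr]
    have b9 : dp w p l r k (q - 1) q * (p k * (w k (q - 1) * w k q)) *
        (θ * bw w p (k + 1) (N - (k + 1)) q * bw w p (k + 1) (N - (k + 1)) q) ≤
        Zt w p l lo hi N * ∑ x ∈ Icc lo hi, r x * G 0 x := by linarith
    have b10 := mul_le_mul_of_nonneg_right b9 zr.le
    linarith

/-! ### The killed backward mass -/

/-- Backward mass, terminal set `F` of the row `e`, killed on `B`. -/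
def bK (w : ℕ → ℤ → ℝ) (p : ℕ → ℝ) (N : ℕ) (B : Set (ℕ × ℤ)) (e : ℕ) (F : Finset ℤ) (k : ℕ) (y : ℤ) : ℝ :=
  bf (kw B w) p (fun y => if y ∈ F then bw w p e (N - e) y else 0) k (e - k) y

variable {B S : Set (ℕ × ℤ)} {F : Finset ℤ} {e : ℕ}

theorem bK_nonneg (hw : ∀ k y, 0 < w k y) (hp : ∀ k, 0 < p k) (k : ℕ) (y : ℤ) : 0 ≤ bK w p N B e F k y :=
  bf_nonneg (kw_nn (fun k y => (hw k y).le) B) hp (fun y => by
    split_ifs
    · exact (bw_pos hw hp _ _ _).le
    · exact le_rfl) _ _ _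

theorem bK_stop (y : ℤ) : bK w p N B e F e y = if y ∈ F then bw w p e (N - e) y else 0 := by
  unfold bK
  rw [Nat.sub_self, bf_zero]

theorem bK_step {k : ℕ} (hk : k < e) {y : ℤ} (hy : (k, y) ∉ B) :
    bK w p N B e F k y = w k y * (bK w p N B e F (k + 1) y + p k * bK w p N B e F (k + 1) (y + 1)) := by
  have h1 := har_bf (kw B w) p (fun y => if y ∈ F then bw w p e (N - e) y else 0) e k hk y
  have h2 : kw B w k y = w k y := by
    unfold kw
    rw [if_neg hy]
  rw [h2] at h1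
  exact h1

/-- Below the killed set it is harmonic. -/
theorem har_bK {e0 : ℕ} (h0 : e0 ≤ e) (hB : ∀ k y, (k, y) ∈ B → e0 ≤ k) : Har w p e0 (bK w p N B e F) := by
  intro k hk y
  exact bK_step (by omega) fun hy => by
    have := hB k y hy
    omega

/-- **The total.** -/
theorem bK_zero {m : ℤ → ℝ} (h : Ms m lo hi N) (he : e ≤ N) (hF : ∀ y ∈ F, lo ≤ y ∧ y ≤ hi) :
    ∑ x ∈ Icc lo hi, m x * bK w p N B e F 0 x = ∑ y ∈ F, fw (kw B w) p m e y * bw w p e (N - e) y := by
  classical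
  have h1 := sum_fw_har (w := kw B w) (p := p) h (har_bf (kw B w) p (fun y => if y ∈ F then bw w p e (N - e) y else 0) e) he (le_refl e)
  rw [show ∑ x ∈ Icc lo hi, m x * bK w p N B e F 0 x =
    ∑ y ∈ Icc lo hi, m y * (fun k y => bf (kw B w) p (fun y => if y ∈ F then bw w p e (N - e) y else 0) k (e - k) y) 0 y from rfl,
    ← h1]
  simp only [Nat.sub_self, bf_zero, mul_ite, mul_zero]
  rw [← sum_filter]
  refine sum_congr ?_ fun y _ => rfl
  ext y
  rw [mem_filter, mem_Icc]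
  exact ⟨fun h => h.2, fun h => ⟨hF y h, h⟩⟩

/-- **A route leaves the strip, or it avoids `B` and ends in `F`.** -/
theorem bw_le_lv (hw : ∀ k y, 0 < w k y) (hp : ∀ k, 0 < p k) (he : e < N) {k0 : ℕ} (hS : ∀ k y, k0 ≤ k → k < e → (k, y) ∈ S → (k, y) ∉ B)
    {k : ℕ} (hk0 : k0 ≤ k) (hk : k ≤ e) {y : ℤ} (hF : ∀ z, y ≤ z → z ≤ y + (e - k : ℕ) → (e, z) ∈ S → z ∈ F) :
    bw w p k (N - k) y ≤ lv w p N S (e + 1) k y + bK w p N B e F k y := by
  have key : ∀ (j k : ℕ) (y : ℤ), k0 ≤ k → k + j = e → (∀ z, y ≤ z → z ≤ y + (j : ℕ) → (e, z) ∈ S → z ∈ F) →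
      bw w p k (N - k) y ≤ lv w p N S (e + 1) k y + bK w p N B e F k y := by
    intro j
    induction j with
    | zero =>
      intro k y _ hk hF
      have e1 : k = e := by omega
      subst e1
      by_cases hy : (k, y) ∈ S
      · rw [bK_stop, if_pos (hF y le_rfl (by simp) hy)]
        have := lv_nonneg (S := S) (e := k + 1) (N := N) hw hp k y
        linarith
      · rw [lv_out (by omega) hy]
        have := bK_nonneg (B := B) (F := F) (N := N) (e := k) hw hp k y
        linarith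
    | succ j ih =>
      intro k y h0 hk hF
      by_cases hy : (k, y) ∈ S
      · have i1 := ih (k + 1) y (by omega) (by omega) fun z h1 h2 h3 => hF z h1 (by push_cast; omega) h3
        have i2 := ih (k + 1) (y + 1) (by omega) (by omega) fun z h1 h2 h3 => hF z (by omega) (by push_cast; omega) h3
        rw [lv_in (by omega) hy, bK_step (by omega) (hS k y h0 (by omega) hy), bwN (e := N) le_rfl (show k < N by omega),
          ← mul_add]
        refine mul_le_mul_of_nonneg_left ?_ (hw k y).le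
        have i3 := mul_le_mul_of_nonneg_left i2 (hp k).le
        linarith
      · rw [lv_out (by omega) hy]
        have := bK_nonneg (B := B) (F := F) (N := N) (e := e) hw hp k y
        linarith
  exact key (e - k) k y hk0 (by omega) hF

/-- **ONE CONTACT WHICH STAYS, AWAY FROM THE KILLED SET.** -/
theorem lat_kill (hw : ∀ k y, 0 < w k y) (hp : ∀ k, 0 < p k) (h : Box l r X lo hi N) (hlp : ∃ y, 0 < l y) (hrp : ∃ y, 0 < r y)
    {k e0 : ℕ} (he : e < N) (h0 : e0 ≤ e) (hk : k < e0) {q : ℤ} (hq : lo ≤ q) (hq' : q ≤ hi) (hB : ∀ k y, (k, y) ∈ B → e0 ≤ k)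
    (hFb : ∀ y ∈ F, lo ≤ y ∧ y ≤ hi) (hS : ∀ k' y, k < k' → k' < e → (k', y) ∈ S → (k', y) ∉ B)
    (hF : ∀ z, q ≤ z → z ≤ q + (e - (k + 1) : ℕ) → (e, z) ∈ S → z ∈ F)
    (hst : lv w p N S (e + 1) (k + 1) q ≤ 1 / 2 * bw w p (k + 1) (N - (k + 1)) q) :
    pc w p l r lo hi N k q ≤ 2 * ((∑ y ∈ F, fw (kw B w) p l e y * bw w p e (N - e) y) / Zt w p l lo hi N) ∧
      pc w p l r lo hi N k q ≤ 2 * ((∑ y ∈ F, fw (kw B w) p r e y * bw w p e (N - e) y) / Zt w p r lo hi N) := by
  have h1 := bw_le_lv (B := B) (S := S) (F := F) (k0 := k + 1) hw hp he (fun k' y a b c => hS k' y (by omega) b c) (le_refl (k + 1))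
    (show k + 1 ≤ e by omega) (y := q) hF
  have h2 : 1 / 2 * bw w p (k + 1) (N - (k + 1)) q ≤ bK w p N B e F (k + 1) q := by linarith
  obtain ⟨h3, h4⟩ := lat_har hw hp h hlp hrp (show e0 ≤ N by omega) hk hq hq' (har_bK (F := F) h0 hB) (bK_nonneg hw hp) h2
  rw [bK_zero (Ms.left h) he.le hFb] at h3
  rw [bK_zero (Ms.right h) he.le hFb] at h4
  constructor <;> linarith

end

end Pool.Agent.W_7d29a1_C1.Lt74
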