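import Pool.Agent.W_7d29a1_C1.LatK74
import Pool.Agent.W_7d29a1_C1.StayG78
import Pool.Agent.W_7d29a1_C1.LatS74

/-!
Both halves (MP_7d29a1_pr), [C1] attractor route, SEP: THE LATERAL ESTIMATE (relbad) IN THE AVOID FORM, geometry (helper74).

`w_le_av` : `relj i j x ρ`, the environment is in the event `St` (helper78) of the cell of `ρ` at one scale `i + 3 ≤ u < j`; `B` = any
set of sites in the ball of `x` (rows `≥ row x - 2 T (t - 1)`, lateral distance `≤ w (t - 1)`); `r` = a row of `fr t (t - 1) x`. Then the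
weight of `ρ` is at most twice the probability that the path avoids `B` and is in `fs (i + 1) (t - 1) x r` at the row `r`, both groups.
-/

set_option autoImplicit false

namespace Pool.Agent.W_7d29a1_C1.LtS74

open Finset MeasureTheory
open Pool.Agent.W_7d29a1_F
open Pool.Agent.W_7d29a1_C1.K91 (Box wt wt_pos measurable_wt)
open Pool.Agent.W_7d29a1_C1.K91P (fw bw fw_nonneg bw_pos fw_hi dp)
open Pool.Agent.W_7d29a1_C1.Sp22 (pc Ps Zt kw)
open Pool.Agent.W_7d29a1_C1.H60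
open Pool.Agent.W_7d29a1_C1.G37 (Gm)
open Pool.Agent.W_7d29a1_C1.SD53
open Pool.Agent.W_7d29a1_C1.E53
open Pool.Agent.W_7d29a1_C1.Lt74 (lat_kill)
open Pool.Agent.W_7d29a1_C1.Sy78 (St sp sr Rg lv lv_stop_mono mem_Rg_succ)

noncomputable section

variable {Γ : Cx} {G : Gm}

/-- **THE LEAF, AVOID FORM.** -/
theorem w_le_av (h : Γ.Ok) (hv0 : 0 ≤ G.v) (hv1 : G.v ≤ 1) {a b β : ℝ} (hβ : Real.exp (-β) ≤ 1 / 2) (hb : b + 5 / 2 ≤ 2 * G.kn)
    {t i j u : ℕ} (ht1 : 1 ≤ t) (hti : t ≤ i) {x ρ : ℕ × ℤ} (hρ1 : 1 ≤ ρ.2) (hj : G.relj i j x ρ) (hu : i + 3 ≤ u)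
    (huj : u < j) (ha : G.w u / 2 + 1 ≤ a * G.w u) {ω : Env} (hs : ω ∈ St Γ G a b β u (G.loc u ρ)) {r : ℕ}
    (hr0 : (x.1 : ℤ) + G.T t ≤ r) (hr1 : (r : ℤ) ≤ (x.1 : ℤ) + G.T t + G.T (t - 1)) (hrN : r < Γ.N) {B : Set (ℕ × ℤ)}
    (hB : ∀ k y, (k, y) ∈ B → (x.1 : ℤ) - 2 * (G.T (t - 1) : ℤ) ≤ (k : ℤ) ∧ |G.lat (k, y) - G.lat x| ≤ G.w (t - 1)) :
    Γ.w ρ ω ≤ 2 * ((∑ y ∈ SD53.bx Γ (G.fs (i + 1) (t - 1) x (r : ℤ)), fw (kw B (wt ω)) Γ.p Cx.l r y *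
      bw (wt ω) Γ.p r (Γ.N - r) y) / ZG Γ Cx.l ω) ∧
    Γ.w ρ ω ≤ 2 * ((∑ y ∈ SD53.bx Γ (G.fs (i + 1) (t - 1) x (r : ℤ)), fw (kw B (wt ω)) Γ.p Γ.r r y *
      bw (wt ω) Γ.p r (Γ.N - r) y) / ZG Γ Γ.r ω) := by
  have hiM : i < G.M := by have := hj.2.1; omega
  have zl : 0 < ZG Γ Cx.l ω := Sp22.Zt_pos (wt_pos ω) Γ.p_pos (Sp22.Ms.left (Cx.box1 h)) ⟨0, by rw [Cx.l_zero]; exact one_pos⟩
  have zr : 0 < ZG Γ Γ.r ω := Sp22.Zt_pos (wt_pos ω) Γ.p_pos (Sp22.Ms.right (Cx.box1 h)) (by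
    obtain ⟨y, _, _, hy⟩ := Cx.r_pos h
    exact ⟨y, hy⟩)
  by_cases hc : (ρ.1 : ℤ) + 1 < ρ.2
  · have num0 : ∀ m : ℤ → ℝ, (∀ y, 0 ≤ m y) → 0 ≤ ∑ y ∈ SD53.bx Γ (G.fs (i + 1) (t - 1) x (r : ℤ)), fw (kw B (wt ω)) Γ.p m r y *
        bw (wt ω) Γ.p r (Γ.N - r) y := fun m hm => sum_nonneg fun y _ =>
      mul_nonneg (Sp22.fw_nn (Sp22.kw_nn (fun k y => (wt_pos ω k y).le) B) Γ.p_pos hm r y) (bw_pos (wt_pos ω) Γ.p_pos _ _ _).le
    rw [w_out hc]
    exact ⟨mul_nonneg zero_le_two (div_nonneg (num0 _ Cx.l_nonneg) zl.le),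
      mul_nonneg zero_le_two (div_nonneg (num0 _ (Cx.r_nonneg h)) zr.le)⟩
  rw [not_lt] at hc
  -- rows
  have t0 := G.T_pos' (t - 1)
  have t1 := G.T_pos' t
  have t2 := G.T_mono' (show t - 1 ≤ t by omega)
  have t3 := G.T_mono' (show t ≤ i + 1 by omega)
  have t3' := G.T_mono' (show t ≤ i by omega)
  have t4 := G.T_lt8 (show i + 1 < u - 1 by omega)
  have t5 := G.T_pos' (i + 1)
  have d1 := hj.2.2.1
  have d2 := hj.2.2.2.1 hiM
  have d4 := G.lt_rcc u ρ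
  have hρr : ρ.1 < r := by
    have : (ρ.1 : ℤ) < r := by linarith
    exact_mod_cast this
  have hρ0 : (0 : ℤ) ≤ ρ.1 := by positivity
  have t6 : 8 * (G.T (t - 1) : ℤ) ≤ G.T t := by
    have := G.T_succ (t - 1)
    rw [show t - 1 + 1 = t by omega] at this
    exact_mod_cast this
  obtain ⟨e0, he0⟩ : ∃ e0 : ℕ, (e0 : ℤ) = (x.1 : ℤ) - 2 * (G.T (t - 1) : ℤ) :=
    ⟨((x.1 : ℤ) - 2 * (G.T (t - 1) : ℤ)).toNat, Int.toNat_of_nonneg (by linarith)⟩
  have hρe : ρ.1 < e0 := by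
    have : (ρ.1 : ℤ) < e0 := by linarith
    exact_mod_cast this
  have her : e0 ≤ r := by
    have : (e0 : ℤ) ≤ r := by linarith
    exact_mod_cast this
  -- lateral distances
  have l1 := hj.far (show i ≤ u by omega) huj
  have l2 := G.w_two u
  have l3 := G.w_mono (show i + 1 ≤ u by omega)
  have l3' := G.w_mono (show t - 1 ≤ u by omega)
  have l4 := G.w_pos (t - 1)
  have l5 : 0 ≤ G.lam := by
    have := G.lam_ge
    have := G.kn_nonneg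
    have := G.kb_ge
    linarith
  have l6 := G.w_pos u
  have hW : G.W (i + 1) (t - 1) ≤ 2 * G.w u := by
    unfold Gm.W
    have := mul_nonneg l5 l4.le
    linarith
  have hfar : (b + 5 / 2) * G.w u < |G.lat x - G.lat ρ| := by
    have m2 : (b + 5 / 2) * G.w u ≤ 2 * G.kn * G.w u := mul_le_mul_of_nonneg_right hb l6.le
    have m3 : G.kn * (2 * G.w u) ≤ G.kn * G.w (u + 1) := mul_le_mul_of_nonneg_left l2 G.kn_nonneg
    nlinarith
  have hctr := G.lat_ctr u ρ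
  have hg := G.g_le u
  -- a site of the strip is far from `x`
  have hstrip : ∀ c : ℕ × ℤ, c ∈ sp G u (G.loc u ρ) b → 2 * G.w u < |G.lat c - G.lat x| := by
    intro c hc
    have hc' : |G.lat c - G.ctr u (G.loc u ρ)| ≤ b * G.w u := hc
    have e1 : |G.lat x - G.lat ρ| ≤ |G.lat c - G.lat x| + |G.lat c - G.ctr u (G.loc u ρ)| + |G.lat ρ - G.ctr u (G.loc u ρ)| := by
      have e2 : G.lat x - G.lat ρ = -(G.lat c - G.lat x) + (G.lat c - G.ctr u (G.loc u ρ)) - (G.lat ρ - G.ctr u (G.loc u ρ)) := by ring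
      rw [e2]
      refine (abs_sub _ _).trans (add_le_add ?_ le_rfl)
      refine (abs_add_le _ _).trans (add_le_add ?_ le_rfl)
      rw [abs_neg]
    linarith
  have hhi : Γ.hi = Γ.k + Γ.N := rfl
  have hlast : lv (wt ω) Γ.p Γ.N (sp G u (G.loc u ρ) b) (r + 1) (ρ.1 + 1) ρ.2 ≤
      1 / 2 * bw (wt ω) Γ.p (ρ.1 + 1) (Γ.N - (ρ.1 + 1)) ρ.2 := by
    have h1 : r + 1 ≤ sr Γ G u (G.loc u ρ) := by
      refine le_min ?_ (by omega)
      have h2 : (r : ℤ) ≤ G.ra u (G.loc u ρ) := by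
        rw [G.ra_cast (G.rcc_pos u ρ).le]
        linarith
      have h3 : r ≤ G.ra u (G.loc u ρ) := by exact_mod_cast h2
      omega
    refine (lv_stop_mono (wt_pos ω) Γ.p_pos h1 _ _).trans ?_
    refine (hs (ρ.1 + 1) ρ.2 (mem_Rg_succ hv0 hv1 ha ρ)).trans ?_
    exact mul_le_mul_of_nonneg_right hβ (bw_pos (wt_pos ω) Γ.p_pos _ _ _).le
  have key := lat_kill (B := B) (S := sp G u (G.loc u ρ) b) (F := SD53.bx Γ (G.fs (i + 1) (t - 1) x (r : ℤ))) (wt_pos ω) Γ.p_pos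
    (Cx.box1 h) ⟨0, by rw [Cx.l_zero]; exact one_pos⟩ (by obtain ⟨y, _, _, hy⟩ := Cx.r_pos h; exact ⟨y, hy⟩) (k := ρ.1) (e0 := e0)
    (e := r) hrN her hρe (q := ρ.2) (by linarith)
    (by rw [hhi]; have := h.k1; have h4 : (1 : ℤ) ≤ Γ.k := by exact_mod_cast this
        have h5 : (r : ℤ) < Γ.N := by exact_mod_cast hrN
        have h6 : (ρ.1 : ℤ) < r := by exact_mod_cast hρr
        linarith)
    (fun k y hk => by
      have h1 := (hB k y hk).1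
      have : (e0 : ℤ) ≤ k := by linarith
      exact_mod_cast this)
    (fun y hy => by
      classical
      unfold SD53.bx at hy
      rw [mem_filter, mem_Icc] at hy
      exact hy.1)
    (fun k y _ _ hk hk2 => by
      have h1 := (hB k y hk2).2
      have h2 := hstrip _ hk
      linarith)
    (fun z h1 h2 h3 => by
      have h4 := hstrip _ h3
      have h5 : ((r - (ρ.1 + 1) : ℕ) : ℤ) = (r : ℤ) - (ρ.1 + 1) := by omega
      have h6 : (r : ℤ) < Γ.N := by exact_mod_cast hrN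
      have h7 : (0 : ℤ) ≤ Γ.k := by positivity
      classical
      unfold SD53.bx
      rw [mem_filter, mem_Icc]
      refine ⟨⟨by linarith, ?_⟩, ?_⟩
      · rw [hhi]
        linarith
      · show G.W (i + 1) (t - 1) ≤ |((z : ℝ) - G.v * ((r : ℤ) : ℝ)) - G.lat x|
        rw [Int.cast_natCast]
        exact hW.trans h4.le)
    hlast
  rw [← w_pc h] at key
  exact key

end

end Pool.Agent.W_7d29a1_C1.LtS74
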