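import Pool.Agent.W_7d29a1_C1.Late87

/-!
Both halves (MP_7d29a1_pr), attractor route, MOVE THE CONTACT: the step of one slab when luck pays IN THE AVERAGE OVER THE FIBER.
(helper87, after helper66 81504)

`Slab.stepA` = `Slab.step` with `c ∫_η 1_T w (R η ω) ≤ ∫_η 1_L w (R η ω)` for every `ω` instead of the pointwise comparison;
`cmp_avg`: pointwise ⟹ average; `avgL_cmpA`: the average form for the averaged weight.
-/

set_option autoImplicit false

namespace Pool.Agent.W_7d29a1_C1.Lt87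

open MeasureTheory Finset
open scoped ENNReal

variable {Ω : Type*} [MeasurableSpace Ω] {P : Measure Ω}

/-- Luck pays in the average over the fiber. -/
def CmpA (P : Measure Ω) (R : Ω → Ω → Ω) (T L : Set Ω) (c : ℝ≥0∞) (w : Ω → ℝ≥0∞) : Prop :=
  ∀ ω, c * ∫⁻ η, T.indicator w (R η ω) ∂P ≤ ∫⁻ η, L.indicator w (R η ω) ∂P

/-- Pointwise luck pays in the average. -/
theorem cmp_avg [IsProbabilityMeasure P] {R : Ω → Ω → Ω} {T L : Set Ω} (h : Slab P R T L) {c : ℝ≥0∞} {w : Ω → ℝ≥0∞}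
    (mw : Measurable w) (cmp : ∀ ω ∈ T, c * w ω ≤ ∫⁻ η, L.indicator w (R η ω) ∂P) : CmpA P R T L c w := by
  intro ω
  have hmR : Measurable fun η => R η ω := h.mp.measurable.comp (measurable_id.prodMk measurable_const)
  have hm1 : Measurable fun η => T.indicator w (R η ω) := (mw.indicator h.mT).comp hmR
  rw [← lintegral_const_mul _ hm1]
  calc ∫⁻ η, c * T.indicator w (R η ω) ∂P ≤ ∫⁻ _η, ∫⁻ η', L.indicator w (R η' ω) ∂P ∂P := by
        refine lintegral_mono fun η => ?_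
        by_cases hη : R η ω ∈ T
        · rw [Set.indicator_of_mem hη]
          have h1 := cmp _ hη
          simp only [h.rr] at h1
          exact h1
        · rw [Set.indicator_of_notMem hη, mul_zero]
          exact zero_le
    _ = _ := by rw [lintegral_const, measure_univ, mul_one]

/-- The pairs of one fiber. -/
theorem fiber87 [SFinite P] {R : Ω → Ω → Ω} {T L : Set Ω} (h : Slab P R T L) {c : ℝ≥0∞} {w f g : Ω → ℝ≥0∞} (mw : Measurable w)
    (mf : Measurable f) (mg : Measurable g) {ω : Ω} (fin : ∫⁻ η, w (R η ω) ∂P ≠ ⊤)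
    (cmp : c * ∫⁻ η, T.indicator w (R η ω) ∂P ≤ ∫⁻ η, L.indicator w (R η ω) ∂P) (hfg : ∀ ω, f ω ≤ g ω)
    (hfg' : ∀ ω ∈ T, ∀ η, R η ω ∈ L → f ω + f (R η ω) ≤ g (R η ω)) :
    c * (∫⁻ η, T.indicator (fun ω => w ω * f ω) (R η ω) ∂P) + ∫⁻ η, L.indicator (fun ω => w ω * f ω) (R η ω) ∂P ≤
      ∫⁻ η, L.indicator (fun ω => w ω * g ω) (R η ω) ∂P := by
  have hmR : Measurable fun η => R η ω := h.mp.measurable.comp (measurable_id.prodMk measurable_const)
  have mwf : Measurable fun ω => w ω * f ω := mw.mul mf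
  have mwg : Measurable fun ω => w ω * g ω := mw.mul mg
  have m1 : Measurable fun η => T.indicator w (R η ω) := (mw.indicator h.mT).comp hmR
  have m2 : Measurable fun η => L.indicator w (R η ω) := (mw.indicator h.mL).comp hmR
  have m3 : Measurable fun η => T.indicator (fun ω => w ω * f ω) (R η ω) := (mwf.indicator h.mT).comp hmR
  have m4 : Measurable fun η => L.indicator (fun ω => w ω * f ω) (R η ω) := (mwf.indicator h.mL).comp hmR
  have m5 : Measurable fun η => L.indicator (fun ω => w ω * g ω) (R η ω) := (mwg.indicator h.mL).comp hmR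
  obtain ⟨WT, hWT⟩ : ∃ WT, WT = ∫⁻ η, T.indicator w (R η ω) ∂P := ⟨_, rfl⟩
  obtain ⟨WL, hWL⟩ : ∃ WL, WL = ∫⁻ η, L.indicator w (R η ω) ∂P := ⟨_, rfl⟩
  obtain ⟨a, ha⟩ : ∃ a, a = ∫⁻ η, T.indicator (fun ω => w ω * f ω) (R η ω) ∂P := ⟨_, rfl⟩
  obtain ⟨bf, hbf⟩ : ∃ bf, bf = ∫⁻ η, L.indicator (fun ω => w ω * f ω) (R η ω) ∂P := ⟨_, rfl⟩
  obtain ⟨b, hb⟩ : ∃ b, b = ∫⁻ η, L.indicator (fun ω => w ω * g ω) (R η ω) ∂P := ⟨_, rfl⟩
  rw [← hWT, ← hWL] at cmp
  rw [← ha, ← hbf, ← hb]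
  have hbb : bf ≤ b := by
    rw [hbf, hb]
    refine lintegral_mono fun η => ?_
    by_cases hη : R η ω ∈ L
    · rw [Set.indicator_of_mem hη, Set.indicator_of_mem hη]
      gcongr
      exact hfg _
    · rw [Set.indicator_of_notMem hη]
      exact zero_le
  have hWTf : WT ≠ ⊤ := by
    refine ne_top_of_le_ne_top fin ?_
    rw [hWT]
    exact lintegral_mono fun η => Set.indicator_le_self' (fun _ _ => zero_le) _
  by_cases hW0 : WT = 0
  · have ha0 : a = 0 := by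
      rw [ha]
      rw [hWT] at hW0
      rw [lintegral_eq_zero_iff m1] at hW0
      rw [lintegral_eq_zero_iff m3]
      filter_upwards [hW0] with η hη
      by_cases h1 : R η ω ∈ T
      · rw [Set.indicator_of_mem h1] at hη ⊢
        have hη' : w (R η ω) = 0 := hη
        show w (R η ω) * f (R η ω) = 0
        rw [hη', zero_mul]
      · rw [Set.indicator_of_notMem h1]
        rfl
    rw [ha0, mul_zero, zero_add]
    exact hbb
  · -- the double integral
    have key : a * WL + WT * bf ≤ WT * b := by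
      have e1 : a * WL + WT * bf = ∫⁻ η, (T.indicator (fun ω => w ω * f ω) (R η ω) * WL + T.indicator w (R η ω) * bf) ∂P := by
        rw [lintegral_add_left (m3.mul_const _), lintegral_mul_const _ m3, lintegral_mul_const _ m1, ← ha, ← hWT]
      have e2 : WT * b = ∫⁻ η, T.indicator w (R η ω) * b ∂P := by
        rw [lintegral_mul_const _ m1, ← hWT]
      rw [e1, e2]
      refine lintegral_mono fun η => ?_
      show T.indicator (fun ω => w ω * f ω) (R η ω) * WL + T.indicator w (R η ω) * bf ≤ T.indicator w (R η ω) * b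
      by_cases hη : R η ω ∈ T
      · rw [Set.indicator_of_mem hη, Set.indicator_of_mem hη]
        have e3 : w (R η ω) * f (R η ω) * WL + w (R η ω) * bf = w (R η ω) * (f (R η ω) * WL + bf) := by ring
        rw [e3]
        gcongr
        rw [hWL, hbf, hb, ← lintegral_const_mul _ m2, ← lintegral_add_left (m2.const_mul _)]
        refine lintegral_mono fun η' => ?_
        by_cases hη' : R η' ω ∈ L
        · rw [Set.indicator_of_mem hη', Set.indicator_of_mem hη', Set.indicator_of_mem hη']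
          have h1 := hfg' (R η ω) hη η' (by rw [h.rr]; exact hη')
          rw [h.rr] at h1
          calc f (R η ω) * w (R η' ω) + w (R η' ω) * f (R η' ω) = w (R η' ω) * (f (R η ω) + f (R η' ω)) := by ring
            _ ≤ _ := by gcongr
        · rw [Set.indicator_of_notMem hη', Set.indicator_of_notMem hη', mul_zero, zero_add]
          exact zero_le
      · rw [Set.indicator_of_notMem hη, Set.indicator_of_notMem hη, zero_mul, zero_mul, zero_mul, add_zero]
    have key2 : WT * (c * a + bf) ≤ WT * b := by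
      refine le_trans ?_ key
      calc WT * (c * a + bf) = a * (c * WT) + WT * bf := by ring
        _ ≤ _ := by gcongr
    exact (ENNReal.mul_le_mul_iff_right hW0 hWTf).1 key2

/-- **One slab, luck pays in the average over the fiber.** -/
theorem Slab.stepA [SFinite P] {R : Ω → Ω → Ω} {T L : Set Ω} (h : Slab P R T L) {c : ℝ≥0∞} (hc : c ≠ ⊤)
    {w f g : Ω → ℝ≥0∞} (mw : Measurable w) (mf : Measurable f) (mg : Measurable g) (fin : ∀ ω, ∫⁻ η, w (R η ω) ∂P ≠ ⊤)
    (cmp : CmpA P R T L c w) (hfg : ∀ ω, f ω ≤ g ω) (hfg' : ∀ ω ∈ T, ∀ η, R η ω ∈ L → f ω + f (R η ω) ≤ g (R η ω)) :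
    (1 + c) * ∫⁻ ω, w ω * (f ω * fac T c ω) ∂P ≤ ∫⁻ ω, w ω * g ω ∂P := by
  classical
  have hone : (1 + c) * (1 + c)⁻¹ = 1 :=
    ENNReal.mul_inv_cancel (by positivity) (by finiteness)
  have mwf : Measurable fun ω => w ω * f ω := mw.mul mf
  have mwg : Measurable fun ω => w ω * g ω := mw.mul mg
  have e0 : ∀ φ : Ω → ℝ≥0∞, ∫⁻ ω, φ ω ∂P =
      (∫⁻ ω in T, φ ω ∂P) + ((∫⁻ ω in L, φ ω ∂P) + ∫⁻ ω in Tᶜ \ L, φ ω ∂P) := by
    intro φ
    rw [← lintegral_add_compl φ h.mT, ← lintegral_inter_add_sdiff φ Tᶜ h.mL]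
    congr 3
    refine congrArg _ ?_
    ext ω
    exact ⟨fun h1 => h1.2, fun h1 => ⟨fun h2 => (Set.disjoint_left.1 h.disj) h2 h1, h1⟩⟩
  have m1 : Measurable fun ω => w ω * (f ω * fac T c ω) := mw.mul (mf.mul (measurable_fac h.mT c))
  have e1 : ∫⁻ ω in T, w ω * (f ω * fac T c ω) ∂P = ∫⁻ ω in T, w ω * f ω ∂P :=
    setLIntegral_congr_fun h.mT fun ω hω => by simp [fac, hω]
  have eo : ∀ A : Set Ω, MeasurableSet A → (∀ ω ∈ A, ω ∉ T) →
      (1 + c) * ∫⁻ ω in A, w ω * (f ω * fac T c ω) ∂P = ∫⁻ ω in A, w ω * f ω ∂P := by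
    intro A mA hA
    rw [← lintegral_const_mul _ m1]
    refine setLIntegral_congr_fun mA fun ω hω => ?_
    have h5 : fac T c ω = (1 + c)⁻¹ := by simp [fac, hA ω hω]
    calc (1 + c) * (w ω * (f ω * fac T c ω)) = ((1 + c) * (1 + c)⁻¹) * (w ω * f ω) := by rw [h5]; ring
      _ = _ := by rw [hone, one_mul]
  have e2 := eo L h.mL fun ω hω h2 => (Set.disjoint_left.1 h.disj) h2 hω
  have e3 := eo (Tᶜ \ L) (h.mT.compl.diff h.mL) fun ω hω => hω.1
  have e4 : c * (∫⁻ ω in T, w ω * f ω ∂P) + (∫⁻ ω in L, w ω * f ω ∂P) ≤ ∫⁻ ω in L, w ω * g ω ∂P := by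
    have mi : Measurable fun z : Ω × Ω => R z.2 z.1 := h.mp.measurable.comp measurable_swap
    have mT' : Measurable fun ω => ∫⁻ η, T.indicator (fun ω => w ω * f ω) (R η ω) ∂P :=
      ((mwf.indicator h.mT).comp mi).lintegral_prod_right'
    rw [← h.transport h.mT mwf, ← h.transport h.mL mwg, ← h.transport h.mL mwf, ← lintegral_const_mul _ mT',
      ← lintegral_add_left (mT'.const_mul c)]
    exact lintegral_mono fun ω => fiber87 h mw mf mg (fin ω) (cmp ω) hfg hfg'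
  rw [e0 fun ω => w ω * (f ω * fac T c ω), e0 fun ω => w ω * g ω, mul_add, mul_add, e1, e2, e3, add_mul, one_mul]
  calc (∫⁻ ω in T, w ω * f ω ∂P) + c * (∫⁻ ω in T, w ω * f ω ∂P) +
        ((∫⁻ ω in L, w ω * f ω ∂P) + ∫⁻ ω in Tᶜ \ L, w ω * f ω ∂P)
      = (∫⁻ ω in T, w ω * f ω ∂P) + ((c * (∫⁻ ω in T, w ω * f ω ∂P) + ∫⁻ ω in L, w ω * f ω ∂P) +
          ∫⁻ ω in Tᶜ \ L, w ω * f ω ∂P) := by ring
    _ ≤ (∫⁻ ω in T, w ω * g ω ∂P) + ((∫⁻ ω in L, w ω * g ω ∂P) + ∫⁻ ω in Tᶜ \ L, w ω * g ω ∂P) := by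
        gcongr <;> exact hfg _

/-- **The average form for the averaged weight.** -/
theorem avgL_cmpA [SFinite P] {Rs Ru : Ω → Ω → Ω} {Ts Ls Tu Lu : Set Ω} (hs : Slab P Rs Ts Ls) (hu : Slab P Ru Tu Lu)
    {c : ℝ≥0∞} {w : Ω → ℝ≥0∞} (mw : Measurable w) (comm : ∀ η η' ω, Rs η (Ru η' ω) = Ru η' (Rs η ω))
    (cmp : CmpA P Ru Tu Lu c w)
    (sT : ∀ ω ∈ Ts ∪ Ls, ∀ η, Rs η ω ∈ Ts ∪ Ls → (ω ∈ Tu ↔ Rs η ω ∈ Tu))
    (sL : ∀ ω ∈ Ts ∪ Ls, ∀ η, Rs η ω ∈ Ts ∪ Ls → (ω ∈ Lu ↔ Rs η ω ∈ Lu))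
    (uL : ∀ ω ∈ Tu ∪ Lu, ∀ η, Ru η ω ∈ Tu ∪ Lu → (ω ∈ Ls ↔ Ru η ω ∈ Ls))
    (sq : ∀ ω, ω ∈ Tu ∪ Lu → ω ∈ Ts ∪ Ls → ∀ η' η, Rs η' ω ∈ Ts ∪ Ls → Ru η (Rs η' ω) ∈ Tu ∪ Lu →
      Ru η ω ∈ Ts ∪ Ls) :
    CmpA P Ru Tu Lu c (avgL P Rs (Ts ∪ Ls) Ls w) := by
  classical
  intro ω
  have mN : MeasurableSet (Ts ∪ Ls) := hs.mT.union hs.mL
  have hmu : Measurable fun η => Ru η ω := hu.mp.measurable.comp (measurable_id.prodMk measurable_const)
  have hms : Measurable fun η => Rs η ω := hs.mp.measurable.comp (measurable_id.prodMk measurable_const)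
  have mw1 : Measurable (avgL P Rs (Ts ∪ Ls) Ls w) := measurable_avgL hs.mp mN hs.mL mw
  -- `z = (η, η')`
  have mj : Measurable fun z : Ω × Ω => Rs z.2 (Ru z.1 ω) :=
    hs.mp.measurable.comp (measurable_snd.prodMk (hmu.comp measurable_fst))
  have mj' : Measurable fun z : Ω × Ω => Ru z.1 (Rs z.2 ω) :=
    hu.mp.measurable.comp (measurable_fst.prodMk (hms.comp measurable_snd))
  have key : ∀ D : Set Ω, MeasurableSet D → ∫⁻ η, D.indicator (avgL P Rs (Ts ∪ Ls) Ls w) (Ru η ω) ∂P =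
      ∫⁻ η', ∫⁻ η, (if Ru η ω ∈ D ∩ (Ts ∪ Ls) then Ls.indicator w (Ru η (Rs η' ω)) else 0) ∂P ∂P := by
    intro D mD
    have m0 : Measurable fun z : Ω × Ω => (if Ru z.1 ω ∈ D ∩ (Ts ∪ Ls) then Ls.indicator w (Ru z.1 (Rs z.2 ω)) else 0) :=
      Measurable.ite ((hmu.comp measurable_fst) (mD.inter mN)) ((mw.indicator hs.mL).comp mj') measurable_const
    rw [← lintegral_prod_symm' _ m0, lintegral_prod _ m0.aemeasurable]
    refine lintegral_congr fun η => ?_
    by_cases h1 : Ru η ω ∈ D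
    · rw [Set.indicator_of_mem h1]
      unfold avgL
      by_cases h2 : Ru η ω ∈ Ts ∪ Ls
      · rw [Set.indicator_of_mem h2]
        refine lintegral_congr fun η' => ?_
        show _ = if Ru η ω ∈ D ∩ (Ts ∪ Ls) then Ls.indicator w (Ru η (Rs η' ω)) else 0
        rw [if_pos ⟨h1, h2⟩, comm]
      · rw [Set.indicator_of_notMem h2]
        have : ∀ η', (if Ru η ω ∈ D ∩ (Ts ∪ Ls) then Ls.indicator w (Ru η (Rs η' ω)) else 0) = 0 := fun η' =>
          if_neg fun h3 => h2 h3.2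
        simp only [this, lintegral_const, zero_mul]
    · rw [Set.indicator_of_notMem h1]
      have : ∀ η', (if Ru η ω ∈ D ∩ (Ts ∪ Ls) then Ls.indicator w (Ru η (Rs η' ω)) else 0) = 0 := fun η' =>
        if_neg fun h3 => h1 h3.1
      simp only [this, lintegral_const, zero_mul]
  rw [key Tu hu.mT, key Lu hu.mL]
  have mI : ∀ D : Set Ω, MeasurableSet D → Measurable fun η' => ∫⁻ η, (if Ru η ω ∈ D ∩ (Ts ∪ Ls) then
      Ls.indicator w (Ru η (Rs η' ω)) else 0) ∂P := by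
    intro D mD
    have m0 : Measurable fun z : Ω × Ω => (if Ru z.1 ω ∈ D ∩ (Ts ∪ Ls) then Ls.indicator w (Ru z.1 (Rs z.2 ω)) else 0) :=
      Measurable.ite ((hmu.comp measurable_fst) (mD.inter mN)) ((mw.indicator hs.mL).comp mj') measurable_const
    exact m0.lintegral_prod_left'
  rw [← lintegral_const_mul _ (mI Tu hu.mT)]
  refine lintegral_mono fun η' => ?_
  by_cases hact : ∃ η₀, Ru η₀ ω ∈ Tu ∩ (Ts ∪ Ls) ∧ Ru η₀ (Rs η' ω) ∈ Ls
  · obtain ⟨η₀, h1, h2⟩ := hact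
    have h3 : Rs η' (Ru η₀ ω) ∈ Ls := by rw [comm]; exact h2
    have h4 : Ru η₀ (Rs η' ω) ∈ Tu := by
      have := (sT _ h1.2 η' (Or.inr h3)).1 h1.1
      rwa [comm] at this
    have h5 := cmp (Rs η' ω)
    calc c * ∫⁻ η, (if Ru η ω ∈ Tu ∩ (Ts ∪ Ls) then Ls.indicator w (Ru η (Rs η' ω)) else 0) ∂P
        ≤ c * ∫⁻ η, Tu.indicator w (Ru η (Rs η' ω)) ∂P := by
          gcongr with η
          by_cases h6 : Ru η ω ∈ Tu ∩ (Ts ∪ Ls)
          · rw [if_pos h6]
            by_cases h7 : Ru η (Rs η' ω) ∈ Ls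
            · rw [Set.indicator_of_mem h7]
              have h8 : Rs η' (Ru η ω) ∈ Ls := by rw [comm]; exact h7
              have h9 := (sT _ h6.2 η' (Or.inr h8)).1 h6.1
              rw [comm] at h9
              rw [Set.indicator_of_mem h9]
            · rw [Set.indicator_of_notMem h7]
              exact zero_le
          · rw [if_neg h6]
            exact zero_le
      _ ≤ ∫⁻ η, Lu.indicator w (Ru η (Rs η' ω)) ∂P := h5
      _ ≤ _ := by
          refine lintegral_mono fun η => ?_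
          by_cases h6 : Ru η (Rs η' ω) ∈ Lu
          · rw [Set.indicator_of_mem h6]
            have h7 : Ru η (Rs η' ω) ∈ Ls := by
              have h8 : Ru η (Ru η₀ (Rs η' ω)) ∈ Tu ∪ Lu := by rw [hu.rr]; exact Or.inr h6
              have := (uL _ (Or.inl h4) η h8).1 h2
              rwa [hu.rr] at this
            have h9 : Ru η ω ∈ Ts ∪ Ls := by
              have := sq _ (Or.inl h1.1) h1.2 η' η (Or.inr h3) (by rw [comm, hu.rr]; exact Or.inr h6)
              rwa [hu.rr] at this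
            have h10 : Ru η ω ∈ Lu := by
              refine (sL _ h9 η' ?_).2 ?_
              · rw [comm]
                exact Or.inr h7
              · rw [comm]
                exact h6
            show w _ ≤ if Ru η ω ∈ Lu ∩ (Ts ∪ Ls) then Ls.indicator w (Ru η (Rs η' ω)) else 0
            rw [if_pos ⟨h10, h9⟩, Set.indicator_of_mem h7]
          · rw [Set.indicator_of_notMem h6]
            exact zero_le
  · have e : ∀ η, (if Ru η ω ∈ Tu ∩ (Ts ∪ Ls) then Ls.indicator w (Ru η (Rs η' ω)) else 0) = 0 := by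
      intro η
      by_cases h6 : Ru η ω ∈ Tu ∩ (Ts ∪ Ls)
      · rw [if_pos h6]
        exact Set.indicator_of_notMem (fun h7 => hact ⟨η, h6, h7⟩) _
      · rw [if_neg h6]
    simp only [e, lintegral_const, zero_mul, mul_zero]
    exact zero_le

end Pool.Agent.W_7d29a1_C1.Lt87
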