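import Pool.Agent.W_7d29a1_C1.DepW6

/-!
MP_7d29a1_pr, the attractor route, TAME: THE LIST OF THE CUTS AROUND AN OWN SLAB AS A FUNCTION OF POSITIONS. (helper2)

`OwnL`: from `PW` and `ODW` of helper40: `cs i` = the cut at the position `i`; the lower clean cuts, the block `Bo`, the clean cuts, the block `Bl`,
the tower; gaps, scales, columns, successive cuts; `OwnL.nfl`, `OwnL.nfn`: what `not felt` says at every position.
-/

set_option autoImplicit false

namespace Pool.Agent.W_7d29a1_C1.Dep6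

open MeasureTheory ProbabilityTheory Finset
open Pool.Agent.W_7d29a1_F Pool.Agent.W_7d29a1_h4g Pool.Agent.W_7d29a1_H Pool.Agent.W_7d29a1_HS
open Pool.Agent.W_7d29a1_C1.H75 Pool.Agent.W_7d29a1_C1.U16 Pool.Agent.W_7d29a1_C1.H40 Pool.Agent.W_7d29a1_C1.S71

noncomputable section

variable {σ Λ : Type*} {G : Geo σ Λ} {lat : σ → ℝ} {latC : Cut Λ → ℝ} {w : ℕ → ℝ}

/-! ### Positions in lists -/

section Lists

variable {α : Type*} {d : α}

theorem getD_eq {Z : List α} {i : ℕ} (h : i < Z.length) : Z.getD i d = Z[i] := List.getD_eq_getElem Z d h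

theorem split1 {Z : List α} {i : ℕ} (h : i < Z.length) : Z = Z.take i ++ Z.getD i d :: Z.drop (i + 1) := by
  conv_lhs => rw [← List.take_append_drop i Z]
  rw [getD_eq h, List.drop_eq_getElem_cons h]

theorem split2 {Z : List α} {i : ℕ} (h : i + 1 < Z.length) :
    Z = Z.take i ++ Z.getD i d :: Z.getD (i + 1) d :: Z.drop (i + 1 + 1) := by
  conv_lhs => rw [← List.take_append_drop i Z]
  rw [getD_eq (show i < Z.length by omega), getD_eq h, List.drop_eq_getElem_cons (show i < Z.length by omega),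
    List.drop_eq_getElem_cons h]

theorem split3 {Z : List α} {i : ℕ} (h : i + 2 < Z.length) :
    Z = Z.take i ++ Z.getD i d :: Z.getD (i + 1) d :: Z.getD (i + 2) d :: Z.drop (i + 2 + 1) := by
  conv_lhs => rw [← List.take_append_drop i Z]
  rw [getD_eq (show i < Z.length by omega), getD_eq (show i + 1 < Z.length by omega), getD_eq h,
    List.drop_eq_getElem_cons (show i < Z.length by omega), List.drop_eq_getElem_cons (show i + 1 < Z.length by omega),
    List.drop_eq_getElem_cons (show i + 1 + 1 < Z.length from h)]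

theorem getD_right {A B : List α} (j : ℕ) : (A ++ B).getD (A.length + j) d = B.getD j d := by
  rw [List.getD_append_right _ _ _ _ (Nat.le_add_right _ _), Nat.add_sub_cancel_left]

theorem getD_left {A B : List α} {j : ℕ} (h : j < A.length) : (A ++ B).getD j d = A.getD j d := List.getD_append _ _ _ _ h

theorem getD_mem {Z : List α} {i : ℕ} (h : i < Z.length) : Z.getD i d ∈ Z := by
  rw [getD_eq h]
  exact List.getElem_mem h

/-- The part `B` of `A ++ (B ++ C)`. -/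
theorem getD_mid {A B C : List α} {j : ℕ} (h : j < B.length) : (A ++ (B ++ C)).getD (A.length + j) d = B.getD j d := by
  rw [getD_right, getD_left h]

theorem chain_getD {R : α → α → Prop} {Z : List α} (h : Z.IsChain R) {i : ℕ} (hi : i + 1 < Z.length) :
    R (Z.getD i d) (Z.getD (i + 1) d) := by
  rw [getD_eq (show i < Z.length by omega), getD_eq hi]
  exact List.isChain_iff_getElem.1 h i hi

/-- A count in terms of positions. -/
theorem card_pos (p : α → Prop) [DecidablePred p] (Z : List α) :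
    ((range Z.length).filter fun i => p (Z.getD i d)).card = Z.countP (fun x => decide (p x)) := by
  induction Z with
  | nil => simp
  | cons a Z ih =>
    rw [List.length_cons, Finset.range_eq_Ico, ← Finset.insert_Ico_add_one_left_eq_Ico (Nat.succ_pos _), List.countP_cons, ← ih]
    have e1 : (Ico (0 + 1) (Z.length + 1)).filter (fun i => p ((a :: Z).getD i d)) =
        ((range Z.length).filter fun i => p (Z.getD i d)).image (· + 1) := by
      ext i
      simp only [mem_filter, mem_Ico, mem_image, mem_range]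
      constructor
      · rintro ⟨⟨h1, h2⟩, h3⟩
        refine ⟨i - 1, ⟨by omega, ?_⟩, by omega⟩
        rwa [show i = (i - 1) + 1 by omega, List.getD_cons_succ] at h3
      · rintro ⟨j, ⟨h1, h2⟩, rfl⟩
        exact ⟨⟨by omega, by omega⟩, by rwa [List.getD_cons_succ]⟩
    rw [Finset.filter_insert, List.getD_cons_zero]
    by_cases ha : p a
    · rw [if_pos ha, e1, card_insert_of_notMem, card_image_of_injective _ (add_left_injective 1)]
      · simp [ha]
      · simp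
    · rw [if_neg ha, e1, card_image_of_injective _ (add_left_injective 1)]
      simp [ha]

end Lists

/-! ### Positions in towers -/

theorem getD_up {d : Cut Λ} (y : σ) (a n : ℕ) {j : ℕ} (h : j < n) : (G.up y a n).getD j d = G.ct (a + j) y := by
  rw [getD_eq (by rw [Geo.up_length]; exact h)]
  unfold Geo.up
  rw [List.getElem_map, List.getElem_range]
  rfl

theorem getD_dl {d : Cut Λ} (y : σ) (a : ℕ) : ∀ (n j : ℕ), j < n → (G.dl y a n).getD j d = G.lb (a + (n - 1 - j)) y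
  | 0, _, h => absurd h (by omega)
  | n + 1, 0, _ => by
    rw [Geo.dl_succ, List.getD_cons_zero]
    congr 1
  | n + 1, j + 1, h => by
    rw [Geo.dl_succ, List.getD_cons_succ, getD_dl y a n j (by omega)]
    congr 2
    omega

theorem getD_TB {d : Cut Λ} {ρ : σ} {B : ℕ → ℝ} {v : ℕ} {Z : List (Cut Λ)} (h : TB G lat latC ρ B v Z) {j : ℕ} (hj : j < Z.length) :
    (Z.getD j d).sc = v + j ∧ RB G ρ (v + j) (Z.getD j d) ∧ |latC (Z.getD j d) - lat ρ| ≤ B (v + j) := by
  induction Z generalizing v j with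
  | nil => exact absurd hj (by simp)
  | cons e Z ih =>
    obtain ⟨h1, h2, h3, h4⟩ := h
    cases j with
    | zero => exact ⟨h1, h2, h3⟩
    | succ j =>
      rw [List.getD_cons_succ]
      have h5 := ih h4 (j := j) (by rw [List.length_cons] at hj; omega)
      rwa [show v + 1 + j = v + (j + 1) by ring] at h5

/-! ### The structure -/

/-- **THE CUTS AROUND AN OWN SLAB, AS A FUNCTION OF POSITIONS.** Positions: `iL`, .. the lower clean cuts (scales `v2`, .., `v0`), then the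
block `Bo`, from `iC` on the clean cuts (scales `v0`, .., `v1`), then the block `Bl`, from `iT` on the tower (scales `v1 + 3`, .., `m`). -/
structure OwnL (G : Geo σ Λ) (lat : σ → ℝ) (latC : Cut Λ → ℝ) (w : ℕ → ℝ) (C0 : ℝ) (C2 D : ℕ) (Z : List (Cut Λ)) (ρ : σ) (u : ℕ)
    (cs : ℕ → Cut Λ) (v0 v1 v2 iL iC iT : ℕ) : Prop where
  v0u : v0 + C2 ≤ u
  uv1 : u + C2 ≤ v1
  uv2 : u + C2 ≤ v2
  v1m : v1 + 3 ≤ G.m
  iLC : iL + (v2 - v0) < iC
  iCT : iC + (v1 - v0) < iT
  len : iT + (G.m - (v1 + 3)) + 1 = Z.length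
  pair : ∀ i, i + 1 < Z.length → ∃ P Q, Z = P ++ cs i :: cs (i + 1) :: Q
  triple : ∀ i, i + 2 < Z.length → ∃ P Q, Z = P ++ cs i :: cs (i + 1) :: cs (i + 2) :: Q
  gap : ∀ i, i + 1 < Z.length → Gp G (cs i) (cs (i + 1))
  cw : ∀ i < Z.length, CW G (cs i)
  cnt : ∀ v, ((range Z.length).filter fun i => (cs i).sc = v).card ≤ 3
  lo : ∀ v, v0 ≤ v → v ≤ v2 → cs (iL + (v2 - v)) = G.lb v ρ
  bo : ∀ i, iL + (v2 - v0) < i → i < iC → (cs i).sc ≤ v0 ∧ |latC (cs i) - lat ρ| ≤ C0 * w (v0 + D * (u - v0))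
  clsc : ∀ v, v0 ≤ v → v ≤ v1 → (cs (iC + (v - v0))).sc = v
  clrb : ∀ v, v0 ≤ v → v ≤ v1 → RB G ρ v (cs (iC + (v - v0)))
  clat : ∀ v, v0 ≤ v → v ≤ v1 → |latC (cs (iC + (v - v0))) - lat ρ| ≤ if v ≤ u + C2 then w v else C0 * w v
  clct : ∀ v, v0 ≤ v → v ≤ u + C2 → cs (iC + (v - v0)) = G.ct v ρ
  bl : ∀ i, iC + (v1 - v0) < i → i < iT → (cs i).sc ≤ v1 + 2 ∧ |latC (cs i) - lat ρ| ≤ C0 * w (v1 + D * (v1 - u))
  twsc : ∀ v, v1 + 3 ≤ v → v ≤ G.m → (cs (iT + (v - (v1 + 3)))).sc = v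
  twrb : ∀ v, v1 + 3 ≤ v → v ≤ G.m → RB G ρ v (cs (iT + (v - (v1 + 3))))
  twat : ∀ v, v1 + 3 ≤ v → v ≤ G.m → |latC (cs (iT + (v - (v1 + 3)))) - lat ρ| ≤ BT w C0 D u v

/-- **THE POSITIONS EXIST.** -/
theorem ownL {C0 : ℝ} {C2 D : ℕ} {Z : List (Cut Λ)} {ρ : σ} {u : ℕ} (hP : PW G Z) (h : ODW G lat latC w C0 C2 D Z ρ u) :
    ∃ v0 v1 v2 iL iC iT, OwnL G lat latC w C0 C2 D Z ρ u (fun i => Z.getD i (G.ct 0 ρ)) v0 v1 v2 iL iC iT := by
  classical
  obtain ⟨v0, v1, v2, P, Lo, Bo, Cl, Bl, Tw, e, a1, a2, a3, a4, a5, a6, a7, a8, a9, b1, b2, b3, ⟨n, Cl', e1, b4⟩, b5⟩ := h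
  have hTl : 1 ≤ Tw.length := List.length_pos_iff.2 b3
  have hlen : Z.length = P.length + (Lo.length + (Bo.length + (Cl.length + (Bl.length + Tw.length)))) := by
    rw [e]
    simp only [List.length_append]
  set iL := P.length with hiL
  set iC := P.length + Lo.length + Bo.length with hiC
  set iT := P.length + Lo.length + Bo.length + Cl.length + Bl.length with hiT
  have gLo : ∀ j, j < Lo.length → Z.getD (iL + j) (G.ct 0 ρ) = Lo.getD j (G.ct 0 ρ) := fun j hj => by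
    rw [e, hiL]
    exact getD_mid hj
  have gBo : ∀ j, j < Bo.length → Z.getD (iL + Lo.length + j) (G.ct 0 ρ) = Bo.getD j (G.ct 0 ρ) := fun j hj => by
    rw [e, hiL, Nat.add_assoc, getD_right, getD_right, getD_left hj]
  have gCl : ∀ j, j < Cl.length → Z.getD (iC + j) (G.ct 0 ρ) = Cl.getD j (G.ct 0 ρ) := fun j hj => by
    rw [e, hiC, show P.length + Lo.length + Bo.length + j = P.length + (Lo.length + (Bo.length + j)) by ring, getD_right, getD_right,
      getD_right, getD_left hj]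
  have gBl : ∀ j, j < Bl.length → Z.getD (iC + Cl.length + j) (G.ct 0 ρ) = Bl.getD j (G.ct 0 ρ) := fun j hj => by
    rw [e, hiC, show P.length + Lo.length + Bo.length + Cl.length + j = P.length + (Lo.length + (Bo.length + (Cl.length + j))) by ring,
      getD_right, getD_right, getD_right, getD_right, getD_left hj]
  have gTw : ∀ j, Z.getD (iT + j) (G.ct 0 ρ) = Tw.getD j (G.ct 0 ρ) := fun j => by
    rw [e, hiT, show P.length + Lo.length + Bo.length + Cl.length + Bl.length + j =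
      P.length + (Lo.length + (Bo.length + (Cl.length + (Bl.length + j)))) by ring,
      getD_right, getD_right, getD_right, getD_right, getD_right]
  refine ⟨v0, v1, v2, iL, iC, iT, a1, a2, a3, by omega, by omega, by omega, by omega, fun i hi => ⟨_, _, split2 hi⟩,
    fun i hi => ⟨_, _, split3 hi⟩, fun i hi => chain_getD hP.ch hi, fun i hi => hP.mem _ (getD_mem hi), fun v => ?_, fun v h1 h2 => ?_,
    fun i h1 h2 => ?_, fun v h1 h2 => ?_, fun v h1 h2 => ?_, fun v h1 h2 => ?_, fun v h1 h2 => ?_, fun i h1 h2 => ?_, fun v h1 h2 => ?_,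
    fun v h1 h2 => ?_, fun v h1 h2 => ?_⟩
  · have h1 := hP.cnt v
    rw [← card_pos (d := G.ct 0 ρ) (fun d : Cut Λ => d.sc = v) Z] at h1
    exact h1
  · show Z.getD (iL + (v2 - v)) (G.ct 0 ρ) = _
    rw [gLo _ (by omega), b5, getD_dl ρ v0 _ _ (by omega)]
    congr 1
    omega
  · obtain ⟨j, rfl⟩ : ∃ j, i = iL + Lo.length + j := ⟨i - iL - Lo.length, by omega⟩
    have hj : j < Bo.length := by omega
    show (Z.getD (iL + Lo.length + j) (G.ct 0 ρ)).sc ≤ v0 ∧ |latC (Z.getD (iL + Lo.length + j) (G.ct 0 ρ)) - lat ρ| ≤ _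
    rw [gBo j hj]
    exact a6 _ (getD_mem hj)
  · show (Z.getD (iC + (v - v0)) (G.ct 0 ρ)).sc = v
    rw [gCl _ (by omega), (getD_TB a7 (by omega)).1]
    omega
  · have h3 := (getD_TB (d := G.ct 0 ρ) a7 (j := v - v0) (by omega)).2.1
    show RB G ρ v (Z.getD (iC + (v - v0)) (G.ct 0 ρ))
    rw [gCl _ (by omega)]
    rwa [show v0 + (v - v0) = v by omega] at h3
  · have h3 := (getD_TB (d := G.ct 0 ρ) a7 (j := v - v0) (by omega)).2.2
    show |latC (Z.getD (iC + (v - v0)) (G.ct 0 ρ)) - lat ρ| ≤ _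
    rw [gCl _ (by omega)]
    rwa [show v0 + (v - v0) = v by omega] at h3
  · show Z.getD (iC + (v - v0)) (G.ct 0 ρ) = _
    rw [gCl _ (by omega), e1, getD_left (by rw [Geo.up_length]; omega), getD_up ρ v0 n (by omega), show v0 + (v - v0) = v by omega]
  · obtain ⟨j, rfl⟩ : ∃ j, i = iC + Cl.length + j := ⟨i - iC - Cl.length, by omega⟩
    have hj : j < Bl.length := by omega
    show (Z.getD (iC + Cl.length + j) (G.ct 0 ρ)).sc ≤ v1 + 2 ∧ |latC (Z.getD (iC + Cl.length + j) (G.ct 0 ρ)) - lat ρ| ≤ _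
    rw [gBl j hj]
    exact a9 _ (getD_mem hj)
  · show (Z.getD (iT + (v - (v1 + 3))) (G.ct 0 ρ)).sc = v
    rw [gTw, (getD_TB b1 (by omega)).1]
    omega
  · have h3 := (getD_TB (d := G.ct 0 ρ) b1 (j := v - (v1 + 3)) (by omega)).2.1
    show RB G ρ v (Z.getD (iT + (v - (v1 + 3))) (G.ct 0 ρ))
    rw [gTw]
    rwa [show v1 + 3 + (v - (v1 + 3)) = v by omega] at h3
  · have h3 := (getD_TB (d := G.ct 0 ρ) b1 (j := v - (v1 + 3)) (by omega)).2.2
    show |latC (Z.getD (iT + (v - (v1 + 3))) (G.ct 0 ρ)) - lat ρ| ≤ _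
    rw [gTw]
    rwa [show v1 + 3 + (v - (v1 + 3)) = v by omega] at h3

namespace OwnL

variable {C0 : ℝ} {C2 D : ℕ} {Z : List (Cut Λ)} {ρ : σ} {u : ℕ} {cs : ℕ → Cut Λ} {v0 v1 v2 iL iC iT : ℕ}

/-- The depth of a layer is at most the distance of its label from `u`. -/
theorem nfl (h : OwnL G lat latC w C0 C2 D Z ρ u cs v0 v1 v2 iL iC iT) {Sw : Finset ℤ} {dL : Cut Λ → Cut Λ → Env → ℕ}
    {dN : Cut Λ → Cut Λ → Cut Λ → Env → ℕ} {scL : Cut Λ → Cut Λ → ℕ} {scN : Cut Λ → Cut Λ → Cut Λ → ℕ} {η : Env}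
    (ho : Ok6 Sw dL dN scL scN Z u η) {i l : ℕ} (hi : i + 1 < Z.length) (h1 : u ≤ scL (cs i) (cs (i + 1)) + l)
    (h2 : scL (cs i) (cs (i + 1)) ≤ u + l) : dL (cs i) (cs (i + 1)) η ≤ l := by
  obtain ⟨P, Q, e⟩ := h.pair i hi
  exact nfl_le ho.1 e h1 h2

/-- The depth of a node without a row of `Sw` is at most the distance of its label from `u`. -/
theorem nfn (h : OwnL G lat latC w C0 C2 D Z ρ u cs v0 v1 v2 iL iC iT) {Sw : Finset ℤ} {dL : Cut Λ → Cut Λ → Env → ℕ}
    {dN : Cut Λ → Cut Λ → Cut Λ → Env → ℕ} {scL : Cut Λ → Cut Λ → ℕ} {scN : Cut Λ → Cut Λ → Cut Λ → ℕ} {η : Env}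
    (ho : Ok6 Sw dL dN scL scN Z u η) {i l : ℕ} (hi : i + 2 < Z.length) (hs : ¬ HasSw Sw (cs i) (cs (i + 2)))
    (h1 : u ≤ scN (cs i) (cs (i + 1)) (cs (i + 2)) + l) (h2 : scN (cs i) (cs (i + 1)) (cs (i + 2)) ≤ u + l) :
    dN (cs i) (cs (i + 1)) (cs (i + 2)) η ≤ l := by
  obtain ⟨P, Q, e⟩ := h.triple i hi
  exact le_of_not_felt (ho.2 P _ _ _ Q e hs) h1 h2

theorem row_le (h : OwnL G lat latC w C0 C2 D Z ρ u cs v0 v1 v2 iL iC iT) {i : ℕ} (hi : i + 1 < Z.length) :
    (cs i).row ≤ (cs (i + 1)).row := (h.gap i hi).le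

/-- The rows increase. -/
theorem row_mono (h : OwnL G lat latC w C0 C2 D Z ρ u cs v0 v1 v2 iL iC iT) {i j : ℕ} (hij : i ≤ j) (hj : j < Z.length) :
    (cs i).row ≤ (cs j).row := by
  induction j, hij using Nat.le_induction with
  | base => exact le_rfl
  | succ j _ ih => exact (ih (by omega)).trans (h.row_le hj)

theorem cC_lt (h : OwnL G lat latC w C0 C2 D Z ρ u cs v0 v1 v2 iL iC iT) {v : ℕ} (h1 : v0 ≤ v) (h2 : v ≤ v1) :
    iC + (v - v0) < Z.length := by
  have a1 := h.iCT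
  have a2 := h.len
  omega

theorem cT_lt (h : OwnL G lat latC w C0 C2 D Z ρ u cs v0 v1 v2 iL iC iT) {v : ℕ} (h1 : v1 + 3 ≤ v) (h2 : v ≤ G.m) :
    iT + (v - (v1 + 3)) < Z.length := by
  have a2 := h.len
  omega

theorem cL_lt (h : OwnL G lat latC w C0 C2 D Z ρ u cs v0 v1 v2 iL iC iT) {v : ℕ} (h1 : v0 ≤ v) (h2 : v ≤ v2) :
    iL + (v2 - v) < Z.length := by
  have a0 := h.iLC
  have a1 := h.iCT
  have a2 := h.len
  omega

/-- The next clean cut. -/
theorem clsucc (_h : OwnL G lat latC w C0 C2 D Z ρ u cs v0 v1 v2 iL iC iT) {v : ℕ} (h1 : v0 ≤ v) :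
    iC + (v + 1 - v0) = iC + (v - v0) + 1 := by omega

/-- The layers `(ct (u - 1) ρ, ct u ρ]`, `(ct u ρ, ct (u + 1) ρ]` of the window. -/
theorem near (h : OwnL G lat latC w C0 C2 D Z ρ u cs v0 v1 v2 iL iC iT) (hC : 1 ≤ C2) :
    ∃ P Q, Z = P ++ G.ct (u - 1) ρ :: G.ct u ρ :: G.ct (u + 1) ρ :: Q := by
  have a0 := h.v0u
  have a1 := h.uv1
  have a2 := h.iCT
  have a3 := h.len
  obtain ⟨P, Q, e⟩ := h.triple (iC + (u - 1 - v0)) (by omega)
  refine ⟨P, Q, ?_⟩
  rw [h.clct (u - 1) (by omega) (by omega), show iC + (u - 1 - v0) + 1 = iC + (u - v0) by omega,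
    show iC + (u - 1 - v0) + 2 = iC + (u + 1 - v0) by omega, h.clct u (by omega) (by omega), h.clct (u + 1) (by omega) (by omega)] at e
  exact e

end OwnL

end

end Pool.Agent.W_7d29a1_C1.Dep6
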