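import Pool.Agent.W_7d29a1_C1.DepI6
import Pool.Agent.W_7d29a1_C1.OwnL2
import Pool.Agent.W_7d29a1_C1.RB6
import Pool.Agent.W_7d29a1_C1.SysN89

/-!
MP_7d29a1_pr, the attractor route [C1], TAME: THE LAYERS OF A CLEAN PIECE ARE A `Lay89`. (helper4)

`far_pos4`, `far_nod4` : one layer, one node of `OwnL`: the far level with a base on any line. `lay_pos4` : a piece of successive positions with
successive labels gives `Lay89` with heights `8 K ^ 2 T (v + 1)` and levels `Cq q₀ (th ^ 2) ^ |u - (v + 1)|`, for any line at the distances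
`Y v` widths of the cuts, `gr P (2 + Y v) ≤ Cq th ^ |u - (v + 1)|`. On the line of `ρ`: `lay_cl4` (clean cuts), `lay_ct4` (exact cuts),
`nod_ct4` (their nodes), `lay_tw4` (tower). `Cq` stands before `C0`, `C2`.
-/

set_option autoImplicit false
set_option linter.unusedSectionVars false
set_option linter.unusedVariables false

namespace Pool.Agent.W_7d29a1_C1.LayC4

open MeasureTheory ProbabilityTheory Finset Filter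
open Pool.Agent.W_7d29a1_F Pool.Agent.W_7d29a1_h4g Pool.Agent.W_7d29a1_H Pool.Agent.W_7d29a1_HS
open Pool.Agent.W_7d29a1_C1.H75 Pool.Agent.W_7d29a1_C1.U16 Pool.Agent.W_7d29a1_C1.H40 Pool.Agent.W_7d29a1_C1.S71
open Pool.Agent.W_7d29a1_C1.FarK89 Pool.Agent.W_7d29a1_C1.SysN89 Pool.Agent.W_7d29a1_C1.Dep6 Pool.Agent.W_7d29a1_C1.RB6

noncomputable section

/-! ### Numbers -/

/-- The growth at the distance `A R ^ l`, `l` large with `A`: the constant does not depend on `A`. -/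
theorem gr_pow4 {R th : ℝ} (hR : 1 ≤ R) (hth : 1 < th) (P : ℕ) :
    ∃ C : ℝ, 1 ≤ C ∧ ∀ A : ℝ, 0 ≤ A → ∃ l₀ : ℕ, ∀ l : ℕ, l₀ ≤ l → gr P (2 + A * R ^ l) ≤ C * th ^ l := by
  have hlR := Real.log_nonneg hR
  obtain ⟨C, hC, H⟩ := poly_pow6 (A := 1) (B := 1 + Real.log R) (by norm_num) (by linarith) hth P
  refine ⟨C, hC, fun A hA => ⟨⌈Real.log (3 + A)⌉₊, fun l hl => le_trans ?_ (H l)⟩⟩
  have hl' : Real.log (3 + A) ≤ l := (Nat.le_ceil _).trans (by exact_mod_cast hl)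
  have hRl : 1 ≤ R ^ l := one_le_pow₀ hR
  unfold gr
  have h1 : Real.log (1 + (2 + A * R ^ l)) ≤ Real.log (3 + A) + Real.log R * l := by
    have h2 : Real.log (1 + (2 + A * R ^ l)) ≤ Real.log ((3 + A) * R ^ l) := Real.log_le_log (by positivity) (by nlinarith)
    rw [Real.log_mul (by positivity) (by positivity), Real.log_pow] at h2
    linarith
  have h3 : 0 ≤ Real.log (1 + (2 + A * R ^ l)) := Real.log_nonneg (by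
    have : 0 ≤ A * R ^ l := by positivity
    linarith)
  exact pow_le_pow_left₀ (by linarith) (by linarith) P

theorem gr_nonneg4 (P : ℕ) : 0 ≤ gr P 4 := by
  unfold gr
  have : 0 ≤ Real.log (1 + 4) := Real.log_nonneg (by norm_num)
  positivity

/-- The distance of a label from `u`. -/
def ds4 (u v : ℕ) : ℕ := (u - v) + (v - u)

theorem ds4_le (u v : ℕ) : u ≤ v + ds4 u v := by unfold ds4; omega

theorem ds4_le' (u v : ℕ) : v ≤ u + ds4 u v := by unfold ds4; omega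

theorem ds4_lt {u v m : ℕ} (hu : u ≤ m) (hv : v ≤ m) : ds4 u v < m + 1 := by unfold ds4; omega

theorem sub_ds4 {u v : ℕ} : v - u ≤ ds4 u v := by unfold ds4; omega

section Abs

variable {σ Λ : Type*} {G : Geo σ Λ} {lat : σ → ℝ} {latC : Cut Λ → ℝ} {w : ℕ → ℝ}

/-- The height of a regular layer. -/
theorem hg_eq4 {Hf : Cut Λ → Cut Λ → ℕ} {a b : Cut Λ} (h : Gp G a b) (hH : 3 * G.K ^ 2 * G.T (lb6 a b) ≤ Hf a b) : hg6 Hf a b = Hf a b := by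
  refine hg6_eq ?_
  have h1 := h.2
  have h2 : ((3 * G.K ^ 2 * G.T (lb6 a b) : ℕ) : ℤ) ≤ Hf a b := by exact_mod_cast hH
  push_cast at h2
  have e : lb6 a b = max a.sc b.sc := rfl
  rw [e] at h2
  linarith

/-- The height of a regular node. -/
theorem hg_nod4 {Hf : Cut Λ → Cut Λ → ℕ} {a b e : Cut Λ} (h : Gp G a b) (h' : Gp G b e)
    (hH : 3 * G.K ^ 2 * G.T (lb6 a b) + 3 * G.K ^ 2 * G.T (lb6 b e) ≤ Hf a e) : hg6 Hf a e = Hf a e := by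
  refine hg6_eq ?_
  have h1 := h.2
  have h3 := h'.2
  have h2 : ((3 * G.K ^ 2 * G.T (lb6 a b) + 3 * G.K ^ 2 * G.T (lb6 b e) : ℕ) : ℤ) ≤ Hf a e := by exact_mod_cast hH
  push_cast at h2
  have e1 : lb6 a b = max a.sc b.sc := rfl
  have e2 : lb6 b e = max b.sc e.sc := rfl
  rw [e1, e2] at h2
  linarith

/-- The number of the rows of a regular layer. -/
theorem nR_eq4 {a b : Cut Λ} (h : a.row ≤ b.row) : (nR a b : ℤ) = b.row - a.row := by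
  unfold nR
  exact Int.toNat_of_nonneg (by omega)

section One

variable {C0 : ℝ} {C2 D : ℕ} {Z : List (Cut Λ)} {ρ : σ} {u : ℕ} {cs : ℕ → Cut Λ} {v0 v1 v2 iL iC iT : ℕ}
  {μ : Measure ℝ} {s c θ K K' A a g A' a' g' q₀ th : ℝ} {P : ℕ} {F F' : Cut Λ → Cut Λ → ℝ → Set Env} {E : Cut Λ → Cut Λ → Set Env}
  {E3 : Cut Λ → Cut Λ → Cut Λ → Set Env} {D' : ℕ} {X : Cut Λ → Cut Λ → Cut Λ → Env → ℕ} {Cn : ℕ} {Sw : Finset ℤ}
  {scN : Cut Λ → Cut Λ → Cut Λ → ℕ} {η : Env} {Hf : Cut Λ → Cut Λ → ℕ} {col : Cut Λ → ℤ}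

/-- **ONE POSITION**: the far level of its layer, with a base on any line. -/
theorem far_pos4 (h : OwnL G lat latC w C0 C2 D Z ρ u cs v0 v1 v2 iL iC iT) (hF : LvF μ A a g F) (hF' : LvF μ A' a' g' F')
    (hq : 0 ≤ q₀) (hth : 1 ≤ th) (ho : Ok6 Sw (dLI6 F F' E q₀ th D') (dNI6 X Cn F E3 q₀ th D') lb6 scN Z u η)
    (hFS : ∀ x y q, F x y q ⊆ lvS μ s c θ K P Hf col x y q) {i l : ℕ} (hi : i + 1 < Z.length)
    (h1 : u ≤ lb6 (cs i) (cs (i + 1)) + l) (h2 : lb6 (cs i) (cs (i + 1)) ≤ u + l) (hl : l < D') (hK : K' + 2 ≤ K)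
    (hw : 1 ≤ wd μ s (hg6 Hf (cs i) (cs (i + 1)))) {κ : Pt} {Y : ℝ} (hY : 0 ≤ Y)
    (hlat : |lat16 μ s κ ((cs i).row, col (cs i))| ≤ Y * wd μ s (hg6 Hf (cs i) (cs (i + 1)))) :
    ∃ bs : Pt, bs.1 = (cs i).row ∧ 0 ≤ lat16 μ s κ bs ∧ lat16 μ s κ bs < 1 ∧
      η ∈ Far16 μ s c θ K' (hg6 Hf (cs i) (cs (i + 1))) (nR (cs i) (cs (i + 1))) P bs (q₀ * th ^ l * gr P (2 + Y)) := by
  obtain ⟨P', Q', e⟩ := h.pair i hi
  have h3 := hFS _ _ _ (ok_lay6 hF hF' hq hth ho e h1 h2 hl).1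
  exact line16 (b := ((cs i).row, col (cs i))) (by positivity) hw hK hY hlat h3

/-- **ONE NODE**: the far level of its rows, with a base on any line. -/
theorem far_nod4 (h : OwnL G lat latC w C0 C2 D Z ρ u cs v0 v1 v2 iL iC iT) (hF : LvF μ A a g F)
    (hq : 0 ≤ q₀) (hth : 1 ≤ th) (ho : Ok6 Sw (dLI6 F F' E q₀ th D') (dNI6 X Cn F E3 q₀ th D') lb6 scN Z u η)
    (hFS : ∀ x y q, F x y q ⊆ lvS μ s c θ K P Hf col x y q) {i l : ℕ} (hi : i + 2 < Z.length) (hs : ¬ HasSw Sw (cs i) (cs (i + 2)))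
    (h1 : u ≤ scN (cs i) (cs (i + 1)) (cs (i + 2)) + l) (h2 : scN (cs i) (cs (i + 1)) (cs (i + 2)) ≤ u + l) (hl : l < D')
    (hK : K' + 2 ≤ K) (hw : 1 ≤ wd μ s (hg6 Hf (cs i) (cs (i + 2)))) {κ : Pt} {Y : ℝ} (hY : 0 ≤ Y)
    (hlat : |lat16 μ s κ ((cs i).row, col (cs i))| ≤ Y * wd μ s (hg6 Hf (cs i) (cs (i + 2)))) :
    ∃ bs : Pt, bs.1 = (cs i).row ∧ 0 ≤ lat16 μ s κ bs ∧ lat16 μ s κ bs < 1 ∧
      η ∈ Far16 μ s c θ K' (hg6 Hf (cs i) (cs (i + 2))) (nR (cs i) (cs (i + 2))) P bs (q₀ * th ^ l * gr P (2 + Y)) := by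
  obtain ⟨P', Q', e⟩ := h.triple i hi
  have h3 := hFS _ _ _ (ok_nod6 hF hq hth ho e hs h1 h2 hl).2
  exact line16 (b := ((cs i).row, col (cs i))) (by positivity) hw hK hY hlat h3

end One

/-! ### A piece of successive labels -/

variable {μ : Measure ℝ} [IsProbabilityMeasure μ] {s c C : ℝ} {n₀ : ℕ}

/-- **A PIECE OF SUCCESSIVE POSITIONS WITH SUCCESSIVE LABELS.** -/
theorem lay_pos4 (h0 : In μ s c C n₀) : ∃ n₂ : ℕ, 1 ≤ n₂ ∧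
    ∀ {σ Λ : Type*} {G : Geo σ Λ} {lat : σ → ℝ} {latC : Cut Λ → ℝ} {w : ℕ → ℝ} {C0 : ℝ} {C2 D : ℕ} {Z : List (Cut Λ)} {ρ : σ} {u : ℕ}
      {cs : ℕ → Cut Λ} {v0 v1 v2 iL iC iT : ℕ} {θ K K' A a g A' a' g' q₀ th : ℝ} {P : ℕ} {F F' : Cut Λ → Cut Λ → ℝ → Set Env}
      {E : Cut Λ → Cut Λ → Set Env} {E3 : Cut Λ → Cut Λ → Cut Λ → Set Env} {X : Cut Λ → Cut Λ → Cut Λ → Env → ℕ} {Cn : ℕ}
      {Sw : Finset ℤ} {scN : Cut Λ → Cut Λ → Cut Λ → ℕ} {η : Env} {Hf : Cut Λ → Cut Λ → ℕ} {col : Cut Λ → ℤ},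
    OwnL G lat latC w C0 C2 D Z ρ u cs v0 v1 v2 iL iC iT → LvF μ A a g F → LvF μ A' a' g' F' → 0 ≤ q₀ → 1 ≤ th →
    Ok6 Sw (dLI6 F F' E q₀ th (G.m + 1)) (dNI6 X Cn F E3 q₀ th (G.m + 1)) lb6 scN Z u η →
    (∀ x y q, F x y q ⊆ lvS μ s c θ K P Hf col x y q) → (∀ x y, Hf x y = 8 * G.K ^ 2 * G.T (lb6 x y)) → K' + 2 ≤ K →
    θ * (32 * G.K ^ 2) ≤ 1 → 0 ≤ θ →
    ∀ {f b : ℕ} {ps : ℕ → ℕ} {n₁ Tt : ℕ} {κ : Pt} {hh Cq : ℝ} {Y : ℕ → ℝ}, b ≤ G.m → (∀ v, f ≤ v → v < b → ps (v + 1) = ps v + 1) →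
    (∀ v, f ≤ v → v ≤ b → ps v < Z.length ∧ (cs (ps v)).sc = v) → 0 ≤ (cs (ps f)).row → n₂ ≤ n₁ → n₁ ≤ 8 * G.K ^ 2 * G.T (f + 1) →
    8 * G.K ^ 2 * G.T b ≤ Tt → |hh| * wd μ s Tt ≤ c / 8 * EE μ s Tt → 0 ≤ Cq → (∀ v, f ≤ v → v < b → 0 ≤ Y v) →
    (∀ v, f ≤ v → v < b → gr P (2 + Y v) ≤ Cq * th ^ ds4 u (v + 1)) →
    (∀ v, f ≤ v → v < b → |lat16 μ s κ ((cs (ps v)).row, col (cs (ps v)))| ≤ Y v * wd μ s (8 * G.K ^ 2 * G.T (v + 1))) →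
    ∃ bs : ℕ → Pt, (∀ v, f ≤ v → v < b → 0 ≤ lat16 μ s κ (bs v) ∧ lat16 μ s κ (bs v) < 1 ∧ (bs v).1 = (cs (ps v)).row) ∧
      Lay89 μ s c θ K' hh P η κ (fun v => (cs (ps v)).row.toNat) (fun v => 8 * G.K ^ 2 * G.T (v + 1))
        (fun v => nR (cs (ps v)) (cs (ps (v + 1)))) (fun v => Cq * q₀ * (th ^ 2) ^ ds4 u (v + 1)) bs f b n₁ := by
  obtain ⟨n₂, hn₂⟩ := eventually_atTop.1 ((wd_tendsto h0).eventually_ge_atTop 1)
  refine ⟨max n₂ 1, le_max_right _ _, ?_⟩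
  intro σ Λ G lat latC w C0 C2 D Z ρ u cs v0 v1 v2 iL iC iT θ K K' A a g A' a' g' q₀ th P F F' E E3 X Cn Sw scN η Hf col h hF hF' hq
    hth ho hFS hHf hK hθ hθ0 f b ps n₁ Tt κ hh Cq Y hbm hps hsc hrow0 hn₁ hn₁T hTt hforce hCq hY hgr hlat
  have hum : u ≤ G.m := by
    have a1 := h.uv1
    have a2 := h.v1m
    omega
  -- one layer
  have lay : ∀ v, f ≤ v → v < b → ps v + 1 < Z.length ∧ ps (v + 1) = ps v + 1 ∧ lb6 (cs (ps v)) (cs (ps (v + 1))) = v + 1 ∧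
      Gp G (cs (ps v)) (cs (ps (v + 1))) ∧ hg6 Hf (cs (ps v)) (cs (ps (v + 1))) = 8 * G.K ^ 2 * G.T (v + 1) := by
    intro v h1 h2
    have e1 := hps v h1 h2
    obtain ⟨l1, s1⟩ := hsc v h1 h2.le
    obtain ⟨l2, s2⟩ := hsc (v + 1) (by omega) (by omega)
    have e2 : lb6 (cs (ps v)) (cs (ps (v + 1))) = v + 1 := by
      unfold lb6
      rw [s1, s2]
      omega
    have g1 : Gp G (cs (ps v)) (cs (ps (v + 1))) := by
      rw [e1]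
      exact h.gap _ (by omega)
    refine ⟨by omega, e1, e2, g1, ?_⟩
    rw [hg_eq4 g1 (by rw [hHf]; exact Nat.mul_le_mul_right _ (Nat.mul_le_mul_right _ (by norm_num))), hHf, e2]
  have hrow : ∀ v, f ≤ v → v ≤ b → 0 ≤ (cs (ps v)).row := by
    intro v h1
    induction v, h1 using Nat.le_induction with
    | base => exact fun _ => hrow0
    | succ v h1 ih => exact fun h2 => (ih (by omega)).trans (lay v h1 (by omega)).2.2.2.1.le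
  have hTf : ∀ v, f ≤ v → 8 * G.K ^ 2 * G.T (f + 1) ≤ 8 * G.K ^ 2 * G.T (v + 1) := fun v h1 =>
    Nat.mul_le_mul_left _ (Tk_mono G.hK (by omega))
  have hTb : ∀ v, v < b → 8 * G.K ^ 2 * G.T (v + 1) ≤ Tt := fun v h1 =>
    (Nat.mul_le_mul_left _ (Tk_mono G.hK (by omega))).trans hTt
  have hwd : ∀ v, f ≤ v → 1 ≤ wd μ s (8 * G.K ^ 2 * G.T (v + 1)) := fun v h1 =>
    hn₂ _ ((((le_max_left _ _).trans hn₁).trans hn₁T).trans (hTf v h1))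
  -- the bases
  have key : ∀ v, f ≤ v ∧ v < b → ∃ bs : Pt, bs.1 = (cs (ps v)).row ∧ 0 ≤ lat16 μ s κ bs ∧ lat16 μ s κ bs < 1 ∧
      η ∈ Far16 μ s c θ K' (8 * G.K ^ 2 * G.T (v + 1)) (nR (cs (ps v)) (cs (ps (v + 1)))) P bs (Cq * q₀ * (th ^ 2) ^ ds4 u (v + 1)) := by
    rintro v ⟨h1, h2⟩
    obtain ⟨k1, k2, k3, k4, k5⟩ := lay v h1 h2
    have e := hlat v h1 h2
    rw [← k5] at e
    rw [k2] at k3 k4 k5 e ⊢
    obtain ⟨bs, b1, b2, b3, b4⟩ := far_pos4 (K' := K') (l := ds4 u (v + 1)) h hF hF' hq hth ho hFS k1 (by rw [k3]; exact ds4_le _ _)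
      (by rw [k3]; exact ds4_le' _ _) (ds4_lt hum (by omega)) hK (by rw [k5]; exact hwd v h1) (hY v h1 h2) e
    rw [k5] at b4
    refine ⟨bs, b1, b2, b3, Far16_mono ?_ _ _ _ _ b4⟩
    have e1 := mul_le_mul_of_nonneg_left (hgr v h1 h2) (show 0 ≤ q₀ * th ^ ds4 u (v + 1) by positivity)
    refine e1.trans (le_of_eq ?_)
    rw [← pow_mul, mul_comm 2, pow_mul]
    ring
  choose! bs hbs using key
  refine ⟨bs, fun v h1 h2 => ⟨(hbs v ⟨h1, h2⟩).2.1, (hbs v ⟨h1, h2⟩).2.2.1, (hbs v ⟨h1, h2⟩).1⟩, ?_⟩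
  refine ⟨fun v h1 h2 => by positivity, fun v h1 h2 => hn₁T.trans (hTf v h1), fun v h1 h2 => ?_, fun v h1 h2 => ?_, fun v h1 h2 => ?_,
    fun v h1 h2 => ?_, fun v h1 h2 => ?_, fun v h1 h2 => (hbs v ⟨h1, h2⟩).2.2.2, fun v h1 h2 => ?_, fun v h1 h2 => ?_⟩
  · obtain ⟨k1, k2, k3, k4, k5⟩ := lay v h1 h2
    show nR _ _ ≤ _
    rw [← k5]
    exact le_max_right _ _
  · have := (lay v h1 h2).2.2.2.1.le
    show ((cs (ps v)).row).toNat ≤ ((cs (ps (v + 1))).row).toNat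
    exact Int.toNat_le_toNat this
  · show (bs v).1 ≤ (((cs (ps v)).row.toNat : ℕ) : ℤ)
    rw [(hbs v ⟨h1, h2⟩).1]
    exact Int.self_le_toNat _
  · have e1 := (lay v h1 h2).2.2.2.1.le
    have e2 := hrow (v + 1) (by omega) (by omega)
    show (((cs (ps (v + 1))).row.toNat : ℕ) : ℤ) ≤ (bs v).1 + (nR (cs (ps v)) (cs (ps (v + 1))) : ℤ)
    rw [(hbs v ⟨h1, h2⟩).1, nR_eq4 e1, Int.toNat_of_nonneg e2]
    linarith
  · obtain ⟨-, e1, e2, -⟩ := hbs v ⟨h1, h2⟩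
    show |lat16 μ s κ (bs v)| ≤ wd μ s (8 * G.K ^ 2 * G.T (v + 1))
    rw [abs_of_nonneg e1]
    exact e2.le.trans (hwd v h1)
  · have hEt := EE_pos (μ := μ) (s := s) Tt
    have hEu := EE_pos (μ := μ) (s := s) (8 * G.K ^ 2 * G.T (v + 1))
    have hT1 : 1 ≤ 8 * G.K ^ 2 * G.T (v + 1) := (((le_max_right _ _).trans hn₁).trans hn₁T).trans (hTf v h1)
    have h2' := wd_growth_one h0 hT1 (hTb v h2)
    have h4 : |hh| * wd μ s (8 * G.K ^ 2 * G.T (v + 1)) * EE μ s Tt ≤ |hh| * (2 * EE μ s (8 * G.K ^ 2 * G.T (v + 1)) * wd μ s Tt) := by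
      rw [mul_assoc]
      exact mul_le_mul_of_nonneg_left h2' (abs_nonneg hh)
    have h5 : 2 * EE μ s (8 * G.K ^ 2 * G.T (v + 1)) * (|hh| * wd μ s Tt) ≤
        2 * EE μ s (8 * G.K ^ 2 * G.T (v + 1)) * (c / 8 * EE μ s Tt) := mul_le_mul_of_nonneg_left hforce (by positivity)
    have h6 : |hh| * wd μ s (8 * G.K ^ 2 * G.T (v + 1)) * EE μ s Tt ≤ c / 4 * EE μ s (8 * G.K ^ 2 * G.T (v + 1)) * EE μ s Tt := by
      calc _ ≤ |hh| * (2 * EE μ s (8 * G.K ^ 2 * G.T (v + 1)) * wd μ s Tt) := h4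
        _ = 2 * EE μ s (8 * G.K ^ 2 * G.T (v + 1)) * (|hh| * wd μ s Tt) := by ring
        _ ≤ _ := h5
        _ = _ := by ring
    exact le_of_mul_le_mul_right h6 hEt
  · obtain ⟨k1, k2, k3, k4, k5⟩ := lay v h1 h2
    have e0 := hrow v h1 h2.le
    have e2 := hrow (v + 1) (by omega) (by omega)
    have e1 := k4.le
    have g1 := k4.1
    have e : max (cs (ps v)).sc (cs (ps (v + 1))).sc = v + 1 := k3
    rw [e] at g1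
    have g2 : (((cs (ps (v + 1))).row.toNat - (cs (ps v)).row.toNat : ℕ) : ℤ) = (cs (ps (v + 1))).row - (cs (ps v)).row := by
      have r1 := Int.toNat_of_nonneg e0
      have r2 := Int.toNat_of_nonneg e2
      omega
    have g3 : ((G.T (v + 1) : ℕ) : ℝ) ≤ 4 * (((cs (ps (v + 1))).row.toNat - (cs (ps v)).row.toNat : ℕ) : ℝ) := by
      have g4 : ((G.T (v + 1) : ℕ) : ℤ) ≤ 4 * (((cs (ps (v + 1))).row.toNat - (cs (ps v)).row.toNat : ℕ) : ℤ) := by rw [g2]; exact g1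
      exact_mod_cast g4
    show θ * ((8 * G.K ^ 2 * G.T (v + 1) : ℕ) : ℝ) ≤ (((cs (ps (v + 1))).row.toNat - (cs (ps v)).row.toNat : ℕ) : ℝ)
    have hT0 : (0 : ℝ) ≤ G.T (v + 1) := Nat.cast_nonneg _
    push_cast
    calc θ * (8 * (G.K : ℝ) ^ 2 * (G.T (v + 1) : ℝ)) = θ * (32 * (G.K : ℝ) ^ 2) * ((G.T (v + 1) : ℝ) / 4) := by ring
      _ ≤ 1 * ((G.T (v + 1) : ℝ) / 4) := mul_le_mul_of_nonneg_right hθ (by linarith)
      _ ≤ _ := by linarith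

/-- The widths grow at most geometrically. -/
theorem w_pow4 {w : ℕ → ℝ} {Cw : ℝ} (hCw : 1 ≤ Cw) (hw : ∀ v, w (v + 1) ≤ Cw * w v) (v : ℕ) : ∀ k : ℕ, w (v + k) ≤ Cw ^ k * w v
  | 0 => by simp
  | k + 1 => by
    have h1 := hw (v + k)
    have h2 := mul_le_mul_of_nonneg_left (w_pow4 hCw hw v k) (show 0 ≤ Cw by linarith)
    rw [show v + (k + 1) = v + k + 1 by ring, pow_succ]
    linarith

/-- The distance of a centre from the line of `ρ`. -/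
theorem lat_ctr4 {κ : Pt} {a : Cut Λ} {col : Cut Λ → ℤ} {L LC B : ℝ} (h1 : L = (κ.2 : ℝ) - sl μ s * (κ.1 : ℝ))
    (h2 : |(col a : ℝ) - sl μ s * (a.row : ℝ) - LC| ≤ 1) (h3 : |LC - L| ≤ B) : |lat16 μ s κ (a.row, col a)| ≤ B + 1 := by
  have e : lat16 μ s κ (a.row, col a) = ((col a : ℝ) - sl μ s * (a.row : ℝ) - LC) + (LC - L) := by
    rw [h1]
    unfold lat16
    push_cast
    ring
  rw [e]
  have := abs_add_le ((col a : ℝ) - sl μ s * (a.row : ℝ) - LC) (LC - L)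
  linarith

/-- `Lay89` depends on the rows and the numbers of rows of its layers only. -/
theorem lay_congr4 {θ K h : ℝ} {P : ℕ} {η : Env} {κ : Pt} {r r' T N N' : ℕ → ℕ} {q : ℕ → ℝ} {bs : ℕ → Pt} {a b n₁ : ℕ}
    (hL : Lay89 μ s c θ K h P η κ r T N q bs a b n₁) (hr : ∀ v, a ≤ v → v ≤ b → r' v = r v)
    (hN : ∀ v, a ≤ v → v < b → N' v = N v) : Lay89 μ s c θ K h P η κ r' T N' q bs a b n₁ := by
  refine ⟨hL.q0, hL.T1, fun v h1 h2 => ?_, fun v h1 h2 => ?_, fun v h1 h2 => ?_, fun v h1 h2 => ?_, hL.b3, fun v h1 h2 => ?_, hL.force,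
    fun v h1 h2 => ?_⟩
  · rw [hN v h1 h2]
    exact hL.NT v h1 h2
  · rw [hr v h1 h2.le, hr (v + 1) (by omega) (by omega)]
    exact hL.rr v h1 h2
  · rw [hr v h1 h2.le]
    exact hL.b1 v h1 h2
  · rw [hr (v + 1) (by omega) (by omega), hN v h1 h2]
    exact hL.b2 v h1 h2
  · rw [hN v h1 h2]
    exact hL.far v h1 h2
  · rw [hr v h1 h2.le, hr (v + 1) (by omega) (by omega)]
    exact hL.len v h1 h2

/-- **THE CLEAN CUTS** `v0 ≤ f`, `b ≤ v1`, on the line of `ρ`. -/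
theorem lay_cl4 (h0 : In μ s c C n₀) : ∃ n₂ : ℕ, 1 ≤ n₂ ∧ ∀ {th : ℝ}, 1 < th → ∀ P : ℕ, ∃ Cq : ℝ, 1 ≤ Cq ∧ ∀ C0 : ℝ, 0 ≤ C0 → ∃ C20 : ℕ,
    ∀ {σ Λ : Type*} {G : Geo σ Λ} {lat : σ → ℝ} {latC : Cut Λ → ℝ} {w : ℕ → ℝ} {C2 D : ℕ} {Z : List (Cut Λ)} {ρ : σ} {u : ℕ}
      {cs : ℕ → Cut Λ} {v0 v1 v2 iL iC iT : ℕ} {θ K K' A a g A' a' g' q₀ : ℝ} {F F' : Cut Λ → Cut Λ → ℝ → Set Env}
      {E : Cut Λ → Cut Λ → Set Env} {E3 : Cut Λ → Cut Λ → Cut Λ → Set Env} {X : Cut Λ → Cut Λ → Cut Λ → Env → ℕ} {Cn : ℕ}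
      {Sw : Finset ℤ} {scN : Cut Λ → Cut Λ → Cut Λ → ℕ} {η : Env} {Hf : Cut Λ → Cut Λ → ℕ} {col : Cut Λ → ℤ}, C20 ≤ C2 →
    OwnL G lat latC w C0 C2 D Z ρ u cs v0 v1 v2 iL iC iT → LvF μ A a g F → LvF μ A' a' g' F' → 0 ≤ q₀ →
    Ok6 Sw (dLI6 F F' E q₀ th (G.m + 1)) (dNI6 X Cn F E3 q₀ th (G.m + 1)) lb6 scN Z u η →
    (∀ x y q, F x y q ⊆ lvS μ s c θ K P Hf col x y q) → (∀ x y, Hf x y = 8 * G.K ^ 2 * G.T (lb6 x y)) → K' + 2 ≤ K →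
    θ * (32 * G.K ^ 2) ≤ 1 → 0 ≤ θ → (∀ v, w v ≤ wd μ s (8 * G.K ^ 2 * G.T (v + 1))) →
    (∀ a, |(col a : ℝ) - sl μ s * (a.row : ℝ) - latC a| ≤ 1) →
    ∀ {f b n₁ Tt : ℕ} {κ : Pt} {hh : ℝ}, lat ρ = (κ.2 : ℝ) - sl μ s * (κ.1 : ℝ) → v0 ≤ f → f ≤ b → b ≤ v1 →
    0 ≤ (cs (iC + (f - v0))).row → n₂ ≤ n₁ → n₁ ≤ 8 * G.K ^ 2 * G.T (f + 1) → 8 * G.K ^ 2 * G.T b ≤ Tt →
    |hh| * wd μ s Tt ≤ c / 8 * EE μ s Tt →
    ∃ bs : ℕ → Pt, (∀ v, f ≤ v → v < b → 0 ≤ lat16 μ s κ (bs v) ∧ lat16 μ s κ (bs v) < 1 ∧ (bs v).1 = (cs (iC + (v - v0))).row) ∧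
      Lay89 μ s c θ K' hh P η κ (fun v => (cs (iC + (v - v0))).row.toNat) (fun v => 8 * G.K ^ 2 * G.T (v + 1))
        (fun v => nR (cs (iC + (v - v0))) (cs (iC + (v + 1 - v0)))) (fun v => Cq * q₀ * (th ^ 2) ^ ds4 u (v + 1)) bs f b n₁ := by
  obtain ⟨n₂, hn₂, H⟩ := lay_pos4 h0
  obtain ⟨n₃, hn₃⟩ := eventually_atTop.1 ((wd_tendsto h0).eventually_ge_atTop 1)
  refine ⟨max n₂ n₃, hn₂.trans (le_max_left _ _), fun {th} hth P => ?_⟩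
  obtain ⟨Ca, hCa, HC⟩ := gr_pow4 le_rfl hth P
  refine ⟨max (gr P 4) Ca, hCa.trans (le_max_right _ _), fun C0 hC0 => ?_⟩
  obtain ⟨l₀, hl₀⟩ := HC (C0 + 1) (by linarith)
  refine ⟨l₀, ?_⟩
  intro σ Λ G lat latC w C2 D Z ρ u cs v0 v1 v2 iL iC iT θ K K' A a g A' a' g' q₀ F F' E E3 X Cn Sw scN η Hf col hC2 h hF hF' hq ho hFS
    hHf hK hθ hθ0 hww hcol f b n₁ Tt κ hh hκ h1 h2 h3 hrow0 hn₁ hn₁T hTt hforce
  have a1 := h.v1m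
  refine H h hF hF' hq hth.le ho hFS hHf hK hθ hθ0 (f := f) (b := b) (ps := fun v => iC + (v - v0)) (κ := κ) (hh := hh)
    (Y := fun v => if v ≤ u + C2 then 2 else C0 + 1) (by omega)
    (fun v k1 k2 => by show iC + (v + 1 - v0) = iC + (v - v0) + 1; omega)
    (fun v k1 k2 => ⟨h.cC_lt (by omega) (by omega), h.clsc v (by omega) (by omega)⟩) hrow0 ((le_max_left _ _).trans hn₁) hn₁T hTt hforce
    ((zero_le_one.trans hCa).trans (le_max_right _ _)) (fun v k1 k2 => ?_) (fun v k1 k2 => ?_) (fun v k1 k2 => ?_)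
  · show (0 : ℝ) ≤ if v ≤ u + C2 then 2 else C0 + 1
    split_ifs
    · norm_num
    · linarith
  · show gr P (2 + if v ≤ u + C2 then 2 else C0 + 1) ≤ _
    have hp : 1 ≤ th ^ ds4 u (v + 1) := one_le_pow₀ hth.le
    split_ifs with hv
    · norm_num only
      exact (le_max_left _ _).trans (le_mul_of_one_le_right ((zero_le_one.trans hCa).trans (le_max_right _ _)) hp)
    · have e1 := hl₀ (ds4 u (v + 1)) (by unfold ds4; omega)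
      rw [one_pow, mul_one] at e1
      exact e1.trans (mul_le_mul_of_nonneg_right (le_max_right _ _) (by linarith))
  · have e1 : 1 ≤ wd μ s (8 * G.K ^ 2 * G.T (v + 1)) := hn₃ _ ((((le_max_right _ _).trans hn₁).trans hn₁T).trans
      (Nat.mul_le_mul_left _ (Tk_mono G.hK (by omega))))
    have e3 := lat_ctr4 hκ (hcol (cs (iC + (v - v0)))) (h.clat v (by omega) (by omega))
    have e4 := hww v
    show |lat16 μ s κ ((cs (iC + (v - v0))).row, col (cs (iC + (v - v0))))| ≤ (if v ≤ u + C2 then 2 else C0 + 1) * _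
    refine e3.trans ?_
    split_ifs <;> nlinarith

/-- **THE EXACT CLEAN CUTS** `v0 ≤ f`, `b ≤ u + C2`, on the line of `ρ`. -/
theorem lay_ct4 (h0 : In μ s c C n₀) : ∃ n₂ : ℕ, 1 ≤ n₂ ∧
    ∀ {σ Λ : Type*} {G : Geo σ Λ} {lat : σ → ℝ} {latC : Cut Λ → ℝ} {w : ℕ → ℝ} {C0 : ℝ} {C2 D : ℕ} {Z : List (Cut Λ)} {ρ : σ} {u : ℕ}
      {cs : ℕ → Cut Λ} {v0 v1 v2 iL iC iT : ℕ} {θ K K' A a g A' a' g' q₀ th : ℝ} {P : ℕ} {F F' : Cut Λ → Cut Λ → ℝ → Set Env}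
      {E : Cut Λ → Cut Λ → Set Env} {E3 : Cut Λ → Cut Λ → Cut Λ → Set Env} {X : Cut Λ → Cut Λ → Cut Λ → Env → ℕ} {Cn : ℕ}
      {Sw : Finset ℤ} {scN : Cut Λ → Cut Λ → Cut Λ → ℕ} {η : Env} {Hf : Cut Λ → Cut Λ → ℕ} {col : Cut Λ → ℤ},
    OwnL G lat latC w C0 C2 D Z ρ u cs v0 v1 v2 iL iC iT → LvF μ A a g F → LvF μ A' a' g' F' → 0 ≤ q₀ → 1 ≤ th →
    Ok6 Sw (dLI6 F F' E q₀ th (G.m + 1)) (dNI6 X Cn F E3 q₀ th (G.m + 1)) lb6 scN Z u η →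
    (∀ x y q, F x y q ⊆ lvS μ s c θ K P Hf col x y q) → (∀ x y, Hf x y = 8 * G.K ^ 2 * G.T (lb6 x y)) → K' + 2 ≤ K →
    θ * (32 * G.K ^ 2) ≤ 1 → 0 ≤ θ → (∀ v, w v ≤ wd μ s (8 * G.K ^ 2 * G.T (v + 1))) →
    (∀ a, |(col a : ℝ) - sl μ s * (a.row : ℝ) - latC a| ≤ 1) →
    ∀ {f b n₁ Tt : ℕ} {κ : Pt} {hh : ℝ}, lat ρ = (κ.2 : ℝ) - sl μ s * (κ.1 : ℝ) → v0 ≤ f → f ≤ b → b ≤ u + C2 →
    0 ≤ (G.ct f ρ).row → n₂ ≤ n₁ → n₁ ≤ 8 * G.K ^ 2 * G.T (f + 1) → 8 * G.K ^ 2 * G.T b ≤ Tt →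
    |hh| * wd μ s Tt ≤ c / 8 * EE μ s Tt →
    ∃ bs : ℕ → Pt, (∀ v, f ≤ v → v < b → 0 ≤ lat16 μ s κ (bs v) ∧ lat16 μ s κ (bs v) < 1 ∧ (bs v).1 = (G.ct v ρ).row) ∧
      Lay89 μ s c θ K' hh P η κ (fun v => (G.ct v ρ).row.toNat) (fun v => 8 * G.K ^ 2 * G.T (v + 1))
        (fun v => nR (G.ct v ρ) (G.ct (v + 1) ρ)) (fun v => gr P 4 * q₀ * (th ^ 2) ^ ds4 u (v + 1)) bs f b n₁ := by
  obtain ⟨n₂, hn₂, H⟩ := lay_pos4 h0
  obtain ⟨n₃, hn₃⟩ := eventually_atTop.1 ((wd_tendsto h0).eventually_ge_atTop 1)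
  refine ⟨max n₂ n₃, hn₂.trans (le_max_left _ _), ?_⟩
  intro σ Λ G lat latC w C0 C2 D Z ρ u cs v0 v1 v2 iL iC iT θ K K' A a g A' a' g' q₀ th P F F' E E3 X Cn Sw scN η Hf col h hF hF' hq
    hth ho hFS hHf hK hθ hθ0 hww hcol f b n₁ Tt κ hh hκ h1 h2 h3 hrow0 hn₁ hn₁T hTt hforce
  have a1 := h.uv1
  have a2 := h.v1m
  have e : ∀ v, f ≤ v → v ≤ b → cs (iC + (v - v0)) = G.ct v ρ := fun v k1 k2 => h.clct v (by omega) (by omega)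
  have hg : ∀ v, f ≤ v → v < b → gr P (2 + 2) ≤ gr P 4 * th ^ ds4 u (v + 1) := fun v k1 k2 => by
    norm_num only
    exact le_mul_of_one_le_right (gr_nonneg4 P) (one_le_pow₀ hth)
  have hl : ∀ v, f ≤ v → v < b → |lat16 μ s κ ((cs (iC + (v - v0))).row, col (cs (iC + (v - v0))))| ≤
      2 * wd μ s (8 * G.K ^ 2 * G.T (v + 1)) := fun v k1 k2 => by
    have e1 : 1 ≤ wd μ s (8 * G.K ^ 2 * G.T (v + 1)) := hn₃ _ ((((le_max_right _ _).trans hn₁).trans hn₁T).trans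
      (Nat.mul_le_mul_left _ (Tk_mono G.hK (by omega))))
    have e2 := h.clat v (by omega) (by omega)
    rw [if_pos (by omega)] at e2
    have e3 := lat_ctr4 hκ (hcol (cs (iC + (v - v0)))) e2
    have e4 := hww v
    linarith
  obtain ⟨bs, hbs, HL⟩ := H h hF hF' hq hth ho hFS hHf hK hθ hθ0 (f := f) (b := b) (ps := fun v => iC + (v - v0)) (κ := κ) (hh := hh)
    (Cq := gr P 4) (Y := fun _ => 2) (by omega)
    (fun v k1 k2 => by show iC + (v + 1 - v0) = iC + (v - v0) + 1; omega)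
    (fun v k1 k2 => ⟨h.cC_lt (by omega) (by omega), h.clsc v (by omega) (by omega)⟩)
    (by show 0 ≤ (cs (iC + (f - v0))).row; rw [e f le_rfl h2]; exact hrow0) ((le_max_left _ _).trans hn₁) hn₁T hTt hforce
    (gr_nonneg4 P) (fun v k1 k2 => by norm_num) hg hl
  refine ⟨bs, fun v k1 k2 => ?_, lay_congr4 HL (fun v k1 k2 => by show _ = (cs (iC + (v - v0))).row.toNat; rw [e v k1 k2])
    (fun v k1 k2 => by
      show _ = nR (cs (iC + (v - v0))) (cs (iC + (v + 1 - v0)))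
      rw [e v k1 k2.le, e (v + 1) (by omega) (by omega)])⟩
  have := hbs v k1 k2
  rwa [e v k1 k2.le] at this

/-- **THE NODES OF THE EXACT CLEAN CUTS**, on the line of `ρ`. -/
theorem nod_ct4 (h0 : In μ s c C n₀) : ∃ n₂ : ℕ, 1 ≤ n₂ ∧
    ∀ {σ Λ : Type*} {G : Geo σ Λ} {lat : σ → ℝ} {latC : Cut Λ → ℝ} {w : ℕ → ℝ} {C0 : ℝ} {C2 D : ℕ} {Z : List (Cut Λ)} {ρ : σ} {u : ℕ}
      {cs : ℕ → Cut Λ} {v0 v1 v2 iL iC iT : ℕ} {θ K K' A a g q₀ th : ℝ} {P : ℕ} {F F' : Cut Λ → Cut Λ → ℝ → Set Env}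
      {E : Cut Λ → Cut Λ → Set Env} {E3 : Cut Λ → Cut Λ → Cut Λ → Set Env} {X : Cut Λ → Cut Λ → Cut Λ → Env → ℕ} {Cn : ℕ}
      {Sw : Finset ℤ} {η : Env} {Hf : Cut Λ → Cut Λ → ℕ} {col : Cut Λ → ℤ},
    OwnL G lat latC w C0 C2 D Z ρ u cs v0 v1 v2 iL iC iT → LvF μ A a g F → 0 ≤ q₀ → 1 ≤ th →
    Ok6 Sw (dLI6 F F' E q₀ th (G.m + 1)) (dNI6 X Cn F E3 q₀ th (G.m + 1)) lb6 lbN6 Z u η →
    (∀ x y q, F x y q ⊆ lvS μ s c θ K P Hf col x y q) → (∀ x y, Hf x y = 8 * G.K ^ 2 * G.T (lb6 x y)) → K' + 2 ≤ K →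
    (∀ v, w v ≤ w (v + 1)) → (∀ v, w v ≤ wd μ s (8 * G.K ^ 2 * G.T (v + 1))) →
    (∀ a, |(col a : ℝ) - sl μ s * (a.row : ℝ) - latC a| ≤ 1) →
    ∀ {v : ℕ} {κ : Pt}, lat ρ = (κ.2 : ℝ) - sl μ s * (κ.1 : ℝ) → v0 ≤ v → v + 2 ≤ u + C2 →
    ¬ HasSw Sw (G.ct v ρ) (G.ct (v + 2) ρ) → n₂ ≤ 8 * G.K ^ 2 * G.T (v + 2) →
    ∃ b : Pt, b.1 = (G.ct v ρ).row ∧ 0 ≤ lat16 μ s κ b ∧ lat16 μ s κ b < 1 ∧
      η ∈ Far16 μ s c θ K' (8 * G.K ^ 2 * G.T (v + 2)) (nR (G.ct v ρ) (G.ct (v + 2) ρ)) P b (gr P 4 * q₀ * th ^ ds4 u (v + 1)) := by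
  obtain ⟨n₃, hn₃⟩ := eventually_atTop.1 ((wd_tendsto h0).eventually_ge_atTop 1)
  refine ⟨max n₃ 1, le_max_right _ _, ?_⟩
  intro σ Λ G lat latC w C0 C2 D Z ρ u cs v0 v1 v2 iL iC iT θ K K' A a g q₀ th P F F' E E3 X Cn Sw η Hf col h hF hq
    hth ho hFS hHf hK hwm hww hcol v κ hκ h1 h2 hs hn
  have a1 := h.uv1
  have a2 := h.v1m
  have c0 : cs (iC + (v - v0)) = G.ct v ρ := h.clct v (by omega) (by omega)
  have c1 : cs (iC + (v - v0) + 1) = G.ct (v + 1) ρ := by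
    rw [show iC + (v - v0) + 1 = iC + (v + 1 - v0) by omega]
    exact h.clct (v + 1) (by omega) (by omega)
  have c2 : cs (iC + (v - v0) + 2) = G.ct (v + 2) ρ := by
    rw [show iC + (v - v0) + 2 = iC + (v + 2 - v0) by omega]
    exact h.clct (v + 2) (by omega) (by omega)
  have s0 := h.clsc v (by omega) (by omega)
  have s1 := h.clsc (v + 1) (by omega) (by omega)
  have s2 := h.clsc (v + 2) (by omega) (by omega)
  rw [show iC + (v + 1 - v0) = iC + (v - v0) + 1 by omega] at s1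
  rw [show iC + (v + 2 - v0) = iC + (v - v0) + 2 by omega] at s2
  have hlen : iC + (v - v0) + 2 < Z.length := by
    have := h.cC_lt (v := v + 2) (by omega) (by omega)
    omega
  have g1 := h.gap (iC + (v - v0)) (by omega)
  have g2 := h.gap (iC + (v - v0) + 1) (by omega)
  have l1 : lb6 (cs (iC + (v - v0))) (cs (iC + (v - v0) + 1)) = v + 1 := by unfold lb6; omega
  have l2 : lb6 (cs (iC + (v - v0) + 1)) (cs (iC + (v - v0) + 2)) = v + 2 := by unfold lb6; omega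
  have l3 : lb6 (cs (iC + (v - v0))) (cs (iC + (v - v0) + 2)) = v + 2 := by unfold lb6; omega
  have hgt : hg6 Hf (cs (iC + (v - v0))) (cs (iC + (v - v0) + 2)) = 8 * G.K ^ 2 * G.T (v + 2) := by
    rw [hg_nod4 g1 g2, hHf, l3]
    rw [hHf, l1, l2, l3]
    have t1 : G.T (v + 1) ≤ G.T (v + 2) := Tk_mono G.hK (by omega)
    have t2 : 3 * G.K ^ 2 * G.T (v + 1) ≤ 3 * G.K ^ 2 * G.T (v + 2) := Nat.mul_le_mul_left _ t1
    have t3 : 3 * G.K ^ 2 * G.T (v + 2) + 3 * G.K ^ 2 * G.T (v + 2) ≤ 8 * G.K ^ 2 * G.T (v + 2) := by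
      rw [← add_mul, ← add_mul]
      exact Nat.mul_le_mul_right _ (Nat.mul_le_mul_right _ (by norm_num))
    omega
  have e1 : 1 ≤ wd μ s (8 * G.K ^ 2 * G.T (v + 2)) := hn₃ _ ((le_max_left _ _).trans hn)
  have e2 := h.clat v (by omega) (by omega)
  rw [if_pos (by omega)] at e2
  have e3 := lat_ctr4 hκ (hcol (cs (iC + (v - v0)))) e2
  have e4 : w v ≤ wd μ s (8 * G.K ^ 2 * G.T (v + 2)) := (hwm v).trans (hww (v + 1))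
  obtain ⟨b, b1, b2, b3, b4⟩ := far_nod4 (K' := K') (l := ds4 u (v + 1)) (κ := κ) (Y := 2) h hF hq hth ho hFS (i := iC + (v - v0)) hlen
    (by rw [c0, c2]; exact hs) (by show u ≤ (cs (iC + (v - v0) + 1)).sc + _; rw [s1]; exact ds4_le _ _)
    (by show (cs (iC + (v - v0) + 1)).sc ≤ _; rw [s1]; exact ds4_le' _ _) (ds4_lt (by omega) (by omega)) hK (by rw [hgt]; exact e1)
    (by norm_num) (by rw [hgt]; linarith)
  rw [hgt] at b4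
  rw [c0, c2] at b4
  rw [c0] at b1
  refine ⟨b, b1, b2, b3, Far16_mono (le_of_eq ?_) _ _ _ _ b4⟩
  norm_num only
  ring

/-- **THE TOWER** `v1 + 3 ≤ f`, `b ≤ m`, on the line of `ρ`. -/
theorem lay_tw4 (h0 : In μ s c C n₀) : ∃ n₂ : ℕ, 1 ≤ n₂ ∧ ∀ {th Cw : ℝ} (D : ℕ), 1 < th → 1 ≤ Cw → ∀ P : ℕ, ∃ Cq : ℝ, 1 ≤ Cq ∧
    ∀ C0 : ℝ, 0 ≤ C0 → ∃ C20 : ℕ,
    ∀ {σ Λ : Type*} {G : Geo σ Λ} {lat : σ → ℝ} {latC : Cut Λ → ℝ} {w : ℕ → ℝ} {C2 : ℕ} {Z : List (Cut Λ)} {ρ : σ} {u : ℕ}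
      {cs : ℕ → Cut Λ} {v0 v1 v2 iL iC iT : ℕ} {θ K K' A a g A' a' g' q₀ : ℝ} {F F' : Cut Λ → Cut Λ → ℝ → Set Env}
      {E : Cut Λ → Cut Λ → Set Env} {E3 : Cut Λ → Cut Λ → Cut Λ → Set Env} {X : Cut Λ → Cut Λ → Cut Λ → Env → ℕ} {Cn : ℕ}
      {Sw : Finset ℤ} {scN : Cut Λ → Cut Λ → Cut Λ → ℕ} {η : Env} {Hf : Cut Λ → Cut Λ → ℕ} {col : Cut Λ → ℤ}, C20 ≤ C2 →
    OwnL G lat latC w C0 C2 D Z ρ u cs v0 v1 v2 iL iC iT → LvF μ A a g F → LvF μ A' a' g' F' → 0 ≤ q₀ →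
    Ok6 Sw (dLI6 F F' E q₀ th (G.m + 1)) (dNI6 X Cn F E3 q₀ th (G.m + 1)) lb6 scN Z u η →
    (∀ x y q, F x y q ⊆ lvS μ s c θ K P Hf col x y q) → (∀ x y, Hf x y = 8 * G.K ^ 2 * G.T (lb6 x y)) → K' + 2 ≤ K →
    θ * (32 * G.K ^ 2) ≤ 1 → 0 ≤ θ → (∀ v, 0 ≤ w v) → (∀ v, w v ≤ wd μ s (8 * G.K ^ 2 * G.T (v + 1))) → (∀ v, w (v + 1) ≤ Cw * w v) →
    (∀ a, |(col a : ℝ) - sl μ s * (a.row : ℝ) - latC a| ≤ 1) →
    ∀ {f b n₁ Tt : ℕ} {κ : Pt} {hh : ℝ}, lat ρ = (κ.2 : ℝ) - sl μ s * (κ.1 : ℝ) → v1 + 3 ≤ f → f ≤ b → b ≤ G.m →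
    0 ≤ (cs (iT + (f - (v1 + 3)))).row → n₂ ≤ n₁ → n₁ ≤ 8 * G.K ^ 2 * G.T (f + 1) → 8 * G.K ^ 2 * G.T b ≤ Tt →
    |hh| * wd μ s Tt ≤ c / 8 * EE μ s Tt →
    ∃ bs : ℕ → Pt, (∀ v, f ≤ v → v < b → 0 ≤ lat16 μ s κ (bs v) ∧ lat16 μ s κ (bs v) < 1 ∧
        (bs v).1 = (cs (iT + (v - (v1 + 3)))).row) ∧
      Lay89 μ s c θ K' hh P η κ (fun v => (cs (iT + (v - (v1 + 3)))).row.toNat) (fun v => 8 * G.K ^ 2 * G.T (v + 1))
        (fun v => nR (cs (iT + (v - (v1 + 3)))) (cs (iT + (v + 1 - (v1 + 3))))) (fun v => Cq * q₀ * (th ^ 2) ^ ds4 u (v + 1))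
        bs f b n₁ := by
  obtain ⟨n₂, hn₂, H⟩ := lay_pos4 h0
  obtain ⟨n₃, hn₃⟩ := eventually_atTop.1 ((wd_tendsto h0).eventually_ge_atTop 1)
  refine ⟨max n₂ n₃, hn₂.trans (le_max_left _ _), fun {th Cw} D hth hCw P => ?_⟩
  have hR : 1 ≤ Cw ^ D := one_le_pow₀ hCw
  obtain ⟨Cq, hCq, HC⟩ := gr_pow4 hR hth P
  refine ⟨Cq, hCq, fun C0 hC0 => ?_⟩
  obtain ⟨l₀, hl₀⟩ := HC (C0 + 1) (by linarith)
  refine ⟨l₀, ?_⟩
  intro σ Λ G lat latC w C2 Z ρ u cs v0 v1 v2 iL iC iT θ K K' A a g A' a' g' q₀ F F' E E3 X Cn Sw scN η Hf col hC2 h hF hF' hq ho hFS hHf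
    hK hθ hθ0 hw0 hww hwC hcol f b n₁ Tt κ hh hκ h1 h2 h3 hrow0 hn₁ hn₁T hTt hforce
  have a1 := h.uv1
  refine H h hF hF' hq hth.le ho hFS hHf hK hθ hθ0 (f := f) (b := b) (ps := fun v => iT + (v - (v1 + 3))) (κ := κ) (hh := hh)
    (Y := fun v => (C0 + 1) * (Cw ^ D) ^ ds4 u (v + 1)) h3
    (fun v k1 k2 => by show iT + (v + 1 - (v1 + 3)) = iT + (v - (v1 + 3)) + 1; omega)
    (fun v k1 k2 => ⟨h.cT_lt (by omega) (by omega), h.twsc v (by omega) (by omega)⟩) hrow0 ((le_max_left _ _).trans hn₁) hn₁T hTt hforce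
    (by linarith) (fun v k1 k2 => by positivity) (fun v k1 k2 => hl₀ _ (by unfold ds4; omega)) (fun v k1 k2 => ?_)
  have e1 : 1 ≤ wd μ s (8 * G.K ^ 2 * G.T (v + 1)) := hn₃ _ ((((le_max_right _ _).trans hn₁).trans hn₁T).trans
    (Nat.mul_le_mul_left _ (Tk_mono G.hK (by omega))))
  have e2 : |latC (cs (iT + (v - (v1 + 3)))) - lat ρ| ≤ C0 * (Cw ^ (D * (v - u)) * w v) :=
    (h.twat v (by omega) (by omega)).trans (mul_le_mul_of_nonneg_left (w_pow4 hCw hwC v _) hC0)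
  have e3 := lat_ctr4 hκ (hcol (cs (iT + (v - (v1 + 3))))) e2
  have e4 : Cw ^ (D * (v - u)) ≤ (Cw ^ D) ^ ds4 u (v + 1) := by
    rw [← pow_mul]
    exact pow_le_pow_right₀ hCw (Nat.mul_le_mul_left _ (by unfold ds4; omega))
  have e5 : 1 ≤ (Cw ^ D) ^ ds4 u (v + 1) := one_le_pow₀ hR
  have e6 : Cw ^ (D * (v - u)) * w v ≤ (Cw ^ D) ^ ds4 u (v + 1) * wd μ s (8 * G.K ^ 2 * G.T (v + 1)) :=
    mul_le_mul e4 (hww v) (hw0 v) (by linarith)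
  have e7 := mul_le_mul_of_nonneg_left e6 hC0
  have e8 : 1 ≤ (Cw ^ D) ^ ds4 u (v + 1) * wd μ s (8 * G.K ^ 2 * G.T (v + 1)) := one_le_mul_of_one_le_of_one_le e5 e1
  show |lat16 μ s κ ((cs (iT + (v - (v1 + 3)))).row, col (cs (iT + (v - (v1 + 3)))))| ≤ (C0 + 1) * (Cw ^ D) ^ ds4 u (v + 1) * _
  nlinarith

end Abs

end

end Pool.Agent.W_7d29a1_C1.LayC4
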