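import Pool.Agent.W_7d29a1_C1.OkN6
import Pool.Agent.W_7d29a1_C1.SwN67
import Pool.Agent.W_7d29a1_C1.D2R16
import Pool.Agent.W_7d29a1_C1.LayN63

/-!
MP_7d29a1_pr, [C1] attractor route, TAME: THE LAYERS OF A PIECE OF SUCCESSIVE SCALES (`Pc6`) SEEN FROM THE LINE OF THE CENTRE. (helper67)

`gr_x67`: the growth against any exponential. `hs67 G v = 8 K ^ 2 T v`. **`layPc67`**: `Lay89` of a piece (base index = its first scale),
levels `3 q₀ Cx (th x) ^ (v + 1 - u)`, if the cuts lie within `ρ' ^ (scale - u)` widths of the line. **`stPc67`**: the steep levels.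
-/

set_option autoImplicit false

namespace Pool.Agent.W_7d29a1_C1.D2C67

open MeasureTheory ProbabilityTheory Filter Topology Finset
open Pool.Agent.W_7d29a1_F Pool.Agent.W_7d29a1_h4g Pool.Agent.W_7d29a1_H Pool.Agent.W_7d29a1_HS
open Pool.Agent.W_7d29a1_C1.H75 Pool.Agent.W_7d29a1_C1.U16 Pool.Agent.W_7d29a1_C1.FarK89 Pool.Agent.W_7d29a1_C1.FarW89
open Pool.Agent.W_7d29a1_C1.DD84 Pool.Agent.W_7d29a1_C1.SysN89 Pool.Agent.W_7d29a1_C1.LrN89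
open Pool.Agent.W_7d29a1_C1.H40 Pool.Agent.W_7d29a1_C1.S71 Pool.Agent.W_7d29a1_C1.Dep6
open Pool.Agent.W_7d29a1_C1.H94 (nu Cs94)

noncomputable section

/-- The growth against any exponential. -/
theorem gr_x67 (P : ℕ) {a b x : ℝ} (ha : 0 ≤ a) (hb : 1 ≤ b) (hx : 1 < x) : ∃ Cx : ℝ, 1 ≤ Cx ∧ ∀ (j : ℕ) (X : ℝ), 0 ≤ X →
    X ≤ a * b ^ j → gr P X ≤ Cx * x ^ j := by
  obtain ⟨b', hb'⟩ : ∃ b' : ℝ, b' = b + 1 := ⟨_, rfl⟩
  have hb1 : 1 < b' := by rw [hb']; linarith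
  have hlb : 0 < Real.log b' := Real.log_pos hb1
  have hlx : 0 < Real.log x := Real.log_pos hx
  obtain ⟨C, hC, H⟩ := Pool.Agent.W_7d29a1_C1.LyN63.gr_pow63 P (ε := Real.log x / Real.log b') (A := a) 1 (by positivity) ha
  refine ⟨C, hC, fun j X hX0 hX => ?_⟩
  have h1 := H (b' ^ j) (one_le_pow₀ hb1.le)
  have h2 : X ≤ a * (b' ^ j) ^ 1 := by
    rw [pow_one]
    exact hX.trans (mul_le_mul_of_nonneg_left (pow_le_pow_left₀ (by linarith) (by rw [hb']; linarith) _) ha)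
  have h3 : (b' ^ j) ^ (Real.log x / Real.log b') = x ^ j := by
    rw [← Real.rpow_natCast, ← Real.rpow_mul (by linarith), mul_comm, Real.rpow_mul (by linarith), Real.rpow_natCast]
    congr 1
    rw [Real.rpow_def_of_pos (by linarith), mul_div_cancel₀ _ hlb.ne', Real.exp_log (by linarith)]
  rw [h3] at h1
  exact (gr_mono P hX0 h2).trans h1

/-- The height of a label. -/
def hs67 {σ Λ : Type*} (G : Geo σ Λ) (v : ℕ) : ℕ := 8 * G.K ^ 2 * G.T v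

section

variable {σ Λ : Type*} {G : Geo σ Λ}

theorem hs67_succ (v : ℕ) : hs67 G (v + 1) = G.K * hs67 G v := by
  unfold hs67
  rw [T_eq6]
  ring

theorem T_le_hs67 (v : ℕ) : 4 * G.T v ≤ hs67 G v := by
  have h1 := G.hK
  unfold hs67
  have h2 : 1 ≤ G.K ^ 2 := Nat.one_le_pow _ _ (by omega)
  calc 4 * G.T v ≤ 8 * G.K ^ 2 * G.T v := Nat.mul_le_mul_right _ (by omega)

end

variable {μ : Measure ℝ} {s c C : ℝ} {n₀ : ℕ}

/-- **THE LAYERS OF A PIECE.** -/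
theorem layPc67 [IsProbabilityMeasure μ] (P : ℕ) {ρ' : ℕ} {x : ℝ} (hρ' : 1 ≤ ρ') (hx : 1 < x) : ∃ Cx : ℝ, 1 ≤ Cx ∧
    ∀ {σ Λ : Type*} {G : Geo σ Λ} {lat : σ → ℝ} {latC : Cut Λ → ℝ} {Z : List (Cut Λ)} {ρ : σ} {u : ℕ} {cs : ℕ → Cut Λ} {i₀ f m D : ℕ}
      {A a g A' a' g' q₀ th θ K h : ℝ} {F F' : Cut Λ → Cut Λ → ℝ → Set Env} {E : Cut Λ → Cut Λ → Set Env}
      {E3 : Cut Λ → Cut Λ → Cut Λ → Set Env} {X : Cut Λ → Cut Λ → Cut Λ → Env → ℕ} {Cn : ℕ} {Sw : Finset ℤ} {η : Env} {κ : Pt} {n₁ : ℕ},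
      LvF μ A a g F → LvF μ A' a' g' F' → 0 ≤ q₀ → 1 ≤ th →
      (∀ a b q, F a b q ⊆ lvS μ s c θ (K + 2) P (fun a b => hs67 G (lb6 a b)) (colC6 latC (sl μ s)) a b q) →
      Ok6 Sw (dLI6 F F' E q₀ th D) (dNI6 X Cn F E3 q₀ th D) lb6 lbN6 Z u η →
      (∀ i, i + 1 < Z.length → ∃ P Q, Z = P ++ cs i :: cs (i + 1) :: Q) →
      Pc6 G ρ cs i₀ f m Z.length → 0 ≤ G.row ρ → 16 ≤ G.K → 32 * θ * (G.K : ℝ) ^ 2 ≤ 1 → u ≤ f → f + m < u + D →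
      (κ.2 : ℝ) - sl μ s * (κ.1 : ℝ) = lat ρ →
      (∀ k, k ≤ m → |latC (cs (i₀ + k)) - lat ρ| ≤ (ρ' : ℝ) ^ (f + k - u) * wd μ s (G.T (f + k))) →
      (∀ v, f ≤ v → v ≤ f + m → 1 ≤ wd μ s (G.T v) ∧ wd μ s (G.T v) ≤ wd μ s (hs67 G (v + 1)) ∧ n₁ ≤ G.T v) →
      (∀ v, f < v → v ≤ f + m → |h| * wd μ s (hs67 G v) ≤ c / 4 * EE μ s (hs67 G v)) →
      ∃ bs : ℕ → Pt, Lay89 μ s c θ K h P η κ (fun v => (cs (i₀ + (v - f))).row.toNat) (fun v => hs67 G (v + 1))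
        (fun v => (cs (i₀ + (v + 1 - f))).row.toNat - (cs (i₀ + (v - f))).row.toNat)
        (fun v => 3 * q₀ * Cx * (th * x) ^ (v + 1 - u)) bs f (f + m) n₁ := by
  obtain ⟨Cx, hCx, Hgr⟩ := gr_x67 P (a := 4) (b := ρ') (x := x) (by norm_num) (by exact_mod_cast hρ') hx
  refine ⟨Cx, hCx, ?_⟩
  intro σ Λ G lat latC Z ρ u cs i₀ f m D A a g A' a' g' q₀ th θ K h F F' E E3 X Cn Sw η κ n₁ hF hF' hq hth hFs ho hpr hP hρ hK hθ huf
    hfD hκ hlat hw hforce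
  have hr := hP.rff hρ
  obtain ⟨r, hrd⟩ : ∃ r : ℕ → ℕ, r = fun v => (cs (i₀ + (v - f))).row.toNat := ⟨_, rfl⟩
  obtain ⟨Tn, htd⟩ : ∃ Tn : ℕ → ℕ, Tn = fun v => 4 * G.T (v + 1) := ⟨_, rfl⟩
  rw [← hrd, ← htd] at hr
  have hN : (fun v => (cs (i₀ + (v + 1 - f))).row.toNat - (cs (i₀ + (v - f))).row.toNat) = fun v => r (v + 1) - r v := by rw [hrd]
  rw [hN]
  clear hN
  have hρ0 : (1 : ℝ) ≤ ρ' := by exact_mod_cast hρ'
  have hx0 : 0 < x := by linarith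
  have rows : ∀ v, f ≤ v → v < f + m → r v ≤ r (v + 1) ∧ r (v + 1) ≤ r v + 4 * G.T (v + 1) ∧ 4 * G.T (v + 1) ≤ 16 * (r (v + 1) - r v) := by
    intro v h1 h2
    obtain ⟨k, rfl⟩ : ∃ k, v = f + k := ⟨v - f, by omega⟩
    have h3 := hP.rows6 hr hK (k := k) (by omega)
    have h4 : Tn (f + k) = 4 * G.T (f + k + 1) := hr.t_eq k (by omega)
    rw [h4] at h3
    exact h3
  have key : ∀ v, ∃ b' : Pt, f ≤ v → v < f + m → b'.1 = (r v : ℤ) ∧ |lat16 μ s κ b'| ≤ wd μ s (hs67 G (v + 1)) ∧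
      η ∈ Far16 μ s c θ K (hs67 G (v + 1)) (r (v + 1) - r v) P b' (3 * q₀ * Cx * (th * x) ^ (v + 1 - u)) := by
    intro v
    by_cases hv : f ≤ v ∧ v < f + m
    swap
    · exact ⟨0, fun h1 h2 => absurd ⟨h1, h2⟩ hv⟩
    obtain ⟨h1, h2⟩ := hv
    obtain ⟨k, rfl⟩ : ∃ k, v = f + k := ⟨v - f, by omega⟩
    have hlt := hP.lt
    obtain ⟨P', Q', eZ⟩ := hpr (i₀ + k) (by omega)
    rw [show i₀ + k + 1 = i₀ + (k + 1) by ring] at eZ
    have elb := hP.lb_eq6 (k := k) (by omega)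
    obtain ⟨l, hl⟩ : ∃ l, l = f + k + 1 - u := ⟨_, rfl⟩
    have g1 := (ok_lay6 hF hF' hq hth ho eZ (l := l) (by rw [elb]; omega) (by rw [elb]; omega) (by omega)).1
    have g2 := hFs _ _ _ g1
    unfold lvS at g2
    have g3 := (rows (f + k) h1 h2)
    have enR := Pc6.nR6 hr (k := k) (by omega)
    have e1 : hg6 (fun a b => hs67 G (lb6 a b)) (cs (i₀ + k)) (cs (i₀ + (k + 1))) = hs67 G (f + k + 1) := by
      unfold hg6
      show max (hs67 G (lb6 (cs (i₀ + k)) (cs (i₀ + (k + 1))))) (nR (cs (i₀ + k)) (cs (i₀ + (k + 1)))) = _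
      rw [elb, enR, ← Nat.add_assoc f k 1]
      refine max_eq_left ?_
      have h5 := T_le_hs67 (G := G) (f + k + 1)
      have h6 := g3.2.1
      omega
    rw [e1, enR] at g2
    obtain ⟨w1, w2, -⟩ := hw (f + k) (by omega) (by omega)
    have w3 : 1 ≤ wd μ s (hs67 G (f + k + 1)) := w1.trans w2
    have hpow : (1 : ℝ) ≤ (ρ' : ℝ) ^ (f + k - u) := one_le_pow₀ hρ0
    have hpow2 : (ρ' : ℝ) ^ (f + k - u) ≤ (ρ' : ℝ) ^ l := pow_le_pow_right₀ hρ0 (by omega)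
    have g4 : |lat16 μ s κ ((cs (i₀ + k)).row, colC6 latC (sl μ s) (cs (i₀ + k)))| ≤
        (2 * (ρ' : ℝ) ^ l) * wd μ s (hs67 G (f + k + 1)) := by
      refine (colC6_line (μ := μ) (s := s) hκ (cs (i₀ + k)) (hlat k (by omega))).trans ?_
      have a1 : (ρ' : ℝ) ^ (f + k - u) * wd μ s (G.T (f + k)) ≤ (ρ' : ℝ) ^ l * wd μ s (hs67 G (f + k + 1)) :=
        mul_le_mul hpow2 w2 (by linarith) (by positivity)
      have a2 : 1 ≤ (ρ' : ℝ) ^ l * wd μ s (hs67 G (f + k + 1)) := one_le_mul_of_one_le_of_one_le (hpow.trans hpow2) w3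
      linarith
    have hq0 : 0 ≤ q₀ * th ^ l := by positivity
    obtain ⟨b', c1, c2, c3, c4⟩ := Pool.Agent.W_7d29a1_C1.RB6.line16 (K' := K) (X := 2 * (ρ' : ℝ) ^ l) hq0 w3 (by linarith) (by positivity) g4 g2
    refine ⟨b', fun _ _ => ⟨?_, ?_, ?_⟩⟩
    · rw [c1]
      exact (hr.r_eq k (by omega)).symm
    · rw [abs_of_nonneg c2]
      linarith
    · refine Far16_mono ?_ _ _ _ _ c4
      have b1 : gr P (2 + 2 * (ρ' : ℝ) ^ l) ≤ Cx * x ^ l := by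
        refine Hgr l _ (by positivity) ?_
        have := hpow.trans hpow2
        linarith
      have b2 : 0 ≤ q₀ * th ^ l * (Cx * x ^ l) := by positivity
      calc q₀ * th ^ l * gr P (2 + 2 * (ρ' : ℝ) ^ l) ≤ q₀ * th ^ l * (Cx * x ^ l) := mul_le_mul_of_nonneg_left b1 hq0
        _ ≤ 3 * (q₀ * th ^ l * (Cx * x ^ l)) := by linarith
        _ = 3 * q₀ * Cx * (th * x) ^ (f + k + 1 - u) := by rw [← hl, mul_pow]; ring
  choose bs hbs using key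
  have hCq : ∀ v, 0 ≤ 3 * q₀ * Cx * (th * x) ^ (v + 1 - u) := fun v => by positivity
  refine ⟨bs, fun v _ _ => hCq v, fun v h1 h2 => ?_, fun v h1 h2 => ?_, fun v h1 h2 => ?_, fun v h1 h2 => ?_, fun v h1 h2 => ?_,
    fun v h1 h2 => (hbs v h1 h2).2.1, fun v h1 h2 => (hbs v h1 h2).2.2, fun v h1 h2 => ?_, fun v h1 h2 => ?_⟩
  · have h3 := (hw v h1 h2.le).2.2
    have h4 := T_le_hs67 (G := G) (v + 1)
    have h5 := G.T_mono (show v ≤ v + 1 by omega)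
    omega
  · have h3 := rows v h1 h2
    have h4 := T_le_hs67 (G := G) (v + 1)
    show r (v + 1) - r v ≤ hs67 G (v + 1)
    omega
  · have h3 := (rows v h1 h2).1
    rw [hrd] at h3
    exact h3
  · rw [(hbs v h1 h2).1, hrd]
  · rw [(hbs v h1 h2).1]
    have h3 := (rows v h1 h2).1
    have h4 : ((cs (i₀ + (v + 1 - f))).row.toNat : ℤ) = (r (v + 1) : ℤ) := by rw [hrd]
    rw [h4]
    push_cast [Nat.cast_sub h3]
    linarith
  · exact hforce (v + 1) (by omega) (by omega)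
  · have h3 := (rows v h1 h2).2.2
    have h4 : (((cs (i₀ + (v + 1 - f))).row.toNat - (cs (i₀ + (v - f))).row.toNat : ℕ) : ℝ) = ((r (v + 1) - r v : ℕ) : ℝ) := by rw [hrd]
    rw [h4]
    have h5 : (4 : ℝ) * G.T (v + 1) ≤ 16 * ((r (v + 1) - r v : ℕ) : ℝ) := by exact_mod_cast h3
    have h6 : (hs67 G (v + 1) : ℝ) = 8 * (G.K : ℝ) ^ 2 * G.T (v + 1) := by unfold hs67; push_cast; ring
    rw [h6]
    have h7 : (0 : ℝ) ≤ G.T (v + 1) := Nat.cast_nonneg _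
    calc θ * (8 * (G.K : ℝ) ^ 2 * G.T (v + 1)) = (32 * θ * (G.K : ℝ) ^ 2) * (G.T (v + 1) / 4) := by ring
      _ ≤ 1 * ((G.T (v + 1) : ℝ) / 4) := mul_le_mul_of_nonneg_right hθ (by linarith)
      _ ≤ ((r (v + 1) - r v : ℕ) : ℝ) := by linarith

end

end Pool.Agent.W_7d29a1_C1.D2C67
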