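import Mathlib

/-!
# MP_7d29a1_pr, C1: the leak of a tube (LK), abstract part

`Z` = mass of one path, `N2` = mass of two paths without a common site, in the same environment.
If the concave BK inequality `E min 1 (l N2) ≤ E min 1 (l Z Z')` holds (`Z'` an independent copy)
and `log Z` takes values `≥ m + a` and `≤ m - a` with probabilities `q`, `q'`, then
`N2 ≤ exp (-g) Z ^ 2` has a probability bounded below (`leak30`):
`2 a q q' ≤ g + 2 + L P(N2 ≤ exp (-g) Z ^ 2) + 3 L P(log Z > m + L / 2)`.
Reason: otherwise `2 log Z` would be dominated by `log Z + log Z'`.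
-/

namespace Pool.Agent.W_7d29a1_C1.L30

open MeasureTheory Finset

noncomputable section

/-- The concave function, at `z`. -/
def psi (L : ℕ) (z : ℝ) : ℝ := ∑ i ∈ range L, min 1 (Real.exp (-((i : ℝ) + 1)) * z)

/-- The truncated positive part. -/
def tr (L : ℕ) (t : ℝ) : ℝ := min (L : ℝ) (max 0 t)

lemma tr_nonneg (L : ℕ) (t : ℝ) : 0 ≤ tr L t := le_min (Nat.cast_nonneg L) (le_max_left _ _)

lemma tr_le (L : ℕ) (t : ℝ) : tr L t ≤ L := min_le_left _ _

lemma tr_mono (L : ℕ) {t u : ℝ} (h : t ≤ u) : tr L t ≤ tr L u :=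
  min_le_min le_rfl (max_le_max le_rfl h)

lemma tr_sub (L : ℕ) (t : ℝ) {g : ℝ} (hg : 0 ≤ g) : tr L t - g ≤ tr L (t - g) := by
  unfold tr
  rcases le_total (L : ℝ) (max 0 t) with h1 | h1 <;> rcases le_total 0 t with h2 | h2 <;>
    rcases le_total (L : ℝ) (max 0 (t - g)) with h3 | h3 <;>
    rcases le_total 0 (t - g) with h4 | h4 <;>
    simp only [max_eq_left, max_eq_right, h2, h4] at h1 h3 ⊢ <;>
    simp only [min_eq_left, min_eq_right, h1, h3] <;> linarith

lemma psi_nonneg (L : ℕ) {z : ℝ} (hz : 0 ≤ z) : 0 ≤ psi L z :=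
  Finset.sum_nonneg fun _ _ => le_min zero_le_one (mul_nonneg (Real.exp_pos _).le hz)

lemma psi_mono (L : ℕ) {z z' : ℝ} (h : z ≤ z') : psi L z ≤ psi L z' :=
  Finset.sum_le_sum fun _ _ =>
    min_le_min le_rfl (mul_le_mul_of_nonneg_left h (Real.exp_pos _).le)

lemma psi_le (L : ℕ) (z : ℝ) : psi L z ≤ L := by
  unfold psi
  calc ∑ i ∈ range L, min 1 (Real.exp (-((i : ℝ) + 1)) * z) ≤ ∑ i ∈ range L, (1 : ℝ) :=
        Finset.sum_le_sum fun _ _ => min_le_left _ _
    _ = L := by simp

/-- Lower bound. -/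
lemma le_psi (L : ℕ) (t : ℝ) : tr L t - 1 ≤ psi L (Real.exp t) := by
  have h0 : 0 ≤ psi L (Real.exp t) := psi_nonneg L (Real.exp_pos t).le
  have hterm : ∀ i ∈ range L, min (((i + 1 : ℕ) : ℝ) + 1) t - min ((i : ℝ) + 1) t ≤
      min 1 (Real.exp (-((i : ℝ) + 1)) * Real.exp t) := by
    intro i _
    push_cast
    rcases le_or_gt ((i : ℝ) + 1) t with h | h
    · have h1 : 1 ≤ Real.exp (-((i : ℝ) + 1)) * Real.exp t := by
        rw [← Real.exp_add]
        exact Real.one_le_exp (by linarith)
      rw [min_eq_left h1, min_eq_left h]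
      have : min ((i : ℝ) + 1 + 1) t ≤ (i : ℝ) + 1 + 1 := min_le_left _ _
      linarith
    · rw [min_eq_right h.le, min_eq_right (by linarith), sub_self]
      positivity
  have hsum : min ((L : ℝ) + 1) t - min 1 t ≤ psi L (Real.exp t) := by
    have h1 := Finset.sum_le_sum hterm
    have h2 : ∑ i ∈ range L, (min (((i + 1 : ℕ) : ℝ) + 1) t - min ((i : ℝ) + 1) t)
        = min ((L : ℝ) + 1) t - min 1 t := by
      have := Finset.sum_range_sub (fun i : ℕ => min ((i : ℝ) + 1) t) L
      simpa using this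
    rw [h2] at h1
    exact h1
  have h3 : min 1 t ≤ 1 := min_le_left _ _
  have h4 : min (L : ℝ) t ≤ min ((L : ℝ) + 1) t := min_le_min (by linarith) le_rfl
  unfold tr
  rcases le_total 0 t with h5 | h5
  · rw [max_eq_right h5]
    linarith
  · rw [max_eq_left h5]
    have : min (L : ℝ) 0 ≤ 0 := min_le_right _ _
    linarith

private lemma exp_half {u : ℝ} (h1 : -1 ≤ u) (h2 : u ≤ 0) : Real.exp u ≤ 1 + u / 2 := by
  have h3 : 1 - u ≤ Real.exp (-u) := by linarith [Real.add_one_le_exp (-u)]
  have h4 : Real.exp u * Real.exp (-u) = 1 := by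
    rw [← Real.exp_add, add_neg_cancel, Real.exp_zero]
  have h5 : 0 < Real.exp u := Real.exp_pos u
  have h6 : Real.exp u * (1 - u) ≤ 1 := by
    calc Real.exp u * (1 - u) ≤ Real.exp u * Real.exp (-u) :=
          mul_le_mul_of_nonneg_left h3 h5.le
      _ = 1 := h4
  have h7 : 1 ≤ (1 + u / 2) * (1 - u) := by nlinarith
  by_contra hneg
  have h8 := not_le.1 hneg
  have h9 : (1 + u / 2) * (1 - u) < Real.exp u * (1 - u) :=
    mul_lt_mul_of_pos_right h8 (by linarith)
  linarith

/-- Upper bound. -/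
lemma psi_exp_le (L : ℕ) (t : ℝ) : psi L (Real.exp t) ≤ tr L t + 1 := by
  set H : ℕ → ℝ := fun i => if (i : ℝ) ≤ t then (i : ℝ) else t + 1 - Real.exp (t - i) with hH
  have hterm : ∀ i ∈ range L, min 1 (Real.exp (-((i : ℝ) + 1)) * Real.exp t)
      ≤ H (i + 1) - H i := by
    intro i _
    have he : Real.exp (-((i : ℝ) + 1)) * Real.exp t = Real.exp (t - ((i : ℝ) + 1)) := by
      rw [← Real.exp_add]; congr 1; ring
    rw [he]
    simp only [hH]
    push_cast
    by_cases h1 : (i : ℝ) + 1 ≤ t
    · rw [if_pos h1, if_pos (by linarith)]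
      have : min 1 (Real.exp (t - ((i : ℝ) + 1))) ≤ 1 := min_le_left _ _
      linarith
    · rw [if_neg h1]
      have h1' := not_le.1 h1
      by_cases h2 : (i : ℝ) ≤ t
      · rw [if_pos h2]
        have h3 := exp_half (u := t - ((i : ℝ) + 1)) (by linarith) (by linarith)
        have h4 : min 1 (Real.exp (t - ((i : ℝ) + 1))) ≤ Real.exp (t - ((i : ℝ) + 1)) :=
          min_le_right _ _
        linarith
      · rw [if_neg h2]
        have h4 : min 1 (Real.exp (t - ((i : ℝ) + 1))) ≤ Real.exp (t - ((i : ℝ) + 1)) :=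
          min_le_right _ _
        have h5 : Real.exp (t - i) = Real.exp 1 * Real.exp (t - ((i : ℝ) + 1)) := by
          rw [← Real.exp_add]; congr 1; ring
        have h6 : (2 : ℝ) ≤ Real.exp 1 := by linarith [Real.add_one_le_exp (1 : ℝ)]
        have h7 : 0 < Real.exp (t - ((i : ℝ) + 1)) := Real.exp_pos _
        have h8 : 2 * Real.exp (t - ((i : ℝ) + 1)) ≤ Real.exp (t - i) := by
          rw [h5]
          exact mul_le_mul_of_nonneg_right h6 h7.le
        linarith
  have hsum : psi L (Real.exp t) ≤ H L - H 0 := by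
    have h1 := Finset.sum_le_sum hterm
    rw [Finset.sum_range_sub] at h1
    exact h1
  refine hsum.trans ?_
  have hpos : ∀ u : ℝ, 0 < Real.exp u := Real.exp_pos
  unfold tr
  simp only [hH]
  push_cast
  by_cases h0 : (0 : ℝ) ≤ t
  · rw [if_pos h0, max_eq_right h0]
    by_cases h1 : (L : ℝ) ≤ t
    · rw [if_pos h1, min_eq_left h1]; linarith
    · rw [if_neg h1, min_eq_right (not_le.1 h1).le]
      have := hpos (t - L)
      linarith
  · have h0' := not_le.1 h0
    have hL : ¬ (L : ℝ) ≤ t := by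
      have : (0 : ℝ) ≤ L := Nat.cast_nonneg L
      intro h; linarith
    rw [if_neg h0, if_neg hL, max_eq_left h0'.le, min_eq_right (Nat.cast_nonneg L)]
    have h1 := hpos (t - L)
    have h2 : Real.exp (t - 0) ≤ 1 := by
      rw [sub_zero]
      exact Real.exp_le_one_iff.2 h0'.le
    linarith

/-- The defect of the positive part. -/
lemma defect (L : ℕ) {a x y : ℝ} (ha : 0 ≤ a) (haL : a ≤ L) :
    2 * a * ((if a ≤ x then 1 else 0) * (if y ≤ -a then 1 else 0) +
        (if x ≤ -a then 1 else 0) * (if a ≤ y then 1 else 0))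
      - 3 * L * ((if (L : ℝ) / 2 < x then 1 else 0) + (if (L : ℝ) / 2 < y then 1 else 0))
      ≤ tr L (2 * x) + tr L (2 * y) - 2 * tr L (x + y) := by
  have hL0 : (0 : ℝ) ≤ L := Nat.cast_nonneg L
  have t1 := tr_le L (x + y)
  have t2 := tr_nonneg L (2 * x)
  have t3 := tr_nonneg L (2 * y)
  have key : ∀ {x y : ℝ}, (L : ℝ) / 2 < x → tr L (2 * x) = L := by
    intro x _ h
    unfold tr
    rw [max_eq_right (by linarith), min_eq_left (by linarith)]
  by_cases hx : (L : ℝ) / 2 < x
  · rw [if_pos hx]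
    have k1 := key (y := y) hx
    have b1 : 2 * a * ((if a ≤ x then (1 : ℝ) else 0) * (if y ≤ -a then 1 else 0) +
        (if x ≤ -a then 1 else 0) * (if a ≤ y then 1 else 0)) ≤ 2 * a := by
      have hxa : ¬ x ≤ -a ∨ a = 0 := by
        by_cases h : x ≤ -a
        · right; linarith
        · left; exact h
      rcases hxa with h | h
      · rw [if_neg h, zero_mul, add_zero]
        have : (if a ≤ x then (1 : ℝ) else 0) * (if y ≤ -a then 1 else 0) ≤ 1 := by
          split_ifs <;> norm_num
        nlinarith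
      · rw [h]; simp
    have b2 : 0 ≤ 3 * (L : ℝ) * (if (L : ℝ) / 2 < y then 1 else 0) := by
      split_ifs <;> positivity
    linarith
  · rw [if_neg hx]
    by_cases hy : (L : ℝ) / 2 < y
    · rw [if_pos hy]
      have k1 := key (y := x) hy
      have b1 : 2 * a * ((if a ≤ x then (1 : ℝ) else 0) * (if y ≤ -a then 1 else 0) +
          (if x ≤ -a then 1 else 0) * (if a ≤ y then 1 else 0)) ≤ 2 * a := by
        have hxa : ¬ y ≤ -a ∨ a = 0 := by
          by_cases h : y ≤ -a
          · right; linarith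
          · left; exact h
        rcases hxa with h | h
        · rw [if_neg h, mul_zero, zero_add]
          have : (if x ≤ -a then (1 : ℝ) else 0) * (if a ≤ y then 1 else 0) ≤ 1 := by
            split_ifs <;> norm_num
          nlinarith
        · rw [h]; simp
      linarith
    · rw [if_neg hy, add_zero, mul_zero, sub_zero]
      have hx' := not_lt.1 hx
      have hy' := not_lt.1 hy
      have e1 : tr L (2 * x) = max 0 (2 * x) := by
        unfold tr
        exact min_eq_right (max_le hL0 (by linarith))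
      have e2 : tr L (2 * y) = max 0 (2 * y) := by
        unfold tr
        exact min_eq_right (max_le hL0 (by linarith))
      have e3 : tr L (x + y) = max 0 (x + y) := by
        unfold tr
        exact min_eq_right (max_le hL0 (by linarith))
      rw [e1, e2, e3]
      have m1 : max 0 (2 * x) = 2 * max 0 x := by
        rw [mul_max_of_nonneg _ _ (by norm_num : (0 : ℝ) ≤ 2), mul_zero]
      have m2 : max 0 (2 * y) = 2 * max 0 y := by
        rw [mul_max_of_nonneg _ _ (by norm_num : (0 : ℝ) ≤ 2), mul_zero]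
      rw [m1, m2]
      rcases le_total 0 x with hx0 | hx0 <;> rcases le_total 0 y with hy0 | hy0 <;>
        rcases le_total 0 (x + y) with hs | hs <;>
        simp only [max_eq_left, max_eq_right, hx0, hy0, hs] <;>
        split_ifs <;> simp only [mul_zero, mul_one, add_zero, zero_add, zero_mul] <;> linarith

variable {Ω : Type*} [MeasurableSpace Ω]

private lemma int_bdd {P : Measure Ω} [IsFiniteMeasure P] {f : Ω → ℝ} (hf : Measurable f)
    {C : ℝ} (hC : ∀ ω, |f ω| ≤ C) : Integrable f P :=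
  Integrable.of_bound hf.aestronglyMeasurable C
    (Filter.Eventually.of_forall fun ω => by rw [Real.norm_eq_abs]; exact hC ω)

lemma measurable_psi (L : ℕ) {f : Ω → ℝ} (hf : Measurable f) : Measurable fun ω => psi L (f ω) := by
  unfold psi
  exact Finset.measurable_sum _ fun _ _ => measurable_const.min (measurable_const.mul hf)

lemma measurable_tr (L : ℕ) {f : Ω → ℝ} (hf : Measurable f) : Measurable fun ω => tr L (f ω) := by
  unfold tr
  exact measurable_const.min (measurable_const.max hf)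

private lemma int_ite {P : Measure Ω} {p : Ω → Prop} [DecidablePred p]
    (hp : MeasurableSet {ω | p ω}) : ∫ ω, (if p ω then (1 : ℝ) else 0) ∂P = P.real {ω | p ω} := by
  have : (fun ω => if p ω then (1 : ℝ) else 0) = {ω | p ω}.indicator fun _ => (1 : ℝ) := by
    funext ω
    by_cases h : p ω
    · rw [if_pos h, Set.indicator_of_mem (by exact h)]
    · rw [if_neg h, Set.indicator_of_notMem (by exact h)]
  rw [this, integral_indicator hp]
  simp [Measure.real]

/-- **(LK), abstract.** -/
theorem leak30 (P : Measure Ω) [IsProbabilityMeasure P] {Z N2 : Ω → ℝ} (hZ : Measurable Z)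
    (hN : Measurable N2) (hZ0 : ∀ ω, 0 < Z ω) (hN0 : ∀ ω, 0 ≤ N2 ω)
    (bk : ∀ l : ℝ, 0 ≤ l → ∫ ω, min 1 (l * N2 ω) ∂P ≤
      ∫ z, min 1 (l * (Z z.1 * Z z.2)) ∂(P.prod P))
    {m a g q q' : ℝ} {L : ℕ} (ha : 0 ≤ a) (haL : a ≤ L) (hg : 0 ≤ g) (hq0 : 0 ≤ q) (hq0' : 0 ≤ q')
    (hq : q ≤ P.real {ω | m + a ≤ Real.log (Z ω)})
    (hq' : q' ≤ P.real {ω | Real.log (Z ω) ≤ m - a}) :
    2 * a * q * q' ≤ g + 2 + L * P.real {ω | N2 ω ≤ Real.exp (-g) * Z ω ^ 2}
      + 3 * L * P.real {ω | m + (L : ℝ) / 2 < Real.log (Z ω)} := by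
  classical
  set X : Ω → ℝ := fun ω => Real.log (Z ω) - m with hX
  have hXm : Measurable X := (Real.measurable_log.comp hZ).sub measurable_const
  have hL0 : (0 : ℝ) ≤ L := Nat.cast_nonneg L
  have hX1 : Measurable fun z : Ω × Ω => X z.1 := hXm.comp measurable_fst
  have hX2 : Measurable fun z : Ω × Ω => X z.2 := hXm.comp measurable_snd
  have hGm : MeasurableSet {ω | N2 ω ≤ Real.exp (-g) * Z ω ^ 2} :=
    measurableSet_le hN (measurable_const.mul (hZ.pow_const 2))
  have hpsiabs : ∀ z : ℝ, 0 ≤ z → |psi L z| ≤ L := fun z hz => by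
    rw [abs_of_nonneg (psi_nonneg L hz)]; exact psi_le L z
  have htrabs : ∀ t : ℝ, |tr L t| ≤ L := fun t => by
    rw [abs_of_nonneg (tr_nonneg L t)]; exact tr_le L t
  -- the summed inequality
  have hsum : ∫ ω, psi L (Real.exp (-(2 * m)) * N2 ω) ∂P ≤
      ∫ z, psi L (Real.exp (-(2 * m)) * (Z z.1 * Z z.2)) ∂(P.prod P) := by
    have e1 : ∀ i : ℕ, ∫ ω, min 1 (Real.exp (-((i : ℝ) + 1)) * (Real.exp (-(2 * m)) * N2 ω)) ∂P ≤
        ∫ z, min 1 (Real.exp (-((i : ℝ) + 1)) * (Real.exp (-(2 * m)) * (Z z.1 * Z z.2)))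
          ∂(P.prod P) := by
      intro i
      have := bk (Real.exp (-((i : ℝ) + 1)) * Real.exp (-(2 * m))) (by positivity)
      simpa only [mul_assoc] using this
    have i1 : ∀ i ∈ range L, Integrable
        (fun ω => min 1 (Real.exp (-((i : ℝ) + 1)) * (Real.exp (-(2 * m)) * N2 ω))) P := by
      intro i _
      refine int_bdd (C := 1) (measurable_const.min (measurable_const.mul
        (measurable_const.mul hN))) fun ω => ?_
      have h1 : 0 ≤ Real.exp (-((i : ℝ) + 1)) * (Real.exp (-(2 * m)) * N2 ω) := by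
        have := hN0 ω
        positivity
      rw [abs_of_nonneg (le_min zero_le_one h1)]
      exact min_le_left _ _
    have i2 : ∀ i ∈ range L, Integrable (fun z : Ω × Ω =>
        min 1 (Real.exp (-((i : ℝ) + 1)) * (Real.exp (-(2 * m)) * (Z z.1 * Z z.2))))
          (P.prod P) := by
      intro i _
      refine int_bdd (C := 1) (measurable_const.min (measurable_const.mul
        (measurable_const.mul ((hZ.comp measurable_fst).mul (hZ.comp measurable_snd)))))
        fun z => ?_
      have h1 : 0 ≤ Real.exp (-((i : ℝ) + 1)) * (Real.exp (-(2 * m)) * (Z z.1 * Z z.2)) := by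
        have := (hZ0 z.1).le
        have := (hZ0 z.2).le
        positivity
      rw [abs_of_nonneg (le_min zero_le_one h1)]
      exact min_le_left _ _
    unfold psi
    rw [integral_finsetSum _ i1, integral_finsetSum _ i2]
    exact Finset.sum_le_sum fun i _ => e1 i
  -- left side
  have hleft : ∫ ω, (tr L (2 * X ω) - g - 1 -
      L * (if N2 ω ≤ Real.exp (-g) * Z ω ^ 2 then 1 else 0)) ∂P ≤
      ∫ ω, psi L (Real.exp (-(2 * m)) * N2 ω) ∂P := by
    refine integral_mono ?_ ?_ fun ω => ?_
    · refine (((int_bdd (C := (L : ℝ)) (measurable_tr L (measurable_const.mul hXm))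
        fun ω => htrabs _).sub (integrable_const g)).sub (integrable_const 1)).sub ?_
      refine Integrable.const_mul (int_bdd (C := 1)
        (Measurable.ite hGm measurable_const measurable_const) fun ω => ?_) _
      split_ifs <;> simp
    · exact int_bdd (C := (L : ℝ)) (measurable_psi L (measurable_const.mul hN))
        fun ω => hpsiabs _ (mul_nonneg (Real.exp_pos _).le (hN0 ω))
    · simp only
      by_cases h : N2 ω ≤ Real.exp (-g) * Z ω ^ 2
      · rw [if_pos h]
        have h1 := psi_nonneg L (mul_nonneg (Real.exp_pos (-(2 * m))).le (hN0 ω))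
        have h2 := tr_le L (2 * X ω)
        linarith
      · rw [if_neg h, mul_zero, sub_zero]
        have h1 : Real.exp (2 * X ω - g) ≤ Real.exp (-(2 * m)) * N2 ω := by
          have h2 : Real.exp (2 * X ω - g) = Real.exp (-(2 * m)) * (Real.exp (-g) * Z ω ^ 2) := by
            have h3 : Z ω = Real.exp (Real.log (Z ω)) := (Real.exp_log (hZ0 ω)).symm
            rw [h3, ← Real.exp_nat_mul, ← Real.exp_add, ← Real.exp_add]
            congr 1
            simp only [hX, Real.log_exp]
            push_cast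
            ring
          rw [h2]
          exact mul_le_mul_of_nonneg_left (not_le.1 h).le (Real.exp_pos _).le
        have h4 := psi_mono L h1
        have h5 := le_psi L (2 * X ω - g)
        have h6 := tr_sub L (2 * X ω) hg
        linarith
  -- right side
  have hright : ∫ z, psi L (Real.exp (-(2 * m)) * (Z z.1 * Z z.2)) ∂(P.prod P) ≤
      ∫ z, (tr L (X z.1 + X z.2) + 1) ∂(P.prod P) := by
    refine integral_mono ?_ ?_ fun z => ?_
    · exact int_bdd (C := (L : ℝ)) (measurable_psi L (measurable_const.mul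
        ((hZ.comp measurable_fst).mul (hZ.comp measurable_snd)))) fun z =>
          hpsiabs _ (mul_nonneg (Real.exp_pos _).le (mul_nonneg (hZ0 z.1).le (hZ0 z.2).le))
    · exact (int_bdd (C := (L : ℝ)) (measurable_tr L (hX1.add hX2)) fun z => htrabs _).add
        (integrable_const 1)
    · have h2 : Real.exp (-(2 * m)) * (Z z.1 * Z z.2) = Real.exp (X z.1 + X z.2) := by
        have h3 : Z z.1 = Real.exp (Real.log (Z z.1)) := (Real.exp_log (hZ0 z.1)).symm
        have h4 : Z z.2 = Real.exp (Real.log (Z z.2)) := (Real.exp_log (hZ0 z.2)).symm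
        conv_lhs => rw [h3, h4]
        rw [← Real.exp_add, ← Real.exp_add]
        congr 1
        simp only [hX]
        ring
      simp only [h2]
      exact psi_exp_le L _
  -- evaluate the left side
  have il : ∫ ω, (tr L (2 * X ω) - g - 1 -
      L * (if N2 ω ≤ Real.exp (-g) * Z ω ^ 2 then 1 else 0)) ∂P =
      ∫ ω, tr L (2 * X ω) ∂P - g - 1 - L * P.real {ω | N2 ω ≤ Real.exp (-g) * Z ω ^ 2} := by
    have j1 : Integrable (fun ω => tr L (2 * X ω)) P :=
      int_bdd (C := (L : ℝ)) (measurable_tr L (measurable_const.mul hXm)) fun ω => htrabs _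
    have j2 : Integrable
        (fun ω => (L : ℝ) * (if N2 ω ≤ Real.exp (-g) * Z ω ^ 2 then (1 : ℝ) else 0)) P := by
      refine Integrable.const_mul (int_bdd (C := 1)
        (Measurable.ite hGm measurable_const measurable_const) fun ω => ?_) _
      split_ifs <;> simp
    have j3 : Integrable (fun ω => tr L (2 * X ω) - g) P := j1.sub (integrable_const g)
    have j4 : Integrable (fun ω => tr L (2 * X ω) - g - 1) P := j3.sub (integrable_const 1)
    rw [integral_sub j4 j2, integral_sub j3 (integrable_const 1),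
      integral_sub j1 (integrable_const g), integral_const_mul, int_ite hGm]
    simp
  have ir : ∫ z, (tr L (X z.1 + X z.2) + 1) ∂(P.prod P) =
      ∫ z, tr L (X z.1 + X z.2) ∂(P.prod P) + 1 := by
    have j5 : Integrable (fun z : Ω × Ω => tr L (X z.1 + X z.2)) (P.prod P) :=
      int_bdd (C := (L : ℝ)) (measurable_tr L (hX1.add hX2)) fun z => htrabs _
    rw [integral_add j5 (integrable_const 1)]
    simp
  have hmain : ∫ ω, tr L (2 * X ω) ∂P - g - 1 -
      L * P.real {ω | N2 ω ≤ Real.exp (-g) * Z ω ^ 2} ≤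
      ∫ z, tr L (X z.1 + X z.2) ∂(P.prod P) + 1 := by
    rw [← il, ← ir]
    exact hleft.trans (hsum.trans hright)
  -- the defect
  have f1 : ∫ z, tr L (2 * X z.1) ∂(P.prod P) = ∫ ω, tr L (2 * X ω) ∂P := by
    have := integral_fun_fst (μ := P) (ν := P) (fun ω => tr L (2 * X ω))
    simpa using this
  have f2 : ∫ z, tr L (2 * X z.2) ∂(P.prod P) = ∫ ω, tr L (2 * X ω) ∂P := by
    have := integral_fun_snd (μ := P) (ν := P) (fun ω => tr L (2 * X ω))
    simpa using this
  have mA : MeasurableSet {ω | a ≤ X ω} := measurableSet_le measurable_const hXm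
  have mB : MeasurableSet {ω | X ω ≤ -a} := measurableSet_le hXm measurable_const
  have mC : MeasurableSet {ω | (L : ℝ) / 2 < X ω} := measurableSet_lt measurable_const hXm
  have rA : Measurable fun ω => (if a ≤ X ω then (1 : ℝ) else 0) :=
    Measurable.ite mA measurable_const measurable_const
  have rB : Measurable fun ω => (if X ω ≤ -a then (1 : ℝ) else 0) :=
    Measurable.ite mB measurable_const measurable_const
  have rC : Measurable fun ω => (if (L : ℝ) / 2 < X ω then (1 : ℝ) else 0) :=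
    Measurable.ite mC measurable_const measurable_const
  have ite1 : ∀ (p : Prop) [Decidable p], |(if p then (1 : ℝ) else 0)| ≤ 1 := by
    intro p _; split_ifs <;> simp
  have iAB : Integrable (fun z : Ω × Ω => (if a ≤ X z.1 then (1 : ℝ) else 0) *
      (if X z.2 ≤ -a then 1 else 0)) (P.prod P) := by
    refine int_bdd (C := 1) ((rA.comp measurable_fst).mul (rB.comp measurable_snd)) fun z => ?_
    rw [abs_mul]
    exact mul_le_one₀ (ite1 _) (abs_nonneg _) (ite1 _)
  have iBA : Integrable (fun z : Ω × Ω => (if X z.1 ≤ -a then (1 : ℝ) else 0) *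
      (if a ≤ X z.2 then 1 else 0)) (P.prod P) := by
    refine int_bdd (C := 1) ((rB.comp measurable_fst).mul (rA.comp measurable_snd)) fun z => ?_
    rw [abs_mul]
    exact mul_le_one₀ (ite1 _) (abs_nonneg _) (ite1 _)
  have iC1 : Integrable (fun z : Ω × Ω => (if (L : ℝ) / 2 < X z.1 then (1 : ℝ) else 0))
      (P.prod P) := int_bdd (C := 1) (rC.comp measurable_fst) fun z => ite1 _
  have iC2 : Integrable (fun z : Ω × Ω => (if (L : ℝ) / 2 < X z.2 then (1 : ℝ) else 0))
      (P.prod P) := int_bdd (C := 1) (rC.comp measurable_snd) fun z => ite1 _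
  have vAB : ∫ z : Ω × Ω, (if a ≤ X z.1 then (1 : ℝ) else 0) * (if X z.2 ≤ -a then 1 else 0)
      ∂(P.prod P) = P.real {ω | a ≤ X ω} * P.real {ω | X ω ≤ -a} := by
    rw [integral_prod_mul (μ := P) (ν := P) (fun ω => if a ≤ X ω then (1 : ℝ) else 0)
      (fun ω => if X ω ≤ -a then (1 : ℝ) else 0), int_ite mA, int_ite mB]
  have vBA : ∫ z : Ω × Ω, (if X z.1 ≤ -a then (1 : ℝ) else 0) * (if a ≤ X z.2 then 1 else 0)
      ∂(P.prod P) = P.real {ω | X ω ≤ -a} * P.real {ω | a ≤ X ω} := by
    rw [integral_prod_mul (μ := P) (ν := P) (fun ω => if X ω ≤ -a then (1 : ℝ) else 0)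
      (fun ω => if a ≤ X ω then (1 : ℝ) else 0), int_ite mA, int_ite mB]
  have vC1 : ∫ z : Ω × Ω, (if (L : ℝ) / 2 < X z.1 then (1 : ℝ) else 0) ∂(P.prod P) =
      P.real {ω | (L : ℝ) / 2 < X ω} := by
    have := integral_fun_fst (μ := P) (ν := P) (fun ω => if (L : ℝ) / 2 < X ω then (1 : ℝ) else 0)
    simpa [int_ite mC] using this
  have vC2 : ∫ z : Ω × Ω, (if (L : ℝ) / 2 < X z.2 then (1 : ℝ) else 0) ∂(P.prod P) =
      P.real {ω | (L : ℝ) / 2 < X ω} := by
    have := integral_fun_snd (μ := P) (ν := P) (fun ω => if (L : ℝ) / 2 < X ω then (1 : ℝ) else 0)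
    simpa [int_ite mC] using this
  have it1 : Integrable (fun z : Ω × Ω => tr L (2 * X z.1)) (P.prod P) :=
    int_bdd (C := (L : ℝ)) (measurable_tr L (measurable_const.mul hX1)) fun z => htrabs _
  have it2 : Integrable (fun z : Ω × Ω => tr L (2 * X z.2)) (P.prod P) :=
    int_bdd (C := (L : ℝ)) (measurable_tr L (measurable_const.mul hX2)) fun z => htrabs _
  have it3 : Integrable (fun z : Ω × Ω => tr L (X z.1 + X z.2)) (P.prod P) :=
    int_bdd (C := (L : ℝ)) (measurable_tr L (hX1.add hX2)) fun z => htrabs _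
  have hdef : ∫ z : Ω × Ω, (2 * a * ((if a ≤ X z.1 then (1 : ℝ) else 0) *
        (if X z.2 ≤ -a then 1 else 0) + (if X z.1 ≤ -a then 1 else 0) *
        (if a ≤ X z.2 then 1 else 0))
      - 3 * L * ((if (L : ℝ) / 2 < X z.1 then 1 else 0) +
        (if (L : ℝ) / 2 < X z.2 then 1 else 0))) ∂(P.prod P) ≤
      ∫ z : Ω × Ω, (tr L (2 * X z.1) + tr L (2 * X z.2) - 2 * tr L (X z.1 + X z.2))
        ∂(P.prod P) :=
    integral_mono (((iAB.add iBA).const_mul _).sub ((iC1.add iC2).const_mul _))
      ((it1.add it2).sub (it3.const_mul 2)) fun z => defect L ha haL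
  have k1 : Integrable (fun z : Ω × Ω => 2 * a * ((if a ≤ X z.1 then (1 : ℝ) else 0) *
        (if X z.2 ≤ -a then 1 else 0) + (if X z.1 ≤ -a then 1 else 0) *
        (if a ≤ X z.2 then 1 else 0))) (P.prod P) := (iAB.add iBA).const_mul _
  have k2 : Integrable (fun z : Ω × Ω => 3 * (L : ℝ) * ((if (L : ℝ) / 2 < X z.1 then 1 else 0) +
        (if (L : ℝ) / 2 < X z.2 then 1 else 0))) (P.prod P) := (iC1.add iC2).const_mul _
  have k3 : Integrable (fun z : Ω × Ω => tr L (2 * X z.1) + tr L (2 * X z.2)) (P.prod P) :=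
    it1.add it2
  have k4 : Integrable (fun z : Ω × Ω => 2 * tr L (X z.1 + X z.2)) (P.prod P) :=
    it3.const_mul 2
  rw [integral_sub k1 k2, integral_const_mul, integral_const_mul, integral_add iAB iBA,
    integral_add iC1 iC2, vAB, vBA, vC1, vC2, integral_sub k3 k4, integral_add it1 it2,
    integral_const_mul, f1, f2] at hdef
  have sA : {ω | a ≤ X ω} = {ω | m + a ≤ Real.log (Z ω)} := by
    ext ω; simp only [Set.mem_ofPred_eq, hX]; constructor <;> intro h <;> linarith
  have sB : {ω | X ω ≤ -a} = {ω | Real.log (Z ω) ≤ m - a} := by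
    ext ω; simp only [Set.mem_ofPred_eq, hX]; constructor <;> intro h <;> linarith
  have sC : {ω | (L : ℝ) / 2 < X ω} = {ω | m + (L : ℝ) / 2 < Real.log (Z ω)} := by
    ext ω; simp only [Set.mem_ofPred_eq, hX]; constructor <;> intro h <;> linarith
  rw [sA, sB, sC] at hdef
  have hqq : q * q' ≤ P.real {ω | m + a ≤ Real.log (Z ω)} * P.real {ω | Real.log (Z ω) ≤ m - a} :=
    mul_le_mul hq hq' hq0' (hq0.trans hq)
  have h1 := mul_le_mul_of_nonneg_left hqq ha
  nlinarith [hdef, hmain, h1]

end

end Pool.Agent.W_7d29a1_C1.L30
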