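import Pool.Agent.W_7d29a1_C1.Rank26C
import Pool.Agent.W_7d29a1_C1.CoarA89

/-!
# MP_7d29a1_pr, C1: the leak of a tube (LK), concave BK for the slab kernel

`Zk` = mass of one path through the rows `0, ..., n` (masses `A` of the starts in `I`, `D` of the ends in
`J`), `Nk` = mass of the pairs of paths without a common site (`aw` of `Rank26C`, i.e. the minors of the
slab kernel). `bk30`: `E min 1 (l Nk) ≤ E min 1 (l Z Z')`, `Z'` an independent copy.
`comb30`: other masses of the starts and ends which are comparable with `A`, `D`.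
-/

namespace Pool.Agent.W_7d29a1_C1.L30

open MeasureTheory Finset Pool.Agent.W_7d29a1_F Pool.Agent.W_7d29a1_C1.BK89
open Pool.Agent.W_7d29a1_C1.Coar89 (sts pth_sts sts_disj)
open Pool.Agent.W_7d29a1_C1.R26 (DJ aw W_kW lgv)
open Pool.Agent.W_7d29a1_C1.Basin76 (kW kW_nonneg)
open Pool.Agent.W_7d29a1_X (pos pth pth_nonneg Mt Mt_one)

noncomputable section

variable {μ : Measure ℝ} {s : ℝ}

/-- The mass of one path, masses `A` of the starts in `I`, `D` of the ends in `J`. -/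
def Zk (μ : Measure ℝ) (s : ℝ) (n : ℕ) (I J : Finset ℤ) (A D : ℤ → ℝ) (η : Env) : ℝ :=
  ∑ x ∈ I, ∑ z ∈ J, A x * D z * kW μ s η 0 n x z

/-- The mass of the pairs of paths without a common site in the rows `0, ..., n`. -/
def Nk (μ : Measure ℝ) (s : ℝ) (n : ℕ) (I J : Finset ℤ) (A A' D D' : ℤ → ℝ) (η : Env) : ℝ :=
  ∑ x ∈ I, ∑ z ∈ J, ∑ x' ∈ I, ∑ z' ∈ J, A x * D z * (A' x' * D' z') * aw μ s η n x x' z z'

lemma aw_nonneg30 (η : Env) (n : ℕ) (x x' z z' : ℤ) : 0 ≤ aw μ s η n x x' z z' := by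
  classical
  unfold aw
  refine sum_nonneg fun S _ => sum_nonneg fun S' _ => ?_
  split_ifs
  · exact mul_nonneg (pth_nonneg _ _ _) (pth_nonneg _ _ _)
  · exact le_rfl

lemma Zk_nonneg30 {n : ℕ} {I J : Finset ℤ} {A D : ℤ → ℝ} (hA : ∀ x ∈ I, 0 ≤ A x) (hD : ∀ z ∈ J, 0 ≤ D z)
    (η : Env) : 0 ≤ Zk μ s n I J A D η :=
  sum_nonneg fun x hx => sum_nonneg fun z hz =>
    mul_nonneg (mul_nonneg (hA x hx) (hD z hz)) (kW_nonneg η 0 n x z)

lemma Nk_nonneg30 {n : ℕ} {I J : Finset ℤ} {A A' D D' : ℤ → ℝ} (hA : ∀ x ∈ I, 0 ≤ A x)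
    (hA' : ∀ x ∈ I, 0 ≤ A' x) (hD : ∀ z ∈ J, 0 ≤ D z) (hD' : ∀ z ∈ J, 0 ≤ D' z) (η : Env) :
    0 ≤ Nk μ s n I J A A' D D' η :=
  sum_nonneg fun x hx => sum_nonneg fun z hz => sum_nonneg fun x' hx' => sum_nonneg fun z' hz' =>
    mul_nonneg (mul_nonneg (mul_nonneg (hA x hx) (hD z hz)) (mul_nonneg (hA' x' hx') (hD' z' hz')))
      (aw_nonneg30 η n x x' z z')

/-! ### The tuples -/

/-- Start, end, steps. -/
private abbrev Q30 : Type := ℤ × ℤ × Finset ℕ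

/-- The coefficient of a path. -/
private def co (μ : Measure ℝ) (s : ℝ) (n : ℕ) (A D : ℤ → ℝ) (k : Q30) : ℝ :=
  A k.1 * D k.2.1 *
    (if k.1 + pos k.2.2 n = k.2.1 then Real.exp (s * (pos k.2.2 n : ℝ) - n * lam μ s) else 0)

private def KQ (n : ℕ) (I J : Finset ℤ) : Finset Q30 := I ×ˢ (J ×ˢ (range n).powerset)

open Classical in
private def TQ (n : ℕ) (I J : Finset ℤ) : Finset (Q30 × Q30) :=
  (KQ n I J ×ˢ KQ n I J).filter fun t => DJ n t.1.1 t.2.1 t.1.2.2 t.2.2.2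

private lemma co_nonneg {n : ℕ} {I J : Finset ℤ} {A D : ℤ → ℝ} (hA : ∀ x ∈ I, 0 ≤ A x)
    (hD : ∀ z ∈ J, 0 ≤ D z) {k : Q30} (hk : k ∈ KQ n I J) : 0 ≤ co μ s n A D k := by
  unfold KQ at hk
  rw [mem_product, mem_product] at hk
  unfold co
  refine mul_nonneg (mul_nonneg (hA _ hk.1) (hD _ hk.2.1)) ?_
  split_ifs
  · exact (Real.exp_pos _).le
  · exact le_rfl

private lemma pth_co (η : Env) (n : ℕ) (x z : ℤ) (S : Finset ℕ) :
    (if x + pos S n = z then pth μ s (sh (0, x) η) n S else 0) =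
      (if x + pos S n = z then Real.exp (s * (pos S n : ℝ) - n * lam μ s) else 0) *
        ∏ v ∈ sts n x S, Real.exp (η v) := by
  split_ifs
  · rw [pth_sts]
  · rw [zero_mul]

private lemma kW_sum (η : Env) (n : ℕ) (x z : ℤ) : kW μ s η 0 n x z =
    ∑ S ∈ (range n).powerset, if x + pos S n = z then pth μ s (sh (0, x) η) n S else 0 := by
  rw [← W_kW, ← Mt_one]
  unfold Mt
  refine sum_congr rfl fun S _ => ?_
  by_cases h : x + pos S n = z
  · rw [if_pos h, if_pos (by omega), mul_one]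
  · rw [if_neg h, if_neg (by omega)]

private lemma Zk_sum (n : ℕ) (I J : Finset ℤ) (A D : ℤ → ℝ) (η : Env) :
    Zk μ s n I J A D η = ∑ k ∈ KQ n I J, co μ s n A D k * ∏ v ∈ sts n k.1 k.2.2, Real.exp (η v) := by
  unfold Zk KQ
  rw [sum_product]
  refine sum_congr rfl fun x _ => ?_
  rw [sum_product]
  refine sum_congr rfl fun z _ => ?_
  rw [kW_sum, mul_sum]
  refine sum_congr rfl fun S _ => ?_
  unfold co
  rw [pth_co]
  ring

private lemma Nk_sum (n : ℕ) (I J : Finset ℤ) (A A' D D' : ℤ → ℝ) (η : Env) :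
    Nk μ s n I J A A' D D' η = ∑ t ∈ TQ n I J, co μ s n A D t.1 * co μ s n A' D' t.2 *
      ((∏ v ∈ sts n t.1.1 t.1.2.2, Real.exp (η v)) * ∏ v ∈ sts n t.2.1 t.2.2.2, Real.exp (η v)) := by
  classical
  unfold Nk TQ
  rw [sum_filter, sum_product]
  unfold KQ
  rw [sum_product]
  refine sum_congr rfl fun x _ => ?_
  rw [sum_product]
  refine sum_congr rfl fun z _ => ?_
  have e1 : ∀ S ∈ (range n).powerset, (∑ k ∈ I ×ˢ (J ×ˢ (range n).powerset),
      if DJ n x k.1 S k.2.2 then co μ s n A D (x, z, S) * co μ s n A' D' k *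
        ((∏ v ∈ sts n x S, Real.exp (η v)) * ∏ v ∈ sts n k.1 k.2.2, Real.exp (η v)) else 0) =
      ∑ x' ∈ I, ∑ z' ∈ J, ∑ S' ∈ (range n).powerset, A x * D z * (A' x' * D' z') *
        (if x + pos S n = z ∧ x' + pos S' n = z' ∧ DJ n x x' S S' then
          pth μ s (sh (0, x) η) n S * pth μ s (sh (0, x') η) n S' else 0) := by
    intro S _
    rw [sum_product]
    refine sum_congr rfl fun x' _ => ?_
    rw [sum_product]
    refine sum_congr rfl fun z' _ => ?_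
    refine sum_congr rfl fun S' _ => ?_
    unfold co
    by_cases h1 : x + pos S n = z
    · by_cases h2 : x' + pos S' n = z'
      · by_cases h3 : DJ n x x' S S'
        · simp only [h1, h2, h3, if_true, and_self]
          rw [pth_sts, pth_sts]
          ring
        · simp only [h3, if_false, and_false, mul_zero]
      · simp only [h2, if_false, mul_zero, false_and, and_false, zero_mul, ite_self]
    · simp only [h1, if_false, mul_zero, false_and, zero_mul, ite_self]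
  rw [sum_congr rfl e1]
  symm
  rw [sum_comm]
  refine sum_congr rfl fun x' _ => ?_
  rw [sum_comm]
  refine sum_congr rfl fun z' _ => ?_
  unfold aw
  rw [mul_sum]
  refine sum_congr rfl fun S _ => ?_
  rw [mul_sum]

/-! ### Measurability -/

lemma measurable_Zk30 (n : ℕ) (I J : Finset ℤ) (A D : ℤ → ℝ) : Measurable (Zk μ s n I J A D) := by
  have e : Zk μ s n I J A D =
      fun η => ∑ k ∈ KQ n I J, co μ s n A D k * ∏ v ∈ sts n k.1 k.2.2, Real.exp (η v) :=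
    funext fun η => Zk_sum n I J A D η
  rw [e]
  exact Finset.measurable_sum _ fun k _ => measurable_const.mul
    (Finset.measurable_prod _ fun v _ => Real.measurable_exp.comp (measurable_pi_apply v))

lemma measurable_Nk30 (n : ℕ) (I J : Finset ℤ) (A A' D D' : ℤ → ℝ) :
    Measurable (Nk μ s n I J A A' D D') := by
  have e : Nk μ s n I J A A' D D' =
      fun η => ∑ t ∈ TQ n I J, co μ s n A D t.1 * co μ s n A' D' t.2 *
        ((∏ v ∈ sts n t.1.1 t.1.2.2, Real.exp (η v)) * ∏ v ∈ sts n t.2.1 t.2.2.2, Real.exp (η v)) :=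
    funext fun η => Nk_sum n I J A A' D D' η
  rw [e]
  exact Finset.measurable_sum _ fun t _ => measurable_const.mul
    ((Finset.measurable_prod _ fun v _ => Real.measurable_exp.comp (measurable_pi_apply v)).mul
      (Finset.measurable_prod _ fun v _ => Real.measurable_exp.comp (measurable_pi_apply v)))

/-! ### Concave BK -/

/-- **Concave BK for the pairs of paths without a common site.** -/
theorem bk30 [IsProbabilityMeasure μ] (n : ℕ) (I J : Finset ℤ) {A D : ℤ → ℝ} (hA : ∀ x ∈ I, 0 ≤ A x)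
    (hD : ∀ z ∈ J, 0 ≤ D z) {l : ℝ} (hl : 0 ≤ l) :
    ∫ η, min 1 (l * Nk μ s n I J A A D D η) ∂(law μ) ≤
      ∫ z, min 1 (l * (Zk μ s n I J A D z.1 * Zk μ s n I J A D z.2)) ∂((law μ).prod (law μ)) := by
  classical
  obtain ⟨c, hc⟩ : ∃ c : Q30 × Q30 → ℝ, c = fun t => co μ s n A D t.1 * co μ s n A D t.2 := ⟨_, rfl⟩
  obtain ⟨B, hB⟩ : ∃ B : Q30 × Q30 → Fin 2 → Finset Pt,
      B = fun t i => if i = 0 then sts n t.1.1 t.1.2.2 else sts n t.2.1 t.2.2.2 := ⟨_, rfl⟩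
  have hFF : ∀ w : Fin 2 → Env, FF Real.exp (TQ n I J) c B w =
      ∑ t ∈ TQ n I J, co μ s n A D t.1 * co μ s n A D t.2 *
        ((∏ v ∈ sts n t.1.1 t.1.2.2, Real.exp (w 0 v)) *
          ∏ v ∈ sts n t.2.1 t.2.2.2, Real.exp (w 1 v)) := by
    intro w
    unfold FF
    refine sum_congr rfl fun t _ => ?_
    rw [Fin.prod_univ_two, hc, hB]
    simp
  have hmem : ∀ t ∈ TQ n I J, t.1 ∈ KQ n I J ∧ t.2 ∈ KQ n I J ∧ DJ n t.1.1 t.2.1 t.1.2.2 t.2.2.2 := by
    intro t ht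
    unfold TQ at ht
    rw [mem_filter, mem_product] at ht
    exact ⟨ht.1.1, ht.1.2, ht.2⟩
  have h1 := bk_min (σ := Pt) (μ := μ) (u := Real.exp) Real.measurable_exp
    (fun x => (Real.exp_pos x).le) (T := TQ n I J) (c := c)
    (fun t ht => by
      rw [hc]
      exact mul_nonneg (co_nonneg hA hD (hmem t ht).1) (co_nonneg hA hD (hmem t ht).2.1))
    (A := B) (fun t ht i j hij => by
      have h2 : Disjoint (sts n t.1.1 t.1.2.2) (sts n t.2.1 t.2.2.2) := sts_disj (hmem t ht).2.2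
      rw [hB]
      rcases Fin.exists_fin_two.1 ⟨i, rfl⟩ with rfl | rfl <;>
      rcases Fin.exists_fin_two.1 ⟨j, rfl⟩ with rfl | rfl
      · exact absurd rfl hij
      · simpa using h2
      · simpa using h2.symm
      · exact absurd rfl hij) hl
  have e1 : (fun g : Env => min 1 (l * FF Real.exp (TQ n I J) c B fun _ => g)) =
      fun η => min 1 (l * Nk μ s n I J A A D D η) := by
    funext η
    rw [hFF, Nk_sum]
  have h3 : ∫ w, min 1 (l * FF Real.exp (TQ n I J) c B w) ∂(Measure.pi fun _ : Fin 2 => law μ) ≤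
      ∫ w, min 1 (l * (Zk μ s n I J A D (w 0) * Zk μ s n I J A D (w 1)))
        ∂(Measure.pi fun _ : Fin 2 => law μ) := by
    have b1 : ∀ r : ℝ, 0 ≤ r → |min 1 r| ≤ 1 := fun r hr => by
      rw [abs_of_nonneg (le_min zero_le_one hr)]
      exact min_le_left _ _
    have hm0 : ∀ i : Fin 2, Measurable fun w : Fin 2 → Env => Zk μ s n I J A D (w i) := fun i =>
      (measurable_Zk30 n I J A D).comp (measurable_pi_apply i)
    refine integral_mono ?_ ?_ fun w => ?_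
    · refine Integrable.of_bound (C := 1) (Measurable.aestronglyMeasurable ?_)
        (ae_of_all _ fun w => ?_)
      · exact measurable_const.min (measurable_const.mul (measurable_FF Real.measurable_exp _ _ _))
      · rw [Real.norm_eq_abs]
        refine b1 _ (mul_nonneg hl (FF_nonneg (fun x => (Real.exp_pos x).le) (fun t ht => ?_) _ _))
        rw [hc]
        exact mul_nonneg (co_nonneg hA hD (hmem t ht).1) (co_nonneg hA hD (hmem t ht).2.1)
    · refine Integrable.of_bound (C := 1) (Measurable.aestronglyMeasurable ?_)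
        (ae_of_all _ fun w => ?_)
      · exact measurable_const.min (measurable_const.mul ((hm0 0).mul (hm0 1)))
      · rw [Real.norm_eq_abs]
        exact b1 _ (mul_nonneg hl (mul_nonneg (Zk_nonneg30 hA hD _) (Zk_nonneg30 hA hD _)))
    · refine min_le_min le_rfl (mul_le_mul_of_nonneg_left ?_ hl)
      rw [hFF, Zk_sum, Zk_sum, sum_mul_sum, ← sum_product']
      unfold TQ
      rw [sum_filter]
      refine sum_le_sum fun t ht => ?_
      rw [mem_product] at ht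
      have h5 : 0 ≤ co μ s n A D t.1 * (∏ v ∈ sts n t.1.1 t.1.2.2, Real.exp (w 0 v)) *
          (co μ s n A D t.2 * ∏ v ∈ sts n t.2.1 t.2.2.2, Real.exp (w 1 v)) :=
        mul_nonneg (mul_nonneg (co_nonneg hA hD ht.1) (prod_nonneg fun _ _ => (Real.exp_pos _).le))
          (mul_nonneg (co_nonneg hA hD ht.2) (prod_nonneg fun _ _ => (Real.exp_pos _).le))
      split_ifs
      · exact le_of_eq (by ring)
      · exact h5
  have h4 : ∫ w, min 1 (l * (Zk μ s n I J A D (w 0) * Zk μ s n I J A D (w 1)))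
        ∂(Measure.pi fun _ : Fin 2 => law μ) =
      ∫ z, min 1 (l * (Zk μ s n I J A D z.1 * Zk μ s n I J A D z.2)) ∂((law μ).prod (law μ)) :=
    (measurePreserving_finTwoArrow (law μ)).integral_comp'
      (fun z : Env × Env => min 1 (l * (Zk μ s n I J A D z.1 * Zk μ s n I J A D z.2)))
  rw [← h4]
  refine le_trans (le_of_eq ?_) (h1.trans h3)
  rw [← e1]
  rfl

/-! ### Comparable masses -/

/-- Other masses of the starts and of the ends, comparable with the reference masses. -/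
theorem comb30 {n : ℕ} {I J : Finset ℤ} {A D A₁ A₂ D₁ D₂ : ℤ → ℝ} {a₁ a₂ d₁ d₂ κ q : ℝ} (η : Env)
    (hκ : 0 ≤ κ) (ha₁ : 0 ≤ a₁) (ha₂ : 0 ≤ a₂) (hd₁ : 0 ≤ d₁) (hd₂ : 0 ≤ d₂) (hq : 0 ≤ q)
    (hA : ∀ x ∈ I, 0 ≤ A x) (hD : ∀ z ∈ J, 0 ≤ D z)
    (hA₁ : ∀ x ∈ I, 0 ≤ A₁ x) (hA₂ : ∀ x ∈ I, 0 ≤ A₂ x) (hD₁ : ∀ z ∈ J, 0 ≤ D₁ z) (hD₂ : ∀ z ∈ J, 0 ≤ D₂ z)
    (uA₁ : ∀ x ∈ I, A₁ x ≤ κ * (a₁ * A x)) (lA₁ : ∀ x ∈ I, a₁ * A x ≤ κ * A₁ x)
    (uA₂ : ∀ x ∈ I, A₂ x ≤ κ * (a₂ * A x)) (lA₂ : ∀ x ∈ I, a₂ * A x ≤ κ * A₂ x)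
    (uD₁ : ∀ z ∈ J, D₁ z ≤ κ * (d₁ * D z)) (lD₁ : ∀ z ∈ J, d₁ * D z ≤ κ * D₁ z)
    (uD₂ : ∀ z ∈ J, D₂ z ≤ κ * (d₂ * D z)) (lD₂ : ∀ z ∈ J, d₂ * D z ≤ κ * D₂ z)
    (h : Nk μ s n I J A A D D η ≤ q * Zk μ s n I J A D η ^ 2) :
    Nk μ s n I J A₁ A₂ D₁ D₂ η ≤ κ ^ 8 * q * (Zk μ s n I J A₁ D₁ η * Zk μ s n I J A₂ D₂ η) := by
  have z0 := Zk_nonneg30 (μ := μ) (s := s) (n := n) hA hD η
  -- upper bound of the pairs
  have h1 : Nk μ s n I J A₁ A₂ D₁ D₂ η ≤
      κ ^ 4 * (a₁ * d₁ * (a₂ * d₂)) * Nk μ s n I J A A D D η := by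
    unfold Nk
    rw [mul_sum]
    refine sum_le_sum fun x hx => ?_
    rw [mul_sum]
    refine sum_le_sum fun z hz => ?_
    rw [mul_sum]
    refine sum_le_sum fun x' hx' => ?_
    rw [mul_sum]
    refine sum_le_sum fun z' hz' => ?_
    have e1 : A₁ x * D₁ z ≤ κ * (a₁ * A x) * (κ * (d₁ * D z)) :=
      mul_le_mul (uA₁ x hx) (uD₁ z hz) (hD₁ z hz)
        (mul_nonneg hκ (mul_nonneg ha₁ (hA x hx)))
    have e2 : A₂ x' * D₂ z' ≤ κ * (a₂ * A x') * (κ * (d₂ * D z')) :=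
      mul_le_mul (uA₂ x' hx') (uD₂ z' hz') (hD₂ z' hz')
        (mul_nonneg hκ (mul_nonneg ha₂ (hA x' hx')))
    have e3 := mul_le_mul e1 e2 (mul_nonneg (hA₂ x' hx') (hD₂ z' hz'))
      (mul_nonneg (mul_nonneg hκ (mul_nonneg ha₁ (hA x hx)))
        (mul_nonneg hκ (mul_nonneg hd₁ (hD z hz))))
    calc A₁ x * D₁ z * (A₂ x' * D₂ z') * aw μ s η n x x' z z' ≤
        κ * (a₁ * A x) * (κ * (d₁ * D z)) * (κ * (a₂ * A x') * (κ * (d₂ * D z'))) *
          aw μ s η n x x' z z' := mul_le_mul_of_nonneg_right e3 (aw_nonneg30 η n x x' z z')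
      _ = _ := by ring
  -- lower bounds of the masses
  have h2 : ∀ {A' D' : ℤ → ℝ} {a d : ℝ}, 0 ≤ a → 0 ≤ d → (∀ x ∈ I, 0 ≤ A' x) → (∀ z ∈ J, 0 ≤ D' z) →
      (∀ x ∈ I, a * A x ≤ κ * A' x) → (∀ z ∈ J, d * D z ≤ κ * D' z) →
      a * d * Zk μ s n I J A D η ≤ κ ^ 2 * Zk μ s n I J A' D' η := by
    intro A' D' a d ha hd hA' hD' lA lD
    unfold Zk
    rw [mul_sum, mul_sum]
    refine sum_le_sum fun x hx => ?_
    rw [mul_sum, mul_sum]
    refine sum_le_sum fun z hz => ?_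
    have e1 : a * A x * (d * D z) ≤ κ * A' x * (κ * D' z) :=
      mul_le_mul (lA x hx) (lD z hz) (mul_nonneg hd (hD z hz)) (mul_nonneg hκ (hA' x hx))
    calc a * d * (A x * D z * kW μ s η 0 n x z) = a * A x * (d * D z) * kW μ s η 0 n x z := by ring
      _ ≤ κ * A' x * (κ * D' z) * kW μ s η 0 n x z :=
        mul_le_mul_of_nonneg_right e1 (kW_nonneg η 0 n x z)
      _ = _ := by ring
  have h3 := h2 ha₁ hd₁ hA₁ hD₁ lA₁ lD₁
  have h4 := h2 ha₂ hd₂ hA₂ hD₂ lA₂ lD₂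
  have h5 := mul_le_mul h3 h4 (mul_nonneg (mul_nonneg ha₂ hd₂) z0)
    (mul_nonneg (pow_nonneg hκ 2) (Zk_nonneg30 hA₁ hD₁ η))
  calc Nk μ s n I J A₁ A₂ D₁ D₂ η ≤ κ ^ 4 * (a₁ * d₁ * (a₂ * d₂)) * Nk μ s n I J A A D D η := h1
    _ ≤ κ ^ 4 * (a₁ * d₁ * (a₂ * d₂)) * (q * Zk μ s n I J A D η ^ 2) :=
      mul_le_mul_of_nonneg_left h (mul_nonneg (pow_nonneg hκ 4)
        (mul_nonneg (mul_nonneg ha₁ hd₁) (mul_nonneg ha₂ hd₂)))
    _ = κ ^ 4 * q * (a₁ * d₁ * Zk μ s n I J A D η * (a₂ * d₂ * Zk μ s n I J A D η)) := by ring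
    _ ≤ κ ^ 4 * q * (κ ^ 2 * Zk μ s n I J A₁ D₁ η * (κ ^ 2 * Zk μ s n I J A₂ D₂ η)) :=
      mul_le_mul_of_nonneg_left h5 (mul_nonneg (pow_nonneg hκ 4) hq)
    _ = _ := by ring

end

end Pool.Agent.W_7d29a1_C1.L30
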