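import Pool.Agent.W_7d29a1_C1.Leak30
import Pool.Agent.W_7d29a1_C1.LeakB30
import Pool.Agent.W_7d29a1_C1.TubeG71
import Pool.Agent.W_7d29a1_C1.Jmp75

/-!
# MP_7d29a1_pr, C1: the leak of a tube (LK), the polymer

`leakM30`: `T` rows, ANY nonnegative masses `A` of the starts and `D` of the ends in windows of `R` widths:
with a probability `≥ p` (uniform in `A`, `D`, `T`) the pairs of paths without a common site carry at most
`exp (- δ E_T)` of the square of the total mass. `leakS30`: the same at any base `b`.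
-/

namespace Pool.Agent.W_7d29a1_C1.L30

open MeasureTheory ProbabilityTheory Filter Topology Finset
open Pool.Agent.W_7d29a1_F Pool.Agent.W_7d29a1_h4g Pool.Agent.W_7d29a1_H
open Pool.Agent.W_7d29a1_HS (In wd wd_tendsto)
open Pool.Agent.W_7d29a1_C1.H75 (Wi wi_prob wi_meas T_zero_tilt)
open Pool.Agent.W_7d29a1_C1.Basin76 (kW kW_nonneg kW_pos)

noncomputable section

variable {μ : Measure ℝ} {s : ℝ}

/-- One term. -/
lemma Zk_ge30 {n : ℕ} {I J : Finset ℤ} {A D : ℤ → ℝ} (hA : ∀ x ∈ I, 0 ≤ A x) (hD : ∀ z ∈ J, 0 ≤ D z)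
    (η : Env) {x z : ℤ} (hx : x ∈ I) (hz : z ∈ J) :
    A x * D z * kW μ s η 0 n x z ≤ Zk μ s n I J A D η := by
  unfold Zk
  have h0 : ∀ x ∈ I, ∀ z ∈ J, 0 ≤ A x * D z * kW μ s η 0 n x z := fun x hx z hz =>
    mul_nonneg (mul_nonneg (hA x hx) (hD z hz)) (kW_nonneg η 0 n x z)
  calc A x * D z * kW μ s η 0 n x z ≤ ∑ z ∈ J, A x * D z * kW μ s η 0 n x z :=
        single_le_sum (f := fun z => A x * D z * kW μ s η 0 n x z) (h0 x hx) hz
    _ ≤ _ := single_le_sum (f := fun x => ∑ z ∈ J, A x * D z * kW μ s η 0 n x z)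
        (fun x hx => sum_nonneg (h0 x hx)) hx

lemma sum_kW_le30 (η : Env) (n : ℕ) (J : Finset ℤ) (x : ℤ) :
    ∑ z ∈ J, kW μ s η 0 n x z ≤ Real.exp (V μ s η (0, x) n) := by
  have h1 : ∑ z ∈ J, kW μ s η 0 n x z = WS μ s η (0, x) n (J.image fun z => z - x) := by
    unfold WS
    rw [sum_image fun a _ b _ hab => by simpa using hab]
    rfl
  rw [h1]
  exact WS_le_exp_V η _ n _

/-- The upper bound. -/
lemma Zk_le30 {n : ℕ} {I J : Finset ℤ} {A D : ℤ → ℝ} (hD : ∀ z ∈ J, 0 ≤ D z)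
    {a d b : ℝ} (hA' : ∀ x ∈ I, A x ≤ a) (hD' : ∀ z ∈ J, D z ≤ d) (ha : 0 ≤ a) (hd : 0 ≤ d) (η : Env)
    (hV : ∀ x ∈ I, V μ s η (0, x) n ≤ b) : Zk μ s n I J A D η ≤ I.card * (a * d * Real.exp b) := by
  have h1 : ∀ x ∈ I, ∑ z ∈ J, A x * D z * kW μ s η 0 n x z ≤ a * d * Real.exp b := by
    intro x hx
    calc ∑ z ∈ J, A x * D z * kW μ s η 0 n x z ≤ ∑ z ∈ J, a * d * kW μ s η 0 n x z :=
          sum_le_sum fun z hz => mul_le_mul_of_nonneg_right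
            (mul_le_mul (hA' x hx) (hD' z hz) (hD z hz) ha) (kW_nonneg η 0 n x z)
      _ = a * d * ∑ z ∈ J, kW μ s η 0 n x z := by rw [mul_sum]
      _ ≤ a * d * Real.exp b := mul_le_mul_of_nonneg_left
          ((sum_kW_le30 η n J x).trans (Real.exp_le_exp.2 (hV x hx))) (mul_nonneg ha hd)
  unfold Zk
  calc _ ≤ ∑ _x ∈ I, a * d * Real.exp b := sum_le_sum h1
    _ = _ := by rw [sum_const, nsmul_eq_mul]

/-- The number of sites of a window. -/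
lemma card_win30 {I : Finset ℤ} {r : ℝ} (hI : ∀ x ∈ I, |(x : ℝ)| ≤ r) (hr : 0 ≤ r) :
    (I.card : ℝ) ≤ 2 * r + 1 := by
  have h1 : I ⊆ Icc (-⌊r⌋) ⌊r⌋ := by
    intro x hx
    have h2 := abs_le.1 (hI x hx)
    rw [mem_Icc]
    constructor
    · have : -x ≤ ⌊r⌋ := Int.le_floor.2 (by push_cast; linarith [h2.1])
      omega
    · exact Int.le_floor.2 h2.2
  have h3 := card_le_card h1
  rw [Int.card_Icc] at h3
  have h4 : 0 ≤ ⌊r⌋ := Int.floor_nonneg.2 hr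
  have h5 : ((⌊r⌋ + 1 - -⌊r⌋).toNat : ℝ) = 2 * (⌊r⌋ : ℝ) + 1 := by
    have h6 : ((⌊r⌋ + 1 - -⌊r⌋).toNat : ℤ) = ⌊r⌋ + 1 - -⌊r⌋ := Int.toNat_of_nonneg (by omega)
    have h7 : ((⌊r⌋ + 1 - -⌊r⌋).toNat : ℝ) = (((⌊r⌋ + 1 - -⌊r⌋).toNat : ℤ) : ℝ) := by push_cast; rfl
    rw [h7, h6]
    push_cast
    ring
  calc (I.card : ℝ) ≤ ((⌊r⌋ + 1 - -⌊r⌋).toNat : ℝ) := by exact_mod_cast h3
    _ = 2 * (⌊r⌋ : ℝ) + 1 := h5
    _ ≤ 2 * r + 1 := by linarith [Int.floor_le r]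

/-- The choice of the level: `(Λ + 1) exp (- Λ / (2 C)) ≤ 16 C ^ 2 / Λ`. -/
lemma num30 {C Λ : ℝ} (hC : 1 ≤ C) (hΛ : 1 ≤ Λ) :
    (Λ + 1) * Real.exp (-(Λ / (2 * C))) ≤ 16 * C ^ 2 / Λ := by
  have hC0 : 0 < C := by linarith
  have h0 : 0 < 1 + Λ / (4 * C) := by positivity
  have h1 : 1 + Λ / (4 * C) ≤ Real.exp (Λ / (4 * C)) := by
    linarith [Real.add_one_le_exp (Λ / (4 * C))]
  have h2 : (1 + Λ / (4 * C)) ^ 2 ≤ Real.exp (Λ / (2 * C)) := by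
    have h3 : Real.exp (Λ / (2 * C)) = Real.exp (Λ / (4 * C)) ^ 2 := by
      rw [← Real.exp_nat_mul]
      congr 1
      field_simp
      norm_num
    rw [h3]
    exact pow_le_pow_left₀ h0.le h1 2
  rw [Real.exp_neg, ← div_eq_mul_inv, div_le_div_iff₀ (Real.exp_pos _) (by linarith)]
  have h4 : (Λ + 1) * Λ ≤ 16 * C ^ 2 * (1 + Λ / (4 * C)) ^ 2 := by
    have h5 : 16 * C ^ 2 * (1 + Λ / (4 * C)) ^ 2 = (4 * C + Λ) ^ 2 := by
      field_simp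
      ring
    rw [h5]
    nlinarith
  exact h4.trans (mul_le_mul_of_nonneg_left h2 (by positivity))

/-- The abstract theorem with the numbers of the polymer. -/
theorem core30 {Ω : Type*} [MeasurableSpace Ω] (P : Measure Ω) [IsProbabilityMeasure P] {Z N2 : Ω → ℝ}
    (hZ : Measurable Z) (hN : Measurable N2) (hZ0 : ∀ ω, 0 < Z ω) (hN0 : ∀ ω, 0 ≤ N2 ω)
    (bk : ∀ l : ℝ, 0 ≤ l → ∫ ω, min 1 (l * N2 ω) ∂P ≤ ∫ z, min 1 (l * (Z z.1 * Z z.2)) ∂(P.prod P))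
    {m E p Λ t : ℝ} {L : ℕ} (hp0 : 0 < p) (hΛ : 1 ≤ Λ) (hE1 : 1 ≤ E) (hE : 8 / p ≤ E)
    (hL1 : Λ * E ≤ L) (hL2 : (L : ℝ) ≤ (Λ + 1) * E)
    (q1 : p ≤ P.real {ω | m + E ≤ Real.log (Z ω)}) (q2 : 1 / 2 ≤ P.real {ω | Real.log (Z ω) ≤ m - E})
    (q3 : P.real {ω | m + (L : ℝ) / 2 < Real.log (Z ω)} ≤ t) (ht : 3 * (Λ + 1) * t ≤ p / 4) :
    p / (4 * (Λ + 1)) ≤ P.real {ω | N2 ω ≤ Real.exp (-(p / 4 * E)) * Z ω ^ 2} := by
  have hE0 : 0 < E := by linarith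
  have key := leak30 P hZ hN hZ0 hN0 bk (m := m) (a := E) (g := p / 4 * E) (q := p) (q' := 1 / 2)
    (L := L) hE0.le (by nlinarith) (by positivity) hp0.le (by norm_num) q1 q2
  obtain ⟨Pr, hPr⟩ : ∃ Pr : ℝ, Pr = P.real {ω | N2 ω ≤ Real.exp (-(p / 4 * E)) * Z ω ^ 2} := ⟨_, rfl⟩
  obtain ⟨Pt, hPt⟩ : ∃ Pt : ℝ, Pt = P.real {ω | m + (L : ℝ) / 2 < Real.log (Z ω)} := ⟨_, rfl⟩
  rw [← hPt] at q3
  rw [← hPr, ← hPt] at key
  rw [← hPr]
  have hPr0 : 0 ≤ Pr := by rw [hPr]; exact measureReal_nonneg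
  have hPt0 : 0 ≤ Pt := by rw [hPt]; exact measureReal_nonneg
  clear hPr hPt q1 q2
  have k1 : 3 * (L : ℝ) * Pt ≤ p / 4 * E := by
    calc 3 * (L : ℝ) * Pt ≤ 3 * ((Λ + 1) * E) * t :=
          mul_le_mul (by linarith) q3 hPt0 (by positivity)
      _ = 3 * (Λ + 1) * t * E := by ring
      _ ≤ p / 4 * E := mul_le_mul_of_nonneg_right ht hE0.le
  have k2 : (L : ℝ) * Pr ≤ (Λ + 1) * E * Pr := mul_le_mul_of_nonneg_right hL2 hPr0
  have k3 : 2 ≤ p / 4 * E := by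
    rw [div_le_iff₀ hp0] at hE
    linarith
  rw [div_le_iff₀ (by positivity)]
  have k5 : p / 4 * E ≤ (Pr * (Λ + 1)) * E := by
    have e1 : (Λ + 1) * E * Pr = (Pr * (Λ + 1)) * E := by ring
    have e2 : 2 * E * p * (1 / 2) = p * E := by ring
    rw [e1] at k2
    rw [e2] at key
    linarith
  have k6 := le_of_mul_le_mul_right k5 hE0
  linarith

/-- On the event UP. -/
lemma up30 {T : ℕ} {I J : Finset ℤ} {A D : ℤ → ℝ} (hA : ∀ x ∈ I, 0 ≤ A x) (hD : ∀ z ∈ J, 0 ≤ D z)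
    {a d b k r : ℝ} (hmA : ∀ x ∈ I, A x ≤ a) (hmD : ∀ z ∈ J, D z ≤ d) (ha : 0 < a) (hd : 0 < d)
    (hcard : (I.card : ℝ) ≤ Real.exp k) (hI : ∀ x ∈ I, |(x : ℝ)| ≤ r) {η : Env}
    (hZ : 0 < Zk μ s T I J A D η) (hη : η ∈ Wi μ s 0 T 0 r b) :
    Real.log (Zk μ s T I J A D η) ≤ Real.log (a * d) + k + b := by
  have hAD := mul_pos ha hd
  have h1 : ∀ x ∈ I, V μ s η (0, x) T ≤ b := by
    intro x hx
    have h2 := hη 0 x T (by omega) (by
      have := hI x hx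
      simpa using this)
    rw [T_zero_tilt] at h2
    simpa using h2
  have h2 := Zk_le30 hD hmA hmD ha.le hd.le η h1
  have h3 : Zk μ s T I J A D η ≤ a * d * Real.exp (k + b) := by
    refine h2.trans ?_
    rw [Real.exp_add]
    calc (I.card : ℝ) * (a * d * Real.exp b) ≤ Real.exp k * (a * d * Real.exp b) :=
          mul_le_mul_of_nonneg_right hcard (mul_nonneg hAD.le (Real.exp_pos _).le)
      _ = _ := by ring
  have h4 := Real.log_le_log hZ h3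
  rw [Real.log_mul hAD.ne' (Real.exp_pos _).ne', Real.log_exp] at h4
  linarith

/-- One lucky lane. -/
lemma low30 {T : ℕ} {I J : Finset ℤ} {A D : ℤ → ℝ} (hA : ∀ x ∈ I, 0 ≤ A x) (hD : ∀ z ∈ J, 0 ≤ D z)
    {x z : ℤ} (hx : x ∈ I) (hz : z ∈ J) (hAx : 0 < A x) (hDz : 0 < D z) {k : ℝ} {η : Env}
    (h : Real.exp k ≤ kW μ s η 0 T x z) : Real.log (A x * D z) + k ≤ Real.log (Zk μ s T I J A D η) := by
  have hAD := mul_pos hAx hDz
  have h3 := (mul_le_mul_of_nonneg_left h hAD.le).trans (Zk_ge30 hA hD η hx hz)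
  have h4 := Real.log_le_log (mul_pos hAD (Real.exp_pos _)) h3
  rwa [Real.log_mul hAD.ne' (Real.exp_pos _).ne', Real.log_exp] at h4

lemma Nk_zero30 {T : ℕ} {I J : Finset ℤ} {A D : ℤ → ℝ} (hA : ∀ x ∈ I, 0 ≤ A x) (hD : ∀ z ∈ J, 0 ≤ D z)
    (hpos : ¬ ((∃ x ∈ I, 0 < A x) ∧ ∃ z ∈ J, 0 < D z)) (η : Env) : Nk μ s T I J A A D D η = 0 := by
  unfold Nk
  refine sum_eq_zero fun x hx => sum_eq_zero fun z hz => sum_eq_zero fun x' hx' =>
    sum_eq_zero fun z' hz' => ?_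
  have h1 : A x * D z = 0 := by
    by_contra h2
    refine hpos ⟨⟨x, hx, lt_of_le_of_ne (hA x hx) fun h3 => h2 ?_⟩,
      ⟨z, hz, lt_of_le_of_ne (hD z hz) fun h3 => h2 ?_⟩⟩
    · rw [← h3, zero_mul]
    · rw [← h3, mul_zero]
  rw [h1, zero_mul, zero_mul]

variable {c C : ℝ} {n₀ : ℕ}

/-- The constants. -/
private lemma const30 {R C : ℝ} (hC1 : 1 ≤ C) (hR : 0 ≤ R) : ∃ B U : ℝ, B = (2 * R + 2) * C ∧ 2 ≤ B ∧ 0 ≤ U ∧
    B * Real.exp (-(U / C)) ≤ 1 / 2 ∧ ∀ p : ℝ, 0 < p → ∃ Λ : ℝ, 1 ≤ Λ ∧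
      3 * (Λ + 1) * (B * Real.exp (-(Λ / (2 * C)))) ≤ p / 4 := by
  have hC0 : 0 < C := by linarith
  obtain ⟨B, hB⟩ : ∃ B : ℝ, B = (2 * R + 2) * C := ⟨_, rfl⟩
  have hB2 : 2 ≤ B := by rw [hB]; nlinarith
  refine ⟨B, C * Real.log (2 * B), hB, hB2, mul_nonneg hC0.le (Real.log_nonneg (by linarith)), ?_,
    fun p hp0 => ?_⟩
  · have e1 : C * Real.log (2 * B) / C = Real.log (2 * B) := by field_simp
    rw [e1, Real.exp_neg, Real.exp_log (by linarith)]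
    have : B * (2 * B)⁻¹ = 1 / 2 := by field_simp
    exact this.le
  · obtain ⟨Λ, hΛ⟩ : ∃ Λ : ℝ, Λ = 1 + 192 * B * C ^ 2 / p := ⟨_, rfl⟩
    have hΛ1 : 1 ≤ Λ := by
      rw [hΛ]
      have : 0 ≤ 192 * B * C ^ 2 / p := by positivity
      linarith
    refine ⟨Λ, hΛ1, ?_⟩
    have h1 := num30 hC1 hΛ1
    have h2 : 3 * B * (16 * C ^ 2 / Λ) ≤ p / 4 := by
      have h3 : 192 * B * C ^ 2 / p ≤ Λ := by rw [hΛ]; linarith
      rw [div_le_iff₀ hp0] at h3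
      have h4 : 3 * B * (16 * C ^ 2 / Λ) = 48 * B * C ^ 2 / Λ := by ring
      rw [h4, div_le_iff₀ (by linarith)]
      linarith
    calc 3 * (Λ + 1) * (B * Real.exp (-(Λ / (2 * C)))) =
        3 * B * ((Λ + 1) * Real.exp (-(Λ / (2 * C)))) := by ring
      _ ≤ 3 * B * (16 * C ^ 2 / Λ) := mul_le_mul_of_nonneg_left h1 (by linarith)
      _ ≤ p / 4 := h2

/-- **THE LEAK.** -/
theorem leakM30 [IsProbabilityMeasure μ] (h : In μ s c C n₀) {R : ℝ} (hR : 0 ≤ R) :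
    ∃ δ p : ℝ, 0 < δ ∧ 0 < p ∧ ∃ n₁ : ℕ, ∀ T : ℕ, n₁ ≤ T → ∀ (I J : Finset ℤ) (A D : ℤ → ℝ),
      (∀ x ∈ I, |(x : ℝ)| ≤ R * wd μ s T) → (∀ z ∈ J, |(z : ℝ) - sl μ s * T| ≤ R * wd μ s T) →
      (∀ x ∈ I, 0 ≤ A x) → (∀ z ∈ J, 0 ≤ D z) →
      p ≤ (law μ).real {η | Nk μ s T I J A A D D η ≤
        Real.exp (-(δ * EE μ s T)) * Zk μ s T I J A D η ^ 2} := by
  have hC1 := h.C1
  have hC0 : 0 < C := by linarith
  have hs0 := h.sl_pos
  have hs1 := h.sl_lt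
  obtain ⟨B, U, hB, hB2, hU0, hUB, hΛall⟩ := const30 hC1 hR
  obtain ⟨p, hp0, n₂, hn₂⟩ := T71.tubeG h (d := 1) one_pos (2 * R + 1) (C + 1 + U + 2)
  obtain ⟨Λ, hΛ1, hnum⟩ := hΛall p hp0
  obtain ⟨n₃, hn₃⟩ := eventually_atTop.1 (h.tE.eventually_ge_atTop (8 / p + Real.log (2 * R + 1)))
  obtain ⟨n₄, hn₄⟩ := eventually_atTop.1 ((h.tv.const_mul (2 * R)).eventually_lt_const
    (u := min (sl μ s) (1 - sl μ s)) (by rw [mul_zero]; exact lt_min hs0 (by linarith)))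
  obtain ⟨n₅, hn₅⟩ := eventually_atTop.1 ((wd_tendsto h).eventually_ge_atTop 1)
  obtain ⟨n₆, hn₆⟩ := eventually_atTop.1 (h.tv.eventually_lt_const (u := 1) one_pos)
  refine ⟨p / 4, p / (4 * (Λ + 1)), by positivity, by positivity,
    max (max n₀ 1) (max n₂ (max n₃ (max n₄ (max n₅ n₆)))), fun T hT I J A D hI hJ hA hD => ?_⟩
  rw [max_le_iff, max_le_iff, max_le_iff, max_le_iff, max_le_iff, max_le_iff] at hT
  obtain ⟨⟨hT0, hT1⟩, hT2, hT3, hT4, hT5, hT6⟩ := hT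
  replace hT3 := hn₃ T hT3
  replace hT4 := hn₄ T hT4
  replace hT5 := hn₅ T hT5
  replace hT6 := hn₆ T hT6
  replace hn₂ := hn₂ T hT2
  clear hn₃ hn₄ hn₅ hn₆ hΛall hT2
  have hTp : (0 : ℝ) < T := by exact_mod_cast hT1
  have hlog0 : 0 ≤ Real.log (2 * R + 1) := Real.log_nonneg (by linarith)
  have h8p : 0 < 8 / p := by positivity
  have hE1 : 1 ≤ EE μ s T := one_le_EE T
  have hE0 : 0 < EE μ s T := by linarith
  have hw0 : 0 < wd μ s T := by linarith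
  have hRw : 0 ≤ R * wd μ s T := mul_nonneg hR hw0.le
  have hwT : wd μ s T ≤ T := by
    have h1 : wd μ s T = T * vA 1 μ s T := rfl
    rw [h1]
    exact mul_le_of_le_one_right hTp.le hT6.le
  have hP0 : p / (4 * (Λ + 1)) ≤ 1 := by
    have hp1 : p ≤ 1 := by
      have h1 := hn₂ (0, 0) ⌊sl μ s * T⌋ (by
        have h2 := Int.floor_le (sl μ s * T)
        have h3 := Int.lt_floor_add_one (sl μ s * T)
        rw [abs_le]
        constructor <;> linarith)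
      exact h1.trans measureReal_le_one
    rw [div_le_one (by linarith)]
    linarith
  by_cases hpos : (∃ x ∈ I, 0 < A x) ∧ ∃ z ∈ J, 0 < D z
  swap
  · -- no mass
    have e2 : {η | Nk μ s T I J A A D D η ≤
        Real.exp (-(p / 4 * EE μ s T)) * Zk μ s T I J A D η ^ 2} = Set.univ := by
      ext η
      simp only [Set.mem_ofPred_eq, Set.mem_univ, iff_true]
      rw [Nk_zero30 hA hD hpos]
      exact mul_nonneg (Real.exp_pos _).le (sq_nonneg _)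
    rw [e2, probReal_univ]
    exact hP0
  obtain ⟨⟨x₀, hx₀, hAx₀⟩, z₀, hz₀, hDz₀⟩ := hpos
  obtain ⟨x₁, hx₁, hmA⟩ := exists_max_image I A ⟨x₀, hx₀⟩
  obtain ⟨z₁, hz₁, hmD⟩ := exists_max_image J D ⟨z₀, hz₀⟩
  have hA1 : 0 < A x₁ := hAx₀.trans_le (hmA x₀ hx₀)
  have hD1 : 0 < D z₁ := hDz₀.trans_le (hmD z₀ hz₀)
  have b1 := abs_le.1 (hI x₁ hx₁)
  have b2 := abs_le.1 (hJ z₁ hz₁)
  -- the lane
  have hxz0 : 0 ≤ z₁ - x₁ ∧ z₁ - x₁ ≤ T := by
    have h1 : 2 * R * vA 1 μ s T * T = 2 * (R * wd μ s T) := by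
      have : wd μ s T = T * vA 1 μ s T := rfl
      rw [this]
      ring
    have h2 := mul_le_mul_of_nonneg_right (hT4.le.trans (min_le_left _ _)) hTp.le
    have h3 := mul_le_mul_of_nonneg_right (hT4.le.trans (min_le_right _ _)) hTp.le
    rw [h1] at h2 h3
    constructor
    · have : (0 : ℝ) ≤ ((z₁ - x₁ : ℤ) : ℝ) := by push_cast; linarith
      exact_mod_cast this
    · have : ((z₁ - x₁ : ℤ) : ℝ) ≤ T := by push_cast; linarith
      exact_mod_cast this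
  have hkp : ∀ η, 0 < kW μ s η 0 T x₁ z₁ := fun η => kW_pos η 0 (by omega) (by omega)
  have hZp : ∀ η, 0 < Zk μ s T I J A D η := fun η =>
    (mul_pos (mul_pos hA1 hD1) (hkp η)).trans_le (Zk_ge30 hA hD η hx₁ hz₁)
  have hL2 : ((⌈Λ * EE μ s T⌉₊ : ℕ) : ℝ) ≤ (Λ + 1) * EE μ s T := by
    have h1 := Nat.ceil_lt_add_one (show 0 ≤ Λ * EE μ s T by positivity)
    linarith
  have hcard : (I.card : ℝ) ≤ Real.exp ((C + 1) * EE μ s T) := by
    have h1 := card_win30 hI hRw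
    have h2 : 2 * (R * wd μ s T) + 1 ≤ (2 * R + 1) * T := by
      have h3 : (1 : ℝ) ≤ T := by exact_mod_cast hT1
      have h4 := mul_le_mul_of_nonneg_left hwT hR
      linarith
    have h3 := h.lg T hT1
    calc (I.card : ℝ) ≤ (2 * R + 1) * T := h1.trans h2
      _ = Real.exp (Real.log (2 * R + 1) + Real.log T) := by
        rw [Real.exp_add, Real.exp_log (by linarith), Real.exp_log hTp]
      _ ≤ _ := Real.exp_le_exp.2 (by linarith)
  have hup : ∀ (b : ℝ) (η : Env), η ∈ Wi μ s 0 T 0 (R * wd μ s T) b →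
      Real.log (Zk μ s T I J A D η) ≤ Real.log (A x₁ * D z₁) + (C + 1) * EE μ s T + b :=
    fun b η hη => up30 hA hD hmA hmD hA1 hD1 hcard hI (hZp η) hη
  have hprob : ∀ b : ℝ, (law μ).real (Wi μ s 0 T 0 (R * wd μ s T) b)ᶜ ≤
      B * Real.exp (-(b / (C * EE μ s T))) := by
    intro b
    have h1 := wi_prob h hT0 hT1 (t := 0) (by
      rw [abs_zero, zero_mul]
      exact mul_nonneg h.c0.le hE0.le) (D := R * wd μ s T) hRw 0 b
    have h2 : 2 * (R * wd μ s T) / wd μ s T = 2 * R := by field_simp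
    rw [h2] at h1
    refine h1.trans (le_of_eq ?_)
    rw [hB]
    ring
  refine core30 (law μ) (measurable_Zk30 (μ := μ) (s := s) T I J A D)
    (measurable_Nk30 (μ := μ) (s := s) T I J A A D D) hZp
    (fun η => Nk_nonneg30 hA hA hD hD η) (fun l hl => bk30 T I J hA hD hl)
    (m := Real.log (A x₁ * D z₁) + (C + 1 + U + 1) * EE μ s T) (E := EE μ s T) (p := p) (Λ := Λ)
    (t := B * Real.exp (-(Λ / (2 * C)))) (L := ⌈Λ * EE μ s T⌉₊) hp0 hΛ1 hE1 (by linarith)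
    (Nat.le_ceil _) hL2 ?_ ?_ ?_ hnum
  · have h1 := hn₂ (0, x₁) (z₁ - x₁) (by
      push_cast
      rw [abs_le]
      constructor <;> linarith)
    refine h1.trans (measureReal_mono (fun η hη => ?_) (measure_ne_top _ _))
    have h2 : Real.exp ((C + 1 + U + 2) * EE μ s T) ≤ kW μ s η 0 T x₁ z₁ :=
      hη.trans (Pool.Agent.W_7d29a1_HL.WR_mono' (Set.subset_univ _) η _ _ _)
    have h3 := low30 hA hD hx₁ hz₁ hA1 hD1 h2
    show Real.log (A x₁ * D z₁) + (C + 1 + U + 1) * EE μ s T + EE μ s T ≤ _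
    linarith
  · have h1 := hprob (U * EE μ s T)
    have h2 : U * EE μ s T / (C * EE μ s T) = U / C := by field_simp
    rw [h2, probReal_compl_eq_one_sub wi_meas] at h1
    refine le_trans (b := (law μ).real (Wi μ s 0 T 0 (R * wd μ s T) (U * EE μ s T))) (by linarith)
      (measureReal_mono (fun η hη => ?_) (measure_ne_top _ _))
    have h5 := hup _ η hη
    show Real.log (Zk μ s T I J A D η) ≤ _
    linarith
  · refine (measureReal_mono (fun η hη => ?_) (measure_ne_top _ _)).trans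
      ((hprob (((⌈Λ * EE μ s T⌉₊ : ℕ) : ℝ) / 2)).trans ?_)
    · intro h1
      have h2 := hup _ η h1
      have h3 : Real.log (A x₁ * D z₁) + (C + 1 + U + 1) * EE μ s T +
        ((⌈Λ * EE μ s T⌉₊ : ℕ) : ℝ) / 2 < Real.log (Zk μ s T I J A D η) := hη
      have h4 : 0 ≤ (U + 1) * EE μ s T := mul_nonneg (by linarith) hE0.le
      linarith
    · refine mul_le_mul_of_nonneg_left (Real.exp_le_exp.2 (neg_le_neg ?_)) (by linarith)
      rw [div_le_div_iff₀ (by linarith) (mul_pos hC0 hE0)]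
      have h1 := Nat.le_ceil (Λ * EE μ s T)
      have h2 := mul_le_mul_of_nonneg_right h1 hC0.le
      linarith

end

end Pool.Agent.W_7d29a1_C1.L30
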