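import Mathlib

/-!
MP_7d29a1_pr, [C1] master page (row 690), section 4: few blocks are not usable. Combinatorial part. (helper77)

`C` = the covered (or untame) blocks. A block `i` is usable if it is not in `C` and if for every `l` with `l₀ ≤ l ≤ lm` one of
the blocks `i + a l, .., min (i + l - 2, m - 1)` is not in `C` (its price beats the competitors at the distance of the scale
`i + l`). All but `2 #C + 2 a lm + 1` blocks are usable.
-/

set_option autoImplicit false

namespace Pool.Agent.W_7d29a1_C1.H77

open Finset

/-- The one sided maximal inequality: if every `i ∈ B` starts an interval `[i, y]` which has at least the fraction `1 / k` in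
`C`, then `#B ≤ k #C`. -/
theorem rising {m k : ℕ} (C B : Finset ℕ) (hB : ∀ i ∈ B, ∃ y, i ≤ y ∧ y < m ∧ y + 1 ≤ i + k * (C ∩ Icc i y).card) :
    B.card ≤ k * C.card := by
  have key : ∀ j i, i + j = m → (B.filter (i ≤ ·)).card ≤ k * (C.filter (i ≤ ·)).card := by
    intro j
    induction j using Nat.strong_induction_on with
    | _ j ih =>
      intro i hij
      rcases Nat.eq_zero_or_pos j with h0 | h0
      · subst h0
        have : B.filter (i ≤ ·) = ∅ := by
          rw [filter_eq_empty_iff]
          intro b hb hib
          obtain ⟨y, h1, h2, -⟩ := hB b hb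
          omega
        rw [this]
        simp
      · by_cases hi : i ∈ B
        · obtain ⟨y, h1, h2, h3⟩ := hB i hi
          have h4 := ih (m - (y + 1)) (by omega) (y + 1) (by omega)
          have e1 : B.filter (i ≤ ·) ⊆ Icc i y ∪ B.filter (y + 1 ≤ ·) := by
            intro b hb
            simp only [mem_filter, mem_union, mem_Icc] at hb ⊢
            by_cases hby : b ≤ y
            · exact Or.inl ⟨hb.2, hby⟩
            · exact Or.inr ⟨hb.1, by omega⟩
          have e2 : (C ∩ Icc i y).card + (C.filter (y + 1 ≤ ·)).card = ((C ∩ Icc i y) ∪ C.filter (y + 1 ≤ ·)).card := by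
            rw [card_union_of_disjoint]
            rw [disjoint_left]
            intro b hb hb'
            simp only [mem_inter, mem_Icc, mem_filter] at hb hb'
            omega
          have e3 : (C ∩ Icc i y) ∪ C.filter (y + 1 ≤ ·) ⊆ C.filter (i ≤ ·) := by
            intro b hb
            simp only [mem_union, mem_inter, mem_Icc, mem_filter] at hb ⊢
            rcases hb with hb | hb
            · exact ⟨hb.1, hb.2.1⟩
            · exact ⟨hb.1, by omega⟩
          have c1 := card_le_card e1
          have c2 := card_union_le (Icc i y) (B.filter (y + 1 ≤ ·))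
          have c3 := card_le_card e3
          rw [Nat.card_Icc] at c2
          have c4 : k * (C ∩ Icc i y).card + k * (C.filter (y + 1 ≤ ·)).card ≤ k * (C.filter (i ≤ ·)).card := by
            rw [← mul_add, e2]
            exact Nat.mul_le_mul_left k c3
          omega
        · have h4 := ih (j - 1) (by omega) (i + 1) (by omega)
          have e1 : B.filter (i ≤ ·) ⊆ B.filter (i + 1 ≤ ·) := by
            intro b hb
            simp only [mem_filter] at hb ⊢
            refine ⟨hb.1, ?_⟩
            rcases Nat.lt_or_ge i b with h | h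
            · exact h
            · have : b = i := le_antisymm h hb.2
              exact absurd (this ▸ hb.1) hi
          have e2 : C.filter (i + 1 ≤ ·) ⊆ C.filter (i ≤ ·) := by
            intro b hb
            simp only [mem_filter] at hb ⊢
            exact ⟨hb.1, by omega⟩
          exact (card_le_card e1).trans (h4.trans (Nat.mul_le_mul_left k (card_le_card e2)))
  have h := key m 0 (by omega)
  simpa using h

/-- The usable blocks. -/
def Usable (C : Finset ℕ) (m l₀ lm : ℕ) (a : ℕ → ℕ) (i : ℕ) : Prop :=
  i ∉ C ∧ ∀ l, l₀ ≤ l → l ≤ lm → ∃ j, j ∉ C ∧ i + a l ≤ j ∧ j + 2 ≤ i + l ∧ j < m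

open Classical in
/-- **All but `2 #C + 2 a lm` blocks are usable.** Here `l₀ ≤ l ≤ lm`, `2 a l + 1 ≤ l`. -/
theorem not_usable {m l₀ lm : ℕ} {a : ℕ → ℕ} (ha : Monotone a) (h1 : ∀ l, l₀ ≤ l → 2 * a l + 1 ≤ l) (hl : 3 ≤ l₀)
    (C : Finset ℕ) :
    ((range (m - 2 * a lm)).filter fun i => ¬ Usable C m l₀ lm a i).card ≤
      2 * C.card := by
  refine rising (m := m) C _ fun i hi => ?_
  rw [mem_filter, mem_range] at hi
  obtain ⟨him, hi⟩ := hi
  by_cases hC : i ∈ C
  · refine ⟨i, le_rfl, by omega, ?_⟩
    have : i ∈ C ∩ Icc i i := by simp [hC]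
    have h2 : 1 ≤ (C ∩ Icc i i).card := card_pos.2 ⟨i, this⟩
    omega
  · have h2 : ∃ l, l₀ ≤ l ∧ l ≤ lm ∧ ∀ j, j ∉ C → i + a l ≤ j → j + 2 ≤ i + l → ¬ j < m := by
      by_contra hcon
      push Not at hcon
      exact hi ⟨hC, fun l hl0 hlm => by
        obtain ⟨j, a1, a2, a3, a4⟩ := hcon l hl0 hlm
        exact ⟨j, a1, a2, a3, a4⟩⟩
    obtain ⟨l, hl0, hlm, h3⟩ := h2
    have h4 := h1 l hl0
    have h5 : a l ≤ a lm := ha hlm
    set y := min (i + l - 2) (m - 1) with hy
    have hy1 : y ≤ i + l - 2 := min_le_left _ _
    have hy2 : y ≤ m - 1 := min_le_right _ _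
    have hsub : Icc (i + a l) y ⊆ C ∩ Icc i y := by
      intro j hj
      rw [mem_Icc] at hj
      rw [mem_inter, mem_Icc]
      refine ⟨?_, by omega, hj.2⟩
      by_contra hjC
      exact h3 j hjC hj.1 (by omega) (by omega)
    have hcard := card_le_card hsub
    rw [Nat.card_Icc] at hcard
    refine ⟨y, ?_, by omega, ?_⟩
    · rcases le_total (i + l - 2) (m - 1) with h | h
      · have : y = i + l - 2 := min_eq_left h
        omega
      · have : y = m - 1 := min_eq_right h
        omega
    · rcases le_total (i + l - 2) (m - 1) with h | h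
      · have e : y = i + l - 2 := min_eq_left h
        omega
      · have e : y = m - 1 := min_eq_right h
        omega

end Pool.Agent.W_7d29a1_C1.H77
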