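import Pool.Agent.W_7d29a1_C1.NoJ9
import Pool.Agent.W_7d29a1_C1.Cls77
import Pool.Agent.W_7d29a1_C1.Use77

/-!
Both halves (MP_7d29a1_pr), attractor route: THE PAIRS WITHOUT JOINT SUCCESS, ALL THE CLASSES (helper17).

`pair17` / `lec17`: the sum over all the pairs of contacts of the weight of `no success in the chosen class`, from the data of the
chains (`ChData` of the pair, one for every class), the goodness of the levels and the weight of `many narrow windows` of one copy.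
`nar17`: many narrow windows, from the covered blocks (weight) and the untame blocks (probability).
`num17`: the exponents.
-/

set_option autoImplicit false

namespace Pool.Agent.W_7d29a1_C1.Lec17

open MeasureTheory Filter Topology
open Pool.Agent.W_7d29a1_C1.H54 Pool.Agent.W_7d29a1_C1.H77
open scoped ENNReal Classical

noncomputable section

/-! ### One pair -/

section one

variable {Ω Ω' : Type*} [MeasurableSpace Ω] [MeasurableSpace Ω'] {P : Measure Ω} {P' : Measure Ω'}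

/-- Many narrow windows. -/
def Nar {Z : Type*} (D : ℕ → Set Z) (m q : ℕ) : Set Z := {ω | q ≤ ((Finset.range m).filter fun i => ω ∉ D i).card}

theorem measurable_count {Z : Type*} [MeasurableSpace Z] {Y : ℕ → Set Z} {m : ℕ} (hY : ∀ i < m, MeasurableSet (Y i)) :
    Measurable fun ω => ((Finset.range m).filter fun i => ω ∈ Y i).card := by
  have e : (fun ω => ((Finset.range m).filter fun i => ω ∈ Y i).card) =
      fun ω => ∑ i ∈ Finset.range m, (if ω ∈ Y i then 1 else 0) := by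
    funext ω
    rw [Finset.card_filter]
  rw [e]
  exact Finset.measurable_sum _ fun i hi =>
    Measurable.ite (hY i (Finset.mem_range.1 hi)) measurable_const measurable_const

theorem measurableSet_Nar {Z : Type*} [MeasurableSpace Z] {D : ℕ → Set Z} {m q : ℕ} (hD : ∀ i < m, MeasurableSet (D i)) :
    MeasurableSet (Nar D m q) := by
  have h0 : Measurable fun ω => ((Finset.range m).filter fun i => ω ∉ D i).card := by
    have h1 := measurable_count (Y := fun i => (D i)ᶜ) fun i hi => (hD i hi).compl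
    convert h1 using 3
    ext i
    simp only [Finset.mem_filter, Set.mem_compl_iff]
  exact measurableSet_le measurable_const h0

omit [MeasurableSpace Ω] [MeasurableSpace Ω'] in
/-- Few wide windows of the pair: many narrow windows of one of the copies. -/
theorem wide_or {DD : ℕ → Set (Ω × Ω')} {D : ℕ → Set Ω} {D' : ℕ → Set Ω'} {m q n : ℕ} (hD : ∀ i < m, ∀ z : Ω × Ω', z.1 ∈ D i →
    z.2 ∈ D' i → z ∈ DD i) {z : Ω × Ω'} (h : ((Finset.range m).filter fun i => z ∈ DD i).card < n) (hq : n + 2 * q ≤ m + 1) :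
    z.1 ∈ Nar D m q ∨ z.2 ∈ Nar D' m q := by
  by_contra hc
  rw [not_or] at hc
  have c1 : ((Finset.range m).filter fun i => z.1 ∉ D i).card < q := not_le.1 hc.1
  have c2 : ((Finset.range m).filter fun i => z.2 ∉ D' i).card < q := not_le.1 hc.2
  have e2 : m ≤ ((Finset.range m).filter fun i => z ∈ DD i).card +
      (((Finset.range m).filter fun i => z.1 ∉ D i).card + ((Finset.range m).filter fun i => z.2 ∉ D' i).card) := by
    calc m = (Finset.range m).card := (Finset.card_range m).symm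
      _ ≤ (((Finset.range m).filter fun i => z ∈ DD i) ∪ (((Finset.range m).filter fun i => z.1 ∉ D i) ∪
          ((Finset.range m).filter fun i => z.2 ∉ D' i))).card := by
          refine Finset.card_le_card fun i hi => ?_
          by_cases a : z.1 ∈ D i
          · by_cases b : z.2 ∈ D' i
            · exact Finset.mem_union_left _ (Finset.mem_filter.2 ⟨hi, hD i (Finset.mem_range.1 hi) z a b⟩)
            · exact Finset.mem_union_right _ (Finset.mem_union_right _ (Finset.mem_filter.2 ⟨hi, b⟩))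
          · exact Finset.mem_union_right _ (Finset.mem_union_left _ (Finset.mem_filter.2 ⟨hi, a⟩))
      _ ≤ _ := (Finset.card_union_le _ _).trans (Nat.add_le_add_left (Finset.card_union_le _ _) _)
  omega

variable {f : Ω → ℝ≥0∞} {g : Ω' → ℝ≥0∞} {M m r q b : ℕ} {c e : ℝ≥0∞}

/-- **ONE PAIR OF CONTACTS, ALL THE CLASSES.** -/
theorem pair17 [IsProbabilityMeasure P] [IsProbabilityMeasure P'] {R : ℕ → ℕ → Ω × Ω' → Ω × Ω' → Ω × Ω'}
    {DD SS XX : ℕ → ℕ → Set (Ω × Ω')}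
    (h : ∀ s < M, ChData (P.prod P') m (R s) (DD s) (SS s) (XX s) (fun z => f z.1 * g z.2) c e) (hc : c ≠ ∞)
    (mf : Measurable f) (mg : Measurable g) (f1 : ∀ ω, f ω ≤ 1) (g1 : ∀ ω, g ω ≤ 1)
    {D : ℕ → ℕ → Set Ω} {D' : ℕ → ℕ → Set Ω'} (hD : ∀ s < M, ∀ i < m, ∀ z : Ω × Ω', z.1 ∈ D s i → z.2 ∈ D' s i → z ∈ DD s i)
    {cl : Ω × Ω' → ℕ} (mcl : Measurable cl) (hcl : ∀ z, cl z < M) {G : Set (Ω × Ω')}
    (hG : ∀ z ∈ G, ((Finset.range m).filter fun i => z ∈ XX (cl z) i).card ≤ b) (hq : b + r + 2 * q ≤ m + 1) :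
    ∫⁻ z in {z | ∀ i < m, z ∉ SS (cl z) i \ XX (cl z) i}, f z.1 * g z.2 ∂(P.prod P') ≤
      M * (((1 + c) ^ r)⁻¹ * ((∫⁻ ω, f ω ∂P) * (∫⁻ ω, g ω ∂P') + m * ((1 + c) ^ m * e))) +
        ((P.prod P') Gᶜ + ∑ s ∈ Finset.range M, ((∫⁻ ω in Nar (D s) m q, f ω ∂P) * (∫⁻ ω, g ω ∂P') +
          (∫⁻ ω, f ω ∂P) * ∫⁻ ω in Nar (D' s) m q, g ω ∂P')) := by
  have k := rest_cls h hc r (F := fun z : Ω × Ω' => f z.1 * g z.2) (C := 1) (fun z => by rw [one_mul]) mcl hcl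
  rw [one_mul, one_mul] at k
  have tot : ∫⁻ z, f z.1 * g z.2 ∂(P.prod P') = (∫⁻ ω, f ω ∂P) * ∫⁻ ω, g ω ∂P' :=
    lintegral_prod_mul mf.aemeasurable mg.aemeasurable
  rw [tot] at k
  refine k.trans (add_le_add le_rfl ?_)
  have pr : ∀ (A : Set Ω) (A' : Set Ω'), ∫⁻ z in A ×ˢ A', f z.1 * g z.2 ∂(P.prod P') =
      (∫⁻ ω in A, f ω ∂P) * ∫⁻ ω in A', g ω ∂P' := by
    intro A A'
    rw [← Measure.prod_restrict]
    exact lintegral_prod_mul mf.aemeasurable mg.aemeasurable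
  have sub : {z | z ∉ Bad (DD (cl z)) (SS (cl z)) (XX (cl z)) m r ∧ ∀ i < m, z ∉ SS (cl z) i \ XX (cl z) i} ⊆
      Gᶜ ∪ ⋃ s ∈ Finset.range M, ((Nar (D s) m q ×ˢ Set.univ) ∪ (Set.univ ×ˢ Nar (D' s) m q)) := by
    rintro z ⟨h1, h2⟩
    by_cases hz : z ∈ G
    · right
      have h3 := few_wide (b := b) h1 h2 (hG z hz)
      have h4 := wide_or (hD (cl z) (hcl z)) h3 hq
      refine Set.mem_biUnion (Finset.mem_range.2 (hcl z)) ?_
      rcases h4 with h4 | h4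
      · exact Or.inl ⟨h4, trivial⟩
      · exact Or.inr ⟨trivial, h4⟩
    · exact Or.inl hz
  refine (lintegral_mono_set sub).trans ((lintegral_union_le _ _ _).trans (add_le_add ?_ ?_))
  · calc ∫⁻ z in Gᶜ, f z.1 * g z.2 ∂(P.prod P') ≤ ∫⁻ _z in Gᶜ, 1 ∂(P.prod P') :=
          lintegral_mono fun z => mul_le_one' (f1 _) (g1 _)
      _ = _ := by simp
  · have key : ∀ J : Finset ℕ, ∫⁻ z in ⋃ s ∈ J, ((Nar (D s) m q ×ˢ Set.univ) ∪ (Set.univ ×ˢ Nar (D' s) m q)),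
        f z.1 * g z.2 ∂(P.prod P') ≤ ∑ s ∈ J, ((∫⁻ ω in Nar (D s) m q, f ω ∂P) * (∫⁻ ω, g ω ∂P') +
          (∫⁻ ω, f ω ∂P) * ∫⁻ ω in Nar (D' s) m q, g ω ∂P') := by
      intro J
      induction J using Finset.induction_on with
      | empty => simp
      | insert a J ha ih =>
        rw [Finset.set_biUnion_insert, Finset.sum_insert ha]
        refine (lintegral_union_le _ _ _).trans (add_le_add ?_ ih)
        refine (lintegral_union_le _ _ _).trans (le_of_eq ?_)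
        rw [pr, pr, Measure.restrict_univ, Measure.restrict_univ]
    exact key _

end one

/-! ### All the pairs -/

section all

variable {Ω Ω' : Type*} [MeasurableSpace Ω] [MeasurableSpace Ω'] {P : Measure Ω} {P' : Measure Ω'}
  {ι ι' : Type*} {I : Finset ι} {I' : Finset ι'} {f : ι → Ω → ℝ≥0∞} {g : ι' → Ω' → ℝ≥0∞} {M m r q b : ℕ}
  {c e τ ν : ℝ≥0∞}

/-- **ALL THE PAIRS, ALL THE CLASSES.** -/
theorem lec17 [IsProbabilityMeasure P] [IsProbabilityMeasure P']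
    {R : ι → ι' → ℕ → ℕ → Ω × Ω' → Ω × Ω' → Ω × Ω'} {DD SS XX : ι → ι' → ℕ → ℕ → Set (Ω × Ω')}
    (h : ∀ k ∈ I, ∀ k' ∈ I', ∀ s < M,
      ChData (P.prod P') m (R k k' s) (DD k k' s) (SS k k' s) (XX k k' s) (fun z => f k z.1 * g k' z.2) c e) (hc : c ≠ ∞)
    (mf : ∀ k ∈ I, Measurable (f k)) (mg : ∀ k ∈ I', Measurable (g k)) (f1 : ∀ ω, ∑ k ∈ I, f k ω ≤ 1)
    (g1 : ∀ ω, ∑ k ∈ I', g k ω ≤ 1)
    {D : ι → ℕ → ℕ → Set Ω} {D' : ι' → ℕ → ℕ → Set Ω'}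
    (hD : ∀ k ∈ I, ∀ k' ∈ I', ∀ s < M, ∀ i < m, ∀ z : Ω × Ω', z.1 ∈ D k s i → z.2 ∈ D' k' s i → z ∈ DD k k' s i)
    {cl : ι → ι' → Ω × Ω' → ℕ} (mcl : ∀ k ∈ I, ∀ k' ∈ I', Measurable (cl k k')) (hcl : ∀ k ∈ I, ∀ k' ∈ I', ∀ z, cl k k' z < M)
    {G : ι → ι' → Set (Ω × Ω')}
    (hG : ∀ k ∈ I, ∀ k' ∈ I', ∀ z ∈ G k k', ((Finset.range m).filter fun i => z ∈ XX k k' (cl k k' z) i).card ≤ b)
    (hq : b + r + 2 * q ≤ m + 1) (hτ : ∀ k ∈ I, ∀ k' ∈ I', (P.prod P') (G k k')ᶜ ≤ τ)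
    (hν : ∀ s < M, ∑ k ∈ I, ∫⁻ ω in Nar (D k s) m q, f k ω ∂P ≤ ν)
    (hν' : ∀ s < M, ∑ k ∈ I', ∫⁻ ω in Nar (D' k s) m q, g k ω ∂P' ≤ ν) :
    ∑ k ∈ I, ∑ k' ∈ I', ∫⁻ z in {z | ∀ i < m, z ∉ SS k k' (cl k k' z) i \ XX k k' (cl k k' z) i},
        f k z.1 * g k' z.2 ∂(P.prod P') ≤
      M * (((1 + c) ^ r)⁻¹ * (1 + I.card * I'.card * (m * ((1 + c) ^ m * e)))) + (I.card * I'.card * τ + 2 * (M * ν)) := by
  have fk : ∀ k ∈ I, ∀ ω, f k ω ≤ 1 := fun k hk ω =>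
    (Finset.single_le_sum (f := fun k => f k ω) (fun _ _ => zero_le) hk).trans (f1 ω)
  have gk : ∀ k ∈ I', ∀ ω, g k ω ≤ 1 := fun k hk ω =>
    (Finset.single_le_sum (f := fun k => g k ω) (fun _ _ => zero_le) hk).trans (g1 ω)
  have F1 : ∑ k ∈ I, ∫⁻ ω, f k ω ∂P ≤ 1 := by
    rw [← lintegral_finsetSum' _ fun k hk => (mf k hk).aemeasurable]
    calc ∫⁻ ω, ∑ k ∈ I, f k ω ∂P ≤ ∫⁻ _ω, 1 ∂P := lintegral_mono f1
      _ = 1 := by simp
  have G1 : ∑ k ∈ I', ∫⁻ ω, g k ω ∂P' ≤ 1 := by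
    rw [← lintegral_finsetSum' _ fun k hk => (mg k hk).aemeasurable]
    calc ∫⁻ ω, ∑ k ∈ I', g k ω ∂P' ≤ ∫⁻ _ω, 1 ∂P' := lintegral_mono g1
      _ = 1 := by simp
  calc _ ≤ ∑ k ∈ I, ∑ k' ∈ I', (M * (((1 + c) ^ r)⁻¹ * ((∫⁻ ω, f k ω ∂P) * (∫⁻ ω, g k' ω ∂P') + m * ((1 + c) ^ m * e))) +
        (τ + ∑ s ∈ Finset.range M, ((∫⁻ ω in Nar (D k s) m q, f k ω ∂P) * (∫⁻ ω, g k' ω ∂P') +
          (∫⁻ ω, f k ω ∂P) * ∫⁻ ω in Nar (D' k' s) m q, g k' ω ∂P'))) := by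
        refine Finset.sum_le_sum fun k hk => Finset.sum_le_sum fun k' hk' => ?_
        refine (pair17 (h k hk k' hk') hc (mf k hk) (mg k' hk') (fk k hk) (gk k' hk') (hD k hk k' hk') (mcl k hk k' hk')
          (hcl k hk k' hk') (hG k hk k' hk') hq).trans ?_
        exact add_le_add le_rfl (add_le_add (hτ k hk k' hk') le_rfl)
    _ = M * (((1 + c) ^ r)⁻¹ * ((∑ k ∈ I, ∫⁻ ω, f k ω ∂P) * (∑ k' ∈ I', ∫⁻ ω, g k' ω ∂P') +
          I.card * I'.card * (m * ((1 + c) ^ m * e)))) +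
        (I.card * I'.card * τ + ∑ s ∈ Finset.range M, ((∑ k ∈ I, ∫⁻ ω in Nar (D k s) m q, f k ω ∂P) *
          (∑ k' ∈ I', ∫⁻ ω, g k' ω ∂P') + (∑ k ∈ I, ∫⁻ ω, f k ω ∂P) * ∑ k' ∈ I', ∫⁻ ω in Nar (D' k' s) m q, g k' ω ∂P')) := by
        have e1 : ∑ k ∈ I, ∑ k' ∈ I', ∑ s ∈ Finset.range M, ((∫⁻ ω in Nar (D k s) m q, f k ω ∂P) * (∫⁻ ω, g k' ω ∂P') +
            (∫⁻ ω, f k ω ∂P) * ∫⁻ ω in Nar (D' k' s) m q, g k' ω ∂P') =
            ∑ s ∈ Finset.range M, ((∑ k ∈ I, ∫⁻ ω in Nar (D k s) m q, f k ω ∂P) *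
          (∑ k' ∈ I', ∫⁻ ω, g k' ω ∂P') + (∑ k ∈ I, ∫⁻ ω, f k ω ∂P) * ∑ k' ∈ I', ∫⁻ ω in Nar (D' k' s) m q, g k' ω ∂P') := by
          rw [Finset.sum_congr rfl fun k _ => Finset.sum_comm, Finset.sum_comm]
          refine Finset.sum_congr rfl fun s _ => ?_
          simp only [Finset.sum_add_distrib, ← Finset.mul_sum, ← Finset.sum_mul]
        simp only [Finset.sum_add_distrib, ← Finset.mul_sum, ← Finset.sum_mul, Finset.sum_const, nsmul_eq_mul] at e1 ⊢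
        rw [e1]
        ring
    _ ≤ M * (((1 + c) ^ r)⁻¹ * (1 * 1 + I.card * I'.card * (m * ((1 + c) ^ m * e)))) +
        (I.card * I'.card * τ + ∑ s ∈ Finset.range M, (ν * 1 + 1 * ν)) := by
        gcongr with s hs
        · exact hν s (Finset.mem_range.1 hs)
        · exact hν' s (Finset.mem_range.1 hs)
    _ = _ := by
        rw [Finset.sum_const, Finset.card_range, nsmul_eq_mul]
        ring

/-! ### Many narrow windows -/

omit [MeasurableSpace Ω'] in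
/-- **MANY NARROW WINDOWS, from the covered blocks (weight) and the untame blocks (probability).** -/
theorem nar17 {Cov Unt : ι → Ω → Finset ℕ} {D : ι → ℕ → Set Ω} {l₀ lm q₁ q₂ : ℕ} {a : ℕ → ℕ} (ha : Monotone a)
    (h1 : ∀ l, l₀ ≤ l → 2 * a l + 1 ≤ l) (hl : 3 ≤ l₀)
    (hD : ∀ k ∈ I, ∀ i < m, ∀ ω, Usable (Cov k ω ∪ Unt k ω) m l₀ lm a i → ω ∈ D k i)
    (hq : 2 * q₁ + 2 * q₂ + 2 * a lm ≤ q + 3) (f1 : ∀ k ∈ I, ∀ ω, f k ω ≤ 1) {ν₁ τ₂ : ℝ≥0∞}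
    (hC : ∑ k ∈ I, ∫⁻ ω in {ω | q₁ ≤ (Cov k ω).card}, f k ω ∂P ≤ ν₁) (hU : ∀ k ∈ I, P {ω | q₂ ≤ (Unt k ω).card} ≤ τ₂) :
    ∑ k ∈ I, ∫⁻ ω in Nar (D k) m q, f k ω ∂P ≤ ν₁ + I.card * τ₂ := by
  have sub : ∀ k ∈ I, Nar (D k) m q ⊆ {ω | q₁ ≤ (Cov k ω).card} ∪ {ω | q₂ ≤ (Unt k ω).card} := by
    intro k hk ω hω
    by_contra hc
    simp only [Set.mem_union, Set.mem_ofPred_eq, not_or, not_le] at hc
    have hω' : q ≤ ((Finset.range m).filter fun i => ω ∉ D k i).card := hω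
    have n1 := not_usable (m := m) (l₀ := l₀) (lm := lm) ha h1 hl (Cov k ω ∪ Unt k ω)
    have n2 := Finset.card_union_le (Cov k ω) (Unt k ω)
    have n3 : ((Finset.range m).filter fun i => ω ∉ D k i).card ≤
        ((Finset.range (m - 2 * a lm)).filter fun i => ¬ Usable (Cov k ω ∪ Unt k ω) m l₀ lm a i).card + 2 * a lm := by
      calc _ ≤ (((Finset.range (m - 2 * a lm)).filter fun i => ¬ Usable (Cov k ω ∪ Unt k ω) m l₀ lm a i) ∪
            Finset.Ico (m - 2 * a lm) m).card := by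
            refine Finset.card_le_card fun i hi => ?_
            obtain ⟨h2, h3⟩ := Finset.mem_filter.1 hi
            have h4 := Finset.mem_range.1 h2
            by_cases h5 : i < m - 2 * a lm
            · refine Finset.mem_union_left _ (Finset.mem_filter.2 ⟨Finset.mem_range.2 h5, fun h6 => h3 (hD k hk i h4 ω h6)⟩)
            · exact Finset.mem_union_right _ (Finset.mem_Ico.2 ⟨not_lt.1 h5, h4⟩)
        _ ≤ _ := (Finset.card_union_le _ _).trans (by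
            rw [Nat.card_Ico]
            omega)
    omega
  calc _ ≤ ∑ k ∈ I, (∫⁻ ω in {ω | q₁ ≤ (Cov k ω).card}, f k ω ∂P + τ₂) := by
        refine Finset.sum_le_sum fun k hk => ?_
        refine (lintegral_mono_set (sub k hk)).trans ((lintegral_union_le _ _ _).trans (add_le_add le_rfl ?_))
        calc ∫⁻ ω in {ω | q₂ ≤ (Unt k ω).card}, f k ω ∂P ≤ ∫⁻ _ω in {ω | q₂ ≤ (Unt k ω).card}, 1 ∂P :=
              lintegral_mono (f1 k hk)
          _ = P {ω | q₂ ≤ (Unt k ω).card} := by simp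
          _ ≤ τ₂ := hU k hk
    _ = ∑ k ∈ I, ∫⁻ ω in {ω | q₁ ≤ (Cov k ω).card}, f k ω ∂P + I.card * τ₂ := by
        rw [Finset.sum_add_distrib, Finset.sum_const, nsmul_eq_mul]
    _ ≤ _ := add_le_add hC le_rfl

end all

/-! ### Generic form: any bound of the bad pairs of one class -/

section gen

variable {Ω Ω' : Type*} [MeasurableSpace Ω] [MeasurableSpace Ω'] {P : Measure Ω} {P' : Measure Ω'}
  {ι ι' : Type*} {I : Finset ι} {I' : Finset ι'} {f : ι → Ω → ℝ≥0∞} {g : ι' → Ω' → ℝ≥0∞} {M m r q b : ℕ}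
  {τ ν β : ℝ≥0∞}

/-- No success, although there are `r` more wide windows than abnormal blocks. -/
def Bd {Z : Type*} (J D X : ℕ → Set Z) (m r : ℕ) : Set Z :=
  {z | (∀ i < m, z ∉ J i) ∧ ((Finset.range m).filter fun i => z ∈ X i).card + r ≤
    ((Finset.range m).filter fun i => z ∈ D i).card}

/-- `Bad` of the chain is the case `J = S \ X`. -/
theorem Bad_eq {Z : Type*} (D S X : ℕ → Set Z) (m r : ℕ) : Bad D S X m r = Bd (fun i => S i \ X i) D X m r := by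
  ext z
  unfold Bad Bd
  simp only [Set.mem_ofPred_eq, Set.mem_sdiff, not_and, not_not]

omit [MeasurableSpace Ω] [MeasurableSpace Ω'] in
theorem sub_gen {J DD XX : ℕ → ℕ → Set (Ω × Ω')} {D : ℕ → ℕ → Set Ω} {D' : ℕ → ℕ → Set Ω'}
    (hD : ∀ s < M, ∀ i < m, ∀ z : Ω × Ω', z.1 ∈ D s i → z.2 ∈ D' s i → z ∈ DD s i)
    {cl : Ω × Ω' → ℕ} (hcl : ∀ z, cl z < M) {G : Set (Ω × Ω')}
    (hG : ∀ z ∈ G, ((Finset.range m).filter fun i => z ∈ XX (cl z) i).card ≤ b) (hq : b + r + 2 * q ≤ m + 1) :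
    {z | ∀ i < m, z ∉ J (cl z) i} ⊆ (⋃ s ∈ Finset.range M, Bd (J s) (DD s) (XX s) m r) ∪
      (Gᶜ ∪ ⋃ s ∈ Finset.range M, ((Nar (D s) m q ×ˢ Set.univ) ∪ (Set.univ ×ˢ Nar (D' s) m q))) := by
  intro z hz
  by_cases hb : z ∈ Bd (J (cl z)) (DD (cl z)) (XX (cl z)) m r
  · exact Or.inl (Set.mem_biUnion (Finset.mem_range.2 (hcl z)) hb)
  right
  by_cases hg : z ∈ G
  · right
    have h3 : ((Finset.range m).filter fun i => z ∈ DD (cl z) i).card < b + r := by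
      by_contra hc
      refine hb ⟨hz, ?_⟩
      have := hG z hg
      omega
    have h4 := wide_or (hD (cl z) (hcl z)) h3 hq
    refine Set.mem_biUnion (Finset.mem_range.2 (hcl z)) ?_
    rcases h4 with h4 | h4
    · exact Or.inl ⟨h4, trivial⟩
    · exact Or.inr ⟨trivial, h4⟩
  · exact Or.inl hg

/-- **ALL THE PAIRS, ALL THE CLASSES, from any bound `β` of the bad pairs of one class.** -/
theorem gen17 [IsProbabilityMeasure P] [IsProbabilityMeasure P'] (mf : ∀ k ∈ I, Measurable (f k))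
    (mg : ∀ k ∈ I', Measurable (g k)) (f1 : ∀ ω, ∑ k ∈ I, f k ω ≤ 1) (g1 : ∀ ω, ∑ k ∈ I', g k ω ≤ 1)
    {J DD XX : ι → ι' → ℕ → ℕ → Set (Ω × Ω')}
    (hβ : ∀ s < M, ∑ k ∈ I, ∑ k' ∈ I', ∫⁻ z in Bd (J k k' s) (DD k k' s) (XX k k' s) m r, f k z.1 * g k' z.2 ∂(P.prod P') ≤ β)
    {D : ι → ℕ → ℕ → Set Ω} {D' : ι' → ℕ → ℕ → Set Ω'}
    (hD : ∀ k ∈ I, ∀ k' ∈ I', ∀ s < M, ∀ i < m, ∀ z : Ω × Ω', z.1 ∈ D k s i → z.2 ∈ D' k' s i → z ∈ DD k k' s i)
    {cl : ι → ι' → Ω × Ω' → ℕ} (hcl : ∀ k ∈ I, ∀ k' ∈ I', ∀ z, cl k k' z < M)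
    {G : ι → ι' → Set (Ω × Ω')}
    (hG : ∀ k ∈ I, ∀ k' ∈ I', ∀ z ∈ G k k', ((Finset.range m).filter fun i => z ∈ XX k k' (cl k k' z) i).card ≤ b)
    (hq : b + r + 2 * q ≤ m + 1) (hτ : ∀ k ∈ I, ∀ k' ∈ I', (P.prod P') (G k k')ᶜ ≤ τ)
    (hν : ∀ s < M, ∑ k ∈ I, ∫⁻ ω in Nar (D k s) m q, f k ω ∂P ≤ ν)
    (hν' : ∀ s < M, ∑ k ∈ I', ∫⁻ ω in Nar (D' k s) m q, g k ω ∂P' ≤ ν) :
    ∑ k ∈ I, ∑ k' ∈ I', ∫⁻ z in {z | ∀ i < m, z ∉ J k k' (cl k k' z) i}, f k z.1 * g k' z.2 ∂(P.prod P') ≤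
      M * β + (I.card * I'.card * τ + 2 * (M * ν)) := by
  have fk : ∀ k ∈ I, ∀ ω, f k ω ≤ 1 := fun k hk ω =>
    (Finset.single_le_sum (f := fun k => f k ω) (fun _ _ => zero_le) hk).trans (f1 ω)
  have gk : ∀ k ∈ I', ∀ ω, g k ω ≤ 1 := fun k hk ω =>
    (Finset.single_le_sum (f := fun k => g k ω) (fun _ _ => zero_le) hk).trans (g1 ω)
  have F1 : ∑ k ∈ I, ∫⁻ ω, f k ω ∂P ≤ 1 := by
    rw [← lintegral_finsetSum' _ fun k hk => (mf k hk).aemeasurable]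
    calc ∫⁻ ω, ∑ k ∈ I, f k ω ∂P ≤ ∫⁻ _ω, 1 ∂P := lintegral_mono f1
      _ = 1 := by simp
  have G1 : ∑ k ∈ I', ∫⁻ ω, g k ω ∂P' ≤ 1 := by
    rw [← lintegral_finsetSum' _ fun k hk => (mg k hk).aemeasurable]
    calc ∫⁻ ω, ∑ k ∈ I', g k ω ∂P' ≤ ∫⁻ _ω, 1 ∂P' := lintegral_mono g1
      _ = 1 := by simp
  have un : ∀ (S : Finset ℕ) (A : ℕ → Set (Ω × Ω')) (W : Ω × Ω' → ℝ≥0∞),
      ∫⁻ z in ⋃ s ∈ S, A s, W z ∂(P.prod P') ≤ ∑ s ∈ S, ∫⁻ z in A s, W z ∂(P.prod P') := by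
    intro S A W
    induction S using Finset.induction_on with
    | empty => simp
    | insert a S ha ih =>
      rw [Finset.set_biUnion_insert, Finset.sum_insert ha]
      exact (lintegral_union_le _ _ _).trans (add_le_add le_rfl ih)
  have pr : ∀ k ∈ I, ∀ k' ∈ I', ∀ (A : Set Ω) (A' : Set Ω'), ∫⁻ z in A ×ˢ A', f k z.1 * g k' z.2 ∂(P.prod P') =
      (∫⁻ ω in A, f k ω ∂P) * ∫⁻ ω in A', g k' ω ∂P' := by
    intro k hk k' hk' A A'
    rw [← Measure.prod_restrict]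
    exact lintegral_prod_mul (mf k hk).aemeasurable (mg k' hk').aemeasurable
  calc _ ≤ ∑ k ∈ I, ∑ k' ∈ I', (∑ s ∈ Finset.range M,
        ∫⁻ z in Bd (J k k' s) (DD k k' s) (XX k k' s) m r, f k z.1 * g k' z.2 ∂(P.prod P') +
        (τ + ∑ s ∈ Finset.range M, ((∫⁻ ω in Nar (D k s) m q, f k ω ∂P) * (∫⁻ ω, g k' ω ∂P') +
          (∫⁻ ω, f k ω ∂P) * ∫⁻ ω in Nar (D' k' s) m q, g k' ω ∂P'))) := by
        refine Finset.sum_le_sum fun k hk => Finset.sum_le_sum fun k' hk' => ?_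
        refine (lintegral_mono_set (sub_gen (J := J k k') (hD k hk k' hk') (hcl k hk k' hk') (hG k hk k' hk') hq)).trans ?_
        refine (lintegral_union_le _ _ _).trans (add_le_add (un _ _ _) ?_)
        refine (lintegral_union_le _ _ _).trans (add_le_add ?_ ?_)
        · calc ∫⁻ z in (G k k')ᶜ, f k z.1 * g k' z.2 ∂(P.prod P') ≤ ∫⁻ _z in (G k k')ᶜ, 1 ∂(P.prod P') :=
                lintegral_mono fun z => mul_le_one' (fk k hk _) (gk k' hk' _)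
            _ = (P.prod P') (G k k')ᶜ := by simp
            _ ≤ τ := hτ k hk k' hk'
        · refine (un _ _ _).trans (Finset.sum_le_sum fun s _ => (lintegral_union_le _ _ _).trans (le_of_eq ?_))
          rw [pr k hk k' hk', pr k hk k' hk', Measure.restrict_univ, Measure.restrict_univ]
    _ = ∑ s ∈ Finset.range M, ∑ k ∈ I, ∑ k' ∈ I',
          ∫⁻ z in Bd (J k k' s) (DD k k' s) (XX k k' s) m r, f k z.1 * g k' z.2 ∂(P.prod P') +
        (I.card * I'.card * τ + ∑ s ∈ Finset.range M, ((∑ k ∈ I, ∫⁻ ω in Nar (D k s) m q, f k ω ∂P) *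
          (∑ k' ∈ I', ∫⁻ ω, g k' ω ∂P') + (∑ k ∈ I, ∫⁻ ω, f k ω ∂P) * ∑ k' ∈ I', ∫⁻ ω in Nar (D' k' s) m q, g k' ω ∂P')) := by
        have e0 : ∀ F : ι → ι' → ℕ → ℝ≥0∞, ∑ k ∈ I, ∑ k' ∈ I', ∑ s ∈ Finset.range M, F k k' s =
            ∑ s ∈ Finset.range M, ∑ k ∈ I, ∑ k' ∈ I', F k k' s := by
          intro F
          rw [Finset.sum_congr rfl fun k _ => Finset.sum_comm, Finset.sum_comm]
        have e1 : ∑ k ∈ I, ∑ k' ∈ I', ∑ s ∈ Finset.range M, ((∫⁻ ω in Nar (D k s) m q, f k ω ∂P) * (∫⁻ ω, g k' ω ∂P') +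
            (∫⁻ ω, f k ω ∂P) * ∫⁻ ω in Nar (D' k' s) m q, g k' ω ∂P') =
            ∑ s ∈ Finset.range M, ((∑ k ∈ I, ∫⁻ ω in Nar (D k s) m q, f k ω ∂P) *
          (∑ k' ∈ I', ∫⁻ ω, g k' ω ∂P') + (∑ k ∈ I, ∫⁻ ω, f k ω ∂P) * ∑ k' ∈ I', ∫⁻ ω in Nar (D' k' s) m q, g k' ω ∂P') := by
          rw [e0]
          refine Finset.sum_congr rfl fun s _ => ?_
          simp only [Finset.sum_add_distrib, ← Finset.mul_sum, ← Finset.sum_mul]
        have e2 : ∑ k ∈ I, ∑ k' ∈ I', τ = I.card * I'.card * τ := by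
          simp only [Finset.sum_const, nsmul_eq_mul]
          ring
        rw [← e1, ← e0, ← e2]
        simp only [← Finset.sum_add_distrib]
    _ ≤ ∑ s ∈ Finset.range M, β + (I.card * I'.card * τ + ∑ s ∈ Finset.range M, (ν * 1 + 1 * ν)) := by
        gcongr with s hs s hs
        · exact hβ s (Finset.mem_range.1 hs)
        · exact hν s (Finset.mem_range.1 hs)
        · exact hν' s (Finset.mem_range.1 hs)
    _ = _ := by
        rw [Finset.sum_const, Finset.sum_const, Finset.card_range, nsmul_eq_mul, nsmul_eq_mul]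
        ring

end gen

end

end Pool.Agent.W_7d29a1_C1.Lec17
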