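import Pool.Agent.W_7d29a1_C1.Lec17

/-!
Both halves (MP_7d29a1_pr), attractor route: the pairs without joint success, real numbers and exponents (helper17).

`lecR17`: `lec17` for real weights, in the form of the assembly (complement of the sets `AA` of the outermost success of the chosen
class). `num17`: the exponents.
-/

set_option autoImplicit false

namespace Pool.Agent.W_7d29a1_C1.Lec17

open MeasureTheory Filter Topology
open Pool.Agent.W_7d29a1_C1.H54 Pool.Agent.W_7d29a1_C1.H77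
open scoped ENNReal Classical

noncomputable section

/-- The bound. -/
def BB (M m r p p' : ℕ) (c e τ ν : ℝ) : ℝ :=
  M * (((1 + c) ^ r)⁻¹ * (1 + p * p' * (m * ((1 + c) ^ m * e)))) + (p * p' * τ + 2 * (M * ν))

theorem ofReal_BB {M m r p p' : ℕ} {c e τ ν : ℝ} (hc : 0 ≤ c) (he : 0 ≤ e) (hτ : 0 ≤ τ) (hν : 0 ≤ ν) :
    (M : ℝ≥0∞) * (((1 + ENNReal.ofReal c) ^ r)⁻¹ * (1 + p * p' * (m * ((1 + ENNReal.ofReal c) ^ m * ENNReal.ofReal e)))) +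
      (p * p' * ENNReal.ofReal τ + 2 * (M * ENNReal.ofReal ν)) = ENNReal.ofReal (BB M m r p p' c e τ ν) := by
  unfold BB
  have h1 : 1 + ENNReal.ofReal c = ENNReal.ofReal (1 + c) := by rw [ENNReal.ofReal_add zero_le_one hc, ENNReal.ofReal_one]
  have hp : 0 < (1 + c) ^ r := by positivity
  rw [h1, ← ENNReal.ofReal_pow (by positivity), ← ENNReal.ofReal_pow (by positivity), ← ENNReal.ofReal_inv_of_pos hp,
    ENNReal.ofReal_add (by positivity) (by positivity), ENNReal.ofReal_mul (by positivity), ENNReal.ofReal_mul (by positivity),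
    ENNReal.ofReal_add (by positivity) (by positivity), ENNReal.ofReal_mul (by positivity), ENNReal.ofReal_mul (by positivity),
    ENNReal.ofReal_mul (by positivity), ENNReal.ofReal_mul (by positivity),
    ENNReal.ofReal_add (by positivity) (by positivity), ENNReal.ofReal_mul (by positivity), ENNReal.ofReal_mul (by positivity),
    ENNReal.ofReal_mul (by positivity), ENNReal.ofReal_mul (by positivity)]
  simp only [ENNReal.ofReal_natCast, ENNReal.ofReal_one, ENNReal.ofReal_ofNat]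

section

variable {Ω : Type*} [MeasurableSpace Ω] {P : Measure Ω} {ι ι' : Type*} {T : Finset ι} {T' : Finset ι'}
  {w : ι → Ω → ℝ} {w' : ι' → Ω → ℝ} {M m r q b : ℕ} {c e τ ν : ℝ}

/-- Real integral over a set of a product of weights. -/
theorem toReal17 [IsProbabilityMeasure P] {u v : Ω → ℝ} (mu : Measurable u) (mv : Measurable v) (u0 : ∀ ω, 0 ≤ u ω)
    (v0 : ∀ ω, 0 ≤ v ω) (A : Set (Ω × Ω)) :
    ∫ z in A, u z.1 * v z.2 ∂(P.prod P) =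
      (∫⁻ z in A, ENNReal.ofReal (u z.1) * ENNReal.ofReal (v z.2) ∂(P.prod P)).toReal := by
  rw [integral_eq_lintegral_of_nonneg_ae (Filter.Eventually.of_forall fun z => mul_nonneg (u0 _) (v0 _))
    ((mu.comp measurable_fst).mul (mv.comp measurable_snd)).aestronglyMeasurable]
  congr 1
  exact lintegral_congr fun z => ENNReal.ofReal_mul (u0 _)

omit [MeasurableSpace Ω] in
theorem sumof17 {κ : Type*} {S : Finset κ} {v : κ → Ω → ℝ} (v0 : ∀ k ∈ S, ∀ ω, 0 ≤ v k ω) (v1 : ∀ ω, ∑ k ∈ S, v k ω ≤ 1)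
    (ω : Ω) : ∑ k ∈ S, ENNReal.ofReal (v k ω) ≤ 1 := by
  rw [← ENNReal.ofReal_sum_of_nonneg fun k hk => v0 k hk ω]
  exact ENNReal.ofReal_le_one.2 (v1 ω)

/-- **ALL THE PAIRS, ALL THE CLASSES, real weights, form of the assembly.** -/
theorem lecR17 [IsProbabilityMeasure P] (hm : 0 < m)
    {R : ι → ι' → ℕ → ℕ → Ω × Ω → Ω × Ω → Ω × Ω} {DD SS XX : ι → ι' → ℕ → ℕ → Set (Ω × Ω)}
    (h : ∀ k ∈ T, ∀ k' ∈ T', ∀ s < M, ChData (P.prod P) m (R k k' s) (DD k k' s) (SS k k' s) (XX k k' s)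
      (fun z => ENNReal.ofReal (w k z.1) * ENNReal.ofReal (w' k' z.2)) (ENNReal.ofReal c) (ENNReal.ofReal e))
    (mw : ∀ k ∈ T, Measurable (w k)) (mw' : ∀ k ∈ T', Measurable (w' k)) (w0 : ∀ k ∈ T, ∀ ω, 0 ≤ w k ω)
    (w0' : ∀ k ∈ T', ∀ ω, 0 ≤ w' k ω) (w1 : ∀ ω, ∑ k ∈ T, w k ω ≤ 1) (w1' : ∀ ω, ∑ k ∈ T', w' k ω ≤ 1)
    {D : ι → ℕ → ℕ → Set Ω} {D' : ι' → ℕ → ℕ → Set Ω}
    (hD : ∀ k ∈ T, ∀ k' ∈ T', ∀ s < M, ∀ i < m, ∀ z : Ω × Ω, z.1 ∈ D k s i → z.2 ∈ D' k' s i → z ∈ DD k k' s i)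
    {cl : ι → ι' → Ω × Ω → ℕ} (mcl : ∀ k ∈ T, ∀ k' ∈ T', Measurable (cl k k')) (hcl : ∀ k ∈ T, ∀ k' ∈ T', ∀ z, cl k k' z < M)
    {G : ι → ι' → Set (Ω × Ω)}
    (hG : ∀ k ∈ T, ∀ k' ∈ T', ∀ z ∈ G k k', ((Finset.range m).filter fun i => z ∈ XX k k' (cl k k' z) i).card ≤ b)
    (hq : b + r + 2 * q ≤ m + 1) (hc : 0 ≤ c) (he : 0 ≤ e) (hτ0 : 0 ≤ τ) (hν0 : 0 ≤ ν)
    (hτ : ∀ k ∈ T, ∀ k' ∈ T', (P.prod P) (G k k')ᶜ ≤ ENNReal.ofReal τ)
    (hν : ∀ s < M, ∑ k ∈ T, ∫⁻ ω in Nar (D k s) m q, ENNReal.ofReal (w k ω) ∂P ≤ ENNReal.ofReal ν)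
    (hν' : ∀ s < M, ∑ k ∈ T', ∫⁻ ω in Nar (D' k s) m q, ENNReal.ofReal (w' k ω) ∂P ≤ ENNReal.ofReal ν) :
    ∑ k ∈ T, ∑ k' ∈ T', ∫ z in (⋃ l ∈ Finset.range (M * m), AA (cl k k') (fun s i => SS k k' s i \ XX k k' s i) m l)ᶜ,
        w k z.1 * w' k' z.2 ∂(P.prod P) ≤ BB M m r T.card T'.card c e τ ν := by
  have F1 := sumof17 w0 w1
  have G1 := sumof17 w0' w1'
  have key := lec17 (c := ENNReal.ofReal c) (e := ENNReal.ofReal e) (τ := ENNReal.ofReal τ) (ν := ENNReal.ofReal ν)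
    (f := fun k ω => ENNReal.ofReal (w k ω)) (g := fun k ω => ENNReal.ofReal (w' k ω)) (q := q) (b := b) (r := r)
    h ENNReal.ofReal_ne_top (fun k hk => (mw k hk).ennreal_ofReal) (fun k hk => (mw' k hk).ennreal_ofReal) F1 G1 hD mcl hcl hG
    hq hτ hν hν'
  rw [ofReal_BB hc he hτ0 hν0] at key
  have fin : ∀ k ∈ T, ∀ k' ∈ T', ∀ A : Set (Ω × Ω),
      ∫⁻ z in A, ENNReal.ofReal (w k z.1) * ENNReal.ofReal (w' k' z.2) ∂(P.prod P) ≠ ∞ := by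
    intro k hk k' hk' A
    have h1 : ∀ ω, ENNReal.ofReal (w k ω) ≤ 1 := fun ω =>
      (Finset.single_le_sum (f := fun k => ENNReal.ofReal (w k ω)) (fun _ _ => zero_le) hk).trans (F1 ω)
    have h2 : ∀ ω, ENNReal.ofReal (w' k' ω) ≤ 1 := fun ω =>
      (Finset.single_le_sum (f := fun k => ENNReal.ofReal (w' k ω)) (fun _ _ => zero_le) hk').trans (G1 ω)
    refine ne_top_of_le_ne_top ENNReal.one_ne_top ?_
    calc _ ≤ ∫⁻ z, ENNReal.ofReal (w k z.1) * ENNReal.ofReal (w' k' z.2) ∂(P.prod P) := setLIntegral_le_lintegral _ _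
      _ ≤ ∫⁻ _z, 1 ∂(P.prod P) := lintegral_mono fun z => mul_le_one' (h1 _) (h2 _)
      _ = 1 := by simp
  have e1 : ∑ k ∈ T, ∑ k' ∈ T', ∫ z in (⋃ l ∈ Finset.range (M * m), AA (cl k k') (fun s i => SS k k' s i \ XX k k' s i) m l)ᶜ,
        w k z.1 * w' k' z.2 ∂(P.prod P) =
      (∑ k ∈ T, ∑ k' ∈ T', ∫⁻ z in {z | ∀ i < m, z ∉ SS k k' (cl k k' z) i \ XX k k' (cl k k' z) i},
        ENNReal.ofReal (w k z.1) * ENNReal.ofReal (w' k' z.2) ∂(P.prod P)).toReal := by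
    rw [ENNReal.toReal_sum fun k hk => ENNReal.sum_ne_top.2 fun k' hk' => fin k hk k' hk' _]
    refine Finset.sum_congr rfl fun k hk => ?_
    rw [ENNReal.toReal_sum fun k' hk' => fin k hk k' hk' _]
    refine Finset.sum_congr rfl fun k' hk' => ?_
    rw [compl_AA hm (hcl k hk k' hk'), toReal17 (mw k hk) (mw' k' hk') (w0 k hk) (w0' k' hk')]
  rw [e1]
  have B0 : 0 ≤ BB M m r T.card T'.card c e τ ν := by
    unfold BB
    positivity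
  exact ENNReal.toReal_le_of_le_ofReal B0 key

/-- **ALL THE PAIRS, ALL THE CLASSES, real weights, generic form** (`J` = the success, any bound `β` of the bad pairs of a class). -/
theorem genR17 [IsProbabilityMeasure P] (hm : 0 < m) {β : ℝ} (mw : ∀ k ∈ T, Measurable (w k)) (mw' : ∀ k ∈ T', Measurable (w' k))
    (w0 : ∀ k ∈ T, ∀ ω, 0 ≤ w k ω) (w0' : ∀ k ∈ T', ∀ ω, 0 ≤ w' k ω) (w1 : ∀ ω, ∑ k ∈ T, w k ω ≤ 1)
    (w1' : ∀ ω, ∑ k ∈ T', w' k ω ≤ 1) {J DD XX : ι → ι' → ℕ → ℕ → Set (Ω × Ω)}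
    (hβ : ∀ s < M, ∑ k ∈ T, ∑ k' ∈ T', ∫⁻ z in Bd (J k k' s) (DD k k' s) (XX k k' s) m r,
      ENNReal.ofReal (w k z.1) * ENNReal.ofReal (w' k' z.2) ∂(P.prod P) ≤ ENNReal.ofReal β)
    {D : ι → ℕ → ℕ → Set Ω} {D' : ι' → ℕ → ℕ → Set Ω}
    (hD : ∀ k ∈ T, ∀ k' ∈ T', ∀ s < M, ∀ i < m, ∀ z : Ω × Ω, z.1 ∈ D k s i → z.2 ∈ D' k' s i → z ∈ DD k k' s i)
    {cl : ι → ι' → Ω × Ω → ℕ} (hcl : ∀ k ∈ T, ∀ k' ∈ T', ∀ z, cl k k' z < M)
    {G : ι → ι' → Set (Ω × Ω)}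
    (hG : ∀ k ∈ T, ∀ k' ∈ T', ∀ z ∈ G k k', ((Finset.range m).filter fun i => z ∈ XX k k' (cl k k' z) i).card ≤ b)
    (hq : b + r + 2 * q ≤ m + 1) (hβ0 : 0 ≤ β) (hτ0 : 0 ≤ τ) (hν0 : 0 ≤ ν)
    (hτ : ∀ k ∈ T, ∀ k' ∈ T', (P.prod P) (G k k')ᶜ ≤ ENNReal.ofReal τ)
    (hν : ∀ s < M, ∑ k ∈ T, ∫⁻ ω in Nar (D k s) m q, ENNReal.ofReal (w k ω) ∂P ≤ ENNReal.ofReal ν)
    (hν' : ∀ s < M, ∑ k ∈ T', ∫⁻ ω in Nar (D' k s) m q, ENNReal.ofReal (w' k ω) ∂P ≤ ENNReal.ofReal ν) :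
    ∑ k ∈ T, ∑ k' ∈ T', ∫ z in (⋃ l ∈ Finset.range (M * m), AA (cl k k') (J k k') m l)ᶜ,
        w k z.1 * w' k' z.2 ∂(P.prod P) ≤ M * β + (T.card * T'.card * τ + 2 * (M * ν)) := by
  have F1 := sumof17 w0 w1
  have G1 := sumof17 w0' w1'
  have key := gen17 (β := ENNReal.ofReal β) (τ := ENNReal.ofReal τ) (ν := ENNReal.ofReal ν) (J := J)
    (f := fun k ω => ENNReal.ofReal (w k ω)) (g := fun k ω => ENNReal.ofReal (w' k ω)) (q := q) (b := b) (r := r)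
    (fun k hk => (mw k hk).ennreal_ofReal) (fun k hk => (mw' k hk).ennreal_ofReal) F1 G1 hβ hD hcl hG hq hτ hν hν'
  have e0 : (M : ℝ≥0∞) * ENNReal.ofReal β + (T.card * T'.card * ENNReal.ofReal τ + 2 * (M * ENNReal.ofReal ν)) =
      ENNReal.ofReal (M * β + (T.card * T'.card * τ + 2 * (M * ν))) := by
    rw [ENNReal.ofReal_add (by positivity) (by positivity), ENNReal.ofReal_mul (by positivity),
      ENNReal.ofReal_add (by positivity) (by positivity), ENNReal.ofReal_mul (by positivity), ENNReal.ofReal_mul (by positivity),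
      ENNReal.ofReal_mul (by positivity), ENNReal.ofReal_mul (by positivity)]
    simp only [ENNReal.ofReal_natCast, ENNReal.ofReal_ofNat]
  rw [e0] at key
  have fin : ∀ k ∈ T, ∀ k' ∈ T', ∀ A : Set (Ω × Ω),
      ∫⁻ z in A, ENNReal.ofReal (w k z.1) * ENNReal.ofReal (w' k' z.2) ∂(P.prod P) ≠ ∞ := by
    intro k hk k' hk' A
    have h1 : ∀ ω, ENNReal.ofReal (w k ω) ≤ 1 := fun ω =>
      (Finset.single_le_sum (f := fun k => ENNReal.ofReal (w k ω)) (fun _ _ => zero_le) hk).trans (F1 ω)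
    have h2 : ∀ ω, ENNReal.ofReal (w' k' ω) ≤ 1 := fun ω =>
      (Finset.single_le_sum (f := fun k => ENNReal.ofReal (w' k ω)) (fun _ _ => zero_le) hk').trans (G1 ω)
    refine ne_top_of_le_ne_top ENNReal.one_ne_top ?_
    calc _ ≤ ∫⁻ z, ENNReal.ofReal (w k z.1) * ENNReal.ofReal (w' k' z.2) ∂(P.prod P) := setLIntegral_le_lintegral _ _
      _ ≤ ∫⁻ _z, 1 ∂(P.prod P) := lintegral_mono fun z => mul_le_one' (h1 _) (h2 _)
      _ = 1 := by simp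
  have e1 : ∑ k ∈ T, ∑ k' ∈ T', ∫ z in (⋃ l ∈ Finset.range (M * m), AA (cl k k') (J k k') m l)ᶜ,
        w k z.1 * w' k' z.2 ∂(P.prod P) =
      (∑ k ∈ T, ∑ k' ∈ T', ∫⁻ z in {z | ∀ i < m, z ∉ J k k' (cl k k' z) i},
        ENNReal.ofReal (w k z.1) * ENNReal.ofReal (w' k' z.2) ∂(P.prod P)).toReal := by
    rw [ENNReal.toReal_sum fun k hk => ENNReal.sum_ne_top.2 fun k' hk' => fin k hk k' hk' _]
    refine Finset.sum_congr rfl fun k hk => ?_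
    rw [ENNReal.toReal_sum fun k' hk' => fin k hk k' hk' _]
    refine Finset.sum_congr rfl fun k' hk' => ?_
    rw [compl_AA hm (hcl k hk k' hk'), toReal17 (mw k hk) (mw' k' hk') (w0 k hk) (w0' k' hk')]
  rw [e1]
  exact ENNReal.toReal_le_of_le_ofReal (by positivity) key

end

/-! ### The exponents -/

/-- The gain. -/
theorem gain17 {c κ : ℝ} (hc : 0 < c) {n r : ℕ} (hn : 1 ≤ n) (hr : κ * Real.log n ≤ r) :
    ((1 + c) ^ r)⁻¹ ≤ (n : ℝ) ^ (-(κ * Real.log (1 + c))) := by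
  have hn0 : (0 : ℝ) < n := by exact_mod_cast hn
  have γ0 : 0 < Real.log (1 + c) := Real.log_pos (by linarith)
  rw [← Real.rpow_natCast, Real.rpow_def_of_pos (by linarith : 0 < 1 + c), Real.rpow_def_of_pos hn0, ← Real.exp_neg]
  refine Real.exp_le_exp.2 ?_
  have := mul_le_mul_of_nonneg_left hr γ0.le
  nlinarith

/-- A constant times a power is at most a third of a larger power. -/
theorem third17 {c₀ x : ℝ} (hx : c₀ < x) {C : ℝ} (hC : 0 < C) :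
    ∀ᶠ n : ℕ in atTop, C * (n : ℝ) ^ (-x) ≤ (n : ℝ) ^ (-c₀) / 3 := by
  have t1 : Tendsto (fun n : ℕ => (n : ℝ) ^ (-(x - c₀))) atTop (𝓝 0) :=
    (tendsto_rpow_neg_atTop (by linarith : 0 < x - c₀)).comp tendsto_natCast_atTop_atTop
  have t2 : ∀ᶠ n : ℕ in atTop, (n : ℝ) ^ (-(x - c₀)) < 1 / (3 * C) := t1.eventually_lt_const (by positivity)
  filter_upwards [t2, eventually_ge_atTop 1] with n hn hn1
  have hn0 : (0 : ℝ) < n := by exact_mod_cast hn1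
  have e1 : (n : ℝ) ^ (-x) = (n : ℝ) ^ (-c₀) * (n : ℝ) ^ (-(x - c₀)) := by
    rw [← Real.rpow_add hn0]
    congr 1
    ring
  have p0 : 0 < (n : ℝ) ^ (-c₀) := Real.rpow_pos_of_pos hn0 _
  rw [e1]
  have e2 : C * (n : ℝ) ^ (-(x - c₀)) ≤ 1 / 3 := by
    have := mul_le_mul_of_nonneg_left hn.le hC.le
    rw [show C * (1 / (3 * C)) = 1 / 3 by field_simp] at this
    exact this
  nlinarith

/-- **THE EXPONENT, generic form.** -/
theorem numB17 {B s A : ℝ} (hA : 2 * B + 1 ≤ A) (M : ℕ) {c₀ : ℝ} (h1 : c₀ < s) (h2 : c₀ < 1) :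
    ∀ᶠ n : ℕ in atTop, ∀ (p p' : ℕ) (β τ ν : ℝ), (p : ℝ) ≤ (n : ℝ) ^ B → (p' : ℝ) ≤ (n : ℝ) ^ B → 0 ≤ τ →
      τ ≤ (n : ℝ) ^ (-A) → β ≤ (n : ℝ) ^ (-s) → ν ≤ (n : ℝ) ^ (-s) →
      M * β + (p * p' * τ + 2 * (M * ν)) ≤ (n : ℝ) ^ (-c₀) := by
  have hM : (0 : ℝ) ≤ M := Nat.cast_nonneg _
  filter_upwards [third17 h1 (C := M + 1) (by positivity), third17 h1 (C := 2 * M + 1) (by positivity),
    third17 h2 one_pos, eventually_ge_atTop 1] with n n1 n2 n3 hn1 p p' β τ ν hp hp' hτ hτ' hβ hν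
  have hn0 : (0 : ℝ) < n := by exact_mod_cast hn1
  have hn1' : (1 : ℝ) ≤ n := by exact_mod_cast hn1
  have pp : (p : ℝ) * p' ≤ (n : ℝ) ^ B * (n : ℝ) ^ B := mul_le_mul hp hp' (Nat.cast_nonneg _) (Real.rpow_nonneg hn0.le _)
  have a5 : (p : ℝ) * p' * τ ≤ (n : ℝ) ^ (-(1 : ℝ)) := by
    calc (p : ℝ) * p' * τ ≤ ((n : ℝ) ^ B * (n : ℝ) ^ B) * (n : ℝ) ^ (-A) := by gcongr
      _ = (n : ℝ) ^ (B + B + -A) := by rw [Real.rpow_add hn0, Real.rpow_add hn0]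
      _ ≤ (n : ℝ) ^ (-(1 : ℝ)) := Real.rpow_le_rpow_of_exponent_le hn1' (by linarith)
  have q0 : 0 ≤ (n : ℝ) ^ (-s) := Real.rpow_nonneg hn0.le _
  have b1 : (M : ℝ) * β ≤ (M + 1) * (n : ℝ) ^ (-s) := by
    calc _ ≤ (M : ℝ) * (n : ℝ) ^ (-s) := by gcongr
      _ ≤ _ := by nlinarith
  have b2 : 2 * ((M : ℝ) * ν) ≤ (2 * M + 1) * (n : ℝ) ^ (-s) := by
    calc _ ≤ 2 * ((M : ℝ) * (n : ℝ) ^ (-s)) := by gcongr
      _ ≤ _ := by nlinarith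
  rw [one_mul] at n3
  linarith

/-- **THE EXPONENT.** -/
theorem num17 {c κ κ' B s A : ℝ} (hc : 0 < c) (hκ' : 0 ≤ κ') (hA : 2 * B + κ' * Real.log (1 + c) + 1 ≤ A)
    (M : ℕ) {c₀ : ℝ} (h0 : c₀ < κ * Real.log (1 + c)) (h1 : c₀ < s) (h2 : c₀ < 1) :
    ∀ᶠ n : ℕ in atTop, ∀ (m r p p' : ℕ) (e τ ν : ℝ), κ * Real.log n ≤ r → (m : ℝ) ≤ κ' * Real.log n →
      (p : ℝ) ≤ (n : ℝ) ^ B → (p' : ℝ) ≤ (n : ℝ) ^ B → 0 ≤ e → e ≤ (n : ℝ) ^ (-A) → 0 ≤ τ → τ ≤ (n : ℝ) ^ (-A) →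
      ν ≤ (n : ℝ) ^ (-s) → BB M m r p p' c e τ ν ≤ (n : ℝ) ^ (-c₀) := by
  set γ := Real.log (1 + c) with hγ
  have γ0 : 0 < γ := Real.log_pos (by linarith)
  have small : ∀ x : ℝ, c₀ < x → ∀ C : ℝ, 0 < C → ∀ᶠ n : ℕ in atTop, C * (n : ℝ) ^ (-x) ≤ (n : ℝ) ^ (-c₀) / 3 := by
    intro x hx C hC
    have t1 : Tendsto (fun n : ℕ => (n : ℝ) ^ (-(x - c₀))) atTop (𝓝 0) :=
      (tendsto_rpow_neg_atTop (by linarith : 0 < x - c₀)).comp tendsto_natCast_atTop_atTop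
    have t2 : ∀ᶠ n : ℕ in atTop, (n : ℝ) ^ (-(x - c₀)) < 1 / (3 * C) := t1.eventually_lt_const (by positivity)
    filter_upwards [t2, eventually_ge_atTop 1] with n hn hn1
    have hn0 : (0 : ℝ) < n := by exact_mod_cast hn1
    have e1 : (n : ℝ) ^ (-x) = (n : ℝ) ^ (-c₀) * (n : ℝ) ^ (-(x - c₀)) := by
      rw [← Real.rpow_add hn0]
      congr 1
      ring
    have p0 : 0 < (n : ℝ) ^ (-c₀) := Real.rpow_pos_of_pos hn0 _
    rw [e1]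
    have e2 : C * (n : ℝ) ^ (-(x - c₀)) ≤ 1 / 3 := by
      have := mul_le_mul_of_nonneg_left hn.le hC.le
      rw [show C * (1 / (3 * C)) = 1 / 3 by field_simp] at this
      exact this
    nlinarith
  have hlog : ∀ᶠ n : ℕ in atTop, κ' * Real.log n ≤ n := by
    have t1 : Tendsto (fun n : ℕ => Real.log n / n) atTop (𝓝 0) := by
      have := (Real.isLittleO_log_id_atTop.tendsto_div_nhds_zero).comp tendsto_natCast_atTop_atTop
      exact this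
    have t2 : ∀ᶠ n : ℕ in atTop, Real.log n / n < 1 / (κ' + 1) := t1.eventually_lt_const (by positivity)
    filter_upwards [t2, eventually_ge_atTop 1] with n hn hn1
    have hn0 : (0 : ℝ) < n := by exact_mod_cast hn1
    have l0 : 0 ≤ Real.log n := Real.log_nonneg (by exact_mod_cast hn1)
    rw [div_lt_div_iff₀ hn0 (by positivity)] at hn
    nlinarith
  have hM : (0 : ℝ) ≤ M := Nat.cast_nonneg _
  filter_upwards [small (κ * γ) h0 (2 * M + 1) (by positivity), small s h1 (2 * M + 1) (by positivity), small 1 h2 1 one_pos, hlog,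
    eventually_ge_atTop 1] with n n1 n2 n3 n4 hn1 m r p p' e τ ν hr hm hp hp' he he' hτ hτ' hν
  have hn0 : (0 : ℝ) < n := by exact_mod_cast hn1
  have hn1' : (1 : ℝ) ≤ n := by exact_mod_cast hn1
  have l0 : 0 ≤ Real.log n := Real.log_nonneg hn1'
  have hc1 : 0 < 1 + c := by linarith
  have powr : ∀ k : ℕ, (1 + c) ^ k = Real.exp (γ * k) := by
    intro k
    rw [← Real.rpow_natCast, Real.rpow_def_of_pos hc1]
  have npow : ∀ x : ℝ, (n : ℝ) ^ x = Real.exp (Real.log n * x) := fun x => Real.rpow_def_of_pos hn0 x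
  have a1 : ((1 + c) ^ r)⁻¹ ≤ (n : ℝ) ^ (-(κ * γ)) := by
    rw [powr, npow, ← Real.exp_neg]
    refine Real.exp_le_exp.2 ?_
    have := mul_le_mul_of_nonneg_left hr γ0.le
    nlinarith
  have a2 : (1 + c) ^ m ≤ (n : ℝ) ^ (κ' * γ) := by
    rw [powr, npow]
    refine Real.exp_le_exp.2 ?_
    have := mul_le_mul_of_nonneg_left hm γ0.le
    nlinarith
  have a3 : (m : ℝ) ≤ (n : ℝ) ^ (1 : ℝ) := by
    rw [Real.rpow_one]
    exact hm.trans n4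
  have pp : (p : ℝ) * p' ≤ (n : ℝ) ^ B * (n : ℝ) ^ B := mul_le_mul hp hp' (Nat.cast_nonneg _) (Real.rpow_nonneg hn0.le _)
  have one : ∀ x : ℝ, x ≤ 0 → (n : ℝ) ^ x ≤ 1 := fun x hx => Real.rpow_le_one_of_one_le_of_nonpos hn1' hx
  have a4 : (p : ℝ) * p' * (m * ((1 + c) ^ m * e)) ≤ 1 := by
    calc (p : ℝ) * p' * (m * ((1 + c) ^ m * e)) ≤ ((n : ℝ) ^ B * (n : ℝ) ^ B) * ((n : ℝ) ^ (1 : ℝ) *
          ((n : ℝ) ^ (κ' * γ) * (n : ℝ) ^ (-A))) := by gcongr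
      _ = (n : ℝ) ^ (B + B + (1 + (κ' * γ + -A))) := by
          rw [Real.rpow_add hn0, Real.rpow_add hn0, Real.rpow_add hn0, Real.rpow_add hn0]
      _ ≤ 1 := one _ (by linarith)
  have a5 : (p : ℝ) * p' * τ ≤ (n : ℝ) ^ (-(1 : ℝ)) := by
    calc (p : ℝ) * p' * τ ≤ ((n : ℝ) ^ B * (n : ℝ) ^ B) * (n : ℝ) ^ (-A) := by gcongr
      _ = (n : ℝ) ^ (B + B + -A) := by rw [Real.rpow_add hn0, Real.rpow_add hn0]
      _ ≤ (n : ℝ) ^ (-(1 : ℝ)) := by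
          refine Real.rpow_le_rpow_of_exponent_le hn1' ?_
          have : 0 ≤ κ' * γ := by positivity
          linarith
  have i0 : 0 ≤ ((1 + c) ^ r)⁻¹ := by positivity
  have b1 : (M : ℝ) * (((1 + c) ^ r)⁻¹ * (1 + p * p' * (m * ((1 + c) ^ m * e)))) ≤ (2 * M + 1) * (n : ℝ) ^ (-(κ * γ)) := by
    have q0 : 0 ≤ (n : ℝ) ^ (-(κ * γ)) := Real.rpow_nonneg hn0.le _
    calc _ ≤ (M : ℝ) * ((n : ℝ) ^ (-(κ * γ)) * (1 + 1)) := by gcongr
      _ ≤ _ := by nlinarith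
  have b2 : 2 * ((M : ℝ) * ν) ≤ (2 * M + 1) * (n : ℝ) ^ (-s) := by
    have q0 : 0 ≤ (n : ℝ) ^ (-s) := Real.rpow_nonneg hn0.le _
    calc _ ≤ 2 * ((M : ℝ) * (n : ℝ) ^ (-s)) := by gcongr
      _ ≤ _ := by nlinarith
  rw [one_mul] at n3
  unfold BB
  linarith

end

end Pool.Agent.W_7d29a1_C1.Lec17
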