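import Mathlib

/-!
MP_7d29a1_pr, attractor route (helper17): the Legendre transform of a function of the order `|r| ^ (2 + o(1))` is of the order
`|u| ^ (2 + o(1))`. Pure part.
-/

set_option autoImplicit false

namespace Pool.Agent.W_7d29a1_C1

open Filter Topology

noncomputable section

/-- **The Legendre transform of a function of the order `|r| ^ (2 + o(1))`.** -/
theorem leg17 {f : ℝ → ℝ} (hf0 : ∀ r, 0 ≤ f r) (hf1 : ∀ t r : ℝ, 0 ≤ t → t ≤ 1 → f (t * r) ≤ t * f r)
    (hf : ∀ ε : ℝ, 0 < ε → ∃ r₀ : ℝ, 0 < r₀ ∧ ∀ r : ℝ, 0 < |r| → |r| ≤ r₀ → |r| ^ (2 + ε) ≤ f r ∧ f r ≤ |r| ^ (2 - ε))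
    {ε : ℝ} (hε : 0 < ε) :
    ∃ u₀ : ℝ, 0 < u₀ ∧ ∀ u : ℝ, 0 < |u| → |u| ≤ u₀ → ∀ j : ℝ, IsLUB (Set.range fun r => r * u - f r) j →
      |u| ^ (2 + ε) ≤ j ∧ j ≤ |u| ^ (2 - ε) := by
  obtain ⟨e, he⟩ : ∃ e : ℝ, e = min ε (1 / 2) := ⟨_, rfl⟩
  have e1 : 0 < e := by
    rw [he]
    exact lt_min hε (by norm_num)
  have e2 : e ≤ ε := by
    rw [he]
    exact min_le_left _ _
  have e3 : e ≤ 1 / 2 := by
    rw [he]
    exact min_le_right _ _
  obtain ⟨r₁, hr1, h1⟩ := hf (e / 8) (by positivity)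
  obtain ⟨r₂, hr2, h2⟩ := hf e e1
  obtain ⟨x, hx⟩ : ∃ x : ℝ, x = (1 / 2 : ℝ) ^ (1 / (e / 4)) := ⟨_, rfl⟩
  have hx0 : 0 < x := by
    rw [hx]
    positivity
  refine ⟨min (min 1 r₁) (min (r₂ ^ (1 + e)) x), by positivity, fun u hu0 hu j hj => ?_⟩
  have b1 : |u| ≤ 1 := hu.trans ((min_le_left _ _).trans (min_le_left _ _))
  have b2 : |u| ≤ r₁ := hu.trans ((min_le_left _ _).trans (min_le_right _ _))
  have b3 : |u| ≤ r₂ ^ (1 + e) := hu.trans ((min_le_right _ _).trans (min_le_left _ _))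
  have b4 : |u| ≤ x := hu.trans ((min_le_right _ _).trans (min_le_right _ _))
  have hhalf : |u| ^ (e / 4) ≤ 1 / 2 := by
    have g1 : |u| ^ (e / 4) ≤ x ^ (e / 4) := Real.rpow_le_rpow hu0.le b4 (by positivity)
    rw [hx, ← Real.rpow_mul (by norm_num)] at g1
    have g2 : 1 / (e / 4) * (e / 4) = 1 := by
      field_simp
    rw [g2, Real.rpow_one] at g1
    exact g1
  constructor
  · -- the lower bound
    obtain ⟨ρ, hρ⟩ : ∃ ρ : ℝ, ρ = |u| ^ (1 + e / 2) := ⟨_, rfl⟩
    have hρ0 : 0 < ρ := by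
      rw [hρ]
      exact Real.rpow_pos_of_pos hu0 _
    have hρ1 : ρ ≤ |u| := by
      rw [hρ]
      calc |u| ^ (1 + e / 2) ≤ |u| ^ (1 : ℝ) := Real.rpow_le_rpow_of_exponent_ge hu0 b1 (by linarith)
        _ = |u| := Real.rpow_one _
    obtain ⟨r, hr⟩ : ∃ r : ℝ, r = ρ * SignType.sign u := ⟨_, rfl⟩
    have hu' : u ≠ 0 := abs_pos.1 hu0
    have hra : |r| = ρ := by
      rw [hr, abs_mul, abs_of_pos hρ0]
      rcases lt_or_gt_of_ne hu' with h | h
      · rw [sign_neg h]
        simp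
      · rw [sign_pos h]
        simp
    have hru : r * u = ρ * |u| := by
      rw [hr, mul_assoc, sign_mul_self]
    have g1 := (h1 r (by rw [hra]; exact hρ0) (by rw [hra]; exact hρ1.trans b2)).2
    rw [hra] at g1
    have g2 : r * u - f r ≤ j := hj.1 ⟨r, rfl⟩
    rw [hru] at g2
    have g3 : ρ * |u| = |u| ^ (2 + e / 2) := by
      rw [hρ]
      nth_rw 2 [← Real.rpow_one |u|]
      rw [← Real.rpow_add hu0]
      ring_nf
    have g4 : ρ ^ (2 - e / 8) ≤ |u| ^ (e / 4) * |u| ^ (2 + e / 2) := by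
      rw [hρ, ← Real.rpow_mul hu0.le, ← Real.rpow_add hu0]
      refine Real.rpow_le_rpow_of_exponent_ge hu0 b1 ?_
      nlinarith
    have hp : 0 ≤ |u| ^ (2 + e / 2) := Real.rpow_nonneg hu0.le _
    have g5 : |u| ^ (e / 4) * |u| ^ (2 + e / 2) ≤ 1 / 2 * |u| ^ (2 + e / 2) := mul_le_mul_of_nonneg_right hhalf hp
    have g6 : 1 / 2 * |u| ^ (2 + e / 2) ≤ j := by linarith
    have g7 : |u| ^ (2 + ε) ≤ |u| ^ (e / 4) * |u| ^ (2 + e / 2) := by
      rw [← Real.rpow_add hu0]
      exact Real.rpow_le_rpow_of_exponent_ge hu0 b1 (by linarith)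
    linarith
  · -- the upper bound
    have key : ∀ r : ℝ, r * u - f r ≤ |u| ^ (2 - e) := by
      intro r
      have hru : r * u ≤ |r| * |u| := by
        rw [← abs_mul]
        exact le_abs_self _
      have hp : 0 ≤ |u| ^ (2 - e) := Real.rpow_nonneg hu0.le _
      have hfr := hf0 r
      have heq : |u| ^ (2 - e) = |u| ^ (1 - e) * |u| := by
        nth_rw 3 [← Real.rpow_one |u|]
        rw [← Real.rpow_add hu0]
        ring_nf
      rcases le_total |r| (|u| ^ (1 - e)) with c1 | c1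
      · have : |r| * |u| ≤ |u| ^ (1 - e) * |u| := mul_le_mul_of_nonneg_right c1 hu0.le
        linarith
      have hr0 : 0 < |r| := lt_of_lt_of_le (Real.rpow_pos_of_pos hu0 _) c1
      have main : |r| * |u| ≤ f r := by
        rcases le_total |r| r₂ with c2 | c2
        · have g1 := (h2 r hr0 c2).1
          have g2 : |r| ^ (2 + e) = |r| * |r| ^ (1 + e) := by
            nth_rw 2 [← Real.rpow_one |r|]
            rw [← Real.rpow_add hr0]
            ring_nf
          have g3 : (|u| ^ (1 - e)) ^ (1 + e) ≤ |r| ^ (1 + e) :=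
            Real.rpow_le_rpow (Real.rpow_nonneg hu0.le _) c1 (by linarith)
          have g4 : |u| ≤ (|u| ^ (1 - e)) ^ (1 + e) := by
            rw [← Real.rpow_mul hu0.le]
            calc |u| = |u| ^ (1 : ℝ) := (Real.rpow_one _).symm
              _ ≤ |u| ^ ((1 - e) * (1 + e)) := Real.rpow_le_rpow_of_exponent_ge hu0 b1 (by nlinarith)
          have g5 : |r| * |u| ≤ |r| * |r| ^ (1 + e) := mul_le_mul_of_nonneg_left (g4.trans g3) hr0.le
          linarith
        · obtain ⟨t, ht⟩ : ∃ t : ℝ, t = r₂ / |r| := ⟨_, rfl⟩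
          have ht0 : 0 < t := by
            rw [ht]
            positivity
          have ht1 : t ≤ 1 := by
            rw [ht, div_le_one hr0]
            exact c2
          have htr : |t * r| = r₂ := by
            rw [abs_mul, abs_of_pos ht0, ht]
            field_simp
          have g1 := (h2 (t * r) (by rw [htr]; exact hr2) htr.le).1
          have g2 := hf1 t r ht0.le ht1
          rw [htr] at g1
          have g3 : r₂ ^ (2 + e) = r₂ * r₂ ^ (1 + e) := by
            nth_rw 2 [← Real.rpow_one r₂]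
            rw [← Real.rpow_add hr2]
            ring_nf
          have g4 : r₂ * |u| ≤ r₂ * r₂ ^ (1 + e) := mul_le_mul_of_nonneg_left b3 hr2.le
          have g5 : t * |r| = r₂ := by
            rw [ht]
            field_simp
          have g6 : t * (|r| * |u|) ≤ t * f r := by
            rw [← mul_assoc, g5]
            linarith
          exact le_of_mul_le_mul_left g6 ht0
      linarith
    have g1 : j ≤ |u| ^ (2 - e) := hj.2 (by
      rintro _ ⟨r, rfl⟩
      exact key r)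
    exact g1.trans (Real.rpow_le_rpow_of_exponent_ge hu0 b1 (by linarith))

end

end Pool.Agent.W_7d29a1_C1
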