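import Pool.Agent.W_7d29a1_C1.UniC16
import Pool.Agent.W_7d29a1_C1.Jmp75

/-!
MP_7d29a1_pr, [C1] attractor route, THE LEVEL OF A REGION at the scale `n`. (helper16)

`LevS μ s c θ n R q` (`R` = any set of sites): all pairs of points of `R` at row distance at least `θ n` have `- log W ≤ q EE n`, and
the lucks (tilts `0`, `hc`, `- hc`) of the points of `R`, of all lengths which end in a row of `R`, are at most `q EE n`. It is
decreasing in `R` and increasing in `q`, closed under shifts, measurable, and reads only the rows of `R` (`LevS_rows`).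
`lev_prob`: for `R` inside a box of `n` rows and half width `K wd n`, at any base point, `P ((LevS q)ᶜ) ≤ A exp (- a q ^ g)`, `n ≥ n₁`.
`lv16`: the smallest level, a function; `lv16_le_iff`.
-/

set_option autoImplicit false

namespace Pool.Agent.W_7d29a1_C1.U16

open MeasureTheory ProbabilityTheory Filter Topology Finset
open Pool.Agent.W_7d29a1_F Pool.Agent.W_7d29a1_h4g Pool.Agent.W_7d29a1_H Pool.Agent.W_7d29a1_HS
open Pool.Agent.W_7d29a1_C1.H75
open Pool.Agent.W_7d29a1_L (T T_sh kap Sub_T)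

noncomputable section

variable {μ : Measure ℝ} {s : ℝ} [IsProbabilityMeasure μ] {c C : ℝ} {n₀ : ℕ}

/-- The worst of the energies between two points, in units `EE n`: cost (if the row distance is at least `θ n`) and lucks. -/
def gl16 (μ : Measure ℝ) (s c θ : ℝ) (n : ℕ) (η : Env) (p p' : Pt) : ℝ :=
  max (if p.1 ≤ p'.1 ∧ θ * n ≤ ((p'.1 - p.1 : ℤ) : ℝ) then X μ s η p (p'.1 - p.1).toNat (p'.2 - p.2) / EE μ s n else 0)
    (if p.1 ≤ p'.1 then max (T μ s (sl μ s) 0 η p (p'.1 - p.1).toNat / EE μ s n)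
      (max (T μ s (sl μ s) (hc μ s c n) η p (p'.1 - p.1).toNat / EE μ s n)
        (T μ s (sl μ s) (-hc μ s c n) η p (p'.1 - p.1).toNat / EE μ s n)) else 0)

/-- All the energies of the region are at most `q EE n`. -/
def LevS (μ : Measure ℝ) (s c θ : ℝ) (n : ℕ) (R : Set Pt) (q : ℝ) : Set Env := {η | ∀ p ∈ R, ∀ p' ∈ R, gl16 μ s c θ n η p p' ≤ q}

/-- The box with `N` rows above `a` and half width `w`. -/
def bx16 (μ : Measure ℝ) (s : ℝ) (a : Pt) (N : ℕ) (w : ℝ) : Set Pt :=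
  {p | a.1 ≤ p.1 ∧ p.1 ≤ a.1 + N ∧ |((p.2 - a.2 : ℤ) : ℝ) - sl μ s * ((p.1 - a.1 : ℤ) : ℝ)| ≤ w}

omit [IsProbabilityMeasure μ] in
theorem LevS_anti {θ q : ℝ} {n : ℕ} {R R' : Set Pt} (hR : R ⊆ R') : LevS μ s c θ n R' q ⊆ LevS μ s c θ n R q :=
  fun _ hη p hp p' hp' => hη p (hR hp) p' (hR hp')

omit [IsProbabilityMeasure μ] in
theorem LevS_mono {θ q q' : ℝ} (hq : q ≤ q') {n : ℕ} {R : Set Pt} : LevS μ s c θ n R q ⊆ LevS μ s c θ n R q' :=
  fun _ hη p hp p' hp' => (hη p hp p' hp').trans hq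

/-- What the event says. -/
theorem LevS_iff {θ q : ℝ} (hq : 0 ≤ q) {n : ℕ} {R : Set Pt} {η : Env} : η ∈ LevS μ s c θ n R q ↔
    ∀ (p : Pt) (j : ℕ) (y : ℤ), p ∈ R → (p.1 + j, p.2 + y) ∈ R →
      (θ * n ≤ j → X μ s η p j y ≤ q * EE μ s n) ∧ T μ s (sl μ s) 0 η p j ≤ q * EE μ s n ∧
        T μ s (sl μ s) (hc μ s c n) η p j ≤ q * EE μ s n ∧ T μ s (sl μ s) (-hc μ s c n) η p j ≤ q * EE μ s n := by
  have hE := EE_pos (μ := μ) (s := s) n
  constructor
  · intro hη p j y hp hp'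
    have h1 := hη p hp _ hp'
    have e1 : ((p.1 + (j : ℤ)) - p.1).toNat = j := by simp
    have e2 : (p.2 + y) - p.2 = y := by ring
    have e3 : (((p.1 + (j : ℤ)) - p.1 : ℤ) : ℝ) = j := by push_cast; ring
    have e4 : p.1 ≤ p.1 + (j : ℤ) := by omega
    unfold gl16 at h1
    dsimp only at h1
    rw [max_le_iff] at h1
    obtain ⟨g1, g2⟩ := h1
    rw [e1, e2, e3] at g1
    rw [if_pos e4, e1, max_le_iff, max_le_iff] at g2
    obtain ⟨g3, g4, g5⟩ := g2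
    rw [div_le_iff₀ hE] at g3 g4 g5
    refine ⟨fun h2 => ?_, g3, g4, g5⟩
    rw [if_pos ⟨e4, h2⟩, div_le_iff₀ hE] at g1
    exact g1
  · intro H p hp p' hp'
    unfold gl16
    by_cases h1 : p.1 ≤ p'.1
    · obtain ⟨j, hj⟩ : ∃ j : ℕ, p'.1 = p.1 + j := ⟨(p'.1 - p.1).toNat, by omega⟩
      obtain ⟨y, hy⟩ : ∃ y : ℤ, p'.2 = p.2 + y := ⟨p'.2 - p.2, by ring⟩
      have e0 : (p.1 + (j : ℤ), p.2 + y) = p' := by
        ext
        · exact hj.symm
        · exact hy.symm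
      obtain ⟨g1, g2, g3, g4⟩ := H p j y hp (by rw [e0]; exact hp')
      have e1 : (p'.1 - p.1).toNat = j := by rw [hj]; simp
      have e2 : p'.2 - p.2 = y := by rw [hy]; ring
      have e3 : ((p'.1 - p.1 : ℤ) : ℝ) = j := by rw [hj]; push_cast; ring
      rw [e1, e2, e3, if_pos h1]
      refine max_le ?_ (max_le ?_ (max_le ?_ ?_))
      · split_ifs with h2
        · rw [div_le_iff₀ hE]
          exact g1 h2.2
        · exact hq
      · rw [div_le_iff₀ hE]; exact g2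
      · rw [div_le_iff₀ hE]; exact g3
      · rw [div_le_iff₀ hE]; exact g4
    · rw [if_neg h1, if_neg (fun h2 => h1 h2.1)]
      exact max_le hq hq

/-! ### Shifts, rows, measurability -/

omit [IsProbabilityMeasure μ] in
theorem gl16_sh (θ : ℝ) (n : ℕ) (a : Pt) (η : Env) (p p' : Pt) : gl16 μ s c θ n (sh a η) p p' = gl16 μ s c θ n η (p + a) (p' + a) := by
  unfold gl16
  have e1 : (p' + a).1 - (p + a).1 = p'.1 - p.1 := by simp
  have e2 : (p' + a).2 - (p + a).2 = p'.2 - p.2 := by simp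
  have e3 : (p + a).1 ≤ (p' + a).1 ↔ p.1 ≤ p'.1 := by simp
  simp only [e1, e2, e3, X_sh, T_sh]

omit [IsProbabilityMeasure μ] in
/-- A shift of the environment is a shift of the region. -/
theorem LevS_sh (θ : ℝ) (n : ℕ) (a : Pt) (R : Set Pt) (q : ℝ) (η : Env) :
    sh a η ∈ LevS μ s c θ n R q ↔ η ∈ LevS μ s c θ n ((· + a) '' R) q := by
  constructor
  · rintro H _ ⟨p, hp, rfl⟩ _ ⟨p', hp', rfl⟩
    have := H p hp p' hp'
    rwa [gl16_sh] at this
  · intro H p hp p' hp'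
    rw [gl16_sh]
    exact H _ ⟨p, hp, rfl⟩ _ ⟨p', hp', rfl⟩

omit [IsProbabilityMeasure μ] in
theorem bx16_sh (a b : Pt) (N : ℕ) (w : ℝ) : (· + b) '' (bx16 μ s a N w) = bx16 μ s (a + b) N w := by
  ext p
  constructor
  · rintro ⟨p, ⟨h1, h2, h3⟩, rfl⟩
    refine ⟨?_, ?_, ?_⟩
    · simpa using h1
    · simp only [Prod.fst_add]
      omega
    · simpa using h3
  · rintro ⟨h1, h2, h3⟩
    refine ⟨p - b, ⟨?_, ?_, ?_⟩, by simp⟩
    · simp only [Prod.fst_add, Prod.fst_sub] at h1 ⊢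
      omega
    · simp only [Prod.fst_add, Prod.fst_sub] at h2 ⊢
      omega
    · simp only [Prod.fst_add, Prod.fst_sub, Prod.snd_add, Prod.snd_sub] at h3 ⊢
      have e1 : p.2 - b.2 - a.2 = p.2 - (a.2 + b.2) := by ring
      have e2 : p.1 - b.1 - a.1 = p.1 - (a.1 + b.1) := by ring
      rw [e1, e2]
      exact h3

omit [IsProbabilityMeasure μ] in
theorem T_rows {v h : ℝ} (a : Pt) (m : ℕ) : DependsOn (fun η : Env => T μ s v h η a m) (rows a.1 (a.1 + m)) := by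
  intro η η' hh
  have e : V μ (s + h) η a m = V μ (s + h) η' a m := V_dep_rows (μ := μ) (s := s + h) a m hh
  show V μ (s + h) η a m + m * kap μ s v h = V μ (s + h) η' a m + m * kap μ s v h
  rw [e]

theorem gl16_rows (θ : ℝ) (n : ℕ) (p p' : Pt) : DependsOn (fun η : Env => gl16 μ s c θ n η p p') (rows p.1 p'.1) := by
  intro η η' hh
  show gl16 μ s c θ n η p p' = gl16 μ s c θ n η' p p'
  unfold gl16
  by_cases h1 : p.1 ≤ p'.1
  · have e1 : p.1 + ((p'.1 - p.1).toNat : ℤ) = p'.1 := by omega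
    have k1 : X μ s η p (p'.1 - p.1).toNat (p'.2 - p.2) = X μ s η' p (p'.1 - p.1).toNat (p'.2 - p.2) :=
      X_dep_rows (μ := μ) (s := s) p (p'.1 - p.1).toNat (p'.2 - p.2) (by rw [e1]; exact hh)
    have k2 : ∀ h : ℝ, T μ s (sl μ s) h η p (p'.1 - p.1).toNat = T μ s (sl μ s) h η' p (p'.1 - p.1).toNat := fun h =>
      T_rows (μ := μ) (s := s) (v := sl μ s) (h := h) p (p'.1 - p.1).toNat (by rw [e1]; exact hh)
    rw [k1, k2, k2, k2]
  · rw [if_neg h1, if_neg h1, if_neg (fun h2 => h1 h2.1), if_neg (fun h2 => h1 h2.1)]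

/-- The event reads only the rows of the region. -/
theorem LevS_rows {θ q : ℝ} {n : ℕ} {R : Set Pt} {lo hi : ℤ} (hR : ∀ p ∈ R, lo ≤ p.1 ∧ p.1 ≤ hi) {η η' : Env}
    (hh : ∀ p ∈ rows lo hi, η p = η' p) : η ∈ LevS μ s c θ n R q ↔ η' ∈ LevS μ s c θ n R q := by
  have key : ∀ p ∈ R, ∀ p' ∈ R, gl16 μ s c θ n η p p' = gl16 μ s c θ n η' p p' := by
    intro p hp p' hp'
    refine gl16_rows (μ := μ) (s := s) (c := c) θ n p p' fun z hz => hh z ?_
    have h1 := hR p hp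
    have h2 := hR p' hp'
    have h3 : p.1 < z.1 ∧ z.1 ≤ p'.1 := hz
    exact ⟨by omega, by omega⟩
  constructor
  · intro H p hp p' hp'
    rw [← key p hp p' hp']
    exact H p hp p' hp'
  · intro H p hp p' hp'
    rw [key p hp p' hp']
    exact H p hp p' hp'

omit [IsProbabilityMeasure μ] in
theorem gl16_meas (θ : ℝ) (n : ℕ) (p p' : Pt) : Measurable fun η : Env => gl16 μ s c θ n η p p' := by
  unfold gl16
  have hT : ∀ h : ℝ, Measurable fun η : Env => T μ s (sl μ s) h η p (p'.1 - p.1).toNat / EE μ s n := fun h =>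
    (Sub_T (μ := μ) (s := s) (v := sl μ s) (h := h) p _).1.div_const _
  refine Measurable.max ?_ ?_
  · split_ifs
    · exact (measurable_X p _ _).div_const _
    · exact measurable_const
  · split_ifs
    · exact (hT 0).max ((hT _).max (hT _))
    · exact measurable_const

omit [IsProbabilityMeasure μ] in
theorem LevS_meas (θ q : ℝ) (n : ℕ) (R : Set Pt) : MeasurableSet (LevS μ s c θ n R q) := by
  have e : LevS μ s c θ n R q = ⋂ p : Pt, ⋂ p' : Pt, {η : Env | p ∈ R → p' ∈ R → gl16 μ s c θ n η p p' ≤ q} := by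
    ext η
    simp only [Set.mem_iInter]
    exact ⟨fun H p p' hp hp' => H p hp p' hp', fun H p hp p' hp' => H p p' hp hp'⟩
  rw [e]
  refine MeasurableSet.iInter fun p => MeasurableSet.iInter fun p' => ?_
  by_cases h1 : p ∈ R ∧ p' ∈ R
  · have e2 : {η : Env | p ∈ R → p' ∈ R → gl16 μ s c θ n η p p' ≤ q} = {η : Env | gl16 μ s c θ n η p p' ≤ q} := by
      ext η
      exact ⟨fun H => H h1.1 h1.2, fun H _ _ => H⟩
    rw [e2]
    exact measurableSet_le (gl16_meas θ n p p') measurable_const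
  · have e2 : {η : Env | p ∈ R → p' ∈ R → gl16 μ s c θ n η p p' ≤ q} = Set.univ := by
      ext η
      simp only [Set.mem_univ, iff_true]
      exact fun h2 h3 => absurd ⟨h2, h3⟩ h1
    rw [e2]
    exact MeasurableSet.univ

/-! ### The probability -/

/-- The events of the two parts. -/
theorem LevS_of {θ K q : ℝ} (hq : 0 ≤ q) {n N : ℕ} (hN : N ≤ n) {a : Pt} {R : Set Pt} (hR : R ⊆ bx16 μ s a N (K * wd μ s n)) {η : Env}
    (h1 : η ∈ Low16 μ s K θ n a (q * EE μ s n)) (h2 : sh a η ∈ Jm μ s c n 0 (K * wd μ s n) (q * EE μ s n)) :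
    η ∈ LevS μ s c θ n R q := by
  rw [LevS_iff hq]
  intro p j y hp hp'
  obtain ⟨g1, g2, g3⟩ := hR hp
  obtain ⟨g4, g5, g6⟩ := hR hp'
  obtain ⟨t, ht⟩ : ∃ t : ℕ, p.1 = a.1 + t := ⟨(p.1 - a.1).toNat, by omega⟩
  obtain ⟨z, hz⟩ : ∃ z : ℤ, p.2 = a.2 + z := ⟨p.2 - a.2, by ring⟩
  have ep : p = (a.1 + (t : ℤ), a.2 + z) := by
    ext
    · exact ht
    · exact hz
  have htj : t + j ≤ n := by
    have g7 : p.1 + (j : ℤ) ≤ a.1 + N := g5
    omega
  have e1 : ((p.2 - a.2 : ℤ) : ℝ) = z := by rw [hz]; push_cast; ring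
  have e2 : ((p.1 - a.1 : ℤ) : ℝ) = t := by rw [ht]; push_cast; ring
  rw [e1, e2] at g3
  have e3 : (((p.2 + y) - a.2 : ℤ) : ℝ) = ((z + y : ℤ) : ℝ) := by rw [hz]; push_cast; ring
  have e4 : (((p.1 + (j : ℤ)) - a.1 : ℤ) : ℝ) = ((t + j : ℕ) : ℝ) := by rw [ht]; push_cast; ring
  dsimp only at g6
  rw [e3, e4] at g6
  have e5 : ((t : ℤ), z) + a = p := by
    rw [ep]
    ext
    · show (t : ℤ) + a.1 = a.1 + t
      ring
    · show z + a.2 = a.2 + z
      ring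
  have hz0 : |(z : ℝ) - sl μ s * t - 0| ≤ K * wd μ s n := by rw [sub_zero]; exact g3
  have hT : ∀ h : ℝ, sh a η ∈ Wi μ s h n 0 (K * wd μ s n) (q * EE μ s n) → T μ s (sl μ s) h η p j ≤ q * EE μ s n := by
    intro h hw
    have := hw t z j (by omega) hz0
    rwa [T_sh, e5] at this
  refine ⟨fun h3 => ?_, hT 0 h2.1, hT _ h2.2.1, hT _ h2.2.2⟩
  have := h1 t j z y htj h3 g3 g6
  rw [ep]
  exact this

/-- THE TAIL OF THE LEVEL. -/
theorem lev_prob (h : In μ s c C n₀) {K θ : ℝ} (hK : 0 < K) (hθ : 0 < θ) (hθ1 : θ ≤ 1) : ∃ A a g : ℝ, 0 < A ∧ 0 < a ∧ 0 < g ∧ g ≤ 1 ∧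
    ∃ n₁ : ℕ, 1 ≤ n₁ ∧ ∀ n : ℕ, n₁ ≤ n → ∀ N : ℕ, N ≤ n → ∀ (b : Pt) (R : Set Pt), R ⊆ bx16 μ s b N (K * wd μ s n) → ∀ q : ℝ, 0 ≤ q →
      (law μ).real (LevS μ s c θ n R q)ᶜ ≤ A * Real.exp (-(a * q ^ g)) := by
  obtain ⟨C₁, A₁, a₁, g₁, hC₁, hA₁, ha₁, hg₁, hg1', n₁, hlow⟩ := low_prob h hK hθ hθ1
  have hC : 0 < C := lt_of_lt_of_le one_pos h.C1
  -- constants
  obtain ⟨B, hB⟩ : ∃ B : ℝ, B = 3 * ((2 * K + 2) * C) := ⟨_, rfl⟩
  have hB0 : 0 < B := by rw [hB]; positivity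
  obtain ⟨a₂, ha₂⟩ : ∃ a₂ : ℝ, a₂ = min (a₁ * (1 / 2) ^ g₁) (1 / C) := ⟨_, rfl⟩
  have ha2 : 0 < a₂ := by rw [ha₂]; exact lt_min (by positivity) (by positivity)
  obtain ⟨q₀, hq₀⟩ : ∃ q₀ : ℝ, q₀ = max 1 (2 * C₁) := ⟨_, rfl⟩
  have hq01 : 1 ≤ q₀ := by rw [hq₀]; exact le_max_left _ _
  have hq02 : 2 * C₁ ≤ q₀ := by rw [hq₀]; exact le_max_right _ _
  have hEx : 0 < Real.exp (a₂ * q₀ ^ g₁) := Real.exp_pos _
  refine ⟨Real.exp (a₂ * q₀ ^ g₁) + A₁ + B, a₂, g₁, by positivity, ha2, hg₁, hg1', max 1 (max n₀ n₁), le_max_left _ _,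
    fun n hn N hN b R hR q hq => ?_⟩
  have hn1 : 1 ≤ n := (le_max_left _ _).trans hn
  have hn0 : n₀ ≤ n := ((le_max_left _ _).trans (le_max_right _ _)).trans hn
  have hnn : n₁ ≤ n := ((le_max_right _ _).trans (le_max_right _ _)).trans hn
  rcases le_total q q₀ with hqq | hqq
  · have h1 : (law μ).real (LevS μ s c θ n R q)ᶜ ≤ 1 := measureReal_le_one
    have h2 : (1 : ℝ) ≤ Real.exp (a₂ * q₀ ^ g₁) * Real.exp (-(a₂ * q ^ g₁)) := by
      rw [← Real.exp_add]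
      refine Real.one_le_exp ?_
      have := Real.rpow_le_rpow hq hqq hg₁.le
      nlinarith
    have h3 := Real.exp_pos (-(a₂ * q ^ g₁))
    nlinarith
  · have hq1 : 1 ≤ q := hq01.trans hqq
    have hE := EE_pos (μ := μ) (s := s) n
    have hw := h.wd_pos hn1
    -- the lower part
    have h1 := hlow n hnn b (q / 2) (by positivity)
    have h2 : (law μ).real (Low16 μ s K θ n b (q * EE μ s n))ᶜ ≤ A₁ * Real.exp (-(a₂ * q ^ g₁)) := by
      have h3 : (Low16 μ s K θ n b (q * EE μ s n))ᶜ ⊆ (Low16 μ s K θ n b ((C₁ + q / 2) * EE μ s n))ᶜ :=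
        Set.compl_subset_compl.2 (Low16_mono (mul_le_mul_of_nonneg_right (by linarith) hE.le) n b)
      refine (measureReal_mono h3 (measure_ne_top _ _)).trans (h1.trans (mul_le_mul_of_nonneg_left ?_ hA₁.le))
      refine Real.exp_le_exp.2 (neg_le_neg ?_)
      have e1 : (q / 2) ^ g₁ = (1 / 2) ^ g₁ * q ^ g₁ := by
        rw [← Real.mul_rpow (by norm_num) (by linarith)]
        congr 1
        ring
      rw [e1, ← mul_assoc]
      exact mul_le_mul_of_nonneg_right (by rw [ha₂]; exact min_le_left _ _) (by positivity)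
    -- the upper part
    have h3 : (law μ).real {η | sh b η ∉ Jm μ s c n 0 (K * wd μ s n) (q * EE μ s n)} ≤ B * Real.exp (-(a₂ * q ^ g₁)) := by
      refine (jm_prob_sh h hn0 hn1 (by positivity) 0 (q * EE μ s n) b).trans ?_
      have e1 : 2 * (K * wd μ s n) / wd μ s n = 2 * K := by
        field_simp
      have e2 : q * EE μ s n / (C * EE μ s n) = q * (1 / C) := by
        field_simp
      rw [e1, e2, hB]
      have h4 : Real.exp (-(q * (1 / C))) ≤ Real.exp (-(a₂ * q ^ g₁)) := by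
        refine Real.exp_le_exp.2 (neg_le_neg ?_)
        have h5 : q ^ g₁ ≤ q := by
          calc q ^ g₁ ≤ q ^ (1 : ℝ) := Real.rpow_le_rpow_of_exponent_le hq1 hg1'
            _ = q := Real.rpow_one q
        have h6 : a₂ ≤ 1 / C := by rw [ha₂]; exact min_le_right _ _
        have h7 : 0 ≤ q ^ g₁ := by positivity
        calc a₂ * q ^ g₁ ≤ (1 / C) * q ^ g₁ := mul_le_mul_of_nonneg_right h6 h7
          _ ≤ (1 / C) * q := mul_le_mul_of_nonneg_left h5 (by positivity)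
          _ = q * (1 / C) := by ring
      have h8 : 0 ≤ 3 * ((2 * K + 2) * C) := by positivity
      nlinarith [mul_le_mul_of_nonneg_left h4 h8]
    have hsub : (LevS μ s c θ n R q)ᶜ ⊆ (Low16 μ s K θ n b (q * EE μ s n))ᶜ ∪
        {η | sh b η ∉ Jm μ s c n 0 (K * wd μ s n) (q * EE μ s n)} := by
      intro η hη
      by_contra hcon
      rw [Set.mem_union, not_or, Set.notMem_compl_iff] at hcon
      obtain ⟨k1, k2⟩ := hcon
      have k3 : sh b η ∈ Jm μ s c n 0 (K * wd μ s n) (q * EE μ s n) := by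
        by_contra k4
        exact k2 k4
      exact hη (LevS_of hq hN hR k1 k3)
    have h5 := (measureReal_mono (μ := law μ) hsub (measure_ne_top _ _)).trans (measureReal_union_le _ _)
    have h6 : 0 ≤ Real.exp (a₂ * q₀ ^ g₁) * Real.exp (-(a₂ * q ^ g₁)) := by positivity
    calc (law μ).real (LevS μ s c θ n R q)ᶜ ≤ A₁ * Real.exp (-(a₂ * q ^ g₁)) + B * Real.exp (-(a₂ * q ^ g₁)) := h5.trans (add_le_add h2 h3)
      _ ≤ (Real.exp (a₂ * q₀ ^ g₁) + A₁ + B) * Real.exp (-(a₂ * q ^ g₁)) := by linarith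

/-! ### What the level gives -/

section Det

variable {θ q : ℝ} {n : ℕ} {R : Set Pt} {η : Env}

/-- UP. -/
theorem lev_V (hq : 0 ≤ q) (hη : η ∈ LevS μ s c θ n R q) {p : Pt} {j : ℕ} {y : ℤ} (hp : p ∈ R) (hp' : (p.1 + (j : ℤ), p.2 + y) ∈ R) :
    V μ s η p j ≤ q * EE μ s n := by
  have := ((LevS_iff hq).1 hη p j y hp hp').2.1
  rwa [T_zero_tilt] at this

/-- DOWN. -/
theorem lev_low (hq : 0 ≤ q) (hη : η ∈ LevS μ s c θ n R q) {p : Pt} {j : ℕ} {y : ℤ} (hp : p ∈ R) (hp' : (p.1 + (j : ℤ), p.2 + y) ∈ R)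
    (hj : θ * n ≤ j) (hy0 : 0 ≤ y) (hyj : y ≤ j) : Real.exp (-(q * EE μ s n)) ≤ W μ s η p j y := by
  have h1 := ((LevS_iff hq).1 hη p j y hp hp').1 hj
  have h2 := W_pos (μ := μ) (s := s) η p hy0 hyj
  have h3 : X μ s η p j y = -Real.log (W μ s η p j y) := rfl
  rw [h3] at h1
  calc Real.exp (-(q * EE μ s n)) ≤ Real.exp (Real.log (W μ s η p j y)) := Real.exp_le_exp.2 (by linarith)
    _ = _ := Real.exp_log h2

/-- The mass of the displacements which are far. -/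
theorem lev_far (h : In μ s c C n₀) (hq : 0 ≤ q) (hη : η ∈ LevS μ s c θ n R q) {p : Pt} {j : ℕ} {y₀ : ℤ} (hp : p ∈ R)
    (hp' : (p.1 + (j : ℤ), p.2 + y₀) ∈ R) {ρ : ℝ} (A : Finset ℤ) (hA : ∀ y ∈ A, ρ ≤ |(y : ℝ) - sl μ s * j|) :
    WS μ s η p j A ≤ 2 * Real.exp (q * EE μ s n - hc μ s c n * ρ) := by
  classical
  have hh := hc_nonneg h n
  obtain ⟨_, _, k2, k3⟩ := (LevS_iff hq).1 hη p j y₀ hp hp'
  have hs : WS μ s η p j A ≤ WS μ s η p j (A.filter fun y => ρ ≤ (y : ℝ) - sl μ s * j) +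
      WS μ s η p j (A.filter fun y => ¬ ρ ≤ (y : ℝ) - sl μ s * j) := by
    unfold WS
    rw [Finset.sum_filter_add_sum_filter_not]
  have e1 := WS_le_tilt (μ := μ) (s := s) (v := sl μ s) (h := hc μ s c n) η p j
    (A.filter fun y => ρ ≤ (y : ℝ) - sl μ s * j) (q := hc μ s c n * ρ)
    (fun y hy => mul_le_mul_of_nonneg_left (Finset.mem_filter.1 hy).2 hh)
  have e2 := WS_le_tilt (μ := μ) (s := s) (v := sl μ s) (h := -hc μ s c n) η p j
    (A.filter fun y => ¬ ρ ≤ (y : ℝ) - sl μ s * j) (q := hc μ s c n * ρ) (fun y hy => by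
      obtain ⟨k1, k2⟩ := Finset.mem_filter.1 hy
      have k3 : ρ ≤ -((y : ℝ) - sl μ s * j) := by
        rcases le_abs.1 (hA y k1) with k4 | k4
        · exact absurd k4 k2
        · exact k4
      have k5 := mul_le_mul_of_nonneg_left k3 hh
      linarith)
  have e3 : Real.exp (T μ s (sl μ s) (hc μ s c n) η p j - hc μ s c n * ρ) ≤ Real.exp (q * EE μ s n - hc μ s c n * ρ) :=
    Real.exp_le_exp.2 (by linarith)
  have e4 : Real.exp (T μ s (sl μ s) (-hc μ s c n) η p j - hc μ s c n * ρ) ≤ Real.exp (q * EE μ s n - hc μ s c n * ρ) :=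
    Real.exp_le_exp.2 (by linarith)
  linarith

/-- One displacement (any end in the row, in the region or not). -/
theorem lev_W (hq : 0 ≤ q) (hη : η ∈ LevS μ s c θ n R q) {p : Pt} {j : ℕ} {y₀ : ℤ} (hp : p ∈ R)
    (hp' : (p.1 + (j : ℤ), p.2 + y₀) ∈ R) (y : ℤ) :
    W μ s η p j y ≤ Real.exp (q * EE μ s n - hc μ s c n * |(y : ℝ) - sl μ s * j|) := by
  obtain ⟨_, _, k2, k3⟩ := (LevS_iff hq).1 hη p j y₀ hp hp'
  rcases abs_cases ((y : ℝ) - sl μ s * j) with ⟨h3, _⟩ | ⟨h3, _⟩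
  · rw [h3]
    exact (W_le_tilt (μ := μ) (s := s) (v := sl μ s) (h := hc μ s c n) η p j y).trans (Real.exp_le_exp.2 (by linarith))
  · rw [h3]
    refine (W_le_tilt (μ := μ) (s := s) (v := sl μ s) (h := -hc μ s c n) η p j y).trans (Real.exp_le_exp.2 ?_)
    have e : -hc μ s c n * ((y : ℝ) - sl μ s * j) = hc μ s c n * (-((y : ℝ) - sl μ s * j)) := by ring
    linarith

end Det

/-- The pairs of the box at row distance at least `θ n` are in the cone. -/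
theorem box_cone (h : In μ s c C n₀) {K θ : ℝ} (hK : 0 < K) (hθ : 0 < θ) : ∃ n₁ : ℕ, ∀ n : ℕ, n₁ ≤ n → ∀ (b : Pt) (N : ℕ) (p : Pt) (j : ℕ) (y : ℤ),
    p ∈ bx16 μ s b N (K * wd μ s n) → (p.1 + (j : ℤ), p.2 + y) ∈ bx16 μ s b N (K * wd μ s n) → θ * n ≤ j → 0 ≤ y ∧ y ≤ j := by
  have hs0 := h.sl_pos
  have hs1 := h.sl_lt
  have hmin : 0 < min (sl μ s) (1 - sl μ s) := lt_min hs0 (by linarith)
  have hd : 0 < min (sl μ s) (1 - sl μ s) * θ / (2 * K) := by positivity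
  obtain ⟨n₁, hn₁'⟩ := eventually_atTop.1 (h.tv.eventually_le_const hd)
  have hn₁ : ∀ n : ℕ, n₁ ≤ n → wd μ s n ≤ min (sl μ s) (1 - sl μ s) * θ / (2 * K) * n := by
    intro n hn
    have h1 := mul_le_mul_of_nonneg_left (hn₁' n hn) (Nat.cast_nonneg (α := ℝ) n)
    unfold wd
    linarith
  refine ⟨n₁, fun n hn b N p j y hp hp' hj => ?_⟩
  obtain ⟨_, _, g3⟩ := hp
  obtain ⟨_, _, g6⟩ := hp'
  dsimp only at g6
  have e0 : (y : ℝ) - sl μ s * j = ((((p.2 + y) - b.2 : ℤ) : ℝ) - sl μ s * (((p.1 + (j : ℤ)) - b.1 : ℤ) : ℝ)) -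
      (((p.2 - b.2 : ℤ) : ℝ) - sl μ s * ((p.1 - b.1 : ℤ) : ℝ)) := by
    push_cast
    ring
  have h1 : |(y : ℝ) - sl μ s * j| ≤ 2 * (K * wd μ s n) := by
    rw [e0]
    exact (abs_sub _ _).trans (by linarith)
  have h2 : 2 * (K * wd μ s n) ≤ min (sl μ s) (1 - sl μ s) * j := by
    have h3 := hn₁ n hn
    have h4 : 2 * K * (min (sl μ s) (1 - sl μ s) * θ / (2 * K) * n) = min (sl μ s) (1 - sl μ s) * (θ * n) := by
      field_simp
    have h5 := mul_le_mul_of_nonneg_left h3 (show (0 : ℝ) ≤ 2 * K by positivity)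
    have h6 := mul_le_mul_of_nonneg_left hj hmin.le
    linarith
  have h3 : min (sl μ s) (1 - sl μ s) * j ≤ sl μ s * j := mul_le_mul_of_nonneg_right (min_le_left _ _) (Nat.cast_nonneg _)
  have h4 : min (sl μ s) (1 - sl μ s) * j ≤ (1 - sl μ s) * j := mul_le_mul_of_nonneg_right (min_le_right _ _) (Nat.cast_nonneg _)
  rw [abs_le] at h1
  constructor
  · have g4 : (0 : ℝ) ≤ y := by linarith [h1.1]
    exact_mod_cast g4
  · have g4 : (y : ℝ) ≤ j := by linarith [h1.2]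
    exact_mod_cast g4

/-! ### The level as a function -/

/-- The level of a finite region. -/
def lv16 (μ : Measure ℝ) (s c θ : ℝ) (n : ℕ) (R : Finset Pt) (η : Env) : NNReal := (R ×ˢ R).sup fun z => (gl16 μ s c θ n η z.1 z.2).toNNReal

omit [IsProbabilityMeasure μ] in
theorem lv16_le_iff {θ q : ℝ} (hq : 0 ≤ q) {n : ℕ} {R : Finset Pt} {η : Env} : (lv16 μ s c θ n R η : ℝ) ≤ q ↔ η ∈ LevS μ s c θ n (R : Set Pt) q := by
  have e : (q.toNNReal : ℝ) = q := Real.coe_toNNReal q hq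
  have h1 : (lv16 μ s c θ n R η : ℝ) ≤ q ↔ lv16 μ s c θ n R η ≤ q.toNNReal := by
    rw [← NNReal.coe_le_coe, e]
  rw [h1]
  unfold lv16
  rw [Finset.sup_le_iff]
  constructor
  · intro H p hp p' hp'
    have h2 := H (p, p') (Finset.mem_product.2 ⟨hp, hp'⟩)
    rw [Real.toNNReal_le_toNNReal_iff hq] at h2
    exact h2
  · rintro H ⟨p, p'⟩ hz
    obtain ⟨hp, hp'⟩ := Finset.mem_product.1 hz
    exact Real.toNNReal_le_toNNReal (H p hp p' hp')

omit [IsProbabilityMeasure μ] in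
theorem lv16_mono {θ : ℝ} {n : ℕ} {R R' : Finset Pt} (hR : R ⊆ R') (η : Env) : lv16 μ s c θ n R η ≤ lv16 μ s c θ n R' η :=
  Finset.sup_mono (Finset.product_subset_product hR hR)

omit [IsProbabilityMeasure μ] in
theorem lv16_meas (θ : ℝ) (n : ℕ) (R : Finset Pt) : Measurable fun η : Env => lv16 μ s c θ n R η := by
  have key : ∀ A : Finset (Pt × Pt), Measurable fun η : Env => A.sup fun z => (gl16 μ s c θ n η z.1 z.2).toNNReal := by
    intro A
    classical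
    induction A using Finset.induction_on with
    | empty => simp only [Finset.sup_empty]; exact measurable_const
    | insert z A hz ih =>
      simp only [Finset.sup_insert]
      exact (gl16_meas θ n z.1 z.2).real_toNNReal.sup ih
  exact key _

/-- The tail of the level, as a function. -/
theorem lv16_prob (h : In μ s c C n₀) {K θ : ℝ} (hK : 0 < K) (hθ : 0 < θ) (hθ1 : θ ≤ 1) : ∃ A a g : ℝ, 0 < A ∧ 0 < a ∧ 0 < g ∧ g ≤ 1 ∧
    ∃ n₁ : ℕ, 1 ≤ n₁ ∧ ∀ n : ℕ, n₁ ≤ n → ∀ N : ℕ, N ≤ n → ∀ (b : Pt) (R : Finset Pt), (R : Set Pt) ⊆ bx16 μ s b N (K * wd μ s n) → ∀ q : ℝ, 0 ≤ q →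
      (law μ).real {η | q < lv16 μ s c θ n R η} ≤ A * Real.exp (-(a * q ^ g)) := by
  obtain ⟨A, a, g, hA, ha, hg, hg1, n₁, hn1, H⟩ := lev_prob h hK hθ hθ1
  refine ⟨A, a, g, hA, ha, hg, hg1, n₁, hn1, fun n hn N hN b R hR q hq => ?_⟩
  have e : {η | q < (lv16 μ s c θ n R η : ℝ)} = (LevS μ s c θ n (R : Set Pt) q)ᶜ := by
    ext η
    rw [Set.mem_compl_iff, ← lv16_le_iff hq, not_le]
    exact Iff.rfl
  rw [e]
  exact H n hn N hN b R hR q hq

end

end Pool.Agent.W_7d29a1_C1.U16
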