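import Pool.Agent.W_7d29a1_C1.LevF16

/-!
MP_7d29a1_pr, [C1] attractor route, THE LEVELS OF ALL THE TILES OF A TREE AT ONCE. (helper16)

`tsum16`: for `U ≥ U₀` the sum over the depths `j` of `C₀ κ^(b j) A exp (- a (U κ^(χ j)) ^ g)` is at most `ε`. `tiles_gen`: events `E i q`
with `P (E i q)ᶜ ≤ A exp (- a q ^ g)`. `tiles16`, `tilesF16`: the levels `LevS`, `Far16` of finitely many regions, at most
`C₀ κ^(b j)` of depth `j`: all levels are at most `U κ^(χ (depth))` up to the probability `ε`.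
-/

set_option autoImplicit false

namespace Pool.Agent.W_7d29a1_C1.U16

open MeasureTheory ProbabilityTheory Filter Topology Finset
open Pool.Agent.W_7d29a1_F Pool.Agent.W_7d29a1_h4g Pool.Agent.W_7d29a1_H Pool.Agent.W_7d29a1_HS

noncomputable section

/-- The sum over the depths. -/
theorem tsum16 {A a g κ b χ C₀ ε : ℝ} (hA : 0 < A) (ha : 0 < a) (hg : 0 < g) (hκ : 1 < κ) (_hb : 0 ≤ b) (hχ : 0 < χ) (hC : 0 ≤ C₀)
    (hε : 0 < ε) : ∃ U₀ : ℝ, 1 ≤ U₀ ∧ ∀ U : ℝ, U₀ ≤ U → ∀ J : ℕ,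
      ∑ j ∈ range J, C₀ * κ ^ (b * j) * (A * Real.exp (-(a * (U * κ ^ (χ * j)) ^ g))) ≤ ε := by
  have hκ0 : 0 < κ := by linarith
  -- κ^(b j) exp (- (a/2) (κ^(χ j))^g) ≤ M 2^(-j)
  obtain ⟨q, hq⟩ := exists_nat_ge ((b * Real.log κ + Real.log 2) / (χ * g * Real.log κ))
  have hlk : 0 < Real.log κ := Real.log_pos hκ
  obtain ⟨M, hM, HM⟩ := pow_exp (q := q) (b := 1) (c' := a / 2) one_pos (by positivity)
  have key : ∀ j : ℕ, κ ^ (b * (j : ℝ)) * Real.exp (-(a / 2 * (κ ^ (χ * (j : ℝ))) ^ g)) ≤ M * (1 / 2) ^ j := by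
    intro j
    obtain ⟨x, hx⟩ : ∃ x : ℝ, x = (κ ^ (χ * (j : ℝ))) ^ g := ⟨_, rfl⟩
    have hx1 : 1 ≤ x := by
      rw [hx]
      exact Real.one_le_rpow (Real.one_le_rpow hκ.le (by positivity)) hg.le
    have h1 := HM x hx1
    rw [Real.rpow_one] at h1
    have h2 : κ ^ (b * (j : ℝ)) * 2 ^ j ≤ x ^ q := by
      have e1 : κ ^ (b * (j : ℝ)) = Real.exp (b * j * Real.log κ) := by
        rw [Real.rpow_def_of_pos hκ0]
        congr 1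
        ring
      have e2 : (2 : ℝ) ^ j = Real.exp (j * Real.log 2) := by
        rw [Real.exp_nat_mul, Real.exp_log (by norm_num)]
      have e3 : x ^ q = Real.exp (q * (χ * j * g * Real.log κ)) := by
        rw [Real.exp_nat_mul, hx, ← Real.rpow_mul hκ0.le, Real.rpow_def_of_pos hκ0]
        congr 2
        ring
      rw [e1, e2, e3, ← Real.exp_add]
      refine Real.exp_le_exp.2 ?_
      rw [div_le_iff₀ (by positivity)] at hq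
      have hj : (0 : ℝ) ≤ j := Nat.cast_nonneg j
      nlinarith [mul_le_mul_of_nonneg_left hq hj]
    rw [← hx]
    have h3 : 0 < (2 : ℝ) ^ j := by positivity
    have h4 : 0 < Real.exp (-(a / 2 * x)) := Real.exp_pos _
    have h5 : κ ^ (b * (j : ℝ)) * Real.exp (-(a / 2 * x)) * 2 ^ j ≤ M := by
      calc κ ^ (b * (j : ℝ)) * Real.exp (-(a / 2 * x)) * 2 ^ j = (κ ^ (b * (j : ℝ)) * 2 ^ j) * Real.exp (-(a / 2 * x)) := by ring
        _ ≤ x ^ q * Real.exp (-(a / 2 * x)) := mul_le_mul_of_nonneg_right h2 h4.le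
        _ ≤ M := h1
    rw [one_div, inv_pow, ← div_eq_mul_inv, le_div_iff₀ h3]
    exact h5
  -- the choice of U
  have ht : Tendsto (fun U : ℝ => C₀ * A * (2 * M) * Real.exp (-(a / 2 * U ^ g))) atTop (𝓝 0) := by
    have h1 : Tendsto (fun U : ℝ => a / 2 * U ^ g) atTop atTop := (tendsto_rpow_atTop hg).const_mul_atTop (by positivity)
    have h2 := (Real.tendsto_exp_neg_atTop_nhds_zero.comp h1).const_mul (C₀ * A * (2 * M))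
    rw [mul_zero] at h2
    exact h2
  obtain ⟨U₀, hU₀⟩ := eventually_atTop.1 (ht.eventually_le_const hε)
  refine ⟨max 1 U₀, le_max_left _ _, fun U hU J => ?_⟩
  have hU1 : 1 ≤ U := (le_max_left _ _).trans hU
  have hU2 := hU₀ U ((le_max_right _ _).trans hU)
  have hone : ∀ j ∈ range J, C₀ * κ ^ (b * (j : ℝ)) * (A * Real.exp (-(a * (U * κ ^ (χ * (j : ℝ))) ^ g))) ≤
      C₀ * A * M * Real.exp (-(a / 2 * U ^ g)) * (1 / 2) ^ j := by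
    intro j _
    obtain ⟨x, hx⟩ : ∃ x : ℝ, x = (κ ^ (χ * (j : ℝ))) ^ g := ⟨_, rfl⟩
    have hx1 : 1 ≤ x := by
      rw [hx]
      exact Real.one_le_rpow (Real.one_le_rpow hκ.le (by positivity)) hg.le
    have hUg : 1 ≤ U ^ g := Real.one_le_rpow hU1 hg.le
    have e1 : (U * κ ^ (χ * (j : ℝ))) ^ g = U ^ g * x := by
      rw [hx, Real.mul_rpow (by linarith) (by positivity)]
    have h1 : (U ^ g + x) / 2 ≤ U ^ g * x := by nlinarith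
    have h2 : Real.exp (-(a * (U ^ g * x))) ≤ Real.exp (-(a / 2 * U ^ g)) * Real.exp (-(a / 2 * x)) := by
      rw [← Real.exp_add]
      refine Real.exp_le_exp.2 ?_
      nlinarith [mul_le_mul_of_nonneg_left h1 ha.le]
    have h3 := key j
    rw [← hx] at h3
    have hk : 0 < κ ^ (b * (j : ℝ)) := by positivity
    rw [e1]
    calc C₀ * κ ^ (b * (j : ℝ)) * (A * Real.exp (-(a * (U ^ g * x)))) ≤
          C₀ * κ ^ (b * (j : ℝ)) * (A * (Real.exp (-(a / 2 * U ^ g)) * Real.exp (-(a / 2 * x)))) :=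
          mul_le_mul_of_nonneg_left (mul_le_mul_of_nonneg_left h2 hA.le) (by positivity)
      _ = C₀ * A * Real.exp (-(a / 2 * U ^ g)) * (κ ^ (b * (j : ℝ)) * Real.exp (-(a / 2 * x))) := by ring
      _ ≤ C₀ * A * Real.exp (-(a / 2 * U ^ g)) * (M * (1 / 2) ^ j) := mul_le_mul_of_nonneg_left h3 (by positivity)
      _ = _ := by ring
  refine (sum_le_sum hone).trans ?_
  rw [← mul_sum]
  have hgeo : ∑ j ∈ range J, (1 / 2 : ℝ) ^ j ≤ 2 := by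
    have h1 := geom_sum_eq (show (1 / 2 : ℝ) ≠ 1 by norm_num) J
    rw [h1]
    have h2 : 0 ≤ (1 / 2 : ℝ) ^ J := by positivity
    rw [show (1 / 2 : ℝ) - 1 = -(1 / 2) by norm_num, div_neg, neg_le, le_div_iff₀ (by norm_num)]
    linarith
  have h1 : 0 ≤ C₀ * A * M * Real.exp (-(a / 2 * U ^ g)) := by positivity
  calc C₀ * A * M * Real.exp (-(a / 2 * U ^ g)) * ∑ j ∈ range J, (1 / 2 : ℝ) ^ j ≤ C₀ * A * M * Real.exp (-(a / 2 * U ^ g)) * 2 :=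
        mul_le_mul_of_nonneg_left hgeo h1
    _ = C₀ * A * (2 * M) * Real.exp (-(a / 2 * U ^ g)) := by ring
    _ ≤ ε := hU2

variable {μ : Measure ℝ} {s : ℝ} [IsProbabilityMeasure μ] {c C : ℝ} {n₀ : ℕ}

/-- Finitely many events with stretched tails, at most `C₀ κ^(b j)` of depth `j`. -/
theorem tiles_gen {A a g κ b χ C₀ ε : ℝ} (hA : 0 < A) (ha : 0 < a) (hg : 0 < g) (hκ : 1 < κ) (hb : 0 ≤ b) (hχ : 0 < χ) (hC : 0 ≤ C₀)
    (hε : 0 < ε) : ∃ U₀ : ℝ, 1 ≤ U₀ ∧ ∀ U : ℝ, U₀ ≤ U → ∀ {ι : Type} (I : Finset ι) (d : ι → ℕ) (E : ι → ℝ → Set Env),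
      (∀ j : ℕ, (((I.filter fun i => d i = j).card : ℕ) : ℝ) ≤ C₀ * κ ^ (b * (j : ℝ))) →
      (∀ i ∈ I, ∀ q : ℝ, 0 ≤ q → (law μ).real (E i q)ᶜ ≤ A * Real.exp (-(a * q ^ g))) →
      (law μ).real {η | ∃ i ∈ I, η ∉ E i (U * κ ^ (χ * (d i : ℝ)))} ≤ ε := by
  classical
  obtain ⟨U₀, hU₀, H⟩ := tsum16 (b := b) hA ha hg hκ hb hχ hC hε
  refine ⟨U₀, hU₀, fun U hU ι I d E hcard hP => ?_⟩
  have hκ0 : 0 < κ := by linarith
  have hU1 : 1 ≤ U := hU₀.trans hU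
  obtain ⟨J, hJ⟩ : ∃ J : ℕ, ∀ i ∈ I, d i < J := ⟨I.sup d + 1, fun i hi => Nat.lt_succ_of_le (le_sup (f := d) hi)⟩
  have hsub : {η : Env | ∃ i ∈ I, η ∉ E i (U * κ ^ (χ * (d i : ℝ)))} ⊆ ⋃ i ∈ I, (E i (U * κ ^ (χ * (d i : ℝ))))ᶜ := by
    rintro η ⟨i, hi, h⟩
    exact Set.mem_biUnion (mem_coe.2 hi) h
  refine (measureReal_mono hsub (measure_ne_top _ _)).trans ((measureReal_biUnion_finset_le _ _).trans ?_)
  have h1 : ∀ i ∈ I, (law μ).real (E i (U * κ ^ (χ * (d i : ℝ))))ᶜ ≤ A * Real.exp (-(a * (U * κ ^ (χ * (d i : ℝ))) ^ g)) :=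
    fun i hi => hP i hi _ (by positivity)
  refine (sum_le_sum h1).trans ?_
  have h2 : ∑ i ∈ I, A * Real.exp (-(a * (U * κ ^ (χ * (d i : ℝ))) ^ g)) =
      ∑ j ∈ range J, ∑ i ∈ I.filter (fun i => d i = j), A * Real.exp (-(a * (U * κ ^ (χ * (d i : ℝ))) ^ g)) :=
    (sum_fiberwise_of_maps_to (fun i hi => mem_range.2 (hJ i hi)) _).symm
  rw [h2]
  refine le_trans (sum_le_sum fun j _ => ?_) (H U hU J)
  have h3 : ∀ i ∈ I.filter (fun i => d i = j), A * Real.exp (-(a * (U * κ ^ (χ * (d i : ℝ))) ^ g)) =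
      A * Real.exp (-(a * (U * κ ^ (χ * (j : ℝ))) ^ g)) := by
    intro i hi
    rw [(mem_filter.1 hi).2]
  rw [sum_congr rfl h3, sum_const, nsmul_eq_mul]
  exact mul_le_mul_of_nonneg_right (hcard j) (by positivity)

/-- THE TILES, levels of regions. -/
theorem tiles16 (h : In μ s c C n₀) {K θ : ℝ} (hK : 0 < K) (hθ : 0 < θ) (hθ1 : θ ≤ 1) {κ b χ C₀ ε : ℝ} (hκ : 1 < κ) (hb : 0 ≤ b)
    (hχ : 0 < χ) (hC : 0 ≤ C₀) (hε : 0 < ε) : ∃ (U₀ : ℝ) (n₁ : ℕ), 1 ≤ U₀ ∧ 1 ≤ n₁ ∧ ∀ U : ℝ, U₀ ≤ U → ∀ {ι : Type} (I : Finset ι) (d : ι → ℕ)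
      (n N : ι → ℕ) (f : ι → Pt) (R : ι → Set Pt),
      (∀ j : ℕ, (((I.filter fun i => d i = j).card : ℕ) : ℝ) ≤ C₀ * κ ^ (b * (j : ℝ))) →
      (∀ i ∈ I, n₁ ≤ n i ∧ N i ≤ n i ∧ R i ⊆ bx16 μ s (f i) (N i) (K * wd μ s (n i))) →
      (law μ).real {η | ∃ i ∈ I, η ∉ LevS μ s c θ (n i) (R i) (U * κ ^ (χ * (d i : ℝ)))} ≤ ε := by
  obtain ⟨A, a, g, hA, ha, hg, hg1, n₁, hn1, H⟩ := lev_prob h hK hθ hθ1
  obtain ⟨U₀, hU₀, H2⟩ := tiles_gen (μ := μ) hA ha hg hκ hb hχ hC hε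
  refine ⟨U₀, n₁, hU₀, hn1, fun U hU ι I d n N f R hcard hR => ?_⟩
  exact H2 U hU I d (fun i q => LevS μ s c θ (n i) (R i) q) hcard fun i hi q hq =>
    H (n i) (hR i hi).1 (N i) (hR i hi).2.1 (f i) (R i) (hR i hi).2.2 q hq

/-- THE TILES, all lateral boxes. -/
theorem tilesF16 (h : In μ s c C n₀) {K θ : ℝ} (hK : 0 < K) (hθ : 0 < θ) (hθ1 : θ ≤ 1) : ∃ P : ℕ, ∀ {κ b χ C₀ ε : ℝ}, 1 < κ → 0 ≤ b →
    0 < χ → 0 ≤ C₀ → 0 < ε → ∃ (U₀ : ℝ) (n₁ : ℕ), 1 ≤ U₀ ∧ 1 ≤ n₁ ∧ ∀ U : ℝ, U₀ ≤ U → ∀ {ι : Type} (I : Finset ι) (d : ι → ℕ)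
      (n N : ι → ℕ) (f : ι → Pt),
      (∀ j : ℕ, (((I.filter fun i => d i = j).card : ℕ) : ℝ) ≤ C₀ * κ ^ (b * (j : ℝ))) →
      (∀ i ∈ I, n₁ ≤ n i ∧ N i ≤ n i) →
      (law μ).real {η | ∃ i ∈ I, η ∉ Far16 μ s c θ K (n i) (N i) P (f i) (U * κ ^ (χ * (d i : ℝ)))} ≤ ε := by
  obtain ⟨P, A, a, g, hA, ha, hg, hg1, n₁, hn1, H⟩ := far_prob h hK hθ hθ1
  refine ⟨P, ?_⟩
  intro κ b χ C₀ ε hκ hb hχ hC hε
  obtain ⟨U₀, hU₀, H2⟩ := tiles_gen (μ := μ) hA ha hg hκ hb hχ hC hε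
  refine ⟨U₀, n₁, hU₀, hn1, fun U hU ι I d n N f hcard hR => ?_⟩
  exact H2 U hU I d (fun i q => Far16 μ s c θ K (n i) (N i) P (f i) q) hcard fun i hi q hq =>
    H (n i) (hR i hi).1 (N i) (hR i hi).2 (f i) q hq

end

end Pool.Agent.W_7d29a1_C1.U16
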