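import Pool.Agent.W_7d29a1_C1.WrF19
import Pool.Agent.W_7d29a1_C1.PreC40

/-!
Both halves (MP_7d29a1_pr), attractor route [C1], SEP: THE ANALYTIC HALF OF THE SEPARATION OVER THE FILTER OF THE CONSTANTS. (helper19)

`cf19`: the constants of the families at a record `Cst` (SepC2). `rocC19`: the numbers of the ratio (`RoC41`) hold eventually. **`lfC19`**:
eventually `Evn (LfF (Fam98 ..) C.P μ)`, from the gaps `OkE41`, `Evn WQ19` (at `C₀ = 4 / 3`, `p₀ = pG`, `c₁ = pL`) and `Evn PI19`.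
-/

set_option autoImplicit false

namespace Pool.Agent.W_7d29a1_C1.LfC19

open Filter MeasureTheory
open Pool.Agent.W_7d29a1_F Pool.Agent.W_7d29a1_h4g Pool.Agent.W_7d29a1_H Pool.Agent.W_7d29a1_HS
open Pool.Agent.W_7d29a1_C1.N49
open Pool.Agent.W_7d29a1_C1.Q49
open Pool.Agent.W_7d29a1_C1.Cs2
open Pool.Agent.W_7d29a1_C1.MC71 (K71 K71_top)
open Pool.Agent.W_7d29a1_C1.MM28 (KM28 KM28_top)
open Pool.Agent.W_7d29a1_C1.WrS19 Pool.Agent.W_7d29a1_C1.WrM19 Pool.Agent.W_7d29a1_C1.WrW19 Pool.Agent.W_7d29a1_C1.WrF19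
open scoped ENNReal

noncomputable section

/-- **THE CONSTANTS OF THE FAMILIES.** -/
def cf19 (C : Cst) : Cf98 where
  sgm := C.sgm
  rc := C.rc
  r0 := C.r0
  R0 := C.R0
  R2 := C.R2
  R1 := C.R1
  aF := C.aF
  bF := C.R1
  gF := C.gf
  al := C.al
  U₁ := C.U1n
  Uw := C.Uw
  V₁ := C.V1
  Re := C.Re
  Qe := C.Qe

variable {S : Is → Cst → Prop}

/-- **THE NUMBERS OF THE RATIO.** `Ck` = the constant of `ro98`, a function of `kw`. -/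
theorem rocC19 {c : ℝ} (hc : 0 < c) (Ck : ℝ → ℝ) :
    EvC S fun C => RoC41 c C.kw (Ck C.kw) C.Cr (C.R1 - 1) C.al C.U1n C.Uw C.V1 C.Re C.Qe C.R1 (C.sgm * C.R1) := by
  filter_upwards [FC.V1_ge S fun _ => 0, FC.Uw_ge S fun _ => 0, FC.sgm_le S (fun _ => c / 80) (fun _ => by positivity),
    FC.Re_ge S fun _ => 0, FC.Qe_ge S fun _ => 0, FC.al_ge S fun C => 2 * C.V1 + Ck C.kw,
    FC.U1n_ge S fun C => C.Qe + c / 8 * (C.Re + C.kw) + 1,
    FC.R1_ge S fun C => max (max 0 (C.kw + 2)) (max (C.Re + 2) ((2 * C.al + 5 * (1 / 16 + C.Uw) + C.U1n + 2 + c / 2) * (16 / (7 * c)))),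
    FC.Cr_ge S fun C => 2 * (2 + 2 * C.al + 5 * (C.sgm * C.R1 + 1 / 16 + C.Uw) + C.U1n)] with C h1 h2 h3 h4 h5 h6 h7 h8 h9
  have g1 : 0 ≤ C.R1 := ((le_max_left _ _).trans (le_max_left _ _)).trans h8
  have g2 : C.kw + 2 ≤ C.R1 := ((le_max_right _ _).trans (le_max_left _ _)).trans h8
  have g3 : C.Re + 2 ≤ C.R1 := ((le_max_left _ _).trans (le_max_right _ _)).trans h8
  have g4 : (2 * C.al + 5 * (1 / 16 + C.Uw) + C.U1n + 2 + c / 2) * (16 / (7 * c)) ≤ C.R1 :=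
    ((le_max_right _ _).trans (le_max_right _ _)).trans h8
  have g5 : C.sgm * C.R1 ≤ c / 80 * C.R1 := mul_le_mul_of_nonneg_right h3.2 g1
  have g6 : 2 * C.al + 5 * (1 / 16 + C.Uw) + C.U1n + 2 + c / 2 ≤ C.R1 * (7 * c / 16) := by
    have e1 : (2 * C.al + 5 * (1 / 16 + C.Uw) + C.U1n + 2 + c / 2) * (16 / (7 * c)) * (7 * c / 16) =
        2 * C.al + 5 * (1 / 16 + C.Uw) + C.U1n + 2 + c / 2 := by
      field_simp
    have e2 := mul_le_mul_of_nonneg_right g4 (show 0 ≤ 7 * c / 16 by positivity)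
    rwa [e1] at e2
  exact
    { V0 := h1
      Re0 := h4
      Qe0 := h5
      Uw0 := h2
      x0 := mul_nonneg h3.1.le g1
      kb := by linarith
      Rb := by linarith
      bR := by linarith
      al_ge := h6
      U_ge := h7
      b_ge := by nlinarith
      Cr_ge := h9 }

/-- The numbers of the slots `St`, `Fw` and the lost scales. -/
theorem numC19 : EvC S fun C => C.Cr < C.Cd ∧ 5 / 2 ≤ C.bS ∧ 2 < C.R1 ∧ C.R1 < C.aF ∧ C.aF < 2 * C.kn - 2 ∧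
    C.aF + 1 / 2 + (C.kn + 2 * C.kb) ≤ 2 ^ (C.rr + 2) := by
  choose fr hfr using fun x : ℝ => exists_pow_ge x
  filter_upwards [FC.Cd_ge S fun C => C.Cr + 1, FC.bS_ge S fun _ => 5 / 2, FC.R1_ge S fun _ => 3, FC.aF_ge S fun C => C.R1 + 1,
    FC.kn_ge S fun C => (C.aF + 3) / 2, FC.rr_ge S fun C => fr (C.aF + 1 / 2 + (C.kn + 2 * C.kb))] with C h1 h2 h3 h4 h5 h6
  have g1 : C.Cr + 1 ≤ C.Cd := h1
  have g3 : (3 : ℝ) ≤ C.R1 := h3
  have g4 : C.R1 + 1 ≤ C.aF := h4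
  have g5 : (C.aF + 3) / 2 ≤ C.kn := h5
  have g6 : fr (C.aF + 1 / 2 + (C.kn + 2 * C.kb)) ≤ C.rr := h6
  exact ⟨by linarith, h2, by linarith, by linarith, by linarith, hfr _ _ (by omega)⟩

/-- The gain `c'` and the constant `C1`. -/
theorem momC19 (hp : EvC S fun C => 0 < C.pL) : EvC S fun C =>
    ENNReal.ofReal C.cp * K71 (4 / 3) C.pG ≤ ENNReal.ofReal C.pL ∧
      KM28 (4 / 3) C.pG (ENNReal.ofReal C.pL) ≤ ENNReal.ofReal C.C1 := by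
  classical
  have key : ∀ C : Cst, 0 < C.pL → ENNReal.ofReal C.pL / (K71 (4 / 3) C.pG + 1) ≠ 0 ∧
      ENNReal.ofReal C.pL / (K71 (4 / 3) C.pG + 1) ≠ ⊤ := fun C h => by
    refine ⟨?_, ?_⟩
    · rw [Ne, ENNReal.div_eq_zero_iff, not_or]
      exact ⟨(ENNReal.ofReal_pos.2 h).ne', ENNReal.add_ne_top.2 ⟨K71_top _ _, ENNReal.one_ne_top⟩⟩
    · exact ENNReal.div_ne_top ENNReal.ofReal_ne_top (by positivity)
  filter_upwards [hp, FC.cp_le S (fun C => if 0 < (ENNReal.ofReal C.pL / (K71 (4 / 3) C.pG + 1)).toReal then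
      (ENNReal.ofReal C.pL / (K71 (4 / 3) C.pG + 1)).toReal else 1) (fun C => by split_ifs with h <;> [exact h; exact one_pos]),
    FC.C1_ge S fun C => (KM28 (4 / 3) C.pG (ENNReal.ofReal C.pL)).toReal] with C h1 h2 h3
  obtain ⟨k1, k2⟩ := key C h1
  have g1 : C.cp ≤ if 0 < (ENNReal.ofReal C.pL / (K71 (4 / 3) C.pG + 1)).toReal then
      (ENNReal.ofReal C.pL / (K71 (4 / 3) C.pG + 1)).toReal else 1 := h2.2
  rw [if_pos (ENNReal.toReal_pos k1 k2)] at g1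
  have g2 : ENNReal.ofReal C.cp ≤ ENNReal.ofReal C.pL / (K71 (4 / 3) C.pG + 1) := ENNReal.ofReal_le_of_le_toReal g1
  refine ⟨?_, ?_⟩
  · calc ENNReal.ofReal C.cp * K71 (4 / 3) C.pG ≤ ENNReal.ofReal C.pL / (K71 (4 / 3) C.pG + 1) * (K71 (4 / 3) C.pG + 1) :=
          mul_le_mul' g2 le_self_add
      _ = ENNReal.ofReal C.pL := ENNReal.div_mul_cancel (by positivity) (ENNReal.add_ne_top.2 ⟨K71_top _ _, ENNReal.one_ne_top⟩)
  · have g3 : (KM28 (4 / 3) C.pG (ENNReal.ofReal C.pL)).toReal ≤ C.C1 := h3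
    rw [← ENNReal.ofReal_toReal (KM28_top (C₀ := 4 / 3) (p₀ := C.pG) (ENNReal.ofReal_pos.2 h1).ne')]
    exact ENNReal.ofReal_le_ofReal g3

/-- **THE ANALYTIC HALF OF THE SEPARATION.** -/
theorem lfC19 {μ : Measure ℝ} [IsProbabilityMeasure μ] {s c Cc : ℝ} {n₀ : ℕ} (hI : In μ s c Cc n₀)
    (hE9 : ∀ᶠ n : ℕ in Filter.atTop, (n : ℝ) ^ (1 / 9 : ℝ) ≤ EE μ s n) {D : Dat} {Nm : Cst → NmF} {xF : Cst → ℝ} {R : Cst → Rt19}
    (hp : EvC S fun C => 0 < C.pG ∧ 0 < C.pL)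
    (hN : EvC S fun C => OkE41 C.P D μ s (Nm C) ((cf19 C).nr μ s c))
    (hW : EvC S fun C => Evn C.P D μ s (WQ19 (Fam98o μ s c C.P (Nm C) (cf19 C)) C.P μ s c (4 / 3) C.pG (xF C) (ENNReal.ofReal C.pL)))
    (hR : EvC S fun C => (R C).Ok ∧ (R C).fw + 1 ≤ C.gf - 1 / 16)
    (hP : EvC S fun C => Evn C.P D μ s (PI19 (Fam98o μ s c C.P (Nm C) (cf19 C)) (R C) C.P.bS C.R1)) :
    EvC S fun C => Evn C.P D μ s (LfF (Fam98 μ s c C.P (Nm C) (cf19 C)) C.P μ) := by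
  classical
  choose! Ck hCk H using fun (kw : ℝ) (hkw : 0 ≤ kw) => lfF19 (μ := μ) (s := s) (c := c) hI hE9 hkw
  filter_upwards [evPf40 S, FC.kw_ge S fun _ => 0, rocC19 (S := S) hI.c0 Ck, numC19 (S := S), momC19 (hp.mono fun C h => h.2), hp, hN, hW,
    hR, hP] with C hPf hkw hroc hnum hmom hp hN hW hR hP
  obtain ⟨⟨e1, e2, e3⟩, ⟨e4, e5, e6⟩, ⟨e7, e8, e9, e10⟩, ⟨e11, e12⟩, e13, e14, e15⟩ := hPf
  obtain ⟨n1, n2, n3, n4, n5, n6⟩ := hnum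
  refine H C.kw hkw (P := C.P) (D := D) (N := Nm C) (F := cf19 C) e1 (by rw [e7, e8]; exact n1) (by rw [e4])
    (by rw [e4, e5]; exact n2) n3 n4 (by rw [e2]; exact n5) (by rw [e2, e3, e13]; exact n6) (by rw [e7]; exact hroc) hN (by norm_num)
    hp.1 (ENNReal.ofReal_pos.2 hp.2).ne' ENNReal.ofReal_ne_top (by rw [e11]; exact hmom.1) (by rw [e12]; exact hmom.2) hW hR.1 hR.2 hP

end

end Pool.Agent.W_7d29a1_C1.LfC19
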