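import Pool.Agent.W_7d29a1_C1.Lit9
import Pool.Agent.W_7d29a1_C1.KAll21

/-!
Both halves (MP_7d29a1_pr), attractor route [C1], SHELL: THE LITERAL DATA OF A SUCCESS FROM THE KERNEL FACTS. (helper44)

`lit_of_kall` : `Lit9` from helper21's `KAll`, `KMid`, `KSep` (kernels inside, envelopes to the second seam), the joint profile at the first
seam and the window of the future at the second seam. The real system of slopes is `G = bw`, the flat one `G = 1`, `G0 = 1`. The real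
`Φ` is measured by `k0`, the flat `Φf` by the kernel of the cells `kc`; `e'` : errors of the real system, `e` : errors of the flat one.
-/

set_option autoImplicit false
set_option linter.unusedSectionVars false

namespace Pool.Agent.W_7d29a1_C1.Lt44

open MeasureTheory Finset
open Pool.Agent.W_7d29a1_F Pool.Agent.W_7d29a1_C1.S71
open Pool.Agent.W_7d29a1_C1.K91 (wt wt_pos shw)
open Pool.Agent.W_7d29a1_C1.K91P (fw bw shp bw_pos)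
open Pool.Agent.W_7d29a1_C1.H60
open Pool.Agent.W_7d29a1_C1.H60.Cx (l)
open Pool.Agent.W_7d29a1_C1.R26P (kf)
open Pool.Agent.W_7d29a1_C1.F74 (cl2)
open Pool.Agent.W_7d29a1_C1.Sh21 (All SeamIn Mid KAll KMid KSep js)
open Pool.Agent.W_7d29a1_C1.Lt9 (LitP9 Lit9)

noncomputable section

variable {Γ : Cx} {η : Env} {c0 n1 ne nb n3 m kg ng kr D' m0 : ℕ} {a1 b1 a2 b2 xa xb s da db ya yb za zb va vb xm xn : ℤ} {d0 : Finset ℤ}
  {kc k0 k1 ke k2 kg' km' : ℤ → ℤ → ℝ} {δ e e' e1 e2 U L L0 V A0 A1 A2 A3 G0 Ag Am Ar Φ Φf : ℝ}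

/-- **THE LITERAL DATA OF A SUCCESS FROM THE KERNEL FACTS.** -/
theorem lit_of_kall
    (A : KAll (wt η) Γ.p 0 (Γ.k + c0) c0 n1 ne nb n3 a1 b1 a2 b2 xa xb s da db ya yb za zb kc k0 k1 ke k2 δ e' U L L0 A0 A1 A2 A3)
    (M : KMid (wt η) Γ.p 0 (Γ.k + c0) c0 kg ng kr a1 a2 va vb xm xn da db d0 (Icc 0 (Γ.k + c0 + n1 + ne + nb + n3)) kc kg' km' ke
      δ e L A0 A1 Ag Am Ar)
    (S : KSep (wt η) Γ.p 0 (Γ.k + c0) c0 n1 a1 a2 s (Icc 0 (Γ.k + c0 + n1 + ne + nb + n3)) kc k1 e A0) (hee : e' ≤ e)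
    (hΦ : 1 ≤ Φ) (hΦf : 1 ≤ Φf) (hG0 : 0 < G0)
    (phi : ∀ a ∈ cl2 a1 b1 a2 b2, ∑ z ∈ Icc (0 : ℤ) (Γ.k + c0 + n1 + ne + nb + n3),
      k0 a z * bw (wt η) Γ.p (c0 + n1 + ne + nb + n3) m z ≤ Φ * G0)
    (phi' : ∀ a ∈ cl2 a1 b1 a2 b2, ∑ z ∈ Icc (0 : ℤ) (Γ.k + c0 + n1 + ne + nb + n3), kc a z ≤ Φf)
    (hV : 1 ≤ V) (lw : G0 ≤ V * bw (wt η) Γ.p (c0 + n1 + ne + nb + n3) m ((za + zb) / 2))
    (I : SeamIn 0 (Γ.k + c0) (fw (wt η) Γ.p l c0) (fw (wt η) Γ.p Γ.r c0) a1 b1 a2 b2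
      (fun x => js (Icc (0 : ℤ) (Γ.k + c0 + n1 + ne + nb + n3)) k0 (bw (wt η) Γ.p (c0 + n1 + ne + nb + n3) m) G0 x / Φ) e1 e2)
    (he1 : 0 ≤ e1) (he2 : 0 ≤ e2) (hN : c0 + (n1 + ne + nb + n3) + m = Γ.N) (ha2 : a2 ≤ c0) (hn : n1 ≤ D')
    (hD : D' + m0 ≤ n1 + ne + nb) (hk : kg + ng + kr = n1 + ne) (hg : kg + ng ≤ D') :
    Lit9 Γ η c0 n1 D' (n1 + ne + nb + n3) m0 a1 b1 a2 b2 δ (e' * Φ) e1 e2 U (L * Φ) L0 V (e * Φf) U (L * Φf) := by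
  have hb : ∀ z, 0 ≤ bw (wt η) Γ.p (c0 + n1 + ne + nb + n3) m z := fun z => (bw_pos (wt_pos η) L91.p_pos _ _ z).le
  have L1 := A.L1
  have phi1 : ∀ a ∈ cl2 a1 b1 a2 b2, ∑ z ∈ Icc (0 : ℤ) (Γ.k + c0 + n1 + ne + nb + n3), kc a z * (fun _ : ℤ => (1 : ℝ)) z ≤ Φf * 1 :=
    fun a ha => by
      simp only [mul_one]
      exact phi' a ha
  obtain ⟨m1, m4, m3, sub⟩ := A.cells
  exact ⟨ne, nb, n3, m, kg, ng, kr, xa, xb, s, da, db, ya, yb, za, zb, va, vb, xm, xn, d0, _, _, _, _, _, _, _, _, _, _, _, _, A0, A1, A2,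
    A3, G0, Ag, Am, Ar, rfl,
    { S := A.all (wt_pos η) L91.p_pos (fun z _ => hb z) hG0 hΦ phi
      F := Sh21.Fut.real hG0 hV lw hb
      S' := (A.mono_e hee).flat (wt_pos η) L91.p_pos (fun _ _ => zero_le_one) one_pos hΦf phi1
      hp3 := fun _ _ => by norm_num
      I := I
      Mi := M.mid (wt_pos η) L91.p_pos (fun _ _ => zero_le_one) one_pos hΦf (by linarith) (A.e0.trans hee) (mul_pos A.A0p A.A1p).le
        (phi1 a1 m1) (phi1 a2 m3)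
      Sp := S.sep (fun _ _ => zero_le_one) one_pos (A.e0.trans hee) A.A0p.le (phi1 a1 m1) (phi1 a2 m3)
      he1 := he1
      he2 := he2
      hN := hN
      ha2 := ha2
      hn := hn
      hD := hD
      hk := hk
      hg := hg }⟩

end

end Pool.Agent.W_7d29a1_C1.Lt44
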