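import Pool.Agent.W_7d29a1_C1.LitK44
import Pool.Agent.W_7d29a1_C1.Sets47

/-!
Both halves (MP_7d29a1_pr), attractor route [C1], SHELL: THE LITERAL DATA OF A SUCCESS FROM THE SET `So` AND THE KERNELS INSIDE. (helper44)

`lit_of_so` : the environment is in helper47's `So47` (seam at `c0`, window and joint slope of the future at `c3`), the kernels of the
rows `c0 .. c3` satisfy `KAll` (`kc` : kernel of the cells, `σ.k0` of `So47` for the other starts), `KMid`, `KSep`. The size of the future is taken as `Φ` times its value at the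
column `ζc`: the real slope of the cells is at most `1`, and the cost `Φ` of the outer scale enters the window constant only. The window
`[za, zb]` of the last buffer is free, only its middle column is `ζc`: the window bound `V` of `So47` is not used.
-/

set_option autoImplicit false
set_option linter.unusedSectionVars false

namespace Pool.Agent.W_7d29a1_C1.Lt44

open MeasureTheory Finset
open Pool.Agent.W_7d29a1_F Pool.Agent.W_7d29a1_C1.S71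
open Pool.Agent.W_7d29a1_C1.K91 (wt wt_pos shw)
open Pool.Agent.W_7d29a1_C1.K91P (fw bw shp bw_pos)
open Pool.Agent.W_7d29a1_C1.H60
open Pool.Agent.W_7d29a1_C1.H60.Cx (l)
open Pool.Agent.W_7d29a1_C1.R26P (kf)
open Pool.Agent.W_7d29a1_C1.F74 (cl2)
open Pool.Agent.W_7d29a1_C1.Sh21 (All SeamIn Mid KAll KMid KSep js)
open Pool.Agent.W_7d29a1_C1.Lt9 (LitP9 Lit9)
open Pool.Agent.W_7d29a1_C1.Fr47 (NS47 So47 Fu47 Fu47_pos)

noncomputable section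

variable {Γ : Cx} {η : Env} {σ : NS47} {j : ℕ} {z : ℕ × ℤ} {n1 ne nb n3 kg ng kr D' m0 : ℕ}
  {xa xb s da db ya yb za zb va vb xm xn : ℤ} {d0 : Finset ℤ}
  {kc k1 ke k2 kg' km' : ℤ → ℤ → ℝ} {δ e e' U L L0 A0 A1 A2 A3 Ag Am Ar Φf : ℝ}

/-- **THE LITERAL DATA OF A SUCCESS FROM THE SET `So` AND THE KERNELS INSIDE.** -/
theorem lit_of_so (hS : η ∈ So47 Γ σ j z)
    (A : KAll (wt η) Γ.p 0 (Γ.k + σ.c0 j z) (σ.c0 j z) n1 ne nb n3 (z.2 + σ.α₁ j) (z.2 + σ.β₁ j) (z.2 + σ.α₂ j) (z.2 + σ.β₂ j) xa xb s da db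
      ya yb za zb kc (σ.k0 j z) k1 ke k2 δ e' U L L0 A0 A1 A2 A3)
    (M : KMid (wt η) Γ.p 0 (Γ.k + σ.c0 j z) (σ.c0 j z) kg ng kr (z.2 + σ.α₁ j) (z.2 + σ.α₂ j) va vb xm xn da db d0
      (Icc 0 (Γ.k + σ.c3 j z)) kc kg' km' ke δ e L A0 A1 Ag Am Ar)
    (S : KSep (wt η) Γ.p 0 (Γ.k + σ.c0 j z) (σ.c0 j z) n1 (z.2 + σ.α₁ j) (z.2 + σ.α₂ j) s (Icc 0 (Γ.k + σ.c3 j z)) kc k1 e A0)
    (hee : e' ≤ e) (hzc : (za + zb) / 2 = z.2 + σ.ζc j)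
    (hn4 : n1 + ne + nb + n3 = 2 * σ.T j) (hΦ : 1 ≤ σ.Φ j) (hΦf : 1 ≤ Φf)
    (phi' : ∀ a ∈ cl2 (z.2 + σ.α₁ j) (z.2 + σ.β₁ j) (z.2 + σ.α₂ j) (z.2 + σ.β₂ j),
      ∑ v ∈ Icc (0 : ℤ) (Γ.k + σ.c3 j z), kc a v ≤ Φf)
    (he1 : 0 ≤ σ.e1 j) (he2 : 0 ≤ σ.e2 j) (hN : z.1 + σ.T j + 1 ≤ Γ.N) (ha2 : z.2 + σ.α₂ j ≤ σ.c0 j z) (hn : n1 ≤ D')
    (hD : D' + m0 ≤ n1 + ne + nb) (hk : kg + ng + kr = n1 + ne) (hg : kg + ng ≤ D') :
    Lit9 Γ η (σ.c0 j z) n1 D' (2 * σ.T j) m0 (z.2 + σ.α₁ j) (z.2 + σ.β₁ j) (z.2 + σ.α₂ j) (z.2 + σ.β₂ j) δ e' (σ.e1 j) (σ.e2 j) U L L0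
      (σ.Φ j) (e * Φf) U (L * Φf) := by
  obtain ⟨hT, hI, -, hphi⟩ := hS
  rw [Set.mem_ofPred_eq] at hT hI hphi
  have c3e : σ.c3 j z = σ.c0 j z + n1 + ne + nb + n3 := by
    unfold NS47.c3 NS47.c0
    omega
  have c3z : (Γ.k : ℤ) + σ.c0 j z + n1 + ne + nb + n3 = Γ.k + σ.c3 j z := by
    rw [c3e]
    push_cast
    ring
  have hm : Γ.N - σ.c3 j z = Γ.N - (σ.c0 j z + n1 + ne + nb + n3) := by rw [c3e]
  obtain ⟨Zc, hZc⟩ : ∃ Zc : ℝ, Zc = Fu47 Γ σ j z η (z.2 + σ.ζc j) := ⟨_, rfl⟩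
  have hZ0 : 0 < Zc := hZc ▸ Fu47_pos η _
  have hbw : bw (wt η) Γ.p (σ.c0 j z + n1 + ne + nb + n3) (Γ.N - σ.c3 j z) = Fu47 Γ σ j z η := by
    unfold Fu47
    rw [c3e]
  rw [← hZc] at hI hphi
  have key := lit_of_kall (Γ := Γ) (η := η) (m := Γ.N - σ.c3 j z) (m0 := m0) (D' := D') (Φ := 1) (Φf := Φf) (G0 := σ.Φ j * Zc) (V := σ.Φ j)
    (e1 := σ.e1 j) (e2 := σ.e2 j) A (M := by rw [c3z]; exact M) (S := by rw [c3z]; exact S) hee le_rfl hΦf (mul_pos (by linarith) hZ0)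
    (by
      rw [hbw, c3z]
      intro a ha
      rw [one_mul]
      exact hphi a ha)
    (by
      rw [c3z]
      exact phi') hΦ
    (by
      rw [hbw, hzc, hZc])
    (by
      rw [hbw, c3z]
      have e0 : (fun x => js (Icc 0 (Γ.k + σ.c3 j z)) (σ.k0 j z) (Fu47 Γ σ j z η) Zc x / σ.Φ j) =
          fun x => js (Icc 0 ((Γ.k : ℤ) + σ.c3 j z)) (σ.k0 j z) (Fu47 Γ σ j z η) (σ.Φ j * Zc) x / 1 := by
        funext x
        unfold js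
        rw [div_one, div_div, mul_comm Zc]
      rw [e0] at hI
      exact hI)
    he1 he2 (by
      unfold NS47.c3 NS47.c0
      omega) ha2 hn hD hk hg
  rw [mul_one, mul_one, hn4] at key
  exact key

end

end Pool.Agent.W_7d29a1_C1.Lt44
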