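import Pool.Agent.W_7d29a1_C1.TamO20

/-!
MP_7d29a1_pr, [C1], SEP: THE TAME MASSES OF THE WINDOW, THE SLOPE BEFORE THE RATIO OF THE UNITS. (helper30; text of helper20's TamV20, TamO20)

`tamV30`, `tamM30`, `tamO30` : `tamV20`, `tamM20`, `tamO20` with `wd T ≤ wd Tt`, `EE Tt ≤ ρ EE T`, `EE Tt / wd Tt ≤ EE T / wd T`: the slope
of D2 is only asked to be `≤ c / 16`, whatever the ratio `ρ` of the energies is.
-/

set_option autoImplicit false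

namespace Pool.Agent.W_7d29a1_C1.TamV20

open MeasureTheory ProbabilityTheory Filter Topology Finset
open Pool.Agent.W_7d29a1_F hiding Bw G
open Pool.Agent.W_7d29a1_h4g Pool.Agent.W_7d29a1_HS
open Pool.Agent.W_7d29a1_H hiding ex gg
open Pool.Agent.W_7d29a1_C1 Pool.Agent.W_7d29a1_C1.H75 Pool.Agent.W_7d29a1_C1.U16 Pool.Agent.W_7d29a1_C1.FarK89 Pool.Agent.W_7d29a1_C1.FarW89
open Pool.Agent.W_7d29a1_C1.K91 (wt wt_pos)
open Pool.Agent.W_7d29a1_C1.K91P (bw bw_pos)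
open Pool.Agent.W_7d29a1_C1.Tb87 (Mx kx Mo Mo_pos Mo_eq Mo_Mx Mx_pos kx_nonneg Mx_kx)
open Pool.Agent.W_7d29a1_C1.FreK35 (nk1b)
open Pool.Agent.W_7d29a1_C1.DD84 (scale_num)
open Pool.Agent.W_7d29a1_C1.H60
open Pool.Agent.W_7d29a1_C1.G37 (Gm)
open Pool.Agent.W_7d29a1_C1.Ou37

noncomputable section

variable {μ : Measure ℝ} {s : ℝ} {c C : ℝ} {n₀ : ℕ} {Γ : Cx} {G : Gm}

/-- **`TameV69` FROM ONE LEVEL EVENT AND D2 AT A ROW ABOVE**, any profile of the row `d`; `Qv` before the outer window `Kp`. -/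
theorem tamV30 [IsProbabilityMeasure μ] (h0 : In μ s c C n₀) (P : ℕ) {θ K : ℝ} (hK : 4 ≤ K) (hθ : 0 < θ) : ∃ n₁ : ℕ, 1 ≤ n₁ ∧
    ∀ q Q4 Kh ρ : ℝ, 0 ≤ q → 0 ≤ Q4 → 0 ≤ Kh → 1 ≤ ρ → ∃ Qv : ℝ, 0 ≤ Qv ∧
    ∀ {h g σ : ℝ} {η : Env} {p : ℕ → ℝ} {M : ℕ} {b : Pt} {Tt N r T d : ℕ} {col : ℤ}, n₁ ≤ Tt → N ≤ Tt →
    (∀ k, k < M → p k = Real.exp (s + h)) → (∀ k, M ≤ k → p k = Real.exp s) → ((g = h ∧ r + T ≤ M) ∨ (g = 0 ∧ M ≤ r)) →
    η ∈ Far16 μ s c θ K Tt N P b q → |lat16 μ s ((r : ℤ), col) b| ≤ wd μ s Tt → |h| * wd μ s Tt ≤ c / 8 * EE μ s Tt →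
    wd μ s T ≤ wd μ s Tt → EE μ s Tt ≤ ρ * EE μ s T → EE μ s Tt / wd μ s Tt ≤ EE μ s T / wd μ s T →
    b.1 ≤ r → r + T ≤ d → (d : ℤ) ≤ b.1 + N → θ * Tt ≤ ((d - (r + T) : ℕ) : ℝ) → 0 ≤ σ → σ ≤ c / 16 →
    ∀ B : ℤ → ℝ, (∀ z, 0 ≤ B z) →
    (∀ y y₀ : ℤ, |lat16 μ s ((r : ℤ), col) ((d : ℤ), y₀)| ≤ Kh * wd μ s Tt + 2 →
      B y ≤ Real.exp ((Q4 + σ * (|lat16 μ s ((r : ℤ), col) ((d : ℤ), y)| / wd μ s Tt)) * EE μ s Tt) * B y₀) →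
    ∀ Kp : ℝ, 0 ≤ Kp → ∀ (t : ℕ) (x : ℤ), t < T → lat69 μ s t x ≤ Kh * wd μ s T + 1 →
      TameV69 μ s g (wt η) p (VX69 (wt η) p (r + T) (d - (r + T)) B) r col T (Kp * wd μ s T) ((Qv + c / 8 * Kp) * EE μ s T) t x := by
  obtain ⟨n₁, hn₁, H⟩ := core20 h0 P hK hθ
  have hc0 := h0.c0
  refine ⟨n₁, hn₁, fun q Q4 Kh ρ hq hQ4 hKh hρ => ?_⟩
  have hρ0 : 0 < ρ := by linarith
  obtain ⟨β, hβ⟩ : ∃ β : ℝ, β = c / 16 := ⟨_, rfl⟩
  have hβ0 : 0 < β := by rw [hβ]; positivity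
  obtain ⟨U, hU, H⟩ := H q β Kh hq hβ0 hKh
  refine ⟨ρ * (U + Q4), by positivity, ?_⟩
  intro h g σ η p M b Tt N r T d col hT hNT hp hp' hg hη hb hh hu1 hu2 hu3 hbr hrT hdN hθd hσ hσ16 B hB hD Kp hKp t x htT hx k u hk htk hu
  have hpp : ∀ k, 0 < p k := fun k => by
    rcases lt_or_ge k M with h1 | h1
    · rw [hp k h1]; exact Real.exp_pos _
    · rw [hp' k h1]; exact Real.exp_pos _
  have hT1 : 1 ≤ T := by omega
  have hw0 := h0.wd_pos (hn₁.trans hT)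
  have hw1 := h0.wd_pos hT1
  have hE0 := EE_pos (μ := μ) (s := s) Tt
  have hE1 := EE_pos (μ := μ) (s := s) T
  have hσc : σ ≤ c / 8 := by linarith
  have e1 : r + t + (T - t) = r + T := by omega
  have e2 : T - t + (d - (r + T)) = d - (r + t) := by omega
  have e3 : r + (t + k) + (T - (t + k)) = r + T := by omega
  have e4 : T - (t + k) + (d - (r + T)) = d - (r + (t + k)) := by omega
  have c1 := VX_comp (p := p) (wt_pos η) (r + t) (T - t) (d - (r + T)) B (x + col)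
  rw [e1, e2] at c1
  have c2 := VX_comp (p := p) (wt_pos η) (r + (t + k)) (T - (t + k)) (d - (r + T)) B (u + col)
  rw [e3, e4] at c2
  rw [c1, c2, VX_V20 (μ := μ) (s := s) (h := h) (M := M) (d := d) (k := r + (t + k)), VX_V20 (μ := μ) (s := s) (h := h) (M := M) (d := d) (k := r + t)]
  -- the masses
  have key := H hT hNT hp hp' hη hb hh d B Q4 σ hdN hB hσ hσc hD (r + t) (r + (t + k)) (x + col) (u + col)
    (by push_cast; linarith) (by omega) (hθd.trans (by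
      have h1 : d - (r + T) ≤ d - (r + t) := by omega
      exact_mod_cast h1)) (by push_cast; linarith) (by omega) (by
      rw [lat_lat69]
      refine hx.trans ?_
      have h1 := mul_le_mul_of_nonneg_left hu1 hKh
      linarith)
  -- the exponents
  have hV0 : 0 ≤ V20 μ s h η p M d B (r + t) (x + col) := sum_nonneg fun z _ => mul_nonneg (nk_nonneg hpp _ _ _ _) (hB z)
  have eb : h * (bl M (r + t) (d - (r + t)) : ℝ) = g * k + h * bl M (r + (t + k)) (d - (r + (t + k))) := by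
    have h1 : d - (r + t) = k + (d - (r + (t + k))) := by omega
    have h2 := bl_add M (r + t) k (d - (r + (t + k)))
    rw [← h1, show r + t + k = r + (t + k) by omega] at h2
    rw [h2]
    push_cast
    rcases hg with ⟨h3, h4⟩ | ⟨h3, h4⟩
    · have h5 : bl M (r + t) k = k := by unfold bl; omega
      rw [h5, h3]
      ring
    · have h5 : bl M (r + t) k = 0 := by unfold bl; omega
      rw [h5, h3]
      push_cast
      ring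
  have ed : (((d - (r + t) : ℕ) : ℝ)) = k + ((d - (r + (t + k)) : ℕ) : ℝ) := by
    have h1 : d - (r + t) = k + (d - (r + (t + k))) := by omega
    rw [h1]
    push_cast
    ring
  obtain ⟨a2, ha2⟩ : ∃ a2 : ℝ, a2 = ((d - (r + (t + k)) : ℕ) : ℝ) * lam μ s + h * sl μ s * bl M (r + (t + k)) (d - (r + (t + k))) :=
    ⟨_, rfl⟩
  have ea : ((d - (r + t) : ℕ) : ℝ) * lam μ s + h * sl μ s * bl M (r + t) (d - (r + t)) = k * lam μ s + g * sl μ s * k + a2 := by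
    rw [ha2, ed]
    have : h * sl μ s * (bl M (r + t) (d - (r + t)) : ℝ) = sl μ s * (h * (bl M (r + t) (d - (r + t)) : ℝ)) := by ring
    rw [this, eb]
    ring
  rw [ea, ← ha2]
  -- the units
  obtain ⟨X, hX⟩ : ∃ X : ℝ, X = |lat16 μ s ((r : ℤ), col) (((r + (t + k) : ℕ) : ℤ), u + col)| := ⟨_, rfl⟩
  rw [← hX] at key
  have hXK : X ≤ Kp * wd μ s T := by rw [hX, lat_lat69]; exact hu
  have hX0 : 0 ≤ X := by rw [hX]; exact abs_nonneg _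
  have hexp : (U + Q4 + (β + σ) * (X / wd μ s Tt)) * EE μ s Tt ≤ (ρ * (U + Q4) + c / 8 * Kp) * EE μ s T := by
    have m1 : (U + Q4) * EE μ s Tt ≤ (U + Q4) * (ρ * EE μ s T) := mul_le_mul_of_nonneg_left hu2 (by positivity)
    have m2 : (β + σ) * (X / wd μ s Tt) * EE μ s Tt = (β + σ) * X * (EE μ s Tt / wd μ s Tt) := by ring
    have m3 : (β + σ) * X * (EE μ s Tt / wd μ s Tt) ≤ (β + σ) * (Kp * wd μ s T) * (EE μ s T / wd μ s T) :=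
      mul_le_mul (mul_le_mul_of_nonneg_left hXK (by positivity)) hu3 (by positivity) (by positivity)
    have m4 : (β + σ) * (Kp * wd μ s T) * (EE μ s T / wd μ s T) = (β + σ) * Kp * EE μ s T := by
      field_simp
    have m5 : (β + σ) * Kp * EE μ s T ≤ c / 8 * Kp * EE μ s T := by
      refine mul_le_mul_of_nonneg_right (mul_le_mul_of_nonneg_right ?_ hKp) hE1.le
      rw [hβ]
      linarith
    calc (U + Q4 + (β + σ) * (X / wd μ s Tt)) * EE μ s Tt = (U + Q4) * EE μ s Tt + (β + σ) * (X / wd μ s Tt) * EE μ s Tt := by ring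
      _ ≤ (U + Q4) * (ρ * EE μ s T) + c / 8 * Kp * EE μ s T := by
        rw [m2]
        exact add_le_add m1 (m3.trans (m4.le.trans m5))
      _ = _ := by ring
  have key2 := key.trans (mul_le_mul_of_nonneg_right (Real.exp_le_exp.2 hexp) hV0)
  calc Real.exp (k * lam μ s + g * sl μ s * k) * (Real.exp a2 * V20 μ s h η p M d B (r + (t + k)) (u + col))
      ≤ Real.exp (k * lam μ s + g * sl μ s * k) * (Real.exp a2 * (Real.exp ((ρ * (U + Q4) + c / 8 * Kp) * EE μ s T) *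
        V20 μ s h η p M d B (r + t) (x + col))) :=
        mul_le_mul_of_nonneg_left (mul_le_mul_of_nonneg_left key2 (Real.exp_pos _).le) (Real.exp_pos _).le
    _ = _ := by
      rw [Real.exp_add (k * lam μ s + g * sl μ s * k) a2]
      ring

/-- **`TameV69` OF THE BACKWARD MASSES** (`G = Mx (r + T)`), D2 for `bh16` at the row `d < Nn`. -/
theorem tamM30 [IsProbabilityMeasure μ] (h0 : In μ s c C n₀) (P : ℕ) {θ K : ℝ} (hK : 4 ≤ K) (hθ : 0 < θ) : ∃ n₁ : ℕ, 1 ≤ n₁ ∧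
    ∀ q Q4 Kh ρ : ℝ, 0 ≤ q → 0 ≤ Q4 → 0 ≤ Kh → 1 ≤ ρ → ∃ Qv : ℝ, 0 ≤ Qv ∧
    ∀ {h g σ : ℝ} {η : Env} {p : ℕ → ℝ} {M : ℕ} {b : Pt} {Tt N r T d Nn : ℕ} {col : ℤ}, n₁ ≤ Tt → N ≤ Tt →
    (∀ k, k < M → p k = Real.exp (s + h)) → (∀ k, M ≤ k → p k = Real.exp s) → ((g = h ∧ r + T ≤ M) ∨ (g = 0 ∧ M ≤ r)) →
    η ∈ Far16 μ s c θ K Tt N P b q → |lat16 μ s ((r : ℤ), col) b| ≤ wd μ s Tt → |h| * wd μ s Tt ≤ c / 8 * EE μ s Tt →
    wd μ s T ≤ wd μ s Tt → EE μ s Tt ≤ ρ * EE μ s T → EE μ s Tt / wd μ s Tt ≤ EE μ s T / wd μ s T →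
    b.1 ≤ r → r + T ≤ d → (d : ℤ) ≤ b.1 + N → d < Nn → θ * Tt ≤ ((d - (r + T) : ℕ) : ℝ) → 0 ≤ σ → σ ≤ c / 16 →
    (∀ y y₀ : ℤ, |lat16 μ s ((r : ℤ), col) ((d : ℤ), y₀)| ≤ Kh * wd μ s Tt + 2 →
      bh16 μ s h η p M Nn d y ≤
        Real.exp ((Q4 + σ * (|lat16 μ s ((r : ℤ), col) ((d : ℤ), y)| / wd μ s Tt)) * EE μ s Tt) * bh16 μ s h η p M Nn d y₀) →
    ∀ Kp : ℝ, 0 ≤ Kp → ∀ (t : ℕ) (x : ℤ), t < T → lat69 μ s t x ≤ Kh * wd μ s T + 1 →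
      TameV69 μ s g (wt η) p (Mx (wt η) p Nn (r + T)) r col T (Kp * wd μ s T) ((Qv + c / 8 * Kp) * EE μ s T) t x := by
  obtain ⟨n₁, hn₁, H⟩ := tamV30 h0 P hK hθ
  refine ⟨n₁, hn₁, fun q Q4 Kh ρ hq hQ4 hKh hρ => ?_⟩
  obtain ⟨Qv, hQv, H⟩ := H q Q4 Kh ρ hq hQ4 hKh hρ
  refine ⟨Qv, hQv, ?_⟩
  intro h g σ η p M b Tt N r T d Nn col hT hNT hp hp' hg hη hb hh hu1 hu2 hu3 hbr hrT hdN hdNn hθd hσ hσ16 hD Kp hKp t x htT hx
  have hpp : ∀ k, 0 < p k := fun k => by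
    rcases lt_or_ge k M with h1 | h1
    · rw [hp k h1]; exact Real.exp_pos _
    · rw [hp' k h1]; exact Real.exp_pos _
  have e0 : VX69 (wt η) p (r + T) (d - (r + T)) (Mx (wt η) p Nn d) = Mx (wt η) p Nn (r + T) := by
    funext y
    have h1 := VX_Mx (w := wt η) (p := p) (wt_pos η) (N := Nn) (i := r + T) (n := d - (r + T)) (by omega) y
    rwa [show r + T + (d - (r + T)) = d by omega] at h1
  rw [← e0]
  refine H hT hNT hp hp' hg hη hb hh hu1 hu2 hu3 hbr hrT hdN hθd hσ hσ16 (Mx (wt η) p Nn d) (fun z => (Mx_pos (wt_pos η) hpp _ _).le)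
    (fun y y₀ hy₀ => ?_) Kp hKp t x htT hx
  have h1 := hD y y₀ hy₀
  rw [bh_Mx hdNn, bh_Mx hdNn] at h1
  refine le_of_mul_le_mul_left ?_ (Real.exp_pos (-(((Nn - d : ℕ) : ℝ) * lam μ s + h * sl μ s * bl M d (Nn - d))))
  calc _ ≤ _ := h1
    _ = _ := by ring

/-- **`TameV69` OF THE SLABS OF THE WINDOW**, from `Far16` of the own rows and `OuD`. -/
theorem tamO30 [IsProbabilityMeasure μ] (h0 : In μ s c C n₀) (P : ℕ) {θ K : ℝ} (hK : 4 ≤ K) (hθ : 0 < θ) : ∃ n₁ : ℕ, 1 ≤ n₁ ∧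
    ∀ q Q4 Kh ρ : ℝ, 0 ≤ q → 0 ≤ Q4 → 0 ≤ Kh → 1 ≤ ρ → ∃ Qv : ℝ, 0 ≤ Qv ∧
    ∀ {Γ : Cx} {G : Gm} {E : ℕ → ℝ} {R sgm sg g : ℝ} {u : ℕ} {κ : ℤ × ℤ} {ω : Env} {N i r T : ℕ} {colb col : ℤ}, n₁ ≤ G.T u → N ≤ G.T u →
    Γ.s = s → G.v = sl μ s → G.w u = wd μ s (G.T u) → E u = EE μ s (G.T u) → |Γ.h| * wd μ s (G.T u) ≤ c / 8 * EE μ s (G.T u) →
    ((g = Γ.h ∧ r + T ≤ Γ.M) ∨ (g = 0 ∧ Γ.M ≤ r)) → ω ∈ Far16 μ s c θ K (G.T u) N P ((i : ℤ), colb) q →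
    |G.lat (i, colb) - G.lat (r, col)| ≤ G.w u → |G.lat (r, col) - G.ctr u κ| ≤ G.w u → (G.re u κ : ℤ) ≤ (i : ℤ) + N → G.re u κ < Γ.N →
    i ≤ r → r + T ≤ G.re u κ → θ * G.T u ≤ ((G.re u κ - (r + T) : ℕ) : ℝ) →
    wd μ s T ≤ wd μ s (G.T u) → EE μ s (G.T u) ≤ ρ * EE μ s T →
    EE μ s (G.T u) / wd μ s (G.T u) ≤ EE μ s T / wd μ s T →
    0 ≤ sgm → sgm ≤ c / 16 → sg ≤ E u → Kh + 2 ≤ R → ω ∈ OuD μ s Γ G E R Q4 sgm sg u κ →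
    ∀ Kp : ℝ, 0 ≤ Kp → ∀ (t : ℕ) (x : ℤ), t < T → lat69 μ s t x ≤ Kh * wd μ s T + 1 →
      TameV69 μ s g (wt ω) Γ.p (Mx (wt ω) Γ.p Γ.N (r + T)) r col T (Kp * wd μ s T) ((Qv + c / 8 * Kp) * EE μ s T) t x := by
  obtain ⟨n₁, hn₁, H⟩ := tamM30 h0 P hK hθ
  obtain ⟨n₂, hn₂⟩ := Filter.eventually_atTop.1 ((wd_tendsto h0).eventually_ge_atTop 2)
  have hc0 := h0.c0
  refine ⟨max n₁ n₂, hn₁.trans (le_max_left _ _), fun q Q4 Kh ρ hq hQ4 hKh hρ => ?_⟩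
  obtain ⟨Qv, hQv, H⟩ := H q (Q4 + c + 1) Kh ρ hq (by positivity) hKh hρ
  refine ⟨Qv, hQv, ?_⟩
  intro Γ G E R sgm sg g u κ ω N i r T colb col hT hNT hs hv hw hE hh hg hη hb hb2 hre hreN hir hrT hθr hu1 hu2 hu3 hsgm hs16 hsg hR hω
    Kp hKp t x htT hx
  have hw2 : 2 ≤ G.w u := by rw [hw]; exact hn₂ _ ((le_max_right _ _).trans hT)
  have hE1 : 1 ≤ E u := by rw [hE]; exact one_le_EE _
  obtain ⟨hp, hp'⟩ := cx_p hs
  refine H ((le_max_left _ _).trans hT) hNT hp hp' hg hη ?_ hh hu1 hu2 hu3 (Nat.cast_le.2 hir) hrT hre hreN hθr hsgm hs16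
    (fun y y₀ hy₀ => ?_) Kp hKp t x htT hx
  · have h1 := lat_ou (μ := μ) (s := s) hv r col i colb (G.lat (r, col))
    rw [sub_self, add_zero] at h1
    rw [← h1, ← hw]
    exact hb
  · have h1 := d2_ou (μ := μ) (s := s) (r := r) (col := col) (R' := Kh) hv hω hE1 hw2 hsgm hb2 hsg hR y y₀ (by rw [hw]; exact hy₀)
    rw [hw, hE] at h1
    refine h1.trans (mul_le_mul_of_nonneg_right (Real.exp_le_exp.2 ?_) (bn_pos (μ := μ) (s := s) (Γ := Γ) _ _ ω).le)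
    refine mul_le_mul_of_nonneg_right ?_ (EE_pos _).le
    have h2 : sgm ≤ c := by linarith
    linarith

end

end Pool.Agent.W_7d29a1_C1.TamV20
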