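import Pool.Agent.W_7d29a1_C1.LukG42
import Pool.Agent.W_7d29a1_C1.TamU30
import Pool.Agent.W_7d29a1_C1.NumH58

/-!
MP_7d29a1_pr, attractor route, [C1] SEP: THE TAME MASSES OF THE LANE BLOCK, THE SLOPE BEFORE THE NUMBER OF LANE ROWS. (helper30)

`tamR30` : helper42's `tam42` with the slope ratio `1`: the slope `sgm` is only asked to be `≤ c / 16` (it stands before the number of lane
rows in the order of the constants); `tam30` : with the comparisons of the scales from ONE record `Sc58 μ s j T (G.T u)` (`ρ := 4 j`).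
-/

set_option autoImplicit false

namespace Pool.Agent.W_7d29a1_C1.D98

open MeasureTheory Finset
open Pool.Agent.W_7d29a1_F hiding Bw G
open Pool.Agent.W_7d29a1_h4g Pool.Agent.W_7d29a1_HS
open Pool.Agent.W_7d29a1_H hiding ex gg
open Pool.Agent.W_7d29a1_C1
open Pool.Agent.W_7d29a1_C1.K91 (wt wt_pos)
open Pool.Agent.W_7d29a1_C1.U16 (lat16 Far16 bh16)
open Pool.Agent.W_7d29a1_C1.H60
open Pool.Agent.W_7d29a1_C1.G37 (Gm)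
open Pool.Agent.W_7d29a1_C1.Tb87 (Mx Mx_pos)
open Pool.Agent.W_7d29a1_C1.Ou37 (OuD Zo bn bn_pos)
open Pool.Agent.W_7d29a1_C1.TamV20 (tamO30)
open Pool.Agent.W_7d29a1_C1.PW58 (Sc58)

noncomputable section

variable {μ : Measure ℝ} {s c C : ℝ} {n₀ : ℕ}

/-- The slopes of the two scales. -/
theorem slope30 [IsProbabilityMeasure μ] {j T T' : ℕ} (h : Sc58 μ s j T T') : EE μ s T' / wd μ s T' ≤ EE μ s T / wd μ s T := by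
  have h1 : 0 < wd μ s T := lt_of_lt_of_le one_pos h.w1
  have h2 : 0 < wd μ s T' := lt_of_lt_of_le h1 h.wnT
  rw [div_le_div_iff₀ h2 h1]
  exact h.sl

/-- **`TameV69` OF THE OLD ENVIRONMENT** in the slabs of the lane block; the slope does not see the ratio of the scales. -/
theorem tamR30 [IsProbabilityMeasure μ] (h0 : In μ s c C n₀) (PF : ℕ) {θ K : ℝ} (hK : 4 ≤ K) (hθ : 0 < θ) (hθ8 : θ ≤ 1 / 8) :
    ∃ n₁ : ℕ, 1 ≤ n₁ ∧ ∀ q Q4 Kh ρ : ℝ, 0 ≤ q → 0 ≤ Q4 → 0 ≤ Kh → 1 ≤ ρ → ∃ Qv : ℝ, 0 ≤ Qv ∧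
    ∀ {Γ : Cx} {G : Gm} {P : Nm98} {E : ℕ → ℝ} {R sgm sg : ℝ} {u : ℕ} {κ : ℤ × ℤ} {ω : Env} {r T : ℕ},
      P.th = θ → P.KF = K → P.PF = PF → P.qF = q → n₁ ≤ G.T u → Γ.s = s → G.v = sl μ s → G.w u = wd μ s (G.T u) →
      E u = EE μ s (G.T u) → |Γ.h| * wd μ s (G.T u) ≤ c / 8 * EE μ s (G.T u) → NoSw98 Γ G u κ → Fit98 G P u → G.re u κ < Γ.N →
      ω ∈ FarL98 μ s c Γ G P u κ → rl98 Γ G P u κ ≤ r → r + T ≤ b98 Γ G P u κ →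
      wd μ s T ≤ wd μ s (G.T u) → EE μ s (G.T u) ≤ ρ * EE μ s T → EE μ s (G.T u) / wd μ s (G.T u) ≤ EE μ s T / wd μ s T →
      0 ≤ sgm → sgm ≤ c / 16 → sg ≤ E u → Kh + 2 ≤ R → ω ∈ OuD μ s Γ G E R Q4 sgm sg u κ →
      ∀ Kp : ℝ, 0 ≤ Kp → ∀ (t : ℕ) (x : ℤ), t < T → lat69 μ s t x ≤ Kh * wd μ s T + 1 →
        TameV69 μ s (gw42 Γ G u κ) (wt ω) Γ.p (Mx (wt ω) Γ.p Γ.N (r + T)) r (co98 G u κ r) T (Kp * wd μ s T)
          ((Qv + c / 8 * Kp) * EE μ s T) t x := by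
  obtain ⟨n₁, hn₁, H⟩ := tamO30 h0 PF hK hθ
  obtain ⟨n₂, hn₂⟩ := Filter.eventually_atTop.1 ((wd_tendsto h0).eventually_ge_atTop 2)
  refine ⟨max n₁ n₂, hn₁.trans (le_max_left _ _), fun q Q4 Kh ρ hq hQ4 hKh hρ => ?_⟩
  obtain ⟨Qv, hQv, H⟩ := H q Q4 Kh ρ hq hQ4 hKh hρ
  refine ⟨Qv, hQv, ?_⟩
  intro Γ G P E R sgm sg u κ ω r T e1 e2 e3 e4 hT hs hv hw hE hh hN hF hreN hfar hr hrT hu1 hu2 hu3 hsgm hσ hsg hR hω
    Kp hKp t x htT hx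
  have hw2 : 2 ≤ G.w u := by rw [hw]; exact hn₂ _ ((le_max_right _ _).trans hT)
  have hb := b98_T (Γ := Γ) (κ := κ) hF
  have hrl := rl_le_b98 (Γ := Γ) (G := G) (P := P) (u := u) (κ := κ)
  have hra : G.ra u κ - 1 ≤ rl98 Γ G P u κ := (le_ag98 (Γ := Γ) (G := G) (P := P) (u := u) (κ := κ)).trans ag_le_rl98
  have hsub := G.re_sub_ra u κ
  have hrr := G.ra_le_re u κ
  have hTm := G.T_pos (u - 1)
  have hTm' := G.T_mono (show u - 1 ≤ u by omega)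
  have hra1 : 1 ≤ G.ra u κ := ra_pos98
  have l1 := co_lat42 (G := G) (u := u) (κ := κ) (rl98 Γ G P u κ)
  have l2 := co_lat42 (G := G) (u := u) (κ := κ) r
  unfold FarL98 at hfar
  rw [e1, e2, e3, e4] at hfar
  refine H (Γ := Γ) (G := G) (E := E) (R := R) (sgm := sgm) (sg := sg) (g := gw42 Γ G u κ) (u := u) (κ := κ) (ω := ω)
    (N := G.re u κ - rl98 Γ G P u κ) (i := rl98 Γ G P u κ) (r := r) (T := T) (colb := co98 G u κ (rl98 Γ G P u κ)) (col := co98 G u κ r)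
    ((le_max_left _ _).trans hT) (by omega) hs hv hw hE hh (gw_or42 hN (hra.trans hr) (by omega)) hfar ?_ ?_ (by omega) hreN hr (by omega) ?_
    hu1 hu2 hu3 hsgm hσ hsg hR hω Kp hKp t x htT hx
  · have h1 : G.lat (rl98 Γ G P u κ, co98 G u κ (rl98 Γ G P u κ)) - G.lat (r, co98 G u κ r) =
        (G.lat (rl98 Γ G P u κ, co98 G u κ (rl98 Γ G P u κ)) - G.ctr u κ) - (G.lat (r, co98 G u κ r) - G.ctr u κ) := by ring
    rw [h1]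
    refine (abs_sub _ _).trans ?_
    linarith
  · linarith
  · have h1 : G.T u / 8 + 3 ≤ G.re u κ - (r + T) := by omega
    have h2 : ((G.T u / 8 + 3 : ℕ) : ℝ) ≤ ((G.re u κ - (r + T) : ℕ) : ℝ) := by exact_mod_cast h1
    have h3 : (G.T u : ℝ) ≤ 8 * ((G.T u / 8 + 3 : ℕ) : ℝ) := by
      have : G.T u ≤ 8 * (G.T u / 8 + 3) := by omega
      exact_mod_cast this
    have h4 : θ * G.T u ≤ 1 / 8 * (G.T u : ℝ) := mul_le_mul_of_nonneg_right hθ8 (Nat.cast_nonneg _)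
    linarith

/-- **`TameV69` OF THE OLD ENVIRONMENT** in the slabs of the lane block, the comparisons of the scales from `Sc58`. -/
theorem tam30 [IsProbabilityMeasure μ] (h0 : In μ s c C n₀) (PF : ℕ) {θ K : ℝ} (hK : 4 ≤ K) (hθ : 0 < θ) (hθ8 : θ ≤ 1 / 8) :
    ∃ n₁ : ℕ, 1 ≤ n₁ ∧ ∀ q Q4 Kh : ℝ, 0 ≤ q → 0 ≤ Q4 → 0 ≤ Kh → ∀ j : ℕ, 1 ≤ j → ∃ Qv : ℝ, 0 ≤ Qv ∧
    ∀ {Γ : Cx} {G : Gm} {P : Nm98} {E : ℕ → ℝ} {R sgm sg : ℝ} {u : ℕ} {κ : ℤ × ℤ} {ω : Env} {r T : ℕ},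
      P.th = θ → P.KF = K → P.PF = PF → P.qF = q → n₁ ≤ G.T u → Γ.s = s → G.v = sl μ s → G.w u = wd μ s (G.T u) →
      E u = EE μ s (G.T u) → |Γ.h| * wd μ s (G.T u) ≤ c / 8 * EE μ s (G.T u) → NoSw98 Γ G u κ → Fit98 G P u → G.re u κ < Γ.N →
      ω ∈ FarL98 μ s c Γ G P u κ → rl98 Γ G P u κ ≤ r → r + T ≤ b98 Γ G P u κ → Sc58 μ s j T (G.T u) →
      0 ≤ sgm → sgm ≤ c / 16 → sg ≤ E u → Kh + 2 ≤ R → ω ∈ OuD μ s Γ G E R Q4 sgm sg u κ →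
      ∀ Kp : ℝ, 0 ≤ Kp → ∀ (t : ℕ) (x : ℤ), t < T → lat69 μ s t x ≤ Kh * wd μ s T + 1 →
        TameV69 μ s (gw42 Γ G u κ) (wt ω) Γ.p (Mx (wt ω) Γ.p Γ.N (r + T)) r (co98 G u κ r) T (Kp * wd μ s T)
          ((Qv + c / 8 * Kp) * EE μ s T) t x := by
  obtain ⟨n₁, hn₁, H⟩ := tamR30 h0 PF hK hθ hθ8
  refine ⟨n₁, hn₁, fun q Q4 Kh hq hQ4 hKh j hj => ?_⟩
  have hj1 : (1 : ℝ) ≤ (j : ℝ) := by exact_mod_cast hj
  obtain ⟨Qv, hQv, H⟩ := H q Q4 Kh (4 * j) hq hQ4 hKh (by linarith)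
  exact ⟨Qv, hQv, fun e1 e2 e3 e4 hT hs hv hw hE hh hN hF hreN hfar hr hrT hsc =>
    H e1 e2 e3 e4 hT hs hv hw hE hh hN hF hreN hfar hr hrT hsc.wnT hsc.ETn (slope30 hsc)⟩

end

end Pool.Agent.W_7d29a1_C1.D98
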