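import Pool.Agent.W_7d29a1_C1.LukT42
import Pool.Agent.W_7d29a1_C1.E2H97
import Pool.Agent.W_7d29a1_C1.LukH30

/-!
MP_7d29a1_pr, attractor route, [C1] SEP: THE LANE BLOCK OF THE CONCRETE WINDOW, WITH ITS NUMBERS. (helper42; over helper30's `blk30`,
`lan30`, `tam30`)

* `lw42` : `Lw42` from the comparison `Sc58` of the two scales, `Kb ≤ kw`, `4 j kw + 1 ≤ Kl` and the tilt of the window;
* `Wh42` : the numeric hypotheses of one window;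
* `bkU42` : `Bk42` for a pair, `lkU42` : `Lk42` for the lucky contents, over `TP98 ∩ OuG97`.
-/

set_option autoImplicit false

namespace Pool.Agent.W_7d29a1_C1.D98

open MeasureTheory Finset
open Pool.Agent.W_7d29a1_F hiding Bw G
open Pool.Agent.W_7d29a1_h4g Pool.Agent.W_7d29a1_HS
open Pool.Agent.W_7d29a1_H hiding ex gg
open Pool.Agent.W_7d29a1_C1
open Pool.Agent.W_7d29a1_C1.K91 (wt wt_pos)
open Pool.Agent.W_7d29a1_C1.S71 (gl gl_of_mem gl_of_not_mem)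
open Pool.Agent.W_7d29a1_C1.H60
open Pool.Agent.W_7d29a1_C1.G37 (Gm)
open Pool.Agent.W_7d29a1_C1.Ou37 (OuD OuT Ou Zo bn bn_pos)
open Pool.Agent.W_7d29a1_C1.PW58 (Sc58)
open Pool.Agent.W_7d29a1_C1.E2H97 (OuTl OuG97 OuT_sub97)
open Pool.Agent.W_7d29a1_C1.Luc30 (Blk42 gx30 mx30 yx30)

noncomputable section

variable {μ : Measure ℝ} {s c C : ℝ} {n₀ : ℕ} {Γ : Cx} {G : Gm} {P : Nm98} {u : ℕ} {κ : ℤ × ℤ}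

/-! ### The numbers -/

/-- The tilt in the unit of the lane. -/
theorem tilt42 {j : ℕ} (sc : Sc58 μ s j (P.T u) (G.T u)) (hU : |Γ.h| * wd μ s (G.T u) ≤ c / 8 * EE μ s (G.T u)) (hc : 0 ≤ c) :
    |Γ.h| * wd μ s (P.T u) ≤ c / 8 * EE μ s (P.T u) := by
  have hw : 0 < wd μ s (G.T u) := lt_of_lt_of_le zero_lt_one (sc.w1.trans sc.wnT)
  have hw' : 0 ≤ wd μ s (P.T u) := zero_le_one.trans sc.w1
  have h1 := mul_le_mul_of_nonneg_right hU hw'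
  have h2 := mul_le_mul_of_nonneg_left sc.sl (by positivity : (0 : ℝ) ≤ c / 8)
  refine le_of_mul_le_mul_right ?_ hw
  calc |Γ.h| * wd μ s (P.T u) * wd μ s (G.T u) = |Γ.h| * wd μ s (G.T u) * wd μ s (P.T u) := by ring
    _ ≤ c / 8 * EE μ s (G.T u) * wd μ s (P.T u) := h1
    _ = c / 8 * (EE μ s (G.T u) * wd μ s (P.T u)) := by ring
    _ ≤ c / 8 * (EE μ s (P.T u) * wd μ s (G.T u)) := h2
    _ = _ := by ring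

/-- **THE NUMBERS OF ONE WINDOW** from the comparison of the two scales. -/
theorem lw42 {j : ℕ} {q KM : ℝ} (hc : 0 ≤ c) (hs : Γ.s = s) (hv : G.v = sl μ s) (hw : G.w u = wd μ s (G.T u)) (fit : Fit98 G P u)
    (sc : Sc58 μ s j (P.T u) (G.T u)) (d0 : 0 < P.δ) (rA : P.ρA = P.δ / 32) (rB : P.ρB = P.δ / 32) (kp : P.KpB = P.KpA)
    (kp0 : 0 ≤ P.KpA) (km0 : 0 ≤ KM) (rM : P.δ / 4 ≤ P.rM) (rM1 : P.rM ≤ 1) (kb0 : 0 ≤ P.Kb) (kb : P.Kb ≤ G.kw)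
    (kh : 4 * j * G.kw + 1 ≤ P.Kl) (hU : |Γ.h| * wd μ s (G.T u) ≤ c / 8 * EE μ s (G.T u))
    (blk : Blk42 μ s c C P.δ P.Kb P.Kl P.U0 P.UM q P.KpA KM P.UA P.UB P.YA P.YB P.N (P.nr u)) : Lw42 μ s c C Γ G P q KM u where
  hs := hs
  hv := hv
  hw := hw
  fit := fit
  d0 := d0
  rA := rA
  rB := rB
  kp := kp
  kp0 := kp0
  km0 := km0
  rM := rM
  rM1 := rM1
  kb := by
    have h1 := mul_le_mul_of_nonneg_left sc.wnT kb0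
    have h2 := mul_le_mul_of_nonneg_right kb (zero_le_one.trans (sc.w1.trans sc.wnT))
    rw [hw]
    linarith
  kh := by
    have h1 := mul_le_mul_of_nonneg_left sc.wTn (kb0.trans kb)
    have h2 := mul_le_mul_of_nonneg_right kh (zero_le_one.trans sc.w1)
    have h3 := sc.w1
    rw [hw]
    calc G.kw * wd μ s (G.T u) + 1 ≤ G.kw * (4 * j * wd μ s (P.T u)) + wd μ s (P.T u) := add_le_add h1 h3
      _ = (4 * j * G.kw + 1) * wd μ s (P.T u) := by ring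
      _ ≤ _ := h2
  w1 := sc.w1
  hh := tilt42 sc hU hc
  blk := blk

/-- **THE NUMERIC HYPOTHESES OF ONE WINDOW**: `j` = the share of the lane, `R`, `sgm` = radius and slope of the doubling clause. -/
structure Wh42 (μ : Measure ℝ) (s c C : ℝ) (Γ : Cx) (G : Gm) (P : Nm98) (E : ℕ → ℝ) (R sgm sg q KM : ℝ) (j u : ℕ) : Prop where
  lw : Lw42 μ s c C Γ G P q KM u
  hE : E u = EE μ s (G.T u)
  hU : |Γ.h| * wd μ s (G.T u) ≤ c / 8 * EE μ s (G.T u)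
  sc : Sc58 μ s j (P.T u) (G.T u)
  Kl0 : 0 ≤ P.Kl
  g0 : 0 ≤ sgm
  gr : sgm ≤ c / 16
  sgE : sg ≤ E u
  hR : P.Kl + 2 ≤ R

theorem Wh42.hRt {E : ℕ → ℝ} {R sgm sg q KM : ℝ} {j : ℕ} (H : Wh42 μ s c C Γ G P E R sgm sg q KM j u) :
    wd μ s (P.T u) + 1 ≤ R * G.w u := by
  have h1 := H.sc.wnT
  have h2 := H.sc.w1
  have h3 := H.hR
  have h4 := H.Kl0
  rw [H.lw.hw]
  have h5 : (2 : ℝ) * wd μ s (G.T u) ≤ R * wd μ s (G.T u) := mul_le_mul_of_nonneg_right (by linarith) (by linarith)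
  linarith

theorem Wh42.hX {E : ℕ → ℝ} {R sgm sg q KM Qr Q : ℝ} {j : ℕ} (H : Wh42 μ s c C Γ G P E R sgm sg q KM j u) (h0 : 0 ≤ Qr)
    (hQ : 4 * j * (Qr + 1) ≤ Q) : Qr * E u + sg ≤ Q * EE μ s (P.T u) := by
  have h1 := H.sgE
  have h2 := H.sc.ETn
  have h3 := H.sc.E1
  have h4 := mul_le_mul_of_nonneg_left h2 (by linarith : (0 : ℝ) ≤ Qr + 1)
  have h5 := mul_le_mul_of_nonneg_right hQ (by linarith : (0 : ℝ) ≤ EE μ s (P.T u))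
  rw [← H.hE] at h4
  calc Qr * E u + sg ≤ (Qr + 1) * E u := by linarith
    _ ≤ (Qr + 1) * (4 * j * EE μ s (P.T u)) := h4
    _ = 4 * j * (Qr + 1) * EE μ s (P.T u) := by ring
    _ ≤ _ := h5

/-! ### The tame masses -/

/-- **`Ta42`** in the two scales. -/
theorem taU42 [IsProbabilityMeasure μ] (h0 : In μ s c C n₀) (PF : ℕ) {θ K : ℝ} (hK : 4 ≤ K) (hθ : 0 < θ) (hθ8 : θ ≤ 1 / 8) :
    ∃ n₁ : ℕ, 1 ≤ n₁ ∧ ∀ q0 Q4 Kh : ℝ, 0 ≤ q0 → 0 ≤ Q4 → 0 ≤ Kh → ∀ j : ℕ, 1 ≤ j → ∃ Qv : ℝ, 0 ≤ Qv ∧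
    ∀ {Γ : Cx} {G : Gm} {P : Nm98} {E : ℕ → ℝ} {R sgm sg q KM : ℝ} {u : ℕ} {κ : ℤ × ℤ} {ω : Env},
      P.th = θ → P.KF = K → P.PF = PF → P.qF = q0 → P.Kl = Kh → n₁ ≤ G.T u → Wh42 μ s c C Γ G P E R sgm sg q KM j u →
      NoSw98 Γ G u κ → G.re u κ < Γ.N → ω ∈ FarL98 μ s c Γ G P u κ → ω ∈ OuD μ s Γ G E R Q4 sgm sg u κ →
      Ta42 μ s c Γ G P Qv u κ ω := by
  obtain ⟨n₁, hn₁, H⟩ := tam30 h0 PF hK hθ hθ8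
  refine ⟨n₁, hn₁, fun q0 Q4 Kh a1 a2 a3 j hj => ?_⟩
  obtain ⟨Qv, hQv, H⟩ := H q0 Q4 Kh a1 a2 a3 j hj
  refine ⟨Qv, hQv, ?_⟩
  intro Γ G P E R sgm sg q KM u κ ω e1 e2 e3 e4 e5 hT W hN hreN hfar hOD r hr hr' Kp hKp t x ht hx
  exact H e1 e2 e3 e4 hT W.lw.hs W.lw.hv W.lw.hw W.hE W.hU hN W.lw.fit hreN hfar hr hr' W.sc W.g0 W.gr W.sgE
    (by rw [← e5]; exact W.hR) hOD Kp hKp t x ht (by rw [← e5]; exact hx)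

/-- **THE LANE BLOCK OF THE WINDOW**, for any pair of environments, `ω₀` = the old content. -/
theorem bkU42 [IsProbabilityMeasure μ] (h0 : In μ s c C n₀) (PF : ℕ) {θ K : ℝ} (hK : 4 ≤ K) (hθ : 0 < θ) (hθ8 : θ ≤ 1 / 8) :
    ∃ n₁ : ℕ, 1 ≤ n₁ ∧ ∀ q0 Q4 Kh : ℝ, 0 ≤ q0 → 0 ≤ Q4 → 0 ≤ Kh → ∀ j : ℕ, 1 ≤ j → ∃ Qv : ℝ, 0 ≤ Qv ∧
    ∀ {Γ : Cx} {G : Gm} {P : Nm98} {E : ℕ → ℝ} {R sgm sg q KM Qr Q : ℝ} {u : ℕ} {κ : ℤ × ℤ} {ω₀ ω ω' : Env},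
      P.th = θ → P.KF = K → P.PF = PF → P.qF = q0 → P.Kl = Kh → n₁ ≤ G.T u → Qv ≤ q → 0 ≤ Qr → 4 * j * (Qr + 1) ≤ Q →
      Wh42 μ s c C Γ G P E R sgm sg q KM j u → NoSw98 Γ G u κ → G.re u κ < Γ.N →
      ω₀ ∈ FarL98 μ s c Γ G P u κ → ω₀ ∈ OuD μ s Γ G E R Q4 sgm sg u κ →
      ω₀ ∈ OuTl μ s Γ G R (Qr * E u + sg) (rl98 Γ G P u κ) u κ →
      (∀ p : Pt, ((rl98 Γ G P u κ : ℕ) : ℤ) < p.1 → ω p = ω₀ p) → (∀ p : Pt, p ∉ B98 Γ G P u κ → ω' p = ω p) →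
      ω' ∈ LE98 μ s c Γ G P u κ → Bk42 μ s c C Γ G P Q q KM u κ ω ω' := by
  obtain ⟨n₁, hn₁, H⟩ := taU42 h0 PF hK hθ hθ8
  refine ⟨n₁, hn₁, fun q0 Q4 Kh a1 a2 a3 j hj => ?_⟩
  obtain ⟨Qv, hQv, H⟩ := H q0 Q4 Kh a1 a2 a3 j hj
  refine ⟨Qv, hQv, ?_⟩
  intro Γ G P E R sgm sg q KM Qr Q u κ ω₀ ω ω' e1 e2 e3 e4 e5 hT hq hQr hQ W hN hreN hfar hOD hOT hag hoff hLE
  exact blkC42 h0 W.lw hq W.hRt (W.hX hQr hQ) hN hreN (H e1 e2 e3 e4 e5 hT W hN hreN hfar hOD) hOT hag hoff hLE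

/-- **THE LUCK OF THE WINDOW**, for the lucky contents of the lane block. -/
theorem lkU42 [IsProbabilityMeasure μ] (h0 : In μ s c C n₀) (PF : ℕ) {θ K : ℝ} (hK : 4 ≤ K) (hθ : 0 < θ) (hθ8 : θ ≤ 1 / 8) :
    ∃ n₁ : ℕ, 1 ≤ n₁ ∧ ∀ q0 Q4 Kh : ℝ, 0 ≤ q0 → 0 ≤ Q4 → 0 ≤ Kh → ∀ j : ℕ, 1 ≤ j → ∃ Qv : ℝ, 0 ≤ Qv ∧
    ∀ {Γ : Cx} {G : Gm} {P : Nm98} {E : ℕ → ℝ} {R sgm sg q KM Qr Q : ℝ} {u : ℕ} {κ : ℤ × ℤ} {KL : ℕ → ℤ × ℤ → Set Env} {ω η : Env},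
      P.th = θ → P.KF = K → P.PF = PF → P.qF = q0 → P.Kl = Kh → n₁ ≤ G.T u → Qv ≤ q → 0 ≤ Qr → 4 * j * (Qr + 1) ≤ Q →
      Wh42 μ s c C Γ G P E R sgm sg q KM j u → 0 ≤ P.UB → yx30 c P.U0 q P.Kl P.KpA + 1 ≤ P.LA - (Q + c / 4) →
      NoSw98 Γ G u κ → G.re u κ < Γ.N →
      ω ∈ FarL98 μ s c Γ G P u κ → ω ∈ OuD μ s Γ G E R Q4 sgm sg u κ →
      ω ∈ OuTl μ s Γ G R (Qr * E u + sg) (rl98 Γ G P u κ) u κ → η ∈ Lc98 μ s c Γ G P KL u κ ω →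
      Lk42 μ s c C Γ G P Q q KM u κ ω (gl (B98 Γ G P u κ) η ω) := by
  obtain ⟨n₁, hn₁, H⟩ := bkU42 h0 PF hK hθ hθ8
  refine ⟨n₁, hn₁, fun q0 Q4 Kh a1 a2 a3 j hj => ?_⟩
  obtain ⟨Qv, hQv, H⟩ := H q0 Q4 Kh a1 a2 a3 j hj
  refine ⟨Qv, hQv, ?_⟩
  intro Γ G P E R sgm sg q KM Qr Q u κ KL ω η e1 e2 e3 e4 e5 hT hq hQr hQ W hUB hLA hN hreN hfar hOD hOT hη
  exact lukB42 h0 W.Kl0 hUB hLA (H e1 e2 e3 e4 e5 hT hq hQr hQ W hN hreN hfar hOD hOT (fun _ _ => rfl)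
    (fun _ hp => gl_of_not_mem hp η ω) hη.1)

end

end Pool.Agent.W_7d29a1_C1.D98
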