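import Pool.Agent.W_7d29a1_C1.LucB76

/-!
MP_7d29a1_pr, attractor route, [C1] SEP: THE NUMBERS OF THE LANE BLOCK in units of `E = EE T` (helper32), over LucB76 (helper76).

* `Luk.mono`, `Pin76.mono`;
* `blk_num` : the block with all its numbers `exp (x E)`: gain `xA + xB - q1 - 1`, upper gain `uB + rM + uA + 1`, leak
  `uB + rM + yA + 1`, missed part of the new mass `exp (-(xB - q1 - yB - rM) E)`;
* `gs_num` : one slab (the gate block) below;
* `ord32` : the order of the constants: luck of lane B, then its upper levels, then the luck of lane A, then its upper levels, then the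
  strip of the gate block.
-/

set_option autoImplicit false

namespace Pool.Agent.W_7d29a1_C1.Nl32

open Finset MeasureTheory
open Pool.Agent.W_7d29a1_F Pool.Agent.W_7d29a1_h4g Pool.Agent.W_7d29a1_H Pool.Agent.W_7d29a1_HS
open Pool.Agent.W_7d29a1_C1.K91 (wt wt_pos)
open Pool.Agent.W_7d29a1_C1.K91P
open Pool.Agent.W_7d29a1_C1.U16 (ker ker_nonneg)
open Pool.Agent.W_7d29a1_C1.H60
open Pool.Agent.W_7d29a1_C1.E53
open Pool.Agent.W_7d29a1_C1.SD53
open Pool.Agent.W_7d29a1_C1.Lb76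

noncomputable section

variable {Γ : Cx} {ω ωA ωM ω' ω₀ : Env} {a₀ a e a₁ b₁ b : ℕ} {Mi Mo Ce C1 C2 CB MA MB NA Mi₀ Mo₀ : Set ℤ}
  {g G Y g' G' Y' gA GA YA gB GB YB g1 RM ee ee' : ℝ}

theorem luk_mono (h : Luk Γ a b Mi Mo Ce g G Y ω ω') (g0' : 0 < g') (hg : g' ≤ g) (hG : G ≤ G') (hY : Y ≤ Y') :
    Luk Γ a b Mi Mo Ce g' G' Y' ω ω' where
  g0 := g0'
  G0 := h.G0.trans hG
  Y0 := h.Y0.trans hY
  ab := h.ab
  hb := h.hb
  eq := h.eq
  up := fun z hz => (h.up z hz).trans (mul_le_mul_of_nonneg_right hG (bW_pos _ _ _ _).le)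
  off := fun z hz => (h.off z hz).trans (mul_le_mul_of_nonneg_right hY (bW_pos _ _ _ _).le)
  gain := fun z hz => (mul_le_mul_of_nonneg_right hg (bW_pos _ _ _ _).le).trans (h.gain z hz)
  exit := fun z => (h.exit z).trans (mul_le_mul_of_nonneg_right hY (bW_pos _ _ _ _).le)

theorem pin_mono (P : Pin76 Γ a a₁ b₁ C1 C2 Y ee ω ω') (hY : Y ≤ Y') (he : ee ≤ ee') : Pin76 Γ a a₁ b₁ C1 C2 Y' ee' ω ω' where
  Y0 := P.Y0.trans hY
  e0 := P.e0.trans he
  h1 := P.h1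
  h2 := P.h2
  hb := P.hb
  eq := P.eq
  ex1 := fun z => (P.ex1 z).trans (add_le_add (mul_le_mul_of_nonneg_right hY (bW_pos _ _ _ _).le)
    (mul_le_mul_of_nonneg_right he (bW_pos _ _ _ _).le))
  ex2 := fun z => (P.ex2 z).trans (add_le_add (mul_le_mul_of_nonneg_right hY (bW_pos _ _ _ _).le)
    (mul_le_mul_of_nonneg_right he (bW_pos _ _ _ _).le))

/-! ### Numbers -/

variable {E : ℝ}

theorem two_le_exp (hE : 1 ≤ E) : 2 ≤ Real.exp E := by
  have := Real.add_one_le_exp E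
  linarith

/-- A sum of two exponentials. -/
theorem add_exp32 (hE : 1 ≤ E) {x y z : ℝ} (hx : x ≤ z) (hy : y ≤ z) : Real.exp (x * E) + Real.exp (y * E) ≤ Real.exp ((z + 1) * E) := by
  have h1 : Real.exp (x * E) ≤ Real.exp (z * E) := Real.exp_le_exp.2 (mul_le_mul_of_nonneg_right hx (by linarith))
  have h2 : Real.exp (y * E) ≤ Real.exp (z * E) := Real.exp_le_exp.2 (mul_le_mul_of_nonneg_right hy (by linarith))
  have h3 := mul_le_mul_of_nonneg_right (two_le_exp hE) (Real.exp_pos (z * E)).le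
  have e1 : Real.exp ((z + 1) * E) = Real.exp E * Real.exp (z * E) := by
    rw [← Real.exp_add]
    congr 1
    ring
  rw [e1]
  linarith

/-- A difference of two exponentials. -/
theorem sub_exp32 (hE : 1 ≤ E) {x y : ℝ} (hxy : y + 1 ≤ x) : Real.exp ((x - 1) * E) ≤ Real.exp (x * E) - Real.exp (y * E) := by
  have h1 := add_exp32 (E := E) hE (x := x - 1) (y := y) (z := x - 1) le_rfl (by linarith)
  rw [sub_add_cancel] at h1
  linarith

theorem mul_exp32 (x y : ℝ) : Real.exp (x * E) * Real.exp (y * E) = Real.exp ((x + y) * E) := by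
  rw [← Real.exp_add]
  congr 1
  ring

variable {xA uA yA xB uB yB q1 rM : ℝ}

/-- **THE BLOCK.** -/
theorem blk_num (hE : 1 ≤ E) (h : Blk76 Γ ω ωA ωM ω' a a₁ b₁ b MA NA C1 MB C2 CB gA GA YA gB GB YB g1 RM)
    (hgA : Real.exp (xA * E) ≤ gA) (hGA : GA ≤ Real.exp (uA * E)) (hYA : YA ≤ Real.exp (yA * E)) (hgB : Real.exp (xB * E) ≤ gB)
    (hGB : GB ≤ Real.exp (uB * E)) (hYB : YB ≤ Real.exp (yB * E)) (hyu : yB ≤ uB) (hg1 : Real.exp (-q1 * E) ≤ g1)
    (hRM : RM ≤ Real.exp (rM * E)) (hx : yA + 1 ≤ xA) :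
    Luk Γ a b₁ MA NA Set.univ (Real.exp ((xA + xB - q1 - 1) * E)) (Real.exp ((uB + rM + uA + 1) * E))
      (Real.exp ((uB + rM + yA + 1) * E)) ω ω' ∧
    Pin76 Γ a a₁ b₁ C1 C2 (Real.exp ((uB + rM + yA + 1) * E)) (Real.exp (-(xB - q1 - yB - rM) * E)) ω ω' := by
  have pA := Real.exp_pos (xA * E)
  have hAY : Real.exp ((xA - 1) * E) ≤ gA - YA := (sub_exp32 hE hx).trans (by linarith)
  have hYg : YA < gA := by
    have := Real.exp_pos ((xA - 1) * E)
    linarith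
  have hBY : GB + YB ≤ Real.exp ((uB + 1) * E) := (add_le_add hGB hYB).trans (add_exp32 hE le_rfl hyu)
  have hR : (GB + YB) * RM ≤ Real.exp ((uB + 1 + rM) * E) := by
    rw [← mul_exp32]
    exact mul_le_mul hBY hRM h.R0 (Real.exp_pos _).le
  have n1 : g1 * gB * (gA - YA) ≥ Real.exp ((xA + xB - q1 - 1) * E) := by
    have h1 : Real.exp (-q1 * E) * Real.exp (xB * E) ≤ g1 * gB := mul_le_mul hg1 hgB (Real.exp_pos _).le h.g10.le
    have h2 : Real.exp (-q1 * E) * Real.exp (xB * E) * Real.exp ((xA - 1) * E) ≤ g1 * gB * (gA - YA) :=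
      mul_le_mul h1 hAY (Real.exp_pos _).le (mul_pos h.g10 h.B.g0).le
    rw [mul_exp32, mul_exp32] at h2
    have e1 : -q1 + xB + (xA - 1) = xA + xB - q1 - 1 := by ring
    rwa [e1] at h2
  have n2 : (GB + YB) * RM * GA ≤ Real.exp ((uB + rM + uA + 1) * E) := by
    have h1 := mul_le_mul hR hGA h.A.G0 (Real.exp_pos _).le
    rw [mul_exp32] at h1
    have e1 : uB + 1 + rM + uA = uB + rM + uA + 1 := by ring
    rwa [e1] at h1
  have n3 : (GB + YB) * RM * YA ≤ Real.exp ((uB + rM + yA + 1) * E) := by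
    have h1 := mul_le_mul hR hYA h.A.Y0 (Real.exp_pos _).le
    rw [mul_exp32] at h1
    have e1 : uB + 1 + rM + yA = uB + rM + yA + 1 := by ring
    rwa [e1] at h1
  have n4 : YB * RM / (g1 * gB) ≤ Real.exp (-(xB - q1 - yB - rM) * E) := by
    rw [div_le_iff₀ (mul_pos h.g10 h.B.g0)]
    have h1 : YB * RM ≤ Real.exp ((yB + rM) * E) := by
      rw [← mul_exp32]
      exact mul_le_mul hYB hRM h.R0 (Real.exp_pos _).le
    have h2 : Real.exp ((-q1 + xB) * E) ≤ g1 * gB := by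
      rw [← mul_exp32]
      exact mul_le_mul hg1 hgB (Real.exp_pos _).le h.g10.le
    have h3 := mul_le_mul_of_nonneg_left h2 (Real.exp_pos (-(xB - q1 - yB - rM) * E)).le
    rw [mul_exp32] at h3
    have e1 : -(xB - q1 - yB - rM) + (-q1 + xB) = yB + rM := by ring
    rw [e1] at h3
    exact h1.trans h3
  exact ⟨luk_mono (h.luk hYg) (Real.exp_pos _) n1 n2 n3, pin_mono h.pin n3 n4⟩

variable {x u y q0 r z g0 RG sG : ℝ}

/-- **ONE SLAB DOWN.** -/
theorem gs_num (hE : 1 ≤ E) (S : Gs76 Γ ω ω₀ a₀ a Mi₀ Mo₀ Mi Mo g0 RG sG)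
    (h : Luk Γ a b Mi Mo Ce (Real.exp (x * E)) (Real.exp (u * E)) (Real.exp (y * E)) ω₀ ω')
    (hq : Real.exp (-q0 * E) ≤ g0) (hR : RG ≤ Real.exp (r * E)) (hs : sG ≤ Real.exp (-z * E)) (hyu : y ≤ u) :
    Luk Γ a₀ b Mi₀ Mo₀ Set.univ (Real.exp ((x - q0) * E)) (Real.exp ((u + r + 1) * E))
      (Real.exp ((max (u - z) (y + r) + 1) * E)) ω ω' := by
  refine luk_mono (S.luk h) (Real.exp_pos _) ?_ ?_ ?_
  · have h1 := mul_le_mul_of_nonneg_right hq (Real.exp_pos (x * E)).le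
    rw [mul_exp32] at h1
    have e1 : -q0 + x = x - q0 := by ring
    rwa [e1] at h1
  · have h1 := mul_le_mul (add_exp32 (E := E) hE (x := u) (y := y) (z := u) le_rfl hyu) hR S.R0 (Real.exp_pos _).le
    rw [mul_exp32] at h1
    have e1 : u + 1 + r = u + r + 1 := by ring
    rwa [e1] at h1
  · have h1 : Real.exp (u * E) * sG ≤ Real.exp ((u - z) * E) := by
      have h2 := mul_le_mul_of_nonneg_left hs (Real.exp_pos (u * E)).le
      rw [mul_exp32] at h2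
      exact h2
    have h2 : Real.exp (y * E) * RG ≤ Real.exp ((y + r) * E) := by
      rw [← mul_exp32]
      exact mul_le_mul_of_nonneg_left hR (Real.exp_pos _).le
    exact (add_le_add h1 h2).trans (add_exp32 hE (le_max_left _ _) (le_max_right _ _))

theorem gs_pin (S : Gs76 Γ ω ω₀ a₀ a Mi₀ Mo₀ Mi Mo g0 RG sG) (P : Pin76 Γ a a₁ b₁ C1 C2 (Real.exp (y * E)) ee ω₀ ω')
    (hR : RG ≤ Real.exp (r * E)) : Pin76 Γ a₀ a₁ b₁ C1 C2 (Real.exp ((y + r) * E)) ee ω ω' := by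
  refine pin_mono (S.pin P) ?_ le_rfl
  rw [← mul_exp32]
  exact mul_le_mul_of_nonneg_left hR (Real.exp_pos _).le

/-- **THE ORDER**: luck `LB` of lane B, its upper level `uB`, luck `LA` of lane A, its upper level `uA`, the exit cost `z` of the gate
block. `xA = LA - QA`, `xB = LB - QB`. -/
theorem ord32 (QA QB q1 yA yB rM q0 r X : ℝ) : ∃ LB₀ : ℝ, ∀ LB : ℝ, LB₀ ≤ LB → ∀ uB : ℝ, ∃ LA₀ : ℝ, ∀ LA : ℝ, LA₀ ≤ LA →
    ∀ uA : ℝ, ∃ z₀ : ℝ, ∀ z : ℝ, z₀ ≤ z →
      yA + 1 ≤ LA - QA ∧ X ≤ LB - QB - q1 - yB - rM ∧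
      uB + rM + yA + 1 + X ≤ LA - QA + (LB - QB) - q1 - 1 ∧
      max (uB + rM + uA + 1 - z) (uB + rM + yA + 1 + r) + 1 + X ≤ LA - QA + (LB - QB) - q1 - 1 - q0 := by
  refine ⟨QB + q1 + yB + rM + X, fun LB hLB uB => ⟨max (QA + yA + 1) (max (QA - (LB - QB) + q1 + 1 + (uB + rM + yA + 1 + X))
    (QA - (LB - QB) + q1 + 1 + q0 + (uB + rM + yA + 1 + r + 1 + X))), fun LA hLA uA =>
    ⟨uB + rM + uA + 1 + 1 + X + q0 - (LA - QA + (LB - QB) - q1 - 1), fun z hz => ?_⟩⟩⟩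
  have h1 := (le_max_left _ _).trans hLA
  have h2 := ((le_max_left _ _).trans (le_max_right _ _)).trans hLA
  have h3 := ((le_max_right _ _).trans (le_max_right _ _)).trans hLA
  refine ⟨by linarith, by linarith, by linarith, ?_⟩
  rw [← max_add_add_right, ← max_add_add_right]
  exact max_le (by linarith) (by linarith)

end

end Pool.Agent.W_7d29a1_C1.Nl32
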