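import Pool.Agent.W_7d29a1_C1.LucQ30
import Pool.Agent.W_7d29a1_C1.NumL32

/-!
MP_7d29a1_pr, [C1] SEP, the LANE BLOCK: THE BLOCK OF THREE SLABS. (helper30)

`T = N n`, rows `r0`, `r1 = r0 + T`, `r2 = r1 + T`, `r3 = r2 + T`, base columns `c0, .., c3` (`|c_(i+1) - c_i - sl T| ≤ wd T`). `ω` old, `ω'` new
in the rows `(r0, r3]` inside of the window `ωB`. `blk30` : `Blk76` of helper76 and the cross ratio of `Pin76.met`, from `BL30`, the tame old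
masses of the three slabs and three profile clauses. `lan30` : `Luk`, `Pin76` and the cross ratio, numbers `exp (x E)`.
-/

set_option autoImplicit false

namespace Pool.Agent.W_7d29a1_C1.Luc30

open Finset MeasureTheory
open Pool.Agent.W_7d29a1_F Pool.Agent.W_7d29a1_h4g Pool.Agent.W_7d29a1_H Pool.Agent.W_7d29a1_HS
open Pool.Agent.W_7d29a1_C1
open Pool.Agent.W_7d29a1_C1.K91 (wt wt_pos)
open Pool.Agent.W_7d29a1_C1.K91P (bw bw_pos)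
open Pool.Agent.W_7d29a1_C1.U16 (ker ker_nonneg)
open Pool.Agent.W_7d29a1_C1.Tb87 (Mx kx Mo Mx_pos kx_W)
open Pool.Agent.W_7d29a1_C1.Basin76 (kW)
open Pool.Agent.W_7d29a1_C1.BP58
open Pool.Agent.W_7d29a1_C1.H75 (hc hc_nonneg)
open Pool.Agent.W_7d29a1_C1.P24 (Ce24 mem_Ce24)
open Pool.Agent.W_7d29a1_C1.M99
open Pool.Agent.W_7d29a1_C1.E53
open Pool.Agent.W_7d29a1_C1.H60
open Pool.Agent.W_7d29a1_C1.SD53
open Pool.Agent.W_7d29a1_C1.Lb76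
open Pool.Agent.W_7d29a1_C1.Nl32

noncomputable section

variable {μ : Measure ℝ} {s c C : ℝ} {n₀ : ℕ}

/-! ### New below a row, old above it -/

/-- New up to the row `r`, old above. -/
def cut30 (r : ℕ) (ω' ω : Env) : Env := fun p => if p.1 ≤ (r : ℤ) then ω' p else ω p

theorem cut_le30 {r : ℕ} {ω' ω : Env} {p : Pt} (h : p.1 ≤ (r : ℤ)) : cut30 r ω' ω p = ω' p := if_pos h

theorem cut_gt30 {r : ℕ} {ω' ω : Env} {p : Pt} (h : (r : ℤ) < p.1) : cut30 r ω' ω p = ω p := if_neg (by omega)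

theorem wt_eq30 {ω ω' : Env} {i : ℕ} {y : ℤ} (h : ω ((i : ℤ), y) = ω' ((i : ℤ), y)) : wt ω i y = wt ω' i y := by
  unfold K91.wt
  rw [h]

theorem VX_congr30 (μ : Measure ℝ) {w w' : Env} {p : ℕ → ℝ} {g : ℝ} {i m : ℕ} (hp : ∀ k, i ≤ k → k < i + m → p k = Real.exp (s + g))
    (he : ∀ q : Pt, (i : ℤ) < q.1 → q.1 ≤ (i : ℤ) + m → w q = w' q) (G : ℤ → ℝ) (x : ℤ) :
    VX69 (wt w) p i m G x = VX69 (wt w') p i m G x := by
  unfold VX69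
  refine sum_congr rfl fun y _ => ?_
  rw [kx_W (μ := μ) (s := s) (h := g) w i x m y hp, kx_W (μ := μ) (s := s) (h := g) w' i x m y hp]
  have h1 : kW μ s w i m x y = kW μ s w' i m x y := Pool.Agent.W_7d29a1_C1.R26.kW_dep he x y
  have h2 : W μ s w ((i : ℤ), x) m (y - x) = W μ s w' ((i : ℤ), x) m (y - x) := h1
  rw [h2]

/-- The tame masses of a slab do not read the row `r` and the rows below. -/
theorem tame_congr30 {w w' : Env} {p : ℕ → ℝ} {g : ℝ} {r T : ℕ} {col : ℤ} {W₀ Q : ℝ} {G : ℤ → ℝ} {t : ℕ} {x : ℤ} (ht : t ≤ T)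
    (hp : ∀ k, r ≤ k → k < r + T → p k = Real.exp (s + g)) (he : ∀ q : Pt, (r : ℤ) < q.1 → q.1 ≤ (r : ℤ) + T → w q = w' q)
    (h : TameV69 μ s g (wt w) p G r col T W₀ Q t x) : TameV69 μ s g (wt w') p G r col T W₀ Q t x := by
  intro k u hk htk hu
  have h1 := h k u hk htk hu
  rw [VX_congr30 μ (s := s) (g := g) (w := w) (w' := w') (i := r + (t + k)) (m := T - (t + k))
      (fun j h1 h2 => hp j (by omega) (by omega)) (fun q h1 h2 => he q (by push_cast at h1; omega) (by push_cast at h2; omega)),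
    VX_congr30 μ (s := s) (g := g) (w := w) (w' := w') (i := r + t) (m := T - t)
      (fun j h1 h2 => hp j (by omega) (by omega)) (fun q h1 h2 => he q (by push_cast at h1; omega) (by push_cast at h2; omega))] at h1
  exact h1

/-- An event of the slab is seen from its base. -/
theorem at_congr30 {η η' : Env} {r T : ℕ} {col : ℤ} {E : Set Env} (oE : On20 (rows 0 (0 + T)) E)
    (he : ∀ q : Pt, (r : ℤ) < q.1 → q.1 ≤ (r : ℤ) + T → η q = η' q) (h : sh ((r : ℤ), col) η' ∈ E) : sh ((r : ℤ), col) η ∈ E := by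
  refine (oE _ _ fun q hq => ?_).2 h
  obtain ⟨h1, h2⟩ := hq
  show η (q + ((r : ℤ), col)) = η' (q + ((r : ℤ), col))
  refine he _ ?_ ?_
  · show (r : ℤ) < q.1 + r
    omega
  · show q.1 + (r : ℤ) ≤ r + T
    omega

/-- The exponent of the middle slab. -/
def mx30 (c UM q Kh KM : ℝ) : ℝ := 1 + (UM + (q + c / 8 * (Kh + 1)) + c / 2 * KM)

/-- **THE LANE BLOCK.** -/
theorem blk30 [IsProbabilityMeasure μ] (h : In μ s c C n₀) {δ Kb Kh U0 UM q : ℝ} (hδ : 0 < δ) (hKb : 1 + δ ≤ Kb) (hKh : Kb ≤ Kh)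
    (hU0 : 0 ≤ U0) (hUM : 0 ≤ UM) (hq : 0 ≤ q) (K₀ : ℝ) :
    ∃ Kp KM : ℝ, K₀ ≤ Kp ∧ Kh + 3 ≤ Kp ∧ K₀ ≤ KM ∧ Kh + 3 ≤ KM ∧ ∀ UA UB : ℝ, 0 ≤ UA → 0 ≤ UB →
      ∃ YA YB Z : ℝ, 0 < YA ∧ 0 < YB ∧ 0 < Z ∧ ∃ N₀ n₁ : ℕ, 1 ≤ N₀ ∧ 1 ≤ n₁ ∧ ∀ N n : ℕ, N₀ ≤ N → n₁ ≤ n →
        Z * EE μ s (N * n) ≤ hc μ s c n * (δ / 32 * wd μ s (N * n)) / 4 →
      ∀ (Γ : Cx) (g : ℝ) (r0 r1 r2 r3 : ℕ) (c0 c1 c2 c3 : ℤ), r1 = r0 + N * n → r2 = r1 + N * n → r3 = r2 + N * n →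
        |(c1 : ℝ) - c0 - sl μ s * (N * n : ℕ)| ≤ wd μ s (N * n) → |(c2 : ℝ) - c1 - sl μ s * (N * n : ℕ)| ≤ wd μ s (N * n) →
        |(c3 : ℝ) - c2 - sl μ s * (N * n : ℕ)| ≤ wd μ s (N * n) →
        r3 < Γ.N → (∀ k, r0 ≤ k → k < r3 → Γ.p k = Real.exp (s + g)) → |g| * wd μ s (N * n) ≤ c / 8 * EE μ s (N * n) →
      ∀ ωB : ℝ, Kb * wd μ s (N * n) ≤ ωB → ωB ≤ Kh * wd μ s (N * n) →
      ∀ ω ω' : Env, (∀ p : Pt, p.1 ≤ (r0 : ℤ) → ω' p = ω p) → (∀ p : Pt, (r3 : ℤ) < p.1 → ω' p = ω p) →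
        (∀ (t : ℕ) (x : ℤ), t ≤ N * n → ωB < lat69 μ s t x → ω' (((r0 + t : ℕ) : ℤ), x + c0) = ω (((r0 + t : ℕ) : ℤ), x + c0)) →
        (∀ (t : ℕ) (x : ℤ), t ≤ N * n → ωB < lat69 μ s t x → ω' (((r1 + t : ℕ) : ℤ), x + c1) = ω (((r1 + t : ℕ) : ℤ), x + c1)) →
        (∀ (t : ℕ) (x : ℤ), t ≤ N * n → ωB < lat69 μ s t x → ω' (((r2 + t : ℕ) : ℤ), x + c2) = ω (((r2 + t : ℕ) : ℤ), x + c2)) →
      ∀ LA LB c' qM ρ : ℝ, δ / 4 * wd μ s (N * n) ≤ ρ → ρ ≤ wd μ s (N * n) →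
        ω' ∈ BL30 ((r0 : ℤ), c0) ((r2 : ℤ), c2)
          (LC30 μ s c (fun _ : Unit => (0 : ℤ)) (fun _ : Unit => c1 - c0) N n δ Kb Kh U0 LA Kp UA (δ / 32 * wd μ s (N * n)) YA)
          (at20 ((r1 : ℤ), c1) (Mid99 μ s c (N * n) c' qM UM Kh ρ 0 (c2 - c1)))
          (LC30 μ s c (fun _ : Unit => (0 : ℤ)) (fun _ : Unit => c3 - c2) N n δ Kb Kh U0 LB Kp UB (δ / 32 * wd μ s (N * n)) YB) →
        (∀ (t : ℕ) (x : ℤ), t < N * n → (t = 0 ∨ ωB < lat69 μ s t x) → lat69 μ s t x ≤ ωB + 1 →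
          TameV69 μ s g (wt ω) Γ.p (Mx (wt ω) Γ.p Γ.N r1) r0 c0 (N * n) (Kp * wd μ s (N * n)) ((q + c / 4 * Kp) * EE μ s (N * n)) t x) →
        (∀ (t : ℕ) (x : ℤ), t < N * n → (t = 0 ∨ ωB < lat69 μ s t x) → lat69 μ s t x ≤ ωB + 1 →
          TameV69 μ s g (wt ω) Γ.p (Mx (wt ω) Γ.p Γ.N r2) r1 c1 (N * n) (KM * wd μ s (N * n)) ((q + c / 4 * KM) * EE μ s (N * n)) t x) →
        (∀ (t : ℕ) (x : ℤ), t < N * n → (t = 0 ∨ ωB < lat69 μ s t x) → lat69 μ s t x ≤ ωB + 1 →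
          TameV69 μ s g (wt ω) Γ.p (Mx (wt ω) Γ.p Γ.N r3) r2 c2 (N * n) (Kp * wd μ s (N * n)) ((q + c / 4 * Kp) * EE μ s (N * n)) t x) →
      ∀ Q : ℝ, Mx (wt ω) Γ.p Γ.N r0 c0 ≤ Real.exp (Q * EE μ s (N * n)) *
          Real.exp ((N * n : ℕ) * lam μ s + g * (sl μ s * (N * n : ℕ))) * Mx (wt ω) Γ.p Γ.N r1 c1 →
        (∀ y ∈ Ce24 c1 ρ, Mx (wt ω) Γ.p Γ.N r1 y ≤ Real.exp (Q * EE μ s (N * n)) *
          Real.exp ((N * n : ℕ) * lam μ s + g * (sl μ s * (N * n : ℕ))) * Mx (wt ω) Γ.p Γ.N r2 c2) →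
        Mx (wt ω) Γ.p Γ.N r2 c2 ≤ Real.exp (Q * EE μ s (N * n)) *
          Real.exp ((N * n : ℕ) * lam μ s + g * (sl μ s * (N * n : ℕ))) * Mx (wt ω) Γ.p Γ.N r3 c3 →
        (∃ ωA ωM : Env, Blk76 Γ ω ωA ωM ω' r0 r1 r2 r3 {c0} ↑(Ce24 c0 (δ / 4 * wd μ s (N * n))) ↑(Ce24 c1 (δ / 4 * wd μ s (N * n)))
          {c2} ↑(Ce24 c2 (δ / 4 * wd μ s (N * n))) ↑(Ce24 c3 (δ / 4 * wd μ s (N * n)))
          (Real.exp ((LA - (Q + c / 4)) * EE μ s (N * n))) (Real.exp (gx30 c C U0 q Kh Kp UA * EE μ s (N * n)))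
          (Real.exp (yx30 c U0 q Kh Kp * EE μ s (N * n)))
          (Real.exp ((LB - (Q + c / 4)) * EE μ s (N * n))) (Real.exp (gx30 c C U0 q Kh Kp UB * EE μ s (N * n)))
          (Real.exp (yx30 c U0 q Kh Kp * EE μ s (N * n)))
          (Real.exp (-((qM + Q + c) * EE μ s (N * n)))) (Real.exp (mx30 c UM q Kh KM * EE μ s (N * n)))) ∧
        ∀ z ∈ Ce24 c1 (δ / 4 * wd μ s (N * n)), ∀ z' ∈ Ce24 c1 (δ / 4 * wd μ s (N * n)), z < z' →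
          ∀ x ∈ Ce24 c2 (δ / 4 * wd μ s (N * n)), ∀ y ∈ Ce24 c2 (δ / 4 * wd μ s (N * n)), x < y →
          ker (wt ω') Γ.p r1 (r2 - r1) z x * ker (wt ω') Γ.p r1 (r2 - r1) z' y -
            ker (wt ω') Γ.p r1 (r2 - r1) z y * ker (wt ω') Γ.p r1 (r2 - r1) z' x ≤
            Real.exp (-((N * n : ℕ) : ℝ) ^ c') * (ker (wt ω') Γ.p r1 (r2 - r1) z x * ker (wt ω') Γ.p r1 (r2 - r1) z' y) := by
  obtain ⟨n₂, hn₂⟩ := Filter.eventually_atTop.1 ((wd_tendsto h).eventually_ge_atTop 1)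
  have hc0 := h.c0
  obtain ⟨Kp, hKp0, hKp1, HL⟩ := lane30 h (K := 1) zero_le_one hδ hKb hKh hU0 hq K₀
  obtain ⟨KM, hKM0, hKM1, nM, hnM, HM⟩ := mid30 h (Kh := Kh) (U0 := UM) (by linarith) hUM hq K₀
  refine ⟨Kp, KM, hKp0, hKp1, hKM0, hKM1, fun UA UB hUA hUB => ?_⟩
  obtain ⟨YA, ZA, hYA, hZA, NA, nA, hNA, hnA, HA⟩ := HL UA hUA
  obtain ⟨YB, ZB, hYB, hZB, NB, nB, hNB, hnB, HB⟩ := HL UB hUB
  refine ⟨YA, YB, max ZA ZB, hYA, hYB, lt_max_of_lt_left hZA, max NA NB, max (max nA nB) (max nM n₂), hNA.trans (le_max_left _ _),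
    hnA.trans ((le_max_left _ _).trans (le_max_left _ _)), ?_⟩
  intro N n hN hn hZ Γ g r0 r1 r2 r3 c0 c1 c2 c3 e1 e2 e3 hc1 hc2 hc3 hr3 hp hg ωB hωB hωB' ω ω' hlo hhi hs0 hs1 hs2 LA LB c' qM ρ hρ hρ1
    hBL hTA hTM hTB Q hpA hpM hpB
  have kA : nA ≤ n := ((le_max_left _ _).trans (le_max_left _ _)).trans hn
  have kB : nB ≤ n := ((le_max_right _ _).trans (le_max_left _ _)).trans hn
  have kM : nM ≤ n := ((le_max_left _ _).trans (le_max_right _ _)).trans hn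
  have k2 : n₂ ≤ n := ((le_max_right _ _).trans (le_max_right _ _)).trans hn
  have hN1 : 1 ≤ N := (hNA.trans (le_max_left _ _)).trans hN
  have hTn : n ≤ N * n := Nat.le_mul_of_pos_left n hN1
  have hw1 : 1 ≤ wd μ s (N * n) := hn₂ _ (k2.trans hTn)
  have hE1 := one_le_EE (μ := μ) (s := s) (N * n)
  have hZA' : ZA * EE μ s (N * n) ≤ hc μ s c n * (δ / 32 * wd μ s (N * n)) / 4 :=
    (mul_le_mul_of_nonneg_right (le_max_left _ _) (by linarith)).trans hZ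
  have hZB' : ZB * EE μ s (N * n) ≤ hc μ s c n * (δ / 32 * wd μ s (N * n)) / 4 :=
    (mul_le_mul_of_nonneg_right (le_max_right _ _) (by linarith)).trans hZ
  obtain ⟨hLA, hMM, hLB⟩ := hBL
  -- the intermediate environments
  obtain ⟨ωA, hωA⟩ : ∃ x : Env, x = cut30 r1 ω' ω := ⟨_, rfl⟩
  obtain ⟨ωM, hωM⟩ : ∃ x : Env, x = cut30 r2 ω' ω := ⟨_, rfl⟩
  have A1 : ∀ q : Pt, q.1 ≤ (r1 : ℤ) → ωA q = ω' q := fun q hq => by rw [hωA, cut_le30 hq]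
  have A2 : ∀ q : Pt, (r1 : ℤ) < q.1 → ωA q = ω q := fun q hq => by rw [hωA, cut_gt30 hq]
  have M1 : ∀ q : Pt, q.1 ≤ (r2 : ℤ) → ωM q = ω' q := fun q hq => by rw [hωM, cut_le30 hq]
  have M2 : ∀ q : Pt, (r2 : ℤ) < q.1 → ωM q = ω q := fun q hq => by rw [hωM, cut_gt30 hq]
  have hT0 : 1 ≤ N * n := hnA.trans (kA.trans hTn)
  have hr01 : r0 < r1 := by omega
  have hr12 : r1 < r2 := by omega
  have hr23 : r2 < r3 := by omega
  -- lane A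
  have LkA : Luk Γ r0 r1 {c0} ↑(Ce24 c0 (δ / 4 * wd μ s (N * n))) ↑(Ce24 c1 (δ / 4 * wd μ s (N * n)))
      (Real.exp ((LA - (Q + c / 4)) * EE μ s (N * n))) (Real.exp (gx30 c C U0 q Kh Kp UA * EE μ s (N * n)))
      (Real.exp (yx30 c U0 q Kh Kp * EE μ s (N * n))) ω ωA := by
    have h1 := HA N n ((le_max_left _ _).trans hN) kA hZA' Γ r0 c0 g 0 (c1 - c0) (by
        rw [Int.cast_zero, abs_zero]
        linarith) (by
        push_cast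
        push_cast at hc1
        rw [one_mul]
        exact hc1) (by omega) (fun k h1 h2 => hp k h1 (by omega)) hg ω ωA
      (fun i hi y => wt_eq30 (A2 _ (by show (r1 : ℤ) < (i : ℤ); omega)))
      (fun i hi y => wt_eq30 (by
        rw [A1 _ (by show (i : ℤ) ≤ r1; omega)]
        exact hlo _ (by show (i : ℤ) ≤ r0; omega)))
      LA (at_congr30 (on_LC30 _ _ _ _ _ _ _ _ _ _ _ _ _) (fun q h1 h2 => A1 q (by omega)) hLA) ωB hωB hωB'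
      (fun t x hx => by
        by_cases ht : t ≤ N * n
        · rw [A1 _ (by show ((r0 + t : ℕ) : ℤ) ≤ r1; omega)]
          exact (hs0 t x ht hx).symm
        · rw [A2 _ (by show (r1 : ℤ) < ((r0 + t : ℕ) : ℤ); omega)])
      (by rw [← e1]; exact hTA) Q (by
        rw [zero_add, sub_add_cancel, ← e1]
        exact hpA)
    rw [zero_add, sub_add_cancel, mul_one, ← e1] at h1
    exact h1
  -- lane B
  have LkB : Luk Γ r2 r3 {c2} ↑(Ce24 c2 (δ / 4 * wd μ s (N * n))) ↑(Ce24 c3 (δ / 4 * wd μ s (N * n)))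
      (Real.exp ((LB - (Q + c / 4)) * EE μ s (N * n))) (Real.exp (gx30 c C U0 q Kh Kp UB * EE μ s (N * n)))
      (Real.exp (yx30 c U0 q Kh Kp * EE μ s (N * n))) ωM ω' := by
    have hG : ∀ i, r2 ≤ i → Mx (wt ωM) Γ.p Γ.N i = Mx (wt ω) Γ.p Γ.N i := fun i hi => by
      have := Mx_eq30 (Γ := Γ) (ωA := ω) (ωM := ωM) (r := r2) (T := i - r2) (fun j hj y => wt_eq30 (M2 _ (by show (r2 : ℤ) < (j : ℤ); omega)))
      rwa [Nat.add_sub_cancel' hi] at this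
    have h1 := HB N n ((le_max_right _ _).trans hN) kB hZB' Γ r2 c2 g 0 (c3 - c2) (by
        rw [Int.cast_zero, abs_zero]
        linarith) (by
        push_cast
        push_cast at hc3
        rw [one_mul]
        exact hc3) (by omega) (fun k h1 h2 => hp k (by omega) (by omega)) hg ωM ω'
      (fun i hi y => wt_eq30 (by
        rw [M2 _ (by show (r2 : ℤ) < (i : ℤ); omega)]
        exact hhi _ (by show (r3 : ℤ) < (i : ℤ); omega)))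
      (fun i hi y => wt_eq30 (M1 _ (by show (i : ℤ) ≤ r2; omega)).symm)
      LB hLB ωB hωB hωB'
      (fun t x hx => by
        by_cases ht0 : t = 0
        · exact M1 _ (by show ((r2 + t : ℕ) : ℤ) ≤ r2; omega)
        rw [M2 _ (by show (r2 : ℤ) < ((r2 + t : ℕ) : ℤ); omega)]
        by_cases ht : t ≤ N * n
        · exact (hs2 t x ht hx).symm
        · exact (hhi _ (by show (r3 : ℤ) < ((r2 + t : ℕ) : ℤ); omega)).symm)
      (fun t x ht h3 h4 => by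
        rw [hG _ (by omega), ← e3]
        exact tame_congr30 ht.le (fun k h1 h2 => hp k (by omega) (by omega)) (fun q h1 h2 => (M2 q (by omega)).symm) (hTB t x ht h3 h4))
      Q (by
        rw [zero_add, sub_add_cancel, hG _ le_rfl, hG _ (by omega), ← e3]
        exact hpB)
    rw [zero_add, sub_add_cancel, mul_one, ← e3] at h1
    exact h1
  -- the middle slab
  have hGA : ∀ i, r1 ≤ i → Mx (wt ωA) Γ.p Γ.N i = Mx (wt ω) Γ.p Γ.N i := fun i hi => by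
    have := Mx_eq30 (Γ := Γ) (ωA := ω) (ωM := ωA) (r := r1) (T := i - r1) (fun j hj y => wt_eq30 (A2 _ (by show (r1 : ℤ) < (j : ℤ); omega)))
    rwa [Nat.add_sub_cancel' hi] at this
  obtain ⟨m1, m2, m3⟩ := HM (N * n) (kM.trans hTn) Γ r1 c1 g (by omega) (fun k h1 h2 => hp k (by omega) (by omega)) hg ωA ωM
    (fun i hi y => wt_eq30 (by
      rw [M2 _ (by show (r2 : ℤ) < (i : ℤ); omega), A2 _ (by show (r1 : ℤ) < (i : ℤ); omega)]))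
    (fun y => wt_eq30 (by
      rw [M1 _ (by show (r1 : ℤ) ≤ r2; omega), A1 _ (by show (r1 : ℤ) ≤ r1; omega)]))
    ωB (by nlinarith) hωB'
    (fun t x hx => by
      by_cases ht0 : t = 0
      · rw [A1 _ (by show ((r1 + t : ℕ) : ℤ) ≤ r1; omega), M1 _ (by show ((r1 + t : ℕ) : ℤ) ≤ r2; omega)]
      rw [A2 _ (by show (r1 : ℤ) < ((r1 + t : ℕ) : ℤ); omega)]
      by_cases ht : t ≤ N * n
      · rw [M1 _ (by show ((r1 + t : ℕ) : ℤ) ≤ r2; omega)]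
        exact (hs1 t x ht hx).symm
      · rw [M2 _ (by show (r2 : ℤ) < ((r1 + t : ℕ) : ℤ); omega)])
    (fun t x ht h3 h4 => by
      rw [hGA _ (by omega), ← e2]
      exact tame_congr30 ht.le (fun k h1 h2 => hp k (by omega) (by omega)) (fun q h1 h2 => (A2 q (by omega)).symm) (hTM t x ht h3 h4))
    c' qM ρ 0 (c2 - c1) (by
      push_cast
      push_cast at hc2
      rw [sub_zero]
      linarith) (le_trans (by positivity) hρ) hρ1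
    (at_congr30 (on_Mid99 _ _ _ _ _ _ _ _) (fun q h1 h2 => M1 q (by omega)) hMM)
  rw [zero_add, sub_add_cancel] at m2 m3
  have hsub : ∀ {b y : ℤ}, y ∈ Ce24 b (δ / 4 * wd μ s (N * n)) → y ∈ Ce24 b ρ := fun hy => mem_Ce24.2 ((mem_Ce24.1 hy).trans hρ)
  refine ⟨⟨ωA, ωM, LkA, LkB, hr12.le, ?_, (Real.exp_pos _).le, Real.exp_pos _, fun y => ?_, fun y hy => ?_⟩, ?_⟩
  · intro k y hk
    exact wt_eq30 (by rw [M1 _ (by show (k : ℤ) ≤ r2; omega), A1 _ (by show (k : ℤ) ≤ r1; omega)])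
  · refine (m1 y).trans (mul_le_mul_of_nonneg_right ?_ (bW_pos _ _ _ _).le)
    have h4 : (2 : ℝ) ≤ Real.exp (EE μ s (N * n)) := two_le_exp hE1
    have h7 : mx30 c UM q Kh KM * EE μ s (N * n) = EE μ s (N * n) + (UM + (q + c / 8 * (Kh + 1)) + c / 2 * KM) * EE μ s (N * n) := by
      unfold mx30
      ring
    rw [h7, Real.exp_add (EE μ s (N * n))]
    exact mul_le_mul_of_nonneg_right h4 (Real.exp_pos _).le
  · have h1 := m2 {c2} Q (Set.mem_singleton _) (fun y hy => by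
      rw [hGA _ le_rfl, hGA _ (by omega), ← e2]
      exact hpM y hy) y (hsub (mem_coe.1 hy))
    rw [← e2] at h1
    exact h1
  · intro z hz z' hz' hzz x hx y hy hxy
    have e4 : r2 - r1 = N * n := by omega
    rw [e4]
    exact m3 ω' (fun i h1 h2 y => (M1 _ (by show (i : ℤ) ≤ r2; omega)).symm) z (hsub hz) z' (hsub hz') hzz x (hsub hx) y (hsub hy) hxy

/-- **THE LANE BLOCK IN EXPONENTS**: the conclusion of `blk30` gives `Luk` and `Pin76`. -/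
theorem lan30 {Γ : Cx} {ω ω' : Env} {r0 r1 r2 r3 : ℕ} {M0 N0 C1 MB C2 CB : Set ℤ} {E c C U0 q Kh Kp KM UM UA UB LA LB Q qM : ℝ} (hE : 1 ≤ E)
    (hB : ∃ ωA ωM : Env, Blk76 Γ ω ωA ωM ω' r0 r1 r2 r3 M0 N0 C1 MB C2 CB
      (Real.exp ((LA - (Q + c / 4)) * E)) (Real.exp (gx30 c C U0 q Kh Kp UA * E)) (Real.exp (yx30 c U0 q Kh Kp * E))
      (Real.exp ((LB - (Q + c / 4)) * E)) (Real.exp (gx30 c C U0 q Kh Kp UB * E)) (Real.exp (yx30 c U0 q Kh Kp * E))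
      (Real.exp (-((qM + Q + c) * E))) (Real.exp (mx30 c UM q Kh KM * E)))
    (hLA : yx30 c U0 q Kh Kp + 1 ≤ LA - (Q + c / 4)) (hC : 0 ≤ C) (hUB : 0 ≤ UB) (hcK : 0 ≤ c * Kh) :
    Luk Γ r0 r2 M0 N0 Set.univ (Real.exp (((LA - (Q + c / 4)) + (LB - (Q + c / 4)) - (qM + Q + c) - 1) * E))
      (Real.exp ((gx30 c C U0 q Kh Kp UB + mx30 c UM q Kh KM + gx30 c C U0 q Kh Kp UA + 1) * E))
      (Real.exp ((gx30 c C U0 q Kh Kp UB + mx30 c UM q Kh KM + yx30 c U0 q Kh Kp + 1) * E)) ω ω' ∧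
    Pin76 Γ r0 r1 r2 C1 C2 (Real.exp ((gx30 c C U0 q Kh Kp UB + mx30 c UM q Kh KM + yx30 c U0 q Kh Kp + 1) * E))
      (Real.exp (-((LB - (Q + c / 4)) - (qM + Q + c) - yx30 c U0 q Kh Kp - mx30 c UM q Kh KM) * E)) ω ω' := by
  obtain ⟨ωA, ωM, hB⟩ := hB
  refine blk_num hE hB le_rfl le_rfl le_rfl le_rfl le_rfl le_rfl ?_ (le_of_eq (by rw [neg_mul])) le_rfl hLA
  unfold gx30
  linarith

end

end Pool.Agent.W_7d29a1_C1.Luc30
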