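import Pool.Agent.W_7d29a1_C1.MovW32
import Pool.Agent.W_7d29a1_C1.SepC2
import Pool.Agent.W_7d29a1_C1.LucR30

/-!
MP_7d29a1_pr, [C1] attractor route, SEP: THE NUMBERS OF `cmpA` AND `M3A` OVER THE RECORD OF THE CONSTANTS. (helper32)

The letters of `lan30` (LucR30) at the record `Cst` (SepC2). `X, Q, m, e3, g3` : functions which read only the stages before `LB`.

* `xM32, yM32, gM32, zM32` : the exponents of `gA`, `Y = Y'`, `Gu`, `ee` of the lane block;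
* `z0C32` : the threshold of the exponents `zs, zx` of the two probabilities of the column of targets (reads the stages up to `UA`);
* `moC32` : for all the constants, `Mo32` holds at every `zs, zx >= z0C32`;
* `nbC32` : for all the constants, `Nb32` of MovW32 at `nq32` holds for all windows of height `>= n1`.
-/

set_option autoImplicit false

namespace Pool.Agent.W_7d29a1_C1.NM32

open Filter MeasureTheory
open Pool.Agent.W_7d29a1_H Pool.Agent.W_7d29a1_HS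
open Pool.Agent.W_7d29a1_C1.Cs2
open Pool.Agent.W_7d29a1_C1.Luc30

noncomputable section

/-- Exponent of the lower kernels of the lane block (`gA`); `Q` = profile constant. The four exponents are literally those of helper42's
`Lk42` (LukT42) at `q := C.qt`, `KM := C.KM`. -/
def xM32 (c Q : ℝ) (C : Cst) : ℝ := C.LA - (Q + c / 4) + (C.LB - (Q + c / 4)) - (C.qM + Q + c) - 1

/-- Exponent of the leaks (`Y`, `Y'`). -/
def yM32 (c Cc : ℝ) (C : Cst) : ℝ :=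
  gx30 c Cc C.U0 C.qt C.Kl C.Kp C.UB + mx30 c C.UM C.qt C.Kl C.KM + yx30 c C.U0 C.qt C.Kl C.Kp + 1

/-- Exponent of the upper kernels (`Gu`). -/
def gM32 (c Cc : ℝ) (C : Cst) : ℝ :=
  gx30 c Cc C.U0 C.qt C.Kl C.Kp C.UB + mx30 c C.UM C.qt C.Kl C.KM + gx30 c Cc C.U0 C.qt C.Kl C.Kp C.UA + 1

/-- Exponent of the exits (`ee`). -/
def zM32 (c Q : ℝ) (C : Cst) : ℝ :=
  C.LB - (Q + c / 4) - (C.qM + Q + c) - yx30 c C.U0 C.qt C.Kl C.Kp - mx30 c C.UM C.qt C.Kl C.KM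

/-- **The threshold of `zs`, `zx`.** -/
def z0C32 (c Cc Q m e3 : ℝ) (C : Cst) : ℝ := max 2 (gM32 c Cc C + m + e3 + 2 - xM32 c Q C)

theorem two_le_z0 (c Cc Q m e3 : ℝ) (C : Cst) : 2 ≤ z0C32 c Cc Q m e3 C := le_max_left _ _

/-- **THE NUMBERS.** `X, Q, m, e3, g3` are read at the constants before `LB`. -/
theorem moC32 (S : Is → Cst → Prop) (c Cc : ℝ) (X Q m e3 g3 : Cst → ℝ) : EvC S fun C =>
    yx30 c C.U0 C.qt C.Kl C.Kp + 1 ≤ C.LA - (Q (C.cut .LB) + c / 4) ∧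
    ∀ zs zx : ℝ, z0C32 c Cc (Q (C.cut .LB)) (X (C.cut .LB) * m (C.cut .LB)) (X (C.cut .LB) * e3 (C.cut .LB)) C ≤ zs →
      z0C32 c Cc (Q (C.cut .LB)) (X (C.cut .LB) * m (C.cut .LB)) (X (C.cut .LB) * e3 (C.cut .LB)) C ≤ zx →
      Mo32 (X (C.cut .LB) * m (C.cut .LB)) (X (C.cut .LB) * e3 (C.cut .LB)) (X (C.cut .LB) * g3 (C.cut .LB))
        (xM32 c (Q (C.cut .LB)) C) (yM32 c Cc C) (yM32 c Cc C) (gM32 c Cc C) (zM32 c (Q (C.cut .LB)) C) zs zx := by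
  filter_upwards [FC.LB_ge S fun C => 1 + Q C + c / 4 + (C.qM + Q C + c) + yx30 c C.U0 C.qt C.Kl C.Kp + mx30 c C.UM C.qt C.Kl C.KM,
    FC.LA_ge S fun C => max (yx30 c C.U0 C.qt C.Kl C.Kp + 1 + (Q (C.cut .LB) + c / 4))
      (yM32 c Cc C + max (X (C.cut .LB) * m (C.cut .LB) + X (C.cut .LB) * e3 (C.cut .LB) + 2) (X (C.cut .LB) * g3 (C.cut .LB)) -
        C.LB + C.qM + 3 * Q (C.cut .LB) + 3 / 2 * c + 1)] with C h1 h2
  have e1 : (C.cut .LA).cut .LB = C.cut .LB := rfl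
  have e2 : yM32 c Cc (C.cut .LA) = yM32 c Cc C := rfl
  simp only [e1, e2] at h2
  have h3 : 1 + Q (C.cut .LB) + c / 4 + (C.qM + Q (C.cut .LB) + c) + yx30 c C.U0 C.qt C.Kl C.Kp + mx30 c C.UM C.qt C.Kl C.KM ≤
    C.LB := h1
  have h4 : yx30 c C.U0 C.qt C.Kl C.Kp + 1 + (Q (C.cut .LB) + c / 4) ≤ C.LA := (le_max_left _ _).trans h2
  have h5 : yM32 c Cc C + max (X (C.cut .LB) * m (C.cut .LB) + X (C.cut .LB) * e3 (C.cut .LB) + 2)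
      (X (C.cut .LB) * g3 (C.cut .LB)) - C.LB + C.qM + 3 * Q (C.cut .LB) + 3 / 2 * c + 1 ≤ C.LA := (le_max_right _ _).trans h2
  have h6 := le_max_left (X (C.cut .LB) * m (C.cut .LB) + X (C.cut .LB) * e3 (C.cut .LB) + 2) (X (C.cut .LB) * g3 (C.cut .LB))
  have h7 := le_max_right (X (C.cut .LB) * m (C.cut .LB) + X (C.cut .LB) * e3 (C.cut .LB) + 2) (X (C.cut .LB) * g3 (C.cut .LB))
  refine ⟨by linarith, fun zs zx hs hx => ?_⟩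
  have h8 := (le_max_right _ _).trans hs
  have h9 := (le_max_left _ _).trans hx
  have ex : xM32 c (Q (C.cut .LB)) C = C.LA - (Q (C.cut .LB) + c / 4) + (C.LB - (Q (C.cut .LB) + c / 4)) -
    (C.qM + Q (C.cut .LB) + c) - 1 := rfl
  have ez : zM32 c (Q (C.cut .LB)) C = C.LB - (Q (C.cut .LB) + c / 4) - (C.qM + Q (C.cut .LB) + c) - yx30 c C.U0 C.qt C.Kl C.Kp -
    mx30 c C.UM C.qt C.Kl C.KM := rfl
  exact ⟨by linarith, by linarith, by linarith, by linarith, by linarith, h9⟩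

/-- **THE NUMBERS OF ONE WINDOW AT THE RECORD**: `T'` = height of a slab of the lane block, `T` = height of the window,
`X` = bound of `T / T'`; `z` = any number beyond the threshold `z0C32`. -/
theorem nbC32 {μ : Measure ℝ} [IsProbabilityMeasure μ] {s c Cc : ℝ} {n₀ : ℕ} (h : In μ s c Cc n₀) (S : Is → Cst → Prop)
    (X : Cst → ℕ) (Q m e3 g3 : Cst → ℝ) : EvC S fun C =>
    1 ≤ X (C.cut .LB) → 0 ≤ m (C.cut .LB) → 0 ≤ e3 (C.cut .LB) → 0 ≤ g3 (C.cut .LB) → ∀ zs zx : ℝ,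
    z0C32 c Cc (Q (C.cut .LB)) (X (C.cut .LB) * m (C.cut .LB)) (X (C.cut .LB) * e3 (C.cut .LB)) C ≤ zs →
    z0C32 c Cc (Q (C.cut .LB)) (X (C.cut .LB) * m (C.cut .LB)) (X (C.cut .LB) * e3 (C.cut .LB)) C ≤ zx →
    ∃ n₁ : ℕ, ∀ T' : ℕ, n₁ ≤ T' → ∀ T : ℕ, T' ≤ T → T ≤ X (C.cut .LB) * T' → ∀ e lo : ℕ, e - lo ≤ 2 * T + 1 →
      ∀ δ EM G₃ : ℝ, 0 ≤ δ → 32 * δ ≤ 1 → EM ≤ m (C.cut .LB) * EE μ s T → 0 < G₃ → G₃ ≤ Real.exp (g3 (C.cut .LB) * EE μ s T) →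
      ∀ (K₁ K₂ : ℝ) (n m' a b : ℕ) (x0 z₀ : ℤ) (K Q' U Yj A e₃ : ℝ) (a₁ b₁ : ℕ),
        Nb32 (nq32 K₁ K₂ n m' a b x0 z₀ K Q' U Yj A e₃ G₃ δ a₁ b₁ e (EE μ s T') (EE μ s T) (e3 (C.cut .LB))
          (xM32 c (Q (C.cut .LB)) C) (yM32 c Cc C) (yM32 c Cc C) (gM32 c Cc C) (zM32 c (Q (C.cut .LB)) C) zs zx) lo
          (EE μ s T') (EE μ s T) (X (C.cut .LB)) EM (m (C.cut .LB)) (e3 (C.cut .LB)) (g3 (C.cut .LB))
          (xM32 c (Q (C.cut .LB)) C) (yM32 c Cc C) (yM32 c Cc C) (gM32 c Cc C) (zM32 c (Q (C.cut .LB)) C) zs zx := by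
  filter_upwards [moC32 S c Cc (fun C => (X C : ℝ)) Q m e3 g3] with C H hX hm he hg zs zx hs hx
  obtain ⟨n₁, H2⟩ := two_units h 0 hX
  refine ⟨n₁, fun T' hT' T h1 h2 e lo hR δ EM G₃ hδ0 hδ hEM hG0 hG K₁ K₂ n m' a b x0 z₀ K Q' U Yj A e₃ a₁ b₁ => ?_⟩
  obtain ⟨_, k1, k2, k3, k4⟩ := H2 T' hT' T h1 h2
  have hz : (0 : ℝ) ≤ z0C32 c Cc (Q (C.cut .LB)) (X (C.cut .LB) * m (C.cut .LB)) (X (C.cut .LB) * e3 (C.cut .LB)) C :=
    le_trans (by norm_num) (two_le_z0 _ _ _ _ _ _)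
  exact nb32_nq k1 k2 k3 hm he hg (hz.trans hs) (hz.trans hx) (H.2 zs zx hs hx) hEM hG0 hG hδ0 hδ (k4 _ hR)

/-- **THE NUMBERS OF ONE WINDOW AT THE RECORD**, for functions which read only the stages before `LB`. -/
theorem nbL32 {μ : Measure ℝ} [IsProbabilityMeasure μ] {s c Cc : ℝ} {n₀ : ℕ} (h : In μ s c Cc n₀) (S : Is → Cst → Prop)
    {X : Cst → ℕ} {Q m e3 g3 : Cst → ℝ} (lX : ∀ C : Cst, X (C.cut .LB) = X C) (lQ : ∀ C : Cst, Q (C.cut .LB) = Q C)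
    (lm : ∀ C : Cst, m (C.cut .LB) = m C) (le : ∀ C : Cst, e3 (C.cut .LB) = e3 C) (lg : ∀ C : Cst, g3 (C.cut .LB) = g3 C) :
    EvC S fun C => 1 ≤ X C → 0 ≤ m C → 0 ≤ e3 C → 0 ≤ g3 C → ∀ zs zx : ℝ,
    z0C32 c Cc (Q C) (X C * m C) (X C * e3 C) C ≤ zs → z0C32 c Cc (Q C) (X C * m C) (X C * e3 C) C ≤ zx →
    ∃ n₁ : ℕ, ∀ T' : ℕ, n₁ ≤ T' → ∀ T : ℕ, T' ≤ T → T ≤ X C * T' → ∀ e lo : ℕ, e - lo ≤ 2 * T + 1 →
      ∀ δ EM G₃ : ℝ, 0 ≤ δ → 32 * δ ≤ 1 → EM ≤ m C * EE μ s T → 0 < G₃ → G₃ ≤ Real.exp (g3 C * EE μ s T) →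
      ∀ (K₁ K₂ : ℝ) (n m' a b : ℕ) (x0 z₀ : ℤ) (K Q' U Yj A e₃ : ℝ) (a₁ b₁ : ℕ),
        Nb32 (nq32 K₁ K₂ n m' a b x0 z₀ K Q' U Yj A e₃ G₃ δ a₁ b₁ e (EE μ s T') (EE μ s T) (e3 C) (xM32 c (Q C) C) (yM32 c Cc C)
          (yM32 c Cc C) (gM32 c Cc C) (zM32 c (Q C) C) zs zx) lo (EE μ s T') (EE μ s T) (X C) EM (m C) (e3 C) (g3 C)
          (xM32 c (Q C) C) (yM32 c Cc C) (yM32 c Cc C) (gM32 c Cc C) (zM32 c (Q C) C) zs zx := by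
  filter_upwards [nbC32 h S X Q m e3 g3] with C H
  simpa only [lX, lQ, lm, le, lg] using H

end

end Pool.Agent.W_7d29a1_C1.NM32
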