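import Pool.Agent.W_7d29a1_C1.SepS2
import Pool.Agent.W_7d29a1_C1.LukU42
import Pool.Agent.W_7d29a1_C1.WqT98
import Pool.Agent.W_7d29a1_C1.MoC32
import Pool.Agent.W_7d29a1_C1.PreC40

/-!
MP_7d29a1_pr, [C1] attractor route, SEP: THE LANE BLOCK OF THE WINDOW OVER THE RECORD OF THE CONSTANTS. (helper82; over helper42's `lkU42`)

* `NC82` : what the lane block asks of the record; `nC82` : it holds eventually;
* `wh82` : helper42's list `Wh42` of one window of the record;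
* `taC82` : the threshold `Qv ≤ qt` of the tame masses: `Ta42`;
* **`lkC82`** : the part `LkP98` of `WQ19`, in the form `EvC`, with the exponents `xM32, yM32, gM32, zM32`; **`lkE82`** : the same in
  helper98's form `Ew98`, at `TF98`.
-/

set_option autoImplicit false

namespace Pool.Agent.W_7d29a1_C1.LkC82

open Filter MeasureTheory
open Pool.Agent.W_7d29a1_F hiding Bw G
open Pool.Agent.W_7d29a1_h4g Pool.Agent.W_7d29a1_H Pool.Agent.W_7d29a1_HS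
open Pool.Agent.W_7d29a1_C1.H60
open Pool.Agent.W_7d29a1_C1.G37 (Gm)
open Pool.Agent.W_7d29a1_C1.SF98
open Pool.Agent.W_7d29a1_C1.N49
open Pool.Agent.W_7d29a1_C1.D98
open Pool.Agent.W_7d29a1_C1.Q49
open Pool.Agent.W_7d29a1_C1.Nm15
open Pool.Agent.W_7d29a1_C1.Cs2
open Pool.Agent.W_7d29a1_C1.NM32
open Pool.Agent.W_7d29a1_C1.PW58 (Sc58)
open Pool.Agent.W_7d29a1_C1.Luc30 (Blk42 gx30 mx30 yx30)
open Pool.Agent.W_7d29a1_C1.Ou37 (OuD OuT)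
open Pool.Agent.W_7d29a1_C1.E2H97 (OuTl OuG97)

noncomputable section

variable {μ : Measure ℝ} {s c Cc ε : ℝ} {n₀ : ℕ}

/-- **WHAT THE LANE BLOCK ASKS OF THE RECORD.** -/
structure NC82 (μ : Measure ℝ) (s c Cc : ℝ) (C : Cst) : Prop where
  kwP : C.P.kw = C.kw
  jl1 : 1 ≤ C.jl
  sg0 : 0 < C.sgm
  sg1 : C.sgm ≤ c / 16
  kw2 : 2 ≤ C.kw
  Kl : 4 * C.jl * C.kw + 1 ≤ C.Kl
  r0 : C.Kl + 2 ≤ C.r0
  d0 : 0 < C.dl
  d1 : C.dl ≤ 1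
  Kp : 0 ≤ C.Kp
  KM : 0 ≤ C.KM
  UB : 0 ≤ C.UB
  qF : 0 ≤ C.qF

theorem nC82 (hc : 0 < c) : EvC (S0 μ s c Cc ε) (NC82 μ s c Cc) := by
  filter_upwards [sg2 (μ := μ) (s := s) (c := c) (Cc := Cc) (ε := ε), evPf40 (S0 μ s c Cc ε),
    FC.sgm_le (S0 μ s c Cc ε) (fun _ => c / 16) (fun _ => by positivity), FC.kw_ge (S0 μ s c Cc ε) fun _ => 2,
    FC.Kl_ge (S0 μ s c Cc ε) fun C => 4 * C.jl * C.kw + 1, FC.r0_ge (S0 μ s c Cc ε) fun C => C.Kl + 2,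
    FC.dl_le (S0 μ s c Cc ε) (fun _ => 1) (fun _ => one_pos), FC.qF_ge (S0 μ s c Cc ε) fun _ => 0] with C g hP h1 h2 h3 h4 h5 h6
  have k3 : 4 * C.jl * C.kw + 1 ≤ C.Kl := h3
  have k2 : (2 : ℝ) ≤ C.kw := h2
  have kl0 : 0 ≤ C.Kl := by
    have : (0 : ℝ) ≤ 4 * C.jl * C.kw := by positivity
    linarith
  exact
    { kwP := hP.1.1
      jl1 := g.jl1
      sg0 := h1.1
      sg1 := h1.2
      kw2 := k2
      Kl := k3
      r0 := h4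
      d0 := h5.1
      d1 := h5.2
      Kp := by have := g.Klp; linarith
      KM := by have := g.KlM; linarith
      UB := g.UB.le
      qF := h6 }

theorem NC82.Kl0 {C : Cst} (h : NC82 μ s c Cc C) : 0 ≤ C.Kl := by
  have h1 := h.Kl
  have h2 : (0 : ℝ) ≤ 4 * C.jl * C.kw := by
    have := h.kw2
    positivity
  linarith

/-- **THE NUMBERS OF ONE WINDOW OF THE RECORD.** -/
theorem wh82 [IsProbabilityMeasure μ] (hI : In μ s c Cc n₀) : EvC (S0 μ s c Cc ε) fun C => ∃ n₁ : ℕ,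
    ∀ {Γ : Cx} {G : Gm} {R : Nr98} {mt τ0 u : ℕ} {E : ℕ → ℝ} {κ : ℤ × ℤ} {kap : ℝ}, kap ≤ c / 8 →
      Win52 μ s C.P.kw kap n₁ (nm15 μ s c (C.g ε) C.l G) R Γ G mt τ0 E u κ →
      Wh42 μ s c Cc Γ G (nm15 μ s c (C.g ε) C.l G) E C.r0 C.sgm (E u / 16) C.qt C.KM C.jl u := by
  filter_upwards [nC82 (μ := μ) (s := s) (Cc := Cc) (ε := ε) hI.c0, lane2 (μ := μ) (s := s) (c := c) (Cc := Cc) (ε := ε),
    blk2 (μ := μ) (s := s) (c := c) (Cc := Cc) (ε := ε)] with C H hl hb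
  obtain ⟨nB, -, hB, -⟩ := hb
  obtain ⟨T₁, hT₁⟩ := hl nB
  refine ⟨T₁, fun {Γ G R mt τ0 u E κ kap} hkap W => ?_⟩
  obtain ⟨h1, h2, sc⟩ := hT₁ (G.T u) (W.hT u)
  have hE0 := W.E0 u
  have hU : |Γ.h| * wd μ s (G.T u) ≤ c / 8 * EE μ s (G.T u) :=
    W.tilt.trans (mul_le_mul_of_nonneg_right hkap (zero_le_one.trans (one_le_EE _)))
  have hk : G.kw = C.kw := W.hk.trans H.kwP
  exact
    { lw := lw42 hI.c0.le W.hs W.hv (W.hw u) (W.ok.fit u W.hu) sc H.d0 rfl rfl rfl H.Kp H.KM le_rfl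
        (by show C.dl / 4 ≤ 1; linarith [H.d1]) (by show (0 : ℝ) ≤ 2; norm_num) (by rw [hk]; exact H.kw2) (by rw [hk]; exact H.Kl) hU
        (hB _ h1).2
      hE := W.hE u
      hU := hU
      sc := sc
      Kl0 := H.Kl0
      g0 := H.sg0.le
      gr := H.sg1
      sgE := by linarith
      hR := H.r0 }

/-- **THE TAME MASSES OF THE LANE BLOCK**: the level `qt` is beyond the threshold `Qv` of `taU42`. -/
theorem taC82 [IsProbabilityMeasure μ] (hI : In μ s c Cc n₀) : EvC (S0 μ s c Cc ε) fun C => ∃ Qv : ℝ, Qv ≤ C.qt ∧ ∃ n₁ : ℕ,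
    ∀ {Γ : Cx} {G : Gm} {R : Nr98} {mt τ0 u : ℕ} {E : ℕ → ℝ} {κ : ℤ × ℤ} {kap : ℝ} {ω : Env}, kap ≤ c / 8 →
      Win52 μ s C.P.kw kap n₁ (nm15 μ s c (C.g ε) C.l G) R Γ G mt τ0 E u κ → NoSw98 Γ G u κ →
      ω ∈ FarL98 μ s c Γ G (nm15 μ s c (C.g ε) C.l G) u κ → ω ∈ OuD μ s Γ G E C.r0 (C.sgm * C.r0) C.sgm (E u / 16) u κ →
      Ta42 μ s c Γ G (nm15 μ s c (C.g ε) C.l G) Qv u κ ω := by
  choose nA hnA HA using fun PF : ℕ => taU42 hI PF (θ := 1 / 8) (K := 4) le_rfl (by norm_num) le_rfl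
  choose! Qv hQv HV using HA
  filter_upwards [nC82 (μ := μ) (s := s) (Cc := Cc) (ε := ε) hI.c0, wh82 (ε := ε) hI,
    FC.qt_ge (S0 μ s c Cc ε) fun C => Qv C.PF C.qF (C.sgm * C.r0) C.Kl C.jl] with C H hw hq
  obtain ⟨n₁, hw⟩ := hw
  have hq' : Qv C.PF C.qF (C.sgm * C.r0) C.Kl C.jl ≤ C.qt := hq
  have hr0 : 0 ≤ C.sgm * C.r0 := mul_nonneg H.sg0.le (by linarith [H.Kl0, H.r0])
  refine ⟨_, hq', max n₁ (nA C.PF), fun {Γ G R mt τ0 u E κ kap ω} hkap W hN h1 h2 => ?_⟩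
  exact HV C.PF C.qF (C.sgm * C.r0) C.Kl H.qF hr0 H.Kl0 C.jl H.jl1 rfl rfl rfl rfl rfl ((le_max_right _ _).trans (W.hT u))
    (hw hkap (W.mono (le_max_left _ _))) hN W.reN' h1 h2

/-- **THE PART `LkP98` OF `WQ19` AT THE RECORD**; `Q` = the profile constant. -/
theorem lkC82 [IsProbabilityMeasure μ] (hI : In μ s c Cc n₀) {Q : Cst → ℝ} (hQ : ∀ C : Cst, 4 * C.jl * (C.sgm * C.r0 + 1) ≤ Q C)
    (lQ : ∀ C : Cst, Q (C.cut .LB) = Q C) : EvC (S0 μ s c Cc ε) fun C => ∃ n₁ : ℕ,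
    ∀ (Γ : Cx) (G : Gm) (R : Nr98) (mt τ0 u : ℕ) (E : ℕ → ℝ) (κ : ℤ × ℤ) (kap : ℝ) (TF : Set Env), kap ≤ c / 8 →
      Win52 μ s C.P.kw kap n₁ (nm15 μ s c (C.g ε) C.l G) R Γ G mt τ0 E u κ → NoSw98 Γ G u κ →
      (∀ ω ∈ TF, ω ∈ FarL98 μ s c Γ G (nm15 μ s c (C.g ε) C.l G) u κ ∧ ω ∈ OuD μ s Γ G E C.r0 (C.sgm * C.r0) C.sgm (E u / 16) u κ ∧
        ω ∈ OuTl μ s Γ G C.r0 (C.sgm * C.r0 * E u + E u / 16) (D98.rl98 Γ G (nm15 μ s c (C.g ε) C.l G) u κ) u κ) →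
      LkP98 μ s c Γ G (nm15 μ s c (C.g ε) C.l G) R u κ TF (xM32 c (Q C) C) (yM32 c Cc C) (yM32 c Cc C) (gM32 c Cc C)
        (zM32 c (Q C) C) := by
  filter_upwards [nC82 (μ := μ) (s := s) (Cc := Cc) (ε := ε) hI.c0, wh82 (ε := ε) hI, taC82 (ε := ε) hI,
    FC.LA_ge (S0 μ s c Cc ε) fun C => yx30 c C.U0 C.qt C.Kl C.Kp + 1 + (Q C + c / 4)] with C H hw hta hLA
  obtain ⟨n₁, hw⟩ := hw
  obtain ⟨Qv, hQv, n₂, hta⟩ := hta
  have hLA' : yx30 c C.U0 C.qt C.Kl C.Kp + 1 ≤ C.LA - (Q C + c / 4) := by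
    have h1 : yx30 c C.U0 C.qt C.Kl C.Kp + 1 + (Q (C.cut .LA) + c / 4) ≤ C.LA := hLA
    have h2 : Q (C.cut .LB) = Q (C.cut .LA) := lQ (C.cut .LA)
    rw [← h2, lQ] at h1
    linarith
  have hr0 : 0 ≤ C.sgm * C.r0 := mul_nonneg H.sg0.le (by linarith [H.Kl0, H.r0])
  refine ⟨max n₁ n₂, fun Γ G R mt τ0 u E κ kap TF hkap W hN hTF ω hω η hη => ?_⟩
  obtain ⟨t1, t2, t3⟩ := hTF ω hω
  have Wh := hw hkap (W.mono (le_max_left _ _))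
  have Ta := hta hkap (W.mono (le_max_right _ _)) hN t1 t2
  exact lukC42 hI Wh.lw hQv Wh.hRt (Wh.hX hr0 (hQ C)) H.Kl0 H.UB hLA' hN W.reN' Ta t3 hη

/-- **`LkP98` OF ALL THE WINDOWS OF THE RECORD**, at the set `TF98`; `F` = the constants of the families (`C.cf`, `cf19 C`). -/
theorem lkE82 [IsProbabilityMeasure μ] (hI : In μ s c Cc n₀) {Q : Cst → ℝ} (hQ : ∀ C : Cst, 4 * C.jl * (C.sgm * C.r0 + 1) ≤ Q C)
    (lQ : ∀ C : Cst, Q (C.cut .LB) = Q C) : EvC (S0 μ s c Cc ε) fun C => ∀ F : Cf98, F.sgm = C.sgm → F.r0 = C.r0 →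
      ∀ kap : ℝ, kap ≤ c / 8 → Ew98 μ s c kap C.P (fun _ G _ => nm15 μ s c (C.g ε) C.l G) F fun Γ G _ _ E u κ =>
        LkP98 μ s c Γ G (nm15 μ s c (C.g ε) C.l G) (F.nr μ s c Γ G E) u κ
          (TF98 μ s c (fun _ G _ => nm15 μ s c (C.g ε) C.l G) F Γ G E u κ)
          (xM32 c (Q C) C) (yM32 c Cc C) (yM32 c Cc C) (gM32 c Cc C) (zM32 c (Q C) C) := by
  filter_upwards [lkC82 (ε := ε) hI hQ lQ] with C H F hs hr kap hkap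
  obtain ⟨n₁, H⟩ := H
  refine ⟨n₁, fun Γ G mt τ0 E u κ W => H Γ G _ mt τ0 u E κ kap _ hkap W.w W.nosw fun ω hω => ?_⟩
  rw [← hs, ← hr]
  exact ⟨TP98.farL hω.1, OuG97.d0 hω.2, OuG97.t0 hω.2⟩

end

end Pool.Agent.W_7d29a1_C1.LkC82
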