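import Pool.Agent.W_7d29a1_C1.WqS98
import Pool.Agent.W_7d29a1_C1.GwU97
import Pool.Agent.W_7d29a1_C1.LukU42

/-!
MP_7d29a1_pr, [C1] attractor route, SEP: THE PART `LkP98` OF `wp98`: THE LUCK OF THE LANE BLOCK ON `TF97`. (helper30)

* `TF30` : `TF97` at the letters of the record `F`, slack `E u / 16`; `tc30` : a typical content is in `TF30`;
* `lkP30` : `LkP98` at `TF97`, from helper42's `lkU42` (numbers of `lan30` in the unit `EE (T_r)`);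
* `lkW30` : the same at one window `Win52`, at `TF30`.

Order of the constants: `PF, θ, K | qF, Q4, Kl, jl | Qv | q ≥ Qv | the rest free`.
-/

set_option autoImplicit false

namespace Pool.Agent.W_7d29a1_C1.Q49

open Finset MeasureTheory Filter
open Pool.Agent.W_7d29a1_F hiding Bw G
open Pool.Agent.W_7d29a1_h4g Pool.Agent.W_7d29a1_HS
open Pool.Agent.W_7d29a1_H hiding ex gg
open Pool.Agent.W_7d29a1_C1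
open Pool.Agent.W_7d29a1_C1.H60
open Pool.Agent.W_7d29a1_C1.G37 (Gm)
open Pool.Agent.W_7d29a1_C1.SF98
open Pool.Agent.W_7d29a1_C1.P25
open Pool.Agent.W_7d29a1_C1.N49
open Pool.Agent.W_7d29a1_C1.D98
open Pool.Agent.W_7d29a1_C1.WO57
open Pool.Agent.W_7d29a1_C1.WrS19
open Pool.Agent.W_7d29a1_C1.E2H97 (TF97 tfSub97)
open Pool.Agent.W_7d29a1_C1.Luc30 (gx30 mx30 yx30)

noncomputable section

variable {μ : Measure ℝ} {s c C : ℝ} {n₀ : ℕ}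

/-- **`LkP98` AT `TF97`.** -/
theorem lkP30 [IsProbabilityMeasure μ] (h0 : In μ s c C n₀) (PF : ℕ) {θ K : ℝ} (hK : 4 ≤ K) (hθ : 0 < θ) (hθ8 : θ ≤ 1 / 8) :
    ∃ n₁ : ℕ, 1 ≤ n₁ ∧ ∀ qF Q4 Kl : ℝ, 0 ≤ qF → 0 ≤ Q4 → 0 ≤ Kl → ∀ jl : ℕ, 1 ≤ jl → ∃ Qv : ℝ, 0 ≤ Qv ∧
    ∀ {Γ : Cx} {G : Gm} {P : Nm98} {Rn : Nr98} {E : ℕ → ℝ} {rc Qc Q4c sgc r0 Qr sgm R0 x0 R2 x2 R1 x1 sg q KM Q : ℝ} {u : ℕ}
      {κ : ℤ × ℤ}, P.th = θ → P.KF = K → P.PF = PF → P.qF = qF → P.Kl = Kl → n₁ ≤ G.T u → Qv ≤ q → 0 ≤ Qr → 4 * jl * (Qr + 1) ≤ Q →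
      Wh42 μ s c C Γ G P E r0 sgm sg q KM jl u → 0 ≤ P.UB → yx30 c P.U0 q P.Kl P.KpA + 1 ≤ P.LA - (Q + c / 4) → G.re u κ < Γ.N →
      LkP98 μ s c Γ G P Rn u κ (TF97 μ s c Γ G P Rn E rc Qc Q4c sgc r0 Qr Q4 sgm R0 x0 R2 x2 R1 x1 sg u κ)
        ((P.LA - (Q + c / 4)) + (P.LB - (Q + c / 4)) - (P.qM + Q + c) - 1)
        (gx30 c C P.U0 q P.Kl P.KpA P.UB + mx30 c P.UM q P.Kl KM + yx30 c P.U0 q P.Kl P.KpA + 1)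
        (gx30 c C P.U0 q P.Kl P.KpA P.UB + mx30 c P.UM q P.Kl KM + yx30 c P.U0 q P.Kl P.KpA + 1)
        (gx30 c C P.U0 q P.Kl P.KpA P.UB + mx30 c P.UM q P.Kl KM + gx30 c C P.U0 q P.Kl P.KpA P.UA + 1)
        ((P.LB - (Q + c / 4)) - (P.qM + Q + c) - yx30 c P.U0 q P.Kl P.KpA - mx30 c P.UM q P.Kl KM) := by
  obtain ⟨n₁, hn₁, H⟩ := lkU42 h0 PF hK hθ hθ8
  refine ⟨n₁, hn₁, fun qF Q4 Kl a1 a2 a3 jl hj => ?_⟩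
  obtain ⟨Qv, hQv, H⟩ := H qF Q4 Kl a1 a2 a3 jl hj
  refine ⟨Qv, hQv, ?_⟩
  intro Γ G P Rn E rc Qc Q4c sgc r0 Qr sgm R0 x0 R2 x2 R1 x1 sg q KM Q u κ e1 e2 e3 e4 e5 hT hq hQr hQ W hUB hLA hreN ω hω η hη
  exact H e1 e2 e3 e4 e5 hT hq hQr hQ W hUB hLA (TP98.nosw hω.1) hreN (TP98.farL hω.1) (E2H97.OuG97.d0 hω.2) (E2H97.OuG97.t0 hω.2) hη

/-- **`TF97` AT THE LETTERS OF THE RECORD**, slack `E u / 16`. -/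
abbrev TF30 (μ : Measure ℝ) (s c : ℝ) (N : NmF) (F : Cf98) (Γ : Cx) (G : Gm) (E : ℕ → ℝ) (u : ℕ) (κ : ℤ × ℤ) : Set Env :=
  TF97 μ s c Γ G (N Γ G E) (F.nr μ s c Γ G E) E F.rc (F.sgm * F.rc) (F.sgm * F.rc) F.sgm F.r0 (F.sgm * F.r0) (F.sgm * F.r0) F.sgm
    F.R0 (F.sgm * F.R0) F.R2 (F.sgm * F.R2) F.R1 (F.sgm * F.R1) (E u / 16) u κ

/-- **A typical content is in `TF30`.** -/
theorem tc30 {P : Pre} {N : NmF} {F : Cf98} {Γ : Cx} {G : Gm} {E : ℕ → ℝ} {u : ℕ} {κ : ℤ × ℤ} {ω : Env}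
    (h : Tc98 μ s c P N F Γ G E u κ ω) : ω ∈ TF30 μ s c N F Γ G E u κ :=
  tfSub97 ⟨h.lv, h.rc, h.r0, h.R0, h.R2, h.R1⟩

/-- **`LkP98` AT ONE WINDOW.** -/
theorem lkW30 [IsProbabilityMeasure μ] (h0 : In μ s c C n₀) (PF : ℕ) {θ K : ℝ} (hK : 4 ≤ K) (hθ : 0 < θ) (hθ8 : θ ≤ 1 / 8) :
    ∃ n₁ : ℕ, 1 ≤ n₁ ∧ ∀ qF Q4 Kl : ℝ, 0 ≤ qF → 0 ≤ Q4 → 0 ≤ Kl → ∀ jl : ℕ, 1 ≤ jl → ∃ Qv : ℝ, 0 ≤ Qv ∧
    ∀ {kw kap : ℝ} {N : NmF} {F : Cf98} {Γ : Cx} {G : Gm} {mt τ0 : ℕ} {E : ℕ → ℝ} {u : ℕ} {κ : ℤ × ℤ} {q KM Q : ℝ},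
      Win52 μ s kw kap n₁ (N Γ G E) (F.nr μ s c Γ G E) Γ G mt τ0 E u κ →
      (N Γ G E).th = θ → (N Γ G E).KF = K → (N Γ G E).PF = PF → (N Γ G E).qF = qF → (N Γ G E).Kl = Kl → F.sgm * F.r0 = Q4 →
      Wh42 μ s c C Γ G (N Γ G E) E F.r0 F.sgm (E u / 16) q KM jl u → Qv ≤ q → 4 * jl * (F.sgm * F.r0 + 1) ≤ Q →
      0 ≤ (N Γ G E).UB → yx30 c (N Γ G E).U0 q (N Γ G E).Kl (N Γ G E).KpA + 1 ≤ (N Γ G E).LA - (Q + c / 4) →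
      LkP98 μ s c Γ G (N Γ G E) (F.nr μ s c Γ G E) u κ (TF30 μ s c N F Γ G E u κ)
        (((N Γ G E).LA - (Q + c / 4)) + ((N Γ G E).LB - (Q + c / 4)) - ((N Γ G E).qM + Q + c) - 1)
        (gx30 c C (N Γ G E).U0 q (N Γ G E).Kl (N Γ G E).KpA (N Γ G E).UB + mx30 c (N Γ G E).UM q (N Γ G E).Kl KM +
          yx30 c (N Γ G E).U0 q (N Γ G E).Kl (N Γ G E).KpA + 1)
        (gx30 c C (N Γ G E).U0 q (N Γ G E).Kl (N Γ G E).KpA (N Γ G E).UB + mx30 c (N Γ G E).UM q (N Γ G E).Kl KM +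
          yx30 c (N Γ G E).U0 q (N Γ G E).Kl (N Γ G E).KpA + 1)
        (gx30 c C (N Γ G E).U0 q (N Γ G E).Kl (N Γ G E).KpA (N Γ G E).UB + mx30 c (N Γ G E).UM q (N Γ G E).Kl KM +
          gx30 c C (N Γ G E).U0 q (N Γ G E).Kl (N Γ G E).KpA (N Γ G E).UA + 1)
        (((N Γ G E).LB - (Q + c / 4)) - ((N Γ G E).qM + Q + c) - yx30 c (N Γ G E).U0 q (N Γ G E).Kl (N Γ G E).KpA -
          mx30 c (N Γ G E).UM q (N Γ G E).Kl KM) := by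
  obtain ⟨n₁, hn₁, H⟩ := lkP30 h0 PF hK hθ hθ8
  refine ⟨n₁, hn₁, fun qF Q4 Kl a1 a2 a3 jl hj => ?_⟩
  obtain ⟨Qv, hQv, H⟩ := H qF Q4 Kl a1 a2 a3 jl hj
  refine ⟨Qv, hQv, ?_⟩
  intro kw kap N F Γ G mt τ0 E u κ q KM Q W e1 e2 e3 e4 e5 e6 Wh hq hQ hUB hLA
  subst e6
  exact H e1 e2 e3 e4 e5 (W.hT u) hq a2 hQ Wh hUB hLA W.reN'

end

end Pool.Agent.W_7d29a1_C1.Q49
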