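import Pool.Agent.W_7d29a1_C1.FrP83
import Pool.Agent.W_7d29a1_C1.FrbS26

/-!
MP_7d29a1_pr, [C1], SHELL, FRESH BALL: **FROM `MO26` (output of `freB26` for `M ∘ F`) TO `LN83`** (helper83). Base column `a₀` of the row `i`,
line of `κ` with `|a₀ - ln35 κ i| ≤ D₁ wd TF`; end cells `D b` = the integers within `r` of `t b`.
-/

set_option autoImplicit false

namespace Pool.Agent.W_7d29a1_C1.Fr47

open MeasureTheory Finset
open Pool.Agent.W_7d29a1_F Pool.Agent.W_7d29a1_h4g Pool.Agent.W_7d29a1_H Pool.Agent.W_7d29a1_HS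
open Pool.Agent.W_7d29a1_C1.H75 Pool.Agent.W_7d29a1_C1.U16 Pool.Agent.W_7d29a1_C1.FarK89
open Pool.Agent.W_7d29a1_C1.S83
open Pool.Agent.W_7d29a1_C1.B26
open Pool.Agent.W_7d29a1_C1.Basin76 (kW)
open Pool.Agent.W_7d29a1_C1.JnC35 (ln35)

noncomputable section

/-- The integers within `r` of `t`. -/
def ic83 (t : ℤ) (r : ℝ) : Finset ℤ := Icc ⌈(t : ℝ) - r⌉ ⌊(t : ℝ) + r⌋

theorem mem_ic83 {t y : ℤ} {r : ℝ} : y ∈ ic83 t r ↔ |(y : ℝ) - t| ≤ r := by
  unfold ic83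
  rw [mem_Icc, Int.ceil_le, Int.le_floor, abs_le]
  constructor <;> rintro ⟨h1, h2⟩ <;> constructor <;> linarith

variable {μ : Measure ℝ} {s c C : ℝ} {n₀ : ℕ} [IsProbabilityMeasure μ]

theorem ln35_add (κ : Pt) (i n : ℕ) : ln35 μ s κ (i + n) = ln35 μ s κ i + sl μ s * n := by
  unfold ln35
  push_cast
  ring

/-- **THE LANES AT ONE PLACE FROM THE BUFFER.** -/
theorem ln83_mo {η : Env} {κ : Pt} {i n T TF : ℕ} {a₀ : ℤ} {Cb : Bool → Finset ℤ} {u' t' : Bool → ℤ} {τ : Bool → ℝ}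
    {R r L Q1 A ell g G' be Qe u D₁ Λ : ℝ} {Pe : ℕ} (hc : 0 ≤ c) (hw1 : 1 ≤ wd μ s TF) (hL : 0 ≤ L) (hr : 0 ≤ r)
    (hM : MO26 (kW μ s η (i : ℤ) n) (fun x => lt26 (sl μ s) (wd μ s TF) 0 (x - a₀)) (fun x => lt26 (sl μ s) (wd μ s TF) n (x - a₀))
      (EE μ s TF) u' t' R r L Q1 A ell g G' be Pe Qe (3 * c / 4))
    (hra : η ∈ RowG (i : ℤ) a₀ (wd μ s TF) (u * EE μ s TF))
    (hrb : η ∈ RowG ((i + n : ℕ) : ℤ) (cp26 (sl μ s) a₀ n) (wd μ s TF) (u * EE μ s TF))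
    (ha : |(a₀ : ℝ) - ln35 μ s κ i| ≤ D₁ * wd μ s TF) (hC : ∀ b, ∀ x ∈ Cb b, |(x : ℝ) - u' b| ≤ R)
    (hCΛ : ∀ b, ∀ x ∈ Cb b, |(x : ℝ) - ln35 μ s κ i| ≤ Λ * wd μ s T) (ht : ∀ b, |(t' b : ℝ) - (ln35 μ s κ (i + n) + τ b)| ≤ 1)
    (hΛ : ∀ b, r + 1 + |τ b| ≤ Λ * wd μ s T) :
    LN83 μ s c η κ i n T TF Cb (fun b => ic83 (t' b) r) t' τ ell u (D₁ + 1) Λ be g G' Qe Pe A r := by
  have hw0 : 0 < wd μ s TF := by linarith
  have hE := EE_pos (μ := μ) (s := s) TF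
  have hln := ln35_add (μ := μ) (s := s) κ i n
  refine ⟨?_, fun b x hx => hM.mf.low b x (hC b x hx), fun b x hx y => hM.mf.up b x (hC b x hx) y,
    fun b x hx y hy => hM.mf.crs b x (hC b x hx) y (mem_ic83.1 hy), ?_, ?_, ?_, ?_, hCΛ, ?_, fun b y hy => mem_ic83.1 hy, ?_, ht⟩
  · exact (Real.one_le_exp (mul_nonneg hL hE.le)).trans hM.lo
  · refine ⟨a₀ + sl μ s * n, ?_, fun b x hx y h1 h2 => ?_⟩
    · have e : (a₀ : ℝ) + sl μ s * n - ln35 μ s κ (i + n) = (a₀ : ℝ) - ln35 μ s κ i := by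
        rw [hln]
        ring
      rw [e]
      linarith
    · have h3 := hM.mf.off b x (hC b x hx) y (fun j => by
        rcases j with _ | _
        · exact fun h => h1 (mem_ic83.2 h)
        · exact fun h => h2 (mem_ic83.2 h))
      have e : |lt26 (sl μ s) (wd μ s TF) n (y - a₀)| = |(y : ℝ) - (a₀ + sl μ s * n)| / wd μ s TF := by
        unfold lt26
        rw [abs_div, abs_of_pos hw0]
        congr 2
        push_cast
        ring
      rw [e] at h3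
      exact h3
  · refine ⟨a₀, by linarith, fun x y => ?_⟩
    have h3 := hM.pe x y
    have e1 : fq16 Pe (lt26 (sl μ s) (wd μ s TF) 0 (x - a₀)) = gr Pe (|(x : ℝ) - a₀| / wd μ s TF) := by
      unfold fq16 gr lt26
      rw [abs_div, abs_of_pos hw0]
      congr 5
      push_cast
      ring
    have e2 : |lt26 (sl μ s) (wd μ s TF) n (y - a₀) - lt26 (sl μ s) (wd μ s TF) 0 (x - a₀)| = |(y : ℝ) - x - sl μ s * n| / wd μ s TF := by
      unfold lt26
      rw [← sub_div, abs_div, abs_of_pos hw0]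
      congr 2
      push_cast
      ring
    simp only [e1, e2] at h3
    refine le_trans h3 (Real.exp_le_exp.2 (mul_le_mul_of_nonneg_right ?_ hE.le))
    have h4 : 0 ≤ |(y : ℝ) - x - sl μ s * n| / wd μ s TF := by positivity
    nlinarith
  · exact ⟨a₀, by linarith, hra⟩
  · refine ⟨cp26 (sl μ s) a₀ n, ?_, hrb⟩
    have e : ((cp26 (sl μ s) a₀ n : ℤ) : ℝ) - ln35 μ s κ (i + n) = ((a₀ : ℝ) - ln35 μ s κ i) + ((⌊sl μ s * n⌋ : ℝ) - sl μ s * n) := by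
      rw [hln]
      unfold cp26
      push_cast
      ring
    have h1 := Int.floor_le (sl μ s * n)
    have h2 := Int.lt_floor_add_one (sl μ s * n)
    have h3 : |(⌊sl μ s * n⌋ : ℝ) - sl μ s * n| ≤ 1 := by
      rw [abs_le]
      constructor <;> linarith
    rw [e]
    refine (abs_add_le _ _).trans ?_
    linarith
  · intro b y hy
    have h1 := mem_ic83.1 hy
    have e : (y : ℝ) - ln35 μ s κ (i + n) = ((y : ℝ) - t' b) + (((t' b : ℝ) - (ln35 μ s κ (i + n) + τ b)) + τ b) := by ring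
    rw [e]
    refine (abs_add_le _ _).trans ?_
    have h2 := abs_add_le ((t' b : ℝ) - (ln35 μ s κ (i + n) + τ b)) (τ b)
    have h3 := ht b
    have h4 := hΛ b
    linarith
  · intro b
    rw [mem_ic83, sub_self, abs_zero]
    exact hr

end

end Pool.Agent.W_7d29a1_C1.Fr47
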