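import Pool.Agent.W_7d29a1_C1.SepC2

/-!
MP_7d29a1_pr, attractor route [C1], SEP: **THE CONSTANTS EXIST.** (helper5; generated from SepC2)

`Ix.pos`, `Is.pos`: the order. `FB S i`: the filter of the records which are beyond thresholds at the stages before the spec stage `i`. `NeS S i`: the
spec stage `i` has outputs, eventually in the earlier constants. `neBot_FC`: if all the spec stages have outputs, the filter `FC S` is proper.
-/

set_option autoImplicit false

namespace Pool.Agent.W_7d29a1_C1.Cs2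

open Filter

noncomputable section

/-- The place of a stage with a threshold. -/
def Ix.pos : Ix → ℕ
  | .V1 => 0
  | .Uw => 1
  | .qF => 3
  | .jl0 => 4
  | .sgm => 6
  | .bS => 7
  | .rc => 8
  | .kc => 9
  | .j0 => 10
  | .R0 => 12
  | .n2 => 14
  | .kw => 15
  | .Re => 16
  | .Qe => 17
  | .R2 => 18
  | .Kl => 19
  | .r0 => 20
  | .qt => 21
  | .dl => 23
  | .K0 => 25
  | .LB => 27
  | .LA => 29
  | .N => 32
  | .al => 34
  | .U1n => 35
  | .R1 => 36
  | .Cr => 37
  | .Cd => 38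
  | .Cb => 39
  | .cp => 40
  | .C1 => 41
  | .gf => 42
  | .aF => 43
  | .kn => 44
  | .kb => 45
  | .rr => 46
  | .m3 => 47
  | .J1 => 48

/-- The place of a spec stage. -/
def Is.pos : Is → ℕ
  | .PF => 2
  | .jl => 5
  | .j => 11
  | .M => 13
  | .dM => 22
  | .U0 => 24
  | .Kp => 26
  | .pB => 28
  | .pA => 30
  | .YA => 31
  | .pL => 33

/-- **The records which are beyond the thresholds `g` at the stages before the spec stage `i`.** -/
structure Cst.AdB (S : Is → Cst → Prop) (g : Ix → Cst → ℝ) (i : Is) (C : Cst) : Prop where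
  pos : C.Pos
  spec : ∀ k : Is, k.pos < i.pos → S k (C.cutS k)
  ge : ∀ k : Ix, k.pos < i.pos → g k (C.cut k) ≤ C.val k

variable {S S' : Is → Cst → Prop}

theorem Cst.AdB.mono {g g' : Ix → Cst → ℝ} {i : Is} {C : Cst} (h : C.AdB S g i) (hg : ∀ k D, g' k D ≤ g k D) : C.AdB S g' i :=
  ⟨h.pos, h.spec, fun k hk => (hg k _).trans (h.ge k hk)⟩

/-- **THE FILTER BEFORE THE SPEC STAGE `i`.** -/
def FB (S : Is → Cst → Prop) (i : Is) : Filter Cst where
  sets := {A | ∃ g : Ix → Cst → ℝ, ∀ C : Cst, C.AdB S g i → C ∈ A}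
  univ_sets := ⟨fun _ _ => 0, fun _ _ => trivial⟩
  sets_of_superset := fun ⟨g, hg⟩ h => ⟨g, fun C hC => h (hg C hC)⟩
  inter_sets := fun ⟨f, hf⟩ ⟨g, hg⟩ => ⟨fun k C => max (f k C) (g k C), fun C hC =>
    ⟨hf C (hC.mono fun _ _ => le_max_left _ _), hg C (hC.mono fun _ _ => le_max_right _ _)⟩⟩

namespace FB

theorem ge (S : Is → Cst → Prop) {i : Is} {k : Ix} (hk : k.pos < i.pos) (f : Cst → ℝ) : ∀ᶠ C in FB S i, f (C.cut k) ≤ C.val k := by
  classical
  refine ⟨fun l C => if l = k then f C else 0, fun C hC => ?_⟩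
  have h := hC.ge k hk
  rwa [if_pos rfl] at h

/-- The earlier outputs satisfy their specification. -/
theorem spec (S : Is → Cst → Prop) (i : Is) : ∀ᶠ C in FB S i, ∀ k : Is, k.pos < i.pos → S k (C.cutS k) :=
  ⟨fun _ _ => 0, fun _ hC => hC.spec⟩

theorem pos (S : Is → Cst → Prop) (i : Is) : ∀ᶠ C in FB S i, C.Pos := ⟨fun _ _ => 0, fun _ hC => hC.pos⟩

theorem V1_ge (S : Is → Cst → Prop) {i : Is} (hk : Ix.pos .V1 < i.pos) (f : Cst → ℝ) :
    ∀ᶠ C in FB S i, f (C.cut .V1) ≤ C.V1 := ge S hk f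

theorem Uw_ge (S : Is → Cst → Prop) {i : Is} (hk : Ix.pos .Uw < i.pos) (f : Cst → ℝ) :
    ∀ᶠ C in FB S i, f (C.cut .Uw) ≤ C.Uw := ge S hk f

theorem qF_ge (S : Is → Cst → Prop) {i : Is} (hk : Ix.pos .qF < i.pos) (f : Cst → ℝ) :
    ∀ᶠ C in FB S i, f (C.cut .qF) ≤ C.qF := ge S hk f

theorem jl0_ge (S : Is → Cst → Prop) {i : Is} (hk : Ix.pos .jl0 < i.pos) (f : Cst → ℕ) :
    ∀ᶠ C in FB S i, f (C.cut .jl0) ≤ C.jl0 := by
  filter_upwards [ge S hk fun C => (f C : ℝ)] with C h1
  have h2 : ((f (C.cut .jl0) : ℕ) : ℝ) ≤ (C.jl0 : ℝ) := h1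
  exact_mod_cast h2

theorem sgm_le (S : Is → Cst → Prop) {i : Is} (hk : Ix.pos .sgm < i.pos) (f : Cst → ℝ) (hf : ∀ C, 0 < f C) :
    ∀ᶠ C in FB S i, 0 < C.sgm ∧ C.sgm ≤ f (C.cut .sgm) := by
  filter_upwards [ge S hk fun C => (f C)⁻¹, pos S i] with C h1 h2
  have h3 : (f (C.cut .sgm))⁻¹ ≤ C.sgm⁻¹ := h1
  exact ⟨h2.sgm, (inv_le_inv₀ (hf _) h2.sgm).1 h3⟩

theorem bS_ge (S : Is → Cst → Prop) {i : Is} (hk : Ix.pos .bS < i.pos) (f : Cst → ℝ) :
    ∀ᶠ C in FB S i, f (C.cut .bS) ≤ C.bS := ge S hk f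

theorem rc_ge (S : Is → Cst → Prop) {i : Is} (hk : Ix.pos .rc < i.pos) (f : Cst → ℝ) :
    ∀ᶠ C in FB S i, f (C.cut .rc) ≤ C.rc := ge S hk f

theorem kc_ge (S : Is → Cst → Prop) {i : Is} (hk : Ix.pos .kc < i.pos) (f : Cst → ℝ) :
    ∀ᶠ C in FB S i, f (C.cut .kc) ≤ C.kc := ge S hk f

theorem j0_ge (S : Is → Cst → Prop) {i : Is} (hk : Ix.pos .j0 < i.pos) (f : Cst → ℕ) :
    ∀ᶠ C in FB S i, f (C.cut .j0) ≤ C.j0 := by
  filter_upwards [ge S hk fun C => (f C : ℝ)] with C h1
  have h2 : ((f (C.cut .j0) : ℕ) : ℝ) ≤ (C.j0 : ℝ) := h1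
  exact_mod_cast h2

theorem R0_ge (S : Is → Cst → Prop) {i : Is} (hk : Ix.pos .R0 < i.pos) (f : Cst → ℝ) :
    ∀ᶠ C in FB S i, f (C.cut .R0) ≤ C.R0 := ge S hk f

theorem n2_ge (S : Is → Cst → Prop) {i : Is} (hk : Ix.pos .n2 < i.pos) (f : Cst → ℕ) :
    ∀ᶠ C in FB S i, f (C.cut .n2) ≤ C.n2 := by
  filter_upwards [ge S hk fun C => (f C : ℝ)] with C h1
  have h2 : ((f (C.cut .n2) : ℕ) : ℝ) ≤ (C.n2 : ℝ) := h1
  exact_mod_cast h2

theorem kw_ge (S : Is → Cst → Prop) {i : Is} (hk : Ix.pos .kw < i.pos) (f : Cst → ℝ) :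
    ∀ᶠ C in FB S i, f (C.cut .kw) ≤ C.kw := ge S hk f

theorem Re_ge (S : Is → Cst → Prop) {i : Is} (hk : Ix.pos .Re < i.pos) (f : Cst → ℝ) :
    ∀ᶠ C in FB S i, f (C.cut .Re) ≤ C.Re := ge S hk f

theorem Qe_ge (S : Is → Cst → Prop) {i : Is} (hk : Ix.pos .Qe < i.pos) (f : Cst → ℝ) :
    ∀ᶠ C in FB S i, f (C.cut .Qe) ≤ C.Qe := ge S hk f

theorem R2_ge (S : Is → Cst → Prop) {i : Is} (hk : Ix.pos .R2 < i.pos) (f : Cst → ℝ) :
    ∀ᶠ C in FB S i, f (C.cut .R2) ≤ C.R2 := ge S hk f

theorem Kl_ge (S : Is → Cst → Prop) {i : Is} (hk : Ix.pos .Kl < i.pos) (f : Cst → ℝ) :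
    ∀ᶠ C in FB S i, f (C.cut .Kl) ≤ C.Kl := ge S hk f

theorem r0_ge (S : Is → Cst → Prop) {i : Is} (hk : Ix.pos .r0 < i.pos) (f : Cst → ℝ) :
    ∀ᶠ C in FB S i, f (C.cut .r0) ≤ C.r0 := ge S hk f

theorem qt_ge (S : Is → Cst → Prop) {i : Is} (hk : Ix.pos .qt < i.pos) (f : Cst → ℝ) :
    ∀ᶠ C in FB S i, f (C.cut .qt) ≤ C.qt := ge S hk f

theorem dl_le (S : Is → Cst → Prop) {i : Is} (hk : Ix.pos .dl < i.pos) (f : Cst → ℝ) (hf : ∀ C, 0 < f C) :
    ∀ᶠ C in FB S i, 0 < C.dl ∧ C.dl ≤ f (C.cut .dl) := by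
  filter_upwards [ge S hk fun C => (f C)⁻¹, pos S i] with C h1 h2
  have h3 : (f (C.cut .dl))⁻¹ ≤ C.dl⁻¹ := h1
  exact ⟨h2.dl, (inv_le_inv₀ (hf _) h2.dl).1 h3⟩

theorem K0_ge (S : Is → Cst → Prop) {i : Is} (hk : Ix.pos .K0 < i.pos) (f : Cst → ℝ) :
    ∀ᶠ C in FB S i, f (C.cut .K0) ≤ C.K0 := ge S hk f

theorem LB_ge (S : Is → Cst → Prop) {i : Is} (hk : Ix.pos .LB < i.pos) (f : Cst → ℝ) :
    ∀ᶠ C in FB S i, f (C.cut .LB) ≤ C.LB := ge S hk f

theorem LA_ge (S : Is → Cst → Prop) {i : Is} (hk : Ix.pos .LA < i.pos) (f : Cst → ℝ) :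
    ∀ᶠ C in FB S i, f (C.cut .LA) ≤ C.LA := ge S hk f

theorem N_ge (S : Is → Cst → Prop) {i : Is} (hk : Ix.pos .N < i.pos) (f : Cst → ℕ) :
    ∀ᶠ C in FB S i, f (C.cut .N) ≤ C.N := by
  filter_upwards [ge S hk fun C => (f C : ℝ)] with C h1
  have h2 : ((f (C.cut .N) : ℕ) : ℝ) ≤ (C.N : ℝ) := h1
  exact_mod_cast h2

theorem al_ge (S : Is → Cst → Prop) {i : Is} (hk : Ix.pos .al < i.pos) (f : Cst → ℝ) :
    ∀ᶠ C in FB S i, f (C.cut .al) ≤ C.al := ge S hk f

theorem U1n_ge (S : Is → Cst → Prop) {i : Is} (hk : Ix.pos .U1n < i.pos) (f : Cst → ℝ) :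
    ∀ᶠ C in FB S i, f (C.cut .U1n) ≤ C.U1n := ge S hk f

theorem R1_ge (S : Is → Cst → Prop) {i : Is} (hk : Ix.pos .R1 < i.pos) (f : Cst → ℝ) :
    ∀ᶠ C in FB S i, f (C.cut .R1) ≤ C.R1 := ge S hk f

theorem Cr_ge (S : Is → Cst → Prop) {i : Is} (hk : Ix.pos .Cr < i.pos) (f : Cst → ℝ) :
    ∀ᶠ C in FB S i, f (C.cut .Cr) ≤ C.Cr := ge S hk f

theorem Cd_ge (S : Is → Cst → Prop) {i : Is} (hk : Ix.pos .Cd < i.pos) (f : Cst → ℝ) :
    ∀ᶠ C in FB S i, f (C.cut .Cd) ≤ C.Cd := ge S hk f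

theorem Cb_ge (S : Is → Cst → Prop) {i : Is} (hk : Ix.pos .Cb < i.pos) (f : Cst → ℝ) :
    ∀ᶠ C in FB S i, f (C.cut .Cb) ≤ C.Cb := ge S hk f

theorem cp_le (S : Is → Cst → Prop) {i : Is} (hk : Ix.pos .cp < i.pos) (f : Cst → ℝ) (hf : ∀ C, 0 < f C) :
    ∀ᶠ C in FB S i, 0 < C.cp ∧ C.cp ≤ f (C.cut .cp) := by
  filter_upwards [ge S hk fun C => (f C)⁻¹, pos S i] with C h1 h2
  have h3 : (f (C.cut .cp))⁻¹ ≤ C.cp⁻¹ := h1
  exact ⟨h2.cp, (inv_le_inv₀ (hf _) h2.cp).1 h3⟩

theorem C1_ge (S : Is → Cst → Prop) {i : Is} (hk : Ix.pos .C1 < i.pos) (f : Cst → ℝ) :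
    ∀ᶠ C in FB S i, f (C.cut .C1) ≤ C.C1 := ge S hk f

theorem gf_ge (S : Is → Cst → Prop) {i : Is} (hk : Ix.pos .gf < i.pos) (f : Cst → ℝ) :
    ∀ᶠ C in FB S i, f (C.cut .gf) ≤ C.gf := ge S hk f

theorem aF_ge (S : Is → Cst → Prop) {i : Is} (hk : Ix.pos .aF < i.pos) (f : Cst → ℝ) :
    ∀ᶠ C in FB S i, f (C.cut .aF) ≤ C.aF := ge S hk f

theorem kn_ge (S : Is → Cst → Prop) {i : Is} (hk : Ix.pos .kn < i.pos) (f : Cst → ℝ) :
    ∀ᶠ C in FB S i, f (C.cut .kn) ≤ C.kn := ge S hk f

theorem kb_ge (S : Is → Cst → Prop) {i : Is} (hk : Ix.pos .kb < i.pos) (f : Cst → ℝ) :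
    ∀ᶠ C in FB S i, f (C.cut .kb) ≤ C.kb := ge S hk f

theorem rr_ge (S : Is → Cst → Prop) {i : Is} (hk : Ix.pos .rr < i.pos) (f : Cst → ℕ) :
    ∀ᶠ C in FB S i, f (C.cut .rr) ≤ C.rr := by
  filter_upwards [ge S hk fun C => (f C : ℝ)] with C h1
  have h2 : ((f (C.cut .rr) : ℕ) : ℝ) ≤ (C.rr : ℝ) := h1
  exact_mod_cast h2

theorem m3_ge (S : Is → Cst → Prop) {i : Is} (hk : Ix.pos .m3 < i.pos) (f : Cst → ℕ) :
    ∀ᶠ C in FB S i, f (C.cut .m3) ≤ C.m3 := by
  filter_upwards [ge S hk fun C => (f C : ℝ)] with C h1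
  have h2 : ((f (C.cut .m3) : ℕ) : ℝ) ≤ (C.m3 : ℝ) := h1
  exact_mod_cast h2

theorem J1_ge (S : Is → Cst → Prop) {i : Is} (hk : Ix.pos .J1 < i.pos) (f : Cst → ℕ) :
    ∀ᶠ C in FB S i, f (C.cut .J1) ≤ C.J1 := by
  filter_upwards [ge S hk fun C => (f C : ℝ)] with C h1
  have h2 : ((f (C.cut .J1) : ℕ) : ℝ) ≤ (C.J1 : ℝ) := h1
  exact_mod_cast h2

end FB

/-- **The spec stage `i` has outputs.** -/
def NeS (S : Is → Cst → Prop) : Is → Prop
  | .PF => ∀ᶠ C in FB S .PF, ∃ PF : ℕ,
      S .PF (Cst.cutS {C with PF := PF} .PF)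
  | .jl => ∀ᶠ C in FB S .jl, ∃ jl : ℕ,
      S .jl (Cst.cutS {C with jl := jl} .jl)
  | .j => ∀ᶠ C in FB S .j, ∃ (j K1h : ℕ) (Uc Qc U1g Q1g : ℝ),
      S .j (Cst.cutS {C with j := j, K1h := K1h, Uc := Uc, Qc := Qc, U1g := U1g, Q1g := Q1g} .j)
  | .M => ∀ᶠ C in FB S .M, ∃ (M K2h : ℕ) (Ug Qg Ag Bg Yg pG : ℝ),
      S .M (Cst.cutS {C with M := M, K2h := K2h, Ug := Ug, Qg := Qg, Ag := Ag, Bg := Bg, Yg := Yg, pG := pG} .M)
  | .dM => ∀ᶠ C in FB S .dM, ∃ dM cM qM UM : ℝ,
      S .dM (Cst.cutS {C with dM := dM, cM := cM, qM := qM, UM := UM} .dM)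
  | .U0 => ∀ᶠ C in FB S .U0, ∃ U0 : ℝ,
      S .U0 (Cst.cutS {C with U0 := U0} .U0)
  | .Kp => ∀ᶠ C in FB S .Kp, ∃ Kp KM : ℝ,
      S .Kp (Cst.cutS {C with Kp := Kp, KM := KM} .Kp)
  | .pB => ∀ᶠ C in FB S .pB, ∃ pB UB : ℝ,
      S .pB (Cst.cutS {C with pB := pB, UB := UB} .pB)
  | .pA => ∀ᶠ C in FB S .pA, ∃ pA UA : ℝ,
      S .pA (Cst.cutS {C with pA := pA, UA := UA} .pA)
  | .YA => ∀ᶠ C in FB S .YA, ∃ (YA YB Z : ℝ) (N0 : ℕ),
      S .YA (Cst.cutS {C with YA := YA, YB := YB, Z := Z, N0 := N0} .YA)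
  | .pL => ∀ᶠ C in FB S .pL, ∃ pL : ℝ,
      S .pL (Cst.cutS {C with pL := pL} .pL)

/-! ### The segments between two spec stages -/

variable {F : Ix → Cst → ℝ}

theorem exI5 (a : ℝ) : ∃ x : ℝ, 0 < x ∧ a ≤ x⁻¹ := by
  refine ⟨(max a 1)⁻¹, inv_pos.2 (lt_of_lt_of_le one_pos (le_max_right _ _)), ?_⟩
  rw [inv_inv]
  exact le_max_left _ _

theorem seg_start_PF {C : Cst} (h : C.Pos) :
    ∃ C' : Cst, C'.AdB S F .PF := by
  obtain ⟨V1, h_V1⟩ : ∃ x : ℝ, F .V1 (Cst.cut C .V1) ≤ x := ⟨_, le_rfl⟩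
  obtain ⟨Uw, h_Uw⟩ : ∃ x : ℝ, F .Uw (Cst.cut {C with V1 := V1} .Uw) ≤ x := ⟨_, le_rfl⟩
  refine ⟨{C with V1 := V1, Uw := Uw},
    ⟨h.sgm, h.dl, h.cp⟩, fun k hk => ?_, fun k hk => ?_⟩
  · cases k
    · exact absurd hk (by decide)
    · exact absurd hk (by decide)
    · exact absurd hk (by decide)
    · exact absurd hk (by decide)
    · exact absurd hk (by decide)
    · exact absurd hk (by decide)
    · exact absurd hk (by decide)
    · exact absurd hk (by decide)
    · exact absurd hk (by decide)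
    · exact absurd hk (by decide)
    · exact absurd hk (by decide)
  · cases k
    · exact h_V1
    · exact h_Uw
    · exact absurd hk (by decide)
    · exact absurd hk (by decide)
    · exact absurd hk (by decide)
    · exact absurd hk (by decide)
    · exact absurd hk (by decide)
    · exact absurd hk (by decide)
    · exact absurd hk (by decide)
    · exact absurd hk (by decide)
    · exact absurd hk (by decide)
    · exact absurd hk (by decide)
    · exact absurd hk (by decide)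
    · exact absurd hk (by decide)
    · exact absurd hk (by decide)
    · exact absurd hk (by decide)
    · exact absurd hk (by decide)
    · exact absurd hk (by decide)
    · exact absurd hk (by decide)
    · exact absurd hk (by decide)
    · exact absurd hk (by decide)
    · exact absurd hk (by decide)
    · exact absurd hk (by decide)
    · exact absurd hk (by decide)
    · exact absurd hk (by decide)
    · exact absurd hk (by decide)
    · exact absurd hk (by decide)
    · exact absurd hk (by decide)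
    · exact absurd hk (by decide)
    · exact absurd hk (by decide)
    · exact absurd hk (by decide)
    · exact absurd hk (by decide)
    · exact absurd hk (by decide)
    · exact absurd hk (by decide)
    · exact absurd hk (by decide)
    · exact absurd hk (by decide)
    · exact absurd hk (by decide)
    · exact absurd hk (by decide)

theorem seg_PF_jl {C : Cst} (h : C.AdB S F .PF) (PF : ℕ)
    (ho : S .PF (Cst.cutS {C with PF := PF} .PF)) :
    ∃ C' : Cst, C'.AdB S F .jl := by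
  obtain ⟨qF, h_qF⟩ : ∃ x : ℝ, F .qF (Cst.cut {C with PF := PF} .qF) ≤ x := ⟨_, le_rfl⟩
  obtain ⟨jl0, h_jl0⟩ : ∃ x : ℕ, F .jl0 (Cst.cut {C with PF := PF, qF := qF} .jl0) ≤ (x : ℝ) := exists_nat_ge _
  refine ⟨{C with PF := PF, qF := qF, jl0 := jl0},
    ⟨h.pos.sgm, h.pos.dl, h.pos.cp⟩, fun k hk => ?_, fun k hk => ?_⟩
  · cases k
    · exact ho
    · exact absurd hk (by decide)
    · exact absurd hk (by decide)
    · exact absurd hk (by decide)
    · exact absurd hk (by decide)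
    · exact absurd hk (by decide)
    · exact absurd hk (by decide)
    · exact absurd hk (by decide)
    · exact absurd hk (by decide)
    · exact absurd hk (by decide)
    · exact absurd hk (by decide)
  · cases k
    · exact h.ge .V1 (by decide)
    · exact h.ge .Uw (by decide)
    · exact h_qF
    · exact h_jl0
    · exact absurd hk (by decide)
    · exact absurd hk (by decide)
    · exact absurd hk (by decide)
    · exact absurd hk (by decide)
    · exact absurd hk (by decide)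
    · exact absurd hk (by decide)
    · exact absurd hk (by decide)
    · exact absurd hk (by decide)
    · exact absurd hk (by decide)
    · exact absurd hk (by decide)
    · exact absurd hk (by decide)
    · exact absurd hk (by decide)
    · exact absurd hk (by decide)
    · exact absurd hk (by decide)
    · exact absurd hk (by decide)
    · exact absurd hk (by decide)
    · exact absurd hk (by decide)
    · exact absurd hk (by decide)
    · exact absurd hk (by decide)
    · exact absurd hk (by decide)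
    · exact absurd hk (by decide)
    · exact absurd hk (by decide)
    · exact absurd hk (by decide)
    · exact absurd hk (by decide)
    · exact absurd hk (by decide)
    · exact absurd hk (by decide)
    · exact absurd hk (by decide)
    · exact absurd hk (by decide)
    · exact absurd hk (by decide)
    · exact absurd hk (by decide)
    · exact absurd hk (by decide)
    · exact absurd hk (by decide)
    · exact absurd hk (by decide)
    · exact absurd hk (by decide)

theorem seg_jl_j {C : Cst} (h : C.AdB S F .jl) (jl : ℕ)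
    (ho : S .jl (Cst.cutS {C with jl := jl} .jl)) :
    ∃ C' : Cst, C'.AdB S F .j := by
  obtain ⟨sgm, p_sgm, h_sgm⟩ : ∃ x : ℝ, 0 < x ∧ F .sgm (Cst.cut {C with jl := jl} .sgm) ≤ x⁻¹ := exI5 _
  obtain ⟨bS, h_bS⟩ : ∃ x : ℝ, F .bS (Cst.cut {C with jl := jl, sgm := sgm} .bS) ≤ x := ⟨_, le_rfl⟩
  obtain ⟨rc, h_rc⟩ : ∃ x : ℝ, F .rc (Cst.cut {C with jl := jl, sgm := sgm, bS := bS} .rc) ≤ x := ⟨_, le_rfl⟩
  obtain ⟨kc, h_kc⟩ : ∃ x : ℝ, F .kc (Cst.cut {C with jl := jl, sgm := sgm, bS := bS, rc := rc} .kc) ≤ x := ⟨_, le_rfl⟩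
  obtain ⟨j0, h_j0⟩ : ∃ x : ℕ, F .j0 (Cst.cut {C with jl := jl, sgm := sgm, bS := bS, rc := rc, kc := kc} .j0) ≤ (x : ℝ) := exists_nat_ge _
  refine ⟨{C with jl := jl, sgm := sgm, bS := bS, rc := rc, kc := kc, j0 := j0},
    ⟨p_sgm, h.pos.dl, h.pos.cp⟩, fun k hk => ?_, fun k hk => ?_⟩
  · cases k
    · exact h.spec .PF (by decide)
    · exact ho
    · exact absurd hk (by decide)
    · exact absurd hk (by decide)
    · exact absurd hk (by decide)
    · exact absurd hk (by decide)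
    · exact absurd hk (by decide)
    · exact absurd hk (by decide)
    · exact absurd hk (by decide)
    · exact absurd hk (by decide)
    · exact absurd hk (by decide)
  · cases k
    · exact h.ge .V1 (by decide)
    · exact h.ge .Uw (by decide)
    · exact h.ge .qF (by decide)
    · exact h.ge .jl0 (by decide)
    · exact h_sgm
    · exact h_bS
    · exact h_rc
    · exact h_kc
    · exact h_j0
    · exact absurd hk (by decide)
    · exact absurd hk (by decide)
    · exact absurd hk (by decide)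
    · exact absurd hk (by decide)
    · exact absurd hk (by decide)
    · exact absurd hk (by decide)
    · exact absurd hk (by decide)
    · exact absurd hk (by decide)
    · exact absurd hk (by decide)
    · exact absurd hk (by decide)
    · exact absurd hk (by decide)
    · exact absurd hk (by decide)
    · exact absurd hk (by decide)
    · exact absurd hk (by decide)
    · exact absurd hk (by decide)
    · exact absurd hk (by decide)
    · exact absurd hk (by decide)
    · exact absurd hk (by decide)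
    · exact absurd hk (by decide)
    · exact absurd hk (by decide)
    · exact absurd hk (by decide)
    · exact absurd hk (by decide)
    · exact absurd hk (by decide)
    · exact absurd hk (by decide)
    · exact absurd hk (by decide)
    · exact absurd hk (by decide)
    · exact absurd hk (by decide)
    · exact absurd hk (by decide)
    · exact absurd hk (by decide)

theorem seg_j_M {C : Cst} (h : C.AdB S F .j) (j : ℕ) (K1h : ℕ) (Uc : ℝ) (Qc : ℝ) (U1g : ℝ) (Q1g : ℝ)
    (ho : S .j (Cst.cutS {C with j := j, K1h := K1h, Uc := Uc, Qc := Qc, U1g := U1g, Q1g := Q1g} .j)) :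
    ∃ C' : Cst, C'.AdB S F .M := by
  obtain ⟨R0, h_R0⟩ : ∃ x : ℝ, F .R0 (Cst.cut {C with j := j, K1h := K1h, Uc := Uc, Qc := Qc, U1g := U1g, Q1g := Q1g} .R0) ≤ x := ⟨_, le_rfl⟩
  refine ⟨{C with j := j, K1h := K1h, Uc := Uc, Qc := Qc, U1g := U1g, Q1g := Q1g, R0 := R0},
    ⟨h.pos.sgm, h.pos.dl, h.pos.cp⟩, fun k hk => ?_, fun k hk => ?_⟩
  · cases k
    · exact h.spec .PF (by decide)
    · exact h.spec .jl (by decide)
    · exact ho
    · exact absurd hk (by decide)
    · exact absurd hk (by decide)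
    · exact absurd hk (by decide)
    · exact absurd hk (by decide)
    · exact absurd hk (by decide)
    · exact absurd hk (by decide)
    · exact absurd hk (by decide)
    · exact absurd hk (by decide)
  · cases k
    · exact h.ge .V1 (by decide)
    · exact h.ge .Uw (by decide)
    · exact h.ge .qF (by decide)
    · exact h.ge .jl0 (by decide)
    · exact h.ge .sgm (by decide)
    · exact h.ge .bS (by decide)
    · exact h.ge .rc (by decide)
    · exact h.ge .kc (by decide)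
    · exact h.ge .j0 (by decide)
    · exact h_R0
    · exact absurd hk (by decide)
    · exact absurd hk (by decide)
    · exact absurd hk (by decide)
    · exact absurd hk (by decide)
    · exact absurd hk (by decide)
    · exact absurd hk (by decide)
    · exact absurd hk (by decide)
    · exact absurd hk (by decide)
    · exact absurd hk (by decide)
    · exact absurd hk (by decide)
    · exact absurd hk (by decide)
    · exact absurd hk (by decide)
    · exact absurd hk (by decide)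
    · exact absurd hk (by decide)
    · exact absurd hk (by decide)
    · exact absurd hk (by decide)
    · exact absurd hk (by decide)
    · exact absurd hk (by decide)
    · exact absurd hk (by decide)
    · exact absurd hk (by decide)
    · exact absurd hk (by decide)
    · exact absurd hk (by decide)
    · exact absurd hk (by decide)
    · exact absurd hk (by decide)
    · exact absurd hk (by decide)
    · exact absurd hk (by decide)
    · exact absurd hk (by decide)
    · exact absurd hk (by decide)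

theorem seg_M_dM {C : Cst} (h : C.AdB S F .M) (M : ℕ) (K2h : ℕ) (Ug : ℝ) (Qg : ℝ) (Ag : ℝ) (Bg : ℝ) (Yg : ℝ) (pG : ℝ)
    (ho : S .M (Cst.cutS {C with M := M, K2h := K2h, Ug := Ug, Qg := Qg, Ag := Ag, Bg := Bg, Yg := Yg, pG := pG} .M)) :
    ∃ C' : Cst, C'.AdB S F .dM := by
  obtain ⟨n2, h_n2⟩ : ∃ x : ℕ, F .n2 (Cst.cut {C with M := M, K2h := K2h, Ug := Ug, Qg := Qg, Ag := Ag, Bg := Bg, Yg := Yg, pG := pG} .n2) ≤ (x : ℝ) := exists_nat_ge _
  obtain ⟨kw, h_kw⟩ : ∃ x : ℝ, F .kw (Cst.cut {C with M := M, K2h := K2h, Ug := Ug, Qg := Qg, Ag := Ag, Bg := Bg, Yg := Yg, pG := pG, n2 := n2} .kw) ≤ x := ⟨_, le_rfl⟩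
  obtain ⟨Re, h_Re⟩ : ∃ x : ℝ, F .Re (Cst.cut {C with M := M, K2h := K2h, Ug := Ug, Qg := Qg, Ag := Ag, Bg := Bg, Yg := Yg, pG := pG, n2 := n2, kw := kw} .Re) ≤ x := ⟨_, le_rfl⟩
  obtain ⟨Qe, h_Qe⟩ : ∃ x : ℝ, F .Qe (Cst.cut {C with M := M, K2h := K2h, Ug := Ug, Qg := Qg, Ag := Ag, Bg := Bg, Yg := Yg, pG := pG, n2 := n2, kw := kw, Re := Re} .Qe) ≤ x := ⟨_, le_rfl⟩
  obtain ⟨R2, h_R2⟩ : ∃ x : ℝ, F .R2 (Cst.cut {C with M := M, K2h := K2h, Ug := Ug, Qg := Qg, Ag := Ag, Bg := Bg, Yg := Yg, pG := pG, n2 := n2, kw := kw, Re := Re, Qe := Qe} .R2) ≤ x := ⟨_, le_rfl⟩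
  obtain ⟨Kl, h_Kl⟩ : ∃ x : ℝ, F .Kl (Cst.cut {C with M := M, K2h := K2h, Ug := Ug, Qg := Qg, Ag := Ag, Bg := Bg, Yg := Yg, pG := pG, n2 := n2, kw := kw, Re := Re, Qe := Qe, R2 := R2} .Kl) ≤ x := ⟨_, le_rfl⟩
  obtain ⟨r0, h_r0⟩ : ∃ x : ℝ, F .r0 (Cst.cut {C with M := M, K2h := K2h, Ug := Ug, Qg := Qg, Ag := Ag, Bg := Bg, Yg := Yg, pG := pG, n2 := n2, kw := kw, Re := Re, Qe := Qe, R2 := R2, Kl := Kl} .r0) ≤ x := ⟨_, le_rfl⟩
  obtain ⟨qt, h_qt⟩ : ∃ x : ℝ, F .qt (Cst.cut {C with M := M, K2h := K2h, Ug := Ug, Qg := Qg, Ag := Ag, Bg := Bg, Yg := Yg, pG := pG, n2 := n2, kw := kw, Re := Re, Qe := Qe, R2 := R2, Kl := Kl, r0 := r0} .qt) ≤ x := ⟨_, le_rfl⟩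
  refine ⟨{C with M := M, K2h := K2h, Ug := Ug, Qg := Qg, Ag := Ag, Bg := Bg, Yg := Yg, pG := pG, n2 := n2, kw := kw, Re := Re, Qe := Qe, R2 := R2, Kl := Kl, r0 := r0, qt := qt},
    ⟨h.pos.sgm, h.pos.dl, h.pos.cp⟩, fun k hk => ?_, fun k hk => ?_⟩
  · cases k
    · exact h.spec .PF (by decide)
    · exact h.spec .jl (by decide)
    · exact h.spec .j (by decide)
    · exact ho
    · exact absurd hk (by decide)
    · exact absurd hk (by decide)
    · exact absurd hk (by decide)
    · exact absurd hk (by decide)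
    · exact absurd hk (by decide)
    · exact absurd hk (by decide)
    · exact absurd hk (by decide)
  · cases k
    · exact h.ge .V1 (by decide)
    · exact h.ge .Uw (by decide)
    · exact h.ge .qF (by decide)
    · exact h.ge .jl0 (by decide)
    · exact h.ge .sgm (by decide)
    · exact h.ge .bS (by decide)
    · exact h.ge .rc (by decide)
    · exact h.ge .kc (by decide)
    · exact h.ge .j0 (by decide)
    · exact h.ge .R0 (by decide)
    · exact h_n2
    · exact h_kw
    · exact h_Re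
    · exact h_Qe
    · exact h_R2
    · exact h_Kl
    · exact h_r0
    · exact h_qt
    · exact absurd hk (by decide)
    · exact absurd hk (by decide)
    · exact absurd hk (by decide)
    · exact absurd hk (by decide)
    · exact absurd hk (by decide)
    · exact absurd hk (by decide)
    · exact absurd hk (by decide)
    · exact absurd hk (by decide)
    · exact absurd hk (by decide)
    · exact absurd hk (by decide)
    · exact absurd hk (by decide)
    · exact absurd hk (by decide)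
    · exact absurd hk (by decide)
    · exact absurd hk (by decide)
    · exact absurd hk (by decide)
    · exact absurd hk (by decide)
    · exact absurd hk (by decide)
    · exact absurd hk (by decide)
    · exact absurd hk (by decide)
    · exact absurd hk (by decide)

theorem seg_dM_U0 {C : Cst} (h : C.AdB S F .dM) (dM : ℝ) (cM : ℝ) (qM : ℝ) (UM : ℝ)
    (ho : S .dM (Cst.cutS {C with dM := dM, cM := cM, qM := qM, UM := UM} .dM)) :
    ∃ C' : Cst, C'.AdB S F .U0 := by
  obtain ⟨dl, p_dl, h_dl⟩ : ∃ x : ℝ, 0 < x ∧ F .dl (Cst.cut {C with dM := dM, cM := cM, qM := qM, UM := UM} .dl) ≤ x⁻¹ := exI5 _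
  refine ⟨{C with dM := dM, cM := cM, qM := qM, UM := UM, dl := dl},
    ⟨h.pos.sgm, p_dl, h.pos.cp⟩, fun k hk => ?_, fun k hk => ?_⟩
  · cases k
    · exact h.spec .PF (by decide)
    · exact h.spec .jl (by decide)
    · exact h.spec .j (by decide)
    · exact h.spec .M (by decide)
    · exact ho
    · exact absurd hk (by decide)
    · exact absurd hk (by decide)
    · exact absurd hk (by decide)
    · exact absurd hk (by decide)
    · exact absurd hk (by decide)
    · exact absurd hk (by decide)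
  · cases k
    · exact h.ge .V1 (by decide)
    · exact h.ge .Uw (by decide)
    · exact h.ge .qF (by decide)
    · exact h.ge .jl0 (by decide)
    · exact h.ge .sgm (by decide)
    · exact h.ge .bS (by decide)
    · exact h.ge .rc (by decide)
    · exact h.ge .kc (by decide)
    · exact h.ge .j0 (by decide)
    · exact h.ge .R0 (by decide)
    · exact h.ge .n2 (by decide)
    · exact h.ge .kw (by decide)
    · exact h.ge .Re (by decide)
    · exact h.ge .Qe (by decide)
    · exact h.ge .R2 (by decide)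
    · exact h.ge .Kl (by decide)
    · exact h.ge .r0 (by decide)
    · exact h.ge .qt (by decide)
    · exact h_dl
    · exact absurd hk (by decide)
    · exact absurd hk (by decide)
    · exact absurd hk (by decide)
    · exact absurd hk (by decide)
    · exact absurd hk (by decide)
    · exact absurd hk (by decide)
    · exact absurd hk (by decide)
    · exact absurd hk (by decide)
    · exact absurd hk (by decide)
    · exact absurd hk (by decide)
    · exact absurd hk (by decide)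
    · exact absurd hk (by decide)
    · exact absurd hk (by decide)
    · exact absurd hk (by decide)
    · exact absurd hk (by decide)
    · exact absurd hk (by decide)
    · exact absurd hk (by decide)
    · exact absurd hk (by decide)
    · exact absurd hk (by decide)

theorem seg_U0_Kp {C : Cst} (h : C.AdB S F .U0) (U0 : ℝ)
    (ho : S .U0 (Cst.cutS {C with U0 := U0} .U0)) :
    ∃ C' : Cst, C'.AdB S F .Kp := by
  obtain ⟨K0, h_K0⟩ : ∃ x : ℝ, F .K0 (Cst.cut {C with U0 := U0} .K0) ≤ x := ⟨_, le_rfl⟩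
  refine ⟨{C with U0 := U0, K0 := K0},
    ⟨h.pos.sgm, h.pos.dl, h.pos.cp⟩, fun k hk => ?_, fun k hk => ?_⟩
  · cases k
    · exact h.spec .PF (by decide)
    · exact h.spec .jl (by decide)
    · exact h.spec .j (by decide)
    · exact h.spec .M (by decide)
    · exact h.spec .dM (by decide)
    · exact ho
    · exact absurd hk (by decide)
    · exact absurd hk (by decide)
    · exact absurd hk (by decide)
    · exact absurd hk (by decide)
    · exact absurd hk (by decide)
  · cases k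
    · exact h.ge .V1 (by decide)
    · exact h.ge .Uw (by decide)
    · exact h.ge .qF (by decide)
    · exact h.ge .jl0 (by decide)
    · exact h.ge .sgm (by decide)
    · exact h.ge .bS (by decide)
    · exact h.ge .rc (by decide)
    · exact h.ge .kc (by decide)
    · exact h.ge .j0 (by decide)
    · exact h.ge .R0 (by decide)
    · exact h.ge .n2 (by decide)
    · exact h.ge .kw (by decide)
    · exact h.ge .Re (by decide)
    · exact h.ge .Qe (by decide)
    · exact h.ge .R2 (by decide)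
    · exact h.ge .Kl (by decide)
    · exact h.ge .r0 (by decide)
    · exact h.ge .qt (by decide)
    · exact h.ge .dl (by decide)
    · exact h_K0
    · exact absurd hk (by decide)
    · exact absurd hk (by decide)
    · exact absurd hk (by decide)
    · exact absurd hk (by decide)
    · exact absurd hk (by decide)
    · exact absurd hk (by decide)
    · exact absurd hk (by decide)
    · exact absurd hk (by decide)
    · exact absurd hk (by decide)
    · exact absurd hk (by decide)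
    · exact absurd hk (by decide)
    · exact absurd hk (by decide)
    · exact absurd hk (by decide)
    · exact absurd hk (by decide)
    · exact absurd hk (by decide)
    · exact absurd hk (by decide)
    · exact absurd hk (by decide)
    · exact absurd hk (by decide)

theorem seg_Kp_pB {C : Cst} (h : C.AdB S F .Kp) (Kp : ℝ) (KM : ℝ)
    (ho : S .Kp (Cst.cutS {C with Kp := Kp, KM := KM} .Kp)) :
    ∃ C' : Cst, C'.AdB S F .pB := by
  obtain ⟨LB, h_LB⟩ : ∃ x : ℝ, F .LB (Cst.cut {C with Kp := Kp, KM := KM} .LB) ≤ x := ⟨_, le_rfl⟩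
  refine ⟨{C with Kp := Kp, KM := KM, LB := LB},
    ⟨h.pos.sgm, h.pos.dl, h.pos.cp⟩, fun k hk => ?_, fun k hk => ?_⟩
  · cases k
    · exact h.spec .PF (by decide)
    · exact h.spec .jl (by decide)
    · exact h.spec .j (by decide)
    · exact h.spec .M (by decide)
    · exact h.spec .dM (by decide)
    · exact h.spec .U0 (by decide)
    · exact ho
    · exact absurd hk (by decide)
    · exact absurd hk (by decide)
    · exact absurd hk (by decide)
    · exact absurd hk (by decide)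
  · cases k
    · exact h.ge .V1 (by decide)
    · exact h.ge .Uw (by decide)
    · exact h.ge .qF (by decide)
    · exact h.ge .jl0 (by decide)
    · exact h.ge .sgm (by decide)
    · exact h.ge .bS (by decide)
    · exact h.ge .rc (by decide)
    · exact h.ge .kc (by decide)
    · exact h.ge .j0 (by decide)
    · exact h.ge .R0 (by decide)
    · exact h.ge .n2 (by decide)
    · exact h.ge .kw (by decide)
    · exact h.ge .Re (by decide)
    · exact h.ge .Qe (by decide)
    · exact h.ge .R2 (by decide)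
    · exact h.ge .Kl (by decide)
    · exact h.ge .r0 (by decide)
    · exact h.ge .qt (by decide)
    · exact h.ge .dl (by decide)
    · exact h.ge .K0 (by decide)
    · exact h_LB
    · exact absurd hk (by decide)
    · exact absurd hk (by decide)
    · exact absurd hk (by decide)
    · exact absurd hk (by decide)
    · exact absurd hk (by decide)
    · exact absurd hk (by decide)
    · exact absurd hk (by decide)
    · exact absurd hk (by decide)
    · exact absurd hk (by decide)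
    · exact absurd hk (by decide)
    · exact absurd hk (by decide)
    · exact absurd hk (by decide)
    · exact absurd hk (by decide)
    · exact absurd hk (by decide)
    · exact absurd hk (by decide)
    · exact absurd hk (by decide)
    · exact absurd hk (by decide)

theorem seg_pB_pA {C : Cst} (h : C.AdB S F .pB) (pB : ℝ) (UB : ℝ)
    (ho : S .pB (Cst.cutS {C with pB := pB, UB := UB} .pB)) :
    ∃ C' : Cst, C'.AdB S F .pA := by
  obtain ⟨LA, h_LA⟩ : ∃ x : ℝ, F .LA (Cst.cut {C with pB := pB, UB := UB} .LA) ≤ x := ⟨_, le_rfl⟩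
  refine ⟨{C with pB := pB, UB := UB, LA := LA},
    ⟨h.pos.sgm, h.pos.dl, h.pos.cp⟩, fun k hk => ?_, fun k hk => ?_⟩
  · cases k
    · exact h.spec .PF (by decide)
    · exact h.spec .jl (by decide)
    · exact h.spec .j (by decide)
    · exact h.spec .M (by decide)
    · exact h.spec .dM (by decide)
    · exact h.spec .U0 (by decide)
    · exact h.spec .Kp (by decide)
    · exact ho
    · exact absurd hk (by decide)
    · exact absurd hk (by decide)
    · exact absurd hk (by decide)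
  · cases k
    · exact h.ge .V1 (by decide)
    · exact h.ge .Uw (by decide)
    · exact h.ge .qF (by decide)
    · exact h.ge .jl0 (by decide)
    · exact h.ge .sgm (by decide)
    · exact h.ge .bS (by decide)
    · exact h.ge .rc (by decide)
    · exact h.ge .kc (by decide)
    · exact h.ge .j0 (by decide)
    · exact h.ge .R0 (by decide)
    · exact h.ge .n2 (by decide)
    · exact h.ge .kw (by decide)
    · exact h.ge .Re (by decide)
    · exact h.ge .Qe (by decide)
    · exact h.ge .R2 (by decide)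
    · exact h.ge .Kl (by decide)
    · exact h.ge .r0 (by decide)
    · exact h.ge .qt (by decide)
    · exact h.ge .dl (by decide)
    · exact h.ge .K0 (by decide)
    · exact h.ge .LB (by decide)
    · exact h_LA
    · exact absurd hk (by decide)
    · exact absurd hk (by decide)
    · exact absurd hk (by decide)
    · exact absurd hk (by decide)
    · exact absurd hk (by decide)
    · exact absurd hk (by decide)
    · exact absurd hk (by decide)
    · exact absurd hk (by decide)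
    · exact absurd hk (by decide)
    · exact absurd hk (by decide)
    · exact absurd hk (by decide)
    · exact absurd hk (by decide)
    · exact absurd hk (by decide)
    · exact absurd hk (by decide)
    · exact absurd hk (by decide)
    · exact absurd hk (by decide)

theorem seg_pA_YA {C : Cst} (h : C.AdB S F .pA) (pA : ℝ) (UA : ℝ)
    (ho : S .pA (Cst.cutS {C with pA := pA, UA := UA} .pA)) :
    ∃ C' : Cst, C'.AdB S F .YA := by
  refine ⟨{C with pA := pA, UA := UA},
    ⟨h.pos.sgm, h.pos.dl, h.pos.cp⟩, fun k hk => ?_, fun k hk => ?_⟩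
  · cases k
    · exact h.spec .PF (by decide)
    · exact h.spec .jl (by decide)
    · exact h.spec .j (by decide)
    · exact h.spec .M (by decide)
    · exact h.spec .dM (by decide)
    · exact h.spec .U0 (by decide)
    · exact h.spec .Kp (by decide)
    · exact h.spec .pB (by decide)
    · exact ho
    · exact absurd hk (by decide)
    · exact absurd hk (by decide)
  · cases k
    · exact h.ge .V1 (by decide)
    · exact h.ge .Uw (by decide)
    · exact h.ge .qF (by decide)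
    · exact h.ge .jl0 (by decide)
    · exact h.ge .sgm (by decide)
    · exact h.ge .bS (by decide)
    · exact h.ge .rc (by decide)
    · exact h.ge .kc (by decide)
    · exact h.ge .j0 (by decide)
    · exact h.ge .R0 (by decide)
    · exact h.ge .n2 (by decide)
    · exact h.ge .kw (by decide)
    · exact h.ge .Re (by decide)
    · exact h.ge .Qe (by decide)
    · exact h.ge .R2 (by decide)
    · exact h.ge .Kl (by decide)
    · exact h.ge .r0 (by decide)
    · exact h.ge .qt (by decide)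
    · exact h.ge .dl (by decide)
    · exact h.ge .K0 (by decide)
    · exact h.ge .LB (by decide)
    · exact h.ge .LA (by decide)
    · exact absurd hk (by decide)
    · exact absurd hk (by decide)
    · exact absurd hk (by decide)
    · exact absurd hk (by decide)
    · exact absurd hk (by decide)
    · exact absurd hk (by decide)
    · exact absurd hk (by decide)
    · exact absurd hk (by decide)
    · exact absurd hk (by decide)
    · exact absurd hk (by decide)
    · exact absurd hk (by decide)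
    · exact absurd hk (by decide)
    · exact absurd hk (by decide)
    · exact absurd hk (by decide)
    · exact absurd hk (by decide)
    · exact absurd hk (by decide)

theorem seg_YA_pL {C : Cst} (h : C.AdB S F .YA) (YA : ℝ) (YB : ℝ) (Z : ℝ) (N0 : ℕ)
    (ho : S .YA (Cst.cutS {C with YA := YA, YB := YB, Z := Z, N0 := N0} .YA)) :
    ∃ C' : Cst, C'.AdB S F .pL := by
  obtain ⟨N, h_N⟩ : ∃ x : ℕ, F .N (Cst.cut {C with YA := YA, YB := YB, Z := Z, N0 := N0} .N) ≤ (x : ℝ) := exists_nat_ge _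
  refine ⟨{C with YA := YA, YB := YB, Z := Z, N0 := N0, N := N},
    ⟨h.pos.sgm, h.pos.dl, h.pos.cp⟩, fun k hk => ?_, fun k hk => ?_⟩
  · cases k
    · exact h.spec .PF (by decide)
    · exact h.spec .jl (by decide)
    · exact h.spec .j (by decide)
    · exact h.spec .M (by decide)
    · exact h.spec .dM (by decide)
    · exact h.spec .U0 (by decide)
    · exact h.spec .Kp (by decide)
    · exact h.spec .pB (by decide)
    · exact h.spec .pA (by decide)
    · exact ho
    · exact absurd hk (by decide)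
  · cases k
    · exact h.ge .V1 (by decide)
    · exact h.ge .Uw (by decide)
    · exact h.ge .qF (by decide)
    · exact h.ge .jl0 (by decide)
    · exact h.ge .sgm (by decide)
    · exact h.ge .bS (by decide)
    · exact h.ge .rc (by decide)
    · exact h.ge .kc (by decide)
    · exact h.ge .j0 (by decide)
    · exact h.ge .R0 (by decide)
    · exact h.ge .n2 (by decide)
    · exact h.ge .kw (by decide)
    · exact h.ge .Re (by decide)
    · exact h.ge .Qe (by decide)
    · exact h.ge .R2 (by decide)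
    · exact h.ge .Kl (by decide)
    · exact h.ge .r0 (by decide)
    · exact h.ge .qt (by decide)
    · exact h.ge .dl (by decide)
    · exact h.ge .K0 (by decide)
    · exact h.ge .LB (by decide)
    · exact h.ge .LA (by decide)
    · exact h_N
    · exact absurd hk (by decide)
    · exact absurd hk (by decide)
    · exact absurd hk (by decide)
    · exact absurd hk (by decide)
    · exact absurd hk (by decide)
    · exact absurd hk (by decide)
    · exact absurd hk (by decide)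
    · exact absurd hk (by decide)
    · exact absurd hk (by decide)
    · exact absurd hk (by decide)
    · exact absurd hk (by decide)
    · exact absurd hk (by decide)
    · exact absurd hk (by decide)
    · exact absurd hk (by decide)
    · exact absurd hk (by decide)

theorem seg_pL_end {C : Cst} (h : C.AdB S F .pL) (pL : ℝ)
    (ho : S .pL (Cst.cutS {C with pL := pL} .pL)) :
    ∃ C' : Cst, C'.Ad S F := by
  obtain ⟨al, h_al⟩ : ∃ x : ℝ, F .al (Cst.cut {C with pL := pL} .al) ≤ x := ⟨_, le_rfl⟩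
  obtain ⟨U1n, h_U1n⟩ : ∃ x : ℝ, F .U1n (Cst.cut {C with pL := pL, al := al} .U1n) ≤ x := ⟨_, le_rfl⟩
  obtain ⟨R1, h_R1⟩ : ∃ x : ℝ, F .R1 (Cst.cut {C with pL := pL, al := al, U1n := U1n} .R1) ≤ x := ⟨_, le_rfl⟩
  obtain ⟨Cr, h_Cr⟩ : ∃ x : ℝ, F .Cr (Cst.cut {C with pL := pL, al := al, U1n := U1n, R1 := R1} .Cr) ≤ x := ⟨_, le_rfl⟩
  obtain ⟨Cd, h_Cd⟩ : ∃ x : ℝ, F .Cd (Cst.cut {C with pL := pL, al := al, U1n := U1n, R1 := R1, Cr := Cr} .Cd) ≤ x := ⟨_, le_rfl⟩
  obtain ⟨Cb, h_Cb⟩ : ∃ x : ℝ, F .Cb (Cst.cut {C with pL := pL, al := al, U1n := U1n, R1 := R1, Cr := Cr, Cd := Cd} .Cb) ≤ x := ⟨_, le_rfl⟩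
  obtain ⟨cp, p_cp, h_cp⟩ : ∃ x : ℝ, 0 < x ∧ F .cp (Cst.cut {C with pL := pL, al := al, U1n := U1n, R1 := R1, Cr := Cr, Cd := Cd, Cb := Cb} .cp) ≤ x⁻¹ := exI5 _
  obtain ⟨C1, h_C1⟩ : ∃ x : ℝ, F .C1 (Cst.cut {C with pL := pL, al := al, U1n := U1n, R1 := R1, Cr := Cr, Cd := Cd, Cb := Cb, cp := cp} .C1) ≤ x := ⟨_, le_rfl⟩
  obtain ⟨gf, h_gf⟩ : ∃ x : ℝ, F .gf (Cst.cut {C with pL := pL, al := al, U1n := U1n, R1 := R1, Cr := Cr, Cd := Cd, Cb := Cb, cp := cp, C1 := C1} .gf) ≤ x := ⟨_, le_rfl⟩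
  obtain ⟨aF, h_aF⟩ : ∃ x : ℝ, F .aF (Cst.cut {C with pL := pL, al := al, U1n := U1n, R1 := R1, Cr := Cr, Cd := Cd, Cb := Cb, cp := cp, C1 := C1, gf := gf} .aF) ≤ x := ⟨_, le_rfl⟩
  obtain ⟨kn, h_kn⟩ : ∃ x : ℝ, F .kn (Cst.cut {C with pL := pL, al := al, U1n := U1n, R1 := R1, Cr := Cr, Cd := Cd, Cb := Cb, cp := cp, C1 := C1, gf := gf, aF := aF} .kn) ≤ x := ⟨_, le_rfl⟩
  obtain ⟨kb, h_kb⟩ : ∃ x : ℝ, F .kb (Cst.cut {C with pL := pL, al := al, U1n := U1n, R1 := R1, Cr := Cr, Cd := Cd, Cb := Cb, cp := cp, C1 := C1, gf := gf, aF := aF, kn := kn} .kb) ≤ x := ⟨_, le_rfl⟩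
  obtain ⟨rr, h_rr⟩ : ∃ x : ℕ, F .rr (Cst.cut {C with pL := pL, al := al, U1n := U1n, R1 := R1, Cr := Cr, Cd := Cd, Cb := Cb, cp := cp, C1 := C1, gf := gf, aF := aF, kn := kn, kb := kb} .rr) ≤ (x : ℝ) := exists_nat_ge _
  obtain ⟨m3, h_m3⟩ : ∃ x : ℕ, F .m3 (Cst.cut {C with pL := pL, al := al, U1n := U1n, R1 := R1, Cr := Cr, Cd := Cd, Cb := Cb, cp := cp, C1 := C1, gf := gf, aF := aF, kn := kn, kb := kb, rr := rr} .m3) ≤ (x : ℝ) := exists_nat_ge _
  obtain ⟨J1, h_J1⟩ : ∃ x : ℕ, F .J1 (Cst.cut {C with pL := pL, al := al, U1n := U1n, R1 := R1, Cr := Cr, Cd := Cd, Cb := Cb, cp := cp, C1 := C1, gf := gf, aF := aF, kn := kn, kb := kb, rr := rr, m3 := m3} .J1) ≤ (x : ℝ) := exists_nat_ge _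
  refine ⟨{C with pL := pL, al := al, U1n := U1n, R1 := R1, Cr := Cr, Cd := Cd, Cb := Cb, cp := cp, C1 := C1, gf := gf, aF := aF, kn := kn, kb := kb, rr := rr, m3 := m3, J1 := J1},
    ⟨h.pos.sgm, h.pos.dl, p_cp⟩, fun k => ?_, fun k => ?_⟩
  · cases k
    · exact h.spec .PF (by decide)
    · exact h.spec .jl (by decide)
    · exact h.spec .j (by decide)
    · exact h.spec .M (by decide)
    · exact h.spec .dM (by decide)
    · exact h.spec .U0 (by decide)
    · exact h.spec .Kp (by decide)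
    · exact h.spec .pB (by decide)
    · exact h.spec .pA (by decide)
    · exact h.spec .YA (by decide)
    · exact ho
  · cases k
    · exact h.ge .V1 (by decide)
    · exact h.ge .Uw (by decide)
    · exact h.ge .qF (by decide)
    · exact h.ge .jl0 (by decide)
    · exact h.ge .sgm (by decide)
    · exact h.ge .bS (by decide)
    · exact h.ge .rc (by decide)
    · exact h.ge .kc (by decide)
    · exact h.ge .j0 (by decide)
    · exact h.ge .R0 (by decide)
    · exact h.ge .n2 (by decide)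
    · exact h.ge .kw (by decide)
    · exact h.ge .Re (by decide)
    · exact h.ge .Qe (by decide)
    · exact h.ge .R2 (by decide)
    · exact h.ge .Kl (by decide)
    · exact h.ge .r0 (by decide)
    · exact h.ge .qt (by decide)
    · exact h.ge .dl (by decide)
    · exact h.ge .K0 (by decide)
    · exact h.ge .LB (by decide)
    · exact h.ge .LA (by decide)
    · exact h.ge .N (by decide)
    · exact h_al
    · exact h_U1n
    · exact h_R1
    · exact h_Cr
    · exact h_Cd
    · exact h_Cb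
    · exact h_cp
    · exact h_C1
    · exact h_gf
    · exact h_aF
    · exact h_kn
    · exact h_kb
    · exact h_rr
    · exact h_m3
    · exact h_J1

/-- **THE CONSTANTS EXIST** if every spec stage has outputs. -/
theorem neBot_FC (H : ∀ i : Is, NeS S i) : (FC S).NeBot := by
  rw [neBot_iff]
  intro hbot
  have h0 : (∅ : Set Cst) ∈ FC S := by rw [hbot]; exact mem_bot
  obtain ⟨f, hf⟩ := h0
  obtain ⟨g_PF, H_PF⟩ := H .PF
  obtain ⟨g_jl, H_jl⟩ := H .jl
  obtain ⟨g_j, H_j⟩ := H .j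
  obtain ⟨g_M, H_M⟩ := H .M
  obtain ⟨g_dM, H_dM⟩ := H .dM
  obtain ⟨g_U0, H_U0⟩ := H .U0
  obtain ⟨g_Kp, H_Kp⟩ := H .Kp
  obtain ⟨g_pB, H_pB⟩ := H .pB
  obtain ⟨g_pA, H_pA⟩ := H .pA
  obtain ⟨g_YA, H_YA⟩ := H .YA
  obtain ⟨g_pL, H_pL⟩ := H .pL
  obtain ⟨F, hF⟩ : ∃ F : Ix → Cst → ℝ, F = fun k D => (f k D) ⊔ (g_PF k D) ⊔ (g_jl k D) ⊔ (g_j k D) ⊔ (g_M k D) ⊔ (g_dM k D) ⊔ (g_U0 k D) ⊔ (g_Kp k D) ⊔ (g_pB k D) ⊔ (g_pA k D) ⊔ (g_YA k D) ⊔ (g_pL k D) := ⟨_, rfl⟩
  have b : ∀ k D, f k D ≤ F k D ∧ g_PF k D ≤ F k D ∧ g_jl k D ≤ F k D ∧ g_j k D ≤ F k D ∧ g_M k D ≤ F k D ∧ g_dM k D ≤ F k D ∧ g_U0 k D ≤ F k D ∧ g_Kp k D ≤ F k D ∧ g_pB k D ≤ F k D ∧ g_pA k D ≤ F k D ∧ g_YA k D ≤ F k D ∧ g_pL k D ≤ F k D := fun k D => by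
    rw [hF]
    refine ⟨?_, ?_, ?_, ?_, ?_, ?_, ?_, ?_, ?_, ?_, ?_, ?_⟩ <;> simp only [le_sup_iff, le_refl, true_or, or_true]
  clear hF
  have c0 : ∃ C : Cst, C.Pos := ⟨⟨0, 0, 0, 0, 0, 0, 1, 0, 0, 0, 0, 0, 0, 0, 0, 0, 0, 0, 0, 0, 0, 0, 0, 0, 0, 0, 0, 0, 0, 0, 0, 0, 0, 0, 0, 0, 0, 0, 1, 0, 0,
      0, 0, 0, 0, 0, 0, 0, 0, 0, 0, 0, 0, 0, 0, 0, 0, 0, 0, 0, 0, 1, 0, 0, 0, 0, 0, 0, 0, 0⟩, ⟨one_pos, one_pos, one_pos⟩⟩
  obtain ⟨C, p0⟩ := c0
  obtain ⟨C, a⟩ := seg_start_PF (S := S) (F := F) p0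
  obtain ⟨PF, o⟩ := H_PF C (a.mono fun k D => (b k D).2.1)
  obtain ⟨C, a⟩ := seg_PF_jl a _ o
  obtain ⟨jl, o⟩ := H_jl C (a.mono fun k D => (b k D).2.2.1)
  obtain ⟨C, a⟩ := seg_jl_j a _ o
  obtain ⟨j, K1h, Uc, Qc, U1g, Q1g, o⟩ := H_j C (a.mono fun k D => (b k D).2.2.2.1)
  obtain ⟨C, a⟩ := seg_j_M a _ _ _ _ _ _ o
  obtain ⟨M, K2h, Ug, Qg, Ag, Bg, Yg, pG, o⟩ := H_M C (a.mono fun k D => (b k D).2.2.2.2.1)
  obtain ⟨C, a⟩ := seg_M_dM a _ _ _ _ _ _ _ _ o
  obtain ⟨dM, cM, qM, UM, o⟩ := H_dM C (a.mono fun k D => (b k D).2.2.2.2.2.1)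
  obtain ⟨C, a⟩ := seg_dM_U0 a _ _ _ _ o
  obtain ⟨U0, o⟩ := H_U0 C (a.mono fun k D => (b k D).2.2.2.2.2.2.1)
  obtain ⟨C, a⟩ := seg_U0_Kp a _ o
  obtain ⟨Kp, KM, o⟩ := H_Kp C (a.mono fun k D => (b k D).2.2.2.2.2.2.2.1)
  obtain ⟨C, a⟩ := seg_Kp_pB a _ _ o
  obtain ⟨pB, UB, o⟩ := H_pB C (a.mono fun k D => (b k D).2.2.2.2.2.2.2.2.1)
  obtain ⟨C, a⟩ := seg_pB_pA a _ _ o
  obtain ⟨pA, UA, o⟩ := H_pA C (a.mono fun k D => (b k D).2.2.2.2.2.2.2.2.2.1)
  obtain ⟨C, a⟩ := seg_pA_YA a _ _ o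
  obtain ⟨YA, YB, Z, N0, o⟩ := H_YA C (a.mono fun k D => (b k D).2.2.2.2.2.2.2.2.2.2.1)
  obtain ⟨C, a⟩ := seg_YA_pL a _ _ _ _ o
  obtain ⟨pL, o⟩ := H_pL C (a.mono fun k D => (b k D).2.2.2.2.2.2.2.2.2.2.2)
  obtain ⟨C, a⟩ := seg_pL_end a _ o
  exact hf C ⟨a.pos, a.spec, fun k => (b k _).1.trans (a.ge k)⟩

/-- **The out rule.** -/
theorem EvC.out (H : ∀ i : Is, NeS S i) {φ : Cst → Prop} (h : EvC S φ) : ∃ C, φ C := by
  have := neBot_FC H
  exact Eventually.exists h

end

end Pool.Agent.W_7d29a1_C1.Cs2
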