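import Pool.Agent.W_7d29a1_C1.LnS69
import Pool.Agent.W_7d29a1_C1.SepN5

/-!
MP_7d29a1_pr, [C1] SEP, FRAME: THE SEVEN SPEC STAGES OF THE LANE BLOCK HAVE OUTPUTS. (helper69)

`Ln69.Sp S ..` : at the stages `dM U0 Kp pB pA YA pL` the specification `S` is `PG1 PG2 BK1 PG3 PG4 BK2 PGL` (`Kb = 2`, `ρ = dl / 32`).
`ne_dM69`, .., `ne_pL69` : `NeS S i` (SepN5) for these stages.
-/

set_option autoImplicit false

namespace Pool.Agent.W_7d29a1_C1.Ln69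

open MeasureTheory Filter
open Pool.Agent.W_7d29a1_h4g Pool.Agent.W_7d29a1_H Pool.Agent.W_7d29a1_HS
open Pool.Agent.W_7d29a1_C1
open Pool.Agent.W_7d29a1_C1.Cs2

noncomputable section

/-- **The specifications of the lane block.** (`CI` = the constant `C` of `In`, `e` = the probability) -/
structure Sp (S : Is → Cst → Prop) (μ : Measure ℝ) (s c CI e : ℝ) : Prop where
  dM : ∀ C : Cst, S .dM C ↔ PG1 μ s c e 2 C.Kl C.dM C.cM C.qM C.UM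
  U0 : ∀ C : Cst, S .U0 C ↔ PG2 μ s c e 2 C.Kl C.dM C.cM C.qM C.UM C.dl C.U0
  Kp : ∀ C : Cst, S .Kp C ↔ BK1 μ s c CI 2 C.Kl C.qt C.dl C.U0 C.UM C.K0 C.Kp C.KM
  pB : ∀ C : Cst, S .pB C ↔ PG3 μ s c e 2 C.Kl C.dM C.cM C.qM C.UM C.dl C.U0 C.LB C.Kp C.pB C.UB
  pA : ∀ C : Cst, S .pA C ↔ PG4 μ s c e 2 C.Kl C.dM C.cM C.qM C.UM C.dl C.U0 C.LB C.Kp C.UB C.LA C.Kp C.pA C.UA
  YA : ∀ C : Cst, S .YA C ↔ BK2 μ s c CI 2 C.Kl C.qt C.dl C.U0 C.UM C.Kp C.KM C.UA C.UB C.YA C.YB C.Z C.N0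
  pL : ∀ C : Cst, S .pL C ↔ PGL μ s c e 2 C.Kl C.dM C.cM C.qM C.UM C.dl C.U0 C.LB C.Kp C.UB C.LA C.UA C.YB C.YA C.Z C.N C.pL

variable {S : Is → Cst → Prop} {μ : Measure ℝ} {s c CI e : ℝ} {n₀ : ℕ}

theorem ne_dM69 [IsProbabilityMeasure μ] (hI : In μ s c CI n₀) (he : 0 < e) (L : Sp S μ s c CI e) : NeS S .dM := by
  show ∀ᶠ C in FB S .dM, ∃ dM cM qM UM : ℝ, S .dM (Cst.cutS {C with dM := dM, cM := cM, qM := qM, UM := UM} .dM)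
  filter_upwards [FB.Kl_ge S (i := .dM) (by decide) fun _ => 2] with C hKl
  have h1 : (2 : ℝ) ≤ C.Kl := hKl
  obtain ⟨dM, cM, qM, UM, H⟩ := pg1_69 hI he 2 (show 0 ≤ C.Kl by linarith)
  exact ⟨dM, cM, qM, UM, (L.dM _).2 H⟩

theorem ne_U069 (L : Sp S μ s c CI e) : NeS S .U0 := by
  show ∀ᶠ C in FB S .U0, ∃ U0 : ℝ, S .U0 (Cst.cutS {C with U0 := U0} .U0)
  filter_upwards [FB.spec S .U0, FB.dl_le S (i := .U0) (by decide) (fun _ => 1) (fun _ => one_pos)] with C hs hd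
  have hd1 : C.dl ≤ 1 := hd.2
  have h1 : PG1 μ s c e 2 C.Kl C.dM C.cM C.qM C.UM := (L.dM (C.cutS .dM)).1 (hs .dM (by decide))
  obtain ⟨U0, H⟩ := h1.u0 hd.1 (by linarith)
  exact ⟨U0, (L.U0 _).2 H⟩

theorem ne_Kp69 [IsProbabilityMeasure μ] (hI : In μ s c CI n₀) (L : Sp S μ s c CI e) : NeS S .Kp := by
  show ∀ᶠ C in FB S .Kp, ∃ Kp KM : ℝ, S .Kp (Cst.cutS {C with Kp := Kp, KM := KM} .Kp)
  filter_upwards [FB.spec S .Kp, FB.dl_le S (i := .Kp) (by decide) (fun _ => 1) (fun _ => one_pos),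
    FB.Kl_ge S (i := .Kp) (by decide) fun _ => 2, FB.qt_ge S (i := .Kp) (by decide) fun _ => 0] with C hs hd hKl hq
  have hd1 : C.dl ≤ 1 := hd.2
  have h0 : (2 : ℝ) ≤ C.Kl := hKl
  have h1 : PG1 μ s c e 2 C.Kl C.dM C.cM C.qM C.UM := (L.dM (C.cutS .dM)).1 (hs .dM (by decide))
  have h2 : PG2 μ s c e 2 C.Kl C.dM C.cM C.qM C.UM C.dl C.U0 := (L.U0 (C.cutS .U0)).1 (hs .U0 (by decide))
  have hq' : 0 ≤ C.qt := hq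
  obtain ⟨Kp, KM, H⟩ := bk1_69 hI hd.1 (show 1 + C.dl ≤ 2 by linarith) h0 h2.1.le h1.2.2.2.1.le hq' C.K0
  exact ⟨Kp, KM, (L.Kp _).2 H⟩

theorem ne_pB69 (L : Sp S μ s c CI e) : NeS S .pB := by
  show ∀ᶠ C in FB S .pB, ∃ pB UB : ℝ, S .pB (Cst.cutS {C with pB := pB, UB := UB} .pB)
  filter_upwards [FB.spec S .pB, FB.Kl_ge S (i := .pB) (by decide) fun _ => 2] with C hs hKl
  have h0 : (2 : ℝ) ≤ C.Kl := hKl
  have h2 : PG2 μ s c e 2 C.Kl C.dM C.cM C.qM C.UM C.dl C.U0 := (L.U0 (C.cutS .U0)).1 (hs .U0 (by decide))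
  have h3 : BK1 μ s c CI 2 C.Kl C.qt C.dl C.U0 C.UM C.K0 C.Kp C.KM := (L.Kp (C.cutS .Kp)).1 (hs .Kp (by decide))
  have h4 := h3.2.1
  obtain ⟨pB, UB, H⟩ := h2.pb C.LB (show 0 ≤ C.Kp by linarith)
  exact ⟨pB, UB, (L.pB _).2 H⟩

theorem ne_pA69 (L : Sp S μ s c CI e) : NeS S .pA := by
  show ∀ᶠ C in FB S .pA, ∃ pA UA : ℝ, S .pA (Cst.cutS {C with pA := pA, UA := UA} .pA)
  filter_upwards [FB.spec S .pA, FB.Kl_ge S (i := .pA) (by decide) fun _ => 2] with C hs hKl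
  have h0 : (2 : ℝ) ≤ C.Kl := hKl
  have h2 : PG3 μ s c e 2 C.Kl C.dM C.cM C.qM C.UM C.dl C.U0 C.LB C.Kp C.pB C.UB := (L.pB (C.cutS .pB)).1 (hs .pB (by decide))
  have h3 : BK1 μ s c CI 2 C.Kl C.qt C.dl C.U0 C.UM C.K0 C.Kp C.KM := (L.Kp (C.cutS .Kp)).1 (hs .Kp (by decide))
  have h4 := h3.2.1
  obtain ⟨pA, UA, H⟩ := h2.pa C.LA (show 0 ≤ C.Kp by linarith)
  exact ⟨pA, UA, (L.pA _).2 H⟩

theorem ne_YA69 (L : Sp S μ s c CI e) : NeS S .YA := by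
  show ∀ᶠ C in FB S .YA, ∃ (YA YB Z : ℝ) (N0 : ℕ), S .YA (Cst.cutS {C with YA := YA, YB := YB, Z := Z, N0 := N0} .YA)
  filter_upwards [FB.spec S .YA] with C hs
  have h2 : PG3 μ s c e 2 C.Kl C.dM C.cM C.qM C.UM C.dl C.U0 C.LB C.Kp C.pB C.UB := (L.pB (C.cutS .pB)).1 (hs .pB (by decide))
  have h3 : BK1 μ s c CI 2 C.Kl C.qt C.dl C.U0 C.UM C.K0 C.Kp C.KM := (L.Kp (C.cutS .Kp)).1 (hs .Kp (by decide))
  have h4 : PG4 μ s c e 2 C.Kl C.dM C.cM C.qM C.UM C.dl C.U0 C.LB C.Kp C.UB C.LA C.Kp C.pA C.UA := (L.pA (C.cutS .pA)).1 (hs .pA (by decide))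
  obtain ⟨YA, YB, Z, N0, H⟩ := h3.ya h4.2.1.le h2.2.1.le
  exact ⟨YA, YB, Z, N0, (L.YA _).2 H⟩

/-- The number of pieces which `pG34` asks. -/
def nP69 (μ : Measure ℝ) (s c e : ℝ) (C : Cst) : ℕ := by
  classical
  exact if h : ∃ N₀ : ℕ, PG5 μ s c e 2 C.Kl C.dM C.cM C.qM C.UM C.dl C.U0 C.LB C.Kp C.UB C.LA C.Kp C.UA (C.dl / 32) C.YB (C.dl / 32)
    C.YA C.Z N₀ then h.choose else 0

theorem nP_spec69 {C : Cst} (h : ∃ N₀ : ℕ, PG5 μ s c e 2 C.Kl C.dM C.cM C.qM C.UM C.dl C.U0 C.LB C.Kp C.UB C.LA C.Kp C.UA (C.dl / 32) C.YB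
    (C.dl / 32) C.YA C.Z N₀) : PG5 μ s c e 2 C.Kl C.dM C.cM C.qM C.UM C.dl C.U0 C.LB C.Kp C.UB C.LA C.Kp C.UA (C.dl / 32) C.YB
    (C.dl / 32) C.YA C.Z (nP69 μ s c e C) := by
  unfold nP69
  rw [dif_pos h]
  exact h.choose_spec

theorem ne_pL69 (L : Sp S μ s c CI e) : NeS S .pL := by
  show ∀ᶠ C in FB S .pL, ∃ pL : ℝ, S .pL (Cst.cutS {C with pL := pL} .pL)
  filter_upwards [FB.spec S .pL, FB.dl_le S (i := .pL) (by decide) (fun _ => 1) (fun _ => one_pos),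
    FB.N_ge S (i := .pL) (by decide) (nP69 μ s c e)] with C hs hd hN
  have hd1 : C.dl ≤ 1 := hd.2
  have h4 : PG4 μ s c e 2 C.Kl C.dM C.cM C.qM C.UM C.dl C.U0 C.LB C.Kp C.UB C.LA C.Kp C.pA C.UA := (L.pA (C.cutS .pA)).1 (hs .pA (by decide))
  have h5 := h4.nn C.YB C.YA C.Z hd.1 (show C.dl / 32 ≤ 2 by linarith)
  have h6 : PG5 μ s c e 2 C.Kl C.dM C.cM C.qM C.UM C.dl C.U0 C.LB C.Kp C.UB C.LA C.Kp C.UA (C.dl / 32) C.YB (C.dl / 32) C.YA C.Z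
      (nP69 μ s c e (C.cut .N)) := nP_spec69 (C := C.cut .N) h5
  obtain ⟨pL, H⟩ := h6.pl hN
  exact ⟨pL, (L.pL _).2 H⟩

/-- **The seven stages of the lane block.** -/
theorem ne_lane69 [IsProbabilityMeasure μ] (hI : In μ s c CI n₀) (he : 0 < e) (L : Sp S μ s c CI e) :
    NeS S .dM ∧ NeS S .U0 ∧ NeS S .Kp ∧ NeS S .pB ∧ NeS S .pA ∧ NeS S .YA ∧ NeS S .pL :=
  ⟨ne_dM69 hI he L, ne_U069 L, ne_Kp69 hI L, ne_pB69 L, ne_pA69 L, ne_YA69 L, ne_pL69 L⟩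

end

end Pool.Agent.W_7d29a1_C1.Ln69
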