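import Pool.Agent.W_7d29a1_C1.GateU18

/-!
MP_7d29a1_pr, [C1] SEP, THE LOWER KERNELS FROM THE RIM OF THE WINDOW (helper99 84737, helper22 86360), at the scale of the window.
(helper18)

Base `b`, `N ≤ n` rows, `w = wd n`, lateral coordinate `lat16 μ s b`, window of half width `X`. `Rm18` contains the rim: the sites of
the row `b.1` with `|lat| ≤ X + 3` and the sites of the rows `[b.1, b.1 + N)` with `X - 3 ≤ |lat| ≤ X + 3`. `A` = any set of sites of
the rows above `b.1 + T` with `|lat| ≤ X - (K + 4) w` (the walls). `LoE18 ρ A Q`: from every site of `Rm18` the mass of the paths to the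
row `b.1 + N` which stay in the strip `|lat| ≤ ρ` and avoid `A` is at least `exp (- Q E)`. `loe18_of`: the deterministic part.
-/

set_option autoImplicit false

namespace Pool.Agent.W_7d29a1_C1.GL18

open MeasureTheory ProbabilityTheory Filter Topology
open Pool.Agent.W_7d29a1_F Pool.Agent.W_7d29a1_h4g Pool.Agent.W_7d29a1_H Pool.Agent.W_7d29a1_HS
open Pool.Agent.W_7d29a1_HL (cS)
open Pool.Agent.W_7d29a1_L (T_sh)
open Pool.Agent.W_7d29a1_C1.U16 (lat16 LevS bx16 lev_prob lev_low box_cone)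
open Pool.Agent.W_7d29a1_C1.S71 (Off)
open Pool.Agent.W_7d29a1_C1.H75

noncomputable section

variable {μ : Measure ℝ} {s c : ℝ}

/-- The strip `|lat| ≤ ρ` without `A`. -/
def SA (μ : Measure ℝ) (s ρ : ℝ) (b : Pt) (A : Set Pt) : Set Pt := {p | |lat16 μ s b p| ≤ ρ ∧ p ∉ A}

/-- The sites of the rim. -/
def Rm18 (μ : Measure ℝ) (s X : ℝ) (b : Pt) (N : ℕ) : Set Pt :=
  {c | b.1 ≤ c.1 ∧ c.1 < b.1 + N ∧ |lat16 μ s b c| ≤ X + 3 ∧ (c.1 = b.1 ∨ X - 3 ≤ |lat16 μ s b c|)}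

/-- **THE LOWER KERNELS FROM THE RIM.** -/
def LoE18 (μ : Measure ℝ) (s X ρ : ℝ) (n N : ℕ) (b : Pt) (A : Set Pt) (Q : ℝ) : Set Env :=
  {η | ∀ c ∈ Rm18 μ s X b N, Real.exp (-(Q * EE μ s n)) ≤ cS μ s (SA μ s ρ b A) η c (b.1 + N - c.1).toNat}

theorem cS_dep18 (R : Set Pt) (a : Pt) (l : ℕ) {η η' : Env} (h : ∀ p ∈ R, a.1 < p.1 → p.1 ≤ a.1 + l → η p = η' p) :
    cS μ s R η a l = cS μ s R η' a l :=
  Finset.sum_congr rfl fun y _ => WR_dep _ _ _ _ fun p hp => h p hp.2 hp.1.1 hp.1.2.1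

theorem loe18_off (X ρ : ℝ) (n N : ℕ) (b : Pt) (A : Set Pt) (Q : ℝ) : Off A (LoE18 μ s X ρ n N b A Q) := by
  intro η η' h
  have e : ∀ (c : Pt) (l : ℕ), cS μ s (SA μ s ρ b A) η c l = cS μ s (SA μ s ρ b A) η' c l := fun c l =>
    cS_dep18 _ _ _ fun p hp _ _ => h p hp.2
  unfold LoE18
  simp only [Set.mem_ofPred_eq, e]

theorem loe18_rows {X ρ : ℝ} {n N : ℕ} {b : Pt} {A : Set Pt} {Q : ℝ} {η η' : Env} (h : ∀ p ∈ rows b.1 (b.1 + N), η p = η' p) :
    η ∈ LoE18 μ s X ρ n N b A Q ↔ η' ∈ LoE18 μ s X ρ n N b A Q := by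
  have key : ∀ η η' : Env, (∀ p ∈ rows b.1 (b.1 + N), η p = η' p) → η ∈ LoE18 μ s X ρ n N b A Q → η' ∈ LoE18 μ s X ρ n N b A Q := by
    intro η η' h hη c hc
    have e : cS μ s (SA μ s ρ b A) η' c (b.1 + N - c.1).toNat = cS μ s (SA μ s ρ b A) η c (b.1 + N - c.1).toNat :=
      cS_dep18 _ _ _ fun p _ h1 h2 => (h p ⟨lt_of_le_of_lt hc.1 h1, by
        have := hc.2.1
        omega⟩).symm
    rw [e]
    exact hη c hc
  exact ⟨key η η' h, key η' η fun p hp => (h p hp).symm⟩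

theorem measurable_cS18 (R : Set Pt) (a : Pt) (l : ℕ) : Measurable fun η : Env => cS μ s R η a l := by
  unfold cS
  exact Finset.measurable_sum _ fun y _ => measurable_WR _ _ _ _

theorem loe18_meas (X ρ : ℝ) (n N : ℕ) (b : Pt) (A : Set Pt) (Q : ℝ) : MeasurableSet (LoE18 μ s X ρ n N b A Q) := by
  have e : LoE18 μ s X ρ n N b A Q = ⋂ (c : Pt) (_ : c ∈ Rm18 μ s X b N),
      {η | Real.exp (-(Q * EE μ s n)) ≤ cS μ s (SA μ s ρ b A) η c (b.1 + N - c.1).toNat} := by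
    ext η
    simp only [Set.mem_iInter]
    exact Iff.rfl
  rw [e]
  exact MeasurableSet.iInter fun c => MeasurableSet.iInter fun _ => measurableSet_le measurable_const (measurable_cS18 _ _ _)

/-! ### Masses of paths which stay in a region -/

theorem cS_nonneg18 (R : Set Pt) (η : Env) (a : Pt) (l : ℕ) : 0 ≤ cS μ s R η a l :=
  Finset.sum_nonneg fun _ _ => WR_nonneg _ _ _ _ _

theorem WR_zero18 (R : Set Pt) (η : Env) (b : Pt) {n : ℕ} {y : ℤ} (h : ¬ (0 ≤ y ∧ y ≤ n)) : WR μ s R η b n y = 0 := by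
  unfold WR
  rw [Zr_eq_zero R η b h, mul_zero]

theorem WR_out18 (R : Set Pt) (η : Env) (b : Pt) {n : ℕ} {y : ℤ} (hn : 1 ≤ n) (h : ((b.1 + n, b.2 + y) : Pt) ∉ R) :
    WR μ s R η b n y = 0 := by
  obtain ⟨m, rfl⟩ : ∃ m, n = m + 1 := ⟨n - 1, by omega⟩
  unfold WR
  have : Zr R η b (m + 1) y = 0 := by
    rw [Zr, Set.indicator_of_notMem, zero_mul]
    push_cast at h
    exact h
  rw [this, mul_zero]

/-- One site on the way. -/
theorem cS_step (R : Set Pt) (η : Env) (a : Pt) (m l : ℕ) (y : ℤ) :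
    WR μ s R η a m y * cS μ s R η (a.1 + m, a.2 + y) l ≤ cS μ s R η a (m + l) := by
  by_cases hy : 0 ≤ y ∧ y ≤ m
  · unfold cS
    rw [Finset.mul_sum]
    have h1 : ∑ i ∈ Finset.Icc (0 : ℤ) l, WR μ s R η a m y * WR μ s R η (a.1 + m, a.2 + y) l i ≤
        ∑ i ∈ Finset.Icc (0 : ℤ) l, WR μ s R η a (m + l) (y + i) :=
      Finset.sum_le_sum fun i _ => WR_mul_le R η a m l i hy.1 hy.2
    refine h1.trans ?_
    have h2 : ∑ i ∈ Finset.Icc (0 : ℤ) l, WR μ s R η a (m + l) (y + i) =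
        ∑ z ∈ (Finset.Icc (0 : ℤ) l).image (fun i => y + i), WR μ s R η a (m + l) z := by
      rw [Finset.sum_image]
      intro i _ j _ hij
      exact add_left_cancel hij
    rw [h2]
    refine Finset.sum_le_sum_of_subset_of_nonneg ?_ fun _ _ _ => WR_nonneg _ _ _ _ _
    intro z hz
    obtain ⟨i, hi, rfl⟩ := Finset.mem_image.1 hz
    rw [Finset.mem_Icc] at hi ⊢
    push_cast
    omega
  · rw [WR_zero18 R η a hy, zero_mul]
    exact cS_nonneg18 _ _ _ _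

/-- A long kernel is at most the mass at an intermediate row times the supremum of the rest. -/
theorem WR_le_cS {R : Set Pt} {η : Env} {a : Pt} {r t : ℕ} {y : ℤ} {B : ℝ} (hr : 1 ≤ r)
    (hB : ∀ k : ℤ, ((a.1 + r, a.2 + k) : Pt) ∈ R → WR μ s R η (a.1 + r, a.2 + k) t (y - k) ≤ B) :
    WR μ s R η a (r + t) y ≤ cS μ s R η a r * B := by
  rw [WR_add R η a r t y]
  unfold cS
  rw [Finset.sum_mul]
  refine Finset.sum_le_sum fun k _ => ?_
  by_cases hk : ((a.1 + r, a.2 + k) : Pt) ∈ R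
  · exact mul_le_mul_of_nonneg_left (hB k hk) (WR_nonneg _ _ _ _ _)
  · rw [WR_out18 R η a hr hk, zero_mul, zero_mul]

theorem cS_mono18 {R R' : Set Pt} {η : Env} {a : Pt} {l : ℕ} (h : ∀ p ∈ R, a.1 < p.1 → p.1 ≤ a.1 + l → p ∈ R') :
    cS μ s R η a l ≤ cS μ s R' η a l :=
  Finset.sum_le_sum fun y _ => WR_mono_on η a l y h

section Det

variable [IsProbabilityMeasure μ] {C : ℝ} {n₀ : ℕ}

/-- The paths which leave the strip around the line through the start. -/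
theorem leave18 (h : In μ s c C n₀) {n : ℕ} {D β ρ : ℝ} {b p : Pt} {j : ℕ} {η : Env} (hJ : sh b η ∈ Jm μ s c n 0 D β)
    (h1 : b.1 ≤ p.1) (h2 : p.1 + j ≤ b.1 + ((4 * n : ℕ) : ℤ)) (hρ : 1 ≤ ρ) (h3 : |lat16 μ s b p| + ρ + 1 ≤ D) :
    Real.exp (V μ s η p j) - cS μ s (St μ s ρ p) η p j ≤ 2 * j * Real.exp (2 * β - hc μ s c n * (ρ - 2)) := by
  obtain ⟨t, ht⟩ : ∃ t : ℕ, (t : ℤ) = p.1 - b.1 := ⟨(p.1 - b.1).toNat, Int.toNat_of_nonneg (by omega)⟩
  have k1 : t + j ≤ 4 * n := by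
    have : ((t + j : ℕ) : ℤ) ≤ ((4 * n : ℕ) : ℤ) := by
      push_cast at h2 ⊢
      omega
    exact_mod_cast this
  have k2 : |(((p.2 - b.2 : ℤ)) : ℝ) - sl μ s * t - 0| + ρ + 1 ≤ D := by
    have e : (t : ℝ) = ((p.1 - b.1 : ℤ) : ℝ) := by
      rw [← ht]
      norm_cast
    rw [sub_zero, e]
    exact h3
  have e : (((t : ℤ), p.2 - b.2) : Pt) + b = p := by
    ext
    · show (t : ℤ) + b.1 = p.1
      omega
    · show p.2 - b.2 + b.2 = p.2
      omega
  have h4 := jm_leave (t := t) (x := p.2 - b.2) (j := j) (ρ := ρ) h.sl_pos.le h.sl_lt.le (hc_nonneg h n) hJ k1 hρ k2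
  rw [V_sh, e] at h4
  have e2 : ∀ y : ℤ, WR μ s (tb (sl μ s) ((t : ℤ), p.2 - b.2) ρ) (sh b η) ((t : ℤ), p.2 - b.2) j y = WR μ s (St μ s ρ p) η p j y := by
    intro y
    rw [← tb_sh' (sl μ s) ((t : ℤ), p.2 - b.2) b ρ, WR_sh, e]
    rfl
  simp only [e2] at h4
  exact h4

/-- **THE CONFINED LOWER BOUND** of one kernel. -/
theorem leg_conf (h : In μ s c C n₀) {n : ℕ} (hn : 1 ≤ n) {D U q κ : ℝ} {b p : Pt} {j : ℕ} {y : ℤ} {η : Env} (hw : 1 ≤ wd μ s n)
    (hU : 0 ≤ U) (hq : 0 ≤ q) (hκ1 : 1 ≤ κ) (hκ : 2 * U + q + C + 2 * c + 2 ≤ c * κ)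
    (hJ : sh b η ∈ Jm μ s c n 0 D (U * EE μ s n)) (h1 : b.1 ≤ p.1) (h2 : p.1 + j ≤ b.1 + ((4 * n : ℕ) : ℤ)) (hj : j ≤ n)
    (h3 : |lat16 μ s b p| + κ * wd μ s n + 1 ≤ D) (hlow : Real.exp (-(q * EE μ s n)) ≤ W μ s η p j y) :
    Real.exp (-((q + 1) * EE μ s n)) ≤ WR μ s (St μ s (κ * wd μ s n) p) η p j y := by
  have hE := one_le_EE (μ := μ) (s := s) n
  have hC := h.C1
  have hc0 := h.c0
  have hw0 : 0 < wd μ s n := by linarith
  have hl := leave18 h hJ h1 h2 (ρ := κ * wd μ s n) (by nlinarith) h3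
  have hy : 0 ≤ y ∧ y ≤ j := by
    by_contra hy
    have : W μ s η p j y = 0 := W_eq_zero η p hy
    have := Real.exp_pos (-(q * EE μ s n))
    linarith
  have hs : W μ s η p j y - WR μ s (St μ s (κ * wd μ s n) p) η p j y ≤
      Real.exp (V μ s η p j) - cS μ s (St μ s (κ * wd μ s n) p) η p j := by
    rw [exp_V]
    unfold WS cS
    rw [← Finset.sum_sub_distrib]
    refine Finset.single_le_sum (f := fun y => W μ s η p j y - WR μ s (St μ s (κ * wd μ s n) p) η p j y) (fun i _ => ?_)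
      (Finset.mem_Icc.2 hy)
    have : WR μ s (St μ s (κ * wd μ s n) p) η p j i ≤ W μ s η p j i := WR_mono_on η p j i fun _ _ _ _ => Set.mem_univ _
    linarith
  have hcw : hc μ s c n * (κ * wd μ s n - 2) = c * κ * EE μ s n - 2 * hc μ s c n := by
    have := hc_wd h hn
    calc hc μ s c n * (κ * wd μ s n - 2) = κ * (hc μ s c n * wd μ s n) - 2 * hc μ s c n := by ring
      _ = _ := by rw [this]; ring
  have hcc : hc μ s c n ≤ c * EE μ s n := by
    have := hc_wd h hn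
    have := mul_le_mul_of_nonneg_left hw (hc_nonneg h n)
    linarith
  have hnum : 2 * (j : ℝ) * Real.exp (2 * (U * EE μ s n) - hc μ s c n * (κ * wd μ s n - 2)) ≤
      Real.exp (-(q * EE μ s n)) * (1 / 2) := by
    have g1 : 2 * (j : ℝ) * Real.exp (2 * (U * EE μ s n) - hc μ s c n * (κ * wd μ s n - 2)) ≤
        2 * (n : ℝ) * Real.exp (2 * (U * EE μ s n) - hc μ s c n * (κ * wd μ s n - 2)) := by
      have : (j : ℝ) ≤ n := by exact_mod_cast hj
      exact mul_le_mul_of_nonneg_right (by linarith) (Real.exp_pos _).le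
    refine g1.trans ((two_mul_exp h hn _).trans ?_)
    have g2 : (1 / 2 : ℝ) = Real.exp (-Real.log 2) := by
      rw [Real.exp_neg, Real.exp_log two_pos]
      norm_num
    rw [g2, ← Real.exp_add]
    refine Real.exp_le_exp.2 ?_
    rw [hcw]
    have g3 := Real.log_two_lt_d9
    have g4 := mul_le_mul_of_nonneg_right hκ (show 0 ≤ EE μ s n by linarith)
    nlinarith
  have hfin : Real.exp (-((q + 1) * EE μ s n)) ≤ Real.exp (-(q * EE μ s n)) * (1 / 2) := by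
    have g2 : (1 / 2 : ℝ) = Real.exp (-Real.log 2) := by
      rw [Real.exp_neg, Real.exp_log two_pos]
      norm_num
    rw [g2, ← Real.exp_add]
    refine Real.exp_le_exp.2 ?_
    have g3 := Real.log_two_lt_d9
    nlinarith
  linarith

end Det

end

end Pool.Agent.W_7d29a1_C1.GL18
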