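import Pool.Agent.W_7d29a1_C1.LoE18

/-!
MP_7d29a1_pr, [C1] SEP, THE LOWER KERNELS FROM THE RIM OF THE WINDOW: the deterministic part. (helper18)

`cl b Z r` = the site of the row `b.1 + r` at the lateral place `Z`. `CB`: five boxes of half width `6 w` along the column at `Z`.
`JB`: the tilts `0`, `± hc n` of all starts of the window `|lat| ≤ D` of the base. `col_all`: from the column straight up, in a strip of
half width `κ w + 4` around the column, in at most three legs of `n / 2` rows. `bot_all`: from the row `b.1` to the column at the row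
`b.1 + T`. `loe18_of`: both together.
-/

set_option autoImplicit false

namespace Pool.Agent.W_7d29a1_C1.GL18

open MeasureTheory ProbabilityTheory Filter Topology
open Pool.Agent.W_7d29a1_F Pool.Agent.W_7d29a1_h4g Pool.Agent.W_7d29a1_H Pool.Agent.W_7d29a1_HS
open Pool.Agent.W_7d29a1_HL (cS)
open Pool.Agent.W_7d29a1_L (T_sh)
open Pool.Agent.W_7d29a1_C1.U16 (lat16 LevS bx16 lev_prob lev_low box_cone)
open Pool.Agent.W_7d29a1_C1.S71 (Off)
open Pool.Agent.W_7d29a1_C1.H75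

noncomputable section

variable {μ : Measure ℝ} {s c : ℝ}

/-- The site of the row `b.1 + r` at the lateral place `Z`. -/
def cl (μ : Measure ℝ) (s : ℝ) (b : Pt) (Z : ℝ) (r : ℕ) : Pt := (b.1 + (r : ℤ), b.2 + ⌊sl μ s * r + Z⌋)

theorem lat_cl (b : Pt) (Z : ℝ) (r : ℕ) : lat16 μ s b (cl μ s b Z r) ≤ Z ∧ Z - 1 < lat16 μ s b (cl μ s b Z r) := by
  have g1 := Int.floor_le (sl μ s * r + Z)
  have g2 := Int.lt_floor_add_one (sl μ s * r + Z)
  unfold lat16 cl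
  push_cast
  constructor <;> linarith

theorem lat_tr (b b' p : Pt) : lat16 μ s b p = lat16 μ s b b' + lat16 μ s b' p := by
  unfold lat16
  push_cast
  ring

theorem lat_self (b : Pt) : lat16 μ s b b = 0 := by
  unfold lat16
  simp

/-- The boxes along a column. -/
def CB (μ : Measure ℝ) (s c : ℝ) (n : ℕ) (b : Pt) (Z q : ℝ) : Set Env :=
  {η | ∀ i < 5, η ∈ LevS μ s c (1 / 3) n (bx16 μ s (cl μ s b Z (i * (n / 4))) n (6 * wd μ s n)) q}

/-- The tilts of the window. -/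
def JB (μ : Measure ℝ) (s c : ℝ) (n : ℕ) (b : Pt) (D U : ℝ) : Set Env := {η | sh b η ∈ Jm μ s c n 0 D (U * EE μ s n)}

/-- The cone condition of the boxes. -/
def CD (μ : Measure ℝ) (s K θ : ℝ) (n : ℕ) : Prop :=
  ∀ (b : Pt) (N : ℕ) (p : Pt) (j : ℕ) (y : ℤ), p ∈ bx16 μ s b N (K * wd μ s n) → (p.1 + (j : ℤ), p.2 + y) ∈ bx16 μ s b N (K * wd μ s n) →
    θ * n ≤ j → 0 ≤ y ∧ y ≤ j

section Det

variable [IsProbabilityMeasure μ] {C : ℝ} {n₀ : ℕ}

/-- One leg along the column. -/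
theorem col_low {n : ℕ} (hn : 12 ≤ n) {Z q : ℝ} {b p : Pt} {z : ℤ} {η : Env} (hw : 1 ≤ wd μ s n) (hq : 0 ≤ q)
    (hb : η ∈ CB μ s c n b Z q) (hcone : CD μ s 6 (1 / 3) n) (h1 : b.1 ≤ p.1) (h2 : p.1 < b.1 + n)
    (h3 : |lat16 μ s b p - Z| ≤ 4) (h4 : |lat16 μ s b (p.1 + ((n / 2 : ℕ) : ℤ), z) - Z| ≤ 4) :
    Real.exp (-(q * EE μ s n)) ≤ W μ s η p (n / 2) (z - p.2) := by
  obtain ⟨r, hr⟩ : ∃ r : ℕ, (r : ℤ) = p.1 - b.1 := ⟨(p.1 - b.1).toNat, Int.toNat_of_nonneg (by omega)⟩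
  have hrn : r < n := by omega
  have h40 : 0 < n / 4 := by omega
  obtain ⟨i, hi⟩ : ∃ i : ℕ, i = r / (n / 4) := ⟨_, rfl⟩
  have e1 : i * (n / 4) ≤ r := by
    rw [hi]
    exact Nat.div_mul_le_self _ _
  have e2 : r < i * (n / 4) + n / 4 := by
    have := Nat.lt_div_mul_add (a := r) h40
    rw [hi]
    linarith
  have hi5 : i < 5 := by
    by_contra hcon
    have : 5 * (n / 4) ≤ i * (n / 4) := Nat.mul_le_mul_right _ (by omega)
    omega
  obtain ⟨B, hB⟩ : ∃ B : Pt, B = cl μ s b Z (i * (n / 4)) := ⟨_, rfl⟩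
  have hB1 : B.1 = b.1 + ((i * (n / 4) : ℕ) : ℤ) := by rw [hB]; rfl
  obtain ⟨g1, g2⟩ := lat_cl (μ := μ) (s := s) b Z (i * (n / 4))
  rw [← hB] at g1 g2
  have key : ∀ p' : Pt, b.1 + ((i * (n / 4) : ℕ) : ℤ) ≤ p'.1 → p'.1 ≤ b.1 + ((i * (n / 4) : ℕ) : ℤ) + n → |lat16 μ s b p' - Z| ≤ 4 →
      p' ∈ bx16 μ s B n (6 * wd μ s n) := by
    intro p' k1 k2 k3
    refine ⟨by rw [hB1]; exact k1, by rw [hB1]; exact k2, ?_⟩
    have e : ((p'.2 - B.2 : ℤ) : ℝ) - sl μ s * ((p'.1 - B.1 : ℤ) : ℝ) = lat16 μ s b p' - lat16 μ s b B := by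
      rw [lat_tr (μ := μ) (s := s) b B p']
      unfold lat16
      ring
    rw [e]
    rw [abs_le] at k3 ⊢
    constructor <;> linarith [k3.1, k3.2]
  have hp := key p (by omega) (by omega) h3
  have hz := key (p.1 + ((n / 2 : ℕ) : ℤ), z) (by
    show b.1 + ((i * (n / 4) : ℕ) : ℤ) ≤ p.1 + ((n / 2 : ℕ) : ℤ)
    omega) (by
    show p.1 + ((n / 2 : ℕ) : ℤ) ≤ b.1 + ((i * (n / 4) : ℕ) : ℤ) + n
    omega) h4
  have e3 : ((p.1 + ((n / 2 : ℕ) : ℤ), z) : Pt) = (p.1 + ((n / 2 : ℕ) : ℤ), p.2 + (z - p.2)) := by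
    ext
    · rfl
    · show z = p.2 + (z - p.2)
      ring
  rw [e3] at hz
  have h5 : 1 / 3 * (n : ℝ) ≤ ((n / 2 : ℕ) : ℝ) := by
    have : n ≤ 3 * (n / 2) := by omega
    have : (n : ℝ) ≤ 3 * ((n / 2 : ℕ) : ℝ) := by exact_mod_cast this
    linarith
  obtain ⟨c1, c2⟩ := hcone _ _ _ _ _ hp hz h5
  have hb' := hb i hi5
  rw [← hB] at hb'
  exact lev_low hq hb' hp hz h5 c1 c2

/-- One confined leg along the column. -/
theorem col_leg (h : In μ s c C n₀) {n : ℕ} (hn : 12 ≤ n) {Z q U κ : ℝ} {b p : Pt} {z : ℤ} {η : Env} (hw : 1 ≤ wd μ s n) (hq : 0 ≤ q)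
    (hU : 0 ≤ U) (hκ1 : 1 ≤ κ) (hκ : 2 * U + q + C + 2 * c + 2 ≤ c * κ)
    (hb : η ∈ CB μ s c n b Z q) (hJ : η ∈ JB μ s c n (cl μ s b Z 0) ((κ + 6) * wd μ s n) U)
    (hcone : CD μ s 6 (1 / 3) n) (h1 : b.1 ≤ p.1) (h2 : p.1 < b.1 + n)
    (h3 : |lat16 μ s b p - Z| ≤ 4) (h4 : |lat16 μ s b (p.1 + ((n / 2 : ℕ) : ℤ), z) - Z| ≤ 4) :
    Real.exp (-((q + 1) * EE μ s n)) ≤ WR μ s (St μ s (κ * wd μ s n) p) η p (n / 2) (z - p.2) := by
  obtain ⟨g1, g2⟩ := lat_cl (μ := μ) (s := s) b Z 0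
  have e := lat_tr (μ := μ) (s := s) b (cl μ s b Z 0) p
  have e0 : (cl μ s b Z 0).1 = b.1 := by
    unfold cl
    simp
  refine leg_conf h (by omega) hw hU hq hκ1 hκ hJ ?_ ?_ (by omega) ?_ (col_low hn hw hq hb hcone h1 h2 h3 h4)
  · rw [e0]
    exact h1
  · rw [e0]
    push_cast
    omega
  · rw [abs_le] at h3
    have : |lat16 μ s (cl μ s b Z 0) p| ≤ 5 := by
      rw [abs_le]
      constructor <;> linarith [h3.1, h3.2]
    linarith

/-- **ALONG THE COLUMN** up to the row `b.1 + N`. -/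
theorem col_all (h : In μ s c C n₀) {n N : ℕ} (hn : 12 ≤ n) (hN : N ≤ n) {Z q U κ ρ : ℝ} {b : Pt} {A : Set Pt} {η : Env}
    (hw : 1 ≤ wd μ s n) (hq : 0 ≤ q) (hU : 0 ≤ U) (hκ1 : 1 ≤ κ) (hκ : 2 * U + q + C + 2 * c + 2 ≤ c * κ)
    (hb : η ∈ CB μ s c n b Z q) (hJ : η ∈ JB μ s c n (cl μ s b Z 0) ((κ + 6) * wd μ s n) U)
    (hcone : CD μ s 6 (1 / 3) n) (hR : ∀ p : Pt, |lat16 μ s b p - Z| ≤ κ * wd μ s n + 4 → p ∈ SA μ s ρ b A) :
    ∀ (j : ℕ) (p : Pt), b.1 ≤ p.1 → p.1 < b.1 + N → |lat16 μ s b p - Z| ≤ 4 → b.1 + N ≤ p.1 + ((j + 1 : ℕ) : ℤ) * ((n / 2 : ℕ) : ℤ) →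
      Real.exp (-((((j : ℝ) + 1) * (q + 1) + U) * EE μ s n)) ≤ cS μ s (SA μ s ρ b A) η p (b.1 + N - p.1).toNat := by
  have hE := EE_pos (μ := μ) (s := s) n
  have hreg : ∀ p : Pt, |lat16 μ s b p - Z| ≤ 4 → ∀ p' ∈ St μ s (κ * wd μ s n) p, p' ∈ SA μ s ρ b A := by
    intro p h3 p' hp'
    refine hR p' ?_
    have hp2 : |lat16 μ s p p'| ≤ κ * wd μ s n := hp'
    rw [lat_tr (μ := μ) (s := s) b p p']
    rw [abs_le] at h3 hp2 ⊢
    constructor <;> linarith [h3.1, h3.2, hp2.1, hp2.2]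
  obtain ⟨g1, g2⟩ := lat_cl (μ := μ) (s := s) b Z 0
  have e0 : (cl μ s b Z 0).1 = b.1 := by
    unfold cl
    simp
  -- the next site of the column
  have nxt : ∀ p : Pt, b.1 ≤ p.1 → ∃ z : ℤ, |lat16 μ s b (p.1 + ((n / 2 : ℕ) : ℤ), z) - Z| ≤ 4 := by
    intro p h1
    obtain ⟨r, hr⟩ : ∃ r : ℕ, (r : ℤ) = p.1 - b.1 := ⟨(p.1 - b.1).toNat, Int.toNat_of_nonneg (by omega)⟩
    obtain ⟨k1, k2⟩ := lat_cl (μ := μ) (s := s) b Z (r + n / 2)
    refine ⟨(cl μ s b Z (r + n / 2)).2, ?_⟩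
    have e : ((p.1 + ((n / 2 : ℕ) : ℤ), (cl μ s b Z (r + n / 2)).2) : Pt) = cl μ s b Z (r + n / 2) := by
      ext
      · show p.1 + ((n / 2 : ℕ) : ℤ) = b.1 + ((r + n / 2 : ℕ) : ℤ)
        push_cast
        omega
      · rfl
    rw [e, abs_le]
    constructor <;> linarith
  intro j
  induction j with
  | zero =>
    intro p h1 h2 h3 h4
    obtain ⟨z, hz⟩ := nxt p h1
    have hleg := col_leg h hn hw hq hU hκ1 hκ hb hJ hcone h1 (by omega) h3 hz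
    obtain ⟨t, ht⟩ : ∃ t : ℕ, t = (b.1 + N - p.1).toNat := ⟨_, rfl⟩
    have ht1 : (t : ℤ) = b.1 + N - p.1 := by
      rw [ht]
      exact Int.toNat_of_nonneg (by omega)
    have ht2 : 1 ≤ t := by omega
    have ht3 : t ≤ n / 2 := by
      push_cast at h4
      omega
    obtain ⟨t', ht'⟩ : ∃ t' : ℕ, n / 2 = t + t' := ⟨n / 2 - t, by omega⟩
    rw [ht'] at hleg
    have hB := WR_le_cS (μ := μ) (s := s) (R := St μ s (κ * wd μ s n) p) (η := η) (a := p) (r := t) (t := t') (y := z - p.2)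
      (B := Real.exp (U * EE μ s n)) ht2 (by
        intro k hk
        have hk2 : |lat16 μ s p (p.1 + (t : ℤ), p.2 + k)| ≤ κ * wd μ s n := hk
        have hV : η ∈ T3 μ s c n (U * EE μ s n) (p.1 + (t : ℤ), p.2 + k) t' := by
          refine jm_t3 hJ ?_ ?_ ?_
          · rw [e0]
            show b.1 ≤ p.1 + (t : ℤ)
            omega
          · rw [e0]
            show p.1 + (t : ℤ) + (t' : ℤ) ≤ b.1 + ((4 * n : ℕ) : ℤ)
            push_cast
            omega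
          · have e1 := lat_tr (μ := μ) (s := s) b (cl μ s b Z 0) (p.1 + (t : ℤ), p.2 + k)
            have e2 := lat_tr (μ := μ) (s := s) b p (p.1 + (t : ℤ), p.2 + k)
            rw [abs_le] at h3 hk2 ⊢
            constructor <;> nlinarith [h3.1, h3.2, hk2.1, hk2.2]
        have hW : WR μ s (St μ s (κ * wd μ s n) p) η (p.1 + (t : ℤ), p.2 + k) t' (z - p.2 - k) ≤
            W μ s η (p.1 + (t : ℤ), p.2 + k) t' (z - p.2 - k) := WR_mono_on η _ _ _ fun _ _ _ _ => Set.mem_univ _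
        refine hW.trans ((t3_W hV _).trans (Real.exp_le_exp.2 ?_))
        have := mul_nonneg (hc_nonneg h n) (abs_nonneg (((z - p.2 - k : ℤ) : ℝ) - sl μ s * t'))
        linarith)
    have hfin : cS μ s (St μ s (κ * wd μ s n) p) η p t ≤ cS μ s (SA μ s ρ b A) η p t :=
      cS_mono18 fun p' hp' _ _ => hreg p h3 p' hp'
    rw [← ht]
    have h5 := hleg.trans hB
    have h6 : Real.exp (-((((0 : ℕ) : ℝ) + 1) * (q + 1) + U) * EE μ s n) ≤ cS μ s (St μ s (κ * wd μ s n) p) η p t := by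
      have e3 : Real.exp (-((((0 : ℕ) : ℝ) + 1) * (q + 1) + U) * EE μ s n) =
          Real.exp (-((q + 1) * EE μ s n)) * Real.exp (-(U * EE μ s n)) := by
        rw [← Real.exp_add]
        congr 1
        push_cast
        ring
      rw [e3]
      have e4 : cS μ s (St μ s (κ * wd μ s n) p) η p t =
          cS μ s (St μ s (κ * wd μ s n) p) η p t * Real.exp (U * EE μ s n) * Real.exp (-(U * EE μ s n)) := by
        rw [mul_assoc, ← Real.exp_add, add_neg_cancel, Real.exp_zero, mul_one]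
      rw [e4]
      exact mul_le_mul_of_nonneg_right h5 (Real.exp_pos _).le
    have e5 : -((((0 : ℕ) : ℝ) + 1) * (q + 1) + U) * EE μ s n = -(((((0 : ℕ) : ℝ) + 1) * (q + 1) + U) * EE μ s n) := by ring
    rw [e5] at h6
    exact h6.trans hfin
  | succ j ih =>
    intro p h1 h2 h3 h4
    by_cases hs : b.1 + N ≤ p.1 + ((j + 1 : ℕ) : ℤ) * ((n / 2 : ℕ) : ℤ)
    · refine le_trans (Real.exp_le_exp.2 ?_) (ih p h1 h2 h3 hs)
      push_cast
      nlinarith [mul_nonneg (show (0 : ℝ) ≤ q + 1 by linarith) hE.le]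
    · obtain ⟨z, hz⟩ := nxt p h1
      have hleg := col_leg h hn hw hq hU hκ1 hκ hb hJ hcone h1 (by omega) h3 hz
      have h5 : ((n / 2 : ℕ) : ℤ) ≤ ((j + 1 : ℕ) : ℤ) * ((n / 2 : ℕ) : ℤ) := by
        have : 1 * (n / 2) ≤ (j + 1) * (n / 2) := Nat.mul_le_mul_right _ (by omega)
        rw [one_mul] at this
        exact_mod_cast this
      have h6 := ih (p.1 + ((n / 2 : ℕ) : ℤ), z) (by
        show b.1 ≤ p.1 + ((n / 2 : ℕ) : ℤ)
        omega) (by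
        show p.1 + ((n / 2 : ℕ) : ℤ) < b.1 + N
        omega) hz (by
        show b.1 + (N : ℤ) ≤ p.1 + ((n / 2 : ℕ) : ℤ) + ((j + 1 : ℕ) : ℤ) * ((n / 2 : ℕ) : ℤ)
        have e : ((j + 1 + 1 : ℕ) : ℤ) * ((n / 2 : ℕ) : ℤ) = ((n / 2 : ℕ) : ℤ) + ((j + 1 : ℕ) : ℤ) * ((n / 2 : ℕ) : ℤ) := by
          push_cast
          ring
        rw [e] at h4
        linarith)
      have h7 : WR μ s (St μ s (κ * wd μ s n) p) η p (n / 2) (z - p.2) ≤ WR μ s (SA μ s ρ b A) η p (n / 2) (z - p.2) :=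
        WR_mono_on η p _ _ fun p' hp' _ _ => hreg p h3 p' hp'
      have h8 := cS_step (μ := μ) (s := s) (SA μ s ρ b A) η p (n / 2) (b.1 + N - (p.1 + ((n / 2 : ℕ) : ℤ))).toNat (z - p.2)
      have e1 : ((p.1 + ((n / 2 : ℕ) : ℤ), p.2 + (z - p.2)) : Pt) = (p.1 + ((n / 2 : ℕ) : ℤ), z) := by
        ext
        · rfl
        · show p.2 + (z - p.2) = z
          ring
      rw [e1] at h8
      have e2 : n / 2 + (b.1 + N - (p.1 + ((n / 2 : ℕ) : ℤ))).toNat = (b.1 + N - p.1).toNat := by omega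
      rw [e2] at h8
      refine le_trans ?_ h8
      have e3 : Real.exp (-((((j + 1 : ℕ) : ℝ) + 1) * (q + 1) + U) * EE μ s n) =
          Real.exp (-((q + 1) * EE μ s n)) * Real.exp (-((((j : ℝ) + 1) * (q + 1) + U) * EE μ s n)) := by
        rw [← Real.exp_add]
        congr 1
        push_cast
        ring
      have e5 : -((((j + 1 : ℕ) : ℝ) + 1) * (q + 1) + U) * EE μ s n = -(((((j + 1 : ℕ) : ℝ) + 1) * (q + 1) + U) * EE μ s n) := by ring
      rw [← e5, e3]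
      exact mul_le_mul (hleg.trans h7) h6 (Real.exp_pos _).le (WR_nonneg _ _ _ _ _)

/-- **FROM THE FIRST ROW** to the column. -/
theorem bot_all (h : In μ s c C n₀) {n T : ℕ} (hn : 1 ≤ n) (hT : T ≤ n) {Z q U κ ρ θ k K : ℝ} {b p : Pt} {A : Set Pt} {η : Env}
    (hw : 1 ≤ wd μ s n) (hq : 0 ≤ q) (hU : 0 ≤ U) (hκ1 : 1 ≤ κ) (hκ : 2 * U + q + C + 2 * c + 2 ≤ c * κ) (hθ : θ * n ≤ T)
    (hZ : |Z| ≤ k * wd μ s n) (hK : k + 4 ≤ K) (hb : η ∈ LevS μ s c θ n (bx16 μ s b n (K * wd μ s n)) q)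
    (hJ : η ∈ JB μ s c n b ((κ + (k + 5)) * wd μ s n) U) (hcone : CD μ s K θ n) (hρ : (κ + k + 4) * wd μ s n ≤ ρ)
    (hA : ∀ p' ∈ A, b.1 + T < p'.1) (h1 : p.1 = b.1) (h3 : |lat16 μ s b p| ≤ k * wd μ s n + 3) :
    Real.exp (-((q + 1) * EE μ s n)) ≤ WR μ s (SA μ s ρ b A) η p T ((cl μ s b Z T).2 - p.2) := by
  obtain ⟨g1, g2⟩ := lat_cl (μ := μ) (s := s) b Z T
  have key : ∀ p' : Pt, b.1 ≤ p'.1 → p'.1 ≤ b.1 + n → |lat16 μ s b p'| ≤ k * wd μ s n + 4 → p' ∈ bx16 μ s b n (K * wd μ s n) := by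
    intro p' k1 k2 k3
    refine ⟨k1, k2, ?_⟩
    have k4 : k * wd μ s n + 4 ≤ K * wd μ s n := by nlinarith
    exact le_trans k3 k4
  have hz : |lat16 μ s b (cl μ s b Z T)| ≤ k * wd μ s n + 4 := by
    rw [abs_le] at hZ ⊢
    constructor <;> linarith [hZ.1, hZ.2]
  have e3 : cl μ s b Z T = (p.1 + (T : ℤ), p.2 + ((cl μ s b Z T).2 - p.2)) := by
    ext
    · show b.1 + (T : ℤ) = p.1 + (T : ℤ)
      rw [h1]
    · show (cl μ s b Z T).2 = p.2 + ((cl μ s b Z T).2 - p.2)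
      ring
  have hp := key p (by omega) (by omega) (by linarith)
  have hz2 := key (cl μ s b Z T) (by
    show b.1 ≤ b.1 + (T : ℤ)
    omega) (by
    show b.1 + (T : ℤ) ≤ b.1 + n
    omega) hz
  rw [e3] at hz2
  obtain ⟨c1, c2⟩ := hcone _ _ _ _ _ hp hz2 hθ
  have hlow := lev_low hq hb hp hz2 hθ c1 c2
  have hleg := leg_conf h hn hw hU hq hκ1 hκ hJ (p := p) (j := T) (by omega) (by
    push_cast
    omega) hT (by linarith) hlow
  refine hleg.trans (WR_mono_on η p _ _ fun p' hp' k1 k2 => ⟨?_, fun hcon => ?_⟩)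
  · have hp2 : |lat16 μ s p p'| ≤ κ * wd μ s n := hp'
    rw [lat_tr (μ := μ) (s := s) b p p']
    rw [abs_le] at h3 hp2 ⊢
    constructor <;> linarith [h3.1, h3.2, hp2.1, hp2.2]
  · have := hA p' hcon
    omega

/-- **THE LOWER KERNELS FROM THE RIM.** -/
theorem loe18_of (h : In μ s c C n₀) {n N T : ℕ} (hn : 12 ≤ n) (hN : N ≤ n) (hTN : T < N) {X q U κ q' U' κ' ρ θ k K : ℝ} {b : Pt}
    {A : Set Pt} {η : Env} (hw : 1 ≤ wd μ s n) (hq : 0 ≤ q) (hU : 0 ≤ U) (hκ1 : 1 ≤ κ) (hκ : 2 * U + q + C + 2 * c + 2 ≤ c * κ)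
    (hq' : 0 ≤ q') (hU' : 0 ≤ U') (hκ1' : 1 ≤ κ') (hκ' : 2 * U' + q' + C + 2 * c + 2 ≤ c * κ') (hθ : θ * n ≤ T)
    (hX : 0 ≤ X) (hXk : X ≤ k * wd μ s n) (hK : k + 4 ≤ K) (hρ : (κ' + k + 4) * wd μ s n ≤ ρ) (hρ2 : (κ + k + 4) * wd μ s n ≤ ρ)
    (hA : ∀ p ∈ A, b.1 + T < p.1 ∧ |lat16 μ s b p| ≤ X - (κ + 5) * wd μ s n)
    (c1 : η ∈ CB μ s c n b X q) (c2 : η ∈ CB μ s c n b (-X) q) (j1 : η ∈ JB μ s c n (cl μ s b X 0) ((κ + 6) * wd μ s n) U)
    (j2 : η ∈ JB μ s c n (cl μ s b (-X) 0) ((κ + 6) * wd μ s n) U) (hb : η ∈ LevS μ s c θ n (bx16 μ s b n (K * wd μ s n)) q')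
    (hJ : η ∈ JB μ s c n b ((κ' + (k + 5)) * wd μ s n) U') (hcone : CD μ s 6 (1 / 3) n) (hcone' : CD μ s K θ n) :
    η ∈ LoE18 μ s X ρ n N b A (q' + 3 * q + U + 4) := by
  have hE := EE_pos (μ := μ) (s := s) n
  have habs : |X| = X := abs_of_nonneg hX
  have hR : ∀ Z : ℝ, |Z| = X → ∀ p : Pt, |lat16 μ s b p - Z| ≤ κ * wd μ s n + 4 → p ∈ SA μ s ρ b A := by
    intro Z hZ p hp
    have hZ1 := le_abs_self Z
    have hZ2 := neg_abs_le Z
    rw [hZ] at hZ1 hZ2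
    have e1 : |lat16 μ s b p| ≤ |lat16 μ s b p - Z| + |Z| := by
      have := abs_add_le (lat16 μ s b p - Z) Z
      rwa [sub_add_cancel] at this
    have e2 : |Z| ≤ |lat16 μ s b p| + |lat16 μ s b p - Z| := by
      have := abs_sub_abs_le_abs_sub Z (lat16 μ s b p)
      rw [abs_sub_comm Z] at this
      linarith
    refine ⟨?_, fun hcon => ?_⟩
    · nlinarith
    · have := (hA p hcon).2
      nlinarith
  have col : ∀ Z : ℝ, |Z| = X → η ∈ CB μ s c n b Z q → η ∈ JB μ s c n (cl μ s b Z 0) ((κ + 6) * wd μ s n) U → ∀ p : Pt, b.1 ≤ p.1 →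
      p.1 < b.1 + N → |lat16 μ s b p - Z| ≤ 4 →
      Real.exp (-(((2 + 1) * (q + 1) + U) * EE μ s n)) ≤ cS μ s (SA μ s ρ b A) η p (b.1 + N - p.1).toNat := by
    intro Z hZ k1 k2 p k3 k4 k5
    have := col_all h hn hN hw hq hU hκ1 hκ k1 k2 hcone (hR Z hZ) 2 p k3 k4 k5 (by
      push_cast
      omega)
    have e : -((((2 : ℕ) : ℝ) + 1) * (q + 1) + U) * EE μ s n = -(((2 + 1) * (q + 1) + U) * EE μ s n) := by
      push_cast
      ring
    have e2 : Real.exp (-(((((2 : ℕ) : ℝ) + 1) * (q + 1) + U) * EE μ s n)) = Real.exp (-(((2 + 1) * (q + 1) + U) * EE μ s n)) := by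
      push_cast
      rfl
    rw [← e2]
    exact this
  intro p hp
  obtain ⟨h1, h2, h3, h4⟩ := hp
  by_cases hb0 : p.1 = b.1
  · have hleg := bot_all h (by omega) (by omega) hw hq' hU' hκ1' hκ' hθ (Z := X) (by rw [habs]; exact hXk) hK hb hJ hcone' hρ
      (fun p' hp' => (hA p' hp').1) hb0 (h3.trans (by linarith))
    obtain ⟨g1, g2⟩ := lat_cl (μ := μ) (s := s) b X T
    have h6 := col X habs c1 j1 (cl μ s b X T) (by
      show b.1 ≤ b.1 + (T : ℤ)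
      omega) (by
      show b.1 + (T : ℤ) < b.1 + N
      omega) (by
      rw [abs_le]
      constructor <;> linarith)
    have h8 := cS_step (μ := μ) (s := s) (SA μ s ρ b A) η p T (b.1 + N - (cl μ s b X T).1).toNat ((cl μ s b X T).2 - p.2)
    have e1 : ((p.1 + (T : ℤ), p.2 + ((cl μ s b X T).2 - p.2)) : Pt) = cl μ s b X T := by
      ext
      · show p.1 + (T : ℤ) = b.1 + (T : ℤ)
        rw [hb0]
      · show p.2 + ((cl μ s b X T).2 - p.2) = (cl μ s b X T).2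
        ring
    rw [e1] at h8
    have e2 : T + (b.1 + N - (cl μ s b X T).1).toNat = (b.1 + N - p.1).toNat := by
      have : (cl μ s b X T).1 = b.1 + (T : ℤ) := rfl
      rw [this]
      omega
    rw [e2] at h8
    refine le_trans ?_ h8
    have e3 : Real.exp (-((q' + 3 * q + U + 4) * EE μ s n)) =
        Real.exp (-((q' + 1) * EE μ s n)) * Real.exp (-(((2 + 1) * (q + 1) + U) * EE μ s n)) := by
      rw [← Real.exp_add]
      congr 1
      ring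
    rw [e3]
    exact mul_le_mul hleg h6 (Real.exp_pos _).le (WR_nonneg _ _ _ _ _)
  · have h5 := h4.resolve_left hb0
    have hfin : Real.exp (-((q' + 3 * q + U + 4) * EE μ s n)) ≤ Real.exp (-(((2 + 1) * (q + 1) + U) * EE μ s n)) :=
      Real.exp_le_exp.2 (by nlinarith)
    refine hfin.trans ?_
    rcases abs_cases (lat16 μ s b p) with ⟨g1, _⟩ | ⟨g1, _⟩
    · rw [g1] at h3 h5
      exact col X habs c1 j1 p h1 h2 (by
        rw [abs_le]
        constructor <;> linarith)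
    · rw [g1] at h3 h5
      exact col (-X) (by rw [abs_neg]; exact habs) c2 j2 p h1 h2 (by
        rw [abs_le]
        constructor <;> linarith)

end Det

end

end Pool.Agent.W_7d29a1_C1.GL18
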