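import Pool.Agent.W_7d29a1_C1.PertN97

/-!
MP_7d29a1_pr, the attractor route: SIZE OF THE CONTACT FUNCTIONAL at every level, deterministic. (helper91)

`ct` (interface law times gain minus loss) of a row at the cut `q`, with the masses of the right group multiplied by `r`, is at most
`K r D / (Z_M + r Z_R) ^ 2`, where `D` is the weight of a contact: LGV determinant of the two groups at the two neighbours of the
cut, times `p w w'`, times the square of the profile of the left neighbour; `Z_M`, `Z_R` are the totals with the contracted row.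
The constant only sees the ratio of the two weights and the ratio of the profile at the two sides of the cut.
-/

set_option autoImplicit false

namespace Pool.Agent.W_7d29a1_C1.L91

open Finset K91 K97

noncomputable section

/-! ### The Jensen gap against the mixture -/

theorem mix_pos {t a b : ℝ} (h0 : 0 ≤ t) (h1 : t ≤ 1) (ha : 0 < a) (hb : 0 < b) : 0 < t * a + (1 - t) * b := by
  rcases eq_or_lt_of_le h0 with h | h
  · rw [← h]
    simpa using hb
  · have h2 : 0 < t * a := mul_pos h ha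
    have h3 : 0 ≤ (1 - t) * b := mul_nonneg (by linarith) hb.le
    linarith

/-- One value is far below the mixture. -/
theorem jn_low {t a b : ℝ} (h0 : 0 ≤ t) (h1 : t ≤ 1) (ha : 0 < a) (hb : 0 < b) (h : 2 * b < t * a + (1 - t) * b) :
    jn t a b * (t * a + (1 - t) * b) ^ 2 ≤ 4 * |Real.log a - Real.log b| * (t * (1 - t) * (a - b) ^ 2) := by
  have hz := mix_pos h0 h1 ha hb
  have h2 : 0 ≤ 1 - t := by linarith
  have hL : 0 ≤ |Real.log a - Real.log b| := abs_nonneg _
  have e1 : t * (a - b) = (t * a + (1 - t) * b) - b := by ring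
  have hab : b < a := by
    by_contra hc
    have k1 : t * (a - b) ≤ 0 := mul_nonpos_of_nonneg_of_nonpos h0 (by linarith)
    linarith
  have haz : t * a + (1 - t) * b ≤ a := by
    have k1 : 0 ≤ (1 - t) * (a - b) := mul_nonneg h2 (by linarith)
    linarith
  have g1 : jn t a b ≤ (1 - t) * |Real.log a - Real.log b| := by
    have l1 : Real.log (t * a + (1 - t) * b) ≤ Real.log a := Real.log_le_log hz haz
    have l2 := mul_le_mul_of_nonneg_left (le_abs_self (Real.log a - Real.log b)) h2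
    unfold jn
    linarith
  have g2 : (1 - t) * (t * a + (1 - t) * b) ^ 2 ≤ 4 * (t * (1 - t) * (a - b) ^ 2) := by
    have k1 : (t * a + (1 - t) * b) ≤ 2 * (t * (a - b)) := by linarith
    have k2 : (t * a + (1 - t) * b) ^ 2 ≤ (2 * (t * (a - b))) ^ 2 := pow_le_pow_left₀ hz.le k1 2
    have k3 : (2 * (t * (a - b))) ^ 2 = t * (4 * (t * (a - b) ^ 2)) := by ring
    have k4 : t * (4 * (t * (a - b) ^ 2)) ≤ 1 * (4 * (t * (a - b) ^ 2)) :=
      mul_le_mul_of_nonneg_right h1 (by positivity)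
    have k5 : (1 - t) * (t * a + (1 - t) * b) ^ 2 ≤ (1 - t) * (4 * (t * (a - b) ^ 2)) :=
      mul_le_mul_of_nonneg_left (by linarith) h2
    linarith
  calc jn t a b * (t * a + (1 - t) * b) ^ 2 ≤ (1 - t) * |Real.log a - Real.log b| * (t * a + (1 - t) * b) ^ 2 :=
        mul_le_mul_of_nonneg_right g1 (by positivity)
    _ = |Real.log a - Real.log b| * ((1 - t) * (t * a + (1 - t) * b) ^ 2) := by ring
    _ ≤ |Real.log a - Real.log b| * (4 * (t * (1 - t) * (a - b) ^ 2)) := mul_le_mul_of_nonneg_left g2 hL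
    _ = 4 * |Real.log a - Real.log b| * (t * (1 - t) * (a - b) ^ 2) := by ring

/-- **The Jensen gap against the mixture.** -/
theorem jn_log {t a b : ℝ} (h0 : 0 ≤ t) (h1 : t ≤ 1) (ha : 0 < a) (hb : 0 < b) :
    jn t a b * (t * a + (1 - t) * b) ^ 2 ≤ 4 * (1 + |Real.log a - Real.log b|) * (t * (1 - t) * (a - b) ^ 2) := by
  have hz := mix_pos h0 h1 ha hb
  have h2 : 0 ≤ 1 - t := by linarith
  have hL : 0 ≤ |Real.log a - Real.log b| := abs_nonneg _
  have hT : 0 ≤ t * (1 - t) * (a - b) ^ 2 := by positivity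
  have hfin : 4 * |Real.log a - Real.log b| * (t * (1 - t) * (a - b) ^ 2) ≤
      4 * (1 + |Real.log a - Real.log b|) * (t * (1 - t) * (a - b) ^ 2) := mul_le_mul_of_nonneg_right (by linarith) hT
  by_cases c1 : 2 * b < t * a + (1 - t) * b
  · exact (jn_low h0 h1 ha hb c1).trans hfin
  by_cases c2 : 2 * a < t * a + (1 - t) * b
  · have h3 := jn_low (t := 1 - t) (a := b) (b := a) h2 (by linarith) hb ha (by linarith)
    have e1 : jn (1 - t) b a = jn t a b := by
      unfold jn
      rw [show (1 - t) * b + (1 - (1 - t)) * a = t * a + (1 - t) * b by ring]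
      ring
    have e2 : (1 - t) * b + (1 - (1 - t)) * a = t * a + (1 - t) * b := by ring
    rw [e1, e2, abs_sub_comm] at h3
    refine h3.trans (le_trans (le_of_eq ?_) hfin)
    ring
  · push Not at c1 c2
    have h3 := jn_le h0 h1 ha hb
    have k1 : (t * a + (1 - t) * b) ^ 2 ≤ 4 * (a * b) := by
      have : (t * a + (1 - t) * b) * (t * a + (1 - t) * b) ≤ (2 * a) * (2 * b) :=
        mul_le_mul c2 c1 hz.le (by linarith)
      linarith
    have hab : 0 < a * b := mul_pos ha hb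
    calc jn t a b * (t * a + (1 - t) * b) ^ 2 ≤ t * (1 - t) * (a - b) ^ 2 / (a * b) * (4 * (a * b)) :=
          mul_le_mul h3 k1 (by positivity) (by positivity)
      _ = 4 * (t * (1 - t) * (a - b) ^ 2) := by
          field_simp
      _ ≤ 4 * (1 + |Real.log a - Real.log b|) * (t * (1 - t) * (a - b) ^ 2) := by
          have : 0 ≤ |Real.log a - Real.log b| * (t * (1 - t) * (a - b) ^ 2) := mul_nonneg hL hT
          linarith

/-! ### The numbers of a cut -/

theorem abs_log_le {x κ : ℝ} (hx : 0 < x) (h1 : 1 ≤ κ * x) (h2 : x ≤ κ) : |Real.log x| ≤ Real.log κ := by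
  have hκ : 0 < κ := lt_of_lt_of_le hx h2
  rw [abs_le]
  constructor
  · have h3 : 0 ≤ Real.log (κ * x) := Real.log_nonneg h1
    rw [Real.log_mul hκ.ne' hx.ne'] at h3
    linarith
  · exact Real.log_le_log hx h2

theorem pos_of {x κ : ℝ} (hκ : 1 ≤ κ) (h1 : 1 ≤ κ * x) : 0 < x := by
  by_contra hc
  have : κ * x ≤ 0 := mul_nonpos_of_nonneg_of_nonpos (by linarith) (by linarith)
  linarith

theorem ro_mul {a b a2 b2 : ℝ} (h1 : a + b ≠ 0) (h2 : a2 + b2 ≠ 0) :
    ro a b a2 b2 * ((a + b) * (a2 + b2)) = a * b2 - a2 * b := by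
  unfold ro
  field_simp
  ring

/-- **Size of interface law times gain.** -/
theorem pg_size {a b a2 b2 d κ : ℝ} (hκ : 1 ≤ κ) (ha : 0 ≤ a) (hb : 0 ≤ b) (ha2 : 0 ≤ a2) (hb2 : 0 ≤ b2)
    (h1 : 1 ≤ κ * (1 + (a2 + b2) * d)) (h1' : 1 + (a2 + b2) * d ≤ κ) (h2 : 1 ≤ κ * (1 - (a + b) * d))
    (h2' : 1 - (a + b) * d ≤ κ) (hD : 0 ≤ a * b2 - a2 * b) :
    |pg a b a2 b2 d| ≤ 4 * (1 + 2 * Real.log κ) * ((a * b2 - a2 * b) * d ^ 2) := by
  have hlk : 0 ≤ Real.log κ := Real.log_nonneg hκ
  by_cases x0 : a + b = 0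
  · unfold pg
    rw [x0, jl_zero_left, mul_zero, abs_zero]
    positivity
  by_cases y0 : a2 + b2 = 0
  · unfold pg
    rw [y0, jl_zero_right, mul_zero, abs_zero]
    positivity
  have x1 : 0 < a + b := lt_of_le_of_ne (by positivity) (Ne.symm x0)
  have y1 : 0 < a2 + b2 := lt_of_le_of_ne (by positivity) (Ne.symm y0)
  have p1 := pos_of hκ h1
  have p2 := pos_of hκ h2
  have key := jn_log (t := (a + b) / ((a + b) + (a2 + b2))) (a := 1 + (a2 + b2) * d) (b := 1 - (a + b) * d) (by positivity)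
    (div_le_one_of_le₀ (by linarith) (by positivity)) p1 p2
  have e1 : (a + b) / ((a + b) + (a2 + b2)) * (1 + (a2 + b2) * d) +
      (1 - (a + b) / ((a + b) + (a2 + b2))) * (1 - (a + b) * d) = 1 := by
    field_simp
    ring
  have e2 : (a + b) / ((a + b) + (a2 + b2)) * (1 - (a + b) / ((a + b) + (a2 + b2))) *
      (1 + (a2 + b2) * d - (1 - (a + b) * d)) ^ 2 = (a + b) * (a2 + b2) * d ^ 2 := by
    field_simp
    ring
  rw [e1, e2, one_pow, mul_one] at key
  have l1 := abs_log_le p1 h1 h1'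
  have l2 := abs_log_le p2 h2 h2'
  have l3 : |Real.log (1 + (a2 + b2) * d) - Real.log (1 - (a + b) * d)| ≤ 2 * Real.log κ := by
    refine (abs_sub _ _).trans ?_
    linarith
  have j0 : 0 ≤ jl (a + b) (a2 + b2) d := jl_nonneg x1.le y1.le p1 p2
  have j1 : jl (a + b) (a2 + b2) d ≤ 4 * (1 + 2 * Real.log κ) * ((a + b) * (a2 + b2) * d ^ 2) := by
    refine key.trans (mul_le_mul_of_nonneg_right (by linarith) (by positivity))
  have r1 := ro_mul x0 y0
  have r0 : 0 ≤ ro a b a2 b2 := by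
    by_contra hc
    have : ro a b a2 b2 * ((a + b) * (a2 + b2)) < 0 := mul_neg_of_neg_of_pos (by linarith) (mul_pos x1 y1)
    linarith
  unfold pg
  rw [abs_of_nonneg (mul_nonneg r0 j0)]
  calc ro a b a2 b2 * jl (a + b) (a2 + b2) d
      ≤ ro a b a2 b2 * (4 * (1 + 2 * Real.log κ) * ((a + b) * (a2 + b2) * d ^ 2)) := mul_le_mul_of_nonneg_left j1 r0
    _ = 4 * (1 + 2 * Real.log κ) * (ro a b a2 b2 * ((a + b) * (a2 + b2)) * d ^ 2) := by ring
    _ = _ := by rw [r1]

/-- **Size of interface law times loss.** -/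
theorem pq_size {a b a2 b2 v κ : ℝ} (hκ : 1 ≤ κ) (ha : 0 ≤ a) (hb : 0 ≤ b) (ha2 : 0 ≤ a2) (hb2 : 0 ≤ b2)
    (h1 : 1 ≤ κ * v) (h1' : v ≤ κ) (hs : (a + b) + (a2 + b2) ≤ 1) (hD : 0 ≤ a * b2 - a2 * b) :
    |pq a b a2 b2 v| * (1 + (a + b) * (v - 1)) ^ 2 ≤ 4 * (1 + Real.log κ) * ((a * b2 - a2 * b) * (v - 1) ^ 2) := by
  have hlk : 0 ≤ Real.log κ := Real.log_nonneg hκ
  have hv := pos_of hκ h1
  by_cases x0 : a + b = 0
  · unfold pq
    rw [x0, jq_zero_left, mul_zero, abs_zero, zero_mul]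
    positivity
  by_cases y0 : a2 + b2 = 0
  · unfold pq
    rw [y0, jq_zero_right, mul_zero, abs_zero, zero_mul]
    positivity
  have x1 : 0 < a + b := lt_of_le_of_ne (by positivity) (Ne.symm x0)
  have y1 : 0 < a2 + b2 := lt_of_le_of_ne (by positivity) (Ne.symm y0)
  have s0 : 0 ≤ 1 - ((a + b) + (a2 + b2)) := by linarith
  have n0 : 0 ≤ ((a + b) + (a2 + b2)) := by linarith
  have e0 : 1 + ((a + b) + (a2 + b2)) * (v - 1) = (1 - ((a + b) + (a2 + b2))) + ((a + b) + (a2 + b2)) * v := by ring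
  have q1 : 1 ≤ κ * (1 + ((a + b) + (a2 + b2)) * (v - 1)) := by
    rw [e0]
    have k1 : ((a + b) + (a2 + b2)) * 1 ≤ ((a + b) + (a2 + b2)) * (κ * v) := mul_le_mul_of_nonneg_left h1 n0
    have k2 : 1 * (1 - ((a + b) + (a2 + b2))) ≤ κ * (1 - ((a + b) + (a2 + b2))) := mul_le_mul_of_nonneg_right hκ s0
    linarith
  have q2 : 1 + ((a + b) + (a2 + b2)) * (v - 1) ≤ κ := by
    rw [e0]
    have k1 : ((a + b) + (a2 + b2)) * v ≤ ((a + b) + (a2 + b2)) * κ := mul_le_mul_of_nonneg_left h1' n0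
    have k2 : (1 - ((a + b) + (a2 + b2))) * 1 ≤ (1 - ((a + b) + (a2 + b2))) * κ := mul_le_mul_of_nonneg_left hκ s0
    linarith
  have p1 := pos_of hκ q1
  have key := jn_log (t := (a + b) / ((a + b) + (a2 + b2))) (a := 1 + ((a + b) + (a2 + b2)) * (v - 1)) (b := 1) (by positivity)
    (div_le_one_of_le₀ (by linarith) (by positivity)) p1 one_pos
  have e1 : (a + b) / ((a + b) + (a2 + b2)) * (1 + ((a + b) + (a2 + b2)) * (v - 1)) +
      (1 - (a + b) / ((a + b) + (a2 + b2))) * 1 = 1 + (a + b) * (v - 1) := by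
    field_simp
    ring
  have e2 : (a + b) / ((a + b) + (a2 + b2)) * (1 - (a + b) / ((a + b) + (a2 + b2))) *
      (1 + ((a + b) + (a2 + b2)) * (v - 1) - 1) ^ 2 = (a + b) * (a2 + b2) * (v - 1) ^ 2 := by
    field_simp
    ring
  rw [e1, e2, Real.log_one, sub_zero] at key
  have l1 := abs_log_le p1 q1 q2
  have j0 : 0 ≤ jq (a + b) (a2 + b2) v := jq_nonneg x1.le y1.le p1
  have j1 : jq (a + b) (a2 + b2) v * (1 + (a + b) * (v - 1)) ^ 2 ≤
      4 * (1 + Real.log κ) * ((a + b) * (a2 + b2) * (v - 1) ^ 2) := by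
    refine key.trans (mul_le_mul_of_nonneg_right (by linarith) (by positivity))
  have r1 := ro_mul x0 y0
  have r0 : 0 ≤ ro a b a2 b2 := by
    by_contra hc
    have : ro a b a2 b2 * ((a + b) * (a2 + b2)) < 0 := mul_neg_of_neg_of_pos (by linarith) (mul_pos x1 y1)
    linarith
  unfold pq
  rw [abs_of_nonneg (mul_nonneg r0 j0)]
  calc ro a b a2 b2 * jq (a + b) (a2 + b2) v * (1 + (a + b) * (v - 1)) ^ 2
      = ro a b a2 b2 * (jq (a + b) (a2 + b2) v * (1 + (a + b) * (v - 1)) ^ 2) := by ring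
    _ ≤ ro a b a2 b2 * (4 * (1 + Real.log κ) * ((a + b) * (a2 + b2) * (v - 1) ^ 2)) := mul_le_mul_of_nonneg_left j1 r0
    _ = 4 * (1 + Real.log κ) * (ro a b a2 b2 * ((a + b) * (a2 + b2)) * (v - 1) ^ 2) := by ring
    _ = _ := by rw [r1]

/-! ### The row -/

variable {p : ℝ} {lo hi : ℤ} {wk m ml mr f : ℤ → ℝ} {q : ℤ}

/-- The two totals differ by the term of the left neighbour. -/
theorem rz_rt (hlo : ∀ y, y < lo → m y = 0) (hhi : m hi = 0) (hq1 : lo ≤ q) (hq2 : q ≤ hi)
    (hw : ∀ y, 0 < wk y) (hp : 0 < p) (hm : ∀ y, 0 ≤ m y) :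
    rz lo hi p wk m f q = rt lo hi p wk m f q + p * (wk (q - 1) * m (q - 1)) * (f q - f (q - 1)) := by
  have hlh : lo ≤ hi := by omega
  set m' : ℤ → ℝ := fun y => wk y * m y + p * (wk (y - 1) * m (y - 1)) with hm'
  have hd : cut (Icc lo hi) m' f (q + 1) - cut (Icc lo hi) m' f q = m' q * (f q - f (q - 1)) := by
    unfold cut
    rw [← sum_sub_distrib]
    have e : ∀ y ∈ Icc lo hi, m' y * (if y < q + 1 then f y else f (y - 1)) - m' y * (if y < q then f y else f (y - 1)) =
        if y = q then m' q * (f q - f (q - 1)) else 0 := by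
      intro y _
      by_cases h1 : y = q
      · rw [if_pos h1, h1, if_pos (by omega), if_neg (by omega)]
        ring
      · rw [if_neg h1]
        by_cases h2 : y < q
        · rw [if_pos h2, if_pos (by omega)]
          ring
        · rw [if_neg h2, if_neg (by omega)]
          ring
    rw [sum_congr rfl e, sum_ite_eq' (Icc lo hi) q, if_pos (mem_Icc.2 ⟨hq1, hq2⟩)]
  have w1 := hw q
  have w2 := hw (q - 1)
  have m1 := hm q
  have m2 := hm (q - 1)
  have hmq : m' q = wk q * m q + p * (wk (q - 1) * m (q - 1)) := rfl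
  have ht : p * (wk (q - 1) * m (q - 1)) / m' q * (wk q * m q + p * (wk (q - 1) * m (q - 1))) =
      p * (wk (q - 1) * m (q - 1)) := by
    rw [← hmq]
    by_cases h0 : m' q = 0
    · rw [h0, mul_zero]
      rw [hmq] at h0
      have k1 : 0 ≤ wk q * m q := by positivity
      have k2 : 0 ≤ p * (wk (q - 1) * m (q - 1)) := by positivity
      linarith
    · rw [div_mul_cancel₀ _ h0]
  have key := zs_mix (R := f) (w := wk) (m := m) (p := p) hlh hlo hhi hq1 hq2 ht
  unfold rz rt
  rw [key]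
  rw [← hmq] at ht
  linear_combination (p * (wk (q - 1) * m (q - 1)) / m' q) * hd + (f q - f (q - 1)) * ht

/-- Data of a row at a cut: masses of the two groups, weights, profile; `κ` bounds the ratio of the two weights, `κ'` the ratio of
the profile. -/
structure Cutd (lo hi : ℤ) (p : ℝ) (wk ml mr f : ℤ → ℝ) (q : ℤ) (κ κ' : ℝ) : Prop where
  p0 : 0 < p
  w0 : ∀ y, 0 < wk y
  f0 : ∀ y, 0 < f y
  l0 : ∀ y, 0 ≤ ml y
  r0 : ∀ y, 0 ≤ mr y
  llo : ∀ y, y < lo → ml y = 0
  rlo : ∀ y, y < lo → mr y = 0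
  lhi : ml hi = 0
  rhi : mr hi = 0
  q1 : q - 1 ∈ Icc lo hi
  q2 : q ∈ Icc lo hi
  det : 0 ≤ ml (q - 1) * mr q - ml q * mr (q - 1)
  k1 : 1 ≤ κ
  k1' : 1 ≤ κ'
  wl : wk (q - 1) ≤ κ * wk q
  wr : wk q ≤ κ * wk (q - 1)
  fl : f (q - 1) ≤ κ' * f q
  fr : f q ≤ κ' * f (q - 1)
  zl : 0 < rz lo hi p wk ml f q
  zr : 0 < rz lo hi p wk mr f q

/-- The weight of a contact, without the totals. -/
def dw (p : ℝ) (wk ml mr f : ℤ → ℝ) (q : ℤ) : ℝ :=
  (ml (q - 1) * mr q - ml q * mr (q - 1)) * (p * (wk (q - 1) * wk q)) * (f (q - 1) + p * f q) ^ 2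

/-- The constant. -/
def Kl (p κ κ' : ℝ) : ℝ := 4 * (1 + 2 * Real.log κ) * (κ / p) + 4 * (1 + Real.log κ') * (max 1 (1 / p)) ^ 2

variable {κ κ' : ℝ}

theorem Kl_nonneg (hp : 0 < p) (h1 : 1 ≤ κ) (h2 : 1 ≤ κ') : 0 ≤ Kl p κ κ' := by
  have a1 := Real.log_nonneg h1
  have a2 := Real.log_nonneg h2
  have a3 : 0 < κ := by linarith
  unfold Kl
  positivity

theorem dw_nonneg (h : Cutd lo hi p wk ml mr f q κ κ') : 0 ≤ dw p wk ml mr f q := by
  have a1 := h.p0
  have a2 := h.w0 q
  have a3 := h.w0 (q - 1)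
  have a4 := h.det
  unfold dw
  positivity

theorem rz_lev (r : ℝ) : rz lo hi p wk (fun y => ml y + r * mr y) f q = rz lo hi p wk ml f q + r * rz lo hi p wk mr f q := by
  rw [rz_add (m1 := ml) (m2 := fun y => r * mr y), rz_smul]

/-- **Size of the contact functional at every level.** -/
theorem ct_size (h : Cutd lo hi p wk ml mr f q κ κ') {r : ℝ} (hr : 0 < r) :
    |ct lo hi p wk ml (fun y => r * mr y) f q| ≤
      Kl p κ κ' * (dw p wk ml mr f q * (r / (rz lo hi p wk ml f q + r * rz lo hi p wk mr f q) ^ 2)) := by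
  have hp := h.p0
  have w1 := h.w0 (q - 1)
  have w2 := h.w0 q
  have f1 := h.f0 (q - 1)
  have f2 := h.f0 q
  have l1 := h.l0 (q - 1)
  have l2 := h.l0 q
  have r1 := h.r0 (q - 1)
  have r2 := h.r0 q
  have hq1 := mem_Icc.1 h.q1
  have hq2 := mem_Icc.1 h.q2
  have hk : 0 < κ := by linarith [h.k1]
  have hk' : 0 < κ' := by linarith [h.k1']
  have hzl := h.zl
  have hzr := h.zr
  have hm : ∀ y, 0 ≤ ml y + r * mr y := fun y => add_nonneg (h.l0 y) (mul_nonneg hr.le (h.r0 y))
  have hZe : rz lo hi p wk (fun y => ml y + r * mr y) f q = rz lo hi p wk ml f q + r * rz lo hi p wk mr f q := rz_lev r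
  set Z := rz lo hi p wk (fun y => ml y + r * mr y) f q with hZdef
  have hZ : 0 < Z := by
    rw [hZe]
    positivity
  rw [← hZe]
  set G := f (q - 1) + p * f q with hG
  have hG0 : 0 < G := by
    rw [hG]
    positivity
  -- shares of the two neighbours
  have sl : (ml (q - 1) + r * mr (q - 1)) * wk (q - 1) * G ≤ Z :=
    rz_left (m := fun y => ml y + r * mr y) hp h.w0 h.f0 hm h.q1
  have sr : (ml q + r * mr q) * wk q * G ≤ Z := rz_right (m := fun y => ml y + r * mr y) hp h.w0 h.f0 hm h.q2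
  have hD := h.det
  -- GAIN
  have gain : |ctg lo hi p wk ml (fun y => r * mr y) f q| ≤
      4 * (1 + 2 * Real.log κ) * ((r * (ml (q - 1) * mr q - ml q * mr (q - 1))) * (G / Z) ^ 2 * (wk (q - 1) - wk q) ^ 2) := by
    have c0 : 0 < G / Z := div_pos hG0 hZ
    have s1 : (G / Z * ml (q - 1) + G / Z * (r * mr (q - 1))) * wk (q - 1) ≤ 1 := by
      have e : (G / Z * ml (q - 1) + G / Z * (r * mr (q - 1))) * wk (q - 1) =
          (ml (q - 1) + r * mr (q - 1)) * wk (q - 1) * G / Z := by ring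
      rw [e, div_le_one hZ]
      exact sl
    have s2 : (G / Z * ml q + G / Z * (r * mr q)) * wk q ≤ 1 := by
      have e : (G / Z * ml q + G / Z * (r * mr q)) * wk q = (ml q + r * mr q) * wk q * G / Z := by ring
      rw [e, div_le_one hZ]
      exact sr
    have x0 : 0 ≤ G / Z * ml (q - 1) + G / Z * (r * mr (q - 1)) := by positivity
    have y0 : 0 ≤ G / Z * ml q + G / Z * (r * mr q) := by positivity
    set x := G / Z * ml (q - 1) + G / Z * (r * mr (q - 1)) with hx
    set y := G / Z * ml q + G / Z * (r * mr q) with hy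
    have b1 : 1 ≤ κ * (1 + y * (wk (q - 1) - wk q)) := by
      have k1 : y * wk q ≤ y * (κ * wk (q - 1)) := mul_le_mul_of_nonneg_left h.wr y0
      have k2 : (κ - 1) * (y * wk q) ≤ (κ - 1) * 1 := mul_le_mul_of_nonneg_left s2 (by linarith [h.k1])
      have e : κ * (1 + y * (wk (q - 1) - wk q)) = κ + y * (κ * wk (q - 1)) - κ * (y * wk q) := by ring
      rw [e]
      linarith
    have b2 : 1 + y * (wk (q - 1) - wk q) ≤ κ := by
      have k1 : y * wk (q - 1) ≤ y * (κ * wk q) := mul_le_mul_of_nonneg_left h.wl y0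
      have k2 : (κ - 1) * (y * wk q) ≤ (κ - 1) * 1 := mul_le_mul_of_nonneg_left s2 (by linarith [h.k1])
      have e : 1 + y * (wk (q - 1) - wk q) = 1 + y * wk (q - 1) - y * wk q := by ring
      rw [e]
      linarith
    have b3 : 1 ≤ κ * (1 - x * (wk (q - 1) - wk q)) := by
      have k1 : x * wk (q - 1) ≤ x * (κ * wk q) := mul_le_mul_of_nonneg_left h.wl x0
      have k2 : (κ - 1) * (x * wk (q - 1)) ≤ (κ - 1) * 1 := mul_le_mul_of_nonneg_left s1 (by linarith [h.k1])
      have e : κ * (1 - x * (wk (q - 1) - wk q)) = κ + x * (κ * wk q) - κ * (x * wk (q - 1)) := by ring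
      rw [e]
      linarith
    have b4 : 1 - x * (wk (q - 1) - wk q) ≤ κ := by
      have k1 : x * wk q ≤ x * (κ * wk (q - 1)) := mul_le_mul_of_nonneg_left h.wr x0
      have k2 : (κ - 1) * (x * wk (q - 1)) ≤ (κ - 1) * 1 := mul_le_mul_of_nonneg_left s1 (by linarith [h.k1])
      have e : 1 - x * (wk (q - 1) - wk q) = 1 + x * wk q - x * wk (q - 1) := by ring
      rw [e]
      linarith
    have eD : G / Z * ml (q - 1) * (G / Z * (r * mr q)) - G / Z * ml q * (G / Z * (r * mr (q - 1))) =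
        (r * (ml (q - 1) * mr q - ml q * mr (q - 1))) * (G / Z) ^ 2 := by ring
    have key := pg_size (a := G / Z * ml (q - 1)) (b := G / Z * (r * mr (q - 1))) (a2 := G / Z * ml q)
      (b2 := G / Z * (r * mr q)) (d := wk (q - 1) - wk q) h.k1 (by positivity) (by positivity) (by positivity) (by positivity)
      b1 b2 b3 b4 (by rw [eD]; positivity)
    rw [eD] at key
    exact key
  -- LOSS
  have hTZ : Z = rt lo hi p wk (fun y => ml y + r * mr y) f q +
      p * (wk (q - 1) * (ml (q - 1) + r * mr (q - 1))) * (f q - f (q - 1)) :=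
    rz_rt (m := fun y => ml y + r * mr y) (fun y hy => by rw [h.llo y hy, h.rlo y hy]; ring)
      (by show ml hi + r * mr hi = 0; rw [h.lhi, h.rhi]; ring) hq2.1 hq2.2 h.w0 hp hm
  have st := rt_cut (m := fun y => ml y + r * mr y) hp h.w0 h.f0 hm h.q2
  set T := rt lo hi p wk (fun y => ml y + r * mr y) f q with hTdef
  have hT : 0 < T := by
    have k1 : 0 ≤ wk q * (ml q + r * mr q) * f (q - 1) := by positivity
    have k2 : 0 ≤ p * (wk (q - 1) * (ml (q - 1) + r * mr (q - 1))) * f (q - 1) := by positivity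
    have k3 : (wk q * (ml q + r * mr q) + p * (wk (q - 1) * (ml (q - 1) + r * mr (q - 1)))) * f (q - 1) =
        wk q * (ml q + r * mr q) * f (q - 1) + p * (wk (q - 1) * (ml (q - 1) + r * mr (q - 1))) * f (q - 1) := by ring
    rw [k3] at st
    by_contra hc
    have k4 : p * (wk (q - 1) * (ml (q - 1) + r * mr (q - 1))) * f (q - 1) = 0 := by linarith
    have k5 : p * (wk (q - 1) * (ml (q - 1) + r * mr (q - 1))) = 0 := (mul_eq_zero.1 k4).resolve_right f1.ne'
    rw [k5, zero_mul, add_zero] at hTZ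
    linarith
  have loss : |ctl lo hi p wk ml (fun y => r * mr y) f q| ≤
      4 * (1 + Real.log κ') * ((r * (ml (q - 1) * mr q - ml q * mr (q - 1))) * (p * (wk (q - 1) * wk q)) *
        ((f q - f (q - 1)) / Z) ^ 2) := by
    have c0 : 0 < f (q - 1) / T := div_pos f1 hT
    have hs : (f (q - 1) / T * (p * wk (q - 1)) * ml (q - 1) + f (q - 1) / T * (p * wk (q - 1)) * (r * mr (q - 1))) +
        (f (q - 1) / T * wk q * ml q + f (q - 1) / T * wk q * (r * mr q)) ≤ 1 := by
      have e : (f (q - 1) / T * (p * wk (q - 1)) * ml (q - 1) + f (q - 1) / T * (p * wk (q - 1)) * (r * mr (q - 1))) +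
          (f (q - 1) / T * wk q * ml q + f (q - 1) / T * wk q * (r * mr q)) =
          (wk q * (ml q + r * mr q) + p * (wk (q - 1) * (ml (q - 1) + r * mr (q - 1)))) * f (q - 1) / T := by ring
      rw [e, div_le_one hT]
      exact st
    have v1 : 1 ≤ κ' * (f q / f (q - 1)) := by
      rw [mul_div_assoc', le_div_iff₀ f1, one_mul]
      exact h.fl
    have v2 : f q / f (q - 1) ≤ κ' := by
      rw [div_le_iff₀ f1]
      exact h.fr
    have eD : f (q - 1) / T * (p * wk (q - 1)) * ml (q - 1) * (f (q - 1) / T * wk q * (r * mr q)) -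
        f (q - 1) / T * wk q * ml q * (f (q - 1) / T * (p * wk (q - 1)) * (r * mr (q - 1))) =
        (r * (ml (q - 1) * mr q - ml q * mr (q - 1))) * (p * (wk (q - 1) * wk q)) * (f (q - 1) / T) ^ 2 := by ring
    have key := pq_size (a := f (q - 1) / T * (p * wk (q - 1)) * ml (q - 1))
      (b := f (q - 1) / T * (p * wk (q - 1)) * (r * mr (q - 1))) (a2 := f (q - 1) / T * wk q * ml q)
      (b2 := f (q - 1) / T * wk q * (r * mr q)) (v := f q / f (q - 1)) h.k1' (by positivity) (by positivity)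
      (by positivity) (by positivity) v1 v2 hs (by rw [eD]; positivity)
    have e1 : 1 + (f (q - 1) / T * (p * wk (q - 1)) * ml (q - 1) + f (q - 1) / T * (p * wk (q - 1)) * (r * mr (q - 1))) *
        (f q / f (q - 1) - 1) = Z / T := by
      rw [hTZ]
      field_simp
    have e2 : (r * (ml (q - 1) * mr q - ml q * mr (q - 1))) * (p * (wk (q - 1) * wk q)) * (f (q - 1) / T) ^ 2 *
        (f q / f (q - 1) - 1) ^ 2 = (r * (ml (q - 1) * mr q - ml q * mr (q - 1))) * (p * (wk (q - 1) * wk q)) *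
        ((f q - f (q - 1)) / T) ^ 2 := by
      field_simp
    rw [e1, eD, e2] at key
    have hZT : 0 < (Z / T) ^ 2 := by positivity
    have k6 := (le_div_iff₀ hZT).2 key
    refine k6.trans (le_of_eq ?_)
    field_simp
  -- together
  have hlk : 0 ≤ Real.log κ := Real.log_nonneg h.k1
  have hlk' : 0 ≤ Real.log κ' := Real.log_nonneg h.k1'
  have u1 : (wk (q - 1) - wk q) ^ 2 ≤ κ / p * (p * (wk (q - 1) * wk q)) := by
    have e : κ / p * (p * (wk (q - 1) * wk q)) = κ * (wk (q - 1) * wk q) := by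
      field_simp
    rw [e]
    have k1 : wk (q - 1) * wk (q - 1) ≤ wk (q - 1) * (κ * wk q) := mul_le_mul_of_nonneg_left h.wl w1.le
    have k2 : wk q * wk q ≤ wk q * (κ * wk (q - 1)) := mul_le_mul_of_nonneg_left h.wr w2.le
    rcases le_total (wk q) (wk (q - 1)) with hc | hc
    · have k3 : (wk (q - 1) - wk q) ^ 2 ≤ wk (q - 1) ^ 2 := pow_le_pow_left₀ (by linarith) (by linarith) 2
      have k4 : wk (q - 1) ^ 2 = wk (q - 1) * wk (q - 1) := by ring
      have k5 : wk (q - 1) * (κ * wk q) = κ * (wk (q - 1) * wk q) := by ring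
      linarith
    · have k3 : (wk q - wk (q - 1)) ^ 2 ≤ wk q ^ 2 := pow_le_pow_left₀ (by linarith) (by linarith) 2
      have k4 : wk q ^ 2 = wk q * wk q := by ring
      have k5 : wk q * (κ * wk (q - 1)) = κ * (wk (q - 1) * wk q) := by ring
      have k6 : (wk (q - 1) - wk q) ^ 2 = (wk q - wk (q - 1)) ^ 2 := by ring
      linarith
  have u2 : (f q - f (q - 1)) ^ 2 ≤ (max 1 (1 / p)) ^ 2 * G ^ 2 := by
    have hM1 : 1 ≤ max 1 (1 / p) := le_max_left _ _
    have hM2 : 1 / p ≤ max 1 (1 / p) := le_max_right _ _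
    have hpf : 0 ≤ p * f q := by positivity
    have k1 : f (q - 1) ≤ max 1 (1 / p) * G := by
      have : 1 * G ≤ max 1 (1 / p) * G := mul_le_mul_of_nonneg_right hM1 hG0.le
      have : f (q - 1) ≤ G := by rw [hG]; linarith
      linarith
    have k2 : f q ≤ max 1 (1 / p) * G := by
      have a1 : 1 / p * G ≤ max 1 (1 / p) * G := mul_le_mul_of_nonneg_right hM2 hG0.le
      have a2 : f q ≤ 1 / p * G := by
        rw [hG, mul_add]
        have e : 1 / p * (p * f q) = f q := by field_simp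
        rw [e]
        have : 0 ≤ 1 / p * f (q - 1) := by positivity
        linarith
      linarith
    have k3 : |f q - f (q - 1)| ≤ max 1 (1 / p) * G := by
      rw [abs_le]
      constructor
      · linarith
      · linarith
    have k4 := pow_le_pow_left₀ (abs_nonneg _) k3 2
    rw [sq_abs, mul_pow] at k4
    exact k4
  have hrD : 0 ≤ r * (ml (q - 1) * mr q - ml q * mr (q - 1)) := mul_nonneg hr.le hD
  have t1 : 4 * (1 + 2 * Real.log κ) * ((r * (ml (q - 1) * mr q - ml q * mr (q - 1))) * (G / Z) ^ 2 * (wk (q - 1) - wk q) ^ 2) ≤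
      4 * (1 + 2 * Real.log κ) * ((r * (ml (q - 1) * mr q - ml q * mr (q - 1))) * (G / Z) ^ 2 *
        (κ / p * (p * (wk (q - 1) * wk q)))) := by
    refine mul_le_mul_of_nonneg_left (mul_le_mul_of_nonneg_left u1 (by positivity)) (by positivity)
  have t2 : 4 * (1 + Real.log κ') * ((r * (ml (q - 1) * mr q - ml q * mr (q - 1))) * (p * (wk (q - 1) * wk q)) *
        ((f q - f (q - 1)) / Z) ^ 2) ≤
      4 * (1 + Real.log κ') * ((r * (ml (q - 1) * mr q - ml q * mr (q - 1))) * (p * (wk (q - 1) * wk q)) *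
        ((max 1 (1 / p)) ^ 2 * G ^ 2 / Z ^ 2)) := by
    refine mul_le_mul_of_nonneg_left (mul_le_mul_of_nonneg_left ?_ (by positivity)) (by positivity)
    rw [div_pow]
    exact div_le_div_of_nonneg_right u2 (by positivity)
  unfold ct
  refine (abs_sub _ _).trans ?_
  unfold Kl dw
  rw [← hG]
  refine (add_le_add (gain.trans t1) (loss.trans t2)).trans (le_of_eq ?_)
  rw [div_pow]
  ring

end

end Pool.Agent.W_7d29a1_C1.L91
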