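import Pool.Agent.W_7d29a1_C1.LocP56

/-!
MP_7d29a1_pr, the attractor route: LOC (helper56). From the neighbours (`Nbr56`): for all contexts of the scale `n`, the contact
functionals are at most `n ^ ε` times the weights up to a wild part of total mean at most `n ^ (-A)`, and they sit at the balance point.
-/

set_option autoImplicit false

namespace Pool.Agent.W_7d29a1_C1.H56

open Finset MeasureTheory Filter Topology
open Pool.Agent.W_7d29a1_F Pool.Agent.W_7d29a1_h4g Pool.Agent.W_7d29a1_H Pool.Agent.W_7d29a1_HS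
open Pool.Agent.W_7d29a1_h47 (EM Mom)
open Pool.Agent.W_7d29a1_C1.K91 (wt wt_pos)
open Pool.Agent.W_7d29a1_C1.K91P
open Pool.Agent.W_7d29a1_C1.L91
open Pool.Agent.W_7d29a1_C1.H60

noncomputable section

/-! ### Bounds of the numbers of a context -/

/-- The numbers of a context at the scale `n`, horizon `m`. -/
structure Bd (μ : Measure ℝ) (s c κ : ℝ) (n m : ℕ) (Γ : Cx) : Prop where
  hs : Γ.s = s
  h1 : |Γ.h| ≤ 1
  nm : n ≤ m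
  mn : (m : ℝ) ≤ (n : ℝ) ^ (1 + c)
  m16 : 16 ≤ m
  M : Γ.M ≤ m
  N : Γ.N ≤ 4 * m ^ 3
  k : Γ.k ≤ m ^ 2
  t : |Γ.h| * EE μ s m ≤ (m : ℝ) ^ κ

variable {μ : Measure ℝ} {s c κ : ℝ} {n m : ℕ} {Γ : Cx}

theorem Bd.hi (h : Bd μ s c κ n m Γ) : Γ.hi + 1 ≤ (m : ℤ) ^ 4 := by
  have h0 := h.m16
  have h1 := h.N
  have h2 := h.k
  have h3 : Γ.k + Γ.N + 1 ≤ m ^ 4 := by
    have e1 : m ^ 4 = m * m ^ 3 := by ring
    have e2 : m ^ 3 = m * m ^ 2 := by ring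
    have e3 : 1 ≤ m ^ 2 := Nat.one_le_pow _ _ (by omega)
    have e4 : 16 * m ^ 3 ≤ m ^ 4 := by rw [e1]; exact Nat.mul_le_mul_right _ h0
    have e5 : 16 * m ^ 2 ≤ m ^ 3 := by rw [e2]; exact Nat.mul_le_mul_right _ h0
    omega
  unfold Cx.hi
  exact_mod_cast h3

theorem Bd.cd_le (h : Bd μ s c κ n m Γ) : cd Γ ≤ (m : ℝ) ^ 8 := by
  have h0 := h.m16
  have h1 := h.N
  have h2 := h.k
  have e1 : m ^ 4 = m * m ^ 3 := by ring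
  have e2 : m ^ 3 = m * m ^ 2 := by ring
  have e3 : 1 ≤ m ^ 2 := Nat.one_le_pow _ _ (by omega)
  have e4 : 16 * m ^ 3 ≤ m ^ 4 := by rw [e1]; exact Nat.mul_le_mul_right _ h0
  have e5 : 16 * m ^ 2 ≤ m ^ 3 := by rw [e2]; exact Nat.mul_le_mul_right _ h0
  have a1 : Γ.N + 1 ≤ m ^ 4 := by omega
  have a2 : Γ.k + 2 * Γ.N + 2 ≤ m ^ 4 := by omega
  have a3 : (Γ.N + 1) * (Γ.k + 2 * Γ.N + 2) ≤ m ^ 4 * m ^ 4 := Nat.mul_le_mul a1 a2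
  have a4 : (((Γ.N + 1) * (Γ.k + 2 * Γ.N + 2) : ℕ) : ℝ) ≤ ((m ^ 4 * m ^ 4 : ℕ) : ℝ) := by exact_mod_cast a3
  rw [cd_eq]
  push_cast at a4
  refine a4.trans (le_of_eq ?_)
  ring

theorem Bd.N4 (h : Bd μ s c κ n m Γ) : Γ.N + 1 ≤ m ^ 4 := by
  have h0 := h.m16
  have h1 := h.N
  have e1 : m ^ 4 = m * m ^ 3 := by ring
  have e3 : 1 ≤ m ^ 3 := Nat.one_le_pow _ _ (by omega)
  have e4 : 16 * m ^ 3 ≤ m ^ 4 := by rw [e1]; exact Nat.mul_le_mul_right _ h0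
  omega

theorem Bd.card (h : Bd μ s c κ n m Γ) : ((Γ.rows 0 Γ.N).card : ℝ) ≤ (m : ℝ) ^ 8 := by
  have h1 := h.N4
  have e : (Γ.rows 0 Γ.N).card = Γ.N * (Γ.N + 1) := by
    unfold Cx.rows
    rw [card_product, Nat.card_Ico, Int.card_Icc]
    congr 1
    omega
  rw [e]
  have h2 : Γ.N * (Γ.N + 1) ≤ m ^ 4 * m ^ 4 := Nat.mul_le_mul (by omega) h1
  have h3 : ((Γ.N * (Γ.N + 1) : ℕ) : ℝ) ≤ ((m ^ 4 * m ^ 4 : ℕ) : ℝ) := by exact_mod_cast h2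
  refine h3.trans (le_of_eq ?_)
  push_cast
  ring

theorem Bd.p_le (h : Bd μ s c κ n m Γ) (i : ℕ) : Γ.p i ≤ Real.exp (|s| + 1) := by
  refine (Cx.p_le Γ i).trans (Real.exp_le_exp.2 ?_)
  rw [h.hs]
  linarith [h.h1]

theorem Bd.le_p (h : Bd μ s c κ n m Γ) (i : ℕ) : 1 / Γ.p i ≤ Real.exp (|s| + 1) := by
  have h1 : Real.exp (-(|s| + 1)) ≤ Γ.p i := by
    have h2 := neg_abs_le s
    have h3 := neg_abs_le Γ.h
    have h4 := h.h1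
    unfold Cx.p
    rw [h.hs]
    split_ifs
    · exact Real.exp_le_exp.2 (by linarith)
    · exact Real.exp_le_exp.2 (by linarith)
  rw [div_le_iff₀ (L91.p_pos i)]
  have h5 := mul_le_mul_of_nonneg_left h1 (Real.exp_pos (|s| + 1)).le
  rw [← Real.exp_add] at h5
  simpa using h5

theorem Bd.mx_le (h : Bd μ s c κ n m Γ) (i : ℕ) : max 1 (1 / Γ.p i) ≤ Real.exp (|s| + 1) :=
  max_le (Real.one_le_exp (by positivity)) (h.le_p i)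

theorem Bd.K1 (h : Bd μ s c κ n m Γ) (i : ℕ) : Γ.p i * (max 1 (1 / Γ.p i)) ^ 2 ≤ Real.exp (|s| + 1) ^ 3 := by
  have h1 := h.p_le i
  have h2 := h.mx_le i
  have h3 : (max 1 (1 / Γ.p i)) ^ 2 ≤ Real.exp (|s| + 1) ^ 2 := pow_le_pow_left₀ (le_trans zero_le_one (le_max_left _ _)) h2 2
  calc Γ.p i * (max 1 (1 / Γ.p i)) ^ 2 ≤ Real.exp (|s| + 1) * Real.exp (|s| + 1) ^ 2 :=
        mul_le_mul h1 h3 (by positivity) (Real.exp_pos _).le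
    _ = _ := by ring

/-- The neighbours: from the event of `Nbr56`. -/
theorem Bd.nbs (h : Bd μ s c κ n m Γ) {dl b : ℝ} (hb : (m : ℝ) ^ dl ≤ b) :
    {η : Env | ¬ NB Γ b η} ⊆ {η | ∃ i j : ℕ, i + j ≤ 4 * m ^ 3 ∧ ∃ y : ℤ, |y| ≤ (m : ℤ) ^ 4 ∧
      (m : ℝ) ^ dl < |Real.log (bw (wt η) (pN s Γ.h Γ.M) i j y) - Real.log (bw (wt η) (pN s Γ.h Γ.M) i j (y - 1))|} := by
  intro η hη
  have hp : Γ.p = pN s Γ.h Γ.M := by
    funext i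
    unfold Cx.p pN
    rw [h.hs]
  have h1 : ¬ NB Γ b η := hη
  unfold NB at h1
  push Not at h1
  obtain ⟨i, j, h2, y, h3, h4, h5⟩ := h1
  rw [hp] at h5
  refine ⟨i, j, h2.trans h.N, y, ?_, hb.trans_lt h5⟩
  rw [abs_of_nonneg h3]
  exact h4.trans h.hi

/-- The constant of the size. -/
theorem Bd.K (h : Bd μ s c κ n m Γ) {ε : ℝ} (hε : 0 < ε) (hn : 1 ≤ n) (h60 : 60 * Real.exp (|s| + 1) ^ 2 ≤ (n : ℝ) ^ (ε / 2)) (i : ℕ) :
    (2 + 3 * (n : ℝ) ^ (ε / 8)) * KC Γ i (ε / 12 * Real.log n) ((n : ℝ) ^ (ε / 8)) ≤ (n : ℝ) ^ ε := by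
  have n0 : (0 : ℝ) < n := by exact_mod_cast hn
  have n1 : (1 : ℝ) ≤ n := by exact_mod_cast hn
  obtain ⟨b, hb⟩ : ∃ b : ℝ, b = (n : ℝ) ^ (ε / 8) := ⟨_, rfl⟩
  obtain ⟨u, hu⟩ : ∃ u : ℝ, u = ε / 12 * Real.log n := ⟨_, rfl⟩
  obtain ⟨P, hP⟩ : ∃ P : ℝ, P = Real.exp (|s| + 1) := ⟨_, rfl⟩
  rw [← hP] at h60
  rw [← hb, ← hu]
  have b1 : 1 ≤ b := by
    rw [hb]
    exact Real.one_le_rpow n1 (by positivity)
  have u0 : 0 ≤ u := by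
    rw [hu]
    have := Real.log_nonneg n1
    positivity
  have P1 : 1 ≤ P := by
    rw [hP]
    exact Real.one_le_exp (by positivity)
  have q1 := h.le_p i
  have q2 := h.mx_le i
  rw [← hP] at q1 q2
  have e1 : 1 + 2 * u ≤ Real.exp (2 * u) := by
    have := Real.add_one_le_exp (2 * u)
    linarith
  have e0 : 0 < Real.exp u := Real.exp_pos u
  have e2 : (1 + 2 * u) * Real.exp u ≤ Real.exp (3 * u) := by
    have h1 := mul_le_mul_of_nonneg_right e1 e0.le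
    rw [← Real.exp_add] at h1
    refine h1.trans (le_of_eq ?_)
    ring_nf
  have e3 : 1 ≤ Real.exp (3 * u) := Real.one_le_exp (by linarith)
  have k1 : KC Γ i u b ≤ 12 * P ^ 2 * (b * Real.exp (3 * u)) := by
    unfold KC Kl
    rw [Real.log_exp, Real.log_exp]
    have a1 : 4 * (1 + 2 * u) * (Real.exp u / Γ.p i) ≤ 4 * Real.exp (3 * u) * P := by
      have e : 4 * (1 + 2 * u) * (Real.exp u / Γ.p i) = 4 * ((1 + 2 * u) * Real.exp u) * (1 / Γ.p i) := by ring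
      rw [e]
      exact mul_le_mul (by linarith) q1 (by
        have := L91.p_pos (Γ := Γ) i
        positivity) (by positivity)
    have a2 : 4 * (1 + b) * (max 1 (1 / Γ.p i)) ^ 2 ≤ 4 * (1 + b) * P ^ 2 :=
      mul_le_mul_of_nonneg_left (pow_le_pow_left₀ (le_trans zero_le_one (le_max_left _ _)) q2 2) (by positivity)
    have a3 : 4 * Real.exp (3 * u) * P ≤ 4 * P ^ 2 * (b * Real.exp (3 * u)) := by
      have : P * Real.exp (3 * u) ≤ P ^ 2 * (b * Real.exp (3 * u)) := by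
        have h1 : P ≤ P ^ 2 := by nlinarith
        have h2 : Real.exp (3 * u) ≤ b * Real.exp (3 * u) := by nlinarith [Real.exp_pos (3 * u)]
        exact mul_le_mul h1 h2 (Real.exp_pos _).le (by positivity)
      linarith
    have a4 : 4 * (1 + b) * P ^ 2 ≤ 8 * P ^ 2 * (b * Real.exp (3 * u)) := by
      have h1 : 1 + b ≤ 2 * (b * Real.exp (3 * u)) := by nlinarith
      have h2 := mul_le_mul_of_nonneg_left h1 (show 0 ≤ 4 * P ^ 2 by positivity)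
      linarith
    linarith
  have k0 : 0 ≤ KC Γ i u b := KC_nonneg i u0 (by linarith)
  have k2 : (2 + 3 * b) * KC Γ i u b ≤ (5 * b) * (12 * P ^ 2 * (b * Real.exp (3 * u))) :=
    mul_le_mul (by linarith) k1 k0 (by positivity)
  refine k2.trans ?_
  have f1 : Real.exp (3 * u) = (n : ℝ) ^ (ε / 4) := by
    rw [hu, Real.rpow_def_of_pos n0]
    congr 1
    ring
  have f2 : b * b * Real.exp (3 * u) = (n : ℝ) ^ (ε / 2) := by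
    rw [f1, hb, ← Real.rpow_add n0, ← Real.rpow_add n0]
    congr 1
    ring
  have f3 : (n : ℝ) ^ (ε / 2) * (n : ℝ) ^ (ε / 2) = (n : ℝ) ^ ε := by
    rw [← Real.rpow_add n0]
    congr 1
    ring
  calc (5 * b) * (12 * P ^ 2 * (b * Real.exp (3 * u))) = 60 * P ^ 2 * (b * b * Real.exp (3 * u)) := by ring
    _ = 60 * P ^ 2 * (n : ℝ) ^ (ε / 2) := by rw [f2]
    _ ≤ (n : ℝ) ^ (ε / 2) * (n : ℝ) ^ (ε / 2) := mul_le_mul_of_nonneg_right h60 (by positivity)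
    _ = _ := f3

/-- The constant of the moments. -/
def C56 (μ : Measure ℝ) (s : ℝ) : ℝ :=
  648 * (Real.exp (|s| + 1) ^ 3) ^ 2 * (8 * ((1 + Real.log (1 + Real.exp (|s| + 1))) ^ 4 + 16 * Mom μ 4) + 2 * Mom μ 24)

theorem C56_nonneg : 0 ≤ C56 μ s := by
  have h1 : 0 ≤ Mom μ 4 := Mom_nonneg 4
  have h2 : 0 ≤ Mom μ 24 := Mom_nonneg 24
  unfold C56
  positivity

theorem Bd.mom (h : Bd μ s c κ n m Γ) : 648 * (Real.exp (|s| + 1) ^ 3) ^ 2 *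
    (8 * ((1 + Γ.N * Real.log (1 + Real.exp (|s| + 1))) ^ 4 + 16 * Γ.N ^ 4 * (cd Γ ^ 4 * Mom μ 4)) + 2 * Mom μ 24) ≤
    C56 μ s * (m : ℝ) ^ 48 := by
  have m4 : 0 ≤ Mom μ 4 := Mom_nonneg 4
  have m24 : 0 ≤ Mom μ 24 := Mom_nonneg 24
  obtain ⟨P, hP⟩ : ∃ P : ℝ, P = Real.exp (|s| + 1) := ⟨_, rfl⟩
  obtain ⟨l, hl⟩ : ∃ l : ℝ, l = Real.log (1 + P) := ⟨_, rfl⟩
  have l0 : 0 ≤ l := by
    rw [hl, hP]
    exact Real.log_nonneg (by linarith [Real.exp_pos (|s| + 1)])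
  unfold C56
  rw [← hP, ← hl]
  have x1 : (1 : ℝ) ≤ m := by
    have := h.m16
    exact_mod_cast (by omega : 1 ≤ m)
  have N4 : ((Γ.N : ℕ) : ℝ) + 1 ≤ (m : ℝ) ^ 4 := by
    have := h.N4
    exact_mod_cast this
  have N0 : (0 : ℝ) ≤ Γ.N := Nat.cast_nonneg _
  have c0 : 0 ≤ cd Γ := by
    rw [cd_eq]
    positivity
  have a1 : (1 + Γ.N * l) ^ 4 ≤ (1 + l) ^ 4 * (m : ℝ) ^ 48 := by
    have h1 : 1 + Γ.N * l ≤ (1 + l) * (m : ℝ) ^ 4 := by nlinarith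
    have h2 : (1 + Γ.N * l) ^ 4 ≤ ((1 + l) * (m : ℝ) ^ 4) ^ 4 := pow_le_pow_left₀ (by positivity) h1 4
    have h3 : ((1 + l) * (m : ℝ) ^ 4) ^ 4 = (1 + l) ^ 4 * (m : ℝ) ^ 16 := by ring
    have h4 : (m : ℝ) ^ 16 ≤ (m : ℝ) ^ 48 := pow_le_pow_right₀ x1 (by norm_num)
    rw [h3] at h2
    exact h2.trans (mul_le_mul_of_nonneg_left h4 (by positivity))
  have a2 : (Γ.N : ℝ) ^ 4 * (cd Γ ^ 4 * Mom μ 4) ≤ Mom μ 4 * (m : ℝ) ^ 48 := by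
    have h1 : (Γ.N : ℝ) ^ 4 ≤ ((m : ℝ) ^ 4) ^ 4 := pow_le_pow_left₀ N0 (by linarith) 4
    have h2 : cd Γ ^ 4 ≤ ((m : ℝ) ^ 8) ^ 4 := pow_le_pow_left₀ c0 h.cd_le 4
    have h3 := mul_le_mul h1 h2 (by positivity) (by positivity)
    have h4 := mul_le_mul_of_nonneg_right h3 m4
    have e : ((m : ℝ) ^ 4) ^ 4 * ((m : ℝ) ^ 8) ^ 4 * Mom μ 4 = Mom μ 4 * (m : ℝ) ^ 48 := by ring
    rw [e] at h4
    refine le_trans (le_of_eq ?_) h4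
    ring
  have a3 : 2 * Mom μ 24 ≤ 2 * Mom μ 24 * (m : ℝ) ^ 48 := by
    have h1 : (1 : ℝ) ≤ (m : ℝ) ^ 48 := one_le_pow₀ x1
    nlinarith
  have a4 : 8 * ((1 + Γ.N * l) ^ 4 + 16 * Γ.N ^ 4 * (cd Γ ^ 4 * Mom μ 4)) + 2 * Mom μ 24 ≤
      (8 * ((1 + l) ^ 4 + 16 * Mom μ 4) + 2 * Mom μ 24) * (m : ℝ) ^ 48 := by
    have e : 16 * (Γ.N : ℝ) ^ 4 * (cd Γ ^ 4 * Mom μ 4) = 16 * ((Γ.N : ℝ) ^ 4 * (cd Γ ^ 4 * Mom μ 4)) := by ring
    rw [e]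
    linarith
  have a5 := mul_le_mul_of_nonneg_left a4 (show 0 ≤ 648 * (P ^ 3) ^ 2 by positivity)
  refine a5.trans (le_of_eq ?_)
  ring

/-! ### The horizon -/

theorem Bd.of_adm [IsProbabilityMeasure μ] {δ : ℝ} (h : Adm μ s c δ κ n Γ) (hδ0 : 0 ≤ δ) (hδ1 : δ ≤ 1) (hn : 16 ≤ n)
    (hw : wd μ s n ≤ n) : ∃ m, Bd μ s c κ n m Γ := by
  obtain ⟨m, L, h1, h2, h3, h4, h5, h6, h7, h8⟩ := h.hor
  have n1 : (1 : ℝ) ≤ n := by exact_mod_cast (by omega : 1 ≤ n)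
  refine ⟨m, ⟨h.hs, ?_, h1, h2, by omega, h5, ?_, ?_, h8⟩⟩
  · have e1 := one_le_EE (μ := μ) (s := s) n
    have e2 : (n : ℝ) ^ (-(2 * δ)) ≤ 1 := Real.rpow_le_one_of_one_le_of_nonpos n1 (by linarith)
    have e3 : |Γ.h| * 1 ≤ |Γ.h| * EE μ s n := mul_le_mul_of_nonneg_left e1 (abs_nonneg _)
    linarith
  · have e2 : m ≤ m ^ 3 := Nat.le_self_pow (by norm_num) m
    have e3 : 1 ≤ m ^ 3 := Nat.one_le_pow _ _ (by omega)
    omega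
  · have e1 : (Γ.k : ℝ) ≤ (n : ℝ) * n := by
      refine h.k2.trans ?_
      have e2 : (n : ℝ) ^ δ ≤ (n : ℝ) ^ (1 : ℝ) := Real.rpow_le_rpow_of_exponent_le n1 hδ1
      rw [Real.rpow_one] at e2
      have e3 : (0 : ℝ) ≤ (n : ℝ) ^ δ := by positivity
      calc (n : ℝ) ^ δ * wd μ s n ≤ (n : ℝ) ^ δ * n := mul_le_mul_of_nonneg_left hw e3
        _ ≤ _ := mul_le_mul_of_nonneg_right e2 (by linarith)
    have e4 : Γ.k ≤ n * n := by exact_mod_cast e1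
    calc Γ.k ≤ n * n := e4
      _ ≤ m * m := Nat.mul_le_mul h1 h1
      _ = m ^ 2 := by ring

/-! ### The numbers -/

/-- The width is at most `n`. -/
theorem wd_le56 {c₀ C₀ : ℝ} {n₀ : ℕ} (h : In μ s c₀ C₀ n₀) : ∀ᶠ n : ℕ in atTop, wd μ s n ≤ n := by
  filter_upwards [h.tv.eventually (Iio_mem_nhds (show (0 : ℝ) < 1 from one_pos))] with n h1
  have hn : (0 : ℝ) ≤ n := Nat.cast_nonneg n
  calc wd μ s n = n * vA 1 μ s n := rfl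
    _ ≤ n * 1 := mul_le_mul_of_nonneg_left h1.le hn
    _ = n := mul_one _

theorem ev_exp (q : ℕ) {c' : ℝ} (hc : 0 < c') : ∀ᶠ m : ℕ in atTop, (m : ℝ) ^ q * Real.exp (-(m : ℝ) ^ c') ≤ 1 / 3 := by
  have h1 : Tendsto (fun x : ℝ => x ^ ((q : ℝ) / c') * Real.exp (-x)) atTop (𝓝 0) := by
    have := tendsto_rpow_mul_exp_neg_mul_atTop_nhds_zero ((q : ℝ) / c') 1 one_pos
    simpa using this
  have h2 : Tendsto (fun m : ℕ => (m : ℝ) ^ c') atTop atTop := (tendsto_rpow_atTop hc).comp tendsto_natCast_atTop_atTop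
  have h3 := (h1.comp h2).eventually (Iic_mem_nhds (show (0 : ℝ) < 1 / 3 by norm_num))
  filter_upwards [h3, eventually_ge_atTop 1] with m hm hm1
  have m0 : (0 : ℝ) ≤ m := Nat.cast_nonneg m
  have e : ((m : ℝ) ^ c') ^ ((q : ℝ) / c') = (m : ℝ) ^ q := by
    rw [← Real.rpow_mul m0, mul_div_cancel₀ _ hc.ne', Real.rpow_natCast]
  have h4 : ((m : ℝ) ^ c') ^ ((q : ℝ) / c') * Real.exp (-(m : ℝ) ^ c') ≤ 1 / 3 := hm
  rw [e] at h4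
  exact h4

/-- **LOC**: the size of the contacts and their level. -/
theorem loc56 [IsProbabilityMeasure μ] {c₀ C₀ : ℝ} {n₀ : ℕ} (h : In μ s c₀ C₀ n₀) (hN : Nbr56 μ s) {ε : ℝ} (hε : 0 < ε) (hc : 0 < c) :
    ∃ κ₀ > (0 : ℝ), ∀ κ ≤ κ₀, ∀ δ : ℝ, 0 ≤ δ → δ ≤ 1 → ∀ A : ℝ, ∀ᶠ n : ℕ in atTop, ∀ Γ : Cx, Adm μ s c δ κ n Γ →
      ∃ R : ℕ × ℤ → Env → ℝ, (∀ d, Measurable (R d)) ∧ (∀ d η, 0 ≤ R d η) ∧
        (∀ d ∈ Γ.rows 0 Γ.N, Integrable (R d) (law μ)) ∧ (∑ d ∈ Γ.rows 0 Γ.N, ∫ η, R d η ∂(law μ) ≤ (n : ℝ) ^ (-A)) ∧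
        ∀ d ∈ Γ.rows 0 Γ.N, ∀ η, |Γ.C d η| ≤ (n : ℝ) ^ ε * Γ.ws d η + R d η ∧
          A56 Γ d η ≤ (n : ℝ) ^ ε * Γ.ws d η + R d η ∧
          ∀ g : ℝ → ℝ, Measurable g → ∀ L : ℝ, 0 ≤ L → (∀ x y, |g x - g y| ≤ L * |x - y|) → ∀ a0 : ℝ,
            Integrable (fun a => g (a - a0) * Γ.ct η d a) ∧
            |(∫ a, g (a - a0) * Γ.ct η d a) - g (Γ.B η - a0) * Γ.C d η| ≤ L * ((n : ℝ) ^ ε * Γ.ws d η + R d η) := by
  have hμ := h.em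
  have c1 : 0 < 1 + c := by linarith
  obtain ⟨κ₀, hκ₀, c', hc', hE⟩ := hN (ε / (8 * (1 + c))) (by positivity)
  refine ⟨κ₀, hκ₀, fun κ hκ δ hδ0 hδ1 A => ?_⟩
  obtain ⟨P, hP⟩ : ∃ P : ℝ, P = Real.exp (|s| + 1) := ⟨_, rfl⟩
  obtain ⟨q, hq⟩ : ∃ q : ℕ, q = ⌈A⌉₊ := ⟨_, rfl⟩
  have hqA : A ≤ q := by
    rw [hq]
    exact Nat.le_ceil A
  obtain ⟨t, ht⟩ : ∃ t : ℝ, t = ((1 + c) * (65 + q) + q + 1) * (24 / ε) := ⟨_, rfl⟩
  have t0 : 0 < t := by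
    rw [ht]
    positivity
  have P1 : 1 ≤ P := by
    rw [hP]
    exact Real.one_le_exp (by positivity)
  -- large horizons
  have evm : ∀ᶠ m : ℕ in atTop, (m : ℝ) ^ (65 + 2 * q) * Real.exp (-(m : ℝ) ^ c') ≤ 1 / 3 ∧ 3 * C56 μ s ≤ (m : ℝ) ∧
      ∀ M : ℕ, M ≤ m → ∀ h : ℝ, |h| * EE μ s m ≤ (m : ℝ) ^ κ₀ →
        (law μ).real {η | ∃ i j : ℕ, i + j ≤ 4 * m ^ 3 ∧ ∃ y : ℤ, |y| ≤ (m : ℤ) ^ 4 ∧
          (m : ℝ) ^ (ε / (8 * (1 + c))) < |Real.log (bw (wt η) (pN s h M) i j y) - Real.log (bw (wt η) (pN s h M) i j (y - 1))|} ≤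
          Real.exp (-(m : ℝ) ^ c') := by
    filter_upwards [ev_exp (65 + 2 * q) hc', tendsto_natCast_atTop_atTop.eventually_ge_atTop (3 * C56 μ s), hE] with m h1 h2 h3
    exact ⟨h1, h2, h3⟩
  obtain ⟨m₀, hm₀⟩ := eventually_atTop.1 evm
  have evn : ∀ᶠ n : ℕ in atTop, 6 * Mom μ t ≤ (n : ℝ) := tendsto_natCast_atTop_atTop.eventually_ge_atTop _
  have ev60 : ∀ᶠ n : ℕ in atTop, 60 * Real.exp (|s| + 1) ^ 2 ≤ (n : ℝ) ^ (ε / 2) :=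
    ((tendsto_rpow_atTop (by positivity)).comp tendsto_natCast_atTop_atTop).eventually_ge_atTop _
  filter_upwards [evn, ev60, wd_le56 h, eventually_ge_atTop m₀, eventually_ge_atTop 16] with n h6 h60 hw hn0 hn16 Γ hΓ
  obtain ⟨m, B⟩ := Bd.of_adm hΓ hδ0 hδ1 hn16 hw
  have hok : Γ.Ok := hΓ.ok
  have n1' : 1 ≤ n := by omega
  have n0 : (0 : ℝ) < n := by exact_mod_cast n1'
  have n1 : (1 : ℝ) ≤ n := by exact_mod_cast n1'
  have mn : (n : ℝ) ≤ m := by exact_mod_cast B.nm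
  have x1 : (1 : ℝ) ≤ m := n1.trans mn
  have x0 : (0 : ℝ) < m := by linarith
  obtain ⟨g1, g2, g3⟩ := hm₀ m (hn0.trans B.nm)
  obtain ⟨b, hb⟩ : ∃ b : ℝ, b = (n : ℝ) ^ (ε / 8) := ⟨_, rfl⟩
  obtain ⟨u, hu⟩ : ∃ u : ℝ, u = ε / 12 * Real.log n := ⟨_, rfl⟩
  have b1 : 1 ≤ b := by
    rw [hb]
    exact Real.one_le_rpow n1 (by positivity)
  have u0 : 0 ≤ u := by
    rw [hu]
    have := Real.log_nonneg n1
    positivity
  have hP0 : 0 ≤ P := by linarith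
  have hPp : ∀ i, i < Γ.N → Γ.p i ≤ P := fun i _ => by
    rw [hP]
    exact B.p_le i
  have hK : ∀ i, (2 + 3 * b) * KC Γ i u b ≤ (n : ℝ) ^ ε := fun i => by
    rw [hb, hu]
    exact B.K hε n1' h60 i
  have hmb : (m : ℝ) ^ (ε / (8 * (1 + c))) ≤ b := by
    have h1 : (m : ℝ) ^ (ε / (8 * (1 + c))) ≤ ((n : ℝ) ^ (1 + c)) ^ (ε / (8 * (1 + c))) :=
      Real.rpow_le_rpow x0.le B.mn (by positivity)
    refine h1.trans (le_of_eq ?_)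
    rw [← Real.rpow_mul n0.le, hb]
    congr 1
    field_simp
  -- the neighbours
  have hNB : (law μ).real {η | ¬ NB Γ b η} ≤ Real.exp (-(m : ℝ) ^ c') := by
    refine (measureReal_mono (B.nbs hmb) (measure_ne_top _ _)).trans (g3 Γ.M B.M Γ.h ?_)
    exact B.t.trans (Real.rpow_le_rpow_of_exponent_le x1 hκ)
  -- the choice of the truncation
  obtain ⟨T, hT⟩ : ∃ T : ℝ, T = (m : ℝ) ^ (57 + q) := ⟨_, rfl⟩
  have T0 : 0 < T := by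
    rw [hT]
    positivity
  have one : ∀ d ∈ Γ.rows 0 Γ.N, ∫ η, Rw Γ P u b d η ∂(law μ) ≤
      T * (2 * (Real.exp (-(t * (u / 2))) * Mom μ t) + Real.exp (-(m : ℝ) ^ c')) + C56 μ s * (m : ℝ) ^ 48 / T := by
    intro d hd
    have k1 := (int_Rw (Γ := Γ) hμ hP0 (c := d) (K1 := P ^ 3) (one_le_pow₀ P1) (by rw [hP]; exact B.K1 d.1) T0 t0 u b).2
    refine k1.trans (add_le_add (mul_le_mul_of_nonneg_left (add_le_add le_rfl hNB) T0.le) ?_)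
    have k2 := B.mom
    rw [← hP] at k2
    have k3 := div_le_div_of_nonneg_right k2 T0.le
    refine le_trans (le_of_eq ?_) k3
    ring
  have hsum : ∑ d ∈ Γ.rows 0 Γ.N, ∫ η, Rw Γ P u b d η ∂(law μ) ≤ (n : ℝ) ^ (-A) := by
    have s1 : ∑ d ∈ Γ.rows 0 Γ.N, ∫ η, Rw Γ P u b d η ∂(law μ) ≤ (Γ.rows 0 Γ.N).card *
        (T * (2 * (Real.exp (-(t * (u / 2))) * Mom μ t) + Real.exp (-(m : ℝ) ^ c')) + C56 μ s * (m : ℝ) ^ 48 / T) := by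
      refine (sum_le_sum one).trans (le_of_eq ?_)
      rw [sum_const, nsmul_eq_mul]
    have mt : 0 ≤ Mom μ t := Mom_nonneg t
    have cc := C56_nonneg (μ := μ) (s := s)
    have s2 := s1.trans (mul_le_mul_of_nonneg_right B.card (by positivity))
    refine s2.trans ?_
    -- the three terms
    have f1 : Real.exp (-(t * (u / 2))) = (n : ℝ) ^ (-((1 + c) * (65 + q) + q + 1)) := by
      rw [Real.rpow_def_of_pos n0, hu, ht]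
      congr 1
      field_simp
      ring
    have f2 : (m : ℝ) ^ (65 + q) ≤ (n : ℝ) ^ ((1 + c) * (65 + q)) := by
      rw [Real.rpow_mul n0.le, ← Real.rpow_natCast]
      push_cast
      exact Real.rpow_le_rpow x0.le B.mn (by positivity)
    have nq : (0 : ℝ) < (n : ℝ) ^ (-(q : ℝ)) := by positivity
    have t1 : (m : ℝ) ^ (65 + q) * (2 * (Real.exp (-(t * (u / 2))) * Mom μ t)) ≤ 1 / 3 * (n : ℝ) ^ (-(q : ℝ)) := by
      rw [f1]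
      have e1 : (n : ℝ) ^ ((1 + c) * (65 + q)) * (n : ℝ) ^ (-((1 + c) * (65 + q) + q + 1)) = (n : ℝ) ^ (-(q : ℝ)) * (n : ℝ)⁻¹ := by
        rw [← Real.rpow_add n0, ← Real.rpow_neg_one, ← Real.rpow_add n0]
        congr 1
        ring
      have e2 : (m : ℝ) ^ (65 + q) * (2 * ((n : ℝ) ^ (-((1 + c) * (65 + q) + q + 1)) * Mom μ t)) ≤
          (n : ℝ) ^ ((1 + c) * (65 + q)) * (2 * ((n : ℝ) ^ (-((1 + c) * (65 + q) + q + 1)) * Mom μ t)) :=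
        mul_le_mul_of_nonneg_right f2 (by positivity)
      refine e2.trans ?_
      have e3 : (n : ℝ) ^ ((1 + c) * (65 + q)) * (2 * ((n : ℝ) ^ (-((1 + c) * (65 + q) + q + 1)) * Mom μ t)) =
          2 * Mom μ t * (n : ℝ)⁻¹ * (n : ℝ) ^ (-(q : ℝ)) := by
        rw [show (n : ℝ) ^ ((1 + c) * (65 + q)) * (2 * ((n : ℝ) ^ (-((1 + c) * (65 + q) + q + 1)) * Mom μ t)) =
          ((n : ℝ) ^ ((1 + c) * (65 + q)) * (n : ℝ) ^ (-((1 + c) * (65 + q) + q + 1))) * (2 * Mom μ t) by ring, e1]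
        ring
      rw [e3]
      refine mul_le_mul_of_nonneg_right ?_ nq.le
      rw [← div_eq_mul_inv, div_le_iff₀ n0]
      linarith
    have mq : (m : ℝ) ^ (-(q : ℝ)) ≤ (n : ℝ) ^ (-(q : ℝ)) :=
      Real.rpow_le_rpow_of_nonpos n0 mn (by
        have : (0 : ℝ) ≤ q := Nat.cast_nonneg q
        linarith)
    have mqe : (m : ℝ) ^ (-(q : ℝ)) * (m : ℝ) ^ q = 1 := by
      rw [← Real.rpow_natCast, ← Real.rpow_add x0]
      simp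
    have mq0 : (0 : ℝ) < (m : ℝ) ^ (-(q : ℝ)) := by positivity
    have t2 : (m : ℝ) ^ (65 + q) * Real.exp (-(m : ℝ) ^ c') ≤ 1 / 3 * (n : ℝ) ^ (-(q : ℝ)) := by
      have e1 : (m : ℝ) ^ (65 + q) * Real.exp (-(m : ℝ) ^ c') =
          (m : ℝ) ^ (-(q : ℝ)) * ((m : ℝ) ^ (65 + 2 * q) * Real.exp (-(m : ℝ) ^ c')) := by
        have e2 : (m : ℝ) ^ (65 + 2 * q) = (m : ℝ) ^ (65 + q) * (m : ℝ) ^ q := by ring
        rw [e2]
        calc (m : ℝ) ^ (65 + q) * Real.exp (-(m : ℝ) ^ c') = ((m : ℝ) ^ (-(q : ℝ)) * (m : ℝ) ^ q) *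
              ((m : ℝ) ^ (65 + q) * Real.exp (-(m : ℝ) ^ c')) := by rw [mqe, one_mul]
          _ = _ := by ring
      rw [e1, mul_comm]
      exact mul_le_mul g1 mq mq0.le (by norm_num)
    have t3 : (m : ℝ) ^ 8 * (C56 μ s * (m : ℝ) ^ 48 / T) ≤ 1 / 3 * (n : ℝ) ^ (-(q : ℝ)) := by
      have e1 : (m : ℝ) ^ 8 * (C56 μ s * (m : ℝ) ^ 48 / T) = C56 μ s / m * (m : ℝ) ^ (-(q : ℝ)) := by
        have e2 : T = (m : ℝ) ^ 56 * m * (m : ℝ) ^ q := by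
          rw [hT]
          ring
        have e3 : (m : ℝ) ^ (-(q : ℝ)) = ((m : ℝ) ^ q)⁻¹ := by
          rw [Real.rpow_neg x0.le, Real.rpow_natCast]
        rw [e2, e3]
        have := pow_pos x0 q
        field_simp
      rw [e1]
      refine mul_le_mul ?_ mq mq0.le (by norm_num)
      rw [div_le_iff₀ x0]
      linarith
    have e0 : (m : ℝ) ^ 8 * (T * (2 * (Real.exp (-(t * (u / 2))) * Mom μ t) + Real.exp (-(m : ℝ) ^ c')) + C56 μ s * (m : ℝ) ^ 48 / T) =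
        (m : ℝ) ^ (65 + q) * (2 * (Real.exp (-(t * (u / 2))) * Mom μ t)) + (m : ℝ) ^ (65 + q) * Real.exp (-(m : ℝ) ^ c') +
          (m : ℝ) ^ 8 * (C56 μ s * (m : ℝ) ^ 48 / T) := by
      have e2 : (m : ℝ) ^ (65 + q) = (m : ℝ) ^ 8 * T := by
        rw [hT]
        ring
      rw [e2]
      ring
    rw [e0]
    have e9 : (n : ℝ) ^ (-(q : ℝ)) ≤ (n : ℝ) ^ (-A) := Real.rpow_le_rpow_of_exponent_le n1 (by linarith)
    linarith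
  refine ⟨Rw Γ P u b, measurable_Rw Γ P u b, Rw_nonneg hP0 u b, fun d _ => ?_, hsum, fun d hd η => ?_⟩
  · exact (int_Rw (Γ := Γ) hμ hP0 (c := d) (K1 := P ^ 3) (one_le_pow₀ P1) (by rw [hP]; exact B.K1 d.1) T0 t0 u b).1
  · have a1 := A56_Rw hok hP0 hPp (by linarith) hd u0 (hK d.1) η
    refine ⟨(abs_C_A56 d η).trans a1, a1, fun g hg L hL0 hL a0 => ?_⟩
    exact loc_Rw hok hP0 hPp (by linarith) hd u0 (hK d.1) η hg hL0 hL a0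

end

end Pool.Agent.W_7d29a1_C1.H56
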