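import Pool.Agent.W_7d29a1_C1.AsmD8
import Pool.Agent.W_7d29a1_C1.LocQ56
import Pool.Agent.W_7d29a1_C1.NbrC78

/-!
MP_7d29a1_pr, attractor route (helper8): `LocP8` is a theorem (`loc56` of helper56, `nbr78` of helper78).
-/

set_option autoImplicit false

namespace Pool.Agent.W_7d29a1_C1.H8

open MeasureTheory Filter Topology
open Pool.Agent.W_7d29a1_F Pool.Agent.W_7d29a1_h4g Pool.Agent.W_7d29a1_H Pool.Agent.W_7d29a1_HS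
open Pool.Agent.W_7d29a1_C1.H54 (LMR54)
open Pool.Agent.W_7d29a1_C1.H60 (Cx Adm)
open Pool.Agent.W_7d29a1_C1.H56 (Nbr56 A56)

variable {μ : Measure ℝ} [IsProbabilityMeasure μ] {s : ℝ} {c C : ℝ} {n₀ : ℕ}

theorem locP8_of56 (h : In μ s c C n₀) (hN : Nbr56 μ s) : LocP8 μ s := by
  intro ε hε c' hc' _ δ hδ hδc
  obtain ⟨κ₀, hκ₀, H⟩ := H56.loc56 h hN hε hc'
  refine ⟨κ₀, hκ₀, fun κ _ hκ => ?_⟩
  filter_upwards [H κ hκ δ hδ.le (by linarith) 1] with n hn Γ hA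
  obtain ⟨R, -, hR0, iR, sR, hR⟩ := hn Γ hA
  exact ⟨R, hR0, iR, sR, fun b hb η => ⟨(hR b hb η).2.1, fun g gm L hL hg a0 => ((hR b hb η).2.2 g gm L hL hg a0).2⟩⟩

/-- **LOC is a theorem.** -/
theorem locP8 (h : In μ s c C n₀) (hL : ∀ ε : ℝ, 0 < ε → ∃ n₁ : ℕ, ∀ n : ℕ, n₁ ≤ n → wd μ s n ≤ (n : ℝ) ^ ε * EE μ s n ^ 2)
    (hU : ∀ ε : ℝ, 0 < ε → ∃ n₁ : ℕ, ∀ n : ℕ, n₁ ≤ n → EE μ s n ^ 2 ≤ (n : ℝ) ^ ε * wd μ s n) : LocP8 μ s :=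
  locP8_of56 h (Nbr78.nbr78 h hL hU)

end Pool.Agent.W_7d29a1_C1.H8
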