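import Pool.Agent.W_7d29a1_C1.Loc91

/-!
MP_7d29a1_pr, the attractor route: THE LEVEL INTEGRAL OF THE CONTACT FUNCTIONAL. (helper91)

`w = D / (Z_M Z_R)` is the weight of the contact, `B = log (Z_R / Z_M)` its level. The contact functional at the level `a` is at most
`K w` times the logistic density at `a - B`, so its integral is at most `K w`, and against a test function `g` with
`|g a - g B| ≤ L |a - B|` it is `g B` times the integral, up to `2 L K w`.
-/

set_option autoImplicit false

namespace Pool.Agent.W_7d29a1_C1.L91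

open Finset MeasureTheory K91 K97
open Filter Topology

noncomputable section

/-! ### The logistic density -/

/-- The logistic density. -/
def lg (u : ℝ) : ℝ := Real.exp (-u) / (1 + Real.exp (-u)) ^ 2

theorem lg_pos (u : ℝ) : 0 < lg u := by
  have h := Real.exp_pos (-u)
  unfold lg
  positivity

theorem lg_even (u : ℝ) : lg (-u) = lg u := by
  unfold lg
  rw [neg_neg, Real.exp_neg]
  have h := Real.exp_pos u
  field_simp
  ring

theorem lg_le (u : ℝ) : lg u ≤ Real.exp (-|u|) := by
  have key : ∀ u : ℝ, lg u ≤ Real.exp (-u) := by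
    intro u
    have h := Real.exp_pos (-u)
    unfold lg
    refine div_le_self h.le ?_
    have h1 : 1 ≤ 1 + Real.exp (-u) := by linarith
    exact one_le_pow₀ h1
  rcases le_total 0 u with h | h
  · rw [abs_of_nonneg h]
    exact key u
  · rw [abs_of_nonpos h, ← lg_even]
    exact key (-u)

theorem hasDerivAt_lg (u : ℝ) : HasDerivAt (fun u => (1 + Real.exp (-u))⁻¹) (lg u) u := by
  have h0 : (1 + Real.exp (-u)) ≠ 0 := by
    have := Real.exp_pos (-u)
    positivity
  have h1 : HasDerivAt (fun u : ℝ => 1 + Real.exp (-u)) (-Real.exp (-u)) u := by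
    have := ((hasDerivAt_neg u).exp).const_add 1
    simpa using this
  have h2 := h1.inv h0
  have e : lg u = -(-Real.exp (-u)) / (1 + Real.exp (-u)) ^ 2 := by
    unfold lg
    rw [neg_neg]
  rw [e]
  exact h2

theorem measurable_lg : Measurable lg := by
  unfold lg
  fun_prop

theorem int_even {f : ℝ → ℝ} (h : IntegrableOn f (Set.Ioi 0)) : Integrable (fun x : ℝ => f |x|) := by
  have hf : IntegrableOn (fun x : ℝ => f |x|) (Set.Ioi 0) := by
    refine (integrableOn_congr_fun (fun x hx => ?_) measurableSet_Ioi).2 h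
    show f |x| = f x
    rw [abs_of_pos (show (0 : ℝ) < x from hx)]
  have hg : IntegrableOn (fun x : ℝ => f |x|) (Set.Iic 0) := by
    rw [← Measure.map_neg_eq_self (volume : Measure ℝ)]
    let m : MeasurableEmbedding fun x : ℝ => -x := (Homeomorph.neg ℝ).measurableEmbedding
    rw [m.integrableOn_map_iff]
    simp_rw [Function.comp_def, abs_neg, Set.neg_preimage, Set.neg_Iic, neg_zero]
    exact Iff.mpr integrableOn_Ici_iff_integrableOn_Ioi hf
  rw [← integrableOn_univ, ← Set.Iic_union_Ioi (a := (0 : ℝ))]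
  exact hg.union hf

theorem int_ea : Integrable (fun u : ℝ => Real.exp (-|u|)) := by
  refine int_even (f := fun x => Real.exp (-x)) ?_
  have := integrableOn_exp_neg_Ioi (0 : ℝ)
  exact this

theorem gam2 : ∫ x in Set.Ioi (0 : ℝ), x * Real.exp (-x) = 1 := by
  have h := Real.Gamma_eq_integral (s := 2) (by norm_num)
  rw [show (2 : ℝ) = 1 + 1 by norm_num, Real.Gamma_add_one one_ne_zero, Real.Gamma_one, mul_one] at h
  rw [h]
  refine setIntegral_congr_fun measurableSet_Ioi fun x _ => ?_
  show x * Real.exp (-x) = Real.exp (-x) * x ^ ((1 : ℝ) + 1 - 1)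
  rw [show (1 : ℝ) + 1 - 1 = 1 by norm_num, Real.rpow_one]
  ring

theorem gam2i : IntegrableOn (fun x : ℝ => x * Real.exp (-x)) (Set.Ioi 0) := by
  have h := Real.GammaIntegral_convergent (s := 2) (by norm_num)
  refine (integrableOn_congr_fun (fun x _ => ?_) measurableSet_Ioi).1 h
  show Real.exp (-x) * x ^ ((2 : ℝ) - 1) = x * Real.exp (-x)
  rw [show (2 : ℝ) - 1 = 1 by norm_num, Real.rpow_one]
  ring

theorem int_aea : Integrable (fun u : ℝ => |u| * Real.exp (-|u|)) :=
  int_even (f := fun x => x * Real.exp (-x)) gam2i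

theorem integral_aea : ∫ u : ℝ, |u| * Real.exp (-|u|) = 2 := by
  rw [integral_comp_abs (f := fun x => x * Real.exp (-x)), gam2]
  norm_num

theorem int_lg : Integrable lg := by
  refine int_ea.mono' measurable_lg.aestronglyMeasurable (Eventually.of_forall fun u => ?_)
  rw [Real.norm_eq_abs, abs_of_pos (lg_pos u)]
  exact lg_le u

theorem integral_lg : ∫ u, lg u = 1 := by
  have h1 : Tendsto (fun u : ℝ => (1 + Real.exp (-u))⁻¹) atTop (𝓝 1) := by
    have h := (Real.tendsto_exp_neg_atTop_nhds_zero.const_add 1).inv₀ (by norm_num)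
    simpa using h
  have h2 : Tendsto (fun u : ℝ => (1 + Real.exp (-u))⁻¹) atBot (𝓝 0) := by
    refine tendsto_inv_atTop_zero.comp ?_
    refine tendsto_atTop_add_const_left _ _ ?_
    exact Real.tendsto_exp_atTop.comp tendsto_neg_atBot_atTop
  have h := integral_of_hasDerivAt_of_tendsto (f := fun u : ℝ => (1 + Real.exp (-u))⁻¹) (f' := lg)
    (fun u => hasDerivAt_lg u) int_lg h2 h1
  rw [h, sub_zero]

/-- The first moment of the logistic density. -/
theorem int_alg : Integrable (fun u : ℝ => |u| * lg u) := by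
  refine int_aea.mono' (by have := measurable_lg; fun_prop) (Eventually.of_forall fun u => ?_)
  rw [Real.norm_eq_abs, abs_of_nonneg (mul_nonneg (abs_nonneg u) (lg_pos u).le)]
  exact mul_le_mul_of_nonneg_left (lg_le u) (abs_nonneg u)

theorem integral_alg : ∫ u, |u| * lg u ≤ 2 := by
  rw [← integral_aea]
  exact integral_mono int_alg int_aea fun u => mul_le_mul_of_nonneg_left (lg_le u) (abs_nonneg u)

/-- The level density of two masses is the logistic density around the level `log (B / A)`. -/
theorem lev_lg {A B : ℝ} (hA : 0 < A) (hB : 0 < B) (a : ℝ) :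
    Real.exp (-a) / (A + Real.exp (-a) * B) ^ 2 = 1 / (A * B) * lg (a - Real.log (B / A)) := by
  have h := Real.exp_pos (-a)
  have e : Real.exp (-(a - Real.log (B / A))) = Real.exp (-a) * (B / A) := by
    rw [neg_sub, sub_eq_add_neg, add_comm, Real.exp_add, Real.exp_log (div_pos hB hA)]
  unfold lg
  rw [e]
  field_simp

/-! ### The contact functional -/

variable {p : ℝ} {lo hi : ℤ} {wk ml mr f : ℤ → ℝ} {q : ℤ} {κ κ' : ℝ}

/-- The contact functional at the level `a`. -/
def cta (lo hi : ℤ) (p : ℝ) (wk ml mr f : ℤ → ℝ) (q : ℤ) (a : ℝ) : ℝ := ct lo hi p wk ml (fun y => Real.exp (-a) * mr y) f q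

/-- The level of a contact. -/
def lvl (lo hi : ℤ) (p : ℝ) (wk ml mr f : ℤ → ℝ) (q : ℤ) : ℝ := Real.log (rz lo hi p wk mr f q / rz lo hi p wk ml f q)

/-- The weight of a contact. -/
def cw (lo hi : ℤ) (p : ℝ) (wk ml mr f : ℤ → ℝ) (q : ℤ) : ℝ :=
  dw p wk ml mr f q / (rz lo hi p wk ml f q * rz lo hi p wk mr f q)

theorem cw_nonneg (h : Cutd lo hi p wk ml mr f q κ κ') : 0 ≤ cw lo hi p wk ml mr f q :=
  div_nonneg (dw_nonneg h) (mul_nonneg h.zl.le h.zr.le)

theorem measurable_cta : Measurable (cta lo hi p wk ml mr f q) := by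
  have h1 : Measurable fun a : ℝ => rz lo hi p wk (fun y => ml y + Real.exp (-a) * mr y) f q := by
    have e : (fun a : ℝ => rz lo hi p wk (fun y => ml y + Real.exp (-a) * mr y) f q) =
        fun a : ℝ => rz lo hi p wk ml f q + Real.exp (-a) * rz lo hi p wk mr f q := funext fun a => rz_lev _
    rw [e]
    fun_prop
  have h2 : Measurable fun a : ℝ => rt lo hi p wk (fun y => ml y + Real.exp (-a) * mr y) f q := by
    have e : (fun a : ℝ => rt lo hi p wk (fun y => ml y + Real.exp (-a) * mr y) f q) =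
        fun a : ℝ => rt lo hi p wk ml f q + Real.exp (-a) * rt lo hi p wk mr f q := by
      funext a
      rw [rt_add (m1 := ml) (m2 := fun y => Real.exp (-a) * mr y), rt_smul]
    rw [e]
    fun_prop
  unfold cta ct ctg ctl pg pq ro jl jq jn
  fun_prop

/-- **Size at the level `a`.** -/
theorem cta_size (h : Cutd lo hi p wk ml mr f q κ κ') (a : ℝ) :
    |cta lo hi p wk ml mr f q a| ≤ Kl p κ κ' * cw lo hi p wk ml mr f q * lg (a - lvl lo hi p wk ml mr f q) := by
  have h1 := ct_size h (Real.exp_pos (-a))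
  rw [lev_lg h.zl h.zr] at h1
  refine h1.trans (le_of_eq ?_)
  unfold cw lvl
  ring

theorem int_cta (h : Cutd lo hi p wk ml mr f q κ κ') : Integrable (cta lo hi p wk ml mr f q) := by
  have hi1 : Integrable fun a : ℝ => Kl p κ κ' * cw lo hi p wk ml mr f q * lg (a - lvl lo hi p wk ml mr f q) :=
    (int_lg.comp_sub_right _).const_mul _
  exact hi1.mono' measurable_cta.aestronglyMeasurable (Eventually.of_forall fun a => cta_size h a)

/-- **The level integral is at most the weight.** -/
theorem integral_abs_cta (h : Cutd lo hi p wk ml mr f q κ κ') :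
    ∫ a, |cta lo hi p wk ml mr f q a| ≤ Kl p κ κ' * cw lo hi p wk ml mr f q := by
  have hi1 : Integrable fun a : ℝ => Kl p κ κ' * cw lo hi p wk ml mr f q * lg (a - lvl lo hi p wk ml mr f q) :=
    (int_lg.comp_sub_right _).const_mul _
  refine (integral_mono (int_cta h).abs hi1 fun a => cta_size h a).trans ?_
  rw [integral_const_mul, integral_sub_right_eq_self (μ := volume) lg, integral_lg, mul_one]

/-- The contact functional. -/
def Cc (lo hi : ℤ) (p : ℝ) (wk ml mr f : ℤ → ℝ) (q : ℤ) : ℝ := ∫ a, cta lo hi p wk ml mr f q a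

theorem abs_Cc (h : Cutd lo hi p wk ml mr f q κ κ') : |Cc lo hi p wk ml mr f q| ≤ Kl p κ κ' * cw lo hi p wk ml mr f q := by
  unfold Cc
  exact (abs_integral_le_integral_abs).trans (integral_abs_cta h)

theorem int_mul_cta (h : Cutd lo hi p wk ml mr f q κ κ') {g : ℝ → ℝ} (hg : Measurable g) {L : ℝ}
    (hL : ∀ a, |g a - g (lvl lo hi p wk ml mr f q)| ≤ L * |a - lvl lo hi p wk ml mr f q|) :
    Integrable (fun a => (g a - g (lvl lo hi p wk ml mr f q)) * cta lo hi p wk ml mr f q a) := by
  set B := lvl lo hi p wk ml mr f q with hB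
  have hK : 0 ≤ Kl p κ κ' * cw lo hi p wk ml mr f q := mul_nonneg (Kl_nonneg h.p0 h.k1 h.k1') (cw_nonneg h)
  have hi1 : Integrable fun a : ℝ => L * (Kl p κ κ' * cw lo hi p wk ml mr f q) * (|a - B| * lg (a - B)) :=
    (int_alg.comp_sub_right B).const_mul _
  refine hi1.mono' ((hg.sub_const _).mul measurable_cta).aestronglyMeasurable (Eventually.of_forall fun a => ?_)
  rw [Real.norm_eq_abs, abs_mul]
  refine (mul_le_mul (hL a) (cta_size h a) (abs_nonneg _) ((abs_nonneg _).trans (hL a))).trans (le_of_eq ?_)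
  ring

theorem int_g_cta (h : Cutd lo hi p wk ml mr f q κ κ') {g : ℝ → ℝ} (hg : Measurable g) {L : ℝ}
    (hL : ∀ a, |g a - g (lvl lo hi p wk ml mr f q)| ≤ L * |a - lvl lo hi p wk ml mr f q|) :
    Integrable (fun a => g a * cta lo hi p wk ml mr f q a) := by
  have h1 := (int_mul_cta h hg hL).add ((int_cta h).const_mul (g (lvl lo hi p wk ml mr f q)))
  refine h1.congr (Eventually.of_forall fun a => ?_)
  simp only [Pi.add_apply]
  ring

/-- **The contact functional sits at its level.** -/
theorem loc_cta (h : Cutd lo hi p wk ml mr f q κ κ') {g : ℝ → ℝ} (hg : Measurable g) {L : ℝ} (hL0 : 0 ≤ L)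
    (hL : ∀ a, |g a - g (lvl lo hi p wk ml mr f q)| ≤ L * |a - lvl lo hi p wk ml mr f q|) :
    |(∫ a, g a * cta lo hi p wk ml mr f q a) - g (lvl lo hi p wk ml mr f q) * Cc lo hi p wk ml mr f q| ≤
      2 * L * (Kl p κ κ' * cw lo hi p wk ml mr f q) := by
  set B := lvl lo hi p wk ml mr f q with hB
  have hK : 0 ≤ Kl p κ κ' * cw lo hi p wk ml mr f q := mul_nonneg (Kl_nonneg h.p0 h.k1 h.k1') (cw_nonneg h)
  have h1 := int_mul_cta h hg hL
  have e : (∫ a, g a * cta lo hi p wk ml mr f q a) - g B * Cc lo hi p wk ml mr f q =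
      ∫ a, (g a - g B) * cta lo hi p wk ml mr f q a := by
    unfold Cc
    rw [← integral_const_mul, ← integral_sub (int_g_cta h hg hL) ((int_cta h).const_mul (g B))]
    refine integral_congr_ae (Eventually.of_forall fun a => ?_)
    show g a * cta lo hi p wk ml mr f q a - g B * cta lo hi p wk ml mr f q a = (g a - g B) * cta lo hi p wk ml mr f q a
    ring
  rw [e]
  refine (abs_integral_le_integral_abs).trans ?_
  have hi1 : Integrable fun a : ℝ => L * (Kl p κ κ' * cw lo hi p wk ml mr f q) * (|a - B| * lg (a - B)) :=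
    (int_alg.comp_sub_right B).const_mul _
  refine (integral_mono h1.abs hi1 fun a => ?_).trans ?_
  · show |(g a - g B) * cta lo hi p wk ml mr f q a| ≤ _
    rw [abs_mul]
    refine (mul_le_mul (hL a) (cta_size h a) (abs_nonneg _) ((abs_nonneg _).trans (hL a))).trans (le_of_eq ?_)
    ring
  · rw [integral_const_mul, integral_sub_right_eq_self (μ := volume) (fun u => |u| * lg u)]
    have h3 : 0 ≤ L * (Kl p κ κ' * cw lo hi p wk ml mr f q) := mul_nonneg hL0 hK
    have h4 := mul_le_mul_of_nonneg_left integral_alg h3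
    linarith

end

end Pool.Agent.W_7d29a1_C1.L91
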