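import Pool.Agent.W_7d29a1_C1.Psi17

/-!
MP_7d29a1_pr, attractor route (helper47): the second difference of the free energy of masses seen through a Gaussian walk, from below:
the second difference at the distance `r` is at least `(1 / 2) (r / h) ^ 2` times the one at the distance `h = N r` (Cameron - Martin).
-/

set_option autoImplicit false

namespace Pool.Agent.W_7d29a1_C1

open MeasureTheory ProbabilityTheory Set Finset
open scoped ENNReal NNReal

noncomputable section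

variable {ι : Type*} [Fintype ι]

/-- The powers of the density. -/
theorem cmd_pow (v : ℝ≥0) (a x : ι → ℝ) (k : ℕ) :
    cmd v a x ^ (k + 1) = Real.exp (k * (k + 1) * ((∑ i, a i ^ 2) / v) / 2) * cmd v (((k : ℝ) + 1) • a) x := by
  unfold cmd
  rw [← Real.exp_nat_mul, ← Real.exp_add]
  congr 1
  have e1 : ∑ i, (((k : ℝ) + 1) • a) i * x i = (k + 1) * ∑ i, a i * x i := by
    rw [Finset.mul_sum]
    exact Finset.sum_congr rfl fun i _ => by simp only [Pi.smul_apply, smul_eq_mul]; ring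
  have e2 : ∑ i, (((k : ℝ) + 1) • a) i ^ 2 = (k + 1) ^ 2 * ∑ i, a i ^ 2 := by
    rw [Finset.mul_sum]
    exact Finset.sum_congr rfl fun i _ => by simp only [Pi.smul_apply, smul_eq_mul]; ring
  rw [e1, e2]
  push_cast
  rcases eq_or_ne (v : ℝ) 0 with h | h
  · rw [h]
    simp
  · field_simp
    ring

theorem integral_cmd_pow {v : ℝ≥0} (hv : v ≠ 0) (a : ι → ℝ) (k : ℕ) {q : ℝ} (hq : q = (∑ i, a i ^ 2) / v) :
    Integrable (fun x => cmd v a x ^ (k + 1)) (gpi ι v) ∧
      ∫ x, cmd v a x ^ (k + 1) ∂(gpi ι v) = Real.exp (k * (k + 1) * q / 2) := by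
  simp_rw [cmd_pow]
  refine ⟨(integrable_cmd v _).const_mul _, ?_⟩
  rw [integral_const_mul, integral_cmd hv, mul_one, hq]

theorem exp_half47 : Real.exp (1 / 2) ≤ 5 / 3 := by
  have h1 := Real.exp_one_lt_d9
  have h2 : Real.exp (1 / 2) ^ 2 = Real.exp 1 := by
    rw [← Real.exp_nat_mul]
    norm_num
  have h3 := Real.exp_pos (1 / 2)
  nlinarith

/-- **One shift.** -/
theorem shift47 {v : ℝ≥0} (hv : v ≠ 0) {F : (ι → ℝ) → ℝ} (hF : Measurable F) {B : ℝ} (h0 : ∀ x, 0 ≤ F x) (hB : ∀ x, F x ≤ B)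
    (a : ι → ℝ) {k : ℕ} (hq : (k + 1) * ((∑ i, a i ^ 2) / v) ≤ 1) :
    ∫ x, F (x + a) ∂(gpi ι v) ≤ 2 * ∫ x, F x ∂(gpi ι v) + B * (5 / 6) ^ k := by
  obtain ⟨q, hqd⟩ : ∃ q : ℝ, q = (∑ i, a i ^ 2) / v := ⟨_, rfl⟩
  obtain ⟨i1, i2⟩ := integral_cmd_pow hv a k hqd
  rw [← hqd] at hq
  have hB0 : 0 ≤ B := (h0 0).trans (hB 0)
  have hFi : Integrable F (gpi ι v) := by
    refine (integrable_const B).mono' hF.aestronglyMeasurable (ae_of_all _ fun x => ?_)
    rw [Real.norm_eq_abs, abs_of_nonneg (h0 x)]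
    exact hB x
  have hpt : ∀ x, F x * cmd v a x ≤ 2 * F x + B * (1 / 2) ^ k * cmd v a x ^ (k + 1) := by
    intro x
    have hD := cmd_pos v a x
    have hp : 0 ≤ B * (1 / 2) ^ k * cmd v a x ^ (k + 1) := by positivity
    rcases le_total (cmd v a x) 2 with h | h
    · have := mul_le_mul_of_nonneg_left h (h0 x)
      linarith
    · have h1 : 1 ≤ (cmd v a x / 2) ^ k := one_le_pow₀ (by linarith)
      have h2 : B * (1 / 2) ^ k * cmd v a x ^ (k + 1) = B * cmd v a x * (cmd v a x / 2) ^ k := by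
        rw [div_pow, div_pow, pow_succ, one_pow]
        ring
      have h3 : F x * cmd v a x ≤ B * cmd v a x := mul_le_mul_of_nonneg_right (hB x) hD.le
      have h4 : B * cmd v a x * 1 ≤ B * cmd v a x * (cmd v a x / 2) ^ k := mul_le_mul_of_nonneg_left h1 (by positivity)
      have h5 := h0 x
      linarith
  have hint : Integrable (fun x => F x * cmd v a x) (gpi ι v) := by
    refine ((integrable_cmd v a).const_mul B).mono' (hF.mul (measurable_cmd v a)).aestronglyMeasurable (ae_of_all _ fun x => ?_)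
    rw [Real.norm_eq_abs, abs_of_nonneg (mul_nonneg (h0 x) (cmd_pos v a x).le)]
    exact mul_le_mul_of_nonneg_right (hB x) (cmd_pos v a x).le
  rw [cm17 hv]
  have h1 : ∫ x, F x * cmd v a x ∂(gpi ι v) ≤ ∫ x, (2 * F x + B * (1 / 2) ^ k * cmd v a x ^ (k + 1)) ∂(gpi ι v) :=
    integral_mono hint ((hFi.const_mul 2).add (i1.const_mul _)) hpt
  rw [integral_add (hFi.const_mul 2) (i1.const_mul _), integral_const_mul, integral_const_mul, i2] at h1
  have h2 : (1 / 2 : ℝ) ^ k * Real.exp (k * (k + 1) * q / 2) ≤ (5 / 6) ^ k := by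
    have h3 : Real.exp (k * (k + 1) * q / 2) ≤ Real.exp (1 / 2) ^ k := by
      rw [← Real.exp_nat_mul]
      refine Real.exp_le_exp.2 ?_
      have h4 : (0 : ℝ) ≤ k := Nat.cast_nonneg k
      have h5 := mul_le_mul_of_nonneg_left hq h4
      linarith
    have h4 : Real.exp (1 / 2) ^ k ≤ (5 / 3) ^ k := pow_le_pow_left₀ (Real.exp_pos _).le exp_half47 k
    calc (1 / 2 : ℝ) ^ k * Real.exp (k * (k + 1) * q / 2) ≤ (1 / 2) ^ k * (5 / 3) ^ k :=
          mul_le_mul_of_nonneg_left (h3.trans h4) (by positivity)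
      _ = (5 / 6) ^ k := by
          rw [← mul_pow]
          norm_num
  have h3 := mul_le_mul_of_nonneg_left h2 hB0
  linarith

/-- The sum of the second differences. -/
theorem tele47 {G : ℝ → ℝ} {r B : ℝ} {N : ℕ} (h : ∀ u : ℝ, |u| ≤ N * |r| → G (u + r) + G (u - r) - 2 * G u ≤ B) :
    G (N * r) + G (-(N * r)) - 2 * G 0 ≤ (N : ℝ) ^ 2 * B := by
  obtain ⟨b, hb⟩ : ∃ b : ℕ → ℝ, b = fun n : ℕ => G (n * r) + G (-(n * r)) - 2 * G 0 := ⟨_, rfl⟩
  have hb0 : b 0 = 0 := by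
    rw [hb]
    simp
    ring
  have key : ∀ n : ℕ, n + 1 ≤ N → b (n + 1) - b n ≤ (2 * n + 1) * B := by
    intro n
    induction n with
    | zero =>
      intro _
      have h1 := h 0 (by simp; positivity)
      rw [hb]
      simp only [Nat.cast_zero, zero_mul, neg_zero, zero_add, Nat.cast_one, one_mul, zero_sub, mul_zero] at h1 ⊢
      linarith
    | succ n ih =>
      intro hn
      have h1 := ih (by omega)
      have hnr : |((n + 1 : ℕ) : ℝ) * r| ≤ N * |r| := by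
        rw [abs_mul, Nat.abs_cast]
        refine mul_le_mul_of_nonneg_right ?_ (abs_nonneg r)
        exact_mod_cast (by omega : n + 1 ≤ N)
      have h2 := h (((n + 1 : ℕ) : ℝ) * r) hnr
      have h3 := h (-(((n + 1 : ℕ) : ℝ) * r)) (by rw [abs_neg]; exact hnr)
      have e1 : ((n + 1 : ℕ) : ℝ) * r + r = ((n + 1 + 1 : ℕ) : ℝ) * r := by push_cast; ring
      have e2 : ((n + 1 : ℕ) : ℝ) * r - r = (n : ℝ) * r := by push_cast; ring
      have e3 : -(((n + 1 : ℕ) : ℝ) * r) + r = -((n : ℝ) * r) := by push_cast; ring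
      have e4 : -(((n + 1 : ℕ) : ℝ) * r) - r = -(((n + 1 + 1 : ℕ) : ℝ) * r) := by push_cast; ring
      rw [e1, e2] at h2
      rw [e3, e4] at h3
      rw [hb] at h1 ⊢
      simp only at h1 ⊢
      push_cast at h1 h2 h3 ⊢
      linarith
  have key2 : ∀ n : ℕ, n ≤ N → b n ≤ (n : ℝ) ^ 2 * B := by
    intro n
    induction n with
    | zero =>
      intro _
      rw [hb0]
      simp
    | succ n ih =>
      intro hn
      have h1 := ih (by omega)
      have h2 := key n hn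
      push_cast
      nlinarith
  have := key2 N le_rfl
  rw [hb] at this
  exact this

/-- **The second difference from below**: `Φ` is convex and Lipschitz along the constant vectors. -/
theorem sd47 {v : ℝ≥0} (hv : v ≠ 0) {Φ : (ι → ℝ) → ℝ} (hΦ : Measurable Φ)
    (hi : Integrable Φ (gpi ι v)) {K : ℝ} (hL : ∀ x u, |Φ (x + cst ι u) - Φ x| ≤ K * |u|)
    (hC : ∀ x u, 2 * Φ x ≤ Φ (x + cst ι u) + Φ (x + cst ι (-u)))
    {r : ℝ} {N k : ℕ} (hq : (k + 1) * (Fintype.card ι * (N * r) ^ 2 / v) ≤ 1) :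
    ∫ x, Φ (x + cst ι (N * r)) ∂(gpi ι v) + ∫ x, Φ (x + cst ι (-(N * r))) ∂(gpi ι v) - 2 * ∫ x, Φ x ∂(gpi ι v) ≤
      (N : ℝ) ^ 2 * (2 * (∫ x, Φ (x + cst ι r) ∂(gpi ι v) + ∫ x, Φ (x + cst ι (-r)) ∂(gpi ι v) - 2 * ∫ x, Φ x ∂(gpi ι v)) +
        2 * K * |r| * (5 / 6) ^ k) := by
  have hv' : (0 : ℝ) < v := by exact_mod_cast pos_iff_ne_zero.2 hv
  obtain ⟨G, hG⟩ : ∃ G : ℝ → ℝ, G = fun u => ∫ x, Φ (x + cst ι u) ∂(gpi ι v) := ⟨_, rfl⟩
  have hG0 : ∫ x, Φ x ∂(gpi ι v) = G 0 := by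
    rw [hG]
    have e : cst ι (0 : ℝ) = 0 := rfl
    simp only [e, add_zero]
  have hmeas : ∀ u : ℝ, Measurable fun x => Φ (x + cst ι u) := fun u => hΦ.comp (measurable_id.add_const _)
  have hshift : ∀ u : ℝ, Integrable (fun x => Φ (x + cst ι u)) (gpi ι v) := by
    intro u
    have h1 : Integrable (fun x => Φ (x + cst ι u) - Φ x) (gpi ι v) := by
      refine (integrable_const (K * |u|)).mono' ((hmeas u).sub hΦ).aestronglyMeasurable (ae_of_all _ fun x => ?_)
      rw [Real.norm_eq_abs]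
      exact hL x u
    refine (h1.add hi).congr (ae_of_all _ fun x => ?_)
    simp
  obtain ⟨F, hF⟩ : ∃ F : (ι → ℝ) → ℝ, F = fun x => Φ (x + cst ι r) + Φ (x + cst ι (-r)) - 2 * Φ x := ⟨_, rfl⟩
  have hF0 : ∀ x, 0 ≤ F x := by
    intro x
    rw [hF]
    have := hC x r
    simp only
    linarith
  have hFB : ∀ x, F x ≤ 2 * K * |r| := by
    intro x
    have h1 := (abs_le.1 (hL x r)).2
    have h2 := (abs_le.1 (hL x (-r))).2
    rw [abs_neg] at h2
    rw [hF]
    simp only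
    linarith
  have hFm : Measurable F := by
    rw [hF]
    exact ((hmeas r).add (hmeas (-r))).sub (hΦ.const_mul 2)
  have hadd : ∀ u w : ℝ, cst ι u + cst ι w = cst ι (u + w) := fun u w => rfl
  have hFu : ∀ u : ℝ, ∫ x, F (x + cst ι u) ∂(gpi ι v) = G (u + r) + G (u - r) - 2 * G u := by
    intro u
    rw [hF, hG]
    simp only
    have e1 : ∀ x : ι → ℝ, Φ (x + cst ι u + cst ι r) + Φ (x + cst ι u + cst ι (-r)) - 2 * Φ (x + cst ι u) =
        (Φ (x + cst ι (u + r)) + Φ (x + cst ι (u - r))) - 2 * Φ (x + cst ι u) := by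
      intro x
      rw [add_assoc, hadd, add_assoc, hadd, ← sub_eq_add_neg]
    simp_rw [e1]
    have hadd2 : Integrable (fun x => Φ (x + cst ι (u + r)) + Φ (x + cst ι (u - r))) (gpi ι v) := (hshift _).add (hshift _)
    rw [integral_sub hadd2 ((hshift u).const_mul 2), integral_add (hshift _) (hshift _), integral_const_mul]
  have hF1 : ∫ x, F x ∂(gpi ι v) = G r + G (-r) - 2 * G 0 := by
    have h := hFu 0
    have e : cst ι (0 : ℝ) = 0 := rfl
    simp only [e, add_zero, zero_add, zero_sub] at h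
    exact h
  have hsum : ∀ u : ℝ, (∑ i : ι, cst ι u i ^ 2) / (v : ℝ) = Fintype.card ι * u ^ 2 / v := by
    intro u
    unfold cst
    rw [Finset.sum_const, Finset.card_univ, nsmul_eq_mul]
  have hone : ∀ u : ℝ, |u| ≤ N * |r| → G (u + r) + G (u - r) - 2 * G u ≤ 2 * (G r + G (-r) - 2 * G 0) + 2 * K * |r| * (5 / 6) ^ k := by
    intro u hu
    rw [← hFu, ← hF1]
    refine shift47 hv hFm hF0 hFB (cst ι u) (k := k) ?_
    rw [hsum]
    refine le_trans ?_ hq
    refine mul_le_mul_of_nonneg_left ?_ (by positivity)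
    refine div_le_div_of_nonneg_right ?_ hv'.le
    refine mul_le_mul_of_nonneg_left ?_ (by positivity)
    rw [← sq_abs u, ← sq_abs ((N : ℝ) * r), abs_mul, Nat.abs_cast]
    exact pow_le_pow_left₀ (abs_nonneg _) hu 2
  have h := tele47 hone
  rw [hG0]
  have e1 : ∀ u : ℝ, ∫ x, Φ (x + cst ι u) ∂(gpi ι v) = G u := fun u => by rw [hG]
  rw [e1, e1, e1, e1]
  exact h

/-! ### The free energy of masses seen through the walk -/

theorem LG_conv (m : ℕ) {p : Fin (m + 1) → ℝ} (hp : ∀ k, 0 ≤ p k) (hs : 0 < ∑ k, p k) (ξ : Fin m → ℝ) (u : ℝ) :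
    2 * LG m 0 p ξ ≤ LG m 0 p (ξ + cst (Fin m) u) + LG m 0 p (ξ + cst (Fin m) (-u)) := by
  have hpos : ∀ h : ℝ, 0 < ∑ k : Fin (m + 1), p k * Real.exp (h * ((k : ℕ) : ℝ) + wk m ξ k) := by
    intro h
    obtain ⟨k, -, hk⟩ := Finset.exists_lt_of_sum_lt (s := Finset.univ) (f := fun _ : Fin (m + 1) => (0 : ℝ)) (g := p)
      (by simpa using hs)
    exact Finset.sum_pos' (fun j _ => mul_nonneg (hp j) (Real.exp_pos _).le)
      ⟨k, Finset.mem_univ k, mul_pos hk (Real.exp_pos _)⟩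
  rw [← LG_shift, ← LG_shift]
  unfold LG
  rw [← Real.log_mul (hpos u).ne' (hpos (-u)).ne', two_mul, ← Real.log_mul (hpos 0).ne' (hpos 0).ne', ← sq]
  refine Real.log_le_log (by have := hpos 0; positivity) ?_
  refine Finset.sum_sq_le_sum_mul_sum_of_sq_le_mul Finset.univ (fun k _ => mul_nonneg (hp k) (Real.exp_pos _).le)
    (fun k _ => mul_nonneg (hp k) (Real.exp_pos _).le) fun k _ => le_of_eq ?_
  have e1 : Real.exp (u * ((k : ℕ) : ℝ) + wk m ξ k) * Real.exp (-u * ((k : ℕ) : ℝ) + wk m ξ k) =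
      Real.exp (0 * ((k : ℕ) : ℝ) + wk m ξ k) ^ 2 := by
    rw [← Real.exp_add, ← Real.exp_nat_mul]
    congr 1
    push_cast
    ring
  calc (p k * Real.exp (0 * ((k : ℕ) : ℝ) + wk m ξ k)) ^ 2 = p k ^ 2 * Real.exp (0 * ((k : ℕ) : ℝ) + wk m ξ k) ^ 2 := by ring
    _ = p k * Real.exp (u * ((k : ℕ) : ℝ) + wk m ξ k) * (p k * Real.exp (-u * ((k : ℕ) : ℝ) + wk m ξ k)) := by
        rw [← e1]
        ring

section random

variable {Ω : Type*} [MeasurableSpace Ω] {ν : Measure Ω} [IsProbabilityMeasure ν] {m : ℕ} {P : Ω → Fin (m + 1) → ℝ}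

/-- **The second difference in the slope from below.** -/
theorem psi47 {v : ℝ≥0} (hv : v ≠ 0) (hP : ∀ k, Measurable fun ω => P ω k) (h0 : ∀ ω k, 0 ≤ P ω k)
    (hs : ∀ ω, 0 < ∑ k, P ω k) {r : ℝ} {N k : ℕ} (hq : (k + 1) * (m * (N * r) ^ 2 / v) ≤ 1) :
    Psi ν m v P (N * r) + Psi ν m v P (-(N * r)) - 2 * Psi ν m v P 0 ≤
      (N : ℝ) ^ 2 * (2 * (Psi ν m v P r + Psi ν m v P (-r) - 2 * Psi ν m v P 0) + 2 * m * |r| * (5 / 6) ^ k) := by
  obtain ⟨Φ, hΦ⟩ : ∃ Φ : (Fin m → ℝ) → ℝ, Φ = fun ξ => ∫ ω, LG m 0 (P ω) ξ ∂ν := ⟨_, rfl⟩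
  have hΦm : Measurable Φ := by
    rw [hΦ]
    have h1 : StronglyMeasurable fun z : (Fin m → ℝ) × Ω => LG m 0 (P z.2) z.1 := (measurable_LG hP 0).stronglyMeasurable
    exact (h1.integral_prod_right').measurable
  have hmeas : ∀ ζ : Fin m → ℝ, Measurable fun ω => LG m 0 (P ω) ζ := fun ζ =>
    (measurable_LG hP 0).comp (measurable_const.prodMk measurable_id)
  have hd : ∀ ξ ξ', Integrable (fun ω => LG m 0 (P ω) ξ - LG m 0 (P ω) ξ') ν := by
    intro ξ ξ'
    refine (integrable_const (∑ i, |ξ i - ξ' i|)).mono' ((hmeas ξ).sub (hmeas ξ')).aestronglyMeasurable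
      (ae_of_all _ fun ω => ?_)
    rw [Real.norm_eq_abs]
    exact LG_abs m 0 (h0 ω) (hs ω) ξ ξ'
  have htr : ∀ ξ ξ', Integrable (fun ω => LG m 0 (P ω) ξ') ν → Integrable (fun ω => LG m 0 (P ω) ξ) ν := by
    intro ξ ξ' hI
    refine ((hd ξ ξ').add hI).congr (ae_of_all _ fun ω => ?_)
    simp
  have hdiff : ∀ ξ ξ', |Φ ξ - Φ ξ'| ≤ ∑ i, |ξ i - ξ' i| := by
    intro ξ ξ'
    by_cases hI : Integrable (fun ω => LG m 0 (P ω) ξ') ν
    · have hI2 := htr ξ ξ' hI
      rw [hΦ]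
      simp only
      rw [← integral_sub hI2 hI]
      refine abs_integral_le_integral_abs.trans ?_
      calc ∫ ω, |LG m 0 (P ω) ξ - LG m 0 (P ω) ξ'| ∂ν ≤ ∫ _, ∑ i, |ξ i - ξ' i| ∂ν :=
            integral_mono (hd ξ ξ').abs (integrable_const _) fun ω => LG_abs m 0 (h0 ω) (hs ω) ξ ξ'
        _ = ∑ i, |ξ i - ξ' i| := by simp
    · have hI2 : ¬ Integrable (fun ω => LG m 0 (P ω) ξ) ν := fun hc => hI (htr ξ' ξ hc)
      rw [hΦ]
      simp only
      rw [integral_undef hI, integral_undef hI2]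
      simp only [sub_zero, abs_zero]
      exact Finset.sum_nonneg fun i _ => abs_nonneg _
  have hΦi : Integrable Φ (gpi (Fin m) v) := by
    have hc : ∀ i : Fin m, Integrable (fun ξ : Fin m → ℝ => |ξ i|) (gpi (Fin m) v) := by
      intro i
      have h1 : MeasurePreserving (Function.eval i) (gpi (Fin m) v) (gaussianReal 0 v) :=
        measurePreserving_eval (μ := fun _ : Fin m => gaussianReal 0 v) i
      have h2 : Integrable (fun x : ℝ => x) (gaussianReal 0 v) := by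
        have := memLp_id_gaussianReal (μ := 0) (v := v) 1
        exact this.integrable (by simp)
      exact (h1.integrable_comp_of_integrable h2.abs)
    refine ((integrable_const |Φ 0|).add (integrable_finsetSum Finset.univ fun i _ => hc i)).mono'
      hΦm.aestronglyMeasurable (ae_of_all _ fun ξ => ?_)
    rw [Real.norm_eq_abs]
    have h1 := hdiff ξ 0
    have h2 : |Φ ξ| ≤ |Φ 0| + |Φ ξ - Φ 0| := by
      have := abs_sub_abs_le_abs_sub (Φ ξ) (Φ 0)
      linarith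
    simp only [Pi.zero_apply, sub_zero] at h1
    simp only [Pi.add_apply]
    have e3 : (∑ i, fun ξ : Fin m → ℝ => |ξ i|) ξ = ∑ i, |ξ i| := by
      rw [Finset.sum_apply]
    linarith
  have hLip : ∀ x u, |Φ (x + cst (Fin m) u) - Φ x| ≤ m * |u| := by
    intro x u
    refine (hdiff _ _).trans (le_of_eq ?_)
    have e : ∀ i : Fin m, |(x + cst (Fin m) u) i - x i| = |u| := by
      intro i
      simp [cst]
    simp only [e]
    simp
  have hconv : ∀ x u, 2 * Φ x ≤ Φ (x + cst (Fin m) u) + Φ (x + cst (Fin m) (-u)) := by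
    intro x u
    rw [hΦ]
    simp only
    by_cases hI : Integrable (fun ω => LG m 0 (P ω) x) ν
    · rw [← integral_const_mul, ← integral_add (htr _ _ hI) (htr _ _ hI)]
      exact integral_mono (hI.const_mul 2) ((htr _ _ hI).add (htr _ _ hI)) fun ω => LG_conv m (h0 ω) (hs ω) x u
    · have h1 : ¬ Integrable (fun ω => LG m 0 (P ω) (x + cst (Fin m) u)) ν := fun hc => hI (htr _ _ hc)
      have h2 : ¬ Integrable (fun ω => LG m 0 (P ω) (x + cst (Fin m) (-u))) ν := fun hc => hI (htr _ _ hc)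
      rw [integral_undef hI, integral_undef h1, integral_undef h2]
      norm_num
  have hPsi : ∀ h, Psi ν m v P h = ∫ ξ, Φ (ξ + cst (Fin m) h) ∂(gpi (Fin m) v) := by
    intro h
    unfold Psi
    rw [hΦ]
    refine integral_congr_ae (ae_of_all _ fun ξ => ?_)
    simp only
    refine integral_congr_ae (ae_of_all _ fun ω => ?_)
    exact LG_shift m h (P ω) ξ
  have h00 : Psi ν m v P 0 = ∫ ξ, Φ ξ ∂(gpi (Fin m) v) := by
    rw [hPsi]
    have e : cst (Fin m) 0 = 0 := rfl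
    rw [e]
    simp
  have hcard : (Fintype.card (Fin m) : ℝ) = m := by simp
  rw [hPsi, hPsi, hPsi r, hPsi (-r), h00]
  exact sd47 (ι := Fin m) hv hΦm hΦi (K := (m : ℝ)) hLip hconv (r := r) (N := N) (k := k) (by rw [hcard]; exact hq)

end random

end

end Pool.Agent.W_7d29a1_C1
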