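import Pool.Agent.W_7d29a1_C1.End17
import Pool.Agent.W_7d29a1_C1.Sd47

/-!
MP_7d29a1_pr, attractor route (helper47): the lower half. The increment predicate of the attractor route (`LMG`, composite future) alone
gives also `n ^ (1/3 - ε) ≤ EE n`: the second difference of the free energy `Ψ` of the masses of the time `n` at the tilt
`h₀ = n ^ (- 2 δ) / EE n` is at least `n ^ (- C δ) EE n` (scale `N₁ = n ^ (1 + C δ)`), by Cameron - Martin it is at least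
`(1/2) (r / h₀) ^ 2` times this at the smaller tilts `r`, and at the scale `N = n ^ (1 + c)`, `r = 1 / EE N`, the second difference of
the free energy of `N` rows is at most `N ^ ε EE N`.
-/

set_option autoImplicit false

namespace Pool.Agent.W_7d29a1_C1

open MeasureTheory ProbabilityTheory Filter Topology
open Pool.Agent.W_7d29a1_F Pool.Agent.W_7d29a1_h4g Pool.Agent.W_7d29a1_H Pool.Agent.W_7d29a1_HS
open Pool.Agent.W_7d29a1_HZ (EE' wd' EE'_pow wd'_eq)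
open Pool.Agent.W_7d29a1_LB (LB20 UB20)
open Pool.Agent.W_7d29a1_HK20 (ev_pow20)
open scoped ENNReal NNReal

noncomputable section

/-- **The loss of memory, composite future**, for abstract mean free energies `F M L h` (`M` rows with the additional force `h`,
followed by `L` rows without it). -/
def LMG47 (μ : Measure ℝ) (s : ℝ) (F : ℕ → ℕ → ℝ → ℝ) : Prop :=
  ∃ c : ℝ, 0 < c ∧ ∀ δ : ℝ, 0 < δ → ∃ κ : ℝ, 0 < κ ∧ κ ≤ δ ∧ ∀ᶠ n : ℕ in atTop, ∃ (y₀ : ℤ) (m : ℕ) (v : ℝ≥0),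
    0 ≤ y₀ ∧ 1 ≤ m ∧ y₀ + m ≤ n ∧ (m : ℝ) ≤ (n : ℝ) ^ δ * wd μ s n ∧ (n : ℝ) ^ (-δ) ≤ (v : ℝ) ∧
    ∀ N : ℕ, n ≤ N → (N : ℝ) ≤ (n : ℝ) ^ (1 + c) → ∀ L : ℕ, N ^ 3 ≤ L → L ≤ 2 * N ^ 3 → ∀ M : ℕ, M ≤ N → ∃ K₀ K₁ : ℝ,
      ∀ h : ℝ, |h| * EE μ s n ≤ (n : ℝ) ^ (-(2 * δ)) → |h| * EE μ s N ≤ (N : ℝ) ^ κ →
        |F (n + M) L h - F M L h - K₀ - K₁ * h -
          Psi (law μ) m v (fun η k => W μ s η 0 n (y₀ + ((k : ℕ) : ℤ))) h| ≤ (n : ℝ) ^ (-c) * EE μ s n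

/-- The lower bound by two displacements. -/
def Low47 (μ : Measure ℝ) (s c C : ℝ) (F : ℕ → ℕ → ℝ → ℝ) : Prop :=
  ∃ n₁ : ℕ, ∀ N, n₁ ≤ N → ∀ (L : ℕ) (r : ℝ), 0 ≤ r →
    2 * (r * (c * wd μ s N) - r - C * EE μ s N) + 2 * F 0 L 0 ≤ F N L r + F N L (-r)

/-- Some horizon at which the free energy without force does not grow. -/
def Pig47 (F : ℕ → ℕ → ℝ → ℝ) : Prop :=
  ∀ᶠ N : ℕ in atTop, ∃ L : ℕ, N ^ 3 ≤ L ∧ L ≤ 2 * N ^ 3 ∧ F N L 0 ≤ F 0 L 0 + 1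

/-- The rough upper bound. -/
def Up47 (μ : Measure ℝ) (s : ℝ) (F : ℕ → ℕ → ℝ → ℝ) : Prop :=
  ∀ e : ℝ, 0 < e → ∀ᶠ N : ℕ in atTop, ∀ L : ℕ, N ^ 3 ≤ L → L ≤ 2 * N ^ 3 → ∀ r : ℝ,
    |r| * EE μ s N ≤ (N : ℝ) ^ (-e) → F N L r ≤ F 0 L 0 + (N : ℝ) ^ e * EE μ s N

/-! ### Pure part -/

/-- Geometric decay beats powers. -/
theorem geo47 {c δ : ℝ} (hδ : 0 < δ) : ∀ᶠ n : ℕ in atTop, (5 / 6 : ℝ) ^ ⌊(n : ℝ) ^ δ⌋₊ ≤ (n : ℝ) ^ (-c) := by
  obtain ⟨p, hp⟩ := exists_nat_ge (c / δ)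
  have h1 : Tendsto (fun n : ℕ => (n : ℝ) ^ p * (5 / 6 : ℝ) ^ n) atTop (𝓝 0) :=
    tendsto_pow_const_mul_const_pow_of_abs_lt_one p (by rw [abs_of_pos (by norm_num)]; norm_num)
  have h2 : Tendsto (fun n : ℕ => ⌊(n : ℝ) ^ δ⌋₊) atTop atTop :=
    tendsto_nat_floor_atTop.comp ((tendsto_rpow_atTop hδ).comp tendsto_natCast_atTop_atTop)
  have h3 := h1.comp h2
  have h4 : ∀ᶠ n : ℕ in atTop, ((fun n : ℕ => (n : ℝ) ^ p * (5 / 6 : ℝ) ^ n) ∘ fun n : ℕ => ⌊(n : ℝ) ^ δ⌋₊) n < (1 / 2) ^ p :=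
    h3.eventually (gt_mem_nhds (by positivity))
  filter_upwards [h4, eventually_ge_atTop 1, h2.eventually (eventually_ge_atTop 1)] with n g1 g2 g3
  have hn : (1 : ℝ) ≤ n := by exact_mod_cast g2
  have hn0 : (0 : ℝ) < n := by linarith
  obtain ⟨k, hk⟩ : ∃ k : ℕ, k = ⌊(n : ℝ) ^ δ⌋₊ := ⟨_, rfl⟩
  simp only [Function.comp] at g1
  rw [← hk] at g1 g3 ⊢
  have hk1 : (1 : ℝ) ≤ k := by exact_mod_cast g3
  have h5 : (n : ℝ) ^ δ ≤ 2 * k := by
    have := Nat.lt_floor_add_one ((n : ℝ) ^ δ)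
    rw [← hk] at this
    linarith
  have h6 : (n : ℝ) ^ c ≤ (2 * k) ^ p := by
    calc (n : ℝ) ^ c ≤ (n : ℝ) ^ (δ * p) := by
          refine Real.rpow_le_rpow_of_exponent_le hn ?_
          rw [div_le_iff₀ hδ] at hp
          linarith
      _ = ((n : ℝ) ^ δ) ^ p := by rw [Real.rpow_mul hn0.le, Real.rpow_natCast]
      _ ≤ (2 * k) ^ p := pow_le_pow_left₀ (Real.rpow_nonneg hn0.le _) h5 p
  rw [Real.rpow_neg hn0.le, le_inv_comm₀ (by positivity) (Real.rpow_pos_of_pos hn0 _)]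
  refine h6.trans ?_
  rw [le_inv_comm₀ (by positivity) (by positivity), mul_pow]
  have h7 : (k : ℝ) ^ p * (5 / 6) ^ k * (2 ^ p) ≤ (1 / 2) ^ p * 2 ^ p := mul_le_mul_of_nonneg_right g1.le (by positivity)
  have h8 : ((1 : ℝ) / 2) ^ p * 2 ^ p = 1 := by
    rw [← mul_pow]
    norm_num
  rw [h8] at h7
  rw [← one_div, le_div_iff₀ (by positivity)]
  linarith

/-- Iteration from below: `a n ≤ n ^ ε a n'` for `n ≤ n' ≤ n ^ (1 + c)` and all `ε` gives `n ^ (- η) ≤ a n` for all `η`. -/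
theorem iter47 {a : ℕ → ℝ} (ha : ∀ n, 1 ≤ n → 0 < a n) {c : ℝ} (hc : 0 < c)
    (h : ∀ ε : ℝ, 0 < ε → ∃ n₁ : ℕ, ∀ n, n₁ ≤ n → ∀ n' : ℕ, n ≤ n' → (n' : ℝ) ≤ (n : ℝ) ^ (1 + c) → a n ≤ (n : ℝ) ^ ε * a n')
    {η : ℝ} (hη : 0 < η) : ∀ᶠ n : ℕ in atTop, (n : ℝ) ^ (-η) ≤ a n := by
  have h1 := iter17 (a := fun n => if 1 ≤ n then (a n)⁻¹ else 0) (fun n => by
    split_ifs with hn
    · exact (inv_pos.2 (ha n hn)).le
    · exact le_rfl) hc (fun ε hε => by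
    obtain ⟨n₁, hn₁⟩ := h ε hε
    refine ⟨max n₁ 1, fun n hn n' hnn' hn' => ?_⟩
    have g1 : 1 ≤ n := by omega
    have g2 : 1 ≤ n' := by omega
    simp only [g1, g2, if_true]
    have h2 := hn₁ n (by omega) n' hnn' hn'
    have h3 := ha n g1
    have h4 := ha n' g2
    have hn0 : (0 : ℝ) < n := by exact_mod_cast g1
    have hp : 0 < (n : ℝ) ^ ε := Real.rpow_pos_of_pos hn0 _
    rw [inv_le_comm₀ h4 (by positivity), mul_inv, inv_inv, inv_mul_le_iff₀ hp]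
    exact h2) hη
  filter_upwards [h1, eventually_ge_atTop 1] with n g1 g2
  simp only [g2, if_true] at g1
  have hn0 : (0 : ℝ) < n := by exact_mod_cast g2
  rw [Real.rpow_neg hn0.le]
  exact (inv_le_comm₀ (ha n g2) (Real.rpow_pos_of_pos hn0 _)).1 g1

/-- The numbers: curvature at the tilt `h₀`, from the scale `N₁ = J n`, `J ≤ b`. -/
theorem numA47 {E E1 X b q D J : ℝ} (hb : 1 ≤ b) (hX : 0 < X) (hE : 0 < E) (hEX : E ≤ X) (hJ0 : 0 ≤ J) (hJ : J ≤ b) (hE1 : X ≤ E1)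
    (hF : E1 ≤ J * (D + 4 * (q * E))) (hq : 8 * q * b ≤ 1) (hq0 : 0 ≤ q) : X / (2 * b) ≤ D := by
  have hb0 : 0 < b := by linarith
  obtain ⟨Y, hY⟩ : ∃ Y : ℝ, Y = D + 4 * (q * E) := ⟨_, rfl⟩
  rw [← hY] at hF
  have hY0 : 0 ≤ Y := by
    by_contra hc
    push Not at hc
    have h0 := mul_nonpos_of_nonneg_of_nonpos hJ0 hc.le
    linarith only [h0, hF, hE1, hX]
  have h3 : X ≤ b * Y := hE1.trans (hF.trans (mul_le_mul_of_nonneg_right hJ hY0))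
  rw [div_le_iff₀ (by positivity)]
  have h5 : b * (4 * (q * E)) = (8 * q * b) * (E / 2) := by ring
  have h6 : (8 * q * b) * (E / 2) ≤ 1 * (E / 2) := mul_le_mul_of_nonneg_right hq (by positivity)
  rw [hY] at h3
  have h7 : b * (D + 4 * (q * E)) = b * D + b * (4 * (q * E)) := by ring
  linarith only [h3, h7, h5, h6, hEX]

/-- The numbers: the last step. `J` is the number of steps from `r` to `h₀ = 1 / (A ^ 2 E)`. -/
theorem numB47 {R E E' A b g K q D0 Dr t n N J : ℝ} (hn : 0 < n) (hN : 0 < N) (hR : R = N / n) (hE : 0 < E) (hE' : 0 < E')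
    (hA : 1 ≤ A) (hb : 1 ≤ b) (hg : 1 ≤ g) (hD0 : A ^ 2 * E / (2 * b) ≤ D0) (hJ : J ≤ 2 * (g * E') / (A ^ 2 * E)) (hJ0 : 0 < J)
    (hps : D0 ≤ J ^ 2 * (2 * Dr + 2 * t)) (ht : t ≤ q * E)
    (hF : R * (Dr - 4 * (q * E)) ≤ g * E') (hK : E' ^ 2 ≤ K ^ 2 * R * E ^ 2)
    (hq : 160 * K ^ 2 * q * b * g ^ 2 * R ≤ 1) (hq0 : 0 ≤ q) :
    E ^ 3 / n ≤ 32 * b * g ^ 3 * (E' ^ 3 / N) := by
  have hA0 : 0 < A := by linarith
  have hb0 : 0 < b := by linarith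
  have hg0 : 0 < g := by linarith
  have hR0 : 0 < R := by rw [hR]; positivity
  have hA6 : 1 ≤ A ^ 6 := one_le_pow₀ hA
  have hJ2 : J ^ 2 ≤ (2 * (g * E') / (A ^ 2 * E)) ^ 2 := pow_le_pow_left₀ hJ0.le hJ 2
  have h0 : 0 < D0 := lt_of_lt_of_le (by positivity) hD0
  have h1 : D0 / (2 * J ^ 2) ≤ Dr + t := by
    rw [div_le_iff₀ (by positivity)]
    linarith
  obtain ⟨Y, hY⟩ : ∃ Y : ℝ, Y = A ^ 6 * E ^ 3 / (32 * b * g ^ 2 * E' ^ 2) := ⟨_, rfl⟩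
  have hY0 : 0 < Y := by rw [hY]; positivity
  have h2 : 2 * Y ≤ D0 / (2 * J ^ 2) := by
    calc 2 * Y = (A ^ 2 * E / (2 * b)) / (2 * (2 * (g * E') / (A ^ 2 * E)) ^ 2) := by
          rw [hY]
          field_simp
          ring
      _ ≤ D0 / (2 * J ^ 2) := div_le_div₀ h0.le hD0 (by positivity) (by linarith)
  have h3 : 5 * (q * E) ≤ Y := by
    rw [hY, le_div_iff₀ (by positivity)]
    have h4 : 5 * (q * E) * (32 * b * g ^ 2 * E' ^ 2) ≤ 5 * (q * E) * (32 * b * g ^ 2 * (K ^ 2 * R * E ^ 2)) := by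
      refine mul_le_mul_of_nonneg_left ?_ (by positivity)
      exact mul_le_mul_of_nonneg_left hK (by positivity)
    have h5 : 5 * (q * E) * (32 * b * g ^ 2 * (K ^ 2 * R * E ^ 2)) = (160 * K ^ 2 * q * b * g ^ 2 * R) * E ^ 3 := by ring
    have h6 : (160 * K ^ 2 * q * b * g ^ 2 * R) * E ^ 3 ≤ 1 * E ^ 3 := mul_le_mul_of_nonneg_right hq (by positivity)
    have h7 : 1 * E ^ 3 ≤ A ^ 6 * E ^ 3 := mul_le_mul_of_nonneg_right hA6 (by positivity)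
    linarith
  have h8 : Y ≤ Dr - 4 * (q * E) := by linarith
  have h9 : R * Y ≤ g * E' := (mul_le_mul_of_nonneg_left h8 hR0.le).trans hF
  have h10 : R * (E ^ 3 / (32 * b * g ^ 2 * E' ^ 2)) ≤ g * E' := by
    refine le_trans ?_ h9
    rw [hY]
    refine mul_le_mul_of_nonneg_left ?_ hR0.le
    refine div_le_div_of_nonneg_right ?_ (by positivity)
    exact le_mul_of_one_le_left (pow_pos hE 3).le hA6
  have e1 : E ^ 3 / n = (R * (E ^ 3 / (32 * b * g ^ 2 * E' ^ 2))) * (32 * b * g ^ 2 * E' ^ 2 / N) := by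
    rw [hR]
    field_simp
  rw [e1]
  calc (R * (E ^ 3 / (32 * b * g ^ 2 * E' ^ 2))) * (32 * b * g ^ 2 * E' ^ 2 / N) ≤
        (g * E') * (32 * b * g ^ 2 * E' ^ 2 / N) := mul_le_mul_of_nonneg_right h10 (by positivity)
    _ = 32 * b * g ^ 3 * (E' ^ 3 / N) := by
        field_simp

section core

variable {F : ℕ → ℕ → ℝ → ℝ}

/-- The second difference in the force. -/
def DL47 (F : ℕ → ℕ → ℝ → ℝ) (M L : ℕ) (r : ℝ) : ℝ := F M L r + F M L (-r) - 2 * F M L 0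

/-- The sum over the blocks. -/
theorem dsum47 (hF0 : ∀ L h, F 0 L h = F 0 L 0) {n J L : ℕ} {r D B : ℝ}
    (h : ∀ l, l < J → |DL47 F (n + l * n) L r - DL47 F (l * n) L r - D| ≤ B) :
    |DL47 F (J * n) L r - J * D| ≤ J * B := by
  have h0 : DL47 F (0 * n) L r = 0 := by
    rw [zero_mul]
    unfold DL47
    rw [hF0 L r, hF0 L (-r)]
    ring
  have e0 : ∀ l : ℕ, n + l * n = (l + 1) * n := by
    intro l
    ring
  have e : DL47 F (J * n) L r - J * D =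
      ∑ l ∈ Finset.range J, (DL47 F (n + l * n) L r - DL47 F (l * n) L r - D) := by
    rw [Finset.sum_sub_distrib, Finset.sum_const, Finset.card_range, nsmul_eq_mul]
    simp only [e0]
    rw [Finset.sum_range_sub (fun l => DL47 F (l * n) L r) J, h0, sub_zero]
  rw [e]
  refine (Finset.abs_sum_le_sum_abs _ _).trans ?_
  refine (Finset.sum_le_sum fun l hl => h l (Finset.mem_range.1 hl)).trans (le_of_eq ?_)
  rw [Finset.sum_const, Finset.card_range, nsmul_eq_mul]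

/-- The second difference of one block. -/
theorem dblk47 {n M L : ℕ} {Ψ : ℝ → ℝ} {K₀ K₁ r B : ℝ}
    (h0 : |F (n + M) L 0 - F M L 0 - K₀ - K₁ * 0 - Ψ 0| ≤ B)
    (h1 : |F (n + M) L r - F M L r - K₀ - K₁ * r - Ψ r| ≤ B)
    (h2 : |F (n + M) L (-r) - F M L (-r) - K₀ - K₁ * -r - Ψ (-r)| ≤ B) :
    |DL47 F (n + M) L r - DL47 F M L r - (Ψ r + Ψ (-r) - 2 * Ψ 0)| ≤ 4 * B := by
  rw [abs_le] at h0 h1 h2 ⊢
  unfold DL47
  constructor <;> linarith [h0.1, h0.2, h1.1, h1.2, h2.1, h2.2]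

variable {μ : Measure ℝ} {s : ℝ} [IsProbabilityMeasure μ] {c C : ℝ} {n₀ : ℕ}

/-- **Curvature at the tilt `h₀ = 1 / (A ^ 2 EE n)`**, `A = n ^ δ`, `a = n ^ δ'`. -/
theorem curv47 (h : In μ s c C n₀) (hF0 : ∀ L h, F 0 L h = F 0 L 0) {n m : ℕ} {Ψ : ℝ → ℝ} {a A a₀ K b q κ δ' c' : ℝ} (hn1 : 1 ≤ n)
    (hn2 : (2 : ℝ) ≤ n) (ha₀ : 0 < a₀) (ha₀1 : a₀ < 1) (hK1 : 1 ≤ K)
    (hG : ∀ M M' : ℕ, n ≤ M → M ≤ M' → EE μ s M ≤ K * EE μ s M' ∧ K⁻¹ * ((M' : ℝ) / M) ^ a₀ * EE μ s M ≤ EE μ s M' ∧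
      EE μ s M' ≤ K * Real.sqrt ((M' : ℝ) / M) * EE μ s M)
    (hlow : ∀ N, n ≤ N → ∀ (L : ℕ) (r : ℝ), 0 ≤ r →
      2 * (r * (c * wd μ s N) - r - C * EE μ s N) + 2 * F 0 L 0 ≤ F N L r + F N L (-r))
    (hpig : ∀ N, n ≤ N → ∃ L : ℕ, N ^ 3 ≤ L ∧ L ≤ 2 * N ^ 3 ∧ F N L 0 ≤ F 0 L 0 + 1)
    (hU : ∀ N, n ≤ N → EE μ s N ^ 2 ≤ (N : ℝ) ^ δ' * wd μ s N)
    (ha : a = (n : ℝ) ^ δ') (hδ' : 0 < δ') (ha2 : 2 * K ≤ a) (hac : C + 3 ≤ c * a) (haA : a ^ 8 ≤ A) (haκ : a ^ 8 ≤ (n : ℝ) ^ κ)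
    (hκ : 0 < κ) (hb : b = (A ^ 3) ^ (1 / a₀)) (hbn : b ≤ (n : ℝ) ^ c') (hbn1 : b ≤ n) (hq : 8 * q * b ≤ 1) (hq0 : 0 ≤ q)
    (hM : ∀ N : ℕ, n ≤ N → (N : ℝ) ≤ (n : ℝ) ^ (1 + c') → ∀ L : ℕ, N ^ 3 ≤ L → L ≤ 2 * N ^ 3 → ∀ M : ℕ, M ≤ N → ∃ K₀ K₁ : ℝ,
      ∀ h : ℝ, |h| * EE μ s n ≤ (A ^ 2)⁻¹ → |h| * EE μ s N ≤ (N : ℝ) ^ κ →
        |F (n + M) L h - F M L h - K₀ - K₁ * h - Ψ h| ≤ q * EE μ s n) :
    A ^ 2 * EE μ s n / (2 * b) ≤
      Ψ (1 / (A ^ 2 * EE μ s n)) + Ψ (-(1 / (A ^ 2 * EE μ s n))) - 2 * Ψ 0 := by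
  have hnR : (1 : ℝ) ≤ n := by exact_mod_cast hn1
  have hn0 : (0 : ℝ) < n := by linarith
  have ha1 : 2 ≤ a := by linarith
  have ha0 : 0 < a := by linarith
  have hA1 : 1 ≤ A := (one_le_pow₀ (by linarith : 1 ≤ a)).trans haA
  have hA0 : 0 < A := by linarith
  obtain ⟨E, hE⟩ : ∃ E : ℝ, E = EE μ s n := ⟨_, rfl⟩
  have hE1 : 1 ≤ E := by rw [hE]; exact one_le_EE n
  have hE0 : 0 < E := by linarith
  rw [← hE]
  obtain ⟨X, hX⟩ : ∃ X : ℝ, X = A ^ 2 * a ^ 3 * E := ⟨_, rfl⟩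
  have hX0 : 0 < X := by rw [hX]; positivity
  have ha3 : 2 ≤ a ^ 3 := by
    have : a ≤ a ^ 3 := le_self_pow₀ (by linarith) (by norm_num)
    linarith
  have hA2 : 1 ≤ A ^ 2 := one_le_pow₀ hA1
  have hEX : E < X := by
    rw [hX]
    have h1 : 1 * 2 ≤ A ^ 2 * a ^ 3 := mul_le_mul hA2 ha3 (by norm_num) (by positivity)
    have h2 := mul_le_mul_of_nonneg_right h1 hE0.le
    linarith only [h2, hE0]
  -- the scale
  have hex : ∃ j : ℕ, 1 ≤ j ∧ X ≤ EE μ s (j * n) := by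
    have h1 : Tendsto (fun j : ℕ => j * n) atTop atTop :=
      tendsto_atTop_mono (fun j => Nat.le_mul_of_pos_right j (by omega)) tendsto_id
    have h2 := (h.tE.comp h1).eventually (eventually_ge_atTop X)
    obtain ⟨j, hj1, hj2⟩ := (h2.and (eventually_ge_atTop 1)).exists
    exact ⟨j, hj2, hj1⟩
  classical
  obtain ⟨j, hj⟩ : ∃ j : ℕ, j = Nat.find hex := ⟨_, rfl⟩
  have hj1 : 1 ≤ j ∧ X ≤ EE μ s (j * n) := by rw [hj]; exact Nat.find_spec hex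
  have hj2 : 2 ≤ j := by
    by_contra hcon
    push Not at hcon
    have h1 : j = 1 := by omega
    have h2 := hj1.2
    rw [h1, one_mul, ← hE] at h2
    linarith
  have hjm : EE μ s ((j - 1) * n) < X := by
    by_contra hcon
    push Not at hcon
    have h1 : j - 1 < Nat.find hex := by omega
    exact Nat.find_min hex h1 ⟨by omega, hcon⟩
  obtain ⟨N, hN⟩ : ∃ N : ℕ, N = j * n := ⟨_, rfl⟩
  rw [← hN] at hj1
  obtain ⟨E1, hE1'⟩ : ∃ E1 : ℝ, E1 = EE μ s N := ⟨_, rfl⟩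
  rw [← hE1'] at hj1
  have hnN : n ≤ N := by rw [hN]; exact Nat.le_mul_of_pos_left n (by omega)
  have hjR : (2 : ℝ) ≤ j := by exact_mod_cast hj2
  have hNR : (N : ℝ) = j * n := by rw [hN]; push_cast; ring
  have hNn : (N : ℝ) / n = j := by
    rw [hNR]
    field_simp
  have hE1up : E1 ≤ 2 * K * X := by
    have h1 := (hG ((j - 1) * n) N (Nat.le_mul_of_pos_left n (by omega)) (by
      rw [hN]; exact Nat.mul_le_mul_right n (by omega))).2.2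
    rw [← hE1'] at h1
    have h2 : Real.sqrt ((N : ℝ) / (((j - 1) * n : ℕ) : ℝ)) ≤ 2 := by
      rw [Real.sqrt_le_left (by norm_num)]
      have e1 : (((j - 1) * n : ℕ) : ℝ) = ((j : ℝ) - 1) * n := by
        push_cast
        rw [Nat.cast_sub (by omega)]
        push_cast
        ring
      rw [e1, hNR, div_le_iff₀ (mul_pos (by linarith only [hjR]) hn0)]
      have h3 := mul_le_mul_of_nonneg_right hjR hn0.le
      linarith only [h3, hn0]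
    have h3 : 0 < EE μ s ((j - 1) * n) := EE_pos _
    have h4 : K * Real.sqrt ((N : ℝ) / (((j - 1) * n : ℕ) : ℝ)) * EE μ s ((j - 1) * n) ≤ K * 2 * X := by
      refine mul_le_mul (mul_le_mul_of_nonneg_left h2 (by linarith)) hjm.le h3.le (by positivity)
    linarith
  have hE1a : E1 ≤ a ^ 4 * (A ^ 2 * E) := by
    have h1 : 2 * K * X ≤ a * X := mul_le_mul_of_nonneg_right ha2 hX0.le
    have h2 : a * X = a ^ 4 * (A ^ 2 * E) := by rw [hX]; ring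
    linarith
  have hEE1 : 0 < E1 := by linarith [hj1.2]
  -- `j ≤ b`
  have hjb : (j : ℝ) ≤ b := by
    have h1 := (hG n N le_rfl hnN).2.1
    rw [← hE1', ← hE, hNn] at h1
    have h2 : (j : ℝ) ^ a₀ ≤ A ^ 3 := by
      have h3 : (j : ℝ) ^ a₀ * E ≤ K * E1 := by
        have h4 : (j : ℝ) ^ a₀ * E = K * (K⁻¹ * (j : ℝ) ^ a₀ * E) := by
          field_simp
        rw [h4]
        exact mul_le_mul_of_nonneg_left h1 (by linarith)
      have h4 : K * E1 ≤ A ^ 3 * E := by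
        have h5 : K * E1 ≤ a * (a ^ 4 * (A ^ 2 * E)) := mul_le_mul (by linarith) hE1a hEE1.le ha0.le
        have h6 : a * (a ^ 4 * (A ^ 2 * E)) = a ^ 5 * (A ^ 2 * E) := by ring
        have h7 : a ^ 5 ≤ A := (pow_le_pow_right₀ (by linarith) (by norm_num)).trans haA
        have h8 : a ^ 5 * (A ^ 2 * E) ≤ A * (A ^ 2 * E) := mul_le_mul_of_nonneg_right h7 (by positivity)
        have h9 : A * (A ^ 2 * E) = A ^ 3 * E := by ring
        linarith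
      exact le_of_mul_le_mul_right (h3.trans h4) hE0
    rw [hb]
    calc (j : ℝ) = ((j : ℝ) ^ a₀) ^ (1 / a₀) := by
          rw [← Real.rpow_mul (by positivity), mul_one_div_cancel ha₀.ne', Real.rpow_one]
      _ ≤ (A ^ 3) ^ (1 / a₀) := Real.rpow_le_rpow (by positivity) h2 (by positivity)
  have hNc : (N : ℝ) ≤ (n : ℝ) ^ (1 + c') := by
    rw [hNR, Real.rpow_add hn0, Real.rpow_one, mul_comm]
    exact mul_le_mul_of_nonneg_left (hjb.trans hbn) hn0.le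
  have hN2 : (N : ℝ) ≤ (n : ℝ) ^ (2 : ℕ) := by
    rw [hNR, sq]
    exact mul_le_mul_of_nonneg_right (hjb.trans hbn1) hn0.le
  have hN0 : (0 : ℝ) < N := by
    have : (n : ℝ) ≤ N := by exact_mod_cast hnN
    linarith
  -- the tilt
  obtain ⟨r, hr⟩ : ∃ r : ℝ, r = 1 / (A ^ 2 * E) := ⟨_, rfl⟩
  rw [← hr]
  have hr0 : 0 < r := by rw [hr]; positivity
  have hrE : r * E = (A ^ 2)⁻¹ := by
    rw [hr]
    field_simp
  have hr1 : r ≤ 1 := by
    rw [hr, div_le_one (by positivity)]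
    exact one_le_mul_of_one_le_of_one_le hA2 hE1
  have hrE1 : r * E1 ≤ a ^ 4 := by
    calc r * E1 ≤ r * (a ^ 4 * (A ^ 2 * E)) := mul_le_mul_of_nonneg_left hE1a hr0.le
      _ = a ^ 4 := by
          rw [hr]
          field_simp
  have hrE3 : a ^ 3 ≤ r * E1 := by
    calc a ^ 3 = r * X := by
          rw [hr, hX]
          field_simp
      _ ≤ r * E1 := mul_le_mul_of_nonneg_left hj1.2 hr0.le
  have habs : |r| = r := abs_of_pos hr0
  have hrN : r * E1 ≤ (N : ℝ) ^ κ := by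
    refine hrE1.trans ((pow_le_pow_right₀ (by linarith) (by norm_num) : a ^ 4 ≤ a ^ 8).trans (haκ.trans ?_))
    exact Real.rpow_le_rpow hn0.le (by exact_mod_cast hnN) hκ.le
  obtain ⟨L, hL1, hL2, hL3⟩ := hpig N hnN
  have hblk : ∀ l, l < j → |DL47 F (n + l * n) L r - DL47 F (l * n) L r - (Ψ r + Ψ (-r) - 2 * Ψ 0)| ≤ 4 * (q * E) := by
    intro l hl
    obtain ⟨K₀, K₁, hA⟩ := hM N hnN hNc L hL1 hL2 (l * n) (by rw [hN]; exact Nat.mul_le_mul_right n hl.le)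
    rw [← hE, ← hE1'] at hA
    have A1 := hA r (by rw [habs, hrE]) (by rw [habs]; exact hrN)
    have A2 := hA (-r) (by rw [abs_neg, habs, hrE]) (by rw [abs_neg, habs]; exact hrN)
    have A3 := hA 0 (by rw [abs_zero, zero_mul]; positivity) (by rw [abs_zero, zero_mul]; positivity)
    exact dblk47 A3 A1 A2
  have hsum := dsum47 hF0 hblk
  rw [← hN] at hsum
  -- the lower bound
  have hFlow : E1 ≤ DL47 F N L r := by
    have h1 := hlow N hnN L r hr0.le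
    have h3 := hU N hnN
    rw [← hE1'] at h1 h3
    have h4 : (N : ℝ) ^ δ' ≤ a ^ 2 := by
      calc (N : ℝ) ^ δ' ≤ ((n : ℝ) ^ (2 : ℕ)) ^ δ' := Real.rpow_le_rpow hN0.le hN2 hδ'.le
        _ = a ^ 2 := by
            rw [ha, ← Real.rpow_natCast, ← Real.rpow_natCast, ← Real.rpow_mul hn0.le, ← Real.rpow_mul hn0.le]
            congr 1
            ring
    have hwN : 0 ≤ wd μ s N := by
      have := (h.vA_pos (by omega : 1 ≤ N)).le
      unfold wd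
      positivity
    have h5 : E1 ^ 2 ≤ a ^ 2 * wd μ s N := h3.trans (mul_le_mul_of_nonneg_right h4 hwN)
    have hc0 := h.c0
    have h6 : (C + 3) * E1 ≤ r * (c * wd μ s N) := by
      have h7 : a ^ 2 * (r * (c * wd μ s N)) = r * c * (a ^ 2 * wd μ s N) := by ring
      have h8 : r * c * E1 ^ 2 ≤ r * c * (a ^ 2 * wd μ s N) := mul_le_mul_of_nonneg_left h5 (by positivity)
      have h9 : r * c * E1 ^ 2 = c * E1 * (r * E1) := by ring
      have h10 : c * E1 * a ^ 3 ≤ c * E1 * (r * E1) := mul_le_mul_of_nonneg_left hrE3 (by positivity)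
      have h11 : (C + 3) * E1 * a ^ 2 ≤ (c * a) * E1 * a ^ 2 :=
        mul_le_mul_of_nonneg_right (mul_le_mul_of_nonneg_right hac hEE1.le) (by positivity)
      have h12 : (c * a) * E1 * a ^ 2 = c * E1 * a ^ 3 := by ring
      have h13 : a ^ 2 * ((C + 3) * E1) ≤ a ^ 2 * (r * (c * wd μ s N)) := by
        rw [h7]
        linarith
      exact le_of_mul_le_mul_left h13 (by positivity)
    have hE11 : 1 ≤ E1 := by linarith [hj1.2]
    unfold DL47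
    linarith
  have hF : E1 ≤ j * ((Ψ r + Ψ (-r) - 2 * Ψ 0) + 4 * (q * E)) := by
    have h1 := (abs_le.1 hsum).2
    linarith
  have hb1 : 1 ≤ b := by linarith
  have h1 := numA47 (D := Ψ r + Ψ (-r) - 2 * Ψ 0) hb1 hX0 hE0 hEX.le (by positivity) hjb hj1.2 hF hq hq0
  refine le_trans ?_ h1
  refine div_le_div_of_nonneg_right ?_ (by positivity)
  rw [hX]
  have : A ^ 2 * 1 * E ≤ A ^ 2 * a ^ 3 * E :=
    mul_le_mul_of_nonneg_right (mul_le_mul_of_nonneg_left (by linarith) (by positivity)) hE0.le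
  linarith

/-- **The scale `N = j n`**, from the curvature at `h₀ = 1 / (A ^ 2 EE n)`. -/
theorem last47 (hF0 : ∀ L h, F 0 L h = F 0 L 0) {n m k j : ℕ} {v : ℝ≥0} {P : Env → Fin (m + 1) → ℝ}
    (hP : ∀ k, Measurable fun η => P η k) (hP0 : ∀ η k, 0 ≤ P η k) (hPs : ∀ η, 0 < ∑ k, P η k)
    {a A a₀ K b g q κ c' : ℝ} (hn1 : 1 ≤ n) (hj1 : 1 ≤ j)
    (ha₀ : 0 < a₀) (hK1 : 1 ≤ K)
    (hG : ∀ M M' : ℕ, n ≤ M → M ≤ M' → EE μ s M ≤ K * EE μ s M' ∧ K⁻¹ * ((M' : ℝ) / M) ^ a₀ * EE μ s M ≤ EE μ s M' ∧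
      EE μ s M' ≤ K * Real.sqrt ((M' : ℝ) / M) * EE μ s M)
    (hup : ∃ L : ℕ, (j * n) ^ 3 ≤ L ∧ L ≤ 2 * (j * n) ^ 3 ∧ ∀ r : ℝ, |r| * EE μ s (j * n) ≤ g⁻¹ →
      DL47 F (j * n) L r ≤ g * EE μ s (j * n))
    (ha1 : 1 ≤ a) (hg1 : 1 ≤ g) (haA : a ^ 8 ≤ A) (hKA : K ≤ A) (hκ : 0 < κ) (hb : b = (A ^ 3) ^ (1 / a₀))
    (hjc : (((j * n : ℕ)) : ℝ) ≤ (n : ℝ) ^ (1 + c')) (hq : 160 * K ^ 2 * q * b * g ^ 2 * j ≤ 1) (hq0 : 0 ≤ q)
    (hmA : (m : ℝ) ≤ A * (a * EE μ s n ^ 2)) (hvA : A⁻¹ ≤ v) (hk : (k : ℝ) + 1 ≤ a ^ 2) (hgeo : (5 / 6 : ℝ) ^ k ≤ q)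
    (hM : ∀ N : ℕ, n ≤ N → (N : ℝ) ≤ (n : ℝ) ^ (1 + c') → ∀ L : ℕ, N ^ 3 ≤ L → L ≤ 2 * N ^ 3 → ∀ M : ℕ, M ≤ N → ∃ K₀ K₁ : ℝ,
      ∀ h : ℝ, |h| * EE μ s n ≤ (A ^ 2)⁻¹ → |h| * EE μ s N ≤ (N : ℝ) ^ κ →
        |F (n + M) L h - F M L h - K₀ - K₁ * h - Psi (law μ) m v P h| ≤ q * EE μ s n)
    (hcv : A ^ 2 * EE μ s n / (2 * b) ≤ Psi (law μ) m v P (1 / (A ^ 2 * EE μ s n)) +
      Psi (law μ) m v P (-(1 / (A ^ 2 * EE μ s n))) - 2 * Psi (law μ) m v P 0) :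
    EE μ s n ^ 3 / n ≤ (32 + K ^ 3) * b * g ^ 3 * (EE μ s (j * n) ^ 3 / ((j * n : ℕ) : ℝ)) := by
  have hnR : (1 : ℝ) ≤ n := by exact_mod_cast hn1
  have hn0 : (0 : ℝ) < n := by linarith
  have ha0 : 0 < a := by linarith
  have hA1 : 1 ≤ A := (one_le_pow₀ ha1).trans haA
  have hA0 : 0 < A := by linarith
  have hg0 : 0 < g := by linarith
  obtain ⟨E, hE⟩ : ∃ E : ℝ, E = EE μ s n := ⟨_, rfl⟩
  have hE1 : 1 ≤ E := by rw [hE]; exact one_le_EE n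
  have hE0 : 0 < E := by linarith
  obtain ⟨N, hN⟩ : ∃ N : ℕ, N = j * n := ⟨_, rfl⟩
  obtain ⟨E', hE'⟩ : ∃ E' : ℝ, E' = EE μ s N := ⟨_, rfl⟩
  have hE1' : 1 ≤ E' := by rw [hE']; exact one_le_EE N
  have hE0' : 0 < E' := by linarith
  rw [← hE] at hcv hmA ⊢
  rw [← hN] at hup hjc ⊢
  rw [← hE'] at hup ⊢
  have hnN : n ≤ N := by rw [hN]; exact Nat.le_mul_of_pos_left n (by omega)
  have hnNR : (n : ℝ) ≤ N := by exact_mod_cast hnN
  have hN0 : (0 : ℝ) < N := by linarith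
  have hjR : (1 : ℝ) ≤ j := by exact_mod_cast hj1
  have hNR : (N : ℝ) = j * n := by rw [hN]; push_cast; ring
  have hNn : (j : ℝ) = (N : ℝ) / n := by
    rw [hNR]
    field_simp
  have hb1 : 1 ≤ b := by
    rw [hb]
    exact Real.one_le_rpow (one_le_pow₀ hA1) (by positivity)
  have hb0 : 0 < b := by linarith
  have hX0 : 0 ≤ E' ^ 3 / N := by positivity
  have hg3 : 1 ≤ g ^ 3 := one_le_pow₀ hg1
  have hG1 := hG n N le_rfl hnN
  rw [← hE, ← hE', ← hNn] at hG1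
  rcases lt_or_ge E' (A ^ 2 * E) with hcase | hcase
  · -- short scales
    have hjb : (j : ℝ) ≤ b := by
      have h2 : (j : ℝ) ^ a₀ ≤ A ^ 3 := by
        have h3 : (j : ℝ) ^ a₀ * E ≤ K * E' := by
          have h4 : (j : ℝ) ^ a₀ * E = K * (K⁻¹ * (j : ℝ) ^ a₀ * E) := by
            field_simp
          rw [h4]
          exact mul_le_mul_of_nonneg_left hG1.2.1 (by linarith)
        have h4 : K * E' ≤ A ^ 3 * E := by
          have h5 : K * E' ≤ A * (A ^ 2 * E) := mul_le_mul hKA hcase.le hE0'.le hA0.le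
          linarith [show A * (A ^ 2 * E) = A ^ 3 * E by ring]
        exact le_of_mul_le_mul_right (h3.trans h4) hE0
      rw [hb]
      calc (j : ℝ) = ((j : ℝ) ^ a₀) ^ (1 / a₀) := by
            rw [← Real.rpow_mul (by positivity), mul_one_div_cancel ha₀.ne', Real.rpow_one]
        _ ≤ (A ^ 3) ^ (1 / a₀) := Real.rpow_le_rpow (by positivity) h2 (by positivity)
    have h1 : E ^ 3 ≤ (K * E') ^ 3 := pow_le_pow_left₀ hE0.le hG1.1 3
    have h2 : E ^ 3 / n ≤ (K * E') ^ 3 / n := div_le_div_of_nonneg_right h1 hn0.le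
    have h3 : (K * E') ^ 3 / n = K ^ 3 * j * (E' ^ 3 / N) := by
      rw [hNR]
      field_simp
    have h4 : K ^ 3 * j * (E' ^ 3 / N) ≤ (32 + K ^ 3) * b * g ^ 3 * (E' ^ 3 / N) := by
      refine mul_le_mul_of_nonneg_right ?_ hX0
      have h5 : K ^ 3 * j ≤ K ^ 3 * b := mul_le_mul_of_nonneg_left hjb (by positivity)
      have h6 : K ^ 3 * b ≤ (32 + K ^ 3) * b := mul_le_mul_of_nonneg_right (by linarith) hb0.le
      have h7 : (32 + K ^ 3) * b * 1 ≤ (32 + K ^ 3) * b * g ^ 3 := mul_le_mul_of_nonneg_left hg3 (by positivity)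
      linarith
    linarith
  · -- the tilt
    obtain ⟨h₀, hh₀⟩ : ∃ h₀ : ℝ, h₀ = 1 / (A ^ 2 * E) := ⟨_, rfl⟩
    rw [← hh₀] at hcv
    have hh0 : 0 < h₀ := by rw [hh₀]; positivity
    obtain ⟨J, hJ⟩ : ∃ J : ℕ, J = ⌈h₀ * (g * E')⌉₊ := ⟨_, rfl⟩
    have hx1 : 1 ≤ h₀ * (g * E') := by
      rw [hh₀, one_div, ← div_eq_inv_mul, le_div_iff₀ (by positivity), one_mul]
      have : 1 * E' ≤ g * E' := mul_le_mul_of_nonneg_right hg1 hE0'.le
      linarith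
    have hJ1 : h₀ * (g * E') ≤ J := by rw [hJ]; exact Nat.le_ceil _
    have hJ2 : (J : ℝ) < h₀ * (g * E') + 1 := by rw [hJ]; exact Nat.ceil_lt_add_one (by positivity)
    have hJ0 : (0 : ℝ) < J := by linarith
    obtain ⟨r, hr⟩ : ∃ r : ℝ, r = h₀ / J := ⟨_, rfl⟩
    have hr0 : 0 < r := by rw [hr]; positivity
    have hJr : (J : ℝ) * r = h₀ := by
      rw [hr]
      field_simp
    have habs : |r| = r := abs_of_pos hr0
    have hrh : r ≤ h₀ := by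
      rw [hr]
      exact div_le_self hh0.le (by linarith)
    have hrE : r * E ≤ (A ^ 2)⁻¹ := by
      calc r * E ≤ h₀ * E := mul_le_mul_of_nonneg_right hrh hE0.le
        _ = (A ^ 2)⁻¹ := by
            rw [hh₀]
            field_simp
    have hrE' : r * E' ≤ g⁻¹ := by
      rw [hr, div_mul_eq_mul_div, div_le_iff₀ hJ0, inv_mul_eq_div, le_div_iff₀ hg0]
      linarith [show h₀ * E' * g = h₀ * (g * E') by ring]
    have hrN : r * E' ≤ (N : ℝ) ^ κ := by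
      refine hrE'.trans ((inv_le_one_of_one_le₀ hg1).trans ?_)
      exact Real.one_le_rpow (by linarith) hκ.le
    obtain ⟨L, hL1, hL2, hL3⟩ := hup
    have hD := hL3 r (by rw [habs]; exact hrE')
    obtain ⟨D, hDd⟩ : ∃ D : ℝ, D = Psi (law μ) m v P r + Psi (law μ) m v P (-r) - 2 * Psi (law μ) m v P 0 := ⟨_, rfl⟩
    have hblk : ∀ l, l < j → |DL47 F (n + l * n) L r - DL47 F (l * n) L r - D| ≤ 4 * (q * E) := by
      intro l hl
      obtain ⟨K₀, K₁, hA⟩ := hM N hnN hjc L hL1 hL2 (l * n) (by rw [hN]; exact Nat.mul_le_mul_right n hl.le)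
      rw [← hE, ← hE'] at hA
      have A1 := hA r (by rw [habs]; exact hrE) (by rw [habs]; exact hrN)
      have A2 := hA (-r) (by rw [abs_neg, habs]; exact hrE) (by rw [abs_neg, habs]; exact hrN)
      have A3 := hA 0 (by rw [abs_zero, zero_mul]; positivity) (by rw [abs_zero, zero_mul]; positivity)
      rw [hDd]
      exact dblk47 A3 A1 A2
    have hsum := dsum47 hF0 hblk
    rw [← hN] at hsum
    have hFR : (j : ℝ) * (D - 4 * (q * E)) ≤ g * E' := by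
      have h1 := (abs_le.1 hsum).1
      linarith
    have hv0 : 0 < (v : ℝ) := lt_of_lt_of_le (by positivity) hvA
    have hvne : v ≠ 0 := by
      intro h0
      rw [h0] at hv0
      simp at hv0
    have hmE : (m : ℝ) * h₀ ≤ E := by
      calc (m : ℝ) * h₀ ≤ A * (a * E ^ 2) * h₀ := mul_le_mul_of_nonneg_right hmA hh0.le
        _ = a / A * E := by
            rw [hh₀]
            field_simp
        _ ≤ 1 * E := by
            refine mul_le_mul_of_nonneg_right ?_ hE0.le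
            rw [div_le_one hA0]
            exact (le_self_pow₀ ha1 (by norm_num)).trans haA
        _ = E := one_mul E
    have hq1 : ((k : ℝ) + 1) * (m * (J * r) ^ 2 / v) ≤ 1 := by
      rw [hJr]
      have h1 : (m : ℝ) * h₀ ^ 2 ≤ a / A ^ 3 := by
        calc (m : ℝ) * h₀ ^ 2 ≤ A * (a * E ^ 2) * h₀ ^ 2 := mul_le_mul_of_nonneg_right hmA (by positivity)
          _ = a / A ^ 3 := by
              rw [hh₀]
              field_simp
      have h2 : (m : ℝ) * h₀ ^ 2 / v ≤ a / A ^ 2 := by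
        rw [div_le_iff₀ hv0]
        have h3 : a / A ^ 2 * A⁻¹ ≤ a / A ^ 2 * v := mul_le_mul_of_nonneg_left hvA (by positivity)
        have h4 : a / A ^ 2 * A⁻¹ = a / A ^ 3 := by
          field_simp
        linarith
      have h3 : ((k : ℝ) + 1) * (m * h₀ ^ 2 / v) ≤ a ^ 2 * (a / A ^ 2) :=
        mul_le_mul hk h2 (by positivity) (by positivity)
      refine h3.trans ?_
      rw [mul_div_assoc', div_le_one (by positivity)]
      have h4 : a ^ 2 * a ≤ a ^ 8 := by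
        have : a ^ 3 ≤ a ^ 8 := pow_le_pow_right₀ ha1 (by norm_num)
        linarith [show a ^ 2 * a = a ^ 3 by ring]
      have h5 : A ≤ A ^ 2 := le_self_pow₀ hA1 (by norm_num)
      linarith
    have hps := psi47 (ν := law μ) (m := m) (P := P) hvne hP hP0 hPs (r := r) (N := J) (k := k) hq1
    rw [hJr, ← hDd, habs] at hps
    obtain ⟨t, ht⟩ : ∃ t : ℝ, t = m * r * (5 / 6) ^ k := ⟨_, rfl⟩
    have htq : t ≤ q * E := by
      rw [ht]
      have h1 : (m : ℝ) * r ≤ E := (mul_le_mul_of_nonneg_left hrh (Nat.cast_nonneg m)).trans hmE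
      calc (m : ℝ) * r * (5 / 6) ^ k ≤ E * q := mul_le_mul h1 hgeo (by positivity) hE0.le
        _ = q * E := mul_comm _ _
    have hps2 : Psi (law μ) m v P h₀ + Psi (law μ) m v P (-h₀) - 2 * Psi (law μ) m v P 0 ≤ (J : ℝ) ^ 2 * (2 * D + 2 * t) := by
      refine hps.trans (le_of_eq ?_)
      rw [ht]
      ring
    have hJ3 : (J : ℝ) ≤ 2 * (g * E') / (A ^ 2 * E) := by
      have h1 : 2 * (g * E') / (A ^ 2 * E) = 2 * (h₀ * (g * E')) := by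
        rw [hh₀]
        field_simp
      rw [h1]
      linarith
    have hK2 : E' ^ 2 ≤ K ^ 2 * j * E ^ 2 := by
      have h2 := pow_le_pow_left₀ hE0'.le hG1.2.2 2
      have h3 : (K * Real.sqrt (j : ℝ) * E) ^ 2 = K ^ 2 * j * E ^ 2 := by
        rw [mul_pow, mul_pow, Real.sq_sqrt (by positivity)]
      linarith
    have hfin := numB47 (R := (j : ℝ)) (n := n) (N := N) (E := E) (E' := E') (A := A) (b := b) (g := g) (K := K) (q := q)
      (Dr := D) (t := t) (J := J) hn0 hN0 hNn hE0 hE0' hA1 hb1 hg1 hcv hJ3 hJ0 hps2 htq hFR hK2 hq hq0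
    refine hfin.trans (mul_le_mul_of_nonneg_right ?_ hX0)
    have h1 : 32 * b ≤ (32 + K ^ 3) * b := mul_le_mul_of_nonneg_right (by linarith [show 0 ≤ K ^ 3 by positivity]) hb0.le
    exact mul_le_mul_of_nonneg_right h1 (by positivity)

/-- **One step of the lower half**: `EE n ^ 3 / n ≤ n ^ ε EE n' ^ 3 / n'` for `n ≤ n' ≤ n ^ (1 + c₁)`. -/
theorem coreL47 (h : In μ s c C n₀) (hL : LB20 μ s) (hU : UB20 μ s) (hF0 : ∀ L h, F 0 L h = F 0 L 0)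
    (hLow : Low47 μ s c C F) (hPig : Pig47 F) (hUp : Up47 μ s F) (hM : LMG47 μ s F) :
    ∃ c₁ : ℝ, 0 < c₁ ∧ ∀ ε : ℝ, 0 < ε → ∃ n₁ : ℕ, ∀ n, n₁ ≤ n → ∀ n' : ℕ, n ≤ n' → (n' : ℝ) ≤ (n : ℝ) ^ (1 + c₁) →
      EE μ s n ^ 3 / n ≤ (n : ℝ) ^ ε * (EE μ s n' ^ 3 / n') := by
  obtain ⟨c', hc', hM⟩ := hM
  obtain ⟨a₀, K, ha₀, ha₁, hK1, hK⟩ := EE'_pow h
  obtain ⟨n₂, hn₂⟩ := wd'_eq h
  obtain ⟨n₆, hlow⟩ := hLow
  have hc0 := h.c0
  have hC1 := h.C1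
  obtain ⟨cc, hcc⟩ : ∃ cc : ℝ, cc = min c' 1 := ⟨_, rfl⟩
  have hcc0 : 0 < cc := by rw [hcc]; exact lt_min hc' one_pos
  have hccc : cc ≤ c' := by rw [hcc]; exact min_le_left _ _
  have hcc1 : cc ≤ 1 := by rw [hcc]; exact min_le_right _ _
  refine ⟨cc / 2, by positivity, fun ε hε => ?_⟩
  obtain ⟨τ, hτ⟩ : ∃ τ : ℝ, τ = min ε cc / 16 := ⟨_, rfl⟩
  have hτ0 : 0 < τ := by
    rw [hτ]
    have := lt_min hε hcc0
    positivity
  have hτε : 16 * τ ≤ ε := by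
    rw [hτ]
    linarith [min_le_left ε cc]
  have hτc : 16 * τ ≤ cc := by
    rw [hτ]
    linarith [min_le_right ε cc]
  obtain ⟨δ, hδ⟩ : ∃ δ : ℝ, δ = τ * a₀ / 3 := ⟨_, rfl⟩
  have hδ0 : 0 < δ := by rw [hδ]; positivity
  obtain ⟨κ, hκ0, hκδ, hM⟩ := hM δ hδ0
  obtain ⟨δ', hδ'⟩ : ∃ δ' : ℝ, δ' = κ / 8 := ⟨_, rfl⟩
  have hδ'0 : 0 < δ' := by rw [hδ']; positivity
  obtain ⟨e, he⟩ : ∃ e : ℝ, e = τ / 12 := ⟨_, rfl⟩
  have he0 : 0 < e := by rw [he]; positivity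
  obtain ⟨n₃, hL⟩ := hL δ' hδ'0
  obtain ⟨n₄, hU⟩ := hU δ' hδ'0
  obtain ⟨n₇, h7⟩ := eventually_atTop.1 hPig
  obtain ⟨n₈, h8⟩ := eventually_atTop.1 (hUp e he0)
  have ev := hM.and ((ev_pow20 (2 * K + (C + 3) / c) hδ'0).and ((geo47 (c := c') hδ'0).and
    ((ev_pow20 (2 + 2 * C) (show 0 < 2 * e by positivity)).and
    (ev_pow20 (160 * K ^ 2 + 8 + (32 + K ^ 3) * (2 * K ^ 3)) hτ0))))
  obtain ⟨n₅, h5⟩ := eventually_atTop.1 ev
  refine ⟨max (max (max n₂ n₃) (max n₄ (max n₅ 2))) (max n₆ (max n₇ n₈)), fun n hn n' hnn' hn' => ?_⟩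
  have g1 : 2 ≤ n := by omega
  have g2 : n₂ ≤ n := by omega
  have g3 : n₃ ≤ n := by omega
  have g4 : n₄ ≤ n := by omega
  have g5 : n₅ ≤ n := by omega
  have g6 : n₆ ≤ n := by omega
  have g7 : n₇ ≤ n := by omega
  have g8 : n₈ ≤ n := by omega
  obtain ⟨⟨y₀, m, v, hy0, hm1, hym, hmw, hv, hM⟩, hbig1, hgeo, hbig2, hbig3⟩ := h5 n g5
  have hnR2 : (2 : ℝ) ≤ n := by exact_mod_cast g1
  have hnR : (1 : ℝ) ≤ n := by linarith
  have hn0 : (0 : ℝ) < n := by linarith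
  obtain ⟨a, ha⟩ : ∃ a : ℝ, a = (n : ℝ) ^ δ' := ⟨_, rfl⟩
  obtain ⟨A, hA⟩ : ∃ A : ℝ, A = (n : ℝ) ^ δ := ⟨_, rfl⟩
  obtain ⟨q, hq⟩ : ∃ q : ℝ, q = (n : ℝ) ^ (-c') := ⟨_, rfl⟩
  obtain ⟨g, hg⟩ : ∃ g : ℝ, g = (n : ℝ) ^ (4 * e) := ⟨_, rfl⟩
  rw [← ha] at hbig1
  have hC3 : 0 < (C + 3) / c := by positivity
  have ha2K : 2 * K ≤ a := by linarith
  have ha2 : 2 ≤ a := by linarith
  have hac : C + 3 ≤ c * a := by
    have h1 : (C + 3) / c ≤ a := by linarith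
    rw [div_le_iff₀ hc0] at h1
    linarith
  have ha8 : a ^ 8 = (n : ℝ) ^ κ := by
    rw [ha, ← Real.rpow_natCast, ← Real.rpow_mul hn0.le]
    congr 1
    rw [hδ']
    push_cast
    ring
  have haA : a ^ 8 ≤ A := by
    rw [ha8, hA]
    exact Real.rpow_le_rpow_of_exponent_le hnR hκδ
  have hA1 : 1 ≤ A := by rw [hA]; exact Real.one_le_rpow hnR hδ0.le
  have hA0 : 0 < A := by linarith
  have haAle : a ≤ A := (le_self_pow₀ (by linarith) (by norm_num)).trans haA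
  have hq0 : 0 ≤ q := by rw [hq]; exact Real.rpow_nonneg hn0.le _
  have hg1 : 1 ≤ g := by rw [hg]; exact Real.one_le_rpow hnR (by positivity)
  have hg0 : 0 < g := by linarith
  have hA2 : (n : ℝ) ^ (-(2 * δ)) = (A ^ 2)⁻¹ := by
    rw [Real.rpow_neg hn0.le, hA, ← Real.rpow_natCast, ← Real.rpow_mul hn0.le]
    congr 2
    push_cast
    ring
  rw [hA2, ← hq] at hM
  obtain ⟨b, hb⟩ : ∃ b : ℝ, b = (A ^ 3) ^ (1 / a₀) := ⟨_, rfl⟩
  have hbτ : b = (n : ℝ) ^ τ := by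
    rw [hb, hA, ← Real.rpow_natCast, ← Real.rpow_mul hn0.le, ← Real.rpow_mul hn0.le]
    congr 1
    rw [hδ]
    push_cast
    field_simp
  have hb1 : 1 ≤ b := by rw [hbτ]; exact Real.one_le_rpow hnR hτ0.le
  have hG : ∀ M M' : ℕ, n ≤ M → M ≤ M' → EE μ s M ≤ K * EE μ s M' ∧ K⁻¹ * ((M' : ℝ) / M) ^ a₀ * EE μ s M ≤ EE μ s M' ∧
      EE μ s M' ≤ K * Real.sqrt ((M' : ℝ) / M) * EE μ s M := by
    intro M M' h1 h2
    have h3 := hK M M' (by omega) h2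
    rw [(hn₂ M (g2.trans h1)).2.1, (hn₂ M' (g2.trans (h1.trans h2))).2.1] at h3
    exact h3
  have hlow' : ∀ N, n ≤ N → ∀ (L : ℕ) (r : ℝ), 0 ≤ r →
      2 * (r * (c * wd μ s N) - r - C * EE μ s N) + 2 * F 0 L 0 ≤ F N L r + F N L (-r) :=
    fun N hN => hlow N (g6.trans hN)
  have hqb : 8 * q * b ≤ 1 := by
    have h1 : 8 * q * b ≤ (n : ℝ) ^ τ * q * b := by
      refine mul_le_mul_of_nonneg_right (mul_le_mul_of_nonneg_right ?_ hq0) (by linarith)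
      have : 0 ≤ 160 * K ^ 2 + (32 + K ^ 3) * (2 * K ^ 3) := by positivity
      linarith
    refine h1.trans ?_
    rw [hq, hbτ, ← Real.rpow_add hn0, ← Real.rpow_add hn0]
    exact Real.rpow_le_one_of_one_le_of_nonpos hnR (by linarith)
  have hPm : ∀ k, Measurable fun η => (fun η (k : Fin (m + 1)) => W μ s η 0 n (y₀ + ((k : ℕ) : ℤ))) η k :=
    fun k => measurable_W 0 n _
  have hPs : ∀ η, 0 < ∑ k, (fun η (k : Fin (m + 1)) => W μ s η 0 n (y₀ + ((k : ℕ) : ℤ))) η k := by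
    intro η
    refine Finset.sum_pos' (fun k _ => W_nonneg η 0 n _) ⟨0, Finset.mem_univ _, W_pos η 0 ?_ ?_⟩
    · simpa using hy0
    · simp only [Fin.val_zero, Nat.cast_zero, add_zero]
      omega
  have hcv := curv47 (F := F) h hF0 (n := n) (m := m)
    (Ψ := Psi (law μ) m v (fun η k => W μ s η 0 n (y₀ + ((k : ℕ) : ℤ)))) (a := a) (A := A) (a₀ := a₀) (K := K) (b := b) (q := q)
    (κ := κ) (δ' := δ') (c' := c') (by omega) hnR2 ha₀ ha₁ hK1 hG hlow' (fun N hN => h7 N (g7.trans hN))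
    (fun N hN => hU N (g4.trans hN)) ha hδ'0 ha2K hac haA ha8.le hκ0 hb (by
      rw [hbτ]
      exact Real.rpow_le_rpow_of_exponent_le hnR (by linarith)) (by
      rw [hbτ]
      calc (n : ℝ) ^ τ ≤ (n : ℝ) ^ (1 : ℝ) := Real.rpow_le_rpow_of_exponent_le hnR (by linarith)
        _ = n := Real.rpow_one _) hqb hq0 hM
  -- the multiple of `n`
  obtain ⟨j, hj⟩ : ∃ j : ℕ, j = n' / n := ⟨_, rfl⟩
  have hj1 : 1 ≤ j := by
    rw [hj]
    exact (Nat.one_le_div_iff (by omega)).2 hnn'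
  obtain ⟨N, hN⟩ : ∃ N : ℕ, N = j * n := ⟨_, rfl⟩
  have hNn' : N ≤ n' := by
    rw [hN, hj]
    exact Nat.div_mul_le_self _ _
  have hn'N : n' ≤ 2 * N := by
    have h1 : n' < j * n + n := by
      rw [hj]
      exact Nat.lt_div_mul_add (a := n') (b := n) (by omega)
    have h2 : n ≤ j * n := Nat.le_mul_of_pos_left n (by omega)
    omega
  have hnN : n ≤ N := by rw [hN]; exact Nat.le_mul_of_pos_left n (by omega)
  have hNR1 : (1 : ℝ) ≤ N := by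
    have : (n : ℝ) ≤ N := by exact_mod_cast hnN
    linarith
  have hNR0 : (0 : ℝ) < N := by linarith
  have hNc : (N : ℝ) ≤ (n : ℝ) ^ (1 + cc / 2) := (by exact_mod_cast hNn' : (N : ℝ) ≤ n').trans hn'
  have hNc' : (N : ℝ) ≤ (n : ℝ) ^ (1 + c') := hNc.trans (Real.rpow_le_rpow_of_exponent_le hnR (by linarith))
  have hN2 : (N : ℝ) ≤ (n : ℝ) ^ (2 : ℝ) := hNc.trans (Real.rpow_le_rpow_of_exponent_le hnR (by linarith))
  have hjc : (j : ℝ) ≤ (n : ℝ) ^ (cc / 2) := by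
    have h1 : (j : ℝ) * n ≤ (n : ℝ) ^ (cc / 2) * n := by
      have h2 : (j : ℝ) * n = N := by rw [hN]; push_cast; ring
      rw [h2]
      refine hNc.trans (le_of_eq ?_)
      rw [Real.rpow_add hn0, Real.rpow_one, mul_comm]
    exact le_of_mul_le_mul_right h1 hn0
  have hNe : (N : ℝ) ^ e ≤ (n : ℝ) ^ (2 * e) := by
    calc (N : ℝ) ^ e ≤ ((n : ℝ) ^ (2 : ℝ)) ^ e := Real.rpow_le_rpow hNR0.le hN2 he0.le
      _ = (n : ℝ) ^ (2 * e) := by rw [← Real.rpow_mul hn0.le]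
  have hup : ∃ L : ℕ, (j * n) ^ 3 ≤ L ∧ L ≤ 2 * (j * n) ^ 3 ∧ ∀ r : ℝ, |r| * EE μ s (j * n) ≤ g⁻¹ →
      DL47 F (j * n) L r ≤ g * EE μ s (j * n) := by
    rw [← hN]
    refine ⟨N ^ 3, le_rfl, by omega, fun r hr => ?_⟩
    have hr2 : |r| * EE μ s N ≤ (N : ℝ) ^ (-e) := by
      refine hr.trans ?_
      rw [Real.rpow_neg hNR0.le]
      refine inv_anti₀ (Real.rpow_pos_of_pos hNR0 _) (hNe.trans ?_)
      rw [hg]
      exact Real.rpow_le_rpow_of_exponent_le hnR (by linarith)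
    have u1 := h8 N (g8.trans hnN) (N ^ 3) le_rfl (by omega) r hr2
    have u2 := h8 N (g8.trans hnN) (N ^ 3) le_rfl (by omega) (-r) (by rw [abs_neg]; exact hr2)
    have u3 := hlow' N hnN (N ^ 3) 0 le_rfl
    rw [neg_zero, zero_mul] at u3
    have hEN := EE_pos (μ := μ) (s := s) N
    have h1 : DL47 F N (N ^ 3) r ≤ (2 * (N : ℝ) ^ e + 2 * C) * EE μ s N := by
      unfold DL47
      linarith
    refine h1.trans (mul_le_mul_of_nonneg_right ?_ hEN.le)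
    have h2 : 1 ≤ (n : ℝ) ^ (2 * e) := Real.one_le_rpow hnR (by positivity)
    have h3 : g = (n : ℝ) ^ (2 * e) * (n : ℝ) ^ (2 * e) := by
      rw [hg, ← Real.rpow_add hn0]
      ring_nf
    have h4 : (2 + 2 * C) * (n : ℝ) ^ (2 * e) ≤ (n : ℝ) ^ (2 * e) * (n : ℝ) ^ (2 * e) :=
      mul_le_mul_of_nonneg_right hbig2 (by positivity)
    rw [h3]
    have hC2 : 0 ≤ 2 * C := by linarith only [h.C1]
    have h5 := mul_le_mul_of_nonneg_left h2 hC2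
    linarith only [hNe, h4, h5]
  have hK2 : 0 ≤ 160 * K ^ 2 := by positivity
  have hK3 : 0 ≤ (32 + K ^ 3) * (2 * K ^ 3) := by positivity
  have hlast := last47 (s := s) hF0 (n := n) (m := m) (k := ⌊(n : ℝ) ^ δ'⌋₊) (j := j) (v := v)
    (P := fun η k => W μ s η 0 n (y₀ + ((k : ℕ) : ℤ))) hPm (fun η k => W_nonneg η 0 n _) hPs (a := a) (A := A) (a₀ := a₀) (K := K)
    (b := b) (g := g) (q := q) (κ := κ) (c' := c') (by omega) hj1 ha₀ hK1 hG hup (by linarith) hg1 haA (by linarith) hκ0 hb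
    (by rw [← hN]; exact hNc') (by
      have h1 : 160 * K ^ 2 * q * b * g ^ 2 * j ≤ (n : ℝ) ^ τ * q * b * g ^ 2 * (n : ℝ) ^ (cc / 2) := by
        refine mul_le_mul ?_ hjc (by positivity) (by positivity)
        refine mul_le_mul_of_nonneg_right ?_ (by positivity)
        refine mul_le_mul_of_nonneg_right ?_ (by linarith)
        refine mul_le_mul_of_nonneg_right ?_ hq0
        linarith
      refine h1.trans ?_
      have h2 : g ^ 2 = (n : ℝ) ^ (8 * e) := by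
        rw [hg, ← Real.rpow_natCast, ← Real.rpow_mul hn0.le]
        congr 1
        push_cast
        ring
      rw [h2, hq, hbτ, ← Real.rpow_add hn0, ← Real.rpow_add hn0, ← Real.rpow_add hn0, ← Real.rpow_add hn0]
      exact Real.rpow_le_one_of_one_le_of_nonpos hnR (by rw [he]; linarith)) hq0 (by
      have h1 := hL n g3
      rw [← ha] at h1
      rw [← hA] at hmw
      exact hmw.trans (mul_le_mul_of_nonneg_left h1 hA0.le)) (by
      rw [hA, ← Real.rpow_neg hn0.le]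
      exact hv) (by
      have h1 : (⌊(n : ℝ) ^ δ'⌋₊ : ℝ) ≤ a := by
        rw [ha]
        exact Nat.floor_le (Real.rpow_nonneg hn0.le _)
      have h2 : 2 * a ≤ a ^ 2 := by
        rw [sq]
        exact mul_le_mul_of_nonneg_right ha2 (by linarith only [ha2])
      linarith only [h1, h2, ha2]) (by rw [hq]; exact hgeo) hM hcv
  rw [← hN] at hlast
  -- from `N` to `n'`
  have hEN := EE_pos (μ := μ) (s := s) N
  have hEn' := EE_pos (μ := μ) (s := s) n'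
  have hn'0 : (0 : ℝ) < n' := by
    have : (N : ℝ) ≤ n' := by exact_mod_cast hNn'
    linarith
  have hstep : EE μ s N ^ 3 / N ≤ 2 * K ^ 3 * (EE μ s n' ^ 3 / n') := by
    have h1 : EE μ s N ^ 3 ≤ (K * EE μ s n') ^ 3 := pow_le_pow_left₀ hEN.le (hG N n' hnN hNn').1 3
    have h2 : (n' : ℝ) ≤ 2 * N := by exact_mod_cast hn'N
    rw [div_le_iff₀ hNR0]
    refine h1.trans ?_
    have e1 : 2 * K ^ 3 * (EE μ s n' ^ 3 / n') * N = (K * EE μ s n') ^ 3 * (2 * N / n') := by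
      field_simp
    rw [e1]
    refine le_mul_of_one_le_right (by positivity) ?_
    rw [one_le_div hn'0]
    exact h2
  have hX : 0 ≤ EE μ s n' ^ 3 / n' := by positivity
  refine hlast.trans ?_
  have h1 : (32 + K ^ 3) * b * g ^ 3 * (EE μ s N ^ 3 / N) ≤
      (32 + K ^ 3) * b * g ^ 3 * (2 * K ^ 3 * (EE μ s n' ^ 3 / n')) :=
    mul_le_mul_of_nonneg_left hstep (by positivity)
  refine h1.trans ?_
  have e1 : (32 + K ^ 3) * b * g ^ 3 * (2 * K ^ 3 * (EE μ s n' ^ 3 / n')) =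
      ((32 + K ^ 3) * (2 * K ^ 3)) * b * g ^ 3 * (EE μ s n' ^ 3 / n') := by ring
  rw [e1]
  refine mul_le_mul_of_nonneg_right ?_ hX
  have h2 : ((32 + K ^ 3) * (2 * K ^ 3)) * b * g ^ 3 ≤ (n : ℝ) ^ τ * b * g ^ 3 := by
    refine mul_le_mul_of_nonneg_right (mul_le_mul_of_nonneg_right ?_ (by linarith)) (by positivity)
    linarith
  refine h2.trans ?_
  have h3 : g ^ 3 = (n : ℝ) ^ (12 * e) := by
    rw [hg, ← Real.rpow_natCast, ← Real.rpow_mul hn0.le]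
    congr 1
    push_cast
    ring
  rw [h3, hbτ, ← Real.rpow_add hn0, ← Real.rpow_add hn0]
  exact Real.rpow_le_rpow_of_exponent_le hnR (by rw [he]; linarith)

/-- **The lower half**: the units are at least of the order `n ^ (1/3 - o(1))`. -/
theorem thirdL47 (h : In μ s c C n₀) (hL : LB20 μ s) (hU : UB20 μ s) (hF0 : ∀ L h, F 0 L h = F 0 L 0)
    (hLow : Low47 μ s c C F) (hPig : Pig47 F) (hUp : Up47 μ s F) (hM : LMG47 μ s F) {ε : ℝ} (hε : 0 < ε) :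
    ∀ᶠ n : ℕ in atTop, (n : ℝ) ^ (1 / 3 - ε) ≤ EE μ s n := by
  obtain ⟨c₁, hc₁, h1⟩ := coreL47 h hL hU hF0 hLow hPig hUp hM
  have h2 := iter47 (a := fun n => EE μ s n ^ 3 / n) (fun n hn => by
    have := EE_pos (μ := μ) (s := s) n
    have hn0 : (0 : ℝ) < n := by exact_mod_cast hn
    positivity) hc₁ h1 (show 0 < 3 * ε by positivity)
  filter_upwards [h2, eventually_ge_atTop 1] with n g1 g2
  have hn : (0 : ℝ) < n := by exact_mod_cast g2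
  have hE := EE_pos (μ := μ) (s := s) n
  rw [le_div_iff₀ hn] at g1
  have e1 : (n : ℝ) ^ (-(3 * ε)) * n = (n : ℝ) ^ (-(3 * ε) + 1) := by
    rw [Real.rpow_add hn, Real.rpow_one]
  rw [e1] at g1
  have g3 := Real.rpow_le_rpow (by positivity) g1 (show (0 : ℝ) ≤ 1 / 3 by norm_num)
  rw [← Real.rpow_natCast (EE μ s n) 3, ← Real.rpow_mul hE.le, ← Real.rpow_mul hn.le] at g3
  norm_num at g3
  rw [show (1 : ℝ) / 3 - ε = (-(3 * ε) + 1) * (1 / 3) by ring]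
  exact g3

end core

end

end Pool.Agent.W_7d29a1_C1
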