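import Pool.Agent.W_7d29a1_C1.LayN63

/-!
MP_7d29a1_pr, the attractor route [C1], TAME: LOWER BOUNDS OF THE KERNEL FROM EVERY START OF A LAYER. (helper63)

`one63`: one level event, the window moved to the line of the start. `nk_short63`: the straight path. **`lay_low63`**: from every start of a
layer with the levels `Tp63` at its top row to the top row, at the price `C (1 + q₀)² gr (2 P) (1 + Y) EE Tt`, `Y` = lateral distance in
widths.
-/

set_option autoImplicit false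

namespace Pool.Agent.W_7d29a1_C1.LwT63

open MeasureTheory ProbabilityTheory Finset Filter
open Pool.Agent.W_7d29a1_F Pool.Agent.W_7d29a1_h4g Pool.Agent.W_7d29a1_H Pool.Agent.W_7d29a1_HS
open Pool.Agent.W_7d29a1_C1.H75 Pool.Agent.W_7d29a1_C1.U16 Pool.Agent.W_7d29a1_C1.FarK89 Pool.Agent.W_7d29a1_C1.FarW89
open Pool.Agent.W_7d29a1_C1.K91 (wt wt_pos)
open Pool.Agent.W_7d29a1_C1.TpF63 Pool.Agent.W_7d29a1_C1.LyN63 Pool.Agent.W_7d29a1_C1.RB6

noncomputable section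

variable {μ : Measure ℝ} [IsProbabilityMeasure μ] {s c C : ℝ} {n₀ : ℕ}

theorem sl63 (h : In μ s c C n₀) : 0 ≤ sl μ s ∧ sl μ s ≤ 1 := by
  obtain ⟨H, δ, hD⟩ := h.dir
  have h0 := hD.δ0
  have h1 := hD.lo s rfl
  have h2 := hD.hi s rfl
  constructor <;> linarith

/-- The force at a smaller height. -/
theorem force63 (h0 : In μ s c C n₀) {h : ℝ} {n Tt : ℕ} (hn : 1 ≤ n) (hT : n ≤ Tt) (hh : |h| * wd μ s Tt ≤ c / 8 * EE μ s Tt) :
    |h| * wd μ s n ≤ c / 4 * EE μ s n := by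
  have hEt := EE_pos (μ := μ) (s := s) Tt
  have hEu := EE_pos (μ := μ) (s := s) n
  have h2 := wd_growth_one h0 hn hT
  have h4 : |h| * wd μ s n * EE μ s Tt ≤ |h| * (2 * EE μ s n * wd μ s Tt) := by
    rw [mul_assoc]
    exact mul_le_mul_of_nonneg_left h2 (abs_nonneg h)
  have h5 : 2 * EE μ s n * (|h| * wd μ s Tt) ≤ 2 * EE μ s n * (c / 8 * EE μ s Tt) :=
    mul_le_mul_of_nonneg_left hh (by positivity)
  have h6 : |h| * wd μ s n * EE μ s Tt ≤ c / 4 * EE μ s n * EE μ s Tt := by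
    calc _ ≤ |h| * (2 * EE μ s n * wd μ s Tt) := h4
      _ = 2 * EE μ s n * (|h| * wd μ s Tt) := by ring
      _ ≤ _ := h5
      _ = _ := by ring
  exact le_of_mul_le_mul_right h6 hEt

/-- The straight path. -/
theorem ker_low63 {w : ℕ → ℤ → ℝ} {p : ℕ → ℝ} (hw : ∀ k y, 0 < w k y) (hp : ∀ k, 0 < p k) (i : ℕ) (x : ℤ) {B : ℝ} : ∀ n : ℕ,
    (∀ l, 1 ≤ l → l ≤ n → Real.exp (-B) ≤ w (i + l) x) → Real.exp (-(n * B)) * w i x ≤ ker w p i n x x * w (i + n) x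
  | 0, _ => by
    rw [ker_zero, if_pos rfl, Nat.cast_zero, zero_mul, neg_zero, Real.exp_zero, add_zero]
  | n + 1, h => by
    have ih := ker_low63 hw hp i x n fun l h1 h2 => h l h1 (by omega)
    have h1 := h (n + 1) (by omega) le_rfl
    rw [ker_succ]
    have h2 := ker_nonneg hw hp i n x (x - 1)
    have h3 := hw (i + n) (x - 1)
    have h4 := hp (i + n)
    have h5 := hw (i + (n + 1)) x
    have h6 := hw i x
    have e : Real.exp (-(((n + 1 : ℕ) : ℝ) * B)) = Real.exp (-(n * B)) * Real.exp (-B) := by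
      rw [← Real.exp_add]
      congr 1
      push_cast
      ring
    have h7 : 0 ≤ p (i + n) * (w (i + n) (x - 1) * ker w p i n x (x - 1)) := by positivity
    calc Real.exp (-(((n + 1 : ℕ) : ℝ) * B)) * w i x = (Real.exp (-(n * B)) * w i x) * Real.exp (-B) := by rw [e]; ring
      _ ≤ (ker w p i n x x * w (i + n) x) * w (i + (n + 1)) x :=
        mul_le_mul ih h1 (Real.exp_pos _).le (mul_nonneg (ker_nonneg hw hp i n x x) (hw _ _).le)
      _ ≤ _ := by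
        refine mul_le_mul_of_nonneg_right ?_ h5.le
        linarith

theorem nk_short63 (hsl : 0 ≤ sl μ s ∧ sl μ s ≤ 1) {h B : ℝ} {η : Env} {p : ℕ → ℝ} {M : ℕ} (hp : ∀ k, 0 < p k) (hB : 0 ≤ B) (k d : ℕ) (x : ℤ)
    (hη : ∀ l, 1 ≤ l → l ≤ d → |η (((k + l : ℕ) : ℤ), x)| ≤ B) :
    Real.exp (-(d * (|lam μ s| + |h| + B))) ≤ nk μ s h η p M k d x x := by
  have h1 := ker_low63 (w := wt η) (p := p) (wt_pos η) hp k x (B := B) d fun l h1 h2 => by
    unfold K91.wt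
    split_ifs
    · exact Real.exp_le_one_iff.2 (by linarith)
    · exact Real.exp_le_exp.2 (abs_le.1 (hη l h1 h2)).1
  have h2 := wt_pos η k x
  have h3 : Real.exp (-(d * B)) ≤ ker (wt η) p k d x x * wt η (k + d) x / wt η k x := by
    rw [le_div_iff₀ h2]
    exact h1
  have h4 : (bl M k d : ℝ) ≤ d := by exact_mod_cast bl_le M k d
  have h4' : (0 : ℝ) ≤ bl M k d := Nat.cast_nonneg _
  have h5 : h * sl μ s * bl M k d ≤ |h| * d := by
    have g1 : h * sl μ s ≤ |h| := by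
      calc h * sl μ s ≤ |h| * sl μ s := mul_le_mul_of_nonneg_right (le_abs_self h) hsl.1
        _ ≤ |h| * 1 := mul_le_mul_of_nonneg_left hsl.2 (abs_nonneg h)
        _ = |h| := mul_one _
    calc h * sl μ s * bl M k d ≤ |h| * bl M k d := mul_le_mul_of_nonneg_right g1 h4'
      _ ≤ |h| * d := mul_le_mul_of_nonneg_left h4 (abs_nonneg h)
  have h6 : (d : ℝ) * lam μ s ≤ d * |lam μ s| := mul_le_mul_of_nonneg_left (le_abs_self _) (Nat.cast_nonneg d)
  unfold nk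
  calc Real.exp (-(d * (|lam μ s| + |h| + B))) = Real.exp (-(d * |lam μ s| + |h| * d)) * Real.exp (-(d * B)) := by
        rw [← Real.exp_add]
        congr 1
        ring
    _ ≤ Real.exp (-(d * lam μ s + h * sl μ s * bl M k d)) * (ker (wt η) p k d x x * wt η (k + d) x / wt η k x) :=
        mul_le_mul (Real.exp_le_exp.2 (by linarith)) h3 (Real.exp_pos _).le (Real.exp_pos _).le

/-- One term of the composition. -/
theorem nk_comp63 {h : ℝ} {η : Env} {p : ℕ → ℝ} {M : ℕ} (hp : ∀ k, 0 < p k) (i m n : ℕ) (x y z : ℤ) :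
    nk μ s h η p M i m x y * nk μ s h η p M (i + m) n y z ≤ nk μ s h η p M i (m + n) x z := by
  rw [nk_add]
  by_cases hz : y ∈ Icc (z - n) z
  · exact single_le_sum (f := fun y => nk μ s h η p M i m x y * nk μ s h η p M (i + m) n y z)
      (fun y _ => mul_nonneg (nk_nonneg hp _ _ _ _) (nk_nonneg hp _ _ _ _)) hz
  · rw [nk_eq_zero (i + m), mul_zero]
    · exact sum_nonneg fun y _ => mul_nonneg (nk_nonneg hp _ _ _ _) (nk_nonneg hp _ _ _ _)
    · rintro ⟨h1, h2⟩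
      apply hz
      rw [mem_Icc]
      omega

/-- **ONE LEVEL EVENT**, the window moved to the line of the start. -/
theorem one63 (h0 : In μ s c C n₀) (P : ℕ) {K θ : ℝ} (hK : 6 ≤ K) (hθ : 0 < θ) : ∃ (C₈ : ℝ) (n₁ : ℕ), 0 < C₈ ∧ 1 ≤ n₁ ∧
    ∀ {q h X : ℝ} {n N M : ℕ} {b : Pt} {η : Env} {p : ℕ → ℝ}, n₁ ≤ n → N ≤ n → 0 ≤ q → η ∈ Far16 μ s c θ K n N P b q →
      |h| * wd μ s n ≤ c / 4 * EE μ s n → (∀ k, k < M → p k = Real.exp (s + h)) → (∀ k, M ≤ k → p k = Real.exp s) → 0 ≤ X →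
      ∀ (k e : ℕ) (x : ℤ), b.1 ≤ k → k ≤ e → (e : ℤ) ≤ b.1 + N → θ * n ≤ ((e - k : ℕ) : ℝ) →
        |lat16 μ s ((k : ℤ), x) b| ≤ X * wd μ s n → ∃ y : ℤ, |lat16 μ s ((k : ℤ), x) ((e : ℤ), y)| ≤ 1 ∧
          Real.exp (-(C₈ * (1 + q * gr P (2 + X)) ^ 2 * EE μ s n)) ≤ nk μ s h η p M k (e - k) x y := by
  obtain ⟨C₇, hC₇, n₂, hn₂, H⟩ := nk_low16 h0 P (K := K - 2) (θ := θ) (by linarith) hθ
  obtain ⟨n₃, hn₃⟩ := eventually_atTop.1 ((wd_tendsto h0).eventually_ge_atTop 1)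
  have hf0 : 1 ≤ fq16 (2 * P) (1 + 2) := fq16_one _ _
  refine ⟨C₇ * fq16 (2 * P) (1 + 2), max n₂ n₃, by positivity, hn₂.trans (le_max_left _ _), ?_⟩
  intro q h X n N M b η p hn hN hq hη hh hp hp' hX k e x h1 h2 h3 h4 h5
  have hw : 1 ≤ wd μ s n := hn₃ n ((le_max_right _ _).trans hn)
  obtain ⟨bs, hb1, hb2, hb3, hb4⟩ := line16 (K' := K - 2) (κ := ((k : ℤ), x)) hq hw (by linarith) hX h5 hη
  obtain ⟨t, ht⟩ : ∃ t : ℝ, t = sl μ s * (((e : ℤ) - k : ℤ) : ℝ) := ⟨_, rfl⟩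
  have f1 := Int.floor_le t
  have f2 := Int.lt_floor_add_one t
  have e1 : lat16 μ s ((k : ℤ), x) ((e : ℤ), x + ⌊t⌋) = ⌊t⌋ - t := by
    unfold lat16
    rw [ht]
    push_cast
    ring
  have e2 : |lat16 μ s ((k : ℤ), x) ((e : ℤ), x + ⌊t⌋)| ≤ 1 := by
    rw [e1, abs_le]
    constructor <;> linarith
  have hg : 0 ≤ gr P (2 + X) := gr_nonneg _ (by linarith)
  refine ⟨x + ⌊t⌋, e2, ?_⟩
  have key := H (R := 1) (κ := ((k : ℤ), x)) ((le_max_left _ _).trans hn) hN (mul_nonneg hq hg) hb4 hh hp hp' (by norm_num)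
    (by linarith) (by rw [abs_of_nonneg hb2]; linarith) k e x (x + ⌊t⌋) (by rw [hb1]; exact h1) h2 (by rw [hb1]; exact h3) h4 (by
      have : lat16 μ s ((k : ℤ), x) ((k : ℤ), x) = 0 := by
        unfold lat16
        simp
      rw [this, abs_zero]
      linarith) (e2.trans (by linarith))
  refine le_trans (Real.exp_le_exp.2 (neg_le_neg (le_of_eq ?_))) key
  ring

/-- The price of a level at a smaller height. -/
theorem num63 (h : In μ s c C n₀) : ∃ (a : ℝ) (n₁ : ℕ), 0 < a ∧ a ≤ 1 ∧ 1 ≤ n₁ ∧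
    (∀ m n : ℕ, n₁ ≤ m → m ≤ n → EE μ s m ≤ 2 * ((n : ℝ) / m) ^ (-a) * EE μ s n) ∧
    (∃ C₁ : ℝ, 0 < C₁ ∧ ∀ n : ℕ, n₁ ≤ n → (n : ℝ) ^ a ≤ C₁ * EE μ s n) ∧
    ∀ (P D : ℕ) (A : ℝ), 0 ≤ A → ∃ C₂ : ℝ, 0 < C₂ ∧ ∀ {n Tt : ℕ} {q q₀ X Y : ℝ}, n₁ ≤ n → n ≤ Tt → 0 ≤ q₀ → 0 ≤ q →
      q ≤ q₀ * ((Tt : ℝ) / n) ^ (a / 4) → 0 ≤ Y → 0 ≤ X → X ≤ A * (1 + Y) * ((Tt : ℝ) / n) ^ D →
      (1 + q * gr P (2 + X)) ^ 2 * EE μ s n ≤ C₂ * (1 + q₀) ^ 2 * gr (2 * P) (1 + Y) * EE μ s Tt := by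
  obtain ⟨a, n₁, ha, ha1, hn1, H⟩ := ee63 h
  refine ⟨a, n₁, ha, ha1, hn1, H, ?_, ?_⟩
  · have hn0 : (0 : ℝ) < n₁ := by exact_mod_cast hn1
    refine ⟨2 * (n₁ : ℝ) ^ a, by positivity, fun n hn => ?_⟩
    have hnr : (0 : ℝ) < n := by exact_mod_cast hn1.trans hn
    have h1 := H n₁ n le_rfl hn
    have h2 := one_le_EE (μ := μ) (s := s) n₁
    have h3 : 0 < ((n : ℝ) / n₁) ^ a := by positivity
    rw [Real.rpow_neg (by positivity)] at h1
    have h4 : ((n : ℝ) / n₁) ^ a ≤ 2 * EE μ s n := by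
      have h5 : 1 ≤ 2 * (((n : ℝ) / n₁) ^ a)⁻¹ * EE μ s n := h2.trans h1
      have h6 : ((n : ℝ) / n₁) ^ a * 1 ≤ ((n : ℝ) / n₁) ^ a * (2 * (((n : ℝ) / n₁) ^ a)⁻¹ * EE μ s n) := mul_le_mul_of_nonneg_left h5 h3.le
      have h7 : ((n : ℝ) / n₁) ^ a * (2 * (((n : ℝ) / n₁) ^ a)⁻¹ * EE μ s n) = 2 * EE μ s n := by field_simp
      rw [h7, mul_one] at h6
      exact h6
    have h8 : (n : ℝ) ^ a = (n₁ : ℝ) ^ a * ((n : ℝ) / n₁) ^ a := by
      rw [← Real.mul_rpow hn0.le (by positivity), mul_div_cancel₀ _ hn0.ne']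
    rw [h8]
    have h9 : 0 < (n₁ : ℝ) ^ a := by positivity
    nlinarith
  · intro P D A hA
    obtain ⟨C₁, hC₁, hg⟩ := gr_pow63 P (ε := a / 4) (A := 2 + A) D (by positivity) (by linarith)
    refine ⟨2 * C₁ ^ 2, by positivity, ?_⟩
    intro n Tt q q₀ X Y hn hT hq₀ hq hqx hY hX hXx
    have hn0 : (0 : ℝ) < n := by exact_mod_cast hn1.trans hn
    obtain ⟨x, hx⟩ : ∃ x : ℝ, x = (Tt : ℝ) / n := ⟨_, rfl⟩
    have hx1 : 1 ≤ x := by
      rw [hx, le_div_iff₀ hn0, one_mul]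
      exact_mod_cast hT
    have hx0 : 0 < x := by linarith
    have hE := H n Tt hn hT
    rw [← hx] at hqx hXx hE
    have hxD : 1 ≤ x ^ D := one_le_pow₀ hx1
    have hxa : 1 ≤ x ^ (a / 4) := Real.one_le_rpow hx1 (by positivity)
    have hEn := EE_pos (μ := μ) (s := s) n
    have hEt := EE_pos (μ := μ) (s := s) Tt
    obtain ⟨G, hG⟩ : ∃ G : ℝ, G = gr P (1 + Y) := ⟨_, rfl⟩
    have hG1 : 1 ≤ G := by rw [hG]; exact gr_one_le _ (by linarith)
    have hGG : G ^ 2 = gr (2 * P) (1 + Y) := by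
      rw [hG]
      unfold gr
      rw [← pow_mul, mul_comm P 2]
    have g1 : gr P (2 + X) ≤ G * (C₁ * x ^ (a / 4)) := by
      rw [hG]
      refine (gr_mul P (X := 1 + Y) (Y := (2 + A) * x ^ D) (by linarith) (by positivity) (by linarith) ?_).trans
        (mul_le_mul_of_nonneg_left (hg x hx1) (gr_nonneg _ (by linarith)))
      have k1 : 0 ≤ A * x ^ D := by positivity
      nlinarith [mul_nonneg hY (by linarith : (0 : ℝ) ≤ x ^ D)]
    have g0 : 0 ≤ gr P (2 + X) := gr_nonneg _ (by linarith)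
    have g2 : q * gr P (2 + X) ≤ q₀ * x ^ (a / 4) * (G * (C₁ * x ^ (a / 4))) := mul_le_mul hqx g1 g0 (by positivity)
    have e1 : x ^ (a / 4) * x ^ (a / 4) = x ^ (a / 2) := by
      rw [← Real.rpow_add hx0]
      congr 1
      ring
    have hxb : 1 ≤ x ^ (a / 2) := Real.one_le_rpow hx1 (by positivity)
    have g3 : 1 + q * gr P (2 + X) ≤ (1 + q₀) * (C₁ * x ^ (a / 2) * G) := by
      have g4 : q₀ * x ^ (a / 4) * (G * (C₁ * x ^ (a / 4))) = q₀ * (C₁ * x ^ (a / 2) * G) := by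
        rw [← e1]
        ring
      rw [g4] at g2
      have g5 : 1 ≤ C₁ * x ^ (a / 2) * G := one_le_mul_of_one_le_of_one_le (one_le_mul_of_one_le_of_one_le hC₁ hxb) hG1
      linarith
    have e2 : (x ^ (a / 2)) ^ 2 = x ^ a := by
      rw [← Real.rpow_natCast (x ^ (a / 2)), ← Real.rpow_mul hx0.le]
      congr 1
      push_cast
      ring
    have g6 : (1 + q * gr P (2 + X)) ^ 2 ≤ (1 + q₀) ^ 2 * C₁ ^ 2 * x ^ a * gr (2 * P) (1 + Y) := by
      have g7 : 0 ≤ 1 + q * gr P (2 + X) := by positivity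
      calc (1 + q * gr P (2 + X)) ^ 2 ≤ ((1 + q₀) * (C₁ * x ^ (a / 2) * G)) ^ 2 := pow_le_pow_left₀ g7 g3 2
        _ = (1 + q₀) ^ 2 * C₁ ^ 2 * (x ^ (a / 2)) ^ 2 * G ^ 2 := by ring
        _ = _ := by rw [e2, hGG]
    have e3 : x ^ a * x ^ (-a) = 1 := by
      rw [← Real.rpow_add hx0, add_neg_cancel, Real.rpow_zero]
    have hGG0 : 0 ≤ gr (2 * P) (1 + Y) := gr_nonneg _ (by linarith)
    calc (1 + q * gr P (2 + X)) ^ 2 * EE μ s n ≤ ((1 + q₀) ^ 2 * C₁ ^ 2 * x ^ a * gr (2 * P) (1 + Y)) * (2 * x ^ (-a) * EE μ s Tt) :=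
          mul_le_mul g6 hE hEn.le (by positivity)
      _ = 2 * C₁ ^ 2 * (1 + q₀) ^ 2 * gr (2 * P) (1 + Y) * EE μ s Tt * (x ^ a * x ^ (-a)) := by ring
      _ = _ := by rw [e3, mul_one]

/-- Ratio and widths. -/
theorem lamw63 (h : In μ s c C n₀) {n Tt : ℕ} (hn : 1 ≤ n) (hT : n ≤ Tt) {L A : ℝ} (D : ℕ) (hA : 0 ≤ A)
    (hL : L ≤ A * ((Tt : ℝ) / n) ^ D * wd μ s Tt) : L ≤ 2 * A * ((Tt : ℝ) / n) ^ (D + 1) * wd μ s n := by
  have hn0 : (0 : ℝ) < n := by exact_mod_cast hn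
  have h1 := wd63 h hn hT
  have h2 : 0 ≤ A * ((Tt : ℝ) / n) ^ D := by positivity
  calc L ≤ A * ((Tt : ℝ) / n) ^ D * wd μ s Tt := hL
    _ ≤ A * ((Tt : ℝ) / n) ^ D * (2 * ((Tt : ℝ) / n) * wd μ s n) := mul_le_mul_of_nonneg_left h1 h2
    _ = _ := by ring

/-- **FROM EVERY START OF A LAYER TO ITS TOP ROW.** -/
theorem lay_low63 (h0 : In μ s c C n₀) : ∃ a : ℝ, 0 < a ∧ a ≤ 1 ∧ ∀ (P : ℕ) {K θ : ℝ}, 1 ≤ P → 6 ≤ K → 0 < θ → θ ≤ 1 / 2 → ∃ n₁ : ℕ, 1 ≤ n₁ ∧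
    ∀ j₁ : ℕ, n₁ ≤ 2 ^ j₁ → ∀ (D : ℕ) (A ε : ℝ), 0 ≤ A → 0 ≤ ε → ε ≤ a / 8 → ∃ C₉ : ℝ, 0 < C₉ ∧
      ∀ {q₀ q h Y : ℝ} {η : Env} {p : ℕ → ℝ} {M H Tt N : ℕ} {κ b b' : Pt}, 0 ≤ Y → 0 ≤ q₀ → 0 ≤ q → q ≤ q₀ * ((Tt : ℝ) / H) ^ (a / 8) →
        n₁ ≤ H → H ≤ Tt → N ≤ H → 2 * θ * H ≤ N → b'.1 = b.1 + N → η ∈ Far16 μ s c θ K H N P b q →
        η ∈ Tp63 μ s c θ K ε P j₁ N b' q → |h| * wd μ s Tt ≤ c / 8 * EE μ s Tt → (∀ k, k < M → p k = Real.exp (s + h)) →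
        (∀ k, M ≤ k → p k = Real.exp s) → |lat16 μ s κ b| ≤ A * (1 + Y) * ((Tt : ℝ) / H) ^ D * wd μ s Tt →
        |lat16 μ s κ b'| ≤ A * (1 + Y) * ((Tt : ℝ) / H) ^ D * wd μ s Tt → ∀ (k e : ℕ) (x : ℤ), b.1 ≤ k → k ≤ e → (e : ℤ) = b'.1 →
          |lat16 μ s κ ((k : ℤ), x)| ≤ A * (1 + Y) * wd μ s Tt → ∃ y : ℤ,
            |lat16 μ s κ ((e : ℤ), y) - lat16 μ s κ ((k : ℤ), x)| ≤ 2 ^ j₁ + 1 ∧
            Real.exp (-(C₉ * (1 + q₀) ^ 2 * gr (2 * P) (1 + Y) * EE μ s Tt)) ≤ nk μ s h η p M k (e - k) x y := by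
  obtain ⟨a, m₁, ha, ha1, hm₁, HE, ⟨C₁, hC₁, HT⟩, HN⟩ := num63 h0
  refine ⟨a, ha, ha1, fun P K θ hP hK hθ hθ2 => ?_⟩
  obtain ⟨C₈, m₂, hC₈, hm₂, HO⟩ := one63 h0 P hK hθ
  obtain ⟨m₃, hm₃⟩ := eventually_atTop.1 ((wd_tendsto h0).eventually_ge_atTop 1)
  refine ⟨max m₁ (max m₂ m₃), hm₁.trans (le_max_left _ _), fun j₁ hj₁ D A ε hA hε hεa => ?_⟩
  obtain ⟨C₂, hC₂, HN2⟩ := HN P (D + 1) (2 * (2 * A + 1)) (by linarith)
  have hsl := sl63 h0
  -- the levels of the sites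
  obtain ⟨C₃, hC₃, Hg⟩ := gr_pow63 1 (ε := a / 4) (A := 4 * A * wd μ s 1 + 2 ^ j₁) (D + 1) (by positivity)
    (by have := h0.wd_nonneg 1; positivity)
  obtain ⟨C₉, hC₉⟩ : ∃ C₉ : ℝ, C₉ = C₈ * C₂ + 2 ^ j₁ * (|lam μ s| + |c| + C₃ * C₁) + 1 := ⟨_, rfl⟩
  have hC₉0 : 0 < C₉ := by rw [hC₉]; positivity
  refine ⟨C₉, hC₉0, ?_⟩
  intro q₀ q h Y₀ η p M H Tt N κ b b' hY₀ hq₀ hq hqx hH hHT hNH hθN hb' hfar htp hh hp hp' hlb hlb' k e x hk hke he hx
  obtain ⟨g, hg⟩ : ∃ g : ℝ, g = gr (2 * P) (1 + Y₀) := ⟨_, rfl⟩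
  have hg1 : 1 ≤ g := by rw [hg]; exact gr_one_le _ (by linarith)
  obtain ⟨A', hA'⟩ : ∃ A' : ℝ, A' = A * (1 + Y₀) := ⟨_, rfl⟩
  have hA'0 : 0 ≤ A' := by rw [hA']; positivity
  have hAA' : 2 * A' + 1 ≤ (2 * A + 1) * (1 + Y₀) := by rw [hA']; nlinarith
  rw [← hg]
  rw [← hA'] at hlb hlb' hx
  have hH1 : m₁ ≤ H := (le_max_left _ _).trans hH
  have hH2 : m₂ ≤ H := ((le_max_left _ _).trans (le_max_right _ _)).trans hH
  have hH3 : m₃ ≤ H := ((le_max_right _ _).trans (le_max_right _ _)).trans hH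
  have hH0 : (0 : ℝ) < H := by exact_mod_cast hm₁.trans hH1
  have hHT' : (H : ℝ) ≤ Tt := by exact_mod_cast hHT
  have hTt0 : (0 : ℝ) < Tt := by linarith
  have hTt1 : (1 : ℝ) ≤ Tt := by exact_mod_cast (hm₁.trans hH1).trans hHT
  have hwT : 1 ≤ wd μ s Tt := hm₃ Tt (hH3.trans hHT)
  have hEt := EE_pos (μ := μ) (s := s) Tt
  have hEt1 := one_le_EE (μ := μ) (s := s) Tt
  have hpp : ∀ k, 0 < p k := fun k => by
    rcases lt_or_ge k M with h1 | h1
    · rw [hp k h1]; exact Real.exp_pos _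
    · rw [hp' k h1]; exact Real.exp_pos _
  obtain ⟨Λ, hΛ⟩ : ∃ Λ : ℝ, Λ = (Tt : ℝ) / H := ⟨_, rfl⟩
  have hΛ1 : 1 ≤ Λ := by rw [hΛ, le_div_iff₀ hH0, one_mul]; exact hHT'
  have hq8 : ∀ {y : ℝ}, 1 ≤ y → q₀ * y ^ (a / 8) ≤ q₀ * y ^ (a / 4) := fun {y} hy =>
    mul_le_mul_of_nonneg_left (Real.rpow_le_rpow_of_exponent_le hy (by linarith)) hq₀
  have hq20 : 1 ≤ (1 + q₀) ^ 2 := one_le_pow₀ (by linarith)
  have fin : ∀ {Y : ℝ}, Y ≤ C₂ * (1 + q₀) ^ 2 * g * EE μ s Tt → C₈ * Y ≤ C₉ * (1 + q₀) ^ 2 * g * EE μ s Tt := by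
    intro Y hY
    have g1 : 0 ≤ 2 ^ j₁ * (|lam μ s| + |c| + C₃ * C₁) := by positivity
    calc C₈ * Y ≤ C₈ * (C₂ * (1 + q₀) ^ 2 * g * EE μ s Tt) := mul_le_mul_of_nonneg_left hY hC₈.le
      _ = (C₈ * C₂) * ((1 + q₀) ^ 2 * g * EE μ s Tt) := by ring
      _ ≤ C₉ * ((1 + q₀) ^ 2 * g * EE μ s Tt) := mul_le_mul_of_nonneg_right (by rw [hC₉]; linarith) (by positivity)
      _ = _ := by ring
  have latsub : ∀ {b p : Pt}, lat16 μ s b p = lat16 μ s κ p - lat16 μ s κ b := fun {b p} => by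
    unfold lat16
    push_cast
    ring
  obtain ⟨d, hd⟩ : ∃ d, d = e - k := ⟨_, rfl⟩
  have hed : e = k + d := by omega
  rcases Nat.lt_or_ge N (2 * d) with hcase | hcase
  · -- the start is low: the level of the layer
    have hX : |lat16 μ s ((k : ℤ), x) b| ≤ 2 * (2 * A' + 1) * ((Tt : ℝ) / H) ^ (D + 1) * wd μ s H := by
      refine lamw63 h0 (hm₁.trans hH1) hHT D (by linarith) ?_
      rw [latsub (b := ((k : ℤ), x)), ← hΛ]
      rw [← hΛ] at hlb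
      have g1 := abs_sub (lat16 μ s κ b) (lat16 μ s κ ((k : ℤ), x))
      have g2 : 1 ≤ Λ ^ D := one_le_pow₀ hΛ1
      have g3 : A' * wd μ s Tt ≤ A' * Λ ^ D * wd μ s Tt := by
        have : 0 ≤ A' * wd μ s Tt := by positivity
        nlinarith
      have g4 : 0 ≤ Λ ^ D * wd μ s Tt := by positivity
      calc _ ≤ |lat16 μ s κ b| + |lat16 μ s κ ((k : ℤ), x)| := g1
        _ ≤ A' * Λ ^ D * wd μ s Tt + A' * Λ ^ D * wd μ s Tt := add_le_add hlb (hx.trans g3)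
        _ ≤ _ := by nlinarith
    have hdl : θ * H ≤ ((e - k : ℕ) : ℝ) := by
      have g1 : (N : ℝ) ≤ 2 * d := by exact_mod_cast hcase.le
      rw [← hd]
      nlinarith
    obtain ⟨y, hy1, hy2⟩ := HO (X := 2 * (2 * A' + 1) * ((Tt : ℝ) / H) ^ (D + 1)) hH2 hNH hq hfar (force63 h0 (hm₁.trans hH1) hHT hh) hp hp'
      (by positivity) k e x hk hke (by rw [he, hb']) hdl hX
    refine ⟨y, ?_, le_trans (Real.exp_le_exp.2 (neg_le_neg ?_)) hy2⟩
    · rw [latsub (b := ((k : ℤ), x))] at hy1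
      have : (0 : ℝ) < 2 ^ j₁ := by positivity
      linarith
    · rw [mul_assoc]
      rw [hg] at fin ⊢
      refine fin (HN2 hH1 hHT hq₀ hq (hqx.trans (hq8 (by rw [← hΛ]; exact hΛ1))) hY₀ (by positivity) ?_)
      refine mul_le_mul_of_nonneg_right ?_ (by positivity)
      linarith
  · rcases Nat.lt_or_ge d (2 ^ j₁) with hcase2 | hcase2
    · -- the start is at the top: the straight path
      obtain ⟨B, hB⟩ : ∃ B : ℝ, B = q₀ * C₃ * C₁ * g * EE μ s Tt := ⟨_, rfl⟩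
      have hB0 : 0 ≤ B := by rw [hB]; positivity
      have hsite : ∀ l, 1 ≤ l → l ≤ d → |η (((k + l : ℕ) : ℤ), x)| ≤ B := by
        intro l hl1 hl2
        have g1 := htp.2 (((k + l : ℕ) : ℤ), x) (by
          show b'.1 - N < ((k + l : ℕ) : ℤ)
          rw [hb']
          push_cast
          linarith [hk, (by exact_mod_cast hl1 : (1 : ℤ) ≤ l)]) (by
          show b'.1 - 2 ^ j₁ < ((k + l : ℕ) : ℤ)
          rw [← he, hed]
          have : ((d : ℕ) : ℤ) < 2 ^ j₁ := by exact_mod_cast hcase2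
          push_cast
          linarith [(by exact_mod_cast hl1 : (1 : ℤ) ≤ l)]) (by
          show ((k + l : ℕ) : ℤ) ≤ b'.1
          rw [← he, hed]
          exact_mod_cast (by omega : k + l ≤ k + d))
        refine g1.trans ?_
        -- the lateral distance
        obtain ⟨Y, hY⟩ : ∃ Y : ℝ, Y = |lat16 μ s b' (((k + l : ℕ) : ℤ), x)| := ⟨_, rfl⟩
        have hY0 : 0 ≤ Y := by rw [hY]; exact abs_nonneg _
        have hld : (l : ℝ) ≤ 2 ^ j₁ := by
          have : l ≤ 2 ^ j₁ := by omega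
          exact_mod_cast this
        have hY1 : Y ≤ (1 + Y₀) * ((4 * A * wd μ s 1 + 2 ^ j₁) * (Tt : ℝ) ^ (D + 1)) := by
          have e1 : lat16 μ s b' (((k + l : ℕ) : ℤ), x) = lat16 μ s κ ((k : ℤ), x) - lat16 μ s κ b' - sl μ s * l := by
            unfold lat16
            push_cast
            ring
          have g2 : |sl μ s * l| ≤ 2 ^ j₁ := by
            rw [abs_of_nonneg (mul_nonneg hsl.1 (Nat.cast_nonneg l))]
            nlinarith [hsl.1, hsl.2, (Nat.cast_nonneg l : (0 : ℝ) ≤ l)]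
          have g3 : Y ≤ |lat16 μ s κ ((k : ℤ), x)| + |lat16 μ s κ b'| + |sl μ s * l| := by
            rw [hY, e1]
            exact (abs_sub _ _).trans (add_le_add (abs_sub _ _) le_rfl)
          have g4 : Λ ^ D ≤ (Tt : ℝ) ^ D := by
            refine pow_le_pow_left₀ (by linarith) ?_ _
            rw [hΛ]
            refine div_le_self hTt0.le ?_
            exact_mod_cast hm₁.trans hH1
          have g5 : wd μ s Tt ≤ 2 * Tt * wd μ s 1 := by
            have := wd63 h0 (m := 1) (n := Tt) le_rfl ((hm₁.trans hH1).trans hHT)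
            rwa [Nat.cast_one, div_one] at this
          have hw1 := h0.wd_nonneg 1
          have g6 : A' * Λ ^ D * wd μ s Tt ≤ A' * (Tt : ℝ) ^ D * (2 * Tt * wd μ s 1) :=
            mul_le_mul (mul_le_mul_of_nonneg_left g4 hA'0) g5 (by linarith) (by positivity)
          have g7 : A' * wd μ s Tt ≤ A' * (Tt : ℝ) ^ D * (2 * Tt * wd μ s 1) := by
            have : 1 ≤ (Tt : ℝ) ^ D := one_le_pow₀ hTt1
            have : A' ≤ A' * (Tt : ℝ) ^ D := by nlinarith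
            exact mul_le_mul this g5 (by linarith) (by positivity)
          have g8 : (1 : ℝ) ≤ (Tt : ℝ) ^ (D + 1) := one_le_pow₀ hTt1
          have g9 : (2 : ℝ) ^ j₁ ≤ 2 ^ j₁ * (Tt : ℝ) ^ (D + 1) := by
            have : (0 : ℝ) < 2 ^ j₁ := by positivity
            nlinarith
          rw [← hΛ] at hlb'
          have g10 : 2 ^ j₁ * (Tt : ℝ) ^ (D + 1) ≤ (1 + Y₀) * (2 ^ j₁ * (Tt : ℝ) ^ (D + 1)) := by
            have : 0 ≤ 2 ^ j₁ * (Tt : ℝ) ^ (D + 1) := by positivity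
            nlinarith
          calc Y ≤ |lat16 μ s κ ((k : ℤ), x)| + |lat16 μ s κ b'| + |sl μ s * l| := g3
            _ ≤ A' * (Tt : ℝ) ^ D * (2 * Tt * wd μ s 1) + A' * (Tt : ℝ) ^ D * (2 * Tt * wd μ s 1) + (1 + Y₀) * (2 ^ j₁ * (Tt : ℝ) ^ (D + 1)) :=
              add_le_add (add_le_add (hx.trans g7) (hlb'.trans g6)) ((g2.trans g9).trans g10)
            _ = _ := by rw [hA']; ring
        have g10 : 1 + Real.log (1 + Y) ≤ g * (C₃ * (Tt : ℝ) ^ (a / 4)) := by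
          have g11 : gr 1 Y = 1 + Real.log (1 + Y) := by
            unfold gr
            rw [pow_one]
          have g14 : gr 1 (1 + Y₀) ≤ g := by
            rw [hg]
            unfold gr
            refine pow_le_pow_right₀ ?_ (by omega)
            have := Real.log_nonneg (show (1 : ℝ) ≤ 1 + (1 + Y₀) by linarith)
            linarith
          have hw1 := h0.wd_nonneg 1
          have g15 : 0 ≤ (4 * A * wd μ s 1 + 2 ^ j₁) * (Tt : ℝ) ^ (D + 1) := by positivity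
          rw [← g11]
          refine (gr_mul 1 (X := 1 + Y₀) (by linarith) g15 hY0 ?_).trans (mul_le_mul g14 (Hg Tt hTt1) (gr_nonneg _ g15) (by linarith))
          nlinarith
        have g12 : q * (N : ℝ) ^ ε ≤ q₀ * (Tt : ℝ) ^ (a / 4) := by
          have k1 : (N : ℝ) ^ ε ≤ (Tt : ℝ) ^ (a / 8) := by
            calc (N : ℝ) ^ ε ≤ (Tt : ℝ) ^ ε := Real.rpow_le_rpow (Nat.cast_nonneg _) (by exact_mod_cast hNH.trans hHT) hε
              _ ≤ (Tt : ℝ) ^ (a / 8) := Real.rpow_le_rpow_of_exponent_le hTt1 hεa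
          have k2 : q ≤ q₀ * (Tt : ℝ) ^ (a / 8) := by
            refine hqx.trans (mul_le_mul_of_nonneg_left (Real.rpow_le_rpow (by positivity) ?_ (by positivity)) hq₀)
            refine div_le_self hTt0.le ?_
            exact_mod_cast hm₁.trans hH1
          calc q * (N : ℝ) ^ ε ≤ (q₀ * (Tt : ℝ) ^ (a / 8)) * (Tt : ℝ) ^ (a / 8) := mul_le_mul k2 k1 (by positivity) (by positivity)
            _ = q₀ * (Tt : ℝ) ^ (a / 4) := by
              rw [mul_assoc, ← Real.rpow_add hTt0]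
              congr 2
              ring
        have g13 := log_nn (lat16 μ s b' (((k + l : ℕ) : ℤ), x))
        rw [← hY] at g13 ⊢
        calc q * (N : ℝ) ^ ε * (1 + Real.log (1 + Y)) ≤ (q₀ * (Tt : ℝ) ^ (a / 4)) * (g * (C₃ * (Tt : ℝ) ^ (a / 4))) :=
              mul_le_mul g12 g10 (by linarith) (by positivity)
          _ = q₀ * C₃ * g * (Tt : ℝ) ^ (a / 2) := by
              have : (Tt : ℝ) ^ (a / 4) * (Tt : ℝ) ^ (a / 4) = (Tt : ℝ) ^ (a / 2) := by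
                rw [← Real.rpow_add hTt0]
                congr 1
                ring
              rw [← this]
              ring
          _ ≤ q₀ * C₃ * g * (C₁ * EE μ s Tt) := by
              refine mul_le_mul_of_nonneg_left ?_ (by positivity)
              exact (Real.rpow_le_rpow_of_exponent_le hTt1 (by linarith)).trans (HT Tt (hH1.trans hHT))
          _ = B := by rw [hB]; ring
      have key := nk_short63 (μ := μ) (s := s) hsl (h := h) (η := η) (p := p) (M := M) hpp hB0 k d x hsite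
      refine ⟨x, ?_, ?_⟩
      · have e1 : lat16 μ s κ ((e : ℤ), x) - lat16 μ s κ ((k : ℤ), x) = -(sl μ s * d) := by
          rw [hed]
          unfold lat16
          push_cast
          ring
        have g2 : (d : ℝ) ≤ 2 ^ j₁ := by exact_mod_cast hcase2.le
        rw [e1, abs_neg, abs_of_nonneg (mul_nonneg hsl.1 (Nat.cast_nonneg d))]
        nlinarith [hsl.1, hsl.2, (Nat.cast_nonneg d : (0 : ℝ) ≤ d)]
      · rw [← hd]
        refine le_trans (Real.exp_le_exp.2 (neg_le_neg ?_)) key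
        have hc0 := h0.c0
        have g1 : |h| ≤ |c| * EE μ s Tt := by
          have k1 : |h| * 1 ≤ |h| * wd μ s Tt := mul_le_mul_of_nonneg_left hwT (abs_nonneg h)
          rw [abs_of_pos hc0]
          nlinarith
        have g2 : (d : ℝ) ≤ 2 ^ j₁ := by exact_mod_cast hcase2.le
        have g3 : |lam μ s| ≤ |lam μ s| * EE μ s Tt := by nlinarith [abs_nonneg (lam μ s)]
        have g4 : 0 ≤ |lam μ s| + |h| + B := by positivity
        have g5 : |lam μ s| + |h| + B ≤ (|lam μ s| + |c| + C₃ * C₁) * ((1 + q₀) ^ 2 * g * EE μ s Tt) := by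
          have k0 : EE μ s Tt ≤ g * EE μ s Tt := by nlinarith
          have k1 : 1 * EE μ s Tt ≤ (1 + q₀) ^ 2 * g * EE μ s Tt :=
            mul_le_mul_of_nonneg_right (one_le_mul_of_one_le_of_one_le hq20 hg1) hEt.le
          have k2 : q₀ * (g * EE μ s Tt) ≤ (1 + q₀) ^ 2 * (g * EE μ s Tt) := mul_le_mul_of_nonneg_right (by nlinarith) (by positivity)
          have k3 : B = C₃ * C₁ * (q₀ * (g * EE μ s Tt)) := by rw [hB]; ring
          have k4 : B ≤ C₃ * C₁ * ((1 + q₀) ^ 2 * g * EE μ s Tt) := by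
            rw [k3, mul_assoc ((1 + q₀) ^ 2)]
            exact mul_le_mul_of_nonneg_left k2 (by positivity)
          have k5 : |lam μ s| * EE μ s Tt ≤ |lam μ s| * ((1 + q₀) ^ 2 * g * EE μ s Tt) :=
            mul_le_mul_of_nonneg_left (by linarith) (abs_nonneg _)
          have k6 : |c| * EE μ s Tt ≤ |c| * ((1 + q₀) ^ 2 * g * EE μ s Tt) := mul_le_mul_of_nonneg_left (by linarith) (abs_nonneg _)
          linarith
        calc (d : ℝ) * (|lam μ s| + |h| + B) ≤ 2 ^ j₁ * ((|lam μ s| + |c| + C₃ * C₁) * ((1 + q₀) ^ 2 * g * EE μ s Tt)) :=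
              mul_le_mul g2 g5 g4 (by positivity)
          _ = (2 ^ j₁ * (|lam μ s| + |c| + C₃ * C₁)) * ((1 + q₀) ^ 2 * g * EE μ s Tt) := by ring
          _ ≤ C₉ * ((1 + q₀) ^ 2 * g * EE μ s Tt) := by
              refine mul_le_mul_of_nonneg_right ?_ (by positivity)
              have : 0 < C₈ * C₂ := by positivity
              rw [hC₉]
              linarith
          _ = _ := by ring
    · -- a dyadic height
      have hd0 : d ≠ 0 := by
        have : 0 < 2 ^ j₁ := by positivity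
        omega
      obtain ⟨i, hi1, hi2⟩ : ∃ i, 2 ^ i ≤ d ∧ d < 2 ^ (i + 1) :=
        ⟨Nat.log 2 d, Nat.pow_log_le_self 2 hd0, Nat.lt_pow_succ_log_self (by norm_num) d⟩
      have hij : j₁ ≤ i + 1 := by
        by_contra hcon
        have : 2 ^ (i + 1) ≤ 2 ^ j₁ := Nat.pow_le_pow_right (by norm_num) (by omega)
        omega
      have hin : 2 ^ (i + 1) ≤ N := by
        rw [pow_succ]
        omega
      obtain ⟨n, hn⟩ : ∃ n, n = 2 ^ (i + 1) := ⟨_, rfl⟩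
      have hnN : n ≤ N := by rw [hn]; exact hin
      have hnj : max m₁ (max m₂ m₃) ≤ n := by
        rw [hn]
        exact hj₁.trans (Nat.pow_le_pow_right (by norm_num) hij)
      have hn1 : m₁ ≤ n := (le_max_left _ _).trans hnj
      have hn2 : m₂ ≤ n := ((le_max_left _ _).trans (le_max_right _ _)).trans hnj
      have hnT : n ≤ Tt := (hnN.trans hNH).trans hHT
      have hn0 : (0 : ℝ) < n := by exact_mod_cast hm₁.trans hn1
      have hf := htp.1 (i + 1) hij hin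
      rw [← hn] at hf
      have e2 : ((2 : ℝ) ^ (i + 1)) = n := by rw [hn]; push_cast; rfl
      rw [e2] at hf
      obtain ⟨Λ', hΛ'⟩ : ∃ Λ' : ℝ, Λ' = (Tt : ℝ) / n := ⟨_, rfl⟩
      have hΛΛ : Λ ≤ Λ' := by
        rw [hΛ, hΛ']
        exact div_le_div_of_nonneg_left hTt0.le hn0 (by exact_mod_cast hnN.trans hNH)
      have hΛ'1 : 1 ≤ Λ' := hΛ1.trans hΛΛ
      have hX : |lat16 μ s ((k : ℤ), x) (dp63 μ s b' n)| ≤ 2 * (2 * A' + 1) * ((Tt : ℝ) / n) ^ (D + 1) * wd μ s n := by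
        refine lamw63 h0 (hm₁.trans hn1) hnT D (by linarith) ?_
        have e3 : lat16 μ s ((k : ℤ), x) (dp63 μ s b' n) = lat16 μ s b' (dp63 μ s b' n) + (lat16 μ s κ b' - lat16 μ s κ ((k : ℤ), x)) := by
          rw [latsub (b := ((k : ℤ), x)), latsub (b := b')]
          ring
        rw [e3, ← hΛ']
        rw [← hΛ] at hlb'
        obtain ⟨g1, g1'⟩ := lat_dp63 (μ := μ) (s := s) b' n
        have g2 : 1 ≤ Λ' ^ D := one_le_pow₀ hΛ'1
        have g3 : A' * wd μ s Tt ≤ A' * Λ' ^ D * wd μ s Tt := by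
          have : 0 ≤ A' * wd μ s Tt := by positivity
          nlinarith
        have g4 : A' * Λ ^ D * wd μ s Tt ≤ A' * Λ' ^ D * wd μ s Tt :=
          mul_le_mul_of_nonneg_right (mul_le_mul_of_nonneg_left (pow_le_pow_left₀ (by linarith) hΛΛ _) hA'0) (by linarith)
        have g5 : 1 ≤ Λ' ^ D * wd μ s Tt := one_le_mul_of_one_le_of_one_le g2 hwT
        calc _ ≤ |lat16 μ s b' (dp63 μ s b' n)| + |lat16 μ s κ b' - lat16 μ s κ ((k : ℤ), x)| := abs_add_le _ _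
          _ ≤ 1 + (|lat16 μ s κ b'| + |lat16 μ s κ ((k : ℤ), x)|) :=
            add_le_add (by rw [abs_of_nonneg g1]; exact g1'.le) (abs_sub _ _)
          _ ≤ 1 + (A' * Λ' ^ D * wd μ s Tt + A' * Λ' ^ D * wd μ s Tt) := by linarith
          _ ≤ _ := by nlinarith
      have hqn0 : 0 ≤ q * ((N : ℝ) / n) ^ ε := by positivity
      have hqn : q * ((N : ℝ) / n) ^ ε ≤ q₀ * ((Tt : ℝ) / n) ^ (a / 4) := by
        have k1 : ((N : ℝ) / n) ^ ε ≤ Λ' ^ (a / 8) := by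
          calc ((N : ℝ) / n) ^ ε ≤ Λ' ^ ε := by
                refine Real.rpow_le_rpow (by positivity) ?_ hε
                rw [hΛ']
                exact div_le_div_of_nonneg_right (by exact_mod_cast hNH.trans hHT) hn0.le
            _ ≤ Λ' ^ (a / 8) := Real.rpow_le_rpow_of_exponent_le hΛ'1 hεa
        have k2 : q ≤ q₀ * Λ' ^ (a / 8) := by
          rw [← hΛ] at hqx
          exact hqx.trans (mul_le_mul_of_nonneg_left (Real.rpow_le_rpow (by linarith) hΛΛ (by positivity)) hq₀)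
        have hΛ'0 : 0 < Λ' := by linarith
        rw [← hΛ']
        calc q * ((N : ℝ) / n) ^ ε ≤ (q₀ * Λ' ^ (a / 8)) * Λ' ^ (a / 8) := mul_le_mul k2 k1 (by positivity) (by positivity)
          _ = q₀ * Λ' ^ (a / 4) := by
            rw [mul_assoc, ← Real.rpow_add hΛ'0]
            congr 2
            ring
      have hdn : θ * n ≤ ((e - k : ℕ) : ℝ) := by
        rw [← hd]
        have g1 : (n : ℝ) ≤ 2 * d := by
          have : n ≤ 2 * d := by rw [hn, pow_succ]; omega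
          exact_mod_cast this
        nlinarith
      obtain ⟨y, hy1, hy2⟩ := HO (X := 2 * (2 * A' + 1) * ((Tt : ℝ) / n) ^ (D + 1)) hn2 le_rfl hqn0 hf
        (force63 h0 (hm₁.trans hn1) hnT hh) hp hp' (by positivity) k e x (by
          show b'.1 - (n : ℤ) ≤ k
          rw [← he, hed]
          have : d < n := by rw [hn]; exact hi2
          push_cast
          linarith [(by exact_mod_cast this : (d : ℤ) < n)]) hke (by
          show (e : ℤ) ≤ b'.1 - (n : ℤ) + n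
          rw [he]
          linarith) hdn hX
      refine ⟨y, ?_, le_trans (Real.exp_le_exp.2 (neg_le_neg ?_)) hy2⟩
      · rw [latsub (b := ((k : ℤ), x))] at hy1
        have : (0 : ℝ) < 2 ^ j₁ := by positivity
        linarith
      · rw [mul_assoc]
        rw [hg] at fin ⊢
        refine fin (HN2 hn1 hnT hq₀ hqn0 hqn hY₀ (by positivity) ?_)
        refine mul_le_mul_of_nonneg_right ?_ (by positivity)
        linarith

end

end Pool.Agent.W_7d29a1_C1.LwT63
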