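import Pool.Agent.W_7d29a1_C1.VDef31
import Pool.Agent.W_7d29a1_C1.SetB10
import Pool.Agent.W_7d29a1_C1.FrL47
import Pool.Agent.W_7d29a1_C1.ShDef21
import Pool.Agent.W_7d29a1_C1.RowW83

/-!
Both halves (MP_7d29a1_pr), attractor route [C1], SHELL: MEASURABILITY AND THE ROWS WHICH ARE READ, for the literal sets `V`, `So`
(helper98, wanted by helper47).

`Rd B f` : the function `f` of the environment reads the sites of `B` only. Reading lemmas for `fw`, `bw`, `GG`, `G47`, `jph`, one row;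
measurability and reading of `SeamIn`, `DW31`, `RowG`, window bounds, finite / countable unions and intersections.
-/

set_option autoImplicit false

namespace Pool.Agent.W_7d29a1_C1.Mv98

open MeasureTheory Finset
open Pool.Agent.W_7d29a1_F Pool.Agent.W_7d29a1_h4g Pool.Agent.W_7d29a1_H Pool.Agent.W_7d29a1_HS
open Pool.Agent.W_7d29a1_C1 (On20)
open Pool.Agent.W_7d29a1_C1.K91 (wt wt_pos measurable_wt)
open Pool.Agent.W_7d29a1_C1.K91P (fw bw fw_congr bw_congr meas_fw meas_bw GG)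
open Pool.Agent.W_7d29a1_C1.S71 Pool.Agent.W_7d29a1_C1.T10
open Pool.Agent.W_7d29a1_C1.S83 (SeamI RowG meas_RowG jph)
open Pool.Agent.W_7d29a1_C1.Sh21 (SeamIn)
open Pool.Agent.W_7d29a1_C1.D31 (DW31 DP31 meas_DW31)

noncomputable section

/-! ### Reading -/

/-- `f` reads the sites of `B` only. -/
def Rd {X : Type*} (B : Set Pt) (f : Env → X) : Prop := ∀ η η' : Env, (∀ p ∈ B, η p = η' p) → f η = f η'

section Rd

variable {X Y Z W : Type*} {B B' : Set Pt} {f : Env → X} {g : Env → Y}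

theorem Rd.mono (h : Rd B f) (hB : B ⊆ B') : Rd B' f := fun η η' e => h η η' fun p hp => e p (hB hp)

theorem Rd.const (x : X) : Rd B (fun _ : Env => x) := fun _ _ _ => rfl

theorem Rd.comp (h : Rd B f) (F : X → Y) : Rd B (fun η => F (f η)) := fun η η' e => congrArg F (h η η' e)

theorem Rd.comp2 (h : Rd B f) (h' : Rd B g) (F : X → Y → Z) : Rd B (fun η => F (f η) (g η)) := fun η η' e => by
  show F (f η) (g η) = F (f η') (g η')
  rw [h η η' e, h' η η' e]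

theorem Rd.comp3 {k : Env → Z} (h : Rd B f) (h' : Rd B g) (h'' : Rd B k) (F : X → Y → Z → W) : Rd B (fun η => F (f η) (g η) (k η)) :=
  fun η η' e => by
    show F (f η) (g η) (k η) = F (f η') (g η') (k η')
    rw [h η η' e, h' η η' e, h'' η η' e]

theorem Rd.on {P : Env → Prop} (h : Rd B P) : On20 B {η | P η} := fun η η' e => by
  show P η ↔ P η'
  rw [h η η' e]

theorem on_rd {E : Set Env} (h : On20 B E) : Rd B (fun η => η ∈ E) := fun η η' e => propext (h η η' e)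

theorem Rd.all {ι : Sort*} {P : ι → Env → Prop} (h : ∀ i, Rd B (P i)) : Rd B (fun η => ∀ i, P i η) := fun η η' e => by
  show (∀ i, P i η) = ∀ i, P i η'
  exact propext ⟨fun h1 i => by rw [← h i η η' e]; exact h1 i, fun h1 i => by rw [h i η η' e]; exact h1 i⟩

theorem Rd.ex {ι : Sort*} {P : ι → Env → Prop} (h : ∀ i, Rd B (P i)) : Rd B (fun η => ∃ i, P i η) := fun η η' e => by
  show (∃ i, P i η) = ∃ i, P i η'
  exact propext ⟨fun ⟨i, h1⟩ => ⟨i, by rw [← h i η η' e]; exact h1⟩, fun ⟨i, h1⟩ => ⟨i, by rw [h i η η' e]; exact h1⟩⟩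

end Rd

theorem on_iUnion {ι : Sort*} {B : Set Pt} {E : ι → Set Env} (h : ∀ i, On20 B (E i)) : On20 B (⋃ i, E i) := fun η η' e => by
  simp only [Set.mem_iUnion]
  exact exists_congr fun i => h i η η' e

theorem on_iInter {ι : Sort*} {B : Set Pt} {E : ι → Set Env} (h : ∀ i, On20 B (E i)) : On20 B (⋂ i, E i) := fun η η' e => by
  simp only [Set.mem_iInter]
  exact forall_congr' fun i => h i η η' e

theorem on_univ (B : Set Pt) : On20 B Set.univ := fun _ _ _ => Iff.rfl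

theorem on_const {B : Set Pt} (P : Prop) : On20 B {_η : Env | P} := fun _ _ _ => Iff.rfl

/-! ### Rows -/

section rows

variable {lo hi : ℤ} {p : ℕ → ℝ} {l : ℤ → ℝ}

/-- The row `k` is read. -/
theorem wt_rout {k : ℕ} (h : (k : ℤ) ≤ lo ∨ hi < (k : ℤ)) {η η' : Env} (e : ∀ q ∈ rout lo hi, η q = η' q) (y : ℤ) :
    wt η k y = wt η' k y := by
  unfold wt
  rw [e ((k : ℤ), y) h]

theorem rd_wt {k : ℕ} (h : (k : ℤ) ≤ lo ∨ hi < (k : ℤ)) : Rd (rout lo hi) (fun η => wt η k) := fun η η' e => by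
  show wt η k = wt η' k
  funext y
  exact wt_rout h e y

/-- The forward masses of the row `i` read the rows `< i`. -/
theorem rd_fw {i : ℕ} (h : (i : ℤ) ≤ lo + 1) : Rd (rout lo hi) (fun η => fw (wt η) p l i) := fun η η' e => by
  show fw (wt η) p l i = fw (wt η') p l i
  funext y
  exact fw_congr i (fun j hj z => wt_rout (Or.inl (by omega)) e z) y

/-- The same, also for `i = 0`. -/
theorem rd_fw' {i : ℕ} (h : ∀ j < i, (j : ℤ) ≤ lo ∨ hi < (j : ℤ)) : Rd (rout lo hi) (fun η => fw (wt η) p l i) := fun η η' e => by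
  show fw (wt η) p l i = fw (wt η') p l i
  funext y
  exact fw_congr i (fun j hj z => wt_rout (h j hj) e z) y

/-- The backward masses of the row `k` read the rows `≥ k`. -/
theorem rd_bw {k j : ℕ} (h : hi < (k : ℤ)) : Rd (rout lo hi) (fun η => bw (wt η) p k j) := fun η η' e => by
  show bw (wt η) p k j = bw (wt η') p k j
  funext y
  exact bw_congr j k (fun i hik z => wt_rout (Or.inr (by omega)) e z) y

/-- The future at the row `k` reads the rows `> k`. -/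
theorem rd_GG {N k : ℕ} (h : hi < (k : ℤ) + 1) : Rd (rout lo hi) (fun η => GG (wt η) p N k) := fun η η' e => by
  have h1 := rd_bw (lo := lo) (hi := hi) (p := p) (k := k + 1) (j := N - (k + 1)) (by push_cast; omega) η η' e
  show GG (wt η) p N k = GG (wt η') p N k
  funext y
  unfold GG
  have h2 : bw (wt η) p (k + 1) (N - (k + 1)) = bw (wt η') p (k + 1) (N - (k + 1)) := h1
  rw [h2]

variable {μ : Measure ℝ} {s h : ℝ} {M : ℕ}

theorem rd_G47 {N i n m : ℕ} (hk : hi < ((i + n + (m + 1) : ℕ) : ℤ)) : Rd (rout lo hi) (fun η => Fr47.G47 μ s h η p M N i n m) :=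
  fun η η' e => by
    have h1 := rd_bw (lo := lo) (hi := hi) (p := p) (j := N - (i + n + (m + 1))) hk η η' e
    have h2 : bw (wt η) p (i + n + (m + 1)) (N - (i + n + (m + 1))) = bw (wt η') p (i + n + (m + 1)) (N - (i + n + (m + 1))) := h1
    show Fr47.G47 μ s h η p M N i n m = Fr47.G47 μ s h η' p M N i n m
    funext z
    unfold Fr47.G47
    rw [h2]

theorem meas_G47 {N i n m : ℕ} (z : ℤ) : Measurable fun η => Fr47.G47 μ s h η p M N i n m z := by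
  unfold Fr47.G47
  exact (meas_bw _ _ _).const_mul _

/-- One row of weights. -/
theorem rd_RowG {r z : ℤ} {R t : ℝ} (hr : r ≤ lo ∨ hi < r) : On20 (rout lo hi) (RowG r z R t) := fun η η' e => by
  unfold RowG
  refine forall_congr' fun x => ?_
  rw [e (r, x) hr]

end rows

/-! ### The functional of the joint -/

section jph

variable {B : Set Pt} {U : Finset ℤ} {kap : ℤ → ℤ → ℝ} {Gf : Env → ℤ → ℝ} {G₀ : Env → ℝ}

theorem rd_jph (h : Rd B Gf) (h0 : Rd B G₀) : Rd B (fun η => jph U kap (Gf η) (G₀ η)) := h.comp2 h0 fun a b => jph U kap a b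

theorem meas_jph (h : ∀ z, Measurable fun η => Gf η z) (h0 : Measurable G₀) (x : ℤ) : Measurable fun η => jph U kap (Gf η) (G₀ η) x := by
  unfold jph
  exact (Finset.measurable_fun_sum _ fun z _ => (h z).const_mul _).div h0

end jph

/-! ### The seam -/

section seam

variable {B : Set Pt} {lo h a1 b1 a2 b2 : ℤ} {a b ph : Env → ℤ → ℝ} {e1 e2 : ℝ}

/-- **The seam reads what its profiles read.** -/
theorem rd_SeamIn (ha : Rd B a) (hb : Rd B b) (hp : Rd B ph) : Rd B (fun η => SeamIn lo h (a η) (b η) a1 b1 a2 b2 (ph η) e1 e2) :=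
  ha.comp3 hb hp fun x y z => SeamIn lo h x y a1 b1 a2 b2 z e1 e2

/-- **The seam is measurable.** -/
theorem meas_SeamIn (ha : ∀ x, Measurable fun η => a η x) (hb : ∀ x, Measurable fun η => b η x) (hp : ∀ x, Measurable fun η => ph η x) :
    MeasurableSet {η | SeamIn lo h (a η) (b η) a1 b1 a2 b2 (ph η) e1 e2} := by
  have sm : ∀ {f : Env → ℤ → ℝ} (_ : ∀ x, Measurable fun η => f η x) (S : Finset ℤ), Measurable fun η => ∑ x ∈ S, f η x :=
    fun hf S => Finset.measurable_fun_sum _ fun x _ => hf x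
  have sm2 : ∀ {f g : Env → ℤ → ℝ} (_ : ∀ x, Measurable fun η => f η x) (_ : ∀ x, Measurable fun η => g η x) (S : Finset ℤ),
      Measurable fun η => ∑ x ∈ S, f η x * g η x :=
    fun hf hg S => Finset.measurable_fun_sum _ fun x _ => (hf x).mul (hg x)
  have e : {η | SeamIn lo h (a η) (b η) a1 b1 a2 b2 (ph η) e1 e2} =
      {η | ∑ x ∈ Icc lo h \ (Icc a1 b1 ∪ Icc a2 b2), a η x * ph η x ≤ e1 * ∑ x ∈ Icc a1 b1 ∪ Icc a2 b2, a η x} ∩
      ({η | ∑ x ∈ Icc lo h \ (Icc a1 b1 ∪ Icc a2 b2), b η x * ph η x ≤ e1 * ∑ x ∈ Icc a1 b1 ∪ Icc a2 b2, b η x} ∩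
      ({η | ∑ x ∈ Icc a2 b2, a η x ≤ e2 * ∑ x ∈ Icc a1 b1, a η x} ∩
      ({η | ∑ x ∈ Icc a1 b1, b η x ≤ e2 * ∑ x ∈ Icc a2 b2, b η x} ∩
      ({η | 0 < ∑ x ∈ Icc a2 b2, a η x} ∩ {η | 0 < ∑ x ∈ Icc a1 b1, b η x})))) := by
    ext η
    constructor
    · intro h1
      exact ⟨h1.I.offa, h1.I.offb, h1.I.ta, h1.I.tb, h1.p2, h1.p1⟩
    · rintro ⟨h1, h2, h3, h4, h5, h6⟩
      exact ⟨⟨h1, h2, h3, h4⟩, h5, h6⟩
  rw [e]
  exact (measurableSet_le (sm2 ha hp _) ((sm ha _).const_mul _)).inter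
    ((measurableSet_le (sm2 hb hp _) ((sm hb _).const_mul _)).inter
    ((measurableSet_le (sm ha _) ((sm ha _).const_mul _)).inter
    ((measurableSet_le (sm hb _) ((sm hb _).const_mul _)).inter
    ((measurableSet_lt measurable_const (sm ha _)).inter (measurableSet_lt measurable_const (sm hb _))))))

end seam

/-! ### The clause `So`: a seam for some radius, window bounds of the future -/

section So

variable {p : ℕ → ℝ} {l r : ℤ → ℝ} {I : Finset ℤ} {kap : ℤ → ℤ → ℝ} {lo hi lo' h' : ℤ} {i k j : ℕ} {c : ℝ}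

/-- One seam at the row `i`, future = the backward masses of the row `k` (times a constant), size `G0` a function of them. -/
def Sm98 (p : ℕ → ℝ) (l r : ℤ → ℝ) (I : Finset ℤ) (kap : ℤ → ℤ → ℝ) (lo' h' : ℤ) (i k j : ℕ) (c : ℝ) (G0 : (ℤ → ℝ) → ℝ)
    (a1 b1 a2 b2 : ℤ) (e1 e2 : ℝ) : Set Env :=
  {η | SeamIn lo' h' (fw (wt η) p l i) (fw (wt η) p r i) a1 b1 a2 b2
    (jph I kap (fun z => c * bw (wt η) p k j z) (G0 (bw (wt η) p k j))) e1 e2}

theorem on_Sm98 {G0 : (ℤ → ℝ) → ℝ} {a1 b1 a2 b2 : ℤ} {e1 e2 : ℝ} (h1 : (i : ℤ) ≤ lo + 1) (h2 : hi < (k : ℤ)) :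
    On20 (rout lo hi) (Sm98 p l r I kap lo' h' i k j c G0 a1 b1 a2 b2 e1 e2) := by
  have hf : Rd (rout lo hi) (fun η => bw (wt η) p k j) := rd_bw h2
  exact Rd.on (rd_SeamIn (rd_fw h1) (rd_fw h1) (rd_jph (hf.comp fun f z => c * f z) (hf.comp G0)))

theorem meas_Sm98 {G0 : (ℤ → ℝ) → ℝ} {a1 b1 a2 b2 : ℤ} {e1 e2 : ℝ} (hG : Measurable fun η => G0 (bw (wt η) p k j)) :
    MeasurableSet (Sm98 p l r I kap lo' h' i k j c G0 a1 b1 a2 b2 e1 e2) :=
  meas_SeamIn (fun _ => meas_fw _ _ _) (fun _ => meas_fw _ _ _) (meas_jph (fun _ => (meas_bw _ _ _).const_mul _) hG)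

/-- Some radius. -/
theorem on_exists {ι : Type*} {B : Set Pt} {P : ι → Prop} {E : ι → Set Env} (h : ∀ x, P x → On20 B (E x)) :
    On20 B {η | ∃ x, P x ∧ η ∈ E x} := fun η η' e =>
  exists_congr fun x => and_congr_right fun hx => h x hx η η' e

theorem meas_exists {ι : Type*} [Countable ι] {P : ι → Prop} {E : ι → Set Env} (h : ∀ x, P x → MeasurableSet (E x)) :
    MeasurableSet {η | ∃ x, P x ∧ η ∈ E x} := by
  have e : {η | ∃ x, P x ∧ η ∈ E x} = ⋃ x : ι, {η | P x ∧ η ∈ E x} := by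
    ext η
    simp
  rw [e]
  refine MeasurableSet.iUnion fun x => ?_
  by_cases hx : P x
  · have e2 : {η | P x ∧ η ∈ E x} = E x := Set.ext fun η => ⟨fun h1 => h1.2, fun h1 => ⟨hx, h1⟩⟩
    rw [e2]
    exact h x hx
  · have e2 : {η | P x ∧ η ∈ E x} = ∅ := Set.ext fun η => ⟨fun h1 => (hx h1.1).elim, fun h1 => h1.elim⟩
    rw [e2]
    exact MeasurableSet.empty

/-- The window bound of the future: `G0 ≤ V f z`, `f z ≤ V G0` on a window. -/
def Wb98 (p : ℕ → ℝ) (k j : ℕ) (G0 : (ℤ → ℝ) → ℝ) (za zb : ℤ) (V : ℝ) : Set Env :=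
  {η | ∀ z : ℤ, za ≤ z → z ≤ zb → G0 (bw (wt η) p k j) ≤ V * bw (wt η) p k j z ∧ bw (wt η) p k j z ≤ V * G0 (bw (wt η) p k j)}

theorem on_Wb98 {G0 : (ℤ → ℝ) → ℝ} {za zb : ℤ} {V : ℝ} (h2 : hi < (k : ℤ)) : On20 (rout lo hi) (Wb98 p k j G0 za zb V) := by
  have hf : Rd (rout lo hi) (fun η => bw (wt η) p k j) := rd_bw h2
  exact Rd.on (hf.comp fun f => ∀ z : ℤ, za ≤ z → z ≤ zb → G0 f ≤ V * f z ∧ f z ≤ V * G0 f)

theorem meas_Wb98 {G0 : (ℤ → ℝ) → ℝ} {za zb : ℤ} {V : ℝ} (hG : Measurable fun η => G0 (bw (wt η) p k j)) :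
    MeasurableSet (Wb98 p k j G0 za zb V) := by
  have e : Wb98 p k j G0 za zb V = ⋂ z : ℤ, {η | za ≤ z → η ∈ {η | z ≤ zb → η ∈
      {η | G0 (bw (wt η) p k j) ≤ V * bw (wt η) p k j z} ∩ {η | bw (wt η) p k j z ≤ V * G0 (bw (wt η) p k j)}}} := by
    ext η
    simp only [Set.mem_iInter]
    exact Iff.rfl
  rw [e]
  exact MeasurableSet.iInter fun z => D31.meas_imp31 (D31.meas_imp31 ((measurableSet_le hG ((meas_bw _ _ _).const_mul _)).inter
    (measurableSet_le (meas_bw _ _ _) (hG.const_mul _))))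

end So

/-! ### The clause `V`: `DW31` for some window columns -/

section V

variable {B : Set Pt} {I : Finset ℤ} {cen cen' W₁ W₁' W₂ : ℝ} {kap : ℤ → ℤ → ℝ} {g q₁ q₂ gf : ℝ} {L R F : Env → ℤ → ℝ}

theorem rd_DW31 {yl yr yp : ℤ} (hL : Rd B L) (hR : Rd B R) (hF : Rd B F) :
    Rd B (fun η => DW31 I cen cen' W₁ W₁' W₂ kap yl yr yp g q₁ q₂ gf (L η) (R η) (F η)) :=
  hL.comp3 hR hF fun x y z => DW31 I cen cen' W₁ W₁' W₂ kap yl yr yp g q₁ q₂ gf x y z

/-- **`DW31` for some columns.** -/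
def DE98 (I : Finset ℤ) (cen cen' W₁ W₁' W₂ : ℝ) (kap : ℤ → ℤ → ℝ) (g q₁ q₂ gf : ℝ) (L R F : Env → ℤ → ℝ) : Set Env :=
  {η | ∃ yl yr yp : ℤ, DW31 I cen cen' W₁ W₁' W₂ kap yl yr yp g q₁ q₂ gf (L η) (R η) (F η)}

theorem on_DE98 (hL : Rd B L) (hR : Rd B R) (hF : Rd B F) : On20 B (DE98 I cen cen' W₁ W₁' W₂ kap g q₁ q₂ gf L R F) :=
  Rd.on (Rd.ex fun _ => Rd.ex fun _ => Rd.ex fun _ => rd_DW31 hL hR hF)

theorem meas_DE98 (hL : ∀ x, Measurable fun η => L η x) (hR : ∀ x, Measurable fun η => R η x) (hF : ∀ x, Measurable fun η => F η x) :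
    MeasurableSet (DE98 I cen cen' W₁ W₁' W₂ kap g q₁ q₂ gf L R F) := by
  have e : DE98 I cen cen' W₁ W₁' W₂ kap g q₁ q₂ gf L R F =
      ⋃ yl : ℤ, ⋃ yr : ℤ, ⋃ yp : ℤ, {η | DW31 I cen cen' W₁ W₁' W₂ kap yl yr yp g q₁ q₂ gf (L η) (R η) (F η)} := by
    ext η
    simp only [Set.mem_iUnion]
    exact Iff.rfl
  rw [e]
  exact MeasurableSet.iUnion fun _ => MeasurableSet.iUnion fun _ => MeasurableSet.iUnion fun _ => meas_DW31 hL hR hF

/-- **`V` of the model**: edge rows `i` (below), `k` (above; the future is `GG` at the row `k`). -/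
theorem on_DE98_fw {lo hi : ℤ} {p : ℕ → ℝ} {l r : ℤ → ℝ} {N i k : ℕ} (h1 : (i : ℤ) ≤ lo + 1) (h2 : hi < (k : ℤ) + 1) :
    On20 (rout lo hi) (DE98 I cen cen' W₁ W₁' W₂ kap g q₁ q₂ gf (fun η => fw (wt η) p l i) (fun η => fw (wt η) p r i)
      (fun η => GG (wt η) p N k)) := on_DE98 (rd_fw h1) (rd_fw h1) (rd_GG h2)

/-- **The field `rV` of `half10`** for `V31` (VDef31). -/
theorem on_V31 {μ : Measure ℝ} {s : ℝ} {Γ : H60.Cx} {ν : D31.NV31} {G : Gd} {t : ℕ} {c : ℕ × ℤ} :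
    On20 (rout (((G.z (t + ν.m₂) c).1 : ℤ) - ν.Ts (t + ν.m₂)) (((G.z (t + ν.m₂) c).1 : ℤ) + ν.Ts (t + ν.m₂))) (D31.V31 μ s Γ ν G t c) := by
  have h1 : ∀ l : ℤ → ℝ, Rd (rout (((G.z (t + ν.m₂) c).1 : ℤ) - ν.Ts (t + ν.m₂)) (((G.z (t + ν.m₂) c).1 : ℤ) + ν.Ts (t + ν.m₂)))
      (fun η => fw (wt η) Γ.p l (ν.row G t c)) := fun l => rd_fw' fun j hj => by
    unfold D31.NV31.row at hj
    omega
  have h2 : Rd (rout (((G.z (t + ν.m₂) c).1 : ℤ) - ν.Ts (t + ν.m₂)) (((G.z (t + ν.m₂) c).1 : ℤ) + ν.Ts (t + ν.m₂)))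
      (fun η => D31.GV Γ ν G t c η) := rd_GG (by
    unfold D31.NV31.row D31.NV31.nr
    push_cast
    omega)
  exact Rd.on ((h1 _).comp3 (h1 _) h2 fun x y z => ν.j₀ ≤ t ∧ DW31 (Icc 0 Γ.hi) (ν.cn G t c (sl μ s)) (ν.cn' G t c (sl μ s)) (ν.W1 t)
    (ν.W1' t) (ν.W2 t) (D31.kap31 ν.P ν.c₁ ν.c₃ ν.Q ν.S (ν.E t) (ν.w t) (ν.cn G t c (sl μ s)) (ν.cn' G t c (sl μ s)) (ν.nr t))
    ⌈ν.cn G t c (sl μ s) - ν.W1 t⌉ ⌊ν.cn G t c (sl μ s) + ν.W1 t⌋ ⌊ν.cn' G t c (sl μ s)⌋ (ν.g t) (ν.q₁ t) (ν.q₂ t) (ν.gf t) x y z)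

theorem meas_DE98_fw {p : ℕ → ℝ} {l r : ℤ → ℝ} {N i k : ℕ} :
    MeasurableSet (DE98 I cen cen' W₁ W₁' W₂ kap g q₁ q₂ gf (fun η => fw (wt η) p l i) (fun η => fw (wt η) p r i)
      (fun η => GG (wt η) p N k)) := by
  refine meas_DE98 (fun _ => meas_fw _ _ _) (fun _ => meas_fw _ _ _) fun x => ?_
  unfold GG
  exact (meas_bw _ _ _).add ((meas_bw _ _ _).const_mul _)

end V

end

end Pool.Agent.W_7d29a1_C1.Mv98
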