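import Pool.Agent.W_7d29a1_C1.DwW95
import Pool.Agent.W_7d29a1_C1.Msv98

/-!
MP_7d29a1_pr, attractor route [C1], SHELL: the rows which `LP95` reads. (helper95)
-/

set_option autoImplicit false

namespace Pool.Agent.W_7d29a1_C1.Mv98

open MeasureTheory Finset
open Pool.Agent.W_7d29a1_F Pool.Agent.W_7d29a1_h4g Pool.Agent.W_7d29a1_H Pool.Agent.W_7d29a1_HS
open Pool.Agent.W_7d29a1_C1 (On20)
open Pool.Agent.W_7d29a1_C1.S71 Pool.Agent.W_7d29a1_C1.T10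

noncomputable section

/-- **The rows which `LP` reads.** -/
theorem rLP95 {μ : Measure ℝ} {s sg : ℝ} {Γ : H60.Cx} {ν : D31.NV31} {G : Gd} {t : ℕ} {c : ℕ × ℤ} :
    On20 (rout (((G.z (t + ν.m₂) c).1 : ℤ) - ν.Ts (t + ν.m₂)) (((G.z (t + ν.m₂) c).1 : ℤ) + ν.Ts (t + ν.m₂)))
      (D31.LP95 μ s Γ ν sg G t c) := by
  have h2 : Rd (rout (((G.z (t + ν.m₂) c).1 : ℤ) - ν.Ts (t + ν.m₂)) (((G.z (t + ν.m₂) c).1 : ℤ) + ν.Ts (t + ν.m₂)))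
      (fun η => D31.GV Γ ν G t c η) := rd_GG (by
    unfold D31.NV31.row D31.NV31.nr
    push_cast
    omega)
  exact Rd.on (h2.comp fun x => ∀ z : ℤ, |(z : ℝ) - D31.yp95 μ s ν G t c| ≤ ν.nr t + 1 → x z ≤
    Real.exp (ν.q₁ t + sg * (ν.E t / ν.w t) * |(z : ℝ) - D31.yp95 μ s ν G t c|) * x (D31.yp95 μ s ν G t c))

end

end Pool.Agent.W_7d29a1_C1.Mv98
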