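import Pool.Agent.W_7d29a1_C1.VInM31
import Pool.Agent.W_7d29a1_C1.Tm31

/-!
MP_7d29a1_pr, attractor route [C1], SHELL: LOCAL REGULARITY AND POSITIVITY AT THE EDGE ROWS OF THE BALL (helper27): the clauses `hLG`, `hLl`,
`hLr`, `hpL`, `hpR` of `vin31` / `vin95` from `TM31` at the scale `o = t + m₂` and from the positivity of the weight of the contact.

Order of the constants: everything is given; the loss at the window `W` is `A (Φ ^ n EE (T o)) + 2 Lw`, the slope `σ EE (T o) / wd (T o)`.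
-/

set_option autoImplicit false

namespace Pool.Agent.W_7d29a1_C1.LrB27

open MeasureTheory ProbabilityTheory Filter Topology Finset
open Pool.Agent.W_7d29a1_F Pool.Agent.W_7d29a1_h4g Pool.Agent.W_7d29a1_H Pool.Agent.W_7d29a1_HS
open Pool.Agent.W_7d29a1_C1.S71 Pool.Agent.W_7d29a1_C1.T10
open Pool.Agent.W_7d29a1_C1.H60 (Cx)
open Pool.Agent.W_7d29a1_C1.K91 (wt wt_pos Box)
open Pool.Agent.W_7d29a1_C1.K91P
open Pool.Agent.W_7d29a1_C1.H75 Pool.Agent.W_7d29a1_C1.U16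
open Pool.Agent.W_7d29a1_C1.FarW89 (nk bl)
open Pool.Agent.W_7d29a1_C1.SysP84 (fh84)
open Pool.Agent.W_7d29a1_C1.D31

noncomputable section

/-! ### Positivity -/

/-- A positive mass comes from a positive mass at an earlier row. -/
theorem back27 {w : ℕ → ℤ → ℝ} {p : ℕ → ℝ} {m : ℤ → ℝ} (hw : ∀ k y, 0 < w k y) (hp : ∀ k, 0 < p k) {i n : ℕ} {y : ℤ}
    (h : 0 < fw w p m (i + n) y) : ∃ x : ℤ, x ≤ y ∧ y ≤ x + n ∧ 0 < fw w p m i x := by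
  by_contra hcon
  push Not at hcon
  rw [fw_ker] at h
  have h1 : ∑ x ∈ Icc (y - n) y, fw w p m i x * ker w p i n x y ≤ 0 := by
    refine sum_nonpos fun x hx => ?_
    rw [mem_Icc] at hx
    have h2 := hcon x hx.2 (by omega)
    exact mul_nonpos_of_nonpos_of_nonneg h2 (ker_nonneg hw hp i n x y)
  linarith

/-- The masses of the two groups at a contact of positive weight. -/
theorem pos_w27 {Γ : Cx} (hΓ : Γ.Ok) {c : ℕ × ℤ} {ω : Env} (h : 0 < Γ.w c ω) :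
    0 < fw (wt ω) Γ.p Cx.l c.1 (c.2 - 1) ∧ 0 < fw (wt ω) Γ.p Γ.r c.1 c.2 := by
  have hb := Cx.box1 hΓ
  have f1 : 0 ≤ fw (wt ω) Γ.p Cx.l c.1 (c.2 - 1) := fw_nonneg (wt_pos ω) Γ.p_pos hb.g.l0 _ _
  have f2 : 0 ≤ fw (wt ω) Γ.p Γ.r c.1 c.2 := fw_nonneg (wt_pos ω) Γ.p_pos hb.g.r0 _ _
  have f3 : 0 ≤ fw (wt ω) Γ.p Cx.l c.1 c.2 := fw_nonneg (wt_pos ω) Γ.p_pos hb.g.l0 _ _
  have f4 : 0 ≤ fw (wt ω) Γ.p Γ.r c.1 (c.2 - 1) := fw_nonneg (wt_pos ω) Γ.p_pos hb.g.r0 _ _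
  have hd : 0 < dp (wt ω) Γ.p Cx.l Γ.r c.1 (c.2 - 1) c.2 := by
    rcases lt_or_ge 0 (dp (wt ω) Γ.p Cx.l Γ.r c.1 (c.2 - 1) c.2) with h1 | h1
    · exact h1
    · exfalso
      have h2 := dp_nonneg (wt_pos ω) Γ.p_pos hb.g c.1 (c.2 - 1) c.2 (by omega)
      have h3 : dp (wt ω) Γ.p Cx.l Γ.r c.1 (c.2 - 1) c.2 = 0 := le_antisymm h1 h2
      unfold Cx.w at h
      rw [h3, zero_mul, zero_div] at h
      exact lt_irrefl _ h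
  unfold dp at hd
  have h5 := mul_nonneg f3 f4
  have h6 : 0 < fw (wt ω) Γ.p Cx.l c.1 (c.2 - 1) * fw (wt ω) Γ.p Γ.r c.1 c.2 := by linarith
  constructor
  · rcases eq_or_lt_of_le f1 with h7 | h7
    · rw [← h7, zero_mul] at h6
      exact absurd h6 (lt_irrefl _)
    · exact h7
  · rcases eq_or_lt_of_le f2 with h7 | h7
    · rw [← h7, mul_zero] at h6
      exact absurd h6 (lt_irrefl _)
    · exact h7

variable {μ : Measure ℝ} {s : ℝ}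

theorem fh_pos27 {h : ℝ} {ω : Env} {p : ℕ → ℝ} {M i : ℕ} {m : ℤ → ℝ} {x : ℤ} : 0 < fh84 μ s h ω p M m i x ↔ 0 < fw (wt ω) p m i x := by
  unfold fh84
  have h1 := wt_pos ω i x
  have h2 := Real.exp_pos (-((i : ℝ) * lam μ s + h * sl μ s * bl M 0 i))
  constructor
  · intro h3
    by_contra hcon
    have h4 : fw (wt ω) p m i x * wt ω i x ≤ 0 := mul_nonpos_of_nonpos_of_nonneg (not_lt.1 hcon) h1.le
    have h5 := mul_nonpos_of_nonneg_of_nonpos h2.le h4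
    linarith
  · intro h3
    positivity

/-- **POSITIVITY AT THE EDGE ROW** from local regularity and the positivity at a later site of the line. -/
theorem hp27 {h : ℝ} {ω : Env} {p : ℕ → ℝ} {M i n : ℕ} {m : ℤ → ℝ} (hp : ∀ k, 0 < p k) {κ : Pt}
    {T : ℕ → ℕ} {Mt : ℕ} {K₁ A Φ σ : ℝ} {b : ℕ} (hb : b ≤ Mt) (hL : Lr31 μ s κ T Mt K₁ A Φ σ (fh84 μ s h ω p M m i) i b)
    (hs0 : 0 ≤ sl μ s) (hs1 : sl μ s ≤ 1) {y : ℤ} (hκ1 : κ.1 = ((i + n : ℕ) : ℤ)) (hκ2 : |κ.2 - y| ≤ 1)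
    (hy : 0 < fw (wt ω) p m (i + n) y) {cen d : ℝ} (hd : ∀ x : ℤ, |lat16 μ s κ ((i : ℤ), x) - ((x : ℝ) - cen)| ≤ d)
    (h1 : 1 + d ≤ K₁ * wd μ s (T b)) (h2 : (n : ℝ) + 1 ≤ K₁ * wd μ s (T Mt)) {W : ℝ} (hW : 1 ≤ W) :
    ∃ x : ℤ, |(x : ℝ) - cen| ≤ W ∧ 0 < fw (wt ω) p m i x := by
  obtain ⟨x', hx1, hx2, hx3⟩ := back27 (wt_pos ω) hp hy
  have b5 := Int.floor_le cen
  have b6 := Int.lt_floor_add_one cen
  have hx₀ : |((⌊cen⌋ : ℤ) : ℝ) - cen| ≤ 1 := by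
    rw [abs_le]
    constructor <;> linarith
  refine ⟨⌊cen⌋, hx₀.trans hW, ?_⟩
  have g1 : |lat16 μ s κ ((i : ℤ), ⌊cen⌋)| ≤ K₁ * wd μ s (T (b + 0)) := by
    have h3 := hd ⌊cen⌋
    rw [add_zero]
    rw [abs_le] at h3 hx₀ ⊢
    constructor <;> linarith [h3.1, h3.2, hx₀.1, hx₀.2]
  have g2 : |lat16 μ s κ ((i : ℤ), x')| ≤ K₁ * wd μ s (T Mt) := by
    have e1 : lat16 μ s κ ((i : ℤ), x') = ((x' : ℝ) - (κ.2 : ℝ)) + sl μ s * n := by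
      unfold lat16
      rw [hκ1]
      push_cast
      ring
    have c1 : (x' : ℝ) ≤ y := by exact_mod_cast hx1
    have c2 : (y : ℝ) ≤ x' + n := by exact_mod_cast hx2
    have c3 : |(κ.2 : ℝ) - y| ≤ 1 := by exact_mod_cast hκ2
    have c4 := abs_le.1 c3
    have c5 : 0 ≤ sl μ s * n := mul_nonneg hs0 (Nat.cast_nonneg n)
    have c6 : sl μ s * n ≤ 1 * n := mul_le_mul_of_nonneg_right hs1 (Nat.cast_nonneg n)
    refine le_trans ?_ h2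
    rw [e1, abs_le]
    constructor <;> linarith [c4.1, c4.2]
  have key := hL 0 (by omega) x' ⌊cen⌋ g1 g2
  have hx3' : 0 < fh84 μ s h ω p M m i x' := fh_pos27.2 hx3
  rw [← fh_pos27 (μ := μ) (s := s) (h := h) (M := M)]
  by_contra hcon
  have h5 := mul_nonpos_of_nonneg_of_nonpos (Real.exp_pos (A * (Φ ^ 0 * EE μ s (T b)) +
    σ * (EE μ s (T b) / wd μ s (T b)) * |(x' : ℝ) - (⌊cen⌋ : ℤ)|)).le (not_lt.1 hcon)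
  linarith

/-! ### Local regularity -/

/-- **THE CLAUSES `hLG`, `hLl`, `hLr` of `vin31` at the window `W = Wd (l + 1)`**. -/
theorem lrb27 {Γ : Cx} {ν : NV31} {G : Gd} {t : ℕ} {c : ℕ × ℤ} {ω : Env} (hΓ : Γ.Ok) (hT : ν.Ts (t + ν.m₂) ≤ (G.z (t + ν.m₂) c).1)
    (hN : ν.row G t c + ν.nr t < Γ.N) {Mt : ℕ} {K₁ A Φ σ D₀ Lw : ℝ} (hLw : 0 ≤ Lw)
    (h : TM31 μ s Γ G ν.Ts Mt K₁ A Φ σ (t + ν.m₂) c ω) (hd : |lat16 μ s (pt c) (G.x t c)| ≤ D₀) {W : ℝ} {n : ℕ} (hn : t + ν.m₂ + n ≤ Mt)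
    (h2 : W + 1 + D₀ ≤ K₁ * wd μ s (ν.Ts (t + ν.m₂ + n))) (h3 : W + 2 + D₀ + ν.nr t ≤ K₁ * wd μ s (ν.Ts Mt))
    (hω : ∀ y : ℤ, |(y : ℝ) - ν.cn G t c (sl μ s)| ≤ W + 2 + ν.nr t → |ω ((ν.row G t c : ℤ), y)| ≤ Lw) :
    (∀ z z₀ : ℤ, |(z₀ : ℝ) - ν.cn' G t c (sl μ s)| ≤ W + 1 → |(z : ℝ) - z₀| ≤ ν.nr t + 1 →
      GV Γ ν G t c ω z ≤ Real.exp (A * (Φ ^ n * EE μ s (ν.Ts (t + ν.m₂))) + 2 * Lw +
        σ * (EE μ s (ν.Ts (t + ν.m₂)) / wd μ s (ν.Ts (t + ν.m₂))) * |(z : ℝ) - z₀|) * GV Γ ν G t c ω z₀) ∧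
    (∀ x x₀ : ℤ, |(x₀ : ℝ) - ν.cn G t c (sl μ s)| ≤ W + 1 → |(x : ℝ) - x₀| ≤ ν.nr t + 1 →
      fw (wt ω) Γ.p Cx.l (ν.row G t c) x ≤ Real.exp (A * (Φ ^ n * EE μ s (ν.Ts (t + ν.m₂))) + 2 * Lw +
        σ * (EE μ s (ν.Ts (t + ν.m₂)) / wd μ s (ν.Ts (t + ν.m₂))) * |(x : ℝ) - x₀|) * fw (wt ω) Γ.p Cx.l (ν.row G t c) x₀) ∧
    (∀ x x₀ : ℤ, |(x₀ : ℝ) - ν.cn G t c (sl μ s)| ≤ W + 1 → |(x : ℝ) - x₀| ≤ ν.nr t + 1 →
      fw (wt ω) Γ.p Γ.r (ν.row G t c) x ≤ Real.exp (A * (Φ ^ n * EE μ s (ν.Ts (t + ν.m₂))) + 2 * Lw +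
        σ * (EE μ s (ν.Ts (t + ν.m₂)) / wd μ s (ν.Ts (t + ν.m₂))) * |(x : ℝ) - x₀|) * fw (wt ω) Γ.p Γ.r (ν.row G t c) x₀) := by
  have hb := Cx.box1 hΓ
  obtain ⟨o, ho⟩ : ∃ o, o = t + ν.m₂ := ⟨_, rfl⟩
  rw [← ho] at hT h hn h2 ⊢
  have h2' : (W + 1) + D₀ ≤ K₁ * wd μ s (ν.Ts (o + n)) := h2
  have hrow : ν.row G t c = (G.z o c).1 - ν.Ts o := by
    unfold NV31.row
    rw [← ho]
  have hnr : ν.nr t = 2 * ν.Ts o := by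
    unfold NV31.nr
    rw [← ho]
  have htop : ν.row G t c + ν.nr t = (G.z o c).1 + ν.Ts o := by omega
  -- the two lines
  have hdc : ∀ y : ℤ, |lat16 μ s (pt c) ((ν.row G t c : ℤ), y) - ((y : ℝ) - ν.cn G t c (sl μ s))| ≤ D₀ := by
    intro y
    rw [lat_cn31 G t c (ν.row G t c) y]
    unfold NV31.cn
    rw [add_sub_cancel_left]
    exact hd
  have hdc' : ∀ y : ℤ, |lat16 μ s (pt c) (((ν.row G t c + ν.nr t : ℕ) : ℤ), y) - ((y : ℝ) - ν.cn' G t c (sl μ s))| ≤ D₀ := by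
    intro y
    rw [lat_cn31 G t c (ν.row G t c + ν.nr t) y]
    have e : (y : ℝ) - (((G.z t c).2 : ℝ) + sl μ s * (((ν.row G t c + ν.nr t : ℕ) : ℝ) - ((G.z t c).1 : ℝ))) + lat16 μ s (pt c) (G.x t c) -
        ((y : ℝ) - ν.cn' G t c (sl μ s)) = lat16 μ s (pt c) (G.x t c) := by
      unfold NV31.cn' NV31.cn
      push_cast
      ring
    rw [e]
    exact hd
  have a1 : W + 1 + D₀ + (ν.nr t + 1) ≤ K₁ * wd μ s (ν.Ts Mt) := by linarith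
  have S := sys_model16 (μ := μ) (s := s) (h := Γ.h) (η := ω) (p := Γ.p) (M := Γ.M) (N := Γ.N) Γ.p_pos
  have f1 : ∀ y, 0 ≤ fw (wt ω) Γ.p Cx.l (ν.row G t c) y := fun y => fw_nonneg (wt_pos ω) Γ.p_pos hb.g.l0 _ y
  have f2 : ∀ y, 0 ≤ fw (wt ω) Γ.p Γ.r (ν.row G t c) y := fun y => fw_nonneg (wt_pos ω) Γ.p_pos hb.g.r0 _ y
  have f3 : ∀ {m : ℤ → ℝ} (y : ℤ), 0 ≤ fw (wt ω) Γ.p m (ν.row G t c) y → 0 ≤ fh84 μ s Γ.h ω Γ.p Γ.M m (ν.row G t c) y := by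
    intro m y hy
    unfold fh84
    have h1 := wt_pos ω (ν.row G t c) y
    positivity
  have ht := h.fut
  have hpl := h.pl
  have hpr := h.pr
  rw [← htop] at ht
  rw [← hrow] at hpl hpr
  have k1 := lr_win31 ht (fun y => (S.b0 _ _ hN.le).le) hdc' hn h2' a1 (le_refl _)
  have k2 := lr_win31 hpl (fun y => f3 y (f1 y)) hdc hn h2' a1 (le_refl _)
  have k3 := lr_win31 hpr (fun y => f3 y (f2 y)) hdc hn h2' a1 (le_refl _)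
  have near : ∀ x x₀ : ℤ, |(x₀ : ℝ) - ν.cn G t c (sl μ s)| ≤ W + 1 → |(x : ℝ) - x₀| ≤ ν.nr t + 1 →
      |ω ((ν.row G t c : ℤ), x)| ≤ Lw ∧ |ω ((ν.row G t c : ℤ), x₀)| ≤ Lw := by
    intro x x₀ g1 g2
    have g0 : (0 : ℝ) ≤ (ν.nr t : ℕ) := Nat.cast_nonneg _
    refine ⟨hω x ?_, hω x₀ (g1.trans (by linarith))⟩
    have g3 := abs_sub_le (x : ℝ) x₀ (ν.cn G t c (sl μ s))
    linarith
  have e0 : ∀ X : ℝ, A * (Φ ^ n * EE μ s (ν.Ts o)) + 2 * Lw + X = A * (Φ ^ n * EE μ s (ν.Ts o)) + X + 2 * Lw := fun X => by ring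
  refine ⟨fun z z₀ g1 g2 => ?_, fun x x₀ g1 g2 => ?_, fun x x₀ g1 g2 => ?_⟩
  · have g3 := lr_GG31 hN (k1 z z₀ g1 g2)
    refine g3.trans (mul_le_mul_of_nonneg_right (Real.exp_le_exp.2 ?_) (GG_pos (wt_pos ω) Γ.p_pos _ _).le)
    linarith
  · obtain ⟨w1, w2⟩ := near x x₀ g1 g2
    rw [e0]
    exact lr_fw31 w1 w2 (f1 x₀) (k2 x x₀ g1 g2)
  · obtain ⟨w1, w2⟩ := near x x₀ g1 g2
    rw [e0]
    exact lr_fw31 w1 w2 (f2 x₀) (k3 x x₀ g1 g2)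

/-- **THE CLAUSES `hpL`, `hpR` of `vin31`**: a contact of positive weight which is locally regular at the scale `o = t + m₂`. -/
theorem hpw27 {Γ : Cx} {ν : NV31} {G : Gd} {t : ℕ} {c : ℕ × ℤ} {ω : Env} (hΓ : Γ.Ok) (hs0 : 0 ≤ sl μ s) (hs1 : sl μ s ≤ 1)
    (hrc : ν.row G t c ≤ c.1) {Mt : ℕ} {K₁ A Φ σ D₀ : ℝ} (hMt : t + ν.m₂ ≤ Mt)
    (h : TM31 μ s Γ G ν.Ts Mt K₁ A Φ σ (t + ν.m₂) c ω) (hd : |lat16 μ s (pt c) (G.x t c)| ≤ D₀)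
    (h1 : 1 + D₀ ≤ K₁ * wd μ s (ν.Ts (t + ν.m₂))) (h2 : ((c.1 - ν.row G t c : ℕ) : ℝ) + 1 ≤ K₁ * wd μ s (ν.Ts Mt))
    (hw : 0 < Γ.w c ω) {W : ℝ} (hW : 1 ≤ W) :
    (∃ x : ℤ, |(x : ℝ) - ν.cn G t c (sl μ s)| ≤ W ∧ 0 < fw (wt ω) Γ.p Cx.l (ν.row G t c) x) ∧
    (∃ x : ℤ, |(x : ℝ) - ν.cn G t c (sl μ s)| ≤ W ∧ 0 < fw (wt ω) Γ.p Γ.r (ν.row G t c) x) := by
  obtain ⟨g1, g2⟩ := pos_w27 hΓ hw
  have hdc : ∀ y : ℤ, |lat16 μ s (pt c) ((ν.row G t c : ℤ), y) - ((y : ℝ) - ν.cn G t c (sl μ s))| ≤ D₀ := by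
    intro y
    rw [lat_cn31 G t c (ν.row G t c) y]
    unfold NV31.cn
    rw [add_sub_cancel_left]
    exact hd
  have e1 : ν.row G t c + (c.1 - ν.row G t c) = c.1 := by omega
  have e2 : (pt c).1 = ((ν.row G t c + (c.1 - ν.row G t c) : ℕ) : ℤ) := by
    rw [e1]
    rfl
  have e3 : (pt c).2 = c.2 := rfl
  have hpl := h.pl
  have hpr := h.pr
  refine ⟨hp27 (h := Γ.h) (M := Γ.M) (i := ν.row G t c) (n := c.1 - ν.row G t c) (y := c.2 - 1) Γ.p_pos hMt hpl hs0 hs1 e2 ?_ ?_ hdc h1 h2 hW,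
    hp27 (h := Γ.h) (M := Γ.M) (i := ν.row G t c) (n := c.1 - ν.row G t c) (y := c.2) Γ.p_pos hMt hpr hs0 hs1 e2 ?_ ?_ hdc h1 h2 hW⟩
  · rw [e3]
    have : c.2 - (c.2 - 1) = 1 := by ring
    rw [this]
    norm_num
  · rw [e1]
    exact g1
  · rw [e3, sub_self]
    norm_num
  · rw [e1]
    exact g2

end

end Pool.Agent.W_7d29a1_C1.LrB27
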