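import Pool.Agent.W_7d29a1_C1.LrK16

/-!
MP_7d29a1_pr, [C1], (LR), (D2): helper89's `lr_one89`, `lr_sw89`, `dd_oneG89` (any backward masses, explicit in `q₀`) WITH THE RATIO `K₀` OF
THE SCALES GIVEN FIRST (before `P`, `θ`, `K`, `B₂`); the proofs are theirs (`LrN89`).  (helper16)
-/

set_option autoImplicit false

namespace Pool.Agent.W_7d29a1_C1.LrK16

open MeasureTheory ProbabilityTheory Filter Topology Finset
open Pool.Agent.W_7d29a1_F Pool.Agent.W_7d29a1_h4g Pool.Agent.W_7d29a1_H Pool.Agent.W_7d29a1_HS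
open Pool.Agent.W_7d29a1_C1.H75 Pool.Agent.W_7d29a1_C1.U16 Pool.Agent.W_7d29a1_C1.FarK89 Pool.Agent.W_7d29a1_C1.FarW89
open Pool.Agent.W_7d29a1_C1.DD84 Pool.Agent.W_7d29a1_C1.SysN89 Pool.Agent.W_7d29a1_C1.LrN89
open Pool.Agent.W_7d29a1_C1.K91 (wt wt_pos)

noncomputable section

variable {μ : Measure ℝ} [IsProbabilityMeasure μ] {s c C : ℝ} {n₀ : ℕ}

/-- **`lr_one89`, the ratio first.** -/
theorem lr_oneK16 (h0 : In μ s c C n₀) : ∃ K₀ : ℕ, 2 ≤ K₀ ∧ ∀ (P : ℕ) {θ K B₂ : ℝ}, 0 < θ → 4 ≤ K → 2 ≤ B₂ →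
    ∀ K₁ R Y Bp : ℝ, 1 ≤ K₁ → 0 ≤ R → 1 ≤ Y → 2 ≤ Bp → ∀ b : ℕ, ∃ (A : ℝ) (j₀ n₁ : ℕ), 0 ≤ A ∧ 1 ≤ n₁ ∧ ∀ q₀ : ℝ, 0 ≤ q₀ →
    ∀ {h : ℝ} {η : Env} {p : ℕ → ℝ} {M Nt : ℕ} {κ : Pt} {r T N : ℕ → ℕ} {q : ℕ → ℝ} {bs : ℕ → Pt} {w : ℕ → ℤ} {β : ℕ → ℝ} {u i : ℕ}
      {Θ B₁ δ : ℝ} {Bm : ℕ → ℤ → ℝ}, Sys16 (fun a b x z => nk μ s h η p M a (b - a) x z) Bm Nt →
    (∀ k, k < M → p k = Real.exp (s + h)) → (∀ k, M ≤ k → p k = Real.exp s) → 1 ≤ Θ → Θ ^ 2 ≤ 2 →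
    Lay89 μ s c θ K h P η κ r T N q bs u (u + (i + 3)) n₁ → r (u + (i + 3)) ≤ Nt →
    (∀ v, u ≤ v → v < u + (i + 2) → K₀ * T v ≤ T (v + 1) ∧ T (v + 1) ≤ b * T v) →
    (∀ v, u ≤ v → v < u + (i + 3) → q v ≤ q₀ * Θ ^ (v - u)) →
    2 * Bp ≤ B₁ → δ ≤ θ * sl μ s → δ ≤ θ * (1 - sl μ s) → StL89 μ s B₁ B₂ δ η κ r T q w β (u + (i + 1)) (u + (i + 2)) →
    (r (u + (i + 2)) ≤ M ∨ M ≤ r (u + (i + 1))) →
    ∀ j : ℕ, 2 ^ (j + j₀) * wd μ s (T (u + (i + 1))) ≤ δ * T (u + (i + 1)) →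
    ∀ (ρ : ℝ), |ρ| ≤ R * wd μ s (T u) → ∀ (x x' : ℤ), |lt μ s κ r u x - ρ| ≤ K₁ * (Bp ^ j * wd μ s (T (u + i))) →
    |lt μ s κ r u x' - ρ| ≤ K₁ * (Bp ^ j * wd μ s (T (u + i))) → |(x : ℝ) - x'| ≤ 2 * K₁ * wd μ s (T (u + i)) →
    ∀ (Q : ℤ → Prop) [DecidablePred Q], (∀ z, x ≤ z → z ≤ x + ((r (u + (i + 3)) - r u : ℕ) : ℤ) → Q z →
      |lt μ s κ r (u + (i + 3)) z - lt μ s κ r u x| ≤ Y * 2 ^ j * wd μ s (T (u + (i + 2)))) →
    Bm (r u) x ≤ 2 * PM16 (fun a b x z => nk μ s h η p M a (b - a) x z) Bm (r u) (r (u + (i + 3))) x Q →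
    Bm (r u) x ≤ Real.exp (A * (1 + q₀) ^ 4 * (B₂ ^ j * Θ ^ (4 * i) * EE μ s (T (u + i)))) * Bm (r u) x' := by
  have hc0 := h0.c0
  obtain ⟨K₀, hK₀, H⟩ := lrb_qK16 h0
  refine ⟨K₀, hK₀, ?_⟩
  intro P θ K B₂ hθ hK hB₂ K₁ R Y Bp hK₁ hR hY hBp b
  have H := H (2 * P) (cc := c / 2) (c₁ := c / 8) (c₂ := c / 8) (c₃ := c / 4) (by positivity) (by positivity)
    (by positivity) (by linarith) hB₂
  obtain ⟨C', hC', m₁, hm₁, HS⟩ := sys89 h0 P (θ := θ) (K := K) (by linarith) hθ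
  obtain ⟨C'', hC''⟩ : ∃ C'' : ℝ, C'' = C' + 1 + c / 4 := ⟨_, rfl⟩
  have hC''0 : 0 ≤ C'' := by rw [hC'']; positivity
  have hg1 := gr_one_le (2 * P) (show (0 : ℝ) ≤ 2 by norm_num)
  obtain ⟨A, j₀, m₂, hA, hm₂, H2'⟩ := H (K - 2) K₁ 1 R Y Bp (by linarith) hK₁ zero_le_one hR hY hBp b
  have hCg : 0 ≤ C'' * gr (2 * P) 2 := by positivity
  refine ⟨A * (1 + C'' * gr (2 * P) 2) ^ 2, j₀, max m₁ m₂, by positivity, hm₁.trans (le_max_left _ _), fun q₀ hq₀ => ?_⟩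
  have H2 := H2' (C'' * gr (2 * P) 2 * (1 + q₀) ^ 2) (by positivity)
  intro h η p M Nt κ r T N q bs w β u i Θ B₁ δ Bm hBm hp hp' hΘ hΘ2 hL hrN hT hq hB₁ hδ1 hδ2 hst hM j hcone ρ hρ x x' hx hx' hxx Q _ hQ harm
  have hTge : ∀ v, u ≤ v → v < u + (i + 3) → m₁ ≤ T v := fun v h1 h2 => (le_max_left _ _).trans (hL.T1 v h1 h2)
  have hwp : ∀ v, u ≤ v → v < u + (i + 3) → 0 < wd μ s (T v) := fun v h1 h2 => h0.wd_pos (hm₁.trans (hTge v h1 h2))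
  have hw0 := hwp (u + (i + 2)) (by omega) (by omega)
  obtain ⟨Λ, hΛ⟩ : ∃ Λ : ℝ, Λ = (R + K₁ + Y + 1) * (Bp ^ j * wd μ s (T (u + (i + 2)))) + |ρ| := ⟨_, rfl⟩
  have hΛ0 : (R + K₁ + Y + 1) * (Bp ^ j * wd μ s (T (u + (i + 2)))) ≤ Λ := by
    rw [hΛ]
    have := abs_nonneg ρ
    linarith
  have hρΛ : |ρ| ≤ Λ := by
    rw [hΛ]
    have : 0 ≤ (R + K₁ + Y + 1) * (Bp ^ j * wd μ s (T (u + (i + 2)))) := by positivity
    linarith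
  -- the box
  obtain ⟨Λ', hΛ'⟩ : ∃ Λ' : ℝ, Λ' = Λ + 1 + wd μ s (T (u + i)) + wd μ s (T (u + (i + 1))) := ⟨_, rfl⟩
  obtain ⟨R₁, hR₁⟩ := boxP89 (μ := μ) (s := s) κ r u (u + (i + 3)) x Λ'
  obtain ⟨Rb, hRb⟩ : ∃ Rb : ℤ, Rb = max R₁ |x' - x| := ⟨_, rfl⟩
  have hR1 : R₁ ≤ Rb := by rw [hRb]; exact le_max_left _ _
  have hR2 : |x' - x| ≤ Rb := by rw [hRb]; exact le_max_right _ _
  have hxb : x ∈ bx r u x Rb u := by
    unfold bx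
    rw [mem_Icc]
    have := (abs_nonneg (x' - x)).trans hR2
    omega
  have hxb' : x' ∈ bx r u x Rb u := by
    unfold bx
    rw [mem_Icc]
    rw [abs_le] at hR2
    omega
  have hwi := hwp (u + i) (by omega) (by omega)
  have hwv := hwp (u + (i + 1)) (by omega) (by omega)
  have hline : ∀ t : ℝ, |t| ≤ Λ → ∀ v, v ≤ u + (i + 3) → ∃ z ∈ bx r u x Rb v, |lt μ s κ r v z - t| ≤ 1 := by
    intro t ht v hv
    have h1 := line_site (μ := μ) (s := s) κ r t v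
    refine ⟨_, hR₁ Rb hR1 v hv _ ?_, h1⟩
    have h2 := abs_add_le (lt μ s κ r v (κ.2 + ⌊sl μ s * (((r v : ℤ) - κ.1 : ℤ) : ℝ) + t⌋) - t) t
    rw [sub_add_cancel] at h2
    rw [hΛ']
    linarith
  have hgrid : ∀ t : ℝ, |t| ≤ Λ → ∀ v, u + i ≤ v → v ≤ u + (i + 1) → ∀ W : ℤ, 0 < W → (W : ℝ) ≤ wd μ s (T v) →
      ∃ z ∈ bx r u x Rb (v + 1), W ∣ z ∧ |lt μ s κ r (v + 1) z - t| ≤ wd μ s (T v) := by
    intro t ht v hv hv' W hW0 hW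
    obtain ⟨X, hX⟩ : ∃ X : ℝ, X = ((κ.2 : ℝ) + sl μ s * ((r (v + 1) : ℝ) - (κ.1 : ℝ))) + t := ⟨_, rfl⟩
    have hWR : (0 : ℝ) < W := by exact_mod_cast hW0
    have h1 : |lt μ s κ r (v + 1) (W * ⌊X / W⌋) - t| ≤ wd μ s (T v) := by
      rw [lt_eq]
      have h2 := Int.floor_le (X / W)
      have h3 := Int.lt_floor_add_one (X / W)
      rw [le_div_iff₀ hWR] at h2
      rw [div_lt_iff₀ hWR] at h3
      push_cast
      rw [abs_le]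
      constructor
      · linarith
      · linarith
    refine ⟨W * ⌊X / W⌋, hR₁ Rb hR1 (v + 1) (by omega) _ ?_, dvd_mul_right _ _, h1⟩
    have h2 := abs_add_le (lt μ s κ r (v + 1) (W * ⌊X / W⌋) - t) t
    rw [sub_add_cancel] at h2
    have h3 : wd μ s (T v) ≤ wd μ s (T (u + i)) + wd μ s (T (u + (i + 1))) := by
      rcases (show v = u + i ∨ v = u + (i + 1) by omega) with h4 | h4
      · rw [h4]
        linarith
      · rw [h4]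
        linarith
    rw [hΛ']
    linarith
  -- the system
  have hsys := sys_mono89 (q' := qq P C'' q) (fun v h1 h2 => (hwp v h1 h2).le) (fun v => by
    unfold qq
    have h1 : 0 ≤ gr (2 * P) 2 * (1 + q v) ^ 2 := by positivity
    have h2 : C' * (gr (2 * P) 2 * (1 + q v) ^ 2) ≤ C'' * (gr (2 * P) 2 * (1 + q v) ^ 2) := by
      refine mul_le_mul_of_nonneg_right ?_ h1
      rw [hC'']
      linarith
    linarith) (HS (le_max_left _ _) hp hp' hL x Rb ρ fun v _ hv => hline ρ hρΛ v hv.le)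
  have hrr := hL.rr
  have hstp : Stp89 μ s Bp B₂ Λ δ T (qq P C'' q) (lt μ s κ r) (kk μ s h η p M r) (bx r u x Rb)
      (fun v z => if v = u + (i + 1) then w (u + (i + 1)) ∣ z else w (u + (i + 2)) ∣ z) u i := by
    refine ⟨fun t ht v hv hv' => hline t ht v (by omega), ?_, ?_⟩
    · intro t ht v hv hv'
      rcases (show v = u + i ∨ v = u + (i + 1) by omega) with h4 | h4
      · obtain ⟨z, z1, z2, z3⟩ := hgrid t ht v hv hv' (w (u + (i + 1))) (hst.w0 _ le_rfl (by omega)) (by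
          rw [h4]
          exact hst.w1 (u + i) (by omega) (by omega))
        exact ⟨z, z1, by rw [if_pos (by omega)]; exact z2, z3⟩
      · obtain ⟨z, z1, z2, z3⟩ := hgrid t ht v hv hv' (w (u + (i + 2))) (hst.w0 _ (by omega) le_rfl) (by
          rw [h4]
          exact hst.w1 (u + (i + 1)) (by omega) (by omega))
        exact ⟨z, z1, by rw [if_neg (by omega)]; exact z2, z3⟩
    · intro k hk z _ z' _ hz hz' h1 h2 h3
      rw [if_pos rfl] at hz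
      rw [if_neg (by omega)] at hz'
      have hru := hrr (u + (i + 1)) (by omega) (by omega)
      have hE := EE_pos (μ := μ) (s := s) (T (u + (i + 1)))
      rw [lt_sub κ r (u + (i + 1)) (u + (i + 2)) z z' hru] at h2
      have hBk : 1 ≤ Bp ^ k := one_le_pow₀ (by linarith)
      have h4 : |(z : ℝ) - β (u + (i + 1))| ≤ B₁ ^ k * wd μ s (T (u + (i + 1))) := by
        have h5 := hst.bb (u + (i + 1)) le_rfl (by omega)
        rw [lt_eq] at h1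
        obtain ⟨X, hX⟩ : ∃ X : ℝ, X = (κ.2 : ℝ) + sl μ s * ((r (u + (i + 1)) : ℝ) - (κ.1 : ℝ)) := ⟨_, rfl⟩
        rw [← hX] at h1 h5
        rw [abs_sub_comm] at h5
        have h6 := abs_sub_le (z : ℝ) X (β (u + (i + 1)))
        have h7 : (2 * Bp) ^ k ≤ B₁ ^ k := pow_le_pow_left₀ (by linarith) hB₁ k
        have h8 : (2 : ℝ) ≤ 2 ^ k := by
          calc (2 : ℝ) = 2 ^ 1 := (pow_one 2).symm
            _ ≤ 2 ^ k := pow_le_pow_right₀ (by norm_num) hk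
        rw [mul_pow] at h7
        have h9 : Bp ^ k + 1 ≤ B₁ ^ k := by nlinarith only [h7, h8, hBk]
        have h10 := mul_le_mul_of_nonneg_right h9 hwv.le
        linarith
      have h5 := steep89 h0 hp hp' (e0 := r (u + (i + 1))) (e2 := r (u + (i + 2))) (n := T (u + (i + 1))) hM hru
        (hm₁.trans (hTge _ (by omega) (by omega))) hB₂ (hL.len (u + (i + 1)) (by omega) (by omega)) hδ1 hδ2
        (hst.st (u + (i + 1)) le_rfl (by omega)) (hL.force (u + (i + 1)) (by omega) (by omega)) (j := k) (x := z) (y := z') hz hz' h4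
        (by push_cast at h2 ⊢; exact h2) h3
      refine le_trans (Real.exp_le_exp.2 (neg_le_neg ?_)) h5
      refine mul_le_mul_of_nonneg_right (mul_le_mul_of_nonneg_right ?_ (by positivity)) hE.le
      have hq0 := hL.q0 (u + (i + 1)) (by omega) (by omega)
      unfold qq
      have h6 : 1 + q (u + (i + 1)) ≤ (1 + q (u + (i + 1))) ^ 2 := by nlinarith only [hq0]
      have h7 : C'' * (1 + q (u + (i + 1))) ^ 2 ≤ C'' * gr (2 * P) 2 * (1 + q (u + (i + 1))) ^ 2 :=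
        mul_le_mul_of_nonneg_right (le_mul_of_one_le_right hC''0 hg1) (sq_nonneg _)
      have h8 : (1 + c / 4) * (1 + q (u + (i + 1))) ≤ C'' * (1 + q (u + (i + 1))) ^ 2 :=
        mul_le_mul (by rw [hC'']; linarith) h6 (by linarith) hC''0
      have h9 : 0 ≤ c / 4 * q (u + (i + 1)) := by positivity
      linarith
  have e1 := massG89 hBm hrr hrN (m := i + 3) le_rfl le_rfl hxb'
  have e3 := pmG89 (μ := μ) (s := s) (h := h) (η := η) (p := p) (M := M) Bm hrr (m := i + 3) le_rfl le_rfl hxb Q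
  rw [e3] at harm
  have hG : ∀ z, 0 ≤ Bm (r (u + (i + 3))) z := fun z => (hBm.b0 _ z hrN).le
  have hZB : (Icc x (x + ((r (u + (i + 3)) - r u : ℕ) : ℤ))).filter Q ⊆ bx r u x Rb (u + (i + 3)) := by
    intro z hz
    obtain ⟨z1, z2⟩ := mem_filter.1 hz
    rw [mem_Icc] at z1
    unfold bx at hxb ⊢
    rw [mem_Icc] at hxb ⊢
    omega
  have hru0 : r u ≤ Nt := (r_mono hrr (i + 3) u le_rfl le_rfl).trans hrN
  have key := H2 T u i j (Θ ^ 2) Λ δ (one_le_pow₀ hΘ) hΘ2 ((le_max_right _ _).trans (hL.T1 u le_rfl (by omega))) hT hΛ0 hcone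
    (qq P C'' q) (lt μ s κ r) (kk μ s h η p M r) (bx r u x Rb) _ ρ ((κ.2 : ℝ) + sl μ s * ((r u : ℝ) - (κ.1 : ℝ))) hsys hstp
    (fun v hv hv' => qq_le P hC''0 hq₀ hΘ (hL.q0 v hv hv') (hq v hv hv')) hρ (fun y => lt_eq κ r u y)
    (Bm (r u)) (Bm (r (u + (i + 3)))) ((Icc x (x + ((r (u + (i + 3)) - r u : ℕ) : ℤ))).filter Q) x x' hG (hBm.b0 _ x' hru0).le
    (by rw [lt_eq] at hx; rw [show (x : ℝ) - (((κ.2 : ℝ) + sl μ s * ((r u : ℝ) - (κ.1 : ℝ))) + ρ) =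
          (x : ℝ) - ((κ.2 : ℝ) + sl μ s * ((r u : ℝ) - (κ.1 : ℝ))) - ρ by ring]; exact hx)
    (by rw [lt_eq] at hx'; rw [show (x' : ℝ) - (((κ.2 : ℝ) + sl μ s * ((r u : ℝ) - (κ.1 : ℝ))) + ρ) =
          (x' : ℝ) - ((κ.2 : ℝ) + sl μ s * ((r u : ℝ) - (κ.1 : ℝ))) - ρ by ring]; exact hx')
    hxx (fun z hz => ⟨hZB hz, by
      obtain ⟨z1, z2⟩ := mem_filter.1 hz
      rw [mem_Icc] at z1
      exact hQ z z1.1 z1.2 z2⟩) harm (by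
      rw [e1]
      refine sum_le_sum_of_subset_of_nonneg hZB fun z _ _ => mul_nonneg ?_ (hG z)
      rw [cmp_nk hrr (i + 3) u le_rfl le_rfl x' hxb' z]
      exact hBm.k0 (r u) (r (u + (i + 3))) x' z)
  rw [← pow_mul] at key
  rw [show 4 * i = 2 * (2 * i) by ring]
  refine key.trans (mul_le_mul_of_nonneg_right (Real.exp_le_exp.2 ?_) (hBm.b0 _ x' hru0).le)
  have hE := EE_pos (μ := μ) (s := s) (T (u + i))
  have hB20 : 0 < B₂ := by linarith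
  refine mul_le_mul_of_nonneg_right ?_ (by positivity)
  have := mul_le_mul_of_nonneg_left (q_four89 hCg hq₀) hA
  linarith

/-- **`lr_sw89`, the ratio first.** -/
theorem lr_swK16 (h0 : In μ s c C n₀) : ∃ K₀ : ℕ, 2 ≤ K₀ ∧ ∀ (P : ℕ) {θ K B₂ : ℝ}, 0 < θ → 4 ≤ K → 2 ≤ B₂ →
    ∀ K₁ R Y Bp : ℝ, 1 ≤ K₁ → 0 ≤ R → 1 ≤ Y → 2 ≤ Bp → ∀ b : ℕ, ∃ (A : ℝ) (j₀ n₁ : ℕ), 0 ≤ A ∧ 1 ≤ n₁ ∧ ∀ q₀ : ℝ, 0 ≤ q₀ →
    ∀ {h : ℝ} {η : Env} {p : ℕ → ℝ} {M Nt : ℕ} {κ : Pt} {r T N : ℕ → ℕ} {q : ℕ → ℝ} {bs : ℕ → Pt} {w : ℕ → ℤ} {β : ℕ → ℝ} {u i : ℕ}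
      {Θ B₁ δ : ℝ} {Bm : ℕ → ℤ → ℝ}, Sys16 (fun a b x z => nk μ s h η p M a (b - a) x z) Bm Nt →
    (∀ k, k < M → p k = Real.exp (s + h)) → (∀ k, M ≤ k → p k = Real.exp s) → 1 ≤ Θ → Θ ^ 2 ≤ 2 →
    Lay89 μ s c θ K h P η κ r T N q bs u (u + (i + 4)) n₁ → r (u + (i + 4)) ≤ Nt →
    (∀ v, u ≤ v → v < u + (i + 3) → K₀ * T v ≤ T (v + 1) ∧ T (v + 1) ≤ b * T v) →
    (∀ v, u ≤ v → v < u + (i + 4) → q v ≤ q₀ * Θ ^ (v - u)) →
    2 * Bp ≤ B₁ → δ ≤ θ * sl μ s → δ ≤ θ * (1 - sl μ s) → StL89 μ s B₁ B₂ δ η κ r T q w β (u + (i + 1)) (u + (i + 3)) →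
    ∀ j : ℕ, 2 ^ (j + j₀) * wd μ s (T (u + (i + 1))) ≤ δ * T (u + (i + 1)) → 2 ^ (j + j₀) * wd μ s (T (u + (i + 2))) ≤ δ * T (u + (i + 2)) →
    ∀ (ρ : ℝ), |ρ| ≤ R * wd μ s (T u) → ∀ (x x' : ℤ), |lt μ s κ r u x - ρ| ≤ K₁ * (Bp ^ j * wd μ s (T (u + i))) →
    |lt μ s κ r u x' - ρ| ≤ K₁ * (Bp ^ j * wd μ s (T (u + i))) → |(x : ℝ) - x'| ≤ 2 * K₁ * wd μ s (T (u + i)) →
    ∀ (Q Q' : ℤ → Prop) [DecidablePred Q] [DecidablePred Q'], (∀ z, x ≤ z → z ≤ x + ((r (u + (i + 3)) - r u : ℕ) : ℤ) → Q z →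
      |lt μ s κ r (u + (i + 3)) z - lt μ s κ r u x| ≤ Y * 2 ^ j * wd μ s (T (u + (i + 2)))) →
    Bm (r u) x ≤ 2 * PM16 (fun a b x z => nk μ s h η p M a (b - a) x z) Bm (r u) (r (u + (i + 3))) x Q →
    (∀ z, x ≤ z → z ≤ x + ((r (u + (i + 4)) - r u : ℕ) : ℤ) → Q' z →
      |lt μ s κ r (u + (i + 4)) z - lt μ s κ r u x| ≤ Y * 2 ^ j * wd μ s (T (u + (i + 3)))) →
    Bm (r u) x ≤ 2 * PM16 (fun a b x z => nk μ s h η p M a (b - a) x z) Bm (r u) (r (u + (i + 4))) x Q' →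
    Bm (r u) x ≤ Real.exp (A * (1 + q₀) ^ 4 * (B₂ ^ j * Θ ^ (4 * i) * EE μ s (T (u + i)))) * Bm (r u) x' := by
  obtain ⟨K₀, hK₀, H⟩ := lr_oneK16 h0
  obtain ⟨Kw, mw, hKw2, hmw1, hw4⟩ := wd_four h0
  refine ⟨max K₀ Kw, hK₀.trans (le_max_left _ _), ?_⟩
  intro P θ K B₂ hθ hK hB₂ K₁ R Y Bp hK₁ hR hY hBp b
  have H := H P hθ hK hB₂
  obtain ⟨A, j₀, m₁, hA, hm₁, H1⟩ := H K₁ R Y Bp hK₁ hR hY hBp b
  have hb0 : (0 : ℝ) ≤ b := Nat.cast_nonneg b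
  refine ⟨A * (1 + 8 * b), j₀, max m₁ mw, by positivity, hm₁.trans (le_max_left _ _), fun q₀ hq₀ => ?_⟩
  intro h η p M Nt κ r T N q bs w β u i Θ B₁ δ Bm hBm hp hp' hΘ hΘ2 hL hrN hT hq hB₁ hδ1 hδ2 hst j hc1 hc2 ρ hρ x x' hx hx' hxx Q Q' _ _
    hQ harm hQ' harm'
  have hT' : ∀ v, u ≤ v → v < u + (i + 3) → K₀ * T v ≤ T (v + 1) ∧ T (v + 1) ≤ b * T v := fun v h1 h2 =>
    ⟨(Nat.mul_le_mul_right _ (le_max_left _ _)).trans (hT v h1 h2).1, (hT v h1 h2).2⟩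
  have hrr := hL.rr
  have hru0 : r u ≤ Nt := (r_mono hrr (i + 4) u le_rfl le_rfl).trans hrN
  have hr3 : r (u + (i + 3)) ≤ Nt := (hrr (u + (i + 3)) (by omega) (by omega)).trans hrN
  have hE := EE_pos (μ := μ) (s := s) (T (u + i))
  have hB20 : 0 < B₂ := by linarith
  have hΘ0 : 0 < Θ := by linarith
  rcases le_or_gt (r (u + (i + 2))) M with h1 | h1
  · have key := H1 q₀ hq₀ hBm hp hp' hΘ hΘ2 (hL.sub le_rfl (by omega) (le_max_left _ _)) hr3 (fun v h2 h3 => hT' v h2 (by omega))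
      (fun v h2 h3 => hq v h2 (by omega)) hB₁ hδ1 hδ2 (hst.sub le_rfl (by omega)) (Or.inl h1) j hc1 ρ hρ x x' hx hx' hxx Q hQ harm
    refine key.trans (mul_le_mul_of_nonneg_right (Real.exp_le_exp.2 ?_) (hBm.b0 _ x' hru0).le)
    refine mul_le_mul_of_nonneg_right (mul_le_mul_of_nonneg_right ?_ (by positivity)) (by positivity)
    exact le_mul_of_one_le_right hA (by linarith)
  · have hTge : ∀ v, u ≤ v → v < u + (i + 4) → max m₁ mw ≤ T v := fun v h2 h3 => hL.T1 v h2 h3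
    have hTu : 1 ≤ T (u + i) := hm₁.trans ((le_max_left _ _).trans (hTge _ (by omega) (by omega)))
    have hTi := hT (u + i) (by omega) (by omega)
    have hw := hw4 (T (u + i)) (T (u + (i + 1))) ((le_max_right _ _).trans (hTge _ (by omega) (by omega)))
      ((Nat.mul_le_mul_right _ (le_max_right _ _)).trans hTi.1)
    have hwp := h0.wd_pos hTu
    have hww : wd μ s (T (u + i)) ≤ wd μ s (T (u + (i + 1))) := by linarith
    have hBj : 0 ≤ Bp ^ j := pow_nonneg (by linarith) j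
    have hmono := mul_le_mul_of_nonneg_left (mul_le_mul_of_nonneg_left hww hBj) (show 0 ≤ K₁ by linarith)
    have key := H1 q₀ hq₀ (i := i + 1) hBm hp hp' hΘ hΘ2 (hL.sub le_rfl (by omega) (le_max_left _ _)) hrN (fun v h2 h3 => hT' v h2 (by omega))
      (fun v h2 h3 => hq v h2 (by omega)) hB₁ hδ1 hδ2 (hst.sub (by omega) (by omega)) (Or.inr h1.le) j hc2 ρ hρ x x'
      (hx.trans hmono) (hx'.trans hmono) (hxx.trans (mul_le_mul_of_nonneg_left hww (by linarith))) Q' hQ' harm'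
    refine key.trans (mul_le_mul_of_nonneg_right (Real.exp_le_exp.2 ?_) (hBm.b0 _ x' hru0).le)
    have hTT : T (u + i) ≤ T (u + (i + 1)) := (Nat.le_mul_of_pos_left _ (by omega)).trans hTi.1
    have hEE : EE μ s (T (u + (i + 1))) ≤ 2 * b * EE μ s (T (u + i)) := by
      have h3 := scale_b h0 hTu hTT
      have hTi0 : (0 : ℝ) < T (u + i) := by exact_mod_cast hTu
      have h4 : (T (u + (i + 1)) : ℝ) ≤ b * T (u + i) := by exact_mod_cast hTi.2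
      have h5 : (T (u + i) : ℝ) * EE μ s (T (u + (i + 1))) ≤ T (u + i) * (2 * b * EE μ s (T (u + i))) := by
        have h6 := mul_le_mul_of_nonneg_right h4 hE.le
        linarith
      exact le_of_mul_le_mul_left h5 hTi0
    have hΘ4 : Θ ^ (4 * (i + 1)) ≤ 4 * Θ ^ (4 * i) := by
      have h3 : Θ ^ (4 * (i + 1)) = Θ ^ (4 * i) * (Θ ^ 2) ^ 2 := by
        rw [← pow_mul, ← pow_add]
        congr 1
      rw [h3]
      have h4 : (Θ ^ 2) ^ 2 ≤ 4 := by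
        have := pow_le_pow_left₀ (by positivity) hΘ2 2
        linarith
      have h5 := mul_le_mul_of_nonneg_left h4 (show 0 ≤ Θ ^ (4 * i) by positivity)
      linarith
    have h6 : B₂ ^ j * Θ ^ (4 * (i + 1)) * EE μ s (T (u + (i + 1))) ≤ 8 * b * (B₂ ^ j * Θ ^ (4 * i) * EE μ s (T (u + i))) := by
      calc _ ≤ B₂ ^ j * (4 * Θ ^ (4 * i)) * (2 * b * EE μ s (T (u + i))) :=
            mul_le_mul (mul_le_mul_of_nonneg_left hΘ4 (by positivity)) hEE (EE_pos _).le (by positivity)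
        _ = _ := by ring
    have h7 := mul_le_mul_of_nonneg_left h6 (show 0 ≤ A * (1 + q₀) ^ 4 by positivity)
    have h8 : 0 ≤ A * (1 + q₀) ^ 4 * (B₂ ^ j * Θ ^ (4 * i) * EE μ s (T (u + i))) := by positivity
    linarith

/-- **`dd_oneG89`, the ratio first.** -/
theorem dd_oneK16 (h0 : In μ s c C n₀) : ∃ K₀ : ℕ, 2 ≤ K₀ ∧ ∀ (P : ℕ) {θ K : ℝ}, 0 < θ →
    ∀ K₁ R Pa : ℝ, 1 ≤ K₁ → K₁ + 3 ≤ K → 0 ≤ R → 0 ≤ Pa → ∀ b : ℕ, ∃ (A : ℝ) (n₁ : ℕ), 0 ≤ A ∧ 1 ≤ n₁ ∧ ∀ q₀ : ℝ, 0 ≤ q₀ →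
    ∀ {h : ℝ} {η : Env} {p : ℕ → ℝ} {M Nt : ℕ} {κ : Pt} {r T N : ℕ → ℕ} {q : ℕ → ℝ} {bs : ℕ → Pt} {u i : ℕ} {Θ : ℝ} {Bm : ℕ → ℤ → ℝ},
    Sys16 (fun a b x z => nk μ s h η p M a (b - a) x z) Bm Nt →
    (∀ k, k < M → p k = Real.exp (s + h)) → (∀ k, M ≤ k → p k = Real.exp s) → 1 ≤ Θ → Θ ^ 2 ≤ 2 →
    Lay89 μ s c θ K h P η κ r T N q bs u (u + (i + 2)) n₁ → r (u + (i + 2)) ≤ Nt →
    (∀ v, u ≤ v → v < u + (i + 1) → K₀ * T v ≤ T (v + 1) ∧ T (v + 1) ≤ b * T v) →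
    (∀ v, u ≤ v → v < u + (i + 2) → q v ≤ q₀ * Θ ^ (v - u)) →
    ∀ (ρ : ℝ), |ρ| ≤ R * wd μ s (T u) → ∀ (x x' : ℤ), |lt μ s κ r u x - ρ| ≤ K₁ * wd μ s (T (u + i)) →
    |lt μ s κ r u x' - ρ| ≤ K₁ * wd μ s (T u) → ∀ (Q : ℤ → Prop) [DecidablePred Q],
    (∀ z, x ≤ z → z ≤ x + ((r (u + (i + 2)) - r u : ℕ) : ℤ) → Q z →
      |lt μ s κ r (u + (i + 2)) z - ρ| ≤ (K - 2) * wd μ s (T (u + (i + 1))) - 1) →
    Bm (r u) x ≤ Pa * PM16 (fun a b x z => nk μ s h η p M a (b - a) x z) Bm (r u) (r (u + (i + 2))) x Q →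
    Bm (r u) x ≤ Real.exp (A * (1 + q₀) ^ 4 * (Θ ^ (4 * i) * EE μ s (T (u + i)))) * Bm (r u) x' := by
  have hc0 := h0.c0
  obtain ⟨K₀, hK₀, H⟩ := ddi_qK16 h0
  refine ⟨K₀, hK₀, ?_⟩
  intro P θ K hθ K₁ R Pa hK₁ hK hR hPa b
  have H := H (2 * P) (cc := c / 2) (c₁ := c / 8) (c₂ := c / 8) (c₃ := c / 4) (by positivity) (by positivity)
    (by positivity) (by linarith)
  obtain ⟨C', hC', m₁, hm₁, HS⟩ := sys89 h0 P (θ := θ) (K := K) (by linarith) hθ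
  have hg := gr_nonneg (2 * P) (show (0 : ℝ) ≤ 2 by norm_num)
  obtain ⟨A, m₂, hA, hm₂, H2'⟩ := H (K - 2) K₁ 1 R Pa hK₁ (by linarith) zero_le_one hR hPa b
  have hCg : 0 ≤ C' * gr (2 * P) 2 := by positivity
  refine ⟨A * (1 + C' * gr (2 * P) 2) ^ 2, max m₁ m₂, by positivity, hm₁.trans (le_max_left _ _), fun q₀ hq₀ => ?_⟩
  have H2 := H2' (C' * gr (2 * P) 2 * (1 + q₀) ^ 2) (by positivity)
  intro h η p M Nt κ r T N q bs u i Θ Bm hBm hp hp' hΘ hΘ2 hL hrN hT hq ρ hρ x x' hx hx' Q _ hQ harm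
  have hpos : ∀ k, 0 < p k := by
    intro k
    rcases lt_or_ge k M with h2 | h2
    · rw [hp k h2]
      exact Real.exp_pos _
    · rw [hp' k h2]
      exact Real.exp_pos _
  obtain ⟨R₀, hR₀⟩ := box89 (μ := μ) (s := s) κ r u (u + (i + 2)) x |ρ|
  obtain ⟨Rb, hRb⟩ : ∃ Rb : ℤ, Rb = max R₀ |x' - x| := ⟨_, rfl⟩
  have hR1 : R₀ ≤ Rb := by rw [hRb]; exact le_max_left _ _
  have hR2 : |x' - x| ≤ Rb := by rw [hRb]; exact le_max_right _ _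
  have hxb : x ∈ bx r u x Rb u := by
    unfold bx
    rw [mem_Icc]
    have := (abs_nonneg (x' - x)).trans hR2
    omega
  have hxb' : x' ∈ bx r u x Rb u := by
    unfold bx
    rw [mem_Icc]
    rw [abs_le] at hR2
    omega
  have hsys := HS (le_max_left _ _) hp hp' hL x Rb ρ fun v _ hv => hR₀ Rb hR1 ρ le_rfl v hv.le
  have hrr := hL.rr
  have e1 := massG89 hBm hrr hrN (m := i + 2) le_rfl le_rfl hxb
  have e2 := massG89 hBm hrr hrN (m := i + 2) le_rfl le_rfl hxb'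
  have e3 := pmG89 (μ := μ) (s := s) (h := h) (η := η) (p := p) (M := M) Bm hrr (m := i + 2) le_rfl le_rfl hxb Q
  rw [e3] at harm
  have key := H2 T u i (u + (i + 2)) (Θ ^ 2) (one_le_pow₀ hΘ) hΘ2 ((le_max_right _ _).trans (hL.T1 u le_rfl (by omega))) hT le_rfl
    (qq P C' q) (lt μ s κ r) (kk μ s h η p M r) (bx r u x Rb) ρ hsys
    (fun v hv hv' => qq_le P hC'.le hq₀ hΘ (hL.q0 v hv hv') (hq v hv hv')) hρ
    (Bm (r u)) (Bm (r (u + (i + 2))))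
    ((Icc x (x + ((r (u + (i + 2)) - r u : ℕ) : ℤ))).filter Q) x x'
    (fun z => (hBm.b0 _ z hrN).le) e1 e2
    (fun z hz => by
      obtain ⟨z1, z2⟩ := mem_filter.1 hz
      rw [mem_Icc] at z1
      refine ⟨?_, hQ z z1.1 z1.2 z2⟩
      unfold bx at hxb ⊢
      rw [mem_Icc] at hxb ⊢
      omega) hx hx' harm
  rw [← pow_mul] at key
  rw [show 4 * i = 2 * (2 * i) by ring]
  have hru0 : r u ≤ Nt := (r_mono hrr (i + 2) u le_rfl le_rfl).trans hrN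
  refine key.trans (mul_le_mul_of_nonneg_right (Real.exp_le_exp.2 ?_) (hBm.b0 _ x' hru0).le)
  have hE := EE_pos (μ := μ) (s := s) (T (u + i))
  refine mul_le_mul_of_nonneg_right ?_ (by positivity)
  have := mul_le_mul_of_nonneg_left (q_four89 hCg hq₀) hA
  linarith

end

end Pool.Agent.W_7d29a1_C1.LrK16
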