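import Pool.Agent.W_7d29a1_C1.LrR89
import Pool.Agent.W_7d29a1_C1.LrL16

/-!
MP_7d29a1_pr, [C1], (LR): helper89's `LrR89` WITH GROWING ARMS. (helper94)

The arms of the scale `i` from the places of the scale `i + j` have the radius `Y 2 ^ (j + e i)`: the nodes which are not felt at the row may have levels
which grow with the distance in scales. Condition `B₂ ^ e (i + 1) * Θ ^ (4 i) ≤ Ce * B₂ ^ i`; the conclusions are those of `lr_row89`, `lr_all89`.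
-/

set_option autoImplicit false

namespace Pool.Agent.W_7d29a1_C1.LrE94

open MeasureTheory ProbabilityTheory Filter Topology Finset
open Pool.Agent.W_7d29a1_F Pool.Agent.W_7d29a1_h4g Pool.Agent.W_7d29a1_H Pool.Agent.W_7d29a1_HS
open Pool.Agent.W_7d29a1_C1.H75 Pool.Agent.W_7d29a1_C1.U16 Pool.Agent.W_7d29a1_C1.FarK89 Pool.Agent.W_7d29a1_C1.FarW89
open Pool.Agent.W_7d29a1_C1.DD84 Pool.Agent.W_7d29a1_C1.SysN89 Pool.Agent.W_7d29a1_C1.LrN89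
open Pool.Agent.W_7d29a1_C1.LrR89 (pow_ratio89)
open Pool.Agent.W_7d29a1_C1.LrK16 (lr_swK16)

noncomputable section

variable {μ : Measure ℝ} [IsProbabilityMeasure μ] {s c C : ℝ} {n₀ : ℕ}

/-- **(LR), ONE ROW, THE PLACES WITHIN THE LAST SCALE.** -/
theorem lr_rowE94 (h0 : In μ s c C n₀) {B₂ : ℝ} (hB₂ : 4 ≤ B₂) : ∃ pw K₀ : ℕ, 2 ≤ K₀ ∧
    ∀ (P : ℕ) {θ K : ℝ}, 0 < θ → 4 ≤ K → ∀ b : ℕ, ∃ Bw : ℝ, 2 ≤ Bw ∧ ∀ σ K₁ q₀ R Y Ce : ℝ, 0 < σ → 1 ≤ K₁ → 0 ≤ q₀ → 0 ≤ R → 1 ≤ Y → 1 ≤ Ce → ∃ (A : ℝ) (j₀ n₁ : ℕ), 0 ≤ A ∧ 1 ≤ n₁ ∧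
    ∀ {h : ℝ} {η : Env} {p : ℕ → ℝ} {M Nt : ℕ} {κ : Pt} {r T N : ℕ → ℕ} {q : ℕ → ℝ} {bs : ℕ → Pt} {w : ℕ → ℤ} {β : ℕ → ℝ} {u m : ℕ}
      {Θ B₁ δ : ℝ} {Bm : ℕ → ℤ → ℝ} {e : ℕ → ℕ}, Sys16 (fun a b x z => nk μ s h η p M a (b - a) x z) Bm Nt →
    (∀ k, k < M → p k = Real.exp (s + h)) → (∀ k, M ≤ k → p k = Real.exp s) → 1 ≤ Θ → Θ ^ 2 ≤ 2 →
    Lay89 μ s c θ K h P η κ r T N q bs u (u + (m + 4)) n₁ → r (u + (m + 4)) ≤ Nt →
    (∀ v, u ≤ v → v < u + (m + 3) → K₀ * T v ≤ T (v + 1) ∧ T (v + 1) ≤ b * T v) →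
    (∀ v, u ≤ v → v < u + (m + 4) → q v ≤ q₀ * Θ ^ (v - u)) →
    2 * Bw ≤ B₁ → δ ≤ θ * sl μ s → δ ≤ θ * (1 - sl μ s) → StL89 μ s B₁ B₂ δ η κ r T q w β (u + 1) (u + (m + 3)) →
    (∀ i, i ≤ m → e i ≤ e (i + 1)) → (∀ i, i ≤ m → B₂ ^ e (i + 1) * Θ ^ (4 * i) ≤ Ce * B₂ ^ i) →
    (∀ v, u < v → v < u + (m + 3) → 2 ^ (m + e (m + 1) + j₀) * wd μ s (T v) ≤ δ * T v) →
    ∀ (ρ : ℝ), |ρ| ≤ R * wd μ s (T u) →
    (∀ i j : ℕ, i + j ≤ m + 1 → ∀ x : ℤ, |lt μ s κ r u x - ρ| ≤ K₁ * wd μ s (T (u + (i + j))) →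
      Bm (r u) x ≤ 2 * PM16 (fun a b x z => nk μ s h η p M a (b - a) x z) Bm (r u) (r (u + (i + 3))) x
        (fun z => |lt μ s κ r (u + (i + 3)) z - lt μ s κ r u x| ≤ Y * 2 ^ (j + e i) * wd μ s (T (u + (i + 2))))) →
    ∀ n, n ≤ m → ∀ (x x' : ℤ), |lt μ s κ r u x' - ρ| ≤ K₁ * wd μ s (T (u + n)) → |lt μ s κ r u x - ρ| ≤ K₁ * wd μ s (T (u + m)) →
    Bm (r u) x ≤ Real.exp (A * (B₂ ^ (pw * n) * EE μ s (T u)) + σ * (EE μ s (T u) / wd μ s (T u)) * |(x : ℝ) - x'|) * Bm (r u) x' := by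
  obtain ⟨g, pw, Km, hg, hKm, HM⟩ := lr_model h0
  obtain ⟨Ks, hKs, HS0⟩ := lr_swK16 h0
  obtain ⟨Kg, hKg⟩ := exists_nat_ge (B₂ ^ (1 / g))
  obtain ⟨Kw, mw, hKw2, hmw1, hw4⟩ := wd_four h0
  have hB₂0 : 0 < B₂ := by linarith
  obtain ⟨K₀, hK₀⟩ : ∃ K₀ : ℕ, K₀ = max (max Km Ks) (max Kg Kw) := ⟨_, rfl⟩
  have hK₀m : Km ≤ K₀ := by rw [hK₀]; exact (le_max_left _ _).trans (le_max_left _ _)
  have hK₀s : Ks ≤ K₀ := by rw [hK₀]; exact (le_max_right _ _).trans (le_max_left _ _)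
  have hK₀g : Kg ≤ K₀ := by rw [hK₀]; exact (le_max_left _ _).trans (le_max_right _ _)
  have hK₀w : Kw ≤ K₀ := by rw [hK₀]; exact (le_max_right _ _).trans (le_max_right _ _)
  have hBK : B₂ ≤ (K₀ : ℝ) ^ g := by
    have h1 : B₂ ^ (1 / g) ≤ (K₀ : ℝ) := hKg.trans (by exact_mod_cast hK₀g)
    have h2 := Real.rpow_le_rpow (by positivity) h1 hg.le
    rwa [← Real.rpow_mul hB₂0.le, one_div, inv_mul_cancel₀ hg.ne', Real.rpow_one] at h2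
  refine ⟨pw, K₀, hKm.trans hK₀m, fun P θ K hθ hK b => ?_⟩
  have HS := HS0 P hθ hK (show 2 ≤ B₂ by linarith)
  obtain ⟨Bw, n₂, hBw, hn₂, HB⟩ := wd_iter h0 b
  refine ⟨Bw, hBw, fun σ K₁ q₀ R Y Ce hσ hK₁ hq₀ hR hY hCe => ?_⟩
  obtain ⟨As, j₀, n₃, hAs, hn₃, HS'⟩ := HS K₁ R Y Bw hK₁ hR hY hBw b
  obtain ⟨A, n₄, hA, hn₄, HM'⟩ := HM σ (As * (1 + q₀) ^ 4 * Ce) K₁ B₂ hσ (by positivity) hK₁ (by linarith) b
  refine ⟨A, j₀, max (max n₂ n₃) (max n₄ mw), hA, hn₄.trans ((le_max_left _ _).trans (le_max_right _ _)), ?_⟩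
  intro h η p M Nt κ r T N q bs w β u m Θ B₁ δ Bm e hBm hp hp' hΘ hΘ2 hL hrN hT hq hB₁ hδ1 hδ2 hst hem heB hcone ρ hρ harm n hn x x' hx' hx
  have hTu := hL.T1 u le_rfl (by omega)
  have l2 : n₂ ≤ T u := ((le_max_left _ _).trans (le_max_left _ _)).trans hTu
  have l4 : n₄ ≤ T u := ((le_max_left _ _).trans (le_max_right _ _)).trans hTu
  have hn3 : n₃ ≤ max (max n₂ n₃) (max n₄ mw) := (le_max_right _ _).trans (le_max_left _ _)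
  have hnw : mw ≤ max (max n₂ n₃) (max n₄ mw) := (le_max_right _ _).trans (le_max_right _ _)
  have hTn : ∀ v, u ≤ v → v < u + (m + 4) → 1 ≤ T v := fun v h1 h2 =>
    (hmw1.trans hnw).trans (hL.T1 v h1 h2)
  have hrr := hL.rr
  have hru0 : r u ≤ Nt := (r_mono hrr (m + 4) u le_rfl le_rfl).trans hrN
  have hrle : ∀ i, i ≤ m + 4 → r (u + i) ≤ Nt := by
    intro i hi
    have h1 := r_mono hrr (m + 4 - i) (u + i) (by omega) (by omega)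
    rw [show u + i + (m + 4 - i) = u + (m + 4) by omega] at h1
    exact h1.trans hrN
  have hTu1 : 1 ≤ T u := hn₄.trans l4
  have hK₀1 : 0 < K₀ := by omega
  obtain ⟨x₀, hx₀⟩ : ∃ x₀ : ℝ, x₀ = (κ.2 : ℝ) + sl μ s * ((r u : ℝ) - (κ.1 : ℝ)) + ρ := ⟨_, rfl⟩
  have hlt : ∀ y : ℤ, lt μ s κ r u y - ρ = (y : ℝ) - x₀ := by
    intro y
    rw [lt_eq, hx₀]
    ring
  have hwit := HB (fun v => T (u + v)) m l2 (fun v hv => by
    have h1 := hT (u + v) (by omega) (by omega)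
    exact ⟨(Nat.le_mul_of_pos_left _ hK₀1).trans h1.1, h1.2⟩)
  have key := HM' (fun v => T (u + v)) m l4 (fun v hv => by
      have h1 := hT (u + v) (by omega) (by omega)
      exact ⟨(Nat.mul_le_mul_right _ hK₀m).trans h1.1, h1.2⟩)
    (pow_ratio89 (K₀ := K₀) (T := fun v => T (u + v)) hTu1 (fun v hv => (hT (u + v) (by omega) (by omega)).1) hB₂0.le hg hBK)
    (Bm (r u)) x₀ (fun y => (hBm.b0 _ y hru0).le) ?_ n hn x x' (by rw [← hlt]; exact hx') (by rw [← hlt]; exact hx)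
  · exact key
  · intro n' i hin hn'm y y' hy hy' hyy
    obtain ⟨j, rfl⟩ : ∃ j, n' = i + j := ⟨n' - i, by omega⟩
    have hwj := hwit i (i + j) hin hn'm
    rw [show i + j - i = j by omega] at hwj
    have hem' : ∀ a b, a ≤ b → b ≤ m + 1 → e a ≤ e b := by
      intro a b hab
      induction b, hab using Nat.le_induction with
      | base => intro _; exact le_rfl
      | succ b hab ih => intro hb; exact (ih (by omega)).trans (hem b (by omega))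
    obtain ⟨j', hj'⟩ : ∃ j', j' = j + e (i + 1) := ⟨_, rfl⟩
    have hj'm : j' + j₀ ≤ m + e (m + 1) + j₀ := by
      have := hem' (i + 1) (m + 1) (by omega) le_rfl
      omega
    have hjj' : j ≤ j' := by omega
    have hei : j + e i ≤ j' := by
      have := hem i (by omega)
      omega
    have hwi := h0.wd_pos (hTn (u + i) (by omega) (by omega))
    have hwj' : wd μ s (T (u + (i + j))) ≤ Bw ^ j' * wd μ s (T (u + i)) :=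
      hwj.trans (mul_le_mul_of_nonneg_right (pow_le_pow_right₀ (by linarith) hjj') hwi.le)
    have hmono : K₁ * wd μ s (T (u + (i + j))) ≤ K₁ * (Bw ^ j' * wd μ s (T (u + i))) := mul_le_mul_of_nonneg_left hwj' (by linarith)
    have hw2 := h0.wd_pos (hTn (u + (i + 2)) (by omega) (by omega))
    rw [← hlt] at hy hy'
    have hwmono : wd μ s (T (u + (i + j))) ≤ wd μ s (T (u + (i + j + 1))) := by
      have h1 := hT (u + (i + j)) (by omega) (by omega)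
      have h2 := hw4 (T (u + (i + j))) (T (u + (i + j + 1))) (hnw.trans (hL.T1 (u + (i + j)) (by omega) (by omega)))
        ((Nat.mul_le_mul_right _ hK₀w).trans h1.1)
      have h3 := h0.wd_pos (hTn (u + (i + j)) (by omega) (by omega))
      linarith
    have h1 := HS' q₀ hq₀ (i := i) hBm hp hp' hΘ hΘ2 (hL.sub le_rfl (by omega) hn3) (hrle (i + 4) (by omega))
      (fun v h2 h3 => ⟨(Nat.mul_le_mul_right _ hK₀s).trans (hT v h2 (by omega)).1, (hT v h2 (by omega)).2⟩)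
      (fun v h2 h3 => hq v h2 (by omega)) hB₁ hδ1 hδ2 (hst.sub (by omega) (by omega)) j'
      ((mul_le_mul_of_nonneg_right (pow_le_pow_right₀ (by norm_num) hj'm)
        (h0.wd_pos (hTn (u + (i + 1)) (by omega) (by omega))).le).trans (hcone (u + (i + 1)) (by omega) (by omega)))
      ((mul_le_mul_of_nonneg_right (pow_le_pow_right₀ (by norm_num) hj'm)
        (h0.wd_pos (hTn (u + (i + 2)) (by omega) (by omega))).le).trans (hcone (u + (i + 2)) (by omega) (by omega)))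
      ρ hρ y y' (hy.trans hmono) (hy'.trans hmono) hyy _ _ (fun z _ _ hz => le_trans hz (mul_le_mul_of_nonneg_right
        (mul_le_mul_of_nonneg_left (pow_le_pow_right₀ (by norm_num) hei) (by linarith)) hw2.le)) (harm i j (by omega) y hy)
      (fun z _ _ hz => by rw [hj']; exact hz)
      (harm (i + 1) j (by omega) y (hy.trans (mul_le_mul_of_nonneg_left (by
        rw [show u + (i + 1 + j) = u + (i + j + 1) by omega]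
        exact hwmono) (by linarith))))
    refine h1.trans (mul_le_mul_of_nonneg_right (Real.exp_le_exp.2 ?_) (hBm.b0 _ y' hru0).le)
    have hE := EE_pos (μ := μ) (s := s) (T (u + i))
    have h2 : B₂ ^ j' * Θ ^ (4 * i) ≤ Ce * B₂ ^ (i + j) := by
      calc B₂ ^ j' * Θ ^ (4 * i) = B₂ ^ j * (B₂ ^ e (i + 1) * Θ ^ (4 * i)) := by
            rw [hj', pow_add]
            ring
        _ ≤ B₂ ^ j * (Ce * B₂ ^ i) := mul_le_mul_of_nonneg_left (heB i (by omega)) (by positivity)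
        _ = _ := by
          rw [pow_add]
          ring
    calc As * (1 + q₀) ^ 4 * (B₂ ^ j' * Θ ^ (4 * i) * EE μ s (T (u + i))) ≤
          As * (1 + q₀) ^ 4 * (Ce * B₂ ^ (i + j) * EE μ s (T (u + i))) :=
          mul_le_mul_of_nonneg_left (mul_le_mul_of_nonneg_right h2 hE.le) (by positivity)
      _ = As * (1 + q₀) ^ 4 * Ce * (B₂ ^ (i + j) * EE μ s (T (u + i))) := by ring

/-- **(LR), ONE ROW, ALL PLACES**, with the crude regularity beyond the last scale. -/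
theorem lr_allE94 (h0 : In μ s c C n₀) {B₂ : ℝ} (hB₂ : 4 ≤ B₂) : ∃ pw K₀ : ℕ, 2 ≤ K₀ ∧
    ∀ (P : ℕ) {θ K : ℝ}, 0 < θ → 4 ≤ K → ∀ b : ℕ, ∃ Bw : ℝ, 2 ≤ Bw ∧ ∀ σ K₁ q₀ R Y Ce Ac : ℝ, 0 < σ → 1 ≤ K₁ → 0 ≤ q₀ → 0 ≤ R → 1 ≤ Y → 1 ≤ Ce → 0 ≤ Ac →
    ∃ (A : ℝ) (j₀ n₁ : ℕ), 0 ≤ A ∧ 1 ≤ n₁ ∧
    ∀ {h : ℝ} {η : Env} {p : ℕ → ℝ} {M Nt : ℕ} {κ : Pt} {r T N : ℕ → ℕ} {q : ℕ → ℝ} {bs : ℕ → Pt} {w : ℕ → ℤ} {β : ℕ → ℝ} {u m : ℕ}
      {Θ B₁ δ : ℝ} {Bm : ℕ → ℤ → ℝ} {e : ℕ → ℕ}, Sys16 (fun a b x z => nk μ s h η p M a (b - a) x z) Bm Nt →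
    (∀ k, k < M → p k = Real.exp (s + h)) → (∀ k, M ≤ k → p k = Real.exp s) → 1 ≤ Θ → Θ ^ 2 ≤ 2 →
    Lay89 μ s c θ K h P η κ r T N q bs u (u + (m + 4)) n₁ → r (u + (m + 4)) ≤ Nt →
    (∀ v, u ≤ v → v < u + (m + 3) → K₀ * T v ≤ T (v + 1) ∧ T (v + 1) ≤ b * T v) →
    (∀ v, u ≤ v → v < u + (m + 4) → q v ≤ q₀ * Θ ^ (v - u)) →
    2 * Bw ≤ B₁ → δ ≤ θ * sl μ s → δ ≤ θ * (1 - sl μ s) → StL89 μ s B₁ B₂ δ η κ r T q w β (u + 1) (u + (m + 3)) →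
    (∀ i, i ≤ m → e i ≤ e (i + 1)) → (∀ i, i ≤ m → B₂ ^ e (i + 1) * Θ ^ (4 * i) ≤ Ce * B₂ ^ i) →
    (∀ v, u < v → v < u + (m + 3) → 2 ^ (m + e (m + 1) + j₀) * wd μ s (T v) ≤ δ * T v) →
    ∀ (ρ : ℝ), |ρ| ≤ R * wd μ s (T u) →
    (∀ i j : ℕ, i + j ≤ m + 1 → ∀ x : ℤ, |lt μ s κ r u x - ρ| ≤ K₁ * wd μ s (T (u + (i + j))) →
      Bm (r u) x ≤ 2 * PM16 (fun a b x z => nk μ s h η p M a (b - a) x z) Bm (r u) (r (u + (i + 3))) x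
        (fun z => |lt μ s κ r (u + (i + 3)) z - lt μ s κ r u x| ≤ Y * 2 ^ (j + e i) * wd μ s (T (u + (i + 2))))) →
    (∀ n, n < m → ∀ x x' : ℤ, |lt μ s κ r u x' - ρ| ≤ K₁ * wd μ s (T (u + n)) → K₁ * wd μ s (T (u + m)) < |lt μ s κ r u x - ρ| →
      Bm (r u) x ≤ Real.exp (Ac * (B₂ ^ m * EE μ s (T (u + m))) + σ / 2 * (EE μ s (T u) / wd μ s (T u)) * |(x : ℝ) - x'|) *
        Bm (r u) x') →
    ∀ n, n < m → ∀ (x x' : ℤ), |lt μ s κ r u x' - ρ| ≤ K₁ * wd μ s (T (u + n)) →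
    Bm (r u) x ≤ Real.exp (A * (B₂ ^ (pw * n) * EE μ s (T u)) + σ * (EE μ s (T u) / wd μ s (T u)) * |(x : ℝ) - x'|) * Bm (r u) x' := by
  obtain ⟨pw, Kr, hKr, HR0⟩ := lr_rowE94 h0 hB₂
  obtain ⟨g, Kf, hg, hKf, HF⟩ := lr_far h0
  obtain ⟨Kg, hKg⟩ := exists_nat_ge (B₂ ^ (1 / g))
  have hB₂0 : 0 < B₂ := by linarith
  obtain ⟨K₀, hK₀⟩ : ∃ K₀ : ℕ, K₀ = max (max Kr Kf) Kg := ⟨_, rfl⟩
  have hK₀r : Kr ≤ K₀ := by rw [hK₀]; exact (le_max_left _ _).trans (le_max_left _ _)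
  have hK₀f : Kf ≤ K₀ := by rw [hK₀]; exact (le_max_right _ _).trans (le_max_left _ _)
  have hK₀g : Kg ≤ K₀ := by rw [hK₀]; exact le_max_right _ _
  have hBK : B₂ ≤ (K₀ : ℝ) ^ g := by
    have h1 : B₂ ^ (1 / g) ≤ (K₀ : ℝ) := hKg.trans (by exact_mod_cast hK₀g)
    have h2 := Real.rpow_le_rpow (by positivity) h1 hg.le
    rwa [← Real.rpow_mul hB₂0.le, one_div, inv_mul_cancel₀ hg.ne', Real.rpow_one] at h2
  refine ⟨pw, K₀, hKr.trans hK₀r, fun P θ K hθ hK b => ?_⟩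
  obtain ⟨Bw, hBw, HR'⟩ := HR0 P hθ hK b
  refine ⟨Bw, hBw, fun σ K₁ q₀ R Y Ce Ac hσ hK₁ hq₀ hR hY hCe hAc => ?_⟩
  obtain ⟨A₁, j₀, n₂, hA₁, hn₂, H1⟩ := HR' σ K₁ q₀ R Y Ce hσ hK₁ hq₀ hR hY hCe
  obtain ⟨A₂, n₃, hA₂, hn₃, H2⟩ := HF σ Ac K₁ B₂ hσ hAc hK₁ (by linarith)
  refine ⟨A₁ + A₂, j₀, max n₂ n₃, by positivity, hn₂.trans (le_max_left _ _), ?_⟩
  intro h η p M Nt κ r T N q bs w β u m Θ B₁ δ Bm e hBm hp hp' hΘ hΘ2 hL hrN hT hq hB₁ hδ1 hδ2 hst hem heB hcone ρ hρ harm hcr n hn x x' hx'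
  have hTu := hL.T1 u le_rfl (by omega)
  have l3 : n₃ ≤ T u := (le_max_right _ _).trans hTu
  have hTu1 : 1 ≤ T u := hn₃.trans l3
  have hrr := hL.rr
  have hru0 : r u ≤ Nt := (r_mono hrr (m + 4) u le_rfl le_rfl).trans hrN
  have hE := EE_pos (μ := μ) (s := s) (T u)
  have hw := h0.wd_pos hTu1
  have hpn : (1 : ℝ) ≤ B₂ ^ (pw * n) := one_le_pow₀ (by linarith)
  have hx0 := abs_nonneg ((x : ℝ) - x')
  rcases le_or_gt |lt μ s κ r u x - ρ| (K₁ * wd μ s (T (u + m))) with h1 | h1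
  · have key := H1 hBm hp hp' hΘ hΘ2 (hL.sub le_rfl le_rfl (le_max_left _ _)) hrN
      (fun v h2 h3 => ⟨(Nat.mul_le_mul_right _ hK₀r).trans (hT v h2 h3).1, (hT v h2 h3).2⟩) hq hB₁ hδ1 hδ2 hst hem heB hcone ρ hρ harm
      n hn.le x x' hx' h1
    refine key.trans (mul_le_mul_of_nonneg_right (Real.exp_le_exp.2 ?_) (hBm.b0 _ x' hru0).le)
    have h2 : 0 ≤ A₂ * (B₂ ^ (pw * n) * EE μ s (T u)) := by positivity
    linarith
  · obtain ⟨x₀, hx₀⟩ : ∃ x₀ : ℝ, x₀ = (κ.2 : ℝ) + sl μ s * ((r u : ℝ) - (κ.1 : ℝ)) + ρ := ⟨_, rfl⟩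
    have hlt : ∀ y : ℤ, lt μ s κ r u y - ρ = (y : ℝ) - x₀ := by
      intro y
      rw [lt_eq, hx₀]
      ring
    have key := H2 (fun v => T (u + v)) m l3 (fun v hv => (Nat.mul_le_mul_right _ hK₀f).trans (hT (u + v) (by omega) (by omega)).1)
      (pow_ratio89 (K₀ := K₀) (T := fun v => T (u + v)) hTu1 (fun v hv => (hT (u + v) (by omega) (by omega)).1) hB₂0.le hg hBK m le_rfl)
      (Bm (r u)) x₀ n x x' (hBm.b0 _ x' hru0).le hn (by rw [← hlt]; exact h1) (by rw [← hlt]; exact hx') (hcr n hn x x' hx' h1)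
    refine key.trans (mul_le_mul_of_nonneg_right (Real.exp_le_exp.2 ?_) (hBm.b0 _ x' hru0).le)
    have h2 : 0 ≤ A₁ * (B₂ ^ (pw * n) * EE μ s (T u)) := by positivity
    have h3 : A₂ * EE μ s (T u) ≤ A₂ * (B₂ ^ (pw * n) * EE μ s (T u)) :=
      mul_le_mul_of_nonneg_left (le_mul_of_one_le_left hE.le hpn) hA₂
    rw [add_zero]
    linarith

end

end Pool.Agent.W_7d29a1_C1.LrE94
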