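import Pool.Agent.W_7d29a1_C1.LrR89

/-!
MP_7d29a1_pr, [C1], FIELD nu, forward: (LR) of a row with arms whose radius grows with `n / Cn` for ALL the steps `i`. (helper94; forward twin of
helper89's `LrF89`)

`lr_rowG94` = `lr_row89` with the arms of the form of a tower which is not felt: for a place of the scale `n` and every step `i ≤ n` the mass goes
within `Y 2 ^ (n / Cn + j₁)` widths at the row `r (u + (i + 3))`.
-/

set_option autoImplicit false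

namespace Pool.Agent.W_7d29a1_C1.LrG94

open MeasureTheory ProbabilityTheory Filter Topology Finset
open Pool.Agent.W_7d29a1_F Pool.Agent.W_7d29a1_h4g Pool.Agent.W_7d29a1_H Pool.Agent.W_7d29a1_HS
open Pool.Agent.W_7d29a1_C1.H75 Pool.Agent.W_7d29a1_C1.U16 Pool.Agent.W_7d29a1_C1.FarK89 Pool.Agent.W_7d29a1_C1.FarW89
open Pool.Agent.W_7d29a1_C1.DD84 Pool.Agent.W_7d29a1_C1.SysN89 Pool.Agent.W_7d29a1_C1.LrN89 Pool.Agent.W_7d29a1_C1.LrK16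
open Pool.Agent.W_7d29a1_C1.LrR89 (pow_ratio89 ratio_for89 pow_div89)

noncomputable section

variable {μ : Measure ℝ} [IsProbabilityMeasure μ] {s c C : ℝ} {n₀ : ℕ}

/-- **(LR), ONE ROW, THE PLACES WITHIN THE LAST SCALE**, arms within `Y 2 ^ (n / Cn + j₁)` widths. -/
theorem lr_rowG94 (h0 : In μ s c C n₀) : ∃ pw : ℕ, ∀ Φ : ℝ, 1 ≤ Φ → ∃ K₀ : ℕ, 2 ≤ K₀ ∧ ∀ (P : ℕ) (θ K B₂ : ℝ) (Cn : ℕ), 0 < θ → 4 ≤ K →
    2 ≤ B₂ → 1 ≤ Cn → B₂ ≤ Φ ^ Cn → ∀ b : ℕ, ∃ Bp : ℝ, 2 ≤ Bp ∧ ∀ (σ K₁ q₀ R Y : ℝ) (j₁ : ℕ), 0 < σ → 1 ≤ K₁ → 0 ≤ q₀ → 0 ≤ R → 1 ≤ Y →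
    ∃ (A : ℝ) (j₀ n₁ : ℕ), 0 ≤ A ∧ 1 ≤ n₁ ∧
    ∀ {h : ℝ} {η : Env} {p : ℕ → ℝ} {M Nt : ℕ} {κ : Pt} {r T N : ℕ → ℕ} {q : ℕ → ℝ} {bs : ℕ → Pt} {w : ℕ → ℤ} {β : ℕ → ℝ} {u m : ℕ}
      {Θ B₁ δ : ℝ} {Bm : ℕ → ℤ → ℝ}, Sys16 (fun a b x z => nk μ s h η p M a (b - a) x z) Bm Nt →
    (∀ k, k < M → p k = Real.exp (s + h)) → (∀ k, M ≤ k → p k = Real.exp s) → 1 ≤ Θ → Θ ^ 2 ≤ 2 → Θ ^ 4 ≤ Φ →
    Lay89 μ s c θ K h P η κ r T N q bs u (u + (m + 4)) n₁ → r (u + (m + 4)) ≤ Nt →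
    (∀ v, u ≤ v → v < u + (m + 3) → K₀ * T v ≤ T (v + 1) ∧ T (v + 1) ≤ b * T v) →
    (∀ v, u ≤ v → v < u + (m + 4) → q v ≤ q₀ * Θ ^ (v - u)) →
    2 * Bp ≤ B₁ → δ ≤ θ * sl μ s → δ ≤ θ * (1 - sl μ s) → StL89 μ s B₁ B₂ δ η κ r T q w β (u + 1) (u + (m + 3)) →
    (∀ v, u < v → v < u + (m + 3) → 2 ^ ((m + 1) / Cn + j₁ + j₀) * wd μ s (T v) ≤ δ * T v) →
    ∀ (ρ : ℝ), |ρ| ≤ R * wd μ s (T u) →
    (∀ i n : ℕ, i ≤ n → n ≤ m + 1 → ∀ x : ℤ, |lt μ s κ r u x - ρ| ≤ K₁ * wd μ s (T (u + n)) →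
      Bm (r u) x ≤ 2 * PM16 (fun a b x z => nk μ s h η p M a (b - a) x z) Bm (r u) (r (u + (i + 3))) x
        (fun z => |lt μ s κ r (u + (i + 3)) z - lt μ s κ r u x| ≤ Y * 2 ^ (n / Cn + j₁) * wd μ s (T (u + (i + 2))))) →
    ∀ n, n ≤ m → ∀ (x x' : ℤ), |lt μ s κ r u x' - ρ| ≤ K₁ * wd μ s (T (u + n)) → |lt μ s κ r u x - ρ| ≤ K₁ * wd μ s (T (u + m)) →
    Bm (r u) x ≤ Real.exp (A * (Φ ^ (pw * n) * EE μ s (T u)) + σ * (EE μ s (T u) / wd μ s (T u)) * |(x : ℝ) - x'|) * Bm (r u) x' := by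
  obtain ⟨g, pw, Km, hg, hKm, HM⟩ := lr_model h0
  obtain ⟨Ks, hKs, HS⟩ := lr_swK16 h0
  obtain ⟨Kw, mw, hKw2, hmw1, hw4⟩ := wd_four h0
  refine ⟨2 * pw, fun Φ hΦ => ?_⟩
  have hΦΦ : 1 ≤ Φ * Φ := one_le_mul_of_one_le_of_one_le hΦ hΦ
  obtain ⟨Kg, hKg⟩ := ratio_for89 hΦΦ hg
  have hΦ0 : 0 < Φ := by linarith
  obtain ⟨K₀, hK₀⟩ : ∃ K₀ : ℕ, K₀ = max (max Km Ks) (max Kg Kw) := ⟨_, rfl⟩
  have hK₀m : Km ≤ K₀ := by rw [hK₀]; exact (le_max_left _ _).trans (le_max_left _ _)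
  have hK₀s : Ks ≤ K₀ := by rw [hK₀]; exact (le_max_right _ _).trans (le_max_left _ _)
  have hK₀g : Kg ≤ K₀ := by rw [hK₀]; exact (le_max_left _ _).trans (le_max_right _ _)
  have hK₀w : Kw ≤ K₀ := by rw [hK₀]; exact (le_max_right _ _).trans (le_max_right _ _)
  have hBK := hKg K₀ hK₀g
  refine ⟨K₀, hKm.trans hK₀m, fun P θ K B₂ Cn hθ hK hB₂ hCn hB₂Φ b => ?_⟩
  obtain ⟨Bw, n₂, hBw, hn₂, HB⟩ := wd_iter h0 b
  obtain ⟨Bp, hBp⟩ : ∃ Bp : ℝ, Bp = Bw ^ Cn := ⟨_, rfl⟩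
  have hBp2 : 2 ≤ Bp := by
    rw [hBp]
    calc (2 : ℝ) ≤ Bw := hBw
      _ ≤ Bw ^ Cn := le_self_pow₀ (by linarith) (by omega)
  refine ⟨Bp, hBp2, fun σ K₁ q₀ R Y j₁ hσ hK₁ hq₀ hR hY => ?_⟩
  have hK₁B : K₁ ≤ K₁ * Bp := le_mul_of_one_le_right (by linarith) (by linarith)
  obtain ⟨As, j₀, n₃, hAs, hn₃, HS'⟩ := HS P hθ hK hB₂ (K₁ * Bp) R Y Bp (by linarith) hR hY hBp2 b
  obtain ⟨A, n₄, hA, hn₄, HM'⟩ := HM σ (As * (1 + q₀) ^ 4 * (B₂ ^ j₁ * Φ)) K₁ (Φ * Φ) hσ (by positivity) hK₁ hΦΦ b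
  refine ⟨A, j₀, max (max n₂ n₃) (max n₄ mw), hA, hn₄.trans ((le_max_left _ _).trans (le_max_right _ _)), ?_⟩
  intro h η p M Nt κ r T N q bs w β u m Θ B₁ δ Bm hBm hp hp' hΘ hΘ2 hΘΦ hL hrN hT hq hB₁ hδ1 hδ2 hst hcone ρ hρ harm n hn x x' hx' hx
  have hTu := hL.T1 u le_rfl (by omega)
  have l2 : n₂ ≤ T u := ((le_max_left _ _).trans (le_max_left _ _)).trans hTu
  have l4 : n₄ ≤ T u := ((le_max_left _ _).trans (le_max_right _ _)).trans hTu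
  have hn3 : n₃ ≤ max (max n₂ n₃) (max n₄ mw) := (le_max_right _ _).trans (le_max_left _ _)
  have hnw : mw ≤ max (max n₂ n₃) (max n₄ mw) := (le_max_right _ _).trans (le_max_right _ _)
  have hTn : ∀ v, u ≤ v → v < u + (m + 4) → 1 ≤ T v := fun v h1 h2 =>
    (hmw1.trans hnw).trans (hL.T1 v h1 h2)
  have hrr := hL.rr
  have hru0 : r u ≤ Nt := (r_mono hrr (m + 4) u le_rfl le_rfl).trans hrN
  have hrle : ∀ i, i ≤ m + 4 → r (u + i) ≤ Nt := by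
    intro i hi
    have h1 := r_mono hrr (m + 4 - i) (u + i) (by omega) (by omega)
    rw [show u + i + (m + 4 - i) = u + (m + 4) by omega] at h1
    exact h1.trans hrN
  have hTu1 : 1 ≤ T u := hn₄.trans l4
  have hK₀1 : 0 < K₀ := by omega
  obtain ⟨x₀, hx₀⟩ : ∃ x₀ : ℝ, x₀ = (κ.2 : ℝ) + sl μ s * ((r u : ℝ) - (κ.1 : ℝ)) + ρ := ⟨_, rfl⟩
  have hlt : ∀ y : ℤ, lt μ s κ r u y - ρ = (y : ℝ) - x₀ := by
    intro y
    rw [lt_eq, hx₀]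
    ring
  have hwit := HB (fun v => T (u + v)) m l2 (fun v hv => by
    have h1 := hT (u + v) (by omega) (by omega)
    exact ⟨(Nat.le_mul_of_pos_left _ hK₀1).trans h1.1, h1.2⟩)
  have key := HM' (fun v => T (u + v)) m l4 (fun v hv => by
      have h1 := hT (u + v) (by omega) (by omega)
      exact ⟨(Nat.mul_le_mul_right _ hK₀m).trans h1.1, h1.2⟩)
    (pow_ratio89 (K₀ := K₀) (T := fun v => T (u + v)) hTu1 (fun v hv => (hT (u + v) (by omega) (by omega)).1) (by positivity) hg hBK)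
    (Bm (r u)) x₀ (fun y => (hBm.b0 _ y hru0).le) ?_ n hn x x' (by rw [← hlt]; exact hx') (by rw [← hlt]; exact hx)
  · rw [mul_assoc 2 pw n, pow_mul Φ 2, pow_two]
    exact key
  · intro n' i hin hn'm y y' hy hy' hyy
    obtain ⟨j, hj⟩ : ∃ j, j = (n' + 1) / Cn + j₁ := ⟨_, rfl⟩
    have hj0 : (n' - i) / Cn ≤ j := by
      rw [hj]
      exact (Nat.div_le_div_right (by omega)).trans (Nat.le_add_right _ _)
    have hjn : n' / Cn + j₁ ≤ j := by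
      rw [hj]
      exact Nat.add_le_add_right (Nat.div_le_div_right (by omega)) _
    have hjm : j ≤ (m + 1) / Cn + j₁ := by
      rw [hj]
      exact Nat.add_le_add_right (Nat.div_le_div_right (by omega)) _
    have hwi := h0.wd_pos (hTn (u + i) (by omega) (by omega))
    have hwj : wd μ s (T (u + n')) ≤ Bp * (Bp ^ j * wd μ s (T (u + i))) := by
      refine (hwit i n' hin hn'm).trans ?_
      have h1 := pow_div89 (show 1 ≤ Bw by linarith) hCn (n' - i)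
      rw [← hBp] at h1
      have h1' : Bp ^ ((n' - i) / Cn) ≤ Bp ^ j := pow_le_pow_right₀ (by linarith) hj0
      have h1'' := h1.trans (mul_le_mul_of_nonneg_left h1' (show 0 ≤ Bp by linarith))
      have h2 := mul_le_mul_of_nonneg_right h1'' hwi.le
      linarith
    have hmono : K₁ * wd μ s (T (u + n')) ≤ K₁ * Bp * (Bp ^ j * wd μ s (T (u + i))) := by
      have := mul_le_mul_of_nonneg_left hwj (show 0 ≤ K₁ by linarith)
      linarith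
    rw [← hlt] at hy hy'
    have hwmono : wd μ s (T (u + n')) ≤ wd μ s (T (u + (n' + 1))) := by
      have h1 := hT (u + n') (by omega) (by omega)
      have h2 := hw4 (T (u + n')) (T (u + n' + 1)) (hnw.trans (hL.T1 (u + n') (by omega) (by omega)))
        ((Nat.mul_le_mul_right _ hK₀w).trans h1.1)
      have h3 := h0.wd_pos (hTn (u + n') (by omega) (by omega))
      rw [show u + (n' + 1) = u + n' + 1 by omega]
      linarith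
    have hcone' : ∀ v, u < v → v < u + (m + 3) → 2 ^ (j + j₀) * wd μ s (T v) ≤ δ * T v := fun v h2 h3 =>
      (mul_le_mul_of_nonneg_right (pow_le_pow_right₀ (by norm_num) (by omega : j + j₀ ≤ (m + 1) / Cn + j₁ + j₀))
        (h0.wd_pos (hTn v (by omega) (by omega))).le).trans (hcone v h2 h3)
    have harm1 := harm i n' hin (by omega) y hy
    have harm2 := harm (i + 1) (n' + 1) (by omega) (by omega) y (hy.trans (mul_le_mul_of_nonneg_left hwmono (by linarith)))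
    rw [← hj] at harm2
    have h1 := HS' q₀ hq₀ (i := i) hBm hp hp' hΘ hΘ2 (hL.sub le_rfl (by omega) hn3) (hrle (i + 4) (by omega))
      (fun v h2 h3 => ⟨(Nat.mul_le_mul_right _ hK₀s).trans (hT v h2 (by omega)).1, (hT v h2 (by omega)).2⟩)
      (fun v h2 h3 => hq v h2 (by omega)) hB₁ hδ1 hδ2 (hst.sub (by omega) (by omega)) j
      (hcone' _ (by omega) (by omega)) (hcone' _ (by omega) (by omega))
      ρ hρ y y' (hy.trans hmono) (hy'.trans hmono) (hyy.trans (mul_le_mul_of_nonneg_right (by linarith) hwi.le)) _ _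
      (fun z _ _ hz => le_trans hz (mul_le_mul_of_nonneg_right
        (mul_le_mul_of_nonneg_left (pow_le_pow_right₀ (by norm_num) hjn) (by linarith)) (h0.wd_pos (hTn (u + (i + 2)) (by omega) (by omega))).le))
      harm1 (fun z _ _ hz => hz) harm2
    refine h1.trans (mul_le_mul_of_nonneg_right (Real.exp_le_exp.2 ?_) (hBm.b0 _ y' hru0).le)
    have h2 : Θ ^ (4 * i) ≤ Φ ^ n' := by
      rw [pow_mul]
      exact (pow_le_pow_left₀ (by positivity) hΘΦ i).trans (pow_le_pow_right₀ hΦ hin)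
    have h3 : B₂ ^ j ≤ B₂ ^ j₁ * Φ * Φ ^ n' := by
      calc B₂ ^ j = B₂ ^ j₁ * B₂ ^ ((n' + 1) / Cn) := by rw [hj, pow_add, mul_comm]
        _ ≤ B₂ ^ j₁ * (Φ ^ Cn) ^ ((n' + 1) / Cn) :=
          mul_le_mul_of_nonneg_left (pow_le_pow_left₀ (by linarith) hB₂Φ _) (by positivity)
        _ = B₂ ^ j₁ * Φ ^ (Cn * ((n' + 1) / Cn)) := by rw [pow_mul]
        _ ≤ B₂ ^ j₁ * Φ ^ (n' + 1) := mul_le_mul_of_nonneg_left (pow_le_pow_right₀ hΦ (Nat.mul_div_le _ _)) (by positivity)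
        _ = _ := by rw [pow_succ]; ring
    have h4 : B₂ ^ j * Θ ^ (4 * i) ≤ B₂ ^ j₁ * Φ * (Φ * Φ) ^ n' := by
      calc B₂ ^ j * Θ ^ (4 * i) ≤ B₂ ^ j₁ * Φ * Φ ^ n' * Φ ^ n' := mul_le_mul h3 h2 (by positivity) (by positivity)
        _ = _ := by rw [mul_pow]; ring
    have h5 := mul_le_mul_of_nonneg_left (mul_le_mul_of_nonneg_right h4 (EE_pos (μ := μ) (s := s) (T (u + i))).le)
      (show 0 ≤ As * (1 + q₀) ^ 4 by positivity)
    refine h5.trans (le_of_eq ?_)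
    ring

end

end Pool.Agent.W_7d29a1_C1.LrG94
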