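import Pool.Agent.W_7d29a1_C1.LrN89

/-!
MP_7d29a1_pr, [C1], (LR), (D2): helper84's `env84` and helper89's `lrb_q89`, `ddi_q89` WITH THE RATIO `K₀` OF THE SCALES GIVEN FIRST (before
`P`, the slopes and `B₂`); the proofs are theirs (`DDF84`, `LrN89`).  (helper16)
-/

set_option autoImplicit false

namespace Pool.Agent.W_7d29a1_C1.LrK16

open MeasureTheory ProbabilityTheory Filter Topology Finset
open Pool.Agent.W_7d29a1_F Pool.Agent.W_7d29a1_h4g Pool.Agent.W_7d29a1_H Pool.Agent.W_7d29a1_HS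
open Pool.Agent.W_7d29a1_C1.H75 Pool.Agent.W_7d29a1_C1.U16 Pool.Agent.W_7d29a1_C1.FarK89 Pool.Agent.W_7d29a1_C1.FarW89
open Pool.Agent.W_7d29a1_C1.DD84 Pool.Agent.W_7d29a1_C1.SysN89 Pool.Agent.W_7d29a1_C1.LrN89
open Pool.Agent.W_7d29a1_C1.K91 (wt wt_pos)

noncomputable section

variable {μ : Measure ℝ} [IsProbabilityMeasure μ] {s c C : ℝ} {n₀ : ℕ}

/-- `env84`, the ratio first. -/
theorem envK16 (h : In μ s c C n₀) : ∃ K₀ : ℕ, 2 ≤ K₀ ∧ ∀ P : ℕ, ∃ (D' : ℝ) (n₁ : ℕ), 1 ≤ D' ∧ 1 ≤ n₁ ∧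
    ∀ {cc c₂ κ' S₀ r q₀ θ : ℝ} {T : ℕ → ℕ} {q : ℕ → ℝ} {ℓ : ℕ → ℤ → ℝ} {k : ℕ → ℤ → ℤ → ℝ} {B : ℕ → Finset ℤ} {u i M : ℕ},
    0 ≤ cc → 0 ≤ c₂ → 0 ≤ S₀ → 0 ≤ q₀ → 1 ≤ θ → n₁ ≤ T u → (∀ v, u ≤ v → v < u + (i + 1) → K₀ * T v ≤ T (v + 1)) → u + (i + 2) ≤ M →
    Sys84 μ s P cc c₂ κ' S₀ r T q ℓ k B u M → (∀ v, u ≤ v → v < u + (i + 2) → q v ≤ q₀ * θ ^ (v - u)) →
    ∃ e s' : ℕ → ℝ, Env' P cc c₂ (EE μ s (T (u + (i + 1)))) (wd μ s (T (u + (i + 1)))) q (fun v => EE μ s (T v)) (fun v => wd μ s (T v))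
      e s' ℓ k B u (u + (i + 2)) ∧ ∑ v ∈ Finset.Ico u (u + (i + 2)), e v ≤ q₀ * D' * θ ^ (i + 1) ∧
      ∑ v ∈ Finset.Ico u (u + (i + 2)), s' v ≤ S₀ * D' := by
  obtain ⟨K₀, n₃, hK2, hn3, hK⟩ := scale_num h
  refine ⟨K₀, hK2, fun P => ?_⟩
  obtain ⟨D, r₀, n₂, hD1, hr0, hr1, hn2, hD⟩ := gr_num h P
  have h1r : 0 < 1 - r₀ := by linarith
  have hinv : 1 ≤ 1 / (1 - r₀) := by
    rw [le_div_iff₀ h1r]
    linarith
  refine ⟨D * (1 / (1 - r₀)), max n₂ n₃, one_le_mul_of_one_le_of_one_le hD1 hinv, hn2.trans (le_max_left _ _), ?_⟩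
  intro cc c₂ κ' S₀ r q₀ θ T q ℓ k B u i M hcc hc₂ hS₀ hq₀ hθ hT0 hT hM hsys hq
  have g2 : n₂ ≤ T u := (le_max_left _ _).trans hT0
  have g3 : n₃ ≤ T u := (le_max_right _ _).trans hT0
  have hK1 : 1 ≤ K₀ := by omega
  -- the scales
  have hmon : ∀ j, j ≤ i + 1 → T u ≤ T (u + j) := by
    intro j
    induction j with
    | zero => intro _; exact le_rfl
    | succ j ih =>
      intro hj
      have h1 := hT (u + j) (by omega) (by omega)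
      rw [show u + (j + 1) = u + j + 1 by omega]
      exact (ih (by omega)).trans ((Nat.le_mul_of_pos_left _ hK1).trans h1)
  have hmon' : ∀ v, u ≤ v → v ≤ u + (i + 1) → T u ≤ T v := by
    intro v hv hv'
    have := hmon (v - u) (by omega)
    rwa [show u + (v - u) = v by omega] at this
  have hpow : ∀ j v, u ≤ v → v + j = u + (i + 1) → K₀ ^ j * T v ≤ T (u + (i + 1)) := by
    intro j
    induction j with
    | zero =>
      intro v _ hv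
      rw [pow_zero, one_mul, show v = u + (i + 1) by omega]
    | succ j ih =>
      intro v hv hvj
      have h1 := ih (v + 1) (by omega) (by omega)
      have h2 := hT v hv (by omega)
      calc K₀ ^ (j + 1) * T v = K₀ ^ j * (K₀ * T v) := by rw [pow_succ]; ring
        _ ≤ K₀ ^ j * T (v + 1) := Nat.mul_le_mul_left _ h2
        _ ≤ _ := h1
  have hK' : ∀ v, u ≤ v → v < u + (i + 1) → K₀ * T v ≤ T (u + (i + 1)) := by
    intro v hv hv'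
    have h1 := hpow (u + (i + 1) - v) v hv (by omega)
    have h2 : K₀ ≤ K₀ ^ (u + (i + 1) - v) := Nat.le_self_pow (by omega) K₀
    exact (Nat.mul_le_mul_right _ h2).trans h1
  have hwle : ∀ v, u ≤ v → v < u + (i + 2) → wd μ s (T v) ≤ wd μ s (T (u + (i + 1))) := by
    intro v hv hv'
    rcases Nat.lt_or_ge v (u + (i + 1)) with h1 | h1
    · exact (hK (T v) _ (g3.trans (hmon' v hv h1.le)) (hK' v hv h1)).1
    · rw [show v = u + (i + 1) by omega]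
  have hslope : ∀ v, u ≤ v → v < u + (i + 2) → EE μ s (T (u + (i + 1))) / wd μ s (T (u + (i + 1))) ≤ EE μ s (T v) / wd μ s (T v) := by
    intro v hv hv'
    rcases Nat.lt_or_ge v (u + (i + 1)) with h1 | h1
    · exact (hK (T v) _ (g3.trans (hmon' v hv h1.le)) (hK' v hv h1)).2
    · rw [show v = u + (i + 1) by omega]
  have hnum : ∀ v, u ≤ v → v < u + (i + 2) → gr P (wd μ s (T (u + (i + 1))) / wd μ s (T v) - 1) * EE μ s (T v) ≤
      D * r₀ ^ (u + (i + 1) - v) * EE μ s (T (u + (i + 1))) := by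
    intro v hv hv'
    refine hD (T v) _ (u + (i + 1) - v) (g2.trans (hmon' v hv (by omega))) ?_ (hwle v hv hv')
    exact (Nat.mul_le_mul_right _ (Nat.pow_le_pow_left hK2 _)).trans (hpow (u + (i + 1) - v) v hv (by omega))
  have hw0 : ∀ v, u ≤ v → v < u + (i + 2) → 0 < wd μ s (T v) := fun v hv hv' =>
    h.wd_pos ((hn2.trans g2).trans (hmon' v hv (by omega)))
  have hEt := EE_pos (μ := μ) (s := s) (T (u + (i + 1)))
  have hsum : ∑ v ∈ Finset.Ico u (u + (i + 2)), r₀ ^ (u + (i + 1) - v) ≤ 1 / (1 - r₀) := by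
    have h1 := geo_sum hr0.le hr1 u (i + 1)
    rwa [show u + (i + 1) + 1 = u + (i + 2) by omega] at h1
  refine ⟨fun v => q v * (D * r₀ ^ (u + (i + 1) - v)), fun v => S₀ * (D * r₀ ^ (u + (i + 1) - v)), ?_, ?_, ?_⟩
  · refine ⟨hc₂, hsys.q0, hEt, hw0 _ (by omega) (by omega), hw0, fun v => mul_nonneg (hsys.q0 v) (by positivity),
      fun v => mul_nonneg hS₀ (by positivity), fun v _ _ => (EE_pos _).le, hwle, hslope, fun v hv hv' => ?_, hsys.k0,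
      fun v hv hv' => hsys.up v hv (by omega), fun v hv hv' x => ?_⟩
    · have h1 := mul_le_mul_of_nonneg_left (hnum v hv hv') (hsys.q0 v)
      rw [← mul_assoc, ← mul_assoc] at h1
      exact h1
    · refine (hsys.sum v hv (by omega) x).trans (Real.exp_le_exp.2 ?_)
      have h1 : (0 : ℝ) ≤ wd μ s (T (u + (i + 1))) / wd μ s (T v) - 1 := by
        rw [sub_nonneg, one_le_div (hw0 v hv hv')]
        exact hwle v hv hv'
      have h2 : EE μ s (T v) ≤ gr P (wd μ s (T (u + (i + 1))) / wd μ s (T v) - 1) * EE μ s (T v) :=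
        le_mul_of_one_le_left (EE_pos _).le (gr_one_le P h1)
      have h3 := mul_le_mul_of_nonneg_left (h2.trans (hnum v hv hv')) hS₀
      rw [← mul_assoc] at h3
      exact h3
  · have h1 : ∀ v ∈ Finset.Ico u (u + (i + 2)), q v * (D * r₀ ^ (u + (i + 1) - v)) ≤ q₀ * θ ^ (i + 1) * D * r₀ ^ (u + (i + 1) - v) := by
      intro v hv
      rw [Finset.mem_Ico] at hv
      have h2 : q v ≤ q₀ * θ ^ (i + 1) :=
        (hq v hv.1 hv.2).trans (mul_le_mul_of_nonneg_left (pow_le_pow_right₀ hθ (by omega)) hq₀)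
      have h3 := mul_le_mul_of_nonneg_right h2 (show 0 ≤ D * r₀ ^ (u + (i + 1) - v) by positivity)
      refine h3.trans (le_of_eq (by ring))
    refine (Finset.sum_le_sum h1).trans ?_
    rw [← Finset.mul_sum]
    have h2 := mul_le_mul_of_nonneg_left hsum (show 0 ≤ q₀ * θ ^ (i + 1) * D by positivity)
    refine h2.trans (le_of_eq (by ring))
  · rw [← Finset.mul_sum, ← Finset.mul_sum]
    exact mul_le_mul_of_nonneg_left (mul_le_mul_of_nonneg_left hsum (by linarith)) hS₀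

/-- `lrb_q89`, the ratio first. -/
theorem lrb_qK16 (h : In μ s c C n₀) : ∃ K₀ : ℕ, 2 ≤ K₀ ∧ ∀ (P : ℕ) {cc c₁ c₂ c₃ B₂ : ℝ}, 0 < c₁ → 0 ≤ c₂ → 0 ≤ c₃ → c₁ + c₂ + c₃ ≤ cc →
    2 ≤ B₂ → ∀ κ' K₁ S₀ R Y Bp : ℝ, 2 ≤ κ' → 1 ≤ K₁ → 0 ≤ S₀ → 0 ≤ R → 1 ≤ Y → 2 ≤ Bp → ∀ b : ℕ,
    ∃ (A : ℝ) (j₀ n₁ : ℕ), 0 ≤ A ∧ 1 ≤ n₁ ∧ ∀ q₀ : ℝ, 0 ≤ q₀ → ∀ (T : ℕ → ℕ) (u i j : ℕ) (θ Λ δ : ℝ), 1 ≤ θ → θ ≤ 2 → n₁ ≤ T u →
    (∀ v, u ≤ v → v < u + (i + 2) → K₀ * T v ≤ T (v + 1) ∧ T (v + 1) ≤ b * T v) →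
    (R + K₁ + Y + 1) * (Bp ^ j * wd μ s (T (u + (i + 2)))) ≤ Λ → 2 ^ (j + j₀) * wd μ s (T (u + (i + 1))) ≤ δ * T (u + (i + 1)) →
    ∀ (q : ℕ → ℝ) (ℓ : ℕ → ℤ → ℝ) (k : ℕ → ℤ → ℤ → ℝ) (B : ℕ → Finset ℤ) (Gr : ℕ → ℤ → Prop) (r β : ℝ),
    Sys84 μ s P cc c₂ κ' S₀ r T q ℓ k B u (u + (i + 3)) → Stp89 μ s Bp B₂ Λ δ T q ℓ k B Gr u i →
    (∀ v, u ≤ v → v < u + (i + 3) → q v ≤ q₀ * θ ^ (v - u)) → |r| ≤ R * wd μ s (T u) → (∀ x : ℤ, ℓ u x = x - β) →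
    ∀ (F G : ℤ → ℝ) (Z : Finset ℤ) (x x' : ℤ), (∀ z, 0 ≤ G z) → 0 ≤ F x' →
    |(x : ℝ) - (β + r)| ≤ K₁ * (Bp ^ j * wd μ s (T (u + i))) → |(x' : ℝ) - (β + r)| ≤ K₁ * (Bp ^ j * wd μ s (T (u + i))) →
    |(x : ℝ) - x'| ≤ 2 * K₁ * wd μ s (T (u + i)) →
    (∀ z ∈ Z, z ∈ B (u + (i + 3)) ∧ |ℓ (u + (i + 3)) z - ℓ u x| ≤ Y * 2 ^ j * wd μ s (T (u + (i + 2)))) →
    F x ≤ 2 * ∑ z ∈ Z, cmp k B (i + 3) u x z * G z → ∑ z ∈ Z, cmp k B (i + 3) u x' z * G z ≤ F x' →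
    F x ≤ Real.exp (A * (1 + q₀) ^ 2 * (B₂ ^ j * θ ^ (2 * i) * EE μ s (T (u + i)))) * F x' := by
  obtain ⟨K₀, hK2, henv⟩ := envK16 h
  refine ⟨K₀, hK2, ?_⟩
  intro P cc c₁ c₂ c₃ B₂ hc₁ hc₂ hc₃ hcc hB₂ κ' K₁ S₀ R Y Bp hκ' hK₁ hS₀ hR hY hBp b
  obtain ⟨D', n₂, hD1, hn2, henv⟩ := henv P
  have hCL := CL_pos P hc₁
  have hD0 : 0 < D' := by linarith
  have hκ'0 : 0 < κ' := by linarith
  obtain ⟨Bw, n₃, hBw2, hn3, hBw⟩ := wd_next h b
  obtain ⟨Cg, hCg1, hCg⟩ := gr_exp P (a := R + K₁ + Y + 1 + κ') (b := Bp) (by linarith) (by linarith)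
  obtain ⟨j₀, hj1, hj₀⟩ : ∃ j₀ : ℕ, 1 ≤ j₀ ∧ 2 + Y * Bw + 2 * K₁ + R ≤ 2 ^ j₀ := by
    obtain ⟨N, hN⟩ := exists_nat_ge (2 + Y * Bw + 2 * K₁ + R)
    refine ⟨N + 1, by omega, (hN.trans (by exact_mod_cast Nat.lt_two_pow_self.le)).trans (pow_le_pow_right₀ (by norm_num) (Nat.le_succ N))⟩
  have hB₂00 : 0 < B₂ := by linarith
  obtain ⟨A₃₀, hA₃₀⟩ : ∃ A₃₀ : ℝ, A₃₀ = CL P c₁ * (1 + 4 * D') ^ 2 * Cg + S₀ * D' + 4 * D' * Cg := ⟨_, rfl⟩
  obtain ⟨A₄₀, hA₄₀⟩ : ∃ A₄₀ : ℝ, A₄₀ = 2 * B₂ ^ j₀ := ⟨_, rfl⟩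
  have hA₃₀0 : 0 ≤ A₃₀ := by rw [hA₃₀]; positivity
  have hA₄₀0 : 0 ≤ A₄₀ := by rw [hA₄₀]; positivity
  refine ⟨A₃₀ * (2 * b * (2 * b)) + A₄₀ * (2 * b) + 1, j₀, max n₂ n₃, by positivity, hn2.trans (le_max_left _ _), fun q₀ hq₀ => ?_⟩
  -- the constants
  obtain ⟨A₂, hA₂⟩ : ∃ A₂ : ℝ, A₂ = CL P c₁ * (1 + 4 * q₀ * D') ^ 2 := ⟨_, rfl⟩
  have hA20 : 0 < A₂ := by rw [hA₂]; positivity
  obtain ⟨A₃, hA₃⟩ : ∃ A₃ : ℝ, A₃ = A₂ * Cg + S₀ * D' + 4 * q₀ * D' * Cg := ⟨_, rfl⟩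
  have hA30 : 0 ≤ A₃ := by rw [hA₃]; positivity
  have hB₂0 : 0 < B₂ := by linarith
  obtain ⟨A₄, hA₄⟩ : ∃ A₄ : ℝ, A₄ = 2 * q₀ * B₂ ^ j₀ := ⟨_, rfl⟩
  have hA40 : 0 ≤ A₄ := by rw [hA₄]; positivity
  have hAA : A₃ * (2 * b * (2 * b)) + A₄ * (2 * b) + 1 ≤ (A₃₀ * (2 * b * (2 * b)) + A₄₀ * (2 * b) + 1) * (1 + q₀) ^ 2 := by
    have hq1 : 1 ≤ (1 + q₀) ^ 2 := one_le_pow₀ (by linarith)
    have hq2 : q₀ ≤ (1 + q₀) ^ 2 := by nlinarith only [hq₀]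
    have e1 : A₃ ≤ A₃₀ * (1 + q₀) ^ 2 := by
      have f1 : (1 + 4 * q₀ * D') ^ 2 ≤ (1 + 4 * D') ^ 2 * (1 + q₀) ^ 2 := q_sq89 (by positivity) hq₀ (by ring)
      obtain ⟨U, hU⟩ : ∃ U, U = (1 + q₀) ^ 2 := ⟨_, rfl⟩
      obtain ⟨V, hV⟩ : ∃ V, V = (1 + 4 * q₀ * D') ^ 2 := ⟨_, rfl⟩
      obtain ⟨V', hV'⟩ : ∃ V', V' = (1 + 4 * D') ^ 2 := ⟨_, rfl⟩
      rw [← hU] at hq1 hq2
      rw [← hU, ← hV, ← hV'] at f1
      rw [hA₃, hA₂, hA₃₀, ← hU, ← hV, ← hV']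
      have f2 := mul_le_mul_of_nonneg_left f1 (show 0 ≤ CL P c₁ * Cg by positivity)
      have f3 := mul_le_mul_of_nonneg_left hq1 (show 0 ≤ S₀ * D' by positivity)
      have f4 := mul_le_mul_of_nonneg_left hq2 (show 0 ≤ 4 * D' * Cg by positivity)
      calc CL P c₁ * V * Cg + S₀ * D' + 4 * q₀ * D' * Cg =
          CL P c₁ * Cg * V + S₀ * D' * 1 + 4 * D' * Cg * q₀ := by ring
        _ ≤ CL P c₁ * Cg * (V' * U) + S₀ * D' * U + 4 * D' * Cg * U := add_le_add (add_le_add f2 f3) f4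
        _ = _ := by ring
    have e2 : A₄ ≤ A₄₀ * (1 + q₀) ^ 2 := by
      have f4 := mul_le_mul_of_nonneg_left hq2 (show 0 ≤ 2 * B₂ ^ j₀ by positivity)
      rw [hA₄, hA₄₀]
      linarith
    have e3 := mul_le_mul_of_nonneg_right e1 (show (0 : ℝ) ≤ 2 * b * (2 * b) by positivity)
    have e4 := mul_le_mul_of_nonneg_right e2 (show (0 : ℝ) ≤ 2 * b by positivity)
    linarith
  intro T u i j θ Λ δ hθ hθ2 hT0 hT hΛ hcone q ℓ k B Gr r β hsys hstp hq hr hℓ F G Z x x' hG hF0 hx hx' hxx hZ hF hF'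
  have g2 : n₂ ≤ T u := (le_max_left _ _).trans hT0
  have g3 : n₃ ≤ T u := (le_max_right _ _).trans hT0
  have hTu1 : 1 ≤ T u := hn2.trans g2
  have hK1 : 1 ≤ K₀ := by omega
  have hmon1 : ∀ v, u ≤ v → v < u + (i + 2) → T v ≤ T (v + 1) := fun v hv hv' =>
    (Nat.le_mul_of_pos_left _ hK1).trans (hT v hv hv').1
  have hmon : ∀ a, a ≤ i + 2 → T u ≤ T (u + a) := by
    intro a
    induction a with
    | zero => intro _; exact le_rfl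
    | succ a ih =>
      intro ha
      rw [show u + (a + 1) = u + a + 1 by omega]
      exact (ih (by omega)).trans (hmon1 (u + a) (by omega) (by omega))
  -- the envelope
  obtain ⟨e, s', hE, he, hs⟩ := henv (cc := cc) (c₂ := c₂) (κ' := κ') (S₀ := S₀) (r := r) (q₀ := q₀) (θ := θ) (T := T) (q := q)
    (ℓ := ℓ) (k := k) (B := B) (u := u) (i := i + 1) (M := u + (i + 3)) (by linarith) hc₂ hS₀ hq₀ hθ g2
    (fun v hv hv' => (hT v hv (by omega)).1) (by omega) hsys (fun v hv hv' => hq v hv (by omega))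
  rw [show i + 1 + 1 = i + 2 by omega, show i + 1 + 2 = i + 3 by omega] at hE
  rw [show i + 1 + 2 = i + 3 by omega, show i + 1 + 1 = i + 2 by omega] at he
  rw [show i + 1 + 2 = i + 3 by omega] at hs
  obtain ⟨wt, hwt⟩ : ∃ wt, wt = wd μ s (T (u + (i + 2))) := ⟨_, rfl⟩
  obtain ⟨Et, hEt⟩ : ∃ Et, Et = EE μ s (T (u + (i + 2))) := ⟨_, rfl⟩
  obtain ⟨wv, hwv⟩ : ∃ wv, wv = wd μ s (T (u + (i + 1))) := ⟨_, rfl⟩
  obtain ⟨Ev, hEv⟩ : ∃ Ev, Ev = EE μ s (T (u + (i + 1))) := ⟨_, rfl⟩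
  obtain ⟨wi, hwi⟩ : ∃ wi, wi = wd μ s (T (u + i)) := ⟨_, rfl⟩
  obtain ⟨Ei, hEi⟩ : ∃ Ei, Ei = EE μ s (T (u + i)) := ⟨_, rfl⟩
  rw [← hwt, ← hEt] at hE
  have hwt0 : 0 < wt := hE.wt0
  have hEt0 : 0 < Et := hE.Et0
  have hw2 : ∀ v, u ≤ v → v < u + (i + 3) → 2 ≤ wd μ s (T v) := by
    intro v hv hv'
    have h1 : T u ≤ T v := by
      have := hmon (v - u) (by omega)
      rwa [show u + (v - u) = v by omega] at this
    have h2 := wd_ge_one h (hTu1.trans h1)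
    have h3 := one_le_EE (μ := μ) (s := s) (T v)
    linarith
  have hwi2 : 2 ≤ wi := by rw [hwi]; exact hw2 _ (by omega) (by omega)
  have hwv2 : 2 ≤ wv := by rw [hwv]; exact hw2 _ (by omega) (by omega)
  have hEi1 : 1 ≤ Ei := by rw [hEi]; exact one_le_EE _
  have hEv0 : 0 < Ev := by rw [hEv]; exact EE_pos _
  have hwvt : wv ≤ wt := by
    rw [hwv]
    exact hE.wle _ (by omega) (by omega)
  have hwit : wi ≤ wt := by
    rw [hwi]
    exact hE.wle _ (by omega) (by omega)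
  have hwut : wd μ s (T u) ≤ wt := hE.wle u le_rfl (by omega)
  have hwuv : wd μ s (T u) ≤ wv ∧ wi ≤ wv := by
    obtain ⟨e', s'', hE', -, -⟩ := henv (cc := cc) (c₂ := c₂) (κ' := κ') (S₀ := S₀) (r := r) (q₀ := q₀) (θ := θ) (T := T) (q := q)
      (ℓ := ℓ) (k := k) (B := B) (u := u) (i := i) (M := u + (i + 3)) (by linarith) hc₂ hS₀ hq₀ hθ g2
      (fun v hv hv' => (hT v hv (by omega)).1) (by omega) hsys (fun v hv hv' => hq v hv (by omega))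
    rw [hwv, hwi]
    exact ⟨hE'.wle u le_rfl (by omega), hE'.wle (u + i) (by omega) (by omega)⟩
  obtain ⟨hwuv, hwiv⟩ := hwuv
  have hBj1 : 1 ≤ Bp ^ j := one_le_pow₀ (by linarith)
  have h2j1 : (1 : ℝ) ≤ 2 ^ j := one_le_pow₀ (by norm_num)
  have h2Bw : (2 : ℝ) ^ j ≤ Bp ^ j := pow_le_pow_left₀ (by norm_num) hBp j
  have hwi0 : 0 ≤ wi := by linarith
  -- lateral positions
  have hrw : |r| ≤ R * wi := by
    refine hr.trans (mul_le_mul_of_nonneg_left ?_ hR)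
    have : wd μ s (T u) ≤ wi := by
      rcases Nat.eq_zero_or_pos i with h0 | h0
      · rw [hwi, h0, add_zero]
      · obtain ⟨e', s'', hE', -, -⟩ := henv (cc := cc) (c₂ := c₂) (κ' := κ') (S₀ := S₀) (r := r) (q₀ := q₀) (θ := θ) (T := T) (q := q)
          (ℓ := ℓ) (k := k) (B := B) (u := u) (i := i - 1) (M := u + (i + 3)) (by linarith) hc₂ hS₀ hq₀ hθ g2
          (fun v hv hv' => (hT v hv (by omega)).1) (by omega) hsys (fun v hv hv' => hq v hv (by omega))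
        rw [show i - 1 + 1 = i by omega] at hE'
        rw [hwi]
        exact hE'.wle u le_rfl (by omega)
    exact this
  have hlat : ∀ y : ℤ, |(y : ℝ) - (β + r)| ≤ K₁ * (Bp ^ j * wi) → |ℓ u y| ≤ (R + K₁) * (Bp ^ j * wi) := by
    intro y hy
    rw [hℓ]
    have h1 := abs_add_le ((y : ℝ) - (β + r)) r
    rw [show (y : ℝ) - (β + r) + r = y - β by ring] at h1
    have h3 : R * wi ≤ R * (Bp ^ j * wi) := mul_le_mul_of_nonneg_left (le_mul_of_one_le_left hwi0 hBj1) hR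
    linarith
  rw [← hwi] at hx hx'
  have hlx := hlat x hx
  have hlx' := hlat x' hx'
  have hll : ℓ u x - ℓ u x' = x - x' := by rw [hℓ, hℓ]; ring
  rw [← hwt] at hZ hΛ
  have hRK : 0 ≤ R + K₁ := by linarith
  have hBit : Bp ^ j * wi ≤ Bp ^ j * wt := mul_le_mul_of_nonneg_left hwit (by positivity)
  have hΛ1 : (R + K₁) * (Bp ^ j * wi) ≤ Λ := by
    refine le_trans ?_ hΛ
    exact mul_le_mul (by linarith) hBit (by positivity) (by linarith)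
  have hY0 : 0 ≤ Y := by linarith
  have hθi : 1 ≤ θ ^ i := one_le_pow₀ hθ
  have hθi0 : 0 < θ ^ i := by linarith
  have hθ2i : θ ^ (2 * i) = θ ^ i * θ ^ i := by rw [two_mul, pow_add]
  have hθθ : θ ^ i ≤ θ ^ (2 * i) := by
    rw [hθ2i]
    exact le_mul_of_one_le_left hθi0.le hθi
  have h2B : (2 : ℝ) ^ j ≤ B₂ ^ j := pow_le_pow_left₀ (by norm_num) hB₂ j
  have hB2j1 : 1 ≤ B₂ ^ j := h2j1.trans h2B
  have hQt : q₀ * D' * θ ^ (i + 2) ≤ 4 * q₀ * D' * θ ^ i := by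
    rw [pow_add]
    have h1 : θ ^ 2 ≤ 4 := by nlinarith only [hθ, hθ2]
    have h2 : 0 ≤ q₀ * D' * θ ^ i := by positivity
    have := mul_le_mul_of_nonneg_left h1 h2
    linarith
  have hQt0 : 0 ≤ q₀ * D' * θ ^ (i + 2) := by positivity
  have hgx : ∀ X : ℝ, 0 ≤ X → X ≤ (R + K₁ + Y + 1 + κ') * (Bp ^ j * wt) → gr P (X / wt) ≤ Cg * 2 ^ j := by
    intro X hX0 hX
    refine hCg j (X / wt) (by positivity) ?_
    rw [div_le_iff₀ hwt0, mul_assoc]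
    exact hX
  have hBwt : Bp ^ j * wi ≤ Bp ^ j * wt := hBit
  have hwtB : wt ≤ Bp ^ j * wt := le_mul_of_one_le_left hwt0.le hBj1
  obtain ⟨W, hW⟩ : ∃ W, W = Bp ^ j * wt := ⟨_, rfl⟩
  rw [← hW] at hBwt hwtB hgx hΛ
  have hW0 : 0 ≤ W := by linarith
  have hlxW := hlx.trans (mul_le_mul_of_nonneg_left hBwt hRK)
  have hlxW' := hlx'.trans (mul_le_mul_of_nonneg_left hBwt hRK)
  have hzlat : ∀ z ∈ Z, |ℓ (u + (i + 3)) z| ≤ |ℓ u x| + Y * 2 ^ j * wt := by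
    intro z hz
    have h1 := (hZ z hz).2
    have h2 := abs_add_le (ℓ (u + (i + 3)) z - ℓ u x) (ℓ u x)
    rw [sub_add_cancel] at h2
    linarith
  have hYW : Y * 2 ^ j * wt ≤ Y * W := by
    rw [hW, mul_assoc]
    exact mul_le_mul_of_nonneg_left (mul_le_mul_of_nonneg_right h2Bw hwt0.le) hY0
  -- the grid points
  have hgrid1 := hstp.grid (ℓ u x') (hlx'.trans hΛ1) (u + i) (by omega) (by omega)
  obtain ⟨p₁, hp₁, hG₁, hd₁⟩ := hgrid1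
  rw [← hwi] at hd₁
  have hfin := lr_env (u := u) (m := i) hE (κ := κ') (c₁ := c₁) (c₃ := c₃) (Q := q₀ * D' * θ ^ (i + 2)) (S := S₀ * D') (Pa := 2)
    (g := Cg * 2 ^ j) (st := q (u + (i + 1)) * B₂ ^ (j + j₀) * Ev) hc₁ hc₃ hcc he hs (by linarith) hw2
    (fun v hv hv' => hsys.low v hv (by omega)) (F := F) (G := G) hG (Z := Z) (by norm_num) (x := x) (x' := x') hF hF'
    (fun v hv hv' => hstp.line (ℓ u x') (hlx'.trans hΛ1) v hv (by omega)) ?_ ?_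
  · rw [← hEi]
    refine hfin.trans (mul_le_mul_of_nonneg_right ?_ hF0)
    have hLQ : LQ P c₁ (q₀ * D' * θ ^ (i + 2)) ≤ A₂ * θ ^ (2 * i) := by
      refine (lq_le P hc₁ hQt0).trans ?_
      rw [hA₂, hθ2i]
      have h1 : 1 + q₀ * D' * θ ^ (i + 2) ≤ (1 + 4 * q₀ * D') * θ ^ i := by linarith
      have h2 := pow_le_pow_left₀ (by positivity) h1 2
      have h3 := mul_le_mul_of_nonneg_left h2 hCL.le
      linarith [show CL P c₁ * ((1 + 4 * q₀ * D') * θ ^ i) ^ 2 = CL P c₁ * (1 + 4 * q₀ * D') ^ 2 * (θ ^ i * θ ^ i) by ring]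
    have hgrx : gr P (|ℓ u x| / wt) ≤ Cg * 2 ^ j := by
      refine hgx _ (abs_nonneg _) ?_
      have h3 : 0 ≤ (Y + 1 + κ') * W := by positivity
      linarith
    obtain ⟨X, hX⟩ : ∃ X, X = B₂ ^ j * θ ^ (2 * i) := ⟨_, rfl⟩
    have hθ2i0 : 0 < θ ^ (2 * i) := by positivity
    have hX1 : 1 ≤ X := by
      rw [hX]
      exact one_le_mul_of_one_le_of_one_le hB2j1 (hθi.trans hθθ)
    have k1 : LQ P c₁ (q₀ * D' * θ ^ (i + 2)) * gr P (|ℓ u x| / wt) ≤ A₂ * Cg * X := by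
      calc LQ P c₁ (q₀ * D' * θ ^ (i + 2)) * gr P (|ℓ u x| / wt) ≤ (A₂ * θ ^ (2 * i)) * (Cg * 2 ^ j) :=
            mul_le_mul hLQ hgrx (gr_nonneg P (by positivity)) (by positivity)
        _ = A₂ * Cg * (2 ^ j * θ ^ (2 * i)) := by ring
        _ ≤ A₂ * Cg * X := by
          rw [hX]
          exact mul_le_mul_of_nonneg_left (mul_le_mul_of_nonneg_right h2B hθ2i0.le) (by positivity)
    have k2 : S₀ * D' ≤ S₀ * D' * X := le_mul_of_one_le_right (by positivity) hX1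
    have k3 : q₀ * D' * θ ^ (i + 2) * (Cg * 2 ^ j) ≤ 4 * q₀ * D' * Cg * X := by
      calc q₀ * D' * θ ^ (i + 2) * (Cg * 2 ^ j) ≤ (4 * q₀ * D' * θ ^ (2 * i)) * (Cg * 2 ^ j) := by
            refine mul_le_mul_of_nonneg_right (hQt.trans ?_) (by positivity)
            exact mul_le_mul_of_nonneg_left hθθ (by positivity)
        _ = 4 * q₀ * D' * Cg * (2 ^ j * θ ^ (2 * i)) := by ring
        _ ≤ _ := by
          rw [hX]
          exact mul_le_mul_of_nonneg_left (mul_le_mul_of_nonneg_right h2B hθ2i0.le) (by positivity)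
    have hscale : ∀ v, u ≤ v → v < u + (i + 2) → EE μ s (T (v + 1)) ≤ 2 * b * EE μ s (T v) := by
      intro v hv hv'
      have h0 : T u ≤ T v := by
        have := hmon (v - u) (by omega)
        rwa [show u + (v - u) = v by omega] at this
      have h3 := scale_b h (hTu1.trans h0) (hmon1 v hv hv')
      have hTi : (0 : ℝ) < T v := by exact_mod_cast hTu1.trans h0
      have h4 : (T (v + 1) : ℝ) ≤ b * T v := by exact_mod_cast (hT v hv hv').2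
      have hEi := EE_pos (μ := μ) (s := s) (T v)
      have h5 : (T v : ℝ) * EE μ s (T (v + 1)) ≤ T v * (2 * b * EE μ s (T v)) := by
        have h6 := mul_le_mul_of_nonneg_right h4 hEi.le
        linarith
      exact le_of_mul_le_mul_left h5 hTi
    have kE1 : Ev ≤ 2 * b * Ei := by
      rw [hEv, hEi]
      exact hscale (u + i) (by omega) (by omega)
    have kE2 : Et ≤ 2 * b * Ev := by
      rw [hEv, hEt]
      exact hscale (u + (i + 1)) (by omega) (by omega)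
    have kE3 : Et ≤ 2 * b * (2 * b) * Ei := by
      have := mul_le_mul_of_nonneg_left kE1 (show (0 : ℝ) ≤ 2 * b by positivity)
      linarith
    have k4 : (LQ P c₁ (q₀ * D' * θ ^ (i + 2)) * gr P (|ℓ u x| / wt) + S₀ * D' + q₀ * D' * θ ^ (i + 2) * (Cg * 2 ^ j)) * Et ≤
        A₃ * (2 * b * (2 * b)) * (X * Ei) := by
      have h1 : LQ P c₁ (q₀ * D' * θ ^ (i + 2)) * gr P (|ℓ u x| / wt) + S₀ * D' + q₀ * D' * θ ^ (i + 2) * (Cg * 2 ^ j) ≤ A₃ * X := by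
        rw [hA₃]
        linarith [show (A₂ * Cg + S₀ * D' + 4 * q₀ * D' * Cg) * X = A₂ * Cg * X + S₀ * D' * X + 4 * q₀ * D' * Cg * X by ring]
      calc _ ≤ A₃ * X * Et := mul_le_mul_of_nonneg_right h1 hEt0.le
        _ ≤ A₃ * X * (2 * b * (2 * b) * Ei) := mul_le_mul_of_nonneg_left kE3 (by positivity)
        _ = _ := by ring
    have k5 : q (u + (i + 1)) * B₂ ^ (j + j₀) * Ev ≤ A₄ * (2 * b) * (X * Ei) := by
      have h1 : q (u + (i + 1)) ≤ 2 * q₀ * θ ^ (2 * i) := by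
        have h2 := hq (u + (i + 1)) (by omega) (by omega)
        rw [show u + (i + 1) - u = i + 1 by omega, pow_succ] at h2
        have h3 : q₀ * (θ ^ i * θ) ≤ q₀ * (θ ^ (2 * i) * 2) :=
          mul_le_mul_of_nonneg_left (mul_le_mul hθθ hθ2 (by linarith) hθ2i0.le) hq₀
        linarith
      have h2 : q (u + (i + 1)) * B₂ ^ (j + j₀) ≤ A₄ * X := by
        calc q (u + (i + 1)) * B₂ ^ (j + j₀) ≤ (2 * q₀ * θ ^ (2 * i)) * B₂ ^ (j + j₀) :=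
              mul_le_mul_of_nonneg_right h1 (by positivity)
          _ = A₄ * X := by rw [hA₄, hX, pow_add]; ring
      calc q (u + (i + 1)) * B₂ ^ (j + j₀) * Ev ≤ A₄ * X * Ev := mul_le_mul_of_nonneg_right h2 hEv0.le
        _ ≤ A₄ * X * (2 * b * Ei) := mul_le_mul_of_nonneg_left kE1 (by positivity)
        _ = _ := by ring
    have k6 : (2 : ℝ) ≤ Real.exp (X * Ei) := by
      have h5 : 1 ≤ X * Ei := one_le_mul_of_one_le_of_one_le hX1 hEi1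
      have h6 := Real.add_one_le_exp (X * Ei)
      linarith
    rw [← hX]
    calc 2 * Real.exp ((LQ P c₁ (q₀ * D' * θ ^ (i + 2)) * gr P (|ℓ u x| / wt) + S₀ * D' + q₀ * D' * θ ^ (i + 2) * (Cg * 2 ^ j)) * Et +
          q (u + (i + 1)) * B₂ ^ (j + j₀) * Ev) ≤
        Real.exp (X * Ei) * Real.exp (A₃ * (2 * b * (2 * b)) * (X * Ei) + A₄ * (2 * b) * (X * Ei)) :=
          mul_le_mul k6 (Real.exp_le_exp.2 (add_le_add k4 k5)) (Real.exp_pos _).le (Real.exp_pos _).le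
      _ = Real.exp ((A₃ * (2 * b * (2 * b)) + A₄ * (2 * b) + 1) * (X * Ei)) := by
        rw [← Real.exp_add]
        congr 1
        ring
      _ ≤ _ := Real.exp_le_exp.2 (mul_le_mul_of_nonneg_right hAA (by positivity))
  · have h1 : |ℓ u x'| / wt + κ' = (|ℓ u x'| + κ' * wt) / wt := by field_simp
    rw [h1]
    refine hgx _ (by positivity) ?_
    have h2 := mul_le_mul_of_nonneg_left hwtB hκ'0.le
    have h3 : 0 ≤ (Y + 1) * W := by positivity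
    linarith
  · intro z hz
    refine ⟨(hZ z hz).1, p₁, hp₁, ?_⟩
    have hz1 := hzlat z hz
    obtain ⟨p₂, hp₂, hG₂, hd₂⟩ := hstp.grid (ℓ (u + (i + 3)) z) (by
      refine hz1.trans (le_trans ?_ hΛ)
      linarith [show (R + K₁ + Y + 1) * W = (R + K₁) * W + Y * W + W by ring])
      (u + (i + 1)) (by omega) (by omega)
    rw [← hwv] at hd₂
    refine ⟨p₂, hp₂, ?_, ?_, ?_, ?_⟩
    · rw [← hwi]
      have h1 := mul_le_mul_of_nonneg_right hκ' hwi0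
      have h2 : |ℓ (u + (i + 1)) p₁ - ℓ u x'| ≤ wi := hd₁
      linarith
    · have hst := hstp.steep (j + j₀) (by omega) p₁ hp₁ p₂ hp₂ hG₁ hG₂ ?_ ?_ hcone
      · rw [← hEv] at hst
        exact hst
      · rw [← hwv]
        have h1 : |ℓ (u + (i + 1)) p₁ - ℓ u x'| ≤ wi := hd₁
        have h2 := abs_add_le (ℓ (u + (i + 1)) p₁ - ℓ u x') (ℓ u x')
        rw [sub_add_cancel] at h2
        have h3 : Bp ^ j * wi ≤ Bp ^ j * wv := mul_le_mul_of_nonneg_left hwiv (by positivity)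
        have h4 : wi ≤ Bp ^ j * wv := hwiv.trans (le_mul_of_one_le_left (by linarith) hBj1)
        have h5 := mul_le_mul_of_nonneg_left h3 hRK
        have h6 : (R + K₁ + 1) * (Bp ^ j * wv) ≤ Bp ^ j₀ * (Bp ^ j * wv) := by
          have a1 : R + K₁ + 1 ≤ Bp ^ j₀ := by
            have a2 : (2 : ℝ) ^ j₀ ≤ Bp ^ j₀ := pow_le_pow_left₀ (by norm_num) hBp j₀
            have a3 : 0 ≤ Y * Bw := by positivity
            linarith
          exact mul_le_mul_of_nonneg_right a1 (by positivity)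
        rw [pow_add]
        linarith [show Bp ^ j * Bp ^ j₀ * wv = Bp ^ j₀ * (Bp ^ j * wv) by ring]
      · rw [← hwv]
        have h1 : |ℓ (u + (i + 1)) p₁ - ℓ u x'| ≤ wi := hd₁
        have h3 : |ℓ (u + (i + 2)) p₂ - ℓ (u + (i + 3)) z| ≤ wv := hd₂
        have h5 := (hZ z hz).2
        have h6 : |ℓ u x - ℓ u x'| ≤ 2 * K₁ * wi := by
          rw [hll, hwi]
          exact hxx
        have h7 : wt ≤ Bw * wv := by
          rw [hwt, hwv]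
          exact hBw _ _ (g3.trans (hmon (i + 1) (by omega))) (hmon1 (u + (i + 1)) (by omega) (by omega))
            (hT (u + (i + 1)) (by omega) (by omega)).2
        have t1 := abs_add_le (ℓ (u + (i + 2)) p₂ - ℓ (u + (i + 3)) z) (ℓ (u + (i + 3)) z - ℓ u x)
        rw [sub_add_sub_cancel] at t1
        have t2 := abs_add_le (ℓ (u + (i + 2)) p₂ - ℓ u x) (ℓ u x - ℓ u x')
        rw [sub_add_sub_cancel] at t2
        have t3 := abs_add_le (ℓ (u + (i + 2)) p₂ - ℓ u x') (ℓ u x' - ℓ (u + (i + 1)) p₁)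
        rw [sub_add_sub_cancel, abs_sub_comm (ℓ u x')] at t3
        have h8 : Y * 2 ^ j * wt ≤ (Y * Bw) * (2 ^ j * wv) := by
          calc Y * 2 ^ j * wt ≤ Y * 2 ^ j * (Bw * wv) := mul_le_mul_of_nonneg_left h7 (by positivity)
            _ = _ := by ring
        have hwv0 : 0 ≤ wv := by linarith
        have h9 : wv ≤ 2 ^ j * wv := le_mul_of_one_le_left hwv0 h2j1
        have h10 : 2 * K₁ * wi ≤ 2 * K₁ * (2 ^ j * wv) := mul_le_mul_of_nonneg_left (hwiv.trans h9) (by linarith)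
        have h11 : (2 + Y * Bw + 2 * K₁ + R) * (2 ^ j * wv) ≤ 2 ^ j₀ * (2 ^ j * wv) := mul_le_mul_of_nonneg_right hj₀ (by positivity)
        have h12 : 0 ≤ R * (2 ^ j * wv) := by positivity
        have h13 : |ℓ (u + (i + 1) + 1) p₂ - ℓ (u + (i + 1)) p₁| ≤ 2 ^ j₀ * (2 ^ j * wv) := by
          show |ℓ (u + (i + 2)) p₂ - ℓ (u + (i + 1)) p₁| ≤ 2 ^ j₀ * (2 ^ j * wv)
          linarith [show (2 + Y * Bw + 2 * K₁ + R) * (2 ^ j * wv) = 2 ^ j * wv + 2 ^ j * wv + Y * Bw * (2 ^ j * wv) + 2 * K₁ * (2 ^ j * wv) +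
            R * (2 ^ j * wv) by ring]
        rw [pow_add]
        linarith [show (2 : ℝ) ^ j * 2 ^ j₀ * wv = 2 ^ j₀ * (2 ^ j * wv) by ring]
    · have h3 : |ℓ (u + (i + 2)) p₂ - ℓ (u + (i + 3)) z| ≤ wv := hd₂
      rw [abs_sub_comm, ← hwt]
      have h4 := mul_le_mul_of_nonneg_right hκ' hwt0.le
      linarith
    · refine hgx _ (abs_nonneg _) ?_
      have h3 : |ℓ (u + (i + 2)) p₂ - ℓ (u + (i + 3)) z| ≤ wv := hd₂
      have h4 := abs_add_le (ℓ (u + (i + 2)) p₂ - ℓ (u + (i + 3)) z) (ℓ (u + (i + 3)) z)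
      rw [sub_add_cancel] at h4
      have h5 : 0 ≤ κ' * W := by positivity
      linarith

/-- `ddi_q89`, the ratio first. -/
theorem ddi_qK16 (h : In μ s c C n₀) : ∃ K₀ : ℕ, 2 ≤ K₀ ∧ ∀ (P : ℕ) {cc c₁ c₂ c₃ : ℝ}, 0 < c₁ → 0 ≤ c₂ → 0 ≤ c₃ → c₁ + c₂ + c₃ ≤ cc →
    ∀ κ' K₁ S₀ R Pa : ℝ, 1 ≤ K₁ → K₁ + 1 ≤ κ' → 0 ≤ S₀ → 0 ≤ R → 0 ≤ Pa → ∀ b : ℕ,
    ∃ (A : ℝ) (n₁ : ℕ), 0 ≤ A ∧ 1 ≤ n₁ ∧ ∀ q₀ : ℝ, 0 ≤ q₀ → ∀ (T : ℕ → ℕ) (u i M : ℕ) (θ : ℝ), 1 ≤ θ → θ ≤ 2 → n₁ ≤ T u →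
    (∀ v, u ≤ v → v < u + (i + 1) → K₀ * T v ≤ T (v + 1) ∧ T (v + 1) ≤ b * T v) → u + (i + 2) ≤ M →
    ∀ (q : ℕ → ℝ) (ℓ : ℕ → ℤ → ℝ) (k : ℕ → ℤ → ℤ → ℝ) (B : ℕ → Finset ℤ) (r : ℝ),
    Sys84 μ s P cc c₂ κ' S₀ r T q ℓ k B u M → (∀ v, u ≤ v → v < u + (i + 2) → q v ≤ q₀ * θ ^ (v - u)) →
    |r| ≤ R * wd μ s (T u) →
    ∀ (F G : ℤ → ℝ) (Z : Finset ℤ) (x x' : ℤ), (∀ z, 0 ≤ G z) →
    F x = ∑ z ∈ B (u + (i + 2)), cmp k B (i + 2) u x z * G z → F x' = ∑ z ∈ B (u + (i + 2)), cmp k B (i + 2) u x' z * G z →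
    (∀ z ∈ Z, z ∈ B (u + (i + 2)) ∧ |ℓ (u + (i + 2)) z - r| ≤ κ' * wd μ s (T (u + (i + 1))) - 1) →
    |ℓ u x - r| ≤ K₁ * wd μ s (T (u + i)) → |ℓ u x' - r| ≤ K₁ * wd μ s (T u) →
    F x ≤ Pa * ∑ z ∈ Z, cmp k B (i + 2) u x z * G z →
    F x ≤ Real.exp (A * (1 + q₀) ^ 2 * (θ ^ (2 * i) * EE μ s (T (u + i)))) * F x' := by
  obtain ⟨K₀, hK2, henv⟩ := envK16 h
  refine ⟨K₀, hK2, ?_⟩
  intro P cc c₁ c₂ c₃ hc₁ hc₂ hc₃ hcc κ' K₁ S₀ R Pa hK₁ hκ' hS₀ hR hPa b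
  obtain ⟨D', n₂, hD1, hn2, henv⟩ := henv P
  have hCL := CL_pos P hc₁
  have hD0 : 0 < D' := by linarith
  have hκ'0 : 0 < κ' := by linarith
  have hg1 : 0 ≤ gr P (R + K₁) := gr_nonneg P (by linarith)
  have hg2 : 0 ≤ gr P (R + κ') := gr_nonneg P (by linarith)
  obtain ⟨A₃₀, hA₃₀⟩ : ∃ A₃₀ : ℝ, A₃₀ = CL P c₁ * (1 + 2 * D') ^ 2 * gr P (R + K₁) + S₀ * D' + 2 * D' * gr P (R + κ') := ⟨_, rfl⟩
  have hA₃₀0 : 0 ≤ A₃₀ := by rw [hA₃₀]; positivity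
  refine ⟨2 * b * A₃₀ + Pa, n₂, by positivity, hn2, fun q₀ hq₀ => ?_⟩
  obtain ⟨A₂, hA₂⟩ : ∃ A₂ : ℝ, A₂ = CL P c₁ * (1 + 2 * q₀ * D') ^ 2 := ⟨_, rfl⟩
  have hA20 : 0 < A₂ := by rw [hA₂]; positivity
  obtain ⟨A₃, hA₃⟩ : ∃ A₃ : ℝ, A₃ = A₂ * gr P (R + K₁) + S₀ * D' + 2 * q₀ * D' * gr P (R + κ') := ⟨_, rfl⟩
  have hA30 : 0 ≤ A₃ := by rw [hA₃]; positivity
  have hAA : 2 * b * A₃ + Pa ≤ (2 * b * A₃₀ + Pa) * (1 + q₀) ^ 2 := by
    have hq1 : 1 ≤ (1 + q₀) ^ 2 := one_le_pow₀ (by linarith)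
    have hq2 : q₀ ≤ (1 + q₀) ^ 2 := by nlinarith only [hq₀]
    have e1 : A₃ ≤ A₃₀ * (1 + q₀) ^ 2 := by
      have f1 : (1 + 2 * q₀ * D') ^ 2 ≤ (1 + 2 * D') ^ 2 * (1 + q₀) ^ 2 := q_sq89 (by positivity) hq₀ (by ring)
      obtain ⟨U, hU⟩ : ∃ U, U = (1 + q₀) ^ 2 := ⟨_, rfl⟩
      obtain ⟨V, hV⟩ : ∃ V, V = (1 + 2 * q₀ * D') ^ 2 := ⟨_, rfl⟩
      obtain ⟨V', hV'⟩ : ∃ V', V' = (1 + 2 * D') ^ 2 := ⟨_, rfl⟩
      rw [← hU] at hq1 hq2
      rw [← hU, ← hV, ← hV'] at f1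
      rw [hA₃, hA₂, hA₃₀, ← hU, ← hV, ← hV']
      have f2 := mul_le_mul_of_nonneg_left f1 (show 0 ≤ CL P c₁ * gr P (R + K₁) by positivity)
      have f3 := mul_le_mul_of_nonneg_left hq1 (show 0 ≤ S₀ * D' by positivity)
      have f4 := mul_le_mul_of_nonneg_left hq2 (show 0 ≤ 2 * D' * gr P (R + κ') by positivity)
      calc CL P c₁ * V * gr P (R + K₁) + S₀ * D' + 2 * q₀ * D' * gr P (R + κ') =
          CL P c₁ * gr P (R + K₁) * V + S₀ * D' * 1 + 2 * D' * gr P (R + κ') * q₀ := by ring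
        _ ≤ CL P c₁ * gr P (R + K₁) * (V' * U) + S₀ * D' * U + 2 * D' * gr P (R + κ') * U := add_le_add (add_le_add f2 f3) f4
        _ = _ := by ring
    have e3 := mul_le_mul_of_nonneg_left e1 (show (0 : ℝ) ≤ 2 * b by positivity)
    have e4 := mul_le_mul_of_nonneg_left hq1 hPa
    linarith
  intro T u i M θ hθ hθ2 hT0 hT hM q ℓ k B r hsys hq hr F G Z x x' hG hFx hFx' hZ hx hx' harm
  have hTu1 : 1 ≤ T u := hn2.trans hT0
  have hK1 : 1 ≤ K₀ := by omega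
  have hmon1 : ∀ v, u ≤ v → v < u + (i + 1) → T v ≤ T (v + 1) := fun v hv hv' =>
    (Nat.le_mul_of_pos_left _ hK1).trans (hT v hv hv').1
  have hmon : ∀ j, j ≤ i + 1 → T u ≤ T (u + j) := by
    intro j
    induction j with
    | zero => intro _; exact le_rfl
    | succ j ih =>
      intro hj
      rw [show u + (j + 1) = u + j + 1 by omega]
      exact (ih (by omega)).trans (hmon1 (u + j) (by omega) (by omega))
  obtain ⟨e, s', hE, he, hs⟩ := henv (cc := cc) (c₂ := c₂) (κ' := κ') (S₀ := S₀) (r := r) (q₀ := q₀) (θ := θ) (T := T) (q := q)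
    (ℓ := ℓ) (k := k) (B := B) (u := u) (i := i) (M := M) (by linarith) hc₂ hS₀ hq₀ hθ hT0
    (fun v hv hv' => (hT v hv (by omega)).1) hM hsys hq
  have hwt := hE.wt0
  have hEt := hE.Et0
  have hw0 : ∀ v, u ≤ v → v < u + (i + 2) → 2 ≤ wd μ s (T v) := by
    intro v hv hv'
    have h1 : T u ≤ T v := by
      have := hmon (v - u) (by omega)
      rwa [show u + (v - u) = v by omega] at this
    have h2 := wd_ge_one h (hTu1.trans h1)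
    have h3 := one_le_EE (μ := μ) (s := s) (T v)
    linarith
  have hwu := hw0 u le_rfl (by omega)
  -- the mass defined by the composition
  obtain ⟨F', hF'⟩ : ∃ F' : ℤ → ℝ, F' = fun y => ∑ z ∈ B (u + (i + 2)), cmp k B (i + 2) u y z * G z := ⟨_, rfl⟩
  have eFx : F' x = F x := by rw [hF', hFx]
  have eFx' : F' x' = F x' := by rw [hF', hFx']
  have hF'0 : 0 ≤ F' x' := by
    rw [hF']
    exact sum_nonneg fun z _ => mul_nonneg (cmp_nonneg hsys.k0 B _ _ _ _) (hG z)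
  have hfin := dd_env (u := u) (m := i) hE (κ := κ') (c₁ := c₁) (c₃ := c₃) (Q := q₀ * D' * θ ^ (i + 1)) (S := S₀ * D') (Pa := Pa)
    (r := r) hc₁ hc₃ hcc he hs (by linarith) hw0 (fun v hv hv' => hsys.low v hv (by omega)) (fun v hv hv' => hsys.mid v hv (by omega))
    (F := F') (G := G) hG (fun y => by rw [hF']) (Z := Z) hZ hPa (x := x) (x' := x') (by rw [eFx]; exact harm) (by
      refine hx'.trans ?_
      have h1 : (K₁ + 1) * wd μ s (T u) ≤ κ' * wd μ s (T u) := mul_le_mul_of_nonneg_right hκ' (by linarith)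
      linarith)
  rw [eFx] at hfin
  rw [← eFx']
  refine hfin.trans (mul_le_mul_of_nonneg_right ?_ hF'0)
  have hθi : 1 ≤ θ ^ i := one_le_pow₀ hθ
  have hθ2i : θ ^ (2 * i) = θ ^ i * θ ^ i := by rw [two_mul, pow_add]
  have hθi0 : 0 < θ ^ i := by linarith
  have hQt : q₀ * D' * θ ^ (i + 1) ≤ 2 * q₀ * D' * θ ^ i := by
    rw [pow_succ]
    have h1 : 0 ≤ q₀ * D' * θ ^ i := by positivity
    have := mul_le_mul_of_nonneg_left hθ2 h1
    linarith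
  have hQt0 : 0 ≤ q₀ * D' * θ ^ (i + 1) := by positivity
  have hqD : 0 ≤ 2 * q₀ * D' := by positivity
  have hLQ : LQ P c₁ (q₀ * D' * θ ^ (i + 1)) ≤ A₂ * θ ^ (2 * i) := by
    refine (lq_le P hc₁ hQt0).trans ?_
    rw [hA₂, hθ2i]
    have h1 : 1 + q₀ * D' * θ ^ (i + 1) ≤ (1 + 2 * q₀ * D') * θ ^ i := by
      linarith
    have h2 := pow_le_pow_left₀ (by positivity) h1 2
    have h3 := mul_le_mul_of_nonneg_left h2 hCL.le
    linarith [show CL P c₁ * ((1 + 2 * q₀ * D') * θ ^ i) ^ 2 = CL P c₁ * (1 + 2 * q₀ * D') ^ 2 * (θ ^ i * θ ^ i) by ring]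
  -- the places
  have hwi : wd μ s (T (u + i)) ≤ wd μ s (T (u + (i + 1))) := hE.wle (u + i) (by omega) (by omega)
  have hwu' : wd μ s (T u) ≤ wd μ s (T (u + (i + 1))) := hE.wle u le_rfl (by omega)
  have hgx : gr P (|ℓ u x| / wd μ s (T (u + (i + 1)))) ≤ gr P (R + K₁) := by
    refine gr_mono P (by positivity) ?_
    rw [div_le_iff₀ hwt]
    have h1 := abs_add_le (ℓ u x - r) r
    rw [sub_add_cancel] at h1
    have h4 := mul_le_mul_of_nonneg_left hwi (show 0 ≤ K₁ by linarith)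
    have h5 := mul_le_mul_of_nonneg_left hwu' hR
    linarith
  have hgr : gr P (|r| / wd μ s (T (u + (i + 1))) + κ') ≤ gr P (R + κ') := by
    refine gr_mono P (by positivity) ?_
    have h1 : |r| / wd μ s (T (u + (i + 1))) ≤ R := by
      rw [div_le_iff₀ hwt]
      exact hr.trans (mul_le_mul_of_nonneg_left hwu' hR)
    linarith
  obtain ⟨Et, hEt'⟩ : ∃ Et, Et = EE μ s (T (u + (i + 1))) := ⟨_, rfl⟩
  obtain ⟨Ei, hEi⟩ : ∃ Ei, Ei = EE μ s (T (u + i)) := ⟨_, rfl⟩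
  have hEi1 : 1 ≤ Ei := by rw [hEi]; exact one_le_EE _
  have hle : Et ≤ 2 * b * Ei := by
    rw [hEt', hEi]
    have h0 : T u ≤ T (u + i) := hmon i (by omega)
    have h1 := hmon1 (u + i) (by omega) (by omega)
    have h2 := (hT (u + i) (by omega) (by omega)).2
    have h3 := scale_b h (hTu1.trans h0) h1
    rw [show u + i + 1 = u + (i + 1) by omega] at h1 h2 h3
    have hTi : (0 : ℝ) < T (u + i) := by exact_mod_cast hTu1.trans h0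
    have h4 : (T (u + (i + 1)) : ℝ) ≤ b * T (u + i) := by exact_mod_cast h2
    have hEi := EE_pos (μ := μ) (s := s) (T (u + i))
    have h5 : (T (u + i) : ℝ) * EE μ s (T (u + (i + 1))) ≤ T (u + i) * (2 * b * EE μ s (T (u + i))) := by
      have h6 := mul_le_mul_of_nonneg_right h4 hEi.le
      linarith
    exact le_of_mul_le_mul_left h5 hTi
  rw [← hEt'] at hEt ⊢
  rw [← hEi]
  -- the exponent
  have h1 : LQ P c₁ (q₀ * D' * θ ^ (i + 1)) * gr P (|ℓ u x| / wd μ s (T (u + (i + 1)))) ≤ A₂ * gr P (R + K₁) * θ ^ (2 * i) := by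
    calc _ ≤ A₂ * θ ^ (2 * i) * gr P (R + K₁) := mul_le_mul hLQ hgx (gr_nonneg P (by positivity)) (by positivity)
      _ = _ := by ring
  have h2 : q₀ * D' * θ ^ (i + 1) * gr P (|r| / wd μ s (T (u + (i + 1))) + κ') ≤ 2 * q₀ * D' * gr P (R + κ') * θ ^ (2 * i) := by
    have h3 : q₀ * D' * θ ^ (i + 1) ≤ 2 * q₀ * D' * θ ^ (2 * i) := by
      refine hQt.trans ?_
      rw [hθ2i]
      exact mul_le_mul_of_nonneg_left (le_mul_of_one_le_left hθi0.le hθi) hqD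
    calc q₀ * D' * θ ^ (i + 1) * gr P (|r| / wd μ s (T (u + (i + 1))) + κ') ≤ (2 * q₀ * D' * θ ^ (2 * i)) * gr P (R + κ') :=
          mul_le_mul h3 hgr (gr_nonneg P (by positivity)) (by positivity)
      _ = _ := by ring
  have h2i : 1 ≤ θ ^ (2 * i) := one_le_pow₀ hθ
  have h3 : S₀ * D' ≤ S₀ * D' * θ ^ (2 * i) := le_mul_of_one_le_right (by positivity) h2i
  have h4 : (LQ P c₁ (q₀ * D' * θ ^ (i + 1)) * gr P (|ℓ u x| / wd μ s (T (u + (i + 1)))) + S₀ * D' +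
      q₀ * D' * θ ^ (i + 1) * gr P (|r| / wd μ s (T (u + (i + 1))) + κ')) * Et ≤ 2 * b * A₃ * (θ ^ (2 * i) * Ei) := by
    calc _ ≤ (A₂ * gr P (R + K₁) * θ ^ (2 * i) + S₀ * D' * θ ^ (2 * i) + 2 * q₀ * D' * gr P (R + κ') * θ ^ (2 * i)) * Et :=
          mul_le_mul_of_nonneg_right (add_le_add (add_le_add h1 h3) h2) hEt.le
      _ = A₃ * θ ^ (2 * i) * Et := by rw [hA₃]; ring
      _ ≤ A₃ * θ ^ (2 * i) * (2 * b * Ei) := mul_le_mul_of_nonneg_left hle (by positivity)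
      _ = _ := by ring
  have h5 : Pa ≤ Real.exp (Pa * (θ ^ (2 * i) * Ei)) := by
    have h6 : 1 ≤ θ ^ (2 * i) * Ei := one_le_mul_of_one_le_of_one_le h2i hEi1
    have h7 := Real.add_one_le_exp (Pa * (θ ^ (2 * i) * Ei))
    have h8 := mul_le_mul_of_nonneg_left h6 hPa
    linarith
  calc _ ≤ Real.exp (Pa * (θ ^ (2 * i) * Ei)) * Real.exp (2 * b * A₃ * (θ ^ (2 * i) * Ei)) :=
        mul_le_mul h5 (Real.exp_le_exp.2 h4) (Real.exp_pos _).le (Real.exp_pos _).le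
    _ = Real.exp ((2 * b * A₃ + Pa) * (θ ^ (2 * i) * Ei)) := by
      rw [← Real.exp_add]
      congr 1
      ring
    _ ≤ _ := Real.exp_le_exp.2 (mul_le_mul_of_nonneg_right hAA (by positivity))

end

end Pool.Agent.W_7d29a1_C1.LrK16
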