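import Pool.Agent.W_7d29a1_C1.LrR89
import Pool.Agent.W_7d29a1_C1.LRP84

/-!
MP_7d29a1_pr, [C1], THE PAST: D2 / (LR) for the forward masses `fh84` (helper84's `SysP84`), rows downward. (helper89)

`StQ89`: the steep steps of the layers, the base of the slab `v` near the line at its LOWER row. `dd_oneQ89`, `lr_oneQ89`: constants explicit in
`q₀`, the steep step in one slab. `lr_swQ89`: no condition on the switch row. **`lr_rowQ89`, `lr_allQ89`**: (LR) of one row.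
-/

set_option autoImplicit false

namespace Pool.Agent.W_7d29a1_C1.LrQ89

open MeasureTheory ProbabilityTheory Filter Topology Finset
open Pool.Agent.W_7d29a1_F Pool.Agent.W_7d29a1_h4g Pool.Agent.W_7d29a1_H Pool.Agent.W_7d29a1_HS
open Pool.Agent.W_7d29a1_C1.H75 Pool.Agent.W_7d29a1_C1.U16 Pool.Agent.W_7d29a1_C1.FarK89 Pool.Agent.W_7d29a1_C1.FarW89
open Pool.Agent.W_7d29a1_C1.DD84 Pool.Agent.W_7d29a1_C1.SysN89 Pool.Agent.W_7d29a1_C1.SysP84 Pool.Agent.W_7d29a1_C1.LrN89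
open Pool.Agent.W_7d29a1_C1.LrR89 (pow_ratio89 ratio_for89 pow_div89)
open Pool.Agent.W_7d29a1_C1.LrK16 (lrb_qK16 ddi_qK16)
open Pool.Agent.W_7d29a1_C1.K91 (wt wt_pos)

noncomputable section

/-- The steep steps of the layers `a ≤ v < b`, rows downward: the grid of the row `v` = the multiples of `w v`, the base `β v` of the slab `v` is
near the line at the lower row `r (v + 1)`. -/
structure StQ89 (μ : Measure ℝ) (s B₁ B₂ δ : ℝ) (η : Env) (κ : Pt) (r T : ℕ → ℕ) (q : ℕ → ℝ) (w : ℕ → ℤ) (β : ℕ → ℝ) (a b : ℕ) :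
    Prop where
  w0 : ∀ v, a ≤ v → v ≤ b → 0 < w v
  w1 : ∀ v, a ≤ v + 1 → v + 1 ≤ b → (w (v + 1) : ℝ) ≤ wd μ s (T v)
  bb : ∀ v, a ≤ v → v < b → |β v - ((κ.2 : ℝ) + sl μ s * ((r (v + 1) : ℝ) - (κ.1 : ℝ)))| ≤ wd μ s (T v)
  st : ∀ v, a ≤ v → v < b → η ∈ StE84 μ s B₁ B₂ δ (T v) (r v - r (v + 1)) (w (v + 1)) (w v) (r (v + 1)) (β v) (q v)

theorem StQ89.sub {μ : Measure ℝ} {s B₁ B₂ δ : ℝ} {η : Env} {κ : Pt} {r T : ℕ → ℕ} {q : ℕ → ℝ} {w : ℕ → ℤ} {β : ℕ → ℝ} {a b a' b' : ℕ}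
    (hS : StQ89 μ s B₁ B₂ δ η κ r T q w β a b) (ha : a ≤ a') (hb : b' ≤ b) : StQ89 μ s B₁ B₂ δ η κ r T q w β a' b' :=
  ⟨fun v h1 h2 => hS.w0 v (by omega) (by omega), fun v h1 h2 => hS.w1 v (by omega) (by omega),
    fun v h1 h2 => hS.bb v (by omega) (by omega), fun v h1 h2 => hS.st v (by omega) (by omega)⟩

theorem q_eight89 {a q₀ : ℝ} (ha : 0 ≤ a) (hq : 0 ≤ q₀) : (1 + a * (1 + q₀) ^ 4) ^ 2 ≤ (1 + a) ^ 2 * (1 + q₀) ^ 8 := by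
  have h1 : 1 ≤ (1 + q₀) ^ 4 := one_le_pow₀ (by linarith)
  have h2 : 1 + a * (1 + q₀) ^ 4 ≤ (1 + a) * (1 + q₀) ^ 4 := by linarith
  have h3 := pow_le_pow_left₀ (by positivity) h2 2
  calc _ ≤ ((1 + a) * (1 + q₀) ^ 4) ^ 2 := h3
    _ = _ := by ring

variable {μ : Measure ℝ} [IsProbabilityMeasure μ] {s c C : ℝ} {n₀ : ℕ}

/-- **ONE PLACE OF THE SCALE `i` AGAINST ONE PLACE OF THE INNER WINDOW** for the forward masses (`dd_oneP84`), explicit in `q₀`. -/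
theorem dd_oneQ89 (h0 : In μ s c C n₀) : ∃ K₀ : ℕ, 2 ≤ K₀ ∧ ∀ (P : ℕ) {θ K : ℝ}, 0 < θ →
    ∀ K₁ R Pa : ℝ, 1 ≤ K₁ → K₁ + 3 ≤ K → 0 ≤ R → 0 ≤ Pa → ∀ b : ℕ, ∃ (A : ℝ) (n₁ : ℕ), 0 ≤ A ∧ 1 ≤ n₁ ∧ ∀ q₀ : ℝ, 0 ≤ q₀ →
    ∀ {h : ℝ} {η : Env} {p : ℕ → ℝ} {M : ℕ} {l : ℤ → ℝ} {κ : Pt} {r T N : ℕ → ℕ} {q : ℕ → ℝ} {bs : ℕ → Pt} {u i : ℕ} {Θ : ℝ},
    (∀ y, 0 ≤ l y) →
    (∀ k, k < M → p k = Real.exp (s + h)) → (∀ k, M ≤ k → p k = Real.exp s) → 1 ≤ Θ → Θ ^ 4 ≤ 2 →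
    LayP84 μ s c θ K h P η κ r T N q bs u (u + (i + 2)) n₁ →
    (∀ v, u ≤ v → v < u + (i + 1) → K₀ * T v ≤ T (v + 1) ∧ T (v + 1) ≤ b * T v) →
    (∀ v, u ≤ v → v < u + (i + 2) → q v ≤ q₀ * Θ ^ (v - u)) →
    ∀ (ρ : ℝ), |ρ| ≤ R * wd μ s (T u) → ∀ (x x' : ℤ), |lt μ s κ r u x - ρ| ≤ K₁ * wd μ s (T (u + i)) →
    |lt μ s κ r u x' - ρ| ≤ K₁ * wd μ s (T u) → ∀ (Q : ℤ → Prop) [DecidablePred Q],
    (∀ z, x - ((r u - r (u + (i + 2)) : ℕ) : ℤ) ≤ z → z ≤ x → Q z →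
      |lt μ s κ r (u + (i + 2)) z - ρ| ≤ (K - 2) * wd μ s (T (u + (i + 1))) - 1) →
    fh84 μ s h η p M l (r u) x ≤ Pa * PMP84 μ s h η p M l (r u) (r (u + (i + 2))) x Q →
    fh84 μ s h η p M l (r u) x ≤ Real.exp (A * (1 + q₀) ^ 8 * (Θ ^ (8 * i) * EE μ s (T (u + i)))) * fh84 μ s h η p M l (r u) x' := by
  have hc0 := h0.c0
  obtain ⟨K₀, hK₀, H⟩ := ddi_qK16 h0
  refine ⟨K₀, hK₀, ?_⟩
  intro P θ K hθ K₁ R Pa hK₁ hK hR hPa b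
  have H := H (2 * P) (cc := 3 * c / 8) (c₁ := c / 16) (c₂ := c / 8) (c₃ := c / 8) (by positivity) (by positivity)
    (by positivity) (by linarith)
  obtain ⟨C', hC', m₁, hm₁, HS⟩ := sysP84 h0 P (θ := θ) (K := K) (by linarith) hθ
  obtain ⟨Cq, hCq, Hq⟩ := qd_le P (c := c) (K := K) (C' := C') hc0 (by linarith) hC'.le
  obtain ⟨A, m₂, hA, hm₂, H2'⟩ := H (K - 2) K₁ 1 R Pa hK₁ (by linarith) zero_le_one hR hPa b
  refine ⟨A * (1 + Cq) ^ 2, max m₁ m₂, by positivity, hm₁.trans (le_max_left _ _), fun q₀ hq₀ => ?_⟩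
  have H2 := H2' (Cq * (1 + q₀) ^ 4) (by positivity)
  intro h η p M l κ r T N q bs u i Θ hl hp hp' hΘ hΘ2 hL hT hq ρ hρ x x' hx hx' Q _ hQ harm
  have hpos : ∀ k, 0 < p k := by
    intro k
    rcases lt_or_ge k M with h2 | h2
    · rw [hp k h2]
      exact Real.exp_pos _
    · rw [hp' k h2]
      exact Real.exp_pos _
  obtain ⟨R₀, hR₀⟩ := boxP84 (μ := μ) (s := s) κ r u (u + (i + 2)) x |ρ|
  obtain ⟨Rb, hRb⟩ : ∃ Rb : ℤ, Rb = max R₀ |x' - x| := ⟨_, rfl⟩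
  have hR1 : R₀ ≤ Rb := by rw [hRb]; exact le_max_left _ _
  have hR2 : |x' - x| ≤ Rb := by rw [hRb]; exact le_max_right _ _
  have hxb : x ∈ bd r u x Rb u := by
    unfold bd
    rw [mem_Icc]
    have := (abs_nonneg (x' - x)).trans hR2
    omega
  have hxb' : x' ∈ bd r u x Rb u := by
    unfold bd
    rw [mem_Icc]
    rw [abs_le] at hR2
    omega
  have hsys := HS (le_max_left _ _) hp hp' hL x Rb ρ fun v _ hv => hR₀ Rb hR1 ρ le_rfl v hv.le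
  have hrr := hL.rr
  have e1 := massP84 (μ := μ) (s := s) (h := h) (η := η) (p := p) (M := M) (l := l) hrr (m := i + 2) le_rfl le_rfl hxb
  have e2 := massP84 (μ := μ) (s := s) (h := h) (η := η) (p := p) (M := M) (l := l) hrr (m := i + 2) le_rfl le_rfl hxb'
  have e3 := pmP84 (μ := μ) (s := s) (h := h) (η := η) (p := p) (M := M) (l := l) hrr (m := i + 2) le_rfl le_rfl hxb Q
  rw [e3] at harm
  have key := H2 T u i (u + (i + 2)) (Θ ^ 4) (one_le_pow₀ hΘ) hΘ2 ((le_max_right _ _).trans (hL.T1 u le_rfl (by omega))) hT le_rfl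
    (qd P c K C' q) (lt μ s κ r) (kd μ s h η p M r) (bd r u x Rb) ρ hsys
    (fun v hv hv' => Hq hq₀ hΘ (hL.q0 v hv hv') (hq v hv hv')) hρ
    (fh84 μ s h η p M l (r u)) (fh84 μ s h η p M l (r (u + (i + 2))))
    ((Icc (x - ((r u - r (u + (i + 2)) : ℕ) : ℤ)) x).filter Q) x x'
    (fun z => fh_nonneg hpos hl _ _) e1 e2
    (fun z hz => by
      obtain ⟨z1, z2⟩ := mem_filter.1 hz
      rw [mem_Icc] at z1
      refine ⟨?_, hQ z z1.1 z1.2 z2⟩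
      unfold bd at hxb ⊢
      rw [mem_Icc] at hxb ⊢
      omega) hx hx' harm
  rw [← pow_mul] at key
  rw [show 8 * i = 4 * (2 * i) by ring]
  refine key.trans (mul_le_mul_of_nonneg_right (Real.exp_le_exp.2 ?_) (fh_nonneg hpos hl _ _))
  have hE := EE_pos (μ := μ) (s := s) (T (u + i))
  refine mul_le_mul_of_nonneg_right ?_ (by positivity)
  have := mul_le_mul_of_nonneg_left (q_eight89 hCq hq₀) hA
  linarith

/-- **TWO PLACES AT A FAR LATERAL POSITION**, the forward masses. -/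
theorem lr_oneQ89 (h0 : In μ s c C n₀) : ∃ K₀ : ℕ, 2 ≤ K₀ ∧ ∀ (P : ℕ) {θ K B₂ : ℝ}, 0 < θ → 4 ≤ K → 2 ≤ B₂ →
    ∀ K₁ R Y Bp : ℝ, 1 ≤ K₁ → 0 ≤ R → 1 ≤ Y → 2 ≤ Bp → ∀ b : ℕ, ∃ (A : ℝ) (j₀ n₁ : ℕ), 0 ≤ A ∧ 1 ≤ n₁ ∧ ∀ q₀ : ℝ, 0 ≤ q₀ →
    ∀ {h : ℝ} {η : Env} {p : ℕ → ℝ} {M : ℕ} {l : ℤ → ℝ} {κ : Pt} {r T N : ℕ → ℕ} {q : ℕ → ℝ} {bs : ℕ → Pt} {w : ℕ → ℤ} {β : ℕ → ℝ} {u i : ℕ}
      {Θ B₁ δ : ℝ}, (∀ y, 0 ≤ l y) →
    (∀ k, k < M → p k = Real.exp (s + h)) → (∀ k, M ≤ k → p k = Real.exp s) → 1 ≤ Θ → Θ ^ 4 ≤ 2 →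
    LayP84 μ s c θ K h P η κ r T N q bs u (u + (i + 3)) n₁ →
    (∀ v, u ≤ v → v < u + (i + 2) → K₀ * T v ≤ T (v + 1) ∧ T (v + 1) ≤ b * T v) →
    (∀ v, u ≤ v → v < u + (i + 3) → q v ≤ q₀ * Θ ^ (v - u)) →
    3 * Bp ≤ B₁ → δ ≤ θ * sl μ s → δ ≤ θ * (1 - sl μ s) → StQ89 μ s B₁ B₂ δ η κ r T q w β (u + (i + 1)) (u + (i + 2)) →
    (r (u + (i + 1)) ≤ M ∨ M ≤ r (u + (i + 2))) →
    ∀ j : ℕ, 2 ^ (j + j₀) * wd μ s (T (u + (i + 1))) ≤ δ * T (u + (i + 1)) →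
    ∀ (ρ : ℝ), |ρ| ≤ R * wd μ s (T u) → ∀ (x x' : ℤ), |lt μ s κ r u x - ρ| ≤ K₁ * (Bp ^ j * wd μ s (T (u + i))) →
    |lt μ s κ r u x' - ρ| ≤ K₁ * (Bp ^ j * wd μ s (T (u + i))) → |(x : ℝ) - x'| ≤ 2 * K₁ * wd μ s (T (u + i)) →
    ∀ (Q : ℤ → Prop) [DecidablePred Q], (∀ z, x - ((r u - r (u + (i + 3)) : ℕ) : ℤ) ≤ z → z ≤ x → Q z →
      |lt μ s κ r (u + (i + 3)) z - lt μ s κ r u x| ≤ Y * 2 ^ j * wd μ s (T (u + (i + 2)))) →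
    fh84 μ s h η p M l (r u) x ≤ 2 * PMP84 μ s h η p M l (r u) (r (u + (i + 3))) x Q →
    fh84 μ s h η p M l (r u) x ≤ Real.exp (A * (1 + q₀) ^ 8 * (B₂ ^ j * Θ ^ (8 * i) * EE μ s (T (u + i)))) * fh84 μ s h η p M l (r u) x' := by
  have hc0 := h0.c0
  obtain ⟨K₀, hK₀, H⟩ := lrb_qK16 h0
  refine ⟨K₀, hK₀, ?_⟩
  intro P θ K B₂ hθ hK hB₂ K₁ R Y Bp hK₁ hR hY hBp b
  have H := H (2 * P) (cc := 3 * c / 8) (c₁ := c / 16) (c₂ := c / 8) (c₃ := c / 8) (by positivity) (by positivity)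
    (by positivity) (by linarith) hB₂
  obtain ⟨C', hC', m₁, hm₁, HS⟩ := sysP84 h0 P (θ := θ) (K := K) (by linarith) hθ
  obtain ⟨Cq, hCq, Hq⟩ := qd_le P (c := c) (K := K) (C' := C') hc0 (by linarith) hC'.le
  obtain ⟨A, j₀, m₂, hA, hm₂, H2'⟩ := H (K - 2) K₁ 1 R Y Bp (by linarith) hK₁ zero_le_one hR hY hBp b
  have hCg : 0 ≤ Cq + (1 + c / 4) := by positivity
  refine ⟨A * (1 + (Cq + (1 + c / 4))) ^ 2, j₀, max m₁ m₂, by positivity, hm₁.trans (le_max_left _ _), fun q₀ hq₀ => ?_⟩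
  have H2 := H2' ((Cq + (1 + c / 4)) * (1 + q₀) ^ 4) (by positivity)
  intro h η p M l κ r T N q bs w β u i Θ B₁ δ hl hp hp' hΘ hΘ2 hL hT hq hB₁ hδ1 hδ2 hst hM j hcone ρ hρ x x' hx hx' hxx Q _ hQ harm
  have hpos : ∀ k, 0 < p k := by
    intro k
    rcases lt_or_ge k M with h2 | h2
    · rw [hp k h2]
      exact Real.exp_pos _
    · rw [hp' k h2]
      exact Real.exp_pos _
  have hTge : ∀ v, u ≤ v → v < u + (i + 3) → m₁ ≤ T v := fun v h1 h2 => (le_max_left _ _).trans (hL.T1 v h1 h2)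
  have hwp : ∀ v, u ≤ v → v < u + (i + 3) → 0 < wd μ s (T v) := fun v h1 h2 => h0.wd_pos (hm₁.trans (hTge v h1 h2))
  have hw0 := hwp (u + (i + 2)) (by omega) (by omega)
  obtain ⟨Λ, hΛ⟩ : ∃ Λ : ℝ, Λ = (R + K₁ + Y + 1) * (Bp ^ j * wd μ s (T (u + (i + 2)))) + |ρ| := ⟨_, rfl⟩
  have hΛ0 : (R + K₁ + Y + 1) * (Bp ^ j * wd μ s (T (u + (i + 2)))) ≤ Λ := by
    rw [hΛ]
    have := abs_nonneg ρ
    linarith
  have hρΛ : |ρ| ≤ Λ := by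
    rw [hΛ]
    have : 0 ≤ (R + K₁ + Y + 1) * (Bp ^ j * wd μ s (T (u + (i + 2)))) := by positivity
    linarith
  -- the box
  obtain ⟨Λ', hΛ'⟩ : ∃ Λ' : ℝ, Λ' = Λ + 1 + wd μ s (T (u + i)) + wd μ s (T (u + (i + 1))) := ⟨_, rfl⟩
  obtain ⟨R₁, hR₁⟩ := boxL84 (μ := μ) (s := s) κ r u (u + (i + 3)) x Λ'
  obtain ⟨Rb, hRb⟩ : ∃ Rb : ℤ, Rb = max R₁ |x' - x| := ⟨_, rfl⟩
  have hR1 : R₁ ≤ Rb := by rw [hRb]; exact le_max_left _ _
  have hR2 : |x' - x| ≤ Rb := by rw [hRb]; exact le_max_right _ _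
  have hxb : x ∈ bd r u x Rb u := by
    unfold bd
    rw [mem_Icc]
    have := (abs_nonneg (x' - x)).trans hR2
    omega
  have hxb' : x' ∈ bd r u x Rb u := by
    unfold bd
    rw [mem_Icc]
    rw [abs_le] at hR2
    omega
  have hwi := hwp (u + i) (by omega) (by omega)
  have hwv := hwp (u + (i + 1)) (by omega) (by omega)
  have hline : ∀ t : ℝ, |t| ≤ Λ → ∀ v, v ≤ u + (i + 3) → ∃ z ∈ bd r u x Rb v, |lt μ s κ r v z - t| ≤ 1 := by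
    intro t ht v hv
    have h1 := line_site (μ := μ) (s := s) κ r t v
    refine ⟨_, hR₁ Rb hR1 v hv _ ?_, h1⟩
    have h2 := abs_add_le (lt μ s κ r v (κ.2 + ⌊sl μ s * (((r v : ℤ) - κ.1 : ℤ) : ℝ) + t⌋) - t) t
    rw [sub_add_cancel] at h2
    rw [hΛ']
    linarith
  have hgrid : ∀ t : ℝ, |t| ≤ Λ → ∀ v, u + i ≤ v → v ≤ u + (i + 1) → ∀ W : ℤ, 0 < W → (W : ℝ) ≤ wd μ s (T v) →
      ∃ z ∈ bd r u x Rb (v + 1), W ∣ z ∧ |lt μ s κ r (v + 1) z - t| ≤ wd μ s (T v) := by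
    intro t ht v hv hv' W hW0 hW
    obtain ⟨X, hX⟩ : ∃ X : ℝ, X = ((κ.2 : ℝ) + sl μ s * ((r (v + 1) : ℝ) - (κ.1 : ℝ))) + t := ⟨_, rfl⟩
    have hWR : (0 : ℝ) < W := by exact_mod_cast hW0
    have h1 : |lt μ s κ r (v + 1) (W * ⌊X / W⌋) - t| ≤ wd μ s (T v) := by
      rw [lt_eq]
      have h2 := Int.floor_le (X / W)
      have h3 := Int.lt_floor_add_one (X / W)
      rw [le_div_iff₀ hWR] at h2
      rw [div_lt_iff₀ hWR] at h3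
      push_cast
      rw [abs_le]
      constructor
      · linarith
      · linarith
    refine ⟨W * ⌊X / W⌋, hR₁ Rb hR1 (v + 1) (by omega) _ ?_, dvd_mul_right _ _, h1⟩
    have h2 := abs_add_le (lt μ s κ r (v + 1) (W * ⌊X / W⌋) - t) t
    rw [sub_add_cancel] at h2
    have h3 : wd μ s (T v) ≤ wd μ s (T (u + i)) + wd μ s (T (u + (i + 1))) := by
      rcases (show v = u + i ∨ v = u + (i + 1) by omega) with h4 | h4
      · rw [h4]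
        linarith
      · rw [h4]
        linarith
    rw [hΛ']
    linarith
  -- the system
  obtain ⟨q', hq'⟩ : ∃ q' : ℕ → ℝ, q' = fun v => qd P c K C' q v + (1 + c / 4) * (1 + q v) ^ 2 := ⟨_, rfl⟩
  have hsys := sys_mono89 (q' := q') (fun v h1 h2 => (hwp v h1 h2).le) (fun v => by
    rw [hq']
    have : 0 ≤ (1 + c / 4) * (1 + q v) ^ 2 := by positivity
    show qd P c K C' q v ≤ qd P c K C' q v + (1 + c / 4) * (1 + q v) ^ 2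
    linarith) (HS (le_max_left _ _) hp hp' hL x Rb ρ fun v _ hv => hline ρ hρΛ v hv.le)
  have hrr := hL.rr
  have hstp : Stp89 μ s Bp B₂ Λ δ T q' (lt μ s κ r) (kd μ s h η p M r) (bd r u x Rb)
      (fun v z => if v = u + (i + 1) then w (u + (i + 1)) ∣ z else w (u + (i + 2)) ∣ z) u i := by
    refine ⟨fun t ht v hv hv' => hline t ht v (by omega), ?_, ?_⟩
    · intro t ht v hv hv'
      rcases (show v = u + i ∨ v = u + (i + 1) by omega) with h4 | h4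
      · obtain ⟨z, z1, z2, z3⟩ := hgrid t ht v hv hv' (w (u + (i + 1))) (hst.w0 _ le_rfl (by omega)) (by
          rw [h4]
          exact hst.w1 (u + i) (by omega) (by omega))
        exact ⟨z, z1, by rw [if_pos (by omega)]; exact z2, z3⟩
      · obtain ⟨z, z1, z2, z3⟩ := hgrid t ht v hv hv' (w (u + (i + 2))) (hst.w0 _ (by omega) le_rfl) (by
          rw [h4]
          exact hst.w1 (u + (i + 1)) (by omega) (by omega))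
        exact ⟨z, z1, by rw [if_neg (by omega)]; exact z2, z3⟩
    · intro k hk z _ z' _ hz hz' h1 h2 h3
      rw [if_pos rfl] at hz
      rw [if_neg (by omega)] at hz'
      have hru := hrr (u + (i + 1)) (by omega) (by omega)
      have hE := EE_pos (μ := μ) (s := s) (T (u + (i + 1)))
      have hBk : 1 ≤ Bp ^ k := one_le_pow₀ (by linarith)
      have h4 : |(z' : ℝ) - β (u + (i + 1))| ≤ B₁ ^ k * wd μ s (T (u + (i + 1))) := by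
        have h5 := hst.bb (u + (i + 1)) le_rfl (by omega)
        have h5' : |β (u + (i + 1)) - ((κ.2 : ℝ) + sl μ s * ((r (u + (i + 2)) : ℝ) - (κ.1 : ℝ)))| ≤ wd μ s (T (u + (i + 1))) := h5
        have e5 := lt_eq (μ := μ) (s := s) κ r (u + (i + 2)) z'
        have h6 : (z' : ℝ) - β (u + (i + 1)) = (lt μ s κ r (u + (i + 2)) z' - lt μ s κ r (u + (i + 1)) z) + lt μ s κ r (u + (i + 1)) z -
            (β (u + (i + 1)) - ((κ.2 : ℝ) + sl μ s * ((r (u + (i + 2)) : ℝ) - (κ.1 : ℝ)))) := by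
          rw [e5]
          ring
        have h6' := abs_sub ((lt μ s κ r (u + (i + 2)) z' - lt μ s κ r (u + (i + 1)) z) + lt μ s κ r (u + (i + 1)) z)
          (β (u + (i + 1)) - ((κ.2 : ℝ) + sl μ s * ((r (u + (i + 2)) : ℝ) - (κ.1 : ℝ))))
        have h6'' := abs_add_le (lt μ s κ r (u + (i + 2)) z' - lt μ s κ r (u + (i + 1)) z) (lt μ s κ r (u + (i + 1)) z)
        rw [← h6] at h6'
        have h7 : (3 * Bp) ^ k ≤ B₁ ^ k := pow_le_pow_left₀ (by linarith) hB₁ k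
        have h8 : (3 : ℝ) ≤ 3 ^ k := by
          calc (3 : ℝ) = 3 ^ 1 := (pow_one 3).symm
            _ ≤ 3 ^ k := pow_le_pow_right₀ (by norm_num) hk
        have h2k : (2 : ℝ) ^ k ≤ Bp ^ k := pow_le_pow_left₀ (by norm_num) hBp k
        rw [mul_pow] at h7
        have h9 : Bp ^ k + 2 ^ k + 1 ≤ B₁ ^ k := by nlinarith only [h7, h8, hBk, h2k]
        have h10 := mul_le_mul_of_nonneg_right h9 hwv.le
        linarith
      have h2' : |(z : ℝ) - z' - sl μ s * ((r (u + (i + 1)) - r (u + (i + 2)) : ℕ) : ℝ)| ≤ 2 ^ k * wd μ s (T (u + (i + 1))) := by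
        have e1 := lt_sub (μ := μ) (s := s) κ r (u + (i + 2)) (u + (i + 1)) z' z hru
        rw [abs_sub_comm, e1] at h2
        push_cast at h2 ⊢
        exact h2
      have h5 := steep89 h0 hp hp' (e0 := r (u + (i + 2))) (e2 := r (u + (i + 1))) (n := T (u + (i + 1))) hM hru
        (hm₁.trans (hTge _ (by omega) (by omega))) hB₂ (hL.len (u + (i + 1)) (by omega) (by omega)) hδ1 hδ2
        (hst.st (u + (i + 1)) le_rfl (by omega)) (hL.force (u + (i + 1)) (by omega) (by omega)) (j := k) (x := z') (y := z) hz' hz h4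
        h2' h3
      refine le_trans (Real.exp_le_exp.2 (neg_le_neg ?_)) h5
      refine mul_le_mul_of_nonneg_right (mul_le_mul_of_nonneg_right ?_ (by positivity)) hE.le
      have hq0 := hL.q0 (u + (i + 1)) (by omega) (by omega)
      have h6 : 1 + q (u + (i + 1)) ≤ (1 + q (u + (i + 1))) ^ 2 := by nlinarith only [hq0]
      have h7 := mul_le_mul_of_nonneg_left h6 (show 0 ≤ 1 + c / 4 by positivity)
      have h8 := qd_nonneg P (c := c) (K := K) (q := q) hC'.le (by linarith) (u + (i + 1))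
      have h9 : 0 ≤ c / 4 * q (u + (i + 1)) := by positivity
      rw [hq']
      show q (u + (i + 1)) + c / 4 ≤ qd P c K C' q (u + (i + 1)) + (1 + c / 4) * (1 + q (u + (i + 1))) ^ 2
      linarith
  have hq'' : ∀ v, u ≤ v → v < u + (i + 3) → q' v ≤ (Cq + (1 + c / 4)) * (1 + q₀) ^ 4 * (Θ ^ 4) ^ (v - u) := by
    intro v hv hv'
    have hq0 := hL.q0 v hv hv'
    have h1 := Hq hq₀ hΘ hq0 (hq v hv hv')
    have h2 : (1 + q v) ^ 2 ≤ (1 + q₀) ^ 4 * (Θ ^ 4) ^ (v - u) := by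
      have h3 : 1 ≤ Θ ^ (v - u) := one_le_pow₀ hΘ
      have h4 : 1 + q v ≤ (1 + q₀) * Θ ^ (v - u) := by
        have := hq v hv hv'
        linarith
      have h5 := pow_le_pow_left₀ (by linarith) h4 2
      have h6 : ((1 + q₀) * Θ ^ (v - u)) ^ 2 ≤ (((1 + q₀) * Θ ^ (v - u)) ^ 2) ^ 2 := by
        refine le_self_pow₀ (one_le_pow₀ ?_) (by norm_num)
        exact one_le_mul_of_one_le_of_one_le (by linarith) h3
      refine (h5.trans h6).trans (le_of_eq ?_)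
      rw [← pow_mul, mul_pow, ← pow_mul, ← pow_mul, mul_comm (v - u)]
    have h3 := mul_le_mul_of_nonneg_left h2 (show 0 ≤ 1 + c / 4 by positivity)
    rw [hq']
    show qd P c K C' q v + (1 + c / 4) * (1 + q v) ^ 2 ≤ _
    linarith
  have e1 := massP84 (μ := μ) (s := s) (h := h) (η := η) (p := p) (M := M) (l := l) hrr (m := i + 3) le_rfl le_rfl hxb'
  have e3 := pmP84 (μ := μ) (s := s) (h := h) (η := η) (p := p) (M := M) (l := l) hrr (m := i + 3) le_rfl le_rfl hxb Q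
  rw [e3] at harm
  have hG : ∀ z, 0 ≤ fh84 μ s h η p M l (r (u + (i + 3))) z := fun z => fh_nonneg hpos hl _ _
  have hZB : (Icc (x - ((r u - r (u + (i + 3)) : ℕ) : ℤ)) x).filter Q ⊆ bd r u x Rb (u + (i + 3)) := by
    intro z hz
    obtain ⟨z1, z2⟩ := mem_filter.1 hz
    rw [mem_Icc] at z1
    unfold bd at hxb ⊢
    rw [mem_Icc] at hxb ⊢
    omega
  have key := H2 T u i j (Θ ^ 4) Λ δ (one_le_pow₀ hΘ) hΘ2 ((le_max_right _ _).trans (hL.T1 u le_rfl (by omega))) hT hΛ0 hcone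
    q' (lt μ s κ r) (kd μ s h η p M r) (bd r u x Rb) _ ρ ((κ.2 : ℝ) + sl μ s * ((r u : ℝ) - (κ.1 : ℝ))) hsys hstp
    hq'' hρ (fun y => lt_eq κ r u y)
    (fh84 μ s h η p M l (r u)) (fh84 μ s h η p M l (r (u + (i + 3)))) ((Icc (x - ((r u - r (u + (i + 3)) : ℕ) : ℤ)) x).filter Q) x x' hG (fh_nonneg hpos hl _ _)
    (by rw [lt_eq] at hx; rw [show (x : ℝ) - (((κ.2 : ℝ) + sl μ s * ((r u : ℝ) - (κ.1 : ℝ))) + ρ) =
          (x : ℝ) - ((κ.2 : ℝ) + sl μ s * ((r u : ℝ) - (κ.1 : ℝ))) - ρ by ring]; exact hx)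
    (by rw [lt_eq] at hx'; rw [show (x' : ℝ) - (((κ.2 : ℝ) + sl μ s * ((r u : ℝ) - (κ.1 : ℝ))) + ρ) =
          (x' : ℝ) - ((κ.2 : ℝ) + sl μ s * ((r u : ℝ) - (κ.1 : ℝ))) - ρ by ring]; exact hx')
    hxx (fun z hz => ⟨hZB hz, by
      obtain ⟨z1, z2⟩ := mem_filter.1 hz
      rw [mem_Icc] at z1
      exact hQ z z1.1 z1.2 z2⟩) harm (by
      rw [e1]
      refine sum_le_sum_of_subset_of_nonneg hZB fun z _ _ => mul_nonneg ?_ (hG z)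
      exact cmp_nonneg hsys.k0 _ _ _ _ _)
  rw [← pow_mul] at key
  rw [show 8 * i = 4 * (2 * i) by ring]
  refine key.trans (mul_le_mul_of_nonneg_right (Real.exp_le_exp.2 ?_) (fh_nonneg hpos hl _ _))
  have hE := EE_pos (μ := μ) (s := s) (T (u + i))
  have hB20 : 0 < B₂ := by linarith
  refine mul_le_mul_of_nonneg_right ?_ (by positivity)
  have := mul_le_mul_of_nonneg_left (q_eight89 hCg hq₀) hA
  linarith

/-- **TWO PLACES AT A FAR LATERAL POSITION**, the forward masses, no condition on the switch row. -/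
theorem lr_swQ89 (h0 : In μ s c C n₀) : ∃ K₀ : ℕ, 2 ≤ K₀ ∧ ∀ (P : ℕ) {θ K B₂ : ℝ}, 0 < θ → 4 ≤ K → 2 ≤ B₂ →
    ∀ K₁ R Y Bp : ℝ, 1 ≤ K₁ → 0 ≤ R → 1 ≤ Y → 2 ≤ Bp → ∀ b : ℕ, ∃ (A : ℝ) (j₀ n₁ : ℕ), 0 ≤ A ∧ 1 ≤ n₁ ∧ ∀ q₀ : ℝ, 0 ≤ q₀ →
    ∀ {h : ℝ} {η : Env} {p : ℕ → ℝ} {M : ℕ} {l : ℤ → ℝ} {κ : Pt} {r T N : ℕ → ℕ} {q : ℕ → ℝ} {bs : ℕ → Pt} {w : ℕ → ℤ} {β : ℕ → ℝ} {u i : ℕ}
      {Θ B₁ δ : ℝ}, (∀ y, 0 ≤ l y) →
    (∀ k, k < M → p k = Real.exp (s + h)) → (∀ k, M ≤ k → p k = Real.exp s) → 1 ≤ Θ → Θ ^ 4 ≤ 2 →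
    LayP84 μ s c θ K h P η κ r T N q bs u (u + (i + 4)) n₁ →
    (∀ v, u ≤ v → v < u + (i + 3) → K₀ * T v ≤ T (v + 1) ∧ T (v + 1) ≤ b * T v) →
    (∀ v, u ≤ v → v < u + (i + 4) → q v ≤ q₀ * Θ ^ (v - u)) →
    3 * Bp ≤ B₁ → δ ≤ θ * sl μ s → δ ≤ θ * (1 - sl μ s) → StQ89 μ s B₁ B₂ δ η κ r T q w β (u + (i + 1)) (u + (i + 3)) →
    ∀ j : ℕ, 2 ^ (j + j₀) * wd μ s (T (u + (i + 1))) ≤ δ * T (u + (i + 1)) → 2 ^ (j + j₀) * wd μ s (T (u + (i + 2))) ≤ δ * T (u + (i + 2)) →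
    ∀ (ρ : ℝ), |ρ| ≤ R * wd μ s (T u) → ∀ (x x' : ℤ), |lt μ s κ r u x - ρ| ≤ K₁ * (Bp ^ j * wd μ s (T (u + i))) →
    |lt μ s κ r u x' - ρ| ≤ K₁ * (Bp ^ j * wd μ s (T (u + i))) → |(x : ℝ) - x'| ≤ 2 * K₁ * wd μ s (T (u + i)) →
    ∀ (Q Q' : ℤ → Prop) [DecidablePred Q] [DecidablePred Q'], (∀ z, x - ((r u - r (u + (i + 3)) : ℕ) : ℤ) ≤ z → z ≤ x → Q z →
      |lt μ s κ r (u + (i + 3)) z - lt μ s κ r u x| ≤ Y * 2 ^ j * wd μ s (T (u + (i + 2)))) →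
    fh84 μ s h η p M l (r u) x ≤ 2 * PMP84 μ s h η p M l (r u) (r (u + (i + 3))) x Q →
    (∀ z, x - ((r u - r (u + (i + 4)) : ℕ) : ℤ) ≤ z → z ≤ x → Q' z →
      |lt μ s κ r (u + (i + 4)) z - lt μ s κ r u x| ≤ Y * 2 ^ j * wd μ s (T (u + (i + 3)))) →
    fh84 μ s h η p M l (r u) x ≤ 2 * PMP84 μ s h η p M l (r u) (r (u + (i + 4))) x Q' →
    fh84 μ s h η p M l (r u) x ≤ Real.exp (A * (1 + q₀) ^ 8 * (B₂ ^ j * Θ ^ (8 * i) * EE μ s (T (u + i)))) * fh84 μ s h η p M l (r u) x' := by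
  obtain ⟨K₀, hK₀, H⟩ := lr_oneQ89 h0
  obtain ⟨Kw, mw, hKw2, hmw1, hw4⟩ := wd_four h0
  refine ⟨max K₀ Kw, hK₀.trans (le_max_left _ _), ?_⟩
  intro P θ K B₂ hθ hK hB₂ K₁ R Y Bp hK₁ hR hY hBp b
  have H := H P hθ hK hB₂
  obtain ⟨A, j₀, m₁, hA, hm₁, H1⟩ := H K₁ R Y Bp hK₁ hR hY hBp b
  have hb0 : (0 : ℝ) ≤ b := Nat.cast_nonneg b
  refine ⟨A * (1 + 16 * b), j₀, max m₁ mw, by positivity, hm₁.trans (le_max_left _ _), fun q₀ hq₀ => ?_⟩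
  intro h η p M l κ r T N q bs w β u i Θ B₁ δ hl hp hp' hΘ hΘ2 hL hT hq hB₁ hδ1 hδ2 hst j hc1 hc2 ρ hρ x x' hx hx' hxx Q Q' _ _
    hQ harm hQ' harm'
  have hT' : ∀ v, u ≤ v → v < u + (i + 3) → K₀ * T v ≤ T (v + 1) ∧ T (v + 1) ≤ b * T v := fun v h1 h2 =>
    ⟨(Nat.mul_le_mul_right _ (le_max_left _ _)).trans (hT v h1 h2).1, (hT v h1 h2).2⟩
  have hpos : ∀ k, 0 < p k := by
    intro k
    rcases lt_or_ge k M with h2 | h2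
    · rw [hp k h2]
      exact Real.exp_pos _
    · rw [hp' k h2]
      exact Real.exp_pos _
  have hE := EE_pos (μ := μ) (s := s) (T (u + i))
  have hB20 : 0 < B₂ := by linarith
  have hΘ0 : 0 < Θ := by linarith
  rcases le_or_gt M (r (u + (i + 2))) with h1 | h1
  · have key := H1 q₀ hq₀ hl hp hp' hΘ hΘ2 (hL.sub le_rfl (by omega) (le_max_left _ _)) (fun v h2 h3 => hT' v h2 (by omega))
      (fun v h2 h3 => hq v h2 (by omega)) hB₁ hδ1 hδ2 (hst.sub le_rfl (by omega)) (Or.inr h1) j hc1 ρ hρ x x' hx hx' hxx Q hQ harm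
    refine key.trans (mul_le_mul_of_nonneg_right (Real.exp_le_exp.2 ?_) (fh_nonneg hpos hl _ _))
    refine mul_le_mul_of_nonneg_right (mul_le_mul_of_nonneg_right ?_ (by positivity)) (by positivity)
    exact le_mul_of_one_le_right hA (by linarith)
  · have hTge : ∀ v, u ≤ v → v < u + (i + 4) → max m₁ mw ≤ T v := fun v h2 h3 => hL.T1 v h2 h3
    have hTu : 1 ≤ T (u + i) := hm₁.trans ((le_max_left _ _).trans (hTge _ (by omega) (by omega)))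
    have hTi := hT (u + i) (by omega) (by omega)
    have hw := hw4 (T (u + i)) (T (u + (i + 1))) ((le_max_right _ _).trans (hTge _ (by omega) (by omega)))
      ((Nat.mul_le_mul_right _ (le_max_right _ _)).trans hTi.1)
    have hwp := h0.wd_pos hTu
    have hww : wd μ s (T (u + i)) ≤ wd μ s (T (u + (i + 1))) := by linarith
    have hBj : 0 ≤ Bp ^ j := pow_nonneg (by linarith) j
    have hmono := mul_le_mul_of_nonneg_left (mul_le_mul_of_nonneg_left hww hBj) (show 0 ≤ K₁ by linarith)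
    have key := H1 q₀ hq₀ (i := i + 1) hl hp hp' hΘ hΘ2 (hL.sub le_rfl (by omega) (le_max_left _ _)) (fun v h2 h3 => hT' v h2 (by omega))
      (fun v h2 h3 => hq v h2 (by omega)) hB₁ hδ1 hδ2 (hst.sub (by omega) (by omega)) (Or.inl h1.le) j hc2 ρ hρ x x'
      (hx.trans hmono) (hx'.trans hmono) (hxx.trans (mul_le_mul_of_nonneg_left hww (by linarith))) Q' hQ' harm'
    refine key.trans (mul_le_mul_of_nonneg_right (Real.exp_le_exp.2 ?_) (fh_nonneg hpos hl _ _))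
    have hTT : T (u + i) ≤ T (u + (i + 1)) := (Nat.le_mul_of_pos_left _ (by omega)).trans hTi.1
    have hEE : EE μ s (T (u + (i + 1))) ≤ 2 * b * EE μ s (T (u + i)) := by
      have h3 := scale_b h0 hTu hTT
      have hTi0 : (0 : ℝ) < T (u + i) := by exact_mod_cast hTu
      have h4 : (T (u + (i + 1)) : ℝ) ≤ b * T (u + i) := by exact_mod_cast hTi.2
      have h5 : (T (u + i) : ℝ) * EE μ s (T (u + (i + 1))) ≤ T (u + i) * (2 * b * EE μ s (T (u + i))) := by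
        have h6 := mul_le_mul_of_nonneg_right h4 hE.le
        linarith
      exact le_of_mul_le_mul_left h5 hTi0
    have hΘ4 : Θ ^ (8 * (i + 1)) ≤ 4 * Θ ^ (8 * i) := by
      have h3 : Θ ^ (8 * (i + 1)) = Θ ^ (8 * i) * (Θ ^ 4) ^ 2 := by
        rw [← pow_mul, ← pow_add]
        congr 1
      rw [h3]
      have h4 : (Θ ^ 4) ^ 2 ≤ 4 := by
        have := pow_le_pow_left₀ (by positivity) hΘ2 2
        linarith
      have h5 := mul_le_mul_of_nonneg_left h4 (show 0 ≤ Θ ^ (8 * i) by positivity)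
      linarith
    have h6 : B₂ ^ j * Θ ^ (8 * (i + 1)) * EE μ s (T (u + (i + 1))) ≤ 16 * b * (B₂ ^ j * Θ ^ (8 * i) * EE μ s (T (u + i))) := by
      have h7 : B₂ ^ j * (4 * Θ ^ (8 * i)) * (2 * b * EE μ s (T (u + i))) ≤ 16 * b * (B₂ ^ j * Θ ^ (8 * i) * EE μ s (T (u + i))) := by
        have : 0 ≤ b * (B₂ ^ j * Θ ^ (8 * i) * EE μ s (T (u + i))) := by positivity
        linarith [show B₂ ^ j * (4 * Θ ^ (8 * i)) * (2 * b * EE μ s (T (u + i))) = 8 * (b * (B₂ ^ j * Θ ^ (8 * i) * EE μ s (T (u + i)))) by ring]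
      exact (mul_le_mul (mul_le_mul_of_nonneg_left hΘ4 (by positivity)) hEE (EE_pos _).le (by positivity)).trans h7
    have h7 := mul_le_mul_of_nonneg_left h6 (show 0 ≤ A * (1 + q₀) ^ 8 by positivity)
    have h8 : 0 ≤ A * (1 + q₀) ^ 8 * (B₂ ^ j * Θ ^ (8 * i) * EE μ s (T (u + i))) := by positivity
    linarith

/-- **(LR), ONE ROW, THE PLACES WITHIN THE LAST SCALE.** -/
theorem lr_rowQ89 (h0 : In μ s c C n₀) : ∃ pw : ℕ, ∀ Φ : ℝ, 1 ≤ Φ → ∃ K₀ : ℕ, 2 ≤ K₀ ∧ ∀ (P : ℕ) (θ K B₂ : ℝ) (Cn : ℕ), 0 < θ → 4 ≤ K →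
    2 ≤ B₂ → 1 ≤ Cn → B₂ ≤ Φ ^ Cn → ∀ b : ℕ, ∃ Bp : ℝ, 2 ≤ Bp ∧ ∀ σ K₁ q₀ R Y : ℝ, 0 < σ → 1 ≤ K₁ → 0 ≤ q₀ → 0 ≤ R → 1 ≤ Y →
    ∃ (A : ℝ) (j₀ n₁ : ℕ), 0 ≤ A ∧ 1 ≤ n₁ ∧
    ∀ {h : ℝ} {η : Env} {p : ℕ → ℝ} {M : ℕ} {l : ℤ → ℝ} {κ : Pt} {r T N : ℕ → ℕ} {q : ℕ → ℝ} {bs : ℕ → Pt} {w : ℕ → ℤ} {β : ℕ → ℝ} {u m : ℕ}
      {Θ B₁ δ : ℝ}, (∀ y, 0 ≤ l y) →
    (∀ k, k < M → p k = Real.exp (s + h)) → (∀ k, M ≤ k → p k = Real.exp s) → 1 ≤ Θ → Θ ^ 4 ≤ 2 → Θ ^ 8 ≤ Φ →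
    LayP84 μ s c θ K h P η κ r T N q bs u (u + (m + 4)) n₁ →
    (∀ v, u ≤ v → v < u + (m + 3) → K₀ * T v ≤ T (v + 1) ∧ T (v + 1) ≤ b * T v) →
    (∀ v, u ≤ v → v < u + (m + 4) → q v ≤ q₀ * Θ ^ (v - u)) →
    3 * Bp ≤ B₁ → δ ≤ θ * sl μ s → δ ≤ θ * (1 - sl μ s) → StQ89 μ s B₁ B₂ δ η κ r T q w β (u + 1) (u + (m + 3)) →
    (∀ v, u < v → v < u + (m + 3) → 2 ^ (m / Cn + j₀) * wd μ s (T v) ≤ δ * T v) →
    ∀ (ρ : ℝ), |ρ| ≤ R * wd μ s (T u) →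
    (∀ i n : ℕ, i ≤ n → n ≤ m + 1 → ∀ x : ℤ, |lt μ s κ r u x - ρ| ≤ K₁ * wd μ s (T (u + n)) →
      fh84 μ s h η p M l (r u) x ≤ 2 * PMP84 μ s h η p M l (r u) (r (u + (i + 3))) x
        (fun z => |lt μ s κ r (u + (i + 3)) z - lt μ s κ r u x| ≤ Y * 2 ^ ((n - i) / Cn) * wd μ s (T (u + (i + 2))))) →
    ∀ n, n ≤ m → ∀ (x x' : ℤ), |lt μ s κ r u x' - ρ| ≤ K₁ * wd μ s (T (u + n)) → |lt μ s κ r u x - ρ| ≤ K₁ * wd μ s (T (u + m)) →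
    fh84 μ s h η p M l (r u) x ≤ Real.exp (A * (Φ ^ (pw * n) * EE μ s (T u)) + σ * (EE μ s (T u) / wd μ s (T u)) * |(x : ℝ) - x'|) * fh84 μ s h η p M l (r u) x' := by
  obtain ⟨g, pw, Km, hg, hKm, HM⟩ := lr_model h0
  obtain ⟨Ks, hKs, HS⟩ := lr_swQ89 h0
  obtain ⟨Kw, mw, hKw2, hmw1, hw4⟩ := wd_four h0
  refine ⟨pw, fun Φ hΦ => ?_⟩
  obtain ⟨Kg, hKg⟩ := ratio_for89 hΦ hg
  have hΦ0 : 0 < Φ := by linarith
  obtain ⟨K₀, hK₀⟩ : ∃ K₀ : ℕ, K₀ = max (max Km Ks) (max Kg Kw) := ⟨_, rfl⟩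
  have hK₀m : Km ≤ K₀ := by rw [hK₀]; exact (le_max_left _ _).trans (le_max_left _ _)
  have hK₀s : Ks ≤ K₀ := by rw [hK₀]; exact (le_max_right _ _).trans (le_max_left _ _)
  have hK₀g : Kg ≤ K₀ := by rw [hK₀]; exact (le_max_left _ _).trans (le_max_right _ _)
  have hK₀w : Kw ≤ K₀ := by rw [hK₀]; exact (le_max_right _ _).trans (le_max_right _ _)
  have hBK := hKg K₀ hK₀g
  refine ⟨K₀, hKm.trans hK₀m, fun P θ K B₂ Cn hθ hK hB₂ hCn hB₂Φ b => ?_⟩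
  obtain ⟨Bw, n₂, hBw, hn₂, HB⟩ := wd_iter h0 b
  obtain ⟨Bp, hBp⟩ : ∃ Bp : ℝ, Bp = Bw ^ Cn := ⟨_, rfl⟩
  have hBp2 : 2 ≤ Bp := by
    rw [hBp]
    calc (2 : ℝ) ≤ Bw := hBw
      _ ≤ Bw ^ Cn := le_self_pow₀ (by linarith) (by omega)
  refine ⟨Bp, hBp2, fun σ K₁ q₀ R Y hσ hK₁ hq₀ hR hY => ?_⟩
  have hK₁B : K₁ ≤ K₁ * Bp := le_mul_of_one_le_right (by linarith) (by linarith)
  obtain ⟨As, j₀, n₃, hAs, hn₃, HS'⟩ := HS P hθ hK hB₂ (K₁ * Bp) R Y Bp (by linarith) hR hY hBp2 b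
  obtain ⟨A, n₄, hA, hn₄, HM'⟩ := HM σ (As * (1 + q₀) ^ 8) K₁ Φ hσ (by positivity) hK₁ hΦ b
  refine ⟨A, j₀, max (max n₂ n₃) (max n₄ mw), hA, hn₄.trans ((le_max_left _ _).trans (le_max_right _ _)), ?_⟩
  intro h η p M l κ r T N q bs w β u m Θ B₁ δ hl hp hp' hΘ hΘ2 hΘΦ hL hT hq hB₁ hδ1 hδ2 hst hcone ρ hρ harm n hn x x' hx' hx
  have hTu := hL.T1 u le_rfl (by omega)
  have l2 : n₂ ≤ T u := ((le_max_left _ _).trans (le_max_left _ _)).trans hTu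
  have l4 : n₄ ≤ T u := ((le_max_left _ _).trans (le_max_right _ _)).trans hTu
  have hn3 : n₃ ≤ max (max n₂ n₃) (max n₄ mw) := (le_max_right _ _).trans (le_max_left _ _)
  have hnw : mw ≤ max (max n₂ n₃) (max n₄ mw) := (le_max_right _ _).trans (le_max_right _ _)
  have hTn : ∀ v, u ≤ v → v < u + (m + 4) → 1 ≤ T v := fun v h1 h2 =>
    (hmw1.trans hnw).trans (hL.T1 v h1 h2)
  have hpos : ∀ k, 0 < p k := by
    intro k
    rcases lt_or_ge k M with h2 | h2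
    · rw [hp k h2]
      exact Real.exp_pos _
    · rw [hp' k h2]
      exact Real.exp_pos _
  have hTu1 : 1 ≤ T u := hn₄.trans l4
  have hK₀1 : 0 < K₀ := by omega
  obtain ⟨x₀, hx₀⟩ : ∃ x₀ : ℝ, x₀ = (κ.2 : ℝ) + sl μ s * ((r u : ℝ) - (κ.1 : ℝ)) + ρ := ⟨_, rfl⟩
  have hlt : ∀ y : ℤ, lt μ s κ r u y - ρ = (y : ℝ) - x₀ := by
    intro y
    rw [lt_eq, hx₀]
    ring
  have hwit := HB (fun v => T (u + v)) m l2 (fun v hv => by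
    have h1 := hT (u + v) (by omega) (by omega)
    exact ⟨(Nat.le_mul_of_pos_left _ hK₀1).trans h1.1, h1.2⟩)
  have key := HM' (fun v => T (u + v)) m l4 (fun v hv => by
      have h1 := hT (u + v) (by omega) (by omega)
      exact ⟨(Nat.mul_le_mul_right _ hK₀m).trans h1.1, h1.2⟩)
    (pow_ratio89 (K₀ := K₀) (T := fun v => T (u + v)) hTu1 (fun v hv => (hT (u + v) (by omega) (by omega)).1) hΦ0.le hg hBK)
    (fh84 μ s h η p M l (r u)) x₀ (fun y => fh_nonneg hpos hl _ _) ?_ n hn x x' (by rw [← hlt]; exact hx') (by rw [← hlt]; exact hx)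
  · exact key
  · intro n' i hin hn'm y y' hy hy' hyy
    obtain ⟨j, hj⟩ : ∃ j, j = (n' - i) / Cn := ⟨_, rfl⟩
    have hjm : j ≤ m / Cn := by
      rw [hj]
      exact Nat.div_le_div_right (by omega)
    have hwi := h0.wd_pos (hTn (u + i) (by omega) (by omega))
    have hwj : wd μ s (T (u + n')) ≤ Bp * (Bp ^ j * wd μ s (T (u + i))) := by
      refine (hwit i n' hin hn'm).trans ?_
      have h1 := pow_div89 (show 1 ≤ Bw by linarith) hCn (n' - i)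
      rw [← hBp, ← hj] at h1
      have h2 := mul_le_mul_of_nonneg_right h1 hwi.le
      linarith
    have hmono : K₁ * wd μ s (T (u + n')) ≤ K₁ * Bp * (Bp ^ j * wd μ s (T (u + i))) := by
      have := mul_le_mul_of_nonneg_left hwj (show 0 ≤ K₁ by linarith)
      linarith
    rw [← hlt] at hy hy'
    have hwmono : wd μ s (T (u + n')) ≤ wd μ s (T (u + (n' + 1))) := by
      have h1 := hT (u + n') (by omega) (by omega)
      have h2 := hw4 (T (u + n')) (T (u + n' + 1)) (hnw.trans (hL.T1 (u + n') (by omega) (by omega)))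
        ((Nat.mul_le_mul_right _ hK₀w).trans h1.1)
      have h3 := h0.wd_pos (hTn (u + n') (by omega) (by omega))
      rw [show u + (n' + 1) = u + n' + 1 by omega]
      linarith
    have hcone' : ∀ v, u < v → v < u + (m + 3) → 2 ^ (j + j₀) * wd μ s (T v) ≤ δ * T v := fun v h2 h3 =>
      (mul_le_mul_of_nonneg_right (pow_le_pow_right₀ (by norm_num) (by omega : j + j₀ ≤ m / Cn + j₀))
        (h0.wd_pos (hTn v (by omega) (by omega))).le).trans (hcone v h2 h3)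
    have harm1 := harm i n' hin (by omega) y hy
    have harm2 := harm (i + 1) (n' + 1) (by omega) (by omega) y (hy.trans (mul_le_mul_of_nonneg_left hwmono (by linarith)))
    rw [show n' + 1 - (i + 1) = n' - i by omega] at harm2
    rw [← hj] at harm1 harm2
    have h1 := HS' q₀ hq₀ (i := i) hl hp hp' hΘ hΘ2 (hL.sub le_rfl (by omega) hn3)
      (fun v h2 h3 => ⟨(Nat.mul_le_mul_right _ hK₀s).trans (hT v h2 (by omega)).1, (hT v h2 (by omega)).2⟩)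
      (fun v h2 h3 => hq v h2 (by omega)) hB₁ hδ1 hδ2 (hst.sub (by omega) (by omega)) j
      (hcone' _ (by omega) (by omega)) (hcone' _ (by omega) (by omega))
      ρ hρ y y' (hy.trans hmono) (hy'.trans hmono) (hyy.trans (mul_le_mul_of_nonneg_right (by linarith) hwi.le)) _ _
      (fun z _ _ hz => hz) harm1 (fun z _ _ hz => hz) harm2
    refine h1.trans (mul_le_mul_of_nonneg_right (Real.exp_le_exp.2 ?_) (fh_nonneg hpos hl _ _))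
    refine mul_le_mul_of_nonneg_left (mul_le_mul_of_nonneg_right ?_ (EE_pos _).le) (by positivity)
    have h2 : Θ ^ (8 * i) ≤ Φ ^ i := by
      rw [pow_mul]
      exact pow_le_pow_left₀ (by positivity) hΘΦ i
    have h3 : B₂ ^ j ≤ Φ ^ (n' - i) := by
      calc B₂ ^ j ≤ (Φ ^ Cn) ^ j := pow_le_pow_left₀ (by linarith) hB₂Φ j
        _ = Φ ^ (Cn * j) := (pow_mul _ _ _).symm
        _ ≤ Φ ^ (n' - i) := pow_le_pow_right₀ hΦ (by rw [hj]; exact Nat.mul_div_le _ _)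
    calc B₂ ^ j * Θ ^ (8 * i) ≤ Φ ^ (n' - i) * Φ ^ i := mul_le_mul h3 h2 (by positivity) (by positivity)
      _ = Φ ^ n' := by rw [← pow_add, Nat.sub_add_cancel hin]

/-- **(LR), ONE ROW, ALL PLACES**, with the crude regularity beyond the last scale. -/
theorem lr_allQ89 (h0 : In μ s c C n₀) : ∃ pw : ℕ, ∀ Φ : ℝ, 1 ≤ Φ → ∃ K₀ : ℕ, 2 ≤ K₀ ∧ ∀ (P : ℕ) (θ K B₂ : ℝ) (Cn : ℕ), 0 < θ → 4 ≤ K →
    2 ≤ B₂ → 1 ≤ Cn → B₂ ≤ Φ ^ Cn → ∀ b : ℕ, ∃ Bp : ℝ, 2 ≤ Bp ∧ ∀ σ K₁ q₀ R Y Ac : ℝ, 0 < σ → 1 ≤ K₁ → 0 ≤ q₀ → 0 ≤ R → 1 ≤ Y → 0 ≤ Ac →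
    ∃ (A : ℝ) (j₀ n₁ : ℕ), 0 ≤ A ∧ 1 ≤ n₁ ∧
    ∀ {h : ℝ} {η : Env} {p : ℕ → ℝ} {M : ℕ} {l : ℤ → ℝ} {κ : Pt} {r T N : ℕ → ℕ} {q : ℕ → ℝ} {bs : ℕ → Pt} {w : ℕ → ℤ} {β : ℕ → ℝ} {u m : ℕ}
      {Θ B₁ δ : ℝ}, (∀ y, 0 ≤ l y) →
    (∀ k, k < M → p k = Real.exp (s + h)) → (∀ k, M ≤ k → p k = Real.exp s) → 1 ≤ Θ → Θ ^ 4 ≤ 2 → Θ ^ 8 ≤ Φ →
    LayP84 μ s c θ K h P η κ r T N q bs u (u + (m + 4)) n₁ →
    (∀ v, u ≤ v → v < u + (m + 3) → K₀ * T v ≤ T (v + 1) ∧ T (v + 1) ≤ b * T v) →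
    (∀ v, u ≤ v → v < u + (m + 4) → q v ≤ q₀ * Θ ^ (v - u)) →
    3 * Bp ≤ B₁ → δ ≤ θ * sl μ s → δ ≤ θ * (1 - sl μ s) → StQ89 μ s B₁ B₂ δ η κ r T q w β (u + 1) (u + (m + 3)) →
    (∀ v, u < v → v < u + (m + 3) → 2 ^ (m / Cn + j₀) * wd μ s (T v) ≤ δ * T v) →
    ∀ (ρ : ℝ), |ρ| ≤ R * wd μ s (T u) →
    (∀ i n : ℕ, i ≤ n → n ≤ m + 1 → ∀ x : ℤ, |lt μ s κ r u x - ρ| ≤ K₁ * wd μ s (T (u + n)) →
      fh84 μ s h η p M l (r u) x ≤ 2 * PMP84 μ s h η p M l (r u) (r (u + (i + 3))) x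
        (fun z => |lt μ s κ r (u + (i + 3)) z - lt μ s κ r u x| ≤ Y * 2 ^ ((n - i) / Cn) * wd μ s (T (u + (i + 2))))) →
    (∀ n, n < m → ∀ x x' : ℤ, |lt μ s κ r u x' - ρ| ≤ K₁ * wd μ s (T (u + n)) → K₁ * wd μ s (T (u + m)) < |lt μ s κ r u x - ρ| →
      fh84 μ s h η p M l (r u) x ≤ Real.exp (Ac * (Φ ^ m * EE μ s (T (u + m))) + σ / 2 * (EE μ s (T u) / wd μ s (T u)) * |(x : ℝ) - x'|) *
        fh84 μ s h η p M l (r u) x') →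
    ∀ n, n < m → ∀ (x x' : ℤ), |lt μ s κ r u x' - ρ| ≤ K₁ * wd μ s (T (u + n)) →
    fh84 μ s h η p M l (r u) x ≤ Real.exp (A * (Φ ^ (pw * n) * EE μ s (T u)) + σ * (EE μ s (T u) / wd μ s (T u)) * |(x : ℝ) - x'|) * fh84 μ s h η p M l (r u) x' := by
  obtain ⟨pw, HR⟩ := lr_rowQ89 h0
  obtain ⟨g, Kf, hg, hKf, HF⟩ := lr_far h0
  refine ⟨pw, fun Φ hΦ => ?_⟩
  obtain ⟨Kr, hKr, HR⟩ := HR Φ hΦ
  obtain ⟨Kg, hKg⟩ := ratio_for89 hΦ hg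
  have hΦ0 : 0 < Φ := by linarith
  obtain ⟨K₀, hK₀⟩ : ∃ K₀ : ℕ, K₀ = max (max Kr Kf) Kg := ⟨_, rfl⟩
  have hK₀r : Kr ≤ K₀ := by rw [hK₀]; exact (le_max_left _ _).trans (le_max_left _ _)
  have hK₀f : Kf ≤ K₀ := by rw [hK₀]; exact (le_max_right _ _).trans (le_max_left _ _)
  have hK₀g : Kg ≤ K₀ := by rw [hK₀]; exact le_max_right _ _
  have hBK := hKg K₀ hK₀g
  refine ⟨K₀, hKr.trans hK₀r, fun P θ K B₂ Cn hθ hK hB₂ hCn hB₂Φ b => ?_⟩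
  obtain ⟨Bp, hBp, HR'⟩ := HR P θ K B₂ Cn hθ hK hB₂ hCn hB₂Φ b
  refine ⟨Bp, hBp, fun σ K₁ q₀ R Y Ac hσ hK₁ hq₀ hR hY hAc => ?_⟩
  obtain ⟨A₁, j₀, n₂, hA₁, hn₂, H1⟩ := HR' σ K₁ q₀ R Y hσ hK₁ hq₀ hR hY
  obtain ⟨A₂, n₃, hA₂, hn₃, H2⟩ := HF σ Ac K₁ Φ hσ hAc hK₁ hΦ
  refine ⟨A₁ + A₂, j₀, max n₂ n₃, by positivity, hn₂.trans (le_max_left _ _), ?_⟩
  intro h η p M l κ r T N q bs w β u m Θ B₁ δ hl hp hp' hΘ hΘ2 hΘΦ hL hT hq hB₁ hδ1 hδ2 hst hcone ρ hρ harm hcr n hn x x' hx'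
  have hTu := hL.T1 u le_rfl (by omega)
  have l3 : n₃ ≤ T u := (le_max_right _ _).trans hTu
  have hTu1 : 1 ≤ T u := hn₃.trans l3
  have hpos : ∀ k, 0 < p k := by
    intro k
    rcases lt_or_ge k M with h2 | h2
    · rw [hp k h2]
      exact Real.exp_pos _
    · rw [hp' k h2]
      exact Real.exp_pos _
  have hE := EE_pos (μ := μ) (s := s) (T u)
  have hw := h0.wd_pos hTu1
  have hpn : (1 : ℝ) ≤ Φ ^ (pw * n) := one_le_pow₀ hΦ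
  have hx0 := abs_nonneg ((x : ℝ) - x')
  rcases le_or_gt |lt μ s κ r u x - ρ| (K₁ * wd μ s (T (u + m))) with h1 | h1
  · have key := H1 hl hp hp' hΘ hΘ2 hΘΦ (hL.sub le_rfl le_rfl (le_max_left _ _))
      (fun v h2 h3 => ⟨(Nat.mul_le_mul_right _ hK₀r).trans (hT v h2 h3).1, (hT v h2 h3).2⟩) hq hB₁ hδ1 hδ2 hst hcone ρ hρ harm
      n hn.le x x' hx' h1
    refine key.trans (mul_le_mul_of_nonneg_right (Real.exp_le_exp.2 ?_) (fh_nonneg hpos hl _ _))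
    have h2 : 0 ≤ A₂ * (Φ ^ (pw * n) * EE μ s (T u)) := by positivity
    linarith
  · obtain ⟨x₀, hx₀⟩ : ∃ x₀ : ℝ, x₀ = (κ.2 : ℝ) + sl μ s * ((r u : ℝ) - (κ.1 : ℝ)) + ρ := ⟨_, rfl⟩
    have hlt : ∀ y : ℤ, lt μ s κ r u y - ρ = (y : ℝ) - x₀ := by
      intro y
      rw [lt_eq, hx₀]
      ring
    have key := H2 (fun v => T (u + v)) m l3 (fun v hv => (Nat.mul_le_mul_right _ hK₀f).trans (hT (u + v) (by omega) (by omega)).1)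
      (pow_ratio89 (K₀ := K₀) (T := fun v => T (u + v)) hTu1 (fun v hv => (hT (u + v) (by omega) (by omega)).1) hΦ0.le hg hBK m le_rfl)
      (fh84 μ s h η p M l (r u)) x₀ n x x' (fh_nonneg hpos hl _ _) hn (by rw [← hlt]; exact h1) (by rw [← hlt]; exact hx') (hcr n hn x x' hx' h1)
    refine key.trans (mul_le_mul_of_nonneg_right (Real.exp_le_exp.2 ?_) (fh_nonneg hpos hl _ _))
    have h2 : 0 ≤ A₁ * (Φ ^ (pw * n) * EE μ s (T u)) := by positivity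
    have h3 : A₂ * EE μ s (T u) ≤ A₂ * (Φ ^ (pw * n) * EE μ s (T u)) :=
      mul_le_mul_of_nonneg_left (le_mul_of_one_le_left hE.le hpn) hA₂
    rw [add_zero]
    linarith

end

end Pool.Agent.W_7d29a1_C1.LrQ89
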