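import Pool.Agent.W_7d29a1_C1.LRC84

/-!
MP_7d29a1_pr, [C1], (LR): **THE SLOPE FORM**. `wd_pow84`: `wd` grows by any factor at a large enough ratio of the scales. `sub84`: the powers
`Φ ^ (p n)` of the local regularity are at most the square root of `wd (T n) / wd (T 0)`. `slope84`: (LR) with the far reference `x'`
(`|x' - x₀| ≤ K₁ wd (T n)`, cost `A Φ ^ (p n) EE`) ⟹ cost `(Q + 2 σ (|x - x₀| + |x' - x₀|) / wd (T 0)) EE (T 0)`, `Q` free of the distance.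
The lower bound `K₀` of the ratio depends on `Φ`, `p` only (numbers of `In`: `B₂ := max 4 D`, `StpD84`). (helper84)
-/

set_option autoImplicit false

namespace Pool.Agent.W_7d29a1_C1.DD84

open MeasureTheory ProbabilityTheory Filter Topology
open Pool.Agent.W_7d29a1_F Pool.Agent.W_7d29a1_h4g Pool.Agent.W_7d29a1_H Pool.Agent.W_7d29a1_HS

noncomputable section

variable {μ : Measure ℝ} {s c C : ℝ} {n₀ : ℕ}

variable [IsProbabilityMeasure μ]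

/-- `wd` grows by the factor `W` at the ratio `K₀`. -/
theorem wd_pow84 (h : In μ s c C n₀) (W : ℝ) : ∃ K₀ n₁ : ℕ, 2 ≤ K₀ ∧ 1 ≤ n₁ ∧ ∀ m n : ℕ, n₁ ≤ m → K₀ * m ≤ n → W * wd μ s m ≤ wd μ s n := by
  obtain ⟨Kw, n₁, hK, hn₁, hw⟩ := wd_four h
  have hit : ∀ j m n : ℕ, n₁ ≤ m → Kw ^ (j + 1) * m ≤ n → 4 ^ (j + 1) * wd μ s m ≤ wd μ s n := by
    intro j
    induction j with
    | zero =>
      intro m n hm hn
      rw [zero_add, pow_one] at hn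
      rw [zero_add, pow_one]
      exact hw m n hm hn
    | succ j ih =>
      intro m n hm hn
      have h1 : m ≤ Kw * m := Nat.le_mul_of_pos_left _ (by omega)
      have h2 := hw m (Kw * m) hm le_rfl
      have h3 := ih (Kw * m) n (hm.trans h1) (by
        calc Kw ^ (j + 1) * (Kw * m) = Kw ^ (j + 1 + 1) * m := by ring
          _ ≤ n := hn)
      have h4 := mul_le_mul_of_nonneg_left h2 (show (0 : ℝ) ≤ 4 ^ (j + 1) by positivity)
      calc (4 : ℝ) ^ (j + 1 + 1) * wd μ s m = 4 ^ (j + 1) * (4 * wd μ s m) := by ring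
        _ ≤ 4 ^ (j + 1) * wd μ s (Kw * m) := h4
        _ ≤ _ := h3
  obtain ⟨j, hj⟩ := pow_unbounded_of_one_lt W (show (1 : ℝ) < 4 by norm_num)
  refine ⟨Kw ^ (j + 1), n₁, hK.trans (Nat.le_self_pow (by omega) _), hn₁, fun m n hm hn => ?_⟩
  have h1 := hit j m n hm hn
  have h2 : 0 < wd μ s m := h.wd_pos (hn₁.trans hm)
  refine (mul_le_mul_of_nonneg_right ?_ h2.le).trans h1
  calc W ≤ 4 ^ j := hj.le
    _ ≤ 4 ^ (j + 1) := pow_le_pow_right₀ (by norm_num) (by omega)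

/-- The powers of (LR) are at most the square root of the ratio of the widths. -/
theorem sub84 (h : In μ s c C n₀) {Φ : ℝ} (hΦ : 1 ≤ Φ) (p : ℕ) : ∃ K₀ n₁ : ℕ, 2 ≤ K₀ ∧ 1 ≤ n₁ ∧ ∀ (T : ℕ → ℕ) (m : ℕ), n₁ ≤ T 0 →
    (∀ v, v < m → K₀ * T v ≤ T (v + 1)) → ∀ n, n ≤ m → (Φ ^ (p * n)) ^ 2 * wd μ s (T 0) ≤ wd μ s (T n) := by
  obtain ⟨K₀, n₁, hK, hn₁, hw⟩ := wd_pow84 h (Φ ^ (2 * p))
  refine ⟨K₀, n₁, hK, hn₁, fun T m hT0 hT => ?_⟩
  have hTm : ∀ n, n ≤ m → n₁ ≤ T n := by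
    intro n
    induction n with
    | zero => intro _; exact hT0
    | succ n ih =>
      intro hn
      exact (ih (by omega)).trans ((Nat.le_mul_of_pos_left _ (by omega)).trans (hT n (by omega)))
  intro n
  induction n with
  | zero => intro _; simp
  | succ n ih =>
    intro hn
    have h1 := ih (by omega)
    have h2 := hw (T n) (T (n + 1)) (hTm n (by omega)) (hT n (by omega))
    have h3 := mul_le_mul_of_nonneg_left h1 (show 0 ≤ Φ ^ (2 * p) by positivity)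
    calc (Φ ^ (p * (n + 1))) ^ 2 * wd μ s (T 0) = Φ ^ (2 * p) * ((Φ ^ (p * n)) ^ 2 * wd μ s (T 0)) := by ring
      _ ≤ Φ ^ (2 * p) * wd μ s (T n) := h3
      _ ≤ _ := h2

/-- **THE SLOPE FORM OF (LR)**: a far reference `x'` costs `Q + 2 σ |x' - x₀| / wd (T 0)`, `Q` free of the distance. -/
theorem slope84 (h : In μ s c C n₀) {Φ : ℝ} (hΦ : 1 ≤ Φ) (p : ℕ) : ∃ K₀ : ℕ, 2 ≤ K₀ ∧ ∀ σ A K₁ : ℝ, 0 < σ → 0 ≤ A → 1 ≤ K₁ →
    ∃ (Q : ℝ) (n₁ : ℕ), 0 ≤ Q ∧ 1 ≤ n₁ ∧ ∀ (T : ℕ → ℕ) (m : ℕ), n₁ ≤ T 0 → (∀ v, v < m → K₀ * T v ≤ T (v + 1)) →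
    ∀ (F : ℤ → ℝ) (x₀ : ℝ) (x x' : ℤ), 0 ≤ F x' →
    (∀ n, n ≤ m → |(x' : ℝ) - x₀| ≤ K₁ * wd μ s (T n) →
      F x ≤ Real.exp (A * (Φ ^ (p * n) * EE μ s (T 0)) + σ * (EE μ s (T 0) / wd μ s (T 0)) * |(x : ℝ) - x'|) * F x') →
    |(x' : ℝ) - x₀| ≤ K₁ * wd μ s (T m) →
    F x ≤ Real.exp ((Q + 2 * σ * ((|(x : ℝ) - x₀| + |(x' : ℝ) - x₀|) / wd μ s (T 0))) * EE μ s (T 0)) * F x' := by
  obtain ⟨K₀, n₁, hK, hn₁, hs⟩ := sub84 h hΦ p
  refine ⟨K₀, hK, fun σ A K₁ hσ hA hK₁ => ?_⟩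
  obtain ⟨G, hG⟩ : ∃ G : ℝ, G = A * Φ ^ p := ⟨_, rfl⟩
  have hG0 : 0 ≤ G := by rw [hG]; positivity
  refine ⟨A + G ^ 2 / σ, n₁, by positivity, hn₁, fun T m hT0 hT F x₀ x x' hF hH hm => ?_⟩
  have hw0 : 0 < wd μ s (T 0) := h.wd_pos (hn₁.trans hT0)
  have hE := EE_pos (μ := μ) (s := s) (T 0)
  obtain ⟨w, hw⟩ : ∃ w : ℝ, w = wd μ s (T 0) := ⟨_, rfl⟩
  obtain ⟨E, hEE⟩ : ∃ E : ℝ, E = EE μ s (T 0) := ⟨_, rfl⟩
  obtain ⟨d, hd⟩ : ∃ d : ℝ, d = |(x : ℝ) - x₀| := ⟨_, rfl⟩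
  obtain ⟨d', hd'⟩ : ∃ d' : ℝ, d' = |(x' : ℝ) - x₀| := ⟨_, rfl⟩
  have hd0 : 0 ≤ d := by rw [hd]; exact abs_nonneg _
  have hd0' : 0 ≤ d' := by rw [hd']; exact abs_nonneg _
  have htri : |(x : ℝ) - x'| ≤ d + d' := by
    rw [hd, hd', show (x : ℝ) - x' = ((x : ℝ) - x₀) + (-((x' : ℝ) - x₀)) by ring]
    refine (abs_add_le _ _).trans (le_of_eq ?_)
    rw [abs_neg]
  classical
  have hex : ∃ n, |(x' : ℝ) - x₀| ≤ K₁ * wd μ s (T n) := ⟨m, hm⟩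
  obtain ⟨n, hn⟩ : ∃ n, n = Nat.find hex := ⟨_, rfl⟩
  have hnm : n ≤ m := by rw [hn]; exact Nat.find_min' hex hm
  have hn1 : |(x' : ℝ) - x₀| ≤ K₁ * wd μ s (T n) := by rw [hn]; exact Nat.find_spec hex
  have h1 := hH n hnm hn1
  refine h1.trans (mul_le_mul_of_nonneg_right (Real.exp_le_exp.2 ?_) hF)
  rw [← hw, ← hEE, ← hd, ← hd']
  rw [← hw] at hw0
  rw [← hEE] at hE
  have e1 : σ * (E / w) * |(x : ℝ) - x'| ≤ σ * ((d + d') / w) * E := by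
    calc σ * (E / w) * |(x : ℝ) - x'| ≤ σ * (E / w) * (d + d') := mul_le_mul_of_nonneg_left htri (by positivity)
      _ = σ * ((d + d') / w) * E := by ring
  have e2 : A * (Φ ^ (p * n) * E) ≤ (A + G ^ 2 / σ + σ * ((d + d') / w)) * E := by
    have e3 : A * Φ ^ (p * n) ≤ A + G ^ 2 / σ + σ * ((d + d') / w) := by
      rcases Nat.eq_zero_or_pos n with h0 | h0
      · rw [h0, mul_zero, pow_zero, mul_one]
        have h2 : 0 ≤ G ^ 2 / σ := by positivity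
        have h3 : 0 ≤ σ * ((d + d') / w) := by positivity
        linarith
      · obtain ⟨k, rfl⟩ : ∃ k, n = k + 1 := ⟨n - 1, by omega⟩
        have h2 : ¬ |(x' : ℝ) - x₀| ≤ K₁ * wd μ s (T k) := Nat.find_min hex (by omega)
        rw [not_le, ← hd'] at h2
        have h3 := hs T m hT0 hT k (by omega)
        rw [← hw] at h3
        have hwk : wd μ s (T k) ≤ d' := by
          have h4 : 0 ≤ wd μ s (T k) := le_trans (by positivity) h3
          have h5 : wd μ s (T k) ≤ K₁ * wd μ s (T k) := le_mul_of_one_le_left h4 hK₁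
          linarith
        obtain ⟨z, hz⟩ : ∃ z : ℝ, z = Φ ^ (p * k) := ⟨_, rfl⟩
        have h6 : z ^ 2 ≤ d' / w := by
          rw [le_div_iff₀ hw0, hz]
          exact h3.trans hwk
        have h7 : A * Φ ^ (p * (k + 1)) = G * z := by
          rw [hG, hz]
          ring
        have h8 : G * z ≤ G ^ 2 / σ + σ * z ^ 2 := by
          rw [div_add' _ _ _ hσ.ne', le_div_iff₀ hσ]
          nlinarith [sq_nonneg (G - σ * z), mul_nonneg (mul_nonneg hG0 (show 0 ≤ z by rw [hz]; positivity)) hσ.le]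
        have h9 := mul_le_mul_of_nonneg_left h6 hσ.le
        have h10 : σ * (d' / w) ≤ σ * ((d + d') / w) := by
          refine mul_le_mul_of_nonneg_left (div_le_div_of_nonneg_right ?_ hw0.le) hσ.le
          linarith
        rw [h7]
        linarith
    calc A * (Φ ^ (p * n) * E) = A * Φ ^ (p * n) * E := by ring
      _ ≤ _ := mul_le_mul_of_nonneg_right e3 hE.le
  calc A * (Φ ^ (p * n) * E) + σ * (E / w) * |(x : ℝ) - x'|
      ≤ (A + G ^ 2 / σ + σ * ((d + d') / w)) * E + σ * ((d + d') / w) * E := add_le_add e2 e1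
    _ = _ := by ring

end

end Pool.Agent.W_7d29a1_C1.DD84
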