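import Pool.Agent.W_7d29a1_C1.FaD45
import Pool.Agent.W_7d29a1_C1.LnM83
import Pool.Agent.W_7d29a1_C1.FrC11

/-!
MP_7d29a1_pr, [C1] SHELL, SIDE F, (W): **THE FACTS OF ONE PLACE IN THE LETTERS OF `frP83` AND `frV47`** (helper5).

`σ = sg45 ..`, base `z` of the box, line of `κ = (z.1, z.2 + cm j)`, rows `c₀ = σ.c0 j z`, `c₀' = c₀ + (nM + TF)`. `uN5`, `tN5`, `bN5` : the columns
next to the line; `cel5` : the cells of `So47`; `ln5` : `LN83` from `MO45`.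
-/

set_option autoImplicit false

namespace Pool.Agent.W_7d29a1_C1.F45

open MeasureTheory Finset Filter Topology
open Pool.Agent.W_7d29a1_F Pool.Agent.W_7d29a1_h4g Pool.Agent.W_7d29a1_H Pool.Agent.W_7d29a1_HS
open Pool.Agent.W_7d29a1_C1
open Pool.Agent.W_7d29a1_C1.Basin76 (kW)
open Pool.Agent.W_7d29a1_C1.T10 (kF cF)
open Pool.Agent.W_7d29a1_C1.S83 (RowG)
open Pool.Agent.W_7d29a1_C1.B26
open Pool.Agent.W_7d29a1_C1.H8 (uc8 sg8 uc8_near ln8_c0 ln8_c3 zc8_near mem_win8 cell8 mem_cl8)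
open Pool.Agent.W_7d29a1_C1.Fr47
open Pool.Agent.W_7d29a1_C1.JnC35 (ln35)
open Pool.Agent.W_7d29a1_C1.U11 (ml11)

noncomputable section

variable {μ : Measure ℝ} {s d th : ℝ} {o : LnO} {Q : ℕ} {k : KE45} {T : ℕ → ℕ} {cm : ℕ → ℤ} {m₂ : ℕ} {φ v v₁ g₂ : ℝ} {j : ℕ} {z : ℕ × ℤ}

/-- The line of the box at the row `c₀`. -/
theorem lnA5 (hT : T j ≤ z.1) : ln35 μ s ((z.1 : ℤ), z.2 + cm j) (z.1 - T j + 1) = (z.2 : ℝ) + ((cm j : ℝ) + sl μ s * (1 - (T j : ℝ))) := by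
  have e : (((z.1 - T j + 1 : ℕ) : ℤ)) - (z.1 : ℤ) = 1 - (T j : ℤ) := by omega
  unfold ln35
  show ((z.2 + cm j : ℤ) : ℝ) + sl μ s * (((((z.1 - T j + 1 : ℕ) : ℤ)) - (z.1 : ℤ) : ℤ) : ℝ) = _
  rw [e]
  push_cast
  ring

/-- The columns of the cells of the row `c₀`. -/
theorem uN5 (hT : T j ≤ z.1) (i : Bool) :
    |((u45 μ s d T cm j i + z.2 : ℤ) : ℝ) - (ln35 μ s ((z.1 : ℤ), z.2 + cm j) (z.1 - T j + 1) + ml11 d i * wd μ s (T j))| ≤ 1 := by
  have h := uc8_near (μ := μ) (s := s) d (wd μ s (T j)) (cm j) (1 - (T j : ℤ)) i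
  rw [lnA5 hT]
  have e : ((u45 μ s d T cm j i + z.2 : ℤ) : ℝ) - ((z.2 : ℝ) + ((cm j : ℝ) + sl μ s * (1 - (T j : ℝ))) + ml11 d i * wd μ s (T j)) =
      (uc8 μ s d (wd μ s (T j)) (cm j) (1 - (T j : ℤ)) i : ℝ) - (cm j + sl μ s * ((1 - (T j : ℤ) : ℤ) : ℝ) +
        (if i then 3 / 4 * d * wd μ s (T j) else -(3 / 4 * d * wd μ s (T j)))) := by
    unfold u45 ml11
    cases i
    · simp only [Bool.false_eq_true, if_false]
      push_cast
      ring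
    · simp only [if_true]
      push_cast
      ring
  rw [e]
  exact h

/-- The columns of the cells of the row `c₀'`. -/
theorem tN5 [IsProbabilityMeasure μ] (hT : T j ≤ z.1) (i : Bool) :
    |((t45 μ s d th o Q T cm j i + z.2 : ℤ) : ℝ) -
      (ln35 μ s ((z.1 : ℤ), z.2 + cm j) (z.1 - T j + 1 + (nM45 th o Q T j + TF45 th o Q T j)) + ml11 d i * wd μ s (T j))| ≤ 1 := by
  have h := uc8_near (μ := μ) (s := s) d (wd μ s (T j)) (cm j) (1 - (T j : ℤ) + ((nM45 th o Q T j + TF45 th o Q T j : ℕ) : ℤ)) i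
  rw [ln35_add, lnA5 hT]
  have e : ((t45 μ s d th o Q T cm j i + z.2 : ℤ) : ℝ) - ((z.2 : ℝ) + ((cm j : ℝ) + sl μ s * (1 - (T j : ℝ))) +
      sl μ s * ((nM45 th o Q T j + TF45 th o Q T j : ℕ) : ℝ) + ml11 d i * wd μ s (T j)) =
      (uc8 μ s d (wd μ s (T j)) (cm j) (1 - (T j : ℤ) + ((nM45 th o Q T j + TF45 th o Q T j : ℕ) : ℤ)) i : ℝ) - (cm j +
        sl μ s * ((1 - (T j : ℤ) + ((nM45 th o Q T j + TF45 th o Q T j : ℕ) : ℤ) : ℤ) : ℝ) +
        (if i then 3 / 4 * d * wd μ s (T j) else -(3 / 4 * d * wd μ s (T j)))) := by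
    unfold t45 ml11
    cases i
    · simp only [Bool.false_eq_true, if_false]
      push_cast
      ring
    · simp only [if_true]
      push_cast
      ring
  rw [e]
  exact h

/-- The base of the buffer. -/
theorem bN5 (hT : T j ≤ z.1) :
    |(((bp45 μ s T cm j).2 + z.2 : ℤ) : ℝ) - ln35 μ s ((z.1 : ℤ), z.2 + cm j) (z.1 - T j + 1)| ≤ 1 := by
  rw [lnA5 hT]
  have f1 := Int.floor_le (sl μ s * (1 - (T j : ℝ)))
  have f2 := Int.lt_floor_add_one (sl μ s * (1 - (T j : ℝ)))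
  have e : (bp45 μ s T cm j).2 = cm j + ⌊sl μ s * (1 - (T j : ℝ))⌋ := rfl
  rw [e]
  push_cast
  rw [abs_le]
  constructor <;> linarith

theorem bp1_5 (hT : T j ≤ z.1) : (bp45 μ s T cm j).1 + (z.1 : ℤ) = ((z.1 - T j + 1 : ℕ) : ℤ) := by
  show 1 - (T j : ℤ) + (z.1 : ℤ) = _
  omega

/-- The cells of `So47` : within `th wd TF` of the middles. -/
theorem cel5 (h0 : 0 ≤ o.th * wd μ s (TF45 th o Q T j)) (b : Bool) {x : ℤ} (hx : x ∈ cl83 (sg45 μ s d th o Q k T cm m₂ φ v v₁ g₂) j z b) :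
    |(x : ℝ) - ((u45 μ s d T cm j b + z.2 : ℤ) : ℝ)| ≤ o.th * wd μ s (TF45 th o Q T j) := by
  have h1 : |x - (z.2 + u45 μ s d T cm j b)| ≤ ((⌊o.th * wd μ s (TF45 th o Q T j)⌋₊ : ℕ) : ℤ) := by
    rcases b with _ | _
    · have h2 := mem_Icc.1 (show x ∈ Icc (z.2 + (u45 μ s d T cm j false - ((⌊o.th * wd μ s (TF45 th o Q T j)⌋₊ : ℕ) : ℤ)))
        (z.2 + (u45 μ s d T cm j false + ((⌊o.th * wd μ s (TF45 th o Q T j)⌋₊ : ℕ) : ℤ))) from hx)
      rw [abs_le]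
      omega
    · have h2 := mem_Icc.1 (show x ∈ Icc (z.2 + (u45 μ s d T cm j true - ((⌊o.th * wd μ s (TF45 th o Q T j)⌋₊ : ℕ) : ℤ)))
        (z.2 + (u45 μ s d T cm j true + ((⌊o.th * wd μ s (TF45 th o Q T j)⌋₊ : ℕ) : ℤ))) from hx)
      rw [abs_le]
      omega
  have h2 := (cell8 (u := u45 μ s d T cm) (rad := fun j => ⌊o.th * wd μ s (TF45 th o Q T j)⌋₊) (j := j) (y := z.2) (i := b) h0 rfl).1 h1
  push_cast
  exact h2

/-- **THE LANES AT ONE PLACE.** -/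
theorem ln5 [IsProbabilityMeasure μ] {c K0 ell g G' r A : ℝ} {ζ : Env} (hc : 0 ≤ c) (hd : 0 < d) (hd1 : d ≤ 1)
    (ho : o.Ok (lnI c d th K0)) (hT : T j ≤ z.1) (hw : 1 ≤ wd μ s (T j)) (hwF : wd μ s (TF45 th o Q T j) ≤ 2 * wd μ s (T j))
    (hM : MO45 μ s c d th (lnI c d th K0) ell g G' o Q T cm j ((z.1 : ℤ), z.2) ζ r A) :
    LN83 μ s c ζ ((z.1 : ℤ), z.2 + cm j) (z.1 - T j + 1) (nM45 th o Q T j + TF45 th o Q T j) (T j) (TF45 th o Q T j)
      (cl83 (sg45 μ s d th o Q k T cm m₂ φ v v₁ g₂) j z) (fun b => ic83 (t45 μ s d th o Q T cm j b + z.2) r)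
      (fun b => t45 μ s d th o Q T cm j b + z.2) (fun b => ml11 d b * wd μ s (T j)) (ell + 2 * 1) 1 (1 + 1) 2 (c / 8) g G' o.Qe o.Pe A r := by
  have hth : o.th ≤ d / 16 := ho.th1
  have hw1 := hM.w1
  have h1F : 1 ≤ wd μ s (TF45 th o Q T j) := by
    have h0 := ho.th0
    by_contra hcon
    rw [not_le] at hcon
    have h2 : 0 ≤ wd μ s (TF45 th o Q T j) := by
      by_contra h3
      rw [not_le] at h3
      have := mul_neg_of_pos_of_neg h0 h3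
      linarith
    have h3 : o.th * wd μ s (TF45 th o Q T j) ≤ 1 * wd μ s (TF45 th o Q T j) := mul_le_mul_of_nonneg_right (by linarith) h2
    linarith
  have hR : o.th * wd μ s (TF45 th o Q T j) ≤ d / 8 * wd μ s (T j) := by
    have h2 : o.th * wd μ s (TF45 th o Q T j) ≤ d / 16 * wd μ s (TF45 th o Q T j) := mul_le_mul_of_nonneg_right hth (by linarith)
    have h3 : d / 16 * wd μ s (TF45 th o Q T j) ≤ d / 16 * (2 * wd μ s (T j)) := mul_le_mul_of_nonneg_left hwF (by positivity)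
    linarith
  have hml : ∀ b, |ml11 d b * wd μ s (T j)| = 3 / 4 * d * wd μ s (T j) := fun b => by
    have h2 : 0 ≤ 3 / 4 * d * wd μ s (T j) := by positivity
    cases b
    · unfold ml11
      simp only [Bool.false_eq_true, if_false]
      rw [neg_mul, abs_neg, abs_of_nonneg h2]
    · unfold ml11
      simp only [if_true]
      rw [abs_of_nonneg h2]
  have hdw : d * wd μ s (T j) ≤ wd μ s (T j) := mul_le_of_le_one_left (by linarith) hd1
  have e1 := bp1_5 (μ := μ) (s := s) (T := T) (cm := cm) (j := j) (z := z) hT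
  have hra := hM.ra
  have hrb := hM.rb
  have hmo := hM.mo
  have e2 : (bp45 μ s T cm j).1 + (z.1 : ℤ) + nM45 th o Q T j + TF45 th o Q T j =
      ((z.1 - T j + 1 + (nM45 th o Q T j + TF45 th o Q T j) : ℕ) : ℤ) := by
    rw [e1]
    push_cast
    ring
  simp only at hra hrb hmo
  rw [e1] at hra hmo
  rw [e2] at hrb
  refine ln83_mo (a₀ := (bp45 μ s T cm j).2 + z.2) (u' := fun b => u45 μ s d T cm j b + z.2) (R := o.th * wd μ s (TF45 th o Q T j)) (L := 1)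
    (Q1 := o.Q1) hc h1F zero_le_one hM.r0 hmo hra hrb ?_ (fun b x hx => cel5 (by linarith) b hx) (fun b x hx => ?_) (fun b => tN5 hT b)
    fun b => ?_
  · have h2 := bN5 (μ := μ) (s := s) (T := T) (cm := cm) (j := j) (z := z) hT
    linarith
  · have h2 := cel5 (by linarith) b hx
    have h3 := uN5 (μ := μ) (s := s) (d := d) (T := T) (cm := cm) (j := j) (z := z) hT b
    have e : (x : ℝ) - ln35 μ s ((z.1 : ℤ), z.2 + cm j) (z.1 - T j + 1) = ((x : ℝ) - ((u45 μ s d T cm j b + z.2 : ℤ) : ℝ)) +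
        ((((u45 μ s d T cm j b + z.2 : ℤ) : ℝ) - (ln35 μ s ((z.1 : ℤ), z.2 + cm j) (z.1 - T j + 1) + ml11 d b * wd μ s (T j))) +
          ml11 d b * wd μ s (T j)) := by ring
    rw [e]
    have h4 := abs_add_le ((x : ℝ) - ((u45 μ s d T cm j b + z.2 : ℤ) : ℝ))
      ((((u45 μ s d T cm j b + z.2 : ℤ) : ℝ) - (ln35 μ s ((z.1 : ℤ), z.2 + cm j) (z.1 - T j + 1) + ml11 d b * wd μ s (T j))) +
          ml11 d b * wd μ s (T j))
    have h5 := abs_add_le (((u45 μ s d T cm j b + z.2 : ℤ) : ℝ) - (ln35 μ s ((z.1 : ℤ), z.2 + cm j) (z.1 - T j + 1) +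
      ml11 d b * wd μ s (T j))) (ml11 d b * wd μ s (T j))
    have h6 := hml b
    linarith
  · rw [hml b]
    have h2 := hM.r1
    linarith

end

end Pool.Agent.W_7d29a1_C1.F45
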