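import Pool.Agent.W_7d29a1_C1.ShlP45
import Pool.Agent.W_7d29a1_C1.FreCZ20

/-!
MP_7d29a1_pr, [C1], SHELL, SIDE F (helper10): **THE LEAF `LsB`** from the buffer of the fresh ball: `freRZ20` at every level (`eps = 1 / 8`),
base `bp45`, middles `u45`, `t45`. `wd_mono10`: the widths are monotone.
-/

set_option autoImplicit false

namespace Pool.Agent.W_7d29a1_C1.F45

open MeasureTheory ProbabilityTheory Filter Topology
open Pool.Agent.W_7d29a1_F Pool.Agent.W_7d29a1_h4g Pool.Agent.W_7d29a1_H Pool.Agent.W_7d29a1_HS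
open Pool.Agent.W_7d29a1_C1 (On20)
open Pool.Agent.W_7d29a1_C1.T10
open Pool.Agent.W_7d29a1_C1.S71 Pool.Agent.W_7d29a1_C1.Sw9
open Pool.Agent.W_7d29a1_C1.B26 (FrC026 freRZ20 cp26)
open Pool.Agent.W_7d29a1_C1.H8 (uc8 uc8_near uc8_sep)

noncomputable section

variable {μ : Measure ℝ} {s c C : ℝ} {n₀ : ℕ}

/-- **The widths are monotone.** -/
theorem wd_mono10 [IsProbabilityMeasure μ] (h : In μ s c C n₀) {m n : ℕ} (hm : 1 ≤ m) (hmn : m ≤ n) : wd μ s m ≤ wd μ s n := by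
  have hm0 : (0 : ℝ) < m := by exact_mod_cast hm
  have hn0 : (0 : ℝ) < n := by exact_mod_cast (show 0 < n by omega)
  have hEm := EE_pos (μ := μ) (s := s) m
  have hE : EE μ s m ≤ EE μ s n := EE_mono hmn
  have pm := h.vA_pos hm
  rcases le_total (EE μ s n / n) (EE μ s m / m) with hl | hl
  · have h1 := vA_div_le h hm (show 1 ≤ n by omega) hl
    have h2 := mul_le_mul_of_nonneg_right h1 (show (0 : ℝ) ≤ m * n by positivity)
    have h3 : vA 1 μ s m * (EE μ s n / n) * (m * n) = wd μ s m * EE μ s n := by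
      unfold wd
      field_simp
    have h4 : vA 1 μ s n * (EE μ s m / m) * (m * n) = wd μ s n * EE μ s m := by
      unfold wd
      field_simp
    rw [h3, h4] at h2
    have h5 : wd μ s m * EE μ s m ≤ wd μ s m * EE μ s n := mul_le_mul_of_nonneg_left hE (h.wd_nonneg m)
    exact le_of_mul_le_mul_right (h5.trans h2) hEm
  · have h1 : vA 1 μ s m ≤ vA 1 μ s n := by
      have hl' : 1 * EE μ s m / m ≤ 1 * EE μ s n / n := by rwa [one_mul, one_mul]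
      have hr := h.rf.wR_mono (lev_nonneg m) hl'
      have hw := h.rf.wL_mono (lev_nonneg m) hl'
      unfold vA vr vl
      linarith
    unfold wd
    exact mul_le_mul (by exact_mod_cast hmn) h1 pm.le hn0.le

/-- **The numbers of a level.** -/
theorem lvlB10 [IsProbabilityMeasure μ] (h : In μ s c C n₀) {d th : ℝ} (hd : 0 < d) (hd1 : d ≤ 1) (hth : 0 < th) (hth4 : th ≤ 1 / 4)
    {o : LnO} (ha : 1 ≤ o.a) (haj : o.a ≤ o.j1) (hj2 : 1 ≤ o.j2) {Q : ℕ} (hQ : 1 ≤ Q) (k₁ : ℕ) (hk₁ : 1 ≤ k₁) : ∃ n₁ : ℕ, 1 ≤ n₁ ∧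
    ∀ (T : ℕ → ℕ) (cm : ℕ → ℤ) (j : ℕ), n₁ ≤ T j → k₁ ≤ kk45 th o Q T j ∧
      (∀ i, |((u45 μ s d T cm j i - (bp45 μ s T cm j).2 : ℤ) : ℝ)| ≤ 8 * wd μ s (TF45 th o Q T j)) ∧
      (∀ i, |((t45 μ s d th o Q T cm j i - (bp45 μ s T cm j).2 : ℤ) : ℝ) - sl μ s * (nM45 th o Q T j + TF45 th o Q T j : ℕ)| ≤
        8 * wd μ s (TF45 th o Q T j)) ∧
      (u45 μ s d T cm j false : ℝ) + d / 2 * wd μ s (TF45 th o Q T j) ≤ u45 μ s d T cm j true ∧
      (t45 μ s d th o Q T cm j false : ℝ) + d / 2 * wd μ s (TF45 th o Q T j) ≤ t45 μ s d th o Q T cm j true := by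
  obtain ⟨R₁, hR₁⟩ : ∃ R₁ : ℕ, R₁ = R145 o Q := ⟨_, rfl⟩
  have hR : 1 ≤ R₁ := by
    rw [hR₁]
    unfold R145
    exact Nat.mul_pos (by omega) (Nat.mul_pos (by omega) (by omega))
  obtain ⟨n₂, hn₂, HF⟩ := rowsF hth hth4 hR k₁
  obtain ⟨n₃, hn₃⟩ := eventually_atTop.1 ((wd_tendsto h).eventually_ge_atTop (4 / d))
  refine ⟨max n₂ (max n₃ (4 * R₁)), hn₂.trans (le_max_left _ _), fun T cm j hT => ?_⟩
  have t1 : n₂ ≤ T j := (le_max_left _ _).trans hT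
  have t2 : n₃ ≤ T j := ((le_max_left _ _).trans (le_max_right _ _)).trans hT
  have t3 : 4 * R₁ ≤ T j := ((le_max_right _ _).trans (le_max_right _ _)).trans hT
  obtain ⟨-, -, -, -, hk, -⟩ := HF (T j) (T j) t1 le_rfl
  obtain ⟨k, hkk⟩ : ∃ k : ℕ, k = kF th R₁ (T j) := ⟨_, rfl⟩
  rw [← hkk] at hk
  have hR0 : (1 : ℝ) ≤ R₁ := by exact_mod_cast hR
  have hT0 : (0 : ℝ) ≤ T j := Nat.cast_nonneg _
  -- the blocks
  have k1 : (R₁ : ℝ) * k ≤ (1 - th / 4) * T j := by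
    have hx0 : 0 ≤ (1 - th / 4) * T j / R₁ := by
      have : 0 ≤ 1 - th / 4 := by linarith
      positivity
    have := Nat.floor_le hx0
    unfold kF at hkk
    rw [← hkk, le_div_iff₀ (by linarith)] at this
    linarith
  have k2 : (1 - th / 4) * T j < R₁ * k + R₁ := by
    have := Nat.lt_floor_add_one ((1 - th / 4) * (T j : ℝ) / R₁)
    unfold kF at hkk
    rw [← hkk, div_lt_iff₀ (by linarith)] at this
    linarith
  obtain ⟨TF, hTF⟩ : ∃ TF : ℕ, TF = TF45 th o Q T j := ⟨_, rfl⟩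
  obtain ⟨nM, hnM⟩ : ∃ nM : ℕ, nM = nM45 th o Q T j := ⟨_, rfl⟩
  have eTF : TF = Q * (o.j1 * o.j2) * k := by
    rw [hTF, hkk, hR₁]
    rfl
  have enM : nM = Q * (o.a * o.j2) * k := by
    rw [hnM, hkk, hR₁]
    rfl
  have eR : R₁ * k = nM + TF := by
    rw [enM, eTF, hR₁]
    unfold R145
    ring
  have hnMT : nM ≤ TF := by
    rw [enM, eTF]
    exact Nat.mul_le_mul_right _ (Nat.mul_le_mul_left _ (Nat.mul_le_mul_right _ haj))
  have hTF1 : 1 ≤ TF := by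
    rw [eTF]
    exact Nat.mul_pos (Nat.mul_pos (by omega) (Nat.mul_pos (by omega) (by omega))) (by omega)
  have hTFT : TF ≤ T j := by
    have h1 : (TF : ℝ) ≤ T j := by
      have h2 : (TF : ℝ) ≤ (R₁ * k : ℕ) := by
        rw [eR]
        push_cast
        have : (0 : ℝ) ≤ nM := Nat.cast_nonneg _
        linarith
      push_cast at h2
      nlinarith
    exact_mod_cast h1
  have hT4 : T j ≤ 4 * TF := by
    have h1 : ((R₁ * k : ℕ) : ℝ) ≤ 2 * TF := by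
      rw [eR]
      push_cast
      have : (nM : ℝ) ≤ TF := by exact_mod_cast hnMT
      linarith
    have h2 : (4 : ℝ) * R₁ ≤ T j := by exact_mod_cast t3
    push_cast at h1
    have h3 : th * T j ≤ 1 / 4 * T j := mul_le_mul_of_nonneg_right hth4 hT0
    have h4 : (T j : ℝ) ≤ 4 * TF := by nlinarith
    exact_mod_cast h4
  -- the widths
  obtain ⟨w, hw⟩ : ∃ w : ℝ, w = wd μ s (T j) := ⟨_, rfl⟩
  obtain ⟨v, hv⟩ : ∃ v : ℝ, v = wd μ s TF := ⟨_, rfl⟩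
  have w1 : w ≤ 8 * v := by
    have h1 := wd_lower_one h hTF1 hTFT
    rw [← hw, ← hv] at h1
    have h2 : (T j : ℝ) ≤ 4 * TF := by exact_mod_cast hT4
    have h3 : 0 ≤ v := hv ▸ h.wd_nonneg TF
    have h4 : (0 : ℝ) < TF := by exact_mod_cast hTF1
    have h5 : (TF : ℝ) * w ≤ TF * (8 * v) := by nlinarith
    exact le_of_mul_le_mul_left h5 h4
  have w2 : v ≤ w := by
    rw [hv, hw]
    exact wd_mono10 h hTF1 hTFT
  have w3 : 2 ≤ v := by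
    have h1 := wd_ge_one h hTF1
    have h2 := one_le_EE (μ := μ) (s := s) TF
    rw [hv]
    linarith
  have w4 : 4 ≤ d * w := by
    have h1 := hn₃ (T j) t2
    rw [← hw, div_le_iff₀ hd] at h1
    linarith
  have w5 : d * w ≤ w := by nlinarith
  have w6 : d / 2 * v ≤ d * w := by
    have h1 : d * v ≤ d * w := mul_le_mul_of_nonneg_left w2 hd.le
    have h2 : 0 ≤ d * v := mul_nonneg hd.le (by linarith)
    linarith
  have f1 := Int.floor_le (sl μ s * (1 - (T j : ℝ)))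
  have f2 := Int.lt_floor_add_one (sl μ s * (1 - (T j : ℝ)))
  have hu : ∀ (r : ℤ) (i : Bool), |((uc8 μ s d w (cm j) r i - (cm j + ⌊sl μ s * (1 - (T j : ℝ))⌋) : ℤ) : ℝ) -
      sl μ s * ((r : ℝ) - (1 - (T j : ℝ)))| ≤ 8 * v := fun r i => by
    have g1 := abs_le.1 (uc8_near (μ := μ) (s := s) d w (cm j) r i)
    have g2 : |(if i then 3 / 4 * d * w else -(3 / 4 * d * w))| ≤ 6 * v := by
      split_ifs
      · rw [abs_of_nonneg (by nlinarith)]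
        linarith
      · rw [abs_neg, abs_of_nonneg (by nlinarith)]
        linarith
    have g3 := abs_le.1 g2
    push_cast
    rw [abs_le]
    constructor <;> nlinarith [g1.1, g1.2, g3.1, g3.2]
  refine ⟨by unfold kk45; rw [← hR₁, ← hkk]; exact hk, fun i => ?_, fun i => ?_, ?_, ?_⟩
  · rw [← hTF, ← hv]
    have h1 := hu (1 - (T j : ℤ)) i
    have e : ((1 - (T j : ℤ) : ℤ) : ℝ) - (1 - (T j : ℝ)) = 0 := by push_cast; ring
    rw [e, mul_zero, sub_zero] at h1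
    unfold u45 bp45
    rw [← hw]
    exact h1
  · rw [← hTF, ← hnM, ← hv]
    have h1 := hu (1 - (T j : ℤ) + ((nM + TF : ℕ) : ℤ)) i
    have e : ((1 - (T j : ℤ) + ((nM + TF : ℕ) : ℤ) : ℤ) : ℝ) - (1 - (T j : ℝ)) = ((nM + TF : ℕ) : ℝ) := by push_cast; ring
    rw [e] at h1
    unfold t45 bp45
    rw [← hw, ← hTF, ← hnM]
    exact h1
  · rw [← hTF, ← hv]
    unfold u45
    rw [← hw]
    have h1 := uc8_sep (μ := μ) (s := s) d w (cm j) (1 - (T j : ℤ))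
    linarith
  · unfold t45
    rw [← hTF, ← hv, ← hw, ← hnM]
    have h1 := uc8_sep (μ := μ) (s := s) d w (cm j) (1 - (T j : ℤ) + ((nM + TF : ℕ) : ℤ))
    linarith

/-- **THE LEAF (B).** -/
theorem lsB10 [IsProbabilityMeasure μ] (h : In μ s c C n₀) (H : FrC026 μ s c) : LsB μ s c := by
  have hc : 0 < c := h.c0
  obtain ⟨ell, hell, H⟩ := freRZ20 h H (show (0 : ℝ) < 1 / 8 by norm_num)
  refine ⟨ell, 8, hell, by norm_num, fun d th hd hd1 hth hth4 g hg => ?_⟩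
  obtain ⟨th2, hB, Kc, Q1, Qe, Qw, c', Pe, Pw, a, j1, j2, a1, a2, a3, a4, a5, a6, a7, a8, a9, a10, a11, a12, a13, a14, a15, H⟩ :=
    H (th / 8) 8 (d / 2) (d / 16) 1 (c / 8) g 1 1 (by linarith) (by norm_num) (by linarith) (by linarith) one_pos (by linarith) le_rfl hg zero_le_one one_pos
  refine ⟨⟨th2, hB, Kc, Q1, Qe, Qw, c', Pe, Pw, a, j1, j2⟩, ⟨a1, a2, a3, a4, a5, a6, a7, a8, a9, a10, a11, a12, a13, a14, a15⟩, fun w hw => ?_⟩
  obtain ⟨K, Kx, ellw, p, Q, k₁, b1, b2, b3, b4, hp, hQ, hk₁, H⟩ := H w.Kw w.gx w.G' hw.Kw hw.gx hw.G'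
  obtain ⟨o, ho⟩ : ∃ o : LnO, o = ⟨th2, hB, Kc, Q1, Qe, Qw, c', Pe, Pw, a, j1, j2⟩ := ⟨_, rfl⟩
  obtain ⟨n₁, hn₁, HL⟩ := lvlB10 h hd hd1 hth hth4 (o := o) (by rw [ho]; exact a11) (by rw [ho]; exact a12) (by rw [ho]; exact a14) hQ k₁ hk₁
  rw [← ho]
  refine ⟨⟨K, Kx, ellw, Q⟩, p, ⟨b1, b2, b3, b4, hQ⟩, hp, n₁, hn₁, fun {R B C₀ h₀ K' L G} gw hn hK8 hKth m hm => ?_⟩
  have hS : ∀ j, ∃ SA SB : Set Env, MeasurableSet SA ∧ MeasurableSet SB ∧ (2 ≤ j → j < m →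
      On20 (rows (-(Tg h₀ K' j : ℤ)) (rA10 th (R145 o Q) (Tg h₀ K') j)) SA ∧
      On20 (rows (rA10 th (R145 o Q) (Tg h₀ K') j) (rB10 th (R145 o Q) (Q * o.j1) (Tg h₀ K') j)) SB ∧
      p ≤ (law μ).real SA ∧ (law μ).real SBᶜ ≤ 1 / 8 ∧
      (∀ (z : Pt) (ζ : Env), sh z ζ ∈ SA → FA45 μ s c d th (lnI c d th 8) ell g o w ⟨K, Kx, ellw, Q⟩ (Tg h₀ K') (cm45 G) j z ζ) ∧
      (∀ (z : Pt) (ζ : Env), sh z ζ ∈ SA → sh z ζ ∈ SB →
        FB45 μ s c d th (lnI c d th 8) ell g o w ⟨K, Kx, ellw, Q⟩ (Tg h₀ K') (cm45 G) j z ζ)) := by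
    intro j
    by_cases hj : 2 ≤ j ∧ j < m
    swap
    · exact ⟨Set.univ, Set.univ, MeasurableSet.univ, MeasurableSet.univ, fun h1 h2 => absurd ⟨h1, h2⟩ hj⟩
    have hTj : n₁ ≤ Tg h₀ K' j := by
      refine hn.trans ?_
      rw [Tg_pos (by omega), mul_comm 2 h₀, mul_assoc]
      exact Nat.le_mul_of_pos_right _ (Nat.mul_pos two_pos (Nat.pow_pos (by omega)))
    obtain ⟨l1, l2, l3, l4, l5⟩ := HL (Tg h₀ K') (cm45 G) j hTj
    obtain ⟨r, r1, r2, r3, HS⟩ := H (kk45 th o Q (Tg h₀ K') j) l1 (nM45 th o Q (Tg h₀ K') j) (TF45 th o Q (Tg h₀ K') j)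
      (nB45 th o Q (Tg h₀ K') j) (by rw [ho]; rfl) (by rw [ho]; rfl) (by rw [ho]; rfl)
    obtain ⟨SA, SB, mA, mB, oA, oB, pA, pB, HF⟩ := HS (bp45 μ s (Tg h₀ K') (cm45 G) j) (u45 μ s d (Tg h₀ K') (cm45 G) j)
      (t45 μ s d th o Q (Tg h₀ K') (cm45 G) j) l2 l3 l4 l5
    have eA : (bp45 μ s (Tg h₀ K') (cm45 G) j).1 + nM45 th o Q (Tg h₀ K') j + TF45 th o Q (Tg h₀ K') j = rA10 th (R145 o Q) (Tg h₀ K') j := by
      have e1 := nMTF45 th o Q (Tg h₀ K') j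
      have e2 : ((nM45 th o Q (Tg h₀ K') j + TF45 th o Q (Tg h₀ K') j : ℕ) : ℤ) = ((R145 o Q * kF th (R145 o Q) (Tg h₀ K' j) : ℕ) : ℤ) := by
        rw [e1]
      push_cast at e2
      unfold bp45 rA10
      simp only
      linarith
    have eB : (nB45 th o Q (Tg h₀ K') j : ℤ) = ((Q * o.j1 : ℕ) : ℤ) * (kF th (R145 o Q) (Tg h₀ K' j) : ℤ) := by
      unfold nB45 kk45
      push_cast
      ring
    have e0 : (bp45 μ s (Tg h₀ K') (cm45 G) j).1 - 1 = -(Tg h₀ K' j : ℤ) := by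
      unfold bp45
      simp only
      ring
    rw [eA, e0] at oA
    rw [eA, eB] at oB
    refine ⟨SA, SB, mA, mB, fun _ _ => ⟨oA, oB, pA, pB, fun z ζ hζ => ?_, fun z ζ hζ hζ' => ?_⟩⟩
    · obtain ⟨f1, f2, A, f3, -⟩ := HF z ζ hζ
      rw [ho] at r2 r3 f1 f2 f3 ⊢
      exact ⟨r, A, ⟨r1, r2, r3, f1, f2, f3⟩⟩
    · obtain ⟨f1, f2, A, f3, f4⟩ := HF z ζ hζ
      obtain ⟨f5, f6⟩ := f4 hζ'
      rw [ho] at r2 r3 f1 f2 f3 f5 f6 ⊢
      exact ⟨r, A, ⟨r1, r2, r3, f1, f2, f3⟩, f5, f6⟩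
  choose SA SB mA mB hS using hS
  exact ⟨SA, SB,
    { mA := mA
      mB := mB
      oA := fun j h1 h2 => (hS j h1 h2).1
      oB := fun j h1 h2 => (hS j h1 h2).2.1
      pA := fun j h1 h2 => (hS j h1 h2).2.2.1
      pB := fun j h1 h2 => (hS j h1 h2).2.2.2.1
      fA := fun j h1 h2 => (hS j h1 h2).2.2.2.2.1
      fB := fun j h1 h2 => (hS j h1 h2).2.2.2.2.2 }⟩

end

end Pool.Agent.W_7d29a1_C1.F45
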