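import Pool.Agent.W_7d29a1_C1.LsB10
import Pool.Agent.W_7d29a1_C1.FreCIn20

/-!
MP_7d29a1_pr, [C1], SHELL, SIDE F (helper10): **THE LEAF `LsB` over `In` only**.
-/

set_option autoImplicit false

namespace Pool.Agent.W_7d29a1_C1.F45

open MeasureTheory
open Pool.Agent.W_7d29a1_HS

/-- **THE LEAF (B)** over `In` only. -/
theorem lsBIn10 {μ : Measure ℝ} [IsProbabilityMeasure μ] {s c C : ℝ} {n₀ : ℕ} (h : In μ s c C n₀) : LsB μ s c := lsB10 h (B26.frC0In20 h)

end Pool.Agent.W_7d29a1_C1.F45
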