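import Pool.Agent.W_7d29a1_C1.PbL60
import Pool.Agent.W_7d29a1_C1.SuE24
import Pool.Agent.W_7d29a1_C1.KSz21
import Pool.Agent.W_7d29a1_C1.CosP47
import Pool.Agent.W_7d29a1_C1.L0a8
import Pool.Agent.W_7d29a1_C1.KPc35

/-!
Both halves (MP_7d29a1_pr), attractor route [C1], SHELL: **THE PLACE `LsP44`** from the blocks. (helper44, independent typing)

`k0_44` : the envelope of `So47` in the letters of `kSz21`. `lsP44` : the constants in the order of `LsP44`, the rows, the record.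
-/

set_option autoImplicit false

namespace Pool.Agent.W_7d29a1_C1.Lt44

open MeasureTheory ProbabilityTheory Filter Topology Finset
open Pool.Agent.W_7d29a1_F Pool.Agent.W_7d29a1_h4g Pool.Agent.W_7d29a1_H Pool.Agent.W_7d29a1_HS
open Pool.Agent.W_7d29a1_C1.K91 (wt wt_pos)
open Pool.Agent.W_7d29a1_C1.S12 (Lam12 Lam12_pos)
open Pool.Agent.W_7d29a1_C1.T10 Pool.Agent.W_7d29a1_C1.S71
open Pool.Agent.W_7d29a1_C1.FarW89 (nk)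
open Pool.Agent.W_7d29a1_C1.FarK89 (gr AQ)
open Pool.Agent.W_7d29a1_C1.F74 (cl2)
open Pool.Agent.W_7d29a1_C1.H8 (ln8_c0 ln8_c3 zc8_near l0a8 phif8)
open Pool.Agent.W_7d29a1_C1.D31 (kap31 En31)
open Pool.Agent.W_7d29a1_C1.JnC35 (ln35)
open Pool.Agent.W_7d29a1_C1.H60 (kr60 pbP60 lwP60 rows60 Lw60)
open Pool.Agent.W_7d29a1_C1.P24
open Pool.Agent.W_7d29a1_C1.C47 (cosP47 cb21_nonneg ub21_nonneg exC47 del47)
open Pool.Agent.W_7d29a1_C1.Sh21 (Pcs KSep kc21 cb21 ub21 qz21 kSz21 kc_le21 pcs35)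
open Pool.Agent.W_7d29a1_C1.F45

noncomputable section

variable {μ : Measure ℝ} {s : ℝ} [IsProbabilityMeasure μ] {c C : ℝ} {n₀ : ℕ}

omit [IsProbabilityMeasure μ] in
/-- The envelope of `So47` in real columns. -/
theorem k0_44 {d th : ℝ} {o : LnO} {Q : ℕ} {k : KE45} {T : ℕ → ℕ} {cm : ℕ → ℤ} {m₂ : ℕ} {φ v v₁ g₂ : ℝ} {j : ℕ} {z : ℕ × ℤ}
    (hT : T j ≤ z.1) : (sg45 μ s d th o Q k T cm m₂ φ v v₁ g₂).k0 j z =
      kap31 k.P k.c₁ k.c₃ k.Q k.S (EE μ s (T j)) (wd μ s (T j))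
        (ln35 μ s ((z.1 : ℤ), z.2 + cm j) ((sg45 μ s d th o Q k T cm m₂ φ v v₁ g₂).c0 j z))
        (ln35 μ s ((z.1 : ℤ), z.2 + cm j) ((sg45 μ s d th o Q k T cm m₂ φ v v₁ g₂).c3 j z))
        ((sg45 μ s d th o Q k T cm m₂ φ v v₁ g₂).c3 j z - (sg45 μ s d th o Q k T cm m₂ φ v v₁ g₂).c0 j z) := by
  unfold sg45
  rw [ln8_c0 hT, ln8_c3]
  have e : (H8.sg8 μ s T cm (u45 μ s d T cm) (fun j => ⌊o.th * wd μ s (TF45 th o Q T j)⌋₊) m₂ k.P k.c₁ k.c₃ k.Q k.S φ v v₁ g₂).c3 j z -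
      (H8.sg8 μ s T cm (u45 μ s d T cm) (fun j => ⌊o.th * wd μ s (TF45 th o Q T j)⌋₊) m₂ k.P k.c₁ k.c₃ k.Q k.S φ v v₁ g₂).c0 j z = 2 * T j := by
    show (z.1 + T j + 1) - (z.1 - T j + 1) = 2 * T j
    omega
  rw [e]
  funext y x
  show kap31 k.P k.c₁ k.c₃ k.Q k.S (EE μ s (T j)) (wd μ s (T j)) ((cm j : ℝ) + sl μ s * (1 - (T j : ℝ))) ((cm j : ℝ) + sl μ s * ((T j : ℝ) + 1))
    (2 * T j) (y - z.2) (x - z.2) = _
  unfold kap31 D31.cutn D31.kapo31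
  have a1 : ((y - z.2 : ℤ) : ℝ) - ((cm j : ℝ) + sl μ s * (1 - (T j : ℝ))) = (y : ℝ) - ((z.2 : ℝ) + ((cm j : ℝ) + sl μ s * (1 - (T j : ℝ)))) := by
    push_cast
    ring
  have a2 : ((x - z.2 : ℤ) : ℝ) - ((cm j : ℝ) + sl μ s * ((T j : ℝ) + 1)) = (x : ℝ) - ((z.2 : ℝ) + ((cm j : ℝ) + sl μ s * ((T j : ℝ) + 1))) := by
    push_cast
    ring
  have a3 : (y - z.2 ≤ x - z.2 ∧ x - z.2 ≤ y - z.2 + ((2 * T j : ℕ) : ℤ)) ↔ (y ≤ x ∧ x ≤ y + ((2 * T j : ℕ) : ℤ)) := by omega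
  simp only [a1, a2, a3]

/-- **THE PLACE.** -/
theorem lsP44 (hI : In μ s c C n₀) : LsP44 μ s c := by
  intro ell K0 hell hK0 d th hd hd1 hth hth4 x hx P
  have h0 := hI.c0
  have hx1 := hx.d1
  obtain ⟨Pk, hPk⟩ : ∃ Pk : ℕ, Pk = max (2 * P) (x.P + 1) := ⟨_, rfl⟩
  have hPk1 : 2 * P ≤ Pk := hPk ▸ le_max_left _ _
  have hPk2 : x.P + 1 ≤ Pk := hPk ▸ le_max_right _ _
  have r0 : 0 < rt24 c := by unfold rt24; positivity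
  have hr : rt24 c = c / 1048576 := rfl
  obtain ⟨Q2, Qe, Qg, Q1, hQ2, hQe, hQg, hQ1, HS⟩ := suE24 hI (c' := x.c') (P := x.P) (d := x.d) (U := x.U) (β := 1) (q := x.q) (u := 1)
    hx.d0 (by linarith) hx.U zero_le_one hx.q zero_le_one hPk2
  have hub := ub21_nonneg (u0 := 1) (K0 := 8) zero_le_one (by norm_num)
  have hxU := hx.U
  obtain ⟨B₀, hB₀, HB⟩ := cosP47 Pk r0 (ck := rt24 c) (S := 4) (ell := ell + 2) (be := c / 8) (K0 := 8) (u0 := 1) (D := 1) (Qc := Q1)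
    (X := x.U + 16) r0.le (by norm_num) (by linarith) (by positivity) (by norm_num) zero_le_one zero_le_one hQ1 (by linarith)
  refine ⟨rt24 c, 1, rt24 c, 1, 2 * ub21 1 8 + 2 * (ell + 2) + 7, B₀, 4, 2, r0, one_pos, r0, zero_le_one, by linarith, hB₀, by norm_num,
    fun qin Ui hq hUi gs hgs => ?_⟩
  have hQin : 0 ≤ Q1 + qin := by linarith
  obtain ⟨CB, hCB⟩ : ∃ CB, CB = cb21 Pk (rt24 c) (rt24 c) (Q1 + qin) 4 (ell + 2) (c / 8) 8 1 1 := ⟨_, rfl⟩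
  have hCB0 : ell + 2 + ub21 1 8 ≤ CB := by
    rw [hCB]
    unfold cb21
    have h1 := FarK89.gr_nonneg Pk (FarK89.AQ_nonneg Pk (rt24 c) (Q1 + qin))
    have h2 := mul_nonneg hQin h1
    have h3 : 0 ≤ rt24 c * (2 * (8 + 1) + 1) := by positivity
    linarith
  obtain ⟨lam, hlam⟩ : ∃ l, l = B₀ * (1 + qin + Ui) ^ 2 := ⟨_, rfl⟩
  have hlamB : CB + (x.U + 16) + Ui ≤ lam := by
    rw [hCB, hlam]
    exact HB qin Ui hq hUi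
  refine ⟨4 * (CB + gs), fun g hg hgU o ho => ?_⟩
  obtain ⟨cδ, hcδ, -, -, Nδ, Hδ⟩ := del47 ho.c' hx.c'
  refine ⟨max Pk o.Pw, cδ, hcδ, fun P₀ hP₀ hP₀1 => ⟨qz21 P₀ Pk (rt24 c) (Q1 + qin) o.Qw 1 1, 5,
    fun c₁₀ c₃₀ Q₀ S₀ t1 t2 t3 t4 t5 t6 t7 t8 ge hge => ?_⟩⟩
  obtain ⟨Ku, K', Gj, Kc, hKu, hK', hGj, hKc, HS⟩ := HS 2 ge (by norm_num) hge
  refine ⟨10, 4 * (CB + ge), 0, fun w hw w1 w2 w3 p hp => ?_⟩
  have hpK := hp.K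
  have hpKx := hp.Kx
  obtain ⟨Gs, hGs, HS⟩ := HS (2 * p.K + 1) (by linarith)
  refine ⟨max Gj Gs, Kc, fun GX KX hGX hGU hKX hKU => ?_⟩
  obtain ⟨n1', HS⟩ := HS GX KX ((le_max_left _ _).trans hGU) ((le_max_right _ _).trans hGU) hKU
  obtain ⟨n2', hn2', HP⟩ := pbP60 hI hell hd hd1 hth hth4 hg ho hw w1 hp
  obtain ⟨n3', hn3', HL⟩ := lwP60 hI hd hd1 hth hth4 (g := g) (ell := ell) ho hp
  obtain ⟨n4', hn4', HK⟩ := kSz21 hI (c₂ := rt24 c) (σ := 1) (D := 1) r0 one_pos zero_le_one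
  obtain ⟨n5', hn5', HF⟩ := phif8 hI (ck := rt24 c) (f := 1) r0 one_pos
  obtain ⟨n6', hn6', HR⟩ := rows60 hth hth4 ho (show (lnI c d th K0).th' = th / 8 from rfl) hp.Q
  obtain ⟨nw, hnw⟩ := eventually_atTop.1 ((wd_tendsto hI).eventually_ge_atTop 1)
  refine ⟨n1' + n2' + n3' + 4 * n4' + n5' + n6' + Nδ + nw + 32, ?_⟩
  intro T cm j m₂ z Γk hh pr M ζ φ v v₁ g₂ hT h32 hTz hpr hpr' hh1 hBx hFA hFB hFX hIn
  obtain ⟨r, A, hMO, hRC, hBT⟩ := hFB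
  obtain ⟨σ, hσ⟩ : ∃ σ, σ = sg45 μ s d th o p.Q ⟨P₀, c₁₀, c₃₀, Q₀, S₀⟩ T cm m₂ φ v v₁ g₂ := ⟨_, rfl⟩
  have hc0 : σ.c0 j z = z.1 - T j + 1 := by rw [hσ]; rfl
  have hc3 : σ.c3 j z = z.1 + T j + 1 := by rw [hσ]; rfl
  have hσT : σ.T j = T j := by rw [hσ]; rfl
  obtain ⟨κ, hκ⟩ : ∃ κ : Pt, κ = ((z.1 : ℤ), z.2 + cm j) := ⟨_, rfl⟩
  have hk0 : σ.k0 j z = kap31 P₀ c₁₀ c₃₀ Q₀ S₀ (EE μ s (T j)) (wd μ s (T j)) (ln35 μ s κ (σ.c0 j z)) (ln35 μ s κ (σ.c3 j z))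
      (σ.c3 j z - σ.c0 j z) := by
    rw [hσ, hκ]
    exact k0_44 hTz
  have hzc : |((z.2 + σ.ζc j : ℤ) : ℝ) - ln35 μ s κ (σ.c3 j z)| ≤ 1 := by
    rw [hσ, hκ]
    exact zc8_near
  obtain ⟨e1, rF1, rF2, rM, rB, rn⟩ := HR T j (by omega)
  obtain ⟨hcl, hr1, HP⟩ := HP T cm j z Γk hh pr M ζ r A ⟨P₀, c₁₀, c₃₀, Q₀, S₀⟩ m₂ φ v v₁ g₂ σ (by omega) hTz hpr hpr' (by linarith) hBx
    hMO hBT hσ
  obtain ⟨ub, tb, R, HLw⟩ := HL T cm j z ζ r A ⟨P₀, c₁₀, c₃₀, Q₀, S₀⟩ m₂ φ v v₁ g₂ σ (by omega) hTz hMO hσ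
  rw [← hσ]
  have hFX' : FXz24 μ s c x.c' x.P x.d x.U 1 x.q GX KX 1 1 (T j) κ ζ := by rw [hκ]; exact hFX
  rw [← hκ] at hBx hcl HP HLw hIn
  obtain ⟨c0, hc0d⟩ : ∃ c0, c0 = σ.c0 j z := ⟨_, rfl⟩
  obtain ⟨c3, hc3d⟩ : ∃ c3, c3 = σ.c3 j z := ⟨_, rfl⟩
  obtain ⟨n1, hn1⟩ : ∃ n1, n1 = n145 th o p.Q T j := ⟨_, rfl⟩
  obtain ⟨TF, hTF⟩ : ∃ TF, TF = TF45 th o p.Q T j := ⟨_, rfl⟩
  obtain ⟨nM, hnM⟩ : ∃ nM, nM = nM45 th o p.Q T j := ⟨_, rfl⟩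
  obtain ⟨nB, hnB⟩ : ∃ nB, nB = nB45 th o p.Q T j := ⟨_, rfl⟩
  obtain ⟨c0', hc0'⟩ : ∃ c, c = cF th (R145 o p.Q) z.1 (T j) := ⟨_, rfl⟩
  obtain ⟨t, ht⟩ : ∃ t, t = T j / 32 := ⟨_, rfl⟩
  obtain ⟨E, hE⟩ : ∃ E, E = EE μ s (T j) := ⟨_, rfl⟩
  have hE1 : 1 ≤ E := by rw [hE]; exact one_le_EE _
  have hw1 : 1 ≤ wd μ s (T j) := hnw (T j) (by omega)
  rw [← hc0d] at hc0
  rw [← hc3d] at hc3
  rw [← hc0d, ← hc3d] at hk0
  rw [← hc3d] at hzc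
  rw [← hTF, ← hnM, ← hnB, ← hn1] at e1
  rw [← hTF] at rF1 rF2
  rw [← hTF, ← hnM] at rM
  rw [← hTF, ← hnB] at rB
  rw [← hn1] at rn
  rw [← hc0d, ← hn1] at hr1
  rw [← hc0d] at hcl
  rw [← hc0d, ← hc3d, ← hn1, ← hTF] at HP
  rw [← hc0d, ← hn1, ← hTF, ← hnM, ← hc0'] at HLw
  rw [← hr1, ← hc0'] at hIn
  have hT32 : T j = 32 * t := by omega
  have h58 : 5 * T j / 8 = 5 * (T j / 8) := by omega
  obtain ⟨e', he'⟩ : ∃ e', e' = z.1 + 5 * T j / 8 := ⟨_, rfl⟩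
  rw [← he'] at hIn
  obtain ⟨n', hn'⟩ : ∃ n', n' = e' - (c0 + n1) := ⟨_, rfl⟩
  have hen : c0 + n1 + n' = e' := by omega
  obtain ⟨na, hna⟩ : ∃ na, na = n' + t := ⟨_, rfl⟩
  have hc3e : c3 = c0 + n1 + na + 5 * t + t + (5 * t + 1) := by omega
  have hrow := HLw.row
  -- the line
  have hhT : |hh| * T j ≤ 1 := by linarith
  have hhn : ∀ n : ℕ, n ≤ T j → |hh| * n ≤ 1 := fun n hn =>
    (mul_le_mul_of_nonneg_left (by exact_mod_cast hn) (abs_nonneg hh)).trans hhT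
  obtain ⟨x0, hx0⟩ : ∃ x0 : ℤ, x0 = (bp45 μ s T cm j).2 + z.2 := ⟨_, rfl⟩
  have c0Z : (c0 : ℤ) = 1 - (T j : ℤ) + (z.1 : ℤ) := by omega
  have hx0n : |(x0 : ℝ) - ln35 μ s κ c0| ≤ 1 := by
    have f1 := Int.floor_le (sl μ s * (1 - (T j : ℝ)))
    have f2 := Int.lt_floor_add_one (sl μ s * (1 - (T j : ℝ)))
    have hln : ln35 μ s κ c0 = (z.2 : ℝ) + cm j + sl μ s * (1 - (T j : ℝ)) := by
      unfold ln35
      rw [hκ, c0Z]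
      push_cast
      ring
    rw [hx0, hln]
    unfold bp45
    push_cast
    rw [abs_le]
    constructor <;> linarith
  have hro : ζ ∈ S83.RowG (c0 : ℤ) x0 (wd μ s TF) (1 * EE μ s TF) := by
    have h1 := hMO.ra
    rw [← hTF, ← hx0, show (bp45 μ s T cm j).1 + ((z.1 : ℤ), z.2).1 = (c0 : ℤ) from c0Z.symm] at h1
    exact h1
  have hpe : B26.PE26 (Basin76.kW μ s ζ c0 n1) (fun x => B26.lt26 (sl μ s) (wd μ s TF) 0 (x - x0))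
      (fun x => B26.lt26 (sl μ s) (wd μ s TF) n1 (x - x0)) (EE μ s TF) o.Pw o.Qw (c / 2) := by
    have h1 := hBT
    unfold BT45 at h1
    rw [← hTF, ← hnM, ← hnB, show (bp45 μ s T cm j).1 + ((z.1 : ℤ), z.2).1 = (c0 : ℤ) from c0Z.symm, add_assoc nM TF nB, ← e1,
      show (bp45 μ s T cm j).2 + ((z.1 : ℤ), z.2).2 = x0 from hx0.symm] at h1
    exact h1.pe
  obtain ⟨Z, hZ⟩ : ∃ Z : Finset ℤ, Z = Icc (0 : ℤ) ((Γk : ℤ) + c0 + n1 + na + (5 * t : ℕ) + t + (5 * t + 1 : ℕ)) := ⟨_, rfl⟩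
  have hZ' : Z = Icc (0 : ℤ) ((Γk : ℤ) + c3) := by
    rw [hZ, hc3e]
    push_cast
    congr 1
    ring
  have hStp := HK (T := T j) (TF := TF) (n1 := n1) (by omega) rF1 rF2 (h := hh) (η := ζ) (p := pr) (M := M) (P := Pk) (P₀ := P₀) (Pw := o.Pw)
    (c0 := c0) (c3 := c3) (κ := κ) (x0 := x0) (lo := 0) (hi := (Γk : ℤ) + c0) (c₁ := rt24 c) (c₃ := rt24 c) (c₁₀ := c₁₀) (c₃₀ := c₃₀)
    (Q := Q1 + qin) (S := 4) (Q₀ := Q₀) (S₀ := S₀) (Qw := o.Qw) (u0 := 1) hpr hpr' (hhn n1 rn) (by omega) (hx0n.trans (by linarith))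
    zero_le_one hro hpe ho.Qw ((le_max_right _ _).trans hP₀) ((le_max_left _ _).trans hP₀) hP₀1 t1 t3.le t4
    (by rw [hr] at t2 t4 ⊢; linarith) hQin t6 (by linarith) Z
  rw [← hk0] at hStp
  obtain ⟨xa, xb, sc, hwin, hPb⟩ := HP (P := Pk) (c₁ := rt24 c) (c₃ := rt24 c) (ck := rt24 c) (dk := rt24 c) (Q := Q1 + qin) (S := 4)
    (Z := Z) (k0 := σ.k0 j z) r0 r0.le le_rfl (by rw [hr]; linarith) hQin (by norm_num) (fun y _ v => by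
      rw [hk0]
      exact D31.kap31_nonneg _ _) hStp (fun a _ v => by
      rw [hk0]
      exact kc_le21 (EE_pos _) (by linarith) ((le_max_left _ _).trans hP₀) t5 t7 t4 a v)
  rw [← hCB] at hPb
  -- the cells
  have hg1 := hPb.g.h1
  have hg3 := hPb.g.h3
  have m1 : z.2 + σ.α₁ j ∈ cl2 (z.2 + σ.α₁ j) (z.2 + σ.β₁ j) (z.2 + σ.α₂ j) (z.2 + σ.β₂ j) := by
    unfold cl2
    simp only [mem_union, mem_Icc]
    omega
  have m3 : z.2 + σ.α₂ j ∈ cl2 (z.2 + σ.α₁ j) (z.2 + σ.β₁ j) (z.2 + σ.α₂ j) (z.2 + σ.β₂ j) := by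
    unfold cl2
    simp only [mem_union, mem_Icc]
    omega
  have m4 : z.2 + σ.β₂ j ∈ cl2 (z.2 + σ.α₁ j) (z.2 + σ.β₁ j) (z.2 + σ.α₂ j) (z.2 + σ.β₂ j) := by
    unfold cl2
    simp only [mem_union, mem_Icc]
    omega
  -- the three blocks
  obtain ⟨zm, hzm⟩ : ∃ zm, zm = z.2 + σ.ζc j := ⟨_, rfl⟩
  obtain ⟨a', ha'⟩ : ∃ a', a' = κ.2 + cM24 μ s (T j) := ⟨_, rfl⟩
  obtain ⟨e₁, he₁⟩ : ∃ e₁, e₁ = pt24 μ s (((c0 + n1 + n' : ℕ) : ℤ), κ.2 + cE24 μ s (T j)) t := ⟨_, rfl⟩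
  obtain ⟨e₂, he₂⟩ : ∃ e₂, e₂ = pt24 μ s (((c0 + n1 + na + 5 * t : ℕ) : ℤ), a') t := ⟨_, rfl⟩
  have hup := hIn.up Pk hPk1
  rw [← hn'] at hup
  rw [← hzm] at hzc
  obtain ⟨hU, hW, hY, hT1, hwe, hgeo⟩ := HS (T j) (by omega) h32 κ ζ hFX' hh pr M hpr hpr' hhT c0 n1 n' 0 ((Γk : ℤ) + c0) Z
    (z.2 + σ.α₁ j) (z.2 + σ.α₂ j) (z.2 + σ.β₂ j) xa xb zm qin (by
      rw [hen, he', hκ]
      unfold rE24
      push_cast
      omega) (by omega) (fun I J => by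
      rw [hen]
      exact hup I J) hwin t na c3 ht hna hc3e (hzc.trans (by norm_num)) (fun v hv => by
      obtain ⟨b1, b2⟩ := hBx (c0 + n1 + na + 5 * t) v (by omega) (hv.trans (by linarith))
      push_cast at b2 ⊢
      omega) (fun v hv => by
      obtain ⟨b1, b2⟩ := hBx (c0 + n1 + na + 5 * t + t) v (by omega) (hv.trans (by linarith))
      push_cast at b2 ⊢
      omega) (hcl _ m1) (hcl _ m3) (hcl _ m4) e₁ e₂ a' he₁ ha' he₂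
  -- the field `l0a`
  have hp0 : ∀ k, 0 < pr k := fun k => by
    rcases lt_or_ge k M with h5 | h5
    · rw [hpr k h5]
      exact Real.exp_pos _
    · rw [hpr' k h5]
      exact Real.exp_pos _
  have hfl : 0 ≤ ⌊x.d * wd μ s t⌋ := Int.floor_nonneg.2 (mul_nonneg hx.d0.le (hI.wd_nonneg _))
  have hcE : |((κ.2 + cE24 μ s (T j) : ℤ) : ℝ) - ln35 μ s κ e'| ≤ 2 * wd μ s (T j) := by
    have f1 := Int.floor_le (sl μ s * (rE24 (T j) : ℝ))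
    have f2 := Int.lt_floor_add_one (sl μ s * (rE24 (T j) : ℝ))
    have e5 : ((e' : ℕ) : ℤ) - κ.1 = (rE24 (T j) : ℤ) := by
      rw [he', hκ]
      unfold rE24
      push_cast
      omega
    have hln : ln35 μ s κ e' = (κ.2 : ℝ) + sl μ s * (rE24 (T j) : ℝ) := by
      unfold ln35
      rw [e5]
      push_cast
      ring
    rw [hln]
    unfold cE24
    push_cast
    rw [abs_le]
    constructor <;> linarith
  have hlo : ∀ i : Bool, Real.exp (-((Ui + (x.U + 1)) * EE μ s (T j))) ≤ nk μ s hh ζ pr M (c0 + (nM + TF)) (e' - c0' + t) (tb i) e₁ := fun i => by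
    rw [hrow]
    exact hT1 c0' (e' - c0') (tb i) Ui (by omega) (hIn.lo (tb i) _ (HLw.tn i) hcE)
  have hnL := HLw.nLn
  obtain ⟨L, hL⟩ : ∃ L, L = Real.exp (lam * EE μ s (T j)) := ⟨_, rfl⟩
  have hE0 : 0 < EE μ s (T j) := EE_pos _
  have hCB1 : 0 ≤ CB := by linarith
  have hL1 : 1 ≤ L := by
    rw [hL]
    exact Real.one_le_exp (mul_nonneg (by linarith) hE0.le)
  have hexp : ∀ a b : ℝ, a ≤ b → Real.exp (a * EE μ s (T j)) ≤ Real.exp (b * EE μ s (T j)) := fun a b hab =>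
    Real.exp_le_exp.2 (mul_le_mul_of_nonneg_right hab hE0.le)
  have hl0a := l0a8 hI hpr hpr' (c0 := c0) (nL := nM + TF) (n1 := n1) (na := na) (nR := e' - c0' + t) (by omega)
    (hhn _ (by omega)) (a1 := z.2 + σ.α₁ j) (b1 := z.2 + σ.β₁ j) (a2 := z.2 + σ.α₂ j) (b2 := z.2 + σ.β₂ j)
    (va := e₁ - ⌊x.d * wd μ s t⌋) (vb := e₁ + ⌊x.d * wd μ s t⌋) (e₁ := e₁) (by omega) (by omega) (E := EE μ s (T j)) (E0 := EE μ s TF)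
    (A := A) (R := R) (ell := ell + 2) (Ui := Ui + (x.U + 1)) (u := ub21 1 8) (u' := 2) (ub := ub) (t := tb) (one_le_EE _) HLw.Ele
    (by linarith) (zero_le_one.trans HLw.Aone) HLw.cell1 HLw.cell2 HLw.low hlo (fun y hy => (HLw.wts y hy).1) (by
      have h1 := (hwe e₁ (by omega) (by omega)).2.1
      rw [← add_assoc]
      refine h1.trans (hexp _ _ (by norm_num))) (L := L) hL1 (by
      rw [hL]
      exact hexp _ _ (by linarith))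
  -- the record
  obtain ⟨δ, hδ⟩ : ∃ δ : ℝ, δ = Real.exp 32 * Real.exp (-((T j : ℝ) ^ cδ)) := ⟨_, rfl⟩
  have h432 : Real.exp 4 ≤ Real.exp 32 := Real.exp_le_exp.2 (by norm_num)
  have hδ1 : Real.exp 4 * Real.exp (-((TF : ℕ) : ℝ) ^ o.c') ≤ δ := by
    rw [hδ]
    exact mul_le_mul h432 ((Hδ (T j) (by omega)).1 TF rF2) (Real.exp_pos _).le (Real.exp_pos _).le
  have hδ2 : Real.exp 4 * Real.exp (-((6 * t : ℕ) : ℝ) ^ x.c') ≤ δ := by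
    rw [hδ, ht]
    exact mul_le_mul h432 ((Hδ (T j) (by omega)).2 h32) (Real.exp_pos _).le (Real.exp_pos _).le
  rw [hZ] at hPb hU hW hY
  obtain ⟨hPcs, hKS⟩ := pcs35 hPb hU hW hY (wt_pos ζ) hp0 (L := L) (δ := δ) (e := Real.exp (-(ge * EE μ s (T j))))
    (mul_pos (Lam12_pos _ _ _) (by linarith [HLw.Aone])) (Real.exp_pos _).le hL1 (Real.one_le_exp (mul_nonneg (by linarith) hE0.le))
    (by rw [hδ]; positivity) hδ1 hδ2 hδ2 (exC47 hE0.le w2) le_rfl le_rfl le_rfl (by rw [hL]; exact hexp _ _ (by linarith))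
    (by rw [hL]; exact hexp _ _ (by linarith)) (by rw [hL]; exact hexp _ _ (by linarith)) hl0a (hgeo _ (hcl _ m1)).1 (hgeo _ (hcl _ m3)).2
  rw [← hZ, hZ'] at hKS
  unfold Rc44
  rw [← hc0d, ← hc3d, hσT, ← hn1, ← hlam]
  refine ⟨na, 5 * t, t, 5 * t + 1, xa, xb, sc, a', a', e₂ - ⌊x.d * wd μ s t⌋, e₂ + ⌊x.d * wd μ s t⌋, zm - (⌈K' * wd μ s (T j)⌉ + 1),
    zm + (⌈K' * wd μ s (T j)⌉ + 1), e₁ - ⌊x.d * wd μ s t⌋, e₁ + ⌊x.d * wd μ s t⌋, _, _, _, _, {a'}, _, _, _, _, _, δ,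
    Real.exp (-(ge * EE μ s (T j))), _, L, _, _, _, _, _, _, hPcs, hKS, by omega, by omega, ht, by omega, fun a _ => ?_, hδ.le,
    (Real.exp_pos _).le, hL.le, le_rfl, exC47 hE0.le hgU, le_rfl⟩
  exact HF (T j) (by omega) Pk (rt24 c) κ c0 c3 a _

end

end Pool.Agent.W_7d29a1_C1.Lt44
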