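import Pool.Agent.W_7d29a1_C1.LsPa24
import Pool.Agent.W_7d29a1_C1.PbL60
import Pool.Agent.W_7d29a1_C1.KPc35
import Pool.Agent.W_7d29a1_C1.L0a8
import Pool.Agent.W_7d29a1_C1.CosP47

/-!
MP_7d29a1_pr, [C1] SHELL, SIDE F (helper24): **THE PLACE**, `lsP24 : In μ s c C n₀ → LsP44 μ s c`. First buffer: `pbP60`, `lwP60` (helper60),
`kSz21` (helper21); inside, slab, second block: `suE24`; record: `pcs35` (helper35); lower half `l0a8`, size of the kernel of the cells `phif8`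
(helper8); costs: `cosP47`, `del47` (helper47).
-/

set_option autoImplicit false

namespace Pool.Agent.W_7d29a1_C1.P24

open MeasureTheory ProbabilityTheory Filter Topology Finset
open Pool.Agent.W_7d29a1_F Pool.Agent.W_7d29a1_h4g Pool.Agent.W_7d29a1_H Pool.Agent.W_7d29a1_HS
open Pool.Agent.W_7d29a1_C1 Pool.Agent.W_7d29a1_C1.U16
open Pool.Agent.W_7d29a1_C1.Basin76
open Pool.Agent.W_7d29a1_C1.K91 (wt wt_pos)
open Pool.Agent.W_7d29a1_C1.FarW89 (nk nk_nonneg)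
open Pool.Agent.W_7d29a1_C1.S12 (Lam12 Lam12_pos)
open Pool.Agent.W_7d29a1_C1.JnC35 (ln35)
open Pool.Agent.W_7d29a1_C1.D31 (kap31 kapo31 cutn kap31_nonneg)
open Pool.Agent.W_7d29a1_C1.T10 (kF cF)
open Pool.Agent.W_7d29a1_C1.F74 (cl2)
open Pool.Agent.W_7d29a1_C1.Sh21 (Stp kc21 qz21 kSz21 kc_le21 cb21 ub21 pcs35 Pcs KSep)
open Pool.Agent.W_7d29a1_C1.H60 (kr60 pbP60 lwP60 rows60)
open Pool.Agent.W_7d29a1_C1.F45
open Pool.Agent.W_7d29a1_C1.H8 (sg8 ln8_c0 ln8_c3 zc8_near l0a8 phif8)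
open Pool.Agent.W_7d29a1_C1.C47 (cosP47 cb21_nonneg ub21_nonneg exC47 del47)
open Pool.Agent.W_7d29a1_C1.Lt44 (LsP44 Rc44 In44 Bx44)

noncomputable section

variable {μ : Measure ℝ} {s c C : ℝ} {n₀ : ℕ}

/-- **THE PLACE.** -/
theorem lsP24 [IsProbabilityMeasure μ] (h : In μ s c C n₀) : LsP44 μ s c := by
  intro ell K0 hell hK0 d th hd hd1 hth hth4 x hx P
  have h0 := h.c0
  have r0 : 0 < rt24 c := by unfold rt24; positivity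
  have hr : rt24 c = c / 1048576 := rfl
  obtain ⟨Pk, hPk⟩ : ∃ Pk : ℕ, Pk = max (2 * P) (x.P + 1) := ⟨_, rfl⟩
  have hPk1 : 2 * P ≤ Pk := by rw [hPk]; exact le_max_left _ _
  have hPk2 : x.P + 1 ≤ Pk := by rw [hPk]; exact le_max_right _ _
  have hxd1 : x.d ≤ 1 / 2 := by have := hx.d1; linarith
  obtain ⟨Q2, Qe, Qg, Q1, hQ2, hQe, hQg, hQ1, HU⟩ := suE24 (c' := x.c') (P := x.P) (d := x.d) (U := x.U) (β := 1) (q := x.q) (u := 1) h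
    hx.d0 hxd1 hx.U zero_le_one hx.q zero_le_one hPk2
  obtain ⟨ub, hub⟩ : ∃ ub : ℝ, ub = ub21 1 8 := ⟨_, rfl⟩
  have hub0 : 0 ≤ ub := by rw [hub]; exact ub21_nonneg zero_le_one (by norm_num)
  have hxU := hx.U
  obtain ⟨X, hX⟩ : ∃ X : ℝ, X = (x.U + 4 * 1 + 1) + (ell + 2 + 1 + (x.U + 1) + ub + 2 * 1) := ⟨_, rfl⟩
  have hX0 : 0 ≤ X := by rw [hX]; linarith
  obtain ⟨B₀, hB₀, HB⟩ := cosP47 Pk (c₁ := rt24 c) r0 (ck := rt24 c) (S := 4) (ell := ell + 2) (be := c / 8) (K0 := 8) (u0 := 1) (D := 1)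
    (Qc := Q1) (X := X) r0.le (by norm_num) (by linarith) (by linarith) (by norm_num) zero_le_one zero_le_one hQ1 hX0
  refine ⟨rt24 c, 1, rt24 c, 1, 2 * ub + 2 * (ell + 2) + 7, B₀, 4, 2, r0, one_pos, r0, zero_le_one, by linarith, hB₀, by norm_num, ?_⟩
  intro qin Ui hqin hUi gs hgs
  obtain ⟨CL, hCL⟩ : ∃ CL : ℝ, CL = cb21 Pk (rt24 c) (rt24 c) (Q1 + qin) 4 (ell + 2) (c / 8) 8 1 1 := ⟨_, rfl⟩
  have hCL0 : 0 ≤ CL := by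
    rw [hCL]
    exact cb21_nonneg r0.le (by linarith) (by norm_num) (by linarith) (by linarith) (by norm_num) zero_le_one zero_le_one
  have hB := HB qin Ui hqin hUi
  rw [← hCL] at hB
  refine ⟨4 * (CL + gs), fun g hg hgU o ho => ?_⟩
  obtain ⟨cδ, hcδ, -, -, Nδ, Hδ⟩ := del47 ho.c' hx.c'
  refine ⟨max Pk o.Pw, cδ, hcδ, fun P₀ hP₀ hP₀1 => ⟨qz21 P₀ Pk (rt24 c) (Q1 + qin) o.Qw 1 1, 4 + 1, ?_⟩⟩
  intro c₁₀ c₃₀ Q₀ S₀ hc₁₀ hc₁₀' hc₃₀ hc₃₀' hQ₀ hQU hS₀ hSU ge hge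
  refine ⟨10, 4 * (CL + ge), 0, fun w hw hKw hgx hG' p hp => ?_⟩
  have hpK : 0 ≤ p.K := by
    have h1 := hp.K
    have h2 := hp.Kx
    linarith
  obtain ⟨Ku, K', Gj, Kc, hKu, hK', hGj, hKc, HU⟩ := HU 2 ge (by norm_num) hge
  obtain ⟨Gs, hGs, HU⟩ := HU (2 * p.K + 1) (by linarith)
  refine ⟨max Gj Gs, Kc, fun GX KX hGX hGU hKX hKU => ?_⟩
  obtain ⟨N1, HU⟩ := HU GX KX ((le_max_left _ _).trans hGU) ((le_max_right _ _).trans hGU) hKU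
  obtain ⟨N2, hN2, HB1⟩ := pbP60 (K0 := K0) h hell hd hd1 hth hth4 hg ho hw hKw hp
  obtain ⟨N3, hN3, HL⟩ := lwP60 (ell := ell) (g := g) h hd hd1 hth hth4 ho hp
  obtain ⟨N4, HK⟩ := ksP24 (ell := ell) (g := g) h hth hth4 ho hp
  obtain ⟨N5, hN5, HF⟩ := phif8 h r0 one_pos
  obtain ⟨N6, HW⟩ := eventually_atTop.1 ((wd_tendsto h).eventually_ge_atTop 1)
  obtain ⟨N7, hN7, HR⟩ := rows60 hth hth4 ho (show (lnI c d th K0).th' = th / 8 from rfl) hp.Q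
  refine ⟨Nδ + N1 + N2 + N3 + N4 + N5 + N6 + N7 + 32, ?_⟩
  intro T cm j m₂ z Γk hh pr M ζ φ v v₁ g₂ hT h32 hTz hpr hpr' hh8 hBx hFA hFB hFX hIn
  obtain ⟨r, A, hMO, hRC, hBT⟩ := hFB
  have hh1 : |hh| * T j ≤ 1 := by linarith
  obtain ⟨σ, hσ⟩ : ∃ σ, σ = sg45 μ s d th o p.Q ⟨P₀, c₁₀, c₃₀, Q₀, S₀⟩ T cm m₂ φ v v₁ g₂ := ⟨_, rfl⟩
  rw [← hσ]
  obtain ⟨hcell, hr1, HB2⟩ := HB1 T cm j z Γk hh pr M ζ r A ⟨P₀, c₁₀, c₃₀, Q₀, S₀⟩ m₂ φ v v₁ g₂ σ (by omega) hTz hpr hpr' hh1 hBx hMO hBT hσ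
  have hst := HK T cm j z hh pr M ζ r A ⟨P₀, c₁₀, c₃₀, Q₀, S₀⟩ m₂ φ v v₁ g₂ σ (by omega) hTz hpr hpr' hh1 hMO hBT hσ Pk (Q1 + qin) 4
    (by linarith) ((le_max_left _ _).trans hP₀) ((le_max_right _ _).trans hP₀) hP₀1 hc₁₀ hc₁₀' hc₃₀.le hc₃₀' hQU hSU
  obtain ⟨uc, tb, R, Lw⟩ := HL T cm j z ζ r A ⟨P₀, c₁₀, c₃₀, Q₀, S₀⟩ m₂ φ v v₁ g₂ σ (by omega) hTz hMO hσ
  -- the numbers of `σ`
  have sT : σ.T j = T j := by rw [hσ]; rfl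
  have s0 : σ.c0 j z = z.1 - T j + 1 := by rw [hσ]; rfl
  have s3 : σ.c3 j z = z.1 + T j + 1 := by rw [hσ]; rfl
  have szc : |((z.2 + σ.ζc j : ℤ) : ℝ) - ln35 μ s ((z.1 : ℤ), z.2 + cm j) (σ.c3 j z)| ≤ 1 := by
    rw [hσ]
    exact zc8_near
  have hk0n : ∀ y z', 0 ≤ σ.k0 j z y z' := fun y z' => by
    rw [k0e24 hσ hTz]
    exact kap31_nonneg _ _
  have hkck : ∀ a z', kc21 μ s Pk (rt24 c) (rt24 c) (EE μ s (T j)) (wd μ s (T j)) ((z.1 : ℤ), z.2 + cm j) (σ.c0 j z) (σ.c3 j z) a z' ≤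
      σ.k0 j z a z' := fun a z' => by
    rw [k0e24 hσ hTz]
    exact kc_le21 (EE_pos (T j)) (by linarith [HW (T j) (by omega)]) ((le_max_left _ _).trans hP₀) hQ₀ hS₀ hc₃₀' a z'
  obtain ⟨κ, hκ⟩ : ∃ κ : Pt, κ = ((z.1 : ℤ), z.2 + cm j) := ⟨_, rfl⟩
  obtain ⟨c0, hc0⟩ : ∃ c0, c0 = σ.c0 j z := ⟨_, rfl⟩
  obtain ⟨c3, hc3⟩ : ∃ c3, c3 = σ.c3 j z := ⟨_, rfl⟩
  obtain ⟨n1, hn1⟩ : ∃ n1, n1 = n145 th o p.Q T j := ⟨_, rfl⟩
  obtain ⟨E, hE⟩ : ∃ E, E = EE μ s (T j) := ⟨_, rfl⟩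
  obtain ⟨c1, hc1⟩ : ∃ c1, c1 = cF th (R145 o p.Q) z.1 (T j) := ⟨_, rfl⟩
  obtain ⟨nL, hnL⟩ : ∃ nL, nL = nM45 th o p.Q T j + TF45 th o p.Q T j := ⟨_, rfl⟩
  obtain ⟨TF, hTF⟩ : ∃ TF, TF = TF45 th o p.Q T j := ⟨_, rfl⟩
  have hκ1 : κ.1 = (z.1 : ℤ) := by rw [hκ]
  rw [← hc0] at s0
  rw [← hc3] at s3
  rw [← hκ, ← hc3] at szc
  rw [← hκ, ← hc0, ← hc3] at hkck
  rw [← hκ] at hBx hIn
  rw [← hκ, ← hc0] at hcell
  rw [← hc0, ← hn1] at hr1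
  rw [← hr1, ← hc1] at hIn
  rw [← hκ, ← hc0, ← hc3, ← hn1] at HB2
  rw [← hκ, ← hc0, ← hc3, ← hn1] at hst
  rw [← hκ, ← hc0, ← hn1, ← hc1, ← hnL] at Lw
  -- the rows
  obtain ⟨t, ht⟩ : ∃ t, t = T j / 32 := ⟨_, rfl⟩
  have hT32 : T j = 32 * t := by omega
  have hn1T := Lw.n1T
  have hnL1 := Lw.nL1
  have hnLn := Lw.nLn
  have hrow := Lw.row
  obtain ⟨e, he⟩ : ∃ e, e = z.1 + 5 * T j / 8 := ⟨_, rfl⟩
  rw [← he] at hIn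
  obtain ⟨n', hn'⟩ : ∃ n', n' = e - (c0 + n1) := ⟨_, rfl⟩
  have hee : c0 + n1 + n' = e := by omega
  obtain ⟨na, hna⟩ : ∃ na, na = n' + t := ⟨_, rfl⟩
  have hrE : rE24 (T j) = 20 * t := by
    unfold rE24
    omega
  have hc3' : c3 = c0 + n1 + na + 5 * t + t + (5 * t + 1) := by omega
  -- the first buffer
  have hst' := hst 0 ((Γk : ℤ) + c0) (Icc (0 : ℤ) ((Γk : ℤ) + c0 + n1 + na + (5 * t : ℕ) + t + (5 * t + 1 : ℕ)))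
  obtain ⟨xa, xb, sc, hwin, HPb⟩ := HB2 (P := Pk) (c₁ := rt24 c) (c₃ := rt24 c) (ck := rt24 c) (dk := rt24 c) (Q := Q1 + qin) (S := 4) r0 r0.le
    le_rfl (by rw [hr]; linarith) (by linarith) (by norm_num) (fun x _ z' => hk0n x z') hst' (fun a _ z' => hkck a z')
  -- the blocks
  obtain ⟨e₁, he₁⟩ : ∃ e₁, e₁ = pt24 μ s (((c0 + n1 + n' : ℕ) : ℤ), κ.2 + cE24 μ s (T j)) t := ⟨_, rfl⟩
  obtain ⟨a', ha'⟩ : ∃ a', a' = κ.2 + cM24 μ s (T j) := ⟨_, rfl⟩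
  obtain ⟨e₂, he₂⟩ : ∃ e₂, e₂ = pt24 μ s (((c0 + n1 + na + 5 * t : ℕ) : ℤ), a') t := ⟨_, rfl⟩
  have hw1 : 1 ≤ wd μ s (T j) := HW (T j) (by omega)
  have hm1 : z.2 + σ.α₁ j ∈ cl2 (z.2 + σ.α₁ j) (z.2 + σ.β₁ j) (z.2 + σ.α₂ j) (z.2 + σ.β₂ j) := by
    have h1 := HPb.g.h1
    unfold cl2
    simp only [mem_union, mem_Icc]
    omega
  have hm2 : z.2 + σ.α₂ j ∈ cl2 (z.2 + σ.α₁ j) (z.2 + σ.β₁ j) (z.2 + σ.α₂ j) (z.2 + σ.β₂ j) := by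
    have h1 := HPb.g.h3
    unfold cl2
    simp only [mem_union, mem_Icc]
    omega
  have hm3 : z.2 + σ.β₂ j ∈ cl2 (z.2 + σ.α₁ j) (z.2 + σ.β₁ j) (z.2 + σ.α₂ j) (z.2 + σ.β₂ j) := by
    have h1 := HPb.g.h3
    unfold cl2
    simp only [mem_union, mem_Icc]
    omega
  obtain ⟨HA, HWw, HY, Hlo, Hwt, Hce⟩ := HU (T j) (by omega) h32 κ ζ (by rw [hκ]; exact hFX) hh pr M hpr hpr' hh1 c0 n1 n' 0 ((Γk : ℤ) + c0)
    (Icc (0 : ℤ) ((Γk : ℤ) + c0 + n1 + na + (5 * t : ℕ) + t + (5 * t + 1 : ℕ))) (z.2 + σ.α₁ j) (z.2 + σ.α₂ j) (z.2 + σ.β₂ j) xa xb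
    (z.2 + σ.ζc j) qin (by rw [hκ1, hrE, hee]; omega) (by omega)
    (fun I J => by
      have h1 := hIn.up Pk hPk1 I J
      rw [show e - (c0 + n1) = n' from hn'.symm, ← hee] at h1
      exact h1)
    hwin t na c3 ht hna hc3' (szc.trans (by norm_num))
    (fun y hy => by
      have h1 := hBx (c0 + n1 + na + 5 * t) y (by omega) (hy.trans (by linarith))
      push_cast at h1 ⊢
      omega)
    (fun y hy => by
      have h1 := hBx (c0 + n1 + na + 5 * t + t) y (by omega) (hy.trans (by linarith))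
      push_cast at h1 ⊢
      omega)
    (hcell _ hm1) (hcell _ hm2) (hcell _ hm3) e₁ e₂ a' he₁ ha' he₂
  have hE1 : 1 ≤ EE μ s (T j) := one_le_EE _
  have hE0 : 0 ≤ EE μ s (T j) := zero_le_one.trans hE1
  have hp0 : ∀ k, 0 < pr k := fun k => by
    rcases lt_or_ge k M with h5 | h5
    · rw [hpr k h5]; exact Real.exp_pos _
    · rw [hpr' k h5]; exact Real.exp_pos _
  have hr0 : (0 : ℤ) ≤ ⌊x.d * wd μ s t⌋ := Int.floor_nonneg.2 (mul_nonneg hx.d0.le (h.wd_nonneg t))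
  obtain ⟨L, hL⟩ : ∃ L, L = Real.exp ((CL + X + Ui) * EE μ s (T j)) := ⟨_, rfl⟩
  have hL1 : 1 ≤ L := by
    rw [hL]
    exact Real.one_le_exp (mul_nonneg (by linarith) hE0)
  have hLm : ∀ {a : ℝ}, a ≤ CL + X + Ui → Real.exp (a * EE μ s (T j)) ≤ L := fun ha => by
    rw [hL]
    exact Real.exp_le_exp.2 (mul_le_mul_of_nonneg_right ha hE0)
  have ha'b : |((κ.2 + cE24 μ s (T j) : ℤ) : ℝ) - ln35 μ s κ e| ≤ 2 * wd μ s (T j) := by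
    have h1 : (e : ℤ) - κ.1 = (20 * t : ℕ) := by
      rw [hκ1]
      omega
    have h2 : ln35 μ s κ e = (κ.2 : ℝ) + sl μ s * ((20 * t : ℕ) : ℝ) := by
      unfold ln35
      rw [h1]
      push_cast
      ring
    have f1 := Int.floor_le (sl μ s * ((20 * t : ℕ) : ℝ))
    have f2 := Int.lt_floor_add_one (sl μ s * ((20 * t : ℕ) : ℝ))
    rw [h2]
    unfold cE24
    rw [hrE]
    push_cast at f1 f2 ⊢
    rw [abs_le]
    constructor <;> linarith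
  have low := fun i : Bool => Hlo c1 (e - c1) (tb i) Ui (by omega) (hIn.lo (tb i) (κ.2 + cE24 μ s (T j)) (Lw.tn i) ha'b)
  have hva : e₁ - ⌊x.d * wd μ s t⌋ ≤ e₁ := by omega
  have hvb : e₁ ≤ e₁ + ⌊x.d * wd μ s t⌋ := by omega
  have hwt := (Hwt e₁ hva hvb).2.1
  have hnLT : |hh| * nL ≤ 1 := by
    have h1 : (nL : ℝ) ≤ T j := by exact_mod_cast (show nL ≤ T j by omega)
    exact (mul_le_mul_of_nonneg_left h1 (abs_nonneg hh)).trans hh1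
  have A1 := Lw.Aone
  have l0a := l0a8 h hpr hpr' (c0 := c0) (nL := nL) (n1 := n1) (na := na) (nR := e - c1 + t) (by omega) hnLT hva hvb hE1 Lw.Ele
    (show 0 ≤ ell + 2 by linarith) (zero_le_one.trans A1) Lw.cell1 Lw.cell2 Lw.low
    (Ui := Ui + (x.U + 1)) (fun i => by rw [hrow]; exact low i) (u := ub) (fun y hy => by rw [hub]; exact (Lw.wts y hy).1) (u' := 2 * 1)
    (by rw [← add_assoc]; exact hwt) hL1 (hLm (by rw [hX]; linarith))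
  obtain ⟨δ, hδ⟩ : ∃ δ, δ = Real.exp 4 * Real.exp (-((T j : ℝ) ^ cδ)) := ⟨_, rfl⟩
  have hδ0 : 0 ≤ δ := by rw [hδ]; positivity
  obtain ⟨Hd1, Hd2⟩ := Hδ (T j) (by omega)
  have hT4 := (HR T j (by omega)).2.2.1
  obtain ⟨HPc, HKs⟩ := pcs35 (e := Real.exp (-(ge * EE μ s (T j)))) (δ := δ) (L := L) HPb HA HWw HY (fun k y => wt_pos _ _ _) hp0
    (mul_pos (Lam12_pos _ _ _) (by linarith)) (Real.exp_pos _).le hL1 (Real.one_le_exp (mul_nonneg (by rw [← hub]; linarith) hE0)) hδ0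
    (by rw [hδ]; exact mul_le_mul_of_nonneg_left (Hd1 _ hT4) (Real.exp_pos _).le)
    (by rw [hδ, ht]; exact mul_le_mul_of_nonneg_left (Hd2 h32) (Real.exp_pos _).le)
    (by rw [hδ, ht]; exact mul_le_mul_of_nonneg_left (Hd2 h32) (Real.exp_pos _).le)
    (by rw [← hCL]; exact exC47 hE0 hgx) le_rfl le_rfl le_rfl (by rw [← hCL]; exact hLm (by linarith)) (hLm (by rw [hX]; linarith))
    (hLm (by rw [hX]; linarith)) l0a (Hce _ (hcell _ hm1)).1 (Hce _ (hcell _ hm2)).2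
  rw [show (Γk : ℤ) + c0 + n1 + na + (5 * t : ℕ) + t + (5 * t + 1 : ℕ) = (Γk : ℤ) + c3 by rw [hc3']; push_cast; ring] at HKs
  unfold Rc44
  rw [sT, ← hc0, ← hc3, ← hn1]
  refine ⟨na, 5 * t, t, 5 * t + 1, xa, xb, sc, _, _, _, _, _, _, _, _, _, _, _, _, _, _, _, _, _, _, δ, _, _, L, _, _, _, _, _, _, HPc, HKs, ?_, ?_,
    ht, ?_, ?_, ?_, (Real.exp_pos _).le, ?_, ?_, ?_, le_rfl⟩
  · omega
  · omega
  · omega
  · intro a _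
    rw [← one_mul (EE μ s (T j)), one_mul]
    exact HF (T j) (by omega) Pk (rt24 c) κ c0 c3 a _
  · rw [hδ]
    exact mul_le_mul_of_nonneg_right (Real.exp_le_exp.2 (by norm_num)) (Real.exp_pos _).le
  · rw [hL]
    exact Real.exp_le_exp.2 (mul_le_mul_of_nonneg_right hB hE0)
  · rw [← hub]
  · rw [← hCL]
    exact exC47 hE0 hgU

end

end Pool.Agent.W_7d29a1_C1.P24
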