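import Pool.Agent.W_7d29a1_C1.Rw73
import Pool.Agent.W_7d29a1_C1.PbL60
import Pool.Agent.W_7d29a1_C1.PcT73
import Pool.Agent.W_7d29a1_C1.SuE24
import Pool.Agent.W_7d29a1_C1.KSz21
import Pool.Agent.W_7d29a1_C1.CosP47
import Pool.Agent.W_7d29a1_C1.L0a8

/-!
Both halves (MP_7d29a1_pr), attractor route [C1], SHELL, side F: **`LsP44`**, the record of a success at one place. (helper73)
-/

set_option autoImplicit false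

namespace Pool.Agent.W_7d29a1_C1.Sb73

open MeasureTheory ProbabilityTheory Finset Filter Topology
open Pool.Agent.W_7d29a1_F Pool.Agent.W_7d29a1_h4g Pool.Agent.W_7d29a1_H Pool.Agent.W_7d29a1_HS
open Pool.Agent.W_7d29a1_C1
open Pool.Agent.W_7d29a1_C1.T10
open Pool.Agent.W_7d29a1_C1.F45
open Pool.Agent.W_7d29a1_C1.F74 (cl2)
open Pool.Agent.W_7d29a1_C1.H8 (uc8 sg8 ln8_c0 ln8_c3 zc8_near l0a8 phif8)
open Pool.Agent.W_7d29a1_C1.H60 (kr60 Pu60 pbP60 lwP60 Lw60)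
open Pool.Agent.W_7d29a1_C1.K91 (wt wt_pos)
open Pool.Agent.W_7d29a1_C1.FarW89 (nk)
open Pool.Agent.W_7d29a1_C1.S12 (Lam12 Lam12_pos)
open Pool.Agent.W_7d29a1_C1.S83
open Pool.Agent.W_7d29a1_C1.B26
open Pool.Agent.W_7d29a1_C1.Basin76
open Pool.Agent.W_7d29a1_C1.D31 (En31 kap31 kap31_nonneg kapo31 cutn)
open Pool.Agent.W_7d29a1_C1.JnC35 (ln35)
open Pool.Agent.W_7d29a1_C1.Fr47 (NS47)
open Pool.Agent.W_7d29a1_C1.Lt44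
open Pool.Agent.W_7d29a1_C1.P24 (rt24 suE24 rE24 cE24 cM24 pt24 FXz24 kc24 ks24 wl24 wr24)
open Pool.Agent.W_7d29a1_C1.C47 (cosP47 exC47 del47 cb21_nonneg ub21_nonneg)
open Pool.Agent.W_7d29a1_C1.Sh21 (kBz21 kSz21 kc_le21 qz21 cb21 ub21 kc21 Stp Pcs KSep)

noncomputable section

variable {μ : Measure ℝ} {s : ℝ}

/-- **The envelope of `So47` along the line of the box.** -/
theorem k073 {σ : NS47} {j : ℕ} {z : ℕ × ℤ} {P : ℕ} {c₁ c₃ Q S E w ρ : ℝ} {x₀ : ℤ} (hT : σ.T j ≤ z.1) (hx : (x₀ : ℝ) = z.2 + ρ)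
    (hκ : σ.κ j = kap31 P c₁ c₃ Q S E w (ρ + sl μ s * (1 - σ.T j)) (ρ + sl μ s * (σ.T j + 1)) (2 * σ.T j)) :
    σ.k0 j z = kap31 P c₁ c₃ Q S E w (ln35 μ s (((z.1 : ℕ) : ℤ), x₀) (σ.c0 j z)) (ln35 μ s (((z.1 : ℕ) : ℤ), x₀) (σ.c3 j z)) (2 * σ.T j) := by
  have e0 : ln35 μ s (((z.1 : ℕ) : ℤ), x₀) (σ.c0 j z) = z.2 + (ρ + sl μ s * (1 - σ.T j)) := by
    have h1 : (((σ.c0 j z : ℕ) : ℤ) - ((z.1 : ℕ) : ℤ) : ℤ) = 1 - (σ.T j : ℤ) := by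
      unfold NS47.c0
      omega
    unfold ln35
    show (x₀ : ℝ) + sl μ s * ((((σ.c0 j z : ℕ) : ℤ) - ((z.1 : ℕ) : ℤ) : ℤ) : ℝ) = _
    rw [h1, hx]
    push_cast
    ring
  have e3 : ln35 μ s (((z.1 : ℕ) : ℤ), x₀) (σ.c3 j z) = z.2 + (ρ + sl μ s * (σ.T j + 1)) := by
    have h1 : (((σ.c3 j z : ℕ) : ℤ) - ((z.1 : ℕ) : ℤ) : ℤ) = 1 + (σ.T j : ℤ) := by
      unfold NS47.c3
      push_cast
      ring
    unfold ln35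
    show (x₀ : ℝ) + sl μ s * ((((σ.c3 j z : ℕ) : ℤ) - ((z.1 : ℕ) : ℤ) : ℤ) : ℝ) = _
    rw [h1, hx]
    push_cast
    ring
  funext y v
  unfold NS47.k0
  rw [hκ, e0, e3]
  unfold kap31 cutn
  by_cases h1 : y ≤ v ∧ v ≤ y + ((2 * σ.T j : ℕ) : ℤ)
  · rw [if_pos h1, if_pos (by omega)]
    unfold kapo31
    have f1 : (((y - z.2 : ℤ) : ℝ)) - (ρ + sl μ s * (1 - σ.T j)) = (y : ℝ) - (z.2 + (ρ + sl μ s * (1 - σ.T j))) := by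
      push_cast
      ring
    have f2 : (((v - z.2 : ℤ) : ℝ)) - (ρ + sl μ s * (σ.T j + 1)) = (v : ℝ) - (z.2 + (ρ + sl μ s * (σ.T j + 1))) := by
      push_cast
      ring
    simp only [f1, f2]
  · rw [if_neg h1, if_neg (by omega)]

/-- **`LsP44`.** -/
theorem lsP73 [IsProbabilityMeasure μ] {c C : ℝ} {n₀ : ℕ} (h : In μ s c C n₀) : LsP44 μ s c := by
  intro ell K0 hell hK0 d th hd hd1 hth hth4 x hx P
  have hc := h.c0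
  have r0 : 0 < rt24 c := by unfold rt24; positivity
  have hr : rt24 c = c / 1048576 := rfl
  obtain ⟨Pk, hPk⟩ : ∃ Pk : ℕ, Pk = max (2 * P) (x.P + 1) := ⟨_, rfl⟩
  have hPk1 : x.P + 1 ≤ Pk := hPk ▸ le_max_right _ _
  have hPk2 : 2 * P ≤ Pk := hPk ▸ le_max_left _ _
  have hxU := hx.U
  obtain ⟨Q2, Qe, Qg, Q1, hQ2, hQe, hQg, hQ1, HS⟩ := suE24 (c' := x.c') (P := x.P) (d := x.d) (U := x.U) (β := 1) (q := x.q) (u := 1)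
    (Pk := Pk) h hx.d0 (by linarith [hx.d1]) hx.U zero_le_one hx.q zero_le_one hPk1
  obtain ⟨B₀, hB₀, HB⟩ := cosP47 Pk r0 (ck := rt24 c) (S := 4) (ell := ell + 2) (be := c / 8) (K0 := 8) (u0 := 1) (D := 1) (Qc := Q1)
    (X := x.U + 16) r0.le (by norm_num) (by linarith) (by linarith) (by norm_num) zero_le_one zero_le_one hQ1 (by linarith)
  obtain ⟨nf, hnf, HF⟩ := phif8 h (ck := rt24 c) (f := 1) r0 one_pos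
  have hub0 := ub21_nonneg (u0 := 1) (K0 := 8) zero_le_one (by norm_num)
  refine ⟨rt24 c, 1, rt24 c, 1, 2 * ub21 1 8 + 2 * (ell + 2) + 7, B₀, 4, 2, r0, one_pos, r0, zero_le_one, by linarith, hB₀, by norm_num,
    fun qin Ui hqin hUi gs hgs => ?_⟩
  obtain ⟨CB, hCB⟩ : ∃ CB : ℝ, CB = cb21 Pk (rt24 c) (rt24 c) (Q1 + qin) 4 (ell + 2) (c / 8) 8 1 1 := ⟨_, rfl⟩
  have CB0 : 0 ≤ CB := by
    rw [hCB]
    exact cb21_nonneg r0.le (by linarith) (by norm_num) (by linarith) (by linarith) (by norm_num) zero_le_one zero_le_one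
  have CB1 : ell + 2 + ub21 1 8 ≤ CB := by
    rw [hCB]
    unfold cb21
    have g1 := Pool.Agent.W_7d29a1_C1.FarK89.gr_nonneg Pk (Pool.Agent.W_7d29a1_C1.FarK89.AQ_nonneg Pk (rt24 c) (Q1 + qin))
    have g2 : 0 ≤ (Q1 + qin) * Pool.Agent.W_7d29a1_C1.FarK89.gr Pk (Pool.Agent.W_7d29a1_C1.FarK89.AQ Pk (rt24 c) (Q1 + qin)) :=
      mul_nonneg (by linarith) g1
    have g3 : 0 ≤ rt24 c * (2 * (8 + 1) + 1) := mul_nonneg r0.le (by norm_num)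
    linarith
  obtain ⟨lam, hlam⟩ : ∃ lam : ℝ, lam = B₀ * (1 + qin + Ui) ^ 2 := ⟨_, rfl⟩
  have hl1 : CB + (x.U + 16) + Ui ≤ lam := by
    rw [hlam, hCB]
    exact HB qin Ui hqin hUi
  refine ⟨4 * (CB + gs), fun g hg hgU o ho => ?_⟩
  obtain ⟨cδ, hcδ, hcδ1, hcδ2, Nδ, Hδ⟩ := del47 ho.c' hx.c'
  refine ⟨max Pk o.Pw, cδ, hcδ, fun P₀ hP₀ hP₀1 => ?_⟩
  refine ⟨qz21 P₀ Pk (rt24 c) (Q1 + qin) o.Qw 1 1, 5, fun c₁₀ c₃₀ Q₀ S₀ hc₁₀ hc₁₀' hc₃₀ hc₃₀' hQ₀ hQ₀' hS₀ hS₀' ge hge => ?_⟩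
  obtain ⟨Ku, K', Gj, Kc, hKu, hK', hGj, hKc, HS⟩ := HS 3 ge (by norm_num) hge
  refine ⟨10, 4 * (CB + ge), 0, fun w hw hw1 hw2 hw3 p hp => ?_⟩
  have hpK : 10 ≤ p.K := hw1.trans hp.Kw
  obtain ⟨Gs, hGs, HS⟩ := HS (2 * p.K + 1) (by linarith)
  refine ⟨max Gj Gs, Kc, fun GX KX hGX hGX' hKX hKX' => ?_⟩
  obtain ⟨n2, HS⟩ := HS GX KX ((le_max_left _ _).trans hGX') ((le_max_right _ _).trans hGX') hKX'
  obtain ⟨nB, hnB, HBz⟩ := pbP60 h hell hd hd1 hth hth4 hg ho hw hw1 hp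
  obtain ⟨nL, hnL, HL⟩ := lwP60 (ell := ell) (g := g) h hd hd1 hth hth4 ho hp
  obtain ⟨nS, hnS, HSz⟩ := kSz21 h (c₂ := rt24 c) (σ := 1) (D := 1) r0 one_pos zero_le_one
  obtain ⟨Nc, HC⟩ := cols73 h hd hd1 ho p.Q
  obtain ⟨NR, hNR, HR⟩ := rows73 hth hth4 ho rfl hp.Q (nS + Nc)
  refine ⟨n2 + NR + nB + nL + nf + Nδ + 32, ?_⟩
  intro T cm j m₂ z Γk hh pr M ζ φ v v₁ g₂ hT h32 hz hpr hpr' hhh hBx _ hFB hFX hIn
  obtain ⟨r, A, hMO, _, hBT⟩ := hFB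
  have hh1 : |hh| * T j ≤ 1 := by linarith
  obtain ⟨σ, hσ⟩ : ∃ σ : NS47, σ = sg45 μ s d th o p.Q ⟨P₀, c₁₀, c₃₀, Q₀, S₀⟩ T cm m₂ φ v v₁ g₂ := ⟨_, rfl⟩
  obtain ⟨hcl, -, HP⟩ := HBz T cm j z Γk hh pr M ζ r A ⟨P₀, c₁₀, c₃₀, Q₀, S₀⟩ m₂ φ v v₁ g₂ σ (by omega) hz hpr hpr' hh1 hBx hMO hBT hσ
  obtain ⟨ul, tl, Rl, HLw⟩ := HL T cm j z ζ r A ⟨P₀, c₁₀, c₃₀, Q₀, S₀⟩ m₂ φ v v₁ g₂ σ (by omega) hz hMO hσ
  obtain ⟨κ, hκ⟩ : ∃ κ : Pt, κ = ((z.1 : ℤ), z.2 + cm j) := ⟨_, rfl⟩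
  have hκ1 : κ.1 = (z.1 : ℤ) := by rw [hκ]
  obtain ⟨t1, t2, t3, t4, t5, t6, t7, t8, t9, t10⟩ := HR T j z.1 (by omega) hz
  obtain ⟨x0, hx0⟩ : ∃ x0 : ℤ, x0 = (bp45 μ s T cm j).2 + z.2 := ⟨_, rfl⟩
  obtain ⟨b1, b2, -⟩ := HC T cm j m₂ ⟨P₀, c₁₀, c₃₀, Q₀, S₀⟩ φ v v₁ g₂ z (by omega) t2 t3 t4 hz κ σ x0 _ _ _ hκ hσ hx0 rfl rfl rfl
  rw [← hσ, ← hlam]
  -- the letters
  have hσT : σ.T j = T j := by rw [hσ]; rfl
  have hσc0 : σ.c0 j z = z.1 - T j + 1 := by rw [hσ]; rfl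
  have hσc3 : σ.c3 j z = z.1 + T j + 1 := by rw [hσ]; rfl
  have hζc : |((z.2 + σ.ζc j : ℤ) : ℝ) - ln35 μ s κ (σ.c3 j z)| ≤ 1 := by
    rw [hσ, hκ]
    exact zc8_near
  have hk0 : σ.k0 j z = kap31 P₀ c₁₀ c₃₀ Q₀ S₀ (EE μ s (T j)) (wd μ s (T j)) (ln35 μ s κ (σ.c0 j z)) (ln35 μ s κ (σ.c3 j z)) (2 * σ.T j) := by
    rw [hκ]
    refine k073 (x₀ := z.2 + cm j) (ρ := cm j) (by rw [hσT]; exact hz) (by push_cast; ring) ?_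
    rw [hσ]
    rfl
  obtain ⟨c0, hc0⟩ : ∃ c0 : ℕ, c0 = z.1 - T j + 1 := ⟨_, rfl⟩
  obtain ⟨n1, hn1⟩ : ∃ n1 : ℕ, n1 = n145 th o p.Q T j := ⟨_, rfl⟩
  obtain ⟨t, ht⟩ : ∃ t : ℕ, t = T j / 32 := ⟨_, rfl⟩
  obtain ⟨c3, hc3⟩ : ∃ c3 : ℕ, c3 = z.1 + T j + 1 := ⟨_, rfl⟩
  obtain ⟨E, hE⟩ : ∃ E : ℝ, E = EE μ s (T j) := ⟨_, rfl⟩
  obtain ⟨W, hW⟩ : ∃ W : ℝ, W = wd μ s (T j) := ⟨_, rfl⟩
  obtain ⟨nL', hnL'⟩ : ∃ n : ℕ, n = nM45 th o p.Q T j + TF45 th o p.Q T j := ⟨_, rfl⟩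
  have hT32 : T j = 32 * t := by rw [ht]; omega
  have ht1 : 1 ≤ t := by omega
  rw [← t8, ← t9] at hIn
  rw [← t9] at HLw
  rw [← hc0] at hσc0
  rw [← hc3] at hσc3
  rw [hσT] at hk0
  rw [hσc0, hσc3] at hk0
  rw [hσc0] at hcl
  rw [hσc3] at hζc
  rw [hσc0, hσc3, ← hn1, ← hκ] at HP
  rw [hσc0, ← hn1, ← hκ, ← hc0] at HLw
  rw [← hc0, ← hn1, ← hκ] at hIn
  rw [← hc0] at b1 b2 t9 t8
  rw [← hn1] at t7 t8
  rw [← hκ] at hcl hBx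
  obtain ⟨a1, ha1⟩ : ∃ a : ℤ, a = z.2 + σ.α₁ j := ⟨_, rfl⟩
  obtain ⟨be1, hbe1⟩ : ∃ a : ℤ, a = z.2 + σ.β₁ j := ⟨_, rfl⟩
  obtain ⟨a2, ha2⟩ : ∃ a : ℤ, a = z.2 + σ.α₂ j := ⟨_, rfl⟩
  obtain ⟨be2, hbe2⟩ : ∃ a : ℤ, a = z.2 + σ.β₂ j := ⟨_, rfl⟩
  unfold Rc44
  rw [hσT, hσc0, hσc3, ← hn1, ← ha1, ← hbe1, ← ha2, ← hbe2]
  rw [← ha1, ← hbe1, ← ha2, ← hbe2] at HP hcl HLw
  obtain ⟨n', hn'⟩ : ∃ n' : ℕ, n' = z.1 + 5 * T j / 8 - (c0 + n1) := ⟨_, rfl⟩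
  have n1T : n1 ≤ T j := HLw.n1T
  have hrow1 : c0 + n1 + n' = z.1 + 20 * t := by omega
  obtain ⟨na, hna⟩ : ∃ na : ℕ, na = n' + t := ⟨_, rfl⟩
  have hA1 := HLw.Aone
  have hE1 : 1 ≤ E := hE ▸ one_le_EE _
  have hE0 : 0 < E := by linarith
  have w1 := (HC T cm j m₂ ⟨P₀, c₁₀, c₃₀, Q₀, S₀⟩ φ v v₁ g₂ z (by omega) t2 t3 t4 hz κ σ x0 _ _ _ hκ hσ hx0 rfl rfl rfl).2.2.2.2.2.2.2.2.2.2.2.2.2.2.2.1
  rw [← hW] at w1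
  have hp0 : ∀ k, 0 < pr k := fun k => by
    rcases lt_or_ge k M with h5 | h5
    · rw [hpr k h5]; exact Real.exp_pos _
    · rw [hpr' k h5]; exact Real.exp_pos _
  have hhn : ∀ n : ℕ, n ≤ T j → |hh| * n ≤ 1 := fun n hn => by
    have g1 : (n : ℝ) ≤ T j := by exact_mod_cast hn
    have g2 := mul_le_mul_of_nonneg_left g1 (abs_nonneg hh)
    linarith
  obtain ⟨k1, hk1⟩ : ∃ k : ℤ → ℤ → ℝ, k = ks24 μ s c ζ Pk (T j) κ c3 (Q1 + qin) 4 (c0 + n1) := ⟨_, rfl⟩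
  obtain ⟨kc, hkc⟩ : ∃ k : ℤ → ℤ → ℝ, k = kc24 μ s c Pk (T j) κ c0 c3 := ⟨_, rfl⟩
  obtain ⟨Z, hZ⟩ : ∃ Z : Finset ℤ, Z = Icc 0 ((Γk : ℤ) + c3) := ⟨_, rfl⟩
  have c32 : 2 * T j = c3 - c0 := by omega
  rw [c32] at hk0
  have hrw : ζ ∈ RowG (c0 : ℤ) x0 (wd μ s (TF45 th o p.Q T j)) (1 * EE μ s (TF45 th o p.Q T j)) := by
    have g := hMO.ra
    rw [show (bp45 μ s T cm j).1 + ((z.1 : ℤ), z.2).1 = (c0 : ℤ) from b1, show (bp45 μ s T cm j).2 + ((z.1 : ℤ), z.2).2 = x0 from hx0.symm] at g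
    exact g
  have hpe : PE26 (kW μ s ζ c0 n1) (fun x => lt26 (sl μ s) (wd μ s (TF45 th o p.Q T j)) 0 (x - x0))
      (fun x => lt26 (sl μ s) (wd μ s (TF45 th o p.Q T j)) n1 (x - x0)) (EE μ s (TF45 th o p.Q T j)) o.Pw o.Qw (c / 2) := by
    have g := hBT.pe
    rw [show (bp45 μ s T cm j).1 + ((z.1 : ℤ), z.2).1 = (c0 : ℤ) from b1, show (bp45 μ s T cm j).2 + ((z.1 : ℤ), z.2).2 = x0 from hx0.symm,
      show nM45 th o p.Q T j + TF45 th o p.Q T j + nB45 th o p.Q T j = n1 by omega, ← t7] at g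
    exact g
  have st : Stp (wt ζ) pr 0 (Γk + (c0 : ℤ)) c0 n1 (Icc 0 (Γk + (c0 : ℤ))) Z (σ.k0 j z) k1 1 (Lam12 μ s hh M c0 n1) := by
    rw [hk0, hk1]
    exact HSz (T := T j) (by omega) t3 t4 hpr hpr' (hhn _ n1T) (by omega) b2 zero_le_one hrw hpe ho.Qw
      ((le_max_right _ _).trans hP₀) ((le_max_left _ _).trans hP₀) hP₀1 hc₁₀ hc₃₀.le hc₃₀' (by rw [hr] at *; linarith) (by linarith)
      hQ₀' (by linarith) Z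
  obtain ⟨xa, xb, sc, hxw, hPb⟩ := HP (P := Pk) (c₁ := rt24 c) (c₃ := rt24 c) (ck := rt24 c) (dk := rt24 c) (Q := Q1 + qin) (S := 4) (Z := Z)
    (k0 := σ.k0 j z) r0 r0.le le_rfl (by rw [hr]; linarith) (by linarith) (by norm_num)
    (fun x _ z' => by rw [hk0]; exact kap31_nonneg _ _) (by have g := st; rw [hk1] at g; exact g)
    (fun a _ z' => by
      rw [hk0]
      exact kc_le21 (hE ▸ hE0) (hW ▸ by linarith) ((le_max_left _ _).trans hP₀) hQ₀ hS₀ hc₃₀' a z')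
  -- the exit
  have hc3' : c3 = c0 + n1 + na + 5 * t + t + (5 * t + 1) := by omega
  have hrE : rE24 (T j) = 20 * t := by unfold rE24; omega
  have he : z.1 + 5 * T j / 8 = c0 + n1 + n' := by omega
  obtain ⟨zm, hzm⟩ : ∃ zm : ℤ, zm = z.2 + σ.ζc j := ⟨_, rfl⟩
  rw [← hzm] at hζc
  have hFX' : FXz24 μ s c x.c' x.P x.d x.U 1 x.q GX KX 1 1 (T j) κ ζ := by rw [hκ]; exact hFX
  have hbx : ∀ (k : ℕ) (y : ℤ) (H : ℤ), z.1 ≤ k + T j → (k : ℤ) ≤ H → |(y : ℝ) - ln35 μ s κ k| ≤ 4 * wd μ s (T j) → 0 ≤ y ∧ y ≤ H :=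
    fun k y H h1 h2 h3 => by
      obtain ⟨g1, g2⟩ := hBx k y h1 h3
      exact ⟨g1, g2.trans h2⟩
  have en1 : ∀ I J : Finset ℤ, En31 Pk (c / 64) (rt24 c) (EE μ s (T j)) (wd μ s (T j)) qin 1 (fun x => (x : ℝ) - ln35 μ s κ (c0 + n1))
      (fun y => (y : ℝ) - ln35 μ s κ (c0 + n1 + n')) (nk μ s hh ζ pr M (c0 + n1) n') I J := fun I J => by
    have g := hIn.up Pk hPk2 I J
    rw [← hn', he] at g
    exact g
  have mem1 : a1 ∈ cl2 a1 be1 a2 be2 := by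
    have g1 := hPb.g.h1
    unfold cl2
    rw [mem_union, mem_Icc, mem_Icc]
    omega
  have mem2 : a2 ∈ cl2 a1 be1 a2 be2 := by
    have g1 := hPb.g.h3
    unfold cl2
    rw [mem_union, mem_Icc, mem_Icc]
    omega
  have mem3 : be2 ∈ cl2 a1 be1 a2 be2 := by
    have g1 := hPb.g.h3
    unfold cl2
    rw [mem_union, mem_Icc, mem_Icc]
    omega
  have w1' : 2 ≤ wd μ s (T j) := by rw [← hW]; exact w1
  obtain ⟨e₁, he₁⟩ : ∃ e₁ : ℤ, e₁ = pt24 μ s (((c0 + n1 + n' : ℕ) : ℤ), κ.2 + cE24 μ s (T j)) t := ⟨_, rfl⟩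
  obtain ⟨a', ha'⟩ : ∃ a' : ℤ, a' = κ.2 + cM24 μ s (T j) := ⟨_, rfl⟩
  obtain ⟨e₂, he₂⟩ : ∃ e₂ : ℤ, e₂ = pt24 μ s (((c0 + n1 + na + 5 * t : ℕ) : ℤ), a') t := ⟨_, rfl⟩
  obtain ⟨S1, S2, S3, S4, S5, S6⟩ := HS (T j) (by omega) h32 κ ζ hFX' hh pr M hpr hpr' hh1 c0 n1 n' 0 (Γk + (c0 : ℤ)) Z a1 a2 be2 xa xb zm
    qin (by rw [hκ1, hrE]; omega) (by omega) en1 hxw t na c3 ht hna hc3' (by linarith)
    (fun v hv => hbx (c0 + n1 + na + 5 * t) v _ (by omega) (by push_cast; omega) (by linarith))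
    (fun v hv => hbx (c0 + n1 + na + 5 * t + t) v _ (by omega) (by push_cast; omega) (by linarith))
    (by have := hcl a1 mem1; linarith) (by have := hcl a2 mem2; linarith) (by have := hcl be2 mem3; linarith) e₁ e₂ a' he₁ ha' he₂
  -- the middle of the exit row
  have hce : |((κ.2 + cE24 μ s (T j) : ℤ) : ℝ) - ln35 μ s κ (c0 + n1 + n')| ≤ 2 * wd μ s (T j) := by
    have f1 := Int.floor_le (sl μ s * (rE24 (T j) : ℕ))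
    have f2 := Int.lt_floor_add_one (sl μ s * (rE24 (T j) : ℕ))
    have e1 : ln35 μ s κ (c0 + n1 + n') = κ.2 + sl μ s * (rE24 (T j) : ℕ) := by
      unfold ln35
      have : (((c0 + n1 + n' : ℕ) : ℤ) - κ.1 : ℤ) = ((rE24 (T j) : ℕ) : ℤ) := by rw [hκ1, hrE]; omega
      rw [this]
      push_cast
      ring
    rw [e1]
    unfold cE24
    push_cast at f1 f2 ⊢
    rw [abs_le]
    constructor <;> linarith
  have e1m : e₁ - ⌊x.d * wd μ s t⌋ ≤ e₁ ∧ e₁ ≤ e₁ + ⌊x.d * wd μ s t⌋ := by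
    have : 0 ≤ ⌊x.d * wd μ s t⌋ := Int.floor_nonneg.2 (mul_nonneg hx.d0.le (h.wd_pos ht1).le)
    omega
  have hwy := (S5 e₁ e1m.1 e1m.2).2.1
  obtain ⟨n0, hn0⟩ : ∃ n0 : ℕ, n0 = n' + (n1 - nL') := ⟨_, rfl⟩
  have nLn : nL' ≤ n1 := by
    rw [hnL']
    exact HLw.nLn
  have hrn : c0 + nL' + n0 = c0 + n1 + n' := by omega
  have hlo : ∀ i : Bool, Real.exp (-((Ui + (x.U + 1)) * EE μ s (T j))) ≤ nk μ s hh ζ pr M (c0 + nL') (n0 + t) (tl i) e₁ := fun i => by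
    refine S4 (c0 + nL') n0 (tl i) Ui hrn ?_
    have g := hIn.lo (tl i) (κ.2 + cE24 μ s (T j)) ?_ ?_
    · rw [← hnL', he, show c0 + n1 + n' - (c0 + nL') = n0 by omega] at g
      exact g
    · exact HLw.tn i
    · rw [he]
      exact hce
  have hlam0 : 0 ≤ lam := by linarith
  have LB1 : Real.exp (CB * EE μ s (T j)) ≤ Real.exp (lam * EE μ s (T j)) := Real.exp_le_exp.2 (mul_le_mul_of_nonneg_right (by linarith) (hE ▸ hE0.le))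
  have L1 : 1 ≤ Real.exp (lam * EE μ s (T j)) := Real.one_le_exp (mul_nonneg hlam0 (hE ▸ hE0.le))
  have hl0 := l0a8 (E := EE μ s (T j)) (E0 := EE μ s (TF45 th o p.Q T j)) (A := A) (L := Real.exp (lam * EE μ s (T j))) (ell := ell + 2) (Ui := Ui + (x.U + 1)) (u := ub21 1 8) (u' := 2) (nL := nL') (nR := n0 + t) (n1 := n1) (na := na) (va := e₁ - ⌊x.d * wd μ s t⌋)
    (vb := e₁ + ⌊x.d * wd μ s t⌋) h hpr hpr' (by omega) (hhn _ (nLn.trans n1T)) e1m.1 e1m.2 (hE ▸ hE1) HLw.Ele (by linarith) (by linarith)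
    HLw.cell1 HLw.cell2 (by rw [hnL']; exact HLw.low) hlo (fun x hx => (HLw.wts x hx).1)
    (by
      rw [← add_assoc]
      refine hwy.trans (le_of_eq ?_)
      congr 1
      ring) L1
    (Real.exp_le_exp.2 (mul_le_mul_of_nonneg_right (by linarith) (hE ▸ hE0.le)))
  have hg0 := S6 a1 (by have := hcl a1 mem1; linarith)
  have hg5 := S6 a2 (by have := hcl a2 mem2; linarith)
  obtain ⟨D1, D2⟩ := Hδ (T j) (by omega)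
  have hδ0 : 0 ≤ Real.exp 32 * Real.exp (-((T j : ℝ) ^ cδ)) := mul_nonneg (Real.exp_pos _).le (Real.exp_pos _).le
  have h432 : Real.exp 4 ≤ Real.exp 32 := Real.exp_le_exp.2 (by norm_num)
  have hδ1 : Real.exp 4 * Real.exp (-((TF45 th o p.Q T j : ℕ) : ℝ) ^ o.c') ≤ Real.exp 32 * Real.exp (-((T j : ℝ) ^ cδ)) :=
    mul_le_mul h432 (D1 _ t4) (Real.exp_pos _).le (Real.exp_pos _).le
  have hδ2 : Real.exp 4 * Real.exp (-((6 * t : ℕ) : ℝ) ^ x.c') ≤ Real.exp 32 * Real.exp (-((T j : ℝ) ^ cδ)) := by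
    refine mul_le_mul h432 ?_ (Real.exp_pos _).le (Real.exp_pos _).le
    have g := D2 h32
    rw [← ht] at g
    exact g
  have hE0' : 0 ≤ EE μ s (T j) := hE ▸ hE0.le
  have heB := exC47 (gx := w.gx) (CL := CB) (ge := ge) hE0' hw2
  have heS := exC47 (gx := g) (CL := CB) (ge := gs) hE0' hgU
  have LW1 : Real.exp ((x.U + 4 * 1 + 1) * EE μ s (T j)) ≤ Real.exp (lam * EE μ s (T j)) :=
    Real.exp_le_exp.2 (mul_le_mul_of_nonneg_right (by linarith) hE0')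
  have hub1 : 0 ≤ 2 * ub21 1 8 + 2 * (ell + 2) + 7 := by linarith
  rw [← hCB] at hPb
  have hA0 : 0 < Lam12 μ s hh M c0 n1 * A := mul_pos (Lam12_pos _ _ _) (by linarith)
  have hZe : Icc (0 : ℤ) ((Γk : ℤ) + (c0 : ℤ) + n1 + na + ((5 * t : ℕ) : ℤ) + t + ((5 * t + 1 : ℕ) : ℤ)) = Z := by
    rw [hZ]
    congr 1
    omega
  rw [← hZe] at hPb S1 S2 S3
  obtain ⟨P1, P2⟩ := pcs73 (L := Real.exp (lam * EE μ s (T j))) (e := Real.exp (-(ge * EE μ s (T j))))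
    (δ := Real.exp 32 * Real.exp (-((T j : ℝ) ^ cδ))) (wt_pos ζ) hp0 hPb S1 S2 S3 hl0 hg0.1 hg5.2 hA0 hδ0 (Real.exp_pos _).le L1
    (Real.one_le_exp (mul_nonneg hub1 hE0')) hδ1 hδ2 hδ2 heB le_rfl le_rfl le_rfl LB1 LW1 LW1
  refine ⟨na, 5 * t, t, 5 * t + 1, xa, xb, sc, a', a', _, _, _, _, _, _, _, _, _, _, {a'}, _, _, _, _, _, _, _, _, _, _, _, _, _, _, _, P1, ?_, ?_, ?_,
    ht, ?_, ?_, le_rfl, (Real.exp_pos _).le, le_rfl, le_rfl, heS, le_rfl⟩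
  · rw [← hZ, ← hZe]
    exact P2
  · rw [← hzm]
    omega
  · omega
  · omega
  · intro a _
    have g := HF (T j) (by omega) Pk (rt24 c) κ c0 c3 a (Icc 0 ((Γk : ℤ) + c3))
    exact g

end

end Pool.Agent.W_7d29a1_C1.Sb73
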