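import Pool.Agent.W_7d29a1_C1.SucP44
import Pool.Agent.W_7d29a1_C1.KBz21

/-!
Both halves (MP_7d29a1_pr), attractor route [C1], SHELL: THE FIRST BUFFER IN THE LETTERS OF `LsP44` (helper60).

`rows60` : the blocks of a level. `pbP60` : the facts `MO45`, `BT45` of the first buffer and the box `Bx44` give `Pb21` (`kBz21` with every
hypothesis discharged but the kernel of the whole row), the columns of the cells near the line, the window of the end row.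
-/

set_option autoImplicit false
set_option linter.unusedSectionVars false

namespace Pool.Agent.W_7d29a1_C1.H60

open Finset Filter Topology MeasureTheory
open Pool.Agent.W_7d29a1_F Pool.Agent.W_7d29a1_h4g Pool.Agent.W_7d29a1_H Pool.Agent.W_7d29a1_HS
open Pool.Agent.W_7d29a1_C1 Pool.Agent.W_7d29a1_C1.H75 Pool.Agent.W_7d29a1_C1.U16 Pool.Agent.W_7d29a1_C1.FarK89 Pool.Agent.W_7d29a1_C1.FarW89
open Pool.Agent.W_7d29a1_C1.K91 (wt wt_pos)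
open Pool.Agent.W_7d29a1_C1.S12 (Lam12 Lam12_pos)
open Pool.Agent.W_7d29a1_C1.JnC35 (ln35)
open Pool.Agent.W_7d29a1_C1.T10 (kF cF)
open Pool.Agent.W_7d29a1_C1.F74 (cl2)
open Pool.Agent.W_7d29a1_C1.B26 (BT26 lt26 cp26)
open Pool.Agent.W_7d29a1_C1.S83 (RowG unit83)
open Pool.Agent.W_7d29a1_C1.Sh21 Pool.Agent.W_7d29a1_C1.Basin76
open Pool.Agent.W_7d29a1_C1.F45
open Pool.Agent.W_7d29a1_C1.Lt44 (Bx44)
open Pool.Agent.W_7d29a1_C1.H8 (uc8 uc8_near sg8)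

noncomputable section

variable {μ : Measure ℝ} {s c C : ℝ} {n₀ : ℕ}

/-- **THE BLOCKS OF A LEVEL.** -/
theorem rows60 {th : ℝ} (h0 : 0 < th) (h1 : th ≤ 1 / 4) {i : LnI} {o : LnO} (ho : o.Ok i) (hi : i.th' = th / 8) {Q : ℕ} (hQ : 1 ≤ Q) :
    ∃ n₁ : ℕ, 1 ≤ n₁ ∧ ∀ (T : ℕ → ℕ) (j : ℕ), n₁ ≤ T j →
      n145 th o Q T j = nM45 th o Q T j + (TF45 th o Q T j + nB45 th o Q T j) ∧ TF45 th o Q T j ≤ T j ∧ T j ≤ 4 * TF45 th o Q T j ∧
        nM45 th o Q T j ≤ TF45 th o Q T j ∧ nB45 th o Q T j ≤ TF45 th o Q T j ∧ n145 th o Q T j ≤ T j := by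
  have hR := R145_pos ho hQ
  have a1 := ho.a1
  have aj := ho.aj
  have j1 := ho.j1
  have j2 := ho.j2
  have j2' := ho.j2'
  rw [hi] at j2'
  refine ⟨3 * R145 o Q, by omega, fun T j hT => ?_⟩
  obtain ⟨k, hk⟩ : ∃ k, k = kF th (R145 o Q) (T j) := ⟨_, rfl⟩
  have hRR : (1 : ℝ) ≤ (R145 o Q : ℕ) := by exact_mod_cast hR
  have hR00 : (0 : ℝ) < (R145 o Q : ℕ) := by linarith
  have hx0 : 0 ≤ (1 - th / 4) * (T j : ℝ) / (R145 o Q : ℕ) := by
    have : 0 ≤ 1 - th / 4 := by linarith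
    positivity
  have k1 : (k : ℝ) ≤ (1 - th / 4) * T j / (R145 o Q : ℕ) := by
    rw [hk]
    exact Nat.floor_le hx0
  have k2 : (1 - th / 4) * T j / (R145 o Q : ℕ) < k + 1 := by
    rw [hk]
    exact Nat.lt_floor_add_one _
  rw [le_div_iff₀ hR00] at k1
  rw [div_lt_iff₀ hR00] at k2
  have eMT := nMTF45 th o Q T j
  rw [← hk] at eMT
  have eM : nM45 th o Q T j = Q * (o.a * o.j2) * k := by unfold nM45 kk45; rw [← hk]
  have eF : TF45 th o Q T j = Q * (o.j1 * o.j2) * k := by unfold TF45 kk45; rw [← hk]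
  have eB : nB45 th o Q T j = Q * o.j1 * k := by unfold nB45 kk45; rw [← hk]
  have e1 : n145 th o Q T j = nM45 th o Q T j + (TF45 th o Q T j + nB45 th o Q T j) := by
    rw [← add_assoc, eMT, eB]
    unfold n145
    rw [← hk]
    ring
  have mF : nM45 th o Q T j ≤ TF45 th o Q T j := by
    rw [eM, eF]
    exact Nat.mul_le_mul_right _ (Nat.mul_le_mul_left _ (Nat.mul_le_mul_right _ aj))
  have bF : nB45 th o Q T j ≤ TF45 th o Q T j := by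
    rw [eB, eF]
    refine Nat.mul_le_mul_right _ (Nat.mul_le_mul_left _ ?_)
    exact Nat.le_mul_of_pos_right _ (by omega)
  have hMT : ((nM45 th o Q T j : ℕ) : ℝ) + (TF45 th o Q T j : ℕ) = (R145 o Q : ℕ) * (k : ℝ) := by exact_mod_cast eMT
  have hM0 : (0 : ℝ) ≤ (nM45 th o Q T j : ℕ) := Nat.cast_nonneg _
  have hT0 : (0 : ℝ) ≤ (T j : ℕ) := Nat.cast_nonneg _
  have mFR : ((nM45 th o Q T j : ℕ) : ℝ) ≤ (TF45 th o Q T j : ℕ) := by exact_mod_cast mF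
  have hTR : 3 * ((R145 o Q : ℕ) : ℝ) ≤ (T j : ℕ) := by exact_mod_cast hT
  have thT : th / 4 * (T j : ℝ) ≤ 1 / 16 * (T j : ℝ) := mul_le_mul_of_nonneg_right (by linarith) hT0
  have thT0 : 0 ≤ th / 4 * (T j : ℝ) := by positivity
  have hBR : ((nB45 th o Q T j : ℕ) : ℝ) ≤ th / 8 * ((R145 o Q : ℕ) * (k : ℝ)) := by
    rw [eB]
    have t1 : (Q : ℝ) * (o.j1 : ℝ) * (k : ℝ) ≤ (Q : ℝ) * ((o.a : ℝ) + o.j1) * (k : ℝ) := by
      have : (0 : ℝ) ≤ o.a := Nat.cast_nonneg _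
      gcongr
      linarith
    have t2 : (0 : ℝ) ≤ (Q : ℝ) * ((o.a : ℝ) + o.j1) * (k : ℝ) := by positivity
    have t3 := mul_le_mul_of_nonneg_right j2' t2
    have e2 : ((R145 o Q : ℕ) : ℝ) = (Q : ℝ) * (o.j2 * ((o.a : ℝ) + o.j1)) := by
      unfold R145
      push_cast
      ring
    rw [e2]
    push_cast
    calc (Q : ℝ) * (o.j1 : ℝ) * (k : ℝ) ≤ 1 * ((Q : ℝ) * ((o.a : ℝ) + o.j1) * (k : ℝ)) := by rw [one_mul]; exact t1
      _ ≤ th / 8 * o.j2 * ((Q : ℝ) * ((o.a : ℝ) + o.j1) * (k : ℝ)) := t3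
      _ = th / 8 * ((Q : ℝ) * (o.j2 * ((o.a : ℝ) + o.j1)) * (k : ℝ)) := by ring
  refine ⟨e1, ?_, ?_, mF, bF, ?_⟩
  · have : ((TF45 th o Q T j : ℕ) : ℝ) ≤ (T j : ℕ) := by linarith
    exact_mod_cast this
  · have : ((T j : ℕ) : ℝ) ≤ 4 * ((TF45 th o Q T j : ℕ) : ℝ) := by linarith
    exact_mod_cast this
  · have h2 : ((n145 th o Q T j : ℕ) : ℝ) ≤ (T j : ℕ) := by
      rw [e1]
      push_cast
      have t1 : th / 8 * ((R145 o Q : ℕ) * (k : ℝ)) ≤ th / 8 * (T j : ℝ) := by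
        refine mul_le_mul_of_nonneg_left ?_ (by linarith)
        linarith
      linarith
    exact_mod_cast h2

/-- The blocks against the rows of the inside. -/
theorem rB60 {th : ℝ} {i : LnI} {o : LnO} (ho : o.Ok i) (hi : i.th' = th / 8) (Q : ℕ) : ((Q * o.j1 : ℕ) : ℝ) ≤ th / 8 * (R145 o Q : ℕ) := by
  have j2' := ho.j2'
  rw [hi] at j2'
  have t1 : (Q : ℝ) * (o.j1 : ℝ) ≤ (Q : ℝ) * ((o.a : ℝ) + o.j1) := by
    have : (0 : ℝ) ≤ o.a := Nat.cast_nonneg _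
    gcongr
    linarith
  have t2 : (0 : ℝ) ≤ (Q : ℝ) * ((o.a : ℝ) + o.j1) := by positivity
  have t3 := mul_le_mul_of_nonneg_right j2' t2
  have e2 : ((R145 o Q : ℕ) : ℝ) = (Q : ℝ) * (o.j2 * ((o.a : ℝ) + o.j1)) := by
    unfold R145
    push_cast
    ring
  rw [e2]
  push_cast
  linarith

/-- **THE FIRST BUFFER AT ONE PLACE.** -/
theorem pbP60 [IsProbabilityMeasure μ] (h : In μ s c C n₀) {ell K0 d th : ℝ} (hell : 0 ≤ ell) (hd : 0 < d) (hd1 : d ≤ 1) (hth : 0 < th)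
    (hth1 : th ≤ 1 / 4) {g : ℝ} (hg : 0 ≤ g) {o : LnO} (ho : o.Ok (lnI c d th K0)) {w : LnJ} (hw : w.Ok) (hKw : 10 ≤ w.Kw) {p : LnP}
    (hp : p.Ok w) :
    ∃ n₂ : ℕ, 1 ≤ n₂ ∧ ∀ (T : ℕ → ℕ) (cm : ℕ → ℤ) (j : ℕ) (z : ℕ × ℤ) (Γk : ℕ) (hh : ℝ) (pr : ℕ → ℝ) (M : ℕ) (ζ : Env) (r A : ℝ)
      (k : KE45) (m₂ : ℕ) (φ v v₁ g₂ : ℝ) (σ : Fr47.NS47), n₂ ≤ T j → T j ≤ z.1 → (∀ k, k < M → pr k = Real.exp (s + hh)) →
      (∀ k, M ≤ k → pr k = Real.exp s) → |hh| * T j ≤ 1 → Bx44 μ s (T j) z ((z.1 : ℤ), z.2 + cm j) 4 →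
      MO45 μ s c d th (lnI c d th K0) ell g w.G' o p.Q T cm j ((z.1 : ℤ), z.2) ζ r A →
      BT45 μ s c d th (lnI c d th K0) ell g o w p T cm j ((z.1 : ℤ), z.2) ζ A →
      σ = sg45 μ s d th o p.Q k T cm m₂ φ v v₁ g₂ →
      (∀ x ∈ cl2 (z.2 + σ.α₁ j) (z.2 + σ.β₁ j) (z.2 + σ.α₂ j) (z.2 + σ.β₂ j), |(x : ℝ) - ln35 μ s ((z.1 : ℤ), z.2 + cm j) (σ.c0 j z)| ≤
        2 * wd μ s (T j)) ∧ σ.c0 j z + n145 th o p.Q T j = cF th (R145 o p.Q) z.1 (T j) + p.Q * o.j1 * kF th (R145 o p.Q) (T j) ∧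
      ∀ {P : ℕ} {c₁ c₃ ck dk Q S : ℝ} {Z : Finset ℤ} {k0 : ℤ → ℤ → ℝ}, 0 < c₁ → 0 ≤ ck → ck ≤ c₃ → 8 * (c₁ + ck) ≤ c / 8 → 0 ≤ Q → 0 ≤ S →
      (∀ x ∈ Icc (0 : ℤ) (Γk + σ.c0 j z), ∀ z', 0 ≤ k0 x z') →
      Stp (wt ζ) pr 0 (Γk + σ.c0 j z) (σ.c0 j z) (n145 th o p.Q T j) (Icc (0 : ℤ) (Γk + σ.c0 j z)) Z k0
        (kr60 μ s ζ P c₁ c₃ (EE μ s (T j)) (wd μ s (T j)) ((z.1 : ℤ), z.2 + cm j) (σ.c3 j z) Q S (σ.c0 j z + n145 th o p.Q T j)) 1
        (Lam12 μ s hh M (σ.c0 j z) (n145 th o p.Q T j)) →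
      (∀ a ∈ cl2 (z.2 + σ.α₁ j) (z.2 + σ.β₁ j) (z.2 + σ.α₂ j) (z.2 + σ.β₂ j), ∀ z',
        kc21 μ s P dk ck (EE μ s (T j)) (wd μ s (T j)) ((z.1 : ℤ), z.2 + cm j) (σ.c0 j z) (σ.c3 j z) a z' ≤ k0 a z') →
      ∃ xa xb sc : ℤ, (∀ x : ℤ, xa ≤ x → x ≤ xb → |(x : ℝ) - ln35 μ s ((z.1 : ℤ), z.2 + cm j) (σ.c0 j z + n145 th o p.Q T j)| ≤
          (2 * p.K + 1) * wd μ s (T j)) ∧
        Pb21 (wt ζ) pr 0 (Γk + σ.c0 j z) (σ.c0 j z) (n145 th o p.Q T j) (z.2 + σ.α₁ j) (z.2 + σ.β₁ j) (z.2 + σ.α₂ j) (z.2 + σ.β₂ j) xa xb sc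
          Z (kc21 μ s P dk ck (EE μ s (T j)) (wd μ s (T j)) ((z.1 : ℤ), z.2 + cm j) (σ.c0 j z) (σ.c3 j z)) k0
          (kr60 μ s ζ P c₁ c₃ (EE μ s (T j)) (wd μ s (T j)) ((z.1 : ℤ), z.2 + cm j) (σ.c3 j z) Q S (σ.c0 j z + n145 th o p.Q T j))
          (Real.exp 4 * Real.exp (-((TF45 th o p.Q T j : ℕ) : ℝ) ^ o.c'))
          (Real.exp (-((w.gx / 4 - cb21 P c₁ ck Q S (ell + 2) (c / 8) 8 1 1) * EE μ s (T j))))
          (Real.exp (-((g / 4 - cb21 P c₁ ck Q S (ell + 2) (c / 8) 8 1 1) * EE μ s (T j))))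
          (Real.exp (cb21 P c₁ ck Q S (ell + 2) (c / 8) 8 1 1 * EE μ s (T j)))
          (Real.exp ((2 * ub21 1 8 + 2 * (ell + 2) + 7) * EE μ s (T j))) (Lam12 μ s hh M (σ.c0 j z) (n145 th o p.Q T j) * A) := by
  have h0 := h.c0
  have hpK := hp.Kw
  have hpKx := hp.K
  have hpx := hp.Kx
  obtain ⟨nr, hnr1, hnr⟩ := rows60 hth hth1 ho (show (lnI c d th K0).th' = th / 8 from rfl) hp.Q
  obtain ⟨nb, hnb1, hnb⟩ := kBz21 h (K := p.K) (K0 := 8) (Kc := o.Kc) (del := d / 2) (D := 1) (by norm_num) (by linarith) ho.Kc (by linarith)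
    (by norm_num)
  obtain ⟨nw, hnw⟩ := eventually_atTop.1 ((wd_tendsto h).eventually_ge_atTop (max 8 (8 / d)))
  refine ⟨nr + 4 * (nb + nw) + 1, by omega, ?_⟩
  intro T cm j z Γk hh pr M ζ r A k m₂ φ v v₁ g₂ σ hT hTz hpr hpr' hh1 hBx hM hB hσ
  obtain ⟨e1, rF1, rF2, rM, rB, rn⟩ := hnr T j (by omega)
  -- the letters
  obtain ⟨κ, hκ⟩ : ∃ κ : Pt, κ = ((z.1 : ℤ), z.2 + cm j) := ⟨_, rfl⟩
  have hc0 : σ.c0 j z = z.1 - T j + 1 := by rw [hσ]; rfl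
  have hc3 : σ.c3 j z = z.1 + T j + 1 := by rw [hσ]; rfl
  obtain ⟨c0, hc0d⟩ : ∃ c0, c0 = σ.c0 j z := ⟨_, rfl⟩
  obtain ⟨c3, hc3d⟩ : ∃ c3, c3 = σ.c3 j z := ⟨_, rfl⟩
  rw [← hc0d] at hc0
  rw [← hc3d] at hc3
  rw [← hc0d, ← hc3d, ← hκ]
  rw [← hκ] at hBx
  have c0Z : (c0 : ℤ) = 1 - (T j : ℤ) + (z.1 : ℤ) := by omega
  obtain ⟨TF, hTF⟩ : ∃ TF, TF = TF45 th o p.Q T j := ⟨_, rfl⟩
  obtain ⟨nM, hnM⟩ : ∃ nM, nM = nM45 th o p.Q T j := ⟨_, rfl⟩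
  obtain ⟨nB, hnB⟩ : ∃ nB, nB = nB45 th o p.Q T j := ⟨_, rfl⟩
  obtain ⟨n1, hn1⟩ : ∃ n1, n1 = n145 th o p.Q T j := ⟨_, rfl⟩
  rw [← hTF, ← hnM, ← hnB, ← hn1] at e1
  rw [← hTF] at rF1 rF2
  rw [← hTF, ← hnM] at rM
  rw [← hTF, ← hnB] at rB
  rw [← hn1] at rn
  have hr1 : c0 + n1 = cF th (R145 o p.Q) z.1 (T j) + p.Q * o.j1 * kF th (R145 o p.Q) (T j) := by
    rw [hn1, hc0]
    unfold n145 cF
    ring
  rw [← hTF, ← hn1]
  -- sizes
  have w1 := hnw (T j) (by omega)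
  have w2 := hnw TF (by omega)
  have w8 : (8 : ℝ) ≤ wd μ s (T j) := (le_max_left _ _).trans w1
  have w08 : (8 : ℝ) ≤ wd μ s TF := (le_max_left _ _).trans w2
  have dw : 8 ≤ d * wd μ s (T j) := by
    have h1 := (le_max_right _ _).trans w1
    rw [div_le_iff₀ hd] at h1
    linarith
  have w0 : 0 < wd μ s (T j) := by linarith
  have w00 : 0 < wd μ s TF := by linarith
  obtain ⟨-, -, u3, u4, -⟩ := unit83 h (show 1 ≤ TF by omega) rF1 rF2 w0 w00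
  have dw1 : d * wd μ s (T j) ≤ wd μ s (T j) := by
    have := mul_le_mul_of_nonneg_right hd1 w0.le
    linarith
  have th1 : o.th ≤ d / 16 := ho.th1
  have th0 := ho.th0
  obtain ⟨R, hR⟩ : ∃ R : ℝ, R = o.th * wd μ s TF := ⟨_, rfl⟩
  have hR0 : 0 ≤ R := by rw [hR]; positivity
  have hR1 : R ≤ d / 8 * wd μ s (T j) := by
    have t1 := mul_le_mul_of_nonneg_right th1 w00.le
    have t2 := mul_le_mul_of_nonneg_left u3 (show 0 ≤ d / 16 by linarith)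
    linarith
  have hR2 : R ≤ wd μ s TF := by
    have t1 := mul_le_mul_of_nonneg_right (show o.th ≤ 1 by linarith) w00.le
    linarith
  obtain ⟨rad, hrad⟩ : ∃ rad : ℕ, rad = ⌊o.th * wd μ s (TF45 th o p.Q T j)⌋₊ := ⟨_, rfl⟩
  have hradR : (rad : ℝ) ≤ R := by
    rw [hrad, hR, hTF]
    exact Nat.floor_le (by rw [← hTF]; positivity)
  -- the lines
  have hln : ln35 μ s κ c0 = (z.2 : ℝ) + cm j + sl μ s * (1 - (T j : ℝ)) := by
    unfold ln35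
    rw [hκ, c0Z]
    push_cast
    ring
  obtain ⟨x0, hx0⟩ : ∃ x0 : ℤ, x0 = (bp45 μ s T cm j).2 + z.2 := ⟨_, rfl⟩
  have hx0n : |(x0 : ℝ) - ln35 μ s κ c0| ≤ 1 := by
    have f1 := Int.floor_le (sl μ s * (1 - (T j : ℝ)))
    have f2 := Int.lt_floor_add_one (sl μ s * (1 - (T j : ℝ)))
    rw [hx0, hln]
    unfold bp45
    push_cast
    rw [abs_le]
    constructor <;> linarith
  obtain ⟨ub, hub⟩ : ∃ ub : Bool → ℤ, ub = fun i => u45 μ s d T cm j i + z.2 := ⟨_, rfl⟩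
  obtain ⟨tb, htb⟩ : ∃ tb : Bool → ℤ, tb = fun i => t45 μ s d th o p.Q T cm j i + z.2 := ⟨_, rfl⟩
  have hubn : ∀ i, |(ub i : ℝ) - ln35 μ s κ c0 - (if i then 3 / 4 * d * wd μ s (T j) else -(3 / 4 * d * wd μ s (T j)))| ≤ 1 := fun i => by
    have h1 := uc8_near (μ := μ) (s := s) d (wd μ s (T j)) (cm j) (1 - (T j : ℤ)) i
    rw [hub, hln]
    show |((u45 μ s d T cm j i + z.2 : ℤ) : ℝ) - _ - _| ≤ 1
    unfold u45
    refine le_trans (le_of_eq ?_) h1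
    congr 1
    push_cast
    ring
  have htbn : ∀ i, |(tb i : ℝ) - (ln35 μ s κ c0 + sl μ s * (nM + TF : ℕ)) -
      (if i then 3 / 4 * d * wd μ s (T j) else -(3 / 4 * d * wd μ s (T j)))| ≤ 1 := fun i => by
    have h1 := uc8_near (μ := μ) (s := s) d (wd μ s (T j)) (cm j) (1 - (T j : ℤ) + ((nM + TF : ℕ) : ℤ)) i
    rw [htb, hln]
    show |((t45 μ s d th o p.Q T cm j i + z.2 : ℤ) : ℝ) - _ - _| ≤ 1
    unfold t45
    rw [← hnM, ← hTF]
    refine le_trans (le_of_eq ?_) h1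
    congr 1
    push_cast
    ring
  have dwp : 0 ≤ 3 / 4 * d * wd μ s (T j) := by positivity
  have hifa : ∀ i : Bool, |(if i then 3 / 4 * d * wd μ s (T j) else -(3 / 4 * d * wd μ s (T j)))| ≤ 3 / 4 * (d * wd μ s (T j)) := fun i => by
    split_ifs
    · rw [abs_of_nonneg dwp]
      linarith
    · rw [abs_neg, abs_of_nonneg dwp]
      linarith
  have hub1 : ∀ i, |(ub i : ℝ) - ln35 μ s κ c0| ≤ 3 / 4 * (d * wd μ s (T j)) + 1 := fun i => by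
    have h1 := hubn i
    have h2 := hifa i
    have h3 := abs_add_le ((ub i : ℝ) - ln35 μ s κ c0 - (if i then 3 / 4 * d * wd μ s (T j) else -(3 / 4 * d * wd μ s (T j))))
      (if i then 3 / 4 * d * wd μ s (T j) else -(3 / 4 * d * wd μ s (T j)))
    rw [sub_add_cancel] at h3
    linarith
  have htb1 : ∀ i, |(tb i : ℝ) - (ln35 μ s κ c0 + sl μ s * (nM + TF : ℕ))| ≤ 3 / 4 * (d * wd μ s (T j)) + 1 := fun i => by
    have h1 := htbn i
    have h2 := hifa i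
    have h3 := abs_add_le ((tb i : ℝ) - (ln35 μ s κ c0 + sl μ s * (nM + TF : ℕ)) -
      (if i then 3 / 4 * d * wd μ s (T j) else -(3 / 4 * d * wd μ s (T j)))) (if i then 3 / 4 * d * wd μ s (T j) else -(3 / 4 * d * wd μ s (T j)))
    rw [sub_add_cancel] at h3
    linarith
  -- the cells
  have ea1 : z.2 + σ.α₁ j = ub false - rad := by
    rw [hσ, hub, hrad]
    show z.2 + (u45 μ s d T cm j false - _) = u45 μ s d T cm j false + z.2 - _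
    ring
  have eb1 : z.2 + σ.β₁ j = ub false + rad := by
    rw [hσ, hub, hrad]
    show z.2 + (u45 μ s d T cm j false + _) = u45 μ s d T cm j false + z.2 + _
    ring
  have ea2 : z.2 + σ.α₂ j = ub true - rad := by
    rw [hσ, hub, hrad]
    show z.2 + (u45 μ s d T cm j true - _) = u45 μ s d T cm j true + z.2 - _
    ring
  have eb2 : z.2 + σ.β₂ j = ub true + rad := by
    rw [hσ, hub, hrad]
    show z.2 + (u45 μ s d T cm j true + _) = u45 μ s d T cm j true + z.2 + _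
    ring
  rw [ea1, eb1, ea2, eb2]
  have cellR : ∀ (i : Bool) (y : ℤ), ub i - rad ≤ y → y ≤ ub i + rad → |(y : ℝ) - ub i| ≤ R := fun i y h1 h2 => by
    have h1' : ((ub i - rad : ℤ) : ℝ) ≤ y := Int.cast_le.2 h1
    have h2' : (y : ℝ) ≤ ((ub i + rad : ℤ) : ℝ) := Int.cast_le.2 h2
    push_cast at h1' h2'
    rw [abs_le]
    constructor <;> linarith
  have cellL : ∀ (i : Bool) (y : ℤ), ub i - rad ≤ y → y ≤ ub i + rad → |(y : ℝ) - ln35 μ s κ c0| ≤ 2 * wd μ s (T j) := fun i y h1 h2 => by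
    have h3 := cellR i y h1 h2
    have h4 := hub1 i
    have h5 := abs_sub_le (y : ℝ) (ub i) (ln35 μ s κ c0)
    linarith
  have hsep : (ub false : ℝ) + rad + 1 < ub true - rad := by
    have h1 := (abs_le.1 (hubn false)).2
    have h2 := (abs_le.1 (hubn true)).1
    simp only [Bool.false_eq_true, if_false, if_true] at h1 h2
    linarith
  have hsep' : ub false + (rad : ℤ) < ub true - rad := by
    have h1 : ((ub false + (rad : ℤ) : ℤ) : ℝ) < ((ub true - (rad : ℤ) : ℤ) : ℝ) := by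
      push_cast
      linarith
    exact_mod_cast h1
  have hrz : (0 : ℤ) ≤ (rad : ℤ) := Int.natCast_nonneg _
  refine ⟨fun x hx => ?_, hr1, ?_⟩
  · unfold cl2 at hx
    rw [mem_union, mem_Icc, mem_Icc] at hx
    rcases hx with hx | hx
    · exact cellL false x hx.1 hx.2
    · exact cellL true x hx.1 hx.2
  intro P c₁ c₃ ck dk Q S Z k0 hc₁ hck hck3 hrate hQ hS hk0n hk0 hkck
  have bx1 := hBx c0 (ub false - rad) (by omega) (by
    have := cellL false (ub false - rad) le_rfl (by omega)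
    linarith)
  have bx2 := hBx c0 (ub true + rad) (by omega) (by
    have := cellL true (ub true + rad) (by omega) le_rfl
    linarith)
  -- the facts in these letters
  have hrow : ζ ∈ RowG (c0 : ℤ) x0 (wd μ s TF) (1 * EE μ s TF) := by
    have h1 := hM.ra
    rw [← hTF, ← hx0, show (bp45 μ s T cm j).1 + ((z.1 : ℤ), z.2).1 = (c0 : ℤ) from c0Z.symm] at h1
    exact h1
  have hA1 : 1 ≤ A := by
    refine le_trans (Real.one_le_exp ?_) hM.mo.lo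
    exact mul_nonneg zero_le_one (zero_le_one.trans (one_le_EE _))
  have HB : BT26 (kW μ s ζ c0 n1) (fun x => lt26 (sl μ s) (wd μ s TF) 0 (x - x0)) (fun x => lt26 (sl μ s) (wd μ s TF) n1 (x - x0))
      (EE μ s TF) ub (fun i => lt26 (sl μ s) (wd μ s TF) (nM + TF) (tb i - x0)) R p.K p.Kx (d / 2) A (Real.exp (-((TF : ℕ) : ℝ) ^ o.c'))
      (ell + 2) p.ellw o.Kc (c / 8) g w.gx w.G' o.hB o.Pw o.Qw (c / 2) := by
    have h1 := hB
    unfold BT45 at h1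
    rw [← hTF, ← hnM, ← hnB, ← hR, show (bp45 μ s T cm j).1 + ((z.1 : ℤ), z.2).1 = (c0 : ℤ) from c0Z.symm, add_assoc nM TF nB, ← e1,
      show (bp45 μ s T cm j).2 + ((z.1 : ℤ), z.2).2 = x0 from hx0.symm] at h1
    have e2 : (fun i => lt26 (sl μ s) (wd μ s TF) (nM + TF) (tb i - x0)) =
        fun b => lt26 (sl μ s) (wd μ s TF) (nM + TF) (t45 μ s d th o p.Q T cm j b - (bp45 μ s T cm j).2) := by
      funext b
      congr 1
      rw [htb, hx0]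
      show t45 μ s d th o p.Q T cm j b + z.2 - _ = _
      ring
    rw [e2, hub]
    have e3 : ell + 2 = ell + 2 * (lnI c d th K0).dd := by
      show ell + 2 = ell + 2 * 1
      ring
    rw [e3]
    exact h1
  have hrnR : (n1 : ℝ) ≤ T j := by exact_mod_cast rn
  have hh2 : |hh| * n1 ≤ 1 := (mul_le_mul_of_nonneg_left hrnR (abs_nonneg hh)).trans hh1
  obtain ⟨xa, xb, sc, hwin, HP⟩ := hnb (T := T j) (TF := TF) (nM := nM) (nB := nB) (n1 := n1) (n' := nM + TF) (by omega) rF1 rF2 rM rB e1 hpr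
    hpr' hh2 (show c0 + n1 ≤ c3 by omega) (κ := κ) (x0 := x0) (hx0n.trans (by linarith)) zero_le_one hrow (ub := ub) (fun i => by
      have h1 := hub1 i
      have h2 : ((ub i - x0 : ℤ) : ℝ) = ((ub i : ℝ) - ln35 μ s κ c0) - ((x0 : ℝ) - ln35 μ s κ c0) := by
        push_cast
        ring
      rw [h2]
      refine (abs_sub _ _).trans ?_
      linarith) hR2 (tb := tb) (fun i => by
      have h1 := htb1 i
      have h2 : ((tb i - x0 : ℤ) : ℝ) - sl μ s * (nM + TF : ℕ) = ((tb i : ℝ) - (ln35 μ s κ c0 + sl μ s * (nM + TF : ℕ))) -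
          ((x0 : ℝ) - ln35 μ s κ c0) := by
        push_cast
        ring
      rw [h2]
      refine (abs_sub _ _).trans ?_
      linarith) (by
      have h1 := (abs_le.1 (htbn false)).2
      have h2 := (abs_le.1 (htbn true)).1
      simp only [Bool.false_eq_true, if_false, if_true] at h1 h2
      have h3 := mul_le_mul_of_nonneg_left u3 (show 0 ≤ d / 2 by linarith)
      linarith) HB (by linarith) ho.hB hg hw.gx hw.G' (by linarith) hA1 hpx hpKx (Real.exp_pos _).le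
      (Real.exp_le_one_iff.2 (neg_nonpos.2 (Real.rpow_nonneg (Nat.cast_nonneg _) _))) hc₁ hck hck3 hrate hQ hS
      (a1 := ub false - rad) (b1 := ub false + rad) (a2 := ub true - rad) (b2 := ub true + rad) (lo := 0) (hi := (Γk : ℤ) + c0)
      (by omega) hsep' (by omega) bx1.1 (by omega) (cellR false) (cellR true) hk0n hk0 hkck
  exact ⟨xa, xb, sc, hwin, HP⟩

end

end Pool.Agent.W_7d29a1_C1.H60
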