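import Pool.Agent.W_7d29a1_C1.SuE24
import Pool.Agent.W_7d29a1_C1.PbP60
import Pool.Agent.W_7d29a1_C1.KSz21

/-!
MP_7d29a1_pr, [C1] SHELL, SIDE F (helper24): **THE ENVELOPE OF THE CELLS AT ONE PLACE** in the letters of `LsP44`: `k0e24` : `σ.k0 j z` of side F
is `kap31` along the line of the middle of the box; `ksP24` : `kSz21` called (rates and slopes `rt24 c`, `σ = 1`). `rows24` : the rows of one
place. -/

set_option autoImplicit false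

namespace Pool.Agent.W_7d29a1_C1.P24

open MeasureTheory ProbabilityTheory Filter Topology Finset
open Pool.Agent.W_7d29a1_F Pool.Agent.W_7d29a1_h4g Pool.Agent.W_7d29a1_H Pool.Agent.W_7d29a1_HS
open Pool.Agent.W_7d29a1_C1 Pool.Agent.W_7d29a1_C1.U16
open Pool.Agent.W_7d29a1_C1.Basin76
open Pool.Agent.W_7d29a1_C1.K91 (wt wt_pos)
open Pool.Agent.W_7d29a1_C1.FarW89 (nk nk_nonneg)
open Pool.Agent.W_7d29a1_C1.S12 (Lam12 Lam12_pos)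
open Pool.Agent.W_7d29a1_C1.JnC35 (ln35)
open Pool.Agent.W_7d29a1_C1.D31 (kap31 kapo31 cutn)
open Pool.Agent.W_7d29a1_C1.T10 (kF cF)
open Pool.Agent.W_7d29a1_C1.S83 (RowG unit83)
open Pool.Agent.W_7d29a1_C1.Sh21 (Stp kc21 qz21 kSz21)
open Pool.Agent.W_7d29a1_C1.B26 (PE26 lt26)
open Pool.Agent.W_7d29a1_C1.H60 (kr60 rows60)
open Pool.Agent.W_7d29a1_C1.F45
open Pool.Agent.W_7d29a1_C1.H8 (sg8 ln8_c0 ln8_c3)

noncomputable section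

variable {μ : Measure ℝ} {s c C : ℝ} {n₀ : ℕ}

/-- **The envelope of side F** along the line of the middle of the box. -/
theorem k0e24 {d th : ℝ} {o : LnO} {Q : ℕ} {k : KE45} {T : ℕ → ℕ} {cm : ℕ → ℤ} {m₂ : ℕ} {φ v v₁ g₂ : ℝ} {σ : Fr47.NS47}
    (hσ : σ = sg45 μ s d th o Q k T cm m₂ φ v v₁ g₂) {j : ℕ} {z : ℕ × ℤ} (hT : T j ≤ z.1) :
    σ.k0 j z = kap31 k.P k.c₁ k.c₃ k.Q k.S (EE μ s (T j)) (wd μ s (T j)) (ln35 μ s ((z.1 : ℤ), z.2 + cm j) (σ.c0 j z))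
      (ln35 μ s ((z.1 : ℤ), z.2 + cm j) (σ.c3 j z)) (σ.c3 j z - σ.c0 j z) := by
  have e0 : ln35 μ s ((z.1 : ℤ), z.2 + cm j) (σ.c0 j z) = (z.2 : ℝ) + ((cm j : ℝ) + sl μ s * (1 - (T j : ℝ))) := by
    rw [hσ]
    exact ln8_c0 hT
  have e3 : ln35 μ s ((z.1 : ℤ), z.2 + cm j) (σ.c3 j z) = (z.2 : ℝ) + ((cm j : ℝ) + sl μ s * ((T j : ℝ) + 1)) := by
    rw [hσ]
    exact ln8_c3
  have en : σ.c3 j z - σ.c0 j z = 2 * T j := by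
    rw [hσ]
    show z.1 + T j + 1 - (z.1 - T j + 1) = 2 * T j
    omega
  rw [e0, e3, en]
  funext y x
  have ek : σ.k0 j z y x = kap31 k.P k.c₁ k.c₃ k.Q k.S (EE μ s (T j)) (wd μ s (T j)) ((cm j : ℝ) + sl μ s * (1 - (T j : ℝ)))
      ((cm j : ℝ) + sl μ s * ((T j : ℝ) + 1)) (2 * T j) (y - z.2) (x - z.2) := by
    rw [hσ]
    rfl
  rw [ek]
  unfold kap31 cutn
  by_cases h1 : y ≤ x ∧ x ≤ y + ((2 * T j : ℕ) : ℤ)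
  · rw [if_pos h1, if_pos (by omega)]
    unfold kapo31
    have f1 : (((y - z.2 : ℤ) : ℝ)) - ((cm j : ℝ) + sl μ s * (1 - (T j : ℝ))) = (y : ℝ) - ((z.2 : ℝ) + ((cm j : ℝ) + sl μ s * (1 - (T j : ℝ)))) := by
      push_cast
      ring
    have f2 : (((x - z.2 : ℤ) : ℝ)) - ((cm j : ℝ) + sl μ s * ((T j : ℝ) + 1)) = (x : ℝ) - ((z.2 : ℝ) + ((cm j : ℝ) + sl μ s * ((T j : ℝ) + 1))) := by
      push_cast
      ring
    simp only [f1, f2]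
  · rw [if_neg h1, if_neg (by omega)]

/-- **THE STEP OF THE FIRST BUFFER AT ONE PLACE**, from the kernel of the cells of `So47`. -/
theorem ksP24 [IsProbabilityMeasure μ] (h : In μ s c C n₀) {ell K0 d th : ℝ} (hth : 0 < th) (hth1 : th ≤ 1 / 4) {g : ℝ} {o : LnO}
    (ho : o.Ok (lnI c d th K0)) {w : LnJ} {p : LnP} (hp : p.Ok w) :
    ∃ n₂ : ℕ, ∀ (T : ℕ → ℕ) (cm : ℕ → ℤ) (j : ℕ) (z : ℕ × ℤ) (hh : ℝ) (pr : ℕ → ℝ) (M : ℕ) (ζ : Env) (r A : ℝ)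
      (k : KE45) (m₂ : ℕ) (φ v v₁ g₂ : ℝ) (σ : Fr47.NS47), n₂ ≤ T j → T j ≤ z.1 → (∀ k, k < M → pr k = Real.exp (s + hh)) →
      (∀ k, M ≤ k → pr k = Real.exp s) → |hh| * T j ≤ 1 →
      MO45 μ s c d th (lnI c d th K0) ell g w.G' o p.Q T cm j ((z.1 : ℤ), z.2) ζ r A →
      BT45 μ s c d th (lnI c d th K0) ell g o w p T cm j ((z.1 : ℤ), z.2) ζ A →
      σ = sg45 μ s d th o p.Q k T cm m₂ φ v v₁ g₂ →
      ∀ (P : ℕ) (Q S : ℝ), 0 ≤ Q → P ≤ k.P → o.Pw ≤ k.P → 1 ≤ k.P → 0 < k.c₁ → k.c₁ ≤ rt24 c → 0 ≤ k.c₃ → k.c₃ ≤ rt24 c →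
      qz21 k.P P (rt24 c) Q o.Qw 1 1 ≤ k.Q → S + 1 ≤ k.S → ∀ (lo H : ℤ) (Z : Finset ℤ),
        Stp (wt ζ) pr lo H (σ.c0 j z) (n145 th o p.Q T j) (Icc lo H) Z (σ.k0 j z)
          (kr60 μ s ζ P (rt24 c) (rt24 c) (EE μ s (T j)) (wd μ s (T j)) ((z.1 : ℤ), z.2 + cm j) (σ.c3 j z) Q S (σ.c0 j z + n145 th o p.Q T j)) 1
          (Lam12 μ s hh M (σ.c0 j z) (n145 th o p.Q T j)) := by
  have h0 := h.c0
  have r0 : 0 < rt24 c := by unfold rt24; positivity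
  obtain ⟨nr, hnr1, hnr⟩ := rows60 hth hth1 ho (show (lnI c d th K0).th' = th / 8 from rfl) hp.Q
  obtain ⟨nb, hnb1, hnb⟩ := kSz21 h (c₂ := rt24 c) (σ := 1) (D := 1) r0 one_pos zero_le_one
  obtain ⟨nw, hnw⟩ := eventually_atTop.1 ((wd_tendsto h).eventually_ge_atTop 1)
  refine ⟨nr + 4 * nb + nw + 1, ?_⟩
  intro T cm j z hh pr M ζ r A k m₂ φ v v₁ g₂ σ hT hTz hpr hpr' hh1 hM hB hσ P Q S hQ hPP hPw hP1 hc1 hc1' hc3 hc3' hQ0 hS0 lo H Z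
  obtain ⟨e1, rF1, rF2, rM, rB, rn⟩ := hnr T j (by omega)
  rw [k0e24 hσ hTz]
  have hc0 : σ.c0 j z = z.1 - T j + 1 := by rw [hσ]; rfl
  have hc3r : σ.c3 j z = z.1 + T j + 1 := by rw [hσ]; rfl
  obtain ⟨c0, hc0d⟩ : ∃ c0, c0 = σ.c0 j z := ⟨_, rfl⟩
  obtain ⟨c3, hc3d⟩ : ∃ c3, c3 = σ.c3 j z := ⟨_, rfl⟩
  obtain ⟨κ, hκ⟩ : ∃ κ : Pt, κ = ((z.1 : ℤ), z.2 + cm j) := ⟨_, rfl⟩
  rw [← hc0d] at hc0
  rw [← hc3d] at hc3r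
  rw [← hc0d, ← hc3d, ← hκ]
  have c0Z : (c0 : ℤ) = 1 - (T j : ℤ) + (z.1 : ℤ) := by omega
  obtain ⟨TF, hTF⟩ : ∃ TF, TF = TF45 th o p.Q T j := ⟨_, rfl⟩
  obtain ⟨nM, hnM⟩ : ∃ nM, nM = nM45 th o p.Q T j := ⟨_, rfl⟩
  obtain ⟨nB, hnB⟩ : ∃ nB, nB = nB45 th o p.Q T j := ⟨_, rfl⟩
  obtain ⟨n1, hn1⟩ : ∃ n1, n1 = n145 th o p.Q T j := ⟨_, rfl⟩
  rw [← hTF, ← hnM, ← hnB, ← hn1] at e1
  rw [← hTF] at rF1 rF2
  rw [← hn1] at rn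
  rw [← hn1]
  have hln : ln35 μ s κ c0 = (z.2 : ℝ) + cm j + sl μ s * (1 - (T j : ℝ)) := by
    unfold ln35
    rw [hκ, c0Z]
    push_cast
    ring
  obtain ⟨x0, hx0⟩ : ∃ x0 : ℤ, x0 = (bp45 μ s T cm j).2 + z.2 := ⟨_, rfl⟩
  have w1 : 1 ≤ wd μ s (T j) := hnw (T j) (by omega)
  have hx0n : |(x0 : ℝ) - ln35 μ s κ c0| ≤ 1 * wd μ s (T j) := by
    have f1 := Int.floor_le (sl μ s * (1 - (T j : ℝ)))
    have f2 := Int.lt_floor_add_one (sl μ s * (1 - (T j : ℝ)))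
    rw [hx0, hln]
    unfold bp45
    push_cast
    rw [abs_le]
    constructor <;> linarith
  have hrow : ζ ∈ RowG (c0 : ℤ) x0 (wd μ s TF) (1 * EE μ s TF) := by
    have h1 := hM.ra
    rw [← hTF, ← hx0, show (bp45 μ s T cm j).1 + ((z.1 : ℤ), z.2).1 = (c0 : ℤ) from c0Z.symm] at h1
    exact h1
  have hpe : PE26 (kW μ s ζ c0 n1) (fun x => lt26 (sl μ s) (wd μ s TF) 0 (x - x0)) (fun x => lt26 (sl μ s) (wd μ s TF) n1 (x - x0))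
      (EE μ s TF) o.Pw o.Qw (c / 2) := by
    have h1 := hB
    unfold BT45 at h1
    rw [← hTF, ← hnM, ← hnB, show (bp45 μ s T cm j).1 + ((z.1 : ℤ), z.2).1 = (c0 : ℤ) from c0Z.symm, add_assoc nM TF nB, ← e1,
      show (bp45 μ s T cm j).2 + ((z.1 : ℤ), z.2).2 = x0 from hx0.symm] at h1
    exact h1.pe
  have hrnR : (n1 : ℝ) ≤ T j := by exact_mod_cast rn
  have hh2 : |hh| * n1 ≤ 1 := (mul_le_mul_of_nonneg_left hrnR (abs_nonneg hh)).trans hh1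
  have hrt : rt24 c + rt24 c + rt24 c ≤ c / 64 := by
    unfold rt24
    linarith
  exact hnb (T := T j) (TF := TF) (n1 := n1) (by omega) rF1 rF2 hpr hpr' hh2 (show c0 + n1 ≤ c3 by omega) hx0n zero_le_one hrow hpe ho.Qw
    hPw hPP hP1 hc1 hc3 hc3' (by linarith) hQ hQ0 hS0 Z

end

end Pool.Agent.W_7d29a1_C1.P24
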