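import Pool.Agent.W_7d29a1_C1.PbP60
import Pool.Agent.W_7d29a1_C1.SuE24
import Pool.Agent.W_7d29a1_C1.L0a8

/-!
MP_7d29a1_pr, [C1] SHELL, SIDE F: **ROWS, COLUMNS AND SIZES OF ONE PLACE OF `LsP44`** (helper58). `rows58p` : the rows; `cols58p` : the
cells, the column of the future, `boxA58`, `boxB58` : the boxes; `in58p`, `lo58p` : the inside `In44` in the letters of `suE24`, `l0a8`;
`kcs58p` : the size of the kernel of the cells.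
-/

set_option autoImplicit false

namespace Pool.Agent.W_7d29a1_C1.Ls58

open MeasureTheory Finset Filter Topology
open Pool.Agent.W_7d29a1_F Pool.Agent.W_7d29a1_h4g Pool.Agent.W_7d29a1_H Pool.Agent.W_7d29a1_HS
open Pool.Agent.W_7d29a1_C1
open Pool.Agent.W_7d29a1_C1.S12 (Lam12)
open Pool.Agent.W_7d29a1_C1.JnC35 (ln35)
open Pool.Agent.W_7d29a1_C1.T10 (kF cF)
open Pool.Agent.W_7d29a1_C1.D31 (En31)
open Pool.Agent.W_7d29a1_C1.FarW89 (nk)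
open Pool.Agent.W_7d29a1_C1.P24 (rE24 cE24 rt24 kc24)
open Pool.Agent.W_7d29a1_C1.F45
open Pool.Agent.W_7d29a1_C1.Lt44 (Bx44 In44)
open Pool.Agent.W_7d29a1_C1.H8 (uc8 uc8_near uc8_sep sg8 zc8)
open Pool.Agent.W_7d29a1_C1.Fr47 (NS47)

noncomputable section

variable {μ : Measure ℝ} {s : ℝ}

/-! ### The rows -/

/-- **THE ROWS OF ONE PLACE**: `c0` seam row, `n1` first buffer, `n'` to the exit row `z + 5 T / 8`, `t = T / 32`, `na = n' + t`. -/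
structure Rw58 (th : ℝ) (o : LnO) (Q : ℕ) (T : ℕ → ℕ) (j : ℕ) (z1 c0 n1 n' t na : ℕ) : Prop where
  ec : c0 = z1 - T j + 1
  eT : T j = 32 * t
  t1 : 1 ≤ t
  r1 : c0 + n1 = cF th (R145 o Q) z1 (T j) + Q * o.j1 * kF th (R145 o Q) (T j)
  en : c0 + n1 + n' = z1 + 5 * T j / 8
  eZ : ((c0 + n1 + n' : ℕ) : ℤ) = (z1 : ℤ) + rE24 (T j)
  hT : T j ≤ n1 + n'
  c3 : z1 + T j + 1 = c0 + n1 + na + 5 * t + t + (5 * t + 1)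
  sum : n1 + na + 5 * t + t + (5 * t + 1) = 2 * T j
  d45 : n1 + na + 5 * t + 1 = T j + (5 * (T j / 8) + 6 * (T j / 32))
  n1T : n1 ≤ T j
  cF : cF th (R145 o Q) z1 (T j) = c0 + (nM45 th o Q T j + TF45 th o Q T j)
  nb : t = T j / 32
  le3 : c0 + n1 ≤ z1 + T j + 1
  e3 : z1 + T j + 1 - c0 = 2 * T j

/-- **THE ROWS.** -/
theorem rows58p {th : ℝ} (h0 : 0 < th) (h1 : th ≤ 1 / 4) {i : LnI} {o : LnO} (ho : o.Ok i) (hi : i.th' = th / 8) {Q : ℕ} (hQ : 1 ≤ Q) :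
    ∃ n₁ : ℕ, 1 ≤ n₁ ∧ ∀ (T : ℕ → ℕ) (j : ℕ) (z1 c0 n1 n' t na : ℕ), n₁ ≤ T j → 32 ∣ T j → T j ≤ z1 → c0 = z1 - T j + 1 →
      n1 = n145 th o Q T j → n' = z1 + 5 * T j / 8 - (c0 + n1) → t = T j / 32 → na = n' + t → Rw58 th o Q T j z1 c0 n1 n' t na := by
  obtain ⟨n₁, hn₁, H⟩ := H60.rows60 h0 h1 ho hi hQ
  refine ⟨n₁, hn₁, fun T j z1 c0 n1 n' t na hT hd hz hc0 hn1 hn' ht hna => ?_⟩
  obtain ⟨_, _, _, _, _, a6⟩ := H T j hT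
  rw [← hn1] at a6
  have hTp : 1 ≤ T j := hn₁.trans hT
  have e1 : n1 = R145 o Q * kF th (R145 o Q) (T j) + Q * o.j1 * kF th (R145 o Q) (T j) := by
    rw [hn1]
    unfold n145
    ring
  have e2 : cF th (R145 o Q) z1 (T j) = z1 - T j + 1 + R145 o Q * kF th (R145 o Q) (T j) := rfl
  have e3 : rE24 (T j) = 5 * (T j / 8) := rfl
  have e4 := nMTF45 th o Q T j
  obtain ⟨x, hx⟩ : ∃ x, x = R145 o Q * kF th (R145 o Q) (T j) := ⟨_, rfl⟩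
  obtain ⟨y, hy⟩ : ∃ y, y = Q * o.j1 * kF th (R145 o Q) (T j) := ⟨_, rfl⟩
  obtain ⟨T', hT'⟩ : ∃ T', T' = T j := ⟨_, rfl⟩
  rw [← hx, ← hy] at e1
  rw [← hx] at e2 e4
  obtain ⟨k, hk⟩ := hd
  have hk' : T j / 32 = k := by omega
  constructor
  · exact hc0
  · omega
  · omega
  · rw [e2, ← hy]
    omega
  · omega
  · rw [e3]
    omega
  · omega
  · omega
  · omega
  · omega
  · exact a6
  · rw [e2, e4, hc0]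
  · exact ht
  · omega
  · omega

/-! ### The columns -/

/-- **THE CELLS OF ONE PLACE**; `ub` : the middles, `Rr` : the radius. -/
structure Co58 (μ : Measure ℝ) (s : ℝ) (σ : NS47) (T : ℕ → ℕ) (j : ℕ) (z : ℕ × ℤ) (κ : Pt) (Γk : ℕ) (ub : Bool → ℤ) (Rr : ℝ) : Prop where
  na1 : |((z.2 + σ.α₁ j : ℤ) : ℝ) - ln35 μ s κ (σ.c0 j z)| ≤ 2 * wd μ s (T j)
  nb1 : |((z.2 + σ.β₁ j : ℤ) : ℝ) - ln35 μ s κ (σ.c0 j z)| ≤ 2 * wd μ s (T j)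
  na2 : |((z.2 + σ.α₂ j : ℤ) : ℝ) - ln35 μ s κ (σ.c0 j z)| ≤ 2 * wd μ s (T j)
  nb2 : |((z.2 + σ.β₂ j : ℤ) : ℝ) - ln35 μ s κ (σ.c0 j z)| ≤ 2 * wd μ s (T j)
  o1 : z.2 + σ.α₁ j ≤ z.2 + σ.β₁ j
  o2 : z.2 + σ.β₁ j < z.2 + σ.α₂ j
  o3 : z.2 + σ.α₂ j ≤ z.2 + σ.β₂ j
  c1 : ∀ y : ℤ, z.2 + σ.α₁ j ≤ y → y ≤ z.2 + σ.β₁ j → |(y : ℝ) - ub false| ≤ Rr
  c2 : ∀ y : ℤ, z.2 + σ.α₂ j ≤ y → y ≤ z.2 + σ.β₂ j → |(y : ℝ) - ub true| ≤ Rr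
  nu : ∀ b, |(ub b : ℝ) - ln35 μ s κ (σ.c0 j z)| ≤ 2 * wd μ s (T j)
  lo : 0 ≤ z.2 + σ.α₁ j
  hi : z.2 + σ.β₂ j ≤ Γk + σ.c0 j z
  zc : |((z.2 + σ.ζc j : ℤ) : ℝ) - ln35 μ s κ (σ.c3 j z)| ≤ 1

theorem mid58 (m k : ℤ) : (m - k + (m + k)) / 2 = m := by omega

/-- **THE CELLS.** -/
theorem cols58p [IsProbabilityMeasure μ] {c C : ℝ} {n₀ : ℕ} (h : In μ s c C n₀) {d : ℝ} (hd : 0 < d) (hd1 : d ≤ 1) : ∃ n₁ : ℕ, 1 ≤ n₁ ∧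
    ∀ {cc K0 th : ℝ} {o : LnO}, o.Ok (lnI cc d th K0) → ∀ {Q : ℕ} {T : ℕ → ℕ} {j : ℕ}, n₁ ≤ TF45 th o Q T j → TF45 th o Q T j ≤ T j →
    ∀ {cm : ℕ → ℤ} {z : ℕ × ℤ}, T j ≤ z.1 → ∀ {Γk : ℕ} {ρ : ℝ}, 2 ≤ ρ → Bx44 μ s (T j) z ((z.1 : ℤ), z.2 + cm j) ρ →
    ∀ {k : KE45} {m₂ : ℕ} {φ v v₁ g₂ : ℝ} {σ : NS47}, σ = sg45 μ s d th o Q k T cm m₂ φ v v₁ g₂ →
      Co58 μ s σ T j z ((z.1 : ℤ), z.2 + cm j) Γk (fun b => u45 μ s d T cm j b + z.2) (o.th * wd μ s (TF45 th o Q T j)) := by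
  obtain ⟨n₁, hn₁⟩ := eventually_atTop.1 ((wd_tendsto h).eventually_ge_atTop (8 / d))
  refine ⟨max 1 n₁, le_max_left _ _, fun {cc K0 th o} ho {Q T j} hTF hTT {cm z} hTz {Γk ρ} hρ HB {k m₂ φ v v₁ g₂ σ} hσ => ?_⟩
  have hTF1 : 1 ≤ TF45 th o Q T j := (le_max_left _ _).trans hTF
  have hT1 : n₁ ≤ T j := ((le_max_right _ _).trans hTF).trans hTT
  have hw := hn₁ _ hT1
  rw [div_le_iff₀ hd] at hw
  obtain ⟨w, hwd⟩ : ∃ w, w = wd μ s (T j) := ⟨_, rfl⟩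
  have hw0 : 0 ≤ w := hwd ▸ h.wd_nonneg _
  rw [← hwd] at hw
  have hw8 : 8 ≤ w := by nlinarith
  have e1 := wd_le_two h hTF1 hTT
  rw [← hwd] at e1
  have e2 : o.th ≤ d / 16 := ho.th1
  have e3 := ho.th0
  have e4 := h.wd_nonneg (TF45 th o Q T j)
  obtain ⟨r, hr⟩ : ∃ r : ℕ, r = ⌊o.th * wd μ s (TF45 th o Q T j)⌋₊ := ⟨_, rfl⟩
  have hr1 : (r : ℝ) ≤ o.th * wd μ s (TF45 th o Q T j) := hr ▸ Nat.floor_le (mul_nonneg e3.le e4)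
  have hr2 : o.th * wd μ s (TF45 th o Q T j) ≤ d / 8 * w := by nlinarith
  have hr0 : (0 : ℝ) ≤ r := Nat.cast_nonneg _
  obtain ⟨uu, huu⟩ : ∃ uu : Bool → ℤ, uu = u45 μ s d T cm j := ⟨_, rfl⟩
  have ea1 : σ.α₁ j = uu false - r := by rw [hσ, hr, huu]; rfl
  have eb1 : σ.β₁ j = uu false + r := by rw [hσ, hr, huu]; rfl
  have ea2 : σ.α₂ j = uu true - r := by rw [hσ, hr, huu]; rfl
  have eb2 : σ.β₂ j = uu true + r := by rw [hσ, hr, huu]; rfl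
  have ez : σ.ζc j = cm j + ⌊sl μ s * ((T j : ℝ) + 1)⌋ := by rw [hσ]; rfl
  have ec0 : σ.c0 j z = z.1 - T j + 1 := by rw [hσ]; rfl
  have ec3 : σ.c3 j z = z.1 + T j + 1 := by rw [hσ]; rfl
  have hl0 : ln35 μ s ((z.1 : ℤ), z.2 + cm j) (σ.c0 j z) = (z.2 : ℝ) + ((cm j : ℝ) + sl μ s * (1 - (T j : ℝ))) := by
    have e : ((σ.c0 j z : ℕ) : ℤ) = z.1 - (T j : ℤ) + 1 := by omega
    unfold ln35
    show ((z.2 + cm j : ℤ) : ℝ) + sl μ s * ((((σ.c0 j z : ℕ) : ℤ) - (z.1 : ℤ) : ℤ) : ℝ) = _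
    rw [e]
    push_cast
    ring
  have hl3 : ln35 μ s ((z.1 : ℤ), z.2 + cm j) (σ.c3 j z) = (z.2 : ℝ) + ((cm j : ℝ) + sl μ s * ((T j : ℝ) + 1)) := by
    have e : ((σ.c3 j z : ℕ) : ℤ) = z.1 + (T j : ℤ) + 1 := by omega
    unfold ln35
    show ((z.2 + cm j : ℤ) : ℝ) + sl μ s * ((((σ.c3 j z : ℕ) : ℤ) - (z.1 : ℤ) : ℤ) : ℝ) = _
    rw [e]
    push_cast
    ring
  have hm : ∀ b, |(uu b : ℝ) - ((cm j : ℝ) + sl μ s * (1 - (T j : ℝ)) + (if b then 3 / 4 * d * w else -(3 / 4 * d * w)))| ≤ 1 := by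
    intro b
    have g := uc8_near (μ := μ) (s := s) d (wd μ s (T j)) (cm j) (1 - (T j : ℤ)) b
    rw [hwd, huu]
    unfold u45
    push_cast at g ⊢
    exact g
  have hf := hm false
  have ht := hm true
  simp only [Bool.false_eq_true, if_false, if_true] at hf ht
  rw [abs_le] at hf ht
  have hdw : d * w ≤ w := by nlinarith
  have hdw0 : 0 ≤ d * w := mul_nonneg hd.le hw0
  have q1 : |((z.2 + σ.α₁ j : ℤ) : ℝ) - ln35 μ s ((z.1 : ℤ), z.2 + cm j) (σ.c0 j z)| ≤ 2 * wd μ s (T j) := by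
    rw [hl0, ea1, ← hwd, abs_le]
    push_cast
    constructor <;> linarith
  have q2 : |((z.2 + σ.β₁ j : ℤ) : ℝ) - ln35 μ s ((z.1 : ℤ), z.2 + cm j) (σ.c0 j z)| ≤ 2 * wd μ s (T j) := by
    rw [hl0, eb1, ← hwd, abs_le]
    push_cast
    constructor <;> linarith
  have q3 : |((z.2 + σ.α₂ j : ℤ) : ℝ) - ln35 μ s ((z.1 : ℤ), z.2 + cm j) (σ.c0 j z)| ≤ 2 * wd μ s (T j) := by
    rw [hl0, ea2, ← hwd, abs_le]
    push_cast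
    constructor <;> linarith
  have q4 : |((z.2 + σ.β₂ j : ℤ) : ℝ) - ln35 μ s ((z.1 : ℤ), z.2 + cm j) (σ.c0 j z)| ≤ 2 * wd μ s (T j) := by
    rw [hl0, eb2, ← hwd, abs_le]
    push_cast
    constructor <;> linarith
  have hρw : 2 * wd μ s (T j) ≤ ρ * wd μ s (T j) := mul_le_mul_of_nonneg_right hρ (hwd ▸ hw0)
  have hk0 : z.1 ≤ σ.c0 j z + T j := by omega
  have hub : (fun b => u45 μ s d T cm j b + z.2) = fun b => uu b + z.2 := by rw [huu]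
  rw [hub]
  refine ⟨q1, q2, q3, q4, ?_, ?_, ?_, ?_, ?_, ?_, ?_, ?_, ?_⟩
  · omega
  · have : ((z.2 + σ.β₁ j : ℤ) : ℝ) < ((z.2 + σ.α₂ j : ℤ) : ℝ) := by
      rw [eb1, ea2]
      push_cast
      linarith
    exact_mod_cast this
  · omega
  · intro y h1 h2
    have h3 : |y - (uu false + z.2)| ≤ (r : ℤ) := by
      rw [abs_le]
      omega
    have h4 : |((y - (uu false + z.2) : ℤ) : ℝ)| ≤ (r : ℝ) := by
      rw [← Int.cast_abs]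
      exact_mod_cast h3
    have e : (y : ℝ) - ((uu false + z.2 : ℤ) : ℝ) = ((y - (uu false + z.2) : ℤ) : ℝ) := by push_cast; ring
    show |(y : ℝ) - ((uu false + z.2 : ℤ) : ℝ)| ≤ _
    rw [e]
    exact h4.trans hr1
  · intro y h1 h2
    have h3 : |y - (uu true + z.2)| ≤ (r : ℤ) := by
      rw [abs_le]
      omega
    have h4 : |((y - (uu true + z.2) : ℤ) : ℝ)| ≤ (r : ℝ) := by
      rw [← Int.cast_abs]
      exact_mod_cast h3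
    have e : (y : ℝ) - ((uu true + z.2 : ℤ) : ℝ) = ((y - (uu true + z.2) : ℤ) : ℝ) := by push_cast; ring
    show |(y : ℝ) - ((uu true + z.2 : ℤ) : ℝ)| ≤ _
    rw [e]
    exact h4.trans hr1
  · intro b
    show |((uu b + z.2 : ℤ) : ℝ) - _| ≤ _
    rw [hl0, ← hwd, abs_le]
    cases b
    · push_cast
      constructor <;> linarith
    · push_cast
      constructor <;> linarith
  · exact (HB (σ.c0 j z) (z.2 + σ.α₁ j) hk0 (q1.trans hρw)).1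
  · have := (HB (σ.c0 j z) (z.2 + σ.β₂ j) hk0 (q4.trans hρw)).2
    omega
  · rw [hl3, ez]
    have f1 := Int.floor_le (sl μ s * ((T j : ℝ) + 1))
    have f2 := Int.lt_floor_add_one (sl μ s * ((T j : ℝ) + 1))
    rw [abs_le]
    push_cast
    constructor <;> linarith

/-! ### The boxes of `suE24` -/

/-- `B1` of `suE24`, `lo = 0`, `H = Γk + c0`. -/
theorem boxA58 {T : ℕ} {z : ℕ × ℤ} {κ : Pt} {ρ : ℝ} (HB : Bx44 μ s T z κ ρ) (hw : 0 ≤ wd μ s T) (hρ : 1 ≤ ρ) {Γk c0 : ℕ} (hc : z.1 ≤ c0 + T)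
    (n1 na t : ℕ) (v : ℤ) (hv : |(v : ℝ) - ln35 μ s κ (c0 + n1 + na + 5 * t)| ≤ wd μ s T) :
    0 ≤ v ∧ v ≤ (Γk + c0 : ℤ) + n1 + na + (5 * t : ℕ) := by
  have h1 : wd μ s T ≤ ρ * wd μ s T := by nlinarith
  obtain ⟨h2, h3⟩ := HB (c0 + n1 + na + 5 * t) v (by omega) (hv.trans h1)
  exact ⟨h2, by push_cast at h3 ⊢; omega⟩

/-- `B2` of `suE24`. -/
theorem boxB58 {T : ℕ} {z : ℕ × ℤ} {κ : Pt} {ρ : ℝ} (HB : Bx44 μ s T z κ ρ) (hw : 0 ≤ wd μ s T) (hρ : 2 ≤ ρ) {Γk c0 : ℕ} (hc : z.1 ≤ c0 + T)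
    (n1 na t : ℕ) (v : ℤ) (hv : |(v : ℝ) - ln35 μ s κ (c0 + n1 + na + 5 * t + t)| ≤ 2 * wd μ s T) :
    0 ≤ v ∧ v ≤ (Γk + c0 : ℤ) + n1 + na + (5 * t : ℕ) + t := by
  have h1 : 2 * wd μ s T ≤ ρ * wd μ s T := mul_le_mul_of_nonneg_right hρ hw
  obtain ⟨h2, h3⟩ := HB (c0 + n1 + na + 5 * t + t) v (by omega) (hv.trans h1)
  exact ⟨h2, by push_cast at h3 ⊢; omega⟩

/-! ### The inside -/

/-- **THE INSIDE IN THE LETTERS OF `suE24`.** -/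
theorem in58p {c : ℝ} {th : ℝ} {o : LnO} {Q : ℕ} {T : ℕ → ℕ} {j z1 c0 n1 n' t na : ℕ} (R : Rw58 th o Q T j z1 c0 n1 n' t na) {P Pk M : ℕ}
    {κ : Pt} {hh c₂ σ qin Ui : ℝ} {p : ℕ → ℝ} {ζ : Env}
    (H : In44 μ s c P (T j) κ hh p M ζ c₂ σ qin Ui (cF th (R145 o Q) z1 (T j))
      (cF th (R145 o Q) z1 (T j) + Q * o.j1 * kF th (R145 o Q) (T j)) (z1 + 5 * T j / 8)) (hP : 2 * P ≤ Pk) (I J : Finset ℤ) :
    En31 Pk (c / 64) c₂ (EE μ s (T j)) (wd μ s (T j)) qin σ (fun x => (x : ℝ) - ln35 μ s κ (c0 + n1))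
      (fun y => (y : ℝ) - ln35 μ s κ (c0 + n1 + n')) (nk μ s hh ζ p M (c0 + n1) n') I J := by
  have g := H.up Pk hP I J
  rw [← R.r1, ← R.en, Nat.add_sub_cancel_left] at g
  exact g

/-- The column of the line in the exit row. -/
theorem colE58 {z : ℕ × ℤ} {cm : ℤ} {T : ℕ} :
    |(((((z.1 : ℤ), z.2 + cm) : Pt).2 + cE24 μ s T : ℤ) : ℝ) - ln35 μ s ((z.1 : ℤ), z.2 + cm) (z.1 + 5 * (T / 8))| ≤ 1 := by
  unfold ln35 cE24 rE24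
  obtain ⟨t, ht⟩ : ∃ t, t = 5 * (T / 8) := ⟨_, rfl⟩
  rw [← ht]
  have f1 := Int.floor_le (sl μ s * (t : ℝ))
  have f2 := Int.lt_floor_add_one (sl μ s * (t : ℝ))
  have e : (((z.1 + t : ℕ) : ℤ) - (z.1 : ℤ) : ℤ) = t := by omega
  show |((z.2 + cm + ⌊sl μ s * (t : ℝ)⌋ : ℤ) : ℝ) - (((z.2 + cm : ℤ) : ℝ) + sl μ s * ((((z.1 + t : ℕ) : ℤ) - (z.1 : ℤ) : ℤ) : ℝ))| ≤ 1
  rw [e, abs_le]
  push_cast
  constructor <;> linarith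

/-- **THE LOWER BOUND OF THE INSIDE, TO THE COLUMN OF `suE24`.** -/
theorem lo58p {c : ℝ} {th : ℝ} {o : LnO} {Q : ℕ} {T : ℕ → ℕ} {j : ℕ} {z : ℕ × ℤ} {cm : ℕ → ℤ} {c0 n1 n' t na : ℕ}
    (R : Rw58 th o Q T j z.1 c0 n1 n' t na) {P M : ℕ} {hh c₂ σ qin Ui : ℝ} {p : ℕ → ℝ} {ζ : Env}
    (H : In44 μ s c P (T j) ((z.1 : ℤ), z.2 + cm j) hh p M ζ c₂ σ qin Ui (cF th (R145 o Q) z.1 (T j))
      (cF th (R145 o Q) z.1 (T j) + Q * o.j1 * kF th (R145 o Q) (T j)) (z.1 + 5 * T j / 8)) (hw : 1 ≤ wd μ s (T j)) {n0 : ℕ}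
    (hn0 : c0 + (nM45 th o Q T j + TF45 th o Q T j) + n0 = c0 + n1 + n') {x : ℤ}
    (hx : |(x : ℝ) - ln35 μ s ((z.1 : ℤ), z.2 + cm j) (c0 + (nM45 th o Q T j + TF45 th o Q T j))| ≤ 2 * wd μ s (T j)) :
    Real.exp (-(Ui * EE μ s (T j))) ≤ nk μ s hh ζ p M (c0 + (nM45 th o Q T j + TF45 th o Q T j)) n0 x
      ((((z.1 : ℤ), z.2 + cm j) : Pt).2 + cE24 μ s (T j)) := by
  have e5 : 5 * T j / 8 = 5 * (T j / 8) := by have := R.eT; omega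
  have g := H.lo x ((((z.1 : ℤ), z.2 + cm j) : Pt).2 + cE24 μ s (T j)) (by rw [R.cF]; exact hx) (by
    rw [e5]
    exact colE58.trans (by linarith))
  rw [R.cF, ← R.en, ← hn0, Nat.add_sub_cancel_left] at g
  exact g

/-! ### The size of the kernel of the cells -/

/-- **`f = 1`.** -/
theorem kcs58p [IsProbabilityMeasure μ] {c C : ℝ} {n₀ : ℕ} (h : In μ s c C n₀) {f : ℝ} (hf : 0 < f) : ∃ n₁ : ℕ, 1 ≤ n₁ ∧ ∀ T : ℕ, n₁ ≤ T →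
    ∀ (Pk : ℕ) (κ : Pt) (c0 c3 : ℕ) (a : ℤ) (J : Finset ℤ), ∑ v ∈ J, kc24 μ s c Pk T κ c0 c3 a v ≤ Real.exp (f * EE μ s T) := by
  have h0 := h.c0
  obtain ⟨n₁, hn₁, H⟩ := H8.phif8 h (ck := rt24 c) (by unfold rt24; positivity) hf
  exact ⟨n₁, hn₁, fun T hT Pk κ c0 c3 a J => H T hT Pk (rt24 c) κ c0 c3 a J⟩

end

end Pool.Agent.W_7d29a1_C1.Ls58
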