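import Pool.Agent.W_7d29a1_C1.NumW54
import Pool.Agent.W_7d29a1_C1.CbT9

/-!
Both halves (MP_7d29a1_pr), attractor route [C1]: THE NUMBERS OF THE CLOSENESS FROM THE CONSTANTS, TWO UNITS. (helper54)

Flat costs `c0, cUf, cLf` (before the walls, polynomial in the levels `U`), real costs `cV, cL, cU` (after the future), one gain for all walls
`gC54`, one cost for the last choice `xC54`. `suc54` : `suc9_of` with every number discharged.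
-/

set_option autoImplicit false
set_option linter.unusedSectionVars false

namespace Pool.Agent.W_7d29a1_C1.H54

open MeasureTheory Filter Topology
open Pool.Agent.W_7d29a1_F Pool.Agent.W_7d29a1_H Pool.Agent.W_7d29a1_HS
open Pool.Agent.W_7d29a1_C1.T10 (Tg)
open Pool.Agent.W_7d29a1_C1.U7
open Pool.Agent.W_7d29a1_C1.H60 (Cx)
open Pool.Agent.W_7d29a1_C1.Lt9

noncomputable section

/-! ### The constants -/

/-- The margin `m` of the flat system. -/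
def mC54 (cUf cLf : ℝ) : ℝ := 4 * (2 * cLf + cUf) + 1

/-- **The cost of the closeness in the last choice** (`m + 4 c0 + 1`). -/
def xC54 (c0 cUf cLf : ℝ) : ℝ := mC54 cUf cLf + 4 * c0 + 1

/-- **The gain of the walls for the flat system** (`ef`; it sees no constant of the future). -/
def fC54 (cUf cLf : ℝ) : ℝ := 2 * (3 * cLf + cUf) + 1

/-- **The gain of the walls and of the far part for the real system** (`e`, `e1`). -/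
def gC54 (cV cL cU : ℝ) : ℝ := 2 * (cV + 2 * cL + cU) + 1

theorem mC54_pos {cUf cLf : ℝ} (h1 : 0 ≤ cUf) (h2 : 0 ≤ cLf) : 0 < mC54 cUf cLf := by
  unfold mC54
  linarith

theorem xC54_nn {c0 cUf cLf : ℝ} (h0 : 0 ≤ c0) (h1 : 0 ≤ cUf) (h2 : 0 ≤ cLf) : 0 ≤ xC54 c0 cUf cLf := by
  unfold xC54 mC54
  linarith

theorem fC54_nn {cUf cLf : ℝ} (h1 : 0 ≤ cUf) (h2 : 0 ≤ cLf) : 0 ≤ fC54 cUf cLf := by
  unfold fC54
  linarith

theorem gC54_nn {cV cL cU : ℝ} (h0 : 0 ≤ cV) (h1 : 0 ≤ cL) (h2 : 0 ≤ cU) : 0 ≤ gC54 cV cL cU := by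
  unfold gC54
  linarith

/-- **THE COSTS OF THE LAST CHOICE** : `5 a` of the fresh ball and `xC54` of the closeness are one polynomial in `U`. -/
theorem cost54 {a A0 Af U c0 cUf cLf : ℝ} {p : ℕ} (ha : 0 ≤ a) (hU : 0 ≤ U) (h0 : c0 ≤ A0 * (1 + U) ^ p)
    (h1 : cUf ≤ Af * (1 + U) ^ p) (h2 : cLf ≤ Af * (1 + U) ^ p) (hA0 : 0 ≤ A0) (hAf : 0 ≤ Af) :
    5 * a ≤ (5 * a + 12 * Af + 4 * A0 + 2) * (1 + U) ^ p ∧ xC54 c0 cUf cLf ≤ (5 * a + 12 * Af + 4 * A0 + 2) * (1 + U) ^ p := by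
  have hq : 1 ≤ (1 + U) ^ p := one_le_pow₀ (by linarith)
  obtain ⟨q, hqd⟩ : ∃ q, q = (1 + U) ^ p := ⟨_, rfl⟩
  rw [← hqd] at h0 h1 h2 hq ⊢
  have e : (5 * a + 12 * Af + 4 * A0 + 2) * q = 5 * a * q + 12 * (Af * q) + 4 * (A0 * q) + 2 * q := by ring
  have ha5 : 5 * a ≤ 5 * a * q := le_mul_of_one_le_right (by linarith) hq
  have k1 : 0 ≤ Af * q := mul_nonneg hAf (by linarith)
  have k2 : 0 ≤ A0 * q := mul_nonneg hA0 (by linarith)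
  constructor
  · rw [e]
    linarith
  · unfold xC54 mC54
    rw [e]
    linarith

variable {μ : Measure ℝ} [IsProbabilityMeasure μ] {s : ℝ} {c₀ C₀ : ℝ} {n₀ : ℕ}

/-- Numbers with a free cross ratio. -/
theorem Nm54.setδ {n : ℕ} {a δ δ' e e1 e2 U L L0 V ef Uf Lf M : ℝ} (N : Nm54 n a δ' e e1 e2 U L L0 V ef Uf Lf M)
    (h : δ ≤ Real.exp (-(n : ℝ) ^ a)) : Nm54 n a δ e e1 e2 U L L0 V ef Uf Lf M := { N with dl := h }

/-- **The cross ratio of the buffers** : `B e^(-(T ^ c'))` with any exponent `c' > 0` at a scale `n ^ b ≤ D T`, once `a < b c'`. -/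
theorem dl54 {a b c' : ℝ} (ha : 0 < a) (hc : 0 < c') (hab : a < b * c') (B : ℝ) {D : ℝ} (hD : 0 < D) :
    ∀ᶠ n : ℕ in atTop, ∀ T : ℕ, (n : ℝ) ^ b ≤ D * T → B * Real.exp (-((T : ℝ) ^ c')) ≤ Real.exp (-(n : ℝ) ^ a) := by
  obtain ⟨B₁, hB₁⟩ : ∃ B₁, B₁ = |B| + 1 := ⟨_, rfl⟩
  have hB1 : 1 ≤ B₁ := by rw [hB₁]; have := abs_nonneg B; linarith
  have hBB : B ≤ B₁ := by rw [hB₁]; have := le_abs_self B; linarith
  filter_upwards [ev_le54 (D ^ c' * (1 + Real.log B₁)) hab, eventually_ge_atTop 1] with n h1 hn1 T hT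
  have n1 : (1 : ℝ) ≤ n := by exact_mod_cast hn1
  have n0 : (0 : ℝ) ≤ n := Nat.cast_nonneg n
  have lB : 0 ≤ Real.log B₁ := Real.log_nonneg hB1
  have hDc : 0 < D ^ c' := Real.rpow_pos_of_pos hD _
  have hna : 1 ≤ (n : ℝ) ^ a := Real.one_le_rpow n1 ha.le
  have h2 : (n : ℝ) ^ (b * c') ≤ D ^ c' * (T : ℝ) ^ c' := by
    rw [Real.rpow_mul n0, ← Real.mul_rpow hD.le (Nat.cast_nonneg T)]
    exact Real.rpow_le_rpow (Real.rpow_nonneg n0 _) hT hc.le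
  have h3 : (1 + Real.log B₁) * (n : ℝ) ^ a ≤ (T : ℝ) ^ c' := by
    have h4 : D ^ c' * ((1 + Real.log B₁) * (n : ℝ) ^ a) ≤ D ^ c' * (T : ℝ) ^ c' := by
      calc D ^ c' * ((1 + Real.log B₁) * (n : ℝ) ^ a) = D ^ c' * (1 + Real.log B₁) * (n : ℝ) ^ a := by ring
        _ ≤ (n : ℝ) ^ (b * c') := h1
        _ ≤ _ := h2
    exact le_of_mul_le_mul_left h4 hDc
  have h5 : Real.log B₁ ≤ Real.log B₁ * (n : ℝ) ^ a := le_mul_of_one_le_right lB hna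
  calc B * Real.exp (-((T : ℝ) ^ c')) ≤ B₁ * Real.exp (-((T : ℝ) ^ c')) := mul_le_mul_of_nonneg_right hBB (Real.exp_pos _).le
    _ = Real.exp (Real.log B₁ + -((T : ℝ) ^ c')) := by rw [Real.exp_add, Real.exp_log (by linarith)]
    _ ≤ _ := Real.exp_le_exp.2 (by linarith)

/-- **`suc9_of` WITH EVERY NUMBER DISCHARGED**, unit `EE (T_t)`; `e1`, `e2`, `V` from the outer scale `T_(t + m₂)`; the cross ratio `δ` is
measured by `n ^ a` with a free exponent `a` (it may be smaller than every power of the unit). -/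
theorem suc54 (hI : In μ s c₀ C₀ n₀) (hE9 : ∀ᶠ n : ℕ in atTop, (n : ℝ) ^ (1 / 9 : ℝ) ≤ EE μ s n) {e₀ e a : ℝ} (he₀ : 0 < e₀)
    (he : e ≤ 1 / 32) (ha : 0 < a) (hae : a ≤ e₀ / 72) {cU cL cVo c0 cUf cLf : ℝ} (hU0 : 0 ≤ cU) (hL0 : 0 ≤ cL) (hV0 : 0 ≤ cVo)
    (hUf0 : 0 ≤ cUf) (hLf0 : 0 ≤ cLf) {K : ℕ} (hK : 1 ≤ K) (m₂ : ℕ) :
    ∀ᶠ n : ℕ in atTop, ∀ (W : Lv9) (l h₀ : ℕ), 1 ≤ l → (n : ℝ) ^ (e₀ / 4) ≤ (Tg h₀ K l : ℕ) →
      ((Tg h₀ K l : ℕ) : ℝ) ≤ 2 * (n : ℝ) ^ e → ∀ (Γ : Cx) (z : ℕ × ℤ) (η : Env) (m0 : ℕ) (g₁ v δ e e1 e2 U L L0 V ef Uf Lf : ℝ),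
      W.T l ≤ z.1 →
      Lit9 Γ η (W.c0 l z) (W.n1 l) (W.D' l) (2 * W.T l) m0 (z.2 + W.al1 l) (z.2 + W.be1 l) (z.2 + W.al2 l) (z.2 + W.be2 l)
        δ e e1 e2 U L L0 V ef Uf Lf →
      δ ≤ Real.exp (-(n : ℝ) ^ a) →
      -- the inside, unit `EE (T_t)`
      e ≤ Real.exp (-(gC54 (cVo * (K : ℝ) ^ m₂) cL cU * EE μ s (Tg h₀ K l))) →
      U ≤ Real.exp (cU * EE μ s (Tg h₀ K l)) → L ≤ Real.exp (cL * EE μ s (Tg h₀ K l)) → L0 ≤ Real.exp (c0 * EE μ s (Tg h₀ K l)) →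
      ef ≤ Real.exp (-(fC54 cUf cLf * EE μ s (Tg h₀ K l))) → Uf ≤ Real.exp (cUf * EE μ s (Tg h₀ K l)) →
      Lf ≤ Real.exp (cLf * EE μ s (Tg h₀ K l)) →
      -- the outside, unit `EE (T_(t + m₂))`
      V ≤ Real.exp (cVo * EE μ s (Tg h₀ K (l + m₂))) → gC54 (cVo * (K : ℝ) ^ m₂) cL cU ≤ v →
      e1 ≤ Real.exp (-(v * EE μ s (Tg h₀ K (l + m₂)))) → e2 ≤ Real.exp (-(g₁ * EE μ s (Tg h₀ K (l + m₂)))) →
      xC54 c0 cUf cLf * EE μ s (Tg h₀ K l) + 8 ≤ g₁ * EE μ s (Tg h₀ K (l + m₂)) →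
      Suc9 Γ W n a m0 l z η := by
  have hm := mC54_pos hUf0 hLf0
  have hc : 0 ≤ cVo * (K : ℝ) ^ m₂ := by positivity
  have hg := gC54_nn hc hL0 hU0
  obtain ⟨cV, hcV⟩ : ∃ cV, cV = cVo * (K : ℝ) ^ m₂ := ⟨_, rfl⟩
  rw [← hcV] at hg ⊢
  filter_upwards [nmE54 (a := a) (a' := e₀ / 36) (gd := 1) (ge := gC54 cV cL cU) (g1 := gC54 cV cL cU) (g2 := xC54 c0 cUf cLf)
    (gf := fC54 cUf cLf) (cV := cV) (cL := cL) (cU := cU) (cLf := cLf) (cUf := cUf) (c0 := c0) (m := mC54 cUf cLf)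
    ha (by linarith) one_pos hm (by unfold gC54; linarith) (by unfold gC54; linarith) (by unfold fC54; linarith)
    (by unfold fC54; linarith) (by unfold xC54; linarith) (by unfold mC54; linarith), eeL54 hE9 he₀, eeU54 hI 1 he,
    eeU54 hI (cV + 2 * cL + cU) he, eventually_ge_atTop 1] with n k1 k2 k3 k4 hn1
  intro W l h₀ hl hT1 hT2 Γ z η m0 g₁ v δ e' e1 e2 U L L0 V ef Uf Lf hz H bd be' bU bL bL0 bef bUf bLf bV hv b10 b11 b12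
  have hnR : (1 : ℝ) ≤ n := by exact_mod_cast hn1
  obtain ⟨R, hR⟩ : ∃ R : ℕ, R = Tg h₀ K l := ⟨_, rfl⟩
  have bV' : V ≤ Real.exp (cV * EE μ s R) := by
    rw [hR, hcV]
    exact upE54 hI hK hl hV0 bV
  have b1' : e1 ≤ Real.exp (-(gC54 cV cL cU * EE μ s R)) := by
    rw [hR]
    refine (dnE54 hK (hg.trans hv) b10).trans (Real.exp_le_exp.2 ?_)
    have h1 := mul_le_mul_of_nonneg_right hv (zero_le_one.trans (one_le_EE (μ := μ) (s := s) (Tg h₀ K l)))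
    linarith
  have b2' : e2 ≤ Real.exp (-(xC54 c0 cUf cLf * EE μ s R)) := by
    rw [hR]
    exact b11.trans (Real.exp_le_exp.2 (by linarith))
  rw [← hR] at hT1 hT2 be' bU bL bL0 bef bUf bLf
  have E1 := k2 _ hT1
  have E2 := k3 _ hT2
  have E3 := k4 _ hT2
  rw [one_mul] at E2
  have E2' : EE μ s R ≤ (n : ℝ) ^ 2 := by
    refine E2.trans ?_
    rw [← Real.rpow_natCast]
    exact Real.rpow_le_rpow_of_exponent_le hnR (by norm_num)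
  have hf : 0 ≤ e' ∧ 0 ≤ e1 ∧ 0 ≤ e2 ∧ 1 ≤ U ∧ 1 ≤ L ∧ 1 ≤ L0 ∧ 1 ≤ V ∧ 0 ≤ ef ∧ 1 ≤ Uf ∧ 1 ≤ Lf := by
    obtain ⟨ne, nb, n3, m, kg, ng, kr, xa, xb, sx, da, db, ya, yb, za, zb, va, vb, xm, xn, d0, ph, p1, pe, p2, p3, ph', p1', pe', p2', p3',
      pg, pm, A0, A1, A2, A3, G0, Ag, Am, Ar, hD, K⟩ := H
    exact ⟨K.S.e0, K.he1, K.he2, K.S.U1, K.S.L1, K.S.L01, K.F.V1, K.S'.e0, K.S'.U1, K.S'.L1⟩
  obtain ⟨f1, f2, f3, f4, f5, f6, f7, f8, f9, f10⟩ := hf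
  have N := k1 _ E1 E2' 0 e' e1 e2 U L L0 V ef Uf Lf f1 f2 f3 (by linarith) (by linarith) (by linarith) (by linarith) f8 (by linarith)
    (by linarith) (Real.exp_pos _).le be' b1' b2' bU bL bL0 bV' bef bUf bLf
  refine ⟨hz, δ, e', e1, e2, U, L, L0, V, ef, Uf, Lf, _, N.setδ bd, ?_, H⟩
  have l1 : Real.log V ≤ cV * EE μ s R := (Real.log_le_iff_le_exp (by linarith)).2 bV'
  have l2 : Real.log L ≤ cL * EE μ s R := (Real.log_le_iff_le_exp (by linarith)).2 bL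
  have l3 : Real.log U ≤ cU * EE μ s R := (Real.log_le_iff_le_exp (by linarith)).2 bU
  have p1 : (n : ℝ) ^ (1 / 50 : ℝ) ≤ (n : ℝ) ^ (1 / 20 : ℝ) := Real.rpow_le_rpow_of_exponent_le hnR (by norm_num)
  linarith

end

end Pool.Agent.W_7d29a1_C1.H54
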