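import Pool.Agent.W_7d29a1_C1.ShlE8
import Pool.Agent.W_7d29a1_C1.FaD45
import Pool.Agent.W_7d29a1_C1.BasX24
import Pool.Agent.W_7d29a1_C1.NumX54

/-!
MP_7d29a1_pr, attractor route [C1], SHELL, SIDE F (helper45): **THE FOUR LEAVES OF SIDE F**, definitions only, each with its own
quantifiers: `LsB` (base sets of the first buffer), `LsS` (the outer half), `LsW` (the weight), `LsU` (the success);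
ShlF45: `frT_of45 : In ⇒ LsB ⇒ LsS ⇒ LsW ⇒ LsU ⇒ FrT8` (the exit sets = `basX24`, the last choice = `lastY54`, `cost54`).

Order: `ell K0` (lanes) | exit `P d U q` | `ρ e` | `K` | `B C₀` | `θ Kw` | tails | `χ` | `U₀ qx₀ Z m₀ kst` | costs `a`, `A0 Af p`, rates | `m₁ g U` |
flat costs, crossing `g` | `LnO` (cells, levels, ratios) | envelope `P`, then `Q S` | `w₁ w₁'` | `q₁` | `φ v` | walls `Kw gx G'`, `v₁`, `a₉` |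
`LnP` (window, blocks `Q`) | exit `G K` | levels of `V` | `w₂ q₂` | probabilities | `n`.
-/

set_option autoImplicit false

namespace Pool.Agent.W_7d29a1_C1.F45

open MeasureTheory ProbabilityTheory Filter Topology
open Pool.Agent.W_7d29a1_F Pool.Agent.W_7d29a1_h4g Pool.Agent.W_7d29a1_H Pool.Agent.W_7d29a1_HS
open Pool.Agent.W_7d29a1_C1 (On20)
open Pool.Agent.W_7d29a1_C1.T10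
open Pool.Agent.W_7d29a1_C1.S71 Pool.Agent.W_7d29a1_C1.Sw9
open Pool.Agent.W_7d29a1_C1.H60 Pool.Agent.W_7d29a1_C1.Lec17
open Pool.Agent.W_7d29a1_C1.H8
open Pool.Agent.W_7d29a1_C1.H54 (xC54)
open Pool.Agent.W_7d29a1_C1.D31 (NV31)
open Pool.Agent.W_7d29a1_C1.Fr47 (Bas47 Sb47 NS47 So47)
open Pool.Agent.W_7d29a1_C1.Lt9 (Lv9 W47 Suc9)
open Pool.Agent.W_7d29a1_C1.P24 (FXz24)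

noncomputable section

/-! ### The letters -/

/-- The constants of the grid. -/
structure Gr45 where
  R : ℝ
  B : ℕ
  C₀ : ℝ
  ρ : ℝ
  e : ℝ
  K : ℕ
  Z : ℕ
  m₂ : ℕ

/-- The radii of the scale `n`. -/
def gT45 (g : Gr45) (Q n : ℕ) : ℕ → ℕ := Tg (h8 Q (g.ρ * g.e) n) g.K

/-- The number of scales. -/
def gm45 (g : Gr45) (n : ℕ) : ℕ := m8 g.K g.e n / g.Z

/-- The middle column of a box. -/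
def cm45 (G : Gd) (j : ℕ) : ℤ := (G.V j : ℤ) / 2

/-- **THE COMMON TAIL OF THE QUANTIFIERS** : `c₂ δ κ`, the period `Q`, the threshold `n₁'`, `n`, the grid, the numbers of `V`. -/
def Tl45 (μ : Measure ℝ) (s : ℝ) (g : Gr45) (kv : KV8) (s₀ : ℝ) (X : ℝ → ℝ → ℝ → ℕ → ℕ → ℕ → Gd → NV31 → Prop) : Prop :=
  ∀ c₂ : ℝ, 0 < c₂ → c₂ ≤ s₀ → ∀ δ : ℝ, 0 < δ → δ ≤ c₂ / 16 → ∃ κ₀ : ℝ, 0 < κ₀ ∧ ∀ κ : ℝ, 0 < κ → κ ≤ κ₀ →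
    ∃ Q₀ : ℕ, 1 ≤ Q₀ ∧ ∀ Q : ℕ, Q₀ ∣ Q → 1 ≤ Q → ∀ n₁' : ℕ, 1 ≤ n₁' → ∀ᶠ n : ℕ in atTop, ∀ G : Gd,
      GW μ s g.R g.B g.C₀ (h8 Q (g.ρ * g.e) n) g.K (m8 g.K g.e n + g.m₂) G → ∀ ν : NV31, NB8 μ s (gT45 g Q n) g.m₂ kv ν →
        X c₂ δ κ Q n₁' n G ν

theorem Tl45.and {μ : Measure ℝ} {s : ℝ} {g : Gr45} {kv : KV8} {s₁ s₂ : ℝ} {X Y : ℝ → ℝ → ℝ → ℕ → ℕ → ℕ → Gd → NV31 → Prop}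
    (h1 : Tl45 μ s g kv s₁ X) (h2 : Tl45 μ s g kv s₂ Y) :
    Tl45 μ s g kv (min s₁ s₂) (fun c₂ δ κ Q n₁' n G ν => X c₂ δ κ Q n₁' n G ν ∧ Y c₂ δ κ Q n₁' n G ν) := by
  intro c₂ hc₂ hc δ hδ hδc
  obtain ⟨κ₁, hκ₁, h1⟩ := h1 c₂ hc₂ (hc.trans (min_le_left _ _)) δ hδ hδc
  obtain ⟨κ₂, hκ₂, h2⟩ := h2 c₂ hc₂ (hc.trans (min_le_right _ _)) δ hδ hδc
  refine ⟨min κ₁ κ₂, lt_min hκ₁ hκ₂, fun κ hκ hκκ => ?_⟩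
  obtain ⟨Q₁, hQ₁, h1⟩ := h1 κ hκ (hκκ.trans (min_le_left _ _))
  obtain ⟨Q₂, hQ₂, h2⟩ := h2 κ hκ (hκκ.trans (min_le_right _ _))
  refine ⟨Q₁ * Q₂, Nat.mul_pos hQ₁ hQ₂, fun Q hQQ hQ n₁' hn₁' => ?_⟩
  filter_upwards [h1 Q ((dvd_mul_right _ _).trans hQQ) hQ n₁' hn₁', h2 Q ((dvd_mul_left _ _).trans hQQ) hQ n₁' hn₁'] with n a1 a2
  exact fun G hG ν hν => ⟨a1 G hG ν hν, a2 G hG ν hν⟩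

/-- The tuning of the outer scale: the cost `x` of the inner scale is less than `η` times the outer unit. -/
def Tun45 (μ : Measure ℝ) (s : ℝ) (K m₂ : ℕ) (η x : ℝ) : Prop :=
  ∃ n₁ : ℕ, 1 ≤ n₁ ∧ ∀ h₀ t : ℕ, 1 ≤ t → n₁ ≤ Tg h₀ K t → x * EE μ s (Tg h₀ K t) + 8 ≤ η * EE μ s (Tg h₀ K (t + m₂))

/-- The slopes of the two scales. -/
def Rat45 (μ : Measure ℝ) (s : ℝ) (K m₂ : ℕ) (c c' : ℝ) : Prop :=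
  ∃ n₁ : ℕ, 1 ≤ n₁ ∧ ∀ h₀ t : ℕ, 1 ≤ t → n₁ ≤ Tg h₀ K t →
    c * (EE μ s (Tg h₀ K (t + m₂)) / wd μ s (Tg h₀ K (t + m₂))) ≤ c' * (EE μ s (Tg h₀ K t) / wd μ s (Tg h₀ K t))

/-- The constants of the exit (`basX24`), before its walls. -/
structure ExO where
  c' : ℝ
  P : ℕ
  d : ℝ
  U : ℝ
  q : ℝ

structure ExO.Ok (ρ₀ : ℝ) (x : ExO) : Prop where
  c' : 0 < x.c'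
  d0 : 0 < x.d
  d1 : x.d ≤ ρ₀
  d2 : x.d ≤ 1
  U : 0 ≤ x.U
  q : 0 ≤ x.q

/-- **`FX`** : what the exit set gives at the place `z`; slope `β = 1`, `R = 1`, `u = 1`. -/
def FX45 (μ : Measure ℝ) (s c : ℝ) (x : ExO) (GX KX : ℝ) (T : ℕ → ℕ) (cm : ℕ → ℤ) (j : ℕ) (z : Pt) (ζ : Env) : Prop :=
  FXz24 μ s c x.c' x.P x.d x.U 1 x.q GX KX 1 1 (T j) (z.1, z.2 + cm j) ζ

/-- The constants of `V` as side F knows them: rates, the constant of the trap, the widths, positivity. -/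
structure Kv45 (c₁ c₃ kst wm : ℝ) (kv : KV8) : Prop where
  c₁ : kv.c₁ = c₁
  c₃ : kv.c₃ = c₃
  g : kv.g = kst
  w0 : 0 < kv.w₁
  w1 : kv.w₁ + 1 ≤ kv.w₁'
  wm : wm ≤ kv.w₁'
  w2 : kv.w₁' ≤ kv.w₂
  q₁ : 0 < kv.q₁
  q₂ : 0 < kv.q₂
  Q : 0 < kv.Q
  S : 0 < kv.S
  gf : 0 < kv.gf
  u : 0 < kv.u

/-- The rows of the inside: `n1` = end of the typical rows, `(R₁ + RB) k`; `D'` = the last block of the exit; both relative to `c0`. -/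
def n145 (th : ℝ) (o : LnO) (Q : ℕ) (T : ℕ → ℕ) (l : ℕ) : ℕ := (R145 o Q + Q * o.j1) * kF th (R145 o Q) (T l)
def D45 (T : ℕ → ℕ) (l : ℕ) : ℕ := T l + (5 * (T l / 8) + 6 * (T l / 32)) - 1

/-! ### The four leaves -/

/-- The half of `Bas47` of the first buffer. -/
structure BAB45 (μ : Measure ℝ) [IsProbabilityMeasure μ] (T : ℕ → ℕ) (m : ℕ) (rA rB : ℕ → ℤ) (pA εB : ℝ) (FA FB : ℕ → Pt → Env → Prop)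
    (SA SB : ℕ → Set Env) : Prop where
  mA : ∀ j, MeasurableSet (SA j)
  mB : ∀ j, MeasurableSet (SB j)
  oA : ∀ j, 2 ≤ j → j < m → On20 (rows (-(T j : ℤ)) (rA j)) (SA j)
  oB : ∀ j, 2 ≤ j → j < m → On20 (rows (rA j) (rB j)) (SB j)
  pA : ∀ j, 2 ≤ j → j < m → pA ≤ (law μ).real (SA j)
  pB : ∀ j, 2 ≤ j → j < m → (law μ).real (SB j)ᶜ ≤ εB
  fA : ∀ j, 2 ≤ j → j < m → ∀ (z : Pt) (ζ : Env), sh z ζ ∈ SA j → FA j z ζ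
  fB : ∀ j, 2 ≤ j → j < m → ∀ (z : Pt) (ζ : Env), sh z ζ ∈ SA j → sh z ζ ∈ SB j → FB j z ζ

/-- **(B)** : `freC26` at every level (`eps = 1 / 8`). -/
def LsB (μ : Measure ℝ) [IsProbabilityMeasure μ] (s c : ℝ) : Prop :=
  ∃ ell K0 : ℝ, 0 ≤ ell ∧ 0 ≤ K0 ∧ ∀ d th : ℝ, 0 < d → d ≤ 1 → 0 < th → th ≤ 1 / 4 → ∀ g : ℝ, 0 ≤ g →
    ∃ o : LnO, o.Ok (lnI c d th K0) ∧ ∀ w : LnJ, w.Ok → ∃ (p : LnP) (pA : ℝ), p.Ok w ∧ 0 < pA ∧ ∃ n₁ : ℕ, 1 ≤ n₁ ∧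
      ∀ {R : ℝ} {B : ℕ} {C₀ : ℝ} {h₀ K L : ℕ} {G : Gd}, GW μ s R B C₀ h₀ K L G → n₁ ≤ h₀ → 8 ≤ K → 16 ≤ th * K → ∀ m : ℕ, m ≤ L →
        ∃ SA SB : ℕ → Set Env, BAB45 μ (Tg h₀ K) m (rA10 th (R145 o p.Q) (Tg h₀ K)) (rB10 th (R145 o p.Q) (p.Q * o.j1) (Tg h₀ K)) pA (1 / 8)
          (FA45 μ s c d th (lnI c d th K0) ell g o w p (Tg h₀ K) (cm45 G)) (FB45 μ s c d th (lnI c d th K0) ell g o w p (Tg h₀ K) (cm45 G))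
          SA SB

/-- **(S)** : `soA12`, `k5o60`, `soF7`. -/
def LsS (μ : Measure ℝ) [IsProbabilityMeasure μ] (s c c₁ c₃ : ℝ) : Prop :=
  ∃ (cc ck : ℝ) (PS : ℕ), 0 < cc ∧ 0 < ck ∧ ∀ (d R th K0 : ℝ), 0 < d → d ≤ 1 → 1 ≤ R → 0 < th → th ≤ 1 / 4 → 0 ≤ K0 →
    ∀ ρ e : ℝ, 0 < ρ → ρ ≤ 1 → 0 < e → e ≤ 1 / 32 → ∃ K₂ : ℕ, ∀ K : ℕ, K₂ ≤ K → 8 ≤ K → 16 ≤ th * K → ∀ (B : ℕ) (C₀ : ℝ), 2 ≤ B → 1 ≤ C₀ →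
    ∀ (Z m₀ : ℕ) (kst : ℝ), 1 ≤ Z → 1 ≤ m₀ → 0 < kst → ∃ M : ℕ, ∀ m₁ : ℕ, M ≤ m₁ → 1 ≤ m₁ →
    ∀ (o : LnO) (k : KE45), o.Ok (lnI c d th K0) → 1 ≤ k.P → PS ≤ k.P → 0 < k.c₁ → k.c₁ ≤ ck → 0 < k.c₃ → k.c₃ ≤ ck → 0 ≤ k.Q → 0 ≤ k.S →
    Rat45 μ s K (m₀ + m₁) cc k.c₃ →
    ∃ wS : ℝ, ∀ w₁ w₁' q₁ : ℝ, 0 < w₁ → w₁ + 1 ≤ w₁' → wS ≤ w₁' → 0 < q₁ → ∃ φ v v1S : ℝ, 0 ≤ φ ∧ 0 ≤ v ∧ 0 ≤ v1S ∧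
    ∀ (v₁ : ℝ) (Qp : ℕ), v1S ≤ v₁ → 1 ≤ Qp → ∃ (PV : ℕ) (QV SV gf u : ℝ), 0 < QV ∧ 0 < SV ∧ 0 < gf ∧ 0 < u ∧
    ∀ w₂ q₂ : ℝ, w₁' ≤ w₂ → 0 < q₂ → ∃ q0 q4 s₀ : ℝ, 0 < q0 ∧ 0 < q4 ∧ 0 < s₀ ∧
      Tl45 μ s ⟨R, B, C₀, ρ, e, K, Z, m₀ + m₁⟩ ⟨PV, c₁, c₃, QV, SV, w₁, w₁', w₂, kst, q₁, q₂, gf, u⟩ s₀
        fun c₂ δ κ Q _ n G ν => ∀ Γ : Cx, Adm μ s c₂ δ κ n Γ →
          SoP8 μ G (Tg (h8 Q (ρ * e) n) K) (m8 K e n / Z) (m₀ + m₁) (S8 e K n G Γ) (V8 μ s Γ ν u G)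
            (So47 Γ (sg45 μ s d th o Qp k (Tg (h8 Q (ρ * e) n) K) (cm45 G) (m₀ + m₁) φ v v₁ (kst / 8))) q0 q4

/-- **(W)** : `frU11` at one place. -/
def LsW (μ : Measure ℝ) [IsProbabilityMeasure μ] (s c c₁ c₃ : ℝ) : Prop :=
  ∀ (ell K0 : ℝ), 0 ≤ ell → 0 ≤ K0 → ∀ (d R th : ℝ) (P' : ℕ) (q' : ℝ), 0 < d → d ≤ 1 → 1 ≤ R → 0 < th → th ≤ 1 / 4 → 0 ≤ q' →
    ∀ x : ExO, x.Ok (d / 4) → ∀ ρ e : ℝ, 0 < ρ → ρ ≤ 1 → 0 < e → e ≤ 1 / 32 → ∃ K₂ : ℕ, ∀ K : ℕ, K₂ ≤ K → 8 ≤ K → 16 ≤ th * K →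
    ∀ (B : ℕ) (C₀ : ℝ), 2 ≤ B → 1 ≤ C₀ → ∀ (Z m₀ : ℕ) (kst : ℝ), 1 ≤ Z → 1 ≤ m₀ → 0 < kst →
    ∃ (a gW ck : ℝ) (M : ℕ), 0 ≤ a ∧ 0 < ck ∧ ∀ m₁ : ℕ, M ≤ m₁ → 1 ≤ m₁ → Tun45 μ s K (m₀ + m₁) (kst / 8) (5 * a) →
    ∀ g : ℝ, 0 ≤ g → gW ≤ g → ∀ o : LnO, o.Ok (lnI c d th K0) → ∃ PW : ℕ, ∀ P₀ : ℕ, PW ≤ P₀ → 1 ≤ P₀ → ∃ QW SW : ℝ,
    ∀ c₁₀ c₃₀ Q₀ S₀ : ℝ, 0 < c₁₀ → c₁₀ ≤ ck → 0 < c₃₀ → c₃₀ ≤ ck → 0 ≤ Q₀ → QW ≤ Q₀ → 0 ≤ S₀ → SW ≤ S₀ →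
    ∃ wW : ℝ, ∀ φ v : ℝ, 0 ≤ φ → 0 ≤ v → ∃ G'W GW v1W : ℝ, ∀ w : LnJ, w.Ok → G'W ≤ w.G' → ∀ p : LnP, p.Ok w →
    ∀ GX KX v₁ : ℝ, 0 ≤ GX → GW ≤ GX → 0 ≤ KX → 0 ≤ v₁ → v1W ≤ v₁ → ∀ kv : KV8, Kv45 c₁ c₃ kst wW kv → ∃ s₀ : ℝ, 0 < s₀ ∧
      Tl45 μ s ⟨R, B, C₀, ρ, e, K, Z, m₀ + m₁⟩ kv s₀ fun c₂ δ κ Q _ n G ν => ∀ Γ : Cx, Adm μ s c₂ δ κ n Γ →
        ∃ aa aB zB z' : ℕ → ℕ × ℤ → ℤ, WtP8 μ s c ⟨d, R, d / 2, th, 8, 1 / 2, 1, P', q', R145 o p.Q⟩ G (Tg (h8 Q (ρ * e) n) K)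
          (m8 K e n / Z) (m₀ + m₁) (S8 e K n G Γ) Γ (V8 μ s Γ ν kv.u G)
          (So47 Γ (sg45 μ s d th o p.Q ⟨P₀, c₁₀, c₃₀, Q₀, S₀⟩ (Tg (h8 Q (ρ * e) n) K) (cm45 G) (m₀ + m₁) φ v v₁ (kst / 8)))
          (FA45 μ s c d th (lnI c d th K0) ell g o w p (Tg (h8 Q (ρ * e) n) K) (cm45 G))
          (FB45 μ s c d th (lnI c d th K0) ell g o w p (Tg (h8 Q (ρ * e) n) K) (cm45 G))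
          (FX45 μ s c x GX KX (Tg (h8 Q (ρ * e) n) K) (cm45 G)) (fun _ => 1) (Tg (h8 Q (ρ * e) n) K) aa aB zB z' (1 / 4)

/-- The success from the facts. -/
def SucF45 (G : Gd) (L m n : ℕ) (S : Finset (ℕ × ℤ)) (Γ : Cx) (Lv : ℕ → ℕ × ℤ → Env → ℕ) (V So : ℕ → ℕ × ℤ → Set Env)
    (FA FB FX : ℕ → Pt → Env → Prop) (Sp : ℕ → ℕ × ℤ → Set Env) (W : Lv9) (a em : ℝ) : Prop :=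
  ∀ l, 2 ≤ l → l < m → ∀ c' ∈ S, ∀ η, η ∈ V l c' → η ∈ So l (G.z l c') → FA l (G.x l c') η → FB l (G.x l c') η → FX l (G.x l c') η →
    sh (G.x l c') η ∈ Sp l (G.z (l - 1) (G.rel l c')) → η ∉ Rch (lvL G Lv L) (l - 2) c' →
    Suc9 Γ W n a (⌈(n : ℝ) ^ em⌉₊ + 1) l (G.z l c') η

/-- **(U)** : the success (`lit_of_so`, `suc54`). Flat costs `c0`, `cUf`, `cLf` before the walls. -/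
def LsU (μ : Measure ℝ) [IsProbabilityMeasure μ] (s c c₁ c₃ : ℝ) : Prop :=
  ∀ (ell K0 : ℝ), 0 ≤ ell → 0 ≤ K0 → ∀ (d R th : ℝ), 0 < d → d ≤ 1 → 1 ≤ R → 0 < th → th ≤ 1 / 4 →
    ∀ x : ExO, x.Ok (d / 4) → ∀ ρ e : ℝ, 0 < ρ → ρ ≤ 1 → 0 < e → e ≤ 1 / 32 → ∃ K₂ : ℕ, ∀ K : ℕ, K₂ ≤ K → 8 ≤ K → 16 ≤ th * K →
    ∀ (B : ℕ) (C₀ : ℝ), 2 ≤ B → 1 ≤ C₀ → ∃ θ Kw : ℝ, 0 < θ ∧ θ ≤ 1 ∧ 0 < Kw ∧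
    ∀ (P : ℕ) (A' a₁ g₁ : ℝ) (n₁ : ℕ), 0 < A' → 0 < a₁ → 0 < g₁ → g₁ ≤ 1 → 1 ≤ n₁ → Tl8 μ s c θ Kw P A' a₁ g₁ n₁ →
    ∃ χ : ℝ, 0 < χ ∧ ∀ (U₀ qx : ℝ) (Z m₀ : ℕ) (kst : ℝ), 1 ≤ U₀ → 0 ≤ qx → 1 ≤ Z → 1 ≤ m₀ → 0 < kst →
    ∃ (A0 Af ck : ℝ) (pp M : ℕ), 0 ≤ A0 ∧ 0 ≤ Af ∧ 0 < ck ∧ ∀ (m₁ : ℕ) (U : ℝ), M ≤ m₁ → 1 ≤ m₁ → U₀ ≤ U → qx ≤ U →
    ∃ c0 cUf cLf gU : ℝ, 0 ≤ c0 ∧ 0 ≤ cUf ∧ 0 ≤ cLf ∧ c0 ≤ A0 * (1 + U) ^ pp ∧ cUf ≤ Af * (1 + U) ^ pp ∧ cLf ≤ Af * (1 + U) ^ pp ∧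
    (Tun45 μ s K (m₀ + m₁) (kst / 8) (xC54 c0 cUf cLf) →
    ∀ g : ℝ, 0 ≤ g → gU ≤ g → ∀ o : LnO, o.Ok (lnI c d th K0) → ∃ PU : ℕ, ∀ P₀ : ℕ, PU ≤ P₀ → 1 ≤ P₀ → ∃ QU SU : ℝ,
    ∀ c₁₀ c₃₀ Q₀ S₀ : ℝ, 0 < c₁₀ → c₁₀ ≤ ck → 0 < c₃₀ → c₃₀ ≤ ck → 0 ≤ Q₀ → QU ≤ Q₀ → 0 ≤ S₀ → SU ≤ S₀ →
    ∃ wU : ℝ, ∀ φ v : ℝ, 0 ≤ φ → 0 ≤ v → ∃ KwU gxU G'U v1U a₉ : ℝ, 0 < a₉ ∧ ∀ w : LnJ, w.Ok → KwU ≤ w.Kw → gxU ≤ w.gx →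
    G'U ≤ w.G' → ∀ p : LnP, p.Ok w → ∃ GU KU : ℝ, ∀ GX KX v₁ : ℝ, 0 ≤ GX → GU ≤ GX → 0 ≤ KX → KU ≤ KX → 0 ≤ v₁ → v1U ≤ v₁ →
    ∀ kv : KV8, Kv45 c₁ c₃ kst wU kv → ∃ s₀ : ℝ, 0 < s₀ ∧
      Tl45 μ s ⟨R, B, C₀, ρ, e, K, Z, m₀ + m₁⟩ kv s₀ fun c₂ δ κ Q _ n G ν => ∀ Γ : Cx, Adm μ s c₂ δ κ n Γ →
        SucF45 G (m8 K e n + (m₀ + m₁)) (m8 K e n / Z) n (S8 e K n G Γ) Γ (LvE (m8 K e n + (m₀ + m₁))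
          (EL60 μ s c θ Kw P (Tg (h8 Q (ρ * e) n) K) (yl8 U K χ))) (V8 μ s Γ ν kv.u G)
          (So47 Γ (sg45 μ s d th o p.Q ⟨P₀, c₁₀, c₃₀, Q₀, S₀⟩ (Tg (h8 Q (ρ * e) n) K) (cm45 G) (m₀ + m₁) φ v v₁ (kst / 8)))
          (FA45 μ s c d th (lnI c d th K0) ell g o w p (Tg (h8 Q (ρ * e) n) K) (cm45 G))
          (FB45 μ s c d th (lnI c d th K0) ell g o w p (Tg (h8 Q (ρ * e) n) K) (cm45 G))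
          (FX45 μ s c x GX KX (Tg (h8 Q (ρ * e) n) K) (cm45 G))
          (Sp10 μ s c θ Kw P (Tg (h8 Q (ρ * e) n) K) 2 (rA10 th (R145 o p.Q) (Tg (h8 Q (ρ * e) n) K)) (rE10 (Tg (h8 Q (ρ * e) n) K)) qx)
          (W47 (sg45 μ s d th o p.Q ⟨P₀, c₁₀, c₃₀, Q₀, S₀⟩ (Tg (h8 Q (ρ * e) n) K) (cm45 G) (m₀ + m₁) φ v v₁ (kst / 8))
            (n145 th o p.Q (Tg (h8 Q (ρ * e) n) K)) (D45 (Tg (h8 Q (ρ * e) n) K))) a₉ (ρ * e / 8))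

end

end Pool.Agent.W_7d29a1_C1.F45
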