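import Pool.Agent.W_7d29a1_C1.LsT7
import Pool.Agent.W_7d29a1_C1.ShlP45

/-!
MP_7d29a1_pr, [C1] SHELL, SIDE F: **THE LEAF (S) = `LsS`** (helper45's Prop in ShlP45) from `lsC7`. (helper7)

`TF7`, `rad7` : the radius of the cells, between `o.th / 16` and `2 o.th` widths.
-/

set_option autoImplicit false

namespace Pool.Agent.W_7d29a1_C1.N7

open MeasureTheory ProbabilityTheory Filter Topology Finset
open Pool.Agent.W_7d29a1_F Pool.Agent.W_7d29a1_h4g Pool.Agent.W_7d29a1_H Pool.Agent.W_7d29a1_HS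
open Pool.Agent.W_7d29a1_C1.T10
open Pool.Agent.W_7d29a1_C1.H60 (Cx Adm AT mem_AT)
open Pool.Agent.W_7d29a1_C1.D31 (NV31)
open Pool.Agent.W_7d29a1_C1.Fr47 (NS47 So47 V47)
open Pool.Agent.W_7d29a1_C1.H8
open Pool.Agent.W_7d29a1_C1.H77 (Tg_ge77)
open Pool.Agent.W_7d29a1_C1.F45

noncomputable section

/-- The lanes fill a fixed part of the radius. -/
theorem TF7 {th : ℝ} (h0 : 0 < th) (h1 : th ≤ 1 / 4) {i : LnI} {o : LnO} (ho : o.Ok i) {Q : ℕ} (hQ : 1 ≤ Q) {T : ℕ → ℕ} {j : ℕ}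
    (hT : 3 * R145 o Q ≤ T j) : 1 ≤ TF45 th o Q T j ∧ TF45 th o Q T j ≤ T j ∧ T j ≤ 4 * TF45 th o Q T j := by
  obtain ⟨R, hR⟩ : ∃ R : ℕ, R = R145 o Q := ⟨_, rfl⟩
  have R1 : 1 ≤ R := hR ▸ R145_pos ho hQ
  obtain ⟨k, hk⟩ : ∃ k : ℕ, k = kF th R (T j) := ⟨_, rfl⟩
  rw [← hR] at hT
  have eTF : TF45 th o Q T j = Q * (o.j1 * o.j2) * k := by
    unfold TF45 kk45
    rw [hk, hR]
  have RR : (1 : ℝ) ≤ R := by exact_mod_cast R1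
  have R0 : (0 : ℝ) < R := by linarith
  have T0 : (0 : ℝ) ≤ T j := Nat.cast_nonneg _
  have hTR : 3 * (R : ℝ) ≤ T j := by exact_mod_cast hT
  have y0 : 0 ≤ (1 - th / 4) * (T j : ℝ) / R := by
    have : 0 ≤ 1 - th / 4 := by linarith
    positivity
  have k1 : (k : ℝ) ≤ (1 - th / 4) * (T j : ℝ) / R := by rw [hk]; exact Nat.floor_le y0
  have k2 : (1 - th / 4) * (T j : ℝ) / R < k + 1 := by rw [hk]; exact Nat.lt_floor_add_one _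
  rw [le_div_iff₀ R0] at k1
  rw [div_lt_iff₀ R0] at k2
  have q1 : (1 - th / 4) * (T j : ℝ) ≤ T j := mul_le_of_le_one_left T0 (by linarith)
  have q2 : 15 / 16 * (T j : ℝ) ≤ (1 - th / 4) * (T j : ℝ) := mul_le_mul_of_nonneg_right (by linarith) T0
  have u1 : k * R ≤ T j := by
    have : (k : ℝ) * R ≤ T j := by linarith
    exact_mod_cast this
  have u2 : T j ≤ 2 * (k * R) := by
    have : (T j : ℝ) ≤ 2 * (k * R) := by nlinarith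
    exact_mod_cast this
  have v1 : Q * (o.j1 * o.j2) ≤ R := by
    rw [hR]
    unfold R145
    refine Nat.mul_le_mul_left _ ?_
    rw [mul_comm o.j1]
    exact Nat.mul_le_mul_left _ (Nat.le_add_left _ _)
  have v2 : R ≤ 2 * (Q * (o.j1 * o.j2)) := by
    rw [hR]
    unfold R145
    have h2 : o.j2 * (o.a + o.j1) ≤ o.j2 * (2 * o.j1) := Nat.mul_le_mul_left _ (by have := ho.aj; omega)
    calc Q * (o.j2 * (o.a + o.j1)) ≤ Q * (o.j2 * (2 * o.j1)) := Nat.mul_le_mul_left _ h2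
      _ = 2 * (Q * (o.j1 * o.j2)) := by ring
  have w1 : Q * (o.j1 * o.j2) * k ≤ k * R := by
    rw [mul_comm k R]
    exact Nat.mul_le_mul_right _ v1
  have w2 : k * R ≤ 2 * (Q * (o.j1 * o.j2) * k) := by
    calc k * R = R * k := mul_comm _ _
      _ ≤ 2 * (Q * (o.j1 * o.j2)) * k := Nat.mul_le_mul_right _ v2
      _ = _ := by ring
  rw [eTF]
  exact ⟨by omega, by omega, by omega⟩

variable {μ : Measure ℝ} [IsProbabilityMeasure μ] {s c C : ℝ} {n₀ : ℕ}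

/-- **The radius of the cells.** -/
theorem rad7 (h : In μ s c C n₀) {th : ℝ} (h0 : 0 < th) (h1 : th ≤ 1 / 4) {i : LnI} {o : LnO} (ho : o.Ok i) {Q : ℕ} (hQ : 1 ≤ Q)
    {T : ℕ → ℕ} {j : ℕ} (hT : 3 * R145 o Q ≤ T j) (hw : 16 / o.th ≤ wd μ s (T j)) :
    o.th / 16 * wd μ s (T j) ≤ (⌊o.th * wd μ s (TF45 th o Q T j)⌋₊ : ℝ) ∧
      (⌊o.th * wd μ s (TF45 th o Q T j)⌋₊ : ℝ) ≤ 2 * o.th * wd μ s (T j) := by
  obtain ⟨t1, t2, t3⟩ := TF7 h0 h1 ho hQ hT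
  have ho0 := ho.th0
  have w1 := U16.wd_le_two h t1 t2
  have w2 := U16.wd_le h t1 t2
  obtain ⟨F, hF⟩ : ∃ F : ℕ, F = TF45 th o Q T j := ⟨_, rfl⟩
  rw [← hF] at t1 t2 t3 w1 w2 ⊢
  have F0 : (0 : ℝ) < F := by exact_mod_cast t1
  have r4 : ((T j : ℕ) : ℝ) / F ≤ 4 := by
    rw [div_le_iff₀ F0]
    exact_mod_cast t3
  have wF := h.wd_nonneg F
  have w3 : wd μ s (T j) ≤ 8 * wd μ s F := by
    have := mul_le_mul_of_nonneg_right (show 2 * (((T j : ℕ) : ℝ) / F) ≤ 8 by linarith) wF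
    linarith
  rw [div_le_iff₀ ho0] at hw
  have y0 : 0 ≤ o.th * wd μ s F := by positivity
  have f1 := Nat.floor_le y0
  have f2 := Nat.lt_floor_add_one (o.th * wd μ s F)
  have z1 := mul_le_mul_of_nonneg_left w1 ho0.le
  have z2 := mul_le_mul_of_nonneg_left w3 ho0.le
  constructor <;> linarith

/-- **THE LEAF (S).** -/
theorem lsS7 (h0 : In μ s c C n₀) (hE9 : ∀ᶠ n : ℕ in atTop, (n : ℝ) ^ (1 / 9 : ℝ) ≤ EE μ s n) : LsS μ s c (c / 512) (c / 64) := by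
  have hc := h0.c0
  obtain ⟨PS, HS⟩ := lsC7 h0 hE9
  refine ⟨c / 32, 1, PS, by positivity, one_pos, ?_⟩
  intro d R th K0 hd hd1 hR hth hth4 hK0 ρ e hρ hρ1 he he1
  refine ⟨8, ?_⟩
  intro K _ hK8 hKth B C₀ hB hC₀ Z m₀ kst hZ hm₀ hkst
  obtain ⟨M, HM⟩ := HS hd hd1 hC₀ hkst hK8
  refine ⟨M, fun m₁ hM hm₁ o k ho hkP hPS hk1 _ hk3 _ hkQ hkS hRat => ?_⟩
  have hη : 0 < o.th / 16 := by
    have := ho.th0
    positivity
  have HN := HM (m₀ + m₁) (by omega) (by omega) k.P k.c₁ k.c₃ k.Q k.S (o.th / 16) hPS hkP hk3.le hkQ hkS hη hRat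
  refine ⟨C₀ + 6, fun w₁ w₁' q₁ hw₁ hw₁' hwS hq₁ => ?_⟩
  obtain ⟨φ, v, v1S, hφ, hv, hv1, HN⟩ := HN w₁ w₁' q₁ hw₁ (by linarith) hwS hq₁
  refine ⟨φ, v, v1S, hφ, hv, hv1, fun v₁ Qp hv₁ hQp => ?_⟩
  obtain ⟨QV, SV, gf, u, hQV, hSV, hgf, hu, HN⟩ := HN v₁ hv₁
  refine ⟨k.P, QV, SV, gf, u, hQV, hSV, hgf, hu, fun w₂ q₂ hw₂ hq₂ => ?_⟩
  obtain ⟨q0, hq0, Q₀, hQ₀, HN⟩ := HN w₂ q₂ hw₂ hq₂
  refine ⟨q0, 1 / 2, 1, hq0, by norm_num, one_pos, ?_⟩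
  intro c₂ hc₂ _ δ hδ _
  refine ⟨1, one_pos, fun κ hκ _ => ⟨Q₀, hQ₀, fun Q hQQ hQ n₁' _ => ?_⟩⟩
  obtain ⟨nW, hnW⟩ := eventually_atTop.1 ((wd_tendsto h0).eventually_ge_atTop (16 / o.th))
  obtain ⟨N₁, hN₁⟩ : ∃ N₁ : ℕ, N₁ = nW + 3 * R145 o Qp := ⟨_, rfl⟩
  have hρe : 0 < ρ * e := by positivity
  have hρe1 : ρ * e ≤ e := mul_le_of_le_one_left he.le hρ1
  have ev : ∀ᶠ n : ℕ in atTop, ((N₁ : ℕ) : ℝ) ≤ (n : ℝ) ^ (ρ * e / 4) :=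
    ((tendsto_rpow_atTop (by positivity)).comp tendsto_natCast_atTop_atTop).eventually_ge_atTop _
  filter_upwards [HN Q hQQ hQ (R := R) (c₂ := c₂) (κ := κ) (B := B) (Z := Z) hρ hρ1 he he1 hδ.le, ev,
    gridN8 (x := m₀ + m₁) he he1 hρe hρe1 (show 2 ≤ K by omega) hQ] with n HN hbig hg
  intro G g ν N Γ hA
  have hN₀ : N₁ ≤ h8 Q (ρ * e) n := by exact_mod_cast hbig.trans hg.h1
  refine HN G g ν N (cm45 G) (u45 μ s d (Tg (h8 Q (ρ * e) n) K) (cm45 G))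
    (fun j => ⌊o.th * wd μ s (TF45 th o Qp (Tg (h8 Q (ρ * e) n) K) j)⌋₊) (fun j hj hjm => ?_) Γ hA
  have hTj : N₁ ≤ Tg (h8 Q (ρ * e) n) K j := hN₀.trans (Tg_ge77 (by omega) (by omega))
  obtain ⟨r1, r2⟩ := rad7 h0 hth hth4 ho hQp (T := Tg (h8 Q (ρ * e) n) K) (j := j) (by omega) (hnW _ (by omega))
  refine ⟨rfl, fun b => rfl, r1, r2.trans ?_⟩
  have h1 := ho.th1
  have h2 : (lnI c d th K0).rD = d / 16 := rfl
  rw [h2] at h1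
  exact mul_le_mul_of_nonneg_right (by linarith) (h0.wd_nonneg _)

end

end Pool.Agent.W_7d29a1_C1.N7
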