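import Pool.Agent.W_7d29a1_C1.NumW54
import Pool.Agent.W_7d29a1_C1.JmpN67

/-!
Both halves (MP_7d29a1_pr), attractor route [C1]: THE LAST CHOICE WITH ITS SIDE CONDITIONS. (helper54)

`rate54` : the slope `EE / wd` of the outer scale is a small fraction of the slope of the inner scale. `lastY54` : `m₁`, `g`, `U` with
`M₁ ≤ m₁`, `U₀ ≤ U`, `C' (m₀ + m₁ + g) ^ pw ≤ U`, the rate and the tuning.
-/

set_option autoImplicit false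

namespace Pool.Agent.W_7d29a1_C1.H54

open MeasureTheory
open Pool.Agent.W_7d29a1_H Pool.Agent.W_7d29a1_HS
open Pool.Agent.W_7d29a1_C1.T10 (Tg Tg_lt)
open Pool.Agent.W_7d29a1_C1.U7

noncomputable section

variable {μ : Measure ℝ} [IsProbabilityMeasure μ] {s c C : ℝ} {n₀ h₀ K t m₂ : ℕ}

/-- **THE SLOPES OF TWO SCALES.** -/
theorem rate54 (h : In μ s c C n₀) (hK : 2 ≤ K) {ρ : ℝ} (hρ : 0 < ρ) : ∃ M n₁ : ℕ, 1 ≤ n₁ ∧ ∀ m : ℕ, M ≤ m → ∀ h₀ t : ℕ, 1 ≤ t →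
    n₁ ≤ Tg h₀ K t → EE μ s (Tg h₀ K (t + m)) / wd μ s (Tg h₀ K (t + m)) ≤ ρ * (EE μ s (Tg h₀ K t) / wd μ s (Tg h₀ K t)) := by
  obtain ⟨k, a, n₁, hk, ha, hn1, H⟩ := Pool.Agent.W_7d29a1_C1.wd_gain h
  have hK2 : (2 : ℝ) ≤ K := by exact_mod_cast hK
  have hq : 1 < (K : ℝ) ^ a := Real.one_lt_rpow (by linarith) ha
  obtain ⟨M, hM⟩ := pow_unbounded_of_one_lt (k / ρ) hq
  refine ⟨M, n₁, hn1, fun m hm h₀ t ht hT => ?_⟩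
  obtain ⟨T, hTd⟩ : ∃ T : ℕ, T = Tg h₀ K t := ⟨_, rfl⟩
  have e : Tg h₀ K (t + m) = T * K ^ m := by rw [hTd]; exact Tg_lt ht m
  rw [← hTd] at hT ⊢
  rw [e]
  have hT1 : 1 ≤ T := hn1.trans hT
  have hKm : 1 ≤ K ^ m := Nat.one_le_pow _ _ (by omega)
  have hTT : T ≤ T * K ^ m := Nat.le_mul_of_pos_right T hKm
  have h1 := H T (T * K ^ m) hT hTT
  have hTR : (0 : ℝ) < T := by exact_mod_cast hT1
  have e1 : (((T * K ^ m : ℕ) : ℝ) / T) = (K : ℝ) ^ m := by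
    push_cast
    field_simp
  rw [e1] at h1
  have wT := h.wd_pos hT1
  have wN := h.wd_pos (hT1.trans hTT)
  have hE := EE_pos (μ := μ) (s := s) T
  have hE' := EE_pos (μ := μ) (s := s) (T * K ^ m)
  have h2 : k / ρ ≤ ((K : ℝ) ^ m) ^ a := by
    calc k / ρ ≤ ((K : ℝ) ^ a) ^ M := hM.le
      _ ≤ ((K : ℝ) ^ a) ^ m := pow_le_pow_right₀ hq.le hm
      _ = ((K : ℝ) ^ m) ^ a := by
        rw [← Real.rpow_natCast, ← Real.rpow_natCast, ← Real.rpow_mul (by linarith), ← Real.rpow_mul (by linarith), mul_comm]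
  have h3 : k / ρ * (EE μ s (T * K ^ m) * wd μ s T) ≤ k * (EE μ s T * wd μ s (T * K ^ m)) :=
    (mul_le_mul_of_nonneg_right h2 (by positivity)).trans h1
  have h4 : EE μ s (T * K ^ m) * wd μ s T ≤ ρ * (EE μ s T * wd μ s (T * K ^ m)) := by
    have h5 := mul_le_mul_of_nonneg_left h3 (show 0 ≤ ρ / k by positivity)
    have e2 : ρ / k * (k / ρ * (EE μ s (T * K ^ m) * wd μ s T)) = EE μ s (T * K ^ m) * wd μ s T := by field_simp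
    have e3 : ρ / k * (k * (EE μ s T * wd μ s (T * K ^ m))) = ρ * (EE μ s T * wd μ s (T * K ^ m)) := by field_simp
    rwa [e2, e3] at h5
  rw [div_le_iff₀ wN, mul_assoc, div_mul_eq_mul_div, mul_div_assoc', le_div_iff₀ wT]
  linarith

/-- **THE LAST CHOICE.** Costs `x ≤ A (1 + U) ^ p` in the unit `EE (T_t)` or `EE (2 T_t)` against `η` in the unit `EE (T_(t + m₀ + m₁))`;
rate; `M₁ ≤ m₁`; `U₀ ≤ U`. -/
theorem lastY54 (h : In μ s c C n₀) (hK : 2 ≤ K) {A : ℝ} (hA : 0 ≤ A) (p : ℕ) {η : ℝ} (hη : 0 < η) {ρ : ℝ} (hρ : 0 < ρ) (m₀ M₁ : ℕ)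
    (U₀ : ℝ) {C' : ℝ} (hC : 1 ≤ C') (pw : ℕ) : ∃ (m₁ g : ℕ) (U : ℝ), M₁ ≤ m₁ ∧ 1 ≤ m₁ ∧ 1 ≤ g ∧ 1 ≤ U ∧ U₀ ≤ U ∧
      C' * ((m₀ + m₁ + g : ℕ) : ℝ) ^ pw ≤ U ∧ ∃ n₁ : ℕ, 1 ≤ n₁ ∧ ∀ h₀ t : ℕ, 1 ≤ t → n₁ ≤ Tg h₀ K t →
        EE μ s (Tg h₀ K (t + (m₀ + m₁))) / wd μ s (Tg h₀ K (t + (m₀ + m₁))) ≤ ρ * (EE μ s (Tg h₀ K t) / wd μ s (Tg h₀ K t)) ∧
        ∀ x : ℝ, 0 ≤ x → x ≤ A * (1 + U) ^ p →
          x * EE μ s (2 * Tg h₀ K t) + 8 ≤ η * EE μ s (Tg h₀ K (t + (m₀ + m₁))) ∧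
          x * EE μ s (Tg h₀ K t) + 8 ≤ η * EE μ s (Tg h₀ K (t + (m₀ + m₁))) := by
  obtain ⟨M₂, n₂, -, H₂⟩ := rate54 h hK hρ
  obtain ⟨m₁, g, U, h1, h2, h3, h4, h5, n₁, hn, H⟩ := last54 h hK hA p hη m₀ (max M₁ M₂) (hC.trans (le_max_left C' U₀)) pw
  have hx : 1 ≤ ((m₀ + m₁ + g : ℕ) : ℝ) ^ pw := one_le_pow₀ (by exact_mod_cast (by omega : 1 ≤ m₀ + m₁ + g))
  refine ⟨m₁, g, U, (le_max_left _ _).trans h1, h2, h3, h4, ?_, ?_, max n₁ n₂, hn.trans (le_max_left _ _), fun h₀ t ht hT => ?_⟩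
  · refine le_trans ?_ h5
    have h6 : max C' U₀ ≤ max C' U₀ * ((m₀ + m₁ + g : ℕ) : ℝ) ^ pw :=
      le_mul_of_one_le_right ((zero_le_one.trans hC).trans (le_max_left _ _)) hx
    exact (le_max_right _ _).trans h6
  · exact (mul_le_mul_of_nonneg_right (le_max_left _ _) (by positivity)).trans h5
  · exact ⟨H₂ _ (((le_max_right _ _).trans h1).trans (Nat.le_add_left _ _)) h₀ t ht ((le_max_right _ _).trans hT),
      fun x hx0 hx => H x hx0 hx h₀ t ht ((le_max_left _ _).trans hT)⟩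

end

end Pool.Agent.W_7d29a1_C1.H54
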