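import Pool.Agent.W_7d29a1_C1.SoR7
import Pool.Agent.W_7d29a1_C1.NumY54
import Pool.Agent.W_7d29a1_C1.K5o60
import Pool.Agent.W_7d29a1_C1.UniA16
import Pool.Agent.W_7d29a1_HL.Hsl

/-!
MP_7d29a1_pr, [C1] SHELL: THE NUMBERS OF (S). (helper58)

Scales `Ti = Tg h₀ K i` (inner ball), `To = Tg h₀ K (i + m)`, `m = m₀ + m₁`. `NS58` : the number hypotheses of `soF7`, `cf7`, `k5o60` about
`wd`, `EE` at the two scales. Order: `K, D, cc, c30 | M₁ | m ≥ M₁ | ρ | kst, c₂, c₄, sk, s₄, X, E₀ | n₁ | h₀, i`.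
-/

set_option autoImplicit false

namespace Pool.Agent.W_7d29a1_C1.Ge58

open MeasureTheory Finset Filter
open Pool.Agent.W_7d29a1_F Pool.Agent.W_7d29a1_h4g Pool.Agent.W_7d29a1_H Pool.Agent.W_7d29a1_HS
open Pool.Agent.W_7d29a1_C1
open Pool.Agent.W_7d29a1_C1.T10

noncomputable section

variable {μ : Measure ℝ} {s : ℝ}

/-- The numbers of the two scales. -/
structure NS58 (μ : Measure ℝ) (s D cc c30 ρ kst c₂ c₄ sk s₄ X E₀ : ℝ) (Ti To : ℕ) : Prop where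
  Ti1 : 1 ≤ Ti
  Tio : Ti ≤ To
  E1 : 1 ≤ EE μ s Ti
  Eio : EE μ s Ti ≤ EE μ s To
  E0 : E₀ ≤ EE μ s Ti
  w1 : 1 ≤ wd μ s Ti
  wio : wd μ s Ti ≤ wd μ s To
  Dw : D * wd μ s Ti ≤ wd μ s To
  ρw : wd μ s To ≤ ρ * wd μ s Ti
  rate : cc * (EE μ s To / wd μ s To) ≤ c30 * (EE μ s Ti / wd μ s Ti)
  kst : 16 / kst ≤ EE μ s To
  sum2 : ∀ (cen cen' : ℝ) (J : Finset ℤ) (x : ℤ), ∑ y ∈ J, Real.exp (-(c₂ * (EE μ s To / wd μ s To) * |((y : ℝ) - cen') - ((x : ℝ) - cen)|)) ≤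
    Real.exp (sk * EE μ s To)
  sum4 : ∀ (cen cen' : ℝ) (J : Finset ℤ) (x : ℤ), ∑ y ∈ J, Real.exp (-(c₄ * (EE μ s To / wd μ s To) * |((y : ℝ) - cen') - ((x : ℝ) - cen)|)) ≤
    Real.exp (s₄ * EE μ s To)
  Xi : 8 * (X * wd μ s Ti + 1) ≤ sl μ s * Ti ∧ 8 * (X * wd μ s Ti + 1) ≤ (1 - sl μ s) * Ti
  Xo : 8 * (X * wd μ s To + 1) ≤ sl μ s * To ∧ 8 * (X * wd μ s To + 1) ≤ (1 - sl μ s) * To

/-- Every multiple of the width of the inner scale, `M₁` from the multiple only. -/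
theorem wmul58 [IsProbabilityMeasure μ] {c C : ℝ} {n₀ : ℕ} (h : In μ s c C n₀) (D : ℝ) : ∃ J n₁ : ℕ, ∀ d m : ℕ, n₁ ≤ d → 2 ^ J * d ≤ m →
    D * wd μ s d ≤ wd μ s m := by
  obtain ⟨J, n₁, hJ⟩ := Pool.Agent.W_7d29a1_HL.hsl h D
  refine ⟨J, n₁, fun d m hd hm => ?_⟩
  have g1 := hJ m d hd hm
  have hdm : d ≤ m := le_trans (Nat.le_mul_of_pos_left d (Nat.two_pow_pos J)) hm
  have hE := EE_pos (μ := μ) (s := s) d
  have hEm := EE_pos (μ := μ) (s := s) m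
  have hEE : EE μ s d ≤ EE μ s m := EE_mono hdm
  have g2 : EE μ s m * (D * wd μ s d) ≤ EE μ s m * wd μ s m := by
    have := mul_le_mul_of_nonneg_right hEE (h.wd_nonneg m)
    linarith
  exact le_of_mul_le_mul_left g2 hEm

/-- **THE NUMBERS OF (S).** -/
theorem numS58 [IsProbabilityMeasure μ] {c C : ℝ} {n₀ : ℕ} (h : In μ s c C n₀) {K : ℕ} (hK : 2 ≤ K) (D : ℝ) {cc c30 : ℝ} (hcc : 0 < cc)
    (hc30 : 0 < c30) : ∃ M₁ : ℕ, ∀ m : ℕ, M₁ ≤ m → ∃ ρ : ℝ, 0 ≤ ρ ∧ ∀ (kst c₂ c₄ sk s₄ X E₀ : ℝ), 0 < c₂ → 0 < c₄ → 0 < sk → 0 < s₄ →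
      ∃ n₁ : ℕ, 1 ≤ n₁ ∧ ∀ h₀ i : ℕ, 1 ≤ i → n₁ ≤ Tg h₀ K i →
        NS58 μ s D cc c30 ρ kst c₂ c₄ sk s₄ X E₀ (Tg h₀ K i) (Tg h₀ K (i + m)) := by
  obtain ⟨MA, nA, hnA, HA⟩ := H54.rate54 (K := K) h hK (ρ := c30 / cc) (by positivity)
  obtain ⟨JB, nB, HB⟩ := wmul58 h D
  obtain ⟨JC, nC, HC⟩ := wmul58 h 1
  refine ⟨MA + JB + JC, fun m hm => ⟨2 * (K : ℝ) ^ m, by positivity, fun kst c₂ c₄ sk s₄ X E₀ hc₂ hc₄ hsk hs₄ => ?_⟩⟩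
  obtain ⟨nD, hnD, HD⟩ := H60.sum_en60 h hc₂ hsk
  obtain ⟨nE, hnE, HE⟩ := H60.sum_en60 h hc₄ hs₄
  obtain ⟨nF, hnF, HF⟩ := N7.wT7 h X
  obtain ⟨nG, HG⟩ := eventually_atTop.1 (h.tE.eventually_ge_atTop (max (16 / kst) E₀))
  obtain ⟨nH, HH⟩ := eventually_atTop.1 ((wd_tendsto h).eventually_ge_atTop 1)
  refine ⟨nA + nB + nC + nD + nE + nF + nG + nH + 1, by omega, fun h₀ i hi hT => ?_⟩
  obtain ⟨Ti, hTi⟩ : ∃ Ti : ℕ, Ti = Tg h₀ K i := ⟨_, rfl⟩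
  have eTo : Tg h₀ K (i + m) = Ti * K ^ m := by rw [hTi]; exact Tg_lt hi m
  rw [← hTi] at hT
  have hKm : 1 ≤ K ^ m := Nat.one_le_pow _ _ (by omega)
  have hTo : Ti ≤ Ti * K ^ m := Nat.le_mul_of_pos_right Ti hKm
  have p2 : ∀ J : ℕ, J ≤ m → 2 ^ J * Ti ≤ Ti * K ^ m := fun J hJ => by
    rw [mul_comm]
    exact Nat.mul_le_mul_left _ ((Nat.pow_le_pow_left hK J).trans (Nat.pow_le_pow_right (by omega) hJ))
  have hrate := HA m (by omega) h₀ i hi (by rw [← hTi]; omega)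
  rw [← hTi, eTo] at hrate
  have hTi1 : 1 ≤ Ti := by omega
  have hTR : (0 : ℝ) < Ti := by exact_mod_cast hTi1
  have g0 := HG Ti (by omega)
  have hE : EE μ s Ti ≤ EE μ s (Ti * K ^ m) := EE_mono hTo
  rw [eTo, ← hTi]
  refine ⟨hTi1, hTo, one_le_EE Ti, hE, (le_max_right _ _).trans g0, HH Ti (by omega), ?_, HB Ti _ (by omega) (p2 JB (by omega)), ?_, ?_,
    ((le_max_left _ _).trans g0).trans hE, HD _ (by omega), HE _ (by omega), HF Ti (by omega), HF _ (by omega)⟩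
  · have := HC Ti _ (by omega) (p2 JC (by omega))
    rwa [one_mul] at this
  · have h1 := U16.wd_le h hTi1 hTo
    have h2 : (((Ti * K ^ m : ℕ) : ℝ) / (Ti : ℝ)) = (K : ℝ) ^ m := by
      push_cast
      field_simp
    rw [h2] at h1
    exact h1
  · have h1 := mul_le_mul_of_nonneg_left hrate hcc.le
    have h2 : cc * (c30 / cc * (EE μ s Ti / wd μ s Ti)) = c30 * (EE μ s Ti / wd μ s Ti) := by
      field_simp
    linarith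

end

end Pool.Agent.W_7d29a1_C1.Ge58
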