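import Pool.Agent.W_7d29a1_C1.NumM17
import Pool.Agent.W_7d29a1_C1.VDef31
import Pool.Agent.W_7d29a1_C1.GeoI10

/-!
MP_7d29a1_pr, attractor route [C1], field `nu`: THE NUMBERS OF THE EVENT `V`. Scales `T v = Tg h₀ K v`, contact scale `u`, ball level
`o = u + m + 1`, shells `Wd l = K₁ wd (T (o + l))`, prices `η EE (T (u + (j - 1) / 2))`. (helper77)

`numA77`: the loss of the shell `j` against the price, `j ≥ l₂`. `numB77`: the stay. `gr_geo77`: levels over a geometric width.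
`numL77`: `loss31` of the shells `l₂ ≤ j < L`. `kst77`: the price of the early meetings in the unit of the ball.
-/

set_option autoImplicit false

namespace Pool.Agent.W_7d29a1_C1.H77

open MeasureTheory Finset Filter Topology
open Pool.Agent.W_7d29a1_F Pool.Agent.W_7d29a1_h4g Pool.Agent.W_7d29a1_H Pool.Agent.W_7d29a1_HS
open Pool.Agent.W_7d29a1_C1.FarK89 (gr AQ AQ_nonneg)
open Pool.Agent.W_7d29a1_C1.D31 (lev31 loss31)
open Pool.Agent.W_7d29a1_C1.T10 (Tg Tg_pos)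

noncomputable section

/-! ### Pure numbers -/

/-- **The loss of a shell against its price.** -/
theorem numA77 {Φ X c' : ℝ} (hΦ : 1 ≤ Φ) (hX : 4 * Φ ^ 2 ≤ X) (hc : 0 < c') (m : ℕ) (C1 A0 G : ℝ) (p : ℕ) : ∃ l₂ : ℕ, 2 * m + 3 ≤ l₂ ∧
    ∀ j : ℕ, l₂ ≤ j → C1 * (1 + (j : ℝ)) ^ p + A0 * Φ ^ (j + 1) + G ≤ c' * X ^ ((j - 1) / 2 - m) := by
  have hX0 : 0 < X := by nlinarith
  obtain ⟨j₀, hj₀⟩ := geo17 (show (1 : ℝ) < 2 by norm_num) ((|C1| + |A0| + |G|) * (4 * Φ ^ 3) * (X ^ m / c')) p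
  refine ⟨max j₀ (2 * m + 3), le_max_right _ _, fun j hj => ?_⟩
  have h1 := hj₀ j ((le_max_left _ _).trans hj)
  have h2 : 2 * m + 3 ≤ j := (le_max_right _ _).trans hj
  have hj0 : (0 : ℝ) ≤ j := Nat.cast_nonneg j
  have hp1 : 1 ≤ (1 + (j : ℝ)) ^ p := one_le_pow₀ (by linarith)
  have hf1 : 1 ≤ Φ ^ (j + 1) := one_le_pow₀ hΦ
  have hΦ0 : 0 < Φ := by linarith
  -- the left side
  have a1 : C1 * (1 + (j : ℝ)) ^ p + A0 * Φ ^ (j + 1) + G ≤ (|C1| + |A0| + |G|) * ((1 + (j : ℝ)) ^ p * Φ ^ (j + 1)) := by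
    have t1 : C1 * (1 + (j : ℝ)) ^ p ≤ |C1| * ((1 + (j : ℝ)) ^ p * Φ ^ (j + 1)) :=
      (mul_le_mul_of_nonneg_right (le_abs_self _) (by positivity)).trans
        (mul_le_mul_of_nonneg_left (le_mul_of_one_le_right (by positivity) hf1) (abs_nonneg _))
    have t2 : A0 * Φ ^ (j + 1) ≤ |A0| * ((1 + (j : ℝ)) ^ p * Φ ^ (j + 1)) :=
      (mul_le_mul_of_nonneg_right (le_abs_self _) (by positivity)).trans
        (mul_le_mul_of_nonneg_left (le_mul_of_one_le_left (by positivity) hp1) (abs_nonneg _))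
    have t3 : G ≤ |G| * ((1 + (j : ℝ)) ^ p * Φ ^ (j + 1)) :=
      (le_abs_self _).trans (le_mul_of_one_le_right (abs_nonneg _) (one_le_mul_of_one_le_of_one_le hp1 hf1))
    linarith
  -- the right side
  have a2 : (2 * Φ) ^ (j - 2) ≤ X ^ ((j - 1) / 2) := by
    calc (2 * Φ) ^ (j - 2) ≤ (2 * Φ) ^ (2 * ((j - 1) / 2)) := pow_le_pow_right₀ (by linarith) (by omega)
      _ = (4 * Φ ^ 2) ^ ((j - 1) / 2) := by
        rw [pow_mul]
        congr 1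
        ring
      _ ≤ X ^ ((j - 1) / 2) := pow_le_pow_left₀ (by positivity) hX _
  have a3 : X ^ ((j - 1) / 2) = X ^ ((j - 1) / 2 - m) * X ^ m := by
    rw [← pow_add]
    congr 1
    omega
  have a4 : (2 : ℝ) ^ j = 4 * 2 ^ (j - 2) := by
    have : j = (j - 2) + 2 := by omega
    conv_lhs => rw [this, pow_add]
    ring
  have a5 : Φ ^ (j + 1) = Φ ^ 3 * Φ ^ (j - 2) := by
    rw [← pow_add]
    congr 1
    omega
  refine a1.trans ?_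
  have h3 : (|C1| + |A0| + |G|) * ((1 + (j : ℝ)) ^ p * Φ ^ (j + 1)) * X ^ m ≤ c' * (2 * Φ) ^ (j - 2) := by
    rw [a5, mul_pow]
    have h4 : (|C1| + |A0| + |G|) * (4 * Φ ^ 3) * (X ^ m / c') * (1 + (j : ℝ)) ^ p ≤ 4 * 2 ^ (j - 2) := h1.trans a4.le
    have h5 : (|C1| + |A0| + |G|) * Φ ^ 3 * X ^ m * (1 + (j : ℝ)) ^ p ≤ c' * 2 ^ (j - 2) := by
      have h6 := mul_le_mul_of_nonneg_left h4 (show 0 ≤ c' / 4 by positivity)
      calc (|C1| + |A0| + |G|) * Φ ^ 3 * X ^ m * (1 + (j : ℝ)) ^ p =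
          c' / 4 * ((|C1| + |A0| + |G|) * (4 * Φ ^ 3) * (X ^ m / c') * (1 + (j : ℝ)) ^ p) := by
            field_simp
        _ ≤ _ := h6
        _ = _ := by ring
    calc (|C1| + |A0| + |G|) * ((1 + (j : ℝ)) ^ p * (Φ ^ 3 * Φ ^ (j - 2))) * X ^ m =
        ((|C1| + |A0| + |G|) * Φ ^ 3 * X ^ m * (1 + (j : ℝ)) ^ p) * Φ ^ (j - 2) := by ring
      _ ≤ c' * 2 ^ (j - 2) * Φ ^ (j - 2) := mul_le_mul_of_nonneg_right h5 (by positivity)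
      _ = _ := by ring
  have h4 : (|C1| + |A0| + |G|) * ((1 + (j : ℝ)) ^ p * Φ ^ (j + 1)) * X ^ m ≤ (c' * X ^ ((j - 1) / 2 - m)) * X ^ m := by
    refine h3.trans ?_
    calc c' * (2 * Φ) ^ (j - 2) ≤ c' * X ^ ((j - 1) / 2) := mul_le_mul_of_nonneg_left a2 hc.le
      _ = _ := by
        rw [a3]
        ring
  exact le_of_mul_le_mul_right h4 (by positivity)

/-- **The stay**: everything at most `C1 (1 + n) ^ p + A0 Φ ^ n + G` is beaten by `c' X ^ n`, `n ≥ m₀`. -/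
theorem numB77 {Φ X c' : ℝ} (hΦ : 1 ≤ Φ) (hX : 2 * Φ ≤ X) (hc : 0 < c') (C1 A0 G : ℝ) (p : ℕ) : ∃ m : ℕ,
    ∀ n : ℕ, m ≤ n → C1 * (1 + (n : ℝ)) ^ p + A0 * Φ ^ n + G ≤ c' * X ^ n := by
  obtain ⟨m, hm⟩ := geo17 (show (1 : ℝ) < 2 by norm_num) ((|C1| + |A0| + |G|) / c') p
  refine ⟨m, fun n hn => ?_⟩
  have h1 := hm n hn
  have hn0 : (0 : ℝ) ≤ n := Nat.cast_nonneg n
  have hp1 : 1 ≤ (1 + (n : ℝ)) ^ p := one_le_pow₀ (by linarith)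
  have hf1 : 1 ≤ Φ ^ n := one_le_pow₀ hΦ
  have hΦ0 : 0 < Φ := by linarith
  have a1 : C1 * (1 + (n : ℝ)) ^ p + A0 * Φ ^ n + G ≤ (|C1| + |A0| + |G|) * ((1 + (n : ℝ)) ^ p * Φ ^ n) := by
    have t1 : C1 * (1 + (n : ℝ)) ^ p ≤ |C1| * ((1 + (n : ℝ)) ^ p * Φ ^ n) :=
      (mul_le_mul_of_nonneg_right (le_abs_self _) (by positivity)).trans
        (mul_le_mul_of_nonneg_left (le_mul_of_one_le_right (by positivity) hf1) (abs_nonneg _))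
    have t2 : A0 * Φ ^ n ≤ |A0| * ((1 + (n : ℝ)) ^ p * Φ ^ n) :=
      (mul_le_mul_of_nonneg_right (le_abs_self _) (by positivity)).trans
        (mul_le_mul_of_nonneg_left (le_mul_of_one_le_left (by positivity) hp1) (abs_nonneg _))
    have t3 : G ≤ |G| * ((1 + (n : ℝ)) ^ p * Φ ^ n) :=
      (le_abs_self _).trans (le_mul_of_one_le_right (abs_nonneg _) (one_le_mul_of_one_le_of_one_le hp1 hf1))
    linarith
  refine a1.trans ?_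
  have h2 : (|C1| + |A0| + |G|) * (1 + (n : ℝ)) ^ p ≤ c' * 2 ^ n := by
    have h3 := mul_le_mul_of_nonneg_left h1 hc.le
    calc (|C1| + |A0| + |G|) * (1 + (n : ℝ)) ^ p = c' * ((|C1| + |A0| + |G|) / c' * (1 + (n : ℝ)) ^ p) := by
          field_simp
      _ ≤ _ := h3
  calc (|C1| + |A0| + |G|) * ((1 + (n : ℝ)) ^ p * Φ ^ n) = ((|C1| + |A0| + |G|) * (1 + (n : ℝ)) ^ p) * Φ ^ n := by ring
    _ ≤ c' * 2 ^ n * Φ ^ n := mul_le_mul_of_nonneg_right h2 (by positivity)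
    _ = c' * (2 * Φ) ^ n := by
      rw [mul_pow]
      ring
    _ ≤ c' * X ^ n := mul_le_mul_of_nonneg_left (pow_le_pow_left₀ (by positivity) hX n) hc.le

/-- **Levels over a geometric width.** -/
theorem gr_geo77 (P : ℕ) {A B K : ℝ} (hA : 0 ≤ A) (hB : 0 ≤ B) (hK : 1 ≤ K) : ∃ C : ℝ, 1 ≤ C ∧ ∀ (j : ℕ) (X : ℝ), 0 ≤ X →
    X ≤ A + B * K ^ j → gr P X ≤ C * (1 + (j : ℝ)) ^ P := by
  have hl : 0 ≤ Real.log (1 + A + B) := Real.log_nonneg (by linarith)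
  have hlK : 0 ≤ Real.log K := Real.log_nonneg hK
  refine ⟨(1 + Real.log (1 + A + B) + Real.log K) ^ P, one_le_pow₀ (by linarith), fun j X hX0 hX => ?_⟩
  have hj0 : (0 : ℝ) ≤ j := Nat.cast_nonneg j
  have hKj : 1 ≤ K ^ j := one_le_pow₀ hK
  unfold gr
  rw [← mul_pow]
  refine pow_le_pow_left₀ (by have := Real.log_nonneg (show (1 : ℝ) ≤ 1 + X by linarith); linarith) ?_ P
  have h1 : Real.log (1 + X) ≤ Real.log (1 + A + B) + j * Real.log K := by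
    rw [← Real.log_pow, ← Real.log_mul (by linarith) (by positivity)]
    refine Real.log_le_log (by linarith) ?_
    have : (1 + A) * 1 ≤ (1 + A) * K ^ j := mul_le_mul_of_nonneg_left hKj (by linarith)
    linarith [show (1 + A + B) * K ^ j = (1 + A) * K ^ j + B * K ^ j by ring]
  nlinarith

/-! ### The scales -/

theorem Tg_add77 {h₀ K v : ℕ} (hv : 1 ≤ v) (j : ℕ) : Tg h₀ K (v + j) = Tg h₀ K v * K ^ j := by
  rw [Tg_pos (by omega), Tg_pos hv, pow_add, mul_assoc (2 * h₀)]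

theorem Tg_ge77 {h₀ K v : ℕ} (hK : 1 ≤ K) (hv : 1 ≤ v) : h₀ ≤ Tg h₀ K v := by
  rw [Tg_pos hv]
  have h1 : 1 ≤ K ^ v := Nat.one_le_pow _ _ hK
  nlinarith

variable {μ : Measure ℝ} [IsProbabilityMeasure μ] {s c C : ℝ} {n₀ : ℕ}

/-- **The growth of the energies and of the widths** over the scales: `a` before `K`. -/
theorem grow77 (h0 : In μ s c C n₀) : ∃ a k : ℝ, 0 < a ∧ a < 1 ∧ 0 < k ∧ k ≤ 1 ∧ ∃ n₁ : ℕ, 1 ≤ n₁ ∧ ∀ K : ℕ, 1 ≤ K → ∀ h₀ : ℕ, n₁ ≤ h₀ →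
    ∀ v j : ℕ, 1 ≤ v →
      (k * ((K : ℝ) ^ a) ^ j * EE μ s (Tg h₀ K v) ≤ EE μ s (Tg h₀ K (v + j)) ∧
        k * EE μ s (Tg h₀ K (v + j)) ≤ (K : ℝ) ^ j * EE μ s (Tg h₀ K v)) ∧
      (k * ((K : ℝ) ^ a) ^ j * wd μ s (Tg h₀ K v) ≤ wd μ s (Tg h₀ K (v + j)) ∧
        k * wd μ s (Tg h₀ K (v + j)) ≤ (K : ℝ) ^ j * wd μ s (Tg h₀ K v)) := by
  obtain ⟨a, k, n₁, ha1, hE⟩ := grE17 h0
  obtain ⟨a', k', n₁', ha1', hW⟩ := grW17 h0
  have hk := hE.k0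
  have hk' := hW.k0
  refine ⟨min a a', min k k', lt_min hE.a0 hW.a0, (min_le_left _ _).trans_lt ha1, lt_min hk hk', (min_le_left _ _).trans hE.k1,
    max n₁ n₁', hE.n1.trans (le_max_left _ _), fun K hK h₀ hh v j hv => ?_⟩
  have hKR : (1 : ℝ) ≤ K := by exact_mod_cast hK
  have hK0 : (0 : ℝ) < K := by linarith
  have hT : h₀ ≤ Tg h₀ K v := Tg_ge77 hK hv
  have e1 : n₁ ≤ Tg h₀ K v := ((le_max_left _ _).trans hh).trans hT
  have e2 : n₁' ≤ Tg h₀ K v := ((le_max_right _ _).trans hh).trans hT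
  have pE := hE.pos _ e1
  have pW := hW.pos _ e2
  rw [Tg_add77 hv j]
  have q1 : (K : ℝ) ^ (min a a') ≤ (K : ℝ) ^ a := Real.rpow_le_rpow_of_exponent_le hKR (min_le_left _ _)
  have q2 : (K : ℝ) ^ (min a a') ≤ (K : ℝ) ^ a' := Real.rpow_le_rpow_of_exponent_le hKR (min_le_right _ _)
  have q0 : 0 ≤ (K : ℝ) ^ (min a a') := by positivity
  have r1 : (K : ℝ) ^ (1 / 2 : ℝ) ≤ K := by
    calc (K : ℝ) ^ (1 / 2 : ℝ) ≤ (K : ℝ) ^ (1 : ℝ) := Real.rpow_le_rpow_of_exponent_le hKR (by norm_num)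
      _ = K := Real.rpow_one _
  have r2 : (K : ℝ) ^ (1 - a') ≤ K := by
    calc (K : ℝ) ^ (1 - a') ≤ (K : ℝ) ^ (1 : ℝ) := Real.rpow_le_rpow_of_exponent_le hKR (by linarith [hW.a0])
      _ = K := Real.rpow_one _
  have hK1 : n₁ ≤ Tg h₀ K v * K ^ j := e1.trans (Nat.le_mul_of_pos_right _ (by positivity))
  have hK2 : n₁' ≤ Tg h₀ K v * K ^ j := e2.trans (Nat.le_mul_of_pos_right _ (by positivity))
  have pE2 := hE.pos _ hK1
  have pW2 := hW.pos _ hK2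
  refine ⟨⟨?_, ?_⟩, ?_, ?_⟩
  · refine le_trans (mul_le_mul_of_nonneg_right ?_ pE.le) (hE.lo_sc e1 hK j)
    exact mul_le_mul (min_le_left _ _) (pow_le_pow_left₀ q0 q1 j) (by positivity) hk.le
  · refine le_trans (mul_le_mul_of_nonneg_right (min_le_left k k') pE2.le) ((hE.up_sc e1 hK j).trans ?_)
    exact mul_le_mul_of_nonneg_right (pow_le_pow_left₀ (by positivity) r1 j) pE.le
  · refine le_trans (mul_le_mul_of_nonneg_right ?_ pW.le) (hW.lo_sc e2 hK j)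
    exact mul_le_mul (min_le_right _ _) (pow_le_pow_left₀ q0 q2 j) (by positivity) hk'.le
  · refine le_trans (mul_le_mul_of_nonneg_right (min_le_right k k') pW2.le) ((hW.up_sc e2 hK j).trans ?_)
    exact mul_le_mul_of_nonneg_right (pow_le_pow_left₀ (by positivity) r2 j) pW.le

/-- **THE LOSSES OF THE SHELLS `l₂ ≤ j < L`.** `m` = `k.m0 + x`, ball level `o = u + m + 1`. -/
theorem numL77 (h0 : In μ s c C n₀) {Φ : ℝ} (hΦ : 1 ≤ Φ) : ∃ K₁ : ℕ, 2 ≤ K₁ ∧ ∀ K : ℕ, K₁ ≤ K → ∀ (P pa m : ℕ) (c₁ Q S W A A3 Qa η G : ℝ),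
    0 < c₁ → 0 ≤ Q → 0 ≤ S → 0 < W → 0 < η → ∃ l₂ : ℕ, 2 * m + 5 ≤ l₂ ∧ ∃ n₁ : ℕ, 1 ≤ n₁ ∧ ∀ h₀ : ℕ, n₁ ≤ h₀ → ∀ u : ℕ, 1 ≤ u →
      ∀ (Wd r a : ℕ → ℝ) (R σ aT : ℝ) (L : ℕ),
      (∀ l, l ≤ L → Wd l = W * wd μ s (Tg h₀ K (u + m + 1 + l))) →
      (∀ l, l < L → r l ≤ (A * Φ ^ (l + 1) + A3) * EE μ s (Tg h₀ K (u + m + 1))) →
      (∀ l, l < L → a l ≤ Qa * (1 + (l : ℝ)) ^ pa * EE μ s (Tg h₀ K (u + m + 1))) → σ ≤ EE μ s (Tg h₀ K (u + m + 1)) →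
      ∀ j, l₂ ≤ j → j < L →
        loss31 P c₁ Q S (EE μ s (Tg h₀ K (u + m + 1))) (wd μ s (Tg h₀ K (u + m + 1))) Wd L R σ aT r a j +
          G * EE μ s (Tg h₀ K (u + m + 1)) ≤ η * EE μ s (Tg h₀ K (u + (j - 1) / 2)) := by
  obtain ⟨a₀, k, ha₀, ha1, hk, hk1, n₁, hn₁, HG⟩ := grow77 h0
  obtain ⟨K₁, hK₁⟩ := exists_nat_ge ((4 * Φ ^ 2) ^ (1 / a₀))
  refine ⟨max K₁ 2, le_max_right _ _, fun K hK P pa m c₁ Q S W A A3 Qa η G hc₁ hQ hS hW hη => ?_⟩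
  have hK2 : 2 ≤ K := (le_max_right _ _).trans hK
  have hKR : (1 : ℝ) ≤ K := by exact_mod_cast (by omega : 1 ≤ K)
  have hX : 4 * Φ ^ 2 ≤ (K : ℝ) ^ a₀ := by
    have h1 : (4 * Φ ^ 2) ^ (1 / a₀) ≤ (K : ℝ) := hK₁.trans (by exact_mod_cast (le_max_left _ _).trans hK)
    calc 4 * Φ ^ 2 = ((4 * Φ ^ 2) ^ (1 / a₀)) ^ a₀ := by
          rw [← Real.rpow_mul (by positivity), one_div_mul_cancel ha₀.ne', Real.rpow_one]
      _ ≤ (K : ℝ) ^ a₀ := Real.rpow_le_rpow (by positivity) h1 ha₀.le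
  obtain ⟨Cg, hCg, Hg⟩ := gr_geo77 P (A := AQ P c₁ Q) (B := W * (K : ℝ) / k) (K := (K : ℝ)) (AQ_nonneg _ _ _) (by positivity) hKR
  -- one polynomial
  obtain ⟨l₂, hl₂, H⟩ := numA77 hΦ hX (show 0 < η * k by positivity) (m + 1) (|Q * Cg| + |Qa|) A (S + A3 + 1 + G) (P + pa)
  refine ⟨max l₂ (2 * m + 5), le_max_right _ _, n₁, hn₁, fun h₀ hh u hu Wd r a R σ aT L hWd hr ha hσ j hj hjL => ?_⟩
  have hj2 : l₂ ≤ j := (le_max_left _ _).trans hj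
  have hjm : 2 * m + 5 ≤ j := (le_max_right _ _).trans hj
  have h1 := H j hj2
  obtain ⟨E, hE⟩ : ∃ E, E = EE μ s (Tg h₀ K (u + m + 1)) := ⟨_, rfl⟩
  obtain ⟨w, hw⟩ : ∃ w, w = wd μ s (Tg h₀ K (u + m + 1)) := ⟨_, rfl⟩
  have hE0 : 0 < E := hE ▸ EE_pos _
  have hT1 : 1 ≤ Tg h₀ K (u + m + 1) := (hn₁.trans hh).trans (Tg_ge77 (by omega) (by omega))
  have hw0 : 0 < w := hw ▸ h0.wd_pos hT1
  rw [← hE, ← hw]
  rw [← hE] at hr ha hσ
  have hj0 : (0 : ℝ) ≤ j := Nat.cast_nonneg j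
  -- the level
  have h2 : Wd (j + 1) / w ≤ W * (K : ℝ) / k * (K : ℝ) ^ j := by
    rw [hWd (j + 1) (by omega), div_le_iff₀ hw0]
    have h3 := (HG K (by omega) h₀ hh (u + m + 1) (j + 1) (by omega)).2.2
    rw [← hw] at h3
    rw [← mul_le_mul_iff_right₀ hk]
    calc k * (W * wd μ s (Tg h₀ K (u + m + 1 + (j + 1)))) = W * (k * wd μ s (Tg h₀ K (u + m + 1 + (j + 1)))) := by ring
      _ ≤ W * ((K : ℝ) ^ (j + 1) * w) := mul_le_mul_of_nonneg_left h3 hW.le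
      _ = _ := by
        field_simp
        ring
  have hWn : 0 ≤ Wd (j + 1) / w := by
    rw [hWd (j + 1) (by omega)]
    have hT2 : 1 ≤ Tg h₀ K (u + m + 1 + (j + 1)) := (hn₁.trans hh).trans (Tg_ge77 (by omega) (by omega))
    have := h0.wd_pos hT2
    positivity
  have h3 : gr P (AQ P c₁ Q + Wd (j + 1) / w) ≤ Cg * (1 + (j : ℝ)) ^ P :=
    Hg j _ (add_nonneg (AQ_nonneg _ _ _) hWn) (by linarith)
  have h4 : lev31 P c₁ Q S E w (Wd (j + 1)) ≤ (Q * Cg * (1 + (j : ℝ)) ^ P + S) * E := by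
    unfold lev31
    refine mul_le_mul_of_nonneg_right ?_ hE0.le
    have := mul_le_mul_of_nonneg_left h3 hQ
    linarith
  have h5 : loss31 P c₁ Q S E w Wd L R σ aT r a j ≤ (Q * Cg * (1 + (j : ℝ)) ^ P + S) * E + ((A * Φ ^ (j + 1) + A3) * E + E) +
      Qa * (1 + (j : ℝ)) ^ pa * E := by
    unfold loss31
    rw [if_pos hjL]
    have := hr j hjL
    have := ha j hjL
    linarith
  -- the polynomial
  have p1 : Q * Cg * (1 + (j : ℝ)) ^ P ≤ |Q * Cg| * (1 + (j : ℝ)) ^ (P + pa) :=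
    (mul_le_mul_of_nonneg_right (le_abs_self _) (by positivity)).trans
      (mul_le_mul_of_nonneg_left (pow_le_pow_right₀ (by linarith) (by omega)) (abs_nonneg _))
  have p2 : Qa * (1 + (j : ℝ)) ^ pa ≤ |Qa| * (1 + (j : ℝ)) ^ (P + pa) :=
    (mul_le_mul_of_nonneg_right (le_abs_self _) (by positivity)).trans
      (mul_le_mul_of_nonneg_left (pow_le_pow_right₀ (by linarith) (by omega)) (abs_nonneg _))
  have h6 : loss31 P c₁ Q S E w Wd L R σ aT r a j + G * E ≤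
      ((|Q * Cg| + |Qa|) * (1 + (j : ℝ)) ^ (P + pa) + A * Φ ^ (j + 1) + (S + A3 + 1 + G)) * E := by
    refine (add_le_add h5 le_rfl).trans ?_
    have q1 := mul_le_mul_of_nonneg_right p1 hE0.le
    have q2 := mul_le_mul_of_nonneg_right p2 hE0.le
    nlinarith
  refine h6.trans ((mul_le_mul_of_nonneg_right h1 hE0.le).trans ?_)
  have h7 := (HG K (by omega) h₀ hh (u + m + 1) ((j - 1) / 2 - (m + 1)) (by omega)).1.1
  rw [← hE, show u + m + 1 + ((j - 1) / 2 - (m + 1)) = u + (j - 1) / 2 by omega] at h7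
  calc η * k * ((K : ℝ) ^ a₀) ^ ((j - 1) / 2 - (m + 1)) * E = η * (k * ((K : ℝ) ^ a₀) ^ ((j - 1) / 2 - (m + 1)) * E) := by ring
    _ ≤ _ := mul_le_mul_of_nonneg_left h7 hη.le

/-- **The price of the early meetings** in the unit of the ball. -/
theorem kst77 (h0 : In μ s c C n₀) (K m : ℕ) (hK : 1 ≤ K) {η : ℝ} (hη : 0 < η) : ∃ kst : ℝ, 0 < kst ∧ ∃ n₁ : ℕ, 1 ≤ n₁ ∧
    ∀ h₀ : ℕ, n₁ ≤ h₀ → ∀ u : ℕ, 1 ≤ u → kst * EE μ s (Tg h₀ K (u + m + 1)) ≤ η * EE μ s (Tg h₀ K u) := by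
  obtain ⟨a₀, k, ha₀, ha1, hk, hk1, n₁, hn₁, HG⟩ := grow77 h0
  have hKR : (1 : ℝ) ≤ K := by exact_mod_cast hK
  have hK0 : (0 : ℝ) < K := by linarith
  refine ⟨η * k / (K : ℝ) ^ (m + 1), by positivity, n₁, hn₁, fun h₀ hh u hu => ?_⟩
  have h1 := (HG K hK h₀ hh u (m + 1) hu).1.2
  rw [show u + (m + 1) = u + m + 1 by omega] at h1
  rw [div_mul_eq_mul_div, div_le_iff₀ (by positivity)]
  calc η * k * EE μ s (Tg h₀ K (u + m + 1)) = η * (k * EE μ s (Tg h₀ K (u + m + 1))) := by ring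
    _ ≤ η * ((K : ℝ) ^ (m + 1) * EE μ s (Tg h₀ K u)) := mul_le_mul_of_nonneg_left h1 hη.le
    _ = _ := by ring

end

end Pool.Agent.W_7d29a1_C1.H77
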