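import Pool.Agent.W_7d29a1_C1.SoP7
import Pool.Agent.W_7d29a1_C1.NumS58
import Pool.Agent.W_7d29a1_C1.NumV77
import Pool.Agent.W_7d29a1_C1.SgN8
import Pool.Agent.W_7d29a1_C1.CtxM68

/-!
MP_7d29a1_pr, [C1] SHELL, fresh ball: **(S) IN THE LETTERS OF `sg8`**. (helper7, over `so7`, `cf7`, `rows7`, helper58's `numS58`)

`colU7`, `sgU7` : the columns and the numbers of `sg8`. `lsC7` : `SoP8` for every scale, with the order of the constants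
`PS` | `d C₀ kst K` | `M` | `m₂` | the envelope `P ck ce Qe Se`, `η` | `w₁ w₁' q₁` | `φ v v1S` | `v₁` | `QV SV gf u` | `w₂ q₂` | `q0`, the period | `n`.
-/

set_option autoImplicit false

namespace Pool.Agent.W_7d29a1_C1.N7

open MeasureTheory ProbabilityTheory Filter Topology Finset
open Pool.Agent.W_7d29a1_F Pool.Agent.W_7d29a1_h4g Pool.Agent.W_7d29a1_H Pool.Agent.W_7d29a1_HS
open Pool.Agent.W_7d29a1_C1 (On20)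
open Pool.Agent.W_7d29a1_C1.K91 (wt)
open Pool.Agent.W_7d29a1_C1.K91P (fw)
open Pool.Agent.W_7d29a1_C1.T10
open Pool.Agent.W_7d29a1_C1.U16 (lat16)
open Pool.Agent.W_7d29a1_C1.FarK89 (gr AQ AQ_nonneg gr_nonneg)
open Pool.Agent.W_7d29a1_C1.H60 (Cx Adm AT mem_AT tilt87)
open Pool.Agent.W_7d29a1_C1.D31 (NV31 En31 LP95 yp95 kap31)
open Pool.Agent.W_7d29a1_C1.Fr47 (NS47 So47 V47)
open Pool.Agent.W_7d29a1_C1.H8
open Pool.Agent.W_7d29a1_C1.So74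
open Pool.Agent.W_7d29a1_C1.S12 (Ln Cf12)
open Pool.Agent.W_7d29a1_C1.Ge58 (numS58 NS58 T_lt58)
open Pool.Agent.W_7d29a1_C1.H77 (Tg_ge77)

noncomputable section

section Cols

variable {μ : Measure ℝ} {s : ℝ} {T : ℕ → ℕ} {cm : ℕ → ℤ} {u : ℕ → Bool → ℤ} {rad : ℕ → ℕ} {m₂ P : ℕ}
  {ck ce Qe Se φO vO v₁ g₂ d C₀ : ℝ} {j : ℕ}

/-- **The columns of `sg8`.** -/
theorem colU7 (hu : ∀ i, u j i = uc8 μ s d (wd μ s (T j)) (cm j) (1 - (T j : ℤ)) i) (hd : 0 < d) (hd1 : d ≤ 1)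
    (hw : 8 ≤ d * wd μ s (T j)) (hr : (rad j : ℝ) ≤ d / 8 * wd μ s (T j)) (hC : 1 ≤ C₀) (c0 : 0 ≤ cm j)
    (c1 : (cm j : ℝ) ≤ C₀ / 2 * wd μ s (T j)) :
    Col7 μ s (sg8 μ s T cm u rad m₂ P ck ce Qe Se φO vO v₁ g₂) j (C₀ + 3) (wd μ s (T j)) := by
  obtain ⟨w, hw'⟩ : ∃ w : ℝ, w = wd μ s (T j) := ⟨_, rfl⟩
  have n1 := uc8_near (μ := μ) (s := s) d (wd μ s (T j)) (cm j) (1 - (T j : ℤ)) false
  have n2 := uc8_near (μ := μ) (s := s) d (wd μ s (T j)) (cm j) (1 - (T j : ℤ)) true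
  rw [← hu] at n1 n2
  simp only [Bool.false_eq_true, if_false, if_true] at n1 n2
  push_cast at n1 n2
  rw [abs_le] at n1 n2
  have f1 := Int.floor_le (sl μ s * ((T j : ℝ) + 1))
  have f2 := Int.lt_floor_add_one (sl μ s * ((T j : ℝ) + 1))
  have f3 := Int.floor_le (wd μ s (T j) / 64)
  rw [← hw'] at n1 n2 hw hr c1 f3 ⊢
  have w0 : 0 < w := by
    by_contra h
    have := mul_nonpos_of_nonneg_of_nonpos hd.le (not_lt.1 h)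
    linarith
  have dw : d * w ≤ w := mul_le_of_le_one_left w0.le hd1
  have Cw : w ≤ C₀ * w := le_mul_of_one_le_left w0.le hC
  have r0 : (0 : ℝ) ≤ rad j := Nat.cast_nonneg _
  have c0' : (0 : ℝ) ≤ cm j := by exact_mod_cast c0
  have r0' : (0 : ℤ) ≤ rad j := Int.natCast_nonneg _
  refine ⟨?_, ?_, ?_, ?_, ?_, ?_, ?_, ?_⟩
  · show u j false - (rad j : ℤ) ≤ u j false + (rad j : ℤ)
    omega
  · show u j false + (rad j : ℤ) < u j true - (rad j : ℤ)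
    have h1 : (u j false : ℝ) + (rad j : ℝ) < u j true - (rad j : ℝ) := by linarith [n1.2, n2.1]
    exact_mod_cast h1
  · show u j true - (rad j : ℤ) ≤ u j true + (rad j : ℤ)
    omega
  · show -((C₀ + 3) * w) ≤ ((u j false - (rad j : ℤ) : ℤ) : ℝ) - sl μ s * (1 - (T j : ℝ))
    push_cast
    linarith [n1.1]
  · show ((u j true + (rad j : ℤ) : ℤ) : ℝ) - sl μ s * (1 - (T j : ℝ)) ≤ (C₀ + 3) * w
    push_cast
    linarith [n2.2]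
  · show |((cm j + ⌊sl μ s * ((T j : ℝ) + 1)⌋ : ℤ) : ℝ) - sl μ s * (1 + (T j : ℝ))| ≤ (C₀ + 3) * w
    push_cast
    rw [abs_le]
    constructor <;> linarith
  · show -((C₀ + 3) * w) ≤ ((cm j + ⌊sl μ s * ((T j : ℝ) + 1)⌋ - (⌊wd μ s (T j) / 64⌋ + 1) : ℤ) : ℝ) - sl μ s * (1 + (T j : ℝ))
    rw [← hw']
    push_cast
    linarith
  · show ((cm j + ⌊sl μ s * ((T j : ℝ) + 1)⌋ + (⌊wd μ s (T j) / 64⌋ + 1) : ℤ) : ℝ) - sl μ s * (1 + (T j : ℝ)) ≤ (C₀ + 3) * w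
    rw [← hw']
    push_cast
    linarith

/-- **The numbers of `sg8`.** -/
theorem sgU7 (hu : ∀ i, u j i = uc8 μ s d (wd μ s (T j)) (cm j) (1 - (T j : ℤ)) i) (hd : 0 < d) (hd1 : d ≤ 1)
    (hw : 8 ≤ d * wd μ s (T j)) (hr : (rad j : ℝ) ≤ d / 8 * wd μ s (T j)) (hC : 1 ≤ C₀) (c0 : 0 ≤ cm j)
    (c1 : (cm j : ℝ) ≤ C₀ / 2 * wd μ s (T j)) :
    Sg7 μ s (sg8 μ s T cm u rad m₂ P ck ce Qe Se φO vO v₁ g₂) j (T j) (T (j + m₂)) P (C₀ + 3) ck ce Qe Se vO φO v₁ g₂ := by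
  refine ⟨rfl, colU7 hu hd hd1 hw hr hC c0 c1, ⟨_, _, kap7_8, ?_, ?_⟩, rfl, rfl, rfl, rfl⟩
  · have e : (cm j : ℝ) + sl μ s * (1 - (T j : ℝ)) + sl μ s * ((T j : ℝ) - 1) = cm j := by ring
    rw [e]
    have w0 : 0 < wd μ s (T j) := by
      by_contra h
      have := mul_nonpos_of_nonneg_of_nonpos hd.le (not_lt.1 h)
      linarith
    have c0' : (0 : ℝ) ≤ cm j := by exact_mod_cast c0
    have Cw : wd μ s (T j) ≤ C₀ * wd μ s (T j) := le_mul_of_one_le_left w0.le hC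
    rw [abs_of_nonneg c0']
    linarith
  · ring

end Cols

variable {μ : Measure ℝ} {s c C : ℝ} {n₀ : ℕ}

theorem a7_nonneg {P : ℕ} {Q₃ q₁ sg s₃ : ℝ} (h1 : 0 ≤ Q₃) (h2 : 0 ≤ q₁) (h3 : 0 ≤ sg) (h4 : 0 ≤ s₃) : 0 ≤ a7 P Q₃ q₁ sg s₃ := by
  unfold a7
  have := gr_nonneg P (show (0 : ℝ) ≤ 1 by norm_num)
  positivity

theorem b7_nonneg {P : ℕ} {c₁ Qk Q₃ Kc sk s₃ q₁ sg s₄ : ℝ} (h1 : 0 ≤ Qk) (h2 : 0 ≤ Q₃) (h3 : 0 ≤ Kc) (h4 : 0 ≤ sk) (h5 : 0 ≤ s₃)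
    (h6 : 0 ≤ q₁) (h7 : 0 ≤ sg) (h8 : 0 ≤ s₄) : 0 ≤ b7 P c₁ Qk Q₃ Kc sk s₃ q₁ sg s₄ := by
  unfold b7
  have hA := AQ_nonneg P c₁ (Qk + Q₃)
  have := gr_nonneg P (show 0 ≤ AQ P c₁ (Qk + Q₃) + Kc by positivity)
  positivity

/-- **(S)** : `SoP8` at the scale `n`. -/
theorem lsC7 [IsProbabilityMeasure μ] (h0 : In μ s c C n₀) (hE9 : ∀ᶠ n : ℕ in atTop, (n : ℝ) ^ (1 / 9 : ℝ) ≤ EE μ s n) : ∃ PS : ℕ,
    ∀ {d C₀ kst : ℝ} {K : ℕ}, 0 < d → d ≤ 1 → 1 ≤ C₀ → 0 < kst → 8 ≤ K → ∃ M : ℕ, ∀ m₂ : ℕ, M ≤ m₂ → 1 ≤ m₂ →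
    ∀ (P : ℕ) (ck ce Qe Se η : ℝ), PS ≤ P → 1 ≤ P → 0 ≤ ce → 0 ≤ Qe → 0 ≤ Se → 0 < η →
    (∃ n₁ : ℕ, 1 ≤ n₁ ∧ ∀ h₀ t : ℕ, 1 ≤ t → n₁ ≤ Tg h₀ K t → c / 32 * (EE μ s (Tg h₀ K (t + m₂)) / wd μ s (Tg h₀ K (t + m₂))) ≤
      ce * (EE μ s (Tg h₀ K t) / wd μ s (Tg h₀ K t))) →
    ∀ w₁ w₁' q₁ : ℝ, 0 < w₁ → w₁ < w₁' → C₀ + 6 ≤ w₁' → 0 < q₁ → ∃ φ v v1S : ℝ, 0 ≤ φ ∧ 0 ≤ v ∧ 0 ≤ v1S ∧
    ∀ v₁ : ℝ, v1S ≤ v₁ → ∃ QV SV gf u : ℝ, 0 < QV ∧ 0 < SV ∧ 0 < gf ∧ 0 < u ∧ ∀ w₂ q₂ : ℝ, w₁' ≤ w₂ → 0 < q₂ →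
    ∃ q0 : ℝ, 0 < q0 ∧ ∃ Q₀ : ℕ, 1 ≤ Q₀ ∧ ∀ Q : ℕ, Q₀ ∣ Q → 1 ≤ Q → ∀ {ρ e R c₂ δ κ : ℝ} {B Z : ℕ}, 0 < ρ → ρ ≤ 1 → 0 < e → e ≤ 1 / 32 →
    0 ≤ δ → ∀ᶠ n : ℕ in atTop, ∀ G : Gd, GW μ s R B C₀ (h8 Q (ρ * e) n) K (m8 K e n + m₂) G → ∀ ν : NV31,
      NB8 μ s (Tg (h8 Q (ρ * e) n) K) m₂ ⟨P, c / 512, c / 64, QV, SV, w₁, w₁', w₂, kst, q₁, q₂, gf, u⟩ ν →
      ∀ (cm : ℕ → ℤ) (U : ℕ → Bool → ℤ) (rad : ℕ → ℕ), (∀ j, 2 ≤ j → j < m8 K e n / Z → cm j = (G.V j : ℤ) / 2 ∧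
        (∀ b, U j b = uc8 μ s d (wd μ s (Tg (h8 Q (ρ * e) n) K j)) (cm j) (1 - (Tg (h8 Q (ρ * e) n) K j : ℤ)) b) ∧
        η * wd μ s (Tg (h8 Q (ρ * e) n) K j) ≤ rad j ∧ (rad j : ℝ) ≤ d / 8 * wd μ s (Tg (h8 Q (ρ * e) n) K j)) →
      ∀ Γ : Cx, Adm μ s c₂ δ κ n Γ → SoP8 μ G (Tg (h8 Q (ρ * e) n) K) (m8 K e n / Z) m₂ (S8 e K n G Γ) (V8 μ s Γ ν u G)
        (So47 Γ (sg8 μ s (Tg (h8 Q (ρ * e) n) K) cm U rad m₂ P ck ce Qe Se φ v v₁ (kst / 8))) q0 (1 / 2) := by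
  have hc := h0.c0
  obtain ⟨P₀, Q₃, k₅, hQ₃, hk₅, HS⟩ := so7 h0
  refine ⟨P₀, fun {d C₀ kst K} hd hd1 hC₀ hkst hK8 => ?_⟩
  obtain ⟨D, hD⟩ : ∃ D : ℝ, D = C₀ + 3 := ⟨_, rfl⟩
  have hD0 : 0 ≤ D := by linarith
  obtain ⟨M, HM⟩ := numS58 h0 (K := K) (by omega) D (cc := c / 32) (c30 := 1) (by positivity) one_pos
  refine ⟨M, fun m₂ hM hm₂ P ck ce Qe Se η hPS hP1 hce hQe hSe hη hRat w₁ w₁' q₁ hw₁ hw₁' hwS hq₁ => ?_⟩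
  obtain ⟨rr, hrr, HN⟩ := HM m₂ hM
  obtain ⟨nR, hnR, hRat⟩ := hRat
  -- the constants
  obtain ⟨δ₀, hδ₀⟩ : ∃ δ₀ : ℝ, δ₀ = d / (4 * (rr + 1)) := ⟨_, rfl⟩
  have hδ0 : 0 < δ₀ := by rw [hδ₀]; positivity
  have hδr1 : δ₀ * rr ≤ d / 4 := by
    rw [hδ₀, div_mul_eq_mul_div, div_le_iff₀ (by positivity)]
    nlinarith
  obtain ⟨δr, hδr⟩ : ∃ δr : ℝ, δr = min (η / (2 * (rr + 1))) (1 / 2) := ⟨_, rfl⟩
  have hδr0 : 0 < δr := by rw [hδr]; exact lt_min (by positivity) (by norm_num)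
  have hδr2 : δr ≤ 1 / 2 := by rw [hδr]; exact min_le_right _ _
  have hδr3 : δr * rr ≤ η / 2 := by
    have h1 : δr ≤ η / (2 * (rr + 1)) := by rw [hδr]; exact min_le_left _ _
    rw [le_div_iff₀ (by positivity)] at h1
    nlinarith
  obtain ⟨Q₁, hQ₁, HS⟩ := HS (c₂ := c / 256) (ω₁ := w₁) (ω₁' := w₁') (q₁ := q₁) (u := 1) (kst := kst / 2) (g₁ := kst / 4) (Ke := D)
    (δ := δ₀) (δr := δr) (by positivity) hw₁.le hw₁' hq₁.le zero_le_one (by positivity) (by linarith) hD0 hδ0 hδr0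
  obtain ⟨Qb, hQb⟩ : ∃ Qb : ℝ, Qb = Qe * gr P (AQ P ck Qe + rr + 2 * D) + Se := ⟨_, rfl⟩
  have hQb0 : 0 ≤ Qb := by
    have hA := AQ_nonneg P ck Qe
    have := gr_nonneg P (show 0 ≤ AQ P ck Qe + rr + 2 * D by positivity)
    rw [hQb]
    positivity
  obtain ⟨φ, hφ⟩ : ∃ φ : ℝ, φ = b7 P (c / 512) Qb Q₃ D 1 1 q₁ (c / 64 - c / 512) 1 + k₅ := ⟨_, rfl⟩
  obtain ⟨v, hv⟩ : ∃ v : ℝ, v = a7 P Q₃ q₁ (c / 64 - c / 512) 1 + k₅ := ⟨_, rfl⟩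
  have hsg : 0 ≤ c / 64 - c / 512 := by linarith
  have hφ0 : 0 ≤ φ := by
    rw [hφ]
    exact add_nonneg (b7_nonneg hQb0 hQ₃ hD0 zero_le_one zero_le_one hq₁.le hsg zero_le_one) hk₅
  have hv0 : 0 ≤ v := by
    rw [hv]
    exact add_nonneg (a7_nonneg hQ₃ hq₁.le hsg zero_le_one) hk₅
  refine ⟨φ, v, kst / 4 + φ + ce * (2 * D), hφ0, hv0, by positivity, fun v₁ hv₁ => ?_⟩
  obtain ⟨QV, hQV⟩ : ∃ QV : ℝ, QV = 2 * 1 + Q₁ + Qb + Q₃ := ⟨_, rfl⟩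
  have hQV0 : 0 < QV := by rw [hQV]; positivity
  obtain ⟨gf, hgf⟩ : ∃ gf : ℝ, gf = max 1 (max (q₁ + 1 * (1 + Real.log (1 + (w₁' + 1))) + kst / 2 + c / 64 * (w₁ + D + 1))
    (q₁ + 1 * (1 + Real.log (1 + (w₁' + 1))) + kst / 2 + v₁ + k₅)) := ⟨_, rfl⟩
  have hgf1 : 1 ≤ gf := by rw [hgf]; exact le_max_left _ _
  refine ⟨QV, 3, gf, 1, hQV0, by norm_num, by linarith, one_pos, fun w₂ q₂ hw₂ hq₂ => ?_⟩
  obtain ⟨p₁, ι, Q₀, n₁, hp₁, hι, hQ₀, hn₁, HS⟩ := HS (P := P) (c₁ := c / 512) (c₃ := c / 64) (c₄ := c / 256) (QV := QV) (SV := 3)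
    (v₁ := v₁) (gf := gf) (ω₂ := w₂) (q₂ := q₂) hPS hP1 (by positivity) (by linarith) (by positivity) (by linarith) hQV0.le (by linarith)
    (by rw [hgf]; exact (le_max_left _ _).trans (le_max_right _ _)) (by rw [hgf]; exact (le_max_right _ _).trans (le_max_right _ _))
  refine ⟨p₁, hp₁, Q₀, hQ₀, fun Q hQQ hQ {ρ e R c₂ δ κ B Z} hρ hρ1 he he1 hδ => ?_⟩
  obtain ⟨n₂, hn₂, HN⟩ := HN kst (c / 256) (c / 512) 1 1 (D + 1) 1 (by positivity) (by positivity) one_pos one_pos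
  obtain ⟨nW, hnW⟩ := eventually_atTop.1 ((wd_tendsto h0).eventually_ge_atTop (8 / d + 2 / η + 2))
  obtain ⟨ι', hι'⟩ : ∃ ι' : ℝ, ι' = min 1 (min ι (c / 64)) := ⟨_, rfl⟩
  have hι0 : 0 < ι' := by rw [hι']; exact lt_min one_pos (lt_min hι (by positivity))
  have hι1 : ι' ≤ 1 := by rw [hι']; exact min_le_left _ _
  have hι2 : ι' ≤ ι := by rw [hι']; exact (min_le_right _ _).trans (min_le_left _ _)
  have hι3 : ι' ≤ c / 64 := by rw [hι']; exact (min_le_right _ _).trans (min_le_right _ _)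
  obtain ⟨nT, hT⟩ := tilt87 h0 hE9 (e := e) (kap := ι') (c := c₂) (δ := δ) (κ := κ) he1 hδ hι0
  have hρe : 0 < ρ * e := by positivity
  have hρe1 : ρ * e ≤ e := mul_le_of_le_one_left he.le hρ1
  obtain ⟨N₁, hN₁⟩ : ∃ N₁ : ℕ, N₁ = 2 * n₁ + n₂ + nW + nT + nR := ⟨_, rfl⟩
  have ev : ∀ᶠ n : ℕ in atTop, ((N₁ : ℕ) : ℝ) ≤ (n : ℝ) ^ (ρ * e / 4) :=
    ((tendsto_rpow_atTop (by positivity)).comp tendsto_natCast_atTop_atTop).eventually_ge_atTop _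
  filter_upwards [gridN8 (x := m₂) he he1 hρe hρe1 (show 2 ≤ K by omega) hQ, ev, hT, eventually_ge_atTop 2] with n hg hbig hT hn2
  intro G g ν N cm U rad hcol Γ hA i hi him q₀ hq₀ ω hω
  obtain ⟨h₀, hh₀⟩ : ∃ h₀ : ℕ, h₀ = h8 Q (ρ * e) n := ⟨_, rfl⟩
  have hN₀ : N₁ ≤ h₀ := by
    rw [hh₀]
    exact_mod_cast hbig.trans hg.h1
  have hdQ : Q₀ ∣ h₀ := by
    rw [hh₀]
    exact hQQ.trans (dvd_mul_right _ _)
  obtain ⟨hcm, hU, hr1, hr2⟩ := hcol i hi him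
  have hmm : i ≤ m8 K e n := (him.trans_le (Nat.div_le_self _ _)).le
  have hTn := T_lt58 hg (show 1 ≤ K by omega) (by linarith) hn2 (i := i + m₂) (by omega)
  rw [← hh₀] at g N hU hr1 hr2 hTn ⊢
  have hi1 : 1 ≤ i := by omega
  obtain ⟨Ti, eTi⟩ : ∃ Ti : ℕ, Ti = Tg h₀ K i := ⟨_, rfl⟩
  obtain ⟨To, eTo⟩ : ∃ To : ℕ, To = Tg h₀ K (i + m₂) := ⟨_, rfl⟩
  have hTi : N₁ ≤ Ti := by
    rw [eTi]
    exact hN₀.trans (Tg_ge77 (by omega) hi1)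
  have ns := HN h₀ i hi1 (by rw [← eTi]; omega)
  have hR := hRat h₀ i hi1 (by rw [← eTi]; omega)
  rw [← eTi, ← eTo] at ns hR
  rw [← eTi] at hU hr1 hr2
  rw [← eTo] at hTn
  obtain ⟨hTn1, hTn2⟩ := hTn
  -- thresholds
  have hW := hnW Ti (by omega)
  have w0 : 0 < wd μ s Ti := by
    have : 0 < 8 / d + 2 / η + 2 := by positivity
    linarith
  have a1 : 0 ≤ 8 / d := by positivity
  have a2 : 0 ≤ 2 / η := by positivity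
  have w8 : 8 ≤ d * wd μ s Ti := by
    have h1 : 8 / d ≤ wd μ s Ti := by linarith
    rw [div_le_iff₀ hd] at h1
    linarith
  have wη : 2 ≤ η * wd μ s Ti := by
    have h1 : 2 / η ≤ wd μ s Ti := by linarith
    rw [div_le_iff₀ hη] at h1
    linarith
  have wo2 : 2 ≤ wd μ s To := by linarith [ns.wio]
  have wo0 : 0 < wd μ s To := by linarith
  -- the tilt
  have hTo0 : (To : ℝ) ≤ 2 * (n : ℝ) ^ e := by
    have : 0 ≤ (To : ℝ) := Nat.cast_nonneg _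
    linarith
  obtain ⟨t1, t2⟩ := hT Γ hA To hTo0
  have hToN : nT ≤ To := by have := ns.Tio; omega
  have t2 := t2 hToN
  have hTo1 : (1 : ℝ) ≤ To := by exact_mod_cast ns.Ti1.trans ns.Tio
  have hh1 : |Γ.h| ≤ 1 := by
    have h1 : |Γ.h| ≤ |Γ.h| * To := le_mul_of_one_le_right (abs_nonneg _) hTo1
    linarith
  have hE0 := EE_pos (μ := μ) (s := s) To
  have hhι : |Γ.h| * wd μ s To ≤ ι * EE μ s To := t2.trans (mul_le_mul_of_nonneg_right hι2 hE0.le)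
  have hhc : |Γ.h| * wd μ s To ≤ c / 64 * EE μ s To := t2.trans (mul_le_mul_of_nonneg_right hι3 hE0.le)
  -- the columns
  have hcm0 : 0 ≤ cm i := by rw [hcm]; exact Int.ediv_nonneg (Int.natCast_nonneg _) (by norm_num)
  have hcm1 : (cm i : ℝ) ≤ C₀ / 2 * wd μ s Ti := by
    have h1 := g.V i hi1 (by omega)
    have h2 := g.wB i hi1
    rw [← eTi] at h1 h2
    have h3 : 2 * cm i ≤ G.V i := by rw [hcm]; omega
    have h4 : 2 * (cm i : ℝ) ≤ G.V i := by exact_mod_cast h3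
    have h5 : (0 : ℝ) ≤ i := Nat.cast_nonneg _
    linarith
  have sg : Sg7 μ s (sg8 μ s (Tg h₀ K) cm U rad m₂ P ck ce Qe Se φ v v₁ (kst / 8)) i Ti To P D ck ce Qe Se v φ v₁ (kst / 8) := by
    rw [eTi, eTo, hD]
    exact sgU7 (fun b => by rw [← eTi]; exact hU b) hd hd1 (by rw [← eTi]; exact w8) (by rw [← eTi]; exact hr2) hC₀ hcm0
      (by rw [← eTi]; exact hcm1)
  have col := sg.col
  obtain ⟨σ, hσ⟩ : ∃ σ : NS47, σ = sg8 μ s (Tg h₀ K) cm U rad m₂ P ck ce Qe Se φ v v₁ (kst / 8) := ⟨_, rfl⟩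
  have e1 : σ.β₁ i - σ.α₁ i = 2 * rad i := by rw [hσ]; exact wid8_1
  have e2 : σ.β₂ i - σ.α₂ i = 2 * rad i := by rw [hσ]; exact wid8_2
  have hsep : (σ.β₁ i : ℝ) + δ₀ * wd μ s To ≤ σ.α₂ i := by
    have h1 := uc8_sep (μ := μ) (s := s) d (wd μ s Ti) (cm i) (1 - (Ti : ℤ))
    rw [← hU, ← hU] at h1
    have h2 : δ₀ * wd μ s To ≤ d / 4 * wd μ s Ti := by
      have h3 := mul_le_mul_of_nonneg_left ns.ρw hδ0.le
      have h4 := mul_le_mul_of_nonneg_right hδr1 w0.le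
      linarith
    rw [hσ]
    show ((U i false + (rad i : ℤ) : ℤ) : ℝ) + δ₀ * wd μ s To ≤ ((U i true - (rad i : ℤ) : ℤ) : ℝ)
    push_cast
    linarith
  rw [← hσ] at sg col ⊢
  -- the rows
  have hz : Tg h₀ K (i + m₂) ≤ (G.z (i + m₂) q₀).1 := by
    have h2 : ν.Ts (i + ν.m₂) ≤ (G.z (i + ν.m₂) q₀).1 := hω.1.1
    rwa [N.eT, N.em] at h2
  obtain ⟨T, n₃, z0, low, upp, hTT, hTT', h8a, h8b, hTi8, hdv⟩ := rows7 g hK8 hi1 hm₂ (by omega) hz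
  rw [← eTi] at z0 low upp
  rw [← eTo] at low upp hTT hTT' h8a h8b
  have hToT : Ti ≤ To := ns.Tio
  obtain ⟨r₀, hr₀, HS⟩ := HS T To (by omega) (by omega) (hdv Q₀ hdQ) hTT hTT'
  have cf := cf7 h0 g N hi1 hm₂ hω hA.hs hA.ok hh1 eTo eTi hhι hq₀ hTn2 sg.T z0 low upp h8a col hD0 ns.wio le_rfl hsep hw₁'.le
    (by show D + 3 ≤ w₁'; linarith) (by linarith [ns.Xo.1]) (by linarith [ns.Xo.2])
  have hr₀' : (r₀ : ℝ) ≤ η / 2 * wd μ s Ti := by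
    have h3 := mul_le_mul_of_nonneg_left ns.ρw hδr0.le
    have h4 := mul_le_mul_of_nonneg_right hδr3 w0.le
    linarith
  have hr₀'' : (r₀ : ℝ) ≤ 1 / 2 * wd μ s To := hr₀.trans (mul_le_mul_of_nonneg_right hδr2 wo0.le)
  have hrr' : (r₀ : ℤ) + 1 ≤ rad i := by
    have h1 : (r₀ : ℝ) + 1 ≤ rad i := by linarith
    exact_mod_cast h1
  have lg : Real.log 3 ≤ (kst / 4 - kst / 8) * EE μ s To := by
    have h1 : Real.log 3 ≤ 2 := by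
      have := Real.log_le_sub_one_of_pos (show (0 : ℝ) < 3 by norm_num)
      linarith
    have h2 := ns.kst
    rw [div_le_iff₀ hkst] at h2
    linarith
  have Dww : D * wd μ s Ti ≤ D * wd μ s To := mul_le_mul_of_nonneg_left ns.wio hD0
  have nu : Nu7 μ s Ti To (c / 32) D D ce rr 1 1 (c / 256) (c / 512) (kst / 4) (kst / 8) :=
    { w := by linarith
      wi := w0
      D0 := hD0
      Ke0 := hD0
      DK := mul_le_mul_of_nonneg_left ns.wio hD0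
      Dw := ns.Dw
      s1 := by
        have := ns.Xi.1
        have h2 : 0 ≤ (D + 1) * wd μ s Ti := by positivity
        linarith
      s2 := by
        have := ns.Xi.2
        have h2 : 0 ≤ (D + 1) * wd μ s Ti := by positivity
        linarith
      EE := ns.Eio
      ρ0 := hrr
      ρw := ns.ρw
      r := hR
      sum2 := ns.sum2
      sum4 := ns.sum4
      lg := lg }
  have hωL : ω ∈ LP95 μ s Γ ν (c / 64 - c / 512) G i q₀ := by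
    have h2 := hω.2
    rw [N.ec₃, N.ec₁] at h2
    exact h2
  obtain ⟨E0, E5, mE0, mE5, oE0, oE5, pE0, pE5, H⟩ := HS (cF := c / 512) (c₃' := c / 64) (c₄' := c / 512) (sk := 1) (s₄ := 1) cf hhc h8a h8b
    (by rw [hv, hφ, hQb] at sg; exact sg) nu hQe hSe hce (by positivity) (by positivity) (by linarith) (by linarith) (by linarith) (by linarith)
    zero_le_one zero_le_one (by rw [← hQb, hQV]) (by norm_num) (by omega) (by omega) (by linarith) (by rw [← hQb, ← hφ]; linarith) ω hω.1 hωL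
  rw [N.em] at oE0 oE5 H
  refine ⟨E0, E5, mE0, mE5, by rw [← eTo, ← eTi]; exact oE0, by rw [← eTo, ← eTi]; exact oE5, pE0, pE5, fun ζ hζ hζ0 hζ5 => ?_⟩
  refine H ζ (fun a ha => hζ a fun ha' => ha ?_) hζ0 hζ5
  rw [mem_At, mem_AT, ← eTo] at ha'
  have e3 : (a - G.x (i + m₂) q₀).1 = a.1 - ((G.z (i + m₂) q₀).1 : ℤ) := rfl
  rw [e3] at ha'
  constructor
  · have := ha'.1
    show ((G.z (i + m₂) q₀).1 : ℤ) - To < a.1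
    omega
  · have := ha'.2
    show a.1 ≤ ((G.z (i + m₂) q₀).1 : ℤ) + To
    omega

end

end Pool.Agent.W_7d29a1_C1.N7
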