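import Pool.Agent.W_7d29a1_C1.InE48
import Pool.Agent.W_7d29a1_C1.JnC35
import Pool.Agent.W_7d29a1_C1.RhoI73
import Pool.Agent.W_7d29a1_C1.FrmF10

/-!
Both halves (MP_7d29a1_pr), attractor route [C1], SHELL: THE INSIDE OF A SUCCESS IN THE LETTERS OF SIDE F. (helper44)

`ins44` : over the grid, `η` not reached from the levels below `t - 1`, end pieces `Sp10`: the normalised kernel of the rows
`r₁ → z + 5 T / 8` (`r₁` = end of the first buffer) has the envelope of level `A (1 + U) ^ 4`, the one of `c₀' → z + 5 T / 8` (`c₀'` = end of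
the lanes) the lower bound `exp (-(A (1 + U) ^ 2 E))`, unit `EE T`, line through the middle of the box.
-/

set_option autoImplicit false

namespace Pool.Agent.W_7d29a1_C1.Lt44

open MeasureTheory ProbabilityTheory Filter Topology
open Pool.Agent.W_7d29a1_F Pool.Agent.W_7d29a1_h4g Pool.Agent.W_7d29a1_H Pool.Agent.W_7d29a1_HS
open Pool.Agent.W_7d29a1_C1.S71 Pool.Agent.W_7d29a1_C1.Sw9 Pool.Agent.W_7d29a1_C1.H75 Pool.Agent.W_7d29a1_C1.U16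
open Pool.Agent.W_7d29a1_C1.FarK89 Pool.Agent.W_7d29a1_C1.FarW89
open Pool.Agent.W_7d29a1_C1.T10 Pool.Agent.W_7d29a1_C1.S83 Pool.Agent.W_7d29a1_C1.D31
open Pool.Agent.W_7d29a1_C1.H8 (yl8)
open Pool.Agent.W_7d29a1_C1.H60
open Pool.Agent.W_7d29a1_C1.JnC35 (ln35 lat_ln)

noncomputable section

variable {μ : Measure ℝ} {s : ℝ} [IsProbabilityMeasure μ] {c C : ℝ} {n₀ : ℕ}

omit [IsProbabilityMeasure μ] in
/-- The middle of the box is near its base point. -/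
theorem mid44 {R' C₀ : ℝ} {B h₀ K L : ℕ} {G : Gd} (g : GW μ s R' B C₀ h₀ K L G) {t : ℕ} (ht : 1 ≤ t) (htL : t ≤ L) (x : ℕ × ℤ) :
    |lat16 μ s (((G.z t x).1 : ℤ), xm G t x) (G.x t x)| ≤ C₀ ^ 2 * wd μ s (2 * Tg h₀ K t) := by
  obtain ⟨h1, h2⟩ := g.lat_mid ht htL x
  rw [lat_swap, abs_neg, h1]
  have h3 : (0 : ℝ) ≤ (((G.V t : ℤ) / 2 : ℤ) : ℝ) := by
    have h5 : (0 : ℤ) ≤ (G.V t : ℤ) / 2 := by omega
    exact_mod_cast h5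
  rw [abs_of_nonneg h3]
  have h4 := g.wB t ht
  have h5 := g.w2 t ht
  have h6 := g.C1
  have h7 := mul_le_mul_of_nonneg_left h5 (show 0 ≤ C₀ by linarith)
  nlinarith

/-- **THE INSIDE OF A SUCCESS**, both rows. -/
theorem ins44 (h0 : In μ s c C n₀) (P : ℕ) {K : ℕ} (hK : 8 ≤ K) {th : ℝ} (hth : 0 < th) (hth1 : th ≤ 1 / 4) (hthK : 32 ≤ th * K)
    {θ Kw D C₀ : ℝ} (hθ : 0 < θ) (hθ8 : θ ≤ th / 128) (hD : 0 ≤ D) (hKw : 2 * (4 * D + 2 * C₀ ^ 2) + 8 ≤ Kw) :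
    ∃ R : ℝ, 1 < R ∧ ∃ A : ℝ, 1 ≤ A ∧ ∀ (c₂ σ : ℝ) (R₁ : ℕ), 0 < c₂ → 0 < σ → 1 ≤ R₁ → ∃ n₁ : ℕ, 1 ≤ n₁ ∧
    ∀ U χ : ℝ, 0 ≤ U → 0 ≤ χ → (K : ℝ) ^ χ ≤ R →
    ∀ {R' : ℝ} {B : ℕ} {h : ℝ} {p : ℕ → ℝ} {M h₀ : ℕ} {G : Gd} {L : ℕ} {t : ℕ} {x : ℕ × ℤ} {η : Env} {q₁ : ℝ} {RB : ℕ},
      GW μ s R' B C₀ h₀ K L G → (∀ k, k < M → p k = Real.exp (s + h)) → (∀ k, M ≤ k → p k = Real.exp s) → n₁ ≤ h₀ → 2 ≤ t → t ≤ L →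
      0 ≤ q₁ → q₁ ≤ U → Tg h₀ K t ≤ (G.z t x).1 →
      η ∉ Rch (lvL G (LvE L (EL60 μ s c θ Kw P (Tg h₀ K) (yl8 U K χ))) L) (t - 2) x →
      sh (G.x t x) η ∈ Sp10 μ s c θ Kw P (Tg h₀ K) 2 (rA10 th R₁ (Tg h₀ K)) (rE10 (Tg h₀ K)) q₁ t (G.z (t - 1) (G.rel t x)) →
      |h| * wd μ s (2 * Tg h₀ K t) ≤ c / 8 * EE μ s (2 * Tg h₀ K t) → (RB : ℝ) ≤ th / 8 * R₁ →
      ∀ c0' r₁ e : ℕ, c0' = cF th R₁ (G.z t x).1 (Tg h₀ K t) → r₁ = c0' + RB * kF th R₁ (Tg h₀ K t) →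
        e = (G.z t x).1 + 5 * Tg h₀ K t / 8 →
        (∀ P', 2 * P ≤ P' → ∀ I J : Finset ℤ, En31 P' (c / 64) c₂ (EE μ s (Tg h₀ K t)) (wd μ s (Tg h₀ K t)) (A * (1 + U) ^ 4) σ
          (fun z => (z : ℝ) - ln35 μ s (((G.z t x).1 : ℤ), xm G t x) r₁) (fun z => (z : ℝ) - ln35 μ s (((G.z t x).1 : ℤ), xm G t x) e)
          (nk μ s h η p M r₁ (e - r₁)) I J) ∧
        (∀ z z' : ℤ, |(z : ℝ) - ln35 μ s (((G.z t x).1 : ℤ), xm G t x) c0'| ≤ D * wd μ s (Tg h₀ K t) →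
          |(z' : ℝ) - ln35 μ s (((G.z t x).1 : ℤ), xm G t x) e| ≤ D * wd μ s (Tg h₀ K t) →
          Real.exp (-(A * (1 + U) ^ 2 * EE μ s (Tg h₀ K t))) ≤ nk μ s h η p M c0' (e - c0') z z') := by
  obtain ⟨R, hR, A, hA, H⟩ := inE48 h0 P hK (a := 2) (by norm_num) (θ := θ) (Kw := Kw) (D := D) (Λ' := C₀ ^ 2) (C₀ := C₀) hθ (by linarith) hD
    (by positivity) (by push_cast; linarith)
  refine ⟨R, hR, A, hA, fun c₂ σ R₁ hc₂ hσ hR₁ => ?_⟩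
  obtain ⟨n₁, hn₁, H⟩ := H c₂ σ hc₂ hσ
  obtain ⟨n₂, hn₂, H2⟩ := Sb73.rho73 hth hth1 hR₁
  refine ⟨max n₁ n₂, hn₁.trans (le_max_left _ _), fun U χ hU hχ hKχ => ?_⟩
  intro R' B h p M h₀ G L t x η q₁ RB g hp hp' hn ht htL hq hqU hz hY hx hf hRB c0' r₁ e hc0 hr₁ he
  have ht1 : 1 ≤ t := by omega
  have hK1 := g.K1
  have hT : h₀ ≤ Tg h₀ K t := by
    rw [Tg_pos ht1, mul_comm 2 h₀, mul_assoc]
    exact Nat.le_mul_of_pos_right _ (Nat.mul_pos two_pos (Nat.pow_pos (by omega)))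
  have hTn : n₁ ≤ Tg h₀ K t := (le_max_left _ _).trans (hn.trans hT)
  have hmid := mid44 g ht1 htL x
  have key : ∀ RB' : ℕ, (RB' : ℝ) ≤ th / 8 * R₁ → ∀ ρ₀ : ℕ, ρ₀ = c0' + RB' * kF th R₁ (Tg h₀ K t) →
      (ρ₀ : ℝ) + Tg h₀ K (t - 1) + 2 * θ * Tg h₀ K t ≤ (G.z t x).1 ∧ ((G.z t x).1 : ℤ) + rA10 th R₁ (Tg h₀ K) t ≤ ρ₀ ∧
        -(Tg h₀ K t : ℤ) ≤ rA10 th R₁ (Tg h₀ K) t := by
    intro RB' hRB' ρ₀ hρ₀
    obtain ⟨k1, k2, k3, -⟩ := H2 g ((le_max_right _ _).trans hn) hthK RB' hRB' hθ.le hθ8 t ht1 (G.z t x).1 hz ρ₀ (by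
      rw [hρ₀, hc0, add_mul]
      unfold cF
      omega)
    exact ⟨k1, k2, k3⟩
  have hrE : (5 * Tg h₀ K t / 8 : ℕ) ≤ rE10 (Tg h₀ K) t := le_rfl
  have main : ∀ RB' : ℕ, (RB' : ℝ) ≤ th / 8 * R₁ → ∀ ρ₀ : ℕ, ρ₀ = c0' + RB' * kF th R₁ (Tg h₀ K t) → _ := fun RB' hRB' ρ₀ hρ₀ =>
    H U χ hU hχ hKχ (h := h) (p := p) (M := M) (κ' := (((G.z t x).1 : ℤ), xm G t x)) (r₀ := rA10 th R₁ (Tg h₀ K) t)
      (r₁ := rE10 (Tg h₀ K) t) (ρ₀ := ρ₀) (Tt := Tg h₀ K t) (q₁ := q₁) (Lm := L) g hp hp' ((le_max_left _ _).trans hn) ht htL (by omega) hq hqU hz hY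
      hx.2 hmid hTn (by omega) (by omega) (key RB' hRB' ρ₀ hρ₀).2.2 (rE10_le _ _) hrE (key RB' hRB' ρ₀ hρ₀).2.1
      (key RB' hRB' ρ₀ hρ₀).1 hf
  rw [← he] at main
  constructor
  · intro P' hP' I J
    have m1 := (main RB hRB r₁ hr₁).1 P' hP' I J
    have e1 : c / 8 / (2 * ((2 : ℕ) : ℝ) ^ 2) = c / 64 := by push_cast; ring
    rw [e1] at m1
    simp only [lat_ln] at m1
    exact m1
  · intro z z' hz1 hz2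
    have m1 := (main 0 (by push_cast; positivity) c0' (by ring)).2 z z' (by rw [lat_ln]; exact hz1) (by rw [lat_ln]; exact hz2)
    exact m1

end

end Pool.Agent.W_7d29a1_C1.Lt44
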