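import Pool.Agent.W_7d29a1_C1.KStp21
import Pool.Agent.W_7d29a1_C1.LitS44
import Pool.Agent.W_7d29a1_C1.NumX54

/-!
Both halves (MP_7d29a1_pr), attractor route [C1], SHELL: THE NUMBERS OF THE SUCCESS FROM `Pcs` AND `KSep`. (helper46)

`suc9_pcs46` : `η ∈ So47 Γ σ l z`, the kernels of the rows `c0 .. c3` satisfy `Pcs` (real small constant `eR`) and `KSep` (flat small constant
`eS`), sizes in the unit `E = EE (T_l)` with exponents `ℓ` (all halves), `c0'` (`L0`), `f` (flat future), `gX` (crossing), `G` (walls and exits);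
then `Suc9`. ORDER: `ℓ`, `c0'`, `f` | `gX` | exponent `phO` of `Φ` | `G`, `v` | `g₂`.
-/

set_option autoImplicit false
set_option linter.unusedSectionVars false

namespace Pool.Agent.W_7d29a1_C1.S46

open MeasureTheory Filter Topology Finset
open Pool.Agent.W_7d29a1_F Pool.Agent.W_7d29a1_H Pool.Agent.W_7d29a1_HS
open Pool.Agent.W_7d29a1_C1.S71
open Pool.Agent.W_7d29a1_C1.K91 (wt wt_pos)
open Pool.Agent.W_7d29a1_C1.T10 (Tg)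
open Pool.Agent.W_7d29a1_C1.H60 (Cx)
open Pool.Agent.W_7d29a1_C1.F74 (cl2)
open Pool.Agent.W_7d29a1_C1.R26P (kf)
open Pool.Agent.W_7d29a1_C1.Sh21 (KAll KMid KSep Pcs kall_of kmid_of)
open Pool.Agent.W_7d29a1_C1.Fr47 (NS47 So47)
open Pool.Agent.W_7d29a1_C1.Lt9 (Suc9 W47 c0_W47 Lit9)
open Pool.Agent.W_7d29a1_C1.H54 (gC54 fC54 xC54 suc54)
open Pool.Agent.W_7d29a1_C1.Lt44 (lit_of_so)

noncomputable section

variable {w : ℕ → ℤ → ℝ} {p : ℕ → ℝ} {lo h : ℤ} {c0 n1 kg ng kr : ℕ} {a1 b1 a2 b2 va vb xm xn da db s : ℤ} {d0 Z : Finset ℤ}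
  {kc kg' km' ke k1 : ℤ → ℤ → ℝ} {δ e e' L A0 A1 Ag Am Ar : ℝ}

/-- The small constant of `KMid` may be raised. -/
theorem kmid_mono46 (M : KMid w p lo h c0 kg ng kr a1 a2 va vb xm xn da db d0 Z kc kg' km' ke δ e L A0 A1 Ag Am Ar) (he : e ≤ e')
    (h1 : ∀ z, 0 ≤ kc a1 z) (h2 : ∀ z, 0 ≤ kc a2 z) :
    KMid w p lo h c0 kg ng kr a1 a2 va vb xm xn da db d0 Z kc kg' km' ke δ e' L A0 A1 Ag Am Ar := by
  have up : ∀ {C x : ℝ}, 0 ≤ C → 0 ≤ x → e * C * x ≤ e' * C * x := fun hC hx =>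
    mul_le_mul_of_nonneg_right (mul_le_mul_of_nonneg_right he hC) hx
  exact
    { M with
      xg1 := fun z hz => (M.xg1 z hz).trans (up M.Agp (h1 z))
      xg2 := fun z hz => (M.xg2 z hz).trans (up M.Agp (h2 z))
      xm1 := fun z hz => (M.xm1 z hz).trans (up M.Amp.le (h1 z))
      xm2 := fun z hz => (M.xm2 z hz).trans (up M.Amp.le (h2 z)) }

/-- The small constant of `KSep` may be raised. -/
theorem ksep_mono46 (S : KSep w p lo h c0 n1 a1 a2 s Z kc k1 e A0) (he : e ≤ e') (hA : 0 ≤ A0)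
    (h1 : ∀ z, 0 ≤ kc a1 z) (h2 : ∀ z, 0 ≤ kc a2 z) : KSep w p lo h c0 n1 a1 a2 s Z kc k1 e' A0 := by
  have up : ∀ {C x : ℝ}, 0 ≤ C → 0 ≤ x → e * C * x ≤ e' * C * x := fun hC hx =>
    mul_le_mul_of_nonneg_right (mul_le_mul_of_nonneg_right he hC) hx
  exact ⟨fun z hz => (S.sl z hz).trans (up hA (h1 z)), fun z hz => (S.sr z hz).trans (up hA (h2 z))⟩

variable {μ : Measure ℝ} [IsProbabilityMeasure μ] {st : ℝ} {c₀ C₀ : ℝ} {n₀ : ℕ}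

/-- **THE SUCCESS FROM THE PIECES, ALL THE NUMBERS.** -/
theorem suc9_pcs46 (hI : In μ st c₀ C₀ n₀) (hE9 : ∀ᶠ n : ℕ in atTop, (n : ℝ) ^ (1 / 9 : ℝ) ≤ EE μ st n) {e₀ e a : ℝ} (he₀ : 0 < e₀)
    (he : e ≤ 1 / 32) (ha : 0 < a) (hae : a ≤ e₀ / 72) {ℓ f gX phO G c0' : ℝ} (hℓ : 0 ≤ ℓ) (hf : 0 ≤ f) (hph : 0 ≤ phO)
    {K : ℕ} (hK : 1 ≤ K) (m₂ : ℕ) (hgX : f + fC54 ℓ (3 * ℓ + f) ≤ gX)
    (hG : 5 * ℓ + gC54 (phO * (K : ℝ) ^ m₂) (3 * ℓ) ℓ + 2 ≤ G) (hGX : 5 * ℓ + gX + 2 ≤ G) :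
    ∀ᶠ n : ℕ in atTop, ∀ (h₀ l : ℕ), 1 ≤ l → (n : ℝ) ^ (e₀ / 4) ≤ (Tg h₀ K l : ℕ) → ((Tg h₀ K l : ℕ) : ℝ) ≤ 2 * (n : ℝ) ^ e →
      ∀ {Γ : Cx} {σ : NS47} {n1 D' : ℕ → ℕ} {z : ℕ × ℤ} {η : Env} {m0 na ng nb n3 : ℕ} {xa xb da db ya yb za zb va vb xm xn ua ub sx : ℤ}
        {d0 : Finset ℤ} {kc k1 kg ke k2 : ℤ → ℤ → ℝ} {δ eR eS L L0 A0 Aa Am A2 A3 Φf v g₂ : ℝ},
      η ∈ So47 Γ σ l z →
      Pcs (wt η) Γ.p 0 (Γ.k + σ.c0 l z) (σ.c0 l z) (n1 l) na ng nb n3 (z.2 + σ.α₁ l) (z.2 + σ.β₁ l) (z.2 + σ.α₂ l) (z.2 + σ.β₂ l) xa xb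
        da db ya yb za zb va vb xm xn ua ub d0 kc (σ.k0 l z) k1 kg ke k2 δ eR L L0 A0 Aa Am A2 A3 →
      KSep (wt η) Γ.p 0 (Γ.k + σ.c0 l z) (σ.c0 l z) (n1 l) (z.2 + σ.α₁ l) (z.2 + σ.α₂ l) sx (Icc 0 (Γ.k + σ.c3 l z)) kc k1 eS A0 →
      (za + zb) / 2 = z.2 + σ.ζc l → n1 l + na + ng + nb + n3 = 2 * σ.T l → z.1 + σ.T l + 1 ≤ Γ.N → z.2 + σ.α₂ l ≤ σ.c0 l z → n1 l + na + ng ≤ D' l →
      D' l + m0 ≤ n1 l + na + ng + nb →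
      (∀ b ∈ cl2 (z.2 + σ.α₁ l) (z.2 + σ.β₁ l) (z.2 + σ.α₂ l) (z.2 + σ.β₂ l), ∑ x ∈ Icc (0 : ℤ) (Γ.k + σ.c3 l z), kc b x ≤ Φf) →
      1 ≤ Φf → 1 ≤ σ.Φ l → 0 ≤ σ.e1 l → 0 ≤ σ.e2 l →
      -- sizes, unit `EE (T_l)`
      δ ≤ Real.exp (-(n : ℝ) ^ a) → L ≤ Real.exp (ℓ * EE μ st (Tg h₀ K l)) → L0 ≤ Real.exp (c0' * EE μ st (Tg h₀ K l)) →
      Φf ≤ Real.exp (f * EE μ st (Tg h₀ K l)) → eR ≤ Real.exp (-(G * EE μ st (Tg h₀ K l))) →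
      eS ≤ Real.exp (-(gX * EE μ st (Tg h₀ K l))) →
      -- sizes, unit `EE (T_(l + m₂))`
      σ.Φ l ≤ Real.exp (phO * EE μ st (Tg h₀ K (l + m₂))) → gC54 (phO * (K : ℝ) ^ m₂) (3 * ℓ) ℓ ≤ v →
      σ.e1 l ≤ Real.exp (-(v * EE μ st (Tg h₀ K (l + m₂)))) → σ.e2 l ≤ Real.exp (-(g₂ * EE μ st (Tg h₀ K (l + m₂)))) →
      xC54 c0' ℓ (3 * ℓ + f) * EE μ st (Tg h₀ K l) + 8 ≤ g₂ * EE μ st (Tg h₀ K (l + m₂)) →
      Suc9 Γ (W47 σ n1 D') n a m0 l z η := by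
  filter_upwards [suc54 hI hE9 he₀ he ha hae (cU := ℓ) (cL := 3 * ℓ) (cVo := phO) (c0 := c0') (cUf := ℓ) (cLf := 3 * ℓ + f) hℓ
    (by linarith) hph hℓ (by linarith) hK m₂] with n key
  intro h₀ l hl hT1 hT2 Γ σ n1 D' z η m0 na ng nb n3 xa xb da db ya yb za zb va vb xm xn ua ub sx d0 kc k1 kg ke k2 δ eR eS L L0 A0 Aa Am A2
    A3 Φf v g₂ hS P S hzc hrow hN ha2 hng hD phi hΦf hΦ he1 he2 bδ bL bL0 bΦf beR beS bΦ bv be1 be2 bx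
  obtain ⟨E, hEd⟩ : ∃ E : ℝ, E = EE μ st (Tg h₀ K l) := ⟨_, rfl⟩
  have hE1 : 1 ≤ E := hEd ▸ one_le_EE (μ := μ) (s := st) _
  have hz : σ.T l ≤ z.1 := hS.1
  have hp : ∀ k, 0 < Γ.p k := fun k => by
    unfold Cx.p
    split_ifs <;> exact Real.exp_pos _
  have c3e : (Γ.k : ℤ) + σ.c0 l z + n1 l + na + ng + nb + n3 = Γ.k + σ.c3 l z := by
    have e1 : σ.c0 l z + (n1 l + na + ng + nb + n3) = σ.c3 l z := by
      rw [hrow]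
      unfold NS47.c3 NS47.c0
      omega
    rw [← e1]
    push_cast
    ring
  rw [← hEd] at bL bL0 bΦf beR beS
  have L1 := P.L1
  have L0' : 0 ≤ L := by linarith
  obtain ⟨m1, -, m3, -⟩ := (kall_of (s := sx) P (wt_pos η) hp).cells
  have eR0 := P.e0
  -- powers
  have bL3 : L ^ 3 ≤ Real.exp (3 * ℓ * E) := by
    refine (pow_le_pow_left₀ L0' bL 3).trans (le_of_eq ?_)
    rw [← Real.exp_nat_mul]
    congr 1
    push_cast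
    ring
  have bL5 : 6 * L ^ 5 * eR ≤ Real.exp ((5 * ℓ + 2 - G) * E) := by
    have h6 : (6 : ℝ) ≤ Real.exp (2 * E) := by
      have h4 := Real.exp_one_gt_d9
      have h5 : Real.exp (2 * E) = Real.exp E * Real.exp E := by
        rw [← Real.exp_add]
        congr 1
        ring
      have h7 : Real.exp 1 ≤ Real.exp E := Real.exp_le_exp.2 hE1
      rw [h5]
      nlinarith
    have h8 : L ^ 5 ≤ Real.exp (5 * ℓ * E) := by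
      refine (pow_le_pow_left₀ L0' bL 5).trans (le_of_eq ?_)
      rw [← Real.exp_nat_mul]
      congr 1
      push_cast
      ring
    refine (mul_le_mul (mul_le_mul h6 h8 (by positivity) (Real.exp_pos _).le) beR eR0 (by positivity)).trans (le_of_eq ?_)
    rw [← Real.exp_add, ← Real.exp_add]
    congr 1
    ring
  obtain ⟨ef, hef⟩ : ∃ ef : ℝ, ef = Real.exp (-(gX * E)) := ⟨_, rfl⟩
  have b2 : 6 * L ^ 5 * eR ≤ ef := by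
    rw [hef]
    refine bL5.trans (Real.exp_le_exp.2 ?_)
    have h5 := mul_le_mul_of_nonneg_right hGX (show 0 ≤ E by linarith)
    linarith
  have b1 : 3 * L ^ 3 * eR ≤ ef := by
    refine le_trans (mul_le_mul_of_nonneg_right ?_ eR0) b2
    have h5 : L ^ 3 ≤ L ^ 5 := pow_le_pow_right₀ L1 (by norm_num)
    have h6 : 0 ≤ L ^ 3 := by positivity
    linarith
  have M := kmid_mono46 (kmid_of P (wt_pos η) hp) b1 (P.kcn _ m1) (P.kcn _ m3)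
  have S' := ksep_mono46 S (hef ▸ beS) P.A0p.le (P.kcn _ m1) (P.kcn _ m3)
  rw [c3e] at M
  have lit := lit_of_so (m0 := m0) (D' := D' l) (Φf := Φf) hS (kall_of (s := sx) P (wt_pos η) hp) M S' b2 hzc (by omega) hΦ hΦf phi he1 he2
    hN ha2 (by omega) (by omega) (by omega) (by omega)
  rw [← c0_W47 (n1 := n1) (D' := D') hz] at lit
  refine key (W47 σ n1 D') l h₀ hl hT1 hT2 Γ z η m0 g₂ v δ (6 * L ^ 5 * eR) (σ.e1 l) (σ.e2 l) L (L ^ 3) L0 (σ.Φ l) (ef * Φf) L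
    (L ^ 3 * Φf) hz lit bδ ?_ ?_ ?_ ?_ ?_ ?_ ?_ bΦ bv be1 be2 bx
  · rw [← hEd]
    refine bL5.trans (Real.exp_le_exp.2 ?_)
    have h5 := mul_le_mul_of_nonneg_right hG (show 0 ≤ E by linarith)
    linarith
  · rw [← hEd]
    exact bL
  · rw [← hEd]
    exact bL3
  · rw [← hEd]
    exact bL0
  · rw [← hEd, hef]
    refine (mul_le_mul_of_nonneg_left bΦf (Real.exp_pos _).le).trans ?_
    rw [← Real.exp_add]
    refine Real.exp_le_exp.2 ?_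
    have h5 := mul_le_mul_of_nonneg_right hgX (show 0 ≤ E by linarith)
    linarith
  · rw [← hEd]
    exact bL
  · rw [← hEd]
    refine (mul_le_mul bL3 bΦf (by linarith) (Real.exp_pos _).le).trans (le_of_eq ?_)
    rw [← Real.exp_add]
    congr 1
    ring

end

end Pool.Agent.W_7d29a1_C1.S46
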