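import Pool.Agent.W_7d29a1_C1.SucP44
import Pool.Agent.W_7d29a1_C1.SucI44
import Pool.Agent.W_7d29a1_C1.SucS46
import Pool.Agent.W_7d29a1_C1.GeW58

/-!
MP_7d29a1_pr, attractor route [C1], SHELL, SIDE F (helper31): THE SUCCESS OF SIDE F FROM THE PLACE. `lsU31 : LsP44 → LsU`.

Constants: `K₂ = ⌈32 / th⌉`, `θ = th / 128`, `Kw = 2 (8 + 2 C₀ ^ 2) + 8`, `χ` with `K ^ χ ≤ R` (`exists_chi60`), levels of the inside
`A (1 + U) ^ 4`, `A (1 + U) ^ 2`, cost of the halves `lam = B₀ (1 + qin + Ui) ^ pp`, separation `gs = f + fC54 lam (3 lam + f)`, real gain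
`ge` after `φ`, `a₉ = min (ρ e / 72) (ρ e cδ / 8)`.
-/

set_option autoImplicit false

namespace Pool.Agent.W_7d29a1_C1.U31

open MeasureTheory ProbabilityTheory Filter Topology Finset
open Pool.Agent.W_7d29a1_F Pool.Agent.W_7d29a1_h4g Pool.Agent.W_7d29a1_H Pool.Agent.W_7d29a1_HS
open Pool.Agent.W_7d29a1_C1.T10 Pool.Agent.W_7d29a1_C1.S71
open Pool.Agent.W_7d29a1_C1.H8
open Pool.Agent.W_7d29a1_C1.H60 (Cx Adm exists_chi60)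
open Pool.Agent.W_7d29a1_C1.D31 (NV31)
open Pool.Agent.W_7d29a1_C1.JnC35 (ln35)
open Pool.Agent.W_7d29a1_C1.Fr47 (NS47 So47)
open Pool.Agent.W_7d29a1_C1.Lt9 (W47 Suc9)
open Pool.Agent.W_7d29a1_C1.H54 (gC54 fC54 xC54)
open Pool.Agent.W_7d29a1_C1.F45
open Pool.Agent.W_7d29a1_C1.Lt44
open Pool.Agent.W_7d29a1_C1.S46 (suc9_pcs46)
open Pool.Agent.W_7d29a1_C1.Ge58 (Geo58 PlG58 plG58 lnc58)

noncomputable section

/-! ### The numbers -/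

/-- The costs are polynomial in `U`. -/
theorem cost31 {A B₀ U f : ℝ} (hA : 1 ≤ A) (hB : 0 ≤ B₀) (hU : 0 ≤ U) (hf : 0 ≤ f) (pp : ℕ) :
    B₀ * (1 + A * (1 + U) ^ 4 + A * (1 + U) ^ 2) ^ pp ≤ B₀ * (1 + 2 * A) ^ pp * (1 + U) ^ (4 * pp) ∧
      3 * (B₀ * (1 + A * (1 + U) ^ 4 + A * (1 + U) ^ 2) ^ pp) + f ≤ (3 * (B₀ * (1 + 2 * A) ^ pp) + f) * (1 + U) ^ (4 * pp) := by
  have h1 : (1 : ℝ) ≤ (1 + U) ^ 4 := one_le_pow₀ (by linarith)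
  have h2 : (1 + U) ^ 2 ≤ (1 + U) ^ 4 := pow_le_pow_right₀ (by linarith) (by norm_num)
  have h3 : 1 + A * (1 + U) ^ 4 + A * (1 + U) ^ 2 ≤ (1 + 2 * A) * (1 + U) ^ 4 := by
    have := mul_le_mul_of_nonneg_left h2 (show 0 ≤ A by linarith)
    linarith
  have h4 : (1 + A * (1 + U) ^ 4 + A * (1 + U) ^ 2) ^ pp ≤ (1 + 2 * A) ^ pp * (1 + U) ^ (4 * pp) := by
    refine (pow_le_pow_left₀ (by positivity) h3 pp).trans (le_of_eq ?_)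
    rw [mul_pow, ← pow_mul]
  have h5 := mul_le_mul_of_nonneg_left h4 hB
  have h6 : (1 : ℝ) ≤ (1 + U) ^ (4 * pp) := one_le_pow₀ (by linarith)
  refine ⟨by linarith, ?_⟩
  have h7 := mul_le_mul_of_nonneg_left h6 hf
  linarith

/-- The numbers of the scale: the small constant, the last rows. -/
theorem num31 {e₀ cδ a : ℝ} (he : 0 < e₀) (hc : 0 < cδ) (ha : a ≤ e₀ * cδ / 8) : ∀ᶠ n : ℕ in atTop, ∀ T : ℕ, (n : ℝ) ^ (e₀ / 4) ≤ T →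
    Real.exp 32 * Real.exp (-((T : ℝ) ^ cδ)) ≤ Real.exp (-(n : ℝ) ^ a) ∧ ⌈(n : ℝ) ^ (e₀ / 8)⌉₊ + 1 ≤ T / 32 := by
  have ev : ∀ {y : ℝ}, 0 < y → ∀ M : ℝ, ∀ᶠ n : ℕ in atTop, M ≤ (n : ℝ) ^ y := fun hy M =>
    ((tendsto_rpow_atTop hy).comp tendsto_natCast_atTop_atTop).eventually_ge_atTop M
  filter_upwards [ev (show (0 : ℝ) < e₀ * cδ / 8 by positivity) 33, ev (show (0 : ℝ) < e₀ / 8 by positivity) 128, eventually_ge_atTop 1] with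
    n h1 h2 hn T hT
  have hn1 : (1 : ℝ) ≤ n := by exact_mod_cast hn
  have hn0 : (0 : ℝ) ≤ n := by linarith
  constructor
  · rw [← Real.exp_add]
    refine Real.exp_le_exp.2 ?_
    have h3 : (n : ℝ) ^ a ≤ (n : ℝ) ^ (e₀ * cδ / 8) := Real.rpow_le_rpow_of_exponent_le hn1 ha
    have h4 : (n : ℝ) ^ (e₀ * cδ / 8) * (n : ℝ) ^ (e₀ * cδ / 8) ≤ (T : ℝ) ^ cδ := by
      rw [← Real.rpow_add (by linarith)]
      refine le_trans (le_of_eq ?_) (Real.rpow_le_rpow (by positivity) hT hc.le)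
      rw [← Real.rpow_mul hn0]
      congr 1
      ring
    nlinarith
  · have h3 : (n : ℝ) ^ (e₀ / 8) * (n : ℝ) ^ (e₀ / 8) ≤ T := by
      rw [← Real.rpow_add (by linarith)]
      refine le_trans (le_of_eq ?_) hT
      congr 1
      ring
    have h4 : (⌈(n : ℝ) ^ (e₀ / 8)⌉₊ : ℝ) < (n : ℝ) ^ (e₀ / 8) + 1 := Nat.ceil_lt_add_one (by positivity)
    have h5 : ((32 * (⌈(n : ℝ) ^ (e₀ / 8)⌉₊ + 1) : ℕ) : ℝ) ≤ T := by
      push_cast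
      nlinarith
    have h6 : 32 * (⌈(n : ℝ) ^ (e₀ / 8)⌉₊ + 1) ≤ T := by exact_mod_cast h5
    omega

/-- The force against the unit. -/
theorem force31 {μ : Measure ℝ} [IsProbabilityMeasure μ] {s c C : ℝ} {n₀ : ℕ} (h : In μ s c C n₀) : ∃ n₁ : ℕ, 1 ≤ n₁ ∧ ∀ (T : ℕ) (x : ℝ),
    n₁ ≤ T → 64 * (|x| * T) ≤ 1 → |x| * wd μ s (2 * T) ≤ c / 8 * EE μ s (2 * T) := by
  have h0 := h.c0
  obtain ⟨n₁, hn₁⟩ := eventually_atTop.1 (h.tE.eventually_ge_atTop (1 / c))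
  obtain ⟨n₂, hn₂⟩ := Ge58.wd_small58 h 1 (θ := 1) one_pos
  refine ⟨max (max n₁ n₂) 1, le_max_right _ _, fun T x hT hx => ?_⟩
  have e1 := hn₁ (2 * T) (by have := (le_max_left n₁ n₂).trans ((le_max_left _ _).trans hT); omega)
  have e2 := hn₂.2 (2 * T) (by have := (le_max_right n₁ n₂).trans ((le_max_left _ _).trans hT); omega)
  have e3 : wd μ s (2 * T) ≤ 2 * T := by
    push_cast at e2
    linarith
  have e4 : |x| * wd μ s (2 * T) ≤ |x| * (2 * T) := mul_le_mul_of_nonneg_left e3 (abs_nonneg x)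
  have e5 : 1 ≤ c * EE μ s (2 * T) := by
    rw [div_le_iff₀ h0] at e1
    linarith
  linarith

/-- The radii are at least the base height. -/
theorem tge31 (h₀ K l : ℕ) (hK : 1 ≤ K) (hl : 1 ≤ l) : h₀ ≤ Tg h₀ K l := by
  rw [Tg_pos hl, mul_comm 2 h₀, mul_assoc]
  exact Nat.le_mul_of_pos_right _ (Nat.mul_pos two_pos (Nat.pow_pos (by omega)))

/-- The typical rows are few blocks. -/
theorem rb31 {c d th K0 : ℝ} {o : LnO} (ho : o.Ok (lnI c d th K0)) (Q : ℕ) : ((Q * o.j1 : ℕ) : ℝ) ≤ th / 8 * (R145 o Q : ℝ) := by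
  have a1 : 1 ≤ th / 8 * (o.j2 : ℝ) := ho.j2'
  have a2 : th / 8 * (R145 o Q : ℝ) = th / 8 * (o.j2 : ℝ) * ((Q : ℝ) * (o.a + o.j1)) := by
    unfold R145
    push_cast
    ring
  rw [a2]
  push_cast
  have a3 : (Q : ℝ) * o.j1 ≤ (Q : ℝ) * (o.a + o.j1) := mul_le_mul_of_nonneg_left (le_add_of_nonneg_left (Nat.cast_nonneg _)) (Nat.cast_nonneg _)
  exact a3.trans (le_mul_of_one_le_left (by positivity) a1)

/-- A block is at most the radius. -/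
theorem tf31 {c d th K0 : ℝ} (hth : 0 < th) (hth4 : th ≤ 1 / 4) {o : LnO} (ho : o.Ok (lnI c d th K0)) {Q : ℕ} (hQ : 1 ≤ Q) (T : ℕ → ℕ) (l : ℕ) :
    TF45 th o Q T l ≤ T l := by
  have hR := R145_pos ho hQ
  have h1 : TF45 th o Q T l ≤ R145 o Q * kF th (R145 o Q) (T l) := by
    rw [← nMTF45]
    exact Nat.le_add_left _ _
  have h2 : ((R145 o Q * kF th (R145 o Q) (T l) : ℕ) : ℝ) ≤ T l := by
    have hR' : (0 : ℝ) < (R145 o Q : ℝ) := by exact_mod_cast hR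
    have h3 : (kF th (R145 o Q) (T l) : ℝ) ≤ (1 - th / 4) * T l / R145 o Q := Nat.floor_le (by
      have : 0 ≤ 1 - th / 4 := by linarith
      positivity)
    rw [le_div_iff₀ hR'] at h3
    push_cast
    have h4 : (0 : ℝ) ≤ th / 4 * T l := by positivity
    linarith
  have h3 : R145 o Q * kF th (R145 o Q) (T l) ≤ T l := by exact_mod_cast h2
  omega

/-- The right cell of the seam row is left of the diagonal. -/
theorem a2_31 {μ : Measure ℝ} [IsProbabilityMeasure μ] {s c C : ℝ} {n₀ : ℕ} (h : In μ s c C n₀) {Γ : Cx} {G : Gd} {T : ℕ → ℕ} {l : ℕ}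
    {q₀ : ℕ × ℤ} {ρ : ℝ} (H : Geo58 μ s Γ G (T l) l q₀ ρ) (hρ : 1 ≤ ρ) {d th : ℝ} (hd : 0 < d) (hd1 : d ≤ 1) (hth : 0 < th) (hth4 : th ≤ 1 / 4)
    (hw : 8 ≤ wd μ s (T l)) {K0 : ℝ} {o : LnO} (ho : o.Ok (lnI c d th K0)) {Q : ℕ} (hQ : 1 ≤ Q) (k : KE45) (m₂ : ℕ) (φ v v₁ g₂ : ℝ) :
    (G.z l q₀).2 + (sg45 μ s d th o Q k T (cm45 G) m₂ φ v v₁ g₂).α₂ l ≤ (sg45 μ s d th o Q k T (cm45 G) m₂ φ v v₁ g₂).c0 l (G.z l q₀) := by
  have hT := H.Tz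
  obtain ⟨TF, hTF⟩ : ∃ TF : ℕ, TF = TF45 th o Q T l := ⟨_, rfl⟩
  obtain ⟨r, hr⟩ : ∃ r : ℕ, r = ⌊o.th * wd μ s TF⌋₊ := ⟨_, rfl⟩
  have hTFT : TF ≤ T l := hTF ▸ tf31 hth hth4 ho hQ T l
  have hwTF : wd μ s TF ≤ 2 * wd μ s (T l) := by
    rcases Nat.eq_zero_or_pos TF with h1 | h1
    · have h2 : wd μ s TF = 0 := by
        rw [h1]
        unfold wd
        push_cast
        ring
      rw [h2]
      linarith
    · exact U16.wd_le_two h h1 hTFT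
  have hr1 : (r : ℝ) ≤ d / 8 * wd μ s (T l) := by
    have h1 : (r : ℝ) ≤ o.th * wd μ s TF := by
      rw [hr]
      exact Nat.floor_le (mul_nonneg ho.th0.le (h.wd_nonneg TF))
    have h2 : o.th ≤ d / 16 := ho.th1
    have h3 := mul_le_mul_of_nonneg_right h2 (h.wd_nonneg TF)
    have h4 := mul_le_mul_of_nonneg_left hwTF (show 0 ≤ d / 16 by positivity)
    linarith
  have hr0 : (0 : ℝ) ≤ r := Nat.cast_nonneg _
  have hu := uc8_near (μ := μ) (s := s) d (wd μ s (T l)) (cm45 G l) (1 - (T l : ℤ)) true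
  simp only [if_true] at hu
  push_cast at hu
  obtain ⟨u, hud⟩ : ∃ u : ℤ, u = uc8 μ s d (wd μ s (T l)) (cm45 G l) (1 - (T l : ℤ)) true := ⟨_, rfl⟩
  rw [← hud] at hu
  have hdw : d * wd μ s (T l) ≤ wd μ s (T l) := mul_le_of_le_one_left (by linarith) hd1
  have hdw0 : 0 ≤ d * wd μ s (T l) := by positivity
  have g1 := (H.col ((G.z l q₀).1 - T l + 1) ((G.z l q₀).2 + (u - r)) (by omega) (by
    rw [lnc58 hT (show cm45 G l = (G.V l : ℤ) / 2 from rfl)]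
    have e : (((G.z l q₀).2 + (u - r) : ℤ) : ℝ) - ((G.z l q₀).2 + ((cm45 G l : ℝ) + sl μ s * (1 - (T l : ℝ)))) =
      (u : ℝ) - r - ((cm45 G l : ℝ) + sl μ s * (1 - (T l : ℝ))) := by
      push_cast
      ring
    rw [e]
    have h1 : 1 * wd μ s (T l) ≤ ρ * wd μ s (T l) := mul_le_mul_of_nonneg_right hρ (by linarith)
    rw [abs_le] at hu ⊢
    constructor <;> linarith [hu.1, hu.2])).2
  have e2 : (sg45 μ s d th o Q k T (cm45 G) m₂ φ v v₁ g₂).α₂ l = u - r := by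
    rw [hud, hr, hTF]
    rfl
  rw [e2]
  exact g1

/-! ### The leaf -/

/-- **THE SUCCESS OF SIDE F FROM THE PLACE.** -/
theorem lsU31 {μ : Measure ℝ} [IsProbabilityMeasure μ] {s c C : ℝ} {n₀ : ℕ} (h : In μ s c C n₀)
    (hE9 : ∀ᶠ n : ℕ in atTop, (n : ℝ) ^ (1 / 9 : ℝ) ≤ EE μ s n) (HP : LsP44 μ s c) (c₁ c₃ : ℝ) : LsU μ s c c₁ c₃ := by
  intro ell K0 hell hK0 d R th hd hd1 hR hth hth4 x hx ρ e hρ hρ1 he he1
  refine ⟨⌈32 / th⌉₊, fun K hK2 hK8 hKth B C₀ hB hC => ?_⟩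
  have hKth' : 32 ≤ th * K := by
    have h1 : 32 / th ≤ (K : ℝ) := (Nat.le_ceil _).trans (by exact_mod_cast hK2)
    rw [div_le_iff₀ hth] at h1
    linarith
  have hK1 : 1 ≤ K := by omega
  refine ⟨th / 128, 2 * (4 * 2 + 2 * C₀ ^ 2) + 8, by positivity, by linarith, by positivity,
    fun P A' a₁ g₁ n₁ hA' ha₁ hg₁ hg₁1 hn₁ hT => ?_⟩
  obtain ⟨Rr, hRr, A, hA, HI⟩ := ins44 h P hK8 hth hth4 hKth' (θ := th / 128) (Kw := 2 * (4 * 2 + 2 * C₀ ^ 2) + 8) (D := 2) (C₀ := C₀)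
    (by positivity) le_rfl (by norm_num) le_rfl
  obtain ⟨χ, hχ, HX⟩ := exists_chi60 (K := (K : ℝ)) (R := Rr) (by exact_mod_cast (show 0 < K by omega)) hRr
  have hKχ := HX χ hχ.le le_rfl
  obtain ⟨c₂, σ, ck, f, c0, B₀, ρP, pp, hc₂, hσ, hck, hf, hc0, hB₀, hρP, HP⟩ := HP ell K0 hell hK0 d th hd hd1 hth hth4 x hx P
  refine ⟨χ, hχ, fun U₀ qx Z m₀ kst hU₀ hqx hZ hm₀ hkst => ?_⟩
  obtain ⟨M, HG⟩ := plG58 h hE9 (R := R) (B := B) (C₀ := C₀) hth hth4 hd hd1 hρ hρ1 he he1 hK8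
  refine ⟨c0, 3 * (B₀ * (1 + 2 * A) ^ pp) + f, ck, 4 * pp, M, hc0, by positivity, hck, fun m₁ U hm₁ hm₁1 hU hqU => ?_⟩
  have hU0 : 0 ≤ U := by linarith
  obtain ⟨lam, hlam⟩ : ∃ l : ℝ, l = B₀ * (1 + A * (1 + U) ^ 4 + A * (1 + U) ^ 2) ^ pp := ⟨_, rfl⟩
  have hlam0 : 0 ≤ lam := by rw [hlam]; positivity
  obtain ⟨cst1, cst2⟩ := cost31 hA hB₀ hU0 hf pp
  rw [← hlam] at cst1 cst2
  obtain ⟨gs, hgs⟩ : ∃ g : ℝ, g = f + fC54 lam (3 * lam + f) := ⟨_, rfl⟩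
  have hgs0 : 0 ≤ gs := by
    rw [hgs]
    unfold fC54
    positivity
  obtain ⟨gU, HP⟩ := HP (A * (1 + U) ^ 4) (A * (1 + U) ^ 2) (by positivity) (by positivity) gs hgs0
  rw [← hlam] at HP
  have hU1 : (1 : ℝ) ≤ (1 + U) ^ (4 * pp) := one_le_pow₀ (by linarith)
  refine ⟨c0, lam, 3 * lam + f, gU, hc0, hlam0, by positivity, le_mul_of_one_le_right hc0 hU1, ?_, cst2, fun hTun g hg hgU o ho => ?_⟩
  · refine le_trans ?_ cst2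
    linarith
  obtain ⟨nT, hnT, hTun⟩ := hTun
  obtain ⟨PU, cδ, hcδ, HP⟩ := HP g hg hgU o ho
  refine ⟨PU, fun P₀ hPU hP₀ => ?_⟩
  obtain ⟨QU, SU, HP⟩ := HP P₀ hPU hP₀
  refine ⟨QU, SU, fun c₁₀ c₃₀ Q₀ S₀ k1 k2 k3 k4 k5 k6 k7 k8 => ⟨C₀ + max ρP 1 + 1, fun φ v hφ hv => ?_⟩⟩
  obtain ⟨vU, hvU⟩ : ∃ g : ℝ, g = gC54 (φ * (K : ℝ) ^ (m₀ + m₁)) (3 * lam) lam := ⟨_, rfl⟩
  obtain ⟨ge, hge⟩ : ∃ g : ℝ, g = max (5 * lam + vU + 2) (5 * lam + gs + 2) := ⟨_, rfl⟩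
  have hge1 : 5 * lam + vU + 2 ≤ ge := hge ▸ le_max_left _ _
  have hge2 : 5 * lam + gs + 2 ≤ ge := hge ▸ le_max_right _ _
  obtain ⟨KwU, gxU, G'U, HP⟩ := HP c₁₀ c₃₀ Q₀ S₀ k1 k2 k3 k4 k5 k6 k7 k8 ge (by linarith)
  have he₀ : 0 < ρ * e := mul_pos hρ he
  have hee : ρ * e ≤ e := mul_le_of_le_one_left he.le hρ1
  refine ⟨KwU, gxU, G'U, vU, min (ρ * e / 72) (ρ * e * cδ / 8), lt_min (by positivity) (by positivity), fun w hw hKw hgx hG' p hp => ?_⟩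
  obtain ⟨GU, KU, HP⟩ := HP w hw hKw hgx hG' p hp
  refine ⟨GU, KU, fun GX KX v₁ hGX hGU hKX hKU hv₁ hv1U kv hkv => ?_⟩
  obtain ⟨n₂, HP⟩ := HP GX KX hGX hGU hKX hKU
  have hR1 := R145_pos ho hp.Q
  obtain ⟨nI, hnI, HI⟩ := HI c₂ σ (R145 o p.Q) hc₂ hσ hR1
  obtain ⟨nF, hnF, HF⟩ := force31 h
  obtain ⟨nw, hnw⟩ := eventually_atTop.1 ((wd_tendsto h).eventually_ge_atTop 8)
  refine ⟨1, one_pos, fun c₂' hc₂' _ δ hδ _ => ⟨1, one_pos, fun κ hκ _ => ⟨32, by norm_num, fun Q h32 hQ n₁' hn₁' => ?_⟩⟩⟩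
  have ev : ∀ {y : ℝ}, 0 < y → ∀ M : ℝ, ∀ᶠ n : ℕ in atTop, M ≤ (n : ℝ) ^ y := fun hy M =>
    ((tendsto_rpow_atTop hy).comp tendsto_natCast_atTop_atTop).eventually_ge_atTop M
  filter_upwards [HG Z m₀ m₁ hm₁ (R145 o p.Q) hR1 (max ρP 1) (le_max_right _ _) kv (by linarith [hkv.w1]) hkv.wm
      (max (max nF nw) (max n₂ nT)) c₂' δ κ hδ.le Q h32 hQ,
    suc9_pcs46 h hE9 he₀ he1 (a := min (ρ * e / 72) (ρ * e * cδ / 8)) (lt_min (by positivity) (by positivity)) (min_le_left _ _)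
      (ℓ := lam) (f := f) (gX := gs) (phO := φ) (G := ge) (c0' := c0) hlam0 hf hφ hK1 (m₀ + m₁) hgs.ge (by rw [← hvU]; exact hge1) hge2,
    gridN8 (x := m₀ + m₁) he he1 he₀ hee (show 2 ≤ K by omega) hQ,
    num31 he₀ hcδ (min_le_right (ρ * e / 72) (ρ * e * cδ / 8)),
    ev (show (0 : ℝ) < ρ * e / 4 by positivity) nI, eventually_ge_atTop 2] with n HG key gN num hbig hn2
  intro G gw ν hν Γ hAd l hl2 hlm q₀ hq η hV hSo hFA hFB hFX hSp hRch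
  obtain ⟨hbT, hlm8, H⟩ := HG G gw ν hν Γ hAd l hl2 hlm q₀ hq η hV
  have nn1 : nF ≤ Tg (h8 Q (ρ * e) n) K l := ((le_max_left _ _).trans (le_max_left _ _)).trans hbT
  have nn2 : nw ≤ Tg (h8 Q (ρ * e) n) K l := ((le_max_right _ _).trans (le_max_left _ _)).trans hbT
  have nn3 : n₂ ≤ Tg (h8 Q (ρ * e) n) K l := ((le_max_left _ _).trans (le_max_right _ _)).trans hbT
  have nn4 : nT ≤ Tg (h8 Q (ρ * e) n) K l := ((le_max_right _ _).trans (le_max_right _ _)).trans hbT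
  have hw8 := hnw _ nn2
  have Pl := H rfl (cm := cm45 G) (fun j => rfl) (rad := fun _ => 0) (by
    push_cast
    have := mul_nonneg (show 0 ≤ d / 8 by positivity) (show 0 ≤ wd μ s (Tg (h8 Q (ρ * e) n) K l) by linarith)
    linarith) (m₂ := 0) (P := 0) (c₁ := 0) (c₃ := 0) (Q' := 0) (S' := 0) (φ := 0) (v := 0) (v₁ := 0) (g₂ := 0) rfl
  have geo : Geo58 μ s Γ G (Tg (h8 Q (ρ * e) n) K l) l q₀ (max ρP 1) := Pl.geo
  have tilt : 64 * (|Γ.h| * (Tg (h8 Q (ρ * e) n) K l : ℕ)) ≤ 1 := Pl.hh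
  have hd32 : 32 ∣ Tg (h8 Q (ρ * e) n) K l := Pl.T32
  have hz := geo.Tz
  have hp1 : ∀ k, k < Γ.M → Γ.p k = Real.exp (s + Γ.h) := fun k hk => by
    unfold Cx.p
    rw [if_pos hk, hAd.hs]
  have hp2 : ∀ k, Γ.M ≤ k → Γ.p k = Real.exp s := fun k hk => by
    unfold Cx.p
    rw [if_neg (not_lt.2 hk), hAd.hs]
  have hh0 : nI ≤ h8 Q (ρ * e) n := by exact_mod_cast hbig.trans gN.h1
  have hT0 : (n : ℝ) ^ (ρ * e / 4) ≤ (Tg (h8 Q (ρ * e) n) K l : ℕ) := by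
    have a1 := tge31 (h8 Q (ρ * e) n) K l hK1 (by omega)
    exact gN.h1.trans (by exact_mod_cast a1)
  have hT2 : ((Tg (h8 Q (ρ * e) n) K l : ℕ) : ℝ) ≤ 2 * (n : ℝ) ^ e := by
    have a1 := (Ge58.T_lt58 gN hK1 (by linarith) hn2 (show l ≤ m8 K e n + (m₀ + m₁) by omega)).1
    have a2 : (0 : ℝ) ≤ (n : ℝ) ^ e := by positivity
    linarith
  -- the inside
  obtain ⟨up, lo⟩ := HI U χ hU0 hχ.le hKχ gw hp1 hp2 hh0 hl2 (show l ≤ m8 K e n + (m₀ + m₁) by omega) hqx hqU hz hRch hSp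
    (HF _ _ nn1 tilt) (RB := p.Q * o.j1) (rb31 ho p.Q) _ _ _ rfl rfl rfl
  obtain ⟨na, ng, nb, n3, xa, xb, sc, da, db, ya, yb, za, zb, va, vb, xm, xn, ua, ub, d0, kc, k1, kg, ke, k2, δ', eR, eS, L, L0, A0, Aa,
    Am, A2, A3, hPc, hSp', r1, r2, r3, r4, s1, s2, s3, s4, s5, s6, s7⟩ := HP (Tg (h8 Q (ρ * e) n) K) (cm45 G) l (m₀ + m₁) (G.z l q₀) Γ.k
      Γ.h Γ.p Γ.M η φ v v₁ (kst / 8) nn3 hd32 hz hp1 hp2 (by linarith) (fun k y hk hy => geo.col k y hk (hy.trans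
        (mul_le_mul_of_nonneg_right (le_max_left _ _) (by linarith)))) hFA hFB hFX ⟨up, lo⟩
  obtain ⟨num1, num2⟩ := num _ hT0
  refine key (h8 Q (ρ * e) n) l (by omega) hT0 hT2 hSo hPc hSp' r1 r2 geo.hN
    (a2_31 (T := Tg (h8 Q (ρ * e) n) K) h geo (le_max_right _ _) hd hd1 hth hth4 hw8 ho hp.Q _ _ _ _ _ _) ?_ ?_ s1 ?_ ?_ (Real.exp_pos _).le
    (Real.exp_pos _).le (s2.trans num1) s4 s5 le_rfl s7 s6 le_rfl (hvU ▸ hv1U) le_rfl le_rfl (hTun _ _ (by omega) nn4)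
  · show _ ≤ D45 (Tg (h8 Q (ρ * e) n) K) l
    unfold D45
    have r4' : n145 th o p.Q (Tg (h8 Q (ρ * e) n) K) l + na + ng + 1 = Tg (h8 Q (ρ * e) n) K l + (5 * (Tg (h8 Q (ρ * e) n) K l / 8) +
      6 * (Tg (h8 Q (ρ * e) n) K l / 32)) := r4
    omega
  · show D45 (Tg (h8 Q (ρ * e) n) K) l + _ ≤ _
    unfold D45
    have r4' : n145 th o p.Q (Tg (h8 Q (ρ * e) n) K) l + na + ng + 1 = Tg (h8 Q (ρ * e) n) K l + (5 * (Tg (h8 Q (ρ * e) n) K l / 8) +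
      6 * (Tg (h8 Q (ρ * e) n) K l / 32)) := r4
    have r3' : nb = Tg (h8 Q (ρ * e) n) K l / 32 := r3
    omega
  · exact Real.one_le_exp (mul_nonneg hf (EE_pos _).le)
  · exact Real.one_le_exp (mul_nonneg hφ (EE_pos _).le)

end

end Pool.Agent.W_7d29a1_C1.U31
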