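import Pool.Agent.W_7d29a1_C1.ShlP45
import Pool.Agent.W_7d29a1_C1.FrV47
import Pool.Agent.W_7d29a1_C1.LsA5
import Pool.Agent.W_7d29a1_C1.GeoS58
import Pool.Agent.W_7d29a1_C1.NumW54

/-!
MP_7d29a1_pr, [C1] SHELL, SIDE F, (W): **THE LEAF `LsW` OF SIDE F** (helper5), over `frV47` (helper47) and `frP83` (helper83).
-/

set_option autoImplicit false

namespace Pool.Agent.W_7d29a1_C1.F45

open MeasureTheory Finset Filter Topology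
open Pool.Agent.W_7d29a1_F Pool.Agent.W_7d29a1_h4g Pool.Agent.W_7d29a1_H Pool.Agent.W_7d29a1_HS
open Pool.Agent.W_7d29a1_C1
open Pool.Agent.W_7d29a1_C1.T10
open Pool.Agent.W_7d29a1_C1.S83 (RowG)
open Pool.Agent.W_7d29a1_C1.B26
open Pool.Agent.W_7d29a1_C1.H8
open Pool.Agent.W_7d29a1_C1.H54
open Pool.Agent.W_7d29a1_C1.H60
open Pool.Agent.W_7d29a1_C1.Fr47
open Pool.Agent.W_7d29a1_C1.Ge58
open Pool.Agent.W_7d29a1_C1.JnC35 (ln35)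
open Pool.Agent.W_7d29a1_C1.U11 (ml11 frC11)
open Pool.Agent.W_7d29a1_C1.P24 (xv24)
open Pool.Agent.W_7d29a1_C1.D31 (kap31)
open Pool.Agent.W_7d29a1_C1.F74 (cl2)

noncomputable section

/-- The rows of a place. -/
theorem rows5 {th : ℝ} (h0 : 0 < th) (h1 : th ≤ 1 / 4) {R₁ : ℕ} (hR : 1 ≤ R₁) (nk : ℕ) : ∃ n₁ : ℕ, 1 ≤ n₁ ∧ ∀ T z : ℕ, n₁ ≤ T → T ≤ z →
    z - T + 1 + R₁ * kF th R₁ T ≤ z ∧ T ≤ 2 * (R₁ * kF th R₁ T) ∧ T ≤ 2 * (z + 5 * T / 8 - (z - T + 1 + R₁ * kF th R₁ T)) ∧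
    z + 5 * T / 8 - (z - T + 1 + R₁ * kF th R₁ T) ≤ T ∧ nk ≤ kF th R₁ T ∧ R₁ * kF th R₁ T + 1 ≤ T := by
  obtain ⟨n₁, hn₁, H⟩ := rowsF h0 h1 hR nk
  refine ⟨max n₁ (64 * R₁ + 64), hn₁.trans (le_max_left _ _), fun T z hT hTz => ?_⟩
  obtain ⟨a1, -, a3, -, a5, -⟩ := H T z ((le_max_left _ _).trans hT) hTz
  have hT2 := (le_max_right _ _).trans hT
  have hTpos : (0 : ℝ) ≤ T := Nat.cast_nonneg T
  have a3' : 16 * ((z - cF th R₁ z T : ℕ) : ℝ) ≤ T + 16 * R₁ := by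
    have h2 : th * T ≤ 1 / 4 * T := mul_le_mul_of_nonneg_right h1 hTpos
    linarith
  have a3'' : 16 * (z - cF th R₁ z T) ≤ T + 16 * R₁ := by exact_mod_cast a3'
  unfold cF at a1 a3''
  obtain ⟨k, hk⟩ : ∃ k, k = R₁ * kF th R₁ T := ⟨_, rfl⟩
  rw [← hk] at a1 a3'' ⊢
  refine ⟨a1, ?_, ?_, ?_, a5, ?_⟩ <;> omega

variable {μ : Measure ℝ}

/-- **(W).** -/
theorem lsW5 [IsProbabilityMeasure μ] {s c C : ℝ} {n₀ : ℕ} (hI : In μ s c C n₀)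
    (hE9 : ∀ᶠ n : ℕ in atTop, (n : ℝ) ^ (1 / 9 : ℝ) ≤ EE μ s n) (c₁ c₃ : ℝ) : LsW μ s c c₁ c₃ := by
  intro ell K0 hell hK0 d R th P' q' hd hd1 hR hth hth4 hq' x hx ρ e hρ hρ1 he he1
  have hc := hI.c0
  have he₀ : 0 < ρ * e := mul_pos hρ he
  have hee : ρ * e ≤ e := mul_le_of_le_one_left he.le hρ1
  obtain ⟨P₁, Qk, hQk, H⟩ := frV47 hI (d := d) (gg := d / 2) (e' := 1 / 8) hd hd1 (by linarith) (by norm_num) (by norm_num) P' (qI := q')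
    (u := 1) (D := 4) hq' zero_le_one (by norm_num) (PX := x.P) (dX := x.d) (U := x.U) (βX := 1) (qX := x.q) hx.d0
    (by have := hx.d1; linarith) hx.U hx.q
  obtain ⟨Lx, hLx, HP⟩ := frP83 hI (ell := ell + 2 * 1) (u := 1) (D₀ := 1 + 1) (Λ := 2) (be := c / 8) (by linarith) zero_le_one
    (by norm_num) (by norm_num) (by linarith)
  obtain ⟨ga, gc, hga, hgc, H⟩ := H Lx hLx
  obtain ⟨cc, Gx, -, hcc, hcc1, hcc2, hGx, nP, hnP, HP⟩ := HP P₁ (c / 32) (c / 524288) Qk 1 (by linarith) hQk zero_le_one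
  obtain ⟨J, nJ, HJ⟩ := hwoT58 hI
  refine ⟨0, fun K _ hK8 hKth B C₀ hB hC₀ Z m₀ kst hZ hm₀ hkst => ⟨ga / 5, 4 * (Gx + gc), cc, J, by positivity, hcc,
    fun m₁ hM hm₁ hTun g hg hgW o ho => ⟨max (max P₁ o.Pe) 1, fun P₀ hP₀ hP₀1 => ?_⟩⟩⟩
  obtain ⟨nT, hnT1, hTun⟩ := hTun
  obtain ⟨Qx, hQx, HP⟩ := HP o.Qe o.Pe P₀ ho.Qe (((le_max_left _ _).trans (le_max_left _ _)).trans hP₀)
    (((le_max_right _ _).trans (le_max_left _ _)).trans hP₀) hP₀1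
  refine ⟨Qx, 0, fun c₁₀ c₃₀ Q₀ S₀ hc₁₀ hc₁₀c hc₃₀ hc₃₀c hQ₀ hQxQ hS₀ _ => ⟨C₀ + (R + 3) + 1, fun φ v hφ hv => ?_⟩⟩
  obtain ⟨m₂, hm₂⟩ : ∃ m₂ : ℕ, m₂ = m₀ + m₁ := ⟨_, rfl⟩
  obtain ⟨go, G₀, g1, hgo, hG₀, hg1, H⟩ := H 2 (φ * (K : ℝ) ^ m₂) (v * (K : ℝ) ^ m₂) (2 * (c / 524288) * 2) (by norm_num) (by positivity)
    (by positivity) (by positivity)
  refine ⟨4 * (Gx + go + φ * (K : ℝ) ^ m₂), G₀, g1, fun w hw hG' p hp GX KX v₁ hGX hGXG hKX hv₁ hv₁g kv hkv => ⟨1, one_pos, ?_⟩⟩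
  obtain ⟨nV, hnV, H⟩ := H x.c' GX KX 1 hGXG
  obtain ⟨R₁, hR₁⟩ : ∃ R₁ : ℕ, R₁ = R145 o p.Q := ⟨_, rfl⟩
  have hR₁1 : 1 ≤ R₁ := by rw [hR₁]; exact R145_pos ho hp.Q
  obtain ⟨nR, hnR, HR⟩ := rows5 hth hth4 hR₁1 nP
  obtain ⟨nC, HC⟩ := frC11 hI hd
  obtain ⟨nX, HX⟩ := xv24 (μ := μ) (s := s) hI 1 2
  obtain ⟨nW, HW⟩ := eventually_atTop.1 ((wd_tendsto hI).eventually_ge_atTop (16 / d))
  rw [← hm₂] at hTun ⊢
  rw [← hR₁]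
  intro c₂ hc₂ hc₂s δ hδ hδc
  refine ⟨1, one_pos, fun κ hκ hκκ => ⟨32, by norm_num, fun Q hQ32 hQ1 n₁' hn₁' => ?_⟩⟩
  have ev : ∀ {y : ℝ}, 0 < y → ∀ M : ℝ, ∀ᶠ n : ℕ in atTop, M ≤ (n : ℝ) ^ y := fun hy M =>
    ((tendsto_rpow_atTop hy).comp tendsto_natCast_atTop_atTop).eventually_ge_atTop M
  filter_upwards [gridN8 (x := m₂) he he1 he₀ hee (by omega : 2 ≤ K) hQ1,
    tiltG58 hI hE9 (e := e) (e₀ := ρ * e) (kap := 1 / 16) (c := c₂) (δ := δ) (κ := κ) (K := K) (Q := Q) (x := m₂) he1 hδ.le (by norm_num) (by omega),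
    ev (show (0 : ℝ) < ρ * e / 4 by positivity) ((nJ + nT + nV + nR + nC + nX + nW : ℕ) : ℝ), eventually_ge_atTop 2] with n hg8 htilt hbig hn2
  intro G g8 ν hν Γ hA
  refine ⟨fun i q₀ => ⌊ln35 μ s (((G.z i q₀).1 : ℤ), xm G i q₀) (cF th R₁ (G.z i q₀).1 (Tg (h8 Q (ρ * e) n) K i))⌋, fun _ _ => 0, fun _ _ => 0,
    fun _ _ => 0, ?_⟩
  intro i hi2 him q₀ hq₀ ω hω ζ hζ hSo hFA hFB hFX c0 n' xc ec0 en' exc hFC hIn
  have g8' : GW μ s R B C₀ (h8 Q (ρ * e) n) K (m8 K e n + m₂) G := g8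
  have hν' : NB8 μ s (Tg (h8 Q (ρ * e) n) K) m₂ kv ν := hν
  have hi1 : 1 ≤ i := by omega
  have hi8 : i < m8 K e n := lt_of_lt_of_le him (Nat.div_le_self _ _)
  have hK1 : 1 ≤ K := by omega
  -- the scale
  have hh₀ : nJ + nT + nV + nR + nC + nX + nW ≤ h8 Q (ρ * e) n := by exact_mod_cast hbig.trans hg8.h1
  have hhT : h8 Q (ρ * e) n ≤ Tg (h8 Q (ρ * e) n) K i := by
    rw [Tg_pos hi1]
    exact (Nat.le_mul_of_pos_left _ (by omega)).trans (Nat.le_mul_of_pos_right _ (Nat.one_le_pow _ _ hK1))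
  obtain ⟨T, hTe⟩ : ∃ T : ℕ, T = Tg (h8 Q (ρ * e) n) K i := ⟨_, rfl⟩
  have hnT : nJ + nT + nV + nR + nC + nX + nW ≤ T := by rw [hTe]; exact hh₀.trans hhT
  have hTz : T ≤ (G.z i q₀).1 := by rw [hTe]; exact hSo.1
  have hT32 : 32 ∣ T := by rw [hTe]; exact Tg_dvd (hQ32.trans (Dvd.intro _ rfl)) K i
  have hW16 := HW T (by omega)
  have hdw : 16 ≤ d * wd μ s T := by
    rw [div_le_iff₀ hd] at hW16
    linarith
  have hw16 : 16 ≤ wd μ s T := hdw.trans (mul_le_of_le_one_left (hI.wd_nonneg T) hd1)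
  obtain ⟨r1, r2, r3, r4, r5, r6⟩ := HR T (G.z i q₀).1 (by omega) hTz
  have hgeo : Geo58 μ s Γ G T i q₀ (R + 3) := by
    rw [hTe]
    exact geoS58 hI g8' hg8 (by linarith) hn2 le_rfl hν' (u := kv.u) (ω := ω)
      (by rw [V8_base g8'.ok (by rw [hν'.em]; omega)]; exact hω) hq₀ hi1
      (by omega) (by linarith) (HJ _ K i m₂ (by omega) hi1 (by omega) (by rw [← hTe]; omega)) (by have := hkv.w1; linarith)
      (by have := hkv.wm; linarith)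
  -- the letters
  obtain ⟨Tf, hTf⟩ : ∃ Tf : ℕ → ℕ, Tf = Tg (h8 Q (ρ * e) n) K := ⟨_, rfl⟩
  obtain ⟨r, A, hMO⟩ := hFA
  obtain ⟨σ, hσ⟩ : ∃ σ : NS47, σ = sg45 μ s d th o p.Q ⟨P₀, c₁₀, c₃₀, Q₀, S₀⟩ (Tg (h8 Q (ρ * e) n) K) (cm45 G) m₂ φ v v₁ (kst / 8) := ⟨_, rfl⟩
  rw [← hσ] at hSo
  have eT : σ.T i = T := by rw [hσ, hTe]; rfl
  have e0 : σ.c0 i (G.z i q₀) = (G.z i q₀).1 - T + 1 := by unfold NS47.c0; rw [eT]
  have e3 : σ.c3 i (G.z i q₀) = (G.z i q₀).1 + T + 1 := by unfold NS47.c3; rw [eT]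
  have eΦ : σ.Φ i = Real.exp (φ * EE μ s (Tg (h8 Q (ρ * e) n) K (i + m₂))) := by rw [hσ]; rfl
  have eV : σ.V i = Real.exp (v * EE μ s (Tg (h8 Q (ρ * e) n) K (i + m₂))) := by rw [hσ]; rfl
  have e1 : σ.e1 i = Real.exp (-(v₁ * EE μ s (Tg (h8 Q (ρ * e) n) K (i + m₂)))) := by rw [hσ]; rfl
  have e2 : σ.e2 i = Real.exp (-(kst / 8 * EE μ s (Tg (h8 Q (ρ * e) n) K (i + m₂)))) := by rw [hσ]; rfl
  have eκ : σ.κ i = kap31 P₀ c₁₀ c₃₀ Q₀ S₀ (EE μ s T) (wd μ s T) ((cm45 G i : ℝ) + sl μ s * (1 - (T : ℝ)))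
      ((cm45 G i : ℝ) + sl μ s * (1 + (T : ℝ))) (2 * T) := by
    rw [hσ, hTe, add_comm (1 : ℝ)]
    rfl
  have ezc : |(((G.z i q₀).2 + σ.ζc i : ℤ) : ℝ) - ln35 μ s (((G.z i q₀).1 : ℤ), xm G i q₀) ((G.z i q₀).1 + T + 1)| ≤ 1 := by
    rw [← e3, hσ]
    exact zc8_near
  have ewin : ∀ u : ℤ, |(u : ℝ) - ln35 μ s (((G.z i q₀).1 : ℤ), xm G i q₀) ((G.z i q₀).1 + T + 1)| ≤ wd μ s T / 128 →
      (G.z i q₀).2 + σ.ζa i ≤ u ∧ u ≤ (G.z i q₀).2 + σ.ζb i := fun u hu => by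
    rw [← e3, hTe, hσ] at hu
    rw [hσ]
    refine mem_win8 (hu.trans ?_)
    have := hI.wd_nonneg (Tg (h8 Q (ρ * e) n) K i)
    linarith
  -- the blocks
  obtain ⟨TF, hTF⟩ : ∃ TF : ℕ, TF = TF45 th o p.Q (Tg (h8 Q (ρ * e) n) K) i := ⟨_, rfl⟩
  obtain ⟨n1, hn1⟩ : ∃ n1 : ℕ, n1 = nM45 th o p.Q (Tg (h8 Q (ρ * e) n) K) i + TF := ⟨_, rfl⟩
  have hn1' : n1 = R₁ * kF th R₁ T := by
    rw [hn1, hTF, nMTF45, ← hR₁, ← hTe]
  obtain ⟨kk, hkk⟩ : ∃ kk : ℕ, kk = kF th R₁ T := ⟨_, rfl⟩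
  rw [← hkk] at r1 r2 r3 r4 r5 r6 hn1'
  have eTF : TF = p.Q * (o.j1 * o.j2) * kk := by
    rw [hTF, hkk, hR₁, hTe]
    rfl
  have enM : nM45 th o p.Q (Tg (h8 Q (ρ * e) n) K) i = p.Q * (o.a * o.j2) * kk := by
    rw [hkk, hR₁, hTe]
    rfl
  have hjj : 1 ≤ p.Q * (o.j1 * o.j2) := Nat.mul_pos hp.Q (Nat.mul_pos ho.j1 ho.j2)
  have hTFk : kk ≤ TF := by rw [eTF]; exact Nat.le_mul_of_pos_left _ hjj
  have hnMT : nM45 th o p.Q (Tg (h8 Q (ρ * e) n) K) i ≤ TF := by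
    rw [enM, eTF]
    exact Nat.mul_le_mul_right _ (Nat.mul_le_mul_left _ (Nat.mul_le_mul_right _ ho.aj))
  have hTF1 : nP ≤ TF := r5.trans hTFk
  have hTFT : TF ≤ T := by omega
  have hTTF : T ≤ 4 * TF := by omega
  have hwF : wd μ s TF ≤ 2 * wd μ s T := U16.wd_le_two hI (hnP.trans hTF1) hTFT
  -- the lanes
  have hLN : LN83 μ s c ζ (((G.z i q₀).1 : ℤ), xm G i q₀) ((G.z i q₀).1 - T + 1) n1 T TF (cl83 σ i (G.z i q₀))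
      (fun b => ic83 (t45 μ s d th o p.Q (Tg (h8 Q (ρ * e) n) K) (cm45 G) i b + (G.z i q₀).2) r)
      (fun b => t45 μ s d th o p.Q (Tg (h8 Q (ρ * e) n) K) (cm45 G) i b + (G.z i q₀).2) (fun b => ml11 d b * wd μ s T)
      (ell + 2 * 1) 1 (1 + 1) 2 (c / 8) g w.G' o.Qe o.Pe A r := by
    have h1 := ln5 (μ := μ) (s := s) (d := d) (th := th) (o := o) (Q := p.Q) (k := ⟨P₀, c₁₀, c₃₀, Q₀, S₀⟩) (T := Tg (h8 Q (ρ * e) n) K)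
      (cm := cm45 G) (m₂ := m₂) (φ := φ) (v := v) (v₁ := v₁) (g₂ := kst / 8) (j := i) (z := G.z i q₀) (c := c) (K0 := K0) (ell := ell) (g := g)
      (G' := w.G') (r := r) (A := A) (ζ := ζ) hc.le hd hd1 ho (by rw [← hTe]; exact hTz) (by rw [← hTe]; linarith)
      (by rw [← hTe, ← hTF]; exact hwF) hMO
    rw [← hσ, ← hTe, ← hTF, ← hn1] at h1
    exact h1
  obtain ⟨Db, hDb⟩ : ∃ Db : Bool → Finset ℤ, Db = fun b => ic83 (t45 μ s d th o p.Q (Tg (h8 Q (ρ * e) n) K) (cm45 G) i b + (G.z i q₀).2) r :=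
    ⟨_, rfl⟩
  obtain ⟨t', ht'⟩ : ∃ t' : Bool → ℤ, t' = fun b => t45 μ s d th o p.Q (Tg (h8 Q (ρ * e) n) K) (cm45 G) i b + (G.z i q₀).2 := ⟨_, rfl⟩
  rw [← hDb, ← ht'] at hLN
  have hr8 : r ≤ d / 8 * wd μ s T := by
    have h1 : o.th ≤ d / 16 := ho.th1
    have h2 := hMO.r1
    rw [← hTF] at h2
    have h3 : o.th * wd μ s TF ≤ d / 16 * wd μ s TF := mul_le_mul_of_nonneg_right h1 (hI.wd_nonneg TF)
    have h4 : d / 16 * wd μ s TF ≤ d / 16 * (2 * wd μ s T) := mul_le_mul_of_nonneg_left hwF (by positivity)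
    linarith
  have en2 : (G.z i q₀).1 - T + 1 + n1 + n' = (G.z i q₀).1 + 5 * T / 8 := by
    rw [en', ec0, ← hTe]
    unfold cF
    rw [← hkk, ← hn1']
    omega
  have ec0' : c0 = (G.z i q₀).1 - T + 1 + n1 := by
    rw [ec0, ← hTe]
    unfold cF
    rw [← hkk, ← hn1']
  have hn'e : n' = (G.z i q₀).1 + 5 * T / 8 - ((G.z i q₀).1 - T + 1 + n1) := by omega
  rw [← hn1', ← hn'e] at r3 r4
  rw [← hn1'] at r1 r2 r6
  obtain ⟨f1, f2, f3, f4, f5, f6, f7, f8⟩ := HC T (by omega) (((G.z i q₀).1 : ℤ), xm G i q₀) ((G.z i q₀).1 - T + 1) n1 n'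
    (fun b => u45 μ s d (Tg (h8 Q (ρ * e) n) K) (cm45 G) i b + (G.z i q₀).2) t' Db r2 r3
    (fun b => by
      have h1 := uN5 (μ := μ) (s := s) (d := d) (T := Tg (h8 Q (ρ * e) n) K) (cm := cm45 G) (j := i) (z := G.z i q₀) (by rw [← hTe]; exact hTz) b
      rw [← hTe] at h1
      exact h1)
    (fun b => hLN.tt b) (fun b y hy => (hLN.dD b y hy).trans hr8)
  -- the numbers
  have hEo := hTun (h8 Q (ρ * e) n) i hi1 (by rw [← hTe]; omega)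
  rw [← hTe] at hEo
  have sΦ : σ.Φ i ≤ Real.exp (φ * (K : ℝ) ^ m₂ * EE μ s T) := by
    rw [hTe]
    exact upE54 hI hK1 hi1 hφ (by rw [eΦ])
  have sV : σ.V i ≤ Real.exp (v * (K : ℝ) ^ m₂ * EE μ s T) := by
    rw [hTe]
    exact upE54 hI hK1 hi1 hv (by rw [eV])
  have hE0 : 0 ≤ EE μ s T := (EE_pos (μ := μ) (s := s) T).le
  have hEo0 : 0 ≤ EE μ s (Tg (h8 Q (ρ * e) n) K (i + m₂)) := (EE_pos (μ := μ) (s := s) _).le
  have s1 : σ.e1 i ≤ Real.exp (-(g1 * EE μ s T)) := by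
    rw [e1, hTe]
    refine dnE54 (h₀ := h8 Q (ρ * e) n) (K := K) (t := i) (m₂ := m₂) hK1 hg1 (Real.exp_le_exp.2 ?_)
    have := mul_le_mul_of_nonneg_right hv₁g hEo0
    linarith
  have s2 : σ.e2 i ≤ Real.exp (-(ga * EE μ s T)) := by
    rw [e2]
    refine Real.exp_le_exp.2 ?_
    linarith
  have hΦ1 : 1 ≤ σ.Φ i := by rw [eΦ]; exact Real.one_le_exp (by positivity)
  have hV1 : 1 ≤ σ.V i := by rw [eV]; exact Real.one_le_exp (by positivity)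
  have hhT16 : |Γ.h| * (T : ℝ) ≤ 1 / 16 := by
    rw [hTe]
    exact htilt Γ hA hg8 i (by omega)
  -- the geometry
  have hcN := hgeo.hN
  have hin : ∀ (k : ℕ) (x : ℤ), (G.z i q₀).1 - T ≤ k → k ≤ (G.z i q₀).1 + T + 1 →
      |(x : ℝ) - ln35 μ s (((G.z i q₀).1 : ℤ), xm G i q₀) k| ≤ (R + 3) * wd μ s T → 0 ≤ x ∧ x ≤ Γ.k + k ∧ x ≤ Γ.hi := fun k x h1 h2 h3 => by
    obtain ⟨a1, a2⟩ := hgeo.col k x (by omega) h3
    unfold Cx.hi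
    exact ⟨a1, by omega, by omega⟩
  have hw2 : 2 * wd μ s T ≤ (R + 3) * wd μ s T := mul_le_mul_of_nonneg_right (by linarith) (hI.wd_nonneg T)
  have hrow : (G.z i q₀).1 - T + 1 + n1 + n' + (6 * (T / 32) + 6 * (T / 32) + 1) = (G.z i q₀).1 + T + 1 := by omega
  have hcell : ∀ b, ∀ y ∈ cl83 σ i (G.z i q₀) b, 0 ≤ y ∧ y ≤ Γ.k + ((G.z i q₀).1 - T + 1 : ℕ) := fun b y hy => by
    obtain ⟨a1, a2, -⟩ := hin _ y (by omega) (by omega) ((hLN.cC b y hy).trans hw2)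
    exact ⟨a1, a2⟩
  have hαβ1 : σ.α₁ i ≤ σ.β₁ i := by
    rw [hσ]
    show u45 μ s d (Tg (h8 Q (ρ * e) n) K) (cm45 G) i false - ((⌊o.th * wd μ s (TF45 th o p.Q (Tg (h8 Q (ρ * e) n) K) i)⌋₊ : ℕ) : ℤ) ≤
      u45 μ s d (Tg (h8 Q (ρ * e) n) K) (cm45 G) i false + ((⌊o.th * wd μ s (TF45 th o p.Q (Tg (h8 Q (ρ * e) n) K) i)⌋₊ : ℕ) : ℤ)
    omega
  have hαβ2 : σ.α₂ i ≤ σ.β₂ i := by
    rw [hσ]
    show u45 μ s d (Tg (h8 Q (ρ * e) n) K) (cm45 G) i true - ((⌊o.th * wd μ s (TF45 th o p.Q (Tg (h8 Q (ρ * e) n) K) i)⌋₊ : ℕ) : ℤ) ≤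
      u45 μ s d (Tg (h8 Q (ρ * e) n) K) (cm45 G) i true + ((⌊o.th * wd μ s (TF45 th o p.Q (Tg (h8 Q (ρ * e) n) K) i)⌋₊ : ℕ) : ℤ)
    omega
  have hβα : σ.β₁ i < σ.α₂ i := by
    have g1 : (σ.β₁ i : ℝ) < σ.α₂ i := by
      have h1 := uc8_sep (μ := μ) (s := s) d (wd μ s (Tg (h8 Q (ρ * e) n) K i)) (cm45 G i) (1 - (Tg (h8 Q (ρ * e) n) K i : ℤ))
      have h2 : ((⌊o.th * wd μ s TF⌋₊ : ℕ) : ℝ) ≤ d / 8 * wd μ s T := by
        have h3 : o.th ≤ d / 16 := ho.th1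
        have h4 := hI.wd_nonneg TF
        refine (Nat.floor_le (mul_nonneg ho.th0.le h4)).trans ?_
        have h5 : o.th * wd μ s TF ≤ d / 16 * wd μ s TF := mul_le_mul_of_nonneg_right h3 h4
        have h6 : d / 16 * wd μ s TF ≤ d / 16 * (2 * wd μ s T) := mul_le_mul_of_nonneg_left hwF (by positivity)
        linarith
      rw [hTF] at h2
      rw [hσ]
      show ((uc8 μ s d (wd μ s (Tg (h8 Q (ρ * e) n) K i)) (cm45 G i) (1 - (Tg (h8 Q (ρ * e) n) K i : ℤ)) false +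
        ((⌊o.th * wd μ s (TF45 th o p.Q (Tg (h8 Q (ρ * e) n) K) i)⌋₊ : ℕ) : ℤ) : ℤ) : ℝ) <
        ((uc8 μ s d (wd μ s (Tg (h8 Q (ρ * e) n) K i)) (cm45 G i) (1 - (Tg (h8 Q (ρ * e) n) K i : ℤ)) true -
        ((⌊o.th * wd μ s (TF45 th o p.Q (Tg (h8 Q (ρ * e) n) K) i)⌋₊ : ℕ) : ℤ) : ℤ) : ℝ)
      rw [← hTe] at h1 ⊢
      push_cast
      linarith
    exact_mod_cast g1
  have hex : (xm G i q₀ : ℝ) = (G.z i q₀).2 + (cm45 G i : ℝ) := by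
    show (((G.z i q₀).2 + (G.V i : ℤ) / 2 : ℤ) : ℝ) = (G.z i q₀).2 + (((G.V i : ℤ) / 2 : ℤ) : ℝ)
    push_cast
    ring
  have hζc := hin _ _ (by omega) le_rfl (ezc.trans (by linarith : (1 : ℝ) ≤ (R + 3) * wd μ s T))
  have hκ' : σ.κ i = kap31 P₀ c₁₀ c₃₀ Q₀ S₀ (EE μ s (σ.T i)) (wd μ s (σ.T i)) ((cm45 G i : ℝ) + sl μ s * (1 - σ.T i))
      ((cm45 G i : ℝ) + sl μ s * (1 + σ.T i)) (2 * σ.T i) := by rw [eT]; exact eκ
  -- the seam of the lanes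
  have hP := HP (Γ := Γ) (η := ζ) (σ := σ) (j := i) (z := G.z i q₀) (x₀ := xm G i q₀) (TF := TF) (n' := n1) (n := n')
    (m := 6 * (T / 32) + 6 * (T / 32)) (Db := Db) (t := t') (τ := fun b => ml11 d b * wd μ s T) (ρ := (cm45 G i : ℝ)) (A := A) (r := r)
    (g := g) (G' := w.G') (c₁' := c₁₀) (c₃' := c₃₀) (Q₀ := Q₀) (S₀ := S₀) (Mh := Real.exp (2 * (c / 524288) * 2 * EE μ s (σ.T i)))
    (εc := Real.exp ((Gx - g / 4) * EE μ s (σ.T i))) (εo := Real.exp ((Gx - w.G' / 4) * EE μ s (σ.T i)) * σ.Φ i)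
    hTF1 (by rw [eT]; exact hTFT) (by rw [eT]; exact hTTF) hA.hs (by
      rw [eT]
      push_cast
      linarith [show |Γ.h| * (2 * (T : ℝ)) = 2 * (|Γ.h| * (T : ℝ)) by ring]) hSo (by rw [e3]; exact hcN) (by rw [e0, e3]; exact hrow)
    hex hκ' (by linarith) hc₃₀.le hc₃₀c hQxQ hS₀ hg hw.G' (by rw [e0, eT]; exact hLN)
    (hcell false _ (mem_Icc.2 ⟨le_rfl, by linarith⟩)).1 (hcell true _ (mem_Icc.2 ⟨le_rfl, by linarith⟩)).1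
    (by rw [e0]; exact (hcell false _ (mem_Icc.2 ⟨by linarith, le_rfl⟩)).2) (by rw [e0]; exact (hcell true _ (mem_Icc.2 ⟨by linarith, le_rfl⟩)).2)
    hβα (fun b y hy => by
      obtain ⟨a1, -, a3⟩ := hin _ y (by omega) (by omega) ((hLN.cD b y hy).trans hw2)
      exact mem_Icc.2 ⟨a1, a3⟩)
    (disjoint_left.2 fun y hy hy' => absurd (f1 y hy y hy') (lt_irrefl y))
    (fun b y hy => HX T (by omega) (n' + (6 * (T / 32) + 6 * (T / 32) + 1)) (by omega) (((G.z i q₀).1 : ℤ), xm G i q₀)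
      ((G.z i q₀).1 - T + 1 + n1) y _ (hLN.cD b y hy) (by
        rw [← add_assoc, hrow]
        refine ezc.trans ?_
        linarith))
    hζc.1 hζc.2.2 (by rw [e3, eT]; exact ezc.trans (by linarith)) le_rfl le_rfl le_rfl
  rw [k0_lit83 (μ := μ) (s := s) (by rw [eT]; exact hTz) hex hκ', e0, e3, eT] at hP
  obtain ⟨zb, hzb, hRow⟩ := hLN.rb
  refine H g8' hi1 (by omega) hTe (by omega) hT32 rfl hA.ok hA.hs hhT16 (ρ := R + 3) ⟨fun k x h1 h2 h3 => ?_, hcN⟩ (by linarith) (by linarith)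
    (by linarith) (S := S8 e K n G Γ) (Sc_fib g8'.ok (by omega) (by omega) hq₀) (n' := n1) (n := n') (m := 6 * (T / 32) + 6 * (T / 32)) rfl
    r2 r3 r4 r1 en2 hSo eT hΦ1 hV1 sΦ sV (by rw [e1]; exact (Real.exp_pos _).le) s1 (by rw [e2]; exact (Real.exp_pos _).le) s2
    (P₀ := P₀) (c₁₀ := c₁₀) (c₃₀ := c₃₀) (Q₀ := Q₀) (S₀ := S₀) hc₃₀.le (by linarith) hQ₀ hS₀ (fun x v => ?_) ewin
    (u₀ := fun b => u45 μ s d (Tg (h8 Q (ρ * e) n) K) (cm45 G) i b + (G.z i q₀).2) (fun b => ?_) (fun b => ?_) (D₁ := Db false) (D₂ := Db true)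
    f3 f4 ⟨t' false, mem_union_left _ (hLN.tD false)⟩ le_rfl ?_ ?_ hP (TF := TF) (nB := 1) (TB := T)
    (a := ⌊ln35 μ s (((G.z i q₀).1 : ℤ), xm G i q₀) (cF th R₁ (G.z i q₀).1 (Tg (h8 Q (ρ * e) n) K i))⌋) (aB := 0) (zB := 0) (z' := 0) (zr := zb)
    (uI := 1) (by omega) hTFT hTTF ?_ ?_ hRow ?_ ?_ ?_
  · -- the window
    obtain ⟨a1, a2, -⟩ := hin k x h1 h2 h3
    exact ⟨a1, a2⟩
  · -- the envelope of `So47`
    rw [k0_lit83 (μ := μ) (s := s) (by rw [eT]; exact hTz) hex hκ', e0, e3, eT]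
  · -- the cells of the row `c₀`
    rw [hσ]
    unfold sg45
    refine mem_cl8.2 ⟨b, ?_⟩
    rw [show u45 μ s d (Tg (h8 Q (ρ * e) n) K) (cm45 G) i b + (G.z i q₀).2 - ((G.z i q₀).2 + u45 μ s d (Tg (h8 Q (ρ * e) n) K) (cm45 G) i b) = 0 by
      ring, abs_zero]
    exact Int.natCast_nonneg _
  · exact (f5 b).trans (mul_le_mul_of_nonneg_right (by linarith) (hI.wd_nonneg T))
  · refine Real.exp_le_exp.2 ?_
    have h1 : (Gx - g / 4) * EE μ s T ≤ (-gc) * EE μ s T := mul_le_mul_of_nonneg_right (by linarith) hE0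
    linarith
  · refine (mul_le_mul_of_nonneg_left sΦ (Real.exp_pos _).le).trans ?_
    rw [← Real.exp_add]
    refine Real.exp_le_exp.2 ?_
    have h1 : (Gx - w.G' / 4 + φ * (K : ℝ) ^ m₂) * EE μ s T ≤ (-go) * EE μ s T := mul_le_mul_of_nonneg_right (by linarith) hE0
    linarith
  · -- the inside
    rw [ec0', ← hTe] at hFC
    exact hFC
  · have h1 := Int.floor_le (ln35 μ s (((G.z i q₀).1 : ℤ), xm G i q₀) (cF th R₁ (G.z i q₀).1 (Tg (h8 Q (ρ * e) n) K i)))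
    have h2 := Int.lt_floor_add_one (ln35 μ s (((G.z i q₀).1 : ℤ), xm G i q₀) (cF th R₁ (G.z i q₀).1 (Tg (h8 Q (ρ * e) n) K i)))
    have h3 : cF th R₁ (G.z i q₀).1 (Tg (h8 Q (ρ * e) n) K i) = (G.z i q₀).1 - T + 1 + n1 := ec0.symm.trans ec0'
    rw [h3] at h1 h2 ⊢
    rw [abs_le]
    constructor <;> linarith
  · refine hzb.trans ?_
    linarith
  · -- the exit
    rw [hTe]
    exact hFX
  · -- the law of the inside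
    have h1 : xc = ln35 μ s (((G.z i q₀).1 : ℤ), xm G i q₀) ((G.z i q₀).1 - T + 1 + n1) := by
      rw [exc, ← ec0']
      unfold ln35
      push_cast
      ring
    rw [← h1, ← ec0', hTe]
    exact hIn

end

end Pool.Agent.W_7d29a1_C1.F45
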