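import Pool.Agent.W_7d29a1_C1.LucP30

/-!
MP_7d29a1_pr, [C1] SEP, the LANE BLOCK: THE CONTENT PART OF THE LUCK. (helper30)

`Lk30` = all lanes of lane A are lucky: an event of the sites of the window only (`off_Lk30`), measurable, it contains the lucky block
(`BL30_sub`) for EVERY outside, and it is rare (`lk_prob30`): `≤ ε` as soon as the luck `L` is above a typical level `U(ε)`. So `Lv` may be
taken without it and `Disjoint Lv L` is trivial.
-/

set_option autoImplicit false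

namespace Pool.Agent.W_7d29a1_C1.Luc30

open MeasureTheory ProbabilityTheory Filter Topology
open Pool.Agent.W_7d29a1_F Pool.Agent.W_7d29a1_h4g Pool.Agent.W_7d29a1_H Pool.Agent.W_7d29a1_HS
open Pool.Agent.W_7d29a1_C1
open Pool.Agent.W_7d29a1_C1.S71
open Pool.Agent.W_7d29a1_C1.BP58
open Pool.Agent.W_7d29a1_C1.H75

noncomputable section

variable {μ : Measure ℝ} {s c C : ℝ} {n₀ : ℕ} {ι : Type}

/-- The content part of the luck of a lane block with base `b0`. -/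
def Lk30 (μ : Measure ℝ) (s : ℝ) (b0 : Pt) (a e : ι → ℤ) (T : ℕ) (δ L : ℝ) : Set Env := at20 b0 (LN58 μ s a e T δ L)

theorem meas_Lk30 [Countable ι] (b0 : Pt) (a e : ι → ℤ) (T : ℕ) (δ L : ℝ) : MeasurableSet (Lk30 μ s b0 a e T δ L) :=
  meas_at20 b0 (meas_LN58 a e _ _ _)

/-- The lucky block is inside, whatever the outside. -/
theorem BL30_sub {a e : ι → ℤ} {N n : ℕ} {δ Kb Kh U0 L Kp U1 ρ Y : ℝ} {b0 b2 : Pt} {MM LB : Set Env} :
    BL30 b0 b2 (LC30 μ s c a e N n δ Kb Kh U0 L Kp U1 ρ Y) MM LB ⊆ Lk30 μ s b0 a e (N * n) δ L := fun _ hη => hη.1.1.1.1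

/-- Only the sites of the window matter. -/
theorem off_Lk30 {a e : ι → ℤ} {T : ℕ} (hT : 1 ≤ T) {δ L Kb K : ℝ} (ha : ∀ j, |(a j : ℝ)| ≤ K * wd μ s T)
    (he : ∀ j, |(e j : ℝ) - sl μ s * T| ≤ K * wd μ s T) (hK : K * wd μ s T + δ / 32 * wd μ s T ≤ Kb * wd μ s T) {b0 : Pt} {B : Set Pt}
    (hB : ∀ p ∈ B58 μ s T Kb, p + b0 ∈ B) : Off Bᶜ (Lk30 μ s b0 a e T δ L) := fun η η' hh => by
  show sh b0 η ∈ LN58 μ s a e T δ L ↔ sh b0 η' ∈ LN58 μ s a e T δ L
  refine off_LN58_B hT ha he hK _ _ fun p hp => ?_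
  exact hh (p + b0) (Set.notMem_compl_iff.2 (hB p (Set.notMem_compl_iff.1 hp)))

/-- Only the rows of the slab matter. -/
theorem on_Lk30 (a e : ι → ℤ) (T : ℕ) (δ L : ℝ) (b0 : Pt) : On20 (rows b0.1 (b0.1 + T)) (Lk30 μ s b0 a e T δ L) := by
  refine on_at20' b0 ?_
  unfold LN58
  exact On20.iInter fun j η η' hh => dep_LN20 (μ := μ) (s := s) a e T _ _ j η η' fun q hq => hh q ⟨hq.1, hq.2.1⟩

/-- **Luck is rare.** -/
theorem lk_prob30 [IsProbabilityMeasure μ] (h : In μ s c C n₀) {K ε : ℝ} (hK : 0 ≤ K) (hε : 0 < ε) : ∃ U : ℝ, 0 < U ∧ ∃ n₁ : ℕ,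
    ∀ T : ℕ, n₁ ≤ T → ∀ (ι : Type) [Countable ι] (a e : ι → ℤ) (j : ι) (b0 : Pt) (δ L : ℝ), |(a j : ℝ)| ≤ K * wd μ s T → U < L →
      (law μ).real (Lk30 μ s b0 a e T δ L) ≤ ε := by
  have hp := isProb58 (μ := μ)
  obtain ⟨U, hU, n1, H⟩ := h0_num58 (μ := μ) (s := s) h (D := K) hK hε
  obtain ⟨n2, hn2⟩ := eventually_atTop.1 ((wd_tendsto h).eventually_ge_atTop 1)
  refine ⟨U, hU, max n1 n2, fun T hT ι _ a e j b0 δ L ha hL => ?_⟩
  have hw := hn2 T ((le_max_right _ _).trans hT)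
  have hE := EE_pos (μ := μ) (s := s) T
  have k1 := H T ((le_max_left _ _).trans hT) Set.univ (K * wd μ s T) (by positivity) (by linarith)
  have sub : LN58 μ s a e T δ L ⊆ (PW69 μ s Set.univ (hc μ s c T) T T (K * wd μ s T) (U * EE μ s T))ᶜ := by
    intro η hη hη'
    have h1 : η ∈ LN20 μ s a e T (δ / 32 * wd μ s T) (L * EE μ s T) j := Set.mem_iInter.1 hη j
    have h2 : Real.exp (L * EE μ s T) ≤
        WR μ s (T71.Tb ((0 : ℤ), a j) T (e j - a j) (δ / 32 * wd μ s T)) η ((0 : ℤ), a j) T (e j - a j) := h1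
    have h3 := (hη' 0 T (a j) (by omega) le_rfl (by
      rw [Nat.cast_zero, mul_zero, sub_zero]
      exact ha)).2 (e j - a j)
    have h4 := Pool.Agent.W_7d29a1_HL.WR_mono' (μ := μ) (s := s)
      (Set.subset_univ (T71.Tb ((0 : ℤ), a j) T (e j - a j) (δ / 32 * wd μ s T))) η ((0 : ℤ), a j) T (e j - a j)
    have h5 : Real.exp (U * EE μ s T - hc μ s c T * |((e j - a j : ℤ) : ℝ) - sl μ s * T|) ≤ Real.exp (U * EE μ s T) := by
      refine Real.exp_le_exp.2 ?_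
      have h6 : 0 ≤ hc μ s c T := by
        unfold hc
        have := h.c0
        positivity
      have := mul_nonneg h6 (abs_nonneg (((e j - a j : ℤ) : ℝ) - sl μ s * T))
      linarith
    have h7 : Real.exp (U * EE μ s T) < Real.exp (L * EE μ s T) := Real.exp_lt_exp.2 (mul_lt_mul_of_pos_right hL hE)
    have h8 : Real.exp (L * EE μ s T) ≤ Real.exp (U * EE μ s T) := h2.trans (h4.trans (h3.trans h5))
    linarith
  unfold Lk30
  rw [real_at20 b0 (meas_LN58 a e _ _ _)]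
  exact (measureReal_mono sub).trans k1

end

end Pool.Agent.W_7d29a1_C1.Luc30
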