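import Pool.Agent.W_7d29a1_C1.LucN30

/-!
MP_7d29a1_pr, [C1] SEP, the LANE BLOCK: THE LUCK OF ONE LANE. (helper30)

Rows `(r, r + T]`, base site `(r, col)`, `ω` old, `ω'` new content of these rows. `luk30` : `Luk` of Excl53E from the window lemma
(`LeakV69`), the lucky route (gain), and upper levels of the new kernel between mouth and exit cell (upper gain). The letters of the
levels are `kW μ s (sh (r, col) ω') 0 T` and the masses `Mx` of the old environment.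
-/

set_option autoImplicit false

namespace Pool.Agent.W_7d29a1_C1.Luc30

open Finset MeasureTheory
open Pool.Agent.W_7d29a1_F Pool.Agent.W_7d29a1_h4g Pool.Agent.W_7d29a1_H Pool.Agent.W_7d29a1_HS
open Pool.Agent.W_7d29a1_C1
open Pool.Agent.W_7d29a1_C1.K91 (wt wt_pos)
open Pool.Agent.W_7d29a1_C1.K91P (bw bw_pos)
open Pool.Agent.W_7d29a1_C1.U16 (ker ker_nonneg ker_eq_zero)
open Pool.Agent.W_7d29a1_C1.Tb87 (Mx kx Mo Mo_pos Mo_eq Mo_Mx Mx_pos kx_nonneg kx_W Mx_kx ker_Mo_kx)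
open Pool.Agent.W_7d29a1_C1.Basin76 (kW)
open Pool.Agent.W_7d29a1_C1.E53
open Pool.Agent.W_7d29a1_C1.H60
open Pool.Agent.W_7d29a1_C1.SD53
open Pool.Agent.W_7d29a1_C1.Lb76

noncomputable section

variable {μ : Measure ℝ} {s g : ℝ} {Γ : Cx} {ω ω' : Env} {r T : ℕ} {col : ℤ}

/-- A sum over a cell with a bounded summand. -/
private theorem sum_cell {ex : Finset ℤ} {z : ℤ} {f : ℤ → ℝ} {C : ℝ} (hC : 0 ≤ C) (h0 : ∀ y, ¬ (z ≤ y ∧ y ≤ z + T) → f y = 0)
    (h1 : ∀ y ∈ ex, z ≤ y → y ≤ z + T → f y ≤ C) : ∑ y ∈ ex, f y ≤ ((T : ℝ) + 1) * C := by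
  classical
  have e1 : ∑ y ∈ ex, f y = ∑ y ∈ ex.filter (fun y => z ≤ y ∧ y ≤ z + T), f y := by
    rw [sum_filter]
    refine sum_congr rfl fun y _ => ?_
    by_cases hy : z ≤ y ∧ y ≤ z + T
    · rw [if_pos hy]
    · rw [if_neg hy, h0 y hy]
  rw [e1]
  have h2 : ∑ y ∈ ex.filter (fun y => z ≤ y ∧ y ≤ z + T), f y ≤ ∑ _y ∈ ex.filter (fun y => z ≤ y ∧ y ≤ z + T), C :=
    sum_le_sum fun y hy => by
      rw [mem_filter] at hy
      exact h1 y hy.1 hy.2.1 hy.2.2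
  refine h2.trans ?_
  rw [sum_const, nsmul_eq_mul]
  refine mul_le_mul_of_nonneg_right ?_ hC
  have h3 : (ex.filter fun y => z ≤ y ∧ y ≤ z + T) ⊆ Icc z (z + T) := fun y hy => mem_Icc.2 (mem_filter.1 hy).2
  have h4 := card_le_card h3
  rw [Int.card_Icc] at h4
  have h5 : (z + (T : ℤ) + 1 - z).toNat = T + 1 := by omega
  rw [h5] at h4
  exact_mod_cast h4

/-- **ONE LANE.** -/
theorem luk30 {ωB R₀ : ℝ} {mo ex : Finset ℤ} (h : LeakV69 μ s (wt ω) (wt ω') Γ.p (Mx (wt ω) Γ.p Γ.N (r + T)) r T col ωB R₀ mo ex)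
    (hR : 0 ≤ R₀) (hp : ∀ k, r ≤ k → k < r + T → Γ.p k = Real.exp (s + g)) (hN : r + T < Γ.N)
    (hfut : ∀ i, r + T < i → ∀ y, wt ω' i y = wt ω i y) (hlow : ∀ i, i ≤ r → ∀ y, wt ω' i y = wt ω i y)
    -- the lucky route
    {a e : ℤ} {L Q D : ℝ} (hgain : Real.exp L ≤ kW μ s (sh ((r : ℤ), col) ω') 0 T a e)
    (hpr : Mx (wt ω) Γ.p Γ.N r (a + col) ≤ Real.exp Q * Real.exp (T * lam μ s + g * (sl μ s * T)) * Mx (wt ω) Γ.p Γ.N (r + T) (e + col))
    (hD : |g| * |((e - a : ℤ) : ℝ) - sl μ s * T| ≤ D)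
    -- upper levels between the cells
    {U P F : ℝ} (hup : ∀ z ∈ mo, ∀ y ∈ ex, kW μ s (sh ((r : ℤ), col) ω') 0 T (z - col) (y - col) ≤ Real.exp U)
    (hta : ∀ z ∈ mo, ∀ y ∈ ex, Real.exp (T * lam μ s + g * (sl μ s * T)) * Mx (wt ω) Γ.p Γ.N (r + T) y ≤
      Real.exp P * Mx (wt ω) Γ.p Γ.N r z)
    (hF : ∀ z ∈ mo, ∀ y ∈ ex, |g| * |((y - z : ℤ) : ℝ) - sl μ s * T| ≤ F) :
    Luk Γ r (r + T) {a + col} ↑mo ↑ex (Real.exp (L - (Q + D))) (((T : ℝ) + 1) * Real.exp (U + P + F) + R₀) R₀ ω ω' := by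
  have hpp := Γ.p_pos
  have hw := wt_pos ω
  have hw' := wt_pos ω'
  have hC0 : 0 ≤ ((T : ℝ) + 1) * Real.exp (U + P + F) := by positivity
  have hMx := Mx_eq30 (Γ := Γ) (ωA := ω) (ωM := ω') hfut
  have hrow : ∀ y, wt ω' r y = wt ω r y := hlow r le_rfl
  refine ⟨Real.exp_pos _, add_nonneg hC0 hR, hR, by omega, hN.le, fun k y hk => hlow k hk.le y, fun z hz => ?_, fun z hz => ?_,
    fun z hz => ?_, fun z => ?_⟩
  · -- upper gain
    have hz' : z ∈ mo := mem_coe.1 hz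
    have h1 := h.bw_row hw hw' hpp hN hfut (x := z) (hrow z)
    rw [if_pos hz'] at h1
    have h2 : ∑ y ∈ ex, ker (wt ω') Γ.p r T z y * bw (wt ω') Γ.p (r + T) (Γ.N - (r + T)) y ≤
        ((T : ℝ) + 1) * (Real.exp (U + P + F) * bW Γ ω r z) := by
      refine sum_cell (z := z) (mul_nonneg (Real.exp_pos _).le (bW_pos _ _ _ _).le) (fun y hy => by rw [ker_eq_zero _ _ _ _ hy, zero_mul])
        fun y hy _ _ => ?_
      have e1 : ker (wt ω') Γ.p r T z y * bw (wt ω') Γ.p (r + T) (Γ.N - (r + T)) y =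
          wt ω r z * (kx (wt ω') Γ.p r T z y * Mx (wt ω) Γ.p Γ.N (r + T) y) := by
        have e2 := ker_Mo_kx (w := wt ω') (p := Γ.p) hw' hN z y
        rw [hMx, hrow] at e2
        exact e2
      have e3 : kx (wt ω') Γ.p r T z y =
          Real.exp (T * lam μ s + g * ((y - z : ℤ) : ℝ)) * kW μ s (sh ((r : ℤ), col) ω') 0 T (z - col) (y - col) := by
        rw [kx_W (μ := μ) (s := s) (h := g) ω' r z T y hp, kW_sh30, sub_add_cancel, sub_add_cancel]
        rfl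
      have e4 : Real.exp (T * lam μ s + g * ((y - z : ℤ) : ℝ)) ≤ Real.exp (T * lam μ s + g * (sl μ s * T)) * Real.exp F := by
        rw [← Real.exp_add]
        refine Real.exp_le_exp.2 ?_
        have e5 : g * (((y - z : ℤ) : ℝ) - sl μ s * T) ≤ F := by
          refine (le_abs_self _).trans ?_
          rw [abs_mul]
          exact hF z hz' y hy
        nlinarith
      have e6 : kx (wt ω') Γ.p r T z y ≤ Real.exp (T * lam μ s + g * (sl μ s * T)) * Real.exp F * Real.exp U := by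
        rw [e3]
        exact mul_le_mul e4 (hup z hz' y hy) (Basin76.kW_nonneg _ _ _ _ _) (by positivity)
      have hM : 0 ≤ Mx (wt ω) Γ.p Γ.N (r + T) y := (Mx_pos hw hpp _ _).le
      rw [e1, bW_Mx30 ω (show r < Γ.N by omega)]
      calc wt ω r z * (kx (wt ω') Γ.p r T z y * Mx (wt ω) Γ.p Γ.N (r + T) y)
          ≤ wt ω r z * (Real.exp (T * lam μ s + g * (sl μ s * T)) * Real.exp F * Real.exp U * Mx (wt ω) Γ.p Γ.N (r + T) y) :=
            mul_le_mul_of_nonneg_left (mul_le_mul_of_nonneg_right e6 hM) (hw _ _).le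
        _ = wt ω r z * (Real.exp F * Real.exp U * (Real.exp (T * lam μ s + g * (sl μ s * T)) * Mx (wt ω) Γ.p Γ.N (r + T) y)) := by ring
        _ ≤ wt ω r z * (Real.exp F * Real.exp U * (Real.exp P * Mx (wt ω) Γ.p Γ.N r z)) :=
            mul_le_mul_of_nonneg_left (mul_le_mul_of_nonneg_left (hta z hz' y hy) (by positivity)) (hw _ _).le
        _ = Real.exp (U + P + F) * (wt ω r z * Mx (wt ω) Γ.p Γ.N r z) := by
            rw [Real.exp_add, Real.exp_add]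
            ring
    have h3 : bw (wt ω) Γ.p r (Γ.N - r) z = bW Γ ω r z := rfl
    rw [h3] at h1
    refine h1.trans ?_
    linarith
  · -- off the mouth
    have h1 := h.bw_row hw hw' hpp hN hfut (x := z) (hrow z)
    rw [if_neg (fun h' => hz (mem_coe.2 h')), zero_add] at h1
    exact h1
  · -- the gain
    rw [Set.mem_singleton_iff] at hz
    subst hz
    have h1 := lo30 (μ := μ) (s := s) (g := g) (Γ := Γ) (ωA := ω) (ωM := ω') hp hN hfut hrow (A := Set.univ) (y := a + col) (z := e)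
      (q := -L) (Q := Q) (D := D) (Set.mem_univ _) (by rw [neg_neg, add_sub_cancel_right]; exact hgain) hpr (by
        have e1 : (e + col - (a + col) : ℤ) = e - a := by ring
        rw [e1]
        exact hD)
    have h2 := QA_le_bW (Γ := Γ) (ω := ω') hN.le Set.univ r (by omega) (a + col)
    have e2 : -(-L + Q + D) = L - (Q + D) := by ring
    rw [e2] at h1
    exact h1.trans h2
  · -- the exit cell
    have h1 := h.row z
    rw [VX_Mx hw hN] at h1
    have h2 : QA Γ ω' (r + T) (↑ex)ᶜ r z = ∑ y ∈ Icc z (z + ((r + T - r : ℕ) : ℤ)), ker (wt ω') Γ.p r (r + T - r) z y * tf Γ ω' (r + T) (↑ex)ᶜ y :=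
      Sp22.bf_ker _ _ _ _
    rw [Nat.add_sub_cancel_left] at h2
    have h3 : ∑ y ∈ Icc z (z + (T : ℤ)), ker (wt ω') Γ.p r T z y * tf Γ ω' (r + T) (↑ex)ᶜ y ≤
        wt ω r z * ∑ y ∈ (Icc z (z + (T : ℤ))).filter (fun y => ¬ (z ∈ mo ∧ y ∈ ex)), kx (wt ω') Γ.p r T z y * Mx (wt ω) Γ.p Γ.N (r + T) y := by
      rw [sum_filter, mul_sum]
      refine sum_le_sum fun y _ => ?_
      have e2 := ker_Mo_kx (w := wt ω') (p := Γ.p) hw' hN z y
      rw [hMx, hrow] at e2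
      have k0 : 0 ≤ kx (wt ω') Γ.p r T z y * Mx (wt ω) Γ.p Γ.N (r + T) y := mul_nonneg (kx_nonneg hw' hpp _ _ _ _) (Mx_pos hw hpp _ _).le
      by_cases hy : y ∈ ex
      · rw [tf_not (show ¬ y ∈ ((↑ex : Set ℤ))ᶜ from fun h' => h' (mem_coe.2 hy)), mul_zero]
        by_cases hc : ¬ (z ∈ mo ∧ y ∈ ex)
        · rw [if_pos hc]; exact mul_nonneg (hw _ _).le k0
        · rw [if_neg hc, mul_zero]
      · rw [tf_mem (show y ∈ ((↑ex : Set ℤ))ᶜ from fun h' => hy (mem_coe.1 h')), if_pos (fun h' => hy h'.2)]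
        exact e2.le
    rw [h2, bW_Mx30 ω (show r < Γ.N by omega)]
    refine h3.trans ?_
    calc _ ≤ wt ω r z * (R₀ * Mx (wt ω) Γ.p Γ.N r z) := mul_le_mul_of_nonneg_left h1 (hw _ _).le
      _ = _ := by ring

end

end Pool.Agent.W_7d29a1_C1.Luc30
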