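import Pool.Agent.W_7d29a1_C1.BoxK69
import Pool.Agent.W_7d29a1_C1.LucB76
import Pool.Agent.W_7d29a1_C1.HvW58

/-!
MP_7d29a1_pr, [C1] SEP, the LANE BLOCK: THE MIDDLE SLAB. (helper30)

Rows `(r, r + T]` with base site `(r, col)`; `ωA` = old content (and old futures), `ωM` = new content of these rows; they agree in the rows
`≤ r` and `> r + T`. `mm30`, `lo30` = the fields `mm`, `lo` of helper76's `Blk76`; `hcr30` = the cross ratio of `Pin76.met`, `exclE76`.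
The inputs are: `LeakV69` (helper69, open slab), the kernel of `ωM` in the letters `kW μ s (sh (r, col) ωM) 0 T` (helper99's `Mid99`), and the
profile clause of the old masses.
-/

set_option autoImplicit false

namespace Pool.Agent.W_7d29a1_C1.Luc30

open Finset MeasureTheory
open Pool.Agent.W_7d29a1_F Pool.Agent.W_7d29a1_h4g Pool.Agent.W_7d29a1_H Pool.Agent.W_7d29a1_HS
open Pool.Agent.W_7d29a1_C1
open Pool.Agent.W_7d29a1_C1.K91 (wt wt_pos)
open Pool.Agent.W_7d29a1_C1.K91P (bw bw_pos)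
open Pool.Agent.W_7d29a1_C1.U16 (ker ker_nonneg)
open Pool.Agent.W_7d29a1_C1.Tb87 (Mx kx Mo Mo_pos Mo_eq Mo_Mx Mx_pos kx_nonneg kx_W Mx_kx ker_Mo_kx)
open Pool.Agent.W_7d29a1_C1.Basin76 (kW)
open Pool.Agent.W_7d29a1_C1.Cnt58 (Hv hv_of_kW)
open Pool.Agent.W_7d29a1_C1.H60
open Pool.Agent.W_7d29a1_C1.SD53
open Pool.Agent.W_7d29a1_C1.Lb76

noncomputable section

variable {μ : Measure ℝ} {s g : ℝ} {Γ : Cx} {ω ωA ωM : Env} {r T : ℕ} {col : ℤ}

/-- The kernel of the slab seen from its base site. -/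
theorem kW_sh30 (ω : Env) (r T : ℕ) (col x v : ℤ) : kW μ s (sh ((r : ℤ), col) ω) 0 T x v = kW μ s ω r T (x + col) (v + col) := by
  unfold Basin76.kW
  rw [W_sh (μ := μ) (s := s) ω ((0 : ℤ), x) ((r : ℤ), col) T (v - x)]
  have e1 : (((0 : ℤ), x) : Pt) + ((r : ℤ), col) = ((r : ℤ), x + col) := by
    refine Prod.ext ?_ rfl
    show (0 : ℤ) + (r : ℤ) = r
    ring
  have e2 : v + col - (x + col) = v - x := by ring
  rw [e1, e2]

/-- One end point. -/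
theorem QA_ge30 {e a : ℕ} {A : Set ℤ} {z v : ℤ} (hv : v ∈ A) :
    ker (wt ω) Γ.p a (e - a) z v * bW Γ ω e v ≤ QA Γ ω e A a z := by
  have h0 : ∀ y, 0 ≤ tf Γ ω e A y := fun y => by
    by_cases h : y ∈ A
    · rw [tf_mem h]; exact (bW_pos Γ ω e y).le
    · rw [tf_not h]
  have h1 : QA Γ ω e A a z = ∑ y ∈ Icc z (z + ((e - a : ℕ) : ℤ)), ker (wt ω) Γ.p a (e - a) z y * tf Γ ω e A y := Sp22.bf_ker _ _ _ _
  rw [h1]
  by_cases hy : v ∈ Icc z (z + ((e - a : ℕ) : ℤ))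
  · have h2 := single_le_sum (f := fun y => ker (wt ω) Γ.p a (e - a) z y * tf Γ ω e A y)
      (fun y _ => mul_nonneg (ker_nonneg (wt_pos ω) Γ.p_pos _ _ _ _) (h0 y)) hy
    have h3 : tf Γ ω e A v = bW Γ ω e v := tf_mem hv
    rw [← h3]
    exact h2
  · rw [U16.ker_eq_zero _ _ _ _ (by rw [mem_Icc] at hy; omega), zero_mul]
    exact sum_nonneg fun y _ => mul_nonneg (ker_nonneg (wt_pos ω) Γ.p_pos _ _ _ _) (h0 y)

/-- The futures behind the slab are the same. -/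
theorem Mx_eq30 (hfut : ∀ i, r + T < i → ∀ y, wt ωM i y = wt ωA i y) : Mx (wt ωM) Γ.p Γ.N (r + T) = Mx (wt ωA) Γ.p Γ.N (r + T) := by
  funext y
  unfold Tb87.Mx
  rw [Mo_eq (w := wt ωA) (w' := wt ωM) (p := Γ.p) (N := Γ.N) (r2 := r + T + 1) (fun i hi y => hfut i (by omega) y) le_rfl,
    Mo_eq (w := wt ωA) (w' := wt ωM) (p := Γ.p) (N := Γ.N) (r2 := r + T + 1) (fun i hi y => hfut i (by omega) y) le_rfl]

/-- `bW` with the own weight split off. -/
theorem bW_Mx30 (ω : Env) {i : ℕ} (hi : i < Γ.N) (x : ℤ) : bW Γ ω i x = wt ω i x * Mx (wt ω) Γ.p Γ.N i x := by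
  show Mo (wt ω) Γ.p Γ.N i x = _
  exact Mo_Mx hi x

/-- **`mm`**. -/
theorem mm30 {ωB R₀ : ℝ} (h : LeakV69 μ s (wt ωA) (wt ωM) Γ.p (Mx (wt ωA) Γ.p Γ.N (r + T)) r T col ωB R₀ ∅ ∅) (hN : r + T < Γ.N)
    (hfut : ∀ i, r + T < i → ∀ y, wt ωM i y = wt ωA i y) (hrow : ∀ y, wt ωM r y = wt ωA r y) (y : ℤ) :
    bW Γ ωM r y ≤ R₀ * bW Γ ωA r y := by
  have h1 := h.bw_row (wt_pos ωA) (wt_pos ωM) Γ.p_pos hN hfut (x := y) (hrow y)
  rw [if_neg (Finset.notMem_empty y), zero_add] at h1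
  exact h1

/-- **`lo`**, one pair of sites: `v` in the set `A` of the row `r + T`. -/
theorem lo30 (hp : ∀ k, r ≤ k → k < r + T → Γ.p k = Real.exp (s + g)) (hN : r + T < Γ.N)
    (hfut : ∀ i, r + T < i → ∀ y, wt ωM i y = wt ωA i y) (hrow : ∀ y, wt ωM r y = wt ωA r y) {A : Set ℤ} {y z : ℤ} {q Q D : ℝ}
    (hz : z + col ∈ A) (hlow : Real.exp (-q) ≤ kW μ s (sh ((r : ℤ), col) ωM) 0 T (y - col) z)
    (hpr : Mx (wt ωA) Γ.p Γ.N r y ≤ Real.exp Q * Real.exp (T * lam μ s + g * (sl μ s * T)) * Mx (wt ωA) Γ.p Γ.N (r + T) (z + col))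
    (hD : |g| * |((z + col - y : ℤ) : ℝ) - sl μ s * T| ≤ D) :
    Real.exp (-(q + Q + D)) * bW Γ ωA r y ≤ QA Γ ωM (r + T) A r y := by
  have hMx0 : 0 < Mx (wt ωA) Γ.p Γ.N (r + T) (z + col) := Mx_pos (wt_pos ωA) Γ.p_pos _ _
  have hw := wt_pos ωA r y
  have h1 := QA_ge30 (Γ := Γ) (ω := ωM) (e := r + T) (a := r) (z := y) hz
  rw [Nat.add_sub_cancel_left] at h1
  have h2 : ker (wt ωM) Γ.p r T y (z + col) * bW Γ ωM (r + T) (z + col) =
      wt ωA r y * (kx (wt ωM) Γ.p r T y (z + col) * Mx (wt ωA) Γ.p Γ.N (r + T) (z + col)) := by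
    have e1 := ker_Mo_kx (w := wt ωM) (p := Γ.p) (wt_pos ωM) hN y (z + col)
    rw [Mx_eq30 hfut, hrow] at e1
    exact e1
  have h3 : kx (wt ωM) Γ.p r T y (z + col) =
      Real.exp (T * lam μ s + g * ((z + col - y : ℤ) : ℝ)) * kW μ s (sh ((r : ℤ), col) ωM) 0 T (y - col) z := by
    rw [kx_W (μ := μ) (s := s) (h := g) ωM r y T (z + col) hp, kW_sh30, sub_add_cancel]
    rfl
  have h4 : Real.exp (T * lam μ s + g * (sl μ s * T)) * Real.exp (-D) ≤ Real.exp (T * lam μ s + g * ((z + col - y : ℤ) : ℝ)) := by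
    rw [← Real.exp_add]
    refine Real.exp_le_exp.2 ?_
    have e1 : -(g * (((z + col - y : ℤ) : ℝ) - sl μ s * T)) ≤ D := by
      refine (neg_le_abs _).trans ?_
      rw [abs_mul]
      exact hD
    nlinarith
  have h5 : Real.exp (T * lam μ s + g * (sl μ s * T)) * Real.exp (-D) * Real.exp (-q) ≤ kx (wt ωM) Γ.p r T y (z + col) := by
    rw [h3]
    exact mul_le_mul h4 hlow (Real.exp_pos _).le (Real.exp_pos _).le
  have h6 : Real.exp (-(q + Q + D)) * Mx (wt ωA) Γ.p Γ.N r y ≤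
      kx (wt ωM) Γ.p r T y (z + col) * Mx (wt ωA) Γ.p Γ.N (r + T) (z + col) := by
    calc Real.exp (-(q + Q + D)) * Mx (wt ωA) Γ.p Γ.N r y
        ≤ Real.exp (-(q + Q + D)) * (Real.exp Q * Real.exp (T * lam μ s + g * (sl μ s * T)) * Mx (wt ωA) Γ.p Γ.N (r + T) (z + col)) :=
          mul_le_mul_of_nonneg_left hpr (Real.exp_pos _).le
      _ = (Real.exp (T * lam μ s + g * (sl μ s * T)) * Real.exp (-D) * Real.exp (-q)) * Mx (wt ωA) Γ.p Γ.N (r + T) (z + col) := by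
          have e2 : Real.exp (-(q + Q + D)) * Real.exp Q = Real.exp (-D) * Real.exp (-q) := by
            rw [← Real.exp_add, ← Real.exp_add]
            congr 1
            ring
          linear_combination (Real.exp (T * lam μ s + g * (sl μ s * T)) * Mx (wt ωA) Γ.p Γ.N (r + T) (z + col)) * e2
      _ ≤ _ := mul_le_mul_of_nonneg_right h5 hMx0.le
  rw [bW_Mx30 ωA (show r < Γ.N by omega)]
  rw [h2] at h1
  calc Real.exp (-(q + Q + D)) * (wt ωA r y * Mx (wt ωA) Γ.p Γ.N r y)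
      = wt ωA r y * (Real.exp (-(q + Q + D)) * Mx (wt ωA) Γ.p Γ.N r y) := by ring
    _ ≤ wt ωA r y * (kx (wt ωM) Γ.p r T y (z + col) * Mx (wt ωA) Γ.p Γ.N (r + T) (z + col)) := mul_le_mul_of_nonneg_left h6 hw.le
    _ ≤ _ := h1

/-- **`hcr`**: rank one between the cells `C1` (row `r`) and `C2` (row `r + T`). -/
theorem hcr30 (hp : ∀ k, r ≤ k → k < r + T → Γ.p k = Real.exp (s + g)) {C1 C2 : Set ℤ} {δ : ℝ} (hδ : 0 ≤ δ)
    (H : ∀ y, y + col ∈ C1 → ∀ y', y' + col ∈ C1 → ∀ v, v + col ∈ C2 → ∀ v', v' + col ∈ C2 →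
      kW μ s (sh ((r : ℤ), col) ω) 0 T y v * kW μ s (sh ((r : ℤ), col) ω) 0 T y' v' ≤
        (1 + δ) * (kW μ s (sh ((r : ℤ), col) ω) 0 T y v' * kW μ s (sh ((r : ℤ), col) ω) 0 T y' v)) :
    ∀ x ∈ C1, ∀ x' ∈ C1, x < x' → ∀ v ∈ C2, ∀ v' ∈ C2, v < v' →
      ker (wt ω) Γ.p r T x v * ker (wt ω) Γ.p r T x' v' - ker (wt ω) Γ.p r T x v' * ker (wt ω) Γ.p r T x' v ≤
        δ * (ker (wt ω) Γ.p r T x v * ker (wt ω) Γ.p r T x' v') := by
  intro x hx x' hx' hxx v hv v' hv' hvv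
  have h1 : Hv (wt ω) Γ.p (1 / (1 + δ)) ⟨r, T, {x, x'}, {v, v'}⟩ := by
    refine hv_of_kW (μ := μ) (s := s) (h := g) ω hp fun a ha b hb hab u hu t ht hut => ?_
    have ha' : a ∈ C1 := by
      rcases mem_insert.1 ha with h | h
      · rw [h]; exact hx
      · rw [mem_singleton.1 h]; exact hx'
    have hb' : b ∈ C1 := by
      rcases mem_insert.1 hb with h | h
      · rw [h]; exact hx
      · rw [mem_singleton.1 h]; exact hx'
    have hu' : u ∈ C2 := by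
      rcases mem_insert.1 hu with h | h
      · rw [h]; exact hv
      · rw [mem_singleton.1 h]; exact hv'
    have ht' : t ∈ C2 := by
      rcases mem_insert.1 ht with h | h
      · rw [h]; exact hv
      · rw [mem_singleton.1 h]; exact hv'
    have h2 := H (a - col) (by rwa [sub_add_cancel]) (b - col) (by rwa [sub_add_cancel]) (u - col) (by rwa [sub_add_cancel])
      (t - col) (by rwa [sub_add_cancel])
    simp only [kW_sh30, sub_add_cancel] at h2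
    rw [one_div, inv_mul_le_iff₀ (by linarith)]
    exact h2
  have h3 : 1 / (1 + δ) * (ker (wt ω) Γ.p r T x v * ker (wt ω) Γ.p r T x' v') ≤ ker (wt ω) Γ.p r T x v' * ker (wt ω) Γ.p r T x' v :=
    h1 x (mem_insert_self _ _) x' (mem_insert_of_mem (mem_singleton_self _)) hxx v (mem_insert_self _ _) v'
      (mem_insert_of_mem (mem_singleton_self _)) hvv
  have k0 : 0 ≤ ker (wt ω) Γ.p r T x v * ker (wt ω) Γ.p r T x' v' :=
    mul_nonneg (ker_nonneg (wt_pos ω) Γ.p_pos _ _ _ _) (ker_nonneg (wt_pos ω) Γ.p_pos _ _ _ _)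
  have h4 : 1 - δ ≤ 1 / (1 + δ) := by
    rw [le_div_iff₀ (by linarith)]
    nlinarith
  have h5 := mul_le_mul_of_nonneg_right h4 k0
  linarith

end

end Pool.Agent.W_7d29a1_C1.Luc30
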