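import Pool.Agent.W_7d29a1_C1.PinC24
import Pool.Agent.W_7d29a1_C1.Rank26E
import Pool.Agent.W_7d29a1_C1.BoxS58

/-!
MP_7d29a1_pr, [C1] SEP, lane block: THE TYPICAL MIDDLE SLAB (helper99, literal text of helper76). `Mid99` = the slab of `T` rows is of
rank one between the cell at `e` and the cell at `z` (radius `r`), its kernel between the two cells is at least `exp (- q E)`, upper
levels (`PW69`). `Ty99` = given the rest of the environment, the new content of `B` is in `Mid99` with probability at least `1/2`.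
`mid99` : measurability, rows, probabilities.
-/

set_option autoImplicit false

namespace Pool.Agent.W_7d29a1_C1.M99

open MeasureTheory ProbabilityTheory Filter Topology Finset
open Pool.Agent.W_7d29a1_F Pool.Agent.W_7d29a1_h4g Pool.Agent.W_7d29a1_H Pool.Agent.W_7d29a1_HS
open Pool.Agent.W_7d29a1_C1
open Pool.Agent.W_7d29a1_C1.CR76 Pool.Agent.W_7d29a1_C1.Basin76
open Pool.Agent.W_7d29a1_C1.BP58
open Pool.Agent.W_7d29a1_C1.S71 (Off)
open Pool.Agent.W_7d29a1_C1.H75 (hc)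
open Pool.Agent.W_7d29a1_C1.R26 (RK26 kW_dep measurable_kW measurableSet_RK26 rank_one26)
open Pool.Agent.W_7d29a1_C1.P24 (Ce24 mem_Ce24 rank_cells)
open Pool.Agent.W_7d29a1_C1.U16 (fq16 fq16_one fq16_mono lat16 Far16 far_low far_prob Far16_meas Far16_rows)

noncomputable section

variable {μ : Measure ℝ} {s c C : ℝ} {n₀ : ℕ}

/-- Rank one between the two cells, lower levels between the two cells. -/
def MidA99 (μ : Measure ℝ) (s : ℝ) (T : ℕ) (c' q r : ℝ) (e z : ℤ) : Set Env :=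
  {η | (∀ y ∈ Ce24 e r, ∀ y' ∈ Ce24 e r, ∀ v ∈ Ce24 z r, ∀ v' ∈ Ce24 z r,
      kW μ s η 0 T y v * kW μ s η 0 T y' v' ≤ (1 + Real.exp (-(T : ℝ) ^ c')) * (kW μ s η 0 T y v' * kW μ s η 0 T y' v)) ∧
    ∀ y ∈ Ce24 e r, ∀ v ∈ Ce24 z r, Real.exp (-(q * EE μ s T)) ≤ kW μ s η 0 T y v}

/-- **The typical middle slab.** -/
def Mid99 (μ : Measure ℝ) (s c : ℝ) (T : ℕ) (c' q U Kb r : ℝ) (e z : ℤ) : Set Env :=
  MidA99 μ s T c' q r e z ∩ PW69 μ s Set.univ (hc μ s c T) T T (Kb * wd μ s T + 2) (U * EE μ s T)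

/-- The new content of `B` is typical with probability at least `1/2`. -/
def Ty99 (μ : Measure ℝ) (s c : ℝ) (B : Set Pt) (T : ℕ) (c' q U Kb r : ℝ) (e z : ℤ) : Set Env :=
  {ω | cP μ B (Mid99 μ s c T c' q U Kb r e z)ᶜ ω ≤ 1 / 2}

theorem Mid99.rank {T : ℕ} {c' q U Kb r : ℝ} {e z : ℤ} {η : Env} (h : η ∈ Mid99 μ s c T c' q U Kb r e z) {y y' v v' : ℤ}
    (hy : y ∈ Ce24 e r) (hy' : y' ∈ Ce24 e r) (hv : v ∈ Ce24 z r) (hv' : v' ∈ Ce24 z r) :
    kW μ s η 0 T y v * kW μ s η 0 T y' v' ≤ (1 + Real.exp (-(T : ℝ) ^ c')) * (kW μ s η 0 T y v' * kW μ s η 0 T y' v) :=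
  h.1.1 y hy y' hy' v hv v' hv'

theorem Mid99.low {T : ℕ} {c' q U Kb r : ℝ} {e z : ℤ} {η : Env} (h : η ∈ Mid99 μ s c T c' q U Kb r e z) {y v : ℤ}
    (hy : y ∈ Ce24 e r) (hv : v ∈ Ce24 z r) : Real.exp (-(q * EE μ s T)) ≤ kW μ s η 0 T y v :=
  h.1.2 y hy v hv

theorem Mid99.low' {T : ℕ} {c' q U Kb r : ℝ} {e z : ℤ} {η : Env} (h : η ∈ Mid99 μ s c T c' q U Kb r e z) (hr : 0 ≤ r) {y : ℤ}
    (hy : y ∈ Ce24 e r) : Real.exp (-(q * EE μ s T)) ≤ kW μ s η 0 T y z :=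
  Mid99.low h hy (mem_Ce24.2 (by simpa using hr))

theorem Mid99.up {T : ℕ} {c' q U Kb r : ℝ} {e z : ℤ} {η : Env} (h : η ∈ Mid99 μ s c T c' q U Kb r e z) :
    η ∈ PW69 μ s Set.univ (hc μ s c T) T T (Kb * wd μ s T + 2) (U * EE μ s T) := h.2

theorem meas_MidA99 (T : ℕ) (c' q r : ℝ) (e z : ℤ) : MeasurableSet (MidA99 μ s T c' q r e z) := by
  have e0 : MidA99 μ s T c' q r e z = (⋂ y ∈ Ce24 e r, ⋂ y' ∈ Ce24 e r, ⋂ v ∈ Ce24 z r, ⋂ v' ∈ Ce24 z r,
      {η | kW μ s η 0 T y v * kW μ s η 0 T y' v' ≤ (1 + Real.exp (-(T : ℝ) ^ c')) * (kW μ s η 0 T y v' * kW μ s η 0 T y' v)}) ∩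
      ⋂ y ∈ Ce24 e r, ⋂ v ∈ Ce24 z r, {η | Real.exp (-(q * EE μ s T)) ≤ kW μ s η 0 T y v} := by
    ext η
    simp only [MidA99, Set.mem_iInter, Set.mem_inter_iff, Set.mem_ofPred_eq]
  rw [e0]
  refine MeasurableSet.inter ?_ ?_
  · refine MeasurableSet.biInter (Set.to_countable _) fun y _ => MeasurableSet.biInter (Set.to_countable _) fun y' _ =>
      MeasurableSet.biInter (Set.to_countable _) fun v _ => MeasurableSet.biInter (Set.to_countable _) fun v' _ => ?_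
    exact measurableSet_le ((measurable_kW _ _ _ _).mul (measurable_kW _ _ _ _))
      (((measurable_kW _ _ _ _).mul (measurable_kW _ _ _ _)).const_mul _)
  · exact MeasurableSet.biInter (Set.to_countable _) fun y _ => MeasurableSet.biInter (Set.to_countable _) fun v _ =>
      measurableSet_le measurable_const (measurable_kW _ _ _ _)

theorem meas_Mid99 (T : ℕ) (c' q U Kb r : ℝ) (e z : ℤ) : MeasurableSet (Mid99 μ s c T c' q U Kb r e z) :=
  (meas_MidA99 _ _ _ _ _ _).inter meas_PW69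

theorem on_Mid99 (T : ℕ) (c' q U Kb r : ℝ) (e z : ℤ) : On20 (rows 0 (0 + T)) (Mid99 μ s c T c' q U Kb r e z) := by
  refine On20.inter (fun η η' hh => ?_) (fun η η' hh => ?_)
  · have h1 : ∀ x y : ℤ, kW μ s η 0 T x y = kW μ s η' 0 T x y := fun x y => kW_dep (fun p hp hp' => hh p ⟨hp, by simpa using hp'⟩) x y
    simp only [MidA99, Set.mem_ofPred_eq, h1]
  · exact dep_PW69 fun p _ hp hp' => hh p ⟨hp, by simpa using hp'⟩

theorem meas_Ty99 [IsProbabilityMeasure μ] (B : Set Pt) (T : ℕ) (c' q U Kb r : ℝ) (e z : ℤ) :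
    MeasurableSet (Ty99 μ s c B T c' q U Kb r e z) :=
  measurableSet_le (measurable_cP (meas_Mid99 _ _ _ _ _ _ _ _).compl) measurable_const

theorem off_Ty99 (B : Set Pt) (T : ℕ) (c' q U Kb r : ℝ) (e z : ℤ) : Off B (Ty99 μ s c B T c' q U Kb r e z) := fun ω ω' h => by
  show cP μ B _ ω ≤ 1 / 2 ↔ cP μ B _ ω' ≤ 1 / 2
  rw [cP_off _ h]

/-- A level with small probability of the complement. -/
theorem level99 {A a g p : ℝ} (hA : 0 < A) (ha : 0 < a) (hg : 0 < g) (hp : 0 < p) : ∃ q : ℝ, 0 ≤ q ∧ A * Real.exp (-(a * q ^ g)) ≤ p := by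
  obtain ⟨x, hx⟩ : ∃ x : ℝ, x = max 0 (Real.log (A / p) / a) := ⟨_, rfl⟩
  have hx0 : 0 ≤ x := by rw [hx]; exact le_max_left _ _
  refine ⟨x ^ (1 / g), Real.rpow_nonneg hx0 _, ?_⟩
  have e1 : (x ^ (1 / g)) ^ g = x := by
    rw [← Real.rpow_mul hx0]
    have : 1 / g * g = 1 := by field_simp
    rw [this, Real.rpow_one]
  rw [e1]
  have h1 : Real.log (A / p) / a ≤ x := by rw [hx]; exact le_max_right _ _
  rw [div_le_iff₀ ha] at h1
  have h2 : Real.exp (-(a * x)) ≤ Real.exp (-Real.log (A / p)) := Real.exp_le_exp.2 (by linarith)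
  rw [Real.exp_neg (Real.log _), Real.exp_log (by positivity)] at h2
  calc A * Real.exp (-(a * x)) ≤ A * (A / p)⁻¹ := mul_le_mul_of_nonneg_left h2 hA.le
    _ = p := by field_simp

/-- **THE TYPICAL MIDDLE SLAB**: measurability, rows, probability, conditional probability. -/
theorem mid99 [IsProbabilityMeasure μ] (h : In μ s c C n₀) {ε Kb : ℝ} (hε : 0 < ε) (hK : 0 ≤ Kb) :
    ∃ d c' q U : ℝ, 0 < d ∧ 0 < c' ∧ 0 ≤ q ∧ 0 < U ∧ ∃ n₁ : ℕ, 1 ≤ n₁ ∧ ∀ T : ℕ, n₁ ≤ T → ∀ (e z : ℤ) (r : ℝ),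
      |(z : ℝ) - e - sl μ s * T| ≤ 2 * wd μ s T → 0 ≤ r → r ≤ d * wd μ s T →
      e + ⌊r⌋ ≤ z - ⌊r⌋ ∧ z + ⌊r⌋ ≤ e - ⌊r⌋ + T ∧
      MeasurableSet (Mid99 μ s c T c' q U Kb r e z) ∧ On20 (rows 0 (0 + T)) (Mid99 μ s c T c' q U Kb r e z) ∧
      (law μ).real (Mid99 μ s c T c' q U Kb r e z)ᶜ ≤ ε ∧
      ∀ B : Set Pt, MeasurableSet (Ty99 μ s c B T c' q U Kb r e z) ∧ Off B (Ty99 μ s c B T c' q U Kb r e z) ∧
        (law μ).real (Ty99 μ s c B T c' q U Kb r e z)ᶜ ≤ 2 * ε := by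
  have := isProb58 (μ := μ)
  obtain ⟨d₁, c', hd₁, hc', nR, hR⟩ := rank_one26 h (e := ε / 4) (K := 2) (by positivity) (by norm_num)
  obtain ⟨P, A, a, g, hA, ha, hg, hg1, nF, hnF, hfar⟩ := far_prob h (K := 6) (θ := 1) (by norm_num) one_pos le_rfl
  obtain ⟨q₀, hq₀, hq₀p⟩ := level99 hA ha hg (show (0 : ℝ) < ε / 4 by positivity)
  obtain ⟨nL, hlow⟩ := far_low h (K := 6) (θ := 1) (by norm_num) one_pos
  obtain ⟨U, hU, nU, hUp⟩ := h0_num58 h (D := Kb + 1) (ε := ε / 2) (by positivity) (by positivity)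
  obtain ⟨nw, hnw⟩ := eventually_atTop.1 ((wd_tendsto h).eventually_ge_atTop 1)
  obtain ⟨d, hd⟩ : ∃ d : ℝ, d = min (d₁ / 2) 1 := ⟨_, rfl⟩
  have hd0 : 0 < d := by rw [hd]; exact lt_min (by positivity) one_pos
  have hd1 : d ≤ 1 := by rw [hd]; exact min_le_right _ _
  have hdd : 2 * d ≤ d₁ := by
    have : d ≤ d₁ / 2 := by rw [hd]; exact min_le_left _ _
    linarith
  have hf2 := fq16_one P 2
  refine ⟨d, c', q₀ * fq16 P 2, U, hd0, hc', by positivity, hU, max (max (max nR nF) (max nL nU)) (max nw 1),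
    (le_max_right _ _).trans (le_max_right _ _), fun T hT e z r hez hr0 hr => ?_⟩
  have k1 : nR ≤ T := ((le_max_left _ _).trans ((le_max_left _ _).trans (le_max_left _ _))).trans hT
  have k2 : nF ≤ T := ((le_max_right _ _).trans ((le_max_left _ _).trans (le_max_left _ _))).trans hT
  have k3 : nL ≤ T := ((le_max_left _ _).trans ((le_max_right _ _).trans (le_max_left _ _))).trans hT
  have k4 : nU ≤ T := ((le_max_right _ _).trans ((le_max_right _ _).trans (le_max_left _ _))).trans hT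
  have hw : 1 ≤ wd μ s T := hnw T (((le_max_left _ _).trans (le_max_right _ _)).trans hT)
  have hw0 : 0 < wd μ s T := by linarith
  have hE := EE_pos (μ := μ) (s := s) T
  have hrw : r ≤ wd μ s T := hr.trans (by nlinarith)
  have hfl : (⌊r⌋ : ℝ) ≤ r := Int.floor_le r
  have hfl0 : 0 ≤ ⌊r⌋ := Int.floor_nonneg.2 hr0
  have hcell : ∀ t : ℤ, ((t + ⌊r⌋ - (t - ⌊r⌋) : ℤ) : ℝ) ≤ d₁ * wd μ s T := fun t => by
    push_cast
    have : 2 * r ≤ d₁ * wd μ s T := by nlinarith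
    linarith
  obtain ⟨g1, g2, g3⟩ := hR T k1 0 (e - ⌊r⌋) (e + ⌊r⌋) (z - ⌊r⌋) (z + ⌊r⌋) (by omega) (by omega) (hcell e) (hcell z) (by
    push_cast
    have e1 : (z : ℝ) - ⌊r⌋ - (e - ⌊r⌋) - sl μ s * T = z - e - sl μ s * T := by ring
    rw [e1]
    exact hez)
  have mM := meas_Mid99 (μ := μ) (s := s) (c := c) T c' (q₀ * fq16 P 2) U Kb r e z
  have hprob : (law μ).real (Mid99 μ s c T c' (q₀ * fq16 P 2) U Kb r e z)ᶜ ≤ ε := by
    have hsub : (Mid99 μ s c T c' (q₀ * fq16 P 2) U Kb r e z)ᶜ ⊆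
        ((RK26 μ s 0 T (e - ⌊r⌋) (e + ⌊r⌋) (z - ⌊r⌋) (z + ⌊r⌋) (Real.exp (-(T : ℝ) ^ c')))ᶜ ∪ (Far16 μ s c 1 6 T T P (0, e) q₀)ᶜ) ∪
        (PW69 μ s Set.univ (hc μ s c T) T T (Kb * wd μ s T + 2) (U * EE μ s T))ᶜ := by
      intro η hη
      by_contra hcon
      simp only [Set.mem_union, Set.mem_compl_iff, not_or, not_not] at hcon
      obtain ⟨⟨c1, c2⟩, c3⟩ := hcon
      refine hη ⟨⟨fun y hy y' hy' v hv v' hv' => ?_, fun y hy v hv => ?_⟩, c3⟩
      · exact rank_cells (Real.exp_pos _).le g1 g2 c1 y hy y' hy' v hv v' hv'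
      · rw [mem_Ce24] at hy hv
        have b1 := hlow T k3 T P (0, e) q₀ η hq₀ c2 (0, y) T (v - y) le_rfl le_rfl (by rw [one_mul]) (by
          push_cast
          have e1 : (v : ℝ) - y - sl μ s * T = (z - e - sl μ s * T) + ((v - z) - (y - e)) := by ring
          rw [e1]
          refine (abs_add_le _ _).trans ?_
          have e2 : |((v : ℝ) - z) - (y - e)| ≤ r + r := (abs_sub _ _).trans (add_le_add hv hy)
          linarith)
        refine le_trans (Real.exp_le_exp.2 ?_) b1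
        have e3 : |lat16 μ s (0, e) (0, y)| / wd μ s T + 1 ≤ 2 := by
          have e4 : lat16 μ s (0, e) (0, y) = (y : ℝ) - e := by
            unfold lat16
            push_cast
            ring
          rw [e4]
          have : |(y : ℝ) - e| / wd μ s T ≤ 1 := by
            rw [div_le_one hw0]
            exact hy.trans hrw
          linarith
        have e5 : 0 ≤ |lat16 μ s (0, e) (0, y)| / wd μ s T + 1 := by positivity
        have e6 : fq16 P (|lat16 μ s (0, e) (0, y)| / wd μ s T + 1) ≤ fq16 P 2 := by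
          refine fq16_mono ?_
          rw [abs_of_nonneg e5, abs_of_nonneg (by norm_num : (0 : ℝ) ≤ 2)]
          exact e3
        have e7 : q₀ * fq16 P (|lat16 μ s (0, e) (0, y)| / wd μ s T + 1) * EE μ s T ≤ q₀ * fq16 P 2 * EE μ s T :=
          mul_le_mul_of_nonneg_right (mul_le_mul_of_nonneg_left e6 hq₀) hE.le
        linarith
    have p1 : (law μ).real (RK26 μ s 0 T (e - ⌊r⌋) (e + ⌊r⌋) (z - ⌊r⌋) (z + ⌊r⌋) (Real.exp (-(T : ℝ) ^ c')))ᶜ ≤ ε / 4 := by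
      refine ENNReal.toReal_le_of_le_ofReal (by positivity) g3
    have p2 : (law μ).real (Far16 μ s c 1 6 T T P (0, e) q₀)ᶜ ≤ ε / 4 := (hfar T k2 T le_rfl (0, e) q₀ hq₀).trans hq₀p
    have p3 := hUp T k4 Set.univ (Kb * wd μ s T + 2) (by positivity) (by nlinarith)
    calc (law μ).real (Mid99 μ s c T c' (q₀ * fq16 P 2) U Kb r e z)ᶜ ≤ _ := measureReal_mono hsub
      _ ≤ ((law μ).real (RK26 μ s 0 T (e - ⌊r⌋) (e + ⌊r⌋) (z - ⌊r⌋) (z + ⌊r⌋) (Real.exp (-(T : ℝ) ^ c')))ᶜ +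
          (law μ).real (Far16 μ s c 1 6 T T P (0, e) q₀)ᶜ) +
          (law μ).real (PW69 μ s Set.univ (hc μ s c T) T T (Kb * wd μ s T + 2) (U * EE μ s T))ᶜ :=
        (measureReal_union_le _ _).trans (add_le_add (measureReal_union_le _ _) le_rfl)
      _ ≤ ε := by linarith
  refine ⟨g1, g2, mM, on_Mid99 _ _ _ _ _ _ _ _, hprob, fun B => ⟨meas_Ty99 _ _ _ _ _ _ _ _ _, off_Ty99 _ _ _ _ _ _ _ _ _, ?_⟩⟩
  have e1 : (Ty99 μ s c B T c' (q₀ * fq16 P 2) U Kb r e z)ᶜ =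
      {ω | 1 / 2 < cP μ B (Mid99 μ s c T c' (q₀ * fq16 P 2) U Kb r e z)ᶜ ω} := by
    ext ω
    simp [Ty99]
  rw [e1]
  refine (cP_markov mM.compl (by norm_num)).trans ?_
  rw [div_le_iff₀ (by norm_num)]
  linarith

end

end Pool.Agent.W_7d29a1_C1.M99
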