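import Pool.Agent.W_7d29a1_C1.BoxX69
import Pool.Agent.W_7d29a1_C1.Mid99
import Pool.Agent.W_7d29a1_C1.LucN30

/-!
MP_7d29a1_pr, [C1] SEP, the LANE BLOCK: THE MIDDLE SLAB, from `Mid99` (helper99), `openX69` (helper69), the tame old futures and one
profile clause. (helper30) `mid30`: upper bound at all the sites (`mm`), lower bound from the cell to one site (`lo`), rank one (`hcr`).
-/

set_option autoImplicit false

namespace Pool.Agent.W_7d29a1_C1.Luc30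

open Finset MeasureTheory
open Pool.Agent.W_7d29a1_F Pool.Agent.W_7d29a1_h4g Pool.Agent.W_7d29a1_H Pool.Agent.W_7d29a1_HS
open Pool.Agent.W_7d29a1_C1
open Pool.Agent.W_7d29a1_C1.K91 (wt wt_pos)
open Pool.Agent.W_7d29a1_C1.K91P (bw bw_pos)
open Pool.Agent.W_7d29a1_C1.U16 (ker ker_nonneg)
open Pool.Agent.W_7d29a1_C1.Tb87 (Mx kx Mo Mx_pos)
open Pool.Agent.W_7d29a1_C1.Basin76 (kW)
open Pool.Agent.W_7d29a1_C1.BP58
open Pool.Agent.W_7d29a1_C1.H75 (hc)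
open Pool.Agent.W_7d29a1_C1.P24 (Ce24 mem_Ce24)
open Pool.Agent.W_7d29a1_C1.M99
open Pool.Agent.W_7d29a1_C1.H60
open Pool.Agent.W_7d29a1_C1.SD53
open Pool.Agent.W_7d29a1_C1.Lb76

noncomputable section

variable {μ : Measure ℝ} {s c C : ℝ} {n₀ : ℕ}

theorem mem_shift30 {e col y : ℤ} {ρ : ℝ} : y + col ∈ Ce24 (e + col) ρ ↔ y ∈ Ce24 e ρ := by
  rw [mem_Ce24, mem_Ce24]
  push_cast
  rw [show (y : ℝ) + col - (e + col) = y - e by ring]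

/-- **THE MIDDLE SLAB.** -/
theorem mid30 [IsProbabilityMeasure μ] (h : In μ s c C n₀) {Kh U0 q : ℝ} (hKh : 0 ≤ Kh) (hU0 : 0 ≤ U0) (hq : 0 ≤ q) (K₀ : ℝ) :
    ∃ Kp : ℝ, K₀ ≤ Kp ∧ Kh + 3 ≤ Kp ∧ ∃ n₁ : ℕ, 1 ≤ n₁ ∧ ∀ T : ℕ, n₁ ≤ T →
      ∀ (Γ : Cx) (r : ℕ) (col : ℤ) (g : ℝ), r + T < Γ.N → (∀ k, r ≤ k → k < r + T → Γ.p k = Real.exp (s + g)) →
        |g| * wd μ s T ≤ c / 8 * EE μ s T →
      ∀ ωA ωM : Env, (∀ i, r + T < i → ∀ y, wt ωM i y = wt ωA i y) → (∀ y, wt ωM r y = wt ωA r y) →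
      ∀ ωB : ℝ, 0 ≤ ωB → ωB ≤ Kh * wd μ s T →
        (∀ (t : ℕ) (x : ℤ), ωB < lat69 μ s t x → ωA (((r + t : ℕ) : ℤ), x + col) = ωM (((r + t : ℕ) : ℤ), x + col)) →
        (∀ (t : ℕ) (x : ℤ), t < T → (t = 0 ∨ ωB < lat69 μ s t x) → lat69 μ s t x ≤ ωB + 1 →
          TameV69 μ s g (wt ωA) Γ.p (Mx (wt ωA) Γ.p Γ.N (r + T)) r col T (Kp * wd μ s T) ((q + c / 4 * Kp) * EE μ s T) t x) →
      ∀ (c' q' ρ : ℝ) (e z : ℤ), |(z : ℝ) - e - sl μ s * T| ≤ 2 * wd μ s T → 0 ≤ ρ → ρ ≤ wd μ s T →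
        sh ((r : ℤ), col) ωM ∈ Mid99 μ s c T c' q' U0 Kh ρ e z →
        (∀ y, bW Γ ωM r y ≤ 2 * Real.exp ((U0 + (q + c / 8 * (Kh + 1)) + c / 2 * Kp) * EE μ s T) * bW Γ ωA r y) ∧
        (∀ (A : Set ℤ) (Q : ℝ), z + col ∈ A → (∀ y ∈ Ce24 (e + col) ρ, Mx (wt ωA) Γ.p Γ.N r y ≤
            Real.exp (Q * EE μ s T) * Real.exp (T * lam μ s + g * (sl μ s * T)) * Mx (wt ωA) Γ.p Γ.N (r + T) (z + col)) →
          ∀ y ∈ Ce24 (e + col) ρ, Real.exp (-((q' + Q + c) * EE μ s T)) * bW Γ ωA r y ≤ QA Γ ωM (r + T) A r y) ∧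
        (∀ ω : Env, (∀ i, r < i → i ≤ r + T → ∀ y, ω ((i : ℕ), y) = ωM ((i : ℕ), y)) →
          ∀ x ∈ Ce24 (e + col) ρ, ∀ x' ∈ Ce24 (e + col) ρ, x < x' → ∀ v ∈ Ce24 (z + col) ρ, ∀ v' ∈ Ce24 (z + col) ρ, v < v' →
            ker (wt ω) Γ.p r T x v * ker (wt ω) Γ.p r T x' v' - ker (wt ω) Γ.p r T x v' * ker (wt ω) Γ.p r T x' v ≤
              Real.exp (-(T : ℝ) ^ c') * (ker (wt ω) Γ.p r T x v * ker (wt ω) Γ.p r T x' v')) := by
  obtain ⟨Kp, hKp0, hKp1, n₁, hn₁, H⟩ := openX69 h hKh hU0 hq K₀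
  refine ⟨Kp, hKp0, hKp1, n₁, hn₁, fun T hT Γ r col g hN hp hg ωA ωM hfut hrow ωB hB0 hB1 heq hTm c' q' ρ e z hez hρ hρ1 hM => ?_⟩
  have hE := (EE_pos (μ := μ) (s := s) T).le
  refine ⟨fun y => ?_, fun A Q hz hpr y hy => ?_, fun ω hω => ?_⟩
  · -- the upper bound
    have hPW : sh ((r : ℤ), col) ωM ∈ PW69 μ s Set.univ (hc μ s c T) T T (Kh * wd μ s T + 1) (U0 * EE μ s T) :=
      PW69_mono (subset_refl _) le_rfl le_rfl (by linarith) le_rfl (Mid99.up hM)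
    have h1 := H T hT r col Γ.p g Γ.p_pos hp hg ωA ωM hPW ωB hB0 hB1 heq (Mx (wt ωA) Γ.p Γ.N (r + T))
      (fun y => (Mx_pos (wt_pos ωA) Γ.p_pos _ _).le) hTm
    exact mm30 h1 hN hfut hrow y
  · -- the lower bound
    have hy' : y - col ∈ Ce24 e ρ := by
      rw [← mem_shift30 (col := col), sub_add_cancel]
      exact hy
    have hlow := Mid99.low' hM hρ hy'
    have hD : |g| * |((z + col - y : ℤ) : ℝ) - sl μ s * T| ≤ c * EE μ s T := by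
      have h1 := mem_Ce24.1 hy
      push_cast at h1
      have h2 : |((z + col - y : ℤ) : ℝ) - sl μ s * T| ≤ 3 * wd μ s T := by
        push_cast
        rw [abs_le] at h1 hez ⊢
        constructor <;> linarith [h1.1, h1.2, hez.1, hez.2]
      have h3 := mul_le_mul_of_nonneg_left h2 (abs_nonneg g)
      have hc0 := h.c0
      have h4 : 0 ≤ c * EE μ s T := mul_nonneg hc0.le hE
      linarith
    have h1 := lo30 (μ := μ) (s := s) (g := g) (Γ := Γ) hp hN hfut hrow (A := A) (y := y) (z := z) (q := q' * EE μ s T)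
      (Q := Q * EE μ s T) (D := c * EE μ s T) hz hlow (hpr y hy) hD
    have e1 : -((q' + Q + c) * EE μ s T) = -(q' * EE μ s T + Q * EE μ s T + c * EE μ s T) := by ring
    rw [e1]
    exact h1
  · -- rank one
    have hk : ∀ x v : ℤ, kW μ s (sh ((r : ℤ), col) ω) 0 T x v = kW μ s (sh ((r : ℤ), col) ωM) 0 T x v := by
      intro x v
      refine Pool.Agent.W_7d29a1_C1.R26.kW_dep (μ := μ) (s := s) (fun p h1 h2 => ?_) x v
      show ω (p + ((r : ℤ), col)) = ωM (p + ((r : ℤ), col))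
      obtain ⟨i, hi⟩ : ∃ i : ℕ, (i : ℤ) = p.1 + r := ⟨(p.1 + r).toNat, Int.toNat_of_nonneg (by omega)⟩
      have e1 : p + ((r : ℤ), col) = ((i : ℤ), p.2 + col) := by
        refine Prod.ext ?_ rfl
        show p.1 + (r : ℤ) = i
        rw [hi]
      rw [e1]
      exact hω i (by omega) (by omega) _
    refine hcr30 (μ := μ) (s := s) (g := g) (ω := ω) (col := col) hp (C1 := ↑(Ce24 (e + col) ρ)) (C2 := ↑(Ce24 (z + col) ρ)) (Real.exp_pos _).le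
      fun y hy y' hy' v hv v' hv' => ?_
    rw [hk, hk, hk, hk]
    exact Mid99.rank hM (mem_shift30.1 (Finset.mem_coe.1 hy)) (mem_shift30.1 (Finset.mem_coe.1 hy')) (mem_shift30.1 (Finset.mem_coe.1 hv))
      (mem_shift30.1 (Finset.mem_coe.1 hv'))

end

end Pool.Agent.W_7d29a1_C1.Luc30
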