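import Pool.Agent.W_7d29a1_C1.SlabS20
import Pool.Agent.W_7d29a1_C1.TubeG71

/-!
MP_7d29a1_pr, [C1] SLAB LEMMA WITHOUT HYPOTHESIS: helper71's tubes put into `slab20`. (helper20)
-/

set_option autoImplicit false

namespace Pool.Agent.W_7d29a1_C1

open MeasureTheory ProbabilityTheory Filter Topology
open Pool.Agent.W_7d29a1_F Pool.Agent.W_7d29a1_h4g Pool.Agent.W_7d29a1_H Pool.Agent.W_7d29a1_HS
open Pool.Agent.W_7d29a1_C1.S71 (Off gl)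

noncomputable section

variable {μ : Measure ℝ} {s c C : ℝ} {n₀ : ℕ}

theorem tubeG20 [IsProbabilityMeasure μ] (h : In μ s c C n₀) : TubeG20 μ s :=
  fun _ hd K₁ K => T71.tubeG h hd K₁ K

/-- **THE SLAB LEMMA WITH LUCKY LANES**, no hypothesis besides `In`. -/
theorem slabU20 [IsProbabilityMeasure μ] (h : In μ s c C n₀) {K δ G : ℝ} (L : ℝ) (hK : 0 ≤ K) (hδ : 0 < δ)
    (hG : 0 ≤ G) (m : ℕ) :
    ∃ (U c₁ : ℝ) (Q n₁ : ℕ), 0 ≤ U ∧ 0 < c₁ ∧ 1 ≤ Q ∧ 1 ≤ n₁ ∧ ∀ n : ℕ, n₁ ≤ n → ∀ (ι : Type) [Fintype ι], Fintype.card ι ≤ m →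
      ∀ a e : ι → ℤ, (∀ j, |(a j : ℝ)| ≤ K * wd μ s (Q * n)) → (∀ j, |(e j : ℝ) - sl μ s * (Q * n : ℕ)| ≤ K * wd μ s (Q * n)) →
        (∀ j j', j ≠ j' → ((a j : ℝ) + δ * wd μ s (Q * n) ≤ a j' ∧ (e j : ℝ) + δ * wd μ s (Q * n) ≤ e j') ∨
          ((a j' : ℝ) + δ * wd μ s (Q * n) ≤ a j ∧ (e j' : ℝ) + δ * wd μ s (Q * n) ≤ e j)) →
        c₁ ≤ (law μ).real (SLAB20 μ s a e (Q * n) (K * wd μ s (Q * n)) (δ / 8 * wd μ s (Q * n)) (L * EE μ s (Q * n))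
          (G * EE μ s (Q * n)) (U * EE μ s (Q * n))) :=
  slab20 h (tubeG20 h) L hK hδ hG m

/-- **The same at any base `b`, the rows of the slab (or more) resampled, everything else frozen.** -/
theorem slabF20 [IsProbabilityMeasure μ] (h : In μ s c C n₀) {K δ G : ℝ} (L : ℝ) (hK : 0 ≤ K) (hδ : 0 < δ)
    (hG : 0 ≤ G) (m : ℕ) :
    ∃ (U c₁ : ℝ) (Q n₁ : ℕ), 0 ≤ U ∧ 0 < c₁ ∧ 1 ≤ Q ∧ 1 ≤ n₁ ∧ ∀ n : ℕ, n₁ ≤ n → ∀ (ι : Type) [Fintype ι], Fintype.card ι ≤ m →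
      ∀ a e : ι → ℤ, (∀ j, |(a j : ℝ)| ≤ K * wd μ s (Q * n)) → (∀ j, |(e j : ℝ) - sl μ s * (Q * n : ℕ)| ≤ K * wd μ s (Q * n)) →
        (∀ j j', j ≠ j' → ((a j : ℝ) + δ * wd μ s (Q * n) ≤ a j' ∧ (e j : ℝ) + δ * wd μ s (Q * n) ≤ e j') ∨
          ((a j' : ℝ) + δ * wd μ s (Q * n) ≤ a j ∧ (e j' : ℝ) + δ * wd μ s (Q * n) ≤ e j)) →
        ∀ (b : Pt) (B : Set Pt), rows b.1 (b.1 + (Q * n : ℕ)) ⊆ B → ∀ f : Env,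
        c₁ ≤ (law μ).real {η | gl B η f ∈ at20 b (SLAB20 μ s a e (Q * n) (K * wd μ s (Q * n)) (δ / 8 * wd μ s (Q * n))
          (L * EE μ s (Q * n)) (G * EE μ s (Q * n)) (U * EE μ s (Q * n)))} := by
  obtain ⟨U, c₁, Q, n₁, hU, hc₁, hQ, hn₁, hmain⟩ := slabU20 h L hK hδ hG m
  refine ⟨U, c₁, Q, n₁, hU, hc₁, hQ, hn₁, fun n hn ι _ hcard a e ha he hsep b B hB f => ?_⟩
  rw [slab_gl20 a e (Q * n) _ _ _ _ _ b hB f]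
  exact hmain n hn ι hcard a e ha he hsep

end

end Pool.Agent.W_7d29a1_C1
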