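import Pool.Agent.W_7d29a1_C1.BoxSB58
import Pool.Agent.W_7d29a1_C1.BoxT58
import Pool.Agent.W_7d29a1_C1.SlabT20

/-!
MP_7d29a1_pr, [C1] SEP, the LANE BLOCK: THE PROBABILITY OF THREE SLABS. (helper30)

`LC30` = the lucky content of one slab (all lanes lucky, (H0) in the window `Kh`, (H1), (H2), the walls up to `Kb`); `boxSB30` = `boxSB58`
of helper58 with `Kh`; `BL30` = the block of three
slabs of `T = N n` rows: `LC30` at the base `b0`, an arbitrary event `MM` of the rows of the middle slab, `LC30` at the base `b2`.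
**`luc30`**: the outsides for which the block is lucky with conditional probability `< p` have probability `≤ ε`; the luck and the outer
window of the LOWER slab `A` are chosen after the constants (`pB`, `U1B`) of the UPPER slab `B`.
-/

set_option autoImplicit false

namespace Pool.Agent.W_7d29a1_C1.Luc30

open MeasureTheory ProbabilityTheory Filter Topology
open Pool.Agent.W_7d29a1_F Pool.Agent.W_7d29a1_h4g Pool.Agent.W_7d29a1_H Pool.Agent.W_7d29a1_HS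
open Pool.Agent.W_7d29a1_HR (Dec Fin')
open Pool.Agent.W_7d29a1_C1
open Pool.Agent.W_7d29a1_C1.S71
open Pool.Agent.W_7d29a1_C1.F31
open Pool.Agent.W_7d29a1_C1.BP58
open Pool.Agent.W_7d29a1_C1.H75

noncomputable section

variable {μ : Measure ℝ} {s c C : ℝ} {n₀ : ℕ}

/-! ### One slab -/

/-- The lucky content of one slab. -/
def LC30 (μ : Measure ℝ) (s c : ℝ) {ι : Type} (a e : ι → ℤ) (N n : ℕ) (δ Kb Kh U0 L Kp U1 ρ Y : ℝ) : Set Env :=
  LN58 μ s a e (N * n) δ L ∩ H058 μ s c a e (N * n) δ Kh U0 ∩ H158 μ s c N n Kp U1 ρ ∩ WL58 μ s a e N n δ Kb ρ Y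

theorem meas_LC30 {ι : Type} [Countable ι] [Finite ι] (a e : ι → ℤ) (N n : ℕ) (δ Kb Kh U0 L Kp U1 ρ Y : ℝ) :
    MeasurableSet (LC30 μ s c a e N n δ Kb Kh U0 L Kp U1 ρ Y) :=
  (((meas_LN58 a e _ _ _).inter meas_PW69).inter (meas_PW69.inter meas_PW69)).inter (meas_WALL20 _ _ _ _ _ _ _)

private theorem on_PW69 {R : Set Pt} {h : ℝ} {T m : ℕ} {D b : ℝ} : On20 (rows 0 (0 + T)) (PW69 μ s R h T m D b) := fun η η' hh =>
  dep_PW69 fun p _ h1 h2 => hh p ⟨h1, by rw [zero_add]; exact h2⟩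

/-- The content of a slab is an event of its rows. -/
theorem on_LC30 [IsProbabilityMeasure μ] {ι : Type} (a e : ι → ℤ) (N n : ℕ) (δ Kb Kh U0 L Kp U1 ρ Y : ℝ) :
    On20 (rows 0 (0 + (N * n : ℕ))) (LC30 μ s c a e N n δ Kb Kh U0 L Kp U1 ρ Y) := by
  have h1 : On20 (rows 0 (0 + (N * n : ℕ))) (LN58 μ s a e (N * n) δ L) := by
    unfold LN58
    exact On20.iInter fun j η η' hh => dep_LN20 (μ := μ) (s := s) a e (N * n) _ _ j η η' fun q hq => hh q ⟨hq.1, hq.2.1⟩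
  have h2 : On20 (rows 0 (0 + (N * n : ℕ))) (WL58 μ s a e N n δ Kb ρ Y) := by
    have k1 : Off (rows 0 (0 + (N * n : ℕ)))ᶜ (WL58 μ s a e N n δ Kb ρ Y) := by
      refine wall_sites20 (μ := μ) (s := s) _ _ _ n N _ _ _ fun i z hi hz _ p hp => Set.notMem_compl_iff.2 ?_
      obtain ⟨_, h2, h3⟩ := hp
      have h2' : ((i * n : ℕ) : ℤ) < p.1 := h2
      have h3' : p.1 ≤ ((i * n : ℕ) : ℤ) + n := h3
      have h4 : ((i * n : ℕ) : ℤ) + n ≤ ((N * n : ℕ) : ℤ) := by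
        have : i * n + n ≤ N * n := by
          have := Nat.mul_le_mul_right n (show i + 1 ≤ N from hi)
          linarith
        exact_mod_cast this
      exact ⟨lt_of_le_of_lt (Int.natCast_nonneg _) h2', by rw [zero_add]; exact h3'.trans h4⟩
    exact fun η η' hh => k1 η η' fun p hp => hh p (Set.notMem_compl_iff.1 hp)
  exact ((h1.inter on_PW69).inter (on_PW69.inter on_PW69)).inter h2

/-! ### The probability line of one slab -/

/-- `boxSB58` with (H0) asked in its own window `Kh`. -/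
theorem boxSB30 [IsProbabilityMeasure μ] (h : In μ s c C n₀) {K δ ε Kb Kh : ℝ} (hK : 0 ≤ K) (hδ : 0 < δ)
    (hε : 0 < ε) (hKb : K + δ / 32 ≤ Kb) (hKh : 0 ≤ Kh) (m : ℕ) :
    ∃ U0 : ℝ, 0 < U0 ∧ ∀ L Kp : ℝ, 0 ≤ Kp → ∃ pL : ℝ, 0 < pL ∧ ∃ U1 : ℝ, 0 < U1 ∧ ∀ ρ₀ Y Z : ℝ, 0 < ρ₀ → ρ₀ ≤ Kb →
      ∃ N₀ : ℕ, 1 ≤ N₀ ∧ ∀ N : ℕ, N₀ ≤ N → ∃ pW : ℝ, 0 < pW ∧ ∃ n₁ : ℕ, 1 ≤ n₁ ∧ ∀ n : ℕ, n₁ ≤ n →
        Z * EE μ s (N * n) ≤ hc μ s c n * (ρ₀ * wd μ s (N * n)) / 4 ∧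
        ∀ B : Set Pt, B58 μ s (N * n) Kb ⊆ B → ∀ (ι : Type) [Fintype ι], Fintype.card ι ≤ m → ∀ a e : ι → ℤ, (∀ j, |(a j : ℝ)| ≤ K * wd μ s (N * n)) →
          (∀ j, |(e j : ℝ) - sl μ s * (N * n : ℕ)| ≤ K * wd μ s (N * n)) →
          (∀ j j', j ≠ j' → ((a j : ℝ) + δ * wd μ s (N * n) ≤ a j' ∧ (e j : ℝ) + δ * wd μ s (N * n) ≤ e j') ∨
            ((a j' : ℝ) + δ * wd μ s (N * n) ≤ a j ∧ (e j' : ℝ) + δ * wd μ s (N * n) ≤ e j)) →
          (law μ).real (Typ58 μ B (H058 μ s c a e (N * n) δ Kh U0)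
            (H158 μ s c N n Kp U1 (ρ₀ * wd μ s (N * n))) pL)ᶜ ≤ ε ∧
          ∀ ω ∈ Typ58 μ B (H058 μ s c a e (N * n) δ Kh U0) (H158 μ s c N n Kp U1 (ρ₀ * wd μ s (N * n))) pL,
            pL / 2 * pW ≤ cP μ B (LC30 μ s c a e N n δ Kb Kh U0 L Kp U1 (ρ₀ * wd μ s (N * n)) Y) ω := by
  have hKb0 : 0 ≤ Kb := by linarith
  obtain ⟨U0, hU0, nA, hA⟩ := h0_num58 (μ := μ) (s := s) h (D := Kh) hKh (show 0 < ε / 8 by positivity)
  refine ⟨U0, hU0, fun L Kp hKp => ?_⟩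
  obtain ⟨p₀, hp₀, nT, hlane⟩ := tubeG20 h (δ / 32) (by positivity) (2 * K) L
  obtain ⟨pL, hpL⟩ : ∃ pL : ℝ, pL = min p₀ 1 ^ m := ⟨_, rfl⟩
  have hpL0 : 0 < pL := by rw [hpL]; positivity
  obtain ⟨U1, hU1, nB, hB⟩ := h0_num58 (μ := μ) (s := s) h (D := Kp) hKp (show 0 < ε * pL / 16 by positivity)
  refine ⟨pL, hpL0, U1, hU1, fun ρ₀ Y Z hρ hρb => ?_⟩
  obtain ⟨N₁, nC, hN₁, hC2⟩ := h2_num58 (μ := μ) (s := s) h hKp hρ (show 0 < ε * pL / 16 by positivity) Z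
  refine ⟨max N₁ ⌈2 * K / ρ₀⌉₊, hN₁.trans (le_max_left _ _), fun N hN => ?_⟩
  have hN1 : 1 ≤ N := hN₁.trans ((le_max_left _ _).trans hN)
  obtain ⟨pW, hpW, nD, hW⟩ := wallP20 (μ := μ) (s := s) h (K₃ := Kb - ρ₀) (by linarith) hρ.le hN1 Y
  obtain ⟨nE, hnE⟩ := eventually_atTop.1 ((wd_tendsto h).eventually_ge_atTop 1)
  refine ⟨pW, hpW, max 1 (max (max nA nB) (max (max nC nD) (max nE nT))), le_max_left _ _, fun n hn => ?_⟩
  have hn1 : 1 ≤ n := (le_max_left _ _).trans hn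
  have hn' := (le_max_right _ _).trans hn
  have hnA : nA ≤ n := (le_max_left _ _).trans ((le_max_left _ _).trans hn')
  have hnB : nB ≤ n := (le_max_right _ _).trans ((le_max_left _ _).trans hn')
  have hn'' := (le_max_right _ _).trans hn'
  have hnC : nC ≤ n := (le_max_left _ _).trans ((le_max_left _ _).trans hn'')
  have hnD : nD ≤ n := (le_max_right _ _).trans ((le_max_left _ _).trans hn'')
  have hnE' : nE ≤ n := (le_max_left _ _).trans ((le_max_right _ _).trans hn'')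
  have hnT : nT ≤ n := (le_max_right _ _).trans ((le_max_right _ _).trans hn'')
  have hTn : n ≤ N * n := Nat.le_mul_of_pos_left n hN1
  have hT1 : 1 ≤ N * n := hn1.trans hTn
  have hw1 := hnE (N * n) (hnE'.trans hTn)
  have hw0 : 0 < wd μ s (N * n) := by linarith
  obtain ⟨hZ, hC3⟩ := hC2 N n ((le_max_left _ _).trans hN) hnC
  refine ⟨hZ, fun B hBB ι _ hcard a e ha he hsep => ?_⟩
  have hOff : ∀ {E : Set Env}, Off (B58 μ s (N * n) Kb)ᶜ E → Off Bᶜ E := fun hE η η' hh =>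
    hE η η' fun p hp => hh p fun h => hp fun h' => h (hBB h')
  have hδw : 0 < δ * wd μ s (N * n) := by positivity
  -- the events are measurable
  have mL : MeasurableSet (LN58 μ s a e (N * n) δ L) := meas_LN58 a e _ _ _
  have m0 : MeasurableSet (H058 μ s c a e (N * n) δ Kh U0) := meas_PW69
  have m1 : MeasurableSet (H158 μ s c N n Kp U1 (ρ₀ * wd μ s (N * n))) := meas_PW69.inter meas_PW69
  have mW : MeasurableSet (WL58 μ s a e N n δ Kb (ρ₀ * wd μ s (N * n)) Y) := meas_WALL20 _ _ _ _ _ _ _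
  constructor
  · -- typical
    have t1 := typ58 (μ := μ) (B := B) m0 m1 hpL0
    have t2 : (law μ).real (H058 μ s c a e (N * n) δ Kh U0)ᶜ ≤ ε / 8 :=
      hA (N * n) (hnA.trans hTn) _ (Kh * wd μ s (N * n) + 1) (by positivity) le_rfl
    have t3 : (law μ).real (H158 μ s c N n Kp U1 (ρ₀ * wd μ s (N * n)))ᶜ ≤ ε * pL / 8 := by
      have u1 := hB (N * n) (hnB.trans hTn) Set.univ (Kp * wd μ s (N * n)) (by positivity) (by linarith)
      have u2 := hC3 Set.univ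
      have u3 : (H158 μ s c N n Kp U1 (ρ₀ * wd μ s (N * n)))ᶜ =
          (PW69 μ s Set.univ (hc μ s c (N * n)) (N * n) (N * n) (Kp * wd μ s (N * n)) (U1 * EE μ s (N * n)))ᶜ ∪
          (PW69 μ s Set.univ (hc μ s c n) (N * n) (2 * n) (Kp * wd μ s (N * n)) (hc μ s c n * (ρ₀ * wd μ s (N * n)) / 4))ᶜ := by
        unfold H158
        rw [Set.compl_inter]
      rw [u3]
      refine (measureReal_union_le _ _).trans ?_
      linarith
    have t4 : 4 / pL * (law μ).real (H158 μ s c N n Kp U1 (ρ₀ * wd μ s (N * n)))ᶜ ≤ 4 / pL * (ε * pL / 8) :=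
      mul_le_mul_of_nonneg_left t3 (by positivity)
    have t5 : 4 / pL * (ε * pL / 8) = ε / 2 := by field_simp; ring
    linarith
  · intro ω hω
    have hP : ∀ j, min p₀ 1 ≤ (law μ).real (LN20 μ s a e (N * n) (δ / 32 * wd μ s (N * n)) (L * EE μ s (N * n)) j) := by
      intro j
      refine (min_le_left _ _).trans (hlane (N * n) (hnT.trans hTn) ((0 : ℤ), a j) (e j - a j) ?_)
      have h3 := abs_le.1 (ha j)
      have h4 := abs_le.1 (he j)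
      rw [abs_le]
      push_cast at h4 ⊢
      constructor <;> linarith [h3.1, h3.2, h4.1, h4.2]
    have hp1 : pL ≤ (law μ).real (LN58 μ s a e (N * n) δ L) := by
      have u1 := lanes_prob20 (μ := μ) (s := s) hT1 (le_min hp₀.le zero_le_one) (d := δ * wd μ s (N * n)) (by linarith) hsep hP Finset.univ
      have u2 : (⋂ j ∈ (Finset.univ : Finset ι), LN20 μ s a e (N * n) (δ / 32 * wd μ s (N * n)) (L * EE μ s (N * n)) j) =
          LN58 μ s a e (N * n) δ L := by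
        unfold LN58
        simp
      rw [u2] at u1
      refine le_trans ?_ u1
      rw [hpL]
      exact pow_le_pow_of_le_one (le_min hp₀.le zero_le_one) (min_le_right _ _) (by rw [Finset.card_univ]; exact hcard)
    have hpW' : pW ≤ (law μ).real (WL58 μ s a e N n δ Kb (ρ₀ * wd μ s (N * n)) Y) := by
      have u1 := hW n hnD ι (δ / 32 * wd μ s (N * n) + 2 * (ρ₀ * wd μ s (N * n))) (la20 (sl20 a e (N * n)) n)
      rw [sub_mul] at u1
      exact u1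
    have u3 := lucky58 (μ := μ) (B := B) (S := S58 μ s a e (N * n) δ) mL m0 m1 mW
      (off_LN58_S a e _ _ _)
      (hOff (off_LN58_B hT1 ha he (by nlinarith)))
      (off_PW69 (Set.disjoint_compl_left_iff_subset.2 subset_rfl)) dec_PW69
      (DecO.of_dec (Dec.inter dec_PW69 dec_PW69) _)
      (hOff (off_WL58_B a e N n δ Kb _ Y))
      (off_WL58_S hn1 hN1 ha he (by positivity) (by
        have v1 : 2 * K / ρ₀ ≤ N := (Nat.le_ceil _).trans (by exact_mod_cast (le_max_right _ _).trans hN)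
        rw [div_le_iff₀ hρ] at v1
        nlinarith))
      (fin_WALL20 _ _ _ _ _ _ _) (dec_WALL20 _ _ _ _ _ _ _) hp1 hω
    refine le_trans ?_ u3
    exact mul_le_mul_of_nonneg_left hpW' (by positivity)

/-! ### Conditional probabilities -/

/-- A typical event stays probable for typical outsides. -/
theorem typ30 [IsProbabilityMeasure μ] {B : Set Pt} {F : Set Env} (mF : MeasurableSet F) :
    (law μ).real {ω | 1 / 2 ≤ cP μ B F ω}ᶜ ≤ 2 * (law μ).real Fᶜ := by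
  have hp := isProb58 (μ := μ)
  have e : {ω | 1 / 2 ≤ cP μ B F ω}ᶜ ⊆ {ω | 1 / 2 < cP μ B Fᶜ ω} := by
    intro ω hω
    have h1 : ¬ (1 / 2 ≤ cP μ B F ω) := hω
    show 1 / 2 < cP μ B Fᶜ ω
    have h2 : cP μ B Fᶜ ω = 1 - cP μ B F ω := by
      have e1 : {ξ | gl B ξ ω ∈ Fᶜ} = {ξ | gl B ξ ω ∈ F}ᶜ := rfl
      unfold cP
      rw [e1, probReal_compl_eq_one_sub (meas_sec mF ω)]
    rw [h2]
    push Not at h1
    linarith
  refine (measureReal_mono e).trans ((cP_markov (μ := μ) (B := B) mF.compl (show (0 : ℝ) < 1 / 2 by norm_num)).trans (le_of_eq ?_))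
  ring

/-- The window seen from the site `b`. -/
def Bat30 (B : Set Pt) (b : Pt) : Set Pt := {p | p + b ∈ B}

/-- The probability of a translated event. -/
theorem cP_tr30 [IsProbabilityMeasure μ] {B : Set Pt} {E : Set Env} (mE : MeasurableSet E) (b : Pt) (ω : Env) :
    cP μ B (at20 b E) ω = cP μ (Bat30 B b) E (sh b ω) := by
  rw [← cP_at b mE]
  congr 1
  ext p
  rw [mem_tr58]
  show p ∈ B ↔ p - b + b ∈ B
  rw [sub_add_cancel]

theorem meas_set30 [IsProbabilityMeasure μ] {B : Set Pt} {E : Set Env} (mE : MeasurableSet E) (p : ℝ) : MeasurableSet {ω | p ≤ cP μ B E ω} :=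
  measurableSet_le measurable_const (measurable_cP mE)

theorem off_set30 {B : Set Pt} (E : Set Env) (p : ℝ) : Off B {ω | p ≤ cP μ B E ω} := fun ω ω' h => by
  show p ≤ cP μ B E ω ↔ p ≤ cP μ B E ω'
  rw [cP_off E h]

theorem on_set30 {A B : Set Pt} {E : Set Env} (hE : On20 A E) (p : ℝ) : On20 A {ω | p ≤ cP μ B E ω} := fun ω ω' h => by
  show p ≤ cP μ B E ω ↔ p ≤ cP μ B E ω'
  rw [cP_congr hE fun q hq _ => h q hq]

/-! ### The block -/

/-- The block: slab `A` at `b0`, the event `MM` in the middle, slab `B` at `b2`. -/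
def BL30 (b0 b2 : Pt) (LA MM LB : Set Env) : Set Env := at20 b0 LA ∩ (MM ∩ at20 b2 LB)

theorem meas_BL30 {b0 b2 : Pt} {LA MM LB : Set Env} (mA : MeasurableSet LA) (mM : MeasurableSet MM) (mB : MeasurableSet LB) :
    MeasurableSet (BL30 b0 b2 LA MM LB) := (meas_at20 b0 mA).inter (mM.inter (meas_at20 b2 mB))

private theorem dis_rows {a b a' b' : ℤ} (h : b ≤ a') : Disjoint (rows a b) (rows a' b') := by
  rw [Set.disjoint_left]
  intro p hp hp'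
  have h1 : p.1 ≤ b := hp.2
  have h2 : a' < p.1 := hp'.1
  omega

/-- The block is an event of its `3 T` rows. -/
theorem on_BL30 {b0 b2 : Pt} {LA MM LB : Set Env} {T : ℕ} (h2 : b2.1 = b0.1 + (2 * T : ℕ)) (oA : On20 (rows 0 (0 + T)) LA)
    (oM : On20 (rows (b0.1 + T) (b0.1 + (2 * T : ℕ))) MM) (oB : On20 (rows 0 (0 + T)) LB) :
    On20 (rows b0.1 (b0.1 + (3 * T : ℕ))) (BL30 b0 b2 LA MM LB) := by
  refine On20.inter ((on_at20' b0 oA).mono fun p hp => ⟨hp.1, hp.2.trans ?_⟩)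
    (On20.inter (oM.mono fun p hp => ⟨lt_of_le_of_lt ?_ hp.1, hp.2.trans ?_⟩)
      ((on_at20' b2 oB).mono fun p hp => ⟨lt_of_le_of_lt ?_ hp.1, hp.2.trans ?_⟩))
  all_goals push_cast [h2]
  all_goals omega

/-- **THE PRODUCT.** -/
theorem cP_BL30 [IsProbabilityMeasure μ] {B : Set Pt} {b0 b2 : Pt} {LA MM LB : Set Env} {T : ℕ} (h2 : b2.1 = b0.1 + (2 * T : ℕ))
    (mA : MeasurableSet LA) (mM : MeasurableSet MM) (mB : MeasurableSet LB) (oA : On20 (rows 0 (0 + T)) LA)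
    (oM : On20 (rows (b0.1 + T) (b0.1 + (2 * T : ℕ))) MM) (oB : On20 (rows 0 (0 + T)) LB) (ω : Env) :
    cP μ B (BL30 b0 b2 LA MM LB) ω = cP μ (Bat30 B b0) LA (sh b0 ω) * (cP μ B MM ω * cP μ (Bat30 B b2) LB (sh b2 ω)) := by
  have o0 : On20 (rows b0.1 (b0.1 + T)) (at20 b0 LA) := on_at20' b0 oA
  have o2 : On20 (rows b2.1 (b2.1 + T)) (at20 b2 LB) := on_at20' b2 oB
  have k1 : cP μ B (MM ∩ at20 b2 LB) ω = cP μ B MM ω * cP μ B (at20 b2 LB) ω :=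
    cP_inter mM (meas_at20 b2 mB) oM o2 (dis_rows (by omega)) ω
  have o3 : On20 (rows (b0.1 + T) (b0.1 + (3 * T : ℕ))) (MM ∩ at20 b2 LB) := by
    refine On20.inter (oM.mono fun p hp => ⟨hp.1, hp.2.trans ?_⟩) (o2.mono fun p hp => ⟨lt_of_le_of_lt ?_ hp.1, hp.2.trans ?_⟩)
    all_goals push_cast [h2]
    all_goals omega
  have k2 : cP μ B (BL30 b0 b2 LA MM LB) ω = cP μ B (at20 b0 LA) ω * cP μ B (MM ∩ at20 b2 LB) ω :=
    cP_inter (meas_at20 b0 mA) (mM.inter (meas_at20 b2 mB)) o0 o3 (dis_rows le_rfl) ω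
  rw [k2, k1, cP_tr30 mA, cP_tr30 mB]

/-- The block is probable for typical outsides. -/
theorem le_BL30 [IsProbabilityMeasure μ] {B : Set Pt} {b0 b2 : Pt} {LA MM LB : Set Env} {T : ℕ} (h2 : b2.1 = b0.1 + (2 * T : ℕ))
    (mA : MeasurableSet LA) (mM : MeasurableSet MM) (mB : MeasurableSet LB) (oA : On20 (rows 0 (0 + T)) LA)
    (oM : On20 (rows (b0.1 + T) (b0.1 + (2 * T : ℕ))) MM) (oB : On20 (rows 0 (0 + T)) LB)
    {TA TB : Set Env} (mTA : MeasurableSet TA) (mTB : MeasurableSet TB) {pA pB eA eM eB : ℝ} (hpB : 0 ≤ pB)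
    (hA : ∀ ω ∈ TA, pA ≤ cP μ (Bat30 B b0) LA ω) (hB : ∀ ω ∈ TB, pB ≤ cP μ (Bat30 B b2) LB ω)
    (eTA : (law μ).real TAᶜ ≤ eA) (eTB : (law μ).real TBᶜ ≤ eB) (eMM : (law μ).real MMᶜ ≤ eM) :
    (law μ).real {ω | pA * (1 / 2 * pB) ≤ cP μ B (BL30 b0 b2 LA MM LB) ω}ᶜ ≤ eA + (2 * eM + eB) := by
  have hp := isProb58 (μ := μ)
  have sub : {ω | pA * (1 / 2 * pB) ≤ cP μ B (BL30 b0 b2 LA MM LB) ω}ᶜ ⊆
      at20 b0 TAᶜ ∪ ({ω | 1 / 2 ≤ cP μ B MM ω}ᶜ ∪ at20 b2 TBᶜ) := by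
    intro ω hω
    by_contra hcon
    rw [Set.mem_union, Set.mem_union, not_or, not_or] at hcon
    obtain ⟨h1, h3, h4⟩ := hcon
    have h1' : sh b0 ω ∈ TA := by
      by_contra h
      exact h1 h
    have h3' : 1 / 2 ≤ cP μ B MM ω := by
      by_contra h
      exact h3 h
    have h4' : sh b2 ω ∈ TB := by
      by_contra h
      exact h4 h
    refine hω ?_
    show pA * (1 / 2 * pB) ≤ cP μ B (BL30 b0 b2 LA MM LB) ω
    rw [cP_BL30 h2 mA mM mB oA oM oB ω]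
    exact mul_le_mul (hA _ h1') (mul_le_mul h3' (hB _ h4') hpB ((by norm_num : (0 : ℝ) ≤ 1 / 2).trans h3'))
      (by positivity) (cP_nonneg _ _)
  refine (measureReal_mono sub).trans ((measureReal_union_le _ _).trans (add_le_add ?_ ((measureReal_union_le _ _).trans
    (add_le_add ?_ ?_))))
  · rw [real_at20 b0 mTA.compl]
    exact eTA
  · exact (typ30 mM).trans (mul_le_mul_of_nonneg_left eMM (by norm_num))
  · rw [real_at20 b2 mTB.compl]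
    exact eTB

/-- **THE PROBABILITY OF THE LANE BLOCK.** -/
theorem luc30 [IsProbabilityMeasure μ] (h : In μ s c C n₀) {K δ ε Kb Kh : ℝ} (hK : 0 ≤ K) (hδ : 0 < δ) (hε : 0 < ε)
    (hKb : K + δ / 32 ≤ Kb) (hKh : 0 ≤ Kh) (m : ℕ) :
    ∃ U0 : ℝ, 0 < U0 ∧ ∀ LB KpB : ℝ, 0 ≤ KpB → ∃ pB : ℝ, 0 < pB ∧ ∃ UB : ℝ, 0 < UB ∧ ∀ LA KpA : ℝ, 0 ≤ KpA →
      ∃ pA : ℝ, 0 < pA ∧ ∃ UA : ℝ, 0 < UA ∧ ∀ ρB YB ρA YA Z : ℝ, 0 < ρB → ρB ≤ Kb → 0 < ρA → ρA ≤ Kb →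
      ∃ N₀ : ℕ, 1 ≤ N₀ ∧ ∀ N : ℕ, N₀ ≤ N → ∃ p : ℝ, 0 < p ∧ ∃ n₁ : ℕ, 1 ≤ n₁ ∧ ∀ n : ℕ, n₁ ≤ n →
        Z * EE μ s (N * n) ≤ hc μ s c n * (ρA * wd μ s (N * n)) / 4 ∧
        Z * EE μ s (N * n) ≤ hc μ s c n * (ρB * wd μ s (N * n)) / 4 ∧
        ∀ (ιA ιB : Type) [Fintype ιA] [Fintype ιB], Fintype.card ιA ≤ m → Fintype.card ιB ≤ m →
          ∀ (aA eA : ιA → ℤ) (aB eB : ιB → ℤ), (∀ j, |(aA j : ℝ)| ≤ K * wd μ s (N * n)) →
          (∀ j, |(eA j : ℝ) - sl μ s * (N * n : ℕ)| ≤ K * wd μ s (N * n)) → (∀ j, |(aB j : ℝ)| ≤ K * wd μ s (N * n)) →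
          (∀ j, |(eB j : ℝ) - sl μ s * (N * n : ℕ)| ≤ K * wd μ s (N * n)) →
          (∀ j j', j ≠ j' → ((aA j : ℝ) + δ * wd μ s (N * n) ≤ aA j' ∧ (eA j : ℝ) + δ * wd μ s (N * n) ≤ eA j') ∨
            ((aA j' : ℝ) + δ * wd μ s (N * n) ≤ aA j ∧ (eA j' : ℝ) + δ * wd μ s (N * n) ≤ eA j)) →
          (∀ j j', j ≠ j' → ((aB j : ℝ) + δ * wd μ s (N * n) ≤ aB j' ∧ (eB j : ℝ) + δ * wd μ s (N * n) ≤ eB j') ∨
            ((aB j' : ℝ) + δ * wd μ s (N * n) ≤ aB j ∧ (eB j' : ℝ) + δ * wd μ s (N * n) ≤ eB j)) →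
          ∀ (b0 b2 : Pt), b2.1 = b0.1 + (2 * (N * n) : ℕ) → ∀ B : Set Pt,
          (∀ p ∈ B58 μ s (N * n) Kb, p + b0 ∈ B) → (∀ p ∈ B58 μ s (N * n) Kb, p + b2 ∈ B) →
          ∀ MM : Set Env, MeasurableSet MM → On20 (rows (b0.1 + (N * n : ℕ)) (b0.1 + (2 * (N * n) : ℕ))) MM →
            (law μ).real MMᶜ ≤ ε / 6 →
            (law μ).real {ω | p ≤ cP μ B (BL30 b0 b2 (LC30 μ s c aA eA N n δ Kb Kh U0 LA KpA UA (ρA * wd μ s (N * n)) YA) MM
              (LC30 μ s c aB eB N n δ Kb Kh U0 LB KpB UB (ρB * wd μ s (N * n)) YB)) ω}ᶜ ≤ ε := by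
  obtain ⟨U0, hU0, H0⟩ := boxSB30 (μ := μ) (s := s) h hK hδ (show 0 < ε / 3 by positivity) hKb hKh m
  refine ⟨U0, hU0, fun LB KpB hKpB => ?_⟩
  obtain ⟨pB, hpB, UB, hUB, HB⟩ := H0 LB KpB hKpB
  refine ⟨pB, hpB, UB, hUB, fun LA KpA hKpA => ?_⟩
  obtain ⟨pA, hpA, UA, hUA, HA⟩ := H0 LA KpA hKpA
  refine ⟨pA, hpA, UA, hUA, fun ρB YB ρA YA Z hρB hρB' hρA hρA' => ?_⟩
  obtain ⟨N1, hN1, H1⟩ := HA ρA YA Z hρA hρA'
  obtain ⟨N2, hN2, H2⟩ := HB ρB YB Z hρB hρB'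
  refine ⟨max N1 N2, hN1.trans (le_max_left _ _), fun N hN => ?_⟩
  obtain ⟨qA, hqA, n1, hn1, H1'⟩ := H1 N ((le_max_left _ _).trans hN)
  obtain ⟨qB, hqB, n2, hn2, H2'⟩ := H2 N ((le_max_right _ _).trans hN)
  refine ⟨pA / 2 * qA * (1 / 2 * (pB / 2 * qB)), by positivity, max n1 n2, hn1.trans (le_max_left _ _), fun n hn => ?_⟩
  obtain ⟨z1, K1⟩ := H1' n ((le_max_left _ _).trans hn)
  obtain ⟨z2, K2⟩ := H2' n ((le_max_right _ _).trans hn)
  refine ⟨z1, z2, fun ιA ιB _ _ cA cB aA eA aB eB haA heA haB heB sA sB b0 b2 hb B hBA hBB MM mM oM eM => ?_⟩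
  obtain ⟨tA, lA⟩ := K1 (Bat30 B b0) hBA ιA cA aA eA haA heA sA
  obtain ⟨tB, lB⟩ := K2 (Bat30 B b2) hBB ιB cB aB eB haB heB sB
  have k := le_BL30 (μ := μ) (B := B) hb (meas_LC30 (μ := μ) (s := s) (c := c) aA eA N n δ Kb Kh U0 LA KpA UA (ρA * wd μ s (N * n)) YA) mM
    (meas_LC30 (μ := μ) (s := s) (c := c) aB eB N n δ Kb Kh U0 LB KpB UB (ρB * wd μ s (N * n)) YB) (on_LC30 _ _ _ _ _ _ _ _ _ _ _ _ _) oM
    (on_LC30 _ _ _ _ _ _ _ _ _ _ _ _ _)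
    (meas_Typ58 (μ := μ) (B := Bat30 B b0) (meas_PW69) (meas_PW69.inter meas_PW69) pA)
    (meas_Typ58 (μ := μ) (B := Bat30 B b2) (meas_PW69) (meas_PW69.inter meas_PW69) pB)
    (show 0 ≤ pB / 2 * qB by positivity) lA lB tA tB eM
  refine k.trans (le_of_eq ?_)
  ring

end

end Pool.Agent.W_7d29a1_C1.Luc30
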