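import Pool.Agent.W_7d29a1_C1.LucO30
import Pool.Agent.W_7d29a1_C1.LucL30
import Pool.Agent.W_7d29a1_C1.LucP30

/-!
MP_7d29a1_pr, [C1] SEP, the LANE BLOCK: THE ASSEMBLY. (helper30)

`lane30` : one lane slab, `Luk` from the lucky content `LC30`, the tame old masses and one profile clause, numbers in units of `EE μ s T`.
The block of three slabs is in LucR30.
-/

set_option autoImplicit false

namespace Pool.Agent.W_7d29a1_C1.Luc30

open Finset MeasureTheory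
open Pool.Agent.W_7d29a1_F Pool.Agent.W_7d29a1_h4g Pool.Agent.W_7d29a1_H Pool.Agent.W_7d29a1_HS
open Pool.Agent.W_7d29a1_C1
open Pool.Agent.W_7d29a1_C1.K91 (wt wt_pos)
open Pool.Agent.W_7d29a1_C1.K91P (bw bw_pos)
open Pool.Agent.W_7d29a1_C1.U16 (ker ker_nonneg)
open Pool.Agent.W_7d29a1_C1.Tb87 (Mx kx Mo Mx_pos kx_W)
open Pool.Agent.W_7d29a1_C1.Basin76 (kW)
open Pool.Agent.W_7d29a1_C1.BP58
open Pool.Agent.W_7d29a1_C1.H75 (hc hc_nonneg)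
open Pool.Agent.W_7d29a1_C1.P24 (Ce24 mem_Ce24)
open Pool.Agent.W_7d29a1_C1.M99
open Pool.Agent.W_7d29a1_C1.E53
open Pool.Agent.W_7d29a1_C1.H60
open Pool.Agent.W_7d29a1_C1.SD53
open Pool.Agent.W_7d29a1_C1.Lb76

noncomputable section

variable {μ : Measure ℝ} {s c C : ℝ} {n₀ : ℕ}

/-! ### One lane -/

/-- `Luk` with worse numbers. -/
theorem luk_mono30 {Γ : Cx} {ω ω' : Env} {a b : ℕ} {Mi Mo Ce : Set ℤ} {g G Y g' G' Y' : ℝ} (h : Luk Γ a b Mi Mo Ce g G Y ω ω') (hg0 : 0 < g')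
    (hg : g' ≤ g) (hG : G ≤ G') (hY : Y ≤ Y') : Luk Γ a b Mi Mo Ce g' G' Y' ω ω' :=
  ⟨hg0, h.G0.trans hG, h.Y0.trans hY, h.ab, h.hb, h.eq,
    fun z hz => (h.up z hz).trans (mul_le_mul_of_nonneg_right hG (bW_pos _ _ _ _).le),
    fun z hz => (h.off z hz).trans (mul_le_mul_of_nonneg_right hY (bW_pos _ _ _ _).le),
    fun z hz => (mul_le_mul_of_nonneg_right hg (bW_pos _ _ _ _).le).trans (h.gain z hz),
    fun z => (h.exit z).trans (mul_le_mul_of_nonneg_right hY (bW_pos _ _ _ _).le)⟩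

/-- The exponent of the leak. -/
def yx30 (c U0 q Kh Kp : ℝ) : ℝ := 2 + (U0 + (q + c / 8 * (Kh + 1)) + c / 2 * Kp)

/-- The exponent of the upper gain. -/
def gx30 (c C U0 q Kh Kp U1 : ℝ) : ℝ := C + 2 + U1 + c * Kh + yx30 c U0 q Kh Kp

/-- The lane slab, from the output of the window lemma. -/
theorem lane_core30 [IsProbabilityMeasure μ] (h : In μ s c C n₀) {K δ Kb Kh U0 q Kp U1 : ℝ} (hK : 0 ≤ K) (hδ : 0 < δ) (hKb : K + δ ≤ Kb)
    (hKh : Kb ≤ Kh) (hKp : Kh + 3 ≤ Kp) (hU0 : 0 ≤ U0) (hq : 0 ≤ q) (hU1 : 0 ≤ U1) {T : ℕ} (hT1 : 1 ≤ T) (hw1 : 1 ≤ wd μ s T)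
    {Γ : Cx} {r : ℕ} {col : ℤ} {g : ℝ} {a e : ℤ} (ha : |(a : ℝ)| ≤ K * wd μ s T) (he : |(e : ℝ) - sl μ s * T| ≤ K * wd μ s T)
    (hrN : r + T < Γ.N) (hp : ∀ k, r ≤ k → k < r + T → Γ.p k = Real.exp (s + g)) (hg : |g| * wd μ s T ≤ c / 8 * EE μ s T)
    {ω ω' : Env} (hfut : ∀ i, r + T < i → ∀ y, wt ω' i y = wt ω i y) (hlow : ∀ i, i ≤ r → ∀ y, wt ω' i y = wt ω i y)
    {ωB : ℝ} (hωB : Kb * wd μ s T ≤ ωB)
    (hL : LeakV69 μ s (wt ω) (wt ω') Γ.p (Mx (wt ω) Γ.p Γ.N (r + T)) r T col ωB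
      (4 * Real.exp ((U0 + (q + c / 8 * (Kh + 1)) + c / 2 * Kp) * EE μ s T))
      (Ce24 (a + col) (δ / 4 * wd μ s T)) (Ce24 (e + col) (δ / 4 * wd μ s T)))
    {L : ℝ} (hLN : Real.exp (L * EE μ s T) ≤ kW μ s (sh ((r : ℤ), col) ω') 0 T a e)
    (hH1 : sh ((r : ℤ), col) ω' ∈ PW69 μ s Set.univ (hc μ s c T) T T (Kp * wd μ s T) (U1 * EE μ s T))
    (hTm : ∀ x : ℤ, lat69 μ s 0 x ≤ ωB + 1 →
      TameV69 μ s g (wt ω) Γ.p (Mx (wt ω) Γ.p Γ.N (r + T)) r col T (Kp * wd μ s T) ((q + c / 4 * Kp) * EE μ s T) 0 x)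
    {Q : ℝ} (hpr : Mx (wt ω) Γ.p Γ.N r (a + col) ≤ Real.exp (Q * EE μ s T) *
      Real.exp (T * lam μ s + g * (sl μ s * T)) * Mx (wt ω) Γ.p Γ.N (r + T) (e + col)) :
    Luk Γ r (r + T) {a + col} ↑(Ce24 (a + col) (δ / 4 * wd μ s T)) ↑(Ce24 (e + col) (δ / 4 * wd μ s T))
      (Real.exp ((L - (Q + c / 4 * K)) * EE μ s T)) (Real.exp (gx30 c C U0 q Kh Kp U1 * EE μ s T))
      (Real.exp (yx30 c U0 q Kh Kp * EE μ s T)) ω ω' := by
  have hc0 := h.c0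
  have hC1 := h.C1
  have hE1 := one_le_EE (μ := μ) (s := s) T
  have hlg := lg69 h hT1
  have hδKb : K + δ / 4 ≤ Kb := by linarith
  -- the cells
  have hcell : ∀ {z b : ℤ}, z ∈ Ce24 (b + col) (δ / 4 * wd μ s T) → |((z - col : ℤ) : ℝ) - b| ≤ δ / 4 * wd μ s T := by
    intro z b hz
    have h1 := mem_Ce24.1 hz
    push_cast at h1 ⊢
    have e1 : (z : ℝ) - col - b = z - (b + col) := by ring
    rw [e1]
    exact h1
  have hin0 : ∀ {z : ℤ}, z ∈ Ce24 (a + col) (δ / 4 * wd μ s T) → |((z - col : ℤ) : ℝ)| ≤ (K + δ / 4) * wd μ s T := by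
    intro z hz
    have h1 := hcell hz
    rw [abs_le] at h1 ha ⊢
    constructor <;> linarith [h1.1, h1.2, ha.1, ha.2]
  have hin1 : ∀ {y : ℤ}, y ∈ Ce24 (e + col) (δ / 4 * wd μ s T) → |((y - col : ℤ) : ℝ) - sl μ s * T| ≤ (K + δ / 4) * wd μ s T := by
    intro y hy
    have h1 := hcell hy
    rw [abs_le] at h1 he ⊢
    constructor <;> linarith [h1.1, h1.2, he.1, he.2]
  have hKw : (K + δ / 4) * wd μ s T ≤ Kb * wd μ s T := mul_le_mul_of_nonneg_right hδKb (by linarith)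
  have hKw2 : Kb * wd μ s T ≤ Kp * wd μ s T := mul_le_mul_of_nonneg_right (by linarith) (by linarith)
  have hKb0 : 0 ≤ Kb := by linarith
  have hKp0' : 0 ≤ Kp := by linarith
  have hR0 : 0 ≤ 4 * Real.exp ((U0 + (q + c / 8 * (Kh + 1)) + c / 2 * Kp) * EE μ s T) := by positivity
  -- the tilt
  have htilt : ∀ A x : ℝ, 0 ≤ A → |x| ≤ A * wd μ s T → |g| * |x| ≤ c / 8 * A * EE μ s T := by
    intro A x hA hx
    have h1 := mul_le_mul_of_nonneg_left hx (abs_nonneg g)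
    have h2 := mul_le_mul_of_nonneg_left hg hA
    linarith
  have hk := luk30 (μ := μ) (s := s) (g := g) (Γ := Γ) (ω := ω) (ω' := ω') (r := r) (T := T) (col := col) hL hR0 hp hrN hfut hlow
    (a := a) (e := e) (L := L * EE μ s T) (Q := Q * EE μ s T) (D := c / 4 * K * EE μ s T) hLN hpr
    (by
      have h1 : |(((e - a : ℤ) : ℝ)) - sl μ s * T| ≤ (2 * K) * wd μ s T := by
        push_cast
        rw [abs_le] at ha he ⊢
        constructor <;> linarith [ha.1, ha.2, he.1, he.2]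
      refine (htilt (2 * K) _ (by positivity) h1).trans (le_of_eq ?_)
      ring)
    (U := U1 * EE μ s T) (P := (q + c / 4 * Kp) * EE μ s T) (F := c / 4 * Kb * EE μ s T)
    (fun z hz y hy => by
      have h1 := hH1 0 T (z - col) (by omega) le_rfl (by
        have := hin0 hz
        rw [Nat.cast_zero, mul_zero, sub_zero]
        linarith)
      have h2 := h1.2 (y - col - (z - col))
      have h3 : 0 ≤ hc μ s c T * |(((y - col - (z - col) : ℤ)) : ℝ) - sl μ s * T| := mul_nonneg (hc_nonneg h T) (abs_nonneg _)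
      exact h2.trans (Real.exp_le_exp.2 (by linarith)))
    (fun z hz y hy => by
      have h1 := hTm (z - col) (by
        have h2 := hin0 hz
        unfold lat69
        rw [Nat.cast_zero, mul_zero, sub_zero]
        linarith) T (y - col) hT1 (by omega) (by
        have h2 := hin1 hy
        unfold lat69
        rw [zero_add]
        linarith)
      rw [sub_add_cancel, sub_add_cancel, zero_add, add_zero, Nat.sub_self, Nat.sub_zero, VX_Mx (wt_pos ω) hrN] at h1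
      have e1 : VX69 (wt ω) Γ.p (r + T) 0 (Mx (wt ω) Γ.p Γ.N (r + T)) y = Mx (wt ω) Γ.p Γ.N (r + T) y := by
        have := VX_Mx (w := wt ω) (p := Γ.p) (wt_pos ω) (N := Γ.N) (i := r + T) (n := 0) (by omega) y
        exact this
      rw [e1] at h1
      have e2 : (T : ℝ) * lam μ s + g * (sl μ s * T) = T * lam μ s + g * sl μ s * T := by ring
      rw [e2]
      exact h1)
    (fun z hz y hy => by
      have h1 := hin0 hz
      have h2 := hin1 hy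
      have h3 : |(((y - z : ℤ)) : ℝ) - sl μ s * T| ≤ (2 * Kb) * wd μ s T := by
        push_cast at h1 h2 ⊢
        rw [abs_le] at h1 h2 ⊢
        constructor <;> linarith [h1.1, h1.2, h2.1, h2.2]
      refine (htilt (2 * Kb) _ (by positivity) h3).trans (le_of_eq ?_)
      ring)
  have hY1 : 4 * Real.exp ((U0 + (q + c / 8 * (Kh + 1)) + c / 2 * Kp) * EE μ s T) ≤ Real.exp (yx30 c U0 q Kh Kp * EE μ s T) := by
    have h4 : (4 : ℝ) ≤ Real.exp (2 * EE μ s T) := by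
      have h5 : (1 : ℝ) + EE μ s T ≤ Real.exp (EE μ s T) := by linarith [Real.add_one_le_exp (EE μ s T)]
      have h6 : Real.exp (2 * EE μ s T) = Real.exp (EE μ s T) * Real.exp (EE μ s T) := by rw [← Real.exp_add]; ring_nf
      rw [h6]
      nlinarith
    have h7 : yx30 c U0 q Kh Kp * EE μ s T = 2 * EE μ s T + (U0 + (q + c / 8 * (Kh + 1)) + c / 2 * Kp) * EE μ s T := by
      unfold yx30
      ring
    rw [h7, Real.exp_add (2 * EE μ s T)]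
    exact mul_le_mul_of_nonneg_right h4 (Real.exp_pos _).le
  refine luk_mono30 hk (Real.exp_pos _) (Real.exp_le_exp.2 (le_of_eq (by ring))) ?_ hY1
  -- the upper gain
  have h1 : ((T : ℝ) + 1) * Real.exp (U1 * EE μ s T + (q + c / 4 * Kp) * EE μ s T + c / 4 * Kb * EE μ s T) ≤
      Real.exp ((C + 1) * EE μ s T + (U1 * EE μ s T + (q + c / 4 * Kp) * EE μ s T + c / 4 * Kb * EE μ s T)) := by
    rw [Real.exp_add ((C + 1) * EE μ s T)]
    exact mul_le_mul_of_nonneg_right hlg (Real.exp_pos _).le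
  obtain ⟨A, hA⟩ : ∃ A : ℝ, A = (gx30 c C U0 q Kh Kp U1 - 1) * EE μ s T := ⟨_, rfl⟩
  have hKh0 : 0 ≤ Kh := by linarith
  have h2 : (C + 1) * EE μ s T + (U1 * EE μ s T + (q + c / 4 * Kp) * EE μ s T + c / 4 * Kb * EE μ s T) ≤ A := by
    rw [hA]
    unfold gx30 yx30
    have e1 : 0 ≤ (c * Kh - c / 4 * Kb) * EE μ s T := by
      have e3 : c * Kb ≤ c * Kh := mul_le_mul_of_nonneg_left hKh hc0.le
      have e4 : 0 ≤ c * Kb := mul_nonneg hc0.le hKb0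
      exact mul_nonneg (by linarith) (by linarith)
    have e2 : 0 ≤ (2 + U0 + c / 8 * (Kh + 1) + c / 4 * Kp) * EE μ s T := by positivity
    linarith
  have h3 : yx30 c U0 q Kh Kp * EE μ s T ≤ A := by
    rw [hA]
    unfold gx30
    have e1 : 0 ≤ (C + 1 + U1 + c * Kh) * EE μ s T := by
      have e3 : 0 ≤ c * Kh := mul_nonneg hc0.le hKh0
      exact mul_nonneg (by linarith) (by linarith)
    linarith
  have h4 : (2 : ℝ) ≤ Real.exp (EE μ s T) := by linarith [Real.add_one_le_exp (EE μ s T)]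
  have h5 : gx30 c C U0 q Kh Kp U1 * EE μ s T = EE μ s T + A := by rw [hA]; ring
  rw [h5, Real.exp_add (EE μ s T) A]
  have h6 := h1.trans (Real.exp_le_exp.2 h2)
  have h7 := hY1.trans (Real.exp_le_exp.2 h3)
  have h8 : 2 * Real.exp A ≤ Real.exp (EE μ s T) * Real.exp A := mul_le_mul_of_nonneg_right h4 (Real.exp_pos _).le
  linarith

/-- **ONE LANE SLAB.** -/
theorem lane30 [IsProbabilityMeasure μ] (h : In μ s c C n₀) {K δ Kb Kh U0 q : ℝ} (hK : 0 ≤ K) (hδ : 0 < δ) (hKb : K + δ ≤ Kb)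
    (hKh : Kb ≤ Kh) (hU0 : 0 ≤ U0) (hq : 0 ≤ q) (K₀ : ℝ) :
    ∃ Kp : ℝ, K₀ ≤ Kp ∧ Kh + 3 ≤ Kp ∧ ∀ U1 : ℝ, 0 ≤ U1 → ∃ Y Z : ℝ, 0 < Y ∧ 0 < Z ∧ ∃ N₀ n₁ : ℕ, 1 ≤ N₀ ∧ 1 ≤ n₁ ∧
      ∀ N n : ℕ, N₀ ≤ N → n₁ ≤ n → Z * EE μ s (N * n) ≤ hc μ s c n * (δ / 32 * wd μ s (N * n)) / 4 →
      ∀ (Γ : Cx) (r : ℕ) (col : ℤ) (g : ℝ) (a e : ℤ), |(a : ℝ)| ≤ K * wd μ s (N * n) → |(e : ℝ) - sl μ s * (N * n : ℕ)| ≤ K * wd μ s (N * n) →
        r + N * n < Γ.N → (∀ k, r ≤ k → k < r + N * n → Γ.p k = Real.exp (s + g)) → |g| * wd μ s (N * n) ≤ c / 8 * EE μ s (N * n) →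
      ∀ ω ω' : Env, (∀ i, r + N * n < i → ∀ y, wt ω' i y = wt ω i y) → (∀ i, i ≤ r → ∀ y, wt ω' i y = wt ω i y) →
      ∀ L : ℝ, sh ((r : ℤ), col) ω' ∈
          LC30 μ s c (fun _ : Unit => a) (fun _ : Unit => e) N n δ Kb Kh U0 L Kp U1 (δ / 32 * wd μ s (N * n)) Y →
      ∀ ωB : ℝ, Kb * wd μ s (N * n) ≤ ωB → ωB ≤ Kh * wd μ s (N * n) →
        (∀ (t : ℕ) (x : ℤ), ωB < lat69 μ s t x → ω (((r + t : ℕ) : ℤ), x + col) = ω' (((r + t : ℕ) : ℤ), x + col)) →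
        (∀ (t : ℕ) (x : ℤ), t < N * n → (t = 0 ∨ ωB < lat69 μ s t x) → lat69 μ s t x ≤ ωB + 1 →
          TameV69 μ s g (wt ω) Γ.p (Mx (wt ω) Γ.p Γ.N (r + N * n)) r col (N * n) (Kp * wd μ s (N * n))
            ((q + c / 4 * Kp) * EE μ s (N * n)) t x) →
      ∀ Q : ℝ, Mx (wt ω) Γ.p Γ.N r (a + col) ≤ Real.exp (Q * EE μ s (N * n)) *
          Real.exp ((N * n : ℕ) * lam μ s + g * (sl μ s * (N * n : ℕ))) * Mx (wt ω) Γ.p Γ.N (r + N * n) (e + col) →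
        Luk Γ r (r + N * n) {a + col} ↑(Ce24 (a + col) (δ / 4 * wd μ s (N * n))) ↑(Ce24 (e + col) (δ / 4 * wd μ s (N * n)))
          (Real.exp ((L - (Q + c / 4 * K)) * EE μ s (N * n))) (Real.exp (gx30 c C U0 q Kh Kp U1 * EE μ s (N * n)))
          (Real.exp (yx30 c U0 q Kh Kp * EE μ s (N * n))) ω ω' := by
  obtain ⟨Kp, hKp0, hKp1, H⟩ := boxX69 h hK hδ hKb hKh hU0 hq K₀
  obtain ⟨n₂, hn₂⟩ := Filter.eventually_atTop.1 ((wd_tendsto h).eventually_ge_atTop 1)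
  refine ⟨Kp, hKp0, hKp1, fun U1 hU1 => ?_⟩
  obtain ⟨Y, Z, hY, hZ, N₀, n₁, hN₀, hn₁, H⟩ := H U1 hU1
  refine ⟨Y, Z, hY, hZ, N₀, max n₁ n₂, hN₀, hn₁.trans (le_max_left _ _), ?_⟩
  intro N n hN hn hZ' Γ r col g a e ha he hrN hp hg ω ω' hfut hlow L hLC ωB hωB hωB' heq hT Q hpr
  obtain ⟨⟨⟨hLN, hH0⟩, hH1⟩, hWL⟩ := hLC
  have hN1 : 1 ≤ N := hN₀.trans hN
  have hTn : n ≤ N * n := Nat.le_mul_of_pos_left n hN1
  have hT1 : 1 ≤ N * n := hn₁.trans (((le_max_left _ _).trans hn).trans hTn)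
  have hw1 : 1 ≤ wd μ s (N * n) := hn₂ _ (((le_max_right _ _).trans hn).trans hTn)
  have hL := H N n hN ((le_max_left _ _).trans hn) hZ' Unit (fun _ => a) (fun _ => e) (fun _ => ha) (fun _ => he)
    (fun j j' hjj => absurd (Subsingleton.elim j j') hjj) r col Γ.p g Γ.p_pos hp hg ω ω' hH0 hH1 hWL ωB hωB hωB' heq
    (Mx (wt ω) Γ.p Γ.N (r + N * n)) (fun y => (Mx_pos (wt_pos ω) Γ.p_pos _ _).le) hT
    (Ce24 (a + col) (δ / 4 * wd μ s (N * n))) (Ce24 (e + col) (δ / 4 * wd μ s (N * n))) (fun x y hxy => by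
      obtain ⟨_, hx, hy⟩ := hxy
      exact ⟨mem_shift30.2 (mem_Ce24.2 hx), mem_shift30.2 (mem_Ce24.2 hy)⟩)
  have hLN' : Real.exp (L * EE μ s (N * n)) ≤ kW μ s (sh ((r : ℤ), col) ω') 0 (N * n) a e := by
    have h1 : sh ((r : ℤ), col) ω' ∈ LN20 μ s (fun _ : Unit => a) (fun _ : Unit => e) (N * n) (δ / 32 * wd μ s (N * n)) (L * EE μ s (N * n)) () :=
      Set.mem_iInter.1 hLN ()
    exact le_trans h1 (Pool.Agent.W_7d29a1_HL.WR_mono' (μ := μ) (s := s) (Set.subset_univ _) _ _ _ _)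
  exact lane_core30 h hK hδ hKb hKh hKp1 hU0 hq hU1 hT1 hw1 ha he hrN hp hg hfut hlow hωB hL hLN' hH1.1
    (fun x hx => hT 0 x (by omega) (Or.inl rfl) hx) hpr

end

end Pool.Agent.W_7d29a1_C1.Luc30
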