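import Pool.Agent.W_7d29a1_C1.SepD98
import Pool.Agent.W_7d29a1_C1.TamO20

/-!
MP_7d29a1_pr, attractor route, [C1] SEP: THE LANE BLOCK OF THE CONCRETE WINDOW: columns, the changed sites, the old masses. (helper42)

Slabs `(r, r + T]` in the rows `[rl98, b98]`, column `co98 r`.
* `co_step42`, `co_lat42`: the columns; `heq42`: off the strip `kw w + 1` of the slab nothing is changed; `hlow42`, `hfut42`;
* `gw42` = the force of the window (`h` or `0`), `p_g42`: one slope in the window;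
* `prof42`: the profile clause of two rows from the clause `OuTl` (helper97), in `Mx` letters;
* `tam42`: `TameV69` of the old environment in every slab, from `FarL98` and `OuD` (helper20's `tamO20`).
-/

set_option autoImplicit false

namespace Pool.Agent.W_7d29a1_C1.D98

open MeasureTheory Finset
open Pool.Agent.W_7d29a1_F hiding Bw G
open Pool.Agent.W_7d29a1_h4g Pool.Agent.W_7d29a1_HS
open Pool.Agent.W_7d29a1_H hiding ex gg
open Pool.Agent.W_7d29a1_C1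
open Pool.Agent.W_7d29a1_C1.K91 (wt wt_pos)
open Pool.Agent.W_7d29a1_C1.S71 (gl gl_of_mem gl_of_not_mem)
open Pool.Agent.W_7d29a1_C1.U16 (lat16 Far16 bh16)
open Pool.Agent.W_7d29a1_C1.FarW89 (bl bl_add)
open Pool.Agent.W_7d29a1_C1.H60
open Pool.Agent.W_7d29a1_C1.G37 (Gm)
open Pool.Agent.W_7d29a1_C1.Tb87 (Mx Mx_pos)
open Pool.Agent.W_7d29a1_C1.Ou37 (OuD Zo bn bn_pos)
open Pool.Agent.W_7d29a1_C1.TamV20 (tamO20 bh_Mx cx_p)

noncomputable section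

variable {μ : Measure ℝ} {s c C : ℝ} {n₀ : ℕ} {Γ : Cx} {G : Gm} {P : Nm98} {u : ℕ} {κ : ℤ × ℤ}

/-! ### The columns -/

/-- The column of a row against the slope line. -/
theorem co_floor42 (k : ℕ) : G.ctr u κ - 1 < ((co98 G u κ k : ℤ) : ℝ) - G.v * k ∧ ((co98 G u κ k : ℤ) : ℝ) - G.v * k ≤ G.ctr u κ :=
  MJ42.x0_42 k

/-- **Two columns.** -/
theorem co_step42 (k T : ℕ) : |((co98 G u κ (k + T) - co98 G u κ k : ℤ) : ℝ) - G.v * T| ≤ 1 := by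
  obtain ⟨h1, h2⟩ := co_floor42 (G := G) (u := u) (κ := κ) k
  obtain ⟨h3, h4⟩ := co_floor42 (G := G) (u := u) (κ := κ) (k + T)
  push_cast at h3 h4 ⊢
  rw [abs_le]
  constructor <;> linarith

/-- The column is at the centre. -/
theorem co_lat42 (k : ℕ) : |G.lat (k, co98 G u κ k) - G.ctr u κ| ≤ 1 := by
  obtain ⟨h1, h2⟩ := co_floor42 (G := G) (u := u) (κ := κ) k
  unfold Gm.lat
  rw [abs_le]
  constructor <;> linarith

/-- A site of a slab, seen from the centre of the cell. -/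
theorem co_site42 (hv : G.v = sl μ s) (r t : ℕ) (x : ℤ) :
    |(G.lat (r + t, x + co98 G u κ r) - G.ctr u κ) - ((x : ℝ) - sl μ s * t)| ≤ 1 := by
  obtain ⟨h1, h2⟩ := co_floor42 (G := G) (u := u) (κ := κ) r
  unfold Gm.lat
  rw [← hv]
  push_cast
  rw [abs_le]
  constructor <;> linarith

/-- **Off the strip of the window nothing is changed.** -/
theorem heq42 (hv : G.v = sl μ s) (η ω : Env) (r t : ℕ) (x : ℤ) (hx : G.kw * G.w u + 1 < lat69 μ s t x) :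
    ω (((r + t : ℕ) : ℤ), x + co98 G u κ r) = gl (B98 Γ G P u κ) η ω (((r + t : ℕ) : ℤ), x + co98 G u κ r) := by
  rw [gl_of_not_mem]
  intro hp
  have h3 := hp.1.2.2
  obtain ⟨g1, g2⟩ := co_floor42 (G := G) (u := u) (κ := κ) r
  have b1 : ((G.base u κ).1 : ℝ) = (G.rcc u κ : ℝ) + (G.T (u - 1) : ℝ) := by
    show ((G.rcc u κ + G.T (u - 1) : ℤ) : ℝ) = _
    push_cast
    ring
  have f1 := Int.floor_le (G.ctr u κ + G.v * ((G.rcc u κ : ℝ) + (G.T (u - 1) : ℝ)))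
  have f2 := Int.lt_floor_add_one (G.ctr u κ + G.v * ((G.rcc u κ : ℝ) + (G.T (u - 1) : ℝ)))
  have b2 : ((G.base u κ).2 : ℝ) = (⌊G.ctr u κ + G.v * ((G.rcc u κ : ℝ) + (G.T (u - 1) : ℝ))⌋ : ℝ) := rfl
  rw [← b2, ← b1] at f1 f2
  unfold lat69 at hx
  rw [← hv] at hx
  push_cast at h3 hx
  obtain ⟨h4, h5⟩ := abs_le.1 h3
  rcases lt_abs.1 hx with h6 | h6 <;> linarith

/-- Below the lane block nothing is changed. -/
theorem hlow42 (η ω : Env) (i : ℕ) (hi : i ≤ rl98 Γ G P u κ) (y : ℤ) : wt (gl (B98 Γ G P u κ) η ω) i y = wt ω i y :=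
  PW58.wt_eq (gl_of_not_mem (fun hp => by
    have h1 := hp.2.1
    have h2 : (i : ℤ) ≤ ((rl98 Γ G P u κ : ℕ) : ℤ) := by exact_mod_cast hi
    have h3 : ((rl98 Γ G P u κ : ℕ) : ℤ) < (i : ℤ) := h1
    omega) η ω)

/-- Above the lane block nothing is changed. -/
theorem hfut42 (η ω : Env) (i : ℕ) (hi : b98 Γ G P u κ < i) (y : ℤ) : wt (gl (B98 Γ G P u κ) η ω) i y = wt ω i y :=
  PW58.wt_eq (gl_of_not_mem (fun hp => by
    have h1 := hp.2.2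
    have h2 : ((b98 Γ G P u κ : ℕ) : ℤ) < (i : ℤ) := by exact_mod_cast hi
    have h3 : (i : ℤ) ≤ ((b98 Γ G P u κ : ℕ) : ℤ) := h1
    omega) η ω)

/-! ### One slope -/

/-- The force of the window. -/
def gw42 (Γ : Cx) (G : Gm) (u : ℕ) (κ : ℤ × ℤ) : ℝ := if G.re u κ ≤ Γ.M then Γ.h else 0

theorem gw_abs42 : |gw42 Γ G u κ| ≤ |Γ.h| := by
  unfold gw42
  split_ifs
  · exact le_rfl
  · rw [abs_zero]
    exact abs_nonneg _

/-- The alternative of the switch row, for every slab of the window. -/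
theorem gw_or42 (hN : NoSw98 Γ G u κ) {r T : ℕ} (hr : G.ra u κ - 1 ≤ r) (hT : r + T ≤ G.re u κ) :
    (gw42 Γ G u κ = Γ.h ∧ r + T ≤ Γ.M) ∨ (gw42 Γ G u κ = 0 ∧ Γ.M ≤ r) := by
  unfold gw42
  split_ifs with h
  · exact Or.inl ⟨rfl, hT.trans h⟩
  · refine Or.inr ⟨rfl, ?_⟩
    rcases noM98 hN with h1 | h1
    · exact h1.trans hr
    · exact absurd h1 h

/-- **One slope in the window.** -/
theorem p_g42 (hN : NoSw98 Γ G u κ) (hs : Γ.s = s) {k : ℕ} (h1 : G.ra u κ - 1 ≤ k) (h2 : k < G.re u κ) :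
    Γ.p k = Real.exp (s + gw42 Γ G u κ) := by
  obtain ⟨hp, hp'⟩ := cx_p hs
  rcases gw_or42 (r := k) (T := 1) hN h1 (by omega) with ⟨h3, h4⟩ | ⟨h3, h4⟩
  · rw [h3]
    exact hp k (by omega)
  · rw [h3, add_zero]
    exact hp' k h4

/-! ### The profile clause -/

/-- The gauge of two rows on one side of the switch. -/
theorem bl_step42 (hN : NoSw98 Γ G u κ) {r T : ℕ} (hr : G.ra u κ - 1 ≤ r) (hT : r + T ≤ G.re u κ) (hΓ : r + T ≤ Γ.N) :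
    Γ.h * sl μ s * (bl Γ.M r (Γ.N - r) : ℝ) = gw42 Γ G u κ * (sl μ s * T) + Γ.h * sl μ s * (bl Γ.M (r + T) (Γ.N - (r + T)) : ℝ) := by
  have e1 : Γ.N - r = T + (Γ.N - (r + T)) := by omega
  rw [e1, bl_add]
  push_cast
  rcases gw_or42 hN hr hT with ⟨h3, h4⟩ | ⟨h3, h4⟩
  · have e2 : bl Γ.M r T = T := by unfold bl; omega
    rw [h3, e2]
    ring
  · have e2 : bl Γ.M r T = 0 := by unfold bl; omega
    rw [h3, e2]
    push_cast
    ring

/-- **THE PROFILE CLAUSE OF TWO ROWS**, from the clause of the normalised masses. -/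
theorem prof42 (hN : NoSw98 Γ G u κ) {r T : ℕ} (hr : G.ra u κ - 1 ≤ r) (hT : r + T ≤ G.re u κ) (hΓ : r + T < Γ.N) {ω : Env} {X : ℝ}
    {y y' : ℤ} (h : bn μ s Γ r y ω ≤ Real.exp X * bn μ s Γ (r + T) y' ω) :
    Mx (wt ω) Γ.p Γ.N r y ≤ Real.exp X * Real.exp (T * lam μ s + gw42 Γ G u κ * (sl μ s * T)) * Mx (wt ω) Γ.p Γ.N (r + T) y' := by
  unfold bn at h
  rw [bh_Mx (by omega) y, bh_Mx hΓ y'] at h
  have e1 := bl_step42 (μ := μ) (s := s) hN hr hT hΓ.le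
  have e2 : ((Γ.N - r : ℕ) : ℝ) = T + ((Γ.N - (r + T) : ℕ) : ℝ) := by
    have : Γ.N - r = T + (Γ.N - (r + T)) := by omega
    rw [this]
    push_cast
    ring
  rw [e2, e1] at h
  set A : ℝ := ((Γ.N - (r + T) : ℕ) : ℝ) * lam μ s + Γ.h * sl μ s * (bl Γ.M (r + T) (Γ.N - (r + T)) : ℝ) with hA
  set D : ℝ := (T : ℝ) * lam μ s + gw42 Γ G u κ * (sl μ s * T) with hD
  have e3 : -(((T : ℝ) + ((Γ.N - (r + T) : ℕ) : ℝ)) * lam μ s + (gw42 Γ G u κ * (sl μ s * T) + Γ.h * sl μ s * (bl Γ.M (r + T) (Γ.N - (r + T)) : ℝ))) =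
      -D + -A := by
    rw [hA, hD]
    ring
  rw [e3, Real.exp_add] at h
  have h1 := mul_le_mul_of_nonneg_left h (mul_pos (Real.exp_pos D) (Real.exp_pos A)).le
  have k1 : Real.exp D * Real.exp (-D) = 1 := by rw [← Real.exp_add, add_neg_cancel, Real.exp_zero]
  have k2 : Real.exp A * Real.exp (-A) = 1 := by rw [← Real.exp_add, add_neg_cancel, Real.exp_zero]
  calc Mx (wt ω) Γ.p Γ.N r y = (Real.exp D * Real.exp (-D)) * (Real.exp A * Real.exp (-A)) * Mx (wt ω) Γ.p Γ.N r y := by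
        rw [k1, k2]; ring
    _ = Real.exp D * Real.exp A * (Real.exp (-D) * Real.exp (-A) * Mx (wt ω) Γ.p Γ.N r y) := by ring
    _ ≤ Real.exp D * Real.exp A * (Real.exp X * (Real.exp (-A) * Mx (wt ω) Γ.p Γ.N (r + T) y')) := h1
    _ = Real.exp X * Real.exp D * (Real.exp A * Real.exp (-A)) * Mx (wt ω) Γ.p Γ.N (r + T) y' := by ring
    _ = _ := by rw [k2, mul_one]

/-! ### The old masses are tame -/

/-- **`TameV69` OF THE OLD ENVIRONMENT** in the slabs of the lane block. -/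
theorem tam42 [IsProbabilityMeasure μ] (h0 : In μ s c C n₀) (PF : ℕ) {θ K : ℝ} (hK : 4 ≤ K) (hθ : 0 < θ) (hθ8 : θ ≤ 1 / 8) :
    ∃ n₁ : ℕ, 1 ≤ n₁ ∧ ∀ q Q4 Kh ρ : ℝ, 0 ≤ q → 0 ≤ Q4 → 0 ≤ Kh → 1 ≤ ρ → ∃ Qv : ℝ, 0 ≤ Qv ∧
    ∀ {Γ : Cx} {G : Gm} {P : Nm98} {E : ℕ → ℝ} {R sgm sg : ℝ} {u : ℕ} {κ : ℤ × ℤ} {ω : Env} {r T : ℕ},
      P.th = θ → P.KF = K → P.PF = PF → P.qF = q → n₁ ≤ G.T u → Γ.s = s → G.v = sl μ s → G.w u = wd μ s (G.T u) →
      E u = EE μ s (G.T u) → |Γ.h| * wd μ s (G.T u) ≤ c / 8 * EE μ s (G.T u) → NoSw98 Γ G u κ → Fit98 G P u → G.re u κ < Γ.N →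
      ω ∈ FarL98 μ s c Γ G P u κ → rl98 Γ G P u κ ≤ r → r + T ≤ b98 Γ G P u κ →
      wd μ s T ≤ ρ * wd μ s (G.T u) → EE μ s (G.T u) ≤ ρ * EE μ s T →
      EE μ s (G.T u) / wd μ s (G.T u) ≤ ρ * (EE μ s T / wd μ s T) →
      0 ≤ sgm → ρ * sgm ≤ c / 16 → sg ≤ E u → ρ * Kh + 2 ≤ R → ω ∈ OuD μ s Γ G E R Q4 sgm sg u κ →
      ∀ Kp : ℝ, 0 ≤ Kp → ∀ (t : ℕ) (x : ℤ), t < T → lat69 μ s t x ≤ Kh * wd μ s T + 1 →
        TameV69 μ s (gw42 Γ G u κ) (wt ω) Γ.p (Mx (wt ω) Γ.p Γ.N (r + T)) r (co98 G u κ r) T (Kp * wd μ s T)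
          ((Qv + c / 8 * Kp) * EE μ s T) t x := by
  obtain ⟨n₁, hn₁, H⟩ := tamO20 h0 PF hK hθ
  obtain ⟨n₂, hn₂⟩ := Filter.eventually_atTop.1 ((wd_tendsto h0).eventually_ge_atTop 2)
  refine ⟨max n₁ n₂, hn₁.trans (le_max_left _ _), fun q Q4 Kh ρ hq hQ4 hKh hρ => ?_⟩
  obtain ⟨Qv, hQv, H⟩ := H q Q4 Kh ρ hq hQ4 hKh hρ
  refine ⟨Qv, hQv, ?_⟩
  intro Γ G P E R sgm sg u κ ω r T e1 e2 e3 e4 hT hs hv hw hE hh hN hF hreN hfar hr hrT hu1 hu2 hu3 hsgm hρs hsg hR hω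
    Kp hKp t x htT hx
  have hw2 : 2 ≤ G.w u := by rw [hw]; exact hn₂ _ ((le_max_right _ _).trans hT)
  have hb := b98_T (Γ := Γ) (κ := κ) hF
  have hrl := rl_le_b98 (Γ := Γ) (G := G) (P := P) (u := u) (κ := κ)
  have hra : G.ra u κ - 1 ≤ rl98 Γ G P u κ := (le_ag98 (Γ := Γ) (G := G) (P := P) (u := u) (κ := κ)).trans ag_le_rl98
  have hsub := G.re_sub_ra u κ
  have hrr := G.ra_le_re u κ
  have hTm := G.T_pos (u - 1)
  have hTm' := G.T_mono (show u - 1 ≤ u by omega)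
  have hra1 : 1 ≤ G.ra u κ := ra_pos98
  have l1 := co_lat42 (G := G) (u := u) (κ := κ) (rl98 Γ G P u κ)
  have l2 := co_lat42 (G := G) (u := u) (κ := κ) r
  unfold FarL98 at hfar
  rw [e1, e2, e3, e4] at hfar
  refine H (Γ := Γ) (G := G) (E := E) (R := R) (sgm := sgm) (sg := sg) (g := gw42 Γ G u κ) (u := u) (κ := κ) (ω := ω)
    (N := G.re u κ - rl98 Γ G P u κ) (i := rl98 Γ G P u κ) (r := r) (T := T) (colb := co98 G u κ (rl98 Γ G P u κ)) (col := co98 G u κ r)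
    ((le_max_left _ _).trans hT) (by omega) hs hv hw hE hh (gw_or42 hN (hra.trans hr) (by omega)) hfar ?_ ?_ (by omega) hreN hr (by omega) ?_
    hu1 hu2 hu3 hsgm hρs hsg hR hω Kp hKp t x htT hx
  · have h1 : G.lat (rl98 Γ G P u κ, co98 G u κ (rl98 Γ G P u κ)) - G.lat (r, co98 G u κ r) =
        (G.lat (rl98 Γ G P u κ, co98 G u κ (rl98 Γ G P u κ)) - G.ctr u κ) - (G.lat (r, co98 G u κ r) - G.ctr u κ) := by ring
    rw [h1]
    refine (abs_sub _ _).trans ?_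
    linarith
  · linarith
  · have h1 : G.T u / 8 + 3 ≤ G.re u κ - (r + T) := by omega
    have h2 : ((G.T u / 8 + 3 : ℕ) : ℝ) ≤ ((G.re u κ - (r + T) : ℕ) : ℝ) := by exact_mod_cast h1
    have h3 : (G.T u : ℝ) ≤ 8 * ((G.T u / 8 + 3 : ℕ) : ℝ) := by
      have : G.T u ≤ 8 * (G.T u / 8 + 3) := by omega
      exact_mod_cast this
    have h4 : θ * G.T u ≤ 1 / 8 * (G.T u : ℝ) := mul_le_mul_of_nonneg_right hθ8 (Nat.cast_nonneg _)
    linarith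

end

end Pool.Agent.W_7d29a1_C1.D98
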