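import Pool.Agent.W_7d29a1_C1.PLvE86
import Pool.Agent.W_7d29a1_C1.KwL34

/-!
Both halves (MP_7d29a1_pr), attractor route [C1], SEP: P(not Lv) AT THE NUMBER RECORDS `nm15`, `nr98`, THRESHOLD FUNCTIONS (helper86)

`Wn86` : what the constants have to satisfy. `lvN86` : the threshold functions, each reads only the earlier constants; then `Lf86` (hence
`St86` with `15 e`) at every record beyond them.
-/

set_option autoImplicit false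

namespace Pool.Agent.W_7d29a1_C1.PL86

open MeasureTheory ProbabilityTheory Finset Filter Topology
open Pool.Agent.W_7d29a1_F hiding Bw G
open Pool.Agent.W_7d29a1_h4g Pool.Agent.W_7d29a1_H Pool.Agent.W_7d29a1_HS
open Pool.Agent.W_7d29a1_C1
open Pool.Agent.W_7d29a1_C1.H60
open Pool.Agent.W_7d29a1_C1.G37 (Gm)
open Pool.Agent.W_7d29a1_C1.BP58
open Pool.Agent.W_7d29a1_C1.RB22
open Pool.Agent.W_7d29a1_C1.D98
open Pool.Agent.W_7d29a1_C1.Nm15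
open Pool.Agent.W_7d29a1_C1.KwK34
open Pool.Agent.W_7d29a1_C1.Ln69

noncomputable section

variable {μ : Measure ℝ} {s c C kw e : ℝ} {n₀ : ℕ} {g : Gc15} {l : Lc15}

/-- **WHAT THE CONSTANTS SATISFY**, apart from the thresholds. -/
structure Wn86 (μ : Measure ℝ) (s c kw e : ℝ) (g : Gc15) (l : Lc15) (dM Z b Uw : ℝ) : Prop where
  ok : ∃ n₁ : ℕ, g.Ok μ s c n₁
  eps : g.ε ≤ e
  j8 : 8 ≤ g.j
  kw3 : l.Kb + 1 ≤ kw
  Kb0 : 0 ≤ l.Kb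
  spec : PGL μ s c e l.Kb l.Kl dM l.cM l.qM l.UM l.δ l.U0 l.LB l.KpB l.UB l.LA l.UA l.YB l.YA Z l.N l.pL
  KpA : l.KpA = l.KpB
  ρA : l.ρA = l.δ / 32
  ρB : l.ρB = l.δ / 32
  rM0 : 0 ≤ l.rM
  rM1 : l.rM ≤ dM
  N1 : 1 ≤ l.N
  lane : ∀ n₁ : ℕ, Ln34 μ s l n₁
  far : Fac86 μ s c kw (nm15 μ s c g l) (fun _ G u κ => Far98 μ s c G (nm15 μ s c g l G) u κ) e
  farL : Fac86 μ s c kw (nm15 μ s c g l) (fun Γ G u κ => FarL98 μ s c Γ G (nm15 μ s c g l G) u κ) e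
  b0 : 0 ≤ b
  Uw0 : 0 < Uw

/-- **P(not Lv) AT THE NUMBER RECORDS.** Thresholds: `V₀` for `V₁`; `κ'` for `kw`; `fR, fQ` (of `kw, j`) for `Re, Qe`; `UL` for `LA`;
`fV, fU, fb` (of `kw, pL`) for `al, U₁, b`. -/
theorem lvN86 [IsProbabilityMeasure μ] (h : In μ s c C n₀) (he : 0 < e) : ∃ (V₀ κ' UL : ℝ) (fR fQ : ℝ → ℕ → ℝ) (fV fU fb : ℝ → ℝ → ℝ),
    ∀ (g : Gc15) (l : Lc15) (kw dM Z b al U₁ Uw V₁ Re Qe : ℝ), Wn86 μ s c kw e g l dM Z b Uw → V₀ ≤ V₁ → g.R + κ' ≤ kw →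
      fR kw g.j ≤ Re → fQ kw g.j ≤ Qe → UL < l.LA → fV kw l.pL ≤ al → fU kw l.pL ≤ U₁ → fb kw l.pL ≤ b →
      Lf86 μ s c kw (nm15 μ s c g l) (rn86 μ s c b al U₁ Uw V₁ Re Qe) e (2 * l.pL) := by
  obtain ⟨V₀, -, HU⟩ := facUp86 h he
  obtain ⟨κ', hκ', HL⟩ := facLo86 h he
  obtain ⟨UL, -, n₃, HLk⟩ := facL34_nm (μ := μ) (s := s) (c := c) h he
  have HK : ∀ kw pL : ℝ, 0 ≤ kw → 0 < pL → ∃ V₂ b₁ U₂ : ℝ, ∀ (P : Gm → Nm98) (b al U₁ Uw V₁ Re Qe : ℝ), b₁ ≤ b → V₂ ≤ al → U₂ ≤ U₁ →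
      Fac86 μ s c kw P (fun Γ G u κ => KL98 μ s Γ G (P G) (rn86 μ s c b al U₁ Uw V₁ Re Qe G) u κ) (e * (2 * pL) / 2) := fun kw pL hkw hp => by
    obtain ⟨V₂, b₁, U₂, -, -, -, H⟩ := facKL86 (μ := μ) (s := s) (c := c) (e := e * (2 * pL) / 2) h (by positivity) hkw
    exact ⟨V₂, b₁, U₂, H⟩
  choose! R₀ Q₀ hR hQ HL using HL
  choose! V₂ b₁ U₂ HK using HK
  refine ⟨V₀, κ', UL, fun kw j => R₀ kw (1 / (2 * j)), fun kw j => Q₀ kw (1 / (2 * j)), V₂, U₂, b₁, ?_⟩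
  intro g l kw dM Z b al U₁ Uw V₁ Re Qe W hV hkw hRe hQe hLA hal hU1 hb
  obtain ⟨n₁, hok⟩ := W.ok
  have hkw0 : 0 ≤ kw := by
    have := W.kw3
    have := W.Kb0
    linarith
  have hp : 0 < l.pL := W.spec.1
  obtain ⟨a1, a2, a3⟩ := hP34 (l := l) hok W.j8 hkw
  obtain ⟨u1, u2, u3⟩ := HU kw (nm15 μ s c g l) b al U₁ Uw V₁ Re Qe hV
  obtain ⟨t1, t2, t3⟩ := facTy34_nm (g := g) W.spec W.KpA W.ρA W.ρB W.rM0 W.rM1 W.Kb0 W.kw3 W.N1 W.lane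
  obtain ⟨v1, v2, v3⟩ := HL kw (1 / (2 * g.j)) hkw0 a1 a2 (nm15 μ s c g l) b al U₁ Uw V₁ Re Qe hRe hQe a3
  exact
    { p0 := t1
      pL := t2
      gt := facGt34 hok W.eps
      loE := v1
      loF := v2
      loT := v3
      upS := u1
      upF := u2
      upT := u3
      st := facSt86 h he W.b0 W.Uw0 kw _ al U₁ V₁ Re Qe
      far := W.far
      farL := W.farL
      ty := t3
      kl := HK kw l.pL hkw0 hp _ b al U₁ Uw V₁ Re Qe hb hal hU1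
      lk := HLk g l kw hLA W.N1 (W.lane n₃) }

end

end Pool.Agent.W_7d29a1_C1.PL86
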