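import Pool.Agent.W_7d29a1_C1.SepS2
import Pool.Agent.W_7d29a1_C1.LvN86

/-!
Both halves (MP_7d29a1_pr), attractor route [C1], SEP: P(not Lv) AT THE RECORD `Cst`, form `EvC` (helper86)

**`evLf86`** : all the factors of `Lv` at `nm15 (C.g e) C.l` and `rn86 (C.R1 - 1) ..`, eventually in the constants. **`evSt86`** : so `St86` with
`15 e`.
-/

set_option autoImplicit false

namespace Pool.Agent.W_7d29a1_C1.PL86

open MeasureTheory ProbabilityTheory Finset Filter Topology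
open Pool.Agent.W_7d29a1_F hiding Bw G
open Pool.Agent.W_7d29a1_h4g Pool.Agent.W_7d29a1_H Pool.Agent.W_7d29a1_HS
open Pool.Agent.W_7d29a1_C1
open Pool.Agent.W_7d29a1_C1.H60
open Pool.Agent.W_7d29a1_C1.G37 (Gm)
open Pool.Agent.W_7d29a1_C1.BP58
open Pool.Agent.W_7d29a1_C1.RB22
open Pool.Agent.W_7d29a1_C1.D98
open Pool.Agent.W_7d29a1_C1.Nm15
open Pool.Agent.W_7d29a1_C1.KwK34
open Pool.Agent.W_7d29a1_C1.Ln69
open Pool.Agent.W_7d29a1_C1.Cs2

noncomputable section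

variable {μ : Measure ℝ} {s c Ci Cc e : ℝ} {n₀ : ℕ}

/-- **WHAT THE CONSTANTS SATISFY**, eventually. -/
theorem evWn86 (he : 0 < e) : EvC (S0 μ s c Cc e) fun C => Wn86 μ s c C.kw e (C.g e) C.l C.dM C.Z (C.R1 - 1) C.Uw := by
  filter_upwards [ok2 (μ := μ) (s := s) (c := c) (Cc := Cc) (ε := e), sg2, lane2, far2 he, FC.spec (S0 μ s c Cc e),
    FC.j0_ge (S0 μ s c Cc e) fun _ => 8, FC.kw_ge (S0 μ s c Cc e) fun _ => 3,
    FC.dl_le (S0 μ s c Cc e) (fun p => if 0 < p.dM then 4 * p.dM else 1) (fun p => by split_ifs with h <;> linarith),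
    FC.N_ge (S0 μ s c Cc e) fun _ => 1, FC.R1_ge (S0 μ s c Cc e) fun _ => 1, FC.Uw_ge (S0 μ s c Cc e) fun _ => 1]
    with C h1 h2 h3 h4 h5 h6 h7 h8 h9 h10 h11
  obtain ⟨n₁, h4⟩ := h4
  have hd : C.dl ≤ 4 * C.dM := by
    have h := h8.2
    have h' : C.dl ≤ if 0 < C.dM then 4 * C.dM else 1 := h
    rwa [if_pos h2.dM] at h'
  have h6' : 8 ≤ C.j0 := h6
  have h7' : (3 : ℝ) ≤ C.kw := h7
  have h10' : (1 : ℝ) ≤ C.R1 := h10
  have h11' : (1 : ℝ) ≤ C.Uw := h11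
  exact
    { ok := h1
      eps := le_rfl
      j8 := h6'.trans h2.j0
      kw3 := by
        show (2 : ℝ) + 1 ≤ C.kw
        linarith
      Kb0 := by
        show (0 : ℝ) ≤ 2
        norm_num
      spec := h5 .pL
      KpA := rfl
      ρA := rfl
      ρB := rfl
      rM0 := by
        show 0 ≤ C.dl / 4
        linarith [h8.1]
      rM1 := by
        show C.dl / 4 ≤ C.dM
        linarith
      N1 := h9
      lane := h3
      far := ⟨n₁, fun Γ G u κ hW => (h4 Γ G (nm15 μ s c (C.g e) C.l G) u κ rfl rfl rfl rfl hW.T_ge hW.fit).1⟩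
      farL := ⟨n₁, fun Γ G u κ hW => (h4 Γ G (nm15 μ s c (C.g e) C.l G) u κ rfl rfl rfl rfl hW.T_ge hW.fit).2⟩
      b0 := by linarith
      Uw0 := by linarith }

/-- **ALL THE FACTORS OF `Lv`**, eventually in the constants. -/
theorem evLf86 [IsProbabilityMeasure μ] (h : In μ s c Ci n₀) (he : 0 < e) : EvC (S0 μ s c Cc e) fun C =>
    Lf86 μ s c C.kw (nm15 μ s c (C.g e) C.l) (rn86 μ s c (C.R1 - 1) C.al C.U1n C.Uw C.V1 C.Re C.Qe) e (2 * C.pL) := by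
  obtain ⟨V₀, κ', UL, fR, fQ, fV, fU, fb, H⟩ := lvN86 (μ := μ) (s := s) (c := c) h he
  filter_upwards [evWn86 (μ := μ) (s := s) (c := c) (Cc := Cc) he, FC.V1_ge (S0 μ s c Cc e) fun _ => V₀,
    FC.kw_ge (S0 μ s c Cc e) fun p => p.R0 - 1 + κ', FC.Re_ge (S0 μ s c Cc e) fun p => fR p.kw p.j,
    FC.Qe_ge (S0 μ s c Cc e) fun p => fQ p.kw p.j, FC.LA_ge (S0 μ s c Cc e) fun _ => UL + 1,
    FC.al_ge (S0 μ s c Cc e) fun p => fV p.kw p.pL, FC.U1n_ge (S0 μ s c Cc e) fun p => fU p.kw p.pL,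
    FC.R1_ge (S0 μ s c Cc e) fun p => fb p.kw p.pL + 1] with C h1 h2 h3 h4 h5 h6 h7 h8 h9
  have h6' : UL + 1 ≤ C.LA := h6
  have h9' : fb C.kw C.pL + 1 ≤ C.R1 := h9
  refine H (C.g e) C.l C.kw C.dM C.Z (C.R1 - 1) C.al C.U1n C.Uw C.V1 C.Re C.Qe h1 h2 h3 h4 h5 ?_ h7 h8 ?_
  · show UL < C.LA
    linarith
  · show fb C.kw C.pL ≤ C.R1 - 1
    linarith

/-- **THE TYPICAL SET OF THE WINDOW**, eventually in the constants. -/
theorem evSt86 [IsProbabilityMeasure μ] (h : In μ s c Ci n₀) (he : 0 < e) : EvC (S0 μ s c Cc e) fun C =>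
    St86 μ s c C.kw (nm15 μ s c (C.g e) C.l) (rn86 μ s c (C.R1 - 1) C.al C.U1n C.Uw C.V1 C.Re C.Qe) (15 * e) :=
  (evLf86 h he).mono fun _ H => st86 H

end

end Pool.Agent.W_7d29a1_C1.PL86
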