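import Pool.Agent.W_7d29a1_C1.SepC3
import Pool.Agent.W_7d29a1_C1.LvC86

/-!
Both halves (MP_7d29a1_pr), attractor route [C1], SEP: THE LEAF `LvE` OF `LastQ2` (helper86)

**`lvE86`** : the static statement `St86` gives `LvE`. **`evLvE86`** : the probability of `Lv`, eventually in the constants.
-/

set_option autoImplicit false

namespace Pool.Agent.W_7d29a1_C1.PL86

open MeasureTheory ProbabilityTheory Finset Filter Topology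
open Pool.Agent.W_7d29a1_F hiding Bw G
open Pool.Agent.W_7d29a1_h4g Pool.Agent.W_7d29a1_H Pool.Agent.W_7d29a1_HS
open Pool.Agent.W_7d29a1_C1
open Pool.Agent.W_7d29a1_C1.H60
open Pool.Agent.W_7d29a1_C1.H40 (Tk)
open Pool.Agent.W_7d29a1_C1.G37 (Gm Wok gmW)
open Pool.Agent.W_7d29a1_C1.D98
open Pool.Agent.W_7d29a1_C1.Nm15
open Pool.Agent.W_7d29a1_C1.N49
open Pool.Agent.W_7d29a1_C1.Q49
open Pool.Agent.W_7d29a1_C1.Hp2
open Pool.Agent.W_7d29a1_C1.Cs2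

noncomputable section

variable {μ : Measure ℝ} {s c Ci Cc e : ℝ} {n₀ : ℕ}

/-- **`LvE` FROM THE STATIC STATEMENT.** -/
theorem lvE86 [IsProbabilityMeasure μ] (h : In μ s c Ci n₀) (hE9 : ∀ᶠ n : ℕ in Filter.atTop, (n : ℝ) ^ (1 / 9 : ℝ) ≤ EE μ s n)
    {P : Pre} {Dd : Dat} {N : Gm → Nm98} {R : Gm → Nr98} {ε : ℝ} (hok : OkE41 P Dd μ s (fun _ G _ => N G) fun _ G _ => R G)
    (hst : St86 μ s c P.kw N R ε) : LvE P Dd μ s (fun Γ G _ => LvA98 μ s c Γ G (N G) (R G)) ε := by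
  obtain ⟨n₁, hst⟩ := hst
  have hT : Evn P Dd μ s fun _ _ _ _ _ _ G _ _ _ => ∀ u, n₁ ≤ G.T u := Evn.of_T041 ⟨n₁, fun q m2 η A lam m0 g1 e0 c₂ δ κ n Γ T0 M
    mt τ0 hc hW h1 _ _ u => by
      have h2 : T0 * 1 ≤ T0 * Dd.K ^ u := Nat.mul_le_mul_left _ (Nat.one_le_pow _ _ (by have := Dd.hK; omega))
      have h3 : (P.G hW M m0 g1 m2 hc.h1 hc.h2).T u = T0 * Dd.K ^ u := rfl
      omega⟩
  refine ((WO57.evn_tilt (P := P) (D := Dd) h hE9 (ε₀ := c / 8) (by have := h.c0; linarith)).and (Evn.and hok hT)).monoG ?_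
  intro q m2 η A lam m0 g1 e0 c₂ δ κ n Γ T0 M mt τ0 hc hW _ _ _ _ _ _ _ _ hg hG h hτ u κ' hu huM hr hre hsw
  have hok0 : Ok98 (P.G hW M m0 g1 m2 hc.h1 hc.h2) (N (P.G hW M m0 g1 m2 hc.h1 hc.h2)) (R (P.G hW M m0 g1 m2 hc.h1 hc.h2)) 0 :=
    ok98_41 hG.v0 hG.v1 h.2.1
  have hu1 : 0 < u := hτ.trans hu
  refine ⟨meas_LvA98, offS_LvA98 hok0 hu1 hr, hst Γ _ u κ' ?_⟩
  have hmt : u ≤ mt := by
    have := hc.mt_ge
    have h1 : u < M := huM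
    omega
  exact
    { s_eq := hc.adm.hs
      v_eq := rfl
      v0 := hG.v0
      v1 := hG.v1
      w_eq := rfl
      kw_eq := rfl
      rc := hr
      tilt := (h.1 u hmt).1
      reN := hre
      T_ge := h.2.2 u
      u1 := hu1
      fit := hok0.fit u hu1
      nosw := fun hn => hsw ⟨by omega, by omega⟩ }

/-- **THE PROBABILITY OF `Lv`**, eventually in the constants. -/
theorem evLvE86 [IsProbabilityMeasure μ] (h : In μ s c Ci n₀) (hE9 : ∀ᶠ n : ℕ in Filter.atTop, (n : ℝ) ^ (1 / 9 : ℝ) ≤ EE μ s n)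
    (he : 0 < e) {Dd : Dat} (hok : EvC (S0 μ s c Cc e) fun C => OkE41 C.P Dd μ s (C.Nm μ s c e) (C.cf.nr μ s c)) :
    EvC (S0 μ s c Cc e) fun C => LvE C.P Dd μ s (C.fam μ s c e).Lv (15 * e) := by
  filter_upwards [evSt86 (Cc := Cc) h he, evP40 (S0 μ s c Cc e), hok] with C h1 h2 h3
  rw [← P_kw h2] at h1
  exact lvE86 h hE9 h3 h1

/-- **THE LEAF `LvQ2` OF `LastQ2`** (its body, literally), from the leaf `OkY40`. -/
theorem lvQ86 [IsProbabilityMeasure μ] (h : In μ s c Ci n₀) (hE9 : ∀ᶠ n : ℕ in Filter.atTop, (n : ℝ) ^ (1 / 9 : ℝ) ≤ EE μ s n)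
    {a Cg : ℝ} (hok : ∀ (D : Dat) (ε : ℝ), 0 < ε → EvC (S0 μ s c Cc ε) fun C => OkE41 C.P D μ s (C.Nm μ s c ε) (C.cf.nr μ s c)) :
    ∃ K₀ : ℕ, ∀ Dd : Dat, K₀ ≤ Dd.K → Dd.κ = (Dd.K : ℝ) ^ a → Dd.Cg = Cg → ∀ ε : ℝ, 0 < ε →
      EvC (S0 μ s c Cc ε) fun C => LvE C.P Dd μ s (C.fam μ s c ε).Lv (15 * ε) :=
  ⟨0, fun Dd _ _ _ ε hε => evLvE86 h hE9 hε (hok Dd ε hε)⟩

end

end Pool.Agent.W_7d29a1_C1.PL86
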