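import Pool.Agent.W_7d29a1_C1.EL60

/-!
Both halves (MP_7d29a1_pr), attractor route: THE LEVELS OF ALL THE LEAVES OF A FRESH BOX (helper60).

`NR60 t a Q` = no slab `v ≤ a` of any leaf of the box `Q` of level `t` reaches beyond `a`. Measurable, reads only the regions of level
`a + 1` of the leaves. `lvF60` : its complement has probability at most `ε` for `U ≥ U₀(ε)`.
-/

set_option autoImplicit false
set_option linter.unusedSectionVars false

namespace Pool.Agent.W_7d29a1_C1.H60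

open MeasureTheory ProbabilityTheory Filter Topology
open Pool.Agent.W_7d29a1_F Pool.Agent.W_7d29a1_C1.S71 Pool.Agent.W_7d29a1_C1.Sw9
open Pool.Agent.W_7d29a1_C1.T10
open scoped ENNReal

noncomputable section

variable {μ : Measure ℝ} [IsProbabilityMeasure μ] {G : Gd} {L : ℕ} {A : ℕ → Set Pt} {Lv : ℕ → ℕ × ℤ → Env → ℕ}

/-- No slab `v ≤ a` of a leaf of the box `Q` of level `t` reaches beyond `a`. -/
def NR60 (G : Gd) (L : ℕ) (Lv : ℕ → ℕ × ℤ → Env → ℕ) (t a : ℕ) (Q : ℕ × ℤ) : Set Env :=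
  {η | ∀ c, G.z t c = G.z t Q → ∀ v ≤ a, v + lvL G Lv L v c η ≤ a}

theorem NR60_congr {t a : ℕ} {Q Q' : ℕ × ℤ} (h : G.z t Q = G.z t Q') : NR60 G L Lv t a Q = NR60 G L Lv t a Q' := by
  unfold NR60
  rw [h]

theorem measurableSet_NR60 (hm : ∀ v o, Measurable (Lv v o)) (t a : ℕ) (Q : ℕ × ℤ) : MeasurableSet (NR60 G L Lv t a Q) := by
  have e : NR60 G L Lv t a Q = ⋂ c : ℕ × ℤ, {η | G.z t c = G.z t Q → ∀ v ≤ a, v + lvL G Lv L v c η ≤ a} := by
    ext η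
    simp only [NR60, Set.mem_ofPred_eq, Set.mem_iInter]
  rw [e]
  refine MeasurableSet.iInter fun c => ?_
  by_cases hc : G.z t c = G.z t Q
  · have e2 : {η | G.z t c = G.z t Q → ∀ v ≤ a, v + lvL G Lv L v c η ≤ a} =
        ⋂ v ∈ Finset.range (a + 1), {η | v + lvL G Lv L v c η ≤ a} := by
      ext η
      simp only [hc, true_implies, Set.mem_ofPred_eq, Set.mem_iInter, Finset.mem_range, Nat.lt_succ_iff]
    rw [e2]
    exact Finset.measurableSet_biInter _ fun v _ => measurableSet_le ((measurable_lvL hm v c).const_add v) measurable_const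
  · have e2 : {η | G.z t c = G.z t Q → ∀ v ≤ a, v + lvL G Lv L v c η ≤ a} = Set.univ := by
      ext η
      simp [hc]
    rw [e2]
    exact MeasurableSet.univ

/-- **Only the regions of level `a + 1` of the leaves are read.** -/
theorem NR60_off (hG : G.Ok L) (hA : G.Nest L A) (hL : Gd.Rd A Lv) {t a : ℕ} (ha : a + 1 ≤ L) (Q : ℕ × ℤ) :
    Off (⋃ c ∈ {c : ℕ × ℤ | G.z t c = G.z t Q}, At (G.x (a + 1) c) (A (a + 1)))ᶜ (NR60 G L Lv t a Q) := by
  intro η η' he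
  have key : ∀ c, G.z t c = G.z t Q → ∀ v ≤ a, lvL G Lv L v c η = lvL G Lv L v c η' := by
    intro c hc v hv
    have hvL : v < L := by omega
    rw [lvL_lt hvL]
    refine hG.lv_read hL hvL c η η' fun p hp => he p ?_
    rw [Set.mem_compl_iff, not_not] at hp
    rw [Set.mem_compl_iff, not_not]
    exact Set.mem_biUnion (show c ∈ {c : ℕ × ℤ | G.z t c = G.z t Q} from hc) (hG.Sl_sub hA (by omega) ha c hp)
  show (∀ c, G.z t c = G.z t Q → ∀ v ≤ a, v + lvL G Lv L v c η ≤ a) ↔ ∀ c, G.z t c = G.z t Q → ∀ v ≤ a, v + lvL G Lv L v c η' ≤ a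
  exact forall_congr' fun c => forall_congr' fun hc => forall_congr' fun v => forall_congr' fun hv => by rw [key c hc v hv]

/-- The region of the box is enough. -/
theorem NR60_off' (hG : G.Ok L) (hA : G.Nest L A) (hL : Gd.Rd A Lv) {t a : ℕ} (ha : a + 1 ≤ t) (ht : t ≤ L) (Q : ℕ × ℤ) :
    Off (At (G.x t Q) (A t))ᶜ (NR60 G L Lv t a Q) := by
  intro η η' he
  refine NR60_off hG hA hL (ha.trans ht) Q η η' fun p hp => he p fun h2 => ?_
  rw [Set.mem_compl_iff, not_not] at hp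
  obtain ⟨c, hc, hpc⟩ := Set.mem_iUnion₂.1 hp
  have hc' : G.z t c = G.z t Q := hc
  have h3 := hG.nest_le hA ha ht c hpc
  rw [Gd.x_congr hc'] at h3
  exact h2 h3

/-- The level events of a leaf are those of the base of its box of level `v`. -/
theorem ELc_base (hG : G.Ok L) {EL : ℕ → ℕ × ℤ → ℕ → Set Env} {t v : ℕ} (hvt : v ≤ t) (ht : t ≤ L) (hvL : v < L) {c Q : ℕ × ℤ}
    (hc : G.z t c = G.z t Q) (l : ℕ) : ELc G EL c v l = ELc G EL (G.z t Q + G.z v (G.rel t c)) v l := by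
  have e1 : G.z t Q + G.z v (G.rel t c) = G.z v c := by rw [← hc, ← hG.z_le hvt ht]
  rw [e1]
  have e2 : G.z v (G.z v c) = G.z v c := hG.z_z_le le_rfl hvL.le c
  unfold ELc
  rw [hG.dg_congr le_rfl hvL e2, hG.x_nested (Nat.le_succ v) hvL e2]

theorem law_ELc {EL : ℕ → ℕ × ℤ → ℕ → Set Env} (mE : ∀ v o l, MeasurableSet (EL v o l)) (c : ℕ × ℤ) (v l : ℕ) :
    (law μ) (ELc G EL c v l)ᶜ = (law μ) (EL v (G.dg v c) l)ᶜ :=
  (mp_sh (μ := μ) (G.x (v + 1) c)).measure_preimage (mE v _ l).compl.nullMeasurableSet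

/-- **THE LEVELS OF ALL THE LEAVES OF A FRESH BOX.** -/
theorem lvF60 {A' a₁ g₁ κ b χ C₀ ε : ℝ} (hA' : 0 < A') (ha₁ : 0 < a₁) (hg₁ : 0 < g₁) (hκ : 1 < κ) (hb : 0 ≤ b) (hχ : 0 < χ)
    (hC : 0 ≤ C₀) (hε : 0 < ε) : ∃ U₀ : ℝ, 1 ≤ U₀ ∧ ∀ U : ℝ, U₀ ≤ U → ∀ (G : Gd) (L Lm t a : ℕ) (EL : ℕ → ℕ × ℤ → ℕ → Set Env),
      G.Ok L → a ≤ t → t ≤ L → a < L → (∀ v o l, MeasurableSet (EL v o l)) →
      (∀ v ≤ a, (((G.subs v t).card : ℕ) : ℝ) ≤ C₀ * κ ^ (b * ((a - v : ℕ) : ℝ))) →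
      (∀ v ≤ a, ∀ c l, (law μ).real (EL v (G.dg v c) l)ᶜ ≤ A' * Real.exp (-(a₁ * (U * κ ^ (χ * (l : ℝ))) ^ g₁))) → ∀ Q : ℕ × ℤ,
      law μ (NR60 G L (LvE Lm EL) t a Q)ᶜ ≤ ENNReal.ofReal ε := by
  obtain ⟨U₀, hU₀, H⟩ := U16.tsum16 hA' ha₁ hg₁ hκ hb hχ hC hε
  refine ⟨U₀, hU₀, fun U hU G L Lm t a EL hG hat ht haL mE hN hP Q => ?_⟩
  have hκ0 : 0 < κ := by linarith
  have hsub : (NR60 G L (LvE Lm EL) t a Q)ᶜ ⊆ ⋃ v ∈ Finset.range (a + 1), ⋃ o ∈ G.subs v t, (ELc G EL (G.z t Q + o) v (a - v))ᶜ := by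
    intro η hη
    have h1 : ¬ ∀ c, G.z t c = G.z t Q → ∀ v ≤ a, v + lvL G (LvE Lm EL) L v c η ≤ a := hη
    push Not at h1
    obtain ⟨c, hc, v, hv, hlt⟩ := h1
    have hvL : v < L := by omega
    refine Set.mem_biUnion (Finset.mem_coe.2 (Finset.mem_range.2 (Nat.lt_succ_of_le hv))) ?_
    refine Set.mem_biUnion (Finset.mem_coe.2 (hG.mem_subs (hv.trans hat) ht c)) ?_
    rw [← ELc_base hG (hv.trans hat) ht hvL hc]
    intro h2
    rw [lvL_eq hvL] at hlt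
    have := rng_le_of (Lm := Lm) h2
    omega
  refine (measure_mono hsub).trans ((measure_biUnion_finset_le _ _).trans ?_)
  calc ∑ v ∈ Finset.range (a + 1), law μ (⋃ o ∈ G.subs v t, (ELc G EL (G.z t Q + o) v (a - v))ᶜ)
      ≤ ∑ v ∈ Finset.range (a + 1), ENNReal.ofReal (C₀ * κ ^ (b * ((a - v : ℕ) : ℝ)) *
          (A' * Real.exp (-(a₁ * (U * κ ^ (χ * ((a - v : ℕ) : ℝ))) ^ g₁)))) := by
        refine Finset.sum_le_sum fun v hv => ?_
        have hva : v ≤ a := Nat.lt_succ_iff.1 (Finset.mem_range.1 hv)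
        refine (measure_biUnion_finset_le _ _).trans ?_
        calc ∑ o ∈ G.subs v t, law μ (ELc G EL (G.z t Q + o) v (a - v))ᶜ
            ≤ ∑ _o ∈ G.subs v t, ENNReal.ofReal (A' * Real.exp (-(a₁ * (U * κ ^ (χ * ((a - v : ℕ) : ℝ))) ^ g₁))) := by
              refine Finset.sum_le_sum fun o _ => ?_
              rw [law_ELc mE, ← ofReal_measureReal (measure_ne_top _ _)]
              exact ENNReal.ofReal_le_ofReal (hP v hva _ _)
          _ = (((G.subs v t).card : ℕ) : ℝ≥0∞) * ENNReal.ofReal (A' * Real.exp (-(a₁ * (U * κ ^ (χ * ((a - v : ℕ) : ℝ))) ^ g₁))) := by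
              rw [Finset.sum_const, nsmul_eq_mul]
          _ ≤ _ := by
              rw [← ENNReal.ofReal_natCast, ← ENNReal.ofReal_mul (Nat.cast_nonneg _)]
              exact ENNReal.ofReal_le_ofReal (mul_le_mul_of_nonneg_right (hN v hva) (by positivity))
    _ = ENNReal.ofReal (∑ v ∈ Finset.range (a + 1), C₀ * κ ^ (b * ((a - v : ℕ) : ℝ)) *
          (A' * Real.exp (-(a₁ * (U * κ ^ (χ * ((a - v : ℕ) : ℝ))) ^ g₁)))) := by
        rw [ENNReal.ofReal_sum_of_nonneg fun v _ => by positivity]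
    _ ≤ ENNReal.ofReal ε := by
        refine ENNReal.ofReal_le_ofReal (le_trans (le_of_eq ?_) (H U hU (a + 1)))
        have e := Finset.sum_range_reflect (fun j : ℕ => C₀ * κ ^ (b * (j : ℝ)) *
          (A' * Real.exp (-(a₁ * (U * κ ^ (χ * (j : ℝ))) ^ g₁)))) (a + 1)
        rw [← e]
        refine Finset.sum_congr rfl fun v _ => ?_
        have e2 : a + 1 - 1 - v = a - v := by omega
        rw [e2]

/-- The same for a fresh ball: `lvL v c`, `v ≤ a`, reads only the ball. -/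
theorem NR60_gl (hG : G.Ok L) (hA : G.Nest L A) (hL : Gd.Rd A Lv) {t a : ℕ} (ha : a + 1 ≤ t) (ht : t ≤ L) (Q : ℕ × ℤ) {B : Set Pt}
    (hB : At (G.x t Q) (A t) ⊆ B) (η ω : Env) : gl B η ω ∈ NR60 G L Lv t a Q ↔ η ∈ NR60 G L Lv t a Q :=
  NR60_off' hG hA hL ha ht Q _ _ fun p hp => gl_of_mem (hB (by rw [Set.mem_compl_iff, not_not] at hp; exact hp)) η ω

end

end Pool.Agent.W_7d29a1_C1.H60
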