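import Pool.Agent.W_7d29a1_C1.LvP2
import Pool.Agent.W_7d29a1_C1.OuS37

/-!
MP_7d29a1_pr, the attractor route, TAME: THE CLAUSE `Lv` OF `hT`, WINDOWS INSIDE OF THE CONTEXT. (helper86)

`clLvN86` : the clause `clLvM2` (helper2), the windows `(u, κ)` of `Pr` satisfy moreover `re u κ ≤ Γ.N`.
-/

set_option autoImplicit false

namespace Pool.Agent.W_7d29a1_C1.Dep6

open MeasureTheory ProbabilityTheory Finset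
open Pool.Agent.W_7d29a1_F Pool.Agent.W_7d29a1_h4g Pool.Agent.W_7d29a1_H Pool.Agent.W_7d29a1_HS
open Pool.Agent.W_7d29a1_C1.H75 Pool.Agent.W_7d29a1_C1.U16 Pool.Agent.W_7d29a1_C1.H40 Pool.Agent.W_7d29a1_C1.S71
open Pool.Agent.W_7d29a1_C1.P25 (rws offS)
open Pool.Agent.W_7d29a1_C1.PW86
open scoped ENNReal

noncomputable section

/-- **THE CLAUSE OF `Lv`**, no exceptional set; `Pr` holds at the windows without the switch row which end at the row `Γ.N` at the latest. -/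
theorem clLvN86 {Γ : H60.Cx} {Gg : G37.Gm} {mt : ℕ} {Pr : ℕ → ℤ × ℤ → Prop} {Lv : ℕ → ℤ × ℤ → Set Env} {Sw : Finset ℤ} {E0 : ℕ}
    {dL : Cut (ℤ × ℤ) → Cut (ℤ × ℤ) → Env → ℕ} {dN : Cut (ℤ × ℤ) → Cut (ℤ × ℤ) → Cut (ℤ × ℤ) → Env → ℕ}
    {scL : Cut (ℤ × ℤ) → Cut (ℤ × ℤ) → ℕ} {C0 : ℝ} {C2 D τ v : ℕ} (hC : 1 ≤ C2) (hτ : 1 ≤ τ) (hE : 1 ≤ E0) (hv : 1 ≤ v)
    (hmt : Gg.M ≤ mt) (hM : (Γ.M : ℤ) ∈ Sw) (hdN : ∀ a b e η, dEN6 (EvN (rws Gg) (LvQ Pr Lv)) v a b e η ≤ dN a b e η)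
    (hPr : ∀ u κ, τ ≤ u → u < Gg.M → 0 ≤ Gg.rcc u κ → Gg.re u κ ≤ Γ.N → ¬ (Gg.ra u κ ≤ Γ.M ∧ Γ.M ≤ Gg.re u κ) → Pr u κ) :
    Cl86 Γ Gg mt Sw E0 dL dN scL lbN6 C0 C2 D τ ∅ Lv := fun η _ ρ u Z a1 a2 a3 a4 a5 a6 => by
  have hu := hτ.trans a1
  have hZ := triple86 a4 hC hu
  have h := lvN_own (G := gj Γ Gg mt) hZ hdN hv a5 a6 hE (rws_btw (F := SF98.FS Γ Gg mt) (mt := mt) (W := Set.univ) Gg hu ρ)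
  unfold LvQ at h
  have h1 : ¬ ((Gg.ra u (Gg.loc u ρ.1) : ℤ) ≤ Γ.M ∧ (Γ.M : ℤ) ≤ Gg.re u (Gg.loc u ρ.1)) :=
    noSw_rows2 Gg (F := SF98.FS Γ Gg mt) (mt := mt) (W := Set.univ) hu hZ a6 hE hM
  rwa [if_pos (show Pr u ((gj Γ Gg mt).loc u ρ) from hPr u _ a1 a2 (Gg.rcc_pos u ρ.1).le (Ou37.re_le_N hmt a2 ⟨ρ.1, ρ.2, rfl⟩)
    fun h => h1 ⟨by exact_mod_cast h.1, by exact_mod_cast h.2⟩)] at h

end

end Pool.Agent.W_7d29a1_C1.Dep6
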