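import Pool.Agent.W_7d29a1_C1.NrC86

/-!
Both halves (MP_7d29a1_pr), attractor route [C1], SEP: THE WINDOW OF ONE INSTANCE AND THE PROBABILITIES OF ITS EVENTS, static form (helper86)

`Wd86` : the premises at one window. `Fac86` : an event of the window has probability `≥ 1 - e` from a threshold on. `St86` : the typical set.
-/

set_option autoImplicit false

namespace Pool.Agent.W_7d29a1_C1.PL86

open MeasureTheory
open Pool.Agent.W_7d29a1_F hiding Bw G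
open Pool.Agent.W_7d29a1_h4g Pool.Agent.W_7d29a1_HS
open Pool.Agent.W_7d29a1_H hiding ex gg
open Pool.Agent.W_7d29a1_C1.H60
open Pool.Agent.W_7d29a1_C1.G37 (Gm)
open Pool.Agent.W_7d29a1_C1.D98

noncomputable section

/-- **THE WINDOW OF ONE INSTANCE.** `P`: the number record as a function of the geometry. -/
structure Wd86 (μ : Measure ℝ) (s c kw : ℝ) (P : Gm → Nm98) (n₁ : ℕ) (Γ : Cx) (G : Gm) (u : ℕ) (κ : ℤ × ℤ) : Prop where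
  s_eq : Γ.s = s
  v_eq : G.v = sl μ s
  v0 : 0 ≤ G.v
  v1 : G.v ≤ 1
  w_eq : G.w u = wd μ s (G.T u)
  kw_eq : G.kw = kw
  rc : 0 ≤ G.rcc u κ
  tilt : |Γ.h| * wd μ s (G.T u) ≤ c / 8 * EE μ s (G.T u)
  reN : G.re u κ ≤ Γ.N
  T_ge : n₁ ≤ G.T u
  u1 : 1 ≤ u
  fit : Fit98 G (P G) u
  nosw : NoSw98 Γ G u κ

/-- **An event of the window has probability at least `1 - e`**, from a threshold on. -/
def Fac86 (μ : Measure ℝ) (s c kw : ℝ) (P : Gm → Nm98) (S : Cx → Gm → ℕ → ℤ × ℤ → Set Env) (e : ℝ) : Prop :=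
  ∃ n₁ : ℕ, ∀ (Γ : Cx) (G : Gm) (u : ℕ) (κ : ℤ × ℤ), Wd86 μ s c kw P n₁ Γ G u κ → (law μ).real (S Γ G u κ)ᶜ ≤ e

/-- **THE TYPICAL SET OF THE WINDOW**, static form. -/
def St86 (μ : Measure ℝ) (s c kw : ℝ) (P : Gm → Nm98) (R : Gm → Nr98) (ε : ℝ) : Prop :=
  ∃ n₁ : ℕ, ∀ (Γ : Cx) (G : Gm) (u : ℕ) (κ : ℤ × ℤ), Wd86 μ s c kw P n₁ Γ G u κ →
    law μ (LvA98 μ s c Γ G (P G) (R G) u κ)ᶜ ≤ ENNReal.ofReal ε

variable {μ : Measure ℝ} {s c kw : ℝ} {P : Gm → Nm98} {R : Gm → Nr98} {S S' : Cx → Gm → ℕ → ℤ × ℤ → Set Env} {e e' : ℝ}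

theorem Wd86.mono {n₁ n₂ : ℕ} {Γ : Cx} {G : Gm} {u : ℕ} {κ : ℤ × ℤ} (h : Wd86 μ s c kw P n₂ Γ G u κ) (hn : n₁ ≤ n₂) :
    Wd86 μ s c kw P n₁ Γ G u κ :=
  ⟨h.s_eq, h.v_eq, h.v0, h.v1, h.w_eq, h.kw_eq, h.rc, h.tilt, h.reN, hn.trans h.T_ge, h.u1, h.fit, h.nosw⟩

theorem Fac86.mono (h : Fac86 μ s c kw P S e) (he : e ≤ e') : Fac86 μ s c kw P S e' := by
  obtain ⟨n₁, h⟩ := h
  exact ⟨n₁, fun Γ G u κ hw => (h Γ G u κ hw).trans he⟩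

/-- From the typical set. -/
theorem Fac86.st [IsProbabilityMeasure μ] (h : Fac86 μ s c kw P (fun Γ G u κ => LvA98 μ s c Γ G (P G) (R G) u κ) e) :
    St86 μ s c kw P R e := by
  have hP : IsProbabilityMeasure (law μ) := by unfold law; infer_instance
  obtain ⟨n₁, h⟩ := h
  refine ⟨n₁, fun Γ G u κ hw => ?_⟩
  have h1 := h Γ G u κ hw
  rw [measureReal_def] at h1
  rw [← ENNReal.ofReal_toReal (measure_ne_top (law μ) (LvA98 μ s c Γ G (P G) (R G) u κ)ᶜ)]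
  exact ENNReal.ofReal_le_ofReal h1

end

end Pool.Agent.W_7d29a1_C1.PL86
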