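import Pool.Agent.W_7d29a1_C1.EvB41
import Pool.Agent.W_7d29a1_C1.SepE98
import Pool.Agent.W_7d29a1_C1.RoX53

/-!
MP_7d29a1_pr, attractor route [C1], SEP: THE WRAPPERS OF `mL`, `dis`, `sLv`, `ro` (fields of `Lf49`) AT THE CONCRETE SETS `LvA98`,
`L' = LuA98 ∩ TmX` (SepE98, RoX53), in the form `Evn`. (helper41)

`NmF`, `NrF` : the number records as functions of the context, the geometry, the energies. `Okn41` : what the rows ask of the numbers, for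
the geometries of the model with a large base height; `ok98_41` : `Ok98` from it.
-/

set_option autoImplicit false

namespace Pool.Agent.W_7d29a1_C1.Q49

open Finset MeasureTheory Filter
open Pool.Agent.W_7d29a1_F hiding Bw G
open Pool.Agent.W_7d29a1_h4g Pool.Agent.W_7d29a1_H Pool.Agent.W_7d29a1_HS
open Pool.Agent.W_7d29a1_C1.H60
open Pool.Agent.W_7d29a1_C1.H40 (Tk)
open Pool.Agent.W_7d29a1_C1.G37 (Gm Wok gmW)
open Pool.Agent.W_7d29a1_C1.SF98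
open Pool.Agent.W_7d29a1_C1.P25
open Pool.Agent.W_7d29a1_C1.N49
open Pool.Agent.W_7d29a1_C1.D98
open Pool.Agent.W_7d29a1_C1.SD53
open scoped ENNReal

noncomputable section

/-! ### The rows -/

/-- **`Fit98`** from `40 n ≤ T`, `16 T_r ≤ T`. -/
theorem fit41 {G : Gm} {N : Nm98} {u : ℕ} (hu : 1 ≤ u) (h1 : 40 * N.n u ≤ G.T u) (h2 : 16 * N.T u ≤ G.T u) (h3 : 16 ≤ G.T u) :
    Fit98 G N u := by
  have h4 := G.T_succ (u - 1)
  rw [Nat.sub_add_cancel hu] at h4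
  unfold Fit98 ln98
  omega

/-- What the rows ask of the numbers. -/
structure Nok41 (G : Gm) (N : Nm98) (R : Nr98) (u : ℕ) : Prop where
  n1 : 1 ≤ N.n u
  m2 : 2 * N.m u ≤ N.n u
  nT : 40 * N.n u ≤ G.T u
  rT : 16 * N.T u ≤ G.T u
  b_ge : G.kw * G.w u + 2 ≤ R.b u * G.w u

theorem b_ge41 {G : Gm} {R : Nr98} {u : ℕ} (hw : 1 ≤ G.w u) (hb : G.kw + 2 ≤ R.b u) : G.kw * G.w u + 2 ≤ R.b u * G.w u := by
  nlinarith

theorem ok98_41 {G : Gm} {N : Nm98} {R : Nr98} {τ0 : ℕ} (hv0 : 0 ≤ G.v) (hv1 : G.v ≤ 1) (h : ∀ u, 1 ≤ u → Nok41 G N R u) :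
    Ok98 G N R τ0 where
  v0 := hv0
  v1 := hv1
  fit u hu := by
    have h1 := h u (by omega)
    exact fit41 (by omega) h1.nT h1.rT (by have := h1.n1; have := h1.nT; omega)
  n1 u hu := (h u (by omega)).n1
  m2 u hu := (h u (by omega)).m2
  b_ge u hu := (h u (by omega)).b_ge

/-- The numbers as functions of the context, the geometry, the energies. -/
abbrev NmF : Type := Cx → Gm → (ℕ → ℝ) → Nm98

/-- The numbers of the ratio as functions of the context, the geometry, the energies. -/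
abbrev NrF : Type := Cx → Gm → (ℕ → ℝ) → Nr98

variable {P : Pre} {D : Dat} {μ : Measure ℝ} {s c : ℝ} {N : NmF} {R : NrF} {bb Q1 : ℕ → ℝ}

/-- The numbers are good in the model. -/
def OkE41 (P : Pre) (D : Dat) (μ : Measure ℝ) (s : ℝ) (N : NmF) (R : NrF) : Prop :=
  Evn P D μ s fun _ _ _ _ _ Γ G _ _ E => ∀ u, 1 ≤ u → Nok41 G (N Γ G E) (R Γ G E) u

/-- **`OkE41` from the numbers as functions of the height.** -/
theorem okE41 (h : ∃ T₁ : ℕ, ∀ (T0 M m0 g1 m2 : ℕ) (hW : Wok μ s T0 D.K) (h1 : 1 ≤ g1) (h2 : 3 ≤ m2) (Γ : Cx), T₁ ≤ T0 → ∀ u, 1 ≤ u →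
    Nok41 (P.G hW M m0 g1 m2 h1 h2) (N Γ (P.G hW M m0 g1 m2 h1 h2) fun u => EE μ s (Tk T0 D.K u))
      (R Γ (P.G hW M m0 g1 m2 h1 h2) fun u => EE μ s (Tk T0 D.K u)) u) : OkE41 P D μ s N R := by
  obtain ⟨T₁, h⟩ := h
  exact Evn.of_T041 ⟨T₁, fun q m2 η A lam m0 g1 e0 c₂ δ κ n Γ T0 M mt τ0 hc hW hT _ _ u hu =>
    h T0 M m0 g1 m2 hW hc.h1 hc.h2 Γ hT u hu⟩

theorem OkE41.ok (h : OkE41 P D μ s N R) : Evn P D μ s fun _ _ _ _ _ Γ G _ τ0 E => Ok98 G (N Γ G E) (R Γ G E) τ0 :=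
  h.monoG fun _ _ _ _ _ _ _ _ _ _ _ _ _ _ _ _ _ _ _ _ _ _ _ _ _ _ _ _ hG h1 => ok98_41 hG.v0 hG.v1 h1

/-! ### The fields -/

variable [IsProbabilityMeasure μ]

/-- **`sLv`.** -/
theorem sLv41 (h : OkE41 P D μ s N R) : Evn P D μ s fun q _ _ _ _ Γ G mt τ0 E =>
    Stb Γ G mt q τ0 (fun u => P.Cr * E u) (bN P.Cd E) (fun u => E u / 16) fun _ => LvA98 μ s c Γ G (N Γ G E) (R Γ G E) :=
  h.ok.mono fun _ _ _ _ _ _ _ _ _ _ h1 => stb_LvA98 h1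

/-- The lucky set of `In25`. -/
def LuX41 (μ : Measure ℝ) (s c : ℝ) (N : NmF) (R : NrF) (bb Q1 : (ℕ → ℝ) → ℕ → ℝ) (Γ : Cx) (G : Gm) (E : ℕ → ℝ) : ℕ → ℤ × ℤ → Set Env :=
  Lx53 Γ G (Ou37.gam μ s Γ) (bb E) (Q1 E) fun u κ => LuA98 μ s c Γ G (N Γ G E) (R Γ G E) u κ

variable {bb Q1 : (ℕ → ℝ) → ℕ → ℝ}

/-- **`mL`.** -/
theorem mL41 (Γ : Cx) (G : Gm) (E : ℕ → ℝ) (u : ℕ) (κ : ℤ × ℤ) : MeasurableSet (LuX41 μ s c N R bb Q1 Γ G E u κ) :=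
  meas_LuA98.inter (meas_TmX _ _ _ _)

omit [IsProbabilityMeasure μ] in
/-- **`dis`.** -/
theorem dis41 (Γ : Cx) (G : Gm) (E : ℕ → ℝ) (u : ℕ) (κ : ℤ × ℤ) :
    Disjoint (LvA98 μ s c Γ G (N Γ G E) (R Γ G E) u κ) (LuX41 μ s c N R bb Q1 Γ G E u κ) :=
  disA98.mono_right Set.inter_subset_left

omit [IsProbabilityMeasure μ] in
/-- **`ro`** for the smaller lucky set. -/
theorem roX41 {Γ : Cx} {G : Gm} {mt τ0 : ℕ} {dR smax : ℕ → ℝ} {TT : ℝ → ℕ → ℤ × ℤ → Set Env} {E : ℕ → ℝ}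
    (h : RatW Γ G mt τ0 dR smax TT fun u κ => LuA98 μ s c Γ G (N Γ G E) (R Γ G E) u κ) :
    RatW Γ G mt τ0 dR smax TT (LuX41 μ s c N R bb Q1 Γ G E) :=
  fun u κ hu hM hκ ω hω η hη => h u κ hu hM hκ ω hω η hη.1

end

end Pool.Agent.W_7d29a1_C1.Q49
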