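import Pool.Agent.W_7d29a1_C1.HpQ2
import Pool.Agent.W_7d29a1_C1.WrL41
import Pool.Agent.W_7d29a1_C1.WrO57
import Pool.Agent.W_7d29a1_C1.StW86

/-!
MP_7d29a1_pr, [C1] attractor route, SEP + TAME: WHAT THE EVENT `Lv` OWES (`LvE` of HpQ2) FROM THE STATIC FORM. (helper81)

* `nosw81` : no switch among the rows `[ra, re]` gives `NoSw98`; `evn_T81` : the heights are large;
* **`evn_wd81`** : all the windows of the model are windows of helper86's static form (`Wd86`), from any threshold;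
* **`lvE81`** : `OkE41` and `St86` give `LvE` for `Lv := LvA98`.
-/

set_option autoImplicit false

namespace Pool.Agent.W_7d29a1_C1.PL86

open MeasureTheory Finset Filter
open Pool.Agent.W_7d29a1_F hiding Bw G
open Pool.Agent.W_7d29a1_h4g Pool.Agent.W_7d29a1_HS
open Pool.Agent.W_7d29a1_H hiding ex gg
open Pool.Agent.W_7d29a1_C1.H60
open Pool.Agent.W_7d29a1_C1.H40 (Tk)
open Pool.Agent.W_7d29a1_C1.G37 (Gm Wok gmW)
open Pool.Agent.W_7d29a1_C1.P25 (offS)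
open Pool.Agent.W_7d29a1_C1.N49
open Pool.Agent.W_7d29a1_C1.Q49
open Pool.Agent.W_7d29a1_C1.D98
open Pool.Agent.W_7d29a1_C1.S71 (Off)
open scoped ENNReal

noncomputable section

variable {P : Pre} {D : Dat} {μ : Measure ℝ} {s c C : ℝ} {n₀ : ℕ} {N : Gm → Nm98} {R : Gm → Nr98} {ε : ℝ}

/-- **No switch among the rows `[ra, re]`.** -/
theorem nosw81 {Γ : Cx} {G : Gm} {u : ℕ} {κ : ℤ × ℤ} (h : ¬ (G.ra u κ ≤ Γ.M ∧ Γ.M ≤ G.re u κ)) : NoSw98 Γ G u κ := by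
  intro h1
  have h2 := ra_pos98 (G := G) (u := u) (κ := κ)
  exact h ⟨by omega, by omega⟩

/-- The heights are large. -/
theorem evn_T81 (n₁ : ℕ) : Evn P D μ s fun _ _ _ _ _ _ G _ _ _ => ∀ u, n₁ ≤ G.T u :=
  Evn.of_T041 ⟨n₁, fun q m2 η A lam m0 g1 e0 c₂ δ κ n Γ T0 M mt τ0 hc hW h1 _ _ u => by
    have h2 : T0 * 1 ≤ T0 * D.K ^ u := Nat.mul_le_mul_left _ (Nat.one_le_pow _ _ (by have := D.hK; omega))
    have h3 : (P.G hW M m0 g1 m2 hc.h1 hc.h2).T u = T0 * D.K ^ u := rfl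
    omega⟩

/-- **ALL THE WINDOWS OF THE MODEL ARE WINDOWS OF THE STATIC FORM.** -/
theorem evn_wd81 [IsProbabilityMeasure μ] (hI : In μ s c C n₀) (hE9 : ∀ᶠ n : ℕ in atTop, (n : ℝ) ^ (1 / 9 : ℝ) ≤ EE μ s n)
    (hN : OkE41 P D μ s (fun _ G _ => N G) fun _ G _ => R G) (n₁ : ℕ) : Evn P D μ s fun _ _ _ _ _ Γ G _ _ _ => ∀ u κ, 1 ≤ u →
      u < G.M → 0 ≤ G.rcc u κ → G.re u κ ≤ Γ.N → ¬ (G.ra u κ ≤ Γ.M ∧ Γ.M ≤ G.re u κ) →
      Wd86 μ s c P.kw N n₁ Γ G u κ ∧ Ok98 G (N G) (R G) (u - 1) := by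
  refine (((WO57.evn_tilt (P := P) (D := D) hI hE9 (ε₀ := c / 8) (by have := hI.c0; linarith)).and (hN.and (evn_T81 n₁)))).monoG ?_
  intro q m2 η A lam m0 g1 e0 c₂ δ κ n Γ T0 M mt τ0 hc hW _ _ _ _ _ _ _ _ hg hG h u κ' hu hM h0 hre hno
  have h1 : Ok98 (P.G hW M m0 g1 m2 hc.h1 hc.h2) (N (P.G hW M m0 g1 m2 hc.h1 hc.h2)) (R (P.G hW M m0 g1 m2 hc.h1 hc.h2)) (u - 1) :=
    ok98_41 hG.v0 hG.v1 h.2.1
  have h2 : u < M := hM
  have h3 : u ≤ mt := by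
    have := hc.mt_ge
    omega
  exact ⟨⟨hc.adm.hs, rfl, hG.v0, hG.v1, rfl, rfl, h0, (h.1 u h3).1, hre, h.2.2 u, hu, h1.fit u (by omega), nosw81 hno⟩, h1⟩

/-- **WHAT THE EVENT `Lv` OWES**, from the static form. -/
theorem lvE81 [IsProbabilityMeasure μ] (hI : In μ s c C n₀) (hE9 : ∀ᶠ n : ℕ in atTop, (n : ℝ) ^ (1 / 9 : ℝ) ≤ EE μ s n)
    (hN : OkE41 P D μ s (fun _ G _ => N G) fun _ G _ => R G) (hS : St86 μ s c P.kw N R ε) :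
    Hp2.LvE P D μ s (fun Γ G _ u κ => LvA98 μ s c Γ G (N G) (R G) u κ) ε := by
  obtain ⟨n₁, hS⟩ := hS
  refine (evn_wd81 (c := c) hI hE9 hN n₁).mono fun q η A lam n Γ G mt τ0 E h hτ u κ hu hM h0 hre hno => ?_
  obtain ⟨h1, h2⟩ := h u κ (hτ.trans hu) hM h0 hre hno
  exact ⟨meas_LvA98, offS_LvA98 h2 (by omega) h0, hS Γ G u κ h1⟩

end

end Pool.Agent.W_7d29a1_C1.PL86
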