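import Pool.Agent.W_7d29a1_C1.VnB54
import Pool.Agent.W_7d29a1_UB.End

/-!
MP_7d29a1_pr, attractor route: the size of the variance `v_n` (helper54). Part D: the tail `TailV` from `BddF` (theorem `bddF92` of
`W_7d29a1_UB`).
-/

set_option autoImplicit false

namespace Pool.Agent.W_7d29a1_C1.H54

open MeasureTheory ProbabilityTheory Set Filter Topology
open Pool.Agent.W_7d29a1_F Pool.Agent.W_7d29a1_h4g Pool.Agent.W_7d29a1_H Pool.Agent.W_7d29a1_HS
open Pool.Agent.W_7d29a1_UB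
open Pool.Agent.W_7d29a1_HZ (wd' EE')
open Pool.Agent.W_7d29a1_h47 (EM)
open scoped NNReal

noncomputable section

variable {μ : Measure ℝ} {s : ℝ} [IsProbabilityMeasure μ]

/-- The truncated second moment from a tail, abstract (`sq_of_tail` of `W_7d29a1_UB` without the first term). -/
theorem sq_tail54 {B H : Env → ℝ} (mB : Measurable B) (hB2 : Integrable (fun η => B η ^ 2) (law μ))
    (hH4 : Integrable (fun η => H η ^ 4) (law μ)) (hBH : ∀ η, |B η| ≤ H η) {b t p M : ℝ} (ht : 0 < t)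
    (hM : ∫ η, H η ^ 4 ∂(law μ) ≤ M) (hp : (law μ).real {η | b < |B η|} ≤ p) :
    ∫ η, (if |B η| ≤ b then 0 else B η ^ 2) ∂(law μ) ≤ t * M + p / t := by
  classical
  have hS : MeasurableSet {η : Env | b < |B η|} := measurableSet_lt measurable_const mB.abs
  have i1 : Integrable ({η : Env | b < |B η|}.indicator fun _ => (1 : ℝ) / t) (law μ) := (integrable_const _).indicator hS
  have i2 : Integrable (fun η => t * H η ^ 4) (law μ) := hH4.const_mul t
  have i5 : Integrable (fun η => t * H η ^ 4 + {η : Env | b < |B η|}.indicator (fun _ => (1 : ℝ) / t) η) (law μ) := i2.add i1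
  have i6 : Integrable (fun η => if |B η| ≤ b then 0 else B η ^ 2) (law μ) := by
    refine hB2.mono' ?_ (ae_of_all _ fun η => ?_)
    · exact (Measurable.ite (measurableSet_le mB.abs measurable_const) measurable_const (mB.pow_const 2)).aestronglyMeasurable
    · have h0 : 0 ≤ B η ^ 2 := by positivity
      rw [Real.norm_eq_abs]
      split_ifs
      · rw [abs_zero]
        exact h0
      · rw [abs_of_nonneg h0]
  have h1 : ∀ η, (if |B η| ≤ b then 0 else B η ^ 2) ≤ t * H η ^ 4 + {η : Env | b < |B η|}.indicator (fun _ => (1 : ℝ) / t) η := by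
    intro η
    have hH0 : 0 ≤ H η := (abs_nonneg _).trans (hBH η)
    have h2 : 0 ≤ t * H η ^ 4 := by positivity
    by_cases hc : b < |B η|
    · rw [Set.indicator_of_mem (show η ∈ {η : Env | b < |B η|} from hc), if_neg (not_le.2 hc)]
      have h3 : B η ^ 2 ≤ H η ^ 2 := by
        rw [← sq_abs]
        exact pow_le_pow_left₀ (abs_nonneg _) (hBH η) 2
      have h4 : H η ^ 2 ≤ t * H η ^ 4 + 1 / t := by
        have h7 : 0 ≤ (t * H η ^ 2 - 1) ^ 2 / t := by positivity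
        have h8 : (t * H η ^ 2 - 1) ^ 2 / t = t * H η ^ 4 + 1 / t - 2 * H η ^ 2 := by
          field_simp
          ring
        have h9 : 0 ≤ H η ^ 2 := sq_nonneg _
        linarith
      linarith
    · rw [Set.indicator_of_notMem (show η ∉ {η : Env | b < |B η|} from hc), if_pos (not_lt.1 hc)]
      linarith
  refine (integral_mono i6 i5 h1).trans ?_
  rw [integral_add i2 i1, integral_const_mul, integral_indicator_const _ hS]
  simp only [smul_eq_mul]
  have h3 := mul_le_mul_of_nonneg_left hM ht.le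
  have h4 : (law μ).real {η : Env | b < |B η|} * (1 / t) ≤ p / t := by
    rw [mul_one_div]
    exact div_le_div_of_nonneg_right hp ht.le
  linarith

/-- **The tail.** -/
theorem tailV54 {c C : ℝ} {n₀ : ℕ} (h : In μ s c C n₀) (hBdd : BddF μ s) : TailV μ s := by
  intro ε hε p hp
  have hp0 : 0 < p := by linarith
  obtain ⟨δ, hδ⟩ : ∃ δ : ℝ, δ = 1 / (2 * p) := ⟨_, rfl⟩
  have hδ0 : 0 < δ := by rw [hδ]; positivity
  obtain ⟨c', hc', N₁, hb⟩ := hBdd δ hδ0 (ε / (2 * p)) (by positivity)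
  obtain ⟨C₄, hC1, hC₄⟩ := Hb_four h.em s
  have hev : ∀ (e : ℝ), 0 < e → ∀ B : ℝ, ∀ᶠ n : ℕ in atTop, B ≤ (n : ℝ) ^ e := fun e he B =>
    ((tendsto_rpow_atTop he).comp tendsto_natCast_atTop_atTop).eventually_ge_atTop B
  obtain ⟨n₁, hn₁⟩ := Pool.Agent.W_7d29a1_HZ.Z96.wd_eq96 h
  obtain ⟨a, K₀, ha, ha1, hK₀, hwd⟩ := Pool.Agent.W_7d29a1_HZ.Z96.wd_all96 h
  obtain ⟨N₂, hN₂⟩ := eventually_atTop.1 ((pow_exp_small hc' 8 (b := 1 / (64 * C₄)) (by positivity)).and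
    (pow_exp_small hc' 0 (b := 1 / 2) (by norm_num)))
  obtain ⟨N₀, hN₀⟩ := eventually_atTop.1 ((hev (ε / 2) (by positivity) 3).and ((hev a ha (K₀ * max 1 (wd μ s 1))).and
    (eventually_ge_atTop (max (max N₁ N₂) (max n₁ 1)))))
  refine ⟨N₀, fun n hn H hnH hHp x hx => ?_⟩
  obtain ⟨g1, g2, g3⟩ := hN₀ n hn
  have gN₁ : N₁ ≤ n := ((le_max_left _ _).trans (le_max_left _ _)).trans g3
  have gN₂ : N₂ ≤ n := ((le_max_right _ _).trans (le_max_left _ _)).trans g3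
  have gn₁ : n₁ ≤ n := ((le_max_left _ _).trans (le_max_right _ _)).trans g3
  have gn : 1 ≤ n := ((le_max_right _ _).trans (le_max_right _ _)).trans g3
  have hnR : (1 : ℝ) ≤ n := by exact_mod_cast gn
  have hn0 : (0 : ℝ) < n := by linarith
  have hHR : (n : ℝ) ≤ H := by exact_mod_cast hnH
  have hH0 : (0 : ℝ) < H := by linarith
  have hH1 : 1 ≤ H := gn.trans hnH
  obtain ⟨hwn, -, -⟩ := hn₁ n gn₁
  obtain ⟨e1, e2⟩ := hN₂ H (gN₂.trans hnH)
  have hEE : EE' μ s n = EE μ s n := max_eq_right (Pool.Agent.W_7d29a1_H.one_le_EE (μ := μ) (s := s) n)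
  have hE0 : 0 < EE μ s n := zero_lt_one.trans_le (Pool.Agent.W_7d29a1_H.one_le_EE (μ := μ) (s := s) n)
  -- the start is at a distance of at most `n`
  have hxn : x ≤ n := by
    have h1 : max 1 (wd μ s n) ≤ K₀ * ((n : ℝ) / (1 : ℕ)) ^ (1 - a) * max 1 (wd μ s 1) := (hwd 1 n le_rfl gn).2.2
    rw [Nat.cast_one, div_one, hwn] at h1
    have h2 : (n : ℝ) ^ a * (n : ℝ) ^ (1 - a) = n := by
      rw [← Real.rpow_add hn0]
      simp
    have h3 : (x : ℝ) ≤ n := by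
      calc (x : ℝ) ≤ K₀ * max 1 (wd μ s 1) * (n : ℝ) ^ (1 - a) := by linarith
        _ ≤ (n : ℝ) ^ a * (n : ℝ) ^ (1 - a) := mul_le_mul_of_nonneg_right g2 (Real.rpow_nonneg hn0.le _)
        _ = n := h2
    exact_mod_cast h3
  have hHn : (H : ℝ) ^ (2 * δ) ≤ n := by
    calc (H : ℝ) ^ (2 * δ) ≤ ((n : ℝ) ^ p) ^ (2 * δ) := Real.rpow_le_rpow hH0.le hHp (by positivity)
      _ = (n : ℝ) ^ (1 : ℝ) := by
        rw [← Real.rpow_mul hn0.le]
        congr 1
        rw [hδ]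
        field_simp
      _ = n := Real.rpow_one _
  have hx2 : (x : ℝ) ≤ 2 * wd' μ s n := by
    have h1 : wd' μ s n = wd μ s n := hwn
    rw [h1]
    have h2 : (0 : ℝ) ≤ x := Nat.cast_nonneg _
    linarith
  have hpr := hb H (gN₁.trans hnH) x n (hxn.trans hnH) hx2 hnH hHn
  have hle : 3 * (H : ℝ) ^ (ε / (2 * p)) * EE' μ s n ≤ (n : ℝ) ^ ε * EE μ s n := by
    rw [hEE]
    refine mul_le_mul_of_nonneg_right ?_ hE0.le
    calc 3 * (H : ℝ) ^ (ε / (2 * p)) ≤ (n : ℝ) ^ (ε / 2) * ((n : ℝ) ^ p) ^ (ε / (2 * p)) :=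
          mul_le_mul g1 (Real.rpow_le_rpow hH0.le hHp (by positivity)) (by positivity) (by positivity)
      _ = (n : ℝ) ^ ε := by
        rw [← Real.rpow_mul hn0.le, ← Real.rpow_add hn0]
        congr 1
        field_simp
        ring
  have hP : (law μ).real {η | (n : ℝ) ^ ε * EE μ s n < |V μ s η (0, (x : ℤ)) H - V μ s η 0 H|} ≤ Real.exp (-(H : ℝ) ^ c') := by
    refine ENNReal.toReal_le_of_le_ofReal (Real.exp_pos _).le (le_trans (measure_mono fun η hη => ?_) hpr)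
    exact lt_of_le_of_lt hle hη
  refine ⟨hP.trans (by simpa using e2), ?_⟩
  -- the fourth moment
  have hHB : ∀ η : Env, |V μ s η (0, (x : ℤ)) H - V μ s η 0 H| ≤ Hb μ s x H η + Hb μ s 0 H η := by
    intro η
    have h2 := abs_V_le27 (μ := μ) (s := s) η x H
    have h3 := abs_V_le27 (μ := μ) (s := s) η 0 H
    exact (abs_sub _ _).trans (add_le_add h2 h3)
  have hM : ∫ η, (Hb μ s x H η + Hb μ s 0 H η) ^ 4 ∂(law μ) ≤ 16 * C₄ * (H : ℝ) ^ 8 := by
    have j1 := pow4 h.em (Sub_Hb (μ := μ) (s := s) (x : ℤ) H) (Hb_nonneg (x : ℤ) H)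
    have j2 := pow4 h.em (Sub_Hb (μ := μ) (s := s) 0 H) (Hb_nonneg 0 H)
    have j3 : Integrable (fun η => 8 * Hb μ s x H η ^ 4) (law μ) := j1.const_mul 8
    have j4 : Integrable (fun η => 8 * Hb μ s 0 H η ^ 4) (law μ) := j2.const_mul 8
    have j5 : Integrable (fun η => 8 * Hb μ s x H η ^ 4 + 8 * Hb μ s 0 H η ^ 4) (law μ) := j3.add j4
    refine (integral_mono (pow4 h.em ((Sub_Hb (μ := μ) (s := s) (x : ℤ) H).add (Sub_Hb (μ := μ) (s := s) 0 H)) fun η =>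
      add_nonneg (Hb_nonneg _ _ _) (Hb_nonneg _ _ _)) j5 fun η => ?_).trans ?_
    · show (Hb μ s x H η + Hb μ s 0 H η) ^ 4 ≤ 8 * Hb μ s x H η ^ 4 + 8 * Hb μ s 0 H η ^ 4
      have g1 : (Hb μ s x H η + Hb μ s 0 H η) ^ 2 ≤ 2 * (Hb μ s x H η ^ 2 + Hb μ s 0 H η ^ 2) := by
        nlinarith [sq_nonneg (Hb μ s x H η - Hb μ s 0 H η)]
      have g2 : ((Hb μ s x H η + Hb μ s 0 H η) ^ 2) ^ 2 ≤ (2 * (Hb μ s x H η ^ 2 + Hb μ s 0 H η ^ 2)) ^ 2 :=
        pow_le_pow_left₀ (sq_nonneg _) g1 2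
      nlinarith [sq_nonneg (Hb μ s x H η ^ 2 - Hb μ s 0 H η ^ 2)]
    · rw [integral_add j3 j4, integral_const_mul, integral_const_mul]
      have k1 := hC₄ x H hH1
      have k2 := hC₄ 0 H hH1
      linarith
  have hH8 : 0 < (H : ℝ) ^ 8 := by positivity
  have hC40 : 0 < C₄ := by linarith
  have hSq := sq_tail54 (μ := μ) (B := fun η => V μ s η (0, (x : ℤ)) H - V μ s η 0 H) (H := fun η => Hb μ s x H η + Hb μ s 0 H η)
    ((V_meas s _ H).sub (V_meas s _ H)) (((Sub_V (0, (x : ℤ)) H).sub (Sub_V 0 H)).sq_integrable h.em)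
    (pow4 h.em ((Sub_Hb (μ := μ) (s := s) (x : ℤ) H).add (Sub_Hb (μ := μ) (s := s) 0 H)) fun η =>
      add_nonneg (Hb_nonneg _ _ _) (Hb_nonneg _ _ _)) hHB (t := 1 / (32 * C₄ * (H : ℝ) ^ 8)) (by positivity) hM hP
  have f1 : 1 / (32 * C₄ * (H : ℝ) ^ 8) * (16 * C₄ * (H : ℝ) ^ 8) = 1 / 2 := by
    field_simp
    norm_num
  have f2 : Real.exp (-(H : ℝ) ^ c') / (1 / (32 * C₄ * (H : ℝ) ^ 8)) ≤ 1 / 2 := by
    rw [div_div_eq_mul_div, div_one]
    have f3 : 32 * C₄ * ((H : ℝ) ^ 8 * Real.exp (-(H : ℝ) ^ c')) ≤ 32 * C₄ * (1 / (64 * C₄)) :=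
      mul_le_mul_of_nonneg_left e1 (by positivity)
    have f4 : 32 * C₄ * (1 / (64 * C₄)) = 1 / 2 := by
      field_simp
      norm_num
    rw [f4] at f3
    linarith
  rw [f1] at hSq
  linarith

end

end Pool.Agent.W_7d29a1_C1.H54
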