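import Pool.Agent.W_7d29a1_C1.VnC54
import Pool.Agent.W_7d29a1_C1.VnD54
import Pool.Agent.W_7d29a1_LB.All29
import Pool.Agent.W_7d29a1_UB.Fin92

/-!
MP_7d29a1_pr, attractor route: the size of the variance `v_n` (helper54). The last file: the theorems of LB and UB are fed in.
(Heavy imports: for the last assembly only.)
-/

set_option autoImplicit false

namespace Pool.Agent.W_7d29a1_C1.H54

open MeasureTheory ProbabilityTheory Set Filter Topology
open Pool.Agent.W_7d29a1_F Pool.Agent.W_7d29a1_H Pool.Agent.W_7d29a1_HS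
open Pool.Agent.W_7d29a1_C1.H8

variable {μ : Measure ℝ} {s : ℝ} [IsProbabilityMeasure μ] {c C : ℝ} {n₀ : ℕ}

theorem stepV_all54 (h : In μ s c C n₀) : StepV μ s := fun _ hε => Pool.Agent.W_7d29a1_LB.step_end29 h hε

theorem incV_all54 (h : In μ s c C n₀) : IncV μ s := fun _ hε => Pool.Agent.W_7d29a1_UB.inc_le92 h hε

theorem tailV_all54 (h : In μ s c C n₀) : TailV μ s := tailV54 h (Pool.Agent.W_7d29a1_UB.bddF92 h)

/-- **The loss of memory with both bounds of the variance from its raw form, no other hypothesis.** -/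
theorem lml_all54 (h : In μ s c C n₀) (hR : LMR54 μ s) : LML8 μ s :=
  lml54 h (stepV_all54 h) (incV_all54 h) (tailV_all54 h) hR

end Pool.Agent.W_7d29a1_C1.H54
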