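import Pool.Agent.W_7d29a1_C1.MainU17
import Pool.Agent.W_7d29a1_C1.EndL10
import Pool.Agent.W_7d29a1_C1.HybG8
import Pool.Agent.W_7d29a1_C1.VnE54
import Pool.Agent.W_7d29a1_C1.Low47

/-!
MP_7d29a1_pr, attractor route (helper17): THE LAST ASSEMBLY. Inputs at every tilt: the raw loss of memory at one site (`LMR54`), the
windows of the composite horizon (`WNL8`), and the lower half from `LMG8`.
-/

set_option autoImplicit false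

namespace Pool.Agent.W_7d29a1_C1

open MeasureTheory ProbabilityTheory Filter Topology
open Pool.Agent.W_7d29a1_F Pool.Agent.W_7d29a1_H Pool.Agent.W_7d29a1_HS Pool.Agent.W_7d29a1_HK20
open Pool.Agent.W_7d29a1_HM Pool.Agent.W_7d29a1_LB
open Pool.Agent.W_7d29a1_C1.H8 Pool.Agent.W_7d29a1_C1.H54
open Pool.Agent.W_7d29a1_h47 (EM Nondeg walk endMGF)

/-- The width is at least `n ^ (1/4)`. -/
theorem wl17 {μ : Measure ℝ} [IsProbabilityMeasure μ] {s c C : ℝ} {n₀ : ℕ} (h : In μ s c C n₀) : WlG8 μ s := by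
  obtain ⟨n₁, h1⟩ := Pool.Agent.W_7d29a1_HZ.wd'_eq h
  exact ⟨n₁, fun n hn => (h1 n hn).2.2⟩

/-- `LMG8` at one tilt. -/
theorem lmg17 {μ : Measure ℝ} [IsProbabilityMeasure μ] (hE : EM μ) (hN : Nondeg μ) {s : ℝ} (hR : LMR54 μ s) (hW : WNL8 μ s) :
    LMG8 μ s := by
  obtain ⟨c, C, n₀, h⟩ := in_tilt hE hN s
  exact lmg8 h (lb_all hE hN s) (wl17 h) (lml_all54 h hR) hW

/-- The upper half at one tilt. -/
theorem up17 {μ : Measure ℝ} [IsProbabilityMeasure μ] (hE : EM μ) (hN : Nondeg μ) {s : ℝ} (hM : LMG8 μ s) {ε : ℝ} (hε : 0 < ε) :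
    ∀ᶠ n : ℕ in atTop, EE μ s n ≤ (n : ℝ) ^ (1 / 3 + ε) := by
  obtain ⟨c, C, n₀, h⟩ := in_tilt hE hN s
  exact third10 h (lb_all hE hN s) (ub_all29 hE hN s) hM hε

/-- Both halves at one tilt. -/
theorem th_of17 {μ : Measure ℝ} [IsProbabilityMeasure μ] (hE : EM μ) (hN : Nondeg μ) {s : ℝ} (hM : LMG8 μ s)
    (hUp : Up47 μ s (FL8 μ s)) : Th17 μ s := by
  obtain ⟨c, C, n₀, h⟩ := in_tilt hE hN s
  intro ε hε
  exact (thirdL47 h (lb_all hE hN s) (ub_all29 hE hN s) fl0 (low10 h) (pig10 h) hUp hM hε).and (up17 hE hN hM hε)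

/-- **THE EXPONENTS**, from the raw loss of memory at one site, the windows and the rough bound of the composite horizon. -/
theorem main_C17 (hR : ∀ (μ : Measure ℝ) [IsProbabilityMeasure μ], EM μ → Nondeg μ → ∀ s, LMR54 μ s)
    (hW : ∀ (μ : Measure ℝ) [IsProbabilityMeasure μ], EM μ → Nondeg μ → ∀ s, WNL8 μ s)
    (hUp : ∀ (μ : Measure ℝ) [IsProbabilityMeasure μ], EM μ → Nondeg μ → ∀ s, Up47 μ s (FL8 μ s))
    {Ω : Type*} [MeasurableSpace Ω] (P : Measure Ω) [IsProbabilityMeasure P]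
    (ω : ℕ × ℤ → Ω → ℝ) (hmeas : ∀ p, Measurable (ω p)) (hindep : iIndepFun ω P)
    (hident : ∀ p q, IdentDistrib (ω p) (ω q) P P) (hnc : ¬ ∃ c : ℝ, ∀ᵐ x ∂P, ω (0, 0) x = c)
    (hexp : ∀ b : ℝ, Integrable (fun x => Real.exp (b * ω (0, 0) x)) P) {β : ℝ} (hβ : 0 < β) :
    nuF P β 0 0 ω = 2 / 3 ∧ chiF P β 0 ω = 1 / 3 ∧
    ∃ (lam J : ℝ → ℝ) (σ : ℝ → ℕ → ℝ), Differentiable ℝ lam ∧ deriv lam 0 = 0 ∧ Set.range (deriv lam) = Set.Ioo (-1) 1 ∧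
      (∀ h, ∀ᵐ x ∂P, Tendsto (fun n : ℕ => Real.log (endMGF β h (fun p => ω p x) n) / n) atTop (𝓝 (lam h))) ∧
      (∀ v, |v| < 1 → IsLUB (Set.range fun k => k * v - lam k) (J v)) ∧
      (∀ h n, σ h n = Real.sqrt (Var[fun x => Real.log (fZ β h (fun p => ω p x) n); P])) ∧
      (∀ h : ℝ,
        nuF P β h (deriv lam h) ω = 2 / 3 ∧ chiF P β h ω = 1 / 3 ∧
        Tendsto (fun n : ℕ => Real.log (σ h n) / Real.log n) atTop (𝓝 (1 / 3)) ∧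
        (∀ ε : ℝ, 0 < ε → ∀ᶠ n : ℕ in atTop, (n : ℝ) ^ (1 / 3 - ε) ≤ σ h n ∧ σ h n ≤ (n : ℝ) ^ (1 / 3 + ε)) ∧
        (∀ (q : ℕ) (ε : ℝ), 0 < ε → ∀ᶠ n : ℕ in atTop,
          (n : ℝ) ^ (2 / 3 * (q : ℝ) - ε) ≤
            ∫ x, fE β h (fun p => ω p x) n (fun s => |(walk s n : ℝ) - deriv lam h * n| ^ q) ∂P ∧
          ∫ x, fE β h (fun p => ω p x) n (fun s => |(walk s n : ℝ) - deriv lam h * n| ^ q) ∂P ≤
            ∫ x, fE β h (fun p => ω p x) n (fun s => mxv (deriv lam h) s ^ q) ∂P ∧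
          ∫ x, fE β h (fun p => ω p x) n (fun s => mxv (deriv lam h) s ^ q) ∂P ≤ (n : ℝ) ^ (2 / 3 * (q : ℝ) + ε)) ∧
        (∀ ε : ℝ, 0 < ε → ∃ r₀ : ℝ, 0 < r₀ ∧ ∀ r : ℝ, 0 < |r| → |r| ≤ r₀ →
          |r| ^ (2 + ε) ≤ lam (h + r) - lam h - r * deriv lam h ∧
          lam (h + r) - lam h - r * deriv lam h ≤ |r| ^ (2 - ε)) ∧
        (∀ ε : ℝ, 0 < ε → ∃ u₀ : ℝ, 0 < u₀ ∧ ∀ u : ℝ, 0 < |u| → |u| ≤ u₀ →
          |u| ^ (2 + ε) ≤ J (deriv lam h + u) - J (deriv lam h) - h * u ∧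
          J (deriv lam h + u) - J (deriv lam h) - h * u ≤ |u| ^ (2 - ε))) := by
  obtain ⟨lam, J, σ, hd, hd0, hr, hlim, hJ, hσ, hA, -, -, -⟩ := main_U17 (fun μ _ hE hN s => lb_all hE hN s)
    (fun μ _ hE hN s => ub_all29 hE hN s)
    (fun μ _ hE hN s => th_of17 hE hN (lmg17 hE hN (hR μ hE hN s) (hW μ hE hN s)) (hUp μ hE hN s))
    P ω hmeas hindep hident hnc hexp hβ
  have h0 := hA 0
  rw [hd0] at h0
  exact ⟨h0.1, h0.2.1, lam, J, σ, hd, hd0, hr, hlim, hJ, hσ, hA⟩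

end Pool.Agent.W_7d29a1_C1
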