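import Pool.Agent.W_7d29a1_C1.MainY17

/-!
MP_7d29a1_pr, attractor route (helper29): the order `n ^ (1/3 + o(1))` of the units (`Th17`, the input of the final form `main_U17`)
from the result of the exchange for the split functional (`LecQ`).
-/

set_option autoImplicit false

namespace Pool.Agent.W_7d29a1_C1

open MeasureTheory ProbabilityTheory Filter Topology
open Pool.Agent.W_7d29a1_F Pool.Agent.W_7d29a1_H Pool.Agent.W_7d29a1_HS Pool.Agent.W_7d29a1_HK20
open Pool.Agent.W_7d29a1_HM Pool.Agent.W_7d29a1_LB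
open Pool.Agent.W_7d29a1_C1.H8 Pool.Agent.W_7d29a1_C1.H54 Pool.Agent.W_7d29a1_C1.H60
open Pool.Agent.W_7d29a1_h47 (EM Nondeg walk endMGF)

/-- `Th17` at one tilt from the raw loss of memory. -/
theorem th17_R29 {μ : Measure ℝ} [IsProbabilityMeasure μ] (hE : EM μ) (hN : Nondeg μ) {s : ℝ} (hR : LMR54 μ s) : Th17 μ s := by
  obtain ⟨c, C, n₀, h⟩ := in_tilt hE hN s
  exact th_of17 hE hN (lmg17 hE hN hR (Win84.wnl8 h (lb_all hE hN s) (ub_all29 hE hN s)))
    (Win84.up47_84 h (lb_all hE hN s) (ub_all29 hE hN s))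

/-- **`Th17` at one tilt from the result of the exchange.** -/
theorem th17_29 {μ : Measure ℝ} [IsProbabilityMeasure μ] (hE : EM μ) (hN : Nondeg μ) {s : ℝ} (hX : LecQ μ s PhC ShC) : Th17 μ s :=
  th17_R29 hE hN (lmrY17 hE hN hX)

end Pool.Agent.W_7d29a1_C1
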