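import Pool.Agent.W_7d29a1_C1.WinI84
import Pool.Agent.W_7d29a1_C1.Fut67

/-!
[C1] HYBRIDS, CLOSURE (C), composite horizon (helper84): `WNL8` of helper8 from `In`, the lower and the upper bound of the variance, and
`fut_real67` of helper67; and the upper bound of the composite free energy (`up84L`).
-/

set_option autoImplicit false

namespace Pool.Agent.W_7d29a1_C1.Win84

open MeasureTheory ProbabilityTheory Filter Topology Finset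
open Pool.Agent.W_7d29a1_F Pool.Agent.W_7d29a1_X Pool.Agent.W_7d29a1_h4g Pool.Agent.W_7d29a1_H
open Pool.Agent.W_7d29a1_HS (In wd md md_abs wd_ge_one)
open Pool.Agent.W_7d29a1_C1.H8 (TL8 WF8 FL8 WNL8)

noncomputable section

variable {μ : Measure ℝ} {s : ℝ} [IsProbabilityMeasure μ] {c C : ℝ} {n₀ : ℕ}

/-- **The window of the hybrids, composite horizon.** -/
theorem wnl8 (h : In μ s c C n₀)
    (hL : ∀ ε : ℝ, 0 < ε → ∃ n₁ : ℕ, ∀ n : ℕ, n₁ ≤ n → wd μ s n ≤ (n : ℝ) ^ ε * EE μ s n ^ 2)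
    (hU : ∀ ε : ℝ, 0 < ε → ∃ n₁ : ℕ, ∀ n : ℕ, n₁ ≤ n → EE μ s n ^ 2 ≤ (n : ℝ) ^ ε * wd μ s n) : WNL8 μ s :=
  wnl84 h hL hU (Pool.Agent.W_7d29a1_C1.fut_real67 h)

/-- **The upper bound of the composite free energy**: for the tilts `|t| EE K ≤ K ^ κ` the first `K` rows bring at most `K ^ ε` units. -/
theorem up84L (h : In μ s c C n₀)
    (hL : ∀ ε : ℝ, 0 < ε → ∃ n₁ : ℕ, ∀ n : ℕ, n₁ ≤ n → wd μ s n ≤ (n : ℝ) ^ ε * EE μ s n ^ 2)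
    (hU : ∀ ε : ℝ, 0 < ε → ∃ n₁ : ℕ, ∀ n : ℕ, n₁ ≤ n → EE μ s n ^ 2 ≤ (n : ℝ) ^ ε * wd μ s n) :
    ∀ ε : ℝ, 0 < ε → ∀ p : ℝ, ∃ κ : ℝ, 0 < κ ∧ ∃ K₀ : ℕ, ∀ K : ℕ, K₀ ≤ K → ∀ L : ℕ, K ≤ L → (L : ℝ) ≤ (K : ℝ) ^ p →
    ∀ t : ℝ, |t| * EE μ s K ≤ (K : ℝ) ^ κ → |t| ≤ 1 →
    FL8 μ s K L t ≤ FL8 μ s 0 L 0 + (K : ℝ) ^ ε * EE μ s K + 1 := by
  intro ε hε p
  obtain ⟨κ, hκ, K₀, H⟩ := truncC84 h hL hU (Pool.Agent.W_7d29a1_C1.fut_real67 h) ε hε p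
  refine ⟨κ, hκ, max K₀ 1, fun K hK L hKL hLp t ht ht1 => ?_⟩
  have g1 : K₀ ≤ K := (le_max_left _ _).trans hK
  have g2 : 1 ≤ K := (le_max_right _ _).trans hK
  have h1 := (H K g1 L hKL hLp K 0 g2 (by simp) t ht1 ht (Icc (0 : ℤ) K) (le_refl _) fun y h0 h1 _ => mem_Icc.2 ⟨h0, h1⟩).2
  have h2 : FL8 μ s 0 L 0 = ∫ η, V μ s η 0 L ∂(law μ) := by
    unfold FL8
    refine integral_congr_ae (Eventually.of_forall fun η => ?_)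
    exact Pool.Agent.W_7d29a1_C1.H8.TL8_zero η 0 L
  rw [h2]
  exact h1

/-- `Up47` of helper47, for `FL8`. -/
theorem up47_84 (h : In μ s c C n₀)
    (hL : ∀ ε : ℝ, 0 < ε → ∃ n₁ : ℕ, ∀ n : ℕ, n₁ ≤ n → wd μ s n ≤ (n : ℝ) ^ ε * EE μ s n ^ 2)
    (hU : ∀ ε : ℝ, 0 < ε → ∃ n₁ : ℕ, ∀ n : ℕ, n₁ ≤ n → EE μ s n ^ 2 ≤ (n : ℝ) ^ ε * wd μ s n) :
    ∀ e : ℝ, 0 < e → ∀ᶠ N : ℕ in atTop, ∀ L : ℕ, N ^ 3 ≤ L → L ≤ 2 * N ^ 3 → ∀ r : ℝ,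
    |r| * EE μ s N ≤ (N : ℝ) ^ (-e) → FL8 μ s N L r ≤ FL8 μ s 0 L 0 + (N : ℝ) ^ e * EE μ s N := by
  intro e he
  obtain ⟨κ, hκ, K₀, H⟩ := up84L h hL hU (e / 2) (by positivity) 4
  filter_upwards [eventually_ge_atTop (max K₀ 2), ev84 2 (show 0 < e / 2 by positivity)] with N hN h2 L hNL hLN r hr
  have g1 : K₀ ≤ N := (le_max_left _ _).trans hN
  have g2 : 2 ≤ N := (le_max_right _ _).trans hN
  have hN2 : (2 : ℝ) ≤ N := by exact_mod_cast g2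
  have hN0 : (0 : ℝ) < N := by linarith
  have hN1 : (1 : ℝ) ≤ N := by linarith
  have hE := one_le_EE (μ := μ) (s := s) N
  have hKL : N ≤ L := by
    refine le_trans ?_ hNL
    calc N = N ^ 1 := (pow_one N).symm
      _ ≤ N ^ 3 := Nat.pow_le_pow_right (by omega) (by norm_num)
  have hLp : (L : ℝ) ≤ (N : ℝ) ^ (4 : ℝ) := by
    have h1 : (L : ℝ) ≤ 2 * (N : ℝ) ^ 3 := by exact_mod_cast hLN
    have h4 : (N : ℝ) ^ (4 : ℝ) = (N : ℝ) ^ 4 := by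
      rw [← Real.rpow_natCast]
      norm_num
    rw [h4]
    calc (L : ℝ) ≤ 2 * (N : ℝ) ^ 3 := h1
      _ ≤ N * (N : ℝ) ^ 3 := mul_le_mul_of_nonneg_right hN2 (by positivity)
      _ = (N : ℝ) ^ 4 := by ring
  have hneg : (N : ℝ) ^ (-e) ≤ 1 := by
    calc (N : ℝ) ^ (-e) ≤ (N : ℝ) ^ (0 : ℝ) := Real.rpow_le_rpow_of_exponent_le hN1 (by linarith)
      _ = 1 := Real.rpow_zero _
  have hκ1 : 1 ≤ (N : ℝ) ^ κ := Real.one_le_rpow hN1 hκ.le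
  have hr1 : |r| ≤ 1 := by
    have h1 : |r| * 1 ≤ |r| * EE μ s N := mul_le_mul_of_nonneg_left hE (abs_nonneg _)
    linarith
  have h3 := H N g1 L hKL hLp r (by linarith) hr1
  have h5 := mul_le_mul_of_nonneg_right h2 (show 0 ≤ (N : ℝ) ^ (e / 2) by positivity)
  rw [← Real.rpow_add hN0] at h5
  have h6 : e / 2 + e / 2 = e := by ring
  rw [h6] at h5
  have h7 := mul_le_mul_of_nonneg_right h5 (show 0 ≤ EE μ s N by linarith)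
  have h8 : 1 ≤ (N : ℝ) ^ (e / 2) * EE μ s N := one_le_mul_of_one_le_of_one_le (by linarith) hE
  linarith

/-- **The composite polymer stays in the window**, every start, every future of polynomial length (the form of helper78). -/
theorem locL84 (h : In μ s c C n₀)
    (hL : ∀ ε : ℝ, 0 < ε → ∃ n₁ : ℕ, ∀ n : ℕ, n₁ ≤ n → wd μ s n ≤ (n : ℝ) ^ ε * EE μ s n ^ 2)
    (hU : ∀ ε : ℝ, 0 < ε → ∃ n₁ : ℕ, ∀ n : ℕ, n₁ ≤ n → EE μ s n ^ 2 ≤ (n : ℝ) ^ ε * wd μ s n) :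
    ∀ ε : ℝ, 0 < ε → ∀ p : ℝ, ∃ κ c' : ℝ, 0 < κ ∧ 0 < c' ∧ ∃ K₀ : ℕ, ∀ K : ℕ, K₀ ≤ K → ∀ L : ℕ, (L : ℝ) ≤ (K : ℝ) ^ p →
    ∀ m k : ℕ, 1 ≤ m → m + k = K → ∀ t : ℝ, |t| * EE μ s K ≤ (K : ℝ) ^ κ → ∀ a : Pt,
    (law μ).real {η | ¬ ∑ y ∈ bd μ s K ε m, (W μ s η a m y * Real.exp (t * ((y : ℝ) - sl μ s * m))) *
        Real.exp (TL8 μ s (sl μ s) t k L η (a.1 + m, a.2 + y)) ≤
      Real.exp (-(K : ℝ) ^ c') * Real.exp (TL8 μ s (sl μ s) t K L η a)} ≤ Real.exp (-(K : ℝ) ^ c') :=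
  comp_at84 h hL hU (Pool.Agent.W_7d29a1_C1.fut_real67 h)

end

end Pool.Agent.W_7d29a1_C1.Win84
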