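import Pool.Agent.W_7d29a1_C1.MainC17
import Pool.Agent.W_7d29a1_C1.WinJ84
import Pool.Agent.W_7d29a1_C1.AsmP68
import Pool.Agent.W_7d29a1_C1.EEl8

/-!
MP_7d29a1_pr, attractor route (helper17): THE LAST ASSEMBLY with the windows, the rough bound and the numeric part of the loss of memory
fed in. `main_R17`: one input at every tilt (`LMR54`). `main_L17`: the four inputs of `LMR54` at every tilt.
-/

set_option autoImplicit false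

namespace Pool.Agent.W_7d29a1_C1

open MeasureTheory ProbabilityTheory Filter Topology
open Pool.Agent.W_7d29a1_F Pool.Agent.W_7d29a1_H Pool.Agent.W_7d29a1_HS Pool.Agent.W_7d29a1_HK20
open Pool.Agent.W_7d29a1_HM Pool.Agent.W_7d29a1_LB
open Pool.Agent.W_7d29a1_C1.H8 Pool.Agent.W_7d29a1_C1.H54 Pool.Agent.W_7d29a1_C1.H60
open Pool.Agent.W_7d29a1_h47 (EM Nondeg walk endMGF)

/-- **THE EXPONENTS**, from the raw loss of memory at one site. -/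
theorem main_R17 (hR : ∀ (μ : Measure ℝ) [IsProbabilityMeasure μ], EM μ → Nondeg μ → ∀ s, LMR54 μ s)
    {Ω : Type*} [MeasurableSpace Ω] (P : Measure Ω) [IsProbabilityMeasure P]
    (ω : ℕ × ℤ → Ω → ℝ) (hmeas : ∀ p, Measurable (ω p)) (hindep : iIndepFun ω P)
    (hident : ∀ p q, IdentDistrib (ω p) (ω q) P P) (hnc : ¬ ∃ c : ℝ, ∀ᵐ x ∂P, ω (0, 0) x = c)
    (hexp : ∀ b : ℝ, Integrable (fun x => Real.exp (b * ω (0, 0) x)) P) {β : ℝ} (hβ : 0 < β) :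
    nuF P β 0 0 ω = 2 / 3 ∧ chiF P β 0 ω = 1 / 3 ∧
    ∃ (lam J : ℝ → ℝ) (σ : ℝ → ℕ → ℝ), Differentiable ℝ lam ∧ deriv lam 0 = 0 ∧ Set.range (deriv lam) = Set.Ioo (-1) 1 ∧
      (∀ h, ∀ᵐ x ∂P, Tendsto (fun n : ℕ => Real.log (endMGF β h (fun p => ω p x) n) / n) atTop (𝓝 (lam h))) ∧
      (∀ v, |v| < 1 → IsLUB (Set.range fun k => k * v - lam k) (J v)) ∧
      (∀ h n, σ h n = Real.sqrt (Var[fun x => Real.log (fZ β h (fun p => ω p x) n); P])) ∧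
      (∀ h : ℝ,
        nuF P β h (deriv lam h) ω = 2 / 3 ∧ chiF P β h ω = 1 / 3 ∧
        Tendsto (fun n : ℕ => Real.log (σ h n) / Real.log n) atTop (𝓝 (1 / 3)) ∧
        (∀ ε : ℝ, 0 < ε → ∀ᶠ n : ℕ in atTop, (n : ℝ) ^ (1 / 3 - ε) ≤ σ h n ∧ σ h n ≤ (n : ℝ) ^ (1 / 3 + ε)) ∧
        (∀ (q : ℕ) (ε : ℝ), 0 < ε → ∀ᶠ n : ℕ in atTop,
          (n : ℝ) ^ (2 / 3 * (q : ℝ) - ε) ≤
            ∫ x, fE β h (fun p => ω p x) n (fun s => |(walk s n : ℝ) - deriv lam h * n| ^ q) ∂P ∧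
          ∫ x, fE β h (fun p => ω p x) n (fun s => |(walk s n : ℝ) - deriv lam h * n| ^ q) ∂P ≤
            ∫ x, fE β h (fun p => ω p x) n (fun s => mxv (deriv lam h) s ^ q) ∂P ∧
          ∫ x, fE β h (fun p => ω p x) n (fun s => mxv (deriv lam h) s ^ q) ∂P ≤ (n : ℝ) ^ (2 / 3 * (q : ℝ) + ε)) ∧
        (∀ ε : ℝ, 0 < ε → ∃ r₀ : ℝ, 0 < r₀ ∧ ∀ r : ℝ, 0 < |r| → |r| ≤ r₀ →
          |r| ^ (2 + ε) ≤ lam (h + r) - lam h - r * deriv lam h ∧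
          lam (h + r) - lam h - r * deriv lam h ≤ |r| ^ (2 - ε)) ∧
        (∀ ε : ℝ, 0 < ε → ∃ u₀ : ℝ, 0 < u₀ ∧ ∀ u : ℝ, 0 < |u| → |u| ≤ u₀ →
          |u| ^ (2 + ε) ≤ J (deriv lam h + u) - J (deriv lam h) - h * u ∧
          J (deriv lam h + u) - J (deriv lam h) - h * u ≤ |u| ^ (2 - ε))) := by
  refine main_C17 hR (fun μ _ hE hN s => ?_) (fun μ _ hE hN s => ?_) P ω hmeas hindep hident hnc hexp hβ
  · obtain ⟨c, C, n₀, h⟩ := in_tilt hE hN s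
    exact Win84.wnl8 h (lb_all hE hN s) (ub_all29 hE hN s)
  · obtain ⟨c, C, n₀, h⟩ := in_tilt hE hN s
    exact Win84.up47_84 h (lb_all hE hN s) (ub_all29 hE hN s)

/-- `LMR54` at one tilt from the four inputs of the assembly. -/
theorem lmr17 {μ : Measure ℝ} [IsProbabilityMeasure μ] (hE : EM μ) (hN : Nondeg μ) {s : ℝ} (hL : LocP8 μ s) (hY : YsqP68 μ s)
    (hK : KwP68 μ s) (hX : LecP68 μ s) : LMR54 μ s := by
  obtain ⟨c, C, n₀, h⟩ := in_tilt hE hN s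
  exact lmrD8 hE (ee9_8 (lb_all hE hN s) (wl17 h)) hL (xsP68 hY) (phiP68 h (ub_all29 hE hN s) hX (sqP68 hY hK))

/-- **THE EXPONENTS**, from the localisation, the second moment, the wild part and the exchange. -/
theorem main_L17 (hL : ∀ (μ : Measure ℝ) [IsProbabilityMeasure μ], EM μ → Nondeg μ → ∀ s, LocP8 μ s)
    (hY : ∀ (μ : Measure ℝ) [IsProbabilityMeasure μ], EM μ → Nondeg μ → ∀ s, YsqP68 μ s)
    (hK : ∀ (μ : Measure ℝ) [IsProbabilityMeasure μ], EM μ → Nondeg μ → ∀ s, KwP68 μ s)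
    (hX : ∀ (μ : Measure ℝ) [IsProbabilityMeasure μ], EM μ → Nondeg μ → ∀ s, LecP68 μ s)
    {Ω : Type*} [MeasurableSpace Ω] (P : Measure Ω) [IsProbabilityMeasure P]
    (ω : ℕ × ℤ → Ω → ℝ) (hmeas : ∀ p, Measurable (ω p)) (hindep : iIndepFun ω P)
    (hident : ∀ p q, IdentDistrib (ω p) (ω q) P P) (hnc : ¬ ∃ c : ℝ, ∀ᵐ x ∂P, ω (0, 0) x = c)
    (hexp : ∀ b : ℝ, Integrable (fun x => Real.exp (b * ω (0, 0) x)) P) {β : ℝ} (hβ : 0 < β) :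
    nuF P β 0 0 ω = 2 / 3 ∧ chiF P β 0 ω = 1 / 3 ∧
    ∃ (lam J : ℝ → ℝ) (σ : ℝ → ℕ → ℝ), Differentiable ℝ lam ∧ deriv lam 0 = 0 ∧ Set.range (deriv lam) = Set.Ioo (-1) 1 ∧
      (∀ h, ∀ᵐ x ∂P, Tendsto (fun n : ℕ => Real.log (endMGF β h (fun p => ω p x) n) / n) atTop (𝓝 (lam h))) ∧
      (∀ v, |v| < 1 → IsLUB (Set.range fun k => k * v - lam k) (J v)) ∧
      (∀ h n, σ h n = Real.sqrt (Var[fun x => Real.log (fZ β h (fun p => ω p x) n); P])) ∧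
      (∀ h : ℝ,
        nuF P β h (deriv lam h) ω = 2 / 3 ∧ chiF P β h ω = 1 / 3 ∧
        Tendsto (fun n : ℕ => Real.log (σ h n) / Real.log n) atTop (𝓝 (1 / 3)) ∧
        (∀ ε : ℝ, 0 < ε → ∀ᶠ n : ℕ in atTop, (n : ℝ) ^ (1 / 3 - ε) ≤ σ h n ∧ σ h n ≤ (n : ℝ) ^ (1 / 3 + ε)) ∧
        (∀ (q : ℕ) (ε : ℝ), 0 < ε → ∀ᶠ n : ℕ in atTop,
          (n : ℝ) ^ (2 / 3 * (q : ℝ) - ε) ≤
            ∫ x, fE β h (fun p => ω p x) n (fun s => |(walk s n : ℝ) - deriv lam h * n| ^ q) ∂P ∧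
          ∫ x, fE β h (fun p => ω p x) n (fun s => |(walk s n : ℝ) - deriv lam h * n| ^ q) ∂P ≤
            ∫ x, fE β h (fun p => ω p x) n (fun s => mxv (deriv lam h) s ^ q) ∂P ∧
          ∫ x, fE β h (fun p => ω p x) n (fun s => mxv (deriv lam h) s ^ q) ∂P ≤ (n : ℝ) ^ (2 / 3 * (q : ℝ) + ε)) ∧
        (∀ ε : ℝ, 0 < ε → ∃ r₀ : ℝ, 0 < r₀ ∧ ∀ r : ℝ, 0 < |r| → |r| ≤ r₀ →
          |r| ^ (2 + ε) ≤ lam (h + r) - lam h - r * deriv lam h ∧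
          lam (h + r) - lam h - r * deriv lam h ≤ |r| ^ (2 - ε)) ∧
        (∀ ε : ℝ, 0 < ε → ∃ u₀ : ℝ, 0 < u₀ ∧ ∀ u : ℝ, 0 < |u| → |u| ≤ u₀ →
          |u| ^ (2 + ε) ≤ J (deriv lam h + u) - J (deriv lam h) - h * u ∧
          J (deriv lam h + u) - J (deriv lam h) - h * u ≤ |u| ^ (2 - ε))) :=
  main_R17 (fun μ _ hE hN s => lmr17 hE hN (hL μ hE hN s) (hY μ hE hN s) (hK μ hE hN s) (hX μ hE hN s))
    P ω hmeas hindep hident hnc hexp hβ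

end Pool.Agent.W_7d29a1_C1
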