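import Pool.Agent.W_7d29a1_C1.MainH29

/-!
MP_7d29a1_pr, attractor route (helper29): THE FINAL FORM OF THE HAND-IN: `main_U17` (every force, a dense set of forces, almost every
force and velocity) with the exponents of the problem in front, from the result of the exchange for the split functional (`LecQ`).
-/

set_option autoImplicit false

namespace Pool.Agent.W_7d29a1_C1

open MeasureTheory ProbabilityTheory Filter Topology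
open Pool.Agent.W_7d29a1_F Pool.Agent.W_7d29a1_H Pool.Agent.W_7d29a1_HS Pool.Agent.W_7d29a1_HK20
open Pool.Agent.W_7d29a1_HM Pool.Agent.W_7d29a1_LB
open Pool.Agent.W_7d29a1_C1.H8 Pool.Agent.W_7d29a1_C1.H54 Pool.Agent.W_7d29a1_C1.H60
open Pool.Agent.W_7d29a1_h47 (EM Nondeg walk endMGF)

/-- **THE EXPONENTS OF THE PROBLEM AND THE POLYMER UNDER EVERY FORCE**, from the result of the exchange. -/
theorem main_T29 (hX : ∀ (μ : Measure ℝ) [IsProbabilityMeasure μ], EM μ → Nondeg μ → ∀ s, LecQ μ s PhC ShC)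
    {Ω : Type*} [MeasurableSpace Ω] (P : Measure Ω) [IsProbabilityMeasure P]
    (ω : ℕ × ℤ → Ω → ℝ) (hmeas : ∀ p, Measurable (ω p)) (hindep : iIndepFun ω P)
    (hident : ∀ p q, IdentDistrib (ω p) (ω q) P P) (hnc : ¬ ∃ c : ℝ, ∀ᵐ x ∂P, ω (0, 0) x = c)
    (hexp : ∀ b : ℝ, Integrable (fun x => Real.exp (b * ω (0, 0) x)) P) {β : ℝ} (hβ : 0 < β) :
    nuF P β 0 0 ω = 2 / 3 ∧ chiF P β 0 ω = 1 / 3 ∧
    ∃ (lam J : ℝ → ℝ) (σ : ℝ → ℕ → ℝ), Differentiable ℝ lam ∧ deriv lam 0 = 0 ∧ Set.range (deriv lam) = Set.Ioo (-1) 1 ∧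
      (∀ h, ∀ᵐ x ∂P, Tendsto (fun n : ℕ => Real.log (endMGF β h (fun p => ω p x) n) / n) atTop (𝓝 (lam h))) ∧
      (∀ v, |v| < 1 → IsLUB (Set.range fun k => k * v - lam k) (J v)) ∧
      (∀ h n, σ h n = Real.sqrt (Var[fun x => Real.log (fZ β h (fun p => ω p x) n); P])) ∧
      -- every force
      (∀ h : ℝ,
        nuF P β h (deriv lam h) ω = 2 / 3 ∧ chiF P β h ω = 1 / 3 ∧
        Tendsto (fun n : ℕ => Real.log (σ h n) / Real.log n) atTop (𝓝 (1 / 3)) ∧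
        (∀ ε : ℝ, 0 < ε → ∀ᶠ n : ℕ in atTop, (n : ℝ) ^ (1 / 3 - ε) ≤ σ h n ∧ σ h n ≤ (n : ℝ) ^ (1 / 3 + ε)) ∧
        (∀ (q : ℕ) (ε : ℝ), 0 < ε → ∀ᶠ n : ℕ in atTop,
          (n : ℝ) ^ (2 / 3 * (q : ℝ) - ε) ≤
            ∫ x, fE β h (fun p => ω p x) n (fun s => |(walk s n : ℝ) - deriv lam h * n| ^ q) ∂P ∧
          ∫ x, fE β h (fun p => ω p x) n (fun s => |(walk s n : ℝ) - deriv lam h * n| ^ q) ∂P ≤
            ∫ x, fE β h (fun p => ω p x) n (fun s => mxv (deriv lam h) s ^ q) ∂P ∧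
          ∫ x, fE β h (fun p => ω p x) n (fun s => mxv (deriv lam h) s ^ q) ∂P ≤ (n : ℝ) ^ (2 / 3 * (q : ℝ) + ε)) ∧
        (∀ ε : ℝ, 0 < ε → ∃ r₀ : ℝ, 0 < r₀ ∧ ∀ r : ℝ, 0 < |r| → |r| ≤ r₀ →
          |r| ^ (2 + ε) ≤ lam (h + r) - lam h - r * deriv lam h ∧
          lam (h + r) - lam h - r * deriv lam h ≤ |r| ^ (2 - ε)) ∧
        (∀ ε : ℝ, 0 < ε → ∃ u₀ : ℝ, 0 < u₀ ∧ ∀ u : ℝ, 0 < |u| → |u| ≤ u₀ →
          |u| ^ (2 + ε) ≤ J (deriv lam h + u) - J (deriv lam h) - h * u ∧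
          J (deriv lam h + u) - J (deriv lam h) - h * u ≤ |u| ^ (2 - ε))) ∧
      -- a dense set of forces
      (∃ T : Set ℝ, Dense T ∧ ∀ h ∈ T, ∃ c C : ℝ, 0 < c ∧
        (∀ r : ℝ, |r| ≤ 1 → c * r ^ 2 ≤ lam (h + r) - lam h - r * deriv lam h ∧
          lam (h + r) - lam h - r * deriv lam h ≤ C * r ^ 2) ∧
        (∀ᶠ n : ℕ in atTop,
          c * (n * σ h n) ≤
            ∫ x, fE β h (fun p => ω p x) n (fun s => |(walk s n : ℝ) - deriv lam h * n| ^ 2) ∂P ∧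
          ∫ x, fE β h (fun p => ω p x) n (fun s => mxv (deriv lam h) s ^ 2) ∂P ≤ C * (n * σ h n)) ∧
        (∀ᶠ n : ℕ in atTop, ∀ R : ℝ, 1 ≤ R → 1 - ∫ x, fP β h (fun p => ω p x) n
          {s | mxv (deriv lam h) s ≤ R * Real.sqrt (n * σ h n)} ∂P ≤ C * Real.exp (-(c * R ^ c))) ∧
        (∀ ε : ℝ, 0 < ε → ∃ a : ℝ, 0 < a ∧ ∀ᶠ n : ℕ in atTop, ∫ x, fP β h (fun p => ω p x) n
          {s | |(walk s n : ℝ) - deriv lam h * n| ≤ a * Real.sqrt (n * σ h n)} ∂P ≤ ε) ∧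
        (∀ q : ℕ, ∃ a A : ℝ, 0 < a ∧ ∀ᶠ n : ℕ in atTop,
          a * Real.sqrt (n * σ h n) ^ q ≤
            ∫ x, fE β h (fun p => ω p x) n (fun s => |(walk s n : ℝ) - deriv lam h * n| ^ q) ∂P ∧
          ∫ x, fE β h (fun p => ω p x) n (fun s => mxv (deriv lam h) s ^ q) ∂P ≤ A * Real.sqrt (n * σ h n) ^ q)) ∧
      -- almost every force
      (∀ᵐ h : ℝ, ∃ C : ℝ, ∀ᶠ n : ℕ in atTop,
          ∫ x, fE β h (fun p => ω p x) n (fun s => mxv (deriv lam h) s ^ 2) ∂P ≤ C * (n * σ h n)) ∧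
      -- almost every velocity
      (∀ᵐ v : ℝ, ∀ h : ℝ, deriv lam h = v → ∃ c : ℝ, 0 < c ∧ ∀ᶠ n : ℕ in atTop, c * (n * σ h n) ≤
          ∫ x, fE β h (fun p => ω p x) n (fun s => |(walk s n : ℝ) - v * n| ^ 2) ∂P) := by
  obtain ⟨lam, J, σ, hd, hd0, hr, hlim, hJ, hσ, hA, hT, hF, hV⟩ := main_U17 (fun μ _ hE hN s => lb_all hE hN s)
    (fun μ _ hE hN s => ub_all29 hE hN s) (fun μ _ hE hN s => th17_29 hE hN (hX μ hE hN s)) P ω hmeas hindep hident hnc hexp hβ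
  have h0 := hA 0
  rw [hd0] at h0
  exact ⟨h0.1, h0.2.1, lam, J, σ, hd, hd0, hr, hlim, hJ, hσ, hA, hT, hF, hV⟩

end Pool.Agent.W_7d29a1_C1
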