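import Pool.Agent.W_7d29a1_LB.Cons29
import Pool.Agent.W_7d29a1_C1.Curv17
import Pool.Agent.W_7d29a1_C1.Leg17

/-!
MP_7d29a1_pr, attractor route (helper17): THE EXPONENTS `2 / 3` AND `1 / 3` OF THE POLYMER UNDER EVERY FORCE, from the order
`n ^ (1/3 + o(1))` of the units at every tilt.
-/

set_option autoImplicit false

namespace Pool.Agent.W_7d29a1_C1

open MeasureTheory ProbabilityTheory Filter Topology
open Pool.Agent.W_7d29a1_F Pool.Agent.W_7d29a1_H Pool.Agent.W_7d29a1_HS Pool.Agent.W_7d29a1_HK20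
open Pool.Agent.W_7d29a1_HM Pool.Agent.W_7d29a1_LB
open Pool.Agent.W_7d29a1_SR (toF mp_toF)
open Pool.Agent.W_7d29a1_h47 (EM Nondeg Lam LamN walk endMGF EM_of Nondeg_of map_toEnv tendsto_logZ log_endMGF)

/-- Both bounds of the standard deviation. -/
theorem sgm17 (hE : ∀ (μ : Measure ℝ) [IsProbabilityMeasure μ], EM μ → Nondeg μ → ∀ s, Th17 μ s)
    {Ω : Type*} [MeasurableSpace Ω] (P : Measure Ω) [IsProbabilityMeasure P]
    (ω : ℕ × ℤ → Ω → ℝ) (hmeas : ∀ p, Measurable (ω p)) (hindep : iIndepFun ω P)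
    (hident : ∀ p q, IdentDistrib (ω p) (ω q) P P) (hnc : ¬ ∃ c : ℝ, ∀ᵐ x ∂P, ω (0, 0) x = c)
    (hexp : ∀ b : ℝ, Integrable (fun x => Real.exp (b * ω (0, 0) x)) P) {β : ℝ} (hβ : 0 < β)
    (h : ℝ) {ε : ℝ} (hε : 0 < ε) :
    ∀ᶠ n : ℕ in atTop, (n : ℝ) ^ (1 / 3 - ε) ≤ Real.sqrt (Var[fun x => Real.log (fZ β h (fun p => ω p x) n); P]) ∧
      Real.sqrt (Var[fun x => Real.log (fZ β h (fun p => ω p x) n); P]) ≤ (n : ℝ) ^ (1 / 3 + ε) := by
  obtain ⟨μ, hμdef⟩ : ∃ μ : Measure ℝ, μ = P.map fun x => β * ω (0, 0) x := ⟨_, rfl⟩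
  have hm0 : Measurable fun x => β * ω (0, 0) x := (hmeas _).const_mul β
  have hprob : IsProbabilityMeasure μ := by
    rw [hμdef]
    exact Measure.isProbabilityMeasure_map hm0.aemeasurable
  have hμ : EM μ := by
    rw [hμdef]
    exact EM_of (hmeas _) hexp β
  have hnd : Nondeg μ := by
    rw [hμdef]
    exact Nondeg_of (hmeas _) hnc hβ
  have hmp := mp_toF hmeas hindep hident β
  rw [← hμdef] at hmp
  have f := (inp20 μ hμ hnd).fac (2 * h)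
  obtain ⟨a, A, ha, hA, h1⟩ := sgmS (P := P) (β := β) (ω := ω) f hmp
  filter_upwards [eventually_ge_atTop 1, hE μ hμ hnd (2 * h) (ε / 2) (by positivity),
    ev_pow20 (1 / a) (show 0 < ε / 2 by positivity), ev_pow20 A (show 0 < ε / 2 by positivity)] with n h3 h4 h5 h6
  have hn : (0 : ℝ) < n := by exact_mod_cast h3
  have e1 : (n : ℝ) ^ (1 / 3 - ε / 2) = (n : ℝ) ^ (ε / 2) * (n : ℝ) ^ (1 / 3 - ε) := by
    rw [← Real.rpow_add hn]
    ring_nf
  have e2 : (n : ℝ) ^ (1 / 3 + ε) = (n : ℝ) ^ (ε / 2) * (n : ℝ) ^ (1 / 3 + ε / 2) := by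
    rw [← Real.rpow_add hn]
    ring_nf
  rw [div_le_iff₀ ha] at h5
  have hp : 0 ≤ (n : ℝ) ^ (1 / 3 - ε) := Real.rpow_nonneg hn.le _
  have hE0 := EE_pos (μ := μ) (s := 2 * h) n
  constructor
  · calc (n : ℝ) ^ (1 / 3 - ε) ≤ (n : ℝ) ^ (ε / 2) * a * (n : ℝ) ^ (1 / 3 - ε) := le_mul_of_one_le_left hp h5
      _ = a * (n : ℝ) ^ (1 / 3 - ε / 2) := by
          rw [e1]
          ring
      _ ≤ a * EE μ (2 * h) n := mul_le_mul_of_nonneg_left h4.1 ha.le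
      _ ≤ _ := (h1 n h3).1
  · calc Real.sqrt (Var[fun x => Real.log (fZ β h (fun p => ω p x) n); P]) ≤ A * EE μ (2 * h) n := (h1 n h3).2
      _ ≤ (n : ℝ) ^ (ε / 2) * (n : ℝ) ^ (1 / 3 + ε / 2) := mul_le_mul h6 h4.2 hE0.le (Real.rpow_nonneg hn.le _)
      _ = (n : ℝ) ^ (1 / 3 + ε) := e2.symm

/-- The second order increments of the free energy. -/
theorem exc17 (hL : ∀ (μ : Measure ℝ) [IsProbabilityMeasure μ], EM μ → Nondeg μ → ∀ s, LB17 μ s)
    (hU : ∀ (μ : Measure ℝ) [IsProbabilityMeasure μ], EM μ → Nondeg μ → ∀ s, UB17 μ s)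
    (hE : ∀ (μ : Measure ℝ) [IsProbabilityMeasure μ], EM μ → Nondeg μ → ∀ s, Th17 μ s)
    {Ω : Type*} [MeasurableSpace Ω] (P : Measure Ω) [IsProbabilityMeasure P]
    (ω : ℕ × ℤ → Ω → ℝ) (hmeas : ∀ p, Measurable (ω p)) (hindep : iIndepFun ω P)
    (hident : ∀ p q, IdentDistrib (ω p) (ω q) P P) (hnc : ¬ ∃ c : ℝ, ∀ᵐ x ∂P, ω (0, 0) x = c)
    (hexp : ∀ b : ℝ, Integrable (fun x => Real.exp (b * ω (0, 0) x)) P) {β : ℝ} (hβ : 0 < β) {lam : ℝ → ℝ}
    (hlim : ∀ h, ∀ᵐ x ∂P, Tendsto (fun n : ℕ => Real.log (endMGF β h (fun p => ω p x) n) / n) atTop (𝓝 (lam h)))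
    (h : ℝ) :
    (∀ r, 0 ≤ lam (h + r) - lam h - r * deriv lam h) ∧
    (∀ t r : ℝ, 0 ≤ t → t ≤ 1 →
      lam (h + t * r) - lam h - t * r * deriv lam h ≤ t * (lam (h + r) - lam h - r * deriv lam h)) ∧
    ∀ ε : ℝ, 0 < ε → ∃ r₀ : ℝ, 0 < r₀ ∧ ∀ r : ℝ, 0 < |r| → |r| ≤ r₀ →
      |r| ^ (2 + ε) ≤ lam (h + r) - lam h - r * deriv lam h ∧ lam (h + r) - lam h - r * deriv lam h ≤ |r| ^ (2 - ε) := by
  obtain ⟨μ, hμdef⟩ : ∃ μ : Measure ℝ, μ = P.map fun x => β * ω (0, 0) x := ⟨_, rfl⟩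
  have hm0 : Measurable fun x => β * ω (0, 0) x := (hmeas _).const_mul β
  have hprob : IsProbabilityMeasure μ := by
    rw [hμdef]
    exact Measure.isProbabilityMeasure_map hm0.aemeasurable
  have hμ : EM μ := by
    rw [hμdef]
    exact EM_of (hmeas _) hexp β
  have hnd : Nondeg μ := by
    rw [hμdef]
    exact Nondeg_of (hmeas _) hnc hβ
  have hmpE := map_toEnv hmeas hindep hident β
  rw [← hμdef] at hmpE
  have hid : lam = LamN μ := by
    funext h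
    have g1 := hmpE.quasiMeasurePreserving.ae (tendsto_logZ hμ h)
    have g2 := hmpE.quasiMeasurePreserving.ae (tendsto_logZ hμ 0)
    obtain ⟨x, hx1, hx2, hx3⟩ := (g1.and (g2.and (hlim h))).exists
    refine tendsto_nhds_unique hx3 ((hx1.sub hx2).congr fun n => ?_)
    rw [log_endMGF, sub_div]
  have hdv : deriv lam h = vel μ h := by
    rw [hid]
    exact ((Lam_hasDeriv20 hμ hnd h).sub_const (Lam μ 0)).deriv
  have hex : ∀ r, lam (h + r) - lam h - r * deriv lam h = ex μ (2 * h) (2 * r) := by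
    intro r
    rw [ex_vel, hdv, hid]
    unfold LamN
    rw [mul_div_cancel_left₀ r (two_ne_zero' ℝ)]
    ring
  have hI := inp20 μ hμ hnd
  obtain ⟨c₁, C₁, n₁, hi⟩ := hI.inn (2 * h)
  refine ⟨fun r => ?_, fun t r h0 h1 => ?_, fun ε hε => ?_⟩
  · rw [hex]
    exact ex_nonneg hμ hnd _ _
  · rw [hex, hex, show 2 * (t * r) = t * (2 * r) by ring]
    exact ex_mul_le hμ (2 * h) h0 h1 (2 * r)
  · obtain ⟨r₀, hr0, h2⟩ := curv17 hi (hE μ hμ hnd (2 * h)) (hL μ hμ hnd (2 * h)) (hU μ hμ hnd (2 * h))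
      (show 0 < ε / 2 by positivity)
    refine ⟨min (r₀ / 2) (min 1 ((1 / 4 : ℝ) ^ (2 / ε))), by positivity, fun r hr hr1 => ?_⟩
    have b1 : |r| ≤ r₀ / 2 := hr1.trans (min_le_left _ _)
    have b2 : |r| ≤ 1 := hr1.trans ((min_le_right _ _).trans (min_le_left _ _))
    have b3 : |r| ≤ (1 / 4 : ℝ) ^ (2 / ε) := hr1.trans ((min_le_right _ _).trans (min_le_right _ _))
    have e1 : |2 * r| = 2 * |r| := by rw [abs_mul, abs_of_pos (two_pos : (0 : ℝ) < 2)]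
    obtain ⟨h3, h4⟩ := h2 (2 * r) (by rw [e1]; positivity) (by rw [e1]; linarith)
    rw [e1] at h3 h4
    rw [hex]
    constructor
    · refine le_trans ?_ h3
      calc |r| ^ (2 + ε) ≤ |r| ^ (2 + ε / 2) := Real.rpow_le_rpow_of_exponent_ge hr b2 (by linarith)
        _ ≤ (2 * |r|) ^ (2 + ε / 2) := Real.rpow_le_rpow hr.le (by linarith) (by positivity)
    · refine h4.trans ?_
      have g1 : |r| ^ (ε / 2) ≤ ((1 / 4 : ℝ) ^ (2 / ε)) ^ (ε / 2) := Real.rpow_le_rpow hr.le b3 (by positivity)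
      rw [← Real.rpow_mul (by norm_num)] at g1
      have g2 : 2 / ε * (ε / 2) = 1 := by
        field_simp
      rw [g2, Real.rpow_one] at g1
      have g3 : (2 : ℝ) ^ (2 - ε / 2) ≤ 4 := by
        calc (2 : ℝ) ^ (2 - ε / 2) ≤ 2 ^ (2 : ℝ) := Real.rpow_le_rpow_of_exponent_le (by norm_num) (by linarith)
          _ = 4 := by norm_num
      have g4 : |r| ^ (2 - ε / 2) = |r| ^ (ε / 2) * |r| ^ (2 - ε) := by
        rw [← Real.rpow_add hr]
        ring_nf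
      have hp : 0 ≤ |r| ^ (2 - ε) := Real.rpow_nonneg hr.le _
      calc (2 * |r|) ^ (2 - ε / 2) = 2 ^ (2 - ε / 2) * (|r| ^ (ε / 2) * |r| ^ (2 - ε)) := by
            rw [Real.mul_rpow (by norm_num) hr.le, g4]
        _ ≤ 4 * (1 / 4 * |r| ^ (2 - ε)) :=
            mul_le_mul g3 (mul_le_mul_of_nonneg_right g1 hp) (by positivity) (by norm_num)
        _ = |r| ^ (2 - ε) := by ring

/-- **THE EXPONENTS OF THE POLYMER UNDER EVERY FORCE**, from the two bounds of the variance and the order of the units at every tilt. -/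
theorem main_U17 (hL : ∀ (μ : Measure ℝ) [IsProbabilityMeasure μ], EM μ → Nondeg μ → ∀ s, LB20 μ s)
    (hU : ∀ (μ : Measure ℝ) [IsProbabilityMeasure μ], EM μ → Nondeg μ → ∀ s, UB20 μ s)
    (hE : ∀ (μ : Measure ℝ) [IsProbabilityMeasure μ], EM μ → Nondeg μ → ∀ s, Th17 μ s)
    {Ω : Type*} [MeasurableSpace Ω] (P : Measure Ω) [IsProbabilityMeasure P]
    (ω : ℕ × ℤ → Ω → ℝ) (hmeas : ∀ p, Measurable (ω p)) (hindep : iIndepFun ω P)
    (hident : ∀ p q, IdentDistrib (ω p) (ω q) P P) (hnc : ¬ ∃ c : ℝ, ∀ᵐ x ∂P, ω (0, 0) x = c)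
    (hexp : ∀ b : ℝ, Integrable (fun x => Real.exp (b * ω (0, 0) x)) P) {β : ℝ} (hβ : 0 < β) :
    ∃ (lam J : ℝ → ℝ) (σ : ℝ → ℕ → ℝ), Differentiable ℝ lam ∧ deriv lam 0 = 0 ∧ Set.range (deriv lam) = Set.Ioo (-1) 1 ∧
      (∀ h, ∀ᵐ x ∂P, Tendsto (fun n : ℕ => Real.log (endMGF β h (fun p => ω p x) n) / n) atTop (𝓝 (lam h))) ∧
      (∀ v, |v| < 1 → IsLUB (Set.range fun k => k * v - lam k) (J v)) ∧
      (∀ h n, σ h n = Real.sqrt (Var[fun x => Real.log (fZ β h (fun p => ω p x) n); P])) ∧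
      -- every force
      (∀ h : ℝ,
        nuF P β h (deriv lam h) ω = 2 / 3 ∧ chiF P β h ω = 1 / 3 ∧
        Tendsto (fun n : ℕ => Real.log (σ h n) / Real.log n) atTop (𝓝 (1 / 3)) ∧
        (∀ ε : ℝ, 0 < ε → ∀ᶠ n : ℕ in atTop, (n : ℝ) ^ (1 / 3 - ε) ≤ σ h n ∧ σ h n ≤ (n : ℝ) ^ (1 / 3 + ε)) ∧
        (∀ (q : ℕ) (ε : ℝ), 0 < ε → ∀ᶠ n : ℕ in atTop,
          (n : ℝ) ^ (2 / 3 * (q : ℝ) - ε) ≤
            ∫ x, fE β h (fun p => ω p x) n (fun s => |(walk s n : ℝ) - deriv lam h * n| ^ q) ∂P ∧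
          ∫ x, fE β h (fun p => ω p x) n (fun s => |(walk s n : ℝ) - deriv lam h * n| ^ q) ∂P ≤
            ∫ x, fE β h (fun p => ω p x) n (fun s => mxv (deriv lam h) s ^ q) ∂P ∧
          ∫ x, fE β h (fun p => ω p x) n (fun s => mxv (deriv lam h) s ^ q) ∂P ≤ (n : ℝ) ^ (2 / 3 * (q : ℝ) + ε)) ∧
        (∀ ε : ℝ, 0 < ε → ∃ r₀ : ℝ, 0 < r₀ ∧ ∀ r : ℝ, 0 < |r| → |r| ≤ r₀ →
          |r| ^ (2 + ε) ≤ lam (h + r) - lam h - r * deriv lam h ∧
          lam (h + r) - lam h - r * deriv lam h ≤ |r| ^ (2 - ε)) ∧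
        (∀ ε : ℝ, 0 < ε → ∃ u₀ : ℝ, 0 < u₀ ∧ ∀ u : ℝ, 0 < |u| → |u| ≤ u₀ →
          |u| ^ (2 + ε) ≤ J (deriv lam h + u) - J (deriv lam h) - h * u ∧
          J (deriv lam h + u) - J (deriv lam h) - h * u ≤ |u| ^ (2 - ε))) ∧
      -- a dense set of forces
      (∃ T : Set ℝ, Dense T ∧ ∀ h ∈ T, ∃ c C : ℝ, 0 < c ∧
        (∀ r : ℝ, |r| ≤ 1 → c * r ^ 2 ≤ lam (h + r) - lam h - r * deriv lam h ∧
          lam (h + r) - lam h - r * deriv lam h ≤ C * r ^ 2) ∧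
        (∀ᶠ n : ℕ in atTop,
          c * (n * σ h n) ≤
            ∫ x, fE β h (fun p => ω p x) n (fun s => |(walk s n : ℝ) - deriv lam h * n| ^ 2) ∂P ∧
          ∫ x, fE β h (fun p => ω p x) n (fun s => mxv (deriv lam h) s ^ 2) ∂P ≤ C * (n * σ h n)) ∧
        (∀ᶠ n : ℕ in atTop, ∀ R : ℝ, 1 ≤ R → 1 - ∫ x, fP β h (fun p => ω p x) n
          {s | mxv (deriv lam h) s ≤ R * Real.sqrt (n * σ h n)} ∂P ≤ C * Real.exp (-(c * R ^ c))) ∧
        (∀ ε : ℝ, 0 < ε → ∃ a : ℝ, 0 < a ∧ ∀ᶠ n : ℕ in atTop, ∫ x, fP β h (fun p => ω p x) n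
          {s | |(walk s n : ℝ) - deriv lam h * n| ≤ a * Real.sqrt (n * σ h n)} ∂P ≤ ε) ∧
        (∀ q : ℕ, ∃ a A : ℝ, 0 < a ∧ ∀ᶠ n : ℕ in atTop,
          a * Real.sqrt (n * σ h n) ^ q ≤
            ∫ x, fE β h (fun p => ω p x) n (fun s => |(walk s n : ℝ) - deriv lam h * n| ^ q) ∂P ∧
          ∫ x, fE β h (fun p => ω p x) n (fun s => mxv (deriv lam h) s ^ q) ∂P ≤ A * Real.sqrt (n * σ h n) ^ q)) ∧
      -- almost every force
      (∀ᵐ h : ℝ, ∃ C : ℝ, ∀ᶠ n : ℕ in atTop,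
          ∫ x, fE β h (fun p => ω p x) n (fun s => mxv (deriv lam h) s ^ 2) ∂P ≤ C * (n * σ h n)) ∧
      -- almost every velocity
      (∀ᵐ v : ℝ, ∀ h : ℝ, deriv lam h = v → ∃ c : ℝ, 0 < c ∧ ∀ᶠ n : ℕ in atTop, c * (n * σ h n) ≤
          ∫ x, fE β h (fun p => ω p x) n (fun s => |(walk s n : ℝ) - v * n| ^ 2) ∂P) := by
  obtain ⟨lam, J, σ, hd, hd0, hr, hlim, hJ, hσ, hA, hT, hF, hV⟩ := main_A29 hL hU P ω hmeas hindep hident hnc hexp hβ
  have hev : ∀ (h ε : ℝ), 0 < ε → ∀ᶠ n : ℕ in atTop, (n : ℝ) ^ (1 / 3 - ε) ≤ σ h n ∧ σ h n ≤ (n : ℝ) ^ (1 / 3 + ε) :=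
    fun h ε hε => by
      filter_upwards [sgm17 hE P ω hmeas hindep hident hnc hexp hβ h hε] with n h1
      rw [hσ h n]
      exact h1
  have hB : ∀ h, Bd20 (σ h) := by
    intro h
    filter_upwards [hev h (1 / 3) (by norm_num), eventually_ge_atTop 1] with n h1 h2
    have hn1 : (1 : ℝ) ≤ n := by exact_mod_cast h2
    refine ⟨le_trans ?_ h1.1, h1.2.trans ?_⟩
    · norm_num
    · calc (n : ℝ) ^ ((1 : ℝ) / 3 + 1 / 3) ≤ (n : ℝ) ^ (1 : ℝ) := Real.rpow_le_rpow_of_exponent_le hn1 (by norm_num)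
        _ = n := Real.rpow_one _
  have hli : ∀ h, 1 / 3 ≤ liminf (lg20 (σ h)) atTop := fun h => by
    refine le_of_forall_pos_le_add fun ε hε => ?_
    rw [← sub_le_iff_le_add]
    exact low20 (hB h) (c := 1) one_pos ((hev h ε hε).mono fun n h1 => by rw [one_mul]; exact h1.1)
  have hls : ∀ h, limsup (lg20 (σ h)) atTop ≤ 1 / 3 := fun h => by
    refine le_of_forall_pos_le_add fun ε hε => ?_
    exact up20 (hB h) (C := 1) one_pos ((hev h ε hε).mono fun n h1 => by rw [one_mul]; exact h1.2)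
  have hinf : ∀ h, liminf (lg20 (σ h)) atTop = 1 / 3 := fun h =>
    le_antisymm ((inf_le_sup20 (hB h)).trans (hls h)) (hli h)
  have hsup : ∀ h, limsup (lg20 (σ h)) atTop = 1 / 3 := fun h =>
    le_antisymm (hls h) ((hli h).trans (inf_le_sup20 (hB h)))
  refine ⟨lam, J, σ, hd, hd0, hr, hlim, hJ, hσ, fun h => ?_, ?_, ?_, ?_⟩
  · obtain ⟨g1, g2, g3, -, -⟩ := hA h
    obtain ⟨x1, x2, x3⟩ := exc17 hL hU hE P ω hmeas hindep hident hnc hexp hβ hlim h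
    have g2' : nuF P β h (deriv lam h) ω = 2 * limsup (lg20 (σ h)) atTop := g2
    have g3' : chiF P β h ω = liminf (lg20 (σ h)) atTop := g3
    refine ⟨by rw [g2', hsup]; norm_num, by rw [g3', hinf], lg_tendsto29 (hB h) (hli h) (hls h), hev h, ?_, x3, ?_⟩
    · -- the moments
      intro q ε hε
      have hδ : 0 < ε / (4 * (q + 1)) := by positivity
      filter_upwards [g1 q (ε / 2) (by positivity), hev h (ε / (4 * (q + 1))) hδ, eventually_ge_atTop 1,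
        hB h] with n h1 h2 h3 h4
      have hn : (0 : ℝ) < n := by exact_mod_cast h3
      have hn1 : (1 : ℝ) ≤ n := by exact_mod_cast h3
      have hs : 0 ≤ σ h n := by linarith [h4.1]
      have hq : 2 * (q : ℝ) * (ε / (4 * (q + 1))) ≤ ε / 2 := by
        have : (0 : ℝ) ≤ q := Nat.cast_nonneg q
        rw [mul_div_assoc', div_le_iff₀ (by positivity)]
        nlinarith
      refine ⟨le_trans ?_ h1.1, h1.2.1, h1.2.2.trans ?_⟩
      · have k1 : ((n : ℝ) ^ (1 / 3 - ε / (4 * (q + 1)))) ^ (2 * q) ≤ σ h n ^ (2 * q) :=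
          pow_le_pow_left₀ (Real.rpow_nonneg hn.le _) h2.1 _
        have k2 : (n : ℝ) ^ (2 / 3 * (q : ℝ) - ε) ≤ (n : ℝ) ^ (-(ε / 2)) * ((n : ℝ) ^ (1 / 3 - ε / (4 * (q + 1)))) ^ (2 * q) := by
          rw [← Real.rpow_natCast, ← Real.rpow_mul hn.le, ← Real.rpow_add hn]
          refine Real.rpow_le_rpow_of_exponent_le hn1 ?_
          push_cast
          nlinarith
        exact k2.trans (mul_le_mul_of_nonneg_left k1 (Real.rpow_nonneg hn.le _))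
      · have k1 : σ h n ^ (2 * q) ≤ ((n : ℝ) ^ (1 / 3 + ε / (4 * (q + 1)))) ^ (2 * q) :=
          pow_le_pow_left₀ hs h2.2 _
        have k2 : (n : ℝ) ^ (ε / 2) * ((n : ℝ) ^ (1 / 3 + ε / (4 * (q + 1)))) ^ (2 * q) ≤ (n : ℝ) ^ (2 / 3 * (q : ℝ) + ε) := by
          rw [← Real.rpow_natCast, ← Real.rpow_mul hn.le, ← Real.rpow_add hn]
          refine Real.rpow_le_rpow_of_exponent_le hn1 ?_
          push_cast
          nlinarith
        exact (mul_le_mul_of_nonneg_left k1 (Real.rpow_nonneg hn.le _)).trans k2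
    · -- the rate function
      intro ε hε
      obtain ⟨u₀, hu0, h1⟩ := leg17 x1 x2 x3 hε
      have hv : deriv lam h ∈ Set.Ioo (-1 : ℝ) 1 := by
        rw [← hr]
        exact ⟨h, rfl⟩
      have hv1 : |deriv lam h| < 1 := abs_lt.2 ⟨hv.1, hv.2⟩
      refine ⟨min u₀ ((1 - |deriv lam h|) / 2), lt_min hu0 (by linarith), fun u hu hu1 => ?_⟩
      have b1 : |u| ≤ u₀ := hu1.trans (min_le_left _ _)
      have b2 : |u| ≤ (1 - |deriv lam h|) / 2 := hu1.trans (min_le_right _ _)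
      have hvu : |deriv lam h + u| < 1 := by
        have := abs_add_le (deriv lam h) u
        linarith
      have hJ0 : J (deriv lam h) = h * deriv lam h - lam h := by
        refine (hJ _ hv1).unique ⟨?_, fun b hb => hb ⟨h, rfl⟩⟩
        rintro _ ⟨k, rfl⟩
        have h2 := x1 (k - h)
        rw [add_sub_cancel] at h2
        simp only
        linarith
      refine h1 u hu b1 _ ?_
      have hJu := hJ _ hvu
      constructor
      · rintro _ ⟨r, rfl⟩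
        have h2 : (h + r) * (deriv lam h + u) - lam (h + r) ≤ J (deriv lam h + u) := hJu.1 ⟨h + r, rfl⟩
        simp only
        rw [hJ0]
        linarith
      · intro b hb
        have h2 : J (deriv lam h + u) ≤ b + J (deriv lam h) + h * u := by
          refine hJu.2 ?_
          rintro _ ⟨k, rfl⟩
          have h3 : (k - h) * u - (lam (h + (k - h)) - lam h - (k - h) * deriv lam h) ≤ b := hb ⟨k - h, rfl⟩
          rw [add_sub_cancel] at h3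
          simp only
          rw [hJ0]
          linarith
        linarith
  · obtain ⟨T, hT1, hT2⟩ := hT
    exact ⟨T, hT1, fun h hh => (hT2 h hh).2.2.2⟩
  · filter_upwards [hF] with h hh
    exact hh.2.2.2
  · filter_upwards [hV] with v hv h hh
    exact (hv h hh).2.2

end Pool.Agent.W_7d29a1_C1
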