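import Pool.Agent.W_7d29a1_C1.MeetA35
import Pool.Agent.W_7d29a1_HZ.PB

/-!
[C1] MEET_d, LEAF M6 (helper35; row 683 (6) of helper48): constant level coalescence, every tilt. `CoarseP`: the statement of the coarse
sum (Coarse89). `sumI`: the sum over the sets of indices, all the constants (also for other ends). `meet_of`: free end.
-/

set_option autoImplicit false

namespace Pool.Agent.W_7d29a1_C1.Meet35

open MeasureTheory ProbabilityTheory Filter Topology Finset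
open Pool.Agent.W_7d29a1_F Pool.Agent.W_7d29a1_h4g Pool.Agent.W_7d29a1_H Pool.Agent.W_7d29a1_HS
open Pool.Agent.W_7d29a1_X (pos pth GS pth_nonneg)
open Pool.Agent.W_7d29a1_C1.Arr89 (ps NI Tup mem_Tup qT PX)
open Pool.Agent.W_7d29a1_C1.Arr35
open Pool.Agent.W_7d29a1_C1.Exit35

noncomputable section

variable {μ : Measure ℝ} {s : ℝ} [IsProbabilityMeasure μ]

/-! ### The choice of the constants -/

variable {c C : ℝ} {n₀ : ℕ}

/-- The statement of the coarse sum (Coarse89). -/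
def CoarseP (μ : Measure ℝ) (s c : ℝ) : Prop :=
  ∃ κ c5 : ℝ, 0 < κ ∧ 0 < c5 ∧ ∃ J n₁ : ℕ, ∀ r l₀ w : ℕ, n₁ ≤ r → 2 ^ J * r ≤ l₀ → 1 ≤ w → (w : ℝ) ≤ c * wd μ s r →
    ∀ (b G : ℕ) (tt : ℕ → ℕ), tt 0 = 0 → (∀ k < b, l₀ ≤ tt (k + 1) - tt k ∧ tt (k + 1) ≤ tt k + 2 * l₀ ∧ tt k ≤ tt (k + 1)) →
    ∀ x : ℕ → ℤ, Monotone x → ∀ (I : Finset ℕ) (lo hi : ℕ → ℝ) (y0 : ℕ → ℤ),
    (∀ k < b, (y0 k : ℝ) ≤ lo (tt k) ∧ hi (tt k) < y0 k + G * w) → ∀ lam : ℝ, 0 ≤ lam →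
    ∫ η, min 1 (lam * Zc μ s (tt b) (fun i : I => x i) lo hi η) ∂(law μ) ≤
      ((I.card : ℝ) + 1) ^ (G * b) * (Real.exp (-(c5 * (I.card * b))) + lam * Real.exp (-(κ * (I.card * b) * EE μ s l₀)))

omit [IsProbabilityMeasure μ] in
theorem poly_exp (K : ℕ) {e : ℝ} (he : 0 < e) (B : ℝ) : ∃ M : ℕ, 1 ≤ M ∧ B ≤ M ∧ 2 * ((M : ℝ) + 2) ^ K * Real.exp (-(M : ℝ)) ≤ e := by
  have h1 : Tendsto (fun x : ℝ => x ^ K * Real.exp (-x)) atTop (𝓝 0) := Real.tendsto_pow_mul_exp_neg_atTop_nhds_zero K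
  have h2 : Tendsto (fun x : ℝ => (x + 2) ^ K * Real.exp (-(x + 2))) atTop (𝓝 0) := h1.comp (tendsto_atTop_add_const_right _ 2 tendsto_id)
  have h3 : Tendsto (fun M : ℕ => (2 * Real.exp 2) * (((M : ℝ) + 2) ^ K * Real.exp (-((M : ℝ) + 2)))) atTop (𝓝 0) := by
    have := (h2.comp tendsto_natCast_atTop_atTop).const_mul (2 * Real.exp 2)
    rw [mul_zero] at this
    exact this
  have h4 := h3.eventually (gt_mem_nhds he)
  obtain ⟨M, hM1, hM2, hM3⟩ := (h4.and ((eventually_ge_atTop 1).and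
    (tendsto_natCast_atTop_atTop.eventually_ge_atTop B))).exists
  refine ⟨M, hM2, hM3, ?_⟩
  refine le_trans (le_of_eq ?_) hM1.le
  have e1 : Real.exp (-(M : ℝ)) = Real.exp 2 * Real.exp (-((M : ℝ) + 2)) := by
    rw [← Real.exp_add]
    congr 1
    ring
  rw [e1]
  ring

/-- The scales of a large `T`. -/
theorem scales (h : In μ s c C n₀) (b J m G : ℕ) {R : ℝ} (hb1 : 1 ≤ b) (hbm : b ≤ m) (hm : ∀ n, m ≤ n → 2 / c ≤ wd μ s n) (hR : 0 ≤ R)
    (hG : R * (b * 2 ^ (J + 4)) / c ≤ G) {T : ℕ} (hT : b * (2 ^ J * m) ≤ T) :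
    ∃ l₀ r₀ w : ℕ, m ≤ r₀ ∧ 2 ^ J * r₀ ≤ l₀ ∧ 1 ≤ w ∧ (w : ℝ) ≤ c * wd μ s r₀ ∧ R * wd μ s T ≤ G * w ∧ m ≤ l₀ ∧ l₀ ≤ T ∧ T ≤ 2 * b * l₀ ∧
      b * l₀ ≤ T ∧ T < b * (l₀ + 1) ∧ 1 ≤ l₀ := by
  have hc0 := h.c0
  obtain ⟨l₀, hl₀⟩ : ∃ l₀ : ℕ, l₀ = T / b := ⟨_, rfl⟩
  have hl1 : 2 ^ J * m ≤ l₀ := by
    rw [hl₀, Nat.le_div_iff_mul_le (by omega), mul_comm]
    exact hT
  obtain ⟨r₀, hr₀⟩ : ∃ r₀ : ℕ, r₀ = l₀ / 2 ^ J := ⟨_, rfl⟩
  have hr1 : m ≤ r₀ := by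
    rw [hr₀, Nat.le_div_iff_mul_le (by positivity), mul_comm]
    exact hl1
  have hr2 : 2 ^ J * r₀ ≤ l₀ := by
    rw [hr₀]
    exact Nat.mul_div_le _ _
  have hr3 : l₀ < 2 ^ J * (r₀ + 1) := by
    rw [hr₀]
    exact Nat.lt_mul_div_succ _ (by positivity)
  have hl2 : b * l₀ ≤ T := by
    rw [hl₀]
    exact Nat.mul_div_le _ _
  have hl3 : T < b * (l₀ + 1) := by
    rw [hl₀]
    exact Nat.lt_mul_div_succ _ (by omega)
  have hmr : m ≤ l₀ := by
    have : 1 * m ≤ 2 ^ J * m := Nat.mul_le_mul_right m Nat.one_le_two_pow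
    omega
  have hr01 : 1 ≤ r₀ := (hb1.trans hbm).trans hr1
  have hl01 : 1 ≤ l₀ := (hb1.trans hbm).trans hmr
  have hl0T : l₀ ≤ T := by
    have h3 : 1 * l₀ ≤ b * l₀ := Nat.mul_le_mul_right l₀ hb1
    omega
  have hr0T : r₀ ≤ T := by
    have h2 : 1 * r₀ ≤ 2 ^ J * r₀ := Nat.mul_le_mul_right r₀ Nat.one_le_two_pow
    omega
  have h5 : b * (l₀ + 1) ≤ b * (2 * l₀) := Nat.mul_le_mul_left b (by omega)
  have hwr0 : 2 / c ≤ wd μ s r₀ := hm r₀ hr1
  have hcw : 2 ≤ c * wd μ s r₀ := by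
    rw [div_le_iff₀ hc0] at hwr0
    linarith
  have hwT2 : wd μ s T ≤ (b * 2 ^ (J + 3)) * wd μ s r₀ := by
    have h2 := wd_lower_one h hr01 hr0T
    have h3 : (T : ℝ) ≤ (b * 2 ^ (J + 2)) * r₀ := by
      have h4 : T ≤ b * 2 ^ (J + 2) * r₀ := by
        have h6 : 2 * l₀ ≤ 2 * (2 ^ J * (2 * r₀)) := by
          have h7 : 2 ^ J * (r₀ + 1) ≤ 2 ^ J * (2 * r₀) := Nat.mul_le_mul_left _ (by omega)
          omega
        calc T ≤ b * (2 * l₀) := by omega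
          _ ≤ b * (2 * (2 ^ J * (2 * r₀))) := Nat.mul_le_mul_left b h6
          _ = b * 2 ^ (J + 2) * r₀ := by ring
      exact_mod_cast h4
    have hr0R : (0 : ℝ) < r₀ := by exact_mod_cast hr01
    have hw0 := h.wd_nonneg r₀
    have h4 : (r₀ : ℝ) * wd μ s T ≤ r₀ * ((b * 2 ^ (J + 3)) * wd μ s r₀) := by
      calc (r₀ : ℝ) * wd μ s T ≤ 2 * (T * wd μ s r₀) := h2
        _ ≤ 2 * ((b * 2 ^ (J + 2)) * r₀ * wd μ s r₀) := by
            refine mul_le_mul_of_nonneg_left ?_ zero_le_two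
            exact mul_le_mul_of_nonneg_right h3 hw0
        _ = r₀ * ((b * 2 ^ (J + 3)) * wd μ s r₀) := by
            rw [pow_succ, pow_succ, pow_succ, pow_succ, pow_succ]
            ring
    exact le_of_mul_le_mul_left h4 hr0R
  obtain ⟨w, hw⟩ : ∃ w : ℕ, w = ⌊c * wd μ s r₀⌋₊ := ⟨_, rfl⟩
  have hw1 : (w : ℝ) ≤ c * wd μ s r₀ := by
    rw [hw]
    exact Nat.floor_le (by linarith)
  have hw2 : c * wd μ s r₀ / 2 ≤ w := by
    have h2 : c * wd μ s r₀ < w + 1 := by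
      rw [hw]
      exact Nat.lt_floor_add_one _
    linarith
  have hw3 : 1 ≤ w := by
    have : (1 : ℝ) ≤ w := by linarith
    exact_mod_cast this
  have hGw : R * wd μ s T ≤ G * w := by
    have h2 : R * (b * 2 ^ (J + 4)) ≤ G * c := by
      rw [div_le_iff₀ hc0] at hG
      exact hG
    calc R * wd μ s T ≤ R * ((b * 2 ^ (J + 3)) * wd μ s r₀) := mul_le_mul_of_nonneg_left hwT2 hR
      _ = R * (b * 2 ^ (J + 4)) * (wd μ s r₀ / 2) := by
          rw [pow_succ _ (J + 3)]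
          ring
      _ ≤ G * c * (wd μ s r₀ / 2) := mul_le_mul_of_nonneg_right h2 (by linarith [h.wd_nonneg r₀])
      _ = G * (c * wd μ s r₀ / 2) := by ring
      _ ≤ G * w := mul_le_mul_of_nonneg_left hw2 (Nat.cast_nonneg G)
  have hT2 : T ≤ 2 * b * l₀ := by
    calc T ≤ b * (2 * l₀) := by omega
      _ = 2 * b * l₀ := by ring
  exact ⟨l₀, r₀, w, hr1, hr2, hw3, hw1, hGw, hmr, hl0T, hT2, hl2, hl3, hl01⟩

/-- The block rows. -/
theorem rows_tt {b l₀ T : ℕ} (hb1 : 1 ≤ b) (hbl : b ≤ l₀) (hl2 : b * l₀ ≤ T) (hl3 : T < b * (l₀ + 1)) :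
    ∃ tt : ℕ → ℕ, tt 0 = 0 ∧ tt b = T ∧
      ∀ k < b, l₀ ≤ tt (k + 1) - tt k ∧ tt (k + 1) ≤ tt k + 2 * l₀ ∧ tt k ≤ tt (k + 1) := by
  obtain ⟨tt, htt⟩ : ∃ tt : ℕ → ℕ, ∀ k, tt k = if k < b then k * l₀ else T := ⟨fun k => if k < b then k * l₀ else T, fun _ => rfl⟩
  refine ⟨tt, by rw [htt, if_pos (by omega), zero_mul], by rw [htt, if_neg (lt_irrefl b)], ?_⟩
  intro k hk
  rw [htt k, if_pos hk, htt (k + 1)]
  by_cases hk1 : k + 1 < b
  · rw [if_pos hk1, add_mul, one_mul]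
    omega
  · rw [if_neg hk1]
    have hkb : b = k + 1 := by omega
    rw [hkb] at hl2 hl3 hbl
    have e1 : (k + 1) * l₀ = k * l₀ + l₀ := by ring
    have e2 : (k + 1) * (l₀ + 1) = k * l₀ + l₀ + (k + 1) := by ring
    rw [e1] at hl2
    rw [e2] at hl3
    omega

/-- **The sum over the sets of indices**: all the constants. -/
theorem sumI (h : In μ s c C n₀) (hco : CoarseP μ s c) {θ R A e : ℝ} (hθ0 : 0 < θ) (hθ1 : θ ≤ 1) (hR : 0 ≤ R) (hA : 2 ≤ A) (he : 0 < e)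
    (B : ℝ) : ∃ M : ℕ, 1 ≤ M ∧ B ≤ M ∧ ∃ n₁ : ℕ, ∀ T : ℕ, n₁ ≤ T → ∀ N : ℕ, θ * M ≤ N → (N : ℝ) ≤ θ * M + 1 →
    ∀ x : ℕ → ℤ, Monotone x → ∀ lo hi : ℕ → ℝ, (∀ k, hi k ≤ lo k + R * wd μ s T) →
    ∑ I ∈ powersetCard N (range M), ∫ η, min 1 (Real.exp (A * M * EE μ s T) * Zc μ s T (fun i : I => x i) lo hi η) ∂(law μ) ≤ e := by
  have hc0 := h.c0
  have hA0 : 0 < A := by linarith
  obtain ⟨κ, c5, hκ, hc5, J, n2, hcoarse⟩ := hco
  obtain ⟨a₀, K, -, -, hK1, hE⟩ := Pool.Agent.W_7d29a1_HZ.EE'_pow h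
  obtain ⟨n3, hwd⟩ := Pool.Agent.W_7d29a1_HZ.wd'_eq h
  have hK0 : 0 < K := lt_of_lt_of_le one_pos hK1
  -- the number of blocks
  obtain ⟨Q, hQ⟩ : ∃ Q : ℝ, Q = 2 * A * K / (κ * θ) := ⟨_, rfl⟩
  have hQ0 : 0 < Q := by rw [hQ]; positivity
  obtain ⟨b, hb⟩ := exists_nat_ge (max (2 / (c5 * θ)) (2 * Q ^ 2))
  have hb1' : 2 / (c5 * θ) ≤ b := (le_max_left _ _).trans hb
  have hb2' : 2 * Q ^ 2 ≤ b := (le_max_right _ _).trans hb
  have hbR : (0 : ℝ) < b := lt_of_lt_of_le (by positivity) hb1'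
  have hb1 : 1 ≤ b := by
    have : (0 : ℝ) < b := hbR
    exact_mod_cast this
  have hbc5 : 2 ≤ c5 * θ * b := by
    rw [div_le_iff₀ (by positivity)] at hb1'
    linarith
  have hbκ : 2 * A * K * Real.sqrt (2 * b) ≤ κ * θ * b := by
    have h2 : Q * Real.sqrt (2 * b) ≤ b := by
      have h3 : (Q * Real.sqrt (2 * b)) ^ 2 ≤ (b : ℝ) ^ 2 := by
        rw [mul_pow, Real.sq_sqrt (by positivity)]
        nlinarith
      exact (pow_le_pow_iff_left₀ (by positivity) hbR.le two_ne_zero).1 h3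
    have h3 : 2 * A * K = Q * (κ * θ) := by
      rw [hQ]
      field_simp
    rw [h3]
    have h4 := mul_le_mul_of_nonneg_left h2 (show 0 ≤ κ * θ by positivity)
    linarith
  -- the number of cells and of starts
  obtain ⟨G, hG⟩ := exists_nat_ge ((R + 1) * (b * 2 ^ (J + 4)) / c)
  obtain ⟨M, hM1, hM2, hM3⟩ := poly_exp (G * b) he B
  have hMR : (1 : ℝ) ≤ M := by exact_mod_cast hM1
  have hM0 : (0 : ℝ) < M := by linarith
  -- the large scales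
  obtain ⟨n4, hn4⟩ := eventually_atTop.1 ((wd_tendsto h).eventually_ge_atTop (2 / c))
  obtain ⟨m, hm⟩ : ∃ m : ℕ, m = max (max n2 n3) (max n4 b) := ⟨_, rfl⟩
  have hmn2 : n2 ≤ m := by rw [hm]; exact (le_max_left _ _).trans (le_max_left _ _)
  have hmn3 : n3 ≤ m := by rw [hm]; exact (le_max_right _ _).trans (le_max_left _ _)
  have hmn4 : n4 ≤ m := by rw [hm]; exact (le_max_left _ _).trans (le_max_right _ _)
  have hmb : b ≤ m := by rw [hm]; exact (le_max_right _ _).trans (le_max_right _ _)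
  refine ⟨M, hM1, hM2, b * (2 ^ J * m), fun T hT N hN1 hN2 x hx lo hi hlh => ?_⟩
  obtain ⟨l₀, r₀, w, hr1, hr2, hw3, hw1, hGw, hmr, hl0T, hT2, hl2, hl3, hl01⟩ :=
    scales h b J m G hb1 hmb (fun n hn => hn4 n (hmn4.trans hn)) (show 0 ≤ R + 1 by linarith) hG hT
  obtain ⟨tt, htt0, httb, httk⟩ := rows_tt hb1 (hmb.trans hmr) hl2 hl3
  have hN3 : (N : ℝ) + 1 ≤ M + 2 := by
    have : θ * M ≤ 1 * M := mul_le_mul_of_nonneg_right hθ1 hM0.le
    linarith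
  have hwT1 : 1 ≤ wd μ s T := by
    have h2 := wd_ge_one h (hl01.trans hl0T)
    have h3 := one_le_EE (μ := μ) (s := s) T
    linarith
  -- the units
  have hEE : A * EE μ s T * 2 ≤ κ * θ * b * EE μ s l₀ := by
    have h2 := (hE l₀ T hl01 hl0T).2.2
    rw [(hwd l₀ (hmn3.trans hmr)).2.1, (hwd T ((hmn3.trans hmr).trans hl0T)).2.1] at h2
    have hE0 := EE_pos (μ := μ) (s := s) l₀
    have hl0R : (0 : ℝ) < l₀ := by exact_mod_cast hl01
    have h3 : (T : ℝ) / l₀ ≤ 2 * b := by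
      rw [div_le_iff₀ hl0R]
      exact_mod_cast hT2
    have h4 := Real.sqrt_le_sqrt h3
    have h5 : EE μ s T ≤ K * Real.sqrt (2 * b) * EE μ s l₀ :=
      h2.trans (mul_le_mul_of_nonneg_right (mul_le_mul_of_nonneg_left h4 hK0.le) hE0.le)
    calc A * EE μ s T * 2 ≤ A * (K * Real.sqrt (2 * b) * EE μ s l₀) * 2 := by
          have := mul_le_mul_of_nonneg_left h5 hA0.le
          linarith
      _ = 2 * A * K * Real.sqrt (2 * b) * EE μ s l₀ := by ring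
      _ ≤ κ * θ * b * EE μ s l₀ := mul_le_mul_of_nonneg_right hbκ hE0.le
  have hEET := one_le_EE (μ := μ) (s := s) T
  have hE0 := EE_pos (μ := μ) (s := s) l₀
  have h3 : Real.exp (-(c5 * (N * b))) ≤ Real.exp (-(2 * (M : ℝ))) := by
    refine Real.exp_le_exp.2 (neg_le_neg ?_)
    calc 2 * (M : ℝ) ≤ c5 * θ * b * M := mul_le_mul_of_nonneg_right hbc5 hM0.le
      _ = c5 * (θ * M * b) := by ring
      _ ≤ c5 * (N * b) := mul_le_mul_of_nonneg_left (mul_le_mul_of_nonneg_right hN1 hbR.le) hc5.le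
  have h4 : Real.exp (A * M * EE μ s T) * Real.exp (-(κ * (N * b) * EE μ s l₀)) ≤ Real.exp (-(2 * (M : ℝ))) := by
    rw [← Real.exp_add]
    refine Real.exp_le_exp.2 ?_
    have h5 : M * (A * EE μ s T * 2) ≤ κ * (N * b) * EE μ s l₀ := by
      calc M * (A * EE μ s T * 2) ≤ M * (κ * θ * b * EE μ s l₀) := mul_le_mul_of_nonneg_left hEE hM0.le
        _ = κ * (θ * M * b) * EE μ s l₀ := by ring
        _ ≤ κ * (N * b) * EE μ s l₀ := mul_le_mul_of_nonneg_right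
            (mul_le_mul_of_nonneg_left (mul_le_mul_of_nonneg_right hN1 hbR.le) hκ.le) hE0.le
    have h6 : 2 * (M : ℝ) ≤ A * M * EE μ s T := by
      have h7 : 2 * (M : ℝ) ≤ A * M := mul_le_mul_of_nonneg_right hA hM0.le
      have h8 : A * M * 1 ≤ A * M * EE μ s T := mul_le_mul_of_nonneg_left hEET (by positivity)
      linarith
    linarith
  have h5 : ((N : ℝ) + 1) ^ (G * b) ≤ ((M : ℝ) + 2) ^ (G * b) := pow_le_pow_left₀ (by positivity) hN3 _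
  have hI : ∀ I ∈ powersetCard N (range M), ∫ η, min 1 (Real.exp (A * M * EE μ s T) *
      Zc μ s T (fun i : I => x i) lo hi η) ∂(law μ) ≤ ((M : ℝ) + 2) ^ (G * b) * (2 * Real.exp (-(2 * (M : ℝ)))) := by
    intro I hI
    have hIc := (mem_powersetCard.1 hI).2
    have h2 := hcoarse r₀ l₀ w (hmn2.trans hr1) hr2 hw3 hw1 b G tt htt0 httk x hx I lo hi
      (fun k => ⌊lo (tt k)⌋) (fun k hk => ⟨Int.floor_le _, ?_⟩) (Real.exp (A * M * EE μ s T)) (Real.exp_pos _).le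
    · rw [httb, hIc] at h2
      exact h2.trans (mul_le_mul h5 (by linarith) (by positivity) (by positivity))
    · have h7 := Int.lt_floor_add_one (lo (tt k))
      have h8 := hlh (tt k)
      have h9 : (R + 1) * wd μ s T = R * wd μ s T + wd μ s T := by ring
      linarith
  refine (sum_le_sum hI).trans ?_
  rw [sum_const, card_powersetCard, card_range, nsmul_eq_mul]
  have h2 : ((M.choose N : ℕ) : ℝ) ≤ Real.exp M := by
    have h3 : ((M.choose N : ℕ) : ℝ) ≤ ((2 ^ M : ℕ) : ℝ) := Nat.cast_le.2 (Nat.choose_le_two_pow M N)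
    have h4 : ((2 ^ M : ℕ) : ℝ) ≤ Real.exp M := by
      have h5 : (2 : ℝ) ≤ Real.exp 1 := by
        have := Real.add_one_le_exp (1 : ℝ)
        linarith
      have h6 := pow_le_pow_left₀ zero_le_two h5 M
      rw [← Real.exp_nat_mul, mul_one] at h6
      push_cast
      exact h6
    exact h3.trans h4
  calc ((M.choose N : ℕ) : ℝ) * (((M : ℝ) + 2) ^ (G * b) * (2 * Real.exp (-(2 * (M : ℝ)))))
      ≤ Real.exp M * (((M : ℝ) + 2) ^ (G * b) * (2 * Real.exp (-(2 * (M : ℝ))))) :=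
        mul_le_mul_of_nonneg_right h2 (by positivity)
    _ = 2 * ((M : ℝ) + 2) ^ (G * b) * Real.exp (-(M : ℝ)) := by
        have e1 : Real.exp (-(M : ℝ)) = Real.exp M * Real.exp (-(2 * (M : ℝ))) := by
          rw [← Real.exp_add]
          congr 1
          ring
        rw [e1]
        ring
    _ ≤ e := hM3

/-- **MEET_d, free end** (from the coarse sum). -/
theorem meet_of (h : In μ s c C n₀) (hco : CoarseP μ s c) : ∀ eta : ℝ, 0 < eta → ∃ d : ℝ, 0 < d ∧ ∃ n₁ : ℕ, ∀ T : ℕ, n₁ ≤ T →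
    ∀ r : ℕ, (r : ℝ) ≤ d * wd μ s T → ∫ η, PD μ s η T 0 r ∂(law μ) ≤ eta := by
  intro eta heta
  -- large `eta`
  rcases lt_or_ge 1 eta with heta1 | heta1
  · refine ⟨1, one_pos, 0, fun T _ r _ => ?_⟩
    have h1 := integral_mono (μ := law μ) (f := fun η => PD μ s η T 0 r) (g := fun _ => (1 : ℝ))
      (int_01 (measurable_PD T 0 r) (fun η => PD_nonneg η T 0 r) (fun η => PD_le_one η T 0 r)) (integrable_const (1 : ℝ))
      (fun η => PD_le_one η T 0 r)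
    rw [integral_const, probReal_univ, one_smul] at h1
    linarith
  obtain ⟨R, hR1, n1, hex⟩ := exit35 h (eta / 8) (by positivity)
  obtain ⟨A, hA⟩ : ∃ A : ℝ, A = 16 / eta := ⟨_, rfl⟩
  have hA0 : 0 < A := by rw [hA]; positivity
  have hA16 : 16 ≤ A := by
    rw [hA, le_div_iff₀ heta]
    linarith
  obtain ⟨M, hM1, hM2, n2, hsum⟩ := sumI h hco (θ := eta / 8) (R := 2 * R + 1) (A := A) (e := eta / 16) (by positivity) (by linarith)
    (by linarith) (by linarith) (by positivity) (2 / eta)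
  have hMR : (1 : ℝ) ≤ M := by exact_mod_cast hM1
  have hM0 : (0 : ℝ) < M := by linarith
  refine ⟨1 / M, by positivity, max n1 n2, fun T hT r hr => ?_⟩
  have hTn1 : n1 ≤ T := (le_max_left _ _).trans hT
  have hTn2 : n2 ≤ T := (le_max_right _ _).trans hT
  have hN1 : eta / 8 * M ≤ (⌈eta / 8 * M⌉₊ : ℕ) := Nat.le_ceil _
  have hN2 : ((⌈eta / 8 * M⌉₊ : ℕ) : ℝ) ≤ eta / 8 * M + 1 := (Nat.ceil_lt_add_one (by positivity)).le
  have hMr : (M : ℝ) * r ≤ wd μ s T := by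
    rw [one_div_mul_eq_div, le_div_iff₀ hM0] at hr
    linarith
  have hx : Monotone fun j : ℕ => (j : ℤ) * (r : ℤ) := fun i j hij =>
    mul_le_mul_of_nonneg_right (by exact_mod_cast hij) (Int.natCast_nonneg r)
  have hsI := hsum T hTn2 _ hN1 hN2 (fun j : ℕ => (j : ℤ) * (r : ℤ)) hx (fun k => sl μ s * k - R * wd μ s T)
    (fun k => M * ((r : ℤ) : ℝ) + sl μ s * k + R * wd μ s T) (fun k => by
      rw [Int.cast_natCast]
      linarith)
  -- the negative parts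
  have hneg : (law μ).real (Neg μ s T M (fun j => (j : ℤ) * (r : ℤ)) (A * M * EE μ s T)) ≤ eta / 16 := by
    have h2 := neg35 (μ := μ) (s := s) h.em T (range M) (fun j : ℕ => ((0, (j : ℤ) * (r : ℤ)) : Pt)) (u := A * M) (by positivity)
    refine h2.trans (le_of_eq ?_)
    rw [card_range, hA]
    field_simp
  -- the end
  have h2 := int_det (μ := μ) (s := s) T ⌈eta / 8 * M⌉₊ M (r : ℤ) (Int.natCast_nonneg r)
    (mul_nonneg (by linarith) (h.wd_nonneg T)) (A * M * EE μ s T) (lo := fun k => sl μ s * k - R * wd μ s T)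
    (hi := fun k => M * ((r : ℤ) : ℝ) + sl μ s * k + R * wd μ s T) (fun _ => rfl) (fun _ => rfl)
  have h3 := hex R le_rfl T hTn1
  have h4 : M * ∫ η, PD μ s η T 0 r ∂(law μ) ≤ (eta / 8 * M + 1) + M * (2 * (eta / 8) + (eta / 16 + eta / 16)) := by
    refine h2.trans (add_le_add hN2 (mul_le_mul_of_nonneg_left (add_le_add ?_ (add_le_add hneg hsI)) hM0.le))
    linarith
  have h5 : 1 ≤ M * (eta / 2) := by
    rw [div_le_iff₀ heta] at hM2
    linarith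
  have h6 : (eta / 8 * M + 1) + M * (2 * (eta / 8) + (eta / 16 + eta / 16)) ≤ M * eta := by
    linarith
  exact le_of_mul_le_mul_left (h4.trans h6) hM0

end

end Pool.Agent.W_7d29a1_C1.Meet35
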