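import Pool.Agent.W_7d29a1_C1.Arr35

/-!
[C1] MEET_d, LEAF M6, first part (helper35; row 683 of helper48).
`PD μ s η T x x'`: quenched probability that two independent polymers of length `T` from `(0, x)` and `(0, x')` have no common site in
the rows `0, ..., T`. `Zc`: the sum over the tuples without a common site in a tube. `det`, `int_det`: inequality (6) of row 683, in one
environment and in the mean.
-/

set_option autoImplicit false

namespace Pool.Agent.W_7d29a1_C1.Meet35

open MeasureTheory ProbabilityTheory Filter Topology Finset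
open Pool.Agent.W_7d29a1_F Pool.Agent.W_7d29a1_h4g Pool.Agent.W_7d29a1_H Pool.Agent.W_7d29a1_HS
open Pool.Agent.W_7d29a1_X (pos pth GS pth_nonneg)
open Pool.Agent.W_7d29a1_C1.Arr89 (ps NI Tup mem_Tup qT PX)
open Pool.Agent.W_7d29a1_C1.Arr35
open Pool.Agent.W_7d29a1_C1.Exit35

noncomputable section

variable {μ : Measure ℝ} {s : ℝ}

/-! ### Definitions -/

/-- The quenched probability that two independent polymers from `(0, x)` and `(0, x')` have no common site in the rows `0, ..., T`. -/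
def PD (μ : Measure ℝ) (s : ℝ) (η : Env) (T : ℕ) (x x' : ℤ) : ℝ :=
  ∑ p ∈ ((range T).powerset ×ˢ (range T).powerset).filter fun p => NI T x x' p.1 p.2,
    GS μ s (sh (0, x) η) T p.1 * GS μ s (sh (0, x') η) T p.2

theorem qT_two (η : Env) (T : ℕ) (x x' : ℤ) {z : Fin 2 → ℤ} (h0 : z 0 = x) (h1 : z 1 = x') :
    qT (pq μ s η T) T z = PD μ s η T x x' := by
  unfold qT PD
  refine sum_nbij' (fun S => (S 0, S 1)) (fun p => ![p.1, p.2]) ?_ ?_ ?_ ?_ ?_
  · intro S hS
    obtain ⟨h2, h3⟩ := mem_Tup.1 hS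
    refine mem_filter.2 ⟨mem_product.2 ⟨mem_powerset.2 (h2 0), mem_powerset.2 (h2 1)⟩, ?_⟩
    have h4 := h3 0 1 (by decide)
    rw [h0, h1] at h4
    exact h4
  · intro p hp
    obtain ⟨h2, h3⟩ := mem_filter.1 hp
    obtain ⟨h4, h5⟩ := mem_product.1 h2
    refine mem_Tup.2 ⟨fun i => ?_, fun i j hij => ?_⟩
    · fin_cases i
      · exact mem_powerset.1 h4
      · exact mem_powerset.1 h5
    · fin_cases i <;> fin_cases j
      · exact absurd rfl hij
      · show NI T (z 0) (z 1) p.1 p.2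
        rw [h0, h1]
        exact h3
      · show NI T (z 1) (z 0) p.2 p.1
        rw [h0, h1]
        exact h3.symm
      · exact absurd rfl hij
  · intro S _
    funext i
    fin_cases i <;> rfl
  · intro p _
    rfl
  · intro S hS
    obtain ⟨h2, -⟩ := mem_Tup.1 hS
    rw [Fin.prod_univ_two, PX_GS η (z 0) T (h2 0), PX_GS η (z 1) T (h2 1), h0, h1]

theorem GS_nonneg35 (η : Env) (T : ℕ) (S : Finset ℕ) : 0 ≤ GS μ s η T S := by
  unfold GS
  exact div_nonneg (pth_nonneg _ _ _) (Real.exp_pos _).le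

theorem PD_nonneg (η : Env) (T : ℕ) (x x' : ℤ) : 0 ≤ PD μ s η T x x' :=
  sum_nonneg fun _ _ => mul_nonneg (GS_nonneg35 _ _ _) (GS_nonneg35 _ _ _)

theorem PD_le_one (η : Env) (T : ℕ) (x x' : ℤ) : PD μ s η T x x' ≤ 1 := by
  unfold PD
  refine (sum_le_sum_of_subset_of_nonneg (filter_subset _ _) fun p _ _ =>
    mul_nonneg (GS_nonneg35 _ _ _) (GS_nonneg35 _ _ _)).trans ?_
  rw [sum_product]
  simp only
  rw [← sum_mul_sum, Pool.Agent.W_7d29a1_X.GS_sum, Pool.Agent.W_7d29a1_X.GS_sum, one_mul]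

theorem measurable_GS35 (T : ℕ) (S : Finset ℕ) : Measurable fun η : Env => GS μ s η T S := by
  unfold GS
  exact (measurable_pth35 T S).div (Real.measurable_exp.comp (measurable_V 0 T))

theorem measurable_shx (x : ℤ) : Measurable fun η : Env => sh (0, x) η :=
  measurable_pi_lambda _ fun p => measurable_pi_apply _

theorem measurable_PD (T : ℕ) (x x' : ℤ) : Measurable fun η : Env => PD μ s η T x x' := by
  unfold PD
  refine Finset.measurable_sum _ fun p _ => ?_
  exact ((measurable_GS35 T p.1).comp (measurable_shx x)).mul ((measurable_GS35 T p.2).comp (measurable_shx x'))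

/-- Translation. -/
theorem PD_sh (η : Env) (T : ℕ) (x x' y : ℤ) : PD μ s (sh (0, y) η) T x x' = PD μ s η T (x + y) (x' + y) := by
  unfold PD
  have h1 : ∀ z : ℤ, sh (0, z) (sh (0, y) η) = sh (0, z + y) η := by
    intro z
    funext p
    show η (p + (0, z) + (0, y)) = η (p + (0, z + y))
    congr 1
    refine Prod.ext ?_ ?_
    · show p.1 + 0 + 0 = p.1 + 0
      ring
    · show p.2 + z + y = p.2 + (z + y)
      ring
  rw [h1, h1]
  refine sum_congr ?_ fun _ _ => rfl
  refine filter_congr fun p _ => ?_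
  unfold NI
  refine forall₂_congr fun k _ => not_congr ?_
  constructor <;> intro h2 <;> linarith

theorem PD_self (η : Env) (T : ℕ) (x : ℤ) : PD μ s η T x x = 0 := by
  unfold PD
  rw [filter_false_of_mem, sum_empty]
  intro p _ h
  have := h 0 (Nat.zero_le T)
  rw [Arr89.ps_zero, Arr89.ps_zero] at this
  exact this rfl

variable [IsProbabilityMeasure μ]

theorem int_PD (T : ℕ) (x x' : ℤ) : ∫ η, PD μ s η T x x' ∂(law μ) = ∫ η, PD μ s η T 0 (x' - x) ∂(law μ) := by
  have h2 := Pool.Agent.W_7d29a1_f21.mp_integral (mp_sh (μ := μ) (0, x))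
    (F := fun η : Env => PD μ s η T 0 (x' - x)) (measurable_PD T 0 (x' - x)).aestronglyMeasurable
  rw [← h2]
  refine integral_congr_ae (Filter.Eventually.of_forall fun η => ?_)
  show PD μ s η T x x' = PD μ s (sh (0, x) η) T 0 (x' - x)
  rw [PD_sh, zero_add, sub_add_cancel]

/-! ### The exit of one path -/

/-- The quenched probability that the polymer from `(0, x)` leaves the strip of half width `ρ`. -/
def ex (μ : Measure ℝ) (s ρ : ℝ) (η : Env) (T : ℕ) (x : ℤ) : ℝ :=
  1 - cf μ s ρ (sh (0, x) η) 0 T / Real.exp (V μ s (sh (0, x) η) 0 T)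

omit [IsProbabilityMeasure μ] in
theorem ex_nonneg (ρ : ℝ) (η : Env) (T : ℕ) (x : ℤ) : 0 ≤ ex μ s ρ η T x := by
  unfold ex
  rw [sub_nonneg, div_le_one (Real.exp_pos _)]
  exact cf_le35 _ _ _

omit [IsProbabilityMeasure μ] in
theorem ex_le_one (ρ : ℝ) (η : Env) (T : ℕ) (x : ℤ) : ex μ s ρ η T x ≤ 1 := by
  unfold ex
  have h1 : 0 ≤ cf μ s ρ (sh (0, x) η) 0 T / Real.exp (V μ s (sh (0, x) η) 0 T) :=
    div_nonneg (cf_nonneg35 _ _ _) (Real.exp_pos _).le
  linarith

omit [IsProbabilityMeasure μ] in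
theorem measurable_ex (ρ : ℝ) (T : ℕ) (x : ℤ) : Measurable fun η : Env => ex μ s ρ η T x := by
  unfold ex
  refine measurable_const.sub (Measurable.div ?_ ?_)
  · exact (measurable_cf35 ρ T).comp (measurable_shx x)
  · exact Real.measurable_exp.comp ((measurable_V 0 T).comp (measurable_shx x))

theorem int_ex (ρ : ℝ) (T : ℕ) (x : ℤ) : ∫ η, ex μ s ρ η T x ∂(law μ) =
    ∫ η, (1 - cf μ s ρ η 0 T / Real.exp (V μ s η 0 T)) ∂(law μ) := by
  have hm : Measurable fun η : Env => 1 - cf μ s ρ η 0 T / Real.exp (V μ s η 0 T) :=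
    measurable_const.sub ((measurable_cf35 ρ T).div (Real.measurable_exp.comp (measurable_V 0 T)))
  exact Pool.Agent.W_7d29a1_f21.mp_integral (mp_sh (μ := μ) (0, x))
    (F := fun η : Env => 1 - cf μ s ρ η 0 T / Real.exp (V μ s η 0 T)) hm.aestronglyMeasurable

omit [IsProbabilityMeasure μ] in
/-- The exit of the arrow path is at most the exit from the strip. -/
theorem pQ_le_ex {ρ : ℝ} (hρ : 0 ≤ ρ) (η : Env) (T : ℕ) (x : ℤ) {Q : Finset ℕ → Prop}
    (hQ : ∀ S, Q S → ∃ k ≤ T, ρ < |((pos S k : ℤ) : ℝ) - sl μ s * k|) :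
    pQ (pq μ s η T) T x Q ≤ ex μ s ρ η T x := by
  classical
  unfold ex
  rw [← exit_path]
  unfold pQ
  rw [sum_filter]
  refine sum_le_sum fun S hS => ?_
  have hS' := mem_powerset.1 hS
  by_cases h1 : Q S
  · obtain ⟨k, hk, h2⟩ := hQ S h1
    have h3 : ¬ Stay (St μ s ρ 0) T S := by
      intro h4
      rcases k with _ | k
      · rw [Pool.Agent.W_7d29a1_X.pos_zero] at h2
        simp at h2
        linarith
      · have h5 := h4 k (by omega)
        have h6 : |(((pos S (k + 1)) - 0 : ℤ) : ℝ) - sl μ s * (((k : ℤ) + 1 - 0 : ℤ) : ℝ)| ≤ ρ := h5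
        rw [sub_zero, sub_zero] at h6
        push_cast at h6 h2
        linarith
    rw [if_pos h1, if_pos h3, PX_GS η x T hS']
  · rw [if_neg h1]
    split_ifs
    · exact le_rfl
    · exact GS_nonneg35 _ _ _

/-! ### The inequality in one environment -/

section zc

variable {κ : Type*} [Fintype κ] [DecidableEq κ]

open Classical in
/-- The confined sum over the tuples without a common site. -/
def Zc (μ : Measure ℝ) (s : ℝ) (T : ℕ) (x : κ → ℤ) (lo hi : ℕ → ℝ) (η : Env) : ℝ :=
  ∑ S ∈ (Tup T x).filter (fun S => ∀ i, Tube lo hi T (x i) (S i)), ∏ i, pth μ s (sh (0, x i) η) T (S i)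

omit [IsProbabilityMeasure μ] in
theorem qQ_Zc (η : Env) (T : ℕ) (x : κ → ℤ) (lo hi : ℕ → ℝ) :
    qQ (pq μ s η T) T x (fun S => ∀ i, Tube lo hi T (x i) (S i)) =
      Zc μ s T x lo hi η * Real.exp (-∑ i, V μ s η (0, x i) T) := by
  classical
  unfold qQ Zc
  rw [sum_mul]
  refine sum_congr (by ext S; simp only [mem_filter]) fun S hS => ?_
  obtain ⟨h1, -⟩ := mem_Tup.1 (mem_filter.1 hS).1
  rw [← sum_neg_distrib, Real.exp_sum, ← prod_mul_distrib]
  refine prod_congr rfl fun i _ => ?_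
  rw [PX_GS η (x i) T (h1 i)]
  unfold GS
  rw [V_sh, zero_add, Real.exp_neg, div_eq_mul_inv]

omit [IsProbabilityMeasure μ] in
theorem Zc_nonneg (T : ℕ) (x : κ → ℤ) (lo hi : ℕ → ℝ) (η : Env) : 0 ≤ Zc μ s T x lo hi η :=
  sum_nonneg fun _ _ => prod_nonneg fun _ _ => pth_nonneg _ _ _

omit [IsProbabilityMeasure μ] in
theorem measurable_Zc (T : ℕ) (x : κ → ℤ) (lo hi : ℕ → ℝ) : Measurable fun η : Env => Zc μ s T x lo hi η := by
  unfold Zc
  refine Finset.measurable_sum _ fun S _ => Finset.measurable_prod _ fun i _ => ?_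
  exact (measurable_pth35 T (S i)).comp (measurable_shx (x i))

end zc

/-- The event of large negative parts. -/
def Neg (μ : Measure ℝ) (s : ℝ) (T M : ℕ) (x : ℕ → ℤ) (u : ℝ) : Set Env :=
  {η | u ≤ ∑ i ∈ range M, max (-V μ s η (0, x i) T) 0}

omit [IsProbabilityMeasure μ] in
theorem measurableSet_Neg (T M : ℕ) (x : ℕ → ℤ) (u : ℝ) : MeasurableSet (Neg μ s T M x u) := by
  unfold Neg
  refine measurableSet_le measurable_const (Finset.measurable_sum _ fun i _ => ?_)
  exact (measurable_V (0, x i) T).neg.max measurable_const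

omit [IsProbabilityMeasure μ] in
/-- **The inequality in one environment.** -/
theorem det (η : Env) {x : ℕ → ℤ} (hx : Monotone x) (T N M : ℕ) {ρ : ℝ} (hρ : 0 ≤ ρ) (u : ℝ) {lo hi : ℕ → ℝ}
    (hlo : ∀ k : ℕ, lo k = x 0 + sl μ s * k - ρ) (hhi : ∀ k : ℕ, hi k = x M + sl μ s * k + ρ) :
    ∑ j ∈ range M, PD μ s η T (x j) (x (j + 1)) ≤
      N + M * ((ex μ s ρ η T (x 0) + ex μ s ρ η T (x M)) + ((Neg μ s T M x u).indicator (fun _ => (1 : ℝ)) η +
        ∑ I ∈ powersetCard N (range M), min 1 (Real.exp u * Zc μ s T (fun i : I => x i) lo hi η))) := by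
  classical
  have hM0 : (0 : ℝ) ≤ M := Nat.cast_nonneg M
  have h1 := arr_conf (π := pq μ s η T) (fun k y => pq_nonneg η T k y) (fun k y => pq_le_one η T k y) T N M hx lo hi
  have e1 : ∑ j ∈ range M, qT (pq μ s η T) T (fun i : Fin 2 => x (j + i)) = ∑ j ∈ range M, PD μ s η T (x j) (x (j + 1)) :=
    sum_congr rfl fun j _ => qT_two η T _ _ rfl rfl
  rw [e1] at h1
  refine h1.trans (add_le_add le_rfl (mul_le_mul_of_nonneg_left (add_le_add (add_le_add ?_ ?_) ?_) hM0))
  · refine pQ_le_ex hρ η T (x 0) ?_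
    rintro S ⟨k, hk, h2⟩
    refine ⟨k, hk, ?_⟩
    rw [hlo] at h2
    push_cast at h2
    have h3 : ((pos S k : ℤ) : ℝ) = ((ps S k : ℤ) : ℝ) := rfl
    rw [h3]
    refine lt_of_lt_of_le ?_ (neg_le_abs _)
    linarith
  · refine pQ_le_ex hρ η T (x M) ?_
    rintro S ⟨k, hk, h2⟩
    refine ⟨k, hk, ?_⟩
    rw [hhi] at h2
    push_cast at h2
    have h3 : ((pos S k : ℤ) : ℝ) = ((ps S k : ℤ) : ℝ) := rfl
    rw [h3]
    refine lt_of_lt_of_le ?_ (le_abs_self _)
    linarith
  · by_cases hN : η ∈ Neg μ s T M x u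
    · rw [Set.indicator_of_mem hN]
      refine (min_le_left _ _).trans ?_
      have h2 : 0 ≤ ∑ I ∈ powersetCard N (range M), min 1 (Real.exp u * Zc μ s T (fun i : I => x i) lo hi η) :=
        sum_nonneg fun I _ => le_min zero_le_one (mul_nonneg (Real.exp_pos _).le (Zc_nonneg _ _ _ _ _))
      linarith
    · rw [Set.indicator_of_notMem hN, zero_add]
      have h2 : ∑ i ∈ range M, max (-V μ s η (0, x i) T) 0 < u := not_le.1 hN
      have h3 : ∀ I ∈ powersetCard N (range M), qQ (pq μ s η T) T (fun i : I => x i)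
          (fun S => ∀ i : I, Tube lo hi T (x i) (S i)) ≤ Real.exp u * Zc μ s T (fun i : I => x i) lo hi η := by
        intro I hI
        have hIM := (mem_powersetCard.1 hI).1
        rw [qQ_Zc, mul_comm]
        refine mul_le_mul_of_nonneg_right (Real.exp_le_exp.2 ?_) (Zc_nonneg _ _ _ _ _)
        have h4 : -∑ i : I, V μ s η (0, x i) T ≤ ∑ i ∈ range M, max (-V μ s η (0, x i) T) 0 := by
          rw [← sum_neg_distrib, Finset.sum_coe_sort I fun i : ℕ => -V μ s η (0, x i) T]
          exact (sum_le_sum fun i _ => le_max_left _ _).trans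
            (sum_le_sum_of_subset_of_nonneg hIM fun i _ _ => le_max_right _ _)
        linarith
      -- the minimum of a sum
      have h5 : ∀ (F : Finset (Finset ℕ)) (a : Finset ℕ → ℝ), (∀ I ∈ F, 0 ≤ a I) → min 1 (∑ I ∈ F, a I) ≤ ∑ I ∈ F, min 1 (a I) := by
        intro F a ha
        by_cases h6 : ∃ I ∈ F, 1 ≤ a I
        · obtain ⟨I, hI, h7⟩ := h6
          refine (min_le_left _ _).trans ?_
          have h8 := single_le_sum (s := F) (a := I) (f := fun I => min 1 (a I)) (fun J hJ => le_min zero_le_one (ha J hJ)) hI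
          refine le_trans ?_ h8
          rw [min_eq_left h7]
        · push Not at h6
          refine (min_le_right _ _).trans (sum_le_sum fun I hI => ?_)
          rw [min_eq_right (h6 I hI).le]
      have h9 : ∑ I ∈ powersetCard N (range M), qQ (pq μ s η T) T (fun i : I => x i)
          (fun S => ∀ i : I, Tube lo hi T (x i) (S i)) ≤
          ∑ I ∈ powersetCard N (range M), Real.exp u * Zc μ s T (fun i : I => x i) lo hi η := sum_le_sum h3
      refine (min_le_min le_rfl h9).trans ?_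
      exact h5 _ (fun I => Real.exp u * Zc μ s T (fun i : I => x i) lo hi η) fun I _ =>
        mul_nonneg (Real.exp_pos _).le (Zc_nonneg _ _ _ _ _)

/-! ### The inequality in the mean -/

omit [IsProbabilityMeasure μ] in
theorem int_01 {P : Measure Env} [IsFiniteMeasure P] {f : Env → ℝ} (hf : Measurable f) (h0 : ∀ η, 0 ≤ f η) (h1 : ∀ η, f η ≤ 1) :
    Integrable f P := by
  refine Integrable.of_bound hf.aestronglyMeasurable 1 (ae_of_all _ fun η => ?_)
  rw [Real.norm_eq_abs, abs_of_nonneg (h0 η)]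
  exact h1 η

omit [IsProbabilityMeasure μ] in
theorem measurable_minZc {κ : Type*} [Fintype κ] [DecidableEq κ] (T : ℕ) (x : κ → ℤ) (lo hi : ℕ → ℝ) (l : ℝ) :
    Measurable fun η : Env => min 1 (l * Zc μ s T x lo hi η) :=
  measurable_const.min (measurable_const.mul (measurable_Zc T x lo hi))

omit [IsProbabilityMeasure μ] in
theorem lin4 {P : Measure Env} [IsProbabilityMeasure P] {a b c d : Env → ℝ} (ia : Integrable a P) (ib : Integrable b P)
    (ic : Integrable c P) (id' : Integrable d P) (N M : ℝ) :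
    ∫ η, (N + M * ((a η + b η) + (c η + d η))) ∂P = N + M * ((∫ η, a η ∂P + ∫ η, b η ∂P) + (∫ η, c η ∂P + ∫ η, d η ∂P)) ∧
      Integrable (fun η => N + M * ((a η + b η) + (c η + d η))) P := by
  have i1 : Integrable (fun η => a η + b η) P := ia.add ib
  have i2 : Integrable (fun η => c η + d η) P := ic.add id'
  have i3 : Integrable (fun η => (a η + b η) + (c η + d η)) P := i1.add i2
  have i4 : Integrable (fun η => M * ((a η + b η) + (c η + d η))) P := i3.const_mul M
  have i5 : Integrable (fun η => N + M * ((a η + b η) + (c η + d η))) P := (integrable_const N).add i4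
  refine ⟨?_, i5⟩
  rw [integral_add (integrable_const N) i4, integral_const_mul, integral_add i1 i2, integral_add ia ib, integral_add ic id',
    integral_const, probReal_univ, one_smul]

/-- **The inequality in the mean**: starts `x j = j * r`. -/
theorem int_det (T N M : ℕ) (r : ℤ) (hr : 0 ≤ r) {ρ : ℝ} (hρ : 0 ≤ ρ) (u : ℝ) {lo hi : ℕ → ℝ}
    (hlo : ∀ k : ℕ, lo k = sl μ s * k - ρ) (hhi : ∀ k : ℕ, hi k = M * r + sl μ s * k + ρ) :
    M * ∫ η, PD μ s η T 0 r ∂(law μ) ≤
      N + M * (2 * ∫ η, (1 - cf μ s ρ η 0 T / Real.exp (V μ s η 0 T)) ∂(law μ) +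
        ((law μ).real (Neg μ s T M (fun j => (j : ℤ) * r) u) +
        ∑ I ∈ powersetCard N (range M), ∫ η, min 1 (Real.exp u * Zc μ s T (fun i : I => ((i : ℕ) : ℤ) * r) lo hi η) ∂(law μ))) := by
  have hx : Monotone fun j : ℕ => (j : ℤ) * r := fun i j hij => mul_le_mul_of_nonneg_right (by exact_mod_cast hij) hr
  have h1 : ∀ η : Env, _ := fun η => det (μ := μ) (s := s) η hx T N M hρ u (lo := lo) (hi := hi)
    (fun k => by rw [hlo]; push_cast; ring) (fun k => by rw [hhi]; push_cast; ring)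
  have i1 : ∀ x x' : ℤ, Integrable (fun η => PD μ s η T x x') (law μ) := fun x x' =>
    int_01 (measurable_PD T x x') (fun η => PD_nonneg η T x x') (fun η => PD_le_one η T x x')
  have i2 : ∀ x : ℤ, Integrable (fun η => ex μ s ρ η T x) (law μ) := fun x =>
    int_01 (measurable_ex ρ T x) (fun η => ex_nonneg ρ η T x) (fun η => ex_le_one ρ η T x)
  have i3 : Integrable (fun η => (Neg μ s T M (fun j => (j : ℤ) * r) u).indicator (fun _ => (1 : ℝ)) η) (law μ) :=
    (integrable_const (1 : ℝ)).indicator (measurableSet_Neg T M _ u)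
  have i4 : ∀ I : Finset ℕ, Integrable (fun η => min 1 (Real.exp u * Zc μ s T (fun i : I => ((i : ℕ) : ℤ) * r) lo hi η)) (law μ) :=
    fun I => int_01 (measurable_minZc T _ lo hi _)
      (fun η => le_min zero_le_one (mul_nonneg (Real.exp_pos _).le (Zc_nonneg _ _ _ _ _))) (fun η => min_le_left _ _)
  have i5 : Integrable (fun η => ∑ I ∈ powersetCard N (range M), min 1 (Real.exp u *
      Zc μ s T (fun i : I => ((i : ℕ) : ℤ) * r) lo hi η)) (law μ) := integrable_finsetSum _ fun I _ => i4 I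
  have i6 : Integrable (fun η => ∑ j ∈ range M, PD μ s η T ((j : ℤ) * r) (((j + 1 : ℕ) : ℤ) * r)) (law μ) :=
    integrable_finsetSum _ fun j _ => i1 _ _
  obtain ⟨e1, i7⟩ := lin4 (i2 (((0 : ℕ) : ℤ) * r)) (i2 ((M : ℤ) * r)) i3 i5 (N : ℝ) (M : ℝ)
  have h2 := integral_mono (μ := law μ) i6 i7 h1
  rw [e1, integral_finsetSum _ fun j _ => i1 _ _, integral_finsetSum _ fun I _ => i4 I, int_ex, int_ex,
    integral_indicator_const _ (measurableSet_Neg T M _ u)] at h2
  have h3 : ∀ j ∈ range M, ∫ η, PD μ s η T ((j : ℤ) * r) (((j + 1 : ℕ) : ℤ) * r) ∂(law μ) = ∫ η, PD μ s η T 0 r ∂(law μ) := by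
    intro j _
    rw [int_PD]
    congr 1
    funext η
    congr 1
    push_cast
    ring
  rw [sum_congr rfl h3, sum_const, card_range, nsmul_eq_mul] at h2
  simp only [smul_eq_mul, mul_one] at h2
  linarith

end

end Pool.Agent.W_7d29a1_C1.Meet35
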