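import Pool.Agent.W_7d29a1_C1.Meet35
import Pool.Agent.W_7d29a1_C1.Coarse89

/-!
[C1] **MEET_d** (row 683 of helper48; leaves of helper89 and helper35), no hypothesis besides `In`: at every tilt, for every `e > 0` there
are `d > 0`, `n₁` such that two independent polymers of length `T ≥ n₁` in the same environment, started at distance `≤ d wd T` (free ends),
have no common site in the rows `0, ..., T` with mean quenched probability at most `e`.
-/

set_option autoImplicit false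

namespace Pool.Agent.W_7d29a1_C1.Meet35

open MeasureTheory ProbabilityTheory Finset
open Pool.Agent.W_7d29a1_F Pool.Agent.W_7d29a1_H Pool.Agent.W_7d29a1_HS

noncomputable section

variable {μ : Measure ℝ} {s : ℝ}

theorem Zc_eq89 {κ : Type*} [Fintype κ] [DecidableEq κ] (T : ℕ) (x : κ → ℤ) (lo hi : ℕ → ℝ) (η : Env) :
    Zc μ s T x lo hi η = Pool.Agent.W_7d29a1_C1.Coar89.Zc μ s T x lo hi η := by
  rw [Pool.Agent.W_7d29a1_C1.Coar89.Zc_eq]
  rfl

variable [IsProbabilityMeasure μ] {c C : ℝ} {n₀ : ℕ}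

/-- The coarse sum. -/
theorem coarseP (h : In μ s c C n₀) : CoarseP μ s c := by
  obtain ⟨κ, c5, hκ, hc5, J, n1, h1⟩ := Pool.Agent.W_7d29a1_C1.Coar89.coarse h
  refine ⟨κ, c5, hκ, hc5, J, n1, fun r l₀ w hr hrl hw1 hw b G tt h0 htt x hx I lo hi y0 hy lam hlam => ?_⟩
  simp only [Zc_eq89]
  exact h1 r l₀ w hr hrl hw1 hw b G tt h0 htt x hx I lo hi y0 hy lam hlam

/-- **MEET_d**, free ends. -/
theorem meet_d (h : In μ s c C n₀) {e : ℝ} (he : 0 < e) : ∃ d : ℝ, 0 < d ∧ ∃ n₁ : ℕ, ∀ T : ℕ, n₁ ≤ T →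
    ∀ x x' : ℤ, x ≤ x' → ((x' : ℝ) - x ≤ d * wd μ s T) → ∫ η, PD μ s η T x x' ∂(law μ) ≤ e := by
  obtain ⟨d, hd, n1, h1⟩ := meet_of h (coarseP h) e he
  refine ⟨d, hd, n1, fun T hT x x' hx hd' => ?_⟩
  rw [int_PD]
  have h2 := h1 T hT (x' - x).toNat ?_
  · have e1 : (((x' - x).toNat : ℕ) : ℤ) = x' - x := Int.toNat_of_nonneg (by omega)
    rw [e1] at h2
    exact h2
  · have e1 : (((x' - x).toNat : ℕ) : ℝ) = (x' : ℝ) - x := by
      have e2 : (((x' - x).toNat : ℕ) : ℤ) = x' - x := Int.toNat_of_nonneg (by omega)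
      have e3 : ((((x' - x).toNat : ℕ) : ℤ) : ℝ) = ((x' - x : ℤ) : ℝ) := by rw [e2]
      push_cast at e3
      exact e3
    rw [e1]
    exact hd'

end

end Pool.Agent.W_7d29a1_C1.Meet35
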