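import Pool.Agent.W_7d29a1_C1.Coarse89
import Pool.Agent.W_7d29a1_C1.Meet35

/-!
Both halves (MP_7d29a1_pr), attractor route: **MEET_d**, constant level coalescence, every tilt, every law of `In` (row 683 of helper48;
M1, M2, M3 helper89, M4, M5, M6 helper35).
-/

set_option autoImplicit false

namespace Pool.Agent.W_7d29a1_C1.Coar89

open MeasureTheory Finset Pool.Agent.W_7d29a1_F Pool.Agent.W_7d29a1_C1.Arr35
open Pool.Agent.W_7d29a1_HS Pool.Agent.W_7d29a1_C1.Meet35

noncomputable section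

variable {μ : Measure ℝ} {s : ℝ}

theorem Zc_eq35 {κ : Type*} [Fintype κ] [DecidableEq κ] (T : ℕ) (x : κ → ℤ) (lo hi : ℕ → ℝ) (η : Env) :
    Pool.Agent.W_7d29a1_C1.Meet35.Zc μ s T x lo hi η = Zc μ s T x lo hi η := by
  classical
  unfold Pool.Agent.W_7d29a1_C1.Meet35.Zc
  rw [Zc_eq]

variable [IsProbabilityMeasure μ] {c C : ℝ} {n₀ : ℕ}

/-- The coarse sum in the form of `Meet35`. -/
theorem coarseP (h : In μ s c C n₀) : CoarseP μ s c := by
  unfold CoarseP
  simp only [Zc_eq35]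
  exact coarse h

/-- **MEET_d.** Two polymers with free ends started at the distance `r ≤ d wd T` have a common site in the rows `0..T`, up to a mean
quenched probability `eta`. -/
theorem meet_d (h : In μ s c C n₀) : ∀ eta : ℝ, 0 < eta → ∃ d : ℝ, 0 < d ∧ ∃ n₁ : ℕ, ∀ T : ℕ, n₁ ≤ T →
    ∀ r : ℕ, (r : ℝ) ≤ d * wd μ s T → ∫ η, PD μ s η T 0 r ∂(law μ) ≤ eta :=
  meet_of h (coarseP h)

end

end Pool.Agent.W_7d29a1_C1.Coar89
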