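import Pool.Agent.W_7d29a1_C1.Meet35
import Pool.Agent.W_7d29a1_C1.ArrP89

/-!
[C1] MEET_d with any random profile of the end position (helper35; row 683 (7)(a) of helper48), over `ArrP89` of helper89.
`PG μ s η g T x x'`: quenched probability that two independent polymers of length `T` with the weight `g` of the end position, from
`(0, x)` and `(0, x')`, have no common site in the rows `0, ..., T`. `meetG`: sum over consecutive starts. Three inputs: exits of the two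
outer paths, supremum of `g` on the tube, negative parts of the logarithms of the masses.
-/

set_option autoImplicit false

namespace Pool.Agent.W_7d29a1_C1.MeetG35

open MeasureTheory ProbabilityTheory Filter Topology Finset
open Pool.Agent.W_7d29a1_F Pool.Agent.W_7d29a1_h4g Pool.Agent.W_7d29a1_H Pool.Agent.W_7d29a1_HS
open Pool.Agent.W_7d29a1_X (pos pth GS pth_nonneg Mt Mt_one pos_nonneg pos_le)
open Pool.Agent.W_7d29a1_C1.Arr89
open Pool.Agent.W_7d29a1_C1.Arr35 (Tube qQ pQ arr_conf)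
open Pool.Agent.W_7d29a1_C1.Exit35
open Pool.Agent.W_7d29a1_C1.Meet35

noncomputable section

variable {μ : Measure ℝ} {s : ℝ}

/-- The quenched probability that two independent polymers with the end weight `g` have no common site in the rows `0, ..., T`. -/
def PG (μ : Measure ℝ) (s : ℝ) (η : Env) (g : ℤ → ℝ) (T : ℕ) (x x' : ℤ) : ℝ :=
  ∑ p ∈ ((range T).powerset ×ˢ (range T).powerset).filter fun p => NI T x x' p.1 p.2,
    Gg μ s η g T x p.1 * Gg μ s η g T x' p.2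

open Classical in
/-- The quenched probability to leave the strip. -/
def exG (μ : Measure ℝ) (s ρ : ℝ) (η : Env) (g : ℤ → ℝ) (T : ℕ) (x : ℤ) : ℝ :=
  ∑ S ∈ (range T).powerset, if ¬ Stay (St μ s ρ 0) T S then Gg μ s η g T x S else 0

theorem Gg_nonneg {η : Env} {g : ℤ → ℝ} (hg : ∀ y, 0 ≤ g y) (T : ℕ) (x : ℤ) (S : Finset ℕ) : 0 ≤ Gg μ s η g T x S := by
  unfold Gg
  exact div_nonneg (mul_nonneg (pth_nonneg _ _ _) (hg _)) (Zt_nonneg hg _ _ _)

/-- The mass as a sum over the paths. -/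
theorem Zt_path {η : Env} {g : ℤ → ℝ} (T : ℕ) (x : ℤ) :
    Zt μ s η g T 0 x = ∑ S ∈ (range T).powerset, pth μ s (sh (0, x) η) T S * g (x + pos S T) := by
  rw [Zt_eq]
  have h1 : ∀ z : ℤ, W μ s η (((0 : ℕ) : ℤ), x) T z * g (x + z) =
      ∑ S ∈ (range T).powerset, if pos S T = z then pth μ s (sh (0, x) η) T S * g (x + pos S T) else 0 := by
    intro z
    have h2 : W μ s η (((0 : ℕ) : ℤ), x) T z = W μ s (sh (0, x) η) 0 T z := by
      rw [W_sh, zero_add]
      rfl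
    rw [h2, ← Mt_one]
    unfold Mt
    rw [sum_mul]
    refine sum_congr rfl fun S _ => ?_
    by_cases h3 : pos S T = z
    · rw [if_pos h3, if_pos h3, h3, mul_one]
    · rw [if_neg h3, if_neg h3, zero_mul]
  simp only [h1]
  rw [sum_comm]
  refine sum_congr rfl fun S _ => ?_
  rw [sum_ite_eq, if_pos (mem_Icc.2 ⟨pos_nonneg _ _, pos_le _ _⟩)]

theorem Gg_sum_le {η : Env} {g : ℤ → ℝ} (T : ℕ) (x : ℤ) :
    ∑ S ∈ (range T).powerset, Gg μ s η g T x S ≤ 1 := by
  unfold Gg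
  rw [← sum_div, ← Zt_path]
  exact div_self_le_one _

theorem PG_nonneg {η : Env} {g : ℤ → ℝ} (hg : ∀ y, 0 ≤ g y) (T : ℕ) (x x' : ℤ) : 0 ≤ PG μ s η g T x x' :=
  sum_nonneg fun _ _ => mul_nonneg (Gg_nonneg hg _ _ _) (Gg_nonneg hg _ _ _)

theorem PG_le_one {η : Env} {g : ℤ → ℝ} (hg : ∀ y, 0 ≤ g y) (T : ℕ) (x x' : ℤ) : PG μ s η g T x x' ≤ 1 := by
  unfold PG
  refine (sum_le_sum_of_subset_of_nonneg (filter_subset _ _) fun p _ _ =>
    mul_nonneg (Gg_nonneg hg _ _ _) (Gg_nonneg hg _ _ _)).trans ?_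
  rw [sum_product]
  simp only
  rw [← sum_mul_sum]
  exact mul_le_one₀ (Gg_sum_le T x) (sum_nonneg fun _ _ => Gg_nonneg hg _ _ _) (Gg_sum_le T x')

theorem exG_nonneg {η : Env} {g : ℤ → ℝ} (hg : ∀ y, 0 ≤ g y) (ρ : ℝ) (T : ℕ) (x : ℤ) : 0 ≤ exG μ s ρ η g T x := by
  unfold exG
  refine sum_nonneg fun S _ => ?_
  split_ifs
  · exact le_rfl
  · exact Gg_nonneg hg _ _ _

theorem exG_le_one {η : Env} {g : ℤ → ℝ} (hg : ∀ y, 0 ≤ g y) (ρ : ℝ) (T : ℕ) (x : ℤ) : exG μ s ρ η g T x ≤ 1 := by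
  refine le_trans ?_ (Gg_sum_le (μ := μ) (s := s) (η := η) (g := g) T x)
  unfold exG
  refine sum_le_sum fun S _ => ?_
  split_ifs
  · exact Gg_nonneg hg _ _ _
  · exact le_rfl

theorem qT_twoG {η : Env} {g : ℤ → ℝ} (hg : ∀ y, 0 ≤ g y) (T : ℕ) (x x' : ℤ) {z : Fin 2 → ℤ} (h0 : z 0 = x) (h1 : z 1 = x')
    (hZ : 0 < Zt μ s η g T 0 x) (hZ' : 0 < Zt μ s η g T 0 x') : qT (prb μ s η g T) T z = PG μ s η g T x x' := by
  unfold qT PG
  refine sum_nbij' (fun S => (S 0, S 1)) (fun p => ![p.1, p.2]) ?_ ?_ ?_ ?_ ?_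
  · intro S hS
    obtain ⟨h2, h3⟩ := mem_Tup.1 hS
    refine mem_filter.2 ⟨mem_product.2 ⟨mem_powerset.2 (h2 0), mem_powerset.2 (h2 1)⟩, ?_⟩
    have h4 := h3 0 1 (by decide)
    rw [h0, h1] at h4
    exact h4
  · intro p hp
    obtain ⟨h2, h3⟩ := mem_filter.1 hp
    obtain ⟨h4, h5⟩ := mem_product.1 h2
    refine mem_Tup.2 ⟨fun i => ?_, fun i j hij => ?_⟩
    · fin_cases i
      · exact mem_powerset.1 h4
      · exact mem_powerset.1 h5
    · fin_cases i <;> fin_cases j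
      · exact absurd rfl hij
      · show NI T (z 0) (z 1) p.1 p.2
        rw [h0, h1]
        exact h3
      · show NI T (z 1) (z 0) p.2 p.1
        rw [h0, h1]
        exact h3.symm
      · exact absurd rfl hij
  · intro S _
    funext i
    fin_cases i <;> rfl
  · intro p _
    rfl
  · intro S hS
    obtain ⟨h2, -⟩ := mem_Tup.1 hS
    rw [Fin.prod_univ_two, h0, h1, PX_eq_Gg hg hZ (h2 0), PX_eq_Gg hg hZ' (h2 1)]

theorem pQ_le_exG {ρ : ℝ} (hρ : 0 ≤ ρ) {η : Env} {g : ℤ → ℝ} (hg : ∀ y, 0 ≤ g y) (T : ℕ) (x : ℤ)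
    (hZ : 0 < Zt μ s η g T 0 x) {Q : Finset ℕ → Prop} (hQ : ∀ S, Q S → ∃ k ≤ T, ρ < |((pos S k : ℤ) : ℝ) - sl μ s * k|) :
    pQ (prb μ s η g T) T x Q ≤ exG μ s ρ η g T x := by
  classical
  unfold pQ exG
  rw [sum_filter]
  refine sum_le_sum fun S hS => ?_
  have hS' := mem_powerset.1 hS
  by_cases h1 : Q S
  · obtain ⟨k, hk, h2⟩ := hQ S h1
    have h3 : ¬ Stay (St μ s ρ 0) T S := by
      intro h4
      rcases k with _ | k
      · rw [Pool.Agent.W_7d29a1_X.pos_zero] at h2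
        simp at h2
        linarith
      · have h5 := h4 k (by omega)
        have h6 : |(((pos S (k + 1)) - 0 : ℤ) : ℝ) - sl μ s * (((k : ℤ) + 1 - 0 : ℤ) : ℝ)| ≤ ρ := h5
        rw [sub_zero, sub_zero] at h6
        push_cast at h6 h2
        linarith
    rw [if_pos h1, if_pos h3, PX_eq_Gg hg hZ hS']
  · rw [if_neg h1]
    split_ifs
    · exact le_rfl
    · exact Gg_nonneg hg _ _ _

/-- The tuples in the tube. -/
theorem qQ_le {κ : Type*} [Fintype κ] [DecidableEq κ] {η : Env} {g : ℤ → ℝ} (hg : ∀ y, 0 ≤ g y) (T : ℕ) {x : κ → ℤ}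
    {lo hi : ℕ → ℝ} (hZ : ∀ i, 0 < Zt μ s η g T 0 (x i)) {β : ℝ} (hβ : ∀ z : ℤ, lo T ≤ z → (z : ℝ) ≤ hi T → g z ≤ Real.exp β) :
    qQ (prb μ s η g T) T x (fun S => ∀ i, Tube lo hi T (x i) (S i)) ≤
      Real.exp (Fintype.card κ * β + ∑ i, -Real.log (Zt μ s η g T 0 (x i))) * Zc μ s T x lo hi η := by
  classical
  unfold qQ Zc
  rw [mul_sum]
  refine (sum_congr (by ext S; simp only [mem_filter]) fun S _ => rfl).trans_le (sum_le_sum fun S hS => ?_)
  obtain ⟨hS1, hS2⟩ := mem_filter.1 hS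
  obtain ⟨h1, -⟩ := mem_Tup.1 hS1
  have e1 : Real.exp (Fintype.card κ * β + ∑ i, -Real.log (Zt μ s η g T 0 (x i))) =
      ∏ i, (Real.exp β / Zt μ s η g T 0 (x i)) := by
    rw [Real.exp_add, Real.exp_sum, prod_div_distrib, prod_const, card_univ, ← Real.exp_nat_mul, div_eq_mul_inv, ← prod_inv_distrib]
    congr 1
    refine prod_congr rfl fun i _ => ?_
    rw [Real.exp_neg, Real.exp_log (hZ i)]
  rw [e1, ← prod_mul_distrib]
  refine prod_le_prod (fun i _ => ?_) fun i _ => ?_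
  · rw [PX_eq_Gg hg (hZ i) (h1 i)]
    exact Gg_nonneg hg _ _ _
  · rw [PX_eq_Gg hg (hZ i) (h1 i)]
    unfold Gg
    rw [div_mul_eq_mul_div]
    refine div_le_div_of_nonneg_right ?_ (hZ i).le
    rw [mul_comm]
    refine mul_le_mul_of_nonneg_right ?_ (pth_nonneg _ _ _)
    have h3 := hS2 i T le_rfl
    exact hβ _ h3.1 h3.2

/-- **The inequality in one environment.** -/
theorem detG {η : Env} {g : ℤ → ℝ} (hg : ∀ y, 0 ≤ g y) {x : ℕ → ℤ} (hx : Monotone x) (T N M : ℕ)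
    (hZ : ∀ j ≤ M, 0 < Zt μ s η g T 0 (x j)) {ρ : ℝ} (hρ : 0 ≤ ρ) {β u : ℝ} (hβ0 : 0 ≤ β) {lo hi : ℕ → ℝ}
    (hlo : ∀ k : ℕ, lo k = x 0 + sl μ s * k - ρ) (hhi : ∀ k : ℕ, hi k = x M + sl μ s * k + ρ)
    (hβ : ∀ z : ℤ, lo T ≤ z → (z : ℝ) ≤ hi T → g z ≤ Real.exp β)
    (hu : ∑ j ∈ range M, max (-Real.log (Zt μ s η g T 0 (x j))) 0 ≤ u) :
    ∑ j ∈ range M, PG μ s η g T (x j) (x (j + 1)) ≤
      N + M * ((exG μ s ρ η g T (x 0) + exG μ s ρ η g T (x M)) +
        ∑ I ∈ powersetCard N (range M), min 1 (Real.exp (N * β + u) * Zc μ s T (fun i : I => x i) lo hi η)) := by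
  classical
  have hM0 : (0 : ℝ) ≤ M := Nat.cast_nonneg M
  have h1 := arr_conf (π := prb μ s η g T) (fun k y => prb_nonneg hg T k y) (fun k y => prb_le hg T k y) T N M hx lo hi
  have e1 : ∑ j ∈ range M, qT (prb μ s η g T) T (fun i : Fin 2 => x (j + i)) = ∑ j ∈ range M, PG μ s η g T (x j) (x (j + 1)) :=
    sum_congr rfl fun j hj => by
      rw [mem_range] at hj
      exact qT_twoG hg T _ _ rfl rfl (hZ j hj.le) (hZ (j + 1) hj)
  rw [e1] at h1
  refine h1.trans (add_le_add le_rfl (mul_le_mul_of_nonneg_left (add_le_add (add_le_add ?_ ?_) ?_) hM0))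
  · refine pQ_le_exG hρ hg T (x 0) (hZ 0 (Nat.zero_le M)) ?_
    rintro S ⟨k, hk, h2⟩
    refine ⟨k, hk, ?_⟩
    rw [hlo] at h2
    push_cast at h2
    have h3 : ((pos S k : ℤ) : ℝ) = ((ps S k : ℤ) : ℝ) := rfl
    rw [h3]
    refine lt_of_lt_of_le ?_ (neg_le_abs _)
    linarith
  · refine pQ_le_exG hρ hg T (x M) (hZ M le_rfl) ?_
    rintro S ⟨k, hk, h2⟩
    refine ⟨k, hk, ?_⟩
    rw [hhi] at h2
    push_cast at h2
    have h3 : ((pos S k : ℤ) : ℝ) = ((ps S k : ℤ) : ℝ) := rfl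
    rw [h3]
    refine lt_of_lt_of_le ?_ (le_abs_self _)
    linarith
  · have h3 : ∀ I ∈ powersetCard N (range M), qQ (prb μ s η g T) T (fun i : I => x i)
        (fun S => ∀ i : I, Tube lo hi T (x i) (S i)) ≤ Real.exp (N * β + u) * Zc μ s T (fun i : I => x i) lo hi η := by
      intro I hI
      obtain ⟨hIM, hIc⟩ := mem_powersetCard.1 hI
      have hZI : ∀ i : I, 0 < Zt μ s η g T 0 (x i) := fun i => hZ i (mem_range.1 (hIM i.2)).le
      refine (qQ_le hg T hZI hβ).trans ?_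
      refine mul_le_mul_of_nonneg_right (Real.exp_le_exp.2 ?_) (Zc_nonneg _ _ _ _ _)
      have h4 : ∑ i : I, -Real.log (Zt μ s η g T 0 (x i)) ≤ u := by
        refine le_trans ?_ hu
        rw [Finset.sum_coe_sort I fun i : ℕ => -Real.log (Zt μ s η g T 0 (x i))]
        exact (sum_le_sum fun i _ => le_max_left _ _).trans
          (sum_le_sum_of_subset_of_nonneg hIM fun i _ _ => le_max_right _ _)
      rw [Fintype.card_coe, hIc]
      linarith
    have h5 : ∀ (F : Finset (Finset ℕ)) (a : Finset ℕ → ℝ), (∀ I ∈ F, 0 ≤ a I) → min 1 (∑ I ∈ F, a I) ≤ ∑ I ∈ F, min 1 (a I) := by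
      intro F a ha
      by_cases h6 : ∃ I ∈ F, 1 ≤ a I
      · obtain ⟨I, hI, h7⟩ := h6
        refine (min_le_left _ _).trans ?_
        have h8 := single_le_sum (s := F) (a := I) (f := fun I => min 1 (a I)) (fun J hJ => le_min zero_le_one (ha J hJ)) hI
        refine le_trans ?_ h8
        rw [min_eq_left h7]
      · push Not at h6
        refine (min_le_right _ _).trans (sum_le_sum fun I hI => ?_)
        rw [min_eq_right (h6 I hI).le]
    refine (min_le_min le_rfl (sum_le_sum h3)).trans ?_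
    exact h5 _ (fun I => Real.exp (N * β + u) * Zc μ s T (fun i : I => x i) lo hi η) fun I _ =>
      mul_nonneg (Real.exp_pos _).le (Zc_nonneg _ _ _ _ _)

/-! ### The mean -/

theorem measurable_Zt {g : Env → ℤ → ℝ} (hg : ∀ z, Measurable fun η => g η z) (T : ℕ) (x : ℤ) :
    Measurable fun η : Env => Zt μ s η (g η) T 0 x := by
  simp only [Zt_path]
  refine Finset.measurable_sum _ fun S _ => ?_
  exact ((measurable_pth35 T S).comp (measurable_shx x)).mul (hg _)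

theorem measurable_Gg {g : Env → ℤ → ℝ} (hg : ∀ z, Measurable fun η => g η z) (T : ℕ) (x : ℤ) (S : Finset ℕ) :
    Measurable fun η : Env => Gg μ s η (g η) T x S := by
  unfold Gg
  exact (((measurable_pth35 T S).comp (measurable_shx x)).mul (hg _)).div (measurable_Zt hg T x)

theorem measurable_PG {g : Env → ℤ → ℝ} (hg : ∀ z, Measurable fun η => g η z) (T : ℕ) (x x' : ℤ) :
    Measurable fun η : Env => PG μ s η (g η) T x x' := by
  unfold PG
  exact Finset.measurable_sum _ fun p _ => (measurable_Gg hg T x p.1).mul (measurable_Gg hg T x' p.2)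

theorem measurable_exG {g : Env → ℤ → ℝ} (hg : ∀ z, Measurable fun η => g η z) (ρ : ℝ) (T : ℕ) (x : ℤ) :
    Measurable fun η : Env => exG μ s ρ η (g η) T x := by
  classical
  unfold exG
  refine Finset.measurable_sum _ fun S _ => ?_
  by_cases h : ¬ Stay (St μ s ρ 0) T S
  · simp only [if_pos h]
    exact measurable_Gg hg T x S
  · simp only [if_neg h]
    exact measurable_const

/-- The bad event: the profile is too large somewhere on the tube, or the negative parts are too large. -/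
def Bad (μ : Measure ℝ) (s : ℝ) (g : Env → ℤ → ℝ) (T M : ℕ) (x : ℕ → ℤ) (a b β u : ℝ) : Set Env :=
  {η | (∃ z : ℤ, a ≤ z ∧ (z : ℝ) ≤ b ∧ Real.exp β < g η z) ∨ u < ∑ j ∈ range M, max (-Real.log (Zt μ s η (g η) T 0 (x j))) 0}

theorem measurableSet_Bad {g : Env → ℤ → ℝ} (hg : ∀ z, Measurable fun η => g η z) (T M : ℕ) (x : ℕ → ℤ) (a b β u : ℝ) :
    MeasurableSet (Bad μ s g T M x a b β u) := by
  have h1 : Bad μ s g T M x a b β u = (⋃ z : ℤ, {η | a ≤ z ∧ (z : ℝ) ≤ b ∧ Real.exp β < g η z}) ∪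
      {η | u < ∑ j ∈ range M, max (-Real.log (Zt μ s η (g η) T 0 (x j))) 0} := by
    ext η
    unfold Bad
    rw [Set.mem_ofPred_eq, Set.mem_union, Set.mem_iUnion]
    rfl
  rw [h1]
  refine (MeasurableSet.iUnion fun z => ?_).union ?_
  · by_cases h2 : a ≤ z ∧ (z : ℝ) ≤ b
    · have h3 : {η : Env | a ≤ z ∧ (z : ℝ) ≤ b ∧ Real.exp β < g η z} = {η | Real.exp β < g η z} := by
        ext η
        rw [Set.mem_ofPred_eq, Set.mem_ofPred_eq]
        tauto
      rw [h3]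
      exact measurableSet_lt measurable_const (hg z)
    · have h3 : {η : Env | a ≤ z ∧ (z : ℝ) ≤ b ∧ Real.exp β < g η z} = ∅ := by
        ext η
        rw [Set.mem_ofPred_eq, Set.mem_empty_iff_false]
        tauto
      rw [h3]
      exact MeasurableSet.empty
  · refine measurableSet_lt measurable_const (Finset.measurable_sum _ fun j _ => ?_)
    exact (Real.measurable_log.comp (measurable_Zt hg T (x j))).neg.max measurable_const

variable [IsProbabilityMeasure μ]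

/-- **The inequality in the mean.** -/
theorem meanG {g : Env → ℤ → ℝ} (hgm : ∀ z, Measurable fun η => g η z) (hg : ∀ η z, 0 ≤ g η z) {x : ℕ → ℤ} (hx : Monotone x)
    (T N M : ℕ) (hZ : ∀ η, ∀ j ≤ M, 0 < Zt μ s η (g η) T 0 (x j)) {ρ : ℝ} (hρ : 0 ≤ ρ) {β u : ℝ} (hβ0 : 0 ≤ β) {lo hi : ℕ → ℝ}
    (hlo : ∀ k : ℕ, lo k = x 0 + sl μ s * k - ρ) (hhi : ∀ k : ℕ, hi k = x M + sl μ s * k + ρ) :
    ∑ j ∈ range M, ∫ η, PG μ s η (g η) T (x j) (x (j + 1)) ∂(law μ) ≤
      N + M * ((∫ η, exG μ s ρ η (g η) T (x 0) ∂(law μ) + ∫ η, exG μ s ρ η (g η) T (x M) ∂(law μ)) +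
        ((law μ).real (Bad μ s g T M x (lo T) (hi T) β u) +
        ∑ I ∈ powersetCard N (range M), ∫ η, min 1 (Real.exp (N * β + u) * Zc μ s T (fun i : I => x i) lo hi η) ∂(law μ))) := by
  have hM0 : (0 : ℝ) ≤ M := Nat.cast_nonneg M
  have h1 : ∀ η : Env, ∑ j ∈ range M, PG μ s η (g η) T (x j) (x (j + 1)) ≤
      N + M * ((exG μ s ρ η (g η) T (x 0) + exG μ s ρ η (g η) T (x M)) +
        ((Bad μ s g T M x (lo T) (hi T) β u).indicator (fun _ => (1 : ℝ)) η +
          ∑ I ∈ powersetCard N (range M), min 1 (Real.exp (N * β + u) * Zc μ s T (fun i : I => x i) lo hi η))) := by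
    intro η
    have hs0 : 0 ≤ ∑ I ∈ powersetCard N (range M), min 1 (Real.exp (N * β + u) * Zc μ s T (fun i : I => x i) lo hi η) :=
      sum_nonneg fun I _ => le_min zero_le_one (mul_nonneg (Real.exp_pos _).le (Zc_nonneg _ _ _ _ _))
    have he0 := exG_nonneg (μ := μ) (s := s) (η := η) (hg η) ρ T (x 0)
    have heM := exG_nonneg (μ := μ) (s := s) (η := η) (hg η) ρ T (x M)
    by_cases hB : η ∈ Bad μ s g T M x (lo T) (hi T) β u
    · rw [Set.indicator_of_mem hB]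
      have h2 : ∑ j ∈ range M, PG μ s η (g η) T (x j) (x (j + 1)) ≤ M := by
        refine (sum_le_sum fun j _ => PG_le_one (hg η) T (x j) (x (j + 1))).trans ?_
        rw [sum_const, card_range, nsmul_eq_mul, mul_one]
      have h3 : (M : ℝ) * 1 ≤ M * ((exG μ s ρ η (g η) T (x 0) + exG μ s ρ η (g η) T (x M)) + (1 +
          ∑ I ∈ powersetCard N (range M), min 1 (Real.exp (N * β + u) * Zc μ s T (fun i : I => x i) lo hi η))) :=
        mul_le_mul_of_nonneg_left (by linarith) hM0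
      have h4 : (0 : ℝ) ≤ N := Nat.cast_nonneg N
      linarith
    · rw [Set.indicator_of_notMem hB, zero_add]
      unfold Bad at hB
      rw [Set.mem_ofPred_eq, not_or] at hB
      obtain ⟨h2, h3⟩ := hB
      push Not at h2 h3
      exact detG (hg η) hx T N M (hZ η) hρ hβ0 hlo hhi (fun z hz1 hz2 => h2 z hz1 hz2) h3
  have i1 : ∀ x x' : ℤ, Integrable (fun η => PG μ s η (g η) T x x') (law μ) := fun x x' =>
    int_01 (measurable_PG hgm T x x') (fun η => PG_nonneg (hg η) T x x') (fun η => PG_le_one (hg η) T x x')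
  have i2 : ∀ x : ℤ, Integrable (fun η => exG μ s ρ η (g η) T x) (law μ) := fun x =>
    int_01 (measurable_exG hgm ρ T x) (fun η => exG_nonneg (hg η) ρ T x) (fun η => exG_le_one (hg η) ρ T x)
  have mB := measurableSet_Bad (μ := μ) (s := s) hgm T M x (lo T) (hi T) β u
  have i3 : Integrable (fun η => (Bad μ s g T M x (lo T) (hi T) β u).indicator (fun _ => (1 : ℝ)) η) (law μ) :=
    (integrable_const (1 : ℝ)).indicator mB
  have i4 : ∀ I : Finset ℕ, Integrable (fun η => min 1 (Real.exp (N * β + u) * Zc μ s T (fun i : I => x i) lo hi η)) (law μ) :=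
    fun I => int_01 (measurable_minZc T _ lo hi _)
      (fun η => le_min zero_le_one (mul_nonneg (Real.exp_pos _).le (Zc_nonneg _ _ _ _ _))) (fun η => min_le_left _ _)
  have i5 : Integrable (fun η => ∑ I ∈ powersetCard N (range M), min 1 (Real.exp (N * β + u) *
      Zc μ s T (fun i : I => x i) lo hi η)) (law μ) := integrable_finsetSum _ fun I _ => i4 I
  have i6 : Integrable (fun η => ∑ j ∈ range M, PG μ s η (g η) T (x j) (x (j + 1))) (law μ) :=
    integrable_finsetSum _ fun j _ => i1 _ _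
  obtain ⟨e1, i7⟩ := lin4 (i2 (x 0)) (i2 (x M)) i3 i5 (N : ℝ) (M : ℝ)
  have h2 := integral_mono (μ := law μ) i6 i7 h1
  rw [e1, integral_finsetSum _ fun j _ => i1 _ _, integral_finsetSum _ fun I _ => i4 I,
    integral_indicator_const _ mB] at h2
  simp only [smul_eq_mul, mul_one] at h2
  exact h2

variable {c C : ℝ} {n₀ : ℕ}

/-- **MEET_d for any random profile of the end position**, sum over consecutive starts. -/
theorem meetG (h : In μ s c C n₀) (hco : CoarseP μ s c) {eta R A₁ A₂ : ℝ} (heta : 0 < eta) (hR : 0 ≤ R) (hA₁ : 0 ≤ A₁) (hA₂ : 0 ≤ A₂) :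
    ∃ M : ℕ, 1 ≤ M ∧ ∃ n₁ : ℕ, ∀ T : ℕ, n₁ ≤ T → ∀ x : ℕ → ℤ, Monotone x → ((x M : ℝ) - x 0 ≤ wd μ s T) →
    ∀ g : Env → ℤ → ℝ, (∀ z, Measurable fun η => g η z) → (∀ η z, 0 ≤ g η z) → (∀ η, ∀ j ≤ M, 0 < Zt μ s η (g η) T 0 (x j)) →
    ∑ j ∈ range M, ∫ η, PG μ s η (g η) T (x j) (x (j + 1)) ∂(law μ) ≤
      M * (eta + (∫ η, exG μ s (R * wd μ s T) η (g η) T (x 0) ∂(law μ) + ∫ η, exG μ s (R * wd μ s T) η (g η) T (x M) ∂(law μ)) +
        (law μ).real (Bad μ s g T M x (x 0 + sl μ s * T - R * wd μ s T) (x M + sl μ s * T + R * wd μ s T)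
          (A₁ * EE μ s T) (A₂ * M * EE μ s T))) := by
  obtain ⟨θ, hθ⟩ : ∃ θ : ℝ, θ = min (eta / 4) 1 := ⟨_, rfl⟩
  have hθ0 : 0 < θ := by rw [hθ]; exact lt_min (by positivity) one_pos
  have hθ1 : θ ≤ 1 := by rw [hθ]; exact min_le_right _ _
  have hθe : θ ≤ eta / 4 := by rw [hθ]; exact min_le_left _ _
  obtain ⟨M, hM1, hM2, n1, hsum⟩ := sumI h hco (θ := θ) (R := 2 * R + 1) (A := A₁ + A₂ + 2) (e := eta / 4) hθ0 hθ1
    (by linarith) (by linarith) (by positivity) (4 / eta)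
  have hMR : (1 : ℝ) ≤ M := by exact_mod_cast hM1
  have hM0 : (0 : ℝ) < M := by linarith
  refine ⟨M, hM1, max n1 1, fun T hT x hx hxM g hgm hg hZ => ?_⟩
  have hTn1 : n1 ≤ T := (le_max_left _ _).trans hT
  have hN1 : θ * M ≤ (⌈θ * M⌉₊ : ℕ) := Nat.le_ceil _
  have hN2 : ((⌈θ * M⌉₊ : ℕ) : ℝ) ≤ θ * M + 1 := (Nat.ceil_lt_add_one (by positivity)).le
  have hN3 : ((⌈θ * M⌉₊ : ℕ) : ℝ) ≤ M := by
    have h1 : ⌈θ * M⌉₊ ≤ M := by
      rw [Nat.ceil_le]
      have : θ * M ≤ 1 * M := mul_le_mul_of_nonneg_right hθ1 hM0.le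
      linarith
    exact_mod_cast h1
  have hE0 := EE_pos (μ := μ) (s := s) T
  have hw0 := h.wd_nonneg T
  have hsI := hsum T hTn1 _ hN1 hN2 x hx (fun k => x 0 + sl μ s * k - R * wd μ s T) (fun k => x M + sl μ s * k + R * wd μ s T)
    (fun k => by linarith)
  have h2 := meanG (μ := μ) (s := s) hgm hg hx T ⌈θ * M⌉₊ M hZ (ρ := R * wd μ s T) (mul_nonneg hR hw0)
    (β := A₁ * EE μ s T) (u := A₂ * M * EE μ s T) (mul_nonneg hA₁ hE0.le) (lo := fun k => x 0 + sl μ s * k - R * wd μ s T)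
    (hi := fun k => x M + sl μ s * k + R * wd μ s T) (fun _ => rfl) (fun _ => rfl)
  have h3 : ∑ I ∈ powersetCard ⌈θ * M⌉₊ (range M), ∫ η, min 1 (Real.exp (((⌈θ * M⌉₊ : ℕ) : ℝ) * (A₁ * EE μ s T) + A₂ * M * EE μ s T) *
      Zc μ s T (fun i : I => x i) (fun k => x 0 + sl μ s * k - R * wd μ s T) (fun k => x M + sl μ s * k + R * wd μ s T) η) ∂(law μ) ≤
      eta / 4 := by
    refine (sum_le_sum fun I _ => ?_).trans hsI
    refine integral_mono (int_01 (measurable_minZc T _ _ _ _)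
      (fun η => le_min zero_le_one (mul_nonneg (Real.exp_pos _).le (Zc_nonneg _ _ _ _ _))) (fun η => min_le_left _ _))
      (int_01 (measurable_minZc T _ _ _ _)
      (fun η => le_min zero_le_one (mul_nonneg (Real.exp_pos _).le (Zc_nonneg _ _ _ _ _))) (fun η => min_le_left _ _))
      fun η => min_le_min le_rfl (mul_le_mul_of_nonneg_right (Real.exp_le_exp.2 ?_) (Zc_nonneg _ _ _ _ _))
    have h4 : ((⌈θ * M⌉₊ : ℕ) : ℝ) * (A₁ * EE μ s T) ≤ M * (A₁ * EE μ s T) :=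
      mul_le_mul_of_nonneg_right hN3 (mul_nonneg hA₁ hE0.le)
    have h5 : 0 ≤ 2 * M * EE μ s T := by positivity
    linarith
  refine h2.trans ?_
  have h5 : 1 ≤ M * (eta / 4) := by
    rw [div_le_iff₀ heta] at hM2
    linarith
  have h6 : θ * M ≤ eta / 4 * M := mul_le_mul_of_nonneg_right hθe hM0.le
  have h7 := mul_le_mul_of_nonneg_left h3 hM0.le
  have h8 : 0 ≤ M * (eta / 4) := by positivity
  linarith

end

end Pool.Agent.W_7d29a1_C1.MeetG35
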