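import Pool.Agent.W_7d29a1_C1.MeetG35

/-!
[C1] MEET_d, PARALLEL PAIRS, first part (helper56 75277; helper35): the arrows of the bridges. `fld`: the transition probabilities of the
bridge to `(T₁ + T₂, y)` in the rows `0, ..., T₁`, with the values `0` / `1` at the sites which cannot reach `y`; they are non decreasing
in `y` (`fld_mono`, total positivity) and give the bridge (`PX_fld`).
-/

set_option autoImplicit false

namespace Pool.Agent.W_7d29a1_C1.MeetP35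

open MeasureTheory ProbabilityTheory Filter Topology Finset
open Pool.Agent.W_7d29a1_F Pool.Agent.W_7d29a1_h4g Pool.Agent.W_7d29a1_H Pool.Agent.W_7d29a1_HS
open Pool.Agent.W_7d29a1_X (pos pth GS pth_nonneg Mt Mt_one pos_nonneg pos_le)
open Pool.Agent.W_7d29a1_C1.Arr89
open Pool.Agent.W_7d29a1_C1.Arr35 (Tube qQ pQ arr_conf)
open Pool.Agent.W_7d29a1_C1.Exit35
open Pool.Agent.W_7d29a1_C1.Meet35
open Pool.Agent.W_7d29a1_C1.MeetG35

noncomputable section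

variable {μ : Measure ℝ} {s : ℝ}

/-! ### Transition probabilities which differ from `prb` only at the sites without mass -/

theorem tr_step' {η : Env} {g : ℤ → ℝ} (hg : ∀ y, 0 ≤ g y) {π : ℕ → ℤ → ℝ} {T : ℕ}
    (hπ : ∀ k < T, ∀ y, Zt μ s η g (T - k) k y ≠ 0 → π k y = prb μ s η g T k y) (x : ℤ) (S : Finset ℕ) {k : ℕ} (hk : k < T) :
    tr π x S k * Zt μ s η g (T - k) k (x + ps S k) = st μ s η x S k * Zt μ s η g (T - (k + 1)) (k + 1) (x + ps S (k + 1)) := by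
  have h1 := tr_step (μ := μ) (s := s) (η := η) hg x S hk
  by_cases hz : Zt μ s η g (T - k) k (x + ps S k) = 0
  · rw [hz, mul_zero] at h1 ⊢
    exact h1
  · rw [← h1]
    congr 1
    unfold tr
    rw [hπ k hk _ hz]

theorem PX_of {η : Env} {g : ℤ → ℝ} (hg : ∀ y, 0 ≤ g y) {π : ℕ → ℤ → ℝ} {T : ℕ}
    (hπ : ∀ k < T, ∀ y, Zt μ s η g (T - k) k y ≠ 0 → π k y = prb μ s η g T k y) {x : ℤ} (hZ : 0 < Zt μ s η g T 0 x) {S : Finset ℕ}
    (hS : S ⊆ range T) : PX π x T S = Gg μ s η g T x S := by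
  unfold Gg
  rw [eq_div_iff hZ.ne']
  have h1 : ∀ k ≤ T, (∏ j ∈ range k, tr π x S j) * Zt μ s η g T 0 x =
      (∏ j ∈ range k, st μ s η x S j) * Zt μ s η g (T - k) k (x + ps S k) := by
    intro k
    induction k with
    | zero => intro _; simp [ps_zero]
    | succ k ih =>
      intro hk
      have h2 := ih (by omega)
      have h3 := tr_step' (μ := μ) (s := s) (η := η) hg hπ x S (show k < T by omega)
      rw [prod_range_succ, prod_range_succ]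
      calc (∏ j ∈ range k, tr π x S j) * tr π x S k * Zt μ s η g T 0 x
          = ((∏ j ∈ range k, tr π x S j) * Zt μ s η g T 0 x) * tr π x S k := by ring
        _ = (∏ j ∈ range k, st μ s η x S j) * (tr π x S k * Zt μ s η g (T - k) k (x + ps S k)) := by
          rw [h2]; ring
        _ = _ := by rw [h3]; ring
  have h2 := h1 T le_rfl
  rw [PX_tr _ x hS, h2, pth_st, Nat.sub_self]
  rfl

/-! ### The bridge -/

/-- The profile at the row `T₁` of the bridge to `(T₁ + T₂, y)`. -/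
def gB (μ : Measure ℝ) (s : ℝ) (η : Env) (T₁ T₂ : ℕ) (y z : ℤ) : ℝ := W μ s η ((T₁ : ℤ), z) T₂ (y - z)

theorem gB_nonneg (η : Env) (T₁ T₂ : ℕ) (y z : ℤ) : 0 ≤ gB μ s η T₁ T₂ y z := W_nonneg _ _ _ _

/-- The mass of the bridge. -/
theorem Zt_gB (η : Env) (T₁ T₂ : ℕ) (y : ℤ) (m k : ℕ) (hmk : k + m = T₁) (z : ℤ) :
    Zt μ s η (gB μ s η T₁ T₂ y) m k z = W μ s η ((k : ℤ), z) (m + T₂) (y - z) := by
  rw [Zt_eq, W_add]
  refine sum_congr rfl fun i _ => ?_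
  unfold gB
  congr 1
  have e1 : (((((k : ℤ), z) : Pt).1 + (m : ℤ), (((k : ℤ), z) : Pt).2 + i) : Pt) = ((T₁ : ℤ), z + i) := by
    refine Prod.ext ?_ rfl
    show (k : ℤ) + m = T₁
    rw [← hmk]
    push_cast
    ring
  rw [e1]
  congr 1
  ring

/-- The transition probabilities of the bridge. -/
def fld (μ : Measure ℝ) (s : ℝ) (η : Env) (T₁ T₂ : ℕ) (y : ℤ) (k : ℕ) (z : ℤ) : ℝ :=
  if y < z then 0 else if z + ((T₁ + T₂ - k : ℕ) : ℤ) < y then 1 else prb μ s η (gB μ s η T₁ T₂ y) T₁ k z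

theorem fld_nonneg (η : Env) (T₁ T₂ : ℕ) (y : ℤ) (k : ℕ) (z : ℤ) : 0 ≤ fld μ s η T₁ T₂ y k z := by
  unfold fld
  split_ifs
  · exact le_rfl
  · exact zero_le_one
  · exact prb_nonneg (gB_nonneg η T₁ T₂ y) _ _ _

theorem fld_le_one (η : Env) (T₁ T₂ : ℕ) (y : ℤ) (k : ℕ) (z : ℤ) : fld μ s η T₁ T₂ y k z ≤ 1 := by
  unfold fld
  split_ifs
  · exact zero_le_one
  · exact le_rfl
  · exact prb_le (gB_nonneg η T₁ T₂ y) _ _ _

theorem fld_eq (η : Env) (T₁ T₂ : ℕ) (y : ℤ) {k : ℕ} (hk : k < T₁) (z : ℤ)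
    (hz : Zt μ s η (gB μ s η T₁ T₂ y) (T₁ - k) k z ≠ 0) : fld μ s η T₁ T₂ y k z = prb μ s η (gB μ s η T₁ T₂ y) T₁ k z := by
  rw [Zt_gB η T₁ T₂ y (T₁ - k) k (by omega)] at hz
  have h1 : 0 ≤ y - z ∧ y - z ≤ ((T₁ - k + T₂ : ℕ) : ℤ) := by
    by_contra h2
    exact hz (W_eq_zero η _ h2)
  unfold fld
  rw [if_neg (by omega), if_neg (by omega)]

/-- The bridge is the chain of the field `fld`. -/
theorem PX_fld (η : Env) (T₁ T₂ : ℕ) (y : ℤ) {x : ℤ} (h0 : 0 ≤ y - x) (h1 : y - x ≤ ((T₁ + T₂ : ℕ) : ℤ)) {S : Finset ℕ}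
    (hS : S ⊆ range T₁) : PX (fld μ s η T₁ T₂ y) x T₁ S = Gg μ s η (gB μ s η T₁ T₂ y) T₁ x S := by
  refine PX_of (gB_nonneg η T₁ T₂ y) (fun k hk z hz => fld_eq η T₁ T₂ y hk z hz) ?_ hS
  rw [Zt_gB η T₁ T₂ y T₁ 0 (by omega)]
  exact W_pos η _ h0 h1

/-- **MONOTONICITY IN THE END** (total positivity). -/
theorem fld_mono (η : Env) (T₁ T₂ : ℕ) {y y' : ℤ} (hy : y ≤ y') (k : ℕ) (z : ℤ) :
    fld μ s η T₁ T₂ y k z ≤ fld μ s η T₁ T₂ y' k z := by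
  by_cases h1 : y < z
  · have h2 : fld μ s η T₁ T₂ y k z = 0 := by
      unfold fld
      rw [if_pos h1]
    rw [h2]
    exact fld_nonneg _ _ _ _ _ _
  by_cases h2 : z + ((T₁ + T₂ - k : ℕ) : ℤ) < y'
  · have h3 : fld μ s η T₁ T₂ y' k z = 1 := by
      unfold fld
      rw [if_neg (by omega), if_pos h2]
    rw [h3]
    exact fld_le_one _ _ _ _ _ _
  unfold fld
  rw [if_neg h1, if_neg (by omega), if_neg (by omega), if_neg h2]
  unfold prb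
  by_cases hk : k < T₁
  · rw [if_pos hk, if_pos hk]
    have e1 : ∀ y₁ : ℤ, Zt μ s η (gB μ s η T₁ T₂ y₁) (T₁ - k) k z = Real.exp (-lam μ s) * (Real.exp (η ((k : ℤ) + 1, z)) *
        Zt μ s η (gB μ s η T₁ T₂ y₁) (T₁ - (k + 1)) (k + 1) z + Real.exp s * Real.exp (η ((k : ℤ) + 1, z + 1)) *
        Zt μ s η (gB μ s η T₁ T₂ y₁) (T₁ - (k + 1)) (k + 1) (z + 1)) := fun y₁ => Zt_step hk z
    have hp : ∀ y₁ : ℤ, ¬ y₁ < z → ¬ z + ((T₁ + T₂ - k : ℕ) : ℤ) < y₁ → 0 < Zt μ s η (gB μ s η T₁ T₂ y₁) (T₁ - k) k z := by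
      intro y₁ h3 h4
      rw [Zt_gB η T₁ T₂ y₁ (T₁ - k) k (by omega)]
      exact W_pos η _ (by omega) (by omega)
    have p1 := hp y h1 (by omega)
    have p2 := hp y' (by omega) h2
    have htp := W_tp2 (μ := μ) (s := s) η ((k + 1 : ℕ) : ℤ) z (z + 1) (T₁ - (k + 1) + T₂) y y' (by omega) hy
    obtain ⟨a, ha⟩ : ∃ a : ℝ, a = Real.exp (η ((k : ℤ) + 1, z)) := ⟨_, rfl⟩
    obtain ⟨b, hb⟩ : ∃ b : ℝ, b = Real.exp s * Real.exp (η ((k : ℤ) + 1, z + 1)) := ⟨_, rfl⟩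
    obtain ⟨l, hl⟩ : ∃ l : ℝ, l = Real.exp (-lam μ s) := ⟨_, rfl⟩
    obtain ⟨u0, hu0⟩ : ∃ u : ℝ, u = Zt μ s η (gB μ s η T₁ T₂ y) (T₁ - (k + 1)) (k + 1) z := ⟨_, rfl⟩
    obtain ⟨u1, hu1⟩ : ∃ u : ℝ, u = Zt μ s η (gB μ s η T₁ T₂ y) (T₁ - (k + 1)) (k + 1) (z + 1) := ⟨_, rfl⟩
    obtain ⟨v0, hv0⟩ : ∃ u : ℝ, u = Zt μ s η (gB μ s η T₁ T₂ y') (T₁ - (k + 1)) (k + 1) z := ⟨_, rfl⟩
    obtain ⟨v1, hv1⟩ : ∃ u : ℝ, u = Zt μ s η (gB μ s η T₁ T₂ y') (T₁ - (k + 1)) (k + 1) (z + 1) := ⟨_, rfl⟩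
    have htp' : v0 * u1 ≤ u0 * v1 := by
      rw [hu0, hu1, hv0, hv1, Zt_gB η T₁ T₂ y _ _ (by omega), Zt_gB η T₁ T₂ y _ _ (by omega), Zt_gB η T₁ T₂ y' _ _ (by omega),
        Zt_gB η T₁ T₂ y' _ _ (by omega)]
      exact htp
    rw [e1 y, ← ha, ← hb, ← hl, ← hu0, ← hu1] at p1
    rw [e1 y', ← ha, ← hb, ← hl, ← hv0, ← hv1] at p2
    rw [e1 y, e1 y', ← ha, ← hb, ← hl, ← hu0, ← hu1, ← hv0, ← hv1]
    have ha0 : 0 < a := by rw [ha]; exact Real.exp_pos _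
    have hb0 : 0 < b := by rw [hb]; positivity
    have hl0 : 0 < l := by rw [hl]; exact Real.exp_pos _
    rw [div_le_div_iff₀ p1 p2]
    have h5 : l * (b * u1) * (l * (a * v0 + b * v1)) = l * l * b * (a * (v0 * u1) + b * (u1 * v1)) := by ring
    have h6 : l * (b * v1) * (l * (a * u0 + b * u1)) = l * l * b * (a * (u0 * v1) + b * (u1 * v1)) := by ring
    rw [h5, h6]
    refine mul_le_mul_of_nonneg_left ?_ (by positivity)
    have := mul_le_mul_of_nonneg_left htp' ha0.le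
    linarith
  · rw [if_neg hk, if_neg hk]

end

end Pool.Agent.W_7d29a1_C1.MeetP35
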