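import Pool.Agent.W_7d29a1_C1.MeetP35
import Pool.Agent.W_7d29a1_C1.MeetL35

/-!
[C1] MEET_d, PARALLEL PAIRS, second part (helper56 75277; helper35): the inequality in one environment and in the mean for a family of
bridges, given the arrow inequality `ArrM` of monotone families.
-/

set_option autoImplicit false

namespace Pool.Agent.W_7d29a1_C1.MeetP35

open MeasureTheory ProbabilityTheory Filter Topology Finset
open Pool.Agent.W_7d29a1_F Pool.Agent.W_7d29a1_h4g Pool.Agent.W_7d29a1_H Pool.Agent.W_7d29a1_HS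
open Pool.Agent.W_7d29a1_X (pos pth GS pth_nonneg Mt Mt_one pos_nonneg pos_le)
open Pool.Agent.W_7d29a1_C1.Arr89
open Pool.Agent.W_7d29a1_C1.Arr35 (Tube qQ pQ arr_conf)
open Pool.Agent.W_7d29a1_C1.Exit35
open Pool.Agent.W_7d29a1_C1.Meet35
open Pool.Agent.W_7d29a1_C1.MeetG35

noncomputable section

variable {μ : Measure ℝ} {s : ℝ}

open Classical in
/-- The sum over the tuples without a common site which satisfy `Q`; the fields depend on the index. -/
def qM {κ : Type*} [Fintype κ] [DecidableEq κ] (π : κ → ℕ → ℤ → ℝ) (T : ℕ) (x : κ → ℤ) (Q : (κ → Finset ℕ) → Prop) : ℝ :=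
  ∑ S ∈ (Tup T x).filter Q, ∏ i, PX (π i) (x i) T (S i)

/-- The arrow inequality of monotone families. -/
def ArrM : Prop := ∀ π : ℕ → ℕ → ℤ → ℝ, (∀ j k y, 0 ≤ π j k y) → (∀ j k y, π j k y ≤ 1) → (∀ j k y, π j k y ≤ π (j + 1) k y) →
  ∀ (T N M : ℕ) (x : ℕ → ℤ), Monotone x → ∀ lo hi : ℕ → ℝ,
    ∑ j ∈ range M, qM (fun i : Fin 2 => π (j + i)) T (fun i : Fin 2 => x (j + i)) (fun _ => True) ≤
      N + M * ((pQ (π 0) T (x 0) (fun S => ∃ k ≤ T, ((x 0 + ps S k : ℤ) : ℝ) < lo k) +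
        pQ (π M) T (x M) (fun S => ∃ k ≤ T, hi k < ((x M + ps S k : ℤ) : ℝ))) +
        min 1 (∑ I ∈ powersetCard N (range M), qM (fun i : I => π i) T (fun i : I => x i) fun S => ∀ i : I, Tube lo hi T (x i) (S i)))

/-- The quenched probability that two polymers from `(0, x)`, `(0, x')` with the end weights `g`, `g'` have no common site in the rows
`0, ..., T`. -/
def PP (μ : Measure ℝ) (s : ℝ) (η : Env) (g g' : ℤ → ℝ) (T : ℕ) (x x' : ℤ) : ℝ :=
  ∑ p ∈ ((range T).powerset ×ˢ (range T).powerset).filter fun p => NI T x x' p.1 p.2,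
    Gg μ s η g T x p.1 * Gg μ s η g' T x' p.2

theorem PP_nonneg {η : Env} {g g' : ℤ → ℝ} (hg : ∀ y, 0 ≤ g y) (hg' : ∀ y, 0 ≤ g' y) (T : ℕ) (x x' : ℤ) :
    0 ≤ PP μ s η g g' T x x' :=
  sum_nonneg fun _ _ => mul_nonneg (Gg_nonneg hg _ _ _) (Gg_nonneg hg' _ _ _)

theorem PP_le_one {η : Env} {g g' : ℤ → ℝ} (hg : ∀ y, 0 ≤ g y) (hg' : ∀ y, 0 ≤ g' y) (T : ℕ) (x x' : ℤ) :
    PP μ s η g g' T x x' ≤ 1 := by
  unfold PP
  refine (sum_le_sum_of_subset_of_nonneg (filter_subset _ _) fun p _ _ =>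
    mul_nonneg (Gg_nonneg hg _ _ _) (Gg_nonneg hg' _ _ _)).trans ?_
  rw [sum_product]
  simp only
  rw [← sum_mul_sum]
  exact mul_le_one₀ (Gg_sum_le T x) (sum_nonneg fun _ _ => Gg_nonneg hg' _ _ _) (Gg_sum_le T x')

theorem qM_true {κ : Type*} [Fintype κ] [DecidableEq κ] (π : κ → ℕ → ℤ → ℝ) (T : ℕ) (x : κ → ℤ) :
    qM π T x (fun _ => True) = ∑ S ∈ Tup T x, ∏ i, PX (π i) (x i) T (S i) := by
  classical
  unfold qM
  refine sum_congr ?_ fun _ _ => rfl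
  ext S
  simp only [mem_filter, and_true]

theorem qM_two {η : Env} {g g' : ℤ → ℝ} (T : ℕ) (x x' : ℤ) {π : Fin 2 → ℕ → ℤ → ℝ} {z : Fin 2 → ℤ} (h0 : z 0 = x) (h1 : z 1 = x')
    (hP : ∀ S ⊆ range T, PX (π 0) x T S = Gg μ s η g T x S) (hP' : ∀ S ⊆ range T, PX (π 1) x' T S = Gg μ s η g' T x' S) :
    qM π T z (fun _ => True) = PP μ s η g g' T x x' := by
  classical
  rw [qM_true]
  unfold PP
  refine sum_nbij' (fun S => (S 0, S 1)) (fun p => ![p.1, p.2]) ?_ ?_ ?_ ?_ ?_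
  · intro S hS
    obtain ⟨h2, h3⟩ := mem_Tup.1 hS
    refine mem_filter.2 ⟨mem_product.2 ⟨mem_powerset.2 (h2 0), mem_powerset.2 (h2 1)⟩, ?_⟩
    have h4 := h3 0 1 (by decide)
    rw [h0, h1] at h4
    exact h4
  · intro p hp
    obtain ⟨h2, h3⟩ := mem_filter.1 hp
    obtain ⟨h4, h5⟩ := mem_product.1 h2
    refine mem_Tup.2 ⟨fun i => ?_, fun i j hij => ?_⟩
    · fin_cases i
      · exact mem_powerset.1 h4
      · exact mem_powerset.1 h5
    · fin_cases i <;> fin_cases j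
      · exact absurd rfl hij
      · show NI T (z 0) (z 1) p.1 p.2
        rw [h0, h1]
        exact h3
      · show NI T (z 1) (z 0) p.2 p.1
        rw [h0, h1]
        exact h3.symm
      · exact absurd rfl hij
  · intro S _
    funext i
    fin_cases i <;> rfl
  · intro p _
    rfl
  · intro S hS
    obtain ⟨h2, -⟩ := mem_Tup.1 hS
    rw [Fin.prod_univ_two, h0, h1, hP _ (h2 0), hP' _ (h2 1)]

theorem pQ_le_exM {ρ : ℝ} (hρ : 0 ≤ ρ) {η : Env} {g : ℤ → ℝ} (hg : ∀ y, 0 ≤ g y) (T : ℕ) (x : ℤ) {π : ℕ → ℤ → ℝ}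
    (hP : ∀ S ⊆ range T, PX π x T S = Gg μ s η g T x S) {Q : Finset ℕ → Prop}
    (hQ : ∀ S, Q S → ∃ k ≤ T, ρ < |((pos S k : ℤ) : ℝ) - sl μ s * k|) :
    pQ π T x Q ≤ exG μ s ρ η g T x := by
  classical
  unfold pQ exG
  rw [sum_filter]
  refine sum_le_sum fun S hS => ?_
  have hS' := mem_powerset.1 hS
  by_cases h1 : Q S
  · obtain ⟨k, hk, h2⟩ := hQ S h1
    have h3 : ¬ Stay (St μ s ρ 0) T S := by
      intro h4
      rcases k with _ | k
      · rw [Pool.Agent.W_7d29a1_X.pos_zero] at h2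
        simp at h2
        linarith
      · have h5 := h4 k (by omega)
        have h6 : |(((pos S (k + 1)) - 0 : ℤ) : ℝ) - sl μ s * (((k : ℤ) + 1 - 0 : ℤ) : ℝ)| ≤ ρ := h5
        rw [sub_zero, sub_zero] at h6
        push_cast at h6 h2
        linarith
    rw [if_pos h1, if_pos h3, hP S hS']
  · rw [if_neg h1]
    split_ifs
    · exact le_rfl
    · exact Gg_nonneg hg _ _ _

/-- The tuples in the tube. -/
theorem qM_le {κ : Type*} [Fintype κ] [DecidableEq κ] {η : Env} {g : κ → ℤ → ℝ} (hg : ∀ i y, 0 ≤ g i y) (T : ℕ) {x : κ → ℤ}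
    {lo hi : ℕ → ℝ} {π : κ → ℕ → ℤ → ℝ} (hP : ∀ i, ∀ S ⊆ range T, PX (π i) (x i) T S = Gg μ s η (g i) T (x i) S)
    (hZ : ∀ i, 0 < Zt μ s η (g i) T 0 (x i)) {β : ℝ} (hβ : ∀ i, ∀ z : ℤ, lo T ≤ z → (z : ℝ) ≤ hi T → g i z ≤ Real.exp β) :
    qM π T x (fun S => ∀ i, Tube lo hi T (x i) (S i)) ≤
      Real.exp (Fintype.card κ * β + ∑ i, -Real.log (Zt μ s η (g i) T 0 (x i))) * Zc μ s T x lo hi η := by
  classical
  unfold qM Zc
  rw [mul_sum]
  refine (sum_congr (by ext S; simp only [mem_filter]) fun S _ => rfl).trans_le (sum_le_sum fun S hS => ?_)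
  obtain ⟨hS1, hS2⟩ := mem_filter.1 hS
  obtain ⟨h1, -⟩ := mem_Tup.1 hS1
  have e1 : Real.exp (Fintype.card κ * β + ∑ i, -Real.log (Zt μ s η (g i) T 0 (x i))) =
      ∏ i, (Real.exp β / Zt μ s η (g i) T 0 (x i)) := by
    rw [Real.exp_add, Real.exp_sum, prod_div_distrib, prod_const, card_univ, ← Real.exp_nat_mul, div_eq_mul_inv, ← prod_inv_distrib]
    congr 1
    refine prod_congr rfl fun i _ => ?_
    rw [Real.exp_neg, Real.exp_log (hZ i)]
  rw [e1, ← prod_mul_distrib]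
  refine prod_le_prod (fun i _ => ?_) fun i _ => ?_
  · rw [hP i _ (h1 i)]
    exact Gg_nonneg (hg i) _ _ _
  · rw [hP i _ (h1 i)]
    unfold Gg
    rw [div_mul_eq_mul_div]
    refine div_le_div_of_nonneg_right ?_ (hZ i).le
    rw [mul_comm]
    refine mul_le_mul_of_nonneg_right ?_ (pth_nonneg _ _ _)
    have h3 := hS2 i T le_rfl
    exact hβ i _ h3.1 h3.2

/-- **The inequality in one environment for a family.** -/
theorem detM (hA : ArrM) {η : Env} {g : ℕ → ℤ → ℝ} (hg : ∀ j y, 0 ≤ g j y) {x : ℕ → ℤ} (hx : Monotone x) (T N M : ℕ)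
    {π : ℕ → ℕ → ℤ → ℝ} (h0 : ∀ j k y, 0 ≤ π j k y) (h1 : ∀ j k y, π j k y ≤ 1) (hm : ∀ j k y, π j k y ≤ π (j + 1) k y)
    (hP : ∀ j ≤ M, ∀ S ⊆ range T, PX (π j) (x j) T S = Gg μ s η (g j) T (x j) S)
    (hZ : ∀ j ≤ M, 0 < Zt μ s η (g j) T 0 (x j)) {ρ : ℝ} (hρ : 0 ≤ ρ) {β u : ℝ} {lo hi : ℕ → ℝ}
    (hlo : ∀ k : ℕ, lo k = x 0 + sl μ s * k - ρ) (hhi : ∀ k : ℕ, hi k = x M + sl μ s * k + ρ)
    (hβ : ∀ j ≤ M, ∀ z : ℤ, lo T ≤ z → (z : ℝ) ≤ hi T → g j z ≤ Real.exp β)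
    (hu : ∑ j ∈ range M, max (-Real.log (Zt μ s η (g j) T 0 (x j))) 0 ≤ u) :
    ∑ j ∈ range M, PP μ s η (g j) (g (j + 1)) T (x j) (x (j + 1)) ≤
      N + M * ((exG μ s ρ η (g 0) T (x 0) + exG μ s ρ η (g M) T (x M)) +
        ∑ I ∈ powersetCard N (range M), min 1 (Real.exp (N * β + u) * Zc μ s T (fun i : I => x i) lo hi η)) := by
  classical
  have hM0 : (0 : ℝ) ≤ M := Nat.cast_nonneg M
  have h2 := hA π h0 h1 hm T N M x hx lo hi
  have e1 : ∑ j ∈ range M, qM (fun i : Fin 2 => π (j + i)) T (fun i : Fin 2 => x (j + i)) (fun _ => True) =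
      ∑ j ∈ range M, PP μ s η (g j) (g (j + 1)) T (x j) (x (j + 1)) :=
    sum_congr rfl fun j hj => by
      rw [mem_range] at hj
      exact qM_two T _ _ rfl rfl (hP j hj.le) (hP (j + 1) hj)
  rw [e1] at h2
  refine h2.trans (add_le_add le_rfl (mul_le_mul_of_nonneg_left (add_le_add (add_le_add ?_ ?_) ?_) hM0))
  · refine pQ_le_exM hρ (hg 0) T (x 0) (hP 0 (Nat.zero_le M)) ?_
    rintro S ⟨k, hk, h2⟩
    refine ⟨k, hk, ?_⟩
    rw [hlo] at h2
    push_cast at h2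
    have h3 : ((pos S k : ℤ) : ℝ) = ((ps S k : ℤ) : ℝ) := rfl
    rw [h3]
    refine lt_of_lt_of_le ?_ (neg_le_abs _)
    linarith
  · refine pQ_le_exM hρ (hg M) T (x M) (hP M le_rfl) ?_
    rintro S ⟨k, hk, h2⟩
    refine ⟨k, hk, ?_⟩
    rw [hhi] at h2
    push_cast at h2
    have h3 : ((pos S k : ℤ) : ℝ) = ((ps S k : ℤ) : ℝ) := rfl
    rw [h3]
    refine lt_of_lt_of_le ?_ (le_abs_self _)
    linarith
  · have h3 : ∀ I ∈ powersetCard N (range M), qM (fun i : I => π i) T (fun i : I => x i)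
        (fun S => ∀ i : I, Tube lo hi T (x i) (S i)) ≤ Real.exp (N * β + u) * Zc μ s T (fun i : I => x i) lo hi η := by
      intro I hI
      obtain ⟨hIM, hIc⟩ := mem_powersetCard.1 hI
      have hjM : ∀ i : I, (i : ℕ) ≤ M := fun i => (mem_range.1 (hIM i.2)).le
      refine (qM_le (g := fun i : I => g i) (fun i => hg i) T (fun i : I => hP i (hjM i)) (fun i : I => hZ i (hjM i))
        (fun i : I => hβ i (hjM i))).trans ?_
      refine mul_le_mul_of_nonneg_right (Real.exp_le_exp.2 ?_) (Zc_nonneg _ _ _ _ _)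
      have h4 : ∑ i : I, -Real.log (Zt μ s η (g i) T 0 (x i)) ≤ u := by
        refine le_trans ?_ hu
        rw [Finset.sum_coe_sort I fun i : ℕ => -Real.log (Zt μ s η (g i) T 0 (x i))]
        exact (sum_le_sum fun i _ => le_max_left _ _).trans
          (sum_le_sum_of_subset_of_nonneg hIM fun i _ _ => le_max_right _ _)
      rw [Fintype.card_coe, hIc]
      linarith
    have h5 : ∀ (F : Finset (Finset ℕ)) (a : Finset ℕ → ℝ), (∀ I ∈ F, 0 ≤ a I) → min 1 (∑ I ∈ F, a I) ≤ ∑ I ∈ F, min 1 (a I) := by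
      intro F a ha
      by_cases h6 : ∃ I ∈ F, 1 ≤ a I
      · obtain ⟨I, hI, h7⟩ := h6
        refine (min_le_left _ _).trans ?_
        have h8 := single_le_sum (s := F) (a := I) (f := fun I => min 1 (a I)) (fun J hJ => le_min zero_le_one (ha J hJ)) hI
        refine le_trans ?_ h8
        rw [min_eq_left h7]
      · push Not at h6
        refine (min_le_right _ _).trans (sum_le_sum fun I hI => ?_)
        rw [min_eq_right (h6 I hI).le]
    refine (min_le_min le_rfl (sum_le_sum h3)).trans ?_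
    exact h5 _ (fun I => Real.exp (N * β + u) * Zc μ s T (fun i : I => x i) lo hi η) fun I _ =>
      mul_nonneg (Real.exp_pos _).le (Zc_nonneg _ _ _ _ _)

end

end Pool.Agent.W_7d29a1_C1.MeetP35
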