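import Pool.Agent.W_7d29a1_C1.MeetQ35
import Pool.Agent.W_7d29a1_C1.ExitB35

/-!
[C1] MEET_d, PARALLEL PAIRS, third part (helper56 75277; helper35): the mean and the constants. `PBr μ s η T₁ T₂ x y x' y'`: quenched
probability that the bridges `(0, x) → (T₁ + T₂, y)` and `(0, x') → (T₁ + T₂, y')` have no common site in the rows `0, ..., T₁`.
`parM`: the parallel pairs, from the arrow inequality `ArrM` and the coarse sum.
-/

set_option autoImplicit false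

namespace Pool.Agent.W_7d29a1_C1.MeetP35

open MeasureTheory ProbabilityTheory Filter Topology Finset
open Pool.Agent.W_7d29a1_F Pool.Agent.W_7d29a1_h4g Pool.Agent.W_7d29a1_H Pool.Agent.W_7d29a1_HS
open Pool.Agent.W_7d29a1_X (pos pth GS pth_nonneg Mt Mt_one pos_nonneg pos_le)
open Pool.Agent.W_7d29a1_C1.Arr89
open Pool.Agent.W_7d29a1_C1.Exit35
open Pool.Agent.W_7d29a1_C1.Meet35
open Pool.Agent.W_7d29a1_C1.MeetG35
open Pool.Agent.W_7d29a1_C1.MeetL35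
open Pool.Agent.W_7d29a1_C1.EpK35

noncomputable section

variable {μ : Measure ℝ} {s : ℝ}

/-! ### Translation -/

theorem sh_sh35 (η : Env) (x z : ℤ) : sh (0, x) (sh (0, z) η) = sh (0, x + z) η := by
  funext p
  show η (p + (0, x) + (0, z)) = η (p + (0, x + z))
  congr 1
  refine Prod.ext ?_ ?_
  · show p.1 + 0 + 0 = p.1 + 0
    ring
  · show p.2 + x + z = p.2 + (x + z)
    ring

theorem gB_sh (η : Env) (T₁ T₂ : ℕ) (y w z : ℤ) : gB μ s (sh (0, z) η) T₁ T₂ y w = gB μ s η T₁ T₂ (y + z) (w + z) := by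
  unfold gB
  rw [W_sh]
  have e1 : ((((T₁ : ℤ), w) : Pt) + (0, z)) = ((T₁ : ℤ), w + z) := by
    refine Prod.ext ?_ rfl
    show (T₁ : ℤ) + 0 = T₁
    ring
  rw [e1]
  congr 1
  ring

theorem Zt_sh (η : Env) (T₁ T₂ : ℕ) (y x z : ℤ) : Zt μ s (sh (0, z) η) (gB μ s (sh (0, z) η) T₁ T₂ y) T₁ 0 x =
    Zt μ s η (gB μ s η T₁ T₂ (y + z)) T₁ 0 (x + z) := by
  rw [Zt_gB _ T₁ T₂ y T₁ 0 (by omega), Zt_gB _ T₁ T₂ (y + z) T₁ 0 (by omega), W_sh]
  have e1 : (((((0 : ℕ) : ℤ), x) : Pt) + (0, z)) = (((0 : ℕ) : ℤ), x + z) := by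
    refine Prod.ext ?_ rfl
    show ((0 : ℕ) : ℤ) + 0 = ((0 : ℕ) : ℤ)
    ring
  rw [e1]
  congr 1
  ring

theorem Gg_sh (η : Env) (T₁ T₂ : ℕ) (y x z : ℤ) (S : Finset ℕ) :
    Gg μ s (sh (0, z) η) (gB μ s (sh (0, z) η) T₁ T₂ y) T₁ x S = Gg μ s η (gB μ s η T₁ T₂ (y + z)) T₁ (x + z) S := by
  unfold Gg
  rw [Zt_sh, gB_sh, sh_sh35, add_right_comm x (pos S T₁) z]

/-- The quenched probability that two bridges have no common site in the rows `0, ..., T₁`. -/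
def PBr (μ : Measure ℝ) (s : ℝ) (η : Env) (T₁ T₂ : ℕ) (x y x' y' : ℤ) : ℝ :=
  PP μ s η (gB μ s η T₁ T₂ y) (gB μ s η T₁ T₂ y') T₁ x x'

theorem PBr_nonneg (η : Env) (T₁ T₂ : ℕ) (x y x' y' : ℤ) : 0 ≤ PBr μ s η T₁ T₂ x y x' y' :=
  PP_nonneg (gB_nonneg η T₁ T₂ y) (gB_nonneg η T₁ T₂ y') _ _ _

theorem PBr_le_one (η : Env) (T₁ T₂ : ℕ) (x y x' y' : ℤ) : PBr μ s η T₁ T₂ x y x' y' ≤ 1 :=
  PP_le_one (gB_nonneg η T₁ T₂ y) (gB_nonneg η T₁ T₂ y') _ _ _

theorem measurable_PBr (T₁ T₂ : ℕ) (x y x' y' : ℤ) : Measurable fun η : Env => PBr μ s η T₁ T₂ x y x' y' := by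
  unfold PBr PP
  refine Finset.measurable_sum _ fun p _ => ?_
  exact (measurable_Gg (g := fun η => gB μ s η T₁ T₂ y) (fun z => measurable_gB T₁ T₂ y z) T₁ x p.1).mul
    (measurable_Gg (g := fun η => gB μ s η T₁ T₂ y') (fun z => measurable_gB T₁ T₂ y' z) T₁ x' p.2)

theorem PBr_sh (η : Env) (T₁ T₂ : ℕ) (x y x' y' z : ℤ) :
    PBr μ s (sh (0, z) η) T₁ T₂ x y x' y' = PBr μ s η T₁ T₂ (x + z) (y + z) (x' + z) (y' + z) := by
  unfold PBr PP
  refine (sum_congr rfl fun p _ => by rw [Gg_sh, Gg_sh]).trans ?_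
  refine sum_congr ?_ fun _ _ => rfl
  refine filter_congr fun p _ => ?_
  unfold NI
  refine forall₂_congr fun k _ => not_congr ?_
  constructor <;> intro h2 <;> linarith

theorem exG_sh (ρ : ℝ) (η : Env) (T₁ T₂ : ℕ) (y x z : ℤ) :
    exG μ s ρ (sh (0, z) η) (gB μ s (sh (0, z) η) T₁ T₂ y) T₁ x = exG μ s ρ η (gB μ s η T₁ T₂ (y + z)) T₁ (x + z) := by
  classical
  unfold exG
  refine sum_congr rfl fun S _ => ?_
  rw [Gg_sh]

variable [IsProbabilityMeasure μ]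

theorem int_PBr (T₁ T₂ : ℕ) (x y x' y' : ℤ) : ∫ η, PBr μ s η T₁ T₂ x y x' y' ∂(law μ) =
    ∫ η, PBr μ s η T₁ T₂ 0 (y - x) (x' - x) (y' - x) ∂(law μ) := by
  have h2 := Pool.Agent.W_7d29a1_f21.mp_integral (mp_sh (μ := μ) (0, x))
    (F := fun η : Env => PBr μ s η T₁ T₂ 0 (y - x) (x' - x) (y' - x)) (measurable_PBr T₁ T₂ _ _ _ _).aestronglyMeasurable
  rw [← h2]
  refine integral_congr_ae (Filter.Eventually.of_forall fun η => ?_)
  show PBr μ s η T₁ T₂ x y x' y' = PBr μ s (sh (0, x) η) T₁ T₂ 0 (y - x) (x' - x) (y' - x)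
  rw [PBr_sh, zero_add, sub_add_cancel, sub_add_cancel, sub_add_cancel]

theorem int_exG (ρ : ℝ) (T₁ T₂ : ℕ) (x y : ℤ) : ∫ η, exG μ s ρ η (gB μ s η T₁ T₂ y) T₁ x ∂(law μ) =
    ∫ η, exG μ s ρ η (gB μ s η T₁ T₂ (y - x)) T₁ 0 ∂(law μ) := by
  have h2 := Pool.Agent.W_7d29a1_f21.mp_integral (mp_sh (μ := μ) (0, x))
    (F := fun η : Env => exG μ s ρ η (gB μ s η T₁ T₂ (y - x)) T₁ 0)
    (measurable_exG (g := fun η => gB μ s η T₁ T₂ (y - x)) (fun z => measurable_gB T₁ T₂ _ z) ρ T₁ 0).aestronglyMeasurable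
  rw [← h2]
  refine integral_congr_ae (Filter.Eventually.of_forall fun η => ?_)
  show exG μ s ρ η (gB μ s η T₁ T₂ y) T₁ x = exG μ s ρ (sh (0, x) η) (gB μ s (sh (0, x) η) T₁ T₂ (y - x)) T₁ 0
  rw [exG_sh, zero_add, sub_add_cancel]

/-! ### The bad events -/

/-- The profiles are too large somewhere on the tube. -/
def BadS (μ : Measure ℝ) (s : ℝ) (T₁ T₂ : ℕ) (a b β : ℝ) : Set Env :=
  {η | ∃ z : ℤ, a ≤ z ∧ (z : ℝ) ≤ b ∧ β < V μ s η ((T₁ : ℤ), z) T₂}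

omit [IsProbabilityMeasure μ] in
theorem measurableSet_BadS (T₁ T₂ : ℕ) (a b β : ℝ) : MeasurableSet (BadS μ s T₁ T₂ a b β) := by
  have h1 : BadS μ s T₁ T₂ a b β = ⋃ z : ℤ, {η | a ≤ z ∧ (z : ℝ) ≤ b ∧ β < V μ s η ((T₁ : ℤ), z) T₂} := by
    ext η
    unfold BadS
    rw [Set.mem_ofPred_eq, Set.mem_iUnion]
    rfl
  rw [h1]
  refine MeasurableSet.iUnion fun z => ?_
  by_cases h2 : a ≤ z ∧ (z : ℝ) ≤ b
  · have h3 : {η : Env | a ≤ z ∧ (z : ℝ) ≤ b ∧ β < V μ s η ((T₁ : ℤ), z) T₂} = {η | β < V μ s η ((T₁ : ℤ), z) T₂} := by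
      ext η
      rw [Set.mem_ofPred_eq, Set.mem_ofPred_eq]
      tauto
    rw [h3]
    exact measurableSet_lt measurable_const (measurable_V _ _)
  · have h3 : {η : Env | a ≤ z ∧ (z : ℝ) ≤ b ∧ β < V μ s η ((T₁ : ℤ), z) T₂} = ∅ := by
      ext η
      rw [Set.mem_ofPred_eq, Set.mem_empty_iff_false]
      tauto
    rw [h3]
    exact MeasurableSet.empty

/-- The negative parts are too large. -/
def NegB (μ : Measure ℝ) (s : ℝ) (T M : ℕ) (r y : ℤ) (u : ℝ) : Set Env :=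
  {η | u < ∑ j ∈ range M, max (X μ s η (0, (j : ℤ) * r) T y) 0}

omit [IsProbabilityMeasure μ] in
theorem measurableSet_NegB (T M : ℕ) (r y : ℤ) (u : ℝ) : MeasurableSet (NegB μ s T M r y u) := by
  unfold NegB
  exact measurableSet_lt measurable_const (Finset.measurable_sum _ fun j _ => (X_meas s _ T y).max measurable_const)

theorem NegB_le (hEM : Pool.Agent.W_7d29a1_h47.EM μ) (T M : ℕ) (r : ℤ) {y : ℤ} (h0 : 0 ≤ y) (h1 : y ≤ T) {u : ℝ} (hu : 0 < u) :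
    (law μ).real (NegB μ s T M r y u) ≤ M * ep μ s T y / u := by
  have hint : Integrable (fun η : Env => ∑ j ∈ range M, max (X μ s η (0, (j : ℤ) * r) T y) 0) (law μ) :=
    integrable_finsetSum _ fun j _ => Xp_int hEM s _ h0 h1
  have h2 := mul_meas_ge_le_integral_of_nonneg (μ := law μ) (f := fun η : Env => ∑ j ∈ range M, max (X μ s η (0, (j : ℤ) * r) T y) 0)
    (ae_of_all _ fun η => Finset.sum_nonneg fun i _ => le_max_right _ _) hint u
  have h3 : ∫ η, ∑ j ∈ range M, max (X μ s η (0, (j : ℤ) * r) T y) 0 ∂(law μ) = M * ep μ s T y := by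
    rw [integral_finsetSum _ fun j _ => Xp_int hEM s _ h0 h1, sum_congr rfl fun j _ => ep_at s _ T y, sum_const, card_range,
      nsmul_eq_mul]
  have h4 : (law μ).real (NegB μ s T M r y u) ≤ (law μ).real {η | u ≤ ∑ j ∈ range M, max (X μ s η (0, (j : ℤ) * r) T y) 0} :=
    measureReal_mono (fun η (hη : u < ∑ j ∈ range M, max (X μ s η (0, (j : ℤ) * r) T y) 0) => hη.le) (measure_ne_top _ _)
  rw [le_div_iff₀ hu]
  rw [h3] at h2
  have h5 := mul_le_mul_of_nonneg_left h4 hu.le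
  linarith

/-! ### The mean -/

omit [IsProbabilityMeasure μ] in
theorem lin5 {P : Measure Env} [IsProbabilityMeasure P] {a b c d e : Env → ℝ} (ia : Integrable a P) (ib : Integrable b P)
    (ic : Integrable c P) (id' : Integrable d P) (ie : Integrable e P) (N M : ℝ) :
    ∫ η, (N + M * ((a η + b η) + ((c η + d η) + e η))) ∂P =
      N + M * ((∫ η, a η ∂P + ∫ η, b η ∂P) + ((∫ η, c η ∂P + ∫ η, d η ∂P) + ∫ η, e η ∂P)) ∧
      Integrable (fun η => N + M * ((a η + b η) + ((c η + d η) + e η))) P := by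
  have i1 : Integrable (fun η => a η + b η) P := ia.add ib
  have i2 : Integrable (fun η => c η + d η) P := ic.add id'
  have i6 : Integrable (fun η => (c η + d η) + e η) P := i2.add ie
  have i3 : Integrable (fun η => (a η + b η) + ((c η + d η) + e η)) P := i1.add i6
  have i4 : Integrable (fun η => M * ((a η + b η) + ((c η + d η) + e η))) P := i3.const_mul M
  have i5 : Integrable (fun η => N + M * ((a η + b η) + ((c η + d η) + e η))) P := (integrable_const N).add i4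
  refine ⟨?_, i5⟩
  rw [integral_add (integrable_const N) i4, integral_const_mul, integral_add i1 i6, integral_add ia ib, integral_add i2 ie,
    integral_add ic id', integral_const, probReal_univ, one_smul]

/-- **The inequality in the mean for the parallel pairs.** -/
theorem mean_par (hA : ArrM) (T₁ T₂ N M : ℕ) {r y : ℤ} (hr : 0 ≤ r) (hy0 : 0 ≤ y) (hyT : y ≤ ((T₁ + T₂ : ℕ) : ℤ)) {ρ : ℝ} (hρ : 0 ≤ ρ)
    {β u : ℝ} {lo hi : ℕ → ℝ} (hlo : ∀ k : ℕ, lo k = sl μ s * k - ρ) (hhi : ∀ k : ℕ, hi k = M * r + sl μ s * k + ρ) :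
    M * ∫ η, PBr μ s η T₁ T₂ 0 y r (y + r) ∂(law μ) ≤
      N + M * (2 * ∫ η, exG μ s ρ η (gB μ s η T₁ T₂ y) T₁ 0 ∂(law μ) +
        (((law μ).real (BadS μ s T₁ T₂ (lo T₁) (hi T₁) β) + (law μ).real (NegB μ s (T₁ + T₂) M r y u)) +
        ∑ I ∈ powersetCard N (range M), ∫ η, min 1 (Real.exp (N * β + u) *
          Zc μ s T₁ (fun i : I => ((i : ℕ) : ℤ) * r) lo hi η) ∂(law μ))) := by
  have hM0 : (0 : ℝ) ≤ M := Nat.cast_nonneg M
  obtain ⟨x, hxd⟩ : ∃ x : ℕ → ℤ, x = fun j : ℕ => (j : ℤ) * r := ⟨_, rfl⟩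
  have hx : Monotone x := by
    rw [hxd]
    exact fun i j hij => mul_le_mul_of_nonneg_right (by exact_mod_cast hij) hr
  have hx0 : x 0 = 0 := by rw [hxd]; simp
  have hxM : x M = M * r := by rw [hxd]
  have mS := measurableSet_BadS (μ := μ) (s := s) T₁ T₂ (lo T₁) (hi T₁) β
  have mN := measurableSet_NegB (μ := μ) (s := s) (T₁ + T₂) M r y u
  have hZ : ∀ (η : Env) (j : ℕ), Zt μ s η (gB μ s η T₁ T₂ (y + x j)) T₁ 0 (x j) = W μ s η (0, x j) (T₁ + T₂) y := by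
    intro η j
    rw [Zt_gB η T₁ T₂ _ T₁ 0 (by omega), add_sub_cancel_right]
    rfl
  have h1 : ∀ η : Env, ∑ j ∈ range M, PBr μ s η T₁ T₂ (x j) (y + x j) (x (j + 1)) (y + x (j + 1)) ≤
      N + M * ((exG μ s ρ η (gB μ s η T₁ T₂ (y + x 0)) T₁ (x 0) + exG μ s ρ η (gB μ s η T₁ T₂ (y + x M)) T₁ (x M)) +
        (((BadS μ s T₁ T₂ (lo T₁) (hi T₁) β).indicator (fun _ => (1 : ℝ)) η +
          (NegB μ s (T₁ + T₂) M r y u).indicator (fun _ => (1 : ℝ)) η) +
          ∑ I ∈ powersetCard N (range M), min 1 (Real.exp (N * β + u) * Zc μ s T₁ (fun i : I => x i) lo hi η))) := by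
    intro η
    have hs0 : 0 ≤ ∑ I ∈ powersetCard N (range M), min 1 (Real.exp (N * β + u) * Zc μ s T₁ (fun i : I => x i) lo hi η) :=
      sum_nonneg fun I _ => le_min zero_le_one (mul_nonneg (Real.exp_pos _).le (Zc_nonneg _ _ _ _ _))
    have he0 := exG_nonneg (μ := μ) (s := s) (η := η) (gB_nonneg (μ := μ) (s := s) η T₁ T₂ (y + x 0)) ρ T₁ (x 0)
    have heM := exG_nonneg (μ := μ) (s := s) (η := η) (gB_nonneg (μ := μ) (s := s) η T₁ T₂ (y + x M)) ρ T₁ (x M)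
    have i1 : 0 ≤ (BadS μ s T₁ T₂ (lo T₁) (hi T₁) β).indicator (fun _ => (1 : ℝ)) η := Set.indicator_nonneg (fun _ _ => zero_le_one) η
    have i2 : 0 ≤ (NegB μ s (T₁ + T₂) M r y u).indicator (fun _ => (1 : ℝ)) η := Set.indicator_nonneg (fun _ _ => zero_le_one) η
    have hN0 : (0 : ℝ) ≤ N := Nat.cast_nonneg N
    have h2 : ∑ j ∈ range M, PBr μ s η T₁ T₂ (x j) (y + x j) (x (j + 1)) (y + x (j + 1)) ≤ M := by
      refine (sum_le_sum fun j _ => PBr_le_one η T₁ T₂ _ _ _ _).trans ?_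
      rw [sum_const, card_range, nsmul_eq_mul, mul_one]
    have hbad : ∀ a b : ℝ, 0 ≤ a → 0 ≤ b → 1 ≤ a + b → ∑ j ∈ range M, PBr μ s η T₁ T₂ (x j) (y + x j) (x (j + 1)) (y + x (j + 1)) ≤
        N + M * ((exG μ s ρ η (gB μ s η T₁ T₂ (y + x 0)) T₁ (x 0) + exG μ s ρ η (gB μ s η T₁ T₂ (y + x M)) T₁ (x M)) +
        ((a + b) + ∑ I ∈ powersetCard N (range M), min 1 (Real.exp (N * β + u) * Zc μ s T₁ (fun i : I => x i) lo hi η))) := by
      intro a b _ _ hab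
      have h3 := mul_le_mul_of_nonneg_left (show (1 : ℝ) ≤ (exG μ s ρ η (gB μ s η T₁ T₂ (y + x 0)) T₁ (x 0) +
        exG μ s ρ η (gB μ s η T₁ T₂ (y + x M)) T₁ (x M)) + ((a + b) +
        ∑ I ∈ powersetCard N (range M), min 1 (Real.exp (N * β + u) * Zc μ s T₁ (fun i : I => x i) lo hi η)) by linarith) hM0
      linarith
    by_cases q1 : η ∈ BadS μ s T₁ T₂ (lo T₁) (hi T₁) β
    · refine hbad _ _ i1 i2 ?_
      rw [Set.indicator_of_mem q1]
      linarith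
    by_cases q2 : η ∈ NegB μ s (T₁ + T₂) M r y u
    · refine hbad _ _ i1 i2 ?_
      rw [Set.indicator_of_mem q2]
      linarith
    rw [Set.indicator_of_notMem q1, Set.indicator_of_notMem q2, add_zero, zero_add]
    unfold BadS at q1
    unfold NegB at q2
    rw [Set.mem_ofPred_eq] at q1 q2
    push Not at q1 q2
    refine detM hA (g := fun j => gB μ s η T₁ T₂ (y + x j)) (fun j z => gB_nonneg η T₁ T₂ _ z) hx T₁ N M
      (π := fun j => fld μ s η T₁ T₂ (y + x j)) (fun j k z => fld_nonneg _ _ _ _ _ _) (fun j k z => fld_le_one _ _ _ _ _ _)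
      (fun j k z => fld_mono η T₁ T₂ (add_le_add le_rfl (hx (Nat.le_succ j))) k z)
      (fun j _ S hS => PX_fld η T₁ T₂ (y + x j) (by omega) (by rw [add_sub_cancel_right]; exact hyT) hS)
      (fun j _ => by rw [hZ]; exact W_pos η _ hy0 hyT) hρ (lo := lo) (hi := hi)
      (fun k => by rw [hlo, hx0]; push_cast; ring) (fun k => by rw [hhi, hxM]; push_cast; ring)
      (fun j _ z hz1 hz2 => (gB_le η T₁ T₂ _ z).trans (Real.exp_le_exp.2 (q1 z hz1 hz2))) ?_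
    refine le_trans (le_of_eq ?_) q2
    refine sum_congr rfl fun j _ => ?_
    rw [hZ, hxd]
    rfl
  have i1 : ∀ j : ℕ, Integrable (fun η => PBr μ s η T₁ T₂ (x j) (y + x j) (x (j + 1)) (y + x (j + 1))) (law μ) := fun j =>
    int_01 (measurable_PBr T₁ T₂ _ _ _ _) (fun η => PBr_nonneg η T₁ T₂ _ _ _ _) (fun η => PBr_le_one η T₁ T₂ _ _ _ _)
  have i2 : ∀ j : ℕ, Integrable (fun η => exG μ s ρ η (gB μ s η T₁ T₂ (y + x j)) T₁ (x j)) (law μ) := fun j =>
    int_01 (measurable_exG (g := fun η => gB μ s η T₁ T₂ (y + x j)) (fun z => measurable_gB T₁ T₂ _ z) ρ T₁ (x j))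
      (fun η => exG_nonneg (gB_nonneg η T₁ T₂ _) ρ T₁ _) (fun η => exG_le_one (gB_nonneg η T₁ T₂ _) ρ T₁ _)
  have i3 : Integrable (fun η => (BadS μ s T₁ T₂ (lo T₁) (hi T₁) β).indicator (fun _ => (1 : ℝ)) η) (law μ) :=
    (integrable_const (1 : ℝ)).indicator mS
  have i3' : Integrable (fun η => (NegB μ s (T₁ + T₂) M r y u).indicator (fun _ => (1 : ℝ)) η) (law μ) :=
    (integrable_const (1 : ℝ)).indicator mN
  have i4 : ∀ I : Finset ℕ, Integrable (fun η => min 1 (Real.exp (N * β + u) * Zc μ s T₁ (fun i : I => x i) lo hi η)) (law μ) :=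
    fun I => int_01 (measurable_minZc T₁ _ lo hi _)
      (fun η => le_min zero_le_one (mul_nonneg (Real.exp_pos _).le (Zc_nonneg _ _ _ _ _))) (fun η => min_le_left _ _)
  have i5 : Integrable (fun η => ∑ I ∈ powersetCard N (range M), min 1 (Real.exp (N * β + u) *
      Zc μ s T₁ (fun i : I => x i) lo hi η)) (law μ) := integrable_finsetSum _ fun I _ => i4 I
  have i6 : Integrable (fun η => ∑ j ∈ range M, PBr μ s η T₁ T₂ (x j) (y + x j) (x (j + 1)) (y + x (j + 1))) (law μ) :=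
    integrable_finsetSum _ fun j _ => i1 j
  obtain ⟨e1, i7⟩ := lin5 (i2 0) (i2 M) i3 i3' i5 (N : ℝ) (M : ℝ)
  have h2 := integral_mono (μ := law μ) i6 i7 h1
  rw [e1, integral_finsetSum _ fun j _ => i1 j, integral_finsetSum _ fun I _ => i4 I,
    integral_indicator_const _ mS, integral_indicator_const _ mN, int_exG ρ T₁ T₂ (x 0), int_exG ρ T₁ T₂ (x M),
    add_sub_cancel_right, add_sub_cancel_right] at h2
  have h3 : ∀ j ∈ range M, ∫ η, PBr μ s η T₁ T₂ (x j) (y + x j) (x (j + 1)) (y + x (j + 1)) ∂(law μ) =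
      ∫ η, PBr μ s η T₁ T₂ 0 y r (y + r) ∂(law μ) := by
    intro j _
    rw [int_PBr]
    have e2 : x (j + 1) - x j = r := by
      rw [hxd]
      push_cast
      ring
    rw [add_sub_cancel_right, e2, show y + x (j + 1) - x j = y + r by rw [← e2]; ring]
  rw [sum_congr rfl h3, sum_const, card_range, nsmul_eq_mul] at h2
  simp only [smul_eq_mul, mul_one] at h2
  rw [hxd] at h2
  linarith

end

end Pool.Agent.W_7d29a1_C1.MeetP35
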