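import Pool.Agent.W_7d29a1_C1.MeetU35
import Pool.Agent.W_7d29a1_C1.Quen24

/-!
[C1] MEET_d, THE CORNERS OF A CELL MEET IN THE MIDDLE (helper35): the zero one law `quen24` of helper24 with `meetE`, `meetS`. `cor_meet`: the
pairs `(0, x) → (n, y)`, `(0, x') → (n, y')`, `|x' - x| ≤ d wd n`, `|y' - y| ≤ d wd n`, have no common site in the rows `[a, b]` with the
quenched probability at most `exp (- n ^ c')`, off an event of probability at most `e`.
-/

set_option autoImplicit false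

namespace Pool.Agent.W_7d29a1_C1.MeetU35

open MeasureTheory ProbabilityTheory Filter Topology Finset
open Pool.Agent.W_7d29a1_F Pool.Agent.W_7d29a1_h4g Pool.Agent.W_7d29a1_H Pool.Agent.W_7d29a1_HS
open Pool.Agent.W_7d29a1_X (pos pth)
open Pool.Agent.W_7d29a1_HZ (gp wd')
open Pool.Agent.W_7d29a1_C1.EpK35
open Pool.Agent.W_7d29a1_C1.Q24 (NMt PQ PQ_nonneg quen24 CnD ind_nonneg)

noncomputable section

variable {μ : Measure ℝ} {s : ℝ}

theorem measurable_PQ (n : ℕ) (x y x' y' : ℤ) (A : Finset ℕ → Finset ℕ → Prop) :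
    Measurable fun η : Env => PQ μ s η n x y x' y' A := by
  classical
  unfold PQ Pool.Agent.W_7d29a1_C1.Q24.Gw
  exact Finset.measurable_sum _ fun S _ => Finset.measurable_sum _ fun S' _ =>
    (((Pool.Agent.W_7d29a1_HZ.measurable_gp n (y - x) S).comp (measurable_pi_lambda _ fun p => measurable_pi_apply (p + (0, x)))).mul
      ((Pool.Agent.W_7d29a1_HZ.measurable_gp n (y' - x') S').comp
        (measurable_pi_lambda _ fun p => measurable_pi_apply (p + (0, x'))))).mul measurable_const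

/-- Fewer rows. -/
theorem PQ_mono (η : Env) (n : ℕ) (x y x' y' : ℤ) {A A' : Finset ℕ → Finset ℕ → Prop} (h : ∀ S S', A S S' → A' S S') :
    PQ μ s η n x y x' y' A ≤ PQ μ s η n x y x' y' A' := by
  classical
  unfold PQ
  refine sum_le_sum fun S _ => sum_le_sum fun S' _ => mul_le_mul_of_nonneg_left ?_
    (mul_nonneg (Pool.Agent.W_7d29a1_C1.Q24.Gw_nonneg _ _ _ _ _) (Pool.Agent.W_7d29a1_C1.Q24.Gw_nonneg _ _ _ _ _))
  by_cases hA : A S S'
  · rw [if_pos hA, if_pos (h S S' hA)]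
  · rw [if_neg hA]
    exact ind_nonneg

theorem PQ_le_one (η : Env) (n : ℕ) (x y x' y' : ℤ) (A : Finset ℕ → Finset ℕ → Prop) : PQ μ s η n x y x' y' A ≤ 1 := by
  classical
  have h0 : ∀ x y : ℤ, ∑ S ∈ (range n).powerset, Pool.Agent.W_7d29a1_C1.Q24.Gw μ s η n x y S ≤ 1 := by
    intro x y
    by_cases h : x ≤ y ∧ y ≤ x + n
    · exact (Pool.Agent.W_7d29a1_C1.Q24.Gw_sum η h.1 h.2).le
    · refine le_trans (le_of_eq (sum_eq_zero fun S _ => Pool.Agent.W_7d29a1_C1.Q24.Gw_of_ne fun h2 => h ?_)) zero_le_one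
      have h3 := Pool.Agent.W_7d29a1_X.pos_nonneg S n
      have h4 := Pool.Agent.W_7d29a1_X.pos_le S n
      omega
  have h1 : PQ μ s η n x y x' y' A ≤ (∑ S ∈ (range n).powerset, Pool.Agent.W_7d29a1_C1.Q24.Gw μ s η n x y S) *
      ∑ S' ∈ (range n).powerset, Pool.Agent.W_7d29a1_C1.Q24.Gw μ s η n x' y' S' := by
    unfold PQ
    rw [sum_mul_sum]
    refine sum_le_sum fun S _ => sum_le_sum fun S' _ => ?_
    have h2 := mul_le_mul_of_nonneg_left (Pool.Agent.W_7d29a1_C1.Q24.ind_le_one (A := A S S'))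
      (mul_nonneg (Pool.Agent.W_7d29a1_C1.Q24.Gw_nonneg (μ := μ) (s := s) η n x y S)
        (Pool.Agent.W_7d29a1_C1.Q24.Gw_nonneg (μ := μ) (s := s) η n x' y' S'))
    linarith
  refine h1.trans (mul_le_one₀ (h0 x y) (sum_nonneg fun S _ => Pool.Agent.W_7d29a1_C1.Q24.Gw_nonneg _ _ _ _ _) (h0 x' y'))

variable [IsProbabilityMeasure μ] {c C : ℝ} {n₀ : ℕ}

/-- Markov. -/
theorem law_PQ (n : ℕ) (x y x' y' : ℤ) (A : Finset ℕ → Finset ℕ → Prop) {e : ℝ}
    (he : ∫ η, PQ μ s η n x y x' y' A ∂(law μ) ≤ e) : law μ {η | 1 / 4 < PQ μ s η n x y x' y' A} ≤ ENNReal.ofReal (4 * e) := by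
  have hm := measurable_PQ (μ := μ) (s := s) n x y x' y' A
  have hi : Integrable (fun η : Env => PQ μ s η n x y x' y' A) (law μ) :=
    Pool.Agent.W_7d29a1_C1.Meet35.int_01 hm (fun η => PQ_nonneg _ _ _ _ _ _ _) (fun η => PQ_le_one _ _ _ _ _ _ _)
  have h1 := Pool.Agent.W_7d29a1_C1.Q24.markov (μ := μ) hm (a := 1 / 4) (m := e) (by norm_num) (by
    rw [← ofReal_integral_eq_lintegral_ofReal hi (ae_of_all _ fun η => PQ_nonneg _ _ _ _ _ _ _)]
    exact ENNReal.ofReal_le_ofReal he)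
  rwa [show e / (1 / 4) = 4 * e by ring] at h1

/-- **THE CORNERS OF A CELL MEET IN THE MIDDLE.** -/
theorem cor_meet (h : In μ s c C n₀) : ∃ c' : ℝ, 0 < c' ∧ ∀ K B e : ℝ, 0 ≤ K → 0 < e → ∃ d : ℝ, 0 < d ∧ ∃ n₁ : ℕ,
    ∀ n : ℕ, n₁ ≤ n → ∀ a b : ℕ, a ≤ b → b ≤ n → n ≤ 16 * (b - a) → (n : ℝ) ≤ B * a → (n : ℝ) ≤ B * ((n - b : ℕ) : ℝ) →
    ∀ x x' y y' : ℤ, |((x' - x : ℤ) : ℝ)| ≤ d * wd μ s n → |((y' - y : ℤ) : ℝ)| ≤ d * wd μ s n →
    |((y - x : ℤ) : ℝ) - sl μ s * n| ≤ K * wd μ s n →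
    law μ {η | Real.exp (-(n : ℝ) ^ c') < PQ μ s η n x y x' y' (NMt x x' a b)} ≤ ENNReal.ofReal e := by
  obtain ⟨δ, c', hδ, hc', n1, hq⟩ := quen24 h
  refine ⟨c', hc', fun K B e hK he => ?_⟩
  obtain ⟨d₁, hd₁, n2, h2⟩ := meetE (B := B) h (show 0 ≤ K + 2 by linarith) (show 0 < e / 16 by positivity)
  obtain ⟨d₂, hd₂, n3, h3⟩ := meetS (B := B) h (show 0 ≤ K + 2 by linarith) (show 0 < e / 16 by positivity)
  obtain ⟨D, hD, n4, hep⟩ := ep_K h (show 0 ≤ K + 2 by linarith)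
  obtain ⟨n5, h5⟩ := eventually_atTop.1 (((tendsto_rpow_atTop hδ).comp tendsto_natCast_atTop_atTop).eventually_ge_atTop (K + 2))
  obtain ⟨n6, h6⟩ := eventually_atTop.1 (((tendsto_rpow_neg_atTop hc').comp
    tendsto_natCast_atTop_atTop).eventually_le_const (show (0 : ℝ) < e / 2 by positivity))
  obtain ⟨d, hd⟩ : ∃ d : ℝ, d = min (min d₁ d₂) 1 := ⟨_, rfl⟩
  have hd0 : 0 < d := by rw [hd]; exact lt_min (lt_min hd₁ hd₂) one_pos
  have hdd1 : d ≤ d₁ := by rw [hd]; exact (min_le_left _ _).trans (min_le_left _ _)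
  have hdd2 : d ≤ d₂ := by rw [hd]; exact (min_le_left _ _).trans (min_le_right _ _)
  have hd1 : d ≤ 1 := by rw [hd]; exact min_le_right _ _
  refine ⟨d, hd0, max (max (max n1 n2) (max n3 n4)) (max (max n5 n6) 1),
    fun n hn a b hab hbn hnab hna hnb x x' y y' hx hy hyx => ?_⟩
  have k1 : n1 ≤ n := (((le_max_left _ _).trans (le_max_left _ _)).trans (le_max_left _ _)).trans hn
  have k2 : n2 ≤ n := (((le_max_right _ _).trans (le_max_left _ _)).trans (le_max_left _ _)).trans hn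
  have k3 : n3 ≤ n := (((le_max_left _ _).trans (le_max_right _ _)).trans (le_max_left _ _)).trans hn
  have k4 : n4 ≤ n := (((le_max_right _ _).trans (le_max_right _ _)).trans (le_max_left _ _)).trans hn
  have k5 : n5 ≤ n := (((le_max_left _ _).trans (le_max_left _ _)).trans (le_max_right _ _)).trans hn
  have k6 : n6 ≤ n := (((le_max_right _ _).trans (le_max_left _ _)).trans (le_max_right _ _)).trans hn
  have k7 : 1 ≤ n := ((le_max_right _ _).trans (le_max_right _ _)).trans hn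
  have hw := h.wd_pos k7
  have hdw : d * wd μ s n ≤ wd μ s n := by
    have := mul_le_mul_of_nonneg_right hd1 hw.le
    linarith
  have hww : wd μ s n ≤ wd' μ s n := le_max_right _ _
  have hpow : K + 2 ≤ (n : ℝ) ^ δ := h5 n k5
  have hx2 := abs_le.1 hx
  have hy2 := abs_le.1 hy
  have hyx2 := abs_le.1 hyx
  push_cast at hx2 hy2 hyx2
  -- the three pairs are in the cone
  have hcone : ∀ u v : ℤ, |((v - u : ℤ) : ℝ) - sl μ s * n| ≤ (K + 2) * wd μ s n → CnD μ s δ n u v := by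
    intro u v huv
    obtain ⟨q1, q2, -⟩ := hep n k4 (v - u) huv
    refine ⟨by omega, by omega, huv.trans ?_⟩
    calc (K + 2) * wd μ s n ≤ (K + 2) * wd' μ s n := mul_le_mul_of_nonneg_left hww (by linarith)
      _ ≤ (n : ℝ) ^ δ * wd' μ s n := mul_le_mul_of_nonneg_right hpow (hw.le.trans hww)
  have e1 : |((y - x : ℤ) : ℝ) - sl μ s * n| ≤ (K + 2) * wd μ s n :=
    hyx.trans (mul_le_mul_of_nonneg_right (by linarith) hw.le)
  have e2 : |((y - x' : ℤ) : ℝ) - sl μ s * n| ≤ (K + 2) * wd μ s n := by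
    rw [abs_le]
    push_cast
    constructor <;> linarith [hx2.1, hx2.2, hyx2.1, hyx2.2]
  have e3 : |((y' - x' : ℤ) : ℝ) - sl μ s * n| ≤ (K + 2) * wd μ s n := by
    rw [abs_le]
    push_cast
    constructor <;> linarith [hx2.1, hx2.2, hy2.1, hy2.2, hyx2.1, hyx2.2]
  have m1 := hq n k1 a b hab hbn hnab x x' y y' (hcone x y e1) (hcone x' y e2) (hcone x' y' e3)
  have z0 : |((y - y : ℤ) : ℝ)| ≤ d₁ * wd μ s n := by
    rw [sub_self, Int.cast_zero, abs_zero]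
    positivity
  have z1 : |((x' - x' : ℤ) : ℝ)| ≤ d₂ * wd μ s n := by
    rw [sub_self, Int.cast_zero, abs_zero]
    positivity
  have m2 := law_PQ n x y x' y (NMt x x' 0 a) (h2 n a k2 (hab.trans hbn) hna x y x' y
    (hx.trans (mul_le_mul_of_nonneg_right hdd1 hw.le)) z0 e1)
  have m3 := law_PQ n x' y x' y' (NMt x' x' b n) (h3 n b k3 hbn hnb x' y x' y' z1
    (hy.trans (mul_le_mul_of_nonneg_right hdd2 hw.le)) e2)
  have hsub : {η : Env | Real.exp (-(n : ℝ) ^ c') < PQ μ s η n x y x' y' (NMt x x' a b)} ⊆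
      ({η | 1 / 4 < PQ μ s η n x y x' y (NMt x x' 0 a)} ∪ {η | 1 / 4 < PQ μ s η n x' y x' y' (NMt x' x' b n)}) ∪
      {η | PQ μ s η n x y x' y (NMt x x' 0 a) ≤ 1 / 4 ∧ PQ μ s η n x' y x' y' (NMt x' x' b n) ≤ 1 / 4 ∧
        Real.exp (-(n : ℝ) ^ c') < PQ μ s η n x y x' y' (NMt x x' a b)} := by
    intro η hη
    by_cases g1 : 1 / 4 < PQ μ s η n x y x' y (NMt x x' 0 a)
    · exact Or.inl (Or.inl g1)
    by_cases g2 : 1 / 4 < PQ μ s η n x' y x' y' (NMt x' x' b n)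
    · exact Or.inl (Or.inr g2)
    exact Or.inr ⟨not_lt.1 g1, not_lt.1 g2, hη⟩
  refine (measure_mono hsub).trans ((measure_union_le _ _).trans ((add_le_add ((measure_union_le _ _).trans (add_le_add m2 m3))
    m1).trans ?_))
  have hnn : 0 ≤ (n : ℝ) ^ (-c') := Real.rpow_nonneg (Nat.cast_nonneg n) _
  have h7 : (n : ℝ) ^ (-c') ≤ e / 2 := h6 n k6
  rw [← ENNReal.ofReal_add (by positivity) (by positivity), ← ENNReal.ofReal_add (by positivity) hnn]
  refine ENNReal.ofReal_le_ofReal ?_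
  linarith

end

end Pool.Agent.W_7d29a1_C1.MeetU35
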