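import Pool.Agent.W_7d29a1_C1.PathS21
import Pool.Agent.W_7d29a1_C1.HoneN74

/-!
Both halves (MP_7d29a1_pr), attractor route [C1], (Y) BY CORNERS: THE MIRROR FRAME. (helper99)

`wsh k w` : the rows above `k` are read one column to the right. Forward masses up to the row `k + 1` do not change, the backward
masses are moved: `bw (wsh k w) p i J y = bw w p i J (y + 1)`.
-/

set_option autoImplicit false
set_option linter.unusedSectionVars false

namespace Pool.Agent.W_7d29a1_C1.Mir99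

open Finset
open Pool.Agent.W_7d29a1_C1.K91 (shw)
open Pool.Agent.W_7d29a1_C1.K91P (fw bw shp bw_succ fw_succ)
open Pool.Agent.W_7d29a1_C1.R26P
open Pool.Agent.W_7d29a1_C1.F74
open Pool.Agent.W_7d29a1_C1.H1c

noncomputable section

variable {w : ℕ → ℤ → ℝ} {p : ℕ → ℝ} {l : ℤ → ℝ}

/-- The rows above `k` are moved one column. -/
def wsh (k : ℕ) (w : ℕ → ℤ → ℝ) (i : ℕ) (y : ℤ) : ℝ := if i ≤ k then w i y else w i (y + 1)

theorem wsh_le {k i : ℕ} (h : i ≤ k) : wsh k w i = w i := by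
  funext y
  exact if_pos h

theorem wsh_gt {k i : ℕ} (h : k < i) (y : ℤ) : wsh k w i y = w i (y + 1) := if_neg (by omega)

theorem wsh_pos (hw : ∀ k y, 0 < w k y) (k : ℕ) : ∀ i y, 0 < wsh k w i y := by
  intro i y
  unfold wsh
  split_ifs
  · exact hw _ _
  · exact hw _ _

/-- Backward masses behind the row `k`. -/
theorem bw_wsh (k : ℕ) : ∀ (J i : ℕ) (y : ℤ), k < i → bw (wsh k w) p i J y = bw w p i J (y + 1)
  | 0, _, _, _ => rfl
  | J + 1, i, y, h => by
    rw [bw_succ, bw_succ, bw_wsh k J (i + 1) y (by omega), bw_wsh k J (i + 1) (y + 1) (by omega), wsh_gt h]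

/-- Forward masses up to the row `k + 1`. -/
theorem fw_wsh (k : ℕ) : ∀ (i : ℕ), i ≤ k + 1 → fw (wsh k w) p l i = fw w p l i
  | 0, _ => rfl
  | i + 1, h => by
    funext y
    rw [fw_succ, fw_succ, fw_wsh k i (by omega), wsh_le (show i ≤ k by omega)]

/-- A later origin. -/
theorem shw_wsh (c0 K : ℕ) : shw (wsh (c0 + K) w) c0 = wsh K (shw w c0) := by
  funext i y
  show (if c0 + i ≤ c0 + K then w (c0 + i) y else w (c0 + i) (y + 1)) = (if i ≤ K then w (c0 + i) y else w (c0 + i) (y + 1))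
  by_cases h : i ≤ K
  · rw [if_pos h, if_pos (by omega)]
  · rw [if_neg h, if_neg (by omega)]

/-- Kernels up to the row `k + 1`. -/
theorem kf_wsh (c0 K n : ℕ) (h : n ≤ K + 1) (a y : ℤ) : kf (wsh (c0 + K) w) p c0 n a y = kf w p c0 n a y := by
  unfold kf
  rw [shw_wsh, fw_wsh K n h]

/-- The total of one start. -/
theorem bw_start {lo hi : ℤ} (c0 K J : ℕ) {a : ℤ} (h1 : lo ≤ a) (h2 : a + K < hi) :
    bw (wsh (c0 + K) w) p c0 (K + (J + 1)) a = ∑ y ∈ Icc lo hi, w (c0 + K) y * (kf w p c0 K a y *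
      (bw w p (c0 + K + 1) J (y + 1) + p (c0 + K) * bw w p (c0 + K + 1) J (y + 1 + 1))) := by
  have h := tot_n (w := wsh (c0 + K) w) (p := p) (c0 := c0) (K := K) (lo := lo) (hi := hi) (a := a) J h1 h2
  rw [← h]
  refine sum_congr rfl fun y _ => ?_
  rw [wsh_le le_rfl, kf_wsh c0 K K (by omega), bw_wsh (c0 + K) J (c0 + K + 1) y (by omega),
    bw_wsh (c0 + K) J (c0 + K + 1) (y + 1) (by omega)]

/-- The totals of the starts move by the ratio of neighbours. -/
theorem bw_start_le {lo hi : ℤ} {ρ : ℝ} (hw : ∀ k y, 0 < w k y) (hp : ∀ k, 0 < p k) (c0 K J : ℕ) {a : ℤ} (h1 : lo ≤ a)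
    (h2 : a + K < hi) (ri : ∀ y ∈ Icc lo (hi + 1), bw w p (c0 + K + 1) J (y - 1) ≤ ρ * bw w p (c0 + K + 1) J y ∧
      bw w p (c0 + K + 1) J (y + 1) ≤ ρ * bw w p (c0 + K + 1) J y) :
    bw (wsh (c0 + K) w) p c0 (K + (J + 1)) a ≤ ρ * bw w p c0 (K + (J + 1)) a ∧
      bw w p c0 (K + (J + 1)) a ≤ ρ * bw (wsh (c0 + K) w) p c0 (K + (J + 1)) a := by
  have e := tot_n (w := w) (p := p) (c0 := c0) (K := K) (lo := lo) (hi := hi) (a := a) J h1 h2
  rw [bw_start c0 K J h1 h2, ← e, mul_sum, mul_sum]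
  constructor
  · refine sum_le_sum fun y hy => ?_
    rw [mem_Icc] at hy
    have r1 := (ri y (mem_Icc.2 ⟨hy.1, by omega⟩)).2
    have r2 := (ri (y + 1) (mem_Icc.2 ⟨by omega, by omega⟩)).2
    have k0 := kf_nonneg hw hp c0 K a y
    have w0 := hw (c0 + K) y
    have p0 := hp (c0 + K)
    have c : 0 ≤ w (c0 + K) y * kf w p c0 K a y := mul_nonneg w0.le k0
    have d := mul_le_mul_of_nonneg_left (add_le_add r1 (mul_le_mul_of_nonneg_left r2 p0.le)) c
    linarith
  · refine sum_le_sum fun y hy => ?_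
    rw [mem_Icc] at hy
    by_cases hl : y = hi
    · rw [kf_zero c0 K (y := a) (x := y) (by omega)]
      simp
    have r1 := (ri (y + 1) (mem_Icc.2 ⟨by omega, by omega⟩)).1
    have r2 := (ri (y + 1 + 1) (mem_Icc.2 ⟨by omega, by omega⟩)).1
    rw [add_sub_cancel_right] at r1 r2
    have k0 := kf_nonneg hw hp c0 K a y
    have w0 := hw (c0 + K) y
    have p0 := hp (c0 + K)
    have c : 0 ≤ w (c0 + K) y * kf w p c0 K a y := mul_nonneg w0.le k0
    have d := mul_le_mul_of_nonneg_left (add_le_add r1 (mul_le_mul_of_nonneg_left r2 p0.le)) c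
    linarith

end

end Pool.Agent.W_7d29a1_C1.Mir99
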