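import Pool.Agent.W_7d29a1_C1.MirR99
import Pool.Agent.W_7d29a1_C1.Chi87
import Pool.Agent.W_7d29a1_C1.SigL54
import Pool.Agent.W_7d29a1_C1.PhiB74

/-!
Both halves (MP_7d29a1_pr), attractor route [C1], (Y) BY CORNERS: H1 FOR ONE CONTACT WITH THE SPLITTING, BOTH FRAMES. (helper99)

`chi_nr`, `chi_cw` : two near rows have the same splitting, in the mean against the weight of the contact. `SucN.chi` : the natural frame.
`SucN.mir` : a success of the row `k`, and its two distances with the profiles read one column to the right, is a success of the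
environment `wsh k w`. `FinS` : the inner functional. `near_spl` : one contact of the total functional `PhS`.
-/

set_option autoImplicit false
set_option linter.unusedSectionVars false

namespace Pool.Agent.W_7d29a1_C1.Mir99

open Finset MeasureTheory
open Pool.Agent.W_7d29a1_F
open Pool.Agent.W_7d29a1_C1.K91 (shw Box Grp wt wt_pos zs)
open Pool.Agent.W_7d29a1_C1.K97
open Pool.Agent.W_7d29a1_C1.L91
open Pool.Agent.W_7d29a1_C1.K91P (fw bw shp bw_pos bw_succ fw_succ bw_comp dp GG)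
open Pool.Agent.W_7d29a1_C1.R26P
open Pool.Agent.W_7d29a1_C1.F74
open Pool.Agent.W_7d29a1_C1.H1c
open Pool.Agent.W_7d29a1_C1.H60
open Pool.Agent.W_7d29a1_C1.H60.Cx (l uc mem_rows)
open Pool.Agent.W_7d29a1_C1.Ch87
open Pool.Agent.W_7d29a1_C1.H54 (sg spl PhS wt_sg_le wt_sg_gt)

noncomputable section

/-! ### The splitting of two near rows -/

section chi

variable {lo hi q : ℤ} {p : ℝ} {wk m f m' f' ml mr : ℤ → ℝ} {eta T κ κ' : ℝ}

/-- Two near rows: the share of the left neighbour times the difference of the splittings. -/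
theorem chi_nr (hp : 0 < p) (hw : ∀ y, 0 < wk y) (hf : ∀ y, 0 < f y) (hf' : ∀ y, 0 < f' y)
    (N : Nr lo hi p wk m f m' f' q eta T) (T0 : 0 < T) (e1 : (1 + p) * eta ≤ 1 / 2) (h1 : q - 1 ∈ Icc lo hi) :
    m (q - 1) * wk (q - 1) * (f (q - 1) + p * f q) * |chi p f q - chi p f' q| ≤ 4 * ((1 + p) * eta) * rz lo hi p wk m f q := by
  have hm := N.m0 (q - 1)
  have hm' := N.m0' (q - 1)
  have w1 := hw (q - 1)
  have a0 : 0 < p * f q := mul_pos hp (hf q)
  have b0 := hf (q - 1)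
  have a0' : 0 < p * f' q := mul_pos hp (hf' q)
  have b0' := hf' (q - 1)
  have ea := ds_r (lo := lo) (hi := hi) (m := m) (f := f) (m' := m') (f' := f') hw h1
  have eb := ds_c (lo := lo) (hi := hi) (m := m) (f := f) (m' := m') (f' := f') hw h1
  rw [sub_add_cancel] at ea
  have d := N.d
  have z := N.z
  have rd := rz_ds (lo := lo) (hi := hi) (m := m) (f := f) (m' := m') (f' := f') (q := q) hp hw
  have eT : (1 + p) * ds lo hi wk m f m' f' ≤ (1 + p) * eta * T := by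
    have := mul_le_mul_of_nonneg_left d (show 0 ≤ 1 + p by linarith)
    linarith
  have e0 : (1 + p) * eta * T ≤ 1 / 2 * T := mul_le_mul_of_nonneg_right e1 T0.le
  have Z2 : T ≤ 2 * rz lo hi p wk m f q := by
    have := (abs_le.1 rd).1
    linarith
  -- the difference of the splittings
  set a := p * f q with ha
  set b := f (q - 1) with hb
  set a' := p * f' q with ha'
  set b' := f' (q - 1) with hb'
  have key : m (q - 1) * (a + b) * |chi p f q - chi p f' q| ≤ 2 * (|m (q - 1) * a - m' (q - 1) * a'| + |m (q - 1) * b - m' (q - 1) * b'|) := by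
    have c1 : chi p f q - chi p f' q = (a * b' - a' * b) * (a * b' + a' * b) / ((a ^ 2 + b ^ 2) * (a' ^ 2 + b' ^ 2)) := by
      unfold chi
      rw [← ha, ← hb, ← ha', ← hb']
      have h1 : a ^ 2 + b ^ 2 ≠ 0 := by positivity
      have h2 : a' ^ 2 + b' ^ 2 ≠ 0 := by positivity
      field_simp
      ring
    have D0 : 0 < (a ^ 2 + b ^ 2) * (a' ^ 2 + b' ^ 2) := by positivity
    have c2 : m (q - 1) * |a * b' - a' * b| ≤ (|m (q - 1) * a - m' (q - 1) * a'| + |m (q - 1) * b - m' (q - 1) * b'|) * (a' + b') := by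
      have e : m (q - 1) * (a * b' - a' * b) = (m (q - 1) * a - m' (q - 1) * a') * b' - a' * (m (q - 1) * b - m' (q - 1) * b') := by ring
      have e2 : m (q - 1) * |a * b' - a' * b| = |m (q - 1) * (a * b' - a' * b)| := by rw [abs_mul, abs_of_nonneg hm]
      rw [e2, e]
      refine (abs_sub _ _).trans ?_
      rw [abs_mul, abs_mul, abs_of_pos b0', abs_of_pos a0']
      have u1 := abs_nonneg (m (q - 1) * a - m' (q - 1) * a')
      have u2 := abs_nonneg (m (q - 1) * b - m' (q - 1) * b')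
      have u3 := mul_nonneg u1 a0'.le
      have u4 := mul_nonneg u2 b0'.le
      linarith
    set S := |m (q - 1) * a - m' (q - 1) * a'| + |m (q - 1) * b - m' (q - 1) * b'| with hS
    have S0 : 0 ≤ S := add_nonneg (abs_nonneg _) (abs_nonneg _)
    rw [c1, abs_div, abs_mul, abs_of_pos D0, abs_of_pos (show 0 < a * b' + a' * b by positivity), ← mul_div_assoc, div_le_iff₀ D0]
    have c3 : (a + b) * (a * b' + a' * b) * (a' + b') ≤ 2 * ((a ^ 2 + b ^ 2) * (a' ^ 2 + b' ^ 2)) := by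
      nlinarith [sq_nonneg (a - b), sq_nonneg (a' - b'), sq_nonneg (a * b' - a' * b), sq_nonneg (a * a' - b * b'), mul_pos a0 b0,
        mul_pos a0' b0', mul_pos a0 a0', mul_pos b0 b0', mul_pos a0 b0', mul_pos b0 a0',
        mul_nonneg (sq_nonneg (a - b)) (sq_nonneg (a' + b')), mul_nonneg (sq_nonneg (a' - b')) (sq_nonneg (a + b)),
        mul_nonneg (sq_nonneg (a - b)) (sq_nonneg (a' - b'))]
    calc m (q - 1) * (a + b) * (|a * b' - a' * b| * (a * b' + a' * b))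
        = (a + b) * (a * b' + a' * b) * (m (q - 1) * |a * b' - a' * b|) := by ring
      _ ≤ (a + b) * (a * b' + a' * b) * (S * (a' + b')) := mul_le_mul_of_nonneg_left c2 (by positivity)
      _ = S * ((a + b) * (a * b' + a' * b) * (a' + b')) := by ring
      _ ≤ S * (2 * ((a ^ 2 + b ^ 2) * (a' ^ 2 + b' ^ 2))) := mul_le_mul_of_nonneg_left c3 S0
      _ = 2 * S * ((a ^ 2 + b ^ 2) * (a' ^ 2 + b' ^ 2)) := by ring
  have ka : wk (q - 1) * |m (q - 1) * a - m' (q - 1) * a'| ≤ p * ds lo hi wk m f m' f' := by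
    have e : m (q - 1) * a - m' (q - 1) * a' = p * (m (q - 1) * f q - m' (q - 1) * f' q) := by
      rw [ha, ha']
      ring
    rw [e, abs_mul, abs_of_pos hp]
    have := mul_le_mul_of_nonneg_left ea hp.le
    linarith
  have k2 := mul_le_mul_of_nonneg_left key w1.le
  have e3 : m (q - 1) * wk (q - 1) * (b + a) * |chi p f q - chi p f' q| = wk (q - 1) * (m (q - 1) * (a + b) * |chi p f q - chi p f' q|) := by
    ring
  rw [e3]
  have e4 : wk (q - 1) * (2 * (|m (q - 1) * a - m' (q - 1) * a'| + |m (q - 1) * b - m' (q - 1) * b'|)) ≤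
      2 * ((1 + p) * ds lo hi wk m f m' f') := by
    linarith
  have eta0 : 0 ≤ (1 + p) * eta := by
    have h3 := ds_nonneg (lo := lo) (hi := hi) (m := m) (f := f) (m' := m') (f' := f') hw
    have h4 : 0 ≤ eta * T := h3.trans d
    have h5 : 0 ≤ eta := by
      by_contra hc
      have := mul_neg_of_neg_of_pos (not_le.1 hc) T0
      linarith
    positivity
  have e5 : 2 * ((1 + p) * eta * T) ≤ 4 * ((1 + p) * eta) * rz lo hi p wk m f q := by
    have := mul_le_mul_of_nonneg_left Z2 eta0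
    linarith
  linarith

/-- **The splitting against the weight of the contact.** -/
theorem chi_cw (C : Cutd lo hi p wk ml mr f q κ κ') (hf' : ∀ y, 0 < f' y) (N : Nr lo hi p wk ml f m' f' q eta T) (T0 : 0 < T)
    (e1 : (1 + p) * eta ≤ 1 / 2) : cw lo hi p wk ml mr f q * |chi p f q - chi p f' q| ≤ 4 * p * ((1 + p) * eta) := by
  have hp := C.p0
  have k1 := chi_nr hp C.w0 C.f0 hf' N T0 e1 C.q1
  have k2 := rz_right (lo := lo) (hi := hi) (q := q) hp C.w0 C.f0 C.r0 C.q2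
  have w1 := C.w0 (q - 1)
  have w2 := C.w0 q
  have l1 := C.l0 (q - 1)
  have l2 := C.l0 q
  have r1 := C.r0 (q - 1)
  have r2 := C.r0 q
  have zl := C.zl
  have zr := C.zr
  have f1 := C.f0 (q - 1)
  have f2 := C.f0 q
  have G0 : 0 < f (q - 1) + p * f q := by positivity
  set G := f (q - 1) + p * f q with hG
  set x := |chi p f q - chi p f' q| with hx
  have x0 : 0 ≤ x := abs_nonneg _
  have hdw : dw p wk ml mr f q ≤ p * ((ml (q - 1) * wk (q - 1) * G) * (mr q * wk q * G)) := by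
    unfold dw
    rw [← hG]
    have : 0 ≤ ml q * mr (q - 1) * (p * (wk (q - 1) * wk q)) * G ^ 2 := by positivity
    linarith
  have eta0 : 0 ≤ 4 * ((1 + p) * eta) := by
    by_contra hc
    have h1 := mul_neg_of_neg_of_pos (not_le.1 hc) zl
    have h2 : 0 ≤ ml (q - 1) * wk (q - 1) * G * x := by positivity
    linarith
  unfold L91.cw
  rw [div_mul_eq_mul_div, div_le_iff₀ (mul_pos zl zr)]
  calc dw p wk ml mr f q * x ≤ p * ((ml (q - 1) * wk (q - 1) * G) * (mr q * wk q * G)) * x := mul_le_mul_of_nonneg_right hdw x0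
    _ = p * ((ml (q - 1) * wk (q - 1) * G * x) * (mr q * wk q * G)) := by ring
    _ ≤ p * ((4 * ((1 + p) * eta) * rz lo hi p wk ml f q) * rz lo hi p wk mr f q) := by
        refine mul_le_mul_of_nonneg_left ?_ hp.le
        exact mul_le_mul k1 k2 (by positivity) (mul_nonneg eta0 zl.le)
    _ = 4 * p * ((1 + p) * eta) * (rz lo hi p wk ml f q * rz lo hi p wk mr f q) := by ring

end chi

/-! ### A success, natural frame -/

variable {w : ℕ → ℤ → ℝ} {p : ℕ → ℝ} {lo hi : ℤ} {c0 K J k : ℕ} {a1 a2 q : ℤ} {l' r f : ℤ → ℝ}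
  {A1 A2 B1 B2 KK kap eta ρ R1 M : ℝ}

/-- The error of the splitting. -/
theorem SucN.dchi {κ κ' : ℝ} (hw : ∀ k y, 0 < w k y) (hp : ∀ k, 0 < p k)
    (S : SucN w p lo hi l' r c0 K J k f a1 a2 q A1 A2 B1 B2 KK kap eta ρ R1 M)
    (C : Cutd lo hi (p k) (w k) (fw w p l' k) (fw w p r k) f q κ κ') :
    |Cc lo hi (p k) (w k) (fw w p l' k) (fw w p r k) f q| *
      |chi (p k) f q - chi (p k) (bw (shw w c0) (shp p c0) (K + 1) J) q| ≤ Kl (p k) κ κ' * (4 * p k * ((1 + p k) * eta)) := by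
  obtain ⟨T, T0, N⟩ := S.nl
  have i0 : ∀ y, 0 < KK * bw w p (k + 1) J y := fun y => mul_pos S.KKp (bw_pos hw hp _ _ _)
  have h1 := chi_cw C i0 N T0 S.e1
  have e : chi (p k) (fun y => KK * bw w p (k + 1) J y) q = chi (p k) (bw (shw w c0) (shp p c0) (K + 1) J) q := by
    rw [chi_smul S.KKp.ne']
    have e1 : bw w p (k + 1) J = bw (shw w c0) (shp p c0) (K + 1) J := by
      rw [S.hk]
      funext y
      exact bw_comp c0 J (K + 1) y
    rw [← e1]
  rw [e] at h1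
  have h2 := abs_Cc C
  have K0 : 0 ≤ Kl (p k) κ κ' := Kl_nonneg C.p0 C.k1 C.k1'
  calc _ ≤ Kl (p k) κ κ' * cw lo hi (p k) (w k) (fw w p l' k) (fw w p r k) f q *
        |chi (p k) f q - chi (p k) (bw (shw w c0) (shp p c0) (K + 1) J) q| := mul_le_mul_of_nonneg_right h2 (abs_nonneg _)
    _ = Kl (p k) κ κ' * (cw lo hi (p k) (w k) (fw w p l' k) (fw w p r k) f q *
        |chi (p k) f q - chi (p k) (bw (shw w c0) (shp p c0) (K + 1) J) q|) := by ring
    _ ≤ _ := mul_le_mul_of_nonneg_left h1 K0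

/-- **A success in the mirror frame.** -/
theorem SucN.mir {kap' eta' ρ' : ℝ} (hw : ∀ k y, 0 < w k y) (hp : ∀ k, 0 < p k)
    (S : SucN w p lo hi l' r c0 K J k f a1 a2 q A1 A2 B1 B2 KK kap eta ρ R1 M)
    (e0 : 0 ≤ eta') (e1 : (1 + p k) * eta' ≤ 1 / 2)
    (nl : ∃ T, 0 < T ∧ Nr lo hi (p k) (w k) (fw w p l' k) (fun y => f (y + 1))
      (fun y => A1 * kf w p c0 K a1 y + A2 * kf w p c0 K a2 y) (fun y => KK * bw w p (k + 1) J (y + 1)) q eta' T)
    (nr : ∃ T, 0 < T ∧ Nr lo hi (p k) (w k) (fw w p r k) (fun y => f (y + 1))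
      (fun y => B1 * kf w p c0 K a1 y + B2 * kf w p c0 K a2 y) (fun y => KK * bw w p (k + 1) J (y + 1)) q eta' T)
    (ρ1 : 1 ≤ ρ') (ri : ∀ y ∈ Icc lo (hi + 1), bw w p (k + 1) J (y - 1) ≤ ρ' * bw w p (k + 1) J y ∧
      bw w p (k + 1) J (y + 1) ≤ ρ' * bw w p (k + 1) J y)
    (hk : kap ≤ kap') (hρ : ρ' ≤ kap') (g1 : f q ≤ kap' * f (q + 1)) (g2 : f (q + 1) ≤ kap' * f q)
    (hM : Real.log (rrn (p k) ρ' (ρ' ^ 2 * R1)) + 1 ≤ M) :
    SucN (wsh k w) p lo hi l' r c0 K J k (fun y => f (y + 1)) a1 a2 q A1 A2 B1 B2 KK kap' eta' ρ' (ρ' ^ 2 * R1) M := by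
  obtain ⟨rfl, G1, G2, G3, A1p, A2p, B1p, B2p, K0, f0, G, G', _, _, _, _, _, _, r1, t12, t21, w1, w2, _⟩ := S
  have eb : bw (wsh (c0 + K) w) p (c0 + K + 1) J = fun y => bw w p (c0 + K + 1) J (y + 1) :=
    funext fun y => bw_wsh (c0 + K) J (c0 + K + 1) y (by omega)
  have ek : kf (wsh (c0 + K) w) p c0 K = kf w p c0 K := by
    funext a y
    exact kf_wsh c0 K K (by omega) a y
  have ew : wsh (c0 + K) w (c0 + K) = w (c0 + K) := wsh_le le_rfl
  have efl : fw (wsh (c0 + K) w) p l' (c0 + K) = fw w p l' (c0 + K) := fw_wsh (c0 + K) (c0 + K) (by omega)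
  have efr : fw (wsh (c0 + K) w) p r (c0 + K) = fw w p r (c0 + K) := fw_wsh (c0 + K) (c0 + K) (by omega)
  have kap1 : 1 ≤ kap' := G.k1.trans hk
  have q1 := mem_Icc.1 G.q1
  have q2 := mem_Icc.1 G.q2
  have i0 : ∀ y, 0 < bw w p (c0 + K + 1) J y := fun y => bw_pos hw hp _ _ y
  have wl : 1 ≤ kap' * w (c0 + K) (q - 1) := G.wl.trans (mul_le_mul_of_nonneg_right hk (hw _ _).le)
  have wr : 1 ≤ kap' * w (c0 + K) q := G.wr.trans (mul_le_mul_of_nonneg_right hk (hw _ _).le)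
  have Kz : (0 : ℤ) ≤ (K : ℤ) := by positivity
  have s1 := bw_start_le hw hp c0 K J G1 (show a1 + (K : ℤ) < hi by omega) ri
  have s2 := bw_start_le hw hp c0 K J (show lo ≤ a2 by omega) G3 ri
  have ρ0 : 0 < ρ' := by linarith
  have R0 : 0 < R1 := by linarith
  have tt : ∀ x y x' y' : ℝ, 0 ≤ y' → x' ≤ ρ' * x → x ≤ R1 * y → y ≤ ρ' * y' → x' ≤ ρ' ^ 2 * R1 * y' := by
    intro x y x' y' h0 h1 h2 h3
    have a := mul_le_mul_of_nonneg_left h2 ρ0.le
    have b := mul_le_mul_of_nonneg_left h3 (mul_nonneg ρ0.le R0.le)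
    linarith
  refine
    { hk := rfl
      g1 := G1
      g2 := G2
      g3 := G3
      A1p := A1p
      A2p := A2p
      B1p := B1p
      B2p := B2p
      KKp := K0
      f0 := fun y => f0 (y + 1)
      G := ?_
      G' := ?_
      eta0 := e0
      e1 := e1
      nl := ?_
      nr := ?_
      ρ1 := ρ1
      ri := ?_
      r1 := ?_
      t12 := tt _ _ _ _ (bw_pos (wsh_pos hw _) hp _ _ _).le s1.1 t12 s2.2
      t21 := tt _ _ _ _ (bw_pos (wsh_pos hw _) hp _ _ _).le s2.1 t21 s1.2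
      w1 := w1
      w2 := w2
      hM := hM }
  · rw [ew]
    refine ⟨kap1, G.q1, G.q2, wl, wr, G.wl2.trans hk, G.wr2.trans hk, ?_, ?_⟩
    · show f (q - 1 + 1) ≤ kap' * f (q + 1)
      rw [sub_add_cancel]
      exact g1
    · show f (q + 1) ≤ kap' * f (q - 1 + 1)
      rw [sub_add_cancel]
      exact g2
  · rw [ew, eb]
    refine ⟨kap1, G.q1, G.q2, wl, wr, G.wl2.trans hk, G.wr2.trans hk, ?_, ?_⟩
    · show bw w p (c0 + K + 1) J (q - 1 + 1) ≤ kap' * bw w p (c0 + K + 1) J (q + 1)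
      rw [sub_add_cancel]
      have r := (ri (q + 1) (mem_Icc.2 ⟨by omega, by omega⟩)).1
      rw [add_sub_cancel_right] at r
      exact r.trans (mul_le_mul_of_nonneg_right hρ (i0 _).le)
    · show bw w p (c0 + K + 1) J (q + 1) ≤ kap' * bw w p (c0 + K + 1) J (q - 1 + 1)
      rw [sub_add_cancel]
      have r := (ri q (mem_Icc.2 ⟨by omega, by omega⟩)).2
      exact r.trans (mul_le_mul_of_nonneg_right hρ (i0 _).le)
  · rw [ew, efl, ek, eb]
    exact nl
  · rw [ew, efr, ek, eb]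
    exact nr
  · intro y hy
    rw [mem_Icc] at hy
    rw [eb]
    have r := ri (y + 1) (mem_Icc.2 ⟨by omega, by omega⟩)
    show bw w p (c0 + K + 1) J (y - 1 + 1) ≤ ρ' * bw w p (c0 + K + 1) J (y + 1) ∧
      bw w p (c0 + K + 1) J (y + 1 + 1) ≤ ρ' * bw w p (c0 + K + 1) J (y + 1)
    rw [show y - 1 + 1 = y + 1 - 1 by ring]
    exact r
  · have h2 : 1 ≤ ρ' ^ 2 := one_le_pow₀ ρ1
    have h3 := mul_le_mul h2 r1 zero_le_one (by positivity)
    linarith

/-! ### The inner functional -/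

/-- **The inner functional of one contact, both frames.** -/
def FinS (W : ℕ → ℤ → ℝ) (P : ℕ → ℝ) (K J : ℕ) (a1 a2 q : ℤ) : ℝ :=
  Fin W P K J a1 a2 q * chi (P K) (bw W P (K + 1) J) q +
    Fin (wsh K W) P K J a1 a2 q * (1 - chi (P K) (bw (wsh K W) P (K + 1) J) q)

variable {Γ : Cx} {η : Env} {D : ℕ}

theorem wt_sg (η : Env) (k : ℕ) : wt (sg k η) = wsh k (wt η) := by
  funext i y
  by_cases h : i ≤ k
  · rw [wt_sg_le η h, wsh_le h]
  · rw [wt_sg_gt η (by omega), wsh_gt (by omega)]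

/-- The error of one contact, one frame. -/
def ecs (pk kap e rr K M : ℝ) : ℝ := ect pk kap e rr K M + K * (4 * pk * ((1 + pk) * e))

/-- One frame. -/
theorem near_chi (h : Γ.Ok) (η : Env) (hK : K < D) (hD : c0 + D ≤ Γ.N) {x : ℤ} (hx : x ∈ Icc (1 : ℤ) (1 + Γ.N)) {u X : ℝ}
    (hu : uc (c0 + K, x) η ≤ u) (hX : |Real.log (fC Γ η (c0 + K) (x - 1)) - Real.log (fC Γ η (c0 + K) x)| ≤ X)
    (S : SucN (wt η) Γ.p 0 Γ.hi l Γ.r c0 K (D - (K + 1)) (c0 + K) (fC Γ η (c0 + K)) a1 a2 x A1 A2 B1 B2 KK kap eta ρ R1 M)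
    {y y' : ℝ} (hy : (y = chiC Γ (c0 + K, x) η ∧ y' = chi (Γ.p (c0 + K)) (bw (shw (wt η) c0) (shp Γ.p c0) (K + 1) (D - (K + 1))) x) ∨
      (y = 1 - chiC Γ (c0 + K, x) η ∧ y' = 1 - chi (Γ.p (c0 + K)) (bw (shw (wt η) c0) (shp Γ.p c0) (K + 1) (D - (K + 1))) x)) :
    |Γ.C (c0 + K, x) η * y - Fin (shw (wt η) c0) (shp Γ.p c0) K (D - (K + 1)) a1 a2 x * y'| ≤
      ecs (Γ.p (c0 + K)) kap eta (rrn (Γ.p (c0 + K)) ρ R1) (KC Γ (c0 + K) u X) M := by
  have hi : c0 + K < Γ.N := by omega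
  have C := cutdC h.msk η hi hx hu hX
  have k1 := S.ct (wt_pos η) L91.p_pos C
  have k2 := SucN.dchi (wt_pos η) L91.p_pos S C
  rw [← C_eq h.msk η hi hx] at k1 k2
  have ec : chiC Γ (c0 + K, x) η = chi (Γ.p (c0 + K)) (fC Γ η (c0 + K)) x := rfl
  rw [← ec] at k2
  have b0 := chi_nonneg (Γ.p (c0 + K)) (bw (shw (wt η) c0) (shp Γ.p c0) (K + 1) (D - (K + 1))) x
  have b1 := chi_le_one (Γ.p (c0 + K)) (bw (shw (wt η) c0) (shp Γ.p c0) (K + 1) (D - (K + 1))) x
  unfold ecs ect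
  have hy0 : 0 ≤ y' := by
    rcases hy with hy | hy <;> rw [hy.2] <;> linarith
  have hy1 : y' ≤ 1 := by
    rcases hy with hy | hy <;> rw [hy.2] <;> linarith
  have hd : |y - y'| = |chiC Γ (c0 + K, x) η - chi (Γ.p (c0 + K)) (bw (shw (wt η) c0) (shp Γ.p c0) (K + 1) (D - (K + 1))) x| := by
    rcases hy with hy | hy
    · rw [hy.1, hy.2]
    · rw [hy.1, hy.2, ← abs_neg]
      congr 1
      ring
  have e : Γ.C (c0 + K, x) η * y - Fin (shw (wt η) c0) (shp Γ.p c0) K (D - (K + 1)) a1 a2 x * y' =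
      (Γ.C (c0 + K, x) η - Fin (shw (wt η) c0) (shp Γ.p c0) K (D - (K + 1)) a1 a2 x) * y' + Γ.C (c0 + K, x) η * (y - y') := by ring
  rw [e]
  refine (abs_add_le _ _).trans (add_le_add ?_ ?_)
  · rw [abs_mul, abs_of_nonneg hy0]
    exact (mul_le_of_le_one_right (abs_nonneg _) hy1).trans k1
  · rw [abs_mul, hd]
    exact k2

/-- **H1 FOR ONE CONTACT OF THE SPLIT FUNCTIONAL**: natural frame at `η`, mirror frame at `sg (c0 + K) η`. -/
theorem near_spl (h : Γ.Ok) (η : Env) (hK : K < D) (hD : c0 + D ≤ Γ.N) {x : ℤ} (hx : x ∈ Icc (1 : ℤ) (1 + Γ.N)) {u X X' : ℝ}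
    (hu : uc (c0 + K, x) η ≤ u) (hX : |Real.log (fC Γ η (c0 + K) (x - 1)) - Real.log (fC Γ η (c0 + K) x)| ≤ X)
    (hX' : |Real.log (fC Γ η (c0 + K) x) - Real.log (fC Γ η (c0 + K) (x + 1))| ≤ X')
    (S : SucN (wt η) Γ.p 0 Γ.hi l Γ.r c0 K (D - (K + 1)) (c0 + K) (fC Γ η (c0 + K)) a1 a2 x A1 A2 B1 B2 KK kap eta ρ R1 M)
    {C1 C2 D1 D2 L1 kap' eta' ρ' R1' M' : ℝ}
    (S' : SucN (wsh (c0 + K) (wt η)) Γ.p 0 Γ.hi l Γ.r c0 K (D - (K + 1)) (c0 + K) (fun y => fC Γ η (c0 + K) (y + 1)) a1 a2 x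
      C1 C2 D1 D2 L1 kap' eta' ρ' R1' M') :
    |spl (c0 + K, x) (chiC Γ (c0 + K, x)) (Γ.C (c0 + K, x)) η -
        FinS (shw (wt η) c0) (shp Γ.p c0) K (D - (K + 1)) a1 a2 x| ≤
      ecs (Γ.p (c0 + K)) kap eta (rrn (Γ.p (c0 + K)) ρ R1) (KC Γ (c0 + K) u X) M +
        ecs (Γ.p (c0 + K)) kap' eta' (rrn (Γ.p (c0 + K)) ρ' R1') (KC Γ (c0 + K) u X') M' := by
  have k1 := near_chi h η hK hD hx hu hX S (y := _) (y' := _) (Or.inl ⟨rfl, rfl⟩)
  have ef : fC Γ (sg (c0 + K) η) (c0 + K) = fun y => fC Γ η (c0 + K) (y + 1) :=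
    funext fun y => H54.fC_sg Γ η (c0 + K) y
  have hu' : uc (c0 + K, x) (sg (c0 + K) η) ≤ u := by
    refine le_of_eq_of_le ?_ hu
    show |Real.log (wt (sg (c0 + K) η) (c0 + K) (x - 1)) - Real.log (wt (sg (c0 + K) η) (c0 + K) x)| =
      |Real.log (wt η (c0 + K) (x - 1)) - Real.log (wt η (c0 + K) x)|
    rw [wt_sg_le η le_rfl, wt_sg_le η le_rfl]
  have S2 : SucN (wt (sg (c0 + K) η)) Γ.p 0 Γ.hi l Γ.r c0 K (D - (K + 1)) (c0 + K) (fC Γ (sg (c0 + K) η) (c0 + K)) a1 a2 x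
      C1 C2 D1 D2 L1 kap' eta' ρ' R1' M' := by
    rw [ef, wt_sg]
    exact S'
  have hX2 : |Real.log (fC Γ (sg (c0 + K) η) (c0 + K) (x - 1)) - Real.log (fC Γ (sg (c0 + K) η) (c0 + K) x)| ≤ X' := by
    rw [ef]
    show |Real.log (fC Γ η (c0 + K) (x - 1 + 1)) - Real.log (fC Γ η (c0 + K) (x + 1))| ≤ X'
    rw [sub_add_cancel]
    exact hX'
  have k2 := near_chi h (sg (c0 + K) η) hK hD hx hu' hX2 S2 (y := _) (y' := _) (Or.inr ⟨rfl, rfl⟩)
  rw [wt_sg, shw_wsh] at k2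
  have e : spl (c0 + K, x) (chiC Γ (c0 + K, x)) (Γ.C (c0 + K, x)) η - FinS (shw (wt η) c0) (shp Γ.p c0) K (D - (K + 1)) a1 a2 x =
      (Γ.C (c0 + K, x) η * chiC Γ (c0 + K, x) η - Fin (shw (wt η) c0) (shp Γ.p c0) K (D - (K + 1)) a1 a2 x *
        chi (Γ.p (c0 + K)) (bw (shw (wt η) c0) (shp Γ.p c0) (K + 1) (D - (K + 1))) x) +
      (Γ.C (c0 + K, x) (sg (c0 + K) η) * (1 - chiC Γ (c0 + K, x) (sg (c0 + K) η)) -
        Fin (wsh K (shw (wt η) c0)) (shp Γ.p c0) K (D - (K + 1)) a1 a2 x *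
        (1 - chi (Γ.p (c0 + K)) (bw (wsh K (shw (wt η) c0)) (shp Γ.p c0) (K + 1) (D - (K + 1))) x)) := by
    unfold FinS spl
    show _ - (_ * chi (Γ.p (c0 + K)) _ _ + _ * (1 - chi (Γ.p (c0 + K)) _ _)) = _
    ring
  rw [e]
  exact (abs_add_le _ _).trans (add_le_add k1 k2)

end

end Pool.Agent.W_7d29a1_C1.Mir99
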