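import Mathlib

/-!
Both halves (MP_7d29a1_pr), attractor route: MOVE THE CONTACT, the integrated move inequality (field `early_le` of
`RenData`) from the pointwise one at the OLD environment (helper9 75849, helper28 75715, helper87 76282). (helper49)
-/

set_option autoImplicit false

namespace Pool.Agent.W_7d29a1_C1.H49

open MeasureTheory Finset
open scoped ENNReal

variable {Ω : Type*} [MeasurableSpace Ω] {P : Measure Ω}

/-- THE MOVE. Sites `ρ : X`, cells `κ : K s`, `cel s ρ` = the cell of `ρ`; `R s κ η ω` = `ω` with the slab behind `κ` taken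
from `η`; `N s κ` = the old content of this slab is good enough (typical or lucky), `L s κ` = it is lucky; `F ρ` = what has
been moved to `ρ`. (1) Pointwise, at the first scale `s` of `[t, k)` which is good at `ρ`: what is moved into the cell is at
most `q s` times (new weight of the sites of `nb s κ`) times `hh s κ ρ'` at the OLD `ω`. (2) Price: `hz`. (3) `none`. -/
theorem moved [SFinite P] {X : Type*} [Fintype X] {K : ℕ → Type*} [∀ u, Fintype (K u)] {t k : ℕ} {cel : ∀ u, X → K u}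
    {R : ∀ u, K u → Ω → Ω → Ω} {N L : ∀ u, K u → Set Ω} {w : X → Ω → ℝ≥0∞} {nb : ∀ s, K s → Finset X}
    {F g : X → Ω → ℝ≥0∞} {hh : ∀ s, K s → X → Ω → ℝ≥0∞} {q z : ℕ → ℝ≥0∞} {p zn : ℝ≥0∞} {C' : ℕ}
    (mR : ∀ s κ, Measurable fun x : Ω × Ω => R s κ x.1 x.2)
    (mN : ∀ s κ, MeasurableSet (N s κ)) (mL : ∀ s κ, MeasurableSet (L s κ)) (mw : ∀ x, Measurable (w x))
    (mF : ∀ ρ, Measurable (F ρ)) (mh : ∀ s κ ρ, Measurable (hh s κ ρ))
    (hp : p ≠ 0) (hp' : p ≠ ⊤)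
    (mult : ∀ s x, ∀ S : Finset (K s), (∀ κ ∈ S, x ∈ nb s κ) → S.card ≤ C')
    (prob : ∀ s ∈ Ico t k, ∀ κ, ∀ ω ∈ N s κ, p ≤ P {η | R s κ η ω ∈ L s κ})
    (early : ∀ s ∈ Ico t k, ∀ κ : K s, ∀ ω ∈ N s κ, ∀ η, R s κ η ω ∈ L s κ →
      ∑ ρ, {ω | cel s ρ = κ ∧ ∀ u ∈ Ico t s, ω ∉ N u (cel u ρ)}.indicator (F ρ) ω ≤
        q s * ∑ ρ ∈ nb s κ, w ρ (R s κ η ω) * hh s κ ρ ω)
    (hz : ∀ s ∈ Ico t k, ∀ κ : K s, ∀ ρ ∈ nb s κ,
      ∫⁻ ω in N s κ, hh s κ ρ ω * ∫⁻ η, (L s κ).indicator (w ρ) (R s κ η ω) ∂P ∂P ≤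
        z s * ∫⁻ ω, w ρ ω * g ρ ω ∂P)
    (none : ∑ ρ, ∫⁻ ω in {ω | ∀ u ∈ Ico t k, ω ∉ N u (cel u ρ)}, F ρ ω ∂P ≤ zn * ∑ x, ∫⁻ ω, w x ω * g x ω ∂P) :
    ∑ ρ, ∫⁻ ω, F ρ ω ∂P ≤ (∑ s ∈ Ico t k, p⁻¹ * q s * C' * z s + zn) * ∑ x, ∫⁻ ω, w x ω * g x ω ∂P := by
  classical
  set V := ∑ x, ∫⁻ ω, w x ω * g x ω ∂P with hV
  set G : X → ℕ → Set Ω := fun ρ s => {ω | ∀ u ∈ Ico t s, ω ∉ N u (cel u ρ)} with hG
  have mG : ∀ ρ s, MeasurableSet (G ρ s) := fun ρ s => by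
    have e : G ρ s = ⋂ u ∈ Ico t s, (N u (cel u ρ))ᶜ := by
      ext ω; simp only [Set.mem_iInter, Set.mem_compl_iff]; rfl
    rw [e]
    exact Finset.measurableSet_biInter _ fun u _ => (mN u _).compl
  set D : X → ℕ → Set Ω := fun ρ s => G ρ s ∩ N s (cel s ρ) with hD
  have mD : ∀ ρ s, MeasurableSet (D ρ s) := fun ρ s => (mG ρ s).inter (mN s _)
  have hdec : ∀ ρ ω, F ρ ω ≤ ∑ s ∈ Ico t k, (D ρ s).indicator (F ρ) ω + (G ρ k).indicator (F ρ) ω := by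
    intro ρ ω
    by_cases h0 : ω ∈ G ρ k
    · rw [Set.indicator_of_mem h0]; exact le_add_self
    · have h1 : ∃ u, u ∈ Ico t k ∧ ω ∈ N u (cel u ρ) := by
        by_contra h2
        push Not at h2
        exact h0 fun u hu => h2 u hu
      have hs := Nat.find_spec h1
      set s := Nat.find h1
      have hsD : ω ∈ D ρ s := ⟨fun u hu hu' => by
        rw [mem_Ico] at hu
        have h3 := hs.1
        rw [mem_Ico] at h3
        exact Nat.find_min h1 hu.2 ⟨mem_Ico.2 ⟨hu.1, by omega⟩, hu'⟩, hs.2⟩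
      refine le_trans ?_ le_self_add
      refine le_trans ?_ (single_le_sum (f := fun s => (D ρ s).indicator (F ρ) ω) (fun _ _ => zero_le) hs.1)
      rw [Set.indicator_of_mem hsD]
  have hone : p⁻¹ * p = 1 := ENNReal.inv_mul_cancel hp hp'
  have mI : ∀ s (ρ : X) (κ : K s), MeasurableSet {ω | cel s ρ = κ ∧ ω ∈ G ρ s} := fun s ρ κ => by
    by_cases h1 : cel s ρ = κ
    · simpa [h1] using mG ρ s
    · simp [h1]
  have hs : ∀ s ∈ Ico t k, ∑ ρ, ∫⁻ ω, (D ρ s).indicator (F ρ) ω ∂P ≤ p⁻¹ * q s * C' * z s * V := by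
    intro s hs
    have mη : ∀ κ (ω : Ω), Measurable fun η => R s κ η ω := fun κ ω =>
      (mR s κ).comp (measurable_id.prodMk measurable_const)
    have mJ : ∀ (κ : K s) (ρ : X), Measurable fun ω => ∫⁻ η, (L s κ).indicator (w ρ) (R s κ η ω) ∂P := fun κ ρ =>
      Measurable.lintegral_prod_left' (f := fun x : Ω × Ω => (L s κ).indicator (w ρ) (R s κ x.1 x.2))
        (((mw ρ).indicator (mL s κ)).comp (mR s κ))
    -- one cell
    have hκ : ∀ κ : K s, ∫⁻ ω in N s κ, ∑ ρ, {ω | cel s ρ = κ ∧ ω ∈ G ρ s}.indicator (F ρ) ω ∂P ≤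
        p⁻¹ * (q s * ∑ ρ ∈ nb s κ, (z s * ∫⁻ ω, w ρ ω * g ρ ω ∂P)) := by
      intro κ
      have m1' : Measurable fun ω => ∑ ρ, {ω | cel s ρ = κ ∧ ω ∈ G ρ s}.indicator (F ρ) ω :=
        Finset.measurable_sum _ fun ρ _ => (mF ρ).indicator (mI s ρ κ)
      have h1 : p * ∫⁻ ω in N s κ, ∑ ρ, {ω | cel s ρ = κ ∧ ω ∈ G ρ s}.indicator (F ρ) ω ∂P ≤
          ∫⁻ ω in N s κ, q s * ∑ ρ ∈ nb s κ, hh s κ ρ ω * ∫⁻ η, (L s κ).indicator (w ρ) (R s κ η ω) ∂P ∂P := by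
        rw [← lintegral_const_mul _ m1']
        refine setLIntegral_mono' (mN s κ) fun ω hω => ?_
        have hm2 : MeasurableSet {η | R s κ η ω ∈ L s κ} := mη κ ω (mL s κ)
        calc p * ∑ ρ, {ω | cel s ρ = κ ∧ ω ∈ G ρ s}.indicator (F ρ) ω
            ≤ P {η | R s κ η ω ∈ L s κ} * ∑ ρ, {ω | cel s ρ = κ ∧ ω ∈ G ρ s}.indicator (F ρ) ω := by
              gcongr; exact prob s hs κ ω hω
          _ = ∫⁻ η in {η | R s κ η ω ∈ L s κ}, ∑ ρ, {ω | cel s ρ = κ ∧ ω ∈ G ρ s}.indicator (F ρ) ω ∂P := by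
              rw [setLIntegral_const, mul_comm]
          _ ≤ ∫⁻ η in {η | R s κ η ω ∈ L s κ}, q s * ∑ ρ ∈ nb s κ,
                hh s κ ρ ω * (L s κ).indicator (w ρ) (R s κ η ω) ∂P := by
              refine setLIntegral_mono' hm2 fun η hη => ?_
              refine (early s hs κ ω hω η hη).trans (le_of_eq ?_)
              congr 1
              refine sum_congr rfl fun ρ _ => ?_
              rw [Set.indicator_of_mem (show R s κ η ω ∈ L s κ from hη), mul_comm]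
          _ ≤ ∫⁻ η, q s * ∑ ρ ∈ nb s κ, hh s κ ρ ω * (L s κ).indicator (w ρ) (R s κ η ω) ∂P :=
              setLIntegral_le_lintegral _ _
          _ = _ := by
              have m2 : ∀ ρ, Measurable fun η => (L s κ).indicator (w ρ) (R s κ η ω) := fun ρ =>
                ((mw ρ).indicator (mL s κ)).comp (mη κ ω)
              rw [lintegral_const_mul _ (Finset.measurable_sum _ fun ρ _ => (m2 ρ).const_mul _),
                lintegral_finsetSum _ fun ρ _ => (m2 ρ).const_mul _]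
              congr 1
              exact sum_congr rfl fun ρ _ => lintegral_const_mul _ (m2 ρ)
      calc ∫⁻ ω in N s κ, ∑ ρ, {ω | cel s ρ = κ ∧ ω ∈ G ρ s}.indicator (F ρ) ω ∂P
          = p⁻¹ * (p * ∫⁻ ω in N s κ, ∑ ρ, {ω | cel s ρ = κ ∧ ω ∈ G ρ s}.indicator (F ρ) ω ∂P) := by
            rw [← mul_assoc, hone, one_mul]
        _ ≤ p⁻¹ * ∫⁻ ω in N s κ, q s * ∑ ρ ∈ nb s κ,
              hh s κ ρ ω * ∫⁻ η, (L s κ).indicator (w ρ) (R s κ η ω) ∂P ∂P := by gcongr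
        _ = p⁻¹ * (q s * ∑ ρ ∈ nb s κ, ∫⁻ ω in N s κ,
              hh s κ ρ ω * ∫⁻ η, (L s κ).indicator (w ρ) (R s κ η ω) ∂P ∂P) := by
            have m3 : ∀ ρ, Measurable fun ω => hh s κ ρ ω * ∫⁻ η, (L s κ).indicator (w ρ) (R s κ η ω) ∂P :=
              fun ρ => (mh s κ ρ).mul (mJ κ ρ)
            rw [lintegral_const_mul _ (Finset.measurable_sum _ fun ρ _ => m3 ρ),
              lintegral_finsetSum _ fun ρ _ => m3 ρ]
        _ ≤ _ := by
            gcongr with ρ hρ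
            exact hz s hs κ ρ hρ
    have h1 : ∑ ρ, ∫⁻ ω, (D ρ s).indicator (F ρ) ω ∂P =
        ∑ κ : K s, ∫⁻ ω in N s κ, ∑ ρ, {ω | cel s ρ = κ ∧ ω ∈ G ρ s}.indicator (F ρ) ω ∂P := by
      have e1 : ∀ κ : K s, ∫⁻ ω in N s κ, ∑ ρ, {ω | cel s ρ = κ ∧ ω ∈ G ρ s}.indicator (F ρ) ω ∂P =
          ∑ ρ, if cel s ρ = κ then ∫⁻ ω, (D ρ s).indicator (F ρ) ω ∂P else 0 := by
        intro κ
        rw [lintegral_finsetSum _ fun ρ _ => (mF ρ).indicator (mI s ρ κ)]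
        refine sum_congr rfl fun ρ _ => ?_
        by_cases h1 : cel s ρ = κ
        · rw [if_pos h1, setLIntegral_indicator (mI s ρ κ), lintegral_indicator (mD ρ s)]
          congr 2
          subst h1
          ext ω
          simp only [hD, Set.mem_inter_iff]
          constructor
          · rintro ⟨h2, h3⟩; exact ⟨h2.2, h3⟩
          · rintro ⟨h2, h3⟩; exact ⟨⟨trivial, h2⟩, h3⟩
        · rw [if_neg h1]
          have e2 : {ω | cel s ρ = κ ∧ ω ∈ G ρ s} = ∅ := by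
            ext ω; exact ⟨fun h2 => h1 h2.1, fun h2 => h2.elim⟩
          simp [e2]
      rw [sum_congr rfl fun κ _ => e1 κ, sum_comm]
      refine sum_congr rfl fun ρ _ => ?_
      rw [sum_ite_eq]
      simp
    have h3 : ∑ κ : K s, ∑ ρ ∈ nb s κ, (z s * ∫⁻ ω, w ρ ω * g ρ ω ∂P) ≤ C' * (z s * V) := by
      have e3 : ∀ κ : K s, ∑ ρ ∈ nb s κ, (z s * ∫⁻ ω, w ρ ω * g ρ ω ∂P) =
          ∑ ρ, if ρ ∈ nb s κ then (z s * ∫⁻ ω, w ρ ω * g ρ ω ∂P) else 0 :=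
        fun κ => by rw [sum_ite_mem, univ_inter]
      rw [sum_congr rfl fun κ _ => e3 κ, sum_comm, hV, mul_sum, mul_sum]
      refine sum_le_sum fun ρ _ => ?_
      rw [← sum_filter, sum_const, nsmul_eq_mul]
      refine mul_le_mul' ?_ le_rfl
      exact_mod_cast mult s ρ _ fun κ hκ => (mem_filter.1 hκ).2
    rw [h1]
    calc _ ≤ ∑ κ : K s, p⁻¹ * (q s * ∑ ρ ∈ nb s κ, (z s * ∫⁻ ω, w ρ ω * g ρ ω ∂P)) := sum_le_sum fun κ _ => hκ κ
      _ = p⁻¹ * (q s * ∑ κ : K s, ∑ ρ ∈ nb s κ, (z s * ∫⁻ ω, w ρ ω * g ρ ω ∂P)) := by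
          rw [← mul_sum, ← mul_sum]
      _ ≤ p⁻¹ * (q s * (C' * (z s * V))) := by gcongr
      _ = _ := by ring
  calc ∑ ρ, ∫⁻ ω, F ρ ω ∂P
      ≤ ∑ ρ, (∑ s ∈ Ico t k, ∫⁻ ω, (D ρ s).indicator (F ρ) ω ∂P + ∫⁻ ω, (G ρ k).indicator (F ρ) ω ∂P) := by
        refine sum_le_sum fun ρ _ => ?_
        rw [← lintegral_finsetSum _ fun s _ => (mF ρ).indicator (mD ρ s),
          ← lintegral_add_right _ ((mF ρ).indicator (mG ρ k))]
        exact lintegral_mono fun ω => hdec ρ ω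
    _ = ∑ s ∈ Ico t k, ∑ ρ, ∫⁻ ω, (D ρ s).indicator (F ρ) ω ∂P +
          ∑ ρ, ∫⁻ ω, (G ρ k).indicator (F ρ) ω ∂P := by
        rw [sum_add_distrib, sum_comm]
    _ ≤ ∑ s ∈ Ico t k, p⁻¹ * q s * C' * z s * V + zn * V := by
        refine add_le_add (sum_le_sum hs) ?_
        refine le_trans (le_of_eq ?_) none
        exact sum_congr rfl fun ρ _ => lintegral_indicator (mG ρ k) _
    _ = _ := by rw [add_mul, sum_mul]

end Pool.Agent.W_7d29a1_C1.H49
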