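import Pool.Agent.W_7d29a1_C1.PathD58
import Pool.Agent.W_7d29a1_C1.CmpH20
import Pool.Agent.W_7d29a1_C1.GateG87
import Pool.Agent.W_7d29a1_C1.Excl53E
import Pool.Agent.W_7d29a1_C1.SepF98

/-!
MP_7d29a1_pr, attractor route, [C1] SEP: THE FIELD `cmpA`, EVERY FROZEN REST. (helper71)

One window `B` (sites), one contact `c` before it. Rows of the gate block: `a, …, a + n - 1`, walls on the sites `S` of these rows;
`B₂` = the sites of the window in the rows `≥ a + n` (the lucky rows). `T` = typical, `TF ⊇ T` = what does not read `S` or is decreasing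
there, `Gd66 … (p₀ / 2)` = the pairs of core paths have walls, `Lk ω` = the lucky contents of `B₂`.
* `gain71` : the gain of the core mass when all the core paths end in the inner mouth; `gain_one` : the gain through one site of the
  mouth (helper76);
* `core71` : the weight with the core mass of `ω` is at most `(g + Y / lam) ^ 2` times the weight in the new environment;
* `CwIn`, `CwIn.cmp` : the comparison in the average over the window;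
* `cmpA71` : the field `cmpA` of `In98` (SepF98).
-/

set_option autoImplicit false

namespace Pool.Agent.W_7d29a1_C1.MC71

open MeasureTheory Finset
open Pool.Agent.W_7d29a1_F Pool.Agent.W_7d29a1_h4g Pool.Agent.W_7d29a1_H Pool.Agent.W_7d29a1_HS
open Pool.Agent.W_7d29a1_C1.K91 (Grp Box wt wt_pos)
open Pool.Agent.W_7d29a1_C1.K91P (fw bw bw_pos fw_nonneg fw_congr bw_congr dp fw_hi fw_lo)
open Pool.Agent.W_7d29a1_C1.U16 (ker ker_nonneg ker_eq_zero ker_congr)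
open Pool.Agent.W_7d29a1_C1.Sp22 (Ms Zt pc)
open Pool.Agent.W_7d29a1_C1.CmpG20
open Pool.Agent.W_7d29a1_C1.Gt66
open Pool.Agent.W_7d29a1_C1.H60
open Pool.Agent.W_7d29a1_C1.G37 (Gm)
open Pool.Agent.W_7d29a1_C1.S71 (gl gl_of_mem gl_of_not_mem)
open Pool.Agent.W_7d29a1_C1.F31 (DecO FinO)
open Pool.Agent.W_7d29a1_C1.PW58 (InRows WallC58 kap kc z1 wcore w0 zc gateC58 z1_nonneg wcore_nonneg measurable_w0 measurable_kap
  measurable_kc wt_eq)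
open Pool.Agent.W_7d29a1_C1.SF98 (XS wS Tx)
open scoped ENNReal

noncomputable section

attribute [local instance 10] Classical.propDecidable

section det

variable {w w' : ℕ → ℤ → ℝ} {p : ℕ → ℝ} {lo hi : ℤ} {N a : ℕ}

/-- **The gain of the core mass**: all the core paths end in the inner mouth. -/
theorem gain71 (hw : ∀ k y, 0 < w k y) (hp : ∀ k, 0 < p k) {n k : ℕ} (hk : k + 1 ≤ a) {q : ℤ} {Co : ℕ → ℤ → Prop} {Mi : Set ℤ}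
    (hen : ∀ y, Co n y → y ∈ Mi) {lam : ℝ} {F : ℤ → ℝ} (F0 : ∀ v, 0 ≤ F v)
    (hF : ∀ v ∈ Mi, lam * bw w p (a + n) (N - (a + n)) v ≤ F v) {Y0 : Finset ℤ}
    (hY0 : ∀ v ∈ Mi, q ≤ v → v ≤ q + ((a + n - (k + 1) : ℕ) : ℤ) → v ∈ Y0) :
    lam * Z1 w p N a n Co k q ≤ ∑ v ∈ Y0, ker w p (k + 1) (a + n - (k + 1)) q v * F v := by
  have hw' : ∀ k y, 0 ≤ w k y := fun k y => (hw k y).le
  have hp' : ∀ k, 0 ≤ p k := fun k => (hp k).le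
  have K0 : ∀ y, 0 ≤ Ks w p a k q y := fun y => ker_nonneg hw hp _ _ _ _
  have h1 : lam * Z1 w p N a n Co k q ≤ ∑ π ∈ Ps Co (Ic a k q) n, Ks w p a k q (s0 π) * wg w p a π * F (en π) := by
    unfold Z1 kp
    rw [mul_sum]
    refine sum_le_sum fun π hπ => ?_
    have h2 : en π ∈ Mi := hen _ (Ps_conf hπ ((onp_last π).2 rfl))
    have h3 : 0 ≤ Ks w p a k q (s0 π) * wg w p a π := mul_nonneg (K0 _) (wg_nonneg hw' hp' π)
    calc _ = Ks w p a k q (s0 π) * wg w p a π * (lam * bw w p (a + n) (N - (a + n)) (en π)) := by ring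
      _ ≤ _ := mul_le_mul_of_nonneg_left (hF _ h2) h3
  refine h1.trans ?_
  have h4 := expand (w := w) (p := p) (a := a) (C := Co) (I := Ic a k q) (Ks w p a k q) (fun y hy => Ks_off hy)
    (lo := q) (hi := q + ((a - (k + 1) : ℕ) : ℤ)) (fun y hy => by
      unfold Ic at hy
      exact mem_Icc.1 hy) n F
  rw [h4]
  have e0 : ∀ u ∈ Icc q (q + ((a - (k + 1) : ℕ) : ℤ) + n), ms w p a Co (Ks w p a k q) n u * F u ≤
      if u ∈ Mi then ker w p (k + 1) (a + n - (k + 1)) q u * F u else 0 := by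
    intro u _
    by_cases hu : u ∈ Mi
    · rw [if_pos hu]
      refine mul_le_mul_of_nonneg_right ?_ (F0 u)
      rw [← ms_Ks hk n q u]
      exact ms_le_all hw' hp' K0 n u
    · rw [if_neg hu, ms_off fun h => hu (hen u h), zero_mul]
  refine (sum_le_sum e0).trans ?_
  rw [← sum_filter]
  refine sum_le_sum_of_subset_of_nonneg (fun u hu => ?_) fun u _ _ => mul_nonneg (ker_nonneg hw hp _ _ _ _) (F0 u)
  obtain ⟨hu1, hu2⟩ := mem_filter.1 hu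
  rw [mem_Icc] at hu1
  exact hY0 u hu2 hu1.1 (by omega)

end det

section con

variable {Γ : Cx} {c : ℕ × ℤ} {a n : ℕ} {ω ω' : Env} {Co : ℕ → ℤ → Prop} {Mi Mo : Set ℤ} {g lam Y : ℝ}

/-- A contact outside of the cone of the right group, or left of the box, has no core weight. -/
theorem w0_zero (hq : ¬ (0 < c.2 ∧ c.2 ≤ Γ.hi - Γ.N + c.1)) (h : Γ.Ok) : w0 Γ c ω = 0 := by
  have hb := Cx.box1 h
  have hz : dp (wt ω) Γ.p Cx.l Γ.r c.1 (c.2 - 1) c.2 = 0 := by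
    unfold dp
    by_cases h1 : 0 < c.2
    · have h2 : Γ.hi - Γ.N + c.1 < c.2 := by
        by_contra hc
        exact hq ⟨h1, by omega⟩
      rw [fw_hi (Ms.left hb).hi0 c.1 c.2 (by omega), fw_hi (Ms.right hb).hi0 c.1 c.2 (by omega)]
      ring
    · rw [fw_lo (Ms.left hb).lo0 c.1 (c.2 - 1) (by omega), fw_lo (Ms.right hb).lo0 c.1 (c.2 - 1) (by omega)]
      ring
  unfold w0
  rw [hz, zero_mul]

theorem z1_eq (ω : Env) : z1 Γ c a (Ps Co (Ic a c.1 c.2) n) ω = Z1 (wt ω) Γ.p Γ.N a n Co c.1 c.2 := rfl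

theorem wcore_pcc (h : Γ.Ok) (ω : Env) : wcore Γ c a (Ps Co (Ic a c.1 c.2) n) ω =
    pcc (wt ω) Γ.p Cx.l Γ.r 0 Γ.hi Γ.N c.1 c.2 (Z1 (wt ω) Γ.p Γ.N a n Co c.1 c.2) := by
  rw [pcc_eq, Pool.Agent.W_7d29a1_C1.E53.Zt_l53 h, Pool.Agent.W_7d29a1_C1.E53.Zt_r53]
  rfl

/-- The contact is inside of the cone of the right group and of the box (otherwise its weight is zero). -/
def Inn (Γ : Cx) (c : ℕ × ℤ) : Prop := 0 < c.2 ∧ c.2 ≤ Γ.hi - Γ.N + c.1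

/-- **THE CORE WEIGHT AGAINST THE NEW WEIGHT.** -/
theorem core71 (h : Γ.Ok) (hq : Inn Γ c) (hca : c.1 + 1 ≤ a) (hN : a + n ≤ Γ.N) (hg : 0 ≤ g) (hlam : 0 < lam) (hY : 0 ≤ Y)
    (heq : ∀ k y, k < a + n → wt ω' k y = wt ω k y)
    (off : ∀ z, z ∉ Mo → SD53.bW Γ ω' (a + n) z ≤ Y * SD53.bW Γ ω (a + n) z)
    (gain : lam * Z1 (wt ω) Γ.p Γ.N a n Co c.1 c.2 ≤
      ∑ v ∈ SD53.bx Γ Mo, ker (wt ω) Γ.p (c.1 + 1) (a + n - (c.1 + 1)) c.2 v * SD53.bW Γ ω' (a + n) v)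
    (gt : ∀ v ∈ Mo, ∀ y : ℤ, ker (wt ω) Γ.p a n y v * Z1 (wt ω) Γ.p Γ.N a n Co c.1 c.2 ≤
      g * (bw (wt ω) Γ.p a (Γ.N - a) y * ker (wt ω) Γ.p (c.1 + 1) (a + n - (c.1 + 1)) c.2 v)) :
    wcore Γ c a (Ps Co (Ic a c.1 c.2) n) ω ≤ (g + Y / lam) ^ 2 * Γ.w c ω' := by
  have hb := Cx.box1 h
  have L : LuckG (wt ω) (wt ω') Γ.p Γ.N (a + n) 0 Γ.hi (SD53.bx Γ Mo) (fun y => bw (wt ω') Γ.p (a + n) (Γ.N - (a + n)) y) Y :=
    { hw := wt_pos ω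
      hw' := wt_pos ω'
      hp := Γ.p_pos
      haN := hN
      eqb := fun i hi' => funext fun y => (heq i y hi').symm
      Y0_sub := SD53.bx_sub Mo
      Y0' := hY
      leak := fun y hy => by
        by_cases hyM : y ∈ Mo
        · have h1 : y ∈ SD53.bx Γ Mo := by
            unfold SD53.bx
            exact mem_filter.2 ⟨hy, hyM⟩
          rw [if_pos h1]
          exact le_add_of_nonneg_right (mul_nonneg hY (bw_pos (wt_pos ω) Γ.p_pos _ _ _).le)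
        · have h1 : y ∉ SD53.bx Γ Mo := fun h => hyM (SD53.mem_bx h)
          rw [if_neg h1, zero_add]
          exact off y hyM
      tb0 := fun y _ => (bw_pos (wt_pos ω') Γ.p_pos _ _ _).le
      tb_le := fun y _ => le_rfl }
  have hkN : c.1 < a + n := by omega
  have key := L.core_le hlam hg (Z1_nonneg (wt_pos ω) Γ.p_pos Co c.1 c.2) hb ⟨0, by rw [Cx.l_zero]; exact one_pos⟩
    (by obtain ⟨y, _, _, hy⟩ := Cx.r_pos h; exact ⟨y, hy⟩) hkN (q := c.2)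
    (fun m hm v hv => gg87 (wt_pos ω) Γ.p_pos hN (gt v (SD53.mem_bx hv)) hm) gain
  rw [wcore_pcc h, LtS74.w_pc h]
  exact key

/-- A contact outside has no weight. -/
theorem w_zero (hq : ¬ Inn Γ c) (h : Γ.Ok) (ω : Env) : Γ.w c ω = 0 := by
  rw [PW58.w_eq, w0_zero hq h]
  simp

theorem Inn.box (hq : Inn Γ c) (hca : c.1 + 1 ≤ a) (hN : a + n ≤ Γ.N) {v : ℤ} (h1 : c.2 ≤ v)
    (h2 : v ≤ c.2 + ((a + n - (c.1 + 1) : ℕ) : ℤ)) : v ∈ Icc (0 : ℤ) Γ.hi := by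
  obtain ⟨h3, h4⟩ := hq
  have h5 : (c.1 : ℤ) + 1 ≤ a := by exact_mod_cast hca
  have h6 : (a : ℤ) + n ≤ Γ.N := by exact_mod_cast hN
  rw [mem_Icc]
  omega

/-- **The gain through one site of the mouth** (helper76). -/
theorem gain_one (hq : Inn Γ c) (hca : c.1 + 1 ≤ a) (hN : a + n ≤ Γ.N) {z : ℤ} (hz : z ∈ Mo) {e gA : ℝ} (he : 0 ≤ e) (hgA : 0 ≤ gA)
    (h1 : e * SD53.bW Γ ω (c.1 + 1) c.2 ≤ ker (wt ω) Γ.p (c.1 + 1) (a + n - (c.1 + 1)) c.2 z * SD53.bW Γ ω (a + n) z)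
    (h2 : gA * SD53.bW Γ ω (a + n) z ≤ SD53.bW Γ ω' (a + n) z) : e * gA * Z1 (wt ω) Γ.p Γ.N a n Co c.1 c.2 ≤
      ∑ v ∈ SD53.bx Γ Mo, ker (wt ω) Γ.p (c.1 + 1) (a + n - (c.1 + 1)) c.2 v * SD53.bW Γ ω' (a + n) v := by
  have K0 : ∀ v, 0 ≤ ker (wt ω) Γ.p (c.1 + 1) (a + n - (c.1 + 1)) c.2 v := fun v => ker_nonneg (wt_pos ω) Γ.p_pos _ _ _ _
  have B0 : ∀ v, 0 < SD53.bW Γ ω' (a + n) v := fun v => SD53.bW_pos Γ ω' _ v
  have h3 : Z1 (wt ω) Γ.p Γ.N a n Co c.1 c.2 ≤ SD53.bW Γ ω (c.1 + 1) c.2 := Z1_le (wt_pos ω) Γ.p_pos hca hN Co c.2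
  have h4 : e * gA * Z1 (wt ω) Γ.p Γ.N a n Co c.1 c.2 ≤
      ker (wt ω) Γ.p (c.1 + 1) (a + n - (c.1 + 1)) c.2 z * SD53.bW Γ ω' (a + n) z := by
    calc e * gA * Z1 (wt ω) Γ.p Γ.N a n Co c.1 c.2 ≤ e * gA * SD53.bW Γ ω (c.1 + 1) c.2 :=
          mul_le_mul_of_nonneg_left h3 (mul_nonneg he hgA)
      _ = gA * (e * SD53.bW Γ ω (c.1 + 1) c.2) := by ring
      _ ≤ gA * (ker (wt ω) Γ.p (c.1 + 1) (a + n - (c.1 + 1)) c.2 z * SD53.bW Γ ω (a + n) z) := mul_le_mul_of_nonneg_left h1 hgA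
      _ = ker (wt ω) Γ.p (c.1 + 1) (a + n - (c.1 + 1)) c.2 z * (gA * SD53.bW Γ ω (a + n) z) := by ring
      _ ≤ _ := mul_le_mul_of_nonneg_left h2 (K0 z)
  by_cases hz' : c.2 ≤ z ∧ z ≤ c.2 + ((a + n - (c.1 + 1) : ℕ) : ℤ)
  · have h5 : z ∈ SD53.bx Γ Mo := by
      unfold SD53.bx
      exact mem_filter.2 ⟨hq.box hca hN hz'.1 hz'.2, hz⟩
    exact h4.trans (single_le_sum (f := fun v => ker (wt ω) Γ.p (c.1 + 1) (a + n - (c.1 + 1)) c.2 v * SD53.bW Γ ω' (a + n) v)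
      (fun v _ => mul_nonneg (K0 v) (B0 v).le) h5)
  · rw [ker_eq_zero _ _ _ _ hz', zero_mul] at h4
    exact h4.trans (sum_nonneg fun v _ => mul_nonneg (K0 v) (B0 v).le)

end con

/-! ### The average over the window -/

/-- The good environments of the contact `c`: the pairs of core paths have walls. -/
def GD (Γ : Cx) (c : ℕ × ℤ) (a : ℕ) {n : ℕ} (Co : ℕ → ℤ → Prop) (C : Pa n → Pa n → Set Env) (p₀ : ℝ) : Set Env :=
  Gd66 (Ps Co (Ic a c.1 c.2) n) (kap Γ.p a Γ.N (kc Γ.p (c.1 + 1) a c.2)) C (p₀ / 2)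

/-- **ONE WINDOW, ONE CONTACT: the data of the comparison.** -/
structure CwIn (μ : Measure ℝ) (Γ : Cx) (B B₂ S : Set Pt) (a n : ℕ) (c : ℕ × ℤ) (Co : ℕ → ℤ → Prop) (C : Pa n → Pa n → Set Env)
    (T TF L : Set Env) (Lk : Env → Set Env) (Mo : Set ℤ) (p₀ C₀ g lam Y : ℝ) (c₁ : ℝ≥0∞) : Prop where
  -- rows
  hc : c ∈ Γ.rows 0 Γ.N
  inn : Inn Γ c
  hca : c.1 + 1 ≤ a
  hN : a + n ≤ Γ.N
  S_rows : InRows a n S
  S_sub : S ⊆ B
  B₂_sub : B₂ ⊆ B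
  B₂_rows : ∀ x ∈ B₂, ((a + n : ℕ) : ℤ) ≤ x.1
  -- numbers
  p₀_pos : 0 < p₀
  g0 : 0 ≤ g
  lam0 : 0 < lam
  Y0 : 0 ≤ Y
  -- events
  walls : WallC58 μ S a p₀ C
  T_sub : T ⊆ TF
  mTF : MeasurableSet TF
  dTF : DecO Sᶜ TF
  mL : MeasurableSet L
  mLk : ∀ ω, MeasurableSet (Lk ω)
  pLk : ∀ ω ∈ TF ∩ GD Γ c a Co C p₀, c₁ ≤ law μ (Lk ω)
  toL : ∀ ω ∈ TF ∩ GD Γ c a Co C p₀, ∀ η ∈ Lk ω, gl B₂ η ω ∈ L
  -- the core
  core : ∀ η ∈ T, bw (wt η) Γ.p (c.1 + 1) (Γ.N - (c.1 + 1)) c.2 ≤ C₀ * Z1 (wt η) Γ.p Γ.N a n Co c.1 c.2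
  -- the gate
  gt : ∀ ω ∈ TF ∩ GD Γ c a Co C p₀, ∀ v ∈ Mo, ∀ y : ℤ, ker (wt ω) Γ.p a n y v * Z1 (wt ω) Γ.p Γ.N a n Co c.1 c.2 ≤
    g * (bw (wt ω) Γ.p a (Γ.N - a) y * ker (wt ω) Γ.p (c.1 + 1) (a + n - (c.1 + 1)) c.2 v)
  -- the luck behind the gate
  off : ∀ ω ∈ TF ∩ GD Γ c a Co C p₀, ∀ η ∈ Lk ω, ∀ z, z ∉ Mo →
    SD53.bW Γ (gl B₂ η ω) (a + n) z ≤ Y * SD53.bW Γ ω (a + n) z
  gain : ∀ ω ∈ TF ∩ GD Γ c a Co C p₀, ∀ η ∈ Lk ω, lam * Z1 (wt ω) Γ.p Γ.N a n Co c.1 c.2 ≤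
    ∑ v ∈ SD53.bx Γ Mo, ker (wt ω) Γ.p (c.1 + 1) (a + n - (c.1 + 1)) c.2 v * SD53.bW Γ (gl B₂ η ω) (a + n) v

section avg

variable {μ : Measure ℝ} {Γ : Cx} {B B₂ S : Set Pt} {a n : ℕ} {c : ℕ × ℤ} {Co : ℕ → ℤ → Prop} {C : Pa n → Pa n → Set Env}
  {T TF L : Set Env} {Lk : Env → Set Env} {Mo : Set ℤ} {p₀ C₀ g lam Y : ℝ} {c₁ : ℝ≥0∞}

theorem measurable_wcore (Γ : Cx) (c : ℕ × ℤ) (a : ℕ) (P : Finset (Pa n)) : Measurable (wcore Γ c a P) := by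
  have h1 : Measurable fun η => z1 Γ c a P η := by
    unfold z1
    exact Finset.measurable_sum _ fun π _ => measurable_kap (measurable_kc (c.1 + 1) a c.2) π
  exact ((measurable_w0 c).mul (h1.pow_const 2)).div ((Cx.meas_ZM Γ).mul (Cx.meas_ZR Γ))

theorem CwIn.rows_eq (H : CwIn μ Γ B B₂ S a n c Co C T TF L Lk Mo p₀ C₀ g lam Y c₁) (η ω : Env) (k : ℕ) (y : ℤ) (hk : k < a + n) :
    wt (gl B₂ η ω) k y = wt ω k y := by
  have hx : (((k : ℕ) : ℤ), y) ∉ B₂ := fun h => by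
    have h1 := H.B₂_rows _ h
    have h2 : ((k : ℕ) : ℤ) < ((a + n : ℕ) : ℤ) := by exact_mod_cast hk
    exact absurd h1 (not_le.2 h2)
  exact wt_eq (gl_of_not_mem hx η ω)

/-- Pointwise: the lucky content. -/
theorem CwIn.pt (H : CwIn μ Γ B B₂ S a n c Co C T TF L Lk Mo p₀ C₀ g lam Y c₁) (h : Γ.Ok) {ω : Env}
    (hω : ω ∈ TF ∩ GD Γ c a Co C p₀) {η : Env} (hη : η ∈ Lk ω) :
    wcore Γ c a (Ps Co (Ic a c.1 c.2) n) ω ≤ (g + Y / lam) ^ 2 * Γ.w c (gl B₂ η ω) :=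
  core71 h H.inn H.hca H.hN H.g0 H.lam0 H.Y0 (H.rows_eq η ω) (H.off ω hω η hη) (H.gain ω hω η hη) (H.gt ω hω)

/-- **THE COMPARISON IN THE AVERAGE OVER THE WINDOW**, any frozen rest. -/
theorem CwIn.cmp [IsProbabilityMeasure μ] (H : CwIn μ Γ B B₂ S a n c Co C T TF L Lk Mo p₀ C₀ g lam Y c₁) (h : Γ.Ok) (ω : Env) :
    c₁ * ∫⁻ ξ, T.indicator (fun η => ENNReal.ofReal (Γ.w c η)) (gl B ξ ω) ∂(law μ) ≤
      ENNReal.ofReal (C₀ ^ 2 * (2 / p₀)) * ENNReal.ofReal ((g + Y / lam) ^ 2) *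
        ∫⁻ η, L.indicator (fun η => ENNReal.ofReal (Γ.w c η)) (gl B η ω) ∂(law μ) := by
  have hgate := gateC58 (μ := μ) h H.hc H.hca H.hN (Co := Co) (I := Ic a c.1 c.2) (fun y hy => by
    unfold Ic at hy
    exact mem_Icc.1 hy) H.S_rows H.S_sub H.T_sub H.mTF H.dTF H.p₀_pos H.walls (C₀ := C₀) (fun η hη => H.core η hη) ω
  refine avg_gate2_gl (μ := μ) H.B₂_sub ((measurable_wcore Γ c a _).ennreal_ofReal) ((Cx.meas_w Γ c).ennreal_ofReal)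
    (H.mTF.inter (measurable_Gd66 (fun π => measurable_kap (measurable_kc (c.1 + 1) a c.2) π) H.walls.m (p₀ / 2))) H.mL hgate H.mLk
    (fun ω' hω' => H.pLk ω' hω') fun ω' hω' η hη => ⟨H.toL ω' hω' η hη, ?_⟩
  rw [← ENNReal.ofReal_mul (sq_nonneg _)]
  exact ENNReal.ofReal_le_ofReal (H.pt h hω' hη)

/-- The constant on the other side. -/
theorem CwIn.cmp' [IsProbabilityMeasure μ] (H : CwIn μ Γ B B₂ S a n c Co C T TF L Lk Mo p₀ C₀ g lam Y c₁) (h : Γ.Ok) {b K : ℝ≥0∞}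
    (hK0 : K ≠ 0) (hK : K ≠ ⊤) (hb : b * K ≤ c₁) (h1 : ENNReal.ofReal (C₀ ^ 2 * (2 / p₀)) * ENNReal.ofReal ((g + Y / lam) ^ 2) ≤ K)
    (ω : Env) :
    b * ∫⁻ ξ, T.indicator (fun η => ENNReal.ofReal (Γ.w c η)) (gl B ξ ω) ∂(law μ) ≤
      ∫⁻ η, L.indicator (fun η => ENNReal.ofReal (Γ.w c η)) (gl B η ω) ∂(law μ) := by
  have key := (H.cmp h ω).trans (mul_le_mul' h1 le_rfl)
  set A := ∫⁻ ξ, T.indicator (fun η => ENNReal.ofReal (Γ.w c η)) (gl B ξ ω) ∂(law μ) with hA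
  set D := ∫⁻ η, L.indicator (fun η => ENNReal.ofReal (Γ.w c η)) (gl B η ω) ∂(law μ) with hD
  have h2 : K * (b * A) ≤ K * D := by
    calc K * (b * A) = b * K * A := by ring
      _ ≤ c₁ * A := mul_le_mul' hb le_rfl
      _ ≤ K * D := key
  exact (ENNReal.mul_le_mul_iff_right hK0 hK).1 h2

end avg

/-! ### The field -/

/-- **THE FIELD `cmpA` OF `In98`.** -/
theorem cmpA71 {μ : Measure ℝ} [IsProbabilityMeasure μ] {Γ : Cx} (h : Γ.Ok) {G : Gm} {mt : ℕ} {TT : ℝ → ℕ → ℤ × ℤ → Set Env}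
    {L : ℕ → ℤ × ℤ → Set Env} {sl smax : ℕ → ℝ} {th be : ℕ → ℕ → ℝ} {b : ℕ → ℝ} {st : ℕ → ℕ → ℕ} {κ3 θ : ℝ≥0∞} {τ0 : ℕ}
    {c K : ℝ≥0∞} (hK0 : K ≠ 0) (hK : K ≠ ⊤)
    (hst : ∀ t i, (SF98.p98 Γ G mt th sl be b st κ3 θ).rg τ0 t i → t ≤ st t i)
    (H : ∀ u, τ0 < u → u < G.M → ∀ y : XS Γ G mt, Inn Γ y.1 → ∃ (B₂ S : Set Pt) (a n : ℕ) (Co : ℕ → ℤ → Prop)
      (C : Pa n → Pa n → Set Env) (TF : Set Env) (Lk : Env → Set Env) (Mo : Set ℤ) (p₀ C₀ g lam Y : ℝ) (c₁ : ℝ≥0∞),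
      CwIn μ Γ (G.win u (G.loc u y.1)) B₂ S a n y.1 Co C (Tx TT smax u (G.loc u y.1)) TF (L u (G.loc u y.1)) Lk Mo
        p₀ C₀ g lam Y c₁ ∧ c * K ≤ c₁ ∧ ENNReal.ofReal (C₀ ^ 2 * (2 / p₀)) * ENNReal.ofReal ((g + Y / lam) ^ 2) ≤ K) :
    ∀ t i, (SF98.p98 Γ G mt th sl be b st κ3 θ).rg τ0 t i → ∀ u ∈ Ico (st t i) i, ∀ y : XS Γ G mt,
      ∀ ω ∈ Tx TT smax u (G.loc u y.1),
      c * ∫⁻ ξ, (Tx TT smax u (G.loc u y.1)).indicator (wS Γ G mt y) (G.R u (G.loc u y.1) ξ ω) ∂(law μ) ≤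
        ∫⁻ η, (L u (G.loc u y.1)).indicator (wS Γ G mt y) (G.R u (G.loc u y.1) η ω) ∂(law μ) := by
  intro t i hr u hu y ω _
  have h1 := hst t i hr
  obtain ⟨h2, h3⟩ := mem_Ico.1 hu
  obtain ⟨h4, h5, h6⟩ := hr
  have h7 : i ≤ G.M := h6
  by_cases hq : Inn Γ y.1
  · obtain ⟨B₂, S, a, n, Co, C, TF, Lk, Mo, p₀, C₀, g, lam, Y, c₁, H1, H2, H3⟩ := H u (by omega) (by omega) y hq
    exact H1.cmp' h hK0 hK H2 H3 ω
  · have e : ∀ η, (Tx TT smax u (G.loc u y.1)).indicator (wS Γ G mt y) (G.R u (G.loc u y.1) η ω) = 0 := fun η => by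
      have h8 : ∀ η', wS Γ G mt y η' = 0 := fun η' => by
        show ENNReal.ofReal (Γ.w y.1 η') = 0
        rw [w_zero hq h, ENNReal.ofReal_zero]
      by_cases h9 : G.R u (G.loc u y.1) η ω ∈ Tx TT smax u (G.loc u y.1)
      · rw [Set.indicator_of_mem h9, h8]
      · rw [Set.indicator_of_notMem h9]
    simp only [e, lintegral_zero, mul_zero]
    exact zero_le

end

end Pool.Agent.W_7d29a1_C1.MC71
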