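import Pool.Agent.W_7d29a1_C1.GeoJ37

/-!
MP_7d29a1_pr, the attractor route, separation by moving the contact (`MoveQ` of SkelQ49): THE GEOMETRIC FIELDS, in the letters of a
site `c : ℕ × ℤ` (for any type of contacts). The scales paid are `Sq q r s i = [s + q, i - r)`. (helper37)
-/

set_option autoImplicit false

namespace Pool.Agent.W_7d29a1_C1.G37

open MeasureTheory Finset
open Pool.Agent.W_7d29a1_F Pool.Agent.W_7d29a1_C1.S71 Pool.Agent.W_7d29a1_C1.H40 Pool.Agent.W_7d29a1_C1.H49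
open scoped ENNReal

noncomputable section

/-! ### The scales paid, classes mod `q` -/

/-- The scales paid between `s` and `i`. -/
def Sq (q r s i : ℕ) : Finset ℕ := Ico (s + q) (i - r)

theorem mem_Sq {q r s i u : ℕ} : u ∈ Sq q r s i ↔ s + q ≤ u ∧ u < i - r := mem_Ico

/-- `S_sub`. -/
theorem Sq_sub {q : ℕ} (hq : q ≠ 0) (r s i : ℕ) : Sq q r s i ⊆ Ioo s i := by
  intro u hu
  rw [mem_Sq] at hu
  rw [mem_Ioo]
  omega

/-- `card_S` with `m1 = q + r`. -/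
theorem card_Sq (q r s i : ℕ) : i ≤ s + (Sq q r s i).card + (q + r) := by
  unfold Sq
  rw [Nat.card_Ico]
  omega

/-- Two scales of one class are at distance at least `q`. -/
theorem cls_le {q u v : ℕ} (h : u % q = v % q) (huv : u < v) : u + q ≤ v := by
  have h1 : q ∣ v - u := (Nat.modEq_iff_dvd' huv.le).1 h
  have h2 := Nat.le_of_dvd (by omega) h1
  omega

/-- A sum over a class below `v` is a sum over the scales `u + q ≤ v`. -/
theorem sum_cls_le {q v : ℕ} {A : Finset ℕ} {d : ℕ → ℝ} (hd : ∀ u, 0 ≤ d u) (hA : ∀ u ∈ A, u < v → u % q = v % q) :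
    ∑ u ∈ A.filter (fun u => u < v), d u ≤ ∑ u ∈ A.filter (fun u => u + q ≤ v), d u := by
  refine sum_le_sum_of_subset_of_nonneg (fun u hu => ?_) fun u _ _ => hd u
  obtain ⟨h1, h2⟩ := mem_filter.1 hu
  exact mem_filter.2 ⟨h1, cls_le (hA u h1 h2) h2⟩

namespace Gm

variable {G : Gm}

/-- **`mvrow`.** -/
theorem mvrowQ {t i j s k : ℕ} {x ρ ρ' : ℕ × ℤ} (ht : t ≤ i) (hs : s < i) (h : G.relj i j x ρ) (hn : G.Nb s (G.loc s ρ) ρ')
    (hk : j + G.m2 + G.m0 < k) (hkM : k ≤ G.M) : (x.1 : ℤ) - G.dk k (t - 1) ≤ (ρ'.1 : ℤ) - G.dk k (j + G.m2) :=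
  h.mvrow ht (h.lt_M hk hkM).1 hs hn

/-- **`mvfa`**: rows. -/
theorem frQ {t i j s t' k : ℕ} {x ρ ρ' : ℕ × ℤ} (ht : t ≤ i) (hs : s < i) (h : G.relj i j x ρ) (hn : G.Nb s (G.loc s ρ) ρ')
    (ht' : j + G.m2 < t') (hk : t' + G.m0 ≤ k) (hkM : k ≤ G.M) : G.fr t' (t - 1) x ⊆ G.fr t' (j + G.m2) ρ' :=
  h.fr_sub ht (h.lt_M (k := k) (by omega) hkM).1 hs hn

/-- **`mvfa`**: columns. -/
theorem fsQ {t i j s t' k : ℕ} {x ρ ρ' : ℕ × ℤ} (ht : t ≤ i) (hs : s < i) (h : G.relj i j x ρ) (hn : G.Nb s (G.loc s ρ) ρ')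
    (ht' : j + G.m2 < t') (hk : t' + G.m0 ≤ k) (hkM : k ≤ G.M) (r : ℤ) : G.fs k (t - 1) x r ⊆ G.fs k (j + G.m2) ρ' r :=
  h.fs_sub ht (h.lt_M (k := k) (by omega) hkM).2 hs hn r

/-- The distance between the old and the new centre (`mvfa` for a ball around the centre). -/
theorem mvdist {i j s k : ℕ} {x ρ ρ' : ℕ × ℤ} (hs : s < i) (h : G.relj i j x ρ) (hn : G.Nb s (G.loc s ρ) ρ')
    (hk : j + G.m2 + G.m0 < k) (hkM : k ≤ G.M) : |(x.1 : ℤ) - ρ'.1| ≤ 3 * G.T (i + 1) ∧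
      |G.lat x - G.lat ρ'| ≤ (G.kn + 2 * G.kb) * G.w (j + 1) := by
  obtain ⟨h1, h2⟩ := h.lt_M hk hkM
  obtain ⟨h3, h4⟩ := h.move_row h1 hs hn
  refine ⟨?_, h.move_lat h2 hs hn⟩
  rw [abs_of_nonneg (by linarith)]
  exact h3

variable (G)

/-- `hdl` for the range of `MoveQ`. -/
theorem hdlQ {t i : ℕ} (h : t ≤ i) : G.dl i ≤ G.dk i (t - 1) := G.hdl h

/-- **The windows of the scale `u` of the cell of `y` lie in a ball of `y`**: rows within `2 T u`, columns within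
`(kw + 2) w u` (with the rounding of the base). -/
theorem win_near {u : ℕ} {y : ℕ × ℤ} {p : Pt} (hp : p ∈ G.win u (G.loc u y)) :
    (y.1 : ℤ) < p.1 ∧ p.1 ≤ y.1 + 2 * G.T u ∧ |((p.2 : ℝ) - G.v * (p.1 : ℝ)) - G.lat y| ≤ (G.kw + 1) * G.w u + 1 := by
  obtain ⟨h1, h2, h3⟩ := hp
  have h4 := G.lt_rcc u y
  have h5 := G.lo_le u y
  have h6 := G.rcc_eq u (G.loc u y)
  have h7 := G.T_mono' (show u - 2 ≤ u by omega)
  have h8 := G.T_pos' (u - 1)
  refine ⟨by linarith, by linarith, ?_⟩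
  have h9 := G.lat_ctr u y
  have h10 := G.g_le u
  have h11 := G.w_pos u
  set X : ℝ := G.ctr u (G.loc u y) + G.v * ((G.rcc u (G.loc u y) : ℝ) + (G.T (u - 1) : ℝ)) with hX
  have hb : ((G.base u (G.loc u y)).2 : ℝ) = ((⌊X⌋ : ℤ) : ℝ) := rfl
  have hb1 : ((G.base u (G.loc u y)).1 : ℝ) = (G.rcc u (G.loc u y) : ℝ) + (G.T (u - 1) : ℝ) := by
    have : (G.base u (G.loc u y)).1 = G.rcc u (G.loc u y) + G.T (u - 1) := rfl
    rw [this]
    push_cast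
    ring
  rw [hb, hb1] at h3
  have h12 := Int.floor_le X
  have h13 := Int.lt_floor_add_one X
  rw [abs_le] at h3 h9 ⊢
  rw [hX] at h12 h13
  constructor
  · nlinarith [h3.1, h3.2, h9.1, h9.2]
  · nlinarith [h3.1, h3.2, h9.1, h9.2]

end Gm

end

end Pool.Agent.W_7d29a1_C1.G37
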