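import Pool.Agent.W_7d29a1_C1.StepA49

/-!
Both halves (MP_7d29a1_pr), attractor route: MOVE THE CONTACT, AVERAGED FORM: `MoveA` (all leaves as fields) and the
separation `sepA`. `T u κ`, `L u κ` may read the window `(u, κ)` and the rows beyond it; the comparisons `cmpA`, `M3A` are
averages over the content of the window, everything else being frozen. (helper49)
-/

set_option autoImplicit false

namespace Pool.Agent.W_7d29a1_C1.H49

open MeasureTheory Finset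
open scoped ENNReal

section Rat

variable {Ω X : Type*} [MeasurableSpace Ω] [Fintype X] {P : Measure Ω} {p : Par X} {w : X → Ω → ℝ≥0∞}
  {fa : ℕ → ℕ → ℕ → X → Ω → ℝ≥0∞} {pot : ℕ → ℝ → X → Ω → ℝ≥0∞} {K : ℕ → Type*} {cel : ∀ u, X → K u}

open Classical in
/-- Mass of the cell. -/
noncomputable def Wc (w : X → Ω → ℝ≥0∞) (cel : ∀ u, X → K u) (s : ℕ) (κ : K s) (ω : Ω) : ℝ≥0∞ :=
  ∑ ρ, if cel s ρ = κ then w ρ ω else 0

open Classical in
/-- Mass before the cell. -/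
noncomputable def Ec (p : Par X) (w : X → Ω → ℝ≥0∞) (low : ∀ s, K s → ℤ) (s : ℕ) (κ : K s) (ω : Ω) : ℝ≥0∞ :=
  ∑ ρ, if p.row ρ < low s κ then w ρ ω else 0

open Classical in
/-- Probability of a contact in the cell, given a contact before its end, on the event `Hs`. -/
noncomputable def rat (p : Par X) (w : X → Ω → ℝ≥0∞) (cel : ∀ u, X → K u) (low : ∀ s, K s → ℤ) (t i s : ℕ) (κ : K s)
    (ω : Ω) : ℝ≥0∞ :=
  if ω ∈ Hs p w cel t i s κ then Wc w cel s κ ω * (Ec p w low s κ ω + Wc w cel s κ ω)⁻¹ else 0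

theorem frac_mono {a W E : ℝ≥0∞} (h : a ≤ W) (hW : W ≠ ⊤) (hE : E ≠ ⊤) : a * (E + a)⁻¹ ≤ W * (E + W)⁻¹ := by
  rcases eq_or_ne a 0 with h0 | h0
  · rw [h0, zero_mul]; exact zero_le
  have ha : a ≠ ⊤ := ne_top_of_le_ne_top hW h
  have h1 : E + a ≠ 0 := by positivity
  have h2 : E + W ≠ 0 := by
    have : 0 < W := lt_of_lt_of_le (pos_iff_ne_zero.2 h0) h
    positivity
  have h3 : E + a ≠ ⊤ := ENNReal.add_ne_top.2 ⟨hE, ha⟩
  have h4 : E + W ≠ ⊤ := ENNReal.add_ne_top.2 ⟨hE, hW⟩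
  calc a * (E + a)⁻¹ = a * (E + a)⁻¹ * ((E + W) * (E + W)⁻¹) := by rw [ENNReal.mul_inv_cancel h2 h4, mul_one]
    _ = (a * E + a * W) * ((E + a)⁻¹ * (E + W)⁻¹) := by ring
    _ ≤ (W * E + a * W) * ((E + a)⁻¹ * (E + W)⁻¹) := by gcongr
    _ = W * (E + W)⁻¹ * ((E + a) * (E + a)⁻¹) := by ring
    _ = _ := by rw [ENNReal.mul_inv_cancel h1 h3, mul_one]

variable {T L : ∀ u, K u → Set Ω} {low : ∀ s, K s → ℤ}

omit [MeasurableSpace Ω] in
open Classical in
/-- THE POINTWISE BOUND of what is moved into one cell. -/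
theorem early_rat (sum_w : ∀ ω, ∑ x, w x ω ≤ 1) {t i s : ℕ} {κ : K s} {ω : Ω} {Z : ℝ≥0∞}
    (hlow : ∀ ρ, cel s ρ = κ → low s κ ≤ p.row ρ)
    (hZ : ∀ x ρ, cel s ρ = κ → (∀ u ∈ Ico (p.st t i) s, ω ∉ T u (cel u ρ) ∪ L u (cel u ρ)) → p.rel i x ρ →
      fct p w fa pot t i x ω ≤ Z) :
    ∑ ρ, {ω | cel s ρ = κ ∧ ∀ u ∈ Ico (p.st t i) s, ω ∉ T u (cel u ρ) ∪ L u (cel u ρ)}.indicator
      (fun ω => ∑ x, w x ω * eaM p w fa pot t i x ρ ω) ω ≤ rat p w cel low t i s κ ω * Z := by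
  set I : X → Set Ω := fun ρ => {ω | cel s ρ = κ ∧ ∀ u ∈ Ico (p.st t i) s, ω ∉ T u (cel u ρ) ∪ L u (cel u ρ)} with hI
  have hWt : Wc w cel s κ ω ≠ ⊤ := by
    refine ne_top_of_le_ne_top ENNReal.one_ne_top (le_trans ?_ (sum_w ω))
    unfold Wc
    refine sum_le_sum fun ρ _ => ?_
    split_ifs
    · exact le_rfl
    · exact zero_le
  have hEt : Ec p w low s κ ω ≠ ⊤ := by
    refine ne_top_of_le_ne_top ENNReal.one_ne_top (le_trans ?_ (sum_w ω))
    unfold Ec
    refine sum_le_sum fun ρ _ => ?_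
    split_ifs
    · exact le_rfl
    · exact zero_le
  -- one `x`
  have hx : ∀ x, ∑ ρ, (I ρ).indicator (eaM p w fa pot t i x ρ) ω ≤ rat p w cel low t i s κ ω * Z := by
    intro x
    by_cases hex : ∃ ρ0, ω ∈ I ρ0 ∧ Er p w fa t i x ω ∧ Gd p w t i x ρ0 ω ∧ p.row ρ0 < p.row x - p.dk i (t - 1)
    · obtain ⟨ρ0, hI0, hEr, hGd, hrow⟩ := hex
      have h0 : cel s ρ0 = κ := hI0.1
      have hH : ω ∈ Hs p w cel t i s κ := ⟨ρ0, h0, hGd.2.1, hGd.2.2⟩
      have hf : fct p w fa pot t i x ω ≤ Z := hZ x ρ0 h0 hI0.2 hGd.1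
      set e := em p.row w (p.dk i (t - 1)) x ω with he
      set A := ∑ ρ, (if cel s ρ = κ ∧ p.row ρ < p.row x - p.dk i (t - 1) then w ρ ω else 0) with hA
      have hAW : A ≤ Wc w cel s κ ω := by
        unfold Wc
        refine sum_le_sum fun ρ _ => ?_
        by_cases h2 : cel s ρ = κ
        · rw [if_pos h2]; split_ifs
          · exact le_rfl
          · exact zero_le
        · rw [if_neg h2, if_neg fun h3 => h2 h3.1]
      have hBA : Ec p w low s κ ω + A ≤ e := by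
        rw [hA, he]
        unfold Ec em
        rw [← sum_add_distrib]
        refine sum_le_sum fun ρ _ => ?_
        have h3 : low s κ ≤ p.row ρ0 := hlow ρ0 h0
        by_cases h2 : p.row ρ < low s κ
        · have h4 : ¬ (cel s ρ = κ ∧ p.row ρ < p.row x - p.dk i (t - 1)) := fun h5 => absurd (hlow ρ h5.1) (not_le.2 h2)
          rw [if_pos h2, if_neg h4, add_zero, if_pos (by omega)]
        · rw [if_neg h2, zero_add]
          by_cases h5 : cel s ρ = κ ∧ p.row ρ < p.row x - p.dk i (t - 1)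
          · rw [if_pos h5, if_pos h5.2]
          · rw [if_neg h5]; exact zero_le
      have hAe : A * e⁻¹ ≤ rat p w cel low t i s κ ω := by
        unfold rat
        rw [if_pos hH]
        exact (mul_le_mul' le_rfl (ENNReal.inv_le_inv.2 hBA)).trans (frac_mono hAW hWt hEt)
      calc ∑ ρ, (I ρ).indicator (eaM p w fa pot t i x ρ) ω
          ≤ ∑ ρ, (if cel s ρ = κ ∧ p.row ρ < p.row x - p.dk i (t - 1) then w ρ ω else 0) * (e⁻¹ * Z) := by
            refine sum_le_sum fun ρ _ => ?_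
            by_cases h4 : ω ∈ I ρ
            · rw [Set.indicator_of_mem h4]
              unfold eaM
              by_cases h5 : Er p w fa t i x ω ∧ Gd p w t i x ρ ω
              · rw [if_pos h5]
                unfold nu
                by_cases h6 : p.row ρ < p.row x - p.dk i (t - 1)
                · rw [if_pos h6, if_pos ⟨h4.1, h6⟩, ENNReal.div_eq_inv_mul]
                  calc _ ≤ (e⁻¹ * w ρ ω) * Z := mul_le_mul' le_rfl hf
                    _ = _ := by ring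
                · rw [if_neg h6, zero_mul]; exact zero_le
              · rw [if_neg h5]; exact zero_le
            · rw [Set.indicator_of_notMem h4]; exact zero_le
        _ = A * (e⁻¹ * Z) := (sum_mul _ _ _).symm
        _ = (A * e⁻¹) * Z := (mul_assoc _ _ _).symm
        _ ≤ _ := mul_le_mul' hAe le_rfl
    · refine le_trans (le_of_eq (sum_eq_zero fun ρ _ => ?_)) zero_le
      by_cases h4 : ω ∈ I ρ
      · rw [Set.indicator_of_mem h4]
        unfold eaM
        by_cases h5 : Er p w fa t i x ω ∧ Gd p w t i x ρ ω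
        · rw [if_pos h5]
          unfold nu
          rw [if_neg, zero_mul]
          exact fun h6 => hex ⟨ρ, h4, h5.1, h5.2, h6⟩
        · rw [if_neg h5]
      · rw [Set.indicator_of_notMem h4]
  calc ∑ ρ, (I ρ).indicator (fun ω => ∑ x, w x ω * eaM p w fa pot t i x ρ ω) ω
      = ∑ x, w x ω * ∑ ρ, (I ρ).indicator (eaM p w fa pot t i x ρ) ω := by
        simp_rw [mul_sum]
        rw [sum_comm]
        refine sum_congr rfl fun ρ _ => ?_
        by_cases h4 : ω ∈ I ρ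
        · rw [Set.indicator_of_mem h4]
          exact sum_congr rfl fun x _ => by rw [Set.indicator_of_mem h4]
        · rw [Set.indicator_of_notMem h4]
          exact (sum_eq_zero fun x _ => by rw [Set.indicator_of_notMem h4, mul_zero]).symm
    _ ≤ ∑ x, w x ω * (rat p w cel low t i s κ ω * Z) := sum_le_sum fun x _ => mul_le_mul' le_rfl (hx x)
    _ = (∑ x, w x ω) * (rat p w cel low t i s κ ω * Z) := (sum_mul _ _ _).symm
    _ ≤ 1 * (rat p w cel low t i s κ ω * Z) := mul_le_mul' (sum_w ω) le_rfl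
    _ = _ := one_mul _

theorem measurable_rat (mw : ∀ x, Measurable (w x)) {t i s : ℕ} {κ : K s}
    (mH : MeasurableSet (Hs p w cel t i s κ)) : Measurable (rat p w cel low t i s κ) := by
  classical
  have m1 : Measurable (Wc w cel s κ) := by
    unfold Wc
    refine Finset.measurable_sum _ fun ρ _ => ?_
    by_cases h : cel s ρ = κ
    · simp [h, mw ρ]
    · simp [h]
  have m2 : Measurable (Ec p w low s κ) := by
    unfold Ec
    refine Finset.measurable_sum _ fun ρ _ => ?_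
    by_cases h : p.row ρ < low s κ
    · simp [h, mw ρ]
    · simp [h]
  unfold rat
  exact Measurable.ite mH (m1.mul (m2.add m1).inv) measurable_const

end Rat

/-- The sum over the cells (as in `moved`, from the bound of one cell). -/
theorem moved0 {Ω : Type*} [MeasurableSpace Ω] {P : Measure Ω} {X : Type*} [Fintype X] {K : ℕ → Type*}
    [∀ u, Fintype (K u)] {t k : ℕ} {cel : ∀ u, X → K u} {N : ∀ u, K u → Set Ω} {nb : ∀ s, K s → Finset X}
    {F : X → Ω → ℝ≥0∞} {v : X → ℝ≥0∞} {q : ℕ → ℝ≥0∞} {zn : ℝ≥0∞} {C' : ℕ}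
    (mN : ∀ s κ, MeasurableSet (N s κ)) (mF : ∀ ρ, Measurable (F ρ))
    (mult : ∀ s x, ∀ S : Finset (K s), (∀ κ ∈ S, x ∈ nb s κ) → S.card ≤ C')
    (hκ : ∀ s ∈ Ico t k, ∀ κ : K s,
      ∫⁻ ω in N s κ, ∑ ρ, {ω | cel s ρ = κ ∧ ∀ u ∈ Ico t s, ω ∉ N u (cel u ρ)}.indicator (F ρ) ω ∂P ≤
        q s * ∑ ρ ∈ nb s κ, v ρ)
    (none : ∑ ρ, ∫⁻ ω in {ω | ∀ u ∈ Ico t k, ω ∉ N u (cel u ρ)}, F ρ ω ∂P ≤ zn * ∑ x, v x) :
    ∑ ρ, ∫⁻ ω, F ρ ω ∂P ≤ (∑ s ∈ Ico t k, q s * C' + zn) * ∑ x, v x := by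
  classical
  set V := ∑ x, v x with hV
  set G : X → ℕ → Set Ω := fun ρ s => {ω | ∀ u ∈ Ico t s, ω ∉ N u (cel u ρ)} with hG
  have mG : ∀ ρ s, MeasurableSet (G ρ s) := fun ρ s => by
    have e : G ρ s = ⋂ u ∈ Ico t s, (N u (cel u ρ))ᶜ := by
      ext ω; simp only [Set.mem_iInter, Set.mem_compl_iff]; rfl
    rw [e]
    exact Finset.measurableSet_biInter _ fun u _ => (mN u _).compl
  set D : X → ℕ → Set Ω := fun ρ s => G ρ s ∩ N s (cel s ρ) with hD
  have mD : ∀ ρ s, MeasurableSet (D ρ s) := fun ρ s => (mG ρ s).inter (mN s _)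
  have hdec : ∀ ρ ω, F ρ ω ≤ ∑ s ∈ Ico t k, (D ρ s).indicator (F ρ) ω + (G ρ k).indicator (F ρ) ω := by
    intro ρ ω
    by_cases h0 : ω ∈ G ρ k
    · rw [Set.indicator_of_mem h0]; exact le_add_self
    · have h1 : ∃ u, u ∈ Ico t k ∧ ω ∈ N u (cel u ρ) := by
        by_contra h2
        push Not at h2
        exact h0 fun u hu => h2 u hu
      have hs := Nat.find_spec h1
      set s := Nat.find h1
      have hsD : ω ∈ D ρ s := ⟨fun u hu hu' => by
        rw [mem_Ico] at hu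
        have h3 := hs.1
        rw [mem_Ico] at h3
        exact Nat.find_min h1 hu.2 ⟨mem_Ico.2 ⟨hu.1, by omega⟩, hu'⟩, hs.2⟩
      refine le_trans ?_ le_self_add
      refine le_trans ?_ (single_le_sum (f := fun s => (D ρ s).indicator (F ρ) ω) (fun _ _ => zero_le) hs.1)
      rw [Set.indicator_of_mem hsD]
  have mI : ∀ s (ρ : X) (κ : K s), MeasurableSet {ω | cel s ρ = κ ∧ ω ∈ G ρ s} := fun s ρ κ => by
    by_cases h1 : cel s ρ = κ
    · simpa [h1] using mG ρ s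
    · simp [h1]
  have hs : ∀ s ∈ Ico t k, ∑ ρ, ∫⁻ ω, (D ρ s).indicator (F ρ) ω ∂P ≤ q s * C' * V := by
    intro s hs
    have h1 : ∑ ρ, ∫⁻ ω, (D ρ s).indicator (F ρ) ω ∂P =
        ∑ κ : K s, ∫⁻ ω in N s κ, ∑ ρ, {ω | cel s ρ = κ ∧ ω ∈ G ρ s}.indicator (F ρ) ω ∂P := by
      have e1 : ∀ κ : K s, ∫⁻ ω in N s κ, ∑ ρ, {ω | cel s ρ = κ ∧ ω ∈ G ρ s}.indicator (F ρ) ω ∂P =
          ∑ ρ, if cel s ρ = κ then ∫⁻ ω, (D ρ s).indicator (F ρ) ω ∂P else 0 := by
        intro κ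
        rw [lintegral_finsetSum _ fun ρ _ => (mF ρ).indicator (mI s ρ κ)]
        refine sum_congr rfl fun ρ _ => ?_
        by_cases h1 : cel s ρ = κ
        · rw [if_pos h1, setLIntegral_indicator (mI s ρ κ), lintegral_indicator (mD ρ s)]
          congr 2
          subst h1
          ext ω
          simp only [hD, Set.mem_inter_iff]
          constructor
          · rintro ⟨h2, h3⟩; exact ⟨h2.2, h3⟩
          · rintro ⟨h2, h3⟩; exact ⟨⟨trivial, h2⟩, h3⟩
        · rw [if_neg h1]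
          have e2 : {ω | cel s ρ = κ ∧ ω ∈ G ρ s} = ∅ := by
            ext ω; exact ⟨fun h2 => h1 h2.1, fun h2 => h2.elim⟩
          simp [e2]
      rw [sum_congr rfl fun κ _ => e1 κ, sum_comm]
      refine sum_congr rfl fun ρ _ => ?_
      rw [sum_ite_eq]
      simp
    have h3 : ∑ κ : K s, ∑ ρ ∈ nb s κ, v ρ ≤ C' * V := by
      have e3 : ∀ κ : K s, ∑ ρ ∈ nb s κ, v ρ = ∑ ρ, if ρ ∈ nb s κ then v ρ else 0 :=
        fun κ => by rw [sum_ite_mem, univ_inter]
      rw [sum_congr rfl fun κ _ => e3 κ, sum_comm, hV, mul_sum]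
      refine sum_le_sum fun ρ _ => ?_
      rw [← sum_filter, sum_const, nsmul_eq_mul]
      refine mul_le_mul' ?_ le_rfl
      exact_mod_cast mult s ρ _ fun κ hκ => (mem_filter.1 hκ).2
    rw [h1]
    calc _ ≤ ∑ κ : K s, q s * ∑ ρ ∈ nb s κ, v ρ := sum_le_sum fun κ _ => hκ s hs κ
      _ = q s * ∑ κ : K s, ∑ ρ ∈ nb s κ, v ρ := by rw [← mul_sum]
      _ ≤ q s * (C' * V) := by gcongr
      _ = _ := by ring
  calc ∑ ρ, ∫⁻ ω, F ρ ω ∂P
      ≤ ∑ ρ, (∑ s ∈ Ico t k, ∫⁻ ω, (D ρ s).indicator (F ρ) ω ∂P + ∫⁻ ω, (G ρ k).indicator (F ρ) ω ∂P) := by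
        refine sum_le_sum fun ρ _ => ?_
        rw [← lintegral_finsetSum _ fun s _ => (mF ρ).indicator (mD ρ s),
          ← lintegral_add_right _ ((mF ρ).indicator (mG ρ k))]
        exact lintegral_mono fun ω => hdec ρ ω
    _ = ∑ s ∈ Ico t k, ∑ ρ, ∫⁻ ω, (D ρ s).indicator (F ρ) ω ∂P +
          ∑ ρ, ∫⁻ ω, (G ρ k).indicator (F ρ) ω ∂P := by
        rw [sum_add_distrib, sum_comm]
    _ ≤ ∑ s ∈ Ico t k, q s * C' * V + zn * V := by
        refine add_le_add (sum_le_sum hs) ?_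
        refine le_trans (le_of_eq ?_) none
        exact sum_congr rfl fun ρ _ => lintegral_indicator (mG ρ k) _
    _ = _ := by rw [add_mul, sum_mul]

/-- ONE CLASS: the content of the window of the cell is integrated out. -/
theorem cls_le {Ω : Type*} [MeasurableSpace Ω] {P : Measure Ω} [SFinite P] {ι : Type*} {R : Ω → Ω → Ω} {T L : Set Ω}
    (h : Lt87.Slab P R T L) {Φ r Zf : Ω → ℝ≥0∞} {W g : ι → Ω → ℝ≥0∞} {nb : Finset ι} {C1 Q0 : ℝ≥0∞} {H : Set Ω}
    (mΦ : Measurable Φ) (mr : Measurable r) (mW : ∀ x, Measurable (W x)) (mg : ∀ x, Measurable (g x))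
    (r0 : ∀ ω ∉ H, r ω = 0) (hZ : ∀ ω ∈ T ∪ L, Φ ω ≤ r ω * Zf ω)
    (hZg : ∀ ω ∈ (T ∪ L) ∩ H, P {η | R η ω ∈ (T ∪ L) ∩ H} ≠ 0 → ∀ η, R η ω ∈ L → ∀ x ∈ nb, Zf ω ≤ Q0 * g x (R η ω))
    (M3 : ∀ ω, ∫⁻ ξ, (T ∪ L).indicator r (R ξ ω) ∂P ≤ C1 * ∫⁻ η, L.indicator (fun ω => ∑ x ∈ nb, W x ω) (R η ω) ∂P) :
    ∫⁻ ω in T ∪ L, Φ ω ∂P ≤ C1 * Q0 * ∑ x ∈ nb, ∫⁻ ω, W x ω * g x ω ∂P := by
  classical
  have mN : MeasurableSet (T ∪ L) := h.mT.union h.mL
  have mWg : Measurable fun ω => ∑ x ∈ nb, W x ω * g x ω := Finset.measurable_sum _ fun x _ => (mW x).mul (mg x)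
  have hmR : ∀ ω, Measurable fun η => R η ω := fun ω =>
    h.mp.measurable.comp (measurable_id.prodMk measurable_const)
  have key : ∀ ω, ∫⁻ ξ, (T ∪ L).indicator Φ (R ξ ω) ∂P ≤
      C1 * Q0 * ∫⁻ η, L.indicator (fun ω => ∑ x ∈ nb, W x ω * g x ω) (R η ω) ∂P := by
    intro ω
    by_cases h0 : P {η | R η ω ∈ (T ∪ L) ∩ H} = 0
    · refine le_trans (le_of_eq ?_) zero_le
      refine (lintegral_eq_zero_iff ((mΦ.indicator mN).comp (hmR ω))).2 ?_
      have h1 : ∀ᵐ η ∂P, ¬ R η ω ∈ (T ∪ L) ∩ H := measure_eq_zero_iff_ae_notMem.1 h0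
      filter_upwards [h1] with η hη
      show (T ∪ L).indicator Φ (R η ω) = 0
      by_cases hN : R η ω ∈ T ∪ L
      · rw [Set.indicator_of_mem hN]
        have h2 := hZ _ hN
        rw [r0 _ fun h3 => hη ⟨hN, h3⟩, zero_mul] at h2
        exact le_antisymm h2 zero_le
      · exact Set.indicator_of_notMem hN _
    · set Z : ℝ≥0∞ := ⨆ ξ, ((T ∪ L) ∩ H).indicator Zf (R ξ ω) with hZdef
      have mr' : Measurable fun ξ => (T ∪ L).indicator r (R ξ ω) := (mr.indicator mN).comp (hmR ω)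
      have mWs : Measurable fun ω => ∑ x ∈ nb, W x ω := Finset.measurable_sum _ fun x _ => mW x
      have mL' : Measurable fun η => L.indicator (fun ω => ∑ x ∈ nb, W x ω) (R η ω) :=
        (mWs.indicator h.mL).comp (hmR ω)
      have mL2 : Measurable fun η => L.indicator (fun ω => ∑ x ∈ nb, W x ω * g x ω) (R η ω) :=
        (mWg.indicator h.mL).comp (hmR ω)
      have h1 : ∀ ξ, (T ∪ L).indicator Φ (R ξ ω) ≤ (T ∪ L).indicator r (R ξ ω) * Z := by
        intro ξ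
        by_cases hN : R ξ ω ∈ T ∪ L
        · rw [Set.indicator_of_mem hN, Set.indicator_of_mem hN]
          by_cases hH : R ξ ω ∈ H
          · refine (hZ _ hN).trans (mul_le_mul' le_rfl ?_)
            have h2 := le_iSup (fun ξ => ((T ∪ L) ∩ H).indicator Zf (R ξ ω)) ξ
            rwa [Set.indicator_of_mem (show R ξ ω ∈ (T ∪ L) ∩ H from ⟨hN, hH⟩)] at h2
          · have h2 := hZ _ hN
            rw [r0 _ hH, zero_mul] at h2
            exact h2.trans zero_le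
        · rw [Set.indicator_of_notMem hN]; exact zero_le
      have h2 : ∀ η, R η ω ∈ L → ∀ x ∈ nb, Z ≤ Q0 * g x (R η ω) := by
        intro η hη x hx
        refine iSup_le fun ξ => ?_
        by_cases hN : R ξ ω ∈ (T ∪ L) ∩ H
        · rw [Set.indicator_of_mem hN]
          have h3 := hZg _ hN (by simp only [h.rr]; exact h0) η (by rw [h.rr]; exact hη) x hx
          rwa [h.rr] at h3
        · rw [Set.indicator_of_notMem hN]; exact zero_le
      calc ∫⁻ ξ, (T ∪ L).indicator Φ (R ξ ω) ∂P ≤ ∫⁻ ξ, (T ∪ L).indicator r (R ξ ω) * Z ∂P := lintegral_mono h1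
        _ = (∫⁻ ξ, (T ∪ L).indicator r (R ξ ω) ∂P) * Z := lintegral_mul_const _ mr'
        _ ≤ (C1 * ∫⁻ η, L.indicator (fun ω => ∑ x ∈ nb, W x ω) (R η ω) ∂P) * Z := mul_le_mul' (M3 ω) le_rfl
        _ = C1 * ∫⁻ η, L.indicator (fun ω => ∑ x ∈ nb, W x ω) (R η ω) * Z ∂P := by
            rw [lintegral_mul_const _ mL', mul_assoc]
        _ ≤ C1 * ∫⁻ η, Q0 * L.indicator (fun ω => ∑ x ∈ nb, W x ω * g x ω) (R η ω) ∂P := by
            refine mul_le_mul' le_rfl (lintegral_mono fun η => ?_)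
            by_cases hη : R η ω ∈ L
            · rw [Set.indicator_of_mem hη, Set.indicator_of_mem hη, sum_mul, mul_sum]
              refine sum_le_sum fun x hx => ?_
              calc W x (R η ω) * Z ≤ W x (R η ω) * (Q0 * g x (R η ω)) := mul_le_mul' le_rfl (h2 η hη x hx)
                _ = _ := by ring
            · rw [Set.indicator_of_notMem hη, zero_mul]; exact zero_le
        _ = _ := by rw [lintegral_const_mul _ mL2]; ring
  calc ∫⁻ ω in T ∪ L, Φ ω ∂P = ∫⁻ ω, ∫⁻ ξ, (T ∪ L).indicator Φ (R ξ ω) ∂P ∂P := (h.transport mN mΦ).symm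
    _ ≤ ∫⁻ ω, C1 * Q0 * ∫⁻ η, L.indicator (fun ω => ∑ x ∈ nb, W x ω * g x ω) (R η ω) ∂P ∂P := lintegral_mono key
    _ = C1 * Q0 * ∫⁻ ω in L, (∑ x ∈ nb, W x ω * g x ω) ∂P := by
        have mm : Measurable fun ω => ∫⁻ η, L.indicator (fun ω => ∑ x ∈ nb, W x ω * g x ω) (R η ω) ∂P :=
          Measurable.lintegral_prod_left'
            (f := fun x : Ω × Ω => L.indicator (fun ω => ∑ x ∈ nb, W x ω * g x ω) (R x.1 x.2))
            ((mWg.indicator h.mL).comp h.mp.measurable)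
        rw [lintegral_const_mul _ mm, h.transport h.mL mWg]
    _ ≤ C1 * Q0 * ∫⁻ ω, (∑ x ∈ nb, W x ω * g x ω) ∂P := mul_le_mul' le_rfl (setLIntegral_le_lintegral _ _)
    _ = _ := by
        have mm : ∀ x, Measurable fun ω => W x ω * g x ω := fun x => (mW x).mul (mg x)
        rw [lintegral_finsetSum _ fun x _ => mm x]

end Pool.Agent.W_7d29a1_C1.H49
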