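import Pool.Agent.W_7d29a1_C1.EarD28
import Pool.Agent.W_7d29a1_C1.PathW58
import Pool.Agent.W_7d29a1_C1.SepDef53
import Pool.Agent.W_7d29a1_C1.SkelA49

/-!
MP_7d29a1_pr, attractor route, [C1] SEP: THE FIELD `M3A` OF `MoveQ` (the early moment of one cell), averaged over the content of
the window, for every frozen rest which has a typical content in `Hs`. (helper28)

* `avg28` : measure theory. `T` typical, `TF ⊇ T` (its levels), `Gd i` = gate of the contact `i` of the cell, `Lk ω'` = lucky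
  contents behind the gate; from the fibre inequality of every contact and the pointwise comparison of the SUM over the cell;
* `rat_le28` : `rat ≤ ∑_ρ w₀ ρ zc(ρ)² / D`, `D` = the same sum over the early contacts and the cell, `w₀` frozen;
* `m3A28` : the field.
-/

set_option autoImplicit false

namespace Pool.Agent.W_7d29a1_C1.MM28

open MeasureTheory ProbabilityTheory Finset
open Pool.Agent.W_7d29a1_F Pool.Agent.W_7d29a1_h4g Pool.Agent.W_7d29a1_H Pool.Agent.W_7d29a1_HS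
open Pool.Agent.W_7d29a1_C1.S71
open Pool.Agent.W_7d29a1_C1.F31 (DecO FinO)
open Pool.Agent.W_7d29a1_C1.K91 (Box Grp wt wt_pos measurable_wt)
open Pool.Agent.W_7d29a1_C1.K91P (fw bw bw_pos)
open Pool.Agent.W_7d29a1_C1.U16 (ker ker_nonneg)
open Pool.Agent.W_7d29a1_C1.Gt66 (Pa Gd66 measurable_Gd66)
open Pool.Agent.W_7d29a1_C1.PW58 (kap kap_nonneg measurable_kap kc kc_nonneg measurable_kc kc_off InRows Fr w0 zc w_eq D_pos
  zc_pos w0_nonneg w0_gl hgateT58)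
open Pool.Agent.W_7d29a1_C1.CmpG20 (LuckG)
open Pool.Agent.W_7d29a1_C1.Ea28
open Pool.Agent.W_7d29a1_C1.H60
open Pool.Agent.W_7d29a1_C1.H49 (Par Hs Wc Ec rat ex)
open Pool.Agent.W_7d29a1_C1.SD53 (XX row)
open scoped ENNReal

noncomputable section

attribute [local instance 10] Classical.propDecidable

/-- **MEASURE THEORY OF `M3A`.** -/
theorem avg28 {Ω ι : Type*} [MeasurableSpace Ω] {P : Measure Ω} [SFinite P] {R R₂ : Ω → Ω → Ω} {Ka : Finset ι}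
    {T TF L : Set Ω} {Gd : ι → Set Ω} {rt V : Ω → ℝ≥0∞} {r u : ι → Ω → ℝ≥0∞} (mr : ∀ i ∈ Ka, Measurable (r i))
    (mu : ∀ i ∈ Ka, Measurable (u i)) (mG : ∀ i ∈ Ka, MeasurableSet (Gd i)) (mV : Measurable V) (mT : MeasurableSet T)
    (mTF : MeasurableSet TF) (mL : MeasurableSet L) (mR : Measurable fun x : Ω × Ω => R x.1 x.2)
    (mR₂ : Measurable fun x : Ω × Ω => R₂ x.1 x.2)
    (hRR : ∀ ω, ∀ f : Ω → ℝ≥0∞, Measurable f → ∫⁻ ξ, ∫⁻ η, f (R₂ η (R ξ ω)) ∂P ∂P = ∫⁻ ξ, f (R ξ ω) ∂P) {ω : Ω}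
    (hrt : ∀ ξ, R ξ ω ∈ T → rt (R ξ ω) ≤ ∑ i ∈ Ka, r i (R ξ ω)) {C₁ C₂ c₁ : ℝ≥0∞}
    (hfib : ∀ i ∈ Ka, ∫⁻ ξ, T.indicator (r i) (R ξ ω) ∂P ≤ C₁ * ∫⁻ ξ, (TF ∩ Gd i).indicator (u i) (R ξ ω) ∂P)
    {Lk : Ω → Set Ω} (mLk : ∀ ω, MeasurableSet (Lk ω)) (hLk : ∀ ξ, R ξ ω ∈ TF → c₁ ≤ P (Lk (R ξ ω)))
    (hcmp : ∀ ξ, R ξ ω ∈ TF → ∀ η ∈ Lk (R ξ ω), R₂ η (R ξ ω) ∈ L ∧
      ∑ i ∈ Ka, (Gd i).indicator (u i) (R ξ ω) ≤ C₂ * V (R₂ η (R ξ ω))) :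
    c₁ * ∫⁻ ξ, T.indicator rt (R ξ ω) ∂P ≤ C₁ * C₂ * ∫⁻ η, L.indicator V (R η ω) ∂P := by
  classical
  have mRω : Measurable fun ξ => R ξ ω := mR.comp (measurable_id.prodMk measurable_const)
  set F : Ω → ℝ≥0∞ := fun ω' => ∑ i ∈ Ka, (TF ∩ Gd i).indicator (u i) ω' with hF
  have mF : Measurable F := Finset.measurable_fun_sum _ fun i hi => (mu i hi).indicator (mTF.inter (mG i hi))
  -- the sum over the cell
  have h1 : ∫⁻ ξ, T.indicator rt (R ξ ω) ∂P ≤ C₁ * ∫⁻ ξ, F (R ξ ω) ∂P := by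
    calc ∫⁻ ξ, T.indicator rt (R ξ ω) ∂P ≤ ∫⁻ ξ, ∑ i ∈ Ka, T.indicator (r i) (R ξ ω) ∂P := by
          refine lintegral_mono fun ξ => ?_
          by_cases h : R ξ ω ∈ T
          · rw [Set.indicator_of_mem h]
            refine (hrt ξ h).trans (le_of_eq (sum_congr rfl fun i _ => ?_))
            rw [Set.indicator_of_mem h]
          · rw [Set.indicator_of_notMem h]
            exact zero_le
      _ = ∑ i ∈ Ka, ∫⁻ ξ, T.indicator (r i) (R ξ ω) ∂P :=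
          lintegral_finsetSum _ fun i hi => ((mr i hi).indicator mT).comp mRω
      _ ≤ ∑ i ∈ Ka, C₁ * ∫⁻ ξ, (TF ∩ Gd i).indicator (u i) (R ξ ω) ∂P := sum_le_sum hfib
      _ = C₁ * ∫⁻ ξ, F (R ξ ω) ∂P := by
          rw [← mul_sum, hF]
          congr 1
          exact (lintegral_finsetSum _ fun i hi => ((mu i hi).indicator (mTF.inter (mG i hi))).comp mRω).symm
  -- the lucky contents behind the gate
  have key : ∀ ξ, c₁ * F (R ξ ω) ≤ C₂ * ∫⁻ η, L.indicator V (R₂ η (R ξ ω)) ∂P := by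
    intro ξ
    by_cases h2 : R ξ ω ∈ TF
    · have mR₂' : Measurable fun η => R₂ η (R ξ ω) := mR₂.comp (measurable_id.prodMk measurable_const)
      have e : F (R ξ ω) = ∑ i ∈ Ka, (Gd i).indicator (u i) (R ξ ω) := by
        rw [hF]
        refine sum_congr rfl fun i _ => ?_
        by_cases h3 : R ξ ω ∈ Gd i
        · rw [Set.indicator_of_mem h3, Set.indicator_of_mem (Set.mem_inter h2 h3)]
        · rw [Set.indicator_of_notMem h3, Set.indicator_of_notMem fun h4 => h3 h4.2]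
      calc c₁ * F (R ξ ω) ≤ P (Lk (R ξ ω)) * F (R ξ ω) := mul_le_mul' (hLk ξ h2) le_rfl
        _ = ∫⁻ η, (Lk (R ξ ω)).indicator (fun _ => F (R ξ ω)) η ∂P := by
            rw [lintegral_indicator_const (mLk _), mul_comm]
        _ ≤ ∫⁻ η, C₂ * L.indicator V (R₂ η (R ξ ω)) ∂P := by
            refine lintegral_mono fun η => ?_
            by_cases h3 : η ∈ Lk (R ξ ω)
            · obtain ⟨h4, h5⟩ := hcmp ξ h2 η h3
              rw [Set.indicator_of_mem h3, Set.indicator_of_mem h4, e]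
              exact h5
            · rw [Set.indicator_of_notMem h3]
              exact zero_le
        _ = _ := lintegral_const_mul _ ((mV.indicator mL).comp mR₂')
    · have e : F (R ξ ω) = 0 := by
        rw [hF]
        refine sum_eq_zero fun i _ => ?_
        rw [Set.indicator_of_notMem fun h4 => h2 h4.1]
      rw [e, mul_zero]
      exact zero_le
  have mI : Measurable fun ω' => ∫⁻ η, L.indicator V (R₂ η ω') ∂P :=
    Measurable.lintegral_prod_left' (f := fun x : Ω × Ω => L.indicator V (R₂ x.1 x.2)) ((mV.indicator mL).comp mR₂)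
  calc c₁ * ∫⁻ ξ, T.indicator rt (R ξ ω) ∂P ≤ c₁ * (C₁ * ∫⁻ ξ, F (R ξ ω) ∂P) := mul_le_mul' le_rfl h1
    _ = C₁ * ∫⁻ ξ, c₁ * F (R ξ ω) ∂P := by
        have mFR : Measurable fun ξ => F (R ξ ω) := mF.comp mRω
        rw [lintegral_const_mul _ mFR]
        ring
    _ ≤ C₁ * ∫⁻ ξ, C₂ * ∫⁻ η, L.indicator V (R₂ η (R ξ ω)) ∂P ∂P := mul_le_mul' le_rfl (lintegral_mono key)
    _ = C₁ * C₂ * ∫⁻ ξ, ∫⁻ η, L.indicator V (R₂ η (R ξ ω)) ∂P ∂P := by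
        have mIR : Measurable fun ξ => ∫⁻ η, L.indicator V (R₂ η (R ξ ω)) ∂P := mI.comp mRω
        rw [lintegral_const_mul _ mIR, mul_assoc]
    _ = _ := by rw [hRR ω _ (mV.indicator mL)]

/-! ### The denominator, frozen prefactors -/

variable {Γ : Cx}

/-- The early contacts. -/
def Ea (Γ : Cx) (lw : ℤ) : Finset (ℕ × ℤ) := (Γ.rows 0 Γ.N).filter fun c => (c.1 : ℤ) < lw

/-- The contacts of a cell. -/
def Kx {K : Type*} (Γ : Cx) (cl : XX Γ → K) (κ : K) : Finset (XX Γ) := univ.filter fun x => cl x = κ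

/-- **The denominator**: prefactors at `ω`, totals at `η`. -/
def DD {K : Type*} (Γ : Cx) (cl : XX Γ → K) (κ : K) (lw : ℤ) (ω η : Env) : ℝ :=
  ∑ c ∈ Ea Γ lw, w0 Γ c ω * zc Γ c η ^ 2 + ∑ x ∈ Kx Γ cl κ, w0 Γ x.1 ω * zc Γ x.1 η ^ 2

/-- The core mass of a contact. -/
def Z1 {n : ℕ} (Γ : Cx) (a : ℕ) (Pp : XX Γ → Finset (Pa n)) (x : XX Γ) (η : Env) : ℝ :=
  ∑ π ∈ Pp x, kap Γ.p a Γ.N (kc Γ.p (x.1.1 + 1) a x.1.2) π η

variable {K : Type*} {cl : XX Γ → K} {κ : K} {lw : ℤ}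

theorem meas_zc (c : ℕ × ℤ) : Measurable (zc Γ c) :=
  H60.pm_bw (W := wt) (p := Γ.p) measurable_wt _ _ _

theorem zc_mono {η η' : Env} (h : ∀ x, η x ≤ η' x) (c : ℕ × ℤ) : zc Γ c η ≤ zc Γ c η' :=
  H10.bw_mono10 (fun i z => (wt_pos η i z).le) (PW58.wt_mono h) (Cx.p_pos Γ) _ _ _

theorem meas_DD (ω : Env) : Measurable (DD Γ cl κ lw ω) :=
  (Finset.measurable_fun_sum _ fun c _ => ((meas_zc c).pow_const 2).const_mul _).add
    (Finset.measurable_fun_sum _ fun x _ => ((meas_zc x.1).pow_const 2).const_mul _)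

theorem DD_mono (h : Γ.Ok) (ω : Env) {η η' : Env} (hη : ∀ x, η x ≤ η' x) : DD Γ cl κ lw ω η ≤ DD Γ cl κ lw ω η' := by
  have h1 : ∀ c : ℕ × ℤ, w0 Γ c ω * zc Γ c η ^ 2 ≤ w0 Γ c ω * zc Γ c η' ^ 2 := fun c =>
    mul_le_mul_of_nonneg_left (pow_le_pow_left₀ (zc_pos c η).le (zc_mono hη c) 2) (w0_nonneg h c ω)
  exact add_le_add (sum_le_sum fun c _ => h1 c) (sum_le_sum fun x _ => h1 x.1)

theorem DD_pos (h : Γ.Ok) {ω : Env} {x : XX Γ} (hx : cl x = κ) (h0 : 0 < w0 Γ x.1 ω) (η : Env) : 0 < DD Γ cl κ lw ω η := by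
  have h1 : ∀ c : ℕ × ℤ, 0 ≤ w0 Γ c ω * zc Γ c η ^ 2 := fun c => mul_nonneg (w0_nonneg h c ω) (sq_nonneg _)
  have h2 : w0 Γ x.1 ω * zc Γ x.1 η ^ 2 ≤ ∑ x ∈ Kx Γ cl κ, w0 Γ x.1 ω * zc Γ x.1 η ^ 2 :=
    single_le_sum (f := fun x : XX Γ => w0 Γ x.1 ω * zc Γ x.1 η ^ 2) (fun x _ => h1 x.1)
      (mem_filter.2 ⟨mem_univ _, hx⟩)
  have h3 : 0 < w0 Γ x.1 ω * zc Γ x.1 η ^ 2 := mul_pos h0 (pow_pos (zc_pos _ _) 2)
  have h4 : 0 ≤ ∑ c ∈ Ea Γ lw, w0 Γ c ω * zc Γ c η ^ 2 := sum_nonneg fun c _ => h1 c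
  unfold DD
  linarith

theorem le_DD (h : Γ.Ok) {ω : Env} {x : XX Γ} (hx : cl x = κ) (η : Env) : w0 Γ x.1 ω * zc Γ x.1 η ^ 2 ≤ DD Γ cl κ lw ω η := by
  have h1 : ∀ c : ℕ × ℤ, 0 ≤ w0 Γ c ω * zc Γ c η ^ 2 := fun c => mul_nonneg (w0_nonneg h c ω) (sq_nonneg _)
  have h2 : w0 Γ x.1 ω * zc Γ x.1 η ^ 2 ≤ ∑ x ∈ Kx Γ cl κ, w0 Γ x.1 ω * zc Γ x.1 η ^ 2 :=
    single_le_sum (f := fun x : XX Γ => w0 Γ x.1 ω * zc Γ x.1 η ^ 2) (fun x _ => h1 x.1)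
      (mem_filter.2 ⟨mem_univ _, hx⟩)
  have h4 : 0 ≤ ∑ c ∈ Ea Γ lw, w0 Γ c ω * zc Γ c η ^ 2 := sum_nonneg fun c _ => h1 c
  unfold DD
  linarith

/-- Early mass and mass of the cell. -/
theorem DD_eq {ω η : Env} (hE : ∀ c ∈ Ea Γ lw, w0 Γ c η = w0 Γ c ω) (hK : ∀ x, cl x = κ → w0 Γ x.1 η = w0 Γ x.1 ω) :
    ∑ c ∈ Ea Γ lw, Γ.w c η + ∑ x ∈ Kx Γ cl κ, Γ.w x.1 η = DD Γ cl κ lw ω η / (Γ.ZM η * Γ.ZR η) := by
  unfold DD
  rw [add_div, sum_div, sum_div]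
  congr 1
  · exact sum_congr rfl fun c hc => by rw [w_eq, hE c hc]
  · exact sum_congr rfl fun x hx => by rw [w_eq, hK x (mem_filter.1 hx).2]

theorem Wc_eq28 {K : ℕ → Type*} (h : Γ.Ok) (cel : ∀ u, XX Γ → K u) (s : ℕ) (κ : K s) (η : Env) :
    Wc (SD53.w Γ) cel s κ η = ENNReal.ofReal (∑ x ∈ Kx Γ (cel s) κ, Γ.w x.1 η) := by
  unfold Wc SD53.w Kx
  rw [ENNReal.ofReal_sum_of_nonneg fun x _ => Cx.w_nonneg h _ _, ← sum_filter]

theorem Ec_eq28 {K : ℕ → Type*} (h : Γ.Ok) {p : Par (XX Γ)} (hrow : p.row = row Γ) (low : ∀ s, K s → ℤ) (s : ℕ) (κ : K s)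
    (η : Env) : Ec p (SD53.w Γ) low s κ η = ENNReal.ofReal (∑ c ∈ Ea Γ (low s κ), Γ.w c η) := by
  unfold Ec SD53.w
  rw [hrow, ENNReal.ofReal_sum_of_nonneg fun x _ => Cx.w_nonneg h _ _]
  have e := SD53.sum_w_coe (Γ := Γ) fun c => if (c.1 : ℤ) < low s κ then ENNReal.ofReal (Γ.w c η) else 0
  unfold row
  rw [e, ← sum_filter]
  refine sum_congr ?_ fun _ _ => rfl
  ext c
  simp [Ea]

/-- **THE RATIO, frozen prefactors.** -/
theorem rat_le28 {K : ℕ → Type*} (h : Γ.Ok) {p : Par (XX Γ)} (hrow : p.row = row Γ) {cel : ∀ u, XX Γ → K u}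
    {low : ∀ s, K s → ℤ} {t i s : ℕ} {κ : K s} {ω η : Env} (hE : ∀ c ∈ Ea Γ (low s κ), w0 Γ c η = w0 Γ c ω)
    (hK : ∀ x, cel s x = κ → w0 Γ x.1 η = w0 Γ x.1 ω) (hD : 0 < DD Γ (cel s) κ (low s κ) ω η) :
    rat p (SD53.w Γ) cel low t i s κ η ≤
      ∑ x ∈ Kx Γ (cel s) κ, ENNReal.ofReal (w0 Γ x.1 ω * zc Γ x.1 η ^ 2 / DD Γ (cel s) κ (low s κ) ω η) := by
  unfold rat
  split_ifs
  · have hZ := D_pos h η
    have e := DD_eq (lw := low s κ) hE hK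
    have E0 : 0 ≤ ∑ c ∈ Ea Γ (low s κ), Γ.w c η := sum_nonneg fun c _ => Cx.w_nonneg h _ _
    have W0 : 0 ≤ ∑ x ∈ Kx Γ (cel s) κ, Γ.w x.1 η := sum_nonneg fun c _ => Cx.w_nonneg h _ _
    have hEW : 0 < ∑ c ∈ Ea Γ (low s κ), Γ.w c η + ∑ x ∈ Kx Γ (cel s) κ, Γ.w x.1 η := by
      rw [e]
      exact div_pos hD hZ
    rw [Wc_eq28 h, Ec_eq28 h hrow, ← ENNReal.ofReal_add E0 W0, ← ENNReal.ofReal_inv_of_pos hEW, ← ENNReal.ofReal_mul W0,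
      ← ENNReal.ofReal_sum_of_nonneg fun x _ => div_nonneg (mul_nonneg (w0_nonneg h _ _) (sq_nonneg _)) hD.le]
    refine ENNReal.ofReal_le_ofReal (le_of_eq ?_)
    rw [e, sum_mul]
    refine sum_congr rfl fun x hx => ?_
    rw [w_eq, hK x (mem_filter.1 hx).2]
    generalize Γ.ZM η * Γ.ZR η = z at *
    generalize DD Γ (cel s) κ (low s κ) ω η = D at *
    field_simp
  · exact zero_le

/-! ### The field -/

variable {μ : Measure ℝ}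

/-- **THE FIELD `M3A`.** `a, …, a + n` = gate block (rows), `Y0` = mouth (row `a + n`), `B` = window, `B₂ ⊆ B` = its sites behind the
gate, `S ⊆ B` = wall sites. `TF` = what of `T` is decreasing in the wall sites. -/
theorem m3A28 [IsProbabilityMeasure μ] {K : ℕ → Type*} (h : Γ.Ok) {p : Par (XX Γ)} (hrow : p.row = row Γ)
    {cel : ∀ u, XX Γ → K u} {low : ∀ s, K s → ℤ} {t i s : ℕ} {κ : K s} {nbs : Finset (XX Γ)}
    (hKn : ∀ x, cel s x = κ → x ∈ nbs)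
    -- geometry
    {B B₂ S : Set Pt} (hB2 : B₂ ⊆ B) (hSB : S ⊆ B) {a n : ℕ} (hS : InRows a n S)
    (hKa : ∀ x, cel s x = κ → x.1.1 + 1 ≤ a) (hKB : ∀ x, cel s x = κ → ∀ q ∈ B, (x.1.1 : ℤ) < q.1)
    (hla : low s κ ≤ a) (hlB : ∀ q ∈ B, low s κ ≤ q.1)
    -- typical, levels, lucky
    {T TF L : Set Env} (mT : MeasurableSet T) (mTF : MeasurableSet TF) (mL : MeasurableSet L) (hTT : T ⊆ TF)
    -- the paths of the contacts in the core, the walls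
    {Pp : XX Γ → Finset (Pa n)} (hTF : ∀ x, cel s x = κ → ∀ π ∈ Pp x, ∀ π' ∈ Pp x, DecO (Fr S a π π') TF)
    {C : Pa n → Pa n → Set Env} (mC : ∀ π π', MeasurableSet (C π π'))
    (hC : ∀ x, cel s x = κ → ∀ π ∈ Pp x, ∀ π' ∈ Pp x, DecO (Fr S a π π') (C π π'))
    (fC : ∀ x, cel s x = κ → ∀ π ∈ Pp x, ∀ π' ∈ Pp x, FinO (Fr S a π π') (C π π')) {p₀ : ℝ} (hp₀ : 0 < p₀)
    (hpC : ∀ x, cel s x = κ → ∀ π ∈ Pp x, ∀ π' ∈ Pp x, p₀ ≤ (law μ).real (C π π')) {C₀ : ℝ}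
    (hcore : ∀ x, cel s x = κ → ∀ η ∈ T, zc Γ x.1 η ≤ C₀ * Z1 Γ a Pp x η)
    (hsum : ∀ x, cel s x = κ → ∀ η, Z1 Γ a Pp x η ≤ zc Γ x.1 η) {Y0 : Finset ℤ}
    -- the rest, fixed, with one content in `T ∩ Hs`
    {ω : Env} (hH : ω ∈ Hs p (SD53.w Γ) cel t i s κ)
    -- the gate
    {g : ℝ} (hg : 0 ≤ g) (hgate : ∀ ξ, ∀ x, cel s x = κ → gl B ξ ω ∈ TF →
      gl B ξ ω ∈ Gd66 (Pp x) (kap Γ.p a Γ.N (kc Γ.p (x.1.1 + 1) a x.1.2)) C (p₀ / 2) →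
      GateK (wt (gl B ξ ω)) Γ.p Γ.N a (a + n) Y0 (Z1 Γ a Pp x (gl B ξ ω)) g x.1.1 x.1.2)
    -- the luck behind the gate
    {Lk : Env → Set Env} (mLk : ∀ ω, MeasurableSet (Lk ω)) {c₁ : ℝ≥0∞} (hc₁ : c₁ ≠ 0) (hc₁' : c₁ ≠ ⊤)
    (hLk : ∀ ξ, gl B ξ ω ∈ TF → c₁ ≤ law μ (Lk (gl B ξ ω))) {Y lam : ℝ} (hlam : 0 < lam)
    (hluck : ∀ ξ, gl B ξ ω ∈ TF → ∀ η ∈ Lk (gl B ξ ω), gl B₂ η (gl B ξ ω) ∈ L ∧ ∃ tb : ℤ → ℝ,
      LuckG (wt (gl B ξ ω)) (wt (gl B₂ η (gl B ξ ω))) Γ.p Γ.N (a + n) 0 Γ.hi Y0 tb Y ∧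
      (∀ x, cel s x = κ →
        gl B ξ ω ∈ Gd66 (Pp x) (kap Γ.p a Γ.N (kc Γ.p (x.1.1 + 1) a x.1.2)) C (p₀ / 2) →
        lam * Z1 Γ a Pp x (gl B ξ ω) ≤
          ∑ v ∈ Y0, ker (wt (gl B ξ ω)) Γ.p (x.1.1 + 1) (a + n - (x.1.1 + 1)) x.1.2 v * tb v) ∧
      7 / 8 ≤ ∑ c ∈ Ea Γ (low s κ), Γ.w c (gl B₂ η (gl B ξ ω)) + ∑ x ∈ nbs, Γ.w x.1 (gl B₂ η (gl B ξ ω))) :
    ∫⁻ ξ, T.indicator (rat p (SD53.w Γ) cel low t i s κ) (gl B ξ ω) ∂(law μ) ≤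
      (c₁⁻¹ * (ENNReal.ofReal (C₀ ^ 2 * (2 / p₀)) * ENNReal.ofReal (3 + 2 * (g + Y / lam) ^ 2))) *
        ∫⁻ η, L.indicator (fun ω => ∑ x ∈ nbs, SD53.w Γ x ω) (gl B η ω) ∂(law μ) := by
  have : IsProbabilityMeasure (law μ) := by unfold law; infer_instance
  have hp := Cx.p_pos Γ
  -- one contact of positive weight
  obtain ⟨x₀, hx₀, hx₁, -⟩ := hH
  have hw₀ : 0 < w0 Γ x₀.1 ω := by
    have h1 : 0 < Γ.w x₀.1 ω := by
      by_contra hc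
      have h2 : SD53.w Γ x₀ ω = 0 := ENNReal.ofReal_eq_zero.2 (not_lt.1 hc)
      rw [h2, nonpos_iff_eq_zero] at hx₁
      unfold H49.ex at hx₁
      exact (ENNReal.ofReal_pos.2 (Real.exp_pos _)).ne' hx₁
    rcases (w0_nonneg h x₀.1 ω).lt_or_eq with h2 | h2
    · exact h2
    · rw [w_eq, ← h2, zero_mul, zero_div] at h1
      exact absurd h1 (lt_irrefl _)
  have hD : ∀ η, 0 < DD Γ (cel s) κ (low s κ) ω η := fun η => DD_pos h hx₀ hw₀ η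
  -- frozen prefactors
  have hE : ∀ ξ, ∀ c ∈ Ea Γ (low s κ), w0 Γ c (gl B ξ ω) = w0 Γ c ω := fun ξ c hc =>
    w0_gl (fun q hq => lt_of_lt_of_le (mem_filter.1 hc).2 (hlB q hq)) ξ ω
  have hK : ∀ ξ, ∀ x, cel s x = κ → w0 Γ x.1 (gl B ξ ω) = w0 Γ x.1 ω := fun ξ x hx => w0_gl (hKB x hx) ξ ω
  have mZ1 : ∀ x : XX Γ, Measurable (Z1 Γ a Pp x) := fun x =>
    Finset.measurable_fun_sum _ fun π _ => measurable_kap (measurable_kc (p := Γ.p) (x.1.1 + 1) a x.1.2) π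
  have Z10 : ∀ x : XX Γ, ∀ η, 0 ≤ Z1 Γ a Pp x η := fun x η =>
    sum_nonneg fun π _ => kap_nonneg hp (fun η y => kc_nonneg hp _ _ _ η y) π η
  have key := avg28 (P := law μ) (R := gl B) (R₂ := gl B₂) (Ka := Kx Γ (cel s) κ) (T := T) (TF := TF) (L := L)
    (Gd := fun x => Gd66 (Pp x) (kap Γ.p a Γ.N (kc Γ.p (x.1.1 + 1) a x.1.2)) C (p₀ / 2))
    (rt := rat p (SD53.w Γ) cel low t i s κ) (V := fun ω => ∑ x ∈ nbs, SD53.w Γ x ω)
    (r := fun x η => ENNReal.ofReal (w0 Γ x.1 ω * zc Γ x.1 η ^ 2 / DD Γ (cel s) κ (low s κ) ω η))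
    (u := fun x η => ENNReal.ofReal (w0 Γ x.1 ω * Z1 Γ a Pp x η ^ 2 / DD Γ (cel s) κ (low s κ) ω η))
    (fun x _ => ((((meas_zc x.1).pow_const 2).const_mul _).div (meas_DD ω)).ennreal_ofReal)
    (fun x _ => ((((mZ1 x).pow_const 2).const_mul _).div (meas_DD ω)).ennreal_ofReal)
    (fun x _ => measurable_Gd66 (fun π => measurable_kap (measurable_kc (p := Γ.p) (x.1.1 + 1) a x.1.2) π) mC _)
    (Finset.measurable_fun_sum _ fun x _ => SD53.meas_w x) mT mTF mL (measurable_gl B) (measurable_gl B₂)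
    (fun ω f hf => CmpG20.gl_gl20 hB2 ω hf) (ω := ω) (fun ξ _ => rat_le28 h hrow (hE ξ) (hK ξ) (hD _))
    (C₁ := ENNReal.ofReal (C₀ ^ 2 * (2 / p₀))) (C₂ := ENNReal.ofReal (3 + 2 * (g + Y / lam) ^ 2)) (c₁ := c₁)
    (fun x hx => ?_) mLk hLk fun ξ hξ η hη => ?_
  · calc ∫⁻ ξ, T.indicator (rat p (SD53.w Γ) cel low t i s κ) (gl B ξ ω) ∂(law μ)
        = c₁⁻¹ * (c₁ * ∫⁻ ξ, T.indicator (rat p (SD53.w Γ) cel low t i s κ) (gl B ξ ω) ∂(law μ)) := by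
          rw [← mul_assoc, ENNReal.inv_mul_cancel hc₁ hc₁', one_mul]
      _ ≤ c₁⁻¹ * _ := mul_le_mul' le_rfl key
      _ = _ := by rw [mul_assoc, mul_assoc, mul_assoc]
  · -- the fibre inequality of one contact
    have hx' : cel s x = κ := (mem_filter.1 hx).2
    exact hgateT58 (N := Γ.N) hp hS hSB (fun η y => kc_nonneg hp _ _ _ η y) (measurable_kc (p := Γ.p) (x.1.1 + 1) a x.1.2)
      (fun η η' hη y => kc_off (hKa x hx') hS x.1.2 η η' hη y) (meas_DD ω) hD (fun η η' hη => DD_mono h ω hη) hTT mTF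
      (hTF x hx') mC (hC x hx') (fC x hx') hp₀ (hpC x hx') (w₀ := fun _ => w0 Γ x.1 ω) (fun _ => w0_nonneg h _ _)
      measurable_const (fun _ _ _ => rfl) (K := 1) ω (fun ξ => by
        rw [one_mul]
        refine le_trans ?_ (le_DD h hx' (gl B ξ ω))
        exact mul_le_mul_of_nonneg_left (pow_le_pow_left₀ (Z10 x _) (hsum x hx' _) 2) (w0_nonneg h _ _))
      (fun η => (zc_pos _ _).le) (hcore x hx')
  · -- the comparison of the sum over the cell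
    obtain ⟨hL, tb, hG, hlev, hrest⟩ := hluck ξ hξ η hη
    refine ⟨hL, ?_⟩
    set ω' := gl B ξ ω with hω'
    set ω'' := gl B₂ η ω' with hω''
    set Kg : Finset (XX Γ) := (Kx Γ (cel s) κ).filter fun x =>
      ω' ∈ Gd66 (Pp x) (kap Γ.p a Γ.N (kc Γ.p (x.1.1 + 1) a x.1.2)) C (p₀ / 2) with hKg
    have hbox := Cx.box1 h
    have hlp : ∃ y, 0 < Cx.l y := ⟨0, by unfold Cx.l; simp⟩
    have hrp : ∃ y, 0 < Γ.r y := by
      by_contra hc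
      push Not at hc
      have h1 := Cx.ZR_pos h ω
      have h2 : Γ.ZR ω ≤ 0 := sum_nonpos fun y _ => mul_nonpos_of_nonpos_of_nonneg (hc y) (bw_pos (wt_pos ω) hp _ _ _).le
      linarith
    have epc : ∀ (c : ℕ × ℤ) (η : Env), Sp22.pc (wt η) Γ.p Cx.l Γ.r 0 Γ.hi Γ.N c.1 c.2 = Γ.w c η := fun c η => by
      unfold Sp22.pc Cx.w
      rw [E53.Zt_l53 h, E53.Zt_r53]
    have emb : Function.Injective (fun x : XX Γ => x.1) := Subtype.val_injective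
    have e1 := early28 (Ea := Ea Γ (low s κ)) (Ka := (Kx Γ (cel s) κ).image fun x => x.1) (Kg := Kg.image fun x => x.1)
      (Nb := nbs.image fun x => x.1) (a₀ := a) (Z1 := fun c => if hc : c ∈ Γ.rows 0 Γ.N then Z1 Γ a Pp ⟨c, hc⟩ ω' else 0)
      (g := g) (lam := lam) hG hlam hg (Nat.le_add_right a n) hbox hlp hrp
      (fun c hc => by
        have h1 := (mem_filter.1 hc).2
        have h2 : (c.1 : ℤ) < (a : ℤ) := lt_of_lt_of_le h1 hla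
        exact_mod_cast h2)
      (image_subset_image (filter_subset _ _)) (image_subset_image fun x hx => hKn x (mem_filter.1 hx).2)
      (fun c hc => by
        obtain ⟨x, hx, rfl⟩ := mem_image.1 hc
        have := hKa x (mem_filter.1 (mem_filter.1 hx).1).2
        omega)
      (fun c hc => by
        obtain ⟨x, hx, rfl⟩ := mem_image.1 hc
        rw [dif_pos x.2]
        exact Z10 _ _)
      (fun c hc => by
        obtain ⟨x, hx, rfl⟩ := mem_image.1 hc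
        rw [dif_pos x.2]
        exact hsum x (mem_filter.1 (mem_filter.1 hx).1).2 _)
      (fun c hc => by
        obtain ⟨x, hx, rfl⟩ := mem_image.1 hc
        rw [dif_pos x.2]
        exact hgate ξ x (mem_filter.1 (mem_filter.1 hx).1).2 hξ (mem_filter.1 hx).2)
      (fun c hc => by
        obtain ⟨x, hx, rfl⟩ := mem_image.1 hc
        rw [dif_pos x.2]
        exact hlev x (mem_filter.1 (mem_filter.1 hx).1).2 (mem_filter.1 hx).2)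
      (by
        rw [sum_image fun x _ y _ e => emb e]
        simp only [epc]
        exact hrest)
    rw [sum_image fun x _ y _ e => emb e, sum_image fun x _ y _ e => emb e, sum_image fun x _ y _ e => emb e] at e1
    simp only [epc] at e1
    have e2 := DD_eq (Γ := Γ) (cl := cel s) (κ := κ) (lw := low s κ) (hE ξ) (hK ξ)
    rw [← hω'] at e2
    rw [e2] at e1
    -- divide
    have hZ := D_pos h ω'
    have hDω := hD ω'
    have V0 : 0 ≤ ∑ x ∈ nbs, Γ.w x.1 ω'' := sum_nonneg fun x _ => Cx.w_nonneg h _ _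
    have hG0 : 0 ≤ 3 + 2 * (g + Y / lam) ^ 2 := by positivity
    have e3 : ∀ x ∈ Kg, Ea28.uc (wt ω') Γ.p Cx.l Γ.r 0 Γ.hi Γ.N x.1.1 x.1.2 (Z1 Γ a Pp x ω') =
        w0 Γ x.1 ω * Z1 Γ a Pp x ω' ^ 2 / (Γ.ZM ω' * Γ.ZR ω') := fun x hx => by
      have h4 := hK ξ x (mem_filter.1 (mem_filter.1 hx).1).2
      rw [← hω'] at h4
      rw [← h4]
      unfold Ea28.uc Ea28.nc w0
      rw [E53.Zt_l53 h, E53.Zt_r53]
    have e4 : ∑ x ∈ Kg, w0 Γ x.1 ω * Z1 Γ a Pp x ω' ^ 2 / DD Γ (cel s) κ (low s κ) ω ω' ≤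
        (3 + 2 * (g + Y / lam) ^ 2) * ∑ x ∈ nbs, Γ.w x.1 ω'' := by
      have e3' : ∀ x ∈ Kg, Ea28.uc (wt ω') Γ.p Cx.l Γ.r 0 Γ.hi Γ.N x.1.1 x.1.2
          (if hc : x.1 ∈ Γ.rows 0 Γ.N then Z1 Γ a Pp ⟨x.1, hc⟩ ω' else 0) =
          w0 Γ x.1 ω * Z1 Γ a Pp x ω' ^ 2 / (Γ.ZM ω' * Γ.ZR ω') := fun x hx => by
        rw [dif_pos x.2]
        exact e3 x hx
      rw [sum_congr rfl e3', ← sum_div] at e1
      rw [← sum_div, div_le_iff₀ hDω]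
      rw [div_le_iff₀ hZ] at e1
      refine e1.trans (le_of_eq ?_)
      generalize Γ.ZM ω' * Γ.ZR ω' = z at *
      field_simp
    calc ∑ x ∈ Kx Γ (cel s) κ, (Gd66 (Pp x) (kap Γ.p a Γ.N (kc Γ.p (x.1.1 + 1) a x.1.2)) C (p₀ / 2)).indicator
          (fun η => ENNReal.ofReal (w0 Γ x.1 ω * Z1 Γ a Pp x η ^ 2 / DD Γ (cel s) κ (low s κ) ω η)) ω'
        = ∑ x ∈ Kg, ENNReal.ofReal (w0 Γ x.1 ω * Z1 Γ a Pp x ω' ^ 2 / DD Γ (cel s) κ (low s κ) ω ω') := by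
          rw [hKg, sum_filter]
          refine sum_congr rfl fun x _ => ?_
          unfold Set.indicator
          rfl
      _ = ENNReal.ofReal (∑ x ∈ Kg, w0 Γ x.1 ω * Z1 Γ a Pp x ω' ^ 2 / DD Γ (cel s) κ (low s κ) ω ω') := by
          rw [ENNReal.ofReal_sum_of_nonneg fun x _ => div_nonneg (mul_nonneg (w0_nonneg h _ _) (sq_nonneg _)) hDω.le]
      _ ≤ ENNReal.ofReal ((3 + 2 * (g + Y / lam) ^ 2) * ∑ x ∈ nbs, Γ.w x.1 ω'') := ENNReal.ofReal_le_ofReal e4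
      _ = ENNReal.ofReal (3 + 2 * (g + Y / lam) ^ 2) * ∑ x ∈ nbs, SD53.w Γ x ω'' := by
          rw [ENNReal.ofReal_mul hG0, ENNReal.ofReal_sum_of_nonneg fun x _ => Cx.w_nonneg h _ _]
          rfl

end

end Pool.Agent.W_7d29a1_C1.MM28
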