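import Pool.Agent.W_7d29a1_C1.MovM28
import Pool.Agent.W_7d29a1_C1.Col30

/-!
MP_7d29a1_pr, attractor route, [C1] SEP: THE INPUTS OF `m3A28` (field `M3A`): `rest28` = early mass and mass of the targets are
at least `7/8`, from `met` and `col` of GateD76 / Col30; `sum28`, `mouth28` = the core paths of a contact. (helper28)
-/

set_option autoImplicit false

namespace Pool.Agent.W_7d29a1_C1.MM28

open MeasureTheory ProbabilityTheory Finset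
open Pool.Agent.W_7d29a1_F Pool.Agent.W_7d29a1_h4g Pool.Agent.W_7d29a1_H Pool.Agent.W_7d29a1_HS
open Pool.Agent.W_7d29a1_C1.K91 (Box Grp wt wt_pos measurable_wt)
open Pool.Agent.W_7d29a1_C1.K91P (fw bw bw_pos nm)
open Pool.Agent.W_7d29a1_C1.U16 (ker ker_nonneg ker_eq_zero dlt)
open Pool.Agent.W_7d29a1_C1.Gt66 (Pa Ps ms All ms_off ms_mono ms_le_all ms_fw expand)
open Pool.Agent.W_7d29a1_C1.PW58 (kap kap_nonneg kc kc_nonneg zc sum_kap s0_mem ms_shift)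
open Pool.Agent.W_7d29a1_C1.H60
open Pool.Agent.W_7d29a1_C1.SD53 (XX row)

noncomputable section

attribute [local instance 10] Classical.propDecidable

variable {Γ : Cx}

theorem w_ww28 (c : ℕ × ℤ) (η : Env) : Γ.w c η = E30.ww (wt η) Γ.p Cx.l Γ.r Γ.N c / (Γ.ZM η * Γ.ZR η) := by
  unfold Cx.w E30.ww
  rfl

theorem ZZ_l28 (h : Γ.Ok) (η : Env) : E30.ZZ (wt η) Γ.p Cx.l 0 Γ.hi Γ.N = Γ.ZM η := E53.Zt_l53 h η

theorem ZZ_r28 (η : Env) : E30.ZZ (wt η) Γ.p Γ.r 0 Γ.hi Γ.N = Γ.ZR η := E53.Zt_r53 Γ η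

theorem sum_union_le28 {ι : Type*} [DecidableEq ι] (A B : Finset ι) (f : ι → ℝ) (hf : ∀ i, 0 ≤ f i) :
    ∑ i ∈ A ∪ B, f i ≤ ∑ i ∈ A, f i + ∑ i ∈ B, f i := by
  have h1 := sum_union_inter (s₁ := A) (s₂ := B) (f := f)
  have h2 : 0 ≤ ∑ i ∈ A ∩ B, f i := sum_nonneg fun i _ => hf i
  linarith

/-- **REST**, `nb` = the sites which are left out of the column; inside of the box they have to be targets. -/
theorem restN28 (h : Γ.Ok) (η : Env) {low e : ℕ} (he : e ≤ Γ.N) {nbs : Finset (XX Γ)} {nb : Finset (ℕ × ℤ)}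
    (hnb : ∀ c ∈ Γ.rows 0 Γ.N, c ∈ nb → c ∈ nbs.image fun x => x.1)
    (met : 16 * nm (wt η) Γ.p Cx.l Γ.r 0 Γ.hi Γ.N e ≤ Γ.ZM η * Γ.ZR η)
    (col : 16 * ∑ i ∈ Ico low e, ∑ q ∈ (Icc 0 Γ.hi).filter (fun q => (i, q) ∉ nb),
      fw (wt η) Γ.p Cx.l (i + 1) q * bw (wt η) Γ.p (i + 1) (Γ.N - (i + 1)) q ≤ Γ.ZM η) :
    7 / 8 ≤ ∑ c ∈ Ea Γ (low : ℤ), Γ.w c η + ∑ x ∈ nbs, Γ.w x.1 η := by
  have hZ : 0 < Γ.ZM η * Γ.ZR η := PW58.D_pos h η
  have hw : ∀ c, 0 ≤ Γ.w c η := fun c => Cx.w_nonneg h c η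
  have hrow : 1 + (Γ.N : ℤ) ≤ Γ.hi := by
    have h1 := (Cx.box1 h).g
    unfold Cx.hi
    have h2 : 1 ≤ Γ.k := by
      by_contra hc
      have h3 := Cx.ZR_pos h η
      have h4 : Γ.ZR η = 0 := by
        unfold Cx.ZR Cx.r
        refine sum_eq_zero fun y _ => ?_
        rw [if_neg fun h5 => by omega, zero_mul]
      linarith
    omega
  -- the pairs have met before the row `e`
  have e1 : ∑ c ∈ Γ.rows 0 e, Γ.w c η = 1 - Γ.nmt e η := by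
    rw [Cx.sum_w h η (Nat.zero_le _) he, Cx.nmt_zero h]
  have e2 : Γ.nmt e η ≤ 1 / 16 := by
    unfold Cx.nmt
    rw [div_le_iff₀ hZ]
    linarith
  -- outside the targets
  have e3 := Col30.rest30 (wt_pos η) (Cx.p_pos Γ) (Cx.box1 h) (low := low) he (nb := nb)
    (by rw [ZZ_l28 h]; exact col)
  rw [ZZ_l28 h, ZZ_r28] at e3
  have e4 : ∑ i ∈ Ico low e, ∑ q ∈ (Icc 0 Γ.hi).filter (fun q => (i, q) ∉ nb), Γ.w (i, q) η ≤ 1 / 16 := by
    have e5 : ∑ i ∈ Ico low e, ∑ q ∈ (Icc 0 Γ.hi).filter (fun q => (i, q) ∉ nb), Γ.w (i, q) η =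
        (∑ i ∈ Ico low e, ∑ q ∈ (Icc 0 Γ.hi).filter (fun q => (i, q) ∉ nb),
          E30.ww (wt η) Γ.p Cx.l Γ.r Γ.N (i, q)) / (Γ.ZM η * Γ.ZR η) := by
      rw [sum_div]
      refine sum_congr rfl fun i _ => ?_
      rw [sum_div]
      exact sum_congr rfl fun q _ => w_ww28 _ _
    rw [e5, div_le_iff₀ hZ]
    linarith
  -- the rows
  have e6 : Γ.rows 0 e ⊆ (Ea Γ (low : ℤ) ∪ nbs.image fun x => x.1) ∪
      (Γ.rows low e).filter fun c => c ∉ nb := by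
    intro c hc
    have hc' := Cx.mem_rows.1 hc
    by_cases h1 : c ∈ nb
    · exact mem_union_left _ (mem_union_right _ (hnb c (Cx.mem_rows.2 ⟨⟨Nat.zero_le _, lt_of_lt_of_le hc'.1.2 he⟩, hc'.2⟩) h1))
    by_cases h2 : (c.1 : ℤ) < low
    · refine mem_union_left _ (mem_union_left _ (mem_filter.2 ⟨Cx.mem_rows.2 ⟨⟨Nat.zero_le _, ?_⟩, hc'.2⟩, h2⟩))
      exact lt_of_lt_of_le hc'.1.2 he
    · refine mem_union_right _ (mem_filter.2 ⟨Cx.mem_rows.2 ⟨⟨?_, hc'.1.2⟩, hc'.2⟩, h1⟩)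
      exact_mod_cast not_lt.1 h2
  have e7 : ∑ c ∈ (Γ.rows low e).filter (fun c => c ∉ nb), Γ.w c η ≤
      ∑ i ∈ Ico low e, ∑ q ∈ (Icc 0 Γ.hi).filter (fun q => (i, q) ∉ nb), Γ.w (i, q) η := by
    rw [sum_filter, Cx.rows, sum_product]
    refine sum_le_sum fun i _ => ?_
    rw [← sum_filter]
    refine sum_le_sum_of_subset_of_nonneg (fun q hq => ?_) fun q _ _ => hw _
    obtain ⟨h1, h2⟩ := mem_filter.1 hq
    rw [mem_Icc] at h1
    exact mem_filter.2 ⟨mem_Icc.2 ⟨by omega, by omega⟩, h2⟩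
  have e8 : ∑ c ∈ Γ.rows 0 e, Γ.w c η ≤ ∑ c ∈ Ea Γ (low : ℤ), Γ.w c η + ∑ x ∈ nbs, Γ.w x.1 η +
      ∑ c ∈ (Γ.rows low e).filter (fun c => c ∉ nb), Γ.w c η := by
    have e9 : ∑ x ∈ nbs, Γ.w x.1 η = ∑ c ∈ nbs.image fun x => x.1, Γ.w c η := by
      rw [sum_image fun x _ y _ e => Subtype.val_injective e]
    rw [e9]
    refine (sum_le_sum_of_subset_of_nonneg e6 fun c _ _ => hw c).trans ?_
    refine (sum_union_le28 _ _ _ fun c => hw c).trans ?_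
    exact add_le_add (sum_union_le28 _ _ _ fun c => hw c) le_rfl
  linarith

/-- **REST.** -/
theorem rest28 (h : Γ.Ok) (η : Env) {low e : ℕ} (he : e ≤ Γ.N) {nbs : Finset (XX Γ)}
    (met : 16 * nm (wt η) Γ.p Cx.l Γ.r 0 Γ.hi Γ.N e ≤ Γ.ZM η * Γ.ZR η)
    (col : 16 * ∑ i ∈ Ico low e, ∑ q ∈ (Icc 0 Γ.hi).filter (fun q => (i, q) ∉ nbs.image fun x => x.1),
      fw (wt η) Γ.p Cx.l (i + 1) q * bw (wt η) Γ.p (i + 1) (Γ.N - (i + 1)) q ≤ Γ.ZM η) :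
    7 / 8 ≤ ∑ c ∈ Ea Γ (low : ℤ), Γ.w c η + ∑ x ∈ nbs, Γ.w x.1 η :=
  restN28 h η he (fun _ _ h => h) met col

/-! ### The core paths -/

/-- The core mass of a contact is at most its total. -/
theorem sum28 {a n : ℕ} {x : XX Γ} (hxa : x.1.1 + 1 ≤ a) (hN : a + n ≤ Γ.N) {Co : ℕ → ℤ → Prop} {I : XX Γ → Finset ℤ}
    (hI : ∀ y ∈ I x, x.1.2 ≤ y ∧ y ≤ x.1.2 + (a - (x.1.1 + 1) : ℕ)) (η : Env) :
    Z1 Γ a (fun x => Ps Co (I x) n) x η ≤ zc Γ x.1 η :=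
  sum_kap (Cx.p_pos Γ) hxa hN x.1.2 (I x) hI η

/-- The core paths of a contact end in the mouth. -/
theorem mouth28 {a n : ℕ} {x : XX Γ} (hxa : x.1.1 + 1 ≤ a) {Co : ℕ → ℤ → Prop} {I : XX Γ → Finset ℤ}
    (hI : ∀ y ∈ I x, x.1.2 ≤ y ∧ y ≤ x.1.2 + (a - (x.1.1 + 1) : ℕ)) {Y0 : Finset ℤ} (hCo : ∀ y, Co n y → y ∈ Y0) (η : Env) :
    Z1 Γ a (fun x => Ps Co (I x) n) x η ≤ ∑ v ∈ Y0,
      ker (wt η) Γ.p (x.1.1 + 1) (a + n - (x.1.1 + 1)) x.1.2 v * bw (wt η) Γ.p (a + n) (Γ.N - (a + n)) v := by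
  have hp := Cx.p_pos Γ
  have w0 : ∀ i y, 0 ≤ wt η i y := fun i y => (wt_pos η i y).le
  have p0 : ∀ i, 0 ≤ Γ.p i := fun i => (hp i).le
  set r := x.1.1 + 1 with hr
  set q := x.1.2 with hq
  have g0 : ∀ u, 0 ≤ bw (wt η) Γ.p (a + n) (Γ.N - (a + n)) u := fun u => (bw_pos (wt_pos η) hp _ _ _).le
  set k' : ℤ → ℝ := fun y => if y ∈ I x then kc Γ.p r a q η y else 0 with hk'
  have k0 : ∀ y, 0 ≤ k' y := fun y => by
    rw [hk']
    simp only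
    split_ifs
    · exact kc_nonneg hp r a q η y
    · exact le_rfl
  have kle : ∀ y, k' y ≤ kc Γ.p r a q η y := fun y => by
    rw [hk']
    simp only
    split_ifs
    · exact le_rfl
    · exact kc_nonneg hp r a q η y
  have h1 : Z1 Γ a (fun x => Ps Co (I x) n) x η =
      ∑ π ∈ Ps Co (I x) n, k' (Gt66.s0 π) * Gt66.wg (wt η) Γ.p a π * bw (wt η) Γ.p (a + n) (Γ.N - (a + n)) (Gt66.en π) :=
    sum_congr rfl fun π hπ => by
      have e : k' (Gt66.s0 π) = kc Γ.p r a q η (Gt66.s0 π) := if_pos (s0_mem hπ)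
      rw [e]
      rfl
  rw [h1, expand (w := wt η) (p := Γ.p) (a := a) (C := Co) (I := I x) k' (fun y hy => if_neg hy) (lo := q)
    (hi := q + (a - r : ℕ)) hI n]
  have e5 : ∀ u, ms (wt η) Γ.p a Co k' n u ≤ ker (wt η) Γ.p r (a + n - r) q u := fun u =>
    calc ms (wt η) Γ.p a Co k' n u ≤ ms (wt η) Γ.p a All k' n u := ms_le_all w0 p0 k0 n u
      _ ≤ ms (wt η) Γ.p a All (kc Γ.p r a q η) n u :=
          ms_mono w0 p0 (fun y => kc_nonneg hp r a q η y) (fun _ _ h => h) kle n u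
      _ = ker (wt η) Γ.p r (a - r + n) q u := by
          rw [ms_shift hxa]
          exact ms_fw (w := fun i => wt η (r + i)) (p := fun i => Γ.p (r + i)) (a := a - r) (dlt q) n u
      _ = ker (wt η) Γ.p r (a + n - r) q u := by
          congr 1
          omega
  calc ∑ u ∈ Icc q (q + (a - r : ℕ) + n), ms (wt η) Γ.p a Co k' n u * bw (wt η) Γ.p (a + n) (Γ.N - (a + n)) u
      = ∑ u ∈ (Icc q (q + (a - r : ℕ) + n)).filter (fun u => u ∈ Y0),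
          ms (wt η) Γ.p a Co k' n u * bw (wt η) Γ.p (a + n) (Γ.N - (a + n)) u := by
        rw [sum_filter]
        refine sum_congr rfl fun u _ => ?_
        split_ifs with hu
        · rfl
        · rw [ms_off fun h => hu (hCo u h), zero_mul]
    _ ≤ ∑ u ∈ (Icc q (q + (a - r : ℕ) + n)).filter (fun u => u ∈ Y0),
          ker (wt η) Γ.p r (a + n - r) q u * bw (wt η) Γ.p (a + n) (Γ.N - (a + n)) u :=
        sum_le_sum fun u _ => mul_le_mul_of_nonneg_right (e5 u) (g0 u)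
    _ ≤ _ := sum_le_sum_of_subset_of_nonneg (fun u hu => (mem_filter.1 hu).2) fun u _ _ =>
        mul_nonneg (ker_nonneg (wt_pos η) hp _ _ _ _) (g0 u)

end

end Pool.Agent.W_7d29a1_C1.MM28
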