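import Pool.Agent.W_7d29a1_C1.MovN28
import Pool.Agent.W_7d29a1_C1.LucB76
import Pool.Agent.W_7d29a1_C1.MovC71

/-!
MP_7d29a1_pr, attractor route, [C1] SEP: `M3A` FROM THE DATA OF `cmpA` (`CwIn` of MovC71, all the contacts of one cell) AND FROM THE
LANE BLOCK (`Luk`, `Pin76`). (helper28)

* `m3C28`: the field from `CwIn` of the contacts and the rest `7 / 8`;
* `Lu28`: the pair old content `ω`, new content `ω'` at the first new row `rl`: `Luk`, `Pin76`, cross ratio of the middle slab, the two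
  probabilities of Col30; `up28`, `tot28` (both groups), `Lu28.rest`;
* `m3D28`: the field.
-/

set_option autoImplicit false

namespace Pool.Agent.W_7d29a1_C1.MM28

open MeasureTheory ProbabilityTheory Finset
open Pool.Agent.W_7d29a1_F Pool.Agent.W_7d29a1_h4g Pool.Agent.W_7d29a1_H Pool.Agent.W_7d29a1_HS
open Pool.Agent.W_7d29a1_C1.S71
open Pool.Agent.W_7d29a1_C1.F31 (DecO FinO)
open Pool.Agent.W_7d29a1_C1.K91 (Box Grp wt wt_pos measurable_wt)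
open Pool.Agent.W_7d29a1_C1.K91P (fw bw bw_pos fw_nonneg nm)
open Pool.Agent.W_7d29a1_C1.U16 (ker ker_nonneg ker_eq_zero dlt)
open Pool.Agent.W_7d29a1_C1.Gt66 (Pa Ps Gd66 measurable_Gd66 Ic)
open Pool.Agent.W_7d29a1_C1.PW58 (kap kap_nonneg measurable_kap kc kc_nonneg measurable_kc kc_off zc zc_pos InRows Fr w0 w_eq D_pos w0_nonneg
  w0_gl hgateT58 WallC58 compl_sub_Fr DecO.mono58)
open Pool.Agent.W_7d29a1_C1.CmpG20 (LuckG)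
open Pool.Agent.W_7d29a1_C1.Cmp71 (bw_part)
open Pool.Agent.W_7d29a1_C1.Ea28
open Pool.Agent.W_7d29a1_C1.H60
open Pool.Agent.W_7d29a1_C1.H49 (Par Hs Wc Ec rat ex)
open Pool.Agent.W_7d29a1_C1.SD53
open Pool.Agent.W_7d29a1_C1.E53
open Pool.Agent.W_7d29a1_C1.Lb76
open Pool.Agent.W_7d29a1_C1.MC71 (CwIn GD Inn w0_zero w_zero)
open Pool.Agent.W_7d29a1_C1.Sp22 (Ms Zt)
open scoped ENNReal

noncomputable section

attribute [local instance 10] Classical.propDecidable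

variable {Γ : Cx} {ω ω' : Env}

/-! ### From `CwIn` -/

/-- **MEASURE THEORY OF `M3A`**, luck only on the gates. -/
theorem avgG28 {Ω ι : Type*} [MeasurableSpace Ω] {P : Measure Ω} [SFinite P] {R R₂ : Ω → Ω → Ω} {Ka : Finset ι}
    {T TF L : Set Ω} {Gd : ι → Set Ω} {rt V : Ω → ℝ≥0∞} {r u : ι → Ω → ℝ≥0∞} (mr : ∀ i ∈ Ka, Measurable (r i))
    (mu : ∀ i ∈ Ka, Measurable (u i)) (mG : ∀ i ∈ Ka, MeasurableSet (Gd i)) (mV : Measurable V) (mT : MeasurableSet T)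
    (mTF : MeasurableSet TF) (mL : MeasurableSet L) (mR : Measurable fun x : Ω × Ω => R x.1 x.2)
    (mR₂ : Measurable fun x : Ω × Ω => R₂ x.1 x.2)
    (hRR : ∀ ω, ∀ f : Ω → ℝ≥0∞, Measurable f → ∫⁻ ξ, ∫⁻ η, f (R₂ η (R ξ ω)) ∂P ∂P = ∫⁻ ξ, f (R ξ ω) ∂P) {ω : Ω}
    (hrt : ∀ ξ, R ξ ω ∈ T → rt (R ξ ω) ≤ ∑ i ∈ Ka, r i (R ξ ω)) {C₁ C₂ c₁ : ℝ≥0∞}
    (hfib : ∀ i ∈ Ka, ∫⁻ ξ, T.indicator (r i) (R ξ ω) ∂P ≤ C₁ * ∫⁻ ξ, (TF ∩ Gd i).indicator (u i) (R ξ ω) ∂P)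
    {Lk : Ω → Set Ω} (mLk : ∀ ω, MeasurableSet (Lk ω)) (hLk : ∀ ξ, ∀ i ∈ Ka, R ξ ω ∈ TF ∩ Gd i → c₁ ≤ P (Lk (R ξ ω)))
    (hcmp : ∀ ξ, R ξ ω ∈ TF → (∃ i ∈ Ka, R ξ ω ∈ TF ∩ Gd i) → ∀ η ∈ Lk (R ξ ω), R₂ η (R ξ ω) ∈ L ∧
      ∑ i ∈ Ka, (Gd i).indicator (u i) (R ξ ω) ≤ C₂ * V (R₂ η (R ξ ω))) :
    c₁ * ∫⁻ ξ, T.indicator rt (R ξ ω) ∂P ≤ C₁ * C₂ * ∫⁻ η, L.indicator V (R η ω) ∂P := by
  classical
  have mU : MeasurableSet (⋃ i ∈ Ka, Gd i) := Finset.measurableSet_biUnion Ka mG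
  refine avg28 (TF := TF ∩ ⋃ i ∈ Ka, Gd i) (Gd := Gd) (Lk := Lk) mr mu mG mV mT (mTF.inter mU) mL mR mR₂ hRR hrt (fun i hi => ?_) mLk
    (fun ξ hξ => ?_) fun ξ hξ η hη => ?_
  · refine (hfib i hi).trans (mul_le_mul' le_rfl (lintegral_mono fun ξ => ?_))
    refine Set.indicator_le_indicator_of_subset (fun x hx => ?_) (fun _ => zero_le) _
    exact ⟨⟨hx.1, Set.mem_biUnion (show i ∈ (Ka : Set ι) from hi) hx.2⟩, hx.2⟩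
  · obtain ⟨i, hi, h2⟩ := Set.mem_iUnion₂.1 hξ.2
    exact hLk ξ i hi ⟨hξ.1, h2⟩
  · obtain ⟨i, hi, h2⟩ := Set.mem_iUnion₂.1 hξ.2
    exact hcmp ξ hξ.1 ⟨i, hi, hξ.1, h2⟩ η hη

variable {μ : Measure ℝ} {B B₂ S : Set Pt} {a n : ℕ} {Co : ℕ → ℤ → Prop} {Cw : Pa n → Pa n → Set Env}
  {T TF L : Set Env} {Lk : Env → Set Env} {MoG : Set ℤ} {p₀ C₀ g lam Yg : ℝ} {c₁ : ℝ≥0∞}

/-- A smaller typical set. -/
theorem monoT28 {c : ℕ × ℤ} {T' : Set Env} (H : CwIn μ Γ B B₂ S a n c Co Cw T TF L Lk MoG p₀ C₀ g lam Yg c₁) (hT : T' ⊆ T) :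
    CwIn μ Γ B B₂ S a n c Co Cw T' TF L Lk MoG p₀ C₀ g lam Yg c₁ :=
  { H with
    T_sub := hT.trans H.T_sub
    core := fun η hη => H.core η (hT hη) }

/-- **THE FIELD `M3A` FROM `CwIn` OF THE CONTACTS OF THE CELL** and the rest. -/
theorem m3C28 [IsProbabilityMeasure μ] {K : ℕ → Type*} (h : Γ.Ok) {p : Par (XX Γ)} (hrow : p.row = row Γ)
    {cel : ∀ u, XX Γ → K u} {low : ∀ s, K s → ℤ} {t i s : ℕ} {κ : K s} {nbs : Finset (XX Γ)}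
    (hKn : ∀ x, cel s x = κ → x ∈ nbs) (mT : MeasurableSet T)
    (H : ∀ x : XX Γ, cel s x = κ → Inn Γ x.1 → CwIn μ Γ B B₂ S a n x.1 Co Cw T TF L Lk MoG p₀ C₀ g lam Yg c₁)
    (hc₁ : c₁ ≠ 0) (hc₁' : c₁ ≠ ⊤) (hKB : ∀ x, cel s x = κ → ∀ q ∈ B, (x.1.1 : ℤ) < q.1)
    (hla : low s κ ≤ a) (hlB : ∀ q ∈ B, low s κ ≤ q.1) {ω : Env} (hH : ω ∈ Hs p (SD53.w Γ) cel t i s κ)
    (rest : ∀ ξ, gl B ξ ω ∈ TF → ∀ η ∈ Lk (gl B ξ ω),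
      7 / 8 ≤ ∑ c ∈ Ea Γ (low s κ), Γ.w c (gl B₂ η (gl B ξ ω)) + ∑ x ∈ nbs, Γ.w x.1 (gl B₂ η (gl B ξ ω))) :
    ∫⁻ ξ, T.indicator (rat p (SD53.w Γ) cel low t i s κ) (gl B ξ ω) ∂(law μ) ≤
      (c₁⁻¹ * (ENNReal.ofReal (C₀ ^ 2 * (2 / p₀)) * ENNReal.ofReal (3 + 2 * (g + Yg / lam) ^ 2))) *
        ∫⁻ η, L.indicator (fun ω => ∑ x ∈ nbs, SD53.w Γ x ω) (gl B η ω) ∂(law μ) := by
  have : IsProbabilityMeasure (law μ) := by unfold law; infer_instance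
  have hp := Cx.p_pos Γ
  -- one contact of positive weight
  obtain ⟨x₀, hx₀, hx₁, -⟩ := hH
  have hw₁ : 0 < Γ.w x₀.1 ω := by
    by_contra hc
    have h2 : SD53.w Γ x₀ ω = 0 := ENNReal.ofReal_eq_zero.2 (not_lt.1 hc)
    rw [h2, nonpos_iff_eq_zero] at hx₁
    unfold H49.ex at hx₁
    exact (ENNReal.ofReal_pos.2 (Real.exp_pos _)).ne' hx₁
  have hi₀ : Inn Γ x₀.1 := by
    by_contra hc
    rw [w_zero hc h] at hw₁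
    exact lt_irrefl _ hw₁
  have hw₀ : 0 < w0 Γ x₀.1 ω := by
    rcases (w0_nonneg h x₀.1 ω).lt_or_eq with h2 | h2
    · exact h2
    · rw [w_eq, ← h2, zero_mul, zero_div] at hw₁
      exact absurd hw₁ (lt_irrefl _)
  have H₀ := H x₀ hx₀ hi₀
  have hD : ∀ η, 0 < DD Γ (cel s) κ (low s κ) ω η := fun η => DD_pos h hx₀ hw₀ η
  -- frozen prefactors
  have hE : ∀ ξ, ∀ c ∈ Ea Γ (low s κ), w0 Γ c (gl B ξ ω) = w0 Γ c ω := fun ξ c hc =>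
    w0_gl (fun q hq => lt_of_lt_of_le (mem_filter.1 hc).2 (hlB q hq)) ξ ω
  have hK : ∀ ξ, ∀ x, cel s x = κ → w0 Γ x.1 (gl B ξ ω) = w0 Γ x.1 ω := fun ξ x hx => w0_gl (hKB x hx) ξ ω
  have hIc : ∀ x : XX Γ, ∀ y ∈ Ic a x.1.1 x.1.2, x.1.2 ≤ y ∧ y ≤ x.1.2 + (a - (x.1.1 + 1) : ℕ) := fun x y hy => by
    unfold Ic at hy
    exact mem_Icc.1 hy
  obtain ⟨Pp, hPp⟩ : ∃ Pp : XX Γ → Finset (Pa n), Pp = fun x => Ps Co (Ic a x.1.1 x.1.2) n := ⟨_, rfl⟩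
  have mZ1 : ∀ x : XX Γ, Measurable (Z1 Γ a Pp x) := fun x =>
    Finset.measurable_fun_sum _ fun π _ => measurable_kap (measurable_kc (p := Γ.p) (x.1.1 + 1) a x.1.2) π
  have Z10 : ∀ x : XX Γ, ∀ η, 0 ≤ Z1 Γ a Pp x η := fun x η =>
    sum_nonneg fun π _ => kap_nonneg hp (fun η y => kc_nonneg hp _ _ _ η y) π η
  have hsum : ∀ x : XX Γ, cel s x = κ → Inn Γ x.1 → ∀ η, Z1 Γ a Pp x η ≤ zc Γ x.1 η := fun x hx hi η => by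
    rw [hPp]
    exact sum28 (Co := Co) (I := fun x => Ic a x.1.1 x.1.2) (H x hx hi).hca (H x hx hi).hN (hIc x) η
  -- the contacts inside of the cone
  obtain ⟨Ki, hKi⟩ : ∃ Ki : Finset (XX Γ), Ki = (Kx Γ (cel s) κ).filter fun x => Inn Γ x.1 := ⟨_, rfl⟩
  have hKi' : ∀ x, x ∈ Ki ↔ cel s x = κ ∧ Inn Γ x.1 := fun x => by
    rw [hKi, mem_filter]
    unfold Kx
    rw [mem_filter]
    exact ⟨fun h => ⟨h.1.2, h.2⟩, fun h => ⟨⟨mem_univ _, h.1⟩, h.2⟩⟩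
  have hGd : ∀ x : XX Γ, GD Γ x.1 a Co Cw p₀ = Gd66 (Pp x) (kap Γ.p a Γ.N (kc Γ.p (x.1.1 + 1) a x.1.2)) Cw (p₀ / 2) := fun x => by
    rw [hPp]
    rfl
  have key := avgG28 (P := law μ) (R := gl B) (R₂ := gl B₂) (Ka := Ki) (T := T) (TF := TF) (L := L)
    (Gd := fun x => GD Γ x.1 a Co Cw p₀)
    (rt := rat p (SD53.w Γ) cel low t i s κ) (V := fun ω => ∑ x ∈ nbs, SD53.w Γ x ω)
    (r := fun x η => ENNReal.ofReal (w0 Γ x.1 ω * zc Γ x.1 η ^ 2 / DD Γ (cel s) κ (low s κ) ω η))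
    (u := fun x η => ENNReal.ofReal (w0 Γ x.1 ω * Z1 Γ a Pp x η ^ 2 / DD Γ (cel s) κ (low s κ) ω η))
    (fun x _ => ((((meas_zc x.1).pow_const 2).const_mul _).div (meas_DD ω)).ennreal_ofReal)
    (fun x _ => ((((mZ1 x).pow_const 2).const_mul _).div (meas_DD ω)).ennreal_ofReal)
    (fun x _ => measurable_Gd66 (fun π => measurable_kap (measurable_kc (p := Γ.p) (x.1.1 + 1) a x.1.2) π) H₀.walls.m _)
    (Finset.measurable_fun_sum _ fun x _ => SD53.meas_w x) mT H₀.mTF H₀.mL (measurable_gl B) (measurable_gl B₂)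
    (fun ω f hf => CmpG20.gl_gl20 H₀.B₂_sub ω hf) (ω := ω) (fun ξ _ => ?_)
    (C₁ := ENNReal.ofReal (C₀ ^ 2 * (2 / p₀))) (C₂ := ENNReal.ofReal (3 + 2 * (g + Yg / lam) ^ 2)) (c₁ := c₁)
    (fun x hx => ?_) H₀.mLk (fun ξ x hx hξ => (H x ((hKi' x).1 hx).1 ((hKi' x).1 hx).2).pLk _ hξ) fun ξ hξ hex η hη => ?_
  · calc ∫⁻ ξ, T.indicator (rat p (SD53.w Γ) cel low t i s κ) (gl B ξ ω) ∂(law μ)
        = c₁⁻¹ * (c₁ * ∫⁻ ξ, T.indicator (rat p (SD53.w Γ) cel low t i s κ) (gl B ξ ω) ∂(law μ)) := by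
          rw [← mul_assoc, ENNReal.inv_mul_cancel hc₁ hc₁', one_mul]
      _ ≤ c₁⁻¹ * _ := mul_le_mul' le_rfl key
      _ = _ := by rw [mul_assoc, mul_assoc, mul_assoc]
  · -- the ratio
    refine (rat_le28 h hrow (hE ξ) (hK ξ) (hD _)).trans (le_of_eq ?_)
    rw [hKi, sum_filter]
    refine sum_congr rfl fun x hx => ?_
    by_cases hi : Inn Γ x.1
    · rw [if_pos hi]
    · rw [if_neg hi, w0_zero hi h, zero_mul, zero_div, ENNReal.ofReal_zero]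
  · -- the fibre inequality of one contact
    obtain ⟨hx', hi'⟩ := (hKi' x).1 hx
    have Hx := H x hx' hi'
    show ∫⁻ ξ, T.indicator _ (gl B ξ ω) ∂(law μ) ≤ _ * ∫⁻ ξ, (TF ∩ GD Γ x.1 a Co Cw p₀).indicator _ (gl B ξ ω) ∂(law μ)
    rw [hGd x]
    exact hgateT58 (N := Γ.N) hp Hx.S_rows Hx.S_sub (fun η y => kc_nonneg hp _ _ _ η y)
      (measurable_kc (p := Γ.p) (x.1.1 + 1) a x.1.2)
      (fun η η' hη y => kc_off Hx.hca Hx.S_rows x.1.2 η η' hη y) (meas_DD ω) hD (fun η η' hη => DD_mono h ω hη) Hx.T_sub Hx.mTF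
      (fun π _ π' _ => DecO.mono58 Hx.dTF (compl_sub_Fr S a π π')) Hx.walls.m (fun π _ π' _ => Hx.walls.d π π')
      (fun π _ π' _ => Hx.walls.f π π') Hx.p₀_pos (fun π _ π' _ => Hx.walls.p π π') (w₀ := fun _ => w0 Γ x.1 ω)
      (fun _ => w0_nonneg h _ _) measurable_const (fun _ _ _ => rfl) (K := 1) ω (fun ξ => by
        rw [one_mul]
        refine le_trans ?_ (le_DD h hx' (gl B ξ ω))
        exact mul_le_mul_of_nonneg_left (pow_le_pow_left₀ (Z10 x _) (hsum x hx' hi' _) 2) (w0_nonneg h _ _))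
      (fun η => (zc_pos _ _).le) (fun η hη => by
        rw [hPp]
        exact Hx.core η hη)
  · -- the comparison of the sum over the cell
    obtain ⟨x₁, hx₁, hG₁⟩ := hex
    have H₁ := H x₁ ((hKi' x₁).1 hx₁).1 ((hKi' x₁).1 hx₁).2
    refine ⟨H₁.toL _ hG₁ η hη, ?_⟩
    have hrest := rest ξ hξ η hη
    have hoff := H₁.off _ hG₁ η hη
    have hrows := H₁.rows_eq η (gl B ξ ω)
    set ω' := gl B ξ ω with hω'
    set ω'' := gl B₂ η ω' with hω''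
    set Kg : Finset (XX Γ) := Ki.filter fun x => ω' ∈ GD Γ x.1 a Co Cw p₀ with hKg
    have hbox := Cx.box1 h
    have hlp : ∃ y, 0 < Cx.l y := ⟨0, by unfold Cx.l; simp⟩
    have hrp : ∃ y, 0 < Γ.r y := by
      by_contra hc
      push Not at hc
      have h1 := Cx.ZR_pos h ω
      have h2 : Γ.ZR ω ≤ 0 := sum_nonpos fun y _ => mul_nonpos_of_nonpos_of_nonneg (hc y) (bw_pos (wt_pos ω) hp _ _ _).le
      linarith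
    have hG : LuckG (wt ω') (wt ω'') Γ.p Γ.N (a + n) 0 Γ.hi (bx Γ MoG) (bW Γ ω'' (a + n)) Yg :=
      { hw := wt_pos ω'
        hw' := wt_pos ω''
        hp := hp
        haN := H₁.hN
        eqb := fun i hi' => funext fun y => (hrows i y hi').symm
        Y0_sub := bx_sub MoG
        Y0' := H₁.Y0
        leak := fun y hy => by
          by_cases hyM : y ∈ MoG
          · have h1 : y ∈ bx Γ MoG := by
              unfold bx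
              exact mem_filter.2 ⟨hy, hyM⟩
            rw [if_pos h1]
            exact le_add_of_nonneg_right (mul_nonneg H₁.Y0 (bw_pos (wt_pos ω') hp _ _ _).le)
          · have h1 : y ∉ bx Γ MoG := fun h => hyM (mem_bx h)
            rw [if_neg h1, zero_add]
            exact hoff y hyM
        tb0 := fun y _ => (bw_pos (wt_pos ω'') hp _ _ _).le
        tb_le := fun y _ => le_rfl }
    have epc : ∀ (c : ℕ × ℤ) (η : Env), Sp22.pc (wt η) Γ.p Cx.l Γ.r 0 Γ.hi Γ.N c.1 c.2 = Γ.w c η := fun c η => by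
      unfold Sp22.pc Cx.w
      rw [E53.Zt_l53 h, E53.Zt_r53]
    have emb : Function.Injective (fun x : XX Γ => x.1) := Subtype.val_injective
    have hg : 0 ≤ g := H₁.g0
    have hlam := H₁.lam0
    have memK : ∀ x ∈ Kg, cel s x = κ ∧ Inn Γ x.1 ∧ ω' ∈ GD Γ x.1 a Co Cw p₀ := fun x hx => by
      obtain ⟨h1, h2⟩ := mem_filter.1 hx
      exact ⟨((hKi' x).1 h1).1, ((hKi' x).1 h1).2, h2⟩
    have hZeq : ∀ x : XX Γ, Z1 Γ a Pp x ω' = Gt66.Z1 (wt ω') Γ.p Γ.N a n Co x.1.1 x.1.2 := fun x => by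
      rw [hPp]
      rfl
    have e1 := early28 (Ea := Ea Γ (low s κ)) (Ka := (Kx Γ (cel s) κ).image fun x => x.1) (Kg := Kg.image fun x => x.1)
      (Nb := nbs.image fun x => x.1) (a₀ := a) (Z1 := fun c => if hc : c ∈ Γ.rows 0 Γ.N then Z1 Γ a Pp ⟨c, hc⟩ ω' else 0)
      (g := g) (lam := lam) hG hlam hg (Nat.le_add_right a n) hbox hlp hrp
      (fun c hc => by
        have h1 := (mem_filter.1 hc).2
        have h2 : (c.1 : ℤ) < (a : ℤ) := lt_of_lt_of_le h1 hla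
        exact_mod_cast h2)
      (image_subset_image fun x hx => mem_filter.2 ⟨mem_univ _, (memK x hx).1⟩)
      (image_subset_image fun x hx => hKn x (mem_filter.1 hx).2)
      (fun c hc => by
        obtain ⟨x, hx, rfl⟩ := mem_image.1 hc
        have := (H x (memK x hx).1 (memK x hx).2.1).hca
        omega)
      (fun c hc => by
        obtain ⟨x, hx, rfl⟩ := mem_image.1 hc
        rw [dif_pos x.2]
        exact Z10 _ _)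
      (fun c hc => by
        obtain ⟨x, hx, rfl⟩ := mem_image.1 hc
        rw [dif_pos x.2]
        exact hsum x (memK x hx).1 (memK x hx).2.1 _)
      (fun c hc => by
        obtain ⟨x, hx, rfl⟩ := mem_image.1 hc
        rw [dif_pos x.2]
        have h3 := (H x (memK x hx).1 (memK x hx).2.1).gt ω' ⟨hξ, (memK x hx).2.2⟩
        intro y v hv
        have h4 := h3 v (mem_bx hv) y
        rw [show (⟨x.1, x.2⟩ : XX Γ) = x from rfl, hZeq x]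
        rw [show a + n - a = n by omega]
        exact h4)
      (fun c hc => by
        obtain ⟨x, hx, rfl⟩ := mem_image.1 hc
        rw [dif_pos x.2]
        have h3 := (H x (memK x hx).1 (memK x hx).2.1).gain ω' ⟨hξ, (memK x hx).2.2⟩ η hη
        rw [show (⟨x.1, x.2⟩ : XX Γ) = x from rfl, hZeq x]
        exact h3)
      (by
        rw [sum_image fun x _ y _ e => emb e]
        simp only [epc]
        exact hrest)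
    rw [sum_image fun x _ y _ e => emb e, sum_image fun x _ y _ e => emb e, sum_image fun x _ y _ e => emb e] at e1
    simp only [epc] at e1
    have e2 := DD_eq (Γ := Γ) (cl := cel s) (κ := κ) (lw := low s κ) (hE ξ) (hK ξ)
    rw [← hω'] at e2
    rw [e2] at e1
    -- divide
    have hZ := D_pos h ω'
    have hDω := hD ω'
    have hG0 : 0 ≤ 3 + 2 * (g + Yg / lam) ^ 2 := by positivity
    have e3 : ∀ x ∈ Kg, Ea28.uc (wt ω') Γ.p Cx.l Γ.r 0 Γ.hi Γ.N x.1.1 x.1.2 (Z1 Γ a Pp x ω') =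
        w0 Γ x.1 ω * Z1 Γ a Pp x ω' ^ 2 / (Γ.ZM ω' * Γ.ZR ω') := fun x hx => by
      have h4 := hK ξ x (memK x hx).1
      rw [← hω'] at h4
      rw [← h4]
      unfold Ea28.uc Ea28.nc w0
      rw [E53.Zt_l53 h, E53.Zt_r53]
    have e4 : ∑ x ∈ Kg, w0 Γ x.1 ω * Z1 Γ a Pp x ω' ^ 2 / DD Γ (cel s) κ (low s κ) ω ω' ≤
        (3 + 2 * (g + Yg / lam) ^ 2) * ∑ x ∈ nbs, Γ.w x.1 ω'' := by
      have e3' : ∀ x ∈ Kg, Ea28.uc (wt ω') Γ.p Cx.l Γ.r 0 Γ.hi Γ.N x.1.1 x.1.2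
          (if hc : x.1 ∈ Γ.rows 0 Γ.N then Z1 Γ a Pp ⟨x.1, hc⟩ ω' else 0) =
          w0 Γ x.1 ω * Z1 Γ a Pp x ω' ^ 2 / (Γ.ZM ω' * Γ.ZR ω') := fun x hx => by
        rw [dif_pos x.2]
        exact e3 x hx
      rw [sum_congr rfl e3', ← sum_div] at e1
      rw [← sum_div, div_le_iff₀ hDω]
      rw [div_le_iff₀ hZ] at e1
      refine e1.trans (le_of_eq ?_)
      generalize Γ.ZM ω' * Γ.ZR ω' = z at *
      field_simp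
    calc ∑ x ∈ Ki, (GD Γ x.1 a Co Cw p₀).indicator
          (fun η => ENNReal.ofReal (w0 Γ x.1 ω * Z1 Γ a Pp x η ^ 2 / DD Γ (cel s) κ (low s κ) ω η)) ω'
        = ∑ x ∈ Kg, ENNReal.ofReal (w0 Γ x.1 ω * Z1 Γ a Pp x ω' ^ 2 / DD Γ (cel s) κ (low s κ) ω ω') := by
          rw [hKg, sum_filter]
          refine sum_congr rfl fun x _ => ?_
          unfold Set.indicator
          rfl
      _ = ENNReal.ofReal (∑ x ∈ Kg, w0 Γ x.1 ω * Z1 Γ a Pp x ω' ^ 2 / DD Γ (cel s) κ (low s κ) ω ω') := by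
          rw [ENNReal.ofReal_sum_of_nonneg fun x _ => div_nonneg (mul_nonneg (w0_nonneg h _ _) (sq_nonneg _)) hDω.le]
      _ ≤ ENNReal.ofReal ((3 + 2 * (g + Yg / lam) ^ 2) * ∑ x ∈ nbs, Γ.w x.1 ω'') := ENNReal.ofReal_le_ofReal e4
      _ = ENNReal.ofReal (3 + 2 * (g + Yg / lam) ^ 2) * ∑ x ∈ nbs, SD53.w Γ x ω'' := by
          rw [ENNReal.ofReal_mul hG0, ENNReal.ofReal_sum_of_nonneg fun x _ => Cx.w_nonneg h _ _]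
          rfl

/-! ### The rest from the lane block -/

/-- **THE PAIR OF `M3A`**: old content `ω`, new content `ω'`, first new row `rl`. -/
structure Lu28 (Γ : Cx) (low rl a₁ b₁ b e : ℕ) (Mi Mo C1 C2 : Set ℤ) (gA G Y Y' ee δ s0 s1 : ℝ) (nb : Finset (ℕ × ℤ)) (ω ω' : Env) :
    Prop where
  luk : Luk Γ rl b Mi Mo Set.univ gA G Y ω ω'
  pin : Pin76 Γ rl a₁ b₁ C1 C2 Y' ee ω ω'
  be : b₁ ≤ e
  eN : e ≤ Γ.N
  δ0 : 0 ≤ δ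
  s00 : 0 ≤ s0
  s10 : 0 ≤ s1
  hcr : ∀ z ∈ C1, ∀ z' ∈ C1, z < z' → ∀ x ∈ C2, ∀ y ∈ C2, x < y →
    ker (wt ω') Γ.p a₁ (b₁ - a₁) z x * ker (wt ω') Γ.p a₁ (b₁ - a₁) z' y -
      ker (wt ω') Γ.p a₁ (b₁ - a₁) z y * ker (wt ω') Γ.p a₁ (b₁ - a₁) z' x ≤
      δ * (ker (wt ω') Γ.p a₁ (b₁ - a₁) z x * ker (wt ω') Γ.p a₁ (b₁ - a₁) z' y)
  st : ∀ i, low ≤ i → i < rl → ∀ y ∈ Icc 0 Γ.hi, (i, y) ∉ nb →
    ∑ v ∈ bx Γ Mo, ker (wt ω) Γ.p (i + 1) (rl - (i + 1)) y v * bW Γ ω rl v ≤ s0 * bW Γ ω (i + 1) y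
  ex : ∀ i, rl ≤ i → i < e → ∀ v ∈ bx Γ Mo, ∑ y ∈ (Icc 0 Γ.hi).filter (fun y => (i, y) ∉ nb),
    ker (wt ω') Γ.p rl (i + 1 - rl) v y * bW Γ ω' (i + 1) y ≤ s1 * bW Γ ω' rl v

variable {lw rl a₁ b₁ b e : ℕ} {Mi Mo Ce C1 C2 : Set ℤ} {gA G Y Y' ee δ s0 s1 : ℝ} {nb : Finset (ℕ × ℤ)}

theorem mem_bx28 {A : Set ℤ} {y : ℤ} : y ∈ bx Γ A ↔ y ∈ Icc 0 Γ.hi ∧ y ∈ A := by
  unfold bx
  exact mem_filter

/-- **The new mass of a contact** through one site of the mouth. -/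
theorem up28 (h : Luk Γ rl b Mi Mo Ce gA G Y ω ω') {c : ℕ × ℤ}
    (hc : c.1 + 1 ≤ rl) {z₀ : ℤ} (hz : z₀ ∈ Mi) {e1 : ℝ}
    (hs : e1 * bW Γ ω (c.1 + 1) c.2 ≤ ker (wt ω) Γ.p (c.1 + 1) (rl - (c.1 + 1)) c.2 z₀ * bW Γ ω rl z₀) :
    e1 * gA * bW Γ ω (c.1 + 1) c.2 ≤ bW Γ ω' (c.1 + 1) c.2 := by
  have haN : rl ≤ Γ.N := h.haN
  have k0 : 0 ≤ ker (wt ω) Γ.p (c.1 + 1) (rl - (c.1 + 1)) c.2 z₀ := ker_nonneg (wt_pos ω) (Cx.p_pos Γ) _ _ _ _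
  have h1 : ker (wt ω') Γ.p (c.1 + 1) (rl - (c.1 + 1)) c.2 z₀ * bW Γ ω' rl z₀ ≤ bW Γ ω' (c.1 + 1) c.2 := by
    have h2 := bw_part (w := wt ω') (p := Γ.p) (N := Γ.N) (wt_pos ω') (Cx.p_pos Γ) (c.1 + 1) (rl - (c.1 + 1)) (by omega) c.2 {z₀}
    rw [sum_singleton, show c.1 + 1 + (rl - (c.1 + 1)) = rl by omega] at h2
    exact h2
  have e : ker (wt ω') Γ.p (c.1 + 1) (rl - (c.1 + 1)) c.2 z₀ = ker (wt ω) Γ.p (c.1 + 1) (rl - (c.1 + 1)) c.2 z₀ :=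
    U16.ker_congr _ _ _ _ fun i _ hi => ⟨funext fun y => h.eq i y (by omega), rfl⟩
  rw [e] at h1
  calc e1 * gA * bW Γ ω (c.1 + 1) c.2 = gA * (e1 * bW Γ ω (c.1 + 1) c.2) := by ring
    _ ≤ gA * (ker (wt ω) Γ.p (c.1 + 1) (rl - (c.1 + 1)) c.2 z₀ * bW Γ ω rl z₀) := mul_le_mul_of_nonneg_left hs h.g0.le
    _ = ker (wt ω) Γ.p (c.1 + 1) (rl - (c.1 + 1)) c.2 z₀ * (gA * bW Γ ω rl z₀) := by ring
    _ ≤ ker (wt ω) Γ.p (c.1 + 1) (rl - (c.1 + 1)) c.2 z₀ * bW Γ ω' rl z₀ := mul_le_mul_of_nonneg_left (h.gain z₀ hz) k0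
    _ ≤ _ := h1

/-- **The totals of the two groups** from one contact of weight `≥ ew`. -/
theorem tot28 (hΓ : Γ.Ok) (h : Luk Γ rl b Mi Mo Ce gA G Y ω ω')
    {x : XX Γ} (hc : x.1.1 + 1 ≤ rl) {z₀ : ℤ} (hz : z₀ ∈ Mi) {e1 ew : ℝ} (he1 : 0 ≤ e1)
    (hs : e1 * bW Γ ω (x.1.1 + 1) x.1.2 ≤ ker (wt ω) Γ.p (x.1.1 + 1) (rl - (x.1.1 + 1)) x.1.2 z₀ * bW Γ ω rl z₀)
    (hw : ew ≤ Γ.w x.1 ω) :
    e1 * gA * ew * ZG Γ Cx.l ω ≤ ZG Γ Cx.l ω' ∧ e1 * gA * ew * ZG Γ Γ.r ω ≤ ZG Γ Γ.r ω' := by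
  have haN : rl ≤ Γ.N := h.haN
  have hk : 0 ≤ e1 * gA := mul_nonneg he1 h.g0.le
  obtain ⟨p1, p2⟩ := w_le_P hΓ x.2 ω
  have key : ∀ m : ℤ → ℝ, Ms m 0 Γ.hi Γ.N → Γ.w x.1 ω * ZG Γ m ω ≤ fw (wt ω) Γ.p m (x.1.1 + 1) x.1.2 * bW Γ ω (x.1.1 + 1) x.1.2 →
      0 ≤ ZG Γ m ω → e1 * gA * ew * ZG Γ m ω ≤ ZG Γ m ω' := by
    intro m hm h1 hz0
    have ef : fw (wt ω') Γ.p m (x.1.1 + 1) x.1.2 = fw (wt ω) Γ.p m (x.1.1 + 1) x.1.2 :=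
      K91P.fw_congr (x.1.1 + 1) (fun i hi y => h.eq i y (by omega)) x.1.2
    have f0 : 0 ≤ fw (wt ω) Γ.p m (x.1.1 + 1) x.1.2 := fw_nonneg (wt_pos ω) (Cx.p_pos Γ) hm.nn _ _
    have h2 := site_le hm ω' (show x.1.1 + 1 ≤ Γ.N by omega) x.1.2
    rw [ef] at h2
    calc e1 * gA * ew * ZG Γ m ω = e1 * gA * (ew * ZG Γ m ω) := by ring
      _ ≤ e1 * gA * (Γ.w x.1 ω * ZG Γ m ω) := mul_le_mul_of_nonneg_left (mul_le_mul_of_nonneg_right hw hz0) hk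
      _ ≤ e1 * gA * (fw (wt ω) Γ.p m (x.1.1 + 1) x.1.2 * bW Γ ω (x.1.1 + 1) x.1.2) := mul_le_mul_of_nonneg_left h1 hk
      _ = fw (wt ω) Γ.p m (x.1.1 + 1) x.1.2 * (e1 * gA * bW Γ ω (x.1.1 + 1) x.1.2) := by ring
      _ ≤ fw (wt ω) Γ.p m (x.1.1 + 1) x.1.2 * bW Γ ω' (x.1.1 + 1) x.1.2 :=
          mul_le_mul_of_nonneg_left (up28 h hc hz hs) f0
      _ ≤ _ := h2
  refine ⟨key _ (ms_l hΓ) ?_ ?_, key _ (ms_r hΓ) ?_ ?_⟩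
  · rw [ZG_l hΓ]; exact p1
  · rw [ZG_l hΓ]; exact (Γ.ZM_pos ω).le
  · exact p2
  · exact (Cx.ZR_pos hΓ ω).le

/-- **REST** from the pair. -/
theorem Lu28.rest (hΓ : Γ.Ok) {nbs : Finset (XX Γ)} (hnb : ∀ c ∈ Γ.rows 0 Γ.N, c ∈ nb → c ∈ nbs.image fun x => x.1)
    (h : Lu28 Γ lw rl a₁ b₁ b e Mi Mo C1 C2 gA G Y Y' ee δ s0 s1 nb ω ω')
    {x : XX Γ} (hc : x.1.1 + 1 ≤ rl) {z₀ : ℤ} (hz : z₀ ∈ Mi) {e1 ew : ℝ} (he1 : 0 < e1) (hew : 0 < ew)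
    (hs : e1 * bW Γ ω (x.1.1 + 1) x.1.2 ≤ ker (wt ω) Γ.p (x.1.1 + 1) (rl - (x.1.1 + 1)) x.1.2 z₀ * bW Γ ω rl z₀)
    (hw : ew ≤ Γ.w x.1 ω) (n0 : 16 * (δ + 4 * (Y' / (e1 * gA * ew) + ee)) ≤ 1)
    (n1 : 32 * ((e - lw : ℕ) : ℝ) * (G * s0 + Y) ≤ e1 * gA * ew) (n2 : 32 * ((e - lw : ℕ) : ℝ) * s1 ≤ 1) :
    7 / 8 ≤ ∑ c ∈ Ea Γ (lw : ℤ), Γ.w c ω' + ∑ x ∈ nbs, Γ.w x.1 ω' := by
  have hlam : 0 < e1 * gA * ew := mul_pos (mul_pos he1 h.luk.g0) hew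
  obtain ⟨tl, tr⟩ := tot28 hΓ h.luk hc hz he1.le hs hw
  have hZ : 0 ≤ ZG Γ Cx.l ω' * ZG Γ Γ.r ω' := by
    rw [ZG_l hΓ]
    exact (mul_pos (Γ.ZM_pos ω') (Cx.ZR_pos hΓ ω')).le
  refine restN28 hΓ ω' h.eN hnb ?_ ?_
  · have h1 := h.pin.met hΓ h.δ0 hlam h.hcr tl tr h.be h.eN
    have h2 := mul_le_mul_of_nonneg_right n0 hZ
    have h3 : ZG Γ Cx.l ω' * ZG Γ Γ.r ω' = Γ.ZM ω' * Γ.ZR ω' := by
      rw [ZG_l hΓ]
      rfl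
    rw [← h3]
    linarith
  · have h1 := Col30.col30 (wt_pos ω) (wt_pos ω') (Cx.p_pos Γ) (Cx.box1 hΓ) (low := lw) (b := rl) (e := e)
      (h.pin.h1.trans (h.pin.h2.trans h.be)) h.eN (fun k hk y => (h.luk.eq k y hk).symm) (nb := nb)
      (Y0 := bx Γ Mo) (bx_sub Mo) (G := G) (Y := Y) (s0 := s0) (s1' := s1) (lam := e1 * gA * ew) (β := 1) h.luk.G0 h.luk.Y0
      h.s00 h.s10 (fun v hv => h.luk.up v (mem_bx28.1 hv).2)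
      (fun v hv => h.luk.off v fun h2 => (mem_sdiff.1 hv).2 (mem_bx28.2 ⟨(mem_sdiff.1 hv).1, h2⟩))
      h.st h.ex (by rw [ZZ_l28 hΓ, ZZ_l28 hΓ, mul_one]; rw [ZG_l hΓ, ZG_l hΓ] at tl; exact tl) (by rw [mul_one]; exact n1) n2
    rw [ZZ_l28 hΓ] at h1
    exact h1

/-- The early contacts, row in `ℕ`. -/
theorem Ea_toNat (lw : ℤ) : Ea Γ lw = Ea Γ ((lw.toNat : ℕ) : ℤ) := by
  unfold Ea
  refine filter_congr fun c _ => ?_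
  omega

/-- **THE FIELD `M3A`**: `CwIn` of the contacts of the cell, the pair `Lu28` of the lane block, one site `z₀`, the weight on the fibre. -/
theorem m3D28 [IsProbabilityMeasure μ] {K : ℕ → Type*} (h : Γ.Ok) {p : Par (XX Γ)} (hrow : p.row = row Γ)
    {cel : ∀ u, XX Γ → K u} {low : ∀ s, K s → ℤ} {t i s : ℕ} {κ : K s} {nbs : Finset (XX Γ)}
    (hKn : ∀ x, cel s x = κ → x ∈ nbs) (mT : MeasurableSet T)
    (H : ∀ x : XX Γ, cel s x = κ → Inn Γ x.1 → CwIn μ Γ B B₂ S a n x.1 Co Cw T TF L Lk MoG p₀ C₀ g lam Yg c₁)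
    (hc₁ : c₁ ≠ 0) (hc₁' : c₁ ≠ ⊤) (hKB : ∀ x, cel s x = κ → ∀ q ∈ B, (x.1.1 : ℤ) < q.1)
    (hla : low s κ ≤ a) (hlB : ∀ q ∈ B, low s κ ≤ q.1) {ω : Env} (hH : ω ∈ Hs p (SD53.w Γ) cel t i s κ)
    -- the lane block
    (harl : a ≤ rl) (hlu : ∀ ξ, gl B ξ ω ∈ TF → ∀ η ∈ Lk (gl B ξ ω),
      Lu28 Γ (low s κ).toNat rl a₁ b₁ b e Mi Mo C1 C2 gA G Y Y' ee δ s0 s1 (nbs.image fun x => x.1) (gl B ξ ω)
        (gl B₂ η (gl B ξ ω)))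
    {z₀ : ℤ} (hz : z₀ ∈ Mi) {e1 ew : ℝ} (he1 : 0 < e1) (hew : 0 < ew)
    (hsite : ∀ ξ, gl B ξ ω ∈ TF → ∀ x : XX Γ, cel s x = κ → Inn Γ x.1 → e1 * bW Γ (gl B ξ ω) (x.1.1 + 1) x.1.2 ≤
      ker (wt (gl B ξ ω)) Γ.p (x.1.1 + 1) (rl - (x.1.1 + 1)) x.1.2 z₀ * bW Γ (gl B ξ ω) rl z₀)
    (hwt : ∀ ξ, gl B ξ ω ∈ TF → ∀ x : XX Γ, cel s x = κ → ex (-p.be t i) ≤ SD53.w Γ x ω → ew ≤ Γ.w x.1 (gl B ξ ω))
    (n0 : 16 * (δ + 4 * (Y' / (e1 * gA * ew) + ee)) ≤ 1)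
    (n1 : 32 * ((e - (low s κ).toNat : ℕ) : ℝ) * (G * s0 + Y) ≤ e1 * gA * ew)
    (n2 : 32 * ((e - (low s κ).toNat : ℕ) : ℝ) * s1 ≤ 1) :
    ∫⁻ ξ, T.indicator (rat p (SD53.w Γ) cel low t i s κ) (gl B ξ ω) ∂(law μ) ≤
      (c₁⁻¹ * (ENNReal.ofReal (C₀ ^ 2 * (2 / p₀)) * ENNReal.ofReal (3 + 2 * (g + Yg / lam) ^ 2))) *
        ∫⁻ η, L.indicator (fun ω => ∑ x ∈ nbs, SD53.w Γ x ω) (gl B η ω) ∂(law μ) := by
  refine m3C28 h hrow hKn mT H hc₁ hc₁' hKB hla hlB hH fun ξ hξ η hη => ?_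
  obtain ⟨x₀, hx₀, hx₁, -⟩ := hH
  have hi₀ : Inn Γ x₀.1 := by
    by_contra hc
    have h2 : SD53.w Γ x₀ ω = 0 := by
      show ENNReal.ofReal (Γ.w x₀.1 ω) = 0
      rw [w_zero hc h, ENNReal.ofReal_zero]
    rw [h2, nonpos_iff_eq_zero] at hx₁
    unfold H49.ex at hx₁
    exact (ENNReal.ofReal_pos.2 (Real.exp_pos _)).ne' hx₁
  rw [Ea_toNat]
  exact (hlu ξ hξ η hη).rest h (fun _ _ h => h) ((H x₀ hx₀ hi₀).hca.trans harl) hz he1 hew (hsite ξ hξ x₀ hx₀ hi₀) (hwt ξ hξ x₀ hx₀ hx₁) n0 n1 n2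

end

end Pool.Agent.W_7d29a1_C1.MM28
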