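import Pool.Agent.W_7d29a1_C1.MovO28
import Pool.Agent.W_7d29a1_C1.Osc22

/-!
MP_7d29a1_pr, attractor route, [C1] SEP: THE FIELD `M3A` OF `InG98` / `InI98`, LITERALLY. (helper28)

* `m3A98`: from `CwIn` (MovC71) for all the contacts of the cell, and the rest `7 / 8`;
* `Rs28`: the data of the rest of one cell (lane block `Lu28`, one site `z₀`), `Rs28.rest`;
* `m3B98`: from `CwIn` and `Rs28` of every cell, and the weight on the fibre;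
* `wgt28`: the weight on the fibre from the ratio `O22.Pr` for the pairs (typical, `TF`); `m3C98`: the field with it.
* `Fb28`: the fibres over the typical set; `Rs28` is asked only there.
Everything is asked only for the cells with a nonempty typical set.
-/

set_option autoImplicit false

namespace Pool.Agent.W_7d29a1_C1.MM28

open MeasureTheory ProbabilityTheory Finset
open Pool.Agent.W_7d29a1_F Pool.Agent.W_7d29a1_h4g Pool.Agent.W_7d29a1_H Pool.Agent.W_7d29a1_HS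
open Pool.Agent.W_7d29a1_C1.S71
open Pool.Agent.W_7d29a1_C1.K91 (wt wt_pos)
open Pool.Agent.W_7d29a1_C1.U16 (ker)
open Pool.Agent.W_7d29a1_C1.Gt66 (Pa)
open Pool.Agent.W_7d29a1_C1.H60
open Pool.Agent.W_7d29a1_C1.G37 (Gm)
open Pool.Agent.W_7d29a1_C1.H49 (Par Hs rat ex)
open Pool.Agent.W_7d29a1_C1.SD53
open Pool.Agent.W_7d29a1_C1.MC71 (CwIn Inn w_zero)
open Pool.Agent.W_7d29a1_C1.SF98 (FS XS wS up upK KS TA Tx p98 pX Hs_up nb_self)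
open scoped ENNReal

noncomputable section

attribute [local instance 10] Classical.propDecidable

variable {Γ : Cx} {G : Gm} {mt : ℕ}

/-- The constant of `M3A`. -/
def K28 (p₀ C₀ g lam Y : ℝ) (c₁ : ℝ≥0∞) : ℝ≥0∞ :=
  c₁⁻¹ * (ENNReal.ofReal (C₀ ^ 2 * (2 / p₀)) * ENNReal.ofReal (3 + 2 * (g + Y / lam) ^ 2))

/-- **THE FIELD `M3A` OF `InG98`** from the data of the windows. -/
theorem m3A98 {μ : Measure ℝ} [IsProbabilityMeasure μ] (h : Γ.Ok) {TT : ℝ → ℕ → ℤ × ℤ → Set Env} {L : ℕ → ℤ × ℤ → Set Env}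
    {d sl smax : ℕ → ℝ} {th be : ℕ → ℕ → ℝ} {b : ℕ → ℝ} {st : ℕ → ℕ → ℕ} {κ3 θ C1 : ℝ≥0∞} {τ0 q : ℕ}
    (mTT : ∀ σ u κ, MeasurableSet (TT σ u κ)) (Tsub : ∀ u κ, TA TT q d sl ∅ u κ ⊆ Tx TT smax u κ)
    (hst : ∀ t i, (p98 Γ G mt th sl be b st κ3 θ).rg τ0 t i → t ≤ st t i)
    (H : ∀ s, τ0 < s → s < G.M → ∀ κ : KS Γ G mt s, (Tx TT smax s κ.1).Nonempty → ∃ (B₂ S : Set Pt) (a n : ℕ) (Co : ℕ → ℤ → Prop)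
      (C : Pa n → Pa n → Set Env) (TF : Set Env) (Lk : Env → Set Env) (Mo : Set ℤ) (p₀ C₀ g lam Y : ℝ) (c₁ : ℝ≥0∞),
      (∀ x : XX Γ, G.loc s x.1 = κ.1 → Inn Γ x.1 → CwIn μ Γ (G.win s κ.1) B₂ S a n x.1 Co C (Tx TT smax s κ.1) TF (L s κ.1)
        Lk Mo p₀ C₀ g lam Y c₁) ∧ c₁ ≠ 0 ∧ c₁ ≠ ⊤ ∧ K28 p₀ C₀ g lam Y c₁ ≤ C1 ∧
      (∀ t i, (p98 Γ G mt th sl be b st κ3 θ).rg τ0 t i → s ∈ Ico (st t i) i → ∀ ω ∈ TA TT q d sl ∅ s κ.1,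
        ω ∈ Hs (pX Γ G th sl be b st κ3 θ) (SD53.w Γ) (G.cel (Γ.rows 0 Γ.N)) t i s (upK κ) →
        ∀ ξ, gl (G.win s κ.1) ξ ω ∈ TF → ∀ η ∈ Lk (gl (G.win s κ.1) ξ ω),
          7 / 8 ≤ ∑ c ∈ Ea Γ (G.lo s κ.1), Γ.w c (gl B₂ η (gl (G.win s κ.1) ξ ω)) +
            ∑ x ∈ G.nb (Γ.rows 0 Γ.N) s (upK κ), Γ.w x.1 (gl B₂ η (gl (G.win s κ.1) ξ ω)))) :
    ∀ t i, (p98 Γ G mt th sl be b st κ3 θ).rg τ0 t i → ∀ s ∈ Ico (st t i) i, ∀ κ : KS Γ G mt s,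
      ∀ ω ∈ TA TT q d sl ∅ s κ.1, ω ∈ Hs (p98 Γ G mt th sl be b st κ3 θ) (wS Γ G mt) (G.cel (FS Γ G mt)) t i s κ →
        ∫⁻ ξ, (TA TT q d sl ∅ s κ.1).indicator (rat (pX Γ G th sl be b st κ3 θ) (SD53.w Γ) (G.cel (Γ.rows 0 Γ.N))
          (G.low (Γ.rows 0 Γ.N)) t i s (upK κ)) (G.R s κ.1 ξ ω) ∂(law μ) ≤
        C1 * ∫⁻ η, (L s κ.1).indicator (fun ω => ∑ ρ ∈ G.nb (Γ.rows 0 Γ.N) s (upK κ), SD53.w Γ ρ ω) (G.R s κ.1 η ω) ∂(law μ) := by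
  intro t i hti s hs κ ω hω hH
  have hs' := mem_Ico.1 hs
  have h1 := hst t i hti
  obtain ⟨h2, h3, h4⟩ := hti
  have h4' : i ≤ G.M := h4
  have hH' := Hs_up hH
  obtain ⟨B₂, S, a, n, Co, C, TF, Lk, Mo, p₀, C₀, g, lam, Y, c₁, H1, hc0, hct, hC, hrest⟩ := H s (by omega) (by omega) κ
    ⟨ω, Tsub s κ.1 hω⟩
  have hcel : ∀ x : XX Γ, G.cel (Γ.rows 0 Γ.N) s x = upK κ → G.loc s x.1 = κ.1 := fun x hx => congrArg Subtype.val hx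
  -- one contact of the cell inside of the cone
  obtain ⟨x₀, hx₀, hx₁, hx₂⟩ := hH'
  have hi₀ : Inn Γ x₀.1 := by
    by_contra hc
    have h5 : SD53.w Γ x₀ ω = 0 := by
      show ENNReal.ofReal (Γ.w x₀.1 ω) = 0
      rw [w_zero hc h, ENNReal.ofReal_zero]
    rw [h5, nonpos_iff_eq_zero] at hx₁
    unfold H49.ex at hx₁
    exact (ENNReal.ofReal_pos.2 (Real.exp_pos _)).ne' hx₁
  have H₀ := H1 x₀ (hcel x₀ hx₀) hi₀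
  have hlo : ∀ x : XX Γ, G.loc s x.1 = κ.1 → G.lo s κ.1 ≤ (x.1.1 : ℤ) := fun x hx => by
    rw [← hx]
    exact G.lo_le s x.1
  have key := m3C28 (μ := μ) (B := G.win s κ.1) (B₂ := B₂) (S := S) (a := a) (n := n) (Co := Co) (Cw := C)
    (T := TA TT q d sl ∅ s κ.1) (TF := TF) (L := L s κ.1) (Lk := Lk) (MoG := Mo) (p₀ := p₀) (C₀ := C₀) (g := g) (lam := lam)
    (Yg := Y) (c₁ := c₁) h (p := pX Γ G th sl be b st κ3 θ) rfl (cel := G.cel (Γ.rows 0 Γ.N)) (low := G.low (Γ.rows 0 Γ.N))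
    (t := t) (i := i) (s := s) (κ := upK κ) (nbs := G.nb (Γ.rows 0 Γ.N) s (upK κ)) (fun x hx => by
      rw [← hx]
      exact nb_self s x) (mTT _ _ _)
    (fun x hx hi => monoT28 (H1 x (hcel x hx) hi) (Tsub s κ.1)) hc0 hct
    (fun x hx p hp => by
      have h5 := G.lt_rcc s x.1
      rw [hcel x hx] at h5
      have h6 := (G.win_rows hp).1
      have h7 := G.T_pos' (s - 1)
      linarith)
    (by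
      show G.lo s κ.1 ≤ (a : ℤ)
      have h5 := hlo x₀ (hcel x₀ hx₀)
      have h6 : ((x₀.1.1 : ℤ)) + 1 ≤ a := by exact_mod_cast H₀.hca
      linarith)
    (fun p hp => by
      show G.lo s κ.1 ≤ p.1
      have h5 := G.rcc_eq s κ.1
      have h6 := (G.win_rows hp).1
      have h7 := G.T_pos' (s - 1)
      have h8 := G.T_pos' (s - 2)
      linarith)
    (ω := ω) ⟨x₀, hx₀, hx₁, hx₂⟩
    (fun ξ hξ η hη => hrest t i ⟨h2, h3, h4⟩ hs ω hω ⟨x₀, hx₀, hx₁, hx₂⟩ ξ hξ η hη)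
  exact key.trans (mul_le_mul' hC le_rfl)

/-! ### The rest of one cell -/

/-- **THE FIBRES**: the environments of `TF` which are a resampling (in `B`) of an environment of `T`. -/
def Fb28 (B : Set Pt) (T TF : Set Env) : Set Env := {ω' | ω' ∈ TF ∧ ∃ ω ∈ T, ∃ ξ, ω' = gl B ξ ω}

theorem Fb28_sub {B : Set Pt} {T TF : Set Env} : Fb28 B T TF ⊆ TF := fun _ h => h.1

/-- **THE DATA OF THE REST**: lane block and one site. `Kc x` = the contact is in the cell. -/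
structure Rs28 (Γ : Cx) (B₂ : Set Pt) (TF : Set Env) (Lk : Env → Set Env) (Kc : XX Γ → Prop) (lw : ℕ) (nb : Finset (ℕ × ℤ))
    (rl a₁ b₁ b e : ℕ) (Mi Mo C1 C2 : Set ℤ) (gA G Y Y' ee δ s0 s1 : ℝ) (z₀ : ℤ) (e1 ew : ℝ) : Prop where
  z₀_mem : z₀ ∈ Mi
  e1_pos : 0 < e1
  ew_pos : 0 < ew
  row : ∀ x, Kc x → x.1.1 + 1 ≤ rl
  lu : ∀ ω ∈ TF, ∀ η ∈ Lk ω, Lu28 Γ lw rl a₁ b₁ b e Mi Mo C1 C2 gA G Y Y' ee δ s0 s1 nb ω (gl B₂ η ω)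
  site : ∀ ω ∈ TF, ∀ x, Kc x → Inn Γ x.1 → e1 * bW Γ ω (x.1.1 + 1) x.1.2 ≤
    ker (wt ω) Γ.p (x.1.1 + 1) (rl - (x.1.1 + 1)) x.1.2 z₀ * bW Γ ω rl z₀
  n0 : 16 * (δ + 4 * (Y' / (e1 * gA * ew) + ee)) ≤ 1
  n1 : 32 * ((e - lw : ℕ) : ℝ) * (G * s0 + Y) ≤ e1 * gA * ew
  n2 : 32 * ((e - lw : ℕ) : ℝ) * s1 ≤ 1

/-- The sites which are left out of the column of `st`, `ex`: the targets, and the sites outside of the box. -/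
def nbT28 (Γ : Cx) (nbs : Finset (XX Γ)) : Finset (ℕ × ℤ) :=
  (nbs.image fun x => x.1) ∪ (Ico 0 Γ.N ×ˢ Icc 0 Γ.hi).filter fun c => c ∉ Γ.rows 0 Γ.N

theorem nbT28_ok {nbs : Finset (XX Γ)} : ∀ c ∈ Γ.rows 0 Γ.N, c ∈ nbT28 Γ nbs → c ∈ nbs.image fun x => x.1 := by
  intro c hc h
  rcases mem_union.1 h with h | h
  · exact h
  · exact absurd hc (mem_filter.1 h).2

/-- **THE REST.** -/
theorem Rs28.rest (h : Γ.Ok) {B₂ : Set Pt} {TF : Set Env} {Lk : Env → Set Env} {Kc : XX Γ → Prop} {low : ℤ} {nbs : Finset (XX Γ)}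
    {rl a₁ b₁ b e : ℕ} {Mi Mo C1 C2 : Set ℤ} {gA G Y Y' ee δ s0 s1 : ℝ} {z₀ : ℤ} {e1 ew : ℝ}
    (R : Rs28 Γ B₂ TF Lk Kc low.toNat (nbT28 Γ nbs) rl a₁ b₁ b e Mi Mo C1 C2 gA G Y Y' ee δ s0 s1 z₀ e1 ew)
    {ω : Env} (hω : ω ∈ TF) {η : Env} (hη : η ∈ Lk ω) {x : XX Γ} (hx : Kc x) (hi : Inn Γ x.1) (hw : ew ≤ Γ.w x.1 ω) :
    7 / 8 ≤ ∑ c ∈ Ea Γ low, Γ.w c (gl B₂ η ω) + ∑ x ∈ nbs, Γ.w x.1 (gl B₂ η ω) := by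
  rw [Ea_toNat]
  exact (R.lu ω hω η hη).rest h nbT28_ok (R.row x hx) R.z₀_mem R.e1_pos R.ew_pos (R.site ω hω x hx hi) hw R.n0 R.n1 R.n2

/-- **THE FIELD `M3A` OF `InG98`**: windows (`CwIn`), lane blocks (`Rs28`), and the weight on the fibre. -/
theorem m3B98 {μ : Measure ℝ} [IsProbabilityMeasure μ] (h : Γ.Ok) {TT : ℝ → ℕ → ℤ × ℤ → Set Env} {L : ℕ → ℤ × ℤ → Set Env}
    {d sl smax : ℕ → ℝ} {th be : ℕ → ℕ → ℝ} {b : ℕ → ℝ} {st : ℕ → ℕ → ℕ} {κ3 θ C1' : ℝ≥0∞} {τ0 q : ℕ}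
    (mTT : ∀ σ u κ, MeasurableSet (TT σ u κ)) (Tsub : ∀ u κ, TA TT q d sl ∅ u κ ⊆ Tx TT smax u κ)
    (hst : ∀ t i, (p98 Γ G mt th sl be b st κ3 θ).rg τ0 t i → t ≤ st t i)
    (H : ∀ s, τ0 < s → s < G.M → ∀ κ : KS Γ G mt s, (Tx TT smax s κ.1).Nonempty → ∃ (B₂ S : Set Pt) (a n : ℕ) (Co : ℕ → ℤ → Prop)
      (C : Pa n → Pa n → Set Env) (TF : Set Env) (Lk : Env → Set Env) (Mo : Set ℤ) (p₀ C₀ g lam Y : ℝ) (c₁ : ℝ≥0∞),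
      (∀ x : XX Γ, G.loc s x.1 = κ.1 → Inn Γ x.1 → CwIn μ Γ (G.win s κ.1) B₂ S a n x.1 Co C (Tx TT smax s κ.1) TF (L s κ.1)
        Lk Mo p₀ C₀ g lam Y c₁) ∧ c₁ ≠ 0 ∧ c₁ ≠ ⊤ ∧ K28 p₀ C₀ g lam Y c₁ ≤ C1' ∧
      ∃ (rl a₁ b₁ b' e : ℕ) (Mi Mo' C1 C2 : Set ℤ) (gA G' Y0 Y' ee δ s0 s1 : ℝ) (z₀ : ℤ) (e1 ew : ℝ),
        Rs28 Γ B₂ (Fb28 (G.win s κ.1) (Tx TT smax s κ.1) TF) Lk (fun x => G.loc s x.1 = κ.1) (G.lo s κ.1).toNat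
          (nbT28 Γ (G.nb (Γ.rows 0 Γ.N) s (upK κ))) rl a₁ b₁ b' e Mi Mo' C1 C2 gA G' Y0 Y' ee δ s0 s1 z₀ e1 ew ∧
        ∀ t i, (p98 Γ G mt th sl be b st κ3 θ).rg τ0 t i → s ∈ Ico (st t i) i → ∀ ω ∈ TA TT q d sl ∅ s κ.1, ∀ ξ,
          gl (G.win s κ.1) ξ ω ∈ TF → ∀ x : XX Γ, G.loc s x.1 = κ.1 → ex (-be t i) ≤ SD53.w Γ x ω →
            ew ≤ Γ.w x.1 (gl (G.win s κ.1) ξ ω)) :
    ∀ t i, (p98 Γ G mt th sl be b st κ3 θ).rg τ0 t i → ∀ s ∈ Ico (st t i) i, ∀ κ : KS Γ G mt s,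
      ∀ ω ∈ TA TT q d sl ∅ s κ.1, ω ∈ Hs (p98 Γ G mt th sl be b st κ3 θ) (wS Γ G mt) (G.cel (FS Γ G mt)) t i s κ →
        ∫⁻ ξ, (TA TT q d sl ∅ s κ.1).indicator (rat (pX Γ G th sl be b st κ3 θ) (SD53.w Γ) (G.cel (Γ.rows 0 Γ.N))
          (G.low (Γ.rows 0 Γ.N)) t i s (upK κ)) (G.R s κ.1 ξ ω) ∂(law μ) ≤
        C1' * ∫⁻ η, (L s κ.1).indicator (fun ω => ∑ ρ ∈ G.nb (Γ.rows 0 Γ.N) s (upK κ), SD53.w Γ ρ ω) (G.R s κ.1 η ω) ∂(law μ) := by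
  refine m3A98 h mTT Tsub hst fun s hs hM κ hne => ?_
  obtain ⟨B₂, S, a, n, Co, C, TF, Lk, Mo, p₀, C₀, g, lam, Y, c₁, H1, hc0, hct, hC, rl, a₁, b₁, b', e, Mi, Mo', C1, C2, gA, G', Y0,
    Y', ee, δ, s0, s1, z₀, e1, ew, R, hw⟩ := H s hs hM κ hne
  refine ⟨B₂, S, a, n, Co, C, TF, Lk, Mo, p₀, C₀, g, lam, Y, c₁, H1, hc0, hct, hC, fun t i hti hst' ω hω hH ξ hξ η hη => ?_⟩
  obtain ⟨x₀, hx₀, hx₁, -⟩ := hH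
  have hcx : G.loc s x₀.1 = κ.1 := congrArg Subtype.val hx₀
  have hi₀ : Inn Γ x₀.1 := by
    by_contra hc
    have h5 : SD53.w Γ x₀ ω = 0 := by
      show ENNReal.ofReal (Γ.w x₀.1 ω) = 0
      rw [w_zero hc h, ENNReal.ofReal_zero]
    rw [h5, nonpos_iff_eq_zero] at hx₁
    unfold H49.ex at hx₁
    exact (ENNReal.ofReal_pos.2 (Real.exp_pos _)).ne' hx₁
  exact R.rest h ⟨hξ, ω, Tsub s κ.1 hω, ξ, rfl⟩ hη hcx hi₀ (hw t i hti hst' ω hω ξ hξ x₀ hcx hx₁)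

/-- **THE WEIGHT ON THE FIBRE.** -/
theorem wgt28 (h : Γ.Ok) {u : ℕ} {κ : ℤ × ℤ} {dF : ℝ} {ω ω' : Env}
    (P : O22.Pr Γ (G.ra u κ - 1) (G.re u κ) (O22.Bw G u κ) dF ω ω') {x : XX Γ} (hx : G.loc u x.1 = κ) {be E : ℝ}
    (hb : ex (-be) ≤ SD53.w Γ x ω) (hE : be + 4 * dF ≤ E) : Real.exp (-E) ≤ Γ.w x.1 ω' := by
  have h1 : x.1.1 < G.ra u κ - 1 := by
    have := G.row_lt_ra u x.1
    rw [hx] at this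
    omega
  have h2 : Γ.w x.1 ω ≤ Real.exp (4 * dF) * Γ.w x.1 ω' := P.symm.w_le h h1
  have h3 : Real.exp (-be) ≤ Γ.w x.1 ω := (ENNReal.ofReal_le_ofReal_iff (Cx.w_nonneg h x.1 ω)).1 hb
  have h4 : Real.exp (-be) ≤ Real.exp (4 * dF) * Γ.w x.1 ω' := h3.trans h2
  calc Real.exp (-E) ≤ Real.exp (-(4 * dF) + -be) := Real.exp_le_exp.2 (by linarith)
    _ = Real.exp (-(4 * dF)) * Real.exp (-be) := Real.exp_add _ _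
    _ ≤ Real.exp (-(4 * dF)) * (Real.exp (4 * dF) * Γ.w x.1 ω') := mul_le_mul_of_nonneg_left h4 (Real.exp_pos _).le
    _ = Γ.w x.1 ω' := by
        rw [← mul_assoc, ← Real.exp_add, neg_add_cancel, Real.exp_zero, one_mul]

/-- **THE FIELD `M3A` OF `InG98`**: windows (`CwIn`), lane blocks (`Rs28` with `ew = exp (-E)`), the ratio for the pairs
(typical, `TF`). -/
theorem m3C98 {μ : Measure ℝ} [IsProbabilityMeasure μ] (h : Γ.Ok) {TT : ℝ → ℕ → ℤ × ℤ → Set Env} {L : ℕ → ℤ × ℤ → Set Env}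
    {d sl smax : ℕ → ℝ} {th be : ℕ → ℕ → ℝ} {b : ℕ → ℝ} {st : ℕ → ℕ → ℕ} {κ3 θ C1' : ℝ≥0∞} {τ0 q : ℕ}
    (mTT : ∀ σ u κ, MeasurableSet (TT σ u κ)) (Tsub : ∀ u κ, TA TT q d sl ∅ u κ ⊆ Tx TT smax u κ)
    (hst : ∀ t i, (p98 Γ G mt th sl be b st κ3 θ).rg τ0 t i → t ≤ st t i) {E dF : ℕ → ℝ}
    (hbe : ∀ t i, (p98 Γ G mt th sl be b st κ3 θ).rg τ0 t i → ∀ s ∈ Ico (st t i) i, be t i + 4 * dF s ≤ E s)
    (H : ∀ s, τ0 < s → s < G.M → ∀ κ : KS Γ G mt s, (Tx TT smax s κ.1).Nonempty → ∃ (B₂ S : Set Pt) (a n : ℕ)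
      (Co : ℕ → ℤ → Prop) (C : Pa n → Pa n → Set Env) (TF : Set Env) (Lk : Env → Set Env) (Mo : Set ℤ)
      (p₀ C₀ g lam Y : ℝ) (c₁ : ℝ≥0∞),
      (∀ x : XX Γ, G.loc s x.1 = κ.1 → Inn Γ x.1 → CwIn μ Γ (G.win s κ.1) B₂ S a n x.1 Co C (Tx TT smax s κ.1) TF (L s κ.1)
        Lk Mo p₀ C₀ g lam Y c₁) ∧ c₁ ≠ 0 ∧ c₁ ≠ ⊤ ∧ K28 p₀ C₀ g lam Y c₁ ≤ C1' ∧
      (∃ (rl a₁ b₁ b' e : ℕ) (Mi Mo' C1 C2 : Set ℤ) (gA G' Y0 Y' ee δ s0 s1 : ℝ) (z₀ : ℤ) (e1 : ℝ),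
        Rs28 Γ B₂ (Fb28 (G.win s κ.1) (Tx TT smax s κ.1) TF) Lk (fun x => G.loc s x.1 = κ.1) (G.lo s κ.1).toNat
          (nbT28 Γ (G.nb (Γ.rows 0 Γ.N) s (upK κ))) rl a₁ b₁ b' e Mi Mo' C1 C2 gA G' Y0 Y' ee δ s0 s1 z₀ e1
          (Real.exp (-E s))) ∧
      ∀ ω ∈ Tx TT smax s κ.1, ∀ ξ, G.R s κ.1 ξ ω ∈ TF →
        O22.Pr Γ (G.ra s κ.1 - 1) (G.re s κ.1) (O22.Bw G s κ.1) (dF s) ω (G.R s κ.1 ξ ω)) :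
    ∀ t i, (p98 Γ G mt th sl be b st κ3 θ).rg τ0 t i → ∀ s ∈ Ico (st t i) i, ∀ κ : KS Γ G mt s,
      ∀ ω ∈ TA TT q d sl ∅ s κ.1, ω ∈ Hs (p98 Γ G mt th sl be b st κ3 θ) (wS Γ G mt) (G.cel (FS Γ G mt)) t i s κ →
        ∫⁻ ξ, (TA TT q d sl ∅ s κ.1).indicator (rat (pX Γ G th sl be b st κ3 θ) (SD53.w Γ) (G.cel (Γ.rows 0 Γ.N))
          (G.low (Γ.rows 0 Γ.N)) t i s (upK κ)) (G.R s κ.1 ξ ω) ∂(law μ) ≤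
        C1' * ∫⁻ η, (L s κ.1).indicator (fun ω => ∑ ρ ∈ G.nb (Γ.rows 0 Γ.N) s (upK κ), SD53.w Γ ρ ω) (G.R s κ.1 η ω) ∂(law μ) := by
  refine m3B98 h mTT Tsub hst fun s hs hM κ hne => ?_
  obtain ⟨B₂, S, a, n, Co, C, TF, Lk, Mo, p₀, C₀, g, lam, Y, c₁, H1, hc0, hct, hC, ⟨rl, a₁, b₁, b', e, Mi, Mo', C1, C2, gA, G',
    Y0, Y', ee, δ, s0, s1, z₀, e1, R⟩, hP⟩ := H s hs hM κ hne
  refine ⟨B₂, S, a, n, Co, C, TF, Lk, Mo, p₀, C₀, g, lam, Y, c₁, H1, hc0, hct, hC, rl, a₁, b₁, b', e, Mi, Mo', C1, C2, gA, G',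
    Y0, Y', ee, δ, s0, s1, z₀, e1, Real.exp (-E s), R, fun t i hti hst' ω hω ξ hξ x hx hb => ?_⟩
  exact wgt28 h (hP ω (Tsub s κ.1 hω) ξ hξ) hx hb (hbe t i hti s hst')

end

end Pool.Agent.W_7d29a1_C1.MM28
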