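import Pool.Agent.W_7d29a1_C1.MovJ42
import Pool.Agent.W_7d29a1_C1.NumH58

/-!
MP_7d29a1_pr, attractor route, [C1] SEP: THE TYPICAL SET `TF58` OF THE GATE BLOCK: measurable, decreasing in the wall sites, reads the
rows of the block only. (helper42)
-/

set_option autoImplicit false

namespace Pool.Agent.W_7d29a1_C1.MJ42

open MeasureTheory
open Pool.Agent.W_7d29a1_F Pool.Agent.W_7d29a1_h4g Pool.Agent.W_7d29a1_H Pool.Agent.W_7d29a1_HS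
open Pool.Agent.W_7d29a1_C1
open Pool.Agent.W_7d29a1_C1.GL18
open Pool.Agent.W_7d29a1_C1.Gt66 (X87 meas_X87)
open Pool.Agent.W_7d29a1_C1.PW58 (TF58)
open Pool.Agent.W_7d29a1_C1.S71 (Off gl)
open Pool.Agent.W_7d29a1_C1.F31 (DecO)

noncomputable section

variable {μ : Measure ℝ} {s c : ℝ} {K1h K2h K₁ K₂ : ℕ} {U₀ Q₀ U₁ Q₁ U Q Y : ℝ} {n m : ℕ} {b : Pt} {E : Set Env}

/-- **MEASURABLE.** -/
theorem tf_meas42 [IsProbabilityMeasure μ] : MeasurableSet (TF58 μ s c K1h K2h K₁ K₂ U₀ Q₀ U₁ Q₁ U Q Y n m b) :=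
  ((((lo18_meas _ _ _ _ _ _).inter (sd18_meas _ _ _ _ _ _)).inter ((up18_meas _ _ _ _).inter (us18_meas _ _ _ _ _))).inter
    ((jp18_meas _ _ _ _ _).inter (meas_X87 _ _ _ _ _))).inter ((co18_meas _ _ _ _).inter (up18_meas _ _ _ _))

/-- Core to core at any radius: no wall site is read. -/
theorem co18_off42 (hm : 2 * m ≤ n) (K K₁' K₂' Q' : ℝ) : Off (Sw μ s K₁' K₂' n m b) (Co18 μ s K n b Q') := by
  intro η η' h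
  refine co18_dep fun p h1 h2 => h p fun h3 => ?_
  rcases h3.1 with h4 | h4 <;> omega

/-- **DECREASING IN THE WALL SITES.** -/
theorem tf_dec42 (hm : 2 * m ≤ n) : DecO (Sw μ s K₁ K₂ n m b)ᶜ (TF58 μ s c K1h K2h K₁ K₂ U₀ Q₀ U₁ Q₁ U Q Y n m b) :=
  DecO.inter (DecO.inter (DecO.inter
    (DecO.inter (dec_off42 (lo18_off _ _ _ _ _ _)) (dec_off42 (sd18_off _ _ _ _ _ _)))
    (DecO.inter (DecO.of_dec up18_dec _) (DecO.of_dec us18_dec _)))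
    (DecO.inter (DecO.of_dec jp18_dec _) (dec_off42 (x87_off42 hm))))
    (DecO.inter (dec_off42 (co18_off42 hm _ _ _ _)) (DecO.of_dec up18_dec _))

/-- **IT READS THE ROWS OF THE BLOCK ONLY.** -/
theorem tf_rows42 [IsProbabilityMeasure μ] (hn : 1 ≤ n) (hm : 2 * m ≤ n) {η η' : Env}
    (h : ∀ p ∈ rows b.1 (b.1 + ((5 * n : ℕ) : ℤ)), η p = η' p) :
    η ∈ TF58 μ s c K1h K2h K₁ K₂ U₀ Q₀ U₁ Q₁ U Q Y n m b ↔ η' ∈ TF58 μ s c K1h K2h K₁ K₂ U₀ Q₀ U₁ Q₁ U Q Y n m b := by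
  unfold TF58
  simp only [Set.mem_inter_iff, lo18_rows h, sd18_rows hm h, up18_rows h, us18_rows hm h, jp18_rows hm h, co18_rows h, x87_rows42 hn h]

theorem tf_on42 [IsProbabilityMeasure μ] (hn : 1 ≤ n) (hm : 2 * m ≤ n) :
    On20 (rows b.1 (b.1 + ((5 * n : ℕ) : ℤ))) (TF58 μ s c K1h K2h K₁ K₂ U₀ Q₀ U₁ Q₁ U Q Y n m b) := fun _ _ h => tf_rows42 hn hm h

/-- **BLIND TO THE SITES ABOVE THE BLOCK.** -/
theorem tf_off42 [IsProbabilityMeasure μ] (hn : 1 ≤ n) (hm : 2 * m ≤ n) {B : Set Pt} (hB : ∀ p ∈ B, b.1 + ((5 * n : ℕ) : ℤ) < p.1) :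
    Off B (TF58 μ s c K1h K2h K₁ K₂ U₀ Q₀ U₁ Q₁ U Q Y n m b) := fun _ _ h =>
  tf_rows42 hn hm fun p hp => h p fun hp' => absurd (hB p hp') (not_lt.2 hp.2)

theorem tf_gl42 [IsProbabilityMeasure μ] (hn : 1 ≤ n) (hm : 2 * m ≤ n) {B : Set Pt} (hB : ∀ p ∈ B, b.1 + ((5 * n : ℕ) : ℤ) < p.1) (η ω : Env) :
    gl B η ω ∈ TF58 μ s c K1h K2h K₁ K₂ U₀ Q₀ U₁ Q₁ U Q Y n m b ↔ ω ∈ TF58 μ s c K1h K2h K₁ K₂ U₀ Q₀ U₁ Q₁ U Q Y n m b :=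
  tf_rows42 hn hm (gl_rows42 hB η ω)

/-- With a further set. -/
theorem tfE_meas42 [IsProbabilityMeasure μ] (hE : MeasurableSet E) :
    MeasurableSet (TF58 μ s c K1h K2h K₁ K₂ U₀ Q₀ U₁ Q₁ U Q Y n m b ∩ E) := tf_meas42.inter hE

theorem tfE_dec42 (hm : 2 * m ≤ n) (hE : DecO (Sw μ s K₁ K₂ n m b)ᶜ E) :
    DecO (Sw μ s K₁ K₂ n m b)ᶜ (TF58 μ s c K1h K2h K₁ K₂ U₀ Q₀ U₁ Q₁ U Q Y n m b ∩ E) := DecO.inter (tf_dec42 hm) hE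

theorem tfE_gl42 [IsProbabilityMeasure μ] (hn : 1 ≤ n) (hm : 2 * m ≤ n) {B : Set Pt} (hB : ∀ p ∈ B, b.1 + ((5 * n : ℕ) : ℤ) < p.1)
    {η ω : Env} (hE : ω ∈ E → gl B η ω ∈ E) (h : ω ∈ TF58 μ s c K1h K2h K₁ K₂ U₀ Q₀ U₁ Q₁ U Q Y n m b ∩ E) :
    gl B η ω ∈ TF58 μ s c K1h K2h K₁ K₂ U₀ Q₀ U₁ Q₁ U Q Y n m b ∩ E := ⟨(tf_gl42 hn hm hB η ω).2 h.1, hE h.2⟩

end

end Pool.Agent.W_7d29a1_C1.MJ42
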