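import Pool.Agent.W_7d29a1_C1.MovP28
import Pool.Agent.W_7d29a1_C1.MovI71

/-!
MP_7d29a1_pr, attractor route, [C1] SEP: ONE RECORD PER WINDOW FOR THE FIELDS `cmpA` AND `M3A`. (helper28)

`WQ28 … u κ`: helper71's `GwIn` (gate block, walls, luck), the core; and on the FIBRES over the typical set (`Fb28`: `ω' = R u κ ξ ω`,
`ω` typical, `ω' ∈ TF`): one site of the mouth, the pinching of the lane block, the cross ratio of its middle slab, the two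
probabilities of the column of targets, the ratio of `ω` and `ω'`; the numbers.
* `WQ28.cw` : `CwIn` of every contact of the cell; `WQ28.rs` : `Rs28`;
* `cmpQ28`, `m3Q28` : the fields `cmpA` and `M3A` (`InG98` / `InI98` / `In25`) from `WQ28` for every window with a nonempty typical set.
-/

set_option autoImplicit false

namespace Pool.Agent.W_7d29a1_C1.MM28

open MeasureTheory ProbabilityTheory Finset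
open Pool.Agent.W_7d29a1_F Pool.Agent.W_7d29a1_h4g Pool.Agent.W_7d29a1_H Pool.Agent.W_7d29a1_HS Pool.Agent.W_7d29a1_HL
open Pool.Agent.W_7d29a1_C1.S71
open Pool.Agent.W_7d29a1_C1.K91 (wt wt_pos)
open Pool.Agent.W_7d29a1_C1.K91P (bw)
open Pool.Agent.W_7d29a1_C1.U16 (ker)
open Pool.Agent.W_7d29a1_C1.Gt66 (Pa)
open Pool.Agent.W_7d29a1_C1.H60
open Pool.Agent.W_7d29a1_C1.G37 (Gm)
open Pool.Agent.W_7d29a1_C1.H49 (Par Hs rat ex)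
open Pool.Agent.W_7d29a1_C1.SD53
open Pool.Agent.W_7d29a1_C1.Lb76 (Pin76)
open Pool.Agent.W_7d29a1_C1.GL18 (Sw)
open Pool.Agent.W_7d29a1_C1.PW58 (Co58)
open Pool.Agent.W_7d29a1_C1.MC71 (CwIn Inn w_zero GwIn K71 K71_ne K71_top K71_num)
open Pool.Agent.W_7d29a1_C1.SF98 (FS XS wS up upK KS TA Tx p98 pX nb_self)
open scoped ENNReal

noncomputable section

attribute [local instance 10] Classical.propDecidable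

/-- The numbers of one window (real numbers and rows; everything but the uniform constants). -/
structure NQ28 where
  K₁ : ℝ
  K₂ : ℝ
  n : ℕ
  m : ℕ
  a : ℕ
  b : ℕ
  x0 : ℤ
  z₀ : ℤ
  K : ℝ
  Q : ℝ
  U : ℝ
  Yj : ℝ
  A : ℝ
  e₃ : ℝ
  G₃ : ℝ
  gA : ℝ
  Gu : ℝ
  Y : ℝ
  e₁ : ℝ
  a₁ : ℕ
  b₁ : ℕ
  e : ℕ
  Y' : ℝ
  ee : ℝ
  δ : ℝ
  s0 : ℝ
  s1 : ℝ

/-- **ONE WINDOW.** `T` = typical, `L` = lucky set; `C₀`, `p₀`, `c₁`, `E`, `dF` = uniform constants of the scale. -/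
structure WQ28 (μ : Measure ℝ) (s cr : ℝ) (Γ : Cx) (G : Gm) (u : ℕ) (κ : ℤ × ℤ) (P : NQ28) (B₂ : Set Pt)
    (Cw : Pa (5 * P.n) → Pa (5 * P.n) → Set Env) (T TF L : Set Env) (Lk : Env → Set Env) (Mi Mo C1 C2 : Set ℤ)
    (C₀ p₀ E dF : ℝ) (c₁ : ℝ≥0∞) : Prop where
  gw : GwIn μ s cr Γ (G.win u κ) B₂ P.K₁ P.K₂ P.n P.m P.a P.b P.x0 P.z₀ Cw TF L Lk Mi Mo P.K P.Q P.U P.Yj P.A P.e₃ P.G₃ p₀ P.gA P.Gu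
    P.Y c₁
  T_sub : T ⊆ TF
  gA0 : 0 < P.gA
  Y0 : 0 ≤ P.Y
  G30 : 0 < P.G₃
  num : P.Y ≤ P.gA / P.G₃
  row : ∀ x : XX Γ, G.loc u x.1 = κ → x.1.1 + 1 ≤ P.a
  /-- the core -/
  core : ∀ x : XX Γ, G.loc u x.1 = κ → Inn Γ x.1 → ∀ η ∈ T, bw (wt η) Γ.p (x.1.1 + 1) (Γ.N - (x.1.1 + 1)) x.1.2 ≤
    C₀ * Gt66.Z1 (wt η) Γ.p Γ.N P.a (5 * P.n) (Co58 μ s P.K₁ P.n P.x0) x.1.1 x.1.2
  /-- the ratio for the pairs (typical, `TF`) -/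
  ratio : ∀ ω ∈ T, ∀ ξ, G.R u κ ξ ω ∈ TF → O22.Pr Γ (G.ra u κ - 1) (G.re u κ) (O22.Bw G u κ) dF ω (G.R u κ ξ ω)
  e10 : 0 < P.e₁
  /-- one site of the mouth, on the fibres -/
  site : ∀ ω ∈ T, ∀ ξ, G.R u κ ξ ω ∈ TF → ∀ x : XX Γ, G.loc u x.1 = κ → Inn Γ x.1 →
    P.e₁ * bW Γ (G.R u κ ξ ω) (x.1.1 + 1) x.1.2 ≤
      ker (wt (G.R u κ ξ ω)) Γ.p (x.1.1 + 1) (P.a + 5 * P.n - (x.1.1 + 1)) x.1.2 P.z₀ * bW Γ (G.R u κ ξ ω) (P.a + 5 * P.n) P.z₀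
  /-- the lane block pinches, on the fibres -/
  pin : ∀ ω ∈ Fb28 (G.win u κ) T TF, ∀ η ∈ Lk ω, Pin76 Γ (P.a + 5 * P.n) P.a₁ P.b₁ C1 C2 P.Y' P.ee ω (gl B₂ η ω)
  be : P.b₁ ≤ P.e
  eN : P.e ≤ Γ.N
  δ0 : 0 ≤ P.δ
  s00 : 0 ≤ P.s0
  s10 : 0 ≤ P.s1
  hcr : ∀ ω ∈ Fb28 (G.win u κ) T TF, ∀ η ∈ Lk ω, ∀ z ∈ C1, ∀ z' ∈ C1, z < z' → ∀ x ∈ C2, ∀ y ∈ C2, x < y →
    ker (wt (gl B₂ η ω)) Γ.p P.a₁ (P.b₁ - P.a₁) z x * ker (wt (gl B₂ η ω)) Γ.p P.a₁ (P.b₁ - P.a₁) z' y -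
      ker (wt (gl B₂ η ω)) Γ.p P.a₁ (P.b₁ - P.a₁) z y * ker (wt (gl B₂ η ω)) Γ.p P.a₁ (P.b₁ - P.a₁) z' x ≤
      P.δ * (ker (wt (gl B₂ η ω)) Γ.p P.a₁ (P.b₁ - P.a₁) z x * ker (wt (gl B₂ η ω)) Γ.p P.a₁ (P.b₁ - P.a₁) z' y)
  /-- from outside of the column of targets into the mouth, on the fibres -/
  st : ∀ ω ∈ T, ∀ ξ, G.R u κ ξ ω ∈ TF → ∀ i, (G.lo u κ).toNat ≤ i → i < P.a + 5 * P.n → ∀ y, (i, y) ∈ Γ.rows 0 Γ.N →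
    ¬ G.Nb u κ (i, y) →
    ∑ v ∈ bx Γ Mo, ker (wt (G.R u κ ξ ω)) Γ.p (i + 1) (P.a + 5 * P.n - (i + 1)) y v * bW Γ (G.R u κ ξ ω) (P.a + 5 * P.n) v ≤
      P.s0 * bW Γ (G.R u κ ξ ω) (i + 1) y
  /-- from the mouth out of the column of targets, new content, on the fibres -/
  exc : ∀ ω ∈ Fb28 (G.win u κ) T TF, ∀ η ∈ Lk ω, ∀ i, P.a + 5 * P.n ≤ i → i < P.e → ∀ v ∈ bx Γ Mo,
    ∑ y ∈ (Icc 0 Γ.hi).filter (fun y => (i, y) ∈ Γ.rows 0 Γ.N ∧ ¬ G.Nb u κ (i, y)),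
      ker (wt (gl B₂ η ω)) Γ.p (P.a + 5 * P.n) (i + 1 - (P.a + 5 * P.n)) v y * bW Γ (gl B₂ η ω) (i + 1) y ≤
        P.s1 * bW Γ (gl B₂ η ω) (P.a + 5 * P.n) v
  n0 : 16 * (P.δ + 4 * (P.Y' / (P.e₁ * P.gA * Real.exp (-E)) + P.ee)) ≤ 1
  n1 : 32 * ((P.e - (G.lo u κ).toNat : ℕ) : ℝ) * (P.Gu * P.s0 + P.Y) ≤ P.e₁ * P.gA * Real.exp (-E)
  n2 : 32 * ((P.e - (G.lo u κ).toNat : ℕ) : ℝ) * P.s1 ≤ 1

variable {μ : Measure ℝ} {s cr Cr : ℝ} {n₀ : ℕ} {Γ : Cx} {G : Gm} {mt u : ℕ} {κ : ℤ × ℤ} {P : NQ28} {B₂ : Set Pt}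
  {Cw : Pa (5 * P.n) → Pa (5 * P.n) → Set Env} {T TF L : Set Env} {Lk : Env → Set Env} {Mi Mo C1 C2 : Set ℤ}
  {C₀ p₀ E dF : ℝ} {c₁ : ℝ≥0∞}

/-- **`CwIn` OF EVERY CONTACT OF THE CELL.** -/
theorem WQ28.cw [IsProbabilityMeasure μ] (hin : In μ s cr Cr n₀) (W : WQ28 μ s cr Γ G u κ P B₂ Cw T TF L Lk Mi Mo C1 C2 C₀ p₀ E dF c₁)
    {x : XX Γ} (hx : G.loc u x.1 = κ) (hi : Inn Γ x.1) :
    CwIn μ Γ (G.win u κ) B₂ (Sw μ s P.K₁ P.K₂ P.n P.m ((P.a : ℤ), P.x0)) P.a (5 * P.n) x.1 (Co58 μ s P.K₁ P.n P.x0) Cw T TF L Lk Mo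
      p₀ C₀ (12 / p₀) (P.gA / P.G₃) P.Y c₁ :=
  W.gw.cwZ hin W.gA0 W.Y0 W.G30 W.T_sub x.2 hi (W.row x hx) (W.core x hx hi)

/-- The sites which are not left out. -/
theorem mem_nb28 {κ : KS Γ G mt u} {i : ℕ} {y : ℤ} (hi : i < Γ.N) (hy : y ∈ Icc 0 Γ.hi) :
    (i, y) ∉ nbT28 Γ (G.nb (Γ.rows 0 Γ.N) u (upK κ)) ↔ (i, y) ∈ Γ.rows 0 Γ.N ∧ ¬ G.Nb u κ.1 (i, y) := by
  unfold nbT28
  rw [mem_union, not_or, mem_image, mem_filter]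
  constructor
  · rintro ⟨h1, h2⟩
    have h3 : (i, y) ∈ Γ.rows 0 Γ.N := by
      by_contra h4
      exact h2 ⟨mem_product.2 ⟨mem_Ico.2 ⟨Nat.zero_le _, hi⟩, hy⟩, h4⟩
    exact ⟨h3, fun h4 => h1 ⟨⟨(i, y), h3⟩, (G.mem_nb).2 h4, rfl⟩⟩
  · rintro ⟨h1, h2⟩
    refine ⟨?_, fun h3 => h3.2 h1⟩
    rintro ⟨x, hx, he⟩
    exact h2 (by rw [← he]; exact (G.mem_nb).1 hx)

/-- **`Rs28`.** -/
theorem WQ28.rs {κ : KS Γ G mt u} (W : WQ28 μ s cr Γ G u κ.1 P B₂ Cw T TF L Lk Mi Mo C1 C2 C₀ p₀ E dF c₁) :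
    Rs28 Γ B₂ (Fb28 (G.win u κ.1) T TF) Lk (fun x => G.loc u x.1 = κ.1) (G.lo u κ.1).toNat
      (nbT28 Γ (G.nb (Γ.rows 0 Γ.N) u (upK κ))) (P.a + 5 * P.n) P.a₁ P.b₁ P.b P.e Mi Mo C1 C2 P.gA P.Gu P.Y P.Y' P.ee P.δ P.s0 P.s1 P.z₀ P.e₁ (Real.exp (-E)) where
  z₀_mem := W.gw.z_Mi
  e1_pos := W.e10
  ew_pos := Real.exp_pos _
  row := fun x hx => (W.row x hx).trans (Nat.le_add_right _ _)
  lu := fun ω hω η hη =>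
    { luk := W.gw.luk ω hω.1 η hη
      pin := W.pin ω hω η hη
      be := W.be
      eN := W.eN
      δ0 := W.δ0
      s00 := W.s00
      s10 := W.s10
      hcr := W.hcr ω hω η hη
      st := fun i h1 h2 y hy hn => by
        obtain ⟨h3, ω₀, h4, ξ, rfl⟩ := hω
        have h5 := (mem_nb28 (lt_of_lt_of_le h2 W.gw.hN) hy).1 hn
        exact W.st ω₀ h4 ξ h3 i h1 h2 y h5.1 h5.2
      ex := fun i h1 h2 v hv => by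
        refine le_trans (le_of_eq ?_) (W.exc ω hω η hη i h1 h2 v hv)
        exact sum_congr (filter_congr fun y hy => mem_nb28 (lt_of_lt_of_le h2 W.eN) hy) fun _ _ => rfl }
  site := fun ω hω x hx hi => by
    obtain ⟨h3, ω₀, h4, ξ, rfl⟩ := hω
    exact W.site ω₀ h4 ξ h3 x hx hi
  n0 := W.n0
  n1 := W.n1
  n2 := W.n2

/-- The constant of `M3A`. -/
def KM28 (C₀ p₀ : ℝ) (c₁ : ℝ≥0∞) : ℝ≥0∞ :=
  c₁⁻¹ * (ENNReal.ofReal (C₀ ^ 2 * (2 / p₀)) * ENNReal.ofReal (3 + 2 * (12 / p₀ + 1) ^ 2))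

theorem KM28_top {C₀ p₀ : ℝ} {c₁ : ℝ≥0∞} (h : c₁ ≠ 0) : KM28 C₀ p₀ c₁ ≠ ⊤ :=
  ENNReal.mul_ne_top (ENNReal.inv_ne_top.2 h) (ENNReal.mul_ne_top ENNReal.ofReal_ne_top ENNReal.ofReal_ne_top)

theorem K28_le (hp : 0 < p₀) {lam Y : ℝ} (hlam : 0 < lam) (hY : 0 ≤ Y) (h : Y ≤ lam) :
    K28 p₀ C₀ (12 / p₀) lam Y c₁ ≤ KM28 C₀ p₀ c₁ := by
  unfold K28 KM28
  refine mul_le_mul' le_rfl (mul_le_mul' le_rfl (ENNReal.ofReal_le_ofReal ?_))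
  have h1 : 0 < 12 / p₀ := div_pos (by norm_num) hp
  have h3 : Y / lam ≤ 1 := (div_le_one hlam).2 h
  have h4 : 0 ≤ Y / lam := div_nonneg hY hlam.le
  have h5 : (12 / p₀ + Y / lam) ^ 2 ≤ (12 / p₀ + 1) ^ 2 := pow_le_pow_left₀ (by positivity) (by linarith) 2
  linarith

/-- **THE FIELD `cmpA`** from the records of the windows. -/
theorem cmpQ28 [IsProbabilityMeasure μ] (hin : In μ s cr Cr n₀) (h : Γ.Ok) {TT : ℝ → ℕ → ℤ × ℤ → Set Env} {L : ℕ → ℤ × ℤ → Set Env}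
    {sl smax : ℕ → ℝ} {th be : ℕ → ℕ → ℝ} {b : ℕ → ℝ} {st : ℕ → ℕ → ℕ} {κ3 θ : ℝ≥0∞} {τ0 : ℕ} {c : ℝ≥0∞}
    (hC : 0 < C₀) (hp : 0 < p₀) (hcc : c * K71 C₀ p₀ ≤ c₁) {E dF : ℕ → ℝ}
    (hst : ∀ t i, (p98 Γ G mt th sl be b st κ3 θ).rg τ0 t i → t ≤ st t i)
    (H : ∀ u, τ0 < u → u < G.M → ∀ κ : KS Γ G mt u, (Tx TT smax u κ.1).Nonempty → ∃ (P : NQ28) (B₂ : Set Pt)
      (Cw : Pa (5 * P.n) → Pa (5 * P.n) → Set Env) (TF : Set Env) (Lk : Env → Set Env) (Mi Mo C1 C2 : Set ℤ),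
      WQ28 μ s cr Γ G u κ.1 P B₂ Cw (Tx TT smax u κ.1) TF (L u κ.1) Lk Mi Mo C1 C2 C₀ p₀ (E u) (dF u) c₁) :
    ∀ t i, (p98 Γ G mt th sl be b st κ3 θ).rg τ0 t i → ∀ u ∈ Ico (st t i) i, ∀ y : XS Γ G mt,
      ∀ ω ∈ Tx TT smax u (G.loc u y.1),
      c * ∫⁻ ξ, (Tx TT smax u (G.loc u y.1)).indicator (wS Γ G mt y) (G.R u (G.loc u y.1) ξ ω) ∂(law μ) ≤
        ∫⁻ η, (L u (G.loc u y.1)).indicator (wS Γ G mt y) (G.R u (G.loc u y.1) η ω) ∂(law μ) := by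
  intro t i hr u hu y ω hω
  have h1 := hst t i hr
  obtain ⟨h2, h3⟩ := mem_Ico.1 hu
  obtain ⟨h4, h5, h6⟩ := hr
  have h7 : i ≤ G.M := h6
  by_cases hq : Inn Γ y.1
  · obtain ⟨P, B₂, Cw, TF, Lk, Mi, Mo, C1, C2, W⟩ := H u (by omega) (by omega) (G.cel (FS Γ G mt) u y) ⟨ω, hω⟩
    have H1 := W.cw hin (x := up y) rfl hq
    exact H1.cmp' h (K71_ne hC hp) (K71_top C₀ p₀) hcc (K71_num hC hp (div_pos W.gA0 W.G30) W.Y0 W.num) ω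
  · have e : ∀ η, (Tx TT smax u (G.loc u y.1)).indicator (wS Γ G mt y) (G.R u (G.loc u y.1) η ω) = 0 := fun η => by
      have h8 : ∀ η', wS Γ G mt y η' = 0 := fun η' => by
        show ENNReal.ofReal (Γ.w y.1 η') = 0
        rw [w_zero hq h, ENNReal.ofReal_zero]
      by_cases h9 : G.R u (G.loc u y.1) η ω ∈ Tx TT smax u (G.loc u y.1)
      · rw [Set.indicator_of_mem h9, h8]
      · rw [Set.indicator_of_notMem h9]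
    simp only [e, lintegral_zero, mul_zero]
    exact zero_le

/-- **THE FIELD `M3A`** from the records of the windows. -/
theorem m3Q28 [IsProbabilityMeasure μ] (hin : In μ s cr Cr n₀) (h : Γ.Ok) {TT : ℝ → ℕ → ℤ × ℤ → Set Env}
    {L : ℕ → ℤ × ℤ → Set Env} {d sl smax : ℕ → ℝ} {th be : ℕ → ℕ → ℝ} {b : ℕ → ℝ} {st : ℕ → ℕ → ℕ} {κ3 θ C1' : ℝ≥0∞} {τ0 q : ℕ}
    (hp : 0 < p₀) (hc : c₁ ≠ 0) (hct : c₁ ≠ ⊤) (hK : KM28 C₀ p₀ c₁ ≤ C1')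
    (mTT : ∀ σ u κ, MeasurableSet (TT σ u κ)) (Tsub : ∀ u κ, TA TT q d sl ∅ u κ ⊆ Tx TT smax u κ) {E dF : ℕ → ℝ}
    (hst : ∀ t i, (p98 Γ G mt th sl be b st κ3 θ).rg τ0 t i → t ≤ st t i)
    (hbe : ∀ t i, (p98 Γ G mt th sl be b st κ3 θ).rg τ0 t i → ∀ s ∈ Ico (st t i) i, be t i + 4 * dF s ≤ E s)
    (H : ∀ u, τ0 < u → u < G.M → ∀ κ : KS Γ G mt u, (Tx TT smax u κ.1).Nonempty → ∃ (P : NQ28) (B₂ : Set Pt)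
      (Cw : Pa (5 * P.n) → Pa (5 * P.n) → Set Env) (TF : Set Env) (Lk : Env → Set Env) (Mi Mo C1 C2 : Set ℤ),
      WQ28 μ s cr Γ G u κ.1 P B₂ Cw (Tx TT smax u κ.1) TF (L u κ.1) Lk Mi Mo C1 C2 C₀ p₀ (E u) (dF u) c₁) :
    ∀ t i, (p98 Γ G mt th sl be b st κ3 θ).rg τ0 t i → ∀ s ∈ Ico (st t i) i, ∀ κ : KS Γ G mt s,
      ∀ ω ∈ TA TT q d sl ∅ s κ.1, ω ∈ Hs (p98 Γ G mt th sl be b st κ3 θ) (wS Γ G mt) (G.cel (FS Γ G mt)) t i s κ →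
        ∫⁻ ξ, (TA TT q d sl ∅ s κ.1).indicator (rat (pX Γ G th sl be b st κ3 θ) (SD53.w Γ) (G.cel (Γ.rows 0 Γ.N))
          (G.low (Γ.rows 0 Γ.N)) t i s (upK κ)) (G.R s κ.1 ξ ω) ∂(law μ) ≤
        C1' * ∫⁻ η, (L s κ.1).indicator (fun ω => ∑ ρ ∈ G.nb (Γ.rows 0 Γ.N) s (upK κ), SD53.w Γ ρ ω) (G.R s κ.1 η ω) ∂(law μ) := by
  refine m3C98 h mTT Tsub hst hbe fun u hu hM κ hne => ?_
  obtain ⟨P, B₂, Cw, TF, Lk, Mi, Mo, C1, C2, W⟩ := H u hu hM κ hne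
  exact ⟨B₂, _, P.a, 5 * P.n, _, Cw, TF, Lk, Mo, p₀, C₀, 12 / p₀, P.gA / P.G₃, P.Y, c₁, fun x hx hi => W.cw hin hx hi, hc, hct,
    (K28_le hp (div_pos W.gA0 W.G30) W.Y0 W.num).trans hK,
    ⟨P.a + 5 * P.n, P.a₁, P.b₁, P.b, P.e, Mi, Mo, C1, C2, P.gA, P.Gu, P.Y, P.Y', P.ee, P.δ, P.s0, P.s1, P.z₀, P.e₁, W.rs⟩, W.ratio⟩

end

end Pool.Agent.W_7d29a1_C1.MM28
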