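import Pool.Agent.W_7d29a1_C1.NumM32

/-!
MP_7d29a1_pr, [C1] attractor route, SEP: THE NUMBERS OF `cmpA` AND `M3A` IN THE TWO UNITS. (helper32)

`E` = unit of the lanes (height `T'` of one slab), `F` = unit of the window (height `T`), `T' <= T <= X T'`.

* `two_units` : `8 <= E <= F <= X E`, rows of the window `<= 2 exp E`, for `T'` large;
* `mov2_32` : `num`, `n0`, `n1`, `n2` with the lane numbers in the unit `E` and all others in the unit `F`;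
* `ordX32` : the order of the constants in the two units.
-/

set_option autoImplicit false

namespace Pool.Agent.W_7d29a1_C1.NM32

open Finset MeasureTheory
open Pool.Agent.W_7d29a1_F Pool.Agent.W_7d29a1_h4g Pool.Agent.W_7d29a1_H Pool.Agent.W_7d29a1_HS
open Pool.Agent.W_7d29a1_C1.H60
open Pool.Agent.W_7d29a1_C1.G37 (Gm)
open Pool.Agent.W_7d29a1_C1.SD53
open Pool.Agent.W_7d29a1_C1.N49
open Pool.Agent.W_7d29a1_C1.Nl32
open Pool.Agent.W_7d29a1_C1.NE32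

noncomputable section

/-- **The two units.** -/
theorem two_units {μ : Measure ℝ} [IsProbabilityMeasure μ] {s c C : ℝ} {n₀ : ℕ} (h : In μ s c C n₀) (Y : ℝ) {X : ℕ} (hX : 1 ≤ X) :
    ∃ n₁ : ℕ, ∀ T' : ℕ, n₁ ≤ T' → ∀ T : ℕ, T' ≤ T → T ≤ X * T' →
      Y ≤ EE μ s T' ∧ 8 ≤ EE μ s T' ∧ EE μ s T' ≤ EE μ s T ∧ EE μ s T ≤ X * EE μ s T' ∧
        ∀ e : ℕ, e ≤ 2 * T + 1 → (e : ℝ) ≤ 2 * Real.exp (EE μ s T') := by
  obtain ⟨e1, he1, n₁, H⟩ := model_E h one_pos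
  obtain ⟨n₂, H2⟩ := exists_log_le (max (max Y 8) 3) he1
  refine ⟨max (max n₁ n₂) (max 3 (3 * X)), fun T' hT T h1 h2 => ?_⟩
  have h3 : 3 ≤ T' := le_trans (le_trans (le_max_left _ _) (le_max_right _ _)) hT
  have h4 : 3 * X ≤ T' := le_trans (le_trans (le_max_right _ _) (le_max_right _ _)) hT
  have h5 : n₁ ≤ T' := le_trans (le_trans (le_max_left _ _) (le_max_left _ _)) hT
  have h6 : n₂ ≤ T' := le_trans (le_trans (le_max_right _ _) (le_max_left _ _)) hT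
  have hT3 : (3 : ℝ) ≤ T' := by exact_mod_cast h3
  have h7 := H T' h5 T' (by rw [Real.rpow_one])
  have h8 := H2 T' h6
  have hl : 1 ≤ Real.log T' := by
    rw [Real.le_log_iff_exp_le (by linarith)]
    have := Real.exp_one_lt_d9
    linarith
  have hm : ∀ Z : ℝ, Z ≤ max (max Y 8) 3 → Z * Real.log T' ≤ EE μ s T' := fun Z hZ =>
    (mul_le_mul_of_nonneg_right hZ (by linarith)).trans (h8.trans h7)
  have hm' : ∀ Z : ℝ, Z ≤ max (max Y 8) 3 → Z ≤ EE μ s T' := fun Z hZ => by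
    have a1 : (0 : ℝ) ≤ max (max Y 8) 3 := le_trans (by norm_num) (le_max_right _ _)
    have a2 := hm _ (le_refl _)
    have a3 : max (max Y 8) 3 * 1 ≤ max (max Y 8) 3 * Real.log T' := mul_le_mul_of_nonneg_left hl a1
    linarith
  refine ⟨hm' Y (le_trans (le_max_left _ _) (le_max_left _ _)), hm' 8 (le_trans (le_max_right _ _) (le_max_left _ _)),
    EE_mono h1, EE_le_mul h.em s hX h2, fun e he => ?_⟩
  have h9 : Real.exp (3 * Real.log T') ≤ Real.exp (EE μ s T') := Real.exp_le_exp.2 (hm 3 (le_max_right _ _))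
  have e1' : Real.exp (3 * Real.log T') = (T' : ℝ) ^ 3 := by
    rw [show (3 : ℝ) = ((3 : ℕ) : ℝ) by norm_num, Real.exp_nat_mul, Real.exp_log (by linarith)]
  have h10 : (e : ℝ) ≤ 2 * (X * T') + 1 := by
    have a1 : e ≤ 2 * (X * T') + 1 := by omega
    exact_mod_cast a1
  have h11 : (3 : ℝ) * X ≤ T' := by exact_mod_cast h4
  have h12 : (X : ℝ) * T' * 3 ≤ T' * T' := by nlinarith
  have h13 : (T' : ℝ) * T' ≤ T' ^ 3 := by
    have a1 : (0 : ℝ) ≤ (T' : ℝ) * T' := by positivity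
    nlinarith
  have h14 : (1 : ℝ) ≤ T' * T' := by nlinarith
  rw [e1'] at h9
  nlinarith

variable {E F X EM m e3 g3 x y y' gu z zs zx gA Gu Y Y' ee δ s0 s1 e₁ G₃ R : ℝ}

/-- **THE NUMBERS, TWO UNITS.** -/
theorem mov2_32 (hE : 8 ≤ E) (hEF : E ≤ F) (hF : F ≤ X * E) (hm0 : 0 ≤ m) (he0 : 0 ≤ e3) (hg0 : 0 ≤ g3) (hzs : 0 ≤ zs)
    (hzx : 0 ≤ zx) (H : Mo32 (X * m) (X * e3) (X * g3) x y y' gu z zs zx) (hm : EM ≤ m * F) (he : Real.exp (-e3 * F) ≤ e₁)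
    (hg : Real.exp (x * E) ≤ gA) (hG3 : 0 < G₃) (hG3' : G₃ ≤ Real.exp (g3 * F)) (hY : Y ≤ Real.exp (y * E))
    (hY' : Y' ≤ Real.exp (y' * E)) (hGu : Gu ≤ Real.exp (gu * E)) (hee : ee ≤ Real.exp (-z * E)) (hδ : 32 * δ ≤ 1)
    (hR0 : 0 ≤ R) (hR : R ≤ 2 * Real.exp E) (h00 : 0 ≤ s0) (hs0 : s0 ≤ Real.exp (-zs * F)) (h10 : 0 ≤ s1)
    (hs1 : s1 ≤ Real.exp (-zx * F)) :
    0 < gA ∧ Y ≤ gA / G₃ ∧ 16 * (δ + 4 * (Y' / (e₁ * gA * Real.exp (-EM)) + ee)) ≤ 1 ∧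
      32 * R * (Gu * s0 + Y) ≤ e₁ * gA * Real.exp (-EM) ∧ 32 * R * s1 ≤ 1 := by
  have k1 : ∀ a : ℝ, 0 ≤ a → a * F ≤ X * a * E := fun a ha => by
    have := mul_le_mul_of_nonneg_left hF ha
    linarith
  have k2 : ∀ a : ℝ, 0 ≤ a → Real.exp (-a * F) ≤ Real.exp (-a * E) := fun a ha =>
    Real.exp_le_exp.2 (by have := mul_le_mul_of_nonneg_left hEF ha; linarith)
  refine mov32 hE H (hm.trans (k1 m hm0)) (le_trans (Real.exp_le_exp.2 ?_) he) hg hG3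
    (hG3'.trans (Real.exp_le_exp.2 (k1 g3 hg0))) hY hY' hGu hee hδ hR0 hR h00 (hs0.trans (k2 zs hzs)) h10 (hs1.trans (k2 zx hzx))
  have := k1 e3 he0
  linarith

/-- **THE ORDER OF THE CONSTANTS, TWO UNITS** (the letters of `blk_num`). -/
theorem ordX32 (X QA QB q1 yA yB rM g3 m e3 : ℝ) : ∃ LB₀ : ℝ, ∀ LB : ℝ, LB₀ ≤ LB → ∀ uB : ℝ, ∃ LA₀ : ℝ, ∀ LA : ℝ, LA₀ ≤ LA →
    ∀ uA : ℝ, ∃ z₀ : ℝ, 2 ≤ z₀ ∧ ∀ zs zx : ℝ, z₀ ≤ zs → z₀ ≤ zx → yA + 1 ≤ LA - QA ∧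
      Mo32 (X * m) (X * e3) (X * g3) (LA - QA + (LB - QB) - q1 - 1) (uB + rM + yA + 1) (uB + rM + yA + 1) (uB + rM + uA + 1)
        (LB - QB - q1 - yB - rM) zs zx := by
  obtain ⟨LB₀, H⟩ := ordM32 QA QB q1 yA yB rM (X * g3) (X * m) (X * e3)
  refine ⟨LB₀, fun LB hLB uB => ?_⟩
  obtain ⟨LA₀, H⟩ := H LB hLB uB
  refine ⟨LA₀, fun LA hLA uA => ?_⟩
  obtain ⟨z₀, H⟩ := H LA hLA uA
  exact ⟨max 2 z₀, le_max_left _ _, fun zs zx h1 h2 => H zs zx ((le_max_right _ _).trans h1) ((le_max_right _ _).trans h2)⟩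

end

end Pool.Agent.W_7d29a1_C1.NM32
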