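import Pool.Agent.W_7d29a1_C1.MovQ28
import Pool.Agent.W_7d29a1_C1.NumX32

/-!
MP_7d29a1_pr, [C1] attractor route, SEP: THE RECORD `WQ28` OF ONE WINDOW WITH ALL NUMBERS. (helper32)

* `Nb32` : the numbers of the window in exponents, `E` = unit of the lanes, `F` = unit of the window;
* `wq32` : `WQ28` from its parts and `Nb32`;
* `nq32`, `nb32_nq` : the record of numbers which is given by the exponents.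
-/

set_option autoImplicit false

namespace Pool.Agent.W_7d29a1_C1.NM32

open MeasureTheory ProbabilityTheory Finset
open Pool.Agent.W_7d29a1_F Pool.Agent.W_7d29a1_h4g Pool.Agent.W_7d29a1_H Pool.Agent.W_7d29a1_HS Pool.Agent.W_7d29a1_HL
open Pool.Agent.W_7d29a1_C1.S71
open Pool.Agent.W_7d29a1_C1.K91 (wt wt_pos)
open Pool.Agent.W_7d29a1_C1.K91P (bw)
open Pool.Agent.W_7d29a1_C1.U16 (ker)
open Pool.Agent.W_7d29a1_C1.Gt66 (Pa)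
open Pool.Agent.W_7d29a1_C1.H60
open Pool.Agent.W_7d29a1_C1.G37 (Gm)
open Pool.Agent.W_7d29a1_C1.SD53
open Pool.Agent.W_7d29a1_C1.Lb76 (Pin76)
open Pool.Agent.W_7d29a1_C1.PW58 (Co58)
open Pool.Agent.W_7d29a1_C1.MC71 (Inn GwIn)
open Pool.Agent.W_7d29a1_C1.MM28 (NQ28 WQ28 Fb28)
open scoped ENNReal

noncomputable section

attribute [local instance 10] Classical.propDecidable

/-- **THE NUMBERS OF ONE WINDOW IN EXPONENTS.** `E` = unit of the lanes, `F` = unit of the window, `EM` = level of the weight of a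
target (`M3A`), `lo` = first row of the cell. -/
structure Nb32 (P : NQ28) (lo : ℕ) (E F X EM m e3 g3 x y y' gu z zs zx : ℝ) : Prop where
  E8 : 8 ≤ E
  EF : E ≤ F
  FX : F ≤ X * E
  m0 : 0 ≤ m
  e0 : 0 ≤ e3
  g0 : 0 ≤ g3
  zs0 : 0 ≤ zs
  zx0 : 0 ≤ zx
  rt : Mo32 (X * m) (X * e3) (X * g3) x y y' gu z zs zx
  em : EM ≤ m * F
  he : Real.exp (-e3 * F) ≤ P.e₁
  hg : Real.exp (x * E) ≤ P.gA
  G0 : 0 < P.G₃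
  hG : P.G₃ ≤ Real.exp (g3 * F)
  Y0 : 0 ≤ P.Y
  hY : P.Y ≤ Real.exp (y * E)
  hY' : P.Y' ≤ Real.exp (y' * E)
  hGu : P.Gu ≤ Real.exp (gu * E)
  hee : P.ee ≤ Real.exp (-z * E)
  δ0 : 0 ≤ P.δ
  hδ : 32 * P.δ ≤ 1
  hR : ((P.e - lo : ℕ) : ℝ) ≤ 2 * Real.exp E
  s00 : 0 ≤ P.s0
  hs0 : P.s0 ≤ Real.exp (-zs * F)
  s10 : 0 ≤ P.s1
  hs1 : P.s1 ≤ Real.exp (-zx * F)

/-- **THE PARTS OF ONE WINDOW**: all fields of `WQ28` but the numbers. -/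
structure Wp32 (μ : Measure ℝ) (s cr : ℝ) (Γ : Cx) (G : Gm) (u : ℕ) (κ : ℤ × ℤ) (P : NQ28) (B₂ : Set Pt)
    (Cw : Pa (5 * P.n) → Pa (5 * P.n) → Set Env) (T TF L : Set Env) (Lk : Env → Set Env) (Mi Mo C1 C2 : Set ℤ)
    (C₀ p₀ dF : ℝ) (c₁ : ℝ≥0∞) : Prop where
  gw : GwIn μ s cr Γ (G.win u κ) B₂ P.K₁ P.K₂ P.n P.m P.a P.b P.x0 P.z₀ Cw TF L Lk Mi Mo P.K P.Q P.U P.Yj P.A P.e₃ P.G₃ p₀ P.gA P.Gu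
    P.Y c₁
  T_sub : T ⊆ TF
  row : ∀ x : XX Γ, G.loc u x.1 = κ → x.1.1 + 1 ≤ P.a
  core : ∀ x : XX Γ, G.loc u x.1 = κ → Inn Γ x.1 → ∀ η ∈ T, bw (wt η) Γ.p (x.1.1 + 1) (Γ.N - (x.1.1 + 1)) x.1.2 ≤
    C₀ * Gt66.Z1 (wt η) Γ.p Γ.N P.a (5 * P.n) (Co58 μ s P.K₁ P.n P.x0) x.1.1 x.1.2
  ratio : ∀ ω ∈ T, ∀ ξ, G.R u κ ξ ω ∈ TF → O22.Pr Γ (G.ra u κ - 1) (G.re u κ) (O22.Bw G u κ) dF ω (G.R u κ ξ ω)
  site : ∀ ω ∈ T, ∀ ξ, G.R u κ ξ ω ∈ TF → ∀ x : XX Γ, G.loc u x.1 = κ → Inn Γ x.1 →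
    P.e₁ * bW Γ (G.R u κ ξ ω) (x.1.1 + 1) x.1.2 ≤
      ker (wt (G.R u κ ξ ω)) Γ.p (x.1.1 + 1) (P.a + 5 * P.n - (x.1.1 + 1)) x.1.2 P.z₀ * bW Γ (G.R u κ ξ ω) (P.a + 5 * P.n) P.z₀
  pin : ∀ ω ∈ Fb28 (G.win u κ) T TF, ∀ η ∈ Lk ω, Pin76 Γ (P.a + 5 * P.n) P.a₁ P.b₁ C1 C2 P.Y' P.ee ω (gl B₂ η ω)
  be : P.b₁ ≤ P.e
  eN : P.e ≤ Γ.N
  hcr : ∀ ω ∈ Fb28 (G.win u κ) T TF, ∀ η ∈ Lk ω, ∀ z ∈ C1, ∀ z' ∈ C1, z < z' → ∀ x ∈ C2, ∀ y ∈ C2, x < y →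
    ker (wt (gl B₂ η ω)) Γ.p P.a₁ (P.b₁ - P.a₁) z x * ker (wt (gl B₂ η ω)) Γ.p P.a₁ (P.b₁ - P.a₁) z' y -
      ker (wt (gl B₂ η ω)) Γ.p P.a₁ (P.b₁ - P.a₁) z y * ker (wt (gl B₂ η ω)) Γ.p P.a₁ (P.b₁ - P.a₁) z' x ≤
      P.δ * (ker (wt (gl B₂ η ω)) Γ.p P.a₁ (P.b₁ - P.a₁) z x * ker (wt (gl B₂ η ω)) Γ.p P.a₁ (P.b₁ - P.a₁) z' y)
  st : ∀ ω ∈ T, ∀ ξ, G.R u κ ξ ω ∈ TF → ∀ i, (G.lo u κ).toNat ≤ i → i < P.a + 5 * P.n → ∀ y, (i, y) ∈ Γ.rows 0 Γ.N →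
    ¬ G.Nb u κ (i, y) →
    ∑ v ∈ bx Γ Mo, ker (wt (G.R u κ ξ ω)) Γ.p (i + 1) (P.a + 5 * P.n - (i + 1)) y v * bW Γ (G.R u κ ξ ω) (P.a + 5 * P.n) v ≤
      P.s0 * bW Γ (G.R u κ ξ ω) (i + 1) y
  exc : ∀ ω ∈ Fb28 (G.win u κ) T TF, ∀ η ∈ Lk ω, ∀ i, P.a + 5 * P.n ≤ i → i < P.e → ∀ v ∈ bx Γ Mo,
    ∑ y ∈ (Icc 0 Γ.hi).filter (fun y => (i, y) ∈ Γ.rows 0 Γ.N ∧ ¬ G.Nb u κ (i, y)),
      ker (wt (gl B₂ η ω)) Γ.p (P.a + 5 * P.n) (i + 1 - (P.a + 5 * P.n)) v y * bW Γ (gl B₂ η ω) (i + 1) y ≤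
        P.s1 * bW Γ (gl B₂ η ω) (P.a + 5 * P.n) v

variable {μ : Measure ℝ} {s cr : ℝ} {Γ : Cx} {G : Gm} {u : ℕ} {κ : ℤ × ℤ} {P : NQ28} {B₂ : Set Pt}
  {Cw : Pa (5 * P.n) → Pa (5 * P.n) → Set Env} {T TF L : Set Env} {Lk : Env → Set Env} {Mi Mo C1 C2 : Set ℤ}
  {C₀ p₀ dF : ℝ} {c₁ : ℝ≥0∞} {E F X EM m e3 g3 x y y' gu z zs zx : ℝ}

/-- **`WQ28` OF ONE WINDOW.** -/
theorem wq32 (W : Wp32 μ s cr Γ G u κ P B₂ Cw T TF L Lk Mi Mo C1 C2 C₀ p₀ dF c₁)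
    (H : Nb32 P (G.lo u κ).toNat E F X EM m e3 g3 x y y' gu z zs zx) :
    WQ28 μ s cr Γ G u κ P B₂ Cw T TF L Lk Mi Mo C1 C2 C₀ p₀ EM dF c₁ := by
  obtain ⟨k1, k2, k3, k4, k5⟩ := mov2_32 H.E8 H.EF H.FX H.m0 H.e0 H.g0 H.zs0 H.zx0 H.rt H.em H.he H.hg H.G0 H.hG H.hY H.hY' H.hGu
    H.hee H.hδ (Nat.cast_nonneg _) H.hR H.s00 H.hs0 H.s10 H.hs1
  exact
    { gw := W.gw
      T_sub := W.T_sub
      gA0 := k1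
      Y0 := H.Y0
      G30 := H.G0
      num := k2
      row := W.row
      core := W.core
      ratio := W.ratio
      e10 := lt_of_lt_of_le (Real.exp_pos _) H.he
      site := W.site
      pin := W.pin
      be := W.be
      eN := W.eN
      δ0 := H.δ0
      s00 := H.s00
      s10 := H.s10
      hcr := W.hcr
      st := W.st
      exc := W.exc
      n0 := k3
      n1 := k4
      n2 := k5 }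

/-- **The record of numbers which is given by the exponents.** -/
def nq32 (K₁ K₂ : ℝ) (n m' a b : ℕ) (x0 z₀ : ℤ) (K Q U Yj A e₃ G₃ δ : ℝ) (a₁ b₁ e : ℕ) (E F e3 x y y' gu z zs zx : ℝ) : NQ28 where
  K₁ := K₁
  K₂ := K₂
  n := n
  m := m'
  a := a
  b := b
  x0 := x0
  z₀ := z₀
  K := K
  Q := Q
  U := U
  Yj := Yj
  A := A
  e₃ := e₃
  G₃ := G₃
  gA := Real.exp (x * E)
  Gu := Real.exp (gu * E)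
  Y := Real.exp (y * E)
  e₁ := Real.exp (-e3 * F)
  a₁ := a₁
  b₁ := b₁
  e := e
  Y' := Real.exp (y' * E)
  ee := Real.exp (-z * E)
  δ := δ
  s0 := Real.exp (-zs * F)
  s1 := Real.exp (-zx * F)

theorem nb32_nq {K₁ K₂ : ℝ} {n m' a b : ℕ} {x0 z₀ : ℤ} {K Q U Yj A e₃ G₃ δ : ℝ} {a₁ b₁ e lo : ℕ} (E8 : 8 ≤ E) (EF : E ≤ F)
    (FX : F ≤ X * E) (m0 : 0 ≤ m) (e0 : 0 ≤ e3) (g0 : 0 ≤ g3) (zs0 : 0 ≤ zs) (zx0 : 0 ≤ zx)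
    (rt : Mo32 (X * m) (X * e3) (X * g3) x y y' gu z zs zx) (em : EM ≤ m * F) (G0 : 0 < G₃) (hG : G₃ ≤ Real.exp (g3 * F))
    (δ0 : 0 ≤ δ) (hδ : 32 * δ ≤ 1) (hR : ((e - lo : ℕ) : ℝ) ≤ 2 * Real.exp E) :
    Nb32 (nq32 K₁ K₂ n m' a b x0 z₀ K Q U Yj A e₃ G₃ δ a₁ b₁ e E F e3 x y y' gu z zs zx) lo E F X EM m e3 g3 x y y' gu z zs zx where
  E8 := E8
  EF := EF
  FX := FX
  m0 := m0
  e0 := e0
  g0 := g0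
  zs0 := zs0
  zx0 := zx0
  rt := rt
  em := em
  he := le_rfl
  hg := le_rfl
  G0 := G0
  hG := hG
  Y0 := (Real.exp_pos _).le
  hY := le_rfl
  hY' := le_rfl
  hGu := le_rfl
  hee := le_rfl
  δ0 := δ0
  hδ := hδ
  hR := hR
  s00 := (Real.exp_pos _).le
  hs0 := le_rfl
  s10 := (Real.exp_pos _).le
  hs1 := le_rfl

end

end Pool.Agent.W_7d29a1_C1.NM32
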