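import Mathlib

/-!
# MP_7d29a1_pr, C1: the move inequality (M3) of MOVE THE CONTACT, algebra

Pairs of replicas which have met at a site `q` are independent afterwards.  `N q` = non meeting
mass up to `q`, `L q v` = mass from `q` to the site `v` of the entrance row (through the window),
`B v` = kernel behind `v` times the future.  A class `A` of meeting sites has the mass
`DD A N L s B = ∑ q ∈ A, N q * (∑ v ∈ s, L q v * B v) ^ 2`.
`Ar` = sites of the new place `ρ`, `Ae` = earlier meeting sites.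
The arrival masses are mixtures over finitely many classes `j ∈ J` (backward classes of the
buffer): `L q v` is comparable with `∑ j, a q j * p j v`, and on the bulk cell `b j` with
`a q j * p j v` alone.

* `classes30` : for every old content `B` one class `j` is as good as the whole.
* `move30` : with a tube at the bulk cell of this class the new weight `q` of the place satisfies
  `DD ρ B ≤ 16 k ^ 8 |J| * q * (DD ρ B + DD early B)`.
* `draw30` : a lucky tube draws a whole group.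
* `share30` : the same for one contact among all pairs (M1 in the same frame).
-/

namespace Pool.Agent.W_7d29a1_C1.M30

open Finset

variable {ι κ γ : Type*}

/-- Mass of the pairs which have met at a site of `A` and run over `s`. -/
def DD (A : Finset κ) (N : κ → ℝ) (L : κ → ι → ℝ) (s : Finset ι) (B : ι → ℝ) : ℝ :=
  ∑ q ∈ A, N q * (∑ v ∈ s, L q v * B v) ^ 2

/-- Mass of a class of sites in the class `j`. -/
def DJ (A : Finset κ) (N : κ → ℝ) (a : κ → γ → ℝ) (j : γ) : ℝ := ∑ q ∈ A, N q * a q j ^ 2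

lemma DD_nonneg {A : Finset κ} {N : κ → ℝ} (hN : ∀ q ∈ A, 0 ≤ N q) (L : κ → ι → ℝ)
    (s : Finset ι) (B : ι → ℝ) : 0 ≤ DD A N L s B :=
  Finset.sum_nonneg fun q hq => mul_nonneg (hN q hq) (sq_nonneg _)

lemma DJ_nonneg {A : Finset κ} {N : κ → ℝ} (hN : ∀ q ∈ A, 0 ≤ N q) (a : κ → γ → ℝ) (j : γ) :
    0 ≤ DJ A N a j :=
  Finset.sum_nonneg fun q hq => mul_nonneg (hN q hq) (sq_nonneg _)

/-- A mixture is at most the number of classes times the classes. -/
lemma DD_le {A : Finset κ} {N : κ → ℝ} {L : κ → ι → ℝ} {s : Finset ι} {B : ι → ℝ}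
    {J : Finset γ} {a : κ → γ → ℝ} {p : γ → ι → ℝ} {k : ℝ}
    (hN : ∀ q ∈ A, 0 ≤ N q) (hB : ∀ v ∈ s, 0 ≤ B v)
    (hL0 : ∀ q ∈ A, ∀ v ∈ s, 0 ≤ L q v)
    (hL : ∀ q ∈ A, ∀ v ∈ s, L q v ≤ k * ∑ j ∈ J, a q j * p j v) :
    DD A N L s B ≤ k ^ 2 * J.card * ∑ j ∈ J, (∑ v ∈ s, p j v * B v) ^ 2 * DJ A N a j := by
  have h1 : ∀ q ∈ A, (∑ v ∈ s, L q v * B v) ^ 2
      ≤ k ^ 2 * (J.card * ∑ j ∈ J, (a q j * ∑ v ∈ s, p j v * B v) ^ 2) := by
    intro q hq
    have h2 : ∑ v ∈ s, L q v * B v ≤ k * ∑ j ∈ J, a q j * ∑ v ∈ s, p j v * B v := by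
      calc ∑ v ∈ s, L q v * B v ≤ ∑ v ∈ s, (k * ∑ j ∈ J, a q j * p j v) * B v :=
            Finset.sum_le_sum fun v hv => mul_le_mul_of_nonneg_right (hL q hq v hv) (hB v hv)
        _ = ∑ v ∈ s, ∑ j ∈ J, k * (a q j * (p j v * B v)) := by
            refine Finset.sum_congr rfl fun v _ => ?_
            rw [Finset.mul_sum, Finset.sum_mul]
            exact Finset.sum_congr rfl fun j _ => by ring
        _ = k * ∑ j ∈ J, a q j * ∑ v ∈ s, p j v * B v := by
            rw [Finset.sum_comm, Finset.mul_sum]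
            refine Finset.sum_congr rfl fun j _ => ?_
            rw [Finset.mul_sum, Finset.mul_sum]
    have h0 : 0 ≤ ∑ v ∈ s, L q v * B v :=
      Finset.sum_nonneg fun v hv => mul_nonneg (hL0 q hq v hv) (hB v hv)
    calc (∑ v ∈ s, L q v * B v) ^ 2 ≤ (k * ∑ j ∈ J, a q j * ∑ v ∈ s, p j v * B v) ^ 2 :=
          pow_le_pow_left₀ h0 h2 2
      _ = k ^ 2 * (∑ j ∈ J, a q j * ∑ v ∈ s, p j v * B v) ^ 2 := by ring
      _ ≤ k ^ 2 * (J.card * ∑ j ∈ J, (a q j * ∑ v ∈ s, p j v * B v) ^ 2) :=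
          mul_le_mul_of_nonneg_left sq_sum_le_card_mul_sum_sq (sq_nonneg k)
  calc DD A N L s B ≤ ∑ q ∈ A, N q *
        (k ^ 2 * (J.card * ∑ j ∈ J, (a q j * ∑ v ∈ s, p j v * B v) ^ 2)) :=
        Finset.sum_le_sum fun q hq => mul_le_mul_of_nonneg_left (h1 q hq) (hN q hq)
    _ = ∑ q ∈ A, ∑ j ∈ J, k ^ 2 * J.card *
          ((∑ v ∈ s, p j v * B v) ^ 2 * (N q * a q j ^ 2)) := by
        refine Finset.sum_congr rfl fun q _ => ?_
        rw [Finset.mul_sum, Finset.mul_sum, Finset.mul_sum]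
        exact Finset.sum_congr rfl fun j _ => by ring
    _ = _ := by
        rw [Finset.sum_comm, Finset.mul_sum]
        refine Finset.sum_congr rfl fun j _ => ?_
        rw [DJ, Finset.mul_sum, Finset.mul_sum]

private lemma sum_sq30 {J : Finset γ} {x : γ → ℝ} (h : ∀ j ∈ J, 0 ≤ x j) :
    ∑ j ∈ J, x j ^ 2 ≤ (∑ j ∈ J, x j) ^ 2 := by
  rw [sq (∑ j ∈ J, x j), Finset.sum_mul]
  refine Finset.sum_le_sum fun j hj => ?_
  rw [sq]
  exact mul_le_mul_of_nonneg_left (Finset.single_le_sum h hj) (h j hj)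

/-- A mixture is at least the sum over the classes. -/
lemma le_DD {A : Finset κ} {N : κ → ℝ} {L : κ → ι → ℝ} {s : Finset ι} {B : ι → ℝ}
    {J : Finset γ} {a : κ → γ → ℝ} {p : γ → ι → ℝ} {k : ℝ}
    (hN : ∀ q ∈ A, 0 ≤ N q) (hB : ∀ v ∈ s, 0 ≤ B v)
    (ha : ∀ q ∈ A, ∀ j ∈ J, 0 ≤ a q j) (hp : ∀ j ∈ J, ∀ v ∈ s, 0 ≤ p j v)
    (hL : ∀ q ∈ A, ∀ v ∈ s, ∑ j ∈ J, a q j * p j v ≤ k * L q v) :
    ∑ j ∈ J, (∑ v ∈ s, p j v * B v) ^ 2 * DJ A N a j ≤ k ^ 2 * DD A N L s B := by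
  have hG : ∀ j ∈ J, 0 ≤ ∑ v ∈ s, p j v * B v := fun j hj =>
    Finset.sum_nonneg fun v hv => mul_nonneg (hp j hj v hv) (hB v hv)
  have h1 : ∀ q ∈ A, ∑ j ∈ J, (a q j * ∑ v ∈ s, p j v * B v) ^ 2
      ≤ k ^ 2 * (∑ v ∈ s, L q v * B v) ^ 2 := by
    intro q hq
    have h2 : ∑ j ∈ J, a q j * ∑ v ∈ s, p j v * B v ≤ k * ∑ v ∈ s, L q v * B v := by
      calc ∑ j ∈ J, a q j * ∑ v ∈ s, p j v * B v
          = ∑ v ∈ s, (∑ j ∈ J, a q j * p j v) * B v := by
            simp only [Finset.mul_sum, Finset.sum_mul]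
            rw [Finset.sum_comm]
            exact Finset.sum_congr rfl fun v _ => Finset.sum_congr rfl fun j _ => by ring
        _ ≤ ∑ v ∈ s, (k * L q v) * B v :=
            Finset.sum_le_sum fun v hv => mul_le_mul_of_nonneg_right (hL q hq v hv) (hB v hv)
        _ = _ := by
            rw [Finset.mul_sum]
            exact Finset.sum_congr rfl fun v _ => by ring
    have h3 : ∀ j ∈ J, 0 ≤ a q j * ∑ v ∈ s, p j v * B v := fun j hj =>
      mul_nonneg (ha q hq j hj) (hG j hj)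
    calc ∑ j ∈ J, (a q j * ∑ v ∈ s, p j v * B v) ^ 2
        ≤ (∑ j ∈ J, a q j * ∑ v ∈ s, p j v * B v) ^ 2 := sum_sq30 h3
      _ ≤ (k * ∑ v ∈ s, L q v * B v) ^ 2 := pow_le_pow_left₀ (Finset.sum_nonneg h3) h2 2
      _ = _ := by ring
  calc ∑ j ∈ J, (∑ v ∈ s, p j v * B v) ^ 2 * DJ A N a j
      = ∑ j ∈ J, ∑ q ∈ A, N q * (a q j * ∑ v ∈ s, p j v * B v) ^ 2 := by
        refine Finset.sum_congr rfl fun j _ => ?_
        rw [DJ, Finset.mul_sum]
        exact Finset.sum_congr rfl fun q _ => by ring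
    _ = ∑ q ∈ A, N q * ∑ j ∈ J, (a q j * ∑ v ∈ s, p j v * B v) ^ 2 := by
        rw [Finset.sum_comm]
        exact Finset.sum_congr rfl fun q _ => (Finset.mul_sum _ _ _).symm
    _ ≤ ∑ q ∈ A, N q * (k ^ 2 * (∑ v ∈ s, L q v * B v) ^ 2) :=
        Finset.sum_le_sum fun q hq => mul_le_mul_of_nonneg_left (h1 q hq) (hN q hq)
    _ = _ := by
        rw [DD, Finset.mul_sum]
        exact Finset.sum_congr rfl fun q _ => by ring

/-- **Choice of the class.**  Whatever the old content `B` behind the entrance row is, one class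
`j` has `D_ρ(j) / D_e(j)` at least `1 / (k ^ 4 |J|)` times `D_ρ(B) / D_e(B)`. -/
theorem classes30 {Ar Ae : Finset κ} {N : κ → ℝ} {L : κ → ι → ℝ} {s : Finset ι} {B : ι → ℝ}
    {J : Finset γ} {a : κ → γ → ℝ} {p : γ → ι → ℝ} {k : ℝ} (hJ : J.Nonempty)
    (hNr : ∀ q ∈ Ar, 0 ≤ N q) (hNe : ∀ q ∈ Ae, 0 ≤ N q) (hB : ∀ v ∈ s, 0 ≤ B v)
    (hL0 : ∀ q ∈ Ar, ∀ v ∈ s, 0 ≤ L q v)
    (ha : ∀ q ∈ Ae, ∀ j ∈ J, 0 ≤ a q j) (hp : ∀ j ∈ J, ∀ v ∈ s, 0 ≤ p j v)
    (h1 : ∀ q ∈ Ar, ∀ v ∈ s, L q v ≤ k * ∑ j ∈ J, a q j * p j v)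
    (h2 : ∀ q ∈ Ae, ∀ v ∈ s, ∑ j ∈ J, a q j * p j v ≤ k * L q v) :
    ∃ j ∈ J, DD Ar N L s B * DJ Ae N a j
      ≤ k ^ 4 * J.card * (DD Ae N L s B * DJ Ar N a j) := by
  by_contra hcon
  push Not at hcon
  have u1 := DD_le hNr hB hL0 h1
  have u2 := le_DD hNe hB ha hp h2
  have hE : 0 ≤ DD Ae N L s B := DD_nonneg hNe L s B
  have hR : 0 ≤ DD Ar N L s B := DD_nonneg hNr L s B
  have hc : (0 : ℝ) < J.card := by exact_mod_cast hJ.card_pos
  have hsum : ∑ j ∈ J, (∑ v ∈ s, p j v * B v) ^ 2 *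
        (k ^ 4 * J.card * (DD Ae N L s B * DJ Ar N a j))
      ≤ ∑ j ∈ J, (∑ v ∈ s, p j v * B v) ^ 2 * (DD Ar N L s B * DJ Ae N a j) :=
    Finset.sum_le_sum fun j hj => mul_le_mul_of_nonneg_left (hcon j hj).le (sq_nonneg _)
  by_cases hz : ∃ j ∈ J, 0 < (∑ v ∈ s, p j v * B v) ^ 2
  · obtain ⟨j0, hj0, hz0⟩ := hz
    have hstr : ∑ j ∈ J, (∑ v ∈ s, p j v * B v) ^ 2 *
          (k ^ 4 * J.card * (DD Ae N L s B * DJ Ar N a j))
        < ∑ j ∈ J, (∑ v ∈ s, p j v * B v) ^ 2 * (DD Ar N L s B * DJ Ae N a j) :=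
      Finset.sum_lt_sum
        (fun j hj => mul_le_mul_of_nonneg_left (hcon j hj).le (sq_nonneg _))
        ⟨j0, hj0, mul_lt_mul_of_pos_left (hcon j0 hj0) hz0⟩
    have e1 : ∑ j ∈ J, (∑ v ∈ s, p j v * B v) ^ 2 *
          (k ^ 4 * J.card * (DD Ae N L s B * DJ Ar N a j))
        = k ^ 2 * DD Ae N L s B *
          (k ^ 2 * J.card * ∑ j ∈ J, (∑ v ∈ s, p j v * B v) ^ 2 * DJ Ar N a j) := by
      rw [Finset.mul_sum, Finset.mul_sum]
      exact Finset.sum_congr rfl fun j _ => by ring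
    have e2 : ∑ j ∈ J, (∑ v ∈ s, p j v * B v) ^ 2 * (DD Ar N L s B * DJ Ae N a j)
        = DD Ar N L s B * ∑ j ∈ J, (∑ v ∈ s, p j v * B v) ^ 2 * DJ Ae N a j := by
      rw [Finset.mul_sum]
      exact Finset.sum_congr rfl fun j _ => by ring
    rw [e1, e2] at hstr
    have f1 : k ^ 2 * DD Ae N L s B * DD Ar N L s B
        ≤ k ^ 2 * DD Ae N L s B *
          (k ^ 2 * J.card * ∑ j ∈ J, (∑ v ∈ s, p j v * B v) ^ 2 * DJ Ar N a j) :=
      mul_le_mul_of_nonneg_left u1 (mul_nonneg (sq_nonneg _) hE)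
    have f2 : DD Ar N L s B * ∑ j ∈ J, (∑ v ∈ s, p j v * B v) ^ 2 * DJ Ae N a j
        ≤ DD Ar N L s B * (k ^ 2 * DD Ae N L s B) := mul_le_mul_of_nonneg_left u2 hR
    linarith
  · push Not at hz
    have hz' : ∀ j ∈ J, (∑ v ∈ s, p j v * B v) ^ 2 = 0 := fun j hj =>
      le_antisymm (hz j hj) (sq_nonneg _)
    have u0 : DD Ar N L s B ≤ 0 := by
      refine u1.trans (le_of_eq ?_)
      rw [Finset.sum_eq_zero fun j hj => by rw [hz' j hj, zero_mul], mul_zero]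
    have u3 : DD Ar N L s B = 0 := le_antisymm u0 hR
    obtain ⟨j, hj⟩ := hJ
    have := hcon j hj
    rw [u3, zero_mul] at this
    have h4 : 0 ≤ k ^ 4 * J.card * (DD Ae N L s B * DJ Ar N a j) :=
      mul_nonneg (mul_nonneg (Even.pow_nonneg (by decide) k) hc.le)
        (mul_nonneg hE (DJ_nonneg hNr a j))
    linarith

/-- Masses over the bulk cell of one class. -/
lemma cell_up {A : Finset κ} {N : κ → ℝ} {L : κ → ι → ℝ} {b : Finset ι} {B : ι → ℝ}
    {a : κ → γ → ℝ} {p : γ → ι → ℝ} {j : γ} {k : ℝ}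
    (hN : ∀ q ∈ A, 0 ≤ N q) (hB : ∀ v ∈ b, 0 ≤ B v) (hL0 : ∀ q ∈ A, ∀ v ∈ b, 0 ≤ L q v)
    (hL : ∀ q ∈ A, ∀ v ∈ b, L q v ≤ k * (a q j * p j v)) :
    DD A N L b B ≤ k ^ 2 * (∑ v ∈ b, p j v * B v) ^ 2 * DJ A N a j := by
  have h1 : ∀ q ∈ A, ∑ v ∈ b, L q v * B v ≤ k * (a q j * ∑ v ∈ b, p j v * B v) := by
    intro q hq
    rw [Finset.mul_sum, Finset.mul_sum]
    refine Finset.sum_le_sum fun v hv => ?_
    have := mul_le_mul_of_nonneg_right (hL q hq v hv) (hB v hv)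
    linarith
  calc DD A N L b B ≤ ∑ q ∈ A, N q * (k * (a q j * ∑ v ∈ b, p j v * B v)) ^ 2 :=
        Finset.sum_le_sum fun q hq => mul_le_mul_of_nonneg_left
          (pow_le_pow_left₀ (Finset.sum_nonneg fun v hv => mul_nonneg (hL0 q hq v hv) (hB v hv))
            (h1 q hq) 2) (hN q hq)
    _ = _ := by
        rw [DJ, Finset.mul_sum]
        exact Finset.sum_congr rfl fun q _ => by ring

lemma cell_low {A : Finset κ} {N : κ → ℝ} {L : κ → ι → ℝ} {b : Finset ι} {B : ι → ℝ}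
    {a : κ → γ → ℝ} {p : γ → ι → ℝ} {j : γ} {k : ℝ}
    (hN : ∀ q ∈ A, 0 ≤ N q) (hB : ∀ v ∈ b, 0 ≤ B v)
    (ha : ∀ q ∈ A, 0 ≤ a q j) (hp : ∀ v ∈ b, 0 ≤ p j v)
    (hL : ∀ q ∈ A, ∀ v ∈ b, a q j * p j v ≤ k * L q v) :
    (∑ v ∈ b, p j v * B v) ^ 2 * DJ A N a j ≤ k ^ 2 * DD A N L b B := by
  have h1 : ∀ q ∈ A, a q j * ∑ v ∈ b, p j v * B v ≤ k * ∑ v ∈ b, L q v * B v := by
    intro q hq
    rw [Finset.mul_sum, Finset.mul_sum]
    refine Finset.sum_le_sum fun v hv => ?_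
    have := mul_le_mul_of_nonneg_right (hL q hq v hv) (hB v hv)
    linarith
  have h0 : 0 ≤ ∑ v ∈ b, p j v * B v :=
    Finset.sum_nonneg fun v hv => mul_nonneg (hp v hv) (hB v hv)
  calc (∑ v ∈ b, p j v * B v) ^ 2 * DJ A N a j
      = ∑ q ∈ A, N q * (a q j * ∑ v ∈ b, p j v * B v) ^ 2 := by
        rw [DJ, Finset.mul_sum]
        exact Finset.sum_congr rfl fun q _ => by ring
    _ ≤ ∑ q ∈ A, N q * (k * ∑ v ∈ b, L q v * B v) ^ 2 :=
        Finset.sum_le_sum fun q hq => mul_le_mul_of_nonneg_left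
          (pow_le_pow_left₀ (mul_nonneg (ha q hq) h0) (h1 q hq) 2) (hN q hq)
    _ = _ := by
        rw [DD, Finset.mul_sum]
        exact Finset.sum_congr rfl fun q _ => by ring

/-- **The new weight of the place**, one class.  `X = M_tube * R_tube`, `T` = all pairs, in the
new environment; `q` = new weight of the place.  `q` contains the pairs which met in `ρ`, and all
the pairs through the tube except the early ones and a leak `ta * X`. -/
theorem place30 {Dr De X T q ta : ℝ} (hDr : 0 < Dr) (hDe : 0 ≤ De) (hX : 0 < X) (hT : 0 < T)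
    (hTX : T ≤ 4 * X) (hta : ta ≤ 1 / 4) (hq1 : Dr ≤ q * T) (hq2 : (1 - ta) * X - De ≤ q * T) :
    Dr ≤ 16 * q * (Dr + De) := by
  have hq0 : 0 < q := by
    by_contra hneg
    have : q * T ≤ 0 := mul_nonpos_of_nonpos_of_nonneg (not_lt.1 hneg) hT.le
    linarith
  by_cases hc : X ≤ 4 * De
  · have h1 : q * T ≤ q * (16 * De) := by
      refine mul_le_mul_of_nonneg_left ?_ hq0.le
      linarith
    have h2 : 0 ≤ 16 * q * Dr := by positivity
    linarith
  · have h1 : X / 2 ≤ q * T := by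
      have h3 : ta * X ≤ 1 / 4 * X := by gcongr
      have := not_le.1 hc
      linarith
    have h2 : q * T ≤ q * (4 * X) := mul_le_mul_of_nonneg_left hTX hq0.le
    have h3 : 1 / 8 ≤ q := by
      by_contra hneg
      have h4 : q * (4 * X) < 1 / 8 * (4 * X) := by
        have := not_le.1 hneg
        gcongr
      linarith
    have h4 : 1 / 8 * Dr ≤ q * Dr := mul_le_mul_of_nonneg_right h3 hDr.le
    have h5 : 0 ≤ q * De := mul_nonneg hq0.le hDe
    linarith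

/-- **M3, MOVE.**  There is a class `j`, depending on the old content `B`, such that for every new
content with a lucky tube at the bulk cell `b j` of this class (kernel times future `G` on `b j`)
the new weight `q` of the place is at least a constant times the share of `ρ` among the pairs
which met in `ρ` or earlier. -/
theorem move30 {Ar Ae : Finset κ} {N : κ → ℝ} {L : κ → ι → ℝ} {s : Finset ι} {B : ι → ℝ}
    {J : Finset γ} {a : κ → γ → ℝ} {p : γ → ι → ℝ} {b : γ → Finset ι} {k : ℝ}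
    (hJ : J.Nonempty) (hk : 1 ≤ k)
    (hNr : ∀ q ∈ Ar, 0 ≤ N q) (hNe : ∀ q ∈ Ae, 0 ≤ N q) (hB : ∀ v ∈ s, 0 ≤ B v)
    (hL0 : ∀ q, ∀ v, 0 ≤ L q v) (ha : ∀ q, ∀ j ∈ J, 0 ≤ a q j)
    (hp : ∀ j ∈ J, ∀ v, 0 ≤ p j v)
    (h1 : ∀ q ∈ Ar, ∀ v ∈ s, L q v ≤ k * ∑ j ∈ J, a q j * p j v)
    (h2 : ∀ q ∈ Ae, ∀ v ∈ s, ∑ j ∈ J, a q j * p j v ≤ k * L q v)
    (h3 : ∀ j ∈ J, ∀ q ∈ Ar, ∀ v ∈ b j, a q j * p j v ≤ k * L q v)
    (h4 : ∀ j ∈ J, ∀ q ∈ Ae, ∀ v ∈ b j, L q v ≤ k * (a q j * p j v)) :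
    ∃ j ∈ J, ∀ (G : ι → ℝ) (X T q ta : ℝ), (∀ v ∈ b j, 0 ≤ G v) →
      0 < ∑ v ∈ b j, p j v * G v → 0 < X → 0 < T → T ≤ 4 * X → ta ≤ 1 / 4 →
      DD Ar N L (b j) G ≤ q * T → (1 - ta) * X - DD Ae N L (b j) G ≤ q * T →
      DD Ar N L s B ≤ 16 * k ^ 8 * J.card * q * (DD Ar N L s B + DD Ae N L s B) := by
  obtain ⟨j, hj, hjc⟩ := classes30 hJ hNr hNe hB (fun q _ v _ => hL0 q v)
    (fun q _ j hj => ha q j hj) (fun j hj v _ => hp j hj v) h1 h2
  refine ⟨j, hj, fun G X T q ta hG hH hX hT hTX hta hq1 hq2 => ?_⟩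
  have hc : (1 : ℝ) ≤ J.card := by exact_mod_cast hJ.card_pos
  have k0 : 0 < k := by linarith
  have k8 : 1 ≤ k ^ 8 := one_le_pow₀ hk
  have hE : 0 ≤ DD Ae N L s B := DD_nonneg hNe L s B
  have hR : 0 ≤ DD Ar N L s B := DD_nonneg hNr L s B
  have hR' : 0 ≤ DD Ar N L (b j) G := DD_nonneg hNr L (b j) G
  have hE' : 0 ≤ DD Ae N L (b j) G := DD_nonneg hNe L (b j) G
  have hq0 : 0 ≤ q := by
    by_contra hneg
    have : q * T < 0 := mul_neg_of_neg_of_pos (not_le.1 hneg) hT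
    linarith
  rcases hR.eq_or_lt with h0 | h0
  · rw [← h0]
    positivity
  have cr := cell_low (b := b j) (B := G) (j := j) hNr hG (fun q _ => ha q j hj)
    (fun v _ => hp j hj v) (h3 j hj)
  have ce := cell_up (b := b j) (B := G) (j := j) hNe hG (fun q _ v _ => hL0 q v) (h4 j hj)
  set H := (∑ v ∈ b j, p j v * G v) ^ 2 with hHd
  have H0 : 0 < H := by positivity
  by_cases hcase : X ≤ 4 * DD Ae N L (b j) G
  · -- early pairs carry the tube
    have t1 : T ≤ 16 * DD Ae N L (b j) G := by linarith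
    have e0 : 0 < DD Ae N L (b j) G := by linarith
    have key : DD Ar N L s B * DD Ae N L (b j) G
        ≤ (16 * k ^ 8 * J.card * q * DD Ae N L s B) * DD Ae N L (b j) G := by
      calc DD Ar N L s B * DD Ae N L (b j) G
          ≤ DD Ar N L s B * (k ^ 2 * H * DJ Ae N a j) :=
            mul_le_mul_of_nonneg_left ce hR
        _ = k ^ 2 * H * (DD Ar N L s B * DJ Ae N a j) := by ring
        _ ≤ k ^ 2 * H * (k ^ 4 * J.card * (DD Ae N L s B * DJ Ar N a j)) :=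
            mul_le_mul_of_nonneg_left hjc (by positivity)
        _ = k ^ 6 * J.card * DD Ae N L s B * (H * DJ Ar N a j) := by ring
        _ ≤ k ^ 6 * J.card * DD Ae N L s B * (k ^ 2 * DD Ar N L (b j) G) :=
            mul_le_mul_of_nonneg_left cr (by positivity)
        _ ≤ k ^ 6 * J.card * DD Ae N L s B * (k ^ 2 * (q * T)) := by gcongr
        _ ≤ k ^ 6 * J.card * DD Ae N L s B * (k ^ 2 * (q * (16 * DD Ae N L (b j) G))) := by
            gcongr
        _ = _ := by ring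
    have h5 := le_of_mul_le_mul_right key e0
    have h6 : 0 ≤ 16 * k ^ 8 * J.card * q * DD Ar N L s B := by positivity
    linarith
  · have h5 : X / 2 ≤ q * T := by
      have h7 : ta * X ≤ 1 / 4 * X := by gcongr
      have := not_le.1 hcase
      linarith
    have h6 : q * T ≤ q * (4 * X) := mul_le_mul_of_nonneg_left hTX hq0
    have h7 : 1 / 8 ≤ q := by
      by_contra hneg
      have h8 : q * (4 * X) < 1 / 8 * (4 * X) := by
        have := not_le.1 hneg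
        gcongr
      linarith
    have h9 : (1 : ℝ) ≤ k ^ 8 * J.card := by
      calc (1 : ℝ) = 1 * 1 := (one_mul 1).symm
        _ ≤ k ^ 8 * J.card := mul_le_mul k8 hc zero_le_one (by positivity)
    have h10 : DD Ar N L s B ≤ DD Ar N L s B + DD Ae N L s B := by linarith
    calc DD Ar N L s B ≤ 1 * (DD Ar N L s B + DD Ae N L s B) := by rw [one_mul]; exact h10
      _ ≤ (16 * (k ^ 8 * J.card) * q) * (DD Ar N L s B + DD Ae N L s B) := by
          have h11 : (1 : ℝ) ≤ 16 * (k ^ 8 * J.card) * q := by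
            calc (1 : ℝ) ≤ 16 * 1 * (1 / 8) := by norm_num
              _ ≤ 16 * (k ^ 8 * J.card) * q := by gcongr
          exact mul_le_mul_of_nonneg_right h11 (by linarith)
      _ = _ := by ring

/-- **A lucky tube draws a group.**  `M z` = masses at the entrance of the window, `f z` = old
future mass, `t z` = future mass through the tube, `f' z` = new future mass.  In the window the
tube carries at least `lam * f`, outside of the tube the new mass is at most `Y * f`, and the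
group enters the window with the old probability at least `pi`. -/
theorem draw30 {s w : Finset ι} (hw : w ⊆ s) {M f t f' : ι → ℝ} {lam Y pi : ℝ}
    (hM : ∀ z ∈ s, 0 ≤ M z) (ht0 : ∀ z ∈ s, 0 ≤ t z)
    (hlam : 0 < lam) (hpi : 0 < pi) (hY : 0 ≤ Y)
    (ht : ∀ z ∈ w, lam * f z ≤ t z) (hf' : ∀ z ∈ s, f' z - t z ≤ Y * f z)
    (hmass : pi * ∑ z ∈ s, M z * f z ≤ ∑ z ∈ w, M z * f z) :
    ∑ z ∈ s, M z * (f' z - t z) ≤ Y / (lam * pi) * ∑ z ∈ s, M z * t z := by
  have h1 : ∑ z ∈ s, M z * (f' z - t z) ≤ Y * ∑ z ∈ s, M z * f z := by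
    rw [Finset.mul_sum]
    refine Finset.sum_le_sum fun z hz => ?_
    have := mul_le_mul_of_nonneg_left (hf' z hz) (hM z hz)
    linarith
  have h2 : lam * ∑ z ∈ w, M z * f z ≤ ∑ z ∈ s, M z * t z := by
    calc lam * ∑ z ∈ w, M z * f z ≤ ∑ z ∈ w, M z * t z := by
          rw [Finset.mul_sum]
          refine Finset.sum_le_sum fun z hz => ?_
          have := mul_le_mul_of_nonneg_left (ht z hz) (hM z (hw hz))
          linarith
      _ ≤ _ := Finset.sum_le_sum_of_subset_of_nonneg hw fun z hz _ =>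
          mul_nonneg (hM z hz) (ht0 z hz)
  have h3 : lam * (pi * ∑ z ∈ s, M z * f z) ≤ ∑ z ∈ s, M z * t z :=
    (mul_le_mul_of_nonneg_left hmass hlam.le).trans h2
  calc ∑ z ∈ s, M z * (f' z - t z) ≤ Y * ∑ z ∈ s, M z * f z := h1
    _ = Y / (lam * pi) * (lam * (pi * ∑ z ∈ s, M z * f z)) := by field_simp
    _ ≤ _ := mul_le_mul_of_nonneg_left h3 (by positivity)

/-- Both groups are drawn: all pairs are at most four times the pairs in the tube. -/
theorem draw_pair30 {m r tm tr e : ℝ} (he : e ≤ 1) (hr0 : 0 ≤ tr + r)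
    (htm : 0 ≤ tm) (htr : 0 ≤ tr) (h1 : m ≤ e * tm) (h2 : r ≤ e * tr) :
    (tm + m) * (tr + r) ≤ 4 * (tm * tr) := by
  have a1 : m ≤ tm := h1.trans (mul_le_of_le_one_left htm he)
  have a2 : r ≤ tr := h2.trans (mul_le_of_le_one_left htr he)
  calc (tm + m) * (tr + r) ≤ (2 * tm) * (2 * tr) :=
        mul_le_mul (by linarith) (by linarith) hr0 (by linarith)
    _ = _ := by ring

/-- **Late pairs do not survive a lucky tube.**  `P` = the probability (environment fixed) that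
the pair meets after the end of the tube or never; if a replica misses the tube with probability
at most `e` and two replicas in the tube fail to meet with probability at most `ta`, then
`P ≤ 2 e + ta`. -/
theorem late30 {P pm pr lk e ta : ℝ} (h : P ≤ pm + pr + lk) (h1 : pm ≤ e) (h2 : pr ≤ e)
    (h3 : lk ≤ ta) : P ≤ 2 * e + ta := by linarith

end Pool.Agent.W_7d29a1_C1.M30
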