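import Pool.Agent.W_7d29a1_C1.ShDef21
import Pool.Agent.W_7d29a1_C1.VIn31
import Pool.Agent.W_7d29a1_C1.FreD83
import Pool.Agent.W_7d29a1_C1.SetB10
import Pool.Agent.W_7d29a1_C1.CtxM68
import Pool.Agent.W_7d29a1_C1.RowW83

/-!
MP_7d29a1_pr, [C1] SHELL, THE FRESH BALL: MEASURABILITY AND ROWS OF `So`, `V` (helper47 86642 (6), L2). (helper74)

In a parameter: `mp_seamI`, `mp_seamIn` (SeamIn), `mp_jph`, `mp_dp31`, `mp_dw31`. Rows: `fw_rows` (rows `< i`), `bw_rows` (rows `[k, k + j)`),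
`bq_rows` (the profile `bw i / wt i`: rows `(i, i + j)`), `on_pre` (an event of functions of the sites of `B` is an event of `B`).
Ready: `SeE` = the seam event of a context, `DwE` = `∃ yl yr yp, DW31` of a context: `meas_SeE`, `on_SeE`, `meas_DwE`, `on_DwE`, `on_RowE`.
-/

set_option autoImplicit false
set_option linter.unusedSectionVars false

namespace Pool.Agent.W_7d29a1_C1.Ms74

open Finset MeasureTheory
open Pool.Agent.W_7d29a1_F
open Pool.Agent.W_7d29a1_C1 (On20)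
open Pool.Agent.W_7d29a1_C1.K91 (wt wt_pos measurable_wt)
open Pool.Agent.W_7d29a1_C1.K91P
open Pool.Agent.W_7d29a1_C1.H60
open Pool.Agent.W_7d29a1_C1.S83 (SeamI jph RowG)
open Pool.Agent.W_7d29a1_C1.Sh21 (SeamIn)
open Pool.Agent.W_7d29a1_C1.D31
open Pool.Agent.W_7d29a1_C1.T10 (rout mem_rout)

noncomputable section

/-! ### Measurability in a parameter -/

section par

variable {α : Type*} [MeasurableSpace α]

theorem mp_sum {ι : Type*} (S : Finset ι) {f : α → ι → ℝ} (h : ∀ i, Measurable fun x => f x i) : Measurable fun x => ∑ i ∈ S, f x i :=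
  Finset.measurable_fun_sum _ fun i _ => h i

theorem mp_jph {U : Finset ℤ} {kap : ℤ → ℤ → ℝ} {G : α → ℤ → ℝ} {G₀ : α → ℝ} (hG : ∀ z, Measurable fun x => G x z)
    (h0 : Measurable G₀) (y : ℤ) : Measurable fun x => jph U kap (G x) (G₀ x) y := by
  unfold jph
  exact (mp_sum U (f := fun x z => kap y z * G x z) fun z => measurable_const.mul (hG z)).div h0

theorem mp_seamI {S β₁ β₂ : Finset ℤ} {A B ph : α → ℤ → ℝ} {e1 e2 : ℝ} (hA : ∀ y, Measurable fun x => A x y)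
    (hB : ∀ y, Measurable fun x => B x y) (hp : ∀ y, Measurable fun x => ph x y) :
    MeasurableSet {x | SeamI S β₁ β₂ (A x) (B x) (ph x) e1 e2} := by
  have e : {x | SeamI S β₁ β₂ (A x) (B x) (ph x) e1 e2} =
      {x | ∑ y ∈ S \ (β₁ ∪ β₂), A x y * ph x y ≤ e1 * ∑ y ∈ β₁ ∪ β₂, A x y} ∩
      {x | ∑ y ∈ S \ (β₁ ∪ β₂), B x y * ph x y ≤ e1 * ∑ y ∈ β₁ ∪ β₂, B x y} ∩
      {x | ∑ y ∈ β₂, A x y ≤ e2 * ∑ y ∈ β₁, A x y} ∩ {x | ∑ y ∈ β₁, B x y ≤ e2 * ∑ y ∈ β₂, B x y} :=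
    Set.ext fun x => ⟨fun h => ⟨⟨⟨h.offa, h.offb⟩, h.ta⟩, h.tb⟩, fun h => ⟨h.1.1.1, h.1.1.2, h.1.2, h.2⟩⟩
  rw [e]
  refine (((measurableSet_le ?_ ?_).inter (measurableSet_le ?_ ?_)).inter (measurableSet_le ?_ ?_)).inter (measurableSet_le ?_ ?_)
  · exact mp_sum _ (f := fun x y => A x y * ph x y) fun y => (hA y).mul (hp y)
  · exact measurable_const.mul (mp_sum _ hA)
  · exact mp_sum _ (f := fun x y => B x y * ph x y) fun y => (hB y).mul (hp y)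
  · exact measurable_const.mul (mp_sum _ hB)
  · exact mp_sum _ hA
  · exact measurable_const.mul (mp_sum _ hA)
  · exact mp_sum _ hB
  · exact measurable_const.mul (mp_sum _ hB)

theorem mp_seamIn {lo h a1 b1 a2 b2 : ℤ} {A B ph : α → ℤ → ℝ} {e1 e2 : ℝ} (hA : ∀ y, Measurable fun x => A x y)
    (hB : ∀ y, Measurable fun x => B x y) (hp : ∀ y, Measurable fun x => ph x y) :
    MeasurableSet {x | SeamIn lo h (A x) (B x) a1 b1 a2 b2 (ph x) e1 e2} := by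
  have e : {x | SeamIn lo h (A x) (B x) a1 b1 a2 b2 (ph x) e1 e2} =
      {x | SeamI (Icc lo h) (Icc a1 b1) (Icc a2 b2) (A x) (B x) (ph x) e1 e2} ∩ {x | 0 < ∑ y ∈ Icc a2 b2, A x y} ∩
        {x | 0 < ∑ y ∈ Icc a1 b1, B x y} :=
    Set.ext fun x => ⟨fun h => ⟨⟨h.I, h.p2⟩, h.p1⟩, fun h => ⟨h.1.1, h.1.2, h.2⟩⟩
  rw [e]
  exact ((mp_seamI hA hB hp).inter (measurableSet_lt measurable_const (mp_sum _ hA))).inter
    (measurableSet_lt measurable_const (mp_sum _ hB))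

theorem mp_tame {L : α → ℤ → ℝ} (hL : ∀ y, Measurable fun x => L x y) (cen W q : ℝ) :
    MeasurableSet {x | ∀ y y' : ℤ, |(y : ℝ) - cen| ≤ W → |(y' : ℝ) - cen| ≤ W → L x y ≤ Real.exp q * L x y'} := by
  have e : {x | ∀ y y' : ℤ, |(y : ℝ) - cen| ≤ W → |(y' : ℝ) - cen| ≤ W → L x y ≤ Real.exp q * L x y'} =
      ⋂ y : ℤ, ⋂ y' : ℤ, ⋂ (_ : |(y : ℝ) - cen| ≤ W), ⋂ (_ : |(y' : ℝ) - cen| ≤ W), {x | L x y ≤ Real.exp q * L x y'} := by
    ext x
    simp only [Set.mem_iInter]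
    exact Iff.rfl
  rw [e]
  exact MeasurableSet.iInter fun y => MeasurableSet.iInter fun y' => MeasurableSet.iInter fun _ => MeasurableSet.iInter fun _ =>
    measurableSet_le (hL y) (measurable_const.mul (hL y'))

theorem mp_fsum {I : Finset ℤ} {cen cen' W : ℝ} {kap : ℤ → ℤ → ℝ} {L F : α → ℤ → ℝ} (hL : ∀ y, Measurable fun x => L x y)
    (hF : ∀ y, Measurable fun x => F x y) : Measurable fun x => fsum I cen cen' W kap (L x) (F x) := by
  unfold fsum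
  refine mp_sum I (f := fun x y => ∑ z ∈ I, if |(y : ℝ) - cen| ≤ W ∧ |(z : ℝ) - cen'| ≤ W then 0 else L x y * kap y z * F x z) fun y => ?_
  refine mp_sum I (f := fun x z => if |(y : ℝ) - cen| ≤ W ∧ |(z : ℝ) - cen'| ≤ W then 0 else L x y * kap y z * F x z) fun z => ?_
  by_cases h : |(y : ℝ) - cen| ≤ W ∧ |(z : ℝ) - cen'| ≤ W
  · simp only [h, and_self, if_true]
    exact measurable_const
  · simp only [h, if_false]
    exact ((hL y).mul measurable_const).mul (hF z)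

theorem mp_dp31 {I : Finset ℤ} {cen cen' W : ℝ} {kap : ℤ → ℤ → ℝ} {yl yr yp : ℤ} {g q gf : ℝ} {L R F : α → ℤ → ℝ}
    (hL : ∀ y, Measurable fun x => L x y) (hR : ∀ y, Measurable fun x => R x y) (hF : ∀ y, Measurable fun x => F x y) :
    MeasurableSet {x | DP31 I cen cen' W kap yl yr yp g q gf (L x) (R x) (F x)} := by
  have lg : ∀ {f : α → ℝ}, Measurable f → Measurable fun x => Real.log (f x) := fun hf => Real.measurable_log.comp hf
  have e : {x | DP31 I cen cen' W kap yl yr yp g q gf (L x) (R x) (F x)} =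
      {x | 0 < L x yl} ∩ ({x | 0 < L x yr} ∩ ({x | 0 < R x yl} ∩ ({x | 0 < R x yr} ∩ ({x | 0 < F x yp} ∩
      ({x | g ≤ Real.log (L x yl) + Real.log (R x yr) - Real.log (L x yr) - Real.log (R x yl)} ∩
      ({x | ∀ y y' : ℤ, |(y : ℝ) - cen| ≤ W → |(y' : ℝ) - cen| ≤ W → L x y ≤ Real.exp q * L x y'} ∩
      ({x | ∀ y y' : ℤ, |(y : ℝ) - cen| ≤ W → |(y' : ℝ) - cen| ≤ W → R x y ≤ Real.exp q * R x y'} ∩
      ({x | ∀ y y' : ℤ, |(y : ℝ) - cen'| ≤ W → |(y' : ℝ) - cen'| ≤ W → F x y ≤ Real.exp q * F x y'} ∩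
      ({x | fsum I cen cen' W kap (L x) (F x) ≤ Real.exp (-gf) * (L x yl * F x yp)} ∩
      {x | fsum I cen cen' W kap (R x) (F x) ≤ Real.exp (-gf) * (R x yr * F x yp)}))))))))) :=
    Set.ext fun x => ⟨fun h => ⟨h.Ll, h.Lr, h.Rl, h.Rr, h.Fp, h.win, h.tL, h.tR, h.tF, h.farL, h.farR⟩,
      fun ⟨h1, h2, h3, h4, h5, h6, h7, h8, h9, h10, h11⟩ => ⟨h1, h2, h3, h4, h5, h6, h7, h8, h9, h10, h11⟩⟩
  rw [e]
  exact (measurableSet_lt measurable_const (hL yl)).inter ((measurableSet_lt measurable_const (hL yr)).inter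
    ((measurableSet_lt measurable_const (hR yl)).inter ((measurableSet_lt measurable_const (hR yr)).inter
    ((measurableSet_lt measurable_const (hF yp)).inter
    ((measurableSet_le measurable_const ((((lg (hL yl)).add (lg (hR yr))).sub (lg (hL yr))).sub (lg (hR yl)))).inter
    ((mp_tame hL cen W q).inter ((mp_tame hR cen W q).inter ((mp_tame hF cen' W q).inter
    ((measurableSet_le (mp_fsum hL hF) (measurable_const.mul ((hL yl).mul (hF yp)))).inter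
    (measurableSet_le (mp_fsum hR hF) (measurable_const.mul ((hR yr).mul (hF yp)))))))))))))

theorem mp_dw31 {I : Finset ℤ} {cen cen' W₁ W₁' W₂ : ℝ} {kap : ℤ → ℤ → ℝ} {yl yr yp : ℤ} {g q₁ q₂ gf : ℝ} {L R F : α → ℤ → ℝ}
    (hL : ∀ y, Measurable fun x => L x y) (hR : ∀ y, Measurable fun x => R x y) (hF : ∀ y, Measurable fun x => F x y) :
    MeasurableSet {x | DW31 I cen cen' W₁ W₁' W₂ kap yl yr yp g q₁ q₂ gf (L x) (R x) (F x)} := by
  by_cases hy : |(yl : ℝ) - cen| ≤ W₁ ∧ |(yr : ℝ) - cen| ≤ W₁ ∧ |(yp : ℝ) - cen'| ≤ W₁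
  · have e : {x | DW31 I cen cen' W₁ W₁' W₂ kap yl yr yp g q₁ q₂ gf (L x) (R x) (F x)} =
        {x | DP31 I cen cen' W₂ kap yl yr yp g q₂ gf (L x) (R x) (F x)} ∩
        ({x | ∀ y y' : ℤ, |(y : ℝ) - cen| ≤ W₁' → |(y' : ℝ) - cen| ≤ W₁' → L x y ≤ Real.exp q₁ * L x y'} ∩
        {x | ∀ y y' : ℤ, |(y : ℝ) - cen| ≤ W₁' → |(y' : ℝ) - cen| ≤ W₁' → R x y ≤ Real.exp q₁ * R x y'}) :=
      Set.ext fun x => ⟨fun h => ⟨h.dp, h.t1L, h.t1R⟩, fun h => ⟨h.1, hy.1, hy.2.1, hy.2.2, h.2.1, h.2.2⟩⟩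
    rw [e]
    exact (mp_dp31 hL hR hF).inter ((mp_tame hL cen W₁' q₁).inter (mp_tame hR cen W₁' q₁))
  · have e : {x | DW31 I cen cen' W₁ W₁' W₂ kap yl yr yp g q₁ q₂ gf (L x) (R x) (F x)} = ∅ :=
      Set.eq_empty_of_forall_notMem fun x h => hy ⟨h.yl1, h.yr1, h.yp1⟩
    rw [e]
    exact MeasurableSet.empty

end par

/-! ### Rows -/

variable {η η' : Env} {p : ℕ → ℝ} {B : Set Pt}

theorem wt_row {k : ℕ} {y : ℤ} (h : k ≠ 0 → η ((k : ℤ), y) = η' ((k : ℤ), y)) : wt η k y = wt η' k y := by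
  unfold wt
  by_cases hk : k = 0
  · rw [if_pos hk, if_pos hk]
  · rw [if_neg hk, if_neg hk, h hk]

/-- The forward masses at the row `i` read the rows `< i`. -/
theorem fw_rows {i : ℕ} (h : ∀ q : Pt, q.1 < i → η q = η' q) (l : ℤ → ℝ) : fw (wt η) p l i = fw (wt η') p l i :=
  funext fun y => fw_congr i (fun j hj z => wt_row fun _ => h _ (by show ((j : ℕ) : ℤ) < i; exact_mod_cast hj)) y

/-- The backward masses read the rows `[k, k + j)`. -/
theorem bw_rows : ∀ (j k : ℕ), (∀ q : Pt, (k : ℤ) ≤ q.1 → q.1 < (k : ℤ) + j → η q = η' q) → bw (wt η) p k j = bw (wt η') p k j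
  | 0, k, _ => funext fun y => by rw [bw_zero, bw_zero]
  | j + 1, k, h => funext fun y => by
    have ih := bw_rows j (k + 1) fun q h1 h2 => h q (by push_cast at h1; omega) (by push_cast at h2 ⊢; omega)
    rw [bw_succ, bw_succ, ih, wt_row (η := η) (η' := η') fun _ => h _ le_rfl (by push_cast; omega)]

/-- The profile `bw i / wt i` reads the rows `(i, i + j)`. -/
theorem bq_rows {i j : ℕ} (h : ∀ q : Pt, (i : ℤ) < q.1 → q.1 < (i : ℤ) + j → η q = η' q) (y : ℤ) :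
    bw (wt η) p i j y / wt η i y = bw (wt η') p i j y / wt η' i y ∨ j = 0 := by
  cases j with
  | zero => exact Or.inr rfl
  | succ j =>
    left
    have ih := bw_rows (p := p) (η := η) (η' := η') j (i + 1) fun q h1 h2 => h q (by push_cast at h1; omega) (by push_cast at h2 ⊢; omega)
    have h1 := (wt_pos η i y).ne'
    have h2 := (wt_pos η' i y).ne'
    rw [bw_succ, bw_succ, ih, mul_div_cancel_left₀ _ h1, mul_div_cancel_left₀ _ h2]

theorem bq_rows' {i j : ℕ} (hj : 0 < j) (h : ∀ q : Pt, (i : ℤ) < q.1 → η q = η' q) :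
    (fun y => bw (wt η) p i j y / wt η i y) = fun y => bw (wt η') p i j y / wt η' i y :=
  funext fun y => (bq_rows (p := p) (j := j) (fun q h1 _ => h q h1) y).resolve_right hj.ne'

/-- An event of one function which reads the sites of `B` only. -/
theorem on_pre {β : Type*} {f : Env → β} {P : β → Prop} (h : ∀ η η' : Env, (∀ q ∈ B, η q = η' q) → f η = f η') :
    On20 B {η | P (f η)} := fun η η' he => by
  show P (f η) ↔ P (f η')
  rw [h η η' he]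

theorem on_union {ι : Type*} {E : ι → Set Env} (h : ∀ i, On20 B (E i)) : On20 B (⋃ i, E i) := fun η η' he => by
  simp only [Set.mem_iUnion]
  exact exists_congr fun i => h i η η' he

theorem on_and {E F : Set Env} (h : On20 B E) (h' : On20 B F) : On20 B (E ∩ F) := fun η η' he => and_congr (h η η' he) (h' η η' he)

theorem on_const (P : Prop) : On20 B {_η : Env | P} := fun _ _ _ => Iff.rfl

/-! ### The events of a context -/

variable (Γ : Cx)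

/-- **The seam event** (`So`): rows `< i` and rows `≥ k`. -/
def SeE (i k : ℕ) (lo h a1 b1 a2 b2 : ℤ) (I : Finset ℤ) (kap : ℤ → ℤ → ℝ) (G₀ : Env → ℝ) (e1 e2 : ℝ) : Set Env :=
  {η | SeamIn lo h (fw (wt η) Γ.p Cx.l i) (fw (wt η) Γ.p Γ.r i) a1 b1 a2 b2 (jph I kap (bw (wt η) Γ.p k (Γ.N - k)) (G₀ η)) e1 e2}

/-- **The data of the block** (`V`), edge rows `i < k`. -/
def DwE (i k : ℕ) (I : Finset ℤ) (cen cen' W₁ W₁' W₂ : ℝ) (kap : ℤ → ℤ → ℝ) (g q₁ q₂ gf : ℝ) : Set Env :=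
  {η | ∃ yl yr yp : ℤ, DW31 I cen cen' W₁ W₁' W₂ kap yl yr yp g q₁ q₂ gf (fw (wt η) Γ.p Cx.l i) (fw (wt η) Γ.p Γ.r i)
    (fun z => bw (wt η) Γ.p k (Γ.N - k) z / wt η k z)}

variable {Γ} {i k : ℕ} {lo h a1 b1 a2 b2 : ℤ} {I : Finset ℤ} {kap : ℤ → ℤ → ℝ} {G₀ : Env → ℝ} {e1 e2 : ℝ}
  {cen cen' W₁ W₁' W₂ g q₁ q₂ gf : ℝ} {lo' hi' : ℤ}

theorem meas_SeE (h0 : Measurable G₀) : MeasurableSet (SeE Γ i k lo h a1 b1 a2 b2 I kap G₀ e1 e2) :=
  mp_seamIn (A := fun η => fw (wt η) Γ.p Cx.l i) (B := fun η => fw (wt η) Γ.p Γ.r i)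
    (ph := fun η => jph I kap (bw (wt η) Γ.p k (Γ.N - k)) (G₀ η))
    (fun y => pm_fw (W := wt) (p := Γ.p) (l := fun _ => Cx.l) measurable_wt (fun _ => measurable_const) i y)
    (fun y => pm_fw (W := wt) (p := Γ.p) (l := fun _ => Γ.r) measurable_wt (fun _ => measurable_const) i y)
    (fun y => mp_jph (G := fun η => bw (wt η) Γ.p k (Γ.N - k)) (fun _ => pm_bw (W := wt) (p := Γ.p) measurable_wt _ _ _) h0 y)

/-- The seam event reads the rows `< i`, `≥ k` : `i ≤ lo' + 1`, `hi' < k`. -/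
theorem on_SeE (h1 : (i : ℤ) ≤ lo' + 1) (h2 : hi' < (k : ℤ)) (h0 : ∀ η η' : Env, (∀ q ∈ rout lo' hi', η q = η' q) → G₀ η = G₀ η') :
    On20 (rout lo' hi') (SeE Γ i k lo h a1 b1 a2 b2 I kap G₀ e1 e2) := by
  intro η η' he
  have f1 : ∀ q : Pt, q.1 < i → η q = η' q := fun q hq => he q (mem_rout.2 (Or.inl (by omega)))
  have f2 : ∀ q : Pt, (k : ℤ) ≤ q.1 → η q = η' q := fun q hq => he q (mem_rout.2 (Or.inr (by omega)))
  show SeamIn lo h (fw (wt η) Γ.p Cx.l i) (fw (wt η) Γ.p Γ.r i) a1 b1 a2 b2 (jph I kap (bw (wt η) Γ.p k (Γ.N - k)) (G₀ η)) e1 e2 ↔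
    SeamIn lo h (fw (wt η') Γ.p Cx.l i) (fw (wt η') Γ.p Γ.r i) a1 b1 a2 b2 (jph I kap (bw (wt η') Γ.p k (Γ.N - k)) (G₀ η')) e1 e2
  rw [fw_rows f1 Cx.l, fw_rows f1 Γ.r, bw_rows (Γ.N - k) k fun q hq _ => f2 q hq, h0 η η' he]

theorem meas_DwE : MeasurableSet (DwE Γ i k I cen cen' W₁ W₁' W₂ kap g q₁ q₂ gf) := by
  have e : DwE Γ i k I cen cen' W₁ W₁' W₂ kap g q₁ q₂ gf = ⋃ yl : ℤ, ⋃ yr : ℤ, ⋃ yp : ℤ,
      {η | DW31 I cen cen' W₁ W₁' W₂ kap yl yr yp g q₁ q₂ gf (fw (wt η) Γ.p Cx.l i) (fw (wt η) Γ.p Γ.r i)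
        (fun z => bw (wt η) Γ.p k (Γ.N - k) z / wt η k z)} := by
    ext η
    simp only [Set.mem_iUnion]
    exact Iff.rfl
  rw [e]
  refine MeasurableSet.iUnion fun yl => MeasurableSet.iUnion fun yr => MeasurableSet.iUnion fun yp => ?_
  exact mp_dw31 (L := fun η => fw (wt η) Γ.p Cx.l i) (R := fun η => fw (wt η) Γ.p Γ.r i)
    (F := fun η z => bw (wt η) Γ.p k (Γ.N - k) z / wt η k z)
    (fun y => pm_fw (W := wt) (p := Γ.p) (l := fun _ => Cx.l) measurable_wt (fun _ => measurable_const) i y)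
    (fun y => pm_fw (W := wt) (p := Γ.p) (l := fun _ => Γ.r) measurable_wt (fun _ => measurable_const) i y)
    (fun z => (pm_bw (W := wt) (p := Γ.p) measurable_wt _ _ _).div (measurable_wt k z))

/-- The event of the block reads the rows `< i`, `> k` : `i ≤ lo' + 1`, `hi' ≤ k`. -/
theorem on_DwE (h1 : (i : ℤ) ≤ lo' + 1) (h2 : hi' ≤ (k : ℤ)) (hN : k < Γ.N) :
    On20 (rout lo' hi') (DwE Γ i k I cen cen' W₁ W₁' W₂ kap g q₁ q₂ gf) := by
  intro η η' he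
  have f1 : ∀ q : Pt, q.1 < i → η q = η' q := fun q hq => he q (mem_rout.2 (Or.inl (by omega)))
  have f2 : ∀ q : Pt, (k : ℤ) < q.1 → η q = η' q := fun q hq => he q (mem_rout.2 (Or.inr (by omega)))
  show (∃ yl yr yp : ℤ, DW31 I cen cen' W₁ W₁' W₂ kap yl yr yp g q₁ q₂ gf (fw (wt η) Γ.p Cx.l i) (fw (wt η) Γ.p Γ.r i)
    (fun z => bw (wt η) Γ.p k (Γ.N - k) z / wt η k z)) ↔ ∃ yl yr yp : ℤ, DW31 I cen cen' W₁ W₁' W₂ kap yl yr yp g q₁ q₂ gf
    (fw (wt η') Γ.p Cx.l i) (fw (wt η') Γ.p Γ.r i) (fun z => bw (wt η') Γ.p k (Γ.N - k) z / wt η' k z)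
  rw [fw_rows f1 Cx.l, fw_rows f1 Γ.r, bq_rows' (p := Γ.p) (i := k) (j := Γ.N - k) (by omega) f2]

theorem on_RowE {r z : ℤ} {R t : ℝ} (h : r ≤ lo' ∨ hi' < r) : On20 (rout lo' hi') (RowG r z R t) := by
  intro η η' he
  have f : ∀ x : ℤ, η (r, x) = η' (r, x) := fun x => he _ (mem_rout.2 h)
  show (∀ x : ℤ, |η (r, x)| ≤ _) ↔ ∀ x : ℤ, |η' (r, x)| ≤ _
  simp only [f]

end

end Pool.Agent.W_7d29a1_C1.Ms74
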