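import Pool.Agent.W_7d29a1_C1.PhiA74

/-!
Both halves (MP_7d29a1_pr), attractor route [C1]: THE FIRST MEETING OF THE INNER SYSTEM IS IN THE MIDDLE ROWS. (helper74)

* `nm_ge` : two groups which are separated by a column at a row have not met;
* `nm_le` : two groups which cross a slab of cross ratio `1 + δ` have met;
* `mt74` : both together for the inner system, `1 - (δ + 12 ε) ≤ Mtp`.
-/

set_option autoImplicit false
set_option linter.unusedSectionVars false

namespace Pool.Agent.W_7d29a1_C1.H1c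

open Finset
open Pool.Agent.W_7d29a1_C1.Gini76 (P2 NI NIk push binet P2_mono P2_nonneg)
open Pool.Agent.W_7d29a1_C1.CR76 (CR TP)
open Pool.Agent.W_7d29a1_C1.K91 (shw Box Grp ps2)
open Pool.Agent.W_7d29a1_C1.L91 (mw)
open Pool.Agent.W_7d29a1_C1.K91P (fw bw shp bw_pos fw_nonneg dp nm)
open Pool.Agent.W_7d29a1_C1.R26P
open Pool.Agent.W_7d29a1_C1.F74

noncomputable section

variable {w : ℕ → ℤ → ℝ} {p : ℕ → ℝ} {l r : ℤ → ℝ} {X lo hi : ℤ} {N : ℕ}

theorem nn_ite {c : Prop} [Decidable c] {x : ℝ} (h : 0 ≤ x) : 0 ≤ if c then x else 0 := by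
  by_cases hc : c
  · rw [if_pos hc]
    exact h
  · rw [if_neg hc]

theorem P2_le_sum {S : Finset ℤ} {f g : ℤ → ℤ → ℝ} (h : ∀ y ∈ S, ∀ y' ∈ S, y < y' → f y y' ≤ g y y')
    (g0 : ∀ y ∈ S, ∀ y' ∈ S, 0 ≤ g y y') : P2 S f ≤ ∑ y ∈ S, ∑ y' ∈ S, g y y' := by
  unfold P2
  refine sum_le_sum fun y hy => sum_le_sum fun y' hy' => ?_
  split_ifs with hlt
  · exact h y hy y' hy' hlt
  · exact g0 y hy y' hy'

theorem P2_swap {S : Finset ℤ} (f : ℤ → ℤ → ℤ → ℤ → ℝ) :
    P2 S (fun y y' => P2 S (fun x x' => f x x' y y')) = P2 S (fun x x' => P2 S (fun y y' => f x x' y y')) := by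
  have e : ∀ g : ℤ → ℤ → ℤ → ℤ → ℝ, P2 S (fun y y' => P2 S (fun x x' => g x x' y y')) =
      ∑ y ∈ S, ∑ y' ∈ S, ∑ x ∈ S, ∑ x' ∈ S, if y < y' ∧ x < x' then g x x' y y' else 0 := by
    intro g
    unfold P2
    refine sum_congr rfl fun y _ => sum_congr rfl fun y' _ => ?_
    by_cases h : y < y'
    · rw [if_pos h]
      refine sum_congr rfl fun x _ => sum_congr rfl fun x' _ => ?_
      by_cases h2 : x < x'
      · rw [if_pos h2, if_pos ⟨h, h2⟩]
      · rw [if_neg h2, if_neg fun c => h2 c.2]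
    · rw [if_neg h]
      symm
      refine sum_eq_zero fun x _ => sum_eq_zero fun x' _ => ?_
      rw [if_neg fun c => h c.1]
  rw [e f, e fun y y' x x' => f x x' y y']
  have c1 : ∀ g : ℤ → ℤ → ℤ → ℤ → ℝ, ∑ y ∈ S, ∑ y' ∈ S, ∑ x ∈ S, ∑ x' ∈ S, g x x' y y' =
      ∑ x ∈ S, ∑ x' ∈ S, ∑ y ∈ S, ∑ y' ∈ S, g x x' y y' := by
    intro g
    calc ∑ y ∈ S, ∑ y' ∈ S, ∑ x ∈ S, ∑ x' ∈ S, g x x' y y'
        = ∑ y ∈ S, ∑ x ∈ S, ∑ y' ∈ S, ∑ x' ∈ S, g x x' y y' := sum_congr rfl fun y _ => sum_comm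
      _ = ∑ x ∈ S, ∑ y ∈ S, ∑ y' ∈ S, ∑ x' ∈ S, g x x' y y' := sum_comm
      _ = ∑ x ∈ S, ∑ y ∈ S, ∑ x' ∈ S, ∑ y' ∈ S, g x x' y y' :=
          sum_congr rfl fun x _ => sum_congr rfl fun y _ => sum_comm
      _ = ∑ x ∈ S, ∑ x' ∈ S, ∑ y ∈ S, ∑ y' ∈ S, g x x' y y' := sum_congr rfl fun x _ => sum_comm
  rw [c1 fun x x' y y' => if y < y' ∧ x < x' then f x x' y y' else 0]
  refine sum_congr rfl fun x _ => sum_congr rfl fun x' _ => sum_congr rfl fun y _ => sum_congr rfl fun y' _ => ?_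
  by_cases h : y < y' ∧ x < x'
  · rw [if_pos h, if_pos ⟨h.2, h.1⟩]
  · rw [if_neg h, if_neg fun c => h ⟨c.2, c.1⟩]

theorem nm_P2 (k : ℕ) : nm w p l r lo hi N k =
    P2 (Icc lo hi) (fun x y => NI (fw w p l k) (fw w p r k) x y * (bw w p k (N - k) x * bw w p k (N - k) y)) := by
  unfold nm ps2 P2
  refine sum_congr rfl fun x _ => sum_congr rfl fun y _ => ?_
  show dp w p l r k x y * (if x < y then bw w p k (N - k) x * bw w p k (N - k) y else 0) = _
  by_cases h : x < y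
  · rw [if_pos h, if_pos h]
    rfl
  · rw [if_neg h, if_neg h, mul_zero]

/-! ### Separated groups have not met -/

/-- **Separated at a row.** -/
theorem nm_ge (hw : ∀ k y, 0 < w k y) (hp : ∀ k, 0 < p k) (h : Grp l r X) (k : ℕ) (s : ℤ) {ZL ZR e1 e2 : ℝ}
    (hL : ∑ x ∈ Icc lo hi, fw w p l k x * bw w p k (N - k) x = ZL)
    (hR : ∑ x ∈ Icc lo hi, fw w p r k x * bw w p k (N - k) x = ZR)
    (oL : ∑ x ∈ (Icc lo hi).filter (s < ·), fw w p l k x * bw w p k (N - k) x ≤ e1)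
    (oR : ∑ x ∈ (Icc lo hi).filter (· < s + 1), fw w p r k x * bw w p k (N - k) x ≤ e2) :
    ZL * ZR - 2 * (e1 * ZR + ZL * e2) ≤ nm w p l r lo hi N k := by
  set u : ℤ → ℝ := fun x => fw w p l k x * bw w p k (N - k) x with hu
  set v : ℤ → ℝ := fun x => fw w p r k x * bw w p k (N - k) x with hv
  have u0 : ∀ x, 0 ≤ u x := fun x => mul_nonneg (fw_nonneg hw hp h.l0 k x) (bw_pos hw hp _ _ _).le
  have v0 : ∀ x, 0 ≤ v x := fun x => mul_nonneg (fw_nonneg hw hp h.r0 k x) (bw_pos hw hp _ _ _).le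
  have ZL0 : 0 ≤ ZL := by rw [← hL]; exact sum_nonneg fun x _ => u0 x
  have ZR0 : 0 ≤ ZR := by rw [← hR]; exact sum_nonneg fun x _ => v0 x
  -- the bad pairs
  have T : ∑ x ∈ Icc lo hi, ∑ y ∈ Icc lo hi, (if y ≤ x then u x * v y else 0) ≤ e1 * ZR + ZL * e2 := by
    have s1 : ∑ x ∈ Icc lo hi, ∑ y ∈ Icc lo hi, (if y ≤ x then u x * v y else 0) ≤
        ∑ x ∈ Icc lo hi, ∑ y ∈ Icc lo hi, ((if s < x then u x else 0) * v y + u x * (if y < s + 1 then v y else 0)) := by
      refine sum_le_sum fun x _ => sum_le_sum fun y _ => ?_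
      have a := u0 x
      have b := v0 y
      have ab := mul_nonneg a b
      by_cases hx : s < x
      · rw [if_pos hx]
        split_ifs <;> nlinarith
      · rw [if_neg hx]
        by_cases hyx : y ≤ x
        · rw [if_pos hyx, if_pos (by omega : y < s + 1)]
          linarith
        · rw [if_neg hyx]
          split_ifs <;> nlinarith
    have s2 : ∑ x ∈ Icc lo hi, ∑ y ∈ Icc lo hi,
        ((if s < x then u x else 0) * v y + u x * (if y < s + 1 then v y else 0)) =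
        (∑ x ∈ Icc lo hi, if s < x then u x else 0) * (∑ y ∈ Icc lo hi, v y) +
        (∑ x ∈ Icc lo hi, u x) * ∑ y ∈ Icc lo hi, (if y < s + 1 then v y else 0) := by
      rw [sum_mul_sum, sum_mul_sum, ← sum_add_distrib]
      exact sum_congr rfl fun x _ => sum_add_distrib
    rw [s2, ← sum_filter, ← sum_filter] at s1
    refine s1.trans ?_
    rw [hL, hR]
    exact add_le_add (mul_le_mul_of_nonneg_right oL ZR0) (mul_le_mul_of_nonneg_left oR ZL0)
  -- the mass of the pairs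
  have e : nm w p l r lo hi N k = ZL * ZR - ∑ x ∈ Icc lo hi, ∑ y ∈ Icc lo hi, (if y ≤ x then u x * v y else 0) -
      ∑ x ∈ Icc lo hi, ∑ y ∈ Icc lo hi, (if y < x then u x * v y else 0) := by
    rw [nm_P2]
    have e1' : ZL * ZR = ∑ x ∈ Icc lo hi, ∑ y ∈ Icc lo hi, u x * v y := by rw [← hL, ← hR, sum_mul_sum]
    have e2' : ∑ x ∈ Icc lo hi, ∑ y ∈ Icc lo hi, (if y < x then u x * v y else 0) =
        ∑ x ∈ Icc lo hi, ∑ y ∈ Icc lo hi, (if x < y then u y * v x else 0) := sum_comm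
    rw [e1', e2', ← sum_sub_distrib, ← sum_sub_distrib]
    unfold P2
    refine sum_congr rfl fun x _ => ?_
    rw [← sum_sub_distrib, ← sum_sub_distrib]
    refine sum_congr rfl fun y _ => ?_
    by_cases hxy : x < y
    · rw [if_pos hxy, if_neg (not_le.2 hxy), if_pos hxy]
      simp only [hu, hv, NI]
      ring
    · rw [if_neg hxy, if_pos (not_lt.1 hxy), if_neg hxy]
      ring
  have T2 : ∑ x ∈ Icc lo hi, ∑ y ∈ Icc lo hi, (if y < x then u x * v y else 0) ≤
      ∑ x ∈ Icc lo hi, ∑ y ∈ Icc lo hi, (if y ≤ x then u x * v y else 0) := by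
    refine sum_le_sum fun x _ => sum_le_sum fun y _ => ?_
    by_cases hyx : y < x
    · rw [if_pos hyx, if_pos hyx.le]
    · rw [if_neg hyx]
      split_ifs
      · exact mul_nonneg (u0 x) (v0 y)
      · exact le_rfl
  rw [e]
  linarith

/-! ### A slab of small cross ratio -/

/-- **A slab of cross ratio `1 + δ` joins the two groups.** -/
theorem nm_le (hw : ∀ k y, 0 < w k y) (hp : ∀ k, 0 < p k) (h : Box l r X lo hi N) {K n : ℕ} (hK : K + n ≤ N)
    {va vb xa xb : ℤ} {δ ε ZL ZR e1 e2 : ℝ} (δ0 : 0 ≤ δ) (h1 : va ≤ vb) (h2 : vb ≤ xa) (h3 : xa ≤ xb) (h4 : xb ≤ va + n)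
    (h5 : lo ≤ va) (h6 : vb + n ≤ hi)
    (c : CR (kf w p K n) va vb xa xb ≤ 1 + δ) (lx : LX w p K n (N - (K + n)) va xa ε) (rx : RX w p K n (N - (K + n)) vb xb ε)
    (hL : ∑ x ∈ Icc lo hi, fw w p l K x * bw w p K (n + (N - (K + n))) x = ZL)
    (hR : ∑ x ∈ Icc lo hi, fw w p r K x * bw w p K (n + (N - (K + n))) x = ZR)
    (oL : ∑ x ∈ (Icc lo hi).filter (fun x => ¬ (va ≤ x ∧ x ≤ vb)), fw w p l K x * bw w p K (n + (N - (K + n))) x ≤ e1)
    (oR : ∑ x ∈ (Icc lo hi).filter (fun x => ¬ (va ≤ x ∧ x ≤ vb)), fw w p r K x * bw w p K (n + (N - (K + n))) x ≤ e2) :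
    nm w p l r lo hi N (K + n) ≤ (δ + 4 * ε) * (ZL * ZR) + (e1 * ZR + ZL * e2) := by
  set M := N - (K + n) with hM
  set S := Icc lo hi with hS
  set I := kf w p K n with hI
  set b : ℤ → ℝ := bw w p (K + n) M with hb
  set B : ℤ → ℝ := bw w p K (n + M) with hB
  have I0 : ∀ x y, 0 ≤ I x y := fun x y => kf_nonneg hw hp _ _ _ _
  have b0 : ∀ y, 0 < b y := fun y => bw_pos hw hp _ _ y
  have B0 : ∀ y, 0 < B y := fun y => bw_pos hw hp _ _ y
  have L0 : ∀ x, 0 ≤ fw w p l K x := fun x => fw_nonneg hw hp h.g.l0 K x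
  have R0 : ∀ x, 0 ≤ fw w p r K x := fun x => fw_nonneg hw hp h.g.r0 K x
  have ZL0 : 0 ≤ ZL := by rw [← hL]; exact sum_nonneg fun x _ => mul_nonneg (L0 x) (B0 x).le
  have ZR0 : 0 ≤ ZR := by rw [← hR]; exact sum_nonneg fun x _ => mul_nonneg (R0 x) (B0 x).le
  have ε0 : 0 ≤ ε := by
    have a1 := ev_nonneg hw hp K n M (· < xa) va
    have a2 := bw_pos hw hp (n + M) K va
    unfold LX at lx
    by_contra hc
    have := mul_neg_of_neg_of_pos (not_le.1 hc) a2
    linarith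
  have hN : (0 : ℤ) ≤ (N : ℤ) - K := by omega
  have offL : ∀ y, y ∉ S → fw w p l K y = 0 := by
    intro y hy
    rw [hS, mem_Icc] at hy
    by_cases h0 : y < lo
    · exact (K91P.bfl h K h0).1
    · exact (K91P.bfh h (by omega)).1
  have offR : ∀ y, y ∉ S → fw w p r K y = 0 := by
    intro y hy
    rw [hS, mem_Icc] at hy
    by_cases h0 : y < lo
    · exact (K91P.bfl h K h0).2
    · exact (K91P.bfh h (by omega)).2
  -- the pairs behind the slab
  have e1' : nm w p l r lo hi N (K + n) =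
      P2 S (fun x x' => NI (fw w p l K) (fw w p r K) x x' * P2 S (fun y y' => NIk I x x' y y' * (b y * b y'))) := by
    rw [nm_P2]
    have f1 : P2 S (fun x y => NI (fw w p l (K + n)) (fw w p r (K + n)) x y *
        (bw w p (K + n) (N - (K + n)) x * bw w p (K + n) (N - (K + n)) y)) =
        P2 S (fun y y' => P2 S (fun x x' => NI (fw w p l K) (fw w p r K) x x' * NIk I x x' y y' * (b y * b y'))) := by
      refine Gini76.P2_congr fun y _ y' _ _ => ?_
      have g1 : fw w p l (K + n) = push S I (fw w p l K) := funext fun z => fw_kf K n offL z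
      have g2 : fw w p r (K + n) = push S I (fw w p r K) := funext fun z => fw_kf K n offR z
      rw [g1, g2, binet, mul_comm, ← Gini76.P2_mul]
      exact Gini76.P2_congr fun x _ x' _ _ => by
        simp only [hb, hM]
        ring
    rw [f1, P2_swap]
    refine Gini76.P2_congr fun x _ x' _ _ => ?_
    rw [← Gini76.P2_mul]
    exact Gini76.P2_congr fun y _ y' _ _ => by ring
  -- sums of one path
  have row : ∀ (T : Finset ℤ) (x : ℤ), ∑ y ∈ T, I x y * b y ≤ B x := fun T x => pull_le hw hp K n M T x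
  have out : ∀ x, va ≤ x → x ≤ vb → ∑ y ∈ S.filter (fun y => ¬ (xa ≤ y ∧ y ≤ xb)), I x y * b y ≤ 2 * ε * B x :=
    fun x k1 k2 => out_le h3 (lx.mono hw hp k1) (rx.mono hw hp k2) (by omega) (by omega)
  have tp := TP_kf hw hp K n va vb
  -- one pair of starts
  have two : ∀ x ∈ S, ∀ x' ∈ S, x < x' → P2 S (fun y y' => NIk I x x' y y' * (b y * b y')) ≤
      (δ + 4 * ε + ((if ¬ (va ≤ x ∧ x ≤ vb) then 1 else 0) + (if ¬ (va ≤ x' ∧ x' ≤ vb) then 1 else 0))) * (B x * B x') := by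
    intro x _ x' _ hxx
    have BB := mul_pos (B0 x) (B0 x')
    have crude : P2 S (fun y y' => NIk I x x' y y' * (b y * b y')) ≤ B x * B x' := by
      refine (P2_le_sum (g := fun y y' => (I x y * b y) * (I x' y' * b y')) (fun y _ y' _ _ => ?_) fun y _ y' _ =>
        mul_nonneg (mul_nonneg (I0 _ _) (b0 _).le) (mul_nonneg (I0 _ _) (b0 _).le)).trans ?_
      · unfold NIk
        have q1 : 0 ≤ I x y' * I x' y * (b y * b y') :=
          mul_nonneg (mul_nonneg (I0 _ _) (I0 _ _)) (mul_pos (b0 _) (b0 _)).le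
        linarith
      · rw [← sum_mul_sum]
        exact mul_le_mul (row S x) (row S x') (sum_nonneg fun y _ => mul_nonneg (I0 _ _) (b0 _).le) (B0 x).le
    by_cases hx : va ≤ x ∧ x ≤ vb
    · by_cases hx' : va ≤ x' ∧ x' ≤ vb
      · rw [if_neg (not_not.2 hx), if_neg (not_not.2 hx')]
        refine (P2_le_sum (g := fun y y' => δ * ((I x y * b y) * (I x' y' * b y')) +
          ((if ¬ (xa ≤ y ∧ y ≤ xb) then I x y * b y else 0) * (I x' y' * b y') +
          (I x y * b y) * (if ¬ (xa ≤ y' ∧ y' ≤ xb) then I x' y' * b y' else 0))) (fun y _ y' _ hyy => ?_) fun y _ y' _ => ?_).trans ?_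
        · have m0 : 0 ≤ (I x y * b y) * (I x' y' * b y') :=
            mul_nonneg (mul_nonneg (I0 _ _) (b0 _).le) (mul_nonneg (I0 _ _) (b0 _).le)
          have q1 : 0 ≤ I x y' * I x' y * (b y * b y') :=
            mul_nonneg (mul_nonneg (I0 _ _) (I0 _ _)) (mul_pos (b0 _) (b0 _)).le
          have i0 : 0 ≤ I x y * b y := mul_nonneg (I0 _ _) (b0 _).le
          have i0' : 0 ≤ I x' y' * b y' := mul_nonneg (I0 _ _) (b0 _).le
          have dm := mul_nonneg δ0 m0
          by_cases hy : xa ≤ y ∧ y ≤ xb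
          · by_cases hy' : xa ≤ y' ∧ y' ≤ xb
            · rw [if_neg (not_not.2 hy), if_neg (not_not.2 hy')]
              have cc := tp.CR_mono (ya := va) (y := x) (y' := x') (yb := vb) (xa := xa) (x := y) (x' := y') (xb := xb)
                ⟨le_rfl, h1⟩ hx hx' ⟨h1, le_rfl⟩ ⟨h2, by omega⟩ ⟨by omega, by omega⟩ ⟨by omega, by omega⟩ ⟨by omega, h4⟩
                hx.1 hxx.le hx'.2 hy.1 hyy.le hy'.2
              have cc2 := cc.trans c
              have pz : 0 < I x y' * I x' y := mul_pos (tp.pos x hx y' ⟨by omega, by omega⟩) (tp.pos x' hx' y ⟨by omega, by omega⟩)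
              unfold CR at cc2
              rw [div_le_iff₀ pz] at cc2
              have cc3 := mul_le_mul_of_nonneg_right cc2 (mul_pos (b0 y) (b0 y')).le
              have tpm : I x y' * I x' y ≤ I x y * I x' y' := kf_minor hw hp K n hxx.le hyy.le
              have cc4 := mul_le_mul_of_nonneg_left (mul_le_mul_of_nonneg_right tpm (mul_pos (b0 y) (b0 y')).le) δ0
              unfold NIk
              nlinarith
            · rw [if_neg (not_not.2 hy), if_pos hy']
              unfold NIk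
              nlinarith
          · rw [if_pos hy]
            have k0 : 0 ≤ (I x y * b y) * (if ¬ (xa ≤ y' ∧ y' ≤ xb) then I x' y' * b y' else 0) := mul_nonneg i0 (nn_ite i0')
            unfold NIk
            nlinarith
        · have i0 : 0 ≤ I x y * b y := mul_nonneg (I0 _ _) (b0 _).le
          have i0' : 0 ≤ I x' y' * b y' := mul_nonneg (I0 _ _) (b0 _).le
          have d0 := mul_nonneg δ0 (mul_nonneg i0 i0')
          have d1 : 0 ≤ (if ¬ (xa ≤ y ∧ y ≤ xb) then I x y * b y else 0) := nn_ite i0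
          have d2 : 0 ≤ (if ¬ (xa ≤ y' ∧ y' ≤ xb) then I x' y' * b y' else 0) := nn_ite i0'
          have := mul_nonneg d1 i0'
          have := mul_nonneg i0 d2
          linarith
        · have es : ∑ y ∈ S, ∑ y' ∈ S, (δ * ((I x y * b y) * (I x' y' * b y')) +
              ((if ¬ (xa ≤ y ∧ y ≤ xb) then I x y * b y else 0) * (I x' y' * b y') +
              (I x y * b y) * (if ¬ (xa ≤ y' ∧ y' ≤ xb) then I x' y' * b y' else 0))) =
              δ * ((∑ y ∈ S, I x y * b y) * ∑ y' ∈ S, I x' y' * b y') +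
              ((∑ y ∈ S, if ¬ (xa ≤ y ∧ y ≤ xb) then I x y * b y else 0) * (∑ y' ∈ S, I x' y' * b y') +
              (∑ y ∈ S, I x y * b y) * ∑ y' ∈ S, if ¬ (xa ≤ y' ∧ y' ≤ xb) then I x' y' * b y' else 0) := by
            rw [sum_mul_sum, sum_mul_sum, sum_mul_sum, mul_sum, ← sum_add_distrib, ← sum_add_distrib]
            refine sum_congr rfl fun y _ => ?_
            rw [mul_sum, ← sum_add_distrib, ← sum_add_distrib]
          rw [es, ← sum_filter, ← sum_filter]
          have r1 := row S x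
          have r2 := row S x'
          have o1 := out x hx.1 hx.2
          have o2 := out x' hx'.1 hx'.2
          have n1 : 0 ≤ ∑ y ∈ S, I x y * b y := sum_nonneg fun y _ => mul_nonneg (I0 _ _) (b0 _).le
          have n2 : 0 ≤ ∑ y ∈ S, I x' y * b y := sum_nonneg fun y _ => mul_nonneg (I0 _ _) (b0 _).le
          have n3 : 0 ≤ ∑ y ∈ S.filter (fun y => ¬ (xa ≤ y ∧ y ≤ xb)), I x y * b y :=
            sum_nonneg fun y _ => mul_nonneg (I0 _ _) (b0 _).le
          have n4 : 0 ≤ ∑ y ∈ S.filter (fun y => ¬ (xa ≤ y ∧ y ≤ xb)), I x' y * b y :=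
            sum_nonneg fun y _ => mul_nonneg (I0 _ _) (b0 _).le
          have t1 := mul_le_mul_of_nonneg_left (mul_le_mul r1 r2 n2 (B0 x).le) δ0
          have t2 := mul_le_mul o1 r2 n2 (mul_nonneg (by linarith) (B0 x).le)
          have t3 := mul_le_mul r1 o2 n4 (B0 x).le
          nlinarith
      · rw [if_neg (not_not.2 hx), if_pos hx']
        refine crude.trans ?_
        have q1 : 0 ≤ (δ + 4 * ε) * (B x * B x') := mul_nonneg (by linarith) BB.le
        linarith
    · rw [if_pos hx]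
      refine crude.trans ?_
      have q1 : 0 ≤ (δ + 4 * ε + (if ¬ (va ≤ x' ∧ x' ≤ vb) then 1 else 0)) * (B x * B x') := by
        refine mul_nonneg ?_ BB.le
        split_ifs <;> linarith
      linarith
  rw [e1']
  refine (P2_le_sum (g := fun x x' => (δ + 4 * ε) * ((fw w p l K x * B x) * (fw w p r K x' * B x')) +
      ((if ¬ (va ≤ x ∧ x ≤ vb) then fw w p l K x * B x else 0) * (fw w p r K x' * B x') +
      (fw w p l K x * B x) * (if ¬ (va ≤ x' ∧ x' ≤ vb) then fw w p r K x' * B x' else 0)))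
      (fun x hx x' hx' hxx => ?_) fun x _ x' _ => ?_).trans ?_
  · have t := two x hx x' hx' hxx
    have NI0 : 0 ≤ NI (fw w p l K) (fw w p r K) x x' := by
      have := K91P.dp_nonneg hw hp h.g K x x' hxx.le
      unfold dp at this
      unfold NI
      linarith
    have NI1 : NI (fw w p l K) (fw w p r K) x x' ≤ fw w p l K x * fw w p r K x' := by
      have := mul_nonneg (L0 x') (R0 x)
      unfold NI
      linarith
    have k1 := mul_le_mul_of_nonneg_left t NI0
    have c0 : 0 ≤ δ + 4 * ε + ((if ¬ (va ≤ x ∧ x ≤ vb) then (1 : ℝ) else 0) + (if ¬ (va ≤ x' ∧ x' ≤ vb) then 1 else 0)) := by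
      split_ifs <;> linarith
    have k2 := mul_le_mul_of_nonneg_right NI1 (mul_nonneg c0 (mul_pos (B0 x) (B0 x')).le)
    refine k1.trans (k2.trans (le_of_eq ?_))
    by_cases q1 : ¬ (va ≤ x ∧ x ≤ vb)
    · by_cases q2 : ¬ (va ≤ x' ∧ x' ≤ vb)
      · rw [if_pos q1, if_pos q2, if_pos q1, if_pos q2]
        ring
      · rw [if_pos q1, if_neg q2, if_pos q1, if_neg q2]
        ring
    · by_cases q2 : ¬ (va ≤ x' ∧ x' ≤ vb)
      · rw [if_neg q1, if_pos q2, if_neg q1, if_pos q2]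
        ring
      · rw [if_neg q1, if_neg q2, if_neg q1, if_neg q2]
        ring
  · have i0 : 0 ≤ fw w p l K x * B x := mul_nonneg (L0 _) (B0 _).le
    have i0' : 0 ≤ fw w p r K x' * B x' := mul_nonneg (R0 _) (B0 _).le
    have d0 : 0 ≤ (δ + 4 * ε) * ((fw w p l K x * B x) * (fw w p r K x' * B x')) :=
      mul_nonneg (by linarith) (mul_nonneg i0 i0')
    have d1 : 0 ≤ (if ¬ (va ≤ x ∧ x ≤ vb) then fw w p l K x * B x else 0) := nn_ite i0
    have d2 : 0 ≤ (if ¬ (va ≤ x' ∧ x' ≤ vb) then fw w p r K x' * B x' else 0) := nn_ite i0'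
    have := mul_nonneg d1 i0'
    have := mul_nonneg i0 d2
    linarith
  · have es : ∑ x ∈ S, ∑ x' ∈ S, ((δ + 4 * ε) * ((fw w p l K x * B x) * (fw w p r K x' * B x')) +
        ((if ¬ (va ≤ x ∧ x ≤ vb) then fw w p l K x * B x else 0) * (fw w p r K x' * B x') +
        (fw w p l K x * B x) * (if ¬ (va ≤ x' ∧ x' ≤ vb) then fw w p r K x' * B x' else 0))) =
        (δ + 4 * ε) * ((∑ x ∈ S, fw w p l K x * B x) * ∑ x' ∈ S, fw w p r K x' * B x') +
        ((∑ x ∈ S, if ¬ (va ≤ x ∧ x ≤ vb) then fw w p l K x * B x else 0) * (∑ x' ∈ S, fw w p r K x' * B x') +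
        (∑ x ∈ S, fw w p l K x * B x) * ∑ x' ∈ S, if ¬ (va ≤ x' ∧ x' ≤ vb) then fw w p r K x' * B x' else 0) := by
      rw [sum_mul_sum, sum_mul_sum, sum_mul_sum, mul_sum, ← sum_add_distrib, ← sum_add_distrib]
      refine sum_congr rfl fun y _ => ?_
      rw [mul_sum, ← sum_add_distrib, ← sum_add_distrib]
    rw [es, ← sum_filter, ← sum_filter, hL, hR]
    have t1 := mul_le_mul_of_nonneg_right oL ZR0
    have t2 := mul_le_mul_of_nonneg_left oR ZL0
    linarith

end

end Pool.Agent.W_7d29a1_C1.H1c
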