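import Pool.Agent.W_7d29a1_C1.BoxT60

/-!
Both halves (MP_7d29a1_pr), attractor route: THE PAIRS WITHOUT A CHOSEN NORMAL SUCCESS, OVER THE TOWER, ALL QUANTIFIERS (helper60).

`Cpy` = one copy: blind and measurable usable scales and block events, weights, FreshP, the weight of `many unusable scales`.
`n2T60` : for two copies over the same tower the weight of all the pairs outside of the sets `AO` is at most `n ^ (-c₀)`.
-/

set_option autoImplicit false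
set_option linter.unusedSectionVars false

namespace Pool.Agent.W_7d29a1_C1.H60

open MeasureTheory ProbabilityTheory Filter Topology
open Pool.Agent.W_7d29a1_F Pool.Agent.W_7d29a1_C1.S71 Pool.Agent.W_7d29a1_C1.Sw9 Pool.Agent.W_7d29a1_C1.Pd9
open Pool.Agent.W_7d29a1_C1.H77 Pool.Agent.W_7d29a1_C1.Lec17
open Pool.Agent.W_7d29a1_C1.T10 (Gd pt)
open scoped ENNReal

noncomputable section

variable {μ : Measure ℝ} [IsProbabilityMeasure μ]

/-- **THE SUM OF THE RANGES OF THE FIRST `Lb` SLABS.** -/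
theorem rsumL60 {A' a g κ b χ ε : ℝ} (hA' : 0 < A') (ha : 0 < a) (hg : 0 < g) (hκ : 1 < κ) (hb : 0 ≤ b) (hχ : 0 < χ) (hε : 0 < ε) :
    ∃ U₀ : ℝ, 1 ≤ U₀ ∧ ∀ U : ℝ, U₀ ≤ U → ∀ (G : Gd) (L Lb Lm : ℕ) (A : ℕ → Set Pt) (EL : ℕ → ℕ × ℤ → ℕ → Set Env), Lb ≤ L → G.Ok L →
      G.Nest L A → (∀ v o l, MeasurableSet (EL v o l)) → (∀ v o l, Off (A (v + 1) \ T10.At (pt o) (A v))ᶜ (EL v o l)) →
      (∀ v < L, ∀ c l, (law μ).real (EL v (G.dg v c) l)ᶜ ≤ A' * Real.exp (-(a * (U * κ ^ (χ * (l : ℝ))) ^ g))) → ∀ (c : ℕ × ℤ) (r : ℕ),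
      law μ {η | r ≤ ∑ v ∈ Finset.range Lb, lvL G (LvE Lm EL) L v c η} ≤ ENNReal.ofReal ((1 + ε) ^ Lb / (κ ^ b) ^ r) := by
  obtain ⟨U₀, hU₀, H⟩ := rsum60 (μ := μ) (b := b) hA' ha hg hκ hb hχ hε
  refine ⟨U₀, hU₀, fun U hU G L Lb Lm A EL hLb hG hA mE oE hP c r => ?_⟩
  have h1 := H U hU Lb Lm (fun v => G.Sl A v c) (fun v l => ELc G EL c v l)
    (fun i hi j hj hij => hG.Sl_pair hA hij (hj.le.trans hLb) c)
    (fun v hv l => (mE v _ l).preimage (measurable_sh _))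
    (fun v hv l => by
      have h2 := hG.lv_read (Lv := fun v o η => η ∈ EL v o l) (fun v o => Off.toF (oE v o l)) (hv.trans_le hLb) c
      intro η η' he
      exact iff_of_eq (h2 η η' he))
    (fun v hv l => by
      refine le_trans (le_of_eq ?_) (hP v (hv.trans_le hLb) c l)
      unfold Measure.real
      congr 1
      exact (mp_sh (μ := μ) (G.x (v + 1) c)).measure_preimage (mE v _ l).compl.nullMeasurableSet) r
  refine le_trans (le_of_eq ?_) h1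
  congr 1
  ext η
  simp only [Set.mem_ofPred_eq]
  rw [Finset.sum_congr rfl fun v hv => congrFun (lvL_eq ((Finset.mem_range.1 hv).trans_le hLb) c) η]

/-- **ONE COPY OVER THE TOWER**: everything which the chain asks from one context. `T` = the contacts, `w` = the weights,
`V` = usable scales, `So`, `SI` = the two halves of the block events, `Lv` = the ranges of the slabs. -/
structure Cpy (μ : Measure ℝ) [IsProbabilityMeasure μ] (G : Gd) (L : ℕ) (A : ℕ → Set Pt) (Lv : ℕ → ℕ × ℤ → Env → ℕ)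
    (m m₂ g k : ℕ) (T : Finset (ℕ × ℤ)) (V So : ℕ → ℕ × ℤ → Set Env) (SI : ℕ → Set Env) (w : ℕ × ℤ → Env → ℝ)
    (a p e ν : ℝ) : Prop where
  mV : ∀ j < m, ∀ c ∈ T, MeasurableSet (V j c)
  mS : ∀ j < m, ∀ c ∈ T, MeasurableSet (SH G.x So SI j c)
  mw : ∀ c ∈ T, Measurable (w c)
  w0 : ∀ c ∈ T, ∀ ω, 0 ≤ w c ω
  w1 : ∀ ω, ∑ c ∈ T, w c ω ≤ 1
  oV : ∀ j < m, ∀ c ∈ T, Off (T10.At (G.x (j + m₂) c) (A (j + m₂))) (V j c)
  eV : ∀ j < m, ∀ c ∈ T, ∀ d ∈ T, G.z j c = G.z j d → V j c = V j d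
  oS : ∀ j < m, g ≤ j → ∀ c ∈ T, Off (T10.At (G.x (j - g) c) (A (j - g))) (SH G.x So SI j c)
  eS : ∀ j < m, ∀ c ∈ T, ∀ d ∈ T, G.z j c = G.z j d → SH G.x So SI j c = SH G.x So SI j d
  fr : Fresh (law μ) T m k (fun i => i + m₂ - 1) (fun i => i - 2) G.z (fun i Q => gl (Bl G A m₂ i Q)) V (SH G.x So SI)
    (lvL G Lv L) (fun c ω => ENNReal.ofReal (w c ω)) (ENNReal.ofReal a) (ENNReal.ofReal p) (ENNReal.ofReal e)
  hν : ∑ c ∈ T, ∫⁻ ω in Nar (fun t => V t c) m (m / 8 + 1), ENNReal.ofReal (w c ω) ∂(law μ) ≤ ENNReal.ofReal ν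
  a0 : 0 ≤ a
  p0 : 0 ≤ p
  e0 : 0 ≤ e

/-- The structure `BoxR` of one copy. -/
theorem Cpy.boxR {G : Gd} {L : ℕ} {A : ℕ → Set Pt} {Lv : ℕ → ℕ × ℤ → Env → ℕ} {m m₂ g k : ℕ} {T : Finset (ℕ × ℤ)}
    {V So : ℕ → ℕ × ℤ → Set Env} {SI : ℕ → Set Env} {w : ℕ × ℤ → Env → ℝ} {a p e ν : ℝ}
    (h : Cpy μ G L A Lv m m₂ g k T V So SI w a p e ν) (hG : G.Ok L) (hA : G.Nest L A) (hL : Gd.Rd A Lv)
    (mL : ∀ v o, Measurable (Lv v o)) (h2 : 1 ≤ m₂) (hg : 1 ≤ g) (hm : m + m₂ ≤ L) :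
    BoxR (law μ) T m (m₂ + g) (fun i => i + m₂ - 1) G.z (fun i Q => gl (Bl G A m₂ i Q)) V (SH G.x So SI) (lvL G Lv L)
      (fun c ω => ENNReal.ofReal (w c ω)) :=
  BoxR.tower hG hA hL h2 hg (fun i hi => by omega) h.mV h.mS mL (fun c hc => (h.mw c hc).ennreal_ofReal)
    (fun ω => by
      rw [← ENNReal.ofReal_sum_of_nonneg fun c hc => h.w0 c hc ω, ← ENNReal.ofReal_one]
      exact ENNReal.ofReal_le_ofReal (h.w1 ω)) h.oV h.eV h.oS h.eS

/-- **N2 OVER THE TOWER.** -/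
theorem n2T60 {A' a₁ g₁ K χ : ℝ} (hA' : 0 < A') (ha : 0 < a₁) (hg₁ : 0 < g₁) (hK : 1 < K) (hχ : 0 < χ) {κ c s B c₀ : ℝ}
    (hκ : 0 < κ) (hc : 0 < c) (hc1 : c ≤ 1) (hB : 0 ≤ B) {m₂ g k : ℕ} (h2 : 1 ≤ m₂) (hg : 1 ≤ g)
    (h0 : c₀ < κ / (8 * ((m₂ + g : ℕ) : ℝ)) * Real.log (1 + c)) (h1 : c₀ < s) (h1' : c₀ < 1) :
    ∃ U₀ : ℝ, 1 ≤ U₀ ∧ ∀ U : ℝ, U₀ ≤ U → ∀ᶠ n : ℕ in atTop, ∀ (m L Lm : ℕ), κ * Real.log n ≤ m → m + m₂ ≤ L →
      ∀ (G : Gd) (A : ℕ → Set Pt) (EL : ℕ → ℕ × ℤ → ℕ → Set Env), G.Ok L → G.Nest L A →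
      (∀ v o l, MeasurableSet (EL v o l)) → (∀ v o l, Off (A (v + 1) \ T10.At (pt o) (A v))ᶜ (EL v o l)) →
      (∀ v < L, ∀ c l, (law μ).real (EL v (G.dg v c) l)ᶜ ≤ A' * Real.exp (-(a₁ * (U * K ^ (χ * (l : ℝ))) ^ g₁))) →
      ∀ (T T' : Finset (ℕ × ℤ)) (V So V' So' : ℕ → ℕ × ℤ → Set Env) (SI : ℕ → Set Env) (w w' : ℕ × ℤ → Env → ℝ)
        (a p e ν a' p' e' ν' : ℝ),
      Cpy μ G L A (LvE Lm EL) m m₂ g k T V So SI w a p e ν → Cpy μ G L A (LvE Lm EL) m m₂ g k T' V' So' SI w' a' p' e' ν' →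
      c * (1 + c) ^ k ≤ (a * p) * (a' * p') → ν ≤ (n : ℝ) ^ (-s) → ν' ≤ (n : ℝ) ^ (-s) →
      (T.card : ℝ) ≤ (n : ℝ) ^ B → (T'.card : ℝ) ≤ (n : ℝ) ^ B →
      m * (T.card * T'.card * ((1 + c) ^ m * (T.card * e + T'.card * e'))) ≤ 1 →
      ∑ q ∈ T, ∑ q' ∈ T', ∫ z in (⋃ t ∈ Finset.range m, AO (m₂ + g) m (VV V V' (q, q')) (SS G.x G.x So So' SI (q, q'))
        (YY (lvL G (LvE Lm EL) L) (lvL G (LvE Lm EL) L) (Yr fun i => i - 2) (q, q')) t)ᶜ, w q z.1 * w' q' z.2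
        ∂((law μ).prod (law μ)) ≤ (n : ℝ) ^ (-c₀) := by
  classical
  have hM : 0 < m₂ + g := by omega
  have hD : 0 < 16 * (m₂ + g) := by omega
  obtain ⟨b, hb, H60⟩ := exp60 (κ := K) (A := 2 * B + 2) (κ' := κ) hK (by linarith) hκ hD
  obtain ⟨U₀, hU₀, HR⟩ := rsumL60 (μ := μ) (b := b) hA' ha hg₁ hK hb hχ one_pos
  refine ⟨U₀, hU₀, fun U hU => ?_⟩
  have hlog : Tendsto (fun n : ℕ => κ * Real.log n) atTop atTop :=
    (Real.tendsto_log_atTop.comp tendsto_natCast_atTop_atTop).const_mul_atTop hκ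
  filter_upwards [n2E17 (c := c) (κ := κ) (B := B) (s := s) (A := 2 * B + 1) hc hκ hM le_rfl h0 h1 h1',
    eventually_ge_atTop 2, hlog.eventually_ge_atTop ((16 * (m₂ + g) + m₂ + 3 : ℕ) : ℝ)] with n E17 hn2 hnm
  intro m L Lm hm hmL G A EL hG hA mE oE hP T T' V So V' So' SI w w' a p e ν a' p' e' ν' h h' cp hν hν' hT hT' herr
  have hn1 : 1 ≤ n := by omega
  have hn0 : (0 : ℝ) < n := by exact_mod_cast hn1
  have hmm : 16 * (m₂ + g) + m₂ + 3 ≤ m := by exact_mod_cast hnm.trans hm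
  have hL : Gd.Rd A (LvE Lm EL) := Rd_LvE oE
  have mL : ∀ v o, Measurable (LvE Lm EL v o) := measurable_LvE mE
  have R1 := h.boxR hG hA hL mL h2 hg hmL
  have R2' := h'.boxR hG hA hL mL h2 hg hmL
  obtain ⟨io1, io2⟩ := io_mi60 (m := m) h2 hg
  set l := lvL G (LvE Lm EL) L with hl
  set err : ℝ := m * (T.card * T'.card * ((1 + c) ^ m * (T.card * e + T'.card * e'))) with herr0
  have herr1 : 0 ≤ err := by
    have := h.e0
    have := h'.e0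
    have : 0 ≤ 1 + c := by linarith
    positivity
  have hch := hch60 R1 R2' h.fr h'.fr io1 io2 h.a0 h'.a0 h.p0 h.e0 h'.e0 hc.le hc1 cp
  -- the good event
  set b₁ : ℕ := m / (8 * (m₂ + g)) / 2 + 1 with hb1
  have hDm : 16 * (m₂ + g) ≤ m := by omega
  have hLb : m + m₂ ≤ 2 * m := by omega
  have hK1 : (1 : ℝ) ≤ K ^ b := Real.one_le_rpow hK.le hb
  have tail : ∀ q : ℕ × ℤ, law μ {ω | b₁ ≤ ∑ v ∈ Finset.range (m + m₂), l v q ω} ≤ ENNReal.ofReal ((n : ℝ) ^ (-(2 * B + 2))) := by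
    intro q
    refine (HR U hU G L (m + m₂) Lm A EL hmL hG hA mE oE hP q b₁).trans (ENNReal.ofReal_le_ofReal ?_)
    refine le_trans ?_ (H60 n m (m + m₂) hn1 hm hDm hLb)
    have e1 : m / (16 * (m₂ + g)) ≤ b₁ := by
      have : m / (16 * (m₂ + g)) = m / (8 * (m₂ + g)) / 2 := by
        rw [Nat.div_div_eq_div_mul]
        congr 1
        ring
      omega
    have e2 : (K ^ b) ^ (m / (16 * (m₂ + g))) ≤ (K ^ b) ^ b₁ := pow_le_pow_right₀ hK1 e1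
    have e3 : 0 < (K ^ b) ^ (m / (16 * (m₂ + g))) := by positivity
    exact div_le_div_of_nonneg_left (by positivity) e3 e2
  have hτ0 : 0 ≤ (n : ℝ) ^ (-(2 * B + 2)) := Real.rpow_nonneg hn0.le _
  have hio : ∀ i < m, ∀ j < m, i + m₂ - 1 = j + m₂ - 1 → i = j := fun i _ j _ hij => by omega
  have hiL : ∀ i < m, i + m₂ - 1 < m + m₂ := fun i hi => by omega
  have main := n2T17 (P := law μ) (T := T) (T' := T') (w := w) (w' := w') (M := m₂ + g) (m := m) (r := m / (4 * (m₂ + g)))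
    (q := m / 8 + 1) (b := m / (8 * (m₂ + g))) (c := c) (err := err) (τ := (n : ℝ) ^ (-(2 * B + 2)) + (n : ℝ) ^ (-(2 * B + 2)))
    (ν := (n : ℝ) ^ (-s)) h.mw h'.mw h.w0 h'.w0 h.w1 h'.w1
    (VV := fun q q' i => both2 V V' i (q, q')) (S := fun q q' i => both2 (SH G.x So SI) (SH G.x So' SI) i (q, q'))
    (Y := fun q q' i => Rch (l2 l l) (i - 2) (q, q')) (X := fun q q' i => Rch (l2 l l) (i + m₂ - 1) (q, q'))
    (fun q hq q' hq' t ht => ((h.mV t ht q hq).preimage measurable_fst).inter ((h'.mV t ht q' hq').preimage measurable_snd))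
    (fun q hq q' hq' t ht => ((h.mS t ht q hq).preimage measurable_fst).inter ((h'.mS t ht q' hq').preimage measurable_snd))
    (fun q hq q' hq' t ht => measurableSet_Rch (fun v => ((measurable_lvL mL v q).comp measurable_fst).max
      ((measurable_lvL mL v q').comp measurable_snd)) _)
    (fun q hq q' hq' t ht => measurableSet_Rch (fun v => ((measurable_lvL mL v q).comp measurable_fst).max
      ((measurable_lvL mL v q').comp measurable_snd)) _)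
    hc.le herr1 hch (V := fun q t => V t q) (V' := fun q t => V' t q) hM (fun q _ q' _ t _ z hz hz' => ⟨hz, hz'⟩)
    (G := fun q q' => G60 l l (m + m₂) b₁ q q')
    (fun q _ q' _ z hz => hG60 (io := fun i => i + m₂ - 1) hio hiL (by omega) q q' z hz)
    (cnt17 (M := m₂ + g) (by omega)).2 (by positivity) (Real.rpow_nonneg hn0.le _)
    (fun q _ q' _ => hτ60 (fun v => measurable_lvL mL v q) (fun v => measurable_lvL mL v q') hτ0 hτ0 (tail q) (tail q'))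
    (h.hν.trans (ENNReal.ofReal_le_ofReal hν)) (h'.hν.trans (ENNReal.ofReal_le_ofReal hν'))
  have e1 : ∀ q q' : ℕ × ℤ, SS G.x G.x So So' SI (q, q') = fun i => both2 (SH G.x So SI) (SH G.x So' SI) i (q, q') :=
    fun q q' => SS_both (q, q')
  simp only [e1]
  refine main.trans ?_
  refine E17 m T.card T'.card err _ _ hm hT hT' herr1 herr (by positivity) ?_ le_rfl
  have e2 : (n : ℝ) ^ (-(2 * B + 1)) = (n : ℝ) * (n : ℝ) ^ (-(2 * B + 2)) := by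
    rw [show -(2 * B + 1) = 1 + -(2 * B + 2) by ring, Real.rpow_add hn0, Real.rpow_one]
  rw [e2]
  have h3 : (2 : ℝ) ≤ n := by exact_mod_cast hn2
  nlinarith

end

end Pool.Agent.W_7d29a1_C1.H60
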