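import Pool.Agent.W_7d29a1_C1.ContrP91

/-!
MP_7d29a1_pr, the attractor route (helper78): neighbouring sites, the deterministic part. The masses of two neighbouring sites differ by
a factor `exp (C m)` plus the mass of the paths whose first `m` steps are all `1` (resp. all `0`). Objects of ContrP91.
-/

set_option autoImplicit false

namespace Pool.Agent.W_7d29a1_C1.Nbr78

open Finset
open Pool.Agent.W_7d29a1_C1.K91P (bw bw_zero bw_succ bw_pos GG)

noncomputable section

/-- The mass of the paths whose first `m` steps are `1` (then `j` rows). -/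
def DU (w : ℕ → ℤ → ℝ) (p : ℕ → ℝ) (j : ℕ) : ℕ → ℕ → ℤ → ℝ
  | 0, k, y => bw w p k j y
  | m + 1, k, y => w k y * (p k * DU w p j m (k + 1) (y + 1))

/-- The mass of the paths whose first `m` steps are `0` (then `j` rows). -/
def DD (w : ℕ → ℤ → ℝ) (p : ℕ → ℝ) (j : ℕ) : ℕ → ℕ → ℤ → ℝ
  | 0, k, y => bw w p k j y
  | m + 1, k, y => w k y * DD w p j m (k + 1) y

variable {w : ℕ → ℤ → ℝ} {p : ℕ → ℝ}

theorem DU_zero (j k : ℕ) (y : ℤ) : DU w p j 0 k y = bw w p k j y := rfl

theorem DU_succ (j m k : ℕ) (y : ℤ) : DU w p j (m + 1) k y = w k y * (p k * DU w p j m (k + 1) (y + 1)) := rfl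

theorem DD_zero (j k : ℕ) (y : ℤ) : DD w p j 0 k y = bw w p k j y := rfl

theorem DD_succ (j m k : ℕ) (y : ℤ) : DD w p j (m + 1) k y = w k y * DD w p j m (k + 1) y := rfl

theorem DU_pos (hw : ∀ k y, 0 < w k y) (hp : ∀ k, 0 < p k) (j : ℕ) : ∀ (m k : ℕ) (y : ℤ), 0 < DU w p j m k y
  | 0, k, y => by rw [DU_zero]; exact bw_pos hw hp j k y
  | m + 1, k, y => by
    rw [DU_succ]
    have h1 := DU_pos hw hp j m (k + 1) (y + 1)
    have h2 := hw k y
    have h3 := hp k
    positivity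

theorem DD_pos (hw : ∀ k y, 0 < w k y) (hp : ∀ k, 0 < p k) (j : ℕ) : ∀ (m k : ℕ) (y : ℤ), 0 < DD w p j m k y
  | 0, k, y => by rw [DD_zero]; exact bw_pos hw hp j k y
  | m + 1, k, y => by
    rw [DD_succ]
    have h1 := DD_pos hw hp j m (k + 1) y
    have h2 := hw k y
    positivity

/-- The window: the weights and the steps of the rows `k, …, k + m - 1`. -/
def Wnd (w : ℕ → ℤ → ℝ) (p : ℕ → ℝ) (u b : ℝ) (m k : ℕ) (y : ℤ) : Prop :=
  ∀ i < m, (Real.exp (-b) ≤ p (k + i) ∧ p (k + i) ≤ Real.exp b) ∧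
    ∀ z : ℤ, y - 1 ≤ z → z ≤ y + i → Real.exp (-u) ≤ w (k + i) z ∧ w (k + i) z ≤ Real.exp u

theorem Wnd.mono {u b : ℝ} {m m' k : ℕ} {y : ℤ} (h : Wnd w p u b m k y) (hm : m' ≤ m) : Wnd w p u b m' k y :=
  fun i hi => h i (by omega)

theorem Wnd.up {u b : ℝ} {m k : ℕ} {y : ℤ} (h : Wnd w p u b (m + 1) k y) : Wnd w p u b m (k + 1) (y + 1) := by
  intro i hi
  have h1 := h (i + 1) (by omega)
  have e : k + (i + 1) = k + 1 + i := by ring
  rw [e] at h1
  refine ⟨h1.1, fun z h2 h3 => h1.2 z (by omega) (by push_cast; omega)⟩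

theorem Wnd.dn {u b : ℝ} {m k : ℕ} {y : ℤ} (h : Wnd w p u b (m + 1) k y) : Wnd w p u b m (k + 1) y := by
  intro i hi
  have h1 := h (i + 1) (by omega)
  have e : k + (i + 1) = k + 1 + i := by ring
  rw [e] at h1
  refine ⟨h1.1, fun z h2 h3 => h1.2 z h2 (by push_cast; omega)⟩

/-- The numbers of one row. -/
theorem num78 {u b : ℝ} (hu : 0 ≤ u) (hb : 0 ≤ b) (m : ℕ) :
    Real.exp (2 * u + b) * (1 + Real.exp b * Real.exp ((2 * u + 2 * b + 1) * m)) ≤ Real.exp ((2 * u + 2 * b + 1) * ((m + 1 : ℕ) : ℝ)) := by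
  have h1 : (1 : ℝ) ≤ Real.exp ((2 * u + 2 * b + 1) * m) := Real.one_le_exp (by positivity)
  have h2 : (1 : ℝ) ≤ Real.exp b := Real.one_le_exp hb
  have h3 : (2 : ℝ) ≤ Real.exp 1 := by
    have := Real.add_one_le_exp (1 : ℝ)
    linarith
  have h4 : 1 ≤ Real.exp b * Real.exp ((2 * u + 2 * b + 1) * m) := by nlinarith
  have h5 : Real.exp ((2 * u + 2 * b + 1) * ((m + 1 : ℕ) : ℝ)) =
      Real.exp (2 * u + b) * (Real.exp 1 * (Real.exp b * Real.exp ((2 * u + 2 * b + 1) * m))) := by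
    rw [← Real.exp_add, ← Real.exp_add, ← Real.exp_add]
    congr 1
    push_cast
    ring
  rw [h5]
  refine mul_le_mul_of_nonneg_left ?_ (Real.exp_pos _).le
  nlinarith

/-- The upper half. -/
theorem up78 (hw : ∀ k y, 0 < w k y) (hp : ∀ k, 0 < p k) {u b : ℝ} (hu : 0 ≤ u) (hb : 0 ≤ b) (j : ℕ) :
    ∀ (m k : ℕ) (y : ℤ), Wnd w p u b m k y →
      bw w p k (m + j) y ≤ Real.exp ((2 * u + 2 * b + 1) * m) * bw w p k (m + j) (y - 1) + DU w p j m k y
  | 0, k, y, _ => by
    rw [DU_zero, Nat.zero_add]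
    have h1 := bw_pos hw hp j k (y - 1)
    have : 0 < Real.exp ((2 * u + 2 * b + 1) * ((0 : ℕ) : ℝ)) := Real.exp_pos _
    nlinarith [mul_pos this h1]
  | m + 1, k, y, h => by
    have ih := up78 hw hp hu hb j m (k + 1) (y + 1) h.up
    have e1 : m + 1 + j = (m + j) + 1 := by ring
    rw [e1, bw_succ, bw_succ, DU_succ]
    have e2 : y - 1 + 1 = y := by ring
    have e3 : y + 1 - 1 = y := by ring
    rw [e2]
    rw [e3] at ih
    obtain ⟨A, hA⟩ : ∃ A, A = bw w p (k + 1) (m + j) (y - 1) := ⟨_, rfl⟩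
    obtain ⟨B, hB⟩ : ∃ B, B = bw w p (k + 1) (m + j) y := ⟨_, rfl⟩
    obtain ⟨C, hC⟩ : ∃ C, C = bw w p (k + 1) (m + j) (y + 1) := ⟨_, rfl⟩
    obtain ⟨D, hD⟩ : ∃ D, D = DU w p j m (k + 1) (y + 1) := ⟨_, rfl⟩
    obtain ⟨β, hβ⟩ : ∃ β, β = Real.exp ((2 * u + 2 * b + 1) * m) := ⟨_, rfl⟩
    obtain ⟨β', hβ'⟩ : ∃ β', β' = Real.exp ((2 * u + 2 * b + 1) * ((m + 1 : ℕ) : ℝ)) := ⟨_, rfl⟩
    have hA0 : 0 < A := by rw [hA]; exact bw_pos hw hp _ _ _
    have hB0 : 0 < B := by rw [hB]; exact bw_pos hw hp _ _ _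
    have hD0 : 0 < D := by rw [hD]; exact DU_pos hw hp _ _ _ _
    have hnum := num78 hu hb m
    rw [← hβ, ← hβ'] at hnum
    rw [← hB, ← hC, ← hD, ← hβ] at ih
    rw [← hA, ← hB, ← hC, ← hD, ← hβ']
    have h0 := h 0 (by omega)
    rw [Nat.add_zero] at h0
    obtain ⟨⟨hp1, hp2⟩, hw1⟩ := h0
    have h1 := hw1 y (by omega) (by simp)
    have h2 := hw1 (y - 1) (by omega) (by push_cast; omega)
    have hpk := hp k
    have hβ0 : 0 < β := by rw [hβ]; exact Real.exp_pos _
    have eb : Real.exp (-b) * Real.exp b = 1 := by rw [← Real.exp_add]; simp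
    have eu : Real.exp (-u) * Real.exp u = 1 := by rw [← Real.exp_add]; simp
    have hEu := Real.exp_pos u
    have hEb := Real.exp_pos b
    -- `w k y ≤ e^(2u) w k (y-1)`, `1 ≤ e^b p`
    have h3 : w k y ≤ Real.exp (2 * u) * w k (y - 1) := by
      have : Real.exp (2 * u) = Real.exp u * Real.exp u := by rw [← Real.exp_add]; ring_nf
      rw [this]
      nlinarith [mul_le_mul_of_nonneg_left h2.1 (mul_pos hEu hEu).le]
    have h4 : 1 ≤ Real.exp b * p k := by nlinarith
    have h5 : w k y * (B + p k * C) ≤ w k y * ((1 + p k * β) * B) + w k y * (p k * D) := by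
      rw [← mul_add]
      refine mul_le_mul_of_nonneg_left ?_ (hw k y).le
      nlinarith
    have h6 : 1 + p k * β ≤ 1 + Real.exp b * β := by nlinarith
    have h7 : w k y * ((1 + p k * β) * B) ≤ β' * (w k (y - 1) * (A + p k * B)) := by
      have g1 : w k y * ((1 + p k * β) * B) ≤ (Real.exp (2 * u) * w k (y - 1)) * ((1 + Real.exp b * β) * B) := by
        refine mul_le_mul h3 (mul_le_mul_of_nonneg_right h6 hB0.le) (by positivity) (by have := hw k (y - 1); positivity)
      have g2 : (Real.exp (2 * u) * w k (y - 1)) * ((1 + Real.exp b * β) * B) ≤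
          (Real.exp (2 * u) * w k (y - 1)) * ((1 + Real.exp b * β) * ((Real.exp b * p k) * B)) := by
        refine mul_le_mul_of_nonneg_left ?_ (by have := hw k (y - 1); positivity)
        refine mul_le_mul_of_nonneg_left ?_ (by positivity)
        nlinarith
      have g3 : (Real.exp (2 * u) * w k (y - 1)) * ((1 + Real.exp b * β) * ((Real.exp b * p k) * B)) =
          (Real.exp (2 * u + b) * (1 + Real.exp b * β)) * (w k (y - 1) * (p k * B)) := by
        rw [Real.exp_add]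
        ring
      have g4 : (Real.exp (2 * u + b) * (1 + Real.exp b * β)) * (w k (y - 1) * (p k * B)) ≤ β' * (w k (y - 1) * (p k * B)) :=
        mul_le_mul_of_nonneg_right hnum (by have := hw k (y - 1); positivity)
      have g5 : β' * (w k (y - 1) * (p k * B)) ≤ β' * (w k (y - 1) * (A + p k * B)) := by
        refine mul_le_mul_of_nonneg_left ?_ (by rw [hβ']; exact (Real.exp_pos _).le)
        exact mul_le_mul_of_nonneg_left (by linarith) (hw k (y - 1)).le
      linarith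
    linarith

/-- The lower half. -/
theorem dn78 (hw : ∀ k y, 0 < w k y) (hp : ∀ k, 0 < p k) {u b : ℝ} (hu : 0 ≤ u) (hb : 0 ≤ b) (j : ℕ) :
    ∀ (m k : ℕ) (y : ℤ), Wnd w p u b m k y →
      bw w p k (m + j) (y - 1) ≤ Real.exp ((2 * u + 2 * b + 1) * m) * bw w p k (m + j) y + DD w p j m k (y - 1)
  | 0, k, y, _ => by
    rw [DD_zero, Nat.zero_add]
    have h1 := bw_pos hw hp j k y
    have : 0 < Real.exp ((2 * u + 2 * b + 1) * ((0 : ℕ) : ℝ)) := Real.exp_pos _
    nlinarith [mul_pos this h1]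
  | m + 1, k, y, h => by
    have ih := dn78 hw hp hu hb j m (k + 1) y h.dn
    have e1 : m + 1 + j = (m + j) + 1 := by ring
    rw [e1, bw_succ, bw_succ, DD_succ]
    have e2 : y - 1 + 1 = y := by ring
    rw [e2]
    obtain ⟨A, hA⟩ : ∃ A, A = bw w p (k + 1) (m + j) (y - 1) := ⟨_, rfl⟩
    obtain ⟨B, hB⟩ : ∃ B, B = bw w p (k + 1) (m + j) y := ⟨_, rfl⟩
    obtain ⟨C, hC⟩ : ∃ C, C = bw w p (k + 1) (m + j) (y + 1) := ⟨_, rfl⟩
    obtain ⟨D, hD⟩ : ∃ D, D = DD w p j m (k + 1) (y - 1) := ⟨_, rfl⟩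
    obtain ⟨β, hβ⟩ : ∃ β, β = Real.exp ((2 * u + 2 * b + 1) * m) := ⟨_, rfl⟩
    obtain ⟨β', hβ'⟩ : ∃ β', β' = Real.exp ((2 * u + 2 * b + 1) * ((m + 1 : ℕ) : ℝ)) := ⟨_, rfl⟩
    have hA0 : 0 < A := by rw [hA]; exact bw_pos hw hp _ _ _
    have hB0 : 0 < B := by rw [hB]; exact bw_pos hw hp _ _ _
    have hC0 : 0 < C := by rw [hC]; exact bw_pos hw hp _ _ _
    have hD0 : 0 < D := by rw [hD]; exact DD_pos hw hp _ _ _ _
    have hnum := num78 hu hb m
    rw [← hβ, ← hβ'] at hnum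
    rw [← hA, ← hB, ← hD, ← hβ] at ih
    rw [← hA, ← hB, ← hC, ← hD, ← hβ']
    have h0 := h 0 (by omega)
    rw [Nat.add_zero] at h0
    obtain ⟨⟨hp1, hp2⟩, hw1⟩ := h0
    have h1 := hw1 y (by omega) (by simp)
    have h2 := hw1 (y - 1) (by omega) (by push_cast; omega)
    have hpk := hp k
    have hβ1 : 1 ≤ β := by rw [hβ]; exact Real.one_le_exp (by positivity)
    have eu : Real.exp (-u) * Real.exp u = 1 := by rw [← Real.exp_add]; simp
    have hEu := Real.exp_pos u
    have hEb1 : (1 : ℝ) ≤ Real.exp b := Real.one_le_exp hb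
    have h3 : w k (y - 1) ≤ Real.exp (2 * u) * w k y := by
      have : Real.exp (2 * u) = Real.exp u * Real.exp u := by rw [← Real.exp_add]; ring_nf
      rw [this]
      nlinarith [mul_le_mul_of_nonneg_left h1.1 (mul_pos hEu hEu).le]
    have h5 : w k (y - 1) * (A + p k * B) ≤ w k (y - 1) * ((β + p k) * B) + w k (y - 1) * D := by
      rw [← mul_add]
      refine mul_le_mul_of_nonneg_left ?_ (hw k (y - 1)).le
      nlinarith
    have h6 : β + p k ≤ Real.exp b * (1 + Real.exp b * β) := by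
      have g1 : β ≤ Real.exp b * (Real.exp b * β) := by nlinarith [mul_le_mul_of_nonneg_left hEb1 (by positivity : (0 : ℝ) ≤ Real.exp b)]
      nlinarith
    have h7 : w k (y - 1) * ((β + p k) * B) ≤ β' * (w k y * (B + p k * C)) := by
      have g1 : w k (y - 1) * ((β + p k) * B) ≤ (Real.exp (2 * u) * w k y) * ((Real.exp b * (1 + Real.exp b * β)) * B) := by
        refine mul_le_mul h3 (mul_le_mul_of_nonneg_right h6 hB0.le) (by positivity) (by have := hw k y; positivity)
      have g3 : (Real.exp (2 * u) * w k y) * ((Real.exp b * (1 + Real.exp b * β)) * B) =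
          (Real.exp (2 * u + b) * (1 + Real.exp b * β)) * (w k y * B) := by
        rw [Real.exp_add]
        ring
      have g4 : (Real.exp (2 * u + b) * (1 + Real.exp b * β)) * (w k y * B) ≤ β' * (w k y * B) :=
        mul_le_mul_of_nonneg_right hnum (by have := hw k y; positivity)
      have g5 : β' * (w k y * B) ≤ β' * (w k y * (B + p k * C)) := by
        refine mul_le_mul_of_nonneg_left ?_ (by rw [hβ']; exact (Real.exp_pos _).le)
        refine mul_le_mul_of_nonneg_left ?_ (hw k y).le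
        nlinarith [mul_pos hpk hC0]
      linarith
    linarith

/-- Ratios from the two halves. -/
theorem logs78 {a b c d : ℝ} (ha : 0 < a) (hb : 0 < b) (h1 : a ≤ 2 * Real.exp c * b) (h2 : b ≤ 2 * Real.exp c * a) (hd : c + 1 ≤ d) :
    |Real.log a - Real.log b| ≤ d := by
  have h0 : Real.log 2 ≤ 1 := by
    have := Real.log_two_lt_d9
    linarith
  have e : Real.log (2 * Real.exp c) = Real.log 2 + c := by
    rw [Real.log_mul two_ne_zero (Real.exp_pos _).ne', Real.log_exp]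
  have h3 := Real.log_le_log ha h1
  have h4 := Real.log_le_log hb h2
  rw [Real.log_mul (by positivity) hb.ne', e] at h3
  rw [Real.log_mul (by positivity) ha.ne', e] at h4
  rw [abs_le]
  constructor <;> linarith

/-- **Neighbouring sites**: if the paths with `m` equal steps first have at most half of the mass. -/
theorem nbr_det (hw : ∀ k y, 0 < w k y) (hp : ∀ k, 0 < p k) {u b : ℝ} (hu : 0 ≤ u) (hb : 0 ≤ b) {j m k : ℕ} {y : ℤ}
    (h : Wnd w p u b m k y) (hU : DU w p j m k y ≤ 1 / 2 * bw w p k (m + j) y)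
    (hD : DD w p j m k (y - 1) ≤ 1 / 2 * bw w p k (m + j) (y - 1)) :
    |Real.log (bw w p k (m + j) y) - Real.log (bw w p k (m + j) (y - 1))| ≤ (2 * u + 2 * b + 1) * m + 1 := by
  have h1 := up78 hw hp hu hb j m k y h
  have h2 := dn78 hw hp hu hb j m k y h
  refine logs78 (c := (2 * u + 2 * b + 1) * m) (bw_pos hw hp _ _ _) (bw_pos hw hp _ _ _) ?_ ?_ le_rfl
  · linarith
  · linarith

/-- All steps equal to `1`, no row left. -/
theorem DU_le (hw : ∀ k y, 0 < w k y) (hp : ∀ k, 0 < p k) {u b : ℝ} : ∀ (m k : ℕ) (y : ℤ), Wnd w p u b m k y →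
    DU w p 0 m k y ≤ Real.exp ((u + b) * m)
  | 0, k, y, _ => by
    rw [DU_zero, bw_zero]
    simp
  | m + 1, k, y, h => by
    have ih := DU_le hw hp m (k + 1) (y + 1) h.up
    rw [DU_succ]
    have h0 := h 0 (by omega)
    rw [Nat.add_zero] at h0
    obtain ⟨⟨hp1, hp2⟩, hw1⟩ := h0
    have h1 := hw1 y (by omega) (by simp)
    have e : Real.exp ((u + b) * ((m + 1 : ℕ) : ℝ)) = Real.exp u * (Real.exp b * Real.exp ((u + b) * m)) := by
      rw [← Real.exp_add, ← Real.exp_add]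
      congr 1
      push_cast
      ring
    rw [e]
    have h3 := DU_pos hw hp 0 m (k + 1) (y + 1)
    have h4 := hp k
    exact mul_le_mul h1.2 (mul_le_mul hp2 ih h3.le (Real.exp_pos _).le) (by positivity) (Real.exp_pos _).le

theorem DD_le (hw : ∀ k y, 0 < w k y) (hp : ∀ k, 0 < p k) {u b : ℝ} : ∀ (m k : ℕ) (y : ℤ), Wnd w p u b m k y →
    DD w p 0 m k (y - 1) ≤ Real.exp (u * m)
  | 0, k, y, _ => by
    rw [DD_zero, bw_zero]
    simp
  | m + 1, k, y, h => by
    have ih := DD_le hw hp m (k + 1) y h.dn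
    rw [DD_succ]
    have h0 := h 0 (by omega)
    rw [Nat.add_zero] at h0
    obtain ⟨⟨hp1, hp2⟩, hw1⟩ := h0
    have h1 := hw1 (y - 1) (by omega) (by push_cast; omega)
    have e : Real.exp (u * ((m + 1 : ℕ) : ℝ)) = Real.exp u * Real.exp (u * m) := by
      rw [← Real.exp_add]
      congr 1
      push_cast
      ring
    rw [e]
    have h3 := DD_pos hw hp 0 m (k + 1) (y - 1)
    exact mul_le_mul h1.2 ih h3.le (Real.exp_pos _).le

/-- The mass is at least the one of the straight path. -/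
theorem le_bw78 (hw : ∀ k y, 0 < w k y) (hp : ∀ k, 0 < p k) {u : ℝ} (z : ℤ) : ∀ (m k : ℕ), (∀ i < m, Real.exp (-u) ≤ w (k + i) z) →
    Real.exp (-(u * m)) ≤ bw w p k m z
  | 0, k, _ => by
    rw [bw_zero]
    simp
  | m + 1, k, h => by
    have ih := le_bw78 hw hp z m (k + 1) fun i hi => by
      have := h (i + 1) (by omega)
      have e : k + (i + 1) = k + 1 + i := by ring
      rwa [e] at this
    rw [bw_succ]
    have h0 := h 0 (by omega)
    rw [Nat.add_zero] at h0
    have h2 := bw_pos hw hp m (k + 1) (z + 1)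
    have h3 := hp k
    have e : Real.exp (-(u * ((m + 1 : ℕ) : ℝ))) = Real.exp (-u) * Real.exp (-(u * m)) := by
      rw [← Real.exp_add]
      congr 1
      push_cast
      ring
    rw [e]
    exact mul_le_mul h0 (by nlinarith [mul_pos h3 h2]) (Real.exp_pos _).le (hw k z).le

/-- Few rows left. -/
theorem nbr_few (hw : ∀ k y, 0 < w k y) (hp : ∀ k, 0 < p k) {u b : ℝ} (hu : 0 ≤ u) (hb : 0 ≤ b) {m k : ℕ} {y : ℤ}
    (h : Wnd w p u b m k y) :
    |Real.log (bw w p k m y) - Real.log (bw w p k m (y - 1))| ≤ (2 * u + 2 * b + 1) * m + 1 := by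
  have h1 := up78 hw hp hu hb 0 m k y h
  have h2 := dn78 hw hp hu hb 0 m k y h
  rw [Nat.add_zero] at h1 h2
  have h3 := DU_le hw hp m k y h
  have h4 := DD_le hw hp m k y h
  have h5 := le_bw78 hw hp (u := u) y m k fun i hi => ((h i hi).2 y (by omega) (by omega)).1
  have h6 := le_bw78 hw hp (u := u) (y - 1) m k fun i hi => ((h i hi).2 (y - 1) (by omega) (by omega)).1
  have e1 : Real.exp ((u + b) * m) ≤ Real.exp ((2 * u + 2 * b + 1) * m) * Real.exp (-(u * m)) := by
    rw [← Real.exp_add]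
    refine Real.exp_le_exp.2 ?_
    have : 0 ≤ (b + 1) * (m : ℝ) := by positivity
    nlinarith
  have e2 : Real.exp (u * m) ≤ Real.exp ((2 * u + 2 * b + 1) * m) * Real.exp (-(u * m)) := by
    rw [← Real.exp_add]
    refine Real.exp_le_exp.2 ?_
    have : 0 ≤ (2 * b + 1) * (m : ℝ) := by positivity
    nlinarith
  have hE := Real.exp_pos ((2 * u + 2 * b + 1) * (m : ℝ))
  refine logs78 (c := (2 * u + 2 * b + 1) * m) (bw_pos hw hp _ _ _) (bw_pos hw hp _ _ _) ?_ ?_ le_rfl
  · nlinarith [mul_le_mul_of_nonneg_left h6 hE.le]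
  · nlinarith [mul_le_mul_of_nonneg_left h5 hE.le]

/-- The mediant. -/
theorem mediant78 {a b a' b' p c : ℝ} (ha : 0 < a) (hb : 0 < b) (ha' : 0 < a') (hb' : 0 < b') (hp : 0 < p)
    (h1 : |Real.log a - Real.log a'| ≤ c) (h2 : |Real.log b - Real.log b'| ≤ c) :
    |Real.log (a + p * b) - Real.log (a' + p * b')| ≤ c := by
  have key : ∀ {a b a' b' : ℝ}, 0 < a → 0 < b → 0 < a' → 0 < b' → Real.log a - Real.log a' ≤ c → Real.log b - Real.log b' ≤ c →
      Real.log (a + p * b) - Real.log (a' + p * b') ≤ c := by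
    intro a b a' b' ha hb ha' hb' h1 h2
    have g1 : a ≤ Real.exp c * a' := by
      have : Real.log a ≤ Real.log (Real.exp c * a') := by
        rw [Real.log_mul (Real.exp_pos _).ne' ha'.ne', Real.log_exp]
        linarith
      exact (Real.log_le_log_iff ha (by positivity)).1 this
    have g2 : b ≤ Real.exp c * b' := by
      have : Real.log b ≤ Real.log (Real.exp c * b') := by
        rw [Real.log_mul (Real.exp_pos _).ne' hb'.ne', Real.log_exp]
        linarith
      exact (Real.log_le_log_iff hb (by positivity)).1 this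
    have g3 : a + p * b ≤ Real.exp c * (a' + p * b') := by nlinarith
    have g4 := Real.log_le_log (by positivity : 0 < a + p * b) g3
    rw [Real.log_mul (Real.exp_pos _).ne' (by positivity), Real.log_exp] at g4
    linarith
  rw [abs_le] at h1 h2 ⊢
  have k1 := key ha hb ha' hb' h1.2 h2.2
  have k2 := key ha' hb' ha hb (by linarith [h1.1]) (by linarith [h2.1])
  exact ⟨by linarith, k1⟩

/-- From the rows to `GG`. -/
theorem GG78 (hw : ∀ k y, 0 < w k y) (hp : ∀ k, 0 < p k) {N k : ℕ} {y : ℤ} {c : ℝ}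
    (h1 : |Real.log (bw w p (k + 1) (N - (k + 1)) y) - Real.log (bw w p (k + 1) (N - (k + 1)) (y - 1))| ≤ c)
    (h2 : |Real.log (bw w p (k + 1) (N - (k + 1)) (y + 1)) - Real.log (bw w p (k + 1) (N - (k + 1)) (y + 1 - 1))| ≤ c) :
    |Real.log (GG w p N k y) - Real.log (GG w p N k (y - 1))| ≤ c := by
  have e1 : y + 1 - 1 = y := by ring
  have e2 : y - 1 + 1 = y := by ring
  rw [e1] at h2
  unfold GG
  rw [e2]
  exact mediant78 (bw_pos hw hp _ _ _) (bw_pos hw hp _ _ _) (bw_pos hw hp _ _ _) (bw_pos hw hp _ _ _) (hp k) h1 h2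

/-! ### The comparison of two step weights -/

variable {q : ℕ → ℝ}

theorem bw_cmp (hw : ∀ k y, 0 < w k y) (hp : ∀ k, 0 < p k) (hq : ∀ k, 0 < q k) {a : ℝ} (ha : 0 ≤ a) {M : ℕ}
    (h1 : ∀ i, i < M → p i ≤ Real.exp a * q i) (h2 : ∀ i, M ≤ i → p i ≤ q i) :
    ∀ (j k : ℕ) (y : ℤ), bw w p k j y ≤ Real.exp (a * ((M - k : ℕ) : ℝ)) * bw w q k j y
  | 0, k, y => by
    rw [bw_zero, bw_zero, mul_one]
    exact Real.one_le_exp (by positivity)
  | j + 1, k, y => by
    have ih1 := bw_cmp hw hp hq ha h1 h2 j (k + 1) y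
    have ih2 := bw_cmp hw hp hq ha h1 h2 j (k + 1) (y + 1)
    rw [bw_succ, bw_succ]
    have b1 := bw_pos hw hq j (k + 1) y
    have b2 := bw_pos hw hq j (k + 1) (y + 1)
    have b3 := bw_pos hw hp j (k + 1) (y + 1)
    have hqk := hq k
    have hpk := hp k
    obtain ⟨E, hE⟩ : ∃ E, E = Real.exp (a * ((M - (k + 1) : ℕ) : ℝ)) := ⟨_, rfl⟩
    obtain ⟨E', hE'⟩ : ∃ E', E' = Real.exp (a * ((M - k : ℕ) : ℝ)) := ⟨_, rfl⟩
    rw [← hE] at ih1 ih2
    rw [← hE']
    have hE0 : 0 < E := by rw [hE]; exact Real.exp_pos _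
    have hEE : E ≤ E' := by
      rw [hE, hE']
      refine Real.exp_le_exp.2 (mul_le_mul_of_nonneg_left ?_ ha)
      exact_mod_cast (by omega : M - (k + 1) ≤ M - k)
    have hpq : p k * E ≤ E' * q k := by
      by_cases hk : k < M
      · have e : E' = Real.exp a * E := by
          rw [hE, hE', ← Real.exp_add]
          congr 1
          have : ((M - k : ℕ) : ℝ) = ((M - (k + 1) : ℕ) : ℝ) + 1 := by
            have : M - k = M - (k + 1) + 1 := by omega
            rw [this]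
            push_cast
            ring
          rw [this]
          ring
        rw [e]
        have := mul_le_mul_of_nonneg_right (h1 k hk) hE0.le
        linarith
      · have := h2 k (by omega)
        nlinarith
    have g1 : bw w p (k + 1) j y ≤ E' * bw w q (k + 1) j y := ih1.trans (mul_le_mul_of_nonneg_right hEE b1.le)
    have g2 : p k * bw w p (k + 1) j (y + 1) ≤ E' * (q k * bw w q (k + 1) j (y + 1)) := by
      have t1 : p k * bw w p (k + 1) j (y + 1) ≤ p k * (E * bw w q (k + 1) j (y + 1)) := mul_le_mul_of_nonneg_left ih2 hpk.le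
      have t2 : p k * (E * bw w q (k + 1) j (y + 1)) ≤ E' * (q k * bw w q (k + 1) j (y + 1)) := by
        have := mul_le_mul_of_nonneg_right hpq b2.le
        linarith
      linarith
    have h3 := mul_le_mul_of_nonneg_left (add_le_add g1 g2) (hw k y).le
    linarith

theorem DU_cmp (hw : ∀ k y, 0 < w k y) (hp : ∀ k, 0 < p k) (hq : ∀ k, 0 < q k) {a : ℝ} (ha : 0 ≤ a) {M : ℕ}
    (h1 : ∀ i, i < M → p i ≤ Real.exp a * q i) (h2 : ∀ i, M ≤ i → p i ≤ q i) (j : ℕ) :
    ∀ (m k : ℕ) (y : ℤ), DU w p j m k y ≤ Real.exp (a * ((M - k : ℕ) : ℝ)) * DU w q j m k y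
  | 0, k, y => by
    rw [DU_zero, DU_zero]
    exact bw_cmp hw hp hq ha h1 h2 j k y
  | m + 1, k, y => by
    have ih := DU_cmp hw hp hq ha h1 h2 j m (k + 1) (y + 1)
    rw [DU_succ, DU_succ]
    have b2 := DU_pos hw hq j m (k + 1) (y + 1)
    have hqk := hq k
    have hpk := hp k
    obtain ⟨E, hE⟩ : ∃ E, E = Real.exp (a * ((M - (k + 1) : ℕ) : ℝ)) := ⟨_, rfl⟩
    obtain ⟨E', hE'⟩ : ∃ E', E' = Real.exp (a * ((M - k : ℕ) : ℝ)) := ⟨_, rfl⟩
    rw [← hE] at ih
    rw [← hE']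
    have hE0 : 0 < E := by rw [hE]; exact Real.exp_pos _
    have hEE : E ≤ E' := by
      rw [hE, hE']
      refine Real.exp_le_exp.2 (mul_le_mul_of_nonneg_left ?_ ha)
      exact_mod_cast (by omega : M - (k + 1) ≤ M - k)
    have hpq : p k * E ≤ E' * q k := by
      by_cases hk : k < M
      · have e : E' = Real.exp a * E := by
          rw [hE, hE', ← Real.exp_add]
          congr 1
          have : ((M - k : ℕ) : ℝ) = ((M - (k + 1) : ℕ) : ℝ) + 1 := by
            have : M - k = M - (k + 1) + 1 := by omega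
            rw [this]
            push_cast
            ring
          rw [this]
          ring
        rw [e]
        have := mul_le_mul_of_nonneg_right (h1 k hk) hE0.le
        linarith
      · have := h2 k (by omega)
        nlinarith
    have g2 : p k * DU w p j m (k + 1) (y + 1) ≤ E' * (q k * DU w q j m (k + 1) (y + 1)) := by
      have t1 : p k * DU w p j m (k + 1) (y + 1) ≤ p k * (E * DU w q j m (k + 1) (y + 1)) := mul_le_mul_of_nonneg_left ih hpk.le
      have t2 := mul_le_mul_of_nonneg_right hpq b2.le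
      linarith
    have h3 := mul_le_mul_of_nonneg_left g2 (hw k y).le
    linarith

theorem DD_cmp (hw : ∀ k y, 0 < w k y) (hp : ∀ k, 0 < p k) (hq : ∀ k, 0 < q k) {a : ℝ} (ha : 0 ≤ a) {M : ℕ}
    (h1 : ∀ i, i < M → p i ≤ Real.exp a * q i) (h2 : ∀ i, M ≤ i → p i ≤ q i) (j : ℕ) :
    ∀ (m k : ℕ) (y : ℤ), DD w p j m k y ≤ Real.exp (a * ((M - k : ℕ) : ℝ)) * DD w q j m k y
  | 0, k, y => by
    rw [DD_zero, DD_zero]
    exact bw_cmp hw hp hq ha h1 h2 j k y
  | m + 1, k, y => by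
    have ih := DD_cmp hw hp hq ha h1 h2 j m (k + 1) y
    rw [DD_succ, DD_succ]
    have b2 := DD_pos hw hq j m (k + 1) y
    have hEE : Real.exp (a * ((M - (k + 1) : ℕ) : ℝ)) ≤ Real.exp (a * ((M - k : ℕ) : ℝ)) := by
      refine Real.exp_le_exp.2 (mul_le_mul_of_nonneg_left ?_ ha)
      exact_mod_cast (by omega : M - (k + 1) ≤ M - k)
    have g2 := ih.trans (mul_le_mul_of_nonneg_right hEE b2.le)
    have h3 := mul_le_mul_of_nonneg_left g2 (hw k y).le
    linarith

/-- The comparison of the shares: the tilted rows are few. -/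
theorem share78 {d d' r r' E x : ℝ} (hE : 1 ≤ E) (hd : d ≤ E * d') (hr : r' ≤ E * r) (hx : d' ≤ x * r')
    (hx2 : E * E * x ≤ 1 / 2) (hr0 : 0 ≤ r) (hx0 : 0 ≤ x) : d ≤ 1 / 2 * r := by
  have h1 : d ≤ E * (x * (E * r)) := by
    refine hd.trans (mul_le_mul_of_nonneg_left (hx.trans (mul_le_mul_of_nonneg_left hr hx0)) (by linarith))
  have h2 : E * (x * (E * r)) = (E * E * x) * r := by ring
  rw [h2] at h1
  exact h1.trans (mul_le_mul_of_nonneg_right hx2 hr0)

end

end Pool.Agent.W_7d29a1_C1.Nbr78
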