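import Pool.Agent.W_7d29a1_C1.WinG84
import Pool.Agent.W_7d29a1_C1.FutE78

/-!
MP_7d29a1_pr, C1 (helper78): `comp84` of helper84 (the composite polymer stays in the window) for ALL lengths `L ≤ K ^ p` of the part
without the tilt (its proof, with `futE78` in place of `FUT84`), and for every start.
-/

set_option autoImplicit false

namespace Pool.Agent.W_7d29a1_C1.Nbr78

open MeasureTheory ProbabilityTheory Filter Topology Finset
open Pool.Agent.W_7d29a1_F Pool.Agent.W_7d29a1_X Pool.Agent.W_7d29a1_h4g Pool.Agent.W_7d29a1_H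
open Pool.Agent.W_7d29a1_HS (In wd md md_abs wd_ge_one)
open Pool.Agent.W_7d29a1_L (T kap exp_T exp_T_add)
open Pool.Agent.W_7d29a1_HZ (gp P1 NSp ns PBox pbox wd' EE' EE'_pow wd'_pow)
open Pool.Agent.W_7d29a1_HZ.Z21 (ev_pow94)
open Pool.Agent.W_7d29a1_C1.Win84
open scoped ENNReal

noncomputable section

variable {μ : Measure ℝ} {s : ℝ} [IsProbabilityMeasure μ] {c C : ℝ} {n₀ : ℕ}

set_option maxHeartbeats 1000000 in
/-- **The composite polymer stays in the window, and its free energy is not larger than the one of the future plus `K ^ ε` units.** -/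
theorem comp78_zero (h : In μ s c C n₀) (hL : LB84 μ s) (hU : UB84 μ s) : ∀ ε : ℝ, 0 < ε → ∀ p : ℝ, ∃ κ c' : ℝ,
    0 < κ ∧ 0 < c' ∧ ∃ K₀ : ℕ, ∀ K : ℕ, K₀ ≤ K → ∀ L : ℕ, (L : ℝ) ≤ (K : ℝ) ^ p → ∀ m k : ℕ, 1 ≤ m → m + k = K →
    ∀ t : ℝ, |t| * EE μ s K ≤ (K : ℝ) ^ κ →
    (law μ).real {η | ¬ (QV μ s t η 0 m k L (bd μ s K ε m) ≤ Real.exp (-(K : ℝ) ^ c') * Real.exp (TG μ s t K L η 0) ∧
      TG μ s t K L η 0 ≤ V μ s η ((K : ℤ), md μ s K) L + (K : ℝ) ^ ε * EE μ s K)} ≤ Real.exp (-(K : ℝ) ^ c') := by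
  intro ε hε p
  obtain ⟨δ₁, c₁, hδ₁, hc₁, L₁, hpin⟩ := pin84 h hε
  obtain ⟨δ, hδd⟩ : ∃ δ : ℝ, δ = min (min δ₁ 1) ε := ⟨_, rfl⟩
  have hδ0 : 0 < δ := by rw [hδd]; positivity
  have hδ1 : δ ≤ 1 := by rw [hδd]; exact (min_le_left _ _).trans (min_le_right _ _)
  have hδδ : δ ≤ δ₁ := by rw [hδd]; exact (min_le_left _ _).trans (min_le_left _ _)
  have hδε : δ ≤ ε := by rw [hδd]; exact min_le_right _ _
  obtain ⟨δ₂, c₂, hδ₂, hc₂, L₂, hbox⟩ := pbox h (δ / 8) (by positivity)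
  obtain ⟨B, hB, n₁, hn₁, hup⟩ := up_T h
  obtain ⟨a', K2, ha', ha'1, hK2, hE⟩ := EE'_pow h
  obtain ⟨K1, hK1, hsc⟩ := scale84 h hL
  obtain ⟨κ₀, hκ₀, hsc⟩ := hsc δ hδ0 hδ1
  obtain ⟨e, hed⟩ : ∃ e : ℝ, e = min (κ₀ / 8) (δ / 8) := ⟨_, rfl⟩
  have he0 : 0 < e := by rw [hed]; positivity
  have he1 : e ≤ κ₀ / 8 := by rw [hed]; exact min_le_left _ _
  have he2 : e ≤ δ / 8 := by rw [hed]; exact min_le_right _ _
  obtain ⟨nU, hU⟩ := hU (κ₀ / 8) (by positivity)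
  obtain ⟨c₃, hc₃, T₀, hF⟩ := futE78 h e he0 p
  obtain ⟨C5, hC5⟩ : ∃ C5 : ℝ, C5 = C * (1 + 3 * Real.log B) + 3 := ⟨_, rfl⟩
  obtain ⟨c', hc'⟩ : ∃ c' : ℝ, c' = min (min (min c₁ c₂) c₃) (δ / 4) / 2 := ⟨_, rfl⟩
  have hm0 : 0 < min (min (min c₁ c₂) c₃) (δ / 4) := by positivity
  have hc'0 : 0 < c' := by rw [hc']; linarith
  have hc'1 : c' < c₁ := by
    have := (min_le_left (min (min c₁ c₂) c₃) (δ / 4)).trans ((min_le_left _ _).trans (min_le_left _ _))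
    rw [hc']; linarith
  have hc'2 : c' < c₂ := by
    have := (min_le_left (min (min c₁ c₂) c₃) (δ / 4)).trans ((min_le_left _ _).trans (min_le_right _ _))
    rw [hc']; linarith
  have hc'4 : c' < c₃ := by
    have := (min_le_left (min (min c₁ c₂) c₃) (δ / 4)).trans (min_le_right _ _)
    rw [hc']; linarith
  have hc'3 : c' < δ / 4 := by
    have := min_le_right (min (min c₁ c₂) c₃) (δ / 4)
    rw [hc']; linarith
  have ev1 := ev_pow94 0 (A := 12) (a := 1) (s := δ / 4) (c' := c') (by norm_num) one_pos hc'3 (by positivity)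
  have ev2 := ev_pow94 0 (A := 3) (a := 1) (s := c₂) (c' := c') (by norm_num) one_pos hc'2 hc₂
  have ev3 := ev_pow94 1 (A := 1) (a := 1 / 2) (s := c₁) (c' := c') (by norm_num) (by norm_num) hc'1 hc₁
  have ev5 := ev_pow94 0 (A := 3) (a := 1) (s := c₃) (c' := c') (by norm_num) one_pos hc'4 hc₃
  have ev4 := ev84 (K1 / c * 8 * (|C5| + 4 * |K1| + 4)) (show 0 < δ / 8 by positivity)
  have ev6 := ev84 2 (show 0 < κ₀ / 4 by positivity)
  have ev7 := ev84 (|C5| * K2 + 3) (show 0 < ε / 2 by positivity)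
  obtain ⟨K₀, hK₀⟩ := eventually_atTop.1 (ev1.and (ev2.and (ev3.and (ev4.and (ev5.and (ev6.and (ev7.and ((hsc n₁).and
    (eventually_ge_atTop (max (max (max L₁ L₂) 1) (max nU T₀)))))))))))
  refine ⟨κ₀ / 2, c', by positivity, hc'0, K₀, fun K hK L hLp m k hm hmk t ht => ?_⟩
  obtain ⟨h1, h2, h3, h4, h1a, h1b, h1c, ⟨r, hr1, hr1', hrK, hwr, hEr, hkr, htr⟩, h5⟩ := hK₀ K hK
  have g1 : L₁ ≤ K := (le_max_left _ _).trans ((le_max_left _ _).trans ((le_max_left _ _).trans h5))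
  have g2 : L₂ ≤ K := (le_max_right _ _).trans ((le_max_left _ _).trans ((le_max_left _ _).trans h5))
  have g3 : 1 ≤ K := (le_max_right _ _).trans ((le_max_left _ _).trans h5)
  have g4 : nU ≤ K := (le_max_left _ _).trans ((le_max_right _ _).trans h5)
  have g5 : T₀ ≤ K := (le_max_right _ _).trans ((le_max_right _ _).trans h5)
  have hK0 : (0 : ℝ) < K := by exact_mod_cast g3
  have hK1R : (1 : ℝ) ≤ K := by exact_mod_cast g3
  obtain ⟨a, ha⟩ : ∃ a : ℝ, a = (K : ℝ) ^ (δ / 8) := ⟨_, rfl⟩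
  rw [← ha] at h4 hEr hkr
  have ha1 : 1 ≤ a := by rw [ha]; exact Real.one_le_rpow hK1R (by positivity)
  have ha2 : a ^ 2 = (K : ℝ) ^ (δ / 4) := by
    rw [ha, ← Real.rpow_natCast, ← Real.rpow_mul hK0.le]
    congr 1
    push_cast
    ring
  have ha8 : a ^ 8 = (K : ℝ) ^ δ := by
    rw [ha, ← Real.rpow_natCast, ← Real.rpow_mul hK0.le]
    congr 1
    push_cast
    ring
  have haa : a ≤ a ^ 2 := le_self_pow₀ ha1 two_ne_zero
  have hEr1 := one_le_EE (μ := μ) (s := s) r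
  have hEK1 := one_le_EE (μ := μ) (s := s) K
  have hwr2 := wd_ge_one h hr1'
  have hwr0 : 0 < wd μ s r := by linarith
  have hwK := wd_two h g3
  have hwK0 : 0 < wd μ s K := by linarith
  have hc0 := h.c0
  have hc1 := h.c1
  have hC1 := h.C1
  -- the slope of the future
  obtain ⟨F, hFd⟩ : ∃ F : ℝ, F = (K : ℝ) ^ e * EE μ s K := ⟨_, rfl⟩
  have hF0 : 0 ≤ F := by rw [hFd]; positivity
  obtain ⟨h'', hh''⟩ : ∃ h'' : ℝ, h'' = 2 * F / wd μ s K := ⟨_, rfl⟩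
  have hh''0 : 0 ≤ h'' := by rw [hh'']; positivity
  have hea : (K : ℝ) ^ e ≤ a := by rw [ha]; exact Real.rpow_le_rpow_of_exponent_le hK1R he2
  have hh''E : h'' * EE μ s K ≤ (K : ℝ) ^ (κ₀ / 2) := by
    have q1 := hU K g4
    have q2 : h'' * EE μ s K = 2 * (K : ℝ) ^ e * (EE μ s K ^ 2 / wd μ s K) := by
      rw [hh'', hFd]
      field_simp
    have q3 : EE μ s K ^ 2 / wd μ s K ≤ (K : ℝ) ^ (κ₀ / 8) := by
      rw [div_le_iff₀ hwK0]
      exact q1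
    rw [q2]
    calc 2 * (K : ℝ) ^ e * (EE μ s K ^ 2 / wd μ s K) ≤ (K : ℝ) ^ (κ₀ / 4) * (K : ℝ) ^ (κ₀ / 8) * (K : ℝ) ^ (κ₀ / 8) := by
          refine mul_le_mul (mul_le_mul h1b (Real.rpow_le_rpow_of_exponent_le hK1R he1) (by positivity) (by positivity)) q3
            (by positivity) (by positivity)
      _ = (K : ℝ) ^ (κ₀ / 2) := by
        rw [← Real.rpow_add hK0, ← Real.rpow_add hK0]
        congr 1
        ring
  have htt : |(|t| + h'')| * EE μ s K ≤ (K : ℝ) ^ κ₀ := by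
    rw [abs_of_nonneg (by positivity), add_mul]
    calc |t| * EE μ s K + h'' * EE μ s K ≤ (K : ℝ) ^ (κ₀ / 2) + (K : ℝ) ^ (κ₀ / 2) := add_le_add ht hh''E
      _ = 2 * (K : ℝ) ^ (κ₀ / 2) := by ring
      _ ≤ (K : ℝ) ^ (κ₀ / 4) * (K : ℝ) ^ (κ₀ / 2) := mul_le_mul_of_nonneg_right h1b (by positivity)
      _ = (K : ℝ) ^ (κ₀ / 4 + κ₀ / 2) := (Real.rpow_add hK0 _ _).symm
      _ ≤ (K : ℝ) ^ κ₀ := Real.rpow_le_rpow_of_exponent_le hK1R (by linarith)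
  have htr' := htr _ htt
  rw [abs_of_nonneg (show 0 ≤ |t| + h'' by positivity)] at htr'
  obtain ⟨h', hh'⟩ : ∃ h' : ℝ, h' = c / 2 * (EE μ s r / wd μ s r) := ⟨_, rfl⟩
  rw [← hh'] at htr'
  have hh'0 : 0 ≤ h' := by rw [hh']; positivity
  have hwh : h' * wd μ s r = c / 2 * EE μ s r := by
    rw [hh']
    field_simp
  have hadm : ∀ z : ℝ, |z| ≤ h' → |z| * wd μ s r ≤ c / 2 * EE μ s r := fun z hz => by
    rw [← hwh]
    exact mul_le_mul_of_nonneg_right hz hwr0.le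
  have hh'w : |h'| * wd μ s r ≤ c / 2 * EE μ s r := hadm _ (by rw [abs_of_nonneg hh'0])
  have hh'w2 : |-h'| * wd μ s r ≤ c / 2 * EE μ s r := hadm _ (by rw [abs_neg, abs_of_nonneg hh'0])
  have ht0 := abs_nonneg t
  have hp1 : |t + h''| * wd μ s r ≤ c / 2 * EE μ s r := hadm _ (by
    have := abs_add_le t h''
    rw [abs_of_nonneg hh''0] at this
    linarith)
  have hp2 : |t - h''| * wd μ s r ≤ c / 2 * EE μ s r := hadm _ (by
    have := abs_sub t h''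
    rw [abs_of_nonneg hh''0] at this
    linarith)
  have ht1 := Pool.Agent.W_7d29a1_HZ.Z94.t_le_one h hr1' hh'w
  rw [abs_of_nonneg hh'0] at ht1
  have htabs : |t| ≤ 1 := by linarith
  -- the tails
  have u1 := hup r hr1 h' hh'w K (a ^ 2)
  have u2 := hup r hr1 (-h') hh'w2 K (a ^ 2)
  have u3 := hup r hr1 (t + h'') hp1 K (a ^ 2)
  have u4 := hup r hr1 (t - h'') hp2 K (a ^ 2)
  obtain ⟨U, hUd⟩ : ∃ U : ℝ, U = C * EE μ s r * (a ^ 2 + (((K / r : ℕ) : ℝ) + 1) * Real.log B) +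
      (((K / r : ℕ) : ℝ) + 1) * EE μ s r := ⟨_, rfl⟩
  rw [← hUd] at u1 u2 u3 u4
  have hlB : 0 ≤ Real.log B := Real.log_nonneg hB
  have hUle : U ≤ C5 * a ^ 2 * EE μ s r := by
    rw [hUd, hC5]
    have e1 : C * EE μ s r * (a ^ 2 + (((K / r : ℕ) : ℝ) + 1) * Real.log B) ≤
        C * EE μ s r * (a ^ 2 + 3 * a ^ 2 * Real.log B) := by gcongr
    have e2 : (((K / r : ℕ) : ℝ) + 1) * EE μ s r ≤ 3 * a ^ 2 * EE μ s r := by gcongr
    refine (add_le_add e1 e2).trans (le_of_eq ?_)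
    ring
  -- the box
  have b1 : (law μ).real {η | ¬ PBox μ s K δ₂ (δ / 8) η} ≤ Real.exp (-(K : ℝ) ^ c₂) :=
    ENNReal.toReal_le_of_le_ofReal (Real.exp_pos _).le (hbox K g2)
  -- the future
  have f1 : (law μ).real {η | sh ((K : ℤ), (0 : ℤ)) η ∈ (FR μ s e K L)ᶜ} ≤ Real.exp (-(K : ℝ) ^ c₃) := by
    rw [real_sh (μ := μ) ((K : ℤ), (0 : ℤ)) (meas_FR (μ := μ) (s := s) e K L).compl]
    exact hF K g5 L hLp
  -- the pinned polymers
  obtain ⟨D, hD⟩ : ∃ D : ℝ, D = a ^ 8 * wd μ s K := ⟨_, rfl⟩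
  have hD0 : 0 ≤ D := by rw [hD]; positivity
  have hDle : D ≤ (K : ℝ) ^ δ₁ * wd' μ s K := by
    rw [hD, ha8, wd'_eq' h g3]
    exact mul_le_mul_of_nonneg_right (Real.rpow_le_rpow_of_exponent_le hK1R hδδ) (by linarith)
  obtain ⟨P, hP⟩ : ∃ P : ℤ → Set Env, P = fun u : ℤ => {η | |(u : ℝ) - sl μ s * K| ≤ D ∧
    ¬ ∑ y ∈ bd μ s K ε m, W μ s η 0 m y * W μ s η ((0 : Pt).1 + m, (0 : Pt).2 + y) k (u - y) ≤
      Real.exp (-(1 / 2 * (K : ℝ) ^ c₁)) * W μ s η 0 K u} := ⟨_, rfl⟩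
  have p1 : (law μ).real (⋃ u ∈ Icc (0 : ℤ) K, P u) ≤ ((Icc (0 : ℤ) K).card : ℝ) * Real.exp (-(1 / 2 * (K : ℝ) ^ c₁)) := by
    refine Pool.Agent.W_7d29a1_HZ.Z21.union94 _ P fun u hu => ?_
    rw [mem_Icc] at hu
    rw [hP]
    by_cases hcone : |(u : ℝ) - sl μ s * K| ≤ D
    · refine (measureReal_mono fun η hη => ?_).trans (hpin K g1 m k hm hmk u hu.1 hu.2 (hcone.trans hDle))
      exact hη.2
    · have : {η : Env | |(u : ℝ) - sl μ s * K| ≤ D ∧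
          ¬ ∑ y ∈ bd μ s K ε m, W μ s η 0 m y * W μ s η ((0 : Pt).1 + m, (0 : Pt).2 + y) k (u - y) ≤
          Real.exp (-(1 / 2 * (K : ℝ) ^ c₁)) * W μ s η 0 K u} = ∅ := by
        ext η
        simp [hcone]
      beta_reduce
      rw [this, measureReal_empty]
      exact (Real.exp_pos _).le
  have hcard : ((Icc (0 : ℤ) K).card : ℝ) = (K : ℝ) + 1 := by
    rw [Int.card_Icc]
    have : ((K : ℤ) + 1 - 0).toNat = K + 1 := by omega
    rw [this]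
    push_cast
    ring
  rw [hcard] at p1
  have hincl : {η | ¬ (QV μ s t η 0 m k L (bd μ s K ε m) ≤ Real.exp (-(K : ℝ) ^ c') * Real.exp (TG μ s t K L η 0) ∧
      TG μ s t K L η 0 ≤ V μ s η ((K : ℤ), md μ s K) L + (K : ℝ) ^ ε * EE μ s K)} ⊆
      ((({η | ¬ T μ s (sl μ s) h' η 0 K ≤ U} ∪ {η | ¬ T μ s (sl μ s) (-h') η 0 K ≤ U}) ∪
        ({η | ¬ T μ s (sl μ s) (t + h'') η 0 K ≤ U} ∪ {η | ¬ T μ s (sl μ s) (t - h'') η 0 K ≤ U})) ∪
        ({η | ¬ PBox μ s K δ₂ (δ / 8) η} ∪ {η | sh ((K : ℤ), (0 : ℤ)) η ∈ (FR μ s e K L)ᶜ})) ∪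
        ⋃ u ∈ Icc (0 : ℤ) K, P u := by
    intro η hη
    by_contra hcon
    simp only [Set.mem_union, not_or] at hcon
    obtain ⟨⟨⟨⟨c1', c2'⟩, c1a, c1b⟩, c3', c3a⟩, c4'⟩ := hcon
    have q1 : T μ s (sl μ s) h' η 0 K ≤ U := not_not.1 c1'
    have q2 : T μ s (sl μ s) (-h') η 0 K ≤ U := not_not.1 c2'
    have q1a : T μ s (sl μ s) (t + h'') η 0 K ≤ U := not_not.1 c1a
    have q2a : T μ s (sl μ s) (t - h'') η 0 K ≤ U := not_not.1 c1b
    have q3 : PBox μ s K δ₂ (δ / 8) η := not_not.1 c3'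
    have q3a : sh ((K : ℤ), (0 : ℤ)) η ∈ FR μ s e K L := not_not.1 c3a
    refine hη ?_
    have hfr := fut_row h K L g3 η q3a
    rw [← hFd, ← hh''] at hfr
    -- the lower bound
    have q4 : X μ s η 0 K (md μ s K) ≤ a * EE μ s K := by
      have q5 := (q3 0 K (by omega) 0 (by simp) (md μ s K) (h.md_nonneg K) (h.md_le_nat K)).2.2 (by
        refine (md_abs K).trans ?_
        have : 1 ≤ (K : ℝ) ^ δ₂ := Real.one_le_rpow hK1R hδ₂.le
        rw [wd'_eq' h g3]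
        exact one_le_mul_of_one_le_of_one_le this (by linarith))
      rw [EE'_eq, ← ha] at q5
      have q6 : W μ s η (((0 : ℕ) : ℤ), 0) K (md μ s K) = W μ s η 0 K (md μ s K) := by
        congr 1
      rw [q6] at q5
      have q7 := Real.log_le_log (Real.exp_pos _) q5
      rw [Real.log_exp] at q7
      unfold X
      linarith
    obtain ⟨Vm, hVm⟩ : ∃ Vm : ℝ, Vm = V μ s η ((K : ℤ), md μ s K) L := ⟨_, rfl⟩
    rw [← hVm] at hfr ⊢
    have q8 : Vm - a * EE μ s K - |t| ≤ TG μ s t K L η 0 := by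
      have q9 := TG_ge (μ := μ) (s := s) (h := t) η 0 K L (h.md_nonneg K) (h.md_le_nat K)
      have e2 : (((0 : Pt).1 + (K : ℤ), (0 : Pt).2 + md μ s K) : Pt) = ((K : ℤ), md μ s K) := by simp
      rw [e2, ← hVm] at q9
      have q10 : |t * ((md μ s K : ℝ) - sl μ s * K)| ≤ |t| * 1 := by
        rw [abs_mul]
        exact mul_le_mul_of_nonneg_left (md_abs K) (abs_nonneg t)
      have q11 := (abs_le.1 q10).1
      linarith
    have hFa : F ≤ a * EE μ s K := by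
      rw [hFd]
      exact mul_le_mul_of_nonneg_right hea (zero_le_one.trans hEK1)
    constructor
    · obtain ⟨Th, hTh⟩ : ∃ Th : ℝ, Th = -(2 * F) - a * EE μ s K - |t| := ⟨_, rfl⟩
      have hTh' : -(4 * K1 * a ^ 2 * EE μ s r) - |t| ≤ Th := low84 ha1 hK1 hEr1 hEr hFa hTh
      have key := num84 (K1 := K1) (K2 := K1) (c := c) (C5 := C5) (D := D) (h' := h') (w := wd μ s K) ha1 hEr1 hwr0 hK1 hc0
        hwr hh' hD (q1.trans hUle) (q2.trans hUle) hTh' htabs h4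
      subst hmk
      have det := loc_comp (h := t) η m k L (bd_sub (μ := μ) (s := s) (m + k) ε m) (D := D) htr' hh''0 hD0
        (g := Real.exp (-(1 / 2 * ((m + k : ℕ) : ℝ) ^ c₁))) (G := Real.exp (Vm + 2 * F)) (Real.exp_pos _).le (Real.exp_pos _).le
        (fun u hu0 hu1 hu => by
          by_contra hcon2
          refine c4' ?_
          rw [Set.mem_iUnion₂]
          refine ⟨u, mem_Icc.2 ⟨hu0, hu1⟩, ?_⟩
          rw [hP]
          exact ⟨hu, hcon2⟩) hfr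
      have k1 := tail84 (Vm := Vm) (F := F) (X := TG μ s t (m + k) L η 0) key (by rw [hTh]; linarith only [q8])
      refine det.trans ((add_le_add_right k1 _).trans ?_)
      rw [← add_mul]
      refine mul_le_mul_of_nonneg_right ?_ (Real.exp_pos _).le
      rw [pow_zero, one_mul, one_mul, ← ha2] at h1
      rw [pow_one, one_mul] at h3
      have z1 := Real.exp_pos (-(1 / 2 * ((m + k : ℕ) : ℝ) ^ c₁))
      have z2 := Real.exp_pos (-a ^ 2)
      have z3 := Real.exp_pos (-((m + k : ℕ) : ℝ) ^ c')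
      have z4 : 1 * Real.exp (-(1 / 2 * ((m + k : ℕ) : ℝ) ^ c₁)) ≤
          (((m + k : ℕ) : ℝ) + 1) * Real.exp (-(1 / 2 * ((m + k : ℕ) : ℝ) ^ c₁)) :=
        mul_le_mul_of_nonneg_right (by linarith) z1.le
      linarith
    · -- the free energy from above
      have k1 := TG_up (μ := μ) (s := s) (h := t) η K L (Real.exp_pos (Vm + 2 * F)).le hfr
      have k7 := (hE r K hr1' hrK).1
      rw [EE'_eq, EE'_eq] at k7
      refine num_up84 ha1 hEK1 hK2 k7 hUle hEr1 hFa ?_ (up84 q1a q2a k1)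
      calc (|C5| * K2 + 3) * a ^ 2 ≤ (K : ℝ) ^ (ε / 2) * (K : ℝ) ^ (δ / 4) := by
            rw [ha2]
            exact mul_le_mul_of_nonneg_right h1c (Real.rpow_nonneg hK0.le _)
        _ = (K : ℝ) ^ (ε / 2 + δ / 4) := (Real.rpow_add hK0 _ _).symm
        _ ≤ (K : ℝ) ^ ε := Real.rpow_le_rpow_of_exponent_le hK1R (by linarith only [hδε, hε])
  refine (measureReal_mono hincl).trans ((measureReal_union_le _ _).trans ?_)
  have v1 := measureReal_union_le (μ := law μ) (({η | ¬ T μ s (sl μ s) h' η 0 K ≤ U} ∪ {η | ¬ T μ s (sl μ s) (-h') η 0 K ≤ U}) ∪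
        ({η | ¬ T μ s (sl μ s) (t + h'') η 0 K ≤ U} ∪ {η | ¬ T μ s (sl μ s) (t - h'') η 0 K ≤ U}))
    ({η | ¬ PBox μ s K δ₂ (δ / 8) η} ∪ {η | sh ((K : ℤ), (0 : ℤ)) η ∈ (FR μ s e K L)ᶜ})
  have v2 := measureReal_union_le (μ := law μ) ({η | ¬ T μ s (sl μ s) h' η 0 K ≤ U} ∪ {η | ¬ T μ s (sl μ s) (-h') η 0 K ≤ U})
    ({η | ¬ T μ s (sl μ s) (t + h'') η 0 K ≤ U} ∪ {η | ¬ T μ s (sl μ s) (t - h'') η 0 K ≤ U})
  have v3 := measureReal_union_le (μ := law μ) {η | ¬ T μ s (sl μ s) h' η 0 K ≤ U} {η | ¬ T μ s (sl μ s) (-h') η 0 K ≤ U}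
  have v4 := measureReal_union_le (μ := law μ) {η | ¬ T μ s (sl μ s) (t + h'') η 0 K ≤ U} {η | ¬ T μ s (sl μ s) (t - h'') η 0 K ≤ U}
  have v5 := measureReal_union_le (μ := law μ) {η | ¬ PBox μ s K δ₂ (δ / 8) η} {η | sh ((K : ℤ), (0 : ℤ)) η ∈ (FR μ s e K L)ᶜ}
  rw [pow_zero, one_mul, one_mul, ← ha2] at h1
  rw [pow_zero, one_mul, one_mul] at h2 h1a
  rw [pow_one, one_mul] at h3
  have z3 := Real.exp_pos (-(K : ℝ) ^ c')
  linarith


omit [IsProbabilityMeasure μ] in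
theorem QV_sh78 (η : Env) (t : ℝ) (a b : Pt) (m k L : ℕ) (A : Finset ℤ) : QV μ s t (sh b η) a m k L A = QV μ s t η (a + b) m k L A := by
  unfold QV
  refine sum_congr rfl fun y _ => ?_
  rw [W_sh, TG_sh, pt_sh]

/-- **The composite polymer stays in the window**, every start, every length of the part without the tilt. -/
theorem comp78 (h : In μ s c C n₀) (hL : LB84 μ s) (hU : UB84 μ s) : ∀ ε : ℝ, 0 < ε → ∀ p : ℝ, ∃ κ c' : ℝ,
    0 < κ ∧ 0 < c' ∧ ∃ K₀ : ℕ, ∀ K : ℕ, K₀ ≤ K → ∀ L : ℕ, (L : ℝ) ≤ (K : ℝ) ^ p → ∀ m k : ℕ, 1 ≤ m → m + k = K →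
    ∀ t : ℝ, |t| * EE μ s K ≤ (K : ℝ) ^ κ → ∀ a : Pt,
    (law μ).real {η | ¬ QV μ s t η a m k L (bd μ s K ε m) ≤ Real.exp (-(K : ℝ) ^ c') * Real.exp (TG μ s t K L η a)} ≤
      Real.exp (-(K : ℝ) ^ c') := by
  intro ε hε p
  obtain ⟨κ, c', hκ, hc', K₀, H⟩ := comp78_zero h hL hU ε hε p
  refine ⟨κ, c', hκ, hc', K₀, fun K hK L hLp m k hm hmk t ht a => ?_⟩
  have h1 := H K hK L hLp m k hm hmk t ht
  have h0 : (law μ).real {η | ¬ QV μ s t η 0 m k L (bd μ s K ε m) ≤ Real.exp (-(K : ℝ) ^ c') * Real.exp (TG μ s t K L η 0)} ≤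
      Real.exp (-(K : ℝ) ^ c') := by
    refine (measureReal_mono (fun η hη => ?_) (measure_ne_top _ _)).trans h1
    intro hcon
    exact hη hcon.1
  have hm2 : MeasurableSet {η : Env | ¬ QV μ s t η 0 m k L (bd μ s K ε m) ≤
      Real.exp (-(K : ℝ) ^ c') * Real.exp (TG μ s t K L η 0)} :=
    (measurableSet_le (meas_QV (h := t) 0 m k L _) ((Real.measurable_exp.comp (meas_TG (h := t) K L 0)).const_mul _)).compl
  have h2 := real_sh (μ := μ) a hm2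
  rw [← h2] at h0
  have e : {η | sh a η ∈ {η : Env | ¬ QV μ s t η 0 m k L (bd μ s K ε m) ≤
      Real.exp (-(K : ℝ) ^ c') * Real.exp (TG μ s t K L η 0)}} =
      {η | ¬ QV μ s t η a m k L (bd μ s K ε m) ≤ Real.exp (-(K : ℝ) ^ c') * Real.exp (TG μ s t K L η a)} := by
    ext η
    simp only [Set.mem_ofPred_eq, QV_sh78, TG_sh, zero_add]
  rw [← e]
  exact h0

end

end Pool.Agent.W_7d29a1_C1.Nbr78
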