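import Pool.Agent.W_7d29a1_C1.NbrA78
import Pool.Agent.W_7d29a1_C1.Brg8
import Pool.Agent.W_7d29a1_C1.WinK78

/-!
MP_7d29a1_pr, the attractor route (helper78): neighbouring sites, the bridge from the paths with `m` equal first steps (ContrP91 objects) to
the windows of `comp78`.
-/

set_option autoImplicit false

namespace Pool.Agent.W_7d29a1_C1.Nbr78

open MeasureTheory ProbabilityTheory Finset
open Pool.Agent.W_7d29a1_F
open Pool.Agent.W_7d29a1_H (sl)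
open Pool.Agent.W_7d29a1_C1.K91 (wt wt_pos)
open Pool.Agent.W_7d29a1_C1.K91P (bw bw_zero bw_succ bw_pos GG)
open Pool.Agent.W_7d29a1_C1.H8 (ps8 ps8_pos TL8 W_one0 W_one1 Icc01 bw_TL8)
open Pool.Agent.W_7d29a1_C1.Win84 (TG QV bd)

noncomputable section

variable {μ : Measure ℝ} {s σ h : ℝ}

theorem wt_succ78 (η : Env) (i : ℕ) (y : ℤ) : wt η (i + 1) y = Real.exp (η ((i : ℤ) + 1, y)) := by
  unfold wt
  rw [if_neg (by omega)]
  push_cast
  rfl

theorem W_up78 (η : Env) (a : Pt) (m : ℕ) : W μ s η a (m + 1) ((m + 1 : ℕ) : ℤ) =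
    W μ s η a 1 1 * W μ s η (a.1 + 1, a.2 + 1) m (m : ℤ) := by
  have h1 := W_add (μ := μ) (s := s) η a 1 m ((m + 1 : ℕ) : ℤ)
  rw [show 1 + m = m + 1 by ring, Icc01, Finset.sum_pair (by norm_num)] at h1
  rw [h1]
  have e0 : W μ s η (a.1 + ((1 : ℕ) : ℤ), a.2 + 0) m (((m + 1 : ℕ) : ℤ) - 0) = 0 := by
    refine W_eq_zero _ _ ?_
    rintro ⟨_, h3⟩
    push_cast at h3
    omega
  have e1 : (((m + 1 : ℕ) : ℤ) - 1) = (m : ℤ) := by push_cast; ring
  rw [e0, e1, mul_zero, zero_add]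
  simp

theorem W_dn78 (η : Env) (a : Pt) (m : ℕ) : W μ s η a (m + 1) 0 = W μ s η a 1 0 * W μ s η (a.1 + 1, a.2) m 0 := by
  have h1 := W_add (μ := μ) (s := s) η a 1 m 0
  rw [show 1 + m = m + 1 by ring, Icc01, Finset.sum_pair (by norm_num)] at h1
  rw [h1]
  have e0 : W μ s η (a.1 + ((1 : ℕ) : ℤ), a.2 + 1) m (0 - 1) = 0 := by
    refine W_eq_zero _ _ ?_
    rintro ⟨h3, _⟩
    omega
  rw [e0, mul_zero, add_zero]
  simp

theorem W_nil78 (η : Env) (a : Pt) : W μ s η a 0 0 = 1 := by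
  unfold W WR Zr
  simp

/-- The factor of the composite system. -/
def cf78 (μ : Measure ℝ) (s σ h : ℝ) (M L n : ℕ) : ℝ :=
  (1 + ps8 s h M (M + L)) * Real.exp (((n : ℝ) + L) * lam μ s + h * σ * n)

theorem cf78_pos (M L n : ℕ) : 0 < cf78 μ s σ h M L n := by
  unfold cf78
  have := ps8_pos s h M (M + L)
  positivity

theorem cf78_succ (M L n : ℕ) : cf78 μ s σ h M L (n + 1) = cf78 μ s σ h M L n * Real.exp (lam μ s + h * σ) := by
  unfold cf78
  have e : Real.exp ((((n + 1 : ℕ) : ℝ) + L) * lam μ s + h * σ * ((n + 1 : ℕ) : ℝ)) =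
      Real.exp (((n : ℝ) + L) * lam μ s + h * σ * n) * Real.exp (lam μ s + h * σ) := by
    rw [← Real.exp_add]
    congr 1
    push_cast
    ring
  rw [e]
  ring

theorem bw_TL78 (η : Env) {M L : ℕ} (n i : ℕ) (hi : i + n = M) (y : ℤ) : bw (wt η) (ps8 s h M) i (n + L + 1) y =
    wt η i y * (cf78 μ s σ h M L n * Real.exp (TL8 μ s σ h n L η ((i : ℤ), y))) :=
  bw_TL8 η n i hi y

/-- All the first `m` steps are `1`. -/
theorem DU_TL78 (η : Env) {M L : ℕ} : ∀ (m k i : ℕ), i + (m + k) = M → ∀ y : ℤ,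
    DU (wt η) (ps8 s h M) (k + L + 1) m i y = wt η i y * (cf78 μ s σ h M L (m + k) *
      ((W μ s η ((i : ℤ), y) m (m : ℤ) * Real.exp (h * (((m : ℤ) : ℝ) - σ * m))) *
        Real.exp (TL8 μ s σ h k L η (((i : ℤ), y).1 + (m : ℤ), ((i : ℤ), y).2 + (m : ℤ)))))
  | 0, k, i, hi, y => by
    rw [DU_zero, bw_TL78 (μ := μ) (σ := σ) η k i (by omega) y]
    have e1 : (((i : ℤ), y).1 + ((0 : ℕ) : ℤ), ((i : ℤ), y).2 + ((0 : ℕ) : ℤ)) = (((i : ℤ), y) : Pt) := by
      ext <;> simp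
    have e2 : W μ s η ((i : ℤ), y) 0 ((0 : ℕ) : ℤ) = 1 := W_nil78 _ _
    rw [e1, e2, Nat.zero_add]
    simp
  | m + 1, k, i, hi, y => by
    have ih := DU_TL78 η (M := M) (L := L) m k (i + 1) (by omega) (y + 1)
    have hp : ps8 s h M i = Real.exp (s + h) := by
      unfold ps8
      rw [if_pos (by omega)]
    rw [DU_succ, ih, hp, W_up78, W_one1, wt_succ78, show m + 1 + k = (m + k) + 1 by ring, cf78_succ]
    have e1 : ((((i + 1 : ℕ) : ℤ), y + 1).1 + (m : ℤ), (((i + 1 : ℕ) : ℤ), y + 1).2 + (m : ℤ)) =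
        ((((i : ℤ), y).1 + ((m + 1 : ℕ) : ℤ), ((i : ℤ), y).2 + ((m + 1 : ℕ) : ℤ)) : Pt) := by
      ext
      · show ((i + 1 : ℕ) : ℤ) + m = (i : ℤ) + ((m + 1 : ℕ) : ℤ)
        push_cast
        ring
      · show y + 1 + m = y + ((m + 1 : ℕ) : ℤ)
        push_cast
        ring
    have e2 : ((((i : ℤ), y).1 + 1, ((i : ℤ), y).2 + 1) : Pt) = (((i + 1 : ℕ) : ℤ), y + 1) := by
      ext <;> simp
    rw [e1, e2]
    show wt η i y * (Real.exp (s + h) * (Real.exp (η ((i : ℤ) + 1, y + 1)) * (cf78 μ s σ h M L (m + k) *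
      (W μ s η (((i + 1 : ℕ) : ℤ), y + 1) m (m : ℤ) * Real.exp (h * (((m : ℤ) : ℝ) - σ * m)) *
        Real.exp (TL8 μ s σ h k L η _))))) = wt η i y * (cf78 μ s σ h M L (m + k) * Real.exp (lam μ s + h * σ) *
      (Real.exp (s - lam μ s) * Real.exp (η ((i : ℤ) + 1, y + 1)) * W μ s η (((i + 1 : ℕ) : ℤ), y + 1) m (m : ℤ) *
        Real.exp (h * ((((m + 1 : ℕ) : ℤ) : ℝ) - σ * ((m + 1 : ℕ) : ℝ))) * Real.exp (TL8 μ s σ h k L η _)))
    have e3 : Real.exp (s + h) * Real.exp (h * (((m : ℤ) : ℝ) - σ * m)) =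
        Real.exp (lam μ s + h * σ) * (Real.exp (s - lam μ s) * Real.exp (h * ((((m + 1 : ℕ) : ℤ) : ℝ) - σ * ((m + 1 : ℕ) : ℝ)))) := by
      rw [← Real.exp_add, ← Real.exp_add, ← Real.exp_add]
      congr 1
      push_cast
      ring
    linear_combination (wt η i y * (Real.exp (η ((i : ℤ) + 1, y + 1)) * (cf78 μ s σ h M L (m + k) *
      (W μ s η (((i + 1 : ℕ) : ℤ), y + 1) m (m : ℤ) *
        Real.exp (TL8 μ s σ h k L η (((i : ℤ), y).1 + ((m + 1 : ℕ) : ℤ), ((i : ℤ), y).2 + ((m + 1 : ℕ) : ℤ))))))) * e3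

/-- All the first `m` steps are `0`. -/
theorem DD_TL78 (η : Env) {M L : ℕ} : ∀ (m k i : ℕ), i + (m + k) = M → ∀ y : ℤ,
    DD (wt η) (ps8 s h M) (k + L + 1) m i y = wt η i y * (cf78 μ s σ h M L (m + k) *
      ((W μ s η ((i : ℤ), y) m 0 * Real.exp (h * (((0 : ℤ) : ℝ) - σ * m))) *
        Real.exp (TL8 μ s σ h k L η (((i : ℤ), y).1 + (m : ℤ), ((i : ℤ), y).2 + 0))))
  | 0, k, i, hi, y => by
    rw [DD_zero, bw_TL78 (μ := μ) (σ := σ) η k i (by omega) y]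
    have e1 : (((i : ℤ), y).1 + ((0 : ℕ) : ℤ), ((i : ℤ), y).2 + 0) = (((i : ℤ), y) : Pt) := by
      ext <;> simp
    have e2 : W μ s η ((i : ℤ), y) 0 0 = 1 := W_nil78 _ _
    rw [e1, e2, Nat.zero_add]
    simp
  | m + 1, k, i, hi, y => by
    have ih := DD_TL78 η (M := M) (L := L) m k (i + 1) (by omega) y
    rw [DD_succ, ih, W_dn78, W_one0, wt_succ78, show m + 1 + k = (m + k) + 1 by ring, cf78_succ]
    have e1 : ((((i + 1 : ℕ) : ℤ), y).1 + (m : ℤ), (((i + 1 : ℕ) : ℤ), y).2 + 0) =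
        ((((i : ℤ), y).1 + ((m + 1 : ℕ) : ℤ), ((i : ℤ), y).2 + 0) : Pt) := by
      ext
      · show ((i + 1 : ℕ) : ℤ) + m = (i : ℤ) + ((m + 1 : ℕ) : ℤ)
        push_cast
        ring
      · rfl
    have e2 : ((((i : ℤ), y).1 + 1, ((i : ℤ), y).2) : Pt) = (((i + 1 : ℕ) : ℤ), y) := by
      ext <;> simp
    rw [e1, e2]
    show wt η i y * (Real.exp (η ((i : ℤ) + 1, y)) * (cf78 μ s σ h M L (m + k) *
      (W μ s η (((i + 1 : ℕ) : ℤ), y) m 0 * Real.exp (h * (((0 : ℤ) : ℝ) - σ * m)) *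
        Real.exp (TL8 μ s σ h k L η _)))) = wt η i y * (cf78 μ s σ h M L (m + k) * Real.exp (lam μ s + h * σ) *
      (Real.exp (-lam μ s) * Real.exp (η ((i : ℤ) + 1, y)) * W μ s η (((i + 1 : ℕ) : ℤ), y) m 0 *
        Real.exp (h * (((0 : ℤ) : ℝ) - σ * ((m + 1 : ℕ) : ℝ))) * Real.exp (TL8 μ s σ h k L η _)))
    have e3 : Real.exp (h * (((0 : ℤ) : ℝ) - σ * m)) =
        Real.exp (lam μ s + h * σ) * (Real.exp (-lam μ s) * Real.exp (h * (((0 : ℤ) : ℝ) - σ * ((m + 1 : ℕ) : ℝ)))) := by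
      rw [← Real.exp_add, ← Real.exp_add]
      congr 1
      push_cast
      ring
    linear_combination (wt η i y * (Real.exp (η ((i : ℤ) + 1, y)) * (cf78 μ s σ h M L (m + k) *
      (W μ s η (((i + 1 : ℕ) : ℤ), y) m 0 *
        Real.exp (TL8 μ s σ h k L η (((i : ℤ), y).1 + ((m + 1 : ℕ) : ℤ), ((i : ℤ), y).2 + 0)))))) * e3

/-- **The shares of the extreme steps from the window**: the sites `m` and `0` of the row `m` are not in the window. -/
theorem share_TL78 (η : Env) {M L m k i : ℕ} (hi : i + (m + k) = M) (y : ℤ) {ε x : ℝ}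
    (hW : QV μ s h η ((i : ℤ), y) m k L (bd μ s (m + k) ε m) ≤ x * Real.exp (TG μ s h (m + k) L η ((i : ℤ), y)))
    (h1 : (m : ℤ) ∈ bd μ s (m + k) ε m) (h0 : (0 : ℤ) ∈ bd μ s (m + k) ε m) :
    DU (wt η) (ps8 s h M) (k + L + 1) m i y ≤ x * bw (wt η) (ps8 s h M) i (m + k + L + 1) y ∧
      DD (wt η) (ps8 s h M) (k + L + 1) m i y ≤ x * bw (wt η) (ps8 s h M) i (m + k + L + 1) y := by
  have hc := cf78_pos (μ := μ) (s := s) (σ := sl μ s) (h := h) M L (m + k)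
  have hw := wt_pos η i y
  have hb := bw_TL78 (μ := μ) (s := s) (σ := sl μ s) (h := h) η (M := M) (L := L) (m + k) i (by omega) y
  have hone : ∀ z : ℤ, z ∈ bd μ s (m + k) ε m → (W μ s η ((i : ℤ), y) m z * Real.exp (h * ((z : ℝ) - sl μ s * m))) *
      Real.exp (TL8 μ s (sl μ s) h k L η (((i : ℤ), y).1 + (m : ℤ), ((i : ℤ), y).2 + z)) ≤
      x * Real.exp (TG μ s h (m + k) L η ((i : ℤ), y)) := by
    intro z hz
    refine le_trans ?_ hW
    unfold QV
    exact single_le_sum (f := fun z : ℤ => (W μ s η ((i : ℤ), y) m z * Real.exp (h * ((z : ℝ) - sl μ s * m))) *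
      Real.exp (TG μ s h k L η (((i : ℤ), y).1 + (m : ℤ), ((i : ℤ), y).2 + z)))
      (fun z _ => mul_nonneg (mul_nonneg (W_nonneg _ _ _ _) (Real.exp_pos _).le) (Real.exp_pos _).le) hz
  have hfin : ∀ A : ℝ, A ≤ x * Real.exp (TG μ s h (m + k) L η ((i : ℤ), y)) →
      wt η i y * (cf78 μ s (sl μ s) h M L (m + k) * A) ≤ x * bw (wt η) (ps8 s h M) i (m + k + L + 1) y := by
    intro A hA
    rw [hb]
    have h2 := mul_le_mul_of_nonneg_left (mul_le_mul_of_nonneg_left hA hc.le) hw.le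
    refine h2.trans (le_of_eq ?_)
    have : TG μ s h (m + k) L η ((i : ℤ), y) = TL8 μ s (sl μ s) h (m + k) L η ((i : ℤ), y) := rfl
    rw [this]
    ring
  constructor
  · rw [DU_TL78 (μ := μ) (σ := sl μ s) η m k i hi y]
    exact hfin _ (hone (m : ℤ) h1)
  · rw [DD_TL78 (μ := μ) (σ := sl μ s) η m k i hi y]
    exact hfin _ (hone 0 h0)

/-! ### Changes of the step weights -/

variable {w : ℕ → ℤ → ℝ} {p q : ℕ → ℝ}

/-- Two step weights which agree on all the rows but the last one. -/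
theorem bw_last78 : ∀ (m i : ℕ) (y : ℤ), (∀ k, i ≤ k → k < i + m → p k = q k) →
    (1 + q (i + m)) * bw w p i (m + 1) y = (1 + p (i + m)) * bw w q i (m + 1) y
  | 0, i, y, _ => by
    rw [bw_succ, bw_succ]
    simp only [bw_zero, add_zero]
    ring
  | m + 1, i, y, h => by
    have i1 := bw_last78 m (i + 1) y fun k h1 h2 => h k (by omega) (by omega)
    have i2 := bw_last78 m (i + 1) (y + 1) fun k h1 h2 => h k (by omega) (by omega)
    have e : i + 1 + m = i + (m + 1) := by ring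
    rw [e] at i1 i2
    rw [bw_succ w p i (m + 1), bw_succ w q i (m + 1), h i le_rfl (by omega)]
    linear_combination (w i y) * i1 + (w i y) * q i * i2

theorem bw_last_log78 (hw : ∀ k y, 0 < w k y) (hp : ∀ k, 0 < p k) (hq : ∀ k, 0 < q k) (m i : ℕ) (y y' : ℤ)
    (h : ∀ k, i ≤ k → k < i + m → p k = q k) :
    Real.log (bw w p i (m + 1) y) - Real.log (bw w p i (m + 1) y') =
      Real.log (bw w q i (m + 1) y) - Real.log (bw w q i (m + 1) y') := by
  have key : ∀ z : ℤ, Real.log (1 + q (i + m)) + Real.log (bw w p i (m + 1) z) =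
      Real.log (1 + p (i + m)) + Real.log (bw w q i (m + 1) z) := by
    intro z
    have h1 := bw_last78 (w := w) m i z h
    have g1 := hq (i + m)
    have g2 := hp (i + m)
    rw [← Real.log_mul (by positivity) (bw_pos hw hp _ _ _).ne', h1,
      Real.log_mul (by positivity) (bw_pos hw hq _ _ _).ne']
  have k1 := key y
  have k2 := key y'
  linarith

end

end Pool.Agent.W_7d29a1_C1.Nbr78
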