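import Pool.Agent.W_7d29a1_C1.NbrA78

/-!
MP_7d29a1_pr, the attractor route (helper78): neighbouring sites with an ARBITRARY end profile (`PathR21` of helper21). `gw w p f m i y`: the
mass of `m` rows from the row `i`, then the profile `f ≥ 0` at the row `i + m`. One row to the side costs the factor `exp ((2u+2b+1) m)` plus
the paths whose `m` steps are all equal; if `f ≤ bw w p (i + m) j` these are at most `DU` / `DD` of `NbrA78`.
-/

set_option autoImplicit false

namespace Pool.Agent.W_7d29a1_C1.Nbr78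

open Finset
open Pool.Agent.W_7d29a1_C1.K91P (bw bw_zero bw_succ bw_pos GG)

noncomputable section

/-- `m` rows, then the profile `f`. -/
def gw (w : ℕ → ℤ → ℝ) (p : ℕ → ℝ) (f : ℤ → ℝ) : ℕ → ℕ → ℤ → ℝ
  | 0, _, y => f y
  | m + 1, i, y => w i y * (gw w p f m (i + 1) y + p i * gw w p f m (i + 1) (y + 1))

/-- All the `m` steps are `1`. -/
def gU (w : ℕ → ℤ → ℝ) (p : ℕ → ℝ) (f : ℤ → ℝ) : ℕ → ℕ → ℤ → ℝ
  | 0, _, y => f y
  | m + 1, i, y => w i y * (p i * gU w p f m (i + 1) (y + 1))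

/-- All the `m` steps are `0`. -/
def gD (w : ℕ → ℤ → ℝ) (p : ℕ → ℝ) (f : ℤ → ℝ) : ℕ → ℕ → ℤ → ℝ
  | 0, _, y => f y
  | m + 1, i, y => w i y * gD w p f m (i + 1) y

variable {w : ℕ → ℤ → ℝ} {p : ℕ → ℝ} {f g : ℤ → ℝ}

theorem gw_zero (i : ℕ) (y : ℤ) : gw w p f 0 i y = f y := rfl

theorem gw_succ (m i : ℕ) (y : ℤ) : gw w p f (m + 1) i y = w i y * (gw w p f m (i + 1) y + p i * gw w p f m (i + 1) (y + 1)) := rfl

theorem gU_zero (i : ℕ) (y : ℤ) : gU w p f 0 i y = f y := rfl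

theorem gU_succ (m i : ℕ) (y : ℤ) : gU w p f (m + 1) i y = w i y * (p i * gU w p f m (i + 1) (y + 1)) := rfl

theorem gD_zero (i : ℕ) (y : ℤ) : gD w p f 0 i y = f y := rfl

theorem gD_succ (m i : ℕ) (y : ℤ) : gD w p f (m + 1) i y = w i y * gD w p f m (i + 1) y := rfl

theorem gw_nonneg (hw : ∀ k y, 0 < w k y) (hp : ∀ k, 0 < p k) (hf : ∀ y, 0 ≤ f y) : ∀ (m i : ℕ) (y : ℤ), 0 ≤ gw w p f m i y
  | 0, _, y => hf y
  | m + 1, i, y => by
    rw [gw_succ]
    have h1 := gw_nonneg hw hp hf m (i + 1) y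
    have h2 := gw_nonneg hw hp hf m (i + 1) (y + 1)
    have h3 := hw i y
    have h4 := hp i
    positivity

theorem gU_nonneg (hw : ∀ k y, 0 < w k y) (hp : ∀ k, 0 < p k) (hf : ∀ y, 0 ≤ f y) : ∀ (m i : ℕ) (y : ℤ), 0 ≤ gU w p f m i y
  | 0, _, y => hf y
  | m + 1, i, y => by
    rw [gU_succ]
    have h2 := gU_nonneg hw hp hf m (i + 1) (y + 1)
    have h3 := hw i y
    have h4 := hp i
    positivity

theorem gD_nonneg (hw : ∀ k y, 0 < w k y) (hf : ∀ y, 0 ≤ f y) : ∀ (m i : ℕ) (y : ℤ), 0 ≤ gD w p f m i y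
  | 0, _, y => hf y
  | m + 1, i, y => by
    rw [gD_succ]
    have h2 := gD_nonneg hw hf m (i + 1) y
    have h3 := hw i y
    positivity

theorem gw_mono (hw : ∀ k y, 0 < w k y) (hp : ∀ k, 0 < p k) (h : ∀ y, f y ≤ g y) : ∀ (m i : ℕ) (y : ℤ), gw w p f m i y ≤ gw w p g m i y
  | 0, _, y => h y
  | m + 1, i, y => by
    rw [gw_succ, gw_succ]
    have h1 := gw_mono hw hp h m (i + 1) y
    have h2 := mul_le_mul_of_nonneg_left (gw_mono hw hp h m (i + 1) (y + 1)) (hp i).le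
    exact mul_le_mul_of_nonneg_left (add_le_add h1 h2) (hw i y).le

theorem gU_mono (hw : ∀ k y, 0 < w k y) (hp : ∀ k, 0 < p k) (h : ∀ y, f y ≤ g y) : ∀ (m i : ℕ) (y : ℤ), gU w p f m i y ≤ gU w p g m i y
  | 0, _, y => h y
  | m + 1, i, y => by
    rw [gU_succ, gU_succ]
    exact mul_le_mul_of_nonneg_left (mul_le_mul_of_nonneg_left (gU_mono hw hp h m (i + 1) (y + 1)) (hp i).le) (hw i y).le

theorem gD_mono (hw : ∀ k y, 0 < w k y) (h : ∀ y, f y ≤ g y) : ∀ (m i : ℕ) (y : ℤ), gD w p f m i y ≤ gD w p g m i y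
  | 0, _, y => h y
  | m + 1, i, y => by
    rw [gD_succ, gD_succ]
    exact mul_le_mul_of_nonneg_left (gD_mono hw h m (i + 1) y) (hw i y).le

theorem gw_add : ∀ (m i : ℕ) (y : ℤ), gw w p (fun z => f z + g z) m i y = gw w p f m i y + gw w p g m i y
  | 0, _, _ => rfl
  | m + 1, i, y => by
    rw [gw_succ, gw_succ, gw_succ, gw_add m (i + 1) y, gw_add m (i + 1) (y + 1)]
    ring

/-- `m + n` rows. -/
theorem gw_comp (n : ℕ) : ∀ (m i : ℕ) (y : ℤ), gw w p f (m + n) i y = gw w p (fun z => gw w p f n (i + m) z) m i y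
  | 0, i, y => by rw [Nat.zero_add]; rfl
  | m + 1, i, y => by
    have e : i + 1 + m = i + (m + 1) := by ring
    have h1 := gw_comp n m (i + 1) y
    have h2 := gw_comp n m (i + 1) (y + 1)
    rw [e] at h1 h2
    rw [show m + 1 + n = (m + n) + 1 by ring, gw_succ, gw_succ, h1, h2]

/-- The flat end. -/
theorem gw_bw (j : ℕ) : ∀ (m i : ℕ) (y : ℤ), gw w p (fun z => bw w p (i + m) j z) m i y = bw w p i (m + j) y
  | 0, i, y => by rw [Nat.zero_add]; rfl
  | m + 1, i, y => by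
    have e : i + 1 + m = i + (m + 1) := by ring
    have h1 := gw_bw j m (i + 1) y
    have h2 := gw_bw j m (i + 1) (y + 1)
    rw [e] at h1 h2
    rw [gw_succ, h1, h2, show m + 1 + j = (m + j) + 1 by ring, bw_succ]

theorem gU_DU (j : ℕ) : ∀ (m i : ℕ) (y : ℤ), gU w p (fun z => bw w p (i + m) j z) m i y = DU w p j m i y
  | 0, _, _ => rfl
  | m + 1, i, y => by
    have e : i + 1 + m = i + (m + 1) := by ring
    have h1 := gU_DU j m (i + 1) (y + 1)
    rw [e] at h1
    rw [gU_succ, h1, DU_succ]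

theorem gD_DD (j : ℕ) : ∀ (m i : ℕ) (y : ℤ), gD w p (fun z => bw w p (i + m) j z) m i y = DD w p j m i y
  | 0, _, _ => rfl
  | m + 1, i, y => by
    have e : i + 1 + m = i + (m + 1) := by ring
    have h1 := gD_DD j m (i + 1) y
    rw [e] at h1
    rw [gD_succ, h1, DD_succ]

/-- The upper half, any end profile. -/
theorem gup78 (hw : ∀ k y, 0 < w k y) (hp : ∀ k, 0 < p k) (hf : ∀ y, 0 ≤ f y) {u b : ℝ} (hu : 0 ≤ u) (hb : 0 ≤ b) :
    ∀ (m i : ℕ) (y : ℤ), Wnd w p u b m i y →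
      gw w p f m i y ≤ Real.exp ((2 * u + 2 * b + 1) * m) * gw w p f m i (y - 1) + gU w p f m i y
  | 0, i, y, _ => by
    rw [gU_zero, gw_zero, gw_zero]
    have h1 := hf (y - 1)
    have : 0 < Real.exp ((2 * u + 2 * b + 1) * ((0 : ℕ) : ℝ)) := Real.exp_pos _
    nlinarith [mul_nonneg this.le h1]
  | m + 1, i, y, h => by
    have ih := gup78 hw hp hf hu hb m (i + 1) (y + 1) h.up
    rw [gw_succ, gw_succ, gU_succ]
    have e2 : y - 1 + 1 = y := by ring
    have e3 : y + 1 - 1 = y := by ring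
    rw [e2]
    rw [e3] at ih
    obtain ⟨A, hA⟩ : ∃ A, A = gw w p f m (i + 1) (y - 1) := ⟨_, rfl⟩
    obtain ⟨B, hB⟩ : ∃ B, B = gw w p f m (i + 1) y := ⟨_, rfl⟩
    obtain ⟨C, hC⟩ : ∃ C, C = gw w p f m (i + 1) (y + 1) := ⟨_, rfl⟩
    obtain ⟨D, hD⟩ : ∃ D, D = gU w p f m (i + 1) (y + 1) := ⟨_, rfl⟩
    obtain ⟨β, hβ⟩ : ∃ β, β = Real.exp ((2 * u + 2 * b + 1) * m) := ⟨_, rfl⟩
    obtain ⟨β', hβ'⟩ : ∃ β', β' = Real.exp ((2 * u + 2 * b + 1) * ((m + 1 : ℕ) : ℝ)) := ⟨_, rfl⟩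
    have hA0 : 0 ≤ A := by rw [hA]; exact gw_nonneg hw hp hf _ _ _
    have hB0 : 0 ≤ B := by rw [hB]; exact gw_nonneg hw hp hf _ _ _
    have hnum := num78 hu hb m
    rw [← hβ, ← hβ'] at hnum
    rw [← hB, ← hC, ← hD, ← hβ] at ih
    rw [← hA, ← hB, ← hC, ← hD, ← hβ']
    have h0 := h 0 (by omega)
    rw [Nat.add_zero] at h0
    obtain ⟨⟨hp1, hp2⟩, hw1⟩ := h0
    have h1 := hw1 y (by omega) (by simp)
    have h2 := hw1 (y - 1) (by omega) (by push_cast; omega)
    have hpk := hp i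
    have hβ0 : 0 < β := by rw [hβ]; exact Real.exp_pos _
    have eb : Real.exp (-b) * Real.exp b = 1 := by rw [← Real.exp_add]; simp
    have eu : Real.exp (-u) * Real.exp u = 1 := by rw [← Real.exp_add]; simp
    have hEu := Real.exp_pos u
    have hEb := Real.exp_pos b
    have h3 : w i y ≤ Real.exp (2 * u) * w i (y - 1) := by
      have : Real.exp (2 * u) = Real.exp u * Real.exp u := by rw [← Real.exp_add]; ring_nf
      rw [this]
      nlinarith [mul_le_mul_of_nonneg_left h2.1 (mul_pos hEu hEu).le]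
    have h4 : 1 ≤ Real.exp b * p i := by nlinarith
    have h5 : w i y * (B + p i * C) ≤ w i y * ((1 + p i * β) * B) + w i y * (p i * D) := by
      rw [← mul_add]
      refine mul_le_mul_of_nonneg_left ?_ (hw i y).le
      nlinarith
    have h6 : 1 + p i * β ≤ 1 + Real.exp b * β := by nlinarith
    have h7 : w i y * ((1 + p i * β) * B) ≤ β' * (w i (y - 1) * (A + p i * B)) := by
      have g1 : w i y * ((1 + p i * β) * B) ≤ (Real.exp (2 * u) * w i (y - 1)) * ((1 + Real.exp b * β) * B) := by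
        refine mul_le_mul h3 (mul_le_mul_of_nonneg_right h6 hB0) (by positivity) (by have := hw i (y - 1); positivity)
      have g2 : (Real.exp (2 * u) * w i (y - 1)) * ((1 + Real.exp b * β) * B) ≤
          (Real.exp (2 * u) * w i (y - 1)) * ((1 + Real.exp b * β) * ((Real.exp b * p i) * B)) := by
        refine mul_le_mul_of_nonneg_left ?_ (by have := hw i (y - 1); positivity)
        refine mul_le_mul_of_nonneg_left ?_ (by positivity)
        nlinarith
      have g3 : (Real.exp (2 * u) * w i (y - 1)) * ((1 + Real.exp b * β) * ((Real.exp b * p i) * B)) =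
          (Real.exp (2 * u + b) * (1 + Real.exp b * β)) * (w i (y - 1) * (p i * B)) := by
        rw [Real.exp_add]
        ring
      have g4 : (Real.exp (2 * u + b) * (1 + Real.exp b * β)) * (w i (y - 1) * (p i * B)) ≤ β' * (w i (y - 1) * (p i * B)) :=
        mul_le_mul_of_nonneg_right hnum (by have := hw i (y - 1); positivity)
      have g5 : β' * (w i (y - 1) * (p i * B)) ≤ β' * (w i (y - 1) * (A + p i * B)) := by
        refine mul_le_mul_of_nonneg_left ?_ (by rw [hβ']; exact (Real.exp_pos _).le)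
        exact mul_le_mul_of_nonneg_left (by linarith) (hw i (y - 1)).le
      linarith
    linarith

/-- The lower half, any end profile. -/
theorem gdn78 (hw : ∀ k y, 0 < w k y) (hp : ∀ k, 0 < p k) (hf : ∀ y, 0 ≤ f y) {u b : ℝ} (hu : 0 ≤ u) (hb : 0 ≤ b) :
    ∀ (m i : ℕ) (y : ℤ), Wnd w p u b m i y →
      gw w p f m i (y - 1) ≤ Real.exp ((2 * u + 2 * b + 1) * m) * gw w p f m i y + gD w p f m i (y - 1)
  | 0, i, y, _ => by
    rw [gD_zero, gw_zero, gw_zero]
    have h1 := hf y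
    have : 0 < Real.exp ((2 * u + 2 * b + 1) * ((0 : ℕ) : ℝ)) := Real.exp_pos _
    nlinarith [mul_nonneg this.le h1]
  | m + 1, i, y, h => by
    have ih := gdn78 hw hp hf hu hb m (i + 1) y h.dn
    rw [gw_succ, gw_succ, gD_succ]
    have e2 : y - 1 + 1 = y := by ring
    rw [e2]
    obtain ⟨A, hA⟩ : ∃ A, A = gw w p f m (i + 1) (y - 1) := ⟨_, rfl⟩
    obtain ⟨B, hB⟩ : ∃ B, B = gw w p f m (i + 1) y := ⟨_, rfl⟩
    obtain ⟨C, hC⟩ : ∃ C, C = gw w p f m (i + 1) (y + 1) := ⟨_, rfl⟩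
    obtain ⟨D, hD⟩ : ∃ D, D = gD w p f m (i + 1) (y - 1) := ⟨_, rfl⟩
    obtain ⟨β, hβ⟩ : ∃ β, β = Real.exp ((2 * u + 2 * b + 1) * m) := ⟨_, rfl⟩
    obtain ⟨β', hβ'⟩ : ∃ β', β' = Real.exp ((2 * u + 2 * b + 1) * ((m + 1 : ℕ) : ℝ)) := ⟨_, rfl⟩
    have hB0 : 0 ≤ B := by rw [hB]; exact gw_nonneg hw hp hf _ _ _
    have hC0 : 0 ≤ C := by rw [hC]; exact gw_nonneg hw hp hf _ _ _
    have hnum := num78 hu hb m
    rw [← hβ, ← hβ'] at hnum
    rw [← hA, ← hB, ← hD, ← hβ] at ih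
    rw [← hA, ← hB, ← hC, ← hD, ← hβ']
    have h0 := h 0 (by omega)
    rw [Nat.add_zero] at h0
    obtain ⟨⟨hp1, hp2⟩, hw1⟩ := h0
    have h1 := hw1 y (by omega) (by simp)
    have h2 := hw1 (y - 1) (by omega) (by push_cast; omega)
    have hpk := hp i
    have hβ1 : 1 ≤ β := by rw [hβ]; exact Real.one_le_exp (by positivity)
    have eu : Real.exp (-u) * Real.exp u = 1 := by rw [← Real.exp_add]; simp
    have hEu := Real.exp_pos u
    have hEb1 : (1 : ℝ) ≤ Real.exp b := Real.one_le_exp hb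
    have h3 : w i (y - 1) ≤ Real.exp (2 * u) * w i y := by
      have : Real.exp (2 * u) = Real.exp u * Real.exp u := by rw [← Real.exp_add]; ring_nf
      rw [this]
      nlinarith [mul_le_mul_of_nonneg_left h1.1 (mul_pos hEu hEu).le]
    have h5 : w i (y - 1) * (A + p i * B) ≤ w i (y - 1) * ((β + p i) * B) + w i (y - 1) * D := by
      rw [← mul_add]
      refine mul_le_mul_of_nonneg_left ?_ (hw i (y - 1)).le
      nlinarith
    have h6 : β + p i ≤ Real.exp b * (1 + Real.exp b * β) := by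
      have g1 : β ≤ Real.exp b * (Real.exp b * β) := by nlinarith [mul_le_mul_of_nonneg_left hEb1 (by positivity : (0 : ℝ) ≤ Real.exp b)]
      nlinarith
    have h7 : w i (y - 1) * ((β + p i) * B) ≤ β' * (w i y * (B + p i * C)) := by
      have g1 : w i (y - 1) * ((β + p i) * B) ≤ (Real.exp (2 * u) * w i y) * ((Real.exp b * (1 + Real.exp b * β)) * B) := by
        refine mul_le_mul h3 (mul_le_mul_of_nonneg_right h6 hB0) (by positivity) (by have := hw i y; positivity)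
      have g3 : (Real.exp (2 * u) * w i y) * ((Real.exp b * (1 + Real.exp b * β)) * B) =
          (Real.exp (2 * u + b) * (1 + Real.exp b * β)) * (w i y * B) := by
        rw [Real.exp_add]
        ring
      have g4 : (Real.exp (2 * u + b) * (1 + Real.exp b * β)) * (w i y * B) ≤ β' * (w i y * B) :=
        mul_le_mul_of_nonneg_right hnum (by have := hw i y; positivity)
      have g5 : β' * (w i y * B) ≤ β' * (w i y * (B + p i * C)) := by
        refine mul_le_mul_of_nonneg_left ?_ (by rw [hβ']; exact (Real.exp_pos _).le)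
        refine mul_le_mul_of_nonneg_left ?_ (hw i y).le
        nlinarith [mul_nonneg hpk.le hC0]
      linarith
    linarith

/-- **One column to the side**, any end profile below the real one: `β` times the neighbour plus the straight paths of the real future. -/
theorem gnbr78 (hw : ∀ k y, 0 < w k y) (hp : ∀ k, 0 < p k) (hf : ∀ y, 0 ≤ f y) {u b : ℝ} (hu : 0 ≤ u) (hb : 0 ≤ b) {m i j : ℕ} {y : ℤ}
    (hfb : ∀ z, f z ≤ bw w p (i + m) j z) (h : Wnd w p u b m i y) :
    gw w p f m i y ≤ Real.exp ((2 * u + 2 * b + 1) * m) * gw w p f m i (y - 1) + DU w p j m i y ∧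
      gw w p f m i (y - 1) ≤ Real.exp ((2 * u + 2 * b + 1) * m) * gw w p f m i y + DD w p j m i (y - 1) := by
  constructor
  · have h1 := gup78 hw hp hf hu hb m i y h
    have h2 := gU_mono hw hp hfb m i y
    rw [gU_DU] at h2
    linarith
  · have h1 := gdn78 hw hp hf hu hb m i y h
    have h2 := gD_mono (p := p) hw hfb m i (y - 1)
    rw [gD_DD] at h2
    linarith

end

end Pool.Agent.W_7d29a1_C1.Nbr78
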