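import Pool.Agent.W_7d29a1_C1.Nu31
import Pool.Agent.W_7d29a1_C1.ShlC8

/-!
MP_7d29a1_pr, attractor route [C1], field `nu`: **THE NUMBERS OF `V` AND OF `hdet` AT ONE SCALE** (helper74, for helper31 / helper77).
`Ks74` = the constants, `nu74` = the numbers `ν` of `V8` (functions of `t`), `d74` = the numbers `d` of `vt31`. **`nd_at74`** : `Nu31`
from the inequalities between scales.
-/

set_option autoImplicit false

namespace Pool.Agent.W_7d29a1_C1.P74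

open MeasureTheory Finset
open Pool.Agent.W_7d29a1_F Pool.Agent.W_7d29a1_h4g Pool.Agent.W_7d29a1_H Pool.Agent.W_7d29a1_HS
open Pool.Agent.W_7d29a1_C1.H75 Pool.Agent.W_7d29a1_C1.U16
open Pool.Agent.W_7d29a1_C1.FarK89 Pool.Agent.W_7d29a1_C1.FarW89
open Pool.Agent.W_7d29a1_C1.T10 (Tg Tg_pos Tg_mono)
open Pool.Agent.W_7d29a1_C1.H60 (Cx)
open Pool.Agent.W_7d29a1_C1.G37 (Gm)
open Pool.Agent.W_7d29a1_C1.H56 (aT56)
open Pool.Agent.W_7d29a1_C1.H8 (KV8 NB8)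
open Pool.Agent.W_7d29a1_C1.D31

noncomputable section

/-- The constants of the numbers: `m` = distance scale, `m₁`, first shell `l₁`, far shells `l₂ ≤ l`, `l'` = the window `W₁'`, `A Φ` = local
regularity, `σ` its slope, `δ` = slope of the stay, `η` = price, `X` its additive loss, `Qa pa` = lower levels, `U₁` = first shell, `G`. -/
structure Ks74 where
  m : ℕ
  m₁ : ℕ
  l₁ : ℕ
  l₂ : ℕ
  l' : ℕ
  pa : ℕ
  A : ℝ
  Φ : ℝ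
  σ : ℝ
  δ : ℝ
  η : ℝ
  X : ℝ
  Qa : ℝ
  U₁ : ℝ
  G : ℝ

/-- The level of local regularity of the shell `l`, in the unit of the ball. -/
def Ks74.r (k : Ks74) (l : ℕ) : ℝ := k.A * k.Φ ^ (l + 1) + 2

/-- The level of the ball. -/
def Ks74.o (k : Ks74) (t : ℕ) : ℕ := t + (k.m + k.m₁)

/-- The scale of the separation. -/
def Ks74.u (k : Ks74) (t : ℕ) : ℕ := t + (k.m₁ - 1)

theorem Ks74.ou (k : Ks74) (t : ℕ) (h : 1 ≤ k.m₁) : k.o t = k.u t + k.m + 1 := by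
  unfold Ks74.o Ks74.u
  omega

/-- **The numbers of `V8`.** -/
def nu74 (μ : Measure ℝ) (s : ℝ) (T : ℕ → ℕ) (k : Ks74) (κ : KV8) : NV31 where
  Ts := T
  E := fun t => EE μ s (T (t + (k.m + k.m₁)))
  w := fun t => wd μ s (T (t + (k.m + k.m₁)))
  j₀ := 2
  m₂ := k.m + k.m₁
  P := κ.P
  c₁ := κ.c₁
  c₃ := κ.c₃
  Q := κ.Q
  S := κ.S
  W1 := fun t => wd μ s (T (t + (k.m + k.m₁) + k.l₁))
  W1' := fun t => κ.w₁' * wd μ s (T (t + (k.m + k.m₁)))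
  W2 := fun t => wd μ s (T (t + (k.m + k.m₁) + k.l₂))
  g := fun t => κ.g * EE μ s (T (t + (k.m + k.m₁)))
  q₁ := fun t => k.r k.l' * EE μ s (T (t + (k.m + k.m₁))) +
    2 * (k.σ * (EE μ s (T (t + (k.m + k.m₁))) / wd μ s (T (t + (k.m + k.m₁))))) * (κ.w₁' * wd μ s (T (t + (k.m + k.m₁))))
  q₂ := fun t => k.r k.l₂ * EE μ s (T (t + (k.m + k.m₁))) +
    2 * (k.σ * (EE μ s (T (t + (k.m + k.m₁))) / wd μ s (T (t + (k.m + k.m₁))))) * wd μ s (T (t + (k.m + k.m₁) + k.l₂))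
  gf := fun t => κ.gf * EE μ s (T (t + (k.m + k.m₁)))

/-- **The numbers of `vt31`.** -/
def d74 (μ : Measure ℝ) (s : ℝ) (h₀ K B : ℕ) (k : Ks74) (κ : KV8) (h : ℝ) (t M L lT lm : ℕ) (Lη Bp R : ℝ) (κv : ℕ → ℝ) : ND31 where
  o := k.o t
  u := k.u t
  L := L
  l₁ := k.l₁
  l₂ := k.l₂
  l' := k.l'
  lT := lT
  lm := lm
  m0 := k.m
  Mt := M
  al := fun l => (l - 1) / 2
  nl := fun l => l + 1
  nb := fun j v => k.o t + j - v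
  Wd := fun l => wd μ s (Tg h₀ K (k.o t + l))
  κ := fun j => if j < L then k.η * EE μ s (Tg h₀ K (k.u t + (j - 1) / 2)) - k.X - 1 else
    k.η * EE μ s (Tg h₀ K (k.u t + (lT - 1) / 2)) - k.X - 1
  r := fun l => k.r l * EE μ s (Tg h₀ K (k.o t))
  a := fun l => k.Qa * (1 + (l : ℝ)) ^ k.pa * EE μ s (Tg h₀ K (k.o t))
  κv := κv
  K₁ := 2
  A := k.A
  Φ := k.Φ
  σ₁ := k.σ
  δ := k.δ
  D₀ := wd μ s (B * Tg h₀ K t)
  Lη := Lη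
  Bp := Bp
  aT := aT56 μ s h (2 * Tg h₀ K (k.o t)) Lη Bp
  u₁ := k.U₁ * EE μ s (Tg h₀ K (k.o t))
  g₁ := k.G * EE μ s (Tg h₀ K (k.o t))
  κ₀ := (κ.g * EE μ s (Tg h₀ K (k.o t)) + 3) / 2
  R := R
  sg := κ.c₃ - κ.c₁

variable {μ : Measure ℝ} [IsProbabilityMeasure μ] {s c C : ℝ} {n₀ : ℕ}

/-- **The inequalities between the scales** at the level `t`. -/
structure Sc74 (μ : Measure ℝ) (s c : ℝ) (P : ℕ) (Q Kw C₅ C₆ D₅ D₆ : ℝ) (B h₀ K : ℕ) (k : Ks74) (κ : KV8) (h : ℝ) (t M L lT : ℕ)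
    (Lη Bp R N : ℝ) : Prop where
  mo : ∀ a b : ℕ, 1 ≤ a → a ≤ b → wd μ s (Tg h₀ K a) ≤ wd μ s (Tg h₀ K b) ∧ EE μ s (Tg h₀ K a) ≤ EE μ s (Tg h₀ K b)
  w1 : ∀ a : ℕ, 1 ≤ a → 1 ≤ wd μ s (Tg h₀ K a)
  oM : k.o t + L ≤ M
  σw : k.σ ≤ wd μ s (Tg h₀ K (k.o t))
  hD : wd μ s (B * Tg h₀ K t) + 2 ≤ wd μ s (Tg h₀ K (k.o t))
  Wn : wd μ s (Tg h₀ K (k.o t + k.l₂)) ≤ Tg h₀ K (k.o t)
  wl₁ : wd μ s (Tg h₀ K (k.o t + k.l₁)) ≤ κ.w₁' * wd μ s (Tg h₀ K (k.o t))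
  wl' : κ.w₁' * wd μ s (Tg h₀ K (k.o t)) ≤ wd μ s (Tg h₀ K (k.o t + (k.l' + 1)))
  hL : Lη ≤ EE μ s (Tg h₀ K (k.o t))
  T2 : 4 * (Tg h₀ K (k.u t + L) : ℝ) ≤ wd μ s (Tg h₀ K M)
  T3 : 2 * (Tg h₀ K (k.u t + lT) : ℝ) + 2 * wd μ s (Tg h₀ K (k.u t + lT + k.m)) + wd μ s (B * Tg h₀ K t) ≤
    wd μ s (Tg h₀ K (k.o t + L))
  T1 : lev31 κ.P κ.c₁ κ.Q κ.S (EE μ s (Tg h₀ K (k.o t))) (wd μ s (Tg h₀ K (k.o t))) R +
    aT56 μ s h (2 * Tg h₀ K (k.o t)) Lη Bp + k.G * EE μ s (Tg h₀ K (k.o t)) + k.X + 2 ≤ k.η * EE μ s (Tg h₀ K (k.u t + (lT - 1) / 2))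
  lvl : ∀ l, l < L → D₆ * Q * gr (2 * P) ((wd μ s (Tg h₀ K (k.o t + (l + 1))) + wd μ s (B * Tg h₀ K t) + 1) /
    wd μ s (2 * Tg h₀ K (k.o t)) + (Kw - 2)) * EE μ s (2 * Tg h₀ K (k.o t)) + Lη ≤
      k.Qa * (1 + (l : ℝ)) ^ k.pa * EE μ s (Tg h₀ K (k.o t))
  lvu : Lη + (LQ (2 * P) (c / 8) (D₅ * Q) * gr (2 * P) ((wd μ s (Tg h₀ K (k.o t + k.l₁)) + wd μ s (B * Tg h₀ K t)) /
    wd μ s (2 * Tg h₀ K (k.o t))) + Q) * EE μ s (2 * Tg h₀ K (k.o t)) ≤ k.U₁ * EE μ s (Tg h₀ K (k.o t))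
  st : ∀ j v nb : ℕ, k.u t ≤ v → v + 2 ≤ k.u t + j → v + 1 + nb = k.u t + k.m + 2 + j →
    wd μ s (Tg h₀ K (k.u t + k.m + 1 + (j + 1))) + wd μ s (B * Tg h₀ K t) + 1 ≤ 2 * wd μ s (Tg h₀ K (v + 1 + nb)) ∧
    k.δ * (EE μ s (2 * Tg h₀ K (v + 1)) / wd μ s (2 * Tg h₀ K (v + 1))) +
      k.σ * (EE μ s (Tg h₀ K (v + 1)) / wd μ s (Tg h₀ K (v + 1))) ≤ hc μ s c (2 * Tg h₀ K (v + 1)) / 8 ∧
    lst31 P c k.δ C₅ C₆ Q (Kw - 2) (wd μ s (2 * Tg h₀ K (v + 1))) (wd μ s (Tg h₀ K (k.u t + k.m + 1 + (j + 1))) +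
        wd μ s (B * Tg h₀ K t)) * EE μ s (2 * Tg h₀ K (v + 1)) + k.A * (k.Φ ^ nb * EE μ s (Tg h₀ K (v + 1))) +
        k.σ * (EE μ s (Tg h₀ K (v + 1)) / wd μ s (Tg h₀ K (v + 1))) ≤
      (hc μ s c (2 * Tg h₀ K (v + 1)) / 8 - k.δ * (EE μ s (2 * Tg h₀ K (v + 1)) / wd μ s (2 * Tg h₀ K (v + 1))) -
        k.σ * (EE μ s (Tg h₀ K (v + 1)) / wd μ s (Tg h₀ K (v + 1)))) *
        (wd μ s (Tg h₀ K (k.u t + k.m + 1 + j)) - wd μ s (B * Tg h₀ K t) - 2 * wd μ s (Tg h₀ K (v + k.m)))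
  Bl : ∀ (L' : ℕ) (R' aT : ℝ) (r a Wd : ℕ → ℝ) (σ : ℝ), L' ≤ L → (∀ l, l ≤ L' → Wd l = wd μ s (Tg h₀ K (k.o t + l))) →
    (∀ l, l < L' → r l = k.r l * EE μ s (Tg h₀ K (k.o t))) →
    (∀ l, l < L' → a l = k.Qa * (1 + (l : ℝ)) ^ k.pa * EE μ s (Tg h₀ K (k.o t))) → σ ≤ EE μ s (Tg h₀ K (k.o t)) → ∀ j, k.l₂ ≤ j → j < L' →
    loss31 κ.P κ.c₁ κ.Q κ.S (EE μ s (Tg h₀ K (k.o t))) (wd μ s (Tg h₀ K (k.o t))) Wd L' R' σ aT r a j +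
      (k.G + 1) * EE μ s (Tg h₀ K (k.o t)) ≤ k.η * EE μ s (Tg h₀ K (k.u t + (j - 1) / 2))
  hX : k.X + 2 ≤ EE μ s (Tg h₀ K (k.o t))
  pr : ∀ v, k.u t + 1 ≤ v → k.η * EE μ s (Tg h₀ K (k.u t)) + Real.log (L + 1) + (k.X + 4) ≤ k.η * EE μ s (Tg h₀ K v)
  kst : κ.g * EE μ s (Tg h₀ K (k.o t)) ≤ k.η * EE μ s (Tg h₀ K (k.u t))
  k4 : 5 ≤ κ.g * EE μ s (Tg h₀ K (k.o t))
  num : 4 * N * (L + 1) * N ^ 2 * Real.exp (2 * (k.r k.l' * EE μ s (Tg h₀ K (k.o t)) +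
    2 * (k.σ * (EE μ s (Tg h₀ K (k.o t)) / wd μ s (Tg h₀ K (k.o t)))) * (κ.w₁' * wd μ s (Tg h₀ K (k.o t)))) +
    k.U₁ * EE μ s (Tg h₀ K (k.o t)) + κ.gf * EE μ s (Tg h₀ K (k.o t))) ≤ Real.exp (k.G * EE μ s (Tg h₀ K (k.o t)))

/-- **`Nu31` AT ONE SCALE.** -/
theorem nd_at74 {P : ℕ} {Q Kw C₅ C₆ D₅ D₆ : ℝ} {GS : Gm} {B h₀ K : ℕ} {Γ : Cx} {k : Ks74} {κ : KV8} {t M L lT lm : ℕ} {Lη Bp R : ℝ}
    {κv : ℕ → ℝ} (H : Sc74 μ s c P Q Kw C₅ C₆ D₅ D₆ B h₀ K k κ Γ.h t M L lT Lη Bp R ((Icc 0 Γ.hi).card : ℝ))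
    (hK : 1 ≤ K) (ht : 2 ≤ t) (hm₁ : 1 ≤ k.m₁) (hl₁ : k.l₁ = 2 * k.m + 5) (h12 : k.l₁ ≤ k.l₂) (h'2 : k.l' < k.l₂) (h2L : k.l₂ < L)
    (h1T : k.l₁ ≤ lT) (hTm : lT ≤ lm) (hLm : L ≤ lm + 1) (hGw : ∀ v, 1 ≤ v → GS.w v = wd μ s (Tg h₀ K v)) (hσ : 0 ≤ k.σ) (hδ : 0 < k.δ)
    (hη : 0 ≤ k.η) (hc₁ : 0 < κ.c₁) (hc₃ : k.σ ≤ κ.c₃ - κ.c₁) (hQ : 0 ≤ κ.Q)
    (hκv : ∀ v, k.o t + 1 ≤ v → v ≤ k.u t + lm → k.η * EE μ s (Tg h₀ K v) - k.X ≤ κv v) :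
    Nu31 μ s c P Q Kw C₅ C₆ D₅ D₆ GS B h₀ K Γ (nu74 μ s (Tg h₀ K) k κ) t (d74 μ s h₀ K B k κ Γ.h t M L lT lm Lη Bp R κv) := by
  have ou := k.ou t hm₁
  have u1 : 1 ≤ k.u t := by unfold Ks74.u; omega
  have o1 : 1 ≤ k.o t := by unfold Ks74.o; omega
  obtain ⟨E, hE⟩ : ∃ E, E = EE μ s (Tg h₀ K (k.o t)) := ⟨_, rfl⟩
  obtain ⟨w, hw⟩ : ∃ w, w = wd μ s (Tg h₀ K (k.o t)) := ⟨_, rfl⟩
  obtain ⟨D, hDe⟩ : ∃ D, D = wd μ s (B * Tg h₀ K t) := ⟨_, rfl⟩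
  have hE0 : 0 < EE μ s (Tg h₀ K (k.o t)) := EE_pos _
  have hw1 : 1 ≤ wd μ s (Tg h₀ K (k.o t)) := H.w1 _ o1
  have hw0 : 0 < wd μ s (Tg h₀ K (k.o t)) := by linarith
  have hEw : 0 ≤ EE μ s (Tg h₀ K (k.o t)) / wd μ s (Tg h₀ K (k.o t)) := by positivity
  have hσE : k.σ * (EE μ s (Tg h₀ K (k.o t)) / wd μ s (Tg h₀ K (k.o t))) ≤ EE μ s (Tg h₀ K (k.o t)) := by
    rw [mul_div_assoc', div_le_iff₀ hw0, mul_comm]
    exact mul_le_mul_of_nonneg_left H.σw hE0.le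
  have hsc : k.σ * (EE μ s (Tg h₀ K (k.o t)) / wd μ s (Tg h₀ K (k.o t))) ≤
      (κ.c₃ - κ.c₁) * (EE μ s (Tg h₀ K (k.o t)) / wd μ s (Tg h₀ K (k.o t))) := mul_le_mul_of_nonneg_right hc₃ hEw
  have hTmono : ∀ a b : ℕ, a ≤ b → (Tg h₀ K a : ℝ) ≤ Tg h₀ K b := fun a b h => by exact_mod_cast Tg_mono hK h
  have wmo : ∀ a b : ℕ, 1 ≤ a → a ≤ b → wd μ s (Tg h₀ K a) ≤ wd μ s (Tg h₀ K b) := fun a b h1 h2 => (H.mo a b h1 h2).1
  have emo : ∀ a b : ℕ, 1 ≤ a → a ≤ b → EE μ s (Tg h₀ K a) ≤ EE μ s (Tg h₀ K b) := fun a b h1 h2 => (H.mo a b h1 h2).2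
  have hlow := H.hD
  have hWo : wd μ s (Tg h₀ K (k.o t)) ≤ Tg h₀ K (k.o t) := (wmo _ (k.o t + k.l₂) o1 (by omega)).trans H.Wn
  have hTuL : (Tg h₀ K (k.o t) : ℝ) ≤ Tg h₀ K (k.u t + L) := hTmono _ _ (by omega)
  have hT2 := H.T2
  refine
    { ts := rfl
      tO := rfl
      t1 := by omega
      tj := ht
      uo := by show k.u t + k.m + 1 ≤ k.o t; omega
      h12 := h12
      h2L := h2L
      h'2 := h'2
      h1T := h1T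
      hTm := hTm
      hLm := hLm
      E0 := hE0
      w0 := hw0
      Q0 := hQ
      c1 := hc₁
      σ0 := hσ
      δ0 := hδ
      sc := hsc
      sg := hsc
      Wp := fun l => zero_le_one.trans (H.w1 _ (by omega))
      Wm := fun l hl => wmo _ _ (by omega) (by have : l < L := hl; show k.o t + (l + 1) ≤ k.o t + L; omega)
      W12 := wmo _ _ (by show 1 ≤ k.o t + k.l₁; omega) (by show k.o t + k.l₁ ≤ k.o t + k.l₂; omega)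
      W1 := H.w1 _ (by show 1 ≤ k.o t + k.l₁; omega)
      W2 := wmo _ _ (by show 1 ≤ k.o t + k.l₂; omega) (by show k.o t + k.l₂ ≤ k.o t + (k.l₂ + 1); omega)
      Wn := by
        show 2 * wd μ s (Tg h₀ K (k.o t + k.l₂)) ≤ 2 * (Tg h₀ K (k.o t) : ℝ)
        linarith [H.Wn]
      D0 := le_rfl
      n1 := rfl
      n2 := rfl
      n3 := H.wl'
      n3' := H.wl₁
      n4 := by
        show 2 * (κ.w₁' * wd μ s (Tg h₀ K (k.o t))) ≤ 2 * (Tg h₀ K (k.o t) : ℝ)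
        have h1 := H.wl'
        have h2 := wmo (k.o t + (k.l' + 1)) (k.o t + k.l₂) (by omega) (by omega)
        linarith [H.Wn]
      n5 := by
        show κ.g * EE μ s (Tg h₀ K (k.o t)) = 2 * ((κ.g * EE μ s (Tg h₀ K (k.o t)) + 3) / 2) - 3
        ring
      n6 := rfl
      n7 := rfl
      lrM := fun l hl => by
        have h1 : l < L := hl
        have h2 := H.oM
        show k.o t + (l + 1) ≤ M
        omega
      lrW := fun l hl => by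
        show wd μ s (Tg h₀ K (k.o t + (l + 1))) + 1 + wd μ s (B * Tg h₀ K t) ≤ 2 * wd μ s (Tg h₀ K (k.o t + (l + 1)))
        have h2 := wmo (k.o t) (k.o t + (l + 1)) o1 (by omega)
        linarith
      lrT := fun l hl => by
        have h1 : l < L := hl
        have h2 := H.oM
        show wd μ s (Tg h₀ K (k.o t + (l + 1))) + 1 + wd μ s (B * Tg h₀ K t) + (2 * (Tg h₀ K (k.o t) : ℝ) + 1) ≤ 2 * wd μ s (Tg h₀ K M)
        have h3 := wmo (k.o t + (l + 1)) M (by omega) (by omega)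
        linarith
      lrr := fun l hl => by
        show k.A * (k.Φ ^ (l + 1) * EE μ s (Tg h₀ K (k.o t))) + 2 * Lη ≤ (k.A * k.Φ ^ (l + 1) + 2) * EE μ s (Tg h₀ K (k.o t))
        have h1 := H.hL
        linarith
      lvl := fun l _ hl => H.lvl l hl
      lvu := H.lvu
      one := le_rfl
      st := fun j v hj hjL hov huv hvj => ?_
      stT := fun v hov huv hvj => ?_
      pr := fun j v hj hjL hov huv hvj => ?_
      prT := fun v hov huv hvj => ?_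
      Bκ := fun j hj hjL => ?_
      κ0 := fun j hj hjL => ?_
      κ4 := ?_
      num := H.num }
  · -- stay
    have a1 : k.l₁ ≤ j := hj
    have a2 : j < L := hjL
    have a3 : k.o t + 1 ≤ v := hov
    have a4 : v + 2 ≤ k.u t + j := hvj
    have a5 := H.oM
    have e1 : v + 1 + (k.o t + j - v) = k.u t + k.m + 2 + j := by omega
    obtain ⟨g1, g2, g3⟩ := H.st j v (k.o t + j - v) (by omega) a4 e1
    have e2 : k.u t + k.m + 1 + (j + 1) = k.o t + (j + 1) := by omega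
    have e3 : k.u t + k.m + 1 + j = k.o t + j := by omega
    rw [e2] at g1 g3
    rw [e3] at g3
    refine ⟨?_, g1, ?_, g2, ?_⟩
    · show v + 1 + (k.o t + j - v) ≤ M
      omega
    · show wd μ s (Tg h₀ K (k.o t + (j + 1))) + wd μ s (B * Tg h₀ K t) + 1 + 2 * (Tg h₀ K (v + 1) : ℝ) ≤ 2 * wd μ s (Tg h₀ K M)
      have h3 := wmo (k.o t + (j + 1)) M (by omega) (by omega)
      have h4 := hTmono (v + 1) (k.u t + L) (by omega)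
      linarith
    · show lst31 P c k.δ C₅ C₆ Q (Kw - 2) (wd μ s (2 * Tg h₀ K (v + 1))) (wd μ s (Tg h₀ K (k.o t + (j + 1))) + wd μ s (B * Tg h₀ K t)) *
          EE μ s (2 * Tg h₀ K (v + 1)) + k.A * (k.Φ ^ (k.o t + j - v) * EE μ s (Tg h₀ K (v + 1))) +
          k.σ * (EE μ s (Tg h₀ K (v + 1)) / wd μ s (Tg h₀ K (v + 1))) ≤
        (hc μ s c (2 * Tg h₀ K (v + 1)) / 8 - k.δ * (EE μ s (2 * Tg h₀ K (v + 1)) / wd μ s (2 * Tg h₀ K (v + 1))) -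
          k.σ * (EE μ s (Tg h₀ K (v + 1)) / wd μ s (Tg h₀ K (v + 1)))) *
          (wd μ s (Tg h₀ K (k.o t + j)) - wd μ s (B * Tg h₀ K t) - 2 * GS.w (v + k.m))
      rw [hGw (v + k.m) (by omega)]
      exact g3
  · -- stay, top
    have a3 : k.o t + 1 ≤ v := hov
    have a4 : v + 2 ≤ k.u t + lT := hvj
    show 2 * (Tg h₀ K (v + 1) : ℝ) + 2 * GS.w (v + k.m) + wd μ s (B * Tg h₀ K t) ≤ wd μ s (Tg h₀ K (k.o t + L))
    rw [hGw (v + k.m) (by omega)]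
    have h1 := hTmono (v + 1) (k.u t + lT) (by omega)
    have h2 := wmo (v + k.m) (k.u t + lT + k.m) (by omega) (by omega)
    linarith [H.T3]
  · -- prices
    have a1 : k.l₁ ≤ j := hj
    have a2 : j < L := hjL
    have a3 : k.o t + 1 ≤ v := hov
    have a4 : v + 2 ≤ k.u t + j := hvj
    have a5 : k.u t + (j - 1) / 2 ≤ v := huv
    show (if j < L then k.η * EE μ s (Tg h₀ K (k.u t + (j - 1) / 2)) - k.X - 1 else
      k.η * EE μ s (Tg h₀ K (k.u t + (lT - 1) / 2)) - k.X - 1) + 1 ≤ κv v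
    rw [if_pos a2]
    have h1 := hκv v a3 (by omega)
    have h2 := mul_le_mul_of_nonneg_left (emo _ v (by omega) a5) hη
    linarith
  · have a3 : k.o t + 1 ≤ v := hov
    have a4 : v + 2 ≤ k.u t + lT := hvj
    have a5 : k.u t + (lT - 1) / 2 ≤ v := huv
    show (if L < L then k.η * EE μ s (Tg h₀ K (k.u t + (L - 1) / 2)) - k.X - 1 else
      k.η * EE μ s (Tg h₀ K (k.u t + (lT - 1) / 2)) - k.X - 1) + 1 ≤ κv v
    rw [if_neg (lt_irrefl L)]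
    have h1 := hκv v a3 (by omega)
    have h2 := mul_le_mul_of_nonneg_left (emo _ v (by omega) a5) hη
    linarith
  · -- losses
    have a1 : k.l₂ ≤ j := hj
    have a2 : j ≤ L := hjL
    show loss31 κ.P κ.c₁ κ.Q κ.S (EE μ s (Tg h₀ K (k.o t))) (wd μ s (Tg h₀ K (k.o t))) (fun l => wd μ s (Tg h₀ K (k.o t + l))) L R
      (k.σ * (EE μ s (Tg h₀ K (k.o t)) / wd μ s (Tg h₀ K (k.o t)))) (aT56 μ s Γ.h (2 * Tg h₀ K (k.o t)) Lη Bp)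
      (fun l => k.r l * EE μ s (Tg h₀ K (k.o t))) (fun l => k.Qa * (1 + (l : ℝ)) ^ k.pa * EE μ s (Tg h₀ K (k.o t))) j +
      k.G * EE μ s (Tg h₀ K (k.o t)) + 1 ≤
      if j < L then k.η * EE μ s (Tg h₀ K (k.u t + (j - 1) / 2)) - k.X - 1 else
        k.η * EE μ s (Tg h₀ K (k.u t + (lT - 1) / 2)) - k.X - 1
    rcases lt_or_eq_of_le a2 with h1 | rfl
    · rw [if_pos h1]
      have h2 := H.Bl L R (aT56 μ s Γ.h (2 * Tg h₀ K (k.o t)) Lη Bp) (fun l => k.r l * EE μ s (Tg h₀ K (k.o t)))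
        (fun l => k.Qa * (1 + (l : ℝ)) ^ k.pa * EE μ s (Tg h₀ K (k.o t))) (fun l => wd μ s (Tg h₀ K (k.o t + l)))
        (k.σ * (EE μ s (Tg h₀ K (k.o t)) / wd μ s (Tg h₀ K (k.o t)))) le_rfl (fun _ _ => rfl) (fun _ _ => rfl) (fun _ _ => rfl) hσE j a1 h1
      have h3 := H.hX
      linarith [h2]
    · rw [if_neg (lt_irrefl j)]
      unfold loss31
      rw [if_neg (lt_irrefl j)]
      linarith [H.T1]
  · have a1 : k.l₁ ≤ j := hj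
    have a2 : j ≤ L := hjL
    show (κ.g * EE μ s (Tg h₀ K (k.o t)) + 3) / 2 + Real.log (L + 1) + 1 ≤
      if j < L then k.η * EE μ s (Tg h₀ K (k.u t + (j - 1) / 2)) - k.X - 1 else
        k.η * EE μ s (Tg h₀ K (k.u t + (lT - 1) / 2)) - k.X - 1
    have h1 := H.kst
    have h2 := H.k4
    split_ifs with h3
    · have h4 := H.pr (k.u t + (j - 1) / 2) (by omega)
      linarith
    · have h4 := H.pr (k.u t + (lT - 1) / 2) (by omega)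
      linarith
  · show 4 ≤ Real.exp ((κ.g * EE μ s (Tg h₀ K (k.o t)) + 3) / 2)
    have h2 := H.k4
    have h3 := Real.add_one_le_exp ((κ.g * EE μ s (Tg h₀ K (k.o t)) + 3) / 2)
    linarith

end

end Pool.Agent.W_7d29a1_C1.P74
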