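import Pool.Agent.W_7d29a1_C1.SepM49
import Pool.Agent.W_7d29a1_C1.NumV77
import Pool.Agent.W_7d29a1_C1.ShlA8

/-!
MP_7d29a1_pr, attractor route [C1], field `nu`: **THE PRICES AND THE WIDTHS OF THE EVENT `V`**. Scales `T v = Tg h₀ K v`, `h₀ = h8 Q e₀ n`.
(helper74, hand of helper77)

`dbl74` : `EE` doubles per scale; `big74` : `log (L + 1) + X ≤ η EE`; **`price74`** : `η E_u + log (L + 1) + X ≤ η E_v` for `v ≥ u + 1`.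
`wup74`, `wlo74`, `wmono74`, `w1_74` : the widths of the shells. **`hnum74`** : the last line `hnum` of `vin95`, `G = 2 q₁ + u₁ + gf + 1`.
-/

set_option autoImplicit false

namespace Pool.Agent.W_7d29a1_C1.P74

open MeasureTheory Finset Filter Topology
open Pool.Agent.W_7d29a1_F Pool.Agent.W_7d29a1_h4g Pool.Agent.W_7d29a1_H Pool.Agent.W_7d29a1_HS
open Pool.Agent.W_7d29a1_C1.T10 (Tg Tg_pos)
open Pool.Agent.W_7d29a1_C1.H8 (h8 m8)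
open Pool.Agent.W_7d29a1_C1.H77 (grow77 Tg_ge77 Tg_add77)
open Pool.Agent.W_7d29a1_C1.N49 (model_E)

noncomputable section

variable {μ : Measure ℝ} [IsProbabilityMeasure μ] {s c C : ℝ} {n₀ : ℕ}

/-! ### Energies -/

/-- **The energy doubles per scale** (`K` large, then `h₀` large). -/
theorem dbl74 (h0 : In μ s c C n₀) : ∃ K₁ : ℕ, 2 ≤ K₁ ∧ ∃ n₁ : ℕ, 1 ≤ n₁ ∧ ∀ K : ℕ, K₁ ≤ K → ∀ h₀ : ℕ, n₁ ≤ h₀ → ∀ u v : ℕ, 1 ≤ u →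
    u + 1 ≤ v → 2 * EE μ s (Tg h₀ K u) ≤ EE μ s (Tg h₀ K v) ∧ 2 * wd μ s (Tg h₀ K u) ≤ wd μ s (Tg h₀ K v) := by
  obtain ⟨a, k, ha, ha1, hk, hk1, n₁, hn₁, HG⟩ := grow77 h0
  obtain ⟨K₁, hK₁⟩ := exists_nat_ge ((2 / k) ^ (1 / a))
  refine ⟨max K₁ 2, le_max_right _ _, n₁, hn₁, fun K hK h₀ hh u v hu huv => ?_⟩
  have hK2 : 2 ≤ K := (le_max_right _ _).trans hK
  have hKR : (1 : ℝ) ≤ K := by exact_mod_cast (by omega : 1 ≤ K)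
  have hX : 2 / k ≤ (K : ℝ) ^ a := by
    have h1 : (2 / k) ^ (1 / a) ≤ (K : ℝ) := hK₁.trans (by exact_mod_cast (le_max_left _ _).trans hK)
    calc 2 / k = ((2 / k) ^ (1 / a)) ^ a := by
          rw [← Real.rpow_mul (by positivity), one_div_mul_cancel ha.ne', Real.rpow_one]
      _ ≤ (K : ℝ) ^ a := Real.rpow_le_rpow (by positivity) h1 ha.le
  have hX2 : 2 ≤ k * (K : ℝ) ^ a := by
    rw [div_le_iff₀ hk] at hX
    linarith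
  have hX1 : 1 ≤ (K : ℝ) ^ a := Real.one_le_rpow hKR ha.le
  obtain ⟨j, rfl⟩ : ∃ j, v = u + (j + 1) := ⟨v - (u + 1), by omega⟩
  obtain ⟨⟨g1, -⟩, g2, -⟩ := HG K (by omega) h₀ hh u (j + 1) hu
  have hpow : 2 ≤ k * ((K : ℝ) ^ a) ^ (j + 1) := by
    rw [pow_succ]
    have h1 : 1 ≤ ((K : ℝ) ^ a) ^ j := one_le_pow₀ hX1
    calc (2 : ℝ) ≤ k * (K : ℝ) ^ a := hX2
      _ = 1 * (k * (K : ℝ) ^ a) := (one_mul _).symm
      _ ≤ ((K : ℝ) ^ a) ^ j * (k * (K : ℝ) ^ a) := mul_le_mul_of_nonneg_right h1 (by linarith)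
      _ = _ := by ring
  have hT : 1 ≤ Tg h₀ K u := (hn₁.trans hh).trans (Tg_ge77 (by omega) hu)
  exact ⟨(mul_le_mul_of_nonneg_right hpow (EE_pos _).le).trans g1, (mul_le_mul_of_nonneg_right hpow (h0.wd_pos hT).le).trans g2⟩

/-- The base height against `n`. -/
theorem h8_ge {Q : ℕ} (hQ : 1 ≤ Q) (e₀ : ℝ) (n : ℕ) : (n : ℝ) ^ (e₀ / 4) ≤ h8 Q e₀ n := by
  unfold h8
  push_cast
  have h1 := Nat.le_ceil ((n : ℝ) ^ (e₀ / 4))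
  have h2 : (1 : ℝ) ≤ Q := by exact_mod_cast hQ
  have h3 : (0 : ℝ) ≤ (⌈(n : ℝ) ^ (e₀ / 4)⌉₊ : ℝ) := by positivity
  nlinarith [mul_le_mul_of_nonneg_right h2 h3]

/-- A threshold for the base height. -/
theorem h8_big {e₀ : ℝ} (he₀ : 0 < e₀) {Q : ℕ} (hQ : 1 ≤ Q) (n₁ : ℕ) : ∀ᶠ n : ℕ in atTop, n₁ ≤ h8 Q e₀ n := by
  have t1 : Tendsto (fun n : ℕ => (n : ℝ) ^ (e₀ / 4)) atTop atTop :=
    (tendsto_rpow_atTop (by linarith)).comp tendsto_natCast_atTop_atTop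
  filter_upwards [t1.eventually_ge_atTop (n₁ : ℝ)] with n hn
  exact_mod_cast hn.trans (h8_ge hQ e₀ n)

/-- **`A log n + X` is less than `η` times the smallest energy.** -/
theorem big74 (h0 : In μ s c C n₀) {e₀ : ℝ} (he₀ : 0 < e₀) {K Q : ℕ} (hK : 1 ≤ K) (hQ : 1 ≤ Q) {η : ℝ} (hη : 0 < η) (A X : ℝ) :
    ∀ᶠ n : ℕ in atTop, ∀ v : ℕ, 1 ≤ v → A * Real.log n + X ≤ η * EE μ s (Tg (h8 Q e₀ n) K v) := by
  obtain ⟨e₁, he₁, n₂, HE⟩ := model_E h0 (show (0 : ℝ) < e₀ / 4 by linarith)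
  -- `log n ≤ (2 / e₁) n ^ (e₁ / 2)`
  have t1 : Tendsto (fun n : ℕ => (n : ℝ) ^ (e₁ / 2)) atTop atTop :=
    (tendsto_rpow_atTop (by linarith)).comp tendsto_natCast_atTop_atTop
  filter_upwards [t1.eventually_ge_atTop ((|A| * (2 / e₁) + |X|) / η), t1.eventually_ge_atTop 1, eventually_ge_atTop n₂,
    eventually_ge_atTop 1] with n e1 e2 hn2 hn1
  intro v hv
  have hnR : (1 : ℝ) ≤ n := by exact_mod_cast hn1
  have n0 : (0 : ℝ) < n := by linarith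
  have hT : (n : ℝ) ^ (e₀ / 4) ≤ Tg (h8 Q e₀ n) K v := (h8_ge hQ e₀ n).trans (by exact_mod_cast Tg_ge77 hK hv)
  have h1 := HE n hn2 _ hT
  have h2 : Real.log n ≤ (2 / e₁) * (n : ℝ) ^ (e₁ / 2) := by
    have h3 := Real.log_le_rpow_div n0.le (show 0 < e₁ / 2 by linarith)
    calc Real.log n ≤ (n : ℝ) ^ (e₁ / 2) / (e₁ / 2) := h3
      _ = _ := by field_simp
  have hl : 0 ≤ Real.log n := Real.log_nonneg hnR
  obtain ⟨y, hy⟩ : ∃ y : ℝ, y = (n : ℝ) ^ (e₁ / 2) := ⟨_, rfl⟩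
  rw [← hy] at e1 e2 h2
  have hyy : (n : ℝ) ^ e₁ = y * y := by
    rw [hy, ← Real.rpow_add n0]
    congr 1
    ring
  rw [hyy] at h1
  have h4 : A * Real.log n ≤ |A| * ((2 / e₁) * y) := (mul_le_mul_of_nonneg_right (le_abs_self A) hl).trans
    (mul_le_mul_of_nonneg_left h2 (abs_nonneg A))
  have h5 : X ≤ |X| * y := (le_abs_self X).trans (le_mul_of_one_le_right (abs_nonneg X) e2)
  rw [div_le_iff₀ hη] at e1
  have h6 : (|A| * (2 / e₁) + |X|) * y ≤ y * η * y := mul_le_mul_of_nonneg_right e1 (by linarith)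
  have h7 := mul_le_mul_of_nonneg_left h1 hη.le
  linarith [show |A| * ((2 / e₁) * y) + |X| * y = (|A| * (2 / e₁) + |X|) * y by ring, show y * η * y = η * (y * y) by ring]

/-- **THE PRICES**: the price of any later scale beats the price of the scale `u`, the number of shells and constants. -/
theorem price74 (h0 : In μ s c C n₀) : ∃ K₁ : ℕ, 2 ≤ K₁ ∧ ∀ K : ℕ, K₁ ≤ K → ∀ {e₀ : ℝ}, 0 < e₀ → ∀ {Q : ℕ}, 1 ≤ Q → ∀ {η : ℝ}, 0 < η → ∀ X : ℝ,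
    ∀ᶠ n : ℕ in atTop, ∀ L : ℕ, L ≤ n → ∀ u v : ℕ, 1 ≤ u → u + 1 ≤ v →
      η * EE μ s (Tg (h8 Q e₀ n) K u) + Real.log (L + 1) + X ≤ η * EE μ s (Tg (h8 Q e₀ n) K v) := by
  obtain ⟨K₁, hK₁, n₁, hn₁, HD⟩ := dbl74 h0
  refine ⟨K₁, hK₁, fun K hK e₀ he₀ Q hQ η hη X => ?_⟩
  filter_upwards [h8_big he₀ hQ n₁, big74 (K := K) h0 he₀ (by omega) hQ hη 1 (1 + X), eventually_ge_atTop 1] with n e1 e2 hn1
  intro L hL u v hu huv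
  have h1 := (HD K hK _ e1 u v hu huv).1
  have h2 := e2 u hu
  have hnR : (1 : ℝ) ≤ n := by exact_mod_cast hn1
  have hLR : (L : ℝ) ≤ n := by exact_mod_cast hL
  have hL0 : (0 : ℝ) ≤ L := Nat.cast_nonneg L
  have h3 : Real.log (L + 1) ≤ Real.log n + 1 := by
    have h4 : Real.log ((L : ℝ) + 1) ≤ Real.log (2 * n) := Real.log_le_log (by linarith) (by linarith)
    rw [Real.log_mul (by norm_num) (by linarith)] at h4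
    have h5 : Real.log 2 ≤ 1 := by
      have := Real.log_two_lt_d9
      linarith
    linarith
  have h4 := mul_le_mul_of_nonneg_left h1 hη.le
  linarith

/-- `κ₀` is large: `hκ4` of `vin95`. -/
theorem kap4_74 (h0 : In μ s c C n₀) {e₀ : ℝ} (he₀ : 0 < e₀) {K Q : ℕ} (hK : 1 ≤ K) (hQ : 1 ≤ Q) {η : ℝ} (hη : 0 < η) :
    ∀ᶠ n : ℕ in atTop, ∀ v : ℕ, 1 ≤ v → ∀ κ₀ : ℝ, η * EE μ s (Tg (h8 Q e₀ n) K v) ≤ κ₀ → 4 ≤ Real.exp κ₀ := by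
  filter_upwards [big74 h0 he₀ hK hQ hη 0 3] with n e1
  intro v hv κ₀ hκ
  have h1 := e1 v hv
  have h2 := Real.add_one_le_exp κ₀
  linarith

/-! ### The last number of `vin95` -/

/-- **`hnum`**: `N` = number of columns, `A ≤ x E`. -/
theorem hnum74 (h0 : In μ s c C n₀) {e₀ : ℝ} (he₀ : 0 < e₀) {K Q : ℕ} (hK : 1 ≤ K) (hQ : 1 ≤ Q) :
    ∀ᶠ n : ℕ in atTop, ∀ L : ℕ, L ≤ n → ∀ o : ℕ, 1 ≤ o → ∀ N A x g₁ : ℝ, 0 ≤ N → N ≤ (n : ℝ) ^ (4 : ℕ) →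
      A ≤ x * EE μ s (Tg (h8 Q e₀ n) K o) → (x + 1) * EE μ s (Tg (h8 Q e₀ n) K o) ≤ g₁ →
      4 * N * (L + 1) * N ^ 2 * Real.exp A ≤ Real.exp g₁ := by
  filter_upwards [big74 h0 he₀ hK hQ one_pos 13 3, eventually_ge_atTop 1] with n e1 hn1
  intro L hL o ho N A x g₁ hN0 hN hA hg
  have hnR : (1 : ℝ) ≤ n := by exact_mod_cast hn1
  have n0 : (0 : ℝ) < n := by linarith
  have hLR : (L : ℝ) + 1 ≤ 2 * n := by
    have : (L : ℝ) ≤ n := by exact_mod_cast hL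
    linarith
  have hL0 : (0 : ℝ) ≤ L := Nat.cast_nonneg L
  have h1 : 4 * N * (L + 1) * N ^ 2 ≤ 4 * (n : ℝ) ^ 4 * (2 * n) * ((n : ℝ) ^ 4) ^ 2 := by
    gcongr
  have h2 : 4 * (n : ℝ) ^ 4 * (2 * n) * ((n : ℝ) ^ 4) ^ 2 = 8 * (n : ℝ) ^ 13 := by ring
  have h3 : 8 * (n : ℝ) ^ 13 ≤ Real.exp (13 * Real.log n + 3) := by
    rw [Real.exp_add, show (13 : ℝ) * Real.log n = ((13 : ℕ) : ℝ) * Real.log n by norm_num, Real.exp_nat_mul, Real.exp_log n0, mul_comm]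
    refine mul_le_mul_of_nonneg_left ?_ (by positivity)
    have h4 : (2 : ℝ) ≤ Real.exp 1 := by
      have := Real.add_one_le_exp (1 : ℝ)
      linarith
    calc (8 : ℝ) = 2 ^ 3 := by norm_num
      _ ≤ Real.exp 1 ^ 3 := pow_le_pow_left₀ (by norm_num) h4 3
      _ = Real.exp 3 := by
        rw [← Real.exp_nat_mul]
        norm_num
  have h5 := e1 o ho
  rw [one_mul] at h5
  calc 4 * N * (L + 1) * N ^ 2 * Real.exp A ≤ Real.exp (13 * Real.log n + 3) * Real.exp A :=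
        mul_le_mul_of_nonneg_right (h1.trans (h2.le.trans h3)) (Real.exp_pos _).le
    _ = Real.exp (13 * Real.log n + 3 + A) := by rw [← Real.exp_add]
    _ ≤ Real.exp g₁ := Real.exp_le_exp.2 (by linarith)

/-! ### Widths -/

/-- **The widths of the shells** `Wd l = wd (T (o + l))`: `kk` before `K`. -/
theorem wid74 (h0 : In μ s c C n₀) : ∃ a kk : ℝ, 0 < a ∧ 0 < kk ∧ kk ≤ 1 ∧ ∃ n₁ : ℕ, 1 ≤ n₁ ∧ ∀ K : ℕ, 1 ≤ K → ∀ h₀ : ℕ, n₁ ≤ h₀ →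
    ∀ o l : ℕ, 1 ≤ o → 1 ≤ wd μ s (Tg h₀ K o) ∧ wd μ s (Tg h₀ K (o + l)) ≤ (K : ℝ) ^ l / kk * wd μ s (Tg h₀ K o) ∧
      kk * ((K : ℝ) ^ a) ^ l * wd μ s (Tg h₀ K o) ≤ wd μ s (Tg h₀ K (o + l)) ∧
      EE μ s (Tg h₀ K (o + l)) ≤ (K : ℝ) ^ l / kk * EE μ s (Tg h₀ K o) ∧
      kk * ((K : ℝ) ^ a) ^ l * EE μ s (Tg h₀ K o) ≤ EE μ s (Tg h₀ K (o + l)) := by
  obtain ⟨a, k, ha, ha1, hk, hk1, n₁, hn₁, HG⟩ := grow77 h0
  obtain ⟨n₂, H2⟩ := eventually_atTop.1 ((wd_tendsto h0).eventually_ge_atTop 1)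
  refine ⟨a, k, ha, hk, hk1, max n₁ n₂, hn₁.trans (le_max_left _ _), fun K hK h₀ hh o l ho => ?_⟩
  have t1 := (le_max_left _ _).trans hh
  have t2 := (le_max_right _ _).trans hh
  obtain ⟨⟨g1, g2⟩, g3, g4⟩ := HG K hK h₀ t1 o l ho
  refine ⟨H2 _ (t2.trans (Tg_ge77 hK ho)), ?_, g3, ?_, g1⟩
  · rw [div_mul_eq_mul_div, le_div_iff₀ hk]
    linarith
  · rw [div_mul_eq_mul_div, le_div_iff₀ hk]
    linarith

/-- The widths are monotone (`K` large). -/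
theorem wmono74 (h0 : In μ s c C n₀) : ∃ K₁ : ℕ, 2 ≤ K₁ ∧ ∃ n₁ : ℕ, 1 ≤ n₁ ∧ ∀ K : ℕ, K₁ ≤ K → ∀ h₀ : ℕ, n₁ ≤ h₀ → ∀ u v : ℕ, 1 ≤ u →
    u ≤ v → wd μ s (Tg h₀ K u) ≤ wd μ s (Tg h₀ K v) ∧ EE μ s (Tg h₀ K u) ≤ EE μ s (Tg h₀ K v) := by
  obtain ⟨K₁, hK₁, n₁, hn₁, HD⟩ := dbl74 h0
  refine ⟨K₁, hK₁, n₁, hn₁, fun K hK h₀ hh u v hu huv => ?_⟩
  rcases eq_or_lt_of_le huv with rfl | huv
  · exact ⟨le_rfl, le_rfl⟩
  · obtain ⟨g1, g2⟩ := HD K hK h₀ hh u v hu huv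
    have hT : 1 ≤ Tg h₀ K u := (hn₁.trans hh).trans (Tg_ge77 (by omega) hu)
    have := h0.wd_pos hT
    have := EE_pos (μ := μ) (s := s) (Tg h₀ K u)
    exact ⟨by linarith, by linarith⟩

/-- **A shell beyond any window `w₁ wd (T o)`**: `l'` after `K` and `w₁`. -/
theorem w1_74 (h0 : In μ s c C n₀) {K : ℕ} (hK : 2 ≤ K) (w₁ : ℝ) : ∃ l' : ℕ, ∃ n₁ : ℕ, 1 ≤ n₁ ∧ ∀ h₀ : ℕ, n₁ ≤ h₀ → ∀ o l : ℕ, 1 ≤ o → l' ≤ l →
    w₁ * wd μ s (Tg h₀ K o) ≤ wd μ s (Tg h₀ K (o + l)) := by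
  obtain ⟨a, kk, ha, hk, hk1, n₁, hn₁, H⟩ := wid74 h0
  have hX : 1 < (K : ℝ) ^ a := Real.one_lt_rpow (by exact_mod_cast (by omega : 1 < K)) ha
  obtain ⟨l', hl'⟩ := pow_unbounded_of_one_lt (w₁ / kk) hX
  refine ⟨l', n₁, hn₁, fun h₀ hh o l ho hl => ?_⟩
  obtain ⟨g1, -, g3, -⟩ := H K (by omega) h₀ hh o l ho
  have h1 : w₁ ≤ kk * ((K : ℝ) ^ a) ^ l := by
    have h2 : w₁ / kk ≤ ((K : ℝ) ^ a) ^ l := hl'.le.trans (pow_le_pow_right₀ hX.le hl)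
    rw [div_le_iff₀ hk] at h2
    linarith
  exact (mul_le_mul_of_nonneg_right h1 (by linarith)).trans g3

end

end Pool.Agent.W_7d29a1_C1.P74
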