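import Pool.Agent.W_7d29a1_C1.NumV77
import Pool.Agent.W_7d29a1_C1.StayM31

/-!
MP_7d29a1_pr, attractor route [C1], field `nu`: THE NUMBERS OF THE STAY (helper56, for helper77 / helper31 `shS31`). Scales
`T v = Tg h₀ K v`, contact scale `u`, shells `Wd l = wd (T (u + m + 1 + l))`, uncovered scale `v`, tower at `b = v + 1`.
-/

set_option autoImplicit false

namespace Pool.Agent.W_7d29a1_C1.H56

open MeasureTheory Finset Filter Topology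
open Pool.Agent.W_7d29a1_F Pool.Agent.W_7d29a1_h4g Pool.Agent.W_7d29a1_H Pool.Agent.W_7d29a1_HS
open Pool.Agent.W_7d29a1_C1.FarK89 (gr AQ AQ_nonneg LQ LQ_nonneg gr_nonneg)
open Pool.Agent.W_7d29a1_C1.H75 (hc)
open Pool.Agent.W_7d29a1_C1.D31 (lst31)
open Pool.Agent.W_7d29a1_C1.T10 (Tg Tg_pos)
open Pool.Agent.W_7d29a1_C1.H77 (numB77 gr_geo77 grow77 Tg_ge77)

noncomputable section

variable {μ : Measure ℝ} [IsProbabilityMeasure μ] {s c C : ℝ} {n₀ : ℕ}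

/-- The slope of the twice larger scale. -/
theorem slope56 (h0 : In μ s c C n₀) {T : ℕ} (hT : 1 ≤ T) :
    wd μ s (2 * T) ≤ 4 * wd μ s T ∧ wd μ s T ≤ 2 * wd μ s (2 * T) ∧
      EE μ s T / wd μ s T ≤ 4 * (EE μ s (2 * T) / wd μ s (2 * T)) := by
  have h1 := vA_le_two h0 hT (show T ≤ 2 * T by omega)
  have hT0 : (0 : ℝ) < T := by exact_mod_cast hT
  have h2 : wd μ s (2 * T) ≤ 4 * wd μ s T := by
    unfold wd
    push_cast
    have := mul_le_mul_of_nonneg_left h1 (show (0 : ℝ) ≤ 2 * T by positivity)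
    linarith
  have h3 := wd_le_two h0 hT (show T ≤ 2 * T by omega)
  have w1 := h0.wd_pos hT
  have w2 := h0.wd_pos (show 1 ≤ 2 * T by omega)
  have e1 := EE_pos (μ := μ) (s := s) T
  have e2 : EE μ s T ≤ EE μ s (2 * T) := EE_mono (by omega)
  refine ⟨h2, h3, ?_⟩
  rw [← mul_div_assoc, div_le_div_iff₀ w1 w2]
  calc EE μ s T * wd μ s (2 * T) ≤ EE μ s (2 * T) * (4 * wd μ s T) := mul_le_mul e2 h2 w2.le (e1.le.trans e2)
    _ = _ := by ring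

/-- **THE NUMBERS OF THE STAY.** -/
theorem numS56 (h0 : In μ s c C n₀) {Φ σ : ℝ} (hΦ : 1 ≤ Φ) (hσ : 0 ≤ σ) (hσc : σ ≤ c / 64) : ∃ δ : ℝ, 0 < δ ∧ ∃ K₁ : ℕ, 2 ≤ K₁ ∧
    ∀ K : ℕ, K₁ ≤ K → ∀ (P : ℕ) (C₅ C₆ Q Kw A B' : ℝ), 0 ≤ C₅ → 0 ≤ C₆ → 0 ≤ Q → 2 ≤ Kw → 0 ≤ A → 0 ≤ B' → ∃ mb : ℕ, ∀ m : ℕ, mb ≤ m →
    ∃ n₁ : ℕ, 1 ≤ n₁ ∧ ∀ h₀ : ℕ, n₁ ≤ h₀ → ∀ u v j nb : ℕ, 1 ≤ u → u ≤ v → v + 2 ≤ u + j → v + 1 + nb = u + m + 2 + j →
    ∀ D0 : ℝ, 0 ≤ D0 → D0 ≤ B' * wd μ s (Tg h₀ K u) →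
      wd μ s (Tg h₀ K (u + m + 1 + (j + 1))) + D0 + 1 ≤ 2 * wd μ s (Tg h₀ K (v + 1 + nb)) ∧
      δ * (EE μ s (2 * Tg h₀ K (v + 1)) / wd μ s (2 * Tg h₀ K (v + 1))) +
        σ * (EE μ s (Tg h₀ K (v + 1)) / wd μ s (Tg h₀ K (v + 1))) ≤ hc μ s c (2 * Tg h₀ K (v + 1)) / 8 ∧
      lst31 P c δ C₅ C₆ Q (Kw - 2) (wd μ s (2 * Tg h₀ K (v + 1))) (wd μ s (Tg h₀ K (u + m + 1 + (j + 1))) + D0) *
          EE μ s (2 * Tg h₀ K (v + 1)) + A * (Φ ^ nb * EE μ s (Tg h₀ K (v + 1))) +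
          σ * (EE μ s (Tg h₀ K (v + 1)) / wd μ s (Tg h₀ K (v + 1))) ≤
        (hc μ s c (2 * Tg h₀ K (v + 1)) / 8 - δ * (EE μ s (2 * Tg h₀ K (v + 1)) / wd μ s (2 * Tg h₀ K (v + 1))) -
          σ * (EE μ s (Tg h₀ K (v + 1)) / wd μ s (Tg h₀ K (v + 1)))) *
          (wd μ s (Tg h₀ K (u + m + 1 + j)) - D0 - 2 * wd μ s (Tg h₀ K (v + m))) := by
  obtain ⟨a, k, ha, ha1, hk, hk1, n₁, hn₁, HG⟩ := grow77 h0
  have hc0 := h0.c0
  have hc1 := h0.c1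
  obtain ⟨K₁, hK₁⟩ := exists_nat_ge ((2 * Φ + 8 / k) ^ (1 / a))
  refine ⟨c / 32, by positivity, max K₁ 2, le_max_right _ _, ?_⟩
  intro K hK P C₅ C₆ Q Kw A B' hC₅ hC₆ hQ hKw hA hB'
  have hK2 : 2 ≤ K := (le_max_right _ _).trans hK
  have hKR : (1 : ℝ) ≤ K := by exact_mod_cast (by omega : 1 ≤ K)
  obtain ⟨X, hXd⟩ : ∃ X : ℝ, X = (K : ℝ) ^ a := ⟨_, rfl⟩
  have hX : 2 * Φ + 8 / k ≤ X := by
    have h1 : (2 * Φ + 8 / k) ^ (1 / a) ≤ (K : ℝ) := hK₁.trans (by exact_mod_cast (le_max_left _ _).trans hK)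
    rw [hXd]
    calc 2 * Φ + 8 / k = ((2 * Φ + 8 / k) ^ (1 / a)) ^ a := by
          rw [← Real.rpow_mul (by positivity), one_div_mul_cancel ha.ne', Real.rpow_one]
      _ ≤ (K : ℝ) ^ a := Real.rpow_le_rpow (by positivity) h1 ha.le
  have h8k : 0 < 8 / k := by positivity
  have hX1 : 2 * Φ ≤ X := by linarith
  have hX2 : 8 ≤ k * X := by
    have h1 : 8 / k ≤ X := by linarith
    rw [div_le_iff₀ hk] at h1
    linarith
  have hX3 : 2 ≤ X := by linarith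
  have hX0 : 0 < X := by linarith
  have HG := HG K (show 1 ≤ K by omega)
  rw [← hXd] at HG
  -- the levels
  obtain ⟨Z, hZ⟩ : ∃ Z : ℝ, Z = LQ (2 * P) (c / 8) (C₅ * Q) := ⟨_, rfl⟩
  have hZ0 : 0 ≤ Z := by rw [hZ]; exact LQ_nonneg _ (mul_nonneg hC₅ hQ)
  obtain ⟨Aq, hAq⟩ : ∃ Aq : ℝ, Aq = AQ (2 * P) (c / 32) Z := ⟨_, rfl⟩
  have hAq0 : 0 ≤ Aq := by rw [hAq]; exact AQ_nonneg _ _ _
  obtain ⟨Cg, hCg, Hg⟩ := gr_geo77 (2 * P) (A := Aq + 2 * B' + Kw) (B := 2 / k) (K := (K : ℝ)) (by linarith) (by positivity) hKR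
  obtain ⟨mB, HB⟩ := numB77 hΦ hX1 (show 0 < c * k / (256 * X) by positivity) ((2 * Z + C₆ * Q) * Cg) A (5 + 2 * Q) (2 * P)
  obtain ⟨m₂, hm₂⟩ := pow_unbounded_of_one_lt (4 * (B' + 1) / k) (show 1 < X by linarith)
  refine ⟨max mB m₂, fun m hm => ?_⟩
  obtain ⟨n₅, hn₅⟩ := eventually_atTop.1 ((wd_tendsto h0).eventually_ge_atTop 1)
  refine ⟨max n₁ n₅, hn₁.trans (le_max_left _ _), ?_⟩
  intro h₀ hh u v j nb hu huv hvj hnb D0 hD0 hD0'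
  have g1 : n₁ ≤ h₀ := (le_max_left _ _).trans hh
  have g2 : n₅ ≤ h₀ := (le_max_right _ _).trans hh
  have hK1 : 1 ≤ K := by omega
  have hmB : mB ≤ m := (le_max_left _ _).trans hm
  have hm2 : m₂ ≤ m := (le_max_right _ _).trans hm
  have hXm : 4 * (B' + 1) ≤ k * X ^ m := by
    have h1 : X ^ m₂ ≤ X ^ m := pow_le_pow_right₀ (by linarith) hm2
    have h2 := hm₂.le.trans h1
    rw [div_le_iff₀ hk] at h2
    linarith
  have hT1 : ∀ i, 1 ≤ i → 1 ≤ Tg h₀ K i := fun i hi => (hn₁.trans g1).trans (Tg_ge77 hK1 hi)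
  have hwT : ∀ i, 1 ≤ i → 1 ≤ wd μ s (Tg h₀ K i) := fun i hi => hn₅ _ (g2.trans (Tg_ge77 hK1 hi))
  -- names
  obtain ⟨wu, hwu⟩ : ∃ wu, wu = wd μ s (Tg h₀ K u) := ⟨_, rfl⟩
  obtain ⟨w', hw'⟩ : ∃ w', w' = wd μ s (Tg h₀ K (v + 1)) := ⟨_, rfl⟩
  obtain ⟨w, hw⟩ : ∃ w, w = wd μ s (2 * Tg h₀ K (v + 1)) := ⟨_, rfl⟩
  obtain ⟨E', hE'⟩ : ∃ E', E' = EE μ s (Tg h₀ K (v + 1)) := ⟨_, rfl⟩
  obtain ⟨e, he⟩ : ∃ e, e = EE μ s (2 * Tg h₀ K (v + 1)) := ⟨_, rfl⟩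
  obtain ⟨W0, hW0⟩ : ∃ W0, W0 = wd μ s (Tg h₀ K (u + m + 1 + j)) := ⟨_, rfl⟩
  obtain ⟨W1, hW1⟩ : ∃ W1, W1 = wd μ s (Tg h₀ K (u + m + 1 + (j + 1))) := ⟨_, rfl⟩
  obtain ⟨Wm, hWm⟩ : ∃ Wm, Wm = wd μ s (Tg h₀ K (v + m)) := ⟨_, rfl⟩
  have hTv := hT1 (v + 1) (by omega)
  obtain ⟨s1, s2, s3⟩ := slope56 h0 hTv
  have p1 : 1 ≤ wu := hwu ▸ hwT u hu
  have p2 : 1 ≤ w' := hw' ▸ hwT (v + 1) (by omega)
  have p3 : 1 ≤ w := hw ▸ hn₅ _ (by have := g2.trans (Tg_ge77 (h₀ := h₀) (v := v + 1) hK1 (by omega)); omega)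
  have p4 : 0 < E' := hE' ▸ EE_pos _
  have p5 : E' ≤ e := by rw [hE', he]; exact EE_mono (by omega)
  have p6 : 0 < e := p4.trans_le p5
  have p7 : w' ≤ 2 * w := by rw [hw', hw]; exact s2
  have p8 : w ≤ 4 * w' := by rw [hw', hw]; exact s1
  have hTuv : Tg h₀ K u ≤ 2 * Tg h₀ K (v + 1) := by
    rw [Tg_pos hu, Tg_pos (show 1 ≤ v + 1 by omega)]
    have h1 : K ^ u ≤ K ^ (v + 1) := Nat.pow_le_pow_right (by omega) (by omega)
    have h2 := Nat.mul_le_mul_left (2 * h₀) h1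
    omega
  have p9 : wu ≤ 2 * w := by rw [hwu, hw]; exact wd_le_two h0 (hT1 u hu) hTuv
  -- growth
  have q1 : k * X ^ (nb - 1) * w' ≤ W0 := by
    have h1 := (HG h₀ g1 (v + 1) (nb - 1) (by omega)).2.1
    rw [show v + 1 + (nb - 1) = u + m + 1 + j by omega, ← hw', ← hW0] at h1
    exact h1
  have q2 : k * W1 ≤ (K : ℝ) ^ nb * w' := by
    have h1 := (HG h₀ g1 (v + 1) nb (by omega)).2.2
    rw [show v + 1 + nb = u + m + 1 + (j + 1) by omega, ← hw', ← hW1] at h1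
    exact h1
  have hXpow : ∀ i : ℕ, X ^ m ≤ X ^ (m + i) := fun i => pow_le_pow_right₀ (by linarith) (by omega)
  have q3 : 4 * (B' + 1) * wu ≤ W1 := by
    have h1 := (HG h₀ g1 u (m + (1 + (j + 1))) hu).2.1
    rw [show u + (m + (1 + (j + 1))) = u + m + 1 + (j + 1) by omega, ← hwu, ← hW1] at h1
    have h2 := mul_le_mul_of_nonneg_left (hXpow (1 + (j + 1))) hk.le
    exact (mul_le_mul_of_nonneg_right (hXm.trans h2) (by linarith)).trans h1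
  have q4 : 4 * (B' + 1) * wu ≤ W0 := by
    have h1 := (HG h₀ g1 u (m + (1 + j)) hu).2.1
    rw [show u + (m + (1 + j)) = u + m + 1 + j by omega, ← hwu, ← hW0] at h1
    have h2 := mul_le_mul_of_nonneg_left (hXpow (1 + j)) hk.le
    exact (mul_le_mul_of_nonneg_right (hXm.trans h2) (by linarith)).trans h1
  have q5 : 8 * Wm ≤ W0 := by
    have h1 := (HG h₀ g1 (v + m) (u + 1 + j - v) (by omega)).2.1
    rw [show v + m + (u + 1 + j - v) = u + m + 1 + j by omega, ← hWm, ← hW0] at h1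
    have h2 : X ^ 1 ≤ X ^ (u + 1 + j - v) := pow_le_pow_right₀ (by linarith) (by omega)
    rw [pow_one] at h2
    have h3 := mul_le_mul_of_nonneg_left h2 hk.le
    have hWm0 : 1 ≤ Wm := hWm ▸ hwT (v + m) (by omega)
    exact (mul_le_mul_of_nonneg_right (hX2.trans h3) (by linarith)).trans h1
  rw [← hwu] at hD0'
  have hB'w : B' * wu + wu ≤ W1 / 4 := by linarith [show 4 * (B' + 1) * wu = 4 * (B' * wu + wu) by ring]
  have hB'w0 : B' * wu + wu ≤ W0 / 4 := by linarith [show 4 * (B' + 1) * wu = 4 * (B' * wu + wu) by ring]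
  have hΔ : W0 / 2 ≤ W0 - D0 - 2 * Wm := by linarith
  -- the slopes
  have s3' : E' / w' ≤ 4 * (e / w) := by rw [hE', hw', he, hw]; exact s3
  have hew : 0 < e / w := by positivity
  have hsv : σ * (E' / w') ≤ c / 16 * (e / w) := by
    calc σ * (E' / w') ≤ σ * (4 * (e / w)) := mul_le_mul_of_nonneg_left s3' hσ
      _ ≤ c / 64 * (4 * (e / w)) := mul_le_mul_of_nonneg_right hσc (by positivity)
      _ = _ := by ring
  have hhc : hc μ s c (2 * Tg h₀ K (v + 1)) = c * (e / w) := by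
    unfold hc
    rw [← he, ← hw, mul_div_assoc]
  have hnb2 : v + 1 + nb = u + m + 1 + (j + 1) := by omega
  rw [hnb2, ← hW1, ← hw', ← hw, ← hE', ← he, ← hW0, ← hWm, hhc]
  have hcew : 0 < c * (e / w) := by positivity
  refine ⟨by linarith, by linarith, ?_⟩
  -- the levels
  have hn0 : (0 : ℝ) ≤ (nb : ℝ) := Nat.cast_nonneg _
  have hW1w : W1 / w ≤ 2 / k * (K : ℝ) ^ nb := by
    rw [div_le_iff₀ (by linarith)]
    have h1 : (K : ℝ) ^ nb * w' ≤ (K : ℝ) ^ nb * (2 * w) := mul_le_mul_of_nonneg_left p7 (by positivity)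
    have h2 := q2.trans h1
    calc W1 = (k * W1) / k := by field_simp
      _ ≤ ((K : ℝ) ^ nb * (2 * w)) / k := div_le_div_of_nonneg_right h2 hk.le
      _ = _ := by ring
  have hD0w : D0 / w ≤ 2 * B' := by
    rw [div_le_iff₀ (by linarith)]
    have := mul_le_mul_of_nonneg_left p9 hB'
    linarith
  have hY : (W1 + D0) / w ≤ 2 * B' + 2 / k * (K : ℝ) ^ nb := by
    rw [add_div]
    linarith
  have hW1p : 0 ≤ W1 := by linarith [mul_nonneg hB' (show 0 ≤ wu by linarith)]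
  have hY0 : 0 ≤ (W1 + D0) / w := div_nonneg (by linarith) (by linarith)
  obtain ⟨Y, hYd⟩ : ∃ Y, Y = (W1 + D0) / w := ⟨_, rfl⟩
  obtain ⟨pn, hpn⟩ : ∃ pn : ℝ, pn = Cg * (1 + (nb : ℝ)) ^ (2 * P) := ⟨_, rfl⟩
  have l1 : gr (2 * P) Y ≤ pn := by rw [hpn]; exact Hg nb _ (hYd ▸ hY0) (by rw [hYd]; linarith)
  have l2 : gr (2 * P) (Aq + Y) ≤ pn := by
    rw [hpn]
    exact Hg nb _ (by rw [hYd]; linarith) (by rw [hYd]; linarith)
  have l3 : gr (2 * P) (Y + (Kw - 2)) ≤ pn := by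
    rw [hpn]
    exact Hg nb _ (by rw [hYd]; linarith) (by rw [hYd]; linarith)
  have hlst : lst31 P c (c / 32) C₅ C₆ Q (Kw - 2) w (W1 + D0) ≤ (2 * Z + C₆ * Q) * Cg * (1 + (nb : ℝ)) ^ (2 * P) + (4 + 2 * Q) := by
    unfold lst31
    rw [← hZ, ← hAq, ← hYd]
    have t1 := mul_le_mul_of_nonneg_left l1 hZ0
    have t2 := mul_le_mul_of_nonneg_left l2 hZ0
    have t3 := mul_le_mul_of_nonneg_left l3 (mul_nonneg hC₆ hQ)
    have t4 : (2 * Z + C₆ * Q) * Cg * (1 + (nb : ℝ)) ^ (2 * P) = Z * pn + Z * pn + C₆ * Q * pn := by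
      rw [hpn]
      ring
    rw [t4]
    linarith
  -- the left side
  have hfin := HB nb (hmB.trans (by omega))
  have t5 : A * (Φ ^ nb * E') ≤ A * Φ ^ nb * e := by
    have h1 : Φ ^ nb * E' ≤ Φ ^ nb * e := mul_le_mul_of_nonneg_left p5 (by positivity)
    have h2 := mul_le_mul_of_nonneg_left h1 hA
    linarith
  have t6 : σ * (E' / w') ≤ e := by
    have h1 : e / w ≤ e := div_le_self p6.le p3
    have h2 : c / 16 * (e / w) ≤ 1 * (e / w) := mul_le_mul_of_nonneg_right (by linarith) hew.le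
    linarith
  have left : lst31 P c (c / 32) C₅ C₆ Q (Kw - 2) w (W1 + D0) * e + A * (Φ ^ nb * E') + σ * (E' / w') ≤
      c * k / (256 * X) * X ^ nb * e := by
    have h1 := mul_le_mul_of_nonneg_right hlst p6.le
    have h2 := mul_le_mul_of_nonneg_right hfin p6.le
    linarith [show ((2 * Z + C₆ * Q) * Cg * (1 + (nb : ℝ)) ^ (2 * P) + A * Φ ^ nb + (5 + 2 * Q)) * e =
      ((2 * Z + C₆ * Q) * Cg * (1 + (nb : ℝ)) ^ (2 * P) + (4 + 2 * Q)) * e + A * Φ ^ nb * e + e by ring]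
  refine left.trans ?_
  -- the right side
  have r1 : c / 32 * (e / w) ≤ c * (e / w) / 8 - c / 32 * (e / w) - σ * (E' / w') := by linarith
  have r2 : k * X ^ (nb - 1) * w / 8 ≤ W0 - D0 - 2 * Wm := by
    have h1 : k * X ^ (nb - 1) * (w / 4) ≤ k * X ^ (nb - 1) * w' := mul_le_mul_of_nonneg_left (by linarith) (by positivity)
    linarith [show k * X ^ (nb - 1) * (w / 4) = 2 * (k * X ^ (nb - 1) * w / 8) by ring]
  have r3 : X ^ nb = X * X ^ (nb - 1) := by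
    rw [← pow_succ']
    congr 1
    omega
  calc c * k / (256 * X) * X ^ nb * e = c / 32 * (e / w) * (k * X ^ (nb - 1) * w / 8) := by
        rw [r3]
        field_simp
        ring
    _ ≤ _ := mul_le_mul r1 r2 (by positivity) (by linarith [mul_pos (show 0 < c / 32 by positivity) hew])

end

end Pool.Agent.W_7d29a1_C1.H56
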