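import Pool.Agent.W_7d29a1_C1.NdA74
import Pool.Agent.W_7d29a1_C1.NumP74
import Pool.Agent.W_7d29a1_C1.NumS56

/-!
MP_7d29a1_pr, attractor route [C1], field `nu`: **LEVELS OF THE BALL, SMALL NUMBERS** (helper74, for helper31 / helper77 / helper90).
`lvl74`, `lvu74`, `aT74` : levels of the ball in the unit `EE (T o)`; `wdB74`, `m8_big`, `m8_le`.
-/

set_option autoImplicit false

namespace Pool.Agent.W_7d29a1_C1.P74

open MeasureTheory Finset Filter Topology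
open Pool.Agent.W_7d29a1_F Pool.Agent.W_7d29a1_h4g Pool.Agent.W_7d29a1_H Pool.Agent.W_7d29a1_HS
open Pool.Agent.W_7d29a1_C1.H75 Pool.Agent.W_7d29a1_C1.U16
open Pool.Agent.W_7d29a1_C1.FarK89 Pool.Agent.W_7d29a1_C1.FarW89
open Pool.Agent.W_7d29a1_C1.T10 (Tg Tg_pos Tg_mono)
open Pool.Agent.W_7d29a1_C1.H60 (Cx)
open Pool.Agent.W_7d29a1_C1.G37 (Gm)
open Pool.Agent.W_7d29a1_C1.H56 (aT56 numS56 slope56)
open Pool.Agent.W_7d29a1_C1.H8 (KV8 NB8 h8 m8)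
open Pool.Agent.W_7d29a1_C1.H77
open Pool.Agent.W_7d29a1_C1.D31

noncomputable section

variable {μ : Measure ℝ} [IsProbabilityMeasure μ] {s c C : ℝ} {n₀ : ℕ}

/-! ### Small facts -/

/-- The unit of the double scale. -/
theorem EE2_74 (h0 : In μ s c C n₀) : ∃ (CE : ℝ) (n₁ : ℕ), 1 ≤ CE ∧ 1 ≤ n₁ ∧ ∀ T : ℕ, n₁ ≤ T → EE μ s (2 * T) ≤ CE * EE μ s T := by
  obtain ⟨a, k, n₁, ha1, hE⟩ := grE17 h0
  have hk := hE.k0
  refine ⟨2 / k, n₁, ?_, hE.n1, fun T hT => ?_⟩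
  · rw [le_div_iff₀ hk]
    linarith [hE.k1]
  · have h1 := hE.up T (2 * T) hT (by omega)
    have hT0 : (0 : ℝ) < T := by exact_mod_cast hE.n1.trans hT
    have h2 : (((2 * T : ℕ) : ℝ) / T) ^ (1 / 2 : ℝ) ≤ 2 := by
      have h3 : (((2 * T : ℕ) : ℝ) / T) = 2 := by
        push_cast
        field_simp
      rw [h3]
      calc (2 : ℝ) ^ (1 / 2 : ℝ) ≤ (2 : ℝ) ^ (1 : ℝ) := Real.rpow_le_rpow_of_exponent_le (by norm_num) (by norm_num)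
        _ = 2 := Real.rpow_one _
    have h3 := mul_le_mul_of_nonneg_right h2 (EE_pos (μ := μ) (s := s) T).le
    rw [div_mul_eq_mul_div, le_div_iff₀ hk]
    linarith

/-- The distance of the lines. -/
theorem wdB74 (h0 : In μ s c C n₀) {B T : ℕ} (hB : 1 ≤ B) (hT : 1 ≤ T) : wd μ s (B * T) ≤ 2 * B * wd μ s T := by
  have h1 := wd_lower_one h0 hT (show T ≤ B * T from Nat.le_mul_of_pos_left T hB)
  have hT0 : (0 : ℝ) < T := by exact_mod_cast hT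
  push_cast at h1
  have h2 : (T : ℝ) * wd μ s (B * T) ≤ T * (2 * B * wd μ s T) := by linarith
  exact le_of_mul_le_mul_left h2 hT0

/-- Many scales. -/
theorem m8_big {e : ℝ} (he : 0 < e) {K : ℕ} (hK : 2 ≤ K) (X : ℕ) : ∀ᶠ n : ℕ in atTop, X ≤ m8 K e n := by
  have hlK : 0 < Real.log K := Real.log_pos (by exact_mod_cast (by omega : 1 < K))
  have t1 : Tendsto (fun n : ℕ => e / 4 * (Real.log n / Real.log K)) atTop atTop :=
    ((Real.tendsto_log_atTop.comp tendsto_natCast_atTop_atTop).atTop_div_const hlK).const_mul_atTop (by positivity)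
  filter_upwards [t1.eventually_ge_atTop (X : ℝ)] with n hn
  exact Nat.le_floor hn

/-- `M ≤ n`. -/
theorem m8_le {e : ℝ} (he : 0 < e) (he1 : e ≤ 1 / 32) {K : ℕ} (hK : 3 ≤ K) {n : ℕ} (hn : 1 ≤ n) : m8 K e n ≤ n := by
  have hlK : 1 ≤ Real.log K := by
    rw [Real.le_log_iff_exp_le (by positivity)]
    have h1 : (3 : ℝ) ≤ K := by exact_mod_cast hK
    have h2 := Real.exp_one_lt_d9
    linarith
  have hl : 0 ≤ Real.log n := Real.log_nonneg (by exact_mod_cast hn)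
  have h1 : e / 4 * (Real.log n / Real.log K) ≤ n := by
    have h2 : Real.log n / Real.log K ≤ Real.log n := div_le_self hl hlK
    have h3 : Real.log n ≤ n := by
      have := Real.log_le_sub_one_of_pos (show (0 : ℝ) < n by exact_mod_cast hn)
      linarith
    have h4 : 0 ≤ Real.log n / Real.log K := by positivity
    have h5 : e / 4 * (Real.log n / Real.log K) ≤ 1 * (Real.log n / Real.log K) := mul_le_mul_of_nonneg_right (by linarith) h4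
    linarith
  have h2 : ((m8 K e n : ℕ) : ℝ) ≤ n := (Nat.floor_le (by positivity)).trans h1
  exact_mod_cast h2

/-- The level of the far box. -/
theorem lev_mono74 (P : ℕ) {c₁ Q S E w R R' : ℝ} (hQ : 0 ≤ Q) (hE : 0 ≤ E) (hw : 0 < w) (hR : 0 ≤ R) (h : R ≤ R') :
    lev31 P c₁ Q S E w R ≤ lev31 P c₁ Q S E w R' := by
  unfold lev31
  have h1 : gr P (AQ P c₁ Q + R / w) ≤ gr P (AQ P c₁ Q + R' / w) :=
    gr_mono P (add_nonneg (AQ_nonneg _ _ _) (by positivity)) (add_le_add le_rfl (div_le_div_of_nonneg_right h hw.le))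
  exact mul_le_mul_of_nonneg_right (add_le_add (mul_le_mul_of_nonneg_left h1 hQ) le_rfl) hE

/-! ### The levels of the ball -/

/-- The ratio of a width of the ball and of its double scale. -/
theorem ratio74 {W D w w2 k : ℝ} (hw : 0 < w) (hw2 : w ≤ 2 * w2) (hD : D + 1 ≤ w) (hW : W ≤ k * w) (hk : 0 ≤ k) :
    (W + D + 1) / w2 ≤ 2 * (k + 1) ∧ (W + D) / w2 ≤ 2 * (k + 1) := by
  have h2 : 0 < w2 := by linarith
  have h3 : k * w ≤ k * (2 * w2) := mul_le_mul_of_nonneg_left hw2 hk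
  constructor <;> rw [div_le_iff₀ h2] <;> nlinarith

/-- **The lower levels of the ball.** -/
theorem lvl74 (h0 : In μ s c C n₀) (P K : ℕ) (hK : 1 ≤ K) {Kw D₆ Q : ℝ} (hKw : 2 ≤ Kw) (hD₆ : 0 ≤ D₆) (hQ : 0 ≤ Q) :
    ∃ (Qa : ℝ) (n₁ : ℕ), 0 ≤ Qa ∧ 1 ≤ n₁ ∧ ∀ h₀ : ℕ, n₁ ≤ h₀ → ∀ o l : ℕ, 1 ≤ o → ∀ D Lη : ℝ, 0 ≤ D → D + 1 ≤ wd μ s (Tg h₀ K o) →
      Lη ≤ EE μ s (Tg h₀ K o) →
      D₆ * Q * gr (2 * P) ((wd μ s (Tg h₀ K (o + (l + 1))) + D + 1) / wd μ s (2 * Tg h₀ K o) + (Kw - 2)) * EE μ s (2 * Tg h₀ K o) + Lη ≤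
        Qa * (1 + (l : ℝ)) ^ (2 * P) * EE μ s (Tg h₀ K o) := by
  obtain ⟨a, kk, ha, hkk, hkk1, nW, hnW, HW⟩ := wid74 h0
  obtain ⟨CE, nE, hCE, hnE, HE⟩ := EE2_74 h0
  have hKR : (1 : ℝ) ≤ K := by exact_mod_cast hK
  obtain ⟨Cg, hCg, Hg⟩ := gr_geo77 (2 * P) (A := Kw) (B := 2 * K / kk) (K := (K : ℝ)) (by linarith) (by positivity) hKR
  refine ⟨D₆ * Q * Cg * CE + 1, max nW nE, by positivity, hnW.trans (le_max_left _ _), fun h₀ hh o l ho D Lη hD hD1 hL => ?_⟩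
  have t1 := (le_max_left _ _).trans hh
  have t2 := (le_max_right _ _).trans hh
  have hTo : nE ≤ Tg h₀ K o := t2.trans (Tg_ge77 hK ho)
  have hTo1 : 1 ≤ Tg h₀ K o := hnE.trans hTo
  obtain ⟨g1, g2, -⟩ := HW K hK h₀ t1 o (l + 1) ho
  obtain ⟨-, s2, -⟩ := slope56 h0 hTo1
  have hE2 := HE _ hTo
  have hE := EE_pos (μ := μ) (s := s) (Tg h₀ K o)
  have hE2' := EE_pos (μ := μ) (s := s) (2 * Tg h₀ K o)
  have hw0 : 0 < wd μ s (Tg h₀ K o) := by linarith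
  have hw2 : 0 < wd μ s (2 * Tg h₀ K o) := by linarith
  have hwl : 0 ≤ wd μ s (Tg h₀ K (o + (l + 1))) := h0.wd_nonneg _
  have hl0 : (0 : ℝ) ≤ l := Nat.cast_nonneg l
  obtain ⟨r1, -⟩ := ratio74 hw0 s2 hD1 g2 (show (0 : ℝ) ≤ (K : ℝ) ^ (l + 1) / kk by positivity)
  have hX0 : 0 ≤ (wd μ s (Tg h₀ K (o + (l + 1))) + D + 1) / wd μ s (2 * Tg h₀ K o) + (Kw - 2) := by
    have : 0 ≤ (wd μ s (Tg h₀ K (o + (l + 1))) + D + 1) / wd μ s (2 * Tg h₀ K o) := by positivity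
    linarith
  have h1 := Hg l _ hX0 (by
    have e1 : 2 * ((K : ℝ) ^ (l + 1) / kk + 1) = 2 + 2 * K / kk * (K : ℝ) ^ l := by
      rw [pow_succ]
      field_simp
      ring
    linarith)
  have hp1 : 1 ≤ (1 + (l : ℝ)) ^ (2 * P) := one_le_pow₀ (by linarith)
  have h2 := mul_le_mul_of_nonneg_left h1 (mul_nonneg hD₆ hQ)
  have h3 := mul_le_mul_of_nonneg_right h2 hE2'.le
  have h4 : D₆ * Q * (Cg * (1 + (l : ℝ)) ^ (2 * P)) * EE μ s (2 * Tg h₀ K o) ≤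
      D₆ * Q * (Cg * (1 + (l : ℝ)) ^ (2 * P)) * (CE * EE μ s (Tg h₀ K o)) := mul_le_mul_of_nonneg_left hE2 (by positivity)
  have h5 : EE μ s (Tg h₀ K o) ≤ (1 + (l : ℝ)) ^ (2 * P) * EE μ s (Tg h₀ K o) := le_mul_of_one_le_left hE.le hp1
  linarith [show (D₆ * Q * Cg * CE + 1) * (1 + (l : ℝ)) ^ (2 * P) * EE μ s (Tg h₀ K o) =
    D₆ * Q * (Cg * (1 + (l : ℝ)) ^ (2 * P)) * (CE * EE μ s (Tg h₀ K o)) + (1 + (l : ℝ)) ^ (2 * P) * EE μ s (Tg h₀ K o) by ring]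

/-- **The upper level of the first shell.** -/
theorem lvu74 (h0 : In μ s c C n₀) (P K l₁ : ℕ) (hK : 1 ≤ K) {D₅ Q : ℝ} (hD₅ : 0 ≤ D₅) (hQ : 0 ≤ Q) :
    ∃ (U₁ : ℝ) (n₁ : ℕ), 0 ≤ U₁ ∧ 1 ≤ n₁ ∧ ∀ h₀ : ℕ, n₁ ≤ h₀ → ∀ o : ℕ, 1 ≤ o → ∀ D Lη : ℝ, 0 ≤ D → D + 1 ≤ wd μ s (Tg h₀ K o) →
      Lη ≤ EE μ s (Tg h₀ K o) →
      Lη + (LQ (2 * P) (c / 8) (D₅ * Q) * gr (2 * P) ((wd μ s (Tg h₀ K (o + l₁)) + D) / wd μ s (2 * Tg h₀ K o)) + Q) *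
        EE μ s (2 * Tg h₀ K o) ≤ U₁ * EE μ s (Tg h₀ K o) := by
  obtain ⟨a, kk, ha, hkk, hkk1, nW, hnW, HW⟩ := wid74 h0
  obtain ⟨CE, nE, hCE, hnE, HE⟩ := EE2_74 h0
  have hLQ : 0 ≤ LQ (2 * P) (c / 8) (D₅ * Q) := LQ_nonneg _ (mul_nonneg hD₅ hQ)
  have hg0 : 0 ≤ gr (2 * P) (2 * ((K : ℝ) ^ l₁ / kk + 1)) := gr_nonneg _ (by positivity)
  refine ⟨1 + (LQ (2 * P) (c / 8) (D₅ * Q) * gr (2 * P) (2 * ((K : ℝ) ^ l₁ / kk + 1)) + Q) * CE, max nW nE, by positivity,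
    hnW.trans (le_max_left _ _), fun h₀ hh o ho D Lη hD hD1 hL => ?_⟩
  have t1 := (le_max_left _ _).trans hh
  have t2 := (le_max_right _ _).trans hh
  have hTo : nE ≤ Tg h₀ K o := t2.trans (Tg_ge77 hK ho)
  have hTo1 : 1 ≤ Tg h₀ K o := hnE.trans hTo
  obtain ⟨g1, g2, -⟩ := HW K hK h₀ t1 o l₁ ho
  obtain ⟨-, s2, -⟩ := slope56 h0 hTo1
  have hE2 := HE _ hTo
  have hE := EE_pos (μ := μ) (s := s) (Tg h₀ K o)
  have hE2' := EE_pos (μ := μ) (s := s) (2 * Tg h₀ K o)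
  have hw0 : 0 < wd μ s (Tg h₀ K o) := by linarith
  have hw2 : 0 < wd μ s (2 * Tg h₀ K o) := by linarith
  have hwl : 0 ≤ wd μ s (Tg h₀ K (o + l₁)) := h0.wd_nonneg _
  obtain ⟨-, r1⟩ := ratio74 hw0 s2 hD1 g2 (show (0 : ℝ) ≤ (K : ℝ) ^ l₁ / kk by positivity)
  have h1 : gr (2 * P) ((wd μ s (Tg h₀ K (o + l₁)) + D) / wd μ s (2 * Tg h₀ K o)) ≤ gr (2 * P) (2 * ((K : ℝ) ^ l₁ / kk + 1)) :=
    gr_mono _ (by positivity) r1
  have h2 := mul_le_mul_of_nonneg_left h1 hLQ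
  have h3 : 0 ≤ LQ (2 * P) (c / 8) (D₅ * Q) * gr (2 * P) (2 * ((K : ℝ) ^ l₁ / kk + 1)) + Q := by positivity
  have h4 := mul_le_mul_of_nonneg_right (add_le_add h2 (le_refl Q)) hE2'.le
  have h5 := mul_le_mul_of_nonneg_left hE2 h3
  linarith [show (1 + (LQ (2 * P) (c / 8) (D₅ * Q) * gr (2 * P) (2 * ((K : ℝ) ^ l₁ / kk + 1)) + Q) * CE) * EE μ s (Tg h₀ K o) =
    EE μ s (Tg h₀ K o) + (LQ (2 * P) (c / 8) (D₅ * Q) * gr (2 * P) (2 * ((K : ℝ) ^ l₁ / kk + 1)) + Q) * (CE * EE μ s (Tg h₀ K o)) by ring]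

omit [IsProbabilityMeasure μ] in
/-- The bound of the trivial level of the ball. -/
theorem aT74 {T : ℕ} {h Lη Bp Cη l : ℝ} (hT : 1 ≤ T) (hC : 0 ≤ Cη) (hl : 1 ≤ l) (h1 : Lη ≤ Cη * l) (h2 : Bp ≤ Cη * l) (h3 : |h| ≤ Cη) :
    aT56 μ s h (2 * T) Lη Bp ≤ (7 * Cη + 2 * |lam μ s|) * (T : ℝ) * l := by
  unfold aT56
  have hT0 : (1 : ℝ) ≤ T := by exact_mod_cast hT
  have a1 : |lam μ s| ≤ |lam μ s| * l := le_mul_of_one_le_right (abs_nonneg _) hl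
  have a2 : |h| ≤ Cη * l := h3.trans (le_mul_of_one_le_right hC hl)
  have a3 : Lη + Bp + |lam μ s| + |h| ≤ (3 * Cη + |lam μ s|) * l := by linarith
  have a4 : (2 * (T : ℝ)) * (Lη + Bp + |lam μ s| + |h|) ≤ (2 * (T : ℝ)) * ((3 * Cη + |lam μ s|) * l) :=
    mul_le_mul_of_nonneg_left a3 (by positivity)
  have a5 : Cη * l ≤ Cη * l * T := le_mul_of_one_le_right (by positivity) hT0
  push_cast
  linarith [show (7 * Cη + 2 * |lam μ s|) * (T : ℝ) * l = (2 * (T : ℝ)) * ((3 * Cη + |lam μ s|) * l) + Cη * l * T by ring]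

/-- The slope over a window of the width of the ball. -/
theorem slp74 {E w σ x : ℝ} (hw : 0 < w) : 2 * (σ * (E / w)) * (x * w) = 2 * σ * x * E := by
  field_simp

/-- The exponent of `hnum`. -/
theorem ex74 {E w σ x y U g : ℝ} (hw : 0 < w) :
    2 * (y * E + 2 * (σ * (E / w)) * (x * w)) + U * E + g * E ≤ (2 * (y + 2 * σ * x) + U + g) * E := by
  rw [slp74 hw]
  exact le_of_eq (by ring)

end

end Pool.Agent.W_7d29a1_C1.P74
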