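import Pool.Agent.W_7d29a1_C1.NumH58
import Pool.Agent.W_7d29a1_C1.SepE98

/-!
MP_7d29a1_pr, [C1] attractor route, SEP: THE NUMBER RECORD `Nm98` AS A FUNCTION OF THE GEOMETRY. (helper15)

`Gc15` : the constants of the gate (`num58`); `gt15` : the numbers `n, m, K₁, K₂` at the scale `T`, by choice; `gc15` : existence, in the
order `kc, j₀, ε | j, K1h, U₀, Q₀, U₁, Q₁ | G, R | M, K2h, U, Q, A, B, Y, p | n₂ | n₁`.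
`Lc15` : the constants of the lane block and of the levels; `nr15` : the unit of the lane, `T_r = N nr`, `jl T_r ≤ T ≤ 2 jl T_r`.
`nm15 μ s c g l G` : the record. `nm15_num` : `NumT58` at the scale `G.T u`. `fit15` : `Fit98`. `ok15` : `Ok98`.
-/

set_option autoImplicit false

namespace Pool.Agent.W_7d29a1_C1.Nm15

open MeasureTheory ProbabilityTheory Filter Topology
open Pool.Agent.W_7d29a1_F hiding Bw G
open Pool.Agent.W_7d29a1_h4g Pool.Agent.W_7d29a1_H Pool.Agent.W_7d29a1_HS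
open Pool.Agent.W_7d29a1_C1
open Pool.Agent.W_7d29a1_C1.H60
open Pool.Agent.W_7d29a1_C1.G37 (Gm)
open Pool.Agent.W_7d29a1_C1.PW58 (Sc58 sc58 NumT58 num58)
open Pool.Agent.W_7d29a1_C1.D98

noncomputable section

/-! ### The gate -/

/-- **THE CONSTANTS OF THE GATE.** -/
structure Gc15 where
  kc : ℝ
  R : ℝ
  G : ℝ
  j : ℕ
  K1h : ℕ
  M : ℕ
  K2h : ℕ
  U0 : ℝ
  Q0 : ℝ
  U1 : ℝ
  Q1 : ℝ
  U : ℝ
  Q : ℝ
  A : ℝ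
  B : ℝ
  Y : ℝ
  p : ℝ
  ε : ℝ
  n2 : ℕ

/-- `NumT58` at these constants. -/
def Gc15.Nt (μ : Measure ℝ) (s c : ℝ) (g : Gc15) (T n m K₁ K₂ : ℕ) : Prop :=
  NumT58 μ s c g.kc g.R g.G g.j g.K1h g.M g.K2h g.U0 g.Q0 g.U1 g.Q1 g.U g.Q g.A g.B g.Y g.p g.ε g.n2 T n m K₁ K₂

/-- The numbers exist at all scales `T ≥ n₁`. -/
def Gc15.Ok (μ : Measure ℝ) (s c : ℝ) (g : Gc15) (n₁ : ℕ) : Prop := ∀ T : ℕ, n₁ ≤ T → ∃ n m K₁ K₂ : ℕ, g.Nt μ s c T n m K₁ K₂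

theorem Gc15.Ok.mono {μ : Measure ℝ} {s c : ℝ} {g : Gc15} {n₁ n₁' : ℕ} (h : g.Ok μ s c n₁) (h1 : n₁ ≤ n₁') : g.Ok μ s c n₁' :=
  fun T hT => h T (h1.trans hT)

open Classical in
/-- **THE NUMBERS OF THE GATE AT THE SCALE `T`**: `(n, m, K₁, K₂)`. -/
def gt15 (μ : Measure ℝ) (s c : ℝ) (g : Gc15) (T : ℕ) : ℕ × ℕ × ℕ × ℕ :=
  if h : ∃ q : ℕ × ℕ × ℕ × ℕ, g.Nt μ s c T q.1 q.2.1 q.2.2.1 q.2.2.2 then h.choose else (2, 1, 0, 0)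

variable (μ : Measure ℝ) (s c : ℝ) (g : Gc15)

/-- The unit of the gate block. -/
def nf15 (T : ℕ) : ℕ := (gt15 μ s c g T).1

/-- The rows of a strip. -/
def mf15 (T : ℕ) : ℕ := (gt15 μ s c g T).2.1

/-- The half width of the core, in `wd n`. -/
def K1f15 (T : ℕ) : ℕ := (gt15 μ s c g T).2.2.1

/-- The half width of the walls, in `wd n`. -/
def K2f15 (T : ℕ) : ℕ := (gt15 μ s c g T).2.2.2

variable {μ s c g}

theorem gt15_or (T : ℕ) : g.Nt μ s c T (nf15 μ s c g T) (mf15 μ s c g T) (K1f15 μ s c g T) (K2f15 μ s c g T) ∨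
    gt15 μ s c g T = (2, 1, 0, 0) := by
  classical
  by_cases h : ∃ q : ℕ × ℕ × ℕ × ℕ, g.Nt μ s c T q.1 q.2.1 q.2.2.1 q.2.2.2
  · left
    have e : gt15 μ s c g T = h.choose := by unfold gt15; rw [dif_pos h]
    unfold nf15 mf15 K1f15 K2f15
    rw [e]
    exact h.choose_spec
  · right
    unfold gt15
    rw [dif_neg h]

/-- **THE NUMBERS HOLD.** -/
theorem gt15_spec {n₁ : ℕ} (H : g.Ok μ s c n₁) {T : ℕ} (hT : n₁ ≤ T) :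
    g.Nt μ s c T (nf15 μ s c g T) (mf15 μ s c g T) (K1f15 μ s c g T) (K2f15 μ s c g T) := by
  classical
  obtain ⟨n, m, K₁, K₂, h⟩ := H T hT
  have h' : ∃ q : ℕ × ℕ × ℕ × ℕ, g.Nt μ s c T q.1 q.2.1 q.2.2.1 q.2.2.2 := ⟨(n, m, K₁, K₂), h⟩
  have e : gt15 μ s c g T = h'.choose := by unfold gt15; rw [dif_pos h']
  unfold nf15 mf15 K1f15 K2f15
  rw [e]
  exact h'.choose_spec

theorem nf15_pos (T : ℕ) : 1 ≤ nf15 μ s c g T := by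
  rcases gt15_or (μ := μ) (s := s) (c := c) (g := g) T with h | h
  · exact h.n1
  · unfold nf15
    rw [h]
    norm_num

theorem mf15_pos (T : ℕ) : 1 ≤ mf15 μ s c g T := by
  rcases gt15_or (μ := μ) (s := s) (c := c) (g := g) T with h | h
  · exact h.m1
  · unfold mf15
    rw [h]

theorem mf15_two (T : ℕ) : 2 * mf15 μ s c g T ≤ nf15 μ s c g T := by
  rcases gt15_or (μ := μ) (s := s) (c := c) (g := g) T with h | h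
  · exact h.m2
  · unfold mf15 nf15
    rw [h]
    exact le_rfl

/-- **EXISTENCE**, in the order of `num58`. -/
theorem gc15 {C : ℝ} {n₀ : ℕ} [IsProbabilityMeasure μ] (h : In μ s c C n₀) (j₀ : ℕ) {kc ε : ℝ} (hkc : 0 ≤ kc) (hε : 0 < ε) :
    ∃ (j K1h : ℕ) (U₀ Q₀ U₁ Q₁ : ℝ), j₀ ≤ j ∧ 1 ≤ j ∧ 0 ≤ U₀ ∧ 0 ≤ Q₀ ∧ 0 ≤ U₁ ∧ 0 ≤ Q₁ ∧
    ∀ G R : ℝ, 0 ≤ G → U₁ + Q₁ + G + 2 + 4 * c ≤ c / 4 * (R - kc) →
      ∃ (M K2h : ℕ) (U Q A B Y p : ℝ), 2 ≤ M ∧ 0 ≤ U ∧ 0 ≤ Q ∧ 0 ≤ A ∧ 0 ≤ B ∧ 0 ≤ Y ∧ 0 < p ∧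
        ∀ n₂ : ℕ, ∃ n₁ : ℕ, (⟨kc, R, G, j, K1h, M, K2h, U₀, Q₀, U₁, Q₁, U, Q, A, B, Y, p, ε, n₂⟩ : Gc15).Ok μ s c n₁ := by
  obtain ⟨j, K1h, U₀, Q₀, U₁, Q₁, a1, a2, a3, a4, a5, a6, H⟩ := num58 h j₀ hkc hε
  refine ⟨j, K1h, U₀, Q₀, U₁, Q₁, a1, a2, a3, a4, a5, a6, fun G R hG hR => ?_⟩
  obtain ⟨M, K2h, U, Q, A, B, Y, p, b1, b2, b3, b4, b5, b6, b7, H⟩ := H G R hG hR
  exact ⟨M, K2h, U, Q, A, B, Y, p, b1, b2, b3, b4, b5, b6, b7, fun n₂ => H n₂⟩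

/-! ### The lane block -/

/-- **THE CONSTANTS OF THE LANE BLOCK AND OF THE LEVELS.** `jl` : the share of the lane. -/
structure Lc15 where
  N : ℕ
  jl : ℕ
  δ : ℝ
  Kb : ℝ
  Kl : ℝ
  U0 : ℝ
  LA : ℝ
  KpA : ℝ
  UA : ℝ
  ρA : ℝ
  YA : ℝ
  LB : ℝ
  KpB : ℝ
  UB : ℝ
  ρB : ℝ
  YB : ℝ
  cM : ℝ
  qM : ℝ
  UM : ℝ
  rM : ℝ
  pL : ℝ
  th : ℝ
  KF : ℝ
  PF : ℕ
  qF : ℝ

/-- The unit of the lane. -/
def nr15 (l : Lc15) (T : ℕ) : ℕ := T / (l.jl * l.N)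

theorem nr15_ge {l : Lc15} (hN : 1 ≤ l.N) (hj : 1 ≤ l.jl) {n₁ T : ℕ} (hT : l.jl * l.N * n₁ ≤ T) : n₁ ≤ nr15 l T :=
  (Nat.le_div_iff_mul_le (Nat.mul_pos hj hN)).2 (by rw [mul_comm]; exact hT)

theorem nr15_le (l : Lc15) (T : ℕ) : l.jl * (l.N * nr15 l T) ≤ T := by
  rw [← mul_assoc]
  exact Nat.mul_div_le T (l.jl * l.N)

theorem le_nr15 {l : Lc15} (hN : 1 ≤ l.N) (hj : 1 ≤ l.jl) {T : ℕ} (hT : l.jl * l.N ≤ T) : T ≤ 2 * l.jl * (l.N * nr15 l T) := by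
  have h1 : 1 ≤ nr15 l T := nr15_ge hN hj (by rw [mul_one]; exact hT)
  have h2 := Nat.lt_mul_div_succ T (Nat.mul_pos hj hN)
  have h3 : l.jl * l.N * (nr15 l T + 1) ≤ l.jl * l.N * (2 * nr15 l T) := Nat.mul_le_mul_left _ (by omega)
  have h4 : l.jl * l.N * (2 * nr15 l T) = 2 * l.jl * (l.N * nr15 l T) := by ring
  have h5 : T < l.jl * l.N * (nr15 l T + 1) := h2
  omega

/-- **THE SCALE OF THE LANE**: `jl` before everything, `N` and the threshold `n₁` of the lane after it. -/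
theorem lane15 {C : ℝ} {n₀ : ℕ} [IsProbabilityMeasure μ] (h : In μ s c C n₀) (j₀ : ℕ) : ∃ jl : ℕ, j₀ ≤ jl ∧ 1 ≤ jl ∧ ∀ N : ℕ, 1 ≤ N →
    ∀ n₁ : ℕ, ∃ T₁ : ℕ, ∀ l : Lc15, l.N = N → l.jl = jl → ∀ T : ℕ, T₁ ≤ T → n₁ ≤ nr15 l T ∧ 1 ≤ nr15 l T ∧
      Sc58 μ s jl (N * nr15 l T) T := by
  obtain ⟨jl, m0, h1, h2, H⟩ := sc58 h j₀
  refine ⟨jl, h1, h2, fun N hN n₁ => ⟨jl * N * (n₁ + m0 + 1), fun l eN ej T hT => ?_⟩⟩
  subst eN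
  subst ej
  have a1 : n₁ + m0 + 1 ≤ nr15 l T := nr15_ge hN h2 hT
  have a2 : l.jl * l.N ≤ T := le_trans (Nat.le_mul_of_pos_right _ (by omega)) hT
  have a3 : nr15 l T ≤ l.N * nr15 l T := Nat.le_mul_of_pos_left _ (by omega)
  exact ⟨by omega, by omega, H (l.N * nr15 l T) T (by omega) (nr15_le l T) (le_nr15 hN h2 a2)⟩

/-! ### The record -/

/-- **THE NUMBERS OF THE WINDOW, AS A FUNCTION OF THE GEOMETRY.** -/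
def nm15 (μ : Measure ℝ) (s c : ℝ) (g : Gc15) (l : Lc15) (G : Gm) : Nm98 where
  n u := nf15 μ s c g (G.T u)
  m u := mf15 μ s c g (G.T u)
  K1 u := K1f15 μ s c g (G.T u)
  K2 u := K2f15 μ s c g (G.T u)
  K1h := g.K1h
  K2h := g.K2h
  Uc := g.U0
  Qc := g.Q0
  U1 := g.U1
  Q1 := g.Q1
  U := g.U
  Q := g.Q
  Y := g.Y
  N := l.N
  nr u := nr15 l (G.T u)
  δ := l.δ
  Kb := l.Kb
  Kl := l.Kl
  U0 := l.U0
  LA := l.LA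
  KpA := l.KpA
  UA := l.UA
  ρA := l.ρA
  YA := l.YA
  LB := l.LB
  KpB := l.KpB
  UB := l.UB
  ρB := l.ρB
  YB := l.YB
  cM := l.cM
  qM := l.qM
  UM := l.UM
  rM := l.rM
  pL := l.pL
  th := l.th
  KF := l.KF
  PF := l.PF
  qF := l.qF

variable {l : Lc15} {G : Gm}

/-- **`NumT58` AT THE SCALE OF THE WINDOW.** -/
theorem nm15_num {n₁ : ℕ} (H : g.Ok μ s c n₁) {u : ℕ} (hT : n₁ ≤ G.T u) :
    g.Nt μ s c (G.T u) ((nm15 μ s c g l G).n u) ((nm15 μ s c g l G).m u) ((nm15 μ s c g l G).K1 u) ((nm15 μ s c g l G).K2 u) :=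
  gt15_spec H hT

/-- **The probability of the gate block.** -/
theorem gt15_prob {n₁ : ℕ} (H : g.Ok μ s c n₁) {u : ℕ} (hT : n₁ ≤ G.T u) (Γ : Cx) (κ : ℤ × ℤ) :
    (law μ).real (Gt98 μ s c Γ G (nm15 μ s c g l G) u κ)ᶜ ≤ g.ε := (nm15_num (l := l) H hT).prob _

theorem nm15_n1 (u : ℕ) : 1 ≤ (nm15 μ s c g l G).n u := nf15_pos _

theorem nm15_m1 (u : ℕ) : 1 ≤ (nm15 μ s c g l G).m u := mf15_pos _

theorem nm15_m2 (u : ℕ) : 2 * (nm15 μ s c g l G).m u ≤ (nm15 μ s c g l G).n u := mf15_two _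

theorem nm15_T (u : ℕ) : (nm15 μ s c g l G).T u = l.N * nr15 l (G.T u) := rfl

theorem nm15_lane (u : ℕ) : l.jl * (nm15 μ s c g l G).T u ≤ G.T u := nr15_le l (G.T u)

/-- The window below the scale `u`. -/
theorem T_pred15 {u : ℕ} (hu : 1 ≤ u) : 8 * G.T (u - 1) ≤ G.T u := by
  have h := G.T_succ (u - 1)
  rwa [Nat.sub_add_cancel hu] at h

/-- The gate block fills at most `1 / 8` of the window. -/
theorem forty15 {n₁ : ℕ} (H : g.Ok μ s c n₁) (hj : 40 ≤ g.j) {u : ℕ} (hT : n₁ ≤ G.T u) : 40 * (nm15 μ s c g l G).n u ≤ G.T u :=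
  le_trans (Nat.mul_le_mul_right _ hj) (nm15_num (l := l) H hT).jn

/-- The lane block fills at most `3 / 16` of the window. -/
theorem sixteen15 (hl : 16 ≤ l.jl) (u : ℕ) : 16 * (nm15 μ s c g l G).T u ≤ G.T u :=
  le_trans (Nat.mul_le_mul_right _ hl) (nm15_lane u)

/-- **`Fit98`.** -/
theorem fit15 {n₁ : ℕ} (H : g.Ok μ s c n₁) (hj : 40 ≤ g.j) (hl : 16 ≤ l.jl) {u : ℕ} (hu : 1 ≤ u) (hT : n₁ ≤ G.T u)
    (hT16 : 16 ≤ G.T u) : Fit98 G (nm15 μ s c g l G) u := by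
  have h1 := forty15 (l := l) H hj hT
  have h2 := sixteen15 (μ := μ) (s := s) (c := c) (g := g) (G := G) hl u
  have h3 := T_pred15 (G := G) hu
  unfold Fit98 ln98
  omega

/-- **`Ok98`.** -/
theorem ok15 {n₁ : ℕ} (H : g.Ok μ s c n₁) (hj : 40 ≤ g.j) (hl : 16 ≤ l.jl) {τ0 : ℕ} (hτ : ∀ u, τ0 < u → n₁ ≤ G.T u ∧ 16 ≤ G.T u)
    (v0 : 0 ≤ G.v) (v1 : G.v ≤ 1) {R : Nr98} (hb : ∀ u, τ0 < u → G.kw * G.w u + 2 ≤ R.b u * G.w u) :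
    Ok98 G (nm15 μ s c g l G) R τ0 where
  v0 := v0
  v1 := v1
  fit u hu := fit15 H hj hl (by omega) (hτ u hu).1 (hτ u hu).2
  n1 u _ := nm15_n1 u
  m2 u _ := nm15_m2 u
  b_ge := hb

end

end Pool.Agent.W_7d29a1_C1.Nm15
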