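import Pool.Agent.W_7d29a1_C1.SepN5
import Pool.Agent.W_7d29a1_C1.NmC15
import Pool.Agent.W_7d29a1_C1.PLv86

/-!
MP_7d29a1_pr, attractor route [C1], SEP: **THE OUTPUTS OF THE STAGES `PF`, `j`, `M`, `jl` EXIST** (`NeS S i` of SepN5). (helper5)

For any specification `S` which says at these stages what `far98_prob`, `num58` (`gc15`) and `lane15` give.
-/

set_option autoImplicit false

namespace Pool.Agent.W_7d29a1_C1.Cs2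

open MeasureTheory ProbabilityTheory Filter Topology
open Pool.Agent.W_7d29a1_F hiding Bw G
open Pool.Agent.W_7d29a1_h4g Pool.Agent.W_7d29a1_H Pool.Agent.W_7d29a1_HS
open Pool.Agent.W_7d29a1_C1
open Pool.Agent.W_7d29a1_C1.H60
open Pool.Agent.W_7d29a1_C1.G37 (Gm)
open Pool.Agent.W_7d29a1_C1.PW58 (Sc58 sc58 NumT58 num58)
open Pool.Agent.W_7d29a1_C1.D98
open Pool.Agent.W_7d29a1_C1.Nm15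
open Pool.Agent.W_7d29a1_C1.PL86 (far98_prob)

noncomputable section

/-- The closing line of `num58` at `R = R0 - 1`, `G = 2 sgm (R0 + 1) + 10 + Uc + Qc`. -/
theorem r0_5 {c sgm R0 kc U1 Q1 Uc Qc : ℝ} (hc : 0 < c) (h2 : sgm ≤ c / 80) (h3 : 0 ≤ R0)
    (h4 : (U1 + Q1 + Uc + Qc + 12 + 4 * c + c / 40 + c / 4 * (1 + kc)) / (9 * c / 40) ≤ R0) :
    U1 + Q1 + (2 * sgm * (R0 + 1) + 10 + Uc + Qc) + 2 + 4 * c ≤ c / 4 * (R0 - 1 - kc) := by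
  have h5 := (div_le_iff₀ (by positivity : 0 < 9 * c / 40)).1 h4
  have h6 : 2 * sgm * (R0 + 1) ≤ 2 * (c / 80) * (R0 + 1) := by gcongr
  nlinarith

variable {μ : Measure ℝ} {s c CI : ℝ} {n₀ : ℕ} {S : Is → Cst → Prop}

/-- Stage `PF`. -/
theorem ne_PF_of [IsProbabilityMeasure μ] (h : In μ s c CI n₀)
    (hS : ∀ C : Cst, (∀ ε : ℝ, 0 < ε → ∃ q₀ : ℝ, 0 ≤ q₀ ∧ ∀ q : ℝ, q₀ ≤ q → ∃ n₁ : ℕ, ∀ (Γ : Cx) (G : Gm) (P : Nm98) (u : ℕ) (κ : ℤ × ℤ),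
      P.KF = 4 → P.th = 1 / 8 → P.PF = C.PF → P.qF = q → n₁ ≤ G.T u → Fit98 G P u →
        (law μ).real (Far98 μ s c G P u κ)ᶜ ≤ ε ∧ (law μ).real (FarL98 μ s c Γ G P u κ)ᶜ ≤ ε) → S .PF C) : NeS S .PF := by
  show (∀ᶠ C in FB S .PF, _)
  obtain ⟨PF, H⟩ := far98_prob h (K := 4) (θ := 1 / 8) (by norm_num) (by norm_num) (by norm_num)
  exact Eventually.of_forall fun C => ⟨PF, hS _ H⟩

/-- Stage `j`. -/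
theorem ne_j_of [IsProbabilityMeasure μ] (h : In μ s c CI n₀) {ε : ℝ} (hε : 0 < ε)
    (hS : ∀ C : Cst, 1 ≤ C.j → C.j0 ≤ C.j → 0 ≤ C.Uc → 0 ≤ C.Qc → 0 ≤ C.U1g → 0 ≤ C.Q1g →
      (∀ G R : ℝ, 0 ≤ G → C.U1g + C.Q1g + G + 2 + 4 * c ≤ c / 4 * (R - C.kc) →
        ∃ (M K2h : ℕ) (U Q A B Y p : ℝ), 2 ≤ M ∧ 0 ≤ U ∧ 0 ≤ Q ∧ 0 ≤ A ∧ 0 ≤ B ∧ 0 ≤ Y ∧ 0 < p ∧
          ∀ n₂ : ℕ, ∃ n₁ : ℕ, (⟨C.kc, R, G, C.j, C.K1h, M, K2h, C.Uc, C.Qc, C.U1g, C.Q1g, U, Q, A, B, Y, p, ε, n₂⟩ : Gc15).Ok μ s c n₁) →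
      S .j C) : NeS S .j := by
  show (∀ᶠ C in FB S .j, _)
  filter_upwards [FB.kc_ge S (by decide) fun _ => 0] with C hkc
  obtain ⟨j, K1h, U₀, Q₀, U₁, Q₁, a1, a2, a3, a4, a5, a6, H⟩ := gc15 h C.j0 (kc := C.kc) (ε := ε) hkc hε
  exact ⟨j, K1h, U₀, Q₀, U₁, Q₁, hS _ a2 a1 a3 a4 a5 a6 H⟩

/-- Stage `M`, from what the stage `j` says. -/
theorem ne_M_of (hc : 0 < c) {ε : ℝ}
    (hj : ∀ C : Cst, S .j C → 0 ≤ C.Uc ∧ 0 ≤ C.Qc ∧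
      ∀ G R : ℝ, 0 ≤ G → C.U1g + C.Q1g + G + 2 + 4 * c ≤ c / 4 * (R - C.kc) →
        ∃ (M K2h : ℕ) (U Q A B Y p : ℝ), 2 ≤ M ∧ 0 ≤ U ∧ 0 ≤ Q ∧ 0 ≤ A ∧ 0 ≤ B ∧ 0 ≤ Y ∧ 0 < p ∧
          ∀ n₂ : ℕ, ∃ n₁ : ℕ, (⟨C.kc, R, G, C.j, C.K1h, M, K2h, C.Uc, C.Qc, C.U1g, C.Q1g, U, Q, A, B, Y, p, ε, n₂⟩ : Gc15).Ok μ s c n₁)
    (hS : ∀ C : Cst, 2 ≤ C.M → 0 ≤ C.Ug → 0 ≤ C.Qg → 0 ≤ C.Ag → 0 ≤ C.Bg → 0 ≤ C.Yg → 0 < C.pG →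
      (∀ n₂ : ℕ, ∃ n₁ : ℕ, (⟨C.kc, C.R0 - 1, 2 * C.sgm * (C.R0 + 1) + 10 + C.Uc + C.Qc, C.j, C.K1h, C.M, C.K2h, C.Uc, C.Qc, C.U1g, C.Q1g,
        C.Ug, C.Qg, C.Ag, C.Bg, C.Yg, C.pG, ε, n₂⟩ : Gc15).Ok μ s c n₁) → S .M C) : NeS S .M := by
  show (∀ᶠ C in FB S .M, _)
  filter_upwards [FB.spec S .M, FB.sgm_le S (by decide) (fun _ => c / 80) (fun _ => by positivity), FB.R0_ge S (by decide) fun p => 0,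
    FB.R0_ge S (by decide) fun p => (p.U1g + p.Q1g + p.Uc + p.Qc + 12 + 4 * c + c / 40 + c / 4 * (1 + p.kc)) / (9 * c / 40)]
    with C hs h1 h2 h3
  obtain ⟨u0, q0, H⟩ := hj _ (hs .j (by decide))
  have hR := r0_5 (U1 := C.U1g) (Q1 := C.Q1g) (Uc := C.Uc) (Qc := C.Qc) hc h1.2 h2 h3
  have hG : 0 ≤ 2 * C.sgm * (C.R0 + 1) + 10 + C.Uc + C.Qc := by
    have e1 : 0 ≤ C.Uc := u0
    have e2 : 0 ≤ C.Qc := q0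
    have e3 : (0 : ℝ) ≤ C.R0 := h2
    have e4 := h1.1
    positivity
  obtain ⟨M, K2h, U, Q, A, B, Y, p, b1, b2, b3, b4, b5, b6, b7, H⟩ := H _ (C.R0 - 1) hG hR
  exact ⟨M, K2h, U, Q, A, B, Y, p, hS _ b1 b2 b3 b4 b5 b6 b7 H⟩

/-- Stage `jl`. -/
theorem ne_jl_of [IsProbabilityMeasure μ] (h : In μ s c CI n₀)
    (hS : ∀ C : Cst, C.jl0 ≤ C.jl → 1 ≤ C.jl → (∀ N : ℕ, 1 ≤ N → ∀ n₁ : ℕ, ∃ T₁ : ℕ, ∀ l : Lc15, l.N = N → l.jl = C.jl →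
      ∀ T : ℕ, T₁ ≤ T → n₁ ≤ nr15 l T ∧ 1 ≤ nr15 l T ∧ Sc58 μ s C.jl (N * nr15 l T) T) → S .jl C) : NeS S .jl := by
  show (∀ᶠ C in FB S .jl, _)
  refine Eventually.of_forall fun C => ?_
  obtain ⟨jl, h1, h2, H⟩ := lane15 h C.jl0
  exact ⟨jl, hS _ h1 h2 H⟩

end

end Pool.Agent.W_7d29a1_C1.Cs2
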