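import Pool.Agent.W_7d29a1_C1.NeO5
import Pool.Agent.W_7d29a1_C1.LnN69
import Pool.Agent.W_7d29a1_C1.SepS2

/-!
MP_7d29a1_pr, attractor route [C1], SEP: **THE CONSTANTS OF PAGE 694 C EXIST**: `(FC (S0 μ s c Cc ε)).NeBot`. (helper5)

The stages `PF j M jl` by NeO5, the lane block by LnN69 (helper69), the glue `neBot_FC` of SepN5.
-/

set_option autoImplicit false

namespace Pool.Agent.W_7d29a1_C1.Cs2

open MeasureTheory Filter
open Pool.Agent.W_7d29a1_F hiding Bw G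
open Pool.Agent.W_7d29a1_h4g Pool.Agent.W_7d29a1_H Pool.Agent.W_7d29a1_HS
open Pool.Agent.W_7d29a1_C1
open Pool.Agent.W_7d29a1_C1.Ln69

noncomputable section

variable {μ : Measure ℝ} {s c Cc ε : ℝ} {n₀ : ℕ}

/-- The lane lines of `S0`. -/
theorem sp5 : Sp (S0 μ s c Cc ε) μ s c Cc ε where
  dM _ := Iff.rfl
  U0 _ := Iff.rfl
  Kp _ := Iff.rfl
  pB _ := Iff.rfl
  pA _ := Iff.rfl
  YA _ := Iff.rfl
  pL _ := Iff.rfl

/-- **Every output stage of `S0` has outputs**, at every record of the earlier numbers. -/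
theorem neS5 [IsProbabilityMeasure μ] (h : In μ s c Cc n₀) (hε : 0 < ε) : ∀ i : Is, NeS (S0 μ s c Cc ε) i := by
  obtain ⟨h1, h2, h3, h4, h5, h6, h7⟩ := ne_lane69 h hε (sp5 (μ := μ) (s := s) (c := c) (Cc := Cc) (ε := ε))
  intro i
  match i with
  | .PF => exact ne_PF_of h fun C H => H
  | .jl => exact ne_jl_of h fun C a1 a2 H => ⟨a1, a2, H⟩
  | .j => exact ne_j_of h hε fun C a1 a2 a3 a4 a5 a6 H => ⟨a2, a1, a3, a4, a5, a6, fun G R hG hR => by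
      obtain ⟨M, K2h, U, Q, A, B, Y, p, b1, b2, b3, b4, b5, b6, b7, H⟩ := H G R hG hR
      exact ⟨M, K2h, U, Q, A, B, Y, p, b1, b2, b3, b4, b5, b6, b7, H⟩⟩
  | .M =>
    refine ne_M_of h.c0 (ε := ε) (fun C H => ⟨H.U0, H.Q0, fun G R hG hR => ?_⟩) fun C b1 b2 b3 b4 b5 b6 b7 H => ⟨b1, b2, b3, b4, b5, b6, b7, H⟩
    obtain ⟨M, K2h, U, Q, A, B, Y, p, H⟩ := H.ex G R hG hR
    exact ⟨M, K2h, U, Q, A, B, Y, p, H.M2, H.U, H.Q, H.A, H.B, H.Y, H.p, H.ok⟩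
  | .dM => exact h1
  | .U0 => exact h2
  | .Kp => exact h3
  | .pB => exact h4
  | .pA => exact h5
  | .YA => exact h6
  | .pL => exact h7

/-- **THE CONSTANTS EXIST.** -/
theorem neS0 [IsProbabilityMeasure μ] (h : In μ s c Cc n₀) (hε : 0 < ε) : (FC (S0 μ s c Cc ε)).NeBot :=
  neBot_FC (neS5 h hε)

end

end Pool.Agent.W_7d29a1_C1.Cs2
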