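import Pool.Agent.W_7d29a1_C1.NmC15
import Pool.Agent.W_7d29a1_C1.WrL41

/-!
MP_7d29a1_pr, attractor route [C1], SEP: THE NUMBER RECORD `nm15` IN THE FORM `Evn`. (helper15)

`okE15` : `OkE41` at `nm15`; `numE15` : `NumT58` at all the windows; `laneE15` : the scale of the lane at all the windows.
-/

set_option autoImplicit false

namespace Pool.Agent.W_7d29a1_C1.Q49

open Finset MeasureTheory Filter
open Pool.Agent.W_7d29a1_F hiding Bw G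
open Pool.Agent.W_7d29a1_h4g Pool.Agent.W_7d29a1_H Pool.Agent.W_7d29a1_HS
open Pool.Agent.W_7d29a1_C1.H60
open Pool.Agent.W_7d29a1_C1.H40 (Tk)
open Pool.Agent.W_7d29a1_C1.G37 (Gm Wok gmW)
open Pool.Agent.W_7d29a1_C1.D98
open Pool.Agent.W_7d29a1_C1.Nm15

noncomputable section

variable {P : Pre} {D : Dat} {μ : Measure ℝ} {s c : ℝ} {g : Gc15} {l : Lc15}

/-- The windows are above the base height. -/
theorem T0_le15 {T0 : ℕ} (hW : Wok μ s T0 D.K) (M m0 g1 m2 : ℕ) (h1 : 1 ≤ g1) (h2 : 3 ≤ m2) (u : ℕ) :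
    T0 ≤ (P.G hW M m0 g1 m2 h1 h2).T u :=
  Nat.le_mul_of_pos_right _ (Nat.pow_pos (lt_of_lt_of_le (by norm_num) hW.hK))

/-- **`OkE41` AT `nm15`.** -/
theorem okE15 {n₁ : ℕ} (H : g.Ok μ s c n₁) (hj : 40 ≤ g.j) (hl : 16 ≤ l.jl) {R : NrF}
    (hb : ∀ (Γ : Cx) (G : Gm) (E : ℕ → ℝ) (u : ℕ), P.kw + 2 ≤ (R Γ G E).b u) :
    OkE41 P D μ s (fun _ G _ => nm15 μ s c g l G) R := by
  refine okE41 ⟨n₁, fun T0 M m0 g1 m2 hW h1 h2 Γ hT u _ => ?_⟩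
  have hT' : n₁ ≤ (P.G hW M m0 g1 m2 h1 h2).T u := hT.trans (T0_le15 hW M m0 g1 m2 h1 h2 u)
  exact ⟨nm15_n1 u, nm15_m2 u, forty15 H hj hT', sixteen15 hl u, b_ge41 (hW.one u) (hb _ _ _ _)⟩

/-- **`NumT58` at all the windows.** -/
theorem numE15 {n₁ : ℕ} (H : g.Ok μ s c n₁) : Evn P D μ s fun _ _ _ _ _ _ G _ _ _ => ∀ u : ℕ, n₁ ≤ G.T u ∧
    g.Nt μ s c (G.T u) ((nm15 μ s c g l G).n u) ((nm15 μ s c g l G).m u) ((nm15 μ s c g l G).K1 u) ((nm15 μ s c g l G).K2 u) := by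
  refine Evn.of_T041 ⟨n₁, fun q m2 η A lam m0 g1 e0 c₂ δ κ n Γ T0 M mt τ0 hc hW hT _ _ u => ?_⟩
  have hT' : n₁ ≤ (P.G hW M m0 g1 m2 hc.h1 hc.h2).T u := hT.trans (T0_le15 hW M m0 g1 m2 hc.h1 hc.h2 u)
  exact ⟨hT', nm15_num H hT'⟩

/-- **The scale of the lane at all the windows** (`hL` = the last line of `lane15`). -/
theorem laneE15 {n₁ T₁ : ℕ} (hL : ∀ T : ℕ, T₁ ≤ T → n₁ ≤ nr15 l T ∧ 1 ≤ nr15 l T ∧ PW58.Sc58 μ s l.jl (l.N * nr15 l T) T) :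
    Evn P D μ s fun _ _ _ _ _ _ G _ _ _ => ∀ u : ℕ, n₁ ≤ (nm15 μ s c g l G).nr u ∧ 1 ≤ (nm15 μ s c g l G).nr u ∧
      PW58.Sc58 μ s l.jl ((nm15 μ s c g l G).T u) (G.T u) := by
  refine Evn.of_T041 ⟨T₁, fun q m2 η A lam m0 g1 e0 c₂ δ κ n Γ T0 M mt τ0 hc hW hT _ _ u => ?_⟩
  exact hL _ (hT.trans (T0_le15 hW M m0 g1 m2 hc.h1 hc.h2 u))

end

end Pool.Agent.W_7d29a1_C1.Q49
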