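import Pool.Agent.W_7d29a1_C1.SepC3
import Pool.Agent.W_7d29a1_C1.SepS2
import Pool.Agent.W_7d29a1_C1.NmD15

/-!
MP_7d29a1_pr, attractor route [C1], SEP: THE NUMBER RECORD OF THE WINDOW AT THE RECORD `Cst`, IN THE FORM `EvC`. (helper15)

`okE2` : `OkE41` at `C.Nm`, `C.cf.nr`; `numS2`, `numE2` : `NumT58` at the windows (static / `Evn`); `laneS2`, `laneE2` : the scale of
the lane. `okD2`, `numD2`, `laneD2` : the same for all data `D` at once.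
-/

set_option autoImplicit false

namespace Pool.Agent.W_7d29a1_C1.Cs2

open MeasureTheory Finset Filter
open Pool.Agent.W_7d29a1_F Pool.Agent.W_7d29a1_h4g Pool.Agent.W_7d29a1_H Pool.Agent.W_7d29a1_HS
open Pool.Agent.W_7d29a1_C1.H60
open Pool.Agent.W_7d29a1_C1.G37 (Gm Wok gmW)
open Pool.Agent.W_7d29a1_C1.SF98
open Pool.Agent.W_7d29a1_C1.P25
open Pool.Agent.W_7d29a1_C1.N49
open Pool.Agent.W_7d29a1_C1.D98
open Pool.Agent.W_7d29a1_C1.Q49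
open Pool.Agent.W_7d29a1_C1.Nm15
open Pool.Agent.W_7d29a1_C1.PW58 (Sc58)

noncomputable section

variable {D : Dat} {μ : Measure ℝ} {s c Cc ε : ℝ}

/-- **`OkE41` AT THE RECORD**, all data. -/
theorem okD2 : EvC (S0 μ s c Cc ε) fun C => ∀ D : Dat, OkE41 C.P D μ s (C.Nm μ s c ε) (C.cf.nr μ s c) := by
  filter_upwards [ok2, sg2, evP40 (S0 μ s c Cc ε), FC.j0_ge (S0 μ s c Cc ε) fun _ => 40, FC.jl0_ge (S0 μ s c Cc ε) fun _ => 16,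
    FC.R1_ge (S0 μ s c Cc ε) fun C => C.kw + 3] with C hok hsg hP hj hjl hR D
  obtain ⟨n₁, H⟩ := hok
  have hR' : C.kw + 3 ≤ C.R1 := hR
  have hj' : 40 ≤ C.j0 := hj
  have hjl' : 16 ≤ C.jl0 := hjl
  refine okE15 (g := C.g ε) (l := C.l) H (hj'.trans hsg.j0) (hjl'.trans hsg.jl0) (R := C.cf.nr μ s c) fun Γ G E u => ?_
  have hb : (C.cf.nr μ s c Γ G E).b u = C.R1 - 1 := rfl
  rw [hb, P_kw hP]
  linarith

/-- **`OkE41` AT THE RECORD.** -/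
theorem okE2 : EvC (S0 μ s c Cc ε) fun C => OkE41 C.P D μ s (C.Nm μ s c ε) (C.cf.nr μ s c) :=
  okD2.mono fun _ h => h D

/-- **THE NUMBERS OF THE GATE** at every window beyond a scale. -/
theorem numS2 : EvC (S0 μ s c Cc ε) fun C => ∃ n₁ : ℕ, ∀ (G : Gm) (u : ℕ), n₁ ≤ G.T u →
    (C.g ε).Nt μ s c (G.T u) ((nm15 μ s c (C.g ε) C.l G).n u) ((nm15 μ s c (C.g ε) C.l G).m u) ((nm15 μ s c (C.g ε) C.l G).K1 u)
      ((nm15 μ s c (C.g ε) C.l G).K2 u) :=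
  ok2.mono fun _ h => by
    obtain ⟨n₁, H⟩ := h
    exact ⟨n₁, fun G u hT => nm15_num H hT⟩

/-- The same in the form `Evn`, all data. -/
theorem numD2 : EvC (S0 μ s c Cc ε) fun C => ∀ D : Dat, Evn C.P D μ s fun _ _ _ _ _ _ G _ _ _ => ∀ u : ℕ,
    (C.g ε).Nt μ s c (G.T u) ((nm15 μ s c (C.g ε) C.l G).n u) ((nm15 μ s c (C.g ε) C.l G).m u) ((nm15 μ s c (C.g ε) C.l G).K1 u)
      ((nm15 μ s c (C.g ε) C.l G).K2 u) :=
  ok2.mono fun C h D => by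
    obtain ⟨n₁, H⟩ := h
    exact (numE15 (P := C.P) (D := D) (g := C.g ε) (l := C.l) H).mono fun _ _ _ _ _ _ _ _ _ _ h u => (h u).2

theorem numE2 : EvC (S0 μ s c Cc ε) fun C => Evn C.P D μ s fun _ _ _ _ _ _ G _ _ _ => ∀ u : ℕ,
    (C.g ε).Nt μ s c (G.T u) ((nm15 μ s c (C.g ε) C.l G).n u) ((nm15 μ s c (C.g ε) C.l G).m u) ((nm15 μ s c (C.g ε) C.l G).K1 u)
      ((nm15 μ s c (C.g ε) C.l G).K2 u) :=
  numD2.mono fun _ h => h D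

/-- **THE SCALE OF THE LANE** at every window beyond a scale. -/
theorem laneS2 : EvC (S0 μ s c Cc ε) fun C => ∀ n₁ : ℕ, ∃ T₁ : ℕ, ∀ (G : Gm) (u : ℕ), T₁ ≤ G.T u →
    n₁ ≤ (nm15 μ s c (C.g ε) C.l G).nr u ∧ 1 ≤ (nm15 μ s c (C.g ε) C.l G).nr u ∧
      Sc58 μ s C.l.jl ((nm15 μ s c (C.g ε) C.l G).T u) (G.T u) :=
  lane2.mono fun _ h n₁ => by
    obtain ⟨T₁, H⟩ := h n₁
    exact ⟨T₁, fun G u hT => H (G.T u) hT⟩

/-- The same in the form `Evn`, all data. -/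
theorem laneD2 : EvC (S0 μ s c Cc ε) fun C => ∀ (D : Dat) (n₁ : ℕ), Evn C.P D μ s fun _ _ _ _ _ _ G _ _ _ => ∀ u : ℕ,
    n₁ ≤ (nm15 μ s c (C.g ε) C.l G).nr u ∧ 1 ≤ (nm15 μ s c (C.g ε) C.l G).nr u ∧
      Sc58 μ s C.l.jl ((nm15 μ s c (C.g ε) C.l G).T u) (G.T u) :=
  lane2.mono fun C h D n₁ => by
    obtain ⟨T₁, H⟩ := h n₁
    exact laneE15 (P := C.P) (D := D) (g := C.g ε) (l := C.l) H

theorem laneE2 : EvC (S0 μ s c Cc ε) fun C => ∀ n₁ : ℕ, Evn C.P D μ s fun _ _ _ _ _ _ G _ _ _ => ∀ u : ℕ,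
    n₁ ≤ (nm15 μ s c (C.g ε) C.l G).nr u ∧ 1 ≤ (nm15 μ s c (C.g ε) C.l G).nr u ∧
      Sc58 μ s C.l.jl ((nm15 μ s c (C.g ε) C.l G).T u) (G.T u) :=
  laneD2.mono fun _ h => h D

end

end Pool.Agent.W_7d29a1_C1.Cs2
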