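import Pool.Agent.W_7d29a1_C1.NmC15
import Pool.Agent.W_7d29a1_C1.LukB42

/-!
MP_7d29a1_pr, [C1] attractor route, SEP: the structure `Nn66` = THE NUMBERS OF THE GATE AND OF THE LANE BLOCK which the pieces of the windows
(`PI19`) ask. (helper66's structure of PiS66, in its own file)
-/

set_option autoImplicit false

namespace Pool.Agent.W_7d29a1_C1.PiS66

open MeasureTheory
open Pool.Agent.W_7d29a1_F hiding Bw G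
open Pool.Agent.W_7d29a1_h4g Pool.Agent.W_7d29a1_HS
open Pool.Agent.W_7d29a1_C1.D98
open Pool.Agent.W_7d29a1_C1.Nm15
open Pool.Agent.W_7d29a1_C1.PW58 (Sc58)
open Pool.Agent.W_7d29a1_C1.Luc30 (Blk42)

/-- **THE NUMBERS OF THE GATE AND OF THE LANE BLOCK** which the pieces ask. -/
structure Nn66 (μ : Measure ℝ) (s c C kw bS r0 qt KM : ℝ) (g : Gc15) (l : Lc15) : Prop where
  gok : ∃ n₁ : ℕ, g.Ok μ s c n₁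
  kc1 : 1 ≤ g.kc
  kcS : bS ≤ g.kc
  lN : 1 ≤ l.N
  jl : 16 ≤ l.jl
  lane : ∀ n₁ : ℕ, ∃ T₁ : ℕ, ∀ T : ℕ, T₁ ≤ T → n₁ ≤ nr15 l T ∧ 1 ≤ nr15 l T ∧ Sc58 μ s l.jl (l.N * nr15 l T) T
  d0 : 0 < l.δ
  rA : l.ρA = l.δ / 32
  rB : l.ρB = l.δ / 32
  kp : l.KpB = l.KpA
  kp0 : 0 ≤ l.KpA
  km0 : 0 ≤ KM
  rM : l.δ / 4 ≤ l.rM
  rM1 : l.rM ≤ 1
  kb : l.Kb ≤ kw
  kh : 4 * l.jl * (kw + 1) ≤ l.Kl
  cM : 0 < l.cM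
  blk : ∃ n₁ : ℕ, ∀ n : ℕ, n₁ ≤ n → Blk42 μ s c C l.δ l.Kb l.Kl l.U0 l.UM qt l.KpA KM l.UA l.UB l.YA l.YB l.N n
  r0 : 2 ≤ r0

end Pool.Agent.W_7d29a1_C1.PiS66
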