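import Pool.Agent.W_7d29a1_C1.SepS2
import Pool.Agent.W_7d29a1_C1.NnS66

/-!
MP_7d29a1_pr, attractor route [C1], SEP: **THE NUMBERS `Nn66` OF THE GATE AND OF THE LANE BLOCK AT THE RECORD `Cst`**, in the form `EvC`; `Nt69`: signs, slopes and radii
of the tame clause
(helper69; over helper2's `S0`, `ok2`, `lane2`, `sg2`, `blk2` and helper66's `Nn66`).
-/

set_option autoImplicit false

namespace Pool.Agent.W_7d29a1_C1.Cs2

open MeasureTheory Filter
open Pool.Agent.W_7d29a1_F hiding Bw G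
open Pool.Agent.W_7d29a1_h4g Pool.Agent.W_7d29a1_H Pool.Agent.W_7d29a1_HS
open Pool.Agent.W_7d29a1_C1.D98
open Pool.Agent.W_7d29a1_C1.Nm15
open Pool.Agent.W_7d29a1_C1.PW58 (Sc58)
open Pool.Agent.W_7d29a1_C1.Luc30 (Blk42)
open Pool.Agent.W_7d29a1_C1.PiS66 (Nn66)

noncomputable section

variable {μ : Measure ℝ} {s c Cc ε : ℝ}

/-- **THE NUMBERS OF THE TAME CLAUSE AND OF THE RADII** of the lanes at the record. -/
structure Nt69 (c : ℝ) (C : Cst) : Prop where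
  g0 : 0 < C.sgm
  g80 : 80 * C.sgm ≤ c
  g16 : C.sgm ≤ c / 16
  gr : 4 * C.jl * C.sgm ≤ c / 16
  dl0 : 0 < C.dl
  dl1 : C.dl ≤ 1
  jl : 16 ≤ C.jl
  Kl0 : 0 ≤ C.Kl
  kh : 4 * C.jl * (C.kw + 1) ≤ C.Kl
  r0 : 4 * C.jl * C.Kl + 2 ≤ C.r0
  r1 : C.Kl + 2 ≤ C.r0
  kw2 : 2 ≤ C.kw

theorem nt69 (hc : 0 < c) : EvC (S0 μ s c Cc ε) (Nt69 c) := by
  filter_upwards [sg2 (μ := μ) (s := s) (c := c) (Cc := Cc) (ε := ε),
    FC.jl0_ge (S0 μ s c Cc ε) fun _ => 16,
    FC.dl_le (S0 μ s c Cc ε) (fun _ => 1) fun _ => by norm_num,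
    FC.kw_ge (S0 μ s c Cc ε) fun _ => 2,
    FC.Kl_ge (S0 μ s c Cc ε) fun C => max 0 (4 * C.jl * (C.kw + 1)),
    FC.sgm_le (S0 μ s c Cc ε) (fun C => c / (80 * (C.jl + 1))) fun C => by positivity,
    FC.r0_ge (S0 μ s c Cc ε) fun C => 4 * C.jl * C.Kl + 2] with C hS h2 h3 h4 h5 h6 h7
  have h5' : max 0 (4 * C.jl * (C.kw + 1)) ≤ C.Kl := h5
  have hjl : 16 ≤ C.jl := (show 16 ≤ C.jl0 from h2).trans hS.jl0
  have hKl : 0 ≤ C.Kl := (le_max_left _ _).trans h5'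
  have h6' : C.sgm ≤ c / (80 * (C.jl + 1)) := h6.2
  have h7' : 4 * C.jl * C.Kl + 2 ≤ C.r0 := h7
  have hjr : (16 : ℝ) ≤ (C.jl : ℝ) := by exact_mod_cast hjl
  have h8 : (80 * ((C.jl : ℝ) + 1)) * C.sgm ≤ c := by
    have := (le_div_iff₀ (by positivity : (0 : ℝ) < 80 * ((C.jl : ℝ) + 1))).1 h6'
    linarith
  have h9 := h6.1
  exact
    { g0 := h9
      g80 := by nlinarith
      g16 := by nlinarith
      gr := by nlinarith
      dl0 := h3.1
      dl1 := h3.2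
      jl := hjl
      Kl0 := hKl
      kh := (le_max_right _ _).trans h5'
      r0 := h7'
      r1 := by nlinarith
      kw2 := h4 }

/-- **THE NUMBERS OF THE GATE AND OF THE LANE BLOCK AT THE RECORD.** -/
theorem nnC69 (hc : 0 < c) : EvC (S0 μ s c Cc ε) fun C =>
    Nn66 μ s c Cc C.kw C.bS C.r0 C.qt C.KM (C.g ε) C.l := by
  filter_upwards [sg2 (μ := μ) (s := s) (c := c) (Cc := Cc) (ε := ε), ok2 (μ := μ) (s := s) (c := c) (Cc := Cc) (ε := ε),
    lane2 (μ := μ) (s := s) (c := c) (Cc := Cc) (ε := ε), blk2 (μ := μ) (s := s) (c := c) (Cc := Cc) (ε := ε),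
    nt69 (μ := μ) (s := s) (c := c) (Cc := Cc) (ε := ε) hc,
    FC.kc_ge (S0 μ s c Cc ε) fun C => max 1 C.bS] with C hS hok hl hb hT h1
  have h1' : max 1 C.bS ≤ C.kc := h1
  have hjr : (16 : ℝ) ≤ (C.jl : ℝ) := by exact_mod_cast hT.jl
  obtain ⟨nb, -, hb, -⟩ := hb
  exact
    { gok := hok
      kc1 := (le_max_left _ _).trans h1'
      kcS := (le_max_right _ _).trans h1'
      lN := hS.N0.trans hS.N0N
      jl := hT.jl
      lane := hl
      d0 := hT.dl0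
      rA := rfl
      rB := rfl
      kp := rfl
      kp0 := by
        have := hS.Klp
        have := hT.Kl0
        show (0 : ℝ) ≤ C.Kp
        linarith
      km0 := by
        have := hS.KlM
        have := hT.Kl0
        linarith
      rM := le_rfl
      rM1 := by
        show C.dl / 4 ≤ 1
        have := hT.dl1
        linarith
      kb := hT.kw2
      kh := hT.kh
      cM := hS.cM
      blk := ⟨nb, fun n hn => (hb n hn).2⟩
      r0 := by
        have := hT.r1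
        have := hT.Kl0
        linarith }

end

end Pool.Agent.W_7d29a1_C1.Cs2
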