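import Pool.Agent.W_7d29a1_C1.Pd9
import Pool.Agent.W_7d29a1_C1.Chain54

/-!
Both halves (MP_7d29a1_pr), attractor route: THE PAIRS WITHOUT JOINT SUCCESS, FROM DATA OF ONE COPY. (helper9)

`prod9`: the data `ChData` of a chain for two independent copies, from the data of each copy (the comparison constant
`c/(1+c)` is squared). `rest9`: one pair of contacts. `pairs9`: all the pairs. `tr9`: the weight of the first copy is replaced
by another one, for the events which do not see the innermost box.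
-/

set_option autoImplicit false

namespace Pool.Agent.W_7d29a1_C1.NoJ9

open MeasureTheory
open Pool.Agent.W_7d29a1_C1.H54
open scoped ENNReal Classical

noncomputable section

/-! ### Two copies, abstract -/

/-- The constant of one copy. -/
def a1 (c : ℝ≥0∞) : ℝ≥0∞ := (1 + c)⁻¹ * c

/-- The constant of two copies. -/
def a2 (c : ℝ≥0∞) : ℝ≥0∞ := a1 c * a1 c

theorem a1_mul_le {c T B e : ℝ≥0∞} (h : c * T ≤ B + e) : a1 c * (T + B) ≤ B + e := by
  unfold a1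
  calc (1 + c)⁻¹ * c * (T + B) = (1 + c)⁻¹ * (c * T + c * B) := by ring
    _ ≤ (1 + c)⁻¹ * ((B + e) + c * (B + e)) := by
        gcongr
        exact le_self_add
    _ = ((1 + c)⁻¹ * (1 + c)) * (B + e) := by ring
    _ ≤ 1 * (B + e) := by
        gcongr
        exact ENNReal.inv_mul_le_one _
    _ = B + e := one_mul _

theorem a1_ne_top {c : ℝ≥0∞} (hc : c ≠ ∞) : a1 c ≠ ∞ := by
  unfold a1
  refine ENNReal.mul_ne_top ?_ hc
  rw [ENNReal.inv_ne_top]
  positivity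

theorem a2_ne_top {c : ℝ≥0∞} (hc : c ≠ ∞) : a2 c ≠ ∞ := ENNReal.mul_ne_top (a1_ne_top hc) (a1_ne_top hc)

theorem a2_mul_le {c T B T' B' e : ℝ≥0∞} (h : c * T ≤ B + e) (h' : c * T' ≤ B' + e) (hB : B ≤ 1) (hB' : B' ≤ 1) :
    a2 c * ((T + B) * (T' + B')) ≤ B * B' + (2 * e + e ^ 2) := by
  calc a2 c * ((T + B) * (T' + B')) = (a1 c * (T + B)) * (a1 c * (T' + B')) := by
        unfold a2
        ring
    _ ≤ (B + e) * (B' + e) := mul_le_mul' (a1_mul_le h) (a1_mul_le h')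
    _ = B * B' + (B * e + e * B' + e ^ 2) := by ring
    _ ≤ B * B' + (1 * e + e * 1 + e ^ 2) := by gcongr
    _ = _ := by ring

section abs

variable {Ω Ω' : Type*} [MeasurableSpace Ω] [MeasurableSpace Ω'] {P : Measure Ω} {P' : Measure Ω'}
  {m : ℕ} {R : ℕ → Ω → Ω → Ω} {R' : ℕ → Ω' → Ω' → Ω'} {D S X : ℕ → Set Ω} {D' S' X' : ℕ → Set Ω'}
  {f : Ω → ℝ≥0∞} {g : Ω' → ℝ≥0∞} {c e : ℝ≥0∞}

/-- Fresh blocks in both copies. -/
def R2 (R : ℕ → Ω → Ω → Ω) (R' : ℕ → Ω' → Ω' → Ω') (i : ℕ) (η z : Ω × Ω') : Ω × Ω' := (R i η.1 z.1, R' i η.2 z.2)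

/-- Both copies. -/
def D2 (D : ℕ → Set Ω) (D' : ℕ → Set Ω') (i : ℕ) : Set (Ω × Ω') := {z | z.1 ∈ D i ∧ z.2 ∈ D' i}

/-- One of the copies. -/
def X2 (X : ℕ → Set Ω) (X' : ℕ → Set Ω') (i : ℕ) : Set (Ω × Ω') := {z | z.1 ∈ X i ∨ z.2 ∈ X' i}

theorem measurableSet_D2 {i : ℕ} (h : MeasurableSet (D i)) (h' : MeasurableSet (D' i)) : MeasurableSet (D2 D D' i) :=
  (measurable_fst h).inter (measurable_snd h')

theorem measurableSet_X2 {i : ℕ} (h : MeasurableSet (X i)) (h' : MeasurableSet (X' i)) : MeasurableSet (X2 X X' i) :=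
  (measurable_fst h).union (measurable_snd h')

/-- **THE CHAIN OF TWO COPIES FROM THE CHAIN OF EACH COPY.** -/
theorem prod9 [IsProbabilityMeasure P] [IsProbabilityMeasure P'] (h : ChData P m R D S X f c e)
    (h' : ChData P' m R' D' S' X' g c e) (f1 : ∀ ω, f ω ≤ 1) (g1 : ∀ ω, g ω ≤ 1) :
    ChData (P.prod P') m (R2 R R') (D2 D D') (D2 S S') (X2 X X') (fun z => f z.1 * g z.2) (a2 c) (2 * e + e ^ 2) := by
  refine
    { mp := ?_
      mD := fun i hi => measurableSet_D2 (h.mD i hi) (h'.mD i hi)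
      mS := fun i hi => measurableSet_D2 (h.mS i hi) (h'.mS i hi)
      mX := fun i hi => measurableSet_X2 (h.mX i hi) (h'.mX i hi)
      mW := (h.mW.comp measurable_fst).mul (h'.mW.comp measurable_snd)
      bD := ?_
      bS := ?_
      bX := ?_
      cmp := ?_ }
  · intro i hi
    have e0 : MeasurePreserving (fun q : (Ω × Ω') × (Ω × Ω') => ((q.1.1, q.2.1), (q.1.2, q.2.2)))
        ((P.prod P').prod (P.prod P')) ((P.prod P).prod (P'.prod P')) := Sw9.mp_mid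
    exact ((h.mp i hi).prod (h'.mp i hi)).comp e0
  · intro i hi j hj hij η z
    exact and_congr (h.bD i hi j hj hij η.1 z.1) (h'.bD i hi j hj hij η.2 z.2)
  · intro i hi j hj hij η z
    exact and_congr (h.bS i hi j hj hij η.1 z.1) (h'.bS i hi j hj hij η.2 z.2)
  · intro i hi j hj hij η η' z h1 h2
    have k1 : R i η.1 z.1 ∉ X i ∧ R' i η.2 z.2 ∉ X' i := not_or.1 h1
    have k2 : R i η'.1 z.1 ∉ X i ∧ R' i η'.2 z.2 ∉ X' i := not_or.1 h2
    exact or_congr (h.bX i hi j hj hij η.1 η'.1 z.1 k1.1 k2.1) (h'.bX i hi j hj hij η.2 η'.2 z.2 k1.2 k2.2)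
  · rintro i hi z ⟨hz1, hz2⟩
    have k1 := h.cmp i hi z.1 hz1
    have k2 := h'.cmp i hi z.2 hz2
    have mR : Measurable fun η => R i η z.1 := (h.mp i hi).measurable.comp (measurable_id.prodMk measurable_const)
    have mR' : Measurable fun η => R' i η z.2 := (h'.mp i hi).measurable.comp (measurable_id.prodMk measurable_const)
    have mF : Measurable fun η => f (R i η z.1) := h.mW.comp mR
    have mG : Measurable fun η => g (R' i η z.2) := h'.mW.comp mR'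
    set F : Ω → ℝ≥0∞ := fun η => f (R i η z.1) with hF
    set G : Ω' → ℝ≥0∞ := fun η => g (R' i η z.2) with hG
    set N : Set Ω := {η | R i η z.1 ∉ X i} with hN
    set N' : Set Ω' := {η | R' i η z.2 ∉ X' i} with hN'
    set NS : Set Ω := {η | R i η z.1 ∉ X i ∧ R i η z.1 ∈ S i} with hNS
    set NS' : Set Ω' := {η | R' i η z.2 ∉ X' i ∧ R' i η z.2 ∈ S' i} with hNS'
    set NT : Set Ω := {η | R i η z.1 ∉ X i ∧ R i η z.1 ∉ S i} with hNT
    set NT' : Set Ω' := {η | R' i η z.2 ∉ X' i ∧ R' i η z.2 ∉ S' i} with hNT'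
    have mNS : MeasurableSet NS := (mR (h.mX i hi).compl).inter (mR (h.mS i hi))
    have mNS' : MeasurableSet NS' := (mR' (h'.mX i hi).compl).inter (mR' (h'.mS i hi))
    have eN : N = NT ∪ NS := by
      ext η
      simp only [hN, hNT, hNS, Set.mem_ofPred_eq, Set.mem_union]
      tauto
    have eN' : N' = NT' ∪ NS' := by
      ext η
      simp only [hN', hNT', hNS', Set.mem_ofPred_eq, Set.mem_union]
      tauto
    have dN : Disjoint NT NS := by
      rw [Set.disjoint_left]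
      rintro η ⟨_, h1⟩ ⟨_, h2⟩
      exact h1 h2
    have dN' : Disjoint NT' NS' := by
      rw [Set.disjoint_left]
      rintro η ⟨_, h1⟩ ⟨_, h2⟩
      exact h1 h2
    have pr : ∀ (A : Set Ω) (A' : Set Ω'), ∫⁻ η in A ×ˢ A', F η.1 * G η.2 ∂(P.prod P') =
        (∫⁻ η in A, F η ∂P) * ∫⁻ η in A', G η ∂P' := by
      intro A A'
      rw [← Measure.prod_restrict]
      exact lintegral_prod_mul mF.aemeasurable mG.aemeasurable
    have le1 : ∫⁻ η in NS, F η ∂P ≤ 1 := by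
      calc ∫⁻ η in NS, F η ∂P ≤ ∫⁻ η, F η ∂P := setLIntegral_le_lintegral _ _
        _ ≤ ∫⁻ _η, 1 ∂P := lintegral_mono fun η => f1 _
        _ = 1 := by simp
    have le2 : ∫⁻ η in NS', G η ∂P' ≤ 1 := by
      calc ∫⁻ η in NS', G η ∂P' ≤ ∫⁻ η, G η ∂P' := setLIntegral_le_lintegral _ _
        _ ≤ ∫⁻ _η, 1 ∂P' := lintegral_mono fun η => g1 _
        _ = 1 := by simp
    have s1 : {η : Ω × Ω' | R2 R R' i η z ∉ X2 X X' i ∧ R2 R R' i η z ∉ D2 S S' i} ⊆ N ×ˢ N' := by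
      rintro η ⟨h1, _⟩
      have k : R i η.1 z.1 ∉ X i ∧ R' i η.2 z.2 ∉ X' i := not_or.1 h1
      exact ⟨k.1, k.2⟩
    have s2 : NS ×ˢ NS' ⊆ {η : Ω × Ω' | R2 R R' i η z ∉ X2 X X' i ∧ R2 R R' i η z ∈ D2 S S' i} := by
      rintro η ⟨h1, h2⟩
      exact ⟨not_or.2 ⟨h1.1, h2.1⟩, h1.2, h2.2⟩
    calc a2 c * ∫⁻ η in {η : Ω × Ω' | R2 R R' i η z ∉ X2 X X' i ∧ R2 R R' i η z ∉ D2 S S' i}, F η.1 * G η.2 ∂(P.prod P')
        ≤ a2 c * ∫⁻ η in N ×ˢ N', F η.1 * G η.2 ∂(P.prod P') := by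
          gcongr
      _ = a2 c * ((∫⁻ η in NT, F η ∂P + ∫⁻ η in NS, F η ∂P) * (∫⁻ η in NT', G η ∂P' + ∫⁻ η in NS', G η ∂P')) := by
          rw [pr, eN, eN', lintegral_union mNS dN, lintegral_union mNS' dN']
      _ ≤ (∫⁻ η in NS, F η ∂P) * (∫⁻ η in NS', G η ∂P') + (2 * e + e ^ 2) := a2_mul_le k1 k2 le1 le2
      _ = ∫⁻ η in NS ×ˢ NS', F η.1 * G η.2 ∂(P.prod P') + (2 * e + e ^ 2) := by rw [pr]
      _ ≤ ∫⁻ η in {η : Ω × Ω' | R2 R R' i η z ∉ X2 X X' i ∧ R2 R R' i η z ∈ D2 S S' i}, F η.1 * G η.2 ∂(P.prod P') +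
          (2 * e + e ^ 2) := by
          gcongr

/-- Few wide windows or many abnormal blocks, one copy. -/
def B1 (D X : ℕ → Set Ω) (m r : ℕ) : Set Ω :=
  {ω | m < 2 * (((Finset.range m).filter fun i => ω ∉ D i).card + ((Finset.range m).filter fun i => ω ∈ X i).card) + r}

/-- The pairs without joint success. -/
def NJ (U : ℕ → Set Ω) (U' : ℕ → Set Ω') (m : ℕ) : Set (Ω × Ω') := {z | ∀ i < m, ¬ (z.1 ∈ U i ∧ z.2 ∈ U' i)}

theorem measurableSet_NJ {U : ℕ → Set Ω} {U' : ℕ → Set Ω'} (h : ∀ i < m, MeasurableSet (U i))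
    (h' : ∀ i < m, MeasurableSet (U' i)) : MeasurableSet (NJ U U' m) := by
  have : NJ U U' m = ⋂ i ∈ Finset.range m, (D2 U U' i)ᶜ := by
    ext z
    simp only [NJ, D2, Set.mem_ofPred_eq, Set.mem_iInter, Finset.mem_range, Set.mem_compl_iff]
  rw [this]
  exact Finset.measurableSet_biInter _ fun i hi =>
    (measurableSet_D2 (h i (Finset.mem_range.1 hi)) (h' i (Finset.mem_range.1 hi))).compl

omit [MeasurableSpace Ω] [MeasurableSpace Ω'] in
/-- Both copies good: many wide windows for the pair. -/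
theorem not_B1 {r : ℕ} {z : Ω × Ω'} (h1 : z.1 ∉ B1 D X m r) (h2 : z.2 ∉ B1 D' X' m r)
    (h3 : z ∈ NJ (fun i => S i \ X i) (fun i => S' i \ X' i) m) : z ∈ Bad (D2 D D') (D2 S S') (X2 X X') m r := by
  have k1 : 2 * (((Finset.range m).filter fun i => z.1 ∉ D i).card +
      ((Finset.range m).filter fun i => z.1 ∈ X i).card) + r ≤ m := not_lt.1 h1
  have k2 : 2 * (((Finset.range m).filter fun i => z.2 ∉ D' i).card +
      ((Finset.range m).filter fun i => z.2 ∈ X' i).card) + r ≤ m := not_lt.1 h2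
  refine ⟨fun i hi hs => ?_, ?_⟩
  · have hs' : z.1 ∈ S i ∧ z.2 ∈ S' i := hs
    by_contra hx
    have hx' : z.1 ∉ X i ∧ z.2 ∉ X' i := not_or.1 hx
    exact h3 i hi ⟨⟨hs'.1, hx'.1⟩, ⟨hs'.2, hx'.2⟩⟩
  · have e1 : ((Finset.range m).filter fun i => z ∈ X2 X X' i).card ≤
        ((Finset.range m).filter fun i => z.1 ∈ X i).card + ((Finset.range m).filter fun i => z.2 ∈ X' i).card := by
      refine le_trans (Finset.card_le_card fun i hi => ?_) (Finset.card_union_le _ _)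
      obtain ⟨hi1, hi2⟩ := Finset.mem_filter.1 hi
      rcases hi2 with hi2 | hi2
      · exact Finset.mem_union_left _ (Finset.mem_filter.2 ⟨hi1, hi2⟩)
      · exact Finset.mem_union_right _ (Finset.mem_filter.2 ⟨hi1, hi2⟩)
    have e2 : m ≤ ((Finset.range m).filter fun i => z ∈ D2 D D' i).card +
        (((Finset.range m).filter fun i => z.1 ∉ D i).card + ((Finset.range m).filter fun i => z.2 ∉ D' i).card) := by
      calc m = (Finset.range m).card := (Finset.card_range m).symm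
        _ ≤ (((Finset.range m).filter fun i => z ∈ D2 D D' i) ∪ (((Finset.range m).filter fun i => z.1 ∉ D i) ∪
            ((Finset.range m).filter fun i => z.2 ∉ D' i))).card := by
            refine Finset.card_le_card fun i hi => ?_
            by_cases a : z.1 ∈ D i
            · by_cases b : z.2 ∈ D' i
              · exact Finset.mem_union_left _ (Finset.mem_filter.2 ⟨hi, ⟨a, b⟩⟩)
              · exact Finset.mem_union_right _ (Finset.mem_union_right _ (Finset.mem_filter.2 ⟨hi, b⟩))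
            · exact Finset.mem_union_right _ (Finset.mem_union_left _ (Finset.mem_filter.2 ⟨hi, a⟩))
        _ ≤ _ := (Finset.card_union_le _ _).trans (Nat.add_le_add_left (Finset.card_union_le _ _) _)
    omega

theorem measurableSet_B1 {r : ℕ} (hD : ∀ i < m, MeasurableSet (D i)) (hX : ∀ i < m, MeasurableSet (X i)) :
    MeasurableSet (B1 D X m r) := by
  have card : ∀ Y : ℕ → Set Ω, (∀ i < m, MeasurableSet (Y i)) →
      Measurable fun ω => ((Finset.range m).filter fun i => ω ∈ Y i).card := by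
    intro Y hY
    have e : (fun ω => ((Finset.range m).filter fun i => ω ∈ Y i).card) =
        fun ω => ∑ i ∈ Finset.range m, (if ω ∈ Y i then 1 else 0) := by
      funext ω
      rw [Finset.card_filter]
    rw [e]
    exact Finset.measurable_sum _ fun i hi =>
      Measurable.ite (hY i (Finset.mem_range.1 hi)) measurable_const measurable_const
  have c1 : Measurable fun ω => ((Finset.range m).filter fun i => ω ∉ D i).card := by
    have h0 := card (fun i => (D i)ᶜ) fun i hi => (hD i hi).compl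
    convert h0 using 3
    ext i
    simp only [Finset.mem_filter, Set.mem_compl_iff]
  have c2 : Measurable fun ω => ((Finset.range m).filter fun i => ω ∈ X i).card := card X hX
  have c3 : Measurable fun ω => 2 * (((Finset.range m).filter fun i => ω ∉ D i).card +
      ((Finset.range m).filter fun i => ω ∈ X i).card) + r := ((c1.add c2).const_mul 2).add measurable_const
  exact measurableSet_lt measurable_const c3

/-- **ONE PAIR.** -/
theorem rest9 [IsProbabilityMeasure P] [IsProbabilityMeasure P'] (h : ChData P m R D S X f c e)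
    (h' : ChData P' m R' D' S' X' g c e) (f1 : ∀ ω, f ω ≤ 1) (g1 : ∀ ω, g ω ≤ 1) (hc : c ≠ ∞) (r : ℕ) :
    ∫⁻ z in NJ (fun i => S i \ X i) (fun i => S' i \ X' i) m, f z.1 * g z.2 ∂(P.prod P') ≤
      ((1 + a2 c) ^ r)⁻¹ * ((∫⁻ ω, f ω ∂P) * (∫⁻ ω, g ω ∂P') + m * ((1 + a2 c) ^ m * (2 * e + e ^ 2))) +
        ((∫⁻ ω in B1 D X m r, f ω ∂P) * (∫⁻ ω, g ω ∂P') + (∫⁻ ω, f ω ∂P) * ∫⁻ ω in B1 D' X' m r, g ω ∂P') := by
  have hp := prod9 h h' f1 g1
  have k := hp.none (a2_ne_top hc) r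
  have mB := measurableSet_Bad (r := r) hp.mD hp.mS hp.mX
  have hg0 : (1 + a2 c) ^ r ≠ 0 := by positivity
  have hg1 : (1 + a2 c) ^ r ≠ ∞ := ENNReal.pow_ne_top (ENNReal.add_ne_top.2 ⟨ENNReal.one_ne_top, a2_ne_top hc⟩)
  have mf := h.mW
  have mg := h'.mW
  have pr : ∀ (A : Set Ω) (A' : Set Ω'), ∫⁻ z in A ×ˢ A', f z.1 * g z.2 ∂(P.prod P') =
      (∫⁻ ω in A, f ω ∂P) * ∫⁻ ω in A', g ω ∂P' := by
    intro A A'
    rw [← Measure.prod_restrict]
    exact lintegral_prod_mul mf.aemeasurable mg.aemeasurable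
  have tot : ∫⁻ z, f z.1 * g z.2 ∂(P.prod P') = (∫⁻ ω, f ω ∂P) * ∫⁻ ω, g ω ∂P' :=
    lintegral_prod_mul mf.aemeasurable mg.aemeasurable
  calc ∫⁻ z in NJ (fun i => S i \ X i) (fun i => S' i \ X' i) m, f z.1 * g z.2 ∂(P.prod P')
      ≤ ∫⁻ z in Bad (D2 D D') (D2 S S') (X2 X X') m r ∪ ((B1 D X m r ×ˢ Set.univ) ∪ (Set.univ ×ˢ B1 D' X' m r)),
          f z.1 * g z.2 ∂(P.prod P') := by
        refine lintegral_mono_set fun z hz => ?_
        by_cases h1 : z.1 ∈ B1 D X m r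
        · exact Or.inr (Or.inl ⟨h1, trivial⟩)
        · by_cases h2 : z.2 ∈ B1 D' X' m r
          · exact Or.inr (Or.inr ⟨trivial, h2⟩)
          · exact Or.inl (not_B1 h1 h2 hz)
    _ ≤ ∫⁻ z in Bad (D2 D D') (D2 S S') (X2 X X') m r, f z.1 * g z.2 ∂(P.prod P') +
        (∫⁻ z in B1 D X m r ×ˢ Set.univ, f z.1 * g z.2 ∂(P.prod P') +
          ∫⁻ z in Set.univ ×ˢ B1 D' X' m r, f z.1 * g z.2 ∂(P.prod P')) :=
        (lintegral_union_le _ _ _).trans (add_le_add le_rfl (lintegral_union_le _ _ _))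
    _ ≤ _ := by
        refine add_le_add ?_ ?_
        · rw [← tot]
          calc ∫⁻ z in Bad (D2 D D') (D2 S S') (X2 X X') m r, f z.1 * g z.2 ∂(P.prod P') =
              ((1 + a2 c) ^ r)⁻¹ * ((1 + a2 c) ^ r *
                ∫⁻ z in Bad (D2 D D') (D2 S S') (X2 X X') m r, f z.1 * g z.2 ∂(P.prod P')) := by
                rw [← mul_assoc, ENNReal.inv_mul_cancel hg0 hg1, one_mul]
            _ ≤ _ := by
                gcongr
        · rw [pr, pr, Measure.restrict_univ, Measure.restrict_univ]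

/-- **ALL THE PAIRS.** -/
theorem pairs9 [IsProbabilityMeasure P] [IsProbabilityMeasure P'] {ι ι' : Type*} {I : Finset ι} {I' : Finset ι'}
    {R : ι → ℕ → Ω → Ω → Ω} {R' : ι' → ℕ → Ω' → Ω' → Ω'} {D S X : ι → ℕ → Set Ω} {D' S' X' : ι' → ℕ → Set Ω'}
    {f : ι → Ω → ℝ≥0∞} {g : ι' → Ω' → ℝ≥0∞} (h : ∀ k ∈ I, ChData P m (R k) (D k) (S k) (X k) (f k) c e)
    (h' : ∀ k ∈ I', ChData P' m (R' k) (D' k) (S' k) (X' k) (g k) c e) (f1 : ∀ k ∈ I, ∀ ω, f k ω ≤ 1)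
    (g1 : ∀ k ∈ I', ∀ ω, g k ω ≤ 1) (hc : c ≠ ∞) (r : ℕ) {x x' : ℝ≥0∞} (hx : ∑ k ∈ I, ∫⁻ ω, f k ω ∂P ≤ x)
    (hx' : ∑ k ∈ I', ∫⁻ ω, g k ω ∂P' ≤ x') :
    ∑ k ∈ I, ∑ k' ∈ I', ∫⁻ z in NJ (fun i => S k i \ X k i) (fun i => S' k' i \ X' k' i) m, f k z.1 * g k' z.2 ∂(P.prod P') ≤
      ((1 + a2 c) ^ r)⁻¹ * (x * x' + I.card * I'.card * (m * ((1 + a2 c) ^ m * (2 * e + e ^ 2)))) +
        ((∑ k ∈ I, ∫⁻ ω in B1 (D k) (X k) m r, f k ω ∂P) * x' +
          x * ∑ k ∈ I', ∫⁻ ω in B1 (D' k) (X' k) m r, g k ω ∂P') := by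
  calc _ ≤ ∑ k ∈ I, ∑ k' ∈ I', (((1 + a2 c) ^ r)⁻¹ * ((∫⁻ ω, f k ω ∂P) * (∫⁻ ω, g k' ω ∂P') +
        m * ((1 + a2 c) ^ m * (2 * e + e ^ 2))) + ((∫⁻ ω in B1 (D k) (X k) m r, f k ω ∂P) * (∫⁻ ω, g k' ω ∂P') +
          (∫⁻ ω, f k ω ∂P) * ∫⁻ ω in B1 (D' k') (X' k') m r, g k' ω ∂P')) :=
        Finset.sum_le_sum fun k hk => Finset.sum_le_sum fun k' hk' =>
          rest9 (h k hk) (h' k' hk') (f1 k hk) (g1 k' hk') hc r
    _ = ((1 + a2 c) ^ r)⁻¹ * ((∑ k ∈ I, ∫⁻ ω, f k ω ∂P) * (∑ k' ∈ I', ∫⁻ ω, g k' ω ∂P') +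
          I.card * I'.card * (m * ((1 + a2 c) ^ m * (2 * e + e ^ 2)))) +
        ((∑ k ∈ I, ∫⁻ ω in B1 (D k) (X k) m r, f k ω ∂P) * (∑ k' ∈ I', ∫⁻ ω, g k' ω ∂P') +
          (∑ k ∈ I, ∫⁻ ω, f k ω ∂P) * ∑ k' ∈ I', ∫⁻ ω in B1 (D' k') (X' k') m r, g k' ω ∂P') := by
        simp only [Finset.sum_add_distrib, ← Finset.mul_sum, ← Finset.sum_mul, Finset.sum_const, nsmul_eq_mul]
        ring
    _ ≤ _ := by gcongr

/-- **ANOTHER WEIGHT IN THE FIRST COPY.** `w` may be replaced by `f` on the events `no success of K`. -/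
theorem tr9 [SFinite P] [SFinite P'] {U : ℕ → Set Ω} {U' : ℕ → Set Ω'} (mU : ∀ i < m, MeasurableSet (U i))
    (mU' : ∀ i < m, MeasurableSet (U' i)) {w : Ω → ℝ≥0∞} (mw : Measurable w) (mf : Measurable f) (mg : Measurable g)
    {C t : ℝ≥0∞} (hC : C ≠ ∞)
    (htr : ∀ K : Set ℕ, ∫⁻ ω in {ω | ∀ i < m, i ∈ K → ω ∉ U i}, w ω ∂P ≤
      C * ∫⁻ ω in {ω | ∀ i < m, i ∈ K → ω ∉ U i}, f ω ∂P + t) :
    ∫⁻ z in NJ U U' m, w z.1 * g z.2 ∂(P.prod P') ≤
      C * ∫⁻ z in NJ U U' m, f z.1 * g z.2 ∂(P.prod P') + t * ∫⁻ ω, g ω ∂P' := by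
  have mN := measurableSet_NJ mU mU'
  have key : ∀ v : Ω → ℝ≥0∞, Measurable v → ∫⁻ z in NJ U U' m, v z.1 * g z.2 ∂(P.prod P') =
      ∫⁻ ω', g ω' * ∫⁻ ω in {ω | ∀ i < m, i ∈ {i | ω' ∈ U' i} → ω ∉ U i}, v ω ∂P ∂P' := by
    intro v mv
    rw [← lintegral_indicator mN]
    have m1 : Measurable ((NJ U U' m).indicator fun z : Ω × Ω' => v z.1 * g z.2) :=
      ((mv.comp measurable_fst).mul (mg.comp measurable_snd)).indicator mN
    rw [lintegral_prod_symm' _ m1]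
    refine lintegral_congr fun ω' => ?_
    have mA : MeasurableSet {ω | ∀ i < m, i ∈ {i | ω' ∈ U' i} → ω ∉ U i} := by
      have : {ω | ∀ i < m, i ∈ {i | ω' ∈ U' i} → ω ∉ U i} = (fun ω => (ω, ω')) ⁻¹' NJ U U' m := by
        ext ω
        simp only [NJ, Set.mem_ofPred_eq, Set.mem_preimage, not_and]
        exact forall₂_congr fun i _ => ⟨fun h a b => h b a, fun h a b => h b a⟩
      rw [this]
      exact (measurable_id.prodMk measurable_const) mN
    rw [← lintegral_indicator mA, ← lintegral_const_mul _ (mv.indicator mA)]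
    refine lintegral_congr fun ω => ?_
    by_cases hω : (ω, ω') ∈ NJ U U' m
    · have hω' : ω ∈ {ω | ∀ i < m, i ∈ {i | ω' ∈ U' i} → ω ∉ U i} := fun i hi a b => hω i hi ⟨b, a⟩
      rw [Set.indicator_of_mem hω, Set.indicator_of_mem hω']
      exact mul_comm _ _
    · have hω' : ω ∉ {ω | ∀ i < m, i ∈ {i | ω' ∈ U' i} → ω ∉ U i} := fun hh => hω fun i hi ab => hh i hi ab.2 ab.1
      rw [Set.indicator_of_notMem hω, Set.indicator_of_notMem hω', mul_zero]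
  rw [key w mw, key f mf]
  calc ∫⁻ ω', g ω' * ∫⁻ ω in {ω | ∀ i < m, i ∈ {i | ω' ∈ U' i} → ω ∉ U i}, w ω ∂P ∂P'
      ≤ ∫⁻ ω', (C * (g ω' * ∫⁻ ω in {ω | ∀ i < m, i ∈ {i | ω' ∈ U' i} → ω ∉ U i}, f ω ∂P) + t * g ω') ∂P' := by
        refine lintegral_mono fun ω' => ?_
        calc _ ≤ g ω' * (C * ∫⁻ ω in {ω | ∀ i < m, i ∈ {i | ω' ∈ U' i} → ω ∉ U i}, f ω ∂P + t) :=
              mul_le_mul_right (htr _) _
          _ = _ := by ring
    _ = _ := by
        rw [lintegral_add_right _ (mg.const_mul t), lintegral_const_mul' _ _ hC, lintegral_const_mul _ mg]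

end abs

end

end Pool.Agent.W_7d29a1_C1.NoJ9
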