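import Pool.Agent.W_7d29a1_C1.NoJ9

/-!
Both halves (MP_7d29a1_pr), attractor route: THE PAIRS WITHOUT JOINT SUCCESS: real form, and the data of one copy for the law
of the environment, seen from the contact. (helper9)

`n2r9`: the remainder `N2` of the assembly. `ch9`: `ChData` of one copy from local data seen from the contact `p` (the blocks
may be windows); `oX9`: levels.
-/

set_option autoImplicit false

namespace Pool.Agent.W_7d29a1_C1.NoJ9

open MeasureTheory ProbabilityTheory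
open Pool.Agent.W_7d29a1_F Pool.Agent.W_7d29a1_C1.S71 Pool.Agent.W_7d29a1_C1.Sw9
open Pool.Agent.W_7d29a1_C1.H54
open scoped ENNReal Classical

noncomputable section

/-! ### With one more event -/

section abs

variable {Ω Ω' : Type*} [MeasurableSpace Ω] [MeasurableSpace Ω'] {P : Measure Ω} {P' : Measure Ω'}
  {m : ℕ} {R : ℕ → Ω → Ω → Ω} {R' : ℕ → Ω' → Ω' → Ω'} {D S X : ℕ → Set Ω} {D' S' X' : ℕ → Set Ω'}
  {f : Ω → ℝ≥0∞} {g : Ω' → ℝ≥0∞} {c e : ℝ≥0∞}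

/-- **ONE PAIR, on an event `V`** (used with `V` = the chosen class). -/
theorem restV9 [IsProbabilityMeasure P] [IsProbabilityMeasure P'] (h : ChData P m R D S X f c e)
    (h' : ChData P' m R' D' S' X' g c e) (f1 : ∀ ω, f ω ≤ 1) (g1 : ∀ ω, g ω ≤ 1) (hc : c ≠ ∞) (r : ℕ) (V : Set (Ω × Ω')) :
    ∫⁻ z in NJ (fun i => S i \ X i) (fun i => S' i \ X' i) m ∩ V, f z.1 * g z.2 ∂(P.prod P') ≤
      ((1 + a2 c) ^ r)⁻¹ * ((∫⁻ ω, f ω ∂P) * (∫⁻ ω, g ω ∂P') + m * ((1 + a2 c) ^ m * (2 * e + e ^ 2))) +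
        ∫⁻ z in V ∩ {z | z ∉ Bad (D2 D D') (D2 S S') (X2 X X') m r ∧ (z.1 ∈ B1 D X m r ∨ z.2 ∈ B1 D' X' m r)},
          f z.1 * g z.2 ∂(P.prod P') := by
  have hp := prod9 h h' f1 g1
  have k := hp.none (a2_ne_top hc) r
  have hg0 : (1 + a2 c) ^ r ≠ 0 := by positivity
  have hg1 : (1 + a2 c) ^ r ≠ ∞ := ENNReal.pow_ne_top (ENNReal.add_ne_top.2 ⟨ENNReal.one_ne_top, a2_ne_top hc⟩)
  have tot : ∫⁻ z, f z.1 * g z.2 ∂(P.prod P') = (∫⁻ ω, f ω ∂P) * ∫⁻ ω, g ω ∂P' :=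
    lintegral_prod_mul h.mW.aemeasurable h'.mW.aemeasurable
  calc ∫⁻ z in NJ (fun i => S i \ X i) (fun i => S' i \ X' i) m ∩ V, f z.1 * g z.2 ∂(P.prod P')
      ≤ ∫⁻ z in Bad (D2 D D') (D2 S S') (X2 X X') m r ∪
          (V ∩ {z | z ∉ Bad (D2 D D') (D2 S S') (X2 X X') m r ∧ (z.1 ∈ B1 D X m r ∨ z.2 ∈ B1 D' X' m r)}),
          f z.1 * g z.2 ∂(P.prod P') := by
        refine lintegral_mono_set fun z hz => ?_
        by_cases hb : z ∈ Bad (D2 D D') (D2 S S') (X2 X X') m r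
        · exact Or.inl hb
        · refine Or.inr ⟨hz.2, hb, ?_⟩
          by_contra hh
          exact hb (not_B1 (not_or.1 hh).1 (not_or.1 hh).2 hz.1)
    _ ≤ _ := lintegral_union_le _ _ _
    _ ≤ _ := by
        refine add_le_add ?_ le_rfl
        rw [← tot]
        calc ∫⁻ z in Bad (D2 D D') (D2 S S') (X2 X X') m r, f z.1 * g z.2 ∂(P.prod P') =
            ((1 + a2 c) ^ r)⁻¹ * ((1 + a2 c) ^ r *
              ∫⁻ z in Bad (D2 D D') (D2 S S') (X2 X X') m r, f z.1 * g z.2 ∂(P.prod P')) := by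
              rw [← mul_assoc, ENNReal.inv_mul_cancel hg0 hg1, one_mul]
          _ ≤ _ := by
              gcongr

end abs

/-! ### The real form -/

section real

variable {Ω Ω' : Type*} [MeasurableSpace Ω] [MeasurableSpace Ω'] {P : Measure Ω} {P' : Measure Ω'}

/-- The constant of two copies, real. -/
def al (c : ℝ) : ℝ := (c / (1 + c)) ^ 2

theorem a1_ofReal {c : ℝ} (hc : 0 ≤ c) : a1 (ENNReal.ofReal c) = ENNReal.ofReal (c / (1 + c)) := by
  unfold a1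
  have h1 : (0 : ℝ) < 1 + c := by linarith
  have e1 : (1 : ℝ≥0∞) + ENNReal.ofReal c = ENNReal.ofReal (1 + c) := by
    rw [ENNReal.ofReal_add zero_le_one hc, ENNReal.ofReal_one]
  rw [e1, ← ENNReal.ofReal_inv_of_pos h1, ← ENNReal.ofReal_mul (inv_nonneg.2 h1.le), div_eq_inv_mul]

theorem a2_ofReal {c : ℝ} (hc : 0 ≤ c) : a2 (ENNReal.ofReal c) = ENNReal.ofReal (al c) := by
  unfold a2 al
  have h0 : 0 ≤ c / (1 + c) := div_nonneg hc (by linarith)
  rw [a1_ofReal hc, ← ENNReal.ofReal_mul h0, sq]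

/-- **THE REMAINDER OF THE ASSEMBLY** (`N2` is twice this, for `ws = w`). -/
theorem n2r9 [IsProbabilityMeasure P] [IsProbabilityMeasure P'] {ι ι' : Type*} {I : Finset ι} {I' : Finset ι'} {m : ℕ}
    {R : ι → ℕ → Ω → Ω → Ω} {R' : ι' → ℕ → Ω' → Ω' → Ω'} {D S X : ι → ℕ → Set Ω} {D' S' X' : ι' → ℕ → Set Ω'}
    {w : ι → Ω → ℝ} {w' : ι' → Ω' → ℝ} {c e : ℝ} (hc : 0 ≤ c) (he : 0 ≤ e)
    (h : ∀ k ∈ I, ChData P m (R k) (D k) (S k) (X k) (fun ω => ENNReal.ofReal (w k ω)) (ENNReal.ofReal c) (ENNReal.ofReal e))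
    (h' : ∀ k ∈ I', ChData P' m (R' k) (D' k) (S' k) (X' k) (fun ω => ENNReal.ofReal (w' k ω)) (ENNReal.ofReal c)
      (ENNReal.ofReal e))
    (mw : ∀ k ∈ I, Measurable (w k)) (mw' : ∀ k ∈ I', Measurable (w' k)) (w0 : ∀ k ∈ I, ∀ ω, 0 ≤ w k ω)
    (w0' : ∀ k ∈ I', ∀ ω, 0 ≤ w' k ω) (w1 : ∀ k ∈ I, ∀ ω, w k ω ≤ 1) (w1' : ∀ k ∈ I', ∀ ω, w' k ω ≤ 1) (r : ℕ) {x x' b b' : ℝ}
    (hx : ∑ k ∈ I, ∫ ω, w k ω ∂P ≤ x) (hx' : ∑ k ∈ I', ∫ ω, w' k ω ∂P' ≤ x')
    (hb : ∑ k ∈ I, ∫ ω in B1 (D k) (X k) m r, w k ω ∂P ≤ b) (hb' : ∑ k ∈ I', ∫ ω in B1 (D' k) (X' k) m r, w' k ω ∂P' ≤ b') :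
    ∑ k ∈ I, ∑ k' ∈ I', ∫ z in NJ (fun i => S k i \ X k i) (fun i => S' k' i \ X' k' i) m, w k z.1 * w' k' z.2 ∂(P.prod P') ≤
      ((1 + al c) ^ r)⁻¹ * (x * x' + I.card * I'.card * (m * ((1 + al c) ^ m * (2 * e + e ^ 2)))) + (b * x' + x * b') := by
  have int1 : ∀ k ∈ I, Integrable (w k) P := by
    intro k hk
    refine Integrable.mono' (integrable_const (1 : ℝ)) (mw k hk).aestronglyMeasurable (Filter.Eventually.of_forall fun ω => ?_)
    rw [Real.norm_eq_abs, abs_of_nonneg (w0 k hk ω)]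
    exact w1 k hk ω
  have int2 : ∀ k ∈ I', Integrable (w' k) P' := by
    intro k hk
    refine Integrable.mono' (integrable_const (1 : ℝ)) (mw' k hk).aestronglyMeasurable (Filter.Eventually.of_forall fun ω => ?_)
    rw [Real.norm_eq_abs, abs_of_nonneg (w0' k hk ω)]
    exact w1' k hk ω
  have int3 : ∀ k ∈ I, ∀ k' ∈ I', Integrable (fun z : Ω × Ω' => w k z.1 * w' k' z.2) (P.prod P') :=
    fun k hk k' hk' => (int1 k hk).mul_prod (int2 k' hk')
  have x0 : 0 ≤ x := (Finset.sum_nonneg fun k hk => integral_nonneg (w0 k hk)).trans hx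
  have x0' : 0 ≤ x' := (Finset.sum_nonneg fun k hk => integral_nonneg (w0' k hk)).trans hx'
  have b0 : 0 ≤ b := (Finset.sum_nonneg fun k hk => integral_nonneg (w0 k hk)).trans hb
  have b0' : 0 ≤ b' := (Finset.sum_nonneg fun k hk => integral_nonneg (w0' k hk)).trans hb'
  have al0 : 0 ≤ al c := sq_nonneg _
  have key := pairs9 (P := P) (P' := P') h h' (fun k hk ω => ENNReal.ofReal_le_one.2 (w1 k hk ω))
    (fun k hk ω => ENNReal.ofReal_le_one.2 (w1' k hk ω)) ENNReal.ofReal_ne_top r (x := ENNReal.ofReal x)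
    (x' := ENNReal.ofReal x') (by
      calc ∑ k ∈ I, ∫⁻ ω, ENNReal.ofReal (w k ω) ∂P = ∑ k ∈ I, ENNReal.ofReal (∫ ω, w k ω ∂P) :=
            Finset.sum_congr rfl fun k hk => (ofReal_integral_eq_lintegral_ofReal (int1 k hk)
              (Filter.Eventually.of_forall (w0 k hk))).symm
        _ = ENNReal.ofReal (∑ k ∈ I, ∫ ω, w k ω ∂P) :=
            (ENNReal.ofReal_sum_of_nonneg fun k hk => integral_nonneg (w0 k hk)).symm
        _ ≤ _ := ENNReal.ofReal_le_ofReal hx) (by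
      calc ∑ k ∈ I', ∫⁻ ω, ENNReal.ofReal (w' k ω) ∂P' = ∑ k ∈ I', ENNReal.ofReal (∫ ω, w' k ω ∂P') :=
            Finset.sum_congr rfl fun k hk => (ofReal_integral_eq_lintegral_ofReal (int2 k hk)
              (Filter.Eventually.of_forall (w0' k hk))).symm
        _ = ENNReal.ofReal (∑ k ∈ I', ∫ ω, w' k ω ∂P') :=
            (ENNReal.ofReal_sum_of_nonneg fun k hk => integral_nonneg (w0' k hk)).symm
        _ ≤ _ := ENNReal.ofReal_le_ofReal hx')
  have kb : ∑ k ∈ I, ∫⁻ ω in B1 (D k) (X k) m r, ENNReal.ofReal (w k ω) ∂P ≤ ENNReal.ofReal b := by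
    calc ∑ k ∈ I, ∫⁻ ω in B1 (D k) (X k) m r, ENNReal.ofReal (w k ω) ∂P =
        ∑ k ∈ I, ENNReal.ofReal (∫ ω in B1 (D k) (X k) m r, w k ω ∂P) :=
          Finset.sum_congr rfl fun k hk => (ofReal_integral_eq_lintegral_ofReal (int1 k hk).integrableOn
            (Filter.Eventually.of_forall (w0 k hk))).symm
      _ = ENNReal.ofReal (∑ k ∈ I, ∫ ω in B1 (D k) (X k) m r, w k ω ∂P) :=
          (ENNReal.ofReal_sum_of_nonneg fun k hk => integral_nonneg (w0 k hk)).symm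
      _ ≤ _ := ENNReal.ofReal_le_ofReal hb
  have kb' : ∑ k ∈ I', ∫⁻ ω in B1 (D' k) (X' k) m r, ENNReal.ofReal (w' k ω) ∂P' ≤ ENNReal.ofReal b' := by
    calc ∑ k ∈ I', ∫⁻ ω in B1 (D' k) (X' k) m r, ENNReal.ofReal (w' k ω) ∂P' =
        ∑ k ∈ I', ENNReal.ofReal (∫ ω in B1 (D' k) (X' k) m r, w' k ω ∂P') :=
          Finset.sum_congr rfl fun k hk => (ofReal_integral_eq_lintegral_ofReal (int2 k hk).integrableOn
            (Filter.Eventually.of_forall (w0' k hk))).symm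
      _ = ENNReal.ofReal (∑ k ∈ I', ∫ ω in B1 (D' k) (X' k) m r, w' k ω ∂P') :=
          (ENNReal.ofReal_sum_of_nonneg fun k hk => integral_nonneg (w0' k hk)).symm
      _ ≤ _ := ENNReal.ofReal_le_ofReal hb'
  -- the left side
  have kl : ENNReal.ofReal (∑ k ∈ I, ∑ k' ∈ I', ∫ z in NJ (fun i => S k i \ X k i) (fun i => S' k' i \ X' k' i) m,
      w k z.1 * w' k' z.2 ∂(P.prod P')) =
      ∑ k ∈ I, ∑ k' ∈ I', ∫⁻ z in NJ (fun i => S k i \ X k i) (fun i => S' k' i \ X' k' i) m,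
        ENNReal.ofReal (w k z.1) * ENNReal.ofReal (w' k' z.2) ∂(P.prod P') := by
    rw [ENNReal.ofReal_sum_of_nonneg fun k hk => Finset.sum_nonneg fun k' hk' => integral_nonneg fun z =>
      mul_nonneg (w0 k hk _) (w0' k' hk' _)]
    refine Finset.sum_congr rfl fun k hk => ?_
    rw [ENNReal.ofReal_sum_of_nonneg fun k' hk' => integral_nonneg fun z => mul_nonneg (w0 k hk _) (w0' k' hk' _)]
    refine Finset.sum_congr rfl fun k' hk' => ?_
    rw [ofReal_integral_eq_lintegral_ofReal (int3 k hk k' hk').integrableOn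
      (Filter.Eventually.of_forall fun z => mul_nonneg (w0 k hk _) (w0' k' hk' _))]
    refine lintegral_congr fun z => ?_
    rw [ENNReal.ofReal_mul (w0 k hk _)]
  -- the right side
  have q1 : 0 < (1 + al c) ^ r := by positivity
  have z0 : 0 ≤ (2 * e + e ^ 2) := by positivity
  have kr : ((1 + a2 (ENNReal.ofReal c)) ^ r)⁻¹ * (ENNReal.ofReal x * ENNReal.ofReal x' +
        I.card * I'.card * (m * ((1 + a2 (ENNReal.ofReal c)) ^ m * (2 * ENNReal.ofReal e + ENNReal.ofReal e ^ 2)))) +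
      (ENNReal.ofReal b * ENNReal.ofReal x' + ENNReal.ofReal x * ENNReal.ofReal b') =
      ENNReal.ofReal (((1 + al c) ^ r)⁻¹ * (x * x' + I.card * I'.card * (m * ((1 + al c) ^ m * (2 * e + e ^ 2)))) +
        (b * x' + x * b')) := by
    have e1 : (1 : ℝ≥0∞) + a2 (ENNReal.ofReal c) = ENNReal.ofReal (1 + al c) := by
      rw [a2_ofReal hc, ENNReal.ofReal_add zero_le_one al0, ENNReal.ofReal_one]
    have e2 : (2 : ℝ≥0∞) * ENNReal.ofReal e + ENNReal.ofReal e ^ 2 = ENNReal.ofReal (2 * e + e ^ 2) := by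
      rw [ENNReal.ofReal_add (by positivity) (by positivity), ENNReal.ofReal_mul (by norm_num), ENNReal.ofReal_ofNat,
        ENNReal.ofReal_pow he]
    have e3 : ∀ n : ℕ, ENNReal.ofReal (1 + al c) ^ n = ENNReal.ofReal ((1 + al c) ^ n) := fun n =>
      (ENNReal.ofReal_pow (by positivity) n).symm
    rw [e1, e2, e3, e3, ← ENNReal.ofReal_inv_of_pos q1, ← ENNReal.ofReal_mul x0, ← ENNReal.ofReal_mul b0,
      ← ENNReal.ofReal_mul x0, ← ENNReal.ofReal_natCast I.card, ← ENNReal.ofReal_natCast I'.card,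
      ← ENNReal.ofReal_natCast m, ← ENNReal.ofReal_mul (by positivity), ← ENNReal.ofReal_mul (by positivity),
      ← ENNReal.ofReal_mul (by positivity), ← ENNReal.ofReal_mul (by positivity),
      ← ENNReal.ofReal_add (by positivity) (by positivity), ← ENNReal.ofReal_mul (by positivity),
      ← ENNReal.ofReal_add (by positivity) (by positivity), ← ENNReal.ofReal_add (by positivity) (by positivity)]
  have fin : ENNReal.ofReal (∑ k ∈ I, ∑ k' ∈ I', ∫ z in NJ (fun i => S k i \ X k i) (fun i => S' k' i \ X' k' i) m,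
      w k z.1 * w' k' z.2 ∂(P.prod P')) ≤ ENNReal.ofReal (((1 + al c) ^ r)⁻¹ * (x * x' +
        I.card * I'.card * (m * ((1 + al c) ^ m * (2 * e + e ^ 2)))) + (b * x' + x * b')) := by
    rw [kl, ← kr]
    refine key.trans ?_
    gcongr
  exact (ENNReal.ofReal_le_ofReal_iff (by positivity)).1 fin

end real

/-! ### One copy, seen from the contact -/

section model

variable {μ : Measure ℝ} [IsProbabilityMeasure μ]

/-- The block `Bl` around the contact `p` is taken from `η`. -/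
def rc1 (Bl : Set Pt) (p : Pt) (η ω : Env) : Env := sh (-p) (gl Bl (sh p η) (sh p ω))

theorem sh_rc1 (Bl : Set Pt) (p : Pt) (η ω : Env) : sh p (rc1 Bl p η ω) = gl Bl (sh p η) (sh p ω) :=
  sh_sh_neg p (gl Bl (sh p η) (sh p ω))

theorem mp_rc1 (Bl : Set Pt) (p : Pt) :
    MeasurePreserving (fun q : Env × Env => rc1 Bl p q.1 q.2) ((law μ).prod (law μ)) (law μ) :=
  (mp_sh (-p)).comp ((mp_gl Bl).comp ((mp_sh p).prod (mp_sh p)))

/-- **`ChData` OF ONE COPY FROM LOCAL DATA SEEN FROM THE CONTACT `p`**: `Bl i` = the resampled block (it may be a window),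
`D0 i` = wide outside, `S0 i` = success, `X0 i` = abnormal. -/
theorem ch9 {m : ℕ} {Bl : ℕ → Set Pt} {D0 S0 X0 : ℕ → Set Env} (p : Pt) {W : Env → ℝ≥0∞} (mW : Measurable W)
    (mD : ∀ i < m, MeasurableSet (D0 i)) (mS : ∀ i < m, MeasurableSet (S0 i)) (mX : ∀ i < m, MeasurableSet (X0 i))
    (oD : ∀ i < m, ∀ j < m, i ≤ j → Off (Bl i) (D0 j)) (oS : ∀ i < m, ∀ j < m, i < j → Off (Bl i) (S0 j))
    (oX : ∀ i < m, ∀ j < m, i < j → ∃ Y : Set Env, Off (Bl i) Y ∧ ∀ η, η ∉ X0 i → (η ∈ X0 j ↔ η ∈ Y)) {c e : ℝ≥0∞}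
    (cmp : ∀ i < m, ∀ ω ∈ D0 i,
      c * ∫⁻ η in {η | gl (Bl i) η ω ∉ X0 i ∧ gl (Bl i) η ω ∉ S0 i}, W (sh (-p) (gl (Bl i) η ω)) ∂(law μ) ≤
        ∫⁻ η in {η | gl (Bl i) η ω ∉ X0 i ∧ gl (Bl i) η ω ∈ S0 i}, W (sh (-p) (gl (Bl i) η ω)) ∂(law μ) + e) :
    ChData (law μ) m (fun i => rc1 (Bl i) p) (fun i => sh p ⁻¹' D0 i) (fun i => sh p ⁻¹' S0 i) (fun i => sh p ⁻¹' X0 i)
      W c e := by
  refine
    { mp := fun i _ => mp_rc1 (Bl i) p
      mD := fun i hi => measurable_sh p (mD i hi)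
      mS := fun i hi => measurable_sh p (mS i hi)
      mX := fun i hi => measurable_sh p (mX i hi)
      mW := mW
      bD := ?_
      bS := ?_
      bX := ?_
      cmp := ?_ }
  · intro i hi j hj hij η ω
    show sh p (rc1 (Bl i) p η ω) ∈ D0 j ↔ sh p ω ∈ D0 j
    rw [sh_rc1]
    exact (oD i hi j hj hij).gl _ _
  · intro i hi j hj hij η ω
    show sh p (rc1 (Bl i) p η ω) ∈ S0 j ↔ sh p ω ∈ S0 j
    rw [sh_rc1]
    exact (oS i hi j hj hij).gl _ _
  · intro i hi j hj hij η η' ω h1 h2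
    obtain ⟨Y, hY, hY'⟩ := oX i hi j hj hij
    have k1 : sh p (rc1 (Bl i) p η ω) ∉ X0 i := h1
    have k2 : sh p (rc1 (Bl i) p η' ω) ∉ X0 i := h2
    show sh p (rc1 (Bl i) p η ω) ∈ X0 j ↔ sh p (rc1 (Bl i) p η' ω) ∈ X0 j
    rw [hY' _ k1, hY' _ k2, sh_rc1, sh_rc1, hY.gl _ _, hY.gl _ _]
  · intro i hi ω hω
    have k := cmp i hi (sh p ω) hω
    have mG : Measurable fun η : Env => gl (Bl i) η (sh p ω) :=
      (measurable_gl (Bl i)).comp (measurable_id.prodMk measurable_const)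
    have mF : Measurable fun η : Env => W (sh (-p) (gl (Bl i) η (sh p ω))) := mW.comp ((measurable_sh (-p)).comp mG)
    have conv : ∀ A : Set Env, MeasurableSet A → ∫⁻ η in sh p ⁻¹' A, W (rc1 (Bl i) p η ω) ∂(law μ) =
        ∫⁻ η in A, W (sh (-p) (gl (Bl i) η (sh p ω))) ∂(law μ) := by
      intro A hA
      exact (mp_sh (μ := μ) p).setLIntegral_comp_preimage hA mF
    have e1 : {η | rc1 (Bl i) p η ω ∉ sh p ⁻¹' X0 i ∧ rc1 (Bl i) p η ω ∉ sh p ⁻¹' S0 i} =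
        sh p ⁻¹' {η | gl (Bl i) η (sh p ω) ∉ X0 i ∧ gl (Bl i) η (sh p ω) ∉ S0 i} := by
      ext η
      simp only [Set.mem_ofPred_eq, Set.mem_preimage, sh_rc1]
    have e2 : {η | rc1 (Bl i) p η ω ∉ sh p ⁻¹' X0 i ∧ rc1 (Bl i) p η ω ∈ sh p ⁻¹' S0 i} =
        sh p ⁻¹' {η | gl (Bl i) η (sh p ω) ∉ X0 i ∧ gl (Bl i) η (sh p ω) ∈ S0 i} := by
      ext η
      simp only [Set.mem_ofPred_eq, Set.mem_preimage, sh_rc1]
    have c1 := conv {η | gl (Bl i) η (sh p ω) ∉ X0 i ∧ gl (Bl i) η (sh p ω) ∉ S0 i}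
      ((mG (mX i hi).compl).inter (mG (mS i hi).compl))
    have c2 := conv {η | gl (Bl i) η (sh p ω) ∉ X0 i ∧ gl (Bl i) η (sh p ω) ∈ S0 i}
      ((mG (mX i hi).compl).inter (mG (mS i hi)))
    rw [e1, e2, c1, c2]
    exact k

/-- **LEVELS**: the field `oX` of `ch9`. Each level event of the scale `j` does not see the block `i`, or it is a level event
of the scale `i` too (and a weaker one). -/
theorem oX9 {κ : Type*} {Bl : ℕ → Set Pt} {Bk : κ → Set Pt} {E : ℕ → κ → Set Env} {Ks : ℕ → Set κ}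
    (oE : ∀ j k, Off (Bk k)ᶜ (E j k)) {i j : ℕ}
    (h : ∀ k ∈ Ks j, Disjoint (Bk k) (Bl i) ∨ (k ∈ Ks i ∧ E j k ⊆ E i k)) :
    ∃ Y : Set Env, Off (Bl i) Y ∧ ∀ η, η ∉ (⋃ k ∈ Ks i, E i k) → (η ∈ (⋃ k ∈ Ks j, E j k) ↔ η ∈ Y) := by
  refine ⟨⋃ k ∈ Ks j, if Disjoint (Bk k) (Bl i) then E j k else ∅, ?_, fun η hη => ?_⟩
  · intro η η' hηη
    simp only [Set.mem_iUnion, exists_prop]
    refine exists_congr fun k => and_congr_right fun _ => ?_
    by_cases hk : Disjoint (Bk k) (Bl i)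
    · rw [if_pos hk]
      have ho : Off (Bl i) (E j k) := (oE j k).mono fun q hq hq' => Set.disjoint_left.1 hk hq' hq
      exact ho η η' hηη
    · rw [if_neg hk]
      exact Iff.rfl
  · simp only [Set.mem_iUnion, exists_prop]
    constructor
    · rintro ⟨k, hk, hη'⟩
      rcases h k hk with hd | ⟨hk', hs⟩
      · exact ⟨k, hk, by rw [if_pos hd]; exact hη'⟩
      · exact absurd (Set.mem_iUnion₂.2 ⟨k, hk', hs hη'⟩) hη
    · rintro ⟨k, hk, hη'⟩
      by_cases hd : Disjoint (Bk k) (Bl i)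
      · rw [if_pos hd] at hη'
        exact ⟨k, hk, hη'⟩
      · rw [if_neg hd] at hη'
        exact hη'.elim

/-- The complement of the sets of `pd9` = the pairs without joint success of the two chains. -/
theorem jo9 {m : ℕ} {p p' : Pt} {SA SA' SB : ℕ → Set Env} {κ : Type*} {E : ℕ → κ → Set Env} {Ks : ℕ → Set κ} :
    (⋃ i ∈ Finset.range m, if i < m then H54.outer (Pd9.Jo p p' SA SA' SB E Ks) m i else (∅ : Set (Env × Env)))ᶜ =
      NJ (fun i => (sh p ⁻¹' (SA i ∩ SB i)) \ (sh p ⁻¹' ⋃ k ∈ Ks i, E i k))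
        (fun i => (sh p' ⁻¹' (SA' i ∩ SB i)) \ (sh p' ⁻¹' ⋃ k ∈ Ks i, E i k)) m := by
  rw [Pd9.iUnion_outer]
  ext z
  simp only [Set.mem_compl_iff, Set.mem_iUnion, exists_prop, Finset.mem_range, not_exists, not_and, NJ, Set.mem_ofPred_eq]
  constructor
  · intro h i hi h1 h2
    exact h i hi ⟨⟨h1.1, h1.2⟩, ⟨h2.1, h2.2⟩⟩
  · intro h i hi h3
    exact h i hi ⟨h3.1.1, h3.1.2⟩ ⟨h3.2.1, h3.2.2⟩

end model

end

end Pool.Agent.W_7d29a1_C1.NoJ9
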