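import Pool.Agent.W_7d29a1_C1.SepE98

/-!
Both halves (MP_7d29a1_pr), attractor route [C1], SEP: THE NUMBERS OF THE RATIO AS A FUNCTION OF THE GEOMETRY (helper86)

`Rc86` : the constants; `nr86` : the record `Nr98` at the geometry `G`.
-/

set_option autoImplicit false

namespace Pool.Agent.W_7d29a1_C1.PL86

open Pool.Agent.W_7d29a1_h4g Pool.Agent.W_7d29a1_HS
open Pool.Agent.W_7d29a1_H hiding ex gg
open Pool.Agent.W_7d29a1_C1.H75 (hc)
open Pool.Agent.W_7d29a1_C1.G37 (Gm)
open Pool.Agent.W_7d29a1_C1.D98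

noncomputable section

/-- **THE CONSTANTS OF THE RATIO.** `b`: strip (after the luck); `V1, U1`: upper and lower kernels at the strip `b`; `qw`: the weights of a
row; `V`: upper kernels of all the starts; `Re, Qe`: strip and level of the lower kernels (before the luck). -/
structure Rc86 where
  b : ℝ
  V1 : ℝ
  U1 : ℝ
  qw : ℝ
  V : ℝ
  Re : ℝ
  Qe : ℝ

/-- **THE RECORD.** -/
def nr86 (μ : MeasureTheory.Measure ℝ) (s c : ℝ) (r : Rc86) (G : Gm) : Nr98 where
  b _ := r.b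
  A u := Real.exp (r.V1 * EE μ s (G.T u))
  X u := Real.exp ((r.V1 - c / 2 * r.b) * EE μ s (G.T u))
  U1 u := r.U1 * EE μ s (G.T u)
  Uw u := r.qw * EE μ s (G.T u)
  Vs u := r.V * EE μ s (G.T u)
  sV u := c / 16 * (EE μ s (G.T u) / wd μ s (G.T u))
  Re := r.Re
  Qe := r.Qe

end

end Pool.Agent.W_7d29a1_C1.PL86
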