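import Pool.Agent.W_7d29a1_C1.Tm31

/-!
MP_7d29a1_pr, attractor route [C1], field `nu`: THE GROWTH OF THE FUTURE AT A CUT, ALL PLACES. (helper6)

`nsD6` : a profile which is locally regular at the scales `b, .., Mt` (`Lr31`) and satisfies the crude comparison at the row, in the unit `Tt`
of the layers (`wd Tt ≤ C₀ wd (T b)`), grows at most with the slope `C₀ σ + sc + yy` from any place of the window, over ALL places. Within
`2 wd (T Mt)` of the line this is local regularity, beyond it the crude comparison (`X wd Tt ≤ yy wd (T Mt)`).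
-/

set_option autoImplicit false

namespace Pool.Agent.W_7d29a1_C1.Ns6

open MeasureTheory Finset
open Pool.Agent.W_7d29a1_F Pool.Agent.W_7d29a1_h4g Pool.Agent.W_7d29a1_H Pool.Agent.W_7d29a1_HS
open Pool.Agent.W_7d29a1_C1.U16
open Pool.Agent.W_7d29a1_C1.D31 (Lr31)

noncomputable section

variable {μ : Measure ℝ} [IsProbabilityMeasure μ] {s : ℝ}

/-- **THE GROWTH AT A CUT, ALL PLACES.** -/
theorem nsD6 {F : ℤ → ℝ} (hF : ∀ y, 0 ≤ F y) {κ : Pt} {T : ℕ → ℕ} {Mt b row Tt : ℕ} {A Φ σ C₀ X sc yy K₁ σ' x₀ : ℝ}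
    (hb : b ≤ Mt) (hL : Lr31 μ s κ T Mt 2 A Φ σ F row b) (hA : 0 ≤ A) (hσ : 0 ≤ σ) (hsc : 0 ≤ sc) (hyy : 0 ≤ yy) (hK₁ : 0 ≤ K₁)
    (hTt : T b ≤ Tt) (hwb : 0 < wd μ s (T b)) (hwt : 0 < wd μ s Tt) (hwB : wd μ s Tt ≤ C₀ * wd μ s (T b))
    (hwM : 2 * wd μ s (T b) ≤ wd μ s (T Mt)) {zt : ℤ} (hzt : |lat16 μ s κ ((row : ℤ), zt)| ≤ 2 * wd μ s (T b))
    (hx₀ : |(zt : ℝ) - x₀| ≤ K₁ * wd μ s Tt)
    (hcr : ∀ v : ℤ, F v ≤ Real.exp ((X + sc * (|(v : ℝ) - x₀| / wd μ s Tt)) * EE μ s Tt) * F zt)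
    (hX : X * wd μ s Tt ≤ yy * wd μ s (T Mt)) (hσ' : C₀ * σ + sc + yy ≤ σ') :
    ∀ v : ℤ, F v ≤ Real.exp ((A + sc * K₁ + σ' * (|(v : ℝ) - zt| / wd μ s Tt)) * EE μ s Tt) * F zt := by
  intro v
  have hE0 : 0 < EE μ s Tt := EE_pos _
  have hEb : 0 < EE μ s (T b) := EE_pos _
  have hEE : EE μ s (T b) ≤ EE μ s Tt := EE_mono hTt
  have hC₀ : 0 ≤ C₀ := by
    by_contra hcon
    have h1 : C₀ * wd μ s (T b) < 0 := mul_neg_of_neg_of_pos (not_le.1 hcon) hwb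
    linarith
  have hv0 : 0 ≤ |(v : ℝ) - zt| / wd μ s Tt := by positivity
  have hslope : (C₀ * σ + sc + yy) * (|(v : ℝ) - zt| / wd μ s Tt) ≤ σ' * (|(v : ℝ) - zt| / wd μ s Tt) :=
    mul_le_mul_of_nonneg_right hσ' hv0
  have hscK : 0 ≤ sc * K₁ := by positivity
  by_cases hv : |lat16 μ s κ ((row : ℤ), v)| ≤ 2 * wd μ s (T Mt)
  · -- in the window
    have g1 := hL 0 (by omega) v zt (by rw [Nat.add_zero]; exact hzt) hv
    rw [pow_zero, one_mul] at g1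
    refine g1.trans (mul_le_mul_of_nonneg_right (Real.exp_le_exp.2 ?_) (hF _))
    have g2 : A * EE μ s (T b) ≤ A * EE μ s Tt := mul_le_mul_of_nonneg_left hEE hA
    have g3 : EE μ s (T b) / wd μ s (T b) ≤ C₀ * (EE μ s Tt / wd μ s Tt) := by
      rw [mul_div_assoc', div_le_div_iff₀ hwb hwt]
      calc EE μ s (T b) * wd μ s Tt ≤ EE μ s Tt * (C₀ * wd μ s (T b)) := mul_le_mul hEE hwB hwt.le hE0.le
        _ = C₀ * EE μ s Tt * wd μ s (T b) := by ring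
    have g4 : σ * (EE μ s (T b) / wd μ s (T b)) * |(v : ℝ) - zt| ≤ σ * (C₀ * (EE μ s Tt / wd μ s Tt)) * |(v : ℝ) - zt| :=
      mul_le_mul_of_nonneg_right (mul_le_mul_of_nonneg_left g3 hσ) (abs_nonneg _)
    have g5 : σ * (C₀ * (EE μ s Tt / wd μ s Tt)) * |(v : ℝ) - zt| = C₀ * σ * (|(v : ℝ) - zt| / wd μ s Tt) * EE μ s Tt := by
      ring
    have g6 : C₀ * σ * (|(v : ℝ) - zt| / wd μ s Tt) ≤ (C₀ * σ + sc + yy) * (|(v : ℝ) - zt| / wd μ s Tt) :=
      mul_le_mul_of_nonneg_right (by linarith) hv0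
    have g7 := mul_le_mul_of_nonneg_right (g6.trans hslope) hE0.le
    have g8 := mul_le_mul_of_nonneg_right hscK hE0.le
    rw [zero_mul] at g8
    rw [add_mul, add_mul]
    linarith
  · -- beyond the window
    rw [not_le] at hv
    have h1 : wd μ s (T Mt) ≤ |(v : ℝ) - zt| := by
      have e1 : (v : ℝ) - zt = lat16 μ s κ ((row : ℤ), v) - lat16 μ s κ ((row : ℤ), zt) := by
        unfold lat16
        push_cast
        ring
      have e2 := abs_sub_abs_le_abs_sub (lat16 μ s κ ((row : ℤ), v)) (lat16 μ s κ ((row : ℤ), zt))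
      rw [e1]
      linarith
    have h2 : X ≤ yy * (|(v : ℝ) - zt| / wd μ s Tt) := by
      rw [mul_div_assoc', le_div_iff₀ hwt]
      exact hX.trans (mul_le_mul_of_nonneg_left h1 hyy)
    have h3 : |(v : ℝ) - x₀| / wd μ s Tt ≤ |(v : ℝ) - zt| / wd μ s Tt + K₁ := by
      rw [div_add' (hc := hwt.ne'), div_le_div_iff_of_pos_right hwt]
      have e3 : (v : ℝ) - x₀ = ((v : ℝ) - zt) + ((zt : ℝ) - x₀) := by ring
      rw [e3]
      exact (abs_add_le _ _).trans (by linarith)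
    refine (hcr v).trans (mul_le_mul_of_nonneg_right (Real.exp_le_exp.2 (mul_le_mul_of_nonneg_right ?_ hE0.le)) (hF _))
    have h4 := mul_le_mul_of_nonneg_left h3 hsc
    have h5 : (sc + yy) * (|(v : ℝ) - zt| / wd μ s Tt) ≤ (C₀ * σ + sc + yy) * (|(v : ℝ) - zt| / wd μ s Tt) :=
      mul_le_mul_of_nonneg_right (by have := mul_nonneg hC₀ hσ; linarith) hv0
    linarith

end

end Pool.Agent.W_7d29a1_C1.Ns6
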