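import Pool.Agent.W_7d29a1_C1.TamO16

/-!
MP_7d29a1_pr, [C1] SHELL / SEP: NO STEEP FUTURE at the scale `t` (the clause NS of helper25 84425). (helper94)

* `nsA94`: any system `Sys16`: upper levels of the kernel from the place, one lower level, a regular profile at the row `r`: the mass farther than
  `D w` from the line at the row `r` is at most `exp (-(c' / 4 D E))` of the whole, for EVERY `D ≥ D₀`.
* **`ns_model94`**: the model (`nk`, `bh16`) with `FarW89.Slabs`.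
-/

set_option autoImplicit false

namespace Pool.Agent.W_7d29a1_C1.NS94

open MeasureTheory ProbabilityTheory Filter Topology Finset
open Pool.Agent.W_7d29a1_F Pool.Agent.W_7d29a1_h4g Pool.Agent.W_7d29a1_H Pool.Agent.W_7d29a1_HS
open Pool.Agent.W_7d29a1_C1.K91 (wt wt_pos)
open Pool.Agent.W_7d29a1_C1.K91P (bw bw_pos)
open Pool.Agent.W_7d29a1_C1.H75
open Pool.Agent.W_7d29a1_C1.FarK89 Pool.Agent.W_7d29a1_C1.FarW89
open Pool.Agent.W_7d29a1_C1.U16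

noncomputable section

/-- **NO STEEP FUTURE**, any system. -/
theorem nsA94 {K : ℕ → ℕ → ℤ → ℤ → ℝ} {B : ℕ → ℤ → ℝ} {N : ℕ} (S : Sys16 K B N) {a r : ℕ} (har : a ≤ r) (hr : r ≤ N) {z y₀ : ℤ}
    {l : ℤ → ℝ} {lz E w c' σ Q₁ Q₂ Q₄ R D : ℝ} (hE : 0 < E) (hw : 0 < w) (hc : 0 < c') (hσ : σ ≤ c' / 2)
    (hlz : |lz| ≤ R * w) (hup : ∀ y, z ≤ y → y ≤ z + ((r - a : ℕ) : ℤ) → K a r z y ≤ Real.exp (Q₂ * E - c' * (|l y - lz| / w) * E))
    (hlow : Real.exp (-(Q₁ * E)) ≤ K a r z y₀)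
    (hD2 : ∀ y, B r y ≤ Real.exp ((Q₄ + σ * (|l y| / w)) * E) * B r y₀) (hN : (N : ℝ) + 1 ≤ Real.exp E)
    (hD : 4 / c' * (Q₁ + Q₂ + Q₄ + c' * R + 1) ≤ D) :
    PM16 K B a r z (fun y => D * w ≤ |l y|) ≤ Real.exp (-(c' / 4 * D * E)) * B a z := by
  have hB := S.b0 r y₀ hr
  have h1 : Real.exp (-(Q₁ * E)) * B r y₀ ≤ B a z := (mul_le_mul_of_nonneg_right hlow hB.le).trans (one_le16 S har hr z y₀)
  have hX : Q₁ + Q₂ + Q₄ + c' * R + 1 ≤ c' / 4 * D := by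
    have h2 := mul_le_mul_of_nonneg_left hD (show 0 ≤ c' / 4 by positivity)
    have e : c' / 4 * (4 / c' * (Q₁ + Q₂ + Q₄ + c' * R + 1)) = Q₁ + Q₂ + Q₄ + c' * R + 1 := by field_simp
    linarith
  -- one place
  have h2 : ∀ y ∈ (Icc z (z + ((r - a : ℕ) : ℤ))).filter (fun y => D * w ≤ |l y|), K a r z y * B r y ≤
      Real.exp ((Q₂ + Q₄ + c' * R) * E - c' / 2 * D * E) * B r y₀ := by
    intro y hy
    obtain ⟨hy1, hy2⟩ := mem_filter.1 hy
    rw [mem_Icc] at hy1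
    have g1 := mul_le_mul (hup y hy1.1 hy1.2) (hD2 y) (S.b0 r y hr).le (Real.exp_pos _).le
    refine g1.trans ?_
    rw [← mul_assoc, ← Real.exp_add]
    refine mul_le_mul_of_nonneg_right (Real.exp_le_exp.2 ?_) hB.le
    have g2 : |l y| / w - R ≤ |l y - lz| / w := by
      rw [div_sub' (hc := hw.ne'), div_le_div_iff_of_pos_right hw]
      have g3 := abs_sub_abs_le_abs_sub (l y) lz
      linarith
    have g4 : D ≤ |l y| / w := by rwa [le_div_iff₀ hw]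
    have g5 : c' * (|l y| / w - R) ≤ c' * (|l y - lz| / w) := mul_le_mul_of_nonneg_left g2 hc.le
    have g6 : σ * (|l y| / w) ≤ c' / 2 * (|l y| / w) := mul_le_mul_of_nonneg_right hσ (by positivity)
    have g7 : c' / 2 * D ≤ c' / 2 * (|l y| / w) := mul_le_mul_of_nonneg_left g4 (by positivity)
    have g8 : Q₂ - c' * (|l y - lz| / w) + (Q₄ + σ * (|l y| / w)) ≤ Q₂ + Q₄ + c' * R - c' / 2 * D := by linarith
    have g9 := mul_le_mul_of_nonneg_right g8 hE.le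
    linarith
  -- the sum
  have hcard : ((((Icc z (z + ((r - a : ℕ) : ℤ))).filter (fun y => D * w ≤ |l y|)).card : ℕ) : ℝ) ≤ Real.exp E := by
    refine le_trans ?_ hN
    have g1 : ((Icc z (z + ((r - a : ℕ) : ℤ))).filter (fun y => D * w ≤ |l y|)).card ≤ N + 1 := by
      refine (card_le_card (filter_subset _ _)).trans ?_
      rw [Int.card_Icc]
      omega
    exact_mod_cast g1
  unfold PM16
  refine (sum_le_card_nsmul _ _ _ h2).trans ?_
  rw [nsmul_eq_mul]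
  calc _ ≤ Real.exp E * (Real.exp ((Q₂ + Q₄ + c' * R) * E - c' / 2 * D * E) * B r y₀) :=
        mul_le_mul_of_nonneg_right hcard (by positivity)
    _ = Real.exp (E + ((Q₂ + Q₄ + c' * R) * E - c' / 2 * D * E) + Q₁ * E) * (Real.exp (-(Q₁ * E)) * B r y₀) := by
        rw [← mul_assoc, ← mul_assoc, ← Real.exp_add, ← Real.exp_add]
        congr 2
        ring
    _ ≤ Real.exp (-(c' / 4 * D * E)) * B a z := by
        refine mul_le_mul (Real.exp_le_exp.2 ?_) h1 (by positivity) (Real.exp_pos _).le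
        have g1 := mul_le_mul_of_nonneg_right hX hE.le
        linarith

variable {μ : Measure ℝ} {s : ℝ} [IsProbabilityMeasure μ] {c C : ℝ} {n₀ : ℕ}

/-- **NO STEEP FUTURE OF THE MODEL.** The slabs `a ≤ u < b` lead from the row of the place to the row `r b`; the unit is the scale `Tt`. -/
theorem ns_model94 (h0 : In μ s c C n₀) (P : ℕ) {K θ : ℝ} (hK : 4 ≤ K) (hθ : 0 < θ) : ∃ n₁ : ℕ, 1 ≤ n₁ ∧
    ∀ Q R Q₄ : ℝ, 0 ≤ Q → 0 ≤ R → 0 ≤ Q₄ → ∃ D₀ : ℝ, 0 < D₀ ∧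
    ∀ {h σ : ℝ} {η : Env} {p : ℕ → ℝ} {M N : ℕ} {κ : Pt} {r T Nr : ℕ → ℕ} {q : ℕ → ℝ} {bs : ℕ → Pt} {a b Tt : ℕ}, a < b →
      (∀ k, k < M → p k = Real.exp (s + h)) → (∀ k, M ≤ k → p k = Real.exp s) →
      Slabs μ s c θ K h P η κ r T Nr q bs a b Tt n₁ Q → (∀ u, a ≤ u → u < b → θ * T u ≤ ((r (u + 1) - r u : ℕ) : ℝ)) →
      r b ≤ N → (N : ℝ) + 1 ≤ Real.exp (EE μ s Tt) →
      ∀ {ρ : ℝ} {z y₀ : ℤ}, |ρ| ≤ R * wd μ s Tt → |lt μ s κ r a z| ≤ R * wd μ s Tt → |lt μ s κ r a z - ρ| ≤ (K - 2) / 2 * wd μ s (T a) - 1 →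
      |lt μ s κ r b y₀ - ρ| ≤ (K - 2) / 2 * wd μ s (T (b - 1)) - 1 → σ ≤ c / 16 →
      (∀ y : ℤ, bh16 μ s h η p M N (r b) y ≤ Real.exp ((Q₄ + σ * (|lt μ s κ r b y| / wd μ s Tt)) * EE μ s Tt) * bh16 μ s h η p M N (r b) y₀) →
      ∀ {D : ℝ}, D₀ ≤ D →
      PM16 (fun a b x z => nk μ s h η p M a (b - a) x z) (bh16 μ s h η p M N) (r a) (r b) z (fun y => D * wd μ s Tt ≤ |lt μ s κ r b y|) ≤
        Real.exp (-(c / 32 * D * EE μ s Tt)) * bh16 μ s h η p M N (r a) z := by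
  obtain ⟨C₅, hC₅, n₂, hn₂, H2⟩ := far_up h0 P
  obtain ⟨C₆, hC₆, n₃, hn₃, H3⟩ := far_low89 h0 P hK hθ
  obtain ⟨n₄, hn₄⟩ := eventually_atTop.1 ((wd_tendsto h0).eventually_ge_atTop 1)
  have hc0 := h0.c0
  refine ⟨max n₂ (max n₃ n₄), hn₂.trans (le_max_left _ _), fun Q R Q₄ hQ hR hQ₄ => ?_⟩
  obtain ⟨A₁, hA₁⟩ : ∃ A₁ : ℝ, A₁ = C₆ * Q * gr (2 * P) (R + K) := ⟨_, rfl⟩
  obtain ⟨A₂, hA₂⟩ : ∃ A₂ : ℝ, A₂ = LQ (2 * P) (c / 8) (C₅ * Q) * gr (2 * P) R + Q := ⟨_, rfl⟩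
  have hgRK := gr_nonneg (2 * P) (show (0 : ℝ) ≤ R + K by linarith)
  have hLQ := LQ_nonneg (2 * P) (c₁ := c / 8) (show 0 ≤ C₅ * Q by positivity)
  have hgR := gr_nonneg (2 * P) hR
  have hA₁0 : 0 ≤ A₁ := by rw [hA₁]; positivity
  have hA₂0 : 0 ≤ A₂ := by rw [hA₂]; positivity
  refine ⟨4 / (c / 8) * (A₁ + A₂ + Q₄ + c / 8 * R + 1), by positivity, ?_⟩
  intro h σ η p M N κ r T Nr q bs a b Tt hab hp hp' h1 hlen hrN hN ρ z y₀ hρ hz hz' hy₀ hσ hD2 D hD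
  have hpp : ∀ k, 0 < p k := fun k => by
    rcases lt_or_ge k M with h1 | h1
    · rw [hp k h1]; exact Real.exp_pos _
    · rw [hp' k h1]; exact Real.exp_pos _
  have S := sys_model16 (μ := μ) (s := s) (h := h) (η := η) (p := p) (M := M) (N := N) hpp
  have mono : ∀ {m' : ℕ}, m' ≤ max n₂ (max n₃ n₄) → Slabs μ s c θ K h P η κ r T Nr q bs a b Tt m' Q := fun hm =>
    ⟨h1.q0, h1.K3, hm.trans h1.Tt1, fun u g1 g2 => hm.trans (h1.T1 u g1 g2), h1.TT, h1.NT, h1.rr, h1.b1, h1.b2, h1.b3, h1.far, h1.cost, h1.force⟩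
  have hw : 1 ≤ wd μ s Tt := hn₄ Tt (((le_max_right _ _).trans (le_max_right _ _)).trans h1.Tt1)
  have hw0 : 0 < wd μ s Tt := by linarith
  have hE := EE_pos (μ := μ) (s := s) Tt
  have hrab : r a ≤ r b := by
    have h3 := r_mono h1.rr (b - a) a le_rfl (by omega)
    rwa [show a + (b - a) = b from by omega] at h3
  have key := nsA94 S (a := r a) (r := r b) hrab hrN (z := z) (y₀ := y₀) (l := lt μ s κ r b) (lz := lt μ s κ r a z) (E := EE μ s Tt)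
    (w := wd μ s Tt) (c' := c / 8) (σ := σ) (Q₁ := A₁) (Q₂ := A₂) (Q₄ := Q₄) (R := R) (D := D) hE hw0 (by positivity) (by linarith) hz
    (fun y _ _ => by
      have g1 := H2 hab.le hp hp' (mono (le_max_left _ _)) z y
      refine g1.trans (Real.exp_le_exp.2 ?_)
      rw [← lt_sub κ r a b z y hrab]
      have g2 : gr (2 * P) (|lt μ s κ r a z| / wd μ s Tt) ≤ gr (2 * P) R := gr_mono _ (by positivity) (by rwa [div_le_iff₀ hw0])
      have g3 := mul_le_mul_of_nonneg_right (mul_le_mul_of_nonneg_left g2 hLQ) hE.le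
      have e1 : hc μ s c Tt / 8 * |lt μ s κ r b y - lt μ s κ r a z| =
          c / 8 * (|lt μ s κ r b y - lt μ s κ r a z| / wd μ s Tt) * EE μ s Tt := by
        unfold hc
        field_simp
      rw [e1, hA₂]
      linarith)
    (by
      have g1 := H3 hab hp hp' (mono ((le_max_left _ _).trans (le_max_right _ _))) hlen ρ z y₀ hz' hy₀
      refine le_trans (Real.exp_le_exp.2 ?_) g1
      have g2 : gr (2 * P) (|ρ| / wd μ s Tt + K) ≤ gr (2 * P) (R + K) := by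
        have g3 : |ρ| / wd μ s Tt ≤ R := by rwa [div_le_iff₀ hw0]
        exact gr_mono _ (by positivity) (by linarith)
      have g3 := mul_le_mul_of_nonneg_right (mul_le_mul_of_nonneg_left g2 (show 0 ≤ C₆ * Q by positivity)) hE.le
      rw [hA₁]
      linarith)
    hD2 hN hD
  refine key.trans (le_of_eq ?_)
  congr 2
  ring

end

end Pool.Agent.W_7d29a1_C1.NS94
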