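import Pool.Agent.W_7d29a1_C1.NsG94
import Pool.Agent.W_7d29a1_C1.DDJ84

/-!
MP_7d29a1_pr, attractor route [C1], field `nu`: THE CLAUSE NS FROM ONE CHAIN OF SLABS AND ONE TOP ROW. (helper6)

* `nsG6`: the far mass of a row, the whole compared with a number `b`; `midB6`: one row above;
* **`ns_slab6`**: NS from one chain of slabs around the contact, lower levels to ONE place of the top row of the chain, and the growth of the
  future at this top row only. The coarse rows are anywhere below the top row: no level into them is needed.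
-/

set_option autoImplicit false

namespace Pool.Agent.W_7d29a1_C1.Ns6

open MeasureTheory ProbabilityTheory Filter Topology Finset
open Pool.Agent.W_7d29a1_F Pool.Agent.W_7d29a1_h4g Pool.Agent.W_7d29a1_H Pool.Agent.W_7d29a1_HS
open Pool.Agent.W_7d29a1_C1.K91 (wt wt_pos)
open Pool.Agent.W_7d29a1_C1.K91P (bw bw_pos)
open Pool.Agent.W_7d29a1_C1.H60
open Pool.Agent.W_7d29a1_C1.G37 (Gm)
open Pool.Agent.W_7d29a1_C1.H75 (hc)
open Pool.Agent.W_7d29a1_C1.FarK89 Pool.Agent.W_7d29a1_C1.FarW89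
open Pool.Agent.W_7d29a1_C1.U16
open Pool.Agent.W_7d29a1_C1.DD84 (gr_lin)
open Pool.Agent.W_7d29a1_C1.SD53 (bx)
open Pool.Agent.W_7d29a1_C1.O22 (Ste)
open Pool.Agent.W_7d29a1_C1.FA25 (Av rr lr)
open Pool.Agent.W_7d29a1_C1.NS94 (NS fr_nonneg ste_nk num_NS w_pow94)

noncomputable section

section Sys

variable {K : ℕ → ℕ → ℤ → ℤ → ℝ} {B : ℕ → ℤ → ℝ} {N : ℕ}

/-- **THE FAR MASS OF A ROW**, the whole compared with a number `b`. -/
theorem nsG6 (S : Sys16 K B N) {a r : ℕ} (hr : r ≤ N) {z : ℤ}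
    {l : ℤ → ℝ} {lz E w c' σ Q₁ Q₂ Q₄ R D b : ℝ} (hb : 0 ≤ b) (hE : 0 < E) (hw : 0 < w) (hc : 0 < c') (hσ : σ ≤ c' / 2)
    (hlz : |lz| ≤ R * w) (hup : ∀ y, z ≤ y → y ≤ z + ((r - a : ℕ) : ℤ) → K a r z y ≤ Real.exp (Q₂ * E - c' * (|l y - lz| / w) * E))
    (hB : Real.exp (-(Q₁ * E)) * b ≤ B a z)
    (hD2 : ∀ y, B r y ≤ Real.exp ((Q₄ + σ * (|l y| / w)) * E) * b) (hN : (N : ℝ) + 1 ≤ Real.exp E)
    (hD : 4 / c' * (Q₁ + Q₂ + Q₄ + c' * R + 1) ≤ D) :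
    PM16 K B a r z (fun y => D * w ≤ |l y|) ≤ Real.exp (-(c' / 4 * D * E)) * B a z := by
  have hX : Q₁ + Q₂ + Q₄ + c' * R + 1 ≤ c' / 4 * D := by
    have h2 := mul_le_mul_of_nonneg_left hD (show 0 ≤ c' / 4 by positivity)
    have e : c' / 4 * (4 / c' * (Q₁ + Q₂ + Q₄ + c' * R + 1)) = Q₁ + Q₂ + Q₄ + c' * R + 1 := by field_simp
    linarith
  have h2 : ∀ y ∈ (Icc z (z + ((r - a : ℕ) : ℤ))).filter (fun y => D * w ≤ |l y|), K a r z y * B r y ≤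
      Real.exp ((Q₂ + Q₄ + c' * R) * E - c' / 2 * D * E) * b := by
    intro y hy
    obtain ⟨hy1, hy2⟩ := mem_filter.1 hy
    rw [mem_Icc] at hy1
    have g1 := mul_le_mul (hup y hy1.1 hy1.2) (hD2 y) (S.b0 r y hr).le (Real.exp_pos _).le
    refine g1.trans ?_
    rw [← mul_assoc, ← Real.exp_add]
    refine mul_le_mul_of_nonneg_right (Real.exp_le_exp.2 ?_) hb
    have g2 : |l y| / w - R ≤ |l y - lz| / w := by
      rw [div_sub' (hc := hw.ne'), div_le_div_iff_of_pos_right hw]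
      have g3 := abs_sub_abs_le_abs_sub (l y) lz
      linarith
    have g4 : D ≤ |l y| / w := by rwa [le_div_iff₀ hw]
    have g5 : c' * (|l y| / w - R) ≤ c' * (|l y - lz| / w) := mul_le_mul_of_nonneg_left g2 hc.le
    have g6 : σ * (|l y| / w) ≤ c' / 2 * (|l y| / w) := mul_le_mul_of_nonneg_right hσ (by positivity)
    have g7 : c' / 2 * D ≤ c' / 2 * (|l y| / w) := mul_le_mul_of_nonneg_left g4 (by positivity)
    have g8 : Q₂ - c' * (|l y - lz| / w) + (Q₄ + σ * (|l y| / w)) ≤ Q₂ + Q₄ + c' * R - c' / 2 * D := by linarith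
    have g9 := mul_le_mul_of_nonneg_right g8 hE.le
    linarith
  have hcard : ((((Icc z (z + ((r - a : ℕ) : ℤ))).filter (fun y => D * w ≤ |l y|)).card : ℕ) : ℝ) ≤ Real.exp E := by
    refine le_trans ?_ hN
    have g1 : ((Icc z (z + ((r - a : ℕ) : ℤ))).filter (fun y => D * w ≤ |l y|)).card ≤ N + 1 := by
      refine (card_le_card (filter_subset _ _)).trans ?_
      rw [Int.card_Icc]
      omega
    exact_mod_cast g1
  unfold PM16
  refine (sum_le_card_nsmul _ _ _ h2).trans ?_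
  rw [nsmul_eq_mul]
  calc _ ≤ Real.exp E * (Real.exp ((Q₂ + Q₄ + c' * R) * E - c' / 2 * D * E) * b) :=
        mul_le_mul_of_nonneg_right hcard (by positivity)
    _ = Real.exp (E + ((Q₂ + Q₄ + c' * R) * E - c' / 2 * D * E) + Q₁ * E) * (Real.exp (-(Q₁ * E)) * b) := by
        rw [← mul_assoc, ← mul_assoc, ← Real.exp_add, ← Real.exp_add]
        congr 2
        ring
    _ ≤ Real.exp (-(c' / 4 * D * E)) * B a z := by
        refine mul_le_mul (Real.exp_le_exp.2 ?_) hB (by positivity) (Real.exp_pos _).le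
        have g1 := mul_le_mul_of_nonneg_right hX hE.le
        linarith

/-- **ONE ROW ABOVE**: the growth at the row `f` gives the growth at one place of the row `r`. -/
theorem midB6 (S : Sys16 K B N) {r f : ℕ} (hrf : r ≤ f) (hf : f ≤ N) {y : ℤ} {l' : ℤ → ℝ} {ly E w c' σ U Q₄ b : ℝ} (hb : 0 ≤ b)
    (hE : 0 < E) (hw : 0 < w) (hσ0 : 0 ≤ σ) (hσ : σ ≤ c')
    (hup : ∀ z', K r f y z' ≤ Real.exp (U * E - c' * (|l' z' - ly| / w) * E))
    (hD2 : ∀ z', B f z' ≤ Real.exp ((Q₄ + σ * (|l' z'| / w)) * E) * b) (hN : (N : ℝ) + 1 ≤ Real.exp E) :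
    B r y ≤ Real.exp ((1 + U + Q₄ + σ * (|ly| / w)) * E) * b := by
  rw [S.step r f y hrf hf]
  have h2 : ∀ z' ∈ Icc y (y + ((f - r : ℕ) : ℤ)), K r f y z' * B f z' ≤ Real.exp ((U + Q₄ + σ * (|ly| / w)) * E) * b := by
    intro z' _
    have g1 := mul_le_mul (hup z') (hD2 z') (S.b0 f z' hf).le (Real.exp_pos _).le
    refine g1.trans ?_
    rw [← mul_assoc, ← Real.exp_add]
    refine mul_le_mul_of_nonneg_right (Real.exp_le_exp.2 ?_) hb
    have g2 : |l' z'| / w ≤ |l' z' - ly| / w + |ly| / w := by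
      rw [← add_div, div_le_div_iff_of_pos_right hw]
      have g3 := abs_sub_abs_le_abs_sub (l' z') ly
      linarith
    have g5 : σ * (|l' z'| / w) ≤ σ * (|l' z' - ly| / w) + σ * (|ly| / w) := by
      have := mul_le_mul_of_nonneg_left g2 hσ0
      linarith
    have g6 : σ * (|l' z' - ly| / w) ≤ c' * (|l' z' - ly| / w) := mul_le_mul_of_nonneg_right hσ (by positivity)
    have g8 : U - c' * (|l' z' - ly| / w) + (Q₄ + σ * (|l' z'| / w)) ≤ U + Q₄ + σ * (|ly| / w) := by linarith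
    have g9 := mul_le_mul_of_nonneg_right g8 hE.le
    linarith
  have hcard : ((Icc y (y + ((f - r : ℕ) : ℤ))).card : ℝ) ≤ Real.exp E := by
    refine le_trans ?_ hN
    rw [Int.card_Icc]
    have : (y + ((f - r : ℕ) : ℤ) + 1 - y).toNat ≤ N + 1 := by omega
    exact_mod_cast this
  refine (sum_le_card_nsmul _ _ _ h2).trans ?_
  rw [nsmul_eq_mul]
  calc _ ≤ Real.exp E * (Real.exp ((U + Q₄ + σ * (|ly| / w)) * E) * b) := mul_le_mul_of_nonneg_right hcard (by positivity)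
    _ = Real.exp ((1 + U + Q₄ + σ * (|ly| / w)) * E) * b := by
        rw [← mul_assoc, ← Real.exp_add]
        congr 2
        ring

end Sys

variable {μ : Measure ℝ} {s : ℝ} [IsProbabilityMeasure μ] {c C : ℝ} {n₀ : ℕ}

/-- **NS FROM THE LEVELS AND ONE TOP ROW.** -/
theorem ns_slab6 (h0 : In μ s c C n₀) (P : ℕ) : ∃ n₁ : ℕ, 1 ≤ n₁ ∧ ∀ (Q R Q₁ Q₂ eta Lw : ℝ) (A : ℕ), 0 ≤ Q → 0 ≤ R → 0 ≤ Q₁ → 0 ≤ Q₂ →
    0 ≤ eta → 1 ≤ Lw → ∃ m00 : ℕ, ∀ {θ K : ℝ} {Γ : Cx} {G : Gm} {ω : Env} {o : Pt} {r T Nr : ℕ → ℕ} {q : ℕ → ℝ} {bs : ℕ → Pt}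
      {m₁ m₂ Tt : ℕ}, m₁ ≤ m₂ → Γ.s = s → G.v = sl μ s → Slabs μ s c θ K Γ.h P ω o r T Nr q bs m₁ m₂ Tt n₁ Q → r m₂ ≤ Γ.N →
      (Γ.N : ℝ) + 1 ≤ Real.exp (EE μ s Tt) →
      ∀ (t τ0 m0 : ℕ) (x : ℕ × ℤ) (th : ℕ → ℕ → ℝ) (σ : ℝ) (zt : ℤ), m00 ≤ m0 → τ0 < t → G.lam ≤ 2 ^ m0 → 0 ≤ σ → σ ≤ c / 32 →
      |((o.2 : ℝ) - G.v * (o.1 : ℝ)) - G.lat x| ≤ R * wd μ s Tt → G.w t ≤ wd μ s Tt → wd μ s Tt ≤ Lw * G.w t →
      (r m₁ : ℤ) ≤ (x.1 : ℤ) - 2 * (G.T (t - 1) : ℤ) →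
      (∀ k, t + m0 ≤ k → k ≤ G.M → th t k ≤ eta * ((k - t : ℕ) : ℝ) ^ A * EE μ s Tt) →
      (∀ e : ℕ, (e : ℤ) ∈ G.fr t τ0 x → e ≤ Γ.N → e ≤ r m₂) →
      |G.lat (r m₂, zt) - G.lat x| ≤ R * wd μ s Tt →
      (∀ (i : ℕ) (z : ℤ), (i, z) ∈ Av G t τ0 x → i < r m₂ → Real.exp (-(Q₁ * EE μ s Tt)) ≤ nk μ s Γ.h ω Γ.p Γ.M i (r m₂ - i) z zt) →
      (∀ v : ℤ, bh16 μ s Γ.h ω Γ.p Γ.M Γ.N (r m₂) v ≤ Real.exp ((Q₂ + σ * (|(v : ℝ) - zt| / wd μ s Tt)) * EE μ s Tt) *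
        bh16 μ s Γ.h ω Γ.p Γ.M Γ.N (r m₂) zt) →
      ω ∈ NS Γ G th m0 τ0 t x := by
  have hc0 := h0.c0
  obtain ⟨C₅, hC₅, m₀, hm₀, H⟩ := Sy78.env_all h0 P
  obtain ⟨m₃, hm₃⟩ := eventually_atTop.1 ((wd_tendsto h0).eventually_ge_atTop 1)
  refine ⟨max m₀ m₃, hm₀.trans (le_max_left _ _), fun Q R Q₁ Q₂ eta Lw A hQ hR hQ₁ hQ₂ heta hLw => ?_⟩
  obtain ⟨ΛQ, hΛQ⟩ : ∃ ΛQ : ℝ, ΛQ = LQ (2 * P) (c / 8) (C₅ * Q) := ⟨_, rfl⟩
  have hΛ : 0 ≤ ΛQ := by rw [hΛQ]; exact LQ_nonneg _ (by positivity)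
  obtain ⟨U, hU⟩ : ∃ U : ℝ, U = ΛQ * gr (2 * P) (1 + R) + Q := ⟨_, rfl⟩
  have hgR := gr_nonneg (2 * P) (show (0 : ℝ) ≤ 1 + R by linarith)
  have hU0 : 0 ≤ U := by rw [hU]; positivity
  obtain ⟨δ', hδ'⟩ : ∃ δ' : ℝ, δ' = c / 64 / (ΛQ + 1) := ⟨_, rfl⟩
  have hδ'0 : 0 < δ' := by rw [hδ']; positivity
  have hΛδ : ΛQ * δ' ≤ c / 64 := by
    rw [hδ', mul_div_assoc', div_le_iff₀ (by positivity)]
    have := mul_nonneg hΛ hc0.le
    linarith
  obtain ⟨Cδ, hCδ⟩ : ∃ Cδ : ℝ, Cδ = δ' + CP (2 * P) ^ 2 / δ' := ⟨_, rfl⟩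
  have hCP := CP_pos (2 * P)
  have hCδ0 : 0 ≤ Cδ := by rw [hCδ]; positivity
  obtain ⟨Q₄, hQ₄⟩ : ∃ Q₄ : ℝ, Q₄ = Q₂ + c / 32 * R := ⟨_, rfl⟩
  obtain ⟨Q₅, hQ₅⟩ : ∃ Q₅ : ℝ, Q₅ = 1 + (c / 64 * R + ΛQ * Cδ + Q) + Q₄ := ⟨_, rfl⟩
  have hQ₄0 : 0 ≤ Q₄ := by rw [hQ₄]; positivity
  have hQ₅0 : Q₄ ≤ Q₅ := by
    have : 0 ≤ c / 64 * R + ΛQ * Cδ + Q := by positivity
    rw [hQ₅]
    linarith
  obtain ⟨D₀, hD₀⟩ : ∃ D₀ : ℝ, D₀ = 4 / (c / 8) * (Q₁ + U + Q₅ + c / 8 * 1 + 1) := ⟨_, rfl⟩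
  have hD₀0 : 0 ≤ D₀ := by
    have : 0 ≤ Q₅ := hQ₄0.trans hQ₅0
    rw [hD₀]
    positivity
  obtain ⟨m00, hm00⟩ := num_NS A (a := c / 32 * (1 / Lw)) (b := 2 * eta) (X := c / 32 * D₀) (by positivity)
  refine ⟨m00, ?_⟩
  intro θ K Γ G ω o r T Nr q bs m₁ m₂ Tt hm hs hv S hrN hN t τ0 m0 x th σ zt hm0 hτ hlam hσ0 hσ ho hwt hwT hr1 hth hrow hzt hlow hD2
  have S' : Slabs μ s c θ K Γ.h P ω o r T Nr q bs m₁ m₂ Tt m₀ Q :=
    { S with
      Tt1 := (le_max_left _ _).trans S.Tt1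
      T1 := fun u hu hub => (le_max_left _ _).trans (S.T1 u hu hub) }
  have hw1 : 1 ≤ wd μ s Tt := hm₃ Tt ((le_max_right _ _).trans S.Tt1)
  have hw0 : 0 < wd μ s Tt := by linarith
  have hE0 : 0 < EE μ s Tt := EE_pos _
  have hp : ∀ k, k < Γ.M → Γ.p k = Real.exp (s + Γ.h) := fun k hk => by
    unfold Cx.p
    rw [if_pos hk, hs]
  have hp' : ∀ k, Γ.M ≤ k → Γ.p k = Real.exp s := fun k hk => by
    unfold Cx.p
    rw [if_neg (not_lt.2 hk), hs]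
  have Sy := sys_model16 (μ := μ) (s := s) (h := Γ.h) (η := ω) (p := Γ.p) (M := Γ.M) (N := Γ.N) Γ.p_pos
  obtain ⟨B, hBdef⟩ : ∃ B : ℝ, B = bh16 μ s Γ.h ω Γ.p Γ.M Γ.N (r m₂) zt := ⟨_, rfl⟩
  have hB0 : 0 < B := by rw [hBdef]; exact Sy.b0 _ _ hrN
  rw [← hBdef] at hD2
  -- the growth at the top row
  have hD2' : ∀ v : ℤ, bh16 μ s Γ.h ω Γ.p Γ.M Γ.N (r m₂) v ≤
      Real.exp ((Q₄ + σ * (|G.lat (r m₂, v) - G.lat x| / wd μ s Tt)) * EE μ s Tt) * B := by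
    intro v
    refine (hD2 v).trans (mul_le_mul_of_nonneg_right (Real.exp_le_exp.2 (mul_le_mul_of_nonneg_right ?_ hE0.le)) hB0.le)
    have g3 : |(v : ℝ) - zt| / wd μ s Tt ≤ |G.lat (r m₂, v) - G.lat x| / wd μ s Tt + R := by
      rw [div_add' (hc := hw0.ne'), div_le_div_iff_of_pos_right hw0]
      have g4 : (v : ℝ) - zt = (G.lat (r m₂, v) - G.lat x) - (G.lat (r m₂, zt) - G.lat x) := by
        unfold Gm.lat
        push_cast
        ring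
      rw [g4]
      exact (abs_sub _ _).trans (by linarith)
    have g4 := mul_le_mul_of_nonneg_left g3 hσ0
    have g5 : σ * R ≤ c / 32 * R := mul_le_mul_of_nonneg_right hσ hR
    rw [hQ₄]
    linarith
  intro k hk hkM rr' hr hrN'
  obtain ⟨e, he⟩ : ∃ e : ℕ, rr' = (e : ℤ) := ⟨rr'.toNat, (Int.toNat_of_nonneg (fr_nonneg hr)).symm⟩
  subst he
  rw [Int.toNat_natCast]
  have heN : e ≤ Γ.N := by exact_mod_cast hrN'
  have her := hrow e hr heN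
  intro i z hie hiz
  -- the distance
  obtain ⟨D, hD⟩ : ∃ D : ℝ, D = G.W k τ0 / wd μ s Tt := ⟨_, rfl⟩
  have hwt0 := G.w_pos t
  have hWk : G.w k ≤ G.W k τ0 := by
    unfold Gm.W
    have h1 : 2 ^ m0 * G.w τ0 ≤ G.w k := (w_pow94 τ0 m0).trans (G.w_mono (by omega))
    have h2 := mul_le_mul_of_nonneg_right hlam (G.w_pos τ0).le
    linarith
  have hDk : 1 / Lw * 2 ^ (k - t) ≤ D := by
    have h1 := w_pow94 (G := G) t (k - t)
    rw [show t + (k - t) = k by omega] at h1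
    rw [hD, le_div_iff₀ hw0]
    calc 1 / Lw * 2 ^ (k - t) * wd μ s Tt ≤ 1 / Lw * 2 ^ (k - t) * (Lw * G.w t) :=
          mul_le_mul_of_nonneg_left hwT (by positivity)
      _ = 2 ^ (k - t) * G.w t := by field_simp
      _ ≤ _ := h1.trans hWk
  have hnum := hm00 (k - t) (by omega)
  have hA0 : 0 ≤ 2 * eta * ((k - t : ℕ) : ℝ) ^ A := by positivity
  have hDc : 2 * eta * ((k - t : ℕ) : ℝ) ^ A + c / 32 * D₀ ≤ c / 32 * D := by
    refine hnum.trans ?_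
    rw [mul_assoc]
    exact mul_le_mul_of_nonneg_left hDk (by positivity)
  have hDD₀ : D₀ ≤ D := by
    have h1 : c / 32 * D₀ ≤ c / 32 * D := by linarith
    exact le_of_mul_le_mul_left h1 (by positivity)
  have hst : Real.exp (-(c / 8 / 4 * D * EE μ s Tt)) ≤ Real.exp (-(2 * th t k)) := by
    refine Real.exp_le_exp.2 ?_
    have h1 := hth k hk hkM
    have h2 : 2 * eta * ((k - t : ℕ) : ℝ) ^ A ≤ c / 32 * D := by
      have : 0 ≤ c / 32 * D₀ := by positivity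
      linarith
    have h3 := mul_le_mul_of_nonneg_right h2 hE0.le
    linarith
  have hiz0 := hiz
  obtain ⟨hi1, hi2⟩ := hiz
  have hi1' : |((i : ℕ) : ℤ) - x.1| ≤ rr G t τ0 := hi1
  have hi2' : |G.lat (i, z) - G.lat x| ≤ lr G t τ0 := hi2
  have hri : r m₁ ≤ i := by
    have h1 := (abs_le.1 hi1').1
    unfold rr at h1
    have h2 := G.T_pos' (τ0 + 1 - G.m2)
    omega
  have hlz : |G.lat (i, z) - G.lat x| ≤ 1 * wd μ s Tt := by
    refine hi2'.trans ?_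
    unfold lr
    have h1 := G.w_mono (show t - 1 ≤ t by omega)
    have h2 := mul_nonneg (FA25.la_nonneg (G := G)) (G.w_pos (τ0 + 1 - G.m2)).le
    linarith
  -- the two lines
  have hlat : ∀ (j : ℕ) (y : ℤ), |lat16 μ s o ((j : ℤ), y)| / wd μ s Tt ≤ |G.lat (j, y) - G.lat x| / wd μ s Tt + R := by
    intro j y
    rw [div_add' (hc := hw0.ne'), div_le_div_iff_of_pos_right hw0]
    have e4 : lat16 μ s o ((j : ℤ), y) = (G.lat (j, y) - G.lat x) - (((o.2 : ℝ) - G.v * (o.1 : ℝ)) - G.lat x) := by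
      unfold lat16 Gm.lat
      rw [hv]
      push_cast
      ring
    rw [e4]
    exact (abs_sub _ _).trans (by linarith)
  -- the envelope in the letters of the geometry
  have env : ∀ (i' j' : ℕ), r m₁ ≤ i' → i' < j' → j' ≤ r m₂ → ∀ y y' : ℤ, nk μ s Γ.h ω Γ.p Γ.M i' (j' - i') y y' ≤
      Real.exp ((ΛQ * gr (2 * P) (|lat16 μ s o ((i' : ℤ), y)| / wd μ s Tt) + Q) * EE μ s Tt -
        c / 8 * (|(G.lat (j', y') - G.lat x) - (G.lat (i', y) - G.lat x)| / wd μ s Tt) * EE μ s Tt) := by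
    intro i' j' h1 h2 h3 y y'
    have g1 := H hm hp hp' S' i' j' h1 h2 h3 y y'
    rw [← hΛQ] at g1
    refine g1.trans (le_of_eq (congrArg Real.exp ?_))
    have e3 : ((y' - y : ℤ) : ℝ) - sl μ s * ((j' - i' : ℕ) : ℝ) = (G.lat (j', y') - G.lat x) - (G.lat (i', y) - G.lat x) := by
      unfold Gm.lat
      rw [hv, Nat.cast_sub h2.le]
      push_cast
      ring
    rw [e3]
    unfold hc
    field_simp
  -- the growth at the coarse row
  have hmid : ∀ y : ℤ, bh16 μ s Γ.h ω Γ.p Γ.M Γ.N e y ≤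
      Real.exp ((Q₅ + c / 16 * (|G.lat (e, y) - G.lat x| / wd μ s Tt)) * EE μ s Tt) * B := by
    intro y
    have hly : 0 ≤ |G.lat (e, y) - G.lat x| / wd μ s Tt := by positivity
    rcases her.lt_or_eq with her1 | her1
    · have g2 := gr_lin (2 * P) hδ'0 (show 0 ≤ |lat16 μ s o ((e : ℤ), y)| / wd μ s Tt by positivity)
      rw [← hCδ] at g2
      have g3 : ΛQ * gr (2 * P) (|lat16 μ s o ((e : ℤ), y)| / wd μ s Tt) + Q ≤
          c / 64 * (|G.lat (e, y) - G.lat x| / wd μ s Tt) + (c / 64 * R + ΛQ * Cδ + Q) := by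
        have f1 := mul_le_mul_of_nonneg_left g2 hΛ
        have f2 := mul_le_mul_of_nonneg_left (hlat e y) hδ'0.le
        have f3 := mul_le_mul_of_nonneg_left f2 hΛ
        have f4 : ΛQ * (δ' * (|G.lat (e, y) - G.lat x| / wd μ s Tt + R)) ≤ c / 64 * (|G.lat (e, y) - G.lat x| / wd μ s Tt + R) := by
          rw [← mul_assoc]
          exact mul_le_mul_of_nonneg_right hΛδ (by positivity)
        have f5 : ΛQ * (δ' * (|lat16 μ s o ((e : ℤ), y)| / wd μ s Tt) + Cδ) = ΛQ * (δ' * (|lat16 μ s o ((e : ℤ), y)| / wd μ s Tt)) +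
            ΛQ * Cδ := by ring
        have f6 : c / 64 * (|G.lat (e, y) - G.lat x| / wd μ s Tt + R) = c / 64 * (|G.lat (e, y) - G.lat x| / wd μ s Tt) + c / 64 * R := by
          ring
        linarith
      have key := midB6 Sy (r := e) (f := r m₂) her1.le hrN (y := y) (l' := fun v => G.lat (r m₂, v) - G.lat x)
        (ly := G.lat (e, y) - G.lat x) (E := EE μ s Tt) (w := wd μ s Tt) (c' := c / 8) (σ := σ)
        (U := c / 64 * (|G.lat (e, y) - G.lat x| / wd μ s Tt) + (c / 64 * R + ΛQ * Cδ + Q)) (Q₄ := Q₄) (b := B) hB0.le hE0 hw0 hσ0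
        (by linarith) (fun z' => (env e (r m₂) (hri.trans hie.le) her1 le_rfl y z').trans (Real.exp_le_exp.2 (by
          have := mul_le_mul_of_nonneg_right g3 hE0.le
          linarith))) hD2' hN
      refine key.trans (mul_le_mul_of_nonneg_right (Real.exp_le_exp.2 (mul_le_mul_of_nonneg_right ?_ hE0.le)) hB0.le)
      have f7 : σ * (|G.lat (e, y) - G.lat x| / wd μ s Tt) ≤ c / 32 * (|G.lat (e, y) - G.lat x| / wd μ s Tt) :=
        mul_le_mul_of_nonneg_right hσ hly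
      have f8 : 0 ≤ c / 64 * (|G.lat (e, y) - G.lat x| / wd μ s Tt) := by positivity
      rw [hQ₅]
      linarith
    · subst her1
      refine (hD2' y).trans (mul_le_mul_of_nonneg_right (Real.exp_le_exp.2 (mul_le_mul_of_nonneg_right ?_ hE0.le)) hB0.le)
      have f7 : σ * (|G.lat (r m₂, y) - G.lat x| / wd μ s Tt) ≤ c / 16 * (|G.lat (r m₂, y) - G.lat x| / wd μ s Tt) :=
        mul_le_mul_of_nonneg_right (by linarith) hly
      linarith
  have key := nsG6 Sy (a := i) (r := e) heN (z := z) (l := fun y => G.lat (e, y) - G.lat x)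
    (lz := G.lat (i, z) - G.lat x) (E := EE μ s Tt) (w := wd μ s Tt) (c' := c / 8) (σ := c / 16) (Q₁ := Q₁) (Q₂ := U)
    (Q₄ := Q₅) (R := 1) (D := D) (b := B) hB0.le hE0 hw0 (by positivity) (by linarith) hlz
    (fun y _ _ => by
      refine (env i e hri hie her z y).trans (Real.exp_le_exp.2 ?_)
      have g3 : |lat16 μ s o ((i : ℤ), z)| / wd μ s Tt ≤ 1 + R := by
        refine (hlat i z).trans ?_
        have : |G.lat (i, z) - G.lat x| / wd μ s Tt ≤ 1 := by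
          rw [div_le_one hw0]
          linarith
        linarith
      have g5 := gr_mono (2 * P) (show 0 ≤ |lat16 μ s o ((i : ℤ), z)| / wd μ s Tt by positivity) g3
      have g6 := mul_le_mul_of_nonneg_right (add_le_add (mul_le_mul_of_nonneg_left g5 hΛ) (le_refl Q)) hE0.le
      rw [hU]
      linarith)
    (by
      have g1 := hlow i z hiz0 (lt_of_lt_of_le hie her)
      have g2 := one_le16 Sy (a := i) (e := r m₂) (hie.le.trans her) hrN z zt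
      rw [← hBdef] at g2
      exact (mul_le_mul_of_nonneg_right g1 hB0.le).trans g2)
    hmid hN (by rw [← hD₀]; exact hDD₀)
  have hkey2 : PM16 (fun a b x z => nk μ s Γ.h ω Γ.p Γ.M a (b - a) x z) (bh16 μ s Γ.h ω Γ.p Γ.M Γ.N) i e z
      (fun y => D * wd μ s Tt ≤ |G.lat (e, y) - G.lat x|) ≤ Real.exp (-(2 * th t k)) * bh16 μ s Γ.h ω Γ.p Γ.M Γ.N i z :=
    key.trans (mul_le_mul_of_nonneg_right hst (bh16_pos Γ.p_pos i z).le)
  refine ste_nk Γ.p_pos hie.le heN hkey2 (F := bx Γ (G.fs k τ0 x (e : ℤ))) fun y hy => ?_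
  have h3 : G.W k τ0 ≤ |((y : ℝ) - G.v * (((e : ℕ) : ℤ) : ℝ)) - G.lat x| := by
    classical
    unfold SD53.bx at hy
    rw [mem_filter] at hy
    exact hy.2
  show D * wd μ s Tt ≤ |G.lat (e, y) - G.lat x|
  rw [hD, div_mul_cancel₀ _ hw0.ne']
  have e7 : G.lat (e, y) = (y : ℝ) - G.v * (((e : ℕ) : ℤ) : ℝ) := by
    unfold Gm.lat
    push_cast
    ring
  rw [e7]
  exact h3

end

end Pool.Agent.W_7d29a1_C1.Ns6
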