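import Pool.Agent.W_7d29a1_C1.NsU63
import Pool.Agent.W_7d29a1_C1.NsS6
import Pool.Agent.W_7d29a1_C1.ShlL51

/-!
MP_7d29a1_pr, the attractor route [C1], FIELD nu: THE CLAUSE `NS` AT A SCALE WHICH IS NOT FELT, FROM (D2) AT THE UPPER EDGE. (helper63)

`gs_T63` : the geometry `k.G hW M` of the separation (base height `2 h₀`) has the scales `Tg h₀ k.K`. **`nsV63`** : everything of `ns_slab6`
(helper6) except (D2) of the row of the upper edge of the scale `u + 1` is discharged (`twF63`, `nsU63`).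
Order: `α₀, K₁ | θ | P, j₁, levels | n₁ | k, q₀, th, Q₂, C₀ | m00 | m, everything else`.
-/

set_option autoImplicit false

namespace Pool.Agent.W_7d29a1_C1.TwS63

open MeasureTheory ProbabilityTheory Finset Filter
open Pool.Agent.W_7d29a1_F Pool.Agent.W_7d29a1_h4g Pool.Agent.W_7d29a1_H Pool.Agent.W_7d29a1_HS
open Pool.Agent.W_7d29a1_C1.S71 Pool.Agent.W_7d29a1_C1.H40 Pool.Agent.W_7d29a1_C1.Dep6
open Pool.Agent.W_7d29a1_C1.H75 Pool.Agent.W_7d29a1_C1.U16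
open Pool.Agent.W_7d29a1_C1.FarK89 (gr gr_nonneg gr_one_le gr_mono)
open Pool.Agent.W_7d29a1_C1.FarW89 (nk Slabs)
open Pool.Agent.W_7d29a1_C1.TpF63 Pool.Agent.W_7d29a1_C1.PcS63
open Pool.Agent.W_7d29a1_C1.T10 (Gd GW pt Tg Hg Tg_zero Tg_pos Tg_Hg lat_tri lat_swap)
open Pool.Agent.W_7d29a1_C1.H60 (Cx)
open Pool.Agent.W_7d29a1_C1.G37 (Gm Wok)
open Pool.Agent.W_7d29a1_C1.H77 (Zt77 lc77 uc77)
open Pool.Agent.W_7d29a1_C1.TmR89 (la89 co89 Hl89)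
open Pool.Agent.W_7d29a1_C1.Nu51 (SC51)
open Pool.Agent.W_7d29a1_C1.NS94 (NS)
open Pool.Agent.W_7d29a1_C1.Ns6 (ns_slab6)

noncomputable section

variable {μ : Measure ℝ} {s c C : ℝ} {n₀ : ℕ}

/-- The scales of the separation are the scales of the grid. -/
theorem gs_T63 (k : SC51) {h₀ : ℕ} (hW : Wok μ s (2 * h₀) k.K) (M : ℕ) {u : ℕ} (hu : 1 ≤ u) : (k.G hW M).T u = Tg h₀ k.K u := by
  rw [Tg_pos hu]
  rfl

variable [IsProbabilityMeasure μ]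

/-- The thresholds of the separation in the unit `B T (u + 1)`. -/
theorem th_le63 (k : SC51) {R C₀ : ℝ} {B h₀ L : ℕ} {G : Gd} (g : GW μ s R B C₀ h₀ k.K L G) {u : ℕ} (hu : 1 ≤ u) (j : ℕ) :
    k.th μ s (2 * h₀) u j ≤ k.η * ((j - u : ℕ) : ℝ) ^ k.A * EE μ s (B * Tg h₀ k.K (u + 1)) := by
  have h1 : Tk (2 * h₀) k.K u ≤ B * Tg h₀ k.K (u + 1) := by
    have h2 : Tg h₀ k.K u = Tk (2 * h₀) k.K u := by
      rw [Tg_pos hu]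
      rfl
    rw [← h2]
    exact (g.Tmono (Nat.le_succ u)).trans (Nat.le_mul_of_pos_left _ (by have := g.B2; omega))
  exact mul_le_mul_of_nonneg_left (EE_mono h1) (mul_nonneg k.hη.le (pow_nonneg (Nat.cast_nonneg _) _))

/-- **THE CLAUSE `NS` AT A SCALE WHICH IS NOT FELT, FROM (D2) AT THE UPPER EDGE `u + 1`.** -/
theorem nsV63 (h0 : In μ s c C n₀) : ∃ (α₀ : ℝ) (K₁ : ℕ), 0 < α₀ ∧ α₀ ≤ 1 ∧ 2 ≤ K₁ ∧ ∀ {θ : ℝ}, 0 < θ → θ ≤ 1 / 2 →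
    ∃ (P j₁ nl : ℕ) (Al al gl : ℝ), 1 ≤ P ∧ 1 ≤ nl ∧ 0 < Al ∧ 0 < al ∧ 0 < gl ∧ gl ≤ 1 ∧
      (∀ (Hf : Cut (ℕ × ℤ) → Cut (ℕ × ℤ) → ℕ), (∀ x y, nl ≤ Hf x y) → ∀ col : Cut (ℕ × ℤ) → ℤ,
        LvF μ Al al gl fun x y q => lvS μ s c θ 16 P Hf col x y q ∩ tpS μ s c θ 16 α₀ P j₁ col x y q) ∧
      ∃ n₁ : ℕ, 1 ≤ n₁ ∧ ∀ (k : SC51) (q₀ th Q₂ C₀ : ℝ), 0 ≤ q₀ → 1 ≤ th → 0 ≤ Q₂ → 1 ≤ C₀ → ∃ m00 : ℕ, ∀ m : ℕ, m00 ≤ m →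
        ∀ {R : ℝ} {B h₀ L : ℕ} {G : Gd}, GW μ s R B C₀ h₀ k.K L G → K₁ ≤ k.K → 8 * B * θ ≤ 1 → th ≤ (k.K : ℝ) ^ α₀ → n₁ ≤ h₀ →
        ∀ {Af af gf Af' af' gf' : ℝ} {F F' : Cut (ℕ × ℤ) → Cut (ℕ × ℤ) → ℝ → Set Env} {E : Cut (ℕ × ℤ) → Cut (ℕ × ℤ) → Set Env}
          {D : ℕ}, LvF μ Af af gf F → LvF μ Af' af' gf' F' →
        (∀ a b q, F a b q ⊆ lvS μ s c θ 16 P (Hl89 B (Tg h₀ k.K)) (co89 μ s) a b q ∩ tpS μ s c θ 16 α₀ P j₁ (co89 μ s) a b q) →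
        ∀ {x : ℕ × ℤ} {u : ℕ} {η : Env} {Γ : Cx}, Γ.s = s → NFL (dLI6 F F' E q₀ th D) lb6 (Zt77 G (Tg h₀ k.K) L x) u η →
        k.τ₀ < u → u + 1 ≤ L → u + 1 < D → Tg h₀ k.K u ≤ x.1 → (G.z (u + 1) x).1 + Tg h₀ k.K (u + 1) ≤ Γ.N →
        |Γ.h| * wd μ s (B * Tg h₀ k.K (u + 1)) ≤ c / 8 * EE μ s (B * Tg h₀ k.K (u + 1)) →
        (Γ.N : ℝ) + 1 ≤ Real.exp (EE μ s (B * Tg h₀ k.K (u + 1))) → ∀ (hW : Wok μ s (2 * h₀) k.K) (M : ℕ),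
        (∀ zt : ℤ, |lat16 μ s (pt x) ((((G.z (u + 1) x).1 + Tg h₀ k.K (u + 1) : ℕ) : ℤ), zt)| ≤ 1 → ∀ v : ℤ,
          bh16 μ s Γ.h η Γ.p Γ.M Γ.N ((G.z (u + 1) x).1 + Tg h₀ k.K (u + 1)) v ≤
            Real.exp ((Q₂ + c / 32 * (|(v : ℝ) - zt| / wd μ s (B * Tg h₀ k.K (u + 1)))) * EE μ s (B * Tg h₀ k.K (u + 1))) *
              bh16 μ s Γ.h η Γ.p Γ.M Γ.N ((G.z (u + 1) x).1 + Tg h₀ k.K (u + 1)) zt) →
        η ∈ NS Γ ((k.up m).G hW M) ((k.up m).th μ s (2 * h₀)) (k.up m).m0 (k.up m).τ₀ u x := by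
  obtain ⟨α₀, K₁, hα₀, hα₁, hK₁, H⟩ := twF63 h0
  refine ⟨α₀, K₁, hα₀, hα₁, hK₁, fun {θ} hθ hθ2 => ?_⟩
  obtain ⟨P, j₁, nl, Al, al, gl, hP, hnl, h1, h2, h3, h4, hF, C₃, m₂, hC₃, hm₂, HT⟩ :=
    H (Kw := 16) (θ := θ) (A₀ := 2) (ε := α₀) (by norm_num) (by norm_num) hθ hθ2 hα₀ le_rfl
  refine ⟨P, j₁, nl, Al, al, gl, hP, hnl, h1, h2, h3, h4, hF, ?_⟩
  obtain ⟨n₁, hn₁, HN⟩ := ns_slab6 h0 P
  refine ⟨max n₁ m₂, hn₁.trans (le_max_left _ _), fun k q₀ th Q₂ C₀ hq hth hQ₂ hC₀ => ?_⟩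
  have hc0 := h0.c0
  obtain ⟨Q, hQ⟩ : ∃ Q : ℝ, Q = C₃ * (1 + q₀ * th) ^ 2 := ⟨_, rfl⟩
  have hQ0 : 0 ≤ Q := by rw [hQ]; positivity
  have hg2 : 0 ≤ gr (2 * P) 2 := gr_nonneg _ (by norm_num)
  obtain ⟨m00, hm00⟩ := HN Q 1 (Q * gr (2 * P) 2) Q₂ k.η (max 1 (C₀ * (2 * k.K))) k.A hQ0 zero_le_one (mul_nonneg hQ0 hg2) hQ₂ k.hη.le
    (le_max_left _ _)
  obtain ⟨m01, hm01⟩ := pow_unbounded_of_one_lt (k.kn + 2 * k.kb) (one_lt_two : (1 : ℝ) < 2)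
  refine ⟨max m00 m01, ?_⟩
  intro m hm R B h₀ L G g hK hBθ hthα hn Af af gf Af' af' gf' F F' E D hF hF' hsub x u η Γ hΓs hok hτ huL huD hx hN hh hNe hW M hD2
  obtain ⟨GS, hGS⟩ : ∃ GS : Gm, GS = (k.up m).G hW M := ⟨_, rfl⟩
  have e1 : GS.v = sl μ s := by rw [hGS]; rfl
  have e2 : ∀ u, 1 ≤ u → GS.T u = Tg h₀ k.K u := fun u hu => by rw [hGS]; exact gs_T63 (k.up m) hW M hu
  have e3 : ∀ u, GS.w u = wd μ s (GS.T u) := fun u => by rw [hGS]; rfl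
  have e4 : GS.Cw = 2 * k.K := by rw [hGS]; rfl
  have e5 : GS.lam = k.kn + 2 * k.kb := by rw [hGS]; rfl
  have hu : 1 ≤ u := by omega
  have hx' : 2 * (GS.T (u - 1) : ℤ) ≤ x.1 := by
    have t1 := GS.T_lt8 (show u - 1 < u by omega)
    have t2 : (GS.T u : ℤ) ≤ x.1 := by
      rw [e2 u hu]
      exact_mod_cast hx
    have t3 := GS.T_pos' (u - 1)
    linarith
  obtain ⟨r, Hh, Nr, q', bs, i₁, i₂, zt, h12, SL, hr2, hr1, hrow, hzt, LOW, w1, w2, w3⟩ := nsU63 (by linarith) hθ.le HT g hK hBθ e1 e2 e3 hF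
    hF' hsub hq hth hthα ((le_max_right _ _) : m₂ ≤ max n₁ m₂) hn hΓs hok hu huL huD hτ hx' hh
  rw [← hQ] at SL LOW
  have SL' : Slabs μ s c θ (16 - 2) Γ.h P η (pt x) r Hh Nr q' bs i₁ i₂ (B * Tg h₀ k.K (u + 1)) n₁ Q :=
    { SL with
      Tt1 := (le_max_left _ _).trans SL.Tt1
      T1 := fun i hi hib => (le_max_left _ _).trans (SL.T1 i hi hib) }
  have er : r i₂ = (G.z (u + 1) x).1 + Tg h₀ k.K (u + 1) := by exact_mod_cast hr2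
  have hlz : |lat16 μ s (pt x) ((((G.z (u + 1) x).1 + Tg h₀ k.K (u + 1) : ℕ) : ℤ), zt)| ≤ 1 := by
    rw [← er]
    have e6 : lat16 μ s (pt x) ((r i₂ : ℤ), zt) = GS.lat (r i₂, zt) - GS.lat x := Pool.Agent.W_7d29a1_C1.Ge74.lat_eq' e1 x (r i₂, zt)
    rw [e6]
    exact hzt
  have hD := hD2 zt hlz
  rw [← er] at hD
  have key := hm00 (G := GS) (Γ := Γ) (ω := η) (o := pt x) h12.le hΓs e1 SL' (by rw [er]; exact hN) hNe u k.τ₀ (k.m0 + m) x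
    ((k.up m).th μ s (2 * h₀)) (c / 32) zt (by have := (le_max_left m00 m01).trans hm; omega) hτ (by
      rw [e5]
      refine hm01.le.trans (pow_le_pow_right₀ one_le_two ?_)
      have := (le_max_right m00 m01).trans hm
      omega) (by positivity) le_rfl (by
      have e7 : (((pt x).2 : ℝ) - GS.v * ((pt x).1 : ℝ)) - GS.lat x = 0 := by
        unfold Gm.lat pt
        push_cast
        ring
      rw [e7, abs_zero]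
      linarith) w2 (by
      refine w3.trans ?_
      rw [e4]
      push_cast
      exact mul_le_mul_of_nonneg_right (le_max_right _ _) (GS.w_pos u).le) hr1 (fun j _ _ => th_le63 (k.up m) g hu j)
    (fun e he _ => hrow e he) (by linarith) LOW hD
  rw [hGS] at key
  exact key

end

end Pool.Agent.W_7d29a1_C1.TwS63
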