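import Pool.Agent.W_7d29a1_C1.RgS70
import Pool.Agent.W_7d29a1_C1.Tm31
import Pool.Agent.W_7d29a1_C1.TopC16

/-!
MP_7d29a1_pr, [C1], FIELD nu, THE CLAUSE NS: NUMBERS. (helper84)

`far84` : `X n ^ e₁ wd (B T (u + 1)) ≤ wd (T (m8 / 2))` for `16 u ≤ 7 m8`.
-/

set_option autoImplicit false

namespace Pool.Agent.W_7d29a1_C1.NsN84

open MeasureTheory ProbabilityTheory Filter Topology Finset
open Pool.Agent.W_7d29a1_F Pool.Agent.W_7d29a1_h4g Pool.Agent.W_7d29a1_H Pool.Agent.W_7d29a1_HS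
open Pool.Agent.W_7d29a1_C1.T10 (Gd pt Tg Hg GW)
open Pool.Agent.W_7d29a1_C1.H60 (Cx Adm)
open Pool.Agent.W_7d29a1_C1.H8 (h8 m8 GridN8 gridN8 S8)
open Pool.Agent.W_7d29a1_C1.TpZ70
open Pool.Agent.W_7d29a1_C1.U16 (bh16 CrY16 topC16)
open Pool.Agent.W_7d29a1_C1.Win84 (LB84 ev84)
open scoped ENNReal

noncomputable section

variable {μ : Measure ℝ} [IsProbabilityMeasure μ] {s c C : ℝ} {n₀ : ℕ}

/-- **THE WINDOW OF THE CRUDE BOUND IS FAR.** -/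
theorem far84 (h0 : In μ s c C n₀) {e : ℝ} (he : 0 < e) (he1 : e ≤ 1 / 32) {K : ℕ} (hK : 2 ≤ K) {B : ℕ} (hB : 1 ≤ B) :
    ∃ e₁ : ℝ, 0 < e₁ ∧ ∀ {e₀ : ℝ}, 0 < e₀ → e₀ ≤ e → ∀ {Q : ℕ}, 1 ≤ Q → ∀ X : ℝ, ∀ᶠ n : ℕ in atTop, ∀ u : ℕ, 16 * u ≤ 7 * m8 K e n →
      X * ((n : ℝ) ^ e₁ * wd μ s (B * Tg (h8 Q e₀ n) K (u + 1))) ≤ wd μ s (Tg (h8 Q e₀ n) K (m8 K e n / 2)) := by
  obtain ⟨a, k, ha, hk, n₁, hn₁, H⟩ := wd_ratio h0
  refine ⟨a * e / 256, by positivity, fun {e₀} he₀ hee {Q} hQ X => ?_⟩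
  have hKR : (2 : ℝ) ≤ K := by exact_mod_cast hK
  have hK0 : (0 : ℝ) < K := by linarith
  have hlK : 0 < Real.log K := Real.log_pos (by linarith)
  have hBR : (1 : ℝ) ≤ B := by exact_mod_cast hB
  have hB0 : (0 : ℝ) < B := by linarith
  have ev : ∀ {y : ℝ}, 0 < y → ∀ M : ℝ, ∀ᶠ n : ℕ in atTop, M ≤ (n : ℝ) ^ y := fun hy M =>
    ((tendsto_rpow_atTop hy).comp tendsto_natCast_atTop_atTop).eventually_ge_atTop M
  obtain ⟨k₁, hk₁⟩ : ∃ k₁ : ℝ, k₁ = (K : ℝ) ^ (-(3 / 2) : ℝ) / B := ⟨_, rfl⟩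
  have hk₁0 : 0 < k₁ := by rw [hk₁]; positivity
  filter_upwards [gridN8 (x := 0) he he1 he₀ hee hK hQ, ev (show (0 : ℝ) < e₀ / 4 by positivity) n₁,
    ev (show (0 : ℝ) < e / 128 by positivity) (1 / k₁), ev (show (0 : ℝ) < a * e / 256 by positivity) (X / (k * k₁ ^ a)),
    eventually_ge_atTop 1] with n g e1 e2 e3 hn1
  intro u hu
  have hnR : (1 : ℝ) ≤ n := by exact_mod_cast hn1
  have n0 : (0 : ℝ) < n := by linarith
  obtain ⟨M, hM⟩ : ∃ M : ℕ, M = m8 K e n := ⟨_, rfl⟩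
  obtain ⟨h, hh⟩ : ∃ h : ℕ, h = h8 Q e₀ n := ⟨_, rfl⟩
  have g1 := g.m1
  have g2 := g.h1
  rw [← hM] at g1 hu ⊢
  rw [← hh] at g2 ⊢
  have hhn : (n₁ : ℝ) ≤ h := e1.trans g2
  have hhn' : n₁ ≤ h := by exact_mod_cast hhn
  have hh0 : (0 : ℝ) < h := by
    have : (1 : ℝ) ≤ n₁ := by exact_mod_cast hn₁
    linarith
  -- the exponent
  have j1 : (M : ℝ) / 2 - 1 / 2 ≤ ((M / 2 : ℕ) : ℝ) := by
    have h1 : M ≤ 2 * (M / 2) + 1 := by omega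
    have h2 : (M : ℝ) ≤ 2 * ((M / 2 : ℕ) : ℝ) + 1 := by exact_mod_cast h1
    linarith
  have j2 : (u : ℝ) ≤ 7 * M / 16 := by
    have h1 : (16 : ℝ) * u ≤ 7 * M := by exact_mod_cast hu
    linarith
  have j3 : (M : ℝ) / 16 - 3 / 2 ≤ ((M / 2 : ℕ) : ℝ) - (u + 1) := by linarith
  have j4 : e / 128 * Real.log n ≤ Real.log K * (M / 16) := by
    have h1 := mul_le_mul_of_nonneg_left g1 hlK.le
    have h2 : Real.log K * (e / (8 * Real.log K) * Real.log n) = e / 8 * Real.log n := by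
      field_simp
    linarith
  have j5 : (K : ℝ) ^ (-(3 / 2) : ℝ) * (n : ℝ) ^ (e / 128) ≤ (K : ℝ) ^ (((M / 2 : ℕ) : ℝ) - (u + 1)) := by
    calc (K : ℝ) ^ (-(3 / 2) : ℝ) * (n : ℝ) ^ (e / 128) ≤ (K : ℝ) ^ (-(3 / 2) : ℝ) * (K : ℝ) ^ ((M : ℝ) / 16) := by
          refine mul_le_mul_of_nonneg_left ?_ (by positivity)
          rw [Real.rpow_def_of_pos n0, Real.rpow_def_of_pos hK0]
          exact Real.exp_le_exp.2 (by linarith)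
      _ = (K : ℝ) ^ ((M : ℝ) / 16 - 3 / 2) := by
          rw [← Real.rpow_add hK0]
          congr 1
          ring
      _ ≤ _ := Real.rpow_le_rpow_of_exponent_le (by linarith) j3
  have j6 : 1 ≤ k₁ * (n : ℝ) ^ (e / 128) := by
    rw [div_le_iff₀ hk₁0] at e2
    linarith
  have j7 : (B : ℝ) ≤ (K : ℝ) ^ (((M / 2 : ℕ) : ℝ) - (u + 1)) := by
    have h1 := mul_le_mul_of_nonneg_left (j6.trans_eq (show k₁ * (n : ℝ) ^ (e / 128) =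
      (K : ℝ) ^ (-(3 / 2) : ℝ) * (n : ℝ) ^ (e / 128) / B by rw [hk₁]; ring)) hB0.le
    rw [mul_one, mul_div_cancel₀ _ hB0.ne'] at h1
    exact h1.trans j5
  -- the heights
  have hu1 : u + 1 ≤ M / 2 := by
    by_contra hc
    have h1 : ((M / 2 : ℕ) : ℝ) - (u + 1) < 0 := by
      have h2 : M / 2 < u + 1 := by omega
      have h3 : ((M / 2 : ℕ) : ℝ) < ((u + 1 : ℕ) : ℝ) := by exact_mod_cast h2
      push_cast at h3
      linarith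
    have h2 := Real.rpow_lt_one_of_one_lt_of_neg (show (1 : ℝ) < K by linarith) h1
    linarith
  obtain ⟨j, hj⟩ : ∃ j : ℕ, M / 2 = u + 1 + j := ⟨M / 2 - (u + 1), by omega⟩
  have e4 : ((M / 2 : ℕ) : ℝ) - (u + 1) = (j : ℝ) := by
    rw [hj]
    push_cast
    ring
  rw [e4, Real.rpow_natCast] at j5 j7
  have j7' : B ≤ K ^ j := by exact_mod_cast j7
  have e5 : Tg h K (M / 2) = Tg h K (u + 1) * K ^ j := by
    rw [hj]
    exact T10.Tg_lt (by omega) j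
  have hTh : h ≤ Tg h K (u + 1) := by
    rw [T10.Tg_pos (by omega), mul_comm 2 h, mul_assoc]
    exact Nat.le_mul_of_pos_right _ (Nat.mul_pos two_pos (Nat.pow_pos (by omega)))
  have hTB : Tg h K (u + 1) ≤ B * Tg h K (u + 1) := Nat.le_mul_of_pos_left _ (by omega)
  have hle : B * Tg h K (u + 1) ≤ Tg h K (M / 2) := by
    rw [e5, mul_comm]
    exact Nat.mul_le_mul_left _ j7'
  have hT0 : (0 : ℝ) < Tg h K (u + 1) := by
    have : (h : ℝ) ≤ Tg h K (u + 1) := by exact_mod_cast hTh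
    linarith
  have key := H (B * Tg h K (u + 1)) (Tg h K (M / 2)) ((hhn'.trans hTh).trans hTB) hle
  have hw := h0.wd_pos (μ := μ) (s := s) (hn₁.trans ((hhn'.trans hTh).trans hTB))
  refine le_trans ?_ key
  rw [← mul_assoc]
  refine mul_le_mul_of_nonneg_right ?_ hw.le
  have e6 : ((Tg h K (M / 2) : ℕ) : ℝ) / ((B * Tg h K (u + 1) : ℕ) : ℝ) = (K : ℝ) ^ j / B := by
    rw [e5]
    push_cast
    field_simp
  rw [e6]
  have e7 : k₁ * (n : ℝ) ^ (e / 128) ≤ (K : ℝ) ^ j / B := by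
    rw [hk₁, div_mul_eq_mul_div]
    exact div_le_div_of_nonneg_right j5 hB0.le
  have e8 := Real.rpow_le_rpow (by positivity) e7 ha.le
  rw [Real.mul_rpow hk₁0.le (by positivity), ← Real.rpow_mul n0.le] at e8
  have e9 : (n : ℝ) ^ (e / 128 * a) = (n : ℝ) ^ (a * e / 256) * (n : ℝ) ^ (a * e / 256) := by
    rw [← Real.rpow_add n0]
    congr 1
    ring
  rw [e9] at e8
  have e10 := mul_le_mul_of_nonneg_left e8 hk.le
  refine le_trans ?_ e10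
  rw [div_le_iff₀ (by positivity)] at e3
  have hp : 0 ≤ (n : ℝ) ^ (a * e / 256) := by positivity
  have e11 := mul_le_mul_of_nonneg_right e3 hp
  linarith [show (n : ℝ) ^ (a * e / 256) * (k * k₁ ^ a) * (n : ℝ) ^ (a * e / 256) =
    k * (k₁ ^ a * ((n : ℝ) ^ (a * e / 256) * (n : ℝ) ^ (a * e / 256))) by ring]

/-- A small probability. -/
theorem exp_le84 {c' : ℝ} (hc' : 0 < c') : ∀ᶠ n : ℕ in atTop, Real.exp (-(n : ℝ) ^ c') ≤ (n : ℝ) ^ (-(3 : ℝ)) := by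
  have h1 := (isLittleO_log_rpow_atTop hc').bound (show (0 : ℝ) < 1 / 3 by norm_num)
  filter_upwards [tendsto_natCast_atTop_atTop (R := ℝ) |>.eventually h1, eventually_ge_atTop 1] with n h3 hn
  have h4 : (1 : ℝ) ≤ n := by exact_mod_cast hn
  have h5 : (0 : ℝ) < n := by linarith only [h4]
  rw [Real.norm_of_nonneg (Real.log_nonneg h4), Real.norm_of_nonneg (Real.rpow_nonneg h5.le _)] at h3
  rw [Real.rpow_def_of_pos h5 (-(3 : ℝ)), Real.exp_le_exp]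
  linarith only [h3]

/-- **THE CRUDE (D2) OF A CONTEXT**, in the units `B T u`, off one rare event. -/
theorem bad84 (h0 : In μ s c C n₀) (hL : LB84 μ s) (HY : CrY16 μ s) {e e₀ : ℝ} (he : 0 < e) (he1 : e ≤ 1 / 32) (he₀ : 0 < e₀)
    (hee : e₀ ≤ e) {e₁ : ℝ} (he₁ : 0 < e₁) : ∃ κ₀ : ℝ, 0 < κ₀ ∧ ∀ {K B Q : ℕ}, 2 ≤ K → 1 ≤ B → 1 ≤ Q → ∀ (x : ℕ) {σ K₁ : ℝ}, 0 < σ → σ ≤ 1 →
      1 ≤ K₁ → ∀ᶠ n : ℕ in atTop, ∀ {c₂ δ κ : ℝ} {Γ : Cx}, c₂ ≤ 1 → 0 ≤ δ → κ ≤ κ₀ → Adm μ s c₂ δ κ n Γ →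
      ∃ bad : Set Env, law μ bad ≤ ENNReal.ofReal ((n : ℝ) ^ (-(3 : ℝ))) ∧ ∀ η ∉ bad, ∀ u, 1 ≤ u → u ≤ m8 K e n + x →
        ∀ a : ℕ, a + 1 ≤ Γ.N → ∀ {x₀ : ℝ} {y y' : ℤ}, |y'| ≤ 4 * Γ.N → |(y' : ℝ) - x₀| ≤ K₁ * wd μ s (B * Tg (h8 Q e₀ n) K u) →
          bh16 μ s Γ.h η Γ.p Γ.M Γ.N a y ≤ Real.exp (((n : ℝ) ^ e₁ + σ * (|(y : ℝ) - x₀| / wd μ s (B * Tg (h8 Q e₀ n) K u))) *
            EE μ s (B * Tg (h8 Q e₀ n) K u)) * bh16 μ s Γ.h η Γ.p Γ.M Γ.N a y' := by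
  obtain ⟨κ₀, c', hκ₀, hc', H⟩ := topC16 h0 hL HY (e₀ := e₀ / 4) (by positivity) he₁
  refine ⟨κ₀, hκ₀, fun {K B Q} hK hB hQ x σ K₁ hσ hσ1 hK₁ => ?_⟩
  obtain ⟨n₁, hn₁, H⟩ := H σ K₁ hσ hσ1 hK₁
  obtain ⟨n₂, H2⟩ := adm70 h0 hL (B / 4)
  obtain ⟨n₃, H3⟩ := eventually_atTop.1 (ev84 (B / 4 : ℝ) (show (0 : ℝ) < 1 / 4 - 1 / 32 by norm_num))
  filter_upwards [gridN8 (x := x) he he1 he₀ hee hK hQ, eventually_ge_atTop n₁, eventually_ge_atTop n₂, eventually_ge_atTop n₃,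
    eventually_ge_atTop 1, exp_le84 hc'] with n g a1 a2 a3 hn1 ha
  intro c₂ δ κ Γ hc₂ hδ hκ hA
  obtain ⟨bad, hb, H⟩ := H a1 hc₂ hκ hA
  have hnR : (1 : ℝ) ≤ n := by exact_mod_cast hn1
  have n0 : (0 : ℝ) < n := by linarith
  refine ⟨bad, ?_, fun η hη u hu1 hu a haN x₀ y y' hy' hyy => ?_⟩
  · rw [← ofReal_measureReal]
    exact ENNReal.ofReal_le_ofReal (hb.trans ha)
  have hTu : ((B * Tg (h8 Q e₀ n) K u : ℕ) : ℝ) ≤ B / 4 * (n : ℝ) ^ (1 / 32 : ℝ) := by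
    have b1 : Tg (h8 Q e₀ n) K u ≤ Tg (h8 Q e₀ n) K (m8 K e n + x) := T10.Tg_mono (by omega) hu
    have b2 : (Tg (h8 Q e₀ n) K u : ℝ) ≤ Tg (h8 Q e₀ n) K (m8 K e n + x) := by exact_mod_cast b1
    have b3 := g.TL
    have b4 : (n : ℝ) ^ e ≤ (n : ℝ) ^ (1 / 32 : ℝ) := Real.rpow_le_rpow_of_exponent_le hnR he1
    have b5 : (Tg (h8 Q e₀ n) K u : ℝ) ≤ (n : ℝ) ^ (1 / 32 : ℝ) / 4 := by linarith
    push_cast
    have b6 := mul_le_mul_of_nonneg_left b5 (show (0 : ℝ) ≤ B by positivity)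
    linarith
  have hTlo : (n : ℝ) ^ (e₀ / 4) ≤ ((B * Tg (h8 Q e₀ n) K u : ℕ) : ℝ) := by
    have b1 : h8 Q e₀ n ≤ Tg (h8 Q e₀ n) K u := by
      rw [T10.Tg_pos hu1, mul_comm 2 _, mul_assoc]
      exact Nat.le_mul_of_pos_right _ (Nat.mul_pos two_pos (Nat.pow_pos (by omega)))
    have b2 : h8 Q e₀ n ≤ B * Tg (h8 Q e₀ n) K u := b1.trans (Nat.le_mul_of_pos_left _ (by omega))
    exact g.h1.trans (by exact_mod_cast b2)
  have hThi : ((B * Tg (h8 Q e₀ n) K u : ℕ) : ℝ) ≤ (n : ℝ) ^ (1 / 4 : ℝ) := by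
    have b1 := H3 n a3
    refine hTu.trans ?_
    calc (B : ℝ) / 4 * (n : ℝ) ^ (1 / 32 : ℝ) ≤ (n : ℝ) ^ (1 / 4 - 1 / 32 : ℝ) * (n : ℝ) ^ (1 / 32 : ℝ) :=
          mul_le_mul_of_nonneg_right b1 (by positivity)
      _ = _ := by
        rw [← Real.rpow_add n0]
        norm_num
  have hsw : B * Tg (h8 Q e₀ n) K u ≤ Γ.M - a ∨ |Γ.h| * ((Γ.M - a : ℕ) : ℝ) ≤ 1 := by
    rcases le_or_gt (B * Tg (h8 Q e₀ n) K u) (Γ.M - a) with h1 | h1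
    · exact Or.inl h1
    · right
      have h2 := (H2 a2 hδ hA (B * Tg (h8 Q e₀ n) K u) hTu).1
      have h3 : ((Γ.M - a : ℕ) : ℝ) ≤ ((B * Tg (h8 Q e₀ n) K u : ℕ) : ℝ) := by exact_mod_cast h1.le
      exact (mul_le_mul_of_nonneg_left h3 (abs_nonneg _)).trans h2
  exact H η hη le_rfl (fun k hk => by
      unfold Cx.p
      rw [if_pos hk, hA.hs]) (fun k hk => by
      unfold Cx.p
      rw [if_neg (not_lt.2 hk), hA.hs]) haN hsw hTlo hThi hy' hyy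

/-- **(D2) OF THE TOP ROW FOR ALL THE PLACES**: local regularity within the window, the crude bound beyond. -/
theorem d2top84 (h0 : In μ s c C n₀) {A Φ σ C₀ X₁ : ℝ} {κ : Pt} {T : ℕ → ℕ} {Mt row b B : ℕ} {F : ℤ → ℝ} {zt : ℤ} (hA : 0 ≤ A)
    (hσ : 0 ≤ σ) (hσC : σ * C₀ ≤ c / 32) (hF : ∀ y, 0 ≤ F y)
    (hLr : D31.Lr31 μ s κ T Mt 2 A Φ σ F row b) (hb : b ≤ Mt) (hTB : 1 ≤ B) (hw1 : 1 ≤ wd μ s (T b)) (hwM : 1 ≤ wd μ s (T Mt))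
    (hwB : wd μ s (B * T b) ≤ C₀ * wd μ s (T b)) (hwB0 : 0 < wd μ s (B * T b))
    (hzt : |U16.lat16 μ s κ ((row : ℤ), zt)| ≤ 1)
    (hcr : ∀ v : ℤ, F v ≤ Real.exp ((X₁ + c / 64 * (|(v : ℝ) - zt| / wd μ s (B * T b))) * EE μ s (B * T b)) * F zt)
    (hX : 64 / c * (X₁ * wd μ s (B * T b)) ≤ wd μ s (T Mt)) (v : ℤ) :
    F v ≤ Real.exp ((A + c / 32 * (|(v : ℝ) - zt| / wd μ s (B * T b))) * EE μ s (B * T b)) * F zt := by
  have hc0 := h0.c0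
  have hE0 : 0 ≤ EE μ s (B * T b) := (EE_pos _).le
  have elat : U16.lat16 μ s κ ((row : ℤ), v) - U16.lat16 μ s κ ((row : ℤ), zt) = (v : ℝ) - zt := by
    unfold U16.lat16
    push_cast
    ring
  rcases le_or_gt |U16.lat16 μ s κ ((row : ℤ), v)| (2 * wd μ s (T Mt)) with h1 | h1
  · have h2 := hLr 0 (by omega) v zt (by rw [Nat.add_zero]; linarith) h1
    refine h2.trans (mul_le_mul_of_nonneg_right (Real.exp_le_exp.2 ?_) (hF zt))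
    have hE : EE μ s (T b) ≤ EE μ s (B * T b) := Pool.Agent.W_7d29a1_H.EE_mono (Nat.le_mul_of_pos_left _ (by omega))
    have hEb := (EE_pos (μ := μ) (s := s) (T b)).le
    have hw0 : 0 < wd μ s (T b) := by linarith
    rw [pow_zero, one_mul, add_mul]
    refine add_le_add (mul_le_mul_of_nonneg_left hE hA) ?_
    have h3 : σ * (EE μ s (T b) / wd μ s (T b)) ≤ c / 32 * (EE μ s (B * T b) / wd μ s (B * T b)) := by
      rw [mul_div_assoc', mul_div_assoc', div_le_div_iff₀ hw0 hwB0]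
      calc σ * EE μ s (T b) * wd μ s (B * T b) ≤ σ * EE μ s (B * T b) * (C₀ * wd μ s (T b)) :=
            mul_le_mul (mul_le_mul_of_nonneg_left hE hσ) hwB hwB0.le (mul_nonneg hσ hE0)
        _ = σ * C₀ * (EE μ s (B * T b) * wd μ s (T b)) := by ring
        _ ≤ c / 32 * (EE μ s (B * T b) * wd μ s (T b)) := mul_le_mul_of_nonneg_right hσC (mul_nonneg hE0 hw0.le)
        _ = _ := by ring
    refine (mul_le_mul_of_nonneg_right h3 (abs_nonneg _)).trans (le_of_eq ?_)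
    ring
  · refine (hcr v).trans (mul_le_mul_of_nonneg_right (Real.exp_le_exp.2 (mul_le_mul_of_nonneg_right ?_ hE0)) (hF zt))
    have h2 : wd μ s (T Mt) ≤ |(v : ℝ) - zt| := by
      rw [← elat]
      have := abs_sub_abs_le_abs_sub (U16.lat16 μ s κ ((row : ℤ), v)) (U16.lat16 μ s κ ((row : ℤ), zt))
      linarith
    have h3 : X₁ ≤ c / 64 * (|(v : ℝ) - zt| / wd μ s (B * T b)) := by
      rw [mul_div_assoc', le_div_iff₀ hwB0]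
      have h4 := mul_le_mul_of_nonneg_left (hX.trans h2) (show 0 ≤ c / 64 by positivity)
      calc X₁ * wd μ s (B * T b) = c / 64 * (64 / c * (X₁ * wd μ s (B * T b))) := by field_simp
        _ ≤ _ := h4
    linarith

/-- The number of the rows is paid by the unit. -/
theorem rows84 (h0 : In μ s c C n₀) (hL : LB84 μ s) {y : ℝ} (hy : 0 < y) : ∀ᶠ n : ℕ in atTop, ∀ {c₂ δ κ : ℝ} {Γ : Cx}, c₂ ≤ 1 →
    Adm μ s c₂ δ κ n Γ → ∀ t : ℕ, (n : ℝ) ^ y ≤ t → (Γ.N : ℝ) + 1 ≤ Real.exp (EE μ s t) := by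
  obtain ⟨n₁, H1⟩ := EE_lo70 h0 hL
  have h1 := (isLittleO_log_rpow_atTop (show (0 : ℝ) < y * (1 / 16) by positivity)).bound (show (0 : ℝ) < 1 / 8 by norm_num)
  filter_upwards [tendsto_natCast_atTop_atTop (R := ℝ) |>.eventually h1, eventually_ge_atTop 8, 
    (eventually_atTop.2 ⟨_, fun n hn => (eventually_atTop.1 (ev84 (n₁ : ℝ) hy)).choose_spec n hn⟩ : ∀ᶠ n : ℕ in atTop, (n₁ : ℝ) ≤ (n : ℝ) ^ y)]
    with n h3 hn h5
  intro c₂ δ κ Γ hc₂ hA t ht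
  have hnR : (8 : ℝ) ≤ n := by exact_mod_cast hn
  have n0 : (0 : ℝ) < n := by linarith
  have n1 : (1 : ℝ) ≤ n := by linarith
  rw [Real.norm_of_nonneg (Real.log_nonneg n1), Real.norm_of_nonneg (Real.rpow_nonneg n0.le _)] at h3
  obtain ⟨Na, L, hNa, hNan, hL3, hL2, hM, hΓN, -, -⟩ := hA.hor
  have h6 : (Na : ℝ) ≤ (n : ℝ) ^ (2 : ℝ) := hNan.trans (Real.rpow_le_rpow_of_exponent_le n1 (by linarith only [hc₂]))
  have h7 : (Γ.N : ℝ) + 1 ≤ 8 * (Na : ℝ) ^ 3 := by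
    have hN1 : 1 ≤ Na := by omega
    have h8 : Na ≤ Na ^ 3 := Nat.le_self_pow (by norm_num) Na
    have h9 : Γ.N + 1 ≤ 8 * Na ^ 3 := by omega
    exact_mod_cast h9
  have h8 : (Γ.N : ℝ) + 1 ≤ (n : ℝ) ^ (8 : ℝ) := by
    have h9 : (Na : ℝ) ^ 3 ≤ (n : ℝ) ^ (6 : ℝ) := by
      refine (pow_le_pow_left₀ (Nat.cast_nonneg _) h6 3).trans (le_of_eq ?_)
      rw [← Real.rpow_natCast, ← Real.rpow_mul n0.le]
      norm_num
    have h10 : (n : ℝ) ^ (8 : ℝ) = n * (n * (n : ℝ) ^ (6 : ℝ)) := by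
      rw [show (8 : ℝ) = 1 + (1 + 6) by norm_num, Real.rpow_add n0, Real.rpow_add n0, Real.rpow_one]
    have h11 : 0 ≤ (n : ℝ) ^ (6 : ℝ) := by positivity
    rw [h10]
    have h12 : (n : ℝ) ^ (6 : ℝ) ≤ n * (n : ℝ) ^ (6 : ℝ) := le_mul_of_one_le_left h11 n1
    have h13 : 8 * (n * (n : ℝ) ^ (6 : ℝ)) ≤ n * (n * (n : ℝ) ^ (6 : ℝ)) := mul_le_mul_of_nonneg_right hnR (by positivity)
    linarith
  have h9 : 8 * Real.log n ≤ EE μ s t := by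
    have ht1 : n₁ ≤ t := by
      have : (n₁ : ℝ) ≤ t := h5.trans ht
      exact_mod_cast this
    have h10 := H1 t ht1
    have h11 : (n : ℝ) ^ (y * (1 / 16)) ≤ (t : ℝ) ^ (1 / 16 : ℝ) := by
      rw [Real.rpow_mul n0.le]
      exact Real.rpow_le_rpow (by positivity) ht (by norm_num)
    linarith
  refine h8.trans ?_
  rw [Real.rpow_def_of_pos n0]
  exact Real.exp_le_exp.2 (by linarith)

/-- **THE FORCE** at the height `B T u`, with the number `c / 8`. -/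
theorem force84 (h0 : In μ s c C n₀) (hL : LB84 μ s) (A : ℝ) (hA : 0 ≤ A) : ∀ᶠ n : ℕ in atTop, ∀ {c₂ δ κ : ℝ} {Γ : Cx}, 0 ≤ δ →
    Adm μ s c₂ δ κ n Γ → ∀ m : ℕ, (m : ℝ) ≤ A * (n : ℝ) ^ (1 / 32 : ℝ) → |Γ.h| * wd μ s m ≤ c / 8 * EE μ s m := by
  obtain ⟨W, hW, H2⟩ := wd_lin70 h0
  have hc0 := h0.c0
  obtain ⟨X, hX⟩ := exists_nat_ge (max 1 (8 * W / c))
  have hX1 : (1 : ℝ) ≤ X := (le_max_left _ _).trans hX
  have hX0 : (0 : ℝ) < X := by linarith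
  have hX2 : W ≤ c / 8 * X := by
    have h1 : 8 * W / c ≤ X := (le_max_right _ _).trans hX
    rw [div_le_iff₀ hc0] at h1
    linarith
  obtain ⟨n₁, H⟩ := adm70 h0 hL (A * X)
  filter_upwards [eventually_ge_atTop n₁] with n hn
  intro c₂ δ κ Γ hδ hAd m hm
  have h1 := (H hn hδ hAd (X * m) (by
    push_cast
    have := mul_le_mul_of_nonneg_left hm hX0.le
    linarith)).1
  push_cast at h1
  have hE := one_le_EE (μ := μ) (s := s) m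
  calc |Γ.h| * wd μ s m ≤ |Γ.h| * (W * m) := mul_le_mul_of_nonneg_left (H2 m) (abs_nonneg _)
    _ ≤ |Γ.h| * (c / 8 * X * m) := mul_le_mul_of_nonneg_left (mul_le_mul_of_nonneg_right hX2 (Nat.cast_nonneg _)) (abs_nonneg _)
    _ = c / 8 * (|Γ.h| * (X * m)) := by ring
    _ ≤ c / 8 * EE μ s m := mul_le_mul_of_nonneg_left (h1.trans hE) (by positivity)

end

end Pool.Agent.W_7d29a1_C1.NsN84
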