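import Pool.Agent.W_7d29a1_C1.ShlC8
import Pool.Agent.W_7d29a1_C1.WinB84

/-!
MP_7d29a1_pr, attractor route [C1]: THE RANGE OF THE SITES `S8` and the numbers of an admissible context. (helper70)

`row_hi70`, `row_lo70` the rows of the sites, `col_w70` the columns of a site of positive weight, `Rg70` / `rg70` the rows of the tower of
boxes of a site, `adm70` : `|h| m ≤ 1` and `|h| wd m ≤ c / 4 EE m` for `m ≤ A n ^ (1 / 32)`, `size70` the sizes of the box of the crude top,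
`tl70` : the top radius is at least `n ^ (e / 8)`, `lv70` : `n ^ (e log 2 / (16 log K)) ≤ 4 ^ (L - M - 4)` for `L = m8 + x`, `M = m8 / 2`.
-/

set_option autoImplicit false

namespace Pool.Agent.W_7d29a1_C1.TpZ70

open MeasureTheory ProbabilityTheory Filter Topology Finset
open Pool.Agent.W_7d29a1_F Pool.Agent.W_7d29a1_h4g Pool.Agent.W_7d29a1_H Pool.Agent.W_7d29a1_HS
open Pool.Agent.W_7d29a1_C1.T10 (Gd pt Tg Hg Tg_pos Tg_mono Hg_mono Hg_pos Tg_Hg GW)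
open Pool.Agent.W_7d29a1_C1.H8 (h8 m8 GridN8 gridN8 S8)
open Pool.Agent.W_7d29a1_C1.H60 (Cx Adm)
open Pool.Agent.W_7d29a1_C1.Win84 (LB84 ev84)

noncomputable section

section sites

variable {e : ℝ} {K n : ℕ} {G : Gd} {Γ : Cx} {c : ℕ × ℤ} {η : Env}

/-- The last row of a site. -/
theorem row_hi70 (hc : c ∈ S8 e K n G Γ) : c.1 + n ≤ Γ.N ∧ c.1 < Γ.N := by
  have h2 : c ∈ T98.Sc G (m8 K e n) (⌈(n : ℝ) ^ e⌉₊ / G.H (m8 K e n))
    ((Γ.N - n - T98.dT (G.H (m8 K e n)) ((n : ℝ) ^ e)) / G.H (m8 K e n)) Γ.N := hc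
  unfold T98.Sc at h2
  have h1 := (T98.mem_St.1 h2).1.2
  have h3 := Nat.mul_div_le (Γ.N - n - T98.dT (G.H (m8 K e n)) ((n : ℝ) ^ e)) (G.H (m8 K e n))
  omega

/-- The first row of a site. -/
theorem row_lo70 (hc : c ∈ S8 e K n G Γ) (hH : 0 < G.H (m8 K e n)) : ⌈(n : ℝ) ^ e⌉₊ < c.1 + G.H (m8 K e n) := by
  have h2 : c ∈ T98.Sc G (m8 K e n) (⌈(n : ℝ) ^ e⌉₊ / G.H (m8 K e n))
    ((Γ.N - n - T98.dT (G.H (m8 K e n)) ((n : ℝ) ^ e)) / G.H (m8 K e n)) Γ.N := hc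
  unfold T98.Sc at h2
  have h1 := (T98.mem_St.1 h2).1.1
  have h3 := T98.lt_dT hH ((n : ℝ) ^ e)
  unfold T98.dT at h3
  omega

/-- **The columns of a site of positive weight.** -/
theorem col_w70 (h : 0 < Γ.w c η) : 1 ≤ c.2 ∧ c.2 ≤ (c.1 : ℤ) + 1 := by
  by_contra hcon
  have h1 := T98.w_zero98 Γ (c := c) (by omega) η
  rw [h1] at h
  exact lt_irrefl _ h

/-- A site of positive weight is a contact. -/
theorem mem_rows70 (hc : c ∈ S8 e K n G Γ) (hw : 0 < Γ.w c η) : c ∈ Γ.rows 0 Γ.N := by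
  have h1 := row_hi70 hc
  have h2 := col_w70 hw
  unfold Cx.rows
  rw [mem_product, mem_Ico, mem_Icc]
  refine ⟨⟨Nat.zero_le _, h1.2⟩, h2.1, ?_⟩
  have h3 : (c.1 : ℤ) < Γ.N := by exact_mod_cast h1.2
  omega

/-- The rows of the tower of boxes of a site. -/
structure Rg70 (T : ℕ → ℕ) (L n : ℕ) (G : Gd) (Γ : Cx) (c : ℕ × ℤ) : Prop where
  lo : 3 * T L < (G.z L c).1
  le : ∀ v, (G.z v c).1 ≤ c.1
  lt : ∀ v, 1 ≤ v → v ≤ L → 2 * c.1 < 2 * (G.z v c).1 + T v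
  mono : ∀ v w, v ≤ w → w ≤ L → (G.z w c).1 ≤ (G.z v c).1
  hi : c.1 + n ≤ Γ.N
  TL : 4 * T L ≤ n

theorem rg70 {μ : Measure ℝ} {s R C₀ e₀ : ℝ} {B Q x : ℕ} (hG : GW μ s R B C₀ (h8 Q e₀ n) K (m8 K e n + x) G) (hN : GridN8 e e₀ K Q x n)
    (he1 : e ≤ 1) (hn : 1 ≤ n) (hc : c ∈ S8 e K n G Γ) : Rg70 (Tg (h8 Q e₀ n) K) (m8 K e n + x) n G Γ c := by
  obtain ⟨L, hL⟩ : ∃ L : ℕ, L = m8 K e n + x := ⟨_, rfl⟩
  have hL1 : 1 ≤ L := by
    have := hN.m0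
    omega
  have hK1 : 1 ≤ K := by
    have := hG.K2
    omega
  have hok := hG.ok
  have hTL := hN.TL
  rw [← hL] at hok hTL ⊢
  have hTH : ∀ v, 1 ≤ v → Tg (h8 Q e₀ n) K v = 2 * G.H v := fun v hv => by rw [Tg_Hg hv, hG.H v]
  have hHm : G.H (m8 K e n) ≤ G.H L := by
    rw [hG.H, hG.H]
    exact Hg_mono hK1 (by omega)
  have hm0 : 0 < G.H (m8 K e n) := hok.H0 _ (by omega)
  have h1 := row_lo70 hc hm0
  have h2 := hok.row_lt (k := L) le_rfl c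
  have h3 : 4 * Tg (h8 Q e₀ n) K L ≤ ⌈(n : ℝ) ^ e⌉₊ := by
    have h4 : ((4 * Tg (h8 Q e₀ n) K L : ℕ) : ℝ) ≤ ⌈(n : ℝ) ^ e⌉₊ := by
      push_cast
      exact hTL.trans (Nat.le_ceil _)
    exact_mod_cast h4
  have h5 := hTH L hL1
  refine ⟨by omega, fun v => Gd.row_le v c, fun v hv hvL => ?_, fun v w hvw hw => ?_, (row_hi70 hc).1, ?_⟩
  · have h6 := hok.row_lt hvL c
    have h7 := hTH v hv
    omega
  · show G.H w * (c.1 / G.H w) ≤ G.H v * (c.1 / G.H v)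
    obtain ⟨k, hk⟩ := hok.dvdH hvw hw
    have h6 : 0 < G.H v := hok.H0 v (hvw.trans hw)
    have h7 : k * (c.1 / G.H w) ≤ c.1 / G.H v := by
      rw [Nat.le_div_iff_mul_le h6]
      calc k * (c.1 / G.H w) * G.H v = G.H v * k * (c.1 / G.H w) := by ring
        _ = G.H w * (c.1 / G.H w) := by rw [← hk]
        _ ≤ c.1 := Nat.mul_div_le _ _
    calc G.H w * (c.1 / G.H w) = G.H v * (k * (c.1 / G.H w)) := by rw [← mul_assoc, ← hk]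
      _ ≤ _ := Nat.mul_le_mul_left _ h7
  · have h6 : ((4 * Tg (h8 Q e₀ n) K L : ℕ) : ℝ) ≤ n := by
      push_cast
      refine hTL.trans ?_
      calc (n : ℝ) ^ e ≤ (n : ℝ) ^ (1 : ℝ) := Real.rpow_le_rpow_of_exponent_le (by exact_mod_cast hn) he1
        _ = n := Real.rpow_one _
    exact_mod_cast h6

end sites

variable {μ : Measure ℝ} {s : ℝ} [IsProbabilityMeasure μ] {c C : ℝ} {n₀ : ℕ}

/-- The unit is at least `n ^ (1 / 16)`. -/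
theorem EE_lo70 (h : In μ s c C n₀) (hL : LB84 μ s) : ∃ n₁ : ℕ, ∀ n : ℕ, n₁ ≤ n → (n : ℝ) ^ (1 / 16 : ℝ) ≤ EE μ s n := by
  obtain ⟨n₁, H⟩ := hL (1 / 8) (by norm_num)
  obtain ⟨n₂, H2⟩ := Pool.Agent.W_7d29a1_HZ.wd'_eq h
  refine ⟨max n₁ (max n₂ 1), fun n hn => ?_⟩
  have h1 := H n ((le_max_left _ _).trans hn)
  have h2 := (H2 n ((le_max_left _ _).trans ((le_max_right _ _).trans hn))).2.2
  have hn1 : 1 ≤ n := (le_max_right _ _).trans ((le_max_right _ _).trans hn)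
  have hn0 : (0 : ℝ) < n := by exact_mod_cast hn1
  have hE := EE_pos (μ := μ) (s := s) n
  have h3 : (n : ℝ) ^ (1 / 8 : ℝ) * ((n : ℝ) ^ (1 / 16 : ℝ)) ^ 2 ≤ (n : ℝ) ^ (1 / 8 : ℝ) * EE μ s n ^ 2 := by
    refine le_trans (le_of_eq ?_) (h2.trans h1)
    rw [← Real.rpow_natCast, ← Real.rpow_mul hn0.le, ← Real.rpow_add hn0]
    norm_num
  have h4 := le_of_mul_le_mul_left h3 (by positivity)
  exact (pow_le_pow_iff_left₀ (by positivity) hE.le (by norm_num)).1 h4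

/-- The width is at most linear. -/
theorem wd_lin70 (h : In μ s c C n₀) : ∃ A : ℝ, 0 < A ∧ ∀ m : ℕ, wd μ s m ≤ A * m := by
  obtain ⟨a, K, ha, ha1, hK, hp⟩ := Pool.Agent.W_7d29a1_HZ.wd'_pow h
  have hw1 : 0 < Pool.Agent.W_7d29a1_HZ.wd' μ s 1 := by
    rw [Win84.wd'_eq' h le_rfl]
    exact h.wd_pos le_rfl
  refine ⟨K * Pool.Agent.W_7d29a1_HZ.wd' μ s 1, by positivity, fun m => ?_⟩
  rcases Nat.eq_zero_or_pos m with rfl | hm
  · unfold wd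
    simp
  · have h1 := (hp 1 m le_rfl hm).2.2
    rw [Nat.cast_one, div_one, Win84.wd'_eq' h hm] at h1
    have hmR : (1 : ℝ) ≤ m := by exact_mod_cast hm
    have h2 : (m : ℝ) ^ (1 - a) ≤ m := by
      calc (m : ℝ) ^ (1 - a) ≤ (m : ℝ) ^ (1 : ℝ) := Real.rpow_le_rpow_of_exponent_le hmR (by linarith)
        _ = m := Real.rpow_one _
    refine h1.trans ?_
    calc K * (m : ℝ) ^ (1 - a) * Pool.Agent.W_7d29a1_HZ.wd' μ s 1 ≤ K * m * Pool.Agent.W_7d29a1_HZ.wd' μ s 1 := by gcongr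
      _ = _ := by ring

/-- **THE FORCE AT SMALL HEIGHTS.** -/
theorem adm70 (h : In μ s c C n₀) (hL : LB84 μ s) (A : ℝ) : ∃ n₁ : ℕ, ∀ {n : ℕ}, n₁ ≤ n → ∀ {c₂ δ κ : ℝ} {Γ : Cx}, 0 ≤ δ →
    Adm μ s c₂ δ κ n Γ → ∀ m : ℕ, (m : ℝ) ≤ A * (n : ℝ) ^ (1 / 32 : ℝ) → |Γ.h| * m ≤ 1 ∧ |Γ.h| * wd μ s m ≤ c / 4 * EE μ s m := by
  obtain ⟨n₁, H1⟩ := EE_lo70 h hL
  obtain ⟨W, hW, H2⟩ := wd_lin70 h
  have hc0 := h.c0
  obtain ⟨n₂, H3⟩ := eventually_atTop.1 (ev84 (max |A| (W * |A| / (c / 4))) (show (0 : ℝ) < 1 / 32 by norm_num))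
  refine ⟨max n₁ (max n₂ 1), fun {n} hn c₂ δ κ Γ hδ hA m hm => ?_⟩
  have h1 := H1 n ((le_max_left _ _).trans hn)
  have h3 := H3 n ((le_max_left _ _).trans ((le_max_right _ _).trans hn))
  have hn1 : 1 ≤ n := (le_max_right _ _).trans ((le_max_right _ _).trans hn)
  have hnR : (1 : ℝ) ≤ n := by exact_mod_cast hn1
  have hn0 : (0 : ℝ) < n := by linarith
  obtain ⟨-, -, -, -, -, -, -, -, hh, -⟩ := hA.hor
  have hE := EE_pos (μ := μ) (s := s) n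
  obtain ⟨y, hy⟩ : ∃ y : ℝ, y = (n : ℝ) ^ (1 / 32 : ℝ) := ⟨_, rfl⟩
  rw [← hy] at h3 hm
  have hy0 : 0 < y := by rw [hy]; positivity
  have hy2 : y * y ≤ EE μ s n := by
    refine le_trans (le_of_eq ?_) h1
    rw [hy, ← Real.rpow_add hn0]
    norm_num
  have h4 : |Γ.h| * EE μ s n ≤ 1 := hh.trans (Real.rpow_le_one_of_one_le_of_nonpos hnR (by linarith))
  have h5 : |Γ.h| * (y * y) ≤ 1 := (mul_le_mul_of_nonneg_left hy2 (abs_nonneg _)).trans h4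
  have hm' : (m : ℝ) ≤ |A| * y := hm.trans (mul_le_mul_of_nonneg_right (le_abs_self A) hy0.le)
  have h6 : |Γ.h| * m ≤ |Γ.h| * (|A| * y) := mul_le_mul_of_nonneg_left hm' (abs_nonneg _)
  have hA1 : |A| ≤ y := (le_max_left _ _).trans h3
  have hA2 : W * |A| ≤ c / 4 * y := by
    have := (le_max_right _ _).trans h3
    rwa [div_le_iff₀ (by positivity), mul_comm y] at this
  have h7 : |Γ.h| * (|A| * y) ≤ 1 := by
    refine le_trans ?_ h5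
    exact mul_le_mul_of_nonneg_left (mul_le_mul_of_nonneg_right hA1 hy0.le) (abs_nonneg _)
  refine ⟨h6.trans h7, ?_⟩
  calc |Γ.h| * wd μ s m ≤ |Γ.h| * (W * m) := mul_le_mul_of_nonneg_left (H2 m) (abs_nonneg _)
    _ ≤ |Γ.h| * (W * (|A| * y)) := mul_le_mul_of_nonneg_left (mul_le_mul_of_nonneg_left hm' hW.le) (abs_nonneg _)
    _ = |Γ.h| * (W * |A| * y) := by ring
    _ ≤ |Γ.h| * (c / 4 * y * y) := mul_le_mul_of_nonneg_left (mul_le_mul_of_nonneg_right hA2 hy0.le) (abs_nonneg _)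
    _ = c / 4 * (|Γ.h| * (y * y)) := by ring
    _ ≤ c / 4 * 1 := mul_le_mul_of_nonneg_left h5 (by positivity)
    _ ≤ c / 4 * EE μ s m := mul_le_mul_of_nonneg_left (one_le_EE m) (by positivity)

omit [IsProbabilityMeasure μ] in
/-- **The sizes of the box of the crude top.** -/
theorem size70 {n : ℕ} (hn : 4 ≤ n) {c₂ δ κ κ₀ : ℝ} {Γ : Cx} (hc₂ : c₂ ≤ 1) (hA : Adm μ s c₂ δ κ n Γ) (hκ : κ ≤ κ₀) (hκ₀ : 0 ≤ κ₀) :
    ∃ Na N : ℕ, Γ.M ≤ Na ∧ Na ≤ N ∧ n ≤ N ∧ Γ.N ≤ N ∧ Γ.M + 1 ≤ Γ.N ∧ (N : ℝ) ≤ (n : ℝ) ^ (7 : ℝ) ∧ |Γ.h| * EE μ s Na ≤ (N : ℝ) ^ κ₀ := by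
  obtain ⟨Na, L, hNa, hNan, hL3, hL2, hM, hΓN, -, hh⟩ := hA.hor
  have hn1 : (4 : ℝ) ≤ n := by exact_mod_cast hn
  have hn0 : (0 : ℝ) < n := by linarith only [hn1]
  have hn1' : (1 : ℝ) ≤ n := by linarith only [hn1]
  obtain ⟨N, hN⟩ : ∃ N : ℕ, N = 4 * Na ^ 3 := ⟨_, rfl⟩
  have hNa1 : 1 ≤ Na := by omega
  have hNa3 : Na ≤ Na ^ 3 := Nat.le_self_pow (by norm_num) Na
  have hNaN : Na ≤ N := by omega
  have hΓ : Γ.N ≤ N := by
    have h1 : 1 ≤ Na ^ 3 := Nat.one_le_pow _ _ hNa1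
    omega
  refine ⟨Na, N, hM, hNaN, hNa.trans hNaN, hΓ, by omega, ?_, ?_⟩
  · have h1 : (Na : ℝ) ≤ (n : ℝ) ^ (2 : ℝ) := hNan.trans (Real.rpow_le_rpow_of_exponent_le hn1' (by linarith only [hc₂]))
    have h2 : (Na : ℝ) ^ 3 ≤ ((n : ℝ) ^ (2 : ℝ)) ^ 3 := pow_le_pow_left₀ (Nat.cast_nonneg _) h1 3
    have h3 : (N : ℝ) = 4 * (Na : ℝ) ^ 3 := by rw [hN]; push_cast; ring
    have h4 : ((n : ℝ) ^ (2 : ℝ)) ^ 3 = (n : ℝ) ^ (6 : ℝ) := by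
      rw [← Real.rpow_natCast, ← Real.rpow_mul hn0.le]
      norm_num
    have h5 : (n : ℝ) ^ (7 : ℝ) = n * (n : ℝ) ^ (6 : ℝ) := by
      rw [show (7 : ℝ) = 1 + 6 by norm_num, Real.rpow_add hn0, Real.rpow_one]
    rw [h3, h5]
    rw [h4] at h2
    have h6 : 0 ≤ (n : ℝ) ^ (6 : ℝ) := by positivity
    have h7 := mul_le_mul_of_nonneg_right hn1 h6
    linarith only [h2, h7]
  · have h1 : (Na : ℝ) ^ κ ≤ (Na : ℝ) ^ κ₀ := Real.rpow_le_rpow_of_exponent_le (by exact_mod_cast hNa1) hκ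
    have h2 : (Na : ℝ) ^ κ₀ ≤ (N : ℝ) ^ κ₀ := Real.rpow_le_rpow (Nat.cast_nonneg _) (by exact_mod_cast hNaN) hκ₀
    exact hh.trans (h1.trans h2)

/-! ### The top radius and the levels above the middle -/

/-- **The top radius.** -/
theorem tl70 {e : ℝ} (he : 0 < e) {K : ℕ} (hK : 2 ≤ K) (x : ℕ) (A : ℝ) : ∀ᶠ n : ℕ in atTop, ∀ {Q : ℕ} {e₀ : ℝ}, GridN8 e e₀ K Q x n →
    1 ≤ h8 Q e₀ n → A * (n : ℝ) ^ (e / 8) ≤ Tg (h8 Q e₀ n) K (m8 K e n + x) := by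
  have hlK : 0 < Real.log K := Real.log_pos (by exact_mod_cast (by omega : 1 < K))
  have hKR : (2 : ℝ) ≤ K := by exact_mod_cast hK
  have hK0 : (0 : ℝ) < K := by linarith
  filter_upwards [ev84 (|A| * K) (show 0 < e / 8 by positivity), eventually_ge_atTop 1] with n h1 hn1 Q e₀ hN hh
  have hn0 : (0 : ℝ) < n := by exact_mod_cast hn1
  have hm0 := hN.m0
  obtain ⟨m, hm⟩ : ∃ m : ℕ, m = m8 K e n := ⟨_, rfl⟩
  rw [← hm] at hm0 ⊢
  -- `n ^ (e / 4) ≤ K ^ (m + 1)`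
  have h2 : (n : ℝ) ^ (e / 4) ≤ (K : ℝ) ^ (m + 1) := by
    have h3 : e / 4 * (Real.log n / Real.log K) ≤ (m : ℝ) + 1 := by
      rw [hm]
      exact (Nat.lt_floor_add_one _).le
    have h4 : e / 4 * Real.log n ≤ ((m : ℝ) + 1) * Real.log K := by
      have h5 := mul_le_mul_of_nonneg_right h3 hlK.le
      have h6 : e / 4 * (Real.log n / Real.log K) * Real.log K = e / 4 * Real.log n := by
        field_simp
      rwa [h6] at h5
    rw [Real.rpow_def_of_pos hn0, ← Real.rpow_natCast, Real.rpow_def_of_pos hK0]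
    refine Real.exp_le_exp.2 ?_
    push_cast
    linarith
  have h5 : (Tg (h8 Q e₀ n) K (m + x) : ℝ) = 2 * h8 Q e₀ n * (K : ℝ) ^ (m + x) := by
    rw [Tg_pos (by omega)]
    push_cast
    ring
  have h6 : (K : ℝ) ^ m ≤ (K : ℝ) ^ (m + x) := pow_le_pow_right₀ (by linarith) (by omega)
  have h7 : (1 : ℝ) ≤ h8 Q e₀ n := by exact_mod_cast hh
  have h8' : (K : ℝ) ^ m ≤ Tg (h8 Q e₀ n) K (m + x) := by
    rw [h5]
    have h9 : 0 ≤ (K : ℝ) ^ (m + x) := by positivity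
    nlinarith
  have h10 : |A| * K * (n : ℝ) ^ (e / 8) ≤ (K : ℝ) ^ m * K := by
    calc |A| * K * (n : ℝ) ^ (e / 8) ≤ (n : ℝ) ^ (e / 8) * (n : ℝ) ^ (e / 8) := mul_le_mul_of_nonneg_right h1 (by positivity)
      _ = (n : ℝ) ^ (e / 4) := by
        rw [← Real.rpow_add hn0]
        congr 1
        ring
      _ ≤ (K : ℝ) ^ (m + 1) := h2
      _ = _ := pow_succ _ _
  have h11 : |A| * (n : ℝ) ^ (e / 8) ≤ (K : ℝ) ^ m := by
    refine le_of_mul_le_mul_right ?_ hK0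
    linarith
  have h12 : A * (n : ℝ) ^ (e / 8) ≤ |A| * (n : ℝ) ^ (e / 8) := mul_le_mul_of_nonneg_right (le_abs_self A) (by positivity)
  linarith

/-- **The levels above the middle.** -/
theorem lv70 {e : ℝ} (he : 0 < e) {K : ℕ} (hK : 2 ≤ K) (x : ℕ) : ∀ᶠ n : ℕ in atTop, ∀ {Q : ℕ} {e₀ : ℝ}, GridN8 e e₀ K Q x n →
    16 ≤ m8 K e n ∧ (n : ℝ) ^ (e * Real.log 2 / (16 * Real.log K)) ≤ (4 : ℝ) ^ (m8 K e n + x - m8 K e n / 2 - 4) := by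
  have hlK : 0 < Real.log K := Real.log_pos (by exact_mod_cast (by omega : 1 < K))
  have hl2 : 0 < Real.log 2 := Real.log_pos (by norm_num)
  have hlog : ∀ M : ℝ, ∀ᶠ n : ℕ in atTop, M ≤ Real.log n := fun M =>
    (Real.tendsto_log_atTop.comp tendsto_natCast_atTop_atTop).eventually_ge_atTop M
  filter_upwards [hlog (16 * (8 * Real.log K) / e), eventually_ge_atTop 1] with n h1 hn1 Q e₀ hN
  have hn0 : (0 : ℝ) < n := by exact_mod_cast hn1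
  have h2 := hN.m1
  have h3 : (16 : ℝ) ≤ m8 K e n := by
    refine le_trans ?_ h2
    rw [div_le_iff₀ he] at h1
    rw [div_mul_eq_mul_div, le_div_iff₀ (by positivity)]
    linarith
  have h4 : 16 ≤ m8 K e n := by exact_mod_cast h3
  refine ⟨h4, ?_⟩
  obtain ⟨m, hm⟩ : ∃ m : ℕ, m = m8 K e n := ⟨_, rfl⟩
  rw [← hm] at h2 h4 ⊢
  obtain ⟨k, hk⟩ : ∃ k : ℕ, k = m + x - m / 2 - 4 := ⟨_, rfl⟩
  rw [← hk]
  have hk4 : m ≤ 4 * k := by omega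
  have hkR : (m : ℝ) ≤ 4 * k := by exact_mod_cast hk4
  rw [Real.rpow_def_of_pos hn0, ← Real.rpow_natCast, Real.rpow_def_of_pos (by norm_num)]
  refine Real.exp_le_exp.2 ?_
  have e4 : Real.log 4 = 2 * Real.log 2 := by
    rw [show (4 : ℝ) = 2 ^ 2 by norm_num, Real.log_pow]
    push_cast
    ring
  rw [e4]
  have h5 : e / (8 * Real.log K) * Real.log n ≤ 4 * k := h2.trans hkR
  calc Real.log n * (e * Real.log 2 / (16 * Real.log K)) = e / (8 * Real.log K) * Real.log n * (Real.log 2 / 2) := by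
        field_simp
        ring
    _ ≤ 4 * k * (Real.log 2 / 2) := mul_le_mul_of_nonneg_right h5 (by positivity)
    _ = 2 * Real.log 2 * k := by ring

end

end Pool.Agent.W_7d29a1_C1.TpZ70
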