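import Pool.Agent.W_7d29a1_C1.NsS6
import Pool.Agent.W_7d29a1_C1.NsD6
import Pool.Agent.W_7d29a1_C1.NsG63
import Pool.Agent.W_7d29a1_C1.RgS70
import Pool.Agent.W_7d29a1_C1.NumP74
import Pool.Agent.W_7d29a1_C1.TopC16
import Pool.Agent.W_7d29a1_C1.SepM49
import Pool.Agent.W_7d29a1_C1.TmU51

/-!
MP_7d29a1_pr, attractor route [C1], field `nu`: **THE CLAUSE NS, CLOSED** (`NsQ51` of helper51). (helper6)

`far6` : the widths against the top; `bad6` : the crude comparison of a context in the units of the layers; `row6`, `for6` : the number of rows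
and the force against the energies; **`nsQ6`** : `NsQ51` from `nsV63` (helper63, over `ns_slab6`) and `nsD6`.
-/

set_option autoImplicit false

namespace Pool.Agent.W_7d29a1_C1.Ns6

open MeasureTheory ProbabilityTheory Filter Topology Finset
open Pool.Agent.W_7d29a1_F Pool.Agent.W_7d29a1_h4g Pool.Agent.W_7d29a1_H Pool.Agent.W_7d29a1_HS
open Pool.Agent.W_7d29a1_C1.T10 (Gd pt Tg Hg Tg_pos Tg_mono Hg_mono Hg_pos Tg_Hg GW)
open Pool.Agent.W_7d29a1_C1.H8 (h8 m8 GridN8 gridN8 S8 sl8)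
open Pool.Agent.W_7d29a1_C1.H60 (Cx Adm)
open Pool.Agent.W_7d29a1_C1.H40 (Tk Cut)
open Pool.Agent.W_7d29a1_C1.G37 (Gm Wok gmW)
open Pool.Agent.W_7d29a1_C1.H77 (Zt77 Tg_ge77)
open Pool.Agent.W_7d29a1_C1.Dep6
open Pool.Agent.W_7d29a1_C1.D31 (Lr31)
open Pool.Agent.W_7d29a1_C1.NS94 (NS)
open Pool.Agent.W_7d29a1_C1.U16
open Pool.Agent.W_7d29a1_C1.FarK89 (gr gr_nonneg)
open Pool.Agent.W_7d29a1_C1.TwS63 (nsV63)
open Pool.Agent.W_7d29a1_C1.TpF63 Pool.Agent.W_7d29a1_C1.PcS63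
open Pool.Agent.W_7d29a1_C1.TmR89 (co89 Hl89)
open Pool.Agent.W_7d29a1_C1.Nu51
open Pool.Agent.W_7d29a1_C1.P74 (wid74 h8_big h8_ge)
open Pool.Agent.W_7d29a1_C1.TpZ70 (adm70 wd_lin70 rg70 col_w70)
open Pool.Agent.W_7d29a1_C1.Win84 (LB84 ev84)
open scoped ENNReal

noncomputable section

variable {μ : Measure ℝ} {s : ℝ} [IsProbabilityMeasure μ] {c C : ℝ} {n₀ : ℕ}

/-- **The widths against the top.** -/
theorem far6 (hI : In μ s c C n₀) {e e₀ : ℝ} (he : 0 < e) (he1 : e ≤ 1 / 32) (he₀ : 0 < e₀) (hee : e₀ ≤ e) {K : ℕ} (hK : 2 ≤ K) :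
    ∃ e₁ : ℝ, 0 < e₁ ∧ ∀ (X : ℝ) {Q : ℕ}, 1 ≤ Q → ∀ᶠ n : ℕ in atTop, ∀ b : ℕ, 1 ≤ b → 16 * b ≤ 7 * m8 K e n + 16 →
      b ≤ m8 K e n / 2 ∧ X * (n : ℝ) ^ e₁ * wd μ s (Tg (h8 Q e₀ n) K b) ≤ wd μ s (Tg (h8 Q e₀ n) K (m8 K e n / 2)) := by
  obtain ⟨a, kk, ha, hkk, -, n₁, hn₁, HW⟩ := wid74 hI
  have hlK : 0 < Real.log K := Real.log_pos (by exact_mod_cast (by omega : 1 < K))
  have hK0 : (0 : ℝ) < K := by exact_mod_cast (by omega : 0 < K)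
  refine ⟨a * e / 256, by positivity, fun X Q hQ => ?_⟩
  have hlog : ∀ M : ℝ, ∀ᶠ n : ℕ in atTop, M ≤ Real.log n := fun M =>
    (Real.tendsto_log_atTop.comp tendsto_natCast_atTop_atTop).eventually_ge_atTop M
  filter_upwards [gridN8 (x := 0) he he1 he₀ hee hK hQ, h8_big he₀ hQ n₁, hlog (24 * (8 * Real.log K) / e),
    ev84 (|X| * Real.exp (3 / 2 * a * Real.log K) / kk) (show 0 < a * e / 256 by positivity), eventually_ge_atTop 1]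
    with n hg hh h1 h2 hn1
  intro b hb hb16
  have hn0 : (0 : ℝ) < n := by exact_mod_cast hn1
  obtain ⟨m, hm⟩ : ∃ m : ℕ, m = m8 K e n := ⟨_, rfl⟩
  have hm1 := hg.m1
  rw [← hm] at hm1 hb16 ⊢
  have hm24 : (24 : ℝ) ≤ m := by
    refine le_trans ?_ hm1
    rw [div_le_iff₀ he] at h1
    rw [div_mul_eq_mul_div, le_div_iff₀ (by positivity)]
    linarith
  have hm24' : 24 ≤ m := by exact_mod_cast hm24
  have hbm : b ≤ m / 2 := by omega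
  refine ⟨hbm, ?_⟩
  obtain ⟨l, hl⟩ : ∃ l : ℕ, m / 2 = b + l := ⟨m / 2 - b, by omega⟩
  have hl16 : m ≤ 16 * l + 24 := by omega
  obtain ⟨-, -, g3, -, -⟩ := HW K (by omega) (h8 Q e₀ n) hh b l hb
  rw [hl]
  have hw0 : 0 ≤ wd μ s (Tg (h8 Q e₀ n) K b) := hI.wd_nonneg _
  refine le_trans (mul_le_mul_of_nonneg_right ?_ hw0) g3
  -- the numbers
  have hlR : (m : ℝ) ≤ 16 * l + 24 := by exact_mod_cast hl16
  obtain ⟨y, hy⟩ : ∃ y : ℝ, y = (n : ℝ) ^ (a * e / 256) := ⟨_, rfl⟩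
  rw [← hy] at h2 ⊢
  have hy0 : 0 < y := by rw [hy]; positivity
  have h3 : y * y ≤ ((K : ℝ) ^ a) ^ l * Real.exp (3 / 2 * a * Real.log K) := by
    have e1 : ((K : ℝ) ^ a) ^ l = Real.exp (l * (a * Real.log K)) := by
      rw [Real.exp_nat_mul, Real.rpow_def_of_pos hK0]
      congr 2
      ring
    have e2 : y * y = Real.exp (2 * (Real.log n * (a * e / 256))) := by
      rw [hy, Real.rpow_def_of_pos hn0, ← Real.exp_add]
      congr 1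
      ring
    rw [e1, e2, ← Real.exp_add]
    refine Real.exp_le_exp.2 ?_
    have h4 : e / (8 * Real.log K) * Real.log n ≤ 16 * l + 24 := hm1.trans hlR
    have h5 := mul_le_mul_of_nonneg_left h4 (show 0 ≤ a * Real.log K / 16 by positivity)
    have e3 : a * Real.log K / 16 * (e / (8 * Real.log K) * Real.log n) = 2 * (Real.log n * (a * e / 256)) := by
      field_simp
      ring
    rw [e3] at h5
    linarith
  rw [div_le_iff₀ hkk] at h2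
  have hX0 : X * Real.exp (3 / 2 * a * Real.log K) ≤ y * kk :=
    (mul_le_mul_of_nonneg_right (le_abs_self X) (Real.exp_pos _).le).trans h2
  have h6 : X * y * Real.exp (3 / 2 * a * Real.log K) ≤ kk * ((K : ℝ) ^ a) ^ l * Real.exp (3 / 2 * a * Real.log K) := by
    calc X * y * Real.exp (3 / 2 * a * Real.log K) = X * Real.exp (3 / 2 * a * Real.log K) * y := by ring
      _ ≤ y * kk * y := mul_le_mul_of_nonneg_right hX0 hy0.le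
      _ = kk * (y * y) := by ring
      _ ≤ kk * (((K : ℝ) ^ a) ^ l * Real.exp (3 / 2 * a * Real.log K)) := mul_le_mul_of_nonneg_left h3 hkk.le
      _ = _ := by ring
  exact le_of_mul_le_mul_right h6 (Real.exp_pos _)

/-- **The crude comparison of a context in the units of the layers.** -/
theorem bad6 (hI : In μ s c C n₀) (hL : LB84 μ s) (HY : CrY16 μ s) {e e₀ : ℝ} (he : 0 < e) (he1 : e ≤ 1 / 32) (he₀ : 0 < e₀) (hee : e₀ ≤ e)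
    {K : ℕ} (hK : 2 ≤ K) (x B : ℕ) (hB : 1 ≤ B) {e₁ sc K₁ : ℝ} (he₁ : 0 < e₁) (hsc : 0 < sc) (hsc1 : sc ≤ 1) (hK₁ : 1 ≤ K₁) :
    ∃ κ₀ : ℝ, 0 < κ₀ ∧ ∀ {c₂ δ κ : ℝ}, c₂ ≤ 1 → 0 ≤ δ → κ ≤ κ₀ → ∀ {Q : ℕ}, 1 ≤ Q → ∀ᶠ n : ℕ in atTop, ∀ Γ : Cx, Adm μ s c₂ δ κ n Γ →
      ∃ bad : Set Env, law μ bad ≤ ENNReal.ofReal ((n : ℝ) ^ (-(3 : ℝ))) ∧ ∀ η ∉ bad, ∀ a v : ℕ, a + 1 ≤ Γ.N → 1 ≤ v →
        v ≤ m8 K e n + x → ∀ {x₀ : ℝ} {y y' : ℤ}, |y'| ≤ 4 * Γ.N → |(y' : ℝ) - x₀| ≤ K₁ * wd μ s (B * Tg (h8 Q e₀ n) K v) →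
          bh16 μ s Γ.h η Γ.p Γ.M Γ.N a y ≤ Real.exp (((n : ℝ) ^ e₁ + sc * (|(y : ℝ) - x₀| / wd μ s (B * Tg (h8 Q e₀ n) K v))) *
            EE μ s (B * Tg (h8 Q e₀ n) K v)) * bh16 μ s Γ.h η Γ.p Γ.M Γ.N a y' := by
  have : IsProbabilityMeasure (law μ) := by unfold law; infer_instance
  obtain ⟨κ₀, c', hκ₀, hc', H⟩ := topC16 hI hL HY (e₀ := e₀ / 4) (e₁ := e₁) (by positivity) he₁
  obtain ⟨n₁, hn₁, H⟩ := H sc K₁ hsc hsc1 hK₁
  obtain ⟨n₂, H2⟩ := adm70 hI hL (B : ℝ)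
  refine ⟨κ₀, hκ₀, fun {c₂ δ κ} hc₂ hδ hκ {Q} hQ => ?_⟩
  have hlittle := (isLittleO_log_rpow_atTop hc').bound (show (0 : ℝ) < 1 / 3 by norm_num)
  filter_upwards [gridN8 (x := x) he he1 he₀ hee hK hQ, eventually_ge_atTop n₁, eventually_ge_atTop n₂, eventually_ge_atTop 1,
    ev84 (B : ℝ) (show (0 : ℝ) < 1 / 4 - 1 / 32 by norm_num), tendsto_natCast_atTop_atTop.eventually hlittle] with n hg hn1 hn2 hn hBn hlog
  intro Γ hA
  have hnR : (1 : ℝ) ≤ n := by exact_mod_cast hn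
  have hn0 : (0 : ℝ) < n := by linarith
  obtain ⟨bad, hbad, HB⟩ := H hn1 hc₂ hκ hA
  refine ⟨bad, ?_, ?_⟩
  · rw [← ofReal_measureReal]
    refine ENNReal.ofReal_le_ofReal (hbad.trans ?_)
    have e1 : (n : ℝ) ^ (-(3 : ℝ)) = Real.exp (Real.log n * (-3)) := Real.rpow_def_of_pos hn0 _
    rw [e1]
    refine Real.exp_le_exp.2 ?_
    rw [Real.norm_of_nonneg (Real.log_nonneg hnR), Real.norm_of_nonneg (by positivity)] at hlog
    linarith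
  intro η hη a v ha hv1 hv2 x₀ y y' hy' hyx
  obtain ⟨t, ht⟩ : ∃ t : ℕ, t = B * Tg (h8 Q e₀ n) K v := ⟨_, rfl⟩
  rw [← ht] at hyx ⊢
  have hTv : Tg (h8 Q e₀ n) K v ≤ Tg (h8 Q e₀ n) K (m8 K e n + x) := Tg_mono (by omega) hv2
  have hTn : (Tg (h8 Q e₀ n) K v : ℝ) ≤ (n : ℝ) ^ (1 / 32 : ℝ) := by
    have h1 : (Tg (h8 Q e₀ n) K v : ℝ) ≤ Tg (h8 Q e₀ n) K (m8 K e n + x) := by exact_mod_cast hTv
    have h2 : (n : ℝ) ^ e ≤ (n : ℝ) ^ (1 / 32 : ℝ) := Real.rpow_le_rpow_of_exponent_le hnR he1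
    have h3 := hg.TL
    have h4 : (0 : ℝ) ≤ Tg (h8 Q e₀ n) K (m8 K e n + x) := Nat.cast_nonneg _
    linarith
  have ht32 : (t : ℝ) ≤ B * (n : ℝ) ^ (1 / 32 : ℝ) := by
    rw [ht]
    push_cast
    exact mul_le_mul_of_nonneg_left hTn (Nat.cast_nonneg _)
  have htlo : (n : ℝ) ^ (e₀ / 4) ≤ t := by
    have h1 : h8 Q e₀ n ≤ t := by
      rw [ht, Tg_pos hv1]
      have h5 : 1 ≤ K ^ v := Nat.one_le_pow _ _ (by omega)
      have h6 : h8 Q e₀ n ≤ 2 * h8 Q e₀ n * K ^ v := by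
        calc h8 Q e₀ n = h8 Q e₀ n * 1 := (mul_one _).symm
          _ ≤ 2 * h8 Q e₀ n * K ^ v := Nat.mul_le_mul (by omega) h5
      exact h6.trans (Nat.le_mul_of_pos_left _ hB)
    exact hg.h1.trans (by exact_mod_cast h1)
  have hthi : (t : ℝ) ≤ (n : ℝ) ^ (1 / 4 : ℝ) := by
    refine ht32.trans ?_
    calc B * (n : ℝ) ^ (1 / 32 : ℝ) ≤ (n : ℝ) ^ (1 / 4 - 1 / 32 : ℝ) * (n : ℝ) ^ (1 / 32 : ℝ) :=
          mul_le_mul_of_nonneg_right hBn (by positivity)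
      _ = _ := by
        rw [← Real.rpow_add hn0]
        norm_num
  have hsw : t ≤ Γ.M - a ∨ |Γ.h| * ((Γ.M - a : ℕ) : ℝ) ≤ 1 := by
    rcases le_or_gt t (Γ.M - a) with h | h
    · exact Or.inl h
    · refine Or.inr (H2 hn2 hδ hA (Γ.M - a) (le_trans ?_ ht32)).1
      exact_mod_cast h.le
  have hp : ∀ k, k < Γ.M → Γ.p k = Real.exp (s + Γ.h) := fun k hk => by
    unfold Cx.p
    rw [if_pos hk, hA.hs]
  have hp' : ∀ k, Γ.M ≤ k → Γ.p k = Real.exp s := fun k hk => by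
    unfold Cx.p
    rw [if_neg (not_lt.2 hk), hA.hs]
  exact HB η hη le_rfl hp hp' ha hsw htlo hthi hy' hyx

/-- **The number of rows against the energies.** -/
theorem row6 (hI : In μ s c C n₀) {e e₀ : ℝ} (he : 0 < e) (he1 : e ≤ 1 / 32) (he₀ : 0 < e₀) (hee : e₀ ≤ e) {K Q : ℕ} (hK : 2 ≤ K)
    (hQ : 1 ≤ Q) {c₂ δ κ : ℝ} (hc₂ : c₂ ≤ 1) : ∀ᶠ n : ℕ in atTop, ∀ Γ : Cx, Adm μ s c₂ δ κ n Γ → ∀ T : ℕ, h8 Q e₀ n ≤ T →
      (Γ.N : ℝ) + 1 ≤ Real.exp (EE μ s T) := by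
  obtain ⟨e₁, he₁, n₁, H⟩ := N49.model_E hI (show 0 < e₀ / 4 by positivity)
  have hlittle := (isLittleO_log_rpow_atTop he₁).bound (show (0 : ℝ) < 1 / 8 by norm_num)
  filter_upwards [gridN8 (x := 0) he he1 he₀ hee hK hQ, eventually_ge_atTop n₁, eventually_ge_atTop 4,
    tendsto_natCast_atTop_atTop.eventually hlittle] with n hg hn1 hn4 hlog
  intro Γ hA T hT
  have hnR : (4 : ℝ) ≤ n := by exact_mod_cast hn4
  have hn0 : (0 : ℝ) < n := by linarith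
  obtain ⟨Na, N, -, -, -, hN1, -, hN7, -⟩ := TpZ70.size70 hn4 hc₂ hA (κ₀ := max κ 0) (le_max_left _ _) (le_max_right _ _)
  have h1 : (n : ℝ) ^ e₁ ≤ EE μ s T := H n hn1 T (hg.h1.trans (by exact_mod_cast hT))
  rw [Real.norm_of_nonneg (Real.log_nonneg (by linarith)), Real.norm_of_nonneg (by positivity)] at hlog
  have h2 : (n : ℝ) ^ (8 : ℝ) ≤ Real.exp (EE μ s T) := by
    rw [Real.rpow_def_of_pos hn0]
    refine Real.exp_le_exp.2 ?_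
    linarith
  refine le_trans ?_ h2
  have h3 : (Γ.N : ℝ) ≤ N := by exact_mod_cast hN1
  have h4 : (1 : ℝ) ≤ (n : ℝ) ^ (7 : ℝ) := Real.one_le_rpow (by linarith) (by norm_num)
  have h5 : (n : ℝ) ^ (8 : ℝ) = n * (n : ℝ) ^ (7 : ℝ) := by
    rw [show (8 : ℝ) = 1 + 7 by norm_num, Real.rpow_add hn0, Real.rpow_one]
  rw [h5]
  have h6 := mul_le_mul_of_nonneg_right hnR (show 0 ≤ (n : ℝ) ^ (7 : ℝ) by positivity)
  linarith

/-- **The force in the units of the layers.** -/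
theorem for6 (hI : In μ s c C n₀) (hL : LB84 μ s) {e e₀ : ℝ} (he : 0 < e) (he1 : e ≤ 1 / 32) (he₀ : 0 < e₀) (hee : e₀ ≤ e) {K Q : ℕ}
    (hK : 2 ≤ K) (hQ : 1 ≤ Q) (x B : ℕ) {c₂ δ κ : ℝ} (hδ : 0 ≤ δ) : ∀ᶠ n : ℕ in atTop, ∀ Γ : Cx, Adm μ s c₂ δ κ n Γ → ∀ v : ℕ,
      v ≤ m8 K e n + x → |Γ.h| * wd μ s (B * Tg (h8 Q e₀ n) K v) ≤ c / 8 * EE μ s (B * Tg (h8 Q e₀ n) K v) := by
  obtain ⟨W, hW, HW⟩ := wd_lin70 hI
  have hc0 := hI.c0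
  obtain ⟨j, hj⟩ := exists_nat_ge (8 * W / c)
  obtain ⟨n₂, H2⟩ := adm70 hI hL ((j : ℝ) * B)
  filter_upwards [gridN8 (x := x) he he1 he₀ hee hK hQ, eventually_ge_atTop n₂, eventually_ge_atTop 1] with n hg hn2 hn
  intro Γ hA v hv
  have hnR : (1 : ℝ) ≤ n := by exact_mod_cast hn
  obtain ⟨t, ht⟩ : ∃ t : ℕ, t = B * Tg (h8 Q e₀ n) K v := ⟨_, rfl⟩
  rw [← ht]
  have hTn : (Tg (h8 Q e₀ n) K v : ℝ) ≤ (n : ℝ) ^ (1 / 32 : ℝ) := by
    have h1 : (Tg (h8 Q e₀ n) K v : ℝ) ≤ Tg (h8 Q e₀ n) K (m8 K e n + x) := by exact_mod_cast Tg_mono (h₀ := h8 Q e₀ n) (by omega) hv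
    have h2 : (n : ℝ) ^ e ≤ (n : ℝ) ^ (1 / 32 : ℝ) := Real.rpow_le_rpow_of_exponent_le hnR he1
    have h3 := hg.TL
    have h4 : (0 : ℝ) ≤ Tg (h8 Q e₀ n) K (m8 K e n + x) := Nat.cast_nonneg _
    linarith
  have ht32 : (t : ℝ) ≤ B * (n : ℝ) ^ (1 / 32 : ℝ) := by
    rw [ht]
    push_cast
    exact mul_le_mul_of_nonneg_left hTn (Nat.cast_nonneg _)
  have h1 := (H2 hn2 hδ hA (j * t) (by
    push_cast
    rw [mul_assoc]
    exact mul_le_mul_of_nonneg_left ht32 (Nat.cast_nonneg _))).1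
  have hh := abs_nonneg Γ.h
  have ht0 : (0 : ℝ) ≤ t := Nat.cast_nonneg _
  have h2 : W ≤ c / 8 * j := by
    rw [div_le_iff₀ hc0] at hj
    linarith
  calc |Γ.h| * wd μ s t ≤ |Γ.h| * (W * t) := mul_le_mul_of_nonneg_left (HW t) hh
    _ ≤ |Γ.h| * (c / 8 * j * t) := mul_le_mul_of_nonneg_left (mul_le_mul_of_nonneg_right h2 ht0) hh
    _ = c / 8 * (|Γ.h| * ((j * t : ℕ) : ℝ)) := by push_cast; ring
    _ ≤ c / 8 * 1 := mul_le_mul_of_nonneg_left h1 (by positivity)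
    _ ≤ c / 8 * EE μ s t := mul_le_mul_of_nonneg_left (one_le_EE t) (by positivity)

/-- **THE CLAUSE `NS`.** -/
theorem nsQ6 (hI : In μ s c C n₀) (hL : LB84 μ s) (HY : CrY16 μ s) : NsQ51 μ s := by
  intro Φ _ ρ hρ hρ1 e he he1
  have hc0 := hI.c0
  have he₀ : 0 < ρ * e := mul_pos hρ he
  have hee : ρ * e ≤ e := mul_le_of_le_one_left he.le hρ1
  obtain ⟨α₀, K₁, hα₀, hα₁, hK₁, HV⟩ := nsV63 hI
  obtain ⟨K₂, hK₂⟩ := eventually_atTop.1 (ev84 (17 / 16 : ℝ) hα₀)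
  refine ⟨max K₁ (max K₂ 2), fun K hK R B C₀ hR hB hC => ?_⟩
  have k1 : K₁ ≤ K := (le_max_left _ _).trans hK
  have k2 : K₂ ≤ K := ((le_max_left _ _).trans (le_max_right _ _)).trans hK
  have k3 : 2 ≤ K := ((le_max_right _ _).trans (le_max_right _ _)).trans hK
  have hB0 : (0 : ℝ) < B := by exact_mod_cast (by omega : 0 < B)
  have hC0 : 0 < C₀ := by linarith
  refine ⟨c / (96 * C₀), by positivity, fun σ ε hσ hσ₀ hε => ?_⟩
  obtain ⟨θ, hθ⟩ : ∃ θ : ℝ, θ = min (1 / 2) (1 / (8 * (B : ℝ))) := ⟨_, rfl⟩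
  have hθ0 : 0 < θ := by rw [hθ]; exact lt_min (by norm_num) (by positivity)
  have hθ2 : θ ≤ 1 / 2 := by rw [hθ]; exact min_le_left _ _
  have hBθ : 8 * (B : ℝ) * θ ≤ 1 := by
    have h1 : θ ≤ 1 / (8 * B) := by rw [hθ]; exact min_le_right _ _
    rw [le_div_iff₀ (by positivity)] at h1
    linarith
  obtain ⟨P, j₁, nl, Al, al, gl, hP, hnl, hAl, hal, hgl, -, hF, n₁, hn₁, HV⟩ := HV hθ0 hθ2
  refine ⟨Al, al, gl, Al, al, gl, 17 / 16, hAl, hal, hgl, hAl, hal, hgl, by norm_num, fun z δ₀ hz hδ₀ A hA k hk => ?_⟩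
  obtain ⟨Y₀, hY₀, HD⟩ := depI6 (μ := μ) hAl hal hgl hAl hal hgl (show (1 : ℝ) < 17 / 16 by norm_num) hz
  obtain ⟨sc, hsc⟩ : ∃ sc : ℝ, sc = min 1 (c / 96) := ⟨_, rfl⟩
  have hsc0 : 0 < sc := by rw [hsc]; exact lt_min one_pos (by positivity)
  have hsc1 : sc ≤ 1 := by rw [hsc]; exact min_le_left _ _
  have hsc2 : sc ≤ c / 96 := by rw [hsc]; exact min_le_right _ _
  obtain ⟨m00, HV⟩ := HV k Y₀ (17 / 16) (A + sc * 1) C₀ (by linarith) (by norm_num) (by positivity) hC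
  obtain ⟨e₁, he₁, HX⟩ := far6 hI he he1 he₀ hee k3
  refine ⟨m00, fun m hm m₁ hm₁ => ?_⟩
  obtain ⟨x, hx⟩ : ∃ x : ℕ, x = (k.up m).m0 + m₁ := ⟨_, rfl⟩
  obtain ⟨κ₀, hκ₀, HB⟩ := bad6 hI hL HY he he1 he₀ hee k3 x B (by omega) (e₁ := e₁) (sc := sc) (K₁ := 1) he₁ hsc0 hsc1 le_rfl
  refine ⟨1, 1, one_pos, one_pos, fun c₂ hc₂ hc₂1 δ' hδ' _ => ⟨κ₀, hκ₀, fun κ _ hκ => ⟨1, le_rfl, fun Q _ hQ => ?_⟩⟩⟩
  have hlK : 0 < Real.log K := Real.log_pos (by exact_mod_cast (by omega : 1 < K))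
  have hlog : ∀ M : ℝ, ∀ᶠ n : ℕ in atTop, M ≤ Real.log n := fun M =>
    (Real.tendsto_log_atTop.comp tendsto_natCast_atTop_atTop).eventually_ge_atTop M
  filter_upwards [HB hc₂1 hδ'.le hκ hQ, HX (C₀ * (96 / c)) hQ, HX 2 hQ, gridN8 (x := x) he he1 he₀ hee k3 hQ,
    h8_big he₀ hQ (max nl n₁), row6 hI he he1 he₀ hee k3 hQ (κ := κ) (δ := δ') hc₂1, for6 hI hL he he1 he₀ hee k3 hQ x B (κ := κ) (c₂ := c₂) hδ'.le,
    hlog (((k.τ₀ : ℝ) + 1) / ε * (8 * Real.log K) / e), eventually_ge_atTop 4] with n HB HX HX2 hg hh hrow hfor hlg hn4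
  intro E₀ hE₀ G hG hW Γ hA'
  rw [← hx] at hG ⊢
  have hnR : (4 : ℝ) ≤ n := by exact_mod_cast hn4
  obtain ⟨bad, hbad, HB⟩ := HB Γ hA'
  have hm0 := hg.m0
  have hE1 : 1 ≤ E₀ := by
    by_contra hcon
    have h0 : E₀ = 0 := by omega
    rw [h0] at hE₀
    have h1 : 0 < δ₀ * (m8 K e n : ℝ) := mul_pos hδ₀ (by exact_mod_cast hm0)
    rw [Nat.cast_zero] at hE₀
    linarith
  have hhl : nl ≤ h8 Q (ρ * e) n := (le_max_left _ _).trans hh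
  have hh1 : n₁ ≤ h8 Q (ρ * e) n := (le_max_right _ _).trans hh
  have hT1 : ∀ v, 1 ≤ v → h8 Q (ρ * e) n ≤ Tg (h8 Q (ρ * e) n) K v := fun v hv => by
    rw [Tg_pos hv]
    have h5 : 1 ≤ K ^ v := Nat.one_le_pow _ _ (by omega)
    calc h8 Q (ρ * e) n = h8 Q (ρ * e) n * 1 := (mul_one _).symm
      _ ≤ 2 * h8 Q (ρ * e) n * K ^ v := Nat.mul_le_mul (by omega) h5
  have hHl : ∀ a b : Cut (ℕ × ℤ), nl ≤ Hl89 B (Tg (h8 Q (ρ * e) n) K) a b := fun a b =>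
    hhl.trans ((hT1 _ (le_max_right _ _)).trans (Nat.le_mul_of_pos_left _ (by omega)))
  have hFF := hF (Hl89 B (Tg (h8 Q (ρ * e) n) K)) hHl (co89 μ s)
  obtain ⟨hdL, htl, -⟩ := HD Y₀ le_rfl (m8 K e n + 3) (Λ := ℕ × ℤ) hFF hFF (Ev2.univ μ) (Ev3.univ μ) (by simp)
  have hdN : Dp3 μ (ENNReal.ofReal z) 2 (dEN6 (fun _ _ _ : Cut (ℕ × ℤ) => (Set.univ : Set Env)) 1) := by
    have h1 := dp3_E (μ := μ) (Λ := ℕ × ℤ) (v := 1) (z := ENNReal.ofReal z) (Ev3.univ μ).meas (Ev3.univ μ).rows (Ev3.univ μ).prob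
    exact h1.mono (by rw [mul_zero, add_zero]; norm_num)
  refine ⟨_, _, 2, _, Y₀, ∅, lb6, lbN6, bad, by norm_num, le_rfl, hdL, hdN, by simp, hY₀, fun a b => htl E₀ a b hE1, le_rfl, hbad, ?_⟩
  intro η hη c' hc' hw u hu1 hu2 hok _
  show 16 * u ≤ 7 * m8 K e n → _
  intro hu16 hLr
  have hmR : (0 : ℝ) < m8 K e n := by exact_mod_cast hm0
  -- the scale
  have hτu : k.τ₀ < u := by
    have h1 : ((k.τ₀ : ℝ) + 1) / ε ≤ m8 K e n := by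
      refine le_trans ?_ hg.m1
      rw [div_le_iff₀ he] at hlg
      rw [div_mul_eq_mul_div, le_div_iff₀ (by positivity)]
      linarith
    rw [div_le_iff₀ hε] at h1
    have h2 : (k.τ₀ : ℝ) + 1 ≤ u := by linarith
    have h3 : k.τ₀ + 1 ≤ u := by exact_mod_cast h2
    omega
  have hum : u ≤ m8 K e n := by omega
  have hx1 : 1 ≤ x := by
    rw [hx]
    omega
  obtain ⟨hb1, hX1⟩ := HX (u + 1) (by omega) (by omega)
  obtain ⟨-, hX2⟩ := HX2 (u + 1) (by omega) (by omega)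
  -- the rows
  have RG := rg70 hG hg (he1.trans (by norm_num)) (by omega) hc'
  have hTL : Tg (h8 Q (ρ * e) n) K (u + 1) ≤ Tg (h8 Q (ρ * e) n) K (m8 K e n + x) := Tg_mono (by omega) (by omega)
  have hTu : Tg (h8 Q (ρ * e) n) K u ≤ Tg (h8 Q (ρ * e) n) K (m8 K e n + x) := Tg_mono (by omega) (by omega)
  have r1 := RG.lo
  have r2 := RG.le (m8 K e n + x)
  have r3 := RG.le (u + 1)
  have r4 := RG.hi
  have r5 := RG.TL
  have hwpos : 0 < Γ.w c' η := (Real.exp_pos _).trans_le hw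
  have hcol := col_w70 hwpos
  -- the units
  have hwb : 1 ≤ wd μ s (Tg (h8 Q (ρ * e) n) K (u + 1)) := hG.w1 (by omega)
  have hwt : 1 ≤ wd μ s (B * Tg (h8 Q (ρ * e) n) K (u + 1)) := hwb.trans (hG.wB' (u + 1) (by omega))
  have hTtT : Tg (h8 Q (ρ * e) n) K (u + 1) ≤ B * Tg (h8 Q (ρ * e) n) K (u + 1) := Nat.le_mul_of_pos_left _ (by omega)
  obtain ⟨row, hrw⟩ : ∃ row : ℕ, row = (G.z (u + 1) c').1 + Tg (h8 Q (ρ * e) n) K (u + 1) := ⟨_, rfl⟩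
  subst hk
  refine HV m hm hG k1 hBθ (hK₂ _ k2) hh1 hFF hFF (fun a b q => subset_rfl) hA'.hs hok.1 hτu (by omega) (by omega) (by omega) (by omega)
    (hfor Γ hA' (u + 1) (by omega)) (hrow Γ hA' _ ((hT1 _ (by omega)).trans hTtT)) hW (m8 k.K e n) ?_
  intro zt hzt
  rw [← hrw] at hzt ⊢
  have hσ' : C₀ * σ + sc + c / 96 ≤ c / 32 := by
    have h1 : C₀ * σ ≤ c / 96 := by
      rw [le_div_iff₀ (by positivity)] at hσ₀
      linarith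
    linarith
  -- the line
  obtain ⟨x₀, hx₀⟩ : ∃ x₀ : ℝ, x₀ = (c'.2 : ℝ) + sl μ s * ((row : ℝ) - c'.1) := ⟨_, rfl⟩
  have hzx : |(zt : ℝ) - x₀| ≤ 1 := by
    have e1 : lat16 μ s (pt c') ((row : ℤ), zt) = (zt : ℝ) - x₀ := by
      rw [hx₀]
      unfold lat16
      have e2 : (pt c').1 = (c'.1 : ℤ) := rfl
      have e3 : (pt c').2 = c'.2 := rfl
      rw [e2, e3]
      push_cast
      ring
    rwa [e1] at hzt
  have hztN : |zt| ≤ 4 * (Γ.N : ℤ) := by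
    have h1 : |x₀| ≤ (c'.1 : ℝ) + 1 + (n : ℝ) := by
      have a1 : |(c'.2 : ℝ)| ≤ (c'.1 : ℝ) + 1 := by
        rw [abs_le]
        obtain ⟨b1, b2⟩ := hcol
        have b3 : (1 : ℝ) ≤ c'.2 := by exact_mod_cast b1
        have b4 : (c'.2 : ℝ) ≤ (c'.1 : ℝ) + 1 := by exact_mod_cast b2
        have b5 : (0 : ℝ) ≤ (c'.1 : ℝ) := Nat.cast_nonneg _
        constructor <;> linarith
      have a2 : |(row : ℝ) - c'.1| ≤ (n : ℝ) := by
        have b1 : (row : ℤ) - c'.1 ≤ n := by omega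
        have b2 : -(n : ℤ) ≤ (row : ℤ) - c'.1 := by
          have := RG.lt (u + 1) (by omega) (by omega)
          omega
        rw [abs_le]
        constructor
        · exact_mod_cast b2
        · exact_mod_cast b1
      have a3 : |sl μ s * ((row : ℝ) - c'.1)| ≤ 1 * n := by
        rw [abs_mul]
        exact mul_le_mul (sl8 hI) a2 (abs_nonneg _) zero_le_one
      rw [hx₀]
      exact (abs_add_le _ _).trans (by linarith)
    have h2 : |(zt : ℝ)| ≤ 4 * (Γ.N : ℝ) := by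
      have b1 : |(zt : ℝ)| ≤ |(zt : ℝ) - x₀| + |x₀| := by
        calc |(zt : ℝ)| = |((zt : ℝ) - x₀) + x₀| := by rw [sub_add_cancel]
          _ ≤ _ := abs_add_le _ _
      have b2 : (c'.1 : ℝ) + n ≤ Γ.N := by exact_mod_cast r4
      have b3 : (0 : ℝ) ≤ (c'.1 : ℝ) := Nat.cast_nonneg _
      linarith
    exact_mod_cast h2
  have key := nsD6 (μ := μ) (s := s) (F := bh16 μ s Γ.h η Γ.p Γ.M Γ.N row) (fun y => (bh16_pos Γ.p_pos row y).le) (κ := pt c')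
    (T := Tg (h8 Q (ρ * e) n) k.K) (Mt := m8 k.K e n / 2) (b := u + 1) (row := row) (Tt := B * Tg (h8 Q (ρ * e) n) k.K (u + 1)) (A := A) (Φ := Φ) (σ := σ) (C₀ := C₀)
    (X := (n : ℝ) ^ e₁) (sc := sc) (yy := c / 96) (K₁ := 1) (σ' := c / 32) (x₀ := x₀) hb1 (by rw [hrw]; exact hLr) hA hσ.le hsc0.le
    (by positivity) zero_le_one hTtT (by linarith) (by linarith) (hG.wB (u + 1) (by omega)) ?_ (zt := zt) ?_ ?_
    (fun v => HB η hη row (u + 1) (by omega) (by omega) (by omega) hztN ?_) ?_ hσ'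
  · exact key
  · have h1 : (1 : ℝ) ≤ (n : ℝ) ^ e₁ := Real.one_le_rpow (by linarith) he₁.le
    have h2 : 2 * wd μ s (Tg (h8 Q (ρ * e) n) k.K (u + 1)) ≤ 2 * (n : ℝ) ^ e₁ * wd μ s (Tg (h8 Q (ρ * e) n) k.K (u + 1)) :=
      mul_le_mul_of_nonneg_right (by linarith) (by linarith)
    exact h2.trans hX2
  · linarith
  · linarith
  · linarith
  · have h1 : (n : ℝ) ^ e₁ * wd μ s (B * Tg (h8 Q (ρ * e) n) k.K (u + 1)) ≤ (n : ℝ) ^ e₁ * (C₀ * wd μ s (Tg (h8 Q (ρ * e) n) k.K (u + 1))) :=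
      mul_le_mul_of_nonneg_left (hG.wB (u + 1) (by omega)) (by positivity)
    have h2 := mul_le_mul_of_nonneg_left hX1 (show 0 ≤ c / 96 by positivity)
    have h3 : c / 96 * (C₀ * (96 / c) * (n : ℝ) ^ e₁ * wd μ s (Tg (h8 Q (ρ * e) n) k.K (u + 1))) = (n : ℝ) ^ e₁ * (C₀ * wd μ s (Tg (h8 Q (ρ * e) n) k.K (u + 1))) := by
      field_simp
    rw [h3] at h2
    exact h1.trans h2

end

end Pool.Agent.W_7d29a1_C1.Ns6
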