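import Pool.Agent.W_7d29a1_C1.TwF63
import Pool.Agent.W_7d29a1_C1.NsG94

/-!
MP_7d29a1_pr, the attractor route [C1], FIELD nu: THE GEOMETRIC HYPOTHESES OF `ns_slab6` (helper6) AT A SCALE WHICH IS NOT FELT. (helper63)

**`nsU63`**: from `TwC63` (the tower is one piece), the grid `GW` and the geometry `GS : Gm` of the separation with the same scales: one chain
of slabs from below the ball `Av` to the upper edge of the scale `u + 1`, the coarse rows below it, one place of this edge next to the line of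
the contact, the lower bound of the kernel from every site of the ball to this place, the two widths.
-/

set_option autoImplicit false

namespace Pool.Agent.W_7d29a1_C1.TwS63

open MeasureTheory ProbabilityTheory Finset Filter
open Pool.Agent.W_7d29a1_F Pool.Agent.W_7d29a1_h4g Pool.Agent.W_7d29a1_H Pool.Agent.W_7d29a1_HS
open Pool.Agent.W_7d29a1_C1.S71 Pool.Agent.W_7d29a1_C1.H40 Pool.Agent.W_7d29a1_C1.Dep6
open Pool.Agent.W_7d29a1_C1.H75 Pool.Agent.W_7d29a1_C1.U16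
open Pool.Agent.W_7d29a1_C1.FarK89 (gr gr_nonneg gr_one_le gr_mono)
open Pool.Agent.W_7d29a1_C1.FarW89 (nk Slabs)
open Pool.Agent.W_7d29a1_C1.TpF63 Pool.Agent.W_7d29a1_C1.PcS63
open Pool.Agent.W_7d29a1_C1.T10 (Gd GW pt Tg Hg Tg_zero Tg_pos Tg_Hg lat_tri lat_swap)
open Pool.Agent.W_7d29a1_C1.H60 (Cx)
open Pool.Agent.W_7d29a1_C1.G37 (Gm)
open Pool.Agent.W_7d29a1_C1.H77 (Zt77 lc77 uc77)
open Pool.Agent.W_7d29a1_C1.TmR89 (la89 co89 Hl89)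
open Pool.Agent.W_7d29a1_C1.FA25 (Av rr lr la_nonneg)

noncomputable section

variable {μ : Measure ℝ} [IsProbabilityMeasure μ] {s c : ℝ}

/-- **THE GEOMETRIC HYPOTHESES OF `ns_slab6`.** -/
theorem nsU63 {α₀ Kw θ ε C₃ : ℝ} {K₁ P j₁ m₂ : ℕ} (hC₃ : 0 ≤ C₃) (hθ : 0 ≤ θ)
    (H : TwC63 μ s c α₀ K₁ Kw θ 2 ε P j₁ C₃ m₂) {R C₀ : ℝ} {B h₀ K L : ℕ} {G : Gd} (g : GW μ s R B C₀ h₀ K L G) (hK : K₁ ≤ K)
    (hBθ : 8 * B * θ ≤ 1) {GS : Gm} (hv : GS.v = sl μ s) (hT : ∀ u, 1 ≤ u → GS.T u = Tg h₀ K u) (hw : ∀ u, GS.w u = wd μ s (GS.T u))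
    {Af af gf Af' af' gf' q₀ th : ℝ} {F F' : Cut (ℕ × ℤ) → Cut (ℕ × ℤ) → ℝ → Set Env} {E : Cut (ℕ × ℤ) → Cut (ℕ × ℤ) → Set Env}
    {D n₁ : ℕ} (hF : LvF μ Af af gf F) (hF' : LvF μ Af' af' gf' F')
    (hsub : ∀ a b q, F a b q ⊆ lvS μ s c θ Kw P (Hl89 B (Tg h₀ K)) (co89 μ s) a b q ∩ tpS μ s c θ Kw ε P j₁ (co89 μ s) a b q)
    (hq : 0 ≤ q₀) (hth : 1 ≤ th) (hthα : th ≤ (K : ℝ) ^ α₀) (hn1 : m₂ ≤ n₁) (hn2 : n₁ ≤ h₀) {x : ℕ × ℤ} {u τ0 : ℕ} {η : Env} {Γ : Cx}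
    (hΓs : Γ.s = s) (hok : NFL (dLI6 F F' E q₀ th D) lb6 (Zt77 G (Tg h₀ K) L x) u η) (hu : 1 ≤ u) (huL : u + 1 ≤ L) (huD : u + 1 < D)
    (hτ : τ0 < u) (hx : 2 * (GS.T (u - 1) : ℤ) ≤ x.1)
    (hh : |Γ.h| * wd μ s (B * Tg h₀ K (u + 1)) ≤ c / 8 * EE μ s (B * Tg h₀ K (u + 1))) :
    ∃ (r Hh Nr : ℕ → ℕ) (q' : ℕ → ℝ) (bs : ℕ → Pt) (i₁ i₂ : ℕ) (zt : ℤ), i₁ < i₂ ∧
      Slabs μ s c θ (Kw - 2) Γ.h P η (pt x) r Hh Nr q' bs i₁ i₂ (B * Tg h₀ K (u + 1)) n₁ (C₃ * (1 + q₀ * th) ^ 2) ∧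
      (r i₂ : ℤ) = ((G.z (u + 1) x).1 : ℤ) + (Tg h₀ K (u + 1) : ℤ) ∧ (r i₁ : ℤ) ≤ (x.1 : ℤ) - 2 * (GS.T (u - 1) : ℤ) ∧
      (∀ e : ℕ, (e : ℤ) ∈ GS.fr u τ0 x → e ≤ r i₂) ∧ |GS.lat (r i₂, zt) - GS.lat x| ≤ 1 ∧
      (∀ (i : ℕ) (z : ℤ), (i, z) ∈ Av GS u τ0 x → i < r i₂ →
        Real.exp (-(C₃ * (1 + q₀ * th) ^ 2 * gr (2 * P) 2 * EE μ s (B * Tg h₀ K (u + 1)))) ≤ nk μ s Γ.h η Γ.p Γ.M i (r i₂ - i) z zt) ∧
      1 ≤ wd μ s (B * Tg h₀ K (u + 1)) ∧ GS.w u ≤ wd μ s (B * Tg h₀ K (u + 1)) ∧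
      wd μ s (B * Tg h₀ K (u + 1)) ≤ C₀ * GS.Cw * GS.w u := by
  obtain ⟨Tt, hTt⟩ : ∃ Tt : ℕ, Tt = B * Tg h₀ K (u + 1) := ⟨_, rfl⟩
  obtain ⟨T1, hT1⟩ : ∃ T1 : ℕ, T1 = Tg h₀ K (u + 1) := ⟨_, rfl⟩
  -- the widths
  have w1 : 1 ≤ wd μ s Tt := by
    rw [hTt]
    exact (g.w1 (show 1 ≤ u + 1 by omega)).trans (g.wB' (u + 1) (by omega))
  have ew : GS.w (u + 1) = wd μ s (Tg h₀ K (u + 1)) := by rw [hw, hT _ (by omega)]
  have w2 : GS.w u ≤ wd μ s Tt := by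
    have h1 := GS.w_mono (Nat.le_succ u)
    have h2 := g.wB' (u + 1) (by omega)
    rw [← ew, ← hTt] at h2
    exact h1.trans h2
  have w3 : wd μ s Tt ≤ C₀ * GS.Cw * GS.w u := by
    have h1 := g.wB (u + 1) (by omega)
    rw [← ew, ← hTt] at h1
    have h2 := mul_le_mul_of_nonneg_left (GS.w_up u) (show 0 ≤ C₀ by linarith [g.C1])
    calc wd μ s Tt ≤ C₀ * GS.w (u + 1) := h1
      _ ≤ C₀ * (GS.Cw * GS.w u) := h2
      _ = _ := by ring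
  -- the rows
  have z1 : ((G.z (u + 1) x).1 : ℤ) ≤ x.1 := by exact_mod_cast Gd.row_le (u + 1) x
  have z0 : ((G.z u x).1 : ℤ) ≤ x.1 := by exact_mod_cast Gd.row_le u x
  have z2 : (x.1 : ℤ) < (G.z (u + 1) x).1 + G.H (u + 1) := by exact_mod_cast g.ok.row_lt huL x
  have t1 : (Tg h₀ K (u + 1) : ℤ) = GS.T (u + 1) := by rw [hT _ (by omega)]
  have t0 : (Tg h₀ K u : ℤ) = GS.T u := by rw [hT _ hu]
  have tH := g.TH (v := u + 1) (by omega)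
  have t3 := GS.T_lt8 (show u < u + 1 by omega)
  have t4 := GS.T_lt8 (show u - 1 < u by omega)
  have t5 := GS.T_pos' (u - 1)
  have t6 : (Tg h₀ K (u + 1) : ℤ) = 2 * (G.H (u + 1) : ℤ) := by exact_mod_cast tH
  have el : (lc77 G (Tg h₀ K) x u).row = ((G.z u x).1 : ℤ) - (Tg h₀ K u : ℤ) := rfl
  have eu : (uc77 G (Tg h₀ K) x (u + 1)).row = ((G.z (u + 1) x).1 : ℤ) + (Tg h₀ K (u + 1) : ℤ) := rfl
  have hTtR : ((B * Tg h₀ K (u + 1) : ℕ) : ℝ) = (B : ℝ) * (Tg h₀ K (u + 1) : ℝ) := by push_cast; ring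
  -- the condition of the start
  have hi : ∀ i : ℕ, (i : ℤ) ≤ x.1 + 2 * GS.T (u - 1) → (i : ℝ) + θ * ((B * Tg h₀ K (u + 1) : ℕ) : ℝ) ≤
      (((uc77 G (Tg h₀ K) x (u + 1)).row : ℤ) : ℝ) := by
    intro i hi
    have h1 : 8 * (i : ℤ) + (Tg h₀ K (u + 1) : ℤ) ≤ 8 * (((G.z (u + 1) x).1 : ℤ) + (Tg h₀ K (u + 1) : ℤ)) := by linarith
    have h2 : 8 * (i : ℝ) + (Tg h₀ K (u + 1) : ℝ) ≤ 8 * (((G.z (u + 1) x).1 : ℝ) + (Tg h₀ K (u + 1) : ℝ)) := by exact_mod_cast h1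
    have h3 : (0 : ℝ) ≤ (Tg h₀ K (u + 1) : ℝ) := Nat.cast_nonneg _
    have h4 := mul_le_mul_of_nonneg_right hBθ h3
    rw [eu, hTtR]
    push_cast
    linarith
  have hκ : |lat16 μ s (pt x) (pt x)| ≤ wd μ s (B * Tg h₀ K (u + 1)) := by
    have e : lat16 μ s (pt x) (pt x) = 0 := by
      unfold lat16
      push_cast
      ring
    rw [e, abs_zero, ← hTt]
    linarith
  have hq1 : q₀ * th ^ 1 = q₀ * th := by rw [pow_one]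
  have key := fun (k : ℕ) (z : ℤ) => H g hK hBθ hF hF' hsub hq hth hthα hn1 hn2 hΓs hok (a := 1) (b := u) (d := u + 1) hu (Nat.le_succ u)
    huL (Nat.le_succ u) le_rfl huD hκ hh k z
  rw [hq1] at key
  -- the place
  have elat : ∀ (i : ℕ) (z : ℤ), lat16 μ s (pt x) ((i : ℤ), z) = GS.lat (i, z) - GS.lat x := fun i z =>
    Pool.Agent.W_7d29a1_C1.Ge74.lat_eq' hv x (i, z)
  obtain ⟨rt, hrt⟩ : ∃ rt : ℕ, (rt : ℤ) = ((G.z (u + 1) x).1 : ℤ) + (Tg h₀ K (u + 1) : ℤ) :=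
    ⟨(G.z (u + 1) x).1 + Tg h₀ K (u + 1), by push_cast; ring⟩
  obtain ⟨zt, hzt⟩ : ∃ zt : ℤ, |lat16 μ s (pt x) ((rt : ℤ), zt)| ≤ 1 := by
    refine ⟨⌊(x.2 : ℝ) + sl μ s * ((rt : ℝ) - (x.1 : ℝ))⌋, ?_⟩
    have h1 := Int.floor_le ((x.2 : ℝ) + sl μ s * ((rt : ℝ) - (x.1 : ℝ)))
    have h2 := Int.lt_floor_add_one ((x.2 : ℝ) + sl μ s * ((rt : ℝ) - (x.1 : ℝ)))
    have e : lat16 μ s (pt x) ((rt : ℤ), ⌊(x.2 : ℝ) + sl μ s * ((rt : ℝ) - (x.1 : ℝ))⌋) =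
        (⌊(x.2 : ℝ) + sl μ s * ((rt : ℝ) - (x.1 : ℝ))⌋ : ℝ) - ((x.2 : ℝ) + sl μ s * ((rt : ℝ) - (x.1 : ℝ))) := by
      unfold lat16
      show (((⌊(x.2 : ℝ) + sl μ s * ((rt : ℝ) - (x.1 : ℝ))⌋ - x.2 : ℤ)) : ℝ) - sl μ s * (((rt : ℤ) - (x.1 : ℤ) : ℤ) : ℝ) = _
      push_cast
      ring
    rw [e, abs_le]
    constructor <;> linarith
  -- the first row
  obtain ⟨k, hk⟩ : ∃ k : ℕ, k = (((G.z u x).1 : ℤ) - (Tg h₀ K u : ℤ)).toNat := ⟨_, rfl⟩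
  have hk1 : (lc77 G (Tg h₀ K) x u).row ≤ k := by
    rw [el, hk]
    exact Int.self_le_toNat _
  have hk2 : (k : ℤ) ≤ (x.1 : ℤ) - 2 * (GS.T (u - 1) : ℤ) := by
    rw [hk]
    rcases le_total 0 (((G.z u x).1 : ℤ) - (Tg h₀ K u : ℤ)) with h1 | h1
    · rw [Int.toNat_of_nonneg h1]
      linarith
    · rw [Int.toNat_of_nonpos h1]
      push_cast
      linarith
  obtain ⟨r, Hh, Nr, q', bs, i₁, i₂, h12, hr1, hr2, SL, -⟩ := key k x.2 hk1 (hi k (by linarith))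
  have hri : r i₂ = rt := by
    have : (r i₂ : ℤ) = rt := by rw [hr2, hrt, eu]
    exact_mod_cast this
  refine ⟨r, Hh, Nr, q', bs, i₁, i₂, zt, h12, SL, by rw [hr2, eu], by rw [hr1]; exact hk2, fun e he => ?_, ?_, fun i z hiz hir => ?_, ?_, ?_,
    ?_⟩
  · have h1 := Pool.Agent.W_7d29a1_C1.Ge74.fr_up g.ok g.H hT hu huL hτ.le he
    have h2 : (e : ℤ) ≤ r i₂ := by rw [hr2, eu]; exact h1.le
    exact_mod_cast h2
  · rw [hri, ← elat]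
    exact hzt
  · obtain ⟨a1, a2⟩ := hiz
    have a1' : |((i : ℕ) : ℤ) - x.1| ≤ rr GS u τ0 := a1
    have a2' : |GS.lat (i, z) - GS.lat x| ≤ lr GS u τ0 := a2
    have b1 : |((i : ℕ) : ℤ) - x.1| ≤ 2 * GS.T (u - 1) := by
      refine a1'.trans ?_
      unfold rr
      have h2 := GS.T_pos' (τ0 + 1 - GS.m2)
      omega
    have b2 : |lat16 μ s (pt x) ((i : ℤ), z)| ≤ wd μ s Tt := by
      rw [elat]
      refine a2'.trans (le_trans ?_ w2)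
      unfold lr
      have h1 := GS.w_mono (show u - 1 ≤ u by omega)
      have h2 := mul_nonneg (la_nonneg (G := GS)) (GS.w_pos (τ0 + 1 - GS.m2)).le
      linarith
    have b3 := abs_le.1 b1
    obtain ⟨r', Hh', Nr', q'', bs', j₁', j₂', -, -, hr2', -, LOW⟩ := key i z (by rw [el]; linarith) (hi i (by linarith))
    have hri' : r' j₂' = rt := by
      have : (r' j₂' : ℤ) = rt := by rw [hr2', hrt, eu]
      exact_mod_cast this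
    have h1 := LOW zt (by
      rw [eu, ← hrt]
      rw [← hTt]
      refine (abs_sub _ _).trans ?_
      linarith)
    rw [hri'] at h1
    rw [hri]
    refine le_trans (Real.exp_le_exp.2 (neg_le_neg ?_)) h1
    have hE := (EE_pos (μ := μ) (s := s) (B * Tg h₀ K (u + 1))).le
    refine mul_le_mul_of_nonneg_right (mul_le_mul_of_nonneg_left ?_ (by positivity)) hE
    rw [← hTt]
    have h4 : 0 ≤ |lat16 μ s (pt x) ((i : ℤ), z)| / wd μ s Tt := div_nonneg (abs_nonneg _) (by linarith)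
    refine gr_mono (2 * P) (by linarith) ?_
    have h5 : |lat16 μ s (pt x) ((i : ℤ), z)| / wd μ s Tt ≤ 1 := by
      rw [div_le_one (by linarith)]
      exact b2
    linarith
  · rw [← hTt]; exact w1
  · rw [← hTt]; exact w2
  · rw [← hTt]; exact w3

end

end Pool.Agent.W_7d29a1_C1.TwS63
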