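import Pool.Agent.W_7d29a1_C1.TmU51
import Pool.Agent.W_7d29a1_C1.NsU63
import Pool.Agent.W_7d29a1_C1.NsS6
import Pool.Agent.W_7d29a1_C1.NsN84

/-!
MP_7d29a1_pr, [C1], FIELD nu: **THE CLAUSE NS** (`NsQ51`). (helper84)

Depths: the levels and tops of the layers of the tower of the contact (`twF63`), no depth of nodes. At a scale which is not felt the slabs
and the lower bound from every start of the ball (`nsU63`), (D2) at the upper edge `u + 1` from `Lr31` and the crude bound (`d2top84`, `bad84`),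
`ns_slab6`.
-/

set_option autoImplicit false
set_option linter.unusedSectionVars false

namespace Pool.Agent.W_7d29a1_C1.NsN84

open MeasureTheory ProbabilityTheory Filter Topology Finset
open Pool.Agent.W_7d29a1_F Pool.Agent.W_7d29a1_h4g Pool.Agent.W_7d29a1_H Pool.Agent.W_7d29a1_HS
open Pool.Agent.W_7d29a1_C1.T10 (Gd pt Tg Hg GW Tg_pos Tg_mono)
open Pool.Agent.W_7d29a1_C1.H60 (Cx Adm)
open Pool.Agent.W_7d29a1_C1.H40 (Tk Cut)
open Pool.Agent.W_7d29a1_C1.G37 (Gm Wok)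
open Pool.Agent.W_7d29a1_C1.H8 (h8 m8 GridN8 gridN8 S8)
open Pool.Agent.W_7d29a1_C1.TpZ70
open Pool.Agent.W_7d29a1_C1.U16 (bh16 bh16_pos CrY16 lat16)
open Pool.Agent.W_7d29a1_C1.H77 (Zt77 uc77 lc77)
open Pool.Agent.W_7d29a1_C1.Dep6
open Pool.Agent.W_7d29a1_C1.D31 (Lr31)
open Pool.Agent.W_7d29a1_C1.NS94 (NS)
open Pool.Agent.W_7d29a1_C1.Nu51
open Pool.Agent.W_7d29a1_C1.TmR89 (Hl89 co89)
open Pool.Agent.W_7d29a1_C1.TwS63
open Pool.Agent.W_7d29a1_C1.TpF63 (tpS)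
open Pool.Agent.W_7d29a1_C1.Win84 (LB84 ev84)
open Pool.Agent.W_7d29a1_C1.FarK89 (gr gr_nonneg gr_one_le)
open Pool.Agent.W_7d29a1_C1.Ns6 (ns_slab6)
open Pool.Agent.W_7d29a1_C1.FarW89 (nk Slabs)
open scoped ENNReal

noncomputable section

variable {μ : Measure ℝ} [IsProbabilityMeasure μ] {s c C : ℝ} {n₀ : ℕ}

/-- No depth of nodes. -/
theorem dp3_zero84 {Λ : Type*} (z : ℝ≥0∞) : Dp3 μ z 2 (fun _ _ _ : Cut Λ => fun _ : Env => 0) := by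
  have hP : IsProbabilityMeasure (law μ) := by unfold law; infer_instance
  refine ⟨fun _ _ _ => measurable_const, fun _ _ _ _ _ _ => rfl, fun a b e => ?_⟩
  simp only [pow_zero, lintegral_const, measure_univ, mul_one]
  norm_num

/-- The number of the scales is large. -/
theorem m8_large84 {e : ℝ} (he : 0 < e) (he1 : e ≤ 1 / 32) {K : ℕ} (hK : 2 ≤ K) (X : ℝ) : ∀ᶠ n : ℕ in atTop, X ≤ m8 K e n := by
  have hlK : 0 < Real.log K := Real.log_pos (by exact_mod_cast (by omega : 1 < K))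
  filter_upwards [gridN8 (x := 0) (Q := 1) he he1 he le_rfl hK le_rfl,
    (Real.tendsto_log_atTop.comp tendsto_natCast_atTop_atTop).eventually_ge_atTop (X / (e / (8 * Real.log K)))] with n g h
  have h1 : (0 : ℝ) < e / (8 * Real.log K) := by positivity
  have h2 : X / (e / (8 * Real.log K)) ≤ Real.log n := h
  rw [div_le_iff₀ h1] at h2
  have := g.m1
  linarith

theorem nsQ84 (h0 : In μ s c C n₀) (hL : LB84 μ s) (HY : CrY16 μ s) : NsQ51 μ s := by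
  have hc0 := h0.c0
  obtain ⟨α₀, K₁, hα₀, hα₁, hK₁, HF⟩ := twF63 h0
  intro Φ hΦ ρ hρ hρ1 e he he1
  -- the ratio
  obtain ⟨K₃, hK₃⟩ : ∃ K₃ : ℕ, (17 / 16 : ℝ) ≤ (K₃ : ℝ) ^ α₀ := by
    obtain ⟨K₃, h⟩ := ((tendsto_rpow_atTop hα₀).comp tendsto_natCast_atTop_atTop).eventually_ge_atTop (17 / 16 : ℝ) |>.exists
    exact ⟨K₃, h⟩
  refine ⟨max K₁ K₃, fun K hKK R B C₀ hR hB hC => ?_⟩
  have k1 : K₁ ≤ K := (le_max_left _ _).trans hKK
  have k3 : K₃ ≤ K := (le_max_right _ _).trans hKK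
  have hK2 : 2 ≤ K := hK₁.trans k1
  have hth : (17 / 16 : ℝ) ≤ (K : ℝ) ^ α₀ := hK₃.trans (Real.rpow_le_rpow (Nat.cast_nonneg _) (by exact_mod_cast k3) hα₀.le)
  have hBR : (2 : ℝ) ≤ B := by exact_mod_cast hB
  obtain ⟨θ, hθe⟩ : ∃ θ : ℝ, θ = 1 / (8 * B) := ⟨_, rfl⟩
  have hθ : 0 < θ := by rw [hθe]; positivity
  have hθ2 : θ ≤ 1 / 2 := by
    rw [hθe, div_le_div_iff₀ (by positivity) (by norm_num)]
    linarith
  have hθB : 8 * B * θ ≤ 1 := by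
    rw [hθe, mul_one_div, div_self (by positivity)]
  obtain ⟨P, j₁, nl, Af, af, gf, hP, hnl, hAf, haf, hgf, hgf1, hLv, C₃, m₂, hC₃, hm₂, HT⟩ :=
    HF (Kw := 16) (θ := θ) (A₀ := 2) (ε := α₀) (by norm_num) (by norm_num) hθ hθ2 hα₀ le_rfl
  obtain ⟨n₁, hn₁, HS⟩ := ns_slab6 h0 P
  obtain ⟨σ₀, hσ₀⟩ : ∃ σ₀ : ℝ, σ₀ = c / (32 * C₀) := ⟨_, rfl⟩
  refine ⟨σ₀, by rw [hσ₀]; positivity, fun σ ε hσ hσσ hε => ⟨Af, af, gf, Af, af, gf, 17 / 16, hAf, haf, hgf, hAf, haf, hgf, by norm_num,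
    fun z δ₀ hz hδ₀ A hA k hk => ?_⟩⟩
  have hσC : σ * C₀ ≤ c / 32 := by
    have h1 := mul_le_mul_of_nonneg_right hσσ (show 0 ≤ C₀ by linarith)
    have h2 : σ₀ * C₀ = c / 32 := by rw [hσ₀]; field_simp
    linarith
  obtain ⟨Y₀, hY₀, HD⟩ := depI6 (μ := μ) (th := 17 / 16) (z := z) hAf haf hgf hAf haf hgf (by norm_num) hz
  obtain ⟨Qs, hQs⟩ : ∃ Qs : ℝ, Qs = C₃ * (1 + Y₀ * (17 / 16)) ^ 2 := ⟨_, rfl⟩
  have hQs0 : 0 ≤ Qs := by rw [hQs]; positivity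
  have hgr : 0 ≤ gr (2 * P) 2 := gr_nonneg _ (by norm_num)
  -- the thresholds of `m0`
  obtain ⟨m00, HS⟩ := HS Qs 1 (Qs * gr (2 * P) 2) A k.η (C₀ * (2 * k.K : ℕ)) k.A hQs0 zero_le_one (mul_nonneg hQs0 hgr) hA k.hη.le (by
    have h1 : (1 : ℝ) ≤ (2 * k.K : ℕ) := by
      rw [hk]
      exact_mod_cast (by omega : 1 ≤ 2 * K)
    exact one_le_mul_of_one_le_of_one_le hC h1)
  obtain ⟨mb, hmb⟩ : ∃ mb : ℕ, k.kn + 2 * k.kb ≤ 2 ^ mb := by
    obtain ⟨mb, h⟩ := pow_unbounded_of_one_lt (k.kn + 2 * k.kb) (one_lt_two : (1 : ℝ) < 2)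
    exact ⟨mb, h.le⟩
  refine ⟨max mb m00, fun m hm m₁ hm₁ => ⟨1, 1, one_pos, one_pos, fun c₂ hc₂ hc₂s δ' hδ' hδc => ?_⟩⟩
  obtain ⟨e₁, he₁, HX⟩ := far84 h0 he he1 hK2 (show 1 ≤ B by omega)
  have hρe : 0 < ρ * e := mul_pos hρ he
  have hρee : ρ * e ≤ e := mul_le_of_le_one_left he.le hρ1
  obtain ⟨κ₀, hκ₀, Hbad⟩ := bad84 h0 hL HY he he1 hρe hρee he₁
  refine ⟨κ₀, hκ₀, fun κ hκ hκκ => ⟨1, le_rfl, fun Q _ hQ => ?_⟩⟩
  obtain ⟨σb, hσb⟩ : ∃ σb : ℝ, σb = min 1 (c / 64) := ⟨_, rfl⟩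
  have hσb0 : 0 < σb := by rw [hσb]; exact lt_min one_pos (by positivity)
  have hσb1 : σb ≤ 1 := by rw [hσb]; exact min_le_left _ _
  have hσb2 : σb ≤ c / 64 := by rw [hσb]; exact min_le_right _ _
  filter_upwards [gridN8 (x := (k.up m).m0 + m₁) he he1 hρe hρee hK2 hQ,
    Hbad (K := K) (B := B) (Q := Q) hK2 (by omega) hQ ((k.up m).m0 + m₁) (σ := σb) (K₁ := 1) hσb0 hσb1 le_rfl,
    HX hρe hρee hQ (64 / c), ev84 (max (nl : ℝ) (max (m₂ : ℝ) n₁)) (show (0 : ℝ) < ρ * e / 4 by positivity),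
    m8_large84 he he1 hK2 (max 32 ((k.τ₀ + 1) / ε)), rows84 h0 hL (show (0 : ℝ) < ρ * e / 4 by positivity),
    force84 h0 hL (B / 4) (by positivity), eventually_ge_atTop 8] with n g hbad hX a1 a2 hrows hforce hn8
  intro E₀ hE₀ G hG hW Γ hA'
  obtain ⟨bad, hb, hcr⟩ := hbad (by linarith) hδ'.le hκκ hA'
  obtain ⟨h, hh⟩ : ∃ h : ℕ, h = h8 Q (ρ * e) n := ⟨_, rfl⟩
  obtain ⟨M, hM⟩ : ∃ M : ℕ, M = m8 K e n := ⟨_, rfl⟩
  obtain ⟨D, hD⟩ : ∃ D : ℕ, D = M + 3 := ⟨_, rfl⟩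
  have hnR : (8 : ℝ) ≤ n := by exact_mod_cast hn8
  have gh1 := g.h1
  have hh0 : max (nl : ℝ) (max (m₂ : ℝ) n₁) ≤ (h8 Q (ρ * e) n : ℝ) := a1.trans gh1
  have hhl : nl ≤ h8 Q (ρ * e) n := by exact_mod_cast (le_max_left _ _).trans hh0
  have hhm : m₂ ≤ h8 Q (ρ * e) n := by exact_mod_cast (le_max_left _ _).trans ((le_max_right _ _).trans hh0)
  have hhn : n₁ ≤ h8 Q (ρ * e) n := by exact_mod_cast (le_max_right _ _).trans ((le_max_right _ _).trans hh0)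
  rw [← hh] at hhl hhm hhn gh1
  have hTlo : ∀ v, 1 ≤ v → h ≤ Tg h K v := fun v hv => by
    unfold Tg
    rw [if_neg (by omega)]
    have h1 : 1 ≤ K ^ v := Nat.one_le_pow _ _ (by omega)
    exact (Nat.le_mul_of_pos_left h (by omega)).trans (Nat.le_mul_of_pos_right _ h1)
  have hHl : ∀ a b : Cut (ℕ × ℤ), nl ≤ Hl89 B (Tg h K) a b := fun a b => by
    unfold Hl89
    have h1 := hTlo (max (lb6 a b) 1) (le_max_right _ _)
    exact (hhl.trans h1).trans (Nat.le_mul_of_pos_left _ (by omega))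
  have hF := hLv (Hl89 B (Tg h K)) hHl (co89 μ s)
  have hE2 : Ev2 μ 0 (fun _ _ : Cut (ℕ × ℤ) => Set.univ) := Ev2.univ μ
  have hE3 : Ev3 μ 0 (fun _ _ _ : Cut (ℕ × ℤ) => Set.univ) := Ev3.univ μ
  obtain ⟨d1, d2, -⟩ := HD Y₀ le_rfl D hF hF hE2 hE3 (by rw [mul_zero]; exact zero_le)
  have hm1 := g.m0
  have hE01 : 1 ≤ E₀ := by
    have h1 : (0 : ℝ) < δ₀ * m8 K e n := by
      have : (0 : ℝ) < m8 K e n := by exact_mod_cast hm1
      positivity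
    have h2 : (0 : ℝ) < E₀ := h1.trans_le hE₀
    exact_mod_cast h2
  refine ⟨_, fun _ _ _ _ => 0, 2, _, Y₀, ∅, lb6, lbN6, bad, by norm_num, le_rfl, d1, dp3_zero84 _, by simp, hY₀,
    fun a b => d2 E₀ a b hE01, le_rfl, hb, ?_⟩
  intro η hη x hx hw u hu1 hu2 hok _ h16 hLr
  rw [← hM] at hu1 hu2 h16 hLr a2
  have hM32 : (32 : ℝ) ≤ M := (le_max_left _ _).trans a2
  have hM32' : 32 ≤ M := by exact_mod_cast hM32
  -- the scale
  have hu0 : (k.τ₀ : ℝ) + 1 ≤ u := by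
    have h1 : (k.τ₀ + 1) / ε ≤ (M : ℝ) := (le_max_right _ _).trans a2
    rw [div_le_iff₀ hε] at h1
    linarith
  have hu0' : k.τ₀ < u := by exact_mod_cast (show (k.τ₀ : ℝ) < u by linarith)
  have hu : 1 ≤ u := by omega
  have huM : u + 1 ≤ M / 2 := by omega
  have hw0 : 0 < Γ.w x η := (Real.exp_pos _).trans_le hw
  obtain ⟨L, hLL⟩ : ∃ L : ℕ, L = M + ((k.up m).m0 + m₁) := ⟨_, rfl⟩
  have hG' := hG
  have rg := rg70 hG g (by linarith) (by omega) hx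
  have hcol := col_w70 hw0
  rw [← hh, ← hM, ← hLL] at hG' rg
  obtain ⟨Tt, hTt⟩ : ∃ Tt : ℕ, Tt = B * Tg h K (u + 1) := ⟨_, rfl⟩
  have hmono : ∀ {v w : ℕ}, v ≤ w → Tg h K v ≤ Tg h K w := fun hvw => Tg_mono (by omega) hvw
  have hK8 := hW.hK
  -- the force
  have hf : |Γ.h| * wd μ s Tt ≤ c / 8 * EE μ s Tt := by
    refine hforce hδ'.le hA' Tt ?_
    have h1 := g.TL
    rw [← hh, ← hM, ← hLL] at h1
    have h2 : (Tg h K (u + 1) : ℝ) ≤ Tg h K L := by exact_mod_cast hmono (show u + 1 ≤ L by omega)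
    have h3 : (n : ℝ) ^ e ≤ (n : ℝ) ^ (1 / 32 : ℝ) := Real.rpow_le_rpow_of_exponent_le (by linarith) he1
    rw [hTt]
    push_cast
    have h4 : (Tg h K (u + 1) : ℝ) ≤ (n : ℝ) ^ (1 / 32 : ℝ) / 4 := by linarith
    calc (B : ℝ) * (Tg h K (u + 1) : ℝ) ≤ B * ((n : ℝ) ^ (1 / 32 : ℝ) / 4) := mul_le_mul_of_nonneg_left h4 (by linarith)
      _ = _ := by ring
  -- the rows
  have hTt0 : h ≤ Tt := by
    rw [hTt]
    exact (hTlo (u + 1) (by omega)).trans (Nat.le_mul_of_pos_left _ (by omega))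
  have hNE : (Γ.N : ℝ) + 1 ≤ Real.exp (EE μ s Tt) :=
    hrows (by linarith) hA' Tt (gh1.trans (by exact_mod_cast hTt0))
  -- the geometry of the separation
  obtain ⟨GS, hGS⟩ : ∃ GS : Gm, GS = (k.up m).G hW M := ⟨_, rfl⟩
  have hv : GS.v = sl μ s := by rw [hGS]; rfl
  have hTk : ∀ v, 1 ≤ v → Tk (2 * h8 Q (ρ * e) n) k.K v = Tg h K v := fun v hv => by
    unfold Tk Tg
    rw [if_neg (by omega), hk, hh]
  have hT : ∀ v, 1 ≤ v → GS.T v = Tg h K v := fun v hv => by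
    rw [hGS]
    exact hTk v hv
  have hwG : ∀ v, GS.w v = wd μ s (GS.T v) := fun v => by rw [hGS]; rfl
  have hx2 : 2 * (GS.T (u - 1) : ℤ) ≤ x.1 := by
    have t8 := GS.T_lt8 (show u - 1 < u by omega)
    have h1 := hT u hu
    have h2 : Tg h K u ≤ Tg h K L := hmono (by omega)
    have h3 := rg.lo
    have h4 := rg.le L
    omega
  have huL : u + 1 ≤ L := by omega
  have huD : u + 1 < D := by omega
  have hok1 := hok.1
  rw [← hh, ← hM, ← hLL] at hok1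
  obtain ⟨r, Hh, Nr, q', bs, i₁, i₂, zt, h12, SL, hr2, hr1, hfr, hzt, LOW, w1, w2, w3⟩ :=
    nsU63 (q₀ := Y₀) (th := 17 / 16) (D := D) (L := L) (n₁ := max m₂ n₁) (by linarith) hθ.le HT hG' k1 hθB hv hT hwG hF hF
      (fun _ _ _ => subset_rfl) (by linarith) (by norm_num) hth (le_max_left _ _) (max_le hhm hhn) hA'.hs hok1 hu huL huD hu0' hx2
      (by rw [← hTt]; exact hf)
  rw [← hTt, ← hQs] at SL LOW
  rw [← hTt] at w1 w2 w3
  have hrow : r i₂ = (G.z (u + 1) x).1 + Tg h K (u + 1) := by exact_mod_cast hr2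
  have hrN : r i₂ + 1 ≤ Γ.N := by
    have h1 := rg.le (u + 1)
    have h2 := hmono (show u + 1 ≤ L by omega)
    have h3 := rg.hi
    have h4 := rg.TL
    omega
  have SL' : Slabs μ s c θ (16 - 2) Γ.h P η (pt x) r Hh Nr q' bs i₁ i₂ Tt n₁ Qs :=
    { SL with
      Tt1 := (le_max_right _ _).trans SL.Tt1
      T1 := fun v a b => (le_max_right _ _).trans (SL.T1 v a b) }
  have hlat : |lat16 μ s (pt x) ((r i₂ : ℤ), zt)| ≤ 1 := by
    have h1 := Pool.Agent.W_7d29a1_C1.Ge74.lat_eq' hv x (r i₂, zt)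
    have h2 : lat16 μ s (pt x) ((r i₂ : ℤ), zt) = GS.lat (r i₂, zt) - GS.lat x := h1
    rw [h2]
    exact hzt
  -- the place of the top row
  have hzt4 : |zt| ≤ 4 * (Γ.N : ℤ) := by
    obtain ⟨s0, s1⟩ := sl_mem h0.em h0.nd s
    have h1 := hlat
    unfold lat16 at h1
    have h2 : |((zt - x.2 : ℤ) : ℝ) - sl μ s * (((r i₂ : ℤ) - (x.1 : ℤ) : ℤ) : ℝ)| ≤ 1 := h1
    have h3 : |(((r i₂ : ℤ) - (x.1 : ℤ) : ℤ) : ℝ)| ≤ (Γ.N : ℝ) := by
      have hx1 : x.1 ≤ Γ.N := by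
        have := rg.hi
        omega
      have : |((r i₂ : ℤ) - (x.1 : ℤ))| ≤ (Γ.N : ℤ) := by
        rw [abs_le]
        constructor <;> omega
      have h4 : ((|((r i₂ : ℤ) - (x.1 : ℤ))| : ℤ) : ℝ) ≤ ((Γ.N : ℤ) : ℝ) := by exact_mod_cast this
      rw [Int.cast_abs] at h4
      exact_mod_cast h4
    have h5 : |sl μ s * (((r i₂ : ℤ) - (x.1 : ℤ) : ℤ) : ℝ)| ≤ (Γ.N : ℝ) := by
      rw [abs_mul, abs_of_pos s0]
      have := mul_le_mul_of_nonneg_right s1.le (abs_nonneg (((r i₂ : ℤ) - (x.1 : ℤ) : ℤ) : ℝ))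
      linarith
    have h6 : |((zt - x.2 : ℤ) : ℝ)| ≤ (Γ.N : ℝ) + 1 := by
      have h7 := abs_add_le (((zt - x.2 : ℤ) : ℝ) - sl μ s * (((r i₂ : ℤ) - (x.1 : ℤ) : ℤ) : ℝ)) (sl μ s * (((r i₂ : ℤ) - (x.1 : ℤ) : ℤ) : ℝ))
      rw [sub_add_cancel] at h7
      linarith
    have h8 : |zt - x.2| ≤ (Γ.N : ℤ) + 1 := by
      have h9 : ((|zt - x.2| : ℤ) : ℝ) ≤ (((Γ.N : ℤ) + 1 : ℤ) : ℝ) := by
        rw [Int.cast_abs]
        push_cast at h6 ⊢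
        exact h6
      exact_mod_cast h9
    have h10 := rg.hi
    rw [abs_le] at h8 ⊢
    constructor <;> omega
  obtain ⟨F, hFe⟩ : ∃ F : ℤ → ℝ, F = bh16 μ s Γ.h η Γ.p Γ.M Γ.N (r i₂) := ⟨_, rfl⟩
  have hF0 : ∀ y, 0 ≤ F y := fun y => by
    rw [hFe]
    exact (bh16_pos Γ.p_pos _ _).le
  have hLr' : Lr31 μ s (pt x) (Tg h K) (M / 2) 2 A Φ σ F (r i₂) (u + 1) := by
    rw [hFe, hrow, hh]
    exact hLr
  have wMt : 1 ≤ wd μ s (Tg h K (M / 2)) := hG'.w1 (by omega)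
  have wB0 : 0 < wd μ s (B * Tg h K (u + 1)) := by rw [← hTt]; linarith
  have hcr' : ∀ v : ℤ, F v ≤ Real.exp (((n : ℝ) ^ e₁ + c / 64 * (|(v : ℝ) - zt| / wd μ s (B * Tg h K (u + 1)))) *
      EE μ s (B * Tg h K (u + 1))) * F zt := fun v => by
    have h1 := hcr η hη (u + 1) (by omega) (by omega) (r i₂) hrN (x₀ := (zt : ℝ)) (y := v) (y' := zt) hzt4 (by
      rw [sub_self, abs_zero, one_mul, ← hh]
      exact wB0.le)
    rw [← hh, ← hFe] at h1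
    refine h1.trans (mul_le_mul_of_nonneg_right (Real.exp_le_exp.2 (mul_le_mul_of_nonneg_right ?_ (EE_pos _).le)) (hF0 zt))
    have h2 : 0 ≤ |(v : ℝ) - zt| / wd μ s (B * Tg h K (u + 1)) := by positivity
    have h3 := mul_le_mul_of_nonneg_right hσb2 h2
    linarith
  have hX' : 64 / c * ((n : ℝ) ^ e₁ * wd μ s (B * Tg h K (u + 1))) ≤ wd μ s (Tg h K (M / 2)) := by
    have h1 := hX u (by rw [← hM]; exact h16)
    rw [← hh, ← hM] at h1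
    exact h1
  have D2 : ∀ v : ℤ, F v ≤ Real.exp ((A + c / 32 * (|(v : ℝ) - zt| / wd μ s Tt)) * EE μ s Tt) * F zt := fun v => by
    rw [hTt]
    exact d2top84 h0 hA hσ.le hσC hF0 hLr' huM (by omega) (hG'.w1 (by omega)) wMt (hG'.wB (u + 1) (by omega)) wB0 hlat hcr' hX' v
  rw [hFe] at D2
  have key : η ∈ NS Γ GS ((k.up m).th μ s (2 * h8 Q (ρ * e) n)) (k.up m).m0 (k.up m).τ₀ u x := by
    refine HS h12.le hA'.hs hv SL' (by omega) hNE u (k.up m).τ₀ (k.up m).m0 x ((k.up m).th μ s (2 * h8 Q (ρ * e) n)) (c / 32) zt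
      ?_ hu0' ?_ (by positivity) le_rfl ?_ w2 ?_ hr1 ?_ (fun e' he' _ => hfr e' he') ?_ LOW D2
    · rw [k.up_m0]
      exact ((le_max_right _ _).trans hm).trans (Nat.le_add_left _ _)
    · have h1 : GS.lam = k.kn + 2 * k.kb := by rw [hGS]; rfl
      rw [h1, k.up_m0]
      refine hmb.trans (pow_le_pow_right₀ (by norm_num) ?_)
      exact ((le_max_left _ _).trans hm).trans (Nat.le_add_left _ _)
    · have h1 : (((pt x).2 : ℝ) - GS.v * ((pt x).1 : ℝ)) - GS.lat x = 0 := by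
        unfold Gm.lat
        show ((x.2 : ℝ) - GS.v * (((x.1 : ℕ) : ℤ) : ℝ)) - ((x.2 : ℝ) - GS.v * (x.1 : ℝ)) = 0
        push_cast
        ring
      rw [h1, abs_zero]
      linarith
    · have h1 : GS.Cw = 2 * k.K := by rw [hGS]; rfl
      rw [h1] at w3
      exact w3
    · intro j hj hjM
      show k.η * ((j - u : ℕ) : ℝ) ^ k.A * EE μ s (Tk (2 * h8 Q (ρ * e) n) k.K u) ≤ _
      refine mul_le_mul_of_nonneg_left (Pool.Agent.W_7d29a1_H.EE_mono ?_) (by have := k.hη; positivity)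
      rw [hTk u hu, hTt]
      exact (hmono (show u ≤ u + 1 by omega)).trans (Nat.le_mul_of_pos_left _ (by omega))
    · rw [one_mul]
      exact hzt.trans w1
  rw [hGS, hM] at key
  exact key

end

end Pool.Agent.W_7d29a1_C1.NsN84
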