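import Pool.Agent.W_7d29a1_C1.VTa31
import Pool.Agent.W_7d29a1_C1.Klv56

/-!
MP_7d29a1_pr, attractor route [C1], SHELL: THE NUMBERS OF `hdet` (helper31). `ND31` = the numbers, `Nu31` = the inequalities which `vt31`
(VT31) reads. Scales `T v = Tg h₀ Kg v`; `o` = level of the ball, `u` = scale of the separation, shells `l₁ ≤ l ≤ L` with the widths `Wd l`,
a good scale `v` of the shell `l` is in `[u + al l, u + l - 2]` (top shell: `l = lT`), its far masses are read at the distance scale `v + m0`.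
-/

set_option autoImplicit false

namespace Pool.Agent.W_7d29a1_C1.D31

open MeasureTheory Finset
open Pool.Agent.W_7d29a1_F Pool.Agent.W_7d29a1_h4g Pool.Agent.W_7d29a1_H Pool.Agent.W_7d29a1_HS
open Pool.Agent.W_7d29a1_C1.H75 Pool.Agent.W_7d29a1_C1.U16
open Pool.Agent.W_7d29a1_C1.FarK89 Pool.Agent.W_7d29a1_C1.FarW89
open Pool.Agent.W_7d29a1_C1.T10 (Tg)
open Pool.Agent.W_7d29a1_C1.H60 (Cx)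
open Pool.Agent.W_7d29a1_C1.G37 (Gm)

noncomputable section

/-- The numbers. -/
structure ND31 where
  o : ℕ
  u : ℕ
  L : ℕ
  l₁ : ℕ
  l₂ : ℕ
  l' : ℕ
  lT : ℕ
  lm : ℕ
  m0 : ℕ
  Mt : ℕ
  al : ℕ → ℕ
  nl : ℕ → ℕ
  nb : ℕ → ℕ → ℕ
  Wd : ℕ → ℝ
  κ : ℕ → ℝ
  r : ℕ → ℝ
  a : ℕ → ℝ
  /-- the price of a good scale -/
  κv : ℕ → ℝ
  K₁ : ℝ
  A : ℝ
  Φ : ℝ
  σ₁ : ℝ
  δ : ℝ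
  /-- the distance of the lines through the contact and through `z_t` -/
  D₀ : ℝ
  /-- the bound of the weights -/
  Lη : ℝ
  Bp : ℝ
  aT : ℝ
  u₁ : ℝ
  g₁ : ℝ
  κ₀ : ℝ
  R : ℝ
  sg : ℝ

/-- **THE INEQUALITIES.** -/
structure Nu31 (μ : Measure ℝ) (s c : ℝ) (P : ℕ) (Q Kw C₅ C₆ D₅ D₆ : ℝ) (GS : Gm) (B h₀ Kg : ℕ) (Γ : Cx) (ν : NV31) (t : ℕ) (d : ND31) :
    Prop where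
  -- the scales
  ts : ν.Ts = Tg h₀ Kg
  tO : t + ν.m₂ = d.o
  t1 : 1 ≤ t
  tj : ν.j₀ ≤ t
  uo : d.u + d.m0 + 1 ≤ d.o
  h12 : d.l₁ ≤ d.l₂
  h2L : d.l₂ < d.L
  h'2 : d.l' < d.l₂
  h1T : d.l₁ ≤ d.lT
  hTm : d.lT ≤ d.lm
  hLm : d.L ≤ d.lm + 1
  -- units and slopes
  E0 : 0 < ν.E t
  w0 : 0 < ν.w t
  Q0 : 0 ≤ ν.Q
  c1 : 0 < ν.c₁
  σ0 : 0 ≤ d.σ₁
  δ0 : 0 < d.δ
  sc : d.σ₁ * (EE μ s (Tg h₀ Kg d.o) / wd μ s (Tg h₀ Kg d.o)) ≤ (ν.c₃ - ν.c₁) * (ν.E t / ν.w t)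
  sg : d.σ₁ * (EE μ s (Tg h₀ Kg d.o) / wd μ s (Tg h₀ Kg d.o)) ≤ d.sg * (ν.E t / ν.w t)
  -- widths
  Wp : ∀ l, 0 ≤ d.Wd l
  Wm : ∀ l, l < d.L → d.Wd (l + 1) ≤ d.Wd d.L
  W12 : d.Wd d.l₁ ≤ d.Wd d.l₂
  W1 : 1 ≤ d.Wd d.l₁
  W2 : d.Wd d.l₂ ≤ d.Wd (d.l₂ + 1)
  Wn : 2 * d.Wd d.l₂ ≤ 2 * (Tg h₀ Kg d.o : ℝ)
  D0 : wd μ s (B * Tg h₀ Kg t) ≤ d.D₀
  -- the numbers of `V`
  n1 : ν.W1 t = d.Wd d.l₁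
  n2 : ν.W2 t = d.Wd d.l₂
  n3 : ν.W1' t ≤ d.Wd (d.l' + 1)
  n3' : d.Wd d.l₁ ≤ ν.W1' t
  n4 : 2 * ν.W1' t ≤ 2 * (Tg h₀ Kg d.o : ℝ)
  n5 : ν.g t = 2 * d.κ₀ - 3
  n6 : ν.q₁ t = d.r d.l' + 2 * (d.σ₁ * (EE μ s (Tg h₀ Kg d.o) / wd μ s (Tg h₀ Kg d.o))) * ν.W1' t
  n7 : ν.q₂ t = d.r d.l₂ + 2 * (d.σ₁ * (EE μ s (Tg h₀ Kg d.o) / wd μ s (Tg h₀ Kg d.o))) * d.Wd d.l₂
  -- local regularity at the edge rows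
  lrM : ∀ l, l < d.L → d.o + d.nl l ≤ d.Mt
  lrW : ∀ l, l < d.L → d.Wd (l + 1) + 1 + d.D₀ ≤ d.K₁ * wd μ s (Tg h₀ Kg (d.o + d.nl l))
  lrT : ∀ l, l < d.L → d.Wd (l + 1) + 1 + d.D₀ + (2 * (Tg h₀ Kg d.o : ℝ) + 1) ≤ d.K₁ * wd μ s (Tg h₀ Kg d.Mt)
  lrr : ∀ l, l < d.L → d.A * (d.Φ ^ d.nl l * EE μ s (Tg h₀ Kg d.o)) + 2 * d.Lη ≤ d.r l
  -- the levels of the ball
  lvl : ∀ l, d.l₂ ≤ l → l < d.L → D₆ * Q * gr (2 * P) ((d.Wd (l + 1) + d.D₀ + 1) / wd μ s (2 * Tg h₀ Kg d.o) + (Kw - 2)) *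
    EE μ s (2 * Tg h₀ Kg d.o) + d.Lη ≤ d.a l
  lvu : d.Lη + (LQ (2 * P) (c / 8) (D₅ * Q) * gr (2 * P) ((d.Wd d.l₁ + d.D₀) / wd μ s (2 * Tg h₀ Kg d.o)) + Q) *
    EE μ s (2 * Tg h₀ Kg d.o) ≤ d.u₁
  one : H56.aT56 μ s Γ.h (2 * Tg h₀ Kg d.o) d.Lη d.Bp ≤ d.aT
  -- `stay`
  st : ∀ j v, d.l₁ ≤ j → j < d.L → d.o + 1 ≤ v → d.u + d.al j ≤ v → v + 2 ≤ d.u + j →
    v + 1 + d.nb j v ≤ d.Mt ∧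
    d.Wd (j + 1) + d.D₀ + 1 ≤ d.K₁ * wd μ s (Tg h₀ Kg (v + 1 + d.nb j v)) ∧
    d.Wd (j + 1) + d.D₀ + 1 + 2 * (Tg h₀ Kg (v + 1) : ℝ) ≤ d.K₁ * wd μ s (Tg h₀ Kg d.Mt) ∧
    d.δ * (EE μ s (2 * Tg h₀ Kg (v + 1)) / wd μ s (2 * Tg h₀ Kg (v + 1))) +
      d.σ₁ * (EE μ s (Tg h₀ Kg (v + 1)) / wd μ s (Tg h₀ Kg (v + 1))) ≤ hc μ s c (2 * Tg h₀ Kg (v + 1)) / 8 ∧
    lst31 P c d.δ C₅ C₆ Q (Kw - 2) (wd μ s (2 * Tg h₀ Kg (v + 1))) (d.Wd (j + 1) + d.D₀) * EE μ s (2 * Tg h₀ Kg (v + 1)) +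
      d.A * (d.Φ ^ d.nb j v * EE μ s (Tg h₀ Kg (v + 1))) + d.σ₁ * (EE μ s (Tg h₀ Kg (v + 1)) / wd μ s (Tg h₀ Kg (v + 1))) ≤
      (hc μ s c (2 * Tg h₀ Kg (v + 1)) / 8 - d.δ * (EE μ s (2 * Tg h₀ Kg (v + 1)) / wd μ s (2 * Tg h₀ Kg (v + 1))) -
        d.σ₁ * (EE μ s (Tg h₀ Kg (v + 1)) / wd μ s (Tg h₀ Kg (v + 1)))) * (d.Wd j - d.D₀ - 2 * GS.w (v + d.m0))
  stT : ∀ v, d.o + 1 ≤ v → d.u + d.al d.lT ≤ v → v + 2 ≤ d.u + d.lT →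
    2 * (Tg h₀ Kg (v + 1) : ℝ) + 2 * GS.w (v + d.m0) + d.D₀ ≤ d.Wd d.L
  -- prices
  pr : ∀ j v, d.l₁ ≤ j → j < d.L → d.o + 1 ≤ v → d.u + d.al j ≤ v → v + 2 ≤ d.u + j → d.κ j + 1 ≤ d.κv v
  prT : ∀ v, d.o + 1 ≤ v → d.u + d.al d.lT ≤ v → v + 2 ≤ d.u + d.lT → d.κ d.L + 1 ≤ d.κv v
  Bκ : ∀ j, d.l₂ ≤ j → j ≤ d.L → loss31 ν.P ν.c₁ ν.Q ν.S (ν.E t) (ν.w t) d.Wd d.L d.R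
    (d.σ₁ * (EE μ s (Tg h₀ Kg d.o) / wd μ s (Tg h₀ Kg d.o))) d.aT d.r d.a j + d.g₁ + 1 ≤ d.κ j
  κ0 : ∀ j, d.l₁ ≤ j → j ≤ d.L → d.κ₀ + Real.log (d.L + 1) + 1 ≤ d.κ j
  κ4 : 4 ≤ Real.exp d.κ₀
  num : 4 * ((Icc 0 Γ.hi).card : ℝ) * (d.L + 1) * ((Icc 0 Γ.hi).card : ℝ) ^ 2 * Real.exp (2 * ν.q₁ t + d.u₁ + ν.gf t) ≤ Real.exp d.g₁

end

end Pool.Agent.W_7d29a1_C1.D31
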