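import Pool.Agent.W_7d29a1_C1.Lec17
import Pool.Agent.W_7d29a1_C1.Use77

/-!
MP_7d29a1_pr, attractor route [C1], junction SEP + TAME => few scales are not usable (hypothesis `hν` of `n2T17`). (helper77)

`C` = covered (or untame) scales of one contact, `R` = scales reached from outside; a scale `t < ms` which is usable with respect to
`C` (`Use77`) and is not in `R` belongs to `V`. Outside the bad set `Bd` (probability `≤ n ^ (- A)`) the untame scales are at most `b`,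
the reached ones at most `b'` and the potential is at least `θb`. `nu77`: the weight of the contacts with `≥ q` unusable scales is at
most the weight of the contacts with `≥ a` covered scales and large potential (conclusion of the separation), plus `P Bd`.
-/

set_option autoImplicit false

namespace Pool.Agent.W_7d29a1_C1.H77

open MeasureTheory Finset
open Pool.Agent.W_7d29a1_C1.Lec17 (Nar)
open scoped ENNReal

open Classical in
/-- One environment, one contact. -/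
theorem nar77 {Z : Type*} {V : ℕ → Set Z} {m ms l₀ lm q : ℕ} {a : ℕ → ℕ} (ha : Monotone a) (h1 : ∀ l, l₀ ≤ l → 2 * a l + 1 ≤ l)
    (hl : 3 ≤ l₀) (hms : ms + 2 * a lm ≤ m) {C R : Finset ℕ} {z : Z}
    (hdet : ∀ t < ms, Usable C m l₀ lm a t → t ∉ R → z ∈ V t) (hz : z ∈ Nar V ms q) : q ≤ 2 * C.card + R.card := by
  have h2 := not_usable (m := m) (lm := lm) ha h1 hl C
  have h3 : ((range ms).filter fun t => z ∉ V t) ⊆
      ((range (m - 2 * a lm)).filter fun i => ¬ Usable C m l₀ lm a i) ∪ R := by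
    intro t ht
    rw [mem_filter, mem_range] at ht
    rw [mem_union, mem_filter, mem_range]
    by_cases hR : t ∈ R
    · exact Or.inr hR
    · refine Or.inl ⟨by omega, fun hu => ht.2 (hdet t ht.1 hu hR)⟩
  have h4 : q ≤ ((range ms).filter fun t => z ∉ V t).card := by
    have h5 : q ≤ _ := hz
    convert h5 using 2
  have h5 := (card_le_card h3).trans (card_union_le _ _)
  omega

section

variable {Ω ι X : Type*} [MeasurableSpace Ω] {P : Measure Ω} {T : Finset ι} {w : ι → Ω → ℝ}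

/-- **From the sites of the separation to the contacts.** -/
theorem nu_le77 [Fintype X] (mw : ∀ k ∈ T, Measurable (w k)) (w1 : ∀ ω, ∑ k ∈ T, ENNReal.ofReal (w k ω) ≤ 1)
    {x : ι → X} (hx : Set.InjOn x T) {W : X → Ω → ℝ≥0∞} (hW : ∀ k ∈ T, ∀ ω, ENNReal.ofReal (w k ω) ≤ W (x k) ω)
    {N : ι → Set Ω} {A : X → Set Ω} {Bd : Set Ω} (hN : ∀ k ∈ T, N k ⊆ A (x k) ∪ Bd) :
    ∑ k ∈ T, ∫⁻ ω in N k, ENNReal.ofReal (w k ω) ∂P ≤ (∑ y, ∫⁻ ω in A y, W y ω ∂P) + P Bd := by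
  classical
  have e1 : ∀ k ∈ T, ∫⁻ ω in N k, ENNReal.ofReal (w k ω) ∂P ≤
      (∫⁻ ω in A (x k), W (x k) ω ∂P) + ∫⁻ ω in Bd, ENNReal.ofReal (w k ω) ∂P := by
    intro k hk
    calc ∫⁻ ω in N k, ENNReal.ofReal (w k ω) ∂P ≤ ∫⁻ ω in A (x k) ∪ Bd, ENNReal.ofReal (w k ω) ∂P :=
          lintegral_mono_set (hN k hk)
      _ ≤ (∫⁻ ω in A (x k), ENNReal.ofReal (w k ω) ∂P) + ∫⁻ ω in Bd, ENNReal.ofReal (w k ω) ∂P := lintegral_union_le _ _ _
      _ ≤ _ := by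
          refine add_le_add (lintegral_mono fun ω => hW k hk ω) le_rfl
  refine (sum_le_sum e1).trans ?_
  rw [sum_add_distrib]
  refine add_le_add ?_ ?_
  · rw [← sum_image (f := fun y => ∫⁻ ω in A y, W y ω ∂P) (g := x) (s := T) (fun a ha b hb h => hx ha hb h)]
    exact sum_le_sum_of_subset (subset_univ _)
  · rw [← lintegral_finsetSum' _ fun k hk => ((mw k hk).ennreal_ofReal).aemeasurable]
    calc ∫⁻ ω in Bd, ∑ k ∈ T, ENNReal.ofReal (w k ω) ∂P ≤ ∫⁻ _ω in Bd, 1 ∂P := lintegral_mono fun ω => w1 ω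
      _ = P Bd := by simp

/-- **JUNCTION: the separation and the tame scales give the weight of many unusable scales.** `cv y ω` = number of covered scales of the
site `y`, `pt` = its potential (`cnt p w fa τ0 τ0 (p.sl τ0)`, `pot τ0 (p.sl τ0)` of the separation). -/
theorem nu77 [Fintype X] (mw : ∀ k ∈ T, Measurable (w k)) (w1 : ∀ ω, ∑ k ∈ T, ENNReal.ofReal (w k ω) ≤ 1)
    {x : ι → X} (hx : Set.InjOn x T) {W : X → Ω → ℝ≥0∞} (hW : ∀ k ∈ T, ∀ ω, ENNReal.ofReal (w k ω) ≤ W (x k) ω)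
    {V : ι → ℕ → Set Ω} {m ms l₀ lm q A b b' : ℕ} {a : ℕ → ℕ} (ha : Monotone a) (h1 : ∀ l, l₀ ≤ l → 2 * a l + 1 ≤ l)
    (hl : 3 ≤ l₀) (hms : ms + 2 * a lm ≤ m) {C R : ι → Ω → Finset ℕ} {cv : X → Ω → ℕ} {pt : X → Ω → ℝ≥0∞} {θb : ℝ≥0∞}
    {Bd : Set Ω} (hq : 2 * A + 2 * b + b' ≤ q)
    (hC : ∀ k ∈ T, ∀ ω ∉ Bd, (C k ω).card ≤ cv (x k) ω + b) (hR : ∀ k ∈ T, ∀ ω ∉ Bd, (R k ω).card ≤ b')
    (hp : ∀ k ∈ T, ∀ ω ∉ Bd, θb ≤ pt (x k) ω)
    (hdet : ∀ k ∈ T, ∀ ω ∉ Bd, ∀ t < ms, Usable (C k ω) m l₀ lm a t → t ∉ R k ω → ω ∈ V k t) {ν₁ ν₂ : ℝ} (hν₁ : 0 ≤ ν₁)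
    (hν₂ : 0 ≤ ν₂) (hsep : ∑ y, ∫⁻ ω in {ω | A ≤ cv y ω ∧ θb ≤ pt y ω}, W y ω ∂P ≤ ENNReal.ofReal ν₁)
    (hbd : P Bd ≤ ENNReal.ofReal ν₂) :
    ∑ k ∈ T, ∫⁻ ω in Nar (V k) ms q, ENNReal.ofReal (w k ω) ∂P ≤ ENNReal.ofReal (ν₁ + ν₂) := by
  rw [ENNReal.ofReal_add hν₁ hν₂]
  refine (nu_le77 mw w1 hx hW (A := fun y => {ω | A ≤ cv y ω ∧ θb ≤ pt y ω}) (Bd := Bd) fun k hk ω hω => ?_).trans
    (add_le_add hsep hbd)
  by_cases hb : ω ∈ Bd
  · exact Or.inr hb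
  · refine Or.inl ⟨?_, hp k hk ω hb⟩
    have h2 := nar77 ha h1 hl hms (hdet k hk ω hb) hω
    have h3 := hC k hk ω hb
    have h4 := hR k hk ω hb
    omega

end

end Pool.Agent.W_7d29a1_C1.H77
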