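import Pool.Agent.W_7d29a1_C1.ColU93
import Pool.Agent.W_7d29a1_C1.FaD45
import Pool.Agent.W_7d29a1_C1.GeoW10
import Pool.Agent.W_7d29a1_C1.UniA16

/-!
MP_7d29a1_pr, [C1] SHELL, fresh ball, (S): **THE LETTERS OF `sg45` AT ONE LEVEL**. `tf93` : the length of the lanes is a quarter of the scale at
least. `rad93` : the radii of the cells. `cm93` : the middle of the box. `sg93` : `Sg7`. `cel93` : the cells against the radius `r₀` of `so7`.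
(helper93)
-/

set_option autoImplicit false

namespace Pool.Agent.W_7d29a1_C1.Nu93

open MeasureTheory Filter
open Pool.Agent.W_7d29a1_H Pool.Agent.W_7d29a1_HS
open Pool.Agent.W_7d29a1_C1.T10 (kF GW Gd Tg)
open Pool.Agent.W_7d29a1_C1.N7 (Col7 Kap7 Sg7)
open Pool.Agent.W_7d29a1_C1.H8 (sg8 uc8 uc8_near uc8_sep)
open Pool.Agent.W_7d29a1_C1.F45 (LnO lnI R145 R145_pos kk45 TF45 KE45 sg45 u45)

noncomputable section

/-- The length of the lanes: between `T / 4` and `T`. -/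
theorem tf93 {c d th K0 : ℝ} {o : LnO} (ho : o.Ok (lnI c d th K0)) (hth0 : 0 < th) (hth : th ≤ 1 / 4) {Q : ℕ} (hQ : 1 ≤ Q) :
    ∃ n₁ : ℕ, 1 ≤ n₁ ∧ ∀ (T : ℕ → ℕ) (j : ℕ), n₁ ≤ T j → T j ≤ 4 * TF45 th o Q T j ∧ TF45 th o Q T j ≤ T j := by
  have hR := R145_pos ho hQ
  obtain ⟨R, hRd⟩ : ∃ R : ℕ, R = R145 o Q := ⟨_, rfl⟩
  rw [← hRd] at hR
  have hR1 : (1 : ℝ) ≤ R := by exact_mod_cast hR
  have hR0 : (0 : ℝ) < R := by linarith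
  refine ⟨4 * R, by omega, fun T j hT => ?_⟩
  obtain ⟨k, hk⟩ : ∃ k : ℕ, k = kF th (R145 o Q) (T j) := ⟨_, rfl⟩
  have hTR : (4 : ℝ) * R ≤ T j := by exact_mod_cast hT
  have hT0 : (0 : ℝ) ≤ T j := Nat.cast_nonneg _
  have hx0 : 0 ≤ (1 - th / 4) * T j / R := div_nonneg (mul_nonneg (by linarith) hT0) hR0.le
  have k1 : (k : ℝ) ≤ (1 - th / 4) * T j / R := by
    rw [hk, hRd]
    exact Nat.floor_le (by rw [← hRd]; exact hx0)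
  have k2 : (1 - th / 4) * T j / R < k + 1 := by
    rw [hk, hRd]
    exact Nat.lt_floor_add_one _
  rw [le_div_iff₀ hR0] at k1
  rw [div_lt_iff₀ hR0] at k2
  have k1' : (k : ℝ) * R ≤ T j := by
    have : (1 - th / 4) * T j ≤ T j := by nlinarith
    linarith
  have k2' : (T j : ℝ) ≤ 2 * (k * R) := by
    have h1 : (15 / 16 : ℝ) * T j ≤ (1 - th / 4) * T j := mul_le_mul_of_nonneg_right (by linarith) hT0
    nlinarith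
  have k1n : k * R ≤ T j := by exact_mod_cast k1'
  have k2n : T j ≤ 2 * (k * R) := by exact_mod_cast k2'
  have e1 : TF45 th o Q T j = Q * (o.j1 * o.j2) * k := by
    unfold TF45 kk45
    rw [← hk]
  have e2 : R = Q * (o.j2 * (o.a + o.j1)) := hRd
  have haj := ho.aj
  have e3 : k * R = Q * o.j2 * k * o.a + Q * o.j2 * k * o.j1 := by
    rw [e2]
    ring
  have e4 : TF45 th o Q T j = Q * o.j2 * k * o.j1 := by
    rw [e1]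
    ring
  have h5 : Q * o.j2 * k * o.a ≤ Q * o.j2 * k * o.j1 := Nat.mul_le_mul_left _ haj
  rw [e4]
  constructor <;> omega

variable {μ : Measure ℝ} [IsProbabilityMeasure μ] {s c C : ℝ} {n₀ : ℕ}

/-- **THE RADII OF THE CELLS.** -/
theorem rad93 (h0 : In μ s c C n₀) {c' d th K0 : ℝ} {o : LnO} (ho : o.Ok (lnI c' d th K0)) (hd : 0 < d) (hth0 : 0 < th) (hth : th ≤ 1 / 4)
    {Q : ℕ} (hQ : 1 ≤ Q) : ∃ n₁ : ℕ, 1 ≤ n₁ ∧ ∀ (T : ℕ → ℕ) (j : ℕ), n₁ ≤ T j → 1 ≤ wd μ s (T j) ∧ 8 ≤ d * wd μ s (T j) ∧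
      2 * ((⌊o.th * wd μ s (TF45 th o Q T j)⌋₊ : ℕ) : ℝ) ≤ d / 4 * wd μ s (T j) ∧
      o.th / 16 * wd μ s (T j) ≤ ((⌊o.th * wd μ s (TF45 th o Q T j)⌋₊ : ℕ) : ℝ) := by
  obtain ⟨na, hna, HA⟩ := tf93 ho hth0 hth hQ
  have hoth := ho.th0
  obtain ⟨nb, HB⟩ := eventually_atTop.1 ((wd_tendsto h0).eventually_ge_atTop (max 1 (max (8 / d) (16 / o.th))))
  refine ⟨max na (max nb 1), hna.trans (le_max_left _ _), fun T j hT => ?_⟩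
  obtain ⟨t1, t2⟩ := HA T j ((le_max_left _ _).trans hT)
  have w0 := HB (T j) (((le_max_left _ _).trans (le_max_right _ _)).trans hT)
  have hT1 : 1 ≤ T j := ((le_max_right _ _).trans (le_max_right _ _)).trans hT
  have w1 : 1 ≤ wd μ s (T j) := (le_max_left _ _).trans w0
  have w2 : 8 / d ≤ wd μ s (T j) := ((le_max_left _ _).trans (le_max_right _ _)).trans w0
  have w3 : 16 / o.th ≤ wd μ s (T j) := ((le_max_right _ _).trans (le_max_right _ _)).trans w0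
  rw [div_le_iff₀ hd] at w2
  rw [div_le_iff₀ hoth] at w3
  obtain ⟨F, hF⟩ : ∃ F : ℕ, F = TF45 th o Q T j := ⟨_, rfl⟩
  rw [← hF] at t1 t2 ⊢
  have hF1 : 1 ≤ F := by omega
  have u1 := Pool.Agent.W_7d29a1_C1.U16.wd_le_two h0 hF1 t2
  have u2 := Pool.Agent.W_7d29a1_C1.U16.wd_le h0 hF1 t2
  have hFR : (0 : ℝ) < F := by exact_mod_cast hF1
  have t1' : (T j : ℝ) ≤ 4 * F := by exact_mod_cast t1
  have hwF := h0.wd_pos hF1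
  have u3 : wd μ s (T j) ≤ 8 * wd μ s F := by
    refine u2.trans (mul_le_mul_of_nonneg_right ?_ hwF.le)
    have : (T j : ℝ) / F ≤ 4 := by
      rw [div_le_iff₀ hFR]
      exact t1'
    linarith
  have ot1 : o.th ≤ d / 16 := ho.th1
  have f1 := Nat.floor_le (mul_nonneg hoth.le hwF.le)
  have f2 := Nat.lt_floor_add_one (o.th * wd μ s F)
  refine ⟨w1, by linarith, ?_, ?_⟩
  · have h1 : o.th * wd μ s F ≤ d / 16 * wd μ s F := mul_le_mul_of_nonneg_right ot1 hwF.le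
    have h2 : d / 16 * wd μ s F ≤ d / 16 * (2 * wd μ s (T j)) := mul_le_mul_of_nonneg_left u1 (by linarith)
    linarith
  · have h1 : o.th * wd μ s (T j) ≤ o.th * (8 * wd μ s F) := mul_le_mul_of_nonneg_left u3 hoth.le
    linarith

omit [IsProbabilityMeasure μ] in
/-- **THE MIDDLE OF THE BOX.** -/
theorem cm93 {R : ℝ} {B : ℕ} {C₀ : ℝ} {h₀ K L : ℕ} {G : Gd} (g : GW μ s R B C₀ h₀ K L G) {v : ℕ} (hv : 1 ≤ v) (hL : v ≤ L) :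
    |(((G.V v : ℤ) / 2 : ℤ) : ℝ)| ≤ C₀ * wd μ s (Tg h₀ K v) := by
  have h1 := g.V v hv hL
  have h2 := g.wB v hv
  have h3 : (((G.V v : ℤ) / 2 : ℤ) : ℝ) ≤ (G.V v : ℝ) := by
    have : ((G.V v : ℤ) / 2 : ℤ) ≤ (G.V v : ℤ) := by omega
    exact_mod_cast this
  have h4 : (0 : ℝ) ≤ (((G.V v : ℤ) / 2 : ℤ) : ℝ) := by
    have : (0 : ℤ) ≤ ((G.V v : ℤ) / 2 : ℤ) := by omega
    exact_mod_cast this
  have hv0 : (0 : ℝ) ≤ v := Nat.cast_nonneg _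
  rw [abs_of_nonneg h4]
  linarith

/-- **THE LETTERS OF `sg45` AT ONE LEVEL** : `D ≥ C₀ + 2 d + 3`. -/
theorem sg93 (h0 : In μ s c C n₀) {c' d th K0 : ℝ} {o : LnO} (ho : o.Ok (lnI c' d th K0)) (hd : 0 < d) (hth0 : 0 < th) (hth : th ≤ 1 / 4)
    {Q : ℕ} (hQ : 1 ≤ Q) : ∃ n₁ : ℕ, 1 ≤ n₁ ∧ ∀ (T : ℕ → ℕ) (cm : ℕ → ℤ) (j m₂ : ℕ) (k : KE45) (φ v v₁ g₂ C₀ D : ℝ), n₁ ≤ T j → 0 ≤ C₀ →
      |(cm j : ℝ)| ≤ C₀ * wd μ s (T j) → C₀ + 2 * d + 3 ≤ D →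
      Sg7 μ s (sg45 μ s d th o Q k T cm m₂ φ v v₁ g₂) j (T j) (T (j + m₂)) k.P D k.c₁ k.c₃ k.Q k.S v φ v₁ g₂ := by
  obtain ⟨na, hna, HA⟩ := rad93 h0 ho hd hth0 hth hQ
  refine ⟨na, hna, fun T cm j m₂ k φ v v₁ g₂ C₀ D hT hC hcm hD => ?_⟩
  obtain ⟨w1, w8, r1, r2⟩ := HA T j hT
  refine sgU93 (u := u45 μ s d T cm) (fun b => rfl) hC hd hcm w1 w8 ?_ hD
  refine r1.trans ?_
  have : d * wd μ s (T j) = d / 4 * wd μ s (T j) + 3 / 4 * (d * wd μ s (T j)) := by ring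
  linarith

/-- **THE CELLS AGAINST THE RADIUS `r₀` OF `so7`** : `δr ρ ≤ o.th / 32`, `δ ρ ≤ d`. -/
theorem cel93 (h0 : In μ s c C n₀) {c' d th K0 : ℝ} {o : LnO} (ho : o.Ok (lnI c' d th K0)) (hd : 0 < d) (hth0 : 0 < th) (hth : th ≤ 1 / 4)
    {Q : ℕ} (hQ : 1 ≤ Q) : ∃ n₁ : ℕ, 1 ≤ n₁ ∧ ∀ (T : ℕ → ℕ) (cm : ℕ → ℤ) (j m₂ : ℕ) (k : KE45) (φ v v₁ g₂ δ δr ρ : ℝ) (To r₀ : ℕ), n₁ ≤ T j →
      0 ≤ δ → 0 ≤ δr → δr * ρ ≤ o.th / 32 → δ * ρ ≤ d → wd μ s To ≤ ρ * wd μ s (T j) → (r₀ : ℝ) ≤ δr * wd μ s To →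
      2 * (r₀ : ℤ) + 2 ≤ (sg45 μ s d th o Q k T cm m₂ φ v v₁ g₂).β₁ j - (sg45 μ s d th o Q k T cm m₂ φ v v₁ g₂).α₁ j ∧
      2 * (r₀ : ℤ) + 2 ≤ (sg45 μ s d th o Q k T cm m₂ φ v v₁ g₂).β₂ j - (sg45 μ s d th o Q k T cm m₂ φ v v₁ g₂).α₂ j ∧
      ((sg45 μ s d th o Q k T cm m₂ φ v v₁ g₂).β₁ j : ℝ) + δ * wd μ s To ≤ (sg45 μ s d th o Q k T cm m₂ φ v v₁ g₂).α₂ j := by
  obtain ⟨na, hna, HA⟩ := rad93 h0 ho hd hth0 hth hQ
  have hoth := ho.th0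
  obtain ⟨nb, HB⟩ := eventually_atTop.1 ((wd_tendsto h0).eventually_ge_atTop (32 / o.th))
  refine ⟨max na nb, hna.trans (le_max_left _ _), fun T cm j m₂ k φ v v₁ g₂ δ δr ρ To r₀ hT hδ hδr h1 h2 h3 h4 => ?_⟩
  obtain ⟨w1, w8, r1, r2⟩ := HA T j ((le_max_left _ _).trans hT)
  have w3 := HB (T j) ((le_max_right _ _).trans hT)
  rw [div_le_iff₀ hoth] at w3
  have hw0 : 0 < wd μ s (T j) := by linarith
  have hr : (r₀ : ℝ) + 1 ≤ ((⌊o.th * wd μ s (TF45 th o Q T j)⌋₊ : ℕ) : ℝ) := by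
    have e1 : δr * wd μ s To ≤ δr * (ρ * wd μ s (T j)) := mul_le_mul_of_nonneg_left h3 hδr
    have e2 : δr * (ρ * wd μ s (T j)) = δr * ρ * wd μ s (T j) := by ring
    have e3 : δr * ρ * wd μ s (T j) ≤ o.th / 32 * wd μ s (T j) := mul_le_mul_of_nonneg_right h1 hw0.le
    linarith
  have hr' : r₀ + 1 ≤ ⌊o.th * wd μ s (TF45 th o Q T j)⌋₊ := by exact_mod_cast hr
  have e1 := Pool.Agent.W_7d29a1_C1.H8.wid8_1 (μ := μ) (s := s) (T := T) (cm := cm) (u := u45 μ s d T cm)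
    (rad := fun j => ⌊o.th * wd μ s (TF45 th o Q T j)⌋₊) (m₂ := m₂) (P := k.P) (c₁ := k.c₁) (c₃ := k.c₃) (Q := k.Q) (S := k.S) (phO := φ)
    (vO := v) (v₁ := v₁) (g₂ := g₂) (j := j)
  have e2 := Pool.Agent.W_7d29a1_C1.H8.wid8_2 (μ := μ) (s := s) (T := T) (cm := cm) (u := u45 μ s d T cm)
    (rad := fun j => ⌊o.th * wd μ s (TF45 th o Q T j)⌋₊) (m₂ := m₂) (P := k.P) (c₁ := k.c₁) (c₃ := k.c₃) (Q := k.Q) (S := k.S) (phO := φ)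
    (vO := v) (v₁ := v₁) (g₂ := g₂) (j := j)
  refine ⟨?_, ?_, ?_⟩
  · refine le_trans ?_ (le_of_eq e1.symm)
    show 2 * (r₀ : ℤ) + 2 ≤ 2 * ((⌊o.th * wd μ s (TF45 th o Q T j)⌋₊ : ℕ) : ℤ)
    omega
  · refine le_trans ?_ (le_of_eq e2.symm)
    show 2 * (r₀ : ℤ) + 2 ≤ 2 * ((⌊o.th * wd μ s (TF45 th o Q T j)⌋₊ : ℕ) : ℤ)
    omega
  · show ((u45 μ s d T cm j false + ((⌊o.th * wd μ s (TF45 th o Q T j)⌋₊ : ℕ) : ℤ) : ℤ) : ℝ) + δ * wd μ s To ≤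
      ((u45 μ s d T cm j true - ((⌊o.th * wd μ s (TF45 th o Q T j)⌋₊ : ℕ) : ℤ) : ℤ) : ℝ)
    have s0 := uc8_sep (μ := μ) (s := s) d (wd μ s (T j)) (cm j) (1 - (T j : ℤ))
    have e3 : δ * wd μ s To ≤ δ * (ρ * wd μ s (T j)) := mul_le_mul_of_nonneg_left h3 hδ
    have e4 : δ * (ρ * wd μ s (T j)) = δ * ρ * wd μ s (T j) := by ring
    have e5 : δ * ρ * wd μ s (T j) ≤ d * wd μ s (T j) := mul_le_mul_of_nonneg_right h2 hw0.le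
    have e6 : d / 4 * wd μ s (T j) = 1 / 4 * (d * wd μ s (T j)) := by ring
    have e7 : 3 / 2 * d * wd μ s (T j) = 3 / 2 * (d * wd μ s (T j)) := by ring
    rw [e6] at r1
    rw [e7] at s0
    have e8 : (u45 μ s d T cm j false : ℝ) + (3 / 2 * (d * wd μ s (T j)) - 2) ≤ u45 μ s d T cm j true := s0
    push_cast
    linarith

end

end Pool.Agent.W_7d29a1_C1.Nu93
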