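import Pool.Agent.W_7d29a1_C1.NuS89
import Pool.Agent.W_7d29a1_C1.TmU51

/-!
MP_7d29a1_pr, [C1], FIELD nu: **THE CLAUSE OF THE PAST `PaQ51`** from `tmR89` and the crude bound of the far mass at the top. (helper89)

`TpPa89`: off a rare event `TopP89` holds for the two pasts of every contact of `S8` whose weight is not too small (helper70, helper88).
`tmS89 : TpPa89 ⇒ PaQ51`.
-/

set_option autoImplicit false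
set_option linter.unusedSectionVars false

namespace Pool.Agent.W_7d29a1_C1.TmS89

open MeasureTheory Finset Filter Topology
open Pool.Agent.W_7d29a1_F Pool.Agent.W_7d29a1_h4g Pool.Agent.W_7d29a1_H Pool.Agent.W_7d29a1_HS
open Pool.Agent.W_7d29a1_C1.T10 (Gd pt Tg Hg Tg_pos Tg_Hg Tg_mono Hg_mono GW)
open Pool.Agent.W_7d29a1_C1.H60
open Pool.Agent.W_7d29a1_C1.H40 (Tk Cut)
open Pool.Agent.W_7d29a1_C1.G37 (Gm Wok)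
open Pool.Agent.W_7d29a1_C1.H8
open Pool.Agent.W_7d29a1_C1.H77 (Zt77)
open Pool.Agent.W_7d29a1_C1.Dep6
open Pool.Agent.W_7d29a1_C1.D31 (Lr31 TM31)
open Pool.Agent.W_7d29a1_C1.SysP84 (fh84)
open Pool.Agent.W_7d29a1_C1.H94 (nu Cs94)
open Pool.Agent.W_7d29a1_C1.TmR89 (ro89 Sc89 Cn89 TopP89 tmR89)
open Pool.Agent.W_7d29a1_C1.NuS89
open Pool.Agent.W_7d29a1_C1.Nu51
open scoped ENNReal

noncomputable section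

variable {μ : Measure ℝ} [IsProbabilityMeasure μ]

/-- **THE TOP OF THE PAST**: off a rare event the far mass of the top edge is small for the two pasts of every contact. -/
def TpPa89 (μ : Measure ℝ) (s : ℝ) : Prop :=
  ∀ e : ℝ, 0 < e → e ≤ 1 / 32 → ∃ K₁ : ℕ, ∀ K : ℕ, K₁ ≤ K → ∀ (R : ℝ) (B : ℕ) (C₀ : ℝ), 1 ≤ R → 2 ≤ B → 1 ≤ C₀ →
    ∀ e₀ : ℝ, 0 < e₀ → e₀ ≤ e → ∀ (x : ℕ) (Kt : ℝ), 0 < Kt → ∃ s₁ e' : ℝ, 0 < s₁ ∧ 0 < e' ∧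
      ∀ c₂ : ℝ, 0 < c₂ → c₂ ≤ s₁ → ∀ δ' : ℝ, 0 < δ' → δ' ≤ c₂ / 16 → ∃ κ₀ : ℝ, 0 < κ₀ ∧ ∀ κ : ℝ, 0 < κ → κ ≤ κ₀ →
        ∃ Q₀ : ℕ, 1 ≤ Q₀ ∧ ∀ Q : ℕ, Q₀ ∣ Q → 1 ≤ Q → ∀ᶠ n : ℕ in atTop, ∀ G : Gd,
          GW μ s R B C₀ (h8 Q e₀ n) K (m8 K e n + x) G → ∀ Γ : Cx, Adm μ s c₂ δ' κ n Γ →
            ∃ bad : Set Env, law μ bad ≤ ENNReal.ofReal ((n : ℝ) ^ (-(3 : ℝ))) ∧ ∀ ω ∉ bad, ∀ c ∈ S8 e K n G Γ,
              Real.exp (-((n : ℝ) ^ e')) ≤ Γ.w c ω →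
                TopP89 μ s Γ G (Tg (h8 Q e₀ n) K) (m8 K e n / 2) (m8 K e n + x) Kt Cx.l c ω ∧
                TopP89 μ s Γ G (Tg (h8 Q e₀ n) K) (m8 K e n / 2) (m8 K e n + x) Kt Γ.r c ω

/-- **THE CLAUSE OF THE PAST.** -/
theorem tmS89 {s c C : ℝ} {n₀ : ℕ} (hI : In μ s c C n₀) (hCs : ∃ (c₀ δ₁ c₁ A a g θ : ℝ) (K0 : ℕ), ∀ Kb : ℕ, ∃ (n₃ : ℕ) (Y₁ : ℝ),
      Cs94 μ s c₀ δ₁ c₁ A a g θ Y₁ K0 Kb n₃) (hE9 : ∀ᶠ n : ℕ in atTop, (n : ℝ) ^ (1 / 9 : ℝ) ≤ EE μ s n) (hTop : TpPa89 μ s) :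
    PaQ51 μ s := by
  obtain ⟨Φ, K₂, hΦ, hK₂, HR⟩ := tmR89 hI hCs
  refine ⟨Φ, hΦ, fun ρ hρ hρ1 e he he1 => ?_⟩
  obtain ⟨K₁, HT⟩ := hTop e he he1
  refine ⟨max K₁ K₂, fun K hK R B C₀ hR hB hC σ ε hσ hε => ?_⟩
  have k1 : K₁ ≤ K := (le_max_left _ _).trans hK
  have k2 : K₂ ≤ K := (le_max_right _ _).trans hK
  have hK2 : 2 ≤ K := hK₂.trans k2
  have he₀ : 0 < ρ * e := mul_pos hρ he
  have hee : ρ * e ≤ e := mul_le_of_le_one_left he.le hρ1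
  obtain ⟨Cn, hCn⟩ : ∃ Cn : ℕ, Cn = max 1 ⌈1 / ε⌉₊ := ⟨_, rfl⟩
  have hCn1 : 1 ≤ Cn := hCn ▸ le_max_left _ _
  have hCn2 : 1 ≤ Cn * ε := by
    have h1 : 1 / ε ≤ (Cn : ℝ) := (Nat.le_ceil _).trans (by rw [hCn]; exact_mod_cast le_max_right _ _)
    rwa [div_le_iff₀ hε] at h1
  obtain ⟨AA, a, g, AA', a', g', hAA, ha, hg, hAA', ha', hg', HR⟩ := HR K B C₀ k2 hB hC Cn hCn1 σ hσ
  refine ⟨AA, a, g, AA', a', g', 17 / 16, hAA, ha, hg, hAA', ha', hg', by norm_num, fun z δ₀ hz hδ₀ => ?_⟩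
  obtain ⟨A, q₁, n₁, hA, hq₁, hn₁, HR⟩ := HR z hz
  refine ⟨A, hA, fun k hk => ⟨0, fun m _ m₁ hm₁ => ?_⟩⟩
  obtain ⟨x, hx⟩ : ∃ x : ℕ, x = (k.up m).m0 + m₁ := ⟨_, rfl⟩
  obtain ⟨s₁, e', hs₁, he', HT⟩ := HT K k1 R B C₀ hR hB hC (ρ * e) he₀ hee x (4 * C₀) (by linarith)
  refine ⟨s₁, e', hs₁, he', fun c₂ hc₂ hc₂s δ' hδ' hδc => ?_⟩
  obtain ⟨κ₀, hκ₀, HT⟩ := HT c₂ hc₂ hc₂s δ' hδ' hδc
  refine ⟨κ₀, hκ₀, fun κ hκ hκκ => ?_⟩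
  obtain ⟨Q₀, hQ₀, HT⟩ := HT κ hκ hκκ
  refine ⟨Q₀, hQ₀, fun Q hQQ hQ1 => ?_⟩
  filter_upwards [HT Q hQQ hQ1, num89 hI hE9 he he1 he₀ hee hK2 hQ1 B x n₁ 10 (R := R) (C₀ := C₀) (c₂ := c₂) (κ := κ) hδ'.le]
    with n HT hnum
  obtain ⟨hm10, hh1, hnum⟩ := hnum
  intro E₀ hE₀ G hG hW Γ hA'
  rw [← hx] at hG ⊢
  obtain ⟨h₀, hh₀⟩ : ∃ h₀ : ℕ, h₀ = h8 Q (ρ * e) n := ⟨_, rfl⟩
  obtain ⟨mm, hmm⟩ : ∃ mm : ℕ, mm = m8 K e n := ⟨_, rfl⟩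
  obtain ⟨hfor, hnum⟩ := hnum G hG Γ hA'
  obtain ⟨bad, hbad, HT⟩ := HT G hG Γ hA'
  have hE1 : 1 ≤ E₀ := by
    by_contra hcon
    have h0 : E₀ = 0 := by omega
    rw [h0] at hE₀
    have h1 : 0 < δ₀ * (m8 K e n : ℝ) := mul_pos hδ₀ (by exact_mod_cast (show 0 < m8 K e n by omega))
    rw [Nat.cast_zero] at hE₀
    linarith
  have hT1 : n₁ ≤ Tg (h8 Q (ρ * e) n) K 1 := by
    rw [Tg_pos le_rfl, pow_one, mul_comm 2, mul_assoc]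
    exact hh1.trans (Nat.le_mul_of_pos_right _ (by omega))
  obtain ⟨dL, dN, hdL, hdN, _, htl, HR⟩ := HR (Tg (h8 Q (ρ * e) n) K) hT1 (sc_gw89 hG) (m8 K e n + x + 1)
  refine ⟨dL, dN, 2, _, q₁, ∅, lb6, lbN6, bad, by norm_num, le_rfl, hdL, hdN, by simp, hq₁, fun a b => htl E₀ a b hE1, le_rfl, hbad, ?_⟩
  intro η hη c' hc' hw u hu1 hu2 hok _
  obtain ⟨hcn, hro⟩ := hnum c' hc'
  obtain ⟨t1, t2⟩ := HT η hη c' hc' hw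
  have hm0 : (10 : ℝ) ≤ m8 K e n := by exact_mod_cast hm10
  have hu0 : 1 ≤ u := by
    by_contra hcon
    have h0 : u = 0 := by omega
    rw [h0, Nat.cast_zero] at hu1
    have h1 : 0 < ε * (m8 K e n : ℝ) := mul_pos hε (by linarith)
    linarith
  have hkey : ∀ l : ℤ → ℝ, (∀ y, 0 ≤ l y) →
      TopP89 μ s Γ G (Tg (h8 Q (ρ * e) n) K) (m8 K e n / 2) (m8 K e n + x) (4 * C₀) l c' η →
      Lr31 μ s (pt c') (Tg (h8 Q (ρ * e) n) K) (m8 K e n / 2) 2 A Φ σ (fh84 μ s Γ.h η Γ.p Γ.M l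
        ((G.z u c').1 - Tg (h8 Q (ρ * e) n) K u)) ((G.z u c').1 - Tg (h8 Q (ρ * e) n) K u) u := by
    intro l hl htop
    by_cases huM : u ≤ m8 K e n / 2
    · have huL : u ≤ m8 K e n + x := by omega
      obtain ⟨r1, r2⟩ := hro u hu0 huL
      refine HR Γ G (m8 K e n + x) (m8 K e n / 2) c' η u hA'.hs (by omega) (by omega) hcn hfor hu0 huM r1 r2 ?_ hok l hl htop
      refine cone89 hh1 (by omega) k2 (Nat.div_le_self _ _) hu0 hCn1 ?_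
      have h1 : (m8 K e n : ℝ) ≤ (Cn : ℝ) * u := by
        calc (m8 K e n : ℝ) ≤ Cn * ε * m8 K e n := le_mul_of_one_le_left (by linarith) hCn2
          _ = Cn * (ε * m8 K e n) := by ring
          _ ≤ Cn * u := mul_le_mul_of_nonneg_left hu1 (Nat.cast_nonneg _)
      exact_mod_cast h1
    · intro j hj
      exact absurd ((Nat.le_add_right u j).trans hj) huM
  exact ⟨hkey Cx.l (fun y => Cx.l_nonneg y) t1, hkey Γ.r (fun y => Cx.r_nonneg hA'.ok y) t2⟩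

end

end Pool.Agent.W_7d29a1_C1.TmS89
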