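import Pool.Agent.W_7d29a1_C1.PtC88

/-!
MP_7d29a1_pr, attractor route [C1], THE TOP OF THE PAST FOR ONE CONTACT, in the letters of `TopP89` (helper89's TmR89). (helper88)

**`ptq88`**: the contact `x` of a context (line through `pt x = (x.1, x.2)`), rows `iL ≤ ib ≤ x.1`, both pasts (`Cx.l` and `Γ.r`).
-/

set_option autoImplicit false

namespace Pool.Agent.W_7d29a1_C1.PtC88

open MeasureTheory ProbabilityTheory Filter Topology Finset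
open Pool.Agent.W_7d29a1_F Pool.Agent.W_7d29a1_h4g Pool.Agent.W_7d29a1_H
open Pool.Agent.W_7d29a1_HS (In wd md md_abs wd_le_two wd_lower_one)
open Pool.Agent.W_7d29a1_C1.U16 Pool.Agent.W_7d29a1_C1.FarW89 Pool.Agent.W_7d29a1_C1.Win84 Pool.Agent.W_7d29a1_C1.Cr84
open Pool.Agent.W_7d29a1_C1.SysP84 (fh84 PMP84 fh_step fh_nonneg)
open Pool.Agent.W_7d29a1_C1.H60 (Cx)
open Pool.Agent.W_7d29a1_C1.K91 (wt wt_pos)
open Pool.Agent.W_7d29a1_C1.K91P (fw bw)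
open Pool.Agent.W_7d29a1_C1.D31 (tot_l tot_r contact_place)
open Pool.Agent.W_7d29a1_C1.CaS88

noncomputable section

variable {μ : Measure ℝ} {s : ℝ} [IsProbabilityMeasure μ] {c C : ℝ} {n₀ : ℕ}

omit [IsProbabilityMeasure μ] in
/-- A larger threshold. -/
theorem pmp_mono88 {t : ℝ} {η : Env} {p : ℕ → ℝ} {M : ℕ} {l : ℤ → ℝ} (hpos : ∀ k, 0 < p k) (hl : ∀ y, 0 ≤ l y) {a e : ℕ} {x : ℤ}
    (P Q : ℤ → Prop) [DecidablePred P] [DecidablePred Q] (hPQ : ∀ y, P y → Q y) :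
    PMP84 μ s t η p M l a e x P ≤ PMP84 μ s t η p M l a e x Q := by
  unfold PMP84
  refine sum_le_sum_of_subset_of_nonneg (fun y hy => ?_) fun y _ _ => mul_nonneg (nk_nonneg hpos _ _ _ _) (fh_nonneg hpos hl _ _)
  rw [mem_filter] at hy ⊢
  exact ⟨hy.1, hPQ y hy.2⟩

/-- The rows. -/
theorem num88c {c εa : ℝ} (hc : 0 < c) (hεa : 0 < εa) : ∃ n₁ : ℕ, ∀ N : ℕ, n₁ ≤ N →
    32 * (N : ℝ) ≤ Real.exp (c / 32 * (N : ℝ) ^ εa) := by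
  have ev1 := Pool.Agent.W_7d29a1_HZ.Z22.absorb 32 1 (b := c / 32) (g := εa) (by positivity) hεa
  obtain ⟨n₁, hn₁⟩ := eventually_atTop.1 ev1
  refine ⟨n₁, fun N hN => ?_⟩
  have q1 := hn₁ N hN
  rw [Real.rpow_one] at q1
  have h1 : Real.exp (-(N : ℝ) ^ (εa / 2)) ≤ 1 := by
    rw [Real.exp_le_one_iff]
    have : (0 : ℝ) ≤ (N : ℝ) ^ (εa / 2) := Real.rpow_nonneg (Nat.cast_nonneg _) _
    linarith
  have h2 := q1.trans h1
  rw [Real.exp_neg, ← div_eq_mul_inv, div_le_one (Real.exp_pos _)] at h2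
  exact h2

/-- One profile. -/
theorem ptr88 (h : In μ s c C n₀) (hL : LB84 μ s) {ε₁ δ₁ εa : ℝ} (hε₁ : 0 < ε₁) (hεa : 0 < εa) (hδ : εa < δ₁) : ∃ n₁ : ℕ, 1 ≤ n₁ ∧
    ∀ {t c' : ℝ} {N T H M Nt : ℕ} {p : ℕ → ℝ} {η : Env} {l : ℤ → ℝ}, n₁ ≤ T → |t| * H ≤ 1 →
    (∀ k, k < M → p k = Real.exp (s + t)) → (∀ k, M ≤ k → p k = Real.exp s) → (∀ y, 0 ≤ l y) →
    CrS84 μ s t ε₁ δ₁ c' N T M Nt p η → CA88 μ s t c εa N T H M Nt p η → Nt ≤ N → ∀ {Z : ℝ}, Tt88 μ s t η p M Nt l Z →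
    ∀ {κ : Pt} {iL ib i : ℕ} {q : ℤ} {om : ℝ}, κ.1 = i → |q - κ.2| ≤ 1 → iL ≤ ib → ib ≤ i → i - ib ≤ ib - iL → 2 * T ≤ ib - iL →
    i - iL ≤ H → i + 1 ≤ Nt → |q| ≤ N → |t| * wd μ s (ib - iL) ≤ c / 4 * EE μ s (ib - iL) →
    |t| * wd μ s (i - iL) ≤ c / 4 * EE μ s (i - iL) →
    Real.exp (-om) * Z ≤ fh84 μ s t η p M l i q * bh16 μ s t η p M Nt i q → 0 ≤ om →
    om + 1 ≤ c / 16 * ((N : ℝ) ^ εa * EE μ s (ib - iL)) → ∀ {W : ℝ}, (N : ℝ) ^ (5 * ε₁ + εa) * wd μ s (ib - iL) ≤ W →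
    ∀ y : ℤ, |y| ≤ N → |lat16 μ s κ ((ib : ℤ), y)| + 1 ≤ (N : ℝ) ^ εa * wd μ s (ib - iL) →
      32 * (((ib - iL : ℕ) : ℝ) * PMP84 μ s t η p M l ib iL y
        (fun z => W ≤ |lat16 μ s κ ((iL : ℤ), z) - lat16 μ s κ ((ib : ℤ), y)|)) ≤ fh84 μ s t η p M l ib y := by
  have hc0 := h.c0
  obtain ⟨n₁, hn1, HP⟩ := pt88 h hL hε₁ hεa hδ
  obtain ⟨n₂, hn₂⟩ := num88c hc0 hεa
  refine ⟨max n₁ n₂, hn1.trans (le_max_left _ _), ?_⟩
  intro t c' N T H M Nt p η l hT htH hp hp' hl S hCA hNt Z htot κ iL ib i q om hκ hq hLb hbi hii hTi hiH hiN hqN hf hf' hc hom0 hom W hW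
    y hyN hy
  have hpos := pos_p hp hp'
  obtain ⟨n, hn⟩ : ∃ n : ℕ, ib = iL + n := ⟨ib - iL, by omega⟩
  obtain ⟨n', hn'⟩ : ∃ n' : ℕ, i = iL + n' := ⟨i - iL, by omega⟩
  have e1 : ib - iL = n := by omega
  have e2 : i - iL = n' := by omega
  rw [e1] at hii hTi hf hom hW hy
  rw [e2] at hiH hf'
  subst hn hn'
  rw [e1]
  have hnn : n ≤ n' := by omega
  have hn1' : 1 ≤ n := by
    have := hn1.trans ((le_max_left _ _).trans hT)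
    omega
  have hw0 : 0 < wd μ s n := by
    have := wd_two h hn1'
    linarith
  have hE1 : 1 ≤ EE μ s n := one_le_EE n
  have hNn : n ≤ N := by omega
  have hN1 : (1 : ℝ) ≤ N := by exact_mod_cast (show 1 ≤ N by omega)
  have hx : |(y : ℝ) - q + sl μ s * ((n' - n : ℕ) : ℝ)| ≤ (N : ℝ) ^ εa * wd μ s n := by
    refine le_trans ?_ hy
    have a1 : (y : ℝ) - q + sl μ s * ((n' - n : ℕ) : ℝ) = lat16 μ s κ (((iL + n : ℕ) : ℤ), y) - ((q - κ.2 : ℤ) : ℝ) := by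
      unfold lat16
      rw [hκ]
      push_cast [Nat.cast_sub hnn]
      ring
    rw [a1]
    refine (abs_sub _ _).trans (add_le_add le_rfl ?_)
    have : |((q - κ.2 : ℤ) : ℝ)| = ((|q - κ.2| : ℤ) : ℝ) := (Int.cast_abs).symm
    rw [this]
    exact_mod_cast hq
  obtain ⟨-, k2, -⟩ := HP ((le_max_left _ _).trans hT) htH hp hp' hl S hCA hNt htot (a := iL) (n := n) (n' := n') (q := q) (om := om) hTi hnn
    (by omega) hiH (by omega) hqN hf hf' hc hom0 hom y hyN hx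
  have hD : (N : ℝ) ^ (5 * ε₁ + εa) ≤ W / wd μ s n := by rwa [le_div_iff₀ hw0]
  have k3 := k2 (W / wd μ s n) hD
  have e3 : W / wd μ s n * wd μ s n = W := div_mul_cancel₀ _ hw0.ne'
  have hF := fh_nonneg (μ := μ) (s := s) (h := t) (η := η) (M := M) hpos hl (iL + n) y
  have k4 : PMP84 μ s t η p M l (iL + n) iL y
      (fun z => W ≤ |lat16 μ s κ ((iL : ℤ), z) - lat16 μ s κ (((iL + n : ℕ) : ℤ), y)|) ≤
      Real.exp (-(c / 32 * (W / wd μ s n * EE μ s n))) * fh84 μ s t η p M l (iL + n) y := by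
    refine (pmp_mono88 hpos hl _ _ fun z hz => ?_).trans k3
    rw [e3]
    refine le_trans hz (le_of_eq ?_)
    have a1 : lat16 μ s κ ((iL : ℤ), z) - lat16 μ s κ (((iL + n : ℕ) : ℤ), y) = -((y : ℝ) - z - sl μ s * n) := by
      unfold lat16
      push_cast
      ring
    rw [a1, abs_neg]
  have k5 : 32 * (n : ℝ) ≤ Real.exp (c / 32 * (W / wd μ s n * EE μ s n)) := by
    have a1 := hn₂ N (by
      have : n₂ ≤ T := (le_max_right _ _).trans hT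
      omega)
    have a2 : (n : ℝ) ≤ N := by exact_mod_cast hNn
    refine (show 32 * (n : ℝ) ≤ 32 * N by linarith).trans (a1.trans (Real.exp_le_exp.2 ?_))
    refine mul_le_mul_of_nonneg_left ?_ (by positivity)
    have a3 : (N : ℝ) ^ εa ≤ (N : ℝ) ^ (5 * ε₁ + εa) := Real.rpow_le_rpow_of_exponent_le hN1 (by linarith)
    have a4 := a3.trans hD
    have a5 : 0 ≤ W / wd μ s n := le_trans (Real.rpow_nonneg (by linarith) _) hD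
    exact a4.trans (le_mul_of_one_le_right a5 hE1)
  have k6 := mul_le_mul_of_nonneg_left k4 (show (0 : ℝ) ≤ 32 * n by positivity)
  have k7 : 32 * (n : ℝ) * Real.exp (-(c / 32 * (W / wd μ s n * EE μ s n))) ≤ 1 := by
    rw [Real.exp_neg, ← div_eq_mul_inv, div_le_one (Real.exp_pos _)]
    exact k5
  have k8 := mul_le_mul_of_nonneg_right k7 hF
  rw [one_mul] at k8
  rw [← mul_assoc] at k6 ⊢
  exact k6.trans k8

/-- **THE TOP OF THE PAST FOR ONE CONTACT**, both pasts. -/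
theorem ptq88 (h : In μ s c C n₀) (hL : LB84 μ s) {ε₁ δ₁ εa : ℝ} (hε₁ : 0 < ε₁) (hεa : 0 < εa) (hδ : εa < δ₁) : ∃ n₁ : ℕ, 1 ≤ n₁ ∧
    ∀ {Γ : Cx} {c' : ℝ} {N T H : ℕ} {η : Env}, Γ.Ok → Γ.s = s → n₁ ≤ T → |Γ.h| * H ≤ 1 → Γ.N ≤ N →
    CrS84 μ s Γ.h ε₁ δ₁ c' N T Γ.M Γ.N Γ.p η → CA88 μ s Γ.h c εa N T H Γ.M Γ.N Γ.p η →
    ∀ {x : ℕ × ℤ}, x ∈ Γ.rows 0 Γ.N → |x.2| + 1 ≤ N → ∀ {iL ib : ℕ}, iL ≤ ib → ib ≤ x.1 → x.1 - ib ≤ ib - iL → 2 * T ≤ ib - iL →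
    x.1 - iL ≤ H → |Γ.h| * wd μ s (ib - iL) ≤ c / 4 * EE μ s (ib - iL) → |Γ.h| * wd μ s (x.1 - iL) ≤ c / 4 * EE μ s (x.1 - iL) →
    ∀ {om : ℝ}, 0 ≤ om → Real.exp (-om) ≤ Γ.w x η → om + 1 ≤ c / 16 * ((N : ℝ) ^ εa * EE μ s (ib - iL)) →
    ∀ {W : ℝ}, (N : ℝ) ^ (5 * ε₁ + εa) * wd μ s (ib - iL) ≤ W →
    ∀ y : ℤ, |y| ≤ N → |lat16 μ s ((x.1 : ℤ), x.2) ((ib : ℤ), y)| + 1 ≤ (N : ℝ) ^ εa * wd μ s (ib - iL) →
      32 * (((ib - iL : ℕ) : ℝ) * PMP84 μ s Γ.h η Γ.p Γ.M Cx.l ib iL y (fun z => W ≤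
        |lat16 μ s ((x.1 : ℤ), x.2) ((iL : ℤ), z) - lat16 μ s ((x.1 : ℤ), x.2) ((ib : ℤ), y)|)) ≤
          fh84 μ s Γ.h η Γ.p Γ.M Cx.l ib y ∧
      32 * (((ib - iL : ℕ) : ℝ) * PMP84 μ s Γ.h η Γ.p Γ.M Γ.r ib iL y (fun z => W ≤
        |lat16 μ s ((x.1 : ℤ), x.2) ((iL : ℤ), z) - lat16 μ s ((x.1 : ℤ), x.2) ((ib : ℤ), y)|)) ≤
          fh84 μ s Γ.h η Γ.p Γ.M Γ.r ib y := by
  obtain ⟨n₁, hn1, HR⟩ := ptr88 h hL hε₁ hεa hδ
  refine ⟨n₁, hn1, ?_⟩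
  intro Γ c' N T H η hΓ hs hT htH hN S hCA x hx hxN iL ib hLb hbx hii hTi hiH hf hf' om hom0 hw hom W hW y hyN hy
  have hp : ∀ k, k < Γ.M → Γ.p k = Real.exp (s + Γ.h) := fun k hk => by
    rw [← hs]
    exact if_pos hk
  have hp' : ∀ k, Γ.M ≤ k → Γ.p k = Real.exp s := fun k hk => by
    rw [← hs]
    exact if_neg (not_lt.2 hk)
  have hxr := Cx.mem_rows.1 hx
  have hxN' : x.1 < Γ.N := hxr.1.2
  have hth : 0 < thN μ s Γ.h Γ.M Γ.N := Real.exp_pos _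
  obtain ⟨c1, c2⟩ := contact_place hΓ hx η
  have ZM := Γ.ZM_pos η
  have ZR := Cx.ZR_pos hΓ η
  have q1 : |x.2 - 1| ≤ (N : ℤ) := by
    have := abs_sub x.2 1
    rw [abs_one] at this
    omega
  have q2 : |x.2| ≤ (N : ℤ) := by omega
  constructor
  · refine HR hT htH hp hp' Cx.l_nonneg S hCA hN (tt_of (tot_l hΓ η)) (i := x.1) (q := x.2 - 1) (om := om) rfl ?_ hLb hbx hii hTi hiH
      (by omega) q1 hf hf' ?_ hom0 hom hW y hyN hy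
    · show |x.2 - 1 - x.2| ≤ 1
      rw [show x.2 - 1 - x.2 = -1 by ring]
      decide
    · rw [fb_eq (by omega)]
      have a1 := mul_le_mul_of_nonneg_left (le_trans (mul_le_mul_of_nonneg_right hw ZM.le) c1) hth.le
      linarith
  · refine HR hT htH hp hp' (Cx.r_nonneg hΓ) S hCA hN (tt_of (tot_r hΓ η)) (i := x.1) (q := x.2) (om := om) rfl ?_ hLb hbx hii hTi hiH
      (by omega) q2 hf hf' ?_ hom0 hom hW y hyN hy
    · show |x.2 - x.2| ≤ 1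
      rw [sub_self]
      decide
    · rw [fb_eq (by omega)]
      have a1 := mul_le_mul_of_nonneg_left (le_trans (mul_le_mul_of_nonneg_right hw ZR.le) c2) hth.le
      linarith

end

end Pool.Agent.W_7d29a1_C1.PtC88
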