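import Pool.Agent.W_7d29a1_C1.CaS88
import Pool.Agent.W_7d29a1_C1.CrI84

/-!
MP_7d29a1_pr, attractor route [C1]: THE RARE EVENT OF THE CRUDE TOP (past and future). (helper70)

`evt70` : off one event of probability `≤ 3 exp (-N ^ g)`, for every profile with at most `Nf` rows of the force: the crude bounds `CrS84`
(helper84) at `ε₁` and the strong crude arms `CA88` (helper88) at `εa < δ₁`, with `7 (5 ε₁ + εa) < κ₁` (`κ₁` given).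
-/

set_option autoImplicit false

namespace Pool.Agent.W_7d29a1_C1.TpZ70

open MeasureTheory ProbabilityTheory Filter Topology Finset
open Pool.Agent.W_7d29a1_F Pool.Agent.W_7d29a1_h4g Pool.Agent.W_7d29a1_H
open Pool.Agent.W_7d29a1_HS (In wd)
open Pool.Agent.W_7d29a1_C1.Win84 Pool.Agent.W_7d29a1_C1.Cr84 Pool.Agent.W_7d29a1_C1.CaS88

noncomputable section

variable {μ : Measure ℝ} {s : ℝ} [IsProbabilityMeasure μ] {c C : ℝ} {n₀ : ℕ}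

/-- **THE EVENT OF THE CRUDE TOP.** -/
theorem evt70 (h : In μ s c C n₀) (hL : LB84 μ s) (hU : UB84 μ s) (hF : FUT84 μ s) {κ₁ τ : ℝ} (hκ₁ : 0 < κ₁) (hτ : 0 < τ) :
    ∃ ε₁ δ₁ εa κ₀ g c₁ : ℝ, 0 < ε₁ ∧ 0 < εa ∧ εa < δ₁ ∧ 7 * (5 * ε₁ + εa) < κ₁ ∧ 0 < κ₀ ∧ 0 < g ∧ 0 < c₁ ∧ ∃ n₁ : ℕ,
    ∀ N Nf T H : ℕ, n₁ ≤ N → (N : ℝ) ^ τ ≤ T → T ≤ N → H ≤ N → ∀ t : ℝ, |t| * EE μ s Nf ≤ (N : ℝ) ^ κ₀ → |t| * T ≤ 1 →
      ∃ bad : Set Env, (law μ).real bad ≤ 3 * Real.exp (-(N : ℝ) ^ g) ∧ ∀ η ∉ bad, ∀ (M Nt : ℕ) (p : ℕ → ℝ), M ≤ Nf → M + 1 ≤ Nt →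
        Nt ≤ N → (∀ k, k < M → p k = Real.exp (s + t)) → (∀ k, M ≤ k → p k = Real.exp s) →
        CrS84 μ s t ε₁ δ₁ c₁ N T M Nt p η ∧ CA88 μ s t c εa N T H M Nt p η := by
  obtain ⟨ε₁, hε₁⟩ : ∃ ε₁ : ℝ, ε₁ = κ₁ / 84 := ⟨_, rfl⟩
  have hε10 : 0 < ε₁ := by rw [hε₁]; positivity
  obtain ⟨δ₁, k₁, c₁, hδ₁, hk₁, hc₁, N₁, H1⟩ := crd84f h hL hU hF (ε := ε₁) (τ := τ) hε10 hτ
  obtain ⟨εa, hεa⟩ : ∃ εa : ℝ, εa = min (δ₁ / 2) ε₁ := ⟨_, rfl⟩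
  have hεa0 : 0 < εa := by rw [hεa]; exact lt_min (by positivity) hε10
  have hεa1 : εa ≤ δ₁ / 2 := by rw [hεa]; exact min_le_left _ _
  have hεa2 : εa ≤ ε₁ := by rw [hεa]; exact min_le_right _ _
  obtain ⟨δ₀, k₀, c₀, hδ₀, hk₀, hc₀, N₀, H0⟩ := crd84f h hL hU hF (ε := εa / 4) (τ := τ) (by positivity) hτ
  obtain ⟨P, HP⟩ := fg_law88 h
  obtain ⟨c₂, hc₂, N₂, H2⟩ := HP (ε₀ := εa / 4) (τ := τ) (by positivity) hτ
  obtain ⟨n₂, hn₂, H3⟩ := cas88 h hL P (ε := εa) (ε₀ := εa / 4) (by positivity) (by linarith)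
  obtain ⟨κ₀, hκ₀⟩ : ∃ κ₀ : ℝ, κ₀ = min k₁ k₀ := ⟨_, rfl⟩
  obtain ⟨g, hg⟩ : ∃ g : ℝ, g = min c₁ (min c₀ c₂) := ⟨_, rfl⟩
  obtain ⟨N₃, hN₃⟩ := eventually_atTop.1 (ev84 (n₂ : ℝ) hτ)
  refine ⟨ε₁, δ₁, εa, κ₀, g, c₁, hε10, hεa0, by linarith, by linarith, ?_, ?_, hc₁, max (max N₁ N₀) (max N₂ (max N₃ 1)), ?_⟩
  · rw [hκ₀]
    exact lt_min hk₁ hk₀
  · rw [hg]
    exact lt_min hc₁ (lt_min hc₀ hc₂)
  intro N Nf T H hN hNT hTN hHN t ht htT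
  have b1 : N₁ ≤ N := ((le_max_left _ _).trans (le_max_left _ _)).trans hN
  have b0 : N₀ ≤ N := ((le_max_right _ _).trans (le_max_left _ _)).trans hN
  have b2 : N₂ ≤ N := ((le_max_left _ _).trans (le_max_right _ _)).trans hN
  have b3 : N₃ ≤ N := (((le_max_left _ _).trans (le_max_right _ _)).trans (le_max_right _ _)).trans hN
  have b4 : 1 ≤ N := (((le_max_right _ _).trans (le_max_right _ _)).trans (le_max_right _ _)).trans hN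
  have hNR : (1 : ℝ) ≤ N := by exact_mod_cast b4
  have hpk : ∀ {k : ℝ}, κ₀ ≤ k → |t| * EE μ s Nf ≤ (N : ℝ) ^ k := fun hk => ht.trans (Real.rpow_le_rpow_of_exponent_le hNR hk)
  have hpg : ∀ {k : ℝ}, g ≤ k → Real.exp (-(N : ℝ) ^ k) ≤ Real.exp (-(N : ℝ) ^ g) := fun hk =>
    Real.exp_le_exp.2 (neg_le_neg (Real.rpow_le_rpow_of_exponent_le hNR hk))
  obtain ⟨G₁, hG₁, P₁⟩ := H1 N Nf T b1 hNT hTN t (hpk (by rw [hκ₀]; exact min_le_left _ _))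
  obtain ⟨G₀, hG₀, P₀⟩ := H0 N Nf T b0 hNT hTN t (hpk (by rw [hκ₀]; exact min_le_right _ _))
  have hG₂ := H2 N T H b2 hNT hTN hHN
  have hT1 : n₂ ≤ T := by
    have : (n₂ : ℝ) ≤ T := (hN₃ N b3).trans hNT
    exact_mod_cast this
  refine ⟨G₁ᶜ ∪ (G₀ᶜ ∪ (FG88 μ s c P ((N : ℝ) ^ (εa / 4)) N T H)ᶜ), ?_, ?_⟩
  · refine (measureReal_union_le _ _).trans ?_
    have u1 := measureReal_union_le (μ := law μ) G₀ᶜ (FG88 μ s c P ((N : ℝ) ^ (εa / 4)) N T H)ᶜ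
    have v1 := hG₁.trans (hpg (by rw [hg]; exact min_le_left _ _))
    have v0 := hG₀.trans (hpg (by rw [hg]; exact (min_le_right _ _).trans (min_le_left _ _)))
    have v2 := hG₂.trans (hpg (by rw [hg]; exact (min_le_right _ _).trans (min_le_right _ _)))
    linarith
  · intro η hη M Nt p hMf hM hNt hp hp'
    rw [Set.mem_union, Set.mem_union, not_or, not_or, Set.mem_compl_iff, Set.mem_compl_iff, Set.mem_compl_iff, not_not, not_not,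
      not_not] at hη
    obtain ⟨g1, g0, g2⟩ := hη
    exact ⟨P₁ η g1 M Nt p hMf hM hNt hp hp', H3 hT1 hδ₀.le htT hp hp' (P₀ η g0 M Nt p hMf hM hNt hp hp') g2 hNt⟩

end

end Pool.Agent.W_7d29a1_C1.TpZ70
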