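import Pool.Agent.W_7d29a1_C1.RgS70
import Pool.Agent.W_7d29a1_C1.TpE70
import Pool.Agent.W_7d29a1_C1.PtQ88

/-!
MP_7d29a1_pr, attractor route [C1]: **THE CRUDE TOP OF THE PAST, FOR ALL CONTACTS OF A CONTEXT** off one rare event. (helper70)

`topZ70` : the statement `TopP89` (helper89, `TmR89`) written out, for both profiles, at `M = m8 / 2`, `L = m8 + x`, every contact of weight
`≥ exp (-n ^ e')`; the bad event has probability `≤ n ^ (-3)`.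
-/

set_option autoImplicit false

namespace Pool.Agent.W_7d29a1_C1.TpZ70

open MeasureTheory ProbabilityTheory Filter Topology Finset
open Pool.Agent.W_7d29a1_F Pool.Agent.W_7d29a1_h4g Pool.Agent.W_7d29a1_H Pool.Agent.W_7d29a1_HS
open Pool.Agent.W_7d29a1_C1.T10 (Gd pt Tg Hg Tg_pos Tg_mono Tg_lt Hg_mono GW)
open Pool.Agent.W_7d29a1_C1.H8 (h8 m8 GridN8 gridN8 S8)
open Pool.Agent.W_7d29a1_C1.H60 (Cx Adm)
open Pool.Agent.W_7d29a1_C1.Win84 (LB84 UB84 FUT84 ev84)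
open Pool.Agent.W_7d29a1_C1.SysP84 (fh84 PMP84)
open Pool.Agent.W_7d29a1_C1.U16 (lat16)
open Pool.Agent.W_7d29a1_C1.PtC88 (ptq88)
open Pool.Agent.W_7d29a1_C1.Cr84 (CrS84)
open Pool.Agent.W_7d29a1_C1.CaS88 (CA88)

noncomputable section

/-- The rows of the towers of one contact. -/
theorem rows70 {h₀ K L n : ℕ} {G : Gd} {Γ : Cx} {c : ℕ × ℤ} (hK : 2 ≤ K) (h : Rg70 (Tg h₀ K) L n G Γ c) {b M : ℕ} (hb : 1 ≤ b)
    (hbM : b ≤ M) (hML : M + 5 ≤ L) : (G.z L c).1 - Tg h₀ K L ≤ (G.z b c).1 - Tg h₀ K b ∧ (G.z b c).1 - Tg h₀ K b ≤ c.1 ∧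
      c.1 - ((G.z b c).1 - Tg h₀ K b) ≤ (G.z b c).1 - Tg h₀ K b - ((G.z L c).1 - Tg h₀ K L) ∧
      Tg h₀ K L ≤ 2 * ((G.z b c).1 - Tg h₀ K b - ((G.z L c).1 - Tg h₀ K L)) ∧ c.1 - ((G.z L c).1 - Tg h₀ K L) ≤ 2 * Tg h₀ K L ∧
      Tg h₀ K (M + 2) ≤ (G.z b c).1 - Tg h₀ K b - ((G.z L c).1 - Tg h₀ K L) ∧
      (G.z b c).1 - Tg h₀ K b - ((G.z L c).1 - Tg h₀ K L) ≤ 2 * Tg h₀ K L ∧ c.1 ≤ (G.z b c).1 - Tg h₀ K b + 2 * Tg h₀ K L := by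
  have hK1 : 1 ≤ K := by omega
  have h1 : 32 * Tg h₀ K b ≤ Tg h₀ K L := by
    have e : L = b + (L - b) := by omega
    have h2 : 2 ^ 5 ≤ K ^ (L - b) := by
      calc 2 ^ 5 ≤ K ^ 5 := Nat.pow_le_pow_left hK 5
        _ ≤ K ^ (L - b) := Nat.pow_le_pow_right hK1 (by omega)
    rw [e, Tg_lt hb (L - b)]
    calc 32 * Tg h₀ K b = Tg h₀ K b * 2 ^ 5 := by ring
      _ ≤ Tg h₀ K b * K ^ (L - b) := Nat.mul_le_mul_left _ h2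
  have h3 : 8 * Tg h₀ K (M + 2) ≤ Tg h₀ K L := by
    have e : L = (M + 2) + (L - (M + 2)) := by omega
    have h2 : 2 ^ 3 ≤ K ^ (L - (M + 2)) := by
      calc 2 ^ 3 ≤ K ^ 3 := Nat.pow_le_pow_left hK 3
        _ ≤ K ^ (L - (M + 2)) := Nat.pow_le_pow_right hK1 (by omega)
    rw [e, Tg_lt (by omega : 1 ≤ M + 2) (L - (M + 2))]
    calc 8 * Tg h₀ K (M + 2) = Tg h₀ K (M + 2) * 2 ^ 3 := by ring
      _ ≤ Tg h₀ K (M + 2) * K ^ (L - (M + 2)) := Nat.mul_le_mul_left _ h2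
  have h4 := h.lo
  have h5 := h.le b
  have h6 := h.mono b L (by omega) le_rfl
  have h7 := h.lt b hb (by omega)
  have h8 := h.lt L (by omega) le_rfl
  refine ⟨by omega, by omega, by omega, by omega, by omega, by omega, by omega, by omega⟩

variable {μ : Measure ℝ} {s : ℝ} [IsProbabilityMeasure μ] {c C : ℝ} {n₀ : ℕ}

/-- `A n ^ (-x)` is small. -/
theorem pl70 (A : ℝ) {a b : ℝ} (hab : a < b) : ∀ᶠ n : ℕ in atTop, A * (n : ℝ) ^ a ≤ (n : ℝ) ^ b := by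
  filter_upwards [ev84 A (show 0 < b - a by linarith), eventually_ge_atTop 1] with n h1 hn
  have hn0 : (0 : ℝ) < n := by exact_mod_cast hn
  calc A * (n : ℝ) ^ a ≤ (n : ℝ) ^ (b - a) * (n : ℝ) ^ a := mul_le_mul_of_nonneg_right h1 (by positivity)
    _ = (n : ℝ) ^ b := by rw [← Real.rpow_add hn0, sub_add_cancel]

/-- The law of the bad event. -/
theorem law70 {g : ℝ} (hg : 0 < g) : ∀ᶠ n : ℕ in atTop, 3 * Real.exp (-(n : ℝ) ^ g) ≤ (n : ℝ) ^ (-(3 : ℝ)) := by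
  have ev1 := Pool.Agent.W_7d29a1_HZ.Z22.absorb 3 3 (b := 1) (g := g) one_pos hg
  filter_upwards [ev1, eventually_ge_atTop 1] with n h1 hn
  have hn0 : (0 : ℝ) < n := by exact_mod_cast hn
  have h2 : Real.exp (-(n : ℝ) ^ (g / 2)) ≤ 1 := Real.exp_le_one_iff.2 (neg_nonpos.2 (by positivity))
  have h3 := h1.trans h2
  rw [one_mul] at h3
  have h4 : (0 : ℝ) < (n : ℝ) ^ (3 : ℝ) := by positivity
  have h5 : (n : ℝ) ^ (-(3 : ℝ)) = ((n : ℝ) ^ (3 : ℝ))⁻¹ := Real.rpow_neg hn0.le 3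
  rw [h5, ← one_div, le_div_iff₀ h4]
  refine le_trans (le_of_eq ?_) h3
  ring

/-- **ONE CONTACT**: the numbers as hypotheses. -/
theorem one70 (h0 : In μ s c C n₀) (hL : LB84 μ s) {ε₁ δ₁ εa : ℝ} (hε₁ : 0 < ε₁) (hεa : 0 < εa) (hδ : εa < δ₁) : ∃ n₂ : ℕ, 1 ≤ n₂ ∧
    ∀ {Γ : Cx} {c' W Kt om : ℝ} {N Tl h₀ K L M n : ℕ} {G : Gd} {q : ℕ × ℤ} {ω : Env}, Γ.Ok → Γ.s = s → n₂ ≤ Tl → 2 ≤ K → M + 5 ≤ L →
    Rg70 (Tg h₀ K) L n G Γ q → 4 * Tl ≤ Tg h₀ K L → Γ.N ≤ N →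
    (∀ m : ℕ, m ≤ 2 * Tg h₀ K L → |Γ.h| * m ≤ 1 ∧ |Γ.h| * wd μ s m ≤ c / 4 * EE μ s m) →
    CrS84 μ s Γ.h ε₁ δ₁ c' N Tl Γ.M Γ.N Γ.p ω → CA88 μ s Γ.h c εa N Tl (2 * Tg h₀ K L) Γ.M Γ.N Γ.p ω → q ∈ Γ.rows 0 Γ.N →
    1 ≤ q.2 → q.2 ≤ (q.1 : ℤ) + 1 → 0 ≤ om → Real.exp (-om) ≤ Γ.w q ω → om + 1 ≤ c / 16 * (N : ℝ) ^ εa → 0 < Kt → 2 * Kt + 1 ≤ (N : ℝ) ^ εa →
    2 * (N : ℝ) ^ (5 * ε₁ + εa) ≤ 4 ^ (L - M - 4) → (∀ m : ℕ, wd μ s m ≤ W * m) → 0 ≤ W →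
    Kt * W * Tg h₀ K L + 2 * Tg h₀ K L + 1 ≤ n → ∀ b, 1 ≤ b → b ≤ M → ∀ y : ℤ,
    |lat16 μ s (pt q) ((((G.z b q).1 - Tg h₀ K b : ℕ) : ℤ), y)| ≤ Kt * wd μ s (Tg h₀ K (M + 2)) →
      32 * ((((G.z b q).1 - Tg h₀ K b - ((G.z L q).1 - Tg h₀ K L) : ℕ) : ℝ) *
        PMP84 μ s Γ.h ω Γ.p Γ.M Cx.l ((G.z b q).1 - Tg h₀ K b) ((G.z L q).1 - Tg h₀ K L) y
          (fun z => 4 ^ (L - M - 4) * wd μ s (2 * Tg h₀ K L) ≤ |lat16 μ s (pt q) ((((G.z L q).1 - Tg h₀ K L : ℕ) : ℤ), z) -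
            lat16 μ s (pt q) ((((G.z b q).1 - Tg h₀ K b : ℕ) : ℤ), y)|)) ≤ fh84 μ s Γ.h ω Γ.p Γ.M Cx.l ((G.z b q).1 - Tg h₀ K b) y ∧
      32 * ((((G.z b q).1 - Tg h₀ K b - ((G.z L q).1 - Tg h₀ K L) : ℕ) : ℝ) *
        PMP84 μ s Γ.h ω Γ.p Γ.M Γ.r ((G.z b q).1 - Tg h₀ K b) ((G.z L q).1 - Tg h₀ K L) y
          (fun z => 4 ^ (L - M - 4) * wd μ s (2 * Tg h₀ K L) ≤ |lat16 μ s (pt q) ((((G.z L q).1 - Tg h₀ K L : ℕ) : ℤ), z) -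
            lat16 μ s (pt q) ((((G.z b q).1 - Tg h₀ K b : ℕ) : ℤ), y)|)) ≤ fh84 μ s Γ.h ω Γ.p Γ.M Γ.r ((G.z b q).1 - Tg h₀ K b) y := by
  have hc0 := h0.c0
  obtain ⟨n₂, hn₂, HQ⟩ := ptq88 h0 hL hε₁ hεa hδ
  refine ⟨n₂, hn₂, ?_⟩
  intro Γ c' W Kt om N Tl h₀ K L M n G q ω hok hs hTl1 hK hML hrg hTl4 hΓN hforce S hCA hmem hq1 hq2 hom hw homN hKt hva h57 HW hW hcN
    b hb hbM y hy
  have hrw := rows70 (M := M) hK hrg hb hbM hML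
  have hhi := hrg.hi
  have hTM : (Tg h₀ K (M + 2) : ℝ) ≤ Tg h₀ K L := by
    exact_mod_cast Tg_mono (by omega : 1 ≤ K) (by omega : M + 2 ≤ L)
  have hT0 : (0 : ℝ) ≤ Tg h₀ K L := Nat.cast_nonneg _
  obtain ⟨TL, hTL⟩ : ∃ TL : ℕ, TL = Tg h₀ K L := ⟨_, rfl⟩
  obtain ⟨TM, hTMd⟩ : ∃ TM : ℕ, TM = Tg h₀ K (M + 2) := ⟨_, rfl⟩
  obtain ⟨iL, hiL⟩ : ∃ iL : ℕ, iL = (G.z L q).1 - Tg h₀ K L := ⟨_, rfl⟩
  obtain ⟨ib, hib⟩ : ∃ ib : ℕ, ib = (G.z b q).1 - Tg h₀ K b := ⟨_, rfl⟩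
  rw [← hiL, ← hib, ← hTL, ← hTMd] at hrw
  rw [← hiL, ← hib, ← hTL]
  rw [← hib, ← hTMd] at hy
  rw [← hTL] at hTM hT0 hTl4 hforce hCA hcN
  rw [← hTMd] at hTM
  clear hrg hTL hTMd hiL hib
  obtain ⟨r1, r2, r3, r4, r5, r6, r7, r8⟩ := hrw
  obtain ⟨j, hj⟩ : ∃ j : ℕ, j = ib - iL := ⟨_, rfl⟩
  have hn₂1 := hn₂
  have hj1 : 1 ≤ j := by omega
  have hwj : 1 ≤ wd μ s j := by
    have g1 := wd_ge_one h0 hj1
    have g2 := one_le_EE (μ := μ) (s := s) j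
    linarith only [g1, g2]
  have hwM : wd μ s TM ≤ 2 * wd μ s j := by
    rcases Nat.eq_zero_or_pos TM with h1 | h1
    · rw [h1]
      have : wd μ s 0 = 0 := by unfold wd; simp
      rw [this]
      linarith only [hwj]
    · exact wd_le_two h0 h1 (by omega)
  have hwL : wd μ s j ≤ 2 * wd μ s (2 * TL) := wd_le_two h0 hj1 (by omega)
  have hs0 := h0.sl_pos
  have hs1 := h0.sl_lt
  have hlat : lat16 μ s ((q.1 : ℤ), q.2) ((ib : ℤ), y) = (y : ℝ) - q.2 + sl μ s * ((q.1 : ℝ) - ib) := by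
    unfold lat16
    push_cast
    ring
  have hy' : |lat16 μ s ((q.1 : ℤ), q.2) ((ib : ℤ), y)| ≤ Kt * wd μ s TM := hy
  have hNε : 0 ≤ (N : ℝ) ^ εa := Real.rpow_nonneg (Nat.cast_nonneg _) _
  have A1 : |q.2| + 1 ≤ (N : ℤ) := by
    rw [abs_of_nonneg (by omega)]
    have h2 : (q.1 : ℤ) + n ≤ Γ.N := by exact_mod_cast hhi
    have h3 : (Γ.N : ℤ) ≤ N := by exact_mod_cast hΓN
    have h4 : (2 : ℤ) ≤ n := by
      have h5 : (2 : ℝ) * TL + 1 ≤ n := by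
        have : 0 ≤ Kt * W * TL := by positivity
        linarith only [this, hcN]
      have h6 : 2 * TL + 1 ≤ n := by exact_mod_cast h5
      omega
    omega
  have A2 : om + 1 ≤ c / 16 * ((N : ℝ) ^ εa * EE μ s (ib - iL)) := by
    refine homN.trans (mul_le_mul_of_nonneg_left ?_ (by positivity))
    exact le_mul_of_one_le_right hNε (one_le_EE _)
  have A3 : (N : ℝ) ^ (5 * ε₁ + εa) * wd μ s (ib - iL) ≤ 4 ^ (L - M - 4) * wd μ s (2 * TL) := by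
    rw [← hj]
    have h4 : 0 ≤ wd μ s (2 * TL) := h0.wd_nonneg _
    have h5 : 0 ≤ (N : ℝ) ^ (5 * ε₁ + εa) := Real.rpow_nonneg (Nat.cast_nonneg _) _
    calc (N : ℝ) ^ (5 * ε₁ + εa) * wd μ s j ≤ (N : ℝ) ^ (5 * ε₁ + εa) * (2 * wd μ s (2 * TL)) :=
          mul_le_mul_of_nonneg_left hwL h5
      _ = 2 * (N : ℝ) ^ (5 * ε₁ + εa) * wd μ s (2 * TL) := by ring
      _ ≤ _ := mul_le_mul_of_nonneg_right h57 h4
  have A4 : |y| ≤ (N : ℤ) := by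
    rw [hlat] at hy'
    have h2 : Kt * wd μ s TM ≤ Kt * W * TL := by
      calc Kt * wd μ s TM ≤ Kt * (W * TM) := mul_le_mul_of_nonneg_left (HW TM) hKt.le
        _ ≤ Kt * (W * TL) := mul_le_mul_of_nonneg_left (mul_le_mul_of_nonneg_left hTM hW) hKt.le
        _ = _ := by ring
    have h5 : (0 : ℝ) ≤ (q.1 : ℝ) - ib := by
      have : (ib : ℝ) ≤ q.1 := by exact_mod_cast r2
      linarith only [this]
    have h6 : (q.1 : ℝ) - ib ≤ 2 * TL := by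
      have : (q.1 : ℝ) ≤ ib + 2 * TL := by exact_mod_cast r8
      linarith only [this]
    have h7 : 0 ≤ sl μ s * ((q.1 : ℝ) - ib) := mul_nonneg hs0.le h5
    have h8 : sl μ s * ((q.1 : ℝ) - ib) ≤ 2 * TL := by
      calc sl μ s * ((q.1 : ℝ) - ib) ≤ 1 * ((q.1 : ℝ) - ib) := mul_le_mul_of_nonneg_right hs1.le h5
        _ ≤ 2 * TL := by rw [one_mul]; exact h6
    have h14 := abs_le.1 hy'
    have h15 : (1 : ℝ) ≤ q.2 := by exact_mod_cast hq1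
    have h16 : (q.2 : ℝ) ≤ q.1 + 1 := by exact_mod_cast hq2
    have h17 : (q.1 : ℝ) + n ≤ N := by
      have : q.1 + n ≤ N := hhi.trans hΓN
      exact_mod_cast this
    have h20 : (0 : ℝ) ≤ q.1 := Nat.cast_nonneg _
    have h18 : |(y : ℝ)| ≤ N := by
      rw [abs_le]
      constructor
      · linarith only [h14.1, h2, h8, hcN, h17, h20, h15]
      · linarith only [h14.2, h2, h7, hcN, h17, h16, hT0]
    have h19 : ((|y| : ℤ) : ℝ) ≤ ((N : ℤ) : ℝ) := by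
      push_cast
      exact h18
    exact_mod_cast h19
  have A5 : |lat16 μ s ((q.1 : ℤ), q.2) ((ib : ℤ), y)| + 1 ≤ (N : ℝ) ^ εa * wd μ s (ib - iL) := by
    rw [← hj]
    have h1 : Kt * wd μ s TM ≤ Kt * (2 * wd μ s j) := mul_le_mul_of_nonneg_left hwM hKt.le
    have h2 : (2 * Kt + 1) * wd μ s j ≤ (N : ℝ) ^ εa * wd μ s j := mul_le_mul_of_nonneg_right hva (by linarith only [hwj])
    linarith only [h1, h2, hy', hwj]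
  exact HQ hok hs hTl1 (hforce _ le_rfl).1 hΓN S hCA hmem A1 r1 r2 r3 (by omega) r5 (hforce _ (by omega)).2 (hforce _ r5).2 hom hw A2 A3 y A4 A5

/-- **THE CRUDE TOP OF THE PAST**, all contacts of a context. -/
theorem topZ70 (h0 : In μ s c C n₀) (hL : LB84 μ s) (hU : UB84 μ s) (hF : FUT84 μ s) : ∀ (K B : ℕ) (R C₀ : ℝ), 2 ≤ K → 2 ≤ B → 1 ≤ C₀ →
    1 ≤ R → ∀ e : ℝ, 0 < e → e ≤ 1 / 32 → ∀ e₀ : ℝ, 0 < e₀ → e₀ ≤ e → ∀ (x : ℕ) (Kt : ℝ), 0 < Kt → ∃ s₁ e' : ℝ, 0 < s₁ ∧ 0 < e' ∧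
      ∀ c₂ : ℝ, 0 < c₂ → c₂ ≤ s₁ → ∀ δ' : ℝ, 0 < δ' → δ' ≤ c₂ / 16 → ∃ κ₀ : ℝ, 0 < κ₀ ∧ ∀ κ : ℝ, 0 < κ → κ ≤ κ₀ →
        ∃ Q₀ : ℕ, 1 ≤ Q₀ ∧ ∀ Q : ℕ, Q₀ ∣ Q → 1 ≤ Q → ∀ᶠ n : ℕ in atTop, ∀ G : Gd, GW μ s R B C₀ (h8 Q e₀ n) K (m8 K e n + x) G →
          ∀ Γ : Cx, Adm μ s c₂ δ' κ n Γ → ∃ bad : Set Env, law μ bad ≤ ENNReal.ofReal ((n : ℝ) ^ (-(3 : ℝ))) ∧
            ∀ ω ∉ bad, ∀ q ∈ S8 e K n G Γ, Real.exp (-((n : ℝ) ^ e')) ≤ Γ.w q ω →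
              (∀ b, 1 ≤ b → b ≤ m8 K e n / 2 → ∀ y : ℤ, |lat16 μ s (pt q) ((((G.z b q).1 - Tg (h8 Q e₀ n) K b : ℕ) : ℤ), y)| ≤
                  Kt * wd μ s (Tg (h8 Q e₀ n) K (m8 K e n / 2 + 2)) →
                32 * ((((G.z b q).1 - Tg (h8 Q e₀ n) K b - ((G.z (m8 K e n + x) q).1 - Tg (h8 Q e₀ n) K (m8 K e n + x)) : ℕ) : ℝ) *
                  PMP84 μ s Γ.h ω Γ.p Γ.M Cx.l ((G.z b q).1 - Tg (h8 Q e₀ n) K b)
                    ((G.z (m8 K e n + x) q).1 - Tg (h8 Q e₀ n) K (m8 K e n + x)) y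
                  (fun z => 4 ^ (m8 K e n + x - m8 K e n / 2 - 4) * wd μ s (2 * Tg (h8 Q e₀ n) K (m8 K e n + x)) ≤
                    |lat16 μ s (pt q) ((((G.z (m8 K e n + x) q).1 - Tg (h8 Q e₀ n) K (m8 K e n + x) : ℕ) : ℤ), z) -
                      lat16 μ s (pt q) ((((G.z b q).1 - Tg (h8 Q e₀ n) K b : ℕ) : ℤ), y)|)) ≤
                fh84 μ s Γ.h ω Γ.p Γ.M Cx.l ((G.z b q).1 - Tg (h8 Q e₀ n) K b) y) ∧
              (∀ b, 1 ≤ b → b ≤ m8 K e n / 2 → ∀ y : ℤ, |lat16 μ s (pt q) ((((G.z b q).1 - Tg (h8 Q e₀ n) K b : ℕ) : ℤ), y)| ≤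
                  Kt * wd μ s (Tg (h8 Q e₀ n) K (m8 K e n / 2 + 2)) →
                32 * ((((G.z b q).1 - Tg (h8 Q e₀ n) K b - ((G.z (m8 K e n + x) q).1 - Tg (h8 Q e₀ n) K (m8 K e n + x)) : ℕ) : ℝ) *
                  PMP84 μ s Γ.h ω Γ.p Γ.M Γ.r ((G.z b q).1 - Tg (h8 Q e₀ n) K b)
                    ((G.z (m8 K e n + x) q).1 - Tg (h8 Q e₀ n) K (m8 K e n + x)) y
                  (fun z => 4 ^ (m8 K e n + x - m8 K e n / 2 - 4) * wd μ s (2 * Tg (h8 Q e₀ n) K (m8 K e n + x)) ≤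
                    |lat16 μ s (pt q) ((((G.z (m8 K e n + x) q).1 - Tg (h8 Q e₀ n) K (m8 K e n + x) : ℕ) : ℤ), z) -
                      lat16 μ s (pt q) ((((G.z b q).1 - Tg (h8 Q e₀ n) K b : ℕ) : ℤ), y)|)) ≤
                fh84 μ s Γ.h ω Γ.p Γ.M Γ.r ((G.z b q).1 - Tg (h8 Q e₀ n) K b) y) := by
  intro K B R C₀ hK hB hC₀ hR e he he1 e₀ he₀ hee x Kt hKt
  have hlK : 0 < Real.log K := Real.log_pos (by exact_mod_cast (by omega : 1 < K))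
  have hl2 : 0 < Real.log 2 := Real.log_pos (by norm_num)
  have hc0 := h0.c0
  obtain ⟨κ₁, hκ₁⟩ : ∃ κ₁ : ℝ, κ₁ = e * Real.log 2 / (16 * Real.log K) := ⟨_, rfl⟩
  have hκ₁0 : 0 < κ₁ := by rw [hκ₁]; positivity
  obtain ⟨ε₁, δ₁, εa, κ₀, g, c₁, hε₁, hεa, hδ, h57, hκ₀, hg, hc₁, N₁, HE⟩ := evt70 h0 hL hU hF (κ₁ := κ₁) (τ := e / 112) hκ₁0 (by positivity)
  obtain ⟨n₂, hn₂, HQ⟩ := one70 h0 hL hε₁ hεa hδ
  obtain ⟨n₃, HA⟩ := adm70 h0 hL 1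
  obtain ⟨W, hW, HW⟩ := wd_lin70 h0
  refine ⟨1, εa / 2, one_pos, by positivity, fun c₂ hc₂ hc₂1 δ' hδ' hδ'' => ⟨κ₀, hκ₀, fun κ hκ hκκ => ⟨1, le_rfl, fun Q _ hQ => ?_⟩⟩⟩
  filter_upwards [gridN8 (x := x) he he1 he₀ hee hK hQ, tl70 he hK x 8, lv70 he hK x, law70 hg, pl70 2 h57,
    ev84 (max (32 / c) (2 * Kt + 1)) (show 0 < εa / 2 by positivity), pl70 (Kt * W + 3) (show (1 / 32 : ℝ) < 1 by norm_num),
    ev84 (n₂ + 2 : ℝ) (show 0 < e / 16 by positivity), eventually_ge_atTop (max (max N₁ n₃) 4)] with n hN hTL hlv hlaw hp2 hpa hp3 hp4 hn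
  intro G hG Γ hA
  have hn1 : N₁ ≤ n := ((le_max_left _ _).trans (le_max_left _ _)).trans hn
  have hn3 : n₃ ≤ n := ((le_max_right _ _).trans (le_max_left _ _)).trans hn
  have hn4 : 4 ≤ n := (le_max_right _ _).trans hn
  have hnR : (1 : ℝ) ≤ n := by exact_mod_cast (show 1 ≤ n by omega)
  have hn0 : (0 : ℝ) < n := by linarith only [hnR]
  obtain ⟨Na, N, hM, hNaN, hnN, hΓN, hM1, hN7, hh⟩ := size70 hn4 hc₂1 hA hκκ hκ₀.le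
  obtain ⟨L, hLd⟩ : ∃ L : ℕ, L = m8 K e n + x := ⟨_, rfl⟩
  obtain ⟨m16, hlv⟩ := hlv hN
  have hTL := hTL hN hG.h1
  have hTLe := hN.TL
  rw [← hLd] at hTL hTLe hlv
  rw [← hκ₁] at hlv
  -- sizes
  have hNR : (1 : ℝ) ≤ N := by exact_mod_cast (show 1 ≤ N by omega)
  have hN0 : (0 : ℝ) < N := by linarith only [hNR]
  have hnNR : (n : ℝ) ≤ N := by exact_mod_cast hnN
  have hne : (n : ℝ) ^ e ≤ (n : ℝ) ^ (1 / 32 : ℝ) := Real.rpow_le_rpow_of_exponent_le hnR he1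
  have hn32 : (n : ℝ) ^ (1 / 32 : ℝ) ≤ n := by
    calc (n : ℝ) ^ (1 / 32 : ℝ) ≤ (n : ℝ) ^ (1 : ℝ) := Real.rpow_le_rpow_of_exponent_le hnR (by norm_num)
      _ = n := Real.rpow_one _
  have hrg0 := fun q (hq : q ∈ S8 e K n G Γ) => rg70 hG hN (by linarith only [he1]) (by omega) hq
  rw [← hLd] at hrg0
  obtain ⟨TL, hTLd⟩ : ∃ TL : ℕ, TL = Tg (h8 Q e₀ n) K L := ⟨_, rfl⟩
  rw [← hTLd] at hTL hTLe
  have hTL4 : 4 * (TL : ℝ) ≤ (n : ℝ) ^ (1 / 32 : ℝ) := hTLe.trans hne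
  have hT0 : (0 : ℝ) ≤ TL := Nat.cast_nonneg _
  have hTLn : 4 * TL ≤ n := by
    have : ((4 * TL : ℕ) : ℝ) ≤ n := by
      push_cast
      exact hTL4.trans hn32
    exact_mod_cast this
  have hforce : ∀ m : ℕ, m ≤ 2 * TL → |Γ.h| * m ≤ 1 ∧ |Γ.h| * wd μ s m ≤ c / 4 * EE μ s m := fun m hm => HA hn3 hδ'.le hA m (by
    have h1 : (m : ℝ) ≤ 2 * TL := by exact_mod_cast hm
    linarith only [h1, hTL4, hT0])
  -- the lower scale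
  obtain ⟨Tl, hTl⟩ : ∃ Tl : ℕ, Tl = max n₂ ⌈(N : ℝ) ^ (e / 112)⌉₊ := ⟨_, rfl⟩
  have hNTl : (N : ℝ) ^ (e / 112) ≤ Tl := by
    rw [hTl]
    exact (Nat.le_ceil _).trans (by exact_mod_cast le_max_right _ _)
  have hTl1 : n₂ ≤ Tl := by rw [hTl]; exact le_max_left _ _
  have hTln : (Tl : ℝ) ≤ 2 * (n : ℝ) ^ (e / 8) := by
    have h1 : (N : ℝ) ^ (e / 112) ≤ (n : ℝ) ^ (e / 16) := by
      have h2 := Real.rpow_le_rpow hN0.le hN7 (show 0 ≤ e / 112 by positivity)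
      rwa [← Real.rpow_mul hn0.le, show 7 * (e / 112) = e / 16 by ring] at h2
    have h3 : (⌈(N : ℝ) ^ (e / 112)⌉₊ : ℝ) ≤ (N : ℝ) ^ (e / 112) + 1 := (Nat.ceil_lt_add_one (by positivity)).le
    have h4 : (n : ℝ) ^ (e / 16) ≤ (n : ℝ) ^ (e / 8) := Real.rpow_le_rpow_of_exponent_le hnR (by linarith only [he])
    have h5 : (0 : ℝ) ≤ n₂ := Nat.cast_nonneg _
    rw [hTl]
    push_cast
    exact max_le (by linarith only [h4, h5, hp4]) (by linarith only [h1, h3, h4, h5, hp4])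
  have hTl4 : 4 * Tl ≤ TL := by
    have : ((4 * Tl : ℕ) : ℝ) ≤ TL := by
      push_cast
      linarith only [hTln, hTL]
    exact_mod_cast this
  obtain ⟨bad, hbad, HB⟩ := HE N Na Tl (2 * TL) (hn1.trans hnN) hNTl (by omega) (by omega) Γ.h hh (hforce Tl (by omega)).1
  refine ⟨bad, ?_, ?_⟩
  · have h1 : (law μ).real bad ≤ (n : ℝ) ^ (-(3 : ℝ)) := by
      refine (hbad.trans ?_).trans hlaw
      refine mul_le_mul_of_nonneg_left (Real.exp_le_exp.2 (neg_le_neg ?_)) (by norm_num)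
      exact Real.rpow_le_rpow hn0.le hnNR hg.le
    rw [← ENNReal.ofReal_toReal (measure_ne_top (law μ) bad)]
    exact ENNReal.ofReal_le_ofReal h1
  intro ω hω q hq hw
  have hw0 : 0 < Γ.w q ω := (Real.exp_pos _).trans_le hw
  have hrg := hrg0 q hq
  have hcol := col_w70 hw0
  have hmem := mem_rows70 hq hw0
  obtain ⟨S, hCA⟩ := HB ω hω Γ.M Γ.N Γ.p hM hM1 hΓN (fun k hk => by
    rw [← hA.hs]
    exact if_pos hk) (fun k hk => by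
    rw [← hA.hs]
    exact if_neg (not_lt.2 hk))
  have hnε : (1 : ℝ) ≤ (n : ℝ) ^ (εa / 2) := Real.one_le_rpow hnR (by positivity)
  have hnN' : (n : ℝ) ^ εa ≤ (N : ℝ) ^ εa := Real.rpow_le_rpow hn0.le hnNR hεa.le
  have hsq : (n : ℝ) ^ (εa / 2) * (n : ℝ) ^ (εa / 2) = (n : ℝ) ^ εa := by
    rw [← Real.rpow_add hn0]
    congr 1
    ring
  have B1 : (n : ℝ) ^ (εa / 2) + 1 ≤ c / 16 * (N : ℝ) ^ εa := by
    have h1 : 32 / c ≤ (n : ℝ) ^ (εa / 2) := (le_max_left _ _).trans hpa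
    rw [div_le_iff₀ hc0] at h1
    have h2 : 2 * (n : ℝ) ^ (εa / 2) ≤ c / 16 * (n : ℝ) ^ εa := by
      rw [← hsq]
      have h3 := mul_le_mul_of_nonneg_right h1 (show 0 ≤ (n : ℝ) ^ (εa / 2) by positivity)
      linarith only [h3]
    have h4 : c / 16 * (n : ℝ) ^ εa ≤ c / 16 * (N : ℝ) ^ εa := mul_le_mul_of_nonneg_left hnN' (by positivity)
    linarith only [h2, h4, hnε]
  have B2 : 2 * Kt + 1 ≤ (N : ℝ) ^ εa := by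
    have h1 : (n : ℝ) ^ (εa / 2) ≤ (n : ℝ) ^ εa := Real.rpow_le_rpow_of_exponent_le hnR (by linarith only [hεa])
    exact ((le_max_right _ _).trans hpa).trans (h1.trans hnN')
  have B3 : 2 * (N : ℝ) ^ (5 * ε₁ + εa) ≤ 4 ^ (L - m8 K e n / 2 - 4) := by
    have h1 : (N : ℝ) ^ (5 * ε₁ + εa) ≤ (n : ℝ) ^ (7 * (5 * ε₁ + εa)) := by
      have h2 := Real.rpow_le_rpow hN0.le hN7 (show 0 ≤ 5 * ε₁ + εa by positivity)
      rwa [← Real.rpow_mul hn0.le] at h2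
    linarith only [h1, hp2, hlv]
  have B4 : Kt * W * TL + 2 * TL + 1 ≤ n := by
    have h9 : (Kt * W + 3) * (n : ℝ) ^ (1 / 32 : ℝ) ≤ n := hp3.trans (le_of_eq (Real.rpow_one _))
    have h10 : (1 : ℝ) ≤ (n : ℝ) ^ (1 / 32 : ℝ) := Real.one_le_rpow hnR (by norm_num)
    have h13 : Kt * W * TL ≤ Kt * W * (n : ℝ) ^ (1 / 32 : ℝ) := mul_le_mul_of_nonneg_left (by linarith only [hTL4, hT0]) (by positivity)
    linarith only [h9, h10, h13, hTL4, hT0]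
  have hML : m8 K e n / 2 + 5 ≤ L := by omega
  rw [hTLd] at hTl4 hforce hCA B4
  have key := HQ (M := m8 K e n / 2) (om := (n : ℝ) ^ (εa / 2)) hA.ok hA.hs hTl1 hK hML hrg hTl4 hΓN hforce S hCA hmem hcol.1 hcol.2
    (by linarith only [hnε]) hw B1 hKt B2 B3 HW hW.le B4
  rw [← hLd]
  exact ⟨fun b h1 h2 y hy => (key b h1 h2 y hy).1, fun b h1 h2 y hy => (key b h1 h2 y hy).2⟩

end

end Pool.Agent.W_7d29a1_C1.TpZ70
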