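import Pool.Agent.W_7d29a1_C1.NsQ6
import Pool.Agent.W_7d29a1_C1.TmS89
import Pool.Agent.W_7d29a1_C1.TpZ70
import Pool.Agent.W_7d29a1_C1.ArmE94
import Pool.Agent.W_7d29a1_C1.CrY84
import Pool.Agent.W_7d29a1_C1.FwS51
import Pool.Agent.W_7d29a1_C1.TmG94
import Pool.Agent.W_7d29a1_C1.TpF17
import Pool.Agent.W_7d29a1_C1.DtS90

/-!
MP_7d29a1_pr, attractor route [C1], field `nu`: THE THREE CLAUSES WITHOUT HYPOTHESES. (helper6)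

`fwQ6` : `FwQ51` from `fwS51` (helper51), `tmG94` (helper94), `tpf17` (helper17). `paQ6` : `PaQ51` from `tmS89` (helper89), `topZ70`
(helper70). **`tmQ6`** : `TmQ51`. **`tdQ6`** : `TdQ51` from `RcQ51` (helper38) and `dtS90` (helper90).
-/

set_option autoImplicit false

namespace Pool.Agent.W_7d29a1_C1.Ns6

open MeasureTheory Filter
open Pool.Agent.W_7d29a1_F Pool.Agent.W_7d29a1_H Pool.Agent.W_7d29a1_HS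
open Pool.Agent.W_7d29a1_C1.Win84 (LB84 UB84 FUT84)
open Pool.Agent.W_7d29a1_C1.TmS89 (TpPa89 tmS89)
open Pool.Agent.W_7d29a1_C1.TpZ70 (topZ70)
open Pool.Agent.W_7d29a1_C1.H94 (cs94_all)
open Pool.Agent.W_7d29a1_C1.FwN51 (fwS51)
open Pool.Agent.W_7d29a1_C1.TmG94 (tmG94)
open Pool.Agent.W_7d29a1_C1.Nu51

variable {μ : Measure ℝ} [IsProbabilityMeasure μ] {s c C : ℝ} {n₀ : ℕ}

/-- The top of the past. -/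
theorem tpPa6 (hI : In μ s c C n₀) (hL : LB84 μ s) (hU : UB84 μ s) (hF : FUT84 μ s) : TpPa89 μ s :=
  fun e he he1 => ⟨2, fun K hK R B C₀ hR hB hC e₀ he₀ hee x Kt hKt =>
    topZ70 hI hL hU hF K B R C₀ hK hB hC hR e he he1 e₀ he₀ hee x Kt hKt⟩

/-- **THE CLAUSE OF THE PAST.** -/
theorem paQ6 (hI : In μ s c C n₀) (hE9 : ∀ᶠ n : ℕ in atTop, (n : ℝ) ^ (1 / 9 : ℝ) ≤ EE μ s n) (hL : LB84 μ s) (hU : UB84 μ s)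
    (hF : FUT84 μ s) : PaQ51 μ s :=
  tmS89 hI (cs94_all hI.em hI.nd s) hE9 (tpPa6 hI hL hU hF)

/-- **THE CLAUSE OF THE FUTURE.** -/
theorem fwQ6 (hI : In μ s c C n₀) (hE9 : ∀ᶠ n : ℕ in atTop, (n : ℝ) ^ (1 / 9 : ℝ) ≤ EE μ s n) (hL : LB84 μ s) (hU : UB84 μ s)
    (hF : FUT84 μ s) : FwQ51 μ s :=
  fwS51 hI hE9 (tmG94 hI (cs94_all hI.em hI.nd s)) (TpF17.tpf17 hI hE9 hL hU hF)

/-- **FEW SCALES ARE NOT REGULAR.** -/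
theorem tmQ6 (hI : In μ s c C n₀) (hE9 : ∀ᶠ n : ℕ in atTop, (n : ℝ) ^ (1 / 9 : ℝ) ≤ EE μ s n) (hL : LB84 μ s) (hU : UB84 μ s)
    (hF : FUT84 μ s) : TmQ51 μ s :=
  tmU51 hI (fwQ6 hI hE9 hL hU hF) (nsQ6 hI hL (Cr84.crY84 hI hL hU hF)) (paQ6 hI hE9 hL hU hF)

/-- **TAMENESS AND DETERMINISM**, from the reach. -/
theorem tdQ6 (hI : In μ s c C n₀) (hE9 : ∀ᶠ n : ℕ in atTop, (n : ℝ) ^ (1 / 9 : ℝ) ≤ EE μ s n) (hL : LB84 μ s) (hU : UB84 μ s)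
    (hF : FUT84 μ s) (hR : RcQ51 μ s c) {c₁ c₃ : ℝ} (hc₁ : 0 < c₁) (hc₃ : c₁ < c₃) : TdQ51 μ s c₁ c₃ :=
  tdQ51_of hI (tmQ6 hI hE9 hL hU hF) hR (Dts90.dtS90 hI hL hU hc₁ hc₃)

end Pool.Agent.W_7d29a1_C1.Ns6
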