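import Pool.Agent.W_7d29a1_C1.TmR89
import Pool.Agent.W_7d29a1_C1.ShlC8
import Pool.Agent.W_7d29a1_C1.SepM49

/-!
MP_7d29a1_pr, [C1], FIELD nu: THE NUMBERS OF THE GRID FOR THE CLAUSES OF `ClT51`. (helper89)

`sc_gw89`, `cn_gw89`, `ro_gw89`, `row8_89`: the grid `GW` and the sites `S8` give the hypotheses of `tmR89`. `num89`: eventually in `n`, the
force, the number of rows against the tilt and the energy, the base height. `cone89`: the cone.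
-/

set_option autoImplicit false
set_option linter.unusedSectionVars false

namespace Pool.Agent.W_7d29a1_C1.NuS89

open MeasureTheory Finset Filter Topology
open Pool.Agent.W_7d29a1_F Pool.Agent.W_7d29a1_h4g Pool.Agent.W_7d29a1_H Pool.Agent.W_7d29a1_HS
open Pool.Agent.W_7d29a1_C1.T10 (Gd pt Tg Hg Tg_pos Tg_Hg Tg_mono Hg_mono GW)
open Pool.Agent.W_7d29a1_C1.H8
open Pool.Agent.W_7d29a1_C1.H60
open Pool.Agent.W_7d29a1_C1.TmR89 (ro89 Sc89 Cn89)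

noncomputable section

/-! ### The grid -/

section Grid

variable {μ : Measure ℝ} {s R C₀ : ℝ} {B h₀ K L : ℕ} {G : Gd}

/-- The scales. -/
theorem sc_gw89 (g : GW μ s R B C₀ h₀ K L G) : Sc89 μ s B K C₀ (Tg h₀ K) where
  TK v hv := by
    rw [Tg_pos hv, Tg_pos (by omega), pow_succ]
    ring
  w3 v hv := by
    have h1 := g.small v hv
    have h2 : (0 : ℝ) ≤ v := Nat.cast_nonneg _
    linarith
  wB := g.wB
  wB' := g.wB'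
  w2 := g.w2

/-- The lower edges of a site. -/
theorem cn_gw89 (g : GW μ s R B C₀ h₀ K L G) {c : ℕ × ℤ} (hc : 2 * Tg h₀ K L ≤ c.1) : Cn89 μ s B G (Tg h₀ K) L c where
  row v h1 h2 := by
    have a1 := g.ok.row_lt h2 c
    have a2 := g.TH h1
    have a3 := g.Tmono h2
    omega
  up v h1 h2 := by
    have a1 := congrArg Prod.fst (g.ok.z_dg h2 c)
    have e : (G.z (v + 1) c + G.dg v c).1 = (G.z (v + 1) c).1 + (G.dg v c).1 := rfl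
    rw [e] at a1
    omega
  dn v h1 h2 := by
    have a1 := congrArg Prod.fst (g.ok.z_dg h2 c)
    have e : (G.z (v + 1) c + G.dg v c).1 = (G.z (v + 1) c).1 + (G.dg v c).1 := rfl
    rw [e] at a1
    have a2 : (G.z v (G.rel (v + 1) c)).1 + G.H v ≤ G.H (v + 1) := g.ok.row_place (Nat.le_succ v) h2 c
    have a3 : (G.dg v c).1 = (G.z v (G.rel (v + 1) c)).1 := rfl
    have a4 := g.TH (v := v + 1) (by omega)
    omega
  lat v h1 h2 := g.lat_base' h1 h2 c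

/-- The rows between two lower edges. -/
theorem ro_gw89 (g : GW μ s R B C₀ h₀ K L G) (c : ℕ × ℤ) {b : ℕ} (h1 : 1 ≤ b) (h2 : b ≤ L) :
    ro89 G (Tg h₀ K) c b - ro89 G (Tg h₀ K) c L ≤ 2 * Tg h₀ K L := by
  have a1 : (G.z b c).1 ≤ c.1 := Gd.row_le b c
  have a2 := g.ok.row_lt le_rfl c
  have a3 := g.TH (v := L) (h1.trans h2)
  unfold ro89
  omega

/-- The row of a site of `S8`. -/
theorem row8_89 {e e₀ : ℝ} {Q x n : ℕ} (g : GW μ s R B C₀ (h8 Q e₀ n) K (m8 K e n + x) G) (h : GridN8 e e₀ K Q x n) {Γ : Cx}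
    {c : ℕ × ℤ} (hc : c ∈ S8 e K n G Γ) : 3 * Tg (h8 Q e₀ n) K (m8 K e n + x) ≤ c.1 := by
  have h1 : G.H (m8 K e n) * (⌈(n : ℝ) ^ e⌉₊ / G.H (m8 K e n)) ≤ c.1 := (T98.mem_St.1 hc).1.1
  have hm := h.m0
  have h2 := Nat.lt_mul_div_succ ⌈(n : ℝ) ^ e⌉₊ (g.ok.H0 (m8 K e n) (Nat.le_add_right _ _))
  rw [Nat.mul_succ] at h2
  have h3 : 4 * Tg (h8 Q e₀ n) K (m8 K e n + x) ≤ ⌈(n : ℝ) ^ e⌉₊ := by
    have := h.TL.trans (Nat.le_ceil _)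
    exact_mod_cast this
  have h4 := g.Hmono (Nat.le_add_right (m8 K e n) x)
  have h5 := g.TH (v := m8 K e n + x) (by omega)
  omega

/-- **The cone.** -/
theorem cone89 {n₁ K₂ M m b Cn : ℕ} (hn : n₁ ≤ h₀) (hK₂ : 1 ≤ K₂) (hKK : K₂ ≤ K) (hM : M ≤ m) (hb : 1 ≤ b) (hCn : 1 ≤ Cn)
    (hC : m ≤ Cn * b) : n₁ * K₂ ^ ((M - b + 1) / Cn) ≤ Tg h₀ K (b + 1) := by
  have h1 : (M - b + 1) / Cn ≤ b := by
    refine Nat.div_le_of_le_mul ?_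
    have h2 : 1 ≤ Cn * b := Nat.mul_pos hCn hb
    obtain ⟨w, hw⟩ : ∃ w : ℕ, w = Cn * b := ⟨_, rfl⟩
    rw [← hw] at hC h2 ⊢
    omega
  rw [Tg_pos (by omega)]
  calc n₁ * K₂ ^ ((M - b + 1) / Cn) ≤ h₀ * K ^ (b + 1) := by
        refine Nat.mul_le_mul hn ((Nat.pow_le_pow_right hK₂ (h1.trans (Nat.le_succ b))).trans (Nat.pow_le_pow_left hKK _))
    _ ≤ 2 * h₀ * K ^ (b + 1) := Nat.mul_le_mul_right _ (by omega)

end Grid

/-! ### The numbers -/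

variable {μ : Measure ℝ} [IsProbabilityMeasure μ]

theorem ev89 {y : ℝ} (hy : 0 < y) (M : ℝ) : ∀ᶠ n : ℕ in atTop, M ≤ (n : ℝ) ^ y :=
  ((tendsto_rpow_atTop hy).comp tendsto_natCast_atTop_atTop).eventually_ge_atTop M

/-- The tilt against the rows. -/
theorem tilt89 {e : ℝ} (he1 : e ≤ 1 / 32) (X : ℝ) {κ : ℝ} (hκ : 0 < κ) :
    ∀ᶠ n : ℕ in atTop, X * (n : ℝ) ^ e ≤ κ * (n : ℝ) ^ (1 / 9 : ℝ) := by
  filter_upwards [ev89 (show (0 : ℝ) < 1 / 9 - 1 / 32 by norm_num) (|X| / κ), eventually_ge_atTop 1] with n h1 hn1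
  have hnR : (1 : ℝ) ≤ n := by exact_mod_cast hn1
  have n0 : (0 : ℝ) < n := by linarith
  rw [div_le_iff₀ hκ] at h1
  calc X * (n : ℝ) ^ e ≤ |X| * (n : ℝ) ^ (1 / 32 : ℝ) := by
        refine mul_le_mul (le_abs_self X) (Real.rpow_le_rpow_of_exponent_le hnR he1) (Real.rpow_nonneg n0.le _) (abs_nonneg X)
    _ ≤ (n : ℝ) ^ (1 / 9 - 1 / 32 : ℝ) * κ * (n : ℝ) ^ (1 / 32 : ℝ) := mul_le_mul_of_nonneg_right h1 (Real.rpow_nonneg n0.le _)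
    _ = κ * ((n : ℝ) ^ (1 / 9 - 1 / 32 : ℝ) * (n : ℝ) ^ (1 / 32 : ℝ)) := by ring
    _ = κ * (n : ℝ) ^ (1 / 9 : ℝ) := by
        rw [← Real.rpow_add n0]
        norm_num

omit [IsProbabilityMeasure μ] in
/-- The tilt of an admissible context. -/
theorem adm89 {s c₂ δ κ : ℝ} {n : ℕ} {Γ : Cx} (h : Adm μ s c₂ δ κ n Γ) (hn : 1 ≤ n) (hδ : 0 ≤ δ)
    (hE : (n : ℝ) ^ (1 / 9 : ℝ) ≤ EE μ s n) : |Γ.h| * (n : ℝ) ^ (1 / 9 : ℝ) ≤ 1 := by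
  obtain ⟨N, L, -, -, -, -, -, -, k1, -⟩ := h.hor
  have n1 : (1 : ℝ) ≤ n := by exact_mod_cast hn
  have k2 : (n : ℝ) ^ (-(2 * δ)) ≤ 1 := Real.rpow_le_one_of_one_le_of_nonpos n1 (by linarith)
  exact (mul_le_mul_of_nonneg_left hE (abs_nonneg _)).trans (k1.trans k2)

/-- The logarithm. -/
theorem exp89 {e₁ : ℝ} (he₁ : 0 < e₁) : ∀ᶠ n : ℕ in atTop, (n : ℝ) ≤ Real.exp ((n : ℝ) ^ e₁) := by
  have h := (isLittleO_log_rpow_atTop he₁).bound (show (0 : ℝ) < 1 by norm_num)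
  filter_upwards [tendsto_natCast_atTop_atTop.eventually h, eventually_ge_atTop 1] with n hn hn1
  have hn0 : (1 : ℝ) ≤ n := by exact_mod_cast hn1
  rw [Real.norm_of_nonneg (Real.log_nonneg hn0), Real.norm_of_nonneg (by positivity), one_mul] at hn
  calc (n : ℝ) = Real.exp (Real.log n) := (Real.exp_log (by linarith)).symm
    _ ≤ Real.exp ((n : ℝ) ^ e₁) := Real.exp_le_exp.2 hn

/-- **THE NUMBERS.** -/
theorem num89 {s c C : ℝ} {n₀ : ℕ} (hI : In μ s c C n₀) (hE9 : ∀ᶠ n : ℕ in atTop, (n : ℝ) ^ (1 / 9 : ℝ) ≤ EE μ s n) {e e₀ : ℝ}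
    (he : 0 < e) (he1 : e ≤ 1 / 32) (he₀ : 0 < e₀) (hee : e₀ ≤ e) {K Q : ℕ} (hK : 2 ≤ K) (hQ : 1 ≤ Q) (B x n₁ m₁ : ℕ) {R C₀ : ℝ}
    {c₂ δ κ : ℝ} (hδ : 0 ≤ δ) :
    ∀ᶠ n : ℕ in atTop, m₁ ≤ m8 K e n ∧ n₁ ≤ h8 Q e₀ n ∧ ∀ G : Gd, GW μ s R B C₀ (h8 Q e₀ n) K (m8 K e n + x) G → ∀ Γ : Cx,
      Adm μ s c₂ δ κ n Γ →
      (∀ v, 1 ≤ v → v ≤ m8 K e n + x → |Γ.h| * wd μ s (B * Tg (h8 Q e₀ n) K v) ≤ c / 4 * EE μ s (B * Tg (h8 Q e₀ n) K v)) ∧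
      ∀ c' ∈ S8 e K n G Γ, Cn89 μ s B G (Tg (h8 Q e₀ n) K) (m8 K e n + x) c' ∧ ∀ b, 1 ≤ b → b ≤ m8 K e n + x →
        12 * (|Γ.h| * ((ro89 G (Tg (h8 Q e₀ n) K) c' b - ro89 G (Tg (h8 Q e₀ n) K) c' (m8 K e n + x) : ℕ) : ℝ)) ≤ 1 ∧
        ((ro89 G (Tg (h8 Q e₀ n) K) c' b - ro89 G (Tg (h8 Q e₀ n) K) c' (m8 K e n + x) : ℕ) : ℝ) ≤
          Real.exp (EE μ s (2 * Tg (h8 Q e₀ n) K (b + 1))) := by
  obtain ⟨e₁, he₁, n₂, HE⟩ := N49.model_E hI (show (0 : ℝ) < e₀ / 4 by linarith)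
  obtain ⟨n₃, hn₃⟩ := eventually_atTop.1 (hI.tv.eventually (eventually_le_nhds (show (0 : ℝ) < 1 by norm_num)))
  have hlK : 0 < Real.log K := Real.log_pos (by exact_mod_cast (by omega : 1 < K))
  have hκm : 0 < e / (8 * Real.log K) := by positivity
  have hlog : Tendsto (fun n : ℕ => e / (8 * Real.log K) * Real.log n) atTop atTop :=
    (Real.tendsto_log_atTop.comp tendsto_natCast_atTop_atTop).const_mul_atTop hκm
  filter_upwards [gridN8 (x := x) he he1 he₀ hee hK hQ, hE9, ev89 (show (0 : ℝ) < e₀ / 4 by linarith) (max n₁ n₃ : ℕ),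
    tilt89 he1 (B : ℝ) (show (0 : ℝ) < c / 4 by linarith [hI.c0]), tilt89 he1 1 (show (0 : ℝ) < 1 / 12 by norm_num), exp89 he₁,
    hlog.eventually_ge_atTop (m₁ : ℝ), eventually_ge_atTop n₂, eventually_ge_atTop 1] with n hg hE hbig ht1 ht2 hexp hm1 hn2 hn1
  have hnR : (1 : ℝ) ≤ n := by exact_mod_cast hn1
  have n0 : (0 : ℝ) < n := by linarith
  have hmx : max n₁ n₃ ≤ h8 Q e₀ n := by exact_mod_cast hbig.trans hg.h1
  have hT : ∀ v, 1 ≤ v → h8 Q e₀ n ≤ Tg (h8 Q e₀ n) K v := fun v hv => by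
    rw [Tg_pos hv, mul_comm 2 (h8 Q e₀ n), mul_assoc]
    exact Nat.le_mul_of_pos_right _ (Nat.mul_pos two_pos (Nat.pow_pos (by omega)))
  refine ⟨by exact_mod_cast hm1.trans hg.m1, (le_max_left _ _).trans hmx, ?_⟩
  intro G g Γ hA
  have hh := adm89 hA hn1 hδ hE
  have hTL := hg.TL
  have he0 : 0 ≤ (n : ℝ) ^ e := Real.rpow_nonneg n0.le _
  have hh0 := abs_nonneg Γ.h
  refine ⟨fun v h1 h2 => ?_, fun c' hc' => ⟨cn_gw89 g ?_, fun b h1 h2 => ?_⟩⟩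
  · have hB1 : 1 ≤ B := by have := g.B2; omega
    have a1 : n₃ ≤ B * Tg (h8 Q e₀ n) K v :=
      ((le_max_right _ _).trans hmx).trans ((hT v h1).trans (Nat.le_mul_of_pos_left _ hB1))
    have a2 := hn₃ _ a1
    have a3 : wd μ s (B * Tg (h8 Q e₀ n) K v) ≤ ((B * Tg (h8 Q e₀ n) K v : ℕ) : ℝ) := by
      unfold wd
      exact mul_le_of_le_one_right (Nat.cast_nonneg _) a2
    have a4 : (Tg (h8 Q e₀ n) K v : ℝ) ≤ Tg (h8 Q e₀ n) K (m8 K e n + x) := by exact_mod_cast g.Tmono h2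
    have a5 : (0 : ℝ) ≤ Tg (h8 Q e₀ n) K v := Nat.cast_nonneg _
    have a6 : ((B * Tg (h8 Q e₀ n) K v : ℕ) : ℝ) ≤ B * (n : ℝ) ^ e := by
      push_cast
      refine mul_le_mul_of_nonneg_left ?_ (Nat.cast_nonneg _)
      linarith
    have a7 : |Γ.h| * wd μ s (B * Tg (h8 Q e₀ n) K v) ≤ |Γ.h| * (c / 4 * (n : ℝ) ^ (1 / 9 : ℝ)) :=
      mul_le_mul_of_nonneg_left (a3.trans (a6.trans ht1)) hh0
    have a8 : |Γ.h| * (c / 4 * (n : ℝ) ^ (1 / 9 : ℝ)) ≤ c / 4 := by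
      calc |Γ.h| * (c / 4 * (n : ℝ) ^ (1 / 9 : ℝ)) = c / 4 * (|Γ.h| * (n : ℝ) ^ (1 / 9 : ℝ)) := by ring
        _ ≤ c / 4 * 1 := mul_le_mul_of_nonneg_left hh (by linarith [hI.c0])
        _ = c / 4 := mul_one _
    exact a7.trans (a8.trans (le_mul_of_one_le_right (by linarith [hI.c0]) (Pool.Agent.W_7d29a1_H.one_le_EE (μ := μ) (s := s) _)))
  · have := row8_89 g hg hc'
    omega
  · have b1 := ro_gw89 g c' h1 h2
    obtain ⟨D, hD⟩ : ∃ D : ℕ, D = ro89 G (Tg (h8 Q e₀ n) K) c' b - ro89 G (Tg (h8 Q e₀ n) K) c' (m8 K e n + x) := ⟨_, rfl⟩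
    rw [← hD] at b1 ⊢
    have b2 : (D : ℝ) ≤ (n : ℝ) ^ e := by
      have b3 : (D : ℝ) ≤ 2 * Tg (h8 Q e₀ n) K (m8 K e n + x) := by exact_mod_cast b1
      have b4 : (0 : ℝ) ≤ Tg (h8 Q e₀ n) K (m8 K e n + x) := Nat.cast_nonneg _
      linarith
    constructor
    · have c1 : |Γ.h| * (D : ℝ) ≤ |Γ.h| * (1 / 12 * (n : ℝ) ^ (1 / 9 : ℝ)) := mul_le_mul_of_nonneg_left (by linarith) hh0
      have c2 : |Γ.h| * (1 / 12 * (n : ℝ) ^ (1 / 9 : ℝ)) = 1 / 12 * (|Γ.h| * (n : ℝ) ^ (1 / 9 : ℝ)) := by ring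
      rw [c2] at c1
      linarith
    · have d1 : (n : ℝ) ^ e ≤ n := by
        calc (n : ℝ) ^ e ≤ (n : ℝ) ^ (1 : ℝ) := Real.rpow_le_rpow_of_exponent_le hnR (by linarith)
          _ = n := Real.rpow_one _
      have d2 : (n : ℝ) ^ (e₀ / 4) ≤ ((2 * Tg (h8 Q e₀ n) K (b + 1) : ℕ) : ℝ) := by
        refine hg.h1.trans ?_
        have := hT (b + 1) (by omega)
        exact_mod_cast this.trans (by omega)
      exact (b2.trans d1).trans (hexp.trans (Real.exp_le_exp.2 (HE n hn2 _ d2)))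

end

end Pool.Agent.W_7d29a1_C1.NuS89
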