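import Pool.Agent.W_7d29a1_C1.SoP7
import Pool.Agent.W_7d29a1_C1.NumY54

/-!
MP_7d29a1_pr, [C1] SHELL, fresh ball, (S): **THE NUMBERS OF THE TWO SCALES** `Nu7` AT THE LEVELS `i`, `i + m₂` OF THE GRID. (helper93)

Order: `K`, `D`, `Ke`, `ce` | `M₁ ≤ m₂` | `ρ` | `sk`, `s₄`, `c₂`, `c₄`, `g₁`, `g₂` | `n₁ ≤ T_i`.
-/

set_option autoImplicit false

namespace Pool.Agent.W_7d29a1_C1.Nu93

open MeasureTheory Filter
open Pool.Agent.W_7d29a1_H Pool.Agent.W_7d29a1_HS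
open Pool.Agent.W_7d29a1_C1.T10 (Tg Tg_lt Tg_zero)
open Pool.Agent.W_7d29a1_C1.N7 (Nu7 wT7)
open Pool.Agent.W_7d29a1_C1.H60 (sum_en60)
open Pool.Agent.W_7d29a1_C1.H54 (rate54)

noncomputable section

variable {μ : Measure ℝ} [IsProbabilityMeasure μ] {s c C : ℝ} {n₀ : ℕ}

/-- **THE NUMBERS OF THE TWO SCALES.** -/
theorem nu93 (h0 : In μ s c C n₀) {K : ℕ} (hK : 2 ≤ K) {cc D Ke ce : ℝ} (hcc : 0 ≤ cc) (hD : 0 ≤ D) (hKe : 0 < Ke) (hce : 0 < ce) :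
    ∃ M₁ : ℕ, 1 ≤ M₁ ∧ ∀ m₂ : ℕ, M₁ ≤ m₂ → ∃ ρ : ℝ, 0 ≤ ρ ∧ ∀ {sk s₄ c₂ c₄ g₁ g₂ : ℝ}, 0 < sk → 0 < s₄ → 0 < c₂ → 0 < c₄ → g₂ < g₁ →
      ∃ n₁ : ℕ, 1 ≤ n₁ ∧ ∀ h₀ i : ℕ, n₁ ≤ Tg h₀ K i →
        Nu7 μ s (Tg h₀ K i) (Tg h₀ K (i + m₂)) cc D Ke ce ρ sk s₄ c₂ c₄ g₁ g₂ := by
  have hD1 : 0 < D + 1 := by linarith
  have hc1 : 0 < cc + 1 := by linarith
  obtain ⟨r, hr⟩ : ∃ r : ℝ, r = min (min (Ke / (D + 1)) (1 / (D + 1))) (ce / (cc + 1)) := ⟨_, rfl⟩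
  have hr0 : 0 < r := by
    rw [hr]
    exact lt_min (lt_min (by positivity) (by positivity)) (by positivity)
  have hr1 : r * (D + 1) ≤ Ke := by
    rw [← le_div_iff₀ hD1, hr]
    exact (min_le_left _ _).trans (min_le_left _ _)
  have hr2 : r * (D + 1) ≤ 1 := by
    rw [← le_div_iff₀ hD1, hr]
    exact (min_le_left _ _).trans (min_le_right _ _)
  have hr3 : r * (cc + 1) ≤ ce := by
    rw [← le_div_iff₀ hc1, hr]
    exact min_le_right _ _
  obtain ⟨M, nM, hnM, HM⟩ := rate54 h0 hK hr0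
  refine ⟨max M 1, le_max_right _ _, fun m₂ hm => ⟨2 * (K : ℝ) ^ m₂, by positivity, fun {sk s₄ c₂ c₄ g₁ g₂} hsk hs₄ hc₂ hc₄ hg => ?_⟩⟩
  obtain ⟨na, hna, HA⟩ := sum_en60 h0 hc₂ hsk
  obtain ⟨nb, hnb, HB⟩ := sum_en60 h0 hc₄ hs₄
  obtain ⟨nw, hnw, HW⟩ := wT7 h0 D
  obtain ⟨nt, HT⟩ := eventually_atTop.1 ((wd_tendsto h0).eventually_ge_atTop 1)
  obtain ⟨ne, HE⟩ := eventually_atTop.1 (h0.tE.eventually_ge_atTop (Real.log 3 / (g₁ - g₂)))
  refine ⟨max (max (max nM na) (max nb nw)) (max nt ne),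
    ((hnM.trans (le_max_left _ _)).trans (le_max_left _ _)).trans (le_max_left _ _), fun h₀ i hi => ?_⟩
  have i1 : nM ≤ Tg h₀ K i := (((le_max_left _ _).trans (le_max_left _ _)).trans (le_max_left _ _)).trans hi
  have i2 : na ≤ Tg h₀ K i := (((le_max_right _ _).trans (le_max_left _ _)).trans (le_max_left _ _)).trans hi
  have i3 : nb ≤ Tg h₀ K i := (((le_max_left _ _).trans (le_max_right _ _)).trans (le_max_left _ _)).trans hi
  have i4 : nw ≤ Tg h₀ K i := (((le_max_right _ _).trans (le_max_right _ _)).trans (le_max_left _ _)).trans hi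
  have i5 : nt ≤ Tg h₀ K i := ((le_max_left _ _).trans (le_max_right _ _)).trans hi
  have i6 : ne ≤ Tg h₀ K i := ((le_max_right _ _).trans (le_max_right _ _)).trans hi
  have hi1 : 1 ≤ i := by
    rcases Nat.eq_zero_or_pos i with h | h
    · subst h
      rw [Tg_zero] at i1
      omega
    · exact h
  have hrate := HM m₂ ((le_max_left _ _).trans hm) h₀ i hi1 i1
  have eT : Tg h₀ K (i + m₂) = Tg h₀ K i * K ^ m₂ := Tg_lt hi1 m₂
  have hKm : 1 ≤ K ^ m₂ := Nat.one_le_pow _ _ (by omega)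
  have hle : Tg h₀ K i ≤ Tg h₀ K (i + m₂) := by
    rw [eT]
    exact Nat.le_mul_of_pos_right _ hKm
  obtain ⟨T, hTd⟩ : ∃ T : ℕ, T = Tg h₀ K i := ⟨_, rfl⟩
  obtain ⟨T', hTd'⟩ : ∃ T' : ℕ, T' = Tg h₀ K (i + m₂) := ⟨_, rfl⟩
  rw [← hTd] at i1 i2 i3 i4 i5 i6 hrate eT hle ⊢
  rw [← hTd'] at hrate eT hle ⊢
  have hT1 : 1 ≤ T := hnM.trans i1
  have wT := h0.wd_pos hT1
  have wT' := h0.wd_pos (hT1.trans hle)
  have hE := EE_pos (μ := μ) (s := s) T
  have hE' := EE_pos (μ := μ) (s := s) T'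
  have hEE : EE μ s T ≤ EE μ s T' := EE_mono hle
  have hwr : wd μ s T ≤ r * wd μ s T' := by
    rw [div_le_iff₀ wT', mul_assoc, div_mul_eq_mul_div, mul_div_assoc', le_div_iff₀ wT] at hrate
    have h1 : EE μ s T * wd μ s T ≤ EE μ s T' * wd μ s T := mul_le_mul_of_nonneg_right hEE wT.le
    have h2 : EE μ s T * wd μ s T ≤ EE μ s T * (r * wd μ s T') := by
      refine h1.trans (hrate.trans (le_of_eq ?_))
      ring
    exact le_of_mul_le_mul_left h2 hE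
  have hDw : ∀ {x : ℝ}, r * (D + 1) ≤ x → D * wd μ s T ≤ x * wd μ s T' := fun {x} hx => by
    calc D * wd μ s T ≤ (D + 1) * wd μ s T := mul_le_mul_of_nonneg_right (by linarith) wT.le
      _ ≤ (D + 1) * (r * wd μ s T') := mul_le_mul_of_nonneg_left hwr hD1.le
      _ = r * (D + 1) * wd μ s T' := by ring
      _ ≤ x * wd μ s T' := mul_le_mul_of_nonneg_right hx wT'.le
  obtain ⟨w1, w2⟩ := HW T i4
  exact {
    w := HT T' (i5.trans hle)
    wi := wT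
    D0 := hD
    Ke0 := hKe.le
    DK := hDw hr1
    Dw := by
      have := hDw hr2
      rwa [one_mul] at this
    s1 := by
      have : 0 ≤ D * wd μ s T := mul_nonneg hD wT.le
      linarith
    s2 := by
      have : 0 ≤ D * wd μ s T := mul_nonneg hD wT.le
      linarith
    EE := hEE
    ρ0 := by positivity
    ρw := by
      have h1 := Pool.Agent.W_7d29a1_C1.U16.wd_le h0 hT1 hle
      have hTR : (0 : ℝ) < T := by exact_mod_cast hT1
      have e1 : ((T' : ℕ) : ℝ) / T = (K : ℝ) ^ m₂ := by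
        rw [eT]
        push_cast
        field_simp
      rwa [e1] at h1
    r := by
      have h1 : 0 ≤ EE μ s T / wd μ s T := by positivity
      have h2 : cc * r ≤ ce := by
        have : 0 ≤ r := hr0.le
        nlinarith
      calc cc * (EE μ s T' / wd μ s T') ≤ cc * (r * (EE μ s T / wd μ s T)) := mul_le_mul_of_nonneg_left hrate hcc
        _ = cc * r * (EE μ s T / wd μ s T) := by ring
        _ ≤ ce * (EE μ s T / wd μ s T) := mul_le_mul_of_nonneg_right h2 h1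
    sum2 := HA T' (i2.trans hle)
    sum4 := HB T' (i3.trans hle)
    lg := by
      have h1 := HE T' (i6.trans hle)
      rw [div_le_iff₀ (by linarith : 0 < g₁ - g₂)] at h1
      linarith }

end

end Pool.Agent.W_7d29a1_C1.Nu93
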