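import Pool.Agent.W_7d29a1_C1.SucT21
import Pool.Agent.W_7d29a1_C1.PhC54

/-!
Both halves (MP_7d29a1_pr), attractor route [C1], (Y) BY CORNERS: SUCCESS => H1 AT ALL CONTACTS OF THE MIDDLE ROWS, BOTH FRAMES. (helper54)

`up54` : the right neighbour of a backward mass with any profile. `Lc54` : the local facts of all rows. `sucn54` : the twin of `sucn21` in the
mirror frame. `sucC54` : `All`, `Fut`, `SeamIn`, `Lc54` give `H54.SucC`, the hypothesis of `SucC.phi`.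
-/

set_option autoImplicit false
set_option linter.unusedSectionVars false

namespace Pool.Agent.W_7d29a1_C1.H54

open Finset MeasureTheory Pool.Agent.W_7d29a1_C1.Gini76 Pool.Agent.W_7d29a1_C1.CR76 Pool.Agent.W_7d29a1_C1.R26P
  Pool.Agent.W_7d29a1_C1.F74 Pool.Agent.W_7d29a1_C1.P21
open Pool.Agent.W_7d29a1_F
open Pool.Agent.W_7d29a1_C1.K91P (fw bw bw_pos bw_succ shp GG fw_nonneg)
open Pool.Agent.W_7d29a1_C1.K91 (wt wt_pos shw)
open Pool.Agent.W_7d29a1_C1.K97 (Nr Reg)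
open Pool.Agent.W_7d29a1_C1.Nbr78 (DD DU DU_zero DU_succ StE78)
open Pool.Agent.W_7d29a1_C1.H56 (pN)
open Pool.Agent.W_7d29a1_C1.L91 (Nb fC GG_fC KC)
open Pool.Agent.W_7d29a1_C1.H60
open Pool.Agent.W_7d29a1_C1.H60.Cx (l uc mem_rows)
open Pool.Agent.W_7d29a1_C1.H1c (SucN SucT rrn ect ept tpos)
open Pool.Agent.W_7d29a1_C1.Mir99
open Pool.Agent.W_7d29a1_C1.Sh21
open Pool.Agent.W_7d29a1_C1.Ch87

noncomputable section

variable {w : ℕ → ℤ → ℝ} {p : ℕ → ℝ} {G G' : ℤ → ℝ}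

/-! ### The right neighbour -/

/-- First `m` steps `1`, then `n` rows. -/
def bu (w : ℕ → ℤ → ℝ) (p : ℕ → ℝ) (G : ℤ → ℝ) (n : ℕ) : ℕ → ℕ → ℤ → ℝ
  | 0, k, y => bp w p G n k y
  | m + 1, k, y => w k y * (p k * bu w p G n m (k + 1) (y + 1))

theorem bu_mono (hw : ∀ k y, 0 < w k y) (hp : ∀ k, 0 < p k) (h : ∀ y, G y ≤ G' y) (n : ℕ) : ∀ (m k : ℕ) (y : ℤ),
    bu w p G n m k y ≤ bu w p G' n m k y
  | 0, k, y => bp_mono hw hp h n k y
  | m + 1, k, y => mul_le_mul_of_nonneg_left (mul_le_mul_of_nonneg_left (bu_mono hw hp h n m (k + 1) (y + 1)) (hp k).le) (hw k y).le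

theorem bu_full (M n : ℕ) : ∀ (m k : ℕ) (y : ℤ), bu w p (bw w p (k + (m + n)) M) n m k y = DU w p (n + M) m k y
  | 0, k, y => by
    have e : k + (0 + n) = k + n := by ring
    rw [e, DU_zero]
    exact bp_full M n k y
  | m + 1, k, y => by
    have e : k + (m + 1 + n) = k + 1 + (m + n) := by ring
    rw [DU_succ, e, ← bu_full M n m (k + 1) (y + 1)]
    rfl

/-- **The right neighbour**, arbitrary profile. -/
theorem up54 (hw : ∀ k y, 0 < w k y) (hp : ∀ k, 0 < p k) (hG : ∀ y, 0 ≤ G y) {q P : ℝ} (hq : 1 ≤ q) (hP : 0 ≤ P) (n : ℕ) :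
    ∀ (m k : ℕ) (y : ℤ), (∀ i < m, w (k + i) (y + i + 1) ≤ q * w (k + i) (y + i) ∧ 1 ≤ P * p (k + i)) →
      bp w p G (m + n) k (y + 1) ≤ (q * (1 + P)) ^ m * bp w p G (m + n) k y + bu w p G n m k (y + 1)
  | 0, k, y, _ => by
    have h := bp_nonneg hw hp hG n k y
    have e : 0 + n = n := by ring
    rw [e, pow_zero, one_mul]
    show bp w p G n k (y + 1) ≤ bp w p G n k y + bp w p G n k (y + 1)
    linarith
  | m + 1, k, y, h => by
    have ih := up54 hw hp hG hq hP n m (k + 1) (y + 1) (fun i hi => by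
      have := h (i + 1) (by omega)
      have e : k + (i + 1) = k + 1 + i := by ring
      have e2 : y + ((i + 1 : ℕ) : ℤ) = y + 1 + i := by push_cast; ring
      rwa [e, e2] at this)
    have e1 : m + 1 + n = m + n + 1 := by ring
    rw [e1, bp_succ, bp_succ]
    have h0 := h 0 (by omega)
    rw [Nat.add_zero, Nat.cast_zero, add_zero] at h0
    have hA := bp_nonneg hw hp hG (m + n) (k + 1) (y + 1)
    have hB := bp_nonneg hw hp hG (m + n) (k + 1) y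
    have w1 := hw k (y + 1)
    have w0 := hw k y
    have pk := hp k
    show w k (y + 1) * (bp w p G (m + n) (k + 1) (y + 1) + p k * bp w p G (m + n) (k + 1) (y + 1 + 1)) ≤
      (q * (1 + P)) ^ (m + 1) * (w k y * (bp w p G (m + n) (k + 1) y + p k * bp w p G (m + n) (k + 1) (y + 1))) +
        w k (y + 1) * (p k * bu w p G n m (k + 1) (y + 1 + 1))
    generalize bp w p G (m + n) (k + 1) (y + 1 + 1) = C at *
    generalize bp w p G (m + n) (k + 1) y = B at *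
    generalize bp w p G (m + n) (k + 1) (y + 1) = A at *
    generalize bu w p G n m (k + 1) (y + 1 + 1) = E at *
    have b1 : 1 ≤ (q * (1 + P)) ^ m := one_le_pow₀ (by nlinarith)
    rw [pow_succ]
    generalize (q * (1 + P)) ^ m = b at *
    have s1 : w k (y + 1) * (A + p k * C) ≤ w k (y + 1) * ((1 + p k * b) * A) + w k (y + 1) * (p k * E) := by
      rw [← mul_add]
      refine mul_le_mul_of_nonneg_left ?_ w1.le
      have := mul_le_mul_of_nonneg_left ih pk.le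
      linarith
    have s0 : 0 ≤ (1 + p k * b) * A := by positivity
    have s2 : w k (y + 1) * ((1 + p k * b) * A) ≤ q * w k y * ((1 + p k * b) * A) := mul_le_mul_of_nonneg_right h0.1 s0
    have s3 : (1 + p k * b) * A ≤ b * (1 + P) * (B + p k * A) := by
      have u1 : 1 + p k * b ≤ b * (1 + P) * p k := by
        have := mul_le_mul_of_nonneg_left h0.2 (show 0 ≤ b by linarith)
        linarith
      have u2 := mul_le_mul_of_nonneg_right u1 hA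
      have u3 : 0 ≤ b * (1 + P) * B := by positivity
      linarith
    have s4 : q * w k y * ((1 + p k * b) * A) ≤ q * w k y * (b * (1 + P) * (B + p k * A)) :=
      mul_le_mul_of_nonneg_left s3 (by positivity)
    have s5 : q * w k y * (b * (1 + P) * (B + p k * A)) = b * (q * (1 + P)) * (w k y * (B + p k * A)) := by ring
    linarith

/-- The right neighbour of the off profile. -/
theorem off_up54 (hw : ∀ k y, 0 < w k y) (hp : ∀ k, 0 < p k) (P' : ℤ → Prop) [DecidablePred P'] {q P t : ℝ} (hq : 1 ≤ q) (hP : 0 ≤ P)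
    (M : ℕ) {r m0 nu : ℕ} {y : ℤ} (h : ∀ i < m0, w (r + i) (y + i + 1) ≤ q * w (r + i) (y + i) ∧ 1 ≤ P * p (r + i))
    (hs : DU w p (nu + M) m0 r (y + 1) ≤ t * bw w p r (m0 + nu + M) (y + 1)) :
    ev w p r (m0 + nu) M P' (y + 1) ≤ (q * (1 + P)) ^ m0 * ev w p r (m0 + nu) M P' y + t * bw w p r (m0 + nu + M) (y + 1) := by
  rw [ev_bp, ev_bp]
  have g0 : ∀ z, 0 ≤ (fun z => if P' z then bw w p (r + (m0 + nu)) M z else 0) z := by
    intro z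
    show 0 ≤ if P' z then bw w p (r + (m0 + nu)) M z else 0
    split_ifs
    · exact (bw_pos hw hp _ _ _).le
    · exact le_rfl
  have h1 := up54 hw hp g0 hq hP nu m0 r y h
  have h2 := bu_mono (G := fun z => if P' z then bw w p (r + (m0 + nu)) M z else 0) (G' := bw w p (r + (m0 + nu)) M) hw hp
    (fun z => by
      show (if P' z then bw w p (r + (m0 + nu)) M z else 0) ≤ _
      split_ifs
      · exact le_rfl
      · exact (bw_pos hw hp _ _ _).le) nu m0 r (y + 1)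
  rw [bu_full] at h2
  linarith

/-! ### The local facts -/

variable {N : ℕ} {hi : ℤ} {X t P : ℝ} {m0 : ℕ}

/-- **The local facts of all rows**, for both frames: `Lc21` on one more column, the single weights on `m0 + 2` more columns, the straight
steps to the right. -/
structure Lc54 (w : ℕ → ℤ → ℝ) (p : ℕ → ℝ) (N : ℕ) (hi : ℤ) (X t : ℝ) (m0 : ℕ) : Prop where
  X0 : 0 ≤ X
  t0 : 0 ≤ t
  nb : ∀ i j : ℕ, i + j ≤ N → ∀ y ∈ Icc (0 : ℤ) (hi + 2), |Real.log (bw w p i j y) - Real.log (bw w p i j (y - 1))| ≤ X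
  wt : ∀ i ≤ N, ∀ y ∈ Icc (-1 : ℤ) (hi + 2 + m0), Real.exp (-X) ≤ w i y ∧ w i y ≤ Real.exp X
  sd : ∀ i j : ℕ, i + (m0 + j) ≤ N → ∀ y ∈ Icc (-1 : ℤ) hi, DD w p j m0 i y ≤ t * bw w p i (m0 + j) y
  su : ∀ i j : ℕ, i + (m0 + j) ≤ N → ∀ y ∈ Icc (0 : ℤ) (hi + 2), DU w p j m0 i y ≤ t * bw w p i (m0 + j) y

theorem Lc54.lc (h : Lc54 w p N hi X t m0) : Lc21 w p N hi X t m0 where
  X0 := h.X0
  t0 := h.t0
  nb := fun i j hij y hy => h.nb i j hij y (by rw [mem_Icc] at hy ⊢; omega)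
  wt := fun i hi' y hy => h.wt i hi' y (by rw [mem_Icc] at hy ⊢; omega)
  st := h.sd

/-- Neighbours, all columns. -/
theorem Lc54.ri (hw : ∀ k y, 0 < w k y) (hp : ∀ k, 0 < p k) (h : Lc54 w p N hi X t m0) {i j : ℕ} (hij : i + j ≤ N) {y : ℤ}
    (hy : y ∈ Icc (0 : ℤ) (hi + 1)) :
    bw w p i j (y - 1) ≤ Real.exp X * bw w p i j y ∧ bw w p i j (y + 1) ≤ Real.exp X * bw w p i j y := by
  rw [mem_Icc] at hy
  have a1 := h.nb i j hij y (by rw [mem_Icc]; omega)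
  have a2 := h.nb i j hij (y + 1) (by rw [mem_Icc]; omega)
  rw [add_sub_cancel_right] at a2
  exact ⟨(ratio_of_log (bw_pos hw hp _ _ _) (bw_pos hw hp _ _ _) a1).2, (ratio_of_log (bw_pos hw hp _ _ _) (bw_pos hw hp _ _ _) a2).1⟩

/-- The right neighbour of the off profile. -/
theorem Lc54.up (hw : ∀ k y, 0 < w k y) (hp : ∀ k, 0 < p k) (h : Lc54 w p N hi X t m0) (hP0 : 0 ≤ P) (hP : ∀ i, 1 ≤ P * p i)
    (Q : ℤ → Prop) [DecidablePred Q] {r n2 M : ℕ} (hn : m0 ≤ n2) (hr : r + (n2 + M) ≤ N) {y : ℤ} (hy : y ∈ Icc (0 : ℤ) (hi + 1)) :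
    ev w p r n2 M Q (y + 1) ≤ (Real.exp (2 * X) * (1 + P)) ^ m0 * ev w p r n2 M Q y + t * bw w p r (n2 + M) (y + 1) := by
  obtain ⟨nu, rfl⟩ : ∃ nu, n2 = m0 + nu := ⟨n2 - m0, by omega⟩
  rw [mem_Icc] at hy
  refine off_up54 hw hp Q (Real.one_le_exp (by have := h.X0; linarith)) hP0 M (fun i hi' => ⟨?_, hP _⟩) ?_
  · have a1 := h.wt (r + i) (by omega) (y + i + 1) (mem_Icc.2 ⟨by omega, by omega⟩)
    have a2 := h.wt (r + i) (by omega) (y + i) (mem_Icc.2 ⟨by omega, by omega⟩)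
    have e : Real.exp (2 * X) * Real.exp (-X) = Real.exp X := by
      rw [← Real.exp_add]
      congr 1
      ring
    have := mul_le_mul_of_nonneg_left a2.1 (Real.exp_pos (2 * X)).le
    linarith [a1.2]
  · have := h.su r (nu + M) (by omega) (y + 1) (mem_Icc.2 ⟨by omega, by omega⟩)
    have e : m0 + (nu + M) = m0 + nu + M := by ring
    rwa [e] at this

/-- **`NB54`.** -/
theorem Lc54.nbc {Γ : Cx} {η : Env} (h : Lc54 (K91.wt η) Γ.p Γ.N Γ.hi X t m0) : H54.NB54 Γ X η := by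
  intro i j hij y hy
  rw [mem_Icc] at hy
  exact h.nb i j hij y (by rw [mem_Icc]; omega)

/-- **From the event of helper78.** -/
theorem lc54_of78 {Γ : Cx} {η : Env} {N' : ℕ} {dl c' : ℝ} (h : StE78 Γ.s Γ.h Γ.M N' dl c' η) (hN : Γ.N ≤ 4 * N' ^ 3)
    (hc : Γ.hi + 2 ≤ (N' : ℤ) ^ 4) (hm : (⌈(N' : ℝ) ^ dl⌉₊ : ℤ) ≤ (N' : ℤ) ^ 4) :
    Lc54 (K91.wt η) Γ.p Γ.N Γ.hi ((N' : ℝ) ^ dl) (Real.exp (-(N' : ℝ) ^ c')) ⌈(N' : ℝ) ^ dl⌉₊ := by
  have hk : (0 : ℤ) ≤ Γ.hi := by unfold Cx.hi; positivity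
  have X0 : 0 ≤ (N' : ℝ) ^ dl := Real.rpow_nonneg (Nat.cast_nonneg _) _
  have ep : Γ.p = pN Γ.s Γ.h Γ.M := rfl
  refine ⟨X0, (Real.exp_pos _).le, fun i j hij y hy => ?_, fun i hi' y hy => ?_, fun i j hij y hy => ?_, fun i j hij y hy => ?_⟩
  · rw [mem_Icc] at hy
    rw [ep]
    exact h.1 i j (by omega) y (by rw [abs_le]; constructor <;> omega)
  · rw [mem_Icc] at hy
    have a := h.2.2 i (by omega) y (by rw [abs_le]; constructor <;> omega)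
    rw [abs_le] at a
    unfold K91.wt
    split_ifs
    · constructor
      · rw [Real.exp_le_one_iff]
        linarith
      · exact Real.one_le_exp X0
    · exact ⟨Real.exp_le_exp.2 (by linarith [a.1]), Real.exp_le_exp.2 a.2⟩
  · rw [mem_Icc] at hy
    rw [ep]
    exact (h.2.1 i j (by omega) y (by rw [abs_le]; constructor <;> omega)).2
  · rw [mem_Icc] at hy
    rw [ep]
    exact (h.2.1 i j (by omega) y (by rw [abs_le]; constructor <;> omega)).1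

/-! ### One contact in the mirror frame -/

section main

variable {lo h : ℤ} {l rr : ℤ → ℝ} {c0 n1 ne nb n3 m r n j n2 K J k : ℕ}
  {a b a1 b1 a2 b2 xa xb s da db ya yb za zb q : ℤ} {ph p1 pe p2 p3 ph' p1' pe' p2' p3' f : ℤ → ℝ}
  {δ e e1 e2 U L L0 V A0 A1 A2 A3 G0 ε ε' ρ β kap M ef Uf Lf : ℝ}

/-- **SUCCESS => H1 FOR ONE CONTACT, MIRROR FRAME.** -/
theorem sucn54 (hw : ∀ k y, 0 < w k y) (hp : ∀ k, 0 < p k)
    (S : All w p lo h c0 n1 ne nb n3 a1 b1 a2 b2 xa xb s da db ya yb za zb ph p1 pe p2 p3 δ e U L L0 A0 A1 A2 A3)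
    (F : Sh21.Fut w p lo (h + n1 + ne + nb + n3) (c0 + n1 + ne + nb + n3) m za zb p3 V G0)
    (S' : All w p lo h c0 n1 ne nb n3 a1 b1 a2 b2 xa xb s da db ya yb za zb ph' p1' pe' p2' p3' δ ef Uf Lf L0 A0 A1 A2 A3)
    (F0 : Sh21.Fut w p lo (h + n1 + ne + nb + n3) (c0 + n1 + ne + nb + n3) 0 za zb p3' 1 1)
    (hl0 : ∀ y, 0 ≤ l y) (hr0 : ∀ y, 0 ≤ rr y) (hsl : ∀ y, fw w p l c0 y ≠ 0 → lo ≤ y ∧ y ≤ h)
    (hsr : ∀ y, fw w p rr c0 y ≠ 0 → lo ≤ y ∧ y ≤ h)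
    (I : SeamIn lo h (fw w p l c0) (fw w p rr c0) a1 b1 a2 b2 ph e1 e2) (he1 : 0 ≤ e1)
    (hn : n1 ≤ K) (hK : K + (n2 + 1) = n1 + ne + nb) (hk : k = c0 + K) (hJ : J = n2 + n3) (hh : h + (K : ℕ) < hi)
    (hf : f = bw w p (k + 1) (n2 + (n3 + m)))
    (hε : e * (V * L * U * L) * (V * L * U * L) ≤ ε) (hεf : ef * (Lf * Uf * Lf) * (Lf * Uf * Lf) ≤ ε)
    (hε1 : e1 * (V * L * U * L) * (V * L * U * L) ≤ ε) (sm : δ + 12 * ε ≤ 1 / 4)
    (ε1 : ε ≤ 1 / 8) (ρ1 : 1 ≤ ρ) (β1 : 1 ≤ β) (t0 : 0 ≤ t) (he : β / min 1 (p k) * ε + t ≤ ε')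
    (rf : ∀ y ∈ Icc lo (hi + 1), f (y - 1) ≤ ρ * f y ∧ f (y + 1) ≤ ρ * f y)
    (ri : ∀ y ∈ Icc lo (hi + 1), bw w p (k + 1) J (y - 1) ≤ ρ * bw w p (k + 1) J y ∧ bw w p (k + 1) J (y + 1) ≤ ρ * bw w p (k + 1) J y)
    (up : ∀ y ∈ Icc lo (hi + 1), ev w p (k + 1) n2 (n3 + m) (fun z => ¬ (ya ≤ z ∧ z ≤ yb)) (y + 1) ≤
      β * ev w p (k + 1) n2 (n3 + m) (fun z => ¬ (ya ≤ z ∧ z ≤ yb)) y + t * bw w p (k + 1) (n2 + (n3 + m)) (y + 1))
    (up0 : ∀ y ∈ Icc lo (hi + 1), ev w p (k + 1) n2 n3 (fun z => ¬ (ya ≤ z ∧ z ≤ yb)) (y + 1) ≤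
      β * ev w p (k + 1) n2 n3 (fun z => ¬ (ya ≤ z ∧ z ≤ yb)) y + t * bw w p (k + 1) (n2 + n3) (y + 1))
    (e1' : (1 + p k) * (ρ ^ 2 * et (p k) δ ε' ρ) ≤ 1 / 2) (hρ : ρ ≤ kap)
    (hM : Real.log (rrn (p k) ρ (ρ ^ 2 * (Lf * Uf * Lf) ^ 2)) + 1 ≤ M)
    (SN : SucN w p lo hi l rr c0 K J k f a1 a2 q (am w p c0 n1 a1 b1 xa (fw w p l c0)) (am w p c0 n1 a2 b2 xa (fw w p l c0))
      (am w p c0 n1 a1 b1 xa (fw w p rr c0)) (am w p c0 n1 a2 b2 xa (fw w p rr c0)) (Kr w p (k + 1) n2 n3 m ya za zb) kap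
      (et (p k) δ ε' ρ) ρ ((Lf * Uf * Lf) ^ 2) M) :
    SucN (wsh k w) p lo hi l rr c0 K J k (fun y => f (y + 1)) a1 a2 q (am w p c0 n1 a1 b1 xa (fw w p l c0))
      (am w p c0 n1 a2 b2 xa (fw w p l c0)) (am w p c0 n1 a1 b1 xa (fw w p rr c0)) (am w p c0 n1 a2 b2 xa (fw w p rr c0))
      (Kr w p (k + 1) n2 n3 m ya za zb) kap (ρ ^ 2 * et (p k) δ ε' ρ) ρ (ρ ^ 2 * (Lf * Uf * Lf) ^ 2) M := by
  obtain ⟨j, rfl⟩ : ∃ j, K = n1 + j := ⟨K - n1, by omega⟩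
  have hk' : k = c0 + n1 + j := by omega
  clear hk
  subst hk'
  subst hJ
  subst hf
  have g := S.g
  have g1 := g.h1
  have g2 := g.h2
  have g3 := g.h3
  have g7 := g.h7
  have g8 := g.h8
  have V1 := F.V1
  have L1 := S.L1
  have U1 := S.U1
  have e0 := S.e0
  have hj : j + (n2 + 1) = ne + nb := by omega
  have El := S.ent hw hp F hl0 hsl hh hj he1 I.I.offa hε hε1 ε1
  have Er := S.ent hw hp F hr0 hsr hh hj he1 I.I.offb hε hε1 ε1
  have OO := S.outs hw hp F S' F0 hε hεf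
  have BB := S.bufs hw hp F S' F0 hε hεf
  have i1 : n1 + j + (n2 + 1) = n1 + ne + nb := by omega
  have i2 : c0 + n1 + j + 1 + n2 = c0 + n1 + ne + nb := by omega
  have RR : Row21m w p lo hi c0 n1 j n2 n3 m a1 b2 ya yb za zb δ ε ρ β t :=
    { B := by rw [i2]; exact BB
      O := by rw [i1]; exact OO
      ρ1 := ρ1
      β1 := β1
      t0 := t0
      sm := sm
      rf := rf
      ri := ri
      up := up
      up0 := up0 }
  have et0 : 0 ≤ ρ ^ 2 * et (p (c0 + n1 + j)) δ ε' ρ := mul_nonneg (by positivity) SN.eta0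
  have f' : ∀ y, 0 < Pm w p (c0 + n1 + j) n2 n3 m ya za zb (y + 1) := fun y => Pm_pos hw hp BB.gx _ _
  have ha1 : a1 ∈ Icc lo hi := mem_Icc.2 ⟨by omega, by omega⟩
  have ha2 : a2 ∈ Icc lo hi := mem_Icc.2 ⟨by omega, by omega⟩
  have q1 := mem_Icc.1 SN.G.q1
  have q2 := mem_Icc.1 SN.G.q2
  have f0 : ∀ y, 0 < bw w p (c0 + n1 + j + 1) (n2 + (n3 + m)) y := fun y => bw_pos hw hp _ _ _
  have rq := (rf q (mem_Icc.2 ⟨by omega, by omega⟩)).2
  have rq' := (rf (q + 1) (mem_Icc.2 ⟨by omega, by omega⟩)).1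
  rw [add_sub_cancel_right] at rq'
  refine SucN.mir hw hp SN et0 e1'
    ⟨_, tpos (k := c0 + n1 + j) (c0 := c0) (K := n1 + j) hw hp f' ha1 ha2 SN.A1p SN.A2p, nr21m hw hp RR El he q⟩
    ⟨_, tpos (k := c0 + n1 + j) (c0 := c0) (K := n1 + j) hw hp f' ha1 ha2 SN.B1p SN.B2p, nr21m hw hp RR Er he q⟩
    ρ1 ri le_rfl hρ ?_ ?_ hM
  · exact rq'.trans (mul_le_mul_of_nonneg_right hρ (f0 _).le)
  · exact rq.trans (mul_le_mul_of_nonneg_right hρ (f0 _).le)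

end main

/-! ### All contacts -/

section final

variable {Γ : Cx} {η : Env} {c0 n1 ne nb n3 m D' : ℕ} {a1 b1 a2 b2 xa xb s da db ya yb za zb : ℤ}
  {ph p1 pe p2 p3 ph' p1' pe' p2' p3' : ℤ → ℝ}
  {δ e e1 e2 U L L0 V A0 A1 A2 A3 G0 ε ε' M τ τ' ef Uf Lf : ℝ}

theorem rrn_mono {pk ρ R R' : ℝ} (hp : 0 < pk) (h : R ≤ R') : rrn pk ρ R ≤ rrn pk ρ R' := by
  have mp : 0 < min 1 pk := lt_min one_pos hp
  unfold rrn
  refine div_le_div_of_nonneg_right (mul_le_mul_of_nonneg_left h (by positivity)) mp.le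

/-- **SUCCESS => H1 AT ALL CONTACTS OF THE MIDDLE ROWS, BOTH FRAMES.** -/
theorem sucC54 (h : Γ.Ok)
    (S : All (K91.wt η) Γ.p 0 (Γ.k + c0) c0 n1 ne nb n3 a1 b1 a2 b2 xa xb s da db ya yb za zb ph p1 pe p2 p3 δ e U L L0 A0 A1 A2 A3)
    (F : Sh21.Fut (K91.wt η) Γ.p 0 (Γ.k + c0 + n1 + ne + nb + n3) (c0 + n1 + ne + nb + n3) m za zb p3 V G0)
    (S' : All (K91.wt η) Γ.p 0 (Γ.k + c0) c0 n1 ne nb n3 a1 b1 a2 b2 xa xb s da db ya yb za zb ph' p1' pe' p2' p3' δ ef Uf Lf L0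
      A0 A1 A2 A3)
    (hp3 : ∀ z ∈ Icc (0 : ℤ) (Γ.k + c0 + n1 + ne + nb + n3), 1 ≤ p3' z)
    (I : SeamIn 0 (Γ.k + c0) (fw (K91.wt η) Γ.p l c0) (fw (K91.wt η) Γ.p Γ.r c0) a1 b1 a2 b2 ph e1 e2) (he1 : 0 ≤ e1) (he2 : 0 ≤ e2)
    (hN : c0 + (n1 + ne + nb + n3) + m = Γ.N) (ha2 : a2 ≤ c0) (C : Lc54 (K91.wt η) Γ.p Γ.N Γ.hi X t m0)
    (hn : n1 ≤ D') (hD : D' + m0 ≤ n1 + ne + nb) (hP : ∀ i, Γ.p i ≤ P) (hP' : ∀ i, 1 ≤ P * Γ.p i)
    (hε : e * (V * L * U * L) * (V * L * U * L) ≤ ε) (hεf : ef * (Lf * Uf * Lf) * (Lf * Uf * Lf) ≤ ε)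
    (hε1 : e1 * (V * L * U * L) * (V * L * U * L) ≤ ε) (sm : δ + 12 * ε ≤ 1 / 4)
    (he : ∀ i, (Real.exp (2 * X) * (1 + P)) ^ m0 / min 1 (Γ.p i) * ε + t ≤ ε')
    (e1' : ∀ i, (1 + Γ.p i) * (Real.exp X ^ 2 * et (Γ.p i) δ ε' (Real.exp X)) ≤ 1 / 2) (hM1 : Real.exp (M + 1) * (e2 * L0 ^ 4) ≤ 1)
    (hM : ∀ i, Real.log (rrn (Γ.p i) (Real.exp X) (Real.exp X ^ 2 * (Lf * Uf * Lf) ^ 2)) + 1 ≤ M)
    (hτ : ∀ i, ecs (Γ.p i) (Real.exp X) (et (Γ.p i) δ ε' (Real.exp X)) (rrn (Γ.p i) (Real.exp X) ((Lf * Uf * Lf) ^ 2))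
      (KC Γ i (2 * X) X) M + ecs (Γ.p i) (Real.exp X) (Real.exp X ^ 2 * et (Γ.p i) δ ε' (Real.exp X))
      (rrn (Γ.p i) (Real.exp X) (Real.exp X ^ 2 * (Lf * Uf * Lf) ^ 2)) (KC Γ i (2 * X) X) M ≤ τ)
    (hτ' : ∀ i, ept (Γ.p i) (et (Γ.p i) δ ε' (Real.exp X)) (rrn (Γ.p i) (Real.exp X) ((Lf * Uf * Lf) ^ 2)) M ≤ τ') :
    SucC Γ η c0 n1 D' (n1 + ne + nb + n3) a1 a2 τ τ' := by
  have hw : ∀ k y, 0 < K91.wt η k y := K91.wt_pos η
  have hp : ∀ k, 0 < Γ.p k := L91.p_pos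
  have P0 : 0 ≤ P := (hp 0).le.trans (hP 0)
  have hk1 : (1 : ℤ) ≤ Γ.k := by exact_mod_cast h.k1
  have hi0 : (0 : ℤ) ≤ Γ.hi := by unfold Cx.hi; positivity
  have g := S.g
  have g1 := g.h1
  have g2 := g.h2
  have g7 := g.h7
  have CL := C.lc
  have V1 := F.V1
  have L1 := S.L1
  have U1 := S.U1
  have ε0 : 0 ≤ ε := by
    refine le_trans ?_ hε
    have := S.e0
    positivity
  have δ0 := S.δ0
  have F0 : Sh21.Fut (K91.wt η) Γ.p 0 (Γ.k + c0 + n1 + ne + nb + n3) (c0 + n1 + ne + nb + n3) 0 za zb p3' 1 1 := Sh21.Fut.flat le_rfl hp3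
  have E1 : 1 ≤ Real.exp X := Real.one_le_exp C.X0
  have E2 : 1 ≤ Real.exp X ^ 2 := one_le_pow₀ E1
  have β1 : 1 ≤ (Real.exp (2 * X) * (1 + P)) ^ m0 := by
    refine one_le_pow₀ ?_
    have := Real.one_le_exp (show 0 ≤ 2 * X by linarith [C.X0])
    nlinarith
  have R0 : 0 ≤ (Lf * Uf * Lf) ^ 2 := sq_nonneg _
  have R12 : (Lf * Uf * Lf) ^ 2 ≤ Real.exp X ^ 2 * (Lf * Uf * Lf) ^ 2 := le_mul_of_one_le_left R0 E2
  have LUL : 1 ≤ (Lf * Uf * Lf) ^ 2 := by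
    have Lf1 := S'.L1
    have Uf1 := S'.U1
    have h1 : 1 ≤ Lf * Uf * Lf := by
      calc (1 : ℝ) = 1 * 1 * 1 := by ring
        _ ≤ Lf * Uf * Lf := mul_le_mul (mul_le_mul Lf1 Uf1 zero_le_one (by linarith)) Lf1 zero_le_one (by positivity)
    exact one_le_pow₀ h1
  have both : ∀ K, n1 ≤ K → K < D' → ∀ x ∈ Icc (1 : ℤ) (1 + Γ.N), ∃ A1 A2 B1 B2 KK : ℝ,
      SucN (K91.wt η) Γ.p 0 Γ.hi l Γ.r c0 K (n1 + ne + nb + n3 - (K + 1)) (c0 + K) (fC Γ η (c0 + K)) a1 a2 x A1 A2 B1 B2 KK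
        (Real.exp X) (et (Γ.p (c0 + K)) δ ε' (Real.exp X)) (Real.exp X) ((Lf * Uf * Lf) ^ 2) M ∧
      SucN (wsh (c0 + K) (K91.wt η)) Γ.p 0 Γ.hi l Γ.r c0 K (n1 + ne + nb + n3 - (K + 1)) (c0 + K)
        (fun y => fC Γ η (c0 + K) (y + 1)) a1 a2 x A1 A2 B1 B2 KK
        (Real.exp X) (Real.exp X ^ 2 * et (Γ.p (c0 + K)) δ ε' (Real.exp X)) (Real.exp X) (Real.exp X ^ 2 * (Lf * Uf * Lf) ^ 2) M := by
    intro K h1 h2 x hx
    obtain ⟨n2, hn2⟩ : ∃ n2, K + (n2 + 1) = n1 + ne + nb := ⟨n1 + ne + nb - (K + 1), by omega⟩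
    have em : Γ.N - (c0 + K + 1) = n2 + (n3 + m) := by omega
    have hx' := mem_Icc.1 hx
    have hxh : x ≤ Γ.hi := by
      unfold Cx.hi
      omega
    have hm0 : m0 ≤ n2 := by omega
    have eJ : n1 + ne + nb + n3 - (K + 1) = n2 + n3 := by omega
    have hpk := hp (c0 + K)
    have hf : fC Γ η (c0 + K) = bw (K91.wt η) Γ.p (c0 + K + 1) (n2 + (n3 + m)) := by
      unfold fC
      rw [em]
    have hh : ((Γ.k : ℤ) + c0) + (K : ℕ) < Γ.hi := by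
      unfold Cx.hi
      omega
    have et0 : 0 ≤ et (Γ.p (c0 + K)) δ ε' (Real.exp X) := by
      have mp : 0 < min 1 (Γ.p (c0 + K)) := lt_min one_pos hpk
      have : 0 ≤ ε' := le_trans (by have := C.t0; positivity) (he (c0 + K))
      unfold et
      positivity
    have e1n : (1 + Γ.p (c0 + K)) * et (Γ.p (c0 + K)) δ ε' (Real.exp X) ≤ 1 / 2 := by
      refine le_trans (mul_le_mul_of_nonneg_left ?_ (by linarith)) (e1' (c0 + K))
      exact le_mul_of_one_le_left et0 E2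
    have hMn : Real.log (rrn (Γ.p (c0 + K)) (Real.exp X) ((Lf * Uf * Lf) ^ 2)) + 1 ≤ M := by
      have r0 : 0 < rrn (Γ.p (c0 + K)) (Real.exp X) ((Lf * Uf * Lf) ^ 2) := by
        have mp : 0 < min 1 (Γ.p (c0 + K)) := lt_min one_pos hpk
        unfold rrn
        positivity
      have := Real.log_le_log r0 (rrn_mono hpk R12)
      linarith [hM (c0 + K)]
    have SN := sucn21 (k := c0 + K) (hi := Γ.hi) (q := x) (rr := Γ.r) (l := l) (J := n1 + ne + nb + n3 - (K + 1)) (n2 := n2) (m := m)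
      (β := (Real.exp (2 * X) * (1 + P)) ^ m0) (t := t) (kap := Real.exp X) (ρ := Real.exp X) (ε' := ε') (M := M)
      (f := fC Γ η (c0 + K)) hw hp S F S' F0 Cx.l_nonneg
      (Cx.r_nonneg h) (fun y => sup_l) (fun y => sup_r) I he1 he2 h1 hn2 rfl eJ hh hf hε hεf hε1 sm (by linarith) E1
      β1 C.t0 (he _) (by unfold fC; exact CL.reg hw hp (by omega) (by omega) hx'.1 hxh)
      (by rw [eJ]; exact CL.reg hw hp (by omega) (by omega) hx'.1 hxh)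
      (fun y hy => by unfold fC; exact CL.ri hw hp (by omega) hy) (fun y hy => by rw [eJ]; exact CL.ri hw hp (by omega) hy)
      (fun y hy => CL.dn hw hp P0 hP _ hm0 (by omega) hy) (fun y hy => CL.dn hw hp P0 hP _ hm0 (by omega) hy) e1n hM1 hMn
    have SM := sucn54 (k := c0 + K) (hi := Γ.hi) (q := x) (rr := Γ.r) (l := l) (J := n1 + ne + nb + n3 - (K + 1)) (n2 := n2) (m := m)
      (β := (Real.exp (2 * X) * (1 + P)) ^ m0) (t := t) (kap := Real.exp X) (ρ := Real.exp X) (ε' := ε') (M := M)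
      (f := fC Γ η (c0 + K)) hw hp S F S' F0 Cx.l_nonneg
      (Cx.r_nonneg h) (fun y => sup_l) (fun y => sup_r) I he1 h1 hn2 rfl eJ hh hf hε hεf hε1 sm (by linarith) E1
      β1 C.t0 (he _) (fun y hy => by unfold fC; exact C.ri hw hp (by omega) hy)
      (fun y hy => by rw [eJ]; exact C.ri hw hp (by omega) hy)
      (fun y hy => C.up hw hp P0 hP' _ hm0 (by omega) hy) (fun y hy => C.up hw hp P0 hP' _ hm0 (by omega) hy) (e1' _) le_rfl (hM _) SN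
    exact ⟨_, _, _, _, _, SN, SM⟩
  refine
    { hn := hn
      hD := by omega
      hN := by omega
      g1 := g7
      g2 := by omega
      g3 := ha2
      C := fun K h1 h2 x hx => ?_
      w := fun K h1 h2 x hx => ?_ }
  · obtain ⟨A1', A2', B1', B2', KK', SN, SM⟩ := both K h1 h2 x hx
    have hx' := mem_Icc.1 hx
    have hu := CL.uc_le (Γ := Γ) (i := c0 + K) (by omega) hx'.1 (by unfold Cx.hi; omega)
    have n1' := C.nb (c0 + K + 1) (Γ.N - (c0 + K + 1)) (by omega) x (mem_Icc.2 ⟨by omega, by unfold Cx.hi; omega⟩)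
    have n2' := C.nb (c0 + K + 1) (Γ.N - (c0 + K + 1)) (by omega) (x + 1) (mem_Icc.2 ⟨by omega, by unfold Cx.hi; omega⟩)
    rw [add_sub_cancel_right] at n2'
    exact (near_spl h η (show K < n1 + ne + nb + n3 by omega) (by omega) hx hu (X := X) (X' := X)
      (by rw [abs_sub_comm]; exact n1') (by rw [abs_sub_comm]; exact n2') SN SM).trans (hτ _)
  · obtain ⟨A1', A2', B1', B2', KK', SN, -⟩ := both K h1 h2 x hx
    exact (H1c.nearN_w h η (show K < n1 + ne + nb + n3 by omega) (by omega) hx SN).trans (hτ' _)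

end final

end

end Pool.Agent.W_7d29a1_C1.H54
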