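import Pool.Agent.W_7d29a1_C1.CloC54
import Pool.Agent.W_7d29a1_C1.SucM54

/-!
Both halves (MP_7d29a1_pr), attractor route [C1]: THE NUMBERS OF THE CLOSENESS, deterministic part. (helper54)

`T` = a number above all the local ratios, the constants and the polynomials in the scale, `z` = the small number, `T ^ 40 z ≤ 1`.
-/

set_option autoImplicit false
set_option linter.unusedSectionVars false

namespace Pool.Agent.W_7d29a1_C1.H54

open Finset MeasureTheory
open Pool.Agent.W_7d29a1_F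
open Pool.Agent.W_7d29a1_C1.L91 (Kl Kl_nonneg KC)
open Pool.Agent.W_7d29a1_C1.F74 (et)
open Pool.Agent.W_7d29a1_C1.H60
open Pool.Agent.W_7d29a1_C1.H60.Cx (l uc mem_rows)
open Pool.Agent.W_7d29a1_C1.H1c (ect ept rrn)
open Pool.Agent.W_7d29a1_C1.Mir99 (ecs)

noncomputable section

/-- **The large number and the small number.** -/
structure Bg54 (P y T z : ℝ) : Prop where
  P1 : 1 ≤ P
  PT : 10000 * P ^ 6 ≤ T
  y0 : 0 ≤ y
  yT : 1 + 4 * y ≤ T
  z0 : 0 < z
  zT : T ^ 40 * z ≤ 1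

variable {P y T z : ℝ}

theorem Bg54.T1 (B : Bg54 P y T z) : 10000 ≤ T := by
  have := one_le_pow₀ B.P1 (n := 6)
  linarith [B.PT]

/-- A constant with a power of `P` is at most `T`. -/
theorem Bg54.cst (B : Bg54 P y T z) {c : ℝ} {k : ℕ} (hc0 : 0 ≤ c) (hc : c ≤ 10000) (hk : k ≤ 6) : c * P ^ k ≤ T := by
  have h1 : P ^ k ≤ P ^ 6 := pow_le_pow_right₀ B.P1 hk
  have h2 : 0 ≤ P ^ k := by have := B.P1; positivity
  calc c * P ^ k ≤ 10000 * P ^ 6 := mul_le_mul hc h1 h2 (by norm_num)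
    _ ≤ T := B.PT

theorem Bg54.pw (B : Bg54 P y T z) {j k : ℕ} (h : j ≤ k) : T ^ j ≤ T ^ k := pow_le_pow_right₀ (by linarith [B.T1]) h

theorem Bg54.tz (B : Bg54 P y T z) {j k : ℕ} (h : j ≤ k) : T ^ j * z ≤ T ^ k * z := mul_le_mul_of_nonneg_right (B.pw h) B.z0.le

theorem Bg54.small (B : Bg54 P y T z) {j : ℕ} (h : j < 40) : T ^ j * z ≤ 1 / T := by
  have hT := B.T1
  have T0 : 0 < T := by linarith
  rw [le_div_iff₀ T0]
  calc T ^ j * z * T = T ^ (j + 1) * z := by ring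
    _ ≤ T ^ 40 * z := B.tz (by omega)
    _ ≤ 1 := B.zT

variable {p ρ M : ℝ}

/-- The bounds of the step weight. -/
theorem min_inv54 (hp : 0 < p) (hP1 : 1 ≤ P) (hP' : 1 ≤ P * p) : 1 / min 1 p ≤ P ∧ 1 / p ≤ P ∧ max 1 (1 / p) ≤ P := by
  have mp : 0 < min 1 p := lt_min one_pos hp
  have h2 : 1 / p ≤ P := by rwa [div_le_iff₀ hp]
  refine ⟨?_, h2, max_le hP1 h2⟩
  rw [div_le_iff₀ mp]
  rcases le_total 1 p with h | h
  · rw [min_eq_left h]
    linarith
  · rwa [min_eq_right h]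

/-- The distance of two rows. -/
theorem et54 (B : Bg54 P y T z) (hp : 0 < p) (hP : p ≤ P) (hP' : 1 ≤ P * p) {δ : ℝ} (δ0 : 0 ≤ δ) (hδ : δ ≤ z) (ρ1 : 1 ≤ ρ)
    (hρ : ρ ≤ T) : 0 ≤ et p δ (2 * z) ρ ∧ et p δ (2 * z) ρ ≤ T ^ 3 * z := by
  have hT := B.T1
  have T0 : 0 < T := by linarith
  have z0 := B.z0
  have P1 := B.P1
  have mp : 0 < min 1 p := lt_min one_pos hp
  have ρ0 : 0 < ρ := by linarith
  obtain ⟨m1, -, -⟩ := min_inv54 hp P1 hP'
  unfold et
  refine ⟨by positivity, ?_⟩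
  have h1 : 1 + p * ρ ≤ 2 * P * T := by
    have a1 : p * ρ ≤ P * T := mul_le_mul hP hρ ρ0.le (by linarith)
    have a2 : 1 ≤ P * T := by nlinarith
    linarith
  have h2 : δ + 2 * z ≤ 3 * z := by linarith
  have h3 := B.cst (c := 1080) (k := 2) (by norm_num) (by norm_num) (by norm_num)
  calc 180 * ρ * (1 + p * ρ) * (δ + 2 * z) / min 1 p = 180 * ρ * (1 + p * ρ) * (δ + 2 * z) * (1 / min 1 p) := by
        rw [mul_one_div]
    _ ≤ 180 * T * (2 * P * T) * (3 * z) * P := by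
        refine mul_le_mul (mul_le_mul (mul_le_mul (by linarith) h1 (by positivity) (by positivity)) h2 (by positivity) (by positivity))
          m1 (by positivity) (by positivity)
    _ = 1080 * P ^ 2 * (T ^ 2 * z) := by ring
    _ ≤ T * (T ^ 2 * z) := mul_le_mul_of_nonneg_right h3 (by positivity)
    _ = T ^ 3 * z := by ring

/-- The ratio of the totals. -/
theorem rr54 (B : Bg54 P y T z) (hp : 0 < p) (hP : p ≤ P) (hP' : 1 ≤ P * p) (ρ1 : 1 ≤ ρ) (hρ : ρ ≤ T) {R : ℝ} (hR1 : 1 ≤ R)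
    (hR : R ≤ T ^ 2 * Real.exp (M / 2)) (hM : T ^ 5 * Real.exp (-(M / 2)) ≤ z) (hM2 : Real.exp 1 * T ^ 5 ≤ Real.exp (M / 2)) :
    0 < rrn p ρ R ∧ Real.log (rrn p ρ R) + 1 ≤ M ∧ rrn p ρ R * Real.exp (-M) ≤ z := by
  have hT := B.T1
  have T0 : 0 < T := by linarith
  have P1 := B.P1
  have mp : 0 < min 1 p := lt_min one_pos hp
  obtain ⟨m1, -, -⟩ := min_inv54 hp P1 hP'
  have ρ0 : 0 < ρ := by linarith
  have r0 : 0 < rrn p ρ R := by
    unfold rrn
    positivity
  have key : rrn p ρ R ≤ T ^ 5 * Real.exp (M / 2) := by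
    have h3 := B.cst (c := 4) (k := 3) (by norm_num) (by norm_num) (by norm_num)
    have a1 : (1 + p) ^ 2 ≤ (2 * P) ^ 2 := pow_le_pow_left₀ (by linarith) (by linarith) 2
    have a2 : ρ ^ 2 ≤ T ^ 2 := pow_le_pow_left₀ ρ0.le hρ 2
    unfold rrn
    calc (1 + p) ^ 2 * ρ ^ 2 * R / min 1 p = (1 + p) ^ 2 * ρ ^ 2 * R * (1 / min 1 p) := by rw [mul_one_div]
      _ ≤ (2 * P) ^ 2 * T ^ 2 * (T ^ 2 * Real.exp (M / 2)) * P := by
        refine mul_le_mul (mul_le_mul (mul_le_mul a1 a2 (by positivity) (by positivity)) hR (by positivity) (by positivity))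
          m1 (by positivity) (by positivity)
      _ = 4 * P ^ 3 * (T ^ 4 * Real.exp (M / 2)) := by ring
      _ ≤ T * (T ^ 4 * Real.exp (M / 2)) := mul_le_mul_of_nonneg_right h3 (by positivity)
      _ = T ^ 5 * Real.exp (M / 2) := by ring
  refine ⟨r0, ?_, ?_⟩
  · have h1 := Real.log_le_log r0 key
    rw [Real.log_mul (by positivity) (Real.exp_pos _).ne', Real.log_exp] at h1
    have h2 := Real.log_le_log (by positivity) hM2
    rw [Real.log_mul (Real.exp_pos _).ne' (by positivity), Real.log_exp, Real.log_exp] at h2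
    linarith
  · calc rrn p ρ R * Real.exp (-M) ≤ T ^ 5 * Real.exp (M / 2) * Real.exp (-M) :=
        mul_le_mul_of_nonneg_right key (Real.exp_pos _).le
      _ = T ^ 5 * Real.exp (-(M / 2)) := by
        rw [mul_assoc, ← Real.exp_add]
        congr 2
        ring
      _ ≤ z := hM

/-- The local constant. -/
theorem kl54 (B : Bg54 P y T z) (hp : 0 < p) (hP' : 1 ≤ P * p) {κ κ' : ℝ} (h1 : 1 ≤ κ) (h1' : 1 ≤ κ')
    (k1 : 1 + 2 * Real.log κ ≤ T) (k2 : κ ≤ T ^ 2) (k3 : 1 + Real.log κ' ≤ T) : 0 ≤ Kl p κ κ' ∧ Kl p κ κ' ≤ T ^ 4 := by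
  have hT := B.T1
  have T0 : 0 < T := by linarith
  have P1 := B.P1
  obtain ⟨-, m2, m3⟩ := min_inv54 hp P1 hP'
  refine ⟨Kl_nonneg hp h1 h1', ?_⟩
  have l1 := Real.log_nonneg h1
  have l2 := Real.log_nonneg h1'
  have m0 : 0 ≤ max 1 (1 / p) := le_trans zero_le_one (le_max_left _ _)
  have a1 : (max 1 (1 / p)) ^ 2 ≤ P ^ 2 := pow_le_pow_left₀ m0 m3 2
  have c1 := B.cst (c := 4) (k := 1) (by norm_num) (by norm_num) (by norm_num)
  have c2 := B.cst (c := 4) (k := 2) (by norm_num) (by norm_num) (by norm_num)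
  rw [pow_one] at c1
  unfold Kl
  have t1 : 4 * (1 + 2 * Real.log κ) * (κ / p) ≤ T ^ 4 / 2 := by
    have c3 := B.cst (c := 8) (k := 1) (by norm_num) (by norm_num) (by norm_num)
    rw [pow_one] at c3
    calc 4 * (1 + 2 * Real.log κ) * (κ / p) = 4 * (1 + 2 * Real.log κ) * (κ * (1 / p)) := by rw [mul_one_div]
      _ ≤ 4 * T * (T ^ 2 * P) := by
        refine mul_le_mul (by linarith) (mul_le_mul k2 m2 (by positivity) (by positivity)) (by positivity) (by positivity)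
      _ = 8 * P * T ^ 3 / 2 := by ring
      _ ≤ T * T ^ 3 / 2 := by
        have := mul_le_mul_of_nonneg_right c3 (show 0 ≤ T ^ 3 by positivity)
        linarith
      _ = T ^ 4 / 2 := by ring
  have t2 : 4 * (1 + Real.log κ') * (max 1 (1 / p)) ^ 2 ≤ T ^ 4 / 2 := by
    have c3 := B.cst (c := 8) (k := 2) (by norm_num) (by norm_num) (by norm_num)
    calc 4 * (1 + Real.log κ') * (max 1 (1 / p)) ^ 2 ≤ 4 * T * P ^ 2 := mul_le_mul (by linarith) a1 (by positivity) (by positivity)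
      _ = 8 * P ^ 2 * T / 2 := by ring
      _ ≤ T * T / 2 := by
        have := mul_le_mul_of_nonneg_right c3 T0.le
        linarith
      _ = T ^ 2 / 2 := by ring
      _ ≤ T ^ 4 / 2 := by
        have := B.pw (show 2 ≤ 4 by norm_num)
        linarith
  linarith

/-- The error of one contact, one frame. -/
theorem ecs54 (B : Bg54 P y T z) (hp : 0 < p) (hP : p ≤ P) {kap e rr K : ℝ} (k0 : 0 ≤ kap) (hk : kap ≤ T) (e0 : 0 ≤ e)
    (he : e ≤ T ^ 5 * z) (hrr : 0 ≤ rr * Real.exp (-M)) (hrr2 : rr * Real.exp (-M) ≤ z) (K0 : 0 ≤ K) (hK : K ≤ T ^ 4) (M0 : 0 ≤ M)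
    (hM : M + 1 ≤ T) : ecs p kap e rr K M ≤ T ^ 16 * z := by
  have hT := B.T1
  have T0 : 0 < T := by linarith
  have P1 := B.P1
  have z0 := B.z0
  have h8 : kap ^ 8 ≤ T ^ 8 := pow_le_pow_left₀ k0 hk 8
  have p1 : 1 + p ≤ 2 * P := by linarith
  have c1 := B.cst (c := 704) (k := 1) (by norm_num) (by norm_num) (by norm_num)
  have c2 := B.cst (c := 12) (k := 0) (by norm_num) (by norm_num) (by norm_num)
  have c3 := B.cst (c := 6) (k := 1) (by norm_num) (by norm_num) (by norm_num)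
  have c4 := B.cst (c := 8) (k := 2) (by norm_num) (by norm_num) (by norm_num)
  rw [pow_one] at c1 c3
  rw [pow_zero, mul_one] at c2
  unfold ecs ect
  have t1 : 2 * (M + 1) * (176 * (1 + p) * kap ^ 8 * e) ≤ T ^ 15 * z := by
    calc 2 * (M + 1) * (176 * (1 + p) * kap ^ 8 * e) ≤ 2 * T * (176 * (2 * P) * T ^ 8 * (T ^ 5 * z)) := by
          refine mul_le_mul (by linarith) (mul_le_mul (mul_le_mul (by linarith) h8 (by positivity) (by positivity)) he e0
            (by positivity)) (by positivity) (by positivity)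
      _ = 704 * P * (T ^ 14 * z) := by ring
      _ ≤ T * (T ^ 14 * z) := mul_le_mul_of_nonneg_right c1 (by positivity)
      _ = T ^ 15 * z := by ring
  have t2 : 12 * kap ^ 8 * rr * Real.exp (-M) ≤ T ^ 15 * z := by
    calc 12 * kap ^ 8 * rr * Real.exp (-M) = 12 * kap ^ 8 * (rr * Real.exp (-M)) := by ring
      _ ≤ T * T ^ 8 * z := mul_le_mul (mul_le_mul c2 h8 (by positivity) T0.le) hrr2 hrr (by positivity)
      _ = T ^ 9 * z := by ring
      _ ≤ T ^ 15 * z := B.tz (by norm_num)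
  have t3 : 6 * (K * p) * rr * Real.exp (-M) ≤ T ^ 15 * z := by
    calc 6 * (K * p) * rr * Real.exp (-M) = 6 * (K * p) * (rr * Real.exp (-M)) := by ring
      _ ≤ 6 * (T ^ 4 * P) * z := by
        refine mul_le_mul (mul_le_mul_of_nonneg_left (mul_le_mul hK hP hp.le (by positivity)) (by norm_num)) hrr2 hrr (by positivity)
      _ = 6 * P * (T ^ 4 * z) := by ring
      _ ≤ T * (T ^ 4 * z) := mul_le_mul_of_nonneg_right c3 (by positivity)
      _ = T ^ 5 * z := by ring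
      _ ≤ T ^ 15 * z := B.tz (by norm_num)
  have t4 : K * (4 * p * ((1 + p) * e)) ≤ T ^ 15 * z := by
    calc K * (4 * p * ((1 + p) * e)) ≤ T ^ 4 * (4 * P * ((2 * P) * (T ^ 5 * z))) := by
          refine mul_le_mul hK (mul_le_mul (by linarith) (mul_le_mul p1 he e0 (by positivity)) (by positivity) (by positivity))
            (by positivity) (by positivity)
      _ = 8 * P ^ 2 * (T ^ 9 * z) := by ring
      _ ≤ T * (T ^ 9 * z) := mul_le_mul_of_nonneg_right c4 (by positivity)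
      _ = T ^ 10 * z := by ring
      _ ≤ T ^ 15 * z := B.tz (by norm_num)
  have t5 : 4 * (T ^ 15 * z) ≤ T ^ 16 * z := by
    have h0 : 0 ≤ T ^ 15 * z := by positivity
    have := mul_le_mul_of_nonneg_right (show (4 : ℝ) ≤ T by linarith) h0
    calc 4 * (T ^ 15 * z) ≤ T * (T ^ 15 * z) := this
      _ = T ^ 16 * z := by ring
  linarith

/-- The error of one natural weight. -/
theorem ept54 (B : Bg54 P y T z) (hp : 0 < p) (hP : p ≤ P) {e rr : ℝ} (e0 : 0 ≤ e) (he : e ≤ T ^ 5 * z)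
    (hrr2 : rr * Real.exp (-M) ≤ z) (M0 : 0 ≤ M) (hM : M + 1 ≤ T) : ept p e rr M ≤ T ^ 16 * z := by
  have hT := B.T1
  have T0 : 0 < T := by linarith
  have P1 := B.P1
  have z0 := B.z0
  have c1 := B.cst (c := 64) (k := 1) (by norm_num) (by norm_num) (by norm_num)
  rw [pow_one] at c1
  unfold ept
  have t1 : 2 * (M + 1) * (16 * (1 + p) * e) ≤ T ^ 7 * z := by
    calc 2 * (M + 1) * (16 * (1 + p) * e) ≤ 2 * T * (16 * (2 * P) * (T ^ 5 * z)) := by
          refine mul_le_mul (by linarith) (mul_le_mul (by linarith) he e0 (by positivity)) (by positivity) (by positivity)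
      _ = 64 * P * (T ^ 6 * z) := by ring
      _ ≤ T * (T ^ 6 * z) := mul_le_mul_of_nonneg_right c1 (by positivity)
      _ = T ^ 7 * z := by ring
  have t2 : 8 * rr * Real.exp (-M) + 6 * rr * Real.exp (-M) ≤ 14 * z := by
    have : 8 * rr * Real.exp (-M) + 6 * rr * Real.exp (-M) = 14 * (rr * Real.exp (-M)) := by ring
    rw [this]
    linarith
  have t3 : T ^ 7 * z ≤ T ^ 15 * z := B.tz (by norm_num)
  have t4 : 14 * z ≤ T ^ 15 * z := by
    have h1 : (14 : ℝ) ≤ T ^ 15 := by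
      calc (14 : ℝ) ≤ T := by linarith
        _ = T ^ 1 := (pow_one T).symm
        _ ≤ T ^ 15 := B.pw (by norm_num)
    exact mul_le_mul_of_nonneg_right h1 z0.le
  have t5 : 2 * (T ^ 15 * z) ≤ T ^ 16 * z := by
    have h0 : 0 ≤ T ^ 15 * z := by positivity
    calc 2 * (T ^ 15 * z) ≤ T * (T ^ 15 * z) := mul_le_mul_of_nonneg_right (by linarith) h0
      _ = T ^ 16 * z := by ring
  linarith

end

end Pool.Agent.W_7d29a1_C1.H54
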