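import Pool.Agent.W_7d29a1_C1.NumA54
import Pool.Agent.W_7d29a1_C1.MtS21

/-!
Both halves (MP_7d29a1_pr), attractor route [C1]: THE NUMBERS OF THE CLOSENESS, deterministic part, II. (helper54)

`sucN54` : success and local facts give `SucC` with the errors `T ^ 17 z`, `T ^ 16 z`; `closeN54` : both inequalities of the closeness, error
`T ^ 30 z` and the part of the tilt.
-/

set_option autoImplicit false
set_option linter.unusedSectionVars false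

namespace Pool.Agent.W_7d29a1_C1.H54

open Finset MeasureTheory
open Pool.Agent.W_7d29a1_F
open Pool.Agent.W_7d29a1_C1.K91 (shw Box Grp wt wt_pos zs)
open Pool.Agent.W_7d29a1_C1.K91P (fw bw shp bw_pos)
open Pool.Agent.W_7d29a1_C1.L91 (Kl Kl_nonneg KC)
open Pool.Agent.W_7d29a1_C1.F74 (et)
open Pool.Agent.W_7d29a1_C1.H60
open Pool.Agent.W_7d29a1_C1.H60.Cx (l uc mem_rows)
open Pool.Agent.W_7d29a1_C1.H1c (ect ept rrn Mtp Win)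
open Pool.Agent.W_7d29a1_C1.Mir99 (ecs)
open Pool.Agent.W_7d29a1_C1.Sh21
open Pool.Agent.W_7d29a1_C1.T97
open Pool.Agent.W_7d29a1_C1.K97

noncomputable section

variable {P y T z : ℝ}
variable {Γ : Cx} {η : Env} {c0 n1 ne nb n3 m D' m0 kg ng kr : ℕ} {a1 b1 a2 b2 xa xb s da db ya yb za zb va vb xm xn : ℤ} {d0 : Finset ℤ}
  {ph p1 pe p2 p3 ph' p1' pe' p2' p3' pg pm : ℤ → ℝ}
  {δ e e1 e2 U L L0 V A0 A1 A2 A3 G0 ε M X t u θ B' Ag Am Ar ef Uf Lf : ℝ} {P' : ℕ → ℝ}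

/-- The straight steps against the exit: `β P ε ≤ z`. -/
theorem he54 (B : Bg54 P y T z) {p β : ℝ} (hp : 0 < p) (hP' : 1 ≤ P * p) (β0 : 0 ≤ β) (ε0 : 0 ≤ ε) (hβ : P * β * ε ≤ z) (ht : t ≤ z) :
    β / min 1 p * ε + t ≤ 2 * z := by
  have P1 := B.P1
  obtain ⟨m1, -, -⟩ := min_inv54 hp P1 hP'
  have h1 : β / min 1 p * ε ≤ P * β * ε := by
    refine mul_le_mul_of_nonneg_right ?_ ε0
    rw [div_eq_mul_one_div, mul_comm]
    exact mul_le_mul_of_nonneg_right m1 β0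
  linarith

/-- **SUCCESS => H1 AT ALL CONTACTS, WITH THE NUMBERS.** -/
theorem sucN54 (h : Γ.Ok) (B : Bg54 P y T z)
    (S : All (K91.wt η) Γ.p 0 (Γ.k + c0) c0 n1 ne nb n3 a1 b1 a2 b2 xa xb s da db ya yb za zb ph p1 pe p2 p3 δ e U L L0 A0 A1 A2 A3)
    (F : Sh21.Fut (K91.wt η) Γ.p 0 (Γ.k + c0 + n1 + ne + nb + n3) (c0 + n1 + ne + nb + n3) m za zb p3 V G0)
    (S' : All (K91.wt η) Γ.p 0 (Γ.k + c0) c0 n1 ne nb n3 a1 b1 a2 b2 xa xb s da db ya yb za zb ph' p1' pe' p2' p3' δ ef Uf Lf L0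
      A0 A1 A2 A3)
    (hp3 : ∀ z ∈ Icc (0 : ℤ) (Γ.k + c0 + n1 + ne + nb + n3), 1 ≤ p3' z)
    (I : SeamIn 0 (Γ.k + c0) (fw (K91.wt η) Γ.p l c0) (fw (K91.wt η) Γ.p Γ.r c0) a1 b1 a2 b2 ph e1 e2) (he1 : 0 ≤ e1) (he2 : 0 ≤ e2)
    (hN : c0 + (n1 + ne + nb + n3) + m = Γ.N) (ha2 : a2 ≤ c0) (C : Lc54 (K91.wt η) Γ.p Γ.N Γ.hi X t m0)
    (hn : n1 ≤ D') (hD : D' + m0 ≤ n1 + ne + nb) (hP : ∀ i, Γ.p i ≤ P) (hP' : ∀ i, 1 ≤ P * Γ.p i)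
    (hXy : X ≤ y) (hyT : Real.exp y ≤ T) (ht : t ≤ z) (hδ : δ ≤ z) (hεz : ε ≤ z)
    (hε : e * (V * L * U * L) * (V * L * U * L) ≤ ε) (hεf : ef * (Lf * Uf * Lf) * (Lf * Uf * Lf) ≤ ε)
    (hε1 : e1 * (V * L * U * L) * (V * L * U * L) ≤ ε)
    (hβ : P * (Real.exp (2 * X) * (1 + P)) ^ m0 * ε ≤ z) (M0 : 0 ≤ M) (hM1 : Real.exp (M + 1) * (e2 * L0 ^ 4) ≤ 1) (hMT : M + 1 ≤ T)
    (hLU : (Lf * Uf * Lf) ^ 2 ≤ Real.exp (M / 2)) (hM2 : T ^ 5 * Real.exp (-(M / 2)) ≤ z) (hM3 : Real.exp 1 * T ^ 5 ≤ Real.exp (M / 2)) :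
    SucC Γ η c0 n1 D' (n1 + ne + nb + n3) a1 a2 (T ^ 17 * z) (T ^ 16 * z) := by
  have hp : ∀ k, 0 < Γ.p k := L91.p_pos
  have hT := B.T1
  have T0 : 0 < T := by linarith
  have z0 := B.z0
  have P1 := B.P1
  have X0 := C.X0
  have V1 := F.V1
  have L1 := S.L1
  have U1 := S.U1
  have δ0 := S.δ0
  have ε0 : 0 ≤ ε := by
    refine le_trans ?_ hε
    have := S.e0
    positivity
  have E1 : 1 ≤ Real.exp X := Real.one_le_exp X0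
  have ET : Real.exp X ≤ T := (Real.exp_le_exp.2 hXy).trans hyT
  have ET2 : Real.exp X ^ 2 ≤ T ^ 2 := pow_le_pow_left₀ (by linarith) ET 2
  have zs : z ≤ 1 / T := by
    have := B.small (j := 0) (by norm_num)
    rwa [pow_zero, one_mul] at this
  have zT : z ≤ 1 / 10000 := by
    refine zs.trans ?_
    exact one_div_le_one_div_of_le (by norm_num) hT
  have β0 : 0 ≤ (Real.exp (2 * X) * (1 + P)) ^ m0 := by positivity
  have LUL : 1 ≤ (Lf * Uf * Lf) ^ 2 := by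
    have Lf1 := S'.L1
    have Uf1 := S'.U1
    have h1 : 1 ≤ Lf * Uf * Lf := by
      calc (1 : ℝ) = 1 * 1 * 1 := by ring
        _ ≤ Lf * Uf * Lf := mul_le_mul (mul_le_mul Lf1 Uf1 zero_le_one (by linarith)) Lf1 zero_le_one (by positivity)
    exact one_le_pow₀ h1
  have E2 : 1 ≤ Real.exp X ^ 2 := one_le_pow₀ E1
  have R0 : 0 ≤ (Lf * Uf * Lf) ^ 2 := by linarith
  have R2 : (1 : ℝ) ≤ Real.exp X ^ 2 * (Lf * Uf * Lf) ^ 2 := by nlinarith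
  have R3 : Real.exp X ^ 2 * (Lf * Uf * Lf) ^ 2 ≤ T ^ 2 * Real.exp (M / 2) := mul_le_mul ET2 hLU R0 (by positivity)
  have R1 : (Lf * Uf * Lf) ^ 2 ≤ T ^ 2 * Real.exp (M / 2) := (le_mul_of_one_le_left R0 E2).trans R3
  have ets : ∀ i, 0 ≤ et (Γ.p i) δ (2 * z) (Real.exp X) ∧ et (Γ.p i) δ (2 * z) (Real.exp X) ≤ T ^ 3 * z := fun i =>
    et54 B (hp i) (hP i) (hP' i) δ0 hδ E1 ET
  have ets2 : ∀ i, 0 ≤ Real.exp X ^ 2 * et (Γ.p i) δ (2 * z) (Real.exp X) ∧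
      Real.exp X ^ 2 * et (Γ.p i) δ (2 * z) (Real.exp X) ≤ T ^ 5 * z := by
    intro i
    obtain ⟨k1, k2⟩ := ets i
    refine ⟨by positivity, ?_⟩
    calc Real.exp X ^ 2 * et (Γ.p i) δ (2 * z) (Real.exp X) ≤ T ^ 2 * (T ^ 3 * z) := mul_le_mul ET2 k2 k1 (by positivity)
      _ = T ^ 5 * z := by ring
  have ets5 : ∀ i, et (Γ.p i) δ (2 * z) (Real.exp X) ≤ T ^ 5 * z := fun i => (ets i).2.trans (B.tz (by norm_num))
  have KCb : ∀ i, 0 ≤ KC Γ i (2 * X) X ∧ KC Γ i (2 * X) X ≤ T ^ 4 := by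
    intro i
    unfold L91.KC
    refine kl54 B (hp i) (hP' i) (Real.one_le_exp (by linarith)) E1 ?_ ?_ ?_
    · rw [Real.log_exp]
      linarith [B.yT]
    · have : Real.exp (2 * X) = Real.exp X ^ 2 := by
        rw [← Real.exp_nat_mul]
        norm_num
      rw [this]
      exact ET2
    · rw [Real.log_exp]
      linarith [B.yT, B.y0]
  have r1 : ∀ i, 0 < rrn (Γ.p i) (Real.exp X) ((Lf * Uf * Lf) ^ 2) ∧ Real.log (rrn (Γ.p i) (Real.exp X) ((Lf * Uf * Lf) ^ 2)) + 1 ≤ M ∧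
      rrn (Γ.p i) (Real.exp X) ((Lf * Uf * Lf) ^ 2) * Real.exp (-M) ≤ z := fun i =>
    rr54 B (hp i) (hP i) (hP' i) E1 ET LUL R1 hM2 hM3
  have r2 : ∀ i, 0 < rrn (Γ.p i) (Real.exp X) (Real.exp X ^ 2 * (Lf * Uf * Lf) ^ 2) ∧
      Real.log (rrn (Γ.p i) (Real.exp X) (Real.exp X ^ 2 * (Lf * Uf * Lf) ^ 2)) + 1 ≤ M ∧
      rrn (Γ.p i) (Real.exp X) (Real.exp X ^ 2 * (Lf * Uf * Lf) ^ 2) * Real.exp (-M) ≤ z := fun i =>
    rr54 B (hp i) (hP i) (hP' i) E1 ET R2 R3 hM2 hM3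
  refine sucC54 (ε := ε) (ε' := 2 * z) (M := M) (P := P) h S F S' hp3 I he1 he2 hN ha2 C hn hD hP hP' hε hεf hε1 (by linarith)
    (fun i => he54 B (hp i) (hP' i) β0 ε0 hβ ht) (fun i => ?_) hM1 (fun i => (r2 i).2.1) (fun i => ?_) (fun i => ?_)
  · obtain ⟨k1, k2⟩ := ets2 i
    have p1 : 1 + Γ.p i ≤ T := by
      have c1 := B.cst (c := 2) (k := 1) (by norm_num) (by norm_num) (by norm_num)
      rw [pow_one] at c1
      have := hP i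
      linarith
    calc (1 + Γ.p i) * (Real.exp X ^ 2 * et (Γ.p i) δ (2 * z) (Real.exp X)) ≤ T * (T ^ 5 * z) :=
          mul_le_mul p1 k2 k1 T0.le
      _ = T ^ 6 * z := by ring
      _ ≤ 1 / T := B.small (by norm_num)
      _ ≤ 1 / 2 := one_div_le_one_div_of_le (by norm_num) (by linarith)
  · have k1 := ecs54 (M := M) B (hp i) (hP i) (kap := Real.exp X) (by positivity) ET (ets i).1 (ets5 i)
      (mul_nonneg (r1 i).1.le (Real.exp_pos _).le) (r1 i).2.2 (KCb i).1 (KCb i).2 M0 hMT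
    have k2 := ecs54 (M := M) B (hp i) (hP i) (kap := Real.exp X) (by positivity) ET (ets2 i).1 (ets2 i).2
      (mul_nonneg (r2 i).1.le (Real.exp_pos _).le) (r2 i).2.2 (KCb i).1 (KCb i).2 M0 hMT
    have k3 : 2 * (T ^ 16 * z) ≤ T ^ 17 * z := by
      have h0 : 0 ≤ T ^ 16 * z := by positivity
      calc 2 * (T ^ 16 * z) ≤ T * (T ^ 16 * z) := mul_le_mul_of_nonneg_right (by linarith) h0
        _ = T ^ 17 * z := by ring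
    linarith
  · exact ept54 (M := M) B (hp i) (hP i) (ets i).1 (ets5 i) (r1 i).2.2 M0 hMT

/-- The local constant of the whole functional. -/
theorem kr54 (B : Bg54 P y T z) (hP : ∀ i, Γ.p i ≤ P) (hP' : ∀ i, 1 ≤ P * Γ.p i) (X0 : 0 ≤ X) (hXy : X ≤ y) (hyT : Real.exp y ≤ T)
    (u0 : 0 ≤ u) (hu1 : 1 + 2 * u ≤ T) (hu2 : Real.exp u ≤ T ^ 2) (i : ℕ) : M83.Kr Γ i u X ≤ T ^ 9 := by
  have hT := B.T1
  have T0 : 0 < T := by linarith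
  have P1 := B.P1
  have hp : 0 < Γ.p i := L91.p_pos i
  have ET : Real.exp X ≤ T := (Real.exp_le_exp.2 hXy).trans hyT
  have k1 : 0 ≤ KC Γ i u X ∧ KC Γ i u X ≤ T ^ 4 := by
    unfold L91.KC
    refine kl54 B hp (hP' i) (Real.one_le_exp u0) (Real.one_le_exp X0) ?_ hu2 ?_
    · rw [Real.log_exp]
      exact hu1
    · rw [Real.log_exp]
      linarith [B.yT, B.y0]
  have k2 : Real.exp (4 * X) ≤ T ^ 4 := by
    have : Real.exp (4 * X) = Real.exp X ^ 4 := by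
      rw [← Real.exp_nat_mul]
      norm_num
    rw [this]
    exact pow_le_pow_left₀ (Real.exp_pos _).le ET 4
  have k3 : (1 + Γ.p i) ^ 2 ≤ T := by
    have a1 : (1 + Γ.p i) ^ 2 ≤ (2 * P) ^ 2 := pow_le_pow_left₀ (by linarith) (by linarith [hP i]) 2
    have c1 := B.cst (c := 4) (k := 2) (by norm_num) (by norm_num) (by norm_num)
    nlinarith
  unfold M83.Kr
  calc KC Γ i u X * (Real.exp (4 * X) * (1 + Γ.p i) ^ 2) ≤ T ^ 4 * (T ^ 4 * T) :=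
        mul_le_mul k1.2 (mul_le_mul k2 k3 (by positivity) (by positivity)) (by positivity) (by positivity)
    _ = T ^ 9 := by ring

/-- **CLOSENESS WITH THE NUMBERS**, both functionals: the error of H1 is `T ^ 30 z`. -/
theorem closeN54 (h : Γ.Ok) (B : Bg54 P y T z)
    (S : All (K91.wt η) Γ.p 0 (Γ.k + c0) c0 n1 ne nb n3 a1 b1 a2 b2 xa xb s da db ya yb za zb ph p1 pe p2 p3 δ e U L L0 A0 A1 A2 A3)
    (F : Sh21.Fut (K91.wt η) Γ.p 0 (Γ.k + c0 + n1 + ne + nb + n3) (c0 + n1 + ne + nb + n3) m za zb p3 V G0)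
    (S' : All (K91.wt η) Γ.p 0 (Γ.k + c0) c0 n1 ne nb n3 a1 b1 a2 b2 xa xb s da db ya yb za zb ph' p1' pe' p2' p3' δ ef Uf Lf L0
      A0 A1 A2 A3)
    (hp3 : ∀ z ∈ Icc (0 : ℤ) (Γ.k + c0 + n1 + ne + nb + n3), 1 ≤ p3' z)
    (I : SeamIn 0 (Γ.k + c0) (fw (K91.wt η) Γ.p l c0) (fw (K91.wt η) Γ.p Γ.r c0) a1 b1 a2 b2 ph e1 e2) (he1 : 0 ≤ e1) (he2 : 0 ≤ e2)
    (Md : Mid (K91.wt η) Γ.p 0 (Γ.k + c0) c0 kg ng kr a1 a2 va vb xm xn da db d0 pg pm pe' δ ef Lf A0 A1 Ag Am Ar)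
    (Sp : SepC (K91.wt η) Γ.p 0 (Γ.k + c0) c0 n1 a1 a2 s p1' ef A0)
    (hk : kg + ng + kr = n1 + ne) (d2 : kg + ng ≤ D') (hεm : ef * (Lf ^ 3 * Uf) ^ 2 ≤ ε)
    (hN : c0 + (n1 + ne + nb + n3) + m = Γ.N) (ha2 : a2 ≤ c0) (C : Lc54 (K91.wt η) Γ.p Γ.N Γ.hi X t m0)
    (hn : n1 ≤ D') (hD : D' + m0 ≤ n1 + ne + nb) (hP : ∀ i, Γ.p i ≤ P) (hP' : ∀ i, 1 ≤ P * Γ.p i)
    (hXy : X ≤ y) (hyT : Real.exp y ≤ T) (ht : t ≤ z) (hδ : δ ≤ z) (hεz : ε ≤ z)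
    (hε : e * (V * L * U * L) * (V * L * U * L) ≤ ε) (hεf : ef * (Lf * Uf * Lf) * (Lf * Uf * Lf) ≤ ε)
    (hε1 : e1 * (V * L * U * L) * (V * L * U * L) ≤ ε)
    (hβ : P * (Real.exp (2 * X) * (1 + P)) ^ m0 * ε ≤ z) (M0 : 0 ≤ M) (hM1 : Real.exp (M + 1) * (e2 * L0 ^ 4) ≤ 1) (hMT : M + 1 ≤ T)
    (hLU : (Lf * Uf * Lf) ^ 2 ≤ Real.exp (M / 2)) (hM2 : T ^ 5 * Real.exp (-(M / 2)) ≤ z) (hM3 : Real.exp 1 * T ^ 5 ≤ Real.exp (M / 2))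
    (hu : ∀ c ∈ Γ.rows 0 Γ.N, uc c η ≤ u) (u0 : 0 ≤ u) (hu1 : 1 + 2 * u ≤ T) (hu2 : Real.exp u ≤ T ^ 2) (hNT : (Γ.N : ℝ) + 1 ≤ T)
    (hP1 : ∀ k, 0 < P' k) (hθ : 1 ≤ θ) (hpp : ∀ i < n1 + ne + nb + n3, mc θ (Γ.p (c0 + i)) (P' i))
    (h16 : (θ ^ (n1 + ne + nb + n3)) ^ 16 ≤ 3 / 2)
    (hB0 : 0 ≤ B') (hB : ∀ K, n1 ≤ K → K < D' → (Kt (Γ.p (c0 + K)) (Real.exp u) (2 * Real.exp X) +
      Kl (Γ.p (c0 + K)) (Real.exp u) (2 * Real.exp X)) * Γ.p (c0 + K) ≤ B') :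
    (∀ K, n1 ≤ K → K < D' → ∀ x ∈ Icc (1 : ℤ) (1 + Γ.N),
      |Γ.w (c0 + K, x) η - Win (shw (wt η) c0) P' K (n1 + ne + nb + n3 - (K + 1)) a1 a2 x| ≤
        T ^ 30 * z + ((θ ^ (n1 + ne + nb + n3)) ^ 16 - 1) * Γ.w (c0 + K, x) η) ∧
    |PhS Γ (Ch87.chiC Γ) η - H1c.FPhC (shw (wt η) c0) P' n1 D' (n1 + ne + nb + n3) a1 a2| ≤
      T ^ 30 * z + 4 * ((n1 + ne + nb + n3 : ℕ) : ℝ) ^ 2 * (B' * ((θ ^ (n1 + ne + nb + n3)) ^ 16 - 1)) := by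
  have hT := B.T1
  have T0 : 0 < T := by linarith
  have z0 := B.z0
  have SC := sucN54 h B S F S' hp3 I he1 he2 hN ha2 C hn hD hP hP' hXy hyT ht hδ hεz hε hεf hε1 hβ M0 hM1 hMT hLU hM2 hM3
  have F0 : Sh21.Fut (K91.wt η) Γ.p 0 (Γ.k + c0 + n1 + ne + nb + n3) (c0 + n1 + ne + nb + n3) 0 za zb p3' 1 1 := Sh21.Fut.flat le_rfl hp3
  have mt := mtS21 (wt_pos η) (fun k => L91.p_pos (Γ := Γ) k) S' F0 Md Sp hk hn d2 (by omega) hεm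
  have Kr9 : ∀ i, M83.Kr Γ i u X ≤ T ^ 9 := kr54 B hP hP' C.X0 hXy hyT u0 hu1 hu2
  have hDN := SC.hN
  have g := S.g
  have g1 := g.h1
  have g2 := g.h2
  have g3 := g.h3
  have g4 := g.h4
  have g5 := g.h5
  have g6 := g.h6
  have DT : ((n1 + ne + nb + n3 : ℕ) : ℝ) + 1 ≤ T := by
    have : ((n1 + ne + nb + n3 : ℕ) : ℝ) ≤ Γ.N := by exact_mod_cast (show n1 + ne + nb + n3 ≤ Γ.N by omega)
    linarith
  have T16 : 0 ≤ (θ ^ (n1 + ne + nb + n3)) ^ 16 - 1 := by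
    have := one_le_pow₀ (one_le_pow₀ hθ (n := n1 + ne + nb + n3)) (n := 16)
    linarith
  obtain ⟨r1, r2⟩ := close54 h (X := X) (u := u) (t := δ + 12 * ε) (Kr := T ^ 9) (B := B') (P' := P') (θ := θ) SC C.nbc hu
    (fun i _ => Kr9 i) (by positivity) mt hP1 hθ hpp h16 hB
  refine ⟨fun K h1 h2 x hx => (r1 K h1 h2 x hx).trans (add_le_add ?_ le_rfl), r2.trans (add_le_add ?_ ?_)⟩
  · calc 2 * (T ^ 16 * z) ≤ T * (T ^ 16 * z) := mul_le_mul_of_nonneg_right (by linarith) (by positivity)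
      _ = T ^ 17 * z := by ring
      _ ≤ T ^ 30 * z := B.tz (by norm_num)
  · have d1 : ((D' - n1 : ℕ) : ℝ) ≤ T := by
      have : ((D' - n1 : ℕ) : ℝ) ≤ ((n1 + ne + nb + n3 : ℕ) : ℝ) := by exact_mod_cast (show D' - n1 ≤ n1 + ne + nb + n3 by omega)
      linarith
    have d3 : ((Γ.N + 1 : ℕ) : ℝ) ≤ T := by push_cast; exact hNT
    have e1 : ((D' - n1 : ℕ) : ℝ) * (((Γ.N + 1 : ℕ) : ℝ) * (T ^ 17 * z)) ≤ T ^ 19 * z := by
      calc ((D' - n1 : ℕ) : ℝ) * (((Γ.N + 1 : ℕ) : ℝ) * (T ^ 17 * z)) ≤ T * (T * (T ^ 17 * z)) :=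
            mul_le_mul d1 (mul_le_mul_of_nonneg_right d3 (by positivity)) (by positivity) T0.le
        _ = T ^ 19 * z := by ring
    have e2 : ((D' - n1 : ℕ) : ℝ) * (((Γ.N + 1 : ℕ) : ℝ) * (T ^ 16 * z)) ≤ T ^ 18 * z := by
      calc ((D' - n1 : ℕ) : ℝ) * (((Γ.N + 1 : ℕ) : ℝ) * (T ^ 16 * z)) ≤ T * (T * (T ^ 16 * z)) :=
            mul_le_mul d1 (mul_le_mul_of_nonneg_right d3 (by positivity)) (by positivity) T0.le
        _ = T ^ 18 * z := by ring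
    have e3 : δ + 12 * ε ≤ T ^ 18 * z := by
      have a1 : δ + 12 * ε ≤ 13 * z := by linarith
      have a2 : (13 : ℝ) ≤ T ^ 18 := by
        calc (13 : ℝ) ≤ T := by linarith
          _ = T ^ 1 := (pow_one T).symm
          _ ≤ T ^ 18 := B.pw (by norm_num)
      exact a1.trans (mul_le_mul_of_nonneg_right a2 z0.le)
    have e4 : 2 * T ^ 9 * (δ + 12 * ε + ((D' - n1 : ℕ) : ℝ) * (((Γ.N + 1 : ℕ) : ℝ) * (T ^ 16 * z))) ≤ T ^ 28 * z := by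
      calc 2 * T ^ 9 * (δ + 12 * ε + ((D' - n1 : ℕ) : ℝ) * (((Γ.N + 1 : ℕ) : ℝ) * (T ^ 16 * z))) ≤ 2 * T ^ 9 * (2 * (T ^ 18 * z)) :=
            mul_le_mul_of_nonneg_left (by linarith) (by positivity)
        _ = 4 * (T ^ 27 * z) := by ring
        _ ≤ T * (T ^ 27 * z) := mul_le_mul_of_nonneg_right (by linarith) (by positivity)
        _ = T ^ 28 * z := by ring
    have e5 : T ^ 19 * z + T ^ 28 * z ≤ T ^ 30 * z := by
      have a1 : T ^ 19 * z ≤ T ^ 28 * z := B.tz (by norm_num)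
      have a2 : 2 * (T ^ 28 * z) ≤ T ^ 30 * z := by
        calc 2 * (T ^ 28 * z) ≤ T * (T ^ 28 * z) := mul_le_mul_of_nonneg_right (by linarith) (by positivity)
          _ = T ^ 29 * z := by ring
          _ ≤ T ^ 30 * z := B.tz (by norm_num)
      linarith
    linarith
  · rcases Nat.lt_or_ge n1 D' with hlt | hge
    swap
    · rw [show D' - n1 = 0 by omega, Nat.cast_zero, zero_mul]
      have : 0 ≤ ((n1 + ne + nb + n3 : ℕ) : ℝ) ^ 2 := sq_nonneg _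
      exact mul_nonneg (mul_nonneg (by norm_num) this) (mul_nonneg hB0 T16)
    · have d1 : ((D' - n1 : ℕ) : ℝ) ≤ ((n1 + ne + nb + n3 : ℕ) : ℝ) := by
        exact_mod_cast (show D' - n1 ≤ n1 + ne + nb + n3 by omega)
      have d3 : ((a2 - a1 + D' : ℤ) : ℝ) ≤ 2 * ((n1 + ne + nb + n3 : ℕ) : ℝ) := by
        have : (a2 - a1 + D' : ℤ) ≤ 2 * ((n1 + ne + nb + n3 : ℕ) : ℤ) := by omega
        exact_mod_cast this
      have d4 : 0 ≤ ((a2 - a1 + D' : ℤ) : ℝ) := by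
        exact_mod_cast (show (0 : ℤ) ≤ a2 - a1 + D' by omega)
      have x0 : 0 ≤ B' * ((θ ^ (n1 + ne + nb + n3)) ^ 16 - 1) := mul_nonneg hB0 T16
      have D0 : (0 : ℝ) ≤ ((n1 + ne + nb + n3 : ℕ) : ℝ) := Nat.cast_nonneg _
      calc ((D' - n1 : ℕ) : ℝ) * (((a2 - a1 + D' : ℤ) : ℝ) * (2 * (B' * ((θ ^ (n1 + ne + nb + n3)) ^ 16 - 1))))
          ≤ ((n1 + ne + nb + n3 : ℕ) : ℝ) * (2 * ((n1 + ne + nb + n3 : ℕ) : ℝ) * (2 * (B' * ((θ ^ (n1 + ne + nb + n3)) ^ 16 - 1)))) :=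
            mul_le_mul d1 (mul_le_mul_of_nonneg_right d3 (by positivity)) (mul_nonneg d4 (by positivity)) D0
        _ = 4 * ((n1 + ne + nb + n3 : ℕ) : ℝ) ^ 2 * (B' * ((θ ^ (n1 + ne + nb + n3)) ^ 16 - 1)) := by ring

end

end Pool.Agent.W_7d29a1_C1.H54
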