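import Pool.Agent.W_7d29a1_C1.NumC54

/-!
Both halves (MP_7d29a1_pr), attractor route [C1]: THE NUMBERS OF THE SUCCESS FROM THE CONSTANTS. (helper54)

`nmE54` : all errors are `exp (-(g E))` and all costs `exp (c E)` in one unit `n ^ a' ≤ E ≤ n ^ 2` ⟹ `Nm54`.
-/

set_option autoImplicit false

namespace Pool.Agent.W_7d29a1_C1.H54

open Filter Topology

noncomputable section

/-- A linear form with a positive coefficient beats a smaller power. -/
theorem ev_lin54 {a a' : ℝ} (ha : 0 < a) (h : a < a') {g : ℝ} (hg : 0 < g) :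
    ∀ᶠ n : ℕ in atTop, ∀ E : ℝ, (n : ℝ) ^ a' ≤ E → (n : ℝ) ^ a + 1 ≤ g * E := by
  filter_upwards [ev_le54 (2 / g) h, eventually_ge_atTop 1] with n h1 h4 E hE
  have n1 : (1 : ℝ) ≤ n := by exact_mod_cast h4
  have a1 : (1 : ℝ) ≤ (n : ℝ) ^ a := Real.one_le_rpow n1 ha.le
  have h2 : 2 * (n : ℝ) ^ a ≤ g * (n : ℝ) ^ a' := by
    have := mul_le_mul_of_nonneg_left h1 hg.le
    have e : g * (2 / g * (n : ℝ) ^ a) = 2 * (n : ℝ) ^ a := by field_simp
    rwa [e] at this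
  have h3 := mul_le_mul_of_nonneg_left hE hg.le
  linarith

/-- A product of an error and costs. -/
theorem prod54 {e A E g c x : ℝ} (A0 : 0 ≤ A) (he : e ≤ Real.exp (-(g * E))) (hA : A ≤ Real.exp (c * E))
    (h : x ≤ (g - 2 * c) * E) : e * A * A ≤ Real.exp (-x) := by
  calc e * A * A ≤ Real.exp (-(g * E)) * Real.exp (c * E) * Real.exp (c * E) :=
        mul_le_mul (mul_le_mul he hA A0 (Real.exp_pos _).le) hA A0 (by positivity)
    _ = Real.exp (-(g * E) + c * E + c * E) := by rw [← Real.exp_add, ← Real.exp_add]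
    _ ≤ Real.exp (-x) := Real.exp_le_exp.2 (by linarith)

/-- **THE NUMBERS OF THE SUCCESS.** -/
theorem nmE54 {a a' gd ge g1 g2 gf cU cL cV c0 cUf cLf m : ℝ} (ha : 0 < a) (haa : a < a') (hgd : 0 < gd) (hm : 0 < m)
    (h1 : 2 * (cV + 2 * cL + cU) < ge) (h2 : 2 * (cV + 2 * cL + cU) < g1) (h3 : 2 * (3 * cLf + cUf) < gf)
    (h3' : 2 * (2 * cLf + cUf) < gf) (h4 : m + 4 * c0 < g2) (h5 : 4 * (2 * cLf + cUf) ≤ m) :
    ∀ᶠ n : ℕ in atTop, ∀ E : ℝ, (n : ℝ) ^ a' ≤ E → E ≤ (n : ℝ) ^ 2 → ∀ δ e e1 e2 U L L0 V ef Uf Lf : ℝ, 0 ≤ e → 0 ≤ e1 → 0 ≤ e2 →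
      0 ≤ U → 0 ≤ L → 0 ≤ L0 → 0 ≤ V → 0 ≤ ef → 0 ≤ Uf → 0 ≤ Lf → δ ≤ Real.exp (-(gd * E)) → e ≤ Real.exp (-(ge * E)) →
      e1 ≤ Real.exp (-(g1 * E)) → e2 ≤ Real.exp (-(g2 * E)) → U ≤ Real.exp (cU * E) → L ≤ Real.exp (cL * E) → L0 ≤ Real.exp (c0 * E) →
      V ≤ Real.exp (cV * E) → ef ≤ Real.exp (-(gf * E)) → Uf ≤ Real.exp (cUf * E) → Lf ≤ Real.exp (cLf * E) →
      Nm54 n a δ e e1 e2 U L L0 V ef Uf Lf (m * E) := by
  filter_upwards [ev_lin54 ha haa hgd, ev_lin54 ha haa hm, ev_lin54 ha haa (sub_pos.2 h1), ev_lin54 ha haa (sub_pos.2 h2),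
    ev_lin54 ha haa (sub_pos.2 h3), ev_lin54 ha haa (sub_pos.2 h3'), ev_lin54 ha haa (sub_pos.2 h4), eventually_ge_atTop 1,
    ev_cst54 m (c := 1) one_pos] with n k1 k2 k3 k4 k5 k6 k7 hn1 km E hE hE2
  intro δ e e1 e2 U L L0 V ef Uf Lf e0 e10 e20 U0 L0' L00 V0 ef0 Uf0 Lf0 b1 b2 b3 b4 b5 b6 b7 b8 b9 b10 b11
  have n1 : (1 : ℝ) ≤ n := by exact_mod_cast hn1
  have n0 : (0 : ℝ) ≤ n := Nat.cast_nonneg n
  have na : (0 : ℝ) ≤ (n : ℝ) ^ a := Real.rpow_nonneg n0 _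
  have E0 : 0 ≤ E := (Real.rpow_nonneg n0 _).trans hE
  have l1 := k1 E hE
  have l2 := k2 E hE
  have l3 := k3 E hE
  have l4 := k4 E hE
  have l5 := k5 E hE
  have l6 := k6 E hE
  have l7 := k7 E hE
  clear k1 k2 k3 k4 k5 k6 k7
  have A1 : V * L * U * L ≤ Real.exp ((cV + 2 * cL + cU) * E) := by
    calc V * L * U * L ≤ Real.exp (cV * E) * Real.exp (cL * E) * Real.exp (cU * E) * Real.exp (cL * E) :=
          mul_le_mul (mul_le_mul (mul_le_mul b8 b6 L0' (by positivity)) b5 U0 (by positivity)) b6 L0' (by positivity)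
      _ = Real.exp ((cV + 2 * cL + cU) * E) := by
        rw [← Real.exp_add, ← Real.exp_add, ← Real.exp_add]
        congr 1
        ring
  have A2 : Lf * Uf * Lf ≤ Real.exp ((2 * cLf + cUf) * E) := by
    calc Lf * Uf * Lf ≤ Real.exp (cLf * E) * Real.exp (cUf * E) * Real.exp (cLf * E) :=
          mul_le_mul (mul_le_mul b11 b10 Uf0 (by positivity)) b11 Lf0 (by positivity)
      _ = Real.exp ((2 * cLf + cUf) * E) := by
        rw [← Real.exp_add, ← Real.exp_add]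
        congr 1
        ring
  have A3 : Lf ^ 3 * Uf ≤ Real.exp ((3 * cLf + cUf) * E) := by
    calc Lf ^ 3 * Uf ≤ Real.exp (cLf * E) ^ 3 * Real.exp (cUf * E) :=
          mul_le_mul (pow_le_pow_left₀ Lf0 b11 3) b10 Uf0 (by positivity)
      _ = Real.exp ((3 * cLf + cUf) * E) := by
        rw [← Real.exp_nat_mul, ← Real.exp_add]
        congr 1
        push_cast
        ring
  refine
    { he1 := e10
      he2 := e20
      dl := b1.trans (Real.exp_le_exp.2 (by linarith))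
      em := ?_
      e0 := prod54 (by positivity) b2 A1 (by linarith)
      ef := prod54 (by positivity) b9 A2 (by linarith)
      e1 := prod54 (by positivity) b3 A1 (by linarith)
      M1 := by linarith
      M2 := ?_
      M3 := ?_
      M4 := ?_ }
  · have := prod54 (by positivity) b9 A3 (show (n : ℝ) ^ a ≤ (gf - 2 * (3 * cLf + cUf)) * E by linarith)
    rwa [mul_assoc, ← sq] at this
  · rw [Real.rpow_one] at km
    calc m * E ≤ n * (n : ℝ) ^ 2 := mul_le_mul km hE2 E0 n0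
      _ = (n : ℝ) ^ 3 := by ring
  · calc Real.exp (m * E + 1) * (e2 * L0 ^ 4) ≤ Real.exp (m * E + 1) * (Real.exp (-(g2 * E)) * Real.exp (c0 * E) ^ 4) :=
          mul_le_mul_of_nonneg_left (mul_le_mul b4 (pow_le_pow_left₀ L00 b7 4) (by positivity) (by positivity)) (by positivity)
      _ = Real.exp (m * E + 1 + (-(g2 * E) + 4 * (c0 * E))) := by
        rw [← Real.exp_nat_mul, ← Real.exp_add, ← Real.exp_add]
        congr 1
      _ ≤ 1 := Real.exp_le_one_iff.2 (by linarith)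
  · calc (Lf * Uf * Lf) ^ 2 ≤ Real.exp ((2 * cLf + cUf) * E) ^ 2 := pow_le_pow_left₀ (by positivity) A2 2
      _ = Real.exp (2 * ((2 * cLf + cUf) * E)) := by
        rw [← Real.exp_nat_mul]
        norm_num
      _ ≤ Real.exp (m * E / 2) := by
        refine Real.exp_le_exp.2 ?_
        have := mul_le_mul_of_nonneg_right h5 E0
        linarith

end

end Pool.Agent.W_7d29a1_C1.H54
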