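import Pool.Agent.W_7d29a1_C1.ExS53
import Pool.Agent.W_7d29a1_C1.SepJ49

/-!
MP_7d29a1_pr, [C1] attractor route, SEP: THE NUMBER FIELDS OF THE EXCLUSION (`XI53` of ExS53) at the choice of SepN49. (helper32)

Units `E u`; `dR = Cr E`, `dT = (Cr + 1) E`, `be ≤ E / 16`, `κ3 = exp (- L)`. Inputs per scale (`Ex32`): gain `g`, leak `Y`, missed part
`ee`, far gain `F`, rank defect `δ`: `Y ≤ exp (- E / 4) g`, `F ≤ exp (- E / 4) g`, `ee ≤ exp (- E / 4)`, `δ ≤ exp (- L) / 8`, `48 ≤ E`.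
* `Pq_le` : the price of the lower scales of the class is at most `E u / 64`, `q` large;
* `hdT32`, `numE32`, `numF32` : the fields; `hX32`, `hW32` : the widths.
-/

set_option autoImplicit false

namespace Pool.Agent.W_7d29a1_C1.NE32

open Finset
open Pool.Agent.W_7d29a1_C1.H60
open Pool.Agent.W_7d29a1_C1.G37 (Gm)
open Pool.Agent.W_7d29a1_C1.H49 (ex)
open Pool.Agent.W_7d29a1_C1.N49
open Pool.Agent.W_7d29a1_C1.SD53
open scoped ENNReal

noncomputable section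

variable {E : ℕ → ℝ} {κ C : ℝ}

/-! ### Prices -/

theorem Pq_le (g : Gr E κ C) {Cd : ℝ} (hd : 0 ≤ Cd) {q : ℕ} (hq : 128 * C * C * Cd ≤ 2 ^ q) (u : ℕ) : Pq q (bN Cd E) u ≤ E u / 64 := by
  have h2 := g.cls_small hd (q := q) (u := u)
  have hE := g.pos u
  have hC := g.one
  have a1 : (0 : ℝ) < 2 ^ q := by positivity
  unfold Pq
  by_contra h
  push Not at h
  have a4 : 2 ^ q * (E u / 64) < 2 ^ q * ∑ v ∈ (range (u + 1)).filter (fun v => v + q ≤ u), bN Cd E v :=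
    mul_lt_mul_of_pos_left h a1
  have a5 : 128 * C * C * Cd * (E u / 64) ≤ 2 ^ q * (E u / 64) := mul_le_mul_of_nonneg_right hq (by positivity)
  nlinarith

theorem hdT32 {T : ℕ → ℕ} {Cr : ℝ} (hT : ∀ v, 1 + (T v : ℝ) ≤ Real.exp (E v)) (v : ℕ) :
    (1 + (T v : ℝ)) * Real.exp (bN Cr E v) ≤ Real.exp (bN (Cr + 1) E v) := by
  have e1 : bN (Cr + 1) E v = E v + bN Cr E v := by
    unfold bN
    ring
  rw [e1, Real.exp_add]
  exact mul_le_mul_of_nonneg_right (hT v) (Real.exp_pos _).le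

/-! ### The exclusion -/

/-- The outputs of the window in units of `E`. -/
structure Ex32 (E : ℕ → ℝ) (L : ℝ) (u : ℕ) (g Y ee F δ : ℝ) : Prop where
  g0 : 0 < g
  Y_le : Y ≤ Real.exp (-(E u / 4)) * g
  ee_le : ee ≤ Real.exp (-(E u / 4))
  F_le : F ≤ Real.exp (-(E u / 4)) * g
  δ_le : δ ≤ Real.exp (-L) / 8
  E_ge : 48 ≤ E u

theorem exp3 : Real.exp (-3) ≤ 1 / 16 := by
  have h1 : (2.7 : ℝ) ≤ Real.exp 1 := by
    have := Real.exp_one_gt_d9
    linarith
  have h2 : Real.exp 3 = Real.exp 1 ^ 3 := by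
    rw [← Real.exp_nat_mul]
    norm_num
  have h3 : (16 : ℝ) ≤ Real.exp 3 := by
    rw [h2]
    have : (2.7 : ℝ) ^ 3 ≤ Real.exp 1 ^ 3 := pow_le_pow_left₀ (by norm_num) h1 3
    nlinarith
  rw [Real.exp_neg, inv_le_comm₀ (Real.exp_pos _) (by norm_num)]
  linarith

variable {L : ℝ} {u : ℕ} {g Y ee F δ pT pR be : ℝ}

/-- **`numE`**, real form. -/
theorem numE_re (h : Ex32 E L u g Y ee F δ) (hT : pT ≤ E u / 64) (hR : pR ≤ E u / 64) (hb : be ≤ E u / 16) (hL : L ≤ E u / 16) :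
    δ + 4 * (Real.exp pT * (Y * Real.exp (2 * pR) / (g * Real.exp (-be)) + ee)) < Real.exp (-L) := by
  obtain ⟨e, he⟩ : ∃ e : ℝ, e = E u := ⟨_, rfl⟩
  have hE := h.E_ge
  have hY := h.Y_le
  have hee := h.ee_le
  have hδ := h.δ_le
  rw [← he] at hT hR hb hL hE hY hee
  have hg := h.g0
  have hb0 := Real.exp_pos (-be)
  have h1 : Y * Real.exp (2 * pR) / (g * Real.exp (-be)) ≤ Real.exp (-(e / 4)) * Real.exp (e / 32) * Real.exp (e / 16) := by
    rw [div_le_iff₀ (mul_pos hg hb0)]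
    have a1 : Real.exp (2 * pR) ≤ Real.exp (e / 32) := Real.exp_le_exp.2 (by linarith)
    have a2 : 1 ≤ Real.exp (e / 16) * Real.exp (-be) := by
      rw [← Real.exp_add]
      exact Real.one_le_exp (by linarith)
    calc Y * Real.exp (2 * pR) ≤ Real.exp (-(e / 4)) * g * Real.exp (e / 32) := by
          refine (mul_le_mul_of_nonneg_right hY (Real.exp_pos _).le).trans ?_
          exact mul_le_mul_of_nonneg_left a1 (mul_nonneg (Real.exp_pos _).le hg.le)
      _ = Real.exp (-(e / 4)) * g * Real.exp (e / 32) * 1 := by ring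
      _ ≤ Real.exp (-(e / 4)) * g * Real.exp (e / 32) * (Real.exp (e / 16) * Real.exp (-be)) :=
          mul_le_mul_of_nonneg_left a2 (by positivity)
      _ = _ := by ring
  have h2 : Real.exp (-(e / 4)) * Real.exp (e / 32) * Real.exp (e / 16) = Real.exp (-(5 * e / 32)) := by
    rw [← Real.exp_add, ← Real.exp_add]
    congr 1
    ring
  have h3 : Real.exp (-(e / 4)) ≤ Real.exp (-(5 * e / 32)) := Real.exp_le_exp.2 (by linarith)
  have h4 : Real.exp pT * (Y * Real.exp (2 * pR) / (g * Real.exp (-be)) + ee) ≤ Real.exp (e / 64) * (2 * Real.exp (-(5 * e / 32))) := by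
    have a1 : Real.exp pT ≤ Real.exp (e / 64) := Real.exp_le_exp.2 (by linarith)
    have a2 : Y * Real.exp (2 * pR) / (g * Real.exp (-be)) + ee ≤ 2 * Real.exp (-(5 * e / 32)) := by linarith
    exact (mul_le_mul_of_nonneg_left a2 (Real.exp_pos _).le).trans (mul_le_mul_of_nonneg_right a1 (by positivity))
  have h5 : Real.exp (e / 64) * (2 * Real.exp (-(5 * e / 32))) = 2 * Real.exp (-(e / 16)) * Real.exp (-(5 * e / 64)) := by
    have : Real.exp (e / 64) * Real.exp (-(5 * e / 32)) = Real.exp (-(e / 16)) * Real.exp (-(5 * e / 64)) := by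
      rw [← Real.exp_add, ← Real.exp_add]
      congr 1
      ring
    linarith
  have h6 : Real.exp (-(5 * e / 64)) ≤ 1 / 16 := (Real.exp_le_exp.2 (by linarith)).trans exp3
  have h7 : Real.exp (-(e / 16)) ≤ Real.exp (-L) := Real.exp_le_exp.2 (by linarith)
  have h8 := Real.exp_pos (-L)
  have h9 : 2 * Real.exp (-(e / 16)) * Real.exp (-(5 * e / 64)) ≤ 2 * Real.exp (-L) * (1 / 16) :=
    mul_le_mul (by linarith) h6 (Real.exp_pos _).le (by positivity)
  linarith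

/-- **`numF`**, real form. -/
theorem numF_re (h : Ex32 E L u g Y ee F δ) (hR : pR ≤ E u / 64) (hb : be ≤ E u / 16) {t : ℝ} (ht : t ≤ E u / 16) :
    8 * (Real.exp (4 * pR) * F / (g * Real.exp (-be))) < Real.exp (-t) := by
  obtain ⟨e, he⟩ : ∃ e : ℝ, e = E u := ⟨_, rfl⟩
  have hE := h.E_ge
  have hF := h.F_le
  rw [← he] at hR hb ht hE hF
  have hg := h.g0
  have hb0 := Real.exp_pos (-be)
  have h1 : Real.exp (4 * pR) * F / (g * Real.exp (-be)) ≤ Real.exp (e / 16) * Real.exp (-(e / 4)) * Real.exp (e / 16) := by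
    rw [div_le_iff₀ (mul_pos hg hb0)]
    have a1 : Real.exp (4 * pR) ≤ Real.exp (e / 16) := Real.exp_le_exp.2 (by linarith)
    have a2 : 1 ≤ Real.exp (e / 16) * Real.exp (-be) := by
      rw [← Real.exp_add]
      exact Real.one_le_exp (by linarith)
    calc Real.exp (4 * pR) * F ≤ Real.exp (e / 16) * (Real.exp (-(e / 4)) * g) :=
          (mul_le_mul_of_nonneg_left hF (Real.exp_pos _).le).trans
            (mul_le_mul_of_nonneg_right a1 (mul_nonneg (Real.exp_pos _).le hg.le))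
      _ = Real.exp (e / 16) * (Real.exp (-(e / 4)) * g) * 1 := by ring
      _ ≤ Real.exp (e / 16) * (Real.exp (-(e / 4)) * g) * (Real.exp (e / 16) * Real.exp (-be)) :=
          mul_le_mul_of_nonneg_left a2 (by positivity)
      _ = _ := by ring
  have h2 : Real.exp (e / 16) * Real.exp (-(e / 4)) * Real.exp (e / 16) = Real.exp (-(e / 16)) * Real.exp (-(e / 16)) := by
    rw [← Real.exp_add, ← Real.exp_add, ← Real.exp_add]
    congr 1
    ring
  have h3 : Real.exp (-(e / 16)) ≤ 1 / 16 := (Real.exp_le_exp.2 (by linarith)).trans exp3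
  have h4 : Real.exp (-(e / 16)) ≤ Real.exp (-t) := Real.exp_le_exp.2 (by linarith)
  have h5 := Real.exp_pos (-t)
  have h6 : Real.exp (-(e / 16)) * Real.exp (-(e / 16)) ≤ Real.exp (-t) * (1 / 16) := mul_le_mul h4 h3 (Real.exp_pos _).le h5.le
  linarith

/-! ### The fields -/

section Fields

variable {Γ : Cx} {G : Gm} {η Cb ε0 : ℝ} {A cX C4 τ0 q r : ℕ} {κ3 θ θ' : ℝ≥0∞} {b : ℕ → ℝ} {Cr : ℝ} {gf Yf ef Ff df : ℕ → ℝ}

/-- **THE FIELD `numE`.** -/
theorem numE32 (Gr' : Gr E κ C) (N : NumOK E η A Cb ε0 L G.m0 G.m2 τ0 G.M cX C4 θ) (hε : ε0 ≤ 1 / 16) (hCr : 0 ≤ Cr)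
    (hq : 128 * C * C * (Cr + 1) ≤ 2 ^ q) (hx : ∀ u, τ0 < u → Ex32 E L u (gf u) (Yf u) (ef u) (Ff u) (df u)) :
    ∀ t i, (SF98.pX Γ G (thN η A E) (slN Cb E G.m2) (beN η A Cb E G.m2 L) b (stN (A + 1)) κ3 θ').rg τ0 t i →
      ∀ u, stN (A + 1) t i + q ≤ u → u < i - r →
      ENNReal.ofReal (df u + 4 * (Real.exp (Pq q (bN (Cr + 1) E) u) *
        (Yf u * Real.exp (2 * Pq q (bN Cr E) u) / (gf u * Real.exp (-beN η A Cb E G.m2 L t i)) + ef u))) < ex (-L) := by
  intro t i h u hu _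
  obtain ⟨h1, h2, -⟩ := h
  have h3 := N.st_ge t i
  have hE := Gr'.pos u
  have hC := Gr'.one
  have hp2 := Pq_le Gr' (Cd := Cr + 1) (by linarith) hq u
  have hp1 : Pq q (bN Cr E) u ≤ E u / 64 := Pq_le Gr' hCr (le_trans (by nlinarith [mul_pos (show (0:ℝ) < C by linarith) (show (0:ℝ) < C by linarith)]) hq) u
  have hb := N.be_le t i h1 h2 u (by omega)
  have hl := N.L_le u (by omega)
  have hm : ε0 * E u ≤ E u / 16 := by nlinarith
  unfold ex
  exact (ENNReal.ofReal_lt_ofReal_iff (Real.exp_pos _)).2 (numE_re (hx u (by omega)) hp2 hp1 (hb.trans hm) (hl.trans hm))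

/-- **THE FIELD `numF`.** -/
theorem numF32 (Gr' : Gr E κ C) (N : NumOK E η A Cb ε0 L G.m0 G.m2 τ0 G.M cX C4 θ) (hε : ε0 ≤ 1 / 16) (hCr : 0 ≤ Cr)
    (hq : 128 * C * C * (Cr + 1) ≤ 2 ^ q) (hx : ∀ u, τ0 < u → Ex32 E L u (gf u) (Yf u) (ef u) (Ff u) (df u)) :
    ∀ t i, (SF98.pX Γ G (thN η A E) (slN Cb E G.m2) (beN η A Cb E G.m2 L) b (stN (A + 1)) κ3 θ').rg τ0 t i →
      ∀ u, stN (A + 1) t i + q ≤ u → u < i - r →
      8 * (Real.exp (4 * Pq q (bN Cr E) u) * Ff u / (gf u * Real.exp (-beN η A Cb E G.m2 L t i))) <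
        Real.exp (-(thN η A E t i + slN Cb E G.m2 (t - 1))) := by
  intro t i h u hu _
  obtain ⟨h1, h2, -⟩ := h
  have h3 := N.st_ge t i
  have hE := Gr'.pos u
  have hC := Gr'.one
  have hp1 : Pq q (bN Cr E) u ≤ E u / 64 := Pq_le Gr' hCr (le_trans (by nlinarith [mul_pos (show (0:ℝ) < C by linarith) (show (0:ℝ) < C by linarith)]) hq) u
  have hb := N.be_le t i h1 h2 u (by omega)
  have hL := N.L_nonneg
  have hm : ε0 * E u ≤ E u / 16 := by nlinarith
  have e1 : beN η A Cb E G.m2 L t i = thN η A E t i + slN Cb E G.m2 (t - 1) + L := rfl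
  exact numF_re (hx u (by omega)) hp1 (hb.trans hm) (by rw [e1] at hb; linarith)

end Fields

/-! ### Widths -/

theorem w_pow (G : Gm) : ∀ (k v : ℕ), 2 ^ k * G.w v ≤ G.w (v + k)
  | 0, v => by simp
  | k + 1, v => by
    have h1 := w_pow G k v
    have h2 := G.w_two (v + k)
    have e1 : v + (k + 1) = v + k + 1 := by ring
    rw [e1, pow_succ]
    linarith

theorem w_mono (G : Gm) {v u : ℕ} (h : v ≤ u) : G.w v ≤ G.w u := by
  have h1 := w_pow G (u - v) v
  rw [Nat.add_sub_cancel' h] at h1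
  have h2 := G.w_pos v
  have h3 : (1 : ℝ) ≤ 2 ^ (u - v) := one_le_pow₀ (by norm_num)
  nlinarith

/-- **THE FIELD `hX`** (`aX ≥ 2`). -/
theorem hX32 (G : Gm) {q : ℕ} {aX : ℝ} (haX : 2 ≤ aX) (hq : 2 * (G.kb + G.kw + 1) ≤ 2 ^ q) (hw : ∀ u, 1 ≤ u → 2 ≤ G.w u) (hq1 : 1 ≤ q) :
    ∀ v u, v + q ≤ u → (G.kb + G.kw + 1) * G.w v + G.w u / 2 + 2 ≤ aX * G.w u := by
  intro v u h
  have h1 := w_pow G q v
  have h2 := w_mono G h
  have h3 := hw u (by omega)
  have h4 := G.w_pos v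
  have h5 := mul_le_mul_of_nonneg_right hq h4.le
  have h6 : 2 * G.w u ≤ aX * G.w u := mul_le_mul_of_nonneg_right haX (by linarith)
  linarith

/-- **THE FIELD `hW`.** -/
theorem hW32 (G : Gm) {r : ℕ} {aF : ℝ} (hr : aF + 1 / 2 + G.lam ≤ 2 ^ (r + 2)) :
    ∀ t i u, t + 2 ≤ u → u < i - r → aF * G.w u + G.g u / 2 ≤ G.W i (t - 1) := by
  intro t i u h1 h2
  have h3 := w_pow G (r + 1) u
  have h4 := w_mono G (show u + (r + 1) ≤ i by omega)
  have h5 := w_mono G (show t - 1 ≤ u by omega)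
  have h6 := G.g_le u
  have h7 := G.w_pos u
  have hl : 0 ≤ G.lam := by
    have a1 := G.lam_ge
    have a2 := G.kn_nonneg
    have a3 := G.kb_ge
    linarith
  have h8 := mul_le_mul_of_nonneg_right hr h7.le
  have h9 := mul_le_mul_of_nonneg_left h5 hl
  have e1 : (2 : ℝ) ^ (r + 2) * G.w u = 2 * (2 ^ (r + 1) * G.w u) := by ring
  unfold Gm.W
  linarith

/-! ### Eventually -/

theorem E_big32 {μ : MeasureTheory.Measure ℝ} [MeasureTheory.IsProbabilityMeasure μ] {s c C : ℝ} {n₀ : ℕ}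
    (h : Pool.Agent.W_7d29a1_HS.In μ s c C n₀) (X : ℝ) : ∃ n₁ : ℕ, ∀ T : ℕ, n₁ ≤ T →
      X ≤ Pool.Agent.W_7d29a1_H.EE μ s T ∧ 1 + (T : ℝ) ≤ Real.exp (Pool.Agent.W_7d29a1_H.EE μ s T) := by
  obtain ⟨e1, he1, n₁, H⟩ := model_E h one_pos
  obtain ⟨n₂, H2⟩ := exists_log_le (max X 2) he1
  refine ⟨max (max n₁ n₂) 3, fun T hT => ?_⟩
  have h3 : 3 ≤ T := (le_max_right _ _).trans hT
  have hT3 : (3 : ℝ) ≤ T := by exact_mod_cast h3
  have h1 := H T (by omega) T (by rw [Real.rpow_one])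
  have h2 := H2 T (by omega)
  have hl : 1 ≤ Real.log T := by
    rw [Real.le_log_iff_exp_le (by linarith)]
    have := Real.exp_one_lt_d9
    linarith
  have h4 : X * Real.log T ≤ max X 2 * Real.log T := mul_le_mul_of_nonneg_right (le_max_left _ _) (by linarith)
  have h5 : 2 * Real.log T ≤ max X 2 * Real.log T := mul_le_mul_of_nonneg_right (le_max_right _ _) (by linarith)
  have h6 : X ≤ max X 2 * Real.log T := by
    have h7 : (0 : ℝ) < max X 2 := lt_of_lt_of_le two_pos (le_max_right _ _)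
    calc X ≤ max X 2 := le_max_left _ _
      _ = max X 2 * 1 := (mul_one _).symm
      _ ≤ _ := mul_le_mul_of_nonneg_left hl h7.le
  refine ⟨by linarith, ?_⟩
  have h8 : 1 + (T : ℝ) ≤ Real.exp (2 * Real.log T) := by
    rw [two_mul, Real.exp_add, Real.exp_log (by linarith)]
    nlinarith
  exact h8.trans (Real.exp_le_exp.2 (by linarith))

end

end Pool.Agent.W_7d29a1_C1.NE32
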