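import Pool.Agent.W_7d29a1_C1.NumX54
import Pool.Agent.W_7d29a1_C1.NumY54
import Pool.Agent.W_7d29a1_C1.ShlA8

/-!
MP_7d29a1_pr, [C1] SHELL, side F (helper29): **THE BLOCK `(m₁, g, U, qx)` OF `FrT8`** in its letters, over `lastY54`, `cost54` (helper54).

Before the block: `aW` (the cost `5 aW` of the weight), `A0`, `Af`, `p` (the costs `c0 ≤ A0 (1 + U) ^ p`, `cUf, cLf ≤ Af (1 + U) ^ p` of the
closeness), `η` (the gain of the outer scale), `r` (the rate), lower bounds `M₁`, `UX`, `qX`. After it: `Lc29` at every scale `t ≥ 1` of the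
grid `Tg (h8 Q e₀ n) K`, for all large `n`.
-/

set_option autoImplicit false

namespace Pool.Agent.W_7d29a1_C1.F29

open MeasureTheory Filter Topology
open Pool.Agent.W_7d29a1_H Pool.Agent.W_7d29a1_HS
open Pool.Agent.W_7d29a1_C1.T10 (Tg Tg_pos)
open Pool.Agent.W_7d29a1_C1.H8 (h8)
open Pool.Agent.W_7d29a1_C1.H54 (xC54 xC54_nn cost54 lastY54)

noncomputable section

/-- **WHAT THE LAST CHOICE GIVES AT THE SCALE `t`.** `rate` : the slope of the outer scale; `wt`, `wt2` : the cost of the weight (`k2` of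
`w54`); `cl`, `cl2` : the cost of the closeness (last number of `suc54`); `pol` : every cost of the same size. -/
structure Lc29 (μ : Measure ℝ) (s η r aW A0 Af : ℝ) (p : ℕ) (U : ℝ) (K m₂ h₀ t : ℕ) : Prop where
  rate : EE μ s (Tg h₀ K (t + m₂)) / wd μ s (Tg h₀ K (t + m₂)) ≤ r * (EE μ s (Tg h₀ K t) / wd μ s (Tg h₀ K t))
  wt : 5 * (aW * EE μ s (Tg h₀ K t)) + 8 ≤ η * EE μ s (Tg h₀ K (t + m₂))
  wt2 : 5 * (aW * EE μ s (2 * Tg h₀ K t)) + 8 ≤ η * EE μ s (Tg h₀ K (t + m₂))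
  cl : ∀ c0 cUf cLf : ℝ, 0 ≤ c0 → 0 ≤ cUf → 0 ≤ cLf → c0 ≤ A0 * (1 + U) ^ p → cUf ≤ Af * (1 + U) ^ p → cLf ≤ Af * (1 + U) ^ p →
    xC54 c0 cUf cLf * EE μ s (Tg h₀ K t) + 8 ≤ η * EE μ s (Tg h₀ K (t + m₂))
  cl2 : ∀ c0 cUf cLf : ℝ, 0 ≤ c0 → 0 ≤ cUf → 0 ≤ cLf → c0 ≤ A0 * (1 + U) ^ p → cUf ≤ Af * (1 + U) ^ p → cLf ≤ Af * (1 + U) ^ p →
    xC54 c0 cUf cLf * EE μ s (2 * Tg h₀ K t) + 8 ≤ η * EE μ s (Tg h₀ K (t + m₂))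
  pol : ∀ x : ℝ, 0 ≤ x → x ≤ (5 * aW + 12 * Af + 4 * A0 + 2) * (1 + U) ^ p →
    x * EE μ s (2 * Tg h₀ K t) + 8 ≤ η * EE μ s (Tg h₀ K (t + m₂)) ∧ x * EE μ s (Tg h₀ K t) + 8 ≤ η * EE μ s (Tg h₀ K (t + m₂))

variable {μ : Measure ℝ} [IsProbabilityMeasure μ] {s c C : ℝ} {n₀ : ℕ}

/-- The base height passes every threshold. -/
theorem big29 {e₀ : ℝ} (he₀ : 0 < e₀) {Q : ℕ} (hQ : 1 ≤ Q) (n₁ : ℕ) : ∀ᶠ n : ℕ in atTop, n₁ ≤ h8 Q e₀ n := by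
  have t1 : Tendsto (fun n : ℕ => (n : ℝ) ^ (e₀ / 4)) atTop atTop :=
    (tendsto_rpow_atTop (by linarith)).comp tendsto_natCast_atTop_atTop
  filter_upwards [t1.eventually_ge_atTop (n₁ : ℝ)] with n hn
  have h1 : (n : ℝ) ^ (e₀ / 4) ≤ (⌈(n : ℝ) ^ (e₀ / 4)⌉₊ : ℝ) := Nat.le_ceil _
  have h2 : n₁ ≤ ⌈(n : ℝ) ^ (e₀ / 4)⌉₊ := by exact_mod_cast hn.trans h1
  exact h2.trans (Nat.le_mul_of_pos_left _ hQ)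

/-- The scales are above the base height. -/
theorem T_ge29 {h₀ K t : ℕ} (hK : 1 ≤ K) (ht : 1 ≤ t) : h₀ ≤ Tg h₀ K t := by
  rw [Tg_pos ht, mul_assoc]
  have h1 : 1 ≤ K ^ t := Nat.one_le_pow _ _ hK
  nlinarith [Nat.zero_le h₀]

/-- **THE BLOCK `(m₁, g, U, qx)` OF `FrT8`.** -/
theorem numF29 (h : In μ s c C n₀) {K : ℕ} (hK : 2 ≤ K) {η r aW A0 Af : ℝ} (hη : 0 < η) (hr : 0 < r) (haW : 0 ≤ aW) (hA0 : 0 ≤ A0)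
    (hAf : 0 ≤ Af) (p M₁ : ℕ) (UX qX U₀ qx₀ : ℝ) (m₀ : ℕ) {C' : ℝ} (hC : 1 ≤ C') (pw : ℕ) :
    ∃ (m₁ g : ℕ) (U qx : ℝ), 1 ≤ m₁ ∧ 1 ≤ g ∧ U₀ ≤ U ∧ qx₀ ≤ qx ∧ C' * ((m₀ + m₁ + g : ℕ) : ℝ) ^ pw ≤ U ∧
      M₁ ≤ m₁ ∧ 1 ≤ U ∧ UX ≤ U ∧ 0 ≤ qx ∧ qX ≤ qx ∧
      (∃ n₁ : ℕ, 1 ≤ n₁ ∧ ∀ h₀ t : ℕ, 1 ≤ t → n₁ ≤ Tg h₀ K t → Lc29 μ s η r aW A0 Af p U K (m₀ + m₁) h₀ t) ∧
      ∀ (e₀ : ℝ) (Q : ℕ), 0 < e₀ → 1 ≤ Q → ∀ᶠ n : ℕ in atTop, ∀ t : ℕ, 1 ≤ t →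
        Lc29 μ s η r aW A0 Af p U K (m₀ + m₁) (h8 Q e₀ n) t := by
  obtain ⟨A, hA⟩ : ∃ A : ℝ, A = 5 * aW + 12 * Af + 4 * A0 + 2 := ⟨_, rfl⟩
  have hA1 : 0 ≤ A := by
    rw [hA]
    linarith
  obtain ⟨m₁, g, U, h1, h2, h3, h4, h5, h6, n₁, hn, H⟩ := lastY54 h hK hA1 p hη hr m₀ M₁ (max U₀ UX) hC pw
  have key : ∀ h₀ t : ℕ, 1 ≤ t → n₁ ≤ Tg h₀ K t → Lc29 μ s η r aW A0 Af p U K (m₀ + m₁) h₀ t := by
    intro h₀ t ht hT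
    obtain ⟨k1, k2⟩ := H h₀ t ht hT
    have q1 : (1 : ℝ) ≤ (1 + U) ^ p := one_le_pow₀ (by linarith)
    have w1 : 5 * aW ≤ A * (1 + U) ^ p := by
      calc 5 * aW ≤ A := by rw [hA]; linarith
        _ ≤ A * (1 + U) ^ p := le_mul_of_one_le_right hA1 q1
    have w2 := k2 (5 * aW) (by linarith) w1
    have cl : ∀ c0 cUf cLf : ℝ, 0 ≤ c0 → 0 ≤ cUf → 0 ≤ cLf → c0 ≤ A0 * (1 + U) ^ p → cUf ≤ Af * (1 + U) ^ p →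
        cLf ≤ Af * (1 + U) ^ p → xC54 c0 cUf cLf * EE μ s (2 * Tg h₀ K t) + 8 ≤ η * EE μ s (Tg h₀ K (t + (m₀ + m₁))) ∧
          xC54 c0 cUf cLf * EE μ s (Tg h₀ K t) + 8 ≤ η * EE μ s (Tg h₀ K (t + (m₀ + m₁))) := by
      intro c0 cUf cLf z0 z1 z2 y0 y1 y2
      refine k2 _ (xC54_nn z0 z1 z2) ?_
      rw [hA]
      exact (cost54 haW (by linarith) y0 y1 y2 hA0 hAf).2
    refine ⟨k1, ?_, ?_, fun c0 cUf cLf z0 z1 z2 y0 y1 y2 => (cl c0 cUf cLf z0 z1 z2 y0 y1 y2).2,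
      fun c0 cUf cLf z0 z1 z2 y0 y1 y2 => (cl c0 cUf cLf z0 z1 z2 y0 y1 y2).1, fun x hx0 hx => k2 x hx0 (by rw [hA]; exact hx)⟩
    · have := w2.2
      linarith
    · have := w2.1
      linarith
  refine ⟨m₁, g, U, max 0 (max qx₀ qX), h2, h3, (le_max_left _ _).trans h5, (le_max_left _ _).trans (le_max_right _ _), h6, h1, h4,
    (le_max_right _ _).trans h5, le_max_left _ _, (le_max_right _ _).trans (le_max_right _ _), ⟨n₁, hn, key⟩, fun e₀ Q he₀ hQ => ?_⟩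
  filter_upwards [big29 he₀ hQ n₁] with n hh t ht
  exact key _ t ht (hh.trans (T_ge29 (by omega) ht))

end

end Pool.Agent.W_7d29a1_C1.F29
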