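import Pool.Agent.W_7d29a1_C1.NumH58

/-!
MP_7d29a1_pr, [C1] SEP, THE GATE: THE NUMBER LINE OF `gwN58` (helper52 93072, helper58 90670). (helper18)

`gnum18` : the profile exponent `X ≤ sgm (R + 1) E_T + sg`, `sg ≤ E_T / 16`, the tilt `(3 kc + 3 + R) |τ| w_T ≤ E_T` and
`2 sgm (R + 2) + 6 + U₀ + Q₀ ≤ G` give `b + 2 E_n + r + y' ≤ G E_T`. `gnum18'` : the own weights of the end row (`2 E_n`) inside of the
profile exponent.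
-/

set_option autoImplicit false

namespace Pool.Agent.W_7d29a1_C1.GL18

open MeasureTheory
open Pool.Agent.W_7d29a1_F Pool.Agent.W_7d29a1_h4g Pool.Agent.W_7d29a1_H Pool.Agent.W_7d29a1_HS
open Pool.Agent.W_7d29a1_C1.PW58

noncomputable section

variable {μ : Measure ℝ} {s c kc R G U₀ Q₀ U₁ Q₁ U Q A B Y p ε : ℝ} {j K1h M K2h n₂ T n m K₁ K₂ : ℕ}

/-- The part of the tilt. -/
theorem tilt18 (H : NumT58 μ s c kc R G j K1h M K2h U₀ Q₀ U₁ Q₁ U Q A B Y p ε n₂ T n m K₁ K₂) {τ : ℝ}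
    (hτ : (3 * kc + 3 + R) * (|τ| * wd μ s T) ≤ EE μ s T) :
    |τ| * (((K₁ : ℝ) + K₂ + 9) * wd μ s n) + |τ| * (2 * ((K₁ : ℝ) * wd μ s n)) ≤ EE μ s T := by
  have h1 := H.le_kc
  have h2 := H.le_R
  have h3 := H.sc.wnT
  have h4 : ((K₁ : ℝ) + K₂ + 9) * wd μ s n + 2 * ((K₁ : ℝ) * wd μ s n) ≤ (3 * kc + 3 + R) * wd μ s T := by nlinarith
  have h5 := mul_le_mul_of_nonneg_left h4 (abs_nonneg τ)
  calc |τ| * (((K₁ : ℝ) + K₂ + 9) * wd μ s n) + |τ| * (2 * ((K₁ : ℝ) * wd μ s n)) =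
      |τ| * (((K₁ : ℝ) + K₂ + 9) * wd μ s n + 2 * ((K₁ : ℝ) * wd μ s n)) := by ring
    _ ≤ |τ| * ((3 * kc + 3 + R) * wd μ s T) := h5
    _ = (3 * kc + 3 + R) * (|τ| * wd μ s T) := by ring
    _ ≤ _ := hτ

/-- **THE NUMBER LINE**, the profile of the backward masses costs `X`. -/
theorem gnum18 (H : NumT58 μ s c kc R G j K1h M K2h U₀ Q₀ U₁ Q₁ U Q A B Y p ε n₂ T n m K₁ K₂) {τ sgm sg X : ℝ}
    (hU₀ : 0 ≤ U₀) (hQ₀ : 0 ≤ Q₀) (hsgm : 0 ≤ sgm) (hsg : sg ≤ EE μ s T / 16) (hτ : (3 * kc + 3 + R) * (|τ| * wd μ s T) ≤ EE μ s T)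
    (hX : X ≤ sgm * (R + 1) * EE μ s T + sg) (hG : 2 * sgm * (R + 2) + 6 + U₀ + Q₀ ≤ G) :
    X + 2 * EE μ s n + |τ| * (((K₁ : ℝ) + K₂ + 9) * wd μ s n) +
      (X + 2 * (1 * EE μ s n) + |τ| * (2 * ((K₁ : ℝ) * wd μ s n)) + (U₀ + Q₀) * EE μ s n) ≤ G * EE μ s T := by
  have h0 := tilt18 H hτ
  have hE := H.sc.E1
  have hET := H.sc.EnT
  have h1 : (U₀ + Q₀) * EE μ s n ≤ (U₀ + Q₀) * EE μ s T := mul_le_mul_of_nonneg_left hET (by linarith)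
  have h2 := mul_le_mul_of_nonneg_right hG (show 0 ≤ EE μ s T by linarith)
  have h3 : 0 ≤ sgm * EE μ s T := mul_nonneg hsgm (by linarith)
  nlinarith

/-- **THE NUMBER LINE**, the own weights of the end row (`2 E_n`) are paid in the profile. -/
theorem gnum18' (H : NumT58 μ s c kc R G j K1h M K2h U₀ Q₀ U₁ Q₁ U Q A B Y p ε n₂ T n m K₁ K₂) {τ sgm sg X : ℝ}
    (hU₀ : 0 ≤ U₀) (hQ₀ : 0 ≤ Q₀) (hsgm : 0 ≤ sgm) (hsg : sg ≤ EE μ s T / 16) (hτ : (3 * kc + 3 + R) * (|τ| * wd μ s T) ≤ EE μ s T)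
    (hX : X ≤ sgm * (R + 1) * EE μ s T + sg + 2 * EE μ s n) (hG : 2 * sgm * (R + 2) + 10 + U₀ + Q₀ ≤ G) :
    X + 2 * EE μ s n + |τ| * (((K₁ : ℝ) + K₂ + 9) * wd μ s n) +
      (X + 2 * (1 * EE μ s n) + |τ| * (2 * ((K₁ : ℝ) * wd μ s n)) + (U₀ + Q₀) * EE μ s n) ≤ G * EE μ s T := by
  have h0 := tilt18 H hτ
  have hE := H.sc.E1
  have hET := H.sc.EnT
  have h1 : (U₀ + Q₀) * EE μ s n ≤ (U₀ + Q₀) * EE μ s T := mul_le_mul_of_nonneg_left hET (by linarith)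
  have h2 := mul_le_mul_of_nonneg_right hG (show 0 ≤ EE μ s T by linarith)
  have h3 : 0 ≤ sgm * EE μ s T := mul_nonneg hsgm (by linarith)
  nlinarith

/-- Both conditions are solvable for `sgm < c / 8`: `G` affine in `R` with the slope `2 sgm`. -/
theorem gnum_R {c kc sgm D : ℝ} (hc : 0 < c) (hs : sgm ≤ c / 16) (hkc : 0 ≤ kc) (hD : 0 ≤ D) : ∃ R₀ : ℝ, 0 ≤ R₀ ∧ ∀ R : ℝ, R₀ ≤ R →
    D + (2 * sgm * (R + 2)) + 2 + 4 * c ≤ c / 4 * (R - kc) := by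
  refine ⟨8 / c * (D + 2 + 4 * c + c / 4 * kc + c / 4), by positivity, fun R hR => ?_⟩
  have h1 : c / 8 * (8 / c * (D + 2 + 4 * c + c / 4 * kc + c / 4)) = D + 2 + 4 * c + c / 4 * kc + c / 4 := by
    field_simp
  have h2 := mul_le_mul_of_nonneg_left hR (show 0 ≤ c / 8 by positivity)
  have h3 : 0 ≤ R := le_trans (by positivity) hR
  have h4 : 2 * sgm * (R + 2) ≤ 2 * (c / 16) * (R + 2) := mul_le_mul_of_nonneg_right (by linarith) (by linarith)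
  nlinarith

end

end Pool.Agent.W_7d29a1_C1.GL18
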