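import Pool.Agent.W_7d29a1_C1.GateQ18
import Pool.Agent.W_7d29a1_C1.GateP18
import Pool.Agent.W_7d29a1_C1.GateP66
import Pool.Agent.W_7d29a1_HL.Hsl

/-!
MP_7d29a1_pr, attractor route, [C1] SEP: THE NUMBERS OF THE GATE. (helper66)

Scale `T` of the window, block scale `n = M m`, `j n ≤ T ≤ 2 j n`, strips of `m` rows. The half width `K₂` of the walls depends on `T`
(through `EE T / EE n`), bounded by `Kh`. `jp18u`: helper18's `jp18_prob`, uniform in `K₂ ≤ Kh`. `num66`: all the numbers.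
-/

set_option autoImplicit false

namespace Pool.Agent.W_7d29a1_C1.Gt66

open MeasureTheory ProbabilityTheory Filter Topology
open Pool.Agent.W_7d29a1_F Pool.Agent.W_7d29a1_h4g Pool.Agent.W_7d29a1_H Pool.Agent.W_7d29a1_HS
open Pool.Agent.W_7d29a1_C1.U16 (lat16)
open Pool.Agent.W_7d29a1_C1.H75
open Pool.Agent.W_7d29a1_C1.GL18
open Pool.Agent.W_7d29a1_C1
open Pool.Agent.W_7d29a1_HL (cS)
open Pool.Agent.W_7d29a1_C1.Wall66 (Gd)

noncomputable section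

variable {μ : Measure ℝ} {s : ℝ} [IsProbabilityMeasure μ] {c C : ℝ} {n₀ : ℕ}

/-- No jump inside a strip, uniformly in the width. (helper18) -/
theorem jp18u (h : In μ s c C n₀) {Kh ε : ℝ} (hK : 0 ≤ Kh) (Y : ℝ) (hε : 0 < ε) : ∃ M₀ m₁ : ℕ, ∀ M m : ℕ, M₀ ≤ M → m₁ ≤ m →
    ∀ K₂ : ℝ, K₂ ≤ Kh → ∀ a : Pt, (law μ).real (Jp18 μ s K₂ (M * m) m a Y)ᶜ ≤ ε := by
  have hC : 0 < C := lt_of_lt_of_le one_pos h.C1
  have hc0 := h.c0
  obtain ⟨α, nα, hα, hα1, hnα, hpow⟩ := Pool.Agent.W_7d29a1_HL.EE_pow h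
  obtain ⟨J, nJ, hJ⟩ := Pool.Agent.W_7d29a1_HL.hsl h ((|Y| + 2) / c)
  obtain ⟨nw, hnw⟩ := eventually_atTop.1 ((wd_tendsto h).eventually_ge_atTop 1)
  obtain ⟨M₁, hM₁⟩ : ∃ M₁ : ℕ, ∀ M : ℕ, M₁ ≤ M →
      3 * ((4 * (Kh + 2) * M + 2 * M) * (C * Real.exp (-((M : ℝ) ^ α / (2 * C))))) ≤ ε / 2 := by
    have e1 : Tendsto (fun M : ℕ => (M : ℝ) ^ α) atTop atTop := (tendsto_rpow_atTop hα).comp tendsto_natCast_atTop_atTop
    have e2 : Tendsto (fun M : ℕ => ((M : ℝ) ^ α) ^ (1 / α) * Real.exp (-(1 / (2 * C)) * (M : ℝ) ^ α)) atTop (𝓝 0) :=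
      (tendsto_rpow_mul_exp_neg_mul_atTop_nhds_zero (1 / α) (1 / (2 * C)) (by positivity)).comp e1
    have e3 := e2.const_mul (3 * (4 * (Kh + 2) + 2) * C)
    rw [mul_zero] at e3
    obtain ⟨M₁, hM₁⟩ := eventually_atTop.1 (e3.eventually_le_const (show 0 < ε / 2 by linarith))
    refine ⟨M₁, fun M hM => le_trans (le_of_eq ?_) (hM₁ M hM)⟩
    have e4 : ((M : ℝ) ^ α) ^ (1 / α) = M := by
      rw [← Real.rpow_mul (Nat.cast_nonneg M), mul_one_div_cancel hα.ne', Real.rpow_one]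
    rw [e4]
    have e5 : -(1 / (2 * C)) * (M : ℝ) ^ α = -((M : ℝ) ^ α / (2 * C)) := by ring
    rw [e5]
    ring
  refine ⟨max M₁ (2 ^ J + 1), max (max nα nJ) (max nw (max n₀ 1)), fun M m hM hm K₂ hK₂ a => ?_⟩
  have m1 : nα ≤ m := le_trans (le_trans (le_max_left _ _) (le_max_left _ _)) hm
  have m2 : nJ ≤ m := le_trans (le_trans (le_max_right _ _) (le_max_left _ _)) hm
  have m3 : nw ≤ m := le_trans (le_trans (le_max_left _ _) (le_max_right _ _)) hm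
  have m4 : n₀ ≤ m := le_trans (le_trans (le_max_left _ _) (le_trans (le_max_right _ _) (le_max_right _ _))) hm
  have m5 : 1 ≤ m := le_trans (le_trans (le_max_right _ _) (le_trans (le_max_right _ _) (le_max_right _ _))) hm
  have M1 : 2 ^ J + 1 ≤ M := (le_max_right _ _).trans hM
  have M2 : 1 ≤ M := le_trans (Nat.le_add_left 1 _) M1
  have hMr : (1 : ℝ) ≤ M := by exact_mod_cast M2
  have hmn : m ≤ M * m := Nat.le_mul_of_pos_left m (by omega)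
  have hmr : (0 : ℝ) < m := by exact_mod_cast m5
  have hJm : 2 ^ J * m ≤ M * m := Nat.mul_le_mul_right m (le_trans (Nat.le_succ _) M1)
  have hsl := hJ (M * m) m m2 hJm
  have hp := hpow m (M * m) m1 hmn
  have eM : ((M * m : ℕ) : ℝ) / m = M := by
    push_cast
    field_simp
  rw [eM] at hp
  have hwm : 0 < wd μ s m := h.wd_pos m5
  have hwn1 : 1 ≤ wd μ s (M * m) := hnw (M * m) (m3.trans hmn)
  have hEn1 : 1 ≤ EE μ s (M * m) := one_le_EE (M * m)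
  have hEm := EE_pos (μ := μ) (s := s) m
  -- the ratio of the widths
  have hvA := vA_le_two h m5 hmn
  have hwr : wd μ s (M * m) ≤ 2 * M * wd μ s m := by
    unfold wd
    push_cast
    have h0 : (0 : ℝ) ≤ (M : ℝ) * m := by positivity
    have := mul_le_mul_of_nonneg_left hvA h0
    linarith
  -- the slope
  have hslope : (|Y| + 2) * EE μ s (M * m) ≤ hc μ s c m * wd μ s (M * m) := by
    unfold hc
    rw [div_mul_eq_mul_div, le_div_iff₀ hwm]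
    have h1 : (|Y| + 2) / c * EE μ s (M * m) * wd μ s m = ((|Y| + 2) * EE μ s (M * m) * wd μ s m) / c := by ring
    rw [h1, div_le_iff₀ hc0] at hsl
    nlinarith
  obtain ⟨S, hS⟩ : ∃ S : ℕ → Set Env, S = fun i => {η | sh (ft μ s a (M * m) (i * (M * m)) 0) η ∉
      Jm μ s c m 0 ((Kh + 2) * wd μ s (M * m)) (EE μ s (M * m))} := ⟨_, rfl⟩
  have hSp : ∀ i, (law μ).real (S i) ≤ ε / 2 := by
    intro i
    rw [hS]
    have h1 := jm_prob_sh (c := c) h (n := m) m4 m5 (D := (Kh + 2) * wd μ s (M * m)) (by positivity) 0 (EE μ s (M * m))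
      (ft μ s a (M * m) (i * (M * m)) 0)
    refine h1.trans (le_trans ?_ (hM₁ M ((le_max_left _ _).trans hM)))
    have h3 : 2 * ((Kh + 2) * wd μ s (M * m)) / wd μ s m ≤ 4 * (Kh + 2) * M := by
      rw [div_le_iff₀ hwm]
      nlinarith
    have h4 : -(EE μ s (M * m) / (C * EE μ s m)) ≤ -((M : ℝ) ^ α / (2 * C)) := by
      rw [neg_le_neg_iff, div_le_div_iff₀ (by positivity) (by positivity)]
      have := mul_le_mul_of_nonneg_left hp hC.le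
      nlinarith
    refine mul_le_mul_of_nonneg_left ?_ (by norm_num)
    refine mul_le_mul (by linarith) (mul_le_mul_of_nonneg_left (Real.exp_le_exp.2 h4) hC.le) (by positivity) (by positivity)
  have hsub : (Jp18 μ s K₂ (M * m) m a Y)ᶜ ⊆ S 1 ∪ S 3 := by
    intro η hη
    by_contra hcon
    rw [Set.mem_union, not_or] at hcon
    refine hη fun i p j A hi g1 g2 g3 g4 g5 => ?_
    have hmem : sh (ft μ s a (M * m) (i * (M * m)) 0) η ∈ Jm μ s c m 0 ((Kh + 2) * wd μ s (M * m)) (EE μ s (M * m)) := by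
      rw [hS] at hcon
      rcases hi with rfl | rfl
      · exact not_not.1 hcon.1
      · exact not_not.1 hcon.2
    obtain ⟨l1, l2⟩ := ft_lat (μ := μ) (s := s) a (M * m) (i * (M * m)) 0
    have e : lat16 μ s (ft μ s a (M * m) (i * (M * m)) 0) p = lat16 μ s a p - lat16 μ s a (ft μ s a (M * m) (i * (M * m)) 0) := by
      unfold lat16
      push_cast
      ring
    have ht3 : η ∈ T3 μ s c m (EE μ s (M * m)) p j := by
      refine jm_t3 hmem g1 (g2.trans ?_) ?_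
      · show a.1 + ((i * (M * m) : ℕ) : ℤ) + m ≤ a.1 + ((i * (M * m) : ℕ) : ℤ) + ((4 * m : ℕ) : ℤ)
        push_cast
        omega
      · rw [e]
        rw [zero_mul] at l1 l2
        have g7 : (K₂ + 1) * wd μ s (M * m) ≤ (Kh + 1) * wd μ s (M * m) := mul_le_mul_of_nonneg_right (by linarith) (by linarith)
        rw [abs_le] at g4 ⊢
        constructor <;> linarith [g4.1, g4.2]
    have hfar := t3_far (hc_nonneg h m) ht3 (ρ := wd μ s (M * m)) A (by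
      intro y hy
      have h5 := g5 y hy
      have e2 : (y : ℝ) - sl μ s * j = lat16 μ s a (p.1 + (j : ℤ), p.2 + y) - lat16 μ s a p := by
        unfold lat16
        push_cast
        ring
      rw [e2]
      have h6 := abs_sub_abs_le_abs_sub (lat16 μ s a p) (lat16 μ s a (p.1 + (j : ℤ), p.2 + y))
      rw [abs_sub_comm] at h6
      linarith)
    refine hfar.trans ?_
    have h2 : (2 : ℝ) ≤ Real.exp (EE μ s (M * m)) := by
      have h7 := Real.add_one_le_exp (EE μ s (M * m))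
      linarith
    have h8 : EE μ s (M * m) - hc μ s c m * wd μ s (M * m) ≤ -((|Y| + 1) * EE μ s (M * m)) := by linarith
    calc 2 * Real.exp (EE μ s (M * m) - hc μ s c m * wd μ s (M * m)) ≤
        Real.exp (EE μ s (M * m)) * Real.exp (-((|Y| + 1) * EE μ s (M * m))) :=
          mul_le_mul h2 (Real.exp_le_exp.2 h8) (Real.exp_pos _).le (Real.exp_pos _).le
      _ = Real.exp (-(|Y| * EE μ s (M * m))) := by
          rw [← Real.exp_add]
          congr 1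
          ring
      _ ≤ Real.exp (-(Y * EE μ s (M * m))) := Real.exp_le_exp.2 (by nlinarith [le_abs_self Y])
  have h1 := measureReal_mono (μ := law μ) hsub
  have h2 := measureReal_union_le (μ := law μ) (S 1) (S 3)
  have h3 := hSp 1
  have h4 := hSp 3
  linarith

theorem lo18_anti {K₁ K₂ K₂' Q : ℝ} {n m : ℕ} {a : Pt} (hK : K₂ ≤ K₂') (hw : 0 ≤ wd μ s n) :
    Lo18 μ s K₁ K₂' n m a Q ⊆ Lo18 μ s K₁ K₂ n m a Q := by
  intro η hη x v hx hv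
  refine (hη x v (hx.trans (mul_le_mul_of_nonneg_right hK hw)) hv).trans ?_
  refine WR_mono_on η _ (5 * n) _ fun q h1 _ _ h2 => h1 ⟨h2.1, h2.2.1.trans (mul_le_mul_of_nonneg_right hK hw), h2.2.2⟩

/-- The scales. -/
theorem scales66 (h : In μ s c C n₀) {B₀ R : ℝ} (hR : 0 < R) : ∃ j n₁ : ℕ, 1 ≤ j ∧ ∀ n T : ℕ, n₁ ≤ n → j * n ≤ T → T ≤ 2 * j * n →
    1 ≤ n → (∀ K : ℝ, K ≤ B₀ * (EE μ s T / EE μ s n) → K * wd μ s n ≤ R * wd μ s T) ∧ EE μ s T ≤ 4 * j * EE μ s n := by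
  obtain ⟨J, n₁, hJ⟩ := Pool.Agent.W_7d29a1_HL.hsl h (B₀ / R)
  refine ⟨2 ^ J, n₁, Nat.one_le_two_pow, fun n T hn h1 h2 hn1 => ⟨fun K hK => ?_, ?_⟩⟩
  · have g1 := hJ T n hn h1
    have hE := EE_pos (μ := μ) (s := s) n
    have hw := h.wd_nonneg n
    have g2 : K * wd μ s n ≤ B₀ * (EE μ s T / EE μ s n) * wd μ s n := mul_le_mul_of_nonneg_right hK hw
    have g3 : B₀ * (EE μ s T / EE μ s n) * wd μ s n = R * (B₀ / R * EE μ s T * wd μ s n) / EE μ s n := by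
      field_simp
    rw [g3] at g2
    refine g2.trans ?_
    rw [div_le_iff₀ hE]
    have g4 := mul_le_mul_of_nonneg_left g1 hR.le
    linarith
  · have g1 := scale_b h hn1 (le_trans (Nat.le_mul_of_pos_left n Nat.one_le_two_pow) h1)
    have hE := EE_pos (μ := μ) (s := s) n
    have hnR : (0 : ℝ) < n := by exact_mod_cast hn1
    have g2 : (T : ℝ) ≤ 2 * (2 ^ J : ℕ) * n := by exact_mod_cast h2
    have g3 : (n : ℝ) * EE μ s T ≤ n * (4 * (2 ^ J : ℕ) * EE μ s n) := by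
      calc (n : ℝ) * EE μ s T ≤ 2 * (T * EE μ s n) := g1
        _ ≤ 2 * (2 * (2 ^ J : ℕ) * n * EE μ s n) := by
            have := mul_le_mul_of_nonneg_right g2 hE.le
            linarith
        _ = _ := by ring
    exact le_of_mul_le_mul_left g3 hnR

/-- The typical set of the gate block. -/
def TF66 (μ : Measure ℝ) (s c K₁ K₂ Kh Q Q₁ U U₁ Y : ℝ) (n m : ℕ) (a : Pt) : Set Env :=
  Lo18 μ s K₁ K₂ n m a Q ∩ (Sd18 μ s K₁ K₂ n m a Q₁ ∩ (Up18 μ s c (Kh + 3) n a U ∩ (Us18 μ s c K₂ n m a U₁ ∩ Jp18 μ s K₂ n m a Y)))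

/-- **THE NUMBERS OF THE GATE.** -/
theorem num66 (h : In μ s c C n₀) {K₁ R Q' q₃ q₃' ε : ℝ} (hK₁ : 0 ≤ K₁) (hR : 0 < R) (hQ' : 0 ≤ Q') (hq₃ : 0 ≤ q₃) (hq₃' : 0 ≤ q₃')
    (hε : 0 < ε) : ∃ (j M : ℕ) (Kh U Q Q₁ U₁ A Y p : ℝ), 1 ≤ j ∧ 2 ≤ M ∧ 0 ≤ Kh ∧ 0 ≤ U ∧ 0 ≤ Q ∧ 0 ≤ Q₁ ∧ 0 ≤ U₁ ∧ 0 ≤ A ∧ 0 ≤ Y ∧ 0 < p ∧
    ∀ n₂ : ℕ, ∃ n₁ : ℕ, ∀ T : ℕ, n₁ ≤ T → ∃ (n m : ℕ) (K₂ : ℝ), n₂ ≤ m ∧ n = M * m ∧ 1 ≤ m ∧ 2 * m ≤ n ∧ j * n ≤ T ∧ T ≤ 2 * j * n ∧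
      K₁ + 3 ≤ K₂ ∧ K₂ ≤ Kh ∧ (K₂ + 8) * wd μ s n ≤ R * wd μ s T ∧
      3 * (Real.exp ((U₁ + Q₁ - c / 4 * (K₂ - 3 - K₁)) * EE μ s n + Q' * EE μ s T) *
        Real.exp (q₃ * EE μ s n + q₃' * EE μ s T)) ≤ 1 ∧
      C66 μ s * Real.exp ((U + |lam μ s| + 2) * EE μ s n) ^ 6 * (Real.exp (-(A * EE μ s n)) +
        (m + m) * Real.exp ((U + |lam μ s| + 2 - Y) * EE μ s n)) / Real.exp (-(Q * EE μ s n)) ≤ 1 / 2 ∧
      (∀ a : Pt, (law μ).real (TF66 μ s c K₁ K₂ Kh Q Q₁ U U₁ Y n m a)ᶜ ≤ ε) ∧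
      ∀ (a : Pt) (S : Set Pt), S ⊆ tb (sl μ s) a (Kh * wd μ s n) → ∃ D : Set Pt → Set Env, ∀ Ex : Set Pt, Gd (D Ex) ∧
        On20 (S \ Ex) (D Ex) ∧ p ≤ (law μ).real (D Ex) ∧ ∀ η ∈ D Ex, ∀ (i : ℤ) (r : ℕ) (x : ℤ), a.1 ≤ i → i + r ≤ a.1 + 5 * n →
          m - 1 ≤ r → cS μ s (S \ Ex) η (i, x) r ≤ Real.exp (-(A * EE μ s n)) := by
  have hC0 : 0 < C := lt_of_lt_of_le one_pos h.C1
  have hc0 := h.c0
  obtain ⟨Q₁, hQ₁, m1, hsd⟩ := sd18_prob h (ε := ε / 5) (by linarith)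
  obtain ⟨U₁, hU₁, m2, hus⟩ := us18_prob h (ε := ε / 5) (by linarith)
  obtain ⟨g, hg⟩ : ∃ g : ℝ, g = U₁ + Q₁ + q₃ + 2 := ⟨_, rfl⟩
  have hg0 : 0 ≤ g := by rw [hg]; linarith
  obtain ⟨B₀, hB₀⟩ : ∃ B₀ : ℝ, B₀ = K₁ + 11 + 4 / c * (g + (Q' + q₃')) := ⟨_, rfl⟩
  have h4c : 0 < 4 / c := by positivity
  have hB₀0 : 0 ≤ B₀ := by rw [hB₀]; positivity
  obtain ⟨j, m3, hj1, hsc⟩ := scales66 h (B₀ := B₀) hR
  obtain ⟨Kh, hKh⟩ : ∃ Kh : ℝ, Kh = B₀ * (4 * j) := ⟨_, rfl⟩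
  have hKh0 : 0 ≤ Kh := by rw [hKh]; positivity
  obtain ⟨Q, hQ, m4, hlo⟩ := lo18_prob h (K₁ := K₁) (K₂ := Kh) (ε := ε / 5) hK₁ hKh0 (by linarith)
  obtain ⟨U, hU, m5, hup⟩ := up18_prob h (K := Kh + 3) (ε := ε / 5) (by linarith) (by linarith)
  obtain ⟨Ub, hUb⟩ : ∃ Ub : ℝ, Ub = U + |lam μ s| + 2 := ⟨_, rfl⟩
  have hUb0 : 0 ≤ Ub := by rw [hUb]; positivity
  have hCC := C66_pos (μ := μ) (s := s)
  obtain ⟨t, ht⟩ : ∃ t : ℝ, t = Real.log (6 * C66 μ s + 1) := ⟨_, rfl⟩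
  have ht0 : 0 ≤ t := by
    rw [ht]
    exact Real.log_nonneg (by linarith)
  obtain ⟨Y, hY⟩ : ∃ Y : ℝ, Y = 7 * Ub + Q + C + t := ⟨_, rfl⟩
  obtain ⟨A, hA⟩ : ∃ A : ℝ, A = 6 * Ub + Q + t := ⟨_, rfl⟩
  have hA0 : 0 ≤ A := by rw [hA]; positivity
  have hY0 : 0 ≤ Y := by rw [hY]; positivity
  obtain ⟨M₀, m6, hjp⟩ := jp18u h (Kh := Kh) hKh0 Y (ε := ε / 5) (by linarith)
  obtain ⟨M, hM⟩ : ∃ M : ℕ, M = M₀ + 2 := ⟨_, rfl⟩
  obtain ⟨p, hp, m7, hwl⟩ := wallsP h (K2 := Kh) hKh0 (M := M) (by omega) (A := A) hA0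
  refine ⟨j, M, Kh, U, Q, Q₁, U₁, A, Y, p, hj1, by omega, hKh0, hU, hQ, hQ₁, hU₁, hA0, hY0, hp, fun n₂ => ?_⟩
  obtain ⟨m8, hm8⟩ : ∃ m8 : ℕ, m8 = m1 + m2 + m3 + m4 + m5 + m6 + m7 + n₂ + 1 := ⟨_, rfl⟩
  refine ⟨j * M * m8, fun T hT => ?_⟩
  have hjM : 0 < j * M := Nat.mul_pos (by omega) (by omega)
  obtain ⟨m, hm⟩ : ∃ m : ℕ, m = T / (j * M) := ⟨_, rfl⟩
  have hmm : m8 ≤ m := by
    rw [hm]
    exact (Nat.le_div_iff_mul_le hjM).2 (by rw [mul_comm]; exact hT)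
  obtain ⟨n, hn⟩ : ∃ n : ℕ, n = M * m := ⟨_, rfl⟩
  have hm1 : 1 ≤ m := by omega
  have hmn : m ≤ n := by rw [hn]; exact Nat.le_mul_of_pos_left m (by omega)
  have h2mn : 2 * m ≤ n := by rw [hn]; exact Nat.mul_le_mul_right m (by omega)
  have hT1 : j * n ≤ T := by
    have := Nat.mul_div_le T (j * M)
    rw [← hm] at this
    rw [hn, ← mul_assoc]
    exact this
  have hT2 : T ≤ 2 * j * n := by
    have h1 := Nat.lt_mul_div_succ T hjM
    rw [← hm] at h1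
    have h2 : j * M * (m + 1) ≤ j * M * (2 * m) := Nat.mul_le_mul_left _ (by omega)
    have h3 : j * M * (2 * m) = 2 * j * n := by rw [hn]; ring
    omega
  have hn1 : 1 ≤ n := by omega
  obtain ⟨s1, s2⟩ := hsc n T (by omega) hT1 hT2 hn1
  have hE := EE_pos (μ := μ) (s := s) n
  have hE1 : 1 ≤ EE μ s n := one_le_EE n
  have hET := EE_pos (μ := μ) (s := s) T
  have hnT : n ≤ T := le_trans (Nat.le_mul_of_pos_left n (by omega)) hT1
  have hEE : EE μ s n ≤ EE μ s T := EE_mono hnT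
  obtain ⟨ρ, hρ⟩ : ∃ ρ : ℝ, ρ = EE μ s T / EE μ s n := ⟨_, rfl⟩
  have hρ1 : 1 ≤ ρ := by rw [hρ, one_le_div hE]; exact hEE
  have hρ2 : ρ ≤ 4 * j := by rw [hρ, div_le_iff₀ hE]; exact s2
  have hρE : ρ * EE μ s n = EE μ s T := by rw [hρ, div_mul_cancel₀ _ hE.ne']
  obtain ⟨K₂, hK₂⟩ : ∃ K₂ : ℝ, K₂ = K₁ + 3 + 4 / c * (g + (Q' + q₃') * ρ) := ⟨_, rfl⟩
  have hKB : K₂ + 8 ≤ B₀ * ρ := by
    rw [hK₂, hB₀]
    have e1 : (K₁ + 11 + 4 / c * (g + (Q' + q₃'))) * ρ - (K₁ + 3 + 4 / c * (g + (Q' + q₃') * ρ) + 8) =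
        (K₁ + 11 + 4 / c * g) * (ρ - 1) := by ring
    have e2 : 0 ≤ (K₁ + 11 + 4 / c * g) * (ρ - 1) := mul_nonneg (by positivity) (by linarith)
    linarith
  have hK2h : K₂ ≤ Kh := by
    have h1 : B₀ * ρ ≤ Kh := by rw [hKh]; exact mul_le_mul_of_nonneg_left hρ2 hB₀0
    linarith
  have hK23 : K₁ + 3 ≤ K₂ := by
    rw [hK₂]
    have : 0 ≤ 4 / c * (g + (Q' + q₃') * ρ) := by positivity
    linarith
  refine ⟨n, m, K₂, by omega, hn, hm1, h2mn, hT1, hT2, hK23, hK2h, s1 (K₂ + 8) (by rw [← hρ]; exact hKB), ?_, ?_, ?_, ?_⟩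
  · -- the side
    rw [← Real.exp_add]
    have e1 : c / 4 * (K₂ - 3 - K₁) = g + (Q' + q₃') * ρ := by
      rw [hK₂]
      field_simp
      ring
    have e2 : (U₁ + Q₁ - c / 4 * (K₂ - 3 - K₁)) * EE μ s n + Q' * EE μ s T + (q₃ * EE μ s n + q₃' * EE μ s T) = -(2 * EE μ s n) := by
      rw [e1, hg, ← hρE]
      ring
    rw [e2]
    have h1 : Real.exp (-(2 * EE μ s n)) ≤ Real.exp (-2) := Real.exp_le_exp.2 (by linarith)
    have h2 : Real.exp (-2) ≤ 1 / 3 := by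
      rw [Real.exp_neg, inv_eq_one_div]
      refine one_div_le_one_div_of_le (by norm_num) ?_
      have := Real.add_one_le_exp (2 : ℝ)
      linarith
    linarith
  · -- the walls and the jumps
    rw [← hUb]
    have hlg := h.lg n hn1
    have hmr : (m : ℝ) ≤ Real.exp (C * EE μ s n) := by
      have h1 : (m : ℝ) ≤ n := by exact_mod_cast hmn
      have h2 : (n : ℝ) = Real.exp (Real.log n) := (Real.exp_log (by exact_mod_cast hn1)).symm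
      exact h1.trans (h2.le.trans (Real.exp_le_exp.2 hlg))
    have ht1 : Real.exp (-(t * EE μ s n)) ≤ 1 / (6 * C66 μ s + 1) := by
      have h1 : Real.exp (-(t * EE μ s n)) ≤ Real.exp (-t) := Real.exp_le_exp.2 (by nlinarith)
      refine h1.trans (le_of_eq ?_)
      rw [Real.exp_neg, ht, Real.exp_log (by linarith), one_div]
    have e6 : Real.exp (Ub * EE μ s n) ^ 6 = Real.exp (6 * (Ub * EE μ s n)) := by
      rw [← Real.exp_nat_mul]
      norm_num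
    have hden : ∀ x : ℝ, x / Real.exp (-(Q * EE μ s n)) = x * Real.exp (Q * EE μ s n) := fun x => by
      rw [div_eq_mul_inv, ← Real.exp_neg, neg_neg]
    rw [hden, e6]
    have k1 : Real.exp (6 * (Ub * EE μ s n)) * Real.exp (-(A * EE μ s n)) * Real.exp (Q * EE μ s n) = Real.exp (-(t * EE μ s n)) := by
      rw [← Real.exp_add, ← Real.exp_add]
      congr 1
      rw [hA]
      ring
    have k2 : Real.exp (6 * (Ub * EE μ s n)) * ((m : ℝ) * Real.exp ((Ub - Y) * EE μ s n)) * Real.exp (Q * EE μ s n) ≤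
        Real.exp (-(t * EE μ s n)) := by
      calc Real.exp (6 * (Ub * EE μ s n)) * ((m : ℝ) * Real.exp ((Ub - Y) * EE μ s n)) * Real.exp (Q * EE μ s n) ≤
            Real.exp (6 * (Ub * EE μ s n)) * (Real.exp (C * EE μ s n) * Real.exp ((Ub - Y) * EE μ s n)) * Real.exp (Q * EE μ s n) := by
            refine mul_le_mul_of_nonneg_right (mul_le_mul_of_nonneg_left (mul_le_mul_of_nonneg_right hmr (Real.exp_pos _).le)
              (Real.exp_pos _).le) (Real.exp_pos _).le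
        _ = Real.exp (-(t * EE μ s n)) := by
            rw [← Real.exp_add, ← Real.exp_add, ← Real.exp_add]
            congr 1
            rw [hY]
            ring
    calc C66 μ s * Real.exp (6 * (Ub * EE μ s n)) * (Real.exp (-(A * EE μ s n)) + (m + m) * Real.exp ((Ub - Y) * EE μ s n)) *
          Real.exp (Q * EE μ s n) =
        C66 μ s * (Real.exp (6 * (Ub * EE μ s n)) * Real.exp (-(A * EE μ s n)) * Real.exp (Q * EE μ s n) +
          2 * (Real.exp (6 * (Ub * EE μ s n)) * ((m : ℝ) * Real.exp ((Ub - Y) * EE μ s n)) * Real.exp (Q * EE μ s n))) := by ring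
      _ ≤ C66 μ s * (1 / (6 * C66 μ s + 1) + 2 * (1 / (6 * C66 μ s + 1))) := by
          refine mul_le_mul_of_nonneg_left ?_ hCC.le
          rw [k1]
          linarith [k2.trans ht1]
      _ ≤ 1 / 2 := by
          have h1 : C66 μ s * (1 / (6 * C66 μ s + 1) + 2 * (1 / (6 * C66 μ s + 1))) = 3 * C66 μ s / (6 * C66 μ s + 1) := by ring
          rw [h1, div_le_div_iff₀ (by linarith) (by norm_num)]
          linarith
  · -- the probability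
    intro a
    have hwn := h.wd_nonneg n
    have b1 : (law μ).real (Lo18 μ s K₁ K₂ n m a Q)ᶜ ≤ ε / 5 :=
      (measureReal_mono (Set.compl_subset_compl.2 (lo18_anti hK2h hwn))).trans (hlo n m (by omega) h2mn a)
    have b2 := hsd K₁ K₂ n m (by omega) h2mn a
    have b3 := hup n (by omega) a
    have b4 := hus K₂ n m (by omega) a
    have b5 := hjp M m (by omega) (by omega) K₂ hK2h a
    rw [← hn] at b5
    have hsub : (TF66 μ s c K₁ K₂ Kh Q Q₁ U U₁ Y n m a)ᶜ ⊆ (Lo18 μ s K₁ K₂ n m a Q)ᶜ ∪ (Sd18 μ s K₁ K₂ n m a Q₁)ᶜ ∪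
        ((Up18 μ s c (Kh + 3) n a U)ᶜ ∪ (Us18 μ s c K₂ n m a U₁)ᶜ) ∪ (Jp18 μ s K₂ n m a Y)ᶜ := by
      intro η hη
      by_contra hcon
      simp only [Set.mem_union, Set.mem_compl_iff, not_or, not_not] at hcon
      exact hη ⟨hcon.1.1.1, hcon.1.1.2, hcon.1.2.1, hcon.1.2.2, hcon.2⟩
    have := five_le hsub b1 b2 b3 b4 b5
    linarith
  · intro a S hS
    exact hwl n m (by omega) hmn (le_of_eq hn) a S hS

end

end Pool.Agent.W_7d29a1_C1.Gt66
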