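import Pool.Agent.W_7d29a1_C1.CorK71
import Pool.Agent.W_7d29a1_C1.SepE98
import Pool.Agent.W_7d29a1_C1.NumH58

/-!
MP_7d29a1_pr, [C1] SEP, THE NUMBERS OF THE CORE AND THE FIELD `core` OF `WQ28` OVER THE CONCRETE WINDOW (SepE98). (helper18)

`upe98_18` : the upper kernels of helper98's window as `UpE18`; `kcore18` : the closing line of `coreK71` at `Rr = kc + 3`; `log18` :
`log (32 * 5 n) ≤ EE T`; `kc18` : the widths of `NumT58`; `row98_18`, `core98_18` : the fields `row`, `core`.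
-/

set_option autoImplicit false

namespace Pool.Agent.W_7d29a1_C1.GL18

open MeasureTheory ProbabilityTheory Finset
open Pool.Agent.W_7d29a1_F hiding Bw G
open Pool.Agent.W_7d29a1_h4g Pool.Agent.W_7d29a1_H Pool.Agent.W_7d29a1_HS
open Pool.Agent.W_7d29a1_C1
open Pool.Agent.W_7d29a1_C1.K91 (wt wt_pos)
open Pool.Agent.W_7d29a1_C1.K91P (bw)
open Pool.Agent.W_7d29a1_C1.U16 (lat16)
open Pool.Agent.W_7d29a1_C1.H60
open Pool.Agent.W_7d29a1_C1.H75 (hc)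
open Pool.Agent.W_7d29a1_C1.G37 (Gm)
open Pool.Agent.W_7d29a1_C1.PW58 (Co58 NumT58)
open Pool.Agent.W_7d29a1_C1.Gt66 (Z1)
open Pool.Agent.W_7d29a1_C1.Ou37 (OuD)
open Pool.Agent.W_7d29a1_C1.Sy78 (St)
open Pool.Agent.W_7d29a1_C1.D98

noncomputable section

variable {μ : Measure ℝ} {s c : ℝ} {Γ : Cx} {G : Gm} {P : Nm98} {R : Nr98} {u : ℕ} {κ : ℤ × ℤ}

/-- **The upper kernels of the window as `UpE18`.** -/
theorem upe98_18 {D U₁ : ℝ} (hV : R.Vs u + R.sV u * D ≤ U₁ * EE μ s (G.T u)) (hσ : 0 ≤ R.sV u) {N : ℕ}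
    (hN : G.ra u κ - 1 + N ≤ rl98 Γ G P u κ) :
    UpS98 μ s c Γ G P R u κ ⊆ UpE18 μ s c (G.T u) N (pt98 G u κ (G.ra u κ - 1)) D U₁ := by
  intro η hη p j h1 h2 h3
  have h4 : η ∈ T3 μ s c (G.T u) (R.Vs u + R.sV u * |lat16 μ s (pt98 G u κ (G.ra u κ - 1)) p|) p j :=
    Up52.upS_T3 hη h1 (h2.trans (by
      have : ((G.ra u κ - 1 + N : ℕ) : ℤ) ≤ ((rl98 Γ G P u κ : ℕ) : ℤ) := by exact_mod_cast hN
      push_cast at this ⊢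
      omega))
  refine t3_mono ?_ h4
  have := mul_le_mul_of_nonneg_left h3 hσ
  linarith

/-- **The closing line of the core**, `Rr = kc + 3`. -/
theorem kcore18 {c b bS X U₁ : ℝ} (hc : 0 < c) (hb : b ≤ c / 2) : ∃ kc₀ : ℝ, ∀ kc : ℝ, kc₀ ≤ kc → bS + 1 ≤ kc ∧
    1 + c / 4 * (kc + 3 + 1) + (X + b * (kc + 3)) + U₁ ≤ c * (kc - (bS + 1)) := by
  refine ⟨max (|bS| + 1) (4 / c * (1 + c + |X| + |b| * 3 + 3 * c / 2 + |U₁| + c * (|bS| + 1))), fun kc hkc => ?_⟩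
  have h1 := (le_max_left _ _).trans hkc
  have h2 := (le_max_right _ _).trans hkc
  have h3 : c / 4 * (4 / c * (1 + c + |X| + |b| * 3 + 3 * c / 2 + |U₁| + c * (|bS| + 1))) =
      1 + c + |X| + |b| * 3 + 3 * c / 2 + |U₁| + c * (|bS| + 1) := by
    field_simp
  have h4 := mul_le_mul_of_nonneg_left h2 (show 0 ≤ c / 4 by positivity)
  rw [h3] at h4
  have h5 := le_abs_self bS
  have h6 := le_abs_self X
  have h7 := le_abs_self U₁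
  have h8 : 0 ≤ kc := le_trans (by positivity) h1
  have h9 : b * (kc + 3) ≤ c / 2 * (kc + 3) := mul_le_mul_of_nonneg_right hb (by linarith)
  have h10 := mul_le_mul_of_nonneg_left h5 hc.le
  have h11 := abs_nonneg b
  refine ⟨by linarith, by nlinarith⟩

/-- **The logarithm.** -/
theorem log18 [IsProbabilityMeasure μ] {C : ℝ} {n₀ : ℕ} (h : In μ s c C n₀) : ∃ n₁ : ℕ, ∀ T n : ℕ, n₁ ≤ T → 1 ≤ n → n ≤ T →
    Real.log (32 * n) ≤ EE μ s T := by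
  obtain ⟨n1, hn1⟩ := lgo h (δ := 1 / 2) (by norm_num)
  refine ⟨max n1 32, fun T n hT hn hnT => ?_⟩
  have h1 := hn1 T ((le_max_left _ _).trans hT)
  have h2 : 32 ≤ T := (le_max_right _ _).trans hT
  have h3 : (32 : ℝ) ≤ T := by exact_mod_cast h2
  have h4 : (n : ℝ) ≤ T := by exact_mod_cast hnT
  have h5 : (1 : ℝ) ≤ n := by exact_mod_cast hn
  have h6 : (32 : ℝ) * n ≤ T * T := by nlinarith
  have h7 := Real.log_le_log (by positivity) h6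
  have h8 : Real.log ((T : ℝ) * T) = Real.log T + Real.log T := Real.log_mul (by positivity) (by positivity)
  linarith

/-- **The widths.** -/
theorem kc18 [IsProbabilityMeasure μ] {kc r g U₀ Q₀ U₁ Q₁ U Q A B Y p ε w : ℝ} {j K1h M K2h n₂ T n m K₁ K₂ : ℕ}
    (H : NumT58 μ s c kc r g j K1h M K2h U₀ Q₀ U₁ Q₁ U Q A B Y p ε n₂ T n m K₁ K₂) (hw : w = wd μ s T) :
    kc * w ≤ (K₁ : ℝ) * wd μ s n ∧ (K₁ : ℝ) * wd μ s n + 2 ≤ (kc + 3) * w ∧ (K₂ : ℝ) * wd μ s n + 1 ≤ r * w := by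
  have h1 := H.kc_le
  have h2 := H.le_kc
  have h3 := H.sc.wnT
  have h4 := H.sc.w1
  have h5 := H.le_R
  subst hw
  refine ⟨h1, ?_, ?_⟩ <;> nlinarith

/-- **The field `row`.** -/
theorem row98_18 (x : ℕ × ℤ) : x.1 + 1 ≤ ag98 Γ G P u (G.loc u x) := by
  have h1 := G.row_lt_ra u x
  rw [ag_eq98]
  omega

/-- **THE FIELD `core` OF `WQ28`.** -/
theorem core98_18 [IsProbabilityMeasure μ] {C : ℝ} {n₀ : ℕ} (h : In μ s c C n₀) (PF : ℕ) {θ K : ℝ} (hK : 4 ≤ K) (hθ : 0 < θ)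
    (hθ1 : θ ≤ 7 / 8) : ∃ n₁ : ℕ, 1 ≤ n₁ ∧ ∀ q β bS : ℝ, 0 ≤ q → 0 < β → 0 ≤ bS → ∃ U : ℝ, 0 < U ∧
      ∀ {Γ : Cx} {G : Gm} {P : Nm98} {R : Nr98} {E : ℕ → ℝ} {rc Q4 sgm sg : ℝ} {u : ℕ} {κ : ℤ × ℤ},
        P.PF = PF → P.th = θ → P.KF = K → P.qF = q → Fit98 G P u →
        n₁ ≤ G.T u → 1 ≤ u → Γ.s = s → G.v = sl μ s → G.w u = wd μ s (G.T u) → E u = EE μ s (G.T u) →
        |Γ.h| * wd μ s (G.T u) ≤ c / 8 * EE μ s (G.T u) → G.re u κ ≤ Γ.N → 0 ≤ G.rcc u κ →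
        0 ≤ sgm → sgm ≤ c / 8 → sg ≤ E u → bS + 5 ≤ rc →
        ∀ {aS β' : ℝ}, G.w u / 2 + 1 ≤ aS * G.w u → Real.log 8 ≤ β' →
        ∀ {U₁ : ℝ}, 0 ≤ R.sV u → R.Vs u + R.sV u * ((bS + 1) * G.w u) ≤ U₁ * EE μ s (G.T u) →
        ∀ {kc r g U₀ Q₀ U₁' Q₁ U' Q A B Y p ε : ℝ} {j K1h M K2h n₂ : ℕ},
        NumT58 μ s c kc r g j K1h M K2h U₀ Q₀ U₁' Q₁ U' Q A B Y p ε n₂ (G.T u) (P.n u) (P.m u) (P.K1 u) (P.K2 u) →
        bS + 1 ≤ kc → 1 + c / 4 * (kc + 3 + 1) + (U + Q4 + (β + sgm) * (kc + 3)) + U₁ ≤ c * (kc - (bS + 1)) →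
        ∀ {T : Set Env}, T ⊆ LvA98 μ s c Γ G P R u κ → T ⊆ OuD μ s Γ G E rc Q4 sgm sg u κ → T ⊆ St Γ G aS bS β' u κ →
        ∀ x : ℕ × ℤ, G.loc u x = κ → ∀ η ∈ T, bw (wt η) Γ.p (x.1 + 1) (Γ.N - (x.1 + 1)) x.2 ≤
          4 / 3 * Z1 (wt η) Γ.p Γ.N (ag98 Γ G P u κ) (5 * P.n u) (Co58 μ s (P.K1 u) (P.n u) (co98 G u κ (ag98 Γ G P u κ))) x.1 x.2 := by
  obtain ⟨n₁, hn₁, H⟩ := MC71.coreK71 h PF hK hθ hθ1
  obtain ⟨n₂, hn₂⟩ := Filter.eventually_atTop.1 ((wd_tendsto h).eventually_ge_atTop 2)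
  obtain ⟨n₃, hn₃⟩ := log18 h
  refine ⟨max n₁ (max n₂ n₃), hn₁.trans (le_max_left _ _), fun q β bS hq hβ hbS => ?_⟩
  obtain ⟨U, hU, H⟩ := H q β bS hq hβ hbS
  refine ⟨U, hU, ?_⟩
  intro Γ G P R E rc Q4 sgm sg u κ hPF hth hKF hqF hF hT hu hs hv hw hE hh hreN h0 hsgm hsc hsg hrc aS β' haS hβ' U₁ hsV hV kc r g U₀ Q₀ U₁'
    Q₁ U' Q A B Y p ε j K1h M K2h n₂' HN hkb hline T hTL hTO hTS x hx η hη
  have hTn1 : n₁ ≤ G.T u := (le_max_left _ _).trans hT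
  have hTn2 : n₂ ≤ G.T u := ((le_max_left _ _).trans (le_max_right _ _)).trans hT
  have hTn3 : n₃ ≤ G.T u := ((le_max_right _ _).trans (le_max_right _ _)).trans hT
  have hLv := hTL hη
  have hrl := rl_T98 (Γ := Γ) (κ := κ) hF
  have hrl2 : rl98 Γ G P u κ = G.ra u κ - 1 + 5 * P.n u := by
    rw [rl_eq98, ag_eq98]
  have hfar := Lv98.far hLv
  unfold Far98 at hfar
  rw [← base98 h0, hPF, hth, hKF, hqF] at hfar
  have hup := upe98_18 (Γ := Γ) (κ := κ) (P := P) (R := R) (N := 5 * P.n u) (D := (bS + 1) * G.w u) hV hsV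
    (by rw [hrl2]) (KG98.upS (Lv98.kg hLv))
  obtain ⟨g1, g2, -⟩ := kc18 HN hw
  have hn1 := HN.n1
  have hnT : 5 * P.n u ≤ G.T u := by
    have h1 := G.re_sub_ra u κ
    have h2 := G.ra_le_re u κ
    have h3 := G.T_pos (u - 1)
    omega
  have hlog := hn₃ (G.T u) (5 * P.n u) hTn3 (by omega) hnT
  exact H (Γ := Γ) (G := G) (E := E) (rc := rc) (Q4 := Q4) (sgm := sgm) (sg := sg) (u := u) (κ := κ) (η := η) hTn1 hu hs hv hw hE hh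
    (hn₂ _ hTn2) hreN hfar hsgm hsc hsg hrc (hTO hη) haS (hTS hη) hβ' hup le_rfl (by omega) le_rfl (by omega) g1 g2 hkb hlog hline x hx

end

end Pool.Agent.W_7d29a1_C1.GL18
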