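import Pool.Agent.W_7d29a1_C1.NumL32
import Pool.Agent.W_7d29a1_C1.NumE32
import Pool.Agent.W_7d29a1_C1.SepJ49

/-!
MP_7d29a1_pr, [C1] attractor route, SEP: THE NUMBERS OF THE FIELDS `cmpA` AND `M3A`. (helper32)

* `Mo32 m e3 g3 x y y' gu z zs zx` : the inequalities between the exponents;
* `mov32` : `num`, `n0`, `n1`, `n2` of helper28's `WQ28`, from exponents at one scale `E >= 8`;
* `ordM32` : the order of the constants: `QA QB q1 yA yB rM g3 m e3` | `LB` | `uB` | `LA` | `uA` | `zs`, `zx`;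
* `rows32` : the number of rows of the window; `hbe32` : the field `hbe` of `M3A` and `hst`.
-/

set_option autoImplicit false

namespace Pool.Agent.W_7d29a1_C1.NM32

open Finset MeasureTheory
open Pool.Agent.W_7d29a1_F Pool.Agent.W_7d29a1_h4g Pool.Agent.W_7d29a1_H Pool.Agent.W_7d29a1_HS
open Pool.Agent.W_7d29a1_C1.H60
open Pool.Agent.W_7d29a1_C1.G37 (Gm)
open Pool.Agent.W_7d29a1_C1.SD53
open Pool.Agent.W_7d29a1_C1.N49
open Pool.Agent.W_7d29a1_C1.Nl32

noncomputable section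

/-- **The inequalities of the exponents.** `m` : level of the weight of a target, `e3` : the site of the mouth (`e₁`), `g3` : the
constant `G₃` of the gate; `x, gu, y` : `gA, Gu, Y` of the lane block; `y', z` : `Y', ee` of the pinching; `zs, zx` : `s0, s1`. -/
structure Mo32 (m e3 g3 x y y' gu z zs zx : ℝ) : Prop where
  c : y + g3 ≤ x
  p : y' + m + e3 + 1 ≤ x
  e : 1 ≤ z
  s : gu + m + e3 + 2 ≤ x + zs
  l : y + m + e3 + 2 ≤ x
  o : 2 ≤ zx

variable {E EM m e3 g3 x y y' gu z zs zx gA Gu Y Y' ee δ s0 s1 e₁ G₃ R : ℝ}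

theorem exp_big (hE : 8 ≤ E) : 256 ≤ Real.exp E := by
  have h1 : (2 : ℝ) ≤ Real.exp 1 := by
    have := Real.add_one_le_exp (1 : ℝ)
    linarith
  have h2 : Real.exp 8 = Real.exp 1 ^ 8 := by
    rw [← Real.exp_nat_mul]
    norm_num
  have h3 : (2 : ℝ) ^ 8 ≤ Real.exp 1 ^ 8 := pow_le_pow_left₀ (by norm_num) h1 8
  have h4 : Real.exp 8 ≤ Real.exp E := Real.exp_le_exp.2 hE
  rw [h2] at h4
  calc (256 : ℝ) = 2 ^ 8 := by norm_num
    _ ≤ _ := h3
    _ ≤ _ := h4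

/-- `K exp (a E) ≤ exp (b E)` with a margin of one. -/
theorem abs32 (hE : 8 ≤ E) {K a b : ℝ} (hK : K ≤ 256) (h : a + 1 ≤ b) : K * Real.exp (a * E) ≤ Real.exp (b * E) := by
  have h1 : Real.exp E * Real.exp (a * E) = Real.exp ((a + 1) * E) := by
    rw [← Real.exp_add]
    congr 1
    ring
  calc K * Real.exp (a * E) ≤ Real.exp E * Real.exp (a * E) :=
        mul_le_mul_of_nonneg_right (hK.trans (exp_big hE)) (Real.exp_pos _).le
    _ = Real.exp ((a + 1) * E) := h1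
    _ ≤ _ := Real.exp_le_exp.2 (mul_le_mul_of_nonneg_right h (by linarith))

theorem low32 (he : Real.exp (-e3 * E) ≤ e₁) (hg : Real.exp (x * E) ≤ gA) (hm : EM ≤ m * E) :
    Real.exp ((x - e3 - m) * E) ≤ e₁ * gA * Real.exp (-EM) := by
  have h1 : Real.exp (-(m * E)) ≤ Real.exp (-EM) := Real.exp_le_exp.2 (by linarith)
  have h2 : Real.exp (-e3 * E) * Real.exp (x * E) ≤ e₁ * gA :=
    mul_le_mul he hg (Real.exp_pos _).le ((Real.exp_pos _).le.trans he)
  have h3 : Real.exp (-e3 * E) * Real.exp (x * E) * Real.exp (-(m * E)) ≤ e₁ * gA * Real.exp (-EM) :=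
    mul_le_mul h2 h1 (Real.exp_pos _).le (mul_nonneg ((Real.exp_pos _).le.trans he) ((Real.exp_pos _).le.trans hg))
  refine le_trans (le_of_eq ?_) h3
  rw [← Real.exp_add, ← Real.exp_add]
  congr 1
  ring

/-- **THE NUMBERS.** -/
theorem mov32 (hE : 8 ≤ E) (H : Mo32 m e3 g3 x y y' gu z zs zx) (hm : EM ≤ m * E) (he : Real.exp (-e3 * E) ≤ e₁)
    (hg : Real.exp (x * E) ≤ gA) (hG3 : 0 < G₃) (hG3' : G₃ ≤ Real.exp (g3 * E)) (hY : Y ≤ Real.exp (y * E))
    (hY' : Y' ≤ Real.exp (y' * E)) (hGu : Gu ≤ Real.exp (gu * E)) (hee : ee ≤ Real.exp (-z * E)) (hδ : 32 * δ ≤ 1)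
    (hR0 : 0 ≤ R) (hR : R ≤ 2 * Real.exp E) (h00 : 0 ≤ s0) (hs0 : s0 ≤ Real.exp (-zs * E)) (_h10 : 0 ≤ s1)
    (hs1 : s1 ≤ Real.exp (-zx * E)) :
    0 < gA ∧ Y ≤ gA / G₃ ∧ 16 * (δ + 4 * (Y' / (e₁ * gA * Real.exp (-EM)) + ee)) ≤ 1 ∧
      32 * R * (Gu * s0 + Y) ≤ e₁ * gA * Real.exp (-EM) ∧ 32 * R * s1 ≤ 1 := by
  have hg0 : 0 < gA := lt_of_lt_of_le (Real.exp_pos _) hg
  have hE0 : 0 < E := by linarith
  have hL := low32 he hg hm
  have hL0 : 0 < e₁ * gA * Real.exp (-EM) := lt_of_lt_of_le (Real.exp_pos _) hL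
  refine ⟨hg0, ?_, ?_, ?_, ?_⟩
  · rw [le_div_iff₀ hG3]
    calc Y * G₃ ≤ Real.exp (y * E) * Real.exp (g3 * E) := mul_le_mul hY hG3' hG3.le (Real.exp_pos _).le
      _ = Real.exp ((y + g3) * E) := mul_exp32 _ _
      _ ≤ Real.exp (x * E) := Real.exp_le_exp.2 (mul_le_mul_of_nonneg_right H.c hE0.le)
      _ ≤ _ := hg
  · have h1 : Y' / (e₁ * gA * Real.exp (-EM)) ≤ 1 / 256 := by
      rw [div_le_iff₀ hL0]
      have h2 := abs32 hE (K := 256) (a := y') (b := x - e3 - m) le_rfl (by linarith [H.p])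
      linarith
    have h2 : ee ≤ 1 / 256 := by
      have h3 := abs32 hE (K := 256) (a := -z) (b := 0) le_rfl (by linarith [H.e])
      rw [zero_mul, Real.exp_zero] at h3
      linarith
    linarith
  · set w := max (gu - zs) y with hw
    have h1 : Gu * s0 ≤ Real.exp (w * E) := by
      calc Gu * s0 ≤ Real.exp (gu * E) * s0 := mul_le_mul_of_nonneg_right hGu h00
        _ ≤ Real.exp (gu * E) * Real.exp (-zs * E) := mul_le_mul_of_nonneg_left hs0 (Real.exp_pos _).le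
        _ = Real.exp ((gu + -zs) * E) := mul_exp32 _ _
        _ ≤ _ := Real.exp_le_exp.2 (mul_le_mul_of_nonneg_right (by linarith [le_max_left (gu - zs) y]) hE0.le)
    have h2 : Y ≤ Real.exp (w * E) :=
      hY.trans (Real.exp_le_exp.2 (mul_le_mul_of_nonneg_right (le_max_right _ _) hE0.le))
    have h3 : w + 2 ≤ x - e3 - m := by
      have h4 : w ≤ x - e3 - m - 2 := max_le (by linarith [H.s]) (by linarith [H.l])
      linarith
    have h4 : 32 * R * (Gu * s0 + Y) ≤ 128 * Real.exp ((w + 1) * E) := by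
      have h5 : Real.exp E * Real.exp (w * E) = Real.exp ((w + 1) * E) := by
        rw [← Real.exp_add]
        congr 1
        ring
      calc 32 * R * (Gu * s0 + Y) ≤ 32 * R * (2 * Real.exp (w * E)) := mul_le_mul_of_nonneg_left (by linarith) (by positivity)
        _ = 64 * (R * Real.exp (w * E)) := by ring
        _ ≤ 64 * (2 * Real.exp E * Real.exp (w * E)) :=
            mul_le_mul_of_nonneg_left (mul_le_mul_of_nonneg_right hR (Real.exp_pos _).le) (by norm_num)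
        _ = 128 * (Real.exp E * Real.exp (w * E)) := by ring
        _ = _ := by rw [h5]
    exact h4.trans ((abs32 hE (by norm_num) (by linarith)).trans hL)
  · have h5 : Real.exp E * Real.exp (-zx * E) = Real.exp ((-zx + 1) * E) := by
      rw [← Real.exp_add]
      congr 1
      ring
    have h6 := abs32 hE (K := 64) (a := -zx + 1) (b := 0) (by norm_num) (by linarith [H.o])
    rw [zero_mul, Real.exp_zero] at h6
    calc 32 * R * s1 ≤ 32 * R * Real.exp (-zx * E) := mul_le_mul_of_nonneg_left hs1 (by positivity)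
      _ ≤ 32 * (2 * Real.exp E) * Real.exp (-zx * E) := mul_le_mul_of_nonneg_right (by linarith) (Real.exp_pos _).le
      _ = 64 * (Real.exp E * Real.exp (-zx * E)) := by ring
      _ = 64 * Real.exp ((-zx + 1) * E) := by rw [h5]
      _ ≤ 1 := h6

/-- **THE ORDER OF THE CONSTANTS**: the gain of lane B, then its upper kernels, the gain of lane A, its upper kernels, then the two
probabilities of the column of targets. The letters of `blk_num` (NumL32): `x = (LA - QA) + (LB - QB) - q1 - 1`,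
`y = y' = uB + rM + yA + 1`, `gu = uB + rM + uA + 1`, `z = (LB - QB) - q1 - yB - rM`. -/
theorem ordM32 (QA QB q1 yA yB rM g3 m e3 : ℝ) : ∃ LB₀ : ℝ, ∀ LB : ℝ, LB₀ ≤ LB → ∀ uB : ℝ, ∃ LA₀ : ℝ, ∀ LA : ℝ, LA₀ ≤ LA →
    ∀ uA : ℝ, ∃ z₀ : ℝ, ∀ zs zx : ℝ, z₀ ≤ zs → z₀ ≤ zx → yA + 1 ≤ LA - QA ∧
      Mo32 m e3 g3 (LA - QA + (LB - QB) - q1 - 1) (uB + rM + yA + 1) (uB + rM + yA + 1) (uB + rM + uA + 1)
        (LB - QB - q1 - yB - rM) zs zx := by
  refine ⟨1 + QB + q1 + yB + rM, fun LB hLB uB => ?_⟩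
  refine ⟨max (yA + 1 + QA) (uB + rM + yA + 1 + max (m + e3 + 2) g3 - (LB - QB) + q1 + 1 + QA), fun LA hLA uA => ?_⟩
  refine ⟨max 2 (uB + rM + uA + 1 + m + e3 + 2 - (LA - QA + (LB - QB) - q1 - 1)), fun zs zx hs hx => ?_⟩
  have h1 := (le_max_left _ _).trans hLA
  have h2 := (le_max_right _ _).trans hLA
  have h3 := le_max_left (m + e3 + 2) g3
  have h4 := le_max_right (m + e3 + 2) g3
  have h5 := (le_max_right _ _).trans hs
  have h6 := (le_max_left _ _).trans hx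
  exact ⟨by linarith, by linarith, by linarith, by linarith, by linarith, by linarith, h6⟩

/-! ### Geometry -/

/-- **The rows of the window**: at most `2 T u + 1` rows between `lo` and `re`. -/
theorem rows32 (G : Gm) {u e : ℕ} {κ : ℤ × ℤ} (he : e ≤ G.re u κ) : e - (G.lo u κ).toNat ≤ 2 * G.T u + 1 := by
  have h1 := G.T_mono (show u - 2 ≤ u by omega)
  have h2 : G.rcc u κ = G.lo u κ + G.T (u - 2) := G.rcc_eq u κ
  have h3 : G.re u κ = (G.rcc u κ).toNat + G.T u + 1 := rfl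
  omega

theorem rowsE32 (G : Gm) {u e : ℕ} {κ : ℤ × ℤ} (he : e ≤ G.re u κ) (hT : 1 + (G.T u : ℝ) ≤ Real.exp E) :
    (((e - (G.lo u κ).toNat : ℕ)) : ℝ) ≤ 2 * Real.exp E := by
  have h1 : (((e - (G.lo u κ).toNat : ℕ)) : ℝ) ≤ ((2 * G.T u + 1 : ℕ) : ℝ) := by exact_mod_cast rows32 G he
  push_cast at h1
  linarith

/-- **THE FIELDS `hst` AND `hbe`**: `d s ≤ xF E s` (early ratio), levels `≤ ε0 E s`. -/
theorem hbe32 {F : ℕ → ℝ} {η Cb ε0 L xF : ℝ} {A m0 m2 τ0 M cX C4 : ℕ} {θ : ENNReal} (N : NumOK F η A Cb ε0 L m0 m2 τ0 M cX C4 θ)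
    {t i : ℕ} (h1 : τ0 < t) (h2 : t + m0 ≤ i) {d : ℕ → ℝ} (hd : ∀ s, t ≤ s → d s ≤ xF * F s) :
    t ≤ stN (A + 1) t i ∧ ∀ s ∈ Ico (stN (A + 1) t i) i, beN η A Cb F m2 L t i + 4 * d s ≤ (ε0 + 4 * xF) * F s := by
  refine ⟨st_ge _ _ _, fun s hs => ?_⟩
  obtain ⟨h3, h4⟩ := mem_Ico.1 hs
  have h5 := N.be_le t i h1 h2 s h3
  have h6 := hd s ((st_ge _ _ _).trans h3)
  linarith

end

end Pool.Agent.W_7d29a1_C1.NM32
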