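import Pool.Agent.W_7d29a1_C1.ShlC8
import Pool.Agent.W_7d29a1_C1.NuM77

/-!
MP_7d29a1_pr, attractor route [C1], field `nu` of one context: THE NUMBERS OF `nuT77` (helper90, hand of helper77).

`hS90` : a site which is not a contact of `FS` has the weight `0`. `nuX90` : eventually in `n`, for all contexts and all sets `S` of at most
`n ^ 16` sites in the rows `≤ N - n`: the hypotheses `hU, hR, hp, hdet, hsep, hbd` of `nuT77` give the bound `n ^ (-s')`. The radii are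
`a l` (`2 a l + 1 ≤ l` for `l ≥ l₀`), the largest shell `lm ≤ mm / 2` is free, `ms = mm / Z`, `Gs.M = mm ≥ κ' log n`, `A + τ₀ + b ≤ dl mm + 2`, `b' ≤ dl mm + 1`,
`Z dl ≤ 1 / 64`, `ε₀ = exp (- n ^ e')`, `ν₁ = 2 θ ^ (- d / 2 mm)`, `ν₂ = n⁻¹`. `nuE90` : the same at the sites `S8`, with the conclusion of
`NuS8` literally. `T90` : the windows are short.
-/

set_option autoImplicit false
set_option linter.unusedSectionVars false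

namespace Pool.Agent.W_7d29a1_C1.Num90

open MeasureTheory Finset Filter Topology
open Pool.Agent.W_7d29a1_F Pool.Agent.W_7d29a1_h4g Pool.Agent.W_7d29a1_H Pool.Agent.W_7d29a1_HS
open Pool.Agent.W_7d29a1_C1.T10 (Gd pt Tg Hg Tg_pos Tg_mono Hg_mono GW)
open Pool.Agent.W_7d29a1_C1.T98 (Sc mem_St w_zero98 kT dT dT_le kT_le)
open Pool.Agent.W_7d29a1_C1.H8
open Pool.Agent.W_7d29a1_C1.H77
open Pool.Agent.W_7d29a1_C1.Lec17 (Nar)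
open Pool.Agent.W_7d29a1_C1.H60
open Pool.Agent.W_7d29a1_C1.H49 (Par Cov cnt)
open Pool.Agent.W_7d29a1_C1.G37 (Gm)
open Pool.Agent.W_7d29a1_C1.SF98 (XS FS wS rowS up p98 mem_FS)
open scoped ENNReal

noncomputable section

variable {μ : Measure ℝ} [IsProbabilityMeasure μ]

/-! ### The sites -/

/-- **A site which is not a contact has the weight `0`.** -/
theorem hS90 {S : Finset (ℕ × ℤ)} {n : ℕ} {Γ : Cx} {G : Gm} {mt : ℕ} (hrow : ∀ c ∈ S, c.1 + n ≤ Γ.N ∧ c.1 < Γ.N) (hT : 2 * G.T mt ≤ n) :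
    ∀ c ∈ S, c ∉ FS Γ G mt → ∀ ω, Γ.w c ω = 0 := by
  intro c hc hn ω
  obtain ⟨h1, h2⟩ := hrow c hc
  refine w_zero98 Γ ?_ ω
  by_contra hcon
  push Not at hcon
  refine hn (mem_FS.2 ⟨?_, by omega⟩)
  unfold Cx.rows
  rw [Finset.mem_product, Finset.mem_Ico, Finset.mem_Icc]
  refine ⟨⟨Nat.zero_le _, h2⟩, by omega, ?_⟩
  have h3 : (c.1 : ℤ) < Γ.N := by exact_mod_cast h2
  omega

/-- The rows of the sites `S8`. -/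
theorem row90 {e : ℝ} {K n : ℕ} {G : Gd} {Γ : Cx} {c : ℕ × ℤ} (hc : c ∈ S8 e K n G Γ) : c.1 + n ≤ Γ.N ∧ c.1 < Γ.N := by
  have h1 := (mem_St.1 hc).1
  have h3 : c.1 < kT (G.H (m8 K e n)) (dT (G.H (m8 K e n)) ((n : ℝ) ^ e)) (Γ.N - n) := h1.2
  have h4 := kT_le (G.H (m8 K e n)) (dT (G.H (m8 K e n)) ((n : ℝ) ^ e)) (Γ.N - n)
  omega

/-- The windows are short. -/
theorem T90 {e e₀ : ℝ} {K Q x n mt : ℕ} (h : GridN8 e e₀ K Q x n) (he : e ≤ 1) (hn : 1 ≤ n) {Gs : Gm} (h0 : Gs.T0 = 2 * h8 Q e₀ n)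
    (hK : Gs.K = K) (hK1 : 1 ≤ K) (hmt : mt ≤ m8 K e n + x) : 2 * Gs.T mt ≤ n := by
  have h1 : Gs.T mt ≤ Tg (h8 Q e₀ n) K (m8 K e n + x) := by
    have h2 : Gs.T mt = 2 * h8 Q e₀ n * K ^ mt := by
      show Gs.T0 * Gs.K ^ mt = _
      rw [h0, hK]
    have h3 := h.m0
    rw [h2, Tg_pos (by omega)]
    exact Nat.mul_le_mul_left _ (Nat.pow_le_pow_right (by omega) hmt)
  have h4 := h.TL
  have hnR : (1 : ℝ) ≤ n := by exact_mod_cast hn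
  have h5 : (n : ℝ) ^ e ≤ n := by
    calc (n : ℝ) ^ e ≤ (n : ℝ) ^ (1 : ℝ) := Real.rpow_le_rpow_of_exponent_le hnR he
      _ = n := Real.rpow_one _
  have h6 : ((2 * Gs.T mt : ℕ) : ℝ) ≤ n := by
    have h7 : (Gs.T mt : ℝ) ≤ Tg (h8 Q e₀ n) K (m8 K e n + x) := by exact_mod_cast h1
    have h8' : (0 : ℝ) ≤ Gs.T mt := Nat.cast_nonneg _
    push_cast
    linarith
  exact_mod_cast h6

/-! ### The numbers -/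

/-- The number of scales which may be lost. -/
theorem hq90 {m Z A b b' τ₀ : ℕ} {dl : ℝ} (hZ : 1 ≤ Z) (hdZ : Z * dl ≤ 1 / 64) (hA : ((A + τ₀ + b : ℕ) : ℝ) ≤ dl * m + 2)
    (hb' : (b' : ℝ) ≤ dl * m + 1) (hm : 100 * Z ≤ m) : 2 * A + 2 * (τ₀ + 1 + b) + b' ≤ m / Z / 8 + 1 := by
  have hZR : (1 : ℝ) ≤ Z := by exact_mod_cast hZ
  have hmR : 100 * (Z : ℝ) ≤ m := by exact_mod_cast hm
  have a1 : (m : ℝ) < Z * (((m / Z : ℕ) : ℝ) + 1) := by exact_mod_cast Nat.lt_mul_div_succ m (show 0 < Z by omega)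
  have a2 : ((m / Z : ℕ) : ℝ) < 8 * (((m / Z / 8 : ℕ) : ℝ) + 1) := by exact_mod_cast Nat.lt_mul_div_succ (m / Z) (show 0 < 8 by norm_num)
  obtain ⟨y, hy⟩ : ∃ y : ℝ, y = (m : ℝ) / Z := ⟨_, rfl⟩
  have hZ0 : (0 : ℝ) < Z := by linarith
  have my : (m : ℝ) = Z * y := by rw [hy]; field_simp
  have a3 : y < ((m / Z : ℕ) : ℝ) + 1 := by
    rw [my] at a1
    exact lt_of_mul_lt_mul_left a1 hZ0.le
  have y0 : 0 ≤ y := by rw [hy]; positivity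
  have a4 : dl * m ≤ y / 64 := by
    rw [my]
    calc dl * (Z * y) = Z * dl * y := by ring
      _ ≤ 1 / 64 * y := mul_le_mul_of_nonneg_right hdZ y0
      _ = y / 64 := by ring
  have a5 : 100 ≤ y := by
    rw [my] at hmR
    have : (Z : ℝ) * 100 ≤ Z * y := by linarith
    exact le_of_mul_le_mul_left this hZ0
  have key : ((2 * A + 2 * (τ₀ + 1 + b) + b' : ℕ) : ℝ) ≤ ((m / Z / 8 + 1 : ℕ) : ℝ) := by
    push_cast at hA ⊢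
    linarith
  exact_mod_cast key

/-- **FIELD `nu` OF ONE CONTEXT**, any set of sites, any events `V` of the contacts. -/
theorem nuX90 {Z : ℕ} (hZ : 4 ≤ Z) {dl : ℝ} (hdZ : Z * dl ≤ 1 / 64) (j₀ : ℕ) {l₀ : ℕ}
    (hl₀ : 3 ≤ l₀) {a : ℕ → ℕ} (ha : Monotone a) (h1 : ∀ l, l₀ ≤ l → 2 * a l + 1 ≤ l) {θ d κ' e' s' : ℝ}
    (hθ : 1 < θ) (hd : 0 < d) (hκ' : 0 < κ') (he' : 0 < e') (hs : s' < d / 2 * κ' * Real.log θ)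
    (hs1 : s' < 1) :
    ∀ᶠ n : ℕ in atTop, ∀ (mm : ℕ), κ' * Real.log n ≤ mm → ∀ Γ : Cx, Γ.Ok → ∀ S : Finset (ℕ × ℤ),
      (∀ c ∈ S, c.1 + n ≤ Γ.N ∧ c.1 < Γ.N) → (S.card : ℝ) ≤ (n : ℝ) ^ (16 : ℝ) → ∀ {Gs : Gm} {mt : ℕ},
      Gs.M = mm → 2 * Gs.T mt ≤ n → ∀ {V : ℕ → ℕ × ℤ → Set Env} {th : ℕ → ℕ → ℝ} {sl : ℕ → ℝ} {be : ℕ → ℕ → ℝ} {bb : ℕ → ℝ}
        {st : ℕ → ℕ → ℕ} {κ3 θ' : ℝ≥0∞} {pot : ℕ → ℝ → XS Γ Gs mt → Env → ℝ≥0∞} {Un : ℕ → XS Γ Gs mt → Set Env} {lm A b b' τ₀ : ℕ}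
        {Rr : XS Γ Gs mt → Env → Finset ℕ} {θb : ℝ≥0∞} {Bd : Set Env}, 2 * lm ≤ mm → ((A + τ₀ + b : ℕ) : ℝ) ≤ dl * mm + 2 →
      (b' : ℝ) ≤ dl * mm + 1 →
      (∀ x : XS Γ Gs mt, x.1 ∈ S → ∀ ω ∉ Bd, Real.exp (-((n : ℝ) ^ e')) ≤ Γ.w x.1 ω → ∀ F : Finset ℕ, F ⊆ range (Gs.M + 1) →
        (∀ u ∈ F, ω ∈ Un u x) → F.card ≤ b) →
      (∀ x : XS Γ Gs mt, x.1 ∈ S → ∀ ω ∉ Bd, Real.exp (-((n : ℝ) ^ e')) ≤ Γ.w x.1 ω → (Rr x ω).card ≤ b') →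
      (∀ x : XS Γ Gs mt, x.1 ∈ S → ∀ ω ∉ Bd, Real.exp (-((n : ℝ) ^ e')) ≤ Γ.w x.1 ω → θb ≤ pot τ₀ (sl τ₀) x ω) →
      (∀ x : XS Γ Gs mt, x.1 ∈ S → ∀ ω ∉ Bd, Real.exp (-((n : ℝ) ^ e')) ≤ Γ.w x.1 ω → ∀ t < mm / Z,
        Usable (Cc77 (p98 Γ Gs mt th sl be bb st κ3 θ') (wS Γ Gs mt) (fS77 Γ Gs mt) Un τ₀ (sl τ₀) x ω) (Gs.M + 1) l₀ lm a
          (t + j₀) → t ∉ Rr x ω → ω ∈ V t x.1) →
      (∑ x, ∫⁻ ω in {ω | A ≤ cnt (p98 Γ Gs mt th sl be bb st κ3 θ') (wS Γ Gs mt) (fS77 Γ Gs mt) τ₀ τ₀ (sl τ₀) x ω ∧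
        θb ≤ pot τ₀ (sl τ₀) x ω}, wS Γ Gs mt x ω ∂(law μ) ≤ 2 * ENNReal.ofReal (θ ^ (-(d / 2) * Gs.M))) →
      law μ Bd ≤ ENNReal.ofReal ((n : ℝ) ^ (-(1 : ℝ))) →
      ∑ c ∈ S, ∫⁻ ω in Nar (fun t => V t c) (mm / Z) (mm / Z / 8 + 1), ENNReal.ofReal (Γ.w c ω) ∂(law μ) ≤
        ENNReal.ofReal ((n : ℝ) ^ (-s')) := by
  have hlog : Tendsto (fun n : ℕ => κ' * Real.log n) atTop atTop :=
    (Real.tendsto_log_atTop.comp tendsto_natCast_atTop_atTop).const_mul_atTop hκ'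
  filter_upwards [num77 hθ hd he' hs hs1, hlog.eventually_ge_atTop ((100 * Z + 4 * (j₀ + l₀) : ℕ) : ℝ), eventually_ge_atTop 3] with n hnum hl hn3
  intro mm hm1 Γ hΓ S hrow hcard Gs mt hM hT V th sl be bb st κ3 θ' pot Un lm A b b' τ₀ Rr θb Bd hlm hAA hb' hU hR hp hdet hsep hbd
  have hmm : 100 * Z + 4 * (j₀ + l₀) ≤ mm := by exact_mod_cast hl.trans hm1
  have hnR : (3 : ℝ) ≤ n := by exact_mod_cast hn3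
  have n0 : (0 : ℝ) < n := by linarith
  have hfin := hnum mm S.card hm1 hcard
  have hθ0 : 0 < θ := by linarith
  have hν₁ : 0 ≤ 2 * θ ^ (-(d / 2) * (mm : ℝ)) := by positivity
  have hν₂ : 0 ≤ (n : ℝ) ^ (-(1 : ℝ)) := Real.rpow_nonneg n0.le _
  have hsep' : ∑ x, ∫⁻ ω in {ω | A ≤ cnt (p98 Γ Gs mt th sl be bb st κ3 θ') (wS Γ Gs mt) (fS77 Γ Gs mt) τ₀ τ₀ (sl τ₀) x ω ∧
        θb ≤ pot τ₀ (sl τ₀) x ω}, wS Γ Gs mt x ω ∂(law μ) ≤ ENNReal.ofReal (2 * θ ^ (-(d / 2) * (mm : ℝ))) := by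
    refine hsep.trans (le_of_eq ?_)
    rw [hM, ENNReal.ofReal_mul two_pos.le, ENNReal.ofReal_ofNat]
  have hZd : mm / Z ≤ mm / 4 := Nat.div_le_div_left hZ (by norm_num)
  have hq := hq90 (A := A) (b := b) (τ₀ := τ₀) (show 1 ≤ Z by omega) hdZ hAA hb' (show 100 * Z ≤ mm by omega)
  have ham : 2 * a lm ≤ lm + l₀ := by
    rcases le_total l₀ lm with h | h
    · have := h1 lm h
      omega
    · have h2 := ha h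
      have h3 := h1 l₀ le_rfl
      omega
  have key := nuT77 (μ := μ) (V := V) (S := S) (a := a) (ms := mm / Z) (j₀ := j₀)
    (l₀ := l₀) (lm := lm) (q := mm / Z / 8 + 1) (A := A) (b := b) (b' := b') hΓ (hS90 hrow hT) ha h1 hl₀ (by
      rw [hM]
      omega) (Real.exp_pos _).le hν₁ hν₂ hq hU hR hp hdet hsep' hbd
  exact key.trans (ENNReal.ofReal_le_ofReal hfin)

/-- **FIELD `nu` OF ONE CONTEXT AT THE SITES `S8`**: the conclusion of `NuS8`, literally. -/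
theorem nuE90 {s c C : ℝ} {n₀ : ℕ} (hI : In μ s c C n₀) {e e₀ : ℝ} (he : 0 < e) (he1 : e ≤ 1 / 32) (he₀ : 0 < e₀) (hee : e₀ ≤ e)
    {K Z : ℕ} (hK : 2 ≤ K) (hZ : 4 ≤ Z) {dl : ℝ} (hdZ : Z * dl ≤ 1 / 64) (j₀ x : ℕ) {l₀ : ℕ} (hl₀ : 3 ≤ l₀)
    {a : ℕ → ℕ} (ha : Monotone a) (h1 : ∀ l, l₀ ≤ l → 2 * a l + 1 ≤ l) {θ d e' s' : ℝ} (hθ : 1 < θ) (hd : 0 < d)
    (he' : 0 < e') (hs : s' < d / 2 * (e / (8 * Real.log K)) * Real.log θ) (hs1 : s' < 1) {c₂ δ κ : ℝ}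
    (hc₂ : c₂ ≤ 1 / 32) {R C₀ : ℝ} {B Q : ℕ} (hQ : 1 ≤ Q) :
    ∀ᶠ n : ℕ in atTop, ∀ G : Gd, GW μ s R B C₀ (h8 Q e₀ n) K (m8 K e n + x) G → ∀ Γ : Cx, Adm μ s c₂ δ κ n Γ → ∀ {Gs : Gm} {mt : ℕ},
      Gs.M = m8 K e n → Gs.T0 = 2 * h8 Q e₀ n → Gs.K = K → mt ≤ m8 K e n + x → ∀ {V : ℕ → ℕ × ℤ → Set Env} {th : ℕ → ℕ → ℝ}
        {sl : ℕ → ℝ} {be : ℕ → ℕ → ℝ} {bb : ℕ → ℝ} {st : ℕ → ℕ → ℕ} {κ3 θ' : ℝ≥0∞} {pot : ℕ → ℝ → XS Γ Gs mt → Env → ℝ≥0∞}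
        {Un : ℕ → XS Γ Gs mt → Set Env} {lm A b b' τ₀ : ℕ} {Rr : XS Γ Gs mt → Env → Finset ℕ} {θb : ℝ≥0∞} {Bd : Set Env},
      2 * lm ≤ m8 K e n → ((A + τ₀ + b : ℕ) : ℝ) ≤ dl * m8 K e n + 2 → (b' : ℝ) ≤ dl * m8 K e n + 1 →
      (∀ x : XS Γ Gs mt, x.1 ∈ S8 e K n G Γ → ∀ ω ∉ Bd, Real.exp (-((n : ℝ) ^ e')) ≤ Γ.w x.1 ω → ∀ F : Finset ℕ,
        F ⊆ range (Gs.M + 1) → (∀ u ∈ F, ω ∈ Un u x) → F.card ≤ b) →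
      (∀ x : XS Γ Gs mt, x.1 ∈ S8 e K n G Γ → ∀ ω ∉ Bd, Real.exp (-((n : ℝ) ^ e')) ≤ Γ.w x.1 ω → (Rr x ω).card ≤ b') →
      (∀ x : XS Γ Gs mt, x.1 ∈ S8 e K n G Γ → ∀ ω ∉ Bd, Real.exp (-((n : ℝ) ^ e')) ≤ Γ.w x.1 ω → θb ≤ pot τ₀ (sl τ₀) x ω) →
      (∀ x : XS Γ Gs mt, x.1 ∈ S8 e K n G Γ → ∀ ω ∉ Bd, Real.exp (-((n : ℝ) ^ e')) ≤ Γ.w x.1 ω → ∀ t < m8 K e n / Z,
        Usable (Cc77 (p98 Γ Gs mt th sl be bb st κ3 θ') (wS Γ Gs mt) (fS77 Γ Gs mt) Un τ₀ (sl τ₀) x ω) (Gs.M + 1) l₀ lm a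
          (t + j₀) → t ∉ Rr x ω → ω ∈ V t (G.z t x.1)) →
      (∑ x, ∫⁻ ω in {ω | A ≤ cnt (p98 Γ Gs mt th sl be bb st κ3 θ') (wS Γ Gs mt) (fS77 Γ Gs mt) τ₀ τ₀ (sl τ₀) x ω ∧
        θb ≤ pot τ₀ (sl τ₀) x ω}, wS Γ Gs mt x ω ∂(law μ) ≤ 2 * ENNReal.ofReal (θ ^ (-(d / 2) * Gs.M))) →
      law μ Bd ≤ ENNReal.ofReal ((n : ℝ) ^ (-(1 : ℝ))) →
      ∑ c ∈ S8 e K n G Γ, ∫⁻ ω in Nar (fun t => V t (G.z t c)) (m8 K e n / Z) (m8 K e n / Z / 8 + 1),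
        ENNReal.ofReal (Γ.w c ω) ∂(law μ) ≤ ENNReal.ofReal ((n : ℝ) ^ (-s')) := by
  have hlK : 0 < Real.log K := Real.log_pos (by exact_mod_cast (by omega : 1 < K))
  have hκ0 : 0 < e / (8 * Real.log K) := by positivity
  have ev : ∀ {y : ℝ}, 0 < y → ∀ M : ℝ, ∀ᶠ n : ℕ in atTop, M ≤ (n : ℝ) ^ y := fun hy M =>
    ((tendsto_rpow_atTop hy).comp tendsto_natCast_atTop_atTop).eventually_ge_atTop M
  by_cases hB : 1 ≤ B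
  swap
  · refine Eventually.of_forall fun n G hG => ?_
    have := hG.B2
    omega
  filter_upwards [gridN8 (x := x) he he1 he₀ hee hK hQ, Vn8 hI he he1 he₀ hee hK hQ hB, nuX90 (μ := μ) hZ hdZ j₀ hl₀ ha h1 hθ hd hκ0 he' hs hs1,
    ev (show (0 : ℝ) < 29 / 32 by norm_num) 4, eventually_ge_atTop 3] with n hg8 hV8 hX ev4 hn3
  intro G hG Γ hA Gs mt hM hT0 hGK hmt V th sl be bb st κ3 θ' pot Un lm A b b' τ₀ Rr θb Bd hlm hAA hb' hU hR hp hdet hsep hbd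
  have hV : G.V (m8 K e n) ≤ n := by
    have h1 := hG.V (m8 K e n) hg8.m0 (Nat.le_add_right _ _)
    have h3 := hV8 (m8 K e n) hg8.m0 le_rfl
    have h4 : (G.V (m8 K e n) : ℝ) ≤ n := by
      have h5 : (0 : ℝ) ≤ (m8 K e n : ℝ) + 2 := by positivity
      linarith
    exact_mod_cast h4
  have hs₀ : ∀ r : ℕ, |(G.s r : ℝ) - Pool.Agent.W_7d29a1_H.sl μ s * r| ≤ n := fun r => by
    refine (hG.err' r).trans ?_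
    have h1 : ((m8 K e n + x + 2 : ℕ) : ℝ) ≤ n := by exact_mod_cast hg8.Lx
    push_cast at h1 ⊢
    linarith
  have hn1 : 1 ≤ n := by omega
  have hkN : G.H (m8 K e n) * ((Γ.N - n - dT (G.H (m8 K e n)) ((n : ℝ) ^ e)) / G.H (m8 K e n)) ≤ Γ.N := by
    refine (Nat.mul_div_le _ _).trans ?_
    omega
  have hcard : ((S8 e K n G Γ).card : ℝ) ≤ (n : ℝ) ^ (16 : ℝ) := by
    have h1 : (S8 e K n G Γ).card ≤ n ^ 16 := card_Sc8 hkN (rows_le8 hA hc₂ hn1 ev4) hn3 hV (sl8 hI) hs₀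
    have e2 : (n : ℝ) ^ (16 : ℝ) = (n : ℝ) ^ 16 := by norm_cast
    rw [e2]
    exact_mod_cast h1
  exact hX (m8 K e n) hg8.m1 Γ hA.ok (S8 e K n G Γ) (fun c hc => row90 hc) hcard hM
    (T90 hg8 (by linarith) hn1 hT0 hGK (by omega) hmt) (V := fun t c => V t (G.z t c)) hlm hAA hb' hU hR hp hdet hsep hbd

end

end Pool.Agent.W_7d29a1_C1.Num90
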