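import Pool.Agent.W_7d29a1_C1.JmpN67
import Pool.Agent.W_7d29a1_C1.OuP37

/-!
MP_7d29a1_pr, [C1] attractor route, SEP: THE NUMBERS OF `PR`: the price of the scale `u + J` is small against the gain over the radius
`w (u + J)` in units of the scale `u`, also if it grows like `g ^ J`, `g < K ^ a`. (helper37)
-/

set_option autoImplicit false

namespace Pool.Agent.W_7d29a1_C1.NR37

open Finset
open Pool.Agent.W_7d29a1_F Pool.Agent.W_7d29a1_h4g Pool.Agent.W_7d29a1_H Pool.Agent.W_7d29a1_HS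
open Pool.Agent.W_7d29a1_C1.H40 (Tk)

noncomputable section

variable {μ : MeasureTheory.Measure ℝ} [MeasureTheory.IsProbabilityMeasure μ] {s c C : ℝ} {n₀ : ℕ}

/-- **THE NUMBERS OF `PR`.** -/
theorem numPR (h : In μ s c C n₀) : ∃ (a : ℝ) (n₁ : ℕ), 0 < a ∧ 1 ≤ n₁ ∧ ∀ K : ℕ, 2 ≤ K → ∀ g A σ : ℝ, 0 < g → g < (K : ℝ) ^ a → 0 ≤ A → 0 < σ →
    ∃ J₀ : ℕ, ∀ J : ℕ, J₀ ≤ J → ∀ T0 : ℕ, n₁ ≤ T0 → ∀ u : ℕ, A * g ^ J * EE μ s (Tk T0 K (u + J)) ≤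
      σ * (wd μ s (Tk T0 K (u + J)) / wd μ s (Tk T0 K u)) * EE μ s (Tk T0 K u) := by
  obtain ⟨k, a, n₁, hk, ha, hn₁, H⟩ := wd_gain_div h
  refine ⟨a, n₁, ha, hn₁, fun K hK g A σ hg hgK hA hσ => ?_⟩
  have hKa : 0 < (K : ℝ) ^ a := by positivity
  have hx : 1 < (K : ℝ) ^ a / g := (one_lt_div hg).2 hgK
  obtain ⟨J₀, hJ₀⟩ := pow_unbounded_of_one_lt (A / (σ * k)) hx
  refine ⟨J₀, fun J hJ T0 hT0 u => ?_⟩
  have hT : ∀ v, n₁ ≤ Tk T0 K v := fun v => hT0.trans (Nat.le_mul_of_pos_right _ (Nat.pow_pos (by omega)))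
  have hmn : Tk T0 K u ≤ Tk T0 K (u + J) := Nat.mul_le_mul_left _ (Nat.pow_le_pow_right (by omega) (by omega))
  have h1 := H _ _ (hT u) hmn
  have hT1 : (0 : ℝ) < (Tk T0 K u : ℕ) := by exact_mod_cast (show 0 < Tk T0 K u by have := hT u; omega)
  have hr : ((Tk T0 K (u + J) : ℕ) : ℝ) / (Tk T0 K u : ℕ) = (K : ℝ) ^ J := by
    rw [div_eq_iff hT1.ne']
    unfold Tk
    push_cast
    rw [pow_add]
    ring
  rw [hr] at h1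
  have hE := EE_pos (μ := μ) (s := s) (Tk T0 K u)
  have hE' := EE_pos (μ := μ) (s := s) (Tk T0 K (u + J))
  have h2 : A / (σ * k) ≤ ((K : ℝ) ^ a / g) ^ J := hJ₀.le.trans (pow_le_pow_right₀ hx.le hJ)
  have h3 : A * g ^ J ≤ σ * (k * ((K : ℝ) ^ J) ^ a) := by
    rw [div_le_iff₀ (by positivity), div_pow, div_mul_eq_mul_div, le_div_iff₀ (by positivity)] at h2
    have e : ((K : ℝ) ^ J) ^ a = ((K : ℝ) ^ a) ^ J := by
      rw [← Real.rpow_natCast, ← Real.rpow_natCast, ← Real.rpow_mul (by positivity), ← Real.rpow_mul (by positivity), mul_comm]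
    rw [e]
    linarith
  calc A * g ^ J * EE μ s (Tk T0 K (u + J)) ≤ σ * (k * ((K : ℝ) ^ J) ^ a) * EE μ s (Tk T0 K (u + J)) :=
        mul_le_mul_of_nonneg_right h3 hE'.le
    _ = σ * (k * ((K : ℝ) ^ J) ^ a * (EE μ s (Tk T0 K (u + J)) / EE μ s (Tk T0 K u))) * EE μ s (Tk T0 K u) := by
        field_simp
    _ ≤ _ := mul_le_mul_of_nonneg_right (mul_le_mul_of_nonneg_left h1 hσ.le) hE.le

/-- In the letters of the geometry. -/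
theorem numPR_G (h : In μ s c C n₀) : ∃ (a : ℝ) (n₁ : ℕ), 0 < a ∧ 1 ≤ n₁ ∧ ∀ K : ℕ, 2 ≤ K → ∀ g A σ : ℝ, 0 < g → g < (K : ℝ) ^ a → 0 ≤ A →
    0 < σ → ∃ J₀ : ℕ, ∀ J : ℕ, J₀ ≤ J → ∀ (G : G37.Gm) (E : ℕ → ℝ), G.K = K → n₁ ≤ G.T0 → (∀ u, G.w u = wd μ s (G.T u)) →
    (∀ u, E u = EE μ s (G.T u)) → ∀ u : ℕ, A * g ^ J * E (u + J) ≤ σ * Ou37.rJ G J u * E u := by
  obtain ⟨a, n₁, ha, hn₁, H⟩ := numPR h
  refine ⟨a, n₁, ha, hn₁, fun K hK g A σ hg hgK hA hσ => ?_⟩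
  obtain ⟨J₀, H⟩ := H K hK g A σ hg hgK hA hσ
  refine ⟨J₀, fun J hJ G E hGK hT0 hw hE u => ?_⟩
  have h1 := H J hJ G.T0 hT0 u
  rw [← hGK] at h1
  unfold Ou37.rJ
  rw [hE, hE, hw, hw]
  exact h1

end

end Pool.Agent.W_7d29a1_C1.NR37
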