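import Pool.Agent.W_7d29a1_C1.NumP40

/-!
MP_7d29a1_pr, the attractor route: THE NUMBERS OF THE POTENTIAL for the count with shifted scales (helper40): `numP40` where the depths are
counted `cJ` times.
-/

set_option autoImplicit false

namespace Pool.Agent.W_7d29a1_C1.H40

open MeasureTheory ProbabilityTheory Finset
open scoped ENNReal

noncomputable section

/-- **THE NUMBERS OF THE POTENTIAL**, the depths are counted `cJ` times. -/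
theorem numS40 (A s cJ : ℕ) (hA : 1 ≤ A) {d c : ℝ} (X : ℝ) (hd : 0 < d) (hc : 0 < c) : ∃ D k z : ℕ, 1 ≤ D ∧ 1 ≤ k ∧ 1 ≤ z ∧
    ∀ C2 : ℕ, ∃ lam0 : ℕ, ∀ lam g : ℕ, lam0 ≤ lam → ∀ n M mt Nt : ℕ, 1 ≤ n → 1 ≤ M → k ≤ M → g ≤ M → c * Real.log n ≤ M →
      M ≤ mt → mt ≤ 2 * M → Nt ≤ A ^ mt → ∀ Sw : Finset ℤ, Sw.card ≤ s →
        (((6 * (C2 + 3) * nSt M g lam + 2 * ((M + g) / D) + cJ * (9 * (M / k) + 9 * (Sw.card * (M / k))) : ℕ) : ℝ) ≤ d * M) ∧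
          (nCodeJ Nt (A ^ 2) mt g : ℝ≥0∞) * (3 * ((2 : ℝ≥0∞) ^ (3 * (mt + g) + 1) / (z : ℝ≥0∞) ^ (M / k))) ≤
            ENNReal.ofReal ((n : ℝ) ^ (-X)) := by
  have hc1 : (0 : ℝ) < ((cJ + 1 : ℕ) : ℝ) := by positivity
  obtain ⟨D, k, z, hD, hk, hz, H⟩ := numP40 A s hA (d := d / ((cJ + 1 : ℕ) : ℝ)) X (by positivity) hc
  refine ⟨D, k, z, hD, hk, hz, fun C2 => ?_⟩
  obtain ⟨lam0, H⟩ := H C2
  refine ⟨lam0, fun lam g hlam n M mt Nt hn hM1 hkM hgM hcM hMm hm2 hNt Sw hSw => ?_⟩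
  obtain ⟨h1, h2⟩ := H lam g hlam n M mt Nt hn hM1 hkM hgM hcM hMm hm2 hNt Sw hSw
  refine ⟨?_, h2⟩
  have h3 : 6 * (C2 + 3) * nSt M g lam + 2 * ((M + g) / D) + cJ * (9 * (M / k) + 9 * (Sw.card * (M / k))) ≤
      (cJ + 1) * (6 * (C2 + 3) * nSt M g lam + 2 * ((M + g) / D) + 9 * (M / k) + 9 * (Sw.card * (M / k))) := by
    generalize 6 * (C2 + 3) * nSt M g lam = a
    generalize (M + g) / D = b
    generalize M / k = e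
    generalize Sw.card * e = f
    nlinarith [Nat.zero_le (cJ * a), Nat.zero_le (cJ * b), Nat.zero_le e, Nat.zero_le f]
  calc (((6 * (C2 + 3) * nSt M g lam + 2 * ((M + g) / D) + cJ * (9 * (M / k) + 9 * (Sw.card * (M / k))) : ℕ) : ℝ))
      ≤ (((cJ + 1) * (6 * (C2 + 3) * nSt M g lam + 2 * ((M + g) / D) + 9 * (M / k) + 9 * (Sw.card * (M / k))) : ℕ) : ℝ) := by
        exact_mod_cast h3
    _ = ((cJ + 1 : ℕ) : ℝ) *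
        ((6 * (C2 + 3) * nSt M g lam + 2 * ((M + g) / D) + 9 * (M / k) + 9 * (Sw.card * (M / k)) : ℕ) : ℝ) := Nat.cast_mul _ _
    _ ≤ ((cJ + 1 : ℕ) : ℝ) * (d / ((cJ + 1 : ℕ) : ℝ) * M) := mul_le_mul_of_nonneg_left h1 hc1.le
    _ = d * M := by field_simp

/-- The same with `f k ≤ z`, `f` any function. -/
theorem numZ40 (A s cJ : ℕ) (hA : 1 ≤ A) {d c : ℝ} (X : ℝ) (hd : 0 < d) (hc : 0 < c) (f : ℕ → ℕ) : ∃ D k z : ℕ, 1 ≤ D ∧ 1 ≤ k ∧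
    (1 ≤ z ∧ f k ≤ z) ∧
    ∀ C2 : ℕ, ∃ lam0 : ℕ, ∀ lam g : ℕ, lam0 ≤ lam → ∀ n M mt Nt : ℕ, 1 ≤ n → 1 ≤ M → k ≤ M → g ≤ M → c * Real.log n ≤ M →
      M ≤ mt → mt ≤ 2 * M → Nt ≤ A ^ mt → ∀ Sw : Finset ℤ, Sw.card ≤ s →
        (((6 * (C2 + 3) * nSt M g lam + 2 * ((M + g) / D) + cJ * (9 * (M / k) + 9 * (Sw.card * (M / k))) : ℕ) : ℝ) ≤ d * M) ∧
          (nCodeJ Nt (A ^ 2) mt g : ℝ≥0∞) * (3 * ((2 : ℝ≥0∞) ^ (3 * (mt + g) + 1) / (z : ℝ≥0∞) ^ (M / k))) ≤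
            ENNReal.ofReal ((n : ℝ) ^ (-X)) := by
  obtain ⟨D, k, z, hD, hk, hz, H⟩ := numS40 A s cJ hA X hd hc
  refine ⟨D, k, max z (f k), hD, hk, ⟨hz.trans (le_max_left _ _), le_max_right _ _⟩, fun C2 => ?_⟩
  obtain ⟨lam0, H⟩ := H C2
  refine ⟨lam0, fun lam g hlam n M mt Nt hn hM1 hkM hgM hcM hMm hm2 hNt Sw hSw => ?_⟩
  obtain ⟨h1, h2⟩ := H lam g hlam n M mt Nt hn hM1 hkM hgM hcM hMm hm2 hNt Sw hSw
  refine ⟨h1, le_trans ?_ h2⟩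
  have h3 : ((z : ℕ) : ℝ≥0∞) ≤ ((max z (f k) : ℕ) : ℝ≥0∞) := by exact_mod_cast le_max_left _ _
  gcongr

end

end Pool.Agent.W_7d29a1_C1.H40
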