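import Pool.Agent.W_7d29a1_C1.SoP74
import Pool.Agent.W_7d29a1_C1.K5o60

/-!
MP_7d29a1_pr, [C1] SHELL, fresh ball, (S): **THE NUMBERS OF THE SET `So47`**. (helper7, for helper12's `SoF12` and helper54's list of constants)

`Kap7` : the envelope of `So47` at a level = `kap31` in relative columns, inner unit `(Eᵢ, wᵢ)`. `kapL7`, `lo7` : its lower bound at the
middle column `ζc` (`κ₀`); `en7` : it is an `En31` of the outer unit; `cut7` : its reach. `sm7` : the sum field. `a7`, `b7` : the levels of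
`up`, `phi`. `soF7` : `futP74` and `soW74` together, `Γ.r ≥ 0`. `ordS7` : the choice of the far target `v₁` and of the two tune exponents.
-/

set_option autoImplicit false

namespace Pool.Agent.W_7d29a1_C1.N7

open MeasureTheory Finset
open Pool.Agent.W_7d29a1_F Pool.Agent.W_7d29a1_h4g Pool.Agent.W_7d29a1_H Pool.Agent.W_7d29a1_HS
open Pool.Agent.W_7d29a1_C1.K91 (wt wt_pos)
open Pool.Agent.W_7d29a1_C1.K91P (fw)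
open Pool.Agent.W_7d29a1_C1.U16 (lat16)
open Pool.Agent.W_7d29a1_C1.FarK89 (gr gr_nonneg gr_one_le AQ AQ_nonneg)
open Pool.Agent.W_7d29a1_C1.S83 (K5 sumR83)
open Pool.Agent.W_7d29a1_C1.F74 (cl2)
open Pool.Agent.W_7d29a1_C1.Sh21 (SeamIn)
open Pool.Agent.W_7d29a1_C1.H60 (Cx kap_en60)
open Pool.Agent.W_7d29a1_C1.D31 (En31 kap31 kap31_nonneg kap31_of_reach cutn kapo31 kapo31_pos)
open Pool.Agent.W_7d29a1_C1.Fr47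
open Pool.Agent.W_7d29a1_C1.So74

noncomputable section

/-! ### The envelope -/

section Kap

variable {P n : ℕ} {c₁ c₃ Q S E w cen cen' D : ℝ} {x z : ℤ}

/-- **Lower bound of the envelope** inside its reach. -/
theorem kapL7 (hE : 0 ≤ E) (hw : 0 < w) (hQ : 0 ≤ Q) (hS : 0 ≤ S) (hc : 0 ≤ c₃) (h1 : x ≤ z) (h2 : z ≤ x + n)
    (h3 : |((z : ℝ) - cen') - ((x : ℝ) - cen)| ≤ D * w) :
    Real.exp (-(c₃ * D * E)) ≤ kap31 P c₁ c₃ Q S E w cen cen' n x z := by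
  rw [kap31_of_reach h1 h2]
  unfold kapo31
  refine Real.exp_le_exp.2 ?_
  have hA := AQ_nonneg P c₁ Q
  have hg := gr_nonneg P (show 0 ≤ AQ P c₁ Q + |(x : ℝ) - cen| / w by positivity)
  have e1 : 0 ≤ (Q * gr P (AQ P c₁ Q + |(x : ℝ) - cen| / w) + S) * E := by positivity
  have e2 : c₃ * (E / w) * |((z : ℝ) - cen') - ((x : ℝ) - cen)| ≤ c₃ * (E / w) * (D * w) := mul_le_mul_of_nonneg_left h3 (by positivity)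
  have e3 : c₃ * (E / w) * (D * w) = c₃ * D * E := by field_simp
  linarith

/-- The same in a larger unit. -/
theorem kapL7' {Eo : ℝ} (hE : 0 ≤ E) (hEo : E ≤ Eo) (hw : 0 < w) (hQ : 0 ≤ Q) (hS : 0 ≤ S) (hc : 0 ≤ c₃) (hD : 0 ≤ D) (h1 : x ≤ z)
    (h2 : z ≤ x + n) (h3 : |((z : ℝ) - cen') - ((x : ℝ) - cen)| ≤ D * w) :
    Real.exp (-(c₃ * D * Eo)) ≤ kap31 P c₁ c₃ Q S E w cen cen' n x z := by
  refine le_trans (Real.exp_le_exp.2 ?_) (kapL7 hE hw hQ hS hc h1 h2 h3)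
  have := mul_le_mul_of_nonneg_left hEo (mul_nonneg hc hD)
  linarith

end Kap

/-- **THE ENVELOPE OF `So47` AT THE LEVEL `j`** : relative columns, lines `ca`, `cz`, reach `n`. -/
def Kap7 (σ : NS47) (j P n : ℕ) (c₁ c₃ Q S Ei wi ca cz : ℝ) : Prop := ∀ y v : ℤ, σ.κ j y v = kap31 P c₁ c₃ Q S Ei wi ca cz n y v

variable {μ : Measure ℝ} {s : ℝ} {Γ : Cx} {σ : NS47} {j : ℕ} {z : ℕ × ℤ} {ζ : Env}
  {P n₂ n₃ r : ℕ} {c₁ c₃ Q S Ei wi ca cz : ℝ}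

theorem nn7 (h : Kap7 σ j P n₂ c₁ c₃ Q S Ei wi ca cz) (y v : ℤ) : 0 ≤ σ.κ j y v := by
  rw [h]
  exact kap31_nonneg _ _

/-- In real columns. -/
theorem k0_7 (h : Kap7 σ j P n₂ c₁ c₃ Q S Ei wi ca cz) (y v : ℤ) :
    σ.k0 j z y v = kap31 P c₁ c₃ Q S Ei wi (z.2 + ca) (z.2 + cz) n₂ y v := by
  unfold NS47.k0
  rw [h]
  have e2 : ((y - z.2 : ℤ) : ℝ) - ca = (y : ℝ) - (z.2 + ca) := by
    push_cast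
    ring
  have e3 : ((v - z.2 : ℤ) : ℝ) - cz = (v : ℝ) - (z.2 + cz) := by
    push_cast
    ring
  unfold kap31 cutn kapo31
  by_cases h1 : y ≤ v ∧ v ≤ y + n₂
  · rw [if_pos h1, if_pos (show y - z.2 ≤ v - z.2 ∧ v - z.2 ≤ y - z.2 + (n₂ : ℤ) by omega)]
    simp only [e2, e3]
  · rw [if_neg h1, if_neg (show ¬ (y - z.2 ≤ v - z.2 ∧ v - z.2 ≤ y - z.2 + (n₂ : ℤ)) by omega)]

theorem k0f7 (h : Kap7 σ j P n₂ c₁ c₃ Q S Ei wi ca cz) :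
    σ.k0 j z = kap31 P c₁ c₃ Q S Ei wi (z.2 + ca) (z.2 + cz) n₂ := by
  funext y v
  exact k0_7 h y v

/-- **The reach.** -/
theorem cut7 (h : Kap7 σ j P n₂ c₁ c₃ Q S Ei wi ca cz) (y v : ℤ) (hyv : ¬ (y ≤ v ∧ v ≤ y + n₂)) : σ.k0 j z y v = 0 := by
  rw [k0_7 h]
  exact if_neg hyv

/-- **`κ₀`** : lower bound at the middle column, in the outer unit `E`. -/
theorem lo7 (h : Kap7 σ j P n₂ c₁ c₃ Q S Ei wi ca cz) {E D : ℝ} (hE : 0 ≤ Ei) (hEo : Ei ≤ E) (hw : 0 < wi) (hQ : 0 ≤ Q) (hS : 0 ≤ S)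
    (hc : 0 ≤ c₃) (hD : 0 ≤ D)
    (hcell : ∀ y, (σ.α₁ j ≤ y ∧ y ≤ σ.β₁ j) ∨ (σ.α₂ j ≤ y ∧ y ≤ σ.β₂ j) → y ≤ σ.ζc j ∧ σ.ζc j ≤ y + n₂ ∧
      |((σ.ζc j : ℝ) - cz) - ((y : ℝ) - ca)| ≤ D * wi) :
    ∀ y, (σ.α₁ j ≤ y ∧ y ≤ σ.β₁ j) ∨ (σ.α₂ j ≤ y ∧ y ≤ σ.β₂ j) → Real.exp (-(c₃ * D * E)) ≤ σ.κ j y (σ.ζc j) := by
  intro y hy
  obtain ⟨h1, h2, h3⟩ := hcell y hy
  rw [h]
  exact kapL7' hE hEo hw hQ hS hc hD h1 h2 h3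

/-- **The envelope as `En31` of the outer unit** (line of the place `(z.1, z.2 + v)`). -/
theorem en7 (h : Kap7 σ j P n₂ c₁ c₃ Q S Ei wi ca cz) {c c₂ E w ρ D sk : ℝ} {v : ℤ} (hT : σ.T j ≤ z.1) (hE : 0 < E) (hw : 0 < w)
    (hEi : 0 ≤ Ei) (hwi : 0 < wi) (hEE : Ei ≤ E) (hQ : 0 ≤ Q) (hS : 0 ≤ S) (hρ : 0 ≤ ρ) (hD : 0 ≤ D) (hρw : w ≤ ρ * wi)
    (hr : c * (E / w) ≤ c₃ * (Ei / wi)) (hca : |(v : ℝ) - (ca + sl μ s * ((σ.T j : ℝ) - 1))| ≤ D * wi)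
    (hcc : cz - ca = sl μ s * (2 * σ.T j)) (hsk : 0 ≤ sk)
    (hsum : ∀ (cen cen' : ℝ) (J : Finset ℤ) (x : ℤ), ∑ y ∈ J, Real.exp (-(c₂ * (E / w) * |((y : ℝ) - cen') - ((x : ℝ) - cen)|)) ≤
      Real.exp (sk * E)) (I J : Finset ℤ) :
    En31 P c c₂ E w (Q * gr P (AQ P c₁ Q + ρ + D) + S) sk (fun y => lat16 μ s ((z.1 : ℤ), z.2 + v) ((σ.c0 j z : ℤ), y))
      (fun x => lat16 μ s ((z.1 : ℤ), z.2 + v) ((σ.c3 j z : ℤ), x)) (σ.k0 j z) I J := by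
  have hc0 : ((σ.c0 j z : ℕ) : ℤ) = z.1 - σ.T j + 1 := by
    unfold NS47.c0
    omega
  have hc3 : ((σ.c3 j z : ℕ) : ℤ) = z.1 + σ.T j + 1 := by
    unfold NS47.c3
    push_cast
    ring
  have hℓ : ∀ x : ℤ, lat16 μ s ((z.1 : ℤ), z.2 + v) ((σ.c0 j z : ℤ), x) + ((v : ℝ) - (ca + sl μ s * ((σ.T j : ℝ) - 1))) =
      (x : ℝ) - (z.2 + ca) := fun x => by
    unfold lat16
    rw [hc0]
    push_cast
    ring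
  have hℓ' : ∀ x y : ℤ, lat16 μ s ((z.1 : ℤ), z.2 + v) ((σ.c3 j z : ℤ), y) - lat16 μ s ((z.1 : ℤ), z.2 + v) ((σ.c0 j z : ℤ), x) =
      ((y : ℝ) - (z.2 + cz)) - ((x : ℝ) - (z.2 + ca)) := fun x y => by
    unfold lat16
    rw [hc0, hc3]
    have e : cz = ca + sl μ s * (2 * σ.T j) := by linarith
    rw [e]
    push_cast
    ring
  have h1 := kap_en60 (P := P) (n := n₂) (c := c) (c₁ := c₁) (c₂ := c₂) (c₃ := c₃) (Q := Q) (S := S) (E := E) (w := w) (Eᵢ := Ei) (wᵢ := wi)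
    (ρ := ρ) (B := 1) (D := D) (a := (v : ℝ) - (ca + sl μ s * ((σ.T j : ℝ) - 1))) (σ := sk) (cen := z.2 + ca) (cen' := z.2 + cz)
    (ℓ := fun y => lat16 μ s ((z.1 : ℤ), z.2 + v) ((σ.c0 j z : ℤ), y)) (ℓ' := fun x => lat16 μ s ((z.1 : ℤ), z.2 + v) ((σ.c3 j z : ℤ), x))
    (I := I) (J := J) hE hw hEi hwi hQ hS hρ hD hρw (by rwa [one_mul]) hr hca hℓ (fun x y => hℓ' x y) hsk (fun x => by
      refine le_trans (le_of_eq (sum_congr rfl fun y _ => ?_)) (hsum (z.2 + ca) (z.2 + cz) J x)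
      rw [hℓ' x y])
  rw [mul_one] at h1
  rw [k0f7 h]
  exact h1

/-- **The sum field** of the last row. -/
theorem sm7 {E w c₄ s₄ : ℝ} {κ : Pt} {k : ℤ} {J : Finset ℤ}
    (hsum : ∀ (cen cen' : ℝ) (J : Finset ℤ) (x : ℤ), ∑ y ∈ J, Real.exp (-(c₄ * (E / w) * |((y : ℝ) - cen') - ((x : ℝ) - cen)|)) ≤
      Real.exp (s₄ * E)) (a : ℝ) : ∑ y ∈ J, Real.exp (-(c₄ * (E / w) * |lat16 μ s κ (k, y) - a|)) ≤ Real.exp (s₄ * E) := by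
  refine le_trans (le_of_eq (sum_congr rfl fun y _ => ?_)) (hsum (-a) (κ.2 + sl μ s * ((k - κ.1 : ℤ) : ℝ)) J 0)
  unfold lat16
  congr 3
  push_cast
  congr 1
  ring

/-! ### The whole -/

/-- The level of `up`. -/
def a7 (P : ℕ) (Q₃ q₁ sg s₃ : ℝ) : ℝ := Q₃ * gr P 1 + q₁ + sg * 2 + s₃

/-- The level of `phi`. -/
def b7 (P : ℕ) (c₁ Qk Q₃ Kc sk s₃ q₁ sg s₄ : ℝ) : ℝ :=
  (Qk + Q₃) * gr P (AQ P c₁ (Qk + Q₃) + Kc) + (sk + s₃) + q₁ + sg * (Kc + 1) + s₄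

/-- **`ζ ∈ So47`** : last block, envelope, one-sided regularity of the future, seam of P1; `ck` : the letter `c₁` of the envelope of `So47`; `V = e^((a7 + k₅) E)`, `Φ = e^((b7 + k₅) E)`,
`e1 = e^(-(v₁ E))`, `e2 = e^(-(g₂ E))`. -/
theorem soF7 {c ck c₂ c₃' c₄ E w Q₃ s₃ k₅ s₄ q₁ sg Kc ρ D sk g₁ g₂ v₁ : ℝ} {yp v : ℤ} (hT : σ.T j ≤ z.1) (hN : σ.c3 j z + n₃ < Γ.N)
    (r0 : ∀ y, 0 ≤ Γ.r y) (hE : 0 < E) (hw : 0 < w)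
    -- the envelope
    (K7 : Kap7 σ j P n₂ ck c₃ Q S Ei wi ca cz) (hEi : 0 ≤ Ei) (hwi : 0 < wi) (hEE : Ei ≤ E) (hQ : 0 ≤ Q) (hS : 0 ≤ S) (hρ : 0 ≤ ρ)
    (hD : 0 ≤ D) (hρw : w ≤ ρ * wi) (hc₃ : 0 ≤ c₃) (hr : c * (E / w) ≤ c₃ * (Ei / wi))
    (hca : |(v : ℝ) - (ca + sl μ s * ((σ.T j : ℝ) - 1))| ≤ D * wi) (hcc' : cz - ca = sl μ s * (2 * σ.T j)) (hsk : 0 ≤ sk)
    (hcell : ∀ y, (σ.α₁ j ≤ y ∧ y ≤ σ.β₁ j) ∨ (σ.α₂ j ≤ y ∧ y ≤ σ.β₂ j) → y ≤ σ.ζc j ∧ σ.ζc j ≤ y + n₂ ∧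
      |((σ.ζc j : ℝ) - cz) - ((y : ℝ) - ca)| ≤ D * wi)
    -- the rates
    (hc₁ : 0 < c₁) (hc₂ : 0 ≤ c₂) (hc₃' : 0 ≤ c₃') (hcc : c₁ + c₂ + c₃' ≤ c) (hsg : 0 ≤ sg) (h43 : c₄ + sg ≤ c₃') (h2s : c₂ + sg ≤ c)
    (sum2 : ∀ (cen cen' : ℝ) (J : Finset ℤ) (x : ℤ), ∑ y ∈ J, Real.exp (-(c₂ * (E / w) * |((y : ℝ) - cen') - ((x : ℝ) - cen)|)) ≤
      Real.exp (sk * E))
    (sum4 : ∀ (cen cen' : ℝ) (J : Finset ℤ) (x : ℤ), ∑ y ∈ J, Real.exp (-(c₄ * (E / w) * |((y : ℝ) - cen') - ((x : ℝ) - cen)|)) ≤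
      Real.exp (s₄ * E))
    -- the last block
    (en3 : ∀ I J : Finset ℤ, En31 P c c₂ E w Q₃ s₃ (fun x => lat16 μ s ((z.1 : ℤ), z.2 + v) ((σ.c3 j z : ℤ), x))
      (fun y => lat16 μ s ((z.1 : ℤ), z.2 + v) (((σ.c3 j z + n₃ : ℕ) : ℤ), y)) (K5 μ s Γ.h ζ Γ.p Γ.M (σ.c3 j z) n₃) I J)
    (lo5 : ∀ x y : ℤ, |lat16 μ s ((z.1 : ℤ), z.2 + v) ((σ.c3 j z : ℤ), x)| ≤ w →
      |lat16 μ s ((z.1 : ℤ), z.2 + v) (((σ.c3 j z + n₃ : ℕ) : ℤ), y)| ≤ w →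
      Real.exp (-(k₅ * E)) ≤ K5 μ s Γ.h ζ Γ.p Γ.M (σ.c3 j z) n₃ x y)
    -- the future
    (hyp : yp ∈ Icc 0 Γ.hi) (hyw : |lat16 μ s ((z.1 : ℤ), z.2 + v) (((σ.c3 j z + n₃ : ℕ) : ℤ), yp)| ≤ w)
    (LP : ∀ z' : ℤ, |(z' : ℝ) - yp| ≤ n₂ + n₃ → Fe Γ σ j z n₃ ζ z' ≤
      Real.exp (q₁ * E + sg * (E / w) * |(z' : ℝ) - yp|) * Fe Γ σ j z n₃ ζ yp)
    (cells : ∀ x ∈ cl2 (z.2 + σ.α₁ j) (z.2 + σ.β₁ j) (z.2 + σ.α₂ j) (z.2 + σ.β₂ j),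
      |lat16 μ s ((z.1 : ℤ), z.2 + v) ((σ.c0 j z : ℤ), x)| ≤ Kc * w ∧ x ≤ yp ∧ yp ≤ x + n₂ + n₃)
    (win : ∀ u ∈ Icc (z.2 + σ.ζa j) (z.2 + σ.ζb j), |lat16 μ s ((z.1 : ℤ), z.2 + v) ((σ.c3 j z : ℤ), u)| ≤ w ∧
      u ∈ Icc (0 : ℤ) (Γ.k + σ.c3 j z))
    (zcw : |lat16 μ s ((z.1 : ℤ), z.2 + v) ((σ.c3 j z : ℤ), z.2 + σ.ζc j)| ≤ w)
    -- the seam
    (seam : ∀ ph : ℤ → ℝ, (∀ y ∈ Icc (0 : ℤ) (Γ.k + σ.c0 j z) \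
          (Icc (mid z.2 (σ.α₁ j) (σ.β₁ j) - r) (mid z.2 (σ.α₁ j) (σ.β₁ j) + r + 1) ∪
            Icc (mid z.2 (σ.α₂ j) (σ.β₂ j) - r) (mid z.2 (σ.α₂ j) (σ.β₂ j) + r + 1)),
        ph y * Ge μ s Γ σ j z n₃ ζ (z.2 + σ.ζc j) ≤ ∑ v ∈ Icc (0 : ℤ) (Γ.k + σ.c3 j z), σ.k0 j z y v * Ge μ s Γ σ j z n₃ ζ v) →
      SeamIn 0 (Γ.k + σ.c0 j z) (fw (wt ζ) Γ.p Cx.l (σ.c0 j z)) (fw (wt ζ) Γ.p Γ.r (σ.c0 j z))
        (mid z.2 (σ.α₁ j) (σ.β₁ j) - r) (mid z.2 (σ.α₁ j) (σ.β₁ j) + r + 1) (mid z.2 (σ.α₂ j) (σ.β₂ j) - r)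
        (mid z.2 (σ.α₂ j) (σ.β₂ j) + r + 1) ph (Real.exp (-(v₁ * E))) (Real.exp (-(g₁ * E))))
    (h1 : 2 * (r : ℤ) + 2 ≤ σ.β₁ j - σ.α₁ j) (h2 : 2 * (r : ℤ) + 2 ≤ σ.β₂ j - σ.α₂ j)
    (gap : σ.β₁ j < σ.α₂ j) (lo : 0 ≤ z.2 + σ.α₁ j) (hi : z.2 + σ.β₂ j ≤ Γ.k + σ.c0 j z)
    (hm : z.2 + σ.ζc j ∈ Icc (0 : ℤ) (Γ.k + σ.c3 j z))
    -- the numbers
    (q0 : 0 ≤ Q₃) (k50 : 0 ≤ k₅) (s30 : 0 ≤ s₃) (s40 : 0 ≤ s₄) (q10 : 0 ≤ q₁) (Kc0 : 0 ≤ Kc)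
    (nV : σ.V j = Real.exp ((a7 P Q₃ q₁ sg s₃ + k₅) * E))
    (nΦ : σ.Φ j = Real.exp ((b7 P c₁ (Q * gr P (AQ P ck Q + ρ + D) + S) Q₃ Kc sk s₃ q₁ sg s₄ + k₅) * E))
    (n1 : σ.e1 j = Real.exp (-(v₁ * E))) (n2 : σ.e2 j = Real.exp (-(g₂ * E))) (hg : 0 ≤ g₁)
    (hv₁ : g₁ + (b7 P c₁ (Q * gr P (AQ P ck Q + ρ + D) + S) Q₃ Kc sk s₃ q₁ sg s₄ + k₅) + c₃ * D ≤ v₁)
    (h3 : Real.log 3 ≤ (g₁ - g₂) * E) : ζ ∈ So47 Γ σ j z := by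
  have hA := AQ_nonneg P ck Q
  have hQk : 0 ≤ Q * gr P (AQ P ck Q + ρ + D) + S := by
    have := gr_nonneg P (show 0 ≤ AQ P ck Q + ρ + D by positivity)
    positivity
  have hb : 0 ≤ b7 P c₁ (Q * gr P (AQ P ck Q + ρ + D) + S) Q₃ Kc sk s₃ q₁ sg s₄ + k₅ := by
    unfold b7
    have hA' := AQ_nonneg P c₁ (Q * gr P (AQ P ck Q + ρ + D) + S + Q₃)
    have := gr_nonneg P (show 0 ≤ AQ P c₁ (Q * gr P (AQ P ck Q + ρ + D) + S + Q₃) + Kc by positivity)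
    have h5 : 0 ≤ Q * gr P (AQ P ck Q + ρ + D) + S + Q₃ := by linarith
    have h6 := mul_nonneg h5 this
    have h7 : 0 ≤ sg * (Kc + 1) := by positivity
    linarith
  obtain ⟨f1, f2, f3, f4⟩ := futP74 (κ := ((z.1 : ℤ), z.2 + v)) (yp := yp) hE hw hc₁ hc₂ hc₃' hcc hsg h43 h2s en3 lo5
    (en7 K7 hT hE hw hEi hwi hEE hQ hS hρ hD hρw hr hca hcc' hsk sum2) (fun y v => cut7 K7 y v) (fun a => sm7 sum4 a) hyw LP cells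
    (fun u hu => (win u hu).1) zcw
  have l0 : ∀ y, 0 ≤ Cx.l y := fun y => by
    unfold Cx.l
    split_ifs <;> norm_num
  have hΦ : 1 ≤ σ.Φ j := by
    rw [nΦ]
    exact Real.one_le_exp (mul_nonneg hb hE.le)
  have m1 := mid74 (z := z.2) h1
  have m2 := mid74 (z := z.2) h2
  refine soW74 hT hN l0 r0 (nn7 K7) hΦ seam m1.1 m1.2 m2.1 m2.2 gap lo hi hm (fun u hu => (win u hu).2) (Real.exp_pos (-(c₃ * D * E)))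
    (lo7 K7 hEi hEE hwi hQ hS hc₃ hD hcell) hyp f1 f2 f3 f4 (Real.exp_pos _).le (Real.exp_pos _).le ?_ ?_ (Real.exp_pos _).le
    (Real.exp_pos _).le n1.ge ?_
  · rw [nV]
    exact numV74 hE.le le_rfl
  · rw [nΦ]
    exact numV74 hE.le le_rfl
  · rw [nΦ, n2]
    exact numE74 hE.le hg hv₁ h3

/-- **The choice of the tune exponents and of the far target** (`X` = everything else which `v₁` has to beat). -/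
theorem ordS7 {kst φ k : ℝ} (hk : 0 < kst) (hφ : 0 ≤ φ) (hk0 : 0 ≤ k) (X : ℝ) : ∃ g₁ g₂ v₁ : ℝ, 0 < g₂ ∧ g₂ < g₁ ∧ g₁ = kst / 4 ∧
    g₂ = kst / 8 ∧ X ≤ v₁ ∧ g₁ + φ + k ≤ v₁ ∧ 0 ≤ v₁ ∧ ∀ E : ℝ, 16 / kst ≤ E → Real.log 3 ≤ (g₁ - g₂) * E := by
  refine ⟨kst / 4, kst / 8, max X (kst / 4 + φ + k), by positivity, by linarith, rfl, rfl, le_max_left _ _, le_max_right _ _,
    (by positivity : (0 : ℝ) ≤ kst / 4 + φ + k).trans (le_max_right _ _), fun E hE => ?_⟩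
  have h1 : Real.log 3 ≤ 2 := by
    have := Real.log_le_sub_one_of_pos (show (0 : ℝ) < 3 by norm_num)
    linarith
  rw [div_le_iff₀ hk] at hE
  linarith

end

end Pool.Agent.W_7d29a1_C1.N7
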