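import Pool.Agent.W_7d29a1_C1.NumE32
import Pool.Agent.W_7d29a1_C1.NumL32
import Pool.Agent.W_7d29a1_C1.Top73

/-!
MP_7d29a1_pr, [C1] attractor route, SEP: THE WINDOW OF THE EXCLUSION FROM ITS PIECES, WITH ALL NUMBERS. (helper32)

* `wn32` : `Wn53` from luck and pinching at the row `a`, and the sets `St`, `Fw` of the old environment;
* `top_num` : a typical block above (Top73), in exponents;
* `ex_num` : the inequalities of the exponents which give `Ex32` (NumE32), `E u ≤ X0 E`;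
* `wn_all32` : lane block, top block, gate slab, `St`, `Fw` together: `Wn53` with the numbers, and `Ex32`;
* `ord2_32` : the order of the constants; `del32` : the rank defect.
-/

set_option autoImplicit false

namespace Pool.Agent.W_7d29a1_C1.NW32

open Finset MeasureTheory
open Pool.Agent.W_7d29a1_F Pool.Agent.W_7d29a1_h4g Pool.Agent.W_7d29a1_H Pool.Agent.W_7d29a1_HS
open Pool.Agent.W_7d29a1_C1.K91 (wt wt_pos)
open Pool.Agent.W_7d29a1_C1.U16 (ker)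
open Pool.Agent.W_7d29a1_C1.H60
open Pool.Agent.W_7d29a1_C1.E53
open Pool.Agent.W_7d29a1_C1.SD53
open Pool.Agent.W_7d29a1_C1.Lb76
open Pool.Agent.W_7d29a1_C1.T73
open Pool.Agent.W_7d29a1_C1.Nl32
open Pool.Agent.W_7d29a1_C1.NE32

noncomputable section

variable {Γ : Cx} {ω ωA ωM ω' ω₂ ω₃ : Env} {a₀ a a₁ b₁ b b' : ℕ} {Mi Mo Ce C1 C2 CB MA MB NA Mi₀ Mo₀ : Set ℤ} {Zn Fs : Set (ℕ × ℤ)}
  {g G Y Y' ee δ t t' : ℝ}

/-- **The window from luck at the row `a`.** -/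
theorem wn32 (hL : Luk Γ a b Mi Mo Ce g G Y ω ω') (hP : Pin76 Γ a a₁ b₁ C1 C2 Y' ee ω ω') (ht : 0 ≤ t) (ht' : 0 ≤ t') (h1 : t < 1)
    (hSt : ∀ k q, (k, q) ∈ Zn → k ≤ a → QA Γ ω a Miᶜ k q ≤ t * bW Γ ω k q)
    (hFw : ∀ k q, (k, q) ∈ Fs → k ≤ a → QA Γ ω a Mo k q ≤ t' * bW Γ ω k q) (hδ : 0 ≤ δ)
    (cr : ∀ z ∈ C1, ∀ z' ∈ C1, z < z' → ∀ x ∈ C2, ∀ y ∈ C2, x < y →
      ker (wt ω') Γ.p a₁ (b₁ - a₁) z x * ker (wt ω') Γ.p a₁ (b₁ - a₁) z' y -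
        ker (wt ω') Γ.p a₁ (b₁ - a₁) z y * ker (wt ω') Γ.p a₁ (b₁ - a₁) z' x ≤
        δ * (ker (wt ω') Γ.p a₁ (b₁ - a₁) z x * ker (wt ω') Γ.p a₁ (b₁ - a₁) z' y)) :
    Wn53 Γ a a₁ b₁ C1 C2 Zn Fs ((1 - t) * g) Y' ee (G * t' + Y) δ ω ω' := by
  have e0 : Real.exp (2 * 0) = 1 := by rw [mul_zero, Real.exp_zero]
  have en : Real.exp (-0) = 1 := by rw [neg_zero, Real.exp_zero]
  have h2 := Wn53.of (Zn := Zn) (Fs := Fs) (Z := Mi) (Z' := Mo) (D := 0) (s := 0) (s' := 0) (t := t) (t' := t') (a := a) le_rfl hL hP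
    (fun _ _ _ => rfl) le_rfl le_rfl ht ht' (fun z => by rw [Real.exp_zero, one_mul]) (fun z => by rw [Real.exp_zero, one_mul])
    (fun z hz => by rw [QA_self, tf_not (show ¬ z ∈ Miᶜ from fun h' => h' hz), zero_mul])
    (fun z hz => by rw [QA_self, tf_not hz, zero_mul]) hSt hFw (by rw [e0]; linarith) hδ cr
  rw [e0, en, Real.exp_zero] at h2
  simp only [one_mul, mul_one, zero_add] at h2
  exact h2

variable {E x u y X d3 : ℝ}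

/-- **A typical block above.** -/
theorem top_num (h : Luk Γ a b Mi Mo Ce (Real.exp (x * E)) (Real.exp (u * E)) (Real.exp (y * E)) ω ω₃)
    (hP : Pin76 Γ a a₁ b₁ C1 C2 (Real.exp (y * E)) (Real.exp (-X * E)) ω ω₃) (T : Tp73 Γ b' (Real.exp (d3 * E)) ω₃ ω') (hb : b ≤ b')
    (hb1 : b₁ ≤ b') :
    Luk Γ a b Mi Mo Ce (Real.exp ((x - d3) * E)) (Real.exp ((u + d3) * E)) (Real.exp ((y + d3) * E)) ω ω' ∧
      Pin76 Γ a a₁ b₁ C1 C2 (Real.exp ((y + d3) * E)) (Real.exp (-(X - 2 * d3) * E)) ω ω' := by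
  have h1 := luk_top73 h T hb
  have h2 := pin_top73 hP T hb1
  have e1 : Real.exp (x * E) / Real.exp (d3 * E) = Real.exp ((x - d3) * E) := by
    rw [← Real.exp_sub]
    congr 1
    ring
  have e2 : Real.exp (-X * E) * Real.exp (d3 * E) ^ 2 = Real.exp (-(X - 2 * d3) * E) := by
    rw [← Real.exp_nat_mul, ← Real.exp_add]
    congr 1
    push_cast
    ring
  rw [e1, mul_exp32, mul_exp32] at h1
  rw [mul_exp32, e2] at h2
  exact ⟨h1, h2⟩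

variable {Eu : ℕ → ℝ} {L X0 xg yp xe uG fw yl : ℝ} {v : ℕ}

/-- **The exponents of `Ex32`.** -/
theorem ex_num (hE : 1 ≤ E) (hEu : Eu v ≤ X0 * E) (h48 : 48 ≤ Eu v) (ht : t ≤ 1 / 2) (ht' : t' ≤ Real.exp (-fw * E))
    (hδ : δ ≤ Real.exp (-L) / 8) (c1 : yp + X0 / 4 + 1 ≤ xg) (c2 : X0 / 4 ≤ xe) (c3 : uG - fw + X0 / 4 + 2 ≤ xg)
    (c4 : yl + X0 / 4 + 2 ≤ xg) :
    Ex32 Eu L v ((1 - t) * Real.exp (xg * E)) (Real.exp (yp * E)) (Real.exp (-xe * E)) (Real.exp (uG * E) * t' + Real.exp (yl * E)) δ := by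
  have hg : Real.exp ((xg - 1) * E) ≤ (1 - t) * Real.exp (xg * E) := by
    have h1 : Real.exp ((xg - 1) * E) * Real.exp E = Real.exp (xg * E) := by
      rw [← Real.exp_add]
      congr 1
      ring
    have h2 := two_le_exp hE
    have h3 := Real.exp_pos ((xg - 1) * E)
    have h4 : 2 * Real.exp ((xg - 1) * E) ≤ Real.exp (xg * E) := by
      rw [← h1, mul_comm]
      exact mul_le_mul_of_nonneg_left h2 h3.le
    have h5 := mul_le_mul_of_nonneg_right (show 1 / 2 ≤ 1 - t by linarith) (Real.exp_pos (xg * E)).le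
    linarith
  have hq : Real.exp (-(X0 / 4) * E) ≤ Real.exp (-(Eu v / 4)) := Real.exp_le_exp.2 (by linarith)
  have key : ∀ z, z + X0 / 4 + 1 ≤ xg → Real.exp (z * E) ≤ Real.exp (-(Eu v / 4)) * ((1 - t) * Real.exp (xg * E)) := by
    intro z hz
    have h1 : Real.exp (z * E) ≤ Real.exp (-(X0 / 4) * E) * Real.exp ((xg - 1) * E) := by
      rw [mul_exp32]
      exact Real.exp_le_exp.2 (mul_le_mul_of_nonneg_right (by linarith) (by linarith))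
    exact h1.trans (mul_le_mul hq hg (Real.exp_pos _).le (Real.exp_pos _).le)
  refine
    { g0 := lt_of_lt_of_le (Real.exp_pos _) hg
      Y_le := key yp c1
      ee_le := (Real.exp_le_exp.2 (mul_le_mul_of_nonneg_right (by linarith) (by linarith))).trans hq
      F_le := ?_
      δ_le := hδ
      E_ge := h48 }
  have h1 : Real.exp (uG * E) * t' ≤ Real.exp ((uG - fw) * E) := by
    have h2 := mul_le_mul_of_nonneg_left ht' (Real.exp_pos (uG * E)).le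
    rw [mul_exp32] at h2
    exact h2
  have h2 := add_exp32 (E := E) hE (x := uG - fw) (y := yl) (z := xg - X0 / 4 - 2) (by linarith) (by linarith)
  exact (add_le_add h1 le_rfl).trans (h2.trans (key _ (by linarith)))

variable {gA GA YA gB GB YB g1 RM xA uA yA xB uB yB q1 rM g0 RG sG q0 r z : ℝ}

/-- **ALL TOGETHER.** `ω` = old, `ω₂` = the gate slab new, `ω₃` = gate slab and lane block new, `ω'` = everything new. -/
theorem wn_all32 (hE : 1 ≤ E) (B : Blk76 Γ ω₂ ωA ωM ω₃ a a₁ b₁ b MA NA C1 MB C2 CB gA GA YA gB GB YB g1 RM)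
    (hgA : Real.exp (xA * E) ≤ gA) (hGA : GA ≤ Real.exp (uA * E)) (hYA : YA ≤ Real.exp (yA * E)) (hgB : Real.exp (xB * E) ≤ gB)
    (hGB : GB ≤ Real.exp (uB * E)) (hYB : YB ≤ Real.exp (yB * E)) (hyuB : yB ≤ uB) (hyuA : yA ≤ uA) (hg1 : Real.exp (-q1 * E) ≤ g1)
    (hRM : RM ≤ Real.exp (rM * E)) (hx : yA + 1 ≤ xA)
    (T : Tp73 Γ b' (Real.exp (d3 * E)) ω₃ ω') (hb1 : b₁ ≤ b')
    (S : Gs76 Γ ω ω₂ a₀ a Mi₀ Mo₀ MA NA g0 RG sG)
    (hq : Real.exp (-q0 * E) ≤ g0) (hR : RG ≤ Real.exp (r * E)) (hs : sG ≤ Real.exp (-z * E))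
    (ht : 0 ≤ t) (ht' : 0 ≤ t') (ht2 : t ≤ 1 / 2)
    (hSt : ∀ k q, (k, q) ∈ Zn → k ≤ a₀ → QA Γ ω a₀ Mi₀ᶜ k q ≤ t * bW Γ ω k q)
    (hFw : ∀ k q, (k, q) ∈ Fs → k ≤ a₀ → QA Γ ω a₀ Mo₀ k q ≤ t' * bW Γ ω k q) (hδ : 0 ≤ δ)
    (cr : ∀ z ∈ C1, ∀ z' ∈ C1, z < z' → ∀ x ∈ C2, ∀ y ∈ C2, x < y →
      ker (wt ω') Γ.p a₁ (b₁ - a₁) z x * ker (wt ω') Γ.p a₁ (b₁ - a₁) z' y -
        ker (wt ω') Γ.p a₁ (b₁ - a₁) z y * ker (wt ω') Γ.p a₁ (b₁ - a₁) z' x ≤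
        δ * (ker (wt ω') Γ.p a₁ (b₁ - a₁) z x * ker (wt ω') Γ.p a₁ (b₁ - a₁) z' y)) :
    Wn53 Γ a₀ a₁ b₁ C1 C2 Zn Fs ((1 - t) * Real.exp ((xA + xB - q1 - 1 - d3 - q0) * E)) (Real.exp ((uB + rM + yA + 1 + d3 + r) * E))
      (Real.exp (-(xB - q1 - yB - rM - 2 * d3) * E))
      (Real.exp ((uB + rM + uA + 1 + d3 + r + 1) * E) * t' +
        Real.exp ((max (uB + rM + uA + 1 + d3 - z) (uB + rM + yA + 1 + d3 + r) + 1) * E)) δ ω ω' := by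
  obtain ⟨h1, h2⟩ := blk_num hE B hgA hGA hYA hgB hGB hYB hyuB hg1 hRM hx
  obtain ⟨h3, h4⟩ := top_num h1 h2 T hb1 hb1
  have h5 := gs_num hE S h3 hq hR hs (by linarith)
  have h6 := gs_pin S h4 hR
  exact wn32 h5 h6 ht ht' (by linarith) hSt hFw hδ cr

/-- **The numbers of `wn_all32` are those of `Ex32`.** -/
theorem ex_all32 (hE : 1 ≤ E) (hEu : Eu v ≤ X0 * E) (h48 : 48 ≤ Eu v) (ht : t ≤ 1 / 2) (ht' : t' ≤ Real.exp (-fw * E))
    (hδ : δ ≤ Real.exp (-L) / 8)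
    (c1 : uB + rM + yA + 1 + d3 + r + X0 / 4 + 1 ≤ xA + xB - q1 - 1 - d3 - q0)
    (c2 : X0 / 4 ≤ xB - q1 - yB - rM - 2 * d3)
    (c3 : uB + rM + uA + 1 + d3 + r + 1 - fw + X0 / 4 + 2 ≤ xA + xB - q1 - 1 - d3 - q0)
    (c4 : max (uB + rM + uA + 1 + d3 - z) (uB + rM + yA + 1 + d3 + r) + 1 + X0 / 4 + 2 ≤ xA + xB - q1 - 1 - d3 - q0) :
    Ex32 Eu L v ((1 - t) * Real.exp ((xA + xB - q1 - 1 - d3 - q0) * E)) (Real.exp ((uB + rM + yA + 1 + d3 + r) * E))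
      (Real.exp (-(xB - q1 - yB - rM - 2 * d3) * E))
      (Real.exp ((uB + rM + uA + 1 + d3 + r + 1) * E) * t' +
        Real.exp ((max (uB + rM + uA + 1 + d3 - z) (uB + rM + yA + 1 + d3 + r) + 1) * E)) δ :=
  ex_num hE hEu h48 ht ht' hδ c1 c2 c3 c4

/-- **THE ORDER OF THE CONSTANTS.** -/
theorem ord2_32 (QA QB q1 yA yB rM q0 r d3 X0 : ℝ) : ∃ LB₀ : ℝ, ∀ LB : ℝ, LB₀ ≤ LB → ∀ uB : ℝ, ∃ LA₀ : ℝ, ∀ LA : ℝ, LA₀ ≤ LA →
    ∀ uA : ℝ, ∃ z₀ f₀ : ℝ, ∀ z fw : ℝ, z₀ ≤ z → f₀ ≤ fw →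
      yA + 1 ≤ LA - QA ∧
      uB + rM + yA + 1 + d3 + r + X0 / 4 + 1 ≤ LA - QA + (LB - QB) - q1 - 1 - d3 - q0 ∧
      X0 / 4 ≤ LB - QB - q1 - yB - rM - 2 * d3 ∧
      uB + rM + uA + 1 + d3 + r + 1 - fw + X0 / 4 + 2 ≤ LA - QA + (LB - QB) - q1 - 1 - d3 - q0 ∧
      max (uB + rM + uA + 1 + d3 - z) (uB + rM + yA + 1 + d3 + r) + 1 + X0 / 4 + 2 ≤ LA - QA + (LB - QB) - q1 - 1 - d3 - q0 := by
  refine ⟨QB + q1 + yB + rM + 2 * d3 + X0 / 4, fun LB hLB uB => ⟨max (QA + yA + 1)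
    (QA - (LB - QB) + q1 + 1 + d3 + q0 + (uB + rM + yA + 1 + d3 + r + 1 + X0 / 4 + 2)), fun LA hLA uA =>
    ⟨uB + rM + uA + 1 + d3 + 1 + X0 / 4 + 2 - (LA - QA + (LB - QB) - q1 - 1 - d3 - q0),
     uB + rM + uA + 1 + d3 + r + 1 + X0 / 4 + 2 - (LA - QA + (LB - QB) - q1 - 1 - d3 - q0), fun z fw hz hf => ?_⟩⟩⟩
  have h1 := (le_max_left _ _).trans hLA
  have h2 := (le_max_right _ _).trans hLA
  refine ⟨by linarith, by linarith, by linarith, by linarith, ?_⟩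
  rw [← max_add_add_right, ← max_add_add_right, ← max_add_add_right]
  exact max_le (by linarith) (by linarith)

/-- **The rank defect** `exp (- T ^ c')` against `κ3 = exp (- K log n)`, `T ≥ n ^ e`. -/
theorem del32 {K e c' : ℝ} (he : 0 < e) (hc : 0 < c') : ∃ n₁ : ℕ, ∀ n : ℕ, n₁ ≤ n → ∀ T : ℕ, (n : ℝ) ^ e ≤ T →
    Real.exp (-(T : ℝ) ^ c') ≤ Real.exp (-(K * Real.log n)) / 8 := by
  obtain ⟨n₂, H2⟩ := Pool.Agent.W_7d29a1_C1.N49.exists_log_le (max K 0 + 3) (mul_pos he hc)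
  refine ⟨max n₂ 3, fun n hn T hT => ?_⟩
  have h3 : 3 ≤ n := (le_max_right _ _).trans hn
  have hn3 : (3 : ℝ) ≤ n := by exact_mod_cast h3
  have h2 := H2 n (by omega)
  have hl : 1 ≤ Real.log n := by
    rw [Real.le_log_iff_exp_le (by linarith)]
    have := Real.exp_one_lt_d9
    linarith
  have h4 : (n : ℝ) ^ (e * c') ≤ (T : ℝ) ^ c' := by
    rw [Real.rpow_mul (by linarith)]
    exact Real.rpow_le_rpow (Real.rpow_nonneg (by linarith) _) hT hc.le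
  have h5 : K * Real.log n ≤ max K 0 * Real.log n := mul_le_mul_of_nonneg_right (le_max_left _ _) (by linarith)
  have h6 : (max K 0 + 3) * Real.log n = max K 0 * Real.log n + 3 * Real.log n := by ring
  obtain ⟨A, hA⟩ : ∃ A : ℝ, A = (T : ℝ) ^ c' := ⟨_, rfl⟩
  rw [← hA] at h4 ⊢
  have h7 : K * Real.log n + 3 ≤ A := by linarith
  have h8 : Real.exp (-A) ≤ Real.exp (-(K * Real.log n)) * Real.exp (-3) := by
    rw [← Real.exp_add]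
    exact Real.exp_le_exp.2 (by linarith)
  have h9 := mul_le_mul_of_nonneg_left exp3 (Real.exp_pos (-(K * Real.log n))).le
  have h10 := Real.exp_pos (-(K * Real.log n))
  linarith

end

end Pool.Agent.W_7d29a1_C1.NW32
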