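import Mathlib

/-!
Both halves (MP_7d29a1_pr), attractor route [C1], SEP: NUMBERS OF THE EXCLUSIONS. (helper53, after helper6)

`E v`: the energy of the slab `v`, growing geometrically. In one residue class mod `q` the inner slabs cost a small part of
the energy of the slab `u` (`sum_mod`, `exists_q`); `kap_le`: the probability to miss the lucky slab.
-/

set_option autoImplicit false

namespace Pool.Agent.W_7d29a1_C1.E53

open Finset

/-- The inner slabs of one residue class. -/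
theorem sum_mod {E : ℕ → ℝ} {C r : ℝ} (hC : 0 ≤ C) (hr0 : 0 ≤ r) (hr : r < 1) (hE0 : ∀ v, 0 ≤ E v)
    (hE : ∀ v u, v ≤ u → E v ≤ C * r ^ (u - v) * E u) {q : ℕ} (hq : 0 < q) {S : Finset ℕ} {u : ℕ}
    (hS : ∀ v ∈ S, v < u ∧ v % q = u % q) : ∑ v ∈ S, E v ≤ C * (r ^ q / (1 - r ^ q)) * E u := by
  have hq1 : r ^ q < 1 := pow_lt_one₀ hr0 hr hq.ne'
  have hq0 : 0 ≤ r ^ q := pow_nonneg hr0 q
  have key : ∀ v ∈ S, ∃ j : ℕ, 1 ≤ j ∧ u = v + q * j := by
    intro v hv
    obtain ⟨h1, h2⟩ := hS v hv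
    have h3 : q ∣ u - v := (Nat.modEq_iff_dvd' h1.le).1 h2
    obtain ⟨j, hj⟩ := h3
    refine ⟨j, ?_, by omega⟩
    rcases Nat.eq_zero_or_pos j with h | h
    · subst h
      rw [Nat.mul_zero] at hj
      omega
    · exact h
  choose! f hf1 hf2 using key
  have inj : Set.InjOn f S := by
    intro v hv w hw hvw
    have a1 := hf2 v hv
    have a2 := hf2 w hw
    rw [hvw] at a1
    omega
  have h1 : ∑ v ∈ S, E v ≤ ∑ v ∈ S, C * E u * (r ^ q) ^ f v := by
    refine sum_le_sum fun v hv => ?_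
    have a1 := hE v u (hS v hv).1.le
    have a2 : u - v = q * f v := by
      have := hf2 v hv
      omega
    rw [a2, pow_mul] at a1
    linarith
  have h2 : ∑ v ∈ S, C * E u * (r ^ q) ^ f v ≤ C * E u * (r ^ q / (1 - r ^ q)) := by
    rw [← mul_sum]
    refine mul_le_mul_of_nonneg_left ?_ (mul_nonneg hC (hE0 u))
    rw [← sum_image (f := fun j => (r ^ q) ^ j) inj]
    have h3 : S.image f ⊆ (range (u + 1)).filter (fun j => 1 ≤ j) := by
      intro j hj
      obtain ⟨v, hv, rfl⟩ := mem_image.1 hj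
      have a1 := hf2 v hv
      have a2 := hf1 v hv
      refine mem_filter.2 ⟨mem_range.2 ?_, a2⟩
      have : f v ≤ q * f v := Nat.le_mul_of_pos_left _ hq
      omega
    refine (sum_le_sum_of_subset_of_nonneg h3 fun j _ _ => pow_nonneg hq0 j).trans ?_
    have h4 : ∑ j ∈ (range (u + 1)).filter (fun j => 1 ≤ j), (r ^ q) ^ j = r ^ q * ∑ j ∈ range u, (r ^ q) ^ j := by
      rw [mul_sum]
      refine (sum_nbij (fun j => j + 1) ?_ ?_ ?_ ?_).symm
      · intro j hj
        exact mem_filter.2 ⟨mem_range.2 (by have := mem_range.1 hj; omega), by omega⟩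
      · intro a _ b _ hab
        simpa using hab
      · intro j hj
        obtain ⟨a, b⟩ := mem_filter.1 (mem_coe.1 hj)
        exact ⟨j - 1, mem_coe.2 (mem_range.2 (by have := mem_range.1 a; omega)), by show j - 1 + 1 = j; omega⟩
      · intro j _
        rw [pow_succ, mul_comm]
    rw [h4, geom_sum_eq hq1.ne]
    have h5 : ((r ^ q) ^ u - 1) / (r ^ q - 1) ≤ 1 / (1 - r ^ q) := by
      rw [← neg_div_neg_eq, neg_sub, neg_sub]
      refine div_le_div_of_nonneg_right ?_ (by linarith)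
      have := pow_nonneg hq0 u
      linarith
    calc r ^ q * (((r ^ q) ^ u - 1) / (r ^ q - 1)) ≤ r ^ q * (1 / (1 - r ^ q)) := mul_le_mul_of_nonneg_left h5 hq0
      _ = _ := by ring
  calc ∑ v ∈ S, E v ≤ _ := h1
    _ ≤ _ := h2
    _ = _ := by ring

/-- The modulus. -/
theorem exists_q {C r ε : ℝ} (hr0 : 0 ≤ r) (hr : r < 1) (hε : 0 < ε) :
    ∃ q₀ : ℕ, 0 < q₀ ∧ ∀ q, q₀ ≤ q → C * (r ^ q / (1 - r ^ q)) ≤ ε ∧ C * r ^ q ≤ ε := by
  have h1 : Filter.Tendsto (fun q : ℕ => r ^ q) Filter.atTop (nhds 0) := tendsto_pow_atTop_nhds_zero_of_lt_one hr0 hr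
  have h2 : Filter.Tendsto (fun q : ℕ => C * (r ^ q / (1 - r ^ q))) Filter.atTop (nhds (C * (0 / (1 - 0)))) :=
    (h1.div (tendsto_const_nhds.sub h1) (by norm_num)).const_mul C
  have h3 : Filter.Tendsto (fun q : ℕ => C * r ^ q) Filter.atTop (nhds (C * 0)) := h1.const_mul C
  simp only [zero_div, mul_zero] at h2 h3
  have h4 := (h2.eventually (eventually_le_nhds hε)).and (h3.eventually (eventually_le_nhds hε))
  obtain ⟨q₀, hq₀⟩ := Filter.eventually_atTop.1 h4
  exact ⟨q₀ + 1, by omega, fun q hq => hq₀ q (by omega)⟩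

/-- The window of the move is further inside by `q`. -/
theorem sum_mod_insert {E : ℕ → ℝ} {C r : ℝ} (hC : 0 ≤ C) (hr0 : 0 ≤ r) (hr : r < 1) (hE0 : ∀ v, 0 ≤ E v)
    (hE : ∀ v u, v ≤ u → E v ≤ C * r ^ (u - v) * E u) {q : ℕ} (hq : 0 < q) {S : Finset ℕ} {u s : ℕ}
    (hS : ∀ v ∈ S, v < u ∧ v % q = u % q) (hs : s + q ≤ u) :
    ∑ v ∈ insert s S, E v ≤ (C * (r ^ q / (1 - r ^ q)) + C * r ^ q) * E u := by
  have h1 := sum_mod hC hr0 hr hE0 hE hq hS
  have h2 : E s ≤ C * r ^ q * E u := by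
    refine (hE s u (by omega)).trans ?_
    refine mul_le_mul_of_nonneg_right (mul_le_mul_of_nonneg_left ?_ hC) (hE0 u)
    exact pow_le_pow_of_le_one hr0 hr.le (by omega)
  have h3 : ∑ v ∈ insert s S, E v ≤ E s + ∑ v ∈ S, E v := by
    by_cases h : s ∈ S
    · rw [insert_eq_of_mem h]
      have := hE0 s
      linarith
    · rw [sum_insert h]
  calc ∑ v ∈ insert s S, E v ≤ E s + ∑ v ∈ S, E v := h3
    _ ≤ _ := by
      rw [add_mul]
      linarith

/-- **To miss the lucky slab**: `D` = price of the inner windows, `Y` = leak, `g` = gain, `π` = entrance, `St` = steep paths. -/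
theorem kap_le {D Y g π St y : ℝ} (hg : 0 < g) (hπ : 0 < π) (h1 : Y * Real.exp (3 * D + y) ≤ g * π)
    (h2 : Real.exp (D + y) * St ≤ 1) : Real.exp D * (Y * Real.exp (2 * D) / (g * π) + St) ≤ 2 * Real.exp (-y) := by
  have hgp : 0 < g * π := mul_pos hg hπ
  have e1 : Real.exp (3 * D + y) = Real.exp D * Real.exp (2 * D) * Real.exp y := by
    rw [← Real.exp_add, ← Real.exp_add]; ring_nf
  have ey : Real.exp y * Real.exp (-y) = 1 := by rw [← Real.exp_add, add_neg_cancel, Real.exp_zero]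
  have a1 : Real.exp D * (Y * Real.exp (2 * D) / (g * π)) ≤ Real.exp (-y) := by
    rw [mul_div_assoc', div_le_iff₀ hgp]
    calc Real.exp D * (Y * Real.exp (2 * D)) = Y * Real.exp (3 * D + y) * Real.exp (-y) := by
          rw [e1]
          calc Real.exp D * (Y * Real.exp (2 * D)) = Y * (Real.exp D * Real.exp (2 * D)) * (Real.exp y * Real.exp (-y)) := by
                rw [ey]; ring
            _ = _ := by ring
      _ ≤ g * π * Real.exp (-y) := mul_le_mul_of_nonneg_right h1 (Real.exp_pos _).le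
      _ = _ := by ring
  have a2 : Real.exp D * St ≤ Real.exp (-y) := by
    calc Real.exp D * St = (Real.exp (D + y) * St) * Real.exp (-y) := by
          rw [Real.exp_add]
          calc Real.exp D * St = Real.exp D * St * (Real.exp y * Real.exp (-y)) := by rw [ey, mul_one]
            _ = _ := by ring
      _ ≤ 1 * Real.exp (-y) := mul_le_mul_of_nonneg_right h2 (Real.exp_pos _).le
      _ = _ := one_mul _
  rw [mul_add]
  linarith

/-- The same in exponents: `Y ≤ exp yl`, `exp b ≤ g`, `exp (- be) ≤ π`. -/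
theorem kap_le' {D Y g π St y yl b be : ℝ} (hπ : Real.exp (-be) ≤ π) (hg : Real.exp b ≤ g) (hY : Y ≤ Real.exp yl)
    (h1 : 3 * D + y + yl + be ≤ b) (h2 : Real.exp (D + y) * St ≤ 1) :
    Real.exp D * (Y * Real.exp (2 * D) / (g * π) + St) ≤ 2 * Real.exp (-y) := by
  have hg0 : 0 < g := (Real.exp_pos _).trans_le hg
  have hπ0 : 0 < π := (Real.exp_pos _).trans_le hπ
  refine kap_le hg0 hπ0 ?_ h2
  calc Y * Real.exp (3 * D + y) ≤ Real.exp yl * Real.exp (3 * D + y) := mul_le_mul_of_nonneg_right hY (Real.exp_pos _).le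
    _ = Real.exp (yl + (3 * D + y)) := (Real.exp_add _ _).symm
    _ ≤ Real.exp (b + -be) := Real.exp_le_exp.2 (by linarith)
    _ = Real.exp b * Real.exp (-be) := Real.exp_add _ _
    _ ≤ g * π := mul_le_mul hg hπ (Real.exp_pos _).le hg0.le

end Pool.Agent.W_7d29a1_C1.E53
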