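import Pool.Agent.W_7d29a1_C1.OwnL2

/-!
MP_7d29a1_pr, the attractor route, TAME: THE OWN DATA SEEN FROM A HIGHER SCALE. (helper2)

**`ODW.shift`** : `ODW .. C0 C2 D Z ρ u`, `2 j ≤ C2` ==> `ODW .. C0 (C2 - j) (2 D) Z ρ (u + j)`: the same `C0`, the same list, `D` doubled
(`v - u ≤ 2 (v - (u + j))` for `v ≥ u + C2`). **`OwnL.shift`** : the same positions, seen from
`u + j`.
-/

set_option autoImplicit false

namespace Pool.Agent.W_7d29a1_C1.Dep6

open MeasureTheory ProbabilityTheory Finset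
open Pool.Agent.W_7d29a1_F Pool.Agent.W_7d29a1_h4g Pool.Agent.W_7d29a1_H Pool.Agent.W_7d29a1_HS
open Pool.Agent.W_7d29a1_C1.H75 Pool.Agent.W_7d29a1_C1.U16 Pool.Agent.W_7d29a1_C1.H40 Pool.Agent.W_7d29a1_C1.S71

noncomputable section

variable {σ Λ : Type*} {G : Geo σ Λ} {lat : σ → ℝ} {latC : Cut Λ → ℝ} {w : ℕ → ℝ} {C0 : ℝ} {C2 D : ℕ} {Z : List (Cut Λ)} {ρ : σ} {u : ℕ}

theorem TB_mono2 {B B' : ℕ → ℝ} {v : ℕ} {Z : List (Cut Λ)} (h : ∀ v', v ≤ v' → B v' ≤ B' v') (hT : TB G lat latC ρ B v Z) :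
    TB G lat latC ρ B' v Z := by
  induction Z generalizing v with
  | nil => trivial
  | cons d Z ih =>
    obtain ⟨h1, h2, h3, h4⟩ := hT
    exact ⟨h1, h2, h3.trans (h v le_rfl), ih (fun v' hv => h v' (by omega)) h4⟩

/-- **THE OWN DATA SEEN FROM THE SCALE `u + j`.** -/
theorem ODW_shift (hmono : Monotone w) (hC0 : 0 ≤ C0) {j : ℕ} (hj : 2 * j ≤ C2) (h : ODW G lat latC w C0 C2 D Z ρ u) :
    ODW G lat latC w C0 (C2 - j) (2 * D) Z ρ (u + j) := by
  obtain ⟨v0, v1, v2, P, Lo, Bo, Cl, Bl, Tw, e, a1, a2, a3, a4, a5, a6, a7, a8, a9, b1, b2, b3, ⟨n, Cl', e1, b4⟩, b5⟩ := h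
  have key : ∀ v, u + C2 ≤ v → D * (v - u) ≤ 2 * D * (v - (u + j)) := fun v hv => by
    calc D * (v - u) ≤ D * (2 * (v - (u + j))) := Nat.mul_le_mul_left _ (by omega)
      _ = 2 * D * (v - (u + j)) := by ring
  refine ⟨v0, v1, v2, P, Lo, Bo, Cl, Bl, Tw, e, by omega, by omega, by omega, a4, a5, fun d hd => ?_, ?_, a8, fun d hd => ?_, ?_, b2,
    b3, ⟨n, Cl', e1, by omega⟩, b5⟩
  · obtain ⟨h1, h2⟩ := a6 d hd
    refine ⟨h1, h2.trans (mul_le_mul_of_nonneg_left (hmono ?_) hC0)⟩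
    have : D * (u - v0) ≤ 2 * D * (u + j - v0) := by
      calc D * (u - v0) ≤ 2 * D * (u - v0) := Nat.mul_le_mul_right _ (by omega)
        _ ≤ 2 * D * (u + j - v0) := Nat.mul_le_mul_left _ (by omega)
    omega
  · refine TB_mono2 (fun v _ => ?_) a7
    have e2 : u + j + (C2 - j) = u + C2 := by omega
    rw [e2]
  · obtain ⟨h1, h2⟩ := a9 d hd
    refine ⟨h1, h2.trans (mul_le_mul_of_nonneg_left (hmono ?_) hC0)⟩
    have := key v1 a2
    omega
  · refine TB_mono2 (fun v hv => ?_) b1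
    unfold BT
    refine mul_le_mul_of_nonneg_left (hmono ?_) hC0
    have := key v (by omega)
    omega

/-- **THE SAME POSITIONS, SEEN FROM THE SCALE `u + j`** (the cuts are exact up to the scale `u + C2 = (u + j) + (C2 - j)`). -/
theorem OwnL.shift {cs : ℕ → Cut Λ} {v0 v1 v2 iL iC iT : ℕ} (hmono : Monotone w) (hC0 : 0 ≤ C0) {j : ℕ} (hj : 2 * j ≤ C2)
    (h : OwnL G lat latC w C0 C2 D Z ρ u cs v0 v1 v2 iL iC iT) :
    OwnL G lat latC w C0 (C2 - j) (2 * D) Z ρ (u + j) cs v0 v1 v2 iL iC iT := by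
  have q1 := h.v0u
  have q2 := h.uv1
  have q3 := h.uv2
  have key : ∀ v, u + C2 ≤ v → D * (v - u) ≤ 2 * D * (v - (u + j)) := fun v hv => by
    calc D * (v - u) ≤ D * (2 * (v - (u + j))) := Nat.mul_le_mul_left _ (by omega)
      _ = 2 * D * (v - (u + j)) := by ring
  have e2 : u + j + (C2 - j) = u + C2 := by omega
  refine ⟨by omega, by omega, by omega, h.v1m, h.iLC, h.iCT, h.len, h.pair, h.triple, h.gap, h.cw, h.cnt, h.lo, fun i h1 h2 => ?_,
    h.clsc, h.clrb, fun v h1 h2 => ?_, fun v h1 h2 => h.clct v h1 (by omega), fun i h1 h2 => ?_, h.twsc, h.twrb, fun v h1 h2 => ?_⟩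
  · obtain ⟨h3, h4⟩ := h.bo i h1 h2
    refine ⟨h3, h4.trans (mul_le_mul_of_nonneg_left (hmono ?_) hC0)⟩
    have : D * (u - v0) ≤ 2 * D * (u + j - v0) := by
      calc D * (u - v0) ≤ 2 * D * (u - v0) := Nat.mul_le_mul_right _ (by omega)
        _ ≤ 2 * D * (u + j - v0) := Nat.mul_le_mul_left _ (by omega)
    omega
  · rw [e2]
    exact h.clat v h1 h2
  · obtain ⟨h3, h4⟩ := h.bl i h1 h2
    refine ⟨h3, h4.trans (mul_le_mul_of_nonneg_left (hmono ?_) hC0)⟩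
    have := key v1 q2
    omega
  · refine (h.twat v h1 h2).trans ?_
    unfold BT
    refine mul_le_mul_of_nonneg_left (hmono ?_) hC0
    have := key v (by omega)
    omega

end

end Pool.Agent.W_7d29a1_C1.Dep6
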