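import Pool.Agent.W_7d29a1_C1.SepDef53
import Pool.Agent.W_7d29a1_C1.SpOne22

/-!
Both halves (MP_7d29a1_pr), attractor route [C1], SEP: THE OSCILLATION OF THE OUTER MASSES (`Osc` of HitM49), deterministic end.
(helper37)

Two environments `ω` (old), `ω'` (new), equal off a window `B` of rows `≥ a`. The far mass of an outer scale lives on a row `r` BEHIND
the window. `P'_X(F)` is bounded from below by `P_X(F)` in one of two ways:
* (A) from every site of the window the set `F` is reached with a small probability `st` only (`Sp22.far_low`);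
* (B) the masses with the END PROFILE `1_F bw` at the row `r` are comparable at the row `a`: `bF ≤ D2 * bF'` (`prof_low`).
`osc37`: `Osc` from (A) or (B) for every coarse row and every group.
-/

set_option autoImplicit false

namespace Pool.Agent.W_7d29a1_C1.O37

open Finset MeasureTheory
open Pool.Agent.W_7d29a1_F Pool.Agent.W_7d29a1_h4g Pool.Agent.W_7d29a1_H Pool.Agent.W_7d29a1_HS
open Pool.Agent.W_7d29a1_C1.K91 (Grp Box wt wt_pos)
open Pool.Agent.W_7d29a1_C1.K91P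
open Pool.Agent.W_7d29a1_C1.Sp22 (Ms Ps Zt bf Spl)
open Pool.Agent.W_7d29a1_C1.H60
open Pool.Agent.W_7d29a1_C1.G37 (Gm)
open Pool.Agent.W_7d29a1_C1.H49 (Par ex Osc)
open Pool.Agent.W_7d29a1_C1.E53
open Pool.Agent.W_7d29a1_C1.SD53
open scoped ENNReal

noncomputable section

section Abs

variable {w w' : ℕ → ℤ → ℝ} {p : ℕ → ℝ} {m : ℤ → ℝ} {lo hi : ℤ} {N : ℕ}

/-- **The end profile** `1_F bw` at the row `e`. -/
def pf (w : ℕ → ℤ → ℝ) (p : ℕ → ℝ) (N e : ℕ) (F : Finset ℤ) : ℤ → ℝ := fun y => if y ∈ F then bw w p e (N - e) y else 0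

theorem pf_congr {e : ℕ} (hrow : ∀ k, e ≤ k → w k = w' k) (F : Finset ℤ) : pf w p N e F = pf w' p N e F := by
  funext y
  unfold pf
  rw [bw_congr (w := w) (w' := w') (N - e) e (fun i hi' y => by rw [hrow i hi']) y]

/-- The mass through `F` at the row `e`, seen from a row `k ≤ e`. -/
theorem Ps_row (h : Ms m lo hi N) {k e : ℕ} (hk : k ≤ e) (he : e ≤ N) (F : Finset ℤ) :
    Ps w p m N e F = ∑ y ∈ Icc lo hi, fw w p m k y * bf w p (pf w p N e F) k (e - k) y := by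
  have h1 := Sp22.sum_fw_har (w := w) (p := p) h (Sp22.har_bf w p (pf w p N e F) e) he hk
  have h2 := Sp22.sum_fw_har (w := w) (p := p) h (Sp22.har_bf w p (pf w p N e F) e) he (le_refl e)
  rw [h1, ← h2, Sp22.Ps_fin h he F]
  refine sum_congr rfl fun y _ => ?_
  rw [Nat.sub_self, Sp22.bf_zero]
  rfl

variable {a e : ℕ} {C D D2 : ℝ}

/-- **(B), masses.** -/
theorem prof_Ps (S : Spl w w' p N a C D) (h : Ms m lo hi N) (hae : a ≤ e) (he : e ≤ N) {F : Finset ℤ}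
    (hF : ∀ y, bf w p (pf w p N e F) a (e - a) y ≤ D2 * bf w' p (pf w' p N e F) a (e - a) y) :
    Ps w p m N e F ≤ D2 * Ps w' p m N e F := by
  rw [Ps_row h hae he F, Ps_row h hae he F, mul_sum]
  refine sum_le_sum fun y _ => ?_
  rw [S.fw m le_rfl y]
  calc fw w p m a y * bf w p (pf w p N e F) a (e - a) y
      ≤ fw w p m a y * (D2 * bf w' p (pf w' p N e F) a (e - a) y) :=
        mul_le_mul_of_nonneg_left (hF y) (fw_nonneg S.hw S.hp h.nn a y)
    _ = _ := by ring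

/-- **(B), probabilities**: no additive error. -/
theorem prof_low (S : Spl w w' p N a C D) (h : Ms m lo hi N) (hm : ∃ y, 0 < m y) (hae : a ≤ e) (he : e ≤ N) {F : Finset ℤ}
    (hF : ∀ y, bf w p (pf w p N e F) a (e - a) y ≤ D2 * bf w' p (pf w' p N e F) a (e - a) y) (hD : 0 ≤ D2) :
    Ps w p m N e F / Zt w p m lo hi N ≤ C * D2 * (Ps w' p m N e F / Zt w' p m lo hi N) := by
  have z := Sp22.Zt_pos S.hw S.hp h hm
  have z' := Sp22.Zt_pos S.hw' S.hp h hm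
  have h1 := prof_Ps S h hae he hF
  have h2 := S.Zt h
  have h3 := Sp22.Ps_nonneg S.hw' S.hp h.nn N e F
  rw [div_le_iff₀ z]
  have e1 : C * D2 * (Ps w' p m N e F / Zt w' p m lo hi N) * Zt w p m lo hi N =
      D2 * Ps w' p m N e F * (C * Zt w p m lo hi N / Zt w' p m lo hi N) := by ring
  rw [e1]
  have h4 : 1 ≤ C * Zt w p m lo hi N / Zt w' p m lo hi N := by
    rw [le_div_iff₀ z', one_mul]
    exact h2
  calc Ps w p m N e F ≤ D2 * Ps w' p m N e F * 1 := by rw [mul_one]; exact h1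
    _ ≤ _ := mul_le_mul_of_nonneg_left h4 (mul_nonneg hD h3)

/-- **THE DICHOTOMY**: (A) or (B). -/
theorem dich_low (S : Spl w w' p N a C D) (h : Ms m lo hi N) (hm : ∃ y, 0 < m y) (hae : a ≤ e) (he : e ≤ N) {B : Set (ℕ × ℤ)}
    (hB : ∀ k y, (k, y) ∉ B → w k y = w' k y) (hrow : ∀ k, e ≤ k → w k = w' k) {F : Finset ℤ} {st : ℝ} (hs0 : 0 ≤ st)
    (hd : (∀ i x, i < e → (i, x) ∈ B → bf w p (pf w p N e F) i (e - i) x ≤ st * bw w p i (N - i) x) ∨
      ∀ y, bf w p (pf w p N e F) a (e - a) y ≤ D2 * bf w' p (pf w' p N e F) a (e - a) y) :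
    Ps w p m N e F / Zt w p m lo hi N ≤ C * max 1 D2 * (Ps w' p m N e F / Zt w' p m lo hi N) + st := by
  have z' := Sp22.Zt_pos S.hw' S.hp h hm
  have h3 : 0 ≤ Ps w' p m N e F / Zt w' p m lo hi N := div_nonneg (Sp22.Ps_nonneg S.hw' S.hp h.nn N e F) z'.le
  rcases hd with hA | hF
  · have h1 := Sp22.far_low S.hw S.hw' S.hp h hm he hB hrow hs0 hA S.C0 (S.Zt h)
    rw [div_le_iff₀ S.C0] at h1
    have h2 : Ps w' p m N e F / Zt w' p m lo hi N * C ≤ C * max 1 D2 * (Ps w' p m N e F / Zt w' p m lo hi N) := by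
      have h4 : C * 1 ≤ C * max 1 D2 := mul_le_mul_of_nonneg_left (le_max_left _ _) S.C0.le
      calc Ps w' p m N e F / Zt w' p m lo hi N * C = C * 1 * (Ps w' p m N e F / Zt w' p m lo hi N) := by ring
        _ ≤ _ := mul_le_mul_of_nonneg_right h4 h3
    linarith
  · have h1 := prof_low (D2 := max 1 D2) S h hm hae he (F := F) (fun y => (hF y).trans (mul_le_mul_of_nonneg_right (le_max_right _ _) ?_))
      (zero_le_one.trans (le_max_left _ _))
    · linarith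
    · refine Sp22.bf_nonneg (fun k y => (S.hw' k y).le) S.hp (fun y => ?_) _ _ _
      unfold pf
      split_ifs
      · exact (bw_pos S.hw' S.hp _ _ _).le
      · exact le_rfl

end Abs

/-! ### The far mass of SepDef53 -/

variable {Γ : Cx} {G : Gm}

theorem ex_l : ∃ y, 0 < Cx.l y := ⟨0, by simp [Cx.l]⟩

theorem ex_r (h : Γ.Ok) : ∃ y, 0 < Γ.r y := by
  obtain ⟨y, _, _, h3⟩ := Cx.r_pos h
  exact ⟨y, h3⟩

/-- The far mass from below, row by row. -/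
theorem fa_low {t' k τ : ℕ} (h : Γ.Ok) (hτ : τ < t') {x : XX Γ} {ω ω' : Env} {C st : ℝ} (hC : 0 ≤ C) (hst : 0 ≤ st)
    (h1 : ∀ r ∈ G.fr t' τ x.1, r ≤ (Γ.N : ℤ) → PX Γ Cx.l r.toNat (G.fs k τ x.1 r) ω ≤ C * PX Γ Cx.l r.toNat (G.fs k τ x.1 r) ω' + st ∧
      PX Γ Γ.r r.toNat (G.fs k τ x.1 r) ω ≤ C * PX Γ Γ.r r.toNat (G.fs k τ x.1 r) ω' + st) :
    fa Γ G t' k τ x ω ≤ ENNReal.ofReal C * fa Γ G t' k τ x ω' + ENNReal.ofReal (8 * st) := by
  unfold fa
  have h2 : ∀ r ∈ (G.fr t' τ x.1).filter (fun r => r ≤ (Γ.N : ℤ)),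
      ENNReal.ofReal (PX Γ Cx.l r.toNat (G.fs k τ x.1 r) ω) + ENNReal.ofReal (PX Γ Γ.r r.toNat (G.fs k τ x.1 r) ω) ≤
        ENNReal.ofReal C * (ENNReal.ofReal (PX Γ Cx.l r.toNat (G.fs k τ x.1 r) ω') +
          ENNReal.ofReal (PX Γ Γ.r r.toNat (G.fs k τ x.1 r) ω')) + ENNReal.ofReal (2 * st) := by
    intro r hr
    obtain ⟨a1, a2⟩ := mem_filter.1 hr
    obtain ⟨b1, b2⟩ := h1 r a1 a2
    have hl : ENNReal.ofReal (PX Γ Cx.l r.toNat (G.fs k τ x.1 r) ω) ≤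
        ENNReal.ofReal C * ENNReal.ofReal (PX Γ Cx.l r.toNat (G.fs k τ x.1 r) ω') + ENNReal.ofReal st := by
      rw [← ENNReal.ofReal_mul hC, ← ENNReal.ofReal_add (mul_nonneg hC (PX_nonneg Cx.l_nonneg _ _ _)) hst]
      exact ENNReal.ofReal_le_ofReal b1
    have hr' : ENNReal.ofReal (PX Γ Γ.r r.toNat (G.fs k τ x.1 r) ω) ≤
        ENNReal.ofReal C * ENNReal.ofReal (PX Γ Γ.r r.toNat (G.fs k τ x.1 r) ω') + ENNReal.ofReal st := by
      rw [← ENNReal.ofReal_mul hC, ← ENNReal.ofReal_add (mul_nonneg hC (PX_nonneg (Cx.r_nonneg h) _ _ _)) hst]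
      exact ENNReal.ofReal_le_ofReal b2
    refine (add_le_add hl hr').trans (le_of_eq ?_)
    rw [two_mul, ENNReal.ofReal_add hst hst]
    ring
  refine (sum_le_sum h2).trans ?_
  rw [sum_add_distrib, ← mul_sum]
  refine add_le_add le_rfl ?_
  rw [sum_const, nsmul_eq_mul]
  have h3 : ((G.fr t' τ x.1).filter (fun r => r ≤ (Γ.N : ℤ))).card ≤ 4 :=
    (card_le_card (filter_subset _ _)).trans (G.card_fr hτ x.1)
  have h4 : (((G.fr t' τ x.1).filter (fun r => r ≤ (Γ.N : ℤ))).card : ℝ≥0∞) ≤ ENNReal.ofReal 4 := by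
    have e : ENNReal.ofReal 4 = ((4 : ℕ) : ℝ≥0∞) := by simp
    rw [e]
    exact_mod_cast h3
  calc _ ≤ ENNReal.ofReal 4 * ENNReal.ofReal (2 * st) := mul_le_mul' h4 le_rfl
    _ = ENNReal.ofReal (8 * st) := by
      rw [← ENNReal.ofReal_mul (by norm_num)]
      congr 1
      ring

/-- A threshold passes with an additive error below the half of it. -/
theorem thr {f f' : ℝ≥0∞} {θ β C st : ℝ} (hC : 2 * C ≤ Real.exp β) (hst : 2 * st ≤ Real.exp (-θ))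
    (h : f ≤ ENNReal.ofReal C * f' + ENNReal.ofReal st) (h1 : ex (-θ) ≤ f) : ex (-(θ + β)) ≤ f' := by
  have h2 : ex (-θ) ≤ 2 * (ENNReal.ofReal C * f') := by
    by_contra hc
    rw [not_le] at hc
    have h3 : 2 * (ENNReal.ofReal C * f') + 2 * ENNReal.ofReal st < ex (-θ) + ex (-θ) := by
      refine ENNReal.add_lt_add_of_lt_of_le ?_ hc ?_
      · exact ENNReal.mul_ne_top ENNReal.ofNat_ne_top ENNReal.ofReal_ne_top
      · have e : (2 : ℝ≥0∞) = ENNReal.ofReal 2 := by simp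
        rw [e, ← ENNReal.ofReal_mul (by norm_num)]
        exact ENNReal.ofReal_le_ofReal hst
    have h4 : ex (-θ) + ex (-θ) ≤ 2 * (ENNReal.ofReal C * f') + 2 * ENNReal.ofReal st := by
      rw [← mul_add, ← two_mul]
      exact mul_le_mul' le_rfl (h1.trans h)
    exact absurd h3 (not_lt.2 h4)
  calc ex (-(θ + β)) = ex (-β) * ex (-θ) := by rw [← H49.ex_add]; congr 1; ring
    _ ≤ ex (-β) * (2 * (ENNReal.ofReal C * f')) := mul_le_mul' le_rfl h2
    _ = ex (-β) * ENNReal.ofReal (2 * C) * f' := by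
        rw [ENNReal.ofReal_mul (by norm_num)]
        have e : ENNReal.ofReal 2 = 2 := by simp
        rw [e]
        ring
    _ ≤ ex (-β) * ex β * f' := by
        refine mul_le_mul' (mul_le_mul' le_rfl ?_) le_rfl
        exact ENNReal.ofReal_le_ofReal hC
    _ = f' := by rw [← H49.ex_add, neg_add_cancel, H49.ex_zero, one_mul]

/-- **THE INPUT OF THE OSCILLATION** at the contact `y`, stage `j`: the window `B` (rows `≥ a`), prices `C`, `D` of `bw` at the row `a`,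
price `D2` of the masses with the end profile `1_F bw`. -/
structure OscIn (Γ : Cx) (G : Gm) (p : Par (XX Γ)) (j : ℕ) (y : XX Γ) (a : ℕ) (B : Set (ℕ × ℤ)) (C D D2 : ℝ) (ω ω' : Env) : Prop where
  spl : Spl (wt ω) (wt ω') Γ.p Γ.N a C D
  off : ∀ i z, (i, z) ∉ B → wt ω i z = wt ω' i z
  em_row : ∀ k, j + p.m0 < k → k ≤ p.M → row Γ y - p.dk k j ≤ (a : ℤ)
  fa_row : ∀ t', j < t' → t' ≤ p.M → ∀ r ∈ G.fr t' j y.1, r ≤ (Γ.N : ℤ) → (a : ℤ) ≤ r ∧ ∀ i z, r ≤ ((i : ℕ) : ℤ) → (i, z) ∉ B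
  dich_l : ∀ t' k, j < t' → t' + p.m0 ≤ k → k ≤ p.M → ∀ r ∈ G.fr t' j y.1, r ≤ (Γ.N : ℤ) →
    (∀ i z, i < r.toNat → (i, z) ∈ B →
      bf (wt ω) Γ.p (pf (wt ω) Γ.p Γ.N r.toNat (bx Γ (G.fs k j y.1 r))) i (r.toNat - i) z ≤
        Real.exp (-(p.th t' k + p.sl j)) / 16 * bw (wt ω) Γ.p i (Γ.N - i) z) ∨
    ∀ z, bf (wt ω) Γ.p (pf (wt ω) Γ.p Γ.N r.toNat (bx Γ (G.fs k j y.1 r))) a (r.toNat - a) z ≤
      D2 * bf (wt ω') Γ.p (pf (wt ω') Γ.p Γ.N r.toNat (bx Γ (G.fs k j y.1 r))) a (r.toNat - a) z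

/-- The far mass from (A) or (B). -/
theorem OscIn.PX_low {p : Par (XX Γ)} {j : ℕ} {y : XX Γ} {a : ℕ} {B : Set (ℕ × ℤ)} {C D D2 : ℝ} {ω ω' : Env}
    (I : OscIn Γ G p j y a B C D D2 ω ω') {t' k : ℕ} (h1 : j < t') (h2 : t' + p.m0 ≤ k) (h3 : k ≤ p.M) {r : ℤ}
    (hr : r ∈ G.fr t' j y.1) (hrN : r ≤ (Γ.N : ℤ)) {m : ℤ → ℝ} (hm : Ms m 0 Γ.hi Γ.N) (hm' : ∃ y, 0 < m y) :
    PX Γ m r.toNat (G.fs k j y.1 r) ω ≤ C * max 1 D2 * PX Γ m r.toNat (G.fs k j y.1 r) ω' +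
      Real.exp (-(p.th t' k + p.sl j)) / 16 := by
  obtain ⟨g1, g2⟩ := I.fa_row t' h1 (by omega) r hr hrN
  unfold PX PG ZG
  refine dich_low I.spl hm hm' (by omega) (by omega) I.off ?_ (by positivity) (I.dich_l t' k h1 h2 h3 r hr hrN)
  intro i hi
  funext z
  exact I.off i z (g2 i z (by omega))

/-- **`Osc` FROM THE INPUT.** -/
theorem osc37 {p : Par (XX Γ)} {pot : ℕ → ℝ → XX Γ → Env → ℝ≥0∞} {j : ℕ} {y : XX Γ} {a : ℕ} {B : Set (ℕ × ℤ)} {C D D2 β : ℝ}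
    {ω ω' : Env} (h : Γ.Ok) (hrow : p.row = row Γ) (I : OscIn Γ G p j y a B C D D2 ω ω') (hβ1 : (C * D) ^ 2 ≤ Real.exp β)
    (hβ2 : 2 * (C * max 1 D2) ≤ Real.exp β) (hβ : 0 ≤ β)
    (hpot : ∀ σ, σ + β ≤ p.sl j → pot j σ y ω ≤ pot j (σ + β) y ω') : Osc p (w Γ) (fa Γ G) pot j y β ω ω' where
  em := by
    intro t' k σ h1 h2 h3 _ h5
    have hD := I.em_row k (by omega) h3
    have hlp : ∃ y, 0 < Cx.l y := ex_l
    have hrp : ∃ y, 0 < Γ.r y := ex_r h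
    have key : H49.em p.row (w Γ) (p.dk k j) y ω ≤ ENNReal.ofReal ((C * D) ^ 2) * H49.em p.row (w Γ) (p.dk k j) y ω' := by
      rw [hrow, em_eq h, em_eq h, ← ENNReal.ofReal_mul (sq_nonneg _), mul_sum]
      refine ENNReal.ofReal_le_ofReal (sum_le_sum fun c hc => ?_)
      rw [Cx.mem_rows] at hc
      have hca : c.1 < a := by
        have e1 := (lt_min_iff.1 hc.1.2).1
        have e2 : row Γ y = (y.1.1 : ℤ) := rfl
        omega
      have h6 := I.spl.symm.pc (Cx.box1 h) hlp hrp hca c.2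
      have e3 : ∀ η : Env, Sp22.pc (wt η) Γ.p Cx.l Γ.r 0 Γ.hi Γ.N c.1 c.2 = Γ.w c η := by
        intro η
        unfold Sp22.pc Cx.w
        rw [Zt_l53 h η]
        rfl
      rw [e3, e3] at h6
      calc Γ.w c ω ≤ (D * C) ^ 2 * Γ.w c ω' := h6
        _ = _ := by ring
    have h7 : ENNReal.ofReal ((C * D) ^ 2) ≤ ex β := ENNReal.ofReal_le_ofReal hβ1
    calc ex (-(p.th t' k + (σ + β))) = ex (-β) * ex (-(p.th t' k + σ)) := by rw [← H49.ex_add]; congr 1; ring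
      _ ≤ ex (-β) * (ex β * H49.em p.row (w Γ) (p.dk k j) y ω') :=
          mul_le_mul' le_rfl (h5.trans (key.trans (mul_le_mul' h7 le_rfl)))
      _ = _ := by rw [← mul_assoc, ← H49.ex_add, neg_add_cancel, H49.ex_zero, one_mul]
  fa := by
    intro t' k σ h1 h2 h3 h4 h5
    have hC0 : 0 ≤ C * max 1 D2 := mul_nonneg I.spl.C0.le (zero_le_one.trans (le_max_left _ _))
    have h6 := fa_low (G := G) (k := k) h h1 (x := y) (ω := ω) (ω' := ω') hC0
      (show 0 ≤ Real.exp (-(p.th t' k + p.sl j)) / 16 by positivity) (fun r hr hrN =>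
        ⟨I.PX_low h1 h2 h3 hr hrN (ms_l h) ex_l, I.PX_low h1 h2 h3 hr hrN (ms_r h) (ex_r h)⟩)
    have e1 : p.th t' k + (σ + β) = p.th t' k + σ + β := by ring
    rw [e1]
    refine thr hβ2 ?_ h6 h5
    have h7 : Real.exp (-(p.th t' k + p.sl j)) ≤ Real.exp (-(p.th t' k + σ)) := Real.exp_le_exp.2 (by linarith)
    linarith
  pot := hpot

end

end Pool.Agent.W_7d29a1_C1.O37
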