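import Pool.Agent.W_7d29a1_C1.JSel20

/-!
MP_7d29a1_pr, [C1] attractor route, SEP / TAME: THE NUMBERS OF THE CLAUSE `Ou` AT A GIVEN RADIUS (`ouC99`). (helper20)

The profile of the masses of the window of `u` in the unit `(B, W)` of the scale `u + J` costs `(C₉ (1 + Cl x ^ (J + 1) + Q₀ y ^ (J + 1)) ^ 4 + σ') B`
(levels `Cl x ^ (J + 1)` of the layers, D2 at the top with `Q₀ y ^ (J + 1)`, slope `σ'` in the unit `W`). **`prN20`**: for all radii `R ≥ Rmin` there is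
`J` with `R w_u + D ≤ W`, the cost at most `sgm R E_u`, the slope at most `sgm` in the unit `w_u`. `Rmin` depends on nothing late.
-/

set_option autoImplicit false

namespace Pool.Agent.W_7d29a1_C1.G37

open MeasureTheory
open Pool.Agent.W_7d29a1_F Pool.Agent.W_7d29a1_h4g Pool.Agent.W_7d29a1_H Pool.Agent.W_7d29a1_HS
open Pool.Agent.W_7d29a1_C1.H40 (Tk)

noncomputable section

/-- The cost as one power. -/
theorem cost20 {C₉ Cl Q₀ x y σ' : ℝ} (hC : 0 ≤ C₉) (hl : 0 ≤ Cl) (hQ : 0 ≤ Q₀) (hσ : 0 ≤ σ') (hx : 1 ≤ x) (hy : 1 ≤ y) (J : ℕ) :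
    C₉ * (1 + Cl * x ^ (J + 1) + Q₀ * y ^ (J + 1)) ^ 4 + σ' ≤
      (C₉ * ((1 + Cl + Q₀) * max x y) ^ 4 + σ') * (max x y ^ 4) ^ J := by
  have hz : 1 ≤ max x y := hx.trans (le_max_left _ _)
  obtain ⟨z, hz'⟩ : ∃ z, z = max x y := ⟨_, rfl⟩
  rw [← hz'] at hz ⊢
  have hxz : x ≤ z := by rw [hz']; exact le_max_left _ _
  have hyz : y ≤ z := by rw [hz']; exact le_max_right _ _
  have h1 : x ^ (J + 1) ≤ z ^ (J + 1) := pow_le_pow_left₀ (by linarith) hxz _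
  have h2 : y ^ (J + 1) ≤ z ^ (J + 1) := pow_le_pow_left₀ (by linarith) hyz _
  have h3 : 1 ≤ z ^ (J + 1) := one_le_pow₀ hz
  have h0 : 0 ≤ 1 + Cl * x ^ (J + 1) + Q₀ * y ^ (J + 1) := by positivity
  have h4 : 1 + Cl * x ^ (J + 1) + Q₀ * y ^ (J + 1) ≤ (1 + Cl + Q₀) * z * z ^ J := by
    have e : (1 + Cl + Q₀) * z * z ^ J = (1 + Cl + Q₀) * z ^ (J + 1) := by rw [pow_succ]; ring
    rw [e]
    have := mul_le_mul_of_nonneg_left h1 hl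
    have := mul_le_mul_of_nonneg_left h2 hQ
    linarith
  have h5 := pow_le_pow_left₀ h0 h4 4
  have h6 : 1 ≤ (z ^ 4) ^ J := one_le_pow₀ (one_le_pow₀ hz)
  calc C₉ * (1 + Cl * x ^ (J + 1) + Q₀ * y ^ (J + 1)) ^ 4 + σ' ≤ C₉ * ((1 + Cl + Q₀) * z * z ^ J) ^ 4 + σ' * (z ^ 4) ^ J :=
        add_le_add (mul_le_mul_of_nonneg_left h5 hC) (le_mul_of_one_le_right hσ h6)
    _ = _ := by
        rw [show ((1 + Cl + Q₀) * z * z ^ J) ^ 4 = ((1 + Cl + Q₀) * z) ^ 4 * (z ^ 4) ^ J by rw [mul_pow _ (z ^ J), ← pow_mul, ← pow_mul, mul_comm J 4]]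
        ring

variable {μ : Measure ℝ} {s c C : ℝ} {n₀ : ℕ}

/-- **THE NUMBERS OF THE CLAUSE `Ou` AT A GIVEN RADIUS.** -/
theorem prN20 [IsProbabilityMeasure μ] (h : In μ s c C n₀) : ∃ (a : ℝ) (n₁ : ℕ), 0 < a ∧ 1 ≤ n₁ ∧
    ∀ K : ℕ, 8 ≤ K → ∀ {C₉ Cl Q₀ σ' x y Cb sgm : ℝ}, 0 ≤ C₉ → 0 ≤ Cl → 0 ≤ Q₀ → 0 ≤ σ' → 1 ≤ x → 1 ≤ y → max x y ^ 4 < (K : ℝ) ^ a → 0 ≤ Cb →
    0 < sgm → ∃ Rmin : ℝ, 1 ≤ Rmin ∧ ∀ R : ℝ, Rmin ≤ R → ∃ Jmax : ℕ, ∀ T0 : ℕ, n₁ ≤ T0 → Wok μ s T0 K → ∃ J : ℕ → ℕ,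
      (∀ u, 1 ≤ J u ∧ J u ≤ Jmax ∧
        ∀ {B W D : ℝ}, 0 ≤ B → B ≤ Cb * EE μ s (Tk T0 K (u + J u)) → wd μ s (Tk T0 K (u + J u)) ≤ W → 0 ≤ D → D ≤ wd μ s (Tk T0 K u) →
          R * wd μ s (Tk T0 K u) + D ≤ W ∧
          (C₉ * (1 + Cl * x ^ (J u + 1) + Q₀ * y ^ (J u + 1)) ^ 4 + σ') * B ≤ sgm * R * EE μ s (Tk T0 K u) ∧
          (C₉ * (1 + Cl * x ^ (J u + 1) + Q₀ * y ^ (J u + 1)) ^ 4 + σ' * (D / W)) * B ≤ sgm * R * EE μ s (Tk T0 K u) ∧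
          σ' / W * B ≤ sgm / wd μ s (Tk T0 K u) * EE μ s (Tk T0 K u)) ∧
      ∀ (S : Finset ℕ) (v : ℕ), (S.filter (fun u => u + J u = v)).card ≤ Nat.log 2 (2 * K) + 1 := by
  obtain ⟨a, n₁, ha, hn₁, H⟩ := jfun20 h
  refine ⟨a, n₁, ha, hn₁, fun K hK C₉ Cl Q₀ σ' x y Cb sgm hC hl hQ hσ hx hy hxy hCb hsg => ?_⟩
  obtain ⟨A, hA⟩ : ∃ A : ℝ, A = (C₉ * ((1 + Cl + Q₀) * max x y) ^ 4 + σ') * Cb := ⟨_, rfl⟩
  have hz1 : 1 ≤ max x y := hx.trans (le_max_left _ _)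
  have hA0 : 0 ≤ A := by rw [hA]; positivity
  obtain ⟨Rmin, hR1, H⟩ := H K hK (max x y ^ 4) A (sgm / 2) (by positivity) hxy hA0 (by positivity)
  refine ⟨Rmin, hR1, fun R hR => ?_⟩
  obtain ⟨Jmax, H⟩ := H (R + 1) (by linarith)
  refine ⟨Jmax, fun T0 hT hW => ?_⟩
  obtain ⟨J, hJ, hfib⟩ := H T0 hT hW
  refine ⟨J, fun u => ?_, hfib⟩
  obtain ⟨j1, j2, j3, j4⟩ := hJ u
  refine ⟨j1, j2, ?_⟩
  intro B W D hB0 hB hWd hD0 hD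
  have hw : 0 < wd μ s (Tk T0 K u) := by linarith [hW.one u]
  have hE := EE_pos (μ := μ) (s := s) (Tk T0 K u)
  have hW1 : (R + 1) * wd μ s (Tk T0 K u) ≤ W := j3.trans hWd
  have hW0 : 0 < W := lt_of_lt_of_le (by nlinarith) hW1
  have hR0 : 1 ≤ R := hR1.trans hR
  have hcost : (C₉ * (1 + Cl * x ^ (J u + 1) + Q₀ * y ^ (J u + 1)) ^ 4 + σ') * B ≤ sgm / 2 * (R + 1) * EE μ s (Tk T0 K u) := by
    refine le_trans ?_ j4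
    have g1 := cost20 hC hl hQ hσ hx hy (J u)
    calc _ ≤ ((C₉ * ((1 + Cl + Q₀) * max x y) ^ 4 + σ') * (max x y ^ 4) ^ J u) * (Cb * EE μ s (Tk T0 K (u + J u))) :=
          mul_le_mul g1 hB hB0 (by positivity)
      _ = _ := by rw [hA]; ring
  have hcost' : (C₉ * (1 + Cl * x ^ (J u + 1) + Q₀ * y ^ (J u + 1)) ^ 4 + σ') * B ≤ sgm * R * EE μ s (Tk T0 K u) := by
    refine hcost.trans (mul_le_mul_of_nonneg_right ?_ hE.le)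
    nlinarith
  have hP : 0 ≤ C₉ * (1 + Cl * x ^ (J u + 1) + Q₀ * y ^ (J u + 1)) ^ 4 := by positivity
  refine ⟨by linarith, hcost', ?_, ?_⟩
  · refine le_trans (mul_le_mul_of_nonneg_right ?_ hB0) hcost'
    have h1 : D / W ≤ 1 := by
      rw [div_le_one hW0]
      nlinarith
    have := mul_le_mul_of_nonneg_left h1 hσ
    linarith
  · have h1 : σ' * B ≤ sgm / 2 * (R + 1) * EE μ s (Tk T0 K u) := by
      refine le_trans (mul_le_mul_of_nonneg_right ?_ hB0) hcost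
      linarith
    rw [div_mul_eq_mul_div, div_mul_eq_mul_div, div_le_div_iff₀ hW0 hw]
    have h2 := mul_le_mul_of_nonneg_right h1 hw.le
    have h3 : sgm / 2 * (R + 1) * EE μ s (Tk T0 K u) * wd μ s (Tk T0 K u) = sgm / 2 * EE μ s (Tk T0 K u) * ((R + 1) * wd μ s (Tk T0 K u)) := by ring
    have h4 : sgm / 2 * EE μ s (Tk T0 K u) * ((R + 1) * wd μ s (Tk T0 K u)) ≤ sgm / 2 * EE μ s (Tk T0 K u) * W :=
      mul_le_mul_of_nonneg_left hW1 (by positivity)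
    have h5 : sgm / 2 * EE μ s (Tk T0 K u) * W ≤ sgm * EE μ s (Tk T0 K u) * W := by
      refine mul_le_mul_of_nonneg_right (mul_le_mul_of_nonneg_right (by linarith) hE.le) hW0.le
    linarith

end

end Pool.Agent.W_7d29a1_C1.G37
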