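import Pool.Agent.W_7d29a1_C1.PrT20
import Pool.Agent.W_7d29a1_C1.PrN20
import Pool.Agent.W_7d29a1_C1.OuE37

/-!
MP_7d29a1_pr, [C1] attractor route, TAME / SEP: THE SET `Ou` AT A GIVEN RADIUS, POINTWISE HALF OF THE CLAUSE. (helper20, for `ouC99` of helper99)

* `Win20` : the rows `kl .. kh` of a window, ONE first slab which contains them, and the layers `a + 1 .. t` above it; `Win20.row` : every row is a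
  `Row20` of PrT20;
* **`win20`** : all pairs of rows of the window, all `x`, all references `|lat (k', x')| ≤ wd (T t)`;
* **`ouW20`** : `η ∈ Ou37.Ou .. R (sgm R) (sgm R) sgm 0 u κ`, from `Win20` at the rows `ra - 1 .. re`, (D2) at the row `r (t + 1)` in the unit of `T t`,
  and the four number lines of `prN20`;
* **`ouP20`** : the same with the numbers chosen: prefix `In | e, K₀ | P, Kf, θ | C₉, n₁ | K | levels Cl x ^ (J + 1), D2 Q₀ y ^ (J + 1), σ, sgm | Rmin | R |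
  Jmax | T0 | J | the context`.
-/

set_option autoImplicit false

namespace Pool.Agent.W_7d29a1_C1.OuQ20

open MeasureTheory Finset
open Pool.Agent.W_7d29a1_F hiding Bw G
open Pool.Agent.W_7d29a1_h4g Pool.Agent.W_7d29a1_HS
open Pool.Agent.W_7d29a1_H hiding ex gg
open Pool.Agent.W_7d29a1_C1.U16 (bh16 lat16 Far16)
open Pool.Agent.W_7d29a1_C1.FarW89 (lt)
open Pool.Agent.W_7d29a1_C1.SysN89 (Lay89)
open Pool.Agent.W_7d29a1_C1.H60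
open Pool.Agent.W_7d29a1_C1.H40 (Tk)
open Pool.Agent.W_7d29a1_C1.G37 (Gm Wok prN20)
open Pool.Agent.W_7d29a1_C1.Ou37 (Ou OuT OuD lb0 ouT_of ouD_of)
open Pool.Agent.W_7d29a1_C1.PrT20 (Row20 prf20)

noncomputable section

/-- **THE ROWS OF A WINDOW, ONE FIRST SLAB, THE LAYERS ABOVE.** -/
structure Win20 (μ : Measure ℝ) (s c θ K h : ℝ) (P : ℕ) (η : Env) (κ : Pt) (r T Nr : ℕ → ℕ) (q : ℕ → ℝ) (bs : ℕ → Pt) (Kt : ℕ) (Qm : ℝ)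
    (n₁ a t kl kh n' N' : ℕ) (q' : ℝ) (b' : Pt) : Prop where
  lay : Lay89 μ s c θ K h P η κ r T Nr q bs (a + 1) (t + 1) n₁
  hat : a + 1 ≤ t
  gro : ∀ v, a + 1 ≤ v → v < t → Kt * T v ≤ T (v + 1)
  lev : ∀ v, a + 1 ≤ v → v ≤ t → (1 + q v) ^ 2 ≤ Qm
  n1 : n₁ ≤ n'
  n2 : n' ≤ T (a + 1)
  nw : wd μ s n' ≤ wd μ s (T t)
  N1 : N' ≤ n'
  q0 : 0 ≤ q'
  q1 : (1 + q') ^ 2 ≤ Qm
  k1 : kh ≤ r (a + 1)
  b1 : b'.1 ≤ kl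
  b2 : (r (a + 1) : ℤ) ≤ b'.1 + N'
  b3 : |lat16 μ s κ b'| ≤ wd μ s n'
  far : η ∈ Far16 μ s c θ K n' N' P b' q'
  len : θ * n' ≤ ((r (a + 1) - kh : ℕ) : ℝ)

section

variable {μ : Measure ℝ} {s c θ K h : ℝ} {P : ℕ} {η : Env} {κ : Pt} {r T Nr : ℕ → ℕ} {q : ℕ → ℝ} {bs : ℕ → Pt} {Kt : ℕ} {Qm : ℝ}
  {n₁ a t kl kh n' N' : ℕ} {q' : ℝ} {b' : Pt}

theorem Win20.row (H : Win20 μ s c θ K h P η κ r T Nr q bs Kt Qm n₁ a t kl kh n' N' q' b') {k : ℕ} (h1 : kl ≤ k) (h2 : k ≤ kh) :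
    Row20 μ s c θ K h P η κ r T Nr q bs Kt 1 Qm n₁ a t k n' N' q' b' where
  lay := H.lay
  hat := H.hat
  gro := H.gro
  lev v a1 a2 := by
    rw [one_pow, mul_one]
    exact H.lev v a1 a2
  n1 := H.n1
  n2 := H.n2
  nw := H.nw
  N1 := H.N1
  q0 := H.q0
  q1 := by
    rw [one_pow, mul_one]
    exact H.q1
  k1 := h2.trans H.k1
  b1 := H.b1.trans (by exact_mod_cast h1)
  b2 := H.b2
  b3 := H.b3
  far := H.far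
  len := H.len.trans (by
    have h3 : r (a + 1) - kh ≤ r (a + 1) - k := by omega
    exact_mod_cast h3)

end

variable {μ : Measure ℝ} [IsProbabilityMeasure μ] {s c C : ℝ} {n₀ : ℕ}

/-- **ALL PAIRS OF ROWS OF THE WINDOW**, in the unit of the scale `T t`. -/
theorem win20 (h0 : In μ s c C n₀) : ∃ K₀ : ℕ, 2 ≤ K₀ ∧ ∀ P : ℕ, ∀ {K θ : ℝ}, 6 ≤ K → 0 < θ → ∃ (C₉ : ℝ) (n₁ : ℕ), 1 ≤ C₉ ∧ 1 ≤ n₁ ∧
    ∀ {Kt : ℕ}, K₀ ≤ Kt → ∀ {Qm Q4 σ : ℝ}, 0 ≤ Qm → 0 ≤ Q4 → 0 ≤ σ → σ ≤ c / 8 →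
    ∀ {h : ℝ} {η : Env} {p : ℕ → ℝ} {M N : ℕ} {κ : Pt} {r T Nr : ℕ → ℕ} {q : ℕ → ℝ} {bs : ℕ → Pt} {a t kl kh n' N' : ℕ} {q' : ℝ} {b' : Pt},
      (∀ k, k < M → p k = Real.exp (s + h)) → (∀ k, M ≤ k → p k = Real.exp s) → |h| * wd μ s (T t) ≤ c / 8 * EE μ s (T t) →
      r (t + 1) ≤ N → (N : ℝ) + 1 ≤ Real.exp (EE μ s (T t)) →
      Win20 μ s c θ K h P η κ r T Nr q bs Kt Qm n₁ a t kl kh n' N' q' b' →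
      ∀ {y₀ : ℤ}, |lt μ s κ r (t + 1) y₀| ≤ wd μ s (T t) - 1 →
      (∀ y : ℤ, bh16 μ s h η p M N (r (t + 1)) y ≤ Real.exp ((Q4 + σ * (|lt μ s κ r (t + 1) y| / wd μ s (T t))) * EE μ s (T t)) *
        bh16 μ s h η p M N (r (t + 1)) y₀) →
      ∀ {k k' : ℕ}, kl ≤ k → k ≤ kh → kl ≤ k' → k' ≤ kh → ∀ x x' : ℤ, |lat16 μ s κ ((k' : ℤ), x')| ≤ wd μ s (T t) →
        bh16 μ s h η p M N k x ≤
          Real.exp ((C₉ * (1 + Qm + Q4) ^ 4 + (σ + 1) * (|lat16 μ s κ ((k : ℤ), x)| / wd μ s (T t))) * EE μ s (T t)) *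
            bh16 μ s h η p M N k' x' := by
  obtain ⟨e, K₀, he, hK₀, H⟩ := prf20 h0
  obtain ⟨K₁, hK₁⟩ := exists_nat_ge ((2 : ℝ) ^ (1 / e))
  refine ⟨max K₀ (max K₁ 2), hK₀.trans (le_max_left _ _), fun P {K θ} hK hθ => ?_⟩
  obtain ⟨C₉, n₁, hC₉, hn₁, H⟩ := H P (K := K) (θ := θ) (R := 1) (by linarith) hθ zero_le_one (by linarith)
  refine ⟨C₉, n₁, hC₉, hn₁, ?_⟩
  intro Kt hKt Qm Q4 σ hQm hQ4 hσ0 hσ h η p M N κ r T Nr q bs a t kl kh n' N' q' b' hp hp' hh hrN hN hW y₀ hy₀ hG k k' h1 h2 h3 h4 x x' hx'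
  have hg : 2 * (1 : ℝ) ≤ (Kt : ℝ) ^ e := by
    have g1 : ((2 : ℝ) ^ (1 / e)) ≤ Kt :=
      hK₁.trans (by exact_mod_cast ((le_max_left K₁ 2).trans (le_max_right K₀ _)).trans hKt)
    have g2 := Real.rpow_le_rpow (by positivity) g1 he.le
    rw [← Real.rpow_mul (by norm_num), one_div, inv_mul_cancel₀ he.ne', Real.rpow_one] at g2
    linarith
  exact H ((le_max_left _ _).trans hKt) le_rfl hg hQm hQ4 hσ0 hσ hp hp' hh hrN hN hy₀ hG (hW.row h1 h2) (hW.row h3 h4) x x' (by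
    rw [one_mul]
    exact hx')

omit [IsProbabilityMeasure μ] in
/-- **THE SET `Ou`, POINTWISE**, from the profile of the window in the unit `(B, W)` and four number lines. -/
theorem ouW20 {Γ : Cx} {G : Gm} {E : ℕ → ℝ} {R sgm A σ' B W D : ℝ} {u : ℕ} {κ : ℤ × ℤ} {κ₀ : Pt} {η : Env} (hv : G.v = sl μ s)
    (ho : |lb0 G κ₀ - G.ctr u κ| ≤ D) (hW : 0 < W) (hB : 0 ≤ B) (hσ : 0 ≤ σ') (n1 : R * G.w u + D ≤ W) (n2 : (A + σ') * B ≤ sgm * R * E u)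
    (n3 : (A + σ' * (D / W)) * B ≤ sgm * R * E u) (n4 : σ' / W * B ≤ sgm / G.w u * E u)
    (H : ∀ {k k' : ℕ}, G.ra u κ - 1 ≤ k → k ≤ G.re u κ → G.ra u κ - 1 ≤ k' → k' ≤ G.re u κ → ∀ x x' : ℤ, |lat16 μ s κ₀ ((k' : ℤ), x')| ≤ W →
      bh16 μ s Γ.h η Γ.p Γ.M Γ.N k x ≤ Real.exp ((A + σ' * (|lat16 μ s κ₀ ((k : ℤ), x)| / W)) * B) * bh16 μ s Γ.h η Γ.p Γ.M Γ.N k' x') :
    η ∈ Ou μ s Γ G E R (sgm * R) (sgm * R) sgm 0 u κ := by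
  refine ⟨ouT_of (W' := W) (X := (A + σ') * B) hv ho n1 n2 fun k k' y y' a1 a2 a3 a4 a5 a6 => ?_,
    ouD_of (W' := W) (w' := W) (E' := B) (Q := A) (σ := σ') hv ho n1 hW hB hσ n3 n4 fun y y₀ hy₀ => ?_⟩
  · refine (H (by omega) a4 (by omega) a2 y' y a5).trans ?_
    refine mul_le_mul_of_nonneg_right (Real.exp_le_exp.2 (mul_le_mul_of_nonneg_right ?_ hB))
      (Pool.Agent.W_7d29a1_C1.Ou37.bn_pos (μ := μ) (s := s) (Γ := Γ) k y η).le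
    have h1 : |lat16 μ s κ₀ ((k' : ℤ), y')| / W ≤ 1 := (div_le_one hW).2 a6
    have h2 := mul_le_mul_of_nonneg_left h1 hσ
    linarith
  · have h1 : G.ra u κ - 1 ≤ G.re u κ := by
      have := G.ra_le_re u κ
      omega
    exact H h1 le_rfl h1 le_rfl y y₀ hy₀

/-- **THE SET `Ou` AT EVERY RADIUS `R ≥ Rmin`, POINTWISE, THE NUMBERS CHOSEN.** -/
theorem ouP20 (h0 : In μ s c C n₀) : ∃ (e : ℝ) (K₀ : ℕ), 0 < e ∧ 8 ≤ K₀ ∧ ∀ P : ℕ, ∀ {Kf θ : ℝ}, 6 ≤ Kf → 0 < θ →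
    ∃ (C₉ : ℝ) (n₁ : ℕ), 1 ≤ C₉ ∧ 1 ≤ n₁ ∧ ∀ {K : ℕ}, K₀ ≤ K → ∀ {Cl Q₀ σ x y Cb sgm : ℝ}, 0 ≤ Cl → 0 ≤ Q₀ → 0 ≤ σ → σ ≤ c / 8 → 1 ≤ x → 1 ≤ y →
    max x y ^ 4 < (K : ℝ) ^ e → 0 ≤ Cb → 0 < sgm → ∃ Rmin : ℝ, 1 ≤ Rmin ∧ ∀ R : ℝ, Rmin ≤ R → ∃ Jmax : ℕ, ∀ T0 : ℕ, n₁ ≤ T0 →
    Wok μ s T0 K → ∃ J : ℕ → ℕ, (∀ u, 1 ≤ J u ∧ J u ≤ Jmax) ∧
    ∀ {Γ : Cx} {G : Gm} {E : ℕ → ℝ} {η : Env} {u : ℕ} {κ : ℤ × ℤ} {κ₀ : Pt} {D : ℝ}, Γ.s = s → G.v = sl μ s →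
      G.w u = wd μ s (Tk T0 K u) → E u = EE μ s (Tk T0 K u) → |lb0 G κ₀ - G.ctr u κ| ≤ D → D ≤ G.w u →
    ∀ {Kt : ℕ} {r T Nr : ℕ → ℕ} {q : ℕ → ℝ} {bs : ℕ → Pt} {a t n' N' : ℕ} {q' : ℝ} {b' : Pt}, K₀ ≤ Kt →
      |Γ.h| * wd μ s (T t) ≤ c / 8 * EE μ s (T t) → r (t + 1) ≤ Γ.N → (Γ.N : ℝ) + 1 ≤ Real.exp (EE μ s (T t)) →
      EE μ s (T t) ≤ Cb * EE μ s (Tk T0 K (u + J u)) → wd μ s (Tk T0 K (u + J u)) ≤ wd μ s (T t) →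
      Win20 μ s c θ Kf Γ.h P η κ₀ r T Nr q bs Kt (Cl * x ^ (J u + 1)) n₁ a t (G.ra u κ - 1) (G.re u κ) n' N' q' b' →
      ∀ {y₀ : ℤ}, |lt μ s κ₀ r (t + 1) y₀| ≤ wd μ s (T t) - 1 →
      (∀ z : ℤ, bh16 μ s Γ.h η Γ.p Γ.M Γ.N (r (t + 1)) z ≤
        Real.exp ((Q₀ * y ^ (J u + 1) + σ * (|lt μ s κ₀ r (t + 1) z| / wd μ s (T t))) * EE μ s (T t)) *
          bh16 μ s Γ.h η Γ.p Γ.M Γ.N (r (t + 1)) y₀) →
      η ∈ Ou μ s Γ G E R (sgm * R) (sgm * R) sgm 0 u κ := by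
  obtain ⟨K₀, hK₀, HW⟩ := win20 h0
  obtain ⟨e, n₂, he, hn₂, HN⟩ := prN20 h0
  refine ⟨e, max 8 K₀, he, le_max_left _ _, fun P {Kf θ} hKf hθ => ?_⟩
  obtain ⟨C₉, n₁, hC₉, hn₁, HW⟩ := HW P hKf hθ
  refine ⟨C₉, max n₁ n₂, hC₉, hn₁.trans (le_max_left _ _), ?_⟩
  intro K hK Cl Q₀ σ x y Cb sgm hCl hQ₀ hσ0 hσ hx hy hxy hCb hsg
  obtain ⟨Rmin, hR1, HN⟩ := HN K ((le_max_left _ _).trans hK) (C₉ := C₉) (Cl := Cl) (Q₀ := Q₀) (σ' := σ + 1) (x := x) (y := y) (Cb := Cb)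
    (sgm := sgm) (by linarith) hCl hQ₀ (by linarith) hx hy hxy hCb hsg
  refine ⟨Rmin, hR1, fun R hR => ?_⟩
  obtain ⟨Jmax, HN⟩ := HN R hR
  refine ⟨Jmax, fun T0 hT hWk => ?_⟩
  obtain ⟨J, hJ, -⟩ := HN T0 ((le_max_right _ _).trans hT) hWk
  refine ⟨J, fun u => ⟨(hJ u).1, (hJ u).2.1⟩, ?_⟩
  intro Γ G E η u κ κ₀ D hΓ hv hw hE ho hD Kt r T Nr q bs a t n' N' q' b' hKt hh hrN hN hEE hwd hwin y₀ hy₀ hD2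
  obtain ⟨-, -, HJ⟩ := hJ u
  have hEt := EE_pos (μ := μ) (s := s) (T t)
  have hD0 : 0 ≤ D := (abs_nonneg _).trans ho
  obtain ⟨m1, m2, m3, m4⟩ := HJ (B := EE μ s (T t)) (W := wd μ s (T t)) (D := D) hEt.le hEE hwd hD0 (by rw [← hw]; exact hD)
  rw [← hw] at m1 m4
  rw [← hE] at m2 m3 m4
  have hw0 := G.w_pos u
  have hWt : 0 < wd μ s (T t) := lt_of_lt_of_le (by nlinarith [hR1.trans hR]) m1
  have hp : ∀ k, k < Γ.M → Γ.p k = Real.exp (s + Γ.h) := fun k hk => by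
    unfold Cx.p
    rw [if_pos hk, hΓ]
  have hp' : ∀ k, Γ.M ≤ k → Γ.p k = Real.exp s := fun k hk => by
    unfold Cx.p
    rw [if_neg (by omega), hΓ]
  have hwin' : Win20 μ s c θ Kf Γ.h P η κ₀ r T Nr q bs Kt (Cl * x ^ (J u + 1)) n₁ a t (G.ra u κ - 1) (G.re u κ) n' N' q' b' :=
    ⟨hwin.lay.sub le_rfl le_rfl (le_max_left _ _), hwin.hat, hwin.gro, hwin.lev, (le_max_left _ _).trans hwin.n1, hwin.n2, hwin.nw, hwin.N1,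
      hwin.q0, hwin.q1, hwin.k1, hwin.b1, hwin.b2, hwin.b3, hwin.far, hwin.len⟩
  exact ouW20 hv ho hWt hEt.le (by linarith) m1 m2 m3 m4 fun {k k'} a1 a2 a3 a4 z z' hz' =>
    HW ((le_max_right _ _).trans hKt) (by positivity) (by positivity) hσ0 hσ hp hp' hh hrN hN hwin' hy₀ hD2 a1 a2 a3 a4 z z' hz'

end

end Pool.Agent.W_7d29a1_C1.OuQ20
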