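import Pool.Agent.W_7d29a1_C1.OwnT67
import Pool.Agent.W_7d29a1_C1.ArmD88

/-!
MP_7d29a1_pr, [C1] attractor route, TAME OF THE WINDOW of a clean tower: arms (`arm88`) + top boundary (`topQ67`) + `own67`. (helper67)

Two scale functions: the heights `T v` (levels `Far16` of the layer `v` = rows `(r v, r (v + 1)]`) and the labels `Tn v ≤ T v ≤ kT Tn v` (nodes of
the arms). `wd_le67`: the width is monotone up to a constant. `tame67`: TAME of the rows `r (u + 1), .., e`, `r (u + 2) ≤ e < r (u + 3)`, from the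
layers `u, .., u + m`, the nodes `1 ≤ i < m`, and the regularity of the mass at the row `r (u + m + 1)` with the constant `Q0 g ^ m`, `g ^ 4 < 4`.
-/

set_option autoImplicit false

namespace Pool.Agent.W_7d29a1_C1.Own67

open MeasureTheory ProbabilityTheory Filter Topology Finset
open Pool.Agent.W_7d29a1_F Pool.Agent.W_7d29a1_h4g Pool.Agent.W_7d29a1_H Pool.Agent.W_7d29a1_HS
open Pool.Agent.W_7d29a1_C1.H75 Pool.Agent.W_7d29a1_C1.U16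
open Pool.Agent.W_7d29a1_C1.FarK89 Pool.Agent.W_7d29a1_C1.FarW89 Pool.Agent.W_7d29a1_C1.DD84 Pool.Agent.W_7d29a1_C1.SysN89
open Pool.Agent.W_7d29a1_C1.H94 (nu Cs94)
open Pool.Agent.W_7d29a1_C1.ArmD88

noncomputable section

variable {μ : Measure ℝ} [IsProbabilityMeasure μ] {s c C : ℝ} {n₀ : ℕ}

/-- The width is monotone up to a constant. -/
theorem wd_le67 (h0 : In μ s c C n₀) : ∃ (Cw : ℝ) (n₁ : ℕ), 1 ≤ Cw ∧ 1 ≤ n₁ ∧ ∀ m n : ℕ, n₁ ≤ m → m ≤ n → wd μ s m ≤ Cw * wd μ s n := by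
  obtain ⟨a, k, ha, hk, n₁, hn₁, H⟩ := wd_ratio h0
  refine ⟨max 1 (1 / k), n₁, le_max_left _ _, hn₁, fun m n hm hmn => ?_⟩
  have hm0 : (0 : ℝ) < m := by exact_mod_cast hn₁.trans hm
  have hwm := h0.wd_pos (hn₁.trans hm)
  have hwn := h0.wd_pos (hn₁.trans (hm.trans hmn))
  have h1 : (1 : ℝ) ≤ ((n : ℝ) / m) ^ a := by
    refine Real.one_le_rpow ?_ ha.le
    rw [one_le_div hm0]
    exact_mod_cast hmn
  have h2 := H m n hm hmn
  have h3 : k * wd μ s m ≤ wd μ s n := by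
    refine le_trans ?_ h2
    have h4 : k * 1 * wd μ s m ≤ k * ((n : ℝ) / m) ^ a * wd μ s m :=
      mul_le_mul_of_nonneg_right (mul_le_mul_of_nonneg_left h1 hk.le) hwm.le
    linarith
  have h4 : wd μ s m ≤ 1 / k * wd μ s n := by
    rw [one_div, ← div_eq_inv_mul, le_div_iff₀ hk]
    linarith
  exact h4.trans (mul_le_mul_of_nonneg_right (le_max_right _ _) hwn.le)

/-- **TAME OF THE WINDOW OF A CLEAN TOWER.** -/
theorem tame67 (h0 : In μ s c C n₀) : ∃ (Cw : ℝ) (K₀ : ℕ), 1 ≤ Cw ∧ 2 ≤ K₀ ∧ ∀ {θa : ℝ}, 0 < θa → ∀ (K0 : ℕ) {Bn : ℕ}, 1 ≤ Bn →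
    ∃ K1 : ℕ, 4 ≤ K1 ∧ ∀ {c₀ δ₁ c₁ A aa ga Y₁ : ℝ} {Kb n₃ : ℕ}, Cs94 μ s c₀ δ₁ c₁ A aa ga θa Y₁ K0 Kb n₃ →
    ∀ Kr kT : ℕ, 1 ≤ Kr → 1 ≤ kT → 4 * Kr * Bn ≤ Kb → ∀ (P : ℕ) {K θ g Q0 : ℝ}, 4 ≤ K → 0 < θ → 1 ≤ g → g ^ 4 < 4 → 1 ≤ Q0 →
    ∃ m₀ n₁ : ℕ, 4 ≤ m₀ ∧ 1 ≤ n₁ ∧ ∀ q R : ℝ, 0 ≤ q → 1 ≤ R → 2 * R ≤ K - 2 → ∃ Q' : ℝ, 0 < Q' ∧
    ∀ {h σ Y : ℝ} {η : Env} {κ b₁ b₂ : Pt} {p : ℕ → ℝ} {M N N₁ N₂ e : ℕ} {r T Tn Nr : ℕ → ℕ} {qs : ℕ → ℝ} {bs : ℕ → Pt} {u m l0 Ra : ℕ}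
      {xc : ℕ → ℤ} {y₀ : ℤ}, m₀ ≤ m → (∀ k, k < M → p k = Real.exp (s + h)) → (∀ k, M ≤ k → p k = Real.exp s) →
      -- the layers
      Lay89 μ s c θ K h P η κ r T Nr qs bs u (u + m + 1) n₁ → (∀ v, u ≤ v → v < u + m → K₀ * T v ≤ T (v + 1)) →
      (∀ v, u ≤ v → v ≤ u + m → (1 + qs v) ^ 2 ≤ Q0 * g ^ m) →
      -- the labels
      (∀ v, u ≤ v → v ≤ u + m → Tn v ≤ T v ∧ T v ≤ kT * Tn v) → (∀ v, u ≤ v → v < u + m → n₁ ≤ Tn v) →
      (∀ v, u ≤ v → v < u + m → K1 * Tn v ≤ Tn (v + 1) ∧ Tn (v + 1) ≤ Kr * Tn v) →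
      (∀ v, u ≤ v → v < u + m → r (v + 1) ≤ r v + Tn v ∧ Tn v ≤ Bn * (r (v + 1) - r v)) →
      -- the force, the size
      |h| * wd μ s (T (u + m)) ≤ c / 8 * EE μ s (T (u + m)) →
      |h| * wd μ s (T (u + 1)) ≤ c / 8 * EE μ s (T (u + 1)) → |h| * wd μ s (T (u + 2)) ≤ c / 8 * EE μ s (T (u + 2)) →
      r (u + m + 1) ≤ N → (N : ℝ) + 1 ≤ Real.exp (EE μ s (T (u + m))) → 16 * (N : ℝ) ≤ Real.exp (c₁ * EE μ s (r (u + 3) - r u)) →
      -- the regularity above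
      |lt μ s κ r (u + m + 1) y₀| ≤ (K - 2) / 2 * wd μ s (T (u + m)) - 1 → 0 ≤ σ → σ ≤ c / 64 →
      (∀ y : ℤ, bh16 μ s h η p M N (r (u + m + 1)) y ≤ Real.exp ((Q0 * g ^ m + σ * (|lt μ s κ r (u + m + 1) y| / wd μ s (T (u + m)))) *
        EE μ s (T (u + m))) * bh16 μ s h η p M N (r (u + m + 1)) y₀) →
      -- the nodes
      (∀ i, 1 ≤ i → i < m → r (u + (i + 1)) ≤ M ∨ M ≤ r (u + (i - 1))) →
      1 ≤ Ra → 8 ≤ Y → 8 * Y₁ ≤ Y → 1 + Cw * (2 ^ (l0 + 1) * Y) ≤ R →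
      (∀ i, 1 ≤ i → i < m → nu μ s c₀ δ₁ Y (wd μ s (Tn (u + (i - 1)))) (wd μ s (Tn (u + i)) / wd μ s (Tn (u + (i - 1)))) Ra
        (r (u + (i - 1)) : ℤ) (r (u + i) - r (u + (i - 1))) (r (u + (i + 1)) - r (u + i)) (xc i) η ≤
          ((i : ℤ) - (3 : ℕ)).natAbs + l0) →
      (∀ i, 1 ≤ i → i < m → |lt μ s κ r (u + i) (xc i)| + 1 ≤
        (Ra : ℝ) ^ (((i : ℤ) - (3 : ℕ)).natAbs + l0) * wd μ s (Tn (u + (i - 1)))) →
      -- the two fat levels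
      N₁ ≤ T (u + 1) → N₂ ≤ T (u + 2) →
      η ∈ Far16 μ s c θ K (T (u + 1)) N₁ P b₁ q → η ∈ Far16 μ s c θ K (T (u + 2)) N₂ P b₂ q →
      |lat16 μ s κ b₁| ≤ wd μ s (T (u + 1)) → |lat16 μ s κ b₂| ≤ wd μ s (T (u + 2)) →
      b₁.1 ≤ r u → (r (u + 2) : ℤ) ≤ b₁.1 + N₁ → b₂.1 ≤ r (u + 1) → (r (u + 3) : ℤ) ≤ b₂.1 + N₂ →
      r (u + 2) ≤ e → e ≤ r (u + 3) → θ * T (u + 1) ≤ ((r (u + 1) - r u : ℕ) : ℝ) →
      θ * T (u + 2) ≤ ((r (u + 2) - r (u + 1) : ℕ) : ℝ) → θ * T (u + 2) ≤ ((r (u + 3) - e : ℕ) : ℝ) →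
      ∀ (k k' : ℕ) (y y' : ℤ), r (u + 1) ≤ k → k ≤ e → r (u + 1) ≤ k' → k' ≤ e →
        |lat16 μ s κ ((k : ℤ), y)| ≤ R * wd μ s (T (u + 1)) → |lat16 μ s κ ((k' : ℤ), y')| ≤ R * wd μ s (T (u + 1)) →
        bh16 μ s h η p M N k' y' ≤ Real.exp (Q' * EE μ s (T (u + 1))) * bh16 μ s h η p M N k y := by
  obtain ⟨Cw, nw, hCw, hnw, HW⟩ := wd_le67 h0
  obtain ⟨Bw, nb, hBw, hnb, HB⟩ := wd_next67 h0
  obtain ⟨K₂, hK₂, HQ⟩ := topQ67 h0
  obtain ⟨K₃, hK₃, HO⟩ := own67 h0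
  refine ⟨Cw, max K₂ K₃, hCw, hK₂.trans (le_max_left _ _), fun {θa} hθa K0 {Bn} hBn => ?_⟩
  obtain ⟨K1, n₄, hK1, HA⟩ := arm88 h0 hθa K0 hBn
  refine ⟨K1, hK1, fun {c₀ δ₁ c₁ A aa ga Y₁} {Kb n₃} hC Kr kT hKr hkT hKb P {K θ g Q0} hK hθ hg1 hg hQ0 => ?_⟩
  have hKr1 : (1 : ℝ) ≤ Kr := by exact_mod_cast hKr
  have hkT1 : (1 : ℝ) ≤ kT := by exact_mod_cast hkT
  have hKK : (1 : ℝ) ≤ kT * Kr := one_le_mul_of_one_le_of_one_le hkT1 hKr1
  obtain ⟨X, n₅, hX, hn₅, HQ⟩ := HQ P hK hθ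
  obtain ⟨n₆, hn₆, HO⟩ := HO P (K := K) (θ := θ) (Kb := kT * Kr) (by linarith) hθ hKK
  obtain ⟨m₀, hm₀, Hm⟩ := num_top67 hg1 hg (X * Q0 ^ 4 * (Bw * (kT * Kr)))
  obtain ⟨n₇, hn₇⟩ := eventually_atTop.1 ((wd_tendsto h0).eventually_ge_atTop 2)
  refine ⟨m₀, max (max (max n₄ (Bn * n₃)) (max n₅ n₆)) (max (max nw nb) n₇), hm₀, ?_, fun q R hq hR hRK => ?_⟩
  · exact hnw.trans ((le_max_left _ _).trans ((le_max_left _ _).trans (le_max_right _ _)))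
  obtain ⟨Q', hQ', HO⟩ := HO q R hq hR hRK
  refine ⟨Q', hQ', ?_⟩
  obtain ⟨n₁, hn₁⟩ : ∃ n₁, n₁ = max (max (max n₄ (Bn * n₃)) (max n₅ n₆)) (max (max nw nb) n₇) := ⟨_, rfl⟩
  rw [← hn₁]
  have l4 : n₄ ≤ n₁ := by rw [hn₁]; exact (le_max_left _ _).trans ((le_max_left _ _).trans (le_max_left _ _))
  have l3 : Bn * n₃ ≤ n₁ := by rw [hn₁]; exact (le_max_right _ _).trans ((le_max_left _ _).trans (le_max_left _ _))
  have l5 : n₅ ≤ n₁ := by rw [hn₁]; exact (le_max_left _ _).trans ((le_max_right _ _).trans (le_max_left _ _))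
  have l6 : n₆ ≤ n₁ := by rw [hn₁]; exact (le_max_right _ _).trans ((le_max_right _ _).trans (le_max_left _ _))
  have lw : nw ≤ n₁ := by rw [hn₁]; exact (le_max_left _ _).trans ((le_max_left _ _).trans (le_max_right _ _))
  have lb : nb ≤ n₁ := by rw [hn₁]; exact (le_max_right _ _).trans ((le_max_left _ _).trans (le_max_right _ _))
  have l7 : n₇ ≤ n₁ := by rw [hn₁]; exact (le_max_right _ _).trans (le_max_right _ _)
  intro h σ Y η κ b₁ b₂ p M N N₁ N₂ e r T Tn Nr qs bs u m l0 Ra xc y₀ hm hp hp' hL hTK hq2 hTn hTn1 hTnK hrows hh hh1 hh2 hrN hN hN16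
    hy₀ hσ0 hσ hD2 hM hRa hY hY1 hRY hnu hxc hN₁ hN₂ hf1 hf2 hb1 hb2 hb1r hb1r' hb2r hb2r' hr2e her3 hθ1 hθ3 hθe k k' y y' hk1 hk2 hk1' hk2' hy hy'
  have hm4 : 4 ≤ m := hm₀.trans hm
  have hpp : ∀ k, 0 < p k := fun k => by
    rcases lt_or_ge k M with h1 | h1
    · rw [hp k h1]; exact Real.exp_pos _
    · rw [hp' k h1]; exact Real.exp_pos _
  have S := sys_model16 (μ := μ) (s := s) (h := h) (η := η) (p := p) (M := M) (N := N) hpp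
  have hT1 : ∀ v, u ≤ v → v ≤ u + m → n₁ ≤ T v := fun v h1 h2 => hL.T1 v h1 (by omega)
  have hw2 : ∀ v, u ≤ v → v ≤ u + m → 2 ≤ wd μ s (T v) := fun v h1 h2 => hn₇ _ (l7.trans (hT1 v h1 h2))
  -- the start
  obtain ⟨x, hx⟩ : ∃ x : ℤ, |lt μ s κ r u x| ≤ 1 := ⟨κ.2 + ⌊sl μ s * (((r u : ℤ) - κ.1 : ℤ) : ℝ)⌋, lat_lp κ (r u : ℤ)⟩
  obtain ⟨Z, hZ⟩ : ∃ Z : ℝ, Z = 2 ^ (l0 + 1) * Y := ⟨_, rfl⟩
  have h2l : (2 : ℝ) ≤ 2 ^ (l0 + 1) := by
    rw [pow_succ]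
    have : (1 : ℝ) ≤ 2 ^ l0 := one_le_pow₀ one_le_two
    linarith
  have hZ16 : 16 ≤ Z := by
    rw [hZ]
    nlinarith
  have hKm : 1 ≤ Q0 * g ^ m := one_le_mul_of_one_le_of_one_le hQ0 (one_le_pow₀ hg1)
  have hrmono : ∀ i, i ≤ m + 1 → r u ≤ r (u + i) := by
    intro i
    induction i with
    | zero => intro _; rw [add_zero]
    | succ i ih =>
      intro hi
      exact (ih (by omega)).trans (hL.rr (u + i) (by omega) (by omega))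
  have hrmono2 : ∀ i j, i ≤ j → j ≤ m + 1 → r (u + i) ≤ r (u + j) := by
    intro i j hij
    induction j with
    | zero => intro _; rw [show i = 0 by omega]
    | succ j ih =>
      intro hj
      rcases Nat.eq_or_lt_of_le hij with h1 | h1
      · rw [h1]
      · exact (ih (by omega) (by omega)).trans (hL.rr (u + j) (by omega) (by omega))
  have hrmN : r (u + m) ≤ N := (hrmono2 m (m + 1) (by omega) le_rfl).trans hrN
  -- the size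
  have hnum : 16 * (((r (u + m) - r u : ℕ) : ℝ) * Real.exp (-(c₁ * (Z / 8 * EE μ s (r (u + 3) - r u))))) ≤ 1 := by
    have h1 : ((r (u + m) - r u : ℕ) : ℝ) ≤ N := by exact_mod_cast (by omega : r (u + m) - r u ≤ N)
    have hE := EE_pos (μ := μ) (s := s) (r (u + 3) - r u)
    have hc1 := hC.c₁0
    have h2 : Real.exp (-(c₁ * (Z / 8 * EE μ s (r (u + 3) - r u)))) ≤ Real.exp (-(c₁ * EE μ s (r (u + 3) - r u))) := by
      refine Real.exp_le_exp.2 (neg_le_neg ?_)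
      refine mul_le_mul_of_nonneg_left ?_ hc1.le
      nlinarith
    have h3 : 0 < Real.exp (c₁ * EE μ s (r (u + 3) - r u)) := Real.exp_pos _
    have h4 : (0 : ℝ) ≤ ((r (u + m) - r u : ℕ) : ℝ) := Nat.cast_nonneg _
    calc 16 * (((r (u + m) - r u : ℕ) : ℝ) * Real.exp (-(c₁ * (Z / 8 * EE μ s (r (u + 3) - r u))))) ≤
        16 * ((N : ℝ) * Real.exp (-(c₁ * EE μ s (r (u + 3) - r u)))) :=
          mul_le_mul_of_nonneg_left (mul_le_mul h1 h2 (Real.exp_pos _).le (by linarith)) (by norm_num)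
      _ = 16 * (N : ℝ) / Real.exp (c₁ * EE μ s (r (u + 3) - r u)) := by
          rw [Real.exp_neg]
          ring
      _ ≤ 1 := by
          rw [div_le_one h3]
          exact hN16
  -- the top boundary
  have htop : 16 * (((r (u + m) - r u : ℕ) : ℝ) * PM16 (fun a b x z => nk μ s h η p M a (b - a) x z) (bh16 μ s h η p M N) (r u) (r (u + m)) x
      (fun z => 4 ^ (m - 3) * (Z * wd μ s (Tn (u + (m - 1)))) ≤ |lt μ s κ r (u + m) z - lt μ s κ r u x|)) ≤ bh16 μ s h η p M N (r u) x := by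
    refine HQ (σ := σ) (Qm := Q0 * g ^ m) (T := T) (Nr := Nr) (q := qs) (bs := bs) (y₀ := y₀) (by omega) hKm ?_ hp hp'
      (hL.sub le_rfl le_rfl l5) (fun v h1 h2 => (Nat.mul_le_mul_right _ (le_max_left _ _)).trans (hTK v h1 h2)) hq2 hh hrN hN ?_ hy₀ hσ0 hσ hD2
    · have e1 : u + (m - 1) + 1 = u + m := by omega
      have g1 := hTn (u + m) (by omega) le_rfl
      have g2 := (hTnK (u + (m - 1)) (by omega) (by omega)).2
      have g0 := (hTnK (u + (m - 1)) (by omega) (by omega)).1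
      rw [e1] at g2 g0
      have g3 : T (u + m) ≤ kT * Kr * Tn (u + (m - 1)) := by
        calc T (u + m) ≤ kT * Tn (u + m) := g1.2
          _ ≤ kT * (Kr * Tn (u + (m - 1))) := Nat.mul_le_mul_left _ g2
          _ = _ := by ring
      have g4 : Tn (u + (m - 1)) ≤ T (u + m) := by
        have : 1 * Tn (u + (m - 1)) ≤ K1 * Tn (u + (m - 1)) := Nat.mul_le_mul_right _ (by omega)
        omega
      have g5 := HB (m := Tn (u + (m - 1))) (n := T (u + m)) (Kb := kT * Kr) (lb.trans (hTn1 (u + (m - 1)) (by omega) (by omega))) g4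
        (by exact_mod_cast g3)
      have g6 := Hm m hm
      have hwt := hw2 (u + m) (by omega) le_rfl
      have hwn : 0 < wd μ s (Tn (u + (m - 1))) := h0.wd_pos (hnw.trans (lw.trans (hTn1 (u + (m - 1)) (by omega) (by omega))))
      have h4m : (0 : ℝ) < 4 ^ (m - 3) := by positivity
      calc X * (Q0 * g ^ m) ^ 4 * wd μ s (T (u + m)) ≤ X * (Q0 * g ^ m) ^ 4 * (Bw * (kT * Kr) * wd μ s (Tn (u + (m - 1)))) :=
            mul_le_mul_of_nonneg_left g5 (by positivity)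
        _ = X * Q0 ^ 4 * (Bw * (kT * Kr)) * (g ^ m) ^ 4 * wd μ s (Tn (u + (m - 1))) := by ring
        _ ≤ 4 ^ (m - 3) * wd μ s (Tn (u + (m - 1))) := mul_le_mul_of_nonneg_right g6 hwn.le
        _ ≤ 4 ^ (m - 3) * (Z * wd μ s (Tn (u + (m - 1)))) := by
            refine mul_le_mul_of_nonneg_left ?_ h4m.le
            nlinarith
    · have g1 := hw2 u le_rfl (by omega)
      nlinarith
  -- the arms
  have hnear := HA hC Kr hKb S hp hp' (κ := κ) (r := r) (T := Tn) (u := u) (m := m) (j := 3) (by norm_num) (by omega)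
    (fun i hi => ⟨hL.rr (u + i) (by omega) (by omega), (hrows (u + i) (by omega) (by omega)).1⟩)
    (fun i hi => (hrows (u + i) (by omega) (by omega)).2)
    (fun i hi => ⟨l4.trans (hTn1 (u + i) (by omega) (by omega)), l3.trans (hTn1 (u + i) (by omega) (by omega))⟩)
    (fun i hi => hTnK (u + i) (by omega) (by omega)) hrmN hM (x := x) (xc := xc) (R := Ra) (Y := Y) (Z := Z) (l0 := l0) hRa hY hY1
    (by rw [hZ]) hnu (fun i h1 h2 => by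
      have g1 := hxc i h1 h2
      have g2 := abs_sub (lt μ s κ r (u + i) (xc i)) (lt μ s κ r u x)
      linarith) hnum htop
  -- the own slab
  have e2 : u + 1 + 1 = u + 2 := rfl
  have hTn2 := hTn (u + 2) (by omega) (by omega)
  have hT2K : (T (u + 2) : ℝ) ≤ kT * Kr * T (u + 1) := by
    have g1 := (hTnK (u + 1) (by omega) (by omega)).2
    have g2 := (hTn (u + 1) (by omega) (by omega)).1
    have g3 : T (u + 2) ≤ kT * Kr * T (u + 1) := by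
      calc T (u + 2) ≤ kT * Tn (u + 2) := hTn2.2
        _ ≤ kT * (Kr * Tn (u + 1)) := Nat.mul_le_mul_left _ g1
        _ ≤ kT * (Kr * T (u + 1)) := Nat.mul_le_mul_left _ (Nat.mul_le_mul_left _ g2)
        _ = _ := by ring
    exact_mod_cast g3
  have hwd1 := hw2 (u + 1) (by omega) (by omega)
  have hwd2 := hw2 (u + 2) (by omega) (by omega)
  have hZw : Z * wd μ s (Tn (u + 2)) ≤ Cw * Z * wd μ s (T (u + 2)) := by
    have g1 := HW (Tn (u + 2)) (T (u + 2)) (lw.trans (hTn1 (u + 2) (by omega) (by omega))) hTn2.1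
    calc Z * wd μ s (Tn (u + 2)) ≤ Z * (Cw * wd μ s (T (u + 2))) := mul_le_mul_of_nonneg_left g1 (by linarith)
      _ = _ := by ring
  refine HO (r := r) (T := T) (u := u) (l6.trans (hT1 (u + 1) (by omega) (by omega)))
    ((Nat.mul_le_mul_right _ (le_max_right _ _)).trans (hTK (u + 1) (by omega) (by omega))) hT2K hN₁ hN₂ hh1 hh2 hp hp' S hf1 hf2 hb1 hb2
    hb1r (hrmono2 0 1 (by omega) (by omega)) (hrmono2 1 2 (by omega) (by omega)) hr2e her3 hb1r' hb2r hb2r'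
    ((hrmono2 3 (m + 1) (by omega) le_rfl).trans hrN) hθ1 hθ3 hθe (x := x) (D := Z * wd μ s (Tn (u + 2))) ?_ ?_ hnear
    k k' y y' hk1 hk2 hk1' hk2' hy hy'
  · nlinarith
  · have g1 : (1 + Cw * Z) * wd μ s (T (u + 2)) ≤ R * wd μ s (T (u + 2)) := by
      refine mul_le_mul_of_nonneg_right ?_ (by linarith)
      rw [hZ]
      exact hRY
    nlinarith

end

end Pool.Agent.W_7d29a1_C1.Own67
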