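import Pool.Agent.W_7d29a1_C1.PLv86
import Pool.Agent.W_7d29a1_C1.StW86
import Pool.Agent.W_7d29a1_C1.SepL98

/-!
Both halves (MP_7d29a1_pr), attractor route [C1], SEP: P(not Lv), THE FACTORS AT THE NUMBER RECORDS, static form (helper86)

`lv86` : the factors (`Fac86`) give the typical set (`St86`). `facUp86`, `facLo86`, `facKL86`, `facSt86`, `facFar86` : the factors for `R := nr98 ..`
(SepL98) and a number record `P` of the geometry, in the order of the constants.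
-/

set_option autoImplicit false

namespace Pool.Agent.W_7d29a1_C1.PL86

open MeasureTheory ProbabilityTheory Finset Filter Topology
open Pool.Agent.W_7d29a1_F hiding Bw G
open Pool.Agent.W_7d29a1_h4g Pool.Agent.W_7d29a1_H Pool.Agent.W_7d29a1_HS
open Pool.Agent.W_7d29a1_C1
open Pool.Agent.W_7d29a1_C1.H60
open Pool.Agent.W_7d29a1_C1.H75
open Pool.Agent.W_7d29a1_C1.G37 (Gm)
open Pool.Agent.W_7d29a1_C1.BP58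
open Pool.Agent.W_7d29a1_C1.RB22
open Pool.Agent.W_7d29a1_C1.D98

noncomputable section

variable {μ : Measure ℝ} {s c C kw : ℝ} {n₀ : ℕ} {P : Gm → Nm98} {R : Gm → Nr98} {S S' : Cx → Gm → ℕ → ℤ × ℤ → Set Env} {e e' : ℝ}

/-- Two properties of the windows from a threshold on. -/
theorem wd_and86 {A B : Cx → Gm → ℕ → ℤ × ℤ → Prop}
    (hA : ∃ n₁ : ℕ, ∀ (Γ : Cx) (G : Gm) (u : ℕ) (κ : ℤ × ℤ), Wd86 μ s c kw P n₁ Γ G u κ → A Γ G u κ)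
    (hB : ∃ n₁ : ℕ, ∀ (Γ : Cx) (G : Gm) (u : ℕ) (κ : ℤ × ℤ), Wd86 μ s c kw P n₁ Γ G u κ → B Γ G u κ) :
    ∃ n₁ : ℕ, ∀ (Γ : Cx) (G : Gm) (u : ℕ) (κ : ℤ × ℤ), Wd86 μ s c kw P n₁ Γ G u κ → A Γ G u κ ∧ B Γ G u κ := by
  obtain ⟨n₁, hA⟩ := hA
  obtain ⟨n₂, hB⟩ := hB
  exact ⟨max n₁ n₂, fun Γ G u κ hw => ⟨hA Γ G u κ (hw.mono (le_max_left _ _)), hB Γ G u κ (hw.mono (le_max_right _ _))⟩⟩

/-- **THE FACTORS OF THE TYPICAL SET**, static form. -/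
structure Lf86 (μ : Measure ℝ) (s c kw : ℝ) (P : Gm → Nm98) (R : Gm → Nr98) (e p : ℝ) : Prop where
  p0 : 0 < p
  pL : ∀ G : Gm, (P G).pL = p / 2
  gt : Fac86 μ s c kw P (fun Γ G u κ => Gt98 μ s c Γ G (P G) u κ) e
  loE : Fac86 μ s c kw P (fun Γ G u κ => LoE98 μ s Γ G (P G) (R G) u κ) e
  loF : Fac86 μ s c kw P (fun Γ G u κ => LoF98 μ s Γ G (P G) (R G) u κ) e
  loT : Fac86 μ s c kw P (fun Γ G u κ => LoT98 μ s Γ G (P G) (R G) u κ) e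
  upS : Fac86 μ s c kw P (fun Γ G u κ => UpS98 μ s c Γ G (P G) (R G) u κ) e
  upF : Fac86 μ s c kw P (fun Γ G u κ => UpF98 μ s c Γ G (P G) (R G) u κ) e
  upT : Fac86 μ s c kw P (fun Γ G u κ => UpT98 μ s c Γ G (P G) (R G) u κ) e
  st : ∃ n₁ : ℕ, ∀ (Γ : Cx) (G : Gm) (u : ℕ) (κ : ℤ × ℤ), Wd86 μ s c kw P n₁ Γ G u κ → ∀ k : ℕ,
    (law μ).real (StB G ((R G).b u) ((R G).Uw u) u κ k)ᶜ ≤ e
  far : Fac86 μ s c kw P (fun _ G u κ => Far98 μ s c G (P G) u κ) e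
  farL : Fac86 μ s c kw P (fun Γ G u κ => FarL98 μ s c Γ G (P G) u κ) e
  ty : Fac86 μ s c kw P (fun Γ G u κ => {ω | p ≤ cP μ (B98 Γ G (P G) u κ) (LE98 μ s c Γ G (P G) u κ) ω}) e
  kl : Fac86 μ s c kw P (fun Γ G u κ => KL98 μ s Γ G (P G) (R G) u κ) (e * p / 2)
  lk : ∃ n₁ : ℕ, ∀ (Γ : Cx) (G : Gm) (u : ℕ) (κ : ℤ × ℤ), Wd86 μ s c kw P n₁ Γ G u κ → (law μ).real (Lk98 μ s Γ G (P G) u κ) ≤ e

/-- **THE TYPICAL SET FROM ITS FACTORS.** -/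
theorem lv86 [IsProbabilityMeasure μ] {p : ℝ} (H : Lf86 μ s c kw P R e p) :
    Fac86 μ s c kw P (fun Γ G u κ => LvA98 μ s c Γ G (P G) (R G) u κ) (15 * e) := by
  obtain ⟨n₁, h1⟩ := wd_and86 (wd_and86 (wd_and86 H.gt (wd_and86 H.loE (wd_and86 H.loF H.loT)))
    (wd_and86 H.upS (wd_and86 H.upF H.upT))) (wd_and86 (wd_and86 H.st (wd_and86 H.far H.farL)) (wd_and86 H.ty (wd_and86 H.kl H.lk)))
  refine ⟨n₁, fun Γ G u κ hw => ?_⟩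
  obtain ⟨⟨⟨a1, a2⟩, a3⟩, ⟨a4, a5⟩, a6, a7, a8⟩ := h1 Γ G u κ hw
  exact plv86 hw.nosw H.p0 (H.pL G) a1 a2 a3 a4 a5 a6 a7 a8

theorem st86 [IsProbabilityMeasure μ] {p : ℝ} (H : Lf86 μ s c kw P R e p) : St86 μ s c kw P R (15 * e) := (lv86 H).st

/-! ### The factors -/

/-- The record `R`. -/
abbrev rn86 (μ : Measure ℝ) (s c b al U₁ Uw V₁ Re Qe : ℝ) : Gm → Nr98 := fun G => nr98 μ s c G b al U₁ Uw V₁ Re Qe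

/-- **THE UPPER KERNELS.** -/
theorem facUp86 [IsProbabilityMeasure μ] (h : In μ s c C n₀) (he : 0 < e) : ∃ V₀ : ℝ, 0 < V₀ ∧
    ∀ (kw : ℝ) (P : Gm → Nm98) (b al U₁ Uw V₁ Re Qe : ℝ), V₀ ≤ V₁ →
      Fac86 μ s c kw P (fun Γ G u κ => UpS98 μ s c Γ G (P G) (rn86 μ s c b al U₁ Uw V₁ Re Qe G) u κ) e ∧
      Fac86 μ s c kw P (fun Γ G u κ => UpF98 μ s c Γ G (P G) (rn86 μ s c b al U₁ Uw V₁ Re Qe G) u κ) e ∧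
      Fac86 μ s c kw P (fun Γ G u κ => UpT98 μ s c Γ G (P G) (rn86 μ s c b al U₁ Uw V₁ Re Qe G) u κ) e := by
  have hc0 := h.c0
  obtain ⟨V₀, hV₀, n₁, hn₁, H⟩ := up98_prob h he (show 0 < c / 16 by positivity)
  refine ⟨V₀, hV₀, fun kw P b al U₁ Uw V₁ Re Qe hV => ?_⟩
  have key : ∀ Γ G u κ, Wd86 μ s c kw P n₁ Γ G u κ → _ := fun Γ G u κ hw =>
    H Γ G (P G) (rn86 μ s c b al U₁ Uw V₁ Re Qe G) u κ hw.T_ge hw.fit (mul_le_mul_of_nonneg_right hV (EE_pos _).le) le_rfl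
  exact ⟨⟨n₁, fun Γ G u κ hw => (key Γ G u κ hw).1⟩, ⟨n₁, fun Γ G u κ hw => (key Γ G u κ hw).2.1⟩,
    ⟨n₁, fun Γ G u κ hw => (key Γ G u κ hw).2.2⟩⟩

/-- **THE LOWER KERNELS.** `hP`: the gate block against the window. -/
theorem facLo86 [IsProbabilityMeasure μ] (h : In μ s c C n₀) (he : 0 < e) : ∃ κ' : ℝ, 0 ≤ κ' ∧ ∀ (kw θ : ℝ), 0 ≤ kw → 0 < θ →
    θ ≤ 1 / 16 → ∃ R₀ Q₀ : ℝ, 0 ≤ R₀ ∧ 0 ≤ Q₀ ∧ ∀ (P : Gm → Nm98) (b al U₁ Uw V₁ Re Qe : ℝ), R₀ ≤ Re → Q₀ ≤ Qe →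
      (∃ n₁ : ℕ, ∀ (Γ : Cx) (G : Gm) (u : ℕ) (κ : ℤ × ℤ), Wd86 μ s c kw P n₁ Γ G u κ → 1 ≤ (P G).n u ∧ θ * G.T u ≤ (P G).n u ∧
        (P G).K2 u * wd μ s ((P G).n u) ≤ G.kw * G.w u - κ' * G.w u) →
      Fac86 μ s c kw P (fun Γ G u κ => LoE98 μ s Γ G (P G) (rn86 μ s c b al U₁ Uw V₁ Re Qe G) u κ) e ∧
      Fac86 μ s c kw P (fun Γ G u κ => LoF98 μ s Γ G (P G) (rn86 μ s c b al U₁ Uw V₁ Re Qe G) u κ) e ∧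
      Fac86 μ s c kw P (fun Γ G u κ => LoT98 μ s Γ G (P G) (rn86 μ s c b al U₁ Uw V₁ Re Qe G) u κ) e := by
  obtain ⟨κ', hκ', H⟩ := lo98_prob h he
  refine ⟨κ', hκ', fun kw θ hkw hθ hθ1 => ?_⟩
  obtain ⟨R₀, Q₀, hR, hQ, n₁, H⟩ := H kw θ hkw hθ hθ1
  refine ⟨R₀, Q₀, hR, hQ, fun P b al U₁ Uw V₁ Re Qe hRe hQe hP => ?_⟩
  obtain ⟨n₂, hP⟩ := hP
  have key : ∀ Γ G u κ, Wd86 μ s c kw P (max n₁ n₂) Γ G u κ → _ := fun Γ G u κ hw =>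
    have h3 := hP Γ G u κ (hw.mono (le_max_right _ _))
    H Γ G (P G) (rn86 μ s c b al U₁ Uw V₁ Re Qe G) u κ hw.w_eq ((le_max_left _ _).trans hw.T_ge) hw.fit h3.1 hw.kw_eq.le hRe hQe
      h3.2.1 h3.2.2
  exact ⟨⟨_, fun Γ G u κ hw => (key Γ G u κ hw).1⟩, ⟨_, fun Γ G u κ hw => (key Γ G u κ hw).2.1⟩,
    ⟨_, fun Γ G u κ hw => (key Γ G u κ hw).2.2⟩⟩

/-- **THE KERNELS OF THE NEW CONTENT.** -/
theorem facKL86 [IsProbabilityMeasure μ] (h : In μ s c C n₀) (he : 0 < e) (hkw : 0 ≤ kw) : ∃ V₂ b₁ U₂ : ℝ, 0 < V₂ ∧ kw + 1 ≤ b₁ ∧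
    0 < U₂ ∧ ∀ (P : Gm → Nm98) (b al U₁ Uw V₁ Re Qe : ℝ), b₁ ≤ b → V₂ ≤ al → U₂ ≤ U₁ →
      Fac86 μ s c kw P (fun Γ G u κ => KL98 μ s Γ G (P G) (rn86 μ s c b al U₁ Uw V₁ Re Qe G) u κ) e := by
  obtain ⟨V₂, b₁, U₂, hV, hb, hU, n₁, H⟩ := kl98_prob h he hkw
  refine ⟨V₂, b₁, U₂, hV, hb, hU, fun P b al U₁ Uw V₁ Re Qe h1 h2 h3 => ⟨n₁, fun Γ G u κ hw => ?_⟩⟩
  have hE := (EE_pos (μ := μ) (s := s) (G.T u)).le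
  refine H Γ G (P G) _ u κ hw.s_eq hw.v_eq hw.v0 hw.v1 hw.w_eq hw.kw_eq hw.rc hw.reN hw.tilt hw.T_ge hw.fit h1
    (Real.exp_le_exp.2 (mul_le_mul_of_nonneg_right h2 hE)) (Real.exp_le_exp.2 (mul_le_mul_of_nonneg_right ?_ hE))
    (mul_le_mul_of_nonneg_right h3 hE)
  show V₂ - c / 2 * b ≤ al - c / 2 * b
  linarith

/-- **THE WEIGHTS OF A ROW.** -/
theorem facSt86 [IsProbabilityMeasure μ] (h : In μ s c C n₀) (he : 0 < e) {b Uw : ℝ} (hb : 0 ≤ b) (hU : 0 < Uw) :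
    ∀ (kw : ℝ) (P : Gm → Nm98) (al U₁ V₁ Re Qe : ℝ), ∃ n₁ : ℕ, ∀ (Γ : Cx) (G : Gm) (u : ℕ) (κ : ℤ × ℤ), Wd86 μ s c kw P n₁ Γ G u κ →
      ∀ k : ℕ, (law μ).real (StB G ((rn86 μ s c b al U₁ Uw V₁ Re Qe G).b u) ((rn86 μ s c b al U₁ Uw V₁ Re Qe G).Uw u) u κ k)ᶜ ≤ e := by
  obtain ⟨n₁, H⟩ := st98_prob h hb hU he
  exact fun kw P al U₁ V₁ Re Qe => ⟨n₁, fun Γ G u κ hw k => H G _ u hw.v_eq hw.w_eq hw.T_ge rfl rfl κ k⟩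

/-- **THE LEVELS OF THE ROWS.** -/
theorem facFar86 [IsProbabilityMeasure μ] (h : In μ s c C n₀) {K θ : ℝ} (hK : 0 < K) (hθ : 0 < θ) (hθ1 : θ ≤ 1) : ∃ PF : ℕ,
    ∀ e : ℝ, 0 < e → ∃ q₀ : ℝ, 0 ≤ q₀ ∧ ∀ q : ℝ, q₀ ≤ q → ∀ (kw : ℝ) (P : Gm → Nm98),
      (∀ G, (P G).KF = K ∧ (P G).th = θ ∧ (P G).PF = PF ∧ (P G).qF = q) →
      Fac86 μ s c kw P (fun _ G u κ => Far98 μ s c G (P G) u κ) e ∧ Fac86 μ s c kw P (fun Γ G u κ => FarL98 μ s c Γ G (P G) u κ) e := by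
  obtain ⟨PF, H⟩ := far98_prob h hK hθ hθ1
  refine ⟨PF, fun e he => ?_⟩
  obtain ⟨q₀, hq₀, H⟩ := H e he
  refine ⟨q₀, hq₀, fun q hq kw P hP => ?_⟩
  obtain ⟨n₁, H⟩ := H q hq
  have key : ∀ Γ G u κ, Wd86 μ s c kw P n₁ Γ G u κ → _ := fun Γ G u κ hw =>
    H Γ G (P G) u κ (hP G).1 (hP G).2.1 (hP G).2.2.1 (hP G).2.2.2 hw.T_ge hw.fit
  exact ⟨⟨n₁, fun Γ G u κ hw => (key Γ G u κ hw).1⟩, ⟨n₁, fun Γ G u κ hw => (key Γ G u κ hw).2⟩⟩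

end

end Pool.Agent.W_7d29a1_C1.PL86
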