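import Pool.Agent.W_7d29a1_C1.MeetR35
import Pool.Agent.W_7d29a1_C1.MeetF35

/-!
[C1] MEET_d, PARALLEL PAIRS, the constants (helper56 75277; helper35). `parM`: for every `K`, `B`, `e` there is `d > 0` such that the bridges
`(0, 0) → (T₁ + T₂, y)` and `(0, r) → (T₁ + T₂, y + r)`, `r ≤ d wd T₁`, `|y - sl (T₁ + T₂)| ≤ K wd T₁`, `T₂ ≤ B T₁`, have no common site in
the rows `0, ..., T₁` with mean quenched probability at most `e`.
-/

set_option autoImplicit false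

namespace Pool.Agent.W_7d29a1_C1.MeetP35

open MeasureTheory ProbabilityTheory Filter Topology Finset
open Pool.Agent.W_7d29a1_F Pool.Agent.W_7d29a1_h4g Pool.Agent.W_7d29a1_H Pool.Agent.W_7d29a1_HS
open Pool.Agent.W_7d29a1_C1.Meet35
open Pool.Agent.W_7d29a1_C1.MeetG35
open Pool.Agent.W_7d29a1_C1.MeetL35
open Pool.Agent.W_7d29a1_C1.EpK35

noncomputable section

variable {μ : Measure ℝ} {s : ℝ} [IsProbabilityMeasure μ] {c C : ℝ} {n₀ : ℕ}

/-- **PARALLEL PAIRS.** -/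
theorem parM (h : In μ s c C n₀) (hA : ArrM) {K B e : ℝ} (hK : 0 ≤ K) (hB : 0 ≤ B) (he : 0 < e) : ∃ d : ℝ, 0 < d ∧ ∃ n₁ : ℕ,
    ∀ T₁ T₂ : ℕ, n₁ ≤ T₁ → (T₂ : ℝ) ≤ B * T₁ → ∀ r : ℕ, (r : ℝ) ≤ d * wd μ s T₁ →
    ∀ y : ℤ, |(y : ℝ) - sl μ s * ((T₁ + T₂ : ℕ) : ℝ)| ≤ K * wd μ s T₁ → ∫ η, PBr μ s η T₁ T₂ 0 y r (y + r) ∂(law μ) ≤ e := by
  have hc0 := h.c0
  have hC0 : 0 < C := lt_of_lt_of_le one_pos h.C1
  obtain ⟨e', he'⟩ : ∃ e' : ℝ, e' = min e 1 := ⟨_, rfl⟩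
  have he'0 : 0 < e' := by rw [he']; exact lt_min he one_pos
  have he'1 : e' ≤ 1 := by rw [he']; exact min_le_right _ _
  have he'e : e' ≤ e := by rw [he']; exact min_le_left _ _
  -- the constants
  obtain ⟨R, hR1, n1, hex⟩ := exit_br h hK hB (show 0 < e' / 8 by positivity)
  obtain ⟨D, hD, n2, hep⟩ := ep_K h (show 0 ≤ 2 * K by positivity)
  obtain ⟨Ks, hKs⟩ := exists_nat_ge (2 * (2 * R + 1))
  obtain ⟨v, hv0, hv1⟩ : ∃ v : ℝ, 0 < v ∧ ((Ks : ℝ) + 1) * (C * Real.exp (-v)) ≤ e' / 8 := by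
    have h1 : Tendsto (fun x : ℝ => (((Ks : ℝ) + 1) * C) * Real.exp (-x)) atTop (𝓝 0) := by
      have := Real.tendsto_exp_neg_atTop_nhds_zero.const_mul (((Ks : ℝ) + 1) * C)
      rw [mul_zero] at this
      exact this
    obtain ⟨u, h2, h3⟩ := ((h1.eventually_le_const (show (0 : ℝ) < e' / 8 by positivity)).and (eventually_gt_atTop 0)).exists
    exact ⟨u, h3, by linarith⟩
  obtain ⟨A₁, hA₁⟩ : ∃ A₁ : ℝ, A₁ = v * C * (2 * (B + 1)) := ⟨_, rfl⟩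
  have hA₁0 : 0 ≤ A₁ := by rw [hA₁]; positivity
  obtain ⟨A₂, hA₂⟩ : ∃ A₂ : ℝ, A₂ = 16 * D * (B + 1) / e' := ⟨_, rfl⟩
  have hA₂0 : 0 < A₂ := by rw [hA₂]; positivity
  obtain ⟨M, hM1, hM2, n3, hsum⟩ := sumI h (coarseP h) (θ := e' / 8) (R := 2 * R + 1) (A := A₁ + A₂ + 2) (e := e' / 8) (by positivity)
    (by linarith) (by linarith) (by linarith) (by positivity) (8 / e')
  have hMR : (1 : ℝ) ≤ M := by exact_mod_cast hM1
  have hM0 : (0 : ℝ) < M := by linarith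
  refine ⟨1 / M, by positivity, max (max n1 n2) (max (max n3 n₀) 1), fun T₁ T₂ hT hT2 r hr y hy => ?_⟩
  have hTn1 : n1 ≤ T₁ := (le_max_left _ _).trans ((le_max_left _ _).trans hT)
  have hTn2 : n2 ≤ T₁ := (le_max_right _ _).trans ((le_max_left _ _).trans hT)
  have hTn3 : n3 ≤ T₁ := (le_max_left _ _).trans ((le_max_left _ _).trans ((le_max_right _ _).trans hT))
  have hTn0 : n₀ ≤ T₁ := (le_max_right _ _).trans ((le_max_left _ _).trans ((le_max_right _ _).trans hT))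
  have hT1 : 1 ≤ T₁ := (le_max_right _ _).trans ((le_max_right _ _).trans hT)
  obtain ⟨T, hTd⟩ : ∃ T : ℕ, T = T₁ + T₂ := ⟨_, rfl⟩
  have hTT : T₁ ≤ T := by omega
  have hTT1 : 1 ≤ T := by omega
  have hT1R : (0 : ℝ) < T₁ := by exact_mod_cast hT1
  have hw1 := h.wd_pos hT1
  have hE1 := EE_pos (μ := μ) (s := s) T₁
  have hET := EE_pos (μ := μ) (s := s) T
  have h4 : (T : ℝ) ≤ (B + 1) * T₁ := by
    rw [hTd]
    push_cast
    linarith
  have hEE : EE μ s T ≤ 2 * (B + 1) * EE μ s T₁ := by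
    have h3 := scale_b h hT1 hTT
    have h5 : (T₁ : ℝ) * EE μ s T ≤ T₁ * (2 * (B + 1) * EE μ s T₁) := by
      calc (T₁ : ℝ) * EE μ s T ≤ 2 * (T * EE μ s T₁) := h3
        _ ≤ 2 * ((B + 1) * T₁ * EE μ s T₁) := by
            have := mul_le_mul_of_nonneg_right h4 hE1.le
            linarith
        _ = T₁ * (2 * (B + 1) * EE μ s T₁) := by ring
    exact le_of_mul_le_mul_left h5 hT1R
  have hy2 : |(y : ℝ) - sl μ s * T| ≤ 2 * K * wd μ s T := by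
    have h3 := wd_le_two h hT1 hTT
    have h4 := mul_le_mul_of_nonneg_left h3 hK
    rw [hTd] at h4 ⊢
    linarith
  obtain ⟨hy0, hyT, hepy⟩ := hep T (hTn2.trans hTT) y hy2
  have hMr : (M : ℝ) * r ≤ wd μ s T₁ := by
    rw [one_div_mul_eq_div, le_div_iff₀ hM0] at hr
    linarith
  have hN1 : e' / 8 * M ≤ (⌈e' / 8 * M⌉₊ : ℕ) := Nat.le_ceil _
  have hN2 : ((⌈e' / 8 * M⌉₊ : ℕ) : ℝ) ≤ e' / 8 * M + 1 := (Nat.ceil_lt_add_one (by positivity)).le
  have hN3 : ((⌈e' / 8 * M⌉₊ : ℕ) : ℝ) ≤ M := by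
    have h1 : ⌈e' / 8 * M⌉₊ ≤ M := by
      rw [Nat.ceil_le]
      have : e' / 8 * M ≤ 1 * M := mul_le_mul_of_nonneg_right (by linarith) hM0.le
      linarith
    exact_mod_cast h1
  have hx : Monotone fun j : ℕ => (j : ℤ) * (r : ℤ) := fun i j hij =>
    mul_le_mul_of_nonneg_right (by exact_mod_cast hij) (Int.natCast_nonneg r)
  have hsI := hsum T₁ hTn3 _ hN1 hN2 (fun j : ℕ => (j : ℤ) * (r : ℤ)) hx (fun k => sl μ s * k - R * wd μ s T₁)
    (fun k => M * ((r : ℤ) : ℝ) + sl μ s * k + R * wd μ s T₁) (fun k => by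
      rw [Int.cast_natCast]
      linarith)
  have h5 := mean_par (μ := μ) (s := s) hA T₁ T₂ ⌈e' / 8 * M⌉₊ M (r := (r : ℤ)) (y := y) (Int.natCast_nonneg r) hy0
    (by rw [← hTd]; exact hyT) (ρ := R * wd μ s T₁) (mul_nonneg (by linarith) hw1.le) (β := A₁ * EE μ s T₁) (u := A₂ * M * EE μ s T₁)
    (lo := fun k => sl μ s * k - R * wd μ s T₁) (hi := fun k => M * ((r : ℤ) : ℝ) + sl μ s * k + R * wd μ s T₁)
    (fun _ => rfl) (fun _ => rfl)
  -- the exits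
  have b1 : ∫ η, exG μ s (R * wd μ s T₁) η (gB μ s η T₁ T₂ y) T₁ 0 ∂(law μ) ≤ e' / 8 := hex R le_rfl T₁ T₂ hTn1 hT2 y hy
  -- the supremum of the profiles
  have b2 : (law μ).real (BadS μ s T₁ T₂ (sl μ s * T₁ - R * wd μ s T₁) (M * ((r : ℤ) : ℝ) + sl μ s * T₁ + R * wd μ s T₁)
      (A₁ * EE μ s T₁)) ≤ e' / 8 := by
    have h6 := sup_luck h (hTn0.trans hTT) hTT1 Ks T₂ (by omega) (T₁ : ℤ) (sl μ s * T₁ - R * wd μ s T₁) v
    refine le_trans (measureReal_mono (fun η hη => ?_) (measure_ne_top _ _)) (h6.trans hv1)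
    obtain ⟨z, hz1, hz2, hz3⟩ := hη
    refine ⟨z, hz1, ?_, ?_⟩
    · have h7 := wd_le_two h hT1 hTT
      have h8 : (2 * R + 1) * wd μ s T₁ ≤ Ks * wd μ s T := by
        calc (2 * R + 1) * wd μ s T₁ ≤ (2 * R + 1) * (2 * wd μ s T) := mul_le_mul_of_nonneg_left h7 (by linarith)
          _ = 2 * (2 * R + 1) * wd μ s T := by ring
          _ ≤ Ks * wd μ s T := mul_le_mul_of_nonneg_right hKs (h.wd_nonneg T)
      rw [Int.cast_natCast] at hz2
      linarith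
    · refine lt_of_le_of_lt ?_ hz3
      rw [hA₁]
      have h7 := mul_le_mul_of_nonneg_left hEE (show 0 ≤ v * C by positivity)
      linarith
  -- the negative parts
  have b3 : (law μ).real (NegB μ s (T₁ + T₂) M (r : ℤ) y (A₂ * M * EE μ s T₁)) ≤ e' / 8 := by
    rw [← hTd]
    have h6 := NegB_le (μ := μ) (s := s) h.em T M (r : ℤ) hy0 hyT (u := A₂ * M * EE μ s T₁) (by positivity)
    refine h6.trans ?_
    rw [div_le_iff₀ (by positivity)]
    have h7 : ep μ s T y ≤ D * (2 * (B + 1) * EE μ s T₁) := hepy.trans (mul_le_mul_of_nonneg_left hEE hD.le)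
    have h8 : e' / 8 * (A₂ * M * EE μ s T₁) = M * (D * (2 * (B + 1) * EE μ s T₁)) := by
      rw [hA₂]
      field_simp
      ring
    rw [h8]
    exact mul_le_mul_of_nonneg_left h7 hM0.le
  -- the coarse sum
  have b4 : ∑ I ∈ powersetCard ⌈e' / 8 * M⌉₊ (range M), ∫ η, min 1 (Real.exp (((⌈e' / 8 * M⌉₊ : ℕ) : ℝ) * (A₁ * EE μ s T₁) +
      A₂ * M * EE μ s T₁) * Zc μ s T₁ (fun i : I => ((i : ℕ) : ℤ) * (r : ℤ)) (fun k => sl μ s * k - R * wd μ s T₁)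
      (fun k => M * ((r : ℤ) : ℝ) + sl μ s * k + R * wd μ s T₁) η) ∂(law μ) ≤ e' / 8 := by
    refine (sum_le_sum fun I _ => ?_).trans hsI
    refine integral_mono (int_01 (measurable_minZc T₁ _ _ _ _)
      (fun η => le_min zero_le_one (mul_nonneg (Real.exp_pos _).le (Zc_nonneg _ _ _ _ _))) (fun η => min_le_left _ _))
      (int_01 (measurable_minZc T₁ _ _ _ _)
      (fun η => le_min zero_le_one (mul_nonneg (Real.exp_pos _).le (Zc_nonneg _ _ _ _ _))) (fun η => min_le_left _ _))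
      fun η => min_le_min le_rfl (mul_le_mul_of_nonneg_right (Real.exp_le_exp.2 ?_) (Zc_nonneg _ _ _ _ _))
    have h4 : ((⌈e' / 8 * M⌉₊ : ℕ) : ℝ) * (A₁ * EE μ s T₁) ≤ M * (A₁ * EE μ s T₁) :=
      mul_le_mul_of_nonneg_right hN3 (mul_nonneg hA₁0 hE1.le)
    have h5 : 0 ≤ 2 * M * EE μ s T₁ := by positivity
    linarith
  have h6 : 1 ≤ M * (e' / 8) := by
    rw [div_le_iff₀ he'0] at hM2
    linarith
  have h7 : M * ∫ η, PBr μ s η T₁ T₂ 0 y r (y + r) ∂(law μ) ≤ M * e' := by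
    have h8 := mul_le_mul_of_nonneg_left b1 hM0.le
    have h9 := mul_le_mul_of_nonneg_left b2 hM0.le
    have h10 := mul_le_mul_of_nonneg_left b3 hM0.le
    have h11 := mul_le_mul_of_nonneg_left b4 hM0.le
    linarith
  exact (le_of_mul_le_mul_left h7 hM0).trans he'e

end

end Pool.Agent.W_7d29a1_C1.MeetP35
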