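import Pool.Agent.W_7d29a1_C1.Fact74
import Pool.Agent.W_7d29a1_C1.NbrA78

/-!
Both halves (MP_7d29a1_pr), attractor route [C1]: THE DISTANCE OF TWO ROWS, EXIT IN THE NORM OF THE PATH MEASURE. (helper21)

`F74.Row` asks the exit through the narrow cell pointwise from the row `k + 1`; inside a slab with walls this is not available. Here only
the exits of the MODEL paths from the seam `c0` are used (`ol`, `og`), and the exits of the last buffer from its cell (`cl`, `cg`). The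
shift `y - 1` of the part of the profile which leaves the cell is paid by `dn21` (paths with `m0` steps `0`).

Rows: `c0` seam, `c0 + n1` end of the first buffer, `k = c0 + n1 + j`, `c0 + D` with `D = n1 + j + (n2 + 1)` = start of the last buffer of
`n3` rows, then the seam and `m` more rows.
-/

set_option autoImplicit false
set_option linter.unusedSectionVars false

namespace Pool.Agent.W_7d29a1_C1.P21

open Finset Pool.Agent.W_7d29a1_C1.Gini76 Pool.Agent.W_7d29a1_C1.CR76 Pool.Agent.W_7d29a1_C1.K91P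
  Pool.Agent.W_7d29a1_C1.Basin76 Pool.Agent.W_7d29a1_C1.R26P Pool.Agent.W_7d29a1_C1.F74
open Pool.Agent.W_7d29a1_C1.K91 (shw sum_shift zs cut)
open Pool.Agent.W_7d29a1_C1.K97 (ds Nr rz rt tm)
open Pool.Agent.W_7d29a1_C1.Nbr78 (DD DD_zero DD_succ)

noncomputable section

/-! ### Backward masses with an arbitrary profile at the end -/

/-- Backward masses with the profile `G` after `n` rows. -/
def bp (w : ℕ → ℤ → ℝ) (p : ℕ → ℝ) (G : ℤ → ℝ) : ℕ → ℕ → ℤ → ℝ
  | 0, _, y => G y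
  | n + 1, k, y => w k y * (bp w p G n (k + 1) y + p k * bp w p G n (k + 1) (y + 1))

/-- First `m` steps `0`, then `n` rows. -/
def bd (w : ℕ → ℤ → ℝ) (p : ℕ → ℝ) (G : ℤ → ℝ) (n : ℕ) : ℕ → ℕ → ℤ → ℝ
  | 0, k, y => bp w p G n k y
  | m + 1, k, y => w k y * bd w p G n m (k + 1) y

variable {w : ℕ → ℤ → ℝ} {p : ℕ → ℝ} {G G' : ℤ → ℝ}

theorem bp_succ (n k : ℕ) (y : ℤ) : bp w p G (n + 1) k y = w k y * (bp w p G n (k + 1) y + p k * bp w p G n (k + 1) (y + 1)) := rfl

theorem bp_nonneg (hw : ∀ k y, 0 < w k y) (hp : ∀ k, 0 < p k) (hG : ∀ y, 0 ≤ G y) : ∀ (n k : ℕ) (y : ℤ), 0 ≤ bp w p G n k y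
  | 0, _, y => hG y
  | n + 1, k, y => mul_nonneg (hw k y).le (add_nonneg (bp_nonneg hw hp hG n (k + 1) y)
      (mul_nonneg (hp k).le (bp_nonneg hw hp hG n (k + 1) (y + 1))))

theorem bp_mono (hw : ∀ k y, 0 < w k y) (hp : ∀ k, 0 < p k) (h : ∀ y, G y ≤ G' y) : ∀ (n k : ℕ) (y : ℤ),
    bp w p G n k y ≤ bp w p G' n k y
  | 0, _, y => h y
  | n + 1, k, y => mul_le_mul_of_nonneg_left (add_le_add (bp_mono hw hp h n (k + 1) y)
      (mul_le_mul_of_nonneg_left (bp_mono hw hp h n (k + 1) (y + 1)) (hp k).le)) (hw k y).le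

theorem bd_mono (hw : ∀ k y, 0 < w k y) (hp : ∀ k, 0 < p k) (h : ∀ y, G y ≤ G' y) (n : ℕ) : ∀ (m k : ℕ) (y : ℤ),
    bd w p G n m k y ≤ bd w p G' n m k y
  | 0, k, y => bp_mono hw hp h n k y
  | m + 1, k, y => mul_le_mul_of_nonneg_left (bd_mono hw hp h n m (k + 1) y) (hw k y).le

/-- The full profile. -/
theorem bp_full (M : ℕ) : ∀ (n k : ℕ) (y : ℤ), bp w p (bw w p (k + n) M) n k y = bw w p k (n + M) y
  | 0, k, y => by
    rw [Nat.zero_add]
    rfl
  | n + 1, k, y => by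
    have e : k + (n + 1) = k + 1 + n := by ring
    have e1 : n + 1 + M = n + M + 1 := by ring
    rw [bp_succ, e, bp_full M n (k + 1) y, bp_full M n (k + 1) (y + 1), e1, bw_succ]

theorem bd_full (M n : ℕ) : ∀ (m k : ℕ) (y : ℤ), bd w p (bw w p (k + (m + n)) M) n m k y = DD w p (n + M) m k y
  | 0, k, y => by
    have e : k + (0 + n) = k + n := by ring
    rw [e, DD_zero]
    exact bp_full M n k y
  | m + 1, k, y => by
    have e : k + (m + 1 + n) = k + 1 + (m + n) := by ring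
    rw [DD_succ, e, ← bd_full M n m (k + 1) y]
    rfl

/-- First step of the kernel. -/
theorem kf_first (r : ℕ) : ∀ (n : ℕ) (y z : ℤ),
    kf w p r (n + 1) y z = w r y * (kf w p (r + 1) n y z + p r * kf w p (r + 1) n (y + 1) z)
  | 0, y, z => by
    rw [kf_succ, kf_zero_row, kf_zero_row, kf_zero_row, kf_zero_row, Nat.add_zero]
    unfold sg
    by_cases h1 : z = y
    · rw [if_pos h1, if_neg (show ¬ z - 1 = y by omega), if_neg (show ¬ z = y + 1 by omega), h1]
      ring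
    · by_cases h2 : z = y + 1
      · rw [if_neg h1, if_pos (show z - 1 = y by omega), if_pos h2, h2, add_sub_cancel_right]
        ring
      · rw [if_neg h1, if_neg (show ¬ z - 1 = y by omega), if_neg h2]
        ring
  | n + 1, y, z => by
    have e : r + (n + 1) = r + 1 + n := by ring
    rw [kf_succ r (n + 1), kf_first r n y z, kf_first r n y (z - 1), kf_succ (r + 1) n y z, kf_succ (r + 1) n (y + 1) z, e]
    ring

/-- **Backward masses are a pull**, arbitrary profile. -/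
theorem bp_pull (n : ℕ) {lo hi : ℤ} : ∀ (m r : ℕ) (y : ℤ), lo ≤ y → y + m ≤ hi →
    bp w p G (m + n) r y = ∑ z ∈ Icc lo hi, kf w p r m y z * bp w p G n (r + m) z
  | 0, r, y, h0, h1 => by
    simp only [kf_zero_row, sg, Nat.zero_add, Nat.add_zero]
    rw [sum_eq_single_of_mem y (mem_Icc.2 ⟨h0, by simpa using h1⟩) fun x _ hx => by rw [if_neg hx, zero_mul],
      if_pos rfl, one_mul]
  | m + 1, r, y, h0, h1 => by
    push_cast at h1
    have e : m + 1 + n = m + n + 1 := by ring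
    have e1 : r + (m + 1) = r + 1 + m := by ring
    rw [e, bp_succ, bp_pull n (lo := lo) (hi := hi) m (r + 1) y h0 (by omega),
      bp_pull n (lo := lo) (hi := hi) m (r + 1) (y + 1) (by omega) (by omega), e1, mul_sum,
      ← sum_add_distrib, mul_sum]
    refine sum_congr rfl fun z _ => ?_
    rw [kf_first]
    ring

/-- The exits are such masses. -/
theorem ev_bp (r n M : ℕ) (P : ℤ → Prop) [DecidablePred P] (y : ℤ) :
    ev w p r n M P y = bp w p (fun z => if P z then bw w p (r + n) M z else 0) n r y := by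
  have h := bp_pull (w := w) (p := p) (G := fun z => if P z then bw w p (r + n) M z else 0) 0 (lo := y) (hi := y + n) n r y
    le_rfl le_rfl
  rw [Nat.add_zero] at h
  rw [h]
  unfold ev
  rw [sum_filter]
  refine sum_congr rfl fun z _ => ?_
  show _ = kf w p r n y z * (if P z then bw w p (r + n) M z else 0)
  rw [mul_ite, mul_zero]

/-- **The left neighbour**, arbitrary profile. -/
theorem dn21 (hw : ∀ k y, 0 < w k y) (hp : ∀ k, 0 < p k) (hG : ∀ y, 0 ≤ G y) {q P : ℝ} (hq : 1 ≤ q) (hP : 0 ≤ P) (n : ℕ) :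
    ∀ (m k : ℕ) (y : ℤ), (∀ i < m, w (k + i) (y - 1) ≤ q * w (k + i) y ∧ p (k + i) ≤ P) →
      bp w p G (m + n) k (y - 1) ≤ (q * (1 + P)) ^ m * bp w p G (m + n) k y + bd w p G n m k (y - 1)
  | 0, k, y, _ => by
    have h := bp_nonneg hw hp hG n k y
    have e : 0 + n = n := by ring
    rw [e, pow_zero, one_mul]
    show bp w p G n k (y - 1) ≤ bp w p G n k y + bp w p G n k (y - 1)
    linarith
  | m + 1, k, y, h => by
    have ih := dn21 hw hp hG hq hP n m (k + 1) y (fun i hi => by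
      have := h (i + 1) (by omega)
      have e : k + (i + 1) = k + 1 + i := by ring
      rwa [e] at this)
    have e1 : m + 1 + n = m + n + 1 := by ring
    rw [e1, bp_succ, bp_succ, sub_add_cancel]
    have h0 := h 0 (by omega)
    rw [Nat.add_zero] at h0
    have hB := bp_nonneg hw hp hG (m + n) (k + 1) y
    have hC := bp_nonneg hw hp hG (m + n) (k + 1) (y + 1)
    have w1 := hw k (y - 1)
    have w0 := hw k y
    have pk := hp k
    show w k (y - 1) * (bp w p G (m + n) (k + 1) (y - 1) + p k * bp w p G (m + n) (k + 1) y) ≤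
      (q * (1 + P)) ^ (m + 1) * (w k y * (bp w p G (m + n) (k + 1) y + p k * bp w p G (m + n) (k + 1) (y + 1))) +
        w k (y - 1) * bd w p G n m (k + 1) (y - 1)
    generalize bp w p G (m + n) (k + 1) (y - 1) = A at *
    generalize bp w p G (m + n) (k + 1) y = B at *
    generalize bp w p G (m + n) (k + 1) (y + 1) = C at *
    generalize bd w p G n m (k + 1) (y - 1) = E at *
    have b1 : 1 ≤ (q * (1 + P)) ^ m := one_le_pow₀ (by nlinarith)
    rw [pow_succ]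
    generalize (q * (1 + P)) ^ m = b at *
    have s1 : w k (y - 1) * (A + p k * B) ≤ w k (y - 1) * ((b + P) * B) + w k (y - 1) * E := by
      rw [← mul_add]
      refine mul_le_mul_of_nonneg_left ?_ w1.le
      have := mul_le_mul_of_nonneg_right h0.2 hB
      linarith
    have s2 : w k (y - 1) * ((b + P) * B) ≤ q * w k y * ((b + P) * B) :=
      mul_le_mul_of_nonneg_right h0.1 (mul_nonneg (by linarith) hB)
    have s3 : q * w k y * ((b + P) * B) ≤ q * w k y * (b * (1 + P) * (B + p k * C)) := by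
      refine mul_le_mul_of_nonneg_left ?_ (by positivity)
      have t1 : (b + P) * B ≤ b * (1 + P) * B := by
        refine mul_le_mul_of_nonneg_right ?_ hB
        nlinarith
      have t2 : b * (1 + P) * B ≤ b * (1 + P) * (B + p k * C) := by
        refine mul_le_mul_of_nonneg_left ?_ (by positivity)
        have := mul_nonneg pk.le hC
        linarith
      exact t1.trans t2
    linarith

/-! ### Two rows, one off profile -/

section row

variable {lo hi : ℤ} {wk m f m' f' o : ℤ → ℝ} {ρ : ℝ}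

/-- **The distance of two rows** : the profiles differ by a factor and by an off profile `o`, which is small in the path norm. -/
theorem ds21 (hw : ∀ y, 0 < wk y) (hm' : ∀ y, 0 ≤ m' y) (hf : ∀ y, 0 < f y) (hf' : ∀ y, 0 < f' y) (hρ : 1 ≤ ρ)
    (r1 : ∀ y ∈ Icc lo hi, f (y - 1) ≤ ρ * f y ∧ f (y + 1) ≤ ρ * f y)
    (r2 : ∀ y ∈ Icc lo hi, f' (y - 1) ≤ ρ * f' y ∧ f' (y + 1) ≤ ρ * f' y) {κ D E : ℝ} (hκ : 0 ≤ κ)
    (hD : ∑ y ∈ Icc lo hi, wk y * (|m y - m' y| * f y) ≤ D)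
    (hp : ∀ z, |f z - f' z| ≤ κ * f' z + o z)
    (h0 : ∑ y ∈ Icc lo hi, wk y * (m' y * o (y - 1)) ≤ E)
    (h1 : ∑ y ∈ Icc lo hi, wk y * (m' y * o y) ≤ E)
    (h2 : ∑ y ∈ Icc lo hi, wk y * (m' y * o (y + 1)) ≤ E) :
    ds lo hi wk m f m' f' ≤ 3 * (ρ * D + ρ * (κ * U lo hi wk m' f') + E) := by
  have ρ0 : 0 ≤ ρ := by linarith
  have one : ∀ (e : ℤ → ℤ), (∀ y ∈ Icc lo hi, f (e y) ≤ ρ * f y) → (∀ y ∈ Icc lo hi, f' (e y) ≤ ρ * f' y) →
      ∑ y ∈ Icc lo hi, wk y * (m' y * o (e y)) ≤ E →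
      ∑ y ∈ Icc lo hi, wk y * |m y * f (e y) - m' y * f' (e y)| ≤ ρ * D + ρ * (κ * U lo hi wk m' f') + E := by
    intro e s1 s2 s3
    have a1 : ∑ y ∈ Icc lo hi, wk y * |m y * f (e y) - m' y * f' (e y)| ≤
        ρ * ∑ y ∈ Icc lo hi, wk y * (|m y - m' y| * f y) + (ρ * (κ * U lo hi wk m' f') +
          ∑ y ∈ Icc lo hi, wk y * (m' y * o (e y))) := by
      unfold U
      rw [mul_sum, mul_sum, mul_sum, ← sum_add_distrib, ← sum_add_distrib]
      refine sum_le_sum fun y hy => ?_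
      have t := term_le (ρ := ρ) (m := m) (f' := f') hw hm' hf y (e y) (s1 y hy)
      have q1 : κ * f' (e y) + o (e y) ≤ κ * (ρ * f' y) + o (e y) := by
        have := mul_le_mul_of_nonneg_left (s2 y hy) hκ
        linarith
      have q2 := mul_le_mul_of_nonneg_left ((hp (e y)).trans q1) (mul_nonneg (hw y).le (hm' y))
      linarith
    have a2 := mul_le_mul_of_nonneg_left hD ρ0
    linarith
  have c1 := one (fun y => y - 1) (fun y hy => (r1 y hy).1) (fun y hy => (r2 y hy).1) h0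
  have c2 := one (fun y => y) (fun y _ => le_mul_of_one_le_left (hf y).le hρ) (fun y _ => le_mul_of_one_le_left (hf' y).le hρ) h1
  have c3 := one (fun y => y + 1) (fun y hy => (r1 y hy).2) (fun y hy => (r2 y hy).2) h2
  have e : ds lo hi wk m f m' f' = ∑ y ∈ Icc lo hi, wk y * |m y * f (y - 1) - m' y * f' (y - 1)| +
      ∑ y ∈ Icc lo hi, wk y * |m y * f y - m' y * f' y| + ∑ y ∈ Icc lo hi, wk y * |m y * f (y + 1) - m' y * f' (y + 1)| := by
    unfold ds
    rw [← sum_add_distrib, ← sum_add_distrib]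
    exact sum_congr rfl fun y _ => by ring
  rw [e]
  linarith

end row

/-! ### The profile at the row `k + 1` -/

variable {lo hi : ℤ} {c0 n1 j n2 n3 m m0 nu r s : ℕ} {a1 b1 a2 b2 xa xb ya yb za zb : ℤ} {l : ℤ → ℝ} {δ ε ρ β t : ℝ}

theorem ev_split (r n M : ℕ) (P : ℤ → Prop) [DecidablePred P] (y : ℤ) :
    ev w p r n M P y + ev w p r n M (fun z => ¬ P z) y = bw w p r (n + M) y := by
  rw [ev_total r n M (a := y) (lo := y) (hi := y + n) le_rfl le_rfl]
  exact sum_filter_add_sum_filter_not _ _ _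

theorem LX_zero (hw : ∀ k y, 0 < w k y) (hp : ∀ k, 0 < p k) (ε0 : 0 ≤ ε) (M : ℕ) {z : ℤ} (h : ya ≤ z) : LX w p s 0 M z ya ε := by
  unfold LX ev
  rw [sum_eq_zero]
  · exact mul_nonneg ε0 (bw_pos hw hp _ _ _).le
  · intro v hv
    rw [mem_filter, mem_Icc] at hv
    exfalso
    have h1 := hv.1
    have h2 := hv.2
    omega

theorem RX_zero (hw : ∀ k y, 0 < w k y) (hp : ∀ k, 0 < p k) (ε0 : 0 ≤ ε) (M : ℕ) {z : ℤ} (h : z ≤ yb) : RX w p s 0 M z yb ε := by
  unfold RX ev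
  rw [sum_eq_zero]
  · exact mul_nonneg ε0 (bw_pos hw hp _ _ _).le
  · intro v hv
    rw [mem_filter, mem_Icc] at hv
    exfalso
    have h1 := hv.1
    have h2 := hv.2
    push_cast at h1
    omega

/-- The ratio of the two futures. -/
def Kr (w : ℕ → ℤ → ℝ) (p : ℕ → ℝ) (r n2 n3 m : ℕ) (ya za zb : ℤ) : ℝ :=
  Ce w p r n2 n3 m ya za zb / Ce w p r n2 n3 0 ya za zb

theorem Kr_pos (hw : ∀ k y, 0 < w k y) (hp : ∀ k, 0 < p k) (g : Gex n3 ya yb za zb) (r n2 m : ℕ) : 0 < Kr w p r n2 n3 m ya za zb :=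
  div_pos (Ce_pos hw hp g r n2 m) (Ce_pos hw hp g r n2 0)

/-- The last buffer. -/
structure Buf (w : ℕ → ℤ → ℝ) (p : ℕ → ℝ) (s n3 m : ℕ) (ya yb za zb : ℤ) (δ ε : ℝ) : Prop where
  gx : Gex n3 ya yb za zb
  cx : CR (kf w p s n3) ya yb za zb ≤ 1 + δ
  cl : LX w p s n3 m ya za ε
  cg : RX w p s n3 m yb zb ε
  cl0 : LX w p s n3 0 ya za ε
  cg0 : RX w p s n3 0 yb zb ε

/-- In the cell. -/
theorem Buf.cell (hw : ∀ k y, 0 < w k y) (hp : ∀ k, 0 < p k) (B : Buf w p s n3 m ya yb za zb δ ε) (δ0 : 0 ≤ δ) (ε0 : 0 ≤ ε)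
    (ε1 : ε ≤ 1 / 8) {z : ℤ} (h1 : ya ≤ z) (h2 : z ≤ yb) :
    |bw w p s (n3 + m) z - Kr w p s 0 n3 m ya za zb * bw w p s n3 z| ≤
      (2 * δ + 8 * ε) * (Kr w p s 0 n3 m ya za zb * bw w p s n3 z) := by
  have key := exit_pt (w := w) (p := p) (r := s) (n2 := 0) (n3 := n3) (m := m) (y := z) hw hp B.gx δ0 ε0 ε1 B.cx
    ⟨LX_zero hw hp ε0 _ h1, RX_zero hw hp ε0 _ h2, by rw [Nat.zero_add]; exact B.cl.mono hw hp h1,
      by rw [Nat.zero_add]; exact B.cg.mono hw hp h2⟩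
    ⟨LX_zero hw hp ε0 _ h1, RX_zero hw hp ε0 _ h2, by rw [Nat.zero_add]; exact B.cl0.mono hw hp h1,
      by rw [Nat.zero_add]; exact B.cg0.mono hw hp h2⟩
  rw [Nat.zero_add, Nat.zero_add] at key
  exact key

/-- **The profile in front of the cell**, at every site. -/
theorem Buf.prof (hw : ∀ k y, 0 < w k y) (hp : ∀ k, 0 < p k) (B : Buf w p (r + n2) n3 m ya yb za zb δ ε) (δ0 : 0 ≤ δ) (ε0 : 0 ≤ ε)
    (ε1 : ε ≤ 1 / 8) (y : ℤ) :
    |bw w p r (n2 + (n3 + m)) y - Kr w p r n2 n3 m ya za zb * bw w p r (n2 + n3) y| ≤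
      (2 * δ + 8 * ε) * (Kr w p r n2 n3 m ya za zb * bw w p r (n2 + n3) y) +
        (ev w p r n2 (n3 + m) (fun z => ¬ (ya ≤ z ∧ z ≤ yb)) y +
          Kr w p r n2 n3 m ya za zb * ev w p r n2 n3 (fun z => ¬ (ya ≤ z ∧ z ≤ yb)) y) := by
  have K0 := Kr_pos hw hp B.gx r n2 m
  have s1 := ev_split (w := w) (p := p) r n2 (n3 + m) (fun z => ya ≤ z ∧ z ≤ yb) y
  have s2 := ev_split (w := w) (p := p) r n2 n3 (fun z => ya ≤ z ∧ z ≤ yb) y
  have o1 := ev_nonneg hw hp r n2 (n3 + m) (fun z => ¬ (ya ≤ z ∧ z ≤ yb)) y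
  have o2 := ev_nonneg hw hp r n2 n3 (fun z => ¬ (ya ≤ z ∧ z ≤ yb)) y
  have key : |ev w p r n2 (n3 + m) (fun z => ya ≤ z ∧ z ≤ yb) y -
      Kr w p r n2 n3 m ya za zb * ev w p r n2 n3 (fun z => ya ≤ z ∧ z ≤ yb) y| ≤
      (2 * δ + 8 * ε) * (Kr w p r n2 n3 m ya za zb * ev w p r n2 n3 (fun z => ya ≤ z ∧ z ≤ yb) y) := by
    unfold ev
    rw [mul_sum, ← sum_sub_distrib, mul_sum]
    refine (abs_sum_le_sum_abs _ _).trans (sum_le_sum fun z hz => ?_)
    rw [mem_filter] at hz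
    have c := B.cell hw hp δ0 ε0 ε1 hz.2.1 hz.2.2
    have kn := kf_nonneg hw hp r n2 y z
    have e : kf w p r n2 y z * bw w p (r + n2) (n3 + m) z - Kr w p r n2 n3 m ya za zb * (kf w p r n2 y z * bw w p (r + n2) n3 z) =
        kf w p r n2 y z * (bw w p (r + n2) (n3 + m) z - Kr w p (r + n2) 0 n3 m ya za zb * bw w p (r + n2) n3 z) := by
      have : Kr w p (r + n2) 0 n3 m ya za zb = Kr w p r n2 n3 m ya za zb := rfl
      rw [this]
      ring
    rw [e, abs_mul, abs_of_nonneg kn]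
    have := mul_le_mul_of_nonneg_left c kn
    have e2 : Kr w p (r + n2) 0 n3 m ya za zb = Kr w p r n2 n3 m ya za zb := rfl
    rw [e2] at this ⊢
    linarith
  rw [← s1, ← s2]
  generalize ev w p r n2 (n3 + m) (fun z => ya ≤ z ∧ z ≤ yb) y = a at *
  generalize ev w p r n2 n3 (fun z => ya ≤ z ∧ z ≤ yb) y = b at *
  generalize ev w p r n2 (n3 + m) (fun z => ¬ (ya ≤ z ∧ z ≤ yb)) y = c at *
  generalize ev w p r n2 n3 (fun z => ¬ (ya ≤ z ∧ z ≤ yb)) y = d at *
  generalize Kr w p r n2 n3 m ya za zb = K at *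
  rw [abs_le] at key ⊢
  have h1 : 0 ≤ K * d := mul_nonneg K0.le o2
  have h2 : 0 ≤ (2 * δ + 8 * ε) * (K * d) := mul_nonneg (by positivity) h1
  constructor <;> linarith

/-- The left neighbour of the off profile. -/
theorem off_dn21 (hw : ∀ k y, 0 < w k y) (hp : ∀ k, 0 < p k) (P' : ℤ → Prop) [DecidablePred P'] {q P : ℝ} (hq : 1 ≤ q) (hP : 0 ≤ P)
    (M : ℕ) {y : ℤ} (h : ∀ i < m0, w (r + i) (y - 1) ≤ q * w (r + i) y ∧ p (r + i) ≤ P)
    (hs : DD w p (nu + M) m0 r (y - 1) ≤ t * bw w p r (m0 + nu + M) (y - 1)) :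
    ev w p r (m0 + nu) M P' (y - 1) ≤ (q * (1 + P)) ^ m0 * ev w p r (m0 + nu) M P' y + t * bw w p r (m0 + nu + M) (y - 1) := by
  rw [ev_bp, ev_bp]
  have g0 : ∀ z, 0 ≤ (fun z => if P' z then bw w p (r + (m0 + nu)) M z else 0) z := by
    intro z
    show 0 ≤ if P' z then bw w p (r + (m0 + nu)) M z else 0
    split_ifs
    · exact (bw_pos hw hp _ _ _).le
    · exact le_rfl
  have h1 := dn21 hw hp g0 hq hP nu m0 r y h
  have h2 := bd_mono (G := fun z => if P' z then bw w p (r + (m0 + nu)) M z else 0) (G' := bw w p (r + (m0 + nu)) M) hw hp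
    (fun z => by
      show (if P' z then bw w p (r + (m0 + nu)) M z else 0) ≤ _
      split_ifs
      · exact le_rfl
      · exact (bw_pos hw hp _ _ _).le) nu m0 r (y - 1)
  rw [bd_full] at h2
  linarith

/-! ### Model paths -/

/-- Model paths with a property at the row `c0 + (n1 + j + (n2 + 1))`, seen at the row `k`. -/
theorem off21 (M : ℕ) (P' : ℤ → Prop) [DecidablePred P'] {a : ℤ} (h1 : lo ≤ a) (h2 : a + (n1 + j : ℕ) ≤ hi) :
    ∑ y ∈ Icc lo hi, w (c0 + n1 + j) y * (kf w p c0 (n1 + j) a y *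
      (ev w p (c0 + n1 + j + 1) n2 M P' y + p (c0 + n1 + j) * ev w p (c0 + n1 + j + 1) n2 M P' (y + 1))) =
      ev w p c0 (n1 + j + (n2 + 1)) M P' a := by
  have e : c0 + (n1 + j + (n2 + 1)) = c0 + n1 + j + 1 + n2 := by ring
  have e2 : c0 + (n1 + j) = c0 + n1 + j := by ring
  rw [ev_bp c0 (n1 + j + (n2 + 1)) M P' a, e, bp_pull (n2 + 1) (lo := lo) (hi := hi) (n1 + j) c0 a h1 h2, e2]
  refine sum_congr rfl fun y _ => ?_
  rw [ev_bp, ev_bp, bp_succ]
  ring

end

end Pool.Agent.W_7d29a1_C1.P21
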