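import Pool.Agent.W_7d29a1_C1.PathR21

/-!
Both halves (MP_7d29a1_pr), attractor route [C1]: THE DISTANCE OF TWO ROWS, EXIT IN THE PATH NORM, last part. (helper21)

`Row21` : the hypotheses on the rows (the exits do not depend on the row `k = c0 + n1 + j`, any `k` before the end of the last one
lane slab); `nr21` : the conclusion of `F74.nr74`, with the same error `F74.et`.
-/

set_option autoImplicit false
set_option linter.unusedSectionVars false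

namespace Pool.Agent.W_7d29a1_C1.P21

open Finset Pool.Agent.W_7d29a1_C1.Gini76 Pool.Agent.W_7d29a1_C1.CR76 Pool.Agent.W_7d29a1_C1.K91P
  Pool.Agent.W_7d29a1_C1.Basin76 Pool.Agent.W_7d29a1_C1.R26P Pool.Agent.W_7d29a1_C1.F74
open Pool.Agent.W_7d29a1_C1.K91 (shw sum_shift zs cut)
open Pool.Agent.W_7d29a1_C1.K97 (ds Nr rz rt tm)
open Pool.Agent.W_7d29a1_C1.Nbr78 (DD DD_zero DD_succ)

noncomputable section

variable {w : ℕ → ℤ → ℝ} {p : ℕ → ℝ} {lo hi : ℤ} {c0 n1 j n2 n3 m m0 nu r s : ℕ} {a1 b1 a2 b2 xa xb ya yb za zb : ℤ} {l : ℤ → ℝ}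
  {δ ε ε' ρ β t : ℝ}

/-- The exits of the model paths through the cell `[ya, yb]` of the row `c0 + D`. -/
structure Out (w : ℕ → ℤ → ℝ) (p : ℕ → ℝ) (c0 D n3 m : ℕ) (a1 b2 ya yb : ℤ) (ε : ℝ) : Prop where
  ol : LX w p c0 D (n3 + m) a1 ya ε
  og : RX w p c0 D (n3 + m) b2 yb ε
  ol0 : LX w p c0 D n3 a1 ya ε
  og0 : RX w p c0 D n3 b2 yb ε

/-- One start. -/
theorem Out.off (hw : ∀ k y, 0 < w k y) (hp : ∀ k, 0 < p k) {D : ℕ} (O : Out w p c0 D n3 m a1 b2 ya yb ε) (h : ya ≤ yb)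
    {a : ℤ} (h1 : a1 ≤ a) (h2 : a ≤ b2) :
    ev w p c0 D (n3 + m) (fun z => ¬ (ya ≤ z ∧ z ≤ yb)) a ≤ 2 * ε * bw w p c0 (D + (n3 + m)) a ∧
      ev w p c0 D n3 (fun z => ¬ (ya ≤ z ∧ z ≤ yb)) a ≤ 2 * ε * bw w p c0 (D + n3) a :=
  ⟨out_le h (O.ol.mono hw hp h1) (O.og.mono hw hp h2) le_rfl le_rfl, out_le h (O.ol0.mono hw hp h1) (O.og0.mono hw hp h2) le_rfl le_rfl⟩

/-- The two totals of one start. -/
theorem Out.tot (hw : ∀ k y, 0 < w k y) (hp : ∀ k, 0 < p k) {D : ℕ} (O : Out w p c0 D n3 m a1 b2 ya yb ε)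
    (B : Buf w p (c0 + D) n3 m ya yb za zb δ ε) (δ0 : 0 ≤ δ) (ε0 : 0 ≤ ε) (sm : δ + 12 * ε ≤ 1 / 4) {a : ℤ} (h1 : a1 ≤ a) (h2 : a ≤ b2) :
    bw w p c0 (D + (n3 + m)) a ≤ 2 * (Kr w p c0 D n3 m ya za zb * bw w p c0 (D + n3) a) := by
  have K0 := Kr_pos hw hp B.gx c0 D m
  have P := B.prof hw hp δ0 ε0 (by linarith) a
  have o := O.off hw hp B.gx.h1 h1 h2
  have o2 := mul_le_mul_of_nonneg_left o.2 K0.le
  have b1 := bw_pos hw hp (D + (n3 + m)) c0 a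
  have b2 := mul_pos K0 (bw_pos hw hp (D + n3) c0 a)
  have k := (abs_le.1 P).2
  generalize bw w p c0 (D + (n3 + m)) a = X at *
  generalize ev w p c0 D (n3 + m) (fun z => ¬ (ya ≤ z ∧ z ≤ yb)) a = O1 at *
  generalize Kr w p c0 D n3 m ya za zb * ev w p c0 D n3 (fun z => ¬ (ya ≤ z ∧ z ≤ yb)) a = O2 at *
  have e : Kr w p c0 D n3 m ya za zb * (2 * ε * bw w p c0 (D + n3) a) = 2 * ε * (Kr w p c0 D n3 m ya za zb * bw w p c0 (D + n3) a) := by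
    ring
  rw [e] at o2
  generalize Kr w p c0 D n3 m ya za zb * bw w p c0 (D + n3) a = Y at *
  have c1 : (2 * δ + 8 * ε) * Y + 2 * ε * Y ≤ 1 / 2 * Y := by
    rw [← add_mul]
    exact mul_le_mul_of_nonneg_right (by linarith) b2.le
  have c2 : 2 * ε * X ≤ 1 / 24 * X := mul_le_mul_of_nonneg_right (by linarith) b1.le
  linarith [o.1]

/-- **The hypotheses on the rows.** -/
structure Row21 (w : ℕ → ℤ → ℝ) (p : ℕ → ℝ) (lo hi : ℤ) (c0 n1 j n2 n3 m : ℕ) (a1 b2 ya yb za zb : ℤ) (δ ε ρ β t : ℝ) : Prop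
    where
  B : Buf w p (c0 + n1 + j + 1 + n2) n3 m ya yb za zb δ ε
  O : Out w p c0 (n1 + j + (n2 + 1)) n3 m a1 b2 ya yb ε
  ρ1 : 1 ≤ ρ
  β1 : 1 ≤ β
  t0 : 0 ≤ t
  sm : δ + 12 * ε ≤ 1 / 4
  rf : ∀ y ∈ Icc lo hi, bw w p (c0 + n1 + j + 1) (n2 + (n3 + m)) (y - 1) ≤ ρ * bw w p (c0 + n1 + j + 1) (n2 + (n3 + m)) y ∧
    bw w p (c0 + n1 + j + 1) (n2 + (n3 + m)) (y + 1) ≤ ρ * bw w p (c0 + n1 + j + 1) (n2 + (n3 + m)) y
  ri : ∀ y ∈ Icc lo hi, bw w p (c0 + n1 + j + 1) (n2 + n3) (y - 1) ≤ ρ * bw w p (c0 + n1 + j + 1) (n2 + n3) y ∧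
    bw w p (c0 + n1 + j + 1) (n2 + n3) (y + 1) ≤ ρ * bw w p (c0 + n1 + j + 1) (n2 + n3) y
  dn : ∀ y ∈ Icc lo hi, ev w p (c0 + n1 + j + 1) n2 (n3 + m) (fun z => ¬ (ya ≤ z ∧ z ≤ yb)) (y - 1) ≤
    β * ev w p (c0 + n1 + j + 1) n2 (n3 + m) (fun z => ¬ (ya ≤ z ∧ z ≤ yb)) y + t * bw w p (c0 + n1 + j + 1) (n2 + (n3 + m)) (y - 1)
  dn0 : ∀ y ∈ Icc lo hi, ev w p (c0 + n1 + j + 1) n2 n3 (fun z => ¬ (ya ≤ z ∧ z ≤ yb)) (y - 1) ≤
    β * ev w p (c0 + n1 + j + 1) n2 n3 (fun z => ¬ (ya ≤ z ∧ z ≤ yb)) y + t * bw w p (c0 + n1 + j + 1) (n2 + n3) (y - 1)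

/-- The sums of the off profile against a mass. -/
theorem sum_off {wk M o f : ℤ → ℝ} {pk E V : ℝ} (hw : ∀ y, 0 < wk y) (hM : ∀ y, 0 ≤ M y) (ho : ∀ y, 0 ≤ o y) (hpk : 0 < pk)
    (β1 : 1 ≤ β) (t0 : 0 ≤ t) (ρ0 : 0 ≤ ρ) (V0 : 0 ≤ V)
    (hE : ∑ y ∈ Icc lo hi, wk y * (M y * (o y + pk * o (y + 1))) ≤ E)
    (hV : ∑ y ∈ Icc lo hi, wk y * (M y * f y) ≤ V)
    (hf : ∀ y ∈ Icc lo hi, f (y - 1) ≤ ρ * f y) (hd : ∀ y ∈ Icc lo hi, o (y - 1) ≤ β * o y + t * f (y - 1)) :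
    ∑ y ∈ Icc lo hi, wk y * (M y * o (y - 1)) ≤ β / min 1 pk * E + t * ρ * V ∧
      ∑ y ∈ Icc lo hi, wk y * (M y * o y) ≤ β / min 1 pk * E + t * ρ * V ∧
      ∑ y ∈ Icc lo hi, wk y * (M y * o (y + 1)) ≤ β / min 1 pk * E + t * ρ * V := by
  have mp : 0 < min 1 pk := lt_min one_pos hpk
  have m1 : min 1 pk ≤ 1 := min_le_left _ _
  have m2 : min 1 pk ≤ pk := min_le_right _ _
  have nn : ∀ y, 0 ≤ wk y * (M y * o y) := fun y => mul_nonneg (hw y).le (mul_nonneg (hM y) (ho y))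
  have n2 : ∀ y, 0 ≤ wk y * (M y * o (y + 1)) := fun y => mul_nonneg (hw y).le (mul_nonneg (hM y) (ho _))
  have s0 : 0 ≤ ∑ y ∈ Icc lo hi, wk y * (M y * o y) := sum_nonneg fun y _ => nn y
  have s2 : 0 ≤ ∑ y ∈ Icc lo hi, wk y * (M y * o (y + 1)) := sum_nonneg fun y _ => n2 y
  have e : ∑ y ∈ Icc lo hi, wk y * (M y * (o y + pk * o (y + 1))) =
      ∑ y ∈ Icc lo hi, wk y * (M y * o y) + pk * ∑ y ∈ Icc lo hi, wk y * (M y * o (y + 1)) := by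
    rw [mul_sum, ← sum_add_distrib]
    exact sum_congr rfl fun y _ => by ring
  rw [e] at hE
  have E0 : 0 ≤ E := le_trans (add_nonneg s0 (mul_nonneg hpk.le s2)) hE
  have tV : 0 ≤ t * ρ * V := by positivity
  have c1 : ∑ y ∈ Icc lo hi, wk y * (M y * o y) ≤ E := by
    have := mul_nonneg hpk.le s2
    linarith
  have i1 : 1 ≤ 1 / min 1 pk := (one_le_div mp).2 m1
  have be : β * E ≤ β / min 1 pk * E := by
    refine mul_le_mul_of_nonneg_right ?_ E0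
    rw [le_div_iff₀ mp]
    exact mul_le_of_le_one_right (by linarith) m1
  have eb : E ≤ β * E := le_mul_of_one_le_left E0 β1
  refine ⟨?_, by linarith, ?_⟩
  · have a1 : ∑ y ∈ Icc lo hi, wk y * (M y * o (y - 1)) ≤
        β * (∑ y ∈ Icc lo hi, wk y * (M y * o y)) + t * ρ * ∑ y ∈ Icc lo hi, wk y * (M y * f y) := by
      rw [mul_sum, mul_sum, ← sum_add_distrib]
      refine sum_le_sum fun y hy => ?_
      have h1 := hd y hy
      have h2 := mul_le_mul_of_nonneg_left (hf y hy) t0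
      have h3 := mul_le_mul_of_nonneg_left (h1.trans (add_le_add le_rfl h2)) (mul_nonneg (hw y).le (hM y))
      linarith
    have a2 := mul_le_mul_of_nonneg_left c1 (show 0 ≤ β by linarith)
    have a3 := mul_le_mul_of_nonneg_left hV (mul_nonneg t0 ρ0)
    linarith
  · have a1 : ∑ y ∈ Icc lo hi, wk y * (M y * o (y + 1)) ≤ E / min 1 pk := by
      rw [le_div_iff₀ mp]
      have := mul_le_mul_of_nonneg_left m2 s2
      linarith
    have a2 : E / min 1 pk ≤ β / min 1 pk * E := by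
      rw [div_mul_eq_mul_div]
      exact div_le_div_of_nonneg_right eb mp.le
    linarith

/-- **THE DISTANCE OF TWO ROWS.** -/
theorem nr21 (hw : ∀ k y, 0 < w k y) (hp : ∀ k, 0 < p k)
    (R : Row21 w p lo hi c0 n1 j n2 n3 m a1 b2 ya yb za zb δ ε ρ β t)
    (h : Ent w p lo hi l c0 n1 j (j + (n2 + (n3 + m) + 1)) a1 b1 a2 b2 xa xb δ ε)
    (he : β / min 1 (p (c0 + n1 + j)) * ε + t ≤ ε') (q : ℤ) :
    Nr lo hi (p (c0 + n1 + j)) (w (c0 + n1 + j)) (fw w p l (c0 + n1 + j)) (bw w p (c0 + n1 + j + 1) (n2 + (n3 + m)))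
      (Fm w p l c0 n1 a1 b1 a2 b2 xa (n1 + j)) (Pm w p (c0 + n1 + j) n2 n3 m ya za zb) q
      (et (p (c0 + n1 + j)) δ ε' ρ)
      (min 1 (p (c0 + n1 + j)) * U lo hi (w (c0 + n1 + j)) (Fm w p l c0 n1 a1 b1 a2 b2 xa (n1 + j))
        (Pm w p (c0 + n1 + j) n2 n3 m ya za zb)) := by
  have g := h.g
  have g1 := g.h1
  have g2 := g.h2
  have g3 := g.h3
  have g7 := g.h7
  have g8 := g.h8
  have nn0 : (0 : ℤ) ≤ ((n1 + j : ℕ) : ℤ) := by positivity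
  have hlh : lo ≤ hi := by omega
  have δ0 := h.δ0
  have ε0 := h.ε0
  have ε1 := h.ε1
  have ρ1 := R.ρ1
  have β1 := R.β1
  have t0 := R.t0
  have sm := R.sm
  have A := am_nn hw hp h
  have pk := hp (c0 + n1 + j)
  have wk := hw (c0 + n1 + j)
  have mp : 0 < min 1 (p (c0 + n1 + j)) := lt_min one_pos pk
  have m0 : ∀ y, 0 ≤ fw w p l (c0 + n1 + j) y := fun y => fw_nonneg hw hp h.s.l0 _ y
  have m0' : ∀ y, 0 ≤ Fm w p l c0 n1 a1 b1 a2 b2 xa (n1 + j) y := fun y => Fm_nonneg hw hp h (n1 + j) y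
  have f0 : ∀ y, 0 < bw w p (c0 + n1 + j + 1) (n2 + (n3 + m)) y := fun y => bw_pos hw hp _ _ y
  have f0' : ∀ y, 0 < Pm w p (c0 + n1 + j) n2 n3 m ya za zb y := fun y => Pm_pos hw hp R.B.gx _ y
  have ez : c0 + (n1 + j) = c0 + n1 + j := by ring
  have ml0 : fw w p l (c0 + n1 + j) (lo - 1) = 0 := by
    have := h.s.off2 le_rfl (lo - 1) (by rw [mem_Icc]; omega)
    rwa [ez] at this
  have ml0' : Fm w p l c0 n1 a1 b1 a2 b2 xa (n1 + j) (lo - 1) = 0 := by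
    unfold Fm
    rw [kf_zero c0 (n1 + j) (y := a1) (x := lo - 1) (by omega), kf_zero c0 (n1 + j) (y := a2) (x := lo - 1) (by omega)]
    ring
  have mh0' : Fm w p l c0 n1 a1 b1 a2 b2 xa (n1 + j) hi = 0 := by
    unfold Fm
    rw [kf_zero c0 (n1 + j) (y := a1) (x := hi) (by omega), kf_zero c0 (n1 + j) (y := a2) (x := hi) (by omega)]
    ring
  have K0 := Kr_pos hw hp R.B.gx (c0 + n1 + j + 1) n2 m
  have Pe : ∀ y, Pm w p (c0 + n1 + j) n2 n3 m ya za zb y =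
      Kr w p (c0 + n1 + j + 1) n2 n3 m ya za zb * bw w p (c0 + n1 + j + 1) (n2 + n3) y := fun y => rfl
  have ri : ∀ y ∈ Icc lo hi, Pm w p (c0 + n1 + j) n2 n3 m ya za zb (y - 1) ≤ ρ * Pm w p (c0 + n1 + j) n2 n3 m ya za zb y ∧
      Pm w p (c0 + n1 + j) n2 n3 m ya za zb (y + 1) ≤ ρ * Pm w p (c0 + n1 + j) n2 n3 m ya za zb y := by
    intro y hy
    have r := R.ri y hy
    rw [Pe, Pe, Pe]
    constructor
    · have := mul_le_mul_of_nonneg_left r.1 K0.le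
      linarith
    · have := mul_le_mul_of_nonneg_left r.2 K0.le
      linarith
  -- the totals
  have tot := tot_le pk wk m0' f0' hlh ml0' mh0' q
  have D := ent_mass hw hp (M := n2 + (n3 + m)) h
  have Um0 := U_nonneg (lo := lo) (hi := hi) wk m0' f0'
  -- the amplitudes
  set B1 := am w p c0 n1 a1 b1 xa (fw w p l c0) with hB1
  set B2 := am w p c0 n1 a2 b2 xa (fw w p l c0) with hB2
  have Fe : ∀ y, Fm w p l c0 n1 a1 b1 a2 b2 xa (n1 + j) y = B1 * kf w p c0 (n1 + j) a1 y + B2 * kf w p c0 (n1 + j) a2 y := fun y => rfl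
  -- real and flat totals
  have v1 := total_mod (w := w) (p := p) (c0 := c0) g B1 B2 (n2 + (n3 + m))
  have v2 := total_mod (w := w) (p := p) (c0 := c0) g B1 B2 (n2 + n3)
  have i1 : n1 + j + (n2 + (n3 + m) + 1) = n1 + j + (n2 + 1) + (n3 + m) := by ring
  have i2 : n1 + j + (n2 + n3 + 1) = n1 + j + (n2 + 1) + n3 := by ring
  rw [i1] at v1
  rw [i2] at v2
  have cD : c0 + (n1 + j + (n2 + 1)) = c0 + n1 + j + 1 + n2 := by ring
  have Kc : Kr w p c0 (n1 + j + (n2 + 1)) n3 m ya za zb = Kr w p (c0 + n1 + j + 1) n2 n3 m ya za zb := by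
    unfold Kr Ce
    rw [cD]
  have BB : Buf w p (c0 + (n1 + j + (n2 + 1))) n3 m ya yb za zb δ ε := by
    rw [cD]
    exact R.B
  have T1 := R.O.tot hw hp BB δ0 ε0 sm (a := a1) le_rfl (by omega)
  have T2 := R.O.tot hw hp BB δ0 ε0 sm (a := a2) (by omega) g3
  have O1 := R.O.off hw hp R.B.gx.h1 (a := a1) le_rfl (by omega)
  have O2 := R.O.off hw hp R.B.gx.h1 (a := a2) (by omega) g3
  rw [Kc] at T1 T2
  set K := Kr w p (c0 + n1 + j + 1) n2 n3 m ya za zb with hK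
  set Tr := B1 * bw w p c0 (n1 + j + (n2 + 1) + (n3 + m)) a1 + B2 * bw w p c0 (n1 + j + (n2 + 1) + (n3 + m)) a2 with hTr
  set T0 := B1 * bw w p c0 (n1 + j + (n2 + 1) + n3) a1 + B2 * bw w p c0 (n1 + j + (n2 + 1) + n3) a2 with hT0
  have TT : Tr ≤ 2 * (K * T0) := by
    have h1 := mul_le_mul_of_nonneg_left T1 A.1
    have h2 := mul_le_mul_of_nonneg_left T2 A.2
    rw [hTr, hT0]
    linarith
  have Tr0 : 0 ≤ Tr := add_nonneg (mul_nonneg A.1 (bw_pos hw hp _ _ _).le) (mul_nonneg A.2 (bw_pos hw hp _ _ _).le)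
  -- `K T0 ≤ P U3`
  set P := 1 + p (c0 + n1 + j) * ρ with hP
  have P1 : 1 ≤ P := by
    have : 0 ≤ p (c0 + n1 + j) * ρ := by positivity
    linarith
  set U3 := U lo hi (w (c0 + n1 + j)) (Fm w p l c0 n1 a1 b1 a2 b2 xa (n1 + j)) (Pm w p (c0 + n1 + j) n2 n3 m ya za zb) with hU3
  have KT : K * T0 ≤ P * U3 := by
    have s := step_le (lo := lo) (hi := hi) wk m0' (f := Pm w p (c0 + n1 + j) n2 n3 m ya za zb) (ρ := ρ) pk
      fun y hy => (ri y hy).2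
    refine le_trans (le_of_eq ?_) s
    rw [← v2, mul_sum]
    refine sum_congr rfl fun y _ => ?_
    rw [Pe, Pe, Fe]
    ring
  -- the real total against the model
  have S1 : Tt w p lo hi l c0 (n1 + (j + (n2 + (n3 + m) + 1))) ≤ Tr + (δ + 8 * ε) * Tt w p lo hi l c0 (n1 + (j + (n2 + (n3 + m) + 1))) := by
    have r := ent_row hw hp h
    have tt := h.s.total (Nat.le_add_right n1 j) (j + (n2 + (n3 + m) + 1))
    have e1 : ∑ x ∈ Icc lo hi, Fm w p l c0 n1 a1 b1 a2 b2 xa n1 x * bw w p (c0 + n1) (j + (n2 + (n3 + m) + 1)) x = Tr := by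
      have e2 : n1 + (j + (n2 + (n3 + m) + 1)) = n1 + j + (n2 + 1) + (n3 + m) := by ring
      have q1 := ev_total (w := w) (p := p) c0 n1 (j + (n2 + (n3 + m) + 1)) (a := a1) (lo := lo) (hi := hi) (by omega)
        (by push_cast at g8; omega)
      have q2 := ev_total (w := w) (p := p) c0 n1 (j + (n2 + (n3 + m) + 1)) (a := a2) (lo := lo) (hi := hi) (by omega)
        (by push_cast at g8; omega)
      rw [e2] at q1 q2
      rw [hTr, q1, q2, mul_sum, mul_sum, ← sum_add_distrib]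
      refine sum_congr rfl fun x _ => ?_
      unfold Fm
      ring
    have e3 : Tt w p lo hi l c0 (n1 + (j + (n2 + (n3 + m) + 1))) ≤
        ∑ x ∈ Icc lo hi, Fm w p l c0 n1 a1 b1 a2 b2 xa n1 x * bw w p (c0 + n1) (j + (n2 + (n3 + m) + 1)) x +
        ∑ x ∈ Icc lo hi, |fw w p l (c0 + n1) x - Fm w p l c0 n1 a1 b1 a2 b2 xa n1 x| * bw w p (c0 + n1) (j + (n2 + (n3 + m) + 1)) x := by
      unfold Tt
      rw [← tt, ← sum_add_distrib]
      refine sum_le_sum fun x _ => ?_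
      have a := le_abs_self (fw w p l (c0 + n1) x - Fm w p l c0 n1 a1 b1 a2 b2 xa n1 x)
      have b := (bw_pos hw hp (j + (n2 + (n3 + m) + 1)) (c0 + n1) x).le
      have c := mul_le_mul_of_nonneg_right a b
      linarith
    rw [e1] at e3
    linarith
  have S0 : 0 ≤ Tt w p lo hi l c0 (n1 + (j + (n2 + (n3 + m) + 1))) := Tt_nonneg hw hp h
  -- the off profile
  have offR : ∑ y ∈ Icc lo hi, w (c0 + n1 + j) y * (Fm w p l c0 n1 a1 b1 a2 b2 xa (n1 + j) y *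
      (ev w p (c0 + n1 + j + 1) n2 (n3 + m) (fun z => ¬ (ya ≤ z ∧ z ≤ yb)) y +
        p (c0 + n1 + j) * ev w p (c0 + n1 + j + 1) n2 (n3 + m) (fun z => ¬ (ya ≤ z ∧ z ≤ yb)) (y + 1))) ≤ 2 * ε * Tr := by
    have x1 := off21 (w := w) (p := p) (c0 := c0) (n1 := n1) (j := j) (n2 := n2) (lo := lo) (hi := hi) (n3 + m)
      (fun z => ¬ (ya ≤ z ∧ z ≤ yb)) (a := a1) (by omega) (by omega)
    have x2 := off21 (w := w) (p := p) (c0 := c0) (n1 := n1) (j := j) (n2 := n2) (lo := lo) (hi := hi) (n3 + m)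
      (fun z => ¬ (ya ≤ z ∧ z ≤ yb)) (a := a2) (by omega) (by omega)
    have y1 := mul_le_mul_of_nonneg_left O1.1 A.1
    have y2 := mul_le_mul_of_nonneg_left O2.1 A.2
    rw [← x1] at y1
    rw [← x2] at y2
    have e1 : ∑ y ∈ Icc lo hi, w (c0 + n1 + j) y * (Fm w p l c0 n1 a1 b1 a2 b2 xa (n1 + j) y *
        (ev w p (c0 + n1 + j + 1) n2 (n3 + m) (fun z => ¬ (ya ≤ z ∧ z ≤ yb)) y +
        p (c0 + n1 + j) * ev w p (c0 + n1 + j + 1) n2 (n3 + m) (fun z => ¬ (ya ≤ z ∧ z ≤ yb)) (y + 1))) =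
        B1 * (∑ y ∈ Icc lo hi, w (c0 + n1 + j) y * (kf w p c0 (n1 + j) a1 y *
          (ev w p (c0 + n1 + j + 1) n2 (n3 + m) (fun z => ¬ (ya ≤ z ∧ z ≤ yb)) y +
          p (c0 + n1 + j) * ev w p (c0 + n1 + j + 1) n2 (n3 + m) (fun z => ¬ (ya ≤ z ∧ z ≤ yb)) (y + 1)))) +
        B2 * (∑ y ∈ Icc lo hi, w (c0 + n1 + j) y * (kf w p c0 (n1 + j) a2 y *
          (ev w p (c0 + n1 + j + 1) n2 (n3 + m) (fun z => ¬ (ya ≤ z ∧ z ≤ yb)) y +
          p (c0 + n1 + j) * ev w p (c0 + n1 + j + 1) n2 (n3 + m) (fun z => ¬ (ya ≤ z ∧ z ≤ yb)) (y + 1)))) := by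
      rw [mul_sum, mul_sum, ← sum_add_distrib]
      refine sum_congr rfl fun y _ => ?_
      rw [Fe]
      ring
    rw [e1]
    refine (add_le_add y1 y2).trans (le_of_eq ?_)
    rw [hTr]
    ring
  have off0 : ∑ y ∈ Icc lo hi, w (c0 + n1 + j) y * (Fm w p l c0 n1 a1 b1 a2 b2 xa (n1 + j) y *
      (ev w p (c0 + n1 + j + 1) n2 n3 (fun z => ¬ (ya ≤ z ∧ z ≤ yb)) y +
        p (c0 + n1 + j) * ev w p (c0 + n1 + j + 1) n2 n3 (fun z => ¬ (ya ≤ z ∧ z ≤ yb)) (y + 1))) ≤ 2 * ε * T0 := by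
    have x1 := off21 (w := w) (p := p) (c0 := c0) (n1 := n1) (j := j) (n2 := n2) (lo := lo) (hi := hi) n3
      (fun z => ¬ (ya ≤ z ∧ z ≤ yb)) (a := a1) (by omega) (by omega)
    have x2 := off21 (w := w) (p := p) (c0 := c0) (n1 := n1) (j := j) (n2 := n2) (lo := lo) (hi := hi) n3
      (fun z => ¬ (ya ≤ z ∧ z ≤ yb)) (a := a2) (by omega) (by omega)
    have y1 := mul_le_mul_of_nonneg_left O1.2 A.1
    have y2 := mul_le_mul_of_nonneg_left O2.2 A.2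
    rw [← x1] at y1
    rw [← x2] at y2
    have e1 : ∑ y ∈ Icc lo hi, w (c0 + n1 + j) y * (Fm w p l c0 n1 a1 b1 a2 b2 xa (n1 + j) y *
        (ev w p (c0 + n1 + j + 1) n2 n3 (fun z => ¬ (ya ≤ z ∧ z ≤ yb)) y +
        p (c0 + n1 + j) * ev w p (c0 + n1 + j + 1) n2 n3 (fun z => ¬ (ya ≤ z ∧ z ≤ yb)) (y + 1))) =
        B1 * (∑ y ∈ Icc lo hi, w (c0 + n1 + j) y * (kf w p c0 (n1 + j) a1 y *
          (ev w p (c0 + n1 + j + 1) n2 n3 (fun z => ¬ (ya ≤ z ∧ z ≤ yb)) y +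
          p (c0 + n1 + j) * ev w p (c0 + n1 + j + 1) n2 n3 (fun z => ¬ (ya ≤ z ∧ z ≤ yb)) (y + 1)))) +
        B2 * (∑ y ∈ Icc lo hi, w (c0 + n1 + j) y * (kf w p c0 (n1 + j) a2 y *
          (ev w p (c0 + n1 + j + 1) n2 n3 (fun z => ¬ (ya ≤ z ∧ z ≤ yb)) y +
          p (c0 + n1 + j) * ev w p (c0 + n1 + j + 1) n2 n3 (fun z => ¬ (ya ≤ z ∧ z ≤ yb)) (y + 1)))) := by
      rw [mul_sum, mul_sum, ← sum_add_distrib]
      refine sum_congr rfl fun y _ => ?_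
      rw [Fe]
      ring
    rw [e1]
    refine (add_le_add y1 y2).trans (le_of_eq ?_)
    rw [hT0]
    ring
  have UfR : ∑ y ∈ Icc lo hi, w (c0 + n1 + j) y * (Fm w p l c0 n1 a1 b1 a2 b2 xa (n1 + j) y *
      bw w p (c0 + n1 + j + 1) (n2 + (n3 + m)) y) ≤ Tr := by
    rw [← v1]
    refine sum_le_sum fun y _ => ?_
    have h1 : 0 ≤ w (c0 + n1 + j) y * (Fm w p l c0 n1 a1 b1 a2 b2 xa (n1 + j) y *
        (p (c0 + n1 + j) * bw w p (c0 + n1 + j + 1) (n2 + (n3 + m)) (y + 1))) :=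
      mul_nonneg (wk y).le (mul_nonneg (m0' y) (mul_nonneg pk.le (bw_pos hw hp _ _ _).le))
    rw [Fe] at h1 ⊢
    linarith
  have UfK : K * ∑ y ∈ Icc lo hi, w (c0 + n1 + j) y * (Fm w p l c0 n1 a1 b1 a2 b2 xa (n1 + j) y *
      bw w p (c0 + n1 + j + 1) (n2 + n3) y) = U3 := by
    rw [hU3]
    unfold U
    rw [mul_sum]
    refine sum_congr rfl fun y _ => ?_
    rw [Pe]
    ring
  have oR := sum_off (lo := lo) (hi := hi) (wk := w (c0 + n1 + j)) (M := Fm w p l c0 n1 a1 b1 a2 b2 xa (n1 + j))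
    (o := ev w p (c0 + n1 + j + 1) n2 (n3 + m) (fun z => ¬ (ya ≤ z ∧ z ≤ yb)))
    (f := bw w p (c0 + n1 + j + 1) (n2 + (n3 + m))) (ρ := ρ) wk m0' (fun y => ev_nonneg hw hp _ _ _ _ y) pk β1 t0 (by linarith) Tr0
    offR UfR (fun y hy => (R.rf y hy).1) R.dn
  have U00 : 0 ≤ ∑ y ∈ Icc lo hi, w (c0 + n1 + j) y * (Fm w p l c0 n1 a1 b1 a2 b2 xa (n1 + j) y *
      bw w p (c0 + n1 + j + 1) (n2 + n3) y) :=
    sum_nonneg fun y _ => mul_nonneg (wk y).le (mul_nonneg (m0' y) (bw_pos hw hp _ _ _).le)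
  have o0 := sum_off (lo := lo) (hi := hi) (wk := w (c0 + n1 + j)) (M := Fm w p l c0 n1 a1 b1 a2 b2 xa (n1 + j))
    (o := ev w p (c0 + n1 + j + 1) n2 n3 (fun z => ¬ (ya ≤ z ∧ z ≤ yb)))
    (f := bw w p (c0 + n1 + j + 1) (n2 + n3)) (ρ := ρ) wk m0' (fun y => ev_nonneg hw hp _ _ _ _ y) pk β1 t0 (by linarith) U00
    off0 le_rfl (fun y hy => (R.ri y hy).1) R.dn0
  -- together
  have near := R.B.prof hw hp δ0 ε0 ε1
  set E := β / min 1 (p (c0 + n1 + j)) * (2 * ε * Tr) + t * ρ * Tr + (β / min 1 (p (c0 + n1 + j)) * (2 * ε * (K * T0)) + t * ρ * U3)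
    with hE
  have col : ∀ e : ℤ → ℤ, ∑ y ∈ Icc lo hi, w (c0 + n1 + j) y * (Fm w p l c0 n1 a1 b1 a2 b2 xa (n1 + j) y *
      ev w p (c0 + n1 + j + 1) n2 (n3 + m) (fun z => ¬ (ya ≤ z ∧ z ≤ yb)) (e y)) ≤
        β / min 1 (p (c0 + n1 + j)) * (2 * ε * Tr) + t * ρ * Tr →
      ∑ y ∈ Icc lo hi, w (c0 + n1 + j) y * (Fm w p l c0 n1 a1 b1 a2 b2 xa (n1 + j) y *
      ev w p (c0 + n1 + j + 1) n2 n3 (fun z => ¬ (ya ≤ z ∧ z ≤ yb)) (e y)) ≤
        β / min 1 (p (c0 + n1 + j)) * (2 * ε * T0) + t * ρ * ∑ y ∈ Icc lo hi, w (c0 + n1 + j) y *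
          (Fm w p l c0 n1 a1 b1 a2 b2 xa (n1 + j) y * bw w p (c0 + n1 + j + 1) (n2 + n3) y) →
      ∑ y ∈ Icc lo hi, w (c0 + n1 + j) y * (Fm w p l c0 n1 a1 b1 a2 b2 xa (n1 + j) y *
        (ev w p (c0 + n1 + j + 1) n2 (n3 + m) (fun z => ¬ (ya ≤ z ∧ z ≤ yb)) (e y) +
          K * ev w p (c0 + n1 + j + 1) n2 n3 (fun z => ¬ (ya ≤ z ∧ z ≤ yb)) (e y))) ≤ E := by
    intro e h1 h2
    have h3 := mul_le_mul_of_nonneg_left h2 K0.le
    have e1 : ∑ y ∈ Icc lo hi, w (c0 + n1 + j) y * (Fm w p l c0 n1 a1 b1 a2 b2 xa (n1 + j) y *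
        (ev w p (c0 + n1 + j + 1) n2 (n3 + m) (fun z => ¬ (ya ≤ z ∧ z ≤ yb)) (e y) +
          K * ev w p (c0 + n1 + j + 1) n2 n3 (fun z => ¬ (ya ≤ z ∧ z ≤ yb)) (e y))) =
        ∑ y ∈ Icc lo hi, w (c0 + n1 + j) y * (Fm w p l c0 n1 a1 b1 a2 b2 xa (n1 + j) y *
          ev w p (c0 + n1 + j + 1) n2 (n3 + m) (fun z => ¬ (ya ≤ z ∧ z ≤ yb)) (e y)) +
        K * ∑ y ∈ Icc lo hi, w (c0 + n1 + j) y * (Fm w p l c0 n1 a1 b1 a2 b2 xa (n1 + j) y *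
          ev w p (c0 + n1 + j + 1) n2 n3 (fun z => ¬ (ya ≤ z ∧ z ≤ yb)) (e y)) := by
      rw [mul_sum, ← sum_add_distrib]
      exact sum_congr rfl fun y _ => by ring
    rw [e1, hE, ← UfK]
    linarith
  have dd := ds21 (lo := lo) (hi := hi) (m := fw w p l (c0 + n1 + j)) (D := (δ + 8 * ε) * Tt w p lo hi l c0 (n1 + (j + (n2 + (n3 + m) + 1))))
    wk m0' f0 f0' ρ1 R.rf ri (κ := 2 * δ + 8 * ε) (E := E)
    (o := fun y => ev w p (c0 + n1 + j + 1) n2 (n3 + m) (fun z => ¬ (ya ≤ z ∧ z ≤ yb)) y +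
      K * ev w p (c0 + n1 + j + 1) n2 n3 (fun z => ¬ (ya ≤ z ∧ z ≤ yb)) y) (by positivity) D near
    (col (fun y => y - 1) oR.1 o0.1) (col (fun y => y) oR.2.1 o0.2.1) (col (fun y => y + 1) oR.2.2 o0.2.2)
  refine ⟨m0, m0', ml0, ml0', mul_nonneg mp.le Um0, ?_, tot.1, tot.2.1, tot.2.2⟩
  have e9 : et (p (c0 + n1 + j)) δ ε' ρ * (min 1 (p (c0 + n1 + j)) * U3) = 180 * ρ * P * (δ + ε') * U3 := by
    unfold et
    rw [hP]
    field_simp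
  rw [e9]
  refine dd.trans ?_
  have bm : 1 ≤ β / min 1 (p (c0 + n1 + j)) := by
    rw [le_div_iff₀ mp, one_mul]
    exact (min_le_left _ _).trans β1
  have PU : U3 ≤ P * U3 := le_mul_of_one_le_left Um0 P1
  have PU0 : 0 ≤ P * U3 := mul_nonneg (by linarith) Um0
  have KT0 : 0 ≤ K * T0 := by linarith
  rw [hE]
  generalize Tt w p lo hi l c0 (n1 + (j + (n2 + (n3 + m) + 1))) = S at *
  generalize β / min 1 (p (c0 + n1 + j)) = b at *
  generalize K * T0 = V at *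
  have be : 0 ≤ b * ε := mul_nonneg (by linarith) ε0
  have q0 : (δ + 8 * ε) * S ≤ 1 / 4 * S := mul_le_mul_of_nonneg_right (by linarith) S0
  have q1 : S ≤ 4 * (P * U3) := by linarith
  have q2 : (δ + 8 * ε) * S ≤ (δ + 8 * ε) * (4 * (P * U3)) := mul_le_mul_of_nonneg_left q1 (by positivity)
  have q3 : (2 * δ + 8 * ε) * U3 ≤ (2 * δ + 8 * ε) * (P * U3) := mul_le_mul_of_nonneg_left PU (by positivity)
  have q4 : b * (2 * ε * Tr) ≤ 4 * (b * ε * (P * U3)) := by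
    have := mul_le_mul_of_nonneg_left (show Tr ≤ 2 * (P * U3) by linarith) be
    linarith
  have q5 : b * (2 * ε * V) ≤ 2 * (b * ε * (P * U3)) := by
    have := mul_le_mul_of_nonneg_left KT be
    linarith
  have q6 : t * Tr ≤ t * (2 * (P * U3)) := mul_le_mul_of_nonneg_left (by linarith) t0
  have q7 : t * U3 ≤ t * (P * U3) := mul_le_mul_of_nonneg_left PU t0
  have ee : ε ≤ b * ε := le_mul_of_one_le_left ε0 bm
  have q8 : ε * (P * U3) ≤ b * ε * (P * U3) := mul_le_mul_of_nonneg_right ee PU0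
  have q9 : (b * ε + t) * (P * U3) ≤ ε' * (P * U3) := mul_le_mul_of_nonneg_right he PU0
  have ρ0 : 0 ≤ ρ := by linarith
  have r1 : b * (2 * ε * Tr) ≤ ρ * (4 * (b * ε * (P * U3))) :=
    q4.trans (le_mul_of_one_le_left (by positivity) ρ1)
  have r2 : b * (2 * ε * V) ≤ ρ * (2 * (b * ε * (P * U3))) :=
    q5.trans (le_mul_of_one_le_left (by positivity) ρ1)
  have tot : (δ + 8 * ε) * S + (2 * δ + 8 * ε) * U3 + 4 * (b * ε * (P * U3)) + 2 * (b * ε * (P * U3)) + t * Tr + t * U3 ≤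
      60 * ((δ + ε') * (P * U3)) := by
    have z1 : 0 ≤ δ * (P * U3) := mul_nonneg δ0 PU0
    have z2 : 0 ≤ b * ε * (P * U3) := mul_nonneg be PU0
    have z3 : 0 ≤ t * (P * U3) := mul_nonneg t0 PU0
    linarith
  have fin := mul_le_mul_of_nonneg_left tot (show 0 ≤ 3 * ρ by linarith)
  linarith

end

end Pool.Agent.W_7d29a1_C1.P21
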