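import Pool.Agent.W_7d29a1_C1.LowT63

/-!
MP_7d29a1_pr, the attractor route [C1], TAME: A PIECE OF LAYERS OF DIFFERENT LABELS: SLABS AND THE LOWER BOUND FROM EVERY START. (helper63)

`Pc63`: rows `r i`, columns, labels `lab i ≤ t` (at most `c₀` layers per label), heights `H v`, levels (`lvS`, `tpS`) with powers of
`Tt / H (lab i)`, lateral positions of the bases within a power of `Tt / H (lab i)` of the line through `κ`. **`slabs63`**: the `Slabs` of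
helper89 from the row `k` of the layer `j` on. **`pcl63`**: the lower bound of the kernel from every start to the top row of the piece, the
windows around the line of the start; the price grows like `gr (2 P)` of the lateral distance of the start from `κ` in widths.
-/

set_option autoImplicit false

namespace Pool.Agent.W_7d29a1_C1.PcS63

open MeasureTheory ProbabilityTheory Finset Filter
open Pool.Agent.W_7d29a1_F Pool.Agent.W_7d29a1_h4g Pool.Agent.W_7d29a1_H Pool.Agent.W_7d29a1_HS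
open Pool.Agent.W_7d29a1_C1.H75 Pool.Agent.W_7d29a1_C1.U16 Pool.Agent.W_7d29a1_C1.FarK89 Pool.Agent.W_7d29a1_C1.FarW89
open Pool.Agent.W_7d29a1_C1.K91 (wt wt_pos)
open Pool.Agent.W_7d29a1_C1.TpF63 Pool.Agent.W_7d29a1_C1.LyN63 Pool.Agent.W_7d29a1_C1.RB6 Pool.Agent.W_7d29a1_C1.LwT63

noncomputable section

/-- A piece of layers: rows, columns, heights of the labels, levels. -/
structure Pc63 (μ : Measure ℝ) (s c θ K ε α : ℝ) (P j₁ K₀ n₁ : ℕ) (η : Env) (κ : Pt) (r col : ℕ → ℤ) (H lab : ℕ → ℕ) (q : ℕ → ℝ)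
    (a b t Tt c₀ : ℕ) (q₀ A h : ℝ) (D : ℕ) : Prop where
  len : ∀ i, a ≤ i → i < b → 2 * θ * H (lab i) ≤ ((r (i + 1) - r i : ℤ) : ℝ)
  lenH : ∀ i, a ≤ i → i < b → r (i + 1) - r i ≤ H (lab i)
  labt : ∀ i, a ≤ i → i < b → lab i ≤ t
  top : lab (b - 1) = t
  Ht : H t = Tt
  cnt : ∀ v, ((Ico a b).filter fun i => lab i = v).card ≤ c₀
  H1 : ∀ v, v ≤ t → n₁ ≤ H v
  HK : ∀ v, v < t → K₀ * H v ≤ H (v + 1)
  q0 : ∀ i, a ≤ i → i < b → 0 ≤ q i
  q1 : ∀ i, a ≤ i → i < b → q i ≤ q₀ * ((Tt : ℝ) / H (lab i)) ^ α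
  far : ∀ i, a ≤ i → i < b → η ∈ Far16 μ s c θ K (H (lab i)) (r (i + 1) - r i).toNat P (r i, col i) (q i)
  tp : ∀ i, a ≤ i → i < b → η ∈ Tp63 μ s c θ K ε P j₁ (r (i + 1) - r i).toNat (r (i + 1), col (i + 1)) (q i)
  latb : ∀ i, a ≤ i → i < b → |lat16 μ s κ (r i, col i)| ≤ A * ((Tt : ℝ) / H (lab i)) ^ D * wd μ s Tt
  latt : ∀ i, a ≤ i → i < b → |lat16 μ s κ (r (i + 1), col (i + 1))| ≤ A * ((Tt : ℝ) / H (lab i)) ^ D * wd μ s Tt
  force : |h| * wd μ s Tt ≤ c / 8 * EE μ s Tt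

namespace Pc63

variable {μ : Measure ℝ} {s c θ K ε α : ℝ} {P j₁ K₀ n₁ : ℕ} {η : Env} {κ : Pt} {r col : ℕ → ℤ} {H lab : ℕ → ℕ} {q : ℕ → ℝ}
  {a b t Tt c₀ : ℕ} {q₀ A h : ℝ} {D : ℕ}

/-- A shorter piece. -/
theorem sub (S : Pc63 μ s c θ K ε α P j₁ K₀ n₁ η κ r col H lab q a b t Tt c₀ q₀ A h D) {a' : ℕ} (ha : a ≤ a') :
    Pc63 μ s c θ K ε α P j₁ K₀ n₁ η κ r col H lab q a' b t Tt c₀ q₀ A h D where
  len i h1 h2 := S.len i (ha.trans h1) h2
  lenH i h1 h2 := S.lenH i (ha.trans h1) h2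
  labt i h1 h2 := S.labt i (ha.trans h1) h2
  top := S.top
  Ht := S.Ht
  cnt v := (card_le_card (filter_subset_filter _ (Ico_subset_Ico_left ha))).trans (S.cnt v)
  H1 := S.H1
  HK := S.HK
  q0 i h1 h2 := S.q0 i (ha.trans h1) h2
  q1 i h1 h2 := S.q1 i (ha.trans h1) h2
  far i h1 h2 := S.far i (ha.trans h1) h2
  tp i h1 h2 := S.tp i (ha.trans h1) h2
  latb i h1 h2 := S.latb i (ha.trans h1) h2
  latt i h1 h2 := S.latt i (ha.trans h1) h2
  force := S.force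

theorem Hle (S : Pc63 μ s c θ K ε α P j₁ K₀ n₁ η κ r col H lab q a b t Tt c₀ q₀ A h D) (hK : 1 ≤ K₀) : ∀ {v : ℕ}, v ≤ t → H v ≤ Tt := by
  have h1 : ∀ j v, v + j = t → H v ≤ H t := by
    intro j
    induction j with
    | zero =>
      intro v hv
      rw [add_zero] at hv
      rw [hv]
    | succ j ih =>
      intro v hv
      have h1 := ih (v + 1) (by omega)
      have h2 := S.HK v (by omega)
      exact (Nat.le_mul_of_pos_left _ hK).trans (h2.trans h1)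
  intro v hv
  rw [← S.Ht]
  exact h1 (t - v) v (by omega)

theorem rle (S : Pc63 μ s c θ K ε α P j₁ K₀ n₁ η κ r col H lab q a b t Tt c₀ q₀ A h D) (hθ : 0 ≤ θ) {i : ℕ} (h1 : a ≤ i) (h2 : i < b) :
    r i ≤ r (i + 1) := by
  have h3 := S.len i h1 h2
  have h4 : (0 : ℝ) ≤ ((r (i + 1) - r i : ℤ) : ℝ) := le_trans (by positivity) h3
  have h5 : (0 : ℤ) ≤ r (i + 1) - r i := by exact_mod_cast h4
  linarith

theorem rmono (S : Pc63 μ s c θ K ε α P j₁ K₀ n₁ η κ r col H lab q a b t Tt c₀ q₀ A h D) (hθ : 0 ≤ θ) {i i' : ℕ} (h1 : a ≤ i)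
    (h2 : i ≤ i') (h3 : i' ≤ b) : r i ≤ r i' := by
  induction i', h2 using Nat.le_induction with
  | base => exact le_rfl
  | succ v hv ih => exact (ih (by omega)).trans (S.rle hθ (by omega) (by omega))

/-- The layer of a row. -/
theorem cut (S : Pc63 μ s c θ K ε α P j₁ K₀ n₁ η κ r col H lab q a b t Tt c₀ q₀ A h D) {k : ℤ} (h1 : r a ≤ k) (h2 : k < r b) (hab : a ≤ b) :
    ∃ j, a ≤ j ∧ j < b ∧ r j ≤ k ∧ k < r (j + 1) := by
  have key : ∀ m, k < r (a + m) → ∃ j, a ≤ j ∧ j < a + m ∧ r j ≤ k ∧ k < r (j + 1) := by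
    intro m
    induction m with
    | zero =>
      intro h3
      rw [add_zero] at h3
      omega
    | succ m ih =>
      intro h3
      rcases lt_or_ge k (r (a + m)) with h4 | h4
      · obtain ⟨j, g1, g2, g3, g4⟩ := ih h4
        exact ⟨j, g1, by omega, g3, g4⟩
      · exact ⟨a + m, by omega, by omega, h4, h3⟩
  obtain ⟨j, g1, g2, g3, g4⟩ := key (b - a) (by rwa [show a + (b - a) = b by omega])
  exact ⟨j, g1, by omega, g3, g4⟩

end Pc63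

variable {μ : Measure ℝ} [IsProbabilityMeasure μ] {s c C : ℝ} {n₀ : ℕ}

/-- **THE SLABS OF A PIECE**, the first row replaced by a row of the first layer. -/
theorem slabs63 (h0 : In μ s c C n₀) : ∃ (α₀ : ℝ) (K₁ m₁ : ℕ), 0 < α₀ ∧ α₀ ≤ 1 ∧ 2 ≤ K₁ ∧ 1 ≤ m₁ ∧ ∀ (P D : ℕ) (A : ℝ), 0 ≤ A →
    ∃ C₃ : ℝ, 1 ≤ C₃ ∧ ∀ {θ K ε α q₀ h Y : ℝ} {j₁ K₀ n₁ : ℕ} {η : Env} {κ : Pt} {r col : ℕ → ℤ} {H lab : ℕ → ℕ} {q : ℕ → ℝ}
      {a b t Tt c₀ : ℕ}, 5 ≤ K → 0 ≤ θ → 0 ≤ α → α ≤ α₀ → 0 ≤ q₀ → K₁ ≤ K₀ → m₁ ≤ n₁ → 0 ≤ Y →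
      Pc63 μ s c θ K ε α P j₁ K₀ n₁ η κ r col H lab q a b t Tt c₀ q₀ (A * (1 + Y)) h D →
      ∀ j k : ℕ, a ≤ j → j < b → r j ≤ k → (k : ℤ) ≤ r (j + 1) → ∃ (q' : ℕ → ℝ) (bs : ℕ → Pt),
        Slabs μ s c θ (K - 2) h P η κ (fun u => if u = j then k else (r u).toNat) (fun i => H (lab i)) (fun i => (r (i + 1) - r i).toNat)
          q' bs j b Tt n₁ (C₃ * c₀ * (1 + q₀) ^ 2 * gr (2 * P) (1 + Y)) := by
  obtain ⟨a₁, K₁, m₁, ha, ha1, hK1, hm1, HC⟩ := cost63 h0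
  obtain ⟨m₃, hm₃⟩ := eventually_atTop.1 ((wd_tendsto h0).eventually_ge_atTop 1)
  refine ⟨a₁ / 16, K₁, max m₁ m₃, by positivity, by linarith, hK1, hm1.trans (le_max_left _ _), fun P D A hA => ?_⟩
  obtain ⟨C₂, hC₂, HC2⟩ := HC P
  obtain ⟨C₁, hC₁, Hg⟩ := gr_pow63 P (ε := a₁ / 16) (A := 2 + 2 * A) (D + 1) (by positivity) (by linarith)
  refine ⟨C₂ * C₁ ^ 2, one_le_mul_of_one_le_of_one_le hC₂ (one_le_pow₀ hC₁), ?_⟩
  intro θ K ε α q₀ h Y j₁ K₀ n₁ η κ r col H lab q a b t Tt c₀ hK hθ hα hαα hq₀ hKK hmn hY S j k hj hjb hk1 hk2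
  obtain ⟨A', hA'⟩ : ∃ A' : ℝ, A' = A * (1 + Y) := ⟨_, rfl⟩
  have hA'0 : 0 ≤ A' := by rw [hA']; positivity
  rw [← hA'] at S
  obtain ⟨G, hG⟩ : ∃ G : ℝ, G = gr P (1 + Y) := ⟨_, rfl⟩
  have hG1 : 1 ≤ G := by rw [hG]; exact gr_one_le _ (by linarith)
  have hGG : G ^ 2 = gr (2 * P) (1 + Y) := by
    rw [hG]
    unfold gr
    rw [← pow_mul, mul_comm P 2]
  have hK01 : 1 ≤ K₀ := (show 1 ≤ 2 by norm_num).trans (hK1.trans hKK)
  have hHm : ∀ i, a ≤ i → i < b → m₁ ≤ H (lab i) := fun i h1 h2 => ((le_max_left _ _).trans hmn).trans (S.H1 _ (S.labt i h1 h2))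
  have hH3 : ∀ i, a ≤ i → i < b → m₃ ≤ H (lab i) := fun i h1 h2 => ((le_max_right _ _).trans hmn).trans (S.H1 _ (S.labt i h1 h2))
  have hHT : ∀ i, a ≤ i → i < b → H (lab i) ≤ Tt := fun i h1 h2 => S.Hle hK01 (S.labt i h1 h2)
  -- the level events on the line
  obtain ⟨X, hX⟩ : ∃ X : ℕ → ℝ, X = fun i => 2 * A' * ((Tt : ℝ) / H (lab i)) ^ (D + 1) := ⟨_, rfl⟩
  have hX0 : ∀ i, 0 ≤ X i := fun i => by rw [hX]; positivity
  have hch : ∀ i, ∃ bs : Pt, a ≤ i → i < b → bs.1 = r i ∧ 0 ≤ lat16 μ s κ bs ∧ lat16 μ s κ bs < 1 ∧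
      η ∈ Far16 μ s c θ (K - 2) (H (lab i)) (r (i + 1) - r i).toNat P bs (q i * gr P (2 + X i)) := by
    intro i
    by_cases hi : a ≤ i ∧ i < b
    · obtain ⟨h1, h2⟩ := hi
      have g1 := lamw63 h0 (hm1.trans (hHm i h1 h2)) (hHT i h1 h2) D hA'0 (S.latb i h1 h2)
      obtain ⟨bs, e1, e2, e3, e4⟩ := line16 (K' := K - 2) (κ := κ) (S.q0 i h1 h2) (hm₃ _ (hH3 i h1 h2)) (by linarith)
        (hX0 i) (by rw [hX]; exact g1) (S.far i h1 h2)
      exact ⟨bs, fun _ _ => ⟨e1, e2, e3, e4⟩⟩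
    · exact ⟨0, fun h1 h2 => absurd ⟨h1, h2⟩ hi⟩
  choose bs hbs using hch
  have hg0 : ∀ i, 0 ≤ gr P (2 + X i) := fun i => gr_nonneg _ (by linarith [hX0 i])
  have hq' : ∀ i, a ≤ i → i < b → 0 ≤ q i * gr P (2 + X i) ∧
      q i * gr P (2 + X i) ≤ q₀ * C₁ * G * ((Tt : ℝ) / H (lab i)) ^ (a₁ / 8) := by
    intro i h1 h2
    have hHi0 : (0 : ℝ) < H (lab i) := by exact_mod_cast hm1.trans (hHm i h1 h2)
    obtain ⟨x, hx⟩ : ∃ x : ℝ, x = (Tt : ℝ) / H (lab i) := ⟨_, rfl⟩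
    have hx1 : 1 ≤ x := by
      rw [hx, le_div_iff₀ hHi0, one_mul]
      exact_mod_cast hHT i h1 h2
    have hx0 : 0 < x := by linarith
    have g1 := S.q1 i h1 h2
    have g2 : q i ≤ q₀ * x ^ (a₁ / 16) := by
      rw [← hx] at g1
      exact g1.trans (mul_le_mul_of_nonneg_left (Real.rpow_le_rpow_of_exponent_le hx1 hαα) hq₀)
    have g3 : gr P (2 + X i) ≤ G * (C₁ * x ^ (a₁ / 16)) := by
      rw [hG]
      refine (gr_mul P (X := 1 + Y) (Y := (2 + 2 * A) * x ^ (D + 1)) (by linarith) (by positivity) (by linarith [hX0 i]) ?_).trans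
        (mul_le_mul_of_nonneg_left (Hg x hx1) (gr_nonneg _ (by linarith)))
      simp only [hX]
      rw [← hx, hA']
      have k0 : 1 ≤ x ^ (D + 1) := one_le_pow₀ hx1
      have k1 : 0 ≤ A * x ^ (D + 1) := by positivity
      nlinarith [mul_nonneg hY (by linarith : (0 : ℝ) ≤ x ^ (D + 1))]
    refine ⟨mul_nonneg (S.q0 i h1 h2) (hg0 i), ?_⟩
    calc q i * gr P (2 + X i) ≤ (q₀ * x ^ (a₁ / 16)) * (G * (C₁ * x ^ (a₁ / 16))) := mul_le_mul g2 g3 (hg0 i) (by positivity)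
      _ = q₀ * C₁ * G * (x ^ (a₁ / 16) * x ^ (a₁ / 16)) := by ring
      _ = _ := by
        rw [← Real.rpow_add hx0, ← hx]
        congr 2
        ring
  refine ⟨fun i => q i * gr P (2 + X i), bs, ?_⟩
  have rr : ∀ u, j ≤ u → u < b → r u ≤ r (u + 1) := fun u h1 h2 => S.rle hθ (hj.trans h1) h2
  have hk0 : (0 : ℤ) ≤ r (j + 1) := (Int.natCast_nonneg k).trans hk2
  have rpos : ∀ u, j < u → u ≤ b → ((r u).toNat : ℤ) = r u := fun u h1 h2 =>
    Int.toNat_of_nonneg (hk0.trans (S.rmono hθ (by omega) (by omega) h2))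
  have cast1 : ∀ u, j ≤ u → u ≤ b → r u ≤ ((if u = j then k else (r u).toNat : ℕ) : ℤ) := by
    intro u h1 h2
    split_ifs with h3
    · rw [h3]; exact hk1
    · exact (rpos u (by omega) h2).ge
  have cast2 : ∀ u, j ≤ u → u < b → ((if u + 1 = j then k else (r (u + 1)).toNat : ℕ) : ℤ) = r (u + 1) := by
    intro u h1 h2
    rw [if_neg (by omega)]
    exact rpos (u + 1) (by omega) (by omega)
  refine ⟨fun u h1 h2 => (hq' u (hj.trans h1) h2).1, by linarith, ?_, fun u h1 h2 => S.H1 _ (S.labt u (hj.trans h1) h2),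
    fun u h1 h2 => hHT u (hj.trans h1) h2, fun u h1 h2 => ?_, fun u h1 h2 => ?_, fun u h1 h2 => ?_, fun u h1 h2 => ?_, fun u h1 h2 => ?_,
    fun u h1 h2 => (hbs u (hj.trans h1) h2).2.2.2, ?_, S.force⟩
  · rw [← S.Ht]
    exact S.H1 t le_rfl
  · show (r (u + 1) - r u).toNat ≤ H (lab u)
    have := S.lenH u (hj.trans h1) h2
    omega
  · show (if u = j then k else (r u).toNat) ≤ if u + 1 = j then k else (r (u + 1)).toNat
    have g1 := cast2 u h1 h2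
    have g2 : ((if u = j then k else (r u).toNat : ℕ) : ℤ) ≤ r (u + 1) := by
      split_ifs with h3
      · rw [h3]; exact hk2
      · rw [rpos u (by omega) h2.le]; exact rr u h1 h2
    have g3 := g2.trans g1.ge
    exact_mod_cast g3
  · show (bs u).1 ≤ _
    rw [(hbs u (hj.trans h1) h2).1]
    exact cast1 u h1 h2.le
  · show (((if u + 1 = j then k else (r (u + 1)).toNat : ℕ)) : ℤ) ≤ (bs u).1 + ((r (u + 1) - r u).toNat : ℕ)
    rw [(hbs u (hj.trans h1) h2).1, cast2 u h1 h2, Int.toNat_of_nonneg (by linarith [rr u h1 h2])]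
    linarith
  · show |lat16 μ s κ (bs u)| ≤ wd μ s (H (lab u))
    obtain ⟨-, g2, g3, -⟩ := hbs u (hj.trans h1) h2
    rw [abs_of_nonneg g2]
    have := hm₃ _ (hH3 u (hj.trans h1) h2)
    linarith
  · have key := HC2 (q₀ := q₀ * C₁ * G) (H := H) (lab := lab) (q := fun i => q i * gr P (2 + X i)) (i₀ := j) (i₁ := b) (t := t) (Tt := Tt)
      (c₀ := c₀) (by positivity) (fun v hv => ((le_max_left _ _).trans hmn).trans (S.H1 v hv))
      (fun v hv => (Nat.mul_le_mul_right _ hKK).trans (S.HK v hv)) (le_of_eq S.Ht) (fun i h1 h2 => S.labt i (hj.trans h1) h2)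
      (fun v => (card_le_card (filter_subset_filter _ (Ico_subset_Ico_left hj))).trans (S.cnt v))
      (fun i h1 h2 => hq' i (hj.trans h1) h2)
    refine key.trans (mul_le_mul_of_nonneg_right ?_ (EE_pos (μ := μ) (s := s) Tt).le)
    have g1 : (1 + q₀ * C₁ * G) ^ 2 ≤ C₁ ^ 2 * (1 + q₀) ^ 2 * G ^ 2 := by
      rw [← mul_pow, ← mul_pow]
      refine pow_le_pow_left₀ (by positivity) ?_ 2
      have k1 : 1 ≤ C₁ * G := one_le_mul_of_one_le_of_one_le hC₁ hG1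
      nlinarith
    have g2 : 0 ≤ C₂ * c₀ := by positivity
    rw [← hGG]
    calc C₂ * c₀ * (1 + q₀ * C₁ * G) ^ 2 ≤ C₂ * c₀ * (C₁ ^ 2 * (1 + q₀) ^ 2 * G ^ 2) := mul_le_mul_of_nonneg_left g1 g2
      _ = _ := by ring

/-- A piece seen from another line. -/
theorem Pc63.line {θ K ε α q₀ h A Y : ℝ} {P D j₁ K₀ n₁ : ℕ} {η : Env} {κ κ' : Pt} {r col : ℕ → ℤ} {H lab : ℕ → ℕ} {q : ℕ → ℝ}
    {a b t Tt c₀ : ℕ} (S : Pc63 μ s c θ K ε α P j₁ K₀ n₁ η κ r col H lab q a b t Tt c₀ q₀ A h D) (hK : 1 ≤ K₀) (hn : 1 ≤ n₁)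
    (hw : 0 ≤ wd μ s Tt) (hA : 1 ≤ A) (hY : |lat16 μ s κ κ'| ≤ Y * wd μ s Tt) :
    Pc63 μ s c θ K ε α P j₁ K₀ n₁ η κ' r col H lab q a b t Tt c₀ q₀ (A * (1 + Y)) h D := by
  have key : ∀ i, a ≤ i → i < b → ∀ b' : Pt, |lat16 μ s κ b'| ≤ A * ((Tt : ℝ) / H (lab i)) ^ D * wd μ s Tt →
      |lat16 μ s κ' b'| ≤ A * (1 + Y) * ((Tt : ℝ) / H (lab i)) ^ D * wd μ s Tt := by
    intro i h1 h2 b' hb'
    have hHi : (0 : ℝ) < H (lab i) := by exact_mod_cast hn.trans (S.H1 _ (S.labt i h1 h2))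
    have hHT : (H (lab i) : ℝ) ≤ Tt := by exact_mod_cast S.Hle hK (S.labt i h1 h2)
    have hx : 1 ≤ ((Tt : ℝ) / H (lab i)) ^ D := one_le_pow₀ (by rw [le_div_iff₀ hHi, one_mul]; exact hHT)
    have e : lat16 μ s κ' b' = lat16 μ s κ b' - lat16 μ s κ κ' := by
      unfold lat16
      push_cast
      ring
    rw [e]
    have g1 := abs_sub (lat16 μ s κ b') (lat16 μ s κ κ')
    have g2 : Y * wd μ s Tt ≤ A * Y * ((Tt : ℝ) / H (lab i)) ^ D * wd μ s Tt := by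
      have k0 : 0 ≤ Y * wd μ s Tt := (abs_nonneg _).trans hY
      have k1 : 1 ≤ A * ((Tt : ℝ) / H (lab i)) ^ D := one_le_mul_of_one_le_of_one_le hA hx
      calc Y * wd μ s Tt = 1 * (Y * wd μ s Tt) := (one_mul _).symm
        _ ≤ (A * ((Tt : ℝ) / H (lab i)) ^ D) * (Y * wd μ s Tt) := mul_le_mul_of_nonneg_right k1 k0
        _ = _ := by ring
    calc |lat16 μ s κ b' - lat16 μ s κ κ'| ≤ |lat16 μ s κ b'| + |lat16 μ s κ κ'| := g1
      _ ≤ A * ((Tt : ℝ) / H (lab i)) ^ D * wd μ s Tt + A * Y * ((Tt : ℝ) / H (lab i)) ^ D * wd μ s Tt := add_le_add hb' (hY.trans g2)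
      _ = _ := by ring
  exact { S with
    latb := fun i h1 h2 => key i h1 h2 _ (S.latb i h1 h2)
    latt := fun i h1 h2 => key i h1 h2 _ (S.latt i h1 h2) }

/-- **THE LOWER BOUND FROM EVERY START OF A PIECE** to the window of its top row around the line of the start, with the slabs from the
start on. -/
theorem pcl63 (h0 : In μ s c C n₀) : ∃ (α₀ : ℝ) (K₁ : ℕ), 0 < α₀ ∧ α₀ ≤ 1 ∧ 2 ≤ K₁ ∧ ∀ (P : ℕ) {K θ A₀ : ℝ}, 1 ≤ P → 0 ≤ A₀ →
    2 * A₀ + 12 ≤ K → 0 < θ → θ ≤ 1 / 2 → ∃ m₁ : ℕ, 1 ≤ m₁ ∧ ∀ j₁ : ℕ, m₁ ≤ 2 ^ j₁ → ∀ (D : ℕ) (A ε : ℝ), 1 ≤ A → 0 ≤ ε → ε ≤ α₀ →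
      ∃ (C₃ : ℝ) (m₂ : ℕ), 1 ≤ C₃ ∧ 1 ≤ m₂ ∧ ∀ {α q₀ h : ℝ} {K₀ n₁ M : ℕ} {η : Env} {p : ℕ → ℝ} {κ : Pt} {r col : ℕ → ℤ} {H lab : ℕ → ℕ}
        {q : ℕ → ℝ} {a b t Tt c₀ : ℕ}, 0 ≤ α → α ≤ α₀ → 0 ≤ q₀ → K₁ ≤ K₀ → m₂ ≤ n₁ → a < b → (∀ k, k < M → p k = Real.exp (s + h)) →
        (∀ k, M ≤ k → p k = Real.exp s) → Pc63 μ s c θ K ε α P j₁ K₀ n₁ η κ r col H lab q a b t Tt c₀ q₀ A h D →
        ∀ (k : ℕ) (x : ℤ), r a ≤ k → (k : ℝ) + θ * Tt ≤ ((r b : ℤ) : ℝ) → ∃ (j : ℕ) (q' : ℕ → ℝ) (bs : ℕ → Pt), a ≤ j ∧ j < b ∧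
            Slabs μ s c θ (K - 2) h P η κ (fun u => if u = j then k else (r u).toNat) (fun i => H (lab i))
              (fun i => (r (i + 1) - r i).toNat) q' bs j b Tt n₁ (C₃ * (1 + c₀) * (1 + q₀) ^ 2) ∧
            ∀ z : ℤ, |lat16 μ s κ (r b, z) - lat16 μ s κ ((k : ℤ), x)| ≤ A₀ * wd μ s Tt →
              Real.exp (-(C₃ * (1 + c₀) * (1 + q₀) ^ 2 * gr (2 * P) (1 + |lat16 μ s κ ((k : ℤ), x)| / wd μ s Tt) * EE μ s Tt)) ≤
                nk μ s h η p M k ((r b).toNat - k) x z := by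
  obtain ⟨α₁, K₁, m₁, hα₁, hα₁1, hK1, hm1, HS⟩ := slabs63 h0
  obtain ⟨a₁, ha₁, ha₁1, HL⟩ := lay_low63 h0
  refine ⟨min α₁ (a₁ / 8), K₁, lt_min hα₁ (by positivity), (min_le_left _ _).trans hα₁1, hK1, fun P K θ A₀ hP hA₀ hKA hθ hθ2 => ?_⟩
  obtain ⟨l₁, hl₁, HL2⟩ := HL P (K := K) (θ := θ) hP (by linarith) hθ hθ2
  obtain ⟨C₆, hC₆, l₂, hl₂, HF⟩ := far_low89 h0 P (θ := θ) (K := K - 2) (by linarith) hθ
  obtain ⟨C₇, hC₇, l₃, hl₃, H7⟩ := nk_low16 h0 P (K := K - 2) (θ := θ) (by linarith) hθ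
  refine ⟨l₁, hl₁, fun j₁ hj₁ D A ε hA hε hεα => ?_⟩
  obtain ⟨C₂, hC₂, HS2⟩ := HS P D A (by linarith)
  obtain ⟨C₉, hC₉, HL3⟩ := HL2 j₁ hj₁ D A ε (by linarith) hε (hεα.trans (min_le_right _ _))
  obtain ⟨l₄, hl₄⟩ := eventually_atTop.1 ((wd_tendsto h0).eventually_ge_atTop (2 ^ j₁ + 4))
  have hgr0 : 1 ≤ gr (2 * P) (1 + K) := gr_one_le _ (by linarith)
  have hgr1 : 1 ≤ gr (2 * P) (1 + 0) := gr_one_le _ (by norm_num)
  have hfq0 : 1 ≤ fq16 (2 * P) (A₀ + 2) := fq16_one _ _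
  obtain ⟨C₃, hC₃⟩ : ∃ C₃ : ℝ, C₃ = C₂ * gr (2 * P) (1 + 0) + C₉ + C₆ * C₂ * gr (2 * P) (1 + K) + C₇ * C₂ * fq16 (2 * P) (A₀ + 2) := ⟨_, rfl⟩
  have p0 : 1 ≤ C₂ * gr (2 * P) (1 + 0) := one_le_mul_of_one_le_of_one_le hC₂ hgr1
  have p1 : 0 < C₆ * C₂ * gr (2 * P) (1 + K) := by positivity
  have p2 : 0 < C₇ * C₂ * fq16 (2 * P) (A₀ + 2) := by positivity
  refine ⟨C₃, max (max m₁ l₁) (max l₂ (max l₃ l₄)), by linarith, hm1.trans ((le_max_left _ _).trans (le_max_left _ _)), ?_⟩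
  intro α q₀ h K₀ n₁ M η p κ r col H lab q a b t Tt c₀ hα hαα hq₀ hKK hmn hab hp hp' S₀ k x hk1 hk2
  have hn1 : m₁ ≤ n₁ := ((le_max_left _ _).trans (le_max_left _ _)).trans hmn
  have hn2 : l₁ ≤ n₁ := ((le_max_right _ _).trans (le_max_left _ _)).trans hmn
  have hn3 : l₂ ≤ n₁ := ((le_max_left _ _).trans (le_max_right _ _)).trans hmn
  have hn4 : l₃ ≤ n₁ := ((le_max_left _ _).trans ((le_max_right _ _).trans (le_max_right _ _))).trans hmn
  have hn5 : l₄ ≤ n₁ := ((le_max_right _ _).trans ((le_max_right _ _).trans (le_max_right _ _))).trans hmn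
  have hK01 : 1 ≤ K₀ := (show 1 ≤ 2 by norm_num).trans (hK1.trans hKK)
  have hTt : n₁ ≤ Tt := by rw [← S₀.Ht]; exact S₀.H1 t le_rfl
  have hTt0 : (0 : ℝ) < Tt := by exact_mod_cast hm1.trans (hn1.trans hTt)
  have hwT := hl₄ Tt (hn5.trans hTt)
  have hwj : (0 : ℝ) < 2 ^ j₁ := by positivity
  have hw0 : 0 < wd μ s Tt := by linarith
  have hEt := EE_pos (μ := μ) (s := s) Tt
  have hpp : ∀ k, 0 < p k := fun k => by
    rcases lt_or_ge k M with h1 | h1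
    · rw [hp k h1]; exact Real.exp_pos _
    · rw [hp' k h1]; exact Real.exp_pos _
  have hkb : (k : ℤ) < r b := by
    have h1 : (k : ℝ) < ((r b : ℤ) : ℝ) := by
      have : 0 < θ * Tt := by positivity
      linarith
    exact_mod_cast h1
  -- the piece seen from the start
  obtain ⟨Y, hYd⟩ : ∃ Y : ℝ, Y = |lat16 μ s κ ((k : ℤ), x)| / wd μ s Tt := ⟨_, rfl⟩
  have hY : 0 ≤ Y := by rw [hYd]; positivity
  obtain ⟨ks, hks⟩ : ∃ ks : Pt, ks = ((k : ℤ), x) := ⟨_, rfl⟩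
  have S : Pc63 μ s c θ K ε α P j₁ K₀ n₁ η ks r col H lab q a b t Tt c₀ q₀ (A * (1 + Y)) h D :=
    S₀.line hK01 (hm1.trans hn1) hw0.le hA (by rw [hks, hYd, div_mul_cancel₀ _ hw0.ne'])
  have hks0 : lat16 μ s ks ((k : ℤ), x) = 0 := by
    rw [hks]
    unfold lat16
    simp
  obtain ⟨j, hj1, hj2, hj3, hj4⟩ := S.cut hk1 hkb hab.le
  have hc0 : (0 : ℝ) ≤ c₀ := Nat.cast_nonneg _
  have hq20 : 1 ≤ (1 + q₀) ^ 2 := one_le_pow₀ (by linarith)
  obtain ⟨g, hg⟩ : ∃ g : ℝ, g = gr (2 * P) (1 + Y) := ⟨_, rfl⟩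
  have hg1 : 1 ≤ g := by rw [hg]; exact gr_one_le _ (by linarith)
  -- the slabs on the given line
  have S₁ : Pc63 μ s c θ K ε α P j₁ K₀ n₁ η κ r col H lab q a b t Tt c₀ q₀ (A * (1 + 0)) h D := by
    rw [add_zero, mul_one]
    exact S₀
  obtain ⟨q', bs, hsl⟩ := HS2 (by linarith) hθ.le hα (hαα.trans (min_le_left _ _)) hq₀ hKK hn1 le_rfl S₁ j k hj1 hj2 hj3 hj4.le
  have hCC : ∀ {Y : ℝ}, Y ≤ C₃ → Y * ((1 + c₀) * (1 + q₀) ^ 2) ≤ C₃ * (1 + c₀) * (1 + q₀) ^ 2 := fun {Y} hY => by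
    rw [mul_assoc C₃]
    exact mul_le_mul_of_nonneg_right hY (by positivity)
  have hQC3 : C₂ * c₀ * (1 + q₀) ^ 2 * gr (2 * P) (1 + 0) ≤ C₃ * (1 + c₀) * (1 + q₀) ^ 2 := by
    refine le_trans ?_ (hCC (Y := C₂ * gr (2 * P) (1 + 0)) (by rw [hC₃]; linarith))
    have k1 : 0 ≤ C₂ * gr (2 * P) (1 + 0) * (1 + q₀) ^ 2 := by positivity
    nlinarith
  refine ⟨j, q', bs, hj1, hj2, { hsl with cost := hsl.cost.trans (mul_le_mul_of_nonneg_right hQC3 hEt.le) }, fun z hz => ?_⟩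
  have hrb0 : ((r b).toNat : ℤ) = r b := Int.toNat_of_nonneg ((Int.natCast_nonneg k).trans hkb.le)
  have hz' : |lat16 μ s ks (r b, z)| ≤ A₀ * wd μ s Tt := by
    have e : lat16 μ s ks (r b, z) = lat16 μ s κ (r b, z) - lat16 μ s κ ((k : ℤ), x) := by
      rw [hks]
      unfold lat16
      push_cast
      ring
    rw [e]
    exact hz
  rw [← hYd, ← hg]
  obtain ⟨Q, hQ⟩ : ∃ Q : ℝ, Q = C₂ * c₀ * (1 + q₀) ^ 2 * g := ⟨_, rfl⟩
  have hQ0 : 0 ≤ Q := by rw [hQ]; positivity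
  have hQC : Q ≤ C₂ * ((1 + c₀) * (1 + q₀) ^ 2 * g) := by
    rw [hQ]
    have k1 : 0 ≤ C₂ * (1 + q₀) ^ 2 * g := by positivity
    nlinarith
  have hCg : ∀ {Y : ℝ}, Y ≤ C₃ → Y * ((1 + c₀) * (1 + q₀) ^ 2 * g) ≤ C₃ * (1 + c₀) * (1 + q₀) ^ 2 * g := fun {Y} hY => by
    have := mul_le_mul_of_nonneg_right hY (show 0 ≤ (1 + (c₀ : ℝ)) * (1 + q₀) ^ 2 * g by positivity)
    linarith
  rcases Nat.lt_or_ge (j + 1) b with hjb | hjb
  · -- at least one full layer above the start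
    obtain ⟨e, he⟩ : ∃ e : ℕ, e = (r (j + 1)).toNat := ⟨_, rfl⟩
    have hrj0 : (0 : ℤ) ≤ r (j + 1) := (Int.natCast_nonneg k).trans hj4.le
    have he' : (e : ℤ) = r (j + 1) := by rw [he]; exact Int.toNat_of_nonneg hrj0
    have hke : k ≤ e := by
      have : (k : ℤ) ≤ e := by rw [he']; exact hj4.le
      exact_mod_cast this
    have hrr := S.rle hθ.le hj1 hj2
    have hNcast : (((r (j + 1) - r j).toNat : ℕ) : ℤ) = r (j + 1) - r j := Int.toNat_of_nonneg (by linarith)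
    have hHj := S.Hle hK01 (S.labt j hj1 hj2)
    have hH1j := S.H1 _ (S.labt j hj1 hj2)
    have hΛ1 : 1 ≤ (Tt : ℝ) / H (lab j) := by
      rw [le_div_iff₀ (by exact_mod_cast hm1.trans (hn1.trans hH1j)), one_mul]
      exact_mod_cast hHj
    obtain ⟨y, hy1, hy2⟩ := HL3 (q₀ := q₀) (q := q j) (h := h) (Y := Y) (η := η) (p := p) (M := M) (H := H (lab j)) (Tt := Tt)
      (N := (r (j + 1) - r j).toNat) (κ := ks) (b := (r j, col j)) (b' := (r (j + 1), col (j + 1))) hY hq₀ (S.q0 j hj1 hj2)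
      ((S.q1 j hj1 hj2).trans (mul_le_mul_of_nonneg_left
        (Real.rpow_le_rpow_of_exponent_le hΛ1 (hαα.trans (min_le_right _ _))) hq₀))
      (hn2.trans hH1j) hHj (by
        have := S.lenH j hj1 hj2
        omega) (by
        have g1 := S.len j hj1 hj2
        have g2 : (((r (j + 1) - r j).toNat : ℕ) : ℝ) = ((r (j + 1) - r j : ℤ) : ℝ) := by
          rw [← hNcast]
          push_cast
          rfl
        rw [g2]
        exact g1) (by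
        show r (j + 1) = r j + _
        rw [hNcast]
        ring) (S.far j hj1 hj2) (S.tp j hj1 hj2) S.force hp hp' (S.latb j hj1 hj2) (S.latt j hj1 hj2) k e x hj3 hke he' (by
        rw [hks0, abs_zero]
        positivity)
    rw [hks0, sub_zero] at hy1
    rw [← hg] at hy2
    -- the slabs above
    obtain ⟨q'', bs'', hsl2⟩ := HS2 (by linarith) hθ.le hα (hαα.trans (min_le_left _ _)) hq₀ hKK hn1 hY S (j + 1) e (by omega) hjb he'.ge
      (by rw [he']; exact S.rle hθ.le (by omega) hjb)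
    rw [← hg, ← hQ] at hsl2
    have hsl3 : Slabs μ s c θ (K - 2) h P η ks (fun u => if u = j + 1 then e else (r u).toNat) (fun i => H (lab i))
        (fun i => (r (i + 1) - r i).toNat) q'' bs'' (j + 1) b Tt l₂ Q :=
      { hsl2 with
        Tt1 := hn3.trans hsl2.Tt1
        T1 := fun u hu hub => hn3.trans (hsl2.T1 u hu hub) }
    obtain ⟨ρ, hρ⟩ : ∃ ρ : ℝ, ρ = lat16 μ s ks ((e : ℤ), y) := ⟨_, rfl⟩
    have hρ1 : |ρ| ≤ 1 * wd μ s Tt := by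
      rw [← hρ] at hy1
      linarith
    have hbj : (if b = j + 1 then e else (r b).toNat) = (r b).toNat := if_neg (by omega)
    have key := HF (h := h) (Q := Q) (η := η) (p := p) (M := M) hjb hp hp' hsl3 (fun u h1 h2 => by
      have g1 := S.len u (by omega) h2
      have g2 : r (u + 1) - r u ≤ (((if u + 1 = j + 1 then e else (r (u + 1)).toNat) - (if u = j + 1 then e else (r u).toNat) : ℕ) : ℤ) := by
        have k1 := S.rmono hθ.le (i := j + 1) (i' := u + 1) (by omega) (by omega) (by omega)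
        have k2 := S.rmono hθ.le (i := j + 1) (i' := u) (by omega) h1 h2.le
        have k3 := S.rle hθ.le (i := u) (by omega) h2
        rw [if_neg (by omega)]
        split_ifs with h3
        · rw [h3] at k3 ⊢
          omega
        · omega
      have g3 : ((r (u + 1) - r u : ℤ) : ℝ) ≤ (((if u + 1 = j + 1 then e else (r (u + 1)).toNat) - (if u = j + 1 then e else (r u).toNat) : ℕ) : ℝ) := by
        exact_mod_cast g2
      have g4 : 0 ≤ θ * H (lab u) := by positivity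
      show θ * (H (lab u) : ℝ) ≤ _
      linarith) ρ y z (by
        show |lat16 μ s ks (((if j + 1 = j + 1 then e else (r (j + 1)).toNat : ℕ) : ℤ), y) - ρ| ≤ _
        rw [if_pos rfl, hρ, sub_self, abs_zero]
        have g1 := hl₄ (H (lab (j + 1))) (hn5.trans (S.H1 _ (S.labt (j + 1) (by omega) hjb)))
        show 0 ≤ (K - 2 - 2) / 2 * wd μ s (H (lab (j + 1))) - 1
        nlinarith) (by
        show |lat16 μ s ks (((if b = j + 1 then e else (r b).toNat : ℕ) : ℤ), z) - ρ| ≤ (K - 2 - 2) / 2 * wd μ s (H (lab (b - 1))) - 1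
        rw [hbj, hrb0, S.top, S.Ht]
        have g1 := abs_sub (lat16 μ s ks (r b, z)) ρ
        nlinarith)
    simp only [if_pos, hbj] at key
    have hcomp := nk_comp63 (μ := μ) (s := s) (h := h) (η := η) (p := p) (M := M) hpp k (e - k) ((r b).toNat - e) x y z
    have heb : e ≤ (r b).toNat := by
      have := S.rmono hθ.le (i := j + 1) (i' := b) (by omega) (by omega) le_rfl
      omega
    rw [show k + (e - k) = e by omega, show e - k + ((r b).toNat - e) = (r b).toNat - k by omega] at hcomp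
    refine le_trans ?_ hcomp
    refine le_trans ?_ (mul_le_mul hy2 key (Real.exp_pos _).le (nk_nonneg hpp _ _ _ _))
    rw [← Real.exp_add]
    refine Real.exp_le_exp.2 ?_
    have g1 : gr (2 * P) (|ρ| / wd μ s Tt + (K - 2)) ≤ gr (2 * P) (1 + K) := by
      refine gr_mono _ (add_nonneg (by positivity) (by linarith)) ?_
      have : |ρ| / wd μ s Tt ≤ 1 := by
        rw [div_le_iff₀ hw0]
        exact hρ1
      linarith
    have g2 : C₆ * Q * gr (2 * P) (|ρ| / wd μ s Tt + (K - 2)) ≤ C₆ * C₂ * gr (2 * P) (1 + K) * ((1 + c₀) * (1 + q₀) ^ 2 * g) := by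
      calc C₆ * Q * gr (2 * P) (|ρ| / wd μ s Tt + (K - 2)) ≤ C₆ * (C₂ * ((1 + c₀) * (1 + q₀) ^ 2 * g)) * gr (2 * P) (1 + K) :=
            mul_le_mul (mul_le_mul_of_nonneg_left hQC hC₆.le) g1 (gr_nonneg _ (add_nonneg (by positivity) (by linarith))) (by positivity)
        _ = _ := by ring
    have g3 : C₉ * (1 + q₀) ^ 2 * g ≤ C₉ * ((1 + c₀) * (1 + q₀) ^ 2 * g) := by
      have k1 : 0 ≤ C₉ * (1 + q₀) ^ 2 * g := by positivity
      nlinarith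
    have g4 : C₉ * (1 + q₀) ^ 2 * g + C₆ * Q * gr (2 * P) (|ρ| / wd μ s Tt + (K - 2)) ≤ C₃ * (1 + c₀) * (1 + q₀) ^ 2 * g := by
      refine (add_le_add g3 g2).trans ?_
      rw [← add_mul]
      refine hCg ?_
      rw [hC₃]
      linarith
    have g5 := mul_le_mul_of_nonneg_right g4 hEt.le
    linarith
  · -- the start is in the last layer
    have hjb1 : b = j + 1 := by omega
    have hlj : lab j = t := by
      have := S.top
      rwa [hjb1, Nat.add_sub_cancel] at this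
    have hHj : H (lab j) = Tt := by rw [hlj]; exact S.Ht
    obtain ⟨q'', bs'', hsl2⟩ := HS2 (by linarith) hθ.le hα (hαα.trans (min_le_left _ _)) hq₀ hKK hn1 hY S j k hj1 hj2 hj3 hj4.le
    rw [← hg, ← hQ] at hsl2
    have hfar := hsl2.far j le_rfl hj2
    have hb1 := hsl2.b1 j le_rfl hj2
    have hb2 := hsl2.b2 j le_rfl hj2
    have hb3 := hsl2.b3 j le_rfl hj2
    have hNT := hsl2.NT j le_rfl hj2
    simp only [if_pos, hHj] at hfar hb1 hb3 hNT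
    have hne : ¬ j + 1 = j := by omega
    simp only [hne, if_false] at hb2
    rw [hjb1] at hk2 hz' ⊢
    rw [hjb1] at hrb0
    have hlen : θ * Tt ≤ (((r (j + 1)).toNat - k : ℕ) : ℝ) := by
      have g1 : ((r (j + 1)) : ℝ) - k ≤ (((r (j + 1)).toNat - k : ℕ) : ℝ) := by
        have g2 : r (j + 1) - (k : ℤ) ≤ (((r (j + 1)).toNat - k : ℕ) : ℤ) := by omega
        exact_mod_cast g2
      linarith
    have key := H7 (q := q'' j) (h := h) (R := A₀) (n := Tt) (N₁ := (r (j + 1) - r j).toNat) (M := M) (b := bs'' j) (κ := ks) (η := η) (p := p)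
      (hn4.trans hTt) hNT (hsl2.q0 j le_rfl hj2) hfar (force63 h0 (hm1.trans (hn1.trans hTt)) le_rfl S.force) hp hp' hA₀
      (by linarith) hb3 k (r (j + 1)).toNat x z hb1 (by omega) hb2 hlen (by rw [hks0, abs_zero]; positivity) (by rw [hrb0]; exact hz')
    refine le_trans (Real.exp_le_exp.2 (neg_le_neg ?_)) key
    -- the level of the last layer, from the cost
    have hcost := hsl2.cost
    have hterm : (1 + q'' j) ^ 2 * gr (2 * P) (2 * wd μ s Tt / wd μ s (H (lab j))) * EE μ s (H (lab j)) ≤ Q * EE μ s Tt := by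
      refine le_trans ?_ hcost
      refine single_le_sum (f := fun u => (1 + q'' u) ^ 2 * gr (2 * P) (2 * wd μ s Tt / wd μ s (H (lab u))) * EE μ s (H (lab u)))
        (fun u hu => ?_) (mem_Ico.2 ⟨le_rfl, hj2⟩)
      have g1 : 0 ≤ gr (2 * P) (2 * wd μ s Tt / wd μ s (H (lab u))) := gr_nonneg _ (div_nonneg (by linarith) (h0.wd_nonneg _))
      have g2 := EE_pos (μ := μ) (s := s) (H (lab u))
      positivity
    rw [hHj] at hterm
    have g1 : 1 ≤ gr (2 * P) (2 * wd μ s Tt / wd μ s Tt) := gr_one_le _ (by positivity)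
    have g2 : (1 + q'' j) ^ 2 ≤ Q := by
      have g3 : (1 + q'' j) ^ 2 * 1 ≤ (1 + q'' j) ^ 2 * gr (2 * P) (2 * wd μ s Tt / wd μ s Tt) := mul_le_mul_of_nonneg_left g1 (sq_nonneg _)
      rw [mul_one] at g3
      exact g3.trans (le_of_mul_le_mul_right hterm hEt)
    refine mul_le_mul_of_nonneg_right ?_ hEt.le
    calc C₇ * (1 + q'' j) ^ 2 * fq16 (2 * P) (A₀ + 2) ≤ C₇ * (C₂ * ((1 + c₀) * (1 + q₀) ^ 2 * g)) * fq16 (2 * P) (A₀ + 2) :=
          mul_le_mul_of_nonneg_right (mul_le_mul_of_nonneg_left (g2.trans hQC) hC₇.le) (by linarith)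
      _ = C₇ * C₂ * fq16 (2 * P) (A₀ + 2) * ((1 + c₀) * (1 + q₀) ^ 2 * g) := by ring
      _ ≤ _ := hCg (by rw [hC₃]; linarith)

end

end Pool.Agent.W_7d29a1_C1.PcS63
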