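import Pool.Agent.W_7d29a1_C1.CanL6
import Pool.Agent.W_7d29a1_C1.PcS63
import Pool.Agent.W_7d29a1_C1.GeoE37

/-!
MP_7d29a1_pr, the attractor route [C1], TAME: THE LAYERS OF AN OWN SLAB ARE A PIECE OF LAYERS. (helper65)

From `OwnL` (helper2) and `Ok6` with the canonical depths (helper6): the layers between `lb (u - 1) ρ` and `ct u ρ` (lower clean cuts, block,
clean cuts; all the labels are at most `u`) are a `Pc63` (helper63): **`pcD65`**. The positions of the cuts: `scale65`, `lat65`. The rows of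
the starts: `row_lo65`, `row_hi65`.
-/

set_option autoImplicit false

namespace Pool.Agent.W_7d29a1_C1.PcD65

open MeasureTheory ProbabilityTheory Finset
open Pool.Agent.W_7d29a1_F Pool.Agent.W_7d29a1_h4g Pool.Agent.W_7d29a1_H Pool.Agent.W_7d29a1_HS
open Pool.Agent.W_7d29a1_C1.H75 Pool.Agent.W_7d29a1_C1.U16 Pool.Agent.W_7d29a1_C1.H40 Pool.Agent.W_7d29a1_C1.S71
open Pool.Agent.W_7d29a1_C1.Dep6 Pool.Agent.W_7d29a1_C1.TpF63 Pool.Agent.W_7d29a1_C1.PcS63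
open Pool.Agent.W_7d29a1_C1.G37 (Gm)

noncomputable section

variable {μ : Measure ℝ} {s c C : ℝ} {n₀ : ℕ} {G : Gm}

/-! ### The units -/

theorem T_add65 (G : Gm) (v j : ℕ) : G.T (v + j) = G.K ^ j * G.T v := by
  show G.T0 * G.K ^ (v + j) = G.K ^ j * (G.T0 * G.K ^ v)
  rw [pow_add]
  ring

theorem K_pos65 (G : Gm) : (0 : ℝ) < G.K := by
  have := G.hK
  exact_mod_cast (show 0 < G.K by omega)

theorem K_one65 (G : Gm) : (1 : ℝ) ≤ G.K := by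
  have := G.hK
  exact_mod_cast (show 1 ≤ G.K by omega)

theorem Hs_add65 (G : Gm) (v j : ℕ) : HsC6 G (v + j) = G.K ^ j * HsC6 G v := by
  unfold HsC6
  rw [T_add65]
  ring

theorem Hs_ratio65 (G : Gm) {v u : ℕ} (h : v ≤ u) : (HsC6 G u : ℝ) / HsC6 G v = (G.K : ℝ) ^ (u - v) := by
  have h1 : (0 : ℝ) < HsC6 G v := by exact_mod_cast HsC6_pos v
  have h2 := Hs_add65 G v (u - v)
  rw [show v + (u - v) = u by omega] at h2
  rw [div_eq_iff h1.ne', h2]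
  push_cast
  ring

/-- The widths of the scales grow at most like the scales. -/
theorem w_add65 [IsProbabilityMeasure μ] (h0 : In μ s c C n₀) (hw : ∀ v, G.w v = wd μ s (G.T v)) (v j : ℕ) :
    G.w (v + j) ≤ 2 * (G.K : ℝ) ^ j * G.w v := by
  have h1 : (0 : ℝ) < G.T v := by exact_mod_cast G.T_pos v
  have h2 := wd_lower_one h0 (G.T_pos v) (G.T_mono (show v ≤ v + j by omega))
  rw [hw, hw]
  have h3 : (G.T (v + j) : ℝ) = (G.K : ℝ) ^ j * G.T v := by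
    rw [T_add65]
    push_cast
    ring
  rw [h3] at h2
  refine le_of_mul_le_mul_left (h2.trans (le_of_eq ?_)) h1
  ring

/-- The width of a scale and the width of its height. -/
theorem w_Hs65 [IsProbabilityMeasure μ] (h0 : In μ s c C n₀) (hw : ∀ v, G.w v = wd μ s (G.T v)) (u : ℕ) :
    G.w u ≤ 2 * wd μ s (HsC6 G u) := by
  rw [hw]
  refine Pool.Agent.W_7d29a1_HS.wd_le_two h0 (G.T_pos u) ?_
  have := le_HsC6 (G := G) u
  omega

/-! ### The positions -/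

variable {F : Finset (ℕ × ℤ)} {mt : ℕ} {W : Set {c // c ∈ F}} {C0 : ℝ} {C2 D : ℕ} {Z : List (Cut (ℤ × ℤ))} {ρ : {c // c ∈ F}} {u : ℕ}
  {cs : ℕ → Cut (ℤ × ℤ)} {v0 v1 v2 iL iC iT : ℕ}

/-- **Where a cut of the piece is**: a lower clean cut, a cut of the block, a clean cut. -/
theorem cases65 (hO : OwnL (G.geoJ F mt W) (fun x => G.lat x.1) G.latC G.w C0 C2 D Z ρ u cs v0 v1 v2 iL iC iT) (hC2 : 1 ≤ C2) {i : ℕ}
    (h1 : iL + (v2 - (u - 1)) ≤ i) (h2 : i ≤ iC + (u - v0)) :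
    (∃ v, v0 ≤ v ∧ v ≤ u - 1 ∧ i = iL + (v2 - v) ∧ cs i = (G.geoJ F mt W).lb v ρ) ∨ (iL + (v2 - v0) < i ∧ i < iC) ∨
      (∃ v, v0 ≤ v ∧ v ≤ u ∧ i = iC + (v - v0) ∧ cs i = (G.geoJ F mt W).ct v ρ) := by
  have a1 := hO.v0u
  have a2 := hO.uv1
  have a3 := hO.uv2
  have a4 := hO.iLC
  rcases Nat.lt_or_ge (iL + (v2 - v0)) i with h3 | h3
  · rcases Nat.lt_or_ge i iC with h4 | h4
    · exact Or.inr (Or.inl ⟨h3, h4⟩)
    · refine Or.inr (Or.inr ⟨v0 + (i - iC), by omega, by omega, by omega, ?_⟩)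
      have h5 := hO.clct (v0 + (i - iC)) (by omega) (by omega)
      rwa [show iC + (v0 + (i - iC) - v0) = i by omega] at h5
  · refine Or.inl ⟨v2 - (i - iL), by omega, by omega, by omega, ?_⟩
    have h5 := hO.lo (v2 - (i - iL)) (by omega) (by omega)
    rwa [show iL + (v2 - (v2 - (i - iL))) = i by omega] at h5

/-- **The scales of the cuts of the piece.** -/
theorem scale65 (hO : OwnL (G.geoJ F mt W) (fun x => G.lat x.1) G.latC G.w C0 C2 D Z ρ u cs v0 v1 v2 iL iC iT) (hC2 : 1 ≤ C2) {i : ℕ}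
    (h1 : iL + (v2 - (u - 1)) ≤ i) (h2 : i ≤ iC + (u - v0)) : (cs i).sc ≤ u := by
  have a1 := hO.v0u
  rcases cases65 hO hC2 h1 h2 with ⟨v, h3, h4, -, h6⟩ | ⟨h3, h4⟩ | ⟨v, h3, h4, -, h6⟩
  · rw [h6]
    show v ≤ u
    omega
  · have := (hO.bo i h3 h4).1
    omega
  · rw [h6]
    exact h4

/-- The label of a layer next to a cut of the block. -/
theorem lab_bo65 (hO : OwnL (G.geoJ F mt W) (fun x => G.lat x.1) G.latC G.w C0 C2 D Z ρ u cs v0 v1 v2 iL iC iT) {i : ℕ}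
    (h1 : iL + (v2 - v0) ≤ i) (h2 : i ≤ iC) : (cs i).sc ≤ v0 := by
  have a1 := hO.v0u
  have a2 := hO.uv1
  have a3 := hO.uv2
  rcases eq_or_lt_of_le h1 with h3 | h3
  · rw [← h3, hO.lo v0 le_rfl (by omega)]
    exact le_rfl
  · rcases eq_or_lt_of_le h2 with h4 | h4
    · have := hO.clsc v0 le_rfl (by omega)
      rw [show iC + (v0 - v0) = iC by omega] at this
      rw [h4]
      omega
    · exact (hO.bo i h3 h4).1

/-- The centre of the cell of a cut over `ρ`. -/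
theorem lat_lb65 (v : ℕ) (hv : v ≤ u) : |G.latC ((G.geoJ F mt W).lb v ρ) - G.lat ρ.1| ≤ G.w u :=
  (G.lat_ctr_le v ρ.1).trans (G.w_mono hv)

theorem lat_ct65 (v : ℕ) (hv : v ≤ u) : |G.latC ((G.geoJ F mt W).ct v ρ) - G.lat ρ.1| ≤ G.w u :=
  (G.lat_ctr_le v ρ.1).trans (G.w_mono hv)

/-- **The lateral positions**: near `ρ`, or in the block. -/
theorem lat65 (hO : OwnL (G.geoJ F mt W) (fun x => G.lat x.1) G.latC G.w C0 C2 D Z ρ u cs v0 v1 v2 iL iC iT) (hC2 : 1 ≤ C2) {i : ℕ}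
    (h1 : iL + (v2 - (u - 1)) ≤ i) (h2 : i ≤ iC + (u - v0)) : |G.latC (cs i) - G.lat ρ.1| ≤ G.w u ∨
      (iL + (v2 - v0) < i ∧ i < iC ∧ |G.latC (cs i) - G.lat ρ.1| ≤ C0 * G.w (v0 + D * (u - v0))) := by
  rcases cases65 hO hC2 h1 h2 with ⟨v, h3, h4, -, h6⟩ | ⟨h3, h4⟩ | ⟨v, h3, h4, -, h6⟩
  · left
    rw [h6]
    exact lat_lb65 v (by omega)
  · exact Or.inr ⟨h3, h4, (hO.bo i h3 h4).2⟩
  · left
    rw [h6]
    exact lat_ct65 v h4

/-- The width in the block. -/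
theorem wbo65 [IsProbabilityMeasure μ] (h0 : In μ s c C n₀) (hw : ∀ v, G.w v = wd μ s (G.T v)) (hC0 : C0 ≤ (G.K : ℝ) ^ C2)
    (hvu : v0 + C2 ≤ u) : C0 * G.w (v0 + D * (u - v0)) ≤ 2 * (G.K : ℝ) ^ ((u - v0) * (D + 1)) * G.w u := by
  have hK1 := K_one65 G
  have hwu := G.w_pos u
  have hC0' : C0 ≤ (G.K : ℝ) ^ (u - v0) := hC0.trans (pow_le_pow_right₀ hK1 (by omega))
  have hw0 := G.w_pos (v0 + D * (u - v0))
  have h1 : G.w (v0 + D * (u - v0)) ≤ 2 * (G.K : ℝ) ^ (D * (u - v0)) * G.w u :=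
    (G.w_mono (show v0 + D * (u - v0) ≤ u + D * (u - v0) by omega)).trans (w_add65 h0 hw u (D * (u - v0)))
  have h2 : C0 * G.w (v0 + D * (u - v0)) ≤ (G.K : ℝ) ^ (u - v0) * (2 * (G.K : ℝ) ^ (D * (u - v0)) * G.w u) :=
    mul_le_mul hC0' h1 hw0.le (by positivity)
  refine h2.trans (le_of_eq ?_)
  rw [mul_add, mul_one, pow_add, mul_comm (u - v0) D]
  ring

/-- **The lateral positions, from the line of `κ`**, in the widths of the height of `u`. -/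
theorem line65 [IsProbabilityMeasure μ] (h0 : In μ s c C n₀) (hw : ∀ v, G.w v = wd μ s (G.T v))
    (hO : OwnL (G.geoJ F mt W) (fun x => G.lat x.1) G.latC G.w C0 C2 D Z ρ u cs v0 v1 v2 iL iC iT) (hC2 : 1 ≤ C2)
    (hC0 : C0 ≤ (G.K : ℝ) ^ C2) {κ : Pt} (hκ : |((κ.2 : ℝ) - sl μ s * (κ.1 : ℝ)) - G.ctr u (G.loc u ρ.1)| ≤ G.w u) {i v : ℕ}
    (h1 : iL + (v2 - (u - 1)) ≤ i) (h2 : i ≤ iC + (u - v0)) (hv : v ≤ u) (hbo : iL + (v2 - v0) < i → i < iC → v ≤ v0) {D' : ℕ}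
    (hD : D + 1 ≤ D') :
    |lat16 μ s κ ((cs i).row, colG6 μ s G (cs i))| ≤ 8 * ((HsC6 G u : ℝ) / HsC6 G v) ^ D' * wd μ s (HsC6 G u) := by
  have hK1 := K_one65 G
  have hwu := G.w_pos u
  have hW := w_Hs65 h0 hw u
  have hW1 : 1 ≤ wd μ s (HsC6 G u) := by
    have g1 := wd_ge_one h0 (HsC6_pos (G := G) u)
    have g2 := one_le_EE (μ := μ) (s := s) (HsC6 G u)
    linarith
  rw [Hs_ratio65 G hv]
  -- the centre
  have hx : |G.lat ρ.1 - ((κ.2 : ℝ) - sl μ s * (κ.1 : ℝ))| ≤ 3 / 2 * G.w u := by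
    have g1 := G.lat_ctr u ρ.1
    have g2 := G.g_le u
    have e : G.lat ρ.1 - ((κ.2 : ℝ) - sl μ s * (κ.1 : ℝ)) = (G.lat ρ.1 - G.ctr u (G.loc u ρ.1)) +
        -(((κ.2 : ℝ) - sl μ s * (κ.1 : ℝ)) - G.ctr u (G.loc u ρ.1)) := by ring
    rw [e]
    refine (abs_add_le _ _).trans ?_
    rw [abs_neg]
    linarith
  have key : ∀ B : ℝ, |G.latC (cs i) - G.lat ρ.1| ≤ B →
      |lat16 μ s κ ((cs i).row, colG6 μ s G (cs i))| ≤ B + 3 / 2 * G.w u + 1 := by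
    intro B hB
    refine colC6_line (μ := μ) (s := s) (x := (κ.2 : ℝ) - sl μ s * (κ.1 : ℝ)) rfl (cs i) ?_
    have e : G.latC (cs i) - ((κ.2 : ℝ) - sl μ s * (κ.1 : ℝ)) = (G.latC (cs i) - G.lat ρ.1) +
        (G.lat ρ.1 - ((κ.2 : ℝ) - sl μ s * (κ.1 : ℝ))) := by ring
    rw [e]
    exact (abs_add_le _ _).trans (add_le_add hB hx)
  have hp1 : 1 ≤ ((G.K : ℝ) ^ (u - v)) ^ D' := one_le_pow₀ (one_le_pow₀ hK1)
  rcases lat65 hO hC2 h1 h2 with h3 | ⟨h3, h4, h5⟩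
  · have h6 := key _ h3
    have h7 : 8 * 1 * wd μ s (HsC6 G u) ≤ 8 * ((G.K : ℝ) ^ (u - v)) ^ D' * wd μ s (HsC6 G u) :=
      mul_le_mul_of_nonneg_right (mul_le_mul_of_nonneg_left hp1 (by norm_num)) (by linarith)
    linarith
  · have h6 := key _ (h5.trans (wbo65 h0 hw hC0 hO.v0u))
    have hv0 := hbo h3 h4
    have h7 : (G.K : ℝ) ^ ((u - v0) * (D + 1)) ≤ ((G.K : ℝ) ^ (u - v)) ^ D' := by
      rw [← pow_mul]
      exact pow_le_pow_right₀ hK1 (Nat.mul_le_mul (by omega) hD)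
    have h8 : 2 * (G.K : ℝ) ^ ((u - v0) * (D + 1)) * G.w u ≤ 2 * ((G.K : ℝ) ^ (u - v)) ^ D' * (2 * wd μ s (HsC6 G u)) :=
      mul_le_mul (mul_le_mul_of_nonneg_left h7 (by norm_num)) hW hwu.le (by positivity)
    have h9 : 1 * wd μ s (HsC6 G u) ≤ ((G.K : ℝ) ^ (u - v)) ^ D' * wd μ s (HsC6 G u) := mul_le_mul_of_nonneg_right hp1 (by linarith)
    linarith

/-! ### The count -/

/-- At most six layers of each label. -/
theorem cnt65 {len : ℕ} (hc : ∀ v, ((range len).filter fun i => (cs i).sc = v).card ≤ 3) {a b : ℕ} (hb : b < len) (v : ℕ) :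
    ((Ico a b).filter fun i => lb6 (cs i) (cs (i + 1)) = v).card ≤ 6 := by
  have h1 : ((Ico a b).filter fun i => lb6 (cs i) (cs (i + 1)) = v) ⊆
      ((range len).filter fun i => (cs i).sc = v) ∪ (((range len).filter fun i => (cs i).sc = v).image fun i => i - 1) := by
    intro i hi
    obtain ⟨h2, h3⟩ := mem_filter.1 hi
    obtain ⟨h4, h5⟩ := mem_Ico.1 h2
    unfold lb6 at h3
    rcases le_total (cs i).sc (cs (i + 1)).sc with h6 | h6
    · rw [max_eq_right h6] at h3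
      refine mem_union_right _ (mem_image.2 ⟨i + 1, mem_filter.2 ⟨mem_range.2 (by omega), h3⟩, by omega⟩)
    · rw [max_eq_left h6] at h3
      exact mem_union_left _ (mem_filter.2 ⟨mem_range.2 (by omega), h3⟩)
  refine (card_le_card h1).trans ((card_union_le _ _).trans ?_)
  have h2 := hc v
  have h3 := card_image_le (s := (range len).filter fun i => (cs i).sc = v) (f := fun i => i - 1)
  omega

/-! ### The piece -/

/-- **THE LAYERS FROM `lb (u - 1) ρ` TO `ct u ρ` ARE A PIECE.** -/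
theorem pcD65 [IsProbabilityMeasure μ] (h0 : In μ s c C n₀) {T : Tc6} {A a g A' a' g' : ℝ} (hT : Tg6 μ s c G T A a g A' a' g')
    (hw : ∀ v, G.w v = wd μ s (G.T v)) {E : Cut (ℤ × ℤ) → Cut (ℤ × ℤ) → Set Env}
    {E3 : Cut (ℤ × ℤ) → Cut (ℤ × ℤ) → Cut (ℤ × ℤ) → Set Env} {Dd : ℕ} {Sw : Finset ℤ} {η : Env}
    (hO : OwnL (G.geoJ F mt W) (fun x => G.lat x.1) G.latC G.w C0 C2 D Z ρ u cs v0 v1 v2 iL iC iT)
    (ho : Ok6 Sw (dLC6 μ s c G T E Dd) (dNC6 μ s c G T E3 Dd) lb6 lbN6 Z u η) (hC2 : 1 ≤ C2) (hC0 : C0 ≤ (G.K : ℝ) ^ C2) (hDd : u < Dd)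
    (hθ0 : 0 ≤ T.θ) (hθ : 64 * (G.K : ℝ) ^ 2 * T.θ ≤ 1) {α : ℝ} (hα : T.Th ≤ (G.K : ℝ) ^ α) {K₀ n₁ : ℕ} (hn1 : n₁ ≤ G.T0)
    (hK0 : K₀ ≤ G.K) {κ : Pt} (hκ : |((κ.2 : ℝ) - sl μ s * (κ.1 : ℝ)) - G.ctr u (G.loc u ρ.1)| ≤ G.w u) {D' : ℕ} (hD : D + 1 ≤ D')
    {h : ℝ} (hh : |h| * wd μ s (HsC6 G u) ≤ c / 8 * EE μ s (HsC6 G u)) :
    Pc63 μ s c T.θ T.K T.e α T.P T.j₁ K₀ n₁ η κ (fun i => (cs i).row) (fun i => colG6 μ s G (cs i)) (HsC6 G)
      (fun i => lb6 (cs i) (cs (i + 1))) (fun i => T.q₀ * T.Th ^ (u - lb6 (cs i) (cs (i + 1)))) (iL + (v2 - (u - 1))) (iC + (u - v0)) u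
      (HsC6 G u) 6 T.q₀ 8 h D' := by
  have a1 := hO.v0u
  have a2 := hO.uv1
  have a3 := hO.uv2
  have a4 := hO.iLC
  have hK1 := K_one65 G
  have hlt : iC + (u - v0) < Z.length := hO.cC_lt (by omega) (by omega)
  have hTeq : ∀ v, (G.geoJ F mt W).T v = G.T v := fun _ => rfl
  have hKeq : (G.geoJ F mt W).K = G.K := rfl
  have hlab : ∀ i, iL + (v2 - (u - 1)) ≤ i → i < iC + (u - v0) → lb6 (cs i) (cs (i + 1)) ≤ u := fun i h1 h2 =>
    max_le (scale65 hO hC2 h1 h2.le) (scale65 hO hC2 (by omega) h2)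
  have hgap : ∀ i, iL + (v2 - (u - 1)) ≤ i → i < iC + (u - v0) → (G.T (lb6 (cs i) (cs (i + 1))) : ℤ) ≤ 4 * ((cs (i + 1)).row - (cs i).row) ∧
      (cs (i + 1)).row - (cs i).row ≤ 3 * (G.K : ℤ) ^ 2 * G.T (lb6 (cs i) (cs (i + 1))) := fun i h1 h2 => hO.gap i (by omega)
  have hlenH : ∀ i, iL + (v2 - (u - 1)) ≤ i → i < iC + (u - v0) → (cs (i + 1)).row - (cs i).row ≤ HsC6 G (lb6 (cs i) (cs (i + 1))) := by
    intro i h1 h2
    refine (hgap i h1 h2).2.trans ?_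
    unfold HsC6
    push_cast
    have : (0 : ℤ) ≤ (G.K : ℤ) ^ 2 * G.T (lb6 (cs i) (cs (i + 1))) := by positivity
    linarith
  have hnR : ∀ i, iL + (v2 - (u - 1)) ≤ i → i < iC + (u - v0) → nR (cs i) (cs (i + 1)) ≤ HsC6 G (lb6 (cs i) (cs (i + 1))) := by
    intro i h1 h2
    have := hlenH i h1 h2
    unfold nR
    omega
  have hTh0 : 0 ≤ T.Th := by linarith [hT.th]
  refine ⟨fun i h1 h2 => ?_, hlenH, hlab, ?_, rfl, fun v => cnt65 hO.cnt hlt v, fun v _ => ?_, fun v _ => ?_, fun i _ _ => ?_,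
    fun i h1 h2 => ?_, fun i h1 h2 => ?_, fun i h1 h2 => ?_, fun i h1 h2 => ?_, fun i h1 h2 => ?_, hh⟩
  · -- len
    show 2 * T.θ * HsC6 G (lb6 (cs i) (cs (i + 1))) ≤ (((cs (i + 1)).row - (cs i).row : ℤ) : ℝ)
    have g1 : ((G.T (lb6 (cs i) (cs (i + 1))) : ℕ) : ℝ) ≤ 4 * (((cs (i + 1)).row - (cs i).row : ℤ) : ℝ) := by
      exact_mod_cast (hgap i h1 h2).1
    have g2 : (0 : ℝ) ≤ G.T (lb6 (cs i) (cs (i + 1))) := Nat.cast_nonneg _
    have g3 := mul_le_mul_of_nonneg_right hθ g2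
    unfold HsC6
    push_cast at g1 ⊢
    linarith
  · -- top
    show lb6 (cs (iC + (u - v0) - 1)) (cs (iC + (u - v0) - 1 + 1)) = u
    have e1 := hO.clsc (u - 1) (by omega) (by omega)
    have e2 := hO.clsc u (by omega) (by omega)
    rw [show iC + (u - 1 - v0) = iC + (u - v0) - 1 by omega] at e1
    rw [show iC + (u - v0) - 1 + 1 = iC + (u - v0) by omega]
    unfold lb6
    rw [e1, e2]
    omega
  · -- H1
    have g1 := le_HsC6 (G := G) v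
    have g2 : G.T 0 ≤ G.T v := G.T_mono (Nat.zero_le _)
    have g3 : G.T 0 = G.T0 := by
      show G.T0 * G.K ^ 0 = G.T0
      rw [pow_zero, mul_one]
    omega
  · -- HK
    show K₀ * HsC6 G v ≤ HsC6 G (v + 1)
    rw [Hs_add65, pow_one]
    exact Nat.mul_le_mul_right _ hK0
  · -- q0
    exact mul_nonneg hT.q0 (pow_nonneg hTh0 _)
  · -- q1
    show T.q₀ * T.Th ^ (u - lb6 (cs i) (cs (i + 1))) ≤ T.q₀ * ((HsC6 G u : ℝ) / HsC6 G (lb6 (cs i) (cs (i + 1)))) ^ α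
    rw [Hs_ratio65 G (hlab i h1 h2), ← Real.rpow_pow_comm (by linarith)]
    exact mul_le_mul_of_nonneg_left (pow_le_pow_left₀ hTh0 hα _) hT.q0
  · -- far
    obtain ⟨P, Q, e⟩ := hO.pair i (by omega)
    have g1 := farC6 hT ho e (l := u - lb6 (cs i) (cs (i + 1))) (by omega) (by have := hlab i h1 h2; omega) (by omega)
    rw [hgC6 (hnR i h1 h2)] at g1
    exact g1
  · -- tp
    obtain ⟨P, Q, e⟩ := hO.pair i (by omega)
    exact topC6 hT ho e (l := u - lb6 (cs i) (cs (i + 1))) (by omega) (by have := hlab i h1 h2; omega) (by omega)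
  · -- latb
    refine line65 h0 hw hO hC2 hC0 hκ h1 h2.le (hlab i h1 h2) (fun h3 h4 => ?_) hD
    exact max_le (lab_bo65 hO h3.le h4.le) (lab_bo65 hO (by omega) (by omega))
  · -- latt
    refine line65 h0 hw hO hC2 hC0 hκ (i := i + 1) (by omega) h2 (hlab i h1 h2) (fun h3 h4 => ?_) hD
    exact max_le (lab_bo65 hO (by omega) (by omega)) (lab_bo65 hO h3.le h4.le)

/-! ### The rows of the starts -/

/-- **The first row of the piece is below the rows of the starts.** -/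
theorem row_lo65 (hO : OwnL (G.geoJ F mt W) (fun x => G.lat x.1) G.latC G.w C0 C2 D Z ρ u cs v0 v1 v2 iL iC iT) (hC2 : 2 ≤ C2) :
    (cs (iL + (v2 - (u - 1)))).row < G.lo u (G.loc u ρ.1) - G.T (u - 2) := by
  have a1 := hO.v0u
  have a3 := hO.uv2
  rw [hO.lo (u - 1) (by omega) (by omega)]
  show (G.geoJ F mt W).dn (u - 1) (ρ.1.1 : ℤ) - (G.T (u - 1) : ℤ) < _
  have h1 := (G.geoJ F mt W).dn_le (u - 1) (ρ.1.1 : ℤ)
  have h2 := G.lt_rcc u ρ.1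
  have h3 := G.rcc_eq u (G.loc u ρ.1)
  have h4 := G.T_lt8 (show u - 2 < u - 1 by omega)
  have h5 := G.T_pos' (u - 2)
  linarith

/-- The top row of the piece. -/
theorem row_top65 (hO : OwnL (G.geoJ F mt W) (fun x => G.lat x.1) G.latC G.w C0 C2 D Z ρ u cs v0 v1 v2 iL iC iT) :
    cs (iC + (u - v0)) = (G.geoJ F mt W).ct u ρ ∧ (cs (iC + (u - v0))).row = G.rcc u (G.loc u ρ.1) + G.T u ∧
      (cs (iC + (u - v0))).row.toNat = (G.rcc u (G.loc u ρ.1)).toNat + G.T u := by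
  have a1 := hO.v0u
  have h1 := hO.clct u (by omega) (by omega)
  have h2 : (cs (iC + (u - v0))).row = G.rcc u (G.loc u ρ.1) + G.T u := by
    rw [h1]
    rfl
  refine ⟨h1, h2, ?_⟩
  rw [h2]
  have := G.rcc_pos u ρ.1
  omega

/-- **The rows of the starts are below the top row, by a fraction of the height.** -/
theorem row_hi65 {θ : ℝ} (hθ : 64 * (G.K : ℝ) ^ 2 * θ ≤ 1)
    (hO : OwnL (G.geoJ F mt W) (fun x => G.lat x.1) G.latC G.w C0 C2 D Z ρ u cs v0 v1 v2 iL iC iT) (hC2 : 1 ≤ C2) {k : ℕ}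
    (hk : k ≤ G.ra u (G.loc u ρ.1)) : (k : ℝ) + θ * HsC6 G u ≤ (((cs (iC + (u - v0))).row : ℤ) : ℝ) := by
  have a1 := hO.v0u
  obtain ⟨-, h2, -⟩ := row_top65 hO
  have h3 := G.ra_cast (G.rcc_pos u ρ.1).le
  have h4 := G.T_lt8 (show u - 1 < u by omega)
  have h5 := G.T_pos' (u - 1)
  have h6 : (k : ℤ) ≤ G.rcc u (G.loc u ρ.1) + G.T (u - 1) + 1 := by
    rw [← h3]
    exact_mod_cast hk
  have h7 : 4 * ((k : ℤ) - G.rcc u (G.loc u ρ.1)) ≤ G.T u := by linarith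
  rw [h2]
  have h8 : 4 * ((k : ℝ) - (G.rcc u (G.loc u ρ.1) : ℝ)) ≤ G.T u := by exact_mod_cast h7
  have h9 : (0 : ℝ) ≤ G.T u := Nat.cast_nonneg _
  have h10 := mul_le_mul_of_nonneg_right hθ h9
  unfold HsC6
  push_cast
  linarith

end

end Pool.Agent.W_7d29a1_C1.PcD65
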