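import Pool.Agent.W_7d29a1_C1.WnI53
import Pool.Agent.W_7d29a1_C1.LucR30

/-!
MP_7d29a1_pr, [C1] attractor route, SEP: THE PIECES OF THE WINDOW OF THE EXCLUSIONS, `Pc53`, FROM THE THREE BLOCKS. (helper82)

Two units: `E` = `EE` of a slab of the lane block, `F` = `EE` of the window, `E ≤ F ≤ X E`.
* `tp_mono82`, `gs_mono82` : worse numbers;
* **`pc82`** : the gate slab (`Gs76`, numbers in `F`), the lane block (`Blk76`, numbers in `E`, and the cross ratio), the top block (`Tp73`,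
  number in `F`) give `Pc53` in the unit `E`;

-/

set_option autoImplicit false

namespace Pool.Agent.W_7d29a1_C1.Pc82

open Finset MeasureTheory
open Pool.Agent.W_7d29a1_F hiding Bw G
open Pool.Agent.W_7d29a1_h4g Pool.Agent.W_7d29a1_HS
open Pool.Agent.W_7d29a1_H hiding ex
open Pool.Agent.W_7d29a1_C1.K91 (wt wt_pos)
open Pool.Agent.W_7d29a1_C1.U16 (ker)
open Pool.Agent.W_7d29a1_C1.H60
open Pool.Agent.W_7d29a1_C1.G37 (Gm)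
open Pool.Agent.W_7d29a1_C1.E53
open Pool.Agent.W_7d29a1_C1.SD53
open Pool.Agent.W_7d29a1_C1.Lb76
open Pool.Agent.W_7d29a1_C1.T73
open Pool.Agent.W_7d29a1_C1.NE32
open Pool.Agent.W_7d29a1_C1.NW32

noncomputable section

variable {Γ : Cx} {G : Gm} {u : ℕ} {κ : ℤ × ℤ} {ω ω' ω₂ ωA ωM ω₃ : Env} {a₀ a a₁ b₁ b b' : ℕ} {MA NA C1 MB C2 CB Mi₀ Mo₀ : Set ℤ}

theorem tp_mono82 {D D' : ℝ} (T : Tp73 Γ b D ω₃ ω') (h : D ≤ D') : Tp73 Γ b D' ω₃ ω' :=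
  ⟨T.D1.trans h, T.bN, T.eq, fun y => (T.up y).trans (mul_le_mul_of_nonneg_right h (bW_pos _ _ _ _).le),
    fun y => (T.dn y).trans (mul_le_mul_of_nonneg_right h (bW_pos _ _ _ _).le)⟩

theorem gs_mono82 {g0 RG sG g0' RG' sG' : ℝ} (S : Gs76 Γ ω ω₂ a₀ a Mi₀ Mo₀ MA NA g0 RG sG) (h0 : 0 < g0') (hg : g0' ≤ g0) (hR : RG ≤ RG')
    (hs : sG ≤ sG') : Gs76 Γ ω ω₂ a₀ a Mi₀ Mo₀ MA NA g0' RG' sG' :=
  ⟨S.ab, S.R0.trans hR, S.s0.trans hs, h0, S.eq, fun z => (S.gu z).trans (mul_le_mul_of_nonneg_right hR (bW_pos _ _ _ _).le),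
    fun z hz => (S.gf z hz).trans (mul_le_mul_of_nonneg_right hs (bW_pos _ _ _ _).le),
    fun z hz => (mul_le_mul_of_nonneg_right hg (bW_pos _ _ _ _).le).trans (S.gl z hz)⟩

/-- **THE PIECES FROM THE THREE BLOCKS.** -/
theorem pc82 {E F X bS bF δ : ℝ} (hE : 0 ≤ E) (hEF : E ≤ F) (hFX : F ≤ X * E)
    {xA uA yA xB uB yB q1 rM dT q0 d1 z : ℝ} (hdT : 0 ≤ dT) (hq0 : 0 ≤ q0) (hd1 : 0 ≤ d1) (hz : 0 ≤ z)
    (hB : ∃ ωA ωM : Env, Blk76 Γ ω₂ ωA ωM ω₃ a a₁ b₁ b MA NA C1 MB C2 CB (Real.exp (xA * E)) (Real.exp (uA * E)) (Real.exp (yA * E))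
      (Real.exp (xB * E)) (Real.exp (uB * E)) (Real.exp (yB * E)) (Real.exp (-(q1 * E))) (Real.exp (rM * E)))
    (hcr : ∀ z ∈ C1, ∀ z' ∈ C1, z < z' → ∀ x ∈ C2, ∀ y ∈ C2, x < y →
      ker (wt ω₃) Γ.p a₁ (b₁ - a₁) z x * ker (wt ω₃) Γ.p a₁ (b₁ - a₁) z' y -
        ker (wt ω₃) Γ.p a₁ (b₁ - a₁) z y * ker (wt ω₃) Γ.p a₁ (b₁ - a₁) z' x ≤
        δ * (ker (wt ω₃) Γ.p a₁ (b₁ - a₁) z x * ker (wt ω₃) Γ.p a₁ (b₁ - a₁) z' y))
    (T : Tp73 Γ b' (Real.exp (dT * F)) ω₃ ω') (hb' : b₁ ≤ b')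
    (S : Gs76 Γ ω ω₂ (G.ra u κ - 1) a Mi₀ Mo₀ MA NA (Real.exp (-(q0 * F))) (Real.exp (d1 * F)) (Real.exp (-(z * F))))
    (hMi : ∀ y : ℤ, |G.lat (G.ra u κ - 1, y) - G.ctr u κ| ≤ bS * G.w u → y ∈ Mi₀)
    (hMo : ∀ y ∈ Mo₀, |G.lat (G.ra u κ - 1, y) - G.ctr u κ| ≤ bF * G.w u - 1) :
    ∃ ωA ωM : Env, Pc53 Γ G u κ bS bF E a a₁ b₁ b b' C1 C2 xA uA yA xB uB yB q1 rM (X * dT) (X * q0) (X * d1) z δ ω ω₂ ωA ωM ω₃ ω'
      Mi₀ Mo₀ MA NA MB CB (Real.exp (xA * E)) (Real.exp (uA * E)) (Real.exp (yA * E)) (Real.exp (xB * E)) (Real.exp (uB * E))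
      (Real.exp (yB * E)) (Real.exp (-(q1 * E))) (Real.exp (rM * E)) (Real.exp (-(q0 * F))) (Real.exp (d1 * F)) (Real.exp (-(z * F))) := by
  obtain ⟨ωA, ωM, hB⟩ := hB
  have key : ∀ t : ℝ, 0 ≤ t → t * F ≤ X * t * E := fun t ht => by
    have := mul_le_mul_of_nonneg_left hFX ht
    linarith
  have h12 : a₁ ≤ b₁ := hB.hm
  exact ⟨ωA, ωM,
    { B := hB
      hgA := le_rfl
      hGA := le_rfl
      hYA := le_rfl
      hgB := le_rfl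
      hGB := le_rfl
      hYB := le_rfl
      hg1 := le_of_eq (by rw [neg_mul])
      hRM := le_rfl
      T := tp_mono82 T (Real.exp_le_exp.2 (key dT hdT))
      hb1 := hb'
      S := S
      hq := Real.exp_le_exp.2 (by have := key q0 hq0; linarith)
      hR := Real.exp_le_exp.2 (key d1 hd1)
      hs := Real.exp_le_exp.2 (by have := mul_le_mul_of_nonneg_left hEF hz; linarith)
      cr := hcr_top73 T h12 hb' hcr
      hMi := hMi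
      hMo := hMo }⟩

end

end Pool.Agent.W_7d29a1_C1.Pc82
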