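import Pool.Agent.W_7d29a1_C1.PcW82
import Pool.Agent.W_7d29a1_C1.GsC37
import Pool.Agent.W_7d29a1_C1.BlkD73

/-!
MP_7d29a1_pr, [C1] attractor route, SEP: THE PIECES `Pc53` AT THE CONCRETE WINDOW, THE LANE BLOCK AS A HYPOTHESIS. (helper82)

`ω` = typical content (`LvA98`, `OuT R2`, `OuT R1`), `ω'` = lucky content (`LuA98`), equal off the window; `ω₂ = spl rf98 ω' ω`,
`ω₃ = spl (b98 + 1) ω' ω`. Gate slab: helper37's `gsC37`; top block: helper73's `earD73`.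
* `spl_far82`, `spl_B82`, `spl_LE82` : the spliced environments off the lane block, and in `LE98`;
* **`pcX82`** : `Pc53` from the lane block.
-/

set_option autoImplicit false

namespace Pool.Agent.W_7d29a1_C1.Pc82

open Finset MeasureTheory
open Pool.Agent.W_7d29a1_F hiding Bw G
open Pool.Agent.W_7d29a1_h4g Pool.Agent.W_7d29a1_HS
open Pool.Agent.W_7d29a1_H hiding ex gg
open Pool.Agent.W_7d29a1_C1
open Pool.Agent.W_7d29a1_C1.K91 (wt wt_pos)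
open Pool.Agent.W_7d29a1_C1.U16 (ker)
open Pool.Agent.W_7d29a1_C1.S71 (Off gl gl_of_mem gl_of_not_mem)
open Pool.Agent.W_7d29a1_C1.H60
open Pool.Agent.W_7d29a1_C1.G37 (Gm)
open Pool.Agent.W_7d29a1_C1.O22 (Bw)
open Pool.Agent.W_7d29a1_C1.BP58
open Pool.Agent.W_7d29a1_C1.P24 (Ce24 mem_Ce24)
open Pool.Agent.W_7d29a1_C1.E53
open Pool.Agent.W_7d29a1_C1.SD53
open Pool.Agent.W_7d29a1_C1.Lb76
open Pool.Agent.W_7d29a1_C1.T73
open Pool.Agent.W_7d29a1_C1.B73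
open Pool.Agent.W_7d29a1_C1.RB22
open Pool.Agent.W_7d29a1_C1.Gs37 (Num37 gsC37)
open Pool.Agent.W_7d29a1_C1.Ou37 (OuT OuD)
open Pool.Agent.W_7d29a1_C1.D98

noncomputable section

variable {μ : Measure ℝ} {s c C : ℝ} {n₀ : ℕ} {Γ : Cx} {G : Gm} {P : Nm98} {R : Nr98} {u : ℕ} {κ : ℤ × ℤ} {ω ω' : Env}

/-- The gate slab new: above the row `rl98` nothing is changed. -/
theorem spl_far82 {p : Pt} (hp : ((rl98 Γ G P u κ : ℕ) : ℤ) < p.1) : spl (rf98 Γ G P u κ) ω' ω p = ω p := by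
  refine spl_ge73 ?_
  unfold rf98
  push_cast
  omega

/-- The two spliced environments agree off the lane block. -/
theorem spl_B82 (hwin : ∀ p, p ∉ G.win u κ → ω' p = ω p) {p : Pt} (hp : p ∉ B98 Γ G P u κ) :
    spl (b98 Γ G P u κ + 1) ω' ω p = spl (rf98 Γ G P u κ) ω' ω p := by
  have hrb := rl_le_b98 (Γ := Γ) (G := G) (P := P) (u := u) (κ := κ)
  rcases lt_or_ge p.1 ((rf98 Γ G P u κ : ℕ) : ℤ) with h1 | h1
  · rw [spl_lt73 h1, spl_lt73 (by unfold rf98 at h1; push_cast at h1 ⊢; omega)]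
  · rw [spl_ge73 h1]
    rcases lt_or_ge p.1 ((b98 Γ G P u κ + 1 : ℕ) : ℤ) with h2 | h2
    · rw [spl_lt73 h2]
      refine hwin p fun h3 => hp (mem_B98 h3 ?_ ?_)
      · unfold rf98 at h1
        push_cast at h1
        omega
      · push_cast at h2
        omega
    · rw [spl_ge73 h2]

/-- The lane block is lucky. -/
theorem spl_LE82 [IsProbabilityMeasure μ] (h : ω' ∈ LE98 μ s c Γ G P u κ) : spl (b98 Γ G P u κ + 1) ω' ω ∈ LE98 μ s c Γ G P u κ := by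
  refine (on_LE98 _ _ fun p hp => ?_).2 h
  refine spl_lt73 ?_
  have h2 : p.1 ≤ ((rl98 Γ G P u κ + 3 * P.T u : ℕ) : ℤ) := hp.2
  rw [b98_eq]
  push_cast at h2 ⊢
  omega

/-- Off the window, in the weights. -/
theorem wt_win82 (hwin : ∀ p, p ∉ G.win u κ → ω' p = ω p) (k : ℕ) (y : ℤ) (h : (k, y) ∉ Bw G u κ) : wt ω' k y = wt ω k y := by
  unfold K91.wt
  rw [hwin ((k : ℤ), y) h]

/-- The mouth of the lane block, at the row `rl98`. -/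
theorem mouth82 {δ w : ℝ} (hδ : δ / 4 * wd μ s (P.T u) ≤ w) (hw : 1 ≤ w) (hwu : G.w u = w) :
    ∀ v ∈ (↑(Ce24 (co98 G u κ (rl98 Γ G P u κ)) (δ / 4 * wd μ s (P.T u))) : Set ℤ),
      |G.lat (rl98 Γ G P u κ, v) - G.ctr u κ| ≤ 2 * G.w u := by
  intro v hv
  have h1 := mem_Ce24.1 (mem_coe.1 hv)
  have h2 := Gs37.lat_co (G := G) (u := u) (κ := κ) (rl98 Γ G P u κ)
  have e1 : G.lat (rl98 Γ G P u κ, v) - G.ctr u κ = ((v : ℝ) - co98 G u κ (rl98 Γ G P u κ)) +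
      (G.lat (rl98 Γ G P u κ, co98 G u κ (rl98 Γ G P u κ)) - G.ctr u κ) := by
    unfold Gm.lat
    push_cast
    ring
  rw [e1, hwu]
  refine (abs_add_le _ _).trans ?_
  linarith

/-- **THE PIECES AT THE CONCRETE WINDOW**, the lane block `hB`, `hcr` as hypotheses; the numbers of the gate: helper37's `Num37` at `Km = 2`;
`d₃ = K₁ + 5 sgm (R2 - 1)`, `X` : `EE (T u) ≤ X EE (T_r)`. -/
theorem pcX82 [IsProbabilityMeasure μ] (h : In μ s c C n₀) {kw : ℝ} (hkw : 0 ≤ kw) :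
    ∃ Ck : ℝ, 0 < Ck ∧ ∀ {V₁ Re Qe υ sgm : ℝ}, 0 ≤ V₁ → 0 ≤ Re → 0 ≤ Qe → 0 ≤ υ → 0 ≤ sgm → 80 * sgm ≤ c →
    ∃ K₁ b₀ : ℝ, 0 ≤ K₁ ∧ 1 ≤ b₀ ∧ ∃ n₁ : ℕ, 2 ≤ n₁ ∧
    ∀ {Γ : Cx} {G : Gm} {P : Nm98} {R : Nr98} {E : ℕ → ℝ} {u : ℕ} {κ : ℤ × ℤ} {bS R2 U₁ d₁ q₀ R1 z sg δ X : ℝ} {ω ω' : Env},
      Fr73 μ s c kw V₁ Re Qe υ Γ G R u κ → E u = EE μ s (G.T u) → n₁ ≤ G.T u → G.re u κ ≤ Γ.N → Fit98 G P u →
      R.Vs u = V₁ * E u → R.sV u = c / 16 * (E u / G.w u) → R.Uw u = υ * E u →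
      Num37 c |lam μ s| kw Ck V₁ υ Re Qe P.Q sgm bS 2 R2 U₁ d₁ q₀ R1 (R.b u) z → 0 ≤ q₀ → 0 ≤ z → b₀ + 1 ≤ R2 →
      bS * G.w u + 2 ≤ P.K2 u * wd μ s (P.n u) → 2 ≤ P.K1 u * wd μ s (P.n u) → δ / 4 * wd μ s (P.T u) ≤ G.w u →
      EE μ s (P.T u) ≤ E u → E u ≤ X * EE μ s (P.T u) →
      ω ∈ LvA98 μ s c Γ G P R u κ → sg ≤ E u → 0 ≤ sg → ω ∈ OuT μ s Γ G E R2 (sgm * R2) sg u κ → ω ∈ OuT μ s Γ G E R1 (sgm * R1) sg u κ →
      ω' ∈ LuA98 μ s c Γ G P R u κ → (∀ p, p ∉ G.win u κ → ω' p = ω p) →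
      ∀ {a₁ b₁ b : ℕ} {C1 MB C2 CB : Set ℤ} {xA uA yA xB uB yB q1 rM dl : ℝ}, b₁ ≤ b98 Γ G P u κ →
      (∃ ωA ωM : Env, Blk76 Γ (spl (rf98 Γ G P u κ) ω' ω) ωA ωM (spl (b98 Γ G P u κ + 1) ω' ω) (rl98 Γ G P u κ) a₁ b₁ b
        {co98 G u κ (rl98 Γ G P u κ)} ↑(Ce24 (co98 G u κ (rl98 Γ G P u κ)) (δ / 4 * wd μ s (P.T u))) C1 MB C2 CB
        (Real.exp (xA * EE μ s (P.T u))) (Real.exp (uA * EE μ s (P.T u))) (Real.exp (yA * EE μ s (P.T u)))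
        (Real.exp (xB * EE μ s (P.T u))) (Real.exp (uB * EE μ s (P.T u))) (Real.exp (yB * EE μ s (P.T u)))
        (Real.exp (-(q1 * EE μ s (P.T u)))) (Real.exp (rM * EE μ s (P.T u)))) →
      (∀ x ∈ C1, ∀ x' ∈ C1, x < x' → ∀ v ∈ C2, ∀ v' ∈ C2, v < v' →
        ker (wt (spl (b98 Γ G P u κ + 1) ω' ω)) Γ.p a₁ (b₁ - a₁) x v * ker (wt (spl (b98 Γ G P u κ + 1) ω' ω)) Γ.p a₁ (b₁ - a₁) x' v' -
          ker (wt (spl (b98 Γ G P u κ + 1) ω' ω)) Γ.p a₁ (b₁ - a₁) x v' *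
            ker (wt (spl (b98 Γ G P u κ + 1) ω' ω)) Γ.p a₁ (b₁ - a₁) x' v ≤
          dl * (ker (wt (spl (b98 Γ G P u κ + 1) ω' ω)) Γ.p a₁ (b₁ - a₁) x v *
            ker (wt (spl (b98 Γ G P u κ + 1) ω' ω)) Γ.p a₁ (b₁ - a₁) x' v')) →
      ∃ (ω₂ ωA ωM ω₃ : Env) (Mi₀ Mo₀ MA NA MB CB : Set ℤ) (gA GA YA gB GB YB g1 RM g0 RG sG : ℝ),
        Pc53 Γ G u κ bS R1 (EE μ s (P.T u)) (rl98 Γ G P u κ) a₁ b₁ b (b98 Γ G P u κ) C1 C2 xA uA yA xB uB yB q1 rM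
          (X * (K₁ + 5 * sgm * (R2 - 1))) (X * q₀) (X * d₁) z dl ω ω₂ ωA ωM ω₃ ω' Mi₀ Mo₀ MA NA MB CB gA GA YA gB GB YB g1 RM g0 RG sG := by
  obtain ⟨Ck, hCk, nG, hnG, HG⟩ := gsC37 h hkw
  refine ⟨Ck, hCk, fun {V₁ Re Qe υ sgm} hV₁ hRe hQe hυ hs0 hs1 => ?_⟩
  obtain ⟨K₁, b₀, hK₁, hb₀, nT, hnT, HT⟩ := earD73 h hkw hV₁ hRe hQe hυ hs0 (show 20 * sgm ≤ c by linarith)
  refine ⟨K₁, b₀, hK₁, hb₀, max nG nT, hnG.trans (le_max_left _ _), ?_⟩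
  intro Γ G P R E u κ bS R2 U₁ d₁ q₀ R1 z sg δ X ω ω' F hE hT hN hF hVs hsV hUw hNum hq₀ hz hR2 hK2 hK1 hδ hEr hEX hω hsg hsg0 hω2 hω1 hω'
    hwin a₁ b₁ b C1 MB C2 CB xA uA yA xB uB yB q1 rM dl hb₁ hB hcr
  have hTG : nG ≤ G.T u := (le_max_left _ _).trans hT
  have hTT : nT ≤ G.T u := (le_max_right _ _).trans hT
  have hT2 : 2 ≤ G.T u := hnG.trans hTG
  have hE1 : 1 ≤ E u := by rw [hE]; exact one_le_EE _
  have hEr1 := one_le_EE (μ := μ) (s := s) (P.T u)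
  have hw2 : 2 * E u ≤ G.w u := by rw [F.hw, hE]; exact wd_ge_one h (by omega)
  have hw0 : 0 < G.w u := by linarith
  have heq := wt_win82 hwin
  have hR20 : 0 ≤ R2 := by linarith
  -- the gate slab
  have S := HG (Γ := Γ) (G := G) (P := P) (R := R) (E := E) (u := u) (κ := κ) (sgm := sgm) (V₁ := V₁) (υ := υ) (bS := bS) (Km := 2) (R2 := R2)
    (U₁ := U₁) (d₁ := d₁) (q₀ := q₀) (R1 := R1) (z := z) (sg := sg) (Mi := {co98 G u κ (rl98 Γ G P u κ)})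
    (Mo := ↑(Ce24 (co98 G u κ (rl98 Γ G P u κ)) (δ / 4 * wd μ s (P.T u)))) (ω := ω) (ω' := ω')
    F.hs F.hv F.hw hE F.hk (by rw [F.hw, hE]; exact F.hh) hTG hN F.h0 hF hVs hsV hUw (by rw [F.Re, F.Qe]; exact hNum) hK2 hK1
    (Set.mem_singleton _) (mouth82 hδ (by linarith) rfl) hω hsg hω2 hω1 hω' heq
  -- the top block
  have hbw : (R2 - 1) * G.w u ≤ R.b u * G.w u := mul_le_mul_of_nonneg_right (by linarith [hNum.R2b]) hw0.le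
  have hTm : ω ∈ TmB Γ G (Ou37.gam μ s Γ) (R2 - 1) (sgm * R2 * E u + sg) u κ (G.ra u κ - 1) (G.re u κ) :=
    Gs37.ouT_tm (by
      have e : (R2 - 1) * G.w u = R2 * G.w u - G.w u := by ring
      rw [e]
      linarith) hω2
  have hTop := (HT (b := R2 - 1) (by linarith) (Γ := Γ) (G := G) (P := P) (R := R) (u := u) (κ := κ) (Q := sgm * R2 * E u + sg) F hTT hbw
    (by positivity) (by rw [sub_add_cancel, add_mul, one_mul, ← hE]; linarith) hTm (fun k y hk => (heq k y hk).symm)).2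
    (by have := b98_T (Γ := Γ) (κ := κ) hF; omega) (KG98.upT (Lv98.kg hω)) (KG98.upT (L98.kg hω')) (KG98.loT (L98.kg hω'))
    (XO98.stt (Lv98.xo hω))
  have hd0 : 0 ≤ d₁ := by
    have h1 := hNum.d
    have h2 := hNum.U0
    have h3 := hNum.V0
    have h4 : 0 ≤ sgm * R2 := mul_nonneg hs0 hR20
    linarith
  obtain ⟨ωA, ωM, hP⟩ := pc82 (Γ := Γ) (G := G) (u := u) (κ := κ) (ω := ω) (ω' := ω') (E := EE μ s (P.T u)) (F := E u) (X := X) (bS := bS)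
    (bF := R1) (by linarith) hEr hEX (dT := K₁ + 5 * sgm * (R2 - 1)) (q0 := q₀) (d1 := d₁) (z := z)
    (by have h1 : 0 ≤ R2 - 1 := by linarith
        positivity) hq₀ hd0 hz hB hcr (by rw [hE]; exact hTop) hb₁ S
    (fun y hy => by show |G.lat (G.ra u κ - 1, y) - G.ctr u κ| ≤ bS * G.w u + 1; linarith)
    (fun y hy => by
      have h1 : |G.lat (G.ra u κ - 1, y) - G.ctr u κ| ≤ (R1 - 1) * G.w u := hy
      have e : (R1 - 1) * G.w u = R1 * G.w u - G.w u := by ring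
      rw [e] at h1
      linarith)
  exact ⟨_, ωA, ωM, _, _, _, _, _, _, _, _, _, _, _, _, _, _, _, _, _, _, hP⟩

end

end Pool.Agent.W_7d29a1_C1.Pc82
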