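import Pool.Agent.W_7d29a1_C1.PcX82
import Pool.Agent.W_7d29a1_C1.LukT42

/-!
MP_7d29a1_pr, [C1] attractor route, SEP: THE PIECES `Pc53` AT THE CONCRETE WINDOW. (helper82)

`pcY82` : `pcX82` with the lane block from helper42's `blkC42`: typical content `LvA98`, `Ta42`, `OuT r0`, `OuT R2`, `OuT R1`; lucky content
`LuA98`, equal off the window. The profile constant of the lanes in the unit of the slab: `Q`, `sgm r0 E + sg ≤ Q EE (T_r)`.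
-/

set_option autoImplicit false

namespace Pool.Agent.W_7d29a1_C1.Pc82

open Finset MeasureTheory
open Pool.Agent.W_7d29a1_F hiding Bw G
open Pool.Agent.W_7d29a1_h4g Pool.Agent.W_7d29a1_HS
open Pool.Agent.W_7d29a1_H hiding ex gg
open Pool.Agent.W_7d29a1_C1
open Pool.Agent.W_7d29a1_C1.H60
open Pool.Agent.W_7d29a1_C1.G37 (Gm)
open Pool.Agent.W_7d29a1_C1.P24 (Ce24)
open Pool.Agent.W_7d29a1_C1.SD53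
open Pool.Agent.W_7d29a1_C1.B73
open Pool.Agent.W_7d29a1_C1.Gs37 (Num37)
open Pool.Agent.W_7d29a1_C1.Ou37 (OuT)
open Pool.Agent.W_7d29a1_C1.Luc30 (gx30 mx30 yx30)
open Pool.Agent.W_7d29a1_C1.D98
open Pool.Agent.W_7d29a1_C1.RB22 (spl)

noncomputable section

variable {μ : Measure ℝ} {s c C : ℝ} {n₀ : ℕ}

/-- `OuT` in helper42's letters. -/
theorem ot_of82 {Γ : Cx} {G : Gm} {P : Nm98} {E : ℕ → ℝ} {u : ℕ} {κ : ℤ × ℤ} {ω : Env} {R Q' sg : ℝ} (h : ω ∈ OuT μ s Γ G E R Q' sg u κ) :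
    Ot42 μ s Γ G P R (Q' * E u + sg) u κ ω := fun c hc c' hc' _ _ => h c hc c' hc'

/-- **THE PIECES OF THE WINDOW OF THE EXCLUSIONS**, for one pair (typical content `ω`, lucky content `ω'`). -/
theorem pcY82 [IsProbabilityMeasure μ] (h : In μ s c C n₀) {kw : ℝ} (hkw : 0 ≤ kw) :
    ∃ Ck : ℝ, 0 < Ck ∧ ∀ {V₁ Re Qe υ sgm : ℝ}, 0 ≤ V₁ → 0 ≤ Re → 0 ≤ Qe → 0 ≤ υ → 0 ≤ sgm → 80 * sgm ≤ c →
    ∃ K₁ b₀ : ℝ, 0 ≤ K₁ ∧ 1 ≤ b₀ ∧ ∃ n₁ : ℕ, 2 ≤ n₁ ∧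
    ∀ {Γ : Cx} {G : Gm} {P : Nm98} {R : Nr98} {E : ℕ → ℝ} {u : ℕ} {κ : ℤ × ℤ} {bS r0 R2 U₁ d₁ q₀ R1 z sg Q q Qv KM X : ℝ} {ω ω' : Env},
      Fr73 μ s c kw V₁ Re Qe υ Γ G R u κ → E u = EE μ s (G.T u) → n₁ ≤ G.T u → G.re u κ < Γ.N →
      R.Vs u = V₁ * E u → R.sV u = c / 16 * (E u / G.w u) → R.Uw u = υ * E u →
      Num37 c |lam μ s| kw Ck V₁ υ Re Qe P.Q sgm bS 2 R2 U₁ d₁ q₀ R1 (R.b u) z → 0 ≤ q₀ → 0 ≤ z → b₀ + 1 ≤ R2 →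
      bS * G.w u + 2 ≤ P.K2 u * wd μ s (P.n u) → 2 ≤ P.K1 u * wd μ s (P.n u) → wd μ s (P.T u) ≤ G.w u →
      Lw42 μ s c C Γ G P q KM u → Qv ≤ q → wd μ s (P.T u) + 1 ≤ r0 * G.w u → sgm * r0 * E u + sg ≤ Q * EE μ s (P.T u) →
      E u ≤ X * EE μ s (P.T u) → sg ≤ E u → 0 ≤ sg →
      ω ∈ LvA98 μ s c Γ G P R u κ → Ta42 μ s c Γ G P Qv u κ ω → ω ∈ OuT μ s Γ G E r0 (sgm * r0) sg u κ →
      ω ∈ OuT μ s Γ G E R2 (sgm * R2) sg u κ → ω ∈ OuT μ s Γ G E R1 (sgm * R1) sg u κ →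
      ω' ∈ LuA98 μ s c Γ G P R u κ → (∀ p, p ∉ G.win u κ → ω' p = ω p) →
      ∃ (ω₂ ωA ωM ω₃ : Env) (Mi₀ Mo₀ MA NA MB CB : Set ℤ) (gA GA YA gB GB YB g1 RM g0 RG sG : ℝ),
        Pc53 Γ G u κ bS R1 (EE μ s (P.T u)) (rl98 Γ G P u κ) (rl98 Γ G P u κ + P.T u) (rl98 Γ G P u κ + 2 * P.T u) (b98 Γ G P u κ)
          (b98 Γ G P u κ) ↑(Ce24 (co98 G u κ (rl98 Γ G P u κ + P.T u)) (P.δ / 4 * wd μ s (P.T u)))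
          ↑(Ce24 (co98 G u κ (rl98 Γ G P u κ + 2 * P.T u)) (P.δ / 4 * wd μ s (P.T u)))
          (P.LA - (Q + c / 4)) (gx30 c C P.U0 q P.Kl P.KpA P.UA) (yx30 c P.U0 q P.Kl P.KpA) (P.LB - (Q + c / 4))
          (gx30 c C P.U0 q P.Kl P.KpA P.UB) (yx30 c P.U0 q P.Kl P.KpA) (P.qM + Q + c) (mx30 c P.UM q P.Kl KM)
          (X * (K₁ + 5 * sgm * (R2 - 1))) (X * q₀) (X * d₁) z (Real.exp (-((P.T u : ℕ) : ℝ) ^ P.cM)) ω ω₂ ωA ωM ω₃ ω' Mi₀ Mo₀ MA NA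
          MB CB gA GA YA gB GB YB g1 RM g0 RG sG := by
  obtain ⟨Ck, hCk, HX⟩ := pcX82 h hkw
  refine ⟨Ck, hCk, fun {V₁ Re Qe υ sgm} hV₁ hRe hQe hυ hs0 hs1 => ?_⟩
  obtain ⟨K₁, b₀, hK₁, hb₀, nX, hnX, HX⟩ := HX hV₁ hRe hQe hυ hs0 hs1
  refine ⟨K₁, b₀, hK₁, hb₀, nX, hnX, ?_⟩
  intro Γ G P R E u κ bS r0 R2 U₁ d₁ q₀ R1 z sg Q q Qv KM X ω ω' F hE hT hN hVs hsV hUw hNum hq₀ hz hR2 hK2 hK1 hwT L hQv hRt hX hEX hsg hsg0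
    hω hTa hOT hω2 hω1 hω' hwin
  have hrb := b98_T (Γ := Γ) (κ := κ) L.fit
  obtain ⟨hB, hcr⟩ := blkC42 h (ω₀ := ω) (ω := spl (rf98 Γ G P u κ) ω' ω) (ω' := spl (b98 Γ G P u κ + 1) ω' ω) L hQv hRt hX (Lv98.nosw hω)
    hN hTa (ot_of82 hOT) (fun p hp => spl_far82 hp) (fun p hp => spl_B82 hwin hp) (spl_LE82 (L98.le hω'))
  have hw0 : 0 ≤ wd μ s (P.T u) := by have := L.w1; linarith
  have hTT : P.T u ≤ G.T u := by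
    have h1 := L.fit
    unfold Fit98 ln98 at h1
    omega
  exact HX F hE hT hN.le L.fit hVs hsV hUw hNum hq₀ hz hR2 hK2 hK1
    (((mul_le_mul_of_nonneg_right (L.rM.trans L.rM1) hw0).trans (one_mul _).le).trans hwT)
    (by rw [hE]; exact EE_mono hTT) hEX hω hsg hsg0 hω2 hω1 hω' hwin (b := b98 Γ G P u κ)
    (by rw [b98_eq]; omega) hB hcr

end

end Pool.Agent.W_7d29a1_C1.Pc82
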