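import Pool.Agent.W_7d29a1_C1.Sw9
import Pool.Agent.W_7d29a1_C1.AsmA60

/-!
Both halves (MP_7d29a1_pr), attractor route: THE EXCHANGE OF THE INSIDES OF TWO COPIES, FROM LOCAL DATA. (helper9)

The first copy is seen from its contact `p`, the second one from its contact `p'`. `swc A p p'` exchanges the sites `A` around
the two contacts. `LocD` = what the two contexts have to give; `pd9` = the structure `PD` of the assembly; `rest9` = the
estimate of the weight of the pairs without joint success through the chain of the blocks (`ChData`).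
-/

set_option autoImplicit false

namespace Pool.Agent.W_7d29a1_C1.Pd9

open MeasureTheory ProbabilityTheory
open Pool.Agent.W_7d29a1_F Pool.Agent.W_7d29a1_C1.S71 Pool.Agent.W_7d29a1_C1.Sw9
open scoped ENNReal Classical

noncomputable section

variable {μ : Measure ℝ} [IsProbabilityMeasure μ]

/-- The two copies, centred at their contacts. -/
def cen (p p' : Pt) (z : Env × Env) : Env × Env := (sh p z.1, sh p' z.2)

theorem cen_cen (p p' : Pt) (z : Env × Env) : cen (-p) (-p') (cen p p' z) = z :=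
  Prod.ext (sh_neg_sh p z.1) (sh_neg_sh p' z.2)

theorem cen_neg (p p' : Pt) (z : Env × Env) : cen p p' (cen (-p) (-p') z) = z :=
  Prod.ext (sh_sh_neg p z.1) (sh_sh_neg p' z.2)

theorem mp_cen (p p' : Pt) : MeasurePreserving (cen p p') ((law μ).prod (law μ)) ((law μ).prod (law μ)) :=
  (mp_sh p).prod (mp_sh p')

theorem measurable_cen (p p' : Pt) : Measurable (cen p p') := (measurable_sh p).prodMap (measurable_sh p')

/-- **The centred exchange.** -/
def swc (A : Set Pt) (p p' : Pt) (z : Env × Env) : Env × Env := cen (-p) (-p') (sw0 A (cen p p' z))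

theorem mp_swc (A : Set Pt) (p p' : Pt) : MeasurePreserving (swc A p p') ((law μ).prod (law μ)) ((law μ).prod (law μ)) :=
  (mp_cen (-p) (-p')).comp ((mp_sw0 A).comp (mp_cen p p'))

theorem cen_swc (A : Set Pt) (p p' : Pt) (z : Env × Env) : cen p p' (swc A p p' z) = sw0 A (cen p p' z) := cen_neg p p' _

theorem c1_swc (A : Set Pt) (p p' : Pt) (z : Env × Env) : sh p (swc A p p' z).1 = gl A (sh p' z.2) (sh p z.1) :=
  congrArg Prod.fst (cen_swc A p p' z)

theorem c2_swc (A : Set Pt) (p p' : Pt) (z : Env × Env) : sh p' (swc A p p' z).2 = gl A (sh p z.1) (sh p' z.2) :=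
  congrArg Prod.snd (cen_swc A p p' z)

/-- A function blind to `A` of the first centred copy. -/
theorem off1 {β : Type*} {A : Set Pt} {f : Env → β} (h : OffF A f) (p p' : Pt) (z : Env × Env) :
    f (sh p (swc A p p' z).1) = f (sh p z.1) := by
  rw [c1_swc]
  exact h.gl _ _

theorem off2 {β : Type*} {A : Set Pt} {f : Env → β} (h : OffF A f) (p p' : Pt) (z : Env × Env) :
    f (sh p' (swc A p p' z).2) = f (sh p' z.2) := by
  rw [c2_swc]
  exact h.gl _ _

/-- A function of `A` only: it is taken from the other copy. -/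
theorem in1 {β : Type*} {A : Set Pt} {f : Env → β} (h : OffF Aᶜ f) (p p' : Pt) (z : Env × Env) :
    f (sh p (swc A p p' z).1) = f (sh p' z.2) := by
  refine h _ _ fun q hq => ?_
  rw [Set.mem_compl_iff, not_not] at hq
  rw [c1_swc, gl_of_mem hq]

theorem in2 {β : Type*} {A : Set Pt} {f : Env → β} (h : OffF Aᶜ f) (p p' : Pt) (z : Env × Env) :
    f (sh p' (swc A p p' z).2) = f (sh p z.1) := by
  refine h _ _ fun q hq => ?_
  rw [Set.mem_compl_iff, not_not] at hq
  rw [c2_swc, gl_of_mem hq]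

/-! ### The local data -/

/-- **LOCAL DATA OF TWO CONTACTS.** `A i` = the exchanged region of the scale `i` (around the contact), `Q i ⊆ A i` = the inner
half of the block `i`, `SA i`, `SA' i` = the outer halves of the success (blind to `A i`), `SB i` = the inner half (sees `Q i`
only, the same for both contexts), `Lv i` = no level spoils the scale `i` (each level sees one block). -/
structure LocD (m : ℕ) (A Q : ℕ → Set Pt) (SA SA' SB : ℕ → Set Env) {κ : Type*} (Bk : κ → Set Pt) (E : ℕ → κ → Set Env)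
    (Ks : ℕ → Set κ) : Prop where
  mono : ∀ i j, i ≤ j → A i ⊆ A j
  sub : ∀ j, Q j ⊆ A j
  dis : ∀ i j, i < j → Disjoint (Q j) (A i)
  blk : ∀ i < m, ∀ k, Bk k ⊆ A i ∨ Disjoint (Bk k) (A i)
  oA : ∀ j < m, Off (A j) (SA j)
  oA' : ∀ j < m, Off (A j) (SA' j)
  oB : ∀ j < m, Off (Q j)ᶜ (SB j)
  oE : ∀ j k, Off (Bk k)ᶜ (E j k)
  mA : ∀ j, MeasurableSet (SA j)
  mA' : ∀ j, MeasurableSet (SA' j)
  mB : ∀ j, MeasurableSet (SB j)
  mE : ∀ j k, MeasurableSet (E j k)
  cK : ∀ j, (Ks j).Countable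

/-- The success of one copy at the scale `j`. -/
def Suc (SA SB : ℕ → Set Env) {κ : Type*} (E : ℕ → κ → Set Env) (Ks : ℕ → Set κ) (j : ℕ) : Set Env :=
  (SA j ∩ SB j) \ ⋃ k ∈ Ks j, E j k

/-- The joint success. -/
def Jo (p p' : Pt) (SA SA' SB : ℕ → Set Env) {κ : Type*} (E : ℕ → κ → Set Env) (Ks : ℕ → Set κ) (j : ℕ) :
    Set (Env × Env) :=
  {z | sh p z.1 ∈ Suc SA SB E Ks j ∧ sh p' z.2 ∈ Suc SA' SB E Ks j}

section

variable {m : ℕ} {A Q : ℕ → Set Pt} {SA SA' SB : ℕ → Set Env} {κ : Type*} {Bk : κ → Set Pt} {E : ℕ → κ → Set Env}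
  {Ks : ℕ → Set κ} {p p' : Pt}

theorem measurableSet_Suc (hA : ∀ j, MeasurableSet (SA j)) (hB : ∀ j, MeasurableSet (SB j))
    (hE : ∀ j k, MeasurableSet (E j k)) (hc : ∀ j, (Ks j).Countable) (j : ℕ) : MeasurableSet (Suc SA SB E Ks j) :=
  ((hA j).inter (hB j)).diff (MeasurableSet.biUnion (hc j) fun k _ => hE j k)

theorem LocD.mJ (h : LocD m A Q SA SA' SB Bk E Ks) (p p' : Pt) (j : ℕ) : MeasurableSet (Jo p p' SA SA' SB E Ks j) :=
  (((measurable_sh p).comp measurable_fst) (measurableSet_Suc h.mA h.mB h.mE h.cK j)).inter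
    (((measurable_sh p').comp measurable_snd) (measurableSet_Suc h.mA' h.mB h.mE h.cK j))

theorem mem_Jo {z : Env × Env} {j : ℕ} : z ∈ Jo p p' SA SA' SB E Ks j ↔
    (sh p z.1 ∈ SA j ∧ sh p' z.2 ∈ SA' j) ∧ (sh p z.1 ∈ SB j ∧ sh p' z.2 ∈ SB j) ∧
      ∀ k ∈ Ks j, ¬ (sh p z.1 ∈ E j k ∨ sh p' z.2 ∈ E j k) := by
  unfold Jo Suc
  simp only [Set.mem_ofPred_eq, Set.mem_sdiff, Set.mem_inter_iff, Set.mem_iUnion, not_exists, not_or]
  constructor
  · rintro ⟨⟨⟨a1, a2⟩, a3⟩, ⟨b1, b2⟩, b3⟩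
    exact ⟨⟨a1, b1⟩, ⟨a2, b2⟩, fun k hk => ⟨a3 k hk, b3 k hk⟩⟩
  · rintro ⟨⟨a1, b1⟩, ⟨a2, b2⟩, h3⟩
    exact ⟨⟨⟨a1, a2⟩, fun k hk => (h3 k hk).1⟩, ⟨b1, b2⟩, fun k hk => (h3 k hk).2⟩

/-- **The joint success further outside (or at the same scale) is invariant under the exchange.** -/
theorem LocD.inv (h : LocD m A Q SA SA' SB Bk E Ks) (p p' : Pt) {i j : ℕ} (hi : i < m) (hj : j < m) (hij : i ≤ j)
    (z : Env × Env) : swc (A i) p p' z ∈ Jo p p' SA SA' SB E Ks j ↔ z ∈ Jo p p' SA SA' SB E Ks j := by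
  rw [mem_Jo, mem_Jo]
  have hAij := h.mono i j hij
  have e1 : sh p (swc (A i) p p' z).1 ∈ SA j ↔ sh p z.1 ∈ SA j :=
    iff_of_eq (off1 (Off.toF ((h.oA j hj).mono hAij)) p p' z)
  have e2 : sh p' (swc (A i) p p' z).2 ∈ SA' j ↔ sh p' z.2 ∈ SA' j :=
    iff_of_eq (off2 (Off.toF ((h.oA' j hj).mono hAij)) p p' z)
  have e3 : (sh p (swc (A i) p p' z).1 ∈ SB j ∧ sh p' (swc (A i) p p' z).2 ∈ SB j) ↔
      (sh p z.1 ∈ SB j ∧ sh p' z.2 ∈ SB j) := by
    rcases Nat.lt_or_ge i j with hlt | hge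
    · have ho : Off (A i) (SB j) :=
        (h.oB j hj).mono fun q hq hq' => (Set.disjoint_left.1 (h.dis i j hlt)) hq' hq
      exact and_congr (iff_of_eq (off1 (Off.toF ho) p p' z)) (iff_of_eq (off2 (Off.toF ho) p p' z))
    · have e : i = j := le_antisymm hij hge
      subst e
      have ho : Off (A i)ᶜ (SB i) := (h.oB i hi).mono (Set.compl_subset_compl.2 (h.sub i))
      exact (and_congr (iff_of_eq (in1 (Off.toF ho) p p' z)) (iff_of_eq (in2 (Off.toF ho) p p' z))).trans and_comm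
  have e4 : ∀ k, (sh p (swc (A i) p p' z).1 ∈ E j k ∨ sh p' (swc (A i) p p' z).2 ∈ E j k) ↔
      (sh p z.1 ∈ E j k ∨ sh p' z.2 ∈ E j k) := by
    intro k
    rcases h.blk i hi k with hk | hk
    · have ho : Off (A i)ᶜ (E j k) := (h.oE j k).mono (Set.compl_subset_compl.2 hk)
      exact (or_congr (iff_of_eq (in1 (Off.toF ho) p p' z)) (iff_of_eq (in2 (Off.toF ho) p p' z))).trans or_comm
    · have ho : Off (A i) (E j k) := (h.oE j k).mono fun q hq hq' => (Set.disjoint_left.1 hk) hq' hq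
      exact or_congr (iff_of_eq (off1 (Off.toF ho) p p' z)) (iff_of_eq (off2 (Off.toF ho) p p' z))
  exact and_congr (and_congr e1 e2) (and_congr e3 (forall₂_congr fun k _ => not_congr (e4 k)))

/-- The sets of the outermost success are pairwise disjoint. -/
theorem outer_disjoint {Z : Type*} (J : ℕ → Set Z) (m : ℕ) :
    Pairwise fun i j => Disjoint (if i < m then H54.outer J m i else ∅) (if j < m then H54.outer J m j else (∅ : Set Z)) := by
  have key : ∀ i j, i < j → Disjoint (if i < m then H54.outer J m i else ∅) (if j < m then H54.outer J m j else (∅ : Set Z)) := by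
    intro i j hij
    by_cases hj : j < m
    · rw [if_pos hj, if_pos (hij.trans hj), Set.disjoint_left]
      rintro z ⟨_, h2⟩ ⟨h3, _⟩
      exact h2 j hij hj h3
    · rw [if_neg hj]
      exact Set.disjoint_empty _
  intro i j hne
  rcases lt_or_gt_of_ne hne with h | h
  · exact key i j h
  · exact (key j i h).symm

theorem iUnion_outer {Z : Type*} (J : ℕ → Set Z) (m : ℕ) :
    (⋃ i ∈ Finset.range m, if i < m then H54.outer J m i else (∅ : Set Z)) = ⋃ i ∈ Finset.range m, J i := by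
  ext z
  simp only [Set.mem_iUnion, Finset.mem_range, exists_prop]
  constructor
  · rintro ⟨i, hi, h⟩
    rw [if_pos hi] at h
    exact ⟨i, hi, h.1⟩
  · intro h
    -- the largest index
    have hne : ((Finset.range m).filter fun i => z ∈ J i).Nonempty := by
      obtain ⟨i, hi, hz⟩ := h
      exact ⟨i, Finset.mem_filter.2 ⟨Finset.mem_range.2 hi, hz⟩⟩
    set i := ((Finset.range m).filter fun i => z ∈ J i).max' hne with hi
    have hmem := Finset.mem_filter.1 (Finset.max'_mem _ hne)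
    rw [← hi] at hmem
    have him := Finset.mem_range.1 hmem.1
    refine ⟨i, him, ?_⟩
    rw [if_pos him]
    refine ⟨hmem.2, fun j h1 h2 h3 => ?_⟩
    have := Finset.le_max' ((Finset.range m).filter fun i => z ∈ J i) j (Finset.mem_filter.2 ⟨Finset.mem_range.2 h2, h3⟩)
    omega

/-- **THE STRUCTURE `PD` FROM LOCAL DATA.** `F i`, `Fw i` = functions of the exchanged region seen from the contact, the same
for the two contexts. -/
theorem pd9 (h : LocD m A Q SA SA' SB Bk E Ks) {B C w C' w' : Env → ℝ} {F Fw : ℕ → Env → ℝ} {o t : ℝ}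
    (hF : ∀ i < m, OffF (A i)ᶜ (F i)) (hFw : ∀ i < m, OffF (A i)ᶜ (Fw i))
    (c1 : ∀ i < m, ∀ η, sh p η ∈ Suc SA SB E Ks i → |C η - F i (sh p η)| ≤ t)
    (w1 : ∀ i < m, ∀ η, sh p η ∈ Suc SA SB E Ks i → |w η - Fw i (sh p η)| ≤ t)
    (c2 : ∀ i < m, ∀ η, sh p' η ∈ Suc SA' SB E Ks i → |C' η - F i (sh p' η)| ≤ t)
    (w2 : ∀ i < m, ∀ η, sh p' η ∈ Suc SA' SB E Ks i → |w' η - Fw i (sh p' η)| ≤ t)
    (hB : ∀ i < m, ∀ η η', sh p η ∈ Suc SA SB E Ks i → sh p η' ∈ Suc SA SB E Ks i →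
      (∀ q, q ∉ A i → sh p η q = sh p η' q) → |B η - B η'| ≤ o) :
    H60.PD (law μ) B C w C' w' m (fun i => swc (A i) p p')
      (fun i => if i < m then H54.outer (Jo p p' SA SA' SB E Ks) m i else ∅) (fun _ => ∅) o (2 * t) := by
  have hJ : ∀ i < m, ∀ z ∈ (if i < m then H54.outer (Jo p p' SA SA' SB E Ks) m i else (∅ : Set (Env × Env))),
      z ∈ Jo p p' SA SA' SB E Ks i ∧ swc (A i) p p' z ∈ Jo p p' SA SA' SB E Ks i := by
    intro i hi z hz
    rw [if_pos hi] at hz
    exact ⟨hz.1, (h.inv p p' hi hi le_rfl z).2 hz.1⟩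
  refine ⟨fun i _ => mp_swc (A i) p p', fun i => ?_, fun _ => MeasurableSet.empty, outer_disjoint _ m, ?_, ?_, ?_, ?_, ?_, ?_⟩
  · by_cases hi : i < m
    · rw [if_pos hi]
      have : H54.outer (Jo p p' SA SA' SB E Ks) m i =
          Jo p p' SA SA' SB E Ks i ∩ ⋂ j ∈ Finset.Ioo i m, (Jo p p' SA SA' SB E Ks j)ᶜ := by
        ext z
        unfold H54.outer
        simp only [Set.mem_ofPred_eq, Set.mem_inter_iff, Set.mem_iInter, Finset.mem_Ioo, Set.mem_compl_iff]
        exact and_congr_right fun _ => ⟨fun hh j hj => hh j hj.1 hj.2, fun hh j h1 h2 => hh j ⟨h1, h2⟩⟩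
      rw [this]
      exact (h.mJ p p' i).inter (Finset.measurableSet_biInter _ fun j _ => (h.mJ p p' j).compl)
    · rw [if_neg hi]
      exact MeasurableSet.empty
  · intro i hi z _
    rw [if_pos hi]
    unfold H54.outer
    simp only [Set.mem_ofPred_eq]
    rw [h.inv p p' hi hi le_rfl z]
    refine and_congr_right fun _ => forall_congr' fun j => forall_congr' fun h1 => forall_congr' fun h2 => ?_
    rw [h.inv p p' hi h2 h1.le z]
  · intro i hi z hz
    obtain ⟨hz1, hz2⟩ := hJ i hi z hz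
    have k1 := c1 i hi (swc (A i) p p' z).1 hz2.1
    have k2 := c2 i hi z.2 hz1.2
    rw [in1 (hF i hi) p p' z] at k1
    have e : C (swc (A i) p p' z).1 - C' z.2 =
        (C (swc (A i) p p' z).1 - F i (sh p' z.2)) - (C' z.2 - F i (sh p' z.2)) := by ring
    rw [e]
    exact (abs_sub _ _).trans (by linarith)
  · intro i hi z hz
    obtain ⟨hz1, hz2⟩ := hJ i hi z hz
    have k1 := c2 i hi (swc (A i) p p' z).2 hz2.2
    have k2 := c1 i hi z.1 hz1.1
    rw [in2 (hF i hi) p p' z] at k1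
    have e : C' (swc (A i) p p' z).2 - C z.1 =
        (C' (swc (A i) p p' z).2 - F i (sh p z.1)) - (C z.1 - F i (sh p z.1)) := by ring
    rw [e]
    exact (abs_sub _ _).trans (by linarith)
  · intro i hi z hz
    obtain ⟨hz1, hz2⟩ := hJ i hi z hz
    have k1 := w1 i hi (swc (A i) p p' z).1 hz2.1
    have k2 := w2 i hi z.2 hz1.2
    rw [in1 (hFw i hi) p p' z] at k1
    have e : w (swc (A i) p p' z).1 - w' z.2 =
        (w (swc (A i) p p' z).1 - Fw i (sh p' z.2)) - (w' z.2 - Fw i (sh p' z.2)) := by ring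
    rw [e]
    exact (abs_sub _ _).trans (by linarith)
  · intro i hi z hz
    obtain ⟨hz1, hz2⟩ := hJ i hi z hz
    have k1 := w2 i hi (swc (A i) p p' z).2 hz2.2
    have k2 := w1 i hi z.1 hz1.1
    rw [in2 (hFw i hi) p p' z] at k1
    have e : w' (swc (A i) p p' z).2 - w z.1 =
        (w' (swc (A i) p p' z).2 - Fw i (sh p z.1)) - (w z.1 - Fw i (sh p z.1)) := by ring
    rw [e]
    exact (abs_sub _ _).trans (by linarith)
  · intro i hi z hz
    obtain ⟨hz1, hz2⟩ := hJ i hi z hz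
    refine hB i hi _ _ hz2.1 hz1.1 fun q hq => ?_
    rw [c1_swc, gl_of_not_mem hq]

end

/-! ### Fresh blocks in both copies, centred -/

/-- The block `Bl` around both contacts is taken from `η`. -/
def rc2 (Bl : Set Pt) (p p' : Pt) (η z : Env × Env) : Env × Env :=
  (sh (-p) (gl Bl (sh p η.1) (sh p z.1)), sh (-p') (gl Bl (sh p' η.2) (sh p' z.2)))

theorem c1_rc2 (Bl : Set Pt) (p p' : Pt) (η z : Env × Env) :
    sh p (rc2 Bl p p' η z).1 = gl Bl (sh p η.1) (sh p z.1) := sh_sh_neg p (gl Bl (sh p η.1) (sh p z.1))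

theorem c2_rc2 (Bl : Set Pt) (p p' : Pt) (η z : Env × Env) :
    sh p' (rc2 Bl p p' η z).2 = gl Bl (sh p' η.2) (sh p' z.2) := sh_sh_neg p' (gl Bl (sh p' η.2) (sh p' z.2))

theorem mp_rc2 (Bl : Set Pt) (p p' : Pt) : MeasurePreserving (fun q : (Env × Env) × (Env × Env) => rc2 Bl p p' q.1 q.2)
    (((law μ).prod (law μ)).prod ((law μ).prod (law μ))) ((law μ).prod (law μ)) := by
  have h0 : MeasurePreserving (Prod.map (cen p p') (cen p p') :
      (Env × Env) × (Env × Env) → (Env × Env) × (Env × Env))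
      (((law μ).prod (law μ)).prod ((law μ).prod (law μ))) (((law μ).prod (law μ)).prod ((law μ).prod (law μ))) :=
    (mp_cen p p').prod (mp_cen p p')
  have h1 : MeasurePreserving (fun q : (Env × Env) × (Env × Env) => ((q.1.1, q.2.1), (q.1.2, q.2.2)))
      (((law μ).prod (law μ)).prod ((law μ).prod (law μ))) (((law μ).prod (law μ)).prod ((law μ).prod (law μ))) := mp_mid
  have h2 : MeasurePreserving (Prod.map (fun q : Env × Env => gl Bl q.1 q.2) (fun q : Env × Env => gl Bl q.1 q.2))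
      (((law μ).prod (law μ)).prod ((law μ).prod (law μ))) ((law μ).prod (law μ)) := (mp_gl Bl).prod (mp_gl Bl)
  exact (mp_cen (-p) (-p')).comp (h2.comp (h1.comp h0))

/-- An event of the centred copies which does not see the block. -/
theorem rc2_off {Bl : Set Pt} {S S' : Set Env} (h : Off Bl S) (h' : Off Bl S') (p p' : Pt) (η z : Env × Env) :
    (sh p (rc2 Bl p p' η z).1 ∈ S ↔ sh p z.1 ∈ S) ∧ (sh p' (rc2 Bl p p' η z).2 ∈ S' ↔ sh p' z.2 ∈ S') := by
  rw [c1_rc2, c2_rc2]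
  exact ⟨h.gl _ _, h'.gl _ _⟩

/-- An event of the centred copies which sees the block only. -/
theorem rc2_in {Bl : Set Pt} {S S' : Set Env} (h : Off Blᶜ S) (h' : Off Blᶜ S') (p p' : Pt) (η z : Env × Env) :
    (sh p (rc2 Bl p p' η z).1 ∈ S ↔ sh p η.1 ∈ S) ∧ (sh p' (rc2 Bl p p' η z).2 ∈ S' ↔ sh p' η.2 ∈ S') := by
  rw [c1_rc2, c2_rc2]
  refine ⟨h _ _ fun q hq => ?_, h' _ _ fun q hq => ?_⟩
  · rw [Set.mem_compl_iff, not_not] at hq
    rw [gl_of_mem hq]
  · rw [Set.mem_compl_iff, not_not] at hq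
    rw [gl_of_mem hq]

end

end Pool.Agent.W_7d29a1_C1.Pd9
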