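import Pool.Agent.W_7d29a1_C1.PdI9
import Pool.Agent.W_7d29a1_C1.AsmG9

/-!
Both halves (MP_7d29a1_pr), attractor route: THE EXCHANGE OF BOXES FROM LOCAL DATA, WITH BAD ENVIRONMENTS. (helper9)

`pdg9` = `pdi9` with the estimates only for the environments which are not bad (`Bd`, `Bd'`: global events of the two
contexts, not invariant under the exchange).
-/

set_option autoImplicit false

namespace Pool.Agent.W_7d29a1_C1.Pd9

open MeasureTheory ProbabilityTheory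
open Pool.Agent.W_7d29a1_F Pool.Agent.W_7d29a1_C1.S71 Pool.Agent.W_7d29a1_C1.Sw9
open scoped ENNReal Classical

noncomputable section

variable {μ : Measure ℝ} [IsProbabilityMeasure μ]

theorem sw0_sw0 (A : Set Pt) (z : Env × Env) : sw0 A (sw0 A z) = z := by
  unfold sw0
  refine Prod.ext ?_ ?_
  · show gl A (gl A z.1 z.2) (gl A z.2 z.1) = z.1
    rw [gl_gl_left, gl_gl_right, gl_self]
  · show gl A (gl A z.2 z.1) (gl A z.1 z.2) = z.2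
    rw [gl_gl_left, gl_gl_right, gl_self]

theorem swc_swc (A : Set Pt) (p p' : Pt) (z : Env × Env) : swc A p p' (swc A p p' z) = z := by
  show cen (-p) (-p') (sw0 A (cen p p' (swc A p p' z))) = z
  rw [cen_swc, sw0_sw0, cen_cen]

/-- The pairs of good environments. -/
def GdP (Bd Bd' : Set Env) : Set (Env × Env) := {z | z.1 ∉ Bd ∧ z.2 ∉ Bd'}

theorem measurableSet_GdP {Bd Bd' : Set Env} (h : MeasurableSet Bd) (h' : MeasurableSet Bd') : MeasurableSet (GdP Bd Bd') :=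
  (measurable_fst h.compl).inter (measurable_snd h'.compl)

theorem compl_GdP {Bd Bd' : Set Env} : ((law μ).prod (law μ)).real (GdP Bd Bd')ᶜ ≤ (law μ).real Bd + (law μ).real Bd' := by
  have h1 : (GdP Bd Bd')ᶜ ⊆ (Bd ×ˢ Set.univ) ∪ (Set.univ ×ˢ Bd') := by
    intro z hz
    by_cases h : z.1 ∈ Bd
    · exact Or.inl ⟨h, trivial⟩
    · refine Or.inr ⟨trivial, ?_⟩
      by_contra h'
      exact hz ⟨h, h'⟩
  refine (measureReal_mono h1).trans ((measureReal_union_le _ _).trans (le_of_eq ?_))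
  rw [measureReal_prod_prod, measureReal_prod_prod]
  simp

/-- **`PDi` ON THE GOOD PAIRS, FROM LOCAL DATA**, and the two structures which `lecg9` needs. -/
theorem pdg9 {ι ι' V : Type*} {S : Finset ι} {S' : Finset ι'} {m : ℕ} {A : ℕ → Set Pt} {x : ℕ → ι → Pt} {x' : ℕ → ι' → Pt}
    {v : ℕ → ι → V} {v' : ℕ → ι' → V} {ρ : ℕ → ι × ι' → ι × ι'} {U : ℕ → ι × ι' → Set (Env × Env)}
    {Sc : ℕ → ι → Set Env} {Sc' : ℕ → ι' → Set Env} {Bd Bd' : Set Env} (mB : MeasurableSet Bd) (mB' : MeasurableSet Bd')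
    (mU : ∀ l < m, ∀ p ∈ S ×ˢ S', MeasurableSet (U l p))
    (dU : ∀ p ∈ S ×ˢ S', ∀ l < m, ∀ l' < m, l ≠ l' → Disjoint (U l p) (U l' p))
    (rin : ∀ l < m, ∀ p ∈ S ×ˢ S', (U l p).Nonempty → ρ l p ∈ S ×ˢ S')
    (rr : ∀ l < m, ∀ p ∈ S ×ˢ S', (U l p).Nonempty → ρ l (ρ l p) = p)
    (rx : ∀ l < m, ∀ p ∈ S ×ˢ S', (U l p).Nonempty → x l (ρ l p).1 = x l p.1 ∧ x' l (ρ l p).2 = x' l p.2)
    (rv : ∀ l < m, ∀ p ∈ S ×ˢ S', (U l p).Nonempty → v l (ρ l p).1 = v' l p.2 ∧ v' l (ρ l p).2 = v l p.1)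
    (iU : ∀ l < m, ∀ p ∈ S ×ˢ S', (U l p).Nonempty → ∀ z, z ∈ U l p ↔ swc (A l) (x l p.1) (x' l p.2) z ∈ U l (ρ l p))
    (sU : ∀ l < m, ∀ p ∈ S ×ˢ S', ∀ z ∈ U l p, z.1 ∈ Sc l p.1 ∧ z.2 ∈ Sc' l p.2)
    {B : Env → ℝ} {C w ws : ι → Env → ℝ} {C' w' ws' : ι' → Env → ℝ} {F Fw : ℕ → V → Env → ℝ} {o t th : ℝ}
    (hF : ∀ l < m, ∀ y, OffF (A l)ᶜ (F l y)) (hFw : ∀ l < m, ∀ y, OffF (A l)ᶜ (Fw l y))
    (c1 : ∀ l < m, ∀ c ∈ S, ∀ η ∈ Sc l c, η ∉ Bd → |C c η - F l (v l c) (sh (x l c) η)| ≤ t + th * ws c η)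
    (w1 : ∀ l < m, ∀ c ∈ S, ∀ η ∈ Sc l c, η ∉ Bd → |w c η - Fw l (v l c) (sh (x l c) η)| ≤ t + th * w c η)
    (c2 : ∀ l < m, ∀ c ∈ S', ∀ η ∈ Sc' l c, η ∉ Bd' → |C' c η - F l (v' l c) (sh (x' l c) η)| ≤ t + th * ws' c η)
    (w2 : ∀ l < m, ∀ c ∈ S', ∀ η ∈ Sc' l c, η ∉ Bd' → |w' c η - Fw l (v' l c) (sh (x' l c) η)| ≤ t + th * w' c η)
    (hB : ∀ l < m, ∀ c ∈ S, ∀ d ∈ S, x l c = x l d → ∀ η ∈ Sc l c, ∀ η' ∈ Sc l d, η ∉ Bd → η' ∉ Bd →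
      (∀ q, q ∉ A l → sh (x l c) η q = sh (x l c) η' q) → |B η - B η'| ≤ o) :
    H60.Part ((law μ).prod (law μ)) (S ×ˢ S') m ρ (fun l p => swc (A l) (x l p.1) (x' l p.2)) U ∧
      H60.PDi (law μ) B S S' C w ws C' w' ws' m ρ (fun l p => swc (A l) (x l p.1) (x' l p.2))
        (H60.Ag (fun l p => swc (A l) (x l p.1) (x' l p.2)) U (GdP Bd Bd')) o (2 * t) th := by
  have pU : H60.Part ((law μ).prod (law μ)) (S ×ˢ S') m ρ (fun l p => swc (A l) (x l p.1) (x' l p.2)) U :=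
    { mp := fun l _ p _ => mp_swc (A l) (x l p.1) (x' l p.2)
      mA := mU
      dj := dU
      rin := rin
      rr := rr
      inv := iU }
  have ss : ∀ l < m, ∀ p ∈ S ×ˢ S', ∀ z ∈ U l p,
      swc (A l) (x l (ρ l p).1) (x' l (ρ l p).2) (swc (A l) (x l p.1) (x' l p.2) z) = z := by
    intro l hl p hp z hz
    obtain ⟨e1, e2⟩ := rx l hl p hp ⟨z, hz⟩
    rw [e1, e2, swc_swc]
  have pG := pU.good (measurableSet_GdP mB mB') ss
  refine ⟨pU, ?_⟩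
  have sub : ∀ l p, (H60.Ag (fun l p => swc (A l) (x l p.1) (x' l p.2)) U (GdP Bd Bd') l p).Nonempty → (U l p).Nonempty :=
    fun l p ⟨z, hz⟩ => ⟨z, hz.1⟩
  refine pdi9 (v := v) (v' := v') (F := F) (Fw := Fw) (Sc := fun l c => Sc l c \ Bd) (Sc' := fun l c => Sc' l c \ Bd')
    pG.mA pG.dj pG.rin pG.rr (fun l hl p hp hA => rx l hl p hp (sub l p hA)) (fun l hl p hp hA => rv l hl p hp (sub l p hA))
    pG.inv ?_ hF hFw (fun l hl c hc η hη => c1 l hl c hc η hη.1 hη.2) (fun l hl c hc η hη => w1 l hl c hc η hη.1 hη.2)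
    (fun l hl c hc η hη => c2 l hl c hc η hη.1 hη.2) (fun l hl c hc η hη => w2 l hl c hc η hη.1 hη.2)
    (fun l hl c hc d hd hx η hη η' hη' => hB l hl c hc d hd hx η hη.1 η' hη'.1 hη.2 hη'.2)
  intro l hl p hp z hz
  have h1 := sU l hl p hp z hz.1
  exact ⟨⟨h1.1, hz.2.1.1⟩, ⟨h1.2, hz.2.1.2⟩⟩

end

end Pool.Agent.W_7d29a1_C1.Pd9
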