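import Pool.Agent.W_7d29a1_C1.Pd9
import Pool.Agent.W_7d29a1_C1.AsmI9

/-!
Both halves (MP_7d29a1_pr), attractor route: THE EXCHANGE OF BOXES, FROM LOCAL DATA. (helper9)

`x l c` = the base point of the box of the scale `l` which contains the contact `c`, `v l c` = the position of `c` in this
box. The exchange at the scale `l` takes the region `A l` around the two base points; the contacts move with the boxes
(partner map `ρ l`). `pdi9` = the structure `PDi` of the assembly.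
-/

set_option autoImplicit false

namespace Pool.Agent.W_7d29a1_C1.Pd9

open MeasureTheory ProbabilityTheory
open Pool.Agent.W_7d29a1_F Pool.Agent.W_7d29a1_C1.S71 Pool.Agent.W_7d29a1_C1.Sw9
open scoped ENNReal Classical

noncomputable section

variable {μ : Measure ℝ} [IsProbabilityMeasure μ]

/-- **`PDi` FROM LOCAL DATA.** `U l p` = the pairs of environments exchanged at the scale `l` for the pair of contacts `p`;
`Sc l c`, `Sc' l c'` = success of one copy; `F l v`, `Fw l v` = the functionals of the region `A l` for a contact at the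
position `v` of the box, the same for both contexts. -/
theorem pdi9 {ι ι' V : Type*} {S : Finset ι} {S' : Finset ι'} {m : ℕ} {A : ℕ → Set Pt} {x : ℕ → ι → Pt} {x' : ℕ → ι' → Pt}
    {v : ℕ → ι → V} {v' : ℕ → ι' → V} {ρ : ℕ → ι × ι' → ι × ι'} {U : ℕ → ι × ι' → Set (Env × Env)}
    {Sc : ℕ → ι → Set Env} {Sc' : ℕ → ι' → Set Env}
    (mU : ∀ l < m, ∀ p ∈ S ×ˢ S', MeasurableSet (U l p))
    (dU : ∀ p ∈ S ×ˢ S', ∀ l < m, ∀ l' < m, l ≠ l' → Disjoint (U l p) (U l' p))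
    (rin : ∀ l < m, ∀ p ∈ S ×ˢ S', (U l p).Nonempty → ρ l p ∈ S ×ˢ S')
    (rr : ∀ l < m, ∀ p ∈ S ×ˢ S', (U l p).Nonempty → ρ l (ρ l p) = p)
    (rx : ∀ l < m, ∀ p ∈ S ×ˢ S', (U l p).Nonempty → x l (ρ l p).1 = x l p.1 ∧ x' l (ρ l p).2 = x' l p.2)
    (rv : ∀ l < m, ∀ p ∈ S ×ˢ S', (U l p).Nonempty → v l (ρ l p).1 = v' l p.2 ∧ v' l (ρ l p).2 = v l p.1)
    (iU : ∀ l < m, ∀ p ∈ S ×ˢ S', (U l p).Nonempty → ∀ z, z ∈ U l p ↔ swc (A l) (x l p.1) (x' l p.2) z ∈ U l (ρ l p))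
    (sU : ∀ l < m, ∀ p ∈ S ×ˢ S', ∀ z ∈ U l p, z.1 ∈ Sc l p.1 ∧ z.2 ∈ Sc' l p.2)
    {B : Env → ℝ} {C w ws : ι → Env → ℝ} {C' w' ws' : ι' → Env → ℝ} {F Fw : ℕ → V → Env → ℝ} {o t th : ℝ}
    (hF : ∀ l < m, ∀ y, OffF (A l)ᶜ (F l y)) (hFw : ∀ l < m, ∀ y, OffF (A l)ᶜ (Fw l y))
    (c1 : ∀ l < m, ∀ c ∈ S, ∀ η ∈ Sc l c, |C c η - F l (v l c) (sh (x l c) η)| ≤ t + th * ws c η)
    (w1 : ∀ l < m, ∀ c ∈ S, ∀ η ∈ Sc l c, |w c η - Fw l (v l c) (sh (x l c) η)| ≤ t + th * w c η)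
    (c2 : ∀ l < m, ∀ c ∈ S', ∀ η ∈ Sc' l c, |C' c η - F l (v' l c) (sh (x' l c) η)| ≤ t + th * ws' c η)
    (w2 : ∀ l < m, ∀ c ∈ S', ∀ η ∈ Sc' l c, |w' c η - Fw l (v' l c) (sh (x' l c) η)| ≤ t + th * w' c η)
    (hB : ∀ l < m, ∀ c ∈ S, ∀ d ∈ S, x l c = x l d → ∀ η ∈ Sc l c, ∀ η' ∈ Sc l d,
      (∀ q, q ∉ A l → sh (x l c) η q = sh (x l c) η' q) → |B η - B η'| ≤ o) :
    H60.PDi (law μ) B S S' C w ws C' w' ws' m ρ (fun l p => swc (A l) (x l p.1) (x' l p.2)) U o (2 * t) th := by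
  have key : ∀ l < m, ∀ p ∈ S ×ˢ S', ∀ z ∈ U l p,
      (ρ l p ∈ S ×ˢ S' ∧ x l (ρ l p).1 = x l p.1 ∧ x' l (ρ l p).2 = x' l p.2 ∧ v l (ρ l p).1 = v' l p.2 ∧
        v' l (ρ l p).2 = v l p.1) ∧ (z.1 ∈ Sc l p.1 ∧ z.2 ∈ Sc' l p.2) ∧
      ((swc (A l) (x l p.1) (x' l p.2) z).1 ∈ Sc l (ρ l p).1 ∧ (swc (A l) (x l p.1) (x' l p.2) z).2 ∈ Sc' l (ρ l p).2) := by
    intro l hl p hp z hz
    have hne : (U l p).Nonempty := ⟨z, hz⟩
    have h1 := rin l hl p hp hne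
    have h2 := rx l hl p hp hne
    have h3 := rv l hl p hp hne
    exact ⟨⟨h1, h2.1, h2.2, h3.1, h3.2⟩, sU l hl p hp z hz, sU l hl _ h1 _ ((iU l hl p hp hne z).1 hz)⟩
  refine
    { pa :=
        { mp := fun l _ p _ => mp_swc (A l) (x l p.1) (x' l p.2)
          mA := mU
          dj := dU
          rin := rin
          rr := rr
          inv := iU }
      c1 := ?_
      c2 := ?_
      w1 := ?_
      w2 := ?_
      b := ?_ }
  · intro l hl p hp z hz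
    obtain ⟨⟨h1, h2, h3, h4, h5⟩, ⟨g1, g2⟩, s1, s2⟩ := key l hl p hp z hz
    have k1 := c1 l hl _ (Finset.mem_product.1 h1).1 _ s1
    have k2 := c2 l hl _ (Finset.mem_product.1 hp).2 _ g2
    rw [h2, h4, in1 (hF l hl _) (x l p.1) (x' l p.2) z] at k1
    have e : C (ρ l p).1 (swc (A l) (x l p.1) (x' l p.2) z).1 - C' p.2 z.2 =
        (C (ρ l p).1 (swc (A l) (x l p.1) (x' l p.2) z).1 - F l (v' l p.2) (sh (x' l p.2) z.2)) -
          (C' p.2 z.2 - F l (v' l p.2) (sh (x' l p.2) z.2)) := by ring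
    rw [e]
    exact (abs_sub _ _).trans (by linarith)
  · intro l hl p hp z hz
    obtain ⟨⟨h1, h2, h3, h4, h5⟩, ⟨g1, g2⟩, s1, s2⟩ := key l hl p hp z hz
    have k1 := c2 l hl _ (Finset.mem_product.1 h1).2 _ s2
    have k2 := c1 l hl _ (Finset.mem_product.1 hp).1 _ g1
    rw [h3, h5, in2 (hF l hl _) (x l p.1) (x' l p.2) z] at k1
    have e : C' (ρ l p).2 (swc (A l) (x l p.1) (x' l p.2) z).2 - C p.1 z.1 =
        (C' (ρ l p).2 (swc (A l) (x l p.1) (x' l p.2) z).2 - F l (v l p.1) (sh (x l p.1) z.1)) -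
          (C p.1 z.1 - F l (v l p.1) (sh (x l p.1) z.1)) := by ring
    rw [e]
    exact (abs_sub _ _).trans (by linarith)
  · intro l hl p hp z hz
    obtain ⟨⟨h1, h2, h3, h4, h5⟩, ⟨g1, g2⟩, s1, s2⟩ := key l hl p hp z hz
    have k1 := w1 l hl _ (Finset.mem_product.1 h1).1 _ s1
    have k2 := w2 l hl _ (Finset.mem_product.1 hp).2 _ g2
    rw [h2, h4, in1 (hFw l hl _) (x l p.1) (x' l p.2) z] at k1
    have e : w (ρ l p).1 (swc (A l) (x l p.1) (x' l p.2) z).1 - w' p.2 z.2 =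
        (w (ρ l p).1 (swc (A l) (x l p.1) (x' l p.2) z).1 - Fw l (v' l p.2) (sh (x' l p.2) z.2)) -
          (w' p.2 z.2 - Fw l (v' l p.2) (sh (x' l p.2) z.2)) := by ring
    rw [e]
    exact (abs_sub _ _).trans (by linarith)
  · intro l hl p hp z hz
    obtain ⟨⟨h1, h2, h3, h4, h5⟩, ⟨g1, g2⟩, s1, s2⟩ := key l hl p hp z hz
    have k1 := w2 l hl _ (Finset.mem_product.1 h1).2 _ s2
    have k2 := w1 l hl _ (Finset.mem_product.1 hp).1 _ g1
    rw [h3, h5, in2 (hFw l hl _) (x l p.1) (x' l p.2) z] at k1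
    have e : w' (ρ l p).2 (swc (A l) (x l p.1) (x' l p.2) z).2 - w p.1 z.1 =
        (w' (ρ l p).2 (swc (A l) (x l p.1) (x' l p.2) z).2 - Fw l (v l p.1) (sh (x l p.1) z.1)) -
          (w p.1 z.1 - Fw l (v l p.1) (sh (x l p.1) z.1)) := by ring
    rw [e]
    exact (abs_sub _ _).trans (by linarith)
  · intro l hl p hp z hz
    obtain ⟨⟨h1, h2, h3, h4, h5⟩, ⟨g1, g2⟩, s1, s2⟩ := key l hl p hp z hz
    refine hB l hl _ (Finset.mem_product.1 h1).1 _ (Finset.mem_product.1 hp).1 h2 _ s1 _ g1 fun q hq => ?_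
    rw [h2, c1_swc, gl_of_not_mem hq]

end

end Pool.Agent.W_7d29a1_C1.Pd9
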