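import Pool.Agent.W_7d29a1_C1.Pd9
import Pool.Agent.W_7d29a1_C1.AsmR9

/-!
Both halves (MP_7d29a1_pr), attractor route: THE EXCHANGE WITH A RELATIVE ERROR, FROM LOCAL DATA. (helper9)

`pdr_gen9`: from any family of disjoint sets of pairs which are invariant under the exchange of `A i`; `pdr9`: from `LocD`.
-/

set_option autoImplicit false

namespace Pool.Agent.W_7d29a1_C1.Pd9

open MeasureTheory ProbabilityTheory
open Pool.Agent.W_7d29a1_F Pool.Agent.W_7d29a1_C1.S71 Pool.Agent.W_7d29a1_C1.Sw9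
open scoped ENNReal Classical

noncomputable section

variable {μ : Measure ℝ} [IsProbabilityMeasure μ]

/-- **`PDr` FROM LOCAL DATA, general form.** `U i` = the pairs exchanged at the scale `i` (disjoint, exactly invariant under
the exchange of `A i`); on `U i` both copies are successful: `Sc i`, `Sc' i`. `F i`, `Fw i` = the same functions of `A i` for
both contexts. -/
theorem pdr_gen9 {m : ℕ} {A : ℕ → Set Pt} {Sc Sc' : ℕ → Set Env} {p p' : Pt} {U : ℕ → Set (Env × Env)}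
    (mU : ∀ i, MeasurableSet (U i)) (dU : Pairwise fun i j => Disjoint (U i) (U j))
    (iU : ∀ i < m, ∀ z, z ∈ U i ↔ swc (A i) p p' z ∈ U i)
    (sU : ∀ i < m, ∀ z ∈ U i, sh p z.1 ∈ Sc i ∧ sh p' z.2 ∈ Sc' i) {B C w ws C' w' ws' : Env → ℝ} {F Fw : ℕ → Env → ℝ}
    {o t th : ℝ} (hF : ∀ i < m, OffF (A i)ᶜ (F i)) (hFw : ∀ i < m, OffF (A i)ᶜ (Fw i))
    (c1 : ∀ i < m, ∀ η, sh p η ∈ Sc i → |C η - F i (sh p η)| ≤ t + th * ws η)
    (w1 : ∀ i < m, ∀ η, sh p η ∈ Sc i → |w η - Fw i (sh p η)| ≤ t + th * w η)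
    (c2 : ∀ i < m, ∀ η, sh p' η ∈ Sc' i → |C' η - F i (sh p' η)| ≤ t + th * ws' η)
    (w2 : ∀ i < m, ∀ η, sh p' η ∈ Sc' i → |w' η - Fw i (sh p' η)| ≤ t + th * w' η)
    (hB : ∀ i < m, ∀ η η', sh p η ∈ Sc i → sh p η' ∈ Sc i → (∀ q, q ∉ A i → sh p η q = sh p η' q) → |B η - B η'| ≤ o) :
    H60.PDr (law μ) B C w ws C' w' ws' m (fun i => swc (A i) p p') U (fun _ => ∅) o (2 * t) th := by
  have hJ : ∀ i < m, ∀ z ∈ U i, (sh p z.1 ∈ Sc i ∧ sh p' z.2 ∈ Sc' i) ∧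
      (sh p (swc (A i) p p' z).1 ∈ Sc i ∧ sh p' (swc (A i) p p' z).2 ∈ Sc' i) :=
    fun i hi z hz => ⟨sU i hi z hz, sU i hi _ ((iU i hi z).1 hz)⟩
  refine ⟨fun i _ => mp_swc (A i) p p', mU, fun _ => MeasurableSet.empty, dU, fun i hi z _ => iU i hi z, ?_, ?_, ?_, ?_, ?_⟩
  · intro i hi z hz
    obtain ⟨hz1, hz2⟩ := hJ i hi z hz
    have k1 := c1 i hi (swc (A i) p p' z).1 hz2.1
    have k2 := c2 i hi z.2 hz1.2
    rw [in1 (hF i hi) p p' z] at k1
    have e : C (swc (A i) p p' z).1 - C' z.2 =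
        (C (swc (A i) p p' z).1 - F i (sh p' z.2)) - (C' z.2 - F i (sh p' z.2)) := by ring
    rw [e]
    exact (abs_sub _ _).trans (by linarith)
  · intro i hi z hz
    obtain ⟨hz1, hz2⟩ := hJ i hi z hz
    have k1 := c2 i hi (swc (A i) p p' z).2 hz2.2
    have k2 := c1 i hi z.1 hz1.1
    rw [in2 (hF i hi) p p' z] at k1
    have e : C' (swc (A i) p p' z).2 - C z.1 =
        (C' (swc (A i) p p' z).2 - F i (sh p z.1)) - (C z.1 - F i (sh p z.1)) := by ring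
    rw [e]
    exact (abs_sub _ _).trans (by linarith)
  · intro i hi z hz
    obtain ⟨hz1, hz2⟩ := hJ i hi z hz
    have k1 := w1 i hi (swc (A i) p p' z).1 hz2.1
    have k2 := w2 i hi z.2 hz1.2
    rw [in1 (hFw i hi) p p' z] at k1
    have e : w (swc (A i) p p' z).1 - w' z.2 =
        (w (swc (A i) p p' z).1 - Fw i (sh p' z.2)) - (w' z.2 - Fw i (sh p' z.2)) := by ring
    rw [e]
    exact (abs_sub _ _).trans (by linarith)
  · intro i hi z hz
    obtain ⟨hz1, hz2⟩ := hJ i hi z hz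
    have k1 := w2 i hi (swc (A i) p p' z).2 hz2.2
    have k2 := w1 i hi z.1 hz1.1
    rw [in2 (hFw i hi) p p' z] at k1
    have e : w' (swc (A i) p p' z).2 - w z.1 =
        (w' (swc (A i) p p' z).2 - Fw i (sh p z.1)) - (w z.1 - Fw i (sh p z.1)) := by ring
    rw [e]
    exact (abs_sub _ _).trans (by linarith)
  · intro i hi z hz
    obtain ⟨hz1, hz2⟩ := hJ i hi z hz
    refine hB i hi _ _ hz2.1 hz1.1 fun q hq => ?_
    rw [c1_swc, gl_of_not_mem hq]

variable {m : ℕ} {A Q : ℕ → Set Pt} {SA SA' SB : ℕ → Set Env} {κ : Type*} {Bk : κ → Set Pt} {E : ℕ → κ → Set Env}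
  {Ks : ℕ → Set κ} {p p' : Pt}

theorem LocD.mO (h : LocD m A Q SA SA' SB Bk E Ks) (p p' : Pt) (i : ℕ) :
    MeasurableSet (if i < m then H54.outer (Jo p p' SA SA' SB E Ks) m i else (∅ : Set (Env × Env))) := by
  by_cases hi : i < m
  · rw [if_pos hi]
    have : H54.outer (Jo p p' SA SA' SB E Ks) m i =
        Jo p p' SA SA' SB E Ks i ∩ ⋂ j ∈ Finset.Ioo i m, (Jo p p' SA SA' SB E Ks j)ᶜ := by
      ext z
      unfold H54.outer
      simp only [Set.mem_ofPred_eq, Set.mem_inter_iff, Set.mem_iInter, Finset.mem_Ioo, Set.mem_compl_iff]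
      exact and_congr_right fun _ => ⟨fun hh j hj => hh j hj.1 hj.2, fun hh j h1 h2 => hh j ⟨h1, h2⟩⟩
    rw [this]
    exact (h.mJ p p' i).inter (Finset.measurableSet_biInter _ fun j _ => (h.mJ p p' j).compl)
  · rw [if_neg hi]
    exact MeasurableSet.empty

/-- The outermost joint success at the scale `i` is exactly invariant. -/
theorem LocD.iO (h : LocD m A Q SA SA' SB Bk E Ks) (p p' : Pt) {i : ℕ} (hi : i < m) (z : Env × Env) :
    z ∈ (if i < m then H54.outer (Jo p p' SA SA' SB E Ks) m i else (∅ : Set (Env × Env))) ↔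
      swc (A i) p p' z ∈ (if i < m then H54.outer (Jo p p' SA SA' SB E Ks) m i else (∅ : Set (Env × Env))) := by
  rw [if_pos hi]
  unfold H54.outer
  simp only [Set.mem_ofPred_eq]
  rw [h.inv p p' hi hi le_rfl z]
  refine and_congr_right fun _ => forall_congr' fun j => forall_congr' fun h1 => forall_congr' fun h2 => ?_
  rw [h.inv p p' hi h2 h1.le z]

/-- **`PDr` FROM `LocD`.** -/
theorem pdr9 (h : LocD m A Q SA SA' SB Bk E Ks) {B C w ws C' w' ws' : Env → ℝ} {F Fw : ℕ → Env → ℝ} {o t th : ℝ}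
    (hF : ∀ i < m, OffF (A i)ᶜ (F i)) (hFw : ∀ i < m, OffF (A i)ᶜ (Fw i))
    (c1 : ∀ i < m, ∀ η, sh p η ∈ Suc SA SB E Ks i → |C η - F i (sh p η)| ≤ t + th * ws η)
    (w1 : ∀ i < m, ∀ η, sh p η ∈ Suc SA SB E Ks i → |w η - Fw i (sh p η)| ≤ t + th * w η)
    (c2 : ∀ i < m, ∀ η, sh p' η ∈ Suc SA' SB E Ks i → |C' η - F i (sh p' η)| ≤ t + th * ws' η)
    (w2 : ∀ i < m, ∀ η, sh p' η ∈ Suc SA' SB E Ks i → |w' η - Fw i (sh p' η)| ≤ t + th * w' η)
    (hB : ∀ i < m, ∀ η η', sh p η ∈ Suc SA SB E Ks i → sh p η' ∈ Suc SA SB E Ks i →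
      (∀ q, q ∉ A i → sh p η q = sh p η' q) → |B η - B η'| ≤ o) :
    H60.PDr (law μ) B C w ws C' w' ws' m (fun i => swc (A i) p p')
      (fun i => if i < m then H54.outer (Jo p p' SA SA' SB E Ks) m i else ∅) (fun _ => ∅) o (2 * t) th := by
  refine pdr_gen9 (h.mO p p') (outer_disjoint _ m) (fun i hi z => h.iO p p' hi z) (fun i hi z hz => ?_) hF hFw c1 w1 c2 w2 hB
  rw [if_pos hi] at hz
  exact hz.1

end

end Pool.Agent.W_7d29a1_C1.Pd9
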