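import Pool.Agent.W_7d29a1_F.CoreB2

/-!
Both halves (MP_7d29a1_pr), attractor route, SHELL: the PEIERLS property. (helper89)

Rows `b < n`, cells `z : ℤ`, bad events `Bad b z` (functions of disjoint sets of sites for different `b`, probability `≤ ε`). A coarse
path is `p : ℕ → ℤ`; its variation up to `n` is `tv p n = ∑ |p (b + 1) - p b|`. `pei_one`: one path; `pei_V`: all paths with
`|p 0| ≤ K` and `tv p n ≤ V`; `peierls89`: the number of bad cells is `< δ n` for every coarse path with `tv p n ≤ C n`, off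
probability `exp (- L n)`; `peierls_all89`: it is `< δ (n + tv p n)` for every coarse path with `tv p n ≤ V₀`.
-/

set_option autoImplicit false

namespace Pool.Agent.W_7d29a1_C1.Pei89

open Finset MeasureTheory ProbabilityTheory Pool.Agent.W_7d29a1_F

noncomputable section

/-- The variation of a coarse path. -/
def tv (p : ℕ → ℤ) (n : ℕ) : ℕ := ∑ b ∈ range n, (p (b + 1) - p b).natAbs

lemma tv_mono (p : ℕ → ℤ) {m n : ℕ} (h : m ≤ n) : tv p m ≤ tv p n :=
  sum_le_sum_of_subset (range_subset_range.2 h)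

lemma abs_sub_le_tv (p : ℕ → ℤ) (n : ℕ) : |p n - p 0| ≤ tv p n := by
  induction n with
  | zero => simp [tv]
  | succ n ih =>
    have h1 : (tv p (n + 1) : ℤ) = tv p n + |p (n + 1) - p n| := by
      unfold tv
      rw [sum_range_succ]
      push_cast
      simp
    rw [h1]
    have h2 : |p (n + 1) - p 0| ≤ |p (n + 1) - p n| + |p n - p 0| := by
      have := abs_add_le (p (n + 1) - p n) (p n - p 0)
      rwa [sub_add_sub_cancel] at this
    linarith

/-! ### Counting -/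

/-- The steps. -/
def Stp (n V : ℕ) : Finset (Fin n → ℤ) :=
  (Fintype.piFinset fun _ : Fin n => Icc (-(V : ℤ)) V).filter fun d => ∑ i, (d i).natAbs ≤ V

lemma geo (V : ℕ) : ∑ k ∈ Icc (-(V : ℤ)) V, (1 / 2 : ℝ) ^ k.natAbs ≤ 3 := by
  have h1 : Icc (-(V : ℤ)) V = (range (V + 1)).image (fun k : ℕ => (k : ℤ)) ∪ (range V).image (fun k : ℕ => -((k : ℤ) + 1)) := by
    ext k
    rw [mem_Icc, mem_union, mem_image, mem_image]
    constructor
    · rintro ⟨h2, h3⟩
      rcases le_or_gt 0 k with h | h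
      · left
        exact ⟨k.toNat, by rw [mem_range]; omega, by omega⟩
      · right
        exact ⟨(-k - 1).toNat, by rw [mem_range]; omega, by omega⟩
    · rintro (⟨j, hj, rfl⟩ | ⟨j, hj, rfl⟩)
      · rw [mem_range] at hj
        constructor <;> omega
      · rw [mem_range] at hj
        constructor <;> omega
  rw [h1, sum_union]
  · rw [sum_image, sum_image]
    · have h2 : ∑ k ∈ range (V + 1), (1 / 2 : ℝ) ^ ((k : ℤ)).natAbs = ∑ k ∈ range (V + 1), (1 / 2 : ℝ) ^ k :=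
        sum_congr rfl fun k _ => by rw [Int.natAbs_natCast]
      have h3 : ∑ k ∈ range V, (1 / 2 : ℝ) ^ (-((k : ℤ) + 1)).natAbs = ∑ k ∈ range V, (1 / 2 : ℝ) ^ k * (1 / 2) :=
        sum_congr rfl fun k _ => by
          have : (-((k : ℤ) + 1)).natAbs = k + 1 := by omega
          rw [this, pow_succ]
      have h4 : ∀ m : ℕ, ∑ k ∈ range m, (1 / 2 : ℝ) ^ k ≤ 2 := by
        intro m
        have := summable_geometric_two.sum_le_tsum (range m) fun i _ => by positivity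
        rwa [tsum_geometric_two] at this
      rw [h2, h3, ← sum_mul]
      linarith [h4 (V + 1), h4 V]
    · intro a _ b _ h
      have : -((a : ℤ) + 1) = -((b : ℤ) + 1) := h
      omega
    · intro a _ b _ h
      have : (a : ℤ) = b := h
      omega
  · rw [disjoint_left]
    intro k h2 h3
    rw [mem_image] at h2 h3
    obtain ⟨a, _, rfl⟩ := h2
    obtain ⟨b, _, h4⟩ := h3
    omega

/-- The number of the step sequences with total variation `≤ V`. -/
lemma card_Stp (n V : ℕ) : ((Stp n V).card : ℝ) ≤ 2 ^ V * 3 ^ n := by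
  classical
  have h1 : ((Stp n V).card : ℝ) = ∑ d ∈ Stp n V, (1 : ℝ) := by simp
  rw [h1]
  calc ∑ d ∈ Stp n V, (1 : ℝ) ≤ ∑ d ∈ Stp n V, 2 ^ V * ∏ i, (1 / 2 : ℝ) ^ (d i).natAbs := by
        refine sum_le_sum fun d hd => ?_
        rw [prod_pow_eq_pow_sum]
        have h2 : ∑ i, (d i).natAbs ≤ V := (mem_filter.1 hd).2
        have h3 : (1 / 2 : ℝ) ^ V ≤ (1 / 2) ^ ∑ i, (d i).natAbs := pow_le_pow_of_le_one (by norm_num) (by norm_num) h2
        have h4 := mul_le_mul_of_nonneg_left h3 (show (0 : ℝ) ≤ 2 ^ V by positivity)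
        refine le_trans (le_of_eq ?_) h4
        rw [← mul_pow]
        norm_num
    _ ≤ ∑ d ∈ Fintype.piFinset fun _ : Fin n => Icc (-(V : ℤ)) V, 2 ^ V * ∏ i, (1 / 2 : ℝ) ^ (d i).natAbs :=
        sum_le_sum_of_subset_of_nonneg (filter_subset _ _) fun d _ _ => by positivity
    _ = 2 ^ V * ∏ _i : Fin n, ∑ k ∈ Icc (-(V : ℤ)) V, (1 / 2 : ℝ) ^ k.natAbs := by
        rw [← mul_sum, prod_univ_sum]
    _ ≤ 2 ^ V * ∏ _i : Fin n, (3 : ℝ) := by
        refine mul_le_mul_of_nonneg_left ?_ (by positivity)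
        exact prod_le_prod (fun _ _ => sum_nonneg fun _ _ => by positivity) fun _ _ => geo V
    _ = 2 ^ V * 3 ^ n := by rw [prod_const, card_univ, Fintype.card_fin]

/-- The path of a start and a step sequence. -/
def pth (n : ℕ) (z : ℤ) (d : Fin n → ℤ) (b : ℕ) : ℤ := z + ∑ i : Fin n, if (i : ℕ) < b then d i else 0

lemma exists_stp (p : ℕ → ℤ) (n : ℕ) {V : ℕ} (hV : tv p n ≤ V) :
    (fun i : Fin n => p (i + 1) - p i) ∈ Stp n V ∧ ∀ b ≤ n, pth n (p 0) (fun i : Fin n => p (i + 1) - p i) b = p b := by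
  have h0 : ∑ i : Fin n, (p ((i : ℕ) + 1) - p i).natAbs = tv p n := by
    unfold tv
    rw [Finset.sum_range]
  constructor
  · unfold Stp
    rw [mem_filter, Fintype.mem_piFinset]
    refine ⟨fun i => ?_, by rw [h0]; exact hV⟩
    have h1 : (p ((i : ℕ) + 1) - p i).natAbs ≤ V := by
      refine le_trans ?_ (h0.le.trans hV)
      exact single_le_sum (f := fun i : Fin n => (p ((i : ℕ) + 1) - p i).natAbs) (fun _ _ => Nat.zero_le _) (mem_univ i)
    rw [mem_Icc]
    constructor <;> omega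
  · intro b hb
    have h1 : ∑ i : Fin n, (if (i : ℕ) < b then p ((i : ℕ) + 1) - p i else 0) = ∑ i ∈ range b, (p (i + 1) - p i) := by
      rw [← Finset.sum_range (f := fun i : ℕ => if i < b then p (i + 1) - p i else 0), ← sum_filter]
      refine sum_congr ?_ fun _ _ => rfl
      ext i
      rw [mem_filter, mem_range, mem_range]
      omega
    unfold pth
    rw [h1, sum_range_sub]
    ring

/-! ### Cells of sites -/

/-- The cell of width `w` of the site `x` in the frame `x₀`. -/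
def cel (w : ℕ) (x₀ x : ℤ) : ℤ := (x - x₀) / w

lemma cel_step {w : ℕ} (hw : 1 ≤ w) (x₀ x₀' x x' : ℤ) :
    ((cel w x₀' x' - cel w x₀ x).natAbs : ℤ) ≤ |(x' - x₀') - (x - x₀)| / w + 1 := by
  unfold cel
  have hw0 : (0 : ℤ) < w := by exact_mod_cast hw
  generalize x' - x₀' = u
  generalize x - x₀ = v
  rw [Int.natCast_natAbs]
  have h1 := Int.mul_ediv_add_emod u w
  have h2 := Int.emod_nonneg u hw0.ne'
  have h3 := Int.emod_lt_of_pos u hw0
  have h4 := Int.mul_ediv_add_emod v w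
  have h5 := Int.emod_nonneg v hw0.ne'
  have h6 := Int.emod_lt_of_pos v hw0
  have h7 := Int.mul_ediv_add_emod |u - v| w
  have h8 := Int.emod_nonneg |u - v| hw0.ne'
  have h9 := Int.emod_lt_of_pos |u - v| hw0
  have hu := le_abs_self (u - v)
  have hv := neg_abs_le (u - v)
  rw [abs_le]
  constructor
  · by_contra h10
    push Not at h10
    have h11 : u / w - v / w + (|u - v| / w + 2) ≤ 0 := by omega
    have h12 := mul_le_mul_of_nonneg_left h11 hw0.le
    nlinarith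
  · by_contra h10
    push Not at h10
    have h11 : 0 ≤ u / w - v / w - (|u - v| / w + 2) := by omega
    have h12 := mul_nonneg hw0.le h11
    nlinarith

/-- The coarse path of a sequence of sites: the variation. `x b` = site at the row `b`, `x₀ b` = frame (the line of the slope). -/
lemma tv_cel {w : ℕ} (hw : 1 ≤ w) (x₀ x : ℕ → ℤ) (n : ℕ) {C : ℕ}
    (h : ∑ b ∈ range n, |(x (b + 1) - x₀ (b + 1)) - (x b - x₀ b)| ≤ C * n * w) :
    tv (fun b => cel w (x₀ b) (x b)) n ≤ (C + 1) * n := by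
  have hw0 : (0 : ℤ) < w := by exact_mod_cast hw
  have h1 : ((tv (fun b => cel w (x₀ b) (x b)) n : ℕ) : ℤ) ≤
      ∑ b ∈ range n, (|(x (b + 1) - x₀ (b + 1)) - (x b - x₀ b)| / w + 1) := by
    unfold tv
    push_cast
    exact sum_le_sum fun b _ => by
      have := cel_step hw (x₀ b) (x₀ (b + 1)) (x b) (x (b + 1))
      push_cast at this
      exact this
  have h2 : (w : ℤ) * ∑ b ∈ range n, (|(x (b + 1) - x₀ (b + 1)) - (x b - x₀ b)| / w + 1) ≤
      ∑ b ∈ range n, |(x (b + 1) - x₀ (b + 1)) - (x b - x₀ b)| + n * w := by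
    rw [mul_sum]
    have h3 : ∑ b ∈ range n, (w : ℤ) * (|(x (b + 1) - x₀ (b + 1)) - (x b - x₀ b)| / w + 1) ≤
        ∑ b ∈ range n, (|(x (b + 1) - x₀ (b + 1)) - (x b - x₀ b)| + w) := by
      refine sum_le_sum fun b _ => ?_
      have h4 := Int.mul_ediv_self_le (x := |(x (b + 1) - x₀ (b + 1)) - (x b - x₀ b)|) (k := (w : ℤ)) hw0.ne'
      rw [mul_add, mul_one]
      linarith
    rw [sum_add_distrib, sum_const, card_range, nsmul_eq_mul] at h3
    exact h3
  have h3 : (w : ℤ) * ((tv (fun b => cel w (x₀ b) (x b)) n : ℕ) : ℤ) ≤ w * ((C + 1) * n) := by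
    have := mul_le_mul_of_nonneg_left h1 hw0.le
    have h4 : (w : ℤ) * ((C + 1) * n) = C * n * w + n * w := by ring
    rw [h4]
    linarith
  have h4 := le_of_mul_le_mul_left h3 hw0
  exact_mod_cast h4

/-! ### Probability -/

variable {μ : Measure ℝ} [IsProbabilityMeasure μ]

/-- Independence of events of disjoint sets of sites. -/
lemma prod_ev (s : Finset ℕ) (E : ℕ → Set Env) (S : ℕ → Set Pt) (hm : ∀ b ∈ s, MeasurableSet (E b))
    (hdep : ∀ b ∈ s, ∀ η η' : Env, (∀ q ∈ S b, η q = η' q) → (η ∈ E b ↔ η' ∈ E b))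
    (hdis : ∀ b ∈ s, ∀ b' ∈ s, b ≠ b' → Disjoint (S b) (S b')) :
    (law μ).real (⋂ b ∈ s, E b) = ∏ b ∈ s, (law μ).real (E b) := by
  classical
  have h1 := indep_prod (μ := μ) s (fun b => (E b).indicator fun _ => (1 : ℝ)) S
    (fun b hb => measurable_const.indicator (hm b hb)) (fun b hb η η' hh => by
      show (E b).indicator (fun _ => (1 : ℝ)) η = (E b).indicator (fun _ => (1 : ℝ)) η'
      have h2 := hdep b hb η η' fun q hq => hh q hq
      by_cases h3 : η ∈ E b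
      · rw [Set.indicator_of_mem h3, Set.indicator_of_mem (h2.1 h3)]
      · rw [Set.indicator_of_notMem h3, Set.indicator_of_notMem fun h4 => h3 (h2.2 h4)]) hdis
  have h2 : ∀ b ∈ s, ∫ η, (E b).indicator (fun _ => (1 : ℝ)) η ∂(law μ) = (law μ).real (E b) := by
    intro b hb
    rw [integral_indicator_const _ (hm b hb), smul_eq_mul, mul_one]
  have h3 : ∀ η, ∏ b ∈ s, (E b).indicator (fun _ => (1 : ℝ)) η = (⋂ b ∈ s, E b).indicator (fun _ => (1 : ℝ)) η := by
    intro η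
    by_cases h4 : η ∈ ⋂ b ∈ s, E b
    · rw [Set.indicator_of_mem h4]
      refine prod_eq_one fun b hb => Set.indicator_of_mem ?_ _
      rw [Set.mem_iInter₂] at h4
      exact h4 b hb
    · rw [Set.indicator_of_notMem h4]
      rw [Set.mem_iInter₂] at h4
      push Not at h4
      obtain ⟨b, hb, h5⟩ := h4
      exact prod_eq_zero hb (Set.indicator_of_notMem h5 _)
  have h4 : MeasurableSet (⋂ b ∈ s, E b) := Finset.measurableSet_biInter s hm
  rw [← prod_congr rfl h2, ← h1]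
  simp only [h3]
  rw [integral_indicator_const _ h4, smul_eq_mul, mul_one]

open Classical in
/-- The number of the bad cells of a path. -/
def nb (Bad : ℕ → ℤ → Set Env) (n : ℕ) (p : ℕ → ℤ) (η : Env) : ℕ := ((range n).filter fun b => η ∈ Bad b (p b)).card

variable {Bad : ℕ → ℤ → Set Env} {S : ℕ → Set Pt} {n : ℕ}

/-- One path. -/
theorem pei_one (hm : ∀ b z, MeasurableSet (Bad b z))
    (hdep : ∀ b < n, ∀ z, ∀ η η' : Env, (∀ q ∈ S b, η q = η' q) → (η ∈ Bad b z ↔ η' ∈ Bad b z))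
    (hdis : ∀ b < n, ∀ b' < n, b ≠ b' → Disjoint (S b) (S b')) {ε : ℝ} (hε0 : 0 ≤ ε) (p : ℕ → ℤ)
    (hε : ∀ b < n, (law μ).real (Bad b (p b)) ≤ ε) (m : ℕ) :
    (law μ).real {η | m ≤ nb Bad n p η} ≤ 2 ^ n * ε ^ m := by
  classical
  have hεs : ∀ s ∈ powersetCard m (range n), (law μ).real (⋂ b ∈ s, Bad b (p b)) ≤ ε ^ m := by
    intro s hs
    rw [mem_powersetCard] at hs
    have hlt : ∀ b ∈ s, b < n := fun b hb => mem_range.1 (hs.1 hb)
    rw [prod_ev (μ := μ) s (fun b => Bad b (p b)) S (fun b _ => hm _ _) (fun b hb => hdep b (hlt b hb) (p b))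
      fun b hb b' hb' => hdis b (hlt b hb) b' (hlt b' hb')]
    calc ∏ b ∈ s, (law μ).real (Bad b (p b)) ≤ ∏ _b ∈ s, ε :=
          prod_le_prod (fun _ _ => measureReal_nonneg) fun b hb => hε b (hlt b hb)
      _ = ε ^ m := by rw [prod_const, hs.2]
  have hsub : {η | m ≤ nb Bad n p η} ⊆ ⋃ s ∈ powersetCard m (range n), ⋂ b ∈ s, Bad b (p b) := by
    intro η hη
    have h1 : m ≤ ((range n).filter fun b => η ∈ Bad b (p b)).card := hη
    obtain ⟨s, hs, hc⟩ := exists_subset_card_eq h1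
    rw [Set.mem_iUnion₂]
    refine ⟨s, mem_powersetCard.2 ⟨hs.trans (filter_subset _ _), hc⟩, ?_⟩
    rw [Set.mem_iInter₂]
    intro b hb
    exact (mem_filter.1 (hs hb)).2
  refine (measureReal_mono hsub (measure_ne_top _ _)).trans ?_
  refine (measureReal_biUnion_finset_le _ _).trans ?_
  refine (sum_le_card_nsmul _ _ _ hεs).trans ?_
  rw [card_powersetCard, card_range, nsmul_eq_mul]
  refine mul_le_mul_of_nonneg_right ?_ (pow_nonneg hε0 m)
  exact_mod_cast Nat.choose_le_two_pow n m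

/-- **All paths with a given bound of the variation.** -/
theorem pei_V (hm : ∀ b z, MeasurableSet (Bad b z))
    (hdep : ∀ b < n, ∀ z, ∀ η η' : Env, (∀ q ∈ S b, η q = η' q) → (η ∈ Bad b z ↔ η' ∈ Bad b z))
    (hdis : ∀ b < n, ∀ b' < n, b ≠ b' → Disjoint (S b) (S b')) {ε : ℝ} (hε0 : 0 ≤ ε) (K V : ℕ)
    (hε : ∀ b < n, ∀ z : ℤ, |z| ≤ K + V → (law μ).real (Bad b z) ≤ ε) (m : ℕ) :
    (law μ).real {η | ∃ p : ℕ → ℤ, |p 0| ≤ K ∧ tv p n ≤ V ∧ m ≤ nb Bad n p η} ≤ (2 * K + 1) * (2 ^ V * 6 ^ n) * ε ^ m := by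
  classical
  have hsub : {η | ∃ p : ℕ → ℤ, |p 0| ≤ K ∧ tv p n ≤ V ∧ m ≤ nb Bad n p η} ⊆
      ⋃ q ∈ (Icc (-(K : ℤ)) K ×ˢ Stp n V).filter (fun q => ∀ b < n, |pth n q.1 q.2 b| ≤ K + V),
        {η | m ≤ nb Bad n (pth n q.1 q.2) η} := by
    rintro η ⟨p, h1, h2, h3⟩
    obtain ⟨h4, h5⟩ := exists_stp p n h2
    rw [Set.mem_iUnion₂]
    refine ⟨(p 0, fun i : Fin n => p (i + 1) - p i), ?_, ?_⟩
    · rw [mem_filter, mem_product, mem_Icc]
      refine ⟨⟨abs_le.1 h1, h4⟩, fun b hb => ?_⟩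
      rw [h5 b hb.le]
      have h6 := abs_sub_le_tv p b
      have h7 : (tv p b : ℤ) ≤ V := by
        have := (tv_mono p hb.le).trans h2
        exact_mod_cast this
      have h8 : |p b| ≤ |p b - p 0| + |p 0| := by
        have := abs_add_le (p b - p 0) (p 0)
        rwa [sub_add_cancel] at this
      linarith
    · show m ≤ nb Bad n (pth n (p 0) fun i : Fin n => p (i + 1) - p i) η
      refine h3.trans (le_of_eq ?_)
      unfold nb
      congr 1
      refine filter_congr fun b hb => ?_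
      rw [h5 b (mem_range.1 hb).le]
  refine (measureReal_mono hsub (measure_ne_top _ _)).trans ?_
  refine (measureReal_biUnion_finset_le _ _).trans ?_
  have h1 : ∀ q ∈ (Icc (-(K : ℤ)) K ×ˢ Stp n V).filter (fun q => ∀ b < n, |pth n q.1 q.2 b| ≤ K + V),
      (law μ).real {η | m ≤ nb Bad n (pth n q.1 q.2) η} ≤ 2 ^ n * ε ^ m := by
    intro q hq
    exact pei_one hm hdep hdis hε0 _ (fun b hb => hε b hb _ ((mem_filter.1 hq).2 b hb)) m
  refine (sum_le_card_nsmul _ _ _ h1).trans ?_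
  rw [nsmul_eq_mul]
  have h2 : (((Icc (-(K : ℤ)) K ×ˢ Stp n V).filter (fun q => ∀ b < n, |pth n q.1 q.2 b| ≤ K + V)).card : ℝ) ≤
      (2 * K + 1) * (2 ^ V * 3 ^ n) := by
    have h3 := card_le_card (filter_subset (fun q : ℤ × (Fin n → ℤ) => ∀ b < n, |pth n q.1 q.2 b| ≤ (K : ℤ) + V)
      (Icc (-(K : ℤ)) K ×ˢ Stp n V))
    rw [card_product, Int.card_Icc] at h3
    have h4 : ((K : ℤ) + 1 - -(K : ℤ)).toNat = 2 * K + 1 := by omega
    rw [h4] at h3
    have h5 : ((((Icc (-(K : ℤ)) K ×ˢ Stp n V).filter (fun q => ∀ b < n, |pth n q.1 q.2 b| ≤ K + V)).card : ℕ) : ℝ) ≤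
        (((2 * K + 1) * (Stp n V).card : ℕ) : ℝ) := by exact_mod_cast h3
    refine h5.trans ?_
    push_cast
    exact mul_le_mul_of_nonneg_left (card_Stp n V) (by positivity)
  calc _ ≤ (2 * K + 1) * (2 ^ V * 3 ^ n) * (2 ^ n * ε ^ m) := mul_le_mul_of_nonneg_right h2 (by positivity)
    _ = (2 * K + 1) * (2 ^ V * 6 ^ n) * ε ^ m := by
        have : (6 : ℝ) ^ n = 3 ^ n * 2 ^ n := by rw [← mul_pow]; norm_num
        rw [this]
        ring

/-- **THE PEIERLS PROPERTY.** Every coarse path with variation `≤ C n` has fewer than `δ n` bad cells, off probability `exp (- L n)`. -/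
theorem peierls89 (K C : ℕ) (L : ℝ) {δ : ℝ} (hδ : 0 < δ) : ∃ ε₀ : ℝ, 0 < ε₀ ∧ ∀ (μ : Measure ℝ) [IsProbabilityMeasure μ] (n : ℕ)
    (Bad : ℕ → ℤ → Set Env) (S : ℕ → Set Pt), 1 ≤ n → (∀ b z, MeasurableSet (Bad b z)) →
    (∀ b < n, ∀ z, ∀ η η' : Env, (∀ q ∈ S b, η q = η' q) → (η ∈ Bad b z ↔ η' ∈ Bad b z)) →
    (∀ b < n, ∀ b' < n, b ≠ b' → Disjoint (S b) (S b')) →
    (∀ b < n, ∀ z : ℤ, |z| ≤ K + C * n → (law μ).real (Bad b z) ≤ ε₀) →
    (law μ).real {η | ∃ p : ℕ → ℤ, |p 0| ≤ K ∧ tv p n ≤ C * n ∧ δ * n ≤ nb Bad n p η} ≤ Real.exp (-(L * n)) := by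
  obtain ⟨B, hB⟩ : ∃ B : ℝ, B = |L| + 2 * K + (C : ℝ) + 6 := ⟨_, rfl⟩
  have hB0 : 0 < B := by rw [hB]; positivity
  refine ⟨Real.exp (-(B / δ)), Real.exp_pos _, fun μ _ n Bad S hn hm hdep hdis hε => ?_⟩
  have hn1 : (1 : ℝ) ≤ n := by exact_mod_cast hn
  obtain ⟨m, hmd⟩ : ∃ m : ℕ, m = ⌈δ * n⌉₊ := ⟨_, rfl⟩
  have hm1 : δ * n ≤ m := by rw [hmd]; exact Nat.le_ceil _
  have hsub : {η | ∃ p : ℕ → ℤ, |p 0| ≤ K ∧ tv p n ≤ C * n ∧ δ * n ≤ nb Bad n p η} ⊆
      {η | ∃ p : ℕ → ℤ, |p 0| ≤ K ∧ tv p n ≤ C * n ∧ m ≤ nb Bad n p η} := by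
    rintro η ⟨p, h1, h2, h3⟩
    refine ⟨p, h1, h2, ?_⟩
    rw [hmd]
    exact Nat.ceil_le.2 h3
  have h1 := pei_V (μ := μ) (n := n) (S := S) hm hdep hdis (Real.exp_pos (-(B / δ))).le K (C * n) (fun b hb z hz => hε b hb z (by
    push_cast at hz
    exact hz)) m
  refine (measureReal_mono hsub (measure_ne_top _ _)).trans (h1.trans ?_)
  have e1 : Real.exp (-(B / δ)) ^ m ≤ Real.exp (-(B * n)) := by
    rw [← Real.exp_nat_mul]
    refine Real.exp_le_exp.2 ?_
    have h2 : B / δ * (δ * n) ≤ B / δ * m := mul_le_mul_of_nonneg_left hm1 (by positivity)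
    have h3 : B / δ * (δ * n) = B * n := by field_simp
    rw [h3] at h2
    linarith
  have e2 : (2 * (K : ℝ) + 1) ≤ Real.exp ((2 * K : ℝ) * n) := by
    have h2 := Real.add_one_le_exp ((2 * K : ℝ) * n)
    have h3 : (2 * K : ℝ) * 1 ≤ 2 * K * n := mul_le_mul_of_nonneg_left hn1 (by positivity)
    linarith
  have e3 : (2 : ℝ) ^ (C * n) ≤ Real.exp ((C : ℝ) * n) := by
    have h2 : (2 : ℝ) ≤ Real.exp 1 := by
      have := Real.add_one_le_exp (1 : ℝ)
      linarith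
    calc (2 : ℝ) ^ (C * n) ≤ Real.exp 1 ^ (C * n) := pow_le_pow_left₀ (by norm_num) h2 _
      _ = Real.exp ((C : ℝ) * n) := by rw [← Real.exp_nat_mul, mul_one]; push_cast; rfl
  have e4 : (6 : ℝ) ^ n ≤ Real.exp (6 * (n : ℝ)) := by
    have h2 : (6 : ℝ) ≤ Real.exp 6 := by
      have := Real.add_one_le_exp (6 : ℝ)
      linarith
    calc (6 : ℝ) ^ n ≤ Real.exp 6 ^ n := pow_le_pow_left₀ (by norm_num) h2 _
      _ = Real.exp (6 * (n : ℝ)) := by rw [← Real.exp_nat_mul, mul_comm]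
  calc (2 * (K : ℝ) + 1) * (2 ^ (C * n) * 6 ^ n) * Real.exp (-(B / δ)) ^ m
      ≤ Real.exp ((2 * K : ℝ) * n) * (Real.exp ((C : ℝ) * n) * Real.exp (6 * (n : ℝ))) * Real.exp (-(B * n)) := by
        refine mul_le_mul (mul_le_mul e2 (mul_le_mul e3 e4 (by positivity) (Real.exp_pos _).le) (by positivity)
          (Real.exp_pos _).le) e1 (by positivity) (by positivity)
    _ = Real.exp (-(|L| * n)) := by
        rw [← Real.exp_add, ← Real.exp_add, ← Real.exp_add, hB]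
        congr 1
        ring
    _ ≤ Real.exp (-(L * n)) := by
        refine Real.exp_le_exp.2 ?_
        have := mul_le_mul_of_nonneg_right (le_abs_self L) (show (0 : ℝ) ≤ n by linarith)
        linarith

/-- **The Peierls property with the price of the variation**: every coarse path with variation `≤ V₀` has fewer than `δ (n + tv)` bad
cells. -/
theorem peierls_all89 (K : ℕ) (L : ℝ) {δ : ℝ} (hδ : 0 < δ) : ∃ ε₀ : ℝ, 0 < ε₀ ∧ ∀ (μ : Measure ℝ) [IsProbabilityMeasure μ]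
    (n V₀ : ℕ) (Bad : ℕ → ℤ → Set Env) (S : ℕ → Set Pt), 1 ≤ n → (∀ b z, MeasurableSet (Bad b z)) →
    (∀ b < n, ∀ z, ∀ η η' : Env, (∀ q ∈ S b, η q = η' q) → (η ∈ Bad b z ↔ η' ∈ Bad b z)) →
    (∀ b < n, ∀ b' < n, b ≠ b' → Disjoint (S b) (S b')) →
    (∀ b < n, ∀ z : ℤ, |z| ≤ K + V₀ → (law μ).real (Bad b z) ≤ ε₀) →
    (law μ).real {η | ∃ p : ℕ → ℤ, |p 0| ≤ K ∧ tv p n ≤ V₀ ∧ δ * (n + tv p n) ≤ nb Bad n p η} ≤ Real.exp (-(L * n)) := by
  obtain ⟨B, hB⟩ : ∃ B : ℝ, B = |L| + 2 * K + 8 := ⟨_, rfl⟩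
  have hB0 : 0 < B := by rw [hB]; positivity
  refine ⟨Real.exp (-(B / δ)), Real.exp_pos _, fun μ _ n V₀ Bad S hn hm hdep hdis hε => ?_⟩
  have hn1 : (1 : ℝ) ≤ n := by exact_mod_cast hn
  let m : ℕ → ℕ := fun V => ⌈δ * (n + V)⌉₊
  have hm1 : ∀ V : ℕ, δ * (n + V) ≤ m V := fun V => Nat.le_ceil _
  have hsub : {η | ∃ p : ℕ → ℤ, |p 0| ≤ K ∧ tv p n ≤ V₀ ∧ δ * (n + tv p n) ≤ nb Bad n p η} ⊆
      ⋃ V ∈ range (V₀ + 1), {η | ∃ p : ℕ → ℤ, |p 0| ≤ K ∧ tv p n ≤ V ∧ m V ≤ nb Bad n p η} := by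
    rintro η ⟨p, h1, h2, h3⟩
    rw [Set.mem_iUnion₂]
    exact ⟨tv p n, by rw [mem_range]; omega, p, h1, le_rfl, Nat.ceil_le.2 h3⟩
  refine (measureReal_mono hsub (measure_ne_top _ _)).trans ?_
  refine (measureReal_biUnion_finset_le _ _).trans ?_
  have h1 : ∀ V ∈ range (V₀ + 1), (law μ).real {η | ∃ p : ℕ → ℤ, |p 0| ≤ K ∧ tv p n ≤ V ∧ m V ≤ nb Bad n p η} ≤
      Real.exp (-((|L| + 1) * n)) * (1 / 2) ^ V := by
    intro V hV
    rw [mem_range] at hV
    have h2 := pei_V (μ := μ) (n := n) (S := S) hm hdep hdis (Real.exp_pos (-(B / δ))).le K V (fun b hb z hz => hε b hb z (by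
      have : (V : ℤ) ≤ V₀ := by omega
      linarith)) (m V)
    refine h2.trans ?_
    have e1 : Real.exp (-(B / δ)) ^ m V ≤ Real.exp (-(B * (n + V))) := by
      rw [← Real.exp_nat_mul]
      refine Real.exp_le_exp.2 ?_
      have h2 : B / δ * (δ * (n + V)) ≤ B / δ * m V := mul_le_mul_of_nonneg_left (hm1 V) (by positivity)
      have h3 : B / δ * (δ * (n + V)) = B * (n + V) := by field_simp
      rw [h3] at h2
      linarith
    have e2 : (2 * (K : ℝ) + 1) ≤ Real.exp ((2 * K : ℝ) * n) := by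
      have h2 := Real.add_one_le_exp ((2 * K : ℝ) * n)
      have h3 : (2 * K : ℝ) * 1 ≤ 2 * K * n := mul_le_mul_of_nonneg_left hn1 (by positivity)
      linarith
    have hV0 : (0 : ℝ) ≤ V := Nat.cast_nonneg V
    have e21 : (2 : ℝ) ≤ Real.exp 1 := by
      have := Real.add_one_le_exp (1 : ℝ)
      linarith
    have e3 : (2 : ℝ) ^ V ≤ Real.exp (V : ℝ) := by
      calc (2 : ℝ) ^ V ≤ Real.exp 1 ^ V := pow_le_pow_left₀ (by norm_num) e21 _
        _ = Real.exp (V : ℝ) := by rw [← Real.exp_nat_mul, mul_one]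
    have e4 : (6 : ℝ) ^ n ≤ Real.exp (6 * (n : ℝ)) := by
      have h2 : (6 : ℝ) ≤ Real.exp 6 := by
        have := Real.add_one_le_exp (6 : ℝ)
        linarith
      calc (6 : ℝ) ^ n ≤ Real.exp 6 ^ n := pow_le_pow_left₀ (by norm_num) h2 _
        _ = Real.exp (6 * (n : ℝ)) := by rw [← Real.exp_nat_mul, mul_comm]
    have e5 : Real.exp (-(V : ℝ)) ≤ (1 / 2) ^ V := by
      have h2 : Real.exp (-1) ≤ 1 / 2 := by
        rw [Real.exp_neg, one_div]
        exact inv_anti₀ (by norm_num) e21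
      calc Real.exp (-(V : ℝ)) = Real.exp (-1) ^ V := by rw [← Real.exp_nat_mul]; congr 1; ring
        _ ≤ (1 / 2) ^ V := pow_le_pow_left₀ (Real.exp_pos _).le h2 _
    have hBV : (2 : ℝ) * V ≤ B * V := mul_le_mul_of_nonneg_right (by rw [hB]; linarith [abs_nonneg L, Nat.cast_nonneg (α := ℝ) K]) hV0
    calc (2 * (K : ℝ) + 1) * (2 ^ V * 6 ^ n) * Real.exp (-(B / δ)) ^ m V
        ≤ Real.exp ((2 * K : ℝ) * n) * (Real.exp (V : ℝ) * Real.exp (6 * (n : ℝ))) * Real.exp (-(B * (n + V))) := by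
          refine mul_le_mul (mul_le_mul e2 (mul_le_mul e3 e4 (by positivity) (Real.exp_pos _).le) (by positivity)
            (Real.exp_pos _).le) e1 (by positivity) (by positivity)
      _ ≤ Real.exp (-((|L| + 1) * n)) * Real.exp (-(V : ℝ)) := by
          rw [← Real.exp_add, ← Real.exp_add, ← Real.exp_add, ← Real.exp_add]
          refine Real.exp_le_exp.2 ?_
          rw [mul_add]
          have h3 : B * (n : ℝ) = |L| * n + 2 * K * n + 8 * n := by rw [hB]; ring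
          rw [h3]
          nlinarith
      _ ≤ _ := mul_le_mul_of_nonneg_left e5 (Real.exp_pos _).le
  refine (sum_le_sum h1).trans ?_
  rw [← mul_sum]
  have h2 : ∑ V ∈ range (V₀ + 1), (1 / 2 : ℝ) ^ V ≤ 2 := by
    have := summable_geometric_two.sum_le_tsum (range (V₀ + 1)) fun i _ => by positivity
    rwa [tsum_geometric_two] at this
  have h3 : (2 : ℝ) ≤ Real.exp (n : ℝ) := by
    have := Real.add_one_le_exp (n : ℝ)
    linarith
  calc Real.exp (-((|L| + 1) * n)) * ∑ V ∈ range (V₀ + 1), (1 / 2 : ℝ) ^ V ≤ Real.exp (-((|L| + 1) * n)) * Real.exp (n : ℝ) :=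
        mul_le_mul_of_nonneg_left (h2.trans h3) (Real.exp_pos _).le
    _ = Real.exp (-(|L| * n)) := by
        rw [← Real.exp_add]
        congr 1
        ring
    _ ≤ Real.exp (-(L * n)) := by
        refine Real.exp_le_exp.2 ?_
        have := mul_le_mul_of_nonneg_right (le_abs_self L) (show (0 : ℝ) ≤ n by linarith)
        linarith

end

end Pool.Agent.W_7d29a1_C1.Pei89
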