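import Pool.Agent.W_7d29a1_C1.PertX97

/-!
MP_7d29a1_pr, the attractor route: THE LEVEL INTEGRATED CONTACT AND MEETING FUNCTIONALS on a success. (helper97)

`Int ct (ml, exp (- a) mr; f) da` (the whole line) is the same functional of the inside up to a tiny error, and the same for `pt`,
whose integral is `determinant * weights / (total left * total right)`.
-/

set_option autoImplicit false

namespace Pool.Agent.W_7d29a1_C1.K97

open Finset K91 MeasureTheory

noncomputable section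

variable {A1 A2 B1 B2 : ℝ} {p : ℝ} {lo hi : ℤ} {wk ml mr f f' f1 f2 u v : ℤ → ℝ} {q : ℤ} {kap eta rr : ℝ}

/-- The totals of two groups are comparable. -/
structure Rat (lo hi : ℤ) (p : ℝ) (wk f : ℤ → ℝ) (q : ℤ) (rr : ℝ) (u v : ℤ → ℝ) : Prop where
  r0 : 0 ≤ rr
  z1 : 0 < rz lo hi p wk u f q
  z2 : 0 < rz lo hi p wk v f q
  z12 : rz lo hi p wk u f q ≤ rr * rz lo hi p wk v f q
  z21 : rz lo hi p wk v f q ≤ rr * rz lo hi p wk u f q
  t1 : 0 < rt lo hi p wk u f q
  t2 : 0 < rt lo hi p wk v f q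
  t12 : rt lo hi p wk u f q ≤ rr * rt lo hi p wk v f q
  t21 : rt lo hi p wk v f q ≤ rr * rt lo hi p wk u f q
  m1 : 0 < tm lo hi p wk u f
  m2 : 0 < tm lo hi p wk v f
  m12 : tm lo hi p wk u f ≤ rr * tm lo hi p wk v f
  m21 : tm lo hi p wk v f ≤ rr * tm lo hi p wk u f

theorem Cell.rat (h : Cell lo hi A1 A2 B1 B2 kap eta rr p wk f f' ml mr f1 f2 q) : Rat lo hi p wk f' q rr f1 f2 :=
  ⟨h.r0, h.z1, h.z2, h.z12, h.z21, h.t1, h.t2, h.t12, h.t21, h.m1, h.m2, h.m12, h.m21⟩

/-- A ratio of totals at the level `c`: the right group has a small share. -/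
theorem lev_share_r {Z1 Z2 rr c : ℝ} (r0 : 0 ≤ rr) (h2 : 0 < Z2) (h : Z2 ≤ rr * Z1) :
    Real.exp (-c) * Z2 ≤ (rr * Real.exp (-c)) * (Z1 + Real.exp (-c) * Z2) := by
  have e0 := Real.exp_pos (-c)
  have i1 := mul_le_mul_of_nonneg_left h e0.le
  have i2 : 0 ≤ rr * Real.exp (-c) * (Real.exp (-c) * Z2) := by positivity
  linarith

/-- A ratio of totals at the level `c`: the left group has a small share. -/
theorem lev_share_l {Z1 Z2 rr c : ℝ} (r0 : 0 ≤ rr) (h1 : 0 < Z1) (h : Z1 ≤ rr * Z2) :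
    Z1 ≤ (rr * Real.exp c) * (Z1 + Real.exp (-c) * Z2) := by
  have e1 := Real.exp_pos c
  have ee : Real.exp c * Real.exp (-c) = 1 := by rw [← Real.exp_add, add_neg_cancel, Real.exp_zero]
  have i2 : 0 ≤ rr * Real.exp c * Z1 := by positivity
  have i3 : rr * Real.exp c * (Real.exp (-c) * Z2) = rr * Z2 := by
    linear_combination (rr * Z2) * ee
  rw [mul_add, i3]
  linarith

/-- **Decay of the contact functional in the level.** -/
theorem ct_decay (hp : 0 < p) (hw : ∀ y, 0 < wk y) (hf : ∀ y, 0 < f y) (R : Reg lo hi wk f q kap)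
    (gu : ∀ y, 0 ≤ u y) (gv : ∀ y, 0 ≤ v y) (h : Rat lo hi p wk f q rr u v) (c : ℝ) :
    |ct lo hi p wk u (fun y => Real.exp (-c) * v y) f q| ≤ 3 * kap ^ 8 * rr * Real.exp (-|c|) := by
  have k1 := R.k1
  have kp : 0 < kap := by linarith
  have z1 := h.z1
  have z2 := h.z2
  have t1 := h.t1
  have t2 := h.t2
  have r0 := h.r0
  have e0 := Real.exp_pos (-c)
  have gv' : ∀ y, 0 ≤ Real.exp (-c) * v y := fun y => mul_nonneg e0.le (gv y)
  have k38 : kap ^ 3 ≤ kap ^ 8 := pow_le_pow_right₀ k1 (by norm_num)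
  have Pz : 0 < rz lo hi p wk (fun y => u y + Real.exp (-c) * v y) f q := by
    rw [rz_add_smul]
    positivity
  have Pt : 0 < rt lo hi p wk (fun y => u y + Real.exp (-c) * v y) f q := by
    rw [rt_add_smul]
    positivity
  have fin : ∀ {t : ℝ}, 0 ≤ t → |ctg lo hi p wk u (fun y => Real.exp (-c) * v y) f q| ≤ 2 * kap ^ 8 * t →
      |ctl lo hi p wk u (fun y => Real.exp (-c) * v y) f q| ≤ kap ^ 3 * t →
      |ct lo hi p wk u (fun y => Real.exp (-c) * v y) f q| ≤ 3 * kap ^ 8 * t := by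
    intro t ht i1 i2
    unfold ct
    refine (abs_sub _ _).trans ?_
    have := mul_le_mul_of_nonneg_right k38 ht
    linarith
  refine abs_le_exp_abs ?_ ?_
  · have j1 : rz lo hi p wk (fun y => Real.exp (-c) * v y) f q ≤
        (rr * Real.exp (-c)) * rz lo hi p wk (fun y => u y + Real.exp (-c) * v y) f q := by
      rw [rz_smul, rz_add_smul]
      exact lev_share_r r0 z2 h.z21
    have j2 : rt lo hi p wk (fun y => Real.exp (-c) * v y) f q ≤
        (rr * Real.exp (-c)) * rt lo hi p wk (fun y => u y + Real.exp (-c) * v y) f q := by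
      rw [rt_smul, rt_add_smul]
      exact lev_share_r r0 t2 h.t21
    have := fin (by positivity) (ctg_small hp hw hf R gu gv' Pz (Or.inl j1)) (ctl_small hp hw hf R gu gv' Pt (Or.inl j2))
    linarith
  · have j1 : rz lo hi p wk u f q ≤ (rr * Real.exp c) * rz lo hi p wk (fun y => u y + Real.exp (-c) * v y) f q := by
      rw [rz_add_smul]
      exact lev_share_l r0 z1 h.z12
    have j2 : rt lo hi p wk u f q ≤ (rr * Real.exp c) * rt lo hi p wk (fun y => u y + Real.exp (-c) * v y) f q := by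
      rw [rt_add_smul]
      exact lev_share_l r0 t1 h.t12
    have := fin (by positivity) (ctg_small hp hw hf R gu gv' Pz (Or.inr j1)) (ctl_small hp hw hf R gu gv' Pt (Or.inr j2))
    linarith

/-- **Decay of the meeting functional in the level.** -/
theorem pt_decay (hp : 0 < p) (hw : ∀ y, 0 < wk y) (hf : ∀ y, 0 < f y) (hq1 : q - 1 ∈ Icc lo hi) (hq2 : q ∈ Icc lo hi)
    (gu : ∀ y, 0 ≤ u y) (gv : ∀ y, 0 ≤ v y) (h : Rat lo hi p wk f q rr u v) (c : ℝ) :
    |pt lo hi p wk u (fun y => Real.exp (-c) * v y) f q| ≤ 2 * rr * Real.exp (-|c|) := by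
  have m1 := h.m1
  have m2 := h.m2
  have r0 := h.r0
  have e0 := Real.exp_pos (-c)
  have gv' : ∀ y, 0 ≤ Real.exp (-c) * v y := fun y => mul_nonneg e0.le (gv y)
  have Pm : 0 < tm lo hi p wk (fun y => u y + Real.exp (-c) * v y) f := by
    rw [tm_add_smul]
    positivity
  refine abs_le_exp_abs ?_ ?_
  · have j1 : tm lo hi p wk (fun y => Real.exp (-c) * v y) f ≤
        (rr * Real.exp (-c)) * tm lo hi p wk (fun y => u y + Real.exp (-c) * v y) f := by
      rw [tm_smul, tm_add_smul]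
      exact lev_share_r r0 m2 h.m21
    have := pt_small hp hw hf hq1 hq2 gu gv' Pm (Or.inl j1)
    linarith
  · have j1 : tm lo hi p wk u f ≤ (rr * Real.exp c) * tm lo hi p wk (fun y => u y + Real.exp (-c) * v y) f := by
      rw [tm_add_smul]
      exact lev_share_l r0 m1 h.m12
    have := pt_small hp hw hf hq1 hq2 gu gv' Pm (Or.inr j1)
    linarith

/-! ### The totals of the environment -/

/-- Two totals near the two lane totals are comparable at the balance. -/
theorem two_lane {Zl Zr Yl Yr Z1 Z2 rr : ℝ} (a1 : 0 < A1) (a2 : 0 < A2) (b1 : 0 < B1) (b2 : 0 < B2) (hA : A2 ≤ A1)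
    (hB : B1 ≤ B2) (r0 : 0 ≤ rr) (h1 : 0 < Z1) (h2 : 0 < Z2) (h12 : Z1 ≤ rr * Z2) (h21 : Z2 ≤ rr * Z1)
    (hl : Yl = A1 * Z1 + A2 * Z2) (hr : Yr = B1 * Z1 + B2 * Z2) (nl : |Zl - Yl| ≤ Yl / 2) (nr : |Zr - Yr| ≤ Yr / 2) :
    0 < Zl ∧ 0 < A1 / B2 * Zr ∧ Zl ≤ 3 * (1 + rr) * rr * (A1 / B2 * Zr) ∧ A1 / B2 * Zr ≤ 3 * (1 + rr) * rr * Zl := by
  have l1 := (abs_le.1 nl).1
  have l2 := (abs_le.1 nl).2
  have r1 := (abs_le.1 nr).1
  have r2 := (abs_le.1 nr).2
  have pYl : A1 * Z1 ≤ Yl := by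
    rw [hl]
    have := mul_pos a2 h2
    linarith
  have qYl : Yl ≤ A1 * ((1 + rr) * Z1) := by
    rw [hl]
    have i1 := mul_le_mul hA h21 h2.le a1.le
    linarith
  have pYr : B2 * Z2 ≤ Yr := by
    rw [hr]
    have := mul_pos b1 h1
    linarith
  have qYr : Yr ≤ B2 * ((1 + rr) * Z2) := by
    rw [hr]
    have i1 := mul_le_mul hB h12 h1.le b2.le
    linarith
  have x1 := mul_pos a1 h1
  have x2 := mul_pos b2 h2
  have lowl : A1 * Z1 ≤ 2 * Zl := by linarith
  have lowr : B2 * Z2 ≤ 2 * Zr := by linarith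
  have upl : Zl ≤ 3 / 2 * (A1 * ((1 + rr) * Z1)) := by linarith
  have upr : Zr ≤ 3 / 2 * (B2 * ((1 + rr) * Z2)) := by linarith
  have hc : 0 < A1 / B2 := div_pos a1 b2
  have lowr' : A1 * Z2 ≤ 2 * (A1 / B2 * Zr) := by
    have i1 := mul_le_mul_of_nonneg_left lowr hc.le
    have i2 : A1 / B2 * (B2 * Z2) = A1 * Z2 := by
      field_simp
    linarith
  have upr' : A1 / B2 * Zr ≤ 3 / 2 * (A1 * ((1 + rr) * Z2)) := by
    have i1 := mul_le_mul_of_nonneg_left upr hc.le
    have i2 : A1 / B2 * (3 / 2 * (B2 * ((1 + rr) * Z2))) = 3 / 2 * (A1 * ((1 + rr) * Z2)) := by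
      field_simp
    linarith
  have pr : 0 < A1 / B2 * Zr := by
    have := mul_pos a1 h2
    linarith
  refine ⟨by linarith, pr, ?_, ?_⟩
  · have i1 : A1 * ((1 + rr) * Z1) ≤ A1 * ((1 + rr) * (rr * Z2)) := by gcongr
    have i2 : A1 * ((1 + rr) * (rr * Z2)) = (1 + rr) * rr * (A1 * Z2) := by ring
    have i3 : (1 + rr) * rr * (A1 * Z2) ≤ (1 + rr) * rr * (2 * (A1 / B2 * Zr)) :=
      mul_le_mul_of_nonneg_left lowr' (by positivity)
    linarith
  · have i1 : A1 * ((1 + rr) * Z2) ≤ A1 * ((1 + rr) * (rr * Z1)) := by gcongr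
    have i2 : A1 * ((1 + rr) * (rr * Z1)) = (1 + rr) * rr * (A1 * Z1) := by ring
    have i3 : (1 + rr) * rr * (A1 * Z1) ≤ (1 + rr) * rr * (2 * Zl) := mul_le_mul_of_nonneg_left lowl (by positivity)
    linarith

/-- The totals of the environment are comparable at the balance. -/
theorem Cell.rat_env (h : Cell lo hi A1 A2 B1 B2 kap eta rr p wk f f' ml mr f1 f2 q) (a1 : 0 < A1) (a2 : 0 < A2)
    (b1 : 0 < B1) (b2 : 0 < B2) (hA : A2 ≤ A1) (hB : B1 ≤ B2) :
    Rat lo hi p wk f q (3 * (1 + rr) * rr) ml (fun y => A1 / B2 * mr y) := by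
  obtain ⟨T1, hT1, n1⟩ := h.nl
  obtain ⟨T2, hT2, n2⟩ := h.nr
  have hp := h.p0
  have hp1 : 0 ≤ 1 + p := by linarith
  have d1 : (1 + p) * ds lo hi wk ml f (fun y => A1 * f1 y + A2 * f2 y) f' ≤ T1 / 2 := by
    have i1 := mul_le_mul_of_nonneg_left n1.d hp1
    have i2 := mul_le_mul_of_nonneg_right h.e1 hT1.le
    linarith
  have d2 : (1 + p) * ds lo hi wk mr f (fun y => B1 * f1 y + B2 * f2 y) f' ≤ T2 / 2 := by
    have i1 := mul_le_mul_of_nonneg_left n2.d hp1
    have i2 := mul_le_mul_of_nonneg_right h.e1 hT2.le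
    linarith
  have z := two_lane (Zl := rz lo hi p wk ml f q) (Zr := rz lo hi p wk mr f q) a1 a2 b1 b2 hA hB h.r0 h.z1 h.z2 h.z12 h.z21
    (rz_lin f1 f2 A1 A2) (rz_lin f1 f2 B1 B2)
    ((rz_ds hp h.w0).trans (d1.trans (div_le_div_of_nonneg_right n1.z (by norm_num))))
    ((rz_ds hp h.w0).trans (d2.trans (div_le_div_of_nonneg_right n2.z (by norm_num))))
  have t := two_lane (Zl := rt lo hi p wk ml f q) (Zr := rt lo hi p wk mr f q) a1 a2 b1 b2 hA hB h.r0 h.t1 h.t2 h.t12 h.t21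
    (rt_lin f1 f2 A1 A2) (rt_lin f1 f2 B1 B2)
    ((rt_ds hp h.w0 n1.l0 n1.l0').trans (d1.trans (div_le_div_of_nonneg_right n1.t (by norm_num))))
    ((rt_ds hp h.w0 n2.l0 n2.l0').trans (d2.trans (div_le_div_of_nonneg_right n2.t (by norm_num))))
  have m := two_lane (Zl := tm lo hi p wk ml f) (Zr := tm lo hi p wk mr f) a1 a2 b1 b2 hA hB h.r0 h.m1 h.m2 h.m12 h.m21
    (tm_lin f1 f2 A1 A2) (tm_lin f1 f2 B1 B2)
    ((tm_ds hp h.w0).trans (d1.trans (div_le_div_of_nonneg_right n1.u (by norm_num))))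
    ((tm_ds hp h.w0).trans (d2.trans (div_le_div_of_nonneg_right n2.u (by norm_num))))
  have r0 := h.r0
  refine ⟨by positivity, z.1, ?_, ?_, ?_, t.1, ?_, ?_, ?_, m.1, ?_, ?_, ?_⟩
  · rw [rz_smul]
    exact z.2.1
  · rw [rz_smul]
    exact z.2.2.1
  · rw [rz_smul]
    exact z.2.2.2
  · rw [rt_smul]
    exact t.2.1
  · rw [rt_smul]
    exact t.2.2.1
  · rw [rt_smul]
    exact t.2.2.2
  · rw [tm_smul]
    exact m.2.1
  · rw [tm_smul]
    exact m.2.2.1
  · rw [tm_smul]
    exact m.2.2.2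

/-! ### The whole line -/

theorem integral_exp_abs_tail_sub {S b : ℝ} (hS : 0 ≤ S) :
    ∫ a in {a : ℝ | S < |a - b|}, Real.exp (-|a - b|) ≤ 2 * Real.exp (-S) := by
  have hm : MeasurableSet {c : ℝ | S < |c|} := measurableSet_lt measurable_const continuous_abs.measurable
  have hm2 : MeasurableSet {a : ℝ | S < |a - b|} :=
    measurableSet_lt measurable_const (continuous_abs.measurable.comp (measurable_id.sub_const b))
  have e : ∫ a in {a : ℝ | S < |a - b|}, Real.exp (-|a - b|) = ∫ c in {c : ℝ | S < |c|}, Real.exp (-|c|) := by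
    rw [← integral_indicator hm, ← integral_indicator hm2,
      ← integral_sub_right_eq_self (fun c => {c : ℝ | S < |c|}.indicator (fun c => Real.exp (-|c|)) c) b]
    refine integral_congr_ae (Filter.Eventually.of_forall fun a => ?_)
    show {a : ℝ | S < |a - b|}.indicator (fun a => Real.exp (-|a - b|)) a =
      {c : ℝ | S < |c|}.indicator (fun c => Real.exp (-|c|)) (a - b)
    by_cases h : S < |a - b|
    · rw [Set.indicator_of_mem (show a ∈ {a : ℝ | S < |a - b|} from h),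
        Set.indicator_of_mem (show a - b ∈ {c : ℝ | S < |c|} from h)]
    · rw [Set.indicator_of_notMem (show a ∉ {a : ℝ | S < |a - b|} from h),
        Set.indicator_of_notMem (show a - b ∉ {c : ℝ | S < |c|} from h)]
  rw [e]
  exact integral_exp_abs_tail hS

theorem integrable_exp_abs_sub (b : ℝ) : Integrable fun a : ℝ => Real.exp (-|a - b|) :=
  integrable_exp_abs.comp_sub_right b

/-- **The level integral over the whole line.** -/
theorem level_full (a1 : 0 < A1) (a2 : 0 < A2) (b1 : 0 < B1) (b2 : 0 < B2) (hd : 0 < A1 * B2 - A2 * B1)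
    {F φ : ℝ → ℝ} {K S M D D' : ℝ} (hFm : Measurable F) (hφm : Measurable φ)
    (hK : ∀ a, |F a - lev' A1 A2 B1 B2 a * φ (lev A1 A2 B1 B2 a)| ≤ K)
    (hφ : ∀ c, |φ c| ≤ D * Real.exp (-|c|)) (hF : ∀ a, |F a| ≤ D' * Real.exp (-|a - Real.log (B2 / A1)|))
    (w1 : Real.log (B1 / B2) ≤ -(M + 1)) (w2 : M + 1 ≤ Real.log (A1 / A2)) (hM : 0 ≤ M) (hS : M + 1 ≤ S) :
    |(∫ a, F a) - ∫ c, φ c| ≤ 2 * S * K + 4 * D * Real.exp (-M) + 2 * D' * Real.exp (-S) := by
  set B := Real.log (B2 / A1) with hB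
  have hD' : 0 ≤ D' := by
    have := (abs_nonneg _).trans (hF B)
    rw [sub_self, abs_zero, neg_zero, Real.exp_zero, mul_one] at this
    exact this
  have iφ : Integrable φ := (integrable_exp_abs.const_mul D).mono' hφm.aestronglyMeasurable
    (Filter.Eventually.of_forall fun c => by
      rw [Real.norm_eq_abs]
      exact hφ c)
  have iF : Integrable F := ((integrable_exp_abs_sub B).const_mul D').mono' hFm.aestronglyMeasurable
    (Filter.Eventually.of_forall fun a => by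
      rw [Real.norm_eq_abs]
      exact hF a)
  set I : Set ℝ := Set.Icc (B - S) (B - S + 2 * S) with hI
  have hIm : MeasurableSet I := measurableSet_Icc
  have hg : ∀ a, |I.indicator (fun _ => (1 : ℝ)) a| ≤ 1 := by
    intro a
    by_cases ha : a ∈ I
    · rw [Set.indicator_of_mem ha, abs_one]
    · rw [Set.indicator_of_notMem ha, abs_zero]
      exact zero_le_one
  have hin : ∀ a, |a - B| ≤ S → a ∈ I := by
    intro a ha
    have := (abs_le.1 ha).1
    have := (abs_le.1 ha).2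
    rw [hI, Set.mem_Icc]
    constructor <;> linarith
  have hgB : I.indicator (fun _ => (1 : ℝ)) B = 1 :=
    Set.indicator_of_mem (hin B (by rw [sub_self, abs_zero]; linarith)) _
  have key := level_int a1 a2 b1 b2 hd (F := F) (φ := φ) (g := I.indicator fun _ => (1 : ℝ)) (K := K) (S := 2 * S)
    (s0 := B - S) (G := 1) (M := M) (O := 0) (tl := 2 * D * Real.exp (-M)) hFm (measurable_const.indicator hIm) iφ hφm hK hg
    (fun a ha => Set.indicator_of_notMem ha _) (by linarith)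
    (fun a ha => by
      rw [hgB, Set.indicator_of_mem (hin a (by linarith)), sub_self, abs_zero]) w1 w2 hM (tail_le iφ hφ hM)
  rw [hgB, one_mul] at key
  have hT : MeasurableSet {a : ℝ | S < |a - B|} :=
    measurableSet_lt measurable_const (continuous_abs.measurable.comp (measurable_id.sub_const B))
  have iG : Integrable ({a : ℝ | S < |a - B|}.indicator fun a => D' * Real.exp (-|a - B|)) :=
    ((integrable_exp_abs_sub B).const_mul D').indicator hT
  have igF : Integrable fun a => I.indicator (fun _ => (1 : ℝ)) a * F a :=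
    iF.bdd_mul (c := 1) (measurable_const.indicator hIm).aestronglyMeasurable (Filter.Eventually.of_forall fun a => by
      rw [Real.norm_eq_abs]
      exact hg a)
  have tl : |(∫ a, F a) - ∫ a, I.indicator (fun _ => (1 : ℝ)) a * F a| ≤ 2 * D' * Real.exp (-S) := by
    rw [← integral_sub iF igF]
    have := norm_integral_le_of_norm_le (μ := volume) (f := fun a => F a - I.indicator (fun _ => (1 : ℝ)) a * F a) iG
      (Filter.Eventually.of_forall fun a => by
        rw [Real.norm_eq_abs]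
        by_cases ha : S < |a - B|
        · rw [Set.indicator_of_mem (show a ∈ {a : ℝ | S < |a - B|} from ha)]
          refine le_trans ?_ (hF a)
          by_cases hb : a ∈ I
          · rw [Set.indicator_of_mem hb, one_mul, sub_self, abs_zero]
            exact abs_nonneg _
          · rw [Set.indicator_of_notMem hb, zero_mul, sub_zero]
        · rw [Set.indicator_of_notMem (show a ∉ {a : ℝ | S < |a - B|} from ha),
            Set.indicator_of_mem (hin a (not_lt.1 ha)), one_mul, sub_self, abs_zero])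
    rw [Real.norm_eq_abs] at this
    refine this.trans ?_
    rw [integral_indicator hT, integral_const_mul]
    have h2 := mul_le_mul_of_nonneg_left (integral_exp_abs_tail_sub (S := S) (b := B) (by linarith)) hD'
    linarith
  have e : (∫ a, F a) - ∫ c, φ c = ((∫ a, F a) - ∫ a, I.indicator (fun _ => (1 : ℝ)) a * F a) +
      ((∫ a, I.indicator (fun _ => (1 : ℝ)) a * F a) - ∫ c, φ c) := by ring
  rw [e]
  refine (abs_add_le _ _).trans ?_
  linarith

/-- The window conditions give the order of the lanes. -/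
theorem lane_order (a1 : 0 < A1) (a2 : 0 < A2) (b1 : 0 < B1) (b2 : 0 < B2) {M : ℝ} (hM : 0 ≤ M)
    (w1 : Real.log (B1 / B2) ≤ -(M + 1)) (w2 : M + 1 ≤ Real.log (A1 / A2)) :
    A2 ≤ A1 ∧ B1 ≤ B2 ∧ 0 < A1 * B2 - A2 * B1 := by
  have h1 : A2 < A1 := by
    have : 1 < A1 / A2 := by
      rw [← Real.log_pos_iff (by positivity)]
      linarith
    rwa [one_lt_div a2] at this
  have h2 : B1 < B2 := by
    have : B1 / B2 < 1 := by
      have := (Real.log_neg_iff (show 0 < B1 / B2 by positivity)).1 (by linarith)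
      exact this
    rwa [div_lt_one b2] at this
  refine ⟨h1.le, h2.le, ?_⟩
  have i1 := mul_lt_mul h1 h2.le b1 a1.le
  linarith

/-- **THE CONTACT FUNCTIONAL ON A SUCCESS.** -/
theorem Cell.ct_full (h : Cell lo hi A1 A2 B1 B2 kap eta rr p wk f f' ml mr f1 f2 q) (a1 : 0 < A1) (a2 : 0 < A2)
    (b1 : 0 < B1) (b2 : 0 < B2) {M S : ℝ} (w1 : Real.log (B1 / B2) ≤ -(M + 1)) (w2 : M + 1 ≤ Real.log (A1 / A2))
    (hM : 0 ≤ M) (hS : M + 1 ≤ S) :
    |(∫ a, ct lo hi p wk ml (fun y => Real.exp (-a) * mr y) f q) -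
        ∫ c, ct lo hi p wk f1 (fun y => Real.exp (-c) * f2 y) f' q| ≤
      2 * S * (176 * (1 + p) * kap ^ 8 * eta) + 4 * (3 * kap ^ 8 * rr) * Real.exp (-M) +
        2 * (3 * kap ^ 8 * (3 * (1 + rr) * rr)) * Real.exp (-S) := by
  obtain ⟨hA, hB, hd⟩ := lane_order a1 a2 b1 b2 hM w1 w2
  obtain ⟨T1, _, n1⟩ := h.nl
  obtain ⟨T2, _, n2⟩ := h.nr
  have hc : 0 < A1 / B2 := div_pos a1 b2
  refine level_full a1 a2 b1 b2 hd measurable_ct measurable_ct (h.ct_near a1 a2 b1 b2) h.ct_dec ?_ w1 w2 hM hS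
  intro a
  have key := ct_decay h.p0 h.w0 h.f0 h.R n1.m0 (fun y => mul_nonneg hc.le (n2.m0 y)) (h.rat_env a1 a2 b1 b2 hA hB)
    (a - Real.log (B2 / A1))
  have e : (fun y => Real.exp (-(a - Real.log (B2 / A1))) * (A1 / B2 * mr y)) = fun y => Real.exp (-a) * mr y := by
    funext y
    have e1 : Real.exp (-(a - Real.log (B2 / A1))) = Real.exp (-a) * (B2 / A1) := by
      rw [neg_sub, sub_eq_neg_add, Real.exp_add, Real.exp_log (by positivity)]
    rw [e1]
    field_simp
  rw [e] at key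
  exact key

/-- **THE MEETING FUNCTIONAL ON A SUCCESS.** -/
theorem Cell.pt_full (h : Cell lo hi A1 A2 B1 B2 kap eta rr p wk f f' ml mr f1 f2 q) (a1 : 0 < A1) (a2 : 0 < A2)
    (b1 : 0 < B1) (b2 : 0 < B2) {M S : ℝ} (w1 : Real.log (B1 / B2) ≤ -(M + 1)) (w2 : M + 1 ≤ Real.log (A1 / A2))
    (hM : 0 ≤ M) (hS : M + 1 ≤ S) :
    |(∫ a, pt lo hi p wk ml (fun y => Real.exp (-a) * mr y) f q) -
        ∫ c, pt lo hi p wk f1 (fun y => Real.exp (-c) * f2 y) f' q| ≤
      2 * S * (16 * (1 + p) * eta) + 4 * (2 * rr) * Real.exp (-M) +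
        2 * (2 * (3 * (1 + rr) * rr)) * Real.exp (-S) := by
  obtain ⟨hA, hB, hd⟩ := lane_order a1 a2 b1 b2 hM w1 w2
  obtain ⟨T1, _, n1⟩ := h.nl
  obtain ⟨T2, _, n2⟩ := h.nr
  have hc : 0 < A1 / B2 := div_pos a1 b2
  refine level_full a1 a2 b1 b2 hd measurable_pt measurable_pt (h.pt_near a1 a2 b1 b2) h.pt_dec ?_ w1 w2 hM hS
  intro a
  have key := pt_decay h.p0 h.w0 h.f0 h.R.q1 h.R.q2 n1.m0 (fun y => mul_nonneg hc.le (n2.m0 y))
    (h.rat_env a1 a2 b1 b2 hA hB) (a - Real.log (B2 / A1))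
  have e : (fun y => Real.exp (-(a - Real.log (B2 / A1))) * (A1 / B2 * mr y)) = fun y => Real.exp (-a) * mr y := by
    funext y
    have e1 : Real.exp (-(a - Real.log (B2 / A1))) = Real.exp (-a) * (B2 / A1) := by
      rw [neg_sub, sub_eq_neg_add, Real.exp_add, Real.exp_log (by positivity)]
    rw [e1]
    field_simp
  rw [e] at key
  exact key

end

end Pool.Agent.W_7d29a1_C1.K97
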