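import Pool.Agent.W_7d29a1_C1.PertT97

/-!
MP_7d29a1_pr, the attractor route: relative perturbation of interface law times gain, LOGARITHMIC in the lower bounds. (helper97)

If the logarithms of `1 + y d` and `1 - x d` move by at most `lam`, then the perturbation of the Jensen gap sees the lower bound `c` of
these numbers only through `log (1 / c)`.
-/

set_option autoImplicit false

namespace Pool.Agent.W_7d29a1_C1.K97

open Finset K91 L91 MeasureTheory

noncomputable section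

/-- Size of `ph`, logarithmic. -/
theorem ph_size_log {u c M L : ℝ} (hc : 0 < c) (hu : c ≤ 1 + u) (hM : |u| ≤ M) (hL : 0 ≤ L) (hcL : -L ≤ Real.log c) :
    |ph u| ≤ (2 + 4 * L) * M ^ 2 := by
  have M0 : 0 ≤ M := (abs_nonneg _).trans hM
  by_cases h : 1 / 2 ≤ 1 + u
  · have h1 := ph_size (c := 1 / 2) (by norm_num) (by norm_num) h hM
    refine h1.trans ?_
    have : 0 ≤ L * M ^ 2 := by positivity
    have e : M ^ 2 / (1 / 2) = 2 * M ^ 2 := by ring
    rw [e]
    linarith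
  · push Not at h
    have u0 : 0 < 1 + u := lt_of_lt_of_le hc hu
    have h1 : 1 / 2 ≤ M := by
      have := neg_abs_le u
      linarith
    have l1 : Real.log c ≤ Real.log (1 + u) := Real.log_le_log hc hu
    have l2 : Real.log (1 + u) ≤ 0 := Real.log_nonpos u0.le (by linarith)
    have l3 : Real.log (1 + u) ≤ u := by
      have := Real.log_le_sub_one_of_pos u0
      linarith
    have p0 : 0 ≤ ph u := by
      unfold ph
      linarith
    have p1 : ph u ≤ L := by
      unfold ph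
      linarith
    rw [abs_of_nonneg p0]
    have q1 : 1 ≤ 4 * M ^ 2 := by nlinarith
    have q2 : L * 1 ≤ L * (4 * M ^ 2) := mul_le_mul_of_nonneg_left q1 hL
    have q3 : 0 ≤ M ^ 2 := sq_nonneg M
    linarith

/-- Perturbation of `ph`, without a lower bound. -/
theorem ph_rel {y y' d d' D δ ε lam : ℝ} (hy : 0 ≤ y) (hy' : 0 ≤ y') (h2 : |y' - y| ≤ δ * y) (hδ : 0 ≤ δ) (hδ1 : δ ≤ 1 / 2)
    (hd : |d| ≤ D) (hd' : |d'| ≤ D) (he : |d' - d| ≤ ε) (hl : |Real.log (1 + y' * d') - Real.log (1 + y * d)| ≤ lam) :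
    |ph (y' * d') - ph (y * d)| ≤ y ^ 2 * (3 * δ * D ^ 2 + 3 * ε * D + 9 * lam * D ^ 2) := by
  have hD0 : 0 ≤ D := (abs_nonneg _).trans hd
  have he0 : 0 ≤ ε := (abs_nonneg _).trans he
  have hl0 : 0 ≤ lam := (abs_nonneg _).trans hl
  have y2 := (abs_le.1 h2).2
  have dy : δ * y ≤ 1 / 2 * y := mul_le_mul_of_nonneg_right hδ1 hy
  have hyD := mul_nonneg hy hD0
  have m1 : |y' * d'| ≤ 3 / 2 * (y * D) := by
    rw [abs_mul, abs_of_nonneg hy']
    refine (mul_le_mul (show y' ≤ 3 / 2 * y by linarith) hd' (abs_nonneg _) (by linarith)).trans (le_of_eq ?_)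
    ring
  have m2 : |y * d| ≤ 3 / 2 * (y * D) := by
    rw [abs_mul, abs_of_nonneg hy]
    have := mul_le_mul_of_nonneg_left hd hy
    linarith
  have p2 : |y' * d' - y * d| ≤ y * (δ * D + ε) := by
    have e1 : y' * d' - y * d = (y' - y) * d' + y * (d' - d) := by ring
    rw [e1]
    refine (abs_add_le _ _).trans ?_
    rw [abs_mul, abs_mul, abs_of_nonneg hy]
    have i1 := mul_le_mul h2 hd' (abs_nonneg _) (by positivity)
    have i2 := mul_le_mul_of_nonneg_left he hy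
    linarith
  have lam0 : 0 ≤ y ^ 2 * (9 * lam * D ^ 2) := by positivity
  by_cases hA : 1 / 2 ≤ 1 + y * d ∧ 1 / 2 ≤ 1 + y' * d'
  · have p1 := ph_lip (c := 1 / 2) (by norm_num) hA.2 hA.1 m1 m2
    have p3 := mul_le_mul_of_nonneg_right p2 (show 0 ≤ 3 / 2 * (y * D) by positivity)
    have e1 : y ^ 2 * (3 * δ * D ^ 2 + 3 * ε * D + 9 * lam * D ^ 2) = 2 * (y * (δ * D + ε) * (3 / 2 * (y * D))) +
        y ^ 2 * (9 * lam * D ^ 2) := by ring
    rw [e1]
    have e2 : |y' * d' - y * d| * (3 / 2 * (y * D)) / (1 / 2) = 2 * (|y' * d' - y * d| * (3 / 2 * (y * D))) := by ring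
    rw [e2] at p1
    linarith
  · have h1 : 1 ≤ 3 * (y * D) := by
      by_contra hn
      push Not at hn
      refine hA ⟨?_, ?_⟩
      · have := neg_abs_le (y * d)
        linarith
      · have := neg_abs_le (y' * d')
        linarith
    have e1 : ph (y' * d') - ph (y * d) = (y' * d' - y * d) - (Real.log (1 + y' * d') - Real.log (1 + y * d)) := by
      unfold ph
      ring
    rw [e1]
    refine (_root_.abs_sub _ _).trans ?_
    have i1 : y * (δ * D + ε) * 1 ≤ y * (δ * D + ε) * (3 * (y * D)) := mul_le_mul_of_nonneg_left h1 (by positivity)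
    have i2 : (1 : ℝ) ≤ (3 * (y * D)) ^ 2 := one_le_pow₀ h1
    have i3 : lam * 1 ≤ lam * (3 * (y * D)) ^ 2 := mul_le_mul_of_nonneg_left i2 hl0
    have e2 : y ^ 2 * (3 * δ * D ^ 2 + 3 * ε * D + 9 * lam * D ^ 2) = y * (δ * D + ε) * (3 * (y * D)) +
        lam * (3 * (y * D)) ^ 2 := by ring
    rw [e2]
    linarith

/-- Size of the gain, logarithmic. -/
theorem jl_size_log {x y d D c L : ℝ} (hc : 0 < c) (hx : 0 ≤ x) (hy : 0 ≤ y) (ha : c ≤ 1 + y * d) (hb : c ≤ 1 - x * d)
    (hD : |d| ≤ D) (hL : 0 ≤ L) (hcL : -L ≤ Real.log c) : |jl x y d| ≤ (2 + 4 * L) * D ^ 2 * (x * y) := by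
  have hD0 : 0 ≤ D := (abs_nonneg _).trans hD
  rcases eq_or_lt_of_le (show 0 ≤ x + y by positivity) with h0 | h0
  · have hx0 : x = 0 := by linarith
    rw [hx0, jl_zero_left, abs_zero]
    simp
  · rw [jl_ph h0]
    have s1 := ph_size_log hc ha (M := y * D) (by
      rw [abs_mul, abs_of_nonneg hy]
      exact mul_le_mul_of_nonneg_left hD hy) hL hcL
    have s2 := ph_size_log (u := -(x * d)) hc (by linarith) (M := x * D) (by
      rw [abs_neg, abs_mul, abs_of_nonneg hx]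
      exact mul_le_mul_of_nonneg_left hD hx) hL hcL
    have t1 : 0 ≤ x / (x + y) := by positivity
    have t2 : 0 ≤ y / (x + y) := by positivity
    refine (abs_add_le _ _).trans ?_
    rw [abs_mul, abs_mul, abs_of_nonneg t1, abs_of_nonneg t2]
    refine (add_le_add (mul_le_mul_of_nonneg_left s1 t1) (mul_le_mul_of_nonneg_left s2 t2)).trans (le_of_eq ?_)
    field_simp
    ring

/-- **The gain: relative perturbation, logarithmic.** -/
theorem jl_rel_log {x y x' y' d d' D δ ε c L lam : ℝ} (hc : 0 < c) (hx : 0 ≤ x) (hy : 0 ≤ y) (hx' : 0 ≤ x') (hy' : 0 ≤ y')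
    (h1 : |x' - x| ≤ δ * x) (h2 : |y' - y| ≤ δ * y) (hδ : 0 ≤ δ) (hδ1 : δ ≤ 1 / 2) (hd : |d| ≤ D) (hd' : |d'| ≤ D)
    (he : |d' - d| ≤ ε) (ha' : c ≤ 1 + y' * d') (hb' : c ≤ 1 - x' * d') (hL : 0 ≤ L) (hcL : -L ≤ Real.log c)
    (l1 : |Real.log (1 + y' * d') - Real.log (1 + y * d)| ≤ lam)
    (l2 : |Real.log (1 - x' * d') - Real.log (1 - x * d)| ≤ lam) :
    |jl x' y' d' - jl x y d| ≤ ((9 + 12 * L) * δ * D ^ 2 + 3 * ε * D + 9 * lam * D ^ 2) * (x * y) := by
  have hD0 : 0 ≤ D := (abs_nonneg _).trans hd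
  have he0 : 0 ≤ ε := (abs_nonneg _).trans he
  have hl0 : 0 ≤ lam := (abs_nonneg _).trans l1
  rcases eq_or_lt_of_le (show 0 ≤ x + y by positivity) with h0 | h0
  · have hx0 : x = 0 := by linarith
    rw [hx0, rel_zero h1 hx0, jl_zero_left, jl_zero_left, sub_zero, abs_zero]
    simp
  have x1 := (abs_le.1 h1).1
  have x2 := (abs_le.1 h1).2
  have y1 := (abs_le.1 h2).1
  have y2 := (abs_le.1 h2).2
  have dx : δ * x ≤ 1 / 2 * x := mul_le_mul_of_nonneg_right hδ1 hx
  have dy : δ * y ≤ 1 / 2 * y := mul_le_mul_of_nonneg_right hδ1 hy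
  have h0' : 0 < x' + y' := by linarith
  rw [jl_ph h0, jl_ph h0']
  have e0 : x' / (x' + y') * ph (y' * d') + y' / (x' + y') * ph (-(x' * d')) -
      (x / (x + y) * ph (y * d) + y / (x + y) * ph (-(x * d))) =
      (x' / (x' + y') - x / (x + y)) * (ph (y' * d') - ph (-(x' * d'))) + x / (x + y) * (ph (y' * d') - ph (y * d)) +
      y / (x + y) * (ph (-(x' * d')) - ph (-(x * d))) := by
    have e1 : y / (x + y) = 1 - x / (x + y) := by
      field_simp
      ring
    have e2 : y' / (x' + y') = 1 - x' / (x' + y') := by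
      field_simp
      ring
    rw [e1, e2]
    ring
  rw [e0]
  have s0 : |x' / (x' + y') - x / (x + y)| * ((x' + y') * (x + y)) ≤ 2 * δ * (x * y) := by
    have e1 : (x' / (x' + y') - x / (x + y)) * ((x' + y') * (x + y)) = (x' - x) * y - x * (y' - y) := by
      field_simp
      ring
    have e2 : |x' / (x' + y') - x / (x + y)| * ((x' + y') * (x + y)) = |(x' - x) * y - x * (y' - y)| := by
      rw [← e1, abs_mul, abs_of_pos (mul_pos h0' h0)]
    rw [e2]
    refine (_root_.abs_sub _ _).trans ?_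
    rw [abs_mul, abs_mul, abs_of_nonneg hx, abs_of_nonneg hy]
    have i1 := mul_le_mul_of_nonneg_right h1 hy
    have i2 := mul_le_mul_of_nonneg_left h2 hx
    linarith
  have t1 : |(x' / (x' + y') - x / (x + y)) * (ph (y' * d') - ph (-(x' * d')))| ≤ (6 + 12 * L) * δ * D ^ 2 * (x * y) := by
    have p1 := ph_size_log hc ha' (M := y' * D) (by
      rw [abs_mul, abs_of_nonneg hy']
      exact mul_le_mul_of_nonneg_left hd' hy') hL hcL
    have p2 := ph_size_log (u := -(x' * d')) hc (by linarith) (M := x' * D) (by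
      rw [abs_neg, abs_mul, abs_of_nonneg hx']
      exact mul_le_mul_of_nonneg_left hd' hx') hL hcL
    have p3 : |ph (y' * d') - ph (-(x' * d'))| ≤ (2 + 4 * L) * D ^ 2 * (x' + y') ^ 2 := by
      refine (_root_.abs_sub _ _).trans ?_
      have i1 : 0 ≤ (2 + 4 * L) * D ^ 2 * (2 * (x' * y')) := by positivity
      have e1 : (2 + 4 * L) * D ^ 2 * (x' + y') ^ 2 = (2 + 4 * L) * (y' * D) ^ 2 + (2 + 4 * L) * (x' * D) ^ 2 +
          (2 + 4 * L) * D ^ 2 * (2 * (x' * y')) := by ring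
      rw [e1]
      linarith
    rw [abs_mul]
    have q0 := abs_nonneg (x' / (x' + y') - x / (x + y))
    have q2 : (x' + y') ^ 2 ≤ 3 / 2 * ((x' + y') * (x + y)) := by
      have := mul_le_mul_of_nonneg_left (show x' + y' ≤ 3 / 2 * (x + y) by linarith) h0'.le
      linarith
    have q3 : (2 + 4 * L) * D ^ 2 * (x' + y') ^ 2 ≤ (2 + 4 * L) * D ^ 2 * (3 / 2 * ((x' + y') * (x + y))) :=
      mul_le_mul_of_nonneg_left q2 (by positivity)
    refine (mul_le_mul_of_nonneg_left (p3.trans q3) q0).trans ?_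
    have e1 : |x' / (x' + y') - x / (x + y)| * ((2 + 4 * L) * D ^ 2 * (3 / 2 * ((x' + y') * (x + y)))) =
        (3 + 6 * L) * D ^ 2 * (|x' / (x' + y') - x / (x + y)| * ((x' + y') * (x + y))) := by ring
    rw [e1]
    refine (mul_le_mul_of_nonneg_left s0 (by positivity)).trans (le_of_eq ?_)
    ring
  have r1 := ph_rel hy hy' h2 hδ hδ1 hd hd' he l1
  have r2 := ph_rel (d := -d) (d' := -d') (D := D) hx hx' h1 hδ hδ1 (by rw [abs_neg]; exact hd) (by rw [abs_neg]; exact hd')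
    (ε := ε) (by
      have e : -d' - -d = -(d' - d) := by ring
      rw [e, abs_neg]
      exact he) (lam := lam) (by
      have e1 : 1 + x' * -d' = 1 - x' * d' := by ring
      have e2 : 1 + x * -d = 1 - x * d := by ring
      rw [e1, e2]
      exact l2)
  rw [mul_neg, mul_neg] at r2
  have c1 : 0 ≤ x / (x + y) := by positivity
  have c2 : 0 ≤ y / (x + y) := by positivity
  have t2 : |x / (x + y) * (ph (y' * d') - ph (y * d))| + |y / (x + y) * (ph (-(x' * d')) - ph (-(x * d)))| ≤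
      (3 * δ * D ^ 2 + 3 * ε * D + 9 * lam * D ^ 2) * (x * y) := by
    rw [abs_mul, abs_mul, abs_of_nonneg c1, abs_of_nonneg c2]
    refine (add_le_add (mul_le_mul_of_nonneg_left r1 c1) (mul_le_mul_of_nonneg_left r2 c2)).trans (le_of_eq ?_)
    field_simp
    ring
  have t3 := abs_add_three ((x' / (x' + y') - x / (x + y)) * (ph (y' * d') - ph (-(x' * d'))))
    (x / (x + y) * (ph (y' * d') - ph (y * d))) (y / (x + y) * (ph (-(x' * d')) - ph (-(x * d))))
  have t4 : (6 + 12 * L) * δ * D ^ 2 * (x * y) + (3 * δ * D ^ 2 + 3 * ε * D + 9 * lam * D ^ 2) * (x * y) =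
      ((9 + 12 * L) * δ * D ^ 2 + 3 * ε * D + 9 * lam * D ^ 2) * (x * y) := by ring
  linarith

variable {a b a2 b2 a' b' a2' b2' d d' D δ ε c L lam : ℝ}

/-- **Interface law times gain: relative perturbation, logarithmic.** -/
theorem pg_rel_log (hc : 0 < c) (ha : 0 ≤ a) (hb : 0 ≤ b) (ha2 : 0 ≤ a2) (hb2 : 0 ≤ b2) (h1 : |a' - a| ≤ δ * a)
    (h2 : |b' - b| ≤ δ * b) (h3 : |a2' - a2| ≤ δ * a2) (h4 : |b2' - b2| ≤ δ * b2) (hδ : 0 ≤ δ) (hδ1 : δ ≤ 1 / 2)
    (hd : |d| ≤ D) (hd' : |d'| ≤ D) (he : |d' - d| ≤ ε) (k1' : c ≤ 1 + (a2' + b2') * d') (k2' : c ≤ 1 - (a' + b') * d')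
    (hL : 0 ≤ L) (hcL : -L ≤ Real.log c)
    (l1 : |Real.log (1 + (a2' + b2') * d') - Real.log (1 + (a2 + b2) * d)| ≤ lam)
    (l2 : |Real.log (1 - (a' + b') * d') - Real.log (1 - (a + b) * d)| ≤ lam)
    (hD : 0 ≤ a * b2 - a2 * b) (hdet : |(a' * b2' - a2' * b') - (a * b2 - a2 * b)| ≤ δ * (a * b2 - a2 * b)) :
    |pg a' b' a2' b2' d' - pg a b a2 b2 d| ≤
      (a * b2 - a2 * b) * ((17 + 28 * L) * δ * D ^ 2 + 3 * ε * D + 9 * lam * D ^ 2) := by
  have hD0 : 0 ≤ D := (abs_nonneg _).trans hd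
  have he0 : 0 ≤ ε := (abs_nonneg _).trans he
  have hl0 : 0 ≤ lam := (abs_nonneg _).trans l1
  have f1 : |(a' + b') - (a + b)| ≤ δ * (a + b) := by
    have e0 : (a' + b') - (a + b) = (a' - a) + (b' - b) := by ring
    rw [e0]
    refine (abs_add_le _ _).trans ?_
    linarith
  have f2 : |(a2' + b2') - (a2 + b2)| ≤ δ * (a2 + b2) := by
    have e0 : (a2' + b2') - (a2 + b2) = (a2' - a2) + (b2' - b2) := by ring
    rw [e0]
    refine (abs_add_le _ _).trans ?_
    linarith
  by_cases x0 : a + b = 0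
  · rw [pg_zero (Or.inl x0), pg_zero (Or.inl (rel_zero f1 x0)), sub_zero, abs_zero]
    positivity
  by_cases y0 : a2 + b2 = 0
  · rw [pg_zero (Or.inr y0), pg_zero (Or.inr (rel_zero f2 y0)), sub_zero, abs_zero]
    positivity
  have xx : 0 < a + b := lt_of_le_of_ne (by positivity) (Ne.symm x0)
  have yy : 0 < a2 + b2 := lt_of_le_of_ne (by positivity) (Ne.symm y0)
  have xx' : 0 < a' + b' := by
    have i1 := (abs_le.1 f1).1
    have i2 := mul_le_mul_of_nonneg_right hδ1 xx.le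
    linarith
  have yy' : 0 < a2' + b2' := by
    have i1 := (abs_le.1 f2).1
    have i2 := mul_le_mul_of_nonneg_right hδ1 yy.le
    linarith
  have r0 := ro_mul (a := a) (b := b) (a2 := a2) (b2 := b2) xx.ne' yy.ne'
  have r0' := ro_mul (a := a') (b := b') (a2 := a2') (b2 := b2') xx'.ne' yy'.ne'
  have g1 := jl_rel_log hc xx.le yy.le xx'.le yy'.le f1 f2 hδ hδ1 hd hd' he k1' k2' hL hcL l1 l2
  have g2 := jl_size_log hc xx'.le yy'.le k1' k2' hd' hL hcL
  have ro0 : 0 ≤ ro a b a2 b2 := by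
    by_contra hn
    have : ro a b a2 b2 * ((a + b) * (a2 + b2)) < 0 := mul_neg_of_neg_of_pos (by linarith) (mul_pos xx yy)
    linarith
  have e1 : pg a' b' a2' b2' d' - pg a b a2 b2 d = (ro a' b' a2' b2' - ro a b a2 b2) * jl (a' + b') (a2' + b2') d' +
      ro a b a2 b2 * (jl (a' + b') (a2' + b2') d' - jl (a + b) (a2 + b2) d) := by
    unfold pg
    ring
  have m2 : |ro a b a2 b2 * (jl (a' + b') (a2' + b2') d' - jl (a + b) (a2 + b2) d)| ≤
      (a * b2 - a2 * b) * ((9 + 12 * L) * δ * D ^ 2 + 3 * ε * D + 9 * lam * D ^ 2) := by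
    rw [abs_mul, abs_of_nonneg ro0]
    refine (mul_le_mul_of_nonneg_left g1 ro0).trans (le_of_eq ?_)
    rw [← r0]
    ring
  have m1 : |(ro a' b' a2' b2' - ro a b a2 b2) * jl (a' + b') (a2' + b2') d'| ≤
      (a * b2 - a2 * b) * (4 * δ * ((2 + 4 * L) * D ^ 2)) := by
    rw [abs_mul]
    have n1 := mul_le_mul_of_nonneg_left g2 (abs_nonneg (ro a' b' a2' b2' - ro a b a2 b2))
    refine n1.trans ?_
    have e2 : |ro a' b' a2' b2' - ro a b a2 b2| * ((2 + 4 * L) * D ^ 2 * ((a' + b') * (a2' + b2'))) =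
        |(ro a' b' a2' b2' - ro a b a2 b2) * ((a' + b') * (a2' + b2'))| * ((2 + 4 * L) * D ^ 2) := by
      rw [abs_mul, abs_of_pos (mul_pos xx' yy')]
      ring
    rw [e2]
    have e3 : (ro a' b' a2' b2' - ro a b a2 b2) * ((a' + b') * (a2' + b2')) = ((a' * b2' - a2' * b') - (a * b2 - a2 * b)) -
        ro a b a2 b2 * ((((a' + b') - (a + b)) * (a2' + b2')) + (a + b) * ((a2' + b2') - (a2 + b2))) := by
      rw [← r0, ← r0']
      ring
    have i1 : a2' + b2' ≤ 3 / 2 * (a2 + b2) := by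
      have i1 := (abs_le.1 f2).2
      have i2 := mul_le_mul_of_nonneg_right hδ1 yy.le
      linarith
    have i2 : |(((a' + b') - (a + b)) * (a2' + b2')) + (a + b) * ((a2' + b2') - (a2 + b2))| ≤
        5 / 2 * δ * ((a + b) * (a2 + b2)) := by
      refine (abs_add_le _ _).trans ?_
      rw [abs_mul, abs_mul, abs_of_pos xx, abs_of_pos yy']
      have j1 := mul_le_mul f1 i1 yy'.le (mul_nonneg hδ xx.le)
      have j2 := mul_le_mul_of_nonneg_left f2 xx.le
      linarith
    have i3 : |(ro a' b' a2' b2' - ro a b a2 b2) * ((a' + b') * (a2' + b2'))| ≤ (a * b2 - a2 * b) * (4 * δ) := by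
      rw [e3]
      refine (_root_.abs_sub _ _).trans ?_
      rw [abs_mul, abs_of_nonneg ro0]
      have j1 := mul_le_mul_of_nonneg_left i2 ro0
      have j2 : ro a b a2 b2 * (5 / 2 * δ * ((a + b) * (a2 + b2))) = 5 / 2 * δ * (a * b2 - a2 * b) := by
        rw [← r0]
        ring
      have j3 : 0 ≤ δ * (a * b2 - a2 * b) := mul_nonneg hδ hD
      linarith
    refine (mul_le_mul_of_nonneg_right i3 (by positivity)).trans (le_of_eq ?_)
    ring
  rw [e1]
  refine (abs_add_le _ _).trans ((add_le_add m1 m2).trans (le_of_eq ?_))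
  ring

/-! ### Scaling -/

theorem jl_scale {x y d c : ℝ} (hc : 0 < c) : jl (c * x) (c * y) (d / c) = jl x y d := by
  unfold jl
  have e1 : c * y * (d / c) = y * d := by
    field_simp
  have e2 : c * x * (d / c) = x * d := by
    field_simp
  rw [share_smul hc, e1, e2]

theorem pg_scale {a b a2 b2 d c : ℝ} (hc : 0 < c) : pg (c * a) (c * b) (c * a2) (c * b2) (d / c) = pg a b a2 b2 d := by
  unfold pg
  rw [ro_smul hc hc, ← mul_add, ← mul_add, jl_scale hc]

/-- The logarithms of two numbers which agree up to a factor. -/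
theorem mc.log {θ x y : ℝ} (h : mc θ x y) (hx : 0 < x) (hy : 0 < y) : |Real.log y - Real.log x| ≤ θ - 1 := by
  have t0 : 0 < θ := by
    by_contra hn
    have := mul_nonpos_of_nonpos_of_nonneg (not_lt.1 hn) hy.le
    linarith [h.1]
  have l1 := Real.log_le_log hx h.1
  have l2 := Real.log_le_log hy h.2
  rw [Real.log_mul t0.ne' hy.ne'] at l1
  rw [Real.log_mul t0.ne' hx.ne'] at l2
  have l3 := Real.log_le_sub_one_of_pos t0
  rw [abs_le]
  constructor <;> linarith

end

end Pool.Agent.W_7d29a1_C1.K97
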