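import Pool.Agent.W_7d29a1_C1.PertX97
import Pool.Agent.W_7d29a1_C1.PairP91

/-!
MP_7d29a1_pr, the attractor route: the contact functional and the meeting functional of the contact formula with a row dependent
weight `p k` of the step `1` are the row functionals `ct`, `pt` of Pert97. (helper97)
-/

set_option autoImplicit false

namespace Pool.Agent.W_7d29a1_C1.K97P

open Finset K91P
open Pool.Agent.W_7d29a1_C1.K91 (Grp Box zs cut cut_sub jn jn_nonneg jn_le jn_smul)
open Pool.Agent.W_7d29a1_C1.K97 (jl jq pg pq ro rz rt tm ct pt ctg ctl Num share_smul ro_smul jl_zero_left jl_zero_right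
  jq_zero_left jq_zero_right)

noncomputable section

variable {w : ℕ → ℤ → ℝ} {p : ℕ → ℝ} {l r : ℤ → ℝ} {X lo hi : ℤ} {N : ℕ}

/-- The factor of the gain numbers. -/
def cg (w : ℕ → ℤ → ℝ) (p : ℕ → ℝ) (l r : ℤ → ℝ) (lo hi : ℤ) (N k : ℕ) (q : ℤ) : ℝ :=
  GG w p N k (q - 1) / ZZ w p l r lo hi N k q

/-- The factor of the loss numbers. -/
def cl (w : ℕ → ℤ → ℝ) (p : ℕ → ℝ) (l r : ℤ → ℝ) (lo hi : ℤ) (N k : ℕ) (q : ℤ) : ℝ :=
  bw w p (k + 1) (N - (k + 1)) (q - 1) / TT w p l r lo hi N (k + 1) q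

theorem ZZ_pos (hw : ∀ k y, 0 < w k y) (hp : ∀ k, 0 < p k) (h : Box l r X lo hi N) (k : ℕ) (q : ℤ) :
    0 < ZZ w p l r lo hi N k q := by
  obtain ⟨y, hy, hm⟩ := mm_pos hw hp h k
  unfold ZZ zs
  refine sum_pos' (fun z _ => ?_) ⟨y, hy, ?_⟩
  · have h1 := mm_nonneg hw hp h.g k z
    have h2 := hw k z
    have h3 := GG_pos (N := N) hw hp k z
    have h4 := GG_pos (N := N) hw hp k (z - 1)
    split_ifs <;> positivity
  · have h2 := hw k y
    have h3 := GG_pos (N := N) hw hp k y
    have h4 := GG_pos (N := N) hw hp k (y - 1)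
    split_ifs <;> positivity

theorem cg_pos (hw : ∀ k y, 0 < w k y) (hp : ∀ k, 0 < p k) (h : Box l r X lo hi N) (k : ℕ) (q : ℤ) :
    0 < cg w p l r lo hi N k q := div_pos (GG_pos hw hp k _) (ZZ_pos hw hp h k q)

theorem cl_pos (hw : ∀ k y, 0 < w k y) (hp : ∀ k, 0 < p k) (h : Box l r X lo hi N) (k : ℕ) (q : ℤ) :
    0 < cl w p l r lo hi N k q := div_pos (bw_pos hw hp _ _ _) (TT_pos hw hp h (k + 1) q)

/-- The term of the left neighbour is part of the total mass. -/
theorem cg_left (hw : ∀ k y, 0 < w k y) (hp : ∀ k, 0 < p k) (h : Box l r X lo hi N) (k : ℕ) {q : ℤ} (hq : q ∈ Icc X (X + N)) :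
    cg w p l r lo hi N k q * mm w p l r k (q - 1) * w k (q - 1) ≤ 1 := by
  have hz := ZZ_pos hw hp h k q
  rw [mem_Icc] at hq
  have hX0 := h.X0
  have hX1 := h.X1
  by_cases h0 : q - 1 < lo
  · rw [bml h k h0, mul_zero, zero_mul]
    exact zero_le_one
  have h1 : mm w p l r k (q - 1) * w k (q - 1) * GG w p N k (q - 1) ≤ ZZ w p l r lo hi N k q := by
    unfold ZZ zs
    have e : mm w p l r k (q - 1) * w k (q - 1) * GG w p N k (q - 1) =
        mm w p l r k (q - 1) * w k (q - 1) * (if q - 1 < q then GG w p N k (q - 1) else GG w p N k (q - 1 - 1)) := by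
      rw [if_pos (by omega)]
    rw [e]
    refine single_le_sum (f := fun y => mm w p l r k y * w k y * (if y < q then GG w p N k y else GG w p N k (y - 1)))
      (fun z _ => ?_) (mem_Icc.2 ⟨by omega, by omega⟩)
    have h1 := mm_nonneg hw hp h.g k z
    have h2 := hw k z
    have h3 := GG_pos (N := N) hw hp k z
    have h4 := GG_pos (N := N) hw hp k (z - 1)
    show 0 ≤ mm w p l r k z * w k z * (if z < q then GG w p N k z else GG w p N k (z - 1))
    split_ifs <;> positivity
  unfold cg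
  have e : GG w p N k (q - 1) / ZZ w p l r lo hi N k q * mm w p l r k (q - 1) * w k (q - 1) =
      mm w p l r k (q - 1) * w k (q - 1) * GG w p N k (q - 1) / ZZ w p l r lo hi N k q := by ring
  rw [e]
  exact div_le_one_of_le₀ h1 hz.le

/-- The term of the right neighbour is part of the total mass. -/
theorem cg_right (hw : ∀ k y, 0 < w k y) (hp : ∀ k, 0 < p k) (h : Box l r X lo hi N) (k : ℕ) {q : ℤ} (hq : q ∈ Icc X (X + N)) :
    cg w p l r lo hi N k q * mm w p l r k q * w k q ≤ 1 := by
  have hz := ZZ_pos hw hp h k q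
  rw [mem_Icc] at hq
  have hX0 := h.X0
  have hX1 := h.X1
  have h1 : mm w p l r k q * w k q * GG w p N k (q - 1) ≤ ZZ w p l r lo hi N k q := by
    unfold ZZ zs
    have e : mm w p l r k q * w k q * GG w p N k (q - 1) =
        mm w p l r k q * w k q * (if q < q then GG w p N k q else GG w p N k (q - 1)) := by
      rw [if_neg (lt_irrefl q)]
    rw [e]
    refine single_le_sum (f := fun y => mm w p l r k y * w k y * (if y < q then GG w p N k y else GG w p N k (y - 1)))
      (fun z _ => ?_) (mem_Icc.2 ⟨by omega, by omega⟩)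
    have h1 := mm_nonneg hw hp h.g k z
    have h2 := hw k z
    have h3 := GG_pos (N := N) hw hp k z
    have h4 := GG_pos (N := N) hw hp k (z - 1)
    show 0 ≤ mm w p l r k z * w k z * (if z < q then GG w p N k z else GG w p N k (z - 1))
    split_ifs <;> positivity
  unfold cg
  have e : GG w p N k (q - 1) / ZZ w p l r lo hi N k q * mm w p l r k q * w k q =
      mm w p l r k q * w k q * GG w p N k (q - 1) / ZZ w p l r lo hi N k q := by ring
  rw [e]
  exact div_le_one_of_le₀ h1 hz.le

/-- The arriving mass is part of the total mass of the next row. -/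
theorem cl_le (hw : ∀ k y, 0 < w k y) (hp : ∀ k, 0 < p k) (h : Box l r X lo hi N) (k : ℕ) {q : ℤ} (hq : q ∈ Icc X (X + N)) :
    cl w p l r lo hi N k q * mm w p l r (k + 1) q ≤ 1 := by
  have hz := TT_pos hw hp h (k + 1) q
  rw [mem_Icc] at hq
  have hX0 := h.X0
  have hX1 := h.X1
  have h1 : mm w p l r (k + 1) q * bw w p (k + 1) (N - (k + 1)) (q - 1) ≤ TT w p l r lo hi N (k + 1) q := by
    unfold TT cut
    have e : mm w p l r (k + 1) q * bw w p (k + 1) (N - (k + 1)) (q - 1) =
        mm w p l r (k + 1) q * (if q < q then bw w p (k + 1) (N - (k + 1)) q else bw w p (k + 1) (N - (k + 1)) (q - 1)) := by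
      rw [if_neg (lt_irrefl q)]
    rw [e]
    refine single_le_sum (f := fun y => mm w p l r (k + 1) y * (if y < q then bw w p (k + 1) (N - (k + 1)) y
      else bw w p (k + 1) (N - (k + 1)) (y - 1))) (fun z _ => ?_) (mem_Icc.2 ⟨by omega, by omega⟩)
    have h1 := mm_nonneg hw hp h.g (k + 1) z
    have h3 := bw_pos hw hp (N - (k + 1)) (k + 1) z
    have h4 := bw_pos hw hp (N - (k + 1)) (k + 1) (z - 1)
    show 0 ≤ mm w p l r (k + 1) z * (if z < q then bw w p (k + 1) (N - (k + 1)) z
      else bw w p (k + 1) (N - (k + 1)) (z - 1))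
    split_ifs <;> positivity
  unfold cl
  have e : bw w p (k + 1) (N - (k + 1)) (q - 1) / TT w p l r lo hi N (k + 1) q * mm w p l r (k + 1) q =
      mm w p l r (k + 1) q * bw w p (k + 1) (N - (k + 1)) (q - 1) / TT w p l r lo hi N (k + 1) q := by ring
  rw [e]
  exact div_le_one_of_le₀ h1 hz.le

/-- The numbers of the gain are admissible. -/
theorem num_gain (hw : ∀ k y, 0 < w k y) (hp : ∀ k, 0 < p k) (h : Box l r X lo hi N) (k : ℕ) {q : ℤ} (hq : q ∈ Icc X (X + N))
    {c : ℝ} (hc1 : c ≤ 1) (h1 : c * w k q ≤ w k (q - 1)) (h2 : c * w k (q - 1) ≤ w k q) :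
    Num (cg w p l r lo hi N k q * fw w p l k (q - 1)) (cg w p l r lo hi N k q * fw w p r k (q - 1))
      (cg w p l r lo hi N k q * fw w p l k q) (cg w p l r lo hi N k q * fw w p r k q) (w k (q - 1) - w k q) c := by
  have g := (cg_pos hw hp h k q).le
  have f1 := fw_nonneg hw hp h.g.l0 k (q - 1)
  have f2 := fw_nonneg hw hp h.g.r0 k (q - 1)
  have f3 := fw_nonneg hw hp h.g.l0 k q
  have f4 := fw_nonneg hw hp h.g.r0 k q
  refine ⟨by positivity, by positivity, by positivity, by positivity, ?_, ?_⟩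
  · have e : cg w p l r lo hi N k q * fw w p l k q + cg w p l r lo hi N k q * fw w p r k q =
        cg w p l r lo hi N k q * mm w p l r k q := by
      unfold mm
      ring
    rw [e]
    set x := cg w p l r lo hi N k q * mm w p l r k q with hx
    have k1 : x * w k q ≤ 1 := cg_right hw hp h k hq
    have k0 : 0 ≤ x := mul_nonneg g (mm_nonneg hw hp h.g k q)
    have k2 : x * (c * w k q) ≤ x * w k (q - 1) := mul_le_mul_of_nonneg_left h1 k0
    have k3 : 0 ≤ (1 - c) * (1 - x * w k q) := mul_nonneg (by linarith) (by linarith)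
    have k4 : (1 - c) * (1 - x * w k q) = 1 - c - x * w k q + x * (c * w k q) := by ring
    rw [mul_sub]
    linarith
  · have e : cg w p l r lo hi N k q * fw w p l k (q - 1) + cg w p l r lo hi N k q * fw w p r k (q - 1) =
        cg w p l r lo hi N k q * mm w p l r k (q - 1) := by
      unfold mm
      ring
    rw [e]
    set x := cg w p l r lo hi N k q * mm w p l r k (q - 1) with hx
    have k1 : x * w k (q - 1) ≤ 1 := cg_left hw hp h k hq
    have k0 : 0 ≤ x := mul_nonneg g (mm_nonneg hw hp h.g k (q - 1))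
    have k2 : x * (c * w k (q - 1)) ≤ x * w k q := mul_le_mul_of_nonneg_left h2 k0
    have k3 : 0 ≤ (1 - c) * (1 - x * w k (q - 1)) := mul_nonneg (by linarith) (by linarith)
    have k4 : (1 - c) * (1 - x * w k (q - 1)) = 1 - c - x * w k (q - 1) + x * (c * w k (q - 1)) := by ring
    rw [mul_sub]
    linarith

/-- The interface law is the decrement of the shares when both neighbours carry mass. -/
theorem rho_ro {k : ℕ} {q : ℤ} (h1 : mm w p l r k (q - 1) ≠ 0) (h2 : mm w p l r k q ≠ 0) :
    rho w p l r X k q = ro (fw w p l k (q - 1)) (fw w p r k (q - 1)) (fw w p l k q) (fw w p r k q) := by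
  unfold rho Fk ro
  rw [if_neg (show fw w p l k (q - 1) + fw w p r k (q - 1) ≠ 0 from h1),
    if_neg (show fw w p l k q + fw w p r k q ≠ 0 from h2)]

/-- The gain in terms of the local numbers. -/
theorem jg_jl (hw : ∀ k y, 0 < w k y) (hp : ∀ k, 0 < p k) (h : Box l r X lo hi N) {k : ℕ} (hk : k < N) {q : ℤ}
    (hq : q ∈ Icc X (X + N)) : jg w p l r lo hi N k q =
      jl (cg w p l r lo hi N k q * mm w p l r k (q - 1)) (cg w p l r lo hi N k q * mm w p l r k q)
        (w k (q - 1) - w k q) := by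
  have hz := ZZ_pos hw hp h k q
  have g := cg_pos hw hp h k q
  have y1 := Y1_pos hw hp h hk hq
  have y2 := Y2_pos hw hp h hk hq
  have v := vv_mem hw hp h.g k q
  have e1 : 1 + cg w p l r lo hi N k q * mm w p l r k q * (w k (q - 1) - w k q) =
      (ZZ w p l r lo hi N k q)⁻¹ * Y1 w p l r lo hi N k q := by
    unfold Y1 cg
    field_simp
  have e2 : 1 - cg w p l r lo hi N k q * mm w p l r k (q - 1) * (w k (q - 1) - w k q) =
      (ZZ w p l r lo hi N k q)⁻¹ * Y2 w p l r lo hi N k q := by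
    unfold Y2 cg
    field_simp
    ring
  unfold jl
  rw [e1, e2, share_smul g]
  unfold jg
  exact (jn_smul (inv_pos.2 hz) v.1 v.2 y1 y2).symm

/-- **Interface law times gain as a function of the local numbers.** -/
theorem rho_jg (hw : ∀ k y, 0 < w k y) (hp : ∀ k, 0 < p k) (h : Box l r X lo hi N) {k : ℕ} (hk : k < N) {q : ℤ}
    (hq : q ∈ Icc X (X + N)) : rho w p l r X k q * jg w p l r lo hi N k q =
      pg (cg w p l r lo hi N k q * fw w p l k (q - 1)) (cg w p l r lo hi N k q * fw w p r k (q - 1))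
        (cg w p l r lo hi N k q * fw w p l k q) (cg w p l r lo hi N k q * fw w p r k q) (w k (q - 1) - w k q) := by
  have g := cg_pos hw hp h k q
  have ea : cg w p l r lo hi N k q * fw w p l k (q - 1) + cg w p l r lo hi N k q * fw w p r k (q - 1) =
      cg w p l r lo hi N k q * mm w p l r k (q - 1) := by
    unfold mm
    ring
  have eb : cg w p l r lo hi N k q * fw w p l k q + cg w p l r lo hi N k q * fw w p r k q =
      cg w p l r lo hi N k q * mm w p l r k q := by
    unfold mm
    ring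
  unfold pg
  rw [ea, eb, jg_jl hw hp h hk hq]
  by_cases h1 : mm w p l r k (q - 1) = 0
  · rw [h1, mul_zero, jl_zero_left, mul_zero, mul_zero]
  by_cases h2 : mm w p l r k q = 0
  · rw [h2, mul_zero, jl_zero_right, mul_zero, mul_zero]
  rw [rho_ro h1 h2, ro_smul g g]

/-- The loss in terms of the local numbers. -/
theorem JG_jq (hw : ∀ k y, 0 < w k y) (hp : ∀ k, 0 < p k) (h : Box l r X lo hi N) {k : ℕ} {q : ℤ}
    (hq : q ∈ Icc X (X + N)) : JG w p l r lo hi N k q =
      jq (cl w p l r lo hi N k q * (p k * w k (q - 1)) * mm w p l r k (q - 1)) (cl w p l r lo hi N k q * w k q * mm w p l r k q)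
        (bw w p (k + 1) (N - (k + 1)) q / bw w p (k + 1) (N - (k + 1)) (q - 1)) := by
  have hz := TT_pos hw hp h (k + 1) q
  have hz2 := TT_pos hw hp h (k + 1) (q + 1)
  have g := cl_pos hw hp h k q
  have v := th_mem hw hp h.g k q
  have f1 := bw_pos hw hp (N - (k + 1)) (k + 1) (q - 1)
  rw [mem_Icc] at hq
  have hX0 := h.X0
  have hX1 := h.X1
  have e0 : TT w p l r lo hi N (k + 1) (q + 1) - TT w p l r lo hi N (k + 1) q =
      mm w p l r (k + 1) q * (bw w p (k + 1) (N - (k + 1)) q - bw w p (k + 1) (N - (k + 1)) (q - 1)) :=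
    cut_sub (by omega) (by omega)
  have em : cl w p l r lo hi N k q * (p k * w k (q - 1)) * mm w p l r k (q - 1) + cl w p l r lo hi N k q * w k q * mm w p l r k q =
      cl w p l r lo hi N k q * mm w p l r (k + 1) q := by
    rw [mm_succ]
    ring
  have e1 : 1 + cl w p l r lo hi N k q * mm w p l r (k + 1) q *
      (bw w p (k + 1) (N - (k + 1)) q / bw w p (k + 1) (N - (k + 1)) (q - 1) - 1) =
      (TT w p l r lo hi N (k + 1) q)⁻¹ * TT w p l r lo hi N (k + 1) (q + 1) := by
    have e2 : TT w p l r lo hi N (k + 1) (q + 1) = TT w p l r lo hi N (k + 1) q +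
      mm w p l r (k + 1) q * (bw w p (k + 1) (N - (k + 1)) q - bw w p (k + 1) (N - (k + 1)) (q - 1)) := by linarith
    rw [e2]
    unfold cl
    field_simp
  have e3 : (1 : ℝ) = (TT w p l r lo hi N (k + 1) q)⁻¹ * TT w p l r lo hi N (k + 1) q := (inv_mul_cancel₀ hz.ne').symm
  have e4 : cl w p l r lo hi N k q * (p k * w k (q - 1)) * mm w p l r k (q - 1) /
      (cl w p l r lo hi N k q * mm w p l r (k + 1) q) = th w p l r k q := by
    unfold th
    rw [show cl w p l r lo hi N k q * (p k * w k (q - 1)) * mm w p l r k (q - 1) =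
      cl w p l r lo hi N k q * (p k * (w k (q - 1) * mm w p l r k (q - 1))) by ring, mul_div_mul_left _ _ g.ne']
    rfl
  unfold jq
  rw [em, e4, e1]
  conv_rhs => rw [e3]
  rw [jn_smul (inv_pos.2 hz) v.1 v.2 hz2 hz]
  rfl

/-- **Interface law times loss as a function of the local numbers.** -/
theorem rho_JG (hw : ∀ k y, 0 < w k y) (hp : ∀ k, 0 < p k) (h : Box l r X lo hi N) {k : ℕ} {q : ℤ}
    (hq : q ∈ Icc X (X + N)) : rho w p l r X k q * JG w p l r lo hi N k q =
      pq (cl w p l r lo hi N k q * (p k * w k (q - 1)) * fw w p l k (q - 1))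
        (cl w p l r lo hi N k q * (p k * w k (q - 1)) * fw w p r k (q - 1))
        (cl w p l r lo hi N k q * w k q * fw w p l k q) (cl w p l r lo hi N k q * w k q * fw w p r k q)
        (bw w p (k + 1) (N - (k + 1)) q / bw w p (k + 1) (N - (k + 1)) (q - 1)) := by
  have g := cl_pos hw hp h k q
  have w1 := hw k (q - 1)
  have w2 := hw k q
  have ea : cl w p l r lo hi N k q * (p k * w k (q - 1)) * fw w p l k (q - 1) +
      cl w p l r lo hi N k q * (p k * w k (q - 1)) * fw w p r k (q - 1) =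
      cl w p l r lo hi N k q * (p k * w k (q - 1)) * mm w p l r k (q - 1) := by
    unfold mm
    ring
  have eb : cl w p l r lo hi N k q * w k q * fw w p l k q + cl w p l r lo hi N k q * w k q * fw w p r k q =
      cl w p l r lo hi N k q * w k q * mm w p l r k q := by
    unfold mm
    ring
  unfold pq
  rw [ea, eb, JG_jq hw hp h hq]
  by_cases h1 : mm w p l r k (q - 1) = 0
  · rw [h1, mul_zero, jq_zero_left, mul_zero, mul_zero]
  by_cases h2 : mm w p l r k q = 0
  · rw [h2, mul_zero, jq_zero_right, mul_zero, mul_zero]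
  rw [rho_ro h1 h2, ro_smul (mul_pos g (mul_pos (hp k) w1)) (mul_pos g w2)]

/-- The ratio of two neighbouring cuts. -/
theorem loss_ge (hw : ∀ k y, 0 < w k y) (hp : ∀ k, 0 < p k) (h : Box l r X lo hi N) (k : ℕ) {q : ℤ} (hq : q ∈ Icc X (X + N))
    {c : ℝ} (hc1 : c ≤ 1)
    (h1 : c * bw w p (k + 1) (N - (k + 1)) (q - 1) ≤ bw w p (k + 1) (N - (k + 1)) q) :
    c ≤ 1 + cl w p l r lo hi N k q * mm w p l r (k + 1) q *
      (bw w p (k + 1) (N - (k + 1)) q / bw w p (k + 1) (N - (k + 1)) (q - 1) - 1) := by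
  have f1 := bw_pos hw hp (N - (k + 1)) (k + 1) (q - 1)
  have k1 := cl_le hw hp h k hq
  have k0 : 0 ≤ cl w p l r lo hi N k q * mm w p l r (k + 1) q :=
    mul_nonneg (cl_pos hw hp h k q).le (mm_nonneg hw hp h.g (k + 1) q)
  have k2 : c ≤ bw w p (k + 1) (N - (k + 1)) q / bw w p (k + 1) (N - (k + 1)) (q - 1) := by
    rw [le_div_iff₀ f1]
    exact h1
  set x := cl w p l r lo hi N k q * mm w p l r (k + 1) q with hx
  set v := bw w p (k + 1) (N - (k + 1)) q / bw w p (k + 1) (N - (k + 1)) (q - 1) with hv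
  have k3 : x * c ≤ x * v := mul_le_mul_of_nonneg_left k2 k0
  have k4 : 0 ≤ (1 - x) * (1 - c) := mul_nonneg (by linarith) (by linarith)
  have k5 : (1 - x) * (1 - c) = 1 - c - x + x * c := by ring
  rw [mul_sub]
  linarith

/-- **The contact functional is the row functional.** -/
theorem contact_ct (hw : ∀ k y, 0 < w k y) (hp : ∀ k, 0 < p k) (h : Box l r X lo hi N) {k : ℕ} (hk : k < N) {q : ℤ}
    (hq : q ∈ Icc X (X + N)) : rho w p l r X k q * (jg w p l r lo hi N k q - JG w p l r lo hi N k q) =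
      ct lo hi (p k) (w k) (fw w p l k) (fw w p r k) (bw w p (k + 1) (N - (k + 1))) q := by
  rw [mul_sub, rho_jg hw hp h hk hq, rho_JG hw hp h hq]
  unfold ct ctg ctl
  have e1 : cg w p l r lo hi N k q = (bw w p (k + 1) (N - (k + 1)) (q - 1) + p k * bw w p (k + 1) (N - (k + 1)) q) /
      rz lo hi (p k) (w k) (fun y => fw w p l k y + fw w p r k y) (bw w p (k + 1) (N - (k + 1))) q := by
    unfold cg GG
    rw [sub_add_cancel]
    rfl
  have e2 : cl w p l r lo hi N k q = bw w p (k + 1) (N - (k + 1)) (q - 1) /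
      rt lo hi (p k) (w k) (fun y => fw w p l k y + fw w p r k y) (bw w p (k + 1) (N - (k + 1))) q := by
    unfold cl TT rt
    have e3 : mm w p l r (k + 1) = fun y => w k y * (fw w p l k y + fw w p r k y) +
        p k * (w k (y - 1) * (fw w p l k (y - 1) + fw w p r k (y - 1))) := funext fun y => mm_succ k y
    rw [e3]
  rw [e1, e2]

/-- **The meeting mass is the row functional.** -/
theorem meet_pt (h : Box l r X lo hi N) {k : ℕ} (hk : k < N) (q : ℤ) :
    (fw w p l k (q - 1) * fw w p r k q - fw w p l k q * fw w p r k (q - 1)) *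
      (p k * (w k (q - 1) * w k q) * bw w p (k + 1) (N - (k + 1)) q ^ 2) / (∑ y ∈ Icc lo hi, (l y + r y) * bw w p 0 N y) ^ 2 =
      pt lo hi (p k) (w k) (fw w p l k) (fw w p r k) (bw w p (k + 1) (N - (k + 1))) q := by
  have e : ∑ y ∈ Icc lo hi, (l y + r y) * bw w p 0 N y =
      tm lo hi (p k) (w k) (fun y => fw w p l k y + fw w p r k y) (bw w p (k + 1) (N - (k + 1))) := by
    rw [← sum_mm_bw (w := w) (p := p) h k hk.le]
    unfold tm
    refine sum_congr rfl fun y _ => ?_
    rw [bw_eq hk]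
    unfold GG mm
    ring
  rw [e]
  rfl

end

end Pool.Agent.W_7d29a1_C1.K97P
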