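import Pool.Agent.W_7d29a1_C1.PertL97

/-!
MP_7d29a1_pr, the attractor route: RELATIVE PERTURBATION OF THE CONTACT FUNCTIONALS of a row. (helper97)

`Tl θ`: the masses of the two groups, the profile and the step weight of two rows agree up to the factor `θ`, the LGV determinants at
the cut up to `θ ^ 2`. Then `|ct' - ct| <= Kt (θ ^ 16 - 1) * weight of the contact` at every level, and the same for the level
integral; the constant is logarithmic in the ratio of the profile. The meeting weights agree up to the factor `θ ^ 16`.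
-/

set_option autoImplicit false

namespace Pool.Agent.W_7d29a1_C1.K97

open Finset K91 L91 MeasureTheory

noncomputable section

/-! ### The loss -/

theorem mixv {X v κ : ℝ} (hκ : 1 ≤ κ) (h1 : 1 ≤ κ * v) (h2 : v ≤ κ) (x0 : 0 ≤ X) (x1 : X ≤ 1) :
    1 ≤ κ * (1 + X * (v - 1)) ∧ 1 + X * (v - 1) ≤ κ := by
  have k1 := mul_le_mul_of_nonneg_left h1 x0
  have k2 := mul_le_mul_of_nonneg_left h2 x0
  have k3 := mul_le_mul_of_nonneg_left hκ (show 0 ≤ 1 - X by linarith)
  constructor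
  · have e : κ * (1 + X * (v - 1)) = (1 - X) * κ + X * (κ * v) := by ring
    rw [e]
    linarith
  · have e : 1 + X * (v - 1) = (1 - X) * 1 + X * v := by ring
    rw [e]
    linarith

/-! ### The totals -/

variable {lo hi : ℤ} {p p' θ : ℝ} {wk m m' ml ml' mr mr' f f' : ℤ → ℝ} {q : ℤ} {κ κ' : ℝ}

theorem mc.pw {x y : ℝ} {j k : ℕ} (h : mc (θ ^ j) x y) (ht : 1 ≤ θ) (hj : j ≤ k) (hx : 0 ≤ x) (hy : 0 ≤ y) : mc (θ ^ k) x y :=
  h.mono (pow_le_pow_right₀ ht hj) hx hy

theorem mc.rel {x y : ℝ} {j : ℕ} (h : mc (θ ^ j) x y) (ht : 1 ≤ θ) (hj : j ≤ 16) (hx : 0 ≤ x) (hy : 0 ≤ y) :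
    |y - x| ≤ (θ ^ 16 - 1) * x :=
  (h.pw ht hj hx hy).abs_sub (one_le_pow₀ ht) hx

theorem mc_G (ht : 1 ≤ θ) (hp : 0 < p) (hp' : 0 < p') (hpp : mc θ p p') (hf : ∀ y, 0 < f y) (hf' : ∀ y, 0 < f' y)
    (hff : ∀ y, mc θ (f y) (f' y)) (z u : ℤ) : mc (θ ^ 2) (f z + p * f u) (f' z + p' * f' u) := by
  have h1 : mc (θ * θ) (f z) (f' z) := (hff z).mono (by nlinarith) (hf z).le (hf' z).le
  have h2 := hpp.mul (hff u) (by linarith) hp.le hp'.le (hf u).le (hf' u).le
  rw [pow_two]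
  exact h1.add h2

theorem mc_rz (ht : 1 ≤ θ) (hp : 0 < p) (hp' : 0 < p') (hpp : mc θ p p') (hw : ∀ y, 0 < wk y) (hf : ∀ y, 0 < f y)
    (hf' : ∀ y, 0 < f' y) (hff : ∀ y, mc θ (f y) (f' y)) (hm : ∀ y, 0 ≤ m y) (hm' : ∀ y, 0 ≤ m' y)
    (hmm : ∀ y, mc θ (m y) (m' y)) : mc (θ ^ 3) (rz lo hi p wk m f q) (rz lo hi p' wk m' f' q) := by
  unfold rz zs
  refine mc_sum fun y _ => ?_
  have h1 : mc θ (m y * wk y) (m' y * wk y) := by
    rw [mul_comm (m y), mul_comm (m' y)]
    exact (hmm y).smul (hw y).le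
  have e3 : θ ^ 3 = θ * θ ^ 2 := by ring
  rw [e3]
  have g0 : ∀ z u, 0 ≤ f z + p * f u := fun z u => by
    have := hf z
    have := hf u
    positivity
  have g0' : ∀ z u, 0 ≤ f' z + p' * f' u := fun z u => by
    have := hf' z
    have := hf' u
    positivity
  have n1 := mul_nonneg (hm y) (hw y).le
  have n1' := mul_nonneg (hm' y) (hw y).le
  by_cases hy : y < q
  · rw [if_pos hy, if_pos hy]
    exact h1.mul (mc_G ht hp hp' hpp hf hf' hff _ _) (by linarith) n1 n1' (g0 _ _) (g0' _ _)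
  · rw [if_neg hy, if_neg hy]
    exact h1.mul (mc_G ht hp hp' hpp hf hf' hff _ _) (by linarith) n1 n1' (g0 _ _) (g0' _ _)

theorem mc_rt (ht : 1 ≤ θ) (hp : 0 < p) (hp' : 0 < p') (hpp : mc θ p p') (hw : ∀ y, 0 < wk y) (hf : ∀ y, 0 < f y)
    (hf' : ∀ y, 0 < f' y) (hff : ∀ y, mc θ (f y) (f' y)) (hm : ∀ y, 0 ≤ m y) (hm' : ∀ y, 0 ≤ m' y)
    (hmm : ∀ y, mc θ (m y) (m' y)) : mc (θ ^ 3) (rt lo hi p wk m f q) (rt lo hi p' wk m' f' q) := by
  unfold rt cut
  refine mc_sum fun y _ => ?_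
  have a1 := hm y
  have a2 := hm (y - 1)
  have a3 := hm' y
  have a4 := hm' (y - 1)
  have b1 := hw y
  have b2 := hw (y - 1)
  have h1 : mc θ (wk y * m y) (wk y * m' y) := (hmm y).smul b1.le
  have h1' : mc (θ * θ) (wk y * m y) (wk y * m' y) := h1.mono (by nlinarith) (by positivity) (by positivity)
  have h2 : mc (θ * θ) (p * (wk (y - 1) * m (y - 1))) (p' * (wk (y - 1) * m' (y - 1))) :=
    hpp.mul ((hmm (y - 1)).smul b2.le) (by linarith) hp.le hp'.le (by positivity) (by positivity)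
  have e3 : θ ^ 3 = θ * θ * θ := by ring
  rw [e3]
  have n1 : 0 ≤ wk y * m y + p * (wk (y - 1) * m (y - 1)) := by positivity
  have n1' : 0 ≤ wk y * m' y + p' * (wk (y - 1) * m' (y - 1)) := by positivity
  by_cases hy : y < q
  · rw [if_pos hy, if_pos hy]
    exact (h1'.add h2).mul (hff y) (by positivity) n1 n1' (hf _).le (hf' _).le
  · rw [if_neg hy, if_neg hy]
    exact (h1'.add h2).mul (hff (y - 1)) (by positivity) n1 n1' (hf _).le (hf' _).le

theorem mc_tm (ht : 1 ≤ θ) (hp : 0 < p) (hp' : 0 < p') (hpp : mc θ p p') (hw : ∀ y, 0 < wk y) (hf : ∀ y, 0 < f y)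
    (hf' : ∀ y, 0 < f' y) (hff : ∀ y, mc θ (f y) (f' y)) (hm : ∀ y, 0 ≤ m y) (hm' : ∀ y, 0 ≤ m' y)
    (hmm : ∀ y, mc θ (m y) (m' y)) : mc (θ ^ 3) (tm lo hi p wk m f) (tm lo hi p' wk m' f') := by
  unfold tm
  refine mc_sum fun y _ => ?_
  have h1 : mc θ (m y * wk y) (m' y * wk y) := by
    rw [mul_comm (m y), mul_comm (m' y)]
    exact (hmm y).smul (hw y).le
  have e3 : θ ^ 3 = θ * θ ^ 2 := by ring
  rw [e3]
  have a1 := hf y
  have a2 := hf (y + 1)
  have a3 := hf' y
  have a4 := hf' (y + 1)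
  exact h1.mul (mc_G ht hp hp' hpp hf hf' hff _ _) (by linarith) (mul_nonneg (hm y) (hw y).le) (mul_nonneg (hm' y) (hw y).le)
    (by positivity) (by positivity)

/-! ### The row -/

/-- **Two rows which agree up to a factor.** -/
structure Tl (θ p p' : ℝ) (ml ml' mr mr' f f' : ℤ → ℝ) (q : ℤ) : Prop where
  t1 : 1 ≤ θ
  t16 : θ ^ 16 ≤ 3 / 2
  p : mc θ p p'
  l : ∀ y, mc θ (ml y) (ml' y)
  r : ∀ y, mc θ (mr y) (mr' y)
  f : ∀ y, mc θ (f y) (f' y)
  det : mc (θ ^ 2) (ml (q - 1) * mr q - ml q * mr (q - 1)) (ml' (q - 1) * mr' q - ml' q * mr' (q - 1))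

theorem cutd_rsmul (h : Cutd lo hi p wk ml mr f q κ κ') {r : ℝ} (hr : 0 < r) :
    Cutd lo hi p wk ml (fun y => r * mr y) f q κ κ' where
  p0 := h.p0
  w0 := h.w0
  f0 := h.f0
  l0 := h.l0
  r0 := fun y => mul_nonneg hr.le (h.r0 y)
  llo := h.llo
  rlo := fun y hy => by rw [h.rlo y hy, mul_zero]
  lhi := h.lhi
  rhi := by rw [h.rhi, mul_zero]
  q1 := h.q1
  q2 := h.q2
  det := by
    have := mul_nonneg hr.le h.det
    linarith
  k1 := h.k1
  k1' := h.k1'
  wl := h.wl
  wr := h.wr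
  fl := h.fl
  fr := h.fr
  zl := h.zl
  zr := by
    rw [rz_smul]
    exact mul_pos hr h.zr

theorem Tl.rsmul (h : Tl θ p p' ml ml' mr mr' f f' q) {r : ℝ} (hr : 0 < r) :
    Tl θ p p' ml ml' (fun y => r * mr y) (fun y => r * mr' y) f f' q where
  t1 := h.t1
  t16 := h.t16
  p := h.p
  l := h.l
  r := fun y => (h.r y).smul hr.le
  f := h.f
  det := by
    have := h.det.smul hr.le
    have e1 : r * (ml (q - 1) * mr q - ml q * mr (q - 1)) = ml (q - 1) * (r * mr q) - ml q * (r * mr (q - 1)) := by ring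
    have e2 : r * (ml' (q - 1) * mr' q - ml' q * mr' (q - 1)) = ml' (q - 1) * (r * mr' q) - ml' q * (r * mr' (q - 1)) := by ring
    rw [e1, e2] at this
    exact this

theorem rz_pos_cut (h : Cutd lo hi p wk ml mr f q κ κ') : 0 < rz lo hi p wk (fun y => ml y + mr y) f q := by
  rw [rz_add]
  exact add_pos h.zl h.zr

/-- The total above the next row. -/
theorem rt_pos_cut (h : Cutd lo hi p wk ml mr f q κ κ') : 0 < rt lo hi p wk (fun y => ml y + mr y) f q ∧
    rz lo hi p wk (fun y => ml y + mr y) f q ≤ (1 + κ') * rt lo hi p wk (fun y => ml y + mr y) f q := by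
  have hp := h.p0
  have w1 := h.w0 (q - 1)
  have w2 := h.w0 q
  have f1 := h.f0 (q - 1)
  have m1 : 0 ≤ ml (q - 1) + mr (q - 1) := add_nonneg (h.l0 _) (h.r0 _)
  have m2 : 0 ≤ ml q + mr q := add_nonneg (h.l0 _) (h.r0 _)
  have hq2 := mem_Icc.1 h.q2
  have hm : ∀ y, 0 ≤ ml y + mr y := fun y => add_nonneg (h.l0 y) (h.r0 y)
  have hTZ := rz_rt (m := fun y => ml y + mr y) (f := f) (p := p) (wk := wk) (lo := lo) (hi := hi) (q := q)
    (fun y hy => by rw [h.llo y hy, h.rlo y hy]; ring) (by show ml hi + mr hi = 0; rw [h.lhi, h.rhi]; ring) hq2.1 hq2.2 h.w0 hp hm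
  have st := rt_cut (m := fun y => ml y + mr y) hp h.w0 h.f0 hm h.q2
  have hZ := rz_pos_cut h
  set Z := rz lo hi p wk (fun y => ml y + mr y) f q with hZd
  set T := rt lo hi p wk (fun y => ml y + mr y) f q with hTd
  have n1 : 0 ≤ wk q * (ml q + mr q) * f (q - 1) := by positivity
  have n2 : 0 ≤ p * (wk (q - 1) * (ml (q - 1) + mr (q - 1))) := by positivity
  have n3 := mul_le_mul_of_nonneg_left h.fr n2
  have k3 : (wk q * (ml q + mr q) + p * (wk (q - 1) * (ml (q - 1) + mr (q - 1)))) * f (q - 1) =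
      wk q * (ml q + mr q) * f (q - 1) + p * (wk (q - 1) * (ml (q - 1) + mr (q - 1))) * f (q - 1) := by ring
  have st' : wk q * (ml q + mr q) * f (q - 1) + p * (wk (q - 1) * (ml (q - 1) + mr (q - 1))) * f (q - 1) ≤ T := by
    rw [← k3]
    exact st
  have n4 : 0 ≤ p * (wk (q - 1) * (ml (q - 1) + mr (q - 1))) * f (q - 1) := mul_nonneg n2 f1.le
  have hk' := h.k1'
  have n5 : p * (wk (q - 1) * (ml (q - 1) + mr (q - 1))) * (κ' * f (q - 1)) ≤ κ' * T := by
    have e : p * (wk (q - 1) * (ml (q - 1) + mr (q - 1))) * (κ' * f (q - 1)) =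
        κ' * (p * (wk (q - 1) * (ml (q - 1) + mr (q - 1))) * f (q - 1)) := by ring
    rw [e]
    exact mul_le_mul_of_nonneg_left (by linarith) (by linarith)
  have e2 : p * (wk (q - 1) * (ml (q - 1) + mr (q - 1))) * (f q - f (q - 1)) =
      p * (wk (q - 1) * (ml (q - 1) + mr (q - 1))) * f q - p * (wk (q - 1) * (ml (q - 1) + mr (q - 1))) * f (q - 1) := by ring
  have hle : Z ≤ (1 + κ') * T := by
    have e3 : Z = T + p * (wk (q - 1) * (ml (q - 1) + mr (q - 1))) * (f q - f (q - 1)) := hTZ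
    rw [e3, e2, add_mul, one_mul]
    linarith
  refine ⟨?_, hle⟩
  by_contra hc
  have : (1 + κ') * T ≤ 0 := mul_nonpos_of_nonneg_of_nonpos (by linarith) (by linarith)
  linarith

/-- The constant. -/
def Kt (p κ κ' : ℝ) : ℝ := 9 * κ ^ 2 / p + 228 * (1 + 1 / p) ^ 2 * (1 + Real.log κ')

theorem Kt_nonneg (hp : 0 < p) (h2 : 1 ≤ κ') : 0 ≤ Kt p κ κ' := by
  have a2 := Real.log_nonneg h2
  unfold Kt
  positivity

/-- **The gain part.** -/
theorem ctg_rel (h : Cutd lo hi p wk ml mr f q κ κ') (h' : Cutd lo hi p' wk ml' mr' f' q κ κ')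
    (H : Tl θ p p' ml ml' mr mr' f f' q) :
    |ctg lo hi p' wk ml' mr' f' q - ctg lo hi p wk ml mr f q| ≤
      9 * κ ^ 2 / p * (θ ^ 16 - 1) * (dw p wk ml mr f q / rz lo hi p wk (fun y => ml y + mr y) f q ^ 2) := by
  have hp := h.p0
  have hp' := h'.p0
  have ht := H.t1
  have w1 := h.w0 (q - 1)
  have w2 := h.w0 q
  have f1 := h.f0 (q - 1)
  have f2 := h.f0 q
  have f1' := h'.f0 (q - 1)
  have f2' := h'.f0 q
  have l1 := h.l0 (q - 1)
  have l2 := h.l0 q
  have r1 := h.r0 (q - 1)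
  have r2 := h.r0 q
  have l1' := h'.l0 (q - 1)
  have l2' := h'.l0 q
  have r1' := h'.r0 (q - 1)
  have r2' := h'.r0 q
  have hk := h.k1
  have hk0 : 0 < κ := by linarith
  have hD := h.det
  have hm : ∀ y, 0 ≤ ml y + mr y := fun y => add_nonneg (h.l0 y) (h.r0 y)
  have hm' : ∀ y, 0 ≤ ml' y + mr' y := fun y => add_nonneg (h'.l0 y) (h'.r0 y)
  have hZ := rz_pos_cut h
  have hZ' := rz_pos_cut h'
  have mz := mc_rz (lo := lo) (hi := hi) (q := q) ht hp hp' H.p h.w0 h.f0 h'.f0 H.f hm hm' fun y => (H.l y).add (H.r y)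
  have mg := mc_G ht hp hp' H.p h.f0 h'.f0 H.f (q - 1) q
  have sl := rz_left (m := fun y => ml y + mr y) hp h.w0 h.f0 hm h.q1
  have sr := rz_right (m := fun y => ml y + mr y) hp h.w0 h.f0 hm h.q2
  have sl' := rz_left (m := fun y => ml' y + mr' y) hp' h'.w0 h'.f0 hm' h.q1
  have sr' := rz_right (m := fun y => ml' y + mr' y) hp' h'.w0 h'.f0 hm' h.q2
  unfold ctg
  set Z := rz lo hi p wk (fun y => ml y + mr y) f q with hZd
  set Z' := rz lo hi p' wk (fun y => ml' y + mr' y) f' q with hZd'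
  have G0 : 0 < f (q - 1) + p * f q := by positivity
  have G0' : 0 < f' (q - 1) + p' * f' q := by positivity
  set G := f (q - 1) + p * f q with hG
  set G' := f' (q - 1) + p' * f' q with hG'
  have mC : mc (θ ^ 5) (G / Z) (G' / Z') := by
    have := mg.div mz (by positivity) G0.le G0'.le hZ hZ'
    rw [← pow_add] at this
    exact this
  have c0 : 0 < G / Z := div_pos G0 hZ
  have c0' : 0 < G' / Z' := div_pos G0' hZ'
  have clo : ∀ {x y : ℝ}, mc θ x y → 0 ≤ x → 0 ≤ y → |G' / Z' * y - G / Z * x| ≤ (θ ^ 16 - 1) * (G / Z * x) := by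
    intro x y hxy hx hy
    have h1 := mC.mul hxy (by positivity) c0.le c0'.le hx hy
    rw [← pow_succ] at h1
    exact h1.rel ht (by norm_num) (by positivity) (by positivity)
  have eD : G / Z * ml (q - 1) * (G / Z * mr q) - G / Z * ml q * (G / Z * mr (q - 1)) =
      (G / Z) * (G / Z) * (ml (q - 1) * mr q - ml q * mr (q - 1)) := by ring
  have eD' : G' / Z' * ml' (q - 1) * (G' / Z' * mr' q) - G' / Z' * ml' q * (G' / Z' * mr' (q - 1)) =
      (G' / Z') * (G' / Z') * (ml' (q - 1) * mr' q - ml' q * mr' (q - 1)) := by ring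
  have det : |(G' / Z' * ml' (q - 1) * (G' / Z' * mr' q) - G' / Z' * ml' q * (G' / Z' * mr' (q - 1))) -
      (G / Z * ml (q - 1) * (G / Z * mr q) - G / Z * ml q * (G / Z * mr (q - 1)))| ≤
      (θ ^ 16 - 1) * (G / Z * ml (q - 1) * (G / Z * mr q) - G / Z * ml q * (G / Z * mr (q - 1))) := by
    rw [eD, eD']
    have h1 := (mC.mul mC (by positivity) c0.le c0'.le c0.le c0'.le).mul H.det (by positivity) (by positivity) (by positivity)
      hD h'.det
    have e12 : θ ^ 5 * θ ^ 5 * θ ^ 2 = θ ^ 12 := by ring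
    rw [e12] at h1
    exact h1.rel ht (by norm_num) (by positivity) (mul_nonneg (by positivity) h'.det)
  have s1 : (G / Z * ml (q - 1) + G / Z * mr (q - 1)) * wk (q - 1) ≤ 1 := by
    have e : (G / Z * ml (q - 1) + G / Z * mr (q - 1)) * wk (q - 1) = (ml (q - 1) + mr (q - 1)) * wk (q - 1) * G / Z := by ring
    rw [e, div_le_one hZ]
    exact sl
  have s2 : (G / Z * ml q + G / Z * mr q) * wk q ≤ 1 := by
    have e : (G / Z * ml q + G / Z * mr q) * wk q = (ml q + mr q) * wk q * G / Z := by ring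
    rw [e, div_le_one hZ]
    exact sr
  have s1' : (G' / Z' * ml' (q - 1) + G' / Z' * mr' (q - 1)) * wk (q - 1) ≤ 1 := by
    have e : (G' / Z' * ml' (q - 1) + G' / Z' * mr' (q - 1)) * wk (q - 1) =
        (ml' (q - 1) + mr' (q - 1)) * wk (q - 1) * G' / Z' := by ring
    rw [e, div_le_one hZ']
    exact sl'
  have s2' : (G' / Z' * ml' q + G' / Z' * mr' q) * wk q ≤ 1 := by
    have e : (G' / Z' * ml' q + G' / Z' * mr' q) * wk q = (ml' q + mr' q) * wk q * G' / Z' := by ring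
    rw [e, div_le_one hZ']
    exact sr'
  have ck : 0 < κ⁻¹ := inv_pos.2 hk0
  have ck1 : κ⁻¹ ≤ 1 := inv_le_one_of_one_le₀ hk
  have cr : κ⁻¹ * wk q ≤ wk (q - 1) := by
    rw [inv_mul_le_iff₀ hk0]
    exact h.wr
  have cl : κ⁻¹ * wk (q - 1) ≤ wk q := by
    rw [inv_mul_le_iff₀ hk0]
    exact h.wl
  have n1 : κ⁻¹ ≤ 1 + (G / Z * ml q + G / Z * mr q) * (wk (q - 1) - wk q) := low_of (by positivity) s2 cr ck1
  have n2 : κ⁻¹ ≤ 1 - (G / Z * ml (q - 1) + G / Z * mr (q - 1)) * (wk (q - 1) - wk q) := by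
    have := low_of (x := G / Z * ml (q - 1) + G / Z * mr (q - 1)) (by positivity) s1 cl ck1
    linarith
  have n1' : κ⁻¹ ≤ 1 + (G' / Z' * ml' q + G' / Z' * mr' q) * (wk (q - 1) - wk q) := low_of (by positivity) s2' cr ck1
  have n2' : κ⁻¹ ≤ 1 - (G' / Z' * ml' (q - 1) + G' / Z' * mr' (q - 1)) * (wk (q - 1) - wk q) := by
    have := low_of (x := G' / Z' * ml' (q - 1) + G' / Z' * mr' (q - 1)) (by positivity) s1' cl ck1
    linarith
  have hδ : 0 ≤ θ ^ 16 - 1 := by
    have := one_le_pow₀ ht (n := 16)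
    linarith
  have hδ1 : θ ^ 16 - 1 ≤ 1 / 2 := by linarith [H.t16]
  have key := pg_rel (D := |wk (q - 1) - wk q|) (ε := 0) ck ck1 (by positivity) (by positivity) (by positivity) (by positivity)
    (clo (H.l (q - 1)) l1 l1') (clo (H.r (q - 1)) r1 r1') (clo (H.l q) l2 l2') (clo (H.r q) r2 r2') hδ hδ1 le_rfl le_rfl
    (by rw [sub_self, abs_zero]) n1 n2 n1' n2' (by rw [eD]; positivity) det
  refine key.trans ?_
  rw [eD, sq_abs, div_inv_eq_mul]
  have u1 : (wk (q - 1) - wk q) ^ 2 ≤ κ * (wk (q - 1) * wk q) := by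
    have k1 : wk (q - 1) * wk (q - 1) ≤ wk (q - 1) * (κ * wk q) := mul_le_mul_of_nonneg_left h.wl w1.le
    have k2 : wk q * wk q ≤ wk q * (κ * wk (q - 1)) := mul_le_mul_of_nonneg_left h.wr w2.le
    rcases le_total (wk q) (wk (q - 1)) with hc | hc
    · have k3 : (wk (q - 1) - wk q) ^ 2 ≤ wk (q - 1) ^ 2 := pow_le_pow_left₀ (by linarith) (by linarith) 2
      have k4 : wk (q - 1) ^ 2 = wk (q - 1) * wk (q - 1) := by ring
      have k5 : wk (q - 1) * (κ * wk q) = κ * (wk (q - 1) * wk q) := by ring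
      linarith
    · have k3 : (wk q - wk (q - 1)) ^ 2 ≤ wk q ^ 2 := pow_le_pow_left₀ (by linarith) (by linarith) 2
      have k4 : wk q ^ 2 = wk q * wk q := by ring
      have k5 : wk q * (κ * wk (q - 1)) = κ * (wk (q - 1) * wk q) := by ring
      have k6 : (wk (q - 1) - wk q) ^ 2 = (wk q - wk (q - 1)) ^ 2 := by ring
      linarith
  have e9 : 9 * κ ^ 2 / p * (θ ^ 16 - 1) * (dw p wk ml mr f q / Z ^ 2) =
      (G / Z) * (G / Z) * (ml (q - 1) * mr q - ml q * mr (q - 1)) * (9 * (θ ^ 16 - 1)) * (κ * (wk (q - 1) * wk q)) * κ := by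
    unfold L91.dw
    rw [← hG]
    field_simp
  rw [e9]
  have e8 : (G / Z) * (G / Z) * (ml (q - 1) * mr q - ml q * mr (q - 1)) *
      (9 * (θ ^ 16 - 1) * (wk (q - 1) - wk q) ^ 2 + 2 * 0 * |wk (q - 1) - wk q|) * κ =
      (G / Z) * (G / Z) * (ml (q - 1) * mr q - ml q * mr (q - 1)) * (9 * (θ ^ 16 - 1)) * (wk (q - 1) - wk q) ^ 2 * κ := by ring
  rw [e8]
  have g0 : 0 ≤ (G / Z) * (G / Z) * (ml (q - 1) * mr q - ml q * mr (q - 1)) * (9 * (θ ^ 16 - 1)) := by positivity
  exact mul_le_mul_of_nonneg_right (mul_le_mul_of_nonneg_left u1 g0) hk0.le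

/-- The total `rz`, the term of the right neighbour apart. -/
theorem rz_erase (h : q ∈ Icc lo hi) : rz lo hi p wk m f q =
    (∑ y ∈ (Icc lo hi).erase q, m y * wk y * (if y < q then f y + p * f (y + 1) else f (y - 1) + p * f (y - 1 + 1))) +
      m q * wk q * (f (q - 1) + p * f q) := by
  unfold rz zs
  rw [← sum_erase_add _ _ h, if_neg (lt_irrefl q)]
  simp only [sub_add_cancel]

/-- The total with the profile of the right site at the right neighbour. -/
def y1 (lo hi : ℤ) (p : ℝ) (wk m f : ℤ → ℝ) (q : ℤ) : ℝ := rz lo hi p wk m f q + wk q * m q * (f q - f (q - 1))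

theorem y1_erase (h : q ∈ Icc lo hi) : y1 lo hi p wk m f q =
    (∑ y ∈ (Icc lo hi).erase q, m y * wk y * (if y < q then f y + p * f (y + 1) else f (y - 1) + p * f (y - 1 + 1))) +
      m q * wk q * (f q + p * f q) := by
  unfold y1
  rw [rz_erase h]
  ring

theorem y1_ge (h : q ∈ Icc lo hi) (hp : 0 < p) (hw : ∀ y, 0 < wk y) (hf : ∀ y, 0 < f y) (hm : ∀ y, 0 ≤ m y) (hκ : 1 ≤ κ')
    (fl : f (q - 1) ≤ κ' * f q) : rz lo hi p wk m f q ≤ κ' * y1 lo hi p wk m f q := by
  rw [rz_erase h, y1_erase h]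
  set E := ∑ y ∈ (Icc lo hi).erase q, m y * wk y * (if y < q then f y + p * f (y + 1) else f (y - 1) + p * f (y - 1 + 1)) with hE
  have E0 : 0 ≤ E := by
    rw [hE]
    refine sum_nonneg fun y _ => ?_
    have a1 := hm y
    have a2 := hw y
    have a3 := hf y
    have a4 := hf (y + 1)
    have a5 := hf (y - 1)
    have a6 := hf (y - 1 + 1)
    split_ifs <;> positivity
  have a1 := hm q
  have a2 := hw q
  have a3 := hf q
  have i1 := mul_le_mul_of_nonneg_right hκ E0
  have i2 : f (q - 1) + p * f q ≤ κ' * (f q + p * f q) := by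
    have := mul_le_mul_of_nonneg_right hκ (show 0 ≤ p * f q by positivity)
    linarith
  have i3 := mul_le_mul_of_nonneg_left i2 (show 0 ≤ m q * wk q by positivity)
  linarith

theorem mc_y1 (h : q ∈ Icc lo hi) (ht : 1 ≤ θ) (hp : 0 < p) (hp' : 0 < p') (hpp : mc θ p p') (hw : ∀ y, 0 < wk y)
    (hf : ∀ y, 0 < f y) (hf' : ∀ y, 0 < f' y) (hff : ∀ y, mc θ (f y) (f' y)) (hm : ∀ y, 0 ≤ m y) (hm' : ∀ y, 0 ≤ m' y)
    (hmm : ∀ y, mc θ (m y) (m' y)) : mc (θ ^ 3) (y1 lo hi p wk m f q) (y1 lo hi p' wk m' f' q) := by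
  rw [y1_erase h, y1_erase h]
  have e3 : θ ^ 3 = θ * θ ^ 2 := by ring
  have g0 : ∀ z u, 0 ≤ f z + p * f u := fun z u => by
    have := hf z
    have := hf u
    positivity
  have g0' : ∀ z u, 0 ≤ f' z + p' * f' u := fun z u => by
    have := hf' z
    have := hf' u
    positivity
  have key : ∀ y z u, mc (θ ^ 3) (m y * wk y * (f z + p * f u)) (m' y * wk y * (f' z + p' * f' u)) := by
    intro y z u
    have h1 : mc θ (m y * wk y) (m' y * wk y) := by
      rw [mul_comm (m y), mul_comm (m' y)]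
      exact (hmm y).smul (hw y).le
    rw [e3]
    exact h1.mul (mc_G ht hp hp' hpp hf hf' hff _ _) (by linarith) (mul_nonneg (hm y) (hw y).le)
      (mul_nonneg (hm' y) (hw y).le) (g0 _ _) (g0' _ _)
  refine (mc_sum fun y _ => ?_).add (key _ _ _)
  by_cases hy : y < q
  · rw [if_pos hy, if_pos hy]
    exact key _ _ _
  · rw [if_neg hy, if_neg hy]
    exact key _ _ _

/-- **The loss in the normalization of the contracted row.** -/
theorem ctl_pg (h : Cutd lo hi p wk ml mr f q κ κ') : ctl lo hi p wk ml mr f q =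
    pg ((f (q - 1) + p * f q) / rz lo hi p wk (fun y => ml y + mr y) f q * (p * wk (q - 1)) * ml (q - 1))
      ((f (q - 1) + p * f q) / rz lo hi p wk (fun y => ml y + mr y) f q * (p * wk (q - 1)) * mr (q - 1))
      ((f (q - 1) + p * f q) / rz lo hi p wk (fun y => ml y + mr y) f q * wk q * ml q)
      ((f (q - 1) + p * f q) / rz lo hi p wk (fun y => ml y + mr y) f q * wk q * mr q)
      ((f q - f (q - 1)) / (f (q - 1) + p * f q)) := by
  have hp := h.p0
  have w1 := h.w0 (q - 1)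
  have w2 := h.w0 q
  have f1 := h.f0 (q - 1)
  have f2 := h.f0 q
  have l1 := h.l0 (q - 1)
  have l2 := h.l0 q
  have r1 := h.r0 (q - 1)
  have r2 := h.r0 q
  have hk := h.k1'
  have hq2 := mem_Icc.1 h.q2
  have hm : ∀ y, 0 ≤ ml y + mr y := fun y => add_nonneg (h.l0 y) (h.r0 y)
  have hZ := rz_pos_cut h
  obtain ⟨hT, _⟩ := rt_pos_cut h
  have st := rt_cut (m := fun y => ml y + mr y) hp h.w0 h.f0 hm h.q2
  have hTZ := rz_rt (m := fun y => ml y + mr y) (f := f) (p := p) (wk := wk) (lo := lo) (hi := hi) (q := q)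
    (fun y hy => by rw [h.llo y hy, h.rlo y hy]; ring) (by show ml hi + mr hi = 0; rw [h.lhi, h.rhi]; ring) hq2.1 hq2.2 h.w0 hp hm
  unfold ctl
  set Z := rz lo hi p wk (fun y => ml y + mr y) f q with hZd
  set T := rt lo hi p wk (fun y => ml y + mr y) f q with hTd
  have G0 : 0 < f (q - 1) + p * f q := by positivity
  set G := f (q - 1) + p * f q with hG
  have hs : (f (q - 1) / T * (p * wk (q - 1)) * ml (q - 1) + f (q - 1) / T * (p * wk (q - 1)) * mr (q - 1)) +
      (f (q - 1) / T * wk q * ml q + f (q - 1) / T * wk q * mr q) ≤ 1 := by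
    have e : (f (q - 1) / T * (p * wk (q - 1)) * ml (q - 1) + f (q - 1) / T * (p * wk (q - 1)) * mr (q - 1)) +
        (f (q - 1) / T * wk q * ml q + f (q - 1) / T * wk q * mr q) =
        (wk q * (ml q + mr q) + p * (wk (q - 1) * (ml (q - 1) + mr (q - 1)))) * f (q - 1) / T := by ring
    rw [e, div_le_one hT]
    exact st
  have v1 : 1 ≤ κ' * (f q / f (q - 1)) := by
    rw [mul_div_assoc', le_div_iff₀ f1, one_mul]
    exact h.fl
  have v2 : f q / f (q - 1) ≤ κ' := by
    rw [div_le_iff₀ f1]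
    exact h.fr
  have e1 : 1 + (f (q - 1) / T * (p * wk (q - 1)) * ml (q - 1) + f (q - 1) / T * (p * wk (q - 1)) * mr (q - 1)) *
      (f q / f (q - 1) - 1) = Z / T := by
    have e3 : Z = T + p * (wk (q - 1) * (ml (q - 1) + mr (q - 1))) * (f q - f (q - 1)) := hTZ
    rw [e3]
    field_simp
  have n1 : 0 ≤ f (q - 1) / T * (p * wk (q - 1)) * ml (q - 1) + f (q - 1) / T * (p * wk (q - 1)) * mr (q - 1) := by positivity
  have n2 : 0 ≤ f (q - 1) / T * wk q * ml q + f (q - 1) / T * wk q * mr q := by positivity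
  rw [pq_pg (by rw [e1]; positivity) (pos_of hk (mixv hk v1 v2 (add_nonneg n1 n2) hs).1) n1 n2, e1]
  have hc : 0 < G / Z * (T / f (q - 1)) := by positivity
  rw [← pg_scale hc]
  congr 1 <;> field_simp

theorem g_bound {f0 f1 p : ℝ} (hp : 0 < p) (h0 : 0 < f0) (h1 : 0 < f1) : |(f1 - f0) / (f0 + p * f1)| ≤ 1 + 1 / p := by
  have G0 : 0 < f0 + p * f1 := by positivity
  have i0 : 0 < 1 / p := by positivity
  rw [abs_div, abs_of_pos G0, div_le_iff₀ G0]
  have e1 : (1 + 1 / p) * (f0 + p * f1) = f0 + p * f1 + 1 / p * f0 + f1 := by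
    field_simp
    ring
  rw [e1, abs_le]
  have : 0 < 1 / p * f0 := by positivity
  have : 0 < p * f1 := by positivity
  constructor <;> linarith

/-- **The loss part.** -/
theorem ctl_rel (h : Cutd lo hi p wk ml mr f q κ κ') (h' : Cutd lo hi p' wk ml' mr' f' q κ κ')
    (H : Tl θ p p' ml ml' mr mr' f f' q) :
    |ctl lo hi p' wk ml' mr' f' q - ctl lo hi p wk ml mr f q| ≤ 228 * (1 + 1 / p) ^ 2 * (1 + Real.log κ') * (θ ^ 16 - 1) *
      (dw p wk ml mr f q / rz lo hi p wk (fun y => ml y + mr y) f q ^ 2) := by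
  have hp := h.p0
  have hp' := h'.p0
  have ht := H.t1
  have w1 := h.w0 (q - 1)
  have w2 := h.w0 q
  have f1 := h.f0 (q - 1)
  have f2 := h.f0 q
  have f1' := h'.f0 (q - 1)
  have f2' := h'.f0 q
  have l1 := h.l0 (q - 1)
  have l2 := h.l0 q
  have r1 := h.r0 (q - 1)
  have r2 := h.r0 q
  have l1' := h'.l0 (q - 1)
  have l2' := h'.l0 q
  have r1' := h'.r0 (q - 1)
  have r2' := h'.r0 q
  have hk := h.k1'
  have hk0 : 0 < κ' := by linarith
  have hD := h.det
  have hD' := h'.det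
  have hq2 := mem_Icc.1 h.q2
  have hm : ∀ y, 0 ≤ ml y + mr y := fun y => add_nonneg (h.l0 y) (h.r0 y)
  have hm' : ∀ y, 0 ≤ ml' y + mr' y := fun y => add_nonneg (h'.l0 y) (h'.r0 y)
  have hZ := rz_pos_cut h
  have hZ' := rz_pos_cut h'
  obtain ⟨hT, hZT⟩ := rt_pos_cut h
  obtain ⟨hT', hZT'⟩ := rt_pos_cut h'
  have mmm : ∀ y, mc θ (ml y + mr y) (ml' y + mr' y) := fun y => (H.l y).add (H.r y)
  have mz := mc_rz (lo := lo) (hi := hi) (q := q) ht hp hp' H.p h.w0 h.f0 h'.f0 H.f hm hm' mmm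
  have mt := mc_rt (lo := lo) (hi := hi) (q := q) ht hp hp' H.p h.w0 h.f0 h'.f0 H.f hm hm' mmm
  have my := mc_y1 h.q2 ht hp hp' H.p h.w0 h.f0 h'.f0 H.f hm hm' mmm
  have mg := mc_G ht hp hp' H.p h.f0 h'.f0 H.f (q - 1) q
  have y1g := y1_ge h.q2 hp h.w0 h.f0 hm hk h.fl
  have y1g' := y1_ge h.q2 hp' h'.w0 h'.f0 hm' hk h'.fl
  have hTZ := rz_rt (m := fun y => ml y + mr y) (f := f) (p := p) (wk := wk) (lo := lo) (hi := hi) (q := q)
    (fun y hy => by rw [h.llo y hy, h.rlo y hy]; ring) (by show ml hi + mr hi = 0; rw [h.lhi, h.rhi]; ring) hq2.1 hq2.2 h.w0 hp hm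
  have hTZ' := rz_rt (m := fun y => ml' y + mr' y) (f := f') (p := p') (wk := wk) (lo := lo) (hi := hi) (q := q)
    (fun y hy => by rw [h'.llo y hy, h'.rlo y hy]; ring) (by show ml' hi + mr' hi = 0; rw [h'.lhi, h'.rhi]; ring) hq2.1 hq2.2
    h'.w0 hp' hm'
  have ey : y1 lo hi p wk (fun y => ml y + mr y) f q = rz lo hi p wk (fun y => ml y + mr y) f q +
      wk q * (ml q + mr q) * (f q - f (q - 1)) := rfl
  have ey' : y1 lo hi p' wk (fun y => ml' y + mr' y) f' q = rz lo hi p' wk (fun y => ml' y + mr' y) f' q +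
      wk q * (ml' q + mr' q) * (f' q - f' (q - 1)) := rfl
  rw [ctl_pg h, ctl_pg h']
  set Z := rz lo hi p wk (fun y => ml y + mr y) f q with hZd
  set Z' := rz lo hi p' wk (fun y => ml' y + mr' y) f' q with hZd'
  set T := rt lo hi p wk (fun y => ml y + mr y) f q with hTd
  set T' := rt lo hi p' wk (fun y => ml' y + mr' y) f' q with hTd'
  set Y := y1 lo hi p wk (fun y => ml y + mr y) f q with hYd
  set Y' := y1 lo hi p' wk (fun y => ml' y + mr' y) f' q with hYd'
  have hY : 0 < Y := by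
    by_contra hn
    have := mul_nonpos_of_nonneg_of_nonpos hk0.le (not_lt.1 hn)
    linarith
  have hY' : 0 < Y' := by
    by_contra hn
    have := mul_nonpos_of_nonneg_of_nonpos hk0.le (not_lt.1 hn)
    linarith
  have G0 : 0 < f (q - 1) + p * f q := by positivity
  have G0' : 0 < f' (q - 1) + p' * f' q := by positivity
  have gb := g_bound hp f1 f2
  have gb' := g_bound hp' f1' f2'
  set G := f (q - 1) + p * f q with hG
  set G' := f' (q - 1) + p' * f' q with hG'
  have mC : mc (θ ^ 5) (G / Z) (G' / Z') := by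
    have := mg.div mz (by positivity) G0.le G0'.le hZ hZ'
    rw [← pow_add] at this
    exact this
  have c0 : 0 < G / Z := div_pos G0 hZ
  have c0' : 0 < G' / Z' := div_pos G0' hZ'
  have mp : mc θ (p * wk (q - 1)) (p' * wk (q - 1)) := by
    rw [mul_comm p, mul_comm p']
    exact H.p.smul w1.le
  have cA : ∀ {x y : ℝ}, mc θ x y → 0 ≤ x → 0 ≤ y →
      |G' / Z' * (p' * wk (q - 1)) * y - G / Z * (p * wk (q - 1)) * x| ≤ (θ ^ 16 - 1) * (G / Z * (p * wk (q - 1)) * x) := by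
    intro x y hxy hx hy
    have h1 := (mC.mul mp (by positivity) c0.le c0'.le (by positivity) (by positivity)).mul hxy (by positivity) (by positivity)
      (by positivity) hx hy
    have e6 : θ ^ 5 * θ * θ = θ ^ 7 := by ring
    rw [e6] at h1
    exact h1.rel ht (by norm_num) (by positivity) (by positivity)
  have cB : ∀ {x y : ℝ}, mc θ x y → 0 ≤ x → 0 ≤ y →
      |G' / Z' * wk q * y - G / Z * wk q * x| ≤ (θ ^ 16 - 1) * (G / Z * wk q * x) := by
    intro x y hxy hx hy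
    have h1 := mC.mul (hxy.smul w2.le) (by positivity) c0.le c0'.le (by positivity) (by positivity)
    rw [← pow_succ, ← mul_assoc, ← mul_assoc] at h1
    exact h1.rel ht (by norm_num) (by positivity) (by positivity)
  have eD : G / Z * (p * wk (q - 1)) * ml (q - 1) * (G / Z * wk q * mr q) -
      G / Z * wk q * ml q * (G / Z * (p * wk (q - 1)) * mr (q - 1)) =
      (G / Z) * (G / Z) * (p * wk (q - 1)) * (ml (q - 1) * mr q - ml q * mr (q - 1)) * wk q := by ring
  have eD' : G' / Z' * (p' * wk (q - 1)) * ml' (q - 1) * (G' / Z' * wk q * mr' q) -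
      G' / Z' * wk q * ml' q * (G' / Z' * (p' * wk (q - 1)) * mr' (q - 1)) =
      (G' / Z') * (G' / Z') * (p' * wk (q - 1)) * (ml' (q - 1) * mr' q - ml' q * mr' (q - 1)) * wk q := by ring
  have D0 : 0 ≤ G / Z * (p * wk (q - 1)) * ml (q - 1) * (G / Z * wk q * mr q) -
      G / Z * wk q * ml q * (G / Z * (p * wk (q - 1)) * mr (q - 1)) := by
    rw [eD]
    positivity
  have det : |(G' / Z' * (p' * wk (q - 1)) * ml' (q - 1) * (G' / Z' * wk q * mr' q) -
      G' / Z' * wk q * ml' q * (G' / Z' * (p' * wk (q - 1)) * mr' (q - 1))) -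
      (G / Z * (p * wk (q - 1)) * ml (q - 1) * (G / Z * wk q * mr q) -
      G / Z * wk q * ml q * (G / Z * (p * wk (q - 1)) * mr (q - 1)))| ≤
      (θ ^ 16 - 1) * (G / Z * (p * wk (q - 1)) * ml (q - 1) * (G / Z * wk q * mr q) -
      G / Z * wk q * ml q * (G / Z * (p * wk (q - 1)) * mr (q - 1))) := by
    rw [eD, eD']
    have h1 := ((mC.mul mC (by positivity) c0.le c0'.le c0.le c0'.le).mul mp (by positivity) (by positivity) (by positivity)
      (by positivity) (by positivity)).mul H.det (by positivity) (by positivity) (by positivity) hD hD'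
    have h2 := h1.smul w2.le
    rw [mul_comm (wk q), mul_comm (wk q)] at h2
    have e12 : θ ^ 5 * θ ^ 5 * θ * θ ^ 2 = θ ^ 13 := by ring
    rw [e12] at h2
    exact h2.rel ht (by norm_num) (by positivity) (by positivity)
  have hδ : 0 ≤ θ ^ 16 - 1 := by
    have := one_le_pow₀ ht (n := 16)
    linarith
  have hδ1 : θ ^ 16 - 1 ≤ 1 / 2 := by linarith [H.t16]
  -- the two logarithms
  have u1 : 1 + (G / Z * wk q * ml q + G / Z * wk q * mr q) * ((f q - f (q - 1)) / G) = Y / Z := by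
    rw [ey]
    field_simp
  have u1' : 1 + (G' / Z' * wk q * ml' q + G' / Z' * wk q * mr' q) * ((f' q - f' (q - 1)) / G') = Y' / Z' := by
    rw [ey']
    field_simp
  have u2 : 1 - (G / Z * (p * wk (q - 1)) * ml (q - 1) + G / Z * (p * wk (q - 1)) * mr (q - 1)) * ((f q - f (q - 1)) / G) =
      T / Z := by
    have e3 : T = Z - p * (wk (q - 1) * (ml (q - 1) + mr (q - 1))) * (f q - f (q - 1)) := by
      have e4 : Z = T + p * (wk (q - 1) * (ml (q - 1) + mr (q - 1))) * (f q - f (q - 1)) := hTZ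
      linarith
    rw [e3]
    field_simp
  have u2' : 1 - (G' / Z' * (p' * wk (q - 1)) * ml' (q - 1) + G' / Z' * (p' * wk (q - 1)) * mr' (q - 1)) *
      ((f' q - f' (q - 1)) / G') = T' / Z' := by
    have e3 : T' = Z' - p' * (wk (q - 1) * (ml' (q - 1) + mr' (q - 1))) * (f' q - f' (q - 1)) := by
      have e4 : Z' = T' + p' * (wk (q - 1) * (ml' (q - 1) + mr' (q - 1))) * (f' q - f' (q - 1)) := hTZ'
      linarith
    rw [e3]
    field_simp
  have hle : ∀ {j : ℕ}, j ≤ 16 → θ ^ j - 1 ≤ θ ^ 16 - 1 := fun hj => by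
    have := pow_le_pow_right₀ ht hj
    linarith
  have lam1 : |Real.log (Y' / Z') - Real.log (Y / Z)| ≤ θ ^ 16 - 1 := by
    have h1 := my.div mz (by positivity) hY.le hY'.le hZ hZ'
    rw [← pow_add] at h1
    exact (h1.log (by positivity) (by positivity)).trans (hle (by norm_num))
  have lam2 : |Real.log (T' / Z') - Real.log (T / Z)| ≤ θ ^ 16 - 1 := by
    have h1 := mt.div mz (by positivity) hT.le hT'.le hZ hZ'
    rw [← pow_add] at h1
    exact (h1.log (by positivity) (by positivity)).trans (hle (by norm_num))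
  have ck : 0 < (2 * κ')⁻¹ := by positivity
  have low1 : (2 * κ')⁻¹ ≤ Y' / Z' := by
    rw [inv_eq_one_div, div_le_div_iff₀ (by positivity) hZ']
    have := mul_pos hk0 hY'
    linarith
  have low2 : (2 * κ')⁻¹ ≤ T' / Z' := by
    rw [inv_eq_one_div, div_le_div_iff₀ (by positivity) hZ']
    have : 1 * T' ≤ κ' * T' := mul_le_mul_of_nonneg_right hk hT'.le
    linarith
  have hL0 : 0 ≤ Real.log (2 * κ') := Real.log_nonneg (by linarith)
  have hcL : -Real.log (2 * κ') ≤ Real.log (2 * κ')⁻¹ := by rw [Real.log_inv]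
  -- the number g
  set δ := θ ^ 16 - 1 with hδd
  set g := (f q - f (q - 1)) / G with hg
  set g' := (f' q - f' (q - 1)) / G' with hg'
  have ip : 0 < 1 / p := by positivity
  have D1 : |g| ≤ 2 * (1 + 1 / p) := by linarith
  have D1' : |g'| ≤ 2 * (1 + 1 / p) := by
    have i1 : 1 / p' ≤ 2 / p := by
      rw [div_le_div_iff₀ hp' hp]
      have i2 : θ ≤ 2 := by
        have i3 : θ ^ 1 ≤ θ ^ 16 := pow_le_pow_right₀ ht (by norm_num)
        rw [pow_one] at i3
        linarith [H.t16]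
      have i4 := H.p.1
      have i5 := mul_le_mul_of_nonneg_right i2 hp'.le
      linarith
    have i2 : 2 / p = 2 * (1 / p) := by ring
    linarith
  have eg : g + 1 = (1 + p) * f q / G := by
    rw [hg, hG]
    field_simp
    ring
  have eg' : g' + 1 = (1 + p') * f' q / G' := by
    rw [hg', hG']
    field_simp
    ring
  have he : |g' - g| ≤ δ * (1 + 1 / p) := by
    have m1 : mc θ (1 + p) (1 + p') := (mc_refl ht zero_le_one).add H.p
    have m2 := (m1.mul (H.f q) (by positivity) (by positivity) (by positivity) f2.le f2'.le).div mg (by positivity)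
      (by positivity) (by positivity) G0 G0'
    have e4 : θ * θ * θ ^ 2 = θ ^ 4 := by ring
    rw [e4] at m2
    have m3 := m2.rel ht (by norm_num) (by positivity) (by positivity)
    have e1 : g' - g = (1 + p') * f' q / G' - (1 + p) * f q / G := by
      rw [← eg, ← eg']
      ring
    rw [e1]
    refine m3.trans (mul_le_mul_of_nonneg_left ?_ hδ)
    rw [div_le_iff₀ G0, hG]
    have e2 : (1 + 1 / p) * (f (q - 1) + p * f q) = (1 + 1 / p) * f (q - 1) + (1 + p) * f q := by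
      field_simp
      ring
    rw [e2]
    have : 0 < (1 + 1 / p) * f (q - 1) := by positivity
    linarith
  have key := pg_rel_log (lam := δ) ck (by positivity) (by positivity) (by positivity) (by positivity) (cA (H.l (q - 1)) l1 l1')
    (cA (H.r (q - 1)) r1 r1') (cB (H.l q) l2 l2') (cB (H.r q) r2 r2') hδ hδ1 D1 D1' he (by rw [u1']; exact low1)
    (by rw [u2']; exact low2) hL0 hcL (by rw [u1, u1']; exact lam1) (by rw [u2, u2']; exact lam2) D0 det
  refine key.trans ?_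
  rw [eD]
  have e9 : dw p wk ml mr f q / Z ^ 2 =
      (G / Z) * (G / Z) * (p * wk (q - 1)) * (ml (q - 1) * mr q - ml q * mr (q - 1)) * wk q := by
    unfold L91.dw
    rw [← hG]
    field_simp
  rw [e9]
  have hlog : Real.log (2 * κ') ≤ 1 + Real.log κ' := by
    rw [Real.log_mul two_ne_zero hk0.ne']
    have : Real.log 2 ≤ 1 := by
      have := Real.log_le_sub_one_of_pos (show (0 : ℝ) < 2 by norm_num)
      linarith
    linarith
  have hlk : 0 ≤ Real.log κ' := Real.log_nonneg hk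
  have e7 : (17 + 28 * Real.log (2 * κ')) * δ * (2 * (1 + 1 / p)) ^ 2 + 3 * (δ * (1 + 1 / p)) * (2 * (1 + 1 / p)) +
      9 * δ * (2 * (1 + 1 / p)) ^ 2 = δ * (1 + 1 / p) ^ 2 * (110 + 112 * Real.log (2 * κ')) := by ring
  rw [e7, mul_comm]
  refine mul_le_mul_of_nonneg_right ?_ (by positivity)
  have e8 : 228 * (1 + 1 / p) ^ 2 * (1 + Real.log κ') * δ = δ * (1 + 1 / p) ^ 2 * (228 * (1 + Real.log κ')) := by ring
  rw [e8]
  refine mul_le_mul_of_nonneg_left ?_ (by positivity)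
  linarith

/-- **THE CONTACT FUNCTIONAL UNDER A RELATIVE PERTURBATION.** -/
theorem ct_rel (h : Cutd lo hi p wk ml mr f q κ κ') (h' : Cutd lo hi p' wk ml' mr' f' q κ κ')
    (H : Tl θ p p' ml ml' mr mr' f f' q) :
    |ct lo hi p' wk ml' mr' f' q - ct lo hi p wk ml mr f q| ≤
      Kt p κ κ' * (θ ^ 16 - 1) * (dw p wk ml mr f q / rz lo hi p wk (fun y => ml y + mr y) f q ^ 2) := by
  have a1 := ctg_rel h h' H
  have a2 := ctl_rel h h' H
  have e : ct lo hi p' wk ml' mr' f' q - ct lo hi p wk ml mr f q = (ctg lo hi p' wk ml' mr' f' q - ctg lo hi p wk ml mr f q) -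
      (ctl lo hi p' wk ml' mr' f' q - ctl lo hi p wk ml mr f q) := by
    unfold ct
    ring
  rw [e]
  refine (_root_.abs_sub _ _).trans ((add_le_add a1 a2).trans (le_of_eq ?_))
  unfold Kt
  ring

/-- The same at the level `a`. -/
theorem cta_rel (h : Cutd lo hi p wk ml mr f q κ κ') (h' : Cutd lo hi p' wk ml' mr' f' q κ κ')
    (H : Tl θ p p' ml ml' mr mr' f f' q) (a : ℝ) :
    |cta lo hi p' wk ml' mr' f' q a - cta lo hi p wk ml mr f q a| ≤
      Kt p κ κ' * (θ ^ 16 - 1) * cw lo hi p wk ml mr f q * lg (a - lvl lo hi p wk ml mr f q) := by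
  have he := Real.exp_pos (-a)
  have key := ct_rel (cutd_rsmul h he) (cutd_rsmul h' he) (H.rsmul he)
  have e1 : rz lo hi p wk (fun y => ml y + Real.exp (-a) * mr y) f q =
      rz lo hi p wk ml f q + Real.exp (-a) * rz lo hi p wk mr f q := rz_lev _
  have e2 : dw p wk ml (fun y => Real.exp (-a) * mr y) f q = Real.exp (-a) * dw p wk ml mr f q := by
    unfold L91.dw
    ring
  rw [e1, e2, mul_comm (Real.exp (-a)), mul_div_assoc, lev_lg h.zl h.zr] at key
  unfold cta
  refine key.trans (le_of_eq ?_)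
  unfold cw lvl
  ring

/-- **THE LEVEL INTEGRAL UNDER A RELATIVE PERTURBATION.** -/
theorem Cc_rel (h : Cutd lo hi p wk ml mr f q κ κ') (h' : Cutd lo hi p' wk ml' mr' f' q κ κ')
    (H : Tl θ p p' ml ml' mr mr' f f' q) :
    |Cc lo hi p' wk ml' mr' f' q - Cc lo hi p wk ml mr f q| ≤ Kt p κ κ' * (θ ^ 16 - 1) * cw lo hi p wk ml mr f q := by
  unfold Cc
  rw [← integral_sub (int_cta h') (int_cta h)]
  have hi1 : Integrable fun a : ℝ => Kt p κ κ' * (θ ^ 16 - 1) * cw lo hi p wk ml mr f q * lg (a - lvl lo hi p wk ml mr f q) :=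
    (int_lg.comp_sub_right _).const_mul _
  refine (abs_integral_le_integral_abs).trans ((integral_mono ((int_cta h').sub (int_cta h)).abs hi1
    fun a => cta_rel h h' H a).trans ?_)
  rw [integral_const_mul, integral_sub_right_eq_self (μ := volume) lg, integral_lg, mul_one]

/-- **THE WEIGHT OF A CONTACT UNDER A RELATIVE PERTURBATION.** -/
theorem cw_rel (h : Cutd lo hi p wk ml mr f q κ κ') (h' : Cutd lo hi p' wk ml' mr' f' q κ κ')
    (H : Tl θ p p' ml ml' mr mr' f f' q) : mc (θ ^ 16) (cw lo hi p wk ml mr f q) (cw lo hi p' wk ml' mr' f' q) := by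
  have hp := h.p0
  have hp' := h'.p0
  have ht := H.t1
  have w1 := h.w0 (q - 1)
  have w2 := h.w0 q
  have f1 := h.f0 (q - 1)
  have f2 := h.f0 q
  have f1' := h'.f0 (q - 1)
  have f2' := h'.f0 q
  have hD := h.det
  have hD' := h'.det
  have zl := h.zl
  have zr := h.zr
  have zl' := h'.zl
  have zr' := h'.zr
  have ml3 := mc_rz (lo := lo) (hi := hi) (q := q) ht hp hp' H.p h.w0 h.f0 h'.f0 H.f h.l0 h'.l0 H.l
  have mr3 := mc_rz (lo := lo) (hi := hi) (q := q) ht hp hp' H.p h.w0 h.f0 h'.f0 H.f h.r0 h'.r0 H.r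
  have mg := mc_G ht hp hp' H.p h.f0 h'.f0 H.f (q - 1) q
  have a1 : mc θ (p * (wk (q - 1) * wk q)) (p' * (wk (q - 1) * wk q)) := by
    rw [mul_comm p, mul_comm p']
    exact H.p.smul (by positivity)
  have a2 : mc (θ ^ 2 * θ ^ 2) ((f (q - 1) + p * f q) ^ 2) ((f' (q - 1) + p' * f' q) ^ 2) := by
    rw [pow_two (f (q - 1) + p * f q), pow_two (f' (q - 1) + p' * f' q)]
    exact mg.mul mg (by positivity) (by positivity) (by positivity) (by positivity) (by positivity)
  have a3 := (H.det.mul a1 (by positivity) hD hD' (by positivity) (by positivity)).mul a2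
    (by positivity) (by positivity) (by positivity) (by positivity) (by positivity)
  have a4 := ml3.mul mr3 (by positivity) zl.le zl'.le zr.le zr'.le
  have a5 := a3.div a4 (by positivity) (by positivity) (by positivity) (by positivity) (by positivity)
  have e : θ ^ 2 * θ * (θ ^ 2 * θ ^ 2) * (θ ^ 3 * θ ^ 3) = θ ^ 13 := by ring
  rw [e] at a5
  unfold cw L91.dw
  exact a5.pw ht (by norm_num) (by positivity) (by positivity)

/-- **THE MEETING WEIGHT UNDER A RELATIVE PERTURBATION.** -/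
theorem mw_rel (h : Cutd lo hi p wk ml mr f q κ κ') (h' : Cutd lo hi p' wk ml' mr' f' q κ κ')
    (H : Tl θ p p' ml ml' mr mr' f f' q) (tl : 0 < tm lo hi p wk ml f) (tr : 0 < tm lo hi p wk mr f)
    (tl' : 0 < tm lo hi p' wk ml' f') (tr' : 0 < tm lo hi p' wk mr' f') :
    mc (θ ^ 16) (mw lo hi p wk ml mr f q) (mw lo hi p' wk ml' mr' f' q) := by
  have hp := h.p0
  have hp' := h'.p0
  have ht := H.t1
  have w1 := h.w0 (q - 1)
  have w2 := h.w0 q
  have f2 := h.f0 q
  have f2' := h'.f0 q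
  have hD := h.det
  have hD' := h'.det
  have ml3 := mc_tm (lo := lo) (hi := hi) ht hp hp' H.p h.w0 h.f0 h'.f0 H.f h.l0 h'.l0 H.l
  have mr3 := mc_tm (lo := lo) (hi := hi) ht hp hp' H.p h.w0 h.f0 h'.f0 H.f h.r0 h'.r0 H.r
  have a1 : mc θ (p * (wk (q - 1) * wk q)) (p' * (wk (q - 1) * wk q)) := by
    rw [mul_comm p, mul_comm p']
    exact H.p.smul (by positivity)
  have a2 : mc (θ * θ) (f q ^ 2) (f' q ^ 2) := by
    rw [pow_two, pow_two]
    exact (H.f q).mul (H.f q) (by positivity) f2.le f2'.le f2.le f2'.le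
  have a3 := H.det.mul (a1.mul a2 (by positivity) (by positivity) (by positivity) (by positivity) (by positivity))
    (by positivity) hD hD' (by positivity) (by positivity)
  have a4 := ml3.mul mr3 (by positivity) tl.le tl'.le tr.le tr'.le
  have a5 := a3.div a4 (by positivity) (by positivity) (by positivity) (by positivity) (by positivity)
  have e : θ ^ 2 * (θ * (θ * θ)) * (θ ^ 3 * θ ^ 3) = θ ^ 11 := by ring
  rw [e] at a5
  unfold mw
  exact a5.pw ht (by norm_num) (by positivity) (by positivity)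

end

end Pool.Agent.W_7d29a1_C1.K97
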