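import Pool.Agent.W_7d29a1_C1.LocR91

/-!
MP_7d29a1_pr, the attractor route: RELATIVE PERTURBATION OF THE CONTACT FUNCTIONALS, deterministic. (helper97)

Two rows with the same site weights whose masses, profile, step weight and LGV determinant at the cut agree up to a factor: the
contact functionals differ by at most the same relative amount of the WEIGHT of the contact (`dw`, `cw` of Loc91), the meeting
functionals agree up to a factor. This is the cost of a tilt of the step weights.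
-/

set_option autoImplicit false

namespace Pool.Agent.W_7d29a1_C1.K97

open Finset K91 L91 MeasureTheory

noncomputable section

/-! ### Two numbers which agree up to a factor -/

/-- Two numbers which agree up to the factor `θ`. -/
def mc (θ x y : ℝ) : Prop := x ≤ θ * y ∧ y ≤ θ * x

variable {θ θ2 x y z u : ℝ}

theorem mc_refl (ht : 1 ≤ θ) (hx : 0 ≤ x) : mc θ x x := by
  have := mul_le_mul_of_nonneg_right ht hx
  exact ⟨by linarith, by linarith⟩

theorem mc.symm (h : mc θ x y) : mc θ y x := ⟨h.2, h.1⟩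

theorem mc.mono (h : mc θ x y) (ht : θ ≤ θ2) (hx : 0 ≤ x) (hy : 0 ≤ y) : mc θ2 x y :=
  ⟨h.1.trans (mul_le_mul_of_nonneg_right ht hy), h.2.trans (mul_le_mul_of_nonneg_right ht hx)⟩

theorem mc.mul (h : mc θ x y) (h2 : mc θ2 z u) (ht : 0 ≤ θ) (hx : 0 ≤ x) (hy : 0 ≤ y) (hz : 0 ≤ z) (hu : 0 ≤ u) :
    mc (θ * θ2) (x * z) (y * u) := by
  have i1 := mul_le_mul h.1 h2.1 hz (mul_nonneg ht hy)
  have i2 := mul_le_mul h.2 h2.2 hu (mul_nonneg ht hx)
  exact ⟨i1.trans (le_of_eq (by ring)), i2.trans (le_of_eq (by ring))⟩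

theorem mc.add (h : mc θ x y) (h2 : mc θ z u) : mc θ (x + z) (y + u) := by
  have a1 := h.1
  have a2 := h.2
  have a3 := h2.1
  have a4 := h2.2
  exact ⟨by linarith, by linarith⟩

theorem mc.smul (h : mc θ x y) (hz : 0 ≤ z) : mc θ (z * x) (z * y) := by
  have i1 := mul_le_mul_of_nonneg_left h.1 hz
  have i2 := mul_le_mul_of_nonneg_left h.2 hz
  exact ⟨i1.trans (le_of_eq (by ring)), i2.trans (le_of_eq (by ring))⟩

theorem mc_sum {ι : Type*} {s : Finset ι} {g g' : ι → ℝ} (h : ∀ i ∈ s, mc θ (g i) (g' i)) :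
    mc θ (∑ i ∈ s, g i) (∑ i ∈ s, g' i) := by
  refine ⟨?_, ?_⟩
  · rw [mul_sum]
    exact sum_le_sum fun i hi => (h i hi).1
  · rw [mul_sum]
    exact sum_le_sum fun i hi => (h i hi).2

theorem mc.inv (h : mc θ x y) (hx : 0 < x) (hy : 0 < y) : mc θ x⁻¹ y⁻¹ := by
  refine ⟨?_, ?_⟩
  · rw [← div_eq_mul_inv, inv_eq_one_div, div_le_div_iff₀ hx hy]
    linarith [h.2]
  · rw [← div_eq_mul_inv, inv_eq_one_div, div_le_div_iff₀ hy hx]
    linarith [h.1]

theorem mc.div (h : mc θ x y) (h2 : mc θ2 z u) (ht : 0 ≤ θ) (hx : 0 ≤ x) (hy : 0 ≤ y) (hz : 0 < z) (hu : 0 < u) :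
    mc (θ * θ2) (x / z) (y / u) := by
  rw [div_eq_mul_inv, div_eq_mul_inv]
  exact h.mul (h2.inv hz hu) ht hx hy (inv_nonneg.2 hz.le) (inv_nonneg.2 hu.le)

theorem mc.abs_sub (h : mc θ x y) (ht : 1 ≤ θ) (hx : 0 ≤ x) : |y - x| ≤ (θ - 1) * x := by
  have a1 := h.1
  have a2 := h.2
  rw [abs_le]
  constructor
  · by_contra hc
    have hc1 : y < (2 - θ) * x := by linarith
    have k0 : θ * y < θ * ((2 - θ) * x) := mul_lt_mul_of_pos_left hc1 (by linarith)
    have k1 : 0 ≤ (θ - 1) ^ 2 * x := by positivity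
    have k2 : (θ - 1) ^ 2 * x = θ ^ 2 * x - 2 * θ * x + x := by ring
    have k3 : θ * ((2 - θ) * x) = 2 * θ * x - θ ^ 2 * x := by ring
    linarith
  · linarith

/-! ### The function `u - log (1 + u)` -/

/-- `u - log (1 + u)`. -/
def ph (u : ℝ) : ℝ := u - Real.log (1 + u)

theorem ph_zero : ph 0 = 0 := by
  unfold ph
  simp

theorem ph_sub_le {u v c M : ℝ} (hc : 0 < c) (hu : c ≤ 1 + u) (hv : c ≤ 1 + v) (hM : |u| ≤ M) : ph u - ph v ≤ |u - v| * M / c := by
  have u0 : 0 < 1 + u := by linarith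
  have v0 : 0 < 1 + v := by linarith
  have h1 : Real.log ((1 + v) / (1 + u)) ≤ (1 + v) / (1 + u) - 1 := Real.log_le_sub_one_of_pos (div_pos v0 u0)
  rw [Real.log_div v0.ne' u0.ne'] at h1
  have e1 : (1 + v) / (1 + u) - 1 = (v - u) / (1 + u) := by
    field_simp
    ring
  rw [e1] at h1
  have e2 : ph u - ph v ≤ (u - v) * u / (1 + u) := by
    have e3 : (u - v) * u / (1 + u) = (u - v) + (v - u) / (1 + u) := by
      field_simp
      ring
    rw [e3]
    unfold ph
    linarith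
  have e4 : (u - v) * u ≤ |u - v| * M := by
    refine (le_abs_self _).trans ?_
    rw [abs_mul]
    exact mul_le_mul_of_nonneg_left hM (abs_nonneg _)
  have e5 : 0 ≤ |u - v| * M := mul_nonneg (abs_nonneg _) ((abs_nonneg _).trans hM)
  calc ph u - ph v ≤ (u - v) * u / (1 + u) := e2
    _ ≤ |u - v| * M / (1 + u) := div_le_div_of_nonneg_right e4 u0.le
    _ ≤ |u - v| * M / c := div_le_div_of_nonneg_left e5 hc hu

theorem ph_lip {u v c M : ℝ} (hc : 0 < c) (hu : c ≤ 1 + u) (hv : c ≤ 1 + v) (hM : |u| ≤ M) (hM2 : |v| ≤ M) :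
    |ph u - ph v| ≤ |u - v| * M / c := by
  rw [abs_le]
  constructor
  · have := ph_sub_le hc hv hu hM2
    rw [abs_sub_comm] at this
    linarith
  · exact ph_sub_le hc hu hv hM

theorem ph_size {u c M : ℝ} (hc : 0 < c) (hc1 : c ≤ 1) (hu : c ≤ 1 + u) (hM : |u| ≤ M) : |ph u| ≤ M ^ 2 / c := by
  have h := ph_lip (v := 0) hc hu (by linarith) hM (by rw [abs_zero]; exact (abs_nonneg _).trans hM)
  rw [ph_zero, sub_zero, sub_zero] at h
  refine h.trans (div_le_div_of_nonneg_right ?_ hc.le)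
  rw [pow_two]
  exact mul_le_mul_of_nonneg_right hM ((abs_nonneg _).trans hM)

/-! ### The gain -/

theorem jl_ph {x y d : ℝ} (h0 : 0 < x + y) : jl x y d = x / (x + y) * ph (y * d) + y / (x + y) * ph (-(x * d)) := by
  have e1 : x / (x + y) * (1 + y * d) + (1 - x / (x + y)) * (1 - x * d) = 1 := by
    field_simp
    ring
  have e2 : 1 + -(x * d) = 1 - x * d := by ring
  have e3 : y / (x + y) = 1 - x / (x + y) := by
    field_simp
    ring
  have e4 : x / (x + y) * (y * d) + (1 - x / (x + y)) * (-(x * d)) = 0 := by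
    field_simp
    ring
  unfold jl jn ph
  rw [e1, e2, Real.log_one, e3]
  linear_combination -e4

theorem jl_size {x y d D c : ℝ} (hc : 0 < c) (hc1 : c ≤ 1) (hx : 0 ≤ x) (hy : 0 ≤ y) (ha : c ≤ 1 + y * d) (hb : c ≤ 1 - x * d)
    (hD : |d| ≤ D) : |jl x y d| ≤ x * y * D ^ 2 / c := by
  have hD0 : 0 ≤ D := (abs_nonneg _).trans hD
  rcases eq_or_lt_of_le (show 0 ≤ x + y by positivity) with h0 | h0
  · have hx0 : x = 0 := by linarith
    rw [hx0, jl_zero_left, abs_zero]
    simp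
  · rw [jl_ph h0]
    have s1 := ph_size hc hc1 ha (M := y * D) (by
      rw [abs_mul, abs_of_nonneg hy]
      exact mul_le_mul_of_nonneg_left hD hy)
    have s2 := ph_size (u := -(x * d)) hc hc1 (by linarith) (M := x * D) (by
      rw [abs_neg, abs_mul, abs_of_nonneg hx]
      exact mul_le_mul_of_nonneg_left hD hx)
    have t1 : 0 ≤ x / (x + y) := by positivity
    have t2 : 0 ≤ y / (x + y) := by positivity
    refine (abs_add_le _ _).trans ?_
    rw [abs_mul, abs_mul, abs_of_nonneg t1, abs_of_nonneg t2]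
    refine (add_le_add (mul_le_mul_of_nonneg_left s1 t1) (mul_le_mul_of_nonneg_left s2 t2)).trans (le_of_eq ?_)
    field_simp
    ring

/-- **The gain: relative perturbation.** -/
theorem jl_rel {x y x' y' d d' D δ ε c : ℝ} (hc : 0 < c) (hx : 0 ≤ x) (hy : 0 ≤ y) (hx' : 0 ≤ x') (hy' : 0 ≤ y')
    (h1 : |x' - x| ≤ δ * x) (h2 : |y' - y| ≤ δ * y) (hδ : 0 ≤ δ) (hδ1 : δ ≤ 1 / 2) (hd : |d| ≤ D) (hd' : |d'| ≤ D)
    (he : |d' - d| ≤ ε) (ha : c ≤ 1 + y * d) (hb : c ≤ 1 - x * d) (ha' : c ≤ 1 + y' * d') (hb' : c ≤ 1 - x' * d') :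
    |jl x' y' d' - jl x y d| ≤ (5 * δ * D ^ 2 + 2 * ε * D) * (x * y) / c := by
  have hD0 : 0 ≤ D := (abs_nonneg _).trans hd
  have he0 : 0 ≤ ε := (abs_nonneg _).trans he
  rcases eq_or_lt_of_le (show 0 ≤ x + y by positivity) with h0 | h0
  · have hx0 : x = 0 := by linarith
    have hx0' : x' = 0 := by
      rw [hx0, mul_zero, sub_zero] at h1
      exact abs_eq_zero.1 (le_antisymm h1 (abs_nonneg _))
    rw [hx0, hx0', jl_zero_left, jl_zero_left, sub_zero, abs_zero]
    simp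
  have x1 := (abs_le.1 h1).1
  have x2 := (abs_le.1 h1).2
  have y1 := (abs_le.1 h2).1
  have y2 := (abs_le.1 h2).2
  have dx : δ * x ≤ 1 / 2 * x := mul_le_mul_of_nonneg_right hδ1 hx
  have dy : δ * y ≤ 1 / 2 * y := mul_le_mul_of_nonneg_right hδ1 hy
  have h0' : 0 < x' + y' := by linarith
  rw [jl_ph h0, jl_ph h0']
  have e0 : x' / (x' + y') * ph (y' * d') + y' / (x' + y') * ph (-(x' * d')) -
      (x / (x + y) * ph (y * d) + y / (x + y) * ph (-(x * d))) =
      (x' / (x' + y') - x / (x + y)) * (ph (y' * d') - ph (-(x' * d'))) + x / (x + y) * (ph (y' * d') - ph (y * d)) +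
      y / (x + y) * (ph (-(x' * d')) - ph (-(x * d))) := by
    have e1 : y / (x + y) = 1 - x / (x + y) := by
      field_simp
      ring
    have e2 : y' / (x' + y') = 1 - x' / (x' + y') := by
      field_simp
      ring
    rw [e1, e2]
    ring
  rw [e0]
  -- the share
  have s0 : |x' / (x' + y') - x / (x + y)| * ((x' + y') * (x + y)) ≤ 2 * δ * (x * y) := by
    have e1 : (x' / (x' + y') - x / (x + y)) * ((x' + y') * (x + y)) = (x' - x) * y - x * (y' - y) := by
      field_simp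
      ring
    have e2 : |x' / (x' + y') - x / (x + y)| * ((x' + y') * (x + y)) = |(x' - x) * y - x * (y' - y)| := by
      rw [← e1, abs_mul, abs_of_pos (mul_pos h0' h0)]
    rw [e2]
    refine (_root_.abs_sub _ _).trans ?_
    rw [abs_mul, abs_mul, abs_of_nonneg hx, abs_of_nonneg hy]
    have i1 := mul_le_mul_of_nonneg_right h1 hy
    have i2 := mul_le_mul_of_nonneg_left h2 hx
    linarith
  have t1 : |(x' / (x' + y') - x / (x + y)) * (ph (y' * d') - ph (-(x' * d')))| ≤ 3 * δ * D ^ 2 * (x * y) / c := by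
    have p1 := ph_lip (u := y' * d') (v := -(x' * d')) hc ha' (by linarith) (M := (x' + y') * D)
      (by
        rw [abs_mul, abs_of_nonneg hy']
        exact mul_le_mul (by linarith) hd' (abs_nonneg _) (by linarith))
      (by
        rw [abs_neg, abs_mul, abs_of_nonneg hx']
        exact mul_le_mul (by linarith) hd' (abs_nonneg _) (by linarith))
    have p2 : |y' * d' - -(x' * d')| ≤ (x' + y') * D := by
      have e1 : y' * d' - -(x' * d') = (x' + y') * d' := by ring
      rw [e1, abs_mul, abs_of_pos h0']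
      exact mul_le_mul_of_nonneg_left hd' h0'.le
    have p3 : |ph (y' * d') - ph (-(x' * d'))| ≤ (x' + y') ^ 2 * D ^ 2 / c := by
      refine p1.trans (div_le_div_of_nonneg_right ?_ hc.le)
      refine (mul_le_mul_of_nonneg_right p2 (mul_nonneg h0'.le hD0)).trans (le_of_eq ?_)
      ring
    rw [abs_mul]
    have q0 := abs_nonneg (x' / (x' + y') - x / (x + y))
    have q1 : |x' / (x' + y') - x / (x + y)| * |ph (y' * d') - ph (-(x' * d'))| ≤
        |x' / (x' + y') - x / (x + y)| * ((x' + y') ^ 2 * D ^ 2 / c) := mul_le_mul_of_nonneg_left p3 q0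
    have q2 : (x' + y') ^ 2 ≤ 3 / 2 * ((x' + y') * (x + y)) := by
      have := mul_le_mul_of_nonneg_left (show x' + y' ≤ 3 / 2 * (x + y) by linarith) h0'.le
      linarith
    have q3 : (x' + y') ^ 2 * D ^ 2 / c ≤ 3 / 2 * ((x' + y') * (x + y)) * D ^ 2 / c :=
      div_le_div_of_nonneg_right (mul_le_mul_of_nonneg_right q2 (sq_nonneg D)) hc.le
    refine q1.trans ((mul_le_mul_of_nonneg_left q3 q0).trans ?_)
    have e1 : |x' / (x' + y') - x / (x + y)| * (3 / 2 * ((x' + y') * (x + y)) * D ^ 2 / c) =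
        3 / 2 * (|x' / (x' + y') - x / (x + y)| * ((x' + y') * (x + y))) * D ^ 2 / c := by ring
    rw [e1]
    refine div_le_div_of_nonneg_right ?_ hc.le
    have q4 := mul_le_mul_of_nonneg_right s0 (sq_nonneg D)
    linarith
  -- the values
  have r1 : |ph (y' * d') - ph (y * d)| ≤ y ^ 2 * ((δ * D + ε) * (3 / 2 * D)) / c := by
    have p1 := ph_lip (u := y' * d') (v := y * d) hc ha' ha (M := 3 / 2 * (y * D))
      (by
        rw [abs_mul, abs_of_nonneg hy']
        refine (mul_le_mul (show y' ≤ 3 / 2 * y by linarith) hd' (abs_nonneg _) (by linarith)).trans (le_of_eq ?_)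
        ring)
      (by
        rw [abs_mul, abs_of_nonneg hy]
        have := mul_le_mul_of_nonneg_left hd hy
        have h9 := mul_nonneg hy hD0
        linarith)
    have p2 : |y' * d' - y * d| ≤ y * (δ * D + ε) := by
      have e1 : y' * d' - y * d = (y' - y) * d' + y * (d' - d) := by ring
      rw [e1]
      refine (abs_add_le _ _).trans ?_
      rw [abs_mul, abs_mul, abs_of_nonneg hy]
      have i1 := mul_le_mul h2 hd' (abs_nonneg _) (by positivity)
      have i2 := mul_le_mul_of_nonneg_left he hy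
      linarith
    refine p1.trans (div_le_div_of_nonneg_right ?_ hc.le)
    refine (mul_le_mul_of_nonneg_right p2 (by positivity)).trans (le_of_eq ?_)
    ring
  have r2 : |ph (-(x' * d')) - ph (-(x * d))| ≤ x ^ 2 * ((δ * D + ε) * (3 / 2 * D)) / c := by
    have p1 := ph_lip (u := -(x' * d')) (v := -(x * d)) hc (by linarith) (by linarith) (M := 3 / 2 * (x * D))
      (by
        rw [abs_neg, abs_mul, abs_of_nonneg hx']
        refine (mul_le_mul (show x' ≤ 3 / 2 * x by linarith) hd' (abs_nonneg _) (by linarith)).trans (le_of_eq ?_)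
        ring)
      (by
        rw [abs_neg, abs_mul, abs_of_nonneg hx]
        have := mul_le_mul_of_nonneg_left hd hx
        have h9 := mul_nonneg hx hD0
        linarith)
    have p2 : |-(x' * d') - -(x * d)| ≤ x * (δ * D + ε) := by
      have e1 : -(x' * d') - -(x * d) = -((x' - x) * d' + x * (d' - d)) := by ring
      rw [e1, abs_neg]
      refine (abs_add_le _ _).trans ?_
      rw [abs_mul, abs_mul, abs_of_nonneg hx]
      have i1 := mul_le_mul h1 hd' (abs_nonneg _) (by positivity)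
      have i2 := mul_le_mul_of_nonneg_left he hx
      linarith
    refine p1.trans (div_le_div_of_nonneg_right ?_ hc.le)
    refine (mul_le_mul_of_nonneg_right p2 (by positivity)).trans (le_of_eq ?_)
    ring
  have c1 : 0 ≤ x / (x + y) := by positivity
  have c2 : 0 ≤ y / (x + y) := by positivity
  have t2 : |x / (x + y) * (ph (y' * d') - ph (y * d))| + |y / (x + y) * (ph (-(x' * d')) - ph (-(x * d)))| ≤
      (δ * D + ε) * (3 / 2 * D) * (x * y) / c := by
    rw [abs_mul, abs_mul, abs_of_nonneg c1, abs_of_nonneg c2]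
    refine (add_le_add (mul_le_mul_of_nonneg_left r1 c1) (mul_le_mul_of_nonneg_left r2 c2)).trans (le_of_eq ?_)
    field_simp
    ring
  have t3 := abs_add_three ((x' / (x' + y') - x / (x + y)) * (ph (y' * d') - ph (-(x' * d'))))
    (x / (x + y) * (ph (y' * d') - ph (y * d))) (y / (x + y) * (ph (-(x' * d')) - ph (-(x * d))))
  have t4 : 3 * δ * D ^ 2 * (x * y) / c + (δ * D + ε) * (3 / 2 * D) * (x * y) / c ≤
      (5 * δ * D ^ 2 + 2 * ε * D) * (x * y) / c := by
    rw [← add_div]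
    refine div_le_div_of_nonneg_right ?_ hc.le
    have h9 : 0 ≤ 1 / 2 * (δ * D ^ 2 * (x * y)) + 1 / 2 * (ε * D * (x * y)) := by positivity
    have e9 : (5 * δ * D ^ 2 + 2 * ε * D) * (x * y) = 3 * δ * D ^ 2 * (x * y) + (δ * D + ε) * (3 / 2 * D) * (x * y) +
        (1 / 2 * (δ * D ^ 2 * (x * y)) + 1 / 2 * (ε * D * (x * y))) := by ring
    rw [e9]
    linarith
  linarith

/-! ### Interface law times gain -/

variable {a b a2 b2 a' b' a2' b2' d d' D δ ε c : ℝ}

theorem pg_zero (h : a + b = 0 ∨ a2 + b2 = 0) : pg a b a2 b2 d = 0 := by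
  unfold pg
  rcases h with h | h
  · rw [h, jl_zero_left, mul_zero]
  · rw [h, jl_zero_right, mul_zero]

theorem rel_zero {t t' : ℝ} (h : |t' - t| ≤ δ * t) (h0 : t = 0) : t' = 0 := by
  rw [h0, mul_zero, sub_zero] at h
  exact abs_eq_zero.1 (le_antisymm h (abs_nonneg _))

/-- **Interface law times gain: relative perturbation.** -/
theorem pg_rel (hc : 0 < c) (hc1 : c ≤ 1) (ha : 0 ≤ a) (hb : 0 ≤ b) (ha2 : 0 ≤ a2) (hb2 : 0 ≤ b2) (h1 : |a' - a| ≤ δ * a) (h2 : |b' - b| ≤ δ * b) (h3 : |a2' - a2| ≤ δ * a2)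
    (h4 : |b2' - b2| ≤ δ * b2) (hδ : 0 ≤ δ) (hδ1 : δ ≤ 1 / 2) (hd : |d| ≤ D) (hd' : |d'| ≤ D) (he : |d' - d| ≤ ε)
    (k1 : c ≤ 1 + (a2 + b2) * d) (k2 : c ≤ 1 - (a + b) * d) (k1' : c ≤ 1 + (a2' + b2') * d') (k2' : c ≤ 1 - (a' + b') * d')
    (hD : 0 ≤ a * b2 - a2 * b) (hdet : |(a' * b2' - a2' * b') - (a * b2 - a2 * b)| ≤ δ * (a * b2 - a2 * b)) :
    |pg a' b' a2' b2' d' - pg a b a2 b2 d| ≤ (a * b2 - a2 * b) * (9 * δ * D ^ 2 + 2 * ε * D) / c := by
  have hD0 : 0 ≤ D := (abs_nonneg _).trans hd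
  have he0 : 0 ≤ ε := (abs_nonneg _).trans he
  have f1 : |(a' + b') - (a + b)| ≤ δ * (a + b) := by
    have e0 : (a' + b') - (a + b) = (a' - a) + (b' - b) := by ring
    rw [e0]
    refine (abs_add_le _ _).trans ?_
    linarith
  have f2 : |(a2' + b2') - (a2 + b2)| ≤ δ * (a2 + b2) := by
    have e0 : (a2' + b2') - (a2 + b2) = (a2' - a2) + (b2' - b2) := by ring
    rw [e0]
    refine (abs_add_le _ _).trans ?_
    linarith
  by_cases x0 : a + b = 0
  · rw [pg_zero (Or.inl x0), pg_zero (Or.inl (rel_zero f1 x0)), sub_zero, abs_zero]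
    positivity
  by_cases y0 : a2 + b2 = 0
  · rw [pg_zero (Or.inr y0), pg_zero (Or.inr (rel_zero f2 y0)), sub_zero, abs_zero]
    positivity
  have xx : 0 < a + b := lt_of_le_of_ne (by positivity) (Ne.symm x0)
  have yy : 0 < a2 + b2 := lt_of_le_of_ne (by positivity) (Ne.symm y0)
  have xx' : 0 < a' + b' := by
    have i1 := (abs_le.1 f1).1
    have i2 := mul_le_mul_of_nonneg_right hδ1 xx.le
    linarith
  have yy' : 0 < a2' + b2' := by
    have i1 := (abs_le.1 f2).1
    have i2 := mul_le_mul_of_nonneg_right hδ1 yy.le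
    linarith
  have r0 := ro_mul (a := a) (b := b) (a2 := a2) (b2 := b2) xx.ne' yy.ne'
  have r0' := ro_mul (a := a') (b := b') (a2 := a2') (b2 := b2') xx'.ne' yy'.ne'
  have g1 := jl_rel hc xx.le yy.le xx'.le yy'.le f1 f2 hδ hδ1 hd hd' he k1 k2 k1' k2'
  have g2 := jl_size hc hc1 xx'.le yy'.le k1' k2' hd'
  have ro0 : 0 ≤ ro a b a2 b2 := by
    by_contra hn
    have : ro a b a2 b2 * ((a + b) * (a2 + b2)) < 0 := mul_neg_of_neg_of_pos (by linarith) (mul_pos xx yy)
    linarith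
  have e1 : pg a' b' a2' b2' d' - pg a b a2 b2 d = (ro a' b' a2' b2' - ro a b a2 b2) * jl (a' + b') (a2' + b2') d' +
      ro a b a2 b2 * (jl (a' + b') (a2' + b2') d' - jl (a + b) (a2 + b2) d) := by
    unfold pg
    ring
  have m2 : |ro a b a2 b2 * (jl (a' + b') (a2' + b2') d' - jl (a + b) (a2 + b2) d)| ≤
      (a * b2 - a2 * b) * (5 * δ * D ^ 2 + 2 * ε * D) / c := by
    rw [abs_mul, abs_of_nonneg ro0]
    refine (mul_le_mul_of_nonneg_left g1 ro0).trans (le_of_eq ?_)
    rw [← r0]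
    ring
  have m1 : |(ro a' b' a2' b2' - ro a b a2 b2) * jl (a' + b') (a2' + b2') d'| ≤ (a * b2 - a2 * b) * (4 * δ * D ^ 2) / c := by
    rw [abs_mul]
    have n1 := mul_le_mul_of_nonneg_left g2 (abs_nonneg (ro a' b' a2' b2' - ro a b a2 b2))
    refine n1.trans ?_
    have e2 : |ro a' b' a2' b2' - ro a b a2 b2| * ((a' + b') * (a2' + b2') * D ^ 2 / c) =
        |(ro a' b' a2' b2' - ro a b a2 b2) * ((a' + b') * (a2' + b2'))| * D ^ 2 / c := by
      rw [abs_mul, abs_of_pos (mul_pos xx' yy')]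
      ring
    rw [e2]
    have e3 : (ro a' b' a2' b2' - ro a b a2 b2) * ((a' + b') * (a2' + b2')) = ((a' * b2' - a2' * b') - (a * b2 - a2 * b)) -
        ro a b a2 b2 * ((((a' + b') - (a + b)) * (a2' + b2')) + (a + b) * ((a2' + b2') - (a2 + b2))) := by
      rw [← r0, ← r0']
      ring
    have i1 : a2' + b2' ≤ 3 / 2 * (a2 + b2) := by
      have i1 := (abs_le.1 f2).2
      have i2 := mul_le_mul_of_nonneg_right hδ1 yy.le
      linarith
    have i2 : |(((a' + b') - (a + b)) * (a2' + b2')) + (a + b) * ((a2' + b2') - (a2 + b2))| ≤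
        5 / 2 * δ * ((a + b) * (a2 + b2)) := by
      refine (abs_add_le _ _).trans ?_
      rw [abs_mul, abs_mul, abs_of_pos xx, abs_of_pos yy']
      have j1 := mul_le_mul f1 i1 yy'.le (mul_nonneg hδ xx.le)
      have j2 := mul_le_mul_of_nonneg_left f2 xx.le
      linarith
    have i3 : |(ro a' b' a2' b2' - ro a b a2 b2) * ((a' + b') * (a2' + b2'))| ≤ (a * b2 - a2 * b) * (4 * δ) := by
      rw [e3]
      refine (_root_.abs_sub _ _).trans ?_
      rw [abs_mul, abs_of_nonneg ro0]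
      have j1 := mul_le_mul_of_nonneg_left i2 ro0
      have j2 : ro a b a2 b2 * (5 / 2 * δ * ((a + b) * (a2 + b2))) = 5 / 2 * δ * (a * b2 - a2 * b) := by
        rw [← r0]
        ring
      have j3 : 0 ≤ δ * (a * b2 - a2 * b) := mul_nonneg hδ hD
      linarith
    refine div_le_div_of_nonneg_right ?_ hc.le
    refine (mul_le_mul_of_nonneg_right i3 (sq_nonneg D)).trans (le_of_eq ?_)
    ring
  rw [e1]
  refine (abs_add_le _ _).trans ((add_le_add m1 m2).trans (le_of_eq ?_))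
  ring

/-! ### The loss is a gain -/

theorem jq_jl {x y v : ℝ} (h1 : 0 < 1 + x * (v - 1)) (h2 : 0 < 1 + (x + y) * (v - 1)) (hx : 0 ≤ x) (hy : 0 ≤ y) :
    jq x y v = jl x y ((v - 1) / (1 + x * (v - 1))) := by
  have hz := h1.ne'
  have e1 : 1 + y * ((v - 1) / (1 + x * (v - 1))) = (1 + x * (v - 1))⁻¹ * (1 + (x + y) * (v - 1)) := by
    rw [eq_comm, inv_mul_eq_div, div_eq_iff hz]
    linear_combination (-y) * div_mul_cancel₀ (v - 1) hz
  have e2 : 1 - x * ((v - 1) / (1 + x * (v - 1))) = (1 + x * (v - 1))⁻¹ * 1 := by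
    rw [eq_comm, inv_mul_eq_div, div_eq_iff hz]
    linear_combination x * div_mul_cancel₀ (v - 1) hz
  unfold jq jl
  rw [e1, e2, jn_smul (inv_pos.2 h1) (by positivity) (div_le_one_of_le₀ (by linarith) (by positivity)) h2 one_pos]

theorem pq_pg {a b a2 b2 v : ℝ} (h1 : 0 < 1 + (a + b) * (v - 1)) (h2 : 0 < 1 + ((a + b) + (a2 + b2)) * (v - 1))
    (hx : 0 ≤ a + b) (hy : 0 ≤ a2 + b2) : pq a b a2 b2 v = pg a b a2 b2 ((v - 1) / (1 + (a + b) * (v - 1))) := by
  unfold pq pg
  rw [jq_jl h1 h2 hx hy]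

end

end Pool.Agent.W_7d29a1_C1.K97
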