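import Pool.Agent.W_7d29a1_C1.PertN97

/-!
MP_7d29a1_pr, the attractor route: THE LEVEL INTEGRAL OF A CONTACT BOX. (helper97)

On a success the contact functional at the level `a` is `lev' a * phi (lev a)` up to `K`, `phi` = functional of the inside. The
integral against a smooth density `g` of the level is `g B * Int phi` up to the oscillation of `g` and the tails, `B = log (B2 / A1)`.
-/

set_option autoImplicit false

namespace Pool.Agent.W_7d29a1_C1.K97

open Finset K91 MeasureTheory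

noncomputable section

/-! ### The inverse of the level -/

/-- The outer level of an inner level. -/
def alev (A1 A2 B1 B2 c : ℝ) : ℝ := -Real.log ((A1 - Real.exp c * A2) / (Real.exp c * B2 - B1))

variable {A1 A2 B1 B2 : ℝ}

theorem alev_lev (a1 : 0 < A1) (a2 : 0 < A2) (b1 : 0 < B1) (b2 : 0 < B2) (hd : 0 < A1 * B2 - A2 * B1) (a : ℝ) :
    alev A1 A2 B1 B2 (lev A1 A2 B1 B2 a) = a := by
  have h0 := Real.exp_pos (-a)
  have h1 : 0 < A1 + Real.exp (-a) * B1 := by positivity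
  have h2 : 0 < A2 + Real.exp (-a) * B2 := by positivity
  have e0 : Real.exp (lev A1 A2 B1 B2 a) = (A1 + Real.exp (-a) * B1) / (A2 + Real.exp (-a) * B2) := by
    have e := exp_lev h1 h2
    rw [Real.exp_neg] at e
    rw [← inv_inv (Real.exp (lev A1 A2 B1 B2 a)), e, inv_div]
  unfold alev
  rw [e0]
  have e1 : A1 - (A1 + Real.exp (-a) * B1) / (A2 + Real.exp (-a) * B2) * A2 =
      Real.exp (-a) * ((A1 * B2 - A2 * B1) / (A2 + Real.exp (-a) * B2)) := by
    field_simp
    ring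
  have e2 : (A1 + Real.exp (-a) * B1) / (A2 + Real.exp (-a) * B2) * B2 - B1 =
      (A1 * B2 - A2 * B1) / (A2 + Real.exp (-a) * B2) := by
    field_simp
    ring
  have h3 : 0 < (A1 * B2 - A2 * B1) / (A2 + Real.exp (-a) * B2) := div_pos hd h2
  rw [e1, e2, mul_div_assoc, div_self h3.ne', mul_one, Real.log_exp, neg_neg]

/-- Inside the window the outer level is the inner one plus the balance, up to one. -/
theorem alev_near (a1 : 0 < A1) (a2 : 0 < A2) (b1 : 0 < B1) (b2 : 0 < B2) {M c : ℝ}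
    (w1 : Real.log (B1 / B2) ≤ -(M + 1)) (w2 : M + 1 ≤ Real.log (A1 / A2)) (hc : |c| ≤ M) :
    |alev A1 A2 B1 B2 c - Real.log (B2 / A1)| ≤ M + 1 := by
  have c1 := (abs_le.1 hc).1
  have c2 := (abs_le.1 hc).2
  have he : (2 : ℝ) ≤ Real.exp 1 := by
    have := Real.add_one_le_exp (1 : ℝ)
    linarith
  have hec := Real.exp_pos c
  -- the top
  have t1 : 2 * (Real.exp c * A2) ≤ A1 := by
    have k1 : Real.exp (M + 1) ≤ A1 / A2 := by
      have := Real.exp_le_exp.2 w2
      rwa [Real.exp_log (by positivity)] at this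
    rw [le_div_iff₀ a2] at k1
    have k2 : 2 * Real.exp c ≤ Real.exp (M + 1) := by
      rw [Real.exp_add, mul_comm]
      exact mul_le_mul (Real.exp_le_exp.2 c2) he (by norm_num) (Real.exp_pos _).le
    have k3 := mul_le_mul_of_nonneg_right k2 a2.le
    linarith
  have t2 : 2 * B1 ≤ Real.exp c * B2 := by
    have k1 : B1 / B2 ≤ Real.exp (-(M + 1)) := by
      have := Real.exp_le_exp.2 w1
      rwa [Real.exp_log (by positivity)] at this
    rw [div_le_iff₀ b2] at k1
    have k2 : 2 * Real.exp (-(M + 1)) ≤ Real.exp c := by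
      have k4 : Real.exp (-(M + 1)) * Real.exp 1 = Real.exp (-M) := by
        rw [← Real.exp_add]
        congr 1
        ring
      have k5 : Real.exp (-M) ≤ Real.exp c := Real.exp_le_exp.2 c1
      have k6 := mul_le_mul_of_nonneg_left he (Real.exp_pos (-(M + 1))).le
      linarith
    have k3 := mul_le_mul_of_nonneg_right k2 b2.le
    linarith
  have hx : 0 < A1 - Real.exp c * A2 := by
    have := mul_pos hec a2
    linarith
  have hy : 0 < Real.exp c * B2 - B1 := by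
    have := mul_pos hec b2
    linarith
  have e1 : alev A1 A2 B1 B2 c - Real.log (B2 / A1) - c =
      Real.log ((Real.exp c * B2 - B1) / (Real.exp c * B2)) - Real.log ((A1 - Real.exp c * A2) / A1) := by
    unfold alev
    rw [Real.log_div hx.ne' hy.ne', Real.log_div b2.ne' a1.ne', Real.log_div hy.ne' (mul_pos hec b2).ne',
      Real.log_mul hec.ne' b2.ne', Real.log_exp, Real.log_div hx.ne' a1.ne']
    ring
  have l2 : Real.log 2 ≤ 1 := by
    have := Real.log_le_sub_one_of_pos (show (0 : ℝ) < 2 by norm_num)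
    linarith
  have bd : ∀ {x y : ℝ}, 0 < y → 2 * x ≤ y → 0 ≤ x → |Real.log ((y - x) / y)| ≤ Real.log 2 := by
    intro x y hy h hx
    have g1 : (1 : ℝ) / 2 ≤ (y - x) / y := by
      rw [le_div_iff₀ hy]
      linarith
    have g2 : (y - x) / y ≤ 1 := by
      rw [div_le_one hy]
      linarith
    have g3 : Real.log ((y - x) / y) ≤ 0 := Real.log_nonpos (by linarith) g2
    have g4 : Real.log (1 / 2) ≤ Real.log ((y - x) / y) := Real.log_le_log (by norm_num) g1
    rw [one_div, Real.log_inv] at g4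
    rw [abs_le]
    constructor <;> linarith
  have n1 := bd (mul_pos hec b2) t2 b1.le
  have n2 := bd a1 t1 (mul_pos hec a2).le
  -- signs: both logarithms are in [- log 2, 0]
  have s1 : Real.log ((Real.exp c * B2 - B1) / (Real.exp c * B2)) ≤ 0 :=
    Real.log_nonpos (div_nonneg hy.le (mul_pos hec b2).le) (by rw [div_le_one (mul_pos hec b2)]; linarith)
  have s2 : Real.log ((A1 - Real.exp c * A2) / A1) ≤ 0 :=
    Real.log_nonpos (div_nonneg hx.le a1.le) (by rw [div_le_one a1]; have := mul_pos hec a2; linarith)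
  have m1 := (abs_le.1 n1).1
  have m2 := (abs_le.1 n2).1
  have e2 : alev A1 A2 B1 B2 c - Real.log (B2 / A1) =
      c + (Real.log ((Real.exp c * B2 - B1) / (Real.exp c * B2)) - Real.log ((A1 - Real.exp c * A2) / A1)) := by
    linarith
  rw [e2, abs_le]
  constructor <;> linarith

theorem measurable_lev : Measurable (lev A1 A2 B1 B2) := by
  unfold lev
  fun_prop

theorem measurable_lev' : Measurable (lev' A1 A2 B1 B2) := by
  unfold lev'
  fun_prop

theorem lev'_nonneg (a1 : 0 < A1) (a2 : 0 < A2) (b1 : 0 < B1) (b2 : 0 < B2) (hd : 0 < A1 * B2 - A2 * B1) (a : ℝ) :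
    0 ≤ lev' A1 A2 B1 B2 a := by
  unfold lev'
  positivity

/-- Integrability through the level. -/
theorem integrable_lev (a1 : 0 < A1) (a2 : 0 < A2) (b1 : 0 < B1) (b2 : 0 < B2) (hd : 0 < A1 * B2 - A2 * B1)
    {φ : ℝ → ℝ} (hφ : Integrable φ) : Integrable fun a => lev' A1 A2 B1 B2 a * φ (lev A1 A2 B1 B2 a) := by
  have hD : ∀ a ∈ (Set.univ : Set ℝ), HasDerivWithinAt (lev A1 A2 B1 B2) (lev' A1 A2 B1 B2 a) Set.univ a := by
    intro a _
    have h1 : 0 < A1 + Real.exp (-a) * B1 := by positivity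
    have h2 : 0 < A2 + Real.exp (-a) * B2 := by positivity
    exact (hasDerivAt_lev h1 h2).hasDerivWithinAt
  have h := (integrableOn_image_iff_integrableOn_abs_deriv_smul (f := lev A1 A2 B1 B2) MeasurableSet.univ hD
    (lev_inj a1 a2 b1 b2 hd).injective.injOn φ).1 hφ.integrableOn
  rw [integrableOn_univ] at h
  refine h.congr (Filter.Eventually.of_forall fun a => ?_)
  simp only [smul_eq_mul]
  rw [abs_of_nonneg (lev'_nonneg a1 a2 b1 b2 hd a)]

/-- **The level integral of a functional of the inside.** -/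
theorem level_int (a1 : 0 < A1) (a2 : 0 < A2) (b1 : 0 < B1) (b2 : 0 < B2) (hd : 0 < A1 * B2 - A2 * B1)
    {F φ g : ℝ → ℝ} {K S s0 G M O tl : ℝ} (hFm : Measurable F) (hgm : Measurable g)
    (hφ : Integrable φ) (hφm : Measurable φ)
    (hK : ∀ a, |F a - lev' A1 A2 B1 B2 a * φ (lev A1 A2 B1 B2 a)| ≤ K)
    (hg : ∀ a, |g a| ≤ G) (hs : ∀ a, a ∉ Set.Icc s0 (s0 + S) → g a = 0) (hS : 0 ≤ S)
    (hO : ∀ a, |a - Real.log (B2 / A1)| ≤ M + 1 → |g a - g (Real.log (B2 / A1))| ≤ O)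
    (w1 : Real.log (B1 / B2) ≤ -(M + 1)) (w2 : M + 1 ≤ Real.log (A1 / A2)) (hM : 0 ≤ M)
    (ht : ∫ c in {c | M < |c|}, |φ c| ≤ tl) :
    |(∫ a, g a * F a) - g (Real.log (B2 / A1)) * ∫ c, φ c| ≤ S * (G * K) + O * (∫ c, |φ c|) + 2 * (G * tl) := by
  have hlm : Measurable (lev A1 A2 B1 B2) := measurable_lev
  have hlm' : Measurable (lev' A1 A2 B1 B2) := measurable_lev'
  have hG : 0 ≤ G := (abs_nonneg _).trans (hg 0)
  have hK0 : 0 ≤ K := (abs_nonneg _).trans (hK 0)
  set L := lev A1 A2 B1 B2 with hL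
  set L' := lev' A1 A2 B1 B2 with hL'
  set B := Real.log (B2 / A1) with hB
  have hO0 : 0 ≤ O := (abs_nonneg _).trans (hO B (by rw [sub_self, abs_zero]; linarith))
  -- first part
  have i1 : Integrable fun a => L' a * φ (L a) := integrable_lev a1 a2 b1 b2 hd hφ
  have i2 : Integrable fun a => g a * (L' a * φ (L a)) :=
    i1.bdd_mul hgm.aestronglyMeasurable (Filter.Eventually.of_forall fun a => by
      rw [Real.norm_eq_abs]
      exact hg a)
  have i3 : Integrable ((Set.Icc s0 (s0 + S)).indicator fun _ => G * K) :=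
    (integrable_indicator_iff measurableSet_Icc).2 (integrableOn_const (by simp))
  have b3 : ∀ a, ‖g a * (F a - L' a * φ (L a))‖ ≤ (Set.Icc s0 (s0 + S)).indicator (fun _ => G * K) a := by
    intro a
    by_cases ha : a ∈ Set.Icc s0 (s0 + S)
    · rw [Set.indicator_of_mem ha, norm_mul, Real.norm_eq_abs, Real.norm_eq_abs]
      exact mul_le_mul (hg a) (hK a) (abs_nonneg _) hG
    · rw [Set.indicator_of_notMem ha, hs a ha, zero_mul, norm_zero]
  have i4 : Integrable fun a => g a * (F a - L' a * φ (L a)) :=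
    i3.mono' ((hgm.mul (hFm.sub (hlm'.mul (hφm.comp hlm)))).aestronglyMeasurable) (Filter.Eventually.of_forall b3)
  have s1 : ∫ a, g a * F a = (∫ a, g a * (L' a * φ (L a))) + ∫ a, g a * (F a - L' a * φ (L a)) := by
    rw [← integral_add i2 i4]
    refine integral_congr_ae (Filter.Eventually.of_forall fun a => ?_)
    show g a * F a = g a * (L' a * φ (L a)) + g a * (F a - L' a * φ (L a))
    ring
  have r1 : |∫ a, g a * (F a - L' a * φ (L a))| ≤ S * (G * K) := by
    have := norm_integral_le_of_norm_le i3 (Filter.Eventually.of_forall b3)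
    rw [Real.norm_eq_abs] at this
    refine this.trans (le_of_eq ?_)
    rw [integral_indicator measurableSet_Icc, setIntegral_const, smul_eq_mul, Measure.real, Real.volume_Icc,
      ENNReal.toReal_ofReal (by linarith)]
    ring
  -- second part
  set W : Set ℝ := Set.Ioo (Real.log (B1 / B2)) (Real.log (A1 / A2)) with hW
  have s2 : ∫ a, g a * (L' a * φ (L a)) = ∫ c in W, g (alev A1 A2 B1 B2 c) * φ c := by
    rw [hW, ← int_lev a1 a2 b1 b2 hd (fun c => g (alev A1 A2 B1 B2 c) * φ c)]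
    refine integral_congr_ae (Filter.Eventually.of_forall fun a => ?_)
    show g a * (L' a * φ (L a)) = lev' A1 A2 B1 B2 a * (g (alev A1 A2 B1 B2 (lev A1 A2 B1 B2 a)) * φ (lev A1 A2 B1 B2 a))
    rw [alev_lev a1 a2 b1 b2 hd a, ← hL, ← hL']
    ring
  have hWm : MeasurableSet W := measurableSet_Ioo
  have ham : Measurable (alev A1 A2 B1 B2) := by
    unfold alev
    fun_prop
  have j1 : Integrable (W.indicator fun c => g (alev A1 A2 B1 B2 c) * φ c) := by
    rw [integrable_indicator_iff hWm]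
    refine (hφ.bdd_mul (c := G) (hgm.comp ham).aestronglyMeasurable (Filter.Eventually.of_forall fun c => ?_)).integrableOn
    rw [Real.norm_eq_abs]
    exact hg _
  have s3 : (∫ a, g a * (L' a * φ (L a))) - g B * ∫ c, φ c =
      ∫ c, (W.indicator (fun c => g (alev A1 A2 B1 B2 c) * φ c) c - g B * φ c) := by
    rw [s2, integral_sub j1 (hφ.const_mul _), integral_indicator hWm, integral_const_mul]
  have hT : MeasurableSet {c : ℝ | M < |c|} := measurableSet_lt measurable_const (continuous_abs.measurable)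
  have ja : Integrable fun c => |φ c| := hφ.abs
  have j2 : Integrable fun c => O * |φ c| + 2 * G * {c : ℝ | M < |c|}.indicator (fun c => |φ c|) c :=
    (ja.const_mul _).add ((ja.indicator hT).const_mul _)
  have b4 : ∀ c, ‖W.indicator (fun c => g (alev A1 A2 B1 B2 c) * φ c) c - g B * φ c‖ ≤
      O * |φ c| + 2 * G * {c : ℝ | M < |c|}.indicator (fun c => |φ c|) c := by
    intro c
    rw [Real.norm_eq_abs]
    have p0 := abs_nonneg (φ c)
    by_cases hc : M < |c|
    · rw [Set.indicator_of_mem (show c ∈ {c : ℝ | M < |c|} from hc)]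
      have q1 : |W.indicator (fun c => g (alev A1 A2 B1 B2 c) * φ c) c| ≤ G * |φ c| := by
        by_cases hw : c ∈ W
        · rw [Set.indicator_of_mem hw, abs_mul]
          exact mul_le_mul_of_nonneg_right (hg _) p0
        · rw [Set.indicator_of_notMem hw, abs_zero]
          positivity
      have q2 : |g B * φ c| ≤ G * |φ c| := by
        rw [abs_mul]
        exact mul_le_mul_of_nonneg_right (hg _) p0
      have q3 := abs_sub (W.indicator (fun c => g (alev A1 A2 B1 B2 c) * φ c) c) (g B * φ c)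
      have q4 : 0 ≤ O * |φ c| := by positivity
      linarith
    · rw [Set.indicator_of_notMem (show c ∉ {c : ℝ | M < |c|} from hc), mul_zero, add_zero]
      have hc2 : |c| ≤ M := not_lt.1 hc
      have hw : c ∈ W := by
        have := (abs_le.1 hc2).1
        have := (abs_le.1 hc2).2
        rw [hW, Set.mem_Ioo]
        constructor <;> linarith
      rw [Set.indicator_of_mem hw, ← sub_mul, abs_mul]
      exact mul_le_mul_of_nonneg_right (hO _ (alev_near a1 a2 b1 b2 w1 w2 hc2)) p0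
  have r2 : |(∫ a, g a * (L' a * φ (L a))) - g B * ∫ c, φ c| ≤ O * (∫ c, |φ c|) + 2 * (G * tl) := by
    rw [s3]
    have := norm_integral_le_of_norm_le j2 (Filter.Eventually.of_forall b4)
    rw [Real.norm_eq_abs] at this
    refine this.trans ?_
    rw [integral_add (ja.const_mul _) ((ja.indicator hT).const_mul _), integral_const_mul, integral_const_mul,
      integral_indicator hT]
    have := mul_le_mul_of_nonneg_left ht (show 0 ≤ 2 * G by linarith)
    linarith
  have e : (∫ a, g a * F a) - g B * ∫ c, φ c =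
      (∫ a, g a * (F a - L' a * φ (L a))) + ((∫ a, g a * (L' a * φ (L a))) - g B * ∫ c, φ c) := by
    rw [s1]
    ring
  rw [e]
  refine (abs_add_le _ _).trans ?_
  linarith

/-! ### Decay in the level -/

theorem pg_le_b {a b a2 b2 d c M : ℝ} (hc : 0 < c) (h : Num a b a2 b2 d c) (hM : a + b ≤ M) (hM2 : a2 + b2 ≤ M) :
    |pg a b a2 b2 d| ≤ (b + b2) * (M * d ^ 2 / c ^ 2) := by
  have ha := h.a0
  have hb := h.b0
  have ha2 := h.a20
  have hb2 := h.b20
  have x0 : 0 ≤ a + b := by positivity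
  have y0 : 0 ≤ a2 + b2 := by positivity
  have hM0 : 0 ≤ M := x0.trans hM
  have g2 := jl_le hc x0 y0 h.l1 h.l2
  have g0 := jl_nonneg x0 y0 (lt_of_lt_of_le hc h.l1) (lt_of_lt_of_le hc h.l2)
  have hR : 0 ≤ (b + b2) * (M * d ^ 2 / c ^ 2) := by positivity
  rcases eq_or_lt_of_le x0 with h0 | h0
  · unfold pg
    rw [← h0, jl_zero_left, mul_zero, abs_zero]
    exact hR
  rcases eq_or_lt_of_le y0 with h1 | h1
  · unfold pg
    rw [← h1, jl_zero_right, mul_zero, abs_zero]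
    exact hR
  have e : ro a b a2 b2 = b2 / (a2 + b2) - b / (a + b) := by
    unfold ro
    field_simp
    ring
  have r : |ro a b a2 b2| ≤ b / (a + b) + b2 / (a2 + b2) := by
    rw [e]
    refine (abs_sub _ _).trans ?_
    rw [abs_of_nonneg (show 0 ≤ b2 / (a2 + b2) by positivity), abs_of_nonneg (show 0 ≤ b / (a + b) by positivity)]
    linarith
  unfold pg
  rw [abs_mul, abs_of_nonneg g0]
  calc |ro a b a2 b2| * jl (a + b) (a2 + b2) d
      ≤ (b / (a + b) + b2 / (a2 + b2)) * ((a + b) * (a2 + b2) * d ^ 2 / c ^ 2) := mul_le_mul r g2 g0 (by positivity)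
    _ = b * ((a2 + b2) * (d ^ 2 / c ^ 2)) + b2 * ((a + b) * (d ^ 2 / c ^ 2)) := by
        field_simp
    _ ≤ b * (M * (d ^ 2 / c ^ 2)) + b2 * (M * (d ^ 2 / c ^ 2)) := by gcongr
    _ = (b + b2) * (M * d ^ 2 / c ^ 2) := by ring

theorem pg_le_a {a b a2 b2 d c M : ℝ} (hc : 0 < c) (h : Num a b a2 b2 d c) (hM : a + b ≤ M) (hM2 : a2 + b2 ≤ M) :
    |pg a b a2 b2 d| ≤ (a + a2) * (M * d ^ 2 / c ^ 2) := by
  have ha := h.a0
  have hb := h.b0
  have ha2 := h.a20
  have hb2 := h.b20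
  have x0 : 0 ≤ a + b := by positivity
  have y0 : 0 ≤ a2 + b2 := by positivity
  have hM0 : 0 ≤ M := x0.trans hM
  have g2 := jl_le hc x0 y0 h.l1 h.l2
  have g0 := jl_nonneg x0 y0 (lt_of_lt_of_le hc h.l1) (lt_of_lt_of_le hc h.l2)
  have hR : 0 ≤ (a + a2) * (M * d ^ 2 / c ^ 2) := by positivity
  rcases eq_or_lt_of_le x0 with h0 | h0
  · unfold pg
    rw [← h0, jl_zero_left, mul_zero, abs_zero]
    exact hR
  rcases eq_or_lt_of_le y0 with h1 | h1
  · unfold pg
    rw [← h1, jl_zero_right, mul_zero, abs_zero]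
    exact hR
  have r : |ro a b a2 b2| ≤ a / (a + b) + a2 / (a2 + b2) := by
    unfold ro
    refine (abs_sub _ _).trans ?_
    rw [abs_of_nonneg (show 0 ≤ a2 / (a2 + b2) by positivity), abs_of_nonneg (show 0 ≤ a / (a + b) by positivity)]
  unfold pg
  rw [abs_mul, abs_of_nonneg g0]
  calc |ro a b a2 b2| * jl (a + b) (a2 + b2) d
      ≤ (a / (a + b) + a2 / (a2 + b2)) * ((a + b) * (a2 + b2) * d ^ 2 / c ^ 2) := mul_le_mul r g2 g0 (by positivity)
    _ = a * ((a2 + b2) * (d ^ 2 / c ^ 2)) + a2 * ((a + b) * (d ^ 2 / c ^ 2)) := by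
        field_simp
    _ ≤ a * (M * (d ^ 2 / c ^ 2)) + a2 * (M * (d ^ 2 / c ^ 2)) := by gcongr
    _ = (a + a2) * (M * d ^ 2 / c ^ 2) := by ring

theorem pq_le_b {a b a2 b2 v c : ℝ} (hc : 0 < c) (ha : 0 ≤ a) (hb : 0 ≤ b) (ha2 : 0 ≤ a2) (hb2 : 0 ≤ b2)
    (hs : (a + b) + (a2 + b2) ≤ 1) (hl : c ≤ 1 + ((a + b) + (a2 + b2)) * (v - 1)) :
    |pq a b a2 b2 v| ≤ (b + b2) * ((v - 1) ^ 2 / c) := by
  have x0 : 0 ≤ a + b := by positivity
  have y0 : 0 ≤ a2 + b2 := by positivity
  have g2 := jq_le hc x0 y0 hl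
  have g0 := jq_nonneg x0 y0 (lt_of_lt_of_le hc hl)
  have hR : 0 ≤ (b + b2) * ((v - 1) ^ 2 / c) := by positivity
  rcases eq_or_lt_of_le x0 with h0 | h0
  · unfold pq
    rw [← h0, jq_zero_left, mul_zero, abs_zero]
    exact hR
  rcases eq_or_lt_of_le y0 with h1 | h1
  · unfold pq
    rw [← h1, jq_zero_right, mul_zero, abs_zero]
    exact hR
  have e : ro a b a2 b2 = b2 / (a2 + b2) - b / (a + b) := by
    unfold ro
    field_simp
    ring
  have r : |ro a b a2 b2| ≤ b / (a + b) + b2 / (a2 + b2) := by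
    rw [e]
    refine (abs_sub _ _).trans ?_
    rw [abs_of_nonneg (show 0 ≤ b2 / (a2 + b2) by positivity), abs_of_nonneg (show 0 ≤ b / (a + b) by positivity)]
    linarith
  unfold pq
  rw [abs_mul, abs_of_nonneg g0]
  have i1 : a2 + b2 ≤ 1 := by linarith
  have i2 : a + b ≤ 1 := by linarith
  calc |ro a b a2 b2| * jq (a + b) (a2 + b2) v
      ≤ (b / (a + b) + b2 / (a2 + b2)) * ((a + b) * (a2 + b2) * (v - 1) ^ 2 / c) := mul_le_mul r g2 g0 (by positivity)
    _ = b * ((a2 + b2) * ((v - 1) ^ 2 / c)) + b2 * ((a + b) * ((v - 1) ^ 2 / c)) := by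
        field_simp
    _ ≤ b * (1 * ((v - 1) ^ 2 / c)) + b2 * (1 * ((v - 1) ^ 2 / c)) := by gcongr
    _ = (b + b2) * ((v - 1) ^ 2 / c) := by ring

theorem pq_le_a {a b a2 b2 v c : ℝ} (hc : 0 < c) (ha : 0 ≤ a) (hb : 0 ≤ b) (ha2 : 0 ≤ a2) (hb2 : 0 ≤ b2)
    (hs : (a + b) + (a2 + b2) ≤ 1) (hl : c ≤ 1 + ((a + b) + (a2 + b2)) * (v - 1)) :
    |pq a b a2 b2 v| ≤ (a + a2) * ((v - 1) ^ 2 / c) := by
  have x0 : 0 ≤ a + b := by positivity
  have y0 : 0 ≤ a2 + b2 := by positivity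
  have g2 := jq_le hc x0 y0 hl
  have g0 := jq_nonneg x0 y0 (lt_of_lt_of_le hc hl)
  have hR : 0 ≤ (a + a2) * ((v - 1) ^ 2 / c) := by positivity
  rcases eq_or_lt_of_le x0 with h0 | h0
  · unfold pq
    rw [← h0, jq_zero_left, mul_zero, abs_zero]
    exact hR
  rcases eq_or_lt_of_le y0 with h1 | h1
  · unfold pq
    rw [← h1, jq_zero_right, mul_zero, abs_zero]
    exact hR
  have r : |ro a b a2 b2| ≤ a / (a + b) + a2 / (a2 + b2) := by
    unfold ro
    refine (abs_sub _ _).trans ?_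
    rw [abs_of_nonneg (show 0 ≤ a2 / (a2 + b2) by positivity), abs_of_nonneg (show 0 ≤ a / (a + b) by positivity)]
  unfold pq
  rw [abs_mul, abs_of_nonneg g0]
  have i1 : a2 + b2 ≤ 1 := by linarith
  have i2 : a + b ≤ 1 := by linarith
  calc |ro a b a2 b2| * jq (a + b) (a2 + b2) v
      ≤ (a / (a + b) + a2 / (a2 + b2)) * ((a + b) * (a2 + b2) * (v - 1) ^ 2 / c) := mul_le_mul r g2 g0 (by positivity)
    _ = a * ((a2 + b2) * ((v - 1) ^ 2 / c)) + a2 * ((a + b) * ((v - 1) ^ 2 / c)) := by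
        field_simp
    _ ≤ a * (1 * ((v - 1) ^ 2 / c)) + a2 * (1 * ((v - 1) ^ 2 / c)) := by gcongr
    _ = (a + a2) * ((v - 1) ^ 2 / c) := by ring

/-! ### Decay of the row functionals -/

variable {p : ℝ} {lo hi : ℤ} {wk ml mr f : ℤ → ℝ} {q : ℤ} {kap : ℝ}

theorem kap_w {kap u v : ℝ} (k1 : 1 ≤ kap) (h1 : v ≤ kap) (h2 : 1 ≤ kap * u) : 1 / kap ^ 2 * v ≤ u := by
  have kp : 0 < kap := by linarith
  rw [div_mul_eq_mul_div, one_mul, div_le_iff₀ (by positivity)]
  have j3 := mul_le_mul_of_nonneg_left h2 kp.le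
  have j4 : kap * (kap * u) = u * kap ^ 2 := by ring
  linarith

/-- The gain numbers of a regular row. -/
theorem num_row (hp : 0 < p) (hw : ∀ y, 0 < wk y) (hf : ∀ y, 0 < f y) (R : Reg lo hi wk f q kap)
    (hl : ∀ y, 0 ≤ ml y) (hr : ∀ y, 0 ≤ mr y) (hZ : 0 < rz lo hi p wk (fun y => ml y + mr y) f q) :
    Num ((f (q - 1) + p * f q) / rz lo hi p wk (fun y => ml y + mr y) f q * ml (q - 1))
      ((f (q - 1) + p * f q) / rz lo hi p wk (fun y => ml y + mr y) f q * mr (q - 1))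
      ((f (q - 1) + p * f q) / rz lo hi p wk (fun y => ml y + mr y) f q * ml q)
      ((f (q - 1) + p * f q) / rz lo hi p wk (fun y => ml y + mr y) f q * mr q) (wk (q - 1) - wk q) (1 / kap ^ 2) ∧
    (f (q - 1) + p * f q) / rz lo hi p wk (fun y => ml y + mr y) f q * ml (q - 1) +
      (f (q - 1) + p * f q) / rz lo hi p wk (fun y => ml y + mr y) f q * mr (q - 1) ≤ kap ∧
    (f (q - 1) + p * f q) / rz lo hi p wk (fun y => ml y + mr y) f q * ml q +
      (f (q - 1) + p * f q) / rz lo hi p wk (fun y => ml y + mr y) f q * mr q ≤ kap := by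
  have k1 := R.k1
  have kp : 0 < kap := by linarith
  have cw1 : 1 / kap ^ 2 * wk q ≤ wk (q - 1) := kap_w k1 R.wr2 R.wl
  have cw2 : 1 / kap ^ 2 * wk (q - 1) ≤ wk q := kap_w k1 R.wl2 R.wr
  have hc1 : 1 / kap ^ 2 ≤ 1 := by
    rw [div_le_one (by positivity)]
    exact one_le_pow₀ k1
  have j1 := hf (q - 1)
  have j2 := hf q
  have j3 := hl (q - 1)
  have j4 := hr (q - 1)
  have j5 := hl q
  have j6 := hr q
  have s1 := rz_left hp hw hf (fun y => add_nonneg (hl y) (hr y)) R.q1 (lo := lo) (hi := hi)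
  have s2 := rz_right hp hw hf (fun y => add_nonneg (hl y) (hr y)) R.q2 (lo := lo) (hi := hi)
  set Y := rz lo hi p wk (fun y => ml y + mr y) f q with hY
  have e1 : (f (q - 1) + p * f q) / Y * ml (q - 1) + (f (q - 1) + p * f q) / Y * mr (q - 1) =
      (ml (q - 1) + mr (q - 1)) * (f (q - 1) + p * f q) / Y := by ring
  have e2 : (f (q - 1) + p * f q) / Y * ml q + (f (q - 1) + p * f q) / Y * mr q =
      (ml q + mr q) * (f (q - 1) + p * f q) / Y := by ring
  have r1 : (ml (q - 1) + mr (q - 1)) * (f (q - 1) + p * f q) / Y * wk (q - 1) ≤ 1 := by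
    rw [div_mul_eq_mul_div, div_le_one hZ]
    linarith
  have r2 : (ml q + mr q) * (f (q - 1) + p * f q) / Y * wk q ≤ 1 := by
    rw [div_mul_eq_mul_div, div_le_one hZ]
    linarith
  have x0 : 0 ≤ (ml (q - 1) + mr (q - 1)) * (f (q - 1) + p * f q) / Y := by positivity
  have y0 : 0 ≤ (ml q + mr q) * (f (q - 1) + p * f q) / Y := by positivity
  refine ⟨⟨by positivity, by positivity, by positivity, by positivity, ?_, ?_⟩, ?_, ?_⟩
  · rw [e2]
    exact low_of y0 r2 cw1 hc1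
  · rw [e1]
    have := low_of x0 r1 cw2 hc1
    linarith
  · rw [e1]
    exact le_kap R.wl kp x0 r1
  · rw [e2]
    exact le_kap R.wr kp y0 r2

/-- A group with a small share of the total has small numbers. -/
theorem num_small (hp : 0 < p) (hw : ∀ y, 0 < wk y) (hf : ∀ y, 0 < f y) (R : Reg lo hi wk f q kap) {u : ℤ → ℝ} {Y t : ℝ}
    (hu : ∀ y, 0 ≤ u y) (hY : 0 < Y) (ht : rz lo hi p wk u f q ≤ t * Y) :
    (f (q - 1) + p * f q) / Y * u (q - 1) ≤ kap * t ∧ (f (q - 1) + p * f q) / Y * u q ≤ kap * t := by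
  have k1 := R.k1
  have kp : 0 < kap := by linarith
  have j1 := hf (q - 1)
  have j2 := hf q
  have j3 := hu (q - 1)
  have j4 := hu q
  have s1 := rz_left hp hw hf hu R.q1 (lo := lo) (hi := hi)
  have s2 := rz_right hp hw hf hu R.q2 (lo := lo) (hi := hi)
  have gen : ∀ {x wy : ℝ}, 0 ≤ x → 1 ≤ kap * wy → x * wy * (f (q - 1) + p * f q) ≤ t * Y →
      (f (q - 1) + p * f q) / Y * x ≤ kap * t := by
    intro x wy hx h1 h2
    rw [div_mul_eq_mul_div, div_le_iff₀ hY]
    have i1 : 0 ≤ (f (q - 1) + p * f q) * x := by positivity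
    have i2 := mul_le_mul_of_nonneg_left h1 i1
    have i3 := mul_le_mul_of_nonneg_left h2 kp.le
    have i4 : (f (q - 1) + p * f q) * x * (kap * wy) = kap * (x * wy * (f (q - 1) + p * f q)) := by ring
    linarith
  exact ⟨gen j3 R.wl (s1.trans ht), gen j4 R.wr (s2.trans ht)⟩

/-- **The gain part is small when one group has a small share.** -/
theorem ctg_small (hp : 0 < p) (hw : ∀ y, 0 < wk y) (hf : ∀ y, 0 < f y) (R : Reg lo hi wk f q kap)
    (hl : ∀ y, 0 ≤ ml y) (hr : ∀ y, 0 ≤ mr y) (hZ : 0 < rz lo hi p wk (fun y => ml y + mr y) f q) {t : ℝ}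
    (ht : rz lo hi p wk mr f q ≤ t * rz lo hi p wk (fun y => ml y + mr y) f q ∨
      rz lo hi p wk ml f q ≤ t * rz lo hi p wk (fun y => ml y + mr y) f q) :
    |ctg lo hi p wk ml mr f q| ≤ 2 * kap ^ 8 * t := by
  have k1 := R.k1
  have kp : 0 < kap := by linarith
  have hd : |wk (q - 1) - wk q| ≤ kap := by
    have := hw q
    have := hw (q - 1)
    rw [abs_le]
    constructor
    · have := R.wr2
      linarith
    · have := R.wl2
      linarith
  have hd2 : (wk (q - 1) - wk q) ^ 2 ≤ kap ^ 2 := by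
    rw [← sq_abs]
    exact pow_le_pow_left₀ (abs_nonneg _) hd 2
  have hc0 : (0 : ℝ) < 1 / kap ^ 2 := by positivity
  have N := num_row hp hw hf R hl hr hZ
  have hfac : kap * (wk (q - 1) - wk q) ^ 2 / (1 / kap ^ 2) ^ 2 ≤ kap ^ 7 := by
    have h6 : (1 / kap ^ 2) ^ 2 = 1 / kap ^ 4 := by
      field_simp
    rw [h6, div_div_eq_mul_div, div_one]
    have h7 : kap * (wk (q - 1) - wk q) ^ 2 * kap ^ 4 ≤ kap * kap ^ 2 * kap ^ 4 :=
      mul_le_mul_of_nonneg_right (mul_le_mul_of_nonneg_left hd2 kp.le) (by positivity)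
    have h8 : kap * kap ^ 2 * kap ^ 4 = kap ^ 7 := by ring
    linarith
  have hfac0 : 0 ≤ kap * (wk (q - 1) - wk q) ^ 2 / (1 / kap ^ 2) ^ 2 := by positivity
  rcases ht with ht | ht
  · have S := num_small hp hw hf R hr hZ ht
    have key := pg_le_b hc0 N.1 N.2.1 N.2.2
    have e9 : |ctg lo hi p wk ml mr f q| ≤ _ := key
    refine e9.trans ?_
    have i1 := add_le_add S.1 S.2
    have t0 : 0 ≤ kap * t + kap * t := (add_nonneg N.1.b0 N.1.b20).trans i1
    have i2 := mul_le_mul i1 hfac hfac0 t0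
    have e10 : (kap * t + kap * t) * kap ^ 7 = 2 * kap ^ 8 * t := by ring
    linarith
  · have S := num_small hp hw hf R hl hZ ht
    have key := pg_le_a hc0 N.1 N.2.1 N.2.2
    have e9 : |ctg lo hi p wk ml mr f q| ≤ _ := key
    refine e9.trans ?_
    have i1 := add_le_add S.1 S.2
    have t0 : 0 ≤ kap * t + kap * t := (add_nonneg N.1.a0 N.1.a20).trans i1
    have i2 := mul_le_mul i1 hfac hfac0 t0
    have e10 : (kap * t + kap * t) * kap ^ 7 = 2 * kap ^ 8 * t := by ring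
    linarith

/-- **The loss part is small when one group has a small share.** -/
theorem ctl_small (hp : 0 < p) (hw : ∀ y, 0 < wk y) (hf : ∀ y, 0 < f y) (R : Reg lo hi wk f q kap)
    (hl : ∀ y, 0 ≤ ml y) (hr : ∀ y, 0 ≤ mr y) (hZ : 0 < rt lo hi p wk (fun y => ml y + mr y) f q) {t : ℝ}
    (ht : rt lo hi p wk mr f q ≤ t * rt lo hi p wk (fun y => ml y + mr y) f q ∨
      rt lo hi p wk ml f q ≤ t * rt lo hi p wk (fun y => ml y + mr y) f q) :
    |ctl lo hi p wk ml mr f q| ≤ kap ^ 3 * t := by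
  have k1 := R.k1
  have kp : 0 < kap := by linarith
  have w1 := hw (q - 1)
  have w2 := hw q
  have j1 := hf (q - 1)
  have j2 := hf q
  have u1 := hl (q - 1)
  have u2 := hr (q - 1)
  have u3 := hl q
  have u4 := hr q
  have s1 := rt_cut hp hw hf (fun y => add_nonneg (hl y) (hr y)) R.q2 (lo := lo)
  set Y := rt lo hi p wk (fun y => ml y + mr y) f q with hY
  have sm : (f (q - 1) / Y * (p * wk (q - 1)) * ml (q - 1) + f (q - 1) / Y * (p * wk (q - 1)) * mr (q - 1)) +
      (f (q - 1) / Y * wk q * ml q + f (q - 1) / Y * wk q * mr q) =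
      (wk q * (ml q + mr q) + p * (wk (q - 1) * (ml (q - 1) + mr (q - 1)))) * f (q - 1) / Y := by ring
  have hk1 : (1 : ℝ) / kap ≤ 1 := by
    rw [div_le_one kp]
    exact k1
  have vlow : 1 / kap * 1 ≤ f q / f (q - 1) := by
    rw [mul_one, le_div_iff₀ j1, div_mul_eq_mul_div, one_mul, div_le_iff₀ kp]
    have := R.fl
    linarith
  have q1 : 1 / kap ≤ 1 + (wk q * (ml q + mr q) + p * (wk (q - 1) * (ml (q - 1) + mr (q - 1)))) * f (q - 1) / Y *
      (f q / f (q - 1) - 1) := by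
    refine low_of (by positivity) ?_ vlow hk1
    rw [mul_one, div_le_one hZ]
    exact s1
  have hV : |f q / f (q - 1) - 1| ≤ kap := by
    have v1 : 0 < f q / f (q - 1) := div_pos j2 j1
    have v2 : f q / f (q - 1) ≤ kap := by
      rw [div_le_iff₀ j1]
      exact R.fr
    rw [abs_le]
    constructor <;> linarith
  have hV2 : (f q / f (q - 1) - 1) ^ 2 / (1 / kap) ≤ kap ^ 3 := by
    rw [div_div_eq_mul_div, div_one]
    have h5 : (f q / f (q - 1) - 1) ^ 2 ≤ kap ^ 2 := by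
      rw [← sq_abs]
      exact pow_le_pow_left₀ (abs_nonneg _) hV 2
    have h6 := mul_le_mul_of_nonneg_right h5 kp.le
    have h7 : kap ^ 2 * kap = kap ^ 3 := by ring
    linarith
  have hV0 : 0 ≤ (f q / f (q - 1) - 1) ^ 2 / (1 / kap) := by positivity
  have hs : (f (q - 1) / Y * (p * wk (q - 1)) * ml (q - 1) + f (q - 1) / Y * (p * wk (q - 1)) * mr (q - 1)) +
      (f (q - 1) / Y * wk q * ml q + f (q - 1) / Y * wk q * mr q) ≤ 1 := by
    rw [sm, div_le_one hZ]
    exact s1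
  have hs2 : 1 / kap ≤ 1 + ((f (q - 1) / Y * (p * wk (q - 1)) * ml (q - 1) + f (q - 1) / Y * (p * wk (q - 1)) * mr (q - 1)) +
      (f (q - 1) / Y * wk q * ml q + f (q - 1) / Y * wk q * mr q)) * (f q / f (q - 1) - 1) := by
    rw [sm]
    exact q1
  have small : ∀ {u : ℤ → ℝ}, (∀ y, 0 ≤ u y) → rt lo hi p wk u f q ≤ t * Y →
      f (q - 1) / Y * (p * wk (q - 1)) * u (q - 1) + f (q - 1) / Y * wk q * u q ≤ t := by
    intro u hu h
    have s2 := rt_cut hp hw hf hu R.q2 (lo := lo)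
    have e : f (q - 1) / Y * (p * wk (q - 1)) * u (q - 1) + f (q - 1) / Y * wk q * u q =
        (wk q * u q + p * (wk (q - 1) * u (q - 1))) * f (q - 1) / Y := by ring
    rw [e, div_le_iff₀ hZ]
    exact s2.trans h
  rcases ht with ht | ht
  · have S := small hr ht
    have key := pq_le_b (a := f (q - 1) / Y * (p * wk (q - 1)) * ml (q - 1)) (b := f (q - 1) / Y * (p * wk (q - 1)) * mr (q - 1))
      (a2 := f (q - 1) / Y * wk q * ml q) (b2 := f (q - 1) / Y * wk q * mr q) (v := f q / f (q - 1)) (c := 1 / kap)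
      (by positivity) (by positivity) (by positivity) (by positivity) (by positivity) hs hs2
    have e9 : |ctl lo hi p wk ml mr f q| ≤ _ := key
    refine e9.trans ?_
    have t0 : 0 ≤ t := le_trans (by positivity) S
    have i2 := mul_le_mul S hV2 hV0 t0
    linarith
  · have S := small hl ht
    have key := pq_le_a (a := f (q - 1) / Y * (p * wk (q - 1)) * ml (q - 1)) (b := f (q - 1) / Y * (p * wk (q - 1)) * mr (q - 1))
      (a2 := f (q - 1) / Y * wk q * ml q) (b2 := f (q - 1) / Y * wk q * mr q) (v := f q / f (q - 1)) (c := 1 / kap)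
      (by positivity) (by positivity) (by positivity) (by positivity) (by positivity) hs hs2
    have e9 : |ctl lo hi p wk ml mr f q| ≤ _ := key
    refine e9.trans ?_
    have t0 : 0 ≤ t := le_trans (by positivity) S
    have i2 := mul_le_mul S hV2 hV0 t0
    linarith

/-- **The meeting functional is small when one group has a small share.** -/
theorem pt_small (hp : 0 < p) (hw : ∀ y, 0 < wk y) (hf : ∀ y, 0 < f y) (hq1 : q - 1 ∈ Icc lo hi) (hq2 : q ∈ Icc lo hi)
    (hl : ∀ y, 0 ≤ ml y) (hr : ∀ y, 0 ≤ mr y) (hZ : 0 < tm lo hi p wk (fun y => ml y + mr y) f) {t : ℝ}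
    (ht : tm lo hi p wk mr f ≤ t * tm lo hi p wk (fun y => ml y + mr y) f ∨
      tm lo hi p wk ml f ≤ t * tm lo hi p wk (fun y => ml y + mr y) f) :
    |pt lo hi p wk ml mr f q| ≤ 2 * t := by
  have w1 := hw (q - 1)
  have w2 := hw q
  have fb := hf q
  set Z := tm lo hi p wk (fun y => ml y + mr y) f with hZdef
  have gen : ∀ {u : ℤ → ℝ}, (∀ y, 0 ≤ u y) → ∀ {t : ℝ}, tm lo hi p wk u f ≤ t * Z →
      (0 ≤ p * wk (q - 1) * (u (q - 1) * f q) / Z ∧ p * wk (q - 1) * (u (q - 1) * f q) / Z ≤ t) ∧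
      (0 ≤ wk q * (u q * f q) / Z ∧ wk q * (u q * f q) / Z ≤ t) := by
    intro u hu t h
    have j0 := hu (q - 1)
    have j1 := hu q
    have f1 := hf (q - 1)
    have f2 := hf (q + 1)
    refine ⟨⟨by positivity, ?_⟩, ⟨by positivity, ?_⟩⟩
    · rw [div_le_iff₀ hZ]
      refine le_trans ?_ h
      have b1 := tm_term hp hw hf hu hq1
      simp only [sub_add_cancel] at b1
      refine le_trans ?_ b1
      have b4 : 0 ≤ u (q - 1) * wk (q - 1) * f (q - 1) := by positivity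
      have b5 : u (q - 1) * wk (q - 1) * (f (q - 1) + p * f q) =
          u (q - 1) * wk (q - 1) * f (q - 1) + p * wk (q - 1) * (u (q - 1) * f q) := by ring
      linarith
    · rw [div_le_iff₀ hZ]
      refine le_trans ?_ h
      have b1 := tm_term hp hw hf hu hq2
      refine le_trans ?_ b1
      have b4 : 0 ≤ u q * wk q * (p * f (q + 1)) := by positivity
      have b5 : u q * wk q * (f q + p * f (q + 1)) = wk q * (u q * f q) + u q * wk q * (p * f (q + 1)) := by ring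
      linarith
  have hsum : tm lo hi p wk ml f + tm lo hi p wk mr f = Z := by
    rw [hZdef, tm_add]
  have nn : ∀ {u : ℤ → ℝ}, (∀ y, 0 ≤ u y) → 0 ≤ tm lo hi p wk u f := by
    intro u hu
    unfold tm
    refine sum_nonneg fun y _ => ?_
    have := hu y
    have := hw y
    have := hf y
    have := hf (y + 1)
    positivity
  have hl1 : tm lo hi p wk ml f ≤ 1 * Z := by
    have := nn hr
    linarith
  have hr1 : tm lo hi p wk mr f ≤ 1 * Z := by
    have := nn hl
    linarith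
  have gl := gen hl hl1
  have gr := gen hr hr1
  have e1 : pt lo hi p wk ml mr f q = p * wk (q - 1) * (ml (q - 1) * f q) / Z * (wk q * (mr q * f q) / Z) -
      wk q * (ml q * f q) / Z * (p * wk (q - 1) * (mr (q - 1) * f q) / Z) := by
    unfold pt
    rw [← hZdef]
    field_simp
  have fin : ∀ {x y z u s s' : ℝ}, 0 ≤ x → x ≤ s → 0 ≤ y → y ≤ s' → 0 ≤ z → z ≤ s → 0 ≤ u → u ≤ s' →
      |x * y - z * u| ≤ 2 * (s * s') := by
    intro x y z u s s' hx hx1 hy hy1 hz hz1 hu hu1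
    have hs : 0 ≤ s := hx.trans hx1
    have i1 := mul_le_mul hx1 hy1 hy hs
    have i2 := mul_le_mul hz1 hu1 hu hs
    have i3 := mul_nonneg hx hy
    have i4 := mul_nonneg hz hu
    rw [abs_le]
    constructor <;> linarith
  rw [e1]
  rcases ht with ht | ht
  · have S := gen hr ht
    have := fin gl.1.1 gl.1.2 S.2.1 S.2.2 gl.2.1 gl.2.2 S.1.1 S.1.2
    linarith
  · have S := gen hl ht
    have := fin S.1.1 S.1.2 gr.2.1 gr.2.2 S.2.1 S.2.2 gr.1.1 gr.1.2
    linarith

/-! ### One cell of the box -/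

/-- The data of one contact: row weights `wk`, profile `f` and masses `ml`, `mr` of the environment, profile `f'` and inner masses
`f1`, `f2` of the model; `ml` is near `A1 f1 + A2 f2`, `mr` is near `B1 f1 + B2 f2`. -/
structure Cell (lo hi : ℤ) (A1 A2 B1 B2 kap eta rr p : ℝ) (wk f f' ml mr f1 f2 : ℤ → ℝ) (q : ℤ) : Prop where
  p0 : 0 < p
  w0 : ∀ y, 0 < wk y
  f0 : ∀ y, 0 < f y
  f0' : ∀ y, 0 < f' y
  g1 : ∀ y, 0 ≤ f1 y
  g2 : ∀ y, 0 ≤ f2 y
  R : Reg lo hi wk f q kap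
  R' : Reg lo hi wk f' q kap
  e0 : 0 ≤ eta
  e1 : (1 + p) * eta ≤ 1 / 2
  nl : ∃ T, 0 < T ∧ Nr lo hi p wk ml f (fun y => A1 * f1 y + A2 * f2 y) f' q eta T
  nr : ∃ T, 0 < T ∧ Nr lo hi p wk mr f (fun y => B1 * f1 y + B2 * f2 y) f' q eta T
  r0 : 0 ≤ rr
  z1 : 0 < rz lo hi p wk f1 f' q
  z2 : 0 < rz lo hi p wk f2 f' q
  z12 : rz lo hi p wk f1 f' q ≤ rr * rz lo hi p wk f2 f' q
  z21 : rz lo hi p wk f2 f' q ≤ rr * rz lo hi p wk f1 f' q
  t1 : 0 < rt lo hi p wk f1 f' q
  t2 : 0 < rt lo hi p wk f2 f' q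
  t12 : rt lo hi p wk f1 f' q ≤ rr * rt lo hi p wk f2 f' q
  t21 : rt lo hi p wk f2 f' q ≤ rr * rt lo hi p wk f1 f' q
  m1 : 0 < tm lo hi p wk f1 f'
  m2 : 0 < tm lo hi p wk f2 f'
  m12 : tm lo hi p wk f1 f' ≤ rr * tm lo hi p wk f2 f'
  m21 : tm lo hi p wk f2 f' ≤ rr * tm lo hi p wk f1 f'

variable {eta rr : ℝ} {f' f1 f2 : ℤ → ℝ}

theorem rz_add_smul (m1 m2 : ℤ → ℝ) (t : ℝ) : rz lo hi p wk (fun y => m1 y + t * m2 y) f q =
    rz lo hi p wk m1 f q + t * rz lo hi p wk m2 f q := by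
  have := rz_lin (lo := lo) (hi := hi) (p := p) (wk := wk) (f := f) (q := q) m1 m2 1 t
  simpa using this

theorem rt_add_smul (m1 m2 : ℤ → ℝ) (t : ℝ) : rt lo hi p wk (fun y => m1 y + t * m2 y) f q =
    rt lo hi p wk m1 f q + t * rt lo hi p wk m2 f q := by
  have := rt_lin (lo := lo) (hi := hi) (p := p) (wk := wk) (f := f) (q := q) m1 m2 1 t
  simpa using this

theorem tm_add_smul (m1 m2 : ℤ → ℝ) (t : ℝ) : tm lo hi p wk (fun y => m1 y + t * m2 y) f =
    tm lo hi p wk m1 f + t * tm lo hi p wk m2 f := by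
  have := tm_lin (lo := lo) (hi := hi) (p := p) (wk := wk) (f := f) m1 m2 1 t
  simpa using this

theorem Cell.pos (h : Cell lo hi A1 A2 B1 B2 kap eta rr p wk f f' ml mr f1 f2 q) (t : ℝ) (ht : 0 < t) :
    Pos lo hi p wk (fun y => f1 y + t * f2 y) f' q := by
  have z1 := h.z1
  have z2 := h.z2
  have t1 := h.t1
  have t2 := h.t2
  have m1 := h.m1
  have m2 := h.m2
  refine ⟨h.p0, h.w0, h.f0', ?_, ?_, ?_⟩
  · rw [rz_add_smul]
    positivity
  · rw [rt_add_smul]
    positivity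
  · rw [tm_add_smul]
    positivity

/-- **One contact at the level `a`.** -/
theorem Cell.ct_near (h : Cell lo hi A1 A2 B1 B2 kap eta rr p wk f f' ml mr f1 f2 q)
    (a1 : 0 < A1) (a2 : 0 < A2) (b1 : 0 < B1) (b2 : 0 < B2) (a : ℝ) :
    |ct lo hi p wk ml (fun y => Real.exp (-a) * mr y) f q - lev' A1 A2 B1 B2 a *
      ct lo hi p wk f1 (fun y => Real.exp (-(lev A1 A2 B1 B2 a)) * f2 y) f' q| ≤ 176 * (1 + p) * kap ^ 8 * eta := by
  have h0 := Real.exp_pos (-a)
  obtain ⟨T1, hT1, n1⟩ := h.nl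
  obtain ⟨T2, hT2, n2⟩ := h.nr
  have n2' := n2.smul h0.le
  have hT : 0 < T1 + Real.exp (-a) * T2 := by positivity
  have key := K97.ct_near h.p0 h.w0 h.f0 h.f0' h.R h.R' n1 n2' hT h.e0 h.e1
  have e := ct_lev (A1 := A1) (A2 := A2) (B1 := B1) (B2 := B2) (a := a) (by positivity) (by positivity) h.g1 h.g2
    (h.pos _ (Real.exp_pos (-(lev A1 A2 B1 B2 a))))
  rw [e] at key
  exact key

/-- **One meeting place at the level `a`.** -/
theorem Cell.pt_near (h : Cell lo hi A1 A2 B1 B2 kap eta rr p wk f f' ml mr f1 f2 q)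
    (a1 : 0 < A1) (a2 : 0 < A2) (b1 : 0 < B1) (b2 : 0 < B2) (a : ℝ) :
    |pt lo hi p wk ml (fun y => Real.exp (-a) * mr y) f q - lev' A1 A2 B1 B2 a *
      pt lo hi p wk f1 (fun y => Real.exp (-(lev A1 A2 B1 B2 a)) * f2 y) f' q| ≤ 16 * (1 + p) * eta := by
  have h0 := Real.exp_pos (-a)
  obtain ⟨T1, hT1, n1⟩ := h.nl
  obtain ⟨T2, hT2, n2⟩ := h.nr
  have n2' := n2.smul h0.le
  have hT : 0 < T1 + Real.exp (-a) * T2 := by positivity
  have key := K97.pt_near h.p0 h.w0 h.f0 h.f0' h.R.q1 h.R.q2 n1 n2' hT h.e1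
  have e := pt_lev (A1 := A1) (A2 := A2) (B1 := B1) (B2 := B2) (a := a) (by positivity) (by positivity)
    (h.pos _ (Real.exp_pos (-(lev A1 A2 B1 B2 a))))
  rw [e] at key
  exact key

theorem abs_le_exp_abs {x C c : ℝ} (h1 : x ≤ C * Real.exp (-c)) (h2 : x ≤ C * Real.exp c) : x ≤ C * Real.exp (-|c|) := by
  rcases abs_cases c with h | h
  · rw [h.1]
    exact h1
  · rw [h.1, neg_neg]
    exact h2

/-- **Decay of the inner functionals in the level.** -/
theorem Cell.ct_dec (h : Cell lo hi A1 A2 B1 B2 kap eta rr p wk f f' ml mr f1 f2 q) (c : ℝ) :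
    |ct lo hi p wk f1 (fun y => Real.exp (-c) * f2 y) f' q| ≤ 3 * kap ^ 8 * rr * Real.exp (-|c|) := by
  have k1 := h.R'.k1
  have kp : 0 < kap := by linarith
  have z1 := h.z1
  have z2 := h.z2
  have t1 := h.t1
  have t2 := h.t2
  have r0 := h.r0
  have e0 := Real.exp_pos (-c)
  have P := h.pos _ e0
  have g2 : ∀ y, 0 ≤ Real.exp (-c) * f2 y := fun y => mul_nonneg e0.le (h.g2 y)
  have ee : Real.exp c * Real.exp (-c) = 1 := by rw [← Real.exp_add, add_neg_cancel, Real.exp_zero]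
  have k38 : kap ^ 3 ≤ kap ^ 8 := pow_le_pow_right₀ k1 (by norm_num)
  have fin : ∀ {t : ℝ}, 0 ≤ t → |ctg lo hi p wk f1 (fun y => Real.exp (-c) * f2 y) f' q| ≤ 2 * kap ^ 8 * t →
      |ctl lo hi p wk f1 (fun y => Real.exp (-c) * f2 y) f' q| ≤ kap ^ 3 * t →
      |ct lo hi p wk f1 (fun y => Real.exp (-c) * f2 y) f' q| ≤ 3 * kap ^ 8 * t := by
    intro t ht i1 i2
    unfold ct
    refine (abs_sub _ _).trans ?_
    have := mul_le_mul_of_nonneg_right k38 ht
    linarith
  refine abs_le_exp_abs ?_ ?_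
  · have j1 : rz lo hi p wk (fun y => Real.exp (-c) * f2 y) f' q ≤
        (rr * Real.exp (-c)) * rz lo hi p wk (fun y => f1 y + Real.exp (-c) * f2 y) f' q := by
      rw [rz_smul, rz_add_smul]
      have i1 := mul_le_mul_of_nonneg_left h.z21 e0.le
      have i2 : 0 ≤ rr * Real.exp (-c) * (Real.exp (-c) * rz lo hi p wk f2 f' q) := by positivity
      linarith
    have j2 : rt lo hi p wk (fun y => Real.exp (-c) * f2 y) f' q ≤
        (rr * Real.exp (-c)) * rt lo hi p wk (fun y => f1 y + Real.exp (-c) * f2 y) f' q := by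
      rw [rt_smul, rt_add_smul]
      have i1 := mul_le_mul_of_nonneg_left h.t21 e0.le
      have i2 : 0 ≤ rr * Real.exp (-c) * (Real.exp (-c) * rt lo hi p wk f2 f' q) := by positivity
      linarith
    have := fin (by positivity) (ctg_small h.p0 h.w0 h.f0' h.R' h.g1 g2 P.z0 (Or.inl j1))
      (ctl_small h.p0 h.w0 h.f0' h.R' h.g1 g2 P.t0 (Or.inl j2))
    linarith
  · have j1 : rz lo hi p wk f1 f' q ≤ (rr * Real.exp c) * rz lo hi p wk (fun y => f1 y + Real.exp (-c) * f2 y) f' q := by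
      rw [rz_add_smul]
      have i1 := h.z12
      have i2 : 0 ≤ rr * Real.exp c * rz lo hi p wk f1 f' q := by positivity
      have i3 : rr * Real.exp c * (Real.exp (-c) * rz lo hi p wk f2 f' q) = rr * rz lo hi p wk f2 f' q := by
        linear_combination (rr * rz lo hi p wk f2 f' q) * ee
      rw [mul_add, i3]
      linarith
    have j2 : rt lo hi p wk f1 f' q ≤ (rr * Real.exp c) * rt lo hi p wk (fun y => f1 y + Real.exp (-c) * f2 y) f' q := by
      rw [rt_add_smul]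
      have i1 := h.t12
      have i2 : 0 ≤ rr * Real.exp c * rt lo hi p wk f1 f' q := by positivity
      have i3 : rr * Real.exp c * (Real.exp (-c) * rt lo hi p wk f2 f' q) = rr * rt lo hi p wk f2 f' q := by
        linear_combination (rr * rt lo hi p wk f2 f' q) * ee
      rw [mul_add, i3]
      linarith
    have := fin (by positivity) (ctg_small h.p0 h.w0 h.f0' h.R' h.g1 g2 P.z0 (Or.inr j1))
      (ctl_small h.p0 h.w0 h.f0' h.R' h.g1 g2 P.t0 (Or.inr j2))
    linarith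

theorem Cell.pt_dec (h : Cell lo hi A1 A2 B1 B2 kap eta rr p wk f f' ml mr f1 f2 q) (c : ℝ) :
    |pt lo hi p wk f1 (fun y => Real.exp (-c) * f2 y) f' q| ≤ 2 * rr * Real.exp (-|c|) := by
  have m1 := h.m1
  have m2 := h.m2
  have r0 := h.r0
  have e0 := Real.exp_pos (-c)
  have P := h.pos _ e0
  have g2 : ∀ y, 0 ≤ Real.exp (-c) * f2 y := fun y => mul_nonneg e0.le (h.g2 y)
  have ee : Real.exp c * Real.exp (-c) = 1 := by rw [← Real.exp_add, add_neg_cancel, Real.exp_zero]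
  refine abs_le_exp_abs ?_ ?_
  · have j1 : tm lo hi p wk (fun y => Real.exp (-c) * f2 y) f' ≤
        (rr * Real.exp (-c)) * tm lo hi p wk (fun y => f1 y + Real.exp (-c) * f2 y) f' := by
      rw [tm_smul, tm_add_smul]
      have i1 := mul_le_mul_of_nonneg_left h.m21 e0.le
      have i2 : 0 ≤ rr * Real.exp (-c) * (Real.exp (-c) * tm lo hi p wk f2 f') := by positivity
      linarith
    have := pt_small h.p0 h.w0 h.f0' h.R.q1 h.R.q2 h.g1 g2 P.m0 (Or.inl j1)
    linarith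
  · have j1 : tm lo hi p wk f1 f' ≤ (rr * Real.exp c) * tm lo hi p wk (fun y => f1 y + Real.exp (-c) * f2 y) f' := by
      rw [tm_add_smul]
      have i1 := h.m12
      have i2 : 0 ≤ rr * Real.exp c * tm lo hi p wk f1 f' := by positivity
      have i3 : rr * Real.exp c * (Real.exp (-c) * tm lo hi p wk f2 f') = rr * tm lo hi p wk f2 f' := by
        linear_combination (rr * tm lo hi p wk f2 f') * ee
      rw [mul_add, i3]
      linarith
    have := pt_small h.p0 h.w0 h.f0' h.R.q1 h.R.q2 h.g1 g2 P.m0 (Or.inr j1)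
    linarith

/-! ### Measurability -/

theorem measurable_ct : Measurable fun a : ℝ => ct lo hi p wk ml (fun y => Real.exp (-a) * mr y) f q := by
  have e1 : ∀ a : ℝ, rz lo hi p wk (fun y => ml y + Real.exp (-a) * mr y) f q =
      rz lo hi p wk ml f q + Real.exp (-a) * rz lo hi p wk mr f q := fun a => rz_add_smul ml mr (Real.exp (-a))
  have e2 : ∀ a : ℝ, rt lo hi p wk (fun y => ml y + Real.exp (-a) * mr y) f q =
      rt lo hi p wk ml f q + Real.exp (-a) * rt lo hi p wk mr f q := fun a => rt_add_smul ml mr (Real.exp (-a))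
  unfold ct ctg ctl pg pq ro jl jq jn
  simp only [e1, e2]
  fun_prop

theorem measurable_pt : Measurable fun a : ℝ => pt lo hi p wk ml (fun y => Real.exp (-a) * mr y) f q := by
  have e1 : ∀ a : ℝ, tm lo hi p wk (fun y => ml y + Real.exp (-a) * mr y) f =
      tm lo hi p wk ml f + Real.exp (-a) * tm lo hi p wk mr f := fun a => tm_add_smul ml mr (Real.exp (-a))
  unfold pt
  simp only [e1]
  fun_prop

/-! ### Exponential tails -/

theorem integrable_exp_abs : Integrable fun c : ℝ => Real.exp (-|c|) := by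
  have h1 : IntegrableOn (fun c : ℝ => Real.exp (-|c|)) (Set.Iic 0) := by
    refine (integrableOn_exp_Iic 0).congr_fun (fun c hc => ?_) measurableSet_Iic
    show Real.exp c = Real.exp (-|c|)
    rw [abs_of_nonpos hc, neg_neg]
  have h2 : IntegrableOn (fun c : ℝ => Real.exp (-|c|)) (Set.Ioi 0) := by
    refine (integrableOn_exp_neg_Ioi 0).congr_fun (fun c hc => ?_) measurableSet_Ioi
    show Real.exp (-c) = Real.exp (-|c|)
    rw [abs_of_pos hc]
  have h := h1.union h2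
  rwa [Set.Iic_union_Ioi, integrableOn_univ] at h

theorem integral_exp_abs_tail {M : ℝ} (hM : 0 ≤ M) : ∫ c in {c : ℝ | M < |c|}, Real.exp (-|c|) ≤ 2 * Real.exp (-M) := by
  have e : {c : ℝ | M < |c|} = Set.Iio (-M) ∪ Set.Ioi M := by
    ext c
    simp only [Set.mem_ofPred_eq, Set.mem_union, Set.mem_Iio, Set.mem_Ioi]
    rw [lt_abs]
    constructor
    · rintro (h | h)
      · exact Or.inr h
      · exact Or.inl (by linarith)
    · rintro (h | h)
      · exact Or.inr (by linarith)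
      · exact Or.inl h
  have hd : Disjoint (Set.Iio (-M)) (Set.Ioi M) := by
    rw [Set.disjoint_left]
    intro c h1 h2
    have h3 : c < -M := h1
    have h4 : M < c := h2
    linarith
  rw [e, setIntegral_union hd measurableSet_Ioi integrable_exp_abs.integrableOn integrable_exp_abs.integrableOn]
  have i1 : ∫ c in Set.Ioi M, Real.exp (-|c|) = Real.exp (-M) := by
    rw [← integral_exp_neg_Ioi M]
    refine setIntegral_congr_fun measurableSet_Ioi fun c hc => ?_
    have h4 : M < c := hc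
    show Real.exp (-|c|) = Real.exp (-c)
    rw [abs_of_pos (by linarith)]
  have i2 : ∫ c in Set.Iio (-M), Real.exp (-|c|) = Real.exp (-M) := by
    rw [← integral_Iic_eq_integral_Iio, ← integral_exp_Iic (-M)]
    refine setIntegral_congr_fun measurableSet_Iic fun c hc => ?_
    have h4 : c ≤ -M := hc
    show Real.exp (-|c|) = Real.exp c
    rw [abs_of_nonpos (by linarith), neg_neg]
  rw [i1, i2]
  linarith

/-! ### The box -/

/-- The tail of a functional with exponential decay. -/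
theorem tail_le {φ : ℝ → ℝ} {D M : ℝ} (hφ : Integrable φ) (hD : ∀ c, |φ c| ≤ D * Real.exp (-|c|)) (hM : 0 ≤ M) :
    ∫ c in {c : ℝ | M < |c|}, |φ c| ≤ 2 * D * Real.exp (-M) := by
  have hD0 : 0 ≤ D := by
    have := (abs_nonneg _).trans (hD 0)
    rw [abs_zero, neg_zero, Real.exp_zero, mul_one] at this
    exact this
  have h1 : ∫ c in {c : ℝ | M < |c|}, |φ c| ≤ ∫ c in {c : ℝ | M < |c|}, D * Real.exp (-|c|) :=
    integral_mono hφ.abs.integrableOn (integrable_exp_abs.const_mul D).integrableOn hD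
  rw [integral_const_mul] at h1
  have h2 := mul_le_mul_of_nonneg_left (integral_exp_abs_tail hM) hD0
  linarith

/-- **The level integral over a box, abstract form**: a finite family of contacts, each near `lev' * phi (lev)`. -/
theorem box_level {ι : Type*} (Q : Finset ι) (a1 : 0 < A1) (a2 : 0 < A2) (b1 : 0 < B1) (b2 : 0 < B2)
    (hd : 0 < A1 * B2 - A2 * B1) {F φ : ι → ℝ → ℝ} {g : ℝ → ℝ} {K D S s0 G M O : ℝ}
    (hFm : ∀ i ∈ Q, Measurable (F i)) (hφm : ∀ i ∈ Q, Measurable (φ i)) (hgm : Measurable g)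
    (hK : ∀ i ∈ Q, ∀ a, |F i a - lev' A1 A2 B1 B2 a * φ i (lev A1 A2 B1 B2 a)| ≤ K)
    (hD : ∀ i ∈ Q, ∀ c, |φ i c| ≤ D * Real.exp (-|c|))
    (hg : ∀ a, |g a| ≤ G) (hs : ∀ a, a ∉ Set.Icc s0 (s0 + S) → g a = 0) (hS : 0 ≤ S)
    (hO : ∀ a, |a - Real.log (B2 / A1)| ≤ M + 1 → |g a - g (Real.log (B2 / A1))| ≤ O)
    (w1 : Real.log (B1 / B2) ≤ -(M + 1)) (w2 : M + 1 ≤ Real.log (A1 / A2)) (hM : 0 ≤ M) :
    |(∫ a, g a * ∑ i ∈ Q, F i a) - g (Real.log (B2 / A1)) * ∫ c, ∑ i ∈ Q, φ i c| ≤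
      S * (G * (Q.card * K)) + O * (∫ c, |∑ i ∈ Q, φ i c|) + 2 * (G * (2 * (Q.card * D) * Real.exp (-M))) := by
  have hFm' : Measurable fun a => ∑ i ∈ Q, F i a := Finset.measurable_sum _ hFm
  have hφm' : Measurable fun c => ∑ i ∈ Q, φ i c := Finset.measurable_sum _ hφm
  have hK' : ∀ a, |∑ i ∈ Q, F i a - lev' A1 A2 B1 B2 a * ∑ i ∈ Q, φ i (lev A1 A2 B1 B2 a)| ≤ Q.card * K := by
    intro a
    rw [mul_sum, ← sum_sub_distrib]
    refine (abs_sum_le_sum_abs _ _).trans ?_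
    refine (sum_le_sum fun i hi => hK i hi a).trans (le_of_eq ?_)
    rw [sum_const, nsmul_eq_mul]
  have hD' : ∀ c, |∑ i ∈ Q, φ i c| ≤ (Q.card * D) * Real.exp (-|c|) := by
    intro c
    refine (abs_sum_le_sum_abs _ _).trans ?_
    refine (sum_le_sum fun i hi => hD i hi c).trans (le_of_eq ?_)
    rw [sum_const, nsmul_eq_mul]
    ring
  have hφi : Integrable fun c => ∑ i ∈ Q, φ i c :=
    (integrable_exp_abs.const_mul (Q.card * D)).mono' hφm'.aestronglyMeasurable
      (Filter.Eventually.of_forall fun c => by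
        rw [Real.norm_eq_abs]
        exact hD' c)
  exact level_int a1 a2 b1 b2 hd hFm' hgm hφi hφm' hK' hg hs hS hO w1 w2 hM (tail_le hφi hD' hM)

/-- **THE CONTACT BOX ON A SUCCESS** (the contact functional): `C = g B * C_in` up to the oscillation of `g` and tiny terms. -/
theorem box_ct {ι : Type*} (Q : Finset ι) (a1 : 0 < A1) (a2 : 0 < A2) (b1 : 0 < B1) (b2 : 0 < B2)
    (hd : 0 < A1 * B2 - A2 * B1) {pp : ι → ℝ} {wk f f' ml mr f1 f2 : ι → ℤ → ℝ} {q : ι → ℤ} {P : ℝ}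
    (hP : ∀ i ∈ Q, pp i ≤ P) (hk : 1 ≤ kap) (he : 0 ≤ eta)
    (h : ∀ i ∈ Q, Cell lo hi A1 A2 B1 B2 kap eta rr (pp i) (wk i) (f i) (f' i) (ml i) (mr i) (f1 i) (f2 i) (q i))
    {g : ℝ → ℝ} {S s0 G M O : ℝ} (hgm : Measurable g)
    (hg : ∀ a, |g a| ≤ G) (hs : ∀ a, a ∉ Set.Icc s0 (s0 + S) → g a = 0) (hS : 0 ≤ S)
    (hO : ∀ a, |a - Real.log (B2 / A1)| ≤ M + 1 → |g a - g (Real.log (B2 / A1))| ≤ O)
    (w1 : Real.log (B1 / B2) ≤ -(M + 1)) (w2 : M + 1 ≤ Real.log (A1 / A2)) (hM : 0 ≤ M) :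
    |(∫ a, g a * ∑ i ∈ Q, ct lo hi (pp i) (wk i) (ml i) (fun y => Real.exp (-a) * mr i y) (f i) (q i)) -
        g (Real.log (B2 / A1)) *
          ∫ c, ∑ i ∈ Q, ct lo hi (pp i) (wk i) (f1 i) (fun y => Real.exp (-c) * f2 i y) (f' i) (q i)| ≤
      S * (G * (Q.card * (176 * (1 + P) * kap ^ 8 * eta))) +
        O * (∫ c, |∑ i ∈ Q, ct lo hi (pp i) (wk i) (f1 i) (fun y => Real.exp (-c) * f2 i y) (f' i) (q i)|) +
        2 * (G * (2 * (Q.card * (3 * kap ^ 8 * rr)) * Real.exp (-M))) := by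
  refine box_level Q a1 a2 b1 b2 hd
    (F := fun i a => ct lo hi (pp i) (wk i) (ml i) (fun y => Real.exp (-a) * mr i y) (f i) (q i))
    (φ := fun i c => ct lo hi (pp i) (wk i) (f1 i) (fun y => Real.exp (-c) * f2 i y) (f' i) (q i))
    (fun i _ => measurable_ct) (fun i _ => measurable_ct) hgm ?_ (fun i hi c => (h i hi).ct_dec c) hg hs hS hO w1 w2 hM
  intro i hi a
  refine ((h i hi).ct_near a1 a2 b1 b2 a).trans ?_
  have h1 := hP i hi
  have h2 : 0 ≤ kap := by linarith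
  gcongr

/-- **THE CONTACT BOX ON A SUCCESS** (the meeting functional). -/
theorem box_pt {ι : Type*} (Q : Finset ι) (a1 : 0 < A1) (a2 : 0 < A2) (b1 : 0 < B1) (b2 : 0 < B2)
    (hd : 0 < A1 * B2 - A2 * B1) {pp : ι → ℝ} {wk f f' ml mr f1 f2 : ι → ℤ → ℝ} {q : ι → ℤ} {P : ℝ}
    (hP : ∀ i ∈ Q, pp i ≤ P) (he : 0 ≤ eta)
    (h : ∀ i ∈ Q, Cell lo hi A1 A2 B1 B2 kap eta rr (pp i) (wk i) (f i) (f' i) (ml i) (mr i) (f1 i) (f2 i) (q i))
    {g : ℝ → ℝ} {S s0 G M O : ℝ} (hgm : Measurable g)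
    (hg : ∀ a, |g a| ≤ G) (hs : ∀ a, a ∉ Set.Icc s0 (s0 + S) → g a = 0) (hS : 0 ≤ S)
    (hO : ∀ a, |a - Real.log (B2 / A1)| ≤ M + 1 → |g a - g (Real.log (B2 / A1))| ≤ O)
    (w1 : Real.log (B1 / B2) ≤ -(M + 1)) (w2 : M + 1 ≤ Real.log (A1 / A2)) (hM : 0 ≤ M) :
    |(∫ a, g a * ∑ i ∈ Q, pt lo hi (pp i) (wk i) (ml i) (fun y => Real.exp (-a) * mr i y) (f i) (q i)) -
        g (Real.log (B2 / A1)) *
          ∫ c, ∑ i ∈ Q, pt lo hi (pp i) (wk i) (f1 i) (fun y => Real.exp (-c) * f2 i y) (f' i) (q i)| ≤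
      S * (G * (Q.card * (16 * (1 + P) * eta))) +
        O * (∫ c, |∑ i ∈ Q, pt lo hi (pp i) (wk i) (f1 i) (fun y => Real.exp (-c) * f2 i y) (f' i) (q i)|) +
        2 * (G * (2 * (Q.card * (2 * rr)) * Real.exp (-M))) := by
  refine box_level Q a1 a2 b1 b2 hd
    (F := fun i a => pt lo hi (pp i) (wk i) (ml i) (fun y => Real.exp (-a) * mr i y) (f i) (q i))
    (φ := fun i c => pt lo hi (pp i) (wk i) (f1 i) (fun y => Real.exp (-c) * f2 i y) (f' i) (q i))
    (fun i _ => measurable_pt) (fun i _ => measurable_pt) hgm ?_ (fun i hi c => (h i hi).pt_dec c) hg hs hS hO w1 w2 hM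
  intro i hi a
  refine ((h i hi).pt_near a1 a2 b1 b2 a).trans ?_
  have h1 := hP i hi
  gcongr

end

end Pool.Agent.W_7d29a1_C1.K97
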