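import Pool.Agent.W_7d29a1_C1.PhiA74
import Pool.Agent.W_7d29a1_C1.HoneC74
import Pool.Agent.W_7d29a1_C1.Phi68

/-!
Both halves (MP_7d29a1_pr), attractor route [C1]: H1 FOR THE TOTAL CONTACT FUNCTIONAL OF A CONTEXT. (helper74)

`w_eq` : the natural weight of a contact is `mw`. `ws_le_w` : the weight in the frame is at most `R` times the natural weight,
`R = (e^X + p)² e^(2X)`, `X` = bound of the logarithmic neighbour ratios of the future. `near_C`, `near_w` : `h1_ct`, `h1_pt` in the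
names of `Ctx60`. `phi74` : `Phi` is `FPh` of the inside, up to tiny terms.
-/

set_option autoImplicit false
set_option linter.unusedSectionVars false

namespace Pool.Agent.W_7d29a1_C1.H1c

open Finset MeasureTheory
open Pool.Agent.W_7d29a1_F
open Pool.Agent.W_7d29a1_C1.K91 (shw Box Grp wt wt_pos zs)
open Pool.Agent.W_7d29a1_C1.K97
open Pool.Agent.W_7d29a1_C1.L91
open Pool.Agent.W_7d29a1_C1.K91P (fw bw shp bw_pos dp GG)
open Pool.Agent.W_7d29a1_C1.R26P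
open Pool.Agent.W_7d29a1_C1.F74
open Pool.Agent.W_7d29a1_C1.H60
open Pool.Agent.W_7d29a1_C1.H60.Cx (l uc mem_rows)

noncomputable section

variable {Γ : Cx}

theorem tmM (h : Γ.Ok) (η : Env) {i : ℕ} (hi : i < Γ.N) :
    tm 0 Γ.hi (Γ.p i) (wt η i) (fw (wt η) Γ.p l i) (fC Γ η i) = Γ.ZM η := by
  have k := K91P.tm_l (w := wt η) (p := Γ.p) (boxC1 h.msk) l0_pos hi
  rw [sum_l] at k
  exact k

theorem tmR (h : Γ.Ok) (η : Env) {i : ℕ} (hi : i < Γ.N) :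
    tm 0 Γ.hi (Γ.p i) (wt η i) (fw (wt η) Γ.p Γ.r i) (fC Γ η i) = Γ.ZR η :=
  K91P.tm_r (w := wt η) (p := Γ.p) (boxC1 h.msk) (L91.r_pos h.msk) hi

/-- **The natural weight of a contact.** -/
theorem w_eq (h : Γ.Ok) (η : Env) {i : ℕ} (hi : i < Γ.N) (x : ℤ) :
    Γ.w (i, x) η = mw 0 Γ.hi (Γ.p i) (wt η i) (fw (wt η) Γ.p l i) (fw (wt η) Γ.p Γ.r i) (fC Γ η i) x := by
  unfold mw
  rw [tmM h η hi, tmR h η hi]
  rfl

/-- **The seam ratio**: the weight in the frame against the natural weight. -/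
theorem ws_le_w (h : Γ.Ok) (η : Env) {i : ℕ} (hi : i < Γ.N) {x : ℤ} (hx : x ∈ Icc (1 : ℤ) (1 + Γ.N)) {X : ℝ}
    (hX : Nb Γ η i X) : Γ.ws (i, x) η ≤ (Real.exp X + Γ.p i) ^ 2 * Real.exp (2 * X) * Γ.w (i, x) η := by
  have hk' : (1 : ℤ) ≤ Γ.k := by exact_mod_cast h.k1
  have hl0 := K91P.fw_nonneg (w := wt η) (p := Γ.p) (wt_pos η) L91.p_pos L91.l_nonneg i
  have hr0 := K91P.fw_nonneg (w := wt η) (p := Γ.p) (wt_pos η) L91.p_pos (L91.r_nonneg h.msk) i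
  have hf : ∀ y, 0 < fC Γ η i y := fun y => bw_pos (wt_pos η) L91.p_pos _ _ _
  have hhi : (0 : ℤ) ≤ Γ.hi := by unfold Cx.hi; positivity
  have el : ∃ y ∈ Icc (0 : ℤ) Γ.hi, 0 < fw (wt η) Γ.p l i y := by
    refine ⟨0, mem_Icc.2 ⟨le_rfl, hhi⟩, K91P.fw_stay (wt_pos η) L91.p_pos L91.l_nonneg ?_ i⟩
    unfold l
    rw [if_pos rfl]
    exact one_pos
  have er : ∃ y ∈ Icc (0 : ℤ) Γ.hi, 0 < fw (wt η) Γ.p Γ.r i y := by
    obtain ⟨y, hy⟩ := L91.r_pos h.msk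
    have h1 : 1 ≤ y ∧ y ≤ Γ.k := by
      by_contra hc
      rw [L91.r_out hc] at hy
      exact lt_irrefl _ hy
    refine ⟨y, mem_Icc.2 ⟨by omega, by unfold Cx.hi; omega⟩,
      K91P.fw_stay (wt_pos η) L91.p_pos (L91.r_nonneg h.msk) hy i⟩
  have hXG : ∀ y ∈ Icc (0 : ℤ) Γ.hi, |Real.log (fC Γ η i (y - 1) + Γ.p i * fC Γ η i y) -
      Real.log (fC Γ η i y + Γ.p i * fC Γ η i (y + 1))| ≤ X := by
    intro y hy
    have := hX.G y hy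
    rw [GG_fC, GG_fC, sub_add_cancel] at this
    exact this
  have k1 := log_rz_tm (q := x) (L91.p_pos (Γ := Γ) i) (wt_pos η i) hf hl0 el hX.X0 hXG
  have k2 := log_rz_tm (q := x) (L91.p_pos (Γ := Γ) i) (wt_pos η i) hf hr0 er hX.X0 hXG
  rw [tmM h η hi] at k1
  rw [tmR h η hi] at k2
  have z1 : 0 < rz 0 Γ.hi (Γ.p i) (wt η i) (fw (wt η) Γ.p l i) (fC Γ η i) x :=
    K91P.rz_pos (L91.p_pos i) (wt_pos η i) hf hl0 el x
  have z2 : 0 < rz 0 Γ.hi (Γ.p i) (wt η i) (fw (wt η) Γ.p Γ.r i) (fC Γ η i) x :=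
    K91P.rz_pos (L91.p_pos i) (wt_pos η i) hf hr0 er x
  have pM : 0 < Γ.ZM η := L91.ZM_pos η
  have pR : 0 < Γ.ZR η := L91.ZR_pos h.msk η
  have a1 := (le_of_log z1 pM k1).2
  have a2 := (le_of_log z2 pR k2).2
  -- the product of the totals
  have e2 : Real.exp (2 * X) = Real.exp X * Real.exp X := by rw [← Real.exp_add]; ring_nf
  have prod : Γ.ZM η * Γ.ZR η ≤ Real.exp (2 * X) *
      (rz 0 Γ.hi (Γ.p i) (wt η i) (fw (wt η) Γ.p l i) (fC Γ η i) x *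
        rz 0 Γ.hi (Γ.p i) (wt η i) (fw (wt η) Γ.p Γ.r i) (fC Γ η i) x) := by
    have := mul_le_mul a1 a2 pR.le (mul_nonneg (Real.exp_pos X).le z1.le)
    rw [e2]
    calc Γ.ZM η * Γ.ZR η ≤ Real.exp X * rz 0 Γ.hi (Γ.p i) (wt η i) (fw (wt η) Γ.p l i) (fC Γ η i) x *
          (Real.exp X * rz 0 Γ.hi (Γ.p i) (wt η i) (fw (wt η) Γ.p Γ.r i) (fC Γ η i) x) := this
      _ = _ := by ring
  -- the profile
  have hxx := mem_Icc.1 hx
  have hfx := hX.f x (mem_Icc.2 ⟨hxx.1, by unfold Cx.hi; omega⟩)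
  have b1 := (le_of_log (hf (x - 1)) (hf x) hfx).1
  have pi := L91.p_pos (Γ := Γ) i
  have G1 : fC Γ η i (x - 1) + Γ.p i * fC Γ η i x ≤ (Real.exp X + Γ.p i) * fC Γ η i x := by linarith
  have G0 : 0 ≤ fC Γ η i (x - 1) + Γ.p i * fC Γ η i x := by
    have := hf (x - 1)
    have := hf x
    positivity
  have G2 := mul_self_le_mul_self G0 G1
  have D0 : 0 ≤ dp (wt η) Γ.p l Γ.r i (x - 1) x :=
    K91P.dp_nonneg (wt_pos η) L91.p_pos (boxC1 h.msk).g i (x - 1) x (by omega)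
  have w1 := wt_pos η i (x - 1)
  have w2 := wt_pos η i x
  rw [L91.ws_eq, w_eq h η hi]
  unfold L91.cw mw
  rw [tmM h η hi, tmR h η hi, div_le_iff₀ (mul_pos z1 z2)]
  have num : L91.dw (Γ.p i) (wt η i) (fw (wt η) Γ.p l i) (fw (wt η) Γ.p Γ.r i) (fC Γ η i) x ≤
      (Real.exp X + Γ.p i) ^ 2 * ((fw (wt η) Γ.p l i (x - 1) * fw (wt η) Γ.p Γ.r i x -
        fw (wt η) Γ.p l i x * fw (wt η) Γ.p Γ.r i (x - 1)) * (Γ.p i * (wt η i (x - 1) * wt η i x) * fC Γ η i x ^ 2)) := by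
    unfold L91.dw
    have D1 : 0 ≤ (fw (wt η) Γ.p l i (x - 1) * fw (wt η) Γ.p Γ.r i x -
        fw (wt η) Γ.p l i x * fw (wt η) Γ.p Γ.r i (x - 1)) * (Γ.p i * (wt η i (x - 1) * wt η i x)) := by
      refine mul_nonneg ?_ (by positivity)
      unfold dp at D0
      linarith
    have := mul_le_mul_of_nonneg_left G2 D1
    nlinarith
  have nn : 0 ≤ (fw (wt η) Γ.p l i (x - 1) * fw (wt η) Γ.p Γ.r i x -
        fw (wt η) Γ.p l i x * fw (wt η) Γ.p Γ.r i (x - 1)) * (Γ.p i * (wt η i (x - 1) * wt η i x) * fC Γ η i x ^ 2) := by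
    refine mul_nonneg ?_ (by positivity)
    unfold dp at D0
    linarith
  set Nn := (fw (wt η) Γ.p l i (x - 1) * fw (wt η) Γ.p Γ.r i x -
        fw (wt η) Γ.p l i x * fw (wt η) Γ.p Γ.r i (x - 1)) * (Γ.p i * (wt η i (x - 1) * wt η i x) * fC Γ η i x ^ 2) with hNn
  refine num.trans ?_
  have s1 : Nn = Nn / (Γ.ZM η * Γ.ZR η) * (Γ.ZM η * Γ.ZR η) := by
    rw [div_mul_cancel₀ _ (mul_pos pM pR).ne']
  have q0 : 0 ≤ Nn / (Γ.ZM η * Γ.ZR η) := div_nonneg nn (mul_pos pM pR).le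
  have s2 : Nn ≤ Nn / (Γ.ZM η * Γ.ZR η) * (Real.exp (2 * X) *
      (rz 0 Γ.hi (Γ.p i) (wt η i) (fw (wt η) Γ.p l i) (fC Γ η i) x *
        rz 0 Γ.hi (Γ.p i) (wt η i) (fw (wt η) Γ.p Γ.r i) (fC Γ η i) x)) := by
    have := mul_le_mul_of_nonneg_left prod q0
    linarith
  have s3 := mul_le_mul_of_nonneg_left s2 (sq_nonneg (Real.exp X + Γ.p i))
  linarith

/-! ### `h1_ct`, `h1_pt` in the names of `Ctx60` -/

/-- The error of one contact functional. -/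
def ect (pk kap e rr K M : ℝ) : ℝ :=
  2 * (M + 1) * (176 * (1 + pk) * kap ^ 8 * e) + 12 * kap ^ 8 * rr * Real.exp (-M) + 6 * (K * pk) * rr * Real.exp (-M)

/-- The error of one natural weight. -/
def ept (pk e rr M : ℝ) : ℝ := 2 * (M + 1) * (16 * (1 + pk) * e) + 8 * rr * Real.exp (-M) + 6 * rr * Real.exp (-M)

variable {c0 n1 j n2 n3 m : ℕ} {a1 b1 a2 b2 xa xb ya yb za zb ua ub q : ℤ} {δ ε ρ kap R1 M : ℝ}

theorem near_C (h : Γ.Ok) (η : Env) (hN : c0 + n1 + j + 1 + (n2 + (n3 + m)) = Γ.N) {x : ℤ} (hx : x ∈ Icc (1 : ℤ) (1 + Γ.N))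
    {u X : ℝ} (hu : uc (c0 + n1 + j, x) η ≤ u) (hX : Nb Γ η (c0 + n1 + j) X)
    (S : Suc (wt η) Γ.p 0 Γ.hi l Γ.r c0 n1 j n2 n3 m a1 b1 a2 b2 xa xb ya yb za zb ua ub x δ ε ρ kap R1 M) :
    |Γ.C (c0 + n1 + j, x) η - Fin (shw (wt η) c0) (shp Γ.p c0) (n1 + j) (n2 + n3) a1 a2 x| ≤
      ect (Γ.p (c0 + n1 + j)) kap (et (Γ.p (c0 + n1 + j)) δ ε ρ) (rrt (Γ.p (c0 + n1 + j)) ρ R1)
        (KC Γ (c0 + n1 + j) u X) M := by
  have hi : c0 + n1 + j < Γ.N := by omega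
  have hxx := mem_Icc.1 hx
  have hk' : (1 : ℤ) ≤ Γ.k := by exact_mod_cast h.k1
  have hf := hX.f x (mem_Icc.2 ⟨hxx.1, by unfold Cx.hi; omega⟩)
  have C := cutdC h.msk η hi hx hu hf
  have e1 : Γ.N - (c0 + n1 + j + 1) = n2 + (n3 + m) := by omega
  have e2 : fC Γ η (c0 + n1 + j) = bw (wt η) Γ.p (c0 + n1 + j + 1) (n2 + (n3 + m)) := by
    unfold fC
    rw [e1]
  rw [C_eq h.msk η hi hx, e2]
  rw [e2] at C
  exact h1_ct (wt_pos η) L91.p_pos S C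

theorem near_w (h : Γ.Ok) (η : Env) (hN : c0 + n1 + j + 1 + (n2 + (n3 + m)) = Γ.N) {x : ℤ} (hx : x ∈ Icc (1 : ℤ) (1 + Γ.N))
    (S : Suc (wt η) Γ.p 0 Γ.hi l Γ.r c0 n1 j n2 n3 m a1 b1 a2 b2 xa xb ya yb za zb ua ub x δ ε ρ kap R1 M) :
    |Γ.w (c0 + n1 + j, x) η - Win (shw (wt η) c0) (shp Γ.p c0) (n1 + j) (n2 + n3) a1 a2 x| ≤
      ept (Γ.p (c0 + n1 + j)) (et (Γ.p (c0 + n1 + j)) δ ε ρ) (rrt (Γ.p (c0 + n1 + j)) ρ R1) M := by
  have hi : c0 + n1 + j < Γ.N := by omega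
  have C := cutdC h.msk η hi hx le_rfl le_rfl
  have e1 : Γ.N - (c0 + n1 + j + 1) = n2 + (n3 + m) := by omega
  have e2 : fC Γ η (c0 + n1 + j) = bw (wt η) Γ.p (c0 + n1 + j + 1) (n2 + (n3 + m)) := by
    unfold fC
    rw [e1]
  rw [w_eq h η hi x, e2]
  rw [e2] at C
  exact h1_pt (wt_pos η) L91.p_pos S C

/-! ### The total contact functional -/

/-- **A success of a context**: the rows `c0 .. c0 + D`, entrance slab `n1` rows, exit slab `D - D'` rows, all middle rows. -/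
structure SucR (Γ : Cx) (η : Env) (c0 n1 D' D : ℕ) (a1 b1 a2 b2 xa xb ya yb za zb : ℤ) (ua ub : ℕ → ℤ) (δ ε ρ kap R1 M : ℝ) :
    Prop where
  hn : n1 < D'
  hD : D' ≤ D
  hN : c0 + D ≤ Γ.N
  suc : ∀ K, n1 ≤ K → K < D' → ∀ x ∈ Icc (1 : ℤ) (1 + Γ.N), Suc (wt η) Γ.p 0 Γ.hi l Γ.r c0 n1 (K - n1) (D' - (K + 1)) (D - D')
    (Γ.N - (c0 + D)) a1 b1 a2 b2 xa xb ya yb za zb (ua K) (ub K) x δ ε ρ kap R1 M

variable {D' D : ℕ} {uA uB : ℕ → ℤ} {η : Env}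

theorem SucR.C (h : Γ.Ok) (S : SucR Γ η c0 n1 D' D a1 b1 a2 b2 xa xb ya yb za zb uA uB δ ε ρ kap R1 M) {K : ℕ} (h1 : n1 ≤ K)
    (h2 : K < D') {x : ℤ} (hx : x ∈ Icc (1 : ℤ) (1 + Γ.N)) {u X : ℝ} (hu : uc (c0 + K, x) η ≤ u) (hX : Nb Γ η (c0 + K) X) :
    |Γ.C (c0 + K, x) η - Fin (shw (wt η) c0) (shp Γ.p c0) K (D - (K + 1)) a1 a2 x| ≤
      ect (Γ.p (c0 + K)) kap (et (Γ.p (c0 + K)) δ ε ρ) (rrt (Γ.p (c0 + K)) ρ R1) (KC Γ (c0 + K) u X) M := by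
  have hD := S.hD
  have hN := S.hN
  have e0 : c0 + n1 + (K - n1) = c0 + K := by omega
  have e1 : n1 + (K - n1) = K := by omega
  have e2 : D' - (K + 1) + (D - D') = D - (K + 1) := by omega
  have key := near_C (Γ := Γ) (c0 := c0) (n1 := n1) (j := K - n1) (n2 := D' - (K + 1)) (n3 := D - D')
    (m := Γ.N - (c0 + D)) h η (by omega) hx (u := u) (X := X) (by rw [e0]; exact hu) (by rw [e0]; exact hX) (S.suc K h1 h2 x hx)
  rw [e0, e1, e2] at key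
  exact key

theorem SucR.w (h : Γ.Ok) (S : SucR Γ η c0 n1 D' D a1 b1 a2 b2 xa xb ya yb za zb uA uB δ ε ρ kap R1 M) {K : ℕ} (h1 : n1 ≤ K)
    (h2 : K < D') {x : ℤ} (hx : x ∈ Icc (1 : ℤ) (1 + Γ.N)) :
    |Γ.w (c0 + K, x) η - Win (shw (wt η) c0) (shp Γ.p c0) K (D - (K + 1)) a1 a2 x| ≤
      ept (Γ.p (c0 + K)) (et (Γ.p (c0 + K)) δ ε ρ) (rrt (Γ.p (c0 + K)) ρ R1) M := by
  have hD := S.hD
  have hN := S.hN
  have e0 : c0 + n1 + (K - n1) = c0 + K := by omega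
  have e1 : n1 + (K - n1) = K := by omega
  have e2 : D' - (K + 1) + (D - D') = D - (K + 1) := by omega
  have key := near_w (Γ := Γ) (c0 := c0) (n1 := n1) (j := K - n1) (n2 := D' - (K + 1)) (n3 := D - D')
    (m := Γ.N - (c0 + D)) h η (by omega) hx (S.suc K h1 h2 x hx)
  rw [e0, e1, e2] at key
  exact key

/-- The positions of the cells. -/
theorem SucR.geo (S : SucR Γ η c0 n1 D' D a1 b1 a2 b2 xa xb ya yb za zb uA uB δ ε ρ kap R1 M) :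
    0 ≤ a1 ∧ a1 < a2 ∧ a2 ≤ c0 := by
  have s := S.suc n1 le_rfl S.hn 1 (mem_Icc.2 ⟨le_rfl, by omega⟩)
  have g := s.hl.g
  have g1 := g.h1
  have g2 := g.h2
  refine ⟨g.h7, by omega, ?_⟩
  by_contra hc
  have A2 := s.A2
  have z : am (wt η) Γ.p c0 n1 a2 b2 xa (fw (wt η) Γ.p l c0) = 0 := by
    unfold am
    refine sum_eq_zero fun y hy => ?_
    rw [mem_Icc] at hy
    rw [K91P.fw_hi (B := 0) (fun z hz => by unfold l; rw [if_neg (by omega)]) c0 y (by omega), zero_mul]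
  linarith

/-- **H1 FOR THE TOTAL CONTACT FUNCTIONAL.** -/
theorem phi74 (h : Γ.Ok) (S : SucR Γ η c0 n1 D' D a1 b1 a2 b2 xa xb ya yb za zb uA uB δ ε ρ kap R1 M) {u X τ τ' t Kr : ℝ}
    (hX : ∀ i < Γ.N, Nb Γ η i X) (hu : ∀ c ∈ Γ.rows 0 Γ.N, uc c η ≤ u)
    (hτ : ∀ K, n1 ≤ K → K < D' →
      ect (Γ.p (c0 + K)) kap (et (Γ.p (c0 + K)) δ ε ρ) (rrt (Γ.p (c0 + K)) ρ R1) (KC Γ (c0 + K) u X) M ≤ τ)
    (hτ' : ∀ K, n1 ≤ K → K < D' → ept (Γ.p (c0 + K)) (et (Γ.p (c0 + K)) δ ε ρ) (rrt (Γ.p (c0 + K)) ρ R1) M ≤ τ')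
    (hKr : ∀ i < Γ.N, KC Γ i u X * ((Real.exp X + Γ.p i) ^ 2 * Real.exp (2 * X)) ≤ Kr)
    (mt : 1 - t ≤ Mtp (shw (wt η) c0) (shp Γ.p c0) n1 D' D a1 a2) :
    |Γ.Phi 0 Γ.N η - FPh (shw (wt η) c0) (shp Γ.p c0) n1 D' D a1 a2| ≤
      (D' - n1 : ℕ) * ((Γ.N + 1 : ℕ) * τ) + Kr * (t + (D' - n1 : ℕ) * ((Γ.N + 1 : ℕ) * τ')) := by
  have hn := S.hn
  have hD := S.hD
  have hN := S.hN
  obtain ⟨g1, g2, g3⟩ := S.geo
  have mem : ∀ k q, k < Γ.N → q ∈ Icc (1 : ℤ) (1 + Γ.N) → (k, q) ∈ Γ.rows 0 Γ.N := by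
    intro k q hk hq
    rw [mem_rows]
    exact ⟨⟨Nat.zero_le _, hk⟩, mem_Icc.1 hq⟩
  have u0 : 0 ≤ u := (abs_nonneg _).trans (hu (0, 1) (mem 0 1 (by omega) (mem_Icc.2 ⟨le_rfl, by omega⟩)))
  have X0 := (hX 0 (by omega)).X0
  have K0 : ∀ i, 0 ≤ KC Γ i u X := fun i => Kl_nonneg (L91.p_pos i) (Real.one_le_exp u0) (Real.one_le_exp X0)
  have Kr0 : 0 ≤ Kr := by
    refine le_trans ?_ (hKr 0 (by omega))
    have := K0 0
    positivity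
  have eC : ∑ k ∈ range Γ.N, ∑ q ∈ Icc (1 : ℤ) (1 + Γ.N), Γ.C (k, q) η = Γ.Phi 0 Γ.N η := by
    unfold Cx.Phi Cx.rows
    rw [sum_product, ← range_eq_Ico]
  have eW : ∑ k ∈ range Γ.N, ∑ q ∈ Icc (1 : ℤ) (1 + Γ.N), Γ.w (k, q) η ≤ 1 := by
    have := Cx.sum_w_le h η 0 Γ.N le_rfl
    unfold Cx.rows at this
    rw [sum_product, ← range_eq_Ico] at this
    exact this
  have key := phi_close (W := shw (wt η) c0) (P := shp Γ.p c0) (N := Γ.N) (c0 := c0) (n1 := n1) (D' := D') (D := D) (qa := 1)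
    (qb := 1 + Γ.N) (a1 := a1) (a2 := a2) (C := fun k q => Γ.C (k, q) η) (wc := fun k q => Γ.w (k, q) η) (τ := τ) (τ' := τ')
    (t := t) (Kr := Kr) g2.le hn.le (by omega) (by omega) (by omega) Kr0 eW
    (fun k q hk hq => ?_)
    (fun K h1 h2 x hx => (S.C h h1 h2 hx (hu _ (mem _ _ (by omega) hx)) (hX _ (by omega))).trans (hτ K h1 h2))
    (fun K h1 h2 x hx => (S.w h h1 h2 hx).trans (hτ' K h1 h2)) mt
  · rw [eC] at key
    have e : (1 + (Γ.N : ℤ) + 1 - 1).toNat = Γ.N + 1 := by omega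
    rw [e] at key
    exact key
  · have hxx := mem_Icc.1 hq
    have hk' : (1 : ℤ) ≤ Γ.k := by exact_mod_cast h.k1
    have hf := (hX k hk).f q (mem_Icc.2 ⟨hxx.1, by unfold Cx.hi; omega⟩)
    have b1 := L91.abs_C_le h.msk η hk hq (hu _ (mem k q hk hq)) hf
    have b2 := ws_le_w h η hk hq (hX k hk)
    have b3 := Cx.w_nonneg h (k, q) η
    have b4 := mul_le_mul_of_nonneg_left b2 (K0 k)
    have b5 := mul_le_mul_of_nonneg_right (hKr k hk) b3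
    show |Γ.C (k, q) η| ≤ Kr * Γ.w (k, q) η
    linarith

end

end Pool.Agent.W_7d29a1_C1.H1c
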