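import Pool.Agent.W_7d29a1_C1.HoneB74

/-!
Both halves (MP_7d29a1_pr), attractor route [C1]: H1 FOR THE TOTAL CONTACT FUNCTIONAL, over K91P. (helper74)

`FPh` : the total contact functional of the inner system, middle rows. `Mtp` : probability that the first meeting of the inner system
is in the middle rows. `phi_close` : the total functional `∑ C` of a context is `FPh`, up to tiny terms, as soon as each middle
contact is near its inner value and `1 - t ≤ Mtp`.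
-/

set_option autoImplicit false
set_option linter.unusedSectionVars false

namespace Pool.Agent.W_7d29a1_C1.H1c

open Finset MeasureTheory
open Pool.Agent.W_7d29a1_C1.K91 (lev lev' zs cut shw sum_shift)
open Pool.Agent.W_7d29a1_C1.K97
open Pool.Agent.W_7d29a1_C1.L91
open Pool.Agent.W_7d29a1_C1.K91P (fw bw shp bw_pos fw_comp bw_comp)
open Pool.Agent.W_7d29a1_C1.R26P
open Pool.Agent.W_7d29a1_C1.F74

noncomputable section

/-! ### The contacts outside the inner cone -/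

theorem ct_zero {p : ℝ} {lo hi : ℤ} {wk ml mr f : ℤ → ℝ} {q : ℤ}
    (h : (ml (q - 1) = 0 ∧ mr (q - 1) = 0) ∨ (ml q = 0 ∧ mr q = 0)) : ct lo hi p wk ml mr f q = 0 := by
  unfold ct ctg ctl pg pq
  rcases h with ⟨h1, h2⟩ | ⟨h1, h2⟩
  · rw [h1, h2, mul_zero, mul_zero, add_zero, jl_zero_left, jq_zero_left, mul_zero, mul_zero, sub_zero]
  · rw [h1, h2, mul_zero, mul_zero, add_zero, jl_zero_right, jq_zero_right, mul_zero, mul_zero, sub_zero]

variable {W : ℕ → ℤ → ℝ} {P : ℕ → ℝ}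

theorem fw_sg_zero {K : ℕ} {a y : ℤ} (h : y < a ∨ a + K < y) : fw W P (sg a) K y = 0 := by
  rcases h with h | h
  · exact K91P.fw_lo (A := a) (fun z hz => by unfold sg; rw [if_neg (by omega)]) K y h
  · exact K91P.fw_hi (B := a) (fun z hz => by unfold sg; rw [if_neg (by omega)]) K y h

theorem Fin_out {K J : ℕ} {a1 a2 q : ℤ} (ha : a1 ≤ a2) (h : q ≤ a1 ∨ a2 + K < q) : Fin W P K J a1 a2 q = 0 := by
  unfold Fin Cc cta
  have e : ∀ a : ℝ, ct a1 (a2 + K + 1) (P K) (W K) (fw W P (sg a1) K) (fun y => Real.exp (-a) * fw W P (sg a2) K y)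
      (bw W P (K + 1) J) q = 0 := by
    intro a
    refine ct_zero ?_
    rcases h with h | h
    · left
      refine ⟨fw_sg_zero (by omega), ?_⟩
      show Real.exp (-a) * fw W P (sg a2) K (q - 1) = 0
      rw [fw_sg_zero (a := a2) (by omega), mul_zero]
    · right
      refine ⟨fw_sg_zero (by omega), ?_⟩
      show Real.exp (-a) * fw W P (sg a2) K q = 0
      rw [fw_sg_zero (a := a2) (by omega), mul_zero]
  rw [integral_congr_ae (Filter.Eventually.of_forall e)]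
  exact integral_zero _ _

theorem Win_out {K J : ℕ} {a1 a2 q : ℤ} (ha : a1 ≤ a2) (h : q ≤ a1 ∨ a2 + K < q) : Win W P K J a1 a2 q = 0 := by
  unfold Win mw
  have e : fw W P (sg a1) K (q - 1) * fw W P (sg a2) K q - fw W P (sg a1) K q * fw W P (sg a2) K (q - 1) = 0 := by
    rcases h with h | h
    · rw [fw_sg_zero (a := a1) (y := q - 1) (by omega), fw_sg_zero (a := a2) (y := q - 1) (by omega)]
      ring
    · rw [fw_sg_zero (a := a1) (y := q) (by omega), fw_sg_zero (a := a2) (y := q) (by omega)]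
      ring
  rw [e, zero_mul, zero_div]

/-! ### The total functional of the inside -/

/-- The contacts of one middle row `K`. -/
def cs (a1 a2 : ℤ) (K : ℕ) : Finset ℤ := Icc (a1 + 1) (a2 + K)

/-- **The total contact functional of the inner system** : `D` rows, contacts in the rows `n1 ≤ K < D'`. -/
def FPh (W : ℕ → ℤ → ℝ) (P : ℕ → ℝ) (n1 D' D : ℕ) (a1 a2 : ℤ) : ℝ :=
  ∑ K ∈ Ico n1 D', ∑ q ∈ cs a1 a2 K, Fin W P K (D - (K + 1)) a1 a2 q

/-- The probability that the first meeting of the inner system is in the middle rows. -/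
def Mtp (W : ℕ → ℤ → ℝ) (P : ℕ → ℝ) (n1 D' D : ℕ) (a1 a2 : ℤ) : ℝ :=
  ∑ K ∈ Ico n1 D', ∑ q ∈ cs a1 a2 K, Win W P K (D - (K + 1)) a1 a2 q

/-- The sum over any window which contains the inner cone. -/
theorem sum_cs {a1 a2 qa qb : ℤ} {K : ℕ} (h1 : qa ≤ a1 + 1) (h2 : a2 + K ≤ qb) {F : ℤ → ℝ}
    (hF : ∀ q, (q ≤ a1 ∨ a2 + K < q) → F q = 0) : ∑ q ∈ cs a1 a2 K, F q = ∑ q ∈ Icc qa qb, F q := by
  unfold cs
  refine sum_subset (Icc_subset_Icc h1 h2) fun q _ hq => hF q ?_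
  rw [mem_Icc] at hq
  omega

theorem FPh_congr {W' : ℕ → ℤ → ℝ} {P' : ℕ → ℝ} {n1 D' D : ℕ} (hD : D' ≤ D) (h : ∀ i < D, ∀ y, W i y = W' i y)
    (h' : ∀ i < D, P i = P' i) (a1 a2 : ℤ) : FPh W P n1 D' D a1 a2 = FPh W' P' n1 D' D a1 a2 := by
  unfold FPh
  refine sum_congr rfl fun K hK => sum_congr rfl fun q _ => ?_
  rw [mem_Ico] at hK
  exact Fin_congr (fun i hi => h i (by omega)) (fun i hi => h' i (by omega)) a1 a2 q

theorem Mtp_congr {W' : ℕ → ℤ → ℝ} {P' : ℕ → ℝ} {n1 D' D : ℕ} (hD : D' ≤ D) (h : ∀ i < D, ∀ y, W i y = W' i y)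
    (h' : ∀ i < D, P i = P' i) (a1 a2 : ℤ) : Mtp W P n1 D' D a1 a2 = Mtp W' P' n1 D' D a1 a2 := by
  unfold Mtp
  refine sum_congr rfl fun K hK => sum_congr rfl fun q _ => ?_
  rw [mem_Ico] at hK
  exact Win_congr (fun i hi => h i (by omega)) (fun i hi => h' i (by omega)) a1 a2 q

/-- The contacts of a row, shifted. -/
theorem sum_cs_sh {a1 a2 s : ℤ} {K : ℕ} (F : ℤ → ℝ) : ∑ q ∈ cs (a1 - s) (a2 - s) K, F q = ∑ q ∈ cs a1 a2 K, F (q - s) := by
  unfold cs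
  refine sum_bij' (fun q _ => q + s) (fun q _ => q - s) ?_ ?_ ?_ ?_ ?_
  · intro q hq
    rw [mem_Icc] at hq ⊢
    omega
  · intro q hq
    rw [mem_Icc] at hq ⊢
    omega
  · intro q _
    ring
  · intro q _
    ring
  · intro q _
    show F q = F (q + s - s)
    rw [add_sub_cancel_right]

/-- **Shift of the columns.** -/
theorem FPh_sh (W : ℕ → ℤ → ℝ) (P : ℕ → ℝ) (n1 D' D : ℕ) (a1 a2 s : ℤ) :
    FPh (shc s W) P n1 D' D (a1 - s) (a2 - s) = FPh W P n1 D' D a1 a2 := by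
  unfold FPh
  refine sum_congr rfl fun K _ => ?_
  rw [sum_cs_sh]
  exact sum_congr rfl fun q _ => Fin_sh W P K _ a1 a2 q s

theorem Mtp_sh (W : ℕ → ℤ → ℝ) (P : ℕ → ℝ) (n1 D' D : ℕ) (a1 a2 s : ℤ) :
    Mtp (shc s W) P n1 D' D (a1 - s) (a2 - s) = Mtp W P n1 D' D a1 a2 := by
  unfold Mtp
  refine sum_congr rfl fun K _ => ?_
  rw [sum_cs_sh]
  exact sum_congr rfl fun q _ => Win_sh W P K _ a1 a2 q s

/-! ### The total functional of a context -/

/-- **H1 for the total functional**, abstract: `C`, `wc` = contact functional and meeting weight of all contacts `(k, q)`, `k < N`,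
`q ∈ Icc qa qb`; the middle rows are `c0 + K`, `n1 ≤ K < D'`. -/
theorem phi_close {N c0 n1 D' D : ℕ} {qa qb a1 a2 : ℤ} {C wc : ℕ → ℤ → ℝ} {τ τ' t Kr : ℝ} (ha : a1 ≤ a2)
    (hn : n1 ≤ D') (hN : c0 + D' ≤ N) (h1 : qa ≤ a1 + 1) (h2 : a2 + D' ≤ qb + 1) (hKr : 0 ≤ Kr)
    (sw : ∑ k ∈ range N, ∑ q ∈ Icc qa qb, wc k q ≤ 1)
    (hC : ∀ k q, k < N → q ∈ Icc qa qb → |C k q| ≤ Kr * wc k q)
    (c1 : ∀ K, n1 ≤ K → K < D' → ∀ q ∈ Icc qa qb, |C (c0 + K) q - Fin W P K (D - (K + 1)) a1 a2 q| ≤ τ)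
    (c2 : ∀ K, n1 ≤ K → K < D' → ∀ q ∈ Icc qa qb, |wc (c0 + K) q - Win W P K (D - (K + 1)) a1 a2 q| ≤ τ')
    (mt : 1 - t ≤ Mtp W P n1 D' D a1 a2) :
    |(∑ k ∈ range N, ∑ q ∈ Icc qa qb, C k q) - FPh W P n1 D' D a1 a2| ≤
      (D' - n1 : ℕ) * ((qb + 1 - qa).toNat * τ) + Kr * (t + (D' - n1 : ℕ) * ((qb + 1 - qa).toNat * τ')) := by
  -- the middle rows, as rows of the context
  have sp : ∀ F : ℕ → ℝ, ∑ k ∈ range N, F k =
      (∑ k ∈ range (c0 + n1), F k + ∑ k ∈ Ico (c0 + D') N, F k) + ∑ K ∈ Ico n1 D', F (c0 + K) := by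
    intro F
    have e1 := sum_range_add_sum_Ico F (show c0 + n1 ≤ N by omega)
    have e2 := sum_Ico_consecutive F (show c0 + n1 ≤ c0 + D' by omega) hN
    have e3 : ∑ K ∈ Ico n1 D', F (c0 + K) = ∑ k ∈ Ico (c0 + n1) (c0 + D'), F k := by
      rw [sum_Ico_add F n1 D' c0, add_comm n1 c0, add_comm D' c0]
    rw [e3, ← e1, ← e2]
    ring
  -- the inner sums over the window
  have eF : FPh W P n1 D' D a1 a2 = ∑ K ∈ Ico n1 D', ∑ q ∈ Icc qa qb, Fin W P K (D - (K + 1)) a1 a2 q := by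
    unfold FPh
    refine sum_congr rfl fun K hK => ?_
    rw [mem_Ico] at hK
    exact sum_cs h1 (by omega) fun q hq => Fin_out ha hq
  have eM : Mtp W P n1 D' D a1 a2 = ∑ K ∈ Ico n1 D', ∑ q ∈ Icc qa qb, Win W P K (D - (K + 1)) a1 a2 q := by
    unfold Mtp
    refine sum_congr rfl fun K hK => ?_
    rw [mem_Ico] at hK
    exact sum_cs h1 (by omega) fun q hq => Win_out ha hq
  have cl : ∀ (F G : ℕ → ℤ → ℝ) (e : ℝ), (∀ K, n1 ≤ K → K < D' → ∀ q ∈ Icc qa qb, |F K q - G K q| ≤ e) →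
      |(∑ K ∈ Ico n1 D', ∑ q ∈ Icc qa qb, F K q) - ∑ K ∈ Ico n1 D', ∑ q ∈ Icc qa qb, G K q| ≤
        (D' - n1 : ℕ) * ((qb + 1 - qa).toNat * e) := by
    intro F G e h
    rw [← sum_sub_distrib]
    refine (abs_sum_le_sum_abs _ _).trans ?_
    have k1 : ∀ K ∈ Ico n1 D', |(∑ q ∈ Icc qa qb, F K q) - ∑ q ∈ Icc qa qb, G K q| ≤ (qb + 1 - qa).toNat * e := by
      intro K hK
      rw [mem_Ico] at hK
      rw [← sum_sub_distrib]
      refine (abs_sum_le_sum_abs _ _).trans ?_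
      refine (sum_le_sum fun q hq => h K hK.1 hK.2 q hq).trans ?_
      rw [sum_const, nsmul_eq_mul, Int.card_Icc]
    refine (sum_le_sum k1).trans ?_
    rw [sum_const, nsmul_eq_mul, Nat.card_Ico]
  have d1 := cl (fun K q => C (c0 + K) q) (fun K q => Fin W P K (D - (K + 1)) a1 a2 q) τ c1
  have d2 := cl (fun K q => wc (c0 + K) q) (fun K q => Win W P K (D - (K + 1)) a1 a2 q) τ' c2
  rw [← eF] at d1
  rw [← eM] at d2
  have d3 := (abs_le.1 d2).1
  have s1 := sp fun k => ∑ q ∈ Icc qa qb, wc k q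
  have s2 := sp fun k => ∑ q ∈ Icc qa qb, C k q
  -- the tail
  have tl : |∑ k ∈ range (c0 + n1), ∑ q ∈ Icc qa qb, C k q + ∑ k ∈ Ico (c0 + D') N, ∑ q ∈ Icc qa qb, C k q| ≤
      Kr * (∑ k ∈ range (c0 + n1), ∑ q ∈ Icc qa qb, wc k q + ∑ k ∈ Ico (c0 + D') N, ∑ q ∈ Icc qa qb, wc k q) := by
    refine (abs_add_le _ _).trans ?_
    rw [mul_add]
    refine add_le_add ?_ ?_
    · refine (abs_sum_le_sum_abs _ _).trans ?_
      rw [mul_sum]
      refine sum_le_sum fun k hk => ?_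
      rw [mem_range] at hk
      refine (abs_sum_le_sum_abs _ _).trans ?_
      rw [mul_sum]
      exact sum_le_sum fun q hq => hC k q (by omega) hq
    · refine (abs_sum_le_sum_abs _ _).trans ?_
      rw [mul_sum]
      refine sum_le_sum fun k hk => ?_
      rw [mem_Ico] at hk
      refine (abs_sum_le_sum_abs _ _).trans ?_
      rw [mul_sum]
      exact sum_le_sum fun q hq => hC k q (by omega) hq
  have tl2 : ∑ k ∈ range (c0 + n1), ∑ q ∈ Icc qa qb, wc k q + ∑ k ∈ Ico (c0 + D') N, ∑ q ∈ Icc qa qb, wc k q ≤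
      t + (D' - n1 : ℕ) * ((qb + 1 - qa).toNat * τ') := by
    linarith
  rw [s2]
  have e : (∑ k ∈ range (c0 + n1), ∑ q ∈ Icc qa qb, C k q + ∑ k ∈ Ico (c0 + D') N, ∑ q ∈ Icc qa qb, C k q) +
      ∑ K ∈ Ico n1 D', ∑ q ∈ Icc qa qb, C (c0 + K) q - FPh W P n1 D' D a1 a2 =
      (∑ K ∈ Ico n1 D', ∑ q ∈ Icc qa qb, C (c0 + K) q - FPh W P n1 D' D a1 a2) +
      (∑ k ∈ range (c0 + n1), ∑ q ∈ Icc qa qb, C k q + ∑ k ∈ Ico (c0 + D') N, ∑ q ∈ Icc qa qb, C k q) := by ring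
  rw [e]
  refine (abs_add_le _ _).trans (add_le_add d1 (tl.trans ?_))
  exact mul_le_mul_of_nonneg_left tl2 hKr

end

end Pool.Agent.W_7d29a1_C1.H1c
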