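import Pool.Agent.W_7d29a1_C1.FreD83

/-!
MP_7d29a1_pr, attractor route [C1], SHELL: `Φ` AND `V` FROM THE ONE-SIDED LOCAL REGULARITY OF THE FUTURE. (helper95)

`phi31` bounds `∑ kap x z G z` at the cells through the far part of `DP31` and the tameness `q₂` of its window `W₂`; then `Φ` knows the
window of the far routes, which is chosen after it. **`phi95`** : the same sum from `F z' ≤ exp (q₁ + sg (E / w) |z' - yp|) F yp` at the
reachable ends only (`LP95`), `sg ≤ c₃`: neither the far part nor `W₂`. **`vlow95`** : the lower bound of `G` at the end cell from one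
kernel bound to `yp`.
-/

set_option autoImplicit false

namespace Pool.Agent.W_7d29a1_C1.S83

open Finset
open Pool.Agent.W_7d29a1_C1.FarK89 (gr gr_nonneg gr_one_le gr_mono AQ AQ_nonneg)
open Pool.Agent.W_7d29a1_C1.D31

noncomputable section

/-- **`Φ` from one-sided local regularity.** `kap` = envelope `c0 → c3`, `K5` = `c3 → r`, `F` = future at the row `r`; `D` = distance of the
cells from the standard point `yp`, in units `w`. -/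
theorem phi95 {P : ℕ} {c c₁ c₂ c₃ E w q₂ q₃ s₂ s₃ Q' S' Λ D q1 sg : ℝ} {ℓ₁ ℓ₂ ℓ₃ : ℤ → ℝ} {kap K5 : ℤ → ℤ → ℝ}
    {J U Z C : Finset ℤ} {G F : ℤ → ℝ} {yp : ℤ} {m1 m5 : ℤ} (hE : 0 < E) (hw : 0 < w) (hc₂ : 0 ≤ c₂)
    (h2 : En31 P c c₂ E w q₂ s₂ ℓ₁ ℓ₂ kap J U) (h3 : En31 P c c₂ E w q₃ s₃ ℓ₂ ℓ₃ K5 U Z) (hc₁ : 0 < c₁) (hc₃ : 0 ≤ c₃)
    (hcc : c₁ + c₂ + c₃ ≤ c) (hQ' : q₂ + q₃ ≤ Q') (hS' : s₂ + s₃ ≤ S')
    (kz : ∀ x z, ¬ (x ≤ z ∧ z ≤ x + m1) → kap x z = 0) (k5z : ∀ z z', ¬ (z ≤ z' ∧ z' ≤ z + m5) → K5 z z' = 0)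
    (hG : ∀ z ∈ U, G z = ∑ z' ∈ Z, K5 z z' * F z') (F0 : ∀ z, 0 ≤ F z) (hCJ : C ⊆ J)
    (hC : ∀ x ∈ C, |ℓ₁ x| ≤ Λ * w) (hD : ∀ x ∈ C, |ℓ₁ x - ℓ₃ yp| ≤ D * w) (sg0 : 0 ≤ sg) (hsg : sg ≤ c₃)
    (LP : ∀ x ∈ C, ∀ z' ∈ Z, x ≤ z' → z' ≤ x + m1 + m5 →
      F z' ≤ Real.exp (q1 * E + sg * (E / w) * |ℓ₃ z' - ℓ₃ yp|) * F yp) :
    ∀ x ∈ C, ∑ z ∈ U, kap x z * G z ≤ Z.card * Real.exp ((Q' * gr P (AQ P c₁ Q' + Λ) + S' + q1 + sg * D) * E) * F yp := by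
  classical
  have hq2 := h2.q0
  have hq3 := h3.q0
  have hs2 := h2.s0
  have hs3 := h3.s0
  have hEw : 0 ≤ E / w := (div_pos hE hw).le
  -- the envelope of the two kernels, from every place
  have env : ∀ x ∈ J, ∀ z' ∈ Z, ∑ z ∈ U, kap x z * K5 z z' ≤ kapo31 P c₁ c₃ Q' S' E w ℓ₁ ℓ₃ x z' := by
    intro x hx z' hz'
    have h1 : En31 P c c₂ E w 0 0 ℓ₁ ℓ₁ (fun a b => if a = b then 1 else 0) {x} {x} := by
      refine ⟨le_rfl, le_rfl, fun a b => by split_ifs <;> norm_num, fun a ha b hb => ?_, fun a => ?_⟩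
      · rw [mem_singleton] at ha hb
        rw [ha, hb]
        simp
      · rw [sum_singleton, zero_mul, Real.exp_zero]
        rw [Real.exp_le_one_iff]
        have : 0 ≤ c₂ * (E / w) * |ℓ₁ x - ℓ₁ a| := by positivity
        linarith
    have hm := comp31 hE hw hc₂ h1 (h2.mono (singleton_subset_iff.2 hx) (subset_refl _)) h3 hc₁ hc₃ hcc
      (Q := Q') (S := S') (by linarith) (by linarith) (subset_refl _) x (mem_singleton_self x) z' hz'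
    rw [sum_singleton, if_pos rfl, one_mul] at hm
    exact hm
  -- it vanishes off the reachable pairs
  have van : ∀ x z', ¬ (x ≤ z' ∧ z' ≤ x + m1 + m5) → ∑ z ∈ U, kap x z * K5 z z' = 0 := by
    intro x z' hn
    refine sum_eq_zero fun z _ => ?_
    by_cases h4 : x ≤ z ∧ z ≤ x + m1
    · rw [k5z z z' (fun h5 => hn ⟨by omega, by omega⟩), mul_zero]
    · rw [kz x z h4, zero_mul]
  intro x hx
  have hFy := F0 yp
  have e1 : ∑ z ∈ U, kap x z * G z = ∑ z' ∈ Z, (∑ z ∈ U, kap x z * K5 z z') * F z' := by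
    calc ∑ z ∈ U, kap x z * G z = ∑ z ∈ U, ∑ z' ∈ Z, kap x z * K5 z z' * F z' := by
          refine sum_congr rfl fun z hz => ?_
          rw [hG z hz, mul_sum]
          exact sum_congr rfl fun z' _ => by ring
      _ = ∑ z' ∈ Z, ∑ z ∈ U, kap x z * K5 z z' * F z' := sum_comm
      _ = _ := sum_congr rfl fun z' _ => by rw [sum_mul]
  rw [e1]
  have h4 : ∀ z' ∈ Z, (∑ z ∈ U, kap x z * K5 z z') * F z' ≤
      Real.exp ((Q' * gr P (AQ P c₁ Q' + Λ) + S' + q1 + sg * D) * E) * F yp := by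
    intro z' hz'
    by_cases hr : x ≤ z' ∧ z' ≤ x + m1 + m5
    · have h5 := env x (hCJ hx) z' hz'
      have h6 := LP x hx z' hz' hr.1 hr.2
      have h7 : (∑ z ∈ U, kap x z * K5 z z') * F z' ≤ kapo31 P c₁ c₃ Q' S' E w ℓ₁ ℓ₃ x z' *
          (Real.exp (q1 * E + sg * (E / w) * |ℓ₃ z' - ℓ₃ yp|) * F yp) :=
        mul_le_mul h5 h6 (F0 z') (kapo31_pos P c₁ c₃ Q' S' E w ℓ₁ ℓ₃ x z').le
      refine h7.trans ?_
      rw [← mul_assoc]
      refine mul_le_mul_of_nonneg_right ?_ hFy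
      unfold kapo31
      rw [← Real.exp_add]
      refine Real.exp_le_exp.2 ?_
      have g1 : gr P (AQ P c₁ Q' + |ℓ₁ x| / w) ≤ gr P (AQ P c₁ Q' + Λ) := by
        refine gr_mono P (add_nonneg (AQ_nonneg P c₁ Q') (by positivity)) (add_le_add le_rfl ?_)
        rw [div_le_iff₀ hw]
        exact hC x hx
      have g2 := mul_le_mul_of_nonneg_right (mul_le_mul_of_nonneg_left g1 (show 0 ≤ Q' by linarith)) hE.le
      have g3 : |ℓ₃ z' - ℓ₃ yp| ≤ |ℓ₃ z' - ℓ₁ x| + D * w := by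
        have g4 := abs_add_le (ℓ₃ z' - ℓ₁ x) (ℓ₁ x - ℓ₃ yp)
        have e : ℓ₃ z' - ℓ₁ x + (ℓ₁ x - ℓ₃ yp) = ℓ₃ z' - ℓ₃ yp := by ring
        rw [e] at g4
        linarith [hD x hx]
      have g5 := mul_le_mul_of_nonneg_left g3 (mul_nonneg sg0 hEw)
      have g6 : sg * (E / w) * (|ℓ₃ z' - ℓ₁ x| + D * w) = sg * (E / w) * |ℓ₃ z' - ℓ₁ x| + sg * D * E := by
        field_simp
      rw [g6] at g5
      have g7 := mul_le_mul_of_nonneg_right (mul_le_mul_of_nonneg_right hsg hEw) (abs_nonneg (ℓ₃ z' - ℓ₁ x))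
      linarith
    · rw [van x z' hr, zero_mul]
      positivity
  calc ∑ z' ∈ Z, (∑ z ∈ U, kap x z * K5 z z') * F z' ≤
        ∑ _z' ∈ Z, Real.exp ((Q' * gr P (AQ P c₁ Q' + Λ) + S' + q1 + sg * D) * E) * F yp := sum_le_sum h4
    _ = _ := by rw [sum_const, nsmul_eq_mul, mul_assoc]

/-- **`V` from one kernel bound.** -/
theorem vlow95 {U Z δ' : Finset ℤ} {K5 : ℤ → ℤ → ℝ} {G F : ℤ → ℝ} {yp : ℤ} {v : ℝ} (hδ : δ' ⊆ U) (hyp : yp ∈ Z)
    (k50 : ∀ z z', 0 ≤ K5 z z') (F0 : ∀ z, 0 ≤ F z) (hG : ∀ z ∈ U, G z = ∑ z' ∈ Z, K5 z z' * F z')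
    (hk : ∀ z ∈ δ', Real.exp (-v) ≤ K5 z yp) : ∀ z ∈ δ', F yp ≤ Real.exp v * G z := by
  intro z hz
  have h1 : Real.exp (-v) * F yp ≤ G z := by
    rw [hG z (hδ hz)]
    exact (mul_le_mul_of_nonneg_right (hk z hz) (F0 yp)).trans
      (single_le_sum (f := fun z' => K5 z z' * F z') (fun z' _ => mul_nonneg (k50 z z') (F0 z')) hyp)
  have h2 := mul_le_mul_of_nonneg_left h1 (Real.exp_pos v).le
  rw [← mul_assoc, ← Real.exp_add, add_neg_cancel, Real.exp_zero, one_mul] at h2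
  exact h2

end

end Pool.Agent.W_7d29a1_C1.S83
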