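import Pool.Agent.W_7d29a1_C1.SepC2

/-!
MP_7d29a1_pr, [C1] attractor route, SEP: THE RATES OF THE EXCLUSIONS IN THE QUANTIFIER `EvC` (helper53)

* `Rl53` : the eight number lines of `Rt19.Ok` (WrW19);
* `rl53_of` : from explicit thresholds;
* `Lc i f` : `f` reads the stages before `i`;
* **`rtC53`** : for ANY rates of the stages before `LB` (resp. `uB` before `LA`, `uA` before `R1`), `z` growing with `R1`, `fw` with `gf`:
  the eight lines in `EvC`.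
-/

set_option autoImplicit false

namespace Pool.Agent.W_7d29a1_C1.SD53

open Filter
open Pool.Agent.W_7d29a1_C1.Cs2

/-- **THE EIGHT LINES.** -/
structure Rl53 (xA uA yA xB uB yB q1 rM d3 q0 r z X0 fw : ℝ) : Prop where
  yuB : yB ≤ uB
  yuA : yA ≤ uA
  xy : yA + 1 ≤ xA
  fw0 : 0 ≤ fw + 1
  c1 : uB + rM + yA + 1 + d3 + r + X0 / 4 + 1 ≤ xA + xB - q1 - 1 - d3 - q0
  c2 : X0 / 4 ≤ xB - q1 - yB - rM - 2 * d3
  c3 : uB + rM + uA + 1 + d3 + r + 1 - fw + X0 / 4 + 2 ≤ xA + xB - q1 - 1 - d3 - q0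
  c4 : max (uB + rM + uA + 1 + d3 - z) (uB + rM + yA + 1 + d3 + r) + 1 + X0 / 4 + 2 ≤ xA + xB - q1 - 1 - d3 - q0

/-- **The lines from explicit thresholds.** -/
theorem rl53_of {LA LB QA QB uA yA uB yB q1 rM d3 q0 r z X0 fw : ℝ} (hB : yB ≤ uB) (hA : yA ≤ uA) (hf0 : 0 ≤ fw + 1)
    (hLB : QB + q1 + yB + rM + 2 * d3 + X0 / 4 ≤ LB) (hLA : QA + yA + 1 ≤ LA)
    (hLA' : QA - (LB - QB) + q1 + 1 + d3 + q0 + (uB + rM + yA + 1 + d3 + r + 1 + X0 / 4 + 2) ≤ LA)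
    (hz : uB + rM + uA + 1 + d3 + 1 + X0 / 4 + 2 - (LA - QA + (LB - QB) - q1 - 1 - d3 - q0) ≤ z)
    (hf : uB + rM + uA + 1 + d3 + r + 1 + X0 / 4 + 2 - (LA - QA + (LB - QB) - q1 - 1 - d3 - q0) ≤ fw) :
    Rl53 (LA - QA) uA yA (LB - QB) uB yB q1 rM d3 q0 r z X0 fw := by
  refine ⟨hB, hA, by linarith, hf0, by linarith, by linarith, by linarith, ?_⟩
  rw [← max_add_add_right, ← max_add_add_right, ← max_add_add_right]
  exact max_le (by linarith) (by linarith)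

/-- `f` reads the stages before `i` (a user gives `fun _ => rfl`). -/
def Lc (i : Ix) (f : Cst → ℝ) : Prop := ∀ C : Cst, f (C.cut i) = f C

/-- **THE RATES IN `EvC`.** `Q` = profile constant `+ c/4` (so `xA = LA - Q`, `xB = LB - Q`), `y = yA = yB`. -/
theorem rtC53 (S : Is → Cst → Prop) {X0 Q y q1 rM d3 q0 r uB uA z : Cst → ℝ} (lX : Lc .LB X0) (lQ : Lc .LB Q) (ly : Lc .LB y) (lq1 : Lc .LB q1)
    (lrM : Lc .LB rM) (ld3 : Lc .LB d3) (lq0 : Lc .LB q0) (lr : Lc .LB r) (luB : Lc .LA uB) (luA : Lc .R1 uA)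
    (hB : EvC S fun C => y C ≤ uB C) (hA : EvC S fun C => y C ≤ uA C)
    (hz : ∀ Z : Cst → ℝ, EvC S fun C => Z (C.cut .R1) ≤ z C) :
    EvC S fun C => Rl53 (C.LA - Q C) (uA C) (y C) (C.LB - Q C) (uB C) (y C) (q1 C) (rM C) (d3 C) (q0 C) (r C) (z C) (X0 C) (C.gf - 2) := by
  have up : ∀ {f : Cst → ℝ}, Lc .LB f → ∀ C : Cst, f (C.cut .LA) = f C ∧ f (C.cut .R1) = f C ∧ f (C.cut .gf) = f C := by
    intro f hf C
    refine ⟨?_, ?_, ?_⟩
    · rw [← hf (C.cut .LA), ← hf C]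
      rfl
    · rw [← hf (C.cut .R1), ← hf C]
      rfl
    · rw [← hf (C.cut .gf), ← hf C]
      rfl
  have uuB : ∀ C : Cst, uB (C.cut .R1) = uB C ∧ uB (C.cut .gf) = uB C := by
    intro C
    refine ⟨?_, ?_⟩
    · rw [← luB (C.cut .R1), ← luB C]
      rfl
    · rw [← luB (C.cut .gf), ← luB C]
      rfl
  have uuA : ∀ C : Cst, uA (C.cut .gf) = uA C := by
    intro C
    rw [← luA (C.cut .gf), ← luA C]
    rfl
  filter_upwards [hB, hA,
    FC.LB_ge S fun p => Q p + q1 p + y p + rM p + 2 * d3 p + X0 p / 4,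
    FC.LA_ge S fun p => max (Q p + y p + 1)
      (Q p - (p.LB - Q p) + q1 p + 1 + d3 p + q0 p + (uB p + rM p + y p + 1 + d3 p + r p + 1 + X0 p / 4 + 2)),
    hz fun p => uB p + rM p + uA p + 1 + d3 p + 1 + X0 p / 4 + 2 - (p.LA - Q p + (p.LB - Q p) - q1 p - 1 - d3 p - q0 p),
    FC.gf_ge S fun p => max 1 (2 + (uB p + rM p + uA p + 1 + d3 p + r p + 1 + X0 p / 4 + 2 -
      (p.LA - Q p + (p.LB - Q p) - q1 p - 1 - d3 p - q0 p)))]
    with C hB hA hLB hLA hz hgf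
  have a1 := up lQ C
  have a2 := up ly C
  have a3 := up lq1 C
  have a4 := up lrM C
  have a5 := up ld3 C
  have a6 := up lq0 C
  have a7 := up lr C
  have a8 := up lX C
  rw [lQ, lq1, ly, lrM, ld3, lX] at hLB
  rw [a1.1, a2.1, a3.1, a4.1, a5.1, a6.1, a7.1, a8.1, luB] at hLA
  rw [a1.2.1, a3.2.1, a4.2.1, a5.2.1, a6.2.1, a8.2.1, (uuB C).1, luA] at hz
  rw [a1.2.2, a3.2.2, a4.2.2, a5.2.2, a6.2.2, a7.2.2, a8.2.2, (uuB C).2, uuA] at hgf
  have hg1 : (1 : ℝ) ≤ C.gf := (le_max_left _ _).trans hgf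
  have hg2 := (le_max_right _ _).trans hgf
  have hz' : uB C + rM C + uA C + 1 + d3 C + 1 + X0 C / 4 + 2 - (C.LA - Q C + (C.LB - Q C) - q1 C - 1 - d3 C - q0 C) ≤ z C := hz
  have hg' : 2 + (uB C + rM C + uA C + 1 + d3 C + r C + 1 + X0 C / 4 + 2 -
      (C.LA - Q C + (C.LB - Q C) - q1 C - 1 - d3 C - q0 C)) ≤ C.gf := hg2
  have hLA1 : Q C + y C + 1 ≤ C.LA := (le_max_left _ _).trans hLA
  have hLA2 : Q C - (C.LB - Q C) + q1 C + 1 + d3 C + q0 C + (uB C + rM C + y C + 1 + d3 C + r C + 1 + X0 C / 4 + 2) ≤ C.LA :=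
    (le_max_right _ _).trans hLA
  exact rl53_of hB hA (by linarith) hLB hLA1 hLA2 hz' (by linarith)

/-- **The far part of the gate slab**: `z` of `Num37` at `R1` is beyond every earlier number. -/
theorem zC53 (S : Is → Cst → Prop) {c Km : ℝ} (hc : 0 < c) (Z : Cst → ℝ) :
    EvC S fun C => Z (C.cut .R1) ≤ 3 * c / 8 * (C.R1 - 1) - (C.sgm * C.R1 + 1 + 2 * C.V1 + c / 2 * Km + c + 2) := by
  filter_upwards [FC.sgm_le S (fun _ => c / 80) fun _ => by positivity,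
    FC.R1_ge S fun p => max 0 (4 / c * (3 * c / 8 + 1 + 2 * p.V1 + c / 2 * Km + c + 2 + Z p))] with C hsg hR1
  have hR0 : (0 : ℝ) ≤ C.R1 := (le_max_left _ _).trans hR1
  have h1 : 4 / c * (3 * c / 8 + 1 + 2 * C.V1 + c / 2 * Km + c + 2 + Z (C.cut .R1)) ≤ C.R1 := (le_max_right _ _).trans hR1
  have h3 := mul_le_mul_of_nonneg_left h1 (show (0 : ℝ) ≤ c / 4 by positivity)
  have h4 : ∀ x : ℝ, c / 4 * (4 / c * x) = x := fun x => by field_simp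
  rw [h4] at h3
  have h5 : C.sgm * C.R1 ≤ c / 80 * C.R1 := mul_le_mul_of_nonneg_right hsg.2 hR0
  have h6 : c / 80 * C.R1 ≤ c / 8 * C.R1 := mul_le_mul_of_nonneg_right (by linarith) hR0
  have h7 : 3 * c / 8 * (C.R1 - 1) = c / 4 * C.R1 + c / 8 * C.R1 - 3 * c / 8 := by ring
  rw [h7]
  linarith

end Pool.Agent.W_7d29a1_C1.SD53
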