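import Pool.Agent.W_7d29a1_C1.PiU66
import Pool.Agent.W_7d29a1_C1.NnC69
import Pool.Agent.W_7d29a1_C1.NmE15
import Pool.Agent.W_7d29a1_C1.GsN37
import Pool.Agent.W_7d29a1_C1.RtC53

/-!
MP_7d29a1_pr, [C1] attractor route, SEP: **THE PIECES OF THE EXCLUSIONS AND THEIR RATES OVER THE FILTER OF THE CONSTANTS.** (helper19; over
helper66's `pi66`, helper69's `nnC69`, `nt69`, helper15's `okD2`, helper37's `num37E`, helper53's `rtC53`, `zC53`, helper40's `evPf40`)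

`R19` : the rates at the record. **`piC19`** : eventually `(R19 K).Ok`, `fw + 1 ≤ gf - 1 / 16`, and `PI19` for all data. **`piD19`** : the field
`pi` of the root.
-/

set_option autoImplicit false

namespace Pool.Agent.W_7d29a1_C1.PiC19

open Filter MeasureTheory
open Pool.Agent.W_7d29a1_F hiding Bw G
open Pool.Agent.W_7d29a1_h4g Pool.Agent.W_7d29a1_H Pool.Agent.W_7d29a1_HS
open Pool.Agent.W_7d29a1_C1.N49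
open Pool.Agent.W_7d29a1_C1.Q49
open Pool.Agent.W_7d29a1_C1.Cs2
open Pool.Agent.W_7d29a1_C1.Nm15
open Pool.Agent.W_7d29a1_C1.SD53 (Rl53 rtC53 zC53)
open Pool.Agent.W_7d29a1_C1.WrW19 (Rt19 PI19)
open Pool.Agent.W_7d29a1_C1.PiS66 (rt66 pi66)
open Pool.Agent.W_7d29a1_C1.Gs37 (Num37 num37E U37 d37 q37)
open Pool.Agent.W_7d29a1_C1.Luc30 (gx30 mx30 yx30)

noncomputable section

variable {μ : Measure ℝ} {s c C ε : ℝ} {n₀ : ℕ}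

/-- The far part of the gate slab. -/
def zf19 (c : ℝ) (K : Cst) : ℝ := 3 * c / 8 * (K.R1 - 1) - (K.sgm * K.R1 + 1 + 2 * K.V1 + c / 2 * 2 + c + 2)

/-- **THE RATES AT THE RECORD.** -/
def R19 (μ : Measure ℝ) (s c C : ℝ) (Ck : ℝ → ℝ) (K₁ : ℝ → ℝ → ℝ → ℝ → ℝ → ℝ → ℝ) (K : Cst) : Rt19 :=
  rt66 c C (4 * K.jl) (K₁ K.kw K.V1 K.Re K.Qe K.Uw K.sgm + 5 * K.sgm * (K.R2 - 1)) (q37 c K) (d37 c |lam μ s| Ck K) (zf19 c K)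
    (K.gf - 2) (4 * K.jl * (K.sgm * K.r0 + 1)) K.qt K.KM K.l

/-- `yx30 ≤ gx30`. -/
theorem yg19 (hc : 0 ≤ c) (hC : 0 ≤ C) {U0 q Kh Kp U1 : ℝ} (hK : 0 ≤ Kh) (hU : 0 ≤ U1) : yx30 c U0 q Kh Kp ≤ gx30 c C U0 q Kh Kp U1 := by
  have h1 : gx30 c C U0 q Kh Kp U1 = C + 2 + U1 + c * Kh + yx30 c U0 q Kh Kp := rfl
  have h2 := mul_nonneg hc hK
  linarith

/-- **THE LINES OF THE RATES.** -/
theorem rO19 (hI : In μ s c C n₀) (Ck : ℝ → ℝ) (K₁ : ℝ → ℝ → ℝ → ℝ → ℝ → ℝ → ℝ) :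
    EvC (S0 μ s c C ε) fun K => (R19 μ s c C Ck K₁ K).Ok ∧ (R19 μ s c C Ck K₁ K).fw + 1 ≤ K.gf - 1 / 16 := by
  have hc := hI.c0
  have hC : 0 ≤ C := zero_le_one.trans hI.C1
  have hB : EvC (S0 μ s c C ε) fun K => yx30 c K.U0 K.qt K.Kl K.Kp ≤ gx30 c C K.U0 K.qt K.Kl K.Kp K.UB := by
    filter_upwards [sg2 (μ := μ) (s := s) (c := c) (Cc := C) (ε := ε), nt69 (μ := μ) (s := s) (c := c) (Cc := C) (ε := ε) hc] with K h1 h2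
    exact yg19 hc.le hC h2.Kl0 h1.UB.le
  have hA : EvC (S0 μ s c C ε) fun K => yx30 c K.U0 K.qt K.Kl K.Kp ≤ gx30 c C K.U0 K.qt K.Kl K.Kp K.UA := by
    filter_upwards [sg2 (μ := μ) (s := s) (c := c) (Cc := C) (ε := ε), nt69 (μ := μ) (s := s) (c := c) (Cc := C) (ε := ε) hc] with K h1 h2
    exact yg19 hc.le hC h2.Kl0 h1.UA.le
  refine (rtC53 (S0 μ s c C ε) (X0 := fun K => 4 * K.jl) (Q := fun K => 4 * K.jl * (K.sgm * K.r0 + 1) + c / 4)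
    (y := fun K => yx30 c K.U0 K.qt K.Kl K.Kp) (q1 := fun K => K.qM + 4 * K.jl * (K.sgm * K.r0 + 1) + c)
    (rM := fun K => mx30 c K.UM K.qt K.Kl K.KM)
    (d3 := fun K => 4 * K.jl * (K₁ K.kw K.V1 K.Re K.Qe K.Uw K.sgm + 5 * K.sgm * (K.R2 - 1))) (q0 := fun K => 4 * K.jl * q37 c K)
    (r := fun K => 4 * K.jl * d37 c |lam μ s| Ck K) (uB := fun K => gx30 c C K.U0 K.qt K.Kl K.Kp K.UB)
    (uA := fun K => gx30 c C K.U0 K.qt K.Kl K.Kp K.UA) (z := zf19 c) (fun _ => rfl) (fun _ => rfl) (fun _ => rfl) (fun _ => rfl)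
    (fun _ => rfl) (fun _ => rfl) (fun _ => rfl) (fun _ => rfl) (fun _ => rfl) (fun _ => rfl) hB hA
    fun Z => zC53 (S0 μ s c C ε) (Km := 2) hc Z).mono fun K h => ?_
  refine ⟨⟨h.yuB, h.yuA, h.xy, h.fw0, h.c1, h.c2, h.c3, h.c4⟩, ?_⟩
  show K.gf - 2 + 1 ≤ K.gf - 1 / 16
  linarith

/-- **THE PIECES AND THE RATES, EVENTUALLY.** -/
theorem piC19 [IsProbabilityMeasure μ] (hI : In μ s c C n₀) (hE9 : ∀ᶠ n : ℕ in Filter.atTop, (n : ℝ) ^ (1 / 9 : ℝ) ≤ EE μ s n) :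
    ∃ (Ck : ℝ → ℝ) (K₁ : ℝ → ℝ → ℝ → ℝ → ℝ → ℝ → ℝ), ∀ ε : ℝ,
      (EvC (S0 μ s c C ε) fun K => (R19 μ s c C Ck K₁ K).Ok ∧ (R19 μ s c C Ck K₁ K).fw + 1 ≤ K.gf - 1 / 16) ∧
      EvC (S0 μ s c C ε) fun K => ∀ D : Dat,
        Evn K.P D μ s (PI19 (Fam98o μ s c K.P (K.Nm μ s c ε) K.cf) (R19 μ s c C Ck K₁ K) K.P.bS K.R1) := by
  obtain ⟨Ck, K₁, b₀, Qv, -, -, hb₀, -, H⟩ := pi66 hI hE9
  have hc := hI.c0
  refine ⟨Ck, K₁, fun ε => ⟨rO19 hI Ck K₁, ?_⟩⟩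
  filter_upwards [evPf40 (S0 μ s c C ε), sg2 (μ := μ) (s := s) (c := c) (Cc := C) (ε := ε),
    nt69 (μ := μ) (s := s) (c := c) (Cc := C) (ε := ε) hc, nnC69 (μ := μ) (s := s) (c := c) (Cc := C) (ε := ε) hc,
    num37E (S0 μ s c C ε) (Λ := |lam μ s|) (Ck := Ck) hc (fun _ => 2) (fun _ => 0) (fun _ => rfl) (fun _ => rfl)
      (sg2.mono fun K h => h.Qg),
    zC53 (S0 μ s c C ε) (Km := 2) hc fun _ => 0, okD2 (μ := μ) (s := s) (c := c) (Cc := C) (ε := ε),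
    FC.V1_ge (S0 μ s c C ε) fun _ => 0, FC.Re_ge (S0 μ s c C ε) fun _ => 0, FC.Qe_ge (S0 μ s c C ε) fun _ => 0,
    FC.Uw_ge (S0 μ s c C ε) fun _ => 0, FC.qF_ge (S0 μ s c C ε) fun _ => 0, FC.bS_ge (S0 μ s c C ε) fun _ => 0,
    FC.R2_ge (S0 μ s c C ε) fun K => b₀ K.kw K.V1 K.Re K.Qe K.Uw K.sgm + 1,
    FC.qt_ge (S0 μ s c C ε) fun K => Qv K.PF (1 / 8) 4 K.qF (K.sgm * K.r0) K.Kl K.jl]
    with K hPf hsg hnt hnn hnum hz hok h1 h2 h3 h4 h5 h6 h7 h8 D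
  obtain ⟨⟨e1, -, -⟩, ⟨-, e5, -⟩, -, -, -⟩ := hPf
  have h7' : b₀ K.kw K.V1 K.Re K.Qe K.Uw K.sgm + 1 ≤ K.R2 := h7
  have h8' : Qv K.PF (1 / 8) 4 K.qF (K.sgm * K.r0) K.Kl K.jl ≤ K.qt := h8
  have hb := hb₀ K.kw K.V1 K.Re K.Qe K.Uw K.sgm
  have hz' : 0 ≤ zf19 c K := hz
  have hq : 0 ≤ q37 c K := by
    have a1 := hsg.Qg
    have a2 := hnt.g0
    have a3 : 0 ≤ K.R2 := by linarith
    have a4 : (0 : ℝ) ≤ K.bS := h6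
    show 0 ≤ K.Qg + (K.sgm * K.R2 + 1) + c / 8 * (K.bS + 1)
    positivity
  have hN : Num37 c |lam μ s| K.kw (Ck K.kw) K.V1 K.Uw K.Re K.Qe K.Qg K.sgm K.bS 2 K.R2 (U37 c |lam μ s| K) (d37 c |lam μ s| Ck K)
      (q37 c K) K.R1 (K.R1 - 1) (zf19 c K) :=
    { hnum with
      z := by
        show K.sgm * K.R1 + 1 + 2 * K.V1 + c / 2 * 2 + c + 2 +
          (3 * c / 8 * (K.R1 - 1) - (K.sgm * K.R1 + 1 + 2 * K.V1 + c / 2 * 2 + c + 2)) ≤ 3 * c / 8 * (K.R1 - 1)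
        linarith }
  have G := H (P := K.P) (D := D) (g := K.g ε) (l := K.l) (F := K.cf) (qt := K.qt) (KM := K.KM) (U₁ := U37 c |lam μ s| K)
    (d₁ := d37 c |lam μ s| Ck K) (q₀ := q37 c K) (z := zf19 c K) (fw := K.gf - 2) h1 h2 h3 h4 hnt.g0.le hnt.g80 rfl
    (le_refl (4 : ℝ)) (by show (0 : ℝ) < 1 / 8; norm_num) (le_refl (1 / 8 : ℝ)) h5 hnt.r1 (by rw [e1, e5]; exact hnn)
    (by rw [e1, e5]; exact hN) hq hz' (by rw [e1]; exact h7') h8' (hok D)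
  rw [e1] at G
  exact G

/-- **THE FIELD `pi` OF THE ROOT.** -/
theorem piD19 [IsProbabilityMeasure μ] (hI : In μ s c C n₀) (hE9 : ∀ᶠ n : ℕ in Filter.atTop, (n : ℝ) ^ (1 / 9 : ℝ) ≤ EE μ s n) :
    ∀ (D : Dat) (ε : ℝ), 0 < ε → ∃ R : Cst → Rt19, (EvC (S0 μ s c C ε) fun K => (R K).Ok ∧ (R K).fw + 1 ≤ K.gf - 1 / 16) ∧
      EvC (S0 μ s c C ε) fun K => Evn K.P D μ s (PI19 (Fam98o μ s c K.P (K.Nm μ s c ε) K.cf) (R K) K.P.bS K.R1) := by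
  obtain ⟨Ck, K₁, H⟩ := piC19 hI hE9
  intro D ε _
  exact ⟨R19 μ s c C Ck K₁, (H ε).1, (H ε).2.mono fun K h => h D⟩

end

end Pool.Agent.W_7d29a1_C1.PiC19
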