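import Pool.Agent.W_7d29a1_C1.PiU66
import Pool.Agent.W_7d29a1_C1.NnC69
import Pool.Agent.W_7d29a1_C1.RtC53
import Pool.Agent.W_7d29a1_C1.GsN37
import Pool.Agent.W_7d29a1_C1.NmE15

/-!
Both halves (MP_7d29a1_pr), attractor route [C1], SEP: THE LEAF `PI19` OVER THE FILTER OF THE CONSTANTS (helper86, shadow of helper19's PiC19)

`rt86` : the rates at the record; **`piC86`** : `Rt19.Ok` and `PI19`, eventually (= the body of helper40's `PiY40`).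
-/

set_option autoImplicit false

namespace Pool.Agent.W_7d29a1_C1.PiC86

open MeasureTheory Filter
open Pool.Agent.W_7d29a1_F hiding Bw G
open Pool.Agent.W_7d29a1_h4g Pool.Agent.W_7d29a1_H Pool.Agent.W_7d29a1_HS
open Pool.Agent.W_7d29a1_C1
open Pool.Agent.W_7d29a1_C1.N49
open Pool.Agent.W_7d29a1_C1.Q49
open Pool.Agent.W_7d29a1_C1.D98
open Pool.Agent.W_7d29a1_C1.SD53
open Pool.Agent.W_7d29a1_C1.Nm15
open Pool.Agent.W_7d29a1_C1.Cs2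
open Pool.Agent.W_7d29a1_C1.PiS66
open Pool.Agent.W_7d29a1_C1.Luc30 (gx30 mx30 yx30)
open Pool.Agent.W_7d29a1_C1.WrW19 (PI19 Rt19)
open Pool.Agent.W_7d29a1_C1.Gs37 (Num37 U37 d37 q37 num37E)

noncomputable section

variable {μ : Measure ℝ} {s c Cc : ℝ} {n₀ : ℕ}

/-- The far part of the gate slab. -/
def z86 (c : ℝ) (C : Cst) : ℝ := 3 * c / 8 * (C.R1 - 1) - (C.sgm * C.R1 + 1 + 2 * C.V1 + c / 2 * 2 + c + 2)

/-- **THE RATES AT THE RECORD.** -/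
def rt86 (c Cc Λ : ℝ) (Ck : ℝ → ℝ) (K₁ : ℝ → ℝ → ℝ → ℝ → ℝ → ℝ → ℝ) (C : Cst) : Rt19 :=
  rt66 c Cc (4 * C.jl) (K₁ C.kw C.V1 C.Re C.Qe C.Uw C.sgm + 5 * C.sgm * (C.R2 - 1)) (q37 c C) (d37 c Λ Ck C) (z86 c C) (C.gf - 2)
    (4 * C.jl * (C.sgm * C.r0 + 1)) C.qt C.KM C.l

/-- **THE INEQUALITIES OF THE RATES.** -/
theorem rtOk86 (hc : 0 < c) (hCc : 0 ≤ Cc) {ε : ℝ} (Λ : ℝ) (Ck : ℝ → ℝ) (K₁ : ℝ → ℝ → ℝ → ℝ → ℝ → ℝ → ℝ) :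
    EvC (S0 μ s c Cc ε) fun C => (rt86 c Cc Λ Ck K₁ C).Ok ∧ (rt86 c Cc Λ Ck K₁ C).fw + 1 ≤ C.gf - 1 / 16 := by
  have hU : ∀ U : Cst → ℝ, EvC (S0 μ s c Cc ε) (fun C => 0 ≤ U C) → EvC (S0 μ s c Cc ε) fun C =>
      yx30 c C.U0 C.qt C.Kl C.Kp ≤ gx30 c Cc C.U0 C.qt C.Kl C.Kp (U C) := fun U h => by
    filter_upwards [h, nt69 (μ := μ) (s := s) (c := c) (Cc := Cc) (ε := ε) hc] with C h1 h2
    have h3 := mul_nonneg hc.le h2.Kl0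
    unfold gx30
    linarith
  have h := rtC53 (S0 μ s c Cc ε) (X0 := fun C => 4 * C.jl) (Q := fun C => 4 * C.jl * (C.sgm * C.r0 + 1) + c / 4)
    (y := fun C => yx30 c C.U0 C.qt C.Kl C.Kp) (q1 := fun C => C.qM + 4 * C.jl * (C.sgm * C.r0 + 1) + c)
    (rM := fun C => mx30 c C.UM C.qt C.Kl C.KM)
    (d3 := fun C => 4 * C.jl * (K₁ C.kw C.V1 C.Re C.Qe C.Uw C.sgm + 5 * C.sgm * (C.R2 - 1))) (q0 := fun C => 4 * C.jl * q37 c C)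
    (r := fun C => 4 * C.jl * d37 c Λ Ck C) (uB := fun C => gx30 c Cc C.U0 C.qt C.Kl C.Kp C.UB)
    (uA := fun C => gx30 c Cc C.U0 C.qt C.Kl C.Kp C.UA) (z := z86 c) (fun _ => rfl) (fun _ => rfl) (fun _ => rfl) (fun _ => rfl)
    (fun _ => rfl) (fun _ => rfl) (fun _ => rfl) (fun _ => rfl) (fun _ => rfl) (fun _ => rfl)
    (hU (fun C => C.UB) (sg2.mono fun C h => h.UB.le)) (hU (fun C => C.UA) (sg2.mono fun C h => h.UA.le)) fun Z => zC53 _ hc Z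
  filter_upwards [h] with C h
  refine ⟨⟨h.yuB, h.yuA, h.xy, h.fw0, h.c1, h.c2, h.c3, h.c4⟩, ?_⟩
  show C.gf - 2 + 1 ≤ C.gf - 1 / 16
  linarith

/-- **THE LEAF `PiY40` OF `LastQ2`** (its body, literally). -/
theorem piC86 [IsProbabilityMeasure μ] (h : In μ s c Cc n₀) (hE9 : ∀ᶠ n : ℕ in Filter.atTop, (n : ℝ) ^ (1 / 9 : ℝ) ≤ EE μ s n)
    {a Cg : ℝ} : ∃ K₀ : ℕ, ∀ D : Dat, K₀ ≤ D.K → D.κ = (D.K : ℝ) ^ a → D.Cg = Cg → ∀ ε : ℝ, 0 < ε → ∃ R : Cst → Rt19,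
      (EvC (S0 μ s c Cc ε) fun C => (R C).Ok ∧ (R C).fw + 1 ≤ C.gf - 1 / 16) ∧
      EvC (S0 μ s c Cc ε) fun C => Evn C.P D μ s (PI19 (C.famo μ s c ε) (R C) C.P.bS C.R1) := by
  obtain ⟨Ck, K₁, b₀, Qv, hCk, hK₁, hb₀, hQv, H⟩ := pi66 h hE9
  have hc := h.c0
  refine ⟨0, fun D _ _ _ ε hε => ⟨rt86 c Cc |lam μ s| Ck K₁, rtOk86 hc (zero_le_one.trans h.C1) _ _ _, ?_⟩⟩
  filter_upwards [evPf40 (S0 μ s c Cc ε), nt69 (μ := μ) (s := s) (c := c) (Cc := Cc) (ε := ε) hc,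
    nnC69 (μ := μ) (s := s) (c := c) (Cc := Cc) (ε := ε) hc, sg2 (μ := μ) (s := s) (c := c) (Cc := Cc) (ε := ε),
    num37E (S0 μ s c Cc ε) (Λ := |lam μ s|) (Ck := Ck) hc (fun _ => 2) (fun _ => 0) (fun _ => rfl) (fun _ => rfl)
      (sg2.mono fun C h => h.Qg), zC53 (S0 μ s c Cc ε) (Km := 2) hc fun _ => 0,
    okE2 (μ := μ) (s := s) (c := c) (Cc := Cc) (ε := ε) (D := D),
    FC.R2_ge (S0 μ s c Cc ε) fun p => b₀ p.kw p.V1 p.Re p.Qe p.Uw p.sgm + 1,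
    FC.qt_ge (S0 μ s c Cc ε) fun p => Qv p.PF (1 / 8) 4 p.qF (p.sgm * p.r0) p.Kl p.jl, FC.qF_ge (S0 μ s c Cc ε) fun _ => 0,
    FC.Qe_ge (S0 μ s c Cc ε) fun _ => 0]
    with C hPf hT hNn hS hNum hz hok hR2 hqt hqF hQe
  obtain ⟨⟨e1, e2, e3⟩, ⟨e4, e5, e6⟩, -⟩ := hPf
  have hN : Num37 c |lam μ s| C.P.kw (Ck C.P.kw) C.V1 C.Uw C.Re C.Qe C.Qg C.sgm C.P.bS 2 C.R2 (U37 c |lam μ s| C)
      (d37 c |lam μ s| Ck C) (q37 c C) C.R1 (C.R1 - 1) (z86 c C) := by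
    rw [e1, e5]
    exact { hNum with z := by unfold z86; linarith }
  have hNn' : Nn66 μ s c Cc C.P.kw C.P.bS C.r0 C.qt C.KM (C.g ε) C.l := by
    rw [e1, e5]
    exact hNn
  have hq : 0 ≤ q37 c C := by
    have h1 : 0 ≤ C.sgm * C.R2 := mul_nonneg hNum.sgm0 (by have := hNum.R2e; have := hNum.Re0; linarith)
    have h2 : 0 ≤ c / 8 * (C.bS + 1) := mul_nonneg (by linarith) (by have := hNum.bS0; linarith)
    have h3 := hNum.Qg0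
    unfold q37
    linarith
  have h0 := H (P := C.P) (D := D) (g := C.g ε) (l := C.l) (F := C.cf) (qt := C.qt) (KM := C.KM) (fw := C.gf - 2) hNum.V0 hNum.Re0
    hQe hNum.υ0 hT.g0.le hT.g80 rfl le_rfl (by show (0 : ℝ) < 1 / 8; norm_num) le_rfl hqF hT.r1 hNn' hN hq hz
    (by rw [e1]; exact hR2) hqt hok
  rw [e1] at h0
  exact h0

end

end Pool.Agent.W_7d29a1_C1.PiC86
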