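import Pool.Agent.W_7d29a1_C1.NumW32

/-!
MP_7d29a1_pr, [C1] attractor route, SEP: THE WINDOW OF THE EXCLUSIONS (`wn` of `XI53`) FROM ITS PIECES (helper53)

* `QA_next` : the mass through a set of sites of one row passes the next row at its successors;
* `st_a0`, `fw_a0` : what the sets `St`, `Fw` of a typical content say at the row `ra - 1` (the row of `Wn53`);
* **`Pc53`** : the pieces of one window, in exponents (lane block `Blk76`, top block `Tp73`, gate slab `Gs76`, cross ratio);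
* **`wnI53`** : `Pc53` for one pair (typical content, lucky content) and `St`, `Fw` give `Wn53` and `Ex32`.
-/

set_option autoImplicit false

namespace Pool.Agent.W_7d29a1_C1.SD53

open Finset MeasureTheory
open Pool.Agent.W_7d29a1_F
open Pool.Agent.W_7d29a1_C1.K91 (wt wt_pos)
open Pool.Agent.W_7d29a1_C1.U16 (ker)
open Pool.Agent.W_7d29a1_C1.H60
open Pool.Agent.W_7d29a1_C1.G37 (Gm)
open Pool.Agent.W_7d29a1_C1.E53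
open Pool.Agent.W_7d29a1_C1.Lb76
open Pool.Agent.W_7d29a1_C1.T73
open Pool.Agent.W_7d29a1_C1.NE32
open Pool.Agent.W_7d29a1_C1.NW32
open Pool.Agent.W_7d29a1_C1.Sy78 (Rg St sp)

noncomputable section

variable {Γ : Cx} {G : Gm} {ω ω' ω₂ ωA ωM ω₃ : Env} {a b β γ : ℝ} {u : ℕ} {κ : ℤ × ℤ}

/-- Through `A` at the row `e`, then through the successors at the row `e + 1`. -/
theorem QA_next {e : ℕ} (he : e < Γ.N) {A A' : Set ℤ} (hA : ∀ z ∈ A, z ∈ A' ∧ z + 1 ∈ A') :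
    ∀ k, k ≤ e → ∀ q, QA Γ ω e A k q ≤ QA Γ ω (e + 1) A' k q := by
  refine down (fun q => ?_) fun k hk ih q => ?_
  · rw [QA_self, QA_step A' (show e < e + 1 by omega)]
    by_cases h : q ∈ A
    · obtain ⟨h1, h2⟩ := hA q h
      rw [tf_mem h, QA_self, QA_self, tf_mem h1, tf_mem h2, bW_step he]
    · rw [tf_not h]
      exact mul_nonneg (wt_pos ω e q).le (add_nonneg (QA_nonneg _ _ _ _) (mul_nonneg (Γ.p_pos e).le (QA_nonneg _ _ _ _)))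
  · rw [QA_step A hk, QA_step A' (show k < e + 1 by omega)]
    exact mul_le_mul_of_nonneg_left (add_le_add (ih q) (mul_le_mul_of_nonneg_left (ih (q + 1)) (Γ.p_pos k).le)) (wt_pos ω k q).le

/-- **`St` at the row `ra - 1`.** -/
theorem st_a0 (h : ω ∈ St Γ G a b β u κ) (hN : G.ra u κ ≤ Γ.N) (h1 : 1 ≤ G.ra u κ) {Mi₀ : Set ℤ}
    (hM : ∀ z : ℤ, |G.lat (G.ra u κ - 1, z) - G.ctr u κ| ≤ b * G.w u → z ∈ Mi₀) {aX : ℝ} (haX : aX * G.w u ≤ a * G.w u) :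
    ∀ k q, (k, q) ∈ Zg G u κ aX → k ≤ G.ra u κ - 1 → QA Γ ω (G.ra u κ - 1) Mi₀ᶜ k q ≤ Real.exp (-β) * bW Γ ω k q := by
  intro k q hz hk
  refine St_QA h (by omega) (by omega) hk ⟨hz.1.1, hz.1.2.1, hz.1.2.2.trans haX⟩ fun z hz' => ?_
  exact fun h2 => hz' (hM z h2)

/-- **`Fw` at the row `ra - 1`.** -/
theorem fw_a0 (hv0 : 0 ≤ G.v) (hv1 : G.v ≤ 1) (hab : b < a) (h : ω ∈ Fw Γ G a b γ u κ) (hN : G.ra u κ ≤ Γ.N) (h1 : 1 ≤ G.ra u κ)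
    {Mo₀ : Set ℤ} (hM : ∀ z ∈ Mo₀, |G.lat (G.ra u κ - 1, z) - G.ctr u κ| ≤ b * G.w u - 1) {R : ℝ}
    (hR : ((G.ra u κ : ℤ) - G.lo u κ : ℝ) ≤ R) :
    ∀ k q, (k, q) ∈ Fz G u κ a → k ≤ G.ra u κ - 1 → QA Γ ω (G.ra u κ - 1) Mo₀ k q ≤ R * Real.exp (-γ) * bW Γ ω k q := by
  intro k q hz hk
  have key : ∀ z ∈ Mo₀, z ∈ {z : ℤ | (G.ra u κ, z) ∈ sp G u κ b} ∧ z + 1 ∈ {z : ℤ | (G.ra u κ, z) ∈ sp G u κ b} := by
    intro z hz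
    have h2 := hM z hz
    have e1 : G.lat (G.ra u κ - 1, z) = (z : ℝ) - G.v * ((G.ra u κ - 1 : ℕ) : ℝ) := rfl
    have e2 : ((G.ra u κ - 1 : ℕ) : ℝ) = (G.ra u κ : ℝ) - 1 := by
      rw [Nat.cast_sub h1, Nat.cast_one]
    rw [e1, e2, abs_le] at h2
    constructor
    · show |G.lat (G.ra u κ, z) - G.ctr u κ| ≤ b * G.w u
      have e3 : G.lat (G.ra u κ, z) = (z : ℝ) - G.v * (G.ra u κ : ℝ) := rfl
      rw [e3, abs_le]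
      constructor <;> linarith [h2.1, h2.2]
    · show |G.lat (G.ra u κ, z + 1) - G.ctr u κ| ≤ b * G.w u
      have e3 : G.lat (G.ra u κ, z + 1) = ((z + 1 : ℤ) : ℝ) - G.v * (G.ra u κ : ℝ) := rfl
      rw [e3, abs_le]
      push_cast
      constructor <;> linarith [h2.1, h2.2]
  have h2 := QA_next (Γ := Γ) (ω := ω) (e := G.ra u κ - 1) (by omega) key k hk q
  rw [Nat.sub_add_cancel h1] at h2
  have h3 := Fw_QA hab h hN hz (by omega) (Mo := {z : ℤ | (G.ra u κ, z) ∈ sp G u κ b}) fun z hz => hz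
  refine h2.trans (h3.trans ?_)
  have h4 : ((G.ra u κ - k : ℕ) : ℝ) ≤ R := by
    have h5 : G.lo u κ ≤ (k : ℤ) := hz.1
    have h6 : ((G.ra u κ - k : ℕ) : ℝ) = (G.ra u κ : ℝ) - k := Nat.cast_sub (by omega)
    have h7 : (G.lo u κ : ℝ) ≤ (k : ℝ) := by exact_mod_cast h5
    rw [h6]
    push_cast at hR
    linarith
  exact mul_le_mul_of_nonneg_right (mul_le_mul_of_nonneg_right h4 (Real.exp_pos _).le) (bW_pos _ _ _ _).le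

/-- **THE PIECES OF ONE WINDOW**, exponents in the unit `E`. `ω` old; `ω₂` = the gate slab (rows `≤ a`) new; `ω₃` = gate slab and lane
block (rows `≤ b`) new; `ω'` all new. `Mi₀`, `Mo₀` : mouths at the row `ra - 1` (inner strip of `St`, strip of `Fw`). -/
structure Pc53 (Γ : Cx) (G : Gm) (u : ℕ) (κ : ℤ × ℤ) (bS bW' E : ℝ) (a a₁ b₁ b b' : ℕ) (C1 C2 : Set ℤ)
    (xA uA yA xB uB yB q1 rM d3 q0 r z δ : ℝ) (ω ω₂ ωA ωM ω₃ ω' : Env) (Mi₀ Mo₀ MA NA MB CB : Set ℤ)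
    (gA GA YA gB GB YB g1 RM g0 RG sG : ℝ) : Prop where
  B : Blk76 Γ ω₂ ωA ωM ω₃ a a₁ b₁ b MA NA C1 MB C2 CB gA GA YA gB GB YB g1 RM
  hgA : Real.exp (xA * E) ≤ gA
  hGA : GA ≤ Real.exp (uA * E)
  hYA : YA ≤ Real.exp (yA * E)
  hgB : Real.exp (xB * E) ≤ gB
  hGB : GB ≤ Real.exp (uB * E)
  hYB : YB ≤ Real.exp (yB * E)
  hg1 : Real.exp (-q1 * E) ≤ g1
  hRM : RM ≤ Real.exp (rM * E)
  T : Tp73 Γ b' (Real.exp (d3 * E)) ω₃ ω'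
  hb1 : b₁ ≤ b'
  S : Gs76 Γ ω ω₂ (G.ra u κ - 1) a Mi₀ Mo₀ MA NA g0 RG sG
  hq : Real.exp (-q0 * E) ≤ g0
  hR : RG ≤ Real.exp (r * E)
  hs : sG ≤ Real.exp (-z * E)
  cr : ∀ z ∈ C1, ∀ z' ∈ C1, z < z' → ∀ x ∈ C2, ∀ y ∈ C2, x < y →
    ker (wt ω') Γ.p a₁ (b₁ - a₁) z x * ker (wt ω') Γ.p a₁ (b₁ - a₁) z' y -
      ker (wt ω') Γ.p a₁ (b₁ - a₁) z y * ker (wt ω') Γ.p a₁ (b₁ - a₁) z' x ≤
      δ * (ker (wt ω') Γ.p a₁ (b₁ - a₁) z x * ker (wt ω') Γ.p a₁ (b₁ - a₁) z' y)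
  hMi : ∀ z : ℤ, |G.lat (G.ra u κ - 1, z) - G.ctr u κ| ≤ bS * G.w u → z ∈ Mi₀
  hMo : ∀ z ∈ Mo₀, |G.lat (G.ra u κ - 1, z) - G.ctr u κ| ≤ bW' * G.w u - 1

/-- The numbers of `Wn53` at one window. -/
def gW (t xA xB q1 d3 q0 E : ℝ) : ℝ := (1 - t) * Real.exp ((xA + xB - q1 - 1 - d3 - q0) * E)

def yW (uB rM yA d3 r E : ℝ) : ℝ := Real.exp ((uB + rM + yA + 1 + d3 + r) * E)

def eW (xB q1 yB rM d3 E : ℝ) : ℝ := Real.exp (-(xB - q1 - yB - rM - 2 * d3) * E)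

def fW (t' uB rM uA yA d3 r z E : ℝ) : ℝ :=
  Real.exp ((uB + rM + uA + 1 + d3 + r + 1) * E) * t' +
    Real.exp ((max (uB + rM + uA + 1 + d3 - z) (uB + rM + yA + 1 + d3 + r) + 1) * E)

/-- **THE WINDOW.** `aS`, `bS`, `β` = `St`; `aF`, `bF`, `γ` = `Fw`; `R ≥ ra - lo`. -/
theorem wnI53 {aS bS aF bF E : ℝ} {a' a₁ b₁ b' b'' : ℕ} {C1 C2 : Set ℤ} {xA uA yA xB uB yB q1 rM d3 q0 r z δ : ℝ} {aX R : ℝ}
    {Mi₀ Mo₀ MA NA MB CB : Set ℤ} {gA GA YA gB GB YB g1 RM g0 RG sG : ℝ} (hE : 1 ≤ E)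
    (P : Pc53 Γ G u κ bS bF E a' a₁ b₁ b' b'' C1 C2 xA uA yA xB uB yB q1 rM d3 q0 r z δ ω ω₂ ωA ωM ω₃ ω' Mi₀ Mo₀ MA NA MB CB
      gA GA YA gB GB YB g1 RM g0 RG sG)
    (hyuB : yB ≤ uB) (hyuA : yA ≤ uA) (hx : yA + 1 ≤ xA) (hv0 : 0 ≤ G.v) (hv1 : G.v ≤ 1) (hN : G.ra u κ ≤ Γ.N) (h1 : 1 ≤ G.ra u κ)
    (hS : ω ∈ St Γ G aS bS β u κ) (haX : aX * G.w u ≤ aS * G.w u) (hβ : Real.exp (-β) ≤ 1 / 2)
    (hF : ω ∈ Fw Γ G aF bF γ u κ) (hab : bF < aF) (hR0 : 0 ≤ R) (hR : ((G.ra u κ : ℤ) - G.lo u κ : ℝ) ≤ R) (hδ : 0 ≤ δ) :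
    Wn53 Γ (G.ra u κ - 1) a₁ b₁ C1 C2 (Zg G u κ aX) (Fz G u κ aF) (gW (Real.exp (-β)) xA xB q1 d3 q0 E) (yW uB rM yA d3 r E)
      (eW xB q1 yB rM d3 E) (fW (R * Real.exp (-γ)) uB rM uA yA d3 r z E) δ ω ω' :=
  wn_all32 hE P.B P.hgA P.hGA P.hYA P.hgB P.hGB P.hYB hyuB hyuA P.hg1 P.hRM hx P.T P.hb1 P.S P.hq P.hR P.hs (Real.exp_pos _).le
    (mul_nonneg hR0 (Real.exp_pos _).le) hβ (fun k q hz hk => st_a0 hS hN h1 P.hMi haX k q hz hk)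
    (fun k q hz hk => fw_a0 hv0 hv1 hab hF hN h1 P.hMo hR k q hz hk) hδ P.cr

/-- **THE NUMBERS.** `β = βc E_u`, `γ = g_F E_u - slack`; `R ≤ exp (E)`. -/
theorem exI53 {E : ℝ} {xA uA yA xB uB yB q1 rM d3 q0 r z δ L X0 fw R : ℝ} {Eu : ℕ → ℝ} {v : ℕ} (hE : 1 ≤ E) (hEu : Eu v ≤ X0 * E)
    (h48 : 48 ≤ Eu v) (hβ : Real.exp (-β) ≤ 1 / 2) (hR : R ≤ Real.exp E) (hγ : (fw + 1) * E ≤ γ)
    (hδ : δ ≤ Real.exp (-L) / 8)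
    (c1 : uB + rM + yA + 1 + d3 + r + X0 / 4 + 1 ≤ xA + xB - q1 - 1 - d3 - q0)
    (c2 : X0 / 4 ≤ xB - q1 - yB - rM - 2 * d3)
    (c3 : uB + rM + uA + 1 + d3 + r + 1 - fw + X0 / 4 + 2 ≤ xA + xB - q1 - 1 - d3 - q0)
    (c4 : max (uB + rM + uA + 1 + d3 - z) (uB + rM + yA + 1 + d3 + r) + 1 + X0 / 4 + 2 ≤ xA + xB - q1 - 1 - d3 - q0) :
    Ex32 Eu L v (gW (Real.exp (-β)) xA xB q1 d3 q0 E) (yW uB rM yA d3 r E) (eW xB q1 yB rM d3 E)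
      (fW (R * Real.exp (-γ)) uB rM uA yA d3 r z E) δ := by
  refine ex_all32 hE hEu h48 hβ ?_ hδ c1 c2 c3 c4
  calc R * Real.exp (-γ) ≤ Real.exp E * Real.exp (-((fw + 1) * E)) :=
        mul_le_mul hR (Real.exp_le_exp.2 (by linarith)) (Real.exp_pos _).le (Real.exp_pos _).le
    _ = Real.exp (-fw * E) := by
        rw [← Real.exp_add]
        congr 1
        ring

end

end Pool.Agent.W_7d29a1_C1.SD53
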