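import Pool.Agent.W_7d29a1_C1.WrX19
import Pool.Agent.W_7d29a1_C1.EvB41
import Pool.Agent.W_7d29a1_C1.SepX53
import Pool.Agent.W_7d29a1_C1.WnI53
import Pool.Agent.W_7d29a1_C1.NumX32

/-!
Both halves (MP_7d29a1_pr), attractor route [C1], SEP: THE WINDOWS OF THE EXCLUSIONS IN THE FORM `Evn`. (helper19)

`Rt19`: the rates of one window (exponents in the unit `Er` of the lanes) with their inequalities. `PI19`: the pieces `Pc53` (WnI53) of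
every window for the pairs (typical, lucky). `wi19`: `WI19` (WrX19) from `PI19`, `St`, `Fw`, `48 ≤ E`. `ht19`: `HT19` from `Ou ⊆ TmB`.
-/

set_option autoImplicit false

namespace Pool.Agent.W_7d29a1_C1.WrW19

open Finset MeasureTheory
open Pool.Agent.W_7d29a1_F Pool.Agent.W_7d29a1_h4g Pool.Agent.W_7d29a1_H Pool.Agent.W_7d29a1_HS
open Pool.Agent.W_7d29a1_C1.H60
open Pool.Agent.W_7d29a1_C1.H40 (Tk)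
open Pool.Agent.W_7d29a1_C1.G37 (Gm Wok gmW)
open Pool.Agent.W_7d29a1_C1.SF98
open Pool.Agent.W_7d29a1_C1.P25
open Pool.Agent.W_7d29a1_C1.N49
open Pool.Agent.W_7d29a1_C1.Q49
open Pool.Agent.W_7d29a1_C1.SD53 (Wn53 Zg Fz Pc53 wnI53 exI53 gW yW eW fW TmX hT_of)
open Pool.Agent.W_7d29a1_C1.NE32
open Pool.Agent.W_7d29a1_C1.WrS19 Pool.Agent.W_7d29a1_C1.WrX19
open scoped ENNReal

noncomputable section

/-- **THE RATES OF ONE WINDOW.** `X0`: `E u ≤ X0 Er u`; `fw`: `Fw` gives `exp (-(fw + 1) Er)`. -/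
structure Rt19 where
  xA : ℝ
  uA : ℝ
  yA : ℝ
  xB : ℝ
  uB : ℝ
  yB : ℝ
  q1 : ℝ
  rM : ℝ
  d3 : ℝ
  q0 : ℝ
  r : ℝ
  z : ℝ
  X0 : ℝ
  fw : ℝ

/-- The inequalities of the rates. -/
structure Rt19.Ok (R : Rt19) : Prop where
  yuB : R.yB ≤ R.uB
  yuA : R.yA ≤ R.uA
  yx : R.yA + 1 ≤ R.xA
  fw0 : 0 ≤ R.fw + 1
  c1 : R.uB + R.rM + R.yA + 1 + R.d3 + R.r + R.X0 / 4 + 1 ≤ R.xA + R.xB - R.q1 - 1 - R.d3 - R.q0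
  c2 : R.X0 / 4 ≤ R.xB - R.q1 - R.yB - R.rM - 2 * R.d3
  c3 : R.uB + R.rM + R.uA + 1 + R.d3 + R.r + 1 - R.fw + R.X0 / 4 + 2 ≤ R.xA + R.xB - R.q1 - 1 - R.d3 - R.q0
  c4 : max (R.uB + R.rM + R.uA + 1 + R.d3 - R.z) (R.uB + R.rM + R.yA + 1 + R.d3 + R.r) + 1 + R.X0 / 4 + 2 ≤
    R.xA + R.xB - R.q1 - 1 - R.d3 - R.q0

/-- **THE PIECES OF THE WINDOWS**, one value of the constants. `Er u` = unit of the lanes; the slabs `a, a1, b1, b, b'`, the cells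
`C1, C2` are functions of `(u, κ)`; everything else may depend on the pair of contents. -/
def PI19 (F : Fam) (R : Rt19) (bS bF : ℝ) : Phi := fun _q _η _A _lam n Γ G mt τ0 E =>
  ∃ (Er δ : ℕ → ℝ) (a a1 b1 b b' : ℕ → ℤ × ℤ → ℕ) (C1 C2 : ℕ → ℤ × ℤ → Set ℤ),
    (∀ u, τ0 < u → 1 ≤ Er u ∧ Er u ≤ E u ∧ E u ≤ R.X0 * Er u ∧ (G.T u : ℝ) ≤ Real.exp (Er u)) ∧
    (∀ u, τ0 < u → 0 ≤ δ u ∧ δ u ≤ Real.exp (-Ln n) / 8) ∧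
    (∀ u κ, τ0 < u → b1 u κ ≤ G.re u κ) ∧
    ∀ u κ, τ0 < u → u < G.M → (∃ c ∈ FS Γ G mt, G.loc u c = κ) → ∀ ω ∈ Tx (F.TT Γ G E) (fun u => E u / 16) u κ, ∀ η,
      G.R u κ η ω ∈ F.L Γ G E u κ → ∃ (ω₂ ωA ωM ω₃ : Env) (Mi₀ Mo₀ MA NA MB CB : Set ℤ) (gA GA YA gB GB YB g1 RM g0 RG sG : ℝ),
        Pc53 Γ G u κ bS bF (Er u) (a u κ) (a1 u κ) (b1 u κ) (b u κ) (b' u κ) (C1 u κ) (C2 u κ) R.xA R.uA R.yA R.xB R.uB R.yB R.q1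
          R.rM R.d3 R.q0 R.r R.z (δ u) ω ω₂ ωA ωM ω₃ (G.R u κ η ω) Mi₀ Mo₀ MA NA MB CB gA GA YA gB GB YB g1 RM g0 RG sG

variable {P : Pre} {D : Dat} {μ : Measure ℝ} {s : ℝ} {F : Fam}

theorem ra_lo {G : Gm} {u : ℕ} {κ : ℤ × ℤ} (hu : 1 ≤ u) (h0 : 0 ≤ G.rcc u κ) : ((G.ra u κ : ℤ) - G.lo u κ : ℝ) ≤ G.T u := by
  have h1 := G.ra_cast h0
  have h2 := G.rcc_eq u κ
  have h3 := G.T_mono' (show u - 2 ≤ u - 1 by omega)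
  have h4 := G.T_lt8 (show u - 1 < u by omega)
  have h5 := G.T_pos' (u - 1)
  have h6 : (G.ra u κ : ℤ) - G.lo u κ ≤ G.T u := by linarith
  exact_mod_cast h6

/-- **`Wn53` FOR EVERY WINDOW**, in the form `Evn`. -/
theorem wi19 [IsProbabilityMeasure μ] {c C : ℝ} {n₀ : ℕ} (hI : In μ s c C n₀) {R : Rt19} (hR : R.Ok) {aX aF bF gF : ℝ}
    (haX : aX ≤ P.aS) (hab : bF < aF) (hgF : R.fw + 1 ≤ gF)
    (hSt : ∀ Γ G E u κ, 0 < E u → F.St Γ G E (E u / 16) u κ ⊆ Sy78.St Γ G P.aS P.bS (P.βc * E u) u κ)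
    (hFw : ∀ Γ G E u κ, 0 < E u → F.Fw Γ G E (E u / 16) u κ ⊆ SD53.Fw Γ G aF bF (gF * E u) u κ)
    (h : Evn P D μ s (PI19 F R P.bS bF)) : Evn P D μ s (WI19 F aX aF) := by
  obtain ⟨nE, hE⟩ := E_big32 hI 48
  refine (h.and (Evn.of_T041 (φ := fun _ _ _ _ _ _ _ _ _ E => ∀ u, 48 ≤ E u) ⟨nE, fun _ _ _ _ _ _ _ _ _ _ _ _ _ T0 _ _ _
    _ _ hT _ _ u => (hE _ (hT.trans (Nat.le_mul_of_pos_right _ (Nat.pow_pos (by have := D.hK; omega))))).1⟩)).monoG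
    fun q m2 η A lam m0 g1 e0 c₂ δ κ n Γ T0 M mt τ0 hc hW hη hA he0 h1 h2 h3 h4 h5 hg hG hh => ?_
  obtain ⟨⟨Er, δ', a, a1, b1, b, b', C1, C2, x1, x2, x3, x4⟩, h48⟩ := hh
  refine ⟨a1, fun u κ' => min (b1 u κ') ((P.G hW M m0 g1 m2 hc.h1 hc.h2).re u κ'), C1, C2, fun u => gW (Real.exp (-(P.βc * EE μ s (Tk T0 D.K u)))) R.xA R.xB R.q1 R.d3 R.q0 (Er u),
    fun u => yW R.uB R.rM R.yA R.d3 R.r (Er u), fun u => eW R.xB R.q1 R.yB R.rM R.d3 (Er u),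
    fun u => fW (((P.G hW M m0 g1 m2 hc.h1 hc.h2).T u : ℝ) * Real.exp (-(gF * EE μ s (Tk T0 D.K u)))) R.uB R.rM R.uA R.yA R.d3 R.r R.z
      (Er u), δ', fun u κ' hu hM hκ ω hω ξ hξ => ?_, fun u κ' => min_le_right _ _, fun u hu => ?_⟩
  · obtain ⟨ω₂, ωA, ωM, ω₃, Mi₀, Mo₀, MA, NA, MB, CB, gA, GA, YA, gB, GB, YB, g1', RM, g0, RG, sG, X⟩ := x4 u κ' hu hM hκ ω hω ξ hξ
    have hω' : ω ∈ F.Lv Γ (P.G hW M m0 g1 m2 hc.h1 hc.h2) (fun u => EE μ s (Tk T0 D.K u)) u κ' ∩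
        (F.Ou Γ (P.G hW M m0 g1 m2 hc.h1 hc.h2) (fun u => EE μ s (Tk T0 D.K u)) (EE μ s (Tk T0 D.K u) / 16) u κ' ∩
        (F.St Γ (P.G hW M m0 g1 m2 hc.h1 hc.h2) (fun u => EE μ s (Tk T0 D.K u)) (EE μ s (Tk T0 D.K u) / 16) u κ' ∩
        F.Fw Γ (P.G hW M m0 g1 m2 hc.h1 hc.h2) (fun u => EE μ s (Tk T0 D.K u)) (EE μ s (Tk T0 D.K u) / 16) u κ')) := hω
    have h0 : 0 ≤ (P.G hW M m0 g1 m2 hc.h1 hc.h2).rcc u κ' := by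
      obtain ⟨c, -, hc'⟩ := hκ
      rw [← hc']
      exact ((P.G hW M m0 g1 m2 hc.h1 hc.h2).rcc_pos u c).le
    have hMt : (P.G hW M m0 g1 m2 hc.h1 hc.h2).M ≤ mt := by
      have := hc.mt_ge
      show M ≤ mt
      omega
    obtain ⟨y1, y2, y3, y4⟩ := x1 u hu
    have hw := (P.G hW M m0 g1 m2 hc.h1 hc.h2).w_pos u
    beta_reduce
    rw [min_eq_left (x3 u κ' hu)]
    exact wnI53 y1 X hR.yuB hR.yuA hR.yx hG.v0 hG.v1 (((P.G hW M m0 g1 m2 hc.h1 hc.h2).ra_le_re u κ').trans (Ou37.re_le_N hMt hM hκ))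
      (Rt22.ra_pos u κ') (hSt _ _ _ u κ' (hg.pos u) hω'.2.2.1) (mul_le_mul_of_nonneg_right haX hw.le) (hG.βS_ge u hu)
      (hFw _ _ _ u κ' (hg.pos u) hω'.2.2.2) hab (Nat.cast_nonneg _) (ra_lo (by omega) h0) (x2 u hu).1
  · obtain ⟨y1, y2, y3, y4⟩ := x1 u hu
    have h6 : (R.fw + 1) * Er u ≤ gF * EE μ s (Tk T0 D.K u) :=
      mul_le_mul hgF y2 (by linarith) (hR.fw0.trans hgF)
    exact exI53 y1 y3 (h48 u) (hG.βS_ge u hu) y4 h6 (x2 u hu).2 hR.c1 hR.c2 hR.c3 hR.c4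

/-- **`HT19` FROM `Ou`.** -/
theorem ht19 {γ : Cx → ℕ → ℤ → ℝ} {bb QQ : (ℕ → ℝ) → ℕ → ℝ}
    (hOu : ∀ Γ G E u κ, F.Ou Γ G E (E u / 16) u κ ⊆ RB22.TmB Γ G (γ Γ) (bb E u) (QQ E u) u κ (G.ra u κ - 1) (G.re u κ)) :
    Evn P D μ s (HT19 F γ bb QQ) :=
  Evn.of_all fun _ _ _ _ _ _ _ _ _ _ _ _ _ _ _ _ _ _ _ _ _ _ _ _ _ _ _ _ _ => hT_of fun u κ' _ _ _ => hOu _ _ _ u κ'

end

end Pool.Agent.W_7d29a1_C1.WrW19
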