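import Pool.Agent.W_7d29a1_C1.WrQ52
import Pool.Agent.W_7d29a1_C1.WrW19
import Pool.Agent.W_7d29a1_C1.NmC15
import Pool.Agent.W_7d29a1_C1.LukT42
import Pool.Agent.W_7d29a1_C1.PcX82
import Pool.Agent.W_7d29a1_C1.NnS66

/-!
MP_7d29a1_pr, [C1] attractor route, SEP: **THE INPUT `PI19` OF THE EXCLUSIONS AT THE FAMILIES OF PAGE 694, IN THE FORM `Evn`.** (helper66;
over helper82's `pcX82`, helper42's `blkC42`, helper15's record `nm15`, helper52's `Win52`, helper19's `PI19`)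

* `rt66` : the rates; `Nn66` (NnS66) : the numbers of the gate and of the lane block;
* `lw66` : helper42's numbers `Lw42` at one window; **`pc66`** : the pieces `Pc53` of every pair (typical, lucky) of one window, the tame
  clause `Ta42` as a hypothesis;
* `del66` : the cross ratio `exp (- T_r ^ cM)` is below `exp (- Ln n) / 8`; `top66` : the units;
* **`pi66`** : `PI19`.
-/

set_option autoImplicit false

namespace Pool.Agent.W_7d29a1_C1.PiS66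

open Finset MeasureTheory Filter
open Pool.Agent.W_7d29a1_F hiding Bw G
open Pool.Agent.W_7d29a1_h4g Pool.Agent.W_7d29a1_HS
open Pool.Agent.W_7d29a1_H hiding ex gg
open Pool.Agent.W_7d29a1_C1
open Pool.Agent.W_7d29a1_C1.S71 (gl gl_of_not_mem)
open Pool.Agent.W_7d29a1_C1.H60
open Pool.Agent.W_7d29a1_C1.H40 (Tk)
open Pool.Agent.W_7d29a1_C1.G37 (Gm Wok gmW)
open Pool.Agent.W_7d29a1_C1.SF98 (FS KS mem_FS Tx)
open Pool.Agent.W_7d29a1_C1.P25 (mem_loc)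
open Pool.Agent.W_7d29a1_C1.N49
open Pool.Agent.W_7d29a1_C1.Q49
open Pool.Agent.W_7d29a1_C1.D98
open Pool.Agent.W_7d29a1_C1.SD53
open Pool.Agent.W_7d29a1_C1.Nm15
open Pool.Agent.W_7d29a1_C1.WrW19 (PI19 Rt19)
open Pool.Agent.W_7d29a1_C1.PW58 (Sc58)
open Pool.Agent.W_7d29a1_C1.Luc30 (Blk42 gx30 mx30 yx30)
open Pool.Agent.W_7d29a1_C1.P24 (Ce24)
open Pool.Agent.W_7d29a1_C1.B73 (Fr73)
open Pool.Agent.W_7d29a1_C1.Gs37 (Num37)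
open Pool.Agent.W_7d29a1_C1.Pc82 (pcX82 spl_far82 spl_B82 spl_LE82)
open Pool.Agent.W_7d29a1_C1.RB22 (spl)
open Pool.Agent.W_7d29a1_C1.Ou37 (OuT OuD)

noncomputable section

variable {μ : Measure ℝ} {s c C : ℝ} {n₀ : ℕ}

/-! ### The numbers -/

/-- **THE RATES OF THE WINDOW**, unit of the lanes. `ρ` : ratio of the two units; `dT`, `q₀`, `d₁` : top block and gate, in the unit of the
window; `Q` : profile; `qt` : tame level of the lanes. -/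
def rt66 (c C ρ dT q₀ d₁ z fw Q qt KM : ℝ) (l : Lc15) : Rt19 where
  xA := l.LA - (Q + c / 4)
  uA := gx30 c C l.U0 qt l.Kl l.KpA l.UA
  yA := yx30 c l.U0 qt l.Kl l.KpA
  xB := l.LB - (Q + c / 4)
  uB := gx30 c C l.U0 qt l.Kl l.KpA l.UB
  yB := yx30 c l.U0 qt l.Kl l.KpA
  q1 := l.qM + Q + c
  rM := mx30 c l.UM qt l.Kl KM
  d3 := ρ * dT
  q0 := ρ * q₀
  r := ρ * d₁
  z := z
  X0 := ρ
  fw := fw

variable {kw sgm qt KM r0 bS : ℝ} {g : Gc15} {l : Lc15}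

/-! ### One window -/

/-- The tilt of the window, unit of the window. -/
theorem tilt66 [IsProbabilityMeasure μ] (hc0 : 0 ≤ c) (hj : 16 ≤ l.jl) {Γ : Cx} {T : ℕ} (h : |Γ.h| * wd μ s T ≤ c / (32 * l.jl) * EE μ s T) :
    |Γ.h| * wd μ s T ≤ c / 8 * EE μ s T := by
  have hj' : (16 : ℝ) ≤ l.jl := by exact_mod_cast hj
  refine h.trans (mul_le_mul_of_nonneg_right ?_ (zero_le_one.trans (one_le_EE _)))
  exact div_le_div_of_nonneg_left hc0 (by norm_num) (by linarith)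

/-- The tilt of the window, unit of the lanes. -/
theorem tiltr66 (hc0 : 0 ≤ c) (hj : 16 ≤ l.jl) {Γ : Cx} {T : ℕ} (h : |Γ.h| * wd μ s T ≤ c / (32 * l.jl) * EE μ s T)
    (S : Sc58 μ s l.jl (l.N * nr15 l T) T) : |Γ.h| * wd μ s (l.N * nr15 l T) ≤ c / 8 * EE μ s (l.N * nr15 l T) := by
  have hj' : (16 : ℝ) ≤ l.jl := by exact_mod_cast hj
  have h1 : |Γ.h| * wd μ s (l.N * nr15 l T) ≤ |Γ.h| * wd μ s T := mul_le_mul_of_nonneg_left S.wnT (abs_nonneg _)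
  have h2 : c / (32 * l.jl) * EE μ s T ≤ c / (32 * l.jl) * (4 * l.jl * EE μ s (l.N * nr15 l T)) :=
    mul_le_mul_of_nonneg_left S.ETn (div_nonneg hc0 (by linarith))
  have h5 : c / (32 * l.jl) * (4 * l.jl * EE μ s (l.N * nr15 l T)) = c / 8 * EE μ s (l.N * nr15 l T) := by
    field_simp
    ring
  linarith

/-- **helper42's numbers at one window.** -/
theorem lw66 [IsProbabilityMeasure μ] (hc0 : 0 ≤ c) (hkw : 0 ≤ kw) (Hn : Nn66 μ s c C kw bS r0 qt KM g l) {nB : ℕ}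
    (hB : ∀ n : ℕ, nB ≤ n → Blk42 μ s c C l.δ l.Kb l.Kl l.U0 l.UM qt l.KpA KM l.UA l.UB l.YA l.YB l.N n)
    {Γ : Cx} {G : Gm} {R : Nr98} {mt τ0 u : ℕ} {E : ℕ → ℝ} {κ : ℤ × ℤ} {n₁ : ℕ}
    (W : Win52 μ s kw (c / (32 * l.jl)) n₁ (nm15 μ s c g l G) R Γ G mt τ0 E u κ) (hn : nB ≤ nr15 l (G.T u))
    (S : Sc58 μ s l.jl (l.N * nr15 l (G.T u)) (G.T u)) : Lw42 μ s c C Γ G (nm15 μ s c g l G) qt KM u := by
  have hj : (16 : ℝ) ≤ l.jl := by exact_mod_cast Hn.jl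
  have hw1 := S.w1
  have hwT : G.w u = wd μ s (G.T u) := W.hw u
  have hTr : (nm15 μ s c g l G).T u = l.N * nr15 l (G.T u) := rfl
  exact
    { hs := W.hs
      hv := W.hv
      hw := hwT
      fit := W.ok.fit u W.hu
      d0 := Hn.d0
      rA := Hn.rA
      rB := Hn.rB
      kp := Hn.kp
      kp0 := Hn.kp0
      km0 := Hn.km0
      rM := Hn.rM
      rM1 := Hn.rM1
      kb := by
        rw [hTr, hwT, W.hk]
        show l.Kb * wd μ s (l.N * nr15 l (G.T u)) ≤ kw * wd μ s (G.T u) + 1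
        have h1 : l.Kb * wd μ s (l.N * nr15 l (G.T u)) ≤ kw * wd μ s (l.N * nr15 l (G.T u)) :=
          mul_le_mul_of_nonneg_right Hn.kb (by linarith)
        have h2 := mul_le_mul_of_nonneg_left S.wnT hkw
        linarith
      kh := by
        rw [hTr, hwT, W.hk]
        show kw * wd μ s (G.T u) + 1 ≤ l.Kl * wd μ s (l.N * nr15 l (G.T u))
        have h1 := mul_le_mul_of_nonneg_left S.wTn hkw
        have h2 : 4 * l.jl * (kw + 1) * wd μ s (l.N * nr15 l (G.T u)) ≤ l.Kl * wd μ s (l.N * nr15 l (G.T u)) :=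
          mul_le_mul_of_nonneg_right Hn.kh (by linarith)
        have h3 : 1 ≤ 4 * l.jl * wd μ s (l.N * nr15 l (G.T u)) := by nlinarith
        have h4 : kw * (4 * l.jl * wd μ s (l.N * nr15 l (G.T u))) + 4 * l.jl * wd μ s (l.N * nr15 l (G.T u)) =
            4 * l.jl * (kw + 1) * wd μ s (l.N * nr15 l (G.T u)) := by ring
        linarith
      w1 := hw1
      hh := tiltr66 hc0 Hn.jl W.tilt S
      blk := hB _ hn }

/-- **The frame of the window.** -/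
theorem fr66 [IsProbabilityMeasure μ] (hc0 : 0 ≤ c) (hj : 16 ≤ l.jl) {V₁ Re Qe υ b al U₁ : ℝ} (hυ : 0 ≤ υ) {N : Nm98}
    {Γ : Cx} {G : Gm} {mt τ0 u : ℕ} {E : ℕ → ℝ} {κ : ℤ × ℤ} {n₁ : ℕ}
    (W : Win52 μ s kw (c / (32 * l.jl)) n₁ N (nr98 μ s c G b al U₁ υ V₁ Re Qe) Γ G mt τ0 E u κ) :
    Fr73 μ s c kw V₁ Re Qe υ Γ G (nr98 μ s c G b al U₁ υ V₁ Re Qe) u κ where
  hs := W.hs
  hv := W.hv
  hw := W.hw u
  hk := W.hk
  hh := tilt66 hc0 hj W.tilt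
  h0 := W.rc
  hN := W.reN
  V1 := le_rfl
  sV := le_rfl
  Re := rfl
  Qe := rfl
  Uw0 := mul_nonneg hυ (zero_le_one.trans (one_le_EE _))
  Uw1 := le_rfl

/-- The end row of the window is strictly inside. -/
theorem reN66 {kap : ℝ} {N : Nm98} {R : Nr98} {Γ : Cx} {G : Gm} {mt τ0 u : ℕ} {E : ℕ → ℝ} {κ : ℤ × ℤ} {n₁ : ℕ}
    (W : Win52 μ s kw kap n₁ N R Γ G mt τ0 E u κ) : G.re u κ < Γ.N := by
  obtain ⟨cc, hcc, hcκ⟩ := W.cell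
  have h1 := W.huM
  have h2 := W.hM
  rw [← hcκ]
  exact G.re_lt_of_Wr (u := u) (mt := mt) (N := Γ.N) (by omega) (mem_FS.1 hcc).2

/-- **THE PIECES OF ONE WINDOW**, the tame clause `Ta42` of the old content as a hypothesis. -/
theorem pc66 [IsProbabilityMeasure μ] (h : In μ s c C n₀) {kw : ℝ} (hkw : 0 ≤ kw) :
    ∃ Ck : ℝ, 0 < Ck ∧ ∀ {V₁ Re Qe υ sgm : ℝ}, 0 ≤ V₁ → 0 ≤ Re → 0 ≤ Qe → 0 ≤ υ → 0 ≤ sgm → 80 * sgm ≤ c →
    ∃ K₁ b₀ : ℝ, 0 ≤ K₁ ∧ 1 ≤ b₀ ∧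
    ∀ {g : Gc15} {l : Lc15} {r0 qt KM bS R2 R1 U₁ d₁ q₀ z Qv : ℝ}, Nn66 μ s c C kw bS r0 qt KM g l →
      Num37 c |lam μ s| kw Ck V₁ υ Re Qe g.Q sgm bS 2 R2 U₁ d₁ q₀ R1 (R1 - 1) z → 0 ≤ q₀ → 0 ≤ z → b₀ + 1 ≤ R2 → Qv ≤ qt →
    ∃ n₁ : ℕ, ∀ {Γ : Cx} {G : Gm} {al Ue : ℝ} {mt τ0 u : ℕ} {E : ℕ → ℝ} {κ : ℤ × ℤ} {ω ω' : Env},
      Win52 μ s kw (c / (32 * l.jl)) n₁ (nm15 μ s c g l G) (nr98 μ s c G (R1 - 1) al Ue υ V₁ Re Qe) Γ G mt τ0 E u κ →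
      Ta42 μ s c Γ G (nm15 μ s c g l G) Qv u κ ω →
      ω ∈ LvA98 μ s c Γ G (nm15 μ s c g l G) (nr98 μ s c G (R1 - 1) al Ue υ V₁ Re Qe) u κ →
      ω ∈ OuT μ s Γ G E r0 (sgm * r0) (E u / 16) u κ → ω ∈ OuT μ s Γ G E R2 (sgm * R2) (E u / 16) u κ →
      ω ∈ OuT μ s Γ G E R1 (sgm * R1) (E u / 16) u κ →
      ω' ∈ LuA98 μ s c Γ G (nm15 μ s c g l G) (nr98 μ s c G (R1 - 1) al Ue υ V₁ Re Qe) u κ → (∀ p, p ∉ G.win u κ → ω' p = ω p) →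
      ∃ (ω₂ ωA ωM ω₃ : Env) (Mi₀ Mo₀ MA NA MB CB : Set ℤ) (gA GA YA gB GB YB g1 RM g0 RG sG : ℝ),
        Pc53 Γ G u κ bS R1 (EE μ s ((nm15 μ s c g l G).T u)) (rl98 Γ G (nm15 μ s c g l G) u κ)
          (rl98 Γ G (nm15 μ s c g l G) u κ + (nm15 μ s c g l G).T u) (rl98 Γ G (nm15 μ s c g l G) u κ + 2 * (nm15 μ s c g l G).T u)
          (b98 Γ G (nm15 μ s c g l G) u κ) (b98 Γ G (nm15 μ s c g l G) u κ)
          ↑(Ce24 (co98 G u κ (rl98 Γ G (nm15 μ s c g l G) u κ + (nm15 μ s c g l G).T u)) (l.δ / 4 * wd μ s ((nm15 μ s c g l G).T u)))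
          ↑(Ce24 (co98 G u κ (rl98 Γ G (nm15 μ s c g l G) u κ + 2 * (nm15 μ s c g l G).T u))
            (l.δ / 4 * wd μ s ((nm15 μ s c g l G).T u)))
          (l.LA - (4 * l.jl * (sgm * r0 + 1) + c / 4)) (gx30 c C l.U0 qt l.Kl l.KpA l.UA) (yx30 c l.U0 qt l.Kl l.KpA)
          (l.LB - (4 * l.jl * (sgm * r0 + 1) + c / 4)) (gx30 c C l.U0 qt l.Kl l.KpA l.UB) (yx30 c l.U0 qt l.Kl l.KpA)
          (l.qM + 4 * l.jl * (sgm * r0 + 1) + c) (mx30 c l.UM qt l.Kl KM) (4 * l.jl * (K₁ + 5 * sgm * (R2 - 1))) (4 * l.jl * q₀)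
          (4 * l.jl * d₁) z (Real.exp (-(((nm15 μ s c g l G).T u : ℕ) : ℝ) ^ l.cM)) ω ω₂ ωA ωM ω₃ ω' Mi₀ Mo₀ MA NA
          MB CB gA GA YA gB GB YB g1 RM g0 RG sG := by
  have hc0 := h.c0
  obtain ⟨Ck, hCk, H⟩ := pcX82 h hkw
  refine ⟨Ck, hCk, fun {V₁ Re Qe υ sgm} hV₁ hRe hQe hυ hs0 hs1 => ?_⟩
  obtain ⟨K₁, b₀, hK₁, hb₀, nX, hnX, H⟩ := H hV₁ hRe hQe hυ hs0 hs1
  refine ⟨K₁, b₀, hK₁, hb₀, fun {g l r0 qt KM bS R2 R1 U₁ d₁ q₀ z Qv} Hn hNum hq₀ hz hR2 hQv => ?_⟩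
  obtain ⟨nG, hG⟩ := Hn.gok
  obtain ⟨nB, hB⟩ := Hn.blk
  obtain ⟨T₁, hT₁⟩ := Hn.lane nB
  refine ⟨max (max nX nG) (max T₁ 1), ?_⟩
  intro Γ G al Ue mt τ0 u E κ ω ω' W hTa hω hO0 hO2 hO1 hω' hwin
  have hTX : nX ≤ G.T u := le_trans (le_trans (le_max_left _ _) (le_max_left _ _)) (W.hT u)
  have hTG : nG ≤ G.T u := le_trans (le_trans (le_max_right _ _) (le_max_left _ _)) (W.hT u)
  have hTB : T₁ ≤ G.T u := le_trans (le_trans (le_max_left _ _) (le_max_right _ _)) (W.hT u)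
  have hT1 : 1 ≤ G.T u := le_trans (le_trans (le_max_right _ _) (le_max_right _ _)) (W.hT u)
  obtain ⟨l1, l2, S⟩ := hT₁ (G.T u) hTB
  have L := lw66 hc0.le hkw Hn hB W l1 S
  have Nt := nm15_num (l := l) hG hTG
  have hj : (16 : ℝ) ≤ l.jl := by exact_mod_cast Hn.jl
  have hEu := W.hE u
  have hwu := W.hw u
  have hE1 : 1 ≤ EE μ s (G.T u) := one_le_EE _
  have hw2 : 2 * EE μ s (G.T u) ≤ wd μ s (G.T u) := wd_ge_one h hT1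
  have hwr := S.w1
  have hTr : (nm15 μ s c g l G).T u = l.N * nr15 l (G.T u) := rfl
  -- the numbers of the gate
  have hK1 : wd μ s (G.T u) ≤ (nm15 μ s c g l G).K1 u * wd μ s ((nm15 μ s c g l G).n u) := by
    have h1 : 1 * wd μ s (G.T u) ≤ g.kc * wd μ s (G.T u) := mul_le_mul_of_nonneg_right Hn.kc1 (by linarith)
    have h2 := Nt.kc_le
    linarith
  have hK2 : bS * wd μ s (G.T u) + 2 ≤ (nm15 μ s c g l G).K2 u * wd μ s ((nm15 μ s c g l G).n u) := by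
    have h1 : bS * wd μ s (G.T u) ≤ g.kc * wd μ s (G.T u) := mul_le_mul_of_nonneg_right Hn.kcS (by linarith)
    have h2 := Nt.kc_le
    have h3 : (((nm15 μ s c g l G).K1 u : ℕ) : ℝ) + 3 ≤ ((nm15 μ s c g l G).K2 u : ℕ) := by exact_mod_cast Nt.K12
    have h4 := Nt.sc.w1
    have h5 := mul_le_mul_of_nonneg_right h3 (show 0 ≤ wd μ s ((nm15 μ s c g l G).n u) by linarith)
    have h6 : ((((nm15 μ s c g l G).K1 u : ℕ) : ℝ) + 3) * wd μ s ((nm15 μ s c g l G).n u) =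
        (nm15 μ s c g l G).K1 u * wd μ s ((nm15 μ s c g l G).n u) + 3 * wd μ s ((nm15 μ s c g l G).n u) := by ring
    linarith
  -- the lane block
  have hreN := reN66 W
  have hR0 := Hn.r0
  have hRt : wd μ s ((nm15 μ s c g l G).T u) + 1 ≤ r0 * G.w u := by
    rw [hTr, hwu]
    have h1 := S.wnT
    have h2 : 2 * wd μ s (G.T u) ≤ r0 * wd μ s (G.T u) := mul_le_mul_of_nonneg_right hR0 (by linarith)
    linarith
  have hX : sgm * r0 * E u + E u / 16 ≤ 4 * l.jl * (sgm * r0 + 1) * EE μ s ((nm15 μ s c g l G).T u) := by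
    rw [hTr, hEu]
    have h1 : 0 ≤ sgm * r0 := mul_nonneg hs0 (by linarith)
    have h2 := mul_le_mul_of_nonneg_left S.ETn (show 0 ≤ sgm * r0 + 1 by linarith)
    have h3 : (sgm * r0 + 1) * (4 * l.jl * EE μ s (l.N * nr15 l (G.T u))) =
        4 * l.jl * (sgm * r0 + 1) * EE μ s (l.N * nr15 l (G.T u)) := by ring
    linarith
  obtain ⟨hBl, hcr⟩ := blkC42 (ω₀ := ω) (ω := spl (rf98 Γ G (nm15 μ s c g l G) u κ) ω' ω)
    (ω' := spl (b98 Γ G (nm15 μ s c g l G) u κ + 1) ω' ω) h L hQv hRt hX (Lv98.nosw hω) hreN hTa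
    (fun cc hc cc' hc' _ _ => hO0 cc hc cc' hc') (fun p hp => spl_far82 hp) (fun p hp => spl_B82 hwin hp) (spl_LE82 (L98.le hω'))
  have hrb := b98_T (Γ := Γ) (κ := κ) L.fit
  exact H (fr66 hc0.le Hn.jl hυ W) hEu hTX hreN.le L.fit
    (by show V₁ * EE μ s (G.T u) = V₁ * E u; rw [hEu])
    (by show c / 16 * (EE μ s (G.T u) / wd μ s (G.T u)) = c / 16 * (E u / G.w u); rw [hEu, hwu])
    (by show υ * EE μ s (G.T u) = υ * E u; rw [hEu])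
    hNum hq₀ hz hR2 (by rw [hwu]; exact hK2) (by linarith)
    (by
      have h1 : l.δ / 4 * wd μ s (l.N * nr15 l (G.T u)) ≤ 1 * wd μ s (l.N * nr15 l (G.T u)) :=
        mul_le_mul_of_nonneg_right (Hn.rM.trans Hn.rM1) (by linarith)
      have h2 := S.wnT
      rw [hwu]
      show l.δ / 4 * wd μ s (l.N * nr15 l (G.T u)) ≤ wd μ s (G.T u)
      linarith)
    (by rw [hEu]; exact S.EnT) (by rw [hEu]; exact S.ETn) hω (by linarith) (by linarith) hO2 hO1 hω' hwin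
    (b := b98 Γ G (nm15 μ s c g l G) u κ) (by rw [b98_eq]; omega) hBl hcr

/-! ### The units -/

/-- **The cross ratio** `exp (- T ^ b)` is small against `exp (- Ln n)`, `n ^ e ≤ X T`. -/
theorem del66 {b e X : ℝ} (hb : 0 < b) (he : 0 < e) (hX : 0 < X) : ∃ n₁ : ℕ, ∀ n : ℕ, n₁ ≤ n → ∀ T : ℕ, (n : ℝ) ^ e ≤ X * T →
    Real.exp (-(T : ℝ) ^ b) ≤ Real.exp (-Ln n) / 8 := by
  have hr : 0 < e * b := mul_pos he hb
  have hXb : 0 < X ^ b := Real.rpow_pos_of_pos hX b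
  have h1 := (isLittleO_log_rpow_atTop hr).def (show (0 : ℝ) < 1 / (38 * X ^ b) by positivity)
  have h2 := (tendsto_rpow_atTop hr).eventually_ge_atTop (6 * X ^ b)
  obtain ⟨n₁, H⟩ := eventually_atTop.1 (tendsto_natCast_atTop_atTop.eventually (h1.and h2))
  refine ⟨max n₁ 1, fun n hn T hT => ?_⟩
  obtain ⟨a1, a2⟩ := H n ((le_max_left _ _).trans hn)
  have hn1 : (1 : ℝ) ≤ n := by exact_mod_cast (le_max_right _ _).trans hn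
  have a3 : (0 : ℝ) ≤ (n : ℝ) ^ (e * b) := Real.rpow_nonneg (by linarith) _
  rw [Real.norm_of_nonneg (Real.log_nonneg hn1), Real.norm_of_nonneg a3] at a1
  have hT0 : (0 : ℝ) ≤ T := Nat.cast_nonneg T
  have a4 : (n : ℝ) ^ (e * b) ≤ X ^ b * (T : ℝ) ^ b := by
    rw [Real.rpow_mul (by linarith), ← Real.mul_rpow hX.le hT0]
    exact Real.rpow_le_rpow (Real.rpow_nonneg (by linarith) _) hT hb.le
  have a5 : 38 * X ^ b * Real.log n ≤ (n : ℝ) ^ (e * b) := by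
    have h3 := mul_le_mul_of_nonneg_left a1 (show (0 : ℝ) ≤ 38 * X ^ b by positivity)
    rwa [← mul_assoc, mul_one_div_cancel (by positivity), one_mul] at h3
  have a6 : 19 * Real.log n + 3 ≤ (T : ℝ) ^ b := by
    refine le_of_mul_le_mul_left ?_ hXb
    have e3 : X ^ b * (19 * Real.log n + 3) = (38 * X ^ b * Real.log n + 6 * X ^ b) / 2 := by ring
    rw [e3]
    linarith
  have e1 : Ln n = 19 * Real.log n := by
    unfold Ln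
    norm_num
  have e2 : (8 : ℝ) ≤ Real.exp 3 := by
    have := Real.quadratic_le_exp_of_nonneg (show (0 : ℝ) ≤ 3 by norm_num)
    linarith
  rw [e1, le_div_iff₀ (by norm_num)]
  calc Real.exp (-(T : ℝ) ^ b) * 8 ≤ Real.exp (-(T : ℝ) ^ b) * Real.exp 3 := mul_le_mul_of_nonneg_left e2 (Real.exp_pos _).le
    _ = Real.exp (-(T : ℝ) ^ b + 3) := (Real.exp_add _ _).symm
    _ ≤ Real.exp (-(19 * Real.log n)) := Real.exp_le_exp.2 (by linarith)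

/-- **The units of one window**: the two energies and the number of rows. -/
theorem un66 [IsProbabilityMeasure μ] (h : In μ s c C n₀) (Hn : Nn66 μ s c C kw bS r0 qt KM g l) : ∃ T₁ : ℕ, ∀ T : ℕ, T₁ ≤ T →
    (1 ≤ EE μ s (l.N * nr15 l T) ∧ EE μ s (l.N * nr15 l T) ≤ EE μ s T ∧ EE μ s T ≤ 4 * l.jl * EE μ s (l.N * nr15 l T) ∧
      (T : ℝ) ≤ Real.exp (EE μ s (l.N * nr15 l T))) ∧ (T : ℝ) ≤ 2 * l.jl * ((l.N * nr15 l T : ℕ) : ℝ) := by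
  have hjl := Hn.jl
  obtain ⟨n₁, H⟩ := NM32.two_units h 8 (X := 2 * l.jl) (by omega)
  obtain ⟨T₁, H1⟩ := Hn.lane n₁
  refine ⟨max T₁ (l.jl * l.N), fun T hT => ?_⟩
  obtain ⟨a1, -, S⟩ := H1 T ((le_max_left _ _).trans hT)
  have a2 : n₁ ≤ l.N * nr15 l T := a1.trans (Nat.le_mul_of_pos_left _ Hn.lN)
  have a3 : T ≤ 2 * l.jl * (l.N * nr15 l T) := le_nr15 Hn.lN (by omega) ((le_max_right _ _).trans hT)
  obtain ⟨-, -, -, -, a4⟩ := H (l.N * nr15 l T) a2 T S.nT a3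
  have a5 := a4 (2 * T) (by omega)
  refine ⟨⟨S.E1, S.EnT, S.ETn, ?_⟩, by exact_mod_cast a3⟩
  push_cast at a5
  linarith

variable {P : Pre} {D : Dat}

/-- **The units of all the windows**, and the cross ratio. -/
theorem top66 [IsProbabilityMeasure μ] (h : In μ s c C n₀) (Hn : Nn66 μ s c C kw bS r0 qt KM g l) :
    Evn P D μ s fun _ _ _ _ n _ G _ _ E => ∀ u, (1 ≤ EE μ s (l.N * nr15 l (G.T u)) ∧ EE μ s (l.N * nr15 l (G.T u)) ≤ E u ∧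
      E u ≤ 4 * l.jl * EE μ s (l.N * nr15 l (G.T u)) ∧ (G.T u : ℝ) ≤ Real.exp (EE μ s (l.N * nr15 l (G.T u)))) ∧
      Real.exp (-((l.N * nr15 l (G.T u) : ℕ) : ℝ) ^ l.cM) ≤ Real.exp (-Ln n) / 8 := by
  obtain ⟨T₁, H⟩ := un66 h Hn
  have hj : (16 : ℝ) ≤ l.jl := by exact_mod_cast Hn.jl
  refine Evn.of_thr41 ⟨0, fun q _ => ⟨0, fun m2 _ η _ A _ => ⟨0, fun lam _ => ⟨0, fun m0 _ g1 _ e0 he0 => ?_⟩⟩⟩⟩
  obtain ⟨n₁, H2⟩ := del66 Hn.cM he0 (X := 2 * l.jl) (by linarith)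
  refine ⟨T₁, n₁, fun c₂ δ κ n hn _ _ _ _ _ Γ T0 M mt τ0 hc hW hT0 hg hG u => ?_⟩
  have h2 : T0 * 1 ≤ T0 * D.K ^ u := Nat.mul_le_mul_left _ (Nat.one_le_pow _ _ (by have := D.hK; omega))
  have h3 : (P.G hW M m0 g1 m2 hc.h1 hc.h2).T u = T0 * D.K ^ u := rfl
  obtain ⟨a1, a2⟩ := H ((P.G hW M m0 g1 m2 hc.h1 hc.h2).T u) (by omega)
  refine ⟨a1, H2 n hn _ (hc.T0_ge.trans (le_trans ?_ a2))⟩
  rw [h3]
  have h4 : T0 ≤ T0 * D.K ^ u := by omega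
  exact_mod_cast h4

/-! ### The input of the exclusions -/

/-- **`PI19` AT THE FAMILIES OF PAGE 694**, the tame clause (helper30, helper42) as the hypothesis `hTa`. -/
theorem piT66 [IsProbabilityMeasure μ] (h : In μ s c C n₀) (hE9 : ∀ᶠ n : ℕ in Filter.atTop, (n : ℝ) ^ (1 / 9 : ℝ) ≤ EE μ s n)
    {kw : ℝ} (hkw : 0 ≤ kw) :
    ∃ Ck : ℝ, 0 < Ck ∧ ∀ {V₁ Re Qe υ sgm : ℝ}, 0 ≤ V₁ → 0 ≤ Re → 0 ≤ Qe → 0 ≤ υ → 0 ≤ sgm → 80 * sgm ≤ c →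
    ∃ K₁ b₀ : ℝ, 0 ≤ K₁ ∧ 1 ≤ b₀ ∧
    ∀ {P : Pre} {D : Dat} {g : Gc15} {l : Lc15} {F : Cf98} {qt KM U₁ d₁ q₀ z fw Qv : ℝ}, P.kw = kw →
      F.V₁ = V₁ → F.Re = Re → F.Qe = Qe → F.Uw = υ → F.sgm = sgm → F.bF = F.R1 → Nn66 μ s c C kw P.bS F.r0 qt KM g l →
      Num37 c |lam μ s| kw Ck V₁ υ Re Qe g.Q sgm P.bS 2 F.R2 U₁ d₁ q₀ F.R1 (F.R1 - 1) z → 0 ≤ q₀ → 0 ≤ z → b₀ + 1 ≤ F.R2 → Qv ≤ qt →
      (∃ n₁ : ℕ, ∀ {Γ : Cx} {G : Gm} {R : Nr98} {mt τ0 u : ℕ} {E : ℕ → ℝ} {κ : ℤ × ℤ},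
        Win52 μ s kw (c / (32 * l.jl)) n₁ (nm15 μ s c g l G) R Γ G mt τ0 E u κ → ∀ ω, ω ∈ LvA98 μ s c Γ G (nm15 μ s c g l G) R u κ →
        ω ∈ OuD μ s Γ G E F.r0 (sgm * F.r0) sgm (E u / 16) u κ → Ta42 μ s c Γ G (nm15 μ s c g l G) Qv u κ ω) →
      OkE41 P D μ s (fun _ G _ => nm15 μ s c g l G) (F.nr μ s c) →
      Evn P D μ s (PI19 (Fam98o μ s c P (fun _ G _ => nm15 μ s c g l G) F)
        (rt66 c C (4 * l.jl) (K₁ + 5 * sgm * (F.R2 - 1)) q₀ d₁ z fw (4 * l.jl * (sgm * F.r0 + 1)) qt KM l) P.bS F.bF) := by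
  obtain ⟨Ck, hCk, H⟩ := pc66 h hkw
  refine ⟨Ck, hCk, fun {V₁ Re Qe υ sgm} hV₁ hRe hQe hυ hs0 hs1 => ?_⟩
  obtain ⟨K₁, b₀, hK₁, hb₀, H⟩ := H hV₁ hRe hQe hυ hs0 hs1
  refine ⟨K₁, b₀, hK₁, hb₀, ?_⟩
  intro P D g l F qt KM U₁ d₁ q₀ z fw Qv hk e1 e2 e3 e4 e5 e6 Hn hNum hq₀ hz hR2 hQv hTa hN
  subst hk e1 e2 e3 e4 e5
  obtain ⟨n₁, H⟩ := H Hn hNum hq₀ hz hR2 hQv
  obtain ⟨n₂, hTa⟩ := hTa
  have hj : (16 : ℝ) ≤ l.jl := by exact_mod_cast Hn.jl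
  have hkap : 0 < c / (32 * l.jl) := div_pos h.c0 (by linarith)
  refine ((evn_win52 h hE9 hkap (max n₁ n₂) hN).and ((top66 h Hn).and hN.ok)).mono fun q η A lm n Γ G mt τ0 E hh => ?_
  obtain ⟨hW, hU, hok⟩ := hh
  rw [e6]
  refine ⟨fun u => EE μ s ((nm15 μ s c g l G).T u), fun u => Real.exp (-(((nm15 μ s c g l G).T u : ℕ) : ℝ) ^ l.cM),
    rl98 Γ G (nm15 μ s c g l G), fun u κ => rl98 Γ G (nm15 μ s c g l G) u κ + (nm15 μ s c g l G).T u,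
    fun u κ => rl98 Γ G (nm15 μ s c g l G) u κ + 2 * (nm15 μ s c g l G).T u, b98 Γ G (nm15 μ s c g l G), b98 Γ G (nm15 μ s c g l G),
    fun u κ => ↑(Ce24 (co98 G u κ (rl98 Γ G (nm15 μ s c g l G) u κ + (nm15 μ s c g l G).T u))
      (l.δ / 4 * wd μ s ((nm15 μ s c g l G).T u))),
    fun u κ => ↑(Ce24 (co98 G u κ (rl98 Γ G (nm15 μ s c g l G) u κ + 2 * (nm15 μ s c g l G).T u))
      (l.δ / 4 * wd μ s ((nm15 μ s c g l G).T u))), fun u _ => (hU u).1, fun u _ => ⟨(Real.exp_pos _).le, (hU u).2⟩, ?_, ?_⟩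
  · intro u κ hu
    have h1 := b98_T (Γ := Γ) (κ := κ) (hok.fit u hu)
    rw [b98_eq] at h1
    show rl98 Γ G (nm15 μ s c g l G) u κ + 2 * (nm15 μ s c g l G).T u ≤ G.re u κ
    omega
  · intro u κ hu hM hκ ω hω ξ hξ
    have W := hW u hu hM ⟨κ, mem_image.2 hκ⟩
    have hO : ω ∈ Ou37.OuT μ s Γ G E F.r0 (F.sgm * F.r0) (E u / 16) u κ ∩ Ou37.OuD μ s Γ G E F.r0 (F.sgm * F.r0) F.sgm (E u / 16) u κ :=
      hω.2.1.2.1
    exact H (W.mono (le_max_left _ _)) (hTa (W.mono (le_max_right _ _)) ω hω.1 hO.2) hω.1 hO.1 hω.2.1.2.2.2.1 hω.2.1.2.2.2.2 hξ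
      (fun p hp => gl_of_not_mem hp ξ ω)

end

end Pool.Agent.W_7d29a1_C1.PiS66
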