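import Pool.Agent.W_7d29a1_C1.PiS66
import Pool.Agent.W_7d29a1_C1.LukU42

/-!
MP_7d29a1_pr, [C1] attractor route, SEP: **THE INPUT `PI19` OF THE EXCLUSIONS AT THE FAMILIES OF PAGE 694**, tame clause included, the constants
as functions of the earlier ones. (helper66; over `piT66`, helper42's `taU42`)

* `ta66` : the tame clause `Ta42` at all the windows; the level `Qv` reads `PF, th, K, qF, Q4, Kl, jl`;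
* **`pi66`** : `PI19`; `Ck` reads `kw`; `K₁, b₀` read `kw, V₁, Re, Qe, Uw, sgm`; `Qv` reads `PF, th, KF, qF, sgm r0, Kl, jl`.
-/

set_option autoImplicit false

namespace Pool.Agent.W_7d29a1_C1.PiS66

open Finset MeasureTheory Filter
open Pool.Agent.W_7d29a1_F hiding Bw G
open Pool.Agent.W_7d29a1_h4g Pool.Agent.W_7d29a1_HS
open Pool.Agent.W_7d29a1_H hiding ex gg
open Pool.Agent.W_7d29a1_C1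
open Pool.Agent.W_7d29a1_C1.H60
open Pool.Agent.W_7d29a1_C1.G37 (Gm Wok gmW)
open Pool.Agent.W_7d29a1_C1.N49
open Pool.Agent.W_7d29a1_C1.Q49
open Pool.Agent.W_7d29a1_C1.D98
open Pool.Agent.W_7d29a1_C1.SD53
open Pool.Agent.W_7d29a1_C1.Nm15
open Pool.Agent.W_7d29a1_C1.WrW19 (PI19 Rt19)
open Pool.Agent.W_7d29a1_C1.PW58 (Sc58)
open Pool.Agent.W_7d29a1_C1.Gs37 (Num37)
open Pool.Agent.W_7d29a1_C1.Ou37 (OuT OuD)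

noncomputable section

variable {μ : Measure ℝ} {s c C : ℝ} {n₀ : ℕ}

/-- The tame clause at all the windows. -/
def TaP66 (μ : Measure ℝ) (s c C : ℝ) (PF : ℕ) (θ K qF Q4 Kl : ℝ) (j : ℕ) (Qv : ℝ) : Prop :=
  ∀ {kw bS r0 qt KM sgm : ℝ} {g : Gc15} {l : Lc15}, 0 ≤ kw → l.th = θ → l.KF = K → l.PF = PF → l.qF = qF → l.Kl = Kl → l.jl = j →
    0 ≤ sgm → sgm ≤ c / 16 → l.Kl + 2 ≤ r0 → Nn66 μ s c C kw bS r0 qt KM g l →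
    ∃ n₁ : ℕ, ∀ {Γ : Cx} {G : Gm} {R : Nr98} {mt τ0 u : ℕ} {E : ℕ → ℝ} {κ : ℤ × ℤ},
      Win52 μ s kw (c / (32 * l.jl)) n₁ (nm15 μ s c g l G) R Γ G mt τ0 E u κ → ∀ ω, ω ∈ LvA98 μ s c Γ G (nm15 μ s c g l G) R u κ →
      ω ∈ OuD μ s Γ G E r0 Q4 sgm (E u / 16) u κ → Ta42 μ s c Γ G (nm15 μ s c g l G) Qv u κ ω

/-- **THE TAME CLAUSE AT ALL THE WINDOWS** (helper42's `taU42`). -/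
theorem ta66 [IsProbabilityMeasure μ] (h : In μ s c C n₀) (PF : ℕ) {θ K qF Q4 Kl : ℝ} (hK : 4 ≤ K) (hθ : 0 < θ) (hθ8 : θ ≤ 1 / 8)
    (hqF : 0 ≤ qF) (hQ4 : 0 ≤ Q4) (hKl : 0 ≤ Kl) {j : ℕ} (hj : 1 ≤ j) : ∃ Qv : ℝ, 0 ≤ Qv ∧ TaP66 μ s c C PF θ K qF Q4 Kl j Qv := by
  obtain ⟨nT, -, H⟩ := taU42 h PF hK hθ hθ8
  obtain ⟨Qv, hQv, H⟩ := H qF Q4 Kl hqF hQ4 hKl j hj
  refine ⟨Qv, hQv, ?_⟩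
  intro kw bS r0 qt KM sgm g l hkw e1 e2 e3 e4 e5 e6 hs0 hs1 hr0 Hn
  obtain ⟨nB, hB⟩ := Hn.blk
  obtain ⟨T₁, hT₁⟩ := Hn.lane nB
  refine ⟨max nT T₁, ?_⟩
  intro Γ G R mt τ0 u E κ W ω hω hD
  obtain ⟨l1, l2, S⟩ := hT₁ (G.T u) (le_trans (le_max_right _ _) (W.hT u))
  have L := lw66 h.c0.le hkw Hn hB W l1 S
  have hE0 := W.E0 u
  subst e1 e2 e3 e4 e5 e6
  exact H (P := nm15 μ s c g l G) (q := qt) (KM := KM) rfl rfl rfl rfl rfl (le_trans (le_max_left _ _) (W.hT u))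
    { lw := L
      hE := W.hE u
      hU := tilt66 h.c0.le Hn.jl W.tilt
      sc := S
      Kl0 := hKl
      g0 := hs0
      gr := hs1
      sgE := by linarith
      hR := hr0 } (Lv98.nosw hω) (reN66 W) (Lv98.farL hω) hD

/-- **`PI19` AT GIVEN CONSTANTS**: the statement of `piT66`. -/
def PiP66 (μ : Measure ℝ) (s c C : ℝ) (kw Ck V₁ Re Qe υ sgm K₁ b₀ : ℝ) : Prop :=
  ∀ {P : Pre} {D : Dat} {g : Gc15} {l : Lc15} {F : Cf98} {qt KM U₁ d₁ q₀ z fw Qv : ℝ}, P.kw = kw →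
    F.V₁ = V₁ → F.Re = Re → F.Qe = Qe → F.Uw = υ → F.sgm = sgm → F.bF = F.R1 → Nn66 μ s c C kw P.bS F.r0 qt KM g l →
    Num37 c |lam μ s| kw Ck V₁ υ Re Qe g.Q sgm P.bS 2 F.R2 U₁ d₁ q₀ F.R1 (F.R1 - 1) z → 0 ≤ q₀ → 0 ≤ z → b₀ + 1 ≤ F.R2 → Qv ≤ qt →
    (∃ n₁ : ℕ, ∀ {Γ : Cx} {G : Gm} {R : Nr98} {mt τ0 u : ℕ} {E : ℕ → ℝ} {κ : ℤ × ℤ},
      Win52 μ s kw (c / (32 * l.jl)) n₁ (nm15 μ s c g l G) R Γ G mt τ0 E u κ → ∀ ω, ω ∈ LvA98 μ s c Γ G (nm15 μ s c g l G) R u κ →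
      ω ∈ OuD μ s Γ G E F.r0 (sgm * F.r0) sgm (E u / 16) u κ → Ta42 μ s c Γ G (nm15 μ s c g l G) Qv u κ ω) →
    OkE41 P D μ s (fun _ G _ => nm15 μ s c g l G) (F.nr μ s c) →
    Evn P D μ s (PI19 (Fam98o μ s c P (fun _ G _ => nm15 μ s c g l G) F)
      (rt66 c C (4 * l.jl) (K₁ + 5 * sgm * (F.R2 - 1)) q₀ d₁ z fw (4 * l.jl * (sgm * F.r0 + 1)) qt KM l) P.bS F.bF)

/-- **`PI19` AT THE FAMILIES OF PAGE 694.** -/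
theorem pi66 [IsProbabilityMeasure μ] (h : In μ s c C n₀) (hE9 : ∀ᶠ n : ℕ in Filter.atTop, (n : ℝ) ^ (1 / 9 : ℝ) ≤ EE μ s n) :
    ∃ (Ck : ℝ → ℝ) (K₁ b₀ : ℝ → ℝ → ℝ → ℝ → ℝ → ℝ → ℝ) (Qv : ℕ → ℝ → ℝ → ℝ → ℝ → ℝ → ℕ → ℝ),
      (∀ kw, 0 < Ck kw) ∧ (∀ kw V₁ Re Qe υ sgm, 0 ≤ K₁ kw V₁ Re Qe υ sgm) ∧ (∀ kw V₁ Re Qe υ sgm, 1 ≤ b₀ kw V₁ Re Qe υ sgm) ∧
      (∀ PF θ K qF Q4 Kl j, 0 ≤ Qv PF θ K qF Q4 Kl j) ∧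
      ∀ {P : Pre} {D : Dat} {g : Gc15} {l : Lc15} {F : Cf98} {qt KM U₁ d₁ q₀ z fw : ℝ}, 0 ≤ F.V₁ → 0 ≤ F.Re → 0 ≤ F.Qe → 0 ≤ F.Uw →
        0 ≤ F.sgm → 80 * F.sgm ≤ c → F.bF = F.R1 → 4 ≤ l.KF → 0 < l.th → l.th ≤ 1 / 8 → 0 ≤ l.qF → l.Kl + 2 ≤ F.r0 →
        Nn66 μ s c C P.kw P.bS F.r0 qt KM g l →
        Num37 c |lam μ s| P.kw (Ck P.kw) F.V₁ F.Uw F.Re F.Qe g.Q F.sgm P.bS 2 F.R2 U₁ d₁ q₀ F.R1 (F.R1 - 1) z → 0 ≤ q₀ → 0 ≤ z →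
        b₀ P.kw F.V₁ F.Re F.Qe F.Uw F.sgm + 1 ≤ F.R2 → Qv l.PF l.th l.KF l.qF (F.sgm * F.r0) l.Kl l.jl ≤ qt →
        OkE41 P D μ s (fun _ G _ => nm15 μ s c g l G) (F.nr μ s c) →
        Evn P D μ s (PI19 (Fam98o μ s c P (fun _ G _ => nm15 μ s c g l G) F)
          (rt66 c C (4 * l.jl) (K₁ P.kw F.V₁ F.Re F.Qe F.Uw F.sgm + 5 * F.sgm * (F.R2 - 1)) q₀ d₁ z fw
            (4 * l.jl * (F.sgm * F.r0 + 1)) qt KM l) P.bS F.bF) := by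
  classical
  have k1 : ∀ kw : ℝ, ∃ Ck : ℝ, 0 < Ck ∧ (0 ≤ kw → ∀ V₁ Re Qe υ sgm : ℝ, 0 ≤ V₁ → 0 ≤ Re → 0 ≤ Qe → 0 ≤ υ → 0 ≤ sgm → 80 * sgm ≤ c →
      ∃ K₁ b₀ : ℝ, 0 ≤ K₁ ∧ 1 ≤ b₀ ∧ PiP66 μ s c C kw Ck V₁ Re Qe υ sgm K₁ b₀) := by
    intro kw
    by_cases hk : 0 ≤ kw
    · obtain ⟨Ck, hCk, H⟩ := piT66 h hE9 hk
      exact ⟨Ck, hCk, fun _ V₁ Re Qe υ sgm a1 a2 a3 a4 a5 a6 => H a1 a2 a3 a4 a5 a6⟩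
    · exact ⟨1, one_pos, fun hk' => absurd hk' hk⟩
  choose Ck hCk H1 using k1
  have k2 : ∀ kw V₁ Re Qe υ sgm : ℝ, ∃ K₁ b₀ : ℝ, 0 ≤ K₁ ∧ 1 ≤ b₀ ∧ (0 ≤ kw → 0 ≤ V₁ → 0 ≤ Re → 0 ≤ Qe → 0 ≤ υ → 0 ≤ sgm →
      80 * sgm ≤ c → PiP66 μ s c C kw (Ck kw) V₁ Re Qe υ sgm K₁ b₀) := by
    intro kw V₁ Re Qe υ sgm
    by_cases hc : 0 ≤ kw ∧ 0 ≤ V₁ ∧ 0 ≤ Re ∧ 0 ≤ Qe ∧ 0 ≤ υ ∧ 0 ≤ sgm ∧ 80 * sgm ≤ c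
    · obtain ⟨a0, a1, a2, a3, a4, a5, a6⟩ := hc
      obtain ⟨K₁, b₀, b1, b2, H⟩ := H1 kw a0 V₁ Re Qe υ sgm a1 a2 a3 a4 a5 a6
      exact ⟨K₁, b₀, b1, b2, fun _ _ _ _ _ _ _ => H⟩
    · exact ⟨0, 1, le_rfl, le_rfl, fun a0 a1 a2 a3 a4 a5 a6 => absurd ⟨a0, a1, a2, a3, a4, a5, a6⟩ hc⟩
  choose K₁ b₀ hK₁ hb₀ H2 using k2
  have k3 : ∀ (PF : ℕ) (θ K qF Q4 Kl : ℝ) (j : ℕ), ∃ Qv : ℝ, 0 ≤ Qv ∧ (4 ≤ K → 0 < θ → θ ≤ 1 / 8 → 0 ≤ qF → 0 ≤ Q4 → 0 ≤ Kl → 1 ≤ j →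
      TaP66 μ s c C PF θ K qF Q4 Kl j Qv) := by
    intro PF θ K qF Q4 Kl j
    by_cases hc : 4 ≤ K ∧ 0 < θ ∧ θ ≤ 1 / 8 ∧ 0 ≤ qF ∧ 0 ≤ Q4 ∧ 0 ≤ Kl ∧ 1 ≤ j
    · obtain ⟨a0, a1, a2, a3, a4, a5, a6⟩ := hc
      obtain ⟨Qv, hQv, H⟩ := ta66 h PF a0 a1 a2 a3 a4 a5 a6
      exact ⟨Qv, hQv, fun _ _ _ _ _ _ _ => H⟩
    · exact ⟨0, le_rfl, fun a0 a1 a2 a3 a4 a5 a6 => absurd ⟨a0, a1, a2, a3, a4, a5, a6⟩ hc⟩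
  choose Qv hQv H3 using k3
  refine ⟨Ck, K₁, b₀, Qv, hCk, hK₁, hb₀, hQv, ?_⟩
  intro P D g l F qt KM U₁ d₁ q₀ z fw a1 a2 a3 a4 a5 a6 hbF c1 c2 c3 c4 hr0 Hn hNum hq₀ hz hR2 hQt hN
  have hj : 16 ≤ l.jl := Hn.jl
  have hKl : 0 ≤ l.Kl := by
    have h1 := Hn.kh
    have h2 := P.hkw
    have h3 : 0 ≤ 4 * (l.jl : ℝ) * (P.kw + 1) := by positivity
    linarith
  have hr1 : 0 ≤ F.r0 := by linarith [Hn.r0]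
  have hc0 := h.c0
  refine H2 P.kw F.V₁ F.Re F.Qe F.Uw F.sgm P.hkw a1 a2 a3 a4 a5 a6 (P := P) (D := D) (g := g) (l := l) (F := F) (qt := qt) (KM := KM)
    (Qv := Qv l.PF l.th l.KF l.qF (F.sgm * F.r0) l.Kl l.jl) rfl rfl rfl rfl rfl rfl hbF Hn hNum hq₀ hz hR2 hQt ?_ hN
  exact H3 l.PF l.th l.KF l.qF (F.sgm * F.r0) l.Kl l.jl c1 c2 c3 c4 (mul_nonneg a5 hr1) hKl (by omega) P.hkw rfl rfl rfl rfl rfl rfl a5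
    (by linarith) hr0 Hn

end

end Pool.Agent.W_7d29a1_C1.PiS66
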