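import Mathlib

/-!
# Budget and pigeonhole over thresholds (helper37)

`nu` is any finite measure (think of the weight `W dP` of one contact site), `X i` are
nonnegative depths of damage.  Hypotheses: for every threshold `r < R` the generating function
bound `∫ exp (∑ f_r (X i)) dnu ≤ exp (s m) nu(Ω)`, where `f_r = 0` below `L r`, `- Th r` between
`L r` and `L (r+1)`, `(c/2) X` above `L (r+1)`; and the budget `nu (∑ X > C' m) ≤ tau`.
Conclusion: the heavy damages (`X ≥ L R`) have total depth `< eta m` off a small `nu` mass.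
-/

namespace Pool.Agent.W_7d29a1_C1.Pig37

open MeasureTheory
open scoped BigOperators

/-- the test function of the threshold `r` -/
noncomputable def ff (c : ℝ) (L Th : ℕ → ℝ) (r : ℕ) (x : ℝ) : ℝ :=
  if x < L r then 0 else if x < L (r + 1) then - Th r else (c / 2) * x

/-- number of intermediate depths at the threshold `r` -/
noncomputable def NN {m : ℕ} (L : ℕ → ℝ) (r : ℕ) (x : Fin m → ℝ) : ℝ :=
  ∑ i, if L r ≤ x i ∧ x i < L (r + 1) then (1 : ℝ) else 0

/-- total depth of the damages of depth at least `l` -/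
noncomputable def HH {m : ℕ} (l : ℝ) (x : Fin m → ℝ) : ℝ :=
  ∑ i, if l ≤ x i then x i else 0

lemma sum_ff {m : ℕ} (c : ℝ) (L Th : ℕ → ℝ) (r : ℕ) (x : Fin m → ℝ)
    (hL : L r ≤ L (r + 1)) :
    ∑ i, ff c L Th r (x i) = (c / 2) * HH (L (r + 1)) x - Th r * NN L r x := by
  unfold HH NN
  rw [Finset.mul_sum, Finset.mul_sum, ← Finset.sum_sub_distrib]
  refine Finset.sum_congr rfl fun i _ => ?_
  unfold ff
  by_cases h1 : x i < L r
  · have h2 : ¬ (L (r + 1) ≤ x i) := by push Not; linarith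
    have h3 : ¬ (L r ≤ x i ∧ x i < L (r + 1)) := by
      rintro ⟨h, _⟩; linarith
    simp [h1, h2, h3]
  · by_cases h2 : x i < L (r + 1)
    · have h3 : L r ≤ x i := not_lt.mp h1
      have h4 : ¬ (L (r + 1) ≤ x i) := not_le.mpr h2
      simp only [h1, h2, h3, h4, if_true, if_false, and_self]
      ring
    · have h3 : L (r + 1) ≤ x i := not_lt.mp h2
      simp [h1, h2, h3]

/-- The windows `[L r, L (r+1))`, `r < R`, are disjoint: the budget bounds `∑ L r N_r`. -/
lemma sum_NN {m : ℕ} (L : ℕ → ℝ) (R : ℕ) (x : Fin m → ℝ) (hx : ∀ i, 0 ≤ x i)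
    (hL : Monotone L) :
    ∑ r ∈ Finset.range R, L r * NN L r x ≤ ∑ i, x i := by
  unfold NN
  simp_rw [Finset.mul_sum]
  rw [Finset.sum_comm]
  refine Finset.sum_le_sum fun i _ => ?_
  -- at most one `r` contributes
  by_cases h : ∃ r ∈ Finset.range R, L r ≤ x i ∧ x i < L (r + 1)
  · obtain ⟨r, hr, h1, h2⟩ := h
    have hu : ∀ q ∈ Finset.range R, q ≠ r →
        L q * (if L q ≤ x i ∧ x i < L (q + 1) then (1 : ℝ) else 0) = 0 := by
      intro q _ hq
      have hn : ¬ (L q ≤ x i ∧ x i < L (q + 1)) := by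
        rintro ⟨h3, h4⟩
        rcases lt_or_gt_of_ne hq with h5 | h5
        · have : L (q + 1) ≤ L r := hL (by omega)
          linarith
        · have : L (r + 1) ≤ L q := hL (by omega)
          linarith
      simp [hn]
    rw [Finset.sum_eq_single_of_mem r hr hu]
    simp [h1, h2]
  · push Not at h
    refine le_trans (le_of_eq ?_) (hx i)
    refine Finset.sum_eq_zero fun r hr => ?_
    have : ¬ (L r ≤ x i ∧ x i < L (r + 1)) := by
      rintro ⟨h1, h2⟩
      have := h r hr h1
      linarith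
    simp [this]

/-- deterministic pigeonhole: some threshold sees few intermediate depths -/
lemma pig {m : ℕ} (c Cg C' eta : ℝ) (L Th : ℕ → ℝ) (R : ℕ) (hR : 0 < R) (x : Fin m → ℝ)
    (hc : 0 < c) (hCg : 0 ≤ Cg)
    (hx : ∀ i, 0 ≤ x i) (hL : Monotone L)
    (hTh : ∀ r, Th r ≤ Cg * L r)
    (hbud : ∑ i, x i ≤ C' * m) (hheavy : eta * m ≤ HH (L R) x)
    (hRbig : Cg * C' ≤ (c * eta / 4) * R) :
    ∃ r ∈ Finset.range R, (c * eta / 4) * m ≤ ∑ i, ff c L Th r (x i) := by
  have hR' : (0 : ℝ) < R := by exact_mod_cast hR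
  have hNN : ∀ r, 0 ≤ NN L r x := fun r =>
    Finset.sum_nonneg fun i _ => by split_ifs <;> norm_num
  -- some r has Th r * N_r ≤ Cg C' m / R
  have h1 : ∑ r ∈ Finset.range R, Th r * NN L r x ≤ ∑ _r ∈ Finset.range R, (Cg * C' * m / R) := by
    have h2 : ∑ r ∈ Finset.range R, Th r * NN L r x
        ≤ ∑ r ∈ Finset.range R, Cg * (L r * NN L r x) := by
      refine Finset.sum_le_sum fun r _ => ?_
      have := mul_le_mul_of_nonneg_right (hTh r) (hNN r)
      linarith
    rw [← Finset.mul_sum] at h2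
    have h3 := mul_le_mul_of_nonneg_left (sum_NN L R x hx hL) hCg
    have h4 := mul_le_mul_of_nonneg_left hbud hCg
    rw [Finset.sum_const, Finset.card_range, nsmul_eq_mul]
    have h5 : (R : ℝ) * (Cg * C' * m / R) = Cg * (C' * m) := by field_simp
    linarith
  obtain ⟨r, hr, h2⟩ := Finset.exists_le_of_sum_le
    (Finset.nonempty_range_iff.mpr (Nat.pos_iff_ne_zero.mp hR)) h1
  refine ⟨r, hr, ?_⟩
  have hrR : r + 1 ≤ R := Finset.mem_range.mp hr
  rw [sum_ff c L Th r x (hL (Nat.le_succ r))]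
  have h3 : HH (L R) x ≤ HH (L (r + 1)) x := by
    refine Finset.sum_le_sum fun i _ => ?_
    by_cases h4 : L R ≤ x i
    · have : L (r + 1) ≤ x i := le_trans (hL hrR) h4
      simp [h4, this]
    · simp only [h4, if_false]
      split_ifs
      · exact hx i
      · exact le_rfl
  have h4 : Cg * C' * m / R ≤ (c * eta / 4) * m := by
    rw [div_le_iff₀ hR']
    have := mul_le_mul_of_nonneg_right hRbig (Nat.cast_nonneg (α := ℝ) m)
    linarith
  have h5 : (c / 2) * (eta * m) ≤ (c / 2) * HH (L (r + 1)) x :=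
    mul_le_mul_of_nonneg_left (le_trans hheavy h3) (by positivity)
  linarith

/-- **Budget + pigeonhole.** -/
theorem heavy_small {Ω : Type*} [MeasurableSpace Ω] (nu : Measure Ω) [IsFiniteMeasure nu]
    {m : ℕ} (X : Fin m → Ω → ℝ) (hX0 : ∀ i w, 0 ≤ X i w)
    (c Cg C' eta s tau : ℝ) (L Th : ℕ → ℝ) (R : ℕ) (hR : 0 < R)
    (hc : 0 < c) (hCg : 0 ≤ Cg) (hL : Monotone L) (hTh : ∀ r, Th r ≤ Cg * L r)
    (hRbig : Cg * C' ≤ (c * eta / 4) * R)
    (hint : ∀ r < R, Integrable (fun w => Real.exp (∑ i, ff c L Th r (X i w))) nu)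
    (hgen : ∀ r < R, ∫ w, Real.exp (∑ i, ff c L Th r (X i w)) ∂nu
      ≤ Real.exp (s * m) * nu.real Set.univ)
    (hbud : nu.real {w | C' * m < ∑ i, X i w} ≤ tau) :
    nu.real {w | eta * m ≤ HH (L R) (fun i => X i w)}
      ≤ R * Real.exp (s * m - (c * eta / 4) * m) * nu.real Set.univ + tau := by
  set A : ℕ → Set Ω := fun r => {w | (c * eta / 4) * m ≤ ∑ i, ff c L Th r (X i w)} with hA
  have hsub : {w | eta * m ≤ HH (L R) (fun i => X i w)}
      ⊆ (⋃ r ∈ Finset.range R, A r) ∪ {w | C' * m < ∑ i, X i w} := by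
    intro w hw
    by_cases hb : C' * m < ∑ i, X i w
    · exact Or.inr hb
    · left
      obtain ⟨r, hr, h⟩ := pig c Cg C' eta L Th R hR (fun i => X i w) hc hCg
        (fun i => hX0 i w) hL hTh (not_lt.mp hb) hw hRbig
      simp only [Set.mem_iUnion]
      exact ⟨r, hr, h⟩
  have hmark : ∀ r ∈ Finset.range R, nu.real (A r)
      ≤ Real.exp (s * m - (c * eta / 4) * m) * nu.real Set.univ := by
    intro r hr
    have hr' := Finset.mem_range.mp hr
    have h1 : Real.exp ((c * eta / 4) * m) * nu.real (A r)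
        ≤ ∫ w, Real.exp (∑ i, ff c L Th r (X i w)) ∂nu := by
      have h2 := mul_meas_ge_le_integral_of_nonneg
        (μ := nu) (f := fun w => Real.exp (∑ i, ff c L Th r (X i w)))
        (Filter.Eventually.of_forall fun w => (Real.exp_pos _).le) (hint r hr')
        (Real.exp ((c * eta / 4) * m))
      have h3 : {w | Real.exp ((c * eta / 4) * m) ≤ Real.exp (∑ i, ff c L Th r (X i w))} = A r := by
        ext w; simp [hA, Real.exp_le_exp]
      rw [h3] at h2
      exact h2
    have h4 := hgen r hr'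
    have h5 : Real.exp ((c * eta / 4) * m) * nu.real (A r)
        ≤ Real.exp (s * m) * nu.real Set.univ := le_trans h1 h4
    have hpos := Real.exp_pos ((c * eta / 4) * m)
    rw [sub_eq_add_neg, Real.exp_add, Real.exp_neg]
    rw [mul_assoc, mul_comm (Real.exp ((c * eta / 4) * m))⁻¹ _, ← mul_assoc, ← div_eq_mul_inv,
      le_div_iff₀ hpos, mul_comm]
    exact h5
  calc nu.real {w | eta * m ≤ HH (L R) (fun i => X i w)}
      ≤ nu.real ((⋃ r ∈ Finset.range R, A r) ∪ {w | C' * m < ∑ i, X i w}) :=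
        measureReal_mono hsub
    _ ≤ nu.real (⋃ r ∈ Finset.range R, A r) + nu.real {w | C' * m < ∑ i, X i w} :=
        measureReal_union_le _ _
    _ ≤ ∑ r ∈ Finset.range R, nu.real (A r) + tau := by
        gcongr
        exact measureReal_biUnion_finset_le _ _
    _ ≤ ∑ _r ∈ Finset.range R,
          Real.exp (s * m - (c * eta / 4) * m) * nu.real Set.univ + tau := by
        gcongr with r hr
        exact hmark r hr
    _ = _ := by
        rw [Finset.sum_const, Finset.card_range, nsmul_eq_mul]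
        ring

end Pool.Agent.W_7d29a1_C1.Pig37
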