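import Mathlib.Algebra.BigOperators.Ring.Finset
import Mathlib.Algebra.Order.BigOperators.Ring.Finset
import Mathlib.Data.Real.Basic
import Mathlib.Tactic.Linarith
import Mathlib.Tactic.Positivity
import Mathlib.Tactic.Ring
import Mathlib.Tactic.FieldSimp
import Mathlib.Order.OrderDual

/-!
# Pinching a lane (deterministic, totally positive kernels)

`B j` are the kernels of the blocks `j < b` of a lane (positions at the start of the block `j`: a finite set `X j` of a linear
order), `p j` the standard points, `q j` points to the right of them. `a` is a lower bound of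
`B j (p j) (p (j+1))`, `k` an upper bound of the mass of every start, `d` an upper bound of the mass
of the paths which are to the right of `q` at both ends of the block, `1 / c` a lower bound of the
kernels between the standard points `q` and `p`. If `2 d <= a` then the path can be pinched at
every `p j` at the cost of the constant factor `1 + 8 k ^ 2 c ^ 2`, and the replacement of one block
changes the total weight at most by a constant factor: constants which do not see `b`.
-/

namespace Pool.Agent.W_7d29a1_C1.P12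

open Finset

variable {α : Type*} [LinearOrder α]

/-- The right half of the hypotheses. -/
structure Rt (X : ℕ → Finset α) (B : ℕ → α → α → ℝ) (b : ℕ) (p q : ℕ → α) (a d k c : ℝ) : Prop where
  nn : ∀ j, ∀ z z', 0 ≤ B j z z'
  tp : ∀ j < b, ∀ z y w x, z ≤ w → x ≤ y → B j z y * B j w x ≤ B j z x * B j w y
  pX : ∀ j ≤ b, p j ∈ X j
  qX : ∀ j ≤ b, q j ∈ X j
  pq : ∀ j ≤ b, p j < q j
  a0 : 0 < a
  d0 : 0 ≤ d
  k0 : 0 ≤ k
  c0 : 0 ≤ c
  da : 2 * d ≤ a
  low : ∀ j < b, a ≤ B j (p j) (p (j + 1))
  sup : ∀ j < b, ∀ z ∈ X j, ∑ z' ∈ X (j + 1), B j z z' ≤ k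
  off : ∀ j < b, ∀ z ∈ X j, q j ≤ z → ∑ z' ∈ X (j + 1) with q (j + 1) ≤ z', B j z z' ≤ d
  qp : ∀ j < b, 1 ≤ c * B j (q j) (p (j + 1))
  pq' : ∀ j < b, 1 ≤ c * B j (p j) (q (j + 1))

variable {X : ℕ → Finset α} {B : ℕ → α → α → ℝ} {b : ℕ} {p q : ℕ → α} {a d k c : ℝ}

/-- The majorant of the profile to the right of `p`. -/
noncomputable def bt (X : ℕ → Finset α) (B : ℕ → α → α → ℝ) (q : ℕ → α) (a : ℝ) : ℕ → α → ℝ
  | 0 => fun _ => 0
  | j + 1 => fun z' => B j (q j) z' + a⁻¹ * ∑ z ∈ X j with q j ≤ z, bt X B q a j z * B j z z'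

theorem bt_nn (h : Rt X B b p q a d k c) (j : ℕ) (z : α) : 0 ≤ bt X B q a j z := by
  induction j generalizing z with
  | zero => exact le_rfl
  | succ j ih =>
    have h1 : 0 ≤ ∑ z' ∈ X j with q j ≤ z', bt X B q a j z' * B j z' z :=
      Finset.sum_nonneg fun z' _ => mul_nonneg (ih z') (h.nn j _ _)
    have h2 : 0 ≤ a⁻¹ := (inv_pos.2 h.a0).le
    exact add_nonneg (h.nn j _ _) (mul_nonneg h2 h1)

theorem bt_off (h : Rt X B b p q a d k c) : ∀ j ≤ b, ∑ z ∈ X j with q j ≤ z, bt X B q a j z ≤ 2 * d := by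
  intro j
  induction j with
  | zero =>
    intro _
    have := h.d0
    simp only [bt, Finset.sum_const_zero]
    linarith
  | succ j ih =>
    intro hj
    have ih' := ih (by omega)
    have hjb : j < b := by omega
    have ha := h.a0
    have e1 : ∑ z' ∈ X (j + 1) with q (j + 1) ≤ z', bt X B q a (j + 1) z' =
        ∑ z' ∈ X (j + 1) with q (j + 1) ≤ z', B j (q j) z' +
          a⁻¹ * ∑ z ∈ X j with q j ≤ z, bt X B q a j z * ∑ z' ∈ X (j + 1) with q (j + 1) ≤ z', B j z z' := by
      simp only [bt]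
      rw [Finset.sum_add_distrib, ← Finset.mul_sum, Finset.sum_comm]
      simp only [Finset.mul_sum]
    rw [e1]
    have h1 := h.off j hjb (q j) (h.qX j (by omega)) le_rfl
    have h2 : ∑ z ∈ X j with q j ≤ z, bt X B q a j z * ∑ z' ∈ X (j + 1) with q (j + 1) ≤ z', B j z z' ≤
        ∑ z ∈ X j with q j ≤ z, bt X B q a j z * d := by
      refine Finset.sum_le_sum fun z hz => ?_
      rw [Finset.mem_filter] at hz
      exact mul_le_mul_of_nonneg_left (h.off j hjb z hz.1 hz.2) (bt_nn h j z)
    rw [← Finset.sum_mul] at h2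
    have h3 : (∑ z ∈ X j with q j ≤ z, bt X B q a j z) * d ≤ 2 * d * d :=
      mul_le_mul_of_nonneg_right ih' h.d0
    have h4 : a⁻¹ * (2 * d * d) ≤ d := by
      rw [inv_mul_le_iff₀ ha]
      exact mul_le_mul_of_nonneg_right h.da h.d0
    have h5 := mul_le_mul_of_nonneg_left (h2.trans h3) (inv_pos.2 ha).le
    linarith

theorem bt_all (h : Rt X B b p q a d k c) : ∀ j ≤ b, ∑ z ∈ X j, bt X B q a j z ≤ 2 * k := by
  intro j hj
  have hk := h.k0
  rcases Nat.eq_zero_or_pos j with h0 | h0
  · subst h0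
    simp only [bt, Finset.sum_const_zero]
    linarith
  · obtain ⟨i, rfl⟩ : ∃ i, j = i + 1 := ⟨j - 1, by omega⟩
    have hib : i < b := by omega
    have ha := h.a0
    have e1 : ∑ z' ∈ X (i + 1), bt X B q a (i + 1) z' = ∑ z' ∈ X (i + 1), B i (q i) z' +
          a⁻¹ * ∑ z ∈ X i with q i ≤ z, bt X B q a i z * ∑ z' ∈ X (i + 1), B i z z' := by
      simp only [bt]
      rw [Finset.sum_add_distrib, ← Finset.mul_sum, Finset.sum_comm]
      simp only [Finset.mul_sum]
    rw [e1]
    have h1 := h.sup i hib (q i) (h.qX i (by omega))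
    have h2 : ∑ z ∈ X i with q i ≤ z, bt X B q a i z * ∑ z' ∈ X (i + 1), B i z z' ≤
        ∑ z ∈ X i with q i ≤ z, bt X B q a i z * k := by
      refine Finset.sum_le_sum fun z hz => ?_
      rw [Finset.mem_filter] at hz
      exact mul_le_mul_of_nonneg_left (h.sup i hib z hz.1) (bt_nn h i z)
    rw [← Finset.sum_mul] at h2
    have h3 : (∑ z ∈ X i with q i ≤ z, bt X B q a i z) * k ≤ 2 * d * k :=
      mul_le_mul_of_nonneg_right (bt_off h i (by omega)) hk
    have h4 : a⁻¹ * (2 * d * k) ≤ k := by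
      rw [inv_mul_le_iff₀ ha]
      exact mul_le_mul_of_nonneg_right h.da hk
    have h5 := mul_le_mul_of_nonneg_left (h2.trans h3) (inv_pos.2 ha).le
    linarith

/-- The forward masses. -/
structure Fw (X : ℕ → Finset α) (B : ℕ → α → α → ℝ) (b : ℕ) (p : ℕ → α) (A : ℕ → α → ℝ) : Prop where
  nn : ∀ j z, 0 ≤ A j z
  ini : ∀ z ∈ X 0, z ≠ p 0 → A 0 z = 0
  rc : ∀ j < b, ∀ z' ∈ X (j + 1), A (j + 1) z' = ∑ z ∈ X j, A j z * B j z z'

/-- The backward masses. -/
structure Bw (X : ℕ → Finset α) (B : ℕ → α → α → ℝ) (b : ℕ) (p : ℕ → α) (C : ℕ → α → ℝ) : Prop where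
  nn : ∀ j z, 0 ≤ C j z
  fin : ∀ z ∈ X b, z ≠ p b → C b z = 0
  rc : ∀ j < b, ∀ z ∈ X j, C j z = ∑ z' ∈ X (j + 1), B j z z' * C (j + 1) z'

theorem Fw.step (h : Rt X B b p q a d k c) {A : ℕ → α → ℝ} (hA : Fw X B b p A) {j : ℕ} (hj : j < b) :
    a * A j (p j) ≤ A (j + 1) (p (j + 1)) := by
  rw [hA.rc j hj _ (h.pX _ (by omega))]
  have h1 := Finset.single_le_sum (f := fun z => A j z * B j z (p (j + 1)))
    (fun z _ => mul_nonneg (hA.nn j z) (h.nn j _ _)) (h.pX j (by omega))
  have h2 := mul_le_mul_of_nonneg_left (h.low j hj) (hA.nn j (p j))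
  linarith

theorem Bw.step (h : Rt X B b p q a d k c) {C : ℕ → α → ℝ} (hC : Bw X B b p C) {j : ℕ} (hj : j < b) :
    a * C (j + 1) (p (j + 1)) ≤ C j (p j) := by
  rw [hC.rc j hj _ (h.pX _ (by omega))]
  have h1 := Finset.single_le_sum (f := fun z' => B j (p j) z' * C (j + 1) z')
    (fun z _ => mul_nonneg (h.nn j _ _) (hC.nn _ z)) (h.pX (j + 1) (by omega))
  have h2 := mul_le_mul_of_nonneg_right (h.low j hj) (hC.nn (j + 1) (p (j + 1)))
  linarith

/-- The forward profile to the right of `p`. -/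
theorem fw_right (h : Rt X B b p q a d k c) {A : ℕ → α → ℝ} (hA : Fw X B b p A) :
    ∀ j ≤ b, ∀ z ∈ X j, p j < z → A j z ≤ c * A j (p j) * bt X B q a j z := by
  intro j
  induction j with
  | zero =>
    intro _ z hz hpz
    rw [hA.ini z hz hpz.ne']
    simp [bt]
  | succ j ih =>
    intro hj z' hz' hp
    have hjb : j < b := by omega
    have ih' := ih (by omega)
    have ha := h.a0
    have hP := hA.nn (j + 1) (p (j + 1))
    rw [hA.rc j hjb z' hz', ← Finset.sum_filter_add_sum_filter_not (X j) (fun z => q j ≤ z)]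
    -- the paths to the left of `q`
    have h1 : ∑ z ∈ X j with ¬ q j ≤ z, A j z * B j z z' ≤ c * A (j + 1) (p (j + 1)) * B j (q j) z' := by
      calc ∑ z ∈ X j with ¬ q j ≤ z, A j z * B j z z'
          ≤ ∑ z ∈ X j with ¬ q j ≤ z, A j z * (c * (B j z (p (j + 1)) * B j (q j) z')) := by
            refine Finset.sum_le_sum fun z hz => ?_
            rw [Finset.mem_filter, not_le] at hz
            refine mul_le_mul_of_nonneg_left ?_ (hA.nn j z)
            have h2 := h.tp j hjb z z' (q j) (p (j + 1)) hz.2.le hp.le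
            have h3 := mul_le_mul_of_nonneg_left (h.qp j hjb) (h.nn j z z')
            have h4 := mul_le_mul_of_nonneg_left h2 h.c0
            calc B j z z' = B j z z' * 1 := (mul_one _).symm
              _ ≤ B j z z' * (c * B j (q j) (p (j + 1))) := h3
              _ = c * (B j z z' * B j (q j) (p (j + 1))) := by ring
              _ ≤ _ := h4
        _ = c * B j (q j) z' * ∑ z ∈ X j with ¬ q j ≤ z, A j z * B j z (p (j + 1)) := by
            rw [Finset.mul_sum]
            refine Finset.sum_congr rfl fun z _ => ?_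
            ring
        _ ≤ c * B j (q j) z' * A (j + 1) (p (j + 1)) := by
            refine mul_le_mul_of_nonneg_left ?_ (mul_nonneg h.c0 (h.nn _ _ _))
            rw [hA.rc j hjb _ (h.pX _ (by omega))]
            exact Finset.sum_le_sum_of_subset_of_nonneg (Finset.filter_subset _ _)
              fun z _ _ => mul_nonneg (hA.nn j z) (h.nn j _ _)
        _ = _ := by ring
    -- the paths to the right of `q`
    have h2 : ∑ z ∈ X j with q j ≤ z, A j z * B j z z' ≤
        c * A (j + 1) (p (j + 1)) * (a⁻¹ * ∑ z ∈ X j with q j ≤ z, bt X B q a j z * B j z z') := by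
      have h3 : A j (p j) ≤ a⁻¹ * A (j + 1) (p (j + 1)) := by
        rw [le_inv_mul_iff₀ ha]
        exact hA.step h hjb
      calc ∑ z ∈ X j with q j ≤ z, A j z * B j z z'
          ≤ ∑ z ∈ X j with q j ≤ z, c * (a⁻¹ * A (j + 1) (p (j + 1))) * (bt X B q a j z * B j z z') := by
            refine Finset.sum_le_sum fun z hz => ?_
            rw [Finset.mem_filter] at hz
            have h4 := ih' z hz.1 ((h.pq j (by omega)).trans_le hz.2)
            have h5 : c * A j (p j) * bt X B q a j z ≤ c * (a⁻¹ * A (j + 1) (p (j + 1))) * bt X B q a j z :=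
              mul_le_mul_of_nonneg_right (mul_le_mul_of_nonneg_left h3 h.c0) (bt_nn h j z)
            have h6 := mul_le_mul_of_nonneg_right (h4.trans h5) (h.nn j z z')
            linarith
        _ = c * A (j + 1) (p (j + 1)) * (a⁻¹ * ∑ z ∈ X j with q j ≤ z, bt X B q a j z * B j z z') := by
            rw [Finset.mul_sum, Finset.mul_sum]
            refine Finset.sum_congr rfl fun z _ => ?_
            ring
    have e3 : c * A (j + 1) (p (j + 1)) * bt X B q a (j + 1) z' = c * A (j + 1) (p (j + 1)) * B j (q j) z' +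
        c * A (j + 1) (p (j + 1)) * (a⁻¹ * ∑ z ∈ X j with q j ≤ z, bt X B q a j z * B j z z') := by
      simp only [bt]
      ring
    rw [e3]
    linarith

/-- The backward profile to the right of `p`. -/
theorem bw_right (h : Rt X B b p q a d k c) {C : ℕ → α → ℝ} (hC : Bw X B b p C) (i : ℕ) : i ≤ b →
    (∀ z ∈ X (b - i), q (b - i) ≤ z → C (b - i) z ≤ 2 * d * c * C (b - i) (p (b - i))) ∧
      ∀ z ∈ X (b - i), p (b - i) < z → C (b - i) z ≤ 2 * k * c * C (b - i) (p (b - i)) := by
  induction i with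
  | zero =>
    intro _
    have hd := h.d0
    have hk := h.k0
    have hc := h.c0
    have h0 := hC.nn b (p b)
    simp only [Nat.sub_zero]
    refine ⟨fun z hz hq => ?_, fun z hz hp => ?_⟩
    · rw [hC.fin z hz ((h.pq b le_rfl).trans_le hq).ne']
      positivity
    · rw [hC.fin z hz hp.ne']
      positivity
  | succ i ih =>
    intro hi
    obtain ⟨ih1, -⟩ := ih (by omega)
    obtain ⟨j, hj⟩ : ∃ j, j = b - (i + 1) := ⟨_, rfl⟩
    have hj1 : b - i = j + 1 := by omega
    have hjb : j < b := by omega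
    rw [hj1] at ih1
    rw [← hj]
    have ha := h.a0
    have hP := hC.nn j (p j)
    have hP1 := hC.nn (j + 1) (p (j + 1))
    have hst : C (j + 1) (p (j + 1)) ≤ a⁻¹ * C j (p j) := by
      rw [le_inv_mul_iff₀ ha]
      exact hC.step h hjb
    -- the general bound
    have key : ∀ z ∈ X j, p j < z → ∀ m : ℝ, 0 ≤ m → ∑ z' ∈ X (j + 1) with q (j + 1) ≤ z', B j z z' ≤ m →
        C j z ≤ 2 * m * c * C j (p j) := by
      intro z hz hp m hm hs
      rw [hC.rc j hjb z hz, ← Finset.sum_filter_add_sum_filter_not (X (j + 1)) (fun z' => q (j + 1) ≤ z')]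
      have h1 : ∑ z' ∈ X (j + 1) with ¬ q (j + 1) ≤ z', B j z z' * C (j + 1) z' ≤ m * c * C j (p j) := by
        calc ∑ z' ∈ X (j + 1) with ¬ q (j + 1) ≤ z', B j z z' * C (j + 1) z'
            ≤ ∑ z' ∈ X (j + 1) with ¬ q (j + 1) ≤ z', c * B j z (q (j + 1)) * (B j (p j) z' * C (j + 1) z') := by
              refine Finset.sum_le_sum fun z' hz' => ?_
              rw [Finset.mem_filter, not_le] at hz'
              have h2 := h.tp j hjb (p j) (q (j + 1)) z z' hp.le hz'.2.le
              have h3 := mul_le_mul_of_nonneg_left (h.pq' j hjb) (h.nn j z z')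
              have h4 := mul_le_mul_of_nonneg_left h2 h.c0
              have h5 : B j z z' ≤ c * B j z (q (j + 1)) * B j (p j) z' := by
                calc B j z z' = B j z z' * 1 := (mul_one _).symm
                  _ ≤ B j z z' * (c * B j (p j) (q (j + 1))) := h3
                  _ = c * (B j (p j) (q (j + 1)) * B j z z') := by ring
                  _ ≤ c * (B j (p j) z' * B j z (q (j + 1))) := h4
                  _ = _ := by ring
              have h6 := mul_le_mul_of_nonneg_right h5 (hC.nn (j + 1) z')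
              linarith
          _ = c * B j z (q (j + 1)) * ∑ z' ∈ X (j + 1) with ¬ q (j + 1) ≤ z', B j (p j) z' * C (j + 1) z' := by
              rw [Finset.mul_sum]
          _ ≤ c * B j z (q (j + 1)) * C j (p j) := by
              refine mul_le_mul_of_nonneg_left ?_ (mul_nonneg h.c0 (h.nn _ _ _))
              rw [hC.rc j hjb _ (h.pX j (by omega))]
              exact Finset.sum_le_sum_of_subset_of_nonneg (Finset.filter_subset _ _)
                fun z' _ _ => mul_nonneg (h.nn j _ _) (hC.nn _ z')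
          _ ≤ c * m * C j (p j) := by
              refine mul_le_mul_of_nonneg_right (mul_le_mul_of_nonneg_left ?_ h.c0) hP
              refine le_trans ?_ hs
              exact Finset.single_le_sum (f := fun z' => B j z z') (fun z' _ => h.nn j _ _)
                (Finset.mem_filter.2 ⟨h.qX (j + 1) (by omega), le_rfl⟩)
          _ = _ := by ring
      have h2 : ∑ z' ∈ X (j + 1) with q (j + 1) ≤ z', B j z z' * C (j + 1) z' ≤ m * c * C j (p j) := by
        calc ∑ z' ∈ X (j + 1) with q (j + 1) ≤ z', B j z z' * C (j + 1) z'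
            ≤ ∑ z' ∈ X (j + 1) with q (j + 1) ≤ z', B j z z' * (2 * d * c * C (j + 1) (p (j + 1))) := by
              refine Finset.sum_le_sum fun z' hz' => ?_
              rw [Finset.mem_filter] at hz'
              exact mul_le_mul_of_nonneg_left (ih1 z' hz'.1 hz'.2) (h.nn j _ _)
          _ = (∑ z' ∈ X (j + 1) with q (j + 1) ≤ z', B j z z') * (2 * d * c * C (j + 1) (p (j + 1))) := by
              rw [Finset.sum_mul]
          _ ≤ m * (2 * d * c * C (j + 1) (p (j + 1))) := by
              refine mul_le_mul_of_nonneg_right hs ?_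
              have := h.d0
              have := h.c0
              positivity
          _ ≤ m * (2 * d * c * (a⁻¹ * C j (p j))) := by
              refine mul_le_mul_of_nonneg_left (mul_le_mul_of_nonneg_left hst ?_) hm
              have := h.d0
              have := h.c0
              positivity
          _ = (a⁻¹ * (2 * d)) * (m * c * C j (p j)) := by ring
          _ ≤ 1 * (m * c * C j (p j)) := by
              refine mul_le_mul_of_nonneg_right ?_ (mul_nonneg (mul_nonneg hm h.c0) hP)
              rw [inv_mul_le_iff₀ ha, mul_one]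
              exact h.da
          _ = _ := one_mul _
      linarith
    refine ⟨fun z hz hq => ?_, fun z hz hp => ?_⟩
    · exact key z hz ((h.pq j (by omega)).trans_le hq) d h.d0 (h.off j hjb z hz hq)
    · refine key z hz hp k h.k0 (le_trans ?_ (h.sup j hjb z hz))
      exact Finset.sum_le_sum_of_subset_of_nonneg (Finset.filter_subset _ _) fun z' _ _ => h.nn j _ _

theorem bw_right' (h : Rt X B b p q a d k c) {C : ℕ → α → ℝ} (hC : Bw X B b p C) {j : ℕ} (hj : j ≤ b)
    {z : α} (hz : z ∈ X j) (hp : p j < z) : C j z ≤ 2 * k * c * C j (p j) := by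
  have h1 := (bw_right h hC (b - j) (by omega)).2
  rw [Nat.sub_sub_self hj] at h1
  exact h1 z hz hp

/-- **The right half of the pinching.** -/
theorem pin_right (h : Rt X B b p q a d k c) {A C : ℕ → α → ℝ} (hA : Fw X B b p A) (hC : Bw X B b p C)
    {j : ℕ} (hj : j ≤ b) : ∑ z ∈ X j with p j < z, A j z * C j z ≤ 4 * k ^ 2 * c ^ 2 * (A j (p j) * C j (p j)) := by
  have hk := h.k0
  have hc := h.c0
  have hAp := hA.nn j (p j)
  have hCp := hC.nn j (p j)
  calc ∑ z ∈ X j with p j < z, A j z * C j z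
      ≤ ∑ z ∈ X j with p j < z, (c * A j (p j) * bt X B q a j z) * (2 * k * c * C j (p j)) := by
        refine Finset.sum_le_sum fun z hz => ?_
        rw [Finset.mem_filter] at hz
        refine mul_le_mul (fw_right h hA j hj z hz.1 hz.2) (bw_right' h hC hj hz.1 hz.2) (hC.nn _ _) ?_
        exact mul_nonneg (mul_nonneg hc hAp) (bt_nn h j z)
    _ = (c * A j (p j) * (2 * k * c * C j (p j))) * ∑ z ∈ X j with p j < z, bt X B q a j z := by
        rw [Finset.mul_sum]
        refine Finset.sum_congr rfl fun z _ => ?_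
        ring
    _ ≤ (c * A j (p j) * (2 * k * c * C j (p j))) * (2 * k) := by
        refine mul_le_mul_of_nonneg_left ?_ (by positivity)
        refine le_trans ?_ (bt_all h j hj)
        exact Finset.sum_le_sum_of_subset_of_nonneg (Finset.filter_subset _ _) fun z _ _ => bt_nn h j z
    _ = _ := by ring

/-- Both halves: `q` to the right, `q'` to the left. -/
structure Ln (X : ℕ → Finset α) (B : ℕ → α → α → ℝ) (b : ℕ) (p q q' : ℕ → α) (a d k c : ℝ) : Prop where
  rt : Rt X B b p q a d k c
  lt : Rt (α := αᵒᵈ) X B b p q' a d k c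

variable {q' : ℕ → α}

theorem pin_left (h : Ln X B b p q q' a d k c) {A C : ℕ → α → ℝ} (hA : Fw X B b p A) (hC : Bw X B b p C)
    {j : ℕ} (hj : j ≤ b) : ∑ z ∈ X j with z < p j, A j z * C j z ≤ 4 * k ^ 2 * c ^ 2 * (A j (p j) * C j (p j)) := by
  have hA' : Fw (α := αᵒᵈ) X B b p A := ⟨hA.nn, hA.ini, hA.rc⟩
  have hC' : Bw (α := αᵒᵈ) X B b p C := ⟨hC.nn, hC.fin, hC.rc⟩
  exact pin_right h.lt hA' hC' hj

theorem bw_left (h : Ln X B b p q q' a d k c) {C : ℕ → α → ℝ} (hC : Bw X B b p C) {j : ℕ} (hj : j ≤ b)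
    {z : α} (hz : z ∈ X j) (hp : z < p j) : C j z ≤ 2 * k * c * C j (p j) := by
  have hC' : Bw (α := αᵒᵈ) X B b p C := ⟨hC.nn, hC.fin, hC.rc⟩
  exact bw_right' h.lt hC' hj hz hp

/-- **THE PINCHING.** -/
theorem pin (h : Ln X B b p q q' a d k c) {A C : ℕ → α → ℝ} (hA : Fw X B b p A) (hC : Bw X B b p C)
    {j : ℕ} (hj : j ≤ b) : ∑ z ∈ X j, A j z * C j z ≤ (1 + 8 * k ^ 2 * c ^ 2) * (A j (p j) * C j (p j)) := by
  have h1 := pin_right h.rt hA hC hj
  have h2 := pin_left h hA hC hj
  have e1 : ∑ z ∈ X j, A j z * C j z = ∑ z ∈ X j with p j < z, A j z * C j z +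
      (∑ z ∈ X j with z < p j, A j z * C j z + A j (p j) * C j (p j)) := by
    rw [← Finset.sum_filter_add_sum_filter_not (X j) (fun z => p j < z)]
    congr 1
    have e2 : ((X j).filter fun z => ¬ p j < z) = insert (p j) ((X j).filter fun z => z < p j) := by
      ext z
      simp only [Finset.mem_filter, Finset.mem_insert, not_lt]
      constructor
      · rintro ⟨hz, hz'⟩
        rcases hz'.eq_or_lt with h3 | h3
        · exact Or.inl h3
        · exact Or.inr ⟨hz, h3⟩
      · rintro (rfl | ⟨hz, hz'⟩)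
        · exact ⟨h.rt.pX j hj, le_rfl⟩
        · exact ⟨hz, hz'.le⟩
    rw [e2, Finset.sum_insert (by simp)]
    ring
  rw [e1]
  linarith

/-- The backward masses of all points against the one of `p`. -/
theorem bw_all (h : Ln X B b p q q' a d k c) {C : ℕ → α → ℝ} (hC : Bw X B b p C) {j : ℕ} (hj : j ≤ b)
    {z : α} (hz : z ∈ X j) : C j z ≤ (1 + 2 * k * c) * C j (p j) := by
  have hk := h.rt.k0
  have hc := h.rt.c0
  have h0 := hC.nn j (p j)
  have hkc : 0 ≤ 2 * k * c := by positivity
  rcases lt_trichotomy z (p j) with h1 | h1 | h1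
  · have := bw_left h hC hj hz h1
    linarith
  · subst h1
    have := mul_nonneg hkc h0
    linarith
  · have := bw_right' h.rt hC hj hz h1
    linarith

/-- **THE INFLUENCE OF ONE BLOCK.** `A` = forward masses up to the block `i`, `C` = backward masses
behind the block `i`; `B'` and `B` are the kernels of the block `i` in the two environments; the
first one belongs to a good lane. -/
theorem influence (h : Ln X B b p q q' a d k c) {A C : ℕ → α → ℝ} (hA : Fw X B b p A) (hC : Bw X B b p C)
    {i : ℕ} (hi : i < b) {K : α → α → ℝ} (hK : ∀ z z', 0 ≤ K z z') (hKp : a ≤ K (p i) (p (i + 1))) :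
    a * ∑ z ∈ X i, A i z * C i z ≤ (1 + 8 * k ^ 2 * c ^ 2) * ((1 + 2 * k * c) * k) *
      ∑ z ∈ X i, A i z * ∑ z' ∈ X (i + 1), K z z' * C (i + 1) z' := by
  have hk := h.rt.k0
  have hc := h.rt.c0
  have ha := h.rt.a0
  have hAp := hA.nn i (p i)
  have hCp := hC.nn (i + 1) (p (i + 1))
  have h1 := pin h hA hC hi.le
  have h2 : C i (p i) ≤ k * ((1 + 2 * k * c) * C (i + 1) (p (i + 1))) := by
    rw [hC.rc i hi _ (h.rt.pX i hi.le)]
    calc ∑ z' ∈ X (i + 1), B i (p i) z' * C (i + 1) z'
        ≤ ∑ z' ∈ X (i + 1), B i (p i) z' * ((1 + 2 * k * c) * C (i + 1) (p (i + 1))) := by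
          refine Finset.sum_le_sum fun z' hz' => ?_
          exact mul_le_mul_of_nonneg_left (bw_all h hC hi hz') (h.rt.nn i _ _)
      _ = (∑ z' ∈ X (i + 1), B i (p i) z') * ((1 + 2 * k * c) * C (i + 1) (p (i + 1))) := by rw [Finset.sum_mul]
      _ ≤ _ := mul_le_mul_of_nonneg_right (h.rt.sup i hi _ (h.rt.pX i hi.le)) (by positivity)
  have h3 : a * (A i (p i) * C (i + 1) (p (i + 1))) ≤ ∑ z ∈ X i, A i z * ∑ z' ∈ X (i + 1), K z z' * C (i + 1) z' := by
    have h4 := Finset.single_le_sum (f := fun z' => K (p i) z' * C (i + 1) z')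
      (fun z' _ => mul_nonneg (hK _ _) (hC.nn _ z')) (h.rt.pX (i + 1) hi)
    have h5 := Finset.single_le_sum (f := fun z => A i z * ∑ z' ∈ X (i + 1), K z z' * C (i + 1) z')
      (fun z _ => mul_nonneg (hA.nn i z) (Finset.sum_nonneg fun z' _ => mul_nonneg (hK _ _) (hC.nn _ z')))
      (h.rt.pX i hi.le)
    refine le_trans ?_ h5
    have h6 := mul_le_mul_of_nonneg_right hKp hCp
    have h7 := mul_le_mul_of_nonneg_left (h6.trans h4) hAp
    linarith
  have hf : 0 ≤ 1 + 8 * k ^ 2 * c ^ 2 := by positivity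
  have hg : 0 ≤ (1 + 2 * k * c) * k := by positivity
  have h8 : A i (p i) * C i (p i) ≤ (1 + 2 * k * c) * k * (A i (p i) * C (i + 1) (p (i + 1))) := by
    have := mul_le_mul_of_nonneg_left h2 hAp
    linarith
  have h9 := mul_le_mul_of_nonneg_left h8 hf
  calc a * ∑ z ∈ X i, A i z * C i z
      ≤ a * ((1 + 8 * k ^ 2 * c ^ 2) * ((1 + 2 * k * c) * k * (A i (p i) * C (i + 1) (p (i + 1))))) :=
        mul_le_mul_of_nonneg_left (h1.trans h9) ha.le
    _ = (1 + 8 * k ^ 2 * c ^ 2) * ((1 + 2 * k * c) * k) * (a * (A i (p i) * C (i + 1) (p (i + 1)))) := by ring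
    _ ≤ _ := mul_le_mul_of_nonneg_left h3 (mul_nonneg hf hg)

end Pool.Agent.W_7d29a1_C1.P12
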