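import Pool.Agent.W_7d29a1_C1.Pin12

/-!
# The cell level of a pinched lane (deterministic, totally positive kernels)

Over `Pin12`: `It n j z y` = mass of the paths of `n` blocks from `z` at the row `j` to `y` (through the collars `X`). If the TOTAL mass of
every start to the right of `q` (to the left of `q'`) is at most `d`, `2 d ≤ a`, then for ALL `x` in the first and ALL `y` in the last
collar `It b 0 x y ≤ (1 + 2 k c) ^ 2 * It b 0 (p 0) (p b)`: the level of the lane is the level of its cells. No power of the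
number of the sites, no `b`. (helper71)
-/

set_option autoImplicit false

namespace Pool.Agent.W_7d29a1_C1.P12

open Finset

/-- The mass of the paths of `n` blocks from the position `z` at the row `j` to the position `y`. -/
noncomputable def It {α : Type*} (X : ℕ → Finset α) (B : ℕ → α → α → ℝ) : ℕ → ℕ → α → α → ℝ
  | 0, _, z, y => by classical exact if z = y then 1 else 0
  | n + 1, j, z, y => ∑ z' ∈ X (j + 1), B j z z' * It X B n (j + 1) z' y

section gen

variable {α : Type*} {X : ℕ → Finset α} {B : ℕ → α → α → ℝ}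

theorem It_zero_self (j : ℕ) (z : α) : It X B 0 j z z = 1 := by
  classical
  show (if z = z then (1 : ℝ) else 0) = 1
  rw [if_pos rfl]

theorem It_zero_ne (j : ℕ) {z y : α} (h : z ≠ y) : It X B 0 j z y = 0 := by
  classical
  show (if z = y then (1 : ℝ) else 0) = 0
  rw [if_neg h]

theorem It_zero_le (j : ℕ) (z y : α) : It X B 0 j z y ≤ 1 := by
  by_cases h : z = y
  · rw [h, It_zero_self]
  · rw [It_zero_ne j h]
    exact zero_le_one

theorem It_succ (n j : ℕ) (z y : α) : It X B (n + 1) j z y = ∑ z' ∈ X (j + 1), B j z z' * It X B n (j + 1) z' y := rfl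

theorem It_nn (hB : ∀ j z z', 0 ≤ B j z z') : ∀ (n j : ℕ) (z y : α), 0 ≤ It X B n j z y
  | 0, j, z, y => by
    by_cases h : z = y
    · rw [h, It_zero_self]
      exact zero_le_one
    · rw [It_zero_ne j h]
  | n + 1, j, z, y => Finset.sum_nonneg fun z' _ => mul_nonneg (hB _ _ _) (It_nn hB n (j + 1) z' y)

theorem It_one (j : ℕ) (z : α) {y : α} (hy : y ∈ X (j + 1)) : It X B 1 j z y = B j z y := by
  rw [It_succ, Finset.sum_eq_single y]
  · rw [It_zero_self, mul_one]
  · intro u _ hu
    rw [It_zero_ne _ hu, mul_zero]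
  · intro h
    exact absurd hy h

/-- The last block. -/
theorem It_succ' : ∀ (n j : ℕ) {x : α}, x ∈ X j → ∀ y ∈ X (j + n + 1),
    It X B (n + 1) j x y = ∑ z ∈ X (j + n), It X B n j x z * B (j + n) z y
  | 0, j, x, hx, y, hy => by
    rw [It_one j x hy, Finset.sum_eq_single x]
    · rw [It_zero_self, one_mul]
      rfl
    · intro u _ hu
      rw [It_zero_ne _ (Ne.symm hu), zero_mul]
    · intro h
      exact absurd hx h
  | n + 1, j, x, _, y, hy => by
    have e : j + 1 + n = j + (n + 1) := by omega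
    rw [It_succ]
    have h1 : ∀ z' ∈ X (j + 1), B j x z' * It X B (n + 1) (j + 1) z' y =
        ∑ z ∈ X (j + (n + 1)), B j x z' * (It X B n (j + 1) z' z * B (j + (n + 1)) z y) := by
      intro z' hz'
      rw [It_succ' n (j + 1) hz' y (by rw [e]; exact hy), Finset.mul_sum, e]
    rw [Finset.sum_congr rfl h1, Finset.sum_comm]
    refine Finset.sum_congr rfl fun z _ => ?_
    rw [It_succ, Finset.sum_mul]
    exact Finset.sum_congr rfl fun z' _ => by ring

theorem It_shift (i : ℕ) : ∀ (n j : ℕ) (z y : α), It (fun j => X (i + j)) (fun j => B (i + j)) n j z y = It X B n (i + j) z y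
  | 0, j, z, y => rfl
  | n + 1, j, z, y => by
    rw [It_succ, It_succ]
    exact Finset.sum_congr rfl fun z' _ => by
      rw [It_shift i n (j + 1) z' y]
      rfl

end gen

variable {α : Type*} [LinearOrder α]

/-- Composition of totally positive kernels over a finite set (Cauchy - Binet). -/
theorem tp_comp {K L : α → α → ℝ} (hK : ∀ z y w x, z ≤ w → x ≤ y → K z y * K w x ≤ K z x * K w y)
    (hL : ∀ z y w x, z ≤ w → x ≤ y → L z y * L w x ≤ L z x * L w y) (S : Finset α) (z y w x : α) (hzw : z ≤ w) (hxy : x ≤ y) :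
    (∑ u ∈ S, K z u * L u y) * (∑ u ∈ S, K w u * L u x) ≤ (∑ u ∈ S, K z u * L u x) * (∑ u ∈ S, K w u * L u y) := by
  have e1 : (∑ u ∈ S, K z u * L u x) * (∑ u ∈ S, K w u * L u y) - (∑ u ∈ S, K z u * L u y) * (∑ u ∈ S, K w u * L u x) =
      ∑ u ∈ S, ∑ v ∈ S, K z u * K w v * (L u x * L v y - L u y * L v x) := by
    rw [Finset.sum_mul_sum, Finset.sum_mul_sum, ← Finset.sum_sub_distrib]
    refine Finset.sum_congr rfl fun u _ => ?_
    rw [← Finset.sum_sub_distrib]
    exact Finset.sum_congr rfl fun v _ => by ring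
  have e2 : ∑ u ∈ S, ∑ v ∈ S, K z u * K w v * (L u x * L v y - L u y * L v x) =
      ∑ u ∈ S, ∑ v ∈ S, K z v * K w u * (L v x * L u y - L v y * L u x) := by
    rw [Finset.sum_comm]
  have h3 : 0 ≤ ∑ u ∈ S, ∑ v ∈ S, (K z u * K w v - K z v * K w u) * (L u x * L v y - L u y * L v x) := by
    refine Finset.sum_nonneg fun u _ => Finset.sum_nonneg fun v _ => ?_
    rcases le_total u v with huv | huv
    · have h4 := hK z v w u hzw huv
      have h5 := hL u y v x huv hxy
      exact mul_nonneg (by linarith) (by linarith)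
    · have h4 := hK z u w v hzw huv
      have h5 := hL v y u x huv hxy
      exact mul_nonneg_of_nonpos_of_nonpos (by linarith) (by linarith)
  have e4 : ∑ u ∈ S, ∑ v ∈ S, (K z u * K w v - K z v * K w u) * (L u x * L v y - L u y * L v x) =
      ∑ u ∈ S, ∑ v ∈ S, K z u * K w v * (L u x * L v y - L u y * L v x) +
        ∑ u ∈ S, ∑ v ∈ S, K z v * K w u * (L v x * L u y - L v y * L u x) := by
    rw [← Finset.sum_add_distrib]
    refine Finset.sum_congr rfl fun u _ => ?_
    rw [← Finset.sum_add_distrib]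
    exact Finset.sum_congr rfl fun v _ => by ring
  rw [e4, ← e2, ← e1] at h3
  linarith

variable {X : ℕ → Finset α} {B : ℕ → α → α → ℝ} {b : ℕ} {p q q' : ℕ → α} {a d k c : ℝ}

theorem It_tp (h : Rt X B b p q a d k c) : ∀ (n j : ℕ), j + n ≤ b → ∀ z y w x, z ≤ w → x ≤ y →
    It X B n j z y * It X B n j w x ≤ It X B n j z x * It X B n j w y
  | 0, j, _, z, y, w, x, hzw, hxy => by
    by_cases h1 : z = y
    · by_cases h2 : w = x
      · have h3 : z = w := le_antisymm hzw (by rw [h2, h1]; exact hxy)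
        have h4 : x = y := by rw [← h2, ← h3, h1]
        rw [h4]
      · rw [It_zero_ne j h2, mul_zero]
        exact mul_nonneg (It_nn h.nn _ _ _ _) (It_nn h.nn _ _ _ _)
    · rw [It_zero_ne j h1, zero_mul]
      exact mul_nonneg (It_nn h.nn _ _ _ _) (It_nn h.nn _ _ _ _)
  | n + 1, j, hj, z, y, w, x, hzw, hxy =>
    tp_comp (h.tp j (by omega)) (It_tp h n (j + 1) (by omega)) (X (j + 1)) z y w x hzw hxy

/-- The hypotheses from the row `i` on. -/
theorem Rt.shift (h : Rt X B b p q a d k c) {i : ℕ} (hi : i ≤ b) :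
    Rt (fun j => X (i + j)) (fun j => B (i + j)) (b - i) (fun j => p (i + j)) (fun j => q (i + j)) a d k c where
  nn := fun j => h.nn _
  tp := fun j hj => h.tp (i + j) (by omega)
  pX := fun j hj => h.pX (i + j) (by omega)
  qX := fun j hj => h.qX (i + j) (by omega)
  pq := fun j hj => h.pq (i + j) (by omega)
  a0 := h.a0
  d0 := h.d0
  k0 := h.k0
  c0 := h.c0
  da := h.da
  low := fun j hj => h.low (i + j) (by omega)
  sup := fun j hj => h.sup (i + j) (by omega)
  off := fun j hj => h.off (i + j) (by omega)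
  qp := fun j hj => h.qp (i + j) (by omega)
  pq' := fun j hj => h.pq' (i + j) (by omega)

theorem Ln.shift (h : Ln X B b p q q' a d k c) {i : ℕ} (hi : i ≤ b) :
    Ln (fun j => X (i + j)) (fun j => B (i + j)) (b - i) (fun j => p (i + j)) (fun j => q (i + j)) (fun j => q' (i + j)) a d k c :=
  ⟨h.rt.shift hi, h.lt.shift hi⟩

theorem It_step (h : Rt X B b p q a d k c) {n j : ℕ} (hj : j < b) (y : α) :
    a * It X B n (j + 1) (p (j + 1)) y ≤ It X B (n + 1) j (p j) y := by
  rw [It_succ]
  have h1 := Finset.single_le_sum (f := fun z' => B j (p j) z' * It X B n (j + 1) z' y)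
    (fun z' _ => mul_nonneg (h.nn j _ _) (It_nn h.nn _ _ _ _)) (h.pX (j + 1) (by omega))
  have h2 := mul_le_mul_of_nonneg_right (h.low j hj) (It_nn (X := X) h.nn n (j + 1) (p (j + 1)) y)
  exact h2.trans h1

theorem It_pos (h : Rt X B b p q a d k c) : ∀ (n j : ℕ), j + n ≤ b → 0 < It X B n j (p j) (p (j + n))
  | 0, j, _ => by
    rw [add_zero, It_zero_self]
    exact one_pos
  | n + 1, j, hj => by
    have h1 := It_pos h n (j + 1) (by omega)
    have e : j + 1 + n = j + (n + 1) := by omega
    rw [e] at h1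
    exact lt_of_lt_of_le (mul_pos h.a0 h1) (It_step h (by omega) _)

/-- Forward masses from `p`. -/
theorem fwIt (h : Rt X B b p q a d k c) : Fw X B b p fun j z => It X B j 0 (p 0) z where
  nn := fun _ _ => It_nn h.nn _ _ _ _
  ini := fun _ _ hne => It_zero_ne 0 (Ne.symm hne)
  rc := fun j hj z' hz' => by
    have h1 := It_succ' (X := X) (B := B) j 0 (h.pX 0 (Nat.zero_le _)) z' (by rw [zero_add]; exact hz')
    simp only [zero_add] at h1
    exact h1

/-- Backward masses to `p`. -/
theorem bwIt (h : Rt X B b p q a d k c) : Bw X B b p fun j z => It X B (b - j) j z (p b) where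
  nn := fun _ _ => It_nn h.nn _ _ _ _
  fin := fun z _ hne => by
    show It X B (b - b) b z (p b) = 0
    rw [Nat.sub_self]
    exact It_zero_ne b hne
  rc := fun j hj z _ => by
    obtain ⟨m, hm⟩ : ∃ m, m = b - (j + 1) := ⟨_, rfl⟩
    have h1 : b - j = m + 1 := by omega
    show It X B (b - j) j z (p b) = ∑ z' ∈ X (j + 1), B j z z' * It X B (b - (j + 1)) (j + 1) z' (p b)
    rw [h1, ← hm]
    rfl

/-- One step of the forward profile to the right of `p`. -/
theorem fw_gen (h : Rt X B b p q a d k c) {A : ℕ → α → ℝ} (nn : ∀ j z, 0 ≤ A j z) {j : ℕ} (hjb : j < b)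
    (rc : ∀ z' ∈ X (j + 1), A (j + 1) z' = ∑ z ∈ X j, A j z * B j z z')
    (ih' : ∀ z ∈ X j, p j < z → A j z ≤ c * A j (p j) * bt X B q a j z) :
    ∀ z' ∈ X (j + 1), p (j + 1) < z' → A (j + 1) z' ≤ c * A (j + 1) (p (j + 1)) * bt X B q a (j + 1) z' := by
  intro z' hz' hp
  have ha := h.a0
  have hP := nn (j + 1) (p (j + 1))
  have hst : a * A j (p j) ≤ A (j + 1) (p (j + 1)) := by
    rw [rc _ (h.pX _ (by omega))]
    have h1 := Finset.single_le_sum (f := fun z => A j z * B j z (p (j + 1)))
      (fun z _ => mul_nonneg (nn j z) (h.nn j _ _)) (h.pX j (by omega))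
    have h2 := mul_le_mul_of_nonneg_left (h.low j hjb) (nn j (p j))
    linarith
  rw [rc z' hz', ← Finset.sum_filter_add_sum_filter_not (X j) (fun z => q j ≤ z)]
  -- the paths to the left of `q`
  have h1 : ∑ z ∈ X j with ¬ q j ≤ z, A j z * B j z z' ≤ c * A (j + 1) (p (j + 1)) * B j (q j) z' := by
    calc ∑ z ∈ X j with ¬ q j ≤ z, A j z * B j z z'
        ≤ ∑ z ∈ X j with ¬ q j ≤ z, A j z * (c * (B j z (p (j + 1)) * B j (q j) z')) := by
          refine Finset.sum_le_sum fun z hz => ?_
          rw [Finset.mem_filter, not_le] at hz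
          refine mul_le_mul_of_nonneg_left ?_ (nn j z)
          have h2 := h.tp j hjb z z' (q j) (p (j + 1)) hz.2.le hp.le
          have h3 := mul_le_mul_of_nonneg_left (h.qp j hjb) (h.nn j z z')
          have h4 := mul_le_mul_of_nonneg_left h2 h.c0
          calc B j z z' = B j z z' * 1 := (mul_one _).symm
            _ ≤ B j z z' * (c * B j (q j) (p (j + 1))) := h3
            _ = c * (B j z z' * B j (q j) (p (j + 1))) := by ring
            _ ≤ _ := h4
      _ = c * B j (q j) z' * ∑ z ∈ X j with ¬ q j ≤ z, A j z * B j z (p (j + 1)) := by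
          rw [Finset.mul_sum]
          refine Finset.sum_congr rfl fun z _ => ?_
          ring
      _ ≤ c * B j (q j) z' * A (j + 1) (p (j + 1)) := by
          refine mul_le_mul_of_nonneg_left ?_ (mul_nonneg h.c0 (h.nn _ _ _))
          rw [rc _ (h.pX _ (by omega))]
          exact Finset.sum_le_sum_of_subset_of_nonneg (Finset.filter_subset _ _)
            fun z _ _ => mul_nonneg (nn j z) (h.nn j _ _)
      _ = _ := by ring
  -- the paths to the right of `q`
  have h2 : ∑ z ∈ X j with q j ≤ z, A j z * B j z z' ≤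
      c * A (j + 1) (p (j + 1)) * (a⁻¹ * ∑ z ∈ X j with q j ≤ z, bt X B q a j z * B j z z') := by
    have h3 : A j (p j) ≤ a⁻¹ * A (j + 1) (p (j + 1)) := by
      rw [le_inv_mul_iff₀ ha]
      exact hst
    calc ∑ z ∈ X j with q j ≤ z, A j z * B j z z'
        ≤ ∑ z ∈ X j with q j ≤ z, c * (a⁻¹ * A (j + 1) (p (j + 1))) * (bt X B q a j z * B j z z') := by
          refine Finset.sum_le_sum fun z hz => ?_
          rw [Finset.mem_filter] at hz
          have h4 := ih' z hz.1 ((h.pq j (by omega)).trans_le hz.2)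
          have h5 : c * A j (p j) * bt X B q a j z ≤ c * (a⁻¹ * A (j + 1) (p (j + 1))) * bt X B q a j z :=
            mul_le_mul_of_nonneg_right (mul_le_mul_of_nonneg_left h3 h.c0) (bt_nn h j z)
          have h6 := mul_le_mul_of_nonneg_right (h4.trans h5) (h.nn j z z')
          linarith
      _ = c * A (j + 1) (p (j + 1)) * (a⁻¹ * ∑ z ∈ X j with q j ≤ z, bt X B q a j z * B j z z') := by
          rw [Finset.mul_sum, Finset.mul_sum]
          refine Finset.sum_congr rfl fun z _ => ?_
          ring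
  have e3 : c * A (j + 1) (p (j + 1)) * bt X B q a (j + 1) z' = c * A (j + 1) (p (j + 1)) * B j (q j) z' +
      c * A (j + 1) (p (j + 1)) * (a⁻¹ * ∑ z ∈ X j with q j ≤ z, bt X B q a j z * B j z z') := by
    simp only [bt]
    ring
  rw [e3]
  linarith

/-- The forward profile of the start `q`. -/
theorem fw_q (h : Rt X B b p q a d k c) : ∀ j : ℕ, j + 1 ≤ b → ∀ z ∈ X (j + 1), p (j + 1) < z →
    It X B (j + 1) 0 (q 0) z ≤ c * It X B (j + 1) 0 (q 0) (p (j + 1)) * bt X B q a (j + 1) z
  | 0, hj, z, hz, _ => by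
    rw [It_one 0 _ hz, It_one 0 _ (h.pX 1 hj)]
    have h1 : bt X B q a (0 + 1) z = B 0 (q 0) z := by
      simp only [bt, zero_mul, Finset.sum_const_zero, mul_zero, add_zero]
    rw [h1]
    have h2 := mul_le_mul_of_nonneg_right (h.qp 0 (by omega)) (h.nn 0 (q 0) z)
    rw [one_mul] at h2
    exact h2
  | j + 1, hj, z, hz, hpz => by
    have rc : ∀ i, i ≤ b → ∀ z' ∈ X (i + 1), It X B (i + 1) 0 (q 0) z' = ∑ z ∈ X i, It X B i 0 (q 0) z * B i z z' := by
      intro i _ z' hz'
      have h1 := It_succ' (X := X) (B := B) i 0 (h.qX 0 (Nat.zero_le _)) z' (by rw [zero_add]; exact hz')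
      simp only [zero_add] at h1
      exact h1
    exact fw_gen (A := fun j z => It X B j 0 (q 0) z) h (fun _ _ => It_nn h.nn _ _ _ _) (j := j + 1) (by omega)
      (rc (j + 1) (by omega)) (fw_q h j (by omega)) z hz hpz

theorem bt_le (h : Rt X B b p q a d k c) {j : ℕ} (hj : j ≤ b) {z : α} (hz : z ∈ X j) : bt X B q a j z ≤ 2 * k :=
  (Finset.single_le_sum (f := fun z => bt X B q a j z) (fun z _ => bt_nn h j z) hz).trans (bt_all h j hj)

/-- All ends to the right of `p`, start `p`. -/
theorem end_right (h : Rt X B b p q a d k c) {y : α} (hy : y ∈ X b) (hp : p b ≤ y) :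
    It X B b 0 (p 0) y ≤ (1 + 2 * k * c) * It X B b 0 (p 0) (p b) := by
  have hk := h.k0
  have hc := h.c0
  have h0 := It_nn (X := X) h.nn b 0 (p 0) (p b)
  rcases hp.eq_or_lt with h1 | h1
  · rw [← h1]
    have : 0 ≤ 2 * k * c * It X B b 0 (p 0) (p b) := by positivity
    linarith
  · have h2 := fw_right h (fwIt h) b le_rfl y hy h1
    have h3 : c * It X B b 0 (p 0) (p b) * bt X B q a b y ≤ c * It X B b 0 (p 0) (p b) * (2 * k) :=
      mul_le_mul_of_nonneg_left (bt_le h le_rfl hy) (mul_nonneg hc h0)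
    have h4 : It X B b 0 (p 0) y ≤ c * It X B b 0 (p 0) (p b) * (2 * k) := h2.trans h3
    linarith

/-- All starts, end `p`. -/
theorem start_all (h : Ln X B b p q q' a d k c) {x : α} (hx : x ∈ X 0) :
    It X B b 0 x (p b) ≤ (1 + 2 * k * c) * It X B b 0 (p 0) (p b) := by
  have h1 := bw_all h (bwIt h.rt) (j := 0) (Nat.zero_le _) hx
  simp only [Nat.sub_zero] at h1
  exact h1

/-- The near starts and the ends to the right of `p`. -/
theorem near_right (h : Ln X B b p q q' a d k c) {x y : α} (hx : x ∈ X 0) (hy : y ∈ X b) (hxq : x ≤ q 0) (hpy : p b ≤ y) :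
    It X B b 0 x y ≤ (1 + 2 * k * c) ^ 2 * It X B b 0 (p 0) (p b) := by
  have hr := h.rt
  have hk := hr.k0
  have hc := hr.c0
  have hM : 0 < It X B b 0 (p 0) (p b) := by
    have h1 := It_pos hr b 0 (by omega)
    rwa [zero_add] at h1
  have hkc : 0 ≤ 2 * k * c := by positivity
  have hs := start_all h hx
  have he := end_right hr hy hpy
  rcases le_total x (p 0) with hxp | hxp
  · -- opposite sides
    have h1 := It_tp hr b 0 (by omega) x y (p 0) (p b) hxp hpy
    have h2 : It X B b 0 x (p b) * It X B b 0 (p 0) y ≤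
        ((1 + 2 * k * c) * It X B b 0 (p 0) (p b)) * ((1 + 2 * k * c) * It X B b 0 (p 0) (p b)) :=
      mul_le_mul hs he (It_nn hr.nn _ _ _ _) (by positivity)
    have h3 : It X B b 0 x y * It X B b 0 (p 0) (p b) ≤
        ((1 + 2 * k * c) ^ 2 * It X B b 0 (p 0) (p b)) * It X B b 0 (p 0) (p b) := by
      refine (h1.trans h2).trans (le_of_eq ?_)
      ring
    exact le_of_mul_le_mul_right h3 hM
  · rcases Nat.eq_zero_or_pos b with hb | hb
    · subst hb
      rw [It_zero_self, mul_one]
      refine (It_zero_le 0 x y).trans ?_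
      exact one_le_pow₀ (by linarith)
    rcases hpy.eq_or_lt with h1 | h1
    · rw [← h1]
      refine hs.trans (mul_le_mul_of_nonneg_right ?_ hM.le)
      nlinarith
    -- the same side
    obtain ⟨m, hm⟩ : ∃ m, b = m + 1 := ⟨b - 1, by omega⟩
    have hq : It X B b 0 (q 0) y ≤ 2 * k * c * It X B b 0 (q 0) (p b) := by
      have h2 := fw_q hr m (by omega) y (by rw [← hm]; exact hy) (by rw [← hm]; exact h1)
      rw [← hm] at h2
      have h3 : c * It X B b 0 (q 0) (p b) * bt X B q a b y ≤ c * It X B b 0 (q 0) (p b) * (2 * k) :=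
        mul_le_mul_of_nonneg_left (bt_le hr le_rfl hy) (mul_nonneg hc (It_nn hr.nn _ _ _ _))
      linarith
    have hqp : 0 < It X B b 0 (q 0) (p b) := by
      have h2 := It_pos hr m 1 (by omega)
      have e : 1 + m = b := by omega
      rw [e] at h2
      have h3 : 0 < B 0 (q 0) (p 1) := by
        have h4 := hr.qp 0 hb
        by_contra h5
        have h6 : B 0 (q 0) (p 1) = 0 := le_antisymm (not_lt.1 h5) (hr.nn _ _ _)
        rw [zero_add, h6, mul_zero] at h4
        linarith
      rw [hm, It_succ]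
      rw [hm] at h2
      have h4 := Finset.single_le_sum (f := fun z' => B 0 (q 0) z' * It X B m (0 + 1) z' (p (m + 1)))
        (fun z' _ => mul_nonneg (hr.nn 0 _ _) (It_nn hr.nn _ _ _ _)) (hr.pX (0 + 1) (by omega))
      refine lt_of_lt_of_le ?_ h4
      exact mul_pos h3 h2
    have h2 := It_tp hr b 0 (by omega) x y (q 0) (p b) hxq h1.le
    have h3 : It X B b 0 x y * It X B b 0 (q 0) (p b) ≤
        ((1 + 2 * k * c) ^ 2 * It X B b 0 (p 0) (p b)) * It X B b 0 (q 0) (p b) := by
      refine h2.trans ?_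
      calc It X B b 0 x (p b) * It X B b 0 (q 0) y
          ≤ ((1 + 2 * k * c) * It X B b 0 (p 0) (p b)) * (2 * k * c * It X B b 0 (q 0) (p b)) :=
            mul_le_mul hs hq (It_nn hr.nn _ _ _ _) (by positivity)
        _ ≤ ((1 + 2 * k * c) * It X B b 0 (p 0) (p b)) * ((1 + 2 * k * c) * It X B b 0 (q 0) (p b)) := by
            refine mul_le_mul_of_nonneg_left (mul_le_mul_of_nonneg_right (by linarith) hqp.le) (by positivity)
        _ = _ := by ring
    exact le_of_mul_le_mul_right h3 hqp

/-- The near starts, all ends. -/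
theorem near_all (h : Ln X B b p q q' a d k c) {x y : α} (hx : x ∈ X 0) (hy : y ∈ X b) (hxq : x ≤ q 0) (hxq' : q' 0 ≤ x) :
    It X B b 0 x y ≤ (1 + 2 * k * c) ^ 2 * It X B b 0 (p 0) (p b) := by
  rcases le_total (p b) y with h1 | h1
  · exact near_right h hx hy hxq h1
  · exact near_right (α := αᵒᵈ) (X := X) (B := B) (p := p) (q := q') (q' := q) ⟨h.lt, h.rt⟩ hx hy hxq' h1

/-- **THE CELL LEVEL.** -/
theorem cell (h : Ln X B b p q q' a d k c)
    (hf : ∀ j < b, ∀ z ∈ X j, (q j ≤ z ∨ z ≤ q' j) → ∑ z' ∈ X (j + 1), B j z z' ≤ d) {x y : α} (hx : x ∈ X 0) (hy : y ∈ X b) :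
    It X B b 0 x y ≤ (1 + 2 * k * c) ^ 2 * It X B b 0 (p 0) (p b) := by
  have hr := h.rt
  have hk := hr.k0
  have hc := hr.c0
  have hkc : 0 ≤ 2 * k * c := by positivity
  have main : ∀ (n j : ℕ), j + n = b → ∀ x ∈ X j, It X B n j x y ≤ (1 + 2 * k * c) ^ 2 * It X B n j (p j) (p b) := by
    intro n
    induction n with
    | zero =>
      intro j hj x _
      rw [add_zero] at hj
      rw [← hj, It_zero_self, mul_one]
      exact (It_zero_le j x y).trans (one_le_pow₀ (by linarith))
    | succ n ih =>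
      intro j hj x hx
      have hjb : j < b := by omega
      by_cases hnear : x ≤ q j ∧ q' j ≤ x
      · have h1 := near_all (h.shift (i := j) (by omega)) (x := x) (y := y) (by simpa using hx)
          (by
            have e : j + (b - j) = b := by omega
            show y ∈ X (j + (b - j))
            rw [e]
            exact hy) (by simpa using hnear.1) (by simpa using hnear.2)
        rw [It_shift, It_shift] at h1
        have e : j + (b - j) = b := by omega
        have e2 : b - j = n + 1 := by omega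
        simp only [add_zero] at h1
        rw [e, e2] at h1
        exact h1
      · have hfar : q j ≤ x ∨ x ≤ q' j := by
          by_contra hcon
          push Not at hcon
          exact hnear ⟨hcon.1.le, hcon.2.le⟩
        have h1 := hf j hjb x hx hfar
        have hI := It_nn (X := X) hr.nn n (j + 1) (p (j + 1)) (p b)
        have hst := It_step hr (n := n) hjb (p b)
        calc It X B (n + 1) j x y = ∑ z' ∈ X (j + 1), B j x z' * It X B n (j + 1) z' y := rfl
          _ ≤ ∑ z' ∈ X (j + 1), B j x z' * ((1 + 2 * k * c) ^ 2 * It X B n (j + 1) (p (j + 1)) (p b)) :=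
              Finset.sum_le_sum fun z' hz' => mul_le_mul_of_nonneg_left (ih (j + 1) (by omega) z' hz') (hr.nn _ _ _)
          _ = (∑ z' ∈ X (j + 1), B j x z') * ((1 + 2 * k * c) ^ 2 * It X B n (j + 1) (p (j + 1)) (p b)) := by
              rw [Finset.sum_mul]
          _ ≤ d * ((1 + 2 * k * c) ^ 2 * It X B n (j + 1) (p (j + 1)) (p b)) :=
              mul_le_mul_of_nonneg_right h1 (by positivity)
          _ = (1 + 2 * k * c) ^ 2 * (d * It X B n (j + 1) (p (j + 1)) (p b)) := by ring
          _ ≤ (1 + 2 * k * c) ^ 2 * It X B (n + 1) j (p j) (p b) := by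
              refine mul_le_mul_of_nonneg_left ?_ (by positivity)
              refine le_trans (mul_le_mul_of_nonneg_right ?_ hI) hst
              have := hr.da
              have := hr.d0
              linarith
  exact main b 0 (zero_add b) x hx

end Pool.Agent.W_7d29a1_C1.P12
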