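import Pool.Agent.W_7d29a1_C1.SlabV24
import Pool.Agent.W_7d29a1_C1.Basin76

/-!
MP_7d29a1_pr, [C1] THE LUCKY PINCH, part A (helper24): envelopes of the kernels and their composition.

`EVR24 μ s c n P lo hi b q`: every kernel inside the rows `lo .. hi` is at most `exp (q ψ EE n - hc |y - sl j|)`, `ψ = fq16 P` of the
lateral distance from `b` in widths `wd n`, plus one. `EVR_of_FU`: the envelope at a smaller scale `T`, `n ≤ 16 T`. `EVR_comp`:
composition of two slabs of rows.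
-/

set_option autoImplicit false

namespace Pool.Agent.W_7d29a1_C1.P24

open MeasureTheory ProbabilityTheory Filter Topology Finset
open Pool.Agent.W_7d29a1_F Pool.Agent.W_7d29a1_h4g Pool.Agent.W_7d29a1_H Pool.Agent.W_7d29a1_HS
open Pool.Agent.W_7d29a1_C1
open Pool.Agent.W_7d29a1_C1.H75 (hc)
open Pool.Agent.W_7d29a1_C1.U16 (fq16 fq16_one fq16_mono lat16 wd_le)

noncomputable section

variable {μ : Measure ℝ} {s c C : ℝ} {n₀ : ℕ}

/-- The envelope of the kernels of the rows `lo .. hi`, at the scale `n`, centred at the line of `b`. -/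
def EVR24 (μ : Measure ℝ) (s c : ℝ) (n P : ℕ) (lo hi : ℤ) (b : Pt) (q : ℝ) : Set Env :=
  {η | ∀ (p : Pt) (j : ℕ), lo ≤ p.1 → p.1 + j ≤ hi → ∀ y : ℤ,
    W μ s η p j y ≤ Real.exp (q * fq16 P (|lat16 μ s b p| / wd μ s n + 1) * EE μ s n - hc μ s c n * |(y : ℝ) - sl μ s * j|)}

theorem FU24_eq (n N P : ℕ) (b : Pt) (q : ℝ) : FU24 μ s c n N P b q = EVR24 μ s c n P b.1 (b.1 + N) b q := rfl

theorem EVR24_rows {n P : ℕ} {lo hi lo' hi' : ℤ} {b : Pt} {q : ℝ} (h1 : lo ≤ lo') (h2 : hi' ≤ hi) :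
    EVR24 μ s c n P lo hi b q ⊆ EVR24 μ s c n P lo' hi' b q := fun _ hη p j h3 h4 y => hη p j (h1.trans h3) (h4.trans h2) y

theorem hc_nonneg24 [IsProbabilityMeasure μ] (h : In μ s c C n₀) {c' : ℝ} (hc' : 0 ≤ c') (n : ℕ) : 0 ≤ hc μ s c' n := by
  unfold hc
  exact div_nonneg (mul_nonneg hc' (EE_pos n).le) (h.wd_nonneg n)

theorem hc_mono24 [IsProbabilityMeasure μ] (h : In μ s c C n₀) {c₁ c₂ : ℝ} (hcc : c₁ ≤ c₂) (n : ℕ) : hc μ s c₁ n ≤ hc μ s c₂ n := by
  unfold hc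
  exact div_le_div_of_nonneg_right (mul_le_mul_of_nonneg_right hcc (EE_pos n).le) (h.wd_nonneg n)

theorem EVR24_mono [IsProbabilityMeasure μ] (h : In μ s c C n₀) {c₁ c₂ q q' : ℝ} (hcc : c₁ ≤ c₂) (hq : q ≤ q') (n P : ℕ) (lo hi : ℤ)
    (b : Pt) : EVR24 μ s c₂ n P lo hi b q ⊆ EVR24 μ s c₁ n P lo hi b q' := by
  intro η hη p j h1 h2 y
  refine (hη p j h1 h2 y).trans (Real.exp_le_exp.2 ?_)
  have f1 := fq16_one P (|lat16 μ s b p| / wd μ s n + 1)
  have hE := EE_pos (μ := μ) (s := s) n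
  have h3 : q * fq16 P (|lat16 μ s b p| / wd μ s n + 1) * EE μ s n ≤ q' * fq16 P (|lat16 μ s b p| / wd μ s n + 1) * EE μ s n :=
    mul_le_mul_of_nonneg_right (mul_le_mul_of_nonneg_right hq (by linarith)) hE.le
  have h4 := mul_le_mul_of_nonneg_right (hc_mono24 h hcc n) (abs_nonneg ((y : ℝ) - sl μ s * j))
  linarith

/-! ### The factor of the level -/

theorem lat16_add (b b' p : Pt) : lat16 μ s b p = lat16 μ s b b' + lat16 μ s b' p := by
  unfold lat16
  push_cast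
  ring

theorem log_nn24 {x : ℝ} (hx : 0 ≤ x) : 0 ≤ Real.log (1 + x) := Real.log_nonneg (by linarith)

/-- A change of the unit. -/
theorem fq16_scale {A : ℝ} (hA : 1 ≤ A) (P : ℕ) {u v : ℝ} (hu : 0 ≤ u) (hv : 0 ≤ v) (huv : 1 + v ≤ A * (1 + u)) :
    fq16 P v ≤ (1 + Real.log A) ^ P * fq16 P u := by
  unfold fq16
  rw [← mul_pow, abs_of_nonneg hu, abs_of_nonneg hv]
  have h1 : Real.log (1 + v) ≤ Real.log A + Real.log (1 + u) := by
    rw [← Real.log_mul (by positivity) (by positivity)]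
    exact Real.log_le_log (by linarith) huv
  have h2 := log_nn24 hu
  have h3 := log_nn24 hv
  have h4 := Real.log_nonneg hA
  refine pow_le_pow_left₀ (by linarith) ?_ P
  nlinarith

/-- Additivity. -/
theorem fq16_add (P : ℕ) {u v : ℝ} (hu : 0 ≤ u) (hv : 0 ≤ v) : fq16 P (u + v) ≤ 2 ^ P * (fq16 P u + Real.log (1 + v) ^ P) := by
  unfold fq16
  rw [abs_of_nonneg hu, abs_of_nonneg (add_nonneg hu hv)]
  have h2 := log_nn24 hu
  have h3 := log_nn24 hv
  have h1 : Real.log (1 + (u + v)) ≤ Real.log (1 + u) + Real.log (1 + v) := by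
    rw [← Real.log_mul (by positivity) (by positivity)]
    exact Real.log_le_log (by linarith) (by nlinarith)
  have h4 : 0 ≤ Real.log (1 + (u + v)) := log_nn24 (add_nonneg hu hv)
  have h5 : 1 + Real.log (1 + (u + v)) ≤ 2 * max (1 + Real.log (1 + u)) (Real.log (1 + v)) := by
    have g1 := le_max_left (1 + Real.log (1 + u)) (Real.log (1 + v))
    have g2 := le_max_right (1 + Real.log (1 + u)) (Real.log (1 + v))
    linarith
  refine (pow_le_pow_left₀ (by linarith) h5 P).trans ?_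
  rw [mul_pow]
  refine mul_le_mul_of_nonneg_left ?_ (by positivity)
  rcases le_total (1 + Real.log (1 + u)) (Real.log (1 + v)) with h6 | h6
  · rw [max_eq_right h6]
    have : 0 ≤ (1 + Real.log (1 + u)) ^ P := by positivity
    linarith
  · rw [max_eq_left h6]
    have : 0 ≤ Real.log (1 + v) ^ P := by positivity
    linarith

/-- A power of the logarithm is small. -/
theorem log_small24 (P : ℕ) {ε : ℝ} (hε : 0 < ε) : ∃ M : ℝ, 0 ≤ M ∧ ∀ v : ℝ, 0 ≤ v → Real.log (1 + v) ^ P ≤ ε * v + M := by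
  have h1 := (Real.isLittleO_pow_log_id_atTop (n := P)).def hε
  obtain ⟨X, hX⟩ := eventually_atTop.1 h1
  obtain ⟨Y, hY⟩ : ∃ Y : ℝ, Y = max X 1 := ⟨_, rfl⟩
  have hY1 : 1 ≤ Y := by rw [hY]; exact le_max_right _ _
  have hYX : X ≤ Y := by rw [hY]; exact le_max_left _ _
  have hYl : 0 ≤ Real.log Y := Real.log_nonneg hY1
  refine ⟨ε + Real.log Y ^ P, by positivity, fun v hv => ?_⟩
  have hv1 : 0 ≤ Real.log (1 + v) := log_nn24 hv
  rcases le_total Y (1 + v) with h2 | h2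
  · have h3 := hX (1 + v) (hYX.trans h2)
    rw [Real.norm_eq_abs, Real.norm_eq_abs, abs_of_nonneg (pow_nonneg hv1 P)] at h3
    have h4 : |id (1 + v)| = 1 + v := abs_of_nonneg (by simp only [id]; linarith)
    rw [h4] at h3
    have : 0 ≤ Real.log Y ^ P := by positivity
    nlinarith
  · have h3 : Real.log (1 + v) ≤ Real.log Y := Real.log_le_log (by linarith) h2
    have h4 := pow_le_pow_left₀ hv1 h3 P
    have h5 : 0 ≤ ε * v := by positivity
    linarith

theorem fq16_small24 (P : ℕ) {ε : ℝ} (hε : 0 < ε) : ∃ M : ℝ, 0 ≤ M ∧ ∀ v : ℝ, 0 ≤ v → fq16 P v ≤ ε * v + M := by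
  obtain ⟨M, hM, hM'⟩ := log_small24 P (ε := ε / 2 ^ P) (by positivity)
  refine ⟨2 ^ P * (1 + M), by positivity, fun v hv => ?_⟩
  have h1 := fq16_add P (le_refl (0 : ℝ)) hv
  have h2 : fq16 P 0 = 1 := by
    unfold fq16
    simp
  rw [zero_add, h2] at h1
  have h3 := hM' v hv
  have h4 : (2 : ℝ) ^ P * Real.log (1 + v) ^ P ≤ 2 ^ P * (ε / 2 ^ P * v + M) := mul_le_mul_of_nonneg_left h3 (by positivity)
  have h5 : (2 : ℝ) ^ P * (ε / 2 ^ P * v + M) = ε * v + 2 ^ P * M := by field_simp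
  have h6 : fq16 P v ≤ 2 ^ P * 1 + 2 ^ P * Real.log (1 + v) ^ P := by linarith
  nlinarith

/-- The level against the cost of a displacement. -/
theorem num24 (P : ℕ) {q κ K G : ℝ} (hq : 0 ≤ q) (hκ : 0 < κ) (hK : 0 ≤ K) : ∃ D : ℝ, 0 ≤ D ∧ ∀ V : ℝ, D ≤ V →
    q * fq16 P (K + V + 1) + G ≤ κ * V := by
  obtain ⟨M, hM, hM'⟩ := fq16_small24 P (ε := κ / (2 * (q + 1))) (by positivity)
  refine ⟨max 0 (2 / κ * (q * (κ / (2 * (q + 1)) * (K + 1) + M) + |G|)), le_max_left _ _, fun V hV => ?_⟩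
  have hV0 : 0 ≤ V := (le_max_left _ _).trans hV
  have hV1 := (le_max_right _ _).trans hV
  have h1 := hM' (K + V + 1) (by linarith)
  have h2 : q * fq16 P (K + V + 1) ≤ q * (κ / (2 * (q + 1)) * (K + V + 1) + M) := mul_le_mul_of_nonneg_left h1 hq
  have h3 : q * (κ / (2 * (q + 1))) ≤ κ / 2 := by
    rw [mul_div_assoc', div_le_div_iff₀ (by positivity) (by norm_num)]
    nlinarith
  have h4 : q * (κ / (2 * (q + 1)) * (K + V + 1) + M) ≤ κ / 2 * V + q * (κ / (2 * (q + 1)) * (K + 1) + M) := by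
    nlinarith
  have h5 : q * (κ / (2 * (q + 1)) * (K + 1) + M) + |G| ≤ κ / 2 * V := by
    have : 2 / κ * (q * (κ / (2 * (q + 1)) * (K + 1) + M) + |G|) * (κ / 2) ≤ V * (κ / 2) :=
      mul_le_mul_of_nonneg_right hV1 (by positivity)
    have e : 2 / κ * (q * (κ / (2 * (q + 1)) * (K + 1) + M) + |G|) * (κ / 2) = q * (κ / (2 * (q + 1)) * (K + 1) + M) + |G| := by
      field_simp
    linarith
  linarith [le_abs_self G]

/-! ### The envelope at a smaller scale -/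

/-- Comparison of the units of `T ≤ n ≤ 16 T`. -/
structure Cmp24 (μ : Measure ℝ) (s : ℝ) (T n : ℕ) : Prop where
  T1 : 1 ≤ T
  Tn : T ≤ n
  w1 : 1 ≤ wd μ s T
  e1 : EE μ s T ≤ EE μ s n
  e2 : EE μ s n ≤ 32 * EE μ s T
  a1 : wd μ s n ≤ 32 * wd μ s T
  a2 : wd μ s T ≤ 2 * wd μ s n

theorem cmp24 [IsProbabilityMeasure μ] (h : In μ s c C n₀) {T n : ℕ} (hT : 1 ≤ T) (hTn : T ≤ n) (hn : n ≤ 16 * T) (hw : 1 ≤ wd μ s T) :
    Cmp24 μ s T n := by
  have hTr : (0 : ℝ) < T := by exact_mod_cast hT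
  have h16 : (n : ℝ) / T ≤ 16 := by
    rw [div_le_iff₀ hTr]
    exact_mod_cast hn
  refine ⟨hT, hTn, hw, EE_mono hTn, ?_, ?_, Pool.Agent.W_7d29a1_C1.U16.wd_le_two h hT hTn⟩
  · have h1 := scale_b h hT hTn
    have hE := EE_pos (μ := μ) (s := s) T
    have h2 : (n : ℝ) ≤ 16 * T := by exact_mod_cast hn
    have h3 : (T : ℝ) * EE μ s n ≤ T * (32 * EE μ s T) := by nlinarith
    exact le_of_mul_le_mul_left h3 hTr
  · refine (wd_le h hT hTn).trans (mul_le_mul_of_nonneg_right (by linarith) (by linarith))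

theorem EVR_of_FU [IsProbabilityMeasure μ] (h : In μ s c C n₀) {T n N P : ℕ} (hC : Cmp24 μ s T n) {b b' : Pt}
    (hb : |lat16 μ s b b'| ≤ wd μ s n) {q : ℝ} (hq : 0 ≤ q) {η : Env} (hη : η ∈ FU24 μ s c T N P b' q) :
    η ∈ EVR24 μ s (c / 64) n P b'.1 (b'.1 + N) b (q * (1 + Real.log 64) ^ P) := by
  intro p j h1 h2 y
  refine (hη p j h1 h2 y).trans (Real.exp_le_exp.2 ?_)
  have hwT : 0 < wd μ s T := by linarith [hC.w1]
  have hwn : 0 < wd μ s n := by linarith [hC.a2]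
  have hET := EE_pos (μ := μ) (s := s) T
  have hEn := EE_pos (μ := μ) (s := s) n
  have f1 := fq16_one P (|lat16 μ s b' p| / wd μ s T + 1)
  have f2 := fq16_one P (|lat16 μ s b p| / wd μ s n + 1)
  have hu : 0 ≤ |lat16 μ s b p| / wd μ s n := by positivity
  have hv : 0 ≤ |lat16 μ s b' p| / wd μ s T := by positivity
  have k1 : |lat16 μ s b' p| ≤ |lat16 μ s b p| + wd μ s n := by
    have e := lat16_add (μ := μ) (s := s) b b' p
    have e2 : lat16 μ s b' p = lat16 μ s b p - lat16 μ s b b' := by linarith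
    rw [e2]
    exact (abs_sub _ _).trans (by linarith)
  have k2 : |lat16 μ s b' p| / wd μ s T ≤ 32 * (|lat16 μ s b p| / wd μ s n + 1) := by
    rw [div_le_iff₀ hwT]
    have e : 32 * (|lat16 μ s b p| / wd μ s n + 1) * wd μ s T = (|lat16 μ s b p| + wd μ s n) * (32 * wd μ s T / wd μ s n) := by
      field_simp
    rw [e]
    have g1 : 1 ≤ 32 * wd μ s T / wd μ s n := by
      rw [le_div_iff₀ hwn]
      linarith [hC.a1]
    have g2 : 0 ≤ |lat16 μ s b p| + wd μ s n := by positivity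
    nlinarith
  have k3 : fq16 P (|lat16 μ s b' p| / wd μ s T + 1) ≤ (1 + Real.log 64) ^ P * fq16 P (|lat16 μ s b p| / wd μ s n + 1) := by
    refine fq16_scale (by norm_num) P (by linarith) (by linarith) ?_
    linarith
  have k4 : q * fq16 P (|lat16 μ s b' p| / wd μ s T + 1) * EE μ s T ≤
      q * (1 + Real.log 64) ^ P * fq16 P (|lat16 μ s b p| / wd μ s n + 1) * EE μ s n := by
    have g1 : q * fq16 P (|lat16 μ s b' p| / wd μ s T + 1) ≤ q * ((1 + Real.log 64) ^ P * fq16 P (|lat16 μ s b p| / wd μ s n + 1)) :=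
      mul_le_mul_of_nonneg_left k3 hq
    have g2 : 0 ≤ q * fq16 P (|lat16 μ s b' p| / wd μ s T + 1) := by positivity
    calc q * fq16 P (|lat16 μ s b' p| / wd μ s T + 1) * EE μ s T ≤ q * fq16 P (|lat16 μ s b' p| / wd μ s T + 1) * EE μ s n :=
          mul_le_mul_of_nonneg_left hC.e1 g2
      _ ≤ q * ((1 + Real.log 64) ^ P * fq16 P (|lat16 μ s b p| / wd μ s n + 1)) * EE μ s n := mul_le_mul_of_nonneg_right g1 hEn.le
      _ = _ := by ring
  have k5 : hc μ s (c / 64) n ≤ hc μ s c T := by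
    unfold hc
    rw [div_le_div_iff₀ hwn hwT]
    have g1 : EE μ s n * wd μ s T ≤ 64 * (EE μ s T * wd μ s n) := by
      have := mul_le_mul hC.e2 hC.a2 hwT.le (by positivity)
      linarith
    have := mul_le_mul_of_nonneg_left g1 h.c0.le
    linarith
  have k6 := mul_le_mul_of_nonneg_right k5 (abs_nonneg ((y : ℝ) - sl μ s * j))
  linarith

/-! ### Composition -/

/-- The constant of one composition. -/
theorem comp_const24 (P : ℕ) {q κ : ℝ} (hq : 0 ≤ q) (hκ : 0 < κ) : ∃ q' : ℝ, q ≤ q' ∧ ∀ u v : ℝ, 0 ≤ u → 0 ≤ v →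
    q * fq16 P (u + 1) + q * fq16 P (u + v + 1) - κ * v + 1 ≤ q' * fq16 P (u + 1) - κ / 2 * v := by
  obtain ⟨M, hM, hM'⟩ := log_small24 P (ε := κ / (2 * (q + 1) * 2 ^ P)) (by positivity)
  refine ⟨q + q * 2 ^ P + q * 2 ^ P * M + 1, ?_, fun u v hu hv => ?_⟩
  · have : 0 ≤ q * 2 ^ P := by positivity
    have : 0 ≤ q * 2 ^ P * M := by positivity
    linarith
  · have h1 := fq16_add P (u := u + 1) (v := v) (by linarith) hv
    have h2 := hM' v hv
    have f := fq16_one P (u + 1)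
    have e : u + 1 + v = u + v + 1 := by ring
    rw [e] at h1
    have h3 : q * fq16 P (u + v + 1) ≤ q * 2 ^ P * fq16 P (u + 1) + q * 2 ^ P * (κ / (2 * (q + 1) * 2 ^ P) * v + M) := by
      have g1 := mul_le_mul_of_nonneg_left h1 hq
      have g2 : q * 2 ^ P * Real.log (1 + v) ^ P ≤ q * 2 ^ P * (κ / (2 * (q + 1) * 2 ^ P) * v + M) :=
        mul_le_mul_of_nonneg_left h2 (by positivity)
      linarith
    have h4 : q * 2 ^ P * (κ / (2 * (q + 1) * 2 ^ P) * v) ≤ κ / 2 * v := by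
      have g1 : q * 2 ^ P * (κ / (2 * (q + 1) * 2 ^ P) * v) = q / (q + 1) * (κ / 2 * v) := by field_simp
      rw [g1]
      have g2 : q / (q + 1) ≤ 1 := by
        rw [div_le_one (by positivity)]
        linarith
      have g3 : 0 ≤ κ / 2 * v := by positivity
      nlinarith
    have h5 : q * 2 ^ P * M ≤ q * 2 ^ P * M * fq16 P (u + 1) := by
      have : 0 ≤ q * 2 ^ P * M := by positivity
      nlinarith
    nlinarith

theorem lat16_step (b p : Pt) (t : ℕ) (y : ℤ) : lat16 μ s b (p.1 + t, p.2 + y) = lat16 μ s b p + ((y : ℝ) - sl μ s * t) := by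
  unfold lat16
  push_cast
  ring

/-- **Composition of envelopes.** -/
theorem EVR_comp [IsProbabilityMeasure μ] (h : In μ s c C n₀) (P : ℕ) {q κ : ℝ} (hq : 0 ≤ q) (hκ : 0 < κ) : ∃ q' : ℝ, q ≤ q' ∧ ∃ n₁ : ℕ,
    ∀ n : ℕ, n₁ ≤ n → ∀ (lo mid hi : ℤ) (b : Pt), lo ≤ mid → mid ≤ hi → hi ≤ lo + n →
      EVR24 μ s κ n P lo mid b q ∩ EVR24 μ s κ n P mid hi b q ⊆ EVR24 μ s (κ / 2) n P lo hi b q' := by
  obtain ⟨q', hqq, hc'⟩ := comp_const24 P hq hκ
  obtain ⟨n₂, hn₂⟩ := lgo h (δ := 1 / 2) (by norm_num)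
  obtain ⟨n₃, hn₃⟩ := eventually_atTop.1 (h.tE.eventually_ge_atTop (2 * Real.log 2))
  obtain ⟨n₄, hn₄⟩ := eventually_atTop.1 ((wd_tendsto h).eventually_ge_atTop 1)
  refine ⟨q', hqq, max (max n₂ n₃) (max n₄ 1), fun n hn lo mid hi b h1 h2 h3 η hη p j h4 h5 y => ?_⟩
  have k2 : n₂ ≤ n := ((le_max_left _ _).trans (le_max_left _ _)).trans hn
  have k3 : n₃ ≤ n := ((le_max_right _ _).trans (le_max_left _ _)).trans hn
  have k4 : n₄ ≤ n := ((le_max_left _ _).trans (le_max_right _ _)).trans hn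
  have k5 : 1 ≤ n := ((le_max_right _ _).trans (le_max_right _ _)).trans hn
  have hw : 1 ≤ wd μ s n := hn₄ n k4
  have hw0 : 0 < wd μ s n := by linarith
  have hE := EE_pos (μ := μ) (s := s) n
  have hlog : Real.log ((n : ℝ) + 1) ≤ EE μ s n := by
    have hTr : (1 : ℝ) ≤ n := by exact_mod_cast k5
    have g1 : Real.log ((n : ℝ) + 1) ≤ Real.log (2 * n) := Real.log_le_log (by positivity) (by linarith)
    rw [Real.log_mul (by norm_num) (by positivity)] at g1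
    have g2 := hn₂ n k2
    have g3 := hn₃ n k3
    linarith
  have hhalf : hc μ s (κ / 2) n = hc μ s κ n / 2 := by
    unfold hc
    ring
  have hk0 : 0 ≤ hc μ s κ n := hc_nonneg24 h hκ.le n
  have mono : ∀ z : ℝ, q * fq16 P (|lat16 μ s b p| / wd μ s n + 1) * EE μ s n - hc μ s κ n * |z| ≤
      q' * fq16 P (|lat16 μ s b p| / wd μ s n + 1) * EE μ s n - hc μ s (κ / 2) n * |z| := by
    intro z
    have f1 := fq16_one P (|lat16 μ s b p| / wd μ s n + 1)
    have g1 : q * fq16 P (|lat16 μ s b p| / wd μ s n + 1) * EE μ s n ≤ q' * fq16 P (|lat16 μ s b p| / wd μ s n + 1) * EE μ s n :=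
      mul_le_mul_of_nonneg_right (mul_le_mul_of_nonneg_right hqq (by linarith)) hE.le
    have g2 : 0 ≤ hc μ s κ n * |z| := by positivity
    rw [hhalf]
    linarith
  by_cases c1 : p.1 + j ≤ mid
  · exact (hη.1 p j h4 c1 y).trans (Real.exp_le_exp.2 (mono _))
  by_cases c2 : mid ≤ p.1
  · exact (hη.2 p j c2 h5 y).trans (Real.exp_le_exp.2 (mono _))
  push Not at c1 c2
  obtain ⟨t, ht⟩ : ∃ t : ℕ, (t : ℤ) = mid - p.1 := ⟨(mid - p.1).toNat, by omega⟩
  obtain ⟨l, hl⟩ : ∃ l : ℕ, j = t + l := ⟨j - t, by omega⟩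
  have htn : t ≤ n := by omega
  rw [hl, W_add]
  have hterm : ∀ k ∈ Icc (0 : ℤ) t, W μ s η p t k * W μ s η (p.1 + t, p.2 + k) l (y - k) ≤
      Real.exp (q' * fq16 P (|lat16 μ s b p| / wd μ s n + 1) * EE μ s n - EE μ s n - hc μ s (κ / 2) n * |(y : ℝ) - sl μ s * (t + l : ℕ)|) := by
    intro k _
    have g1 := hη.1 p t h4 (by omega) k
    have g2 := hη.2 (p.1 + t, p.2 + k) l (by show mid ≤ p.1 + t; omega) (by
      show p.1 + t + l ≤ hi
      have : (j : ℤ) = t + l := by exact_mod_cast hl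
      omega) (y - k)
    refine (mul_le_mul g1 g2 (W_nonneg _ _ _ _) (Real.exp_pos _).le).trans ?_
    rw [← Real.exp_add]
    refine Real.exp_le_exp.2 ?_
    obtain ⟨d1, hd1⟩ : ∃ d1 : ℝ, d1 = (k : ℝ) - sl μ s * t := ⟨_, rfl⟩
    obtain ⟨d2, hd2⟩ : ∃ d2 : ℝ, d2 = ((y - k : ℤ) : ℝ) - sl μ s * l := ⟨_, rfl⟩
    have e3 : (y : ℝ) - sl μ s * (t + l : ℕ) = d1 + d2 := by
      rw [hd1, hd2]
      push_cast
      ring
    rw [← hd1, ← hd2, e3]
    rw [lat16_step, ← hd1]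
    obtain ⟨x0, hx0⟩ : ∃ x0 : ℝ, x0 = lat16 μ s b p := ⟨_, rfl⟩
    rw [← hx0]
    have g3 : fq16 P (|x0 + d1| / wd μ s n + 1) ≤ fq16 P (|x0| / wd μ s n + |d1| / wd μ s n + 1) := by
      refine fq16_mono ?_
      have a1 : 0 ≤ |x0 + d1| / wd μ s n := by positivity
      have a2 : 0 ≤ |x0| / wd μ s n + |d1| / wd μ s n := by positivity
      have a3 : |x0 + d1| / wd μ s n ≤ |x0| / wd μ s n + |d1| / wd μ s n := by
        rw [← add_div]
        exact div_le_div_of_nonneg_right (abs_add_le _ _) hw0.le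
      rw [abs_of_nonneg (by linarith : (0 : ℝ) ≤ |x0 + d1| / wd μ s n + 1),
        abs_of_nonneg (by linarith : (0 : ℝ) ≤ |x0| / wd μ s n + |d1| / wd μ s n + 1)]
      linarith
    have g4 := hc' (|x0| / wd μ s n) (|d1| / wd μ s n) (by positivity) (by positivity)
    have e4 : hc μ s κ n * |d1| = κ * (|d1| / wd μ s n) * EE μ s n := by
      unfold hc
      ring
    have g5 : q * fq16 P (|x0| / wd μ s n + 1) * EE μ s n - hc μ s κ n * |d1| + q * fq16 P (|x0 + d1| / wd μ s n + 1) * EE μ s n +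
        EE μ s n ≤ q' * fq16 P (|x0| / wd μ s n + 1) * EE μ s n - hc μ s (κ / 2) n * |d1| := by
      rw [hhalf, e4]
      have a1 := mul_le_mul_of_nonneg_right g4 hE.le
      have a2 : q * fq16 P (|x0 + d1| / wd μ s n + 1) * EE μ s n ≤
          q * fq16 P (|x0| / wd μ s n + |d1| / wd μ s n + 1) * EE μ s n :=
        mul_le_mul_of_nonneg_right (mul_le_mul_of_nonneg_left g3 hq) hE.le
      nlinarith
    have g6 : hc μ s (κ / 2) n * |d1 + d2| ≤ hc μ s (κ / 2) n * |d1| + hc μ s κ n * |d2| := by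
      rw [hhalf]
      have a1 := abs_add_le d1 d2
      have a2 : hc μ s κ n / 2 * |d1 + d2| ≤ hc μ s κ n / 2 * (|d1| + |d2|) := mul_le_mul_of_nonneg_left a1 (by linarith)
      have a3 : 0 ≤ hc μ s κ n / 2 * |d2| := by positivity
      nlinarith
    linarith
  refine (Finset.sum_le_card_nsmul _ _ _ hterm).trans ?_
  rw [nsmul_eq_mul, Int.card_Icc]
  have e5 : ((t : ℤ) + 1 - 0).toNat = t + 1 := by omega
  rw [e5]
  have g7 : ((t + 1 : ℕ) : ℝ) ≤ Real.exp (EE μ s n) := by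
    have a1 : ((t + 1 : ℕ) : ℝ) ≤ (n : ℝ) + 1 := by
      push_cast
      have : (t : ℝ) ≤ n := by exact_mod_cast htn
      linarith
    have a2 : (n : ℝ) + 1 ≤ Real.exp (EE μ s n) := by
      have a3 := Real.exp_le_exp.2 hlog
      rwa [Real.exp_log (by positivity)] at a3
    linarith
  refine (mul_le_mul_of_nonneg_right g7 (Real.exp_pos _).le).trans ?_
  rw [← Real.exp_add]
  exact Real.exp_le_exp.2 (by linarith)

end

end Pool.Agent.W_7d29a1_C1.P24
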