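import Pool.Agent.W_7d29a1_C1.CR76

/-!
MP_7d29a1_pr, [C1] THE LUCKY PINCH, part D (helper24): deterministic. Five kernels `k0 .. k4` (typical, lane, rank one on cells, lane,
typical), `tot` = their composition over a window `S`, `mn` = the part which runs through the four cells `C0 .. C3`. Everything off the
cells is small (`tot_le`), the main part is of rank one (`mn_rank`), and flat in both ends (`mn_flat`, `mn_flat'`).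
-/

set_option autoImplicit false

namespace Pool.Agent.W_7d29a1_C1.P24

open Finset
open Pool.Agent.W_7d29a1_C1.CR76 (CR)

noncomputable section

/-- One coarse path. -/
def f24 (k0 k1 k2 k3 k4 : ℤ → ℤ → ℝ) (x z : ℤ) (y : ℤ × ℤ × ℤ × ℤ) : ℝ :=
  k0 x y.1 * k1 y.1 y.2.1 * k2 y.2.1 y.2.2.1 * k3 y.2.2.1 y.2.2.2 * k4 y.2.2.2 z

/-- The paths through the cells. -/
def mn24 (k0 k1 k2 k3 k4 : ℤ → ℤ → ℝ) (C0 C1 C2 C3 : Finset ℤ) (x z : ℤ) : ℝ :=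
  ∑ y ∈ C0 ×ˢ C1 ×ˢ C2 ×ˢ C3, f24 k0 k1 k2 k3 k4 x z y

variable {k0 k1 k2 k3 k4 : ℤ → ℤ → ℝ} {C0 C1 C2 C3 S : Finset ℤ}

theorem f24_nn (h0 : ∀ a b, 0 ≤ k0 a b) (h1 : ∀ a b, 0 ≤ k1 a b) (h2 : ∀ a b, 0 ≤ k2 a b) (h3 : ∀ a b, 0 ≤ k3 a b)
    (h4 : ∀ a b, 0 ≤ k4 a b) (x z : ℤ) (y : ℤ × ℤ × ℤ × ℤ) : 0 ≤ f24 k0 k1 k2 k3 k4 x z y := by
  unfold f24
  exact mul_nonneg (mul_nonneg (mul_nonneg (mul_nonneg (h0 _ _) (h1 _ _)) (h2 _ _)) (h3 _ _)) (h4 _ _)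

theorem mn24_eq (x z : ℤ) : mn24 k0 k1 k2 k3 k4 C0 C1 C2 C3 x z =
    ∑ y0 ∈ C0, ∑ y1 ∈ C1, ∑ y2 ∈ C2, ∑ y3 ∈ C3, k0 x y0 * k1 y0 y1 * k2 y1 y2 * k3 y2 y3 * k4 y3 z := by
  unfold mn24 f24
  rw [sum_product]
  refine sum_congr rfl fun y0 _ => ?_
  rw [sum_product]
  refine sum_congr rfl fun y1 _ => ?_
  rw [sum_product]

theorem mn24_nn (h0 : ∀ a b, 0 ≤ k0 a b) (h1 : ∀ a b, 0 ≤ k1 a b) (h2 : ∀ a b, 0 ≤ k2 a b) (h3 : ∀ a b, 0 ≤ k3 a b)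
    (h4 : ∀ a b, 0 ≤ k4 a b) (x z : ℤ) : 0 ≤ mn24 k0 k1 k2 k3 k4 C0 C1 C2 C3 x z :=
  sum_nonneg fun y _ => f24_nn h0 h1 h2 h3 h4 x z y

/-- One path of the cells is a lower bound. -/
theorem mn24_ge (h0 : ∀ a b, 0 ≤ k0 a b) (h1 : ∀ a b, 0 ≤ k1 a b) (h2 : ∀ a b, 0 ≤ k2 a b) (h3 : ∀ a b, 0 ≤ k3 a b)
    (h4 : ∀ a b, 0 ≤ k4 a b) (x z : ℤ) {a0 a1 a2 a3 : ℤ} (m0 : a0 ∈ C0) (m1 : a1 ∈ C1) (m2 : a2 ∈ C2) (m3 : a3 ∈ C3) :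
    k0 x a0 * k1 a0 a1 * k2 a1 a2 * k3 a2 a3 * k4 a3 z ≤ mn24 k0 k1 k2 k3 k4 C0 C1 C2 C3 x z := by
  have hm : ((a0, a1, a2, a3) : ℤ × ℤ × ℤ × ℤ) ∈ C0 ×ˢ C1 ×ˢ C2 ×ˢ C3 := by
    simp only [mem_product]
    exact ⟨m0, m1, m2, m3⟩
  exact single_le_sum (f := fun y => f24 k0 k1 k2 k3 k4 x z y) (fun y _ => f24_nn h0 h1 h2 h3 h4 x z y) hm

/-- **Everything off the cells is small.** -/
theorem tot24_le (h0 : ∀ a b, 0 ≤ k0 a b) (h1 : ∀ a b, 0 ≤ k1 a b) (h2 : ∀ a b, 0 ≤ k2 a b) (h3 : ∀ a b, 0 ≤ k3 a b)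
    (h4 : ∀ a b, 0 ≤ k4 a b) (s0 : C0 ⊆ S) (s1 : C1 ⊆ S) (s2 : C2 ⊆ S) (s3 : C3 ⊆ S) (x z : ℤ) {t : ℝ} (ht : 0 ≤ t)
    (hoff : ∀ y0 y1 y2 y3 : ℤ, ¬ (y0 ∈ C0 ∧ y1 ∈ C1 ∧ y2 ∈ C2 ∧ y3 ∈ C3) → k0 x y0 * k1 y0 y1 * k2 y1 y2 * k3 y2 y3 * k4 y3 z ≤ t) :
    mn24 k0 k1 k2 k3 k4 C0 C1 C2 C3 x z ≤ mn24 k0 k1 k2 k3 k4 S S S S x z ∧
      mn24 k0 k1 k2 k3 k4 S S S S x z ≤ mn24 k0 k1 k2 k3 k4 C0 C1 C2 C3 x z + (S.card : ℝ) ^ 4 * t := by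
  classical
  have hsub : C0 ×ˢ C1 ×ˢ C2 ×ˢ C3 ⊆ S ×ˢ S ×ˢ S ×ˢ S :=
    product_subset_product s0 (product_subset_product s1 (product_subset_product s2 s3))
  constructor
  · exact sum_le_sum_of_subset_of_nonneg hsub fun y _ _ => f24_nn h0 h1 h2 h3 h4 x z y
  · unfold mn24
    rw [← sum_sdiff hsub, add_comm]
    refine add_le_add le_rfl ?_
    refine (sum_le_card_nsmul _ _ t fun y hy => ?_).trans ?_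
    · rw [mem_sdiff] at hy
      refine hoff y.1 y.2.1 y.2.2.1 y.2.2.2 fun hc => hy.2 ?_
      simp only [mem_product]
      exact hc
    · rw [nsmul_eq_mul]
      refine mul_le_mul_of_nonneg_right ?_ ht
      have c1 : ((S ×ˢ S ×ˢ S ×ˢ S) \ (C0 ×ˢ C1 ×ˢ C2 ×ˢ C3)).card ≤ S.card ^ 4 := by
        refine (card_le_card sdiff_subset).trans (le_of_eq ?_)
        simp only [card_product]
        ring
      exact_mod_cast c1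

/-- **The main part is of rank one.** -/
theorem mn24_rank (h0 : ∀ a b, 0 ≤ k0 a b) (h1 : ∀ a b, 0 ≤ k1 a b) (h3 : ∀ a b, 0 ≤ k3 a b)
    (h4 : ∀ a b, 0 ≤ k4 a b) {e : ℝ} (hr : ∀ y ∈ C1, ∀ y' ∈ C1, ∀ v ∈ C2, ∀ v' ∈ C2, k2 y v * k2 y' v' ≤ e * (k2 y v' * k2 y' v))
    (x x' z z' : ℤ) :
    mn24 k0 k1 k2 k3 k4 C0 C1 C2 C3 x z * mn24 k0 k1 k2 k3 k4 C0 C1 C2 C3 x' z' ≤
      e * (mn24 k0 k1 k2 k3 k4 C0 C1 C2 C3 x z' * mn24 k0 k1 k2 k3 k4 C0 C1 C2 C3 x' z) := by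
  have key : ∀ u v : ℤ, mn24 k0 k1 k2 k3 k4 C0 C1 C2 C3 u v =
      ∑ y ∈ C1, ∑ w ∈ C2, (∑ y0 ∈ C0, k0 u y0 * k1 y0 y) * k2 y w * ∑ y3 ∈ C3, k3 w y3 * k4 y3 v := by
    intro u v
    rw [mn24_eq, sum_comm]
    refine sum_congr rfl fun y _ => ?_
    rw [sum_comm]
    refine sum_congr rfl fun w _ => ?_
    rw [sum_mul, sum_mul]
    refine sum_congr rfl fun y0 _ => ?_
    rw [mul_sum]
    refine sum_congr rfl fun y3 _ => ?_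
    ring
  obtain ⟨A, hA⟩ : ∃ A : ℤ → ℤ → ℝ, A = fun u y => ∑ y0 ∈ C0, k0 u y0 * k1 y0 y := ⟨_, rfl⟩
  obtain ⟨B, hB⟩ : ∃ B : ℤ → ℤ → ℝ, B = fun w v => ∑ y3 ∈ C3, k3 w y3 * k4 y3 v := ⟨_, rfl⟩
  have A0 : ∀ u y, 0 ≤ A u y := fun u y => by rw [hA]; exact sum_nonneg fun y0 _ => mul_nonneg (h0 _ _) (h1 _ _)
  have B0 : ∀ w v, 0 ≤ B w v := fun w v => by rw [hB]; exact sum_nonneg fun y3 _ => mul_nonneg (h3 _ _) (h4 _ _)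
  have key2 : ∀ u v : ℤ, mn24 k0 k1 k2 k3 k4 C0 C1 C2 C3 u v = ∑ p ∈ C1 ×ˢ C2, A u p.1 * k2 p.1 p.2 * B p.2 v := by
    intro u v
    rw [key, sum_product, hA, hB]
  rw [key2, key2, key2, key2, sum_mul_sum, sum_mul_sum, ← sum_product', ← sum_product', mul_sum]
  -- exchange the second coordinates of the two points
  have swap : ∑ q ∈ (C1 ×ˢ C2) ×ˢ (C1 ×ˢ C2), e * (A x q.1.1 * k2 q.1.1 q.1.2 * B q.1.2 z' * (A x' q.2.1 * k2 q.2.1 q.2.2 * B q.2.2 z)) =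
      ∑ q ∈ (C1 ×ˢ C2) ×ˢ (C1 ×ˢ C2), e * (A x q.1.1 * k2 q.1.1 q.2.2 * B q.2.2 z' * (A x' q.2.1 * k2 q.2.1 q.1.2 * B q.1.2 z)) := by
    refine sum_nbij' (fun q => ((q.1.1, q.2.2), (q.2.1, q.1.2))) (fun q => ((q.1.1, q.2.2), (q.2.1, q.1.2))) ?_ ?_ ?_ ?_ ?_
    · intro q hq
      simp only [mem_product] at hq ⊢
      exact ⟨⟨hq.1.1, hq.2.2⟩, hq.2.1, hq.1.2⟩
    · intro q hq
      simp only [mem_product] at hq ⊢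
      exact ⟨⟨hq.1.1, hq.2.2⟩, hq.2.1, hq.1.2⟩
    · intro q _; rfl
    · intro q _; rfl
    · intro q _; rfl
  rw [swap]
  refine sum_le_sum fun q hq => ?_
  simp only [mem_product] at hq
  have h5 := hr q.1.1 hq.1.1 q.2.1 hq.2.1 q.1.2 hq.1.2 q.2.2 hq.2.2
  have h6 : 0 ≤ A x q.1.1 * A x' q.2.1 * (B q.1.2 z * B q.2.2 z') := by
    have := A0 x q.1.1
    have := A0 x' q.2.1
    have := B0 q.1.2 z
    have := B0 q.2.2 z'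
    positivity
  have h7 := mul_le_mul_of_nonneg_left h5 h6
  calc A x q.1.1 * k2 q.1.1 q.1.2 * B q.1.2 z * (A x' q.2.1 * k2 q.2.1 q.2.2 * B q.2.2 z')
      = A x q.1.1 * A x' q.2.1 * (B q.1.2 z * B q.2.2 z') * (k2 q.1.1 q.1.2 * k2 q.2.1 q.2.2) := by ring
    _ ≤ A x q.1.1 * A x' q.2.1 * (B q.1.2 z * B q.2.2 z') * (e * (k2 q.1.1 q.2.2 * k2 q.2.1 q.1.2)) := h7
    _ = _ := by ring

/-- Flat in the starts. -/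
theorem mn24_flat (h1 : ∀ a b, 0 ≤ k1 a b) (h2 : ∀ a b, 0 ≤ k2 a b) (h3 : ∀ a b, 0 ≤ k3 a b)
    (h4 : ∀ a b, 0 ≤ k4 a b) {R : ℝ} {x x' : ℤ} (hR : ∀ y ∈ C0, k0 x y ≤ R * k0 x' y) (z : ℤ) :
    mn24 k0 k1 k2 k3 k4 C0 C1 C2 C3 x z ≤ R * mn24 k0 k1 k2 k3 k4 C0 C1 C2 C3 x' z := by
  unfold mn24
  rw [mul_sum]
  refine sum_le_sum fun y hy => ?_
  simp only [mem_product] at hy
  have h5 := hR y.1 hy.1
  have h6 : 0 ≤ k1 y.1 y.2.1 * k2 y.2.1 y.2.2.1 * k3 y.2.2.1 y.2.2.2 * k4 y.2.2.2 z :=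
    mul_nonneg (mul_nonneg (mul_nonneg (h1 _ _) (h2 _ _)) (h3 _ _)) (h4 _ _)
  have h7 := mul_le_mul_of_nonneg_right h5 h6
  unfold f24
  calc k0 x y.1 * k1 y.1 y.2.1 * k2 y.2.1 y.2.2.1 * k3 y.2.2.1 y.2.2.2 * k4 y.2.2.2 z
      = k0 x y.1 * (k1 y.1 y.2.1 * k2 y.2.1 y.2.2.1 * k3 y.2.2.1 y.2.2.2 * k4 y.2.2.2 z) := by ring
    _ ≤ _ := h7
    _ = _ := by ring

/-- Flat in the ends. -/
theorem mn24_flat' (h0 : ∀ a b, 0 ≤ k0 a b) (h1 : ∀ a b, 0 ≤ k1 a b) (h2 : ∀ a b, 0 ≤ k2 a b) (h3 : ∀ a b, 0 ≤ k3 a b)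
    {R : ℝ} {z z' : ℤ} (hR : ∀ y ∈ C3, k4 y z ≤ R * k4 y z') (x : ℤ) :
    mn24 k0 k1 k2 k3 k4 C0 C1 C2 C3 x z ≤ R * mn24 k0 k1 k2 k3 k4 C0 C1 C2 C3 x z' := by
  unfold mn24
  rw [mul_sum]
  refine sum_le_sum fun y hy => ?_
  simp only [mem_product] at hy
  have h5 := hR y.2.2.2 hy.2.2.2
  have h6 : 0 ≤ k0 x y.1 * k1 y.1 y.2.1 * k2 y.2.1 y.2.2.1 * k3 y.2.2.1 y.2.2.2 :=
    mul_nonneg (mul_nonneg (mul_nonneg (h0 _ _) (h1 _ _)) (h2 _ _)) (h3 _ _)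
  have h7 := mul_le_mul_of_nonneg_left h5 h6
  unfold f24
  calc k0 x y.1 * k1 y.1 y.2.1 * k2 y.2.1 y.2.2.1 * k3 y.2.2.1 y.2.2.2 * k4 y.2.2.2 z ≤ _ := h7
    _ = _ := by ring

/-- From the main part to the whole kernel. -/
theorem CR_of_main {K M : ℤ → ℤ → ℝ} {x x' z z' : ℤ} {e τ : ℝ} (he : 0 ≤ e) (hτ : 0 ≤ τ) (hM : ∀ u v, 0 ≤ M u v)
    (hMK : ∀ u v, M u v ≤ K u v) (p1 : 0 < K x z') (p2 : 0 < K x' z)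
    (k1 : K x z ≤ (1 + τ) * M x z) (k2 : K x' z' ≤ (1 + τ) * M x' z')
    (hr : M x z * M x' z' ≤ e * (M x z' * M x' z)) : CR K x x' z z' ≤ (1 + τ) ^ 2 * e := by
  unfold CR
  rw [div_le_iff₀ (mul_pos p1 p2)]
  have g1 : K x z * K x' z' ≤ (1 + τ) * M x z * ((1 + τ) * M x' z') :=
    mul_le_mul k1 k2 ((hM _ _).trans (hMK _ _)) (mul_nonneg (by linarith) (hM _ _))
  have g2 : M x z' * M x' z ≤ K x z' * K x' z := mul_le_mul (hMK _ _) (hMK _ _) (hM _ _) p1.le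
  calc K x z * K x' z' ≤ (1 + τ) * M x z * ((1 + τ) * M x' z') := g1
    _ = (1 + τ) ^ 2 * (M x z * M x' z') := by ring
    _ ≤ (1 + τ) ^ 2 * (e * (M x z' * M x' z)) := mul_le_mul_of_nonneg_left hr (by positivity)
    _ ≤ (1 + τ) ^ 2 * (e * (K x z' * K x' z)) := mul_le_mul_of_nonneg_left (mul_le_mul_of_nonneg_left g2 he) (by positivity)
    _ = _ := by ring

end

end Pool.Agent.W_7d29a1_C1.P24
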