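import Pool.Agent.W_7d29a1_C1.PinA24
import Pool.Agent.W_7d29a1_C1.PinD24

/-!
MP_7d29a1_pr, [C1] THE LUCKY PINCH, part B (helper24): coarse paths off the cells. `EK24`: envelope of a kernel between two rows with
centres `ca`, `cb`. `Lane24`: one lane. `off24`: five kernels, the second and the fourth with a lane; a coarse path from a start of the
window which misses one of the four cells has weight at most `exp (- G E)`.
-/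

set_option autoImplicit false

namespace Pool.Agent.W_7d29a1_C1.P24

open Finset
open Pool.Agent.W_7d29a1_C1.U16 (fq16 fq16_one fq16_mono)

noncomputable section

/-- The envelope of a kernel. -/
def EK24 (k : ℤ → ℤ → ℝ) (ca cb w E κ q : ℝ) (P : ℕ) : Prop := ∀ y y' : ℤ,
  k y y' ≤ Real.exp (q * fq16 P (|(y : ℝ) - ca| / w + 1) * E - κ * E * (|((y' : ℝ) - cb) - ((y : ℝ) - ca)| / w))

/-- One lane. -/
structure Lane24 (k : ℤ → ℤ → ℝ) (a e : ℤ) (ρ ω L G : ℝ) : Prop where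
  low : Real.exp L ≤ k a e
  off : ∀ y y' : ℤ, |(y : ℝ) - a| ≤ ω → ¬ (|(y : ℝ) - a| ≤ ρ ∧ |(y' : ℝ) - e| ≤ ρ) → k y y' ≤ Real.exp (-G)

/-- A cell. -/
def Ce24 (a : ℤ) (ρ : ℝ) : Finset ℤ := Icc (a - ⌊ρ⌋) (a + ⌊ρ⌋)

theorem mem_Ce24 {a y : ℤ} {ρ : ℝ} : y ∈ Ce24 a ρ ↔ |(y : ℝ) - a| ≤ ρ := by
  unfold Ce24
  rw [mem_Icc]
  constructor
  · rintro ⟨h1, h2⟩
    have h3 : (⌊ρ⌋ : ℝ) ≤ ρ := Int.floor_le ρ
    have h4 : ((a - ⌊ρ⌋ : ℤ) : ℝ) ≤ y := by exact_mod_cast h1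
    have h5 : (y : ℝ) ≤ ((a + ⌊ρ⌋ : ℤ) : ℝ) := by exact_mod_cast h2
    push_cast at h4 h5
    rw [abs_le]
    constructor <;> linarith
  · intro h
    have h1 : |y - a| ≤ ⌊ρ⌋ := by
      rw [Int.le_floor]
      push_cast
      exact h
    rw [abs_le] at h1
    constructor <;> omega

theorem fq_mono' {P : ℕ} {u v : ℝ} (hu : 0 ≤ u) (huv : u ≤ v) : fq16 P u ≤ fq16 P v := by
  refine fq16_mono ?_
  rw [abs_of_nonneg hu, abs_of_nonneg (hu.trans huv)]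
  exact huv

section Path

variable {k0 k1 k2 k3 k4 : ℤ → ℤ → ℝ} {c0 c1 c2 c3 c4 c5 w E κ q : ℝ} {P : ℕ}

/-- **One coarse path.** -/
theorem path24 (hw : 0 < w) (hE : 0 ≤ E) (hq : 0 ≤ q)
    (n1 : ∀ a b, 0 ≤ k1 a b) (n2 : ∀ a b, 0 ≤ k2 a b) (n3 : ∀ a b, 0 ≤ k3 a b) (n4 : ∀ a b, 0 ≤ k4 a b)
    (e0 : EK24 k0 c0 c1 w E κ q P) (e1 : EK24 k1 c1 c2 w E κ q P) (e2 : EK24 k2 c2 c3 w E κ q P)
    (e3 : EK24 k3 c3 c4 w E κ q P) (e4 : EK24 k4 c4 c5 w E κ q P) (x y0 y1 y2 y3 z : ℤ) :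
    ∃ V : ℝ, 0 ≤ V ∧ |(y0 : ℝ) - c1| / w ≤ |(x : ℝ) - c0| / w + V ∧ |(y1 : ℝ) - c2| / w ≤ |(x : ℝ) - c0| / w + V ∧
      |(y2 : ℝ) - c3| / w ≤ |(x : ℝ) - c0| / w + V ∧ |(y3 : ℝ) - c4| / w ≤ |(x : ℝ) - c0| / w + V ∧
      |(z : ℝ) - c5| / w ≤ |(x : ℝ) - c0| / w + V ∧
      k0 x y0 * k1 y0 y1 * k2 y1 y2 * k3 y2 y3 * k4 y3 z ≤
        Real.exp (5 * q * fq16 P (|(x : ℝ) - c0| / w + V + 1) * E - κ * E * V) := by
  obtain ⟨X0, hX0⟩ : ∃ X0 : ℝ, X0 = (x : ℝ) - c0 := ⟨_, rfl⟩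
  obtain ⟨X1, hX1⟩ : ∃ X1 : ℝ, X1 = (y0 : ℝ) - c1 := ⟨_, rfl⟩
  obtain ⟨X2, hX2⟩ : ∃ X2 : ℝ, X2 = (y1 : ℝ) - c2 := ⟨_, rfl⟩
  obtain ⟨X3, hX3⟩ : ∃ X3 : ℝ, X3 = (y2 : ℝ) - c3 := ⟨_, rfl⟩
  obtain ⟨X4, hX4⟩ : ∃ X4 : ℝ, X4 = (y3 : ℝ) - c4 := ⟨_, rfl⟩
  obtain ⟨X5, hX5⟩ : ∃ X5 : ℝ, X5 = (z : ℝ) - c5 := ⟨_, rfl⟩
  have g0 := e0 x y0
  have g1 := e1 y0 y1
  have g2 := e2 y1 y2
  have g3 := e3 y2 y3
  have g4 := e4 y3 z
  rw [← hX0, ← hX1] at g0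
  rw [← hX1, ← hX2] at g1
  rw [← hX2, ← hX3] at g2
  rw [← hX3, ← hX4] at g3
  rw [← hX4, ← hX5] at g4
  rw [← hX0, ← hX1, ← hX2, ← hX3, ← hX4, ← hX5]
  -- the variations
  obtain ⟨v0, hv0⟩ : ∃ v : ℝ, v = |X1 - X0| / w := ⟨_, rfl⟩
  obtain ⟨v1, hv1⟩ : ∃ v : ℝ, v = |X2 - X1| / w := ⟨_, rfl⟩
  obtain ⟨v2, hv2⟩ : ∃ v : ℝ, v = |X3 - X2| / w := ⟨_, rfl⟩
  obtain ⟨v3, hv3⟩ : ∃ v : ℝ, v = |X4 - X3| / w := ⟨_, rfl⟩
  obtain ⟨v4, hv4⟩ : ∃ v : ℝ, v = |X5 - X4| / w := ⟨_, rfl⟩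
  have p0 : 0 ≤ v0 := by rw [hv0]; positivity
  have p1 : 0 ≤ v1 := by rw [hv1]; positivity
  have p2 : 0 ≤ v2 := by rw [hv2]; positivity
  have p3 : 0 ≤ v3 := by rw [hv3]; positivity
  have p4 : 0 ≤ v4 := by rw [hv4]; positivity
  have tri : ∀ a b v : ℝ, v = |b - a| / w → |b| / w ≤ |a| / w + v := by
    intro a b v hv
    rw [hv, ← add_div]
    refine div_le_div_of_nonneg_right ?_ hw.le
    have := abs_add_le a (b - a)
    rwa [add_sub_cancel] at this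
  have t1 := tri X0 X1 v0 hv0
  have t2 := tri X1 X2 v1 hv1
  have t3 := tri X2 X3 v2 hv2
  have t4 := tri X3 X4 v3 hv3
  have t5 := tri X4 X5 v4 hv4
  have a0 : 0 ≤ |X0| / w := by positivity
  have a1 : 0 ≤ |X1| / w := by positivity
  have a2 : 0 ≤ |X2| / w := by positivity
  have a3 : 0 ≤ |X3| / w := by positivity
  have a4 : 0 ≤ |X4| / w := by positivity
  refine ⟨v0 + v1 + v2 + v3 + v4, by positivity, by linarith, by linarith, by linarith, by linarith, by linarith, ?_⟩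
  obtain ⟨F, hF⟩ : ∃ F : ℝ, F = fq16 P (|X0| / w + (v0 + v1 + v2 + v3 + v4) + 1) := ⟨_, rfl⟩
  rw [← hF]
  have f0 : fq16 P (|X0| / w + 1) ≤ F := by rw [hF]; exact fq_mono' (by linarith) (by linarith)
  have f1 : fq16 P (|X1| / w + 1) ≤ F := by rw [hF]; exact fq_mono' (by linarith) (by linarith)
  have f2 : fq16 P (|X2| / w + 1) ≤ F := by rw [hF]; exact fq_mono' (by linarith) (by linarith)
  have f3 : fq16 P (|X3| / w + 1) ≤ F := by rw [hF]; exact fq_mono' (by linarith) (by linarith)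
  have f4 : fq16 P (|X4| / w + 1) ≤ F := by rw [hF]; exact fq_mono' (by linarith) (by linarith)
  have up : ∀ f v : ℝ, f ≤ F → Real.exp (q * f * E - κ * E * v) ≤ Real.exp (q * F * E - κ * E * v) := by
    intro f v hf
    refine Real.exp_le_exp.2 ?_
    have := mul_le_mul_of_nonneg_right (mul_le_mul_of_nonneg_left hf hq) hE
    linarith
  rw [← hv0] at g0
  rw [← hv1] at g1
  rw [← hv2] at g2
  rw [← hv3] at g3
  rw [← hv4] at g4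
  have h0 := g0.trans (up _ v0 f0)
  have h1 := g1.trans (up _ v1 f1)
  have h2 := g2.trans (up _ v2 f2)
  have h3 := g3.trans (up _ v3 f3)
  have h4 := g4.trans (up _ v4 f4)
  have m1 := mul_le_mul h0 h1 (n1 _ _) (Real.exp_pos _).le
  have m2 := mul_le_mul m1 h2 (n2 _ _) (by positivity)
  have m3 := mul_le_mul m2 h3 (n3 _ _) (by positivity)
  have m4 := mul_le_mul m3 h4 (n4 _ _) (by positivity)
  refine m4.trans (le_of_eq ?_)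
  rw [← Real.exp_add, ← Real.exp_add, ← Real.exp_add, ← Real.exp_add]
  congr 1
  ring

/-- **A coarse path which misses one of the four cells.** -/
theorem off24 (hw : 0 < w) (hE : 0 ≤ E) (hq : 0 ≤ q) (hκ : 0 ≤ κ)
    (n1 : ∀ a b, 0 ≤ k1 a b) (n2 : ∀ a b, 0 ≤ k2 a b) (n3 : ∀ a b, 0 ≤ k3 a b) (n4 : ∀ a b, 0 ≤ k4 a b)
    (e0 : EK24 k0 c0 c1 w E κ q P) (e1 : EK24 k1 c1 c2 w E κ q P) (e2 : EK24 k2 c2 c3 w E κ q P)
    (e3 : EK24 k3 c3 c4 w E κ q P) (e4 : EK24 k4 c4 c5 w E κ q P)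
    {K D G Gs ρ ω L : ℝ} {a1 b1 a3 b3 : ℤ} (hD0 : 0 ≤ D) (hD : ∀ V : ℝ, D ≤ V → 5 * q * fq16 P (K + V + 1) + G ≤ κ * V)
    (hG : 4 * q * fq16 P (K + D + 1) * E + G * E ≤ Gs)
    (l1 : Lane24 k1 a1 b1 ρ ω L Gs) (l3 : Lane24 k3 a3 b3 ρ ω L Gs)
    (o1 : ∀ y : ℤ, |(y : ℝ) - c1| / w ≤ K + D → |(y : ℝ) - a1| ≤ ω) (o3 : ∀ y : ℤ, |(y : ℝ) - c3| / w ≤ K + D → |(y : ℝ) - a3| ≤ ω)
    {x : ℤ} (hx : |(x : ℝ) - c0| / w ≤ K) (z y0 y1 y2 y3 : ℤ)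
    (hoff : ¬ (y0 ∈ Ce24 a1 ρ ∧ y1 ∈ Ce24 b1 ρ ∧ y2 ∈ Ce24 a3 ρ ∧ y3 ∈ Ce24 b3 ρ)) :
    k0 x y0 * k1 y0 y1 * k2 y1 y2 * k3 y2 y3 * k4 y3 z ≤ Real.exp (-(G * E)) := by
  obtain ⟨V, hV, t1, t2, t3, t4, -, hp⟩ := path24 hw hE hq n1 n2 n3 n4 e0 e1 e2 e3 e4 x y0 y1 y2 y3 z
  have a0 : 0 ≤ |(x : ℝ) - c0| / w := by positivity
  rcases le_total D V with hDV | hDV
  · refine hp.trans (Real.exp_le_exp.2 ?_)
    have h1 := hD V hDV
    have h2 : fq16 P (|(x : ℝ) - c0| / w + V + 1) ≤ fq16 P (K + V + 1) := fq_mono' (by linarith) (by linarith)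
    have h3 : 5 * q * fq16 P (|(x : ℝ) - c0| / w + V + 1) ≤ 5 * q * fq16 P (K + V + 1) := mul_le_mul_of_nonneg_left h2 (by positivity)
    have h4 : (5 * q * fq16 P (|(x : ℝ) - c0| / w + V + 1) + G) * E ≤ κ * V * E := mul_le_mul_of_nonneg_right (by linarith) hE
    linarith
  · -- all the positions are in the window
    obtain ⟨F, hF⟩ : ∃ F : ℝ, F = fq16 P (K + D + 1) := ⟨_, rfl⟩
    rw [← hF] at hG
    have up : ∀ (k : ℤ → ℤ → ℝ) (ca cb : ℝ) (y y' : ℤ), EK24 k ca cb w E κ q P → |(y : ℝ) - ca| / w ≤ K + D →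
        k y y' ≤ Real.exp (q * F * E) := by
      intro k ca cb y y' hk hy
      refine (hk y y').trans (Real.exp_le_exp.2 ?_)
      have b0 : 0 ≤ |(y : ℝ) - ca| / w := by positivity
      have h2 : fq16 P (|(y : ℝ) - ca| / w + 1) ≤ F := by rw [hF]; exact fq_mono' (by linarith) (by linarith)
      have h3 := mul_le_mul_of_nonneg_right (mul_le_mul_of_nonneg_left h2 hq) hE
      have h4 : 0 ≤ κ * E * (|((y' : ℝ) - cb) - ((y : ℝ) - ca)| / w) := by positivity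
      linarith
    have u0 := up k0 c0 c1 x y0 e0 (by linarith)
    have u1 := up k1 c1 c2 y0 y1 e1 (by linarith)
    have u2 := up k2 c2 c3 y1 y2 e2 (by linarith)
    have u3 := up k3 c3 c4 y2 y3 e3 (by linarith)
    have u4 := up k4 c4 c5 y3 z e4 (by linarith)
    have hcase : k1 y0 y1 ≤ Real.exp (-Gs) ∨ k3 y2 y3 ≤ Real.exp (-Gs) := by
      by_cases h1 : |(y0 : ℝ) - a1| ≤ ρ ∧ |(y1 : ℝ) - b1| ≤ ρ
      · right
        refine l3.off y2 y3 (o3 y2 (by linarith)) fun h2 => hoff ?_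
        exact ⟨mem_Ce24.2 h1.1, mem_Ce24.2 h1.2, mem_Ce24.2 h2.1, mem_Ce24.2 h2.2⟩
      · left
        exact l1.off y0 y1 (o1 y0 (by linarith)) h1
    rcases hcase with h1 | h1
    · have m1 := mul_le_mul u0 h1 (n1 _ _) (Real.exp_pos _).le
      have m2 := mul_le_mul m1 u2 (n2 _ _) (by positivity)
      have m3 := mul_le_mul m2 u3 (n3 _ _) (by positivity)
      have m4 := mul_le_mul m3 u4 (n4 _ _) (by positivity)
      refine m4.trans ?_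
      rw [← Real.exp_add, ← Real.exp_add, ← Real.exp_add, ← Real.exp_add]
      exact Real.exp_le_exp.2 (by linarith)
    · have m1 := mul_le_mul u0 u1 (n1 _ _) (Real.exp_pos _).le
      have m2 := mul_le_mul m1 u2 (n2 _ _) (by positivity)
      have m3 := mul_le_mul m2 h1 (n3 _ _) (by positivity)
      have m4 := mul_le_mul m3 u4 (n4 _ _) (by positivity)
      refine m4.trans ?_
      rw [← Real.exp_add, ← Real.exp_add, ← Real.exp_add, ← Real.exp_add]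
      exact Real.exp_le_exp.2 (by linarith)

end Path

end

end Pool.Agent.W_7d29a1_C1.P24
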