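import Pool.Agent.W_7d29a1_C1.PinC24

/-!
MP_7d29a1_pr, [C1] THE LUCKY PINCH, part F (helper24): from the facts of the five slabs (`PF24`) to the properties of the block (`PN24`).
The block has the rows `b.1 .. b.1 + n`, `n = T + (T + (T + (T + m)))`; slabs: typical, lane `a1 → e1`, rank one on the cells of `e1, a2`,
lane `a2 → e2`, typical.
-/

set_option autoImplicit false

namespace Pool.Agent.W_7d29a1_C1.P24

open MeasureTheory ProbabilityTheory Filter Topology Finset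
open Pool.Agent.W_7d29a1_F Pool.Agent.W_7d29a1_h4g Pool.Agent.W_7d29a1_H Pool.Agent.W_7d29a1_HS
open Pool.Agent.W_7d29a1_C1
open Pool.Agent.W_7d29a1_C1.CR76 Pool.Agent.W_7d29a1_C1.Basin76
open Pool.Agent.W_7d29a1_C1.H75 (hc)
open Pool.Agent.W_7d29a1_C1.U16 (fq16 fq16_one fq16_mono lat16 Far16 far_low)

noncomputable section

variable {μ : Measure ℝ} {s c C : ℝ} {n₀ : ℕ}

/-- The facts of the five slabs. -/
structure PF24 (μ : Measure ℝ) (s : ℝ) (η : Env) (b : Pt) (n T m P : ℕ) (a1 e1 a2 e2 : ℤ) (κ q0 q ρ K ℓ ω Lb Gs ε : ℝ) : Prop where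
  up0 : η ∈ EVR24 μ s κ n P b.1 (b.1 + T) b q0
  up1 : η ∈ EVR24 μ s κ n P (b.1 + T) (b.1 + T + T) b q
  up2 : η ∈ EVR24 μ s κ n P (b.1 + T + T) (b.1 + T + T + T) b q0
  up3 : η ∈ EVR24 μ s κ n P (b.1 + T + T + T) (b.1 + T + T + T + T) b q
  up4 : η ∈ EVR24 μ s κ n P (b.1 + T + T + T + T) (b.1 + T + T + T + T + m) b q0
  low0 : ∀ u y : ℤ, |(u : ℝ) - b.2| ≤ K * wd μ s n → y ∈ Ce24 a1 ρ → Real.exp (-(ℓ * EE μ s n)) ≤ kW μ s η b.1 T u y
  low2 : ∀ y ∈ Ce24 e1 ρ, ∀ y' ∈ Ce24 a2 ρ, Real.exp (-(ℓ * EE μ s n)) ≤ kW μ s η (b.1 + T + T) T y y'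
  low4 : ∀ y ∈ Ce24 e2 ρ, ∀ v : ℤ, |(v : ℝ) - b.2 - sl μ s * n| ≤ K * wd μ s n →
    Real.exp (-(ℓ * EE μ s n)) ≤ kW μ s η (b.1 + T + T + T + T) m y v
  l1 : Lane24 (kW μ s η (b.1 + T) T) a1 e1 ρ ω Lb Gs
  l3 : Lane24 (kW μ s η (b.1 + T + T + T) T) a2 e2 ρ ω Lb Gs
  rk : ∀ y ∈ Ce24 e1 ρ, ∀ y' ∈ Ce24 e1 ρ, ∀ v ∈ Ce24 a2 ρ, ∀ v' ∈ Ce24 a2 ρ,
    kW μ s η (b.1 + T + T) T y v * kW μ s η (b.1 + T + T) T y' v' ≤
      (1 + ε) * (kW μ s η (b.1 + T + T) T y v' * kW μ s η (b.1 + T + T) T y' v)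

/-- The part of the kernel of the block which runs through the four cells. -/
def cel24 (μ : Measure ℝ) (s : ℝ) (η : Env) (b : Pt) (T m : ℕ) (a1 e1 a2 e2 : ℤ) (ρ : ℝ) (u v : ℤ) : ℝ :=
  mn24 (kW μ s η b.1 T) (kW μ s η (b.1 + T) T) (kW μ s η (b.1 + T + T) T) (kW μ s η (b.1 + T + T + T) T)
    (kW μ s η (b.1 + T + T + T + T) m) (Ce24 a1 ρ) (Ce24 e1 ρ) (Ce24 a2 ρ) (Ce24 e2 ρ) u v

/-- **The properties of the block.** `K`: half width of the window, `D`: of the starts with full control, `L`: bonus, `G`: depth,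
`K₁`, `κ`: flatness, before `L`; `ε`: rank one. -/
structure PN24 (μ : Measure ℝ) (s : ℝ) (η : Env) (b : Pt) (n P : ℕ) (K D L G K₁ κ ε : ℝ) : Prop where
  rank : ∀ u u' v v' : ℤ, |(u : ℝ) - b.2| ≤ K * wd μ s n → |(u' : ℝ) - b.2| ≤ K * wd μ s n →
    |(v : ℝ) - b.2 - sl μ s * n| ≤ K * wd μ s n → |(v' : ℝ) - b.2 - sl μ s * n| ≤ K * wd μ s n →
    kW μ s η b.1 n u v * kW μ s η b.1 n u' v' ≤ (1 + ε) * (kW μ s η b.1 n u v' * kW μ s η b.1 n u' v)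
  low : ∀ u v : ℤ, |(u : ℝ) - b.2| ≤ K * wd μ s n → |(v : ℝ) - b.2 - sl μ s * n| ≤ K * wd μ s n →
    Real.exp (L * EE μ s n) ≤ kW μ s η b.1 n u v
  flat : ∀ u u' v v' : ℤ, |(u : ℝ) - b.2| ≤ K * wd μ s n → |(u' : ℝ) - b.2| ≤ K * wd μ s n →
    |(v : ℝ) - b.2 - sl μ s * n| ≤ K * wd μ s n → |(v' : ℝ) - b.2 - sl μ s * n| ≤ K * wd μ s n →
    kW μ s η b.1 n u v ≤ Real.exp (K₁ * EE μ s n) * kW μ s η b.1 n u' v'
  dom : ∀ u v : ℤ, |(u : ℝ) - b.2| ≤ D * wd μ s n → ∀ u' v' : ℤ, |(u' : ℝ) - b.2| ≤ K * wd μ s n →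
    |(v' : ℝ) - b.2 - sl μ s * n| ≤ K * wd μ s n →
    kW μ s η b.1 n u v ≤ Real.exp ((K₁ * fq16 P (|(u : ℝ) - b.2| / wd μ s n + 1) -
      κ * (|(u : ℝ) - b.2| / wd μ s n + |(v : ℝ) - b.2 - sl μ s * n| / wd μ s n)) * EE μ s n) * kW μ s η b.1 n u' v' +
      Real.exp (-(G * EE μ s n))

/-- **THE DETERMINISTIC THEOREM.** -/
theorem pin_det [IsProbabilityMeasure μ] {η : Env} {b : Pt} {n T m P : ℕ} {a1 e1 a2 e2 : ℤ} {κ q0 q ρ K D₀ ℓ ω Lb Gs ε ε' D G L : ℝ}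
    (H : PF24 μ s η b n T m P a1 e1 a2 e2 κ q0 q ρ K ℓ ω Lb Gs ε) (hn : n = T + (T + (T + (T + m)))) (hn1 : 1 ≤ n)
    (hw : 1 ≤ wd μ s n) (hκ : 0 < κ) (hq0 : 0 ≤ q0) (hqq : q0 ≤ q) (hℓ : 0 ≤ ℓ) (hρ0 : 0 ≤ ρ) (hρT : ρ ≤ T) (hρw : ρ ≤ 2 * wd μ s n)
    (hK : 0 ≤ K) (hKD : K ≤ D) (hG : 0 ≤ G) (hε : 0 ≤ ε)
    (ca1 : |(a1 : ℝ) - b.2 - sl μ s * T| ≤ 1) (ca2 : |(a2 : ℝ) - b.2 - sl μ s * (3 * T)| ≤ 1)
    (ce2 : |(e2 : ℝ) - b.2 - sl μ s * (4 * T)| ≤ 1)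
    (hD₀0 : 0 ≤ D₀) (hD₀ : ∀ V : ℝ, D₀ ≤ V → 5 * q * fq16 P (D + V + 1) + (G + |L| + 5) ≤ κ * V)
    (hGs : 4 * q * fq16 P (D + D₀ + 1) * EE μ s n + (G + |L| + 5) * EE μ s n ≤ Gs)
    (hω : (D + D₀ + 1) * wd μ s n ≤ ω) (hLb : (|L| + 3 * ℓ) * EE μ s n ≤ 2 * Lb)
    (hcard : (14 : ℝ) * n ≤ Real.exp (EE μ s n)) (hεε : (1 + Real.exp (-EE μ s n)) ^ 2 * (1 + ε) ≤ 1 + ε') :
    PN24 μ s η b n P K D L G (q0 * (fq16 P (K + 1) + fq16 P 4 + 1) + 2 * ℓ + 6 * κ + 1) κ ε' ∧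
      ∀ u v : ℤ, |(u : ℝ) - b.2| ≤ D * wd μ s n →
        cel24 μ s η b T m a1 e1 a2 e2 ρ u v ≤ kW μ s η b.1 n u v ∧
          kW μ s η b.1 n u v ≤ cel24 μ s η b T m a1 e1 a2 e2 ρ u v + Real.exp (-((G + |L| + 1) * EE μ s n)) := by
  have hE1 : 1 ≤ EE μ s n := one_le_EE n
  have hE : 0 < EE μ s n := by linarith
  have hw0 : 0 < wd μ s n := by linarith
  have hD : 0 ≤ D := hK.trans hKD
  have hq : 0 ≤ q := hq0.trans hqq
  have hTn : (4 : ℝ) * T ≤ n := by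
    have : 4 * T ≤ n := by omega
    exact_mod_cast this
  have hnR : (1 : ℝ) ≤ n := by exact_mod_cast hn1
  -- signs
  have nn : ∀ (r : ℤ) (t : ℕ) (y y' : ℤ), 0 ≤ kW μ s η r t y y' := fun r t y y' => kW_nonneg η r t y y'
  -- envelopes
  have mono : ∀ lo hi : ℤ, η ∈ EVR24 μ s κ n P lo hi b q0 → η ∈ EVR24 μ s κ n P lo hi b q := by
    intro lo hi hη p j h1 h2 y
    refine (hη p j h1 h2 y).trans (Real.exp_le_exp.2 ?_)
    have f1 := fq16_one P (|lat16 μ s b p| / wd μ s n + 1)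
    have h3 := mul_le_mul_of_nonneg_right (mul_le_mul_of_nonneg_right hqq (by linarith : (0 : ℝ) ≤
      fq16 P (|lat16 μ s b p| / wd μ s n + 1))) hE.le
    linarith
  have E0 := EK_of_EVR (mono _ _ H.up0) (r := b.1) (T := T) le_rfl le_rfl
  have E1 := EK_of_EVR H.up1 (r := b.1 + T) (T := T) le_rfl le_rfl
  have E2 := EK_of_EVR (mono _ _ H.up2) (r := b.1 + T + T) (T := T) le_rfl le_rfl
  have E3 := EK_of_EVR H.up3 (r := b.1 + T + T + T) (T := T) le_rfl le_rfl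
  have E4 := EK_of_EVR (mono _ _ H.up4) (r := b.1 + T + T + T + T) (T := m) le_rfl le_rfl
  have F0 := EK_of_EVR H.up0 (r := b.1) (T := T) le_rfl le_rfl
  have F4 := EK_of_EVR H.up4 (r := b.1 + T + T + T + T) (T := m) le_rfl le_rfl
  -- the centres
  have c0 : (b.2 : ℝ) + sl μ s * ((b.1 - b.1 : ℤ) : ℝ) = b.2 := by simp
  have c1 : (b.2 : ℝ) + sl μ s * ((b.1 + T - b.1 : ℤ) : ℝ) = b.2 + sl μ s * T := by push_cast; ring
  have c2 : (b.2 : ℝ) + sl μ s * ((b.1 + T + T - b.1 : ℤ) : ℝ) = b.2 + sl μ s * (2 * T) := by push_cast; ring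
  have c3 : (b.2 : ℝ) + sl μ s * ((b.1 + T + T + T - b.1 : ℤ) : ℝ) = b.2 + sl μ s * (3 * T) := by push_cast; ring
  have c4 : (b.2 : ℝ) + sl μ s * ((b.1 + T + T + T + T - b.1 : ℤ) : ℝ) = b.2 + sl μ s * (4 * T) := by push_cast; ring
  have c5 : (b.2 : ℝ) + sl μ s * ((b.1 + T + T + T + T + m - b.1 : ℤ) : ℝ) = b.2 + sl μ s * n := by
    rw [hn]
    push_cast
    ring
  rw [c0, c1] at E0 F0
  rw [c1, c2] at E1
  rw [c2, c3] at E2
  rw [c3, c4] at E3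
  rw [c4, c5] at E4 F4
  -- off the cells
  have off : ∀ u v y0 y1 y2 y3 : ℤ, |(u : ℝ) - b.2| ≤ D * wd μ s n →
      ¬ (y0 ∈ Ce24 a1 ρ ∧ y1 ∈ Ce24 e1 ρ ∧ y2 ∈ Ce24 a2 ρ ∧ y3 ∈ Ce24 e2 ρ) →
      kW μ s η b.1 T u y0 * kW μ s η (b.1 + T) T y0 y1 * kW μ s η (b.1 + T + T) T y1 y2 * kW μ s η (b.1 + T + T + T) T y2 y3 *
        kW μ s η (b.1 + T + T + T + T) m y3 v ≤ Real.exp (-((G + |L| + 5) * EE μ s n)) := by
    intro u v y0 y1 y2 y3 hu hoff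
    refine off24 hw0 hE.le hq hκ.le (nn _ _) (nn _ _) (nn _ _) (nn _ _) E0 E1 E2 E3 E4 (K := D) (D := D₀) (Gs := Gs) (ω := ω)
      (L := Lb) hD₀0 hD₀ hGs H.l1 H.l3 (fun y hy => ?_) (fun y hy => ?_) ?_ v y0 y1 y2 y3 hoff
    · rw [div_le_iff₀ hw0] at hy
      have h1 : (y : ℝ) - a1 = ((y : ℝ) - (b.2 + sl μ s * T)) - ((a1 : ℝ) - b.2 - sl μ s * T) := by ring
      rw [h1]
      refine (abs_sub _ _).trans ?_
      nlinarith
    · rw [div_le_iff₀ hw0] at hy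
      have h1 : (y : ℝ) - a2 = ((y : ℝ) - (b.2 + sl μ s * (3 * T))) - ((a2 : ℝ) - b.2 - sl μ s * (3 * T)) := by ring
      rw [h1]
      refine (abs_sub _ _).trans ?_
      nlinarith
    · rw [div_le_iff₀ hw0]
      exact hu
  -- main part and whole kernel
  have tot : ∀ u v : ℤ, |(u : ℝ) - b.2| ≤ D * wd μ s n →
      cel24 μ s η b T m a1 e1 a2 e2 ρ u v ≤ kW μ s η b.1 n u v ∧
        kW μ s η b.1 n u v ≤ cel24 μ s η b T m a1 e1 a2 e2 ρ u v + Real.exp (-((G + |L| + 1) * EE μ s n)) := by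
    intro u v hu
    obtain ⟨S, hS⟩ : ∃ S : Finset ℤ, S = (((Icc u (u + (4 * T : ℕ)) ∪ Ce24 a1 ρ) ∪ Ce24 e1 ρ) ∪ Ce24 a2 ρ) ∪ Ce24 e2 ρ := ⟨_, rfl⟩
    have s4 : Ce24 e2 ρ ⊆ S := by rw [hS]; exact subset_union_right
    have s3 : Ce24 a2 ρ ⊆ S := by rw [hS]; exact subset_union_right.trans subset_union_left
    have s2 : Ce24 e1 ρ ⊆ S := by rw [hS]; exact (subset_union_right.trans subset_union_left).trans subset_union_left
    have s1 : Ce24 a1 ρ ⊆ S := by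
      rw [hS]
      exact ((subset_union_right.trans subset_union_left).trans subset_union_left).trans subset_union_left
    have s0 : Icc u (u + (4 * T : ℕ)) ⊆ S := by
      rw [hS]
      exact ((subset_union_left.trans subset_union_left).trans subset_union_left).trans subset_union_left
    have hk := kW_five (μ := μ) (s := s) η b.1 T m u v S s0
    rw [← hn] at hk
    have h1 := tot24_le (nn b.1 T) (nn (b.1 + T) T) (nn (b.1 + T + T) T) (nn (b.1 + T + T + T) T) (nn (b.1 + T + T + T + T) m)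
      s1 s2 s3 s4 u v (t := Real.exp (-((G + |L| + 5) * EE μ s n))) (Real.exp_pos _).le (fun y0 y1 y2 y3 ho => off u v y0 y1 y2 y3 hu ho)
    rw [← hk] at h1
    refine ⟨h1.1, h1.2.trans (add_le_add le_rfl ?_)⟩
    -- the number of coarse paths
    have cc : ∀ a : ℤ, ((Ce24 a ρ).card : ℝ) ≤ 2 * n + 1 := by
      intro a
      unfold Ce24
      rw [Int.card_Icc]
      have g1 : (0 : ℤ) ≤ ⌊ρ⌋ := Int.floor_nonneg.2 hρ0
      have g2 : ((a + ⌊ρ⌋ + 1 - (a - ⌊ρ⌋)).toNat : ℤ) = 2 * ⌊ρ⌋ + 1 := by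
        rw [Int.toNat_of_nonneg (by omega)]
        ring
      have g3 : (((a + ⌊ρ⌋ + 1 - (a - ⌊ρ⌋)).toNat : ℕ) : ℝ) = 2 * (⌊ρ⌋ : ℝ) + 1 := by exact_mod_cast g2
      rw [g3]
      have g4 : (⌊ρ⌋ : ℝ) ≤ ρ := Int.floor_le ρ
      have g5 : ρ ≤ n := by
        have : (0 : ℝ) ≤ T := Nat.cast_nonneg T
        linarith
      linarith
    have c6 : (S.card : ℝ) ≤ 14 * n := by
      have g0 : ((Icc u (u + (4 * T : ℕ))).card : ℝ) = 4 * T + 1 := by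
        rw [Int.card_Icc]
        have : (u + (4 * T : ℕ) + 1 - u).toNat = 4 * T + 1 := by omega
        rw [this]
        push_cast
        ring
      have g1 : (S.card : ℝ) ≤ ((Icc u (u + (4 * T : ℕ))).card : ℝ) + (Ce24 a1 ρ).card + (Ce24 e1 ρ).card + (Ce24 a2 ρ).card +
          (Ce24 e2 ρ).card := by
        rw [hS]
        have h2 := card_union_le (((Icc u (u + (4 * T : ℕ)) ∪ Ce24 a1 ρ) ∪ Ce24 e1 ρ) ∪ Ce24 a2 ρ) (Ce24 e2 ρ)
        have h3 := card_union_le ((Icc u (u + (4 * T : ℕ)) ∪ Ce24 a1 ρ) ∪ Ce24 e1 ρ) (Ce24 a2 ρ)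
        have h4 := card_union_le (Icc u (u + (4 * T : ℕ)) ∪ Ce24 a1 ρ) (Ce24 e1 ρ)
        have h5 := card_union_le (Icc u (u + (4 * T : ℕ))) (Ce24 a1 ρ)
        have h6 : ((((Icc u (u + (4 * T : ℕ)) ∪ Ce24 a1 ρ) ∪ Ce24 e1 ρ) ∪ Ce24 a2 ρ) ∪ Ce24 e2 ρ).card ≤
            (Icc u (u + (4 * T : ℕ))).card + (Ce24 a1 ρ).card + (Ce24 e1 ρ).card + (Ce24 a2 ρ).card + (Ce24 e2 ρ).card := by omega
        exact_mod_cast h6
      have g2 := cc a1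
      have g3 := cc e1
      have g4 := cc a2
      have g5 := cc e2
      rw [g0] at g1
      linarith
    have c7 : (S.card : ℝ) ^ 4 ≤ Real.exp (4 * EE μ s n) := by
      have g1 : (S.card : ℝ) ≤ Real.exp (EE μ s n) := c6.trans hcard
      have g2 := pow_le_pow_left₀ (Nat.cast_nonneg S.card) g1 4
      refine g2.trans (le_of_eq ?_)
      rw [← Real.exp_nat_mul]
      norm_num
    refine (mul_le_mul_of_nonneg_right c7 (Real.exp_pos _).le).trans ?_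
    rw [← Real.exp_add]
    exact Real.exp_le_exp.2 (by linarith)
  -- lower bound of the main part
  have hm0 : ∀ u v : ℤ, 0 ≤ cel24 μ s η b T m a1 e1 a2 e2 ρ u v := fun u v =>
    mn24_nn (nn _ _) (nn _ _) (nn _ _) (nn _ _) (nn _ _) u v
  have ctr : ∀ a : ℤ, a ∈ Ce24 a ρ := fun a => mem_Ce24.2 (by rw [sub_self, abs_zero]; exact hρ0)
  have low : ∀ u v : ℤ, |(u : ℝ) - b.2| ≤ K * wd μ s n → |(v : ℝ) - b.2 - sl μ s * n| ≤ K * wd μ s n →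
      Real.exp (|L| * EE μ s n) ≤ cel24 μ s η b T m a1 e1 a2 e2 ρ u v := by
    intro u v hu hv
    have h1 := mn24_ge (nn b.1 T) (nn (b.1 + T) T) (nn (b.1 + T + T) T) (nn (b.1 + T + T + T) T) (nn (b.1 + T + T + T + T) m) u v
      (ctr a1) (ctr e1) (ctr a2) (ctr e2)
    refine le_trans ?_ h1
    have g0 := H.low0 u a1 hu (ctr a1)
    have g1 := H.l1.low
    have g2 := H.low2 e1 (ctr e1) a2 (ctr a2)
    have g3 := H.l3.low
    have g4 := H.low4 e2 (ctr e2) v hv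
    have m1 := mul_le_mul g0 g1 (Real.exp_pos _).le (nn _ _ _ _)
    have m2 := mul_le_mul m1 g2 (Real.exp_pos _).le (mul_nonneg (nn _ _ _ _) (nn _ _ _ _))
    have m3 := mul_le_mul m2 g3 (Real.exp_pos _).le (mul_nonneg (mul_nonneg (nn _ _ _ _) (nn _ _ _ _)) (nn _ _ _ _))
    have m4 := mul_le_mul m3 g4 (Real.exp_pos _).le
      (mul_nonneg (mul_nonneg (mul_nonneg (nn _ _ _ _) (nn _ _ _ _)) (nn _ _ _ _)) (nn _ _ _ _))
    refine le_trans ?_ m4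
    rw [← Real.exp_add, ← Real.exp_add, ← Real.exp_add, ← Real.exp_add]
    exact Real.exp_le_exp.2 (by linarith)
  -- the tail relative to the main part
  have rel : ∀ u v : ℤ, |(u : ℝ) - b.2| ≤ K * wd μ s n → |(v : ℝ) - b.2 - sl μ s * n| ≤ K * wd μ s n →
      kW μ s η b.1 n u v ≤ (1 + Real.exp (-EE μ s n)) * cel24 μ s η b T m a1 e1 a2 e2 ρ u v := by
    intro u v hu hv
    have h1 := (tot u v (hu.trans (mul_le_mul_of_nonneg_right hKD hw0.le))).2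
    have h2 := low u v hu hv
    have h3 : Real.exp (-((G + |L| + 1) * EE μ s n)) ≤ Real.exp (-EE μ s n) * cel24 μ s η b T m a1 e1 a2 e2 ρ u v := by
      have h4 : Real.exp (-((G + |L| + 1) * EE μ s n)) ≤ Real.exp (-EE μ s n) * Real.exp (|L| * EE μ s n) := by
        rw [← Real.exp_add]
        refine Real.exp_le_exp.2 ?_
        have := mul_nonneg hG hE.le
        have := mul_nonneg (abs_nonneg L) hE.le
        nlinarith
      exact h4.trans (mul_le_mul_of_nonneg_left h2 (Real.exp_pos _).le)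
    linarith
  have hKw : ∀ u : ℤ, |(u : ℝ) - b.2| ≤ K * wd μ s n → |(u : ℝ) - b.2| ≤ D * wd μ s n := fun u hu =>
    hu.trans (mul_le_mul_of_nonneg_right hKD hw0.le)
  -- flatness of the typical ends
  obtain ⟨f4, hf4⟩ : ∃ f4 : ℝ, f4 = fq16 P 4 := ⟨_, rfl⟩
  have hf41 : 1 ≤ f4 := by rw [hf4]; exact fq16_one P 4
  have ft0 : ∀ u u' y : ℤ, |(u' : ℝ) - b.2| ≤ K * wd μ s n → y ∈ Ce24 a1 ρ →
      kW μ s η b.1 T u y ≤ Real.exp ((q0 * fq16 P (|(u : ℝ) - b.2| / wd μ s n + 1) + ℓ + 3 * κ - κ * (|(u : ℝ) - b.2| / wd μ s n)) *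
        EE μ s n) * kW μ s η b.1 T u' y := by
    intro u u' y hu' hy
    have g1 := F0 u y
    have g2 := H.low0 u' y hu' hy
    have g3 : |(y : ℝ) - (b.2 + sl μ s * T)| ≤ 3 * wd μ s n := by
      have h1 := mem_Ce24.1 hy
      have h2 : (y : ℝ) - (b.2 + sl μ s * T) = ((y : ℝ) - a1) + ((a1 : ℝ) - b.2 - sl μ s * T) := by ring
      rw [h2]
      exact (abs_add_le _ _).trans (by linarith)
    have g4 : |(u : ℝ) - b.2| / wd μ s n - 3 ≤ |((y : ℝ) - (b.2 + sl μ s * T)) - ((u : ℝ) - b.2)| / wd μ s n := by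
      rw [sub_le_iff_le_add, ← sub_le_iff_le_add', div_sub_div_same, div_le_iff₀ hw0]
      have h1 := abs_sub_abs_le_abs_sub ((u : ℝ) - b.2) ((y : ℝ) - (b.2 + sl μ s * T))
      rw [abs_sub_comm ((u : ℝ) - b.2) ((y : ℝ) - (b.2 + sl μ s * T))] at h1
      linarith
    have g5 : κ * EE μ s n * (|(u : ℝ) - b.2| / wd μ s n - 3) ≤
        κ * EE μ s n * (|((y : ℝ) - (b.2 + sl μ s * T)) - ((u : ℝ) - b.2)| / wd μ s n) :=
      mul_le_mul_of_nonneg_left g4 (by positivity)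
    have g6 : kW μ s η b.1 T u y ≤ Real.exp ((q0 * fq16 P (|(u : ℝ) - b.2| / wd μ s n + 1) + ℓ + 3 * κ -
        κ * (|(u : ℝ) - b.2| / wd μ s n)) * EE μ s n) * Real.exp (-(ℓ * EE μ s n)) := by
      rw [← Real.exp_add]
      refine g1.trans (Real.exp_le_exp.2 ?_)
      linarith
    exact g6.trans (mul_le_mul_of_nonneg_left g2 (Real.exp_pos _).le)
  have ft4 : ∀ v v' y : ℤ, |(v' : ℝ) - b.2 - sl μ s * n| ≤ K * wd μ s n → y ∈ Ce24 e2 ρ →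
      kW μ s η (b.1 + T + T + T + T) m y v ≤ Real.exp ((q0 * f4 + ℓ + 3 * κ - κ * (|(v : ℝ) - b.2 - sl μ s * n| / wd μ s n)) *
        EE μ s n) * kW μ s η (b.1 + T + T + T + T) m y v' := by
    intro v v' y hv' hy
    have g1 := F4 y v
    have g2 := H.low4 y hy v' hv'
    have g3 : |(y : ℝ) - (b.2 + sl μ s * (4 * T))| ≤ 3 * wd μ s n := by
      have h1 := mem_Ce24.1 hy
      have h2 : (y : ℝ) - (b.2 + sl μ s * (4 * T)) = ((y : ℝ) - e2) + ((e2 : ℝ) - b.2 - sl μ s * (4 * T)) := by ring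
      rw [h2]
      exact (abs_add_le _ _).trans (by linarith)
    have g3' : |(y : ℝ) - (b.2 + sl μ s * (4 * T))| / wd μ s n + 1 ≤ 4 := by
      have : |(y : ℝ) - (b.2 + sl μ s * (4 * T))| / wd μ s n ≤ 3 := by
        rw [div_le_iff₀ hw0]
        exact g3
      linarith
    have g3'' : fq16 P (|(y : ℝ) - (b.2 + sl μ s * (4 * T))| / wd μ s n + 1) ≤ f4 := by
      rw [hf4]
      exact fq_mono' (by positivity) g3'
    have g4 : |(v : ℝ) - b.2 - sl μ s * n| / wd μ s n - 3 ≤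
        |((v : ℝ) - (b.2 + sl μ s * n)) - ((y : ℝ) - (b.2 + sl μ s * (4 * T)))| / wd μ s n := by
      rw [sub_le_iff_le_add, ← sub_le_iff_le_add', div_sub_div_same, div_le_iff₀ hw0]
      have h1 := abs_sub_abs_le_abs_sub ((v : ℝ) - (b.2 + sl μ s * n)) ((y : ℝ) - (b.2 + sl μ s * (4 * T)))
      have h2 : (v : ℝ) - b.2 - sl μ s * n = (v : ℝ) - (b.2 + sl μ s * n) := by ring
      rw [h2]
      linarith
    have g5 : κ * EE μ s n * (|(v : ℝ) - b.2 - sl μ s * n| / wd μ s n - 3) ≤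
        κ * EE μ s n * (|((v : ℝ) - (b.2 + sl μ s * n)) - ((y : ℝ) - (b.2 + sl μ s * (4 * T)))| / wd μ s n) :=
      mul_le_mul_of_nonneg_left g4 (by positivity)
    have g7 : q0 * fq16 P (|(y : ℝ) - (b.2 + sl μ s * (4 * T))| / wd μ s n + 1) * EE μ s n ≤ q0 * f4 * EE μ s n :=
      mul_le_mul_of_nonneg_right (mul_le_mul_of_nonneg_left g3'' hq0) hE.le
    have g6 : kW μ s η (b.1 + T + T + T + T) m y v ≤ Real.exp ((q0 * f4 + ℓ + 3 * κ -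
        κ * (|(v : ℝ) - b.2 - sl μ s * n| / wd μ s n)) * EE μ s n) * Real.exp (-(ℓ * EE μ s n)) := by
      rw [← Real.exp_add]
      refine g1.trans (Real.exp_le_exp.2 ?_)
      linarith
    exact g6.trans (mul_le_mul_of_nonneg_left g2 (Real.exp_pos _).le)
  -- domination of the main part
  have dm : ∀ u v u' v' : ℤ, |(u' : ℝ) - b.2| ≤ K * wd μ s n → |(v' : ℝ) - b.2 - sl μ s * n| ≤ K * wd μ s n →
      cel24 μ s η b T m a1 e1 a2 e2 ρ u v ≤ Real.exp ((q0 * fq16 P (|(u : ℝ) - b.2| / wd μ s n + 1) + q0 * f4 + 2 * ℓ + 6 * κ -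
        κ * (|(u : ℝ) - b.2| / wd μ s n + |(v : ℝ) - b.2 - sl μ s * n| / wd μ s n)) * EE μ s n) *
        cel24 μ s η b T m a1 e1 a2 e2 ρ u' v' := by
    intro u v u' v' hu' hv'
    have g1 := mn24_flat (k0 := kW μ s η b.1 T) (C0 := Ce24 a1 ρ) (C1 := Ce24 e1 ρ) (C2 := Ce24 a2 ρ) (C3 := Ce24 e2 ρ)
      (nn (b.1 + T) T) (nn (b.1 + T + T) T) (nn (b.1 + T + T + T) T) (nn (b.1 + T + T + T + T) m)
      (x := u) (x' := u') (fun y hy => ft0 u u' y hu' hy) v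
    have g2 := mn24_flat' (k4 := kW μ s η (b.1 + T + T + T + T) m) (C0 := Ce24 a1 ρ) (C1 := Ce24 e1 ρ) (C2 := Ce24 a2 ρ)
      (C3 := Ce24 e2 ρ) (nn b.1 T) (nn (b.1 + T) T) (nn (b.1 + T + T) T) (nn (b.1 + T + T + T) T)
      (z := v) (z' := v') (fun y hy => ft4 v v' y hv' hy) u'
    refine (g1.trans (mul_le_mul_of_nonneg_left g2 (Real.exp_pos _).le)).trans (le_of_eq ?_)
    unfold cel24
    rw [← mul_assoc, ← Real.exp_add]
    congr 2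
    ring
  refine ⟨⟨fun u u' v v' hu hu' hv hv' => ?_, fun u v hu hv => ?_, fun u u' v v' hu hu' hv hv' => ?_,
    fun u v hu u' v' hu' hv' => ?_⟩, tot⟩
  · -- rank one
    have g1 := rel u v hu hv
    have g2 := rel u' v' hu' hv'
    have g3 := mn24_rank (nn b.1 T) (nn (b.1 + T) T) (nn (b.1 + T + T + T) T) (nn (b.1 + T + T + T + T) m)
      (C0 := Ce24 a1 ρ) (C1 := Ce24 e1 ρ) (C2 := Ce24 a2 ρ) (C3 := Ce24 e2 ρ) (e := 1 + ε) H.rk u u' v v'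
    have g4 := (tot u v' (hKw u hu)).1
    have g5 := (tot u' v (hKw u' hu')).1
    have g6 : cel24 μ s η b T m a1 e1 a2 e2 ρ u v' * cel24 μ s η b T m a1 e1 a2 e2 ρ u' v ≤
        kW μ s η b.1 n u v' * kW μ s η b.1 n u' v := mul_le_mul g4 g5 (hm0 _ _) (nn _ _ _ _)
    have hτ : 0 ≤ 1 + Real.exp (-EE μ s n) := by positivity
    calc kW μ s η b.1 n u v * kW μ s η b.1 n u' v' ≤ (1 + Real.exp (-EE μ s n)) * cel24 μ s η b T m a1 e1 a2 e2 ρ u v *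
          ((1 + Real.exp (-EE μ s n)) * cel24 μ s η b T m a1 e1 a2 e2 ρ u' v') :=
          mul_le_mul g1 g2 (nn _ _ _ _) (mul_nonneg hτ (hm0 _ _))
      _ = (1 + Real.exp (-EE μ s n)) ^ 2 * (cel24 μ s η b T m a1 e1 a2 e2 ρ u v * cel24 μ s η b T m a1 e1 a2 e2 ρ u' v') := by ring
      _ ≤ (1 + Real.exp (-EE μ s n)) ^ 2 * ((1 + ε) * (cel24 μ s η b T m a1 e1 a2 e2 ρ u v' *
          cel24 μ s η b T m a1 e1 a2 e2 ρ u' v)) := mul_le_mul_of_nonneg_left g3 (by positivity)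
      _ = (1 + Real.exp (-EE μ s n)) ^ 2 * (1 + ε) * (cel24 μ s η b T m a1 e1 a2 e2 ρ u v' *
          cel24 μ s η b T m a1 e1 a2 e2 ρ u' v) := by ring
      _ ≤ (1 + ε') * (kW μ s η b.1 n u v' * kW μ s η b.1 n u' v) :=
          mul_le_mul hεε g6 (mul_nonneg (hm0 _ _) (hm0 _ _)) (le_trans (by positivity) hεε)
  · -- lower bound
    have g1 := low u v hu hv
    have g2 := (tot u v (hKw u hu)).1
    refine le_trans (Real.exp_le_exp.2 ?_) (g1.trans g2)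
    exact mul_le_mul_of_nonneg_right (le_abs_self L) hE.le
  · -- flatness
    have g1 := rel u v hu hv
    have g2 := dm u v u' v' hu' hv'
    have g3 := (tot u' v' (hKw u' hu')).1
    have g4 : 1 + Real.exp (-EE μ s n) ≤ Real.exp (EE μ s n) := by
      have h1 := Real.add_one_le_exp (EE μ s n)
      have h2 : Real.exp (-EE μ s n) ≤ 1 := Real.exp_le_one_iff.2 (by linarith)
      linarith
    have g5 : fq16 P (|(u : ℝ) - b.2| / wd μ s n + 1) ≤ fq16 P (K + 1) := by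
      refine fq_mono' (by positivity) ?_
      have : |(u : ℝ) - b.2| / wd μ s n ≤ K := by
        rw [div_le_iff₀ hw0]
        exact hu
      linarith
    have g6 : q0 * fq16 P (|(u : ℝ) - b.2| / wd μ s n + 1) ≤ q0 * fq16 P (K + 1) := mul_le_mul_of_nonneg_left g5 hq0
    have g7 : 0 ≤ κ * (|(u : ℝ) - b.2| / wd μ s n + |(v : ℝ) - b.2 - sl μ s * n| / wd μ s n) := by positivity
    refine g1.trans ?_
    refine (mul_le_mul g4 (g2.trans (mul_le_mul_of_nonneg_left g3 (Real.exp_pos _).le)) (hm0 _ _) (Real.exp_pos _).le).trans ?_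
    rw [← mul_assoc, ← Real.exp_add]
    refine mul_le_mul_of_nonneg_right (Real.exp_le_exp.2 ?_) (nn _ _ _ _)
    rw [← hf4]
    nlinarith
  · -- domination
    have g1 := (tot u v hu).2
    have g2 := dm u v u' v' hu' hv'
    have g3 := (tot u' v' (hKw u' hu')).1
    refine g1.trans (add_le_add ?_ (Real.exp_le_exp.2 ?_))
    · refine (g2.trans (mul_le_mul_of_nonneg_left g3 (Real.exp_pos _).le)).trans
        (mul_le_mul_of_nonneg_right (Real.exp_le_exp.2 ?_) (nn _ _ _ _))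
      refine mul_le_mul_of_nonneg_right ?_ hE.le
      obtain ⟨f, hf⟩ : ∃ f : ℝ, f = fq16 P (|(u : ℝ) - b.2| / wd μ s n + 1) := ⟨_, rfl⟩
      have hf1 : 1 ≤ f := by rw [hf]; exact fq16_one P _
      obtain ⟨g, hg⟩ : ∃ g : ℝ, g = fq16 P (K + 1) := ⟨_, rfl⟩
      have hg1 : 1 ≤ g := by rw [hg]; exact fq16_one P _
      rw [← hf, ← hg, ← hf4]
      have h1 : q0 * f4 + 2 * ℓ + 6 * κ ≤ (q0 * (g + f4) + 2 * ℓ + 6 * κ + 1) * f := by
        have h2 : 0 ≤ q0 * f4 + 2 * ℓ + 6 * κ := by positivity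
        have h3 : q0 * f4 + 2 * ℓ + 6 * κ ≤ q0 * (g + f4) + 2 * ℓ + 6 * κ + 1 := by
          have : 0 ≤ q0 * g := by positivity
          linarith
        nlinarith
      nlinarith
    · have := mul_nonneg (abs_nonneg L) hE.le
      nlinarith

end

end Pool.Agent.W_7d29a1_C1.P24
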