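import Pool.Agent.W_7d29a1_C1.LnM83
import Pool.Agent.W_7d29a1_C1.FaD45
import Pool.Agent.W_7d29a1_C1.FrC11

/-!
MP_7d29a1_pr, [C1], SHELL, FRESH BALL, (W): **FROM `FA45` TO THE LANES `LN83` AT ONE PLACE** in the letters of `sg45` (helper83). `rwF83` : the rows of the
first buffer (`T ≤ 4 TF`, `T ≤ 2 n'`); `lnF83` : `FA45` at `(z.1, z.2)` gives `LN83` along the line of the middle column, units `TF45`, `T j`, cells
`cl83 sg45`, `τ = ml11 d b wd T`, radius `d / 8 wd T`, `Λ = 1`, `u = 1`, `D = 2`.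
-/

set_option autoImplicit false

namespace Pool.Agent.W_7d29a1_C1.W83

open MeasureTheory Finset
open Pool.Agent.W_7d29a1_F Pool.Agent.W_7d29a1_h4g Pool.Agent.W_7d29a1_H Pool.Agent.W_7d29a1_HS
open Pool.Agent.W_7d29a1_C1.H75 Pool.Agent.W_7d29a1_C1.U16
open Pool.Agent.W_7d29a1_C1.S83
open Pool.Agent.W_7d29a1_C1.B26
open Pool.Agent.W_7d29a1_C1.Basin76 (kW)
open Pool.Agent.W_7d29a1_C1.JnC35 (ln35)
open Pool.Agent.W_7d29a1_C1.Fr47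
open Pool.Agent.W_7d29a1_C1.H8
open Pool.Agent.W_7d29a1_C1.F45
open Pool.Agent.W_7d29a1_C1.T10
open Pool.Agent.W_7d29a1_C1.U11 (ml11)

noncomputable section

/-- **THE ROWS OF THE FIRST BUFFER.** -/
theorem rwF83 {th : ℝ} (h0 : 0 < th) (h1 : th ≤ 1 / 4) {i : LnI} {o : LnO} (ho : o.Ok i) {Q : ℕ} (hQ : 1 ≤ Q) (N : ℕ) :
    ∃ n₁ : ℕ, 1 ≤ n₁ ∧ ∀ (T : ℕ → ℕ) (j : ℕ), n₁ ≤ T j → N ≤ TF45 th o Q T j ∧ 1 ≤ TF45 th o Q T j ∧ TF45 th o Q T j ≤ T j ∧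
      T j ≤ 4 * TF45 th o Q T j ∧ T j ≤ 2 * (nM45 th o Q T j + TF45 th o Q T j) ∧ nM45 th o Q T j + TF45 th o Q T j + 1 ≤ T j ∧
      ∀ z : ℕ, T j ≤ z → cF th (R145 o Q) z (T j) = z - T j + 1 + (nM45 th o Q T j + TF45 th o Q T j) ∧ cF th (R145 o Q) z (T j) ≤ z := by
  have hR := R145_pos ho hQ
  obtain ⟨n₁, hn₁, H⟩ := rowsF h0 h1 hR (N + 1)
  obtain ⟨n₂, hn₂⟩ := exists_nat_gt (16 * ((R145 o Q : ℝ) + 1))
  refine ⟨n₁ + n₂, by omega, fun T j hT => ?_⟩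
  have hRn := nMTF45 th o Q T j
  obtain ⟨a1, a2, a3, a4, a5, -⟩ := H (T j) (T j) (by omega) le_rfl
  have e1 : cF th (R145 o Q) (T j) (T j) = 1 + R145 o Q * kF th (R145 o Q) (T j) := by
    unfold cF
    rw [Nat.sub_self]
  rw [e1] at a1 a2 a3
  have hn2 : (n₂ : ℝ) ≤ T j := by exact_mod_cast (by omega : n₂ ≤ T j)
  have hT0 : (0 : ℝ) ≤ T j := Nat.cast_nonneg _
  have hkk : 1 ≤ kk45 th o Q T j := by
    unfold kk45
    omega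
  have hj1 := ho.j1
  have hj2 := ho.j2
  have haj := ho.aj
  have ha1 := ho.a1
  have hTF1 : N + 1 ≤ TF45 th o Q T j := by
    have g1 : N + 1 ≤ kk45 th o Q T j := by
      unfold kk45
      exact a5
    have g2 : 1 ≤ Q * (o.j1 * o.j2) := Nat.mul_pos (by omega) (Nat.mul_pos (by omega) (by omega))
    unfold TF45
    calc N + 1 ≤ kk45 th o Q T j := g1
      _ = 1 * kk45 th o Q T j := (one_mul _).symm
      _ ≤ _ := Nat.mul_le_mul_right _ g2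
  have hMF : nM45 th o Q T j ≤ TF45 th o Q T j := by
    unfold nM45 TF45
    exact Nat.mul_le_mul_right _ (Nat.mul_le_mul_left _ (Nat.mul_le_mul_right _ haj))
  have hsub : ((T j - (1 + R145 o Q * kF th (R145 o Q) (T j)) : ℕ) : ℝ) = T j - (1 + ((R145 o Q * kF th (R145 o Q) (T j) : ℕ) : ℝ)) := by
    rw [Nat.cast_sub a1]
    push_cast
    ring
  rw [hsub, ← hRn] at a3
  have b1 : ((T j : ℕ) : ℝ) ≤ ((2 * (nM45 th o Q T j + TF45 th o Q T j) : ℕ) : ℝ) := by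
    have g1 : th * T j / 4 ≤ 1 / 16 * (T j : ℝ) := by
      have := mul_le_mul_of_nonneg_right h1 hT0
      linarith
    push_cast at a3 ⊢
    linarith
  have b2 : T j ≤ 2 * (nM45 th o Q T j + TF45 th o Q T j) := by exact_mod_cast b1
  rw [← hRn] at a1
  refine ⟨by omega, by omega, by omega, by omega, b2, by omega, fun z hz => ?_⟩
  obtain ⟨c1, -⟩ := H (T j) z (by omega) hz
  refine ⟨?_, c1⟩
  unfold cF
  rw [hRn]

variable {μ : Measure ℝ} {s c C : ℝ} {n₀ : ℕ} [IsProbabilityMeasure μ]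

/-- **THE LANES AT ONE PLACE FROM `FA45`.** -/
theorem lnF83 (h0 : In μ s c C n₀) {d : ℝ} (hd : 0 < d) (hd1 : d ≤ 1) : ∃ n₁ : ℕ, 1 ≤ n₁ ∧
    ∀ {th K0 ell g φ v v₁ g₂ : ℝ} {o : LnO} {w : LnJ} {p : LnP} {k : KE45} {T : ℕ → ℕ} {cm : ℕ → ℤ} {m₂ j : ℕ} {z : ℕ × ℤ} {ζ : Env},
      o.Ok (lnI c d th K0) → n₁ ≤ TF45 th o p.Q T j → TF45 th o p.Q T j ≤ T j → T j ≤ z.1 →
      FA45 μ s c d th (lnI c d th K0) ell g o w p T cm j (((z.1 : ℕ) : ℤ), z.2) ζ →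
      ∃ (Db : Bool → Finset ℤ) (t : Bool → ℤ) (A : ℝ),
        LN83 μ s c ζ (((z.1 : ℕ) : ℤ), z.2 + cm j) ((sg45 μ s d th o p.Q k T cm m₂ φ v v₁ g₂).c0 j z)
          (nM45 th o p.Q T j + TF45 th o p.Q T j) (T j) (TF45 th o p.Q T j) (cl83 (sg45 μ s d th o p.Q k T cm m₂ φ v v₁ g₂) j z) Db t
          (fun b => ml11 d b * wd μ s (T j)) (ell + 2) 1 2 1 (c / 8) g w.G' o.Qe o.Pe A (d / 8 * wd μ s (T j)) := by
  have hc0 := h0.c0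
  obtain ⟨m₁, H1⟩ := Filter.eventually_atTop.1 ((wd_tendsto h0).eventually_ge_atTop 16)
  refine ⟨m₁ + 1, by omega, ?_⟩
  intro th K0 ell g φ v v₁ g₂ o w p k T cm m₂ j z ζ ho hTF hTT hTz hFA
  obtain ⟨r, A, M⟩ := hFA
  obtain ⟨TF, hTFe⟩ : ∃ TF : ℕ, TF = TF45 th o p.Q T j := ⟨_, rfl⟩
  obtain ⟨nM, hnMe⟩ : ∃ nM : ℕ, nM = nM45 th o p.Q T j := ⟨_, rfl⟩
  obtain ⟨r0, r1, w1, ra, rb, mo⟩ := M
  rw [← hTFe] at r1 w1 ra hTF hTT
  rw [← hTFe, ← hnMe] at rb mo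
  rw [← hTFe, ← hnMe]
  have hwF : 16 ≤ wd μ s TF := H1 TF (by omega)
  have hwT : 16 ≤ wd μ s (T j) := H1 (T j) (by omega)
  have hw2 : wd μ s TF ≤ 2 * wd μ s (T j) := Pool.Agent.W_7d29a1_C1.U16.wd_le_two h0 (by omega) hTT
  have oth : o.th ≤ d / 16 := ho.th1
  have hrad : o.th * wd μ s TF ≤ d / 8 * wd μ s (T j) := by
    have g1 := mul_le_mul_of_nonneg_right oth (show 0 ≤ wd μ s TF by linarith)
    have g2 := mul_le_mul_of_nonneg_left hw2 (show 0 ≤ d / 16 by linarith)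
    linarith
  have hr8 : r ≤ d / 8 * wd μ s (T j) := r1.trans hrad
  -- the row `c₀`
  have hc0z : (((sg45 μ s d th o p.Q k T cm m₂ φ v v₁ g₂).c0 j z : ℕ) : ℤ) = 1 - (T j : ℤ) + ((z.1 : ℕ) : ℤ) := by
    show ((z.1 - T j + 1 : ℕ) : ℤ) = _
    omega
  obtain ⟨i, hi⟩ : ∃ i : ℕ, i = (sg45 μ s d th o p.Q k T cm m₂ φ v v₁ g₂).c0 j z := ⟨_, rfl⟩
  have hiz : (i : ℤ) = 1 - (T j : ℤ) + ((z.1 : ℕ) : ℤ) := by
    rw [hi]
    exact hc0z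
  have e0 : ln35 μ s (((z.1 : ℕ) : ℤ), z.2 + cm j) i = (z.2 : ℝ) + ((cm j : ℝ) + sl μ s * (1 - (T j : ℝ))) := by
    rw [hi]
    exact ln8_c0 hTz
  have e1 : ln35 μ s (((z.1 : ℕ) : ℤ), z.2 + cm j) (i + (nM + TF)) =
      (z.2 : ℝ) + ((cm j : ℝ) + sl μ s * (1 - (T j : ℝ))) + sl μ s * ((nM + TF : ℕ) : ℝ) := by
    rw [ln35_add, e0]
  obtain ⟨a₀, ha₀⟩ : ∃ a₀ : ℤ, a₀ = cm j + ⌊sl μ s * (1 - (T j : ℝ))⌋ + z.2 := ⟨_, rfl⟩
  have hbp1 : (bp45 μ s T cm j).1 + ((((z.1 : ℕ) : ℤ), z.2) : Pt).1 = (i : ℤ) := by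
    rw [hiz]
    rfl
  have hbp2 : (bp45 μ s T cm j).2 + ((((z.1 : ℕ) : ℤ), z.2) : Pt).2 = a₀ := by
    rw [ha₀]
    rfl
  have eu0 : (lnI c d th K0).u0 = 1 := rfl
  rw [hbp1, hbp2, eu0] at ra rb
  rw [hbp1, hbp2] at mo
  rw [← hi]
  have ec : |((a₀ : ℤ) : ℝ) - ln35 μ s (((z.1 : ℕ) : ℤ), z.2 + cm j) i| ≤ 1 := by
    rw [e0, ha₀]
    have f1 := Int.floor_le (sl μ s * (1 - (T j : ℝ)))
    have f2 := Int.lt_floor_add_one (sl μ s * (1 - (T j : ℝ)))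
    push_cast
    rw [abs_le]
    constructor <;> linarith
  have ml : ∀ b, ml11 d b * wd μ s (T j) = if b then 3 / 4 * d * wd μ s (T j) else -(3 / 4 * d * wd μ s (T j)) := fun b => by
    cases b
    · show -(3 / 4 * d) * wd μ s (T j) = -(3 / 4 * d * wd μ s (T j))
      ring
    · rfl
  have mlabs : ∀ b, |ml11 d b * wd μ s (T j)| = 3 / 4 * d * wd μ s (T j) := fun b => by
    have g1 : 0 ≤ 3 / 4 * d * wd μ s (T j) := by positivity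
    rw [ml]
    cases b
    · rw [if_neg (by simp), abs_neg, abs_of_nonneg g1]
    · rw [if_pos rfl, abs_of_nonneg g1]
  have huu : ∀ b, |((u45 μ s d T cm j b + z.2 : ℤ) : ℝ) - (ln35 μ s (((z.1 : ℕ) : ℤ), z.2 + cm j) i + ml11 d b * wd μ s (T j))| ≤ 1 := fun b => by
    have g1 := uc8_near (μ := μ) (s := s) d (wd μ s (T j)) (cm j) (1 - (T j : ℤ)) b
    rw [← ml b] at g1
    have g2 : ((u45 μ s d T cm j b + z.2 : ℤ) : ℝ) - (ln35 μ s (((z.1 : ℕ) : ℤ), z.2 + cm j) i + ml11 d b * wd μ s (T j)) =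
        (uc8 μ s d (wd μ s (T j)) (cm j) (1 - (T j : ℤ)) b : ℝ) - (cm j + sl μ s * ((1 - (T j : ℤ) : ℤ) : ℝ) + ml11 d b * wd μ s (T j)) := by
      rw [e0]
      unfold u45
      push_cast
      ring
    rw [g2]
    exact g1
  have htt : ∀ b, |((t45 μ s d th o p.Q T cm j b + z.2 : ℤ) : ℝ) -
      (ln35 μ s (((z.1 : ℕ) : ℤ), z.2 + cm j) (i + (nM + TF)) + ml11 d b * wd μ s (T j))| ≤ 1 := fun b => by
    have g1 := uc8_near (μ := μ) (s := s) d (wd μ s (T j)) (cm j) (1 - (T j : ℤ) + ((nM + TF : ℕ) : ℤ)) b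
    rw [← ml b] at g1
    have g2 : ((t45 μ s d th o p.Q T cm j b + z.2 : ℤ) : ℝ) -
        (ln35 μ s (((z.1 : ℕ) : ℤ), z.2 + cm j) (i + (nM + TF)) + ml11 d b * wd μ s (T j)) =
        (uc8 μ s d (wd μ s (T j)) (cm j) (1 - (T j : ℤ) + ((nM + TF : ℕ) : ℤ)) b : ℝ) -
          (cm j + sl μ s * ((1 - (T j : ℤ) + ((nM + TF : ℕ) : ℤ) : ℤ) : ℝ) + ml11 d b * wd μ s (T j)) := by
      rw [e1]
      unfold t45
      rw [← hTFe, ← hnMe]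
      push_cast
      ring
    rw [g2]
    exact g1
  have hdw : d * wd μ s (T j) ≤ wd μ s (T j) := by
    have := mul_le_mul_of_nonneg_right hd1 (show 0 ≤ wd μ s (T j) by linarith)
    linarith
  have hcell : ∀ b, ∀ x ∈ cl83 (sg45 μ s d th o p.Q k T cm m₂ φ v v₁ g₂) j z b,
      |(x : ℝ) - ((u45 μ s d T cm j b + z.2 : ℤ) : ℝ)| ≤ o.th * wd μ s TF := by
    intro b x hx
    have hx2 : |x - (z.2 + u45 μ s d T cm j b)| ≤ ((⌊o.th * wd μ s TF⌋₊ : ℕ) : ℤ) := by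
      rw [hTFe]
      cases b
      · have h3 : x ∈ Icc (z.2 + (u45 μ s d T cm j false - ((⌊o.th * wd μ s (TF45 th o p.Q T j)⌋₊ : ℕ) : ℤ)))
          (z.2 + (u45 μ s d T cm j false + ((⌊o.th * wd μ s (TF45 th o p.Q T j)⌋₊ : ℕ) : ℤ))) := hx
        rw [mem_Icc] at h3
        rw [abs_le]
        omega
      · have h3 : x ∈ Icc (z.2 + (u45 μ s d T cm j true - ((⌊o.th * wd μ s (TF45 th o p.Q T j)⌋₊ : ℕ) : ℤ)))
          (z.2 + (u45 μ s d T cm j true + ((⌊o.th * wd μ s (TF45 th o p.Q T j)⌋₊ : ℕ) : ℤ))) := hx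
        rw [mem_Icc] at h3
        rw [abs_le]
        omega
    have h4 : (|x - (z.2 + u45 μ s d T cm j b)| : ℤ) ≤ ((⌊o.th * wd μ s TF⌋₊ : ℕ) : ℤ) := hx2
    have h5 : ((|x - (z.2 + u45 μ s d T cm j b)| : ℤ) : ℝ) ≤ ((⌊o.th * wd μ s TF⌋₊ : ℕ) : ℝ) := by exact_mod_cast h4
    have h6 := Nat.floor_le (show 0 ≤ o.th * wd μ s TF by linarith)
    have e : (x : ℝ) - ((u45 μ s d T cm j b + z.2 : ℤ) : ℝ) = ((x - (z.2 + u45 μ s d T cm j b) : ℤ) : ℝ) := by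
      push_cast
      ring
    rw [e, ← Int.cast_abs]
    exact h5.trans h6
  have hCΛ : ∀ b, ∀ x ∈ cl83 (sg45 μ s d th o p.Q k T cm m₂ φ v v₁ g₂) j z b,
      |(x : ℝ) - ln35 μ s (((z.1 : ℕ) : ℤ), z.2 + cm j) i| ≤ 1 * wd μ s (T j) := by
    intro b x hx
    have g1 := hcell b x hx
    have g2 := huu b
    have g3 := mlabs b
    have e : (x : ℝ) - ln35 μ s (((z.1 : ℕ) : ℤ), z.2 + cm j) i = ((x : ℝ) - ((u45 μ s d T cm j b + z.2 : ℤ) : ℝ)) +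
      ((((u45 μ s d T cm j b + z.2 : ℤ) : ℝ) - (ln35 μ s (((z.1 : ℕ) : ℤ), z.2 + cm j) i + ml11 d b * wd μ s (T j))) + ml11 d b * wd μ s (T j)) := by
      ring
    rw [e]
    refine (abs_add_le _ _).trans ?_
    have g4 := abs_add_le (((u45 μ s d T cm j b + z.2 : ℤ) : ℝ) - (ln35 μ s (((z.1 : ℕ) : ℤ), z.2 + cm j) i + ml11 d b * wd μ s (T j)))
      (ml11 d b * wd μ s (T j))
    linarith
  have L := ln83_mo (μ := μ) (s := s) (c := c) (η := ζ) (κ := (((z.1 : ℕ) : ℤ), z.2 + cm j)) (i := i) (n := nM + TF) (T := T j) (TF := TF)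
    (a₀ := a₀) (Cb := cl83 (sg45 μ s d th o p.Q k T cm m₂ φ v v₁ g₂) j z) (τ := fun b => ml11 d b * wd μ s (T j)) (D₁ := 1) (Λ := 1)
    (u := 1) hc0.le (by linarith) (by show (0 : ℝ) ≤ 1; norm_num) r0 (by
      push_cast
      exact mo) ra (by
      push_cast
      rw [← add_assoc]
      exact rb) (ec.trans (by linarith)) hcell hCΛ htt (fun b => by
      rw [mlabs]
      linarith)
  have eell : ell + 2 * (lnI c d th K0).dd = ell + 2 := by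
    show ell + 2 * (1 : ℝ) = ell + 2
    ring
  rw [show (1 : ℝ) + 1 = 2 by norm_num, eell] at L
  exact ⟨_, _, A, L.A1, L.low, L.up, L.crs, L.off, L.env, L.ra, L.rb, L.cC, L.cD, fun b y hy => (L.dD b y hy).trans hr8, L.tD, L.tt⟩

end

end Pool.Agent.W_7d29a1_C1.W83
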