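import Pool.Agent.W_7d29a1_C1.SepQ49
import Pool.Agent.W_7d29a1_C1.PotS40
import Pool.Agent.W_7d29a1_C1.PotT86

/-!
MP_7d29a1_pr, the attractor route [C1], SEP: THE POTENTIAL IN THE ORDER OF THE QUANTIFIERS OF THE SEPARATION (helper40).

* `evn_num40` : the numbers of one instance, eventually.
* `Cp40` : the clause of the typical events (asked at the scales `u + M / ke ≤ M` only) with the moments and the tails of the depths.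
  **`potE40`** : `Evn` of the clause gives `Evn` of `Pt40` : the potential of the stage is below `θ ^ (-2 b')`, `b' ≤ δ M / 8`, only with
  probability `≤ n ^ (-X)`.
-/

set_option autoImplicit false

namespace Pool.Agent.W_7d29a1_C1.H40

open MeasureTheory Finset
open Pool.Agent.W_7d29a1_F Pool.Agent.W_7d29a1_h4g Pool.Agent.W_7d29a1_H Pool.Agent.W_7d29a1_HS Pool.Agent.W_7d29a1_C1.S71
open Pool.Agent.W_7d29a1_C1.H60
open Pool.Agent.W_7d29a1_C1.G37 (Gm Wok gmW)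
open Pool.Agent.W_7d29a1_C1.Dep6
open Pool.Agent.W_7d29a1_C1.SF98
open Pool.Agent.W_7d29a1_C1.PS86 (pot86)
open Pool.Agent.W_7d29a1_C1.PW86
open Pool.Agent.W_7d29a1_C1.N49
open Pool.Agent.W_7d29a1_C1.Q49
open scoped ENNReal

noncomputable section

variable {P : Pre} {D : Dat} {μ : Measure ℝ} {s : ℝ}

/-- **THE NUMBERS OF ONE INSTANCE**, eventually. -/
theorem evn_num40 (lam0 N : ℕ) : Evn P D μ s fun _q _η _A lam n Γ G mt _τ0 _E =>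
    (lam0 ≤ lam ∧ N ≤ n ∧ N ≤ G.M ∧ G.m2 ≤ G.M) ∧ (D.kap * Real.log n ≤ G.M ∧ G.M ≤ n ∧ mt ≤ 2 * G.M ∧ G.M + G.m2 ≤ mt + 1) ∧
      (Fintype.card (XS Γ G mt) ≤ n ^ 13 ∧ G.An ≤ 2 ^ lam ∧ G.A0n = (2 * (D.K + 1) + 1) * (2 * (2 * D.K * 2 + 1) + 1)) ∧
      G.kn = P.kn ∧ G.kb = P.kb := by
  refine ⟨0, fun q _ => ⟨0, fun m2 _ η _ A _ => ⟨max lam0 (AnW D.K P.kn P.kb), fun lam hlam => ⟨0, fun m0 _ g1 _ e0 _ => ?_⟩⟩⟩⟩
  obtain ⟨n1, hn1⟩ := exists_nat_gt (Real.exp ((N + m2 : ℕ) / D.kap))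
  refine EvA.of_ev ⟨max (max n1 N) 20, fun n hn c₂ δ κ _ hc2 _ _ _ Γ T0 M mt τ0 hc hW _ hg => ?_⟩
  have hn' : (n1 : ℝ) ≤ n := by exact_mod_cast (show n1 ≤ n by omega)
  have hn0 : (0 : ℝ) < n := by exact_mod_cast (show 0 < n by omega)
  have hnR : (1 : ℝ) ≤ n := by exact_mod_cast (show 1 ≤ n by omega)
  have hk := D.hkap
  have h1 : ((N + m2 : ℕ) : ℝ) ≤ M := by
    have h2 : ((N + m2 : ℕ) : ℝ) / D.kap ≤ Real.log n := by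
      rw [Real.le_log_iff_exp_le hn0]
      exact hn1.le.trans hn'
    rw [div_le_iff₀ hk] at h2
    have := hc.M_ge
    linarith
  have h2 : N + m2 ≤ M := by exact_mod_cast h1
  have hmt := hc.mt_ge
  have h32 := hc.h2
  have hMn : M ≤ n := by
    have a1 : (M : ℝ) ≤ (D.K : ℝ) ^ mt := by
      have b1 : M ≤ mt := by omega
      have b2 : mt < 2 ^ mt := Nat.lt_two_pow_self
      have b3 : 2 ^ mt ≤ D.K ^ mt := Nat.pow_le_pow_left (by have := D.hK; omega) _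
      exact_mod_cast (by omega : M ≤ D.K ^ mt)
    have a3 : (1 : ℝ) ≤ T0 := by exact_mod_cast hW.hT
    have a4 : (D.K : ℝ) ^ mt ≤ 4 * ((T0 : ℝ) * (D.K : ℝ) ^ mt) := by
      have : (0 : ℝ) ≤ (D.K : ℝ) ^ mt := by positivity
      nlinarith
    have a5 : (n : ℝ) ^ (1 / 32 : ℝ) ≤ (n : ℝ) ^ (1 : ℝ) := Real.rpow_le_rpow_of_exponent_le hnR (by norm_num)
    rw [Real.rpow_one] at a5
    exact_mod_cast a1.trans (a4.trans (hc.top.trans a5))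
  refine ⟨⟨by omega, by omega, ?_, ?_⟩, ⟨hc.M_ge, hMn, hc.mt_le, ?_⟩, ⟨card_adm hc.adm hc2 (by omega), ?_, rfl⟩, rfl, rfl⟩
  · show N ≤ M
    omega
  · show m2 ≤ M
    omega
  · show M + m2 ≤ mt + 1
    omega
  · refine hg.An_le.trans ?_
    have h3 : AnW D.K P.kn P.kb < 2 ^ AnW D.K P.kn P.kb := Nat.lt_two_pow_self
    exact h3.le.trans (Nat.pow_le_pow_right (by norm_num) (by omega))

/-- **THE CLAUSE** with the depths: `sw` switch rows, `NB` pairs, the scales above `M - M / ke` are free, moment `z`, stage `M / k`, tails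
`th, a, gg, AA`. -/
def Cp40 (F : Fam) (P : Pre) (μ : Measure ℝ) (sw NB ke k z Dd C2 : ℕ) (th a gg AA X : ℝ) : Phi := fun _q _η _A _lam n Γ G mt τ0 E =>
  ∃ (C0 : ℝ) (dL : Cut (ℤ × ℤ) → Cut (ℤ × ℤ) → Env → ℕ) (dN : Cut (ℤ × ℤ) → Cut (ℤ × ℤ) → Cut (ℤ × ℤ) → Env → ℕ) (q₀ : ℝ)
    (Fs : Finset (ℕ → ℕ)) (Sw : Finset ℤ) (scL : Cut (ℤ × ℤ) → Cut (ℤ × ℤ) → ℕ) (scN : Cut (ℤ × ℤ) → Cut (ℤ × ℤ) → Cut (ℤ × ℤ) → ℕ)
    (bad : Set Env), 4 * (P.kn + (P.kb + 1) + 1) ≤ C0 ∧ (Dp2 μ z 2 dL ∧ Dp3 μ z 2 dN) ∧ (1 ≤ q₀ ∧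
      ∀ e e', law μ {η | G.M / k < dL e e' η} ≤ ENNReal.ofReal (AA * Real.exp (-(a * (q₀ * th ^ (G.M / k)) ^ gg)))) ∧
    (NbF Fs NB ∧ Sw.card ≤ sw) ∧ ClS86 Γ G mt Fs Sw (G.M / k) dL dN scL scN C0 C2 Dd τ0 bad (Tc86 G (G.M / ke) (F.TT Γ G E) 0) ∧
    law μ bad ≤ ENNReal.ofReal ((n : ℝ) ^ (-X))

/-- **THE POTENTIAL IS NOT SMALL**, off a rare event. -/
def Pt40 (F : Fam) (P : Pre) (μ : Measure ℝ) (del : ℝ) (X : ℝ) : Phi := fun q _η _A lam n Γ G mt τ0 E =>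
  ∃ b' : ℕ, (b' : ℝ) ≤ del * G.M / 8 ∧
    law μ {ω | ∃ x : XS Γ G mt, pot86 Γ G mt lam P.m3 (F.TT Γ G E) (1 + c1q P.c' q)⁻¹ τ0 (slN P.Cb E G.m2 τ0) x ω < yb P q b'} ≤
      ENNReal.ofReal ((n : ℝ) ^ (-X))

/-- **THE POTENTIAL, WITH THE QUANTIFIERS.** Order: `K`, the number `sw` of switch rows, `NB`, the fraction `δ`, `ke ≥ 50 / δ`, the
density `kap`, the exponent, any function `fz`; then `Dd`, `k`, the moment `z ≥ fz k`; then the tails `th, a, gg, AA` of the depths; then `C2`; then `Pre`, `Dat`,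
the families. -/
theorem potE40 [IsProbabilityMeasure μ] (K sw NB ke : ℕ) {del kap X : ℝ} (hdel : 0 < del) (hkap : 0 < kap) (hke : 50 / del ≤ ke)
    (fz : ℕ → ℕ) : ∃ Dd k z : ℕ, 1 ≤ Dd ∧ 1 ≤ k ∧ (1 ≤ z ∧ fz k ≤ z) ∧ ∀ th a gg AA : ℝ, 1 < th → 0 < a → 0 < gg → ∀ (C2 : ℕ) (P : Pre) (D : Dat),
      D.K = K → D.kap = kap → ∀ F : Fam, Evn P D μ s (LfF F P μ) → Evn P D μ s (Cp40 F P μ sw NB ke k z Dd C2 th a gg AA (X + 1)) →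
        Evn P D μ s (Pt40 F P μ del X) := by
  obtain ⟨A, hA⟩ : ∃ A : ℕ, A = max (max ⌈Real.exp (13 / kap)⌉₊ 2) ((2 * (K + 1) + 1) * (2 * (2 * K * 2 + 1) + 1)) := ⟨_, rfl⟩
  have hA1 : Real.exp (13 / kap) ≤ A := (Nat.le_ceil _).trans (by exact_mod_cast (by omega : ⌈Real.exp (13 / kap)⌉₊ ≤ A))
  obtain ⟨Dd, k, z, hD, hk, hz, H⟩ := potNZ40 (μ := μ) A sw NB (X + 1) (show 0 < del / 50 by positivity) hkap hA1 fz
  refine ⟨Dd, k, z, hD, hk, hz, fun th a gg AA hth ha hgg C2 P D hK hkp F hL hC => ?_⟩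
  obtain ⟨lam0, n0, H⟩ := H th a gg AA hth ha hgg C2
  obtain ⟨N, hN⟩ := exists_nat_gt (1200 / del)
  refine ((hL.and hC).and (evn_num40 lam0 (max (max n0 k) (max N 3)))).monoG ?_
  intro q m2 η A' lam m0 g1 e0 c₂ δ κ n Γ T0 M mt τ0 hc hW hη hA' he0 hc2 hc2' hδ hδ' hκ hGr hg ⟨⟨h1, h2⟩, ⟨n1, n2, n3, n4⟩,
    ⟨n5, n6, n7, n8⟩, ⟨n9, n10, n11⟩, n12, n13⟩
  obtain ⟨C0, dL, dN, q₀, Fs, Sw, scL, scN, bad, c0, ⟨cL, cN⟩, ⟨cq, ct⟩, ⟨cF, cS⟩, cC, cb⟩ := h2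
  have hq : q ≠ 0 := by have := hg.q_ge; omega
  obtain ⟨t1, t2, t3, t4⟩ := thq_spec P.hc0 P.hc1 hq
  have hy : (1 + c1q P.c' q)⁻¹ ≤ 1 := ENNReal.inv_le_one.2 (le_add_right le_rfl)
  have hM1200 : 1200 / del ≤ (M : ℝ) := hN.le.trans (by
    have : N ≤ (P.G hW M m0 g1 m2 hc.h1 hc.h2).M := by omega
    exact_mod_cast this)
  -- `b`, `e`
  obtain ⟨b, hb⟩ : ∃ b : ℕ, b = ⌊del * M / 48⌋₊ := ⟨_, rfl⟩
  have hM0 : (0 : ℝ) ≤ M := Nat.cast_nonneg _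
  have hb1 : (b : ℝ) ≤ del * M / 48 := by rw [hb]; exact Nat.floor_le (by positivity)
  have h4 : 1200 ≤ del * M := by
    rw [div_le_iff₀ hdel] at hM1200
    linarith
  have hb2 : del / 50 * M ≤ b := by
    have h3 := Nat.lt_floor_add_one (del * M / 48)
    rw [← hb] at h3
    nlinarith
  have hke0 : (0 : ℝ) < ke := lt_of_lt_of_le (by positivity) hke
  have he : ((M / ke : ℕ) : ℝ) ≤ del * M / 50 := by
    refine Nat.cast_div_le.trans ?_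
    rw [div_le_iff₀ hke0]
    have h5 : 50 ≤ del * ke := by
      rw [div_le_iff₀ hdel] at hke
      linarith
    nlinarith
  refine ⟨3 * b + M / ke, ?_, ?_⟩
  · show ((3 * b + M / ke : ℕ) : ℝ) ≤ del * (M : ℝ) / 8
    push_cast
    linarith
  · have e1 : yb P q (3 * b + M / ke) = (1 + c1q P.c' q)⁻¹ ^ (3 * b + M / ke) := by
      unfold yb
      rw [t4]
    rw [e1]
    have hsl : 0 ≤ slN P.Cb (fun u => EE μ s (Tk T0 D.K u)) m2 τ0 := hGr.sl_nonneg (by have := P.hCr; have := P.hCbr; linarith) m2 τ0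
    have mT : ∀ σ σ' u κ, σ ≤ σ' → F.TT Γ (P.G hW M m0 g1 m2 hc.h1 hc.h2) (fun u => EE μ s (Tk T0 D.K u)) σ u κ ⊆
        F.TT Γ (P.G hW M m0 g1 m2 hc.h1 hc.h2) (fun u => EE μ s (Tk T0 D.K u)) σ' u κ := fun σ σ' u κ hs ω hω =>
      ⟨hω.1, h1.sOu.mono _ _ _ _ hs hω.2.1, h1.sSt.mono _ _ _ _ hs hω.2.2.1, h1.sFw.mono _ _ _ _ hs hω.2.2.2⟩
    have h5 := H Γ (P.G hW M m0 g1 m2 hc.h1 hc.h2) mt lam P.m3 n τ0 (by omega) n1 n8 n7 n4 (by omega) (by rw [← hkp]; exact n5) n6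
      (by rw [n11, hK]; omega) (n10.trans (Nat.pow_le_pow_left (by omega) _)) n9 C0 (by rw [n12, n13]; exact c0) dL dN cL cN q₀ cq ct
      (Tc86 (P.G hW M m0 g1 m2 hc.h1 hc.h2) (M / ke) (F.TT Γ (P.G hW M m0 g1 m2 hc.h1 hc.h2) (fun u => EE μ s (Tk T0 D.K u))))
      (Tc_mono86 mT) _ hsl Fs cF Sw scL scN bad cS cC cb (1 + c1q P.c' q)⁻¹ hy b hb2
    refine (measure_mono (lt_cut86 hy (M / ke) (3 * b))).trans ?_
    refine h5.trans ?_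
    -- `3 n ^ (- X - 1) ≤ n ^ (- X)`
    have hn3 : (3 : ℝ) ≤ n := by exact_mod_cast (by omega : 3 ≤ n)
    have hn0 : (0 : ℝ) < n := by linarith
    have e2 : (3 : ℝ≥0∞) = ENNReal.ofReal 3 := by norm_num
    rw [e2, ← ENNReal.ofReal_mul (by norm_num)]
    refine ENNReal.ofReal_le_ofReal ?_
    have e3 : (n : ℝ) ^ (-(X + 1)) = (n : ℝ) ^ (-X) * (n : ℝ)⁻¹ := by
      rw [neg_add, Real.rpow_add hn0, Real.rpow_neg_one]
    rw [e3]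
    have h6 : 3 * (n : ℝ)⁻¹ ≤ 1 := by
      rw [← div_eq_mul_inv, div_le_one hn0]
      exact hn3
    have h7 : 0 ≤ (n : ℝ) ^ (-X) := Real.rpow_nonneg hn0.le _
    nlinarith

end

end Pool.Agent.W_7d29a1_C1.H40
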