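import Pool.Agent.W_7d29a1_C1.PotR86

/-!
Both halves (MP_7d29a1_pr), attractor route [C1], SEP: THE PLACES OF THE OWN SLABS, in the letters of helper25 (rows `ra`, `re` of the
windows, centres of the cells). (helper86)
-/

set_option autoImplicit false

namespace Pool.Agent.W_7d29a1_C1.PS86

open Finset MeasureTheory
open Pool.Agent.W_7d29a1_F
open Pool.Agent.W_7d29a1_C1.H60
open Pool.Agent.W_7d29a1_C1.G37 (Gm)
open Pool.Agent.W_7d29a1_C1.H40 (RJ Rl Geo SJ Kd)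
open Pool.Agent.W_7d29a1_C1.FA25 (la la_nonneg w_pow)
open Pool.Agent.W_7d29a1_C1.SF98
open scoped ENNReal

noncomputable section

variable {G : Gm}

/-- **The position** of the changed window `(u, κ)` against the slab `(v, κ')`: below its window and near the middle; below its window
and far from the middle; above its window. -/
def Pl (G : Gm) (u : ℕ) (κ : ℤ × ℤ) (v : ℕ) (κ' : ℤ × ℤ) : Prop :=
  (G.re u κ < G.ra v κ' ∧ |G.ctr u κ - G.ctr v κ'| ≤ 2 * G.w v) ∨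
    (G.re u κ < G.ra v κ' ∧ (2 * G.kn - 2) * G.w v ≤ |G.ctr u κ - G.ctr v κ'|) ∨ G.re v κ' < G.ra u κ

theorem small_w (hm2 : la G + G.kw + G.kb + 2 ≤ 2 ^ (G.m2 - 1)) {v : ℕ} (hv : G.m2 ≤ v) :
    (la G + G.kb) * G.w (v + 1 - G.m2) ≤ G.w v := by
  have h1 := w_pow (G := G) (v + 1 - G.m2) (G.m2 - 1)
  have hm := G.m2_ge
  have e : v + 1 - G.m2 + (G.m2 - 1) = v := by omega
  rw [e] at h1
  refine le_trans (mul_le_mul_of_nonneg_right ?_ (G.w_pos _).le) h1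
  have := G.kw_nonneg
  linarith

theorem PlA.pl {u v : ℕ} {κ : ℤ × ℤ} {c : ℕ × ℤ} (h : PlA G u κ v c) (h0 : 0 ≤ G.rcc u κ) : Pl G u κ v (G.loc v c) := by
  right; right
  have h1 := G.ra_cast h0
  have h2 := G.re_cast (G.rcc_pos v c).le
  have h3 : G.rcc v (G.loc v c) + G.T v < G.rcc u κ := h
  have h4 := G.T_pos' (u - 1)
  have h5 : (G.re v (G.loc v c) : ℤ) < G.ra u κ := by
    rw [h1, h2]
    linarith
  exact_mod_cast h5

theorem PlB.pl (hm2 : la G + G.kw + G.kb + 2 ≤ 2 ^ (G.m2 - 1)) {u v : ℕ} (hv : G.m2 ≤ v) {κ : ℤ × ℤ} {c : ℕ × ℤ}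
    (h : PlB G u κ v c) (h0 : 0 ≤ G.rcc u κ) : Pl G u κ v (G.loc v c) := by
  left
  have h1 := G.re_cast h0
  have h2 := G.ra_cast (G.rcc_pos v c).le
  have h3 := h.row
  have h4 : (G.re u κ : ℤ) < G.ra v (G.loc v c) := by
    rw [h1, h2]
    linarith
  refine ⟨by exact_mod_cast h4, ?_⟩
  have h5 := h.lat.trans (small_w hm2 hv)
  have h6 := G.lat_ctr v c
  have h7 := G.g_le v
  have h8 : |G.ctr u κ - G.ctr v (G.loc v c)| ≤ |G.ctr u κ - G.lat c| + |G.lat c - G.ctr v (G.loc v c)| := abs_sub_le _ _ _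
  have h9 := G.w_pos v
  linarith

theorem PlC.pl (hm2 : la G + G.kw + G.kb + 2 ≤ 2 ^ (G.m2 - 1)) {m3 u v : ℕ} (hv : G.m2 ≤ v) {κ : ℤ × ℤ} {c : ℕ × ℤ}
    (h : PlC G m3 u κ v c) (h0 : 0 ≤ G.rcc u κ) : Pl G u κ v (G.loc v c) := by
  right; left
  have h1 := G.re_cast h0
  have h2 := G.ra_cast (G.rcc_pos v c).le
  have h3 := h.row
  have h4 : (G.re u κ : ℤ) < G.ra v (G.loc v c) := by
    rw [h1, h2]
    linarith
  refine ⟨by exact_mod_cast h4, ?_⟩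
  have h5 := small_w hm2 hv
  have h6 := G.lat_ctr v c
  have h7 := G.g_le v
  have h8 : |G.ctr u κ - G.lat c| ≤ |G.ctr u κ - G.ctr v (G.loc v c)| + |G.ctr v (G.loc v c) - G.lat c| := abs_sub_le _ _ _
  rw [abs_sub_comm (G.ctr v (G.loc v c)) (G.lat c)] at h8
  have h9 := G.w_pos v
  have h10 := mul_le_mul_of_nonneg_left (G.w_two v) G.kn_nonneg
  have h11 := h.lat
  have e : (2 * G.kn - 2) * G.w v = G.kn * (2 * G.w v) - 2 * G.w v := by ring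
  rw [e]
  linarith

variable {Γ : Cx} {mt lam m3 : ℕ}

/-- **THE POSITIONS OF THE REACHABLE OWN SLABS.** -/
theorem pos86 (hm3 : 3 ≤ m3) (hm2 : la G + G.kw + G.kb + 2 ≤ 2 ^ (G.m2 - 1)) {u j : ℕ} (hu : u ≤ j) {κ : ℤ × ℤ}
    (h0 : 0 ≤ G.rcc u κ) {y : XS Γ G mt} (hy : G.Nb u κ y.1) {v : ℕ} {ρ : XS Γ G mt}
    (hr : (rj Γ G mt lam m3).Rc y (j + G.m2) v ρ) : u + G.m2 ≤ v ∧ v < G.M ∧ Pl G u κ v (G.loc v ρ.1) := by
  obtain ⟨h1, h2, h3⟩ := place86 hm3 hu hy hr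
  refine ⟨h1, h2, ?_⟩
  rcases h3 with h3 | h3 | h3
  · exact h3.pl h0
  · exact h3.pl hm2 (by omega) h0
  · exact h3.pl hm2 (by omega) h0

/-- **The field `pot` of `Osc`.** -/
theorem osc_pl86 (hm3 : 3 ≤ m3) (hm2 : la G + G.kw + G.kb + 2 ≤ 2 ^ (G.m2 - 1)) {TT : ℝ → ℕ → ℤ × ℤ → Set Env} {y : ℝ≥0∞}
    (hy : y ≤ 1) {u j : ℕ} (hu : u ≤ j) {κ : ℤ × ℤ} (h0 : 0 ≤ G.rcc u κ) {x : XS Γ G mt} (hx : G.Nb u κ x.1) {σ σ' : ℝ}
    {ω ω' : Env}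
    (h : ∀ v (ρ : XS Γ G mt), u + G.m2 ≤ v → v < G.M → Pl G u κ v (G.loc v ρ.1) →
      ω ∈ TT σ v (G.loc v ρ.1) → ω' ∈ TT σ' v (G.loc v ρ.1)) :
    pot86 Γ G mt lam m3 TT y (j + G.m2) σ x ω ≤ pot86 Γ G mt lam m3 TT y (j + G.m2) σ' x ω' :=
  pot_of hy fun v ρ hr => by
    obtain ⟨h1, h2, h3⟩ := pos86 hm3 hm2 hu h0 hx hr
    exact h v ρ h1 h2 h3

end

end Pool.Agent.W_7d29a1_C1.PS86
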