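import Pool.Agent.W_7d29a1_C1.PotS86
import Pool.Agent.W_7d29a1_C1.FaAv25

/-!
Both halves (MP_7d29a1_pr), attractor route [C1], SEP: THE PLACES OF THE OWN SLABS WHICH A CHAIN CAN USE, against a changed window of
a lower scale (helper86, for helper25).

A chain starts in `y` at the stage `j + m2`, the window `(u, κ)`, `u ≤ j`, `y` a target of the cell `κ`, is changed. An own slab
`(v, c)` of the chain is in one of three places: `PlA` its window ends below the changed window; `PlB` its window starts above the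
changed window and the changed window is laterally near its centre; `PlC` its window starts above the changed window and the changed
window is laterally far from its centre.
-/

set_option autoImplicit false

namespace Pool.Agent.W_7d29a1_C1.PS86

open Finset MeasureTheory
open Pool.Agent.W_7d29a1_F
open Pool.Agent.W_7d29a1_C1.H60
open Pool.Agent.W_7d29a1_C1.G37 (Gm)
open Pool.Agent.W_7d29a1_C1.H40 (RJ Rl Geo SJ Kd)
open Pool.Agent.W_7d29a1_C1.FA25 (la la_nonneg)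
open Pool.Agent.W_7d29a1_C1.SF98
open scoped ENNReal

noncomputable section

/-! ### The centres of a chain -/

/-- The centre `x` at the stage `τ` of a chain from `x0` at the stage `t0`. -/
structure CI (G : Gm) (t0 : ℕ) (x0 x : ℕ × ℤ) (τ : ℕ) : Prop where
  m2_le : G.m2 ≤ t0
  t0_le : t0 ≤ τ
  le : (x.1 : ℤ) ≤ x0.1
  row : (x0.1 : ℤ) ≤ x.1 + 4 * G.T (τ + 1 - G.m2)
  lat : |G.lat x0 - G.lat x| ≤ la G * G.w (τ + 1 - G.m2)

variable {G : Gm}

theorem CI.refl {x : ℕ × ℤ} {τ : ℕ} (h : G.m2 ≤ τ) : CI G τ x x τ where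
  m2_le := h
  t0_le := le_rfl
  le := le_rfl
  row := by have := G.T_pos' (τ + 1 - G.m2); linarith
  lat := by
    rw [sub_self, abs_zero]
    exact mul_nonneg la_nonneg (G.w_pos _).le

theorem CI.mono {t0 : ℕ} {x0 x : ℕ × ℤ} {τ τ' : ℕ} (h : CI G t0 x0 x τ) (hτ : τ ≤ τ') : CI G t0 x0 x τ' where
  m2_le := h.m2_le
  t0_le := h.t0_le.trans hτ
  le := h.le
  row := by
    have := G.T_mono' (show τ + 1 - G.m2 ≤ τ' + 1 - G.m2 by omega)
    linarith [h.row]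
  lat := h.lat.trans (mul_le_mul_of_nonneg_left (G.w_mono (by omega)) la_nonneg)

theorem CI.move {t0 : ℕ} {x0 x p q : ℕ × ℤ} {τ s i j : ℕ} (h : CI G t0 x0 x τ) (hτ : τ ≤ j) (hr : G.relj i j x p) (hj : j < G.M)
    (hs : s < i) (hn : G.Nb s (G.loc s p) q) : CI G t0 x0 q (j + G.m2) := by
  have hij := hr.1
  obtain ⟨a1, a2⟩ := hr.move_row (by omega) hs hn
  have a3 := hr.move_lat hj hs hn
  have hm := G.m2_ge
  have e1 : j + G.m2 + 1 - G.m2 = j + 1 := by omega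
  have t1 := G.T_mono' (show i + 1 ≤ j + 1 by omega)
  have t2 := G.T_mono' (show τ + 1 - G.m2 ≤ j by omega)
  have t3 := G.T_lt8 (show j < j + 1 by omega)
  have t4 := G.T_pos' j
  have w1 := G.w_mono (show τ + 1 - G.m2 ≤ j by omega)
  have w2 := G.w_two j
  refine ⟨h.m2_le, by have := h.t0_le; omega, a2.trans h.le, ?_, ?_⟩
  · rw [e1]
    linarith [h.row]
  · rw [e1]
    have h1 : |G.lat x0 - G.lat q| ≤ |G.lat x0 - G.lat x| + |G.lat x - G.lat q| := abs_sub_le _ _ _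
    have h2 := h.lat
    have h3 := mul_le_mul_of_nonneg_left w1 (la_nonneg (G := G))
    have h4 := mul_le_mul_of_nonneg_left w2 (la_nonneg (G := G))
    have h5 : la G * G.w (j + 1) = 2 * ((G.kn + 2 * G.kb) * G.w (j + 1)) := by unfold la; ring
    linarith

/-! ### The own slabs -/

/-- The place of an own slab `(v, c)` against the start `x0` at the stage `t0`. -/
inductive P0 (G : Gm) (m3 t0 : ℕ) (x0 : ℕ × ℤ) (v : ℕ) (c : ℕ × ℤ) : Prop
  | lo (h : G.rcc v (G.loc v c) + 2 * G.T v ≤ (x0.1 : ℤ)) : P0 G m3 t0 x0 v c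
  | near (h1 : 2 * (x0.1 : ℤ) + G.T (v - 1) ≤ 2 * (G.rcc v (G.loc v c) + G.T (v - 1))) (h2 : (c.1 : ℤ) ≤ x0.1)
      (h3 : |G.lat x0 - G.lat c| ≤ la G * G.w (v + 1 - G.m2)) : P0 G m3 t0 x0 v c
  | far (h1 : 2 * (x0.1 : ℤ) + G.T (v - 1) ≤ 2 * (G.rcc v (G.loc v c) + G.T (v - 1))) (h2 : (c.1 : ℤ) ≤ x0.1)
      (h3 : G.kn * G.w (v + 1) < |G.lat x0 - G.lat c| + la G * G.w (v + 1 - G.m2))
      (h4 : (x0.1 : ℤ) ≤ c.1 + 3 * G.T (v + 1 - m3)) (h5 : t0 + m3 ≤ v) : P0 G m3 t0 x0 v c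

/-- A stay. -/
theorem P0.stay {m3 t0 : ℕ} {x0 x : ℕ × ℤ} {τ v : ℕ} (h : CI G t0 x0 x τ) (hv : τ ≤ v) : P0 G m3 t0 x0 v x := by
  have hm := G.m2_ge
  have hτ := h.m2_le.trans h.t0_le
  have t1 := G.T_mono' (show τ + 1 - G.m2 ≤ v - 2 by omega)
  have t2 := G.T_lt8 (show v - 2 < v - 1 by omega)
  have t3 := G.lt_rcc v x
  have t4 := h.row
  refine P0.near (by linarith) h.le (h.lat.trans (mul_le_mul_of_nonneg_left (G.w_mono (by omega)) la_nonneg))

/-- The earlier centre, low scales. -/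
theorem P0.low {m3 t0 : ℕ} {x0 x p : ℕ × ℤ} {τ v i j : ℕ} (h : CI G t0 x0 x τ) (hr : G.relj i j x p) (hv : v < i) :
    P0 G m3 t0 x0 v p := by
  have t1 := G.T_lt8 hv
  have t2 := G.T_mono' (show v - 2 ≤ v by omega)
  have t3 := G.rcc_eq v (G.loc v p)
  have t4 := G.lo_le v p
  have t5 := hr.2.2.1
  have t6 := h.le
  have t7 := G.T_pos' v
  exact P0.lo (by linarith)

/-- The drifted centre. -/
theorem P0.dri {m3 t0 : ℕ} {x0 x p q : ℕ × ℤ} {τ v s i j : ℕ} (h : CI G t0 x0 x τ) (hr : G.relj i j x p)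
    (hn : G.Nb s (G.loc s p) q) (hs : s ≤ v) (hv : v < i) : P0 G m3 t0 x0 v q := by
  have t1 := G.T_lt8 hv
  have t2 := G.T_mono' (show v - 2 ≤ v by omega)
  have t3 := G.rcc_eq v (G.loc v q)
  have t4 := G.lo_le v q
  have t5 := hr.2.2.1
  have t6 := h.le
  have t7 := G.T_pos' v
  have t8 := (abs_le.1 (G.nb_near (y := p) rfl hn).1).2
  have t9 := G.T_mono' hs
  exact P0.lo (by linarith)

/-- The earlier centre, high scales. -/
theorem P0.high {m3 t0 : ℕ} (hm3 : 3 ≤ m3) {x0 x p : ℕ × ℤ} {τ v i j : ℕ} (h : CI G t0 x0 x τ) (hr : G.relj i j x p) (hτ : τ ≤ i)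
    (hv : i + m3 ≤ v) (hvj : v < j) : P0 G m3 t0 x0 v p := by
  have hm := G.m2_ge
  have hτ1 := h.t0_le
  have hτ2 := h.m2_le.trans h.t0_le
  have hjM := hr.2.1
  have t1 := G.T_mono' (show τ + 1 - G.m2 ≤ i by omega)
  have t2 := G.T_lt8 (show i < i + 1 by omega)
  have t3 := G.T_lt8 (show i + 1 < v - 1 by omega)
  have t4 := hr.2.2.1
  have t5 := hr.2.2.2.1 (by omega)
  have t6 := G.lt_rcc v p
  have t7 := h.row
  have t8 := G.T_pos' i
  have t9 := G.T_mono' (show i + 1 ≤ v + 1 - m3 by omega)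
  have f1 := hr.far (show i ≤ v by omega) hvj
  have f2 : |G.lat x - G.lat p| ≤ |G.lat x - G.lat x0| + |G.lat x0 - G.lat p| := abs_sub_le _ _ _
  rw [abs_sub_comm (G.lat x) (G.lat x0)] at f2
  have f3 := h.lat.trans (mul_le_mul_of_nonneg_left (G.w_mono (show τ + 1 - G.m2 ≤ v + 1 - G.m2 by omega)) la_nonneg)
  have f4 := h.le
  exact P0.far (by linarith) (by linarith) (by linarith) (by linarith) (by omega)

/-- The own slabs of one step. -/
theorem own_P0 {F : Finset (ℕ × ℤ)} {lam m3 t0 : ℕ} {W : Set {c // c ∈ F}} (hm3 : 3 ≤ m3) {x0 : ℕ × ℤ} {x : {c // c ∈ F}} {τ : ℕ}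
    {c : SJ {c // c ∈ F}} (hc : (G.rjG F lam m3 W).Ok x τ c) (h : CI G t0 x0 x.1 τ) {v : ℕ} {ρ : {c // c ∈ F}} (ho : RJ.Own m3 c v ρ) :
    P0 G m3 t0 x0 v ρ.1 := by
  obtain ⟨h1, h2, h3, h4, h5, h6, h7, h8, h9, h10⟩ := hc
  by_cases hk : c.k = Kd.stay
  · obtain ⟨e1, e2, e3⟩ := h9 hk
    rcases ho with ⟨rfl, b1, b2⟩ | ⟨rfl, b1, b2⟩ | ⟨rfl, b1, b2⟩
    · rw [e1]; exact P0.stay h (by omega)
    · rw [e2]; exact P0.stay h (by omega)
    · omega
  · obtain ⟨hr, hd⟩ := h10 hk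
    have hr' : G.relj c.i c.j x.1 c.p.1 := hr
    have hd' : G.Nb c.s (G.loc c.s c.p.1) c.q.1 := (G.mem_nb).1 hd
    rcases ho with ⟨rfl, b1, b2⟩ | ⟨rfl, b1, b2⟩ | ⟨rfl, b1, b2⟩
    · exact P0.low h hr' (by omega)
    · exact P0.dri h hr' hd' b1 b2
    · exact P0.high hm3 h hr' (by omega) b1 b2

/-- The own slabs of a chain. -/
theorem chain_P0 {F : Finset (ℕ × ℤ)} {lam m3 t0 : ℕ} {W : Set {c // c ∈ F}} (hm3 : 3 ≤ m3) {x0 : ℕ × ℤ} {x : {c // c ∈ F}} {τ : ℕ}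
    {l : List (SJ {c // c ∈ F})} (hl : (G.rjG F lam m3 W).IsC x τ l) (h : CI G t0 x0 x.1 τ) {c : SJ {c // c ∈ F}} (hc : c ∈ l)
    {v : ℕ} {ρ : {c // c ∈ F}} (ho : RJ.Own m3 c v ρ) : P0 G m3 t0 x0 v ρ.1 := by
  induction l generalizing x τ with
  | nil => exact absurd hc (by simp)
  | cons d l ih =>
    obtain ⟨hd, hl'⟩ := hl
    rcases List.mem_cons.1 hc with rfl | hc'
    · exact own_P0 hm3 hd h ho
    · refine ih hl' ?_ hc'
      obtain ⟨h1, h2, h3, h4, h5, h6, h7, h8, h9, h10⟩ := hd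
      have hjM : d.j < G.M := by
        cases l with
        | nil => exact absurd hc' (by simp)
        | cons e l =>
          obtain ⟨⟨g1, g2, g3, g4, g5, g6, -⟩, -⟩ := hl'
          have g1' : d.j + G.m2 ≤ e.a := g1
          have g6' : e.j ≤ G.M := g6
          have := G.m2_ge
          omega
      by_cases hk : d.k = Kd.move
      · have e : RJ.nxc x d = d.q := if_pos hk
        rw [e]
        obtain ⟨hr, hdr⟩ := h10 (by rw [hk]; simp)
        exact h.move (by omega) hr hjM h3 ((G.mem_nb).1 hdr)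
      · have e : RJ.nxc x d = x := if_neg hk
        rw [e]
        exact h.mono (show τ ≤ d.j + G.m2 by omega)

/-! ### The places -/

/-- The window of the slab `(v, c)` ends below the window `(u, κ)`. -/
def PlA (G : Gm) (u : ℕ) (κ : ℤ × ℤ) (v : ℕ) (c : ℕ × ℤ) : Prop := G.rcc v (G.loc v c) + G.T v < G.rcc u κ

/-- The window of the slab `(v, c)` starts above the window `(u, κ)`, which is laterally near. -/
structure PlB (G : Gm) (u : ℕ) (κ : ℤ × ℤ) (v : ℕ) (c : ℕ × ℤ) : Prop where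
  row : G.rcc u κ + G.T u < G.rcc v (G.loc v c) + G.T (v - 1)
  low : (c.1 : ℤ) < G.rcc u κ + G.T u
  lat : |G.ctr u κ - G.lat c| ≤ (la G + G.kb) * G.w (v + 1 - G.m2)

/-- The window of the slab `(v, c)` starts above the window `(u, κ)`, which is laterally far. -/
structure PlC (G : Gm) (m3 u : ℕ) (κ : ℤ × ℤ) (v : ℕ) (c : ℕ × ℤ) : Prop where
  row : G.rcc u κ + G.T u < G.rcc v (G.loc v c) + G.T (v - 1)
  low : (c.1 : ℤ) < G.rcc u κ + G.T u
  up : G.rcc u κ + G.T u ≤ c.1 + 4 * G.T (v + 1 - m3)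
  lat : G.kn * G.w (v + 1) < |G.ctr u κ - G.lat c| + (la G + G.kb) * G.w (v + 1 - G.m2)

/-- From the start to the changed window. -/
theorem P0.place {m3 t0 : ℕ} {x0 c : ℕ × ℤ} {u v : ℕ} (h : P0 G m3 t0 x0 v c) (hut : u + G.m2 ≤ t0) (hu : u + G.m2 ≤ v)
    {κ : ℤ × ℤ} (hx : G.Nb u κ x0) : PlA G u κ v c ∨ PlB G u κ v c ∨ PlC G m3 u κ v c := by
  have hm2 := G.m2_ge
  obtain ⟨n1, n2, n3⟩ := hx
  have t1 := G.rcc_eq u κ
  have t2 := G.T_mono' (show u - 2 ≤ u by omega)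
  have t3 := G.T_lt8 (show u < v - 2 by omega)
  have t4 := G.T_lt8 (show v - 2 < v - 1 by omega)
  have t5 := G.T_mono' (show v - 1 ≤ v by omega)
  have t6 := G.T_pos' u
  have w1 : G.w u ≤ G.w (v + 1 - G.m2) := G.w_mono (by omega)
  have hkb : 0 ≤ G.kb := by linarith [G.kb_ge]
  have w2 := mul_le_mul_of_nonneg_left w1 hkb
  rcases h with h | ⟨h1, h2, h3⟩ | ⟨h1, h2, h3, h4, h5⟩
  · left
    show G.rcc v (G.loc v c) + G.T v < G.rcc u κ
    linarith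
  · right; left
    refine ⟨by linarith, by linarith, ?_⟩
    have h5 : |G.ctr u κ - G.lat c| ≤ |G.ctr u κ - G.lat x0| + |G.lat x0 - G.lat c| := abs_sub_le _ _ _
    rw [abs_sub_comm (G.ctr u κ) (G.lat x0)] at h5
    rw [add_mul]
    linarith
  · right; right
    have t7 := G.T_lt8 (show u < v + 1 - m3 by omega)
    refine ⟨by linarith, by linarith, by linarith, ?_⟩
    · have h6 : |G.lat x0 - G.lat c| ≤ |G.lat x0 - G.ctr u κ| + |G.ctr u κ - G.lat c| := abs_sub_le _ _ _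
      rw [add_mul]
      linarith

variable {Γ : Cx} {mt lam m3 : ℕ}

/-- **THE PLACES OF THE REACHABLE OWN SLABS.** -/
theorem place86 (hm3 : 3 ≤ m3) {u j : ℕ} (hu : u ≤ j) {κ : ℤ × ℤ} {y : XS Γ G mt} (hy : G.Nb u κ y.1) {v : ℕ} {ρ : XS Γ G mt}
    (hr : (rj Γ G mt lam m3).Rc y (j + G.m2) v ρ) :
    u + G.m2 ≤ v ∧ v < G.M ∧ (PlA G u κ v ρ.1 ∨ PlB G u κ v ρ.1 ∨ PlC G m3 u κ v ρ.1) := by
  obtain ⟨-, h1, h2⟩ := hr.spec
  obtain ⟨l, c, h3, h4, h5⟩ := hr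
  have h6 : P0 G m3 (j + G.m2) y.1 v ρ.1 := chain_P0 hm3 h3 (CI.refl (Nat.le_add_left _ _)) h4 h5
  exact ⟨by omega, h2, h6.place (by omega) (by omega) hy⟩

/-- **The field `pot` of `Osc`.** -/
theorem osc_pot86 (hm3 : 3 ≤ m3) {TT : ℝ → ℕ → ℤ × ℤ → Set Env} {y : ℝ≥0∞} (hy : y ≤ 1) {u j : ℕ} (hu : u ≤ j) {κ : ℤ × ℤ}
    {x : XS Γ G mt} (hx : G.Nb u κ x.1) {σ σ' : ℝ} {ω ω' : Env}
    (h : ∀ v (ρ : XS Γ G mt), u + G.m2 ≤ v → v < G.M → PlA G u κ v ρ.1 ∨ PlB G u κ v ρ.1 ∨ PlC G m3 u κ v ρ.1 →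
      ω ∈ TT σ v (G.loc v ρ.1) → ω' ∈ TT σ' v (G.loc v ρ.1)) :
    pot86 Γ G mt lam m3 TT y (j + G.m2) σ x ω ≤ pot86 Γ G mt lam m3 TT y (j + G.m2) σ' x ω' :=
  pot_of hy fun v ρ hr => by
    obtain ⟨h1, h2, h3⟩ := place86 hm3 hu hx hr
    exact h v ρ h1 h2 h3

/-- A contact is a target of its own cell. -/
theorem Nb_self (u : ℕ) (c : ℕ × ℤ) : G.Nb u (G.loc u c) c := by
  have h1 := G.lo_le u c
  have h2 := G.lt_rcc u c
  have h3 := G.lat_ctr u c
  have h4 := G.g_le u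
  have h5 := G.w_pos u
  have h6 := G.kb_ge
  have h7 := G.T_pos' u
  refine ⟨h1, ?_, ?_⟩
  · linarith
  · have h8 : G.w u ≤ G.kb * G.w u := le_mul_of_one_le_left h5.le h6
    linarith

end

end Pool.Agent.W_7d29a1_C1.PS86
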