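import Pool.Agent.W_7d29a1_C1.SepF98

/-!
Both halves (MP_7d29a1_pr), attractor route [C1], SEP: THE POTENTIAL OF THE FRAME `In98` (helper86, for helper25, helper98).

`pot86`: the chain potential of ChnJ40 over the relations of GeoT37, a slab `(u, ρ)` is normal if `ω ∈ TT σ u (loc u ρ)`.
All `pot` fields of `In98`, and the field `pot` of `Osc` (from the stability of the typical events at the own slabs which a chain
can use).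
-/

set_option autoImplicit false

namespace Pool.Agent.W_7d29a1_C1.PS86

open Finset MeasureTheory
open Pool.Agent.W_7d29a1_F
open Pool.Agent.W_7d29a1_C1.H60
open Pool.Agent.W_7d29a1_C1.G37 (Gm)
open Pool.Agent.W_7d29a1_C1.H40 (RJ Rl Geo)
open Pool.Agent.W_7d29a1_C1.H49 (Par ex fac)
open Pool.Agent.W_7d29a1_C1.SF98
open scoped ENNReal

noncomputable section

variable {Γ : Cx} {G : Gm} {mt : ℕ}

variable (Γ G mt) in
/-- The relations of the chains on the contacts of the frame. -/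
def rj (lam m3 : ℕ) : RJ (XS Γ G mt) := G.rjG (FS Γ G mt) lam m3 Set.univ

variable (Γ G mt) in
/-- The normal slabs at the slack `σ`. -/
def TS (TT : ℝ → ℕ → ℤ × ℤ → Set Env) (σ : ℝ) (u : ℕ) (ρ : XS Γ G mt) : Set Env := TT σ u (G.loc u ρ.1)

variable (Γ G mt) in
/-- **The potential.** -/
def pot86 (lam m3 : ℕ) (TT : ℝ → ℕ → ℤ × ℤ → Set Env) (y : ℝ≥0∞) (τ : ℕ) (σ : ℝ) (x : XS Γ G mt) (ω : Env) : ℝ≥0∞ :=
  (rj Γ G mt lam m3).Pot (Rl.dpT (TS Γ G mt TT σ)) y x τ ω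

variable {lam m3 : ℕ} {TT : ℝ → ℕ → ℤ × ℤ → Set Env} {y : ℝ≥0∞}

/-! ### Simple fields -/

theorem meas_dpT {σ Ω : Type*} [MeasurableSpace Ω] {T : ℕ → σ → Set Ω} (hT : ∀ u ρ, MeasurableSet (T u ρ)) (u : ℕ) (ρ : σ) :
    Measurable (Rl.dpT T u ρ) := by
  classical
  unfold Rl.dpT
  exact Measurable.ite (hT u ρ) measurable_const measurable_const

theorem mpot (hm : ∀ σ u κ, MeasurableSet (TT σ u κ)) (τ : ℕ) (σ : ℝ) (x : XS Γ G mt) :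
    Measurable (pot86 Γ G mt lam m3 TT y τ σ x) :=
  RJ.measurable_Pot (fun u ρ => meas_dpT (fun _ _ => hm _ _ _) u ρ) y x τ

theorem pot_le (τ : ℕ) (σ : ℝ) (x : XS Γ G mt) (ω : Env) : pot86 Γ G mt lam m3 TT y τ σ x ω ≤ 1 := RJ.Pot_le_one _ _ _ _ _

theorem dpT_le {σ Ω : Type*} {T T' : ℕ → σ → Set Ω} {u : ℕ} {ρ : σ} {ω ω' : Ω} (h : ω ∈ T u ρ → ω' ∈ T' u ρ) :
    Rl.dpT T' u ρ ω' ≤ Rl.dpT T u ρ ω := by
  classical
  unfold Rl.dpT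
  by_cases h1 : ω ∈ T u ρ
  · simp [h1, h h1]
  · by_cases h2 : ω' ∈ T' u ρ <;> simp [h1, h2]

/-- **Stability of the potential**: other environment, other slack. -/
theorem pot_of (hy : y ≤ 1) {τ : ℕ} {σ σ' : ℝ} {x : XS Γ G mt} {ω ω' : Env}
    (h : ∀ u ρ, (rj Γ G mt lam m3).Rc x τ u ρ → ω ∈ TT σ u (G.loc u ρ.1) → ω' ∈ TT σ' u (G.loc u ρ.1)) :
    pot86 Γ G mt lam m3 TT y τ σ x ω ≤ pot86 Γ G mt lam m3 TT y τ σ' x ω' :=
  RJ.Pot_le_Pot hy fun u ρ hr => dpT_le (h u ρ hr)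

theorem pot_mono (hy : y ≤ 1) (hT : ∀ σ σ' u κ, σ ≤ σ' → TT σ u κ ⊆ TT σ' u κ) {τ τ' : ℕ} {σ σ' : ℝ} (x : XS Γ G mt) (ω : Env)
    (hτ : τ ≤ τ') (hσ : σ ≤ σ') : pot86 Γ G mt lam m3 TT y τ σ x ω ≤ pot86 Γ G mt lam m3 TT y τ' σ' x ω :=
  (pot_of hy fun _ _ _ h => hT _ _ _ _ hσ h).trans (RJ.Pot_mono _ _ _ hτ _)

/-! ### The three steps -/

section Steps

variable {th be : ℕ → ℕ → ℝ} {sl b d : ℕ → ℝ} {st : ℕ → ℕ → ℕ} {κ3 θ c1 : ℝ≥0∞} {τ0 q r q0 : ℕ}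

/-- The numbers of the steps. -/
structure PN (G : Gm) (lam m3 : ℕ) (sl : ℕ → ℝ) (st : ℕ → ℕ → ℕ) (θ c1 : ℝ≥0∞) (τ0 q q0 : ℕ) : Prop where
  one_le : 1 ≤ θ
  θ_top : θ ≠ ⊤
  c_eq : 1 + c1 = θ ^ 2
  sl_mono : Monotone sl
  st_ge : ∀ t i, τ0 < t → t + G.m0 ≤ i → i ≤ G.M → t ≤ st t i
  st_lt : ∀ t i, τ0 < t → t + G.m0 ≤ i → i ≤ G.M → st t i < i
  st_la : ∀ t i, τ0 < t → t + G.m0 ≤ i → i ≤ G.M → st t i + lam ≤ i
  hq0 : 2 * m3 ≤ q0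

namespace PN

variable (h : PN G lam m3 sl st θ c1 τ0 q q0)

include h

theorem y_eq : (1 + c1)⁻¹ = (θ ^ 2)⁻¹ := by rw [h.c_eq]

theorem y_le : (1 + c1)⁻¹ ≤ 1 := by
  rw [h.c_eq]
  exact ENNReal.inv_le_one.2 (one_le_pow₀ h.one_le)

end PN

/-- The typical event of the stage is inside the typical event of the scale. -/
theorem TS_sub (hT : ∀ σ σ' u κ, σ ≤ σ' → TT σ u κ ⊆ TT σ' u κ) (hs : Monotone sl) {t u : ℕ} (hu : t ≤ u) (ρ : XS Γ G mt) :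
    TS Γ G mt TT (sl (t - 1)) u ρ ⊆ TA TT q d sl ∅ u (G.loc u ρ.1) := by
  refine hT _ _ _ _ ?_
  rw [dA_empty, add_zero]
  exact hs (by omega)

theorem pot_late (h : PN G lam m3 sl st θ c1 τ0 q q0) (hT : ∀ σ σ' u κ, σ ≤ σ' → TT σ u κ ⊆ TT σ' u κ) (t i : ℕ)
    (hr : (p98 Γ G mt th sl be b st κ3 θ).rg τ0 t i) (x : XS Γ G mt) (ω : Env) :
    pot86 Γ G mt lam m3 TT (1 + c1)⁻¹ (t - 1) (sl (t - 1)) x ω ≤ θ ^ q0 *
      ((∏ u ∈ Sq q r (st t i) i, fac (TA TT q d sl ∅ u (G.loc u x.1)) c1 ω) *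
        pot86 Γ G mt lam m3 TT (1 + c1)⁻¹ (i + G.m2) (sl (t - 1)) x ω) := by
  classical
  obtain ⟨h1, h2, h3⟩ := hr
  have a1 := h.st_ge t i h1 h2 h3
  have key := RJ.pot_late (R := rj Γ G mt lam m3) (T := TS Γ G mt TT (sl (t - 1)))
    (T' := fun u ρ => TA TT q d sl ∅ u (G.loc u ρ.1)) h.y_le (x := x) (Set.mem_univ _) (τ := t - 1) (a := st t i) (i := i)
    (τ' := i + G.m2) (by omega) (h.st_la t i h1 h2 h3) (h.st_lt t i h1 h2 h3) h3 le_rfl (S := Sq q r (st t i) i)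
    (fun u hu => by
      unfold Sq at hu
      rw [mem_Ico] at hu ⊢
      omega)
    (fun u hu => TS_sub hT h.sl_mono (by
      unfold Sq at hu
      rw [mem_Ico] at hu
      omega) x) ω
  refine key.trans (le_trans ?_ (le_mul_of_one_le_left zero_le (one_le_pow₀ h.one_le)))
  refine mul_le_mul' (le_of_eq (prod_congr rfl fun u _ => ?_)) le_rfl
  unfold fac
  split_ifs <;> rfl

theorem pot_none (h : PN G lam m3 sl st θ c1 τ0 q q0) (hT : ∀ σ σ' u κ, σ ≤ σ' → TT σ u κ ⊆ TT σ' u κ) (t i j : ℕ)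
    (hr : (p98 Γ G mt th sl be b st κ3 θ).rg τ0 t i) (hij : i ≤ j) (hj : j ≤ G.M) (x ρ : XS Γ G mt) (ω : Env)
    (hω : ω ∈ rl98 TT q d sl G m3 i j x.1 ρ.1) (hab : ∀ u ∈ Ico (st t i) i, ω ∉ TA TT q d sl ∅ u (G.loc u ρ.1)) :
    pot86 Γ G mt lam m3 TT (1 + c1)⁻¹ (t - 1) (sl (t - 1)) x ω ≤
      θ ^ q0 * ((1 + c1)⁻¹ ^ ((i - st t i) + (j - i)) * pot86 Γ G mt lam m3 TT (1 + c1)⁻¹ (j + G.m2) (sl (t - 1)) x ω) := by
  obtain ⟨h1, h2, h3⟩ := hr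
  have a1 := h.st_ge t i h1 h2 h3
  have a2 := h.st_lt t i h1 h2 h3
  have key := RJ.pot_none (R := rj Γ G mt lam m3) (T := TS Γ G mt TT (sl (t - 1))) h.y_le (x := x) (ρ := ρ) (Set.mem_univ _)
    (τ := t - 1) (a := st t i) (i := i) (j := j) (τ' := j + G.m2) (by omega) (h.st_la t i h1 h2 h3) a2 hij hj le_rfl hω.1
    (nb_self _ ρ) (ω := ω) (fun u hu hm => hab u hu (TS_sub hT h.sl_mono (by rw [mem_Ico] at hu; omega) ρ hm))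
    (fun u hu hm => hω.2 u hu (TS_sub hT h.sl_mono (by rw [mem_Ico] at hu; omega) ρ hm))
  refine key.trans ?_
  rw [← mul_assoc]
  exact mul_le_mul' (RJ.y_pow_le h.one_le h.θ_top h.y_eq hij h.hq0) le_rfl

theorem pot_early (h : PN G lam m3 sl st θ c1 τ0 q q0) (hT : ∀ σ σ' u κ, σ ≤ σ' → TT σ u κ ⊆ TT σ' u κ) (t i j : ℕ)
    (hr : (p98 Γ G mt th sl be b st κ3 θ).rg τ0 t i) (hij : i ≤ j) (hj : j ≤ G.M) (s : ℕ) (hs : s ∈ Ico (st t i) i)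
    (x ρ ρ' : XS Γ G mt) (hn : ρ' ∈ G.nb (FS Γ G mt) s (G.cel (FS Γ G mt) s ρ)) (ω : Env)
    (hω : ω ∈ rl98 TT q d sl G m3 i j x.1 ρ.1) (hab : ∀ u ∈ Ico (st t i) s, ω ∉ TA TT q d sl ∅ u (G.loc u ρ.1)) :
    pot86 Γ G mt lam m3 TT (1 + c1)⁻¹ (t - 1) (sl (t - 1)) x ω ≤
      θ ^ q0 * (1 + c1)⁻¹ ^ ((s - st t i) + (j - i)) *
        ((∏ u ∈ Sq q r s i, fac (TA TT q d sl ∅ u (G.loc u ρ'.1)) c1 ω) *
          pot86 Γ G mt lam m3 TT (1 + c1)⁻¹ (j + G.m2) (sl (t - 1)) ρ' ω) := by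
  classical
  obtain ⟨h1, h2, h3⟩ := hr
  rw [mem_Ico] at hs
  have a1 := h.st_ge t i h1 h2 h3
  have key := RJ.pot_early (R := rj Γ G mt lam m3) (T := TS Γ G mt TT (sl (t - 1)))
    (T' := fun u ρ => TA TT q d sl ∅ u (G.loc u ρ.1)) h.y_le (x := x) (ρ := ρ) (ρ' := ρ') (Set.mem_univ _) (Set.mem_univ _)
    (τ := t - 1) (a := st t i) (s := s) (i := i) (j := j) (τ' := j + G.m2) (by omega) (h.st_la t i h1 h2 h3) hs.1 hs.2 hij hj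
    le_rfl hω.1 hn (S := Sq q r s i)
    (fun u hu => by
      unfold Sq at hu
      rw [mem_Ico] at hu ⊢
      omega)
    (fun u hu => TS_sub hT h.sl_mono (by
      unfold Sq at hu
      rw [mem_Ico] at hu
      omega) ρ') (ω := ω)
    (fun u hu hm => hab u hu (TS_sub hT h.sl_mono (by rw [mem_Ico] at hu; omega) ρ hm))
    (fun u hu hm => hω.2 u hu (TS_sub hT h.sl_mono (by rw [mem_Ico] at hu; omega) ρ hm))
  refine key.trans (mul_le_mul' (RJ.y_pow_le h.one_le h.θ_top h.y_eq hij h.hq0) (mul_le_mul' (le_of_eq ?_) le_rfl))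
  refine prod_congr rfl fun u _ => ?_
  unfold fac
  split_ifs <;> rfl

end Steps

end

end Pool.Agent.W_7d29a1_C1.PS86
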