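import Pool.Agent.W_7d29a1_C1.NumM17
import Pool.Agent.W_7d29a1_C1.JmpN67
import Pool.Agent.W_7d29a1_C1.Chn40

/-!
MP_7d29a1_pr, attractor route [C1], SEP: THE NUMBERS OF THE PROFILE CLAUSE PR (helper99, helper25 88074): the radius `R` is a constant,
the reach `J = J(u)` is the first one with `R w_u ≤ w_(u + J)`; then `A Θ ^ Jhi E_(u + J) ≤ σ R E_u`. (helper41)
-/

set_option autoImplicit false

namespace Pool.Agent.W_7d29a1_C1.H41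

open MeasureTheory ProbabilityTheory Filter Topology
open Pool.Agent.W_7d29a1_H Pool.Agent.W_7d29a1_HS
open Pool.Agent.W_7d29a1_C1 (GrE17 grW17 wd_gain)
open Pool.Agent.W_7d29a1_C1.H40 (Tk)

noncomputable section

/-- The first power above a given number. -/
theorem pow_near41 {x y : ℝ} (hx : 1 < x) (hy : 1 ≤ y) : ∃ j : ℕ, y ≤ x ^ j ∧ x ^ j ≤ x * y := by
  obtain ⟨n, h1, h2⟩ := exists_nat_pow_near hy hx
  refine ⟨n + 1, h2.le, ?_⟩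
  rw [pow_succ]
  nlinarith

variable {μ : Measure ℝ} [IsProbabilityMeasure μ] {s c C : ℝ} {n₀ : ℕ}

/-- **THE NUMBERS OF PR.** `η₀` and `n₁` depend on the law only. -/
theorem prT41 (h : In μ s c C n₀) : ∃ η₀ : ℝ, 0 < η₀ ∧ ∃ n₁ : ℕ, 1 ≤ n₁ ∧ ∀ K : ℕ, 2 ≤ K → ∀ Θ : ℝ, 1 ≤ Θ → Θ ≤ (K : ℝ) ^ η₀ →
    ∀ A σ : ℝ, 0 ≤ A → 0 < σ → ∃ R₁ : ℝ, 1 ≤ R₁ ∧ ∀ R : ℝ, R₁ ≤ R → ∃ Jhi : ℕ, ∀ T : ℕ, n₁ ≤ T → ∃ J : ℕ, 1 ≤ J ∧ J ≤ Jhi ∧
      R * wd μ s T ≤ wd μ s (T * K ^ J) ∧ A * Θ ^ Jhi * EE μ s (T * K ^ J) ≤ σ * R * EE μ s T := by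
  obtain ⟨a, k, n₂, ha1, gw⟩ := grW17 h
  obtain ⟨D, g, n₃, hD, hg, hn3, hgain⟩ := wd_gain h
  have ha := gw.a0
  have hk := gw.k0
  have h1a : 0 < 1 - a := by linarith
  obtain ⟨γ, hγ⟩ : ∃ γ : ℝ, γ = g / (1 - a) := ⟨_, rfl⟩
  have hγ0 : 0 < γ := by
    rw [hγ]
    positivity
  refine ⟨a * γ / 2, by positivity, max n₂ n₃, hn3.trans (le_max_right _ _), fun K hK Θ hΘ hΘK A σ hA hσ => ?_⟩
  have hK1 : (1 : ℝ) < K := by exact_mod_cast (by omega : 1 < K)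
  have hK0 : (0 : ℝ) < K := by linarith
  have hKa : 1 < (K : ℝ) ^ a := Real.one_lt_rpow hK1 ha
  obtain ⟨X, hX⟩ : ∃ X : ℝ, X = A * D * k⁻¹ * (K : ℝ) ^ (1 - a) * ((K : ℝ) ^ a / k) ^ (γ / 2) * k ^ (-γ) := ⟨_, rfl⟩
  have hX0 : 0 ≤ X := by
    rw [hX]
    positivity
  refine ⟨max 2 ((X / σ) ^ (2 / γ)), le_trans (by norm_num) (le_max_left _ _), fun R hR => ?_⟩
  have hR2 : 2 ≤ R := (le_max_left _ _).trans hR
  have hR0 : 0 < R := by linarith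
  have hRX : X / σ ≤ R ^ (γ / 2) := by
    have h1 := Real.rpow_le_rpow (by positivity) ((le_max_right _ _).trans hR) (show 0 ≤ γ / 2 by positivity)
    rw [← Real.rpow_mul (by positivity), show 2 / γ * (γ / 2) = 1 by field_simp, Real.rpow_one] at h1
    exact h1
  have hRk : 1 ≤ R / k := by
    rw [one_le_div hk]
    linarith [gw.k1]
  obtain ⟨Jh, hJ1, hJ2⟩ := pow_near41 hKa hRk
  refine ⟨Jh, fun T hT => ?_⟩
  have hT2 : n₂ ≤ T := (le_max_left _ _).trans hT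
  have hT3 : n₃ ≤ T := (le_max_right _ _).trans hT
  have hT1 : 1 ≤ T := hn3.trans hT3
  have hK1' : 1 ≤ K := by omega
  have hwT : 0 < wd μ s T := gw.pos T hT2
  have hex : ∃ j : ℕ, R * wd μ s T ≤ wd μ s (T * K ^ j) := by
    refine ⟨Jh, ?_⟩
    have h1 := gw.lo_sc hT2 hK1' Jh
    have h2 : R ≤ k * ((K : ℝ) ^ a) ^ Jh := by
      have := mul_le_mul_of_nonneg_left hJ1 hk.le
      rwa [mul_div_cancel₀ _ hk.ne'] at this
    exact (mul_le_mul_of_nonneg_right h2 hwT.le).trans h1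
  classical
  obtain ⟨J, hJd⟩ : ∃ J : ℕ, J = Nat.find hex := ⟨_, rfl⟩
  have hJs : R * wd μ s T ≤ wd μ s (T * K ^ J) := by
    rw [hJd]
    exact Nat.find_spec hex
  have hJm : ∀ j, j < J → wd μ s (T * K ^ j) < R * wd μ s T := fun j hj => by
    rw [hJd] at hj
    exact lt_of_not_ge (Nat.find_min hex hj)
  have hJle : J ≤ Jh := by
    by_contra hcon
    have h1 := hJm Jh (by omega)
    have h2 := gw.lo_sc hT2 hK1' Jh
    have h3 : R ≤ k * ((K : ℝ) ^ a) ^ Jh := by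
      have := mul_le_mul_of_nonneg_left hJ1 hk.le
      rwa [mul_div_cancel₀ _ hk.ne'] at this
    have h4 := (mul_le_mul_of_nonneg_right h3 hwT.le).trans h2
    linarith
  have hJ0 : 1 ≤ J := by
    by_contra hcon
    have h0 : J = 0 := by omega
    rw [h0, pow_zero, mul_one] at hJs
    nlinarith
  refine ⟨J, hJ0, hJle, hJs, ?_⟩
  -- the width at the reach
  have hTJ : n₂ ≤ T * K ^ (J - 1) := hT2.trans (Nat.le_mul_of_pos_right _ (Nat.pow_pos (by omega)))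
  have e1 : T * K ^ (J - 1) * K ^ 1 = T * K ^ J := by
    rw [pow_one, mul_assoc, ← pow_succ, Nat.sub_add_cancel hJ0]
  have b1 := gw.up_sc hTJ hK1' 1
  rw [e1, pow_one] at b1
  have b2 := hJm (J - 1) (by omega)
  have hwJ : wd μ s (T * K ^ J) ≤ k⁻¹ * (K : ℝ) ^ (1 - a) * R * wd μ s T := by
    have h1 : k * wd μ s (T * K ^ J) ≤ (K : ℝ) ^ (1 - a) * (R * wd μ s T) :=
      b1.trans (mul_le_mul_of_nonneg_left b2.le (by positivity))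
    calc wd μ s (T * K ^ J) = k⁻¹ * (k * wd μ s (T * K ^ J)) := by field_simp
      _ ≤ k⁻¹ * ((K : ℝ) ^ (1 - a) * (R * wd μ s T)) := mul_le_mul_of_nonneg_left h1 (by positivity)
      _ = _ := by ring
  -- the ratio of the heights is large
  obtain ⟨Z, hZ⟩ : ∃ Z : ℝ, Z = (K : ℝ) ^ J := ⟨_, rfl⟩
  have hZ0 : 0 < Z := by
    rw [hZ]
    positivity
  have hkR : k * R ≤ Z ^ (1 - a) := by
    have h1 := gw.up_sc hT2 hK1' J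
    have h2 : k * (R * wd μ s T) ≤ ((K : ℝ) ^ (1 - a)) ^ J * wd μ s T := (mul_le_mul_of_nonneg_left hJs hk.le).trans h1
    have h3 : ((K : ℝ) ^ (1 - a)) ^ J = Z ^ (1 - a) := by
      rw [hZ, ← Real.rpow_natCast, ← Real.rpow_mul hK0.le, ← Real.rpow_natCast, ← Real.rpow_mul hK0.le, mul_comm]
    rw [h3, ← mul_assoc] at h2
    exact le_of_mul_le_mul_right h2 hwT
  have hZg : (k * R) ^ γ ≤ Z ^ g := by
    have h1 := Real.rpow_le_rpow (by positivity) hkR hγ0.le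
    rw [← Real.rpow_mul hZ0.le, hγ, mul_div_cancel₀ _ h1a.ne'] at h1
    rw [hγ]
    exact h1
  -- the energy at the reach
  have hE0 : 0 < EE μ s T := EE_pos T
  have hEJ0 : 0 < EE μ s (T * K ^ J) := EE_pos _
  have c1 : (k * R) ^ γ * EE μ s (T * K ^ J) ≤ D * k⁻¹ * (K : ℝ) ^ (1 - a) * R * EE μ s T := by
    have h1 := hgain T (T * K ^ J) hT3 (Nat.le_mul_of_pos_right _ (Nat.pow_pos (by omega)))
    rw [show ((T * K ^ J : ℕ) : ℝ) / T = Z by rw [hZ]; exact Pool.Agent.W_7d29a1_C1.ratio17 hT1] at h1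
    have h2 : D * (EE μ s T * wd μ s (T * K ^ J)) ≤ D * (EE μ s T * (k⁻¹ * (K : ℝ) ^ (1 - a) * R * wd μ s T)) :=
      mul_le_mul_of_nonneg_left (mul_le_mul_of_nonneg_left hwJ hE0.le) hD.le
    have h3 : (Z ^ g * EE μ s (T * K ^ J)) * wd μ s T ≤ (D * k⁻¹ * (K : ℝ) ^ (1 - a) * R * EE μ s T) * wd μ s T := by
      calc _ = Z ^ g * (EE μ s (T * K ^ J) * wd μ s T) := by ring
        _ ≤ _ := h1
        _ ≤ _ := h2
        _ = _ := by ring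
    have h4 := le_of_mul_le_mul_right h3 hwT
    exact (mul_le_mul_of_nonneg_right hZg hEJ0.le).trans h4
  -- the constant
  have c2 : Θ ^ Jh ≤ (R / k * (K : ℝ) ^ a) ^ (γ / 2) := by
    calc Θ ^ Jh ≤ ((K : ℝ) ^ (a * γ / 2)) ^ Jh := pow_le_pow_left₀ (by linarith) hΘK Jh
      _ = (((K : ℝ) ^ a) ^ Jh) ^ (γ / 2) := by
        rw [← Real.rpow_natCast, ← Real.rpow_natCast, ← Real.rpow_mul hK0.le, ← Real.rpow_mul hK0.le, ← Real.rpow_mul hK0.le]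
        congr 1
        ring
      _ ≤ _ := Real.rpow_le_rpow (by positivity) (by rw [mul_comm (R / k)]; exact hJ2) (by positivity)
  have hkR0 : 0 < k * R := by positivity
  have c3 : EE μ s (T * K ^ J) ≤ D * k⁻¹ * (K : ℝ) ^ (1 - a) * R * EE μ s T * (k * R) ^ (-γ) := by
    rw [Real.rpow_neg hkR0.le, ← div_eq_mul_inv, le_div_iff₀ (by positivity), mul_comm]
    exact c1
  have c4 : (R / k * (K : ℝ) ^ a) ^ (γ / 2) * (k * R) ^ (-γ) = ((K : ℝ) ^ a / k) ^ (γ / 2) * k ^ (-γ) * (R ^ (γ / 2))⁻¹ := by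
    rw [show R / k * (K : ℝ) ^ a = R * ((K : ℝ) ^ a / k) by ring, Real.mul_rpow hR0.le (by positivity),
      Real.mul_rpow hk.le hR0.le]
    have h1 : R ^ (-γ) = (R ^ (γ / 2))⁻¹ * (R ^ (γ / 2))⁻¹ := by
      rw [← mul_inv, ← Real.rpow_add hR0, Real.rpow_neg hR0.le]
      congr 2
      ring
    rw [h1]
    have h2 : R ^ (γ / 2) ≠ 0 := (Real.rpow_pos_of_pos hR0 _).ne'
    field_simp
  calc A * Θ ^ Jh * EE μ s (T * K ^ J)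
      ≤ A * (R / k * (K : ℝ) ^ a) ^ (γ / 2) * (D * k⁻¹ * (K : ℝ) ^ (1 - a) * R * EE μ s T * (k * R) ^ (-γ)) :=
        mul_le_mul (mul_le_mul_of_nonneg_left c2 hA) c3 hEJ0.le (by positivity)
    _ = A * D * k⁻¹ * (K : ℝ) ^ (1 - a) * ((R / k * (K : ℝ) ^ a) ^ (γ / 2) * (k * R) ^ (-γ)) * (R * EE μ s T) := by ring
    _ = X * (R ^ (γ / 2))⁻¹ * (R * EE μ s T) := by
        rw [c4, hX]
        ring
    _ ≤ σ * (R * EE μ s T) := by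
        refine mul_le_mul_of_nonneg_right ?_ (by positivity)
        rw [← div_eq_mul_inv, div_le_iff₀ (by positivity)]
        rw [div_le_iff₀ hσ] at hRX
        linarith
    _ = _ := by ring

/-- **THE NUMBERS OF PR over the scales `T0 K ^ u`.** -/
theorem prJ41 (h : In μ s c C n₀) : ∃ η₀ : ℝ, 0 < η₀ ∧ ∃ n₁ : ℕ, 1 ≤ n₁ ∧ ∀ K : ℕ, 2 ≤ K → ∀ Θ : ℝ, 1 ≤ Θ → Θ ≤ (K : ℝ) ^ η₀ →
    ∀ A σ : ℝ, 0 ≤ A → 0 < σ → ∃ R₁ : ℝ, 1 ≤ R₁ ∧ ∀ R : ℝ, R₁ ≤ R → ∃ Jhi : ℕ, ∀ T0 : ℕ, n₁ ≤ T0 → ∃ J : ℕ → ℕ, ∀ u : ℕ,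
      1 ≤ J u ∧ J u ≤ Jhi ∧ R * wd μ s (Tk T0 K u) ≤ wd μ s (Tk T0 K (u + J u)) ∧
        A * Θ ^ Jhi * EE μ s (Tk T0 K (u + J u)) ≤ σ * R * EE μ s (Tk T0 K u) := by
  obtain ⟨η₀, hη, n₁, hn₁, H⟩ := prT41 h
  refine ⟨η₀, hη, n₁, hn₁, fun K hK Θ hΘ hΘK A σ hA hσ => ?_⟩
  obtain ⟨R₁, hR₁, H⟩ := H K hK Θ hΘ hΘK A σ hA hσ
  refine ⟨R₁, hR₁, fun R hR => ?_⟩
  obtain ⟨Jhi, H⟩ := H R hR
  refine ⟨Jhi, fun T0 hT0 => ?_⟩
  have hT : ∀ u, n₁ ≤ Tk T0 K u := fun u => hT0.trans (Nat.le_mul_of_pos_right _ (Nat.pow_pos (by omega)))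
  choose J hJ using fun u => H (Tk T0 K u) (hT u)
  have hTk : ∀ u, Tk T0 K u * K ^ J u = Tk T0 K (u + J u) := fun u => by
    show T0 * K ^ u * K ^ J u = T0 * K ^ (u + J u)
    rw [pow_add, mul_assoc]
  refine ⟨J, fun u => ?_⟩
  have h1 := hJ u
  rw [hTk u] at h1
  exact h1

/-- The constant of `prf99` with label levels of growth `t`. -/
theorem prq41 {C₉ q₀ Q4 t : ℝ} (hC : 0 ≤ C₉) (hq : 0 ≤ q₀) (hQ : 0 ≤ Q4) (ht : 1 ≤ t) :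
    C₉ * (1 + (1 + q₀ * t) ^ 2 + Q4 * t ^ 2) ^ 4 + 2 ≤ (C₉ * (1 + (1 + q₀) ^ 2 + Q4) ^ 4 + 2) * t ^ 8 := by
  have h1 : 1 + q₀ * t ≤ (1 + q₀) * t := by nlinarith
  have h2 : (1 + q₀ * t) ^ 2 ≤ (1 + q₀) ^ 2 * t ^ 2 := by
    rw [← mul_pow]
    exact pow_le_pow_left₀ (by positivity) h1 2
  have ht2 : 1 ≤ t ^ 2 := one_le_pow₀ ht
  have h3 : 1 + (1 + q₀ * t) ^ 2 + Q4 * t ^ 2 ≤ (1 + (1 + q₀) ^ 2 + Q4) * t ^ 2 := by nlinarith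
  have h4 : (1 + (1 + q₀ * t) ^ 2 + Q4 * t ^ 2) ^ 4 ≤ (1 + (1 + q₀) ^ 2 + Q4) ^ 4 * t ^ 8 := by
    calc _ ≤ ((1 + (1 + q₀) ^ 2 + Q4) * t ^ 2) ^ 4 := pow_le_pow_left₀ (by positivity) h3 4
      _ = _ := by ring
  have ht8 : 1 ≤ t ^ 8 := one_le_pow₀ ht
  nlinarith [mul_le_mul_of_nonneg_left h4 hC]

end

end Pool.Agent.W_7d29a1_C1.H41
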