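import Pool.Agent.W_7d29a1_C1.Prf99

/-!
MP_7d29a1_pr, [C1] attractor route, SEP: THE PROFILE IN THE UNIT OF A HIGH SCALE, BETWEEN TWO DIFFERENT LOW ROWS. (helper20; over `pshW99`,
`prf99` of helper99, whose letters are kept)

`prf99` compares two sites of ONE row; the set `OuT` (rows `ra - 1 .. re`) compares sites of different rows.
* `unit20`, `pow20`, `costW20` : the cost of the slabs of a tower (`Kt T v ≤ T (v + 1)`) with GROWING levels: `(1 + q v) ^ 2 ≤ Qm g ^ (t - v)`,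
  `2 g ≤ Kt ^ a` (`a` of `In` only): at most `D Qm` units of the last scale, `D` free of `g`, `Kt`, `Qm`, the number of the layers;
* `upS20`, `loS20` : the two halves of `pshW99`, through the anchor `y₀` of the top row;
* `Row20` : one low row `k` with its first slab and the layers above it; `slR20` : these are `Slabs`;
* **`prU20`** : `bh16 k x ≤ exp ((C₉ (1 + Qm + Q4) ^ 4 + (σ + 1) |lat (k, x)| / wd) E) bh16 (r (t + 1)) y₀`, all `x`;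
  **`prL20`** : `bh16 (r (t + 1)) y₀ ≤ exp (C₉ (1 + Qm) E) bh16 k x'`, `|lat (k, x')| ≤ R wd`;
* **`prf20`** : two rows `k`, `k'`.
-/

set_option autoImplicit false

namespace Pool.Agent.W_7d29a1_C1.PrT20

open MeasureTheory ProbabilityTheory Filter Topology Finset
open Pool.Agent.W_7d29a1_F Pool.Agent.W_7d29a1_h4g Pool.Agent.W_7d29a1_H Pool.Agent.W_7d29a1_HS
open Pool.Agent.W_7d29a1_C1.K91 (wt wt_pos)
open Pool.Agent.W_7d29a1_C1.K91P (bw bw_pos)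
open Pool.Agent.W_7d29a1_C1.H75 Pool.Agent.W_7d29a1_C1.U16
open Pool.Agent.W_7d29a1_C1.FarK89 Pool.Agent.W_7d29a1_C1.FarW89 Pool.Agent.W_7d29a1_C1.DD84 Pool.Agent.W_7d29a1_C1.SysN89
open Pool.Agent.W_7d29a1_C1.Own67 (gr_two)
open Pool.Agent.W_7d29a1_C1.Prf99 (slabs_cons99 len_cons99)

noncomputable section

variable {μ : Measure ℝ} {s : ℝ} [IsProbabilityMeasure μ] {c C : ℝ} {n₀ : ℕ}

/-! ### The cost of a tower with growing levels -/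

/-- One level of the scale `m` against the unit of the scale `n`, as a power of `n / m`; the exponent is free of `P`. -/
theorem unit20 (h : In μ s c C n₀) : ∃ (a : ℝ) (n₁ : ℕ), 0 < a ∧ 1 ≤ n₁ ∧ ∀ P : ℕ, ∃ D : ℝ, 1 ≤ D ∧ ∀ m n : ℕ, n₁ ≤ m → m ≤ n →
    wd μ s m ≤ wd μ s n → gr P (2 * wd μ s n / wd μ s m) * EE μ s m ≤ D * ((n : ℝ) / m) ^ (-a) * EE μ s n := by
  obtain ⟨a, n₂, ha, ha1, hn2, hE⟩ := Pool.Agent.W_7d29a1_HL.EE_pow h
  obtain ⟨K, aw, n₃, hK, haw, hn3, hw⟩ := wd_pow h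
  obtain ⟨K', hK'⟩ : ∃ K', K' = max K 1 := ⟨_, rfl⟩
  have hK1 : 1 ≤ K' := by rw [hK']; exact le_max_right _ _
  have hKK : K ≤ K' := by rw [hK']; exact le_max_left _ _
  have hL0 : 0 ≤ Real.log K' := Real.log_nonneg hK1
  have h30 : 0 ≤ Real.log 3 := Real.log_nonneg (by norm_num)
  refine ⟨a / 2, max n₂ n₃, by positivity, hn2.trans (le_max_left _ _), fun P => ?_⟩
  have hCP := CP_pos P
  obtain ⟨D₀, hD₀⟩ : ∃ D₀ : ℝ, D₀ = 2 * ((1 + Real.log K') ^ P * ((1 / a) ^ P * CP P)) := ⟨_, rfl⟩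
  have hD0 : 0 < D₀ := by rw [hD₀]; positivity
  have h31 : 1 ≤ (1 + Real.log 3) ^ P := one_le_pow₀ (by linarith)
  refine ⟨(1 + Real.log 3) ^ P * max 1 D₀, one_le_mul_of_one_le_of_one_le h31 (le_max_left _ _), fun m n hm hmn' hww => ?_⟩
  have g2 : n₂ ≤ m := (le_max_left _ _).trans hm
  have g3 : n₃ ≤ m := (le_max_right _ _).trans hm
  have hm1 : 1 ≤ m := hn2.trans g2
  have hm0 : (0 : ℝ) < m := by exact_mod_cast hm1
  have hwm := h.wd_pos hm1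
  have hwn := h.wd_pos (hm1.trans hmn')
  have hEm := EE_pos (μ := μ) (s := s) m
  have hEn := EE_pos (μ := μ) (s := s) n
  obtain ⟨x, hx⟩ : ∃ x : ℝ, x = (n : ℝ) / m := ⟨_, rfl⟩
  have hx1 : 1 ≤ x := by
    rw [hx, le_div_iff₀ hm0, one_mul]
    exact_mod_cast hmn'
  have hx0 : 0 < x := by linarith
  have hlx : 0 ≤ Real.log x := Real.log_nonneg hx1
  have e1 := hE m n g2 hmn'
  have e2 := hw m n g3 hmn'
  rw [← hx] at e1 e2 ⊢
  have hy1 : 1 ≤ wd μ s n / wd μ s m := by rwa [one_le_div hwm]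
  -- the growth
  have h1 : gr P (wd μ s n / wd μ s m - 1) ≤ (1 + Real.log K') ^ P * ((1 / a) ^ P * CP P) * x ^ (a / 2) := by
    have hy : wd μ s n / wd μ s m ≤ K' * x := by
      rw [div_le_iff₀ hwm]
      have h2 : x ^ (1 - aw) ≤ x := by
        calc x ^ (1 - aw) ≤ x ^ (1 : ℝ) := Real.rpow_le_rpow_of_exponent_le hx1 (by linarith)
          _ = x := Real.rpow_one _
      calc wd μ s n ≤ K * x ^ (1 - aw) * wd μ s m := e2
        _ ≤ K' * x * wd μ s m := mul_le_mul_of_nonneg_right (mul_le_mul hKK h2 (by positivity) (by linarith)) hwm.le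
    have h3 : Real.log (1 + (wd μ s n / wd μ s m - 1)) ≤ Real.log K' + Real.log x := by
      rw [add_sub_cancel, ← Real.log_mul (by linarith) hx0.ne']
      exact Real.log_le_log (by linarith) hy
    have h4 : 0 ≤ Real.log (1 + (wd μ s n / wd μ s m - 1)) := by
      rw [add_sub_cancel]
      exact Real.log_nonneg hy1
    have h5 : gr P (wd μ s n / wd μ s m - 1) ≤ ((1 + Real.log K') * (1 / a * (1 + a * Real.log x))) ^ P := by
      unfold gr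
      refine pow_le_pow_left₀ (by linarith) ?_ P
      have h6 : 1 + Real.log x ≤ 1 / a * (1 + a * Real.log x) := by
        have h7 : 1 / a * (1 + a * Real.log x) = 1 / a + Real.log x := by
          field_simp
        have h8 : 1 ≤ 1 / a := by
          rw [le_div_iff₀ ha]
          linarith
        rw [h7]
        linarith
      have h9 : 1 + Real.log (1 + (wd μ s n / wd μ s m - 1)) ≤ (1 + Real.log K') * (1 + Real.log x) := by
        nlinarith [mul_nonneg hL0 hlx]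
      exact h9.trans (mul_le_mul_of_nonneg_left h6 (by linarith))
    refine h5.trans ?_
    rw [mul_pow, mul_pow]
    have h6 : (1 + a * Real.log x) ^ P ≤ CP P * x ^ (a / 2) := by
      have h7 := log_pow_le P (Y := x ^ a) (Real.one_le_rpow hx1 ha.le)
      rw [Real.log_rpow hx0] at h7
      have h8 : Real.sqrt (x ^ a) = x ^ (a / 2) := by
        rw [Real.sqrt_eq_rpow, ← Real.rpow_mul hx0.le]
        congr 1
        ring
      rwa [h8] at h7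
    calc (1 + Real.log K') ^ P * ((1 / a) ^ P * (1 + a * Real.log x) ^ P) ≤
        (1 + Real.log K') ^ P * ((1 / a) ^ P * (CP P * x ^ (a / 2))) := by gcongr
      _ = _ := by ring
  -- the unit
  have h2 : EE μ s m ≤ 2 * x ^ (-a) * EE μ s n := by
    have h3 : x ^ (-a) * (x ^ a * EE μ s m) ≤ x ^ (-a) * (2 * EE μ s n) := mul_le_mul_of_nonneg_left e1 (by positivity)
    rw [← mul_assoc, ← Real.rpow_add hx0, neg_add_cancel, Real.rpow_zero, one_mul] at h3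
    linarith
  have h3 : x ^ (a / 2) * x ^ (-a) = x ^ (-(a / 2)) := by
    rw [← Real.rpow_add hx0]
    congr 1
    ring
  have h4 := gr_two P hy1
  rw [← mul_div_assoc] at h4
  have h5 : gr P (wd μ s n / wd μ s m - 1) * EE μ s m ≤ max 1 D₀ * x ^ (-(a / 2)) * EE μ s n := by
    calc gr P (wd μ s n / wd μ s m - 1) * EE μ s m ≤
        ((1 + Real.log K') ^ P * ((1 / a) ^ P * CP P) * x ^ (a / 2)) * (2 * x ^ (-a) * EE μ s n) :=
          mul_le_mul h1 h2 hEm.le (by positivity)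
      _ = D₀ * (x ^ (a / 2) * x ^ (-a)) * EE μ s n := by rw [hD₀]; ring
      _ = D₀ * x ^ (-(a / 2)) * EE μ s n := by rw [h3]
      _ ≤ _ := by
        refine mul_le_mul_of_nonneg_right ?_ hEn.le
        exact mul_le_mul_of_nonneg_right (le_max_right _ _) (by positivity)
  calc gr P (2 * wd μ s n / wd μ s m) * EE μ s m ≤ (1 + Real.log 3) ^ P * gr P (wd μ s n / wd μ s m - 1) * EE μ s m :=
        mul_le_mul_of_nonneg_right h4 hEm.le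
    _ = (1 + Real.log 3) ^ P * (gr P (wd μ s n / wd μ s m - 1) * EE μ s m) := by ring
    _ ≤ (1 + Real.log 3) ^ P * (max 1 D₀ * x ^ (-(a / 2)) * EE μ s n) := mul_le_mul_of_nonneg_left h5 (by positivity)
    _ = _ := by ring

/-- The growth of the levels against the growth of the scales. -/
theorem pow20 {a : ℝ} (ha : 0 < a) {Kt : ℕ} (hK : 1 ≤ Kt) {g : ℝ} (hg : 0 ≤ g) (h2 : 2 * g ≤ (Kt : ℝ) ^ a) {m n j : ℕ} (hm : 1 ≤ m)
    (hmn : Kt ^ j * m ≤ n) : ((n : ℝ) / m) ^ (-a) * g ^ j ≤ (1 / 2) ^ j := by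
  have hm0 : (0 : ℝ) < m := by exact_mod_cast hm
  have hK0 : (0 : ℝ) < Kt := by exact_mod_cast hK
  have h1 : (Kt : ℝ) ^ j ≤ (n : ℝ) / m := by
    rw [le_div_iff₀ hm0]
    exact_mod_cast hmn
  have hKa : 0 < (Kt : ℝ) ^ a := by positivity
  have h3 : ((n : ℝ) / m) ^ (-a) ≤ (((Kt : ℝ) ^ a) ^ j)⁻¹ := by
    refine (Real.rpow_le_rpow_of_nonpos (by positivity) h1 (by linarith)).trans (le_of_eq ?_)
    rw [Real.rpow_neg (by positivity), ← Real.rpow_natCast, ← Real.rpow_mul hK0.le, ← Real.rpow_natCast, ← Real.rpow_mul hK0.le, mul_comm (j : ℝ) a]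
  calc ((n : ℝ) / m) ^ (-a) * g ^ j ≤ (((Kt : ℝ) ^ a) ^ j)⁻¹ * g ^ j := mul_le_mul_of_nonneg_right h3 (by positivity)
    _ = (g / (Kt : ℝ) ^ a) ^ j := by rw [div_pow, div_eq_inv_mul]
    _ ≤ (1 / 2) ^ j := by
      refine pow_le_pow_left₀ (by positivity) ?_ j
      rw [div_le_iff₀ hKa]
      linarith

/-- The rows of a tower. -/
theorem grow20 {Kt : ℕ} {T : ℕ → ℕ} {a t : ℕ} (h : ∀ v, a ≤ v → v < t → Kt * T v ≤ T (v + 1)) :
    ∀ i u, a ≤ u → u + i = t → Kt ^ i * T u ≤ T t := by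
  intro i
  induction i with
  | zero =>
    intro u _ hut
    rw [add_zero] at hut
    rw [hut]
    simp
  | succ i ih =>
    intro u hu hut
    have h1 := ih (u + 1) (by omega) (by omega)
    have h4 := h u hu (by omega)
    calc Kt ^ (i + 1) * T u = Kt ^ i * (Kt * T u) := by ring
      _ ≤ Kt ^ i * T (u + 1) := Nat.mul_le_mul_left _ h4
      _ ≤ T t := h1

/-- **THE COST OF A TOWER WITH GROWING LEVELS**, and of one slab in front of it. -/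
theorem costW20 (h : In μ s c C n₀) : ∃ (a : ℝ) (K₀ : ℕ), 0 < a ∧ 2 ≤ K₀ ∧ ∀ P : ℕ, ∃ (D : ℝ) (n₁ : ℕ), 1 ≤ D ∧ 1 ≤ n₁ ∧
    ∀ {Kt : ℕ} {g : ℝ}, K₀ ≤ Kt → 1 ≤ g → 2 * g ≤ (Kt : ℝ) ^ a →
    ∀ {Qm : ℝ} {T : ℕ → ℕ} {q : ℕ → ℝ} {b t : ℕ}, 0 ≤ Qm → b ≤ t →
      (∀ v, b ≤ v → v ≤ t → n₁ ≤ T v) → (∀ v, b ≤ v → v < t → Kt * T v ≤ T (v + 1)) →
      (∀ v, b ≤ v → v ≤ t → (1 + q v) ^ 2 ≤ Qm * g ^ (t - v)) →
      (∀ v, b ≤ v → v ≤ t → T v ≤ T t) ∧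
      ∑ v ∈ Ico b (t + 1), (1 + q v) ^ 2 * gr (2 * P) (2 * wd μ s (T t) / wd μ s (T v)) * EE μ s (T v) ≤ D * Qm * EE μ s (T t) ∧
      ∀ {n' : ℕ} {q' : ℝ}, n₁ ≤ n' → n' ≤ T b → wd μ s n' ≤ wd μ s (T t) → (1 + q') ^ 2 ≤ Qm * g ^ (t - b) →
        (1 + q') ^ 2 * gr (2 * P) (2 * wd μ s (T t) / wd μ s n') * EE μ s n' ≤ D * Qm * EE μ s (T t) := by
  obtain ⟨K₀, n₃, hK₀, hn3, Hs⟩ := scale_num h
  obtain ⟨a, n₂, ha, hn2, H⟩ := unit20 h
  refine ⟨a, K₀, ha, hK₀, fun P => ?_⟩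
  obtain ⟨D, hD, H⟩ := H (2 * P)
  refine ⟨2 * D, max n₂ n₃, by linarith, hn2.trans (le_max_left _ _), ?_⟩
  intro Kt g hKt hg hgK Qm T q b t hQ0 hbt hT hTK hq
  have hEt := EE_pos (μ := μ) (s := s) (T t)
  have hKt1 : 1 ≤ Kt := by omega
  have grow := grow20 hTK
  have hmono : ∀ v, b ≤ v → v ≤ t → T v ≤ T t := fun v h1 h2 =>
    (Nat.le_mul_of_pos_left _ (Nat.pow_pos (by omega))).trans (grow (t - v) v h1 (by omega))
  have hwm : ∀ v, b ≤ v → v ≤ t → wd μ s (T v) ≤ wd μ s (T t) := by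
    intro v h1 h2
    rcases Nat.eq_or_lt_of_le h2 with h5 | h5
    · rw [h5]
    · refine (Hs (T v) (T t) ((le_max_right _ _).trans (hT v h1 h2)) ?_).1
      have h6 := grow (t - v) v h1 (by omega)
      refine le_trans ?_ h6
      rw [show t - v = (t - v - 1) + 1 by omega, pow_succ]
      calc K₀ * T v ≤ Kt * T v := Nat.mul_le_mul_right _ hKt
        _ = 1 * Kt * T v := by ring
        _ ≤ Kt ^ (t - v - 1) * Kt * T v := Nat.mul_le_mul_right _ (Nat.mul_le_mul_right _ (Nat.pow_pos (by omega)))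
  -- one term
  have term : ∀ {m j : ℕ} {q' : ℝ}, max n₂ n₃ ≤ m → Kt ^ j * m ≤ T t → wd μ s m ≤ wd μ s (T t) → (1 + q') ^ 2 ≤ Qm * g ^ j →
      (1 + q') ^ 2 * gr (2 * P) (2 * wd μ s (T t) / wd μ s m) * EE μ s m ≤ D * Qm * EE μ s (T t) * (1 / 2) ^ j := by
    intro m j q' hm hmn hww hq'
    have hm2 : n₂ ≤ m := (le_max_left _ _).trans hm
    have hmT : m ≤ T t := (Nat.le_mul_of_pos_left _ (Nat.pow_pos (by omega))).trans hmn
    have k2 := H m (T t) hm2 hmT hww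
    have hwm := h.wd_pos (hn2.trans hm2)
    have hwt := h.wd_pos (hn2.trans (hm2.trans hmT))
    have k5 : 0 ≤ gr (2 * P) (2 * wd μ s (T t) / wd μ s m) * EE μ s m :=
      mul_nonneg (gr_nonneg _ (by positivity)) (EE_pos (μ := μ) (s := s) m).le
    have k6 := pow20 ha hKt1 (by linarith) hgK (hn2.trans hm2) hmn
    calc _ = (1 + q') ^ 2 * (gr (2 * P) (2 * wd μ s (T t) / wd μ s m) * EE μ s m) := by ring
      _ ≤ (Qm * g ^ j) * (D * ((T t : ℝ) / m) ^ (-a) * EE μ s (T t)) := mul_le_mul hq' k2 k5 (by positivity)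
      _ = D * Qm * EE μ s (T t) * (((T t : ℝ) / m) ^ (-a) * g ^ j) := by ring
      _ ≤ _ := mul_le_mul_of_nonneg_left k6 (by positivity)
  refine ⟨hmono, ?_, ?_⟩
  · refine (sum_le_sum fun v hv => term (hT v (mem_Ico.1 hv).1 (by have := (mem_Ico.1 hv).2; omega)) (grow (t - v) v (mem_Ico.1 hv).1
      (by have := (mem_Ico.1 hv).2; omega)) (hwm v (mem_Ico.1 hv).1 (by have := (mem_Ico.1 hv).2; omega))
      (hq v (mem_Ico.1 hv).1 (by have := (mem_Ico.1 hv).2; omega))).trans ?_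
    rw [← mul_sum]
    have hsum : ∑ v ∈ Ico b (t + 1), (1 / 2 : ℝ) ^ (t - v) ≤ 2 := by
      have h6 := geo_sum (r := (1 / 2 : ℝ)) (by norm_num) (by norm_num) b (t - b)
      rw [show b + (t - b) = t by omega] at h6
      refine h6.trans (by norm_num)
    have h7 : 0 ≤ D * Qm * EE μ s (T t) := by positivity
    refine (mul_le_mul_of_nonneg_left hsum h7).trans (le_of_eq ?_)
    ring
  · intro n' q' hn' hnb hww hq'
    refine (term hn' ((Nat.mul_le_mul_left _ hnb).trans (grow (t - b) b le_rfl (by omega))) hww hq').trans ?_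
    have h7 : 0 ≤ D * Qm * EE μ s (T t) := by positivity
    have h8 : (1 / 2 : ℝ) ^ (t - b) ≤ 1 := pow_le_one₀ (by norm_num) (by norm_num)
    have h9 := mul_le_mul_of_nonneg_left h8 h7
    linarith

/-! ### The two halves of the push, over slabs -/

/-- The numbers of the upper half. -/
theorem up_num20 {M CPP Q Q4 δ Λ : ℝ} (hM : 0 < M) (hQ : 0 ≤ Q) (hQ4 : 0 ≤ Q4) (hδ : 0 < δ) (hδ1 : δ ≤ 1) (hΛ0 : 0 ≤ Λ)
    (hΛ : Λ ≤ M * (1 + Q) ^ 2) : 1 + (Λ * (δ / (Λ + 1) + CPP ^ 2 / (δ / (Λ + 1))) + Q + Q4) ≤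
      (5 + CPP ^ 2 * (1 + M) ^ 2) * (1 + Q + Q4) ^ 4 / δ := by
  have h1 := pshQ_num (CPP := CPP) (C₆ := 1) (gK := 1) hM one_pos le_rfl hQ hQ4 hδ hδ1 hΛ0 hΛ
  have h2 : 1 + (Λ * (δ / (Λ + 1) + CPP ^ 2 / (δ / (Λ + 1))) + Q + Q4) ≤
      1 + (Λ * (δ / (Λ + 1) + CPP ^ 2 / (δ / (Λ + 1))) + Q + Q4) + 1 * Q * 1 := by linarith
  refine h2.trans (h1.trans (le_of_eq ?_))
  ring

/-- **UP**: the mass of any site of the row `r a` against the mass of the anchor `y₀` of the row `r f`. -/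
theorem upS20 (h0 : In μ s c C n₀) (P : ℕ) : ∃ C₉ : ℝ, 0 < C₉ ∧ ∃ n₁ : ℕ, 1 ≤ n₁ ∧
    ∀ {Q Q4 σ δ : ℝ}, 0 ≤ Q → 0 ≤ Q4 → 0 ≤ σ → σ ≤ c / 8 → 0 < δ → δ ≤ 1 →
    ∀ {θ K h : ℝ} {η : Env} {p : ℕ → ℝ} {M N : ℕ} {κ : Pt} {r T Nr : ℕ → ℕ} {q : ℕ → ℝ} {bs : ℕ → Pt} {a f Tt : ℕ},
      (∀ k, k < M → p k = Real.exp (s + h)) → (∀ k, M ≤ k → p k = Real.exp s) →
      Slabs μ s c θ K h P η κ r T Nr q bs a f Tt n₁ Q → a ≤ f → r f ≤ N → (N : ℝ) + 1 ≤ Real.exp (EE μ s Tt) →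
      ∀ {y₀ : ℤ},
      (∀ y : ℤ, bh16 μ s h η p M N (r f) y ≤ Real.exp ((Q4 + σ * (|lt μ s κ r f y| / wd μ s Tt)) * EE μ s Tt) * bh16 μ s h η p M N (r f) y₀) →
      ∀ x : ℤ, bh16 μ s h η p M N (r a) x ≤
        Real.exp ((C₉ * (1 + Q + Q4) ^ 4 / δ + (σ + δ) * (|lt μ s κ r a x| / wd μ s Tt)) * EE μ s Tt) * bh16 μ s h η p M N (r f) y₀ := by
  obtain ⟨C₅, hC₅, n₂, hn₂, H2⟩ := far_up h0 P
  have hc0 := h0.c0
  obtain ⟨Mq, hMq, HM⟩ := LQ_poly (2 * P) (c := c / 8) (A := C₅) (by positivity) hC₅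
  have hCP := CP_pos (2 * P)
  refine ⟨5 + CP (2 * P) ^ 2 * (1 + Mq) ^ 2, by positivity, n₂, hn₂, ?_⟩
  intro Q Q4 σ δ hQ hQ4 hσ0 hσ hδ hδ1 θ K h η p M N κ r T Nr q bs a f Tt hp hp' hS haf hrN hN y₀ hG x
  have hpp : ∀ k, 0 < p k := fun k => by
    rcases lt_or_ge k M with h1 | h1
    · rw [hp k h1]; exact Real.exp_pos _
    · rw [hp' k h1]; exact Real.exp_pos _
  have S := sys_model16 (μ := μ) (s := s) (h := h) (η := η) (p := p) (M := M) (N := N) hpp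
  have hT1 : 1 ≤ Tt := hn₂.trans hS.Tt1
  have hw0 : 0 < wd μ s Tt := h0.wd_pos hT1
  have hE := EE_pos (μ := μ) (s := s) Tt
  have hraf : r a ≤ r f := by
    have := r_mono (r := r) (a := a) (b := f) hS.rr (f - a) a le_rfl (by omega)
    rwa [Nat.add_sub_cancel' haf] at this
  obtain ⟨ΛQ, hΛQ⟩ : ∃ ΛQ : ℝ, ΛQ = LQ (2 * P) (c / 8) (C₅ * Q) := ⟨_, rfl⟩
  have hΛ0 : 0 ≤ ΛQ := by rw [hΛQ]; exact LQ_nonneg _ (by positivity)
  have hΛM : ΛQ ≤ Mq * (1 + Q) ^ 2 := by rw [hΛQ]; exact HM Q hQ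
  obtain ⟨δ', hδ'⟩ : ∃ δ' : ℝ, δ' = δ / (ΛQ + 1) := ⟨_, rfl⟩
  have hδ'0 : 0 < δ' := by rw [hδ']; positivity
  obtain ⟨Cδ, hCδ⟩ : ∃ Cδ : ℝ, Cδ = δ' + CP (2 * P) ^ 2 / δ' := ⟨_, rfl⟩
  have hnum := up_num20 (M := Mq) (CPP := CP (2 * P)) (Q := Q) (Q4 := Q4) (δ := δ) (Λ := ΛQ) hMq hQ hQ4 hδ hδ1 hΛ0 hΛM
  rw [← hδ', ← hCδ] at hnum
  have hlw : hc μ s c Tt / 8 = c / 8 * (EE μ s Tt / wd μ s Tt) := by
    unfold hc
    ring
  have hew : 0 ≤ EE μ s Tt / wd μ s Tt := by positivity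
  have hσw : σ * (EE μ s Tt / wd μ s Tt) ≤ hc μ s c Tt / 8 := by
    rw [hlw]
    exact mul_le_mul_of_nonneg_right hσ hew
  have hG0 : ∀ y, 0 < bh16 μ s h η p M N (r f) y := fun y => S.b0 _ _ hrN
  -- one term
  have term : ∀ y : ℤ, nk μ s h η p M (r a) (r f - r a) x y * bh16 μ s h η p M N (r f) y ≤
      Real.exp ((ΛQ * Cδ + Q + Q4 + (σ + δ) * (|lt μ s κ r a x| / wd μ s Tt)) * EE μ s Tt) * bh16 μ s h η p M N (r f) y₀ := by
    intro y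
    have g1 := H2 haf hp hp' hS x y
    have e1 : ((y - x : ℤ) : ℝ) - sl μ s * ((r f - r a : ℕ) : ℝ) = lt μ s κ r f y - lt μ s κ r a x := (lt_sub κ r a f x y hraf).symm
    rw [e1, ← hΛQ] at g1
    have g2 := gr_lin (2 * P) hδ'0 (show 0 ≤ |lt μ s κ r a x| / wd μ s Tt by positivity)
    rw [← hCδ] at g2
    have g3 := mul_le_mul_of_nonneg_right (mul_le_mul_of_nonneg_left g2 hΛ0) hE.le
    have g5 : ΛQ * δ' ≤ δ := by
      rw [hδ', mul_div_assoc', div_le_iff₀ (by positivity), mul_comm δ]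
      exact mul_le_mul_of_nonneg_right (by linarith only) hδ.le
    have g6 : 0 ≤ |lt μ s κ r a x| / wd μ s Tt * EE μ s Tt := by positivity
    have g7 := mul_le_mul_of_nonneg_right g5 g6
    obtain ⟨d, hd⟩ : ∃ d : ℝ, d = |lt μ s κ r f y - lt μ s κ r a x| := ⟨_, rfl⟩
    rw [← hd] at g1
    have hd0 : 0 ≤ d := by rw [hd]; exact abs_nonneg _
    have htd : |lt μ s κ r f y| ≤ d + |lt μ s κ r a x| := by
      rw [hd]
      have := abs_add_le (lt μ s κ r f y - lt μ s κ r a x) (lt μ s κ r a x)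
      rwa [sub_add_cancel] at this
    have g8 := mul_le_mul_of_nonneg_left htd (show 0 ≤ σ * (EE μ s Tt / wd μ s Tt) by positivity)
    have g9 := mul_le_mul_of_nonneg_right hσw hd0
    calc nk μ s h η p M (r a) (r f - r a) x y * bh16 μ s h η p M N (r f) y ≤
        Real.exp ((ΛQ * gr (2 * P) (|lt μ s κ r a x| / wd μ s Tt) + Q) * EE μ s Tt - hc μ s c Tt / 8 * d) *
          (Real.exp ((Q4 + σ * (|lt μ s κ r f y| / wd μ s Tt)) * EE μ s Tt) * bh16 μ s h η p M N (r f) y₀) :=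
          mul_le_mul g1 (hG y) (hG0 y).le (Real.exp_pos _).le
      _ = Real.exp ((ΛQ * gr (2 * P) (|lt μ s κ r a x| / wd μ s Tt) + Q) * EE μ s Tt - hc μ s c Tt / 8 * d +
          (Q4 + σ * (|lt μ s κ r f y| / wd μ s Tt)) * EE μ s Tt) * bh16 μ s h η p M N (r f) y₀ := by
          rw [← mul_assoc, ← Real.exp_add]
      _ ≤ _ := by
        refine mul_le_mul_of_nonneg_right (Real.exp_le_exp.2 ?_) (hG0 y₀).le
        have e2 : σ * (|lt μ s κ r f y| / wd μ s Tt) * EE μ s Tt = σ * (EE μ s Tt / wd μ s Tt) * |lt μ s κ r f y| := by ring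
        have e3 : σ * (|lt μ s κ r a x| / wd μ s Tt) * EE μ s Tt = σ * (EE μ s Tt / wd μ s Tt) * |lt μ s κ r a x| := by ring
        have e4 : ΛQ * (δ' * (|lt μ s κ r a x| / wd μ s Tt) + Cδ) * EE μ s Tt = ΛQ * δ' * (|lt μ s κ r a x| / wd μ s Tt * EE μ s Tt) +
            ΛQ * Cδ * EE μ s Tt := by ring
        have e5 : (ΛQ * Cδ + Q + Q4 + (σ + δ) * (|lt μ s κ r a x| / wd μ s Tt)) * EE μ s Tt = ΛQ * Cδ * EE μ s Tt + Q * EE μ s Tt +
            Q4 * EE μ s Tt + σ * (|lt μ s κ r a x| / wd μ s Tt) * EE μ s Tt + δ * (|lt μ s κ r a x| / wd μ s Tt * EE μ s Tt) := by ring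
        rw [e5, add_mul, add_mul, e2, e3]
        linarith only [g3, g7, g8, g9, e4]
  have hcard : ((Icc x (x + ((r f - r a : ℕ) : ℤ))).card : ℝ) ≤ Real.exp (EE μ s Tt) := by
    refine le_trans ?_ hN
    rw [Int.card_Icc]
    have : (x + ((r f - r a : ℕ) : ℤ) + 1 - x).toNat ≤ N + 1 := by omega
    exact_mod_cast this
  have hstep : bh16 μ s h η p M N (r a) x = ∑ y ∈ Icc x (x + ((r f - r a : ℕ) : ℤ)), nk μ s h η p M (r a) (r f - r a) x y *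
      bh16 μ s h η p M N (r f) y := S.step (r a) (r f) x hraf hrN
  rw [hstep]
  refine (sum_le_sum fun y _ => term y).trans ?_
  rw [sum_const, nsmul_eq_mul, ← mul_assoc]
  refine mul_le_mul_of_nonneg_right ?_ (hG0 y₀).le
  refine (mul_le_mul_of_nonneg_right hcard (Real.exp_pos _).le).trans ?_
  rw [← Real.exp_add]
  refine Real.exp_le_exp.2 ?_
  have g10 := mul_le_mul_of_nonneg_right hnum hE.le
  have e6 : EE μ s Tt + (ΛQ * Cδ + Q + Q4 + (σ + δ) * (|lt μ s κ r a x| / wd μ s Tt)) * EE μ s Tt =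
      (1 + (ΛQ * Cδ + Q + Q4)) * EE μ s Tt + (σ + δ) * (|lt μ s κ r a x| / wd μ s Tt) * EE μ s Tt := by ring
  rw [e6]
  refine (add_le_add g10 le_rfl).trans (le_of_eq ?_)
  ring

/-- **LOW**: the mass of a site of the strip of the row `r a` against the mass of the anchor `y₀` of the row `r f`. -/
theorem loS20 (h0 : In μ s c C n₀) (P : ℕ) {K θ R : ℝ} (hK : 4 ≤ K) (hθ : 0 < θ) (hR : 0 ≤ R) : ∃ C₉ : ℝ, 0 < C₉ ∧ ∃ n₁ : ℕ, 1 ≤ n₁ ∧
    ∀ {Q : ℝ}, 0 ≤ Q →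
    ∀ {h : ℝ} {η : Env} {p : ℕ → ℝ} {M N : ℕ} {κ : Pt} {r T Nr : ℕ → ℕ} {q : ℕ → ℝ} {bs : ℕ → Pt} {a f Tt : ℕ},
      (∀ k, k < M → p k = Real.exp (s + h)) → (∀ k, M ≤ k → p k = Real.exp s) →
      Slabs μ s c θ K h P η κ r T Nr q bs a f Tt n₁ Q → a < f → (∀ u, a ≤ u → u < f → θ * T u ≤ ((r (u + 1) - r u : ℕ) : ℝ)) →
      r f ≤ N →
      ∀ {y₀ : ℤ}, |lt μ s κ r f y₀| + R * wd μ s Tt ≤ (K - 2) / 2 * wd μ s (T (f - 1)) - 1 →
      ∀ x' : ℤ, |lt μ s κ r a x'| ≤ R * wd μ s Tt →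
        bh16 μ s h η p M N (r f) y₀ ≤ Real.exp (C₉ * Q * EE μ s Tt) * bh16 μ s h η p M N (r a) x' := by
  obtain ⟨C₆, hC₆, n₃, hn₃, H3⟩ := far_low89 h0 P hK hθ
  obtain ⟨n₄, hn₄⟩ := eventually_atTop.1 ((wd_tendsto h0).eventually_ge_atTop 1)
  obtain ⟨gKK, hgKK⟩ : ∃ gKK : ℝ, gKK = gr (2 * P) (R + K) := ⟨_, rfl⟩
  have hgKK1 : 1 ≤ gKK := by rw [hgKK]; exact gr_one_le _ (by linarith)
  refine ⟨C₆ * gKK, by positivity, max n₃ n₄, hn₃.trans (le_max_left _ _), ?_⟩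
  intro Q hQ h η p M N κ r T Nr q bs a f Tt hp hp' hS haf hθr hrN y₀ hy₀ x' hx'
  have hpp : ∀ k, 0 < p k := fun k => by
    rcases lt_or_ge k M with h1 | h1
    · rw [hp k h1]; exact Real.exp_pos _
    · rw [hp' k h1]; exact Real.exp_pos _
  have S := sys_model16 (μ := μ) (s := s) (h := h) (η := η) (p := p) (M := M) (N := N) hpp
  have mono : Slabs μ s c θ K h P η κ r T Nr q bs a f Tt n₃ Q :=
    ⟨hS.q0, hS.K3, (le_max_left _ _).trans hS.Tt1, fun u h1 h2 => (le_max_left _ _).trans (hS.T1 u h1 h2), hS.TT, hS.NT, hS.rr, hS.b1, hS.b2,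
      hS.b3, hS.far, hS.cost, hS.force⟩
  have hT1 : 1 ≤ Tt := hn₃.trans ((le_max_left _ _).trans hS.Tt1)
  have hwa : 1 ≤ wd μ s (T a) := hn₄ _ ((le_max_right _ _).trans (hS.T1 a le_rfl haf))
  have hw0 : 0 < wd μ s Tt := h0.wd_pos hT1
  have hE := EE_pos (μ := μ) (s := s) Tt
  have hraf : r a ≤ r f := by
    have := r_mono (r := r) (a := a) (b := f) hS.rr (f - a) a le_rfl (by omega)
    rwa [Nat.add_sub_cancel' haf.le] at this
  have g0 := H3 haf hp hp' mono hθr (lt μ s κ r a x') x' y₀ (by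
    rw [sub_self, abs_zero]
    have : 1 * 1 ≤ (K - 2) / 2 * wd μ s (T a) := mul_le_mul (by linarith) hwa zero_le_one (by linarith)
    linarith) (by
    have := abs_sub (lt μ s κ r f y₀) (lt μ s κ r a x')
    linarith)
  have g1 : Real.exp (-(C₆ * gKK * Q * EE μ s Tt)) ≤ nk μ s h η p M (r a) (r f - r a) x' y₀ := by
    refine le_trans (Real.exp_le_exp.2 ?_) g0
    have hx1 : |lt μ s κ r a x'| / wd μ s Tt ≤ R := by
      rw [div_le_iff₀ hw0]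
      exact hx'
    have hx2 : 0 ≤ |lt μ s κ r a x'| / wd μ s Tt := by positivity
    have g2 : gr (2 * P) (|lt μ s κ r a x'| / wd μ s Tt + K) ≤ gKK := by
      rw [hgKK]
      exact gr_mono _ (by linarith) (by linarith)
    have g3 := mul_le_mul_of_nonneg_right (mul_le_mul_of_nonneg_left g2 (show 0 ≤ C₆ * Q by positivity)) hE.le
    linarith
  have hmem : y₀ ∈ Icc x' (x' + ((r f - r a : ℕ) : ℤ)) := by
    by_contra hcon
    rw [mem_Icc] at hcon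
    rw [nk_eq_zero _ _ hcon] at g1
    exact absurd g1 (not_le.2 (Real.exp_pos _))
  have hG0 : ∀ y, 0 < bh16 μ s h η p M N (r f) y := fun y => S.b0 _ _ hrN
  have hstep : bh16 μ s h η p M N (r a) x' = ∑ y ∈ Icc x' (x' + ((r f - r a : ℕ) : ℤ)), nk μ s h η p M (r a) (r f - r a) x' y *
      bh16 μ s h η p M N (r f) y := S.step (r a) (r f) x' hraf hrN
  have h1 : nk μ s h η p M (r a) (r f - r a) x' y₀ * bh16 μ s h η p M N (r f) y₀ ≤ bh16 μ s h η p M N (r a) x' := by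
    rw [hstep]
    exact single_le_sum (f := fun y => nk μ s h η p M (r a) (r f - r a) x' y * bh16 μ s h η p M N (r f) y)
      (fun y _ => mul_nonneg (nk_nonneg hpp _ _ _ _) (hG0 y).le) hmem
  have h2 := (mul_le_mul_of_nonneg_right g1 (hG0 y₀).le).trans h1
  calc bh16 μ s h η p M N (r f) y₀ = Real.exp (C₆ * gKK * Q * EE μ s Tt) * (Real.exp (-(C₆ * gKK * Q * EE μ s Tt)) *
        bh16 μ s h η p M N (r f) y₀) := by rw [← mul_assoc, ← Real.exp_add, add_neg_cancel, Real.exp_zero, one_mul]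
    _ ≤ _ := mul_le_mul_of_nonneg_left h2 (Real.exp_pos _).le

/-! ### The low row with its first slab -/

/-- **A LOW ROW `k`**: the first slab from the row `k` to the row `r (a + 1)` at the height `n'`, and the layers `a + 1 .. t` with levels
`(1 + q v) ^ 2 ≤ Qm g ^ (t - v)`. -/
structure Row20 (μ : Measure ℝ) (s c θ K h : ℝ) (P : ℕ) (η : Env) (κ : Pt) (r T Nr : ℕ → ℕ) (q : ℕ → ℝ) (bs : ℕ → Pt) (Kt : ℕ) (g Qm : ℝ)
    (n₁ a t k n' N' : ℕ) (q' : ℝ) (b' : Pt) : Prop where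
  lay : Lay89 μ s c θ K h P η κ r T Nr q bs (a + 1) (t + 1) n₁
  hat : a + 1 ≤ t
  gro : ∀ v, a + 1 ≤ v → v < t → Kt * T v ≤ T (v + 1)
  lev : ∀ v, a + 1 ≤ v → v ≤ t → (1 + q v) ^ 2 ≤ Qm * g ^ (t - v)
  n1 : n₁ ≤ n'
  n2 : n' ≤ T (a + 1)
  nw : wd μ s n' ≤ wd μ s (T t)
  N1 : N' ≤ n'
  q0 : 0 ≤ q'
  q1 : (1 + q') ^ 2 ≤ Qm * g ^ (t - (a + 1))
  k1 : k ≤ r (a + 1)
  b1 : b'.1 ≤ k
  b2 : (r (a + 1) : ℤ) ≤ b'.1 + N'
  b3 : |lat16 μ s κ b'| ≤ wd μ s n'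
  far : η ∈ Far16 μ s c θ K n' N' P b' q'
  len : θ * n' ≤ ((r (a + 1) - k : ℕ) : ℝ)

/-- **The low row and the layers are `Slabs`** in the unit of the last layer. -/
theorem slR20 (h0 : In μ s c C n₀) : ∃ (e : ℝ) (K₀ : ℕ), 0 < e ∧ 2 ≤ K₀ ∧ ∀ P : ℕ, ∃ (D : ℝ) (n₁ : ℕ), 1 ≤ D ∧ 1 ≤ n₁ ∧
    ∀ {Kt : ℕ} {g : ℝ}, K₀ ≤ Kt → 1 ≤ g → 2 * g ≤ (Kt : ℝ) ^ e →
    ∀ {θ K h Qm : ℝ} {η : Env} {κ : Pt} {r T Nr : ℕ → ℕ} {q : ℕ → ℝ} {bs : ℕ → Pt} {n₂ a t k n' N' : ℕ} {q' : ℝ} {b' : Pt},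
      3 ≤ K → n₁ ≤ n₂ → 0 ≤ Qm → Row20 μ s c θ K h P η κ r T Nr q bs Kt g Qm n₂ a t k n' N' q' b' → |h| * wd μ s (T t) ≤ c / 8 * EE μ s (T t) →
      Slabs μ s c θ K h P η κ (Function.update r a k) (Function.update T a n') (Function.update Nr a N') (Function.update q a q')
        (Function.update bs a b') a (t + 1) (T t) n₂ (D * Qm) ∧
      ∀ u, a ≤ u → u < t + 1 → θ * (Function.update T a n' u : ℕ) ≤ ((Function.update r a k (u + 1) - Function.update r a k u : ℕ) : ℝ) := by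
  obtain ⟨e, K₀, he, hK₀, H⟩ := costW20 h0
  refine ⟨e, K₀, he, hK₀, fun P => ?_⟩
  obtain ⟨D, n₁, hD, hn₁, H⟩ := H P
  refine ⟨2 * D, n₁, by linarith, hn₁, ?_⟩
  intro Kt g hKt hg hgK θ K h Qm η κ r T Nr q bs n₂ a t k n' N' q' b' hK hn hQm hR hh
  have hT1 : ∀ v, a + 1 ≤ v → v ≤ t → n₂ ≤ T v := fun v h1 h2 => hR.lay.T1 v h1 (by omega)
  obtain ⟨hmono, hsum, hone⟩ := H hKt hg hgK (Qm := Qm) (T := T) (q := q) (b := a + 1) (t := t) hQm hR.hat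
    (fun v h1 h2 => hn.trans (hT1 v h1 h2)) hR.gro hR.lev
  have h1 := hone (hn.trans hR.n1) hR.n2 hR.nw hR.q1
  have hL : Slabs μ s c θ K h P η κ r T Nr q bs (a + 1) (t + 1) (T t) n₂ (D * Qm) :=
    ⟨fun v h1 h2 => hR.lay.q0 v h1 h2, hK, hT1 t hR.hat le_rfl, fun v h1 h2 => hR.lay.T1 v h1 h2, fun v h1 h2 => hmono v h1 (by omega),
      fun v h1 h2 => hR.lay.NT v h1 h2, fun v h1 h2 => hR.lay.rr v h1 h2, fun v h1 h2 => hR.lay.b1 v h1 h2, fun v h1 h2 => hR.lay.b2 v h1 h2,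
      fun v h1 h2 => hR.lay.b3 v h1 h2, fun v h1 h2 => hR.lay.far v h1 h2, hsum, hh⟩
  have hS := slabs_cons99 hL (by have := hR.hat; omega) (k := k) (n' := n') (N' := N') (q' := q') (b' := b') (Q₁ := D * Qm) hR.q0 hR.n1
    (hR.n2.trans (hmono (a + 1) le_rfl hR.hat)) hR.N1 hR.k1 hR.b1 hR.b2 hR.b3 hR.far h1
  rw [show D * Qm + D * Qm = 2 * D * Qm by ring] at hS
  exact ⟨hS, len_cons99 (fun u h1 h2 => hR.lay.len u h1 h2) hR.len⟩

/-- **THE TWO HALVES OF THE PROFILE**, from low rows with their first slabs, against one anchor of the row `r (t + 1)`. -/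
theorem prH20 (h0 : In μ s c C n₀) : ∃ (e : ℝ) (K₀ : ℕ), 0 < e ∧ 2 ≤ K₀ ∧ ∀ P : ℕ, ∀ {K θ R : ℝ}, 4 ≤ K → 0 < θ → 0 ≤ R → 2 * R + 4 ≤ K →
    ∃ (C₉ : ℝ) (n₁ : ℕ), 1 ≤ C₉ ∧ 1 ≤ n₁ ∧
    ∀ {Kt : ℕ} {g : ℝ}, K₀ ≤ Kt → 1 ≤ g → 2 * g ≤ (Kt : ℝ) ^ e →
    ∀ {Qm Q4 σ : ℝ}, 0 ≤ Qm → 0 ≤ Q4 → 0 ≤ σ → σ ≤ c / 8 →
    ∀ {h : ℝ} {η : Env} {p : ℕ → ℝ} {M N : ℕ} {κ : Pt} {r T Nr : ℕ → ℕ} {q : ℕ → ℝ} {bs : ℕ → Pt} {t : ℕ},
      (∀ k, k < M → p k = Real.exp (s + h)) → (∀ k, M ≤ k → p k = Real.exp s) → |h| * wd μ s (T t) ≤ c / 8 * EE μ s (T t) →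
      r (t + 1) ≤ N → (N : ℝ) + 1 ≤ Real.exp (EE μ s (T t)) →
      ∀ {y₀ : ℤ}, |lt μ s κ r (t + 1) y₀| ≤ wd μ s (T t) - 1 →
      (∀ y : ℤ, bh16 μ s h η p M N (r (t + 1)) y ≤ Real.exp ((Q4 + σ * (|lt μ s κ r (t + 1) y| / wd μ s (T t))) * EE μ s (T t)) *
        bh16 μ s h η p M N (r (t + 1)) y₀) →
      ∀ {a k n' N' : ℕ} {q' : ℝ} {b' : Pt}, Row20 μ s c θ K h P η κ r T Nr q bs Kt g Qm n₁ a t k n' N' q' b' →
        (∀ x : ℤ, bh16 μ s h η p M N k x ≤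
          Real.exp ((C₉ * (1 + Qm + Q4) ^ 4 + (σ + 1) * (|lat16 μ s κ ((k : ℤ), x)| / wd μ s (T t))) * EE μ s (T t)) *
            bh16 μ s h η p M N (r (t + 1)) y₀) ∧
        (∀ x' : ℤ, |lat16 μ s κ ((k : ℤ), x')| ≤ R * wd μ s (T t) →
          bh16 μ s h η p M N (r (t + 1)) y₀ ≤ Real.exp (C₉ * (1 + Qm) * EE μ s (T t)) * bh16 μ s h η p M N k x') := by
  obtain ⟨e, K₀, he, hK₀, HR⟩ := slR20 h0
  refine ⟨e, K₀, he, hK₀, fun P {K θ R} hK hθ hR hRK => ?_⟩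
  obtain ⟨D, n₂, hD, hn₂, HR⟩ := HR P
  obtain ⟨C₉, hC₉, n₃, hn₃, HU⟩ := upS20 h0 P
  obtain ⟨C₈, hC₈, n₄, hn₄, HL⟩ := loS20 h0 P hK hθ hR
  refine ⟨C₉ * D ^ 4 + C₈ * D + 1, max n₂ (max n₃ n₄), le_add_of_nonneg_left (by positivity), hn₂.trans (le_max_left _ _), ?_⟩
  intro Kt g hKt hg hgK Qm Q4 σ hQm hQ4 hσ0 hσ h η p M N κ r T Nr q bs t hp hp' hh hrN hN y₀ hy₀ hG a k n' N' q' b' hrow
  have hc0 := h0.c0
  have hEt := EE_pos (μ := μ) (s := s) (T t)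
  obtain ⟨hS, hlen⟩ := HR hKt hg hgK (by linarith) (le_max_left _ _) hQm hrow hh
  have hat := hrow.hat
  have er1 : Function.update r a k (t + 1) = r (t + 1) := Function.update_of_ne (by omega) _ _
  have era : Function.update r a k a = k := Function.update_self _ _ _
  have eTt : Function.update T a n' t = T t := Function.update_of_ne (by omega) _ _
  have elt : ∀ y, lt μ s κ (Function.update r a k) (t + 1) y = lt μ s κ r (t + 1) y := fun y => by unfold lt; rw [er1]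
  have ela : ∀ y, lt μ s κ (Function.update r a k) a y = lat16 μ s κ ((k : ℤ), y) := fun y => by unfold lt; rw [era]
  have mono : ∀ {m' : ℕ}, m' ≤ max n₂ (max n₃ n₄) → Slabs μ s c θ K h P η κ (Function.update r a k) (Function.update T a n')
      (Function.update Nr a N') (Function.update q a q') (Function.update bs a b') a (t + 1) (T t) m' (D * Qm) := fun hm =>
    ⟨hS.q0, hS.K3, hm.trans hS.Tt1, fun u h1 h2 => hm.trans (hS.T1 u h1 h2), hS.TT, hS.NT, hS.rr, hS.b1, hS.b2, hS.b3, hS.far, hS.cost, hS.force⟩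
  have hwt := h0.wd_pos (hn₂.trans ((le_max_left _ _).trans hS.Tt1))
  have hC1 : (0 : ℝ) ≤ C₉ * D ^ 4 := by positivity
  have hC2 : (0 : ℝ) ≤ C₈ * D := by positivity
  constructor
  · intro x
    have key := HU (Q := D * Qm) (Q4 := Q4) (σ := σ) (δ := 1) (by positivity) hQ4 hσ0 hσ one_pos le_rfl hp hp'
      (mono ((le_max_left _ _).trans (le_max_right _ _))) (by omega) (by rw [er1]; exact hrN) hN (y₀ := y₀) (fun y => by
        rw [er1, elt]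
        exact hG y) x
    rw [era, ela, er1] at key
    refine key.trans (mul_le_mul_of_nonneg_right (Real.exp_le_exp.2 (mul_le_mul_of_nonneg_right (add_le_add ?_ le_rfl) hEt.le)) ?_)
    · rw [div_one]
      have h1 : 1 + D * Qm + Q4 ≤ D * (1 + Qm + Q4) := by nlinarith
      have h2 : (1 + D * Qm + Q4) ^ 4 ≤ D ^ 4 * (1 + Qm + Q4) ^ 4 := by
        rw [← mul_pow]
        exact pow_le_pow_left₀ (by positivity) h1 4
      have h3 : 0 ≤ (1 + Qm + Q4) ^ 4 := by positivity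
      have h4 := mul_le_mul_of_nonneg_left h2 hC₉.le
      have h5 := mul_nonneg (add_nonneg hC2 zero_le_one) h3
      calc C₉ * (1 + D * Qm + Q4) ^ 4 ≤ C₉ * (D ^ 4 * (1 + Qm + Q4) ^ 4) := h4
        _ ≤ C₉ * (D ^ 4 * (1 + Qm + Q4) ^ 4) + (C₈ * D + 1) * (1 + Qm + Q4) ^ 4 := le_add_of_nonneg_right h5
        _ = _ := by ring
    · have hpp : ∀ k, 0 < p k := fun k => by
        rcases lt_or_ge k M with h1 | h1
        · rw [hp k h1]; exact Real.exp_pos _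
        · rw [hp' k h1]; exact Real.exp_pos _
      exact (bh16_pos hpp _ _).le
  · intro x' hx'
    have key := HL (Q := D * Qm) (N := N) (by positivity) hp hp' (mono ((le_max_right _ _).trans (le_max_right _ _))) (by omega) hlen
      (by rw [er1]; exact hrN) (y₀ := y₀) (by
        rw [elt, show t + 1 - 1 = t by omega, eTt]
        have h1 : (R + 1) * wd μ s (T t) ≤ (K - 2) / 2 * wd μ s (T t) := mul_le_mul_of_nonneg_right (by linarith) hwt.le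
        linarith) x' (by
        rw [ela]
        exact hx')
    rw [era, er1] at key
    refine key.trans (mul_le_mul_of_nonneg_right (Real.exp_le_exp.2 (mul_le_mul_of_nonneg_right ?_ hEt.le)) ?_)
    · have h5 : 0 ≤ (C₉ * D ^ 4 + 1) * (1 + Qm) + C₈ * D := by positivity
      calc C₈ * (D * Qm) ≤ C₈ * (D * Qm) + ((C₉ * D ^ 4 + 1) * (1 + Qm) + C₈ * D) := le_add_of_nonneg_right h5
        _ = _ := by ring
    · have hpp : ∀ k, 0 < p k := fun k => by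
        rcases lt_or_ge k M with h1 | h1
        · rw [hp k h1]; exact Real.exp_pos _
        · rw [hp' k h1]; exact Real.exp_pos _
      exact (bh16_pos hpp _ _).le

/-- **THE PROFILE BETWEEN TWO LOW ROWS `k`, `k'`, IN THE UNIT OF A HIGH SCALE.** -/
theorem prf20 (h0 : In μ s c C n₀) : ∃ (e : ℝ) (K₀ : ℕ), 0 < e ∧ 2 ≤ K₀ ∧ ∀ P : ℕ, ∀ {K θ R : ℝ}, 4 ≤ K → 0 < θ → 0 ≤ R → 2 * R + 4 ≤ K →
    ∃ (C₉ : ℝ) (n₁ : ℕ), 1 ≤ C₉ ∧ 1 ≤ n₁ ∧
    ∀ {Kt : ℕ} {g : ℝ}, K₀ ≤ Kt → 1 ≤ g → 2 * g ≤ (Kt : ℝ) ^ e →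
    ∀ {Qm Q4 σ : ℝ}, 0 ≤ Qm → 0 ≤ Q4 → 0 ≤ σ → σ ≤ c / 8 →
    ∀ {h : ℝ} {η : Env} {p : ℕ → ℝ} {M N : ℕ} {κ : Pt} {r T Nr : ℕ → ℕ} {q : ℕ → ℝ} {bs : ℕ → Pt} {t : ℕ},
      (∀ k, k < M → p k = Real.exp (s + h)) → (∀ k, M ≤ k → p k = Real.exp s) → |h| * wd μ s (T t) ≤ c / 8 * EE μ s (T t) →
      r (t + 1) ≤ N → (N : ℝ) + 1 ≤ Real.exp (EE μ s (T t)) →
      ∀ {y₀ : ℤ}, |lt μ s κ r (t + 1) y₀| ≤ wd μ s (T t) - 1 →
      (∀ y : ℤ, bh16 μ s h η p M N (r (t + 1)) y ≤ Real.exp ((Q4 + σ * (|lt μ s κ r (t + 1) y| / wd μ s (T t))) * EE μ s (T t)) *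
        bh16 μ s h η p M N (r (t + 1)) y₀) →
      ∀ {a k n' N' : ℕ} {q' : ℝ} {b' : Pt} {a₁ k₁ n₁' N₁' : ℕ} {q₁' : ℝ} {b₁' : Pt},
        Row20 μ s c θ K h P η κ r T Nr q bs Kt g Qm n₁ a t k n' N' q' b' →
        Row20 μ s c θ K h P η κ r T Nr q bs Kt g Qm n₁ a₁ t k₁ n₁' N₁' q₁' b₁' →
        ∀ x x' : ℤ, |lat16 μ s κ ((k₁ : ℤ), x')| ≤ R * wd μ s (T t) →
          bh16 μ s h η p M N k x ≤
            Real.exp ((C₉ * (1 + Qm + Q4) ^ 4 + (σ + 1) * (|lat16 μ s κ ((k : ℤ), x)| / wd μ s (T t))) * EE μ s (T t)) *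
              bh16 μ s h η p M N k₁ x' := by
  obtain ⟨e, K₀, he, hK₀, H⟩ := prH20 h0
  refine ⟨e, K₀, he, hK₀, fun P {K θ R} hK hθ hR hRK => ?_⟩
  obtain ⟨C₉, n₁, hC₉, hn₁, H⟩ := H P hK hθ hR hRK
  refine ⟨2 * C₉, n₁, by linarith, hn₁, ?_⟩
  intro Kt g hKt hg hgK Qm Q4 σ hQm hQ4 hσ0 hσ h η p M N κ r T Nr q bs t hp hp' hh hrN hN y₀ hy₀ hG a k n' N' q' b' a₁ k₁ n₁' N₁' q₁' b₁' h1 h2
    x x' hx'
  have g1 := (H hKt hg hgK hQm hQ4 hσ0 hσ hp hp' hh hrN hN hy₀ hG h1).1 x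
  have g2 := (H hKt hg hgK hQm hQ4 hσ0 hσ hp hp' hh hrN hN hy₀ hG h2).2 x' hx'
  have hpp : ∀ k, 0 < p k := fun k => by
    rcases lt_or_ge k M with h1 | h1
    · rw [hp k h1]; exact Real.exp_pos _
    · rw [hp' k h1]; exact Real.exp_pos _
  have hEt := EE_pos (μ := μ) (s := s) (T t)
  have hb := (bh16_pos (μ := μ) (s := s) (h := h) (η := η) (M := M) (N := N) hpp k₁ x').le
  refine g1.trans ((mul_le_mul_of_nonneg_left g2 (Real.exp_pos _).le).trans ?_)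
  rw [← mul_assoc, ← Real.exp_add]
  refine mul_le_mul_of_nonneg_right (Real.exp_le_exp.2 ?_) hb
  have h3 : 1 + Qm ≤ (1 + Qm + Q4) ^ 4 := by
    have h4 : 1 + Qm + Q4 ≤ (1 + Qm + Q4) ^ 4 := le_self_pow₀ (by linarith) (by norm_num)
    linarith
  have h5 := mul_le_mul_of_nonneg_right (mul_le_mul_of_nonneg_left h3 (by linarith : (0 : ℝ) ≤ C₉)) hEt.le
  calc _ ≤ (C₉ * (1 + Qm + Q4) ^ 4 + (σ + 1) * (|lat16 μ s κ ((k : ℤ), x)| / wd μ s (T t))) * EE μ s (T t) +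
        C₉ * (1 + Qm + Q4) ^ 4 * EE μ s (T t) := add_le_add le_rfl h5
    _ = _ := by ring

end

end Pool.Agent.W_7d29a1_C1.PrT20
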