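import Pool.Agent.W_7d29a1_C1.ArrM56
import Pool.Agent.W_7d29a1_C1.ArrP89

/-!
[C1] MEET_d (row 683), monotone families (helper56): the weights of the end position in MLR order. `MLR g g'`: the ratio `g' / g` is non
decreasing. `Zt_mlr`: the order is kept by the masses at every row. `prb_le_of`: the transition probabilities are ordered. `pt`: the
running maximum of the transition probabilities of a family; it is monotone in the index and gives the same polymers (`PX_pt`), also when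
the weights vanish (fixed ends). `arr_fam`: inequality (A) for the quenched polymers with end weights in MLR order.
-/

set_option autoImplicit false

namespace Pool.Agent.W_7d29a1_C1.ArrM56

open Finset MeasureTheory Pool.Agent.W_7d29a1_F Pool.Agent.W_7d29a1_X
open Pool.Agent.W_7d29a1_C1.Arr89
open Pool.Agent.W_7d29a1_C1.Arr35 (Tube pQ)

noncomputable section

/-- The ratio `g' / g` is non decreasing. -/
def MLR (g g' : ℤ → ℝ) : Prop := ∀ z z' : ℤ, z ≤ z' → g z' * g' z ≤ g z * g' z'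

theorem MLR.refl (g : ℤ → ℝ) : MLR g g := fun _ _ _ => le_of_eq (mul_comm _ _)

/-- Fixed ends. -/
theorem MLR_single {a b : ℤ} (h : a ≤ b) : MLR (fun z => if z = a then 1 else 0) (fun z => if z = b then 1 else 0) := by
  intro z z' hz
  simp only
  by_cases h1 : z' = a
  · by_cases h2 : z = b
    · have h3 : z = z' := by omega
      rw [h3]
    · rw [if_neg h2, mul_zero]
      split_ifs <;> norm_num
  · rw [if_neg h1, zero_mul]
    split_ifs <;> norm_num

variable {μ : Measure ℝ} {s : ℝ}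

/-- **The order is kept by the masses.** -/
theorem Zt_mlr {η : Env} {g g' : ℤ → ℝ} (hg : ∀ y, 0 ≤ g y) (hg' : ∀ y, 0 ≤ g' y) (h : MLR g g') :
    ∀ (m k : ℕ), MLR (Zt μ s η g m k) (Zt μ s η g' m k)
  | 0, _ => h
  | m + 1, k => by
    intro y y' hy
    rcases hy.eq_or_lt with h1 | h1
    · rw [h1]
    have ih := Zt_mlr (η := η) hg hg' h m (k + 1)
    -- the masses with the weight of the site
    obtain ⟨a, ha⟩ : ∃ a : ℤ → ℝ, ∀ z, a z = Real.exp (η ((k : ℤ) + 1, z)) * Zt μ s η g m (k + 1) z := ⟨_, fun _ => rfl⟩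
    obtain ⟨b, hb⟩ : ∃ b : ℤ → ℝ, ∀ z, b z = Real.exp (η ((k : ℤ) + 1, z)) * Zt μ s η g' m (k + 1) z := ⟨_, fun _ => rfl⟩
    have hab : ∀ z z', z ≤ z' → a z' * b z ≤ a z * b z' := by
      intro z z' hz
      have h2 := ih z z' hz
      have h3 : 0 ≤ Real.exp (η ((k : ℤ) + 1, z)) * Real.exp (η ((k : ℤ) + 1, z')) := by positivity
      have h4 := mul_le_mul_of_nonneg_left h2 h3
      rw [ha, ha, hb, hb]
      calc _ = _ := by ring
        _ ≤ _ := h4
        _ = _ := by ring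
    have e1 : ∀ z, Zt μ s η g (m + 1) k z = Real.exp (-lam μ s) * (a z + Real.exp s * a (z + 1)) := by
      intro z
      rw [ha, ha]
      show Real.exp (-lam μ s) * (Real.exp (η ((k : ℤ) + 1, z)) * Zt μ s η g m (k + 1) z +
        Real.exp s * Real.exp (η ((k : ℤ) + 1, z + 1)) * Zt μ s η g m (k + 1) (z + 1)) = _
      ring
    have e2 : ∀ z, Zt μ s η g' (m + 1) k z = Real.exp (-lam μ s) * (b z + Real.exp s * b (z + 1)) := by
      intro z
      rw [hb, hb]
      show Real.exp (-lam μ s) * (Real.exp (η ((k : ℤ) + 1, z)) * Zt μ s η g' m (k + 1) z +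
        Real.exp s * Real.exp (η ((k : ℤ) + 1, z + 1)) * Zt μ s η g' m (k + 1) (z + 1)) = _
      ring
    rw [e1, e1, e2, e2]
    have c1 := hab y y' hy
    have c2 := hab (y + 1) (y' + 1) (by omega)
    have c3 := hab y (y' + 1) (by omega)
    have c4 := hab (y + 1) y' (by omega)
    have p := (Real.exp_pos s).le
    have l := Real.exp_pos (-lam μ s)
    have c5 : (a y' + Real.exp s * a (y' + 1)) * (b y + Real.exp s * b (y + 1)) ≤
        (a y + Real.exp s * a (y + 1)) * (b y' + Real.exp s * b (y' + 1)) := by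
      have d2 := mul_le_mul_of_nonneg_left c2 (mul_nonneg p p)
      have d3 := mul_le_mul_of_nonneg_left c3 p
      have d4 := mul_le_mul_of_nonneg_left c4 p
      nlinarith [c1, d2, d3, d4]
    have c6 := mul_le_mul_of_nonneg_left c5 (mul_nonneg l.le l.le)
    calc _ = _ := by ring
      _ ≤ _ := c6
      _ = _ := by ring

/-- **The transition probabilities are ordered.** -/
theorem prb_le_of {η : Env} {g g' : ℤ → ℝ} (hg : ∀ y, 0 ≤ g y) (hg' : ∀ y, 0 ≤ g' y) (h : MLR g g') {T k : ℕ} {y : ℤ}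
    (hZ : Zt μ s η g' (T - k) k y ≠ 0) : prb μ s η g T k y ≤ prb μ s η g' T k y := by
  by_cases hk : k < T
  swap
  · unfold prb
    rw [if_neg hk, if_neg hk]
  have n0 := Zt_nonneg (μ := μ) (s := s) (η := η) hg (T - k) k y
  have n1 := Zt_nonneg (μ := μ) (s := s) (η := η) hg' (T - k) k y
  have h1 := Zt_mlr (μ := μ) (s := s) (η := η) hg hg' h (T - (k + 1)) (k + 1) y (y + 1) (by omega)
  have s1 := Zt_step (μ := μ) (s := s) (η := η) (g := g) hk y
  have s2 := Zt_step (μ := μ) (s := s) (η := η) (g := g') hk y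
  unfold prb
  rw [if_pos hk, if_pos hk]
  obtain ⟨A, hA⟩ : ∃ A, A = Zt μ s η g (T - (k + 1)) (k + 1) y := ⟨_, rfl⟩
  obtain ⟨B, hB⟩ : ∃ B, B = Zt μ s η g (T - (k + 1)) (k + 1) (y + 1) := ⟨_, rfl⟩
  obtain ⟨A', hA'⟩ : ∃ A', A' = Zt μ s η g' (T - (k + 1)) (k + 1) y := ⟨_, rfl⟩
  obtain ⟨B', hB'⟩ : ∃ B', B' = Zt μ s η g' (T - (k + 1)) (k + 1) (y + 1) := ⟨_, rfl⟩
  rw [← hA, ← hB, ← hA', ← hB'] at h1
  rw [← hA, ← hB] at s1
  rw [← hA', ← hB'] at s2
  rw [← hB, ← hB']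
  have e0 := Real.exp_pos (-lam μ s)
  have e1 := Real.exp_pos (η ((k : ℤ) + 1, y))
  have e2 := Real.exp_pos (η ((k : ℤ) + 1, y + 1))
  have e3 := Real.exp_pos s
  rcases n0.eq_or_lt with hz | hz
  · rw [← hz, div_zero]
    refine div_nonneg ?_ n1
    have hB0 : 0 ≤ B' := by rw [hB']; exact Zt_nonneg hg' _ _ _
    positivity
  · rw [div_le_div_iff₀ hz (lt_of_le_of_ne n1 (Ne.symm hZ)), s1, s2]
    have h2 := mul_le_mul_of_nonneg_left h1 (mul_nonneg (mul_nonneg (mul_nonneg e0.le e0.le) (mul_nonneg e3.le e2.le)) e1.le)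
    nlinarith [h2]

/-- The running maximum of the transition probabilities. -/
def pt (μ : Measure ℝ) (s : ℝ) (η : Env) (g : ℕ → ℤ → ℝ) (T j k : ℕ) (y : ℤ) : ℝ :=
  (range (j + 1)).sup' nonempty_range_add_one fun i => prb μ s η (g i) T k y

theorem pt_nonneg {η : Env} {g : ℕ → ℤ → ℝ} (hg : ∀ j y, 0 ≤ g j y) (T j k : ℕ) (y : ℤ) : 0 ≤ pt μ s η g T j k y := by
  unfold pt
  refine (prb_nonneg (μ := μ) (s := s) (η := η) (hg 0) T k y).trans ?_
  exact le_sup' (fun i => prb μ s η (g i) T k y) (mem_range.2 (Nat.succ_pos j))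

theorem pt_le {η : Env} {g : ℕ → ℤ → ℝ} (hg : ∀ j y, 0 ≤ g j y) (T j k : ℕ) (y : ℤ) : pt μ s η g T j k y ≤ 1 := by
  unfold pt
  exact sup'_le _ _ fun i _ => prb_le (hg i) T k y

theorem pt_mono (η : Env) (g : ℕ → ℤ → ℝ) (T : ℕ) {i j : ℕ} (h : i ≤ j) (k : ℕ) (y : ℤ) :
    pt μ s η g T i k y ≤ pt μ s η g T j k y := by
  unfold pt
  exact sup'_mono _ (range_subset_range.2 (by omega)) nonempty_range_add_one

theorem pt_eq {η : Env} {g : ℕ → ℤ → ℝ} (hg : ∀ j y, 0 ≤ g j y) (hm : ∀ i j, i ≤ j → MLR (g i) (g j)) {T j k : ℕ} {y : ℤ}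
    (hZ : Zt μ s η (g j) (T - k) k y ≠ 0) : pt μ s η g T j k y = prb μ s η (g j) T k y := by
  unfold pt
  refine le_antisymm (sup'_le _ _ fun i hi => ?_) ?_
  · exact prb_le_of (hg i) (hg j) (hm i j (by have := mem_range.1 hi; omega)) hZ
  · exact le_sup' (fun i => prb μ s η (g i) T k y) (mem_range.2 (Nat.lt_succ_self j))

theorem tr_pt {η : Env} {g : ℕ → ℤ → ℝ} (hg : ∀ j y, 0 ≤ g j y) (hm : ∀ i j, i ≤ j → MLR (g i) (g j)) (x : ℤ) (S : Finset ℕ)
    {T j k : ℕ} (hk : k < T) : tr (pt μ s η g T j) x S k * Zt μ s η (g j) (T - k) k (x + ps S k) =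
      st μ s η x S k * Zt μ s η (g j) (T - (k + 1)) (k + 1) (x + ps S (k + 1)) := by
  have h := tr_step (μ := μ) (s := s) (η := η) (hg j) x S hk
  by_cases hz : Zt μ s η (g j) (T - k) k (x + ps S k) = 0
  · rw [hz, mul_zero] at h ⊢
    exact h
  · rw [← h]
    congr 1
    unfold tr
    rw [pt_eq hg hm hz]

theorem PX_pt_mul {η : Env} {g : ℕ → ℤ → ℝ} (hg : ∀ j y, 0 ≤ g j y) (hm : ∀ i j, i ≤ j → MLR (g i) (g j)) (x : ℤ) {T j : ℕ}
    {S : Finset ℕ} (hS : S ⊆ range T) :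
    PX (pt μ s η g T j) x T S * Zt μ s η (g j) T 0 x = pth μ s (sh (0, x) η) T S * g j (x + pos S T) := by
  have h1 : ∀ k ≤ T, (∏ i ∈ range k, tr (pt μ s η g T j) x S i) * Zt μ s η (g j) T 0 x =
      (∏ i ∈ range k, st μ s η x S i) * Zt μ s η (g j) (T - k) k (x + ps S k) := by
    intro k
    induction k with
    | zero => intro _; simp [ps_zero]
    | succ k ih =>
      intro hk
      have h2 := ih (by omega)
      have h3 := tr_pt (μ := μ) (s := s) (η := η) hg hm x S (j := j) (show k < T by omega)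
      rw [prod_range_succ, prod_range_succ]
      calc (∏ i ∈ range k, tr (pt μ s η g T j) x S i) * tr (pt μ s η g T j) x S k * Zt μ s η (g j) T 0 x
          = ((∏ i ∈ range k, tr (pt μ s η g T j) x S i) * Zt μ s η (g j) T 0 x) * tr (pt μ s η g T j) x S k := by ring
        _ = (∏ i ∈ range k, st μ s η x S i) * (tr (pt μ s η g T j) x S k * Zt μ s η (g j) (T - k) k (x + ps S k)) := by
          rw [h2]; ring
        _ = _ := by rw [h3]; ring
  have h2 := h1 T le_rfl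
  rw [PX_tr _ x hS, h2, pth_st, Nat.sub_self]
  rfl

/-- **The modified chain is the polymer.** -/
theorem PX_pt {η : Env} {g : ℕ → ℤ → ℝ} (hg : ∀ j y, 0 ≤ g j y) (hm : ∀ i j, i ≤ j → MLR (g i) (g j)) {x : ℤ} {T j : ℕ}
    (hZ : 0 < Zt μ s η (g j) T 0 x) {S : Finset ℕ} (hS : S ⊆ range T) :
    PX (pt μ s η g T j) x T S = Gg μ s η (g j) T x S := by
  unfold Gg
  rw [eq_div_iff hZ.ne']
  exact PX_pt_mul hg hm x hS

/-- The quenched probability that two polymers with the end weights `g`, `g'` have no common site in the rows `0, ..., T`. -/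
def PF (μ : Measure ℝ) (s : ℝ) (η : Env) (g g' : ℤ → ℝ) (T : ℕ) (x x' : ℤ) : ℝ :=
  ∑ p ∈ ((range T).powerset ×ˢ (range T).powerset).filter fun p => NI T x x' p.1 p.2,
    Gg μ s η g T x p.1 * Gg μ s η g' T x' p.2

theorem p2_pt {η : Env} {g : ℕ → ℤ → ℝ} (hg : ∀ j y, 0 ≤ g j y) (hm : ∀ i j, i ≤ j → MLR (g i) (g j)) {x x' : ℤ} {T i j : ℕ}
    (hZ : 0 < Zt μ s η (g i) T 0 x) (hZ' : 0 < Zt μ s η (g j) T 0 x') :
    p2 (pt μ s η g T i) (pt μ s η g T j) T x x' = PF μ s η (g i) (g j) T x x' := by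
  rw [p2_pairs]
  unfold PF
  refine sum_congr rfl fun p hp => ?_
  obtain ⟨h1, h2⟩ := mem_product.1 (mem_filter.1 hp).1
  rw [PX_pt hg hm hZ (mem_powerset.1 h1), PX_pt hg hm hZ' (mem_powerset.1 h2)]

/-- **Inequality (A) for the quenched polymers of one environment, end weights in MLR order.** -/
theorem arr_fam {η : Env} {g : ℕ → ℤ → ℝ} (hg : ∀ j y, 0 ≤ g j y) (hm : ∀ i j, i ≤ j → MLR (g i) (g j)) (T N M : ℕ)
    {x : ℕ → ℤ} (hx : Monotone x) (hZ : ∀ j ≤ M, 0 < Zt μ s η (g j) T 0 (x j)) (lo hi : ℕ → ℝ) :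
    ∑ j ∈ range M, PF μ s η (g j) (g (j + 1)) T (x j) (x (j + 1)) ≤
      N + M * ((pQ (pt μ s η g T 0) T (x 0) (fun S => ∃ k ≤ T, ((x 0 + ps S k : ℤ) : ℝ) < lo k) +
        pQ (pt μ s η g T M) T (x M) (fun S => ∃ k ≤ T, hi k < ((x M + ps S k : ℤ) : ℝ))) +
        min 1 (∑ I ∈ powersetCard N (range M), qM (fun i : I => pt μ s η g T i) T (fun i : I => x i)
          fun S => ∀ i : I, Tube lo hi T (x i) (S i))) := by
  have h := arrM_conf (π := pt μ s η g T) (fun j k y => pt_nonneg hg T j k y) (fun j k y => pt_le hg T j k y)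
    (fun i j hij k y => pt_mono η g T hij k y) T N M hx lo hi
  have e1 : ∀ j ∈ range M, p2 (pt μ s η g T j) (pt μ s η g T (j + 1)) T (x j) (x (j + 1)) =
      PF μ s η (g j) (g (j + 1)) T (x j) (x (j + 1)) := fun j hj => by
    have hj' := mem_range.1 hj
    exact p2_pt hg hm (hZ j hj'.le) (hZ (j + 1) hj')
  rw [sum_congr rfl e1] at h
  exact h

/-- **Monotonicity of the pair**: `g₁ ≤ g`, `g' ≤ g₁'` in MLR order, `x₁ ≤ x ≤ x' ≤ x₁'`. -/
theorem PF_le {η : Env} {g g' g₁ g₁' : ℤ → ℝ} (hg : ∀ y, 0 ≤ g y) (hg' : ∀ y, 0 ≤ g' y) (hg1 : ∀ y, 0 ≤ g₁ y)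
    (hg1' : ∀ y, 0 ≤ g₁' y) (hl : MLR g₁ g) (hr : MLR g' g₁') {T : ℕ} {x x' x₁ x₁' : ℤ}
    (hx : x ≤ x') (hx1 : x₁ ≤ x) (hx1' : x' ≤ x₁')
    (hZ : 0 < Zt μ s η g T 0 x) (hZ' : 0 < Zt μ s η g' T 0 x') (hZ1 : 0 < Zt μ s η g₁ T 0 x₁) (hZ1' : 0 < Zt μ s η g₁' T 0 x₁') :
    PF μ s η g g' T x x' ≤ PF μ s η g₁ g₁' T x₁ x₁' := by
  -- two families with two members
  obtain ⟨f, hf0, hf1⟩ : ∃ f : ℕ → ℤ → ℝ, f 0 = g₁ ∧ ∀ j, f (j + 1) = g := ⟨fun j => if j = 0 then g₁ else g, rfl, fun j => rfl⟩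
  obtain ⟨f', hf0', hf1'⟩ : ∃ f : ℕ → ℤ → ℝ, f 0 = g' ∧ ∀ j, f (j + 1) = g₁' :=
    ⟨fun j => if j = 0 then g' else g₁', rfl, fun j => rfl⟩
  have hfn : ∀ j y, 0 ≤ f j y := by
    intro j
    rcases j with _ | j
    · rw [hf0]
      exact hg1
    · rw [hf1]
      exact hg
  have hfn' : ∀ j y, 0 ≤ f' j y := by
    intro j
    rcases j with _ | j
    · rw [hf0']
      exact hg'
    · rw [hf1']
      exact hg1'
  have hm : ∀ i j, i ≤ j → MLR (f i) (f j) := by
    intro i j hij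
    rcases i with _ | i
    · rcases j with _ | j
      · exact MLR.refl _
      · rw [hf0, hf1]
        exact hl
    · rcases j with _ | j
      · omega
      · rw [hf1, hf1]
        exact MLR.refl _
  have hm' : ∀ i j, i ≤ j → MLR (f' i) (f' j) := by
    intro i j hij
    rcases i with _ | i
    · rcases j with _ | j
      · exact MLR.refl _
      · rw [hf0', hf1']
        exact hr
    · rcases j with _ | j
      · omega
      · rw [hf1', hf1']
        exact MLR.refl _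
  have e1 : PF μ s η g g' T x x' = p2 (pt μ s η f T 1) (pt μ s η f' T 0) T x x' := by
    rw [p2_pairs]
    unfold PF
    refine sum_congr rfl fun p hp => ?_
    obtain ⟨h1, h2⟩ := mem_product.1 (mem_filter.1 hp).1
    have h3 := PX_pt (μ := μ) (s := s) (η := η) hfn hm (x := x) (T := T) (j := 1) (by rw [hf1]; exact hZ) (mem_powerset.1 h1)
    have h4 := PX_pt (μ := μ) (s := s) (η := η) hfn' hm' (x := x') (T := T) (j := 0) (by rw [hf0']; exact hZ') (mem_powerset.1 h2)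
    rw [hf1] at h3
    rw [hf0'] at h4
    rw [h3, h4]
  have e2 : PF μ s η g₁ g₁' T x₁ x₁' = p2 (pt μ s η f T 0) (pt μ s η f' T 1) T x₁ x₁' := by
    rw [p2_pairs]
    unfold PF
    refine sum_congr rfl fun p hp => ?_
    obtain ⟨h1, h2⟩ := mem_product.1 (mem_filter.1 hp).1
    have h3 := PX_pt (μ := μ) (s := s) (η := η) hfn hm (x := x₁) (T := T) (j := 0) (by rw [hf0]; exact hZ1) (mem_powerset.1 h1)
    have h4 := PX_pt (μ := μ) (s := s) (η := η) hfn' hm' (x := x₁') (T := T) (j := 1) (by rw [hf1']; exact hZ1') (mem_powerset.1 h2)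
    rw [hf0] at h3
    rw [hf1'] at h4
    rw [h3, h4]
  rw [e1, e2]
  exact pair_le (pt_nonneg hfn T 1) (pt_le hfn T 1) (pt_nonneg hfn' T 0) (pt_le hfn' T 0) (pt_nonneg hfn T 0) (pt_le hfn T 0)
    (pt_nonneg hfn' T 1) (pt_le hfn' T 1) (pt_mono η f T (Nat.zero_le 1)) (pt_mono η f' T (Nat.zero_le 1)) hx hx1 hx1'

end

end Pool.Agent.W_7d29a1_C1.ArrM56
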