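import Pool.Agent.W_7d29a1_C1.PshQ16
import Pool.Agent.W_7d29a1_C1.OwnT67

/-!
MP_7d29a1_pr, [C1] attractor route, SEP: THE PROFILE OF THE BACKWARD MASSES AT A LOW ROW, IN THE UNIT OF A HIGH SCALE. (helper99; over
`pshQ16` of helper16 and `cost67` of helper67)

* `pshW99` : `pshQ16` with the lower site anywhere within `R wd Tt` of the line (not only in the window of the first slab);
* `slabs_cons99` : one more slab (any fat level) in front of the slabs;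
* **`prf99`** : a row `k`, one fat level over the rows `k .. r a`, the layers `a .. t` of a tower with levels `(1 + q) ^ 2 ≤ Qm`, (D2) with
  `(Q4, σ)` in the unit `T t` at the row `r (t + 1)`:
  `bh16 k x ≤ exp ((C₉ (1 + Qm + Q4) ^ 4 + (σ + 1) |lat x| / wd (T t)) EE (T t)) bh16 k x'` for all `x` and all `|lat x'| ≤ R wd (T t)`.
  The constant is a polynomial of the levels and does not depend on the number of the layers.
-/

set_option autoImplicit false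

namespace Pool.Agent.W_7d29a1_C1.Prf99

open MeasureTheory ProbabilityTheory Filter Topology Finset
open Pool.Agent.W_7d29a1_F Pool.Agent.W_7d29a1_h4g Pool.Agent.W_7d29a1_H Pool.Agent.W_7d29a1_HS
open Pool.Agent.W_7d29a1_C1.K91 (wt wt_pos)
open Pool.Agent.W_7d29a1_C1.K91P (bw bw_pos)
open Pool.Agent.W_7d29a1_C1.H75 Pool.Agent.W_7d29a1_C1.U16
open Pool.Agent.W_7d29a1_C1.FarK89 Pool.Agent.W_7d29a1_C1.FarW89 Pool.Agent.W_7d29a1_C1.DD84 Pool.Agent.W_7d29a1_C1.SysN89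

noncomputable section

variable {μ : Measure ℝ} {s : ℝ} [IsProbabilityMeasure μ] {c C : ℝ} {n₀ : ℕ}

/-- **THE PUSH IN ONE UNIT, the lower site anywhere within `R wd Tt`** (`pshQ16` of helper16 with a wide lower window). -/
theorem pshW99 (h0 : In μ s c C n₀) (P : ℕ) {K θ R : ℝ} (hK : 4 ≤ K) (hθ : 0 < θ) (hR : 0 ≤ R) : ∃ C₉ : ℝ, 0 < C₉ ∧ ∃ n₁ : ℕ, 1 ≤ n₁ ∧
    ∀ {Q Q4 σ δ : ℝ}, 0 ≤ Q → 0 ≤ Q4 → 0 ≤ σ → σ ≤ c / 8 → 0 < δ → δ ≤ 1 →
    ∀ {h : ℝ} {η : Env} {p : ℕ → ℝ} {M N : ℕ} {κ : Pt} {r T Nr : ℕ → ℕ} {q : ℕ → ℝ} {bs : ℕ → Pt} {a f Tt : ℕ},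
      (∀ k, k < M → p k = Real.exp (s + h)) → (∀ k, M ≤ k → p k = Real.exp s) →
      Slabs μ s c θ K h P η κ r T Nr q bs a f Tt n₁ Q → a < f → (∀ u, a ≤ u → u < f → θ * T u ≤ ((r (u + 1) - r u : ℕ) : ℝ)) →
      r f ≤ N → (N : ℝ) + 1 ≤ Real.exp (EE μ s Tt) →
      ∀ {y₀ : ℤ}, |lt μ s κ r f y₀| + R * wd μ s Tt ≤ (K - 2) / 2 * wd μ s (T (f - 1)) - 1 →
      (∀ y : ℤ, bh16 μ s h η p M N (r f) y ≤ Real.exp ((Q4 + σ * (|lt μ s κ r f y| / wd μ s Tt)) * EE μ s Tt) * bh16 μ s h η p M N (r f) y₀) →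
      ∀ x x' : ℤ, |lt μ s κ r a x'| ≤ R * wd μ s Tt →
        bh16 μ s h η p M N (r a) x ≤ Real.exp ((C₉ * (1 + Q + Q4) ^ 4 / δ + (σ + δ) * (|lt μ s κ r a x| / wd μ s Tt)) * EE μ s Tt) *
          bh16 μ s h η p M N (r a) x' := by
  obtain ⟨C₅, hC₅, n₂, hn₂, H2⟩ := far_up h0 P
  obtain ⟨C₆, hC₆, n₃, hn₃, H3⟩ := far_low89 h0 P hK hθ
  obtain ⟨Mq, hMq, HM⟩ := LQ_poly (2 * P) (c := c / 8) (A := C₅) (by have := h0.c0; positivity) hC₅
  have hc0 := h0.c0
  have hCP := CP_pos (2 * P)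
  obtain ⟨n₄, hn₄⟩ := eventually_atTop.1 ((wd_tendsto h0).eventually_ge_atTop 1)
  obtain ⟨gKK, hgKK⟩ : ∃ gKK : ℝ, gKK = gr (2 * P) (R + K) := ⟨_, rfl⟩
  have hgKK1 : 1 ≤ gKK := by rw [hgKK]; exact gr_one_le _ (by linarith)
  refine ⟨4 + CP (2 * P) ^ 2 * (1 + Mq) ^ 2 + C₆ * gKK, by positivity, max (max n₂ n₃) n₄,
    (hn₂.trans (le_max_left _ _)).trans (le_max_left _ _), ?_⟩
  intro Q Q4 σ δ hQ hQ4 hσ0 hσ hδ hδ1 h η p M N κ r T Nr q bs a f Tt hp hp' hS haf hθr hrN hN y₀ hy₀ hG x x' hx'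
  have hpp : ∀ k, 0 < p k := fun k => by
    rcases lt_or_ge k M with h1 | h1
    · rw [hp k h1]; exact Real.exp_pos _
    · rw [hp' k h1]; exact Real.exp_pos _
  have S := sys_model16 (μ := μ) (s := s) (h := h) (η := η) (p := p) (M := M) (N := N) hpp
  have mono : ∀ {m' : ℕ}, m' ≤ max (max n₂ n₃) n₄ → Slabs μ s c θ K h P η κ r T Nr q bs a f Tt m' Q := fun hm =>
    ⟨hS.q0, hS.K3, hm.trans hS.Tt1, fun u h1 h2 => hm.trans (hS.T1 u h1 h2), hS.TT, hS.NT, hS.rr, hS.b1, hS.b2, hS.b3, hS.far, hS.cost, hS.force⟩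
  have l2 : n₂ ≤ max (max n₂ n₃) n₄ := (le_max_left _ _).trans (le_max_left _ _)
  have l3 : n₃ ≤ max (max n₂ n₃) n₄ := (le_max_right _ _).trans (le_max_left _ _)
  have hT1 : 1 ≤ Tt := hn₂.trans (l2.trans hS.Tt1)
  have hwa : 1 ≤ wd μ s (T a) := hn₄ _ ((le_max_right _ _).trans (hS.T1 a le_rfl haf))
  have hw0 : 0 < wd μ s Tt := h0.wd_pos hT1
  have hE := EE_pos (μ := μ) (s := s) Tt
  have hraf : r a ≤ r f := by
    have := r_mono (r := r) (a := a) (b := f) hS.rr (f - a) a le_rfl (by omega)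
    rwa [Nat.add_sub_cancel' haf.le] at this
  obtain ⟨ΛQ, hΛQ⟩ : ∃ ΛQ : ℝ, ΛQ = LQ (2 * P) (c / 8) (C₅ * Q) := ⟨_, rfl⟩
  have hΛ0 : 0 ≤ ΛQ := by rw [hΛQ]; exact LQ_nonneg _ (by positivity)
  have hΛM : ΛQ ≤ Mq * (1 + Q) ^ 2 := by rw [hΛQ]; exact HM Q hQ
  -- the frame
  obtain ⟨β, hβ⟩ : ∃ β : ℝ, β = (κ.2 : ℝ) + sl μ s * (((r a : ℤ) - κ.1 : ℤ) : ℝ) := ⟨_, rfl⟩
  obtain ⟨β', hβ'⟩ : ∃ β' : ℝ, β' = (κ.2 : ℝ) + sl μ s * (((r f : ℤ) - κ.1 : ℤ) : ℝ) := ⟨_, rfl⟩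
  have ea : ∀ x : ℤ, (x : ℝ) - β = lt μ s κ r a x := by
    intro x
    rw [hβ]
    unfold lt lat16
    push_cast
    ring
  have ef : ∀ y : ℤ, (y : ℝ) - β' = lt μ s κ r f y := by
    intro y
    rw [hβ']
    unfold lt lat16
    push_cast
    ring
  -- the slope
  obtain ⟨lam, hlam⟩ : ∃ lam : ℝ, lam = hc μ s c Tt / 8 := ⟨_, rfl⟩
  have hlw : lam = c / 8 * (EE μ s Tt / wd μ s Tt) := by
    rw [hlam]
    unfold hc
    ring
  have hew : 0 ≤ EE μ s Tt / wd μ s Tt := by positivity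
  -- the parts of the push
  have hF : ∀ x, bh16 μ s h η p M N (r a) x = ∑ y ∈ Icc x (x + ((r f - r a : ℕ) : ℤ)), nk μ s h η p M (r a) (r f - r a) x y *
      bh16 μ s h η p M N (r f) y := fun x => S.step (r a) (r f) x hraf hrN
  have hG0 : ∀ y, 0 ≤ bh16 μ s h η p M N (r f) y := fun y => (S.b0 _ _ hrN).le
  have hlow : ∀ x' : ℤ, |(x' : ℝ) - β| ≤ R * wd μ s Tt → y₀ ∈ Icc x' (x' + ((r f - r a : ℕ) : ℤ)) ∧
      Real.exp (-(C₆ * Q * gKK * EE μ s Tt)) ≤ nk μ s h η p M (r a) (r f - r a) x' y₀ := by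
    intro x' hx'
    rw [ea] at hx'
    have g0 := H3 haf hp hp' (mono l3) hθr (lt μ s κ r a x') x' y₀ (by
      rw [sub_self, abs_zero]
      have : 1 * 1 ≤ (K - 2) / 2 * wd μ s (T a) := mul_le_mul (by linarith) hwa zero_le_one (by linarith)
      linarith) (by
      have := abs_sub (lt μ s κ r f y₀) (lt μ s κ r a x')
      linarith)
    have g1 : Real.exp (-(C₆ * Q * gKK * EE μ s Tt)) ≤ nk μ s h η p M (r a) (r f - r a) x' y₀ := by
      refine le_trans (Real.exp_le_exp.2 ?_) g0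
      have hx1 : |lt μ s κ r a x'| / wd μ s Tt ≤ R := by
        rw [div_le_iff₀ hw0]
        exact hx'
      have hx2 : 0 ≤ |lt μ s κ r a x'| / wd μ s Tt := by positivity
      have g2 : gr (2 * P) (|lt μ s κ r a x'| / wd μ s Tt + K) ≤ gKK := by
        rw [hgKK]
        exact gr_mono _ (by linarith) (by linarith)
      have g3 := mul_le_mul_of_nonneg_right (mul_le_mul_of_nonneg_left g2 (show 0 ≤ C₆ * Q by positivity)) hE.le
      linarith
    refine ⟨?_, g1⟩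
    by_contra hcon
    rw [mem_Icc] at hcon
    rw [nk_eq_zero _ _ hcon] at g1
    exact absurd g1 (not_le.2 (Real.exp_pos _))
  have hcard : ∀ x : ℤ, ((Icc x (x + ((r f - r a : ℕ) : ℤ))).card : ℝ) ≤ Real.exp (EE μ s Tt) := by
    intro x
    refine le_trans ?_ hN
    rw [Int.card_Icc]
    have : (x + ((r f - r a : ℕ) : ℤ) + 1 - x).toNat ≤ N + 1 := by omega
    exact_mod_cast this
  obtain ⟨δ', hδ'⟩ : ∃ δ' : ℝ, δ' = δ / (ΛQ + 1) := ⟨_, rfl⟩
  have hδ'0 : 0 < δ' := by rw [hδ']; positivity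
  obtain ⟨Cδ, hCδ⟩ : ∃ Cδ : ℝ, Cδ = δ' + CP (2 * P) ^ 2 / δ' := ⟨_, rfl⟩
  have key := push_far16 (F := bh16 μ s h η p M N (r a)) (G := bh16 μ s h η p M N (r f)) (S := fun x => Icc x (x + ((r f - r a : ℕ) : ℤ)))
    (k := fun x y => nk μ s h η p M (r a) (r f - r a) x y) (β := β) (β' := β') (y₀ := y₀) (lam := lam) (a' := C₆ * Q * gKK * EE μ s Tt)
    (N := EE μ s Tt) (et := Q4 * EE μ s Tt) (κ := σ * (EE μ s Tt / wd μ s Tt)) (κ' := δ * (EE μ s Tt / wd μ s Tt))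
    (Lt := ΛQ * Cδ * EE μ s Tt + Q * EE μ s Tt) (rl := R * wd μ s Tt)
    hF (fun x y => nk_nonneg hpp _ _ _ _) hG0 hlow hcard (by positivity) (by
      rw [hlw]
      exact mul_le_mul_of_nonneg_right hσ hew) (fun y => by
      have e : Q4 * EE μ s Tt + σ * (EE μ s Tt / wd μ s Tt) * |(y : ℝ) - β'| = (Q4 + σ * (|lt μ s κ r f y| / wd μ s Tt)) * EE μ s Tt := by
        rw [ef]
        ring
      rw [e]
      exact hG y) (x := x) (x' := x')
    (fun y _ => by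
      have g1 := H2 haf.le hp hp' (mono l2) x y
      have e1 : ((y - x : ℤ) : ℝ) - sl μ s * ((r f - r a : ℕ) : ℝ) = lt μ s κ r f y - lt μ s κ r a x := (lt_sub κ r a f x y hraf).symm
      rw [e1, ← hlam, ← hΛQ, ← ea, ← ef] at g1
      refine g1.trans (Real.exp_le_exp.2 ?_)
      have g2 := gr_lin (2 * P) hδ'0 (show 0 ≤ |(x : ℝ) - β| / wd μ s Tt by positivity)
      rw [← hCδ] at g2
      have g3 := mul_le_mul_of_nonneg_right (mul_le_mul_of_nonneg_left g2 hΛ0) hE.le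
      have g4 : ΛQ * (δ' * (|(x : ℝ) - β| / wd μ s Tt) + Cδ) * EE μ s Tt = ΛQ * δ' * ((EE μ s Tt / wd μ s Tt) * |(x : ℝ) - β|) +
          ΛQ * Cδ * EE μ s Tt := by ring
      have g5 : ΛQ * δ' ≤ δ := by
        rw [hδ', mul_div_assoc', div_le_iff₀ (by positivity), mul_comm δ]
        exact mul_le_mul_of_nonneg_right (by linarith only) hδ.le
      have g6 : 0 ≤ (EE μ s Tt / wd μ s Tt) * |(x : ℝ) - β| := mul_nonneg hew (abs_nonneg _)
      have g7 := mul_le_mul_of_nonneg_right g5 g6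
      rw [add_mul]
      linarith only [g3, g4, g7]) (by rwa [ea])
  refine key.trans (mul_le_mul_of_nonneg_right (Real.exp_le_exp.2 ?_) (S.b0 _ _ (hraf.trans hrN)).le)
  have hnum := pshQ_num (M := Mq) (CPP := CP (2 * P)) (C₆ := C₆) (gK := gKK) (Q := Q) (Q4 := Q4) (δ := δ) (Λ := ΛQ) hMq hC₆ hgKK1 hQ hQ4 hδ hδ1
    hΛ0 hΛM
  rw [← hδ', ← hCδ] at hnum
  have g8 := mul_le_mul_of_nonneg_right hnum hE.le
  rw [ea]
  have e3 : EE μ s Tt + (ΛQ * Cδ * EE μ s Tt + Q * EE μ s Tt + Q4 * EE μ s Tt +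
      (σ * (EE μ s Tt / wd μ s Tt) + δ * (EE μ s Tt / wd μ s Tt)) * |lt μ s κ r a x|) + C₆ * Q * gKK * EE μ s Tt =
      (1 + (ΛQ * Cδ + Q + Q4) + C₆ * Q * gKK) * EE μ s Tt + (σ + δ) * (|lt μ s κ r a x| / wd μ s Tt) * EE μ s Tt := by ring
  rw [e3]
  refine (add_le_add_left g8 _).trans (le_of_eq (by ring))


/-- **One more slab in front.** -/
theorem slabs_cons99 {θ K h : ℝ} {P : ℕ} {η : Env} {κ : Pt} {r T Nr : ℕ → ℕ} {q : ℕ → ℝ} {bs : ℕ → Pt} {a f Tt n₁ : ℕ} {Q Q₁ : ℝ}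
    (hS : Slabs μ s c θ K h P η κ r T Nr q bs (a + 1) f Tt n₁ Q) (haf : a + 1 ≤ f) {k n' N' : ℕ} {q' : ℝ} {b' : Pt} (hq' : 0 ≤ q')
    (hn' : n₁ ≤ n') (hn't : n' ≤ Tt) (hN' : N' ≤ n') (hk : k ≤ r (a + 1)) (hb1 : b'.1 ≤ k) (hb2 : (r (a + 1) : ℤ) ≤ b'.1 + N')
    (hb3 : |lat16 μ s κ b'| ≤ wd μ s n') (hη : η ∈ Far16 μ s c θ K n' N' P b' q')
    (hc : (1 + q') ^ 2 * gr (2 * P) (2 * wd μ s Tt / wd μ s n') * EE μ s n' ≤ Q₁ * EE μ s Tt) :
    Slabs μ s c θ K h P η κ (Function.update r a k) (Function.update T a n') (Function.update Nr a N') (Function.update q a q')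
      (Function.update bs a b') a f Tt n₁ (Q + Q₁) := by
  have up : ∀ {β : Type} (g : ℕ → β) (z : β) (u : ℕ), a + 1 ≤ u → Function.update g a z u = g u := fun g z u hu =>
    Function.update_of_ne (by omega) _ _
  have cs : ∀ u, a ≤ u → u < f → u = a ∨ a + 1 ≤ u := fun u h1 _ => by omega
  refine ⟨fun u h1 h2 => ?_, hS.K3, hS.Tt1, fun u h1 h2 => ?_, fun u h1 h2 => ?_, fun u h1 h2 => ?_, fun u h1 h2 => ?_,
    fun u h1 h2 => ?_, fun u h1 h2 => ?_, fun u h1 h2 => ?_, fun u h1 h2 => ?_, ?_, hS.force⟩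
  · rcases cs u h1 h2 with rfl | h3
    · simpa using hq'
    · rw [up q q' u h3]; exact hS.q0 u h3 h2
  · rcases cs u h1 h2 with rfl | h3
    · simpa using hn'
    · rw [up T n' u h3]; exact hS.T1 u h3 h2
  · rcases cs u h1 h2 with rfl | h3
    · simpa using hn't
    · rw [up T n' u h3]; exact hS.TT u h3 h2
  · rcases cs u h1 h2 with rfl | h3
    · simpa using hN'
    · rw [up T n' u h3, up Nr N' u h3]; exact hS.NT u h3 h2
  · rcases cs u h1 h2 with rfl | h3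
    · rw [up r k (u + 1) le_rfl]
      simpa using hk
    · rw [up r k u h3, up r k (u + 1) (by omega)]; exact hS.rr u h3 h2
  · rcases cs u h1 h2 with rfl | h3
    · simpa using hb1
    · rw [up bs b' u h3, up r k u h3]; exact hS.b1 u h3 h2
  · rcases cs u h1 h2 with rfl | h3
    · rw [up r k (u + 1) le_rfl]
      simpa using hb2
    · rw [up bs b' u h3, up r k (u + 1) (by omega), up Nr N' u h3]; exact hS.b2 u h3 h2
  · rcases cs u h1 h2 with rfl | h3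
    · simpa using hb3
    · rw [up bs b' u h3, up T n' u h3]; exact hS.b3 u h3 h2
  · rcases cs u h1 h2 with rfl | h3
    · simpa using hη
    · rw [up T n' u h3, up Nr N' u h3, up bs b' u h3, up q q' u h3]; exact hS.far u h3 h2
  · rw [Finset.sum_eq_sum_Ico_succ_bot (show a < f by omega)]
    have e1 : ∑ u ∈ Ico (a + 1) f, (1 + Function.update q a q' u) ^ 2 *
        gr (2 * P) (2 * wd μ s Tt / wd μ s (Function.update T a n' u)) * EE μ s (Function.update T a n' u) =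
        ∑ u ∈ Ico (a + 1) f, (1 + q u) ^ 2 * gr (2 * P) (2 * wd μ s Tt / wd μ s (T u)) * EE μ s (T u) :=
      sum_congr rfl fun u hu => by rw [up q q' u (mem_Ico.1 hu).1, up T n' u (mem_Ico.1 hu).1]
    rw [e1]
    have h1 := hS.cost
    simp only [Function.update_self]
    linarith

/-- The lengths of the slabs with one more in front. -/
theorem len_cons99 {θ : ℝ} {r T : ℕ → ℕ} {a f k n' : ℕ} (h : ∀ u, a + 1 ≤ u → u < f → θ * T u ≤ ((r (u + 1) - r u : ℕ) : ℝ))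
    (hk : θ * n' ≤ ((r (a + 1) - k : ℕ) : ℝ)) :
    ∀ u, a ≤ u → u < f → θ * (Function.update T a n' u : ℕ) ≤ ((Function.update r a k (u + 1) - Function.update r a k u : ℕ) : ℝ) := by
  intro u h1 h2
  rw [Function.update_of_ne (show u + 1 ≠ a by omega)]
  by_cases hu : u = a
  · subst hu
    simpa using hk
  · rw [Function.update_of_ne hu, Function.update_of_ne hu]
    exact h u (by omega) h2

/-- **THE PROFILE AT A LOW ROW, IN THE UNIT OF A HIGH SCALE.** -/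
theorem prf99 (h0 : In μ s c C n₀) : ∃ K₀ : ℕ, 2 ≤ K₀ ∧ ∀ (P : ℕ) {K θ R : ℝ}, 4 ≤ K → 0 < θ → 0 ≤ R → 2 * R + 4 ≤ K →
    ∃ (C₉ : ℝ) (n₁ : ℕ), 1 ≤ C₉ ∧ 1 ≤ n₁ ∧
    ∀ {Qm Q4 σ : ℝ}, 0 ≤ Qm → 0 ≤ Q4 → 0 ≤ σ → σ ≤ c / 8 →
    ∀ {h : ℝ} {η : Env} {p : ℕ → ℝ} {M N : ℕ} {κ : Pt} {r T Nr : ℕ → ℕ} {q : ℕ → ℝ} {bs : ℕ → Pt} {a t k n' N' : ℕ} {q' : ℝ} {b' : Pt},
      (∀ k, k < M → p k = Real.exp (s + h)) → (∀ k, M ≤ k → p k = Real.exp s) →
      -- the layers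
      Lay89 μ s c θ K h P η κ r T Nr q bs (a + 1) (t + 1) n₁ → a + 1 ≤ t → (∀ v, a + 1 ≤ v → v < t → K₀ * T v ≤ T (v + 1)) →
      (∀ v, a + 1 ≤ v → v ≤ t → (1 + q v) ^ 2 ≤ Qm) → |h| * wd μ s (T t) ≤ c / 8 * EE μ s (T t) →
      r (t + 1) ≤ N → (N : ℝ) + 1 ≤ Real.exp (EE μ s (T t)) →
      -- the first slab, from the row `k`
      n₁ ≤ n' → K₀ * n' ≤ T (a + 1) → N' ≤ n' → 0 ≤ q' → (1 + q') ^ 2 ≤ Qm → k ≤ r (a + 1) → b'.1 ≤ k → (r (a + 1) : ℤ) ≤ b'.1 + N' →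
      |lat16 μ s κ b'| ≤ wd μ s n' → η ∈ Far16 μ s c θ K n' N' P b' q' → θ * n' ≤ ((r (a + 1) - k : ℕ) : ℝ) →
      -- (D2) at the top row
      ∀ {y₀ : ℤ}, |lt μ s κ r (t + 1) y₀| ≤ wd μ s (T t) - 1 →
      (∀ y : ℤ, bh16 μ s h η p M N (r (t + 1)) y ≤ Real.exp ((Q4 + σ * (|lt μ s κ r (t + 1) y| / wd μ s (T t))) * EE μ s (T t)) *
        bh16 μ s h η p M N (r (t + 1)) y₀) →
      ∀ x x' : ℤ, |lat16 μ s κ ((k : ℤ), x')| ≤ R * wd μ s (T t) →
        bh16 μ s h η p M N k x ≤ Real.exp ((C₉ * (1 + Qm + Q4) ^ 4 + (σ + 1) * (|lat16 μ s κ ((k : ℤ), x)| / wd μ s (T t))) * EE μ s (T t)) *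
          bh16 μ s h η p M N k x' := by
  obtain ⟨K₀, hK₀, HD0⟩ := Own67.cost67 h0
  refine ⟨K₀, hK₀, fun P K θ R hK hθ hR hRK => ?_⟩
  obtain ⟨C₉, hC₉, n₂, hn₂, H⟩ := pshW99 h0 P (K := K) (θ := θ) hK hθ hR
  obtain ⟨D, n₃, hD, hn₃, HD⟩ := HD0 P
  refine ⟨C₉ * D ^ 4 + 1, max n₂ n₃, le_add_of_nonneg_left (by positivity), hn₂.trans (le_max_left _ _), ?_⟩
  intro Qm Q4 σ hQm hQ4 hσ0 hσ h η p M N κ r T Nr q bs a t k n' N' q' b' hp hp' hL hat hTK hq hh hrN hN hn' hn'T hN' hq' hqm' hk hb1 hb2 hb3 hη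
    hlen y₀ hy₀ hG x x' hx'
  have hc0 := h0.c0
  have hK3 : 3 ≤ K := by linarith
  have mono : ∀ i v, a + 1 ≤ v → v + i = t → T v ≤ T t := by
    intro i
    induction i with
    | zero => intro v _ hv; rw [add_zero] at hv; rw [hv]
    | succ i ih =>
      intro v hv hvt
      have h1 := ih (v + 1) (by omega) (by omega)
      have h2 := hTK v hv (by omega)
      have h3 : 1 * T v ≤ K₀ * T v := Nat.mul_le_mul_right _ (by omega)
      omega
  have hmono : ∀ v, a + 1 ≤ v → v ≤ t → T v ≤ T t := fun v h1 h2 => mono (t - v) v h1 (by omega)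
  have hn'1 : n' ≤ T (a + 1) := by
    have h3 : 1 * n' ≤ K₀ * n' := Nat.mul_le_mul_right _ (by omega)
    omega
  have hn't : n' ≤ T t := hn'1.trans (hmono _ le_rfl hat)
  obtain ⟨T', hT'⟩ : ∃ T' : ℕ → ℕ, T' = Function.update T a n' := ⟨_, rfl⟩
  obtain ⟨q1, hq1⟩ : ∃ q1 : ℕ → ℝ, q1 = Function.update q a q' := ⟨_, rfl⟩
  have upT : ∀ u, a + 1 ≤ u → T' u = T u := fun u hu => by rw [hT']; exact Function.update_of_ne (by omega) _ _
  have upq : ∀ u, a + 1 ≤ u → q1 u = q u := fun u hu => by rw [hq1]; exact Function.update_of_ne (by omega) _ _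
  have upTa : T' a = n' := by rw [hT']; exact Function.update_self _ _ _
  have upqa : q1 a = q' := by rw [hq1]; exact Function.update_self _ _ _
  have hcost := HD (Qm := Qm) (T := T') (q := q1) (a := a) (b := t + 1) (t := t) hQm le_rfl (fun u h1 h2 => by
      rcases eq_or_lt_of_le h1 with rfl | h3
      · rw [upTa]; exact (le_max_right _ _).trans hn'
      · rw [upT u h3]; exact (le_max_right _ _).trans (hL.T1 u h3 (by omega)))
    (fun u h1 h2 => by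
      rcases eq_or_lt_of_le h1 with rfl | h3
      · rw [upTa, upT _ le_rfl]; exact hn'T
      · rw [upT u h3, upT (u + 1) (by omega)]; exact hTK u h3 h2)
    (fun u h1 h2 => by
      rcases eq_or_lt_of_le h1 with rfl | h3
      · rw [upqa]; exact hqm'
      · rw [upq u h3]; exact hq u h3 (by omega))
  have hEt := EE_pos (μ := μ) (s := s) (T t)
  have eTt : T' t = T t := upT t hat
  have hS : Slabs μ s c θ K h P η κ (Function.update r a k) T' (Function.update Nr a N') q1 (Function.update bs a b') a (t + 1) (T t) n₂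
      (D * Qm) := by
    have cs : ∀ u, a ≤ u → u < t + 1 → u = a ∨ a + 1 ≤ u := fun u h1 _ => by omega
    have upN : ∀ u, a + 1 ≤ u → Function.update Nr a N' u = Nr u := fun u hu => Function.update_of_ne (by omega) _ _
    have upr : ∀ u, a + 1 ≤ u → Function.update r a k u = r u := fun u hu => Function.update_of_ne (by omega) _ _
    have upb : ∀ u, a + 1 ≤ u → Function.update bs a b' u = bs u := fun u hu => Function.update_of_ne (by omega) _ _
    refine ⟨fun u h1 h2 => ?_, hK3, (le_max_left _ _).trans (hL.T1 t hat (by omega)), fun u h1 h2 => ?_, fun u h1 h2 => ?_,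
      fun u h1 h2 => ?_, fun u h1 h2 => ?_, fun u h1 h2 => ?_, fun u h1 h2 => ?_, fun u h1 h2 => ?_, fun u h1 h2 => ?_, ?_, hh⟩
    · rcases cs u h1 h2 with rfl | h3
      · rw [upqa]; exact hq'
      · rw [upq u h3]; exact hL.q0 u h3 h2
    · rcases cs u h1 h2 with rfl | h3
      · rw [upTa]; exact (le_max_left _ _).trans hn'
      · rw [upT u h3]; exact (le_max_left _ _).trans (hL.T1 u h3 h2)
    · rcases cs u h1 h2 with rfl | h3
      · rw [upTa]; exact hn't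
      · rw [upT u h3]; exact hmono u h3 (by omega)
    · rcases cs u h1 h2 with rfl | h3
      · rw [upTa, Function.update_self]; exact hN'
      · rw [upT u h3, upN u h3]; exact hL.NT u h3 h2
    · rcases cs u h1 h2 with rfl | h3
      · rw [upr _ le_rfl, Function.update_self]; exact hk
      · rw [upr u h3, upr (u + 1) (by omega)]; exact hL.rr u h3 h2
    · rcases cs u h1 h2 with rfl | h3
      · rw [Function.update_self, Function.update_self]; exact hb1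
      · rw [upb u h3, upr u h3]; exact hL.b1 u h3 h2
    · rcases cs u h1 h2 with rfl | h3
      · rw [upr _ le_rfl, Function.update_self, Function.update_self]; exact hb2
      · rw [upb u h3, upr (u + 1) (by omega), upN u h3]; exact hL.b2 u h3 h2
    · rcases cs u h1 h2 with rfl | h3
      · rw [upTa, Function.update_self]; exact hb3
      · rw [upb u h3, upT u h3]; exact hL.b3 u h3 h2
    · rcases cs u h1 h2 with rfl | h3
      · rw [upTa, upqa, Function.update_self, Function.update_self]; exact hη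
      · rw [upT u h3, upN u h3, upb u h3, upq u h3]; exact hL.far u h3 h2
    · rw [eTt] at hcost
      exact hcost
  have hlen' : ∀ u, a ≤ u → u < t + 1 → θ * T' u ≤ ((Function.update r a k (u + 1) - Function.update r a k u : ℕ) : ℝ) := by
    rw [hT']
    exact len_cons99 (fun u h1 h2 => hL.len u h1 h2) hlen
  have er1 : Function.update r a k (t + 1) = r (t + 1) := Function.update_of_ne (by omega) _ _
  have era : Function.update r a k a = k := Function.update_self _ _ _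
  have elt : ∀ y, lt μ s κ (Function.update r a k) (t + 1) y = lt μ s κ r (t + 1) y := fun y => by unfold lt; rw [er1]
  have ela : ∀ y, lt μ s κ (Function.update r a k) a y = lat16 μ s κ ((k : ℤ), y) := fun y => by unfold lt; rw [era]
  have hwt := h0.wd_pos (hn₂.trans hS.Tt1)
  have key := H (Q := D * Qm) (Q4 := Q4) (σ := σ) (δ := 1) (by positivity) hQ4 hσ0 hσ one_pos le_rfl hp hp' hS (by omega) hlen'
    (by rw [er1]; exact hrN) hN (y₀ := y₀) (by
      rw [elt, show t + 1 - 1 = t by omega, eTt]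
      have h1 : (R + 1) * wd μ s (T t) ≤ (K - 2) / 2 * wd μ s (T t) := mul_le_mul_of_nonneg_right (by linarith) hwt.le
      linarith) (fun y => by
      rw [er1, elt]
      exact hG y) x x' (by
      rw [ela]
      exact hx')
  rw [era, ela] at key
  refine key.trans (mul_le_mul_of_nonneg_right (Real.exp_le_exp.2 (mul_le_mul_of_nonneg_right (add_le_add ?_ le_rfl) hEt.le)) ?_)
  · rw [div_one]
    have h1 : 1 + D * Qm + Q4 ≤ D * (1 + Qm + Q4) := by nlinarith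
    have h2 : (1 + D * Qm + Q4) ^ 4 ≤ D ^ 4 * (1 + Qm + Q4) ^ 4 := by
      rw [← mul_pow]
      exact pow_le_pow_left₀ (by positivity) h1 4
    have h3 : 0 ≤ (1 + Qm + Q4) ^ 4 := by positivity
    nlinarith [mul_le_mul_of_nonneg_left h2 hC₉.le]
  · have hpp : ∀ k, 0 < p k := fun k => by
      rcases lt_or_ge k M with h1 | h1
      · rw [hp k h1]; exact Real.exp_pos _
      · rw [hp' k h1]; exact Real.exp_pos _
    exact (bh16_pos hpp _ _).le

end

end Pool.Agent.W_7d29a1_C1.Prf99
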