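import Pool.Agent.W_7d29a1_C1.TamO16
import Pool.Agent.W_7d29a1_C1.ArmS88

/-!
MP_7d29a1_pr, [C1] SEP, the far future as another profile (helper37 83221 (B)), part A. (helper94)

* `bF K B r F κ a x` = the backward mass with the end profile `(1_F + κ) B r` at the row `r`; `PM16_comp`, `sys_bF`: it is a `Sys16` with the
  end row `r`; `bF_le`, `PM_bF_le`: it is at most `(1 + κ) B`.
* `tame_modelG`: `tame_model16` for ANY backward masses `B` of the kernels `nk`, together with the comparison with the start and the lower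
  level from the start.
-/

set_option autoImplicit false

namespace Pool.Agent.W_7d29a1_C1.PB94

open MeasureTheory ProbabilityTheory Filter Topology Finset
open Pool.Agent.W_7d29a1_F Pool.Agent.W_7d29a1_h4g Pool.Agent.W_7d29a1_H Pool.Agent.W_7d29a1_HS
open Pool.Agent.W_7d29a1_C1.K91 (wt wt_pos)
open Pool.Agent.W_7d29a1_C1.K91P (bw bw_pos)
open Pool.Agent.W_7d29a1_C1.H75
open Pool.Agent.W_7d29a1_C1.FarK89 Pool.Agent.W_7d29a1_C1.FarW89
open Pool.Agent.W_7d29a1_C1.U16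
open Pool.Agent.W_7d29a1_C1.ArmS88 (PM16_X)

noncomputable section

section Sys

variable {K : ℕ → ℕ → ℤ → ℤ → ℝ} {B : ℕ → ℤ → ℝ} {N : ℕ}

/-- The mass through a set of places of the row `r`, along the rows. -/
theorem PM16_comp (S : Sys16 K B N) {a b r : ℕ} (hab : a ≤ b) (hbr : b ≤ r) (x : ℤ) (Q : ℤ → Prop) [DecidablePred Q] :
    PM16 K B a r x Q = ∑ z ∈ Icc x (x + ((b - a : ℕ) : ℤ)), K a b x z * PM16 K B b r z Q := by
  obtain ⟨X, hX⟩ : ∃ X : Finset ℤ, X = Icc x (x + ((r - a : ℕ) : ℤ)) := ⟨_, rfl⟩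
  have h1 : ∀ z ∈ Icc x (x + ((b - a : ℕ) : ℤ)), K a b x z * PM16 K B b r z Q =
      ∑ y ∈ X with Q y, K a b x z * (K b r z y * B r y) := by
    intro z hz
    rw [mem_Icc] at hz
    rw [PM16_X S hbr (X := X) (by rw [hX]; exact Icc_subset_Icc hz.1 (by omega)), mul_sum]
  rw [sum_congr rfl h1, sum_comm]
  unfold PM16
  rw [← hX]
  refine sum_congr rfl fun y _ => ?_
  rw [S.comp a b r x y hab hbr, sum_mul]
  exact sum_congr rfl fun z _ => by ring

/-- The end profile `(1_F + κ) B r`. -/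
def bF (K : ℕ → ℕ → ℤ → ℤ → ℝ) (B : ℕ → ℤ → ℝ) (r : ℕ) (F : ℤ → Prop) [DecidablePred F] (κ : ℝ) (a : ℕ) (x : ℤ) : ℝ :=
  PM16 K B a r x F + κ * B a x

/-- **It is a system.** -/
theorem sys_bF (S : Sys16 K B N) {r : ℕ} (hr : r ≤ N) (F : ℤ → Prop) [DecidablePred F] {κ : ℝ} (hκ : 0 < κ) :
    Sys16 K (bF K B r F κ) r := by
  refine ⟨S.k0, fun a x ha => ?_, S.out, S.one, fun a b x hab hbr => ?_, S.comp⟩
  · have h1 := PM16_nonneg S (a := a) hr x F
    have h2 := S.b0 a x (ha.trans hr)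
    unfold bF
    positivity
  · unfold bF
    rw [PM16_comp S hab hbr x F, S.step a b x hab (hbr.trans hr), mul_sum, ← sum_add_distrib]
    exact sum_congr rfl fun z _ => by ring

theorem PM_le (S : Sys16 K B N) {a r : ℕ} (har : a ≤ r) (hr : r ≤ N) (x : ℤ) (F : ℤ → Prop) [DecidablePred F] :
    PM16 K B a r x F ≤ B a x := by
  rw [← PM16_split S har hr x F]
  exact le_add_of_nonneg_right (PM16_nonneg S hr x _)

theorem bF_le (S : Sys16 K B N) {a r : ℕ} (har : a ≤ r) (hr : r ≤ N) (F : ℤ → Prop) [DecidablePred F] (κ : ℝ) (x : ℤ) :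
    bF K B r F κ a x ≤ (1 + κ) * B a x := by
  unfold bF
  have := PM_le S har hr x F
  linarith

/-- The masses of the profile are at most the masses of the whole. -/
theorem PM_bF_le (S : Sys16 K B N) {a e r : ℕ} (her : e ≤ r) (hr : r ≤ N) (F : ℤ → Prop) [DecidablePred F] (κ : ℝ) (x : ℤ)
    (Q : ℤ → Prop) [DecidablePred Q] : PM16 K (bF K B r F κ) a e x Q ≤ (1 + κ) * PM16 K B a e x Q := by
  unfold PM16
  rw [mul_sum]
  refine sum_le_sum fun z _ => ?_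
  have h1 := mul_le_mul_of_nonneg_left (bF_le S her hr F κ z) (S.k0 a e x z)
  linarith

/-- The mass from an earlier place is at least the kernel times the mass of the later place. -/
theorem PM_ge (S : Sys16 K B N) {a b r : ℕ} (hab : a ≤ b) (hbr : b ≤ r) (hr : r ≤ N) (x z : ℤ) (F : ℤ → Prop) [DecidablePred F] :
    K a b x z * PM16 K B b r z F ≤ PM16 K B a r x F := by
  by_cases hz : x ≤ z ∧ z ≤ x + ((b - a : ℕ) : ℤ)
  · rw [PM16_comp S hab hbr x F]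
    exact single_le_sum (f := fun z => K a b x z * PM16 K B b r z F)
      (fun z _ => mul_nonneg (S.k0 _ _ _ _) (PM16_nonneg S hr z F)) (mem_Icc.2 hz)
  · rw [S.out a b x z hab hz, zero_mul]
    exact PM16_nonneg S hr x F

end Sys

/-! ### TAME for any backward masses -/

variable {μ : Measure ℝ} {s : ℝ} [IsProbabilityMeasure μ] {c C : ℝ} {n₀ : ℕ}

/-- The kernels of the model. -/
abbrev nkK (μ : Measure ℝ) (s h : ℝ) (η : Env) (p : ℕ → ℝ) (M : ℕ) : ℕ → ℕ → ℤ → ℤ → ℝ := fun a b x z => nk μ s h η p M a (b - a) x z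

/-- **TAME OF THE MODEL, ANY BACKWARD MASSES.** -/
theorem tame_modelG (h0 : In μ s c C n₀) (P : ℕ) {K θ : ℝ} (hK : 3 ≤ K) (hθ : 0 < θ) : ∃ n₁ : ℕ, 1 ≤ n₁ ∧
    ∀ q R : ℝ, 0 ≤ q → 0 ≤ R → 2 * R ≤ K - 2 → ∃ Q' : ℝ, 0 < Q' ∧
    ∀ {h : ℝ} {n N₁ N₂ M N : ℕ} {b₁ b₂ κ : Pt} {η : Env} {p : ℕ → ℝ}, n₁ ≤ n → N₁ ≤ n → N₂ ≤ n →
      |h| * wd μ s n ≤ c / 8 * EE μ s n → (∀ k, k < M → p k = Real.exp (s + h)) → (∀ k, M ≤ k → p k = Real.exp s) →
      η ∈ Far16 μ s c θ K n N₁ P b₁ q → η ∈ Far16 μ s c θ K n N₂ P b₂ q → |lat16 μ s κ b₁| ≤ wd μ s n → |lat16 μ s κ b₂| ≤ wd μ s n →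
      ∀ {a b c' d : ℕ}, b₁.1 ≤ a → a ≤ b → b ≤ c' → (c' : ℤ) ≤ b₁.1 + N₁ → b₂.1 ≤ b → c' ≤ d → (d : ℤ) ≤ b₂.1 + N₂ → d ≤ N →
      θ * n ≤ ((b - a : ℕ) : ℝ) → θ * n ≤ ((d - c' : ℕ) : ℝ) → ∀ {x : ℤ}, |lat16 μ s κ ((a : ℤ), x)| ≤ R * wd μ s n →
      (∀ {B : ℕ → ℤ → ℝ}, Sys16 (nkK μ s h η p M) B N →
        PM16 (nkK μ s h η p M) B a d x (fun z => ¬ |lat16 μ s κ ((d : ℤ), z)| ≤ R * wd μ s n) ≤ 1 / 2 * B a x →
        (∀ (k k' : ℕ) (y y' : ℤ), b ≤ k → k ≤ c' → b ≤ k' → k' ≤ c' → |lat16 μ s κ ((k : ℤ), y)| ≤ R * wd μ s n →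
          |lat16 μ s κ ((k' : ℤ), y')| ≤ R * wd μ s n → B k' y' ≤ Real.exp (Q' * EE μ s n) * B k y) ∧
        (∀ (k : ℕ) (y : ℤ), b ≤ k → k ≤ c' → |lat16 μ s κ ((k : ℤ), y)| ≤ R * wd μ s n → B a x ≤ Real.exp (Q' * EE μ s n) * B k y)) ∧
      (∀ (k : ℕ) (y : ℤ), b ≤ k → k ≤ c' → |lat16 μ s κ ((k : ℤ), y)| ≤ R * wd μ s n →
        Real.exp (-(Q' * EE μ s n)) ≤ nkK μ s h η p M a k x y) := by
  obtain ⟨C₇, hC₇, n₁, hn₁, H1⟩ := nk_low16 h0 P hK hθ
  obtain ⟨C₅, hC₅, n₂, hn₂, H2⟩ := far_up h0 P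
  obtain ⟨n₃, hn₃⟩ := eventually_atTop.1 ((wd_tendsto h0).eventually_ge_atTop 1)
  refine ⟨max n₁ (max n₂ n₃), hn₁.trans (le_max_left _ _), fun q R hq hR hRK => ?_⟩
  obtain ⟨Q, hQ⟩ : ∃ Q : ℝ, Q = 2 * ((1 + q) ^ 2 * gr (2 * P) 2) := ⟨_, rfl⟩
  obtain ⟨A, hA⟩ : ∃ A : ℝ, A = LQ (2 * P) (c / 8) (C₅ * Q) * gr (2 * P) R + Q := ⟨_, rfl⟩
  obtain ⟨L, hL⟩ : ∃ L : ℝ, L = C₇ * (1 + q) ^ 2 * fq16 (2 * P) (R + 2) := ⟨_, rfl⟩
  have hgr2 := gr_nonneg (2 * P) (show (0 : ℝ) ≤ 2 by norm_num)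
  have hQ0 : 0 ≤ Q := by rw [hQ]; positivity
  have hA0 : 0 ≤ A := by
    rw [hA]
    have g1 := LQ_nonneg (2 * P) (c₁ := c / 8) (show 0 ≤ C₅ * Q by positivity)
    have g2 := gr_nonneg (2 * P) hR
    positivity
  have hL0 : 0 ≤ L := by
    rw [hL]
    have := fq16_one (2 * P) (R + 2)
    positivity
  refine ⟨1 + L + A + L, by positivity, ?_⟩
  intro h n N₁ N₂ M N b₁ b₂ κ η p hn hN₁ hN₂ hh hp hp' hη₁ hη₂ hκ₁ hκ₂ a b c' d hba hab hbc hcb hb₂ hcd hdb hdN hθ₁ hθ₂ x hx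
  have hn1 : n₁ ≤ n := (le_max_left _ _).trans hn
  have hn2 : n₂ ≤ n := ((le_max_left _ _).trans (le_max_right _ _)).trans hn
  have hw : 1 ≤ wd μ s n := hn₃ n (((le_max_right _ _).trans (le_max_right _ _)).trans hn)
  have hw0 : 0 < wd μ s n := by linarith
  have hE := EE_pos (μ := μ) (s := s) n
  have hE1 := one_le_EE (μ := μ) (s := s) n
  have hc0 := h0.c0
  have hh4 : |h| * wd μ s n ≤ c / 4 * EE μ s n := by nlinarith
  -- the upper level
  have hup : ∀ z : ℤ, nk μ s h η p M a (d - a) x z ≤ Real.exp (A * EE μ s n) := by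
    intro z
    have hS : Slabs μ s c θ K h P η κ (fun u => if u = 0 then a else if u = 1 then c' else d) (fun _ => n)
        (fun u => if u = 0 then N₁ else N₂) (fun _ => q) (fun u => if u = 0 then b₁ else b₂) 0 2 n n₂ Q := by
      refine ⟨fun _ _ _ => hq, hK, hn2, fun _ _ _ => hn2, fun _ _ _ => le_rfl, fun u _ _ => ?_, fun u _ hu => ?_, fun u _ hu => ?_,
        fun u _ hu => ?_, fun u _ _ => ?_, fun u _ _ => ?_, ?_, hh⟩
      · split_ifs <;> assumption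
      · interval_cases u <;> simp <;> omega
      · interval_cases u <;> simp <;> omega
      · interval_cases u <;> simp <;> omega
      · split_ifs <;> assumption
      · split_ifs <;> assumption
      · rw [mul_div_assoc, div_self hw0.ne', mul_one, sum_const, Nat.card_Ico, nsmul_eq_mul, hQ]
        push_cast
        refine le_of_eq ?_
        ring
    have g1 := H2 (by norm_num) hp hp' hS x z
    simp only [if_true] at g1
    refine g1.trans (Real.exp_le_exp.2 ?_)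
    have e2 : lt μ s κ (fun u => if u = 0 then a else if u = 1 then c' else d) 0 x = lat16 μ s κ ((a : ℤ), x) := by
      unfold lt
      simp
    rw [e2]
    have g2 : gr (2 * P) (|lat16 μ s κ ((a : ℤ), x)| / wd μ s n) ≤ gr (2 * P) R := gr_mono _ (by positivity) (by rwa [div_le_iff₀ hw0])
    have g3 := LQ_nonneg (2 * P) (c₁ := c / 8) (show 0 ≤ C₅ * Q by positivity)
    have g4 := mul_le_mul_of_nonneg_right (mul_le_mul_of_nonneg_left g2 g3) hE.le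
    have g5 := hc_nonneg h0 n
    have g6 : 0 ≤ hc μ s c n / 8 * |((z - x : ℤ) : ℝ) - sl μ s * (((if (2 : ℕ) = 0 then a else if (2 : ℕ) = 1 then c' else d) - a : ℕ) : ℝ)| := by
      positivity
    rw [hA]
    nlinarith
  -- the lower level from the start
  have hlow : ∀ (k : ℕ) (y : ℤ), b ≤ k → k ≤ c' → |lat16 μ s κ ((k : ℤ), y)| ≤ R * wd μ s n →
      Real.exp (-(L * EE μ s n)) ≤ nkK μ s h η p M a k x y := by
    intro k y hk1 hk2 hy
    have g1 : θ * n ≤ ((k - a : ℕ) : ℝ) := hθ₁.trans (by exact_mod_cast (by omega : b - a ≤ k - a))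
    have g2 := H1 (q := q) (h := h) (R := R) hn1 hN₁ hq hη₁ hh4 hp hp' hR hRK hκ₁ a k x y hba (hab.trans hk1)
      (by omega) g1 hx hy
    rw [hL]
    exact g2
  -- the lower level to the end
  have hlow2 : ∀ (k : ℕ) (y z : ℤ), b ≤ k → k ≤ c' → |lat16 μ s κ ((k : ℤ), y)| ≤ R * wd μ s n → |lat16 μ s κ ((d : ℤ), z)| ≤ R * wd μ s n →
      Real.exp (-(L * EE μ s n)) ≤ nkK μ s h η p M k d y z := by
    intro k y z hk1 hk2 hy hz
    have g1 : θ * n ≤ ((d - k : ℕ) : ℝ) := hθ₂.trans (by exact_mod_cast (by omega : d - c' ≤ d - k))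
    have g2 := H1 (q := q) (h := h) (R := R) hn1 hN₂ hq hη₂ hh4 hp hp' hR hRK hκ₂ k d y z (by omega) (hk2.trans hcd)
      hdb g1 hy hz
    rw [hL]
    exact g2
  have hd : a ≤ d := hab.trans (hbc.trans hcd)
  have two : (2 : ℝ) ≤ Real.exp 1 := by
    have := Real.add_one_le_exp (1 : ℝ)
    linarith
  have LE0 : 0 ≤ L * EE μ s n := mul_nonneg hL0 hE.le
  have AE0 : 0 ≤ A * EE μ s n := mul_nonneg hA0 hE.le
  have fin : ∀ A1 : ℝ, A1 ≤ L * EE μ s n → 2 * Real.exp (A1 + A * EE μ s n + L * EE μ s n) ≤ Real.exp ((1 + L + A + L) * EE μ s n) := by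
    intro A1 hA1
    calc 2 * Real.exp (A1 + A * EE μ s n + L * EE μ s n) ≤ Real.exp 1 * Real.exp (A1 + A * EE μ s n + L * EE μ s n) :=
          mul_le_mul_of_nonneg_right two (Real.exp_pos _).le
      _ = Real.exp (1 + (A1 + A * EE μ s n + L * EE μ s n)) := by rw [← Real.exp_add]
      _ ≤ _ := Real.exp_le_exp.2 (by nlinarith)
  refine ⟨fun {B} S harm => ⟨?_, ?_⟩, ?_⟩
  · intro k k' y y' hk1 hk2 hk1' hk2' hy hy'
    have key := tame16 S (a := a) (b := k) (b' := k') (e := d) (hab.trans hk1) (hab.trans hk1') (hk2.trans hcd) (hk2'.trans hcd) hdN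
      (x := x) (y := y) (y' := y') (Z := fun z => |lat16 μ s κ ((d : ℤ), z)| ≤ R * wd μ s n) (A1 := L * EE μ s n) (A2 := A * EE μ s n)
      (A3 := L * EE μ s n) harm (hlow k' y' hk1' hk2' hy') (fun z _ _ _ => hup z) (fun z _ _ hz => hlow2 k y z hk1 hk2 hy hz)
    exact key.trans (mul_le_mul_of_nonneg_right (fin _ le_rfl) (S.b0 k y (hk2.trans (hcd.trans hdN))).le)
  · intro k y hk1 hk2 hy
    have key := tame16 S (a := a) (b := k) (b' := a) (e := d) (hab.trans hk1) le_rfl (hk2.trans hcd) hd hdN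
      (x := x) (y := y) (y' := x) (Z := fun z => |lat16 μ s κ ((d : ℤ), z)| ≤ R * wd μ s n) (A1 := 0) (A2 := A * EE μ s n)
      (A3 := L * EE μ s n) harm (by rw [neg_zero, Real.exp_zero, S.one]) (fun z _ _ _ => hup z)
      (fun z _ _ hz => hlow2 k y z hk1 hk2 hy hz)
    exact key.trans (mul_le_mul_of_nonneg_right (fin _ LE0) (S.b0 k y (hk2.trans (hcd.trans hdN))).le)
  · intro k y hk1 hk2 hy
    refine le_trans (Real.exp_le_exp.2 ?_) (hlow k y hk1 hk2 hy)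
    nlinarith

end

end Pool.Agent.W_7d29a1_C1.PB94
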