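import Pool.Agent.W_7d29a1_C1.ProfA94

/-!
MP_7d29a1_pr, [C1] SEP, the far future as another profile (helper37 83221 (B)), part B. (helper94)

**`prof94`** (deterministic, any system `Sys16 K B N`): `F` a set of places of the row `r ≤ N`; window `Wd`; start `(a, x)`; TAME and the arms hold
for EVERY backward masses of the kernels with the end row `r` (`hT`, `harm`); top boundary of the arms at the row `e ≤ r` for the TRUE masses `B`;
some place `(k₀, y₀)` of the window has `P(F) ≥ exp (-H)`. Then the masses through `F` are tame in the window.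
**`dich94`**: the dichotomy.
-/

set_option autoImplicit false

namespace Pool.Agent.W_7d29a1_C1.PB94

open Filter Topology Finset
open Pool.Agent.W_7d29a1_C1.U16

noncomputable section

variable {K : ℕ → ℕ → ℤ → ℤ → ℝ} {B : ℕ → ℤ → ℝ} {N : ℕ}

/-- The limit of the profiles `(1_F + κ) B`. -/
theorem lim_bF {r : ℕ} {F : ℤ → Prop} [DecidablePred F] {k k' : ℕ} {y y' : ℤ} {A : ℝ}
    (h : ∀ κ : ℝ, 0 < κ → κ ≤ 1 → bF K B r F κ k' y' ≤ A * bF K B r F κ k y) :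
    PM16 K B k' r y' F ≤ A * PM16 K B k r y F := by
  have h1 : Tendsto (fun κ : ℝ => bF K B r F κ k' y') (𝓝[>] 0) (𝓝 (PM16 K B k' r y' F + 0 * B k' y')) := by
    unfold bF
    exact tendsto_const_nhds.add ((tendsto_id.mono_left nhdsWithin_le_nhds).mul_const _)
  have h2 : Tendsto (fun κ : ℝ => A * bF K B r F κ k y) (𝓝[>] 0) (𝓝 (A * (PM16 K B k r y F + 0 * B k y))) := by
    unfold bF
    exact (tendsto_const_nhds.add ((tendsto_id.mono_left nhdsWithin_le_nhds).mul_const _)).const_mul _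
  have h3 := le_of_tendsto_of_tendsto h1 h2 (by
    filter_upwards [Ioo_mem_nhdsGT (show (0 : ℝ) < 1 by norm_num)] with κ hκ
    exact h κ hκ.1 hκ.2.le)
  rwa [zero_mul, add_zero, zero_mul, add_zero] at h3

/-- **THE PROFILE `1_F B` IS TAME** as soon as one place of the window sees `F`. -/
theorem prof94 (S : Sys16 K B N) {a d e r : ℕ} (_hae : a ≤ e) (her : e ≤ r) (hr : r ≤ N) {F : ℤ → Prop} [DecidablePred F] {x : ℤ}
    {Wd : ℕ → ℤ → Prop} {Fd Fe : ℤ → Prop} [DecidablePred Fd] [DecidablePred Fe] {Q H Tm e₁ G : ℝ} (hTm : 0 ≤ Tm)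
    (hT : ∀ B' : ℕ → ℤ → ℝ, Sys16 K B' r → PM16 K B' a d x Fd ≤ 1 / 2 * B' a x →
      ∀ (k k' : ℕ) (y y' : ℤ), Wd k y → Wd k' y' → B' k' y' ≤ Real.exp Q * B' k y)
    (harm : ∀ B' : ℕ → ℤ → ℝ, Sys16 K B' r → PM16 K B' a d x Fd ≤ 2 * Tm * (2 * e₁ * B' a x + PM16 K B' a e x Fe))
    (htop : PM16 K B a e x Fe ≤ Real.exp (-G) * B a x)
    {k₀ : ℕ} {y₀ : ℤ} (hak : a ≤ k₀) (hkr : k₀ ≤ r) (hst : B a x ≤ Real.exp Q * B k₀ y₀) (hlow : Real.exp (-Q) ≤ K a k₀ x y₀)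
    (hB : Real.exp (-H) * B k₀ y₀ ≤ PM16 K B k₀ r y₀ F)
    (n1 : 16 * (Tm * e₁) ≤ 1) (n2 : 16 * (Tm * Real.exp (-G)) ≤ Real.exp (-(2 * Q + H))) :
    ∀ (k k' : ℕ) (y y' : ℤ), Wd k y → Wd k' y' → PM16 K B k' r y' F ≤ Real.exp Q * PM16 K B k r y F := by
  intro k k' y y' hy hy'
  refine lim_bF fun κ hκ hκ1 => ?_
  have S' := sys_bF S hr F hκ
  refine hT _ S' ?_ k k' y y' hy hy'
  have hax := S.b0 a x (hak.trans (hkr.trans hr))
  have hax' := S'.b0 a x (hak.trans hkr)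
  -- the mass of `F` seen from the start
  have g1 : Real.exp (-(2 * Q + H)) * B a x ≤ PM16 K B a r x F := by
    have h1 := PM_ge S hak hkr hr x y₀ F
    have h2 : Real.exp (-Q) * PM16 K B k₀ r y₀ F ≤ K a k₀ x y₀ * PM16 K B k₀ r y₀ F :=
      mul_le_mul_of_nonneg_right hlow (PM16_nonneg S hr y₀ F)
    have h3 := mul_le_mul_of_nonneg_left hB (Real.exp_pos (-Q)).le
    have h4 := mul_le_mul_of_nonneg_left hst (Real.exp_pos (-(2 * Q + H))).le
    have e1 : Real.exp (-(2 * Q + H)) * (Real.exp Q * B k₀ y₀) = Real.exp (-Q) * (Real.exp (-H) * B k₀ y₀) := by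
      rw [← mul_assoc, ← mul_assoc, ← Real.exp_add, ← Real.exp_add]
      congr 2
      ring
    linarith
  have g2 : Real.exp (-(2 * Q + H)) * B a x ≤ bF K B r F κ a x := by
    unfold bF
    have : 0 ≤ κ * B a x := by positivity
    linarith
  have g3 := harm _ S'
  have g4 := PM_bF_le S (a := a) her hr F κ x Fe
  have g5 : (1 + κ) * PM16 K B a e x Fe ≤ 2 * (Real.exp (-G) * B a x) := by
    have h0 := PM16_nonneg S (a := a) (her.trans hr) x Fe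
    calc (1 + κ) * PM16 K B a e x Fe ≤ 2 * PM16 K B a e x Fe := mul_le_mul_of_nonneg_right (by linarith) h0
      _ ≤ _ := mul_le_mul_of_nonneg_left htop (by norm_num)
  have g6 : 16 * (Tm * Real.exp (-G)) * B a x ≤ Real.exp (-(2 * Q + H)) * B a x := mul_le_mul_of_nonneg_right n2 hax.le
  have g7 : 16 * (Tm * e₁) * bF K B r F κ a x ≤ 1 * bF K B r F κ a x := mul_le_mul_of_nonneg_right n1 hax'.le
  have g8 : 2 * Tm * PM16 K (bF K B r F κ) a e x Fe ≤ 2 * Tm * (2 * (Real.exp (-G) * B a x)) :=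
    mul_le_mul_of_nonneg_left (g4.trans g5) (by positivity)
  obtain ⟨b', hb'⟩ : ∃ b', b' = bF K B r F κ a x := ⟨_, rfl⟩
  rw [← hb'] at g2 g3 g7 ⊢
  have e2 : 2 * Tm * (2 * (Real.exp (-G) * B a x)) = 4 * (Tm * Real.exp (-G) * B a x) := by ring
  have e3 : 16 * (Tm * Real.exp (-G)) * B a x = 16 * (Tm * Real.exp (-G) * B a x) := by ring
  have e4 : 2 * Tm * (2 * e₁ * b' + PM16 K (bF K B r F κ) a e x Fe) = 4 * (Tm * e₁ * b') + 2 * Tm * PM16 K (bF K B r F κ) a e x Fe := by ring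
  have e5 : 16 * (Tm * e₁) * b' = 16 * (Tm * e₁ * b') := by ring
  rw [e4] at g3
  rw [e2] at g8
  rw [e3] at g6
  rw [e5] at g7
  linarith

/-- **THE DICHOTOMY**: no place of the window sees `F`, or the masses through `F` are tame in the window. -/
theorem dich94 (S : Sys16 K B N) {a d e r : ℕ} (hae : a ≤ e) (her : e ≤ r) (hr : r ≤ N) {F : ℤ → Prop} [DecidablePred F] {x : ℤ}
    {Wd : ℕ → ℤ → Prop} {Fd Fe : ℤ → Prop} [DecidablePred Fd] [DecidablePred Fe] {Q H Tm e₁ G : ℝ} (hTm : 0 ≤ Tm)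
    (hT : ∀ B' : ℕ → ℤ → ℝ, Sys16 K B' r → PM16 K B' a d x Fd ≤ 1 / 2 * B' a x →
      ∀ (k k' : ℕ) (y y' : ℤ), Wd k y → Wd k' y' → B' k' y' ≤ Real.exp Q * B' k y)
    (harm : ∀ B' : ℕ → ℤ → ℝ, Sys16 K B' r → PM16 K B' a d x Fd ≤ 2 * Tm * (2 * e₁ * B' a x + PM16 K B' a e x Fe))
    (htop : PM16 K B a e x Fe ≤ Real.exp (-G) * B a x)
    (hW : ∀ k y, Wd k y → a ≤ k ∧ k ≤ r ∧ B a x ≤ Real.exp Q * B k y ∧ Real.exp (-Q) ≤ K a k x y)
    (n1 : 16 * (Tm * e₁) ≤ 1) (n2 : 16 * (Tm * Real.exp (-G)) ≤ Real.exp (-(2 * Q + H))) :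
    (∀ k y, Wd k y → PM16 K B k r y F ≤ Real.exp (-H) * B k y) ∨
      ∀ (k k' : ℕ) (y y' : ℤ), Wd k y → Wd k' y' → PM16 K B k' r y' F ≤ Real.exp Q * PM16 K B k r y F := by
  by_cases hc : ∀ k y, Wd k y → PM16 K B k r y F ≤ Real.exp (-H) * B k y
  · exact Or.inl hc
  · push Not at hc
    obtain ⟨k₀, y₀, hW₀, hlt⟩ := hc
    obtain ⟨h1, h2, h3, h4⟩ := hW k₀ y₀ hW₀
    exact Or.inr (prof94 S hae her hr hTm hT harm htop h1 h2 h3 h4 hlt.le n1 n2)

end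

end Pool.Agent.W_7d29a1_C1.PB94
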