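import Pool.Agent.W_7d29a1_C1.EnC83
import Pool.Agent.W_7d29a1_C1.FrL47

/-!
MP_7d29a1_pr, [C1], SHELL: `Psh` FROM THE TWO LANES OF THE BUFFER. (helper83)

Rows `c0` (cells `C₁`, `C₂`, lateral `ℓ₀`), `c0'` (cells `D₁`, `D₂`, lateral `ℓ₁`), `c3` (`ℓ₂`). `N` = normalised kernel `c0 → c0'`
(`n` rows), `K x y = Cs α x N x y β y` the real one; `kap` = envelope `c0' → c3` (`m` rows), `kap0` = envelope `c0 → c3`.

* `MF83` : pointwise facts of the lanes; `psh_mf83` : `MF83` + composition (`comp0`) + `Φ₀` at the cells of `c0` `⇒ Psh` with the joint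
  slopes; the constants of the tune do not contain `Φ₀`;
* `comp0_83` : the composition for all starts from the gr envelopes; `KM_nk83` : `KM47 = Cs wt nk / wt`.
-/

set_option autoImplicit false

namespace Pool.Agent.W_7d29a1_C1.S83

open Finset
open Pool.Agent.W_7d29a1_F (Env)
open Pool.Agent.W_7d29a1_C1.K91 (wt wt_pos)
open Pool.Agent.W_7d29a1_C1.FarK89 (gr gr_nonneg gr_one_le gr_mono AQ AQ_nonneg LQ LQ_nonneg)
open Pool.Agent.W_7d29a1_C1.FarW89 (nk nk_nonneg nk_eq_zero ker_nk)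
open Pool.Agent.W_7d29a1_C1.D31
open Pool.Agent.W_7d29a1_C1.S12 (st12 Lam12 Lam12_pos)
open Pool.Agent.W_7d29a1_C1.Fr47

noncomputable section

/-- **The lanes of the buffer, pointwise.** -/
structure MF83 (J C₁ C₂ D₁ D₂ : Finset ℤ) (N : ℤ → ℤ → ℝ) (ℓ₁ : ℤ → ℝ) (t₁ t₂ : ℤ) (E w A ell g be : ℝ) (n : ℕ) : Prop where
  N0 : ∀ x y, 0 ≤ N x y
  Nz : ∀ x y : ℤ, ¬ (x ≤ y ∧ y ≤ x + n) → N x y = 0
  t1 : t₁ ∈ D₁
  t2 : t₂ ∈ D₂
  low1 : ∀ x ∈ C₁, Real.exp (-(ell * E)) * A ≤ N x t₁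
  low2 : ∀ x ∈ C₂, Real.exp (-(ell * E)) * A ≤ N x t₂
  up1 : ∀ x ∈ C₁, ∀ y ∈ D₁, N x y ≤ Real.exp (ell * E) * A
  up2 : ∀ x ∈ C₂, ∀ y ∈ D₂, N x y ≤ Real.exp (ell * E) * A
  off1 : ∀ x ∈ C₁, ∀ y ∈ J, y ∉ D₁ → N x y ≤ Real.exp ((-g - be * (|ℓ₁ y| / w)) * E) * A
  off2 : ∀ x ∈ C₂, ∀ y ∈ J, y ∉ D₂ → N x y ≤ Real.exp ((-g - be * (|ℓ₁ y| / w)) * E) * A

theorem MF83.symm {J C₁ C₂ D₁ D₂ : Finset ℤ} {N : ℤ → ℤ → ℝ} {ℓ₁ : ℤ → ℝ} {t₁ t₂ : ℤ} {E w A ell g be : ℝ} {n : ℕ}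
    (h : MF83 J C₁ C₂ D₁ D₂ N ℓ₁ t₁ t₂ E w A ell g be n) : MF83 J C₂ C₁ D₂ D₁ N ℓ₁ t₂ t₁ E w A ell g be n :=
  ⟨h.N0, h.Nz, h.t2, h.t1, h.low2, h.low1, h.up2, h.up1, h.off2, h.off1⟩

/-- Single weights of a row: on the cells at most `exp (u E)` off one, everywhere of log growth. -/
structure Ws83 (C : Finset ℤ) (α : ℤ → ℝ) (ℓ : ℤ → ℝ) (E w u b : ℝ) : Prop where
  pos : ∀ x, 0 < α x
  low : ∀ x ∈ C, Real.exp (-(u * E)) ≤ α x
  up : ∀ x ∈ C, α x ≤ Real.exp (u * E)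
  all : ∀ x, α x ≤ Real.exp ((u + b * (|ℓ x| / w)) * E)

section det

variable {P : ℕ} {J C₁ C₂ D₁ D₂ C D U I : Finset ℤ} {N K kap kap0 : ℤ → ℤ → ℝ} {α β G ℓ₀ ℓ₁ ℓ₂ : ℤ → ℝ} {t₁ t₂ z₀ : ℤ} {n m : ℕ}
  {E w A Cs ell g be be' u b σ κ c0 c1 Q1 Λ CC Φ₀ G₀ V mm L Lk Mh ε : ℝ}

/-- The rest of a lane against the joint slope. -/
theorem of_83 (hE : 0 < E) (hw : 0 < w) (h : MF83 J C₁ C₂ D₁ D₂ N ℓ₁ t₁ t₂ E w A ell g be n) (hA : 0 < A) (hCs : 0 < Cs)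
    (hα : Ws83 C α ℓ₀ E w u b) (hβ : Ws83 D β ℓ₁ E w u b) (hK : ∀ x y, K x y = Cs * (α x * (N x y * β y))) (hC : C₁ ⊆ C)
    (hc0 : 0 ≤ c0) (hc01 : c0 ≤ c1) (hbe : b + be' ≤ be) (hΛ : ∀ x ∈ C₁, |ℓ₀ x| ≤ Λ * w)
    (hCC : ∀ d : ℝ, 0 ≤ d → Q1 * gr P d + c0 * d ≤ CC + be' * d)
    (hsum : ∑ y ∈ J, Real.exp (-((be - b - be') * (E / w) * |ℓ₁ y|)) ≤ Real.exp (σ * E))
    (kapz : ∀ y z : ℤ, ¬ (y ≤ z ∧ z ≤ y + m) → kap y z = 0)
    (kapu : ∀ y z, kap y z ≤ Real.exp (Q1 * gr P (|ℓ₁ y| / w) * E - c1 * (E / w) * |ℓ₂ z - ℓ₁ y|))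
    (k00 : ∀ x z, 0 ≤ kap0 x z)
    (k0l : ∀ x z : ℤ, x ≤ z → z ≤ x + (n + m : ℕ) → Real.exp (-(c0 * (E / w) * |ℓ₂ z - ℓ₀ x|)) ≤ kap0 x z)
    (hG : ∀ z, 0 ≤ G z) (hG₀ : 0 < G₀) (hΦ : ∀ x ∈ C₁, ∑ z ∈ U, kap0 x z * G z ≤ Φ₀ * G₀)
    (hε : Real.exp ((CC + c0 * Λ + 2 * u + σ - g) * E) * Φ₀ ≤ ε) :
    ∀ x ∈ C₁, ∑ y ∈ J \ (D₁ ∪ D₂), K x y * jph U kap G G₀ y ≤ ε * (Cs * A) := by
  intro x hx
  have hN0 := h.N0
  have hα0 := hα.pos x
  have K0 : ∀ y, 0 ≤ K x y := fun y => by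
    rw [hK]
    have h1 := h.N0 x y
    have h2 := hβ.pos y
    positivity
  obtain ⟨X, hX⟩ : ∃ X : Finset ℤ, X = J \ (D₁ ∪ D₂) := ⟨_, rfl⟩
  -- the sum with a slope
  have hs : ∑ y ∈ X, K x y * Real.exp (be' * (|ℓ₁ y| / w) * E) ≤ Real.exp (-((g - 2 * u - σ) * E)) * (Cs * A) := by
    have pt : ∀ y ∈ X, K x y * Real.exp (be' * (|ℓ₁ y| / w) * E) ≤
        Cs * A * Real.exp ((2 * u - g) * E) * Real.exp (-((be - b - be') * (E / w) * |ℓ₁ y|)) := by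
      intro y hy
      rw [hX, mem_sdiff, mem_union, not_or] at hy
      have f1 := h.off1 x hx y hy.1 hy.2.1
      have f2 := hα.up x (hC hx)
      have f3 := hβ.all y
      have f4 := h.N0 x y
      have f5 := (hβ.pos y).le
      have f6 : N x y * β y ≤ Real.exp ((-g - be * (|ℓ₁ y| / w)) * E) * A * Real.exp ((u + b * (|ℓ₁ y| / w)) * E) :=
        mul_le_mul f1 f3 f5 (by positivity)
      have f7 : α x * (N x y * β y) ≤ Real.exp (u * E) * (Real.exp ((-g - be * (|ℓ₁ y| / w)) * E) * A *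
          Real.exp ((u + b * (|ℓ₁ y| / w)) * E)) := mul_le_mul f2 f6 (mul_nonneg f4 f5) (Real.exp_pos _).le
      rw [hK]
      refine (mul_le_mul_of_nonneg_right (mul_le_mul_of_nonneg_left f7 hCs.le) (Real.exp_pos _).le).trans (le_of_eq ?_)
      have e1 : Cs * (Real.exp (u * E) * (Real.exp ((-g - be * (|ℓ₁ y| / w)) * E) * A * Real.exp ((u + b * (|ℓ₁ y| / w)) * E))) *
          Real.exp (be' * (|ℓ₁ y| / w) * E) = Cs * A * (Real.exp (u * E) * Real.exp ((-g - be * (|ℓ₁ y| / w)) * E) *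
          Real.exp ((u + b * (|ℓ₁ y| / w)) * E) * Real.exp (be' * (|ℓ₁ y| / w) * E)) := by ring
      rw [e1, mul_assoc (Cs * A), ← Real.exp_add, ← Real.exp_add, ← Real.exp_add, ← Real.exp_add]
      congr 2
      field_simp
      ring
    refine (sum_le_sum pt).trans ?_
    rw [← mul_sum]
    have s1 : ∑ y ∈ X, Real.exp (-((be - b - be') * (E / w) * |ℓ₁ y|)) ≤ Real.exp (σ * E) :=
      (sum_le_sum_of_subset_of_nonneg (by rw [hX]; exact sdiff_subset) fun _ _ _ => (Real.exp_pos _).le).trans hsum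
    refine (mul_le_mul_of_nonneg_left s1 (by positivity)).trans (le_of_eq ?_)
    rw [mul_assoc, ← Real.exp_add, mul_comm]
    congr 2
    ring
  -- pointwise in the far end
  have key : ∀ z, ∑ y ∈ X, K x y * kap y z ≤ Real.exp ((CC + c0 * Λ + 2 * u + σ - g) * E) * (Cs * A) * kap0 x z := by
    intro z
    by_cases hr : x ≤ z ∧ z ≤ x + (n + m : ℕ)
    · have g1 := exk83 (P := P) (Q1 := Q1) (c1 := c1) (ℓ := ℓ₁) (ℓ' := ℓ₂) (ℓ₀ := ℓ₀) (a := x) (Λ := Λ) (C₁ := CC) hE hw K0 hc0 hc01 (hΛ x hx)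
        hCC hs z
      refine (sum_le_sum fun y _ => mul_le_mul_of_nonneg_left (kapu y z) (K0 y)).trans (g1.trans ?_)
      have e1 : CC + c0 * Λ - (g - 2 * u - σ) = CC + c0 * Λ + 2 * u + σ - g := by ring
      rw [e1]
      exact mul_le_mul_of_nonneg_left (k0l x z hr.1 hr.2) (by positivity)
    · have e1 : ∑ y ∈ X, K x y * kap y z = 0 := by
        refine sum_eq_zero fun y _ => ?_
        by_cases h2 : x ≤ y ∧ y ≤ x + n
        · rw [kapz y z (fun h3 => hr ⟨by omega, by push_cast; omega⟩), mul_zero]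
        · rw [hK, h.Nz x y h2]
          ring
      rw [e1]
      exact mul_nonneg (by positivity) (k00 x z)
  have e2 : ∑ y ∈ X, K x y * jph U kap G G₀ y = (∑ z ∈ U, (∑ y ∈ X, K x y * kap y z) * G z) / G₀ := by
    unfold jph
    rw [eq_div_iff hG₀.ne', sum_mul]
    calc ∑ y ∈ X, K x y * ((∑ z ∈ U, kap y z * G z) / G₀) * G₀ = ∑ y ∈ X, ∑ z ∈ U, K x y * kap y z * G z := by
          refine sum_congr rfl fun y _ => ?_
          rw [mul_assoc, div_mul_cancel₀ _ hG₀.ne', mul_sum]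
          exact sum_congr rfl fun z _ => by ring
      _ = ∑ z ∈ U, ∑ y ∈ X, K x y * kap y z * G z := sum_comm
      _ = _ := sum_congr rfl fun z _ => by rw [sum_mul]
  rw [← hX, e2, div_le_iff₀ hG₀]
  calc ∑ z ∈ U, (∑ y ∈ X, K x y * kap y z) * G z ≤
        ∑ z ∈ U, Real.exp ((CC + c0 * Λ + 2 * u + σ - g) * E) * (Cs * A) * kap0 x z * G z :=
        sum_le_sum fun z _ => mul_le_mul_of_nonneg_right (key z) (hG z)
    _ = Real.exp ((CC + c0 * Λ + 2 * u + σ - g) * E) * (Cs * A) * ∑ z ∈ U, kap0 x z * G z := by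
        rw [mul_sum]
        exact sum_congr rfl fun z _ => by ring
    _ ≤ Real.exp ((CC + c0 * Λ + 2 * u + σ - g) * E) * (Cs * A) * (Φ₀ * G₀) := mul_le_mul_of_nonneg_left (hΦ x hx) (by positivity)
    _ = Real.exp ((CC + c0 * Λ + 2 * u + σ - g) * E) * Φ₀ * (Cs * A) * G₀ := by ring
    _ ≤ ε * (Cs * A) * G₀ := mul_le_mul_of_nonneg_right (mul_le_mul_of_nonneg_right hε (by positivity)) hG₀.le

/-- One lane: lower bound, upper bound, the other cell. -/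
theorem lane_83 (hE : 0 < E) (h : MF83 J C₁ C₂ D₁ D₂ N ℓ₁ t₁ t₂ E w A ell g be n) (hw : 0 < w) (hbe0 : 0 ≤ be) (hA : 0 < A) (hCs : 0 < Cs)
    (hα : Ws83 C α ℓ₀ E w u b) (hβ : Ws83 D β ℓ₁ E w u b) (hK : ∀ x y, K x y = Cs * (α x * (N x y * β y))) (hC : C₁ ⊆ C)
    (hD1 : D₁ ⊆ D) (hD2 : D₂ ⊆ D) (hDJ : D₂ ⊆ J) (hdD : Disjoint D₁ D₂) (hc1 : (D₁.card : ℝ) ≤ Real.exp (κ * E))
    (hc2 : (D₂.card : ℝ) ≤ Real.exp (κ * E)) (hκ : 0 ≤ κ) (hL : Real.exp ((ell + 2 * u + κ) * E) ≤ L)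
    (hε : Real.exp ((2 * u + κ - g) * E) ≤ ε) : ∀ x ∈ C₁,
    Cs * A ≤ L * ∑ y ∈ D₁, K x y ∧ ∑ y ∈ D₁, K x y ≤ L * (Cs * A) ∧ ∑ y ∈ D₂, K x y ≤ ε * (Cs * A) := by
  intro x hx
  have K0 : ∀ y, 0 ≤ K x y := fun y => by
    rw [hK]
    have h1 := h.N0 x y
    have h2 := hβ.pos y
    have h3 := hα.pos x
    positivity
  have hCA : 0 < Cs * A := mul_pos hCs hA
  have hLp : 0 < L := (Real.exp_pos _).trans_le hL
  refine ⟨?_, ?_, ?_⟩
  · have f1 := h.low1 x hx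
    have f2 := hα.low x (hC hx)
    have f3 := hβ.low t₁ (hD1 h.t1)
    have f4 : Real.exp (-(ell * E)) * A * Real.exp (-(u * E)) ≤ N x t₁ * β t₁ :=
      mul_le_mul f1 f3 (Real.exp_pos _).le (h.N0 x t₁)
    have f5 : Real.exp (-(u * E)) * (Real.exp (-(ell * E)) * A * Real.exp (-(u * E))) ≤ α x * (N x t₁ * β t₁) :=
      mul_le_mul f2 f4 (by positivity) (hα.pos x).le
    have f6 : Real.exp (-((ell + 2 * u) * E)) * (Cs * A) ≤ K x t₁ := by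
      rw [hK]
      refine le_trans (le_of_eq ?_) (mul_le_mul_of_nonneg_left f5 hCs.le)
      have : Cs * (Real.exp (-(u * E)) * (Real.exp (-(ell * E)) * A * Real.exp (-(u * E)))) =
          Real.exp (-(u * E)) * Real.exp (-(ell * E)) * Real.exp (-(u * E)) * (Cs * A) := by ring
      rw [this, ← Real.exp_add, ← Real.exp_add]
      congr 2
      ring
    have f7 : K x t₁ ≤ ∑ y ∈ D₁, K x y := single_le_sum (fun y _ => K0 y) h.t1
    have f8 : Real.exp ((ell + 2 * u) * E) ≤ L := by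
      refine le_trans (Real.exp_le_exp.2 ?_) hL
      nlinarith
    have f9 := mul_le_mul f8 (f6.trans f7) (by positivity) hLp.le
    have f10 : Real.exp ((ell + 2 * u) * E) * (Real.exp (-((ell + 2 * u) * E)) * (Cs * A)) = Cs * A := by
      rw [← mul_assoc, ← Real.exp_add]
      simp
    linarith
  · have pt : ∀ y ∈ D₁, K x y ≤ Real.exp ((ell + 2 * u) * E) * (Cs * A) := by
      intro y hy
      have f1 := h.up1 x hx y hy
      have f2 := hα.up x (hC hx)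
      have f3 := hβ.up y (hD1 hy)
      have f4 : N x y * β y ≤ Real.exp (ell * E) * A * Real.exp (u * E) := mul_le_mul f1 f3 (hβ.pos y).le (by positivity)
      have f5 : α x * (N x y * β y) ≤ Real.exp (u * E) * (Real.exp (ell * E) * A * Real.exp (u * E)) :=
        mul_le_mul f2 f4 (mul_nonneg (h.N0 x y) (hβ.pos y).le) (Real.exp_pos _).le
      rw [hK]
      refine (mul_le_mul_of_nonneg_left f5 hCs.le).trans (le_of_eq ?_)
      have : Cs * (Real.exp (u * E) * (Real.exp (ell * E) * A * Real.exp (u * E))) =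
          Real.exp (u * E) * Real.exp (ell * E) * Real.exp (u * E) * (Cs * A) := by ring
      rw [this, ← Real.exp_add, ← Real.exp_add]
      congr 2
      ring
    calc ∑ y ∈ D₁, K x y ≤ ∑ y ∈ D₁, Real.exp ((ell + 2 * u) * E) * (Cs * A) := sum_le_sum pt
      _ = D₁.card * (Real.exp ((ell + 2 * u) * E) * (Cs * A)) := by rw [sum_const, nsmul_eq_mul]
      _ ≤ Real.exp (κ * E) * (Real.exp ((ell + 2 * u) * E) * (Cs * A)) := mul_le_mul_of_nonneg_right hc1 (by positivity)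
      _ = Real.exp ((ell + 2 * u + κ) * E) * (Cs * A) := by
          rw [← mul_assoc, ← Real.exp_add]
          congr 2
          ring
      _ ≤ _ := mul_le_mul_of_nonneg_right hL hCA.le
  · have pt : ∀ y ∈ D₂, K x y ≤ Real.exp ((2 * u - g) * E) * (Cs * A) := by
      intro y hy
      have hy1 : y ∉ D₁ := fun hc => disjoint_left.1 hdD hc hy
      have f1 := h.off1 x hx y (hDJ hy) hy1
      have f1' : N x y ≤ Real.exp (-g * E) * A := by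
        refine f1.trans (mul_le_mul_of_nonneg_right (Real.exp_le_exp.2 ?_) hA.le)
        have : 0 ≤ be * (|ℓ₁ y| / w) * E := by positivity
        nlinarith
      have f2 := hα.up x (hC hx)
      have f3 := hβ.up y (hD2 hy)
      have f4 : N x y * β y ≤ Real.exp (-g * E) * A * Real.exp (u * E) := mul_le_mul f1' f3 (hβ.pos y).le (by positivity)
      have f5 : α x * (N x y * β y) ≤ Real.exp (u * E) * (Real.exp (-g * E) * A * Real.exp (u * E)) :=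
        mul_le_mul f2 f4 (mul_nonneg (h.N0 x y) (hβ.pos y).le) (Real.exp_pos _).le
      rw [hK]
      refine (mul_le_mul_of_nonneg_left f5 hCs.le).trans (le_of_eq ?_)
      have : Cs * (Real.exp (u * E) * (Real.exp (-g * E) * A * Real.exp (u * E))) =
          Real.exp (u * E) * Real.exp (-g * E) * Real.exp (u * E) * (Cs * A) := by ring
      rw [this, ← Real.exp_add, ← Real.exp_add]
      congr 2
      ring
    calc ∑ y ∈ D₂, K x y ≤ ∑ y ∈ D₂, Real.exp ((2 * u - g) * E) * (Cs * A) := sum_le_sum pt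
      _ = D₂.card * (Real.exp ((2 * u - g) * E) * (Cs * A)) := by rw [sum_const, nsmul_eq_mul]
      _ ≤ Real.exp (κ * E) * (Real.exp ((2 * u - g) * E) * (Cs * A)) := mul_le_mul_of_nonneg_right hc2 (by positivity)
      _ = Real.exp ((2 * u + κ - g) * E) * (Cs * A) := by
          rw [← mul_assoc, ← Real.exp_add]
          congr 2
          ring
      _ ≤ _ := mul_le_mul_of_nonneg_right hε hCA.le

/-- **`Psh` FROM THE LANES.** -/
theorem psh_mf83 (hE : 0 < E) (hw : 0 < w) (h : MF83 J C₁ C₂ D₁ D₂ N ℓ₁ t₁ t₂ E w A ell g be n) (hA : 0 < A) (hCs : 0 < Cs)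
    (hα : Ws83 (C₁ ∪ C₂) α ℓ₀ E w u b) (hβ : Ws83 (D₁ ∪ D₂) β ℓ₁ E w u b) (hK : ∀ x y, K x y = Cs * (α x * (N x y * β y)))
    (hCI1 : C₁ ⊆ I) (hCI2 : C₂ ⊆ I) (hdC : Disjoint C₁ C₂) (hDJ1 : D₁ ⊆ J) (hDJ2 : D₂ ⊆ J) (hdD : Disjoint D₁ D₂)
    (hc1 : (D₁.card : ℝ) ≤ Real.exp (κ * E)) (hc2 : (D₂.card : ℝ) ≤ Real.exp (κ * E)) (hκ : 0 ≤ κ)
    (hc0 : 0 ≤ c0) (hc01 : c0 ≤ c1) (hbe0 : 0 ≤ be) (hbe : b + be' ≤ be) (hΛ : ∀ x ∈ C₁ ∪ C₂, |ℓ₀ x| ≤ Λ * w)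
    (hCC : ∀ d : ℝ, 0 ≤ d → Q1 * gr P d + c0 * d ≤ CC + be' * d)
    (hsum : ∑ y ∈ J, Real.exp (-((be - b - be') * (E / w) * |ℓ₁ y|)) ≤ Real.exp (σ * E))
    (kap_0 : ∀ y z, 0 ≤ kap y z) (kapz : ∀ y z : ℤ, ¬ (y ≤ z ∧ z ≤ y + m) → kap y z = 0)
    (kapu : ∀ y z, kap y z ≤ Real.exp (Q1 * gr P (|ℓ₁ y| / w) * E - c1 * (E / w) * |ℓ₂ z - ℓ₁ y|))
    (k00 : ∀ x z, 0 ≤ kap0 x z)
    (k0l : ∀ x z : ℤ, x ≤ z → z ≤ x + (n + m : ℕ) → Real.exp (-(c0 * (E / w) * |ℓ₂ z - ℓ₀ x|)) ≤ kap0 x z)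
    (hLk : 0 ≤ Lk) (comp : ∀ x ∈ I, ∀ z ∈ U, ∑ y ∈ J, K x y * kap y z ≤ Lk * (Cs * A) * kap0 x z)
    (hG : ∀ z, 0 ≤ G z) (hG₀ : 0 < G₀) (hΦ0 : 0 ≤ Φ₀) (hΦ : ∀ x ∈ C₁ ∪ C₂, ∑ z ∈ U, kap0 x z * G z ≤ Φ₀ * G₀)
    (hz₀ : z₀ ∈ U) (hV : 0 ≤ V) (hV₀ : G₀ ≤ V * G z₀) (hm : ∀ y ∈ D₁ ∪ D₂, Real.exp (-(mm * E)) ≤ kap y z₀)
    (hMh : V * Real.exp (mm * E) ≤ Mh)
    (hL : Real.exp ((ell + 2 * u + κ) * E) ≤ L) (hε : Real.exp ((2 * u + κ - g) * E) ≤ ε)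
    (hε' : Real.exp ((CC + c0 * Λ + 2 * u + σ - g) * E) * Φ₀ ≤ ε) :
    Psh I J C₁ C₂ D₁ D₂ K (jph U kap0 G G₀) (jph U kap G G₀) (Cs * A) (Cs * A) L Lk Mh 1 ε := by
  have hs := h.symm
  have hCA : 0 < Cs * A := mul_pos hCs hA
  have K0 : ∀ x y, 0 ≤ K x y := fun x y => by
    rw [hK]
    have h1 := h.N0 x y
    have h2 := hβ.pos y
    have h3 := hα.pos x
    positivity
  have jp0 : ∀ y, 0 ≤ jph U kap G G₀ y := fun y => div_nonneg (sum_nonneg fun z _ => mul_nonneg (kap_0 y z) (hG z)) hG₀.le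
  have l1 := lane_83 (C := C₁ ∪ C₂) (D := D₁ ∪ D₂) (κ := κ) hE h hw hbe0 hA hCs hα hβ hK subset_union_left subset_union_left subset_union_right
    hDJ2 hdD hc1 hc2 hκ hL hε
  have l2 := lane_83 (C := C₁ ∪ C₂) (D := D₁ ∪ D₂) (κ := κ) hE hs hw hbe0 hA hCs hα hβ hK subset_union_right subset_union_right
    subset_union_left hDJ1 hdD.symm hc2 hc1 hκ hL hε
  have o1 := of_83 (C := C₁ ∪ C₂) (D := D₁ ∪ D₂) (U := U) (kap := kap) (kap0 := kap0) (G := G) (G₀ := G₀) hE hw h hA hCs hα hβ hK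
    subset_union_left hc0 hc01 hbe (fun x hx => hΛ x (mem_union_left _ hx)) hCC hsum kapz kapu k00 k0l hG hG₀
    (fun x hx => hΦ x (mem_union_left _ hx)) hε'
  have o2 := of_83 (C := C₁ ∪ C₂) (D := D₁ ∪ D₂) (U := U) (kap := kap) (kap0 := kap0) (G := G) (G₀ := G₀) hE hw hs hA hCs hα hβ hK
    subset_union_right hc0 hc01 hbe (fun x hx => hΛ x (mem_union_right _ hx)) hCC hsum kapz kapu k00 k0l hG hG₀
    (fun x hx => hΦ x (mem_union_right _ hx)) hε'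
  have out : ∀ x ∈ I, ∑ y ∈ J, K x y * jph U kap G G₀ y ≤ Lk * jph U kap0 G G₀ x * (Cs * A) := by
    intro x hx
    have e2 : ∑ y ∈ J, K x y * jph U kap G G₀ y = (∑ z ∈ U, (∑ y ∈ J, K x y * kap y z) * G z) / G₀ := by
      unfold jph
      rw [eq_div_iff hG₀.ne', sum_mul]
      calc ∑ y ∈ J, K x y * ((∑ z ∈ U, kap y z * G z) / G₀) * G₀ = ∑ y ∈ J, ∑ z ∈ U, K x y * kap y z * G z := by
            refine sum_congr rfl fun y _ => ?_
            rw [mul_assoc, div_mul_cancel₀ _ hG₀.ne', mul_sum]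
            exact sum_congr rfl fun z _ => by ring
        _ = ∑ z ∈ U, ∑ y ∈ J, K x y * kap y z * G z := sum_comm
        _ = _ := sum_congr rfl fun z _ => by rw [sum_mul]
    rw [e2]
    unfold jph
    rw [div_le_iff₀ hG₀]
    have e3 : Lk * ((∑ z ∈ U, kap0 x z * G z) / G₀) * (Cs * A) * G₀ = Lk * (Cs * A) * ∑ z ∈ U, kap0 x z * G z := by
      field_simp
    rw [e3, mul_sum]
    refine sum_le_sum fun z hz => ?_
    refine (mul_le_mul_of_nonneg_right (comp x hx z hz) (hG z)).trans (le_of_eq ?_)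
    ring
  have hεn : 0 ≤ ε := (Real.exp_pos _).le.trans hε
  exact
    { K0 := K0
      p0 := jp0
      A10 := hCA.le
      A20 := hCA.le
      L0 := (Real.exp_pos _).le.trans hL
      Lk0 := hLk
      M0 := le_trans (mul_nonneg hV (Real.exp_pos _).le) hMh
      R0 := zero_le_one
      ε0 := hεn
      CI1 := hCI1
      CI2 := hCI2
      dC := hdC
      DJ1 := hDJ1
      DJ2 := hDJ2
      lo1 := fun x hx => (l1 x hx).1
      lo2 := fun x hx => (l2 x hx).1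
      up1 := fun x hx => (l1 x hx).2.1
      up2 := fun x hx => (l2 x hx).2.1
      cr1 := fun x hx => (l1 x hx).2.2
      cr2 := fun x hx => (l2 x hx).2.2
      of1 := o1
      of2 := fun x hx => by
        rw [union_comm]
        exact o2 x hx
      out1 := fun x hx _ => out x hx
      out2 := fun x hx _ => out x hx
      inD := fun y hy => by
        have f1 : kap y z₀ * G z₀ ≤ ∑ z ∈ U, kap y z * G z :=
          single_le_sum (f := fun z => kap y z * G z) (fun z _ => mul_nonneg (kap_0 y z) (hG z)) hz₀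
        have f2 := mul_le_mul_of_nonneg_right (hm y hy) (hG z₀)
        have f3 : G₀ ≤ V * Real.exp (mm * E) * ∑ z ∈ U, kap y z * G z := by
          have f4 := mul_le_mul_of_nonneg_left (f2.trans f1) (show 0 ≤ V * Real.exp (mm * E) by positivity)
          have f5 : V * Real.exp (mm * E) * (Real.exp (-(mm * E)) * G z₀) = V * G z₀ := by
            rw [mul_assoc, ← mul_assoc (Real.exp (mm * E)), ← Real.exp_add]
            simp
          linarith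
        have f6 : 0 ≤ ∑ z ∈ U, kap y z * G z := sum_nonneg fun z _ => mul_nonneg (kap_0 y z) (hG z)
        unfold jph
        rw [mul_div_assoc', le_div_iff₀ hG₀, one_mul]
        exact f3.trans (mul_le_mul_of_nonneg_right hMh f6)
      r12 := by rw [one_mul]
      r21 := by rw [one_mul] }

/-- **The composition for all starts, from the gr envelopes.** `kap0` at least the envelope of the level `lv83 P c₂ ..`. -/
theorem comp0_83 {c cN c₂ c₄ c₅ q s₁ s₂ S Q uu Q₀ : ℝ} (hE : 0 < E) (hw : 0 < w) (hc₂ : 0 ≤ c₂)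
    (hN : En31 P cN c₂ E w q s₁ ℓ₀ ℓ₁ N I J) (Nz : ∀ x y : ℤ, ¬ (x ≤ y ∧ y ≤ x + n) → N x y = 0) (hu : 0 ≤ uu) (α0 : ∀ x, 0 ≤ α x)
    (β0 : ∀ y, 0 ≤ β y) (hα : ∀ x ∈ I, α x ≤ Real.exp (uu * gr P (|ℓ₀ x| / w) * E))
    (hβ : ∀ y ∈ J, β y ≤ Real.exp (uu * gr P (|ℓ₁ y| / w) * E)) (hK : ∀ x y, K x y = Cs * (α x * (N x y * β y))) (hCs : 0 < Cs)
    (kap_0 : ∀ y z, 0 ≤ kap y z) (kapz : ∀ y z : ℤ, ¬ (y ≤ z ∧ z ≤ y + m) → kap y z = 0) (hQ1 : 0 ≤ Q1) (hs₂ : 0 ≤ s₂)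
    (kapu : ∀ y z, kap y z ≤ Real.exp (Q1 * gr P (|ℓ₁ y| / w) * E - c1 * (E / w) * |ℓ₂ z - ℓ₁ y|))
    (hsum1 : ∀ y, ∑ z ∈ U, Real.exp (-(c₂ * (E / w) * |ℓ₂ z - ℓ₁ y|)) ≤ Real.exp (s₂ * E))
    (hsum0 : ∀ x, ∑ z ∈ U, Real.exp (-(c₂ * (E / w) * |ℓ₂ z - ℓ₀ x|)) ≤ Real.exp (s₂ * E))
    (hc₄ : 0 < c₄) (hc₅ : 0 < c₅) (hcN : c ≤ cN - c₄) (hc1 : c ≤ c1) (hc0 : 0 ≤ c0) (hcc : c₅ + c₂ + c0 ≤ c)
    (hQ : q + LQ P c₄ uu + uu + Q1 ≤ Q) (hS : s₁ + s₂ ≤ S) (hQ₀ : lv83 P c₅ Q S ≤ Q₀) (k00 : ∀ x z, 0 ≤ kap0 x z)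
    (k0l : ∀ x z : ℤ, x ≤ z → z ≤ x + (n + m : ℕ) →
      Real.exp (Q₀ * gr P (|ℓ₀ x| / w) * E - c0 * (E / w) * |ℓ₂ z - ℓ₀ x|) ≤ kap0 x z) :
    ∀ x ∈ I, ∀ z ∈ U, ∑ y ∈ J, K x y * kap y z ≤ Cs * kap0 x z := by
  intro x hx z hz
  have K0 : ∀ y, 0 ≤ K x y := fun y => by
    rw [hK]
    have h1 := hN.k0 x y
    have h2 := β0 y
    have h3 := α0 x
    positivity
  by_cases hr : x ≤ z ∧ z ≤ x + (n + m : ℕ)
  · have a1 := en_wt hE (en_wte hE hw hN hu β0 hβ hc₄) hu α0 hα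
    have a2 := en_weak (c' := c) (q' := q + LQ P c₄ uu + uu) hE hw a1 le_rfl le_rfl le_rfl hcN le_rfl
    have a3 : En31 P c c₂ E w Q1 s₂ ℓ₁ ℓ₂ kap J U := by
      refine ⟨hQ1, hs₂, kap_0, fun y _ z _ => (kapu y z).trans (Real.exp_le_exp.2 ?_), hsum1⟩
      have h1 : 0 ≤ E / w * |ℓ₂ z - ℓ₁ y| := by positivity
      nlinarith
    have a4 := en_comp (Q := Q) (S := S) hE hw hc₂ a2 a3 hc₅ hc0 hcc hQ hS hs₂ hsum0
    have a5 := a4.up x hx z hz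
    have e1 : ∑ y ∈ J, K x y * kap y z = Cs * ∑ y ∈ J, α x * (N x y * β y) * kap y z := by
      rw [mul_sum]
      refine sum_congr rfl fun y _ => ?_
      rw [hK]
      ring
    rw [e1]
    refine mul_le_mul_of_nonneg_left (a5.trans (le_trans (Real.exp_le_exp.2 ?_) (k0l x z hr.1 hr.2))) hCs.le
    have h1 : 0 ≤ |ℓ₀ x| / w := by positivity
    have h2 := mul_le_mul_of_nonneg_right (mul_le_mul_of_nonneg_right hQ₀ (gr_nonneg P h1)) hE.le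
    linarith
  · have e1 : ∑ y ∈ J, K x y * kap y z = 0 := by
      refine sum_eq_zero fun y _ => ?_
      by_cases h2 : x ≤ y ∧ y ≤ x + n
      · rw [kapz y z (fun h3 => hr ⟨by omega, by push_cast; omega⟩), mul_zero]
      · rw [hK, Nz x y h2]
        ring
    rw [e1]
    exact mul_nonneg hCs.le (k00 x z)

end det

/-! ### The model -/

variable {μ : MeasureTheory.Measure ℝ} {s h : ℝ} {η : Env} {p : ℕ → ℝ} {M : ℕ}

/-- The kernel of the lanes with the whole last row. -/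
theorem KM_nk83 (c₀ n : ℕ) (x y : ℤ) : KM47 μ s h η p M c₀ n x y =
    Lam12 μ s h M c₀ (n + 1) / Lam12 μ s h M c₀ n *
      (wt η c₀ x * (nk μ s h η p M c₀ (n + 1) x y * (wt η (c₀ + (n + 1)) y)⁻¹)) := by
  have h1 := ker_st47 (μ := μ) (s := s) (h := h) (η := η) (p := p) (M := M) c₀ n x y
  have h2 := ker_wt47 (μ := μ) (s := s) (h := h) (η := η) (p := p) (M := M) c₀ (n + 1) x y
  have h3 := (wt_pos η (c₀ + (n + 1)) y).ne'
  have h4 := (Lam12_pos (μ := μ) (s := s) (h := h) M c₀ n).ne'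
  unfold KM47
  rw [h1] at h2
  field_simp
  linarith

end

end Pool.Agent.W_7d29a1_C1.S83
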