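import Pool.Agent.W_7d29a1_C1.Gauss17

/-!
MP_7d29a1_pr, attractor route (helper17): the free energy of random masses on a window seen through a Gaussian walk, and its second
difference in the slope.
-/

set_option autoImplicit false

namespace Pool.Agent.W_7d29a1_C1

open MeasureTheory ProbabilityTheory Set Finset
open scoped ENNReal NNReal

noncomputable section

/-- The walk with the steps `ξ` at the time `k`. -/
def wk (m : ℕ) (ξ : Fin m → ℝ) (k : ℕ) : ℝ := ∑ i : Fin m, if (i : ℕ) < k then ξ i else 0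

/-- `log Σ p_k exp (h k + Ξ_k)` over the window `k = 0, .., m`. -/
def LG (m : ℕ) (h : ℝ) (p : Fin (m + 1) → ℝ) (ξ : Fin m → ℝ) : ℝ :=
  Real.log (∑ k : Fin (m + 1), p k * Real.exp (h * ((k : ℕ) : ℝ) + wk m ξ k))

theorem wk_cst (m : ℕ) (h : ℝ) {k : ℕ} (hk : k ≤ m) : wk m (cst (Fin m) h) k = h * k := by
  unfold wk cst
  rw [Fin.sum_univ_eq_sum_range (fun i => if i < k then h else 0) m, ← Finset.sum_filter]
  have e : (Finset.range m).filter (fun i => i < k) = Finset.range k := by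
    ext i
    simp only [Finset.mem_filter, Finset.mem_range]
    omega
  rw [e, Finset.sum_const, Finset.card_range, nsmul_eq_mul, mul_comm]

theorem wk_add (m : ℕ) (ξ ξ' : Fin m → ℝ) (k : ℕ) : wk m (ξ + ξ') k = wk m ξ k + wk m ξ' k := by
  unfold wk
  rw [← Finset.sum_add_distrib]
  refine Finset.sum_congr rfl fun i _ => ?_
  split_ifs
  · rfl
  · simp

theorem LG_shift (m : ℕ) (h : ℝ) (p : Fin (m + 1) → ℝ) (ξ : Fin m → ℝ) :
    LG m h p ξ = LG m 0 p (ξ + cst (Fin m) h) := by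
  unfold LG
  congr 1
  refine Finset.sum_congr rfl fun k _ => ?_
  rw [wk_add, wk_cst m h (by have := k.2; omega)]
  congr 2
  ring

theorem wk_sub_le (m : ℕ) (ξ ξ' : Fin m → ℝ) (k : ℕ) : wk m ξ k ≤ wk m ξ' k + ∑ i, |ξ i - ξ' i| := by
  unfold wk
  rw [← Finset.sum_add_distrib]
  refine Finset.sum_le_sum fun i _ => ?_
  split_ifs
  · linarith [le_abs_self (ξ i - ξ' i)]
  · linarith [abs_nonneg (ξ i - ξ' i)]

theorem LG_le (m : ℕ) (h : ℝ) {p : Fin (m + 1) → ℝ} (hp : ∀ k, 0 ≤ p k) (hs : 0 < ∑ k, p k) (ξ ξ' : Fin m → ℝ) :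
    LG m h p ξ ≤ LG m h p ξ' + ∑ i, |ξ i - ξ' i| := by
  obtain ⟨C, hC⟩ : ∃ C : ℝ, C = ∑ i, |ξ i - ξ' i| := ⟨_, rfl⟩
  rw [← hC]
  have hpos : ∀ ζ : Fin m → ℝ, 0 < ∑ k : Fin (m + 1), p k * Real.exp (h * ((k : ℕ) : ℝ) + wk m ζ k) := by
    intro ζ
    obtain ⟨k, -, hk⟩ := Finset.exists_lt_of_sum_lt (s := Finset.univ) (f := fun _ : Fin (m + 1) => (0 : ℝ)) (g := p)
      (by simpa using hs)
    exact Finset.sum_pos' (fun j _ => mul_nonneg (hp j) (Real.exp_pos _).le)
      ⟨k, Finset.mem_univ k, mul_pos hk (Real.exp_pos _)⟩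
  have h1 : ∑ k : Fin (m + 1), p k * Real.exp (h * ((k : ℕ) : ℝ) + wk m ξ k) ≤
      Real.exp C * ∑ k : Fin (m + 1), p k * Real.exp (h * ((k : ℕ) : ℝ) + wk m ξ' k) := by
    rw [Finset.mul_sum]
    refine Finset.sum_le_sum fun k _ => ?_
    have h2 : Real.exp (h * ((k : ℕ) : ℝ) + wk m ξ k) ≤ Real.exp C * Real.exp (h * ((k : ℕ) : ℝ) + wk m ξ' k) := by
      rw [← Real.exp_add]
      refine Real.exp_le_exp.2 ?_
      have := wk_sub_le m ξ ξ' k
      rw [← hC] at this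
      linarith
    calc p k * Real.exp (h * ((k : ℕ) : ℝ) + wk m ξ k)
        ≤ p k * (Real.exp C * Real.exp (h * ((k : ℕ) : ℝ) + wk m ξ' k)) := mul_le_mul_of_nonneg_left h2 (hp k)
      _ = _ := by ring
  unfold LG
  have h3 := Real.log_le_log (hpos ξ) h1
  rw [Real.log_mul (Real.exp_pos _).ne' (hpos ξ').ne', Real.log_exp] at h3
  linarith

theorem LG_abs (m : ℕ) (h : ℝ) {p : Fin (m + 1) → ℝ} (hp : ∀ k, 0 ≤ p k) (hs : 0 < ∑ k, p k) (ξ ξ' : Fin m → ℝ) :
    |LG m h p ξ - LG m h p ξ'| ≤ ∑ i, |ξ i - ξ' i| := by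
  rw [abs_sub_le_iff]
  have h1 := LG_le m h hp hs ξ ξ'
  have h2 := LG_le m h hp hs ξ' ξ
  have e : ∑ i, |ξ' i - ξ i| = ∑ i, |ξ i - ξ' i| := Finset.sum_congr rfl fun i _ => abs_sub_comm _ _
  rw [e] at h2
  constructor <;> linarith

theorem measurable_wk (m k : ℕ) : Measurable fun ξ : Fin m → ℝ => wk m ξ k := by
  unfold wk
  refine Finset.measurable_sum _ fun i _ => ?_
  split_ifs
  · exact measurable_pi_apply i
  · exact measurable_const

section random

variable {Ω : Type*} [MeasurableSpace Ω] {ν : Measure Ω} [IsProbabilityMeasure ν] {m : ℕ} {P : Ω → Fin (m + 1) → ℝ}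

theorem measurable_LG (hP : ∀ k, Measurable fun ω => P ω k) (h : ℝ) :
    Measurable fun z : (Fin m → ℝ) × Ω => LG m h (P z.2) z.1 := by
  unfold LG
  refine Real.measurable_log.comp (Finset.measurable_sum _ fun k _ => ?_)
  exact ((hP k).comp measurable_snd).mul
    (Real.measurable_exp.comp (((measurable_wk m k).comp measurable_fst).const_add _))

/-- `E log Σ p_k exp (h k + Ξ_k)`. -/
def Psi (ν : Measure Ω) (m : ℕ) (v : ℝ≥0) (P : Ω → Fin (m + 1) → ℝ) (h : ℝ) : ℝ :=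
  ∫ ξ, ∫ ω, LG m h (P ω) ξ ∂ν ∂(gpi (Fin m) v)

/-- **The second difference in the slope.** -/
theorem psi17 {v : ℝ≥0} (hv : v ≠ 0) (hm : 1 ≤ m) (hP : ∀ k, Measurable fun ω => P ω k) (h0 : ∀ ω k, 0 ≤ P ω k)
    (hs : ∀ ω, 0 < ∑ k, P ω k) {r : ℝ} (hq : m * r ^ 2 / v ≤ 1) :
    |Psi ν m v P r + Psi ν m v P (-r) - 2 * Psi ν m v P 0| ≤ 7 * m * r ^ 2 * Real.sqrt (m / v) := by
  obtain ⟨Φ, hΦ⟩ : ∃ Φ : (Fin m → ℝ) → ℝ, Φ = fun ξ => ∫ ω, LG m 0 (P ω) ξ ∂ν := ⟨_, rfl⟩
  have hΦm : Measurable Φ := by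
    rw [hΦ]
    have h1 : StronglyMeasurable fun z : (Fin m → ℝ) × Ω => LG m 0 (P z.2) z.1 := (measurable_LG hP 0).stronglyMeasurable
    exact (h1.integral_prod_right').measurable
  have hdiff : ∀ ξ ξ', |Φ ξ - Φ ξ'| ≤ ∑ i, |ξ i - ξ' i| := by
    intro ξ ξ'
    have hmeas : ∀ ζ : Fin m → ℝ, Measurable fun ω => LG m 0 (P ω) ζ := fun ζ =>
      (measurable_LG hP 0).comp (measurable_const.prodMk measurable_id)
    have hd : Integrable (fun ω => LG m 0 (P ω) ξ - LG m 0 (P ω) ξ') ν := by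
      refine (integrable_const (∑ i, |ξ i - ξ' i|)).mono' ((hmeas ξ).sub (hmeas ξ')).aestronglyMeasurable
        (ae_of_all _ fun ω => ?_)
      rw [Real.norm_eq_abs]
      exact LG_abs m 0 (h0 ω) (hs ω) ξ ξ'
    by_cases hI : Integrable (fun ω => LG m 0 (P ω) ξ') ν
    · have hI2 : Integrable (fun ω => LG m 0 (P ω) ξ) ν := by
        refine (hd.add hI).congr (ae_of_all _ fun ω => ?_)
        simp
      rw [hΦ]
      simp only
      rw [← integral_sub hI2 hI]
      refine abs_integral_le_integral_abs.trans ?_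
      calc ∫ ω, |LG m 0 (P ω) ξ - LG m 0 (P ω) ξ'| ∂ν ≤ ∫ _, ∑ i, |ξ i - ξ' i| ∂ν :=
            integral_mono hd.abs (integrable_const _) fun ω => LG_abs m 0 (h0 ω) (hs ω) ξ ξ'
        _ = ∑ i, |ξ i - ξ' i| := by simp
    · have hI2 : ¬ Integrable (fun ω => LG m 0 (P ω) ξ) ν := by
        intro hc
        refine hI ((hc.sub hd).congr (ae_of_all _ fun ω => ?_))
        simp
      rw [hΦ]
      simp only
      rw [integral_undef hI, integral_undef hI2]
      simp only [sub_zero, abs_zero]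
      exact Finset.sum_nonneg fun i _ => abs_nonneg _
  have hΦi : Integrable Φ (gpi (Fin m) v) := by
    have hc : ∀ i : Fin m, Integrable (fun ξ : Fin m → ℝ => |ξ i|) (gpi (Fin m) v) := by
      intro i
      have h1 : MeasurePreserving (Function.eval i) (gpi (Fin m) v) (gaussianReal 0 v) :=
        measurePreserving_eval (μ := fun _ : Fin m => gaussianReal 0 v) i
      have h2 : Integrable (fun x : ℝ => x) (gaussianReal 0 v) := by
        have := memLp_id_gaussianReal (μ := 0) (v := v) 1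
        exact this.integrable (by simp)
      exact (h1.integrable_comp_of_integrable h2.abs)
    refine ((integrable_const |Φ 0|).add (integrable_finsetSum Finset.univ fun i _ => hc i)).mono'
      hΦm.aestronglyMeasurable (ae_of_all _ fun ξ => ?_)
    rw [Real.norm_eq_abs]
    have h1 := hdiff ξ 0
    have h2 : |Φ ξ| ≤ |Φ 0| + |Φ ξ - Φ 0| := by
      have := abs_sub_abs_le_abs_sub (Φ ξ) (Φ 0)
      linarith
    simp only [Pi.zero_apply, sub_zero] at h1
    simp only [Pi.add_apply]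
    have e3 : (∑ i, fun ξ : Fin m → ℝ => |ξ i|) ξ = ∑ i, |ξ i| := by
      rw [Finset.sum_apply]
    linarith
  have hLip : ∀ x u, |Φ (x + cst (Fin m) u) - Φ x| ≤ m * |u| := by
    intro x u
    refine (hdiff _ _).trans (le_of_eq ?_)
    have e : ∀ i : Fin m, |(x + cst (Fin m) u) i - x i| = |u| := by
      intro i
      simp [cst]
    simp only [e]
    simp
  have hPsi : ∀ h, Psi ν m v P h = ∫ ξ, Φ (ξ + cst (Fin m) h) ∂(gpi (Fin m) v) := by
    intro h
    unfold Psi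
    rw [hΦ]
    refine integral_congr_ae (ae_of_all _ fun ξ => ?_)
    simp only
    refine integral_congr_ae (ae_of_all _ fun ω => ?_)
    exact LG_shift m h (P ω) ξ
  have h00 : Psi ν m v P 0 = ∫ ξ, Φ ξ ∂(gpi (Fin m) v) := by
    rw [hPsi]
    have e : cst (Fin m) 0 = 0 := rfl
    rw [e]
    simp
  rw [hPsi r, hPsi (-r), h00]
  have hcard : (Fintype.card (Fin m) : ℝ) = m := by simp
  have h := sd17 (ι := Fin m) hv (by simp; omega) hΦm hΦi (K := (m : ℝ)) (by positivity) hLip (r := r) (by rw [hcard]; exact hq)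
  rw [hcard] at h
  exact h

end random

end

end Pool.Agent.W_7d29a1_C1
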