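import Pool.Agent.W_7d29a1_C1.CaS88
import Pool.Agent.W_7d29a1_C1.PastT31

/-!
MP_7d29a1_pr, attractor route [C1], THE TOP OF THE PAST, normalised masses `fh84` (forward) and `bh16` (backward). (helper88)

* `thN`, `fb_eq` : `fh84 * bh16 = thN * (fw * bw)`; `Tt88` : the total mass `Z` bounds the mass of all finite sets of all rows;
* `place88`, `top88`, `cr88` : one place of mass at least `exp (-om) Z` gives the mass of the other places, the top, the crude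
  regularity of the forward masses (deterministic);
* **`pt88`** : the same with all the numbers, from `CrS84` and `CA88` (`CaS88`).
-/

set_option autoImplicit false

namespace Pool.Agent.W_7d29a1_C1.PtC88

open MeasureTheory ProbabilityTheory Filter Topology Finset
open Pool.Agent.W_7d29a1_F Pool.Agent.W_7d29a1_h4g Pool.Agent.W_7d29a1_H
open Pool.Agent.W_7d29a1_HS (In wd md md_abs wd_le_two wd_lower_one)
open Pool.Agent.W_7d29a1_C1.U16 Pool.Agent.W_7d29a1_C1.FarW89 Pool.Agent.W_7d29a1_C1.Win84 Pool.Agent.W_7d29a1_C1.Cr84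
open Pool.Agent.W_7d29a1_C1.SysP84 (fh84 PMP84 fh_step fh_nonneg)
open Pool.Agent.W_7d29a1_C1.K91 (wt wt_pos)
open Pool.Agent.W_7d29a1_C1.K91P (fw bw)
open Pool.Agent.W_7d29a1_C1.CaS88

noncomputable section

section det

variable {μ : Measure ℝ} {s h : ℝ} {η : Env} {p : ℕ → ℝ} {M Nt : ℕ} {l : ℤ → ℝ}

/-- The norming factor of all rows. -/
def thN (μ : Measure ℝ) (s h : ℝ) (M N : ℕ) : ℝ := Real.exp (-((N : ℝ) * lam μ s + h * sl μ s * bl M 0 N))

theorem fb_eq {k : ℕ} (hk : k ≤ Nt) (x : ℤ) : fh84 μ s h η p M l k x * bh16 μ s h η p M Nt k x =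
    thN μ s h M Nt * (fw (wt η) p l k x * bw (wt η) p k (Nt - k) x) := by
  have h1 := wt_pos η k x
  have e1 : bl M 0 Nt = bl M 0 k + bl M k (Nt - k) := by
    have := bl_add M 0 k (Nt - k)
    rwa [zero_add, Nat.add_sub_cancel' hk] at this
  have e2 : (Nt : ℝ) = k + ((Nt - k : ℕ) : ℝ) := by
    rw [← Nat.cast_add, Nat.add_sub_cancel' hk]
  have e3 : thN μ s h M Nt = Real.exp (-((k : ℝ) * lam μ s + h * sl μ s * bl M 0 k)) *
      Real.exp (-(((Nt - k : ℕ) : ℝ) * lam μ s + h * sl μ s * bl M k (Nt - k))) := by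
    unfold thN
    rw [← Real.exp_add, e1]
    congr 1
    rw [e2]
    push_cast
    ring
  rw [e3]
  unfold fh84 bh16
  field_simp

/-- The total mass. -/
def Tt88 (μ : Measure ℝ) (s h : ℝ) (η : Env) (p : ℕ → ℝ) (M Nt : ℕ) (l : ℤ → ℝ) (Z : ℝ) : Prop :=
  ∀ k, k ≤ Nt → ∀ S : Finset ℤ, ∑ y ∈ S, fh84 μ s h η p M l k y * bh16 μ s h η p M Nt k y ≤ Z

theorem tt_of {Z : ℝ} (hZ : Pool.Agent.W_7d29a1_C1.D31.Tot31 (wt η) p l Nt Z) : Tt88 μ s h η p M Nt l (thN μ s h M Nt * Z) := by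
  intro k hk S
  have h1 := hZ k hk S
  have h0 : 0 < thN μ s h M Nt := Real.exp_pos _
  have e1 : ∑ y ∈ S, fh84 μ s h η p M l k y * bh16 μ s h η p M Nt k y =
      thN μ s h M Nt * ∑ y ∈ S, fw (wt η) p l k y * bw (wt η) p k (Nt - k) y := by
    rw [mul_sum]
    exact sum_congr rfl fun y _ => fb_eq hk y
  rw [e1]
  exact mul_le_mul_of_nonneg_left h1 h0.le

variable (hpos : ∀ k, 0 < p k)
include hpos

theorem bh_pos {k : ℕ} (hk : k ≤ Nt) (x : ℤ) : 0 < bh16 μ s h η p M Nt k x :=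
  (sys_model16 (μ := μ) (s := s) (h := h) (η := η) (M := M) (N := Nt) hpos).b0 k x hk

/-- One place of the later row, under a condition. -/
theorem pm_one88 {a n : ℕ} (hn : a + n ≤ Nt) (y z : ℤ) (Q : ℤ → Prop) [DecidablePred Q] (hQ : Q z) :
    nk μ s h η p M a n y z * bh16 μ s h η p M Nt (a + n) z ≤
      PM16 (fun a b x z => nk μ s h η p M a (b - a) x z) (bh16 μ s h η p M Nt) a (a + n) y Q := by
  have e1 : a + n - a = n := by omega
  unfold PM16
  simp only [e1]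
  by_cases hz : y ≤ z ∧ z ≤ y + (n : ℕ)
  · exact single_le_sum (f := fun z => nk μ s h η p M a n y z * bh16 μ s h η p M Nt (a + n) z)
      (fun w _ => mul_nonneg (nk_nonneg hpos _ _ _ _) (bh_pos hpos hn w).le) (mem_filter.2 ⟨mem_Icc.2 hz, hQ⟩)
  · rw [nk_eq_zero a n hz, zero_mul]
    exact sum_nonneg fun w _ => mul_nonneg (nk_nonneg hpos _ _ _ _) (bh_pos hpos hn w).le

theorem one88 {a n : ℕ} (hn : a + n ≤ Nt) (y z : ℤ) :
    nk μ s h η p M a n y z * bh16 μ s h η p M Nt (a + n) z ≤ bh16 μ s h η p M Nt a y := by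
  have hS := sys_model16 (μ := μ) (s := s) (h := h) (η := η) (M := M) (N := Nt) hpos
  have h1 := pm_one88 (μ := μ) (s := s) (h := h) (η := η) (M := M) hpos hn y z (fun _ => True) trivial
  have h2 := PM16_split hS (show a ≤ a + n by omega) hn y (fun _ => True)
  have h3 : 0 ≤ PM16 (fun a b x z => nk μ s h η p M a (b - a) x z) (bh16 μ s h η p M Nt) a (a + n) y (fun z => ¬ True) := by
    unfold PM16
    exact sum_nonneg fun w _ => mul_nonneg (nk_nonneg hpos _ _ _ _) (bh_pos hpos hn w).le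
  linarith

variable (hl : ∀ y, 0 ≤ l y)
include hl

/-- **THE MASS OF A PLACE** `x` of the row `a + n` from one heavy place `q` of the row `a + n'`. -/
theorem place88 {a n n' : ℕ} (h1 : a + n ≤ Nt) (h2 : a + n' ≤ Nt) {Z om la : ℝ} (htot : Tt88 μ s h η p M Nt l Z) {q x : ℤ}
    (hc : Real.exp (-om) * Z ≤ fh84 μ s h η p M l (a + n') q * bh16 μ s h η p M Nt (a + n') q) (P : ℤ → Prop) [DecidablePred P]
    (hfar : ∀ y : ℤ, q - n' ≤ y → y ≤ q → ¬ P y →
      nk μ s h η p M a n' y q * bh16 μ s h η p M Nt (a + n') q ≤ Real.exp (-om) / 2 * bh16 μ s h η p M Nt a y)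
    (hx : ∀ y : ℤ, q - n' ≤ y → y ≤ q → P y →
      Real.exp (-la) * bh16 μ s h η p M Nt a y ≤ nk μ s h η p M a n y x * bh16 μ s h η p M Nt (a + n) x) :
    Real.exp (-(om + la)) / 2 * Z ≤ fh84 μ s h η p M l (a + n) x * bh16 μ s h η p M Nt (a + n) x := by
  have ha : a ≤ Nt := by omega
  have hF : ∀ (k : ℕ) (y : ℤ), 0 ≤ fh84 μ s h η p M l k y := fun k y => fh_nonneg hpos hl k y
  have hZ0 : 0 ≤ Z := by
    have := htot 0 (Nat.zero_le _) ∅
    rwa [sum_empty] at this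
  -- the heavy place
  have e1 : fh84 μ s h η p M l (a + n') q * bh16 μ s h η p M Nt (a + n') q =
      ∑ y ∈ Icc (q - n') q, fh84 μ s h η p M l a y * (nk μ s h η p M a n' y q * bh16 μ s h η p M Nt (a + n') q) := by
    rw [fh_step, sum_mul]
    exact sum_congr rfl fun y _ => by ring
  rw [e1, ← sum_filter_add_sum_filter_not (Icc (q - n') q) P] at hc
  have s1 : ∑ y ∈ (Icc (q - n') q).filter (fun y => ¬ P y),
      fh84 μ s h η p M l a y * (nk μ s h η p M a n' y q * bh16 μ s h η p M Nt (a + n') q) ≤ Real.exp (-om) / 2 * Z := by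
    have t1 := htot a ha ((Icc (q - n') q).filter (fun y => ¬ P y))
    have t2 := mul_le_mul_of_nonneg_left t1 (show 0 ≤ Real.exp (-om) / 2 by positivity)
    refine le_trans ?_ t2
    rw [mul_sum]
    refine sum_le_sum fun y hy => ?_
    rw [mem_filter, mem_Icc] at hy
    have t3 := mul_le_mul_of_nonneg_left (hfar y hy.1.1 hy.1.2 hy.2) (hF a y)
    linarith [show fh84 μ s h η p M l a y * (Real.exp (-om) / 2 * bh16 μ s h η p M Nt a y) =
      Real.exp (-om) / 2 * (fh84 μ s h η p M l a y * bh16 μ s h η p M Nt a y) by ring]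
  have s2 : ∑ y ∈ (Icc (q - n') q).filter P,
      fh84 μ s h η p M l a y * (nk μ s h η p M a n' y q * bh16 μ s h η p M Nt (a + n') q) ≤
      ∑ y ∈ (Icc (q - n') q).filter P, fh84 μ s h η p M l a y * bh16 μ s h η p M Nt a y :=
    sum_le_sum fun y _ => mul_le_mul_of_nonneg_left (one88 hpos h2 y q) (hF a y)
  have s3 : Real.exp (-om) / 2 * Z ≤ ∑ y ∈ (Icc (q - n') q).filter P, fh84 μ s h η p M l a y * bh16 μ s h η p M Nt a y := by
    have : Real.exp (-om) * Z = Real.exp (-om) / 2 * Z + Real.exp (-om) / 2 * Z := by ring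
    linarith
  -- the place
  have e2 : fh84 μ s h η p M l (a + n) x * bh16 μ s h η p M Nt (a + n) x =
      ∑ y ∈ Icc (x - n) x, fh84 μ s h η p M l a y * (nk μ s h η p M a n y x * bh16 μ s h η p M Nt (a + n) x) := by
    rw [fh_step, sum_mul]
    exact sum_congr rfl fun y _ => by ring
  have s4 : Real.exp (-la) * ∑ y ∈ (Icc (q - n') q).filter P, fh84 μ s h η p M l a y * bh16 μ s h η p M Nt a y ≤
      ∑ y ∈ Icc (x - n) x, fh84 μ s h η p M l a y * (nk μ s h η p M a n y x * bh16 μ s h η p M Nt (a + n) x) := by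
    rw [mul_sum]
    refine (sum_le_sum (g := fun y => fh84 μ s h η p M l a y * (nk μ s h η p M a n y x * bh16 μ s h η p M Nt (a + n) x))
      fun y hy => ?_).trans (sum_le_sum_of_subset_of_nonneg (fun y hy => ?_) fun y _ _ =>
        mul_nonneg (hF a y) (mul_nonneg (nk_nonneg hpos _ _ _ _) (bh_pos hpos h1 x).le))
    · rw [mem_filter, mem_Icc] at hy
      have t3 := mul_le_mul_of_nonneg_left (hx y hy.1.1 hy.1.2 hy.2) (hF a y)
      linarith [show fh84 μ s h η p M l a y * (Real.exp (-la) * bh16 μ s h η p M Nt a y) =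
        Real.exp (-la) * (fh84 μ s h η p M l a y * bh16 μ s h η p M Nt a y) by ring]
    · rw [mem_filter, mem_Icc] at hy
      rw [mem_Icc]
      by_contra hcon
      have t3 := hx y hy.1.1 hy.1.2 hy.2
      rw [nk_eq_zero a n (fun hh => hcon (by omega)), zero_mul] at t3
      exact absurd t3 (not_le.2 (mul_pos (Real.exp_pos _) (bh_pos hpos ha y)))
  rw [e2]
  refine le_trans ?_ s4
  have s5 := mul_le_mul_of_nonneg_left s3 (Real.exp_pos (-la)).le
  refine le_trans (le_of_eq ?_) s5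
  rw [neg_add, Real.exp_add]
  ring

/-- **THE TOP.** -/
theorem top88 {a n : ℕ} (h1 : a + n ≤ Nt) {Z La G : ℝ} (htot : Tt88 μ s h η p M Nt l Z) {x : ℤ}
    (hx : Real.exp (-La) * Z ≤ fh84 μ s h η p M l (a + n) x * bh16 μ s h η p M Nt (a + n) x) (Q : ℤ → Prop) [DecidablePred Q]
    (hS : ∀ y : ℤ, x - n ≤ y → y ≤ x → Q y →
      nk μ s h η p M a n y x * bh16 μ s h η p M Nt (a + n) x ≤ Real.exp (-G) * bh16 μ s h η p M Nt a y) :
    PMP84 μ s h η p M l (a + n) a x Q ≤ Real.exp (-(G - La)) * fh84 μ s h η p M l (a + n) x := by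
  have ha : a ≤ Nt := by omega
  have hF : ∀ (k : ℕ) (y : ℤ), 0 ≤ fh84 μ s h η p M l k y := fun k y => fh_nonneg hpos hl k y
  have hB := bh_pos (μ := μ) (s := s) (h := h) (η := η) (M := M) hpos h1 x
  refine le_of_mul_le_mul_right ?_ hB
  have e0 : a + n - a = n := by omega
  unfold PMP84
  rw [e0, sum_mul]
  have s1 : ∑ y ∈ (Icc (x - (n : ℤ)) x).filter Q,
      nk μ s h η p M a n y x * fh84 μ s h η p M l a y * bh16 μ s h η p M Nt (a + n) x ≤ Real.exp (-G) * Z := by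
    have t1 := mul_le_mul_of_nonneg_left (htot a ha ((Icc (x - (n : ℤ)) x).filter Q)) (Real.exp_pos (-G)).le
    refine le_trans ?_ t1
    rw [mul_sum]
    refine sum_le_sum fun y hy => ?_
    rw [mem_filter, mem_Icc] at hy
    have t3 := mul_le_mul_of_nonneg_left (hS y hy.1.1 hy.1.2 hy.2) (hF a y)
    calc nk μ s h η p M a n y x * fh84 μ s h η p M l a y * bh16 μ s h η p M Nt (a + n) x =
        fh84 μ s h η p M l a y * (nk μ s h η p M a n y x * bh16 μ s h η p M Nt (a + n) x) := by ring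
      _ ≤ fh84 μ s h η p M l a y * (Real.exp (-G) * bh16 μ s h η p M Nt a y) := t3
      _ = _ := by ring
  refine s1.trans ?_
  have t4 := mul_le_mul_of_nonneg_left hx (Real.exp_pos (-(G - La))).le
  refine le_trans (le_of_eq ?_) (t4.trans (le_of_eq ?_))
  · rw [← mul_assoc, ← Real.exp_add]
    congr 2
    ring
  · ring

/-- **CRUDE REGULARITY OF THE FORWARD MASSES.** -/
theorem cr88 {k : ℕ} (hk : k ≤ Nt) {Z La la : ℝ} (htot : Tt88 μ s h η p M Nt l Z) {x x' : ℤ}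
    (hx' : Real.exp (-La) * Z ≤ fh84 μ s h η p M l k x' * bh16 μ s h η p M Nt k x')
    (hb : bh16 μ s h η p M Nt k x' ≤ Real.exp la * bh16 μ s h η p M Nt k x) :
    fh84 μ s h η p M l k x ≤ Real.exp (La + la) * fh84 μ s h η p M l k x' := by
  have hF := fh_nonneg (μ := μ) (s := s) (h := h) (η := η) (M := M) hpos hl k x'
  have hB := bh_pos (μ := μ) (s := s) (h := h) (η := η) (M := M) hpos hk x
  have t1 := htot k hk {x}
  rw [sum_singleton] at t1
  refine le_of_mul_le_mul_right ?_ hB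
  have t2 := mul_le_mul_of_nonneg_left hx' (Real.exp_pos La).le
  rw [← mul_assoc, ← Real.exp_add, add_neg_cancel, Real.exp_zero, one_mul] at t2
  have t3 := mul_le_mul_of_nonneg_left (mul_le_mul_of_nonneg_left hb hF) (Real.exp_pos La).le
  refine (t1.trans (t2.trans t3)).trans (le_of_eq ?_)
  rw [Real.exp_add]
  ring

end det

variable {μ : Measure ℝ} {s : ℝ} [IsProbabilityMeasure μ] {c C : ℝ} {n₀ : ℕ}

/-- The numbers. -/
theorem num88b {c ε₁ εa δ₁ : ℝ} (hε₁ : 0 < ε₁) (hεa : 0 < εa) (hδ : εa < δ₁) : ∃ n₁ : ℕ, ∀ N : ℕ, n₁ ≤ N →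
    1 ≤ (N : ℝ) ^ ε₁ ∧ 1 ≤ (N : ℝ) ^ εa ∧ 12 + c ≤ (N : ℝ) ^ ε₁ ∧ 32 / c ≤ (N : ℝ) ^ ε₁ ∧ 2 * (N : ℝ) ≤ Real.exp ((N : ℝ) ^ ε₁) ∧
    5 * (N : ℝ) ^ εa ≤ (N : ℝ) ^ δ₁ := by
  have ev1 := Pool.Agent.W_7d29a1_HZ.Z22.absorb 2 1 (b := 1) (g := ε₁) one_pos hε₁
  obtain ⟨n₁, hn₁⟩ := eventually_atTop.1 (((ev1.and (ev84 (1 : ℝ) hε₁)).and
    ((ev84 (1 : ℝ) hεa).and (ev84 (12 + c) hε₁))).and ((ev84 (32 / c) hε₁).and (ev84 5 (show 0 < δ₁ - εa by linarith))))
  refine ⟨max n₁ 1, fun N hN => ?_⟩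
  obtain ⟨⟨⟨q1, q2⟩, q3, q4⟩, q5, q6⟩ := hn₁ N ((le_max_left _ _).trans hN)
  have hN0 : (0 : ℝ) < N := by exact_mod_cast (show 0 < N from (le_max_right _ _).trans hN)
  refine ⟨q2, q3, q4, q5, ?_, ?_⟩
  · rw [one_mul, Real.rpow_one] at q1
    have h1 : Real.exp (-(N : ℝ) ^ (ε₁ / 2)) ≤ 1 := by
      rw [Real.exp_le_one_iff]
      have : (0 : ℝ) ≤ (N : ℝ) ^ (ε₁ / 2) := Real.rpow_nonneg (Nat.cast_nonneg _) _
      linarith
    have h2 := q1.trans h1
    rw [Real.exp_neg, ← div_eq_mul_inv, div_le_one (Real.exp_pos _)] at h2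
    exact h2
  · calc 5 * (N : ℝ) ^ εa ≤ (N : ℝ) ^ (δ₁ - εa) * (N : ℝ) ^ εa :=
        mul_le_mul_of_nonneg_right q6 (Real.rpow_nonneg hN0.le _)
      _ = (N : ℝ) ^ δ₁ := by rw [← Real.rpow_add hN0, sub_add_cancel]

theorem tw88 {t z v w E c : ℝ} (ht : |t| * w ≤ c / 4 * E) (hv : 0 ≤ v) (hz : z ≤ v * w) : |t| * z ≤ c / 4 * v * E := by
  have h1 : |t| * z ≤ |t| * (v * w) := mul_le_mul_of_nonneg_left hz (abs_nonneg t)
  have h2 := mul_le_mul_of_nonneg_left ht hv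
  linarith

theorem sq88 {r v u w E : ℝ} (hv : 1 ≤ v) (hu : 1 ≤ u) (hE : 0 ≤ E) (hr : r ≤ 6 * v * w) (hwE : w ≤ u * E ^ 2) :
    Real.sqrt r ≤ 6 * v * u * E := by
  have hv0 : 0 < v := by linarith
  have hu0 : 0 < u := by linarith
  refine Real.sqrt_le_iff.2 ⟨by positivity, ?_⟩
  have m6 : 6 * v * w ≤ 6 * v * (u * E ^ 2) := mul_le_mul_of_nonneg_left hwE (by positivity)
  have m7 : 1 ≤ v * u := one_le_mul_of_one_le_of_one_le hv hu
  have m8 : (6 * v * u) * E ^ 2 * 1 ≤ (6 * v * u) * E ^ 2 * (6 * v * u) := mul_le_mul_of_nonneg_left (by linarith) (by positivity)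
  have e1 : (6 * v * u * E) ^ 2 = (6 * v * u) * E ^ 2 * (6 * v * u) := by ring
  rw [e1]
  linarith

theorem sm88 {c u v E B la : ℝ} (hla : la = (4 * u + 1 + c / 4 * v + 6 * v * u ^ 2) * E) (hE : 1 ≤ E) (hB : B = u * E +
    ((u * E + c / 4 * v * E) + u * (E + 6 * v * u * E))) : -la + (1 + B) ≤ -(u * E) := by
  have e1 : la = 4 * (u * E) + E + c / 4 * v * E + 6 * v * u ^ 2 * E := by
    rw [hla]
    ring
  have e2 : B = 3 * (u * E) + c / 4 * v * E + 6 * v * u ^ 2 * E := by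
    rw [hB]
    ring
  rw [e1, e2]
  linarith

theorem la88 {c u v E om la La : ℝ} (hc : 0 < c) (hu : 1 ≤ u) (hv : 1 ≤ v) (hE : 1 ≤ E) (hcu : 12 + c ≤ u)
    (hla : la = (4 * u + 1 + c / 4 * v + 6 * v * u ^ 2) * E) (hLa : La = u ^ 3 * v * E) (hom : om + 1 ≤ c / 16 * (v * E)) :
    om + la + 1 ≤ La := by
  obtain ⟨G, hG⟩ : ∃ G : ℝ, G = u ^ 2 * v * E := ⟨_, rfl⟩
  have hE0 : 0 ≤ E := by linarith
  have hv0 : 0 ≤ v := by linarith
  have hu0 : 0 ≤ u := by linarith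
  have hG0 : 0 ≤ G := by rw [hG]; positivity
  have huu : 1 ≤ u ^ 2 := one_le_pow₀ hu
  have huu2 : u ≤ u ^ 2 := le_self_pow₀ hu (by norm_num)
  have r3 : La = u * G := by rw [hLa, hG]; ring
  have r2 : (12 + c) * G ≤ u * G := mul_le_mul_of_nonneg_right hcu hG0
  have r4 : u * E ≤ G := by
    rw [hG]
    refine mul_le_mul_of_nonneg_right ?_ hE0
    calc u ≤ u ^ 2 := huu2
      _ ≤ u ^ 2 * v := le_mul_of_one_le_right (by positivity) hv
  have r5 : v * E ≤ G := by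
    rw [hG]
    exact mul_le_mul_of_nonneg_right (le_mul_of_one_le_left hv0 huu) hE0
  have r6 : E ≤ G := by
    rw [hG]
    exact le_mul_of_one_le_left hE0 (one_le_mul_of_one_le_of_one_le huu hv)
  have r7 : c * (v * E) ≤ c * G := mul_le_mul_of_nonneg_left r5 hc.le
  have r8 : 0 ≤ c * G := mul_nonneg hc.le hG0
  have e1 : la = 4 * (u * E) + E + (c * (v * E)) / 4 + 6 * G := by
    rw [hla, hG]
    ring
  rw [e1, r3]
  linarith

theorem tp88 {c u v E D La : ℝ} (hc : 0 < c) (hu : 1 ≤ u) (hv : 1 ≤ v) (hE : 0 ≤ E) (hcu : 32 / c ≤ u) (hLa : La = u ^ 3 * v * E)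
    (hD : u ^ 5 * v ≤ D) : La ≤ c / 32 * (D * E) := by
  have r2 : u ^ 5 * v * E ≤ D * E := mul_le_mul_of_nonneg_right hD hE
  have r3 : 32 ≤ u * c := by rwa [div_le_iff₀ hc] at hcu
  have r4 : u ^ 3 * v * E ≤ c / 32 * (u ^ 5 * v * E) := by
    have e1 : c / 32 * (u ^ 5 * v * E) = (u * c / 32) * u * (u ^ 3 * v * E) := by ring
    rw [e1]
    have : 1 ≤ (u * c / 32) * u := one_le_mul_of_one_le_of_one_le (by linarith) hu
    exact le_mul_of_one_le_left (by positivity) this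
  rw [hLa]
  have := mul_le_mul_of_nonneg_left r2 (show 0 ≤ c / 32 by positivity)
  linarith

theorem half_exp88 : Real.exp (-1) ≤ 1 / 2 := by
  rw [Real.exp_neg, inv_le_comm₀ (Real.exp_pos 1) (by norm_num)]
  have := Real.add_one_le_exp (1 : ℝ)
  linarith

theorem two_le_exp88 : (2 : ℝ) ≤ Real.exp 1 := by
  have := Real.add_one_le_exp (1 : ℝ)
  linarith

/-- The masses near the line. -/
theorem near88 {t c' ε₁ δ₁ u v E w : ℝ} {N T M Nt a n : ℕ} {p : ℕ → ℝ} {η : Env} (hu : u = (N : ℝ) ^ ε₁)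
    (hE : E = EE μ s n) (hE1 : 1 ≤ E) (u1 : 1 ≤ u) (v1 : 1 ≤ v) (hwE : w ≤ u * E ^ 2)
    (u4 : 2 * (N : ℝ) ≤ Real.exp u) (hpos : ∀ k, 0 < p k) (htT : |t| * T ≤ 1) (hcond : n ≤ M - a ∨ |t| * ((M - a : ℕ) : ℝ) ≤ 1)
    (S : CrS84 μ s t ε₁ δ₁ c' N T M Nt p η) (hTn : T ≤ n) (hn1 : 1 ≤ n) (han : a + n + 1 ≤ Nt) (hNt : Nt ≤ N)
    (hf : |t| * w ≤ c / 4 * E) {x y : ℤ} (hy : |y| ≤ 2 * N) (hx : |x| ≤ 4 * N)
    (hxy : |(x : ℝ) - y - sl μ s * n| ≤ 5 * v * w) :
    PM16 (fun a b x z => nk μ s t η p M a (b - a) x z) (bh16 μ s t η p M Nt) a (a + n) y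
      (fun z => ¬ v * w ≤ |(z : ℝ) - y - sl μ s * n|) ≤
      Real.exp (u * E + ((u * E + c / 4 * v * E) + u * (E + 6 * v * u * E))) * bh16 μ s t η p M Nt (a + n) x := by
  have hu0 : 0 < u := by linarith
  have hv0 : 0 < v := by linarith
  have hanN : a + n ≤ Nt := by omega
  have hBx := bh_pos (μ := μ) (s := s) (h := t) (η := η) (p := p) (M := M) (Nt := Nt) hpos hanN x
  have e0 : a + n - a = n := by omega
  unfold PM16
  simp only [e0]
  refine (sum_le_sum (g := fun _ => Real.exp ((u * E + c / 4 * v * E) + u * (E + 6 * v * u * E)) * bh16 μ s t η p M Nt (a + n) x)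
    fun z hz => ?_).trans ?_
  · rw [mem_filter, mem_Icc, not_le] at hz
    obtain ⟨⟨z1, z2⟩, z3⟩ := hz
    have hz4 : |z| ≤ 4 * (N : ℤ) := by
      rw [abs_le] at hy ⊢
      omega
    have hy4 : |y| ≤ 4 * (N : ℤ) := by
      have : (0 : ℤ) ≤ N := by positivity
      omega
    have m1 := S.cu a n (by omega) (by omega) hcond y z hy4
    rw [← hu, ← hE] at m1
    have m2 := cr_free88 S htT (a := a + n) (by omega) hz4 hx
    rw [← hu] at m2
    have m3 : |t| * |(z : ℝ) - y - sl μ s * n| ≤ c / 4 * v * E := tw88 hf hv0.le z3.le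
    have m4 : Real.sqrt |(z : ℝ) - x| ≤ 6 * v * u * E := by
      refine sq88 v1 u1 (by linarith) ?_ hwE
      have e2 : (z : ℝ) - x = ((z : ℝ) - y - sl μ s * n) - ((x : ℝ) - y - sl μ s * n) := by ring
      rw [e2]
      refine (abs_sub _ _).trans ?_
      linarith
    have m9 : u * (EE μ s T + Real.sqrt |(z : ℝ) - x|) ≤ u * (E + 6 * v * u * E) := by
      refine mul_le_mul_of_nonneg_left (add_le_add ?_ m4) hu0.le
      rw [hE]
      exact EE_mono hTn
    have m10 := mul_le_mul m1 m2 (bh_pos hpos hanN z).le (Real.exp_pos _).le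
    refine m10.trans ?_
    rw [← mul_assoc, ← Real.exp_add]
    exact mul_le_mul_of_nonneg_right (Real.exp_le_exp.2 (by linarith)) hBx.le
  · rw [sum_const, nsmul_eq_mul]
    have f1 : ((Icc y (y + (n : ℤ))).filter fun z : ℤ => ¬ v * w ≤ |(z : ℝ) - y - sl μ s * n|).card ≤ 2 * N := by
      refine (card_filter_le _ _).trans ?_
      rw [Int.card_Icc]
      omega
    have f2 : ((((Icc y (y + (n : ℤ))).filter fun z : ℤ => ¬ v * w ≤ |(z : ℝ) - y - sl μ s * n|).card : ℕ) : ℝ) ≤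
        Real.exp (u * E) := by
      refine (show (((Icc y (y + (n : ℤ))).filter fun z : ℤ => ¬ v * w ≤ |(z : ℝ) - y - sl μ s * n|).card : ℝ) ≤ 2 * N by
        exact_mod_cast f1).trans (u4.trans (Real.exp_le_exp.2 ?_))
      exact le_mul_of_one_le_right hu0.le hE1
    refine (mul_le_mul_of_nonneg_right f2 (mul_nonneg (Real.exp_pos _).le hBx.le)).trans (le_of_eq ?_)
    rw [← mul_assoc, ← Real.exp_add]

/-- One kernel against the mass. -/
theorem low88 {t c' ε₁ δ₁ εa u v E w : ℝ} {N T H M Nt a n : ℕ} {p : ℕ → ℝ} {η : Env} (hu : u = (N : ℝ) ^ ε₁)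
    (hv : v = (N : ℝ) ^ εa) (hE : E = EE μ s n) (hw : w = wd μ s n) (hE1 : 1 ≤ E) (hw0 : 0 < w) (u1 : 1 ≤ u) (v1 : 1 ≤ v)
    (hwE : w ≤ u * E ^ 2) (u4 : 2 * (N : ℝ) ≤ Real.exp u) (u5 : 5 * v ≤ (N : ℝ) ^ δ₁) (hpos : ∀ k, 0 < p k) (htT : |t| * T ≤ 1)
    (hcond : n ≤ M - a ∨ |t| * ((M - a : ℕ) : ℝ) ≤ 1) (S : CrS84 μ s t ε₁ δ₁ c' N T M Nt p η) (hCA : CA88 μ s t c εa N T H M Nt p η)
    (hTn : 2 * T ≤ n) (hn1 : 1 ≤ n) (hnH : n ≤ H) (han : a + n + 1 ≤ Nt) (hNt : Nt ≤ N) (hf : |t| * w ≤ c / 4 * E)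
    (h1 : 1 ≤ c / 16 * (v * E)) {x y : ℤ} (hy : |y| ≤ 2 * N) (hx : |x| ≤ 4 * N)
    (hxy : |(x : ℝ) - y - sl μ s * n| ≤ 5 * v * w) :
    Real.exp (-((4 * u + 1 + c / 4 * v + 6 * v * u ^ 2) * E)) * bh16 μ s t η p M Nt a y ≤
      nk μ s t η p M a n y x * bh16 μ s t η p M Nt (a + n) x := by
  have hanN : a + n ≤ Nt := by omega
  have hy4 : |y| ≤ 4 * (N : ℤ) := by
    have : (0 : ℤ) ≤ N := by positivity
    omega
  have k1 := S.cl a n (by omega) (by omega) hcond y x hy4 (hxy.trans (by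
    rw [← hw]
    exact mul_le_mul_of_nonneg_right u5 hw0.le))
  rw [← hu, ← hE] at k1
  -- the upper bound of the mass of `y`
  have hS := sys_model16 (μ := μ) (s := s) (h := t) (η := η) (M := M) (N := Nt) hpos
  have k2 := hCA a n hTn hnH (by omega) (by rw [← hw, ← hE]; exact hf) y hy v (by rw [hv])
  rw [← hw, ← hE] at k2
  have k3 := PM16_split hS (show a ≤ a + n by omega) hanN y (fun z => v * w ≤ |(z : ℝ) - y - sl μ s * n|)
  have hBy := bh_pos (μ := μ) (s := s) (h := t) (η := η) (p := p) (M := M) (Nt := Nt) hpos (show a ≤ Nt by omega) y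
  have hBx := bh_pos (μ := μ) (s := s) (h := t) (η := η) (p := p) (M := M) (Nt := Nt) hpos hanN x
  have k4 : Real.exp (-(c / 16 * (v * E))) ≤ 1 / 2 := (Real.exp_le_exp.2 (by linarith)).trans half_exp88
  have k5 := mul_le_mul_of_nonneg_right k4 hBy.le
  have k6 := near88 (v := v) (w := w) (c := c) hu hE hE1 u1 v1 hwE u4 hpos htT hcond S (by omega) hn1 han hNt hf hy hx hxy
  obtain ⟨B, hB⟩ : ∃ B : ℝ, B = u * E + ((u * E + c / 4 * v * E) + u * (E + 6 * v * u * E)) := ⟨_, rfl⟩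
  rw [← hB] at k6
  have k7 : bh16 μ s t η p M Nt a y ≤ 2 * (Real.exp B * bh16 μ s t η p M Nt (a + n) x) := by linarith
  have p1 : bh16 μ s t η p M Nt a y ≤ Real.exp (1 + B) * bh16 μ s t η p M Nt (a + n) x := by
    refine k7.trans ?_
    rw [Real.exp_add, mul_assoc]
    exact mul_le_mul_of_nonneg_right two_le_exp88 (mul_nonneg (Real.exp_pos _).le hBx.le)
  obtain ⟨la, hla⟩ : ∃ la : ℝ, la = (4 * u + 1 + c / 4 * v + 6 * v * u ^ 2) * E := ⟨_, rfl⟩
  rw [← hla]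
  refine ((mul_le_mul_of_nonneg_left p1 (Real.exp_pos _).le).trans ?_).trans (mul_le_mul_of_nonneg_right k1 hBx.le)
  rw [← mul_assoc, ← Real.exp_add]
  exact mul_le_mul_of_nonneg_right (Real.exp_le_exp.2 (sm88 hla hE1 hB)) hBx.le

/-- **THE TOP OF THE PAST**: the mass of the places near the line of the heavy place `q` (row `a + n'`), the top of the past towers and the
crude regularity of the forward masses, in the row `a + n`. -/
theorem pt88 (h : In μ s c C n₀) (hL : LB84 μ s) {ε₁ δ₁ εa : ℝ} (hε₁ : 0 < ε₁) (hεa : 0 < εa) (hδ : εa < δ₁) : ∃ n₁ : ℕ, 1 ≤ n₁ ∧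
    ∀ {t c' : ℝ} {N T H M Nt : ℕ} {p : ℕ → ℝ} {η : Env} {l : ℤ → ℝ}, n₁ ≤ T → |t| * H ≤ 1 →
    (∀ k, k < M → p k = Real.exp (s + t)) → (∀ k, M ≤ k → p k = Real.exp s) → (∀ y, 0 ≤ l y) →
    CrS84 μ s t ε₁ δ₁ c' N T M Nt p η → CA88 μ s t c εa N T H M Nt p η → Nt ≤ N → ∀ {Z : ℝ}, Tt88 μ s t η p M Nt l Z →
    ∀ {a n n' : ℕ} {q : ℤ} {om : ℝ}, 2 * T ≤ n → n ≤ n' → n' ≤ 2 * n → n' ≤ H → a + n' + 1 ≤ Nt → |q| ≤ N →
    |t| * wd μ s n ≤ c / 4 * EE μ s n → |t| * wd μ s n' ≤ c / 4 * EE μ s n' →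
    Real.exp (-om) * Z ≤ fh84 μ s t η p M l (a + n') q * bh16 μ s t η p M Nt (a + n') q → 0 ≤ om →
    om + 1 ≤ c / 16 * ((N : ℝ) ^ εa * EE μ s n) →
    ∀ x : ℤ, |x| ≤ N → |(x : ℝ) - q + sl μ s * ((n' - n : ℕ) : ℝ)| ≤ (N : ℝ) ^ εa * wd μ s n →
      Real.exp (-((N : ℝ) ^ (3 * ε₁ + εa) * EE μ s n)) * Z ≤ fh84 μ s t η p M l (a + n) x * bh16 μ s t η p M Nt (a + n) x ∧
      (∀ D : ℝ, (N : ℝ) ^ (5 * ε₁ + εa) ≤ D → PMP84 μ s t η p M l (a + n) a x (fun y => D * wd μ s n ≤ |(x : ℝ) - y - sl μ s * n|) ≤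
        Real.exp (-(c / 32 * (D * EE μ s n))) * fh84 μ s t η p M l (a + n) x) ∧
      ∀ x' : ℤ, |x'| ≤ 4 * N → fh84 μ s t η p M l (a + n) x' ≤
        Real.exp ((N : ℝ) ^ (3 * ε₁ + εa) * EE μ s n + (N : ℝ) ^ ε₁ * (EE μ s T + Real.sqrt |(x : ℝ) - x'|)) *
          fh84 μ s t η p M l (a + n) x := by
  have hc0 := h.c0
  obtain ⟨n₃, hn₃⟩ := hL ε₁ hε₁
  obtain ⟨n₄, hn₄⟩ := num88b (c := c) hε₁ hεa hδ
  refine ⟨max n₃ (max n₄ 1), (le_max_right _ _).trans (le_max_right _ _), ?_⟩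
  intro t c' N T H M Nt p η l hT htH hp hp' hl S hCA hNt Z htot a n n' q om hTn hnn hn2 hnH han hq hf hf' hc hom0 hom x hxN hx
  have g3 : n₃ ≤ T := (le_max_left _ _).trans hT
  have g4 : n₄ ≤ T := ((le_max_left _ _).trans (le_max_right _ _)).trans hT
  have g6 : 1 ≤ T := ((le_max_right _ _).trans (le_max_right _ _)).trans hT
  have hTN : T ≤ N := by omega
  have hpos := pos_p hp hp'
  obtain ⟨u, hu⟩ : ∃ u : ℝ, u = (N : ℝ) ^ ε₁ := ⟨_, rfl⟩
  obtain ⟨v, hv⟩ : ∃ v : ℝ, v = (N : ℝ) ^ εa := ⟨_, rfl⟩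
  obtain ⟨u1, v1, u2, u3, u4, u5⟩ := hn₄ N (g4.trans hTN)
  rw [← hu] at u1 u2 u3 u4
  rw [← hv] at v1 u5
  have hNR : (1 : ℝ) ≤ N := by exact_mod_cast (show 1 ≤ N by omega)
  have hN0 : (0 : ℝ) < N := by linarith
  have hv0 : 0 < v := by linarith
  have e35 : (N : ℝ) ^ (3 * ε₁ + εa) = u ^ 3 * v := by
    rw [Real.rpow_add hN0, hu, hv, ← Real.rpow_natCast, ← Real.rpow_mul hN0.le]
    congr 2
    push_cast
    ring
  have e55 : (N : ℝ) ^ (5 * ε₁ + εa) = u ^ 5 * v := by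
    rw [Real.rpow_add hN0, hu, hv, ← Real.rpow_natCast, ← Real.rpow_mul hN0.le]
    congr 2
    push_cast
    ring
  rw [e35, e55, ← hu]
  rw [← hv] at hx hom
  obtain ⟨E, hE⟩ : ∃ E : ℝ, E = EE μ s n := ⟨_, rfl⟩
  obtain ⟨w, hw⟩ : ∃ w : ℝ, w = wd μ s n := ⟨_, rfl⟩
  rw [← hE] at hom hf ⊢
  rw [← hw] at hx hf
  have hE1 : 1 ≤ E := by rw [hE]; exact one_le_EE n
  have hE0 : 0 < E := by linarith
  have hn1 : 1 ≤ n := by omega
  have hw0 : 0 < w := by
    have := wd_two h hn1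
    rw [hw]
    linarith
  have hwE : w ≤ u * E ^ 2 := by
    have h1 := hn₃ n (by omega)
    rw [← hw, ← hE] at h1
    refine h1.trans (mul_le_mul_of_nonneg_right ?_ (sq_nonneg _))
    rw [hu]
    exact Real.rpow_le_rpow (Nat.cast_nonneg _) (by exact_mod_cast (show n ≤ N by omega)) hε₁.le
  have hEE' : E ≤ EE μ s n' := by rw [hE]; exact EE_mono hnn
  have hww' : wd μ s n' ≤ 4 * w := by
    have w1 := wd_lower_one h hn1 hnn
    rw [← hw] at w1
    exact w4_88 (show (0 : ℝ) < n by exact_mod_cast hn1) w1 (by exact_mod_cast hn2) hw0.le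
  have hcond : ∀ m : ℕ, m ≤ H → m ≤ M - a ∨ |t| * ((M - a : ℕ) : ℝ) ≤ 1 := by
    intro m hm
    rcases le_or_gt m (M - a) with h1 | h1
    · exact Or.inl h1
    · refine Or.inr (le_trans (mul_le_mul_of_nonneg_left ?_ (abs_nonneg t)) htH)
      exact_mod_cast (show M - a ≤ H by omega)
  have htT : |t| * T ≤ 1 := le_trans (mul_le_mul_of_nonneg_left (by exact_mod_cast (show T ≤ H by omega)) (abs_nonneg t)) htH
  obtain ⟨La, hLa⟩ : ∃ La : ℝ, La = u ^ 3 * v * E := ⟨_, rfl⟩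
  have hanN : a + n ≤ Nt := by omega
  have hanN' : a + n' ≤ Nt := by omega
  have hom1 : 1 ≤ c / 16 * (v * E) := by linarith
  have hx4 : |x| ≤ 4 * (N : ℤ) := by
    have : (0 : ℤ) ≤ N := by positivity
    omega
  -- the mass of the place
  have hplace : Real.exp (-La) * Z ≤ fh84 μ s t η p M l (a + n) x * bh16 μ s t η p M Nt (a + n) x := by
    obtain ⟨la, hla⟩ : ∃ la : ℝ, la = (4 * u + 1 + c / 4 * v + 6 * v * u ^ 2) * E := ⟨_, rfl⟩
    have key := place88 (μ := μ) (s := s) (h := t) (η := η) (p := p) (M := M) (Nt := Nt) (l := l) hpos hl hanN hanN' (om := om) (la := la)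
      htot (q := q) (x := x) hc (fun y => |(q : ℝ) - y - sl μ s * n'| < v * wd μ s n')
      (fun y hy1 hy2 hyP => by
        rw [not_lt] at hyP
        have hy2N : |y| ≤ 2 * (N : ℤ) := by
          rw [abs_le] at hq ⊢
          omega
        have k1 := hCA a n' (by omega) hnH han hf' y hy2N v (by rw [hv])
        have k2 := pm_one88 (μ := μ) (s := s) (h := t) (η := η) (p := p) (M := M) (Nt := Nt) hpos hanN' y q
          (fun z => v * wd μ s n' ≤ |(z : ℝ) - y - sl μ s * n'|) hyP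
        refine (k2.trans k1).trans (mul_le_mul_of_nonneg_right ?_ (bh_pos hpos (by omega) y).le)
        have k3 : Real.exp (-(c / 16 * (v * EE μ s n'))) ≤ Real.exp (-om + -1) := by
          refine Real.exp_le_exp.2 ?_
          have : c / 16 * (v * E) ≤ c / 16 * (v * EE μ s n') :=
            mul_le_mul_of_nonneg_left (mul_le_mul_of_nonneg_left hEE' hv0.le) (by positivity)
          linarith
        rw [Real.exp_add] at k3
        have k4 := mul_le_mul_of_nonneg_left half_exp88 (Real.exp_pos (-om)).le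
        linarith)
      (fun y hy1 hy2 hyP => by
        have hy2N : |y| ≤ 2 * (N : ℤ) := by
          rw [abs_le] at hq ⊢
          omega
        have hxy : |(x : ℝ) - y - sl μ s * n| ≤ 5 * v * w := by
          have e1 : (x : ℝ) - y - sl μ s * n = ((x : ℝ) - q + sl μ s * ((n' - n : ℕ) : ℝ)) + ((q : ℝ) - y - sl μ s * n') := by
            push_cast [Nat.cast_sub hnn]
            ring
          rw [e1]
          refine (abs_add_le _ _).trans ?_
          have : v * wd μ s n' ≤ v * (4 * w) := mul_le_mul_of_nonneg_left hww' hv0.le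
          linarith
        rw [hla]
        exact low88 (εa := εa) (c := c) hu hv hE hw hE1 hw0 u1 v1 hwE u4 u5 hpos htT (hcond n (by omega)) S hCA hTn hn1 (by omega)
          (by omega) hNt hf hom1 hy2N hx4 hxy)
    refine le_trans ?_ key
    have hZ0 : 0 ≤ Z := by
      have := htot 0 (Nat.zero_le _) ∅
      rwa [sum_empty] at this
    refine mul_le_mul_of_nonneg_right ?_ hZ0
    have k10 : om + la + 1 ≤ La := la88 hc0 u1 v1 hE1 u2 hla hLa hom
    calc Real.exp (-La) ≤ Real.exp (-(om + la) + -1) := Real.exp_le_exp.2 (by linarith)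
      _ = Real.exp (-(om + la)) * Real.exp (-1) := Real.exp_add _ _
      _ ≤ Real.exp (-(om + la)) * (1 / 2) := mul_le_mul_of_nonneg_left half_exp88 (Real.exp_pos _).le
      _ = _ := by ring
  rw [← hLa]
  refine ⟨hplace, fun D hD => ?_, fun x' hx' => ?_⟩
  · -- the top
    have k1 := top88 (μ := μ) (s := s) (h := t) (η := η) (p := p) (M := M) (Nt := Nt) (l := l) hpos hl hanN (La := La)
      (G := c / 16 * (D * E)) htot hplace (fun y => D * wd μ s n ≤ |(x : ℝ) - y - sl μ s * n|) (fun y hy1 hy2 hyQ => by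
        have hy2N : |y| ≤ 2 * (N : ℤ) := by
          rw [abs_le] at hxN ⊢
          omega
        have hvD : v ≤ D := by
          refine le_trans ?_ hD
          exact le_mul_of_one_le_left hv0.le (one_le_pow₀ u1)
        have m1 := hCA a n hTn (by omega) (by omega) (by rw [← hw, ← hE]; exact hf) y hy2N D (by rw [← hv]; exact hvD)
        have m2 := pm_one88 (μ := μ) (s := s) (h := t) (η := η) (p := p) (M := M) (Nt := Nt) hpos hanN y x
          (fun z => D * wd μ s n ≤ |(z : ℝ) - y - sl μ s * n|) hyQ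
        rw [← hE] at m1
        exact m2.trans m1)
    refine k1.trans (mul_le_mul_of_nonneg_right (Real.exp_le_exp.2 ?_) (fh_nonneg hpos hl _ _))
    have r1 : La ≤ c / 32 * (D * E) := tp88 hc0 u1 v1 hE0.le u3 hLa hD
    have e1 : c / 16 * (D * E) = c / 32 * (D * E) + c / 32 * (D * E) := by ring
    linarith
  · -- the crude regularity
    have m2 := cr_free88 S htT (a := a + n) (by omega) hx4 hx'
    rw [← hu] at m2
    exact cr88 hpos hl hanN htot hplace m2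

end

end Pool.Agent.W_7d29a1_C1.PtC88
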