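import Pool.Agent.W_7d29a1_C1.TamK16

/-!
MP_7d29a1_pr, attractor route [C1]: LOCAL REGULARITY AT FAR PLACES IS PUSHED FROM A ROW TO AN EARLIER ROW, over `FarW89.Slabs`. (helper31)

`pushL31`: abstract. `pushM31`: the masses `bh16`; at the row `r f` the places with base at the distance `≤ Y + 1` from the line are regular
up to the distance `D`; at the row `r a` the places with base at the distance `≤ Y` are regular up to the distance `D - (r f - r a) - 1`.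
-/

set_option autoImplicit false

namespace Pool.Agent.W_7d29a1_C1.D31

open MeasureTheory ProbabilityTheory Filter Topology Finset
open Pool.Agent.W_7d29a1_F Pool.Agent.W_7d29a1_h4g Pool.Agent.W_7d29a1_H Pool.Agent.W_7d29a1_HS
open Pool.Agent.W_7d29a1_C1.K91 (wt wt_pos)
open Pool.Agent.W_7d29a1_C1.H75 Pool.Agent.W_7d29a1_C1.U16
open Pool.Agent.W_7d29a1_C1.FarK89 Pool.Agent.W_7d29a1_C1.FarW89

noncomputable section

/-- **Push of the local regularity**, abstract. -/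
theorem pushL31 {K : ℤ → ℤ → ℝ} {F G : ℤ → ℝ} {n : ℕ} {x x₀ y₀ : ℤ} {δ : ℤ → ℝ} {b U al r σ cK : ℝ}
    (hF : F x = ∑ y ∈ Icc x (x + n), K x y * G y) (hF₀ : K x₀ y₀ * G y₀ ≤ F x₀) (hK : ∀ y, 0 ≤ K x y) (hG : ∀ y, 0 ≤ G y)
    (hup : ∀ y ∈ Icc x (x + n), K x y ≤ Real.exp (U - cK * δ y)) (hlow : Real.exp (-al) ≤ K x₀ y₀)
    (hLR : ∀ y ∈ Icc x (x + n), G y ≤ Real.exp (r + σ * |(y : ℝ) - y₀|) * G y₀)
    (hdist : ∀ y ∈ Icc x (x + n), |(y : ℝ) - y₀| ≤ δ y + |(x : ℝ) - x₀| + 1) (hδ : ∀ y, 0 ≤ δ y) (hσ : 0 ≤ σ) (hσc : σ ≤ cK)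
    (hcard : ((n : ℝ) + 1) ≤ Real.exp b) :
    F x ≤ Real.exp (b + U + r + al + σ * (|(x : ℝ) - x₀| + 1)) * F x₀ := by
  have h1 : ∀ y ∈ Icc x (x + n), K x y * G y ≤ Real.exp (U + r + σ * (|(x : ℝ) - x₀| + 1)) * G y₀ := by
    intro y hy
    have t1 := mul_le_mul (hup y hy) (hLR y hy) (hG y) (Real.exp_pos _).le
    refine t1.trans ?_
    rw [← mul_assoc, ← Real.exp_add]
    refine mul_le_mul_of_nonneg_right (Real.exp_le_exp.2 ?_) (hG y₀)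
    have t2 := mul_le_mul_of_nonneg_left (hdist y hy) hσ
    have t3 := mul_le_mul_of_nonneg_right hσc (hδ y)
    linarith [show σ * (δ y + |(x : ℝ) - x₀| + 1) = σ * δ y + σ * (|(x : ℝ) - x₀| + 1) by ring]
  rw [hF]
  refine (sum_le_sum h1).trans ?_
  rw [sum_const, nsmul_eq_mul]
  have hc : ((Icc x (x + n)).card : ℝ) ≤ Real.exp b := by
    refine le_trans ?_ hcard
    rw [Int.card_Icc]
    have : (x + n + 1 - x).toNat = n + 1 := by omega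
    rw [this]
    push_cast
    exact le_rfl
  have h2 : G y₀ ≤ Real.exp al * F x₀ := by
    have h3 := (mul_le_mul_of_nonneg_right hlow (hG y₀)).trans hF₀
    have h4 := mul_le_mul_of_nonneg_left h3 (Real.exp_pos al).le
    rwa [← mul_assoc, ← Real.exp_add, add_neg_cancel, Real.exp_zero, one_mul] at h4
  calc ((Icc x (x + n)).card : ℝ) * (Real.exp (U + r + σ * (|(x : ℝ) - x₀| + 1)) * G y₀)
      ≤ Real.exp b * (Real.exp (U + r + σ * (|(x : ℝ) - x₀| + 1)) * (Real.exp al * F x₀)) :=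
        mul_le_mul hc (mul_le_mul_of_nonneg_left h2 (Real.exp_pos _).le) (mul_nonneg (Real.exp_pos _).le (hG y₀)) (Real.exp_pos _).le
    _ = (Real.exp b * Real.exp (U + r + σ * (|(x : ℝ) - x₀| + 1)) * Real.exp al) * F x₀ := by ring
    _ = _ := by
      rw [← Real.exp_add, ← Real.exp_add]
      congr 2
      ring

variable {μ : Measure ℝ} {s : ℝ} [IsProbabilityMeasure μ] {c C : ℝ} {n₀ : ℕ}

/-- The loss of the push. -/
def los31 (P : ℕ) (c δ C₅ C₆ Q K X : ℝ) : ℝ :=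
  1 + LQ (2 * P) (c / 8) (C₅ * Q) * gr (2 * P) (AQ (2 * P) δ (LQ (2 * P) (c / 8) (C₅ * Q)) + X) + Q + C₆ * Q * gr (2 * P) (X + K)

/-- **THE PUSH IN THE MODEL.** -/
theorem pushM31 (h0 : In μ s c C n₀) (P : ℕ) {K θ : ℝ} (hK : 4 ≤ K) (hθ : 0 < θ) : ∃ C₅ C₆ : ℝ, 0 < C₅ ∧ 0 < C₆ ∧ ∃ n₁ : ℕ, 1 ≤ n₁ ∧
    ∀ {h Q : ℝ} {η : Env} {p : ℕ → ℝ} {M N : ℕ} {κ : Pt} {r T Nr : ℕ → ℕ} {q : ℕ → ℝ} {bs : ℕ → Pt} {a f Tt : ℕ}, a < f →
    (∀ k, k < M → p k = Real.exp (s + h)) → (∀ k, M ≤ k → p k = Real.exp s) → Slabs μ s c θ K h P η κ r T Nr q bs a f Tt n₁ Q →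
    (∀ u, a ≤ u → u < f → θ * T u ≤ ((r (u + 1) - r u : ℕ) : ℝ)) → r f ≤ N → (N : ℝ) + 1 ≤ Real.exp (EE μ s Tt) →
    ∀ {Y D r₀ σ δ : ℝ}, 0 ≤ σ → σ ≤ hc μ s c Tt / 8 → 0 < δ → 0 ≤ Y →
    (∀ y y₀ : ℤ, |lt μ s κ r f y₀| ≤ Y + 1 → |(y : ℝ) - y₀| ≤ D →
      bh16 μ s h η p M N (r f) y ≤ Real.exp (r₀ + σ * |(y : ℝ) - y₀|) * bh16 μ s h η p M N (r f) y₀) →
    ∀ x x₀ : ℤ, |lt μ s κ r a x₀| ≤ Y → |(x : ℝ) - x₀| + ((r f - r a : ℕ) : ℝ) + 1 ≤ D →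
      bh16 μ s h η p M N (r a) x ≤ Real.exp (los31 P c δ C₅ C₆ Q K (Y / wd μ s Tt) * EE μ s Tt + r₀ + σ +
        (σ + δ * (EE μ s Tt / wd μ s Tt)) * |(x : ℝ) - x₀|) * bh16 μ s h η p M N (r a) x₀ := by
  have hc0 := h0.c0
  obtain ⟨C₅, hC₅, n₂, hn₂, H2⟩ := far_up h0 P
  obtain ⟨C₆, hC₆, n₃, hn₃, H3⟩ := far_low89 h0 P hK hθ
  obtain ⟨n₄, hn₄⟩ := eventually_atTop.1 ((wd_tendsto h0).eventually_ge_atTop 2)
  refine ⟨C₅, C₆, hC₅, hC₆, max n₂ (max n₃ n₄), hn₂.trans (le_max_left _ _), ?_⟩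
  intro h Q η p M N κ r T Nr q bs a f Tt haf hp hp' hS hθr hrN hN Y D r₀ σ δ hσ hσc hδ hY hLR x x₀ hx₀ hxD
  have hpp : ∀ k, 0 < p k := fun k => by
    rcases lt_or_ge k M with h1 | h1
    · rw [hp k h1]; exact Real.exp_pos _
    · rw [hp' k h1]; exact Real.exp_pos _
  have S := sys_model16 (μ := μ) (s := s) (h := h) (η := η) (p := p) (M := M) (N := N) hpp
  have mono : ∀ {m' : ℕ}, m' ≤ max n₂ (max n₃ n₄) → Slabs μ s c θ K h P η κ r T Nr q bs a f Tt m' Q := fun hm =>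
    ⟨hS.q0, hS.K3, hm.trans hS.Tt1, fun u h1 h2 => hm.trans (hS.T1 u h1 h2), hS.TT, hS.NT, hS.rr, hS.b1, hS.b2, hS.b3, hS.far, hS.cost, hS.force⟩
  have S2 := mono (le_max_left n₂ _)
  have S3 := mono ((le_max_left n₃ _).trans (le_max_right n₂ _))
  have hw2 : ∀ {m : ℕ}, max n₂ (max n₃ n₄) ≤ m → 2 ≤ wd μ s m := fun hm =>
    hn₄ _ (((le_max_right _ _).trans (le_max_right _ _)).trans hm)
  have hw : 2 ≤ wd μ s Tt := hw2 hS.Tt1
  have hw0 : 0 < wd μ s Tt := by linarith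
  have hE := EE_pos (μ := μ) (s := s) Tt
  have hraf : r a ≤ r f := by
    have := r_mono (r := r) (a := a) (b := f) hS.rr (f - a) a le_rfl (by omega)
    rwa [Nat.add_sub_cancel' haf.le] at this
  obtain ⟨n, hn⟩ : ∃ n, n = r f - r a := ⟨_, rfl⟩
  have hQ0 : 0 ≤ Q := by
    have h3 := hS.cost
    have h4 : 0 ≤ ∑ u ∈ Ico a f, (1 + q u) ^ 2 * gr (2 * P) (2 * wd μ s Tt / wd μ s (T u)) * EE μ s (T u) := by
      refine sum_nonneg fun u hu => ?_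
      rw [mem_Ico] at hu
      have h5 := hw2 (hS.T1 u hu.1 hu.2)
      have h6 := EE_pos (μ := μ) (s := s) (T u)
      have h7 := gr_nonneg (2 * P) (show 0 ≤ 2 * wd μ s Tt / wd μ s (T u) by positivity)
      positivity
    exact nonneg_of_mul_nonneg_left (h4.trans h3) hE
  obtain ⟨Λ, hΛ⟩ : ∃ Λ : ℝ, Λ = LQ (2 * P) (c / 8) (C₅ * Q) := ⟨_, rfl⟩
  have hΛ0 : 0 ≤ Λ := by rw [hΛ]; exact LQ_nonneg _ (by positivity)
  -- the site on the line of `x₀`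
  obtain ⟨ρ, hρ⟩ : ∃ ρ : ℝ, ρ = lt μ s κ r a x₀ := ⟨_, rfl⟩
  obtain ⟨y₀, hy₀⟩ : ∃ y₀ : ℤ, y₀ = κ.2 + ⌊sl μ s * (((r f : ℤ) - κ.1 : ℤ) : ℝ) + ρ⌋ := ⟨_, rfl⟩
  have hline : |lt μ s κ r f y₀ - ρ| ≤ 1 := by rw [hy₀]; exact line_site κ r ρ f
  have hlow := H3 haf hp hp' S3 hθr ρ x₀ y₀ (by
      rw [← hρ, sub_self, abs_zero]
      have h5 := hw2 (hS.T1 a le_rfl haf)
      nlinarith) (by
      have h5 := hw2 (hS.T1 (f - 1) (by omega) (by omega))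
      refine hline.trans ?_
      nlinarith)
  have hy₀m : y₀ ∈ Icc x₀ (x₀ + n) := by
    by_contra hcon
    rw [mem_Icc] at hcon
    rw [hn] at hcon
    rw [nk_eq_zero _ _ hcon] at hlow
    exact absurd hlow (not_le.2 (Real.exp_pos _))
  rw [mem_Icc] at hy₀m
  -- the distances
  have key : ∀ y ∈ Icc x (x + (n : ℤ)), |(y : ℝ) - y₀| ≤ |((y - x : ℤ) : ℝ) - sl μ s * ((r f - r a : ℕ) : ℝ)| + |(x : ℝ) - x₀| + 1 := by
    intro y _
    have e1 := lt_sub (μ := μ) (s := s) κ r a f x₀ y₀ hraf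
    rw [← hρ] at e1
    have e2 : (y : ℝ) - y₀ = (((y - x : ℤ) : ℝ) - sl μ s * ((r f - r a : ℕ) : ℝ)) + ((x : ℝ) - x₀) - (lt μ s κ r f y₀ - ρ) := by
      rw [e1]
      push_cast
      ring
    rw [e2]
    refine (abs_sub _ _).trans ?_
    have e3 := abs_add_le (((y - x : ℤ) : ℝ) - sl μ s * ((r f - r a : ℕ) : ℝ)) ((x : ℝ) - x₀)
    linarith
  have hdn : ∀ y ∈ Icc x (x + (n : ℤ)), |(y : ℝ) - y₀| ≤ D := by
    intro y hy
    rw [mem_Icc] at hy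
    refine le_trans ?_ hxD
    rw [← hn]
    have h1 : (x : ℝ) ≤ y := by exact_mod_cast hy.1
    have h2 : (y : ℝ) ≤ x + n := by exact_mod_cast hy.2
    have h3 : (x₀ : ℝ) ≤ y₀ := by exact_mod_cast hy₀m.1
    have h4 : (y₀ : ℝ) ≤ x₀ + n := by exact_mod_cast hy₀m.2
    have h5 := neg_abs_le ((x : ℝ) - x₀)
    have h6 := le_abs_self ((x : ℝ) - x₀)
    rw [abs_le]
    constructor <;> linarith
  have hup : ∀ y ∈ Icc x (x + (n : ℤ)), nk μ s h η p M (r a) (r f - r a) x y ≤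
      Real.exp ((Λ * gr (2 * P) (|lt μ s κ r a x| / wd μ s Tt) + Q) * EE μ s Tt -
        hc μ s c Tt / 8 * |((y - x : ℤ) : ℝ) - sl μ s * ((r f - r a : ℕ) : ℝ)|) := fun y _ => by
    rw [hΛ]
    exact H2 haf.le hp hp' S2 x y
  have hF : bh16 μ s h η p M N (r a) x = ∑ y ∈ Icc x (x + (n : ℤ)), nk μ s h η p M (r a) (r f - r a) x y * bh16 μ s h η p M N (r f) y := by
    rw [hn]
    exact S.step (r a) (r f) x hraf hrN
  have hF₀ : nk μ s h η p M (r a) (r f - r a) x₀ y₀ * bh16 μ s h η p M N (r f) y₀ ≤ bh16 μ s h η p M N (r a) x₀ := by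
    rw [S.step (r a) (r f) x₀ hraf hrN, ← hn]
    exact single_le_sum (f := fun y => nk μ s h η p M (r a) n x₀ y * bh16 μ s h η p M N (r f) y)
      (fun y _ => mul_nonneg (nk_nonneg hpp _ _ _ _) (S.b0 _ _ hrN).le) (mem_Icc.2 hy₀m)
  have hlt₀ : |lt μ s κ r f y₀| ≤ Y + 1 := by
    have h1 := abs_add_le (lt μ s κ r f y₀ - ρ) ρ
    rw [sub_add_cancel] at h1
    rw [← hρ] at hx₀
    linarith
  have hpush := pushL31 (F := bh16 μ s h η p M N (r a)) (G := bh16 μ s h η p M N (r f)) (b := EE μ s Tt) (r := r₀) hF hF₀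
    (fun y => nk_nonneg hpp _ _ _ _) (fun y => (S.b0 _ _ hrN).le) hup hlow (fun y hy => hLR y y₀ hlt₀ (hdn y hy)) key
    (fun y => abs_nonneg _) hσ hσc (by
      refine le_trans ?_ hN
      have : (n : ℝ) ≤ N := by exact_mod_cast (by omega : n ≤ N)
      linarith)
  refine hpush.trans (mul_le_mul_of_nonneg_right (Real.exp_le_exp.2 ?_) (S.b0 _ _ (hraf.trans hrN)).le)
  -- the numbers
  obtain ⟨d, hd⟩ : ∃ d, d = |(x : ℝ) - x₀| := ⟨_, rfl⟩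
  have hd0 : 0 ≤ d := by rw [hd]; exact abs_nonneg _
  have g1 : gr (2 * P) (|lt μ s κ r a x| / wd μ s Tt) ≤ gr (2 * P) (AQ (2 * P) δ Λ + (Y / wd μ s Tt + d / wd μ s Tt)) := by
    refine gr_mono _ (by positivity) ?_
    have h1 : |lt μ s κ r a x| ≤ Y + d := by
      have e : lt μ s κ r a x = lt μ s κ r a x₀ + ((x : ℝ) - x₀) := by
        unfold lt lat16
        push_cast
        ring
      rw [e, hd]
      exact (abs_add_le _ _).trans (by linarith)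
    rw [← add_div]
    have h2 := div_le_div_of_nonneg_right h1 hw0.le
    have h3 := AQ_nonneg (2 * P) δ Λ
    linarith
  have g2 := lipQ (2 * P) hδ hΛ0 (le_refl Λ) (div_nonneg hY hw0.le) (div_nonneg hd0 hw0.le)
  have g3 := (mul_le_mul_of_nonneg_left g1 hΛ0).trans g2
  have g4 := mul_le_mul_of_nonneg_right g3 hE.le
  have e1 : (Λ * gr (2 * P) (AQ (2 * P) δ Λ + Y / wd μ s Tt) + δ * (d / wd μ s Tt)) * EE μ s Tt =
      Λ * gr (2 * P) (AQ (2 * P) δ Λ + Y / wd μ s Tt) * EE μ s Tt + δ * (EE μ s Tt / wd μ s Tt) * d := by ring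
  rw [e1] at g4
  have g5 : gr (2 * P) (|ρ| / wd μ s Tt + K) ≤ gr (2 * P) (Y / wd μ s Tt + K) := by
    refine gr_mono _ (by positivity) ?_
    have h2 := div_le_div_of_nonneg_right (hρ ▸ hx₀ : |ρ| ≤ Y) hw0.le
    linarith
  have g6 := mul_le_mul_of_nonneg_right (mul_le_mul_of_nonneg_left g5 (mul_nonneg hC₆.le hQ0)) hE.le
  rw [← hd]
  unfold los31
  rw [← hΛ]
  linarith [show (1 + Λ * gr (2 * P) (AQ (2 * P) δ Λ + Y / wd μ s Tt) + Q + C₆ * Q * gr (2 * P) (Y / wd μ s Tt + K)) * EE μ s Tt =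
    EE μ s Tt + Λ * gr (2 * P) (AQ (2 * P) δ Λ + Y / wd μ s Tt) * EE μ s Tt + Q * EE μ s Tt +
      C₆ * Q * gr (2 * P) (Y / wd μ s Tt + K) * EE μ s Tt by ring,
    show (Λ * gr (2 * P) (|lt μ s κ r a x| / wd μ s Tt) + Q) * EE μ s Tt =
      Λ * gr (2 * P) (|lt μ s κ r a x| / wd μ s Tt) * EE μ s Tt + Q * EE μ s Tt by ring,
    show (σ + δ * (EE μ s Tt / wd μ s Tt)) * d = σ * d + δ * (EE μ s Tt / wd μ s Tt) * d by ring]

end

end Pool.Agent.W_7d29a1_C1.D31
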