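import Pool.Agent.W_7d29a1_C1.TamK16
import Pool.Agent.W_7d29a1_C1.Push16
import Pool.Agent.W_7d29a1_C1.DDM84
import Pool.Agent.W_7d29a1_C1.DDJ84
import Pool.Agent.W_7d29a1_C1.TamL16

/-!
MP_7d29a1_pr, [C1] attractor route, TAME: THE COMPARISON OF THE PLACES AT ALL THE LARGE SCALES IS PUSHED DOWN THROUGH ANY BLOCK OF ROWS,
MODEL K91P. (helper16)

`pushM16`: `FarW89.Slabs` from the row `r a` to the row `r f` with the cost `Q` in the unit of the scale `Tt = T' 0`; at the row `r f` the masses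
`bh16` of the places in the window of the scale `T' v` are at most `exp (A (T' v / T' 0) ^ g EE (T' v))` times the one of the central site, for
all `v ≤ m`, with an envelope beyond the last window. Then the same holds at the row `r a` with a constant `A'`, against every site of the
inner window. The rows between may contain the switch row, inner rows, anything: only the levels are used.
-/

set_option autoImplicit false

namespace Pool.Agent.W_7d29a1_C1.U16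

open MeasureTheory ProbabilityTheory Filter Topology Finset
open Pool.Agent.W_7d29a1_F Pool.Agent.W_7d29a1_h4g Pool.Agent.W_7d29a1_H Pool.Agent.W_7d29a1_HS
open Pool.Agent.W_7d29a1_C1.K91 (wt wt_pos)
open Pool.Agent.W_7d29a1_C1.K91P (bw bw_pos)
open Pool.Agent.W_7d29a1_C1.H75
open Pool.Agent.W_7d29a1_C1.FarK89 Pool.Agent.W_7d29a1_C1.FarW89 Pool.Agent.W_7d29a1_C1.DD84

noncomputable section

variable {μ : Measure ℝ} {s : ℝ} [IsProbabilityMeasure μ] {c C : ℝ} {n₀ : ℕ}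

/-- The numbers of the push: one step of the scales, the slope, the growth of the levels. -/
theorem push_num16 (h : In μ s c C n₀) (P : ℕ) : ∃ g₀ : ℝ, 0 < g₀ ∧ ∃ (Kw : ℝ) (n₁ : ℕ), 0 < Kw ∧ 1 ≤ n₁ ∧
    (∀ m n : ℕ, n₁ ≤ m → m ≤ n → ∀ b : ℕ, n ≤ b * m → wd μ s n ≤ Kw * (b + 1) * wd μ s m) ∧
    (∀ κ : ℝ, 0 < κ → ∃ (Q₁ : ℝ) (n₂ : ℕ), 1 ≤ Q₁ ∧ n₁ ≤ n₂ ∧ ∀ g : ℝ, 0 ≤ g → g ≤ g₀ → ∀ m n : ℕ, n₂ ≤ m → m ≤ n →
      ((n : ℝ) / m) ^ g * EE μ s n ≤ (κ * (wd μ s n / wd μ s m) + Q₁) * EE μ s m) ∧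
    (∃ D : ℝ, 1 ≤ D ∧ ∀ m n : ℕ, n₁ ≤ m → m ≤ n → wd μ s m ≤ wd μ s n → ∀ X : ℝ, 0 ≤ X →
      gr P (X / wd μ s m) * EE μ s m ≤ D * gr P (X / wd μ s n) * EE μ s n) := by
  obtain ⟨g₀, hg₀, hus⟩ := unit_small_pow h
  obtain ⟨Kw, aw, n₂, hKw, haw, hn2, hw⟩ := wd_pow h
  obtain ⟨D, r, n₃, hD1, hr0, hr1, hn3, hD⟩ := gr_num h P
  refine ⟨g₀, hg₀, Kw, max n₂ n₃, hKw, hn2.trans (le_max_left _ _), ?_, ?_, ⟨D, hD1, ?_⟩⟩
  · intro m n hm hmn b hb
    have hm1 : 1 ≤ m := hn2.trans ((le_max_left _ _).trans hm)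
    have hmR : (0 : ℝ) < m := by exact_mod_cast hm1
    have h3 := hw m n ((le_max_left _ _).trans hm) hmn
    have h5 : (1 : ℝ) ≤ (n : ℝ) / m := by
      rw [le_div_iff₀ hmR, one_mul]
      exact_mod_cast hmn
    have h6 : (n : ℝ) / m ≤ b := by
      rw [div_le_iff₀ hmR]
      exact_mod_cast hb
    have h4 : ((n : ℝ) / m) ^ (1 - aw) ≤ (b : ℝ) + 1 := by
      calc ((n : ℝ) / m) ^ (1 - aw) ≤ ((n : ℝ) / m) ^ (1 : ℝ) := Real.rpow_le_rpow_of_exponent_le h5 (by linarith)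
        _ = (n : ℝ) / m := Real.rpow_one _
        _ ≤ (b : ℝ) + 1 := by linarith
    exact h3.trans (mul_le_mul_of_nonneg_right (mul_le_mul_of_nonneg_left h4 hKw.le) (h.wd_pos hm1).le)
  · intro κ hκ
    obtain ⟨Q₁, n₄, hQ₁, hn4, hu⟩ := hus κ hκ
    refine ⟨Q₁, max n₄ (max n₂ n₃), hQ₁, le_max_right _ _, fun g hg hgg m n hm hmn => ?_⟩
    have hm1 : 1 ≤ m := hn4.trans ((le_max_left _ _).trans hm)
    have hmR : (0 : ℝ) < m := by exact_mod_cast hm1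
    have h5 : (1 : ℝ) ≤ (n : ℝ) / m := by
      rw [le_div_iff₀ hmR, one_mul]
      exact_mod_cast hmn
    refine le_trans ?_ (hu m n ((le_max_left _ _).trans hm) hmn)
    exact mul_le_mul_of_nonneg_right (Real.rpow_le_rpow_of_exponent_le h5 hgg) (EE_pos _).le
  · intro m n hm hmn hww X hX
    have hm1 : 1 ≤ m := hn2.trans ((le_max_left _ _).trans hm)
    have hwm := h.wd_pos hm1
    have hwn := h.wd_pos (hm1.trans hmn)
    have h1 := hD m n 0 ((le_max_right _ _).trans hm) (by simpa using hmn) hww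
    rw [pow_zero, mul_one] at h1
    have hW : 1 ≤ wd μ s n / wd μ s m := by rwa [le_div_iff₀ hwm, one_mul]
    have h2 : gr P (X / wd μ s m) ≤ gr P (X / wd μ s n) * gr P (wd μ s n / wd μ s m - 1) := by
      refine gr_mul P (by positivity) (by linarith) (by positivity) ?_
      have e : X / wd μ s m = X / wd μ s n * (wd μ s n / wd μ s m) := by field_simp
      rw [e]
      nlinarith [show 0 ≤ X / wd μ s n by positivity]
    have h3 := gr_nonneg P (show 0 ≤ X / wd μ s n by positivity)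
    calc gr P (X / wd μ s m) * EE μ s m ≤ gr P (X / wd μ s n) * gr P (wd μ s n / wd μ s m - 1) * EE μ s m :=
          mul_le_mul_of_nonneg_right h2 (EE_pos _).le
      _ = gr P (X / wd μ s n) * (gr P (wd μ s n / wd μ s m - 1) * EE μ s m) := by ring
      _ ≤ gr P (X / wd μ s n) * (D * EE μ s n) := mul_le_mul_of_nonneg_left h1 h3
      _ = _ := by ring

/-- **THE PUSH IN THE MODEL.** -/
theorem pushM16 (h0 : In μ s c C n₀) (P : ℕ) {K θ : ℝ} (hK : 4 ≤ K) (hθ : 0 < θ) : ∃ g₀ : ℝ, 0 < g₀ ∧ ∃ n₁ : ℕ, 1 ≤ n₁ ∧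
    ∀ Q A K₁ σ δ : ℝ, 0 ≤ Q → 0 ≤ A → 1 ≤ K₁ → 0 ≤ σ → 0 < δ → ∀ bb : ℕ, ∃ (A' : ℝ) (n₂ : ℕ), 0 ≤ A' ∧
    ∀ {g h : ℝ} {η : Env} {p : ℕ → ℝ} {M N : ℕ} {κ : Pt} {r T Nr : ℕ → ℕ} {q : ℕ → ℝ} {bs : ℕ → Pt} {a f Tt : ℕ},
      0 ≤ g → g ≤ g₀ → (∀ k, k < M → p k = Real.exp (s + h)) → (∀ k, M ≤ k → p k = Real.exp s) →
      Slabs μ s c θ K h P η κ r T Nr q bs a f Tt n₁ Q → a < f → (∀ u, a ≤ u → u < f → θ * T u ≤ ((r (u + 1) - r u : ℕ) : ℝ)) →
      r f ≤ N → (N : ℝ) + 1 ≤ Real.exp (EE μ s Tt) → n₂ ≤ Tt →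
      ∀ {T' : ℕ → ℕ} {m : ℕ}, T' 0 = Tt → (∀ v, v < m → T' v ≤ T' (v + 1) ∧ T' (v + 1) ≤ bb * T' v ∧ 2 * wd μ s (T' v) ≤ wd μ s (T' (v + 1))) →
      ∀ {y₀ : ℤ} {sl' : ℝ}, |lt μ s κ r f y₀| ≤ (K - 2) / 2 * wd μ s (T (f - 1)) - 1 → 0 ≤ sl' → sl' * wd μ s Tt ≤ c / 32 * EE μ s Tt →
      sl' * wd μ s (T' m) ≤ σ * EE μ s (T' m) →
      (∀ v, v ≤ m → ∀ y : ℤ, |lt μ s κ r f y| ≤ K₁ * wd μ s (T' v) →
        bh16 μ s h η p M N (r f) y ≤ Real.exp (A * (((T' v : ℝ) / T' 0) ^ g * EE μ s (T' v))) * bh16 μ s h η p M N (r f) y₀) →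
      (∀ y : ℤ, K₁ * wd μ s (T' m) < |lt μ s κ r f y| → bh16 μ s h η p M N (r f) y ≤
        Real.exp (A * (((T' m : ℝ) / T' 0) ^ g * EE μ s (T' m)) + sl' * |lt μ s κ r f y|) * bh16 μ s h η p M N (r f) y₀) →
      (∀ v, v ≤ m → ∀ x x' : ℤ, |lt μ s κ r a x| ≤ K₁ * wd μ s (T' v) → |lt μ s κ r a x'| ≤ (K - 2) / 2 * wd μ s (T a) - 1 →
        bh16 μ s h η p M N (r a) x ≤ Real.exp (A' * (((T' v : ℝ) / T' 0) ^ g * EE μ s (T' v))) * bh16 μ s h η p M N (r a) x') ∧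
      (∀ x x' : ℤ, K₁ * wd μ s (T' m) < |lt μ s κ r a x| → |lt μ s κ r a x'| ≤ (K - 2) / 2 * wd μ s (T a) - 1 →
        bh16 μ s h η p M N (r a) x ≤ Real.exp (A' * (((T' m : ℝ) / T' 0) ^ g * EE μ s (T' m)) +
          (sl' + δ * (EE μ s (T' m) / wd μ s (T' m))) * |lt μ s κ r a x|) * bh16 μ s h η p M N (r a) x') := by
  obtain ⟨C₅, hC₅, n₂, hn₂, H2⟩ := far_up h0 P
  obtain ⟨C₆, hC₆, n₃, hn₃, H3⟩ := far_low89 h0 P hK hθ
  obtain ⟨n₄, hn₄⟩ := eventually_atTop.1 ((wd_tendsto h0).eventually_ge_atTop 1)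
  obtain ⟨g₀, hg₀, Kw, n₅, hKw, hn₅, hw, hus, D, hD1, hgr⟩ := push_num16 h0 (2 * P)
  have hc0 := h0.c0
  refine ⟨g₀, hg₀, max n₂ (max n₃ (max n₄ n₅)), hn₂.trans (le_max_left _ _), ?_⟩
  intro Q A K₁ σ δ hQ hA hK₁ hσ hδ bb
  -- the constants
  obtain ⟨Cb, hCb⟩ : ∃ Cb : ℝ, Cb = Kw * (bb + 1) := ⟨_, rfl⟩
  have hCb0 : 0 < Cb := by rw [hCb]; positivity
  obtain ⟨κ₁, hκ₁⟩ : ∃ κ₁ : ℝ, κ₁ = c / 32 / ((A + 1) * (Cb + 1)) := ⟨_, rfl⟩
  have hκ₁0 : 0 < κ₁ := by rw [hκ₁]; positivity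
  obtain ⟨Q₁, n₆, hQ₁, hn₆, hu⟩ := hus κ₁ hκ₁0
  obtain ⟨ΛQ, hΛQ⟩ : ∃ ΛQ : ℝ, ΛQ = LQ (2 * P) (c / 8) (C₅ * Q) := ⟨_, rfl⟩
  have hΛ0 : 0 ≤ ΛQ := by rw [hΛQ]; exact LQ_nonneg _ (by positivity)
  obtain ⟨gK, hgK⟩ : ∃ gK : ℝ, gK = gr (2 * P) K₁ := ⟨_, rfl⟩
  have hgK1 : 1 ≤ gK := by rw [hgK]; exact gr_one_le _ (by linarith)
  obtain ⟨gKK, hgKK⟩ : ∃ gKK : ℝ, gKK = gr (2 * P) K := ⟨_, rfl⟩
  have hgKK1 : 1 ≤ gKK := by rw [hgKK]; exact gr_one_le _ (by linarith)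
  obtain ⟨δ', hδ'⟩ : ∃ δ' : ℝ, δ' = δ / (ΛQ * D + 1) := ⟨_, rfl⟩
  have hδ'0 : 0 < δ' := by rw [hδ']; positivity
  obtain ⟨Cδ, hCδ⟩ : ∃ Cδ : ℝ, Cδ = δ' + CP (2 * P) ^ 2 / δ' := ⟨_, rfl⟩
  have hCδ0 : 0 < Cδ := by rw [hCδ]; have := CP_pos (2 * P); positivity
  obtain ⟨A', hA'⟩ : ∃ A' : ℝ, A' = 1 + (ΛQ * (D * gK) + ΛQ * (D * Cδ) + Q) + A * (κ₁ * Cb + Q₁) + A * Q₁ + A + σ * K₁ + C₆ * Q * gKK := ⟨_, rfl⟩
  refine ⟨A', max n₆ 1, by rw [hA']; positivity, ?_⟩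
  intro g h η p M N κ r T Nr q bs a f Tt hg hgg hp hp' hS haf hθr hrN hN hTt T' m hT0 hT y₀ sl' hy₀ hsl0 hsl1 hsl2 hGe hGt
  have hpp : ∀ k, 0 < p k := fun k => by
    rcases lt_or_ge k M with h1 | h1
    · rw [hp k h1]; exact Real.exp_pos _
    · rw [hp' k h1]; exact Real.exp_pos _
  have S := sys_model16 (μ := μ) (s := s) (h := h) (η := η) (p := p) (M := M) (N := N) hpp
  have mono : ∀ {m' : ℕ}, m' ≤ max n₂ (max n₃ (max n₄ n₅)) → Slabs μ s c θ K h P η κ r T Nr q bs a f Tt m' Q := fun hm =>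
    ⟨hS.q0, hS.K3, hm.trans hS.Tt1, fun u h1 h2 => hm.trans (hS.T1 u h1 h2), hS.TT, hS.NT, hS.rr, hS.b1, hS.b2, hS.b3, hS.far, hS.cost, hS.force⟩
  have S2 := mono (le_max_left n₂ _)
  have S3 := mono ((le_max_left n₃ _).trans (le_max_right n₂ _))
  have hT5 : n₅ ≤ Tt := (((le_max_right _ _).trans (le_max_right _ _)).trans (le_max_right _ _)).trans hS.Tt1
  have hT6 : n₆ ≤ Tt := (le_max_left _ _).trans hTt
  have hT1 : 1 ≤ Tt := hn₅.trans hT5
  have hw0 : 0 < wd μ s Tt := h0.wd_pos hT1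
  have hE := EE_pos (μ := μ) (s := s) Tt
  have hraf : r a ≤ r f := by
    have := r_mono (r := r) (a := a) (b := f) hS.rr (f - a) a le_rfl (by omega)
    rwa [Nat.add_sub_cancel' haf.le] at this
  -- the scales
  have hmonT : ∀ v, v ≤ m → Tt ≤ T' v := by
    intro v
    induction v with
    | zero => intro _; rw [hT0]
    | succ v ih => intro hv; exact (ih (by omega)).trans (hT v (by omega)).1
  have hwT : ∀ v, v ≤ m → 0 < wd μ s (T' v) := fun v hv => h0.wd_pos (hT1.trans (hmonT v hv))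
  have hwmon : ∀ v, v ≤ m → wd μ s Tt ≤ wd μ s (T' v) := by
    intro v
    induction v with
    | zero => intro _; rw [hT0]
    | succ v ih =>
      intro hv
      have h1 := ih (by omega)
      have h2 := (hT v (by omega)).2.2
      have h3 := hwT v (by omega)
      linarith
  have hpow : ∀ v, v ≤ m → 1 ≤ ((T' v : ℝ) / T' 0) ^ g := by
    intro v hv
    rw [hT0]
    refine Real.one_le_rpow ?_ hg
    rw [le_div_iff₀ (by exact_mod_cast hT1), one_mul]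
    exact_mod_cast hmonT v hv
  have hEv : ∀ v, v ≤ m → EE μ s Tt ≤ ((T' v : ℝ) / T' 0) ^ g * EE μ s (T' v) := by
    intro v hv
    have h1 := EE_mono (μ := μ) (s := s) (hmonT v hv)
    have h2 := hpow v hv
    have h3 := EE_pos (μ := μ) (s := s) (T' v)
    exact h1.trans (le_mul_of_one_le_left h3.le h2)
  have hEv' : ∀ v, v ≤ m → EE μ s (T' v) ≤ ((T' v : ℝ) / T' 0) ^ g * EE μ s (T' v) := fun v hv =>
    le_mul_of_one_le_left (EE_pos _).le (hpow v hv)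
  -- the frame
  obtain ⟨β, hβ⟩ : ∃ β : ℝ, β = (κ.2 : ℝ) + sl μ s * (((r a : ℤ) - κ.1 : ℤ) : ℝ) := ⟨_, rfl⟩
  obtain ⟨β', hβ'⟩ : ∃ β' : ℝ, β' = (κ.2 : ℝ) + sl μ s * (((r f : ℤ) - κ.1 : ℤ) : ℝ) := ⟨_, rfl⟩
  have ea : ∀ x : ℤ, (x : ℝ) - β = lt μ s κ r a x := by
    intro x
    rw [hβ]
    unfold lt lat16
    push_cast
    ring
  have ef : ∀ y : ℤ, (y : ℝ) - β' = lt μ s κ r f y := by
    intro y
    rw [hβ']
    unfold lt lat16
    push_cast
    ring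
  -- the slope
  obtain ⟨lam, hlam⟩ : ∃ lam : ℝ, lam = hc μ s c Tt / 8 := ⟨_, rfl⟩
  have hlw : lam * wd μ s Tt = c / 8 * EE μ s Tt := by
    rw [hlam]
    unfold hc
    field_simp
  have hl0 : 0 < lam := by
    rw [hlam]
    unfold hc
    positivity
  have hsl : sl' ≤ lam / 4 := by
    by_contra hcon
    rw [not_le] at hcon
    have := mul_lt_mul_of_pos_right hcon hw0
    linarith
  -- the objects of the push
  have hF : ∀ x, bh16 μ s h η p M N (r a) x = ∑ y ∈ Icc x (x + ((r f - r a : ℕ) : ℤ)), nk μ s h η p M (r a) (r f - r a) x y *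
      bh16 μ s h η p M N (r f) y := fun x => S.step (r a) (r f) x hraf hrN
  have hG : ∀ y, 0 ≤ bh16 μ s h η p M N (r f) y := fun y => (S.b0 _ _ hrN).le
  have hlow : ∀ x' : ℤ, |(x' : ℝ) - β| ≤ (K - 2) / 2 * wd μ s (T a) - 1 → y₀ ∈ Icc x' (x' + ((r f - r a : ℕ) : ℤ)) ∧
      Real.exp (-(C₆ * Q * gKK * EE μ s Tt)) ≤ nk μ s h η p M (r a) (r f - r a) x' y₀ := by
    intro x' hx'
    rw [ea] at hx'
    have g1 := H3 haf hp hp' S3 hθr 0 x' y₀ (by rwa [sub_zero]) (by rwa [sub_zero])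
    rw [abs_zero, zero_div, zero_add, ← hgKK] at g1
    refine ⟨?_, g1⟩
    by_contra hcon
    rw [mem_Icc] at hcon
    rw [nk_eq_zero _ _ hcon] at g1
    exact absurd g1 (not_le.2 (Real.exp_pos _))
  have hcard : ∀ x : ℤ, ((Icc x (x + ((r f - r a : ℕ) : ℤ))).card : ℝ) ≤ Real.exp (EE μ s Tt) := by
    intro x
    refine le_trans ?_ hN
    rw [Int.card_Icc]
    have : (x + ((r f - r a : ℕ) : ℤ) + 1 - x).toNat ≤ N + 1 := by omega
    exact_mod_cast this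
  have hupx : ∀ x y : ℤ, nk μ s h η p M (r a) (r f - r a) x y ≤
      Real.exp ((ΛQ * gr (2 * P) (|(x : ℝ) - β| / wd μ s Tt) + Q) * EE μ s Tt - lam * |((y : ℝ) - β') - ((x : ℝ) - β)|) := by
    intro x y
    have g1 := H2 haf.le hp hp' S2 x y
    have e1 : ((y - x : ℤ) : ℝ) - sl μ s * ((r f - r a : ℕ) : ℝ) = lt μ s κ r f y - lt μ s κ r a x := (lt_sub κ r a f x y hraf).symm
    rw [e1, ← hlam, ← hΛQ] at g1
    rw [ea, ef]
    exact g1
  -- the level in the window of a scale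
  have hLv : ∀ v, v ≤ m → ∀ X : ℝ, 0 ≤ X → ΛQ * gr (2 * P) (X / wd μ s Tt) * EE μ s Tt ≤ ΛQ * (D * gr (2 * P) (X / wd μ s (T' v))) * EE μ s (T' v) := by
    intro v hv X hX
    have g1 := hgr Tt (T' v) hT5 (hmonT v hv) (hwmon v hv) X hX
    have g2 := mul_le_mul_of_nonneg_left g1 hΛ0
    linarith
  have hAQ : A * κ₁ * Cb ≤ c / 32 := by
    have e1 : A * κ₁ * Cb = c / 32 * (A / (A + 1)) * (Cb / (Cb + 1)) := by
      rw [hκ₁]
      field_simp
    have h4 : A / (A + 1) ≤ 1 := by rw [div_le_one (by linarith)]; linarith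
    have h5 : Cb / (Cb + 1) ≤ 1 := by rw [div_le_one (by linarith)]; linarith
    have h6 : 0 ≤ A / (A + 1) := by positivity
    have h7 : 0 ≤ Cb / (Cb + 1) := by positivity
    rw [e1]
    have h8 : A / (A + 1) * (Cb / (Cb + 1)) ≤ 1 := mul_le_one₀ h4 h7 h5
    rw [mul_assoc]
    exact mul_le_of_le_one_right (by positivity) h8
  have hAκ : A * κ₁ ≤ c / 32 := by
    have e1 : A * κ₁ = c / 32 * (A / (A + 1)) * (1 / (Cb + 1)) := by
      rw [hκ₁]
      field_simp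
    have h4 : A / (A + 1) ≤ 1 := by rw [div_le_one (by linarith)]; linarith
    have h5 : 1 / (Cb + 1) ≤ 1 := by rw [div_le_one (by linarith)]; linarith
    have h6 : 0 ≤ A / (A + 1) := by positivity
    have h7 : 0 ≤ 1 / (Cb + 1) := by positivity
    rw [e1]
    have h8 : A / (A + 1) * (1 / (Cb + 1)) ≤ 1 := mul_le_one₀ h4 h7 h5
    rw [mul_assoc]
    exact mul_le_of_le_one_right (by positivity) h8
  -- the growth of the constants of `G`
  have hgrow : ∀ v, v ≤ m → A * (((T' v : ℝ) / T' 0) ^ g * EE μ s (T' v)) ≤ A * κ₁ * (wd μ s (T' v) / wd μ s Tt) * EE μ s Tt + A * Q₁ * EE μ s Tt := by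
    intro v hv
    have g1 := hu g hg hgg Tt (T' v) hT6 (hmonT v hv)
    rw [← hT0] at g1 ⊢
    have g2 := mul_le_mul_of_nonneg_left g1 hA
    refine g2.trans (le_of_eq ?_)
    ring
  have hwstep : ∀ v, v < m → wd μ s (T' (v + 1)) ≤ Cb * wd μ s (T' v) := by
    intro v hv
    have g1 := hw (T' v) (T' (v + 1)) (hT5.trans (hmonT v hv.le)) (hT v hv).1 bb (hT v hv).2.1
    rw [← hCb] at g1
    exact g1
  have hnum : ∀ v, 0 ≤ v → v < m → A * (((T' (v + 1) : ℝ) / T' 0) ^ g * EE μ s (T' (v + 1))) ≤ lam / 4 * (K₁ * wd μ s (T' v)) + A * Q₁ * EE μ s Tt := by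
    intro v _ hv
    have g1 := hgrow (v + 1) (by omega)
    have g2 := hwstep v hv
    have g3 : A * κ₁ * (wd μ s (T' (v + 1)) / wd μ s Tt) * EE μ s Tt ≤ lam / 4 * (K₁ * wd μ s (T' v)) := by
      have k1 : A * κ₁ * (wd μ s (T' (v + 1)) / wd μ s Tt) * EE μ s Tt = A * κ₁ * (EE μ s Tt / wd μ s Tt) * wd μ s (T' (v + 1)) := by ring
      have k2 : lam / 4 * (K₁ * wd μ s (T' v)) = c / 32 * (EE μ s Tt / wd μ s Tt) * K₁ * wd μ s (T' v) := by
        rw [hlam]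
        unfold hc
        ring
      rw [k1, k2]
      have k3 := hwT v hv.le
      have k4 : 0 ≤ EE μ s Tt / wd μ s Tt := by positivity
      have k5 : A * κ₁ * (EE μ s Tt / wd μ s Tt) * wd μ s (T' (v + 1)) ≤ A * κ₁ * (EE μ s Tt / wd μ s Tt) * (Cb * wd μ s (T' v)) :=
        mul_le_mul_of_nonneg_left g2 (by positivity)
      have k6 : A * κ₁ * (EE μ s Tt / wd μ s Tt) * (Cb * wd μ s (T' v)) = A * κ₁ * Cb * ((EE μ s Tt / wd μ s Tt) * wd μ s (T' v)) := by ring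
      have k7 : A * κ₁ * Cb * ((EE μ s Tt / wd μ s Tt) * wd μ s (T' v)) ≤ c / 32 * ((EE μ s Tt / wd μ s Tt) * wd μ s (T' v)) :=
        mul_le_mul_of_nonneg_right hAQ (by positivity)
      have k8 : c / 32 * ((EE μ s Tt / wd μ s Tt) * wd μ s (T' v)) ≤ c / 32 * (EE μ s Tt / wd μ s Tt) * K₁ * wd μ s (T' v) := by
        have k9 : 0 ≤ c / 32 * (EE μ s Tt / wd μ s Tt) * wd μ s (T' v) := by positivity
        have k10 : c / 32 * (EE μ s Tt / wd μ s Tt) * K₁ * wd μ s (T' v) = c / 32 * (EE μ s Tt / wd μ s Tt) * wd μ s (T' v) * K₁ := by ring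
        rw [k10, ← mul_assoc]
        exact le_mul_of_one_le_right k9 hK₁
      exact (k5.trans_eq k6).trans (k7.trans k8)
    exact g1.trans (add_le_add_left g3 _)
  have het : A * (((T' m : ℝ) / T' 0) ^ g * EE μ s (T' m)) ≤ lam / 4 * (K₁ * wd μ s (T' m)) + A * Q₁ * EE μ s Tt := by
    have g1 := hgrow m le_rfl
    have g3 : A * κ₁ * (wd μ s (T' m) / wd μ s Tt) * EE μ s Tt ≤ lam / 4 * (K₁ * wd μ s (T' m)) := by
      have k1 : A * κ₁ * (wd μ s (T' m) / wd μ s Tt) * EE μ s Tt = A * κ₁ * ((EE μ s Tt / wd μ s Tt) * wd μ s (T' m)) := by ring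
      have k2 : lam / 4 * (K₁ * wd μ s (T' m)) = c / 32 * (EE μ s Tt / wd μ s Tt) * K₁ * wd μ s (T' m) := by
        rw [hlam]
        unfold hc
        ring
      have k3 := hwT m le_rfl
      rw [k1, k2]
      have k7 : A * κ₁ * ((EE μ s Tt / wd μ s Tt) * wd μ s (T' m)) ≤ c / 32 * ((EE μ s Tt / wd μ s Tt) * wd μ s (T' m)) :=
        mul_le_mul_of_nonneg_right hAκ (by positivity)
      have k9 : 0 ≤ c / 32 * (EE μ s Tt / wd μ s Tt) * wd μ s (T' m) := by positivity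
      have k10 : c / 32 * (EE μ s Tt / wd μ s Tt) * K₁ * wd μ s (T' m) = c / 32 * (EE μ s Tt / wd μ s Tt) * wd μ s (T' m) * K₁ := by ring
      refine k7.trans ?_
      rw [k10, ← mul_assoc]
      exact le_mul_of_one_le_right k9 hK₁
    exact g1.trans (add_le_add_left g3 _)
  have hr2 : ∀ v, 0 ≤ v → v < m → 2 * (K₁ * wd μ s (T' v)) ≤ K₁ * wd μ s (T' (v + 1)) := by
    intro v _ hv
    have g1 := (hT v hv).2.2
    calc 2 * (K₁ * wd μ s (T' v)) = K₁ * (2 * wd μ s (T' v)) := by ring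
      _ ≤ K₁ * wd μ s (T' (v + 1)) := mul_le_mul_of_nonneg_left g1 (zero_le_one.trans hK₁)
  have hBQ : 0 ≤ A * Q₁ * EE μ s Tt := by positivity
  have hup : ∀ v, v ≤ m → ∀ x : ℤ, |(x : ℝ) - β| ≤ K₁ * wd μ s (T' v) → ∀ y ∈ Icc x (x + ((r f - r a : ℕ) : ℤ)),
      nk μ s h η p M (r a) (r f - r a) x y ≤ Real.exp ((ΛQ * (D * gK) * EE μ s (T' v) + Q * EE μ s Tt) - lam * |((y : ℝ) - β') - ((x : ℝ) - β)|) := by
    intro v hv x hx y _
    refine (hupx x y).trans (Real.exp_le_exp.2 ?_)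
    have k3 := hwT v hv
    have g1 := hLv v hv (|(x : ℝ) - β|) (abs_nonneg _)
    have g2 : gr (2 * P) (|(x : ℝ) - β| / wd μ s (T' v)) ≤ gK := by
      rw [hgK]
      exact gr_mono _ (by positivity) (by rwa [div_le_iff₀ k3])
    have g3 : ΛQ * (D * gr (2 * P) (|(x : ℝ) - β| / wd μ s (T' v))) * EE μ s (T' v) ≤ ΛQ * (D * gK) * EE μ s (T' v) :=
      mul_le_mul_of_nonneg_right (mul_le_mul_of_nonneg_left (mul_le_mul_of_nonneg_left g2 (by linarith)) hΛ0) (EE_pos _).le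
    rw [add_mul]
    linarith
  have hGe' : ∀ v, 0 ≤ v → v ≤ m → ∀ y : ℤ, |(y : ℝ) - β'| ≤ K₁ * wd μ s (T' v) →
      bh16 μ s h η p M N (r f) y ≤ Real.exp (A * (((T' v : ℝ) / T' 0) ^ g * EE μ s (T' v))) * bh16 μ s h η p M N (r f) y₀ :=
    fun v _ hv y hy => hGe v hv y (by rw [← ef]; exact hy)
  have hGt' : ∀ y : ℤ, K₁ * wd μ s (T' m) < |(y : ℝ) - β'| → bh16 μ s h η p M N (r f) y ≤
      Real.exp (A * (((T' m : ℝ) / T' 0) ^ g * EE μ s (T' m)) + sl' * |(y : ℝ) - β'|) * bh16 μ s h η p M N (r f) y₀ :=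
    fun y hy => by
      have := hGt y (by rw [← ef]; exact hy)
      rw [← ef] at this
      exact this
  have he0 : ∀ v, 0 ≤ v → v ≤ m → 0 ≤ A * (((T' v : ℝ) / T' 0) ^ g * EE μ s (T' v)) := fun v _ hv =>
    mul_nonneg hA (le_trans hE.le (hEv v hv))
  -- the envelope of `G` for all the places
  have hGall : ∀ y : ℤ, bh16 μ s h η p M N (r f) y ≤
      Real.exp (A * (((T' m : ℝ) / T' 0) ^ g * EE μ s (T' m)) + sl' * |(y : ℝ) - β'|) * bh16 μ s h η p M N (r f) y₀ := by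
    intro y
    rcases le_or_gt (|(y : ℝ) - β'|) (K₁ * wd μ s (T' m)) with h1 | h1
    · refine (hGe' m (Nat.zero_le _) le_rfl y h1).trans (mul_le_mul_of_nonneg_right (Real.exp_le_exp.2 ?_) (hG _))
      have : 0 ≤ sl' * |(y : ℝ) - β'| := by positivity
      linarith
    · exact hGt' y h1
  have hEm := hEv m le_rfl
  have hEm' := hEv' m le_rfl
  refine ⟨fun v hv x x' hx hx' => ?_, fun x x' hx hx' => ?_⟩
  · rw [← ea] at hx hx'
    rcases hv.lt_or_eq with hvm | hvm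
    · have key := push16 (F := bh16 μ s h η p M N (r a)) (G := bh16 μ s h η p M N (r f)) (S := fun x => Icc x (x + ((r f - r a : ℕ) : ℤ)))
        (k := fun x y => nk μ s h η p M (r a) (r f - r a) x y) (β := β) (β' := β') (y₀ := y₀) (r := fun v => K₁ * wd μ s (T' v))
        (e := fun v => A * (((T' v : ℝ) / T' 0) ^ g * EE μ s (T' v))) (L := fun v => ΛQ * (D * gK) * EE μ s (T' v) + Q * EE μ s Tt)
        (b := 0) (m := m) (lam := lam) (a' := C₆ * Q * gKK * EE μ s Tt) (N := EE μ s Tt) (B := A * Q₁ * EE μ s Tt)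
        (et := A * (((T' m : ℝ) / T' 0) ^ g * EE μ s (T' m))) (κ := sl') (rl := (K - 2) / 2 * wd μ s (T a) - 1)
        hF (fun x y => nk_nonneg hpp _ _ _ _) hG hlow hcard hr2 (by
          show 0 ≤ K₁ * wd μ s (T' 0)
          have := hwT 0 (Nat.zero_le _)
          positivity) hl0.le hsl hBQ he0 hGe' hGt' hnum het (fun v _ hv x hx y hy => hup v hv.le x hx y hy) (Nat.zero_le v) hvm hx hx'
      refine key.trans (mul_le_mul_of_nonneg_right (Real.exp_le_exp.2 ?_) (S.b0 _ _ (hraf.trans hrN)).le)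
      -- numbers
      obtain ⟨U, hU⟩ : ∃ U : ℝ, U = ((T' v : ℝ) / T' 0) ^ g * EE μ s (T' v) := ⟨_, rfl⟩
      have u1 := hEv v hv
      have u2 := hEv' v hv
      rw [← hU] at u1 u2 ⊢
      have hU0 : 0 < U := lt_of_lt_of_le hE u1
      have u3 : A * (((T' (v + 1) : ℝ) / T' 0) ^ g * EE μ s (T' (v + 1))) ≤ A * (κ₁ * Cb + Q₁) * U := by
        have k1 := hu g hg hgg (T' v) (T' (v + 1)) (hT6.trans (hmonT v hv)) (hT v hvm).1
        have k2 : κ₁ * (wd μ s (T' (v + 1)) / wd μ s (T' v)) + Q₁ ≤ κ₁ * Cb + Q₁ := by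
          have k3 : wd μ s (T' (v + 1)) / wd μ s (T' v) ≤ Cb := by
            rw [div_le_iff₀ (hwT v hv)]
            exact hwstep v hvm
          have := mul_le_mul_of_nonneg_left k3 hκ₁0.le
          linarith
        have hTv : (0 : ℝ) < T' v := by exact_mod_cast hT1.trans (hmonT v hv)
        have hTt0 : (0 : ℝ) < T' 0 := by rw [hT0]; exact_mod_cast hT1
        have k4 : ((T' (v + 1) : ℝ) / T' 0) ^ g = ((T' v : ℝ) / T' 0) ^ g * ((T' (v + 1) : ℝ) / T' v) ^ g := by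
          rw [← Real.mul_rpow (by positivity) (by positivity)]
          congr 1
          field_simp
        have k5 : ((T' (v + 1) : ℝ) / T' 0) ^ g * EE μ s (T' (v + 1)) ≤ (κ₁ * Cb + Q₁) * U := by
          rw [k4, hU]
          have k6 : 0 ≤ ((T' v : ℝ) / T' 0) ^ g := zero_le_one.trans (hpow v hv)
          calc ((T' v : ℝ) / T' 0) ^ g * ((T' (v + 1) : ℝ) / T' v) ^ g * EE μ s (T' (v + 1))
              = ((T' v : ℝ) / T' 0) ^ g * (((T' (v + 1) : ℝ) / T' v) ^ g * EE μ s (T' (v + 1))) := by ring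
            _ ≤ ((T' v : ℝ) / T' 0) ^ g * ((κ₁ * Cb + Q₁) * EE μ s (T' v)) :=
                mul_le_mul_of_nonneg_left (k1.trans (mul_le_mul_of_nonneg_right k2 (EE_pos _).le)) k6
            _ = _ := by ring
        calc _ ≤ A * ((κ₁ * Cb + Q₁) * U) := mul_le_mul_of_nonneg_left k5 hA
          _ = _ := by ring
      have u4 : ΛQ * (D * gK) * EE μ s (T' v) ≤ ΛQ * (D * gK) * U := mul_le_mul_of_nonneg_left u2 (by positivity)
      have u5 : Q * EE μ s Tt ≤ Q * U := mul_le_mul_of_nonneg_left u1 hQ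
      have u6 : A * Q₁ * EE μ s Tt ≤ A * Q₁ * U := mul_le_mul_of_nonneg_left u1 (by positivity)
      have u7 : C₆ * Q * gKK * EE μ s Tt ≤ C₆ * Q * gKK * U := mul_le_mul_of_nonneg_left u1 (by positivity)
      have u8 : 0 ≤ ΛQ * (D * Cδ) * U := by positivity
      have u9 : 0 ≤ A * U := by positivity
      have u10 : 0 ≤ σ * K₁ * U := by positivity
      have e : A' * U = U + (ΛQ * (D * gK) * U + ΛQ * (D * Cδ) * U + Q * U) + A * (κ₁ * Cb + Q₁) * U + A * Q₁ * U + A * U + σ * K₁ * U +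
          C₆ * Q * gKK * U := by
        rw [hA']
        ring
      rw [e]
      linarith
    · subst hvm
      have key := push_far16 (F := bh16 μ s h η p M N (r a)) (G := bh16 μ s h η p M N (r f)) (S := fun x => Icc x (x + ((r f - r a : ℕ) : ℤ)))
        (k := fun x y => nk μ s h η p M (r a) (r f - r a) x y) (β := β) (β' := β') (y₀ := y₀) (lam := lam) (a' := C₆ * Q * gKK * EE μ s Tt)
        (N := EE μ s Tt) (et := A * (((T' v : ℝ) / T' 0) ^ g * EE μ s (T' v))) (κ := sl') (κ' := 0)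
        (Lt := ΛQ * (D * gK) * EE μ s (T' v) + Q * EE μ s Tt) (rl := (K - 2) / 2 * wd μ s (T a) - 1)
        hF (fun x y => nk_nonneg hpp _ _ _ _) hG hlow hcard hsl0 (by linarith) hGall (x := x) (x' := x')
        (fun y hy => by
          rw [zero_mul, add_zero]
          exact hup v le_rfl x hx y hy) hx'
      refine key.trans (mul_le_mul_of_nonneg_right (Real.exp_le_exp.2 ?_) (S.b0 _ _ (hraf.trans hrN)).le)
      obtain ⟨U, hU⟩ : ∃ U : ℝ, U = ((T' v : ℝ) / T' 0) ^ g * EE μ s (T' v) := ⟨_, rfl⟩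
      rw [← hU] at hEm hEm' ⊢
      have hU0 : 0 < U := lt_of_lt_of_le hE hEm
      have u4 : ΛQ * (D * gK) * EE μ s (T' v) ≤ ΛQ * (D * gK) * U := mul_le_mul_of_nonneg_left hEm' (by positivity)
      have u5 : Q * EE μ s Tt ≤ Q * U := mul_le_mul_of_nonneg_left hEm hQ
      have u7 : C₆ * Q * gKK * EE μ s Tt ≤ C₆ * Q * gKK * U := mul_le_mul_of_nonneg_left hEm (by positivity)
      have u8 : 0 ≤ ΛQ * (D * Cδ) * U := by positivity
      have u9 : 0 ≤ A * Q₁ * U := by positivity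
      have u11 : 0 ≤ A * (κ₁ * Cb + Q₁) * U := by positivity
      have u10 : (sl' + 0) * |(x : ℝ) - β| ≤ σ * K₁ * U := by
        rw [add_zero]
        calc sl' * |(x : ℝ) - β| ≤ sl' * (K₁ * wd μ s (T' v)) := mul_le_mul_of_nonneg_left hx hsl0
          _ = K₁ * (sl' * wd μ s (T' v)) := by ring
          _ ≤ K₁ * (σ * EE μ s (T' v)) := mul_le_mul_of_nonneg_left hsl2 (by linarith)
          _ = σ * K₁ * EE μ s (T' v) := by ring
          _ ≤ σ * K₁ * U := mul_le_mul_of_nonneg_left hEm' (by positivity)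
      have e : A' * U = U + (ΛQ * (D * gK) * U + ΛQ * (D * Cδ) * U + Q * U) + A * (κ₁ * Cb + Q₁) * U + A * Q₁ * U + A * U + σ * K₁ * U +
          C₆ * Q * gKK * U := by
        rw [hA']
        ring
      rw [e]
      linarith
  · rw [← ea] at hx hx' ⊢
    have hwm := hwT m le_rfl
    have key := push_far16 (F := bh16 μ s h η p M N (r a)) (G := bh16 μ s h η p M N (r f)) (S := fun x => Icc x (x + ((r f - r a : ℕ) : ℤ)))
        (k := fun x y => nk μ s h η p M (r a) (r f - r a) x y) (β := β) (β' := β') (y₀ := y₀) (lam := lam) (a' := C₆ * Q * gKK * EE μ s Tt)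
        (N := EE μ s Tt) (et := A * (((T' m : ℝ) / T' 0) ^ g * EE μ s (T' m))) (κ := sl') (κ' := δ * (EE μ s (T' m) / wd μ s (T' m)))
        (Lt := ΛQ * (D * Cδ) * EE μ s (T' m) + Q * EE μ s Tt) (rl := (K - 2) / 2 * wd μ s (T a) - 1)
        hF (fun x y => nk_nonneg hpp _ _ _ _) hG hlow hcard hsl0 (by linarith) hGall (x := x) (x' := x')
        (fun y _ => by
          refine (hupx x y).trans (Real.exp_le_exp.2 ?_)
          have g1 := hLv m le_rfl (|(x : ℝ) - β|) (abs_nonneg _)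
          have g2 := gr_lin (2 * P) hδ'0 (show 0 ≤ |(x : ℝ) - β| / wd μ s (T' m) by positivity)
          rw [← hCδ] at g2
          have g3 : ΛQ * (D * gr (2 * P) (|(x : ℝ) - β| / wd μ s (T' m))) * EE μ s (T' m) ≤
              ΛQ * (D * (δ' * (|(x : ℝ) - β| / wd μ s (T' m)) + Cδ)) * EE μ s (T' m) :=
            mul_le_mul_of_nonneg_right (mul_le_mul_of_nonneg_left (mul_le_mul_of_nonneg_left g2 (by linarith)) hΛ0) (EE_pos _).le
          have g4 : ΛQ * (D * (δ' * (|(x : ℝ) - β| / wd μ s (T' m)) + Cδ)) * EE μ s (T' m) =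
              ΛQ * D * δ' * ((EE μ s (T' m) / wd μ s (T' m)) * |(x : ℝ) - β|) + ΛQ * (D * Cδ) * EE μ s (T' m) := by ring
          have g5 : ΛQ * D * δ' ≤ δ := by
            rw [hδ', mul_div_assoc', div_le_iff₀ (by positivity), mul_comm δ]
            exact mul_le_mul_of_nonneg_right (by linarith only) hδ.le
          have g6 : 0 ≤ (EE μ s (T' m) / wd μ s (T' m)) * |(x : ℝ) - β| := mul_nonneg (div_nonneg (EE_pos _).le hwm.le) (abs_nonneg _)
          have g7 := mul_le_mul_of_nonneg_right g5 g6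
          rw [add_mul]
          linarith) hx'
    refine key.trans (mul_le_mul_of_nonneg_right (Real.exp_le_exp.2 ?_) (S.b0 _ _ (hraf.trans hrN)).le)
    obtain ⟨U, hU⟩ : ∃ U : ℝ, U = ((T' m : ℝ) / T' 0) ^ g * EE μ s (T' m) := ⟨_, rfl⟩
    rw [← hU] at hEm hEm' ⊢
    have hU0 : 0 < U := lt_of_lt_of_le hE hEm
    have u4 : ΛQ * (D * Cδ) * EE μ s (T' m) ≤ ΛQ * (D * Cδ) * U := mul_le_mul_of_nonneg_left hEm' (by positivity)
    have u5 : Q * EE μ s Tt ≤ Q * U := mul_le_mul_of_nonneg_left hEm hQ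
    have u7 : C₆ * Q * gKK * EE μ s Tt ≤ C₆ * Q * gKK * U := mul_le_mul_of_nonneg_left hEm (by positivity)
    have u8 : 0 ≤ ΛQ * (D * gK) * U := by positivity
    have u9 : 0 ≤ A * Q₁ * U := by positivity
    have u11 : 0 ≤ A * (κ₁ * Cb + Q₁) * U := by positivity
    have u12 : 0 ≤ σ * K₁ * U := by positivity
    have e : A' * U = U + (ΛQ * (D * gK) * U + ΛQ * (D * Cδ) * U + Q * U) + A * (κ₁ * Cb + Q₁) * U + A * Q₁ * U + A * U + σ * K₁ * U +
        C₆ * Q * gKK * U := by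
      rw [hA']
      ring
    rw [e]
    linarith

end

end Pool.Agent.W_7d29a1_C1.U16
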