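import Mathlib

/-!
Both halves (MP_7d29a1_pr), attractor route, input (S): small ball by a radius chain with a potential. Abstract form. (helper49)

`R i η ω` = the environment `ω` with the annulus `i` taken from `η`; `N i` = the annulus `i` is normal; `B i` = the
event `|φ - t| ≤ r i` (nested); `w` = any weight (the law of the arrival point). If for every normal `ω` of `B i`
the fresh annuli `i` which lead to `B (i + 1) \ B i` carry at least `c w ω`, then
`E [w (1 + c) ^ (- number of abnormal annuli) ; B 0] ≤ (1 + c) ^ (- n) E w`: no sum over patterns.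
-/

set_option autoImplicit false

namespace Pool.Agent.W_7d29a1_C1.H49

open MeasureTheory Finset
open scoped ENNReal

variable {Ω : Type*} [MeasurableSpace Ω] {P : Measure Ω}

/-- The data of the radius chain (annuli `0, .., n - 1`, finest first). -/
structure RadData (P : Measure Ω) (n : ℕ) (R : ℕ → Ω → Ω → Ω) (N B : ℕ → Set Ω) (w : Ω → ℝ≥0∞) (c : ℝ≥0∞) :
    Prop where
  mp : ∀ i < n, MeasurePreserving (fun z : Ω × Ω => R i z.1 z.2) (P.prod P) P
  mN : ∀ i < n, MeasurableSet (N i)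
  mB : ∀ i, MeasurableSet (B i)
  mw : Measurable w
  mono : ∀ i < n, B i ⊆ B (i + 1)
  /-- the annulus `i` does not see whether the coarser annuli are normal -/
  off : ∀ i < n, ∀ j < n, i < j → ∀ η ω, (R i η ω ∈ N j ↔ ω ∈ N j)
  /-- luck at the annulus `i` moves `φ` out of the radius `r i`, inside the radius `r (i + 1)` -/
  cmp : ∀ i < n, ∀ ω, ω ∈ N i → ω ∈ B i →
    c * w ω ≤ ∫⁻ η, (B (i + 1) \ B i).indicator w (R i η ω) ∂P

namespace RadData

variable {n : ℕ} {R : ℕ → Ω → Ω → Ω} {N B : ℕ → Set Ω} {w : Ω → ℝ≥0∞} {c : ℝ≥0∞}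

open Classical in
/-- The potential of the annuli `i, .., n - 1`. -/
noncomputable def psi (n : ℕ) (N : ℕ → Set Ω) (c : ℝ≥0∞) (i : ℕ) (ω : Ω) : ℝ≥0∞ :=
  ∏ j ∈ Ico i n, if ω ∈ N j then 1 else (1 + c)⁻¹

open Classical in
/-- The number of abnormal annuli. -/
noncomputable def abn (n : ℕ) (N : ℕ → Set Ω) (ω : Ω) : ℕ := ((range n).filter fun j => ω ∉ N j).card

omit [MeasurableSpace Ω] in
theorem psi_succ {i : ℕ} (hi : i < n) (ω : Ω) [Decidable (ω ∈ N i)] :
    psi n N c i ω = (if ω ∈ N i then 1 else (1 + c)⁻¹) * psi n N c (i + 1) ω := by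
  classical
  unfold psi
  rw [prod_eq_prod_Ico_succ_bot hi]
  congr 1
  by_cases h : ω ∈ N i <;> simp [h]

omit [MeasurableSpace Ω] in
theorem psi_self (ω : Ω) : psi n N c n ω = 1 := by
  classical
  unfold psi
  simp

omit [MeasurableSpace Ω] in
theorem psi_zero (ω : Ω) : psi n N c 0 ω = (1 + c)⁻¹ ^ abn n N ω := by
  classical
  unfold psi abn
  rw [prod_ite, prod_const_one, one_mul, prod_const, range_eq_Ico]

theorem psi_off (h : RadData P n R N B w c) {i : ℕ} (hi : i < n) (η ω : Ω) :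
    psi n N c (i + 1) (R i η ω) = psi n N c (i + 1) ω := by
  classical
  unfold psi
  refine prod_congr rfl fun j hj => ?_
  rw [mem_Ico] at hj
  have := h.off i hi j hj.2 (by omega) η ω
  by_cases h1 : ω ∈ N j
  · simp [h1, this.2 h1]
  · have h2 : R i η ω ∉ N j := fun h3 => h1 (this.1 h3)
    simp [h1, h2]

theorem measurable_psi (h : RadData P n R N B w c) (i : ℕ) : Measurable (psi n N c i) := by
  classical
  unfold psi
  refine Finset.measurable_prod _ fun j hj => ?_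
  rw [mem_Ico] at hj
  exact Measurable.ite (h.mN j hj.2) measurable_const measurable_const

/-- One step of the chain. -/
theorem step [SFinite P] (h : RadData P n R N B w c) (hc : c ≠ ⊤) {i : ℕ} (hi : i < n) :
    (1 + c) * ∫⁻ ω in B i, w ω * psi n N c i ω ∂P ≤ ∫⁻ ω in B (i + 1), w ω * psi n N c (i + 1) ω ∂P := by
  classical
  set ψ := psi n N c (i + 1) with hψ
  have hψm : Measurable ψ := h.measurable_psi (i + 1)
  have hwψ : Measurable fun ω => w ω * ψ ω := h.mw.mul hψm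
  have hone : (1 + c) * (1 + c)⁻¹ = 1 :=
    ENNReal.mul_inv_cancel (by positivity) (by finiteness)
  -- split `B i` by the normality of the annulus `i`
  have hsplit : (1 + c) * ∫⁻ ω in B i, w ω * psi n N c i ω ∂P =
      (1 + c) * (∫⁻ ω in B i ∩ N i, w ω * ψ ω ∂P) + ∫⁻ ω in B i \ N i, w ω * ψ ω ∂P := by
    have e1 : ∫⁻ ω in B i, w ω * psi n N c i ω ∂P =
        (∫⁻ ω in B i ∩ N i, w ω * psi n N c i ω ∂P) + ∫⁻ ω in B i \ N i, w ω * psi n N c i ω ∂P :=
      (lintegral_inter_add_sdiff _ _ (h.mN i hi)).symm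
    have e2 : ∫⁻ ω in B i ∩ N i, w ω * psi n N c i ω ∂P = ∫⁻ ω in B i ∩ N i, w ω * ψ ω ∂P := by
      refine setLIntegral_congr_fun ((h.mB i).inter (h.mN i hi)) fun ω hω => ?_
      rw [psi_succ hi, if_pos hω.2, one_mul]
    have e3 : ∫⁻ ω in B i \ N i, w ω * psi n N c i ω ∂P =
        (1 + c)⁻¹ * ∫⁻ ω in B i \ N i, w ω * ψ ω ∂P := by
      rw [← lintegral_const_mul _ hwψ]
      refine setLIntegral_congr_fun ((h.mB i).diff (h.mN i hi)) fun ω hω => ?_
      rw [psi_succ hi, if_neg hω.2]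
      ring
    rw [e1, e2, e3, mul_add, ← mul_assoc, hone, one_mul]
  -- the gain
  have hgain : c * ∫⁻ ω in B i ∩ N i, w ω * ψ ω ∂P ≤ ∫⁻ ω in B (i + 1) \ B i, w ω * ψ ω ∂P := by
    have hBm : MeasurableSet (B (i + 1) \ B i) := (h.mB (i + 1)).diff (h.mB i)
    have hmp := h.mp i hi
    have e4 : ∫⁻ ω in B (i + 1) \ B i, w ω * ψ ω ∂P =
        ∫⁻ ω, ψ ω * ∫⁻ η, (B (i + 1) \ B i).indicator w (R i η ω) ∂P ∂P := by
      rw [← lintegral_indicator hBm, ← hmp.lintegral_comp (hwψ.indicator hBm)]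
      refine (lintegral_prod_symm' (fun z : Ω × Ω => (B (i + 1) \ B i).indicator (fun ω => w ω * ψ ω)
        (R i z.1 z.2)) ((hwψ.indicator hBm).comp hmp.measurable)).trans ?_
      refine lintegral_congr fun ω => ?_
      have hm2 : Measurable fun η => (B (i + 1) \ B i).indicator w (R i η ω) :=
        (h.mw.indicator hBm).comp (hmp.measurable.comp (measurable_id.prodMk measurable_const))
      rw [← lintegral_const_mul _ hm2]
      refine lintegral_congr fun η => ?_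
      by_cases hη : R i η ω ∈ B (i + 1) \ B i
      · rw [Set.indicator_of_mem hη, Set.indicator_of_mem hη, hψ, h.psi_off hi, mul_comm]
      · rw [Set.indicator_of_notMem hη, Set.indicator_of_notMem hη, mul_zero]
    rw [e4, ← lintegral_const_mul _ hwψ, ← lintegral_indicator ((h.mB i).inter (h.mN i hi))]
    refine lintegral_mono fun ω => ?_
    by_cases hω : ω ∈ B i ∩ N i
    · rw [Set.indicator_of_mem hω]
      calc c * (w ω * ψ ω) = ψ ω * (c * w ω) := by ring
        _ ≤ _ := by gcongr; exact h.cmp i hi ω hω.2 hω.1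
    · rw [Set.indicator_of_notMem hω]
      exact zero_le
  have hfin : ∫⁻ ω in B (i + 1), w ω * ψ ω ∂P =
      (∫⁻ ω in B i, w ω * ψ ω ∂P) + ∫⁻ ω in B (i + 1) \ B i, w ω * ψ ω ∂P := by
    rw [← lintegral_inter_add_sdiff _ (B (i + 1)) (h.mB i), Set.inter_eq_right.2 (h.mono i hi)]
  rw [hsplit, hfin, ← lintegral_inter_add_sdiff (μ := P) (fun ω => w ω * ψ ω) (B i) (h.mN i hi), add_mul, one_mul]
  calc _ = ((∫⁻ ω in B i ∩ N i, w ω * ψ ω ∂P) + ∫⁻ ω in B i \ N i, w ω * ψ ω ∂P) +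
        c * ∫⁻ ω in B i ∩ N i, w ω * ψ ω ∂P := by ring
    _ ≤ _ := by gcongr

/-- RADIUS CHAIN. -/
theorem chain [SFinite P] (h : RadData P n R N B w c) (hc : c ≠ ⊤) :
    (1 + c) ^ n * ∫⁻ ω in B 0, w ω * (1 + c)⁻¹ ^ abn n N ω ∂P ≤ ∫⁻ ω, w ω ∂P := by
  have key : ∀ i ≤ n, (1 + c) ^ i * ∫⁻ ω in B 0, w ω * psi n N c 0 ω ∂P ≤
      ∫⁻ ω in B i, w ω * psi n N c i ω ∂P := by
    intro i
    induction i with
    | zero => intro _; simp
    | succ i ih =>
      intro hi
      calc (1 + c) ^ (i + 1) * ∫⁻ ω in B 0, w ω * psi n N c 0 ω ∂P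
          = (1 + c) * ((1 + c) ^ i * ∫⁻ ω in B 0, w ω * psi n N c 0 ω ∂P) := by ring
        _ ≤ (1 + c) * ∫⁻ ω in B i, w ω * psi n N c i ω ∂P := by gcongr; exact ih (by omega)
        _ ≤ _ := h.step hc (by omega)
  have h1 := key n le_rfl
  simp only [psi_zero, psi_self, mul_one] at h1
  exact h1.trans (setLIntegral_le_lintegral _ _)

theorem measurable_abn (h : RadData P n R N B w c) : Measurable (abn n N) := by
  classical
  have e : abn n N = fun ω => ∑ j ∈ range n, (if ω ∈ N j then 0 else 1) := by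
    funext ω
    unfold abn
    rw [card_filter]
    refine sum_congr rfl fun j _ => ?_
    by_cases hj : ω ∈ N j <;> simp [hj]
  rw [e]
  exact Finset.measurable_sum _ fun j hj =>
    Measurable.ite (h.mN j (mem_range.1 hj)) measurable_const measurable_const

/-- At most `k` abnormal annuli. -/
theorem chain_le [SFinite P] (h : RadData P n R N B w c) (hc : c ≠ ⊤) {k : ℕ} (hk : k ≤ n) :
    (1 + c) ^ (n - k) * ∫⁻ ω in B 0 ∩ {ω | abn n N ω ≤ k}, w ω ∂P ≤ ∫⁻ ω, w ω ∂P := by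
  have h1 := h.chain hc
  have hone : (1 + c) * (1 + c)⁻¹ = 1 :=
    ENNReal.mul_inv_cancel (by positivity) (by finiteness)
  have hmA : MeasurableSet (B 0 ∩ {ω | abn n N ω ≤ k}) :=
    (h.mB 0).inter (measurableSet_le h.measurable_abn measurable_const)
  have hmp : Measurable fun ω => w ω * (1 + c)⁻¹ ^ abn n N ω :=
    h.mw.mul (measurable_const.pow h.measurable_abn)
  have h2 : ∫⁻ ω in B 0 ∩ {ω | abn n N ω ≤ k}, w ω ∂P ≤
      (1 + c) ^ k * ∫⁻ ω in B 0, w ω * (1 + c)⁻¹ ^ abn n N ω ∂P := by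
    calc ∫⁻ ω in B 0 ∩ {ω | abn n N ω ≤ k}, w ω ∂P
        ≤ ∫⁻ ω in B 0 ∩ {ω | abn n N ω ≤ k}, (1 + c) ^ k * (w ω * (1 + c)⁻¹ ^ abn n N ω) ∂P := by
          refine setLIntegral_mono' hmA fun ω hω => ?_
          have hk' : abn n N ω ≤ k := hω.2
          obtain ⟨m, hm⟩ := Nat.exists_eq_add_of_le hk'
          have e : (1 + c) ^ k * (w ω * (1 + c)⁻¹ ^ abn n N ω) = (1 + c) ^ m * w ω := by
            calc _ = (1 + c) ^ m * w ω * ((1 + c) * (1 + c)⁻¹) ^ abn n N ω := by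
                  rw [mul_pow]
                  nth_rewrite 1 [hm]
                  rw [pow_add]
                  ring
              _ = _ := by rw [hone, one_pow, mul_one]
          rw [e]
          calc w ω = 1 * w ω := (one_mul _).symm
            _ ≤ _ := by
              gcongr
              exact one_le_pow₀ le_self_add
      _ = (1 + c) ^ k * ∫⁻ ω in B 0 ∩ {ω | abn n N ω ≤ k}, w ω * (1 + c)⁻¹ ^ abn n N ω ∂P :=
          lintegral_const_mul _ hmp
      _ ≤ _ := by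
          gcongr
          exact Set.inter_subset_left
  have h3 : (1 + c) ^ (n - k) * (1 + c) ^ k = (1 + c) ^ n := by rw [← pow_add]; congr 1; omega
  calc _ ≤ (1 + c) ^ (n - k) * ((1 + c) ^ k * ∫⁻ ω in B 0, w ω * (1 + c)⁻¹ ^ abn n N ω ∂P) := by gcongr
    _ = (1 + c) ^ n * ∫⁻ ω in B 0, w ω * (1 + c)⁻¹ ^ abn n N ω ∂P := by rw [← mul_assoc, h3]
    _ ≤ _ := h1

end RadData

/-- SMALL BALL, upper bound. `w x` = the law of the arrival point `x` (a partition of unity), for every `x` its own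
family of annuli and its own normality, the balls do not depend on `x`. -/
theorem small_ball {X : Type*} (s : Finset X) {n : ℕ} [IsProbabilityMeasure P] {R : X → ℕ → Ω → Ω → Ω}
    {N : X → ℕ → Set Ω} {B : ℕ → Set Ω} {w : X → Ω → ℝ≥0∞} {c : ℝ≥0∞} (hc : c ≠ ⊤)
    (h : ∀ x ∈ s, RadData P n (R x) (N x) B (w x) c) (hw : ∀ ω, ∑ x ∈ s, w x ω = 1) {k : ℕ} (hk : k ≤ n) :
    P (B 0) ≤ (1 + c)⁻¹ ^ (n - k) + P {ω | ∃ x ∈ s, k < RadData.abn n (N x) ω} := by
  classical
  have hone : (1 + c) * (1 + c)⁻¹ = 1 :=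
    ENNReal.mul_inv_cancel (by positivity) (by finiteness)
  set G : Set Ω := {ω | ∃ x ∈ s, k < RadData.abn n (N x) ω} with hG
  have hsub : B 0 ⊆ (B 0 ∩ Gᶜ) ∪ G := fun ω hω => by
    by_cases h1 : ω ∈ G
    · exact Or.inr h1
    · exact Or.inl ⟨hω, h1⟩
  refine (measure_mono hsub).trans ((measure_union_le _ _).trans (add_le_add_left ?_ _))
  have e1 : P (B 0 ∩ Gᶜ) = ∑ x ∈ s, ∫⁻ ω in B 0 ∩ Gᶜ, w x ω ∂P := by
    rw [← lintegral_finsetSum _ fun x hx => (h x hx).mw, ← setLIntegral_one]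
    exact lintegral_congr fun ω => (hw ω).symm
  have e2 : ∀ x ∈ s, ∫⁻ ω in B 0 ∩ Gᶜ, w x ω ∂P ≤ (1 + c)⁻¹ ^ (n - k) * ∫⁻ ω, w x ω ∂P := by
    intro x hx
    have h3 := (h x hx).chain_le hc hk
    calc ∫⁻ ω in B 0 ∩ Gᶜ, w x ω ∂P ≤ ∫⁻ ω in B 0 ∩ {ω | RadData.abn n (N x) ω ≤ k}, w x ω ∂P := by
          refine lintegral_mono_set fun ω hω => ⟨hω.1, ?_⟩
          by_contra h4
          exact hω.2 ⟨x, hx, not_le.1 h4⟩
      _ = ((1 + c) * (1 + c)⁻¹) ^ (n - k) *
            ∫⁻ ω in B 0 ∩ {ω | RadData.abn n (N x) ω ≤ k}, w x ω ∂P := by rw [hone, one_pow, one_mul]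
      _ = (1 + c)⁻¹ ^ (n - k) *
            ((1 + c) ^ (n - k) * ∫⁻ ω in B 0 ∩ {ω | RadData.abn n (N x) ω ≤ k}, w x ω ∂P) := by
          rw [mul_pow]; ring
      _ ≤ _ := by gcongr
  rw [e1]
  refine (sum_le_sum e2).trans ?_
  rw [← mul_sum, ← lintegral_finsetSum _ fun x hx => (h x hx).mw, lintegral_congr hw]
  simp

end Pool.Agent.W_7d29a1_C1.H49
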