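import Pool.Agent.W_7d29a1_C1.Geo37
import Pool.Agent.W_7d29a1_HL.Hsl

/-!
MP_7d29a1_pr, attractor route, [C1] SEP, ORDER OF THE CONSTANTS: THE RADIUS `R` IS A NUMBER, THE NUMBER OF SCALES `J` DEPENDS ON `u`.
(helper85)

`J u` := the least `J` with `R w u ≤ w (u + J)`. Then `1 ≤ J u ≤ Jhi (R)`, `w (u + J u) ≤ Cw R w u` and, if every scale gains the factor
`2 Th` (`2 Th E (u + 1) w u ≤ E u w (u + 1)`), `D Th ^ (J u) E (u + J u) ≤ sgm R E u` for all `R ≥ R₀ (D, Cw, sgm)`.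
`step85`: the gain in the model, `K ≥ K₀ (Th)` (`hsl`). `radG85`: the same over a frame `G`.
-/

set_option autoImplicit false

namespace Pool.Agent.W_7d29a1_C1.Rd85

open Pool.Agent.W_7d29a1_F hiding G
open Pool.Agent.W_7d29a1_h4g Pool.Agent.W_7d29a1_HS
open Pool.Agent.W_7d29a1_H hiding ex gg
open Pool.Agent.W_7d29a1_C1.H40 (Tk)
open Pool.Agent.W_7d29a1_C1.G37 (Gm)
open MeasureTheory

noncomputable section

section seq

variable {w E : ℕ → ℝ} {Cw Th : ℝ}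

theorem w_pow2 (w2 : ∀ u, 2 * w u ≤ w (u + 1)) (u : ℕ) : ∀ J : ℕ, 2 ^ J * w u ≤ w (u + J)
  | 0 => by simp
  | J + 1 => by
    have h1 := w_pow2 w2 u J
    have h2 := w2 (u + J)
    rw [← add_assoc, pow_succ]
    linarith

theorem w_powC (hC : 0 ≤ Cw) (wC : ∀ u, w (u + 1) ≤ Cw * w u) (u : ℕ) : ∀ J : ℕ, w (u + J) ≤ Cw ^ J * w u
  | 0 => by simp
  | J + 1 => by
    have h1 := w_powC hC wC u J
    have h2 := wC (u + J)
    have h3 := mul_le_mul_of_nonneg_left h1 hC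
    rw [← add_assoc, pow_succ]
    calc w (u + J + 1) ≤ Cw * w (u + J) := h2
      _ ≤ Cw * (Cw ^ J * w u) := h3
      _ = _ := by ring

theorem gain_pow (hTh : 0 < Th) (hw : ∀ u, 0 < w u) (g : ∀ u, 2 * Th * E (u + 1) * w u ≤ E u * w (u + 1)) (u : ℕ) :
    ∀ J : ℕ, (2 * Th) ^ J * E (u + J) * w u ≤ E u * w (u + J)
  | 0 => by simp
  | J + 1 => by
    have h1 := gain_pow hTh hw g u J
    have h2 := g (u + J)
    have h3 : (0 : ℝ) < (2 * Th) ^ J := by positivity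
    have w1 := hw (u + J)
    have w0 := hw u
    rw [← add_assoc, pow_succ]
    refine le_of_mul_le_mul_right (a := w (u + J)) ?_ w1
    calc (2 * Th) ^ J * (2 * Th) * E (u + J + 1) * w u * w (u + J)
        = (2 * Th) ^ J * w u * (2 * Th * E (u + J + 1) * w (u + J)) := by ring
      _ ≤ (2 * Th) ^ J * w u * (E (u + J) * w (u + J + 1)) := mul_le_mul_of_nonneg_left h2 (mul_pos h3 w0).le
      _ = ((2 * Th) ^ J * E (u + J) * w u) * w (u + J + 1) := by ring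
      _ ≤ E u * w (u + J) * w (u + J + 1) := mul_le_mul_of_nonneg_right h1 (hw (u + J + 1)).le
      _ = _ := by ring

end seq

/-- **THE RADIUS IS A NUMBER**: `R₀` depends on `Cw`, `D`, `sgm` only, `Jhi` on `R` only. -/
theorem rad85 {Cw Th D sgm : ℝ} (hC : 1 ≤ Cw) (hTh : 0 < Th) (hD : 0 ≤ D) (hs : 0 < sgm) : ∃ R₀ : ℝ, 2 ≤ R₀ ∧ ∀ R : ℝ, R₀ ≤ R →
    ∃ Jhi : ℕ, ∀ {w E : ℕ → ℝ}, (∀ u, 0 < w u) → (∀ u, 0 ≤ E u) → (∀ u, 2 * w u ≤ w (u + 1)) → (∀ u, w (u + 1) ≤ Cw * w u) →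
      (∀ u, 2 * Th * E (u + 1) * w u ≤ E u * w (u + 1)) → ∃ J : ℕ → ℕ, ∀ u, 1 ≤ J u ∧ J u ≤ Jhi ∧ R * w u ≤ w (u + J u) ∧
        w (u + J u) ≤ Cw * R * w u ∧ D * Th ^ J u * E (u + J u) ≤ sgm * R * E u := by
  obtain ⟨J₁, hJ₁⟩ := pow_unbounded_of_one_lt (D * Cw / sgm) (one_lt_two : (1 : ℝ) < 2)
  rw [div_lt_iff₀ hs] at hJ₁
  refine ⟨2 * Cw ^ J₁, ?_, fun R hR => ?_⟩
  · have := one_le_pow₀ (n := J₁) hC
    linarith
  have hC1 : (1 : ℝ) ≤ Cw ^ J₁ := one_le_pow₀ hC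
  have hR2 : 2 ≤ R := by linarith
  obtain ⟨Jhi, hJhi⟩ := pow_unbounded_of_one_lt R (one_lt_two : (1 : ℝ) < 2)
  refine ⟨Jhi, fun {w E} hw hE w2 wC g => ?_⟩
  have ex : ∀ u, ∃ J, R * w u ≤ w (u + J) := fun u =>
    ⟨Jhi, (mul_le_mul_of_nonneg_right hJhi.le (hw u).le).trans (w_pow2 w2 u Jhi)⟩
  classical
  have key : ∀ u, ∃ J, 1 ≤ J ∧ J ≤ Jhi ∧ R * w u ≤ w (u + J) ∧ w (u + J) ≤ Cw * R * w u ∧
      D * Th ^ J * E (u + J) ≤ sgm * R * E u := by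
   intro u
   obtain ⟨J, hJ⟩ : ∃ J, J = Nat.find (ex u) := ⟨_, rfl⟩
   have f1 : R * w u ≤ w (u + J) := hJ ▸ Nat.find_spec (ex u)
   have f2 : ∀ m, m < J → ¬ R * w u ≤ w (u + m) := fun m hm => Nat.find_min (ex u) (hJ ▸ hm)
   have f3 : J ≤ Jhi := hJ ▸ Nat.find_min' (ex u) ((mul_le_mul_of_nonneg_right hJhi.le (hw u).le).trans (w_pow2 w2 u Jhi))
   have w0 := hw u
   have f4 : 1 ≤ J := by
     rcases Nat.eq_zero_or_pos J with h0 | h0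
     · rw [h0, add_zero] at f1
       exfalso
       nlinarith
     · exact h0
   have f5 : w (u + J) ≤ Cw * R * w u := by
     have h1 := f2 (J - 1) (by omega)
     rw [not_le] at h1
     have h2 := wC (u + (J - 1))
     rw [show u + (J - 1) + 1 = u + J by omega] at h2
     calc w (u + J) ≤ Cw * w (u + (J - 1)) := h2
       _ ≤ Cw * (R * w u) := mul_le_mul_of_nonneg_left h1.le (by linarith)
       _ = _ := by ring
   have f6 : J₁ ≤ J := by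
     by_contra hcon
     push Not at hcon
     have h1 : Cw ^ J ≤ Cw ^ J₁ := pow_le_pow_right₀ hC hcon.le
     have h2 := w_powC (by linarith) wC u J
     have h3 : R * w u ≤ Cw ^ J₁ * w u := f1.trans (h2.trans (mul_le_mul_of_nonneg_right h1 w0.le))
     have h4 := le_of_mul_le_mul_right h3 w0
     linarith
   refine ⟨J, f4, f3, f1, f5, ?_⟩
   have h1 := gain_pow hTh hw g u J
   have h2 : (0 : ℝ) < 2 ^ J := by positivity
   have h3 : (2 : ℝ) ^ J₁ ≤ 2 ^ J := pow_le_pow_right₀ one_le_two f6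
   have E0 := hE u
   refine le_of_mul_le_mul_left (a := 2 ^ J * w u) ?_ (mul_pos h2 w0)
   calc 2 ^ J * w u * (D * Th ^ J * E (u + J)) = D * ((2 * Th) ^ J * E (u + J) * w u) := by rw [mul_pow]; ring
     _ ≤ D * (E u * w (u + J)) := mul_le_mul_of_nonneg_left h1 hD
     _ ≤ D * (E u * (Cw * R * w u)) := mul_le_mul_of_nonneg_left (mul_le_mul_of_nonneg_left f5 E0) hD
     _ = (D * Cw) * (R * E u * w u) := by ring
     _ ≤ (2 ^ J * sgm) * (R * E u * w u) := by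
         refine mul_le_mul_of_nonneg_right ?_ (mul_nonneg (mul_nonneg (by linarith) E0) w0.le)
         have := mul_le_mul_of_nonneg_right h3 hs.le
         linarith
     _ = _ := by ring
  choose J hJ using key
  exact ⟨J, hJ⟩

/-! ### The model -/

variable {μ : Measure ℝ} [IsProbabilityMeasure μ] {s c C : ℝ} {n₀ : ℕ}

/-- **ONE SCALE GAINS `2 Th`**, `K ≥ K₀ (Th)`. -/
theorem step85 (h : In μ s c C n₀) (Th : ℝ) : ∃ K₀ n₁ : ℕ, ∀ K T0 : ℕ, K₀ ≤ K → n₁ ≤ T0 → ∀ u : ℕ,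
    2 * Th * EE μ s (Tk T0 K (u + 1)) * wd μ s (Tk T0 K u) ≤ EE μ s (Tk T0 K u) * wd μ s (Tk T0 K (u + 1)) := by
  obtain ⟨J, n₁, H⟩ := Pool.Agent.W_7d29a1_HL.hsl h (2 * Th)
  refine ⟨2 ^ J, n₁, fun K T0 hK hT u => H _ _ ?_ ?_⟩
  · have hK1 : 1 ≤ K := le_trans Nat.one_le_two_pow hK
    unfold Tk
    exact hT.trans (Nat.le_mul_of_pos_right _ (Nat.pow_pos hK1))
  · unfold Tk
    calc 2 ^ J * (T0 * K ^ u) ≤ K * (T0 * K ^ u) := Nat.mul_le_mul_right _ hK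
      _ = T0 * K ^ (u + 1) := by ring

/-- **THE SAME OVER A FRAME.** Order: `Th → K₀ → K → n₁ → (Cw, D, sgm) → R₀ → R → Jhi → G`. -/
theorem radG85 (h : In μ s c C n₀) {Th : ℝ} (hTh : 0 < Th) : ∃ K₀ n₁ : ℕ, ∀ K : ℕ, K₀ ≤ K → ∀ (Cw : ℕ) (D sgm : ℝ), 1 ≤ Cw →
    0 ≤ D → 0 < sgm → ∃ R₀ : ℝ, 2 ≤ R₀ ∧ ∀ R : ℝ, R₀ ≤ R → ∃ Jhi : ℕ, ∀ G : Gm, G.K = K → G.Cw = Cw → n₁ ≤ G.T0 →
      (∀ u, G.w u = wd μ s (G.T u)) → ∃ J : ℕ → ℕ, ∀ u, 1 ≤ J u ∧ J u ≤ Jhi ∧ R * G.w u ≤ G.w (u + J u) ∧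
        G.w (u + J u) ≤ Cw * R * G.w u ∧ D * Th ^ J u * EE μ s (G.T (u + J u)) ≤ sgm * R * EE μ s (G.T u) := by
  obtain ⟨K₀, n₁, H⟩ := step85 h Th
  refine ⟨K₀, n₁, fun K hK Cw D sgm hC hD hs => ?_⟩
  obtain ⟨R₀, hR₀, H2⟩ := rad85 (Cw := (Cw : ℝ)) (Th := Th) (D := D) (sgm := sgm) (by exact_mod_cast hC) hTh hD hs
  refine ⟨R₀, hR₀, fun R hR => ?_⟩
  obtain ⟨Jhi, H3⟩ := H2 R hR
  refine ⟨Jhi, fun G gK gC gT gw => ?_⟩
  obtain ⟨J, H4⟩ := H3 (w := G.w) (E := fun u => EE μ s (G.T u)) G.w_pos (fun u => (EE_pos _).le) G.w_two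
    (fun u => by
      have := G.w_up u
      rwa [gC] at this)
    (fun u => by
      have := H K G.T0 hK gT u
      rw [gw u, gw (u + 1)]
      unfold Gm.T
      rw [gK]
      exact this)
  exact ⟨J, H4⟩

end

end Pool.Agent.W_7d29a1_C1.Rd85
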