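import Pool.Agent.W_7d29a1_C1.Rat22
import Pool.Agent.W_7d29a1_C1.Osc22
import Pool.Agent.W_7d29a1_C1.StayG78

/-!
MP_7d29a1_pr, [C1] attractor route, SEP: `Rat22` OVER THE GEOMETRY Geo37. (helper22)

Window `Bw G u κ` (rows `[ra, re)`), strip `sp G u κ b` (helper78), `spp` = the strip and one more column, last row before the window
`ra - 1`, gauge `gg γ ω k y = wt ω k y * γ k y` (own weight times a deterministic gauge).

* `reg_G` : `Reg`;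
* `KiS Γ G γ b A X u κ`, `SzS Γ G γ b U Q u κ`, `LoS`, `FtS` : events (upper kernels from the rim; sizes of the backward masses on the rim
  and on the exits; lower kernels from the rim to the row `re`; tame future in the row `re`), measurability;
* **`ro_R`** : `ω`, `R u κ η ω` in `KiS ∩ SzS` : backward masses comparable off the window, both directions, all rows;
* **`szS_R`** : `ω ∈ SzS`, the new content in `KiS` and `LoS`, future in `FtS` : the new environment is in `SzS`;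
* `kiS_congr`, `loS_congr` (rows `[ra - 1, re]` only), `szS_move`, `ftS_move` (backward masses moved by `exp d`).
-/

set_option autoImplicit false

namespace Pool.Agent.W_7d29a1_C1.Rt22

open Finset MeasureTheory
open Pool.Agent.W_7d29a1_F hiding Bw G
open Pool.Agent.W_7d29a1_h4g Pool.Agent.W_7d29a1_HS
open Pool.Agent.W_7d29a1_H hiding ex
open Pool.Agent.W_7d29a1_C1.K91 (wt wt_pos measurable_wt)
open Pool.Agent.W_7d29a1_C1.K91P (fw bw bw_succ bw_zero bw_pos bw_congr)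
open Pool.Agent.W_7d29a1_C1.U16 (ker ker_zero ker_succ ker_nonneg ker_eq_zero ker_congr)
open Pool.Agent.W_7d29a1_C1.Sp22 (kw kw_nn kw_le bf bf_zero bf_succ bf_ker bf_mono bf_nonneg bf_bw bf_congr bf_smul)
open Pool.Agent.W_7d29a1_C1.H60
open Pool.Agent.W_7d29a1_C1.G37 (Gm)
open Pool.Agent.W_7d29a1_C1.Sy78 (sp lat_win lat_succ)
open Pool.Agent.W_7d29a1_C1.O22 (Bw)

noncomputable section

/-! ### The strip -/

/-- The strip and one more column on both sides. -/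
def spp (G : Gm) (u : ℕ) (κ : ℤ × ℤ) (b : ℝ) : Set (ℕ × ℤ) := {c | |G.lat c - G.ctr u κ| ≤ b * G.w u + 1}

variable {Γ : Cx} {G : Gm} {u : ℕ} {κ : ℤ × ℤ} {b : ℝ}

theorem bw_rows (h0 : 0 ≤ G.rcc u κ) {k : ℕ} {y : ℤ} (h : (k, y) ∈ Bw G u κ) : G.ra u κ ≤ k ∧ k < G.re u κ := by
  obtain ⟨h1, h2, -⟩ := h
  have h3 := G.ra_cast h0
  have h4 := G.re_cast h0
  have h5 : G.rcc u κ + G.T (u - 1) < (k : ℤ) := h1
  have h6 : (k : ℤ) ≤ G.rcc u κ + G.T u := h2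
  constructor
  · have : (G.ra u κ : ℤ) ≤ k := by omega
    exact_mod_cast this
  · have : (k : ℤ) < G.re u κ := by omega
    exact_mod_cast this

theorem ra_pos (u : ℕ) (κ : ℤ × ℤ) : 0 < G.ra u κ := by
  unfold Gm.ra
  omega

theorem ra_lt_re' (u : ℕ) (κ : ℤ × ℤ) : G.ra u κ - 1 ≤ G.re u κ := by
  have := G.ra_le_re u κ
  omega

/-- **`Reg`**. -/
theorem reg_G (hv0 : 0 ≤ G.v) (hv1 : G.v ≤ 1) (h0 : 0 ≤ G.rcc u κ) (hb : G.kw * G.w u + 2 ≤ b * G.w u) :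
    Reg (sp G u κ b) (spp G u κ b) (Bw G u κ) (G.ra u κ - 1) (G.re u κ) where
  BD := by
    intro c hc
    have h1 := lat_win (G := G) (u := u) (κ := κ) (k := c.1) (y := c.2) hc
    show |G.lat c - G.ctr u κ| ≤ b * G.w u
    exact h1.trans (by linarith)
  rim := by
    intro c hc
    show |G.lat c - G.ctr u κ| ≤ b * G.w u
    rcases hc.2.2 with h | h
    · have h1 := lat_win (G := G) (u := u) (κ := κ) (k := c.1 + 1) (y := c.2) h
      unfold Gm.lat at h1 ⊢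
      simp only at h1 ⊢
      push_cast at h1
      obtain ⟨h4, h5⟩ := abs_le.1 h1
      rw [abs_le]
      constructor <;> linarith
    · have h1 := lat_win (G := G) (u := u) (κ := κ) (k := c.1 + 1) (y := c.2 + 1) h
      unfold Gm.lat at h1 ⊢
      simp only at h1 ⊢
      push_cast at h1
      obtain ⟨h4, h5⟩ := abs_le.1 h1
      rw [abs_le]
      constructor <;> linarith
  sub := by
    intro c hc
    have h1 : |G.lat c - G.ctr u κ| ≤ b * G.w u := hc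
    show |G.lat c - G.ctr u κ| ≤ b * G.w u + 1
    linarith
  next := fun k y h => lat_succ hv0 hv1 k y h
  rows := by
    intro k y h
    have h1 := bw_rows h0 h
    have h2 := ra_pos (G := G) u κ
    omega

/-! ### The events -/

/-- The gauge: own weight times a deterministic gauge. -/
def gg (γ : ℕ → ℤ → ℝ) (ω : Env) (k : ℕ) (y : ℤ) : ℝ := wt ω k y * γ k y

theorem gg_pos {γ : ℕ → ℤ → ℝ} (hγ : ∀ k y, 0 < γ k y) (ω : Env) (k : ℕ) (y : ℤ) : 0 < gg γ ω k y := mul_pos (wt_pos ω k y) (hγ k y)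

/-- The reference site of the row `re`. -/
def zc (G : Gm) (u : ℕ) (κ : ℤ × ℤ) : ℤ := ⌊G.ctr u κ + G.v * (G.re u κ : ℝ)⌋

/-- The reference mass. -/
def F0 (Γ : Cx) (G : Gm) (γ : ℕ → ℤ → ℝ) (u : ℕ) (κ : ℤ × ℤ) (ω : Env) : ℝ :=
  bw (wt ω) Γ.p (G.re u κ) (Γ.N - G.re u κ) (zc G u κ) / gg γ ω (G.re u κ) (zc G u κ)

variable (Γ) (G) (γ : ℕ → ℤ → ℝ)

/-- **Upper kernels** from the rim. -/
def KiS (b A X : ℝ) (u : ℕ) (κ : ℤ × ℤ) : Set Env :=
  {ω | Kin (wt ω) Γ.p (gg γ ω) (G.re u κ) (sp G u κ b) (Bw G u κ) (G.ra u κ - 1) A X}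

/-- **Sizes** of the backward masses. -/
def SzS (b U Q : ℝ) (u : ℕ) (κ : ℤ × ℤ) : Set Env :=
  {ω | G.re u κ ≤ Γ.N ∧ Sz (wt ω) Γ.p (gg γ ω) (G.re u κ) (bw (wt ω) Γ.p (G.re u κ) (Γ.N - G.re u κ)) (sp G u κ b) (spp G u κ b)
    (Bw G u κ) (G.ra u κ - 1) U Q (F0 Γ G γ u κ ω)}

/-- **Lower kernels** from every site of the rim to the strip in the row `re`. -/
def LoS (b U : ℝ) (u : ℕ) (κ : ℤ × ℤ) : Set Env :=
  {ω | ∀ c ∈ Rim (Bw G u κ) (G.ra u κ - 1), ∃ J : Finset ℤ, (∀ v ∈ J, |G.lat (G.re u κ, v) - G.ctr u κ| ≤ b * G.w u + 1) ∧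
    Real.exp (-U) * gg γ ω c.1 c.2 ≤ ∑ v ∈ J, ker (wt ω) Γ.p c.1 (G.re u κ - c.1) c.2 v * gg γ ω (G.re u κ) v}

/-- **Tame future** in the row `re`. -/
def FtS (b Q : ℝ) (u : ℕ) (κ : ℤ × ℤ) : Set Env :=
  {ω | ∀ v : ℤ, |G.lat (G.re u κ, v) - G.ctr u κ| ≤ b * G.w u + 1 →
    bw (wt ω) Γ.p (G.re u κ) (Γ.N - G.re u κ) v ≤ Real.exp Q * F0 Γ G γ u κ ω * gg γ ω (G.re u κ) v ∧
    F0 Γ G γ u κ ω * gg γ ω (G.re u κ) v ≤ Real.exp Q * bw (wt ω) Γ.p (G.re u κ) (Γ.N - G.re u κ) v}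

variable {Γ G γ}

theorem F0_nonneg (hγ : ∀ k y, 0 < γ k y) (ω : Env) : 0 ≤ F0 Γ G γ u κ ω :=
  div_nonneg (bw_pos (wt_pos ω) Γ.p_pos _ _ _).le (gg_pos hγ ω _ _).le

/-! ### Measurability -/

theorem meas_gg (k : ℕ) (y : ℤ) : Measurable fun ω : Env => gg γ ω k y := (measurable_wt k y).mul measurable_const

theorem meas_bwk (k j : ℕ) (y : ℤ) : Measurable fun ω : Env => bw (wt ω) Γ.p k j y := pm_bw measurable_wt _ _ _

theorem meas_F0 (u : ℕ) (κ : ℤ × ℤ) : Measurable (F0 Γ G γ u κ) := (meas_bwk _ _ _).div (meas_gg _ _)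

theorem meas_kw (D : Set (ℕ × ℤ)) (k : ℕ) (y : ℤ) : Measurable fun ω : Env => kw Dᶜ (wt ω) k y := by
  classical
  unfold kw
  by_cases h : (k, y) ∈ Dᶜ
  · simp only [if_pos h]
    exact measurable_const
  · simp only [if_neg h]
    exact measurable_wt k y

theorem meas_bfG {W : Env → ℕ → ℤ → ℝ} {p : ℕ → ℝ} {f : Env → ℤ → ℝ} (hW : ∀ k y, Measurable fun ω => W ω k y)
    (hf : ∀ y, Measurable fun ω => f ω y) : ∀ (j k : ℕ) (y : ℤ), Measurable fun ω => bf (W ω) p (f ω) k j y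
  | 0, k, y => by
    have e : (fun ω => bf (W ω) p (f ω) k 0 y) = fun ω => f ω y := by
      funext ω
      rw [bf_zero]
    rw [e]
    exact hf y
  | j + 1, k, y => by
    have e : (fun ω => bf (W ω) p (f ω) k (j + 1) y) = fun ω =>
        W ω k y * (bf (W ω) p (f ω) (k + 1) j y + p k * bf (W ω) p (f ω) (k + 1) j (y + 1)) := by
      funext ω
      rw [bf_succ]
    rw [e]
    exact (hW k y).mul ((meas_bfG hW hf j (k + 1) y).add (measurable_const.mul (meas_bfG hW hf j (k + 1) (y + 1))))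

theorem meas_kerG {W : Env → ℕ → ℤ → ℝ} {p : ℕ → ℝ} (hW : ∀ k y, Measurable fun ω => W ω k y) :
    ∀ (n k : ℕ) (x y : ℤ), Measurable fun ω => ker (W ω) p k n x y
  | 0, k, x, y => by
    simp only [ker_zero]
    exact measurable_const
  | n + 1, k, x, y => by
    simp only [ker_succ]
    exact ((hW _ _).mul (meas_kerG hW n k x y)).add (measurable_const.mul ((hW _ _).mul (meas_kerG hW n k x (y - 1))))

theorem meas_krm (D : Set (ℕ × ℤ)) (e : ℕ) (c : ℕ × ℤ) : Measurable fun ω : Env => krm (wt ω) Γ.p (gg γ ω) D e c :=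
  meas_bfG (meas_kw D) (fun y => meas_gg e y) _ _ _

theorem meas_exm (D : Set (ℕ × ℤ)) (e : ℕ) (c : ℕ × ℤ) : Measurable fun ω : Env => exm (wt ω) Γ.p (gg γ ω) D e c := by
  classical
  unfold exm
  refine Finset.measurable_fun_sum _ fun i _ => Finset.measurable_fun_sum _ fun y _ => ?_
  by_cases h : (c.1 + i, y) ∈ Dᶜ
  · simp only [if_pos h]
    exact (meas_kerG (meas_kw D) _ _ _ _).mul (meas_gg _ _)
  · simp only [if_neg h]
    exact measurable_const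

theorem meas_all {C : Set (ℕ × ℤ)} {f g : ℕ × ℤ → Env → ℝ} (hf : ∀ c, Measurable (f c)) (hg : ∀ c, Measurable (g c)) :
    MeasurableSet {ω | ∀ c ∈ C, f c ω ≤ g c ω} := by
  have e : {ω | ∀ c ∈ C, f c ω ≤ g c ω} = ⋂ c : ℕ × ℤ, {ω | c ∈ C → f c ω ≤ g c ω} := by
    ext ω
    simp only [Set.mem_iInter]
    rfl
  rw [e]
  refine MeasurableSet.iInter fun c => ?_
  by_cases h : c ∈ C
  · simp only [h, true_imp_iff]
    exact measurableSet_le (hf c) (hg c)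
  · simp [h]

theorem meas_KiS (b A X : ℝ) (u : ℕ) (κ : ℤ × ℤ) : MeasurableSet (KiS Γ G γ b A X u κ) := by
  have e : KiS Γ G γ b A X u κ =
      {ω | ∀ c ∈ Rim (Bw G u κ) (G.ra u κ - 1), krm (wt ω) Γ.p (gg γ ω) (sp G u κ b) (G.re u κ) c ≤ A * gg γ ω c.1 c.2} ∩
      {ω | ∀ c ∈ Rim (Bw G u κ) (G.ra u κ - 1), exm (wt ω) Γ.p (gg γ ω) (sp G u κ b) (G.re u κ) c ≤ X * gg γ ω c.1 c.2} := by
    ext ω
    exact ⟨fun h => ⟨h.mass, h.exit⟩, fun h => ⟨h.1, h.2⟩⟩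
  rw [e]
  exact (meas_all (fun c => meas_krm _ _ c) fun c => measurable_const.mul (meas_gg _ _)).inter
    (meas_all (fun c => meas_exm _ _ c) fun c => measurable_const.mul (meas_gg _ _))

theorem meas_SzS (hγ : ∀ k y, 0 < γ k y) (b U Q : ℝ) (u : ℕ) (κ : ℤ × ℤ) : MeasurableSet (SzS Γ G γ b U Q u κ) := by
  have mb : ∀ c : ℕ × ℤ, Measurable fun ω : Env =>
      bf (wt ω) Γ.p (bw (wt ω) Γ.p (G.re u κ) (Γ.N - G.re u κ)) c.1 (G.re u κ - c.1) c.2 := fun c =>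
    meas_bfG measurable_wt (fun y => meas_bwk _ _ _) _ _ _
  have e : SzS Γ G γ b U Q u κ = {_ω : Env | G.re u κ ≤ Γ.N} ∩
      ({ω | ∀ c ∈ Rim (Bw G u κ) (G.ra u κ - 1), F0 Γ G γ u κ ω * gg γ ω c.1 c.2 ≤
        Real.exp U * bf (wt ω) Γ.p (bw (wt ω) Γ.p (G.re u κ) (Γ.N - G.re u κ)) c.1 (G.re u κ - c.1) c.2} ∩
      {ω | ∀ c ∈ Us (sp G u κ b) (spp G u κ b) (G.ra u κ - 1) (G.re u κ),
        bf (wt ω) Γ.p (bw (wt ω) Γ.p (G.re u κ) (Γ.N - G.re u κ)) c.1 (G.re u κ - c.1) c.2 ≤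
          Real.exp Q * F0 Γ G γ u κ ω * gg γ ω c.1 c.2}) := by
    ext ω
    exact ⟨fun h => ⟨h.1, h.2.lo, h.2.up⟩, fun h => ⟨h.1, F0_nonneg hγ ω, h.2.1, h.2.2⟩⟩
  rw [e]
  refine (MeasurableSet.const _).inter (MeasurableSet.inter ?_ ?_)
  · exact meas_all (f := fun c ω => F0 Γ G γ u κ ω * gg γ ω c.1 c.2) (fun c => (meas_F0 u κ).mul (meas_gg _ _))
      fun c => measurable_const.mul (mb c)
  · exact meas_all (g := fun c ω => Real.exp Q * F0 Γ G γ u κ ω * gg γ ω c.1 c.2) (fun c => mb c)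
      fun c => (measurable_const.mul (meas_F0 u κ)).mul (meas_gg _ _)

theorem meas_FtS (b Q : ℝ) (u : ℕ) (κ : ℤ × ℤ) : MeasurableSet (FtS Γ G γ b Q u κ) := by
  have e : FtS Γ G γ b Q u κ = ⋂ v : ℤ, {ω | |G.lat (G.re u κ, v) - G.ctr u κ| ≤ b * G.w u + 1 →
      bw (wt ω) Γ.p (G.re u κ) (Γ.N - G.re u κ) v ≤ Real.exp Q * F0 Γ G γ u κ ω * gg γ ω (G.re u κ) v ∧
      F0 Γ G γ u κ ω * gg γ ω (G.re u κ) v ≤ Real.exp Q * bw (wt ω) Γ.p (G.re u κ) (Γ.N - G.re u κ) v} := by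
    ext ω
    simp only [Set.mem_iInter]
    rfl
  rw [e]
  refine MeasurableSet.iInter fun v => ?_
  by_cases h : |G.lat (G.re u κ, v) - G.ctr u κ| ≤ b * G.w u + 1
  · simp only [h, true_imp_iff]
    exact (measurableSet_le (meas_bwk _ _ _) ((measurable_const.mul (meas_F0 u κ)).mul (meas_gg _ _))).inter
      (measurableSet_le ((meas_F0 u κ).mul (meas_gg _ _)) (measurable_const.mul (meas_bwk _ _ _)))
  · simp [h]

theorem meas_LoS (b U : ℝ) (u : ℕ) (κ : ℤ × ℤ) : MeasurableSet (LoS Γ G γ b U u κ) := by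
  have e : LoS Γ G γ b U u κ = ⋂ c : ℕ × ℤ, {ω | c ∈ Rim (Bw G u κ) (G.ra u κ - 1) → ∃ J : Finset ℤ,
      (∀ v ∈ J, |G.lat (G.re u κ, v) - G.ctr u κ| ≤ b * G.w u + 1) ∧
      Real.exp (-U) * gg γ ω c.1 c.2 ≤ ∑ v ∈ J, ker (wt ω) Γ.p c.1 (G.re u κ - c.1) c.2 v * gg γ ω (G.re u κ) v} := by
    ext ω
    simp only [Set.mem_iInter]
    rfl
  rw [e]
  refine MeasurableSet.iInter fun c => ?_
  by_cases h : c ∈ Rim (Bw G u κ) (G.ra u κ - 1)
  · simp only [h, true_imp_iff]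
    have e2 : {ω : Env | ∃ J : Finset ℤ, (∀ v ∈ J, |G.lat (G.re u κ, v) - G.ctr u κ| ≤ b * G.w u + 1) ∧
        Real.exp (-U) * gg γ ω c.1 c.2 ≤ ∑ v ∈ J, ker (wt ω) Γ.p c.1 (G.re u κ - c.1) c.2 v * gg γ ω (G.re u κ) v} =
        ⋃ J : Finset ℤ, {ω : Env | (∀ v ∈ J, |G.lat (G.re u κ, v) - G.ctr u κ| ≤ b * G.w u + 1) ∧
          Real.exp (-U) * gg γ ω c.1 c.2 ≤ ∑ v ∈ J, ker (wt ω) Γ.p c.1 (G.re u κ - c.1) c.2 v * gg γ ω (G.re u κ) v} := by
      ext ω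
      simp only [Set.mem_iUnion]
      rfl
    rw [e2]
    refine MeasurableSet.iUnion fun J => ?_
    by_cases hv : ∀ v ∈ J, |G.lat (G.re u κ, v) - G.ctr u κ| ≤ b * G.w u + 1
    · have e3 : {ω : Env | (∀ v ∈ J, |G.lat (G.re u κ, v) - G.ctr u κ| ≤ b * G.w u + 1) ∧
          Real.exp (-U) * gg γ ω c.1 c.2 ≤ ∑ v ∈ J, ker (wt ω) Γ.p c.1 (G.re u κ - c.1) c.2 v * gg γ ω (G.re u κ) v} =
          {ω : Env | Real.exp (-U) * gg γ ω c.1 c.2 ≤ ∑ v ∈ J, ker (wt ω) Γ.p c.1 (G.re u κ - c.1) c.2 v * gg γ ω (G.re u κ) v} := by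
        ext ω
        exact ⟨fun h => h.2, fun h => ⟨hv, h⟩⟩
      rw [e3]
      exact measurableSet_le (measurable_const.mul (meas_gg _ _))
        (Finset.measurable_fun_sum _ fun v _ => (meas_kerG measurable_wt _ _ _ _).mul (meas_gg _ _))
    · have e3 : {ω : Env | (∀ v ∈ J, |G.lat (G.re u κ, v) - G.ctr u κ| ≤ b * G.w u + 1) ∧
          Real.exp (-U) * gg γ ω c.1 c.2 ≤ ∑ v ∈ J, ker (wt ω) Γ.p c.1 (G.re u κ - c.1) c.2 v * gg γ ω (G.re u κ) v} = ∅ := by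
        ext ω
        exact ⟨fun h => absurd h.1 hv, fun h => absurd h (Set.notMem_empty ω)⟩
      rw [e3]
      exact MeasurableSet.empty
  · simp [h]

/-- Finitely many kernels to the row `e`. -/
theorem lo_sum {w : ℕ → ℤ → ℝ} {p : ℕ → ℝ} {F : ℤ → ℝ} (hw : ∀ k y, 0 < w k y) (hp : ∀ k, 0 < p k) (hF : ∀ y, 0 ≤ F y) (k n : ℕ) (x : ℤ)
    (J : Finset ℤ) : ∑ v ∈ J, ker w p k n x v * F v ≤ bf w p F k n x := by
  classical
  rw [bf_ker]
  have h1 : ∑ v ∈ J, ker w p k n x v * F v = ∑ v ∈ J.filter (fun v => v ∈ Icc x (x + (n : ℤ))), ker w p k n x v * F v := by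
    rw [sum_filter]
    refine sum_congr rfl fun v _ => ?_
    by_cases hv : v ∈ Icc x (x + (n : ℤ))
    · rw [if_pos hv]
    · rw [if_neg hv, ker_eq_zero k n x v (fun h => hv (mem_Icc.2 h)), zero_mul]
  rw [h1]
  exact sum_le_sum_of_subset_of_nonneg (fun v hv => (mem_filter.1 hv).2) fun v _ _ => mul_nonneg (ker_nonneg hw hp _ _ _ _) (hF v)

/-! ### The pair -/

variable {A X U Q R : ℝ} {ω η : Env}

theorem gg_R {k : ℕ} {y : ℤ} (h : (k, y) ∉ Bw G u κ) : gg γ (G.R u κ η ω) k y = gg γ ω k y := by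
  unfold gg
  rw [show wt (G.R u κ η ω) k y = wt ω k y from G37.Gm.wt_gl_of_not_mem (A := G.win u κ) h]

theorem F0_R (h0 : 0 ≤ G.rcc u κ) : F0 Γ G γ u κ (G.R u κ η ω) = F0 Γ G γ u κ ω := by
  unfold F0
  rw [G37.Gm.bw_R h0 le_rfl, gg_R fun h => absurd (bw_rows h0 h).2 (lt_irrefl _)]

/-- **Backward masses off the window, both directions, all rows.** -/
theorem ro_R (hγ : ∀ k y, 0 < γ k y) (hv0 : 0 ≤ G.v) (hv1 : G.v ≤ 1) (h0 : 0 ≤ G.rcc u κ) (hb : G.kw * G.w u + 2 ≤ b * G.w u)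
    (h1R : 1 ≤ R) (num : Real.exp (Q + U) * (A + R * X) ≤ R) (hK : ω ∈ KiS Γ G γ b A X u κ) (hS : ω ∈ SzS Γ G γ b U Q u κ)
    (hK' : G.R u κ η ω ∈ KiS Γ G γ b A X u κ) (hS' : G.R u κ η ω ∈ SzS Γ G γ b U Q u κ) :
    Ro (wt ω) (wt (G.R u κ η ω)) Γ.p Γ.N (Bw G u κ) R := by
  have hreg := reg_G (G := G) hv0 hv1 h0 hb
  have hgc : ∀ k y, (k, y) ∉ Bw G u κ → gg γ (G.R u κ η ω) k y = gg γ ω k y := fun k y h => gg_R h
  have K' := Kin.congr hreg hgc hK'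
  have S' := Sz.congr hreg hgc hS'.2
  rw [F0_R h0] at S'
  have eF : bw (wt (G.R u κ η ω)) Γ.p (G.re u κ) (Γ.N - G.re u κ) = bw (wt ω) Γ.p (G.re u κ) (Γ.N - G.re u κ) := by
    funext y
    exact G37.Gm.bw_R h0 le_rfl η ω y
  rw [eF] at S'
  exact rt_off (wt_pos ω) (wt_pos _) Γ.p_pos (gg_pos hγ ω) hreg (ra_lt_re' u κ) hS.1
    (fun k y h => (G37.Gm.wt_gl_of_not_mem (A := G.win u κ) (η := η) (ω := ω) h).symm) hS.2 S' hK K' h1R num

/-- **The sizes pass to a new content** with upper and lower kernels from the rim. -/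
theorem szS_R (hγ : ∀ k y, 0 < γ k y) (hv0 : 0 ≤ G.v) (hv1 : G.v ≤ 1) (h0 : 0 ≤ G.rcc u κ) (hb : G.kw * G.w u + 2 ≤ b * G.w u)
    (h1R : 1 ≤ R) (num : Real.exp (Q + U) * (A + R * X) ≤ R) (hS : ω ∈ SzS Γ G γ b U Q u κ) (hF : ω ∈ FtS Γ G γ b Q u κ)
    (hK' : G.R u κ η ω ∈ KiS Γ G γ b A X u κ) {U₁ Q' : ℝ} (hL : G.R u κ η ω ∈ LoS Γ G γ b U₁ u κ)
    (hQ : R * Real.exp Q ≤ Real.exp Q') : G.R u κ η ω ∈ SzS Γ G γ b (U₁ + Q) Q' u κ := by
  have hreg := reg_G (G := G) hv0 hv1 h0 hb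
  have hgc : ∀ k y, (k, y) ∉ Bw G u κ → gg γ (G.R u κ η ω) k y = gg γ ω k y := fun k y h => gg_R h
  have K' := Kin.congr hreg hgc hK'
  have eF : bw (wt (G.R u κ η ω)) Γ.p (G.re u κ) (Γ.N - G.re u κ) = bw (wt ω) Γ.p (G.re u κ) (Γ.N - G.re u κ) := by
    funext y
    exact G37.Gm.bw_R h0 le_rfl η ω y
  have hFn : ∀ y, 0 ≤ bw (wt ω) Γ.p (G.re u κ) (Γ.N - G.re u κ) y := fun y => (bw_pos (wt_pos ω) Γ.p_pos _ _ _).le
  refine ⟨hS.1, ?_⟩
  rw [F0_R h0, eF]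
  refine Sz.congr hreg (fun k y h => (hgc k y h).symm) (up_tr (wt_pos ω) (wt_pos _) Γ.p_pos (gg_pos hγ ω) hFn hreg (ra_lt_re' u κ)
    (fun k y _ h => (G37.Gm.wt_gl_of_not_mem (A := G.win u κ) (η := η) (ω := ω) h).symm) hS.2 K' h1R num hQ fun c hc => ?_)
  obtain ⟨J, hJ, hk⟩ := hL c hc
  have hre : ∀ v, (G.re u κ, v) ∉ Bw G u κ := fun v h => absurd (bw_rows h0 h).2 (lt_irrefl _)
  rw [hgc _ _ hc.2.1] at hk
  have hF0 := F0_nonneg (Γ := Γ) (G := G) (u := u) (κ := κ) hγ ω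
  have h2 : ∀ v ∈ J, ker (wt (G.R u κ η ω)) Γ.p c.1 (G.re u κ - c.1) c.2 v * (F0 Γ G γ u κ ω * gg γ (G.R u κ η ω) (G.re u κ) v) ≤
      Real.exp Q * (ker (wt (G.R u κ η ω)) Γ.p c.1 (G.re u κ - c.1) c.2 v * bw (wt ω) Γ.p (G.re u κ) (Γ.N - G.re u κ) v) := fun v hv => by
    rw [hgc _ _ (hre v), mul_left_comm (Real.exp Q)]
    exact mul_le_mul_of_nonneg_left (hF v (hJ v hv)).2 (ker_nonneg (wt_pos _) Γ.p_pos _ _ _ _)
  calc F0 Γ G γ u κ ω * gg γ ω c.1 c.2 = Real.exp U₁ * (F0 Γ G γ u κ ω * (Real.exp (-U₁) * gg γ ω c.1 c.2)) := by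
        have h3 : Real.exp U₁ * Real.exp (-U₁) = 1 := by rw [← Real.exp_add]; simp
        calc _ = (Real.exp U₁ * Real.exp (-U₁)) * (F0 Γ G γ u κ ω * gg γ ω c.1 c.2) := by rw [h3, one_mul]
          _ = _ := by ring
    _ ≤ Real.exp U₁ * (F0 Γ G γ u κ ω * ∑ v ∈ J, ker (wt (G.R u κ η ω)) Γ.p c.1 (G.re u κ - c.1) c.2 v *
          gg γ (G.R u κ η ω) (G.re u κ) v) :=
        mul_le_mul_of_nonneg_left (mul_le_mul_of_nonneg_left hk hF0) (Real.exp_pos _).le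
    _ = Real.exp U₁ * ∑ v ∈ J, ker (wt (G.R u κ η ω)) Γ.p c.1 (G.re u κ - c.1) c.2 v *
          (F0 Γ G γ u κ ω * gg γ (G.R u κ η ω) (G.re u κ) v) := by
        rw [mul_sum]
        congr 1
        exact sum_congr rfl fun v _ => by ring
    _ ≤ Real.exp U₁ * (Real.exp Q * ∑ v ∈ J, ker (wt (G.R u κ η ω)) Γ.p c.1 (G.re u κ - c.1) c.2 v *
          bw (wt ω) Γ.p (G.re u κ) (Γ.N - G.re u κ) v) := by
        rw [mul_sum J _ (Real.exp Q)]
        exact mul_le_mul_of_nonneg_left (sum_le_sum h2) (Real.exp_pos _).le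
    _ ≤ Real.exp U₁ * (Real.exp Q *
          bf (wt (G.R u κ η ω)) Γ.p (bw (wt ω) Γ.p (G.re u κ) (Γ.N - G.re u κ)) c.1 (G.re u κ - c.1) c.2) :=
        mul_le_mul_of_nonneg_left (mul_le_mul_of_nonneg_left (lo_sum (wt_pos _) Γ.p_pos hFn _ _ _ J) (Real.exp_pos _).le)
          (Real.exp_pos _).le
    _ = Real.exp (U₁ + Q) *
          bf (wt (G.R u κ η ω)) Γ.p (bw (wt ω) Γ.p (G.re u κ) (Γ.N - G.re u κ)) c.1 (G.re u κ - c.1) c.2 := by
        rw [Real.exp_add]; ring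

/-! ### Changes elsewhere -/

/-- The upper kernels read the rows `[ra - 1, re]` only. -/
theorem kiS_congr {ω' : Env} (h : ∀ k y, G.ra u κ - 1 ≤ k → k ≤ G.re u κ → wt ω k y = wt ω' k y) (hK : ω ∈ KiS Γ G γ b A X u κ) :
    ω' ∈ KiS Γ G γ b A X u κ := by
  classical
  have eg : ∀ k y, G.ra u κ - 1 ≤ k → k ≤ G.re u κ → gg γ ω' k y = gg γ ω k y := fun k y h1 h2 => by
    unfold gg
    rw [h k y h1 h2]
  have ek : ∀ k, G.ra u κ - 1 ≤ k → k ≤ G.re u κ → kw (sp G u κ b)ᶜ (wt ω') k = kw (sp G u κ b)ᶜ (wt ω) k := fun k h1 h2 => by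
    funext y
    unfold kw
    rw [h k y h1 h2]
  refine ⟨fun c hc => ?_, fun c hc => ?_⟩
  · have h1 := hK.mass c hc
    have hce : c.1 ≤ G.re u κ ∨ G.re u κ < c.1 := le_or_gt _ _
    rcases hce with h2 | h2
    · rw [eg c.1 c.2 hc.1 h2]
      refine le_trans (le_of_eq ?_) h1
      unfold krm
      have e1 : gg γ ω' (G.re u κ) = gg γ ω (G.re u κ) := funext fun y => eg _ y (hc.1.trans h2) le_rfl
      rw [e1]
      exact bf_congr _ _ _ _ fun i hi hi' => ek i (hc.1.trans hi) (by omega)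
    · exfalso
      rcases hc.2.2 with h3 | h3
      · have := h3.2.1
        have h4 := Int.self_le_toNat (G.rcc u κ)
        have h5 : ((c.1 + 1 : ℕ) : ℤ) ≤ G.rcc u κ + G.T u := h3.2.1
        unfold Gm.re at h2
        omega
      · have h4 := Int.self_le_toNat (G.rcc u κ)
        have h5 : ((c.1 + 1 : ℕ) : ℤ) ≤ G.rcc u κ + G.T u := h3.2.1
        unfold Gm.re at h2
        omega
  · have h1 := hK.exit c hc
    rcases le_or_gt c.1 (G.re u κ) with h2 | h2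
    · rw [eg c.1 c.2 hc.1 h2]
      refine le_trans (le_of_eq ?_) h1
      unfold exm
      refine sum_congr rfl fun i hi => sum_congr rfl fun y _ => ?_
      have hi' := mem_range.1 hi
      by_cases h3 : (c.1 + i, y) ∈ (sp G u κ b)ᶜ
      · rw [if_pos h3, if_pos h3, eg (c.1 + i) y (hc.1.trans (Nat.le_add_right _ _)) (by omega)]
        congr 1
        exact ker_congr _ _ _ _ fun j h4 h5 => ⟨ek j (hc.1.trans h4) (by omega), rfl⟩
      · rw [if_neg h3, if_neg h3]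
    · have e0 : G.re u κ - c.1 = 0 := by omega
      have hA : exm (wt ω') Γ.p (gg γ ω') (sp G u κ b) (G.re u κ) c = 0 := by
        unfold exm
        rw [e0, range_zero, sum_empty]
      exfalso
      rcases hc.2.2 with h3 | h3
      · have h4 := Int.self_le_toNat (G.rcc u κ)
        have h5 : ((c.1 + 1 : ℕ) : ℤ) ≤ G.rcc u κ + G.T u := h3.2.1
        unfold Gm.re at h2
        omega
      · have h4 := Int.self_le_toNat (G.rcc u κ)
        have h5 : ((c.1 + 1 : ℕ) : ℤ) ≤ G.rcc u κ + G.T u := h3.2.1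
        unfold Gm.re at h2
        omega

/-- **The sizes when the backward masses move by `exp d`** (weights of the rows `[ra - 1, re]` unchanged). -/
theorem szS_move (hγ : ∀ k y, 0 < γ k y) {ω' : Env} {d : ℝ}
    (h : ∀ k y, G.ra u κ - 1 ≤ k → k ≤ G.re u κ → wt ω k y = wt ω' k y)
    (up : ∀ k y, G.ra u κ - 1 ≤ k → k ≤ G.re u κ → bw (wt ω') Γ.p k (Γ.N - k) y ≤ Real.exp d * bw (wt ω) Γ.p k (Γ.N - k) y)
    (dn : ∀ k y, G.ra u κ - 1 ≤ k → k ≤ G.re u κ → bw (wt ω) Γ.p k (Γ.N - k) y ≤ Real.exp d * bw (wt ω') Γ.p k (Γ.N - k) y)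
    (hS : ω ∈ SzS Γ G γ b U Q u κ) : ω' ∈ SzS Γ G γ b (U + 2 * d) (Q + 2 * d) u κ := by
  have hle := ra_lt_re' (G := G) u κ
  have eg : ∀ k y, G.ra u κ - 1 ≤ k → k ≤ G.re u κ → gg γ ω' k y = gg γ ω k y := fun k y h1 h2 => by
    unfold gg
    rw [h k y h1 h2]
  have f1 : F0 Γ G γ u κ ω' ≤ Real.exp d * F0 Γ G γ u κ ω := by
    unfold F0
    rw [eg _ _ hle le_rfl, ← mul_div_assoc]
    exact div_le_div_of_nonneg_right (up _ _ hle le_rfl) (gg_pos hγ ω _ _).le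
  have f2 : F0 Γ G γ u κ ω ≤ Real.exp d * F0 Γ G γ u κ ω' := by
    unfold F0
    rw [eg _ _ hle le_rfl, ← mul_div_assoc]
    exact div_le_div_of_nonneg_right (dn _ _ hle le_rfl) (gg_pos hγ ω _ _).le
  have e2 : Real.exp (2 * d) = Real.exp d * Real.exp d := by rw [← Real.exp_add]; ring_nf
  refine ⟨hS.1, F0_nonneg hγ ω', fun c hc => ?_, fun c hc => ?_⟩
  · have hce : c.1 ≤ G.re u κ := by
      by_contra h2
      rcases hc.2.2 with h3 | h3
      · have h4 := Int.self_le_toNat (G.rcc u κ)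
        have h5 : ((c.1 + 1 : ℕ) : ℤ) ≤ G.rcc u κ + G.T u := h3.2.1
        unfold Gm.re at h2
        omega
      · have h4 := Int.self_le_toNat (G.rcc u κ)
        have h5 : ((c.1 + 1 : ℕ) : ℤ) ≤ G.rcc u κ + G.T u := h3.2.1
        unfold Gm.re at h2
        omega
    have h1 := hS.2.lo c hc
    rw [bw_bf hce hS.1] at h1 ⊢
    rw [eg _ _ hc.1 hce]
    calc F0 Γ G γ u κ ω' * gg γ ω c.1 c.2 ≤ Real.exp d * F0 Γ G γ u κ ω * gg γ ω c.1 c.2 :=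
          mul_le_mul_of_nonneg_right f1 (gg_pos hγ ω _ _).le
      _ = Real.exp d * (F0 Γ G γ u κ ω * gg γ ω c.1 c.2) := by ring
      _ ≤ Real.exp d * (Real.exp U * bw (wt ω) Γ.p c.1 (Γ.N - c.1) c.2) := mul_le_mul_of_nonneg_left h1 (Real.exp_pos _).le
      _ ≤ Real.exp d * (Real.exp U * (Real.exp d * bw (wt ω') Γ.p c.1 (Γ.N - c.1) c.2)) :=
          mul_le_mul_of_nonneg_left (mul_le_mul_of_nonneg_left (dn _ _ hc.1 hce) (Real.exp_pos _).le) (Real.exp_pos _).le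
      _ = _ := by rw [Real.exp_add, e2]; ring
  · have hca : G.ra u κ - 1 ≤ c.1 := by
      rcases hc.2 with ⟨h1, _, _⟩ | h1
      · exact h1.le
      · rw [h1]; exact hle
    have hce : c.1 ≤ G.re u κ := by
      rcases hc.2 with ⟨_, h1, _⟩ | h1
      · exact h1.le
      · exact h1.le
    have h1 := hS.2.up c hc
    rw [bw_bf hce hS.1] at h1 ⊢
    rw [eg _ _ hca hce]
    calc bw (wt ω') Γ.p c.1 (Γ.N - c.1) c.2 ≤ Real.exp d * bw (wt ω) Γ.p c.1 (Γ.N - c.1) c.2 := up _ _ hca hce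
      _ ≤ Real.exp d * (Real.exp Q * F0 Γ G γ u κ ω * gg γ ω c.1 c.2) := mul_le_mul_of_nonneg_left h1 (Real.exp_pos _).le
      _ ≤ Real.exp d * (Real.exp Q * (Real.exp d * F0 Γ G γ u κ ω') * gg γ ω c.1 c.2) :=
          mul_le_mul_of_nonneg_left (mul_le_mul_of_nonneg_right (mul_le_mul_of_nonneg_left f2 (Real.exp_pos _).le)
            (gg_pos hγ ω _ _).le) (Real.exp_pos _).le
      _ = _ := by rw [Real.exp_add, e2]; ring

end

end Pool.Agent.W_7d29a1_C1.Rt22
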