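import Pool.Agent.W_7d29a1_C1.RatG22

/-!
MP_7d29a1_pr, [C1] attractor route, SEP: consequences of the window lemma (R) of `RatG22`. (helper22)

* `pr_of_ro` : `Ro` off the window gives `O22.Pr` at the row `ra - 1` (the field `pr` of SepG98);
* `loS_congr`, `ftS_congr`, `ftS_move`, `ftS_R`.
-/

set_option autoImplicit false

namespace Pool.Agent.W_7d29a1_C1.Rt22

open Finset MeasureTheory
open Pool.Agent.W_7d29a1_F hiding Bw G
open Pool.Agent.W_7d29a1_h4g Pool.Agent.W_7d29a1_HS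
open Pool.Agent.W_7d29a1_H hiding ex
open Pool.Agent.W_7d29a1_C1.K91 (wt wt_pos measurable_wt)
open Pool.Agent.W_7d29a1_C1.K91P (fw bw bw_succ bw_zero bw_pos bw_congr)
open Pool.Agent.W_7d29a1_C1.U16 (ker ker_zero ker_succ ker_nonneg ker_eq_zero ker_congr)
open Pool.Agent.W_7d29a1_C1.H60
open Pool.Agent.W_7d29a1_C1.G37 (Gm)
open Pool.Agent.W_7d29a1_C1.Sy78 (sp lat_win lat_succ)
open Pool.Agent.W_7d29a1_C1.O22 (Bw)

noncomputable section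

variable {Γ : Cx} {G : Gm} {γ : ℕ → ℤ → ℝ} {u : ℕ} {κ : ℤ × ℤ} {b U Q d R : ℝ} {ω η ω' : Env}

/-- **The field `pr` of SepG98.** -/
theorem pr_of_ro (h0 : 0 ≤ G.rcc u κ) (hN : G.re u κ ≤ Γ.N) (h : Ro (wt ω) (wt (G.R u κ η ω)) Γ.p Γ.N (Bw G u κ) (Real.exp d)) :
    O22.Pr Γ (G.ra u κ - 1) (G.re u κ) (Bw G u κ) d ω (G.R u κ η ω) := by
  have hB : ∀ x, (G.ra u κ - 1, x) ∉ Bw G u κ := fun x hx => by
    have h1 := (bw_rows h0 hx).1
    have h2 := ra_pos (G := G) u κ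
    omega
  exact O22.pr_R h0 ((ra_lt_re' u κ).trans hN) (fun x => h.up _ x (hB x)) fun x => h.dn _ x (hB x)

theorem Ro.mono {w w' : ℕ → ℤ → ℝ} {p : ℕ → ℝ} {N : ℕ} {B : Set (ℕ × ℤ)} {R R' : ℝ} (h : Ro w w' p N B R) (hw : ∀ k y, 0 < w k y)
    (hw' : ∀ k y, 0 < w' k y) (hp : ∀ k, 0 < p k) (hR : R ≤ R') : Ro w w' p N B R' :=
  ⟨fun k y hy => (h.up k y hy).trans (mul_le_mul_of_nonneg_right hR (bw_pos hw hp _ _ _).le),
    fun k y hy => (h.dn k y hy).trans (mul_le_mul_of_nonneg_right hR (bw_pos hw' hp _ _ _).le)⟩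

/-- `pr` from the events. -/
theorem pr_ev {A X : ℝ} (hγ : ∀ k y, 0 < γ k y) (hv0 : 0 ≤ G.v) (hv1 : G.v ≤ 1) (h0 : 0 ≤ G.rcc u κ) (hb : G.kw * G.w u + 2 ≤ b * G.w u)
    (hd : 0 ≤ d) (num : Real.exp (Q + U) * (A + Real.exp d * X) ≤ Real.exp d) (hK : ω ∈ KiS Γ G γ b A X u κ)
    (hS : ω ∈ SzS Γ G γ b U Q u κ) (hK' : G.R u κ η ω ∈ KiS Γ G γ b A X u κ) (hS' : G.R u κ η ω ∈ SzS Γ G γ b U Q u κ) :
    O22.Pr Γ (G.ra u κ - 1) (G.re u κ) (Bw G u κ) d ω (G.R u κ η ω) :=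
  pr_of_ro h0 hS.1 (ro_R hγ hv0 hv1 h0 hb (Real.one_le_exp hd) num hK hS hK' hS')

/-! ### Changes elsewhere -/

theorem rim_rows {c : ℕ × ℤ} (h0 : 0 ≤ G.rcc u κ) (hc : c ∈ Rim (Bw G u κ) (G.ra u κ - 1)) : c.1 + 1 < G.re u κ ∧ G.ra u κ ≤ c.1 + 1 := by
  rcases hc.2.2 with h | h
  · exact ⟨(bw_rows h0 h).2, (bw_rows h0 h).1⟩
  · exact ⟨(bw_rows h0 h).2, (bw_rows h0 h).1⟩

/-- The lower kernels read the rows `[ra - 1, re]` only. -/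
theorem loS_congr (h0 : 0 ≤ G.rcc u κ) (h : ∀ k y, G.ra u κ - 1 ≤ k → k ≤ G.re u κ → wt ω k y = wt ω' k y)
    (hL : ω ∈ LoS Γ G γ b U u κ) : ω' ∈ LoS Γ G γ b U u κ := by
  intro c hc
  obtain ⟨J, hJ, hk⟩ := hL c hc
  have h1 := rim_rows h0 hc
  refine ⟨J, hJ, ?_⟩
  have e1 : gg γ ω' c.1 c.2 = gg γ ω c.1 c.2 := by
    unfold gg
    rw [h c.1 c.2 hc.1 (by omega)]
  rw [e1]
  refine hk.trans (le_of_eq (sum_congr rfl fun v _ => ?_))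
  have e2 : gg γ ω' (G.re u κ) v = gg γ ω (G.re u κ) v := by
    unfold gg
    rw [h _ v (ra_lt_re' u κ) le_rfl]
  have e3 : ker (wt ω') Γ.p c.1 (G.re u κ - c.1) c.2 v = ker (wt ω) Γ.p c.1 (G.re u κ - c.1) c.2 v :=
    ker_congr _ _ _ _ fun j h4 h5 => ⟨funext fun y => (h j y (hc.1.trans h4) (by omega)).symm, rfl⟩
  rw [e2, e3]

/-- The tame future reads the rows `≥ re` only. -/
theorem ftS_congr (h : ∀ k y, G.re u κ ≤ k → wt ω k y = wt ω' k y) (hF : ω ∈ FtS Γ G γ b Q u κ) : ω' ∈ FtS Γ G γ b Q u κ := by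
  intro v hv
  have e1 : ∀ y, bw (wt ω') Γ.p (G.re u κ) (Γ.N - G.re u κ) y = bw (wt ω) Γ.p (G.re u κ) (Γ.N - G.re u κ) y := fun y =>
    bw_congr _ _ (fun i hi z => (h i z hi).symm) y
  have e2 : ∀ y, gg γ ω' (G.re u κ) y = gg γ ω (G.re u κ) y := fun y => by
    unfold gg
    rw [h _ y le_rfl]
  have e3 : F0 Γ G γ u κ ω' = F0 Γ G γ u κ ω := by
    unfold F0
    rw [e1, e2]
  rw [e1, e2, e3]
  exact hF v hv

/-- **The tame future when the backward masses of the row `re` move by `exp d`.** -/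
theorem ftS_move (hγ : ∀ k y, 0 < γ k y) (h : ∀ y, wt ω (G.re u κ) y = wt ω' (G.re u κ) y)
    (up : ∀ y, bw (wt ω') Γ.p (G.re u κ) (Γ.N - G.re u κ) y ≤ Real.exp d * bw (wt ω) Γ.p (G.re u κ) (Γ.N - G.re u κ) y)
    (dn : ∀ y, bw (wt ω) Γ.p (G.re u κ) (Γ.N - G.re u κ) y ≤ Real.exp d * bw (wt ω') Γ.p (G.re u κ) (Γ.N - G.re u κ) y)
    (hF : ω ∈ FtS Γ G γ b Q u κ) : ω' ∈ FtS Γ G γ b (Q + 2 * d) u κ := by
  intro v hv
  obtain ⟨hF1, hF2⟩ := hF v hv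
  have eg : ∀ y, gg γ ω' (G.re u κ) y = gg γ ω (G.re u κ) y := fun y => by
    unfold gg
    rw [h y]
  have f1 : F0 Γ G γ u κ ω' ≤ Real.exp d * F0 Γ G γ u κ ω := by
    unfold F0
    rw [eg, ← mul_div_assoc]
    exact div_le_div_of_nonneg_right (up _) (gg_pos hγ ω _ _).le
  have f2 : F0 Γ G γ u κ ω ≤ Real.exp d * F0 Γ G γ u κ ω' := by
    unfold F0
    rw [eg, ← mul_div_assoc]
    exact div_le_div_of_nonneg_right (dn _) (gg_pos hγ ω _ _).le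
  have e2 : Real.exp (Q + 2 * d) = Real.exp d * (Real.exp Q * Real.exp d) := by
    rw [← Real.exp_add, ← Real.exp_add]
    ring_nf
  have hg := gg_pos hγ ω (G.re u κ) v
  rw [eg, e2]
  constructor
  · calc bw (wt ω') Γ.p (G.re u κ) (Γ.N - G.re u κ) v
        ≤ Real.exp d * bw (wt ω) Γ.p (G.re u κ) (Γ.N - G.re u κ) v := up v
      _ ≤ Real.exp d * (Real.exp Q * F0 Γ G γ u κ ω * gg γ ω (G.re u κ) v) := mul_le_mul_of_nonneg_left hF1 (Real.exp_pos _).le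
      _ ≤ Real.exp d * (Real.exp Q * (Real.exp d * F0 Γ G γ u κ ω') * gg γ ω (G.re u κ) v) :=
          mul_le_mul_of_nonneg_left (mul_le_mul_of_nonneg_right (mul_le_mul_of_nonneg_left f2 (Real.exp_pos _).le) hg.le)
            (Real.exp_pos _).le
      _ = _ := by ring
  · calc F0 Γ G γ u κ ω' * gg γ ω (G.re u κ) v ≤ Real.exp d * F0 Γ G γ u κ ω * gg γ ω (G.re u κ) v :=
          mul_le_mul_of_nonneg_right f1 hg.le
      _ = Real.exp d * (F0 Γ G γ u κ ω * gg γ ω (G.re u κ) v) := by ring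
      _ ≤ Real.exp d * (Real.exp Q * bw (wt ω) Γ.p (G.re u κ) (Γ.N - G.re u κ) v) := mul_le_mul_of_nonneg_left hF2 (Real.exp_pos _).le
      _ ≤ Real.exp d * (Real.exp Q * (Real.exp d * bw (wt ω') Γ.p (G.re u κ) (Γ.N - G.re u κ) v)) :=
          mul_le_mul_of_nonneg_left (mul_le_mul_of_nonneg_left (dn v) (Real.exp_pos _).le) (Real.exp_pos _).le
      _ = _ := by ring

/-- The tame future does not see the window. -/
theorem ftS_R (h0 : 0 ≤ G.rcc u κ) (hF : ω ∈ FtS Γ G γ b Q u κ) : G.R u κ η ω ∈ FtS Γ G γ b Q u κ :=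
  ftS_congr (fun k y hk => (G37.Gm.wt_gl_of_not_mem (A := G.win u κ) (η := η) (ω := ω) fun h =>
    absurd (bw_rows h0 (k := k) (y := y) h).2 (not_lt.2 hk)).symm) hF

end

end Pool.Agent.W_7d29a1_C1.Rt22
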