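import Pool.Agent.W_7d29a1_C1.RoB22
import Pool.Agent.W_7d29a1_C1.KiP52
import Pool.Agent.W_7d29a1_C1.LoW18

/-!
MP_7d29a1_pr, [C1] attractor route, SEP: THE FIELD `ro` OF `In25` WITH ALL NUMBERS. (helper22)

Strip `b = R1 - 1`, masses from `OuT` at the radius `R1` with the level `sgm R1`, upper kernels of the typical content from the totals with
slope (level `V`), lower kernels of the gate block at the level `Qe` (strip `Re`), kernels of the new content of the lane block at the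
levels `V2`, `U2`. Order: `kw, sgm, V, Re, Qe, qw, V2, U2 | R1 | Cr | n₁`.

* **`ratN22`** : `RatW` with the price `Cr E u`;
* `two_num22` : the inequality of the numbers.
-/

set_option autoImplicit false

namespace Pool.Agent.W_7d29a1_C1.RB22

open Finset MeasureTheory Filter Topology
open Pool.Agent.W_7d29a1_F hiding Bw G
open Pool.Agent.W_7d29a1_h4g Pool.Agent.W_7d29a1_HS
open Pool.Agent.W_7d29a1_H hiding ex
open Pool.Agent.W_7d29a1_C1.K91 (wt wt_pos measurable_wt)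
open Pool.Agent.W_7d29a1_C1.K91P (fw bw bw_succ bw_zero bw_pos bw_congr)
open Pool.Agent.W_7d29a1_C1.H60
open Pool.Agent.W_7d29a1_C1.H75 (hc)
open Pool.Agent.W_7d29a1_C1.G37 (Gm)
open Pool.Agent.W_7d29a1_C1.Sy78 (sp lat_win lat_succ)
open Pool.Agent.W_7d29a1_C1.O22 (Bw)
open Pool.Agent.W_7d29a1_C1.Rt22
open Pool.Agent.W_7d29a1_C1.SF98 (FS Tx)
open Pool.Agent.W_7d29a1_C1.P25 (RatW RoW)
open Pool.Agent.W_7d29a1_C1.Up52 (Up22 lo52)
open Pool.Agent.W_7d29a1_C1.GL18 (Lw18 bp18 lw18_lob)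
open Pool.Agent.W_7d29a1_C1.Ki52 (kib_up gau_gam KiB_mono blk_len)

noncomputable section

/-- **THE NUMBERS**: `VV` upper level, `UU` lower level, `q'` level of the masses and of the weights. -/
theorem two_num22 {c VV UU sgm qw R1 E : ℝ} (hc : 0 < c) (hE : 1 ≤ E) (hs : 80 * sgm ≤ c) (hR : 0 ≤ R1)
    (h : 4 / c * (2 * VV + UU + 5 * qw + 3 + c / 2) ≤ R1) :
    Real.exp ((VV - c / 2 * (R1 - 1)) * E) * Real.exp (1 + VV * E + 5 * ((sgm * R1 + 1 / 16 + qw) * E) + UU * E) ≤ 1 / 2 := by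
  have h1 : 2 * VV + UU + 5 * qw + 3 + c / 2 ≤ c / 4 * R1 := by
    have h2 := mul_le_mul_of_nonneg_left h (show 0 ≤ c / 4 by linarith)
    rwa [show c / 4 * (4 / c * (2 * VV + UU + 5 * qw + 3 + c / 2)) = 2 * VV + UU + 5 * qw + 3 + c / 2 by field_simp] at h2
  have h3 : 5 * (sgm * R1) ≤ c / 16 * R1 := by nlinarith
  have h5 : 0 ≤ c * R1 := mul_nonneg hc.le hR
  have h4 : (VV - c / 2 * (R1 - 1)) + VV + 5 * (sgm * R1 + 1 / 16 + qw) + UU ≤ -2 := by nlinarith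
  have e2 : Real.exp (-1) ≤ 1 / 2 := by
    have a1 := Real.add_one_le_exp (1 : ℝ)
    have a2 : Real.exp (-1) * Real.exp 1 = 1 := by rw [← Real.exp_add]; simp
    have a3 := Real.exp_pos (-1)
    nlinarith
  rw [← Real.exp_add]
  refine (Real.exp_le_exp.2 ?_).trans e2
  have h6 := mul_le_mul_of_nonneg_right h4 (show 0 ≤ E by linarith)
  nlinarith

/-- The lower level of the gate block. -/
theorem low_num22 {c kw Re Qe UU E w hh lm sl' : ℝ} (hc : 0 ≤ c) (hc1 : c ≤ 1) (hkw : 0 ≤ kw) (hRe : 0 ≤ Re) (hs0 : 0 < sl') (hs1 : sl' < 1)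
    (hE : 1 + |lm| ≤ E) (hw : 2 * E ≤ w) (h1 : |hh| * w ≤ c / 8 * E) (hU : Qe + c / 8 * (Re + kw + 3) + 2 ≤ UU) :
    Qe * E + |hh| * (Re * w + kw * w + 3) + |lm| + |hh * sl'| ≤ UU * E := by
  have l0 := abs_nonneg lm
  have hE1 : 1 ≤ E := by linarith
  have hw1 : 1 ≤ w := by linarith
  have hh0 := abs_nonneg hh
  have a2 : |hh| * (Re * w + kw * w + 3) ≤ c / 8 * (Re + kw + 3) * E := by
    have b1 : Re * w + kw * w + 3 ≤ (Re + kw + 3) * w := by linarith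
    calc |hh| * (Re * w + kw * w + 3) ≤ |hh| * ((Re + kw + 3) * w) := mul_le_mul_of_nonneg_left b1 hh0
      _ = (Re + kw + 3) * (|hh| * w) := by ring
      _ ≤ (Re + kw + 3) * (c / 8 * E) := mul_le_mul_of_nonneg_left h1 (by linarith)
      _ = _ := by ring
  have a3 : |hh * sl'| ≤ 1 := by
    rw [abs_mul, abs_of_pos hs0]
    have b2 : |hh| ≤ 1 := by
      by_contra hcon
      push Not at hcon
      have b3 : w < |hh| * w := by
        have := mul_lt_mul_of_pos_right hcon (show 0 < w by linarith)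
        linarith
      have b4 : c / 8 * E ≤ 1 * E := mul_le_mul_of_nonneg_right (by linarith) (by linarith)
      linarith
    calc |hh| * sl' ≤ 1 * 1 := mul_le_mul b2 hs1.le hs0.le zero_le_one
      _ = 1 := one_mul 1
  have a6 := mul_le_mul_of_nonneg_right hU (show 0 ≤ E by linarith)
  have a7 : (Qe + c / 8 * (Re + kw + 3) + 2) * E = Qe * E + c / 8 * (Re + kw + 3) * E + 2 * E := by ring
  linarith

variable {μ : Measure ℝ} {s : ℝ} [IsProbabilityMeasure μ] {c C : ℝ} {n₀ : ℕ}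

/-- **`ro` OF `In25`, ALL NUMBERS.** -/
theorem ratN22 (h : In μ s c C n₀) {kw sgm V Re Qe qw V2 U2 : ℝ} (hkw : 0 ≤ kw) (hsg0 : 0 ≤ sgm) (hsg : 80 * sgm ≤ c) (hV : 0 ≤ V)
    (hRe : 0 ≤ Re) (hQe : 0 ≤ Qe) (hqw : 0 ≤ qw) (hV2 : 0 ≤ V2) (hU2 : 0 ≤ U2) :
    ∃ R₁ : ℝ, kw + 2 ≤ R₁ ∧ Re + 2 ≤ R₁ ∧ ∀ R1 : ℝ, R₁ ≤ R1 → ∃ Cr : ℝ, 0 < Cr ∧ ∃ n₁ : ℕ, 1 ≤ n₁ ∧
    ∀ {Γ : Cx} {G : Gm} {mt τ0 : ℕ} {E : ℕ → ℝ} {Lv : ℕ → ℤ × ℤ → Set Env} {Ou St Fw : ℝ → ℕ → ℤ × ℤ → Set Env}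
      {L : ℕ → ℤ × ℤ → Set Env} {rf : ℕ → ℤ × ℤ → ℕ} {A : ℕ → ℤ × ℤ → Set Pt},
      Γ.s = s → G.v = sl μ s → G.kw = kw → G.M ≤ mt → (∀ u, E u = EE μ s (G.T u)) →
      (∀ u, τ0 < u → G.w u = wd μ s (G.T u)) → (∀ u, τ0 < u → n₁ ≤ G.T u) →
      (∀ u, τ0 < u → u < G.M → |Γ.h| * wd μ s (G.T u) ≤ c / 8 * EE μ s (G.T u)) →
      (∀ u κ, τ0 < u → u < G.M → G.ra u κ ≤ rf u κ) → (∀ u κ, τ0 < u → u < G.M → rf u κ ≤ G.re u κ) →
      (∀ u κ, τ0 < u → u < G.M → Lv u κ ⊆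
        (Up22 μ s (hc μ s c (G.T u)) (V * EE μ s (G.T u)) (c / 16 * (EE μ s (G.T u) / wd μ s (G.T u)))
            (lo52 μ s (bp18 G u κ (G.ra u κ - 1))) (G.ra u κ - 1) (rf u κ - 1) ∩
          Up22 μ s (hc μ s c (G.T u)) (V * EE μ s (G.T u)) (c / 16 * (EE μ s (G.T u) / wd μ s (G.T u)))
            (lo52 μ s (bp18 G u κ (rf u κ - 1))) (rf u κ - 1) (G.re u κ - 1)) ∩
        (StB G (R1 - 1) (qw * E u) u κ (rf u κ) ∩ StB G (R1 - 1) (qw * E u) u κ (G.re u κ))) →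
      (∀ u κ, τ0 < u → u < G.M → Ou (E u / 16) u κ ⊆ Ou37.OuT μ s Γ G E R1 (sgm * R1) (E u / 16) u κ) →
      (∀ u κ, τ0 < u → u < G.M → L u κ ⊆
        (Up22 μ s (hc μ s c (G.T u)) (V * EE μ s (G.T u)) (c / 16 * (EE μ s (G.T u) / wd μ s (G.T u)))
            (lo52 μ s (bp18 G u κ (G.ra u κ - 1))) (G.ra u κ - 1) (rf u κ - 1) ∩
          Lw18 μ s G u κ (G.ra u κ - 1) (rf u κ) Re (A u κ) Qe) ∩
        (KiB Γ G (Ou37.gam μ s Γ) (R1 - 1) (Real.exp (V2 * E u)) (Real.exp ((V2 - c / 2 * (R1 - 1)) * E u)) u κ (rf u κ - 1) (G.re u κ) ∩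
          LoB Γ G (Ou37.gam μ s Γ) (R1 - 1) (U2 * E u) u κ (rf u κ - 1) (G.re u κ))) →
      RatW Γ G mt τ0 (fun u => Cr * E u) (fun u => E u / 16) (Ms9.TT Lv Ou St Fw) L := by
  obtain ⟨Ck, hCk, n₂, hn₂, H⟩ := kib_up (μ := μ) (s := s) h hkw
  have hc0 := h.c0
  have hc1 := h.c1
  obtain ⟨VV, hVV⟩ : ∃ VV : ℝ, VV = max (2 * V + Ck) V2 := ⟨_, rfl⟩
  obtain ⟨UU, hUU⟩ : ∃ UU : ℝ, UU = max U2 (Qe + c / 8 * (Re + kw + 3) + 2) := ⟨_, rfl⟩
  have hVV1 : 2 * V + Ck ≤ VV := by rw [hVV]; exact le_max_left _ _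
  have hVV2 : V2 ≤ VV := by rw [hVV]; exact le_max_right _ _
  have hUU1 : U2 ≤ UU := by rw [hUU]; exact le_max_left _ _
  have hUU2 : Qe + c / 8 * (Re + kw + 3) + 2 ≤ UU := by rw [hUU]; exact le_max_right _ _
  have hVV0 : 0 ≤ VV := by linarith
  have hUU0 : 0 ≤ UU := by linarith
  refine ⟨max (kw + 2) (max (Re + 2) (4 / c * (2 * VV + UU + 5 * qw + 3 + c / 2))), le_max_left _ _,
    (le_max_left _ _).trans (le_max_right _ _), fun R1 hR1 => ?_⟩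
  have hR1a := (le_max_left _ _).trans hR1
  have hR1b := ((le_max_left _ _).trans (le_max_right _ _)).trans hR1
  have hR1c := ((le_max_right _ _).trans (le_max_right _ _)).trans hR1
  have hR0 : 0 ≤ R1 := by linarith
  obtain ⟨q', hq'⟩ : ∃ q' : ℝ, q' = sgm * R1 + 1 / 16 + qw := ⟨_, rfl⟩
  have hq0 : 0 ≤ q' := by
    have := mul_nonneg hsg0 hR0
    rw [hq']
    linarith
  obtain ⟨n₃, hn₃⟩ := eventually_atTop.1 (h.tE.eventually_ge_atTop (1 + |lam μ s|))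
  refine ⟨2 * (2 + 2 * VV + 5 * q' + UU), by positivity, max n₂ (max n₃ 1), (le_max_right _ _).trans (le_max_right _ _) , ?_⟩
  intro Γ G mt τ0 E Lv Ou St Fw L rf A hs hv hkw' hM hE hw hT hh har hre hLv hOu hL
  have hs0 := h.sl_pos
  have hs1 := h.sl_lt
  have hv0 : 0 ≤ G.v := by rw [hv]; exact hs0.le
  have hv1 : G.v ≤ 1 := by rw [hv]; exact hs1.le
  have g := gau_gam (μ := μ) (s := s) Γ
  have hEp : ∀ u, 0 < E u := fun u => by rw [hE]; exact EE_pos _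
  have hE1 : ∀ u, τ0 < u → 1 + |lam μ s| ≤ E u := fun u hu => by
    rw [hE]
    exact hn₃ _ (((le_max_left _ _).trans (le_max_right _ _)).trans (hT u hu))
  have hE2 : ∀ u, τ0 < u → 1 ≤ E u := fun u hu => by
    have := hE1 u hu
    have := abs_nonneg (lam μ s)
    linarith
  have hT1 : ∀ u, τ0 < u → 1 ≤ G.T u := fun u hu => ((le_max_right _ _).trans (le_max_right _ _)).trans (hT u hu)
  have hw2 : ∀ u, τ0 < u → 2 * E u ≤ G.w u := fun u hu => by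
    rw [hw u hu, hE]
    exact wd_ge_one h (hT1 u hu)
  have hEu1 : ∀ u, 1 ≤ E u := fun u => by rw [hE]; exact one_le_EE _
  -- the sets
  have ki1 : ∀ u κ, τ0 < u → u < G.M → G.re u κ ≤ Γ.N →
      Up22 μ s (hc μ s c (G.T u)) (V * EE μ s (G.T u)) (c / 16 * (EE μ s (G.T u) / wd μ s (G.T u)))
        (lo52 μ s (bp18 G u κ (G.ra u κ - 1))) (G.ra u κ - 1) (rf u κ - 1) ⊆
      KiB Γ G (Ou37.gam μ s Γ) (R1 - 1) (Real.exp (VV * E u)) (Real.exp ((VV - c / 2 * (R1 - 1)) * E u)) u κ (G.ra u κ - 1) (rf u κ) := by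
    intro u κ hu huM hN
    have h1 := H (V₁ := V) (b := R1 - 1) (Γ := Γ) (G := G) (u := u) (γ := Ou37.gam μ s Γ) (κ := κ) (a := G.ra u κ - 1) (e := rf u κ)
      (o := bp18 G u κ (G.ra u κ - 1)) hV hs hv (hw u hu) hkw' (hh u hu huM) ((le_max_left _ _).trans (hT u hu)) (by linarith) g
      ((hre u κ hu huM).trans hN) (blk_len le_rfl (hre u κ hu huM)) (by unfold bp18; push_cast; rfl)
    refine h1.trans (KiB_mono g.pos (Real.exp_le_exp.2 ?_) (Real.exp_le_exp.2 ?_))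
    · rw [hE]
      exact mul_le_mul_of_nonneg_right hVV1 (EE_pos _).le
    · rw [hE]
      exact mul_le_mul_of_nonneg_right (by linarith) (EE_pos _).le
  have ki2 : ∀ u κ, τ0 < u → u < G.M → G.re u κ ≤ Γ.N →
      Up22 μ s (hc μ s c (G.T u)) (V * EE μ s (G.T u)) (c / 16 * (EE μ s (G.T u) / wd μ s (G.T u)))
        (lo52 μ s (bp18 G u κ (rf u κ - 1))) (rf u κ - 1) (G.re u κ - 1) ⊆
      KiB Γ G (Ou37.gam μ s Γ) (R1 - 1) (Real.exp (VV * E u)) (Real.exp ((VV - c / 2 * (R1 - 1)) * E u)) u κ (rf u κ - 1) (G.re u κ) := by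
    intro u κ hu huM hN
    have hr := har u κ hu huM
    have h1 := H (V₁ := V) (b := R1 - 1) (Γ := Γ) (G := G) (u := u) (γ := Ou37.gam μ s Γ) (κ := κ) (a := rf u κ - 1) (e := G.re u κ)
      (o := bp18 G u κ (rf u κ - 1)) hV hs hv (hw u hu) hkw' (hh u hu huM) ((le_max_left _ _).trans (hT u hu)) (by linarith) g
      hN (blk_len (by omega) le_rfl) (by unfold bp18; push_cast; rfl)
    refine h1.trans (KiB_mono g.pos (Real.exp_le_exp.2 ?_) (Real.exp_le_exp.2 ?_))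
    · rw [hE]
      exact mul_le_mul_of_nonneg_right hVV1 (EE_pos _).le
    · rw [hE]
      exact mul_le_mul_of_nonneg_right (by linarith) (EE_pos _).le
  intro u κ hu huM hκ ω hω η hη
  obtain ⟨cc, hcc, hcκ⟩ := hκ
  have h1 : ω ∈ Lv u κ ∩ (Ou (E u / 16) u κ ∩ (St (E u / 16) u κ ∩ Fw (E u / 16) u κ)) := hω
  have h0 : 0 ≤ G.rcc u κ := by
    rw [← hcκ]
    exact (G.rcc_pos u cc).le
  have he : G.re u κ ≤ Γ.N := Ou37.re_le_N hM huM ⟨cc, hcc, hcκ⟩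
  have hwu := hw2 u hu
  have hEu := hE2 u hu
  have hw0 : 0 < G.w u := G.w_pos u
  have hw1 : 1 ≤ G.w u := by linarith
  have hbw : ∀ x : ℝ, x + 1 ≤ R1 - 1 → x * G.w u + G.w u ≤ (R1 - 1) * G.w u := fun x hx => by
    have := mul_le_mul_of_nonneg_right hx hw0.le
    linarith
  have hR1w : (R1 - 1) * G.w u + 1 ≤ R1 * G.w u := by
    have : (R1 - 1) * G.w u = R1 * G.w u - G.w u := by ring
    linarith
  have hb : G.kw * G.w u + 2 ≤ (R1 - 1) * G.w u := by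
    rw [hkw']
    have := hbw kw (by linarith)
    linarith
  have hb0 : 0 ≤ (R1 - 1) * G.w u := mul_nonneg (by linarith) hw0.le
  obtain ⟨⟨u1, u2⟩, s1, s2⟩ := hLv u κ hu huM h1.1
  obtain ⟨⟨v1, v2⟩, v3, v4⟩ := hL u κ hu huM hη
  have hO : ω ∈ LvR Γ G (Ou37.gam μ s Γ) (R1 - 1) (Real.exp (VV * E u)) (Real.exp ((VV - c / 2 * (R1 - 1)) * E u)) (qw * E u) u κ (rf u κ) :=
    ⟨⟨ki1 u κ hu huM he u1, ki2 u κ hu huM he u2⟩, s1, s2⟩
  have hUb : Qe * EE μ s (G.T u) + |Γ.h| * (Re * G.w u + G.kw * G.w u + 3) + |lam μ s| + |Γ.h * sl μ s| ≤ UU * E u := by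
    have a1 := hh u hu huM
    rw [← hw u hu, ← hE] at a1
    rw [← hE, hkw']
    exact low_num22 hc0.le hc1 hkw hRe hs0 hs1 (hE1 u hu) hwu a1 hUU2
  have hN' : G.R u κ η ω ∈ LR Γ G (Ou37.gam μ s Γ) (R1 - 1) (Real.exp (VV * E u)) (Real.exp ((VV - c / 2 * (R1 - 1)) * E u)) (UU * E u) u κ
      (rf u κ) := by
    refine ⟨⟨ki1 u κ hu huM he v1, ?_⟩, KiB_mono g.pos (Real.exp_le_exp.2 ?_) (Real.exp_le_exp.2 ?_) v3, ?_⟩
    · have hra := ra_pos (G := G) u κ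
      exact lw18_lob hs hv g hv0 hv1 h0 (by omega) (hre u κ hu huM) ((hre u κ hu huM).trans he) hRe
        (by have := hbw Re (by linarith); linarith) hUb v2
    · exact mul_le_mul_of_nonneg_right hVV2 (hEp u).le
    · exact mul_le_mul_of_nonneg_right (by linarith) (hEp u).le
    · intro cs hcs
      obtain ⟨J, hJ, hk⟩ := v4 cs hcs
      refine ⟨J, hJ, le_trans (mul_le_mul_of_nonneg_right (Real.exp_le_exp.2 ?_) (gB_pos g.pos _ _ _ _).le) hk⟩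
      have := mul_le_mul_of_nonneg_right hUU1 (hEp u).le
      linarith
  have hT' : ω ∈ TmB Γ G (Ou37.gam μ s Γ) (R1 - 1) (sgm * R1 * E u + E u / 16) u κ (G.ra u κ - 1) (G.re u κ) := by
    have k1 := hOu u κ hu huM h1.2.1
    intro c₁ c₂ g1 g2 g3 g4 g5 g6
    have key := k1 c₁ ⟨by omega, g2, g5.trans hR1w⟩ c₂ ⟨by omega, g4, g6.trans hR1w⟩
    rw [Ou37.bn_eq, Ou37.bn_eq] at key
    exact key
  have n1 := two_num22 (VV := VV) (UU := UU) (sgm := sgm) (qw := qw) hc0 hEu hsg hR0 hR1c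
  have key := (two_pair (η := η) (A := Real.exp (VV * E u)) (X := Real.exp ((VV - c / 2 * (R1 - 1)) * E u)) (al := VV * E u)
    (q := (sgm * R1 + 1 / 16 + qw) * E u) (U₁ := UU * E u) (Q := sgm * R1 * E u + E u / 16) (Uw := qw * E u)
    (d := 2 + 2 * (VV * E u) + 5 * ((sgm * R1 + 1 / 16 + qw) * E u) + UU * E u) g.pos hv0 hv1 h0 hb hb0 (har u κ hu huM) (hre u κ hu huM) he
    (mul_nonneg hVV0 (hEp u).le) (by have := mul_nonneg hsg0 hR0; have := hEp u; positivity) (mul_nonneg hqw (hEp u).le)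
    (le_of_eq (by ring)) (mul_nonneg hUU0 (hEp u).le) le_rfl (Real.exp_pos _).le n1 le_rfl hT' hO hN').2.2
  refine key.mono (wt_pos _) (wt_pos _) Γ.p_pos (Real.exp_le_exp.2 ?_)
  show 2 * (2 + 2 * (VV * E u) + 5 * ((sgm * R1 + 1 / 16 + qw) * E u) + UU * E u) ≤ 2 * (2 + 2 * VV + 5 * q' + UU) * E u
  rw [← hq']
  have e1 : 2 * (2 + 2 * VV + 5 * q' + UU) * E u = 2 * (2 * E u + 2 * (VV * E u) + 5 * (q' * E u) + UU * E u) := by ring
  rw [e1]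
  linarith

end

end Pool.Agent.W_7d29a1_C1.RB22
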