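import Pool.Agent.W_7d29a1_C1.RoB22
import Pool.Agent.W_7d29a1_C1.TamO20

/-!
MP_7d29a1_pr, [C1] attractor route, SEP: THE EARLY RATIO (typical contents, before the luck). (helper22)

In `TmB` of RatB22 both places are anywhere in the strip `|lat| ≤ b w + 1`: a LOWER bound of the masses far away, which only comes from a
large radius (`PR R1`, after the luck). Here the reference place is near, `|lat| ≤ ρ w + 1` with `ρ ≥ kw` and `ρ ≥` the radius of the lower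
kernels: `TmR`. It follows from `Ou` at one radius (before the luck) and from the levels of the rows of the window (`profO20`).

* `TmR`, `meas_TmR`, `tmR_congr`, `tmR_sub`, `tmB_R`; **`ro_blkR`**, **`ro_twoR`**;
* **`tmR_of`** : `Far16` and `Ou` give `TmR` on the rows `[ra - 1, re]`, slope `β + sgm` in the outer place;
* **`two_pairR`** : one window.
-/

set_option autoImplicit false

namespace Pool.Agent.W_7d29a1_C1.RB22

open Finset MeasureTheory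
open Pool.Agent.W_7d29a1_F hiding Bw G
open Pool.Agent.W_7d29a1_h4g Pool.Agent.W_7d29a1_HS
open Pool.Agent.W_7d29a1_H hiding ex
open Pool.Agent.W_7d29a1_C1.K91 (wt wt_pos measurable_wt)
open Pool.Agent.W_7d29a1_C1.K91P (fw bw bw_succ bw_zero bw_pos bw_congr)
open Pool.Agent.W_7d29a1_C1.U16 (ker ker_zero ker_succ ker_nonneg ker_eq_zero ker_congr Far16)
open Pool.Agent.W_7d29a1_C1.Sp22 (kw kw_nn kw_le bf bf_zero bf_succ bf_ker bf_mono bf_nonneg bf_bw bf_congr bf_smul ker_back)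
open Pool.Agent.W_7d29a1_C1.H60
open Pool.Agent.W_7d29a1_C1.G37 (Gm)
open Pool.Agent.W_7d29a1_C1.Sy78 (sp lat_win lat_succ)
open Pool.Agent.W_7d29a1_C1.O22 (Bw)
open Pool.Agent.W_7d29a1_C1.Rt22

noncomputable section

/-- **Tame backward masses, near reference**: rows `[a, e]`, reference `|lat| ≤ ρ w + 1`, other place `|lat| ≤ b w + 1`. -/
def TmR (Γ : Cx) (G : Gm) (γ : ℕ → ℤ → ℝ) (ρ b Q : ℝ) (u : ℕ) (κ : ℤ × ℤ) (a e : ℕ) : Set Env :=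
  {ω | ∀ c c' : ℕ × ℤ, a ≤ c.1 → c.1 ≤ e → a ≤ c'.1 → c'.1 ≤ e → |G.lat c - G.ctr u κ| ≤ ρ * G.w u + 1 →
    |G.lat c' - G.ctr u κ| ≤ b * G.w u + 1 → bn Γ γ ω c' ≤ Real.exp Q * bn Γ γ ω c}

variable {Γ : Cx} {G : Gm} {γ : ℕ → ℤ → ℝ} {u : ℕ} {κ : ℤ × ℤ} {ρ b A X U Q Uw : ℝ} {a e : ℕ} {ω ω' : Env}

theorem tmB_R (hρ : ρ * G.w u ≤ b * G.w u) : TmB Γ G γ b Q u κ a e ⊆ TmR Γ G γ ρ b Q u κ a e :=
  fun _ h c c' h1 h2 h3 h4 h5 h6 => h c c' h1 h2 h3 h4 (h5.trans (by linarith)) h6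

theorem tmR_sub {a' e' : ℕ} (ha : a' ≤ a) (he : e ≤ e') : TmR Γ G γ ρ b Q u κ a' e' ⊆ TmR Γ G γ ρ b Q u κ a e :=
  fun _ h c c' h1 h2 h3 h4 => h c c' (ha.trans h1) (h2.trans he) (ha.trans h3) (h4.trans he)

/-- **`TmR` reads the rows `> a`.** -/
theorem tmR_congr (hae : a < e) (he : e ≤ Γ.N) (h : ∀ k y, a < k → wt ω k y = wt ω' k y) (hT : ω ∈ TmR Γ G γ ρ b Q u κ a e) :
    ω' ∈ TmR Γ G γ ρ b Q u κ a e := by
  have key : ∀ c : ℕ × ℤ, a ≤ c.1 → c.1 ≤ e → bn Γ γ ω' c = bn Γ γ ω c := by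
    intro c h1 h2
    rcases lt_or_ge c.1 Γ.N with h3 | h3
    · exact (bn_congr (y := c.2) h3 fun i y hi => h i y (lt_of_le_of_lt h1 hi)).symm
    · have h4 : a < c.1 := by omega
      unfold bn
      rw [h c.1 c.2 h4, bw_congr (w := wt ω) (w' := wt ω') (Γ.N - c.1) c.1 (fun i hi y => h i y (by omega)) c.2]
  intro c c' h1 h2 h3 h4 h5 h6
  rw [key c h1 h2, key c' h3 h4]
  exact hT c c' h1 h2 h3 h4 h5 h6

theorem meas_TmR (ρ b Q : ℝ) (u : ℕ) (κ : ℤ × ℤ) (a e : ℕ) : MeasurableSet (TmR Γ G γ ρ b Q u κ a e) := by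
  have h : TmR Γ G γ ρ b Q u κ a e = ⋂ c : ℕ × ℤ, ⋂ c' : ℕ × ℤ, {ω | a ≤ c.1 → c.1 ≤ e → a ≤ c'.1 → c'.1 ≤ e →
      |G.lat c - G.ctr u κ| ≤ ρ * G.w u + 1 → |G.lat c' - G.ctr u κ| ≤ b * G.w u + 1 → bn Γ γ ω c' ≤ Real.exp Q * bn Γ γ ω c} := by
    ext ω
    simp only [Set.mem_iInter]
    exact Iff.rfl
  rw [h]
  refine MeasurableSet.iInter fun c => MeasurableSet.iInter fun c' => ?_
  by_cases h1 : a ≤ c.1 ∧ c.1 ≤ e ∧ a ≤ c'.1 ∧ c'.1 ≤ e ∧ |G.lat c - G.ctr u κ| ≤ ρ * G.w u + 1 ∧ |G.lat c' - G.ctr u κ| ≤ b * G.w u + 1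
  · obtain ⟨h2, h3, h4, h5, h6, h7⟩ := h1
    simp only [h2, h3, h4, h5, h6, h7, forall_true_left]
    exact measurableSet_le (meas_bn c') ((meas_bn c).const_mul _)
  · have e2 : {ω : Env | a ≤ c.1 → c.1 ≤ e → a ≤ c'.1 → c'.1 ≤ e → |G.lat c - G.ctr u κ| ≤ ρ * G.w u + 1 →
        |G.lat c' - G.ctr u κ| ≤ b * G.w u + 1 → bn Γ γ ω c' ≤ Real.exp Q * bn Γ γ ω c} = Set.univ := by
      refine Set.eq_univ_of_forall fun ω h2 h3 h4 h5 h6 h7 => absurd ⟨h2, h3, h4, h5, h6, h7⟩ h1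
    rw [e2]
    exact MeasurableSet.univ

/-! ### Sizes -/

/-- The sizes from the tame backward masses and the weights of the row `e`. -/
theorem sz_ofR (hγ : ∀ k y, 0 < γ k y) (hv0 : 0 ≤ G.v) (hv1 : G.v ≤ 1) (hb0 : 0 ≤ b * G.w u)
    (hρ : G.kw * G.w u + 1 ≤ ρ * G.w u)
    (hae : a < e) (he : e ≤ Γ.N) (hUw : 0 ≤ Uw) (hT : ω ∈ TmR Γ G γ ρ b Q u κ a e) (hS : ω ∈ StB G b Uw u κ e) :
    Sz (wt ω) Γ.p (gB γ e ω) e (bw (wt ω) Γ.p e (Γ.N - e)) (sp G u κ b) (spp G u κ b) (Bk G u κ a e) a (Q + Uw) (Q + Uw)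
      (bn Γ γ ω (e, zr G u κ e)) := by
  have hz := zr_lat (G := G) (u := u) (κ := κ) (e := e) hb0
  have hρ0 : 0 ≤ ρ * G.w u := by
    have := mul_nonneg G.kw_nonneg (G.w_pos u).le
    linarith
  have hzρ := zr_lat (G := G) (u := u) (κ := κ) (e := e) hρ0
  have hF := bn_pos (Γ := Γ) hγ ω (e, zr G u κ e)
  have hE : Real.exp Q ≤ Real.exp (Q + Uw) := Real.exp_le_exp.2 (by linarith)
  refine ⟨hF.le, fun c hc => ?_, fun c hc => ?_⟩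
  · have hr := rim_row hc
    have hl : |G.lat c - G.ctr u κ| ≤ ρ * G.w u + 1 := (rim_lat hv0 hv1 hc).trans (by linarith)
    have h1 := hT c (e, zr G u κ e) hr.1 (by omega) hae.le le_rfl hl hz
    rw [bw_bf (by omega) he, bn_mul hγ, gB_lt (by omega)]
    have h2 := mul_pos (wt_pos ω c.1 c.2) (hγ c.1 c.2)
    have h3 := bn_pos (Γ := Γ) hγ ω c
    calc bn Γ γ ω (e, zr G u κ e) * (wt ω c.1 c.2 * γ c.1 c.2) ≤ Real.exp Q * bn Γ γ ω c * (wt ω c.1 c.2 * γ c.1 c.2) :=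
          mul_le_mul_of_nonneg_right h1 h2.le
      _ = Real.exp Q * (bn Γ γ ω c * (wt ω c.1 c.2 * γ c.1 c.2)) := by ring
      _ ≤ _ := mul_le_mul_of_nonneg_right hE (mul_pos h3 h2).le
  · have hlp : |G.lat c - G.ctr u κ| ≤ b * G.w u + 1 := hc.1
    have hca : a ≤ c.1 ∧ c.1 ≤ e := by
      rcases hc.2 with ⟨h1, h2, _⟩ | h1
      · exact ⟨h1.le, h2.le⟩
      · exact ⟨by omega, h1.le⟩
    have h1 := hT (e, zr G u κ e) c hae.le le_rfl hca.1 hca.2 hzρ hlp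
    have h2 := mul_pos (wt_pos ω c.1 c.2) (hγ c.1 c.2)
    rw [bw_bf hca.2 he, bn_mul hγ]
    have h4 : bn Γ γ ω c * (wt ω c.1 c.2 * γ c.1 c.2) ≤ Real.exp Q * bn Γ γ ω (e, zr G u κ e) * (wt ω c.1 c.2 * γ c.1 c.2) :=
      mul_le_mul_of_nonneg_right h1 h2.le
    refine h4.trans ?_
    rcases lt_or_ge c.1 e with h5 | h5
    · rw [gB_lt h5]
      exact mul_le_mul_of_nonneg_right (mul_le_mul_of_nonneg_right hE hF.le) h2.le
    · have h6 : c.1 = e := le_antisymm hca.2 h5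
      have h7 : wt ω c.1 c.2 ≤ Real.exp Uw := by
        have := (hS c.2 (by rw [← h6]; exact hlp)).2
        rwa [← h6] at this
      have h8 : gB γ e ω c.1 c.2 = γ c.1 c.2 := if_neg (by omega)
      rw [h8, Real.exp_add]
      have h9 := hγ c.1 c.2
      calc Real.exp Q * bn Γ γ ω (e, zr G u κ e) * (wt ω c.1 c.2 * γ c.1 c.2)
          ≤ Real.exp Q * bn Γ γ ω (e, zr G u κ e) * (Real.exp Uw * γ c.1 c.2) :=
            mul_le_mul_of_nonneg_left (mul_le_mul_of_nonneg_right h7 h9.le) (by positivity)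
        _ = _ := by ring

/-- The lower half of the row `e`. -/
theorem ft_ofR (hγ : ∀ k y, 0 < γ k y) (hb0 : 0 ≤ b * G.w u) (hρb : ρ * G.w u ≤ b * G.w u) (hae : a ≤ e) (hT : ω ∈ TmR Γ G γ ρ b Q u κ a e)
    (hS : ω ∈ StB G b Uw u κ e) {v : ℤ} (hv : |G.lat (e, v) - G.ctr u κ| ≤ ρ * G.w u + 1) :
    bn Γ γ ω (e, zr G u κ e) * γ e v ≤ Real.exp (Q + Uw) * bw (wt ω) Γ.p e (Γ.N - e) v := by
  have hz := zr_lat (G := G) (u := u) (κ := κ) (e := e) hb0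
  have h1 := hT (e, v) (e, zr G u κ e) hae le_rfl hae le_rfl hv hz
  have h2 := hγ e v
  have h3 := bn_pos (Γ := Γ) hγ ω (e, v)
  have h4 := (hS v (hv.trans (by linarith))).1
  have h5 : bw (wt ω) Γ.p e (Γ.N - e) v = bn Γ γ ω (e, v) * (wt ω e v * γ e v) := bn_mul hγ ω (e, v)
  rw [h5, Real.exp_add]
  have h6 : 1 ≤ Real.exp Uw * wt ω e v := by
    have h7 : Real.exp Uw * Real.exp (-Uw) = 1 := by rw [← Real.exp_add]; simp
    rw [← h7]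
    exact mul_le_mul_of_nonneg_left h4 (Real.exp_pos _).le
  calc bn Γ γ ω (e, zr G u κ e) * γ e v ≤ Real.exp Q * bn Γ γ ω (e, v) * γ e v := mul_le_mul_of_nonneg_right h1 h2.le
    _ = Real.exp Q * bn Γ γ ω (e, v) * γ e v * 1 := (mul_one _).symm
    _ ≤ Real.exp Q * bn Γ γ ω (e, v) * γ e v * (Real.exp Uw * wt ω e v) := mul_le_mul_of_nonneg_left h6 (by positivity)
    _ = _ := by ring

/-! ### One block -/

/-- **THE RATIO OF ONE BLOCK.** -/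
theorem ro_blkR (hγ : ∀ k y, 0 < γ k y) (hv0 : 0 ≤ G.v) (hv1 : G.v ≤ 1) (hb : G.kw * G.w u + 2 ≤ b * G.w u) (hb0 : 0 ≤ b * G.w u)
    (hρ : G.kw * G.w u + 1 ≤ ρ * G.w u) (hρb : ρ * G.w u ≤ b * G.w u)
    (hae : a < e) (he : e ≤ Γ.N) (heq : ∀ k y, (k, y) ∉ Bk G u κ a e → wt ω k y = wt ω' k y) {al q U₁ d : ℝ} (hal : 0 ≤ al)
    (hQ : 0 ≤ Q) (hUw : 0 ≤ Uw) (hq : Q + Uw ≤ q) (hU₁ : 0 ≤ U₁) (hA : A ≤ Real.exp al) (hX0 : 0 ≤ X)
    (hX : X * Real.exp (1 + al + 5 * q + U₁) ≤ 1 / 2) (hd : 2 + 2 * al + 5 * q + U₁ ≤ d)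
    (hK : ω ∈ KiB Γ G γ b A X u κ a e) (hT : ω ∈ TmR Γ G γ ρ b Q u κ a e) (hS : ω ∈ StB G b Uw u κ e)
    (hK' : ω' ∈ KiB Γ G γ b A X u κ a e) (hL : ω' ∈ LoB Γ G γ ρ U₁ u κ a e) :
    Ro (wt ω) (wt ω') Γ.p Γ.N (Bk G u κ a e) (Real.exp d) := by
  have e2 : (2 : ℝ) ≤ Real.exp 1 := by
    have := Real.add_one_le_exp (1 : ℝ)
    linarith
  have hq0 : 0 ≤ q := by linarith
  have hreg := reg_B (G := G) (κ := κ) hv0 hv1 hb a e
  have hwt : ∀ k y, (k, y) ∉ Bk G u κ a e → wt ω' k y = wt ω k y := fun k y h => (heq k y h).symm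
  have hgc : ∀ k y, (k, y) ∉ Bk G u κ a e → gB γ e ω' k y = gB γ e ω k y := fun k y h => gB_congr (hwt k y h)
  have hge : ∀ k, e ≤ k → wt ω k = wt ω' k := fun k hk => funext fun y => heq k y fun h => absurd h.2.2 (by omega)
  have eF : bw (wt ω') Γ.p e (Γ.N - e) = bw (wt ω) Γ.p e (Γ.N - e) := by
    funext y
    exact bw_congr (w := wt ω') (w' := wt ω) (Γ.N - e) e (fun i hi z => by rw [hge i hi]) y
  have hFn : ∀ y, 0 ≤ bw (wt ω) Γ.p e (Γ.N - e) y := fun y => (bw_pos (wt_pos ω) Γ.p_pos _ _ _).le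
  -- kernels
  have K : Kin (wt ω) Γ.p (gB γ e ω) e (sp G u κ b) (Bk G u κ a e) a (Real.exp al) X :=
    ⟨fun c hc => (hK.mass c hc).trans (mul_le_mul_of_nonneg_right hA (gB_pos hγ e ω _ _).le), hK.exit⟩
  have K1 := Kin.congr hreg hgc hK'
  have K' : Kin (wt ω') Γ.p (gB γ e ω) e (sp G u κ b) (Bk G u κ a e) a (Real.exp al) X :=
    ⟨fun c hc => (K1.mass c hc).trans (mul_le_mul_of_nonneg_right hA (gB_pos hγ e ω _ _).le), K1.exit⟩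
  -- sizes of the old masses
  have S := (sz_ofR hγ hv0 hv1 hb0 hρ hae he hUw hT hS).mono (gB_pos hγ e ω) (wt_pos ω) Γ.p_pos hFn hq hq
  -- sizes of the new masses
  have n1 : X * Real.exp (q + q) ≤ 1 / 2 := (mul_le_mul_of_nonneg_left (Real.exp_le_exp.2 (by linarith)) hX0).trans hX
  have n2 := num_ok (A := Real.exp al) (X := X) (Q := q) (U := q) n1
  have n3 : max 1 (2 * Real.exp al * Real.exp (q + q)) ≤ Real.exp (1 + al + 2 * q) := by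
    refine max_le (Real.one_le_exp (by linarith)) ?_
    rw [show 1 + al + 2 * q = 1 + (al + (q + q)) by ring, Real.exp_add 1, Real.exp_add al, mul_assoc]
    exact mul_le_mul_of_nonneg_right e2 (by positivity)
  have S' : Sz (wt ω') Γ.p (gB γ e ω) e (bw (wt ω) Γ.p e (Γ.N - e)) (sp G u κ b) (spp G u κ b) (Bk G u κ a e) a (U₁ + q)
      (1 + al + 3 * q) (bn Γ γ ω (e, zr G u κ e)) := by
    refine up_tr (wt_pos ω) (wt_pos ω') Γ.p_pos (gB_pos hγ e ω) hFn hreg hae.le (fun k y _ h => heq k y h) S K' n2.1 n2.2 ?_ fun c hc => ?_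
    · calc max 1 (2 * Real.exp al * Real.exp (q + q)) * Real.exp q ≤ Real.exp (1 + al + 2 * q) * Real.exp q :=
            mul_le_mul_of_nonneg_right n3 (Real.exp_pos _).le
        _ = _ := by rw [← Real.exp_add]; congr 1; ring
    · obtain ⟨J, hJ, hk⟩ := hL c hc
      rw [hgc c.1 c.2 hc.2.1] at hk
      have hF0 := (bn_pos (Γ := Γ) hγ ω (e, zr G u κ e)).le
      have h2 : ∀ v ∈ J, ker (wt ω') Γ.p c.1 (e - c.1) c.2 v * (bn Γ γ ω (e, zr G u κ e) * γ e v) ≤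
          Real.exp q * (ker (wt ω') Γ.p c.1 (e - c.1) c.2 v * bw (wt ω) Γ.p e (Γ.N - e) v) := fun v hv => by
        rw [mul_left_comm (Real.exp q)]
        refine mul_le_mul_of_nonneg_left ((ft_ofR hγ hb0 hρb hae.le hT hS (hJ v hv)).trans ?_) (ker_nonneg (wt_pos _) Γ.p_pos _ _ _ _)
        exact mul_le_mul_of_nonneg_right (Real.exp_le_exp.2 hq) (hFn v)
      calc bn Γ γ ω (e, zr G u κ e) * gB γ e ω c.1 c.2 = Real.exp U₁ * (bn Γ γ ω (e, zr G u κ e) * (Real.exp (-U₁) * gB γ e ω c.1 c.2)) := by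
            have h3 : Real.exp U₁ * Real.exp (-U₁) = 1 := by rw [← Real.exp_add]; simp
            calc _ = (Real.exp U₁ * Real.exp (-U₁)) * (bn Γ γ ω (e, zr G u κ e) * gB γ e ω c.1 c.2) := by rw [h3, one_mul]
              _ = _ := by ring
        _ ≤ Real.exp U₁ * (bn Γ γ ω (e, zr G u κ e) * ∑ v ∈ J, ker (wt ω') Γ.p c.1 (e - c.1) c.2 v * γ e v) :=
            mul_le_mul_of_nonneg_left (mul_le_mul_of_nonneg_left hk hF0) (Real.exp_pos _).le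
        _ = Real.exp U₁ * ∑ v ∈ J, ker (wt ω') Γ.p c.1 (e - c.1) c.2 v * (bn Γ γ ω (e, zr G u κ e) * γ e v) := by
            rw [mul_sum]
            congr 1
            exact sum_congr rfl fun v _ => by ring
        _ ≤ Real.exp U₁ * (Real.exp q * ∑ v ∈ J, ker (wt ω') Γ.p c.1 (e - c.1) c.2 v * bw (wt ω) Γ.p e (Γ.N - e) v) := by
            rw [mul_sum J _ (Real.exp q)]
            exact mul_le_mul_of_nonneg_left (sum_le_sum h2) (Real.exp_pos _).le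
        _ ≤ Real.exp U₁ * (Real.exp q * bf (wt ω') Γ.p (bw (wt ω) Γ.p e (Γ.N - e)) c.1 (e - c.1) c.2) :=
            mul_le_mul_of_nonneg_left (mul_le_mul_of_nonneg_left (lo_sum (wt_pos _) Γ.p_pos hFn _ _ _ J) (Real.exp_pos _).le)
              (Real.exp_pos _).le
        _ = Real.exp (U₁ + q) * bf (wt ω') Γ.p (bw (wt ω) Γ.p e (Γ.N - e)) c.1 (e - c.1) c.2 := by
            rw [Real.exp_add]; ring
  -- the ratio
  have S1 := S.mono (gB_pos hγ e ω) (wt_pos ω) Γ.p_pos hFn (show q ≤ U₁ + q by linarith) (show q ≤ 1 + al + 3 * q by linarith)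
  have m1 : X * Real.exp ((1 + al + 3 * q) + (U₁ + q)) ≤ 1 / 2 :=
    (mul_le_mul_of_nonneg_left (Real.exp_le_exp.2 (by linarith)) hX0).trans hX
  have m2 := num_ok (A := Real.exp al) (X := X) (Q := 1 + al + 3 * q) (U := U₁ + q) m1
  have m3 : max 1 (2 * Real.exp al * Real.exp ((1 + al + 3 * q) + (U₁ + q))) ≤ Real.exp d := by
    refine max_le (Real.one_le_exp (by linarith)) ?_
    have m4 : 2 * Real.exp al * Real.exp ((1 + al + 3 * q) + (U₁ + q)) ≤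
        Real.exp 1 * Real.exp al * Real.exp ((1 + al + 3 * q) + (U₁ + q)) :=
      mul_le_mul_of_nonneg_right (mul_le_mul_of_nonneg_right e2 (Real.exp_pos _).le) (Real.exp_pos _).le
    refine m4.trans ?_
    rw [← Real.exp_add, ← Real.exp_add]
    exact Real.exp_le_exp.2 (by linarith)
  have S'' : Sz (wt ω') Γ.p (gB γ e ω) e (bw (wt ω') Γ.p e (Γ.N - e)) (sp G u κ b) (spp G u κ b) (Bk G u κ a e) a (U₁ + q)
      (1 + al + 3 * q) (bn Γ γ ω (e, zr G u κ e)) := by rw [eF]; exact S'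
  refine (rt_off (wt_pos ω) (wt_pos ω') Γ.p_pos (gB_pos hγ e ω) hreg hae.le he heq S1 ?_ K K' m2.1 m2.2).mono (wt_pos _) (wt_pos _)
    Γ.p_pos m3
  rw [← eF]
  exact S''

/-! ### Two blocks -/

variable {r : ℕ} {U₁ al q d : ℝ}

/-- The inputs of the two blocks, masses in `TmR`: rows `a < r < e`, gate block `(a, r)`, lane block `(r - 1, e)`. -/
structure TwoR (Γ : Cx) (G : Gm) (γ : ℕ → ℤ → ℝ) (ρ b A X Q Uw U₁ : ℝ) (u : ℕ) (κ : ℤ × ℤ) (a r e : ℕ) (ω ω' : Env) : Prop where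
  k1 : ω ∈ KiB Γ G γ b A X u κ a r
  k2 : ω ∈ KiB Γ G γ b A X u κ (r - 1) e
  tm : ω ∈ TmR Γ G γ ρ b Q u κ a e
  s1 : ω ∈ StB G b Uw u κ r
  s2 : ω ∈ StB G b Uw u κ e
  k1' : ω' ∈ KiB Γ G γ b A X u κ a r
  l1' : ω' ∈ LoB Γ G γ ρ U₁ u κ a r
  k2' : ω' ∈ KiB Γ G γ b A X u κ (r - 1) e
  l2' : ω' ∈ LoB Γ G γ ρ U₁ u κ (r - 1) e

/-- **TWO BLOCKS**: the ratio of each block and of the window. -/
theorem ro_twoR (hγ : ∀ k y, 0 < γ k y) (hv0 : 0 ≤ G.v) (hv1 : G.v ≤ 1) (hb : G.kw * G.w u + 2 ≤ b * G.w u) (hb0 : 0 ≤ b * G.w u)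
    (hρ : G.kw * G.w u + 1 ≤ ρ * G.w u) (hρb : ρ * G.w u ≤ b * G.w u)
    (har : a < r) (hre : r ≤ e) (he : e ≤ Γ.N) (heq : ∀ k y, (k, y) ∉ Bk G u κ a e → wt ω k y = wt ω' k y) (hal : 0 ≤ al)
    (hQ : 0 ≤ Q) (hUw : 0 ≤ Uw) (hq : Q + Uw ≤ q) (hU₁ : 0 ≤ U₁) (hA : A ≤ Real.exp al) (hX0 : 0 ≤ X)
    (hX : X * Real.exp (1 + al + 5 * q + U₁) ≤ 1 / 2) (hd : 2 + 2 * al + 5 * q + U₁ ≤ d)
    (H : TwoR Γ G γ ρ b A X Q Uw U₁ u κ a r e ω ω') :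
    Ro (wt ω) (wt (spl r ω' ω)) Γ.p Γ.N (Bk G u κ a r) (Real.exp d) ∧
    Ro (wt (spl r ω' ω)) (wt ω') Γ.p Γ.N (Bk G u κ (r - 1) e) (Real.exp d) ∧
    Ro (wt ω) (wt ω') Γ.p Γ.N (Bk G u κ a e) (Real.exp (2 * d)) := by
  have r1 : Ro (wt ω) (wt (spl r ω' ω)) Γ.p Γ.N (Bk G u κ a r) (Real.exp d) := by
    refine ro_blkR hγ hv0 hv1 hb hb0 hρ hρb har (hre.trans he) (fun k y h => ?_) hal hQ hUw hq hU₁ hA hX0 hX hd H.k1 (tmR_sub le_rfl hre H.tm) H.s1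
      (kiB_congr hγ hv0 hv1 hb (fun k y _ h2 => (wt_spl_lt h2 y).symm) H.k1') (loB_congr hγ (fun k y _ h2 => (wt_spl_lt h2 y).symm) H.l1')
    rcases lt_or_ge k r with h1 | h1
    · rw [wt_spl_lt h1]
      exact heq k y fun h2 => h ⟨h2.1, h2.2.1, h1⟩
    · rw [wt_spl_ge h1]
  have r2 : Ro (wt (spl r ω' ω)) (wt ω') Γ.p Γ.N (Bk G u κ (r - 1) e) (Real.exp d) := by
    rcases Nat.eq_or_lt_of_le hre with h0 | h0
    · -- empty second block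
      have e1 : ∀ k y, wt (spl r ω' ω) k y = wt ω' k y := fun k y => by
        rcases lt_or_ge k r with h1 | h1
        · exact wt_spl_lt h1 y
        · rw [wt_spl_ge h1]
          exact heq k y fun h2 => by
            have := h2.2.2
            omega
      have e2 : wt (spl r ω' ω) = wt ω' := funext fun k => funext fun y => e1 k y
      have hd1 : 1 ≤ Real.exp d := Real.one_le_exp (by linarith)
      rw [e2]
      exact ⟨fun k y _ => le_mul_of_one_le_left (bw_pos (wt_pos ω') Γ.p_pos _ _ _).le hd1,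
        fun k y _ => le_mul_of_one_le_left (bw_pos (wt_pos ω') Γ.p_pos _ _ _).le hd1⟩
    · have har' : r - 1 < e := by omega
      refine ro_blkR hγ hv0 hv1 hb hb0 hρ hρb har' he (fun k y h => ?_) hal hQ hUw hq hU₁ hA hX0 hX hd
        (kiB_congr hγ hv0 hv1 hb (fun k y h1 _ => (wt_spl_ge (by omega) y).symm) H.k2)
        (tmR_congr har' he (fun k y h1 => (wt_spl_ge (by omega) y).symm) (tmR_sub (by omega) le_rfl H.tm))
        (stB_congr (fun y => (wt_spl_ge h0.le y).symm) H.s2) H.k2' H.l2'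
      rcases lt_or_ge k r with h1 | h1
      · rw [wt_spl_lt h1]
      · rw [wt_spl_ge h1]
        exact heq k y fun h2 => h ⟨h2.1, by omega, h2.2.2⟩
  refine ⟨r1, r2, fun k y h => ?_, fun k y h => ?_⟩
  · have h1 := r1.up k y fun h2 => h ⟨h2.1, h2.2.1, lt_of_lt_of_le h2.2.2 hre⟩
    have h2 := r2.up k y fun h2 => h ⟨h2.1, by have := h2.2.1; omega, h2.2.2⟩
    calc bw (wt ω') Γ.p k (Γ.N - k) y ≤ Real.exp d * bw (wt (spl r ω' ω)) Γ.p k (Γ.N - k) y := h2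
      _ ≤ Real.exp d * (Real.exp d * bw (wt ω) Γ.p k (Γ.N - k) y) := mul_le_mul_of_nonneg_left h1 (Real.exp_pos _).le
      _ = _ := by rw [two_mul, Real.exp_add, mul_assoc]
  · have h1 := r1.dn k y fun h2 => h ⟨h2.1, h2.2.1, lt_of_lt_of_le h2.2.2 hre⟩
    have h2 := r2.dn k y fun h2 => h ⟨h2.1, by have := h2.2.1; omega, h2.2.2⟩
    calc bw (wt ω) Γ.p k (Γ.N - k) y ≤ Real.exp d * bw (wt (spl r ω' ω)) Γ.p k (Γ.N - k) y := h1
      _ ≤ Real.exp d * (Real.exp d * bw (wt ω') Γ.p k (Γ.N - k) y) := mul_le_mul_of_nonneg_left h2 (Real.exp_pos _).le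
      _ = _ := by rw [two_mul, Real.exp_add, mul_assoc]


/-! ### One window -/

/-- **One window, both blocks, early numbers.** -/
theorem two_pairR {η : Env} (hγ : ∀ k y, 0 < γ k y) (hv0 : 0 ≤ G.v) (hv1 : G.v ≤ 1) (h0 : 0 ≤ G.rcc u κ)
    (hb : G.kw * G.w u + 2 ≤ b * G.w u) (hb0 : 0 ≤ b * G.w u)
    (hρ : G.kw * G.w u + 1 ≤ ρ * G.w u) (hρb : ρ * G.w u ≤ b * G.w u)
    (har : G.ra u κ ≤ r) (hre : r ≤ G.re u κ) (he : G.re u κ ≤ Γ.N) (hal : 0 ≤ al)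
    (hQ : 0 ≤ Q) (hUw : 0 ≤ Uw) (hq : Q + Uw ≤ q) (hU₁ : 0 ≤ U₁) (hA : A ≤ Real.exp al) (hX0 : 0 ≤ X)
    (hX : X * Real.exp (1 + al + 5 * q + U₁) ≤ 1 / 2) (hd : 2 + 2 * al + 5 * q + U₁ ≤ d)
    (hT : ω ∈ TmR Γ G γ ρ b Q u κ (G.ra u κ - 1) (G.re u κ)) (hO : ω ∈ LvR Γ G γ b A X Uw u κ r)
    (hN : G.R u κ η ω ∈ (KiB Γ G γ b A X u κ (G.ra u κ - 1) r ∩ LoB Γ G γ ρ U₁ u κ (G.ra u κ - 1) r) ∩
      (KiB Γ G γ b A X u κ (r - 1) (G.re u κ) ∩ LoB Γ G γ ρ U₁ u κ (r - 1) (G.re u κ))) :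
    Ro (wt ω) (wt (spl r (G.R u κ η ω) ω)) Γ.p Γ.N (Bk G u κ (G.ra u κ - 1) r) (Real.exp d) ∧
    Ro (wt (spl r (G.R u κ η ω) ω)) (wt (G.R u κ η ω)) Γ.p Γ.N (Bk G u κ (r - 1) (G.re u κ)) (Real.exp d) ∧
    Ro (wt ω) (wt (G.R u κ η ω)) Γ.p Γ.N (Bw G u κ) (Real.exp (2 * d)) := by
  have hra := ra_pos (G := G) u κ
  have key := ro_twoR (ω := ω) (ω' := G.R u κ η ω) hγ hv0 hv1 hb hb0 hρ hρb (a := G.ra u κ - 1) (r := r) (e := G.re u κ) (by omega) hre he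
    (fun k y h => ?_) hal hQ hUw hq hU₁ hA hX0 hX hd
    ⟨hO.1.1, hO.1.2, hT, hO.2.1, hO.2.2, hN.1.1, hN.1.2, hN.2.1, hN.2.2⟩
  · rwa [Bk_all h0] at key
  · rw [Bk_all h0] at h
    exact (G37.Gm.wt_gl_of_not_mem (A := G.win u κ) (η := η) (ω := ω) h).symm

/-! ### From the levels and `Ou` -/

/-- **`TmR` FROM `Ou` AT ONE RADIUS AND THE LEVELS OF THE ROWS.** -/
theorem tmR_of {μ : Measure ℝ} {s c C : ℝ} {n₀ : ℕ} [IsProbabilityMeasure μ] (h0 : In μ s c C n₀) (P : ℕ) {θ K : ℝ} (hK : 4 ≤ K)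
    (hθ : 0 < θ) : ∃ n₁ : ℕ, 1 ≤ n₁ ∧ ∀ q β : ℝ, 0 ≤ q → 0 < β → ∃ U : ℝ, 0 < U ∧
    ∀ {Γ : Cx} {G : Gm} {E : ℕ → ℝ} {R Q' Q4 sgm sg ρ b : ℝ} {u : ℕ} {κ : ℤ × ℤ} {ω : Env} {N i : ℕ} {col : ℤ}, n₁ ≤ G.T u →
    N ≤ G.T u → Γ.s = s → G.v = sl μ s → G.w u = wd μ s (G.T u) → E u = EE μ s (G.T u) →
    |Γ.h| * wd μ s (G.T u) ≤ c / 8 * EE μ s (G.T u) → ω ∈ Far16 μ s c θ K (G.T u) N P ((i : ℤ), col) q →
    |G.lat (i, col) - G.ctr u κ| ≤ G.w u → (G.re u κ : ℤ) ≤ (i : ℤ) + N → G.re u κ ≤ Γ.N → 0 ≤ sgm → sgm ≤ c / 8 → sg ≤ E u →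
    5 ≤ R → ω ∈ Ou37.Ou μ s Γ G E R Q' Q4 sgm sg u κ → i ≤ G.ra u κ - 1 → θ * G.T u ≤ ((G.re u κ - (G.ra u κ - 1) : ℕ) : ℝ) →
    ρ * G.w u + 1 ≤ R * G.w u → 0 ≤ b →
    ω ∈ TmR Γ G (Ou37.gam μ s Γ) ρ b ((U + Q4 + (β + sgm) * (b + 1) + Q') * E u + sg) u κ (G.ra u κ - 1) (G.re u κ) := by
  obtain ⟨n₁, hn₁, H⟩ := TamV20.profO20 h0 P hK hθ
  obtain ⟨n₂, hn₂⟩ := Filter.eventually_atTop.1 ((wd_tendsto h0).eventually_ge_atTop 1)
  refine ⟨max n₁ n₂, hn₁.trans (le_max_left _ _), fun q β hq hβ => ?_⟩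
  obtain ⟨U, hU, H⟩ := H q β 1 hq hβ zero_le_one
  refine ⟨U, hU, ?_⟩
  intro Γ G E R Q' Q4 sgm sg ρ b u κ ω N i col hT hNT hs hv hw hE hh hη hcol hre hreN hsgm hsc hsg hR hω hi hθT hρR hb0
  have hw1 : 1 ≤ G.w u := by rw [hw]; exact hn₂ _ ((le_max_right _ _).trans hT)
  have hE0 : 0 ≤ E u := by rw [hE]; exact (EE_pos _).le
  intro c c' h1 h2 h3 h4 h5 h6
  -- the middle place
  obtain ⟨c₁, hc₁⟩ : ∃ c₁ : ℕ × ℤ, c₁ = (G.ra u κ - 1, zr G u κ (G.ra u κ - 1)) := ⟨_, rfl⟩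
  have hc1 : |G.lat c₁ - G.ctr u κ| ≤ 1 := by
    have h7 := zr_lat (G := G) (u := u) (κ := κ) (b := 0) (e := G.ra u κ - 1) (by simp)
    rw [hc₁]
    linarith
  have hra : c₁.1 = G.ra u κ - 1 := by rw [hc₁]
  have hae : G.ra u κ - 1 ≤ G.re u κ := h1.trans h2
  have key1 := H ((le_max_left _ _).trans hT) hNT hs hv hw hE hh hη hcol hre hreN hsgm hsc hsg (by linarith) hω.2 c₁.1 c'.1 c₁.2 c'.2
    (by rw [hra]; exact hi) (by rw [hra]; exact hae) (by rw [hra]; exact hθT) (hi.trans h3) h4 (by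
      show |G.lat c₁ - G.ctr u κ| ≤ 1 * G.w u
      linarith)
  have key2 := hω.1 c ⟨by omega, h2, h5.trans hρR⟩ c₁ ⟨by rw [hra]; omega, by rw [hra]; exact hae, by nlinarith⟩
  have hg : ∀ c : ℕ × ℤ, Ou37.bn μ s Γ c.1 c.2 ω = bn Γ (Ou37.gam μ s Γ) ω c := fun c => by
    rw [Ou37.bn_eq]
    rfl
  rw [hg c', hg c₁] at key1
  rw [hg c, hg c₁] at key2
  have hl : |G.lat c' - G.ctr u κ| / G.w u ≤ b + 1 := by
    rw [div_le_iff₀ (by linarith)]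
    nlinarith
  have hx : (U + Q4 + (β + sgm) * (|G.lat c' - G.ctr u κ| / G.w u)) * E u ≤ (U + Q4 + (β + sgm) * (b + 1)) * E u := by
    refine mul_le_mul_of_nonneg_right ?_ hE0
    have := mul_le_mul_of_nonneg_left hl (show 0 ≤ β + sgm by linarith)
    linarith
  have hp := (bn_pos (Γ := Γ) (Ou37.gam_pos (μ := μ) (s := s) (Γ := Γ)) ω c).le
  calc bn Γ (Ou37.gam μ s Γ) ω c' ≤ _ := key1
    _ ≤ Real.exp ((U + Q4 + (β + sgm) * (b + 1)) * E u) * (Real.exp (Q' * E u + sg) * bn Γ (Ou37.gam μ s Γ) ω c) :=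
        mul_le_mul (Real.exp_le_exp.2 hx) key2 (bn_pos (Γ := Γ) (Ou37.gam_pos (μ := μ) (s := s) (Γ := Γ)) ω c₁).le (Real.exp_pos _).le
    _ = _ := by
        rw [← mul_assoc, ← Real.exp_add]
        congr 2
        ring

end

end Pool.Agent.W_7d29a1_C1.RB22
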