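import Pool.Agent.W_7d29a1_C1.ShlB8
import Pool.Agent.W_7d29a1_C1.NuK77

/-!
MP_7d29a1_pr, attractor route [C1], field `nu` of one context: FEW SCALES ARE REACHED BY THE LEVEL EVENTS (helper38, hand of helper77).

`rc38` : eventually in `n`, for every family of at most `n ^ 16` places, off a set of probability `n ^ (-2)`, at most `δ m8` scales
`b ≤ m8 + x` have `ω ∈ Rch .. (b - 2)`, for the level events of the heights `U K ^ (χ l)`, for the ratio `χ > 0`. The count is the one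
of RchU77 (helper77), copied to keep the imports small.
-/

set_option autoImplicit false
set_option linter.unusedSectionVars false

namespace Pool.Agent.W_7d29a1_C1.Rc38

open MeasureTheory Finset Filter Topology
open Pool.Agent.W_7d29a1_F Pool.Agent.W_7d29a1_h4g Pool.Agent.W_7d29a1_H Pool.Agent.W_7d29a1_HS
open Pool.Agent.W_7d29a1_C1 (On20)
open Pool.Agent.W_7d29a1_C1.T10 (Gd pt Tg Hg Tg_pos Tg_mono Hg_mono GW)
open Pool.Agent.W_7d29a1_C1.S71 Pool.Agent.W_7d29a1_C1.Sw9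
open Pool.Agent.W_7d29a1_C1.H60
open Pool.Agent.W_7d29a1_C1.H8
open scoped ENNReal

noncomputable section

variable {μ : Measure ℝ} [IsProbabilityMeasure μ]

/-- The scales `a < M` reached by ranges: at most the sum of the ranges. -/
theorem card_Rch38 {Ω Λ : Type*} (l : ℕ → Λ → Ω → ℕ) (M : ℕ) (q : Λ) (ω : Ω) {F : Finset ℕ} (hF : F ⊆ range M)
    (h : ∀ a ∈ F, ω ∈ Rch l a q) : F.card ≤ ∑ v ∈ range M, l v q ω := by
  classical
  have h1 : F ⊆ (range M).biUnion fun v => (range (l v q ω)).image fun i => v + i := by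
    intro a ha
    obtain ⟨v, hv, hv'⟩ := h a ha
    have haM := mem_range.1 (hF ha)
    refine mem_biUnion.2 ⟨v, mem_range.2 (by omega), mem_image.2 ⟨a - v, mem_range.2 (by omega), by omega⟩⟩
  refine (card_le_card h1).trans (card_biUnion_le.trans (sum_le_sum fun v _ => ?_))
  exact card_image_le.trans (le_of_eq (card_range _))

/-- The same with the scale `u - 2` in place of `u`. -/
theorem card_Rch2_38 {Ω Λ : Type*} (l : ℕ → Λ → Ω → ℕ) (M : ℕ) (q : Λ) (ω : Ω) {F : Finset ℕ} (hF : F ⊆ range M)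
    (h : ∀ a ∈ F, ω ∈ Rch l (a - 2) q) : F.card ≤ ∑ v ∈ range M, l v q ω + 2 := by
  classical
  have h1 : F ⊆ range 2 ∪ F.filter fun a => 2 ≤ a := by
    intro a ha
    by_cases h2 : 2 ≤ a
    · exact mem_union_right _ (mem_filter.2 ⟨ha, h2⟩)
    · exact mem_union_left _ (mem_range.2 (by omega))
  have h2 : (F.filter fun a => 2 ≤ a).card ≤ ∑ v ∈ range M, l v q ω := by
    have h3 := card_Rch38 l M q ω (F := (F.filter fun a => 2 ≤ a).image fun a => a - 2) (fun b hb => ?_) (fun b hb => ?_)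
    · rwa [card_image_of_injOn] at h3
      intro a ha b hb hab
      have h4 := (mem_filter.1 ha).2
      have h5 := (mem_filter.1 hb).2
      have h6 : a - 2 = b - 2 := hab
      omega
    · obtain ⟨a, ha, rfl⟩ := mem_image.1 hb
      have := mem_range.1 (hF (mem_filter.1 ha).1)
      rw [mem_range]
      omega
    · obtain ⟨a, ha, rfl⟩ := mem_image.1 hb
      exact h a (mem_filter.1 ha).1
  have h3 := (card_le_card h1).trans (card_union_le _ _)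
  rw [card_range] at h3
  omega

/-- **THE REACHED SCALES OF ALL CONTACTS** from the tail of one contact (`tau77`): off `Bd` at most `r + 1` scales `u < M` with
`Rch .. (u - 2)`. -/
theorem rchU38 {G : Gd} {Lv : ℕ → ℕ × ℤ → Env → ℕ} {L M r : ℕ} {S : Finset (ℕ × ℤ)} {t : ℝ≥0∞}
    (h : ∀ c ∈ S, law μ {ω | r ≤ ∑ v ∈ range M, lvL G Lv L v c ω} ≤ t) :
    ∃ Bd : Set Env, law μ Bd ≤ S.card * t ∧ ∀ ω ∉ Bd, ∀ c ∈ S, ∀ F : Finset ℕ, F ⊆ range M →
      (∀ u ∈ F, ω ∈ Rch (lvL G Lv L) (u - 2) c) → F.card ≤ r + 1 := by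
  refine ⟨⋃ c ∈ S, {ω | r ≤ ∑ v ∈ range M, lvL G Lv L v c ω}, ?_, fun ω hω c hc F hF hF' => ?_⟩
  · refine (measure_biUnion_finset_le _ _).trans ((sum_le_sum h).trans (le_of_eq ?_))
    rw [sum_const, nsmul_eq_mul]
  · have h1 : ¬ r ≤ ∑ v ∈ range M, lvL G Lv L v c ω := fun hcon => hω (Set.mem_biUnion (show c ∈ (S : Set (ℕ × ℤ)) from hc) hcon)
    have h2 := card_Rch2_38 (lvL G Lv L) M c ω hF hF'
    omega

/-- Monotonicity of the heights. -/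
theorem yl_mono38 {U K χ : ℝ} (hU : 0 ≤ U) (hK : 1 ≤ K) (hχ : 0 ≤ χ) : Monotone (yl8 U K χ) := fun a b hab => by
  unfold yl8
  have h1 : (a : ℝ) ≤ b := by exact_mod_cast hab
  exact mul_le_mul_of_nonneg_left (Real.rpow_le_rpow_of_exponent_le hK (mul_le_mul_of_nonneg_left h1 hχ)) hU

/-- The growth of the heights. -/
theorem yl_le38 {U K χ Rg : ℝ} (hU : 0 ≤ U) (hK : 1 < K) (hRg : 1 < Rg) (hχ : χ ≤ Real.log Rg / Real.log K) (l : ℕ) :
    yl8 U K χ l ≤ U * Rg ^ l := by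
  unfold yl8
  have hlK : 0 < Real.log K := Real.log_pos hK
  have h1 : K ^ χ ≤ Rg := by
    rw [← Real.log_le_log_iff (by positivity) (by linarith), Real.log_rpow (by linarith)]
    rwa [le_div_iff₀ hlK] at hχ
  rw [Real.rpow_mul (by linarith), Real.rpow_natCast]
  exact mul_le_mul_of_nonneg_left (pow_le_pow_left₀ (by positivity) h1 l) hU

omit [IsProbabilityMeasure μ] in
/-- The numbers of `rc38`. -/
theorem num38 {r x M g δ F : ℝ} (hδ : 0 < δ) (hg : 1 ≤ δ * g) (hg1 : 1 ≤ g) (h4 : r * (16 * g) ≤ M + x) (h5 : F ≤ r + 2)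
    (h6 : x + 2 ≤ M * (δ / 2)) (h7 : 0 ≤ x) (h8 : 0 ≤ r) (h9 : 0 ≤ M) : F ≤ δ * M := by
  have k1 : r * 16 ≤ δ * (M + x) := by
    have k2 : r * 16 * 1 ≤ r * 16 * (δ * g) := mul_le_mul_of_nonneg_left hg (by linarith)
    have k3 : δ * (r * (16 * g)) ≤ δ * (M + x) := mul_le_mul_of_nonneg_left h4 hδ.le
    have k4 : δ * (r * (16 * g)) = r * 16 * (δ * g) := by ring
    linarith
  have k3 : r * 16 ≤ M + x := by
    have k2 : r * 16 * 1 ≤ r * 16 * g := mul_le_mul_of_nonneg_left hg1 (by linarith)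
    have k4 : r * (16 * g) = r * 16 * g := by ring
    linarith
  have k5 : 0 ≤ δ * M := mul_nonneg hδ.le h9
  have k6 : M * (δ / 2) = δ * M / 2 := by ring
  rcases le_total δ 1 with hd | hd
  · have k4 : δ * x ≤ 1 * x := mul_le_mul_of_nonneg_right hd h7
    have k7 : δ * (M + x) = δ * M + δ * x := by ring
    linarith
  · have k4 : 1 * M ≤ δ * M := mul_le_mul_of_nonneg_right hd h9
    linarith

/-- **FEW REACHED SCALES**, every family of at most `n ^ 16` places. -/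
theorem rc38 {s c θ Kw : ℝ} {P : ℕ} {A' a₁ g₁ : ℝ} {n₁ : ℕ} (hA' : 0 < A') (ha₁ : 0 < a₁) (hg₁ : 0 < g₁)
    (HE : Tl8 μ s c θ Kw P A' a₁ g₁ n₁) {e : ℝ} (he : 0 < e) (he1 : e ≤ 1 / 32) {K : ℕ} (hK : 2 ≤ K) {χ δ : ℝ} (hχ : 0 < χ)
    (hδ : 0 < δ) :
    ∃ U₀ : ℝ, 1 ≤ U₀ ∧ ∀ U : ℝ, U₀ ≤ U → ∀ {e₀ : ℝ}, 0 < e₀ → e₀ ≤ e → ∀ (x : ℕ) {Q : ℕ}, 1 ≤ Q → ∀ {R C₀ : ℝ} {B : ℕ},
      ∀ᶠ n : ℕ in atTop, ∀ G : Gd, GW μ s R B C₀ (h8 Q e₀ n) K (m8 K e n + x) G → ∀ (Lm : ℕ) (S : Finset (ℕ × ℤ)),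
        (S.card : ℝ) ≤ (n : ℝ) ^ (16 : ℝ) → ∃ Bd : Set Env, law μ Bd ≤ ENNReal.ofReal ((n : ℝ) ^ (-(2 : ℝ))) ∧
          ∀ ω ∉ Bd, ∀ c' ∈ S, ∀ F : Finset ℕ, F ⊆ range (m8 K e n + x + 1) →
            (∀ b ∈ F, ω ∈ Rch (lvL G (LvE Lm (EL60 μ s c θ Kw P (Tg (h8 Q e₀ n) K) (yl8 U K χ))) (m8 K e n + x)) (b - 2) c') →
            (F.card : ℝ) ≤ δ * m8 K e n := by
  have hK0 : 0 < K := by omega
  have hKR : (2 : ℝ) ≤ K := by exact_mod_cast hK
  have hK1 : (1 : ℝ) < K := by linarith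
  have hlK : 0 < Real.log K := Real.log_pos hK1
  obtain ⟨κ', hκ'⟩ : ∃ κ' : ℝ, κ' = e / (16 * (1 : ℕ) * Real.log K) := ⟨_, rfl⟩
  have hκ0 : 0 < κ' := by
    rw [hκ']
    positivity
  obtain ⟨C', hC', pw, HT⟩ := H77.tau77 (μ := μ) (κ := κ') (D := 18) hA' ha₁ hg₁ hK1 hχ hκ0 (by norm_num)
  obtain ⟨M₀, hM₀⟩ := exists_nat_ge (1 / δ)
  obtain ⟨g, hg⟩ : ∃ g : ℕ, g = M₀ + 1 := ⟨_, rfl⟩
  have hg1 : 1 ≤ g := by omega
  have hgR : 1 ≤ δ * g := by
    have h1 : 1 ≤ M₀ * δ := (div_le_iff₀ hδ).1 hM₀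
    have h2 : δ * ((M₀ + 1 : ℕ) : ℝ) = M₀ * δ + δ := by
      push_cast
      ring
    rw [hg, h2]
    linarith
  have hgR1 : (1 : ℝ) ≤ g := by exact_mod_cast hg1
  refine ⟨C' * ((0 + g : ℕ) : ℝ) ^ pw, ?_, ?_⟩
  · exact one_le_mul_of_one_le_of_one_le hC' (one_le_pow₀ (by rw [zero_add]; exact hgR1))
  intro U hU e₀ he₀ hee x Q hQ R C₀ B
  have ev : ∀ {y : ℝ}, 0 < y → ∀ M : ℝ, ∀ᶠ n : ℕ in atTop, M ≤ (n : ℝ) ^ y := fun hy M =>
    ((tendsto_rpow_atTop hy).comp tendsto_natCast_atTop_atTop).eventually_ge_atTop M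
  have hlog : Tendsto (fun n : ℕ => κ' * Real.log n) atTop atTop :=
    (Real.tendsto_log_atTop.comp tendsto_natCast_atTop_atTop).const_mul_atTop hκ0
  have hU0 : 0 ≤ U := by
    refine le_trans ?_ hU
    positivity
  filter_upwards [gridN8 (x := x) he he1 he₀ hee hK hQ, frac8 he hK (le_refl 1),
    ev (show (0 : ℝ) < e₀ / 4 by linarith) (n₁ : ℕ), eventually_ge_atTop 1,
    hlog.eventually_ge_atTop ((16 * g : ℕ) : ℝ), hlog.eventually_ge_atTop ((x + 2) / (δ / 2))] with n hg8 hf8 hh hn1 hl1 hl2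
  intro G hG Lm S hS
  have hh' : n₁ ≤ h8 Q e₀ n := by exact_mod_cast hh.trans hg8.h1
  rw [← hκ', Nat.div_one] at hf8
  have hM1 : 16 * (0 + g) ≤ m8 K e n := by
    rw [zero_add]
    exact_mod_cast hl1.trans hf8
  have hM2 : (x + 2) / (δ / 2) ≤ (m8 K e n : ℝ) := hl2.trans hf8
  have hT : ∀ v, n₁ ≤ Tg (h8 Q e₀ n) K (v + 1) := fun v => by
    rw [Tg_pos (by omega), mul_comm 2 (h8 Q e₀ n), mul_assoc]
    have hP : 0 < K ^ (v + 1) := Nat.pow_pos hK0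
    exact hh'.trans (Nat.le_mul_of_pos_right _ (Nat.mul_pos two_pos hP))
  have hTm : ∀ v, Tg (h8 Q e₀ n) K v ≤ Tg (h8 Q e₀ n) K (v + 1) := fun v => Tg_mono (by omega) (Nat.le_succ v)
  have mE : ∀ v o l, MeasurableSet (EL60 μ s c θ Kw P (Tg (h8 Q e₀ n) K) (yl8 U K χ) v o l) := fun v o l =>
    measurableSet_EL60 v o l
  have oE : ∀ v o l, Off (AT (Tg (h8 Q e₀ n) K) (v + 1) \ T10.At (pt o) (AT (Tg (h8 Q e₀ n) K) v))ᶜ
      (EL60 μ s c θ Kw P (Tg (h8 Q e₀ n) K) (yl8 U K χ) v o l) := fun v o l => EL60_off hTm v o l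
  have hE : ∀ v < m8 K e n + x, ∀ (c' : ℕ × ℤ) (l : ℕ), (law μ).real (EL60 μ s c θ Kw P (Tg (h8 Q e₀ n) K) (yl8 U K χ) v (G.dg v c') l)ᶜ ≤
      A' * Real.exp (-(a₁ * (U * (K : ℝ) ^ (χ * (l : ℝ))) ^ g₁)) := fun v _ c' l => by
    have h0 : 0 ≤ yl8 U K χ l := by
      unfold yl8
      positivity
    exact HE _ _ v _ l (hT v) h0
  have hκM : κ' * Real.log n ≤ ((m8 K e n + x : ℕ) : ℝ) := by
    refine hf8.trans ?_
    push_cast
    linarith [show (0 : ℝ) ≤ x from Nat.cast_nonneg x]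
  obtain ⟨r, hr⟩ : ∃ r : ℕ, r = (m8 K e n + x) / (16 * (0 + g)) := ⟨_, rfl⟩
  have ht : ∀ c' ∈ S, law μ {ω | r ≤ ∑ v ∈ range (m8 K e n + x),
      lvL G (LvE Lm (EL60 μ s c θ Kw P (Tg (h8 Q e₀ n) K) (yl8 U K χ))) (m8 K e n + x) v c' ω} ≤ ENNReal.ofReal ((n : ℝ) ^ (-(18 : ℝ))) :=
    fun c' _ => HT (m₂ := 0) (g := g) (by omega) U hU n (m8 K e n + x) (m8 K e n + x) Lm hn1 hκM (by omega) (by omega) (by omega) G _ _
      hG.ok hG.nest mE oE hE c' r hr.symm.le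
  obtain ⟨Bd, hBd, hF⟩ := rchU38 ht
  refine ⟨Bd, hBd.trans ?_, ?_⟩
  · rw [← ENNReal.ofReal_natCast, ← ENNReal.ofReal_mul (Nat.cast_nonneg _)]
    refine ENNReal.ofReal_le_ofReal ?_
    have n0 : (0 : ℝ) < n := by exact_mod_cast (by omega : 0 < n)
    calc (S.card : ℝ) * (n : ℝ) ^ (-(18 : ℝ)) ≤ (n : ℝ) ^ (16 : ℝ) * (n : ℝ) ^ (-(18 : ℝ)) :=
          mul_le_mul_of_nonneg_right hS (by positivity)
      _ = (n : ℝ) ^ (-(2 : ℝ)) := by
          rw [← Real.rpow_add n0]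
          norm_num
  · intro ω hω c' hc' F hFs hFr
    have h1 : (F.erase (m8 K e n + x)) ⊆ range (m8 K e n + x) := by
      intro b hb
      have h2 := mem_range.1 (hFs (mem_of_mem_erase hb))
      have h3 := ne_of_mem_erase hb
      exact mem_range.2 (by omega)
    have h2 := hF ω hω c' hc' _ h1 fun u hu => hFr u (mem_of_mem_erase hu)
    have h3 : F.card ≤ r + 2 := by
      have h4 := pred_card_le_card_erase (s := F) (a := m8 K e n + x)
      omega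
    have h4 : (r : ℝ) * (16 * g) ≤ m8 K e n + x := by
      have h5 : r * (16 * (0 + g)) ≤ m8 K e n + x := by
        rw [hr]
        exact Nat.div_mul_le_self _ _
      rw [zero_add] at h5
      exact_mod_cast h5
    have h5 : (F.card : ℝ) ≤ r + 2 := by exact_mod_cast h3
    have h6 : (x : ℝ) + 2 ≤ m8 K e n * (δ / 2) := (div_le_iff₀ (by linarith)).1 hM2
    have h7 : (0 : ℝ) ≤ x := Nat.cast_nonneg x
    have h8 : (0 : ℝ) ≤ r := Nat.cast_nonneg r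
    have h9 : (0 : ℝ) ≤ m8 K e n := Nat.cast_nonneg _
    exact num38 hδ hgR hgR1 h4 h5 h6 h7 h8 h9

end

end Pool.Agent.W_7d29a1_C1.Rc38
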