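import Pool.Agent.W_7d29a1_C1.ShlC8
import Pool.Agent.W_7d29a1_C1.RcP38

/-!
MP_7d29a1_pr, attractor route [C1], field `nu` of one context: FEW SCALES ARE REACHED BY THE LEVEL EVENTS (helper38, hand of helper77).

`rcQ38` : eventually in `n`, off a set of probability `n ^ (-2)`, at all the sites of `S8`, at most `δ m8` scales `b ≤ m8 + x` have
`ω ∈ Rch .. (b - 2)`, for the level events of heights `y l ≤ q₀ Rg ^ l`.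
-/

set_option autoImplicit false
set_option linter.unusedSectionVars false

namespace Pool.Agent.W_7d29a1_C1.Rc38

open MeasureTheory Finset Filter Topology
open Pool.Agent.W_7d29a1_F Pool.Agent.W_7d29a1_h4g Pool.Agent.W_7d29a1_H Pool.Agent.W_7d29a1_HS
open Pool.Agent.W_7d29a1_C1 (On20)
open Pool.Agent.W_7d29a1_C1.T10 (Gd pt Tg Hg Tg_pos Tg_mono Hg_mono GW)
open Pool.Agent.W_7d29a1_C1.S71 Pool.Agent.W_7d29a1_C1.Sw9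
open Pool.Agent.W_7d29a1_C1.H60
open Pool.Agent.W_7d29a1_C1.H8
open scoped ENNReal

noncomputable section

variable {μ : Measure ℝ} [IsProbabilityMeasure μ]

/-- **FEW REACHED SCALES** at the sites `S8`. -/
theorem rcQ38 {s c C : ℝ} {n₀ : ℕ} (hI : In μ s c C n₀) {θ Kw : ℝ} {P : ℕ} {A' a₁ g₁ : ℝ} {n₁ : ℕ} (hA' : 0 < A') (ha₁ : 0 < a₁)
    (hg₁ : 0 < g₁) (HE : Tl8 μ s c θ Kw P A' a₁ g₁ n₁) {e : ℝ} (he : 0 < e) (he1 : e ≤ 1 / 32) {K : ℕ} (hK : 2 ≤ K) {Rg δ : ℝ}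
    (hRg : 1 < Rg) (hδ : 0 < δ) :
    ∃ (y : ℕ → ℝ) (q₀ : ℝ), Monotone y ∧ 0 ≤ q₀ ∧ (∀ l, 0 ≤ y l) ∧ (∀ l, y l ≤ q₀ * Rg ^ l) ∧
      ∀ {e₀ : ℝ}, 0 < e₀ → e₀ ≤ e → ∀ (x : ℕ) {Q : ℕ}, 1 ≤ Q → ∀ {R C₀ : ℝ} {B : ℕ} {c₂ δ' κ : ℝ}, c₂ ≤ 1 / 32 →
      ∀ᶠ n : ℕ in atTop, ∀ G : Gd, GW μ s R B C₀ (h8 Q e₀ n) K (m8 K e n + x) G → ∀ Γ : Cx, Adm μ s c₂ δ' κ n Γ →
        ∃ Bd : Set Env, law μ Bd ≤ ENNReal.ofReal ((n : ℝ) ^ (-(2 : ℝ))) ∧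
          ∀ ω ∉ Bd, ∀ c' ∈ S8 e K n G Γ, ∀ F : Finset ℕ, F ⊆ range (m8 K e n + x + 1) →
            (∀ b ∈ F, ω ∈ Rch (lvL G (LvE (m8 K e n + x) (EL60 μ s c θ Kw P (Tg (h8 Q e₀ n) K) y)) (m8 K e n + x)) (b - 2) c') →
            (F.card : ℝ) ≤ δ * m8 K e n := by
  have hKR : (2 : ℝ) ≤ K := by exact_mod_cast hK
  have hK1 : (1 : ℝ) < K := by linarith
  have hlK : 0 < Real.log K := Real.log_pos hK1
  have hlR : 0 < Real.log Rg := Real.log_pos hRg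
  obtain ⟨χ, hχd⟩ : ∃ χ : ℝ, χ = Real.log Rg / Real.log K := ⟨_, rfl⟩
  have hχ : 0 < χ := by
    rw [hχd]
    positivity
  obtain ⟨U, hU, H⟩ := rc38 (μ := μ) hA' ha₁ hg₁ HE he he1 hK hχ hδ
  have hU0 : 0 ≤ U := by linarith
  refine ⟨yl8 U K χ, U, yl_mono38 hU0 hK1.le hχ.le, hU0, fun l => ?_, fun l => yl_le38 hU0 hK1 hRg hχd.le l, ?_⟩
  · unfold yl8
    positivity
  intro e₀ he₀ hee x Q hQ R C₀ B c₂ δ' κ hc₂
  by_cases hB : 1 ≤ B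
  swap
  · refine Eventually.of_forall fun n G hG => ?_
    have := hG.B2
    omega
  have ev : ∀ {y : ℝ}, 0 < y → ∀ M : ℝ, ∀ᶠ n : ℕ in atTop, M ≤ (n : ℝ) ^ y := fun hy M =>
    ((tendsto_rpow_atTop hy).comp tendsto_natCast_atTop_atTop).eventually_ge_atTop M
  filter_upwards [gridN8 (x := x) he he1 he₀ hee hK hQ, Vn8 hI he he1 he₀ hee hK hQ hB, H U le_rfl he₀ hee x hQ (R := R) (C₀ := C₀) (B := B),
    ev (show (0 : ℝ) < 29 / 32 by norm_num) 4, eventually_ge_atTop 3] with n hg8 hV8 hX ev4 hn3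
  intro G hG Γ hA
  have hn1 : 1 ≤ n := by omega
  have hV : G.V (m8 K e n) ≤ n := by
    have h1 := hG.V (m8 K e n) hg8.m0 (Nat.le_add_right _ _)
    have h3 := hV8 (m8 K e n) hg8.m0 le_rfl
    have h4 : (G.V (m8 K e n) : ℝ) ≤ n := by
      have h5 : (0 : ℝ) ≤ (m8 K e n : ℝ) + 2 := by positivity
      linarith
    exact_mod_cast h4
  have hs₀ : ∀ r : ℕ, |(G.s r : ℝ) - Pool.Agent.W_7d29a1_H.sl μ s * r| ≤ n := fun r => by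
    refine (hG.err' r).trans ?_
    have h1 : ((m8 K e n + x + 2 : ℕ) : ℝ) ≤ n := by exact_mod_cast hg8.Lx
    push_cast at h1 ⊢
    linarith
  have hkN : G.H (m8 K e n) * ((Γ.N - n - T98.dT (G.H (m8 K e n)) ((n : ℝ) ^ e)) / G.H (m8 K e n)) ≤ Γ.N := by
    refine (Nat.mul_div_le _ _).trans ?_
    omega
  have hcard : ((S8 e K n G Γ).card : ℝ) ≤ (n : ℝ) ^ (16 : ℝ) := by
    have h1 : (S8 e K n G Γ).card ≤ n ^ 16 := card_Sc8 hkN (rows_le8 hA hc₂ hn1 ev4) hn3 hV (sl8 hI) hs₀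
    have e2 : (n : ℝ) ^ (16 : ℝ) = (n : ℝ) ^ 16 := by norm_cast
    rw [e2]
    exact_mod_cast h1
  exact hX G hG _ (S8 e K n G Γ) hcard

end

end Pool.Agent.W_7d29a1_C1.Rc38
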