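import Pool.Agent.W_7d29a1_C1.TdJ51
import Pool.Agent.W_7d29a1_C1.RcQ38

/-!
MP_7d29a1_pr, attractor route [C1], field `nu`: **`RcQ51` IS A THEOREM** (helper38; statement of helper51).
-/

set_option autoImplicit false

namespace Pool.Agent.W_7d29a1_C1.Rc38

open MeasureTheory Finset Filter Topology
open Pool.Agent.W_7d29a1_F Pool.Agent.W_7d29a1_h4g Pool.Agent.W_7d29a1_H Pool.Agent.W_7d29a1_HS
open Pool.Agent.W_7d29a1_C1.H8
open Pool.Agent.W_7d29a1_C1.Nu51 (RcQ51)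

noncomputable section

variable {μ : Measure ℝ} [IsProbabilityMeasure μ]

/-- **FEW SCALES ARE REACHED BY THE LEVELS OF THE SHELL.** -/
theorem rcQ51 {s c C : ℝ} {n₀ : ℕ} (hI : In μ s c C n₀) : RcQ51 μ s c := by
  intro P A' a₁ g₁ n₁ hA ha hg _ _ HE ρ hρ hρ1 e he he1 K hK R B C₀ _ _ _ Rg δ hRg hδ
  obtain ⟨y, q₀, hy, hq, h0, hl, H⟩ := rcQ38 hI hA ha hg HE he he1 hK hRg hδ
  refine ⟨y, q₀, hq, hy, h0, hl, fun x _ c₂ δ' κ _ hc _ _ Q hQ => ?_⟩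
  filter_upwards [H (mul_pos hρ he) (mul_le_of_le_one_left he.le hρ1) x hQ (R := R) (C₀ := C₀) (B := B) (δ' := δ') (κ := κ) hc]
    with n hn G hG Γ hΓ
  obtain ⟨Bd, h1, h2⟩ := hn G hG Γ hΓ
  refine ⟨Bd, h1, fun ω hω c' hc' F hF hFr => h2 ω hω c' hc' F (fun b hb => ?_) hFr⟩
  have h3 := mem_range.1 (hF hb)
  exact mem_range.2 (by omega)

end

end Pool.Agent.W_7d29a1_C1.Rc38
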