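import Pool.Agent.W_7d29a1_C1.ShlL51
import Pool.Agent.W_7d29a1_C1.NumN90

/-!
MP_7d29a1_pr, attractor route [C1], SIDE N OF ShlC8: **`SepQ51 ⇒ TdQ51 ⇒ NuS8`** (helper51).

The fraction of the covered and of the untame scales is `δ = 1 / (256 Z)`, the exponent of the scales `κm = e / (8 log K)`, the shift
`j₀ = m₁ - 1`, the radii `(l - 1) / 2`, the lost levels `{0, 1}`.
-/

set_option autoImplicit false

namespace Pool.Agent.W_7d29a1_C1.Nu51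

open MeasureTheory Finset Filter Topology
open Pool.Agent.W_7d29a1_F Pool.Agent.W_7d29a1_h4g Pool.Agent.W_7d29a1_H Pool.Agent.W_7d29a1_HS
open Pool.Agent.W_7d29a1_C1.T10 (Gd Tg GW Tg_pos)
open Pool.Agent.W_7d29a1_C1.H60
open Pool.Agent.W_7d29a1_C1.H40 (Tk)
open Pool.Agent.W_7d29a1_C1.H49 (cnt ex em)
open Pool.Agent.W_7d29a1_C1.G37 (Gm Wok gmW wok)
open Pool.Agent.W_7d29a1_C1.SF98 (XS FS wS up p98)
open Pool.Agent.W_7d29a1_C1.H77 (fS77 Cc77 Usable good77)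
open Pool.Agent.W_7d29a1_C1.H8
open Pool.Agent.W_7d29a1_C1.D31 (NV31)
open scoped ENNReal

noncomputable section

variable {μ : Measure ℝ} [IsProbabilityMeasure μ]

/-- The numbers of side N at the scale `n`. -/
theorem numS51 {κm : ℝ} (hκm : 0 < κm) (Z τ₀ m₁ : ℕ) : ∀ᶠ n : ℕ in atTop, ∀ M : ℕ, κm * Real.log n ≤ M →
    256 * Z * (τ₀ + 2) + 4 * m₁ + 4 ≤ M := by
  have hlog : Tendsto (fun n : ℕ => κm * Real.log n) atTop atTop :=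
    (Real.tendsto_log_atTop.comp tendsto_natCast_atTop_atTop).const_mul_atTop hκm
  filter_upwards [hlog.eventually_ge_atTop ((256 * Z * (τ₀ + 2) + 4 * m₁ + 4 : ℕ) : ℝ)] with n hn
  intro M hM
  exact_mod_cast hn.trans hM

omit [IsProbabilityMeasure μ] in
/-- Two rare events. -/
theorem law51 : ∀ᶠ n : ℕ in atTop, ∀ {A B : Set Env}, law μ A ≤ ENNReal.ofReal ((n : ℝ) ^ (-(3 / 2 : ℝ))) →
    law μ B ≤ ENNReal.ofReal ((n : ℝ) ^ (-(2 : ℝ))) → law μ (A ∪ B) ≤ ENNReal.ofReal ((n : ℝ) ^ (-(1 : ℝ))) := by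
  have ev : ∀ {y : ℝ}, 0 < y → ∀ M : ℝ, ∀ᶠ n : ℕ in atTop, M ≤ (n : ℝ) ^ y := fun hy M =>
    ((tendsto_rpow_atTop hy).comp tendsto_natCast_atTop_atTop).eventually_ge_atTop M
  filter_upwards [ev (show (0 : ℝ) < 1 / 2 by norm_num) 2, eventually_ge_atTop 1] with n hn hn1
  intro A B hA hB
  have hnR : (1 : ℝ) ≤ n := by exact_mod_cast hn1
  have n0 : (0 : ℝ) < n := by linarith
  refine (measure_union_le A B).trans ((add_le_add hA hB).trans ?_)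
  rw [← ENNReal.ofReal_add (Real.rpow_nonneg n0.le _) (Real.rpow_nonneg n0.le _)]
  refine ENNReal.ofReal_le_ofReal ?_
  have e1 : (n : ℝ) ^ (-(1 : ℝ)) = (n : ℝ) ^ (1 / 2 : ℝ) * (n : ℝ) ^ (-(3 / 2 : ℝ)) := by
    rw [← Real.rpow_add n0]
    norm_num
  have e2 : (n : ℝ) ^ (-(2 : ℝ)) ≤ (n : ℝ) ^ (-(3 / 2 : ℝ)) := Real.rpow_le_rpow_of_exponent_le hnR (by norm_num)
  have h0 : 0 ≤ (n : ℝ) ^ (-(3 / 2 : ℝ)) := Real.rpow_nonneg n0.le _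
  rw [e1]
  nlinarith

open Classical in
/-- **SIDE N OF THE SHELL**: separation, tameness and determinism give the field `nu`. -/
theorem nuS8_51 {s c C : ℝ} {n₀ : ℕ} (hI : In μ s c C n₀) {c₁ c₃ : ℝ} (hS : SepQ51 μ s) (hT : TdQ51 μ s c₁ c₃) :
    NuS8 μ s c₁ c₃ := by
  obtain ⟨K₀, hS⟩ := hS
  obtain ⟨ρ₁, hρ₁, hT⟩ := hT
  obtain ⟨K₂, hW⟩ := wok hI
  refine ⟨ρ₁, hρ₁, fun ρ hρ hρρ hρ1 e he he1 => ?_⟩
  obtain ⟨K₁, hT⟩ := hT ρ hρ hρρ hρ1 e he he1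
  have he₀ : 0 < ρ * e := mul_pos hρ he
  have he₀e : ρ * e ≤ e := mul_le_of_le_one_left he.le hρ1
  refine ⟨max (max K₀ K₁) K₂, fun K hK hK2 R B C₀ hR hB hC => ?_⟩
  have k0 : K₀ ≤ K := (le_max_left _ _).trans ((le_max_left _ _).trans hK)
  have k1 : K₁ ≤ K := (le_max_right _ _).trans ((le_max_left _ _).trans hK)
  have k2 : K₂ ≤ K := (le_max_right _ _).trans hK
  obtain ⟨n₁, hW⟩ := hW K k2
  obtain ⟨Z, hZ, hT⟩ := hT K k1 R B C₀ hR hB hC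
  have hZR : (4 : ℝ) ≤ Z := by exact_mod_cast hZ
  have hlK : 0 < Real.log K := Real.log_pos (by exact_mod_cast (by omega : 1 < K))
  obtain ⟨δ, hδ⟩ : ∃ δ : ℝ, δ = 1 / (256 * Z) := ⟨_, rfl⟩
  have hδ0 : 0 < δ := by rw [hδ]; positivity
  have hδ1 : δ ≤ 1 := by
    rw [hδ, div_le_one (by positivity)]
    linarith
  obtain ⟨κm, hκm⟩ : ∃ κm : ℝ, κm = e / (8 * Real.log K) := ⟨_, rfl⟩
  have hκm0 : 0 < κm := by rw [hκm]; positivity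
  obtain ⟨k, hkK, hkδ, hS⟩ := hS K k0 κm δ hκm0 hδ0 hδ1
  obtain ⟨mb, hT⟩ := hT δ hδ0 k hkK
  obtain ⟨m, hm⟩ : ∃ m : ℕ, m = max mb k.J := ⟨_, rfl⟩
  have m1 : mb ≤ m := hm ▸ le_max_left _ _
  have m2 : k.J ≤ m := hm ▸ le_max_right _ _
  obtain ⟨kst, hkst, hT⟩ := hT m m1
  subst hkK
  refine ⟨Z, (k.up m).m0, kst, by omega, (k.up m).hm, hkst, fun p hp => ?_⟩
  obtain ⟨w₁, hw₁, hT⟩ := hT p hp
  refine ⟨w₁, hw₁, fun w₁' hw₁' => ?_⟩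
  obtain ⟨q₁, hq₁, hT⟩ := hT w₁' hw₁'
  refine ⟨q₁, hq₁, fun PV QV SV gf u hQV hSV hgf hu => ?_⟩
  obtain ⟨w₂, q₂, s₁, e', l₀, hw₂, hq₂, hs₁, he', hl₀, hT⟩ := hT PV QV SV gf u hQV hSV hgf hu
  obtain ⟨s₀, hs₀, hS⟩ := hS m (ρ * e / 4) (by linarith)
  have hlθ : 0 < Real.log k.θ := Real.log_pos k.hθ
  obtain ⟨r, hr⟩ : ∃ r : ℝ, r = δ / 2 * κm * Real.log k.θ := ⟨_, rfl⟩
  have hr0 : 0 < r := by rw [hr]; positivity
  obtain ⟨s', hs'⟩ : ∃ s' : ℝ, s' = min (min s₀ s₁) (min (1 / 32) (r / 2)) := ⟨_, rfl⟩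
  have s1 : s' ≤ s₀ := hs' ▸ (min_le_left _ _).trans (min_le_left _ _)
  have s2 : s' ≤ s₁ := hs' ▸ (min_le_left _ _).trans (min_le_right _ _)
  have s3 : s' ≤ 1 / 32 := hs' ▸ (min_le_right _ _).trans (min_le_left _ _)
  have s4 : s' ≤ r / 2 := hs' ▸ (min_le_right _ _).trans (min_le_right _ _)
  have s5 : 0 < s' := hs' ▸ lt_min (lt_min hs₀ hs₁) (lt_min (by norm_num) (by linarith))
  refine ⟨w₂, q₂, s', hw₂, hq₂, s5, fun c₂ hc₂ hc₂s δ' hδ' hδc => ?_⟩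
  obtain ⟨κS, hκS, hS⟩ := hS c₂ hc₂ (hc₂s.trans s1) δ' hδ' hδc
  obtain ⟨κT, hκT, hT⟩ := hT c₂ hc₂ (hc₂s.trans s2) δ' hδ' hδc
  refine ⟨min κS κT, lt_min hκS hκT, fun κ hκ hκκ => ?_⟩
  have hS := hS κ hκ (hκκ.trans (min_le_left _ _))
  obtain ⟨Q₀, hQ₀, hT⟩ := hT κ hκ (hκκ.trans (min_le_right _ _))
  refine ⟨Q₀, hQ₀, fun Q hQ hQ1 => ?_⟩
  have hT := hT Q hQ hQ1
  have hN := Num90.nuE90 (μ := μ) hI he he1 he₀ he₀e hK2 hZ (dl := 1 / (64 * Z)) (by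
    rw [mul_one_div, div_le_div_iff₀ (by positivity) (by norm_num)]
    linarith) (p - 1) ((k.up m).m0 + p) hl₀ (a := fun l => (l - 1) / 2)
    (fun x y hxy => Nat.div_le_div_right (Nat.sub_le_sub_right hxy 1)) (fun l hl => by omega) (θ := k.θ) (d := δ) (e' := e') (s' := s') k.hθ hδ0
    he' (by rw [← hκm, ← hr]; linarith) (by linarith) (c₂ := c₂) (δ := δ') (κ := κ) (hc₂s.trans s3) (R := R) (C₀ := C₀) (B := B) hQ1
  have ev : ∀ {y : ℝ}, 0 < y → ∀ M : ℝ, ∀ᶠ n : ℕ in atTop, M ≤ (n : ℝ) ^ y := fun hy M =>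
    ((tendsto_rpow_atTop hy).comp tendsto_natCast_atTop_atTop).eventually_ge_atTop M
  filter_upwards [hS, hT, hN, gridN8 (x := (k.up m).m0 + p) he he1 he₀ he₀e hK2 hQ1, numS51 hκm0 Z k.τ₀ p,
    ev (show (0 : ℝ) < ρ * e / 4 by linarith) n₁, eventually_ge_atTop 2, law51 (μ := μ)] with n hS hT hN hg8 hnum hn1 hn2 hlw
  intro G hG
  obtain ⟨ν, lm, hν, hlm, hT⟩ := hT G hG
  refine ⟨ν, hν, fun Γ hA => ?_⟩
  have hnR : (2 : ℝ) ≤ n := by exact_mod_cast hn2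
  have hM1 := hg8.m1
  rw [← hκm] at hM1
  have hMM := hnum _ hM1
  have hh : (n : ℝ) ^ (ρ * e / 4) ≤ ((2 * h8 Q (ρ * e) n : ℕ) : ℝ) := by
    have h1 := hg8.h1
    have h2 : (0 : ℝ) ≤ h8 Q (ρ * e) n := Nat.cast_nonneg _
    push_cast
    linarith
  have hWk : Wok μ s (2 * h8 Q (ρ * e) n) k.K := hW _ (by exact_mod_cast hn1.trans hh)
  have hK1 : 1 ≤ k.K := by omega
  have hmt : m8 k.K e n + k.J ≤ m8 k.K e n + ((k.up m).m0 + p) := by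
    have h1 := SC51.up_m0 k m
    omega
  have hTL : 4 * (((2 * h8 Q (ρ * e) n : ℕ) : ℝ) * (k.K : ℝ) ^ (m8 k.K e n + k.J)) ≤ (n : ℝ) ^ (1 / 32 : ℝ) := by
    have h1 := hg8.TL
    rw [Tg_pos (by have := hg8.m0; omega)] at h1
    have h3 : (k.K : ℝ) ^ (m8 k.K e n + k.J) ≤ (k.K : ℝ) ^ (m8 k.K e n + ((k.up m).m0 + p)) :=
      pow_le_pow_right₀ (by exact_mod_cast hK1) hmt
    have h4 : (n : ℝ) ^ e ≤ (n : ℝ) ^ (1 / 32 : ℝ) := Real.rpow_le_rpow_of_exponent_le (by linarith) he1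
    refine le_trans ?_ (h1.trans h4)
    push_cast
    have h5 : (0 : ℝ) ≤ 2 * h8 Q (ρ * e) n := by positivity
    nlinarith [mul_le_mul_of_nonneg_left h3 h5]
  obtain ⟨be, bb, st, κ3, θ', A, Bp, hAA, hBp, hsep⟩ := hS (2 * h8 Q (ρ * e) n) (m8 k.K e n) hh hM1 hTL hWk Γ hA
  obtain ⟨Un, bad, hTd⟩ := hT hWk Γ hA
  have eδ : (k.up m).δ = δ := hkδ
  have eθ : (k.up m).θ = k.θ := rfl
  rw [eδ] at hAA
  rw [eδ, eθ] at hsep
  have hMR : (256 : ℝ) * Z * (k.τ₀ + 2) + 4 * p + 4 ≤ m8 k.K e n := by exact_mod_cast hMM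
  have hδM : δ * m8 k.K e n = m8 k.K e n / (256 * Z) := by rw [hδ]; ring
  have hdM : (1 : ℝ) / (64 * Z) * m8 k.K e n = m8 k.K e n / (256 * Z) * 4 := by
    have hZ0 : (Z : ℝ) ≠ 0 := by linarith
    field_simp
    ring
  have hy : (k.τ₀ : ℝ) + 2 ≤ m8 k.K e n / (256 * Z) := by
    rw [le_div_iff₀ (by positivity)]
    have h1 : (0 : ℝ) ≤ p := Nat.cast_nonneg _
    linarith
  have hδM0 : 0 ≤ δ * (m8 k.K e n : ℝ) := by positivity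
  refine hN G hG Γ hA (Gs := (k.up m).G hWk (m8 k.K e n)) (mt := m8 k.K e n + k.J) rfl rfl rfl hmt (V := V8 μ s Γ ν u G)
    (th := (k.up m).th μ s (2 * h8 Q (ρ * e) n)) (sl := (k.up m).sl μ s (2 * h8 Q (ρ * e) n)) (be := be) (bb := bb) (st := st) (κ3 := κ3) (θ' := θ')
    (pot := fun _ _ _ ω => if ω ∈ Bp then 0 else 1) (Un := fun u x => Un u x.1) (lm := lm) (A := A) (b := ⌊δ * (m8 k.K e n : ℝ)⌋₊) (b' := 2)
    (τ₀ := k.τ₀) (Rr := fun _ _ => range 2) (θb := 1) (Bd := bad ∪ Bp) hlm ?_ ?_ ?_ ?_ ?_ ?_ ?_ ?_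
  · have h1 := Nat.floor_le hδM0
    push_cast
    rw [hdM]
    rw [hδM] at hAA h1 ⊢
    have h2 : (0 : ℝ) ≤ k.τ₀ := Nat.cast_nonneg _
    linarith
  · rw [hdM]
    have h2 : (0 : ℝ) ≤ k.τ₀ := Nat.cast_nonneg _
    push_cast
    linarith
  · intro x hx ω hω hw F hF hFU
    exact Nat.le_floor (hTd.cnt ω (fun h => hω (Or.inl h)) x.1 hx hw F hF hFU)
  · intro x hx ω hω hw
    simp
  · intro x hx ω hω hw
    show (1 : ℝ≥0∞) ≤ if ω ∈ Bp then 0 else 1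
    rw [if_neg fun h => hω (Or.inr h)]
  · intro x hx ω hω hw t ht hu htR
    have ht2 : 2 ≤ t := by
      rw [mem_range] at htR
      omega
    have hMZ : m8 k.K e n / Z ≤ m8 k.K e n / 4 := Nat.div_le_div_left hZ (by norm_num)
    have hp4 : 4 * p + 4 ≤ m8 k.K e n := by
      have h1 : 0 ≤ 256 * Z * (k.τ₀ + 2) := Nat.zero_le _
      omega
    have gd : ∀ j, j ≤ m8 k.K e n → j ∉ Cc77 (p98 Γ ((k.up m).G hWk (m8 k.K e n)) (m8 k.K e n + k.J) ((k.up m).th μ s (2 * h8 Q (ρ * e) n))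
        ((k.up m).sl μ s (2 * h8 Q (ρ * e) n)) be bb st κ3 θ') (wS Γ ((k.up m).G hWk (m8 k.K e n)) (m8 k.K e n + k.J))
        (fS77 Γ ((k.up m).G hWk (m8 k.K e n)) (m8 k.K e n + k.J)) (fun u x => Un u x.1) k.τ₀ ((k.up m).sl μ s (2 * h8 Q (ρ * e) n) k.τ₀) x ω →
        Gd51 μ s (k.up m) hWk (m8 k.K e n) Γ Un x j ω := by
      intro j hj hjC
      obtain ⟨g1, g2, g3⟩ := good77 (G := (k.up m).G hWk (m8 k.K e n)) hj hjC
      exact ⟨g1, hj, g2, g3⟩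
    obtain ⟨u1, u2⟩ := hu
    refine hTd.det ω (fun h => hω (Or.inl h)) x hx hw t ht2 ht (gd _ (by omega) u1) fun l hl hl' => ?_
    obtain ⟨j, j1, j2, j3, j4⟩ := u2 l hl hl'
    exact ⟨j, gd j (Nat.lt_succ_iff.1 j4) j1, j2, j3⟩
  · refine le_trans (sum_le_sum fun x _ => lintegral_mono_set ?_) hsep
    rintro ω ⟨h1, h2⟩
    refine ⟨h1, fun h3 => ?_⟩
    have h4 : (1 : ℝ≥0∞) ≤ if ω ∈ Bp then 0 else 1 := h2
    rw [if_pos h3] at h4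
    exact absurd h4 (by simp)
  · exact hlw hTd.bd hBp

end

end Pool.Agent.W_7d29a1_C1.Nu51
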