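import Pool.Agent.W_7d29a1_C1.NuQ6
import Pool.Agent.W_7d29a1_C1.RcQ38
import Pool.Agent.W_7d29a1_C1.ShlN51
import Pool.Agent.W_7d29a1_C1.Tilt57B
import Pool.Agent.W_7d29a1_C1.Fut67

/-!
MP_7d29a1_pr, attractor route [C1], field `nu`: SIDE N WITHOUT HYPOTHESES. (helper6)

`rcN6` : `RcQ51` from `rcQ38` (helper38). **`tdN6`** : `TdQ51` for every pair of rates.
-/

set_option autoImplicit false

namespace Pool.Agent.W_7d29a1_C1.Ns6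

open MeasureTheory Filter Finset
open Pool.Agent.W_7d29a1_F Pool.Agent.W_7d29a1_H Pool.Agent.W_7d29a1_HS
open Pool.Agent.W_7d29a1_C1.Win84 (LB84 UB84 FUT84)
open Pool.Agent.W_7d29a1_C1.Nu51

variable {μ : Measure ℝ} [IsProbabilityMeasure μ] {s c C : ℝ} {n₀ : ℕ}

/-- **FEW SCALES ARE REACHED BY THE LEVELS.** -/
theorem rcN6 (hI : In μ s c C n₀) : RcQ51 μ s c := by
  intro P A' a₁ g₁ n₁ hA' ha₁ hg₁ _ _ HE ρ hρ hρ1 e he he1 K hK R B C₀ _ _ _ Rg δ hRg hδ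
  obtain ⟨y, q₀, hy, hq, hy0, hyq, H⟩ := Rc38.rcQ38 hI hA' ha₁ hg₁ HE he he1 hK hRg hδ
  refine ⟨y, q₀, hq, hy, hy0, hyq, fun x _ c₂ δ' κ _ hc₂ _ _ Q hQ => ?_⟩
  filter_upwards [H (mul_pos hρ he) (mul_le_of_le_one_left he.le hρ1) x hQ (R := R) (C₀ := C₀) (B := B) (δ' := δ') (κ := κ) hc₂] with n hn
  intro G hG Γ hA
  obtain ⟨Bd, hBd, hB⟩ := hn G hG Γ hA
  refine ⟨Bd, hBd, fun ω hω c' hc' F hF hR => hB ω hω c' hc' F (fun b hb => ?_) hR⟩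
  have h1 := mem_range.1 (hF hb)
  exact mem_range.2 (by omega)

/-- **FEW SCALES ARE NOT REGULAR**, from `In` alone. -/
theorem tmN6 (hI : In μ s c C n₀) : TmQ51 μ s :=
  tmQ6 hI (Tl57.ee9_57 hI) (Pool.Agent.W_7d29a1_LB.lb_all hI.em hI.nd s) (Pool.Agent.W_7d29a1_LB.ub_all29 hI.em hI.nd s) (fut_real67 hI)

/-- **TAMENESS AND DETERMINISM**, from `In` alone. -/
theorem tdN6 (hI : In μ s c C n₀) {c₁ c₃ : ℝ} (hc₁ : 0 < c₁) (hc₃ : c₁ < c₃) : TdQ51 μ s c₁ c₃ :=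
  tdQ6 hI (Tl57.ee9_57 hI) (Pool.Agent.W_7d29a1_LB.lb_all hI.em hI.nd s) (Pool.Agent.W_7d29a1_LB.ub_all29 hI.em hI.nd s) (fut_real67 hI)
    (rcN6 hI) hc₁ hc₃

end Pool.Agent.W_7d29a1_C1.Ns6
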