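import Pool.Agent.W_7d29a1_C1.UnV77
import Pool.Agent.W_7d29a1_C1.NuK77
import Pool.Agent.W_7d29a1_C1.BoxT60

/-!
MP_7d29a1_pr, attractor route [C1], field `nu`: THE NUMBER OF THE SCALES REACHED BY THE LEVELS OF THE SHELL (`Rch (lvL ..)`), and the union of
two counts. (helper77)
-/

set_option autoImplicit false

namespace Pool.Agent.W_7d29a1_C1.H77

open MeasureTheory Finset Filter Topology
open Pool.Agent.W_7d29a1_F
open Pool.Agent.W_7d29a1_C1.H60
open Pool.Agent.W_7d29a1_C1.T10 (Gd pt)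
open scoped ENNReal

noncomputable section

/-- The scales `a < M` reached by ranges: at most the sum of the ranges. -/
theorem card_Rch77 {Ω Λ : Type*} (l : ℕ → Λ → Ω → ℕ) (M : ℕ) (q : Λ) (ω : Ω) {F : Finset ℕ} (hF : F ⊆ range M)
    (h : ∀ a ∈ F, ω ∈ Rch l a q) : F.card ≤ ∑ v ∈ range M, l v q ω := by
  classical
  have h1 : F ⊆ (range M).biUnion fun v => (range (l v q ω)).image fun i => v + i := by
    intro a ha
    obtain ⟨v, hv, hv'⟩ := h a ha
    have haM := mem_range.1 (hF ha)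
    refine mem_biUnion.2 ⟨v, mem_range.2 (by omega), mem_image.2 ⟨a - v, mem_range.2 (by omega), by omega⟩⟩
  refine (card_le_card h1).trans (card_biUnion_le.trans (sum_le_sum fun v _ => ?_))
  exact card_image_le.trans (le_of_eq (card_range _))

/-- The same with the scale `u - 2` in place of `u`. -/
theorem card_Rch2_77 {Ω Λ : Type*} (l : ℕ → Λ → Ω → ℕ) (M : ℕ) (q : Λ) (ω : Ω) {F : Finset ℕ} (hF : F ⊆ range M)
    (h : ∀ a ∈ F, ω ∈ Rch l (a - 2) q) : F.card ≤ ∑ v ∈ range M, l v q ω + 2 := by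
  classical
  have h1 : F ⊆ range 2 ∪ F.filter fun a => 2 ≤ a := by
    intro a ha
    by_cases h2 : 2 ≤ a
    · exact mem_union_right _ (mem_filter.2 ⟨ha, h2⟩)
    · exact mem_union_left _ (mem_range.2 (by omega))
  have h2 : (F.filter fun a => 2 ≤ a).card ≤ ∑ v ∈ range M, l v q ω := by
    have h3 := card_Rch77 l M q ω (F := (F.filter fun a => 2 ≤ a).image fun a => a - 2) (fun b hb => ?_) (fun b hb => ?_)
    · rwa [card_image_of_injOn] at h3
      intro a ha b hb hab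
      have h4 := (mem_filter.1 ha).2
      have h5 := (mem_filter.1 hb).2
      have h6 : a - 2 = b - 2 := hab
      omega
    · obtain ⟨a, ha, rfl⟩ := mem_image.1 hb
      have := mem_range.1 (hF (mem_filter.1 ha).1)
      rw [mem_range]
      omega
    · obtain ⟨a, ha, rfl⟩ := mem_image.1 hb
      exact h a (mem_filter.1 ha).1
  have h3 := (card_le_card h1).trans (card_union_le _ _)
  rw [card_range] at h3
  omega

variable {μ : Measure ℝ}

/-- **THE REACHED SCALES OF ALL CONTACTS** from the tail of one contact (`tau77`): off `Bd` at most `r + 1` scales `u < M` with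
`Rch .. (u - 2)`. -/
theorem rchU77 {G : Gd} {Lv : ℕ → ℕ × ℤ → Env → ℕ} {L M r : ℕ} {S : Finset (ℕ × ℤ)} {t : ℝ≥0∞}
    (h : ∀ c ∈ S, law μ {ω | r ≤ ∑ v ∈ range M, lvL G Lv L v c ω} ≤ t) :
    ∃ Bd : Set Env, law μ Bd ≤ S.card * t ∧ ∀ ω ∉ Bd, ∀ c ∈ S, ∀ F : Finset ℕ, F ⊆ range M →
      (∀ u ∈ F, ω ∈ Rch (lvL G Lv L) (u - 2) c) → F.card ≤ r + 1 := by
  refine ⟨⋃ c ∈ S, {ω | r ≤ ∑ v ∈ range M, lvL G Lv L v c ω}, ?_, fun ω hω c hc F hF hF' => ?_⟩
  · refine (measure_biUnion_finset_le _ _).trans ((sum_le_sum h).trans (le_of_eq ?_))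
    rw [sum_const, nsmul_eq_mul]
  · have h1 : ¬ r ≤ ∑ v ∈ range M, lvL G Lv L v c ω := fun hcon => hω (Set.mem_biUnion (show c ∈ (S : Set (ℕ × ℤ)) from hc) hcon)
    have h2 := card_Rch2_77 (lvL G Lv L) M c ω hF hF'
    omega

/-- Two counts. -/
theorem cnt_or77 {A B : ℕ → Prop} {m a b : ℕ} (hA : ∀ F : Finset ℕ, F ⊆ range m → (∀ u ∈ F, A u) → F.card ≤ a)
    (hB : ∀ F : Finset ℕ, F ⊆ range m → (∀ u ∈ F, B u) → F.card ≤ b) {F : Finset ℕ} (hF : F ⊆ range m) (h : ∀ u ∈ F, A u ∨ B u) :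
    F.card ≤ a + b := by
  classical
  have h1 : F ⊆ (F.filter fun u => A u) ∪ F.filter fun u => B u := by
    intro u hu
    rcases h u hu with h2 | h2
    · exact mem_union_left _ (mem_filter.2 ⟨hu, h2⟩)
    · exact mem_union_right _ (mem_filter.2 ⟨hu, h2⟩)
  refine (card_le_card h1).trans ((card_union_le _ _).trans (Nat.add_le_add ?_ ?_))
  · exact hA _ ((filter_subset _ _).trans hF) fun u hu => (mem_filter.1 hu).2
  · exact hB _ ((filter_subset _ _).trans hF) fun u hu => (mem_filter.1 hu).2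

/-- **`hU` WITH THE LEVELS OF THE SHELL**: `A` (not tame, at most `b`), the reached scales (at most `r`), and the shifts `sh`. -/
theorem hUall77 {X : Type*} {B₁ B₂ : Set Env} {S : Finset X} {Q : X → Env → Prop} {A A' : ℕ → X → Set Env} {m b b' K : ℕ} (sh : Finset ℕ)
    (hs : ∀ s ∈ sh, s ≤ K) (h : ∀ η ∉ B₁, ∀ x ∈ S, Q x η → ∀ F : Finset ℕ, F ⊆ range (m + K) → (∀ u ∈ F, η ∈ A u x) → F.card ≤ b)
    (h' : ∀ η ∉ B₂, ∀ x ∈ S, ∀ F : Finset ℕ, F ⊆ range (m + K) → (∀ u ∈ F, η ∈ A' u x) → F.card ≤ b') :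
    ∀ η ∉ B₁ ∪ B₂, ∀ x ∈ S, Q x η → ∀ F : Finset ℕ, F ⊆ range m → (∀ u ∈ F, ∃ s ∈ sh, η ∈ A (u + s) x ∪ A' (u + s) x) →
      F.card ≤ sh.card * (b + b') := fun η hη x hx hQ _ hF hA =>
  cnt_shift77 (A := fun u => η ∈ A u x ∪ A' u x) sh hs (fun _ hF' hA' => cnt_or77
    (h η (fun h => hη (Or.inl h)) x hx hQ) (h' η (fun h => hη (Or.inr h)) x hx) hF' hA') hF hA

end

end Pool.Agent.W_7d29a1_C1.H77
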