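import Pool.Agent.W_7d29a1_C1.BoxM60
import Pool.Agent.W_7d29a1_C1.LevT16

/-!
Both halves (MP_7d29a1_pr), attractor route: THE RANGES OF THE LEVELS AND THE GOOD EVENT OF THE PAIRS (helper60).

`rng Lm E ω` = the least `l < Lm` with `ω ∈ E l`, `Lm` if there is none. `rsum60` : slabs which are disjoint, level events with
stretched exponential tails in the scale `U κ^(χ l)` : the sum of the ranges is rarely more than `r`. `card_X` : the number of the
scales reached by some slab is at most the sum of the ranges. `G60`, `hG60`, `hτ60` : the good event of `n2T17`.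
-/

set_option autoImplicit false
set_option linter.unusedSectionVars false

namespace Pool.Agent.W_7d29a1_C1.H60

open MeasureTheory ProbabilityTheory Filter Topology
open Pool.Agent.W_7d29a1_F Pool.Agent.W_7d29a1_C1.S71 Pool.Agent.W_7d29a1_C1.Sw9
open scoped ENNReal

noncomputable section

/-! ### The range -/

/-- The least `l < Lm` with `ω ∈ E l`, `Lm` if there is none. -/
def rng {Ω : Type*} (Lm : ℕ) (E : ℕ → Set Ω) (ω : Ω) : ℕ := sInf (insert Lm {l | ω ∈ E l})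

section

variable {Ω : Type*} {Lm l : ℕ} {E : ℕ → Set Ω} {ω : Ω}

theorem rng_le : rng Lm E ω ≤ Lm := Nat.sInf_le (Set.mem_insert _ _)

theorem rng_le_of (h : ω ∈ E l) : rng Lm E ω ≤ l := Nat.sInf_le (Set.mem_insert_of_mem _ h)

theorem rng_mem : rng Lm E ω = Lm ∨ ω ∈ E (rng Lm E ω) := by
  have h : rng Lm E ω ∈ insert Lm {l | ω ∈ E l} := Nat.sInf_mem ⟨Lm, Set.mem_insert _ _⟩
  exact h

/-- A range below the bound gives the level event. -/
theorem mem_of_rng (mono : ∀ i j, i ≤ j → E i ⊆ E j) (h : rng Lm E ω ≤ l) (hl : l < Lm) : ω ∈ E l := by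
  rcases rng_mem (Lm := Lm) (E := E) (ω := ω) with h1 | h1
  · omega
  · exact mono _ _ h h1

theorem rng_le_iff : rng Lm E ω ≤ l ↔ Lm ≤ l ∨ ∃ j ≤ l, ω ∈ E j := by
  constructor
  · intro h
    rcases rng_mem (Lm := Lm) (E := E) (ω := ω) with h1 | h1
    · left
      omega
    · exact Or.inr ⟨_, h, h1⟩
  · rintro (h | ⟨j, hj, h⟩)
    · exact rng_le.trans h
    · exact (rng_le_of h).trans hj

theorem measurable_rng [MeasurableSpace Ω] (Lm : ℕ) (mE : ∀ l, MeasurableSet (E l)) : Measurable (rng Lm E) := by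
  refine measurable_of_Iic fun l => ?_
  have e : rng Lm E ⁻¹' Set.Iic l = {_ω | Lm ≤ l} ∪ ⋃ j ∈ Finset.range (l + 1), E j := by
    ext ω
    simp only [Set.mem_preimage, Set.mem_Iic, rng_le_iff, Set.mem_union, Set.mem_ofPred_eq, Set.mem_iUnion, Finset.mem_range,
      exists_prop, Nat.lt_succ_iff]
  rw [e]
  exact (MeasurableSet.const _).union (Finset.measurableSet_biUnion _ fun j _ => mE j)

/-- The exponential moment. -/
theorem mom60 [MeasurableSpace Ω] {P : Measure Ω} [IsProbabilityMeasure P] (mE : ∀ l, MeasurableSet (E l)) (z : ℝ≥0∞) :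
    ∫⁻ ω, z ^ rng Lm E ω ∂P ≤ 1 + ∑ l ∈ Finset.range Lm, z ^ (l + 1) * P (E l)ᶜ := by
  classical
  have pt : ∀ ω, z ^ rng Lm E ω ≤ 1 + ∑ l ∈ Finset.range Lm, z ^ (l + 1) * (E l)ᶜ.indicator (fun _ => (1 : ℝ≥0∞)) ω := by
    intro ω
    rcases Nat.eq_zero_or_pos (rng Lm E ω) with h0 | h0
    · rw [h0, pow_zero]
      exact le_self_add
    · obtain ⟨n, hn⟩ : ∃ n, rng Lm E ω = n + 1 := ⟨rng Lm E ω - 1, by omega⟩
      have h1 : n < Lm := by
        have := rng_le (Lm := Lm) (E := E) (ω := ω)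
        omega
      have h2 : ω ∈ (E n)ᶜ := fun hh => by
        have := rng_le_of (Lm := Lm) (E := E) hh
        omega
      rw [hn]
      refine le_add_left ?_
      have h3 := Finset.single_le_sum (f := fun l => z ^ (l + 1) * (E l)ᶜ.indicator (fun _ => (1 : ℝ≥0∞)) ω)
        (fun _ _ => zero_le) (Finset.mem_range.2 h1)
      simp only [Set.indicator_of_mem h2, mul_one] at h3
      exact h3
  calc ∫⁻ ω, z ^ rng Lm E ω ∂P ≤ ∫⁻ ω, (1 + ∑ l ∈ Finset.range Lm, z ^ (l + 1) * (E l)ᶜ.indicator (fun _ => (1 : ℝ≥0∞)) ω) ∂P :=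
        lintegral_mono pt
    _ = 1 + ∑ l ∈ Finset.range Lm, z ^ (l + 1) * P (E l)ᶜ := by
        have m1 : ∀ l ∈ Finset.range Lm, Measurable fun ω => z ^ (l + 1) * (E l)ᶜ.indicator (fun _ => (1 : ℝ≥0∞)) ω := fun l _ =>
          measurable_const.mul (measurable_const.indicator (mE l).compl)
        rw [lintegral_add_left measurable_const, lintegral_const, measure_univ, mul_one, lintegral_finsetSum _ m1]
        congr 1
        refine Finset.sum_congr rfl fun l _ => ?_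
        rw [lintegral_const_mul _ (measurable_const.indicator (mE l).compl), lintegral_indicator (mE l).compl, lintegral_const,
          Measure.restrict_apply_univ, one_mul]

/-- The exponential moment with stretched exponential tails. -/
theorem mom60s {A a g κ b χ ε : ℝ} (hA : 0 < A) (ha : 0 < a) (hg : 0 < g) (hκ : 1 < κ) (hb : 0 ≤ b) (hχ : 0 < χ) (hε : 0 < ε) :
    ∃ U₀ : ℝ, 1 ≤ U₀ ∧ ∀ U : ℝ, U₀ ≤ U → ∀ {Ω : Type} [MeasurableSpace Ω] (P : Measure Ω) [IsProbabilityMeasure P] (Lm : ℕ)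
      (E : ℕ → Set Ω), (∀ l, MeasurableSet (E l)) →
      (∀ l, P.real (E l)ᶜ ≤ A * Real.exp (-(a * (U * κ ^ (χ * (l : ℝ))) ^ g))) →
      ∫⁻ ω, (ENNReal.ofReal (κ ^ b)) ^ rng Lm E ω ∂P ≤ ENNReal.ofReal (1 + ε) := by
  have hκ0 : 0 < κ := by linarith
  obtain ⟨U₀, hU₀, H⟩ := U16.tsum16 (b := b) (C₀ := κ ^ b) hA ha hg hκ hb hχ (Real.rpow_nonneg hκ0.le _) hε
  refine ⟨U₀, hU₀, fun U hU Ω _ P _ Lm E mE hP => (mom60 (P := P) mE _).trans ?_⟩
  rw [ENNReal.ofReal_add zero_le_one hε.le, ENNReal.ofReal_one]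
  refine add_le_add le_rfl ?_
  calc ∑ l ∈ Finset.range Lm, (ENNReal.ofReal (κ ^ b)) ^ (l + 1) * P (E l)ᶜ
      ≤ ∑ l ∈ Finset.range Lm, ENNReal.ofReal (κ ^ b * κ ^ (b * (l : ℝ)) * (A * Real.exp (-(a * (U * κ ^ (χ * (l : ℝ))) ^ g)))) := by
        refine Finset.sum_le_sum fun l _ => ?_
        have e1 : (ENNReal.ofReal (κ ^ b)) ^ (l + 1) = ENNReal.ofReal (κ ^ b * κ ^ (b * (l : ℝ))) := by
          rw [← ENNReal.ofReal_pow (Real.rpow_nonneg hκ0.le _), pow_succ', Real.rpow_mul_natCast hκ0.le]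
        rw [e1, ENNReal.ofReal_mul (p := κ ^ b * κ ^ (b * (l : ℝ))) (by positivity)]
        refine mul_le_mul_right ?_ _
        rw [← ofReal_measureReal (measure_ne_top _ _)]
        exact ENNReal.ofReal_le_ofReal (hP l)
    _ = ENNReal.ofReal (∑ l ∈ Finset.range Lm, κ ^ b * κ ^ (b * (l : ℝ)) *
        (A * Real.exp (-(a * (U * κ ^ (χ * (l : ℝ))) ^ g)))) := by
        rw [ENNReal.ofReal_sum_of_nonneg fun l _ => by positivity]
    _ ≤ _ := ENNReal.ofReal_le_ofReal (H U hU Lm)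

end

/-- Blind events give a blind range. -/
theorem OffF_rng {A : Set Pt} {Lm : ℕ} {E : ℕ → Set Env} (h : ∀ l, Off A (E l)) : OffF A (rng Lm E) := by
  intro η η' he
  unfold rng
  congr 1
  ext l
  simp only [Set.mem_insert_iff, Set.mem_ofPred_eq]
  exact or_congr Iff.rfl (h l η η' he)

variable {μ : Measure ℝ} [IsProbabilityMeasure μ]

instance : IsProbabilityMeasure (law μ) := by unfold law; infer_instance

/-- **THE SUM OF THE RANGES OF DISJOINT SLABS.** -/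
theorem rsum60 {A a g κ b χ ε : ℝ} (hA : 0 < A) (ha : 0 < a) (hg : 0 < g) (hκ : 1 < κ) (hb : 0 ≤ b) (hχ : 0 < χ) (hε : 0 < ε) :
    ∃ U₀ : ℝ, 1 ≤ U₀ ∧ ∀ U : ℝ, U₀ ≤ U → ∀ (L Lm : ℕ) (B : ℕ → Set Pt) (E : ℕ → ℕ → Set Env),
      (∀ i < L, ∀ j < L, i < j → Disjoint (B i) (B j)) → (∀ v < L, ∀ l, MeasurableSet (E v l)) → (∀ v < L, ∀ l, Off (B v)ᶜ (E v l)) →
      (∀ v < L, ∀ l, (law μ).real (E v l)ᶜ ≤ A * Real.exp (-(a * (U * κ ^ (χ * (l : ℝ))) ^ g))) → ∀ r : ℕ,
      law μ {η | r ≤ ∑ v ∈ Finset.range L, rng Lm (E v) η} ≤ ENNReal.ofReal ((1 + ε) ^ L / (κ ^ b) ^ r) := by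
  have hκ0 : 0 < κ := by linarith
  obtain ⟨U₀, hU₀, H⟩ := mom60s (b := b) hA ha hg hκ hb hχ hε
  refine ⟨U₀, hU₀, fun U hU L Lm B E hB mE oE hP r => ?_⟩
  set N : ℕ → Env → ℕ := fun v => if v < L then rng Lm (E v) else fun _ => 0 with hN
  have eN : ∀ v < L, N v = rng Lm (E v) := fun v hv => by simp only [hN, if_pos hv]
  have mN : ∀ v, Measurable (N v) := by
    intro v
    by_cases hv : v < L
    · rw [eN v hv]
      exact measurable_rng Lm (mE v hv)
    · simp only [hN, if_neg hv]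
      exact measurable_const
  have hz1 : (1 : ℝ) ≤ κ ^ b := Real.one_le_rpow hκ.le hb
  have hz : (1 : ℝ≥0∞) ≤ ENNReal.ofReal (κ ^ b) := by
    rw [← ENNReal.ofReal_one]
    exact ENNReal.ofReal_le_ofReal hz1
  have key := sum_le (μ := μ) (A := B) (N := N) mN (z := ENNReal.ofReal (κ ^ b)) (M := ENNReal.ofReal (1 + ε)) hz
    ENNReal.ofReal_ne_top (Finset.range L)
    (fun i hi j hj hij => by
      have hi' := Finset.mem_range.1 hi
      have hj' := Finset.mem_range.1 hj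
      rw [eN i hi']
      exact (OffF_rng (oE i hi')).mono fun p hp hp' => (Set.disjoint_left.1 (hB i hi' j hj' hij)) hp' hp)
    (fun i hi η => by
      have hi' := Finset.mem_range.1 hi
      rw [eN i hi']
      have e1 : ∀ η', rng Lm (E i) (gl (B i) η' η) = rng Lm (E i) η' := fun η' =>
        OffF_rng (oE i hi') _ _ fun p hp => gl_of_mem (not_not.1 hp) η' η
      simp only [e1]
      exact H U hU (law μ) Lm (E i) (mE i hi') (hP i hi')) r
  rw [Finset.card_range] at key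
  refine le_trans (le_of_eq ?_) (key.trans (le_of_eq ?_))
  · congr 1
    ext η
    simp only [Set.mem_ofPred_eq]
    rw [Finset.sum_congr rfl fun v hv => congrFun (eN v (Finset.mem_range.1 hv)) η]
  · rw [← ENNReal.ofReal_pow (by linarith), ← ENNReal.ofReal_pow (by positivity), ENNReal.ofReal_div_of_pos (by positivity)]

/-! ### Counting -/

/-- **THE SCALES REACHED**: each slab reaches at most as many scales as its range. -/
theorem card_X {Ω Λ : Type*} {l : ℕ → Λ → Ω → ℕ} {io : ℕ → ℕ} {m Lb : ℕ} (hio : ∀ i < m, ∀ j < m, io i = io j → i = j)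
    (hLb : ∀ i < m, io i < Lb) (q : Λ) (ω : Ω) [DecidablePred fun t => ω ∈ Rch l (io t) q] :
    ((Finset.range m).filter fun t => ω ∈ Rch l (io t) q).card ≤ ∑ v ∈ Finset.range Lb, l v q ω := by
  classical
  have h1 : ((Finset.range m).filter fun t => ω ∈ Rch l (io t) q).image io ⊆
      (Finset.range Lb).biUnion fun v => Finset.Ico v (v + l v q ω) := by
    intro a ha
    obtain ⟨t, ht, rfl⟩ := Finset.mem_image.1 ha
    obtain ⟨h2, v, hv, hv2⟩ := Finset.mem_filter.1 ht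
    exact Finset.mem_biUnion.2 ⟨v, Finset.mem_range.2 (lt_of_le_of_lt hv (hLb t (Finset.mem_range.1 h2))),
      Finset.mem_Ico.2 ⟨hv, hv2⟩⟩
  have h2 : ((Finset.range m).filter fun t => ω ∈ Rch l (io t) q).card =
      (((Finset.range m).filter fun t => ω ∈ Rch l (io t) q).image io).card := by
    refine (Finset.card_image_of_injOn fun i hi j hj hij => ?_).symm
    have hi' := Finset.mem_filter.1 (Finset.mem_coe.1 hi)
    have hj' := Finset.mem_filter.1 (Finset.mem_coe.1 hj)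
    exact hio i (Finset.mem_range.1 hi'.1) j (Finset.mem_range.1 hj'.1) hij
  rw [h2]
  refine (Finset.card_le_card h1).trans (Finset.card_biUnion_le.trans (Finset.sum_le_sum fun v _ => ?_))
  rw [Nat.card_Ico]
  omega

section pair

variable {Ω Λ Ω' Λ' : Type*} {l : ℕ → Λ → Ω → ℕ} {l' : ℕ → Λ' → Ω' → ℕ} {io : ℕ → ℕ} {m Lb b₁ : ℕ}

/-- **The good event of the pair.** -/
def G60 (l : ℕ → Λ → Ω → ℕ) (l' : ℕ → Λ' → Ω' → ℕ) (Lb b₁ : ℕ) (q : Λ) (q' : Λ') : Set (Ω × Ω') :=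
  {z | ¬ b₁ ≤ ∑ v ∈ Finset.range Lb, l v q z.1 ∧ ¬ b₁ ≤ ∑ v ∈ Finset.range Lb, l' v q' z.2}

theorem hG60 (hio : ∀ i < m, ∀ j < m, io i = io j → i = j) (hLb : ∀ i < m, io i < Lb) {b : ℕ} (hb : 2 * b₁ ≤ b + 2) (q : Λ) (q' : Λ')
    (z : Ω × Ω') (hz : z ∈ G60 l l' Lb b₁ q q') [DecidablePred fun t => z ∈ Rch (l2 l l') (io t) (q, q')] :
    ((Finset.range m).filter fun t => z ∈ Rch (l2 l l') (io t) (q, q')).card ≤ b := by
  refine (card_X hio hLb (q, q') z).trans ?_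
  obtain ⟨h1, h2⟩ := hz
  have h3 : ∑ v ∈ Finset.range Lb, l2 l l' v (q, q') z ≤ ∑ v ∈ Finset.range Lb, l v q z.1 + ∑ v ∈ Finset.range Lb, l' v q' z.2 := by
    rw [← Finset.sum_add_distrib]
    refine Finset.sum_le_sum fun v _ => ?_
    show max (l v q z.1) (l' v q' z.2) ≤ _
    omega
  omega

theorem hτ60 [MeasurableSpace Ω] [MeasurableSpace Ω'] {P : Measure Ω} {P' : Measure Ω'} [IsProbabilityMeasure P]
    [IsProbabilityMeasure P'] {q : Λ} {q' : Λ'} (ml : ∀ v, Measurable (l v q)) (ml' : ∀ v, Measurable (l' v q')) {τ τ' : ℝ}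
    (hτ : 0 ≤ τ) (hτ' : 0 ≤ τ')
    (h : P {ω | b₁ ≤ ∑ v ∈ Finset.range Lb, l v q ω} ≤ ENNReal.ofReal τ)
    (h' : P' {ω | b₁ ≤ ∑ v ∈ Finset.range Lb, l' v q' ω} ≤ ENNReal.ofReal τ') :
    (P.prod P') (G60 l l' Lb b₁ q q')ᶜ ≤ ENNReal.ofReal (τ + τ') := by
  have e : (G60 l l' Lb b₁ q q')ᶜ ⊆ (Prod.fst ⁻¹' {ω | b₁ ≤ ∑ v ∈ Finset.range Lb, l v q ω}) ∪
      (Prod.snd ⁻¹' {ω | b₁ ≤ ∑ v ∈ Finset.range Lb, l' v q' ω}) := by
    intro z hz
    by_contra hcc
    rw [Set.mem_union, not_or] at hcc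
    exact hz ⟨hcc.1, hcc.2⟩
  have m1 : MeasurableSet {ω | b₁ ≤ ∑ v ∈ Finset.range Lb, l v q ω} :=
    measurableSet_le measurable_const (Finset.measurable_sum _ fun v _ => ml v)
  have m2 : MeasurableSet {ω | b₁ ≤ ∑ v ∈ Finset.range Lb, l' v q' ω} :=
    measurableSet_le measurable_const (Finset.measurable_sum _ fun v _ => ml' v)
  calc (P.prod P') (G60 l l' Lb b₁ q q')ᶜ ≤ (P.prod P') (Prod.fst ⁻¹' {ω | b₁ ≤ ∑ v ∈ Finset.range Lb, l v q ω}) +
        (P.prod P') (Prod.snd ⁻¹' {ω | b₁ ≤ ∑ v ∈ Finset.range Lb, l' v q' ω}) := (measure_mono e).trans (measure_union_le _ _)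
    _ = P {ω | b₁ ≤ ∑ v ∈ Finset.range Lb, l v q ω} + P' {ω | b₁ ≤ ∑ v ∈ Finset.range Lb, l' v q' ω} := by
        rw [measurePreserving_fst.measure_preimage m1.nullMeasurableSet, measurePreserving_snd.measure_preimage m2.nullMeasurableSet]
    _ ≤ _ := by
        rw [ENNReal.ofReal_add hτ hτ']
        exact add_le_add h h'

end pair

/-! ### Numbers -/

/-- **THE EXPONENT OF THE GOOD EVENT**: with `κ ^ b` large the sum of the ranges over `L ≤ 2 m` slabs exceeds `m / D` with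
probability `≤ n ^ (-A)`. -/
theorem exp60 {κ A κ' : ℝ} (hκ : 1 < κ) (hA : 0 ≤ A) (hκ' : 0 < κ') {D : ℕ} (hD : 0 < D) :
    ∃ b : ℝ, 0 ≤ b ∧ ∀ n m L : ℕ, 1 ≤ n → κ' * Real.log n ≤ m → D ≤ m → L ≤ 2 * m →
      ((1 : ℝ) + 1) ^ L / (κ ^ b) ^ (m / D) ≤ (n : ℝ) ^ (-A) := by
  have hlk : 0 < Real.log κ := Real.log_pos hκ
  have hκ0 : 0 < κ := by linarith
  have hD0 : (0 : ℝ) < D := by exact_mod_cast hD
  set x : ℝ := 2 * D * (2 * Real.log 2 + A / κ') with hx
  have hx0 : 0 ≤ x := by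
    have := Real.log_pos (show (1 : ℝ) < 2 by norm_num)
    positivity
  refine ⟨x / Real.log κ, by positivity, fun n m L hn hm hDm hL => ?_⟩
  have hn0 : (0 : ℝ) < n := by exact_mod_cast hn
  have hl2 := Real.log_pos (show (1 : ℝ) < 2 by norm_num)
  have e1 : κ ^ (x / Real.log κ) = Real.exp x := by
    rw [Real.rpow_def_of_pos hκ0]
    congr 1
    field_simp
  rw [e1, ← Real.exp_nat_mul]
  have e2 : ((1 : ℝ) + 1) ^ L = Real.exp (L * Real.log 2) := by
    rw [Real.exp_nat_mul, Real.exp_log (by norm_num)]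
    norm_num
  have e3 : (n : ℝ) ^ (-A) = Real.exp (-(A * Real.log n)) := by
    rw [Real.rpow_def_of_pos hn0]
    congr 1
    ring
  rw [e2, e3, ← Real.exp_sub]
  refine Real.exp_le_exp.2 ?_
  have h1 : (m : ℝ) ≤ 2 * D * ((m / D : ℕ) : ℝ) := by
    have h2 : m < D * (m / D) + D := by
      have := Nat.div_add_mod m D
      have := Nat.mod_lt m hD
      omega
    have h3 : 1 ≤ m / D := (Nat.one_le_div_iff hD).2 hDm
    have h4 : m ≤ 2 * D * (m / D) := by nlinarith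
    exact_mod_cast h4
  have h2 : A * Real.log n ≤ A / κ' * m := by
    calc A * Real.log n = A / κ' * (κ' * Real.log n) := by field_simp
      _ ≤ _ := mul_le_mul_of_nonneg_left hm (by positivity)
  have h3 : (L : ℝ) * Real.log 2 ≤ 2 * m * Real.log 2 := by
    refine mul_le_mul_of_nonneg_right ?_ hl2.le
    exact_mod_cast hL
  have h4 : m * (2 * Real.log 2 + A / κ') ≤ ((m / D : ℕ) : ℝ) * x := by
    rw [hx]
    have : 0 ≤ 2 * Real.log 2 + A / κ' := by positivity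
    nlinarith [mul_le_mul_of_nonneg_right h1 this]
  nlinarith

end

end Pool.Agent.W_7d29a1_C1.H60
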