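import Pool.Agent.W_7d29a1_C1.SepG98
import Pool.Agent.W_7d29a1_C1.SepN49
import Pool.Agent.W_7d29a1_C1.PotS86
import Pool.Agent.W_7d29a1_C1.Rat22
import Pool.Agent.W_7d29a1_C1.MovS9

/-!
Both halves (MP_7d29a1_pr), attractor route [C1], SEP: THE INSTANCE OF THE FRAME `InG98` (helper98).

The numbers from `Num98` (SepN49), the potential `pot86` (PotS86), the typical events `Ms9.TT` (MovS9) with one slack, the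
oscillation from the ratio `Ro` of the backward masses off the window (Rat22).
-/

set_option autoImplicit false

namespace Pool.Agent.W_7d29a1_C1.SF98

open Finset MeasureTheory
open Pool.Agent.W_7d29a1_F
open Pool.Agent.W_7d29a1_C1.K91 (wt wt_pos)
open Pool.Agent.W_7d29a1_C1.K91P
open Pool.Agent.W_7d29a1_C1.H60
open Pool.Agent.W_7d29a1_C1.G37 (Gm)
open Pool.Agent.W_7d29a1_C1.H49 (Par MoveQ ex lm Hf Hs Osc fac rat hM gM cnt Cov)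
open Pool.Agent.W_7d29a1_C1.SD53 (XX)
open Pool.Agent.W_7d29a1_C1.FA25 (Av la rr lr)
open Pool.Agent.W_7d29a1_C1.N49 (Num98)
open Pool.Agent.W_7d29a1_C1.PS86 (pot86 PN)
open Pool.Agent.W_7d29a1_C1.Rt22 (Ro)
open Pool.Agent.W_7d29a1_C1.O22 (Bw)
open scoped ENNReal

noncomputable section

/-! ### Rows -/

section Rows

variable {Γ : Cx} {G : Gm} {mt : ℕ}

theorem rcc_KS {u : ℕ} (κ : KS Γ G mt u) : 0 ≤ G.rcc u κ.1 := by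
  obtain ⟨c, hc⟩ := G.exists_cel κ
  rw [← hc]
  exact (G.rcc_pos u c.1).le

theorem re_KS {u : ℕ} (hu : u < G.M) (hM : G.M ≤ mt) (κ : KS Γ G mt u) : G.re u κ.1 ≤ Γ.N := by
  have h0 := rcc_KS κ
  obtain ⟨c, hc⟩ := G.exists_cel κ
  have hc' : G.loc u c.1 = κ.1 := congrArg Subtype.val hc
  have h1 := G.re_cast h0
  have h2 := G.rcc_eq u κ.1
  have h3 := G.lo_le u c.1
  rw [hc'] at h3
  have h4 : (c.1.1 : ℤ) + 2 * G.T mt ≤ Γ.N := by exact_mod_cast row_up c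
  have h5 := G.T_lt8 (show u < mt by omega)
  have h6 := G.T_mono' (show u - 2 ≤ u by omega)
  have h7 := G.T_pos' u
  have : (G.re u κ.1 : ℤ) ≤ Γ.N := by linarith
  exact_mod_cast this

theorem not_Bw_ra {u : ℕ} {κ : ℤ × ℤ} (h0 : 0 ≤ G.rcc u κ) (x : ℤ) : (G.ra u κ - 1, x) ∉ Bw G u κ := by
  rintro ⟨h1, -, -⟩
  have h3 := G.ra_cast h0
  have h5 : G.rcc u κ + G.T (u - 1) < ((G.ra u κ - 1 : ℕ) : ℤ) := h1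
  have h6 := G.T_pos' (u - 1)
  omega

/-- **The pair from the ratio off the window.** -/
theorem pr_Ro (hM : G.M ≤ mt) {u : ℕ} (hu : u < G.M) {κ : KS Γ G mt u} {d : ℝ} {ω η : Env}
    (h : Ro (wt ω) (wt (G.R u κ.1 η ω)) Γ.p Γ.N (Bw G u κ.1) (Real.exp d)) :
    O22.Pr Γ (G.ra u κ.1 - 1) (G.re u κ.1) (Bw G u κ.1) d ω (G.R u κ.1 η ω) := by
  have h0 := rcc_KS κ
  have h1 := re_KS hu hM κ
  have h2 := G.ra_le_re u κ.1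
  exact O22.pr_R h0 (by omega) (fun x => h.up _ _ (not_Bw_ra h0 x)) (fun x => h.dn _ _ (not_Bw_ra h0 x))

end Rows

/-! ### The instance -/

variable (Γ : Cx) (G : Gm) (mt : ℕ)

/-- **THE INPUTS OF THE INSTANCE.** -/
structure InI98 (μ : Measure ℝ) (lam : ℕ) (Lv : ℕ → ℤ × ℤ → Set Env) (Ou St Fw : ℝ → ℕ → ℤ × ℤ → Set Env)
    (L : ℕ → ℤ × ℤ → Set Env) (d sl smax : ℕ → ℝ) (th be : ℕ → ℕ → ℝ) (b : ℕ → ℝ)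
    (st : ℕ → ℕ → ℕ) (κ3 θ : ℝ≥0∞) (τ0 q r q0 m1 m3 n1 C' : ℕ) (c c1 C1 Ast δ3 : ℝ≥0∞) (aS bS : ℝ) (βS dd : ℕ → ℝ) : Prop where
  ok : Γ.Ok
  v0 : 0 ≤ G.v
  v1 : G.v ≤ 1
  MT : G.M ≤ mt
  hm2 : la G + G.kw + G.kb + 2 ≤ 2 ^ (G.m2 - 1)
  An_le : G.An ≤ C'
  qr_le : q + r ≤ m1
  -- numbers
  num : Num98 Γ G mt d sl smax th be b st κ3 θ τ0 q n1 c c1 2 Ast δ3
  st_la : ∀ t i, τ0 < t → t + G.m0 ≤ i → i ≤ G.M → st t i + lam ≤ i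
  hq0 : 2 * m3 ≤ q0
  κ3_ne : κ3 ≠ 0
  m3_ge : 3 ≤ m3
  d_b : ∀ u, τ0 < u → 4 * dd u ≤ b u
  -- sets
  ms : Ms9.Ms Lv Ou St Fw
  moO : Ms9.MonS Ou
  moS : Ms9.MonS St
  moF : Ms9.MonS Fw
  mL : ∀ u κ, MeasurableSet (L u κ)
  dis : ∀ u κ, Disjoint (Lv u κ) (L u κ)
  -- `St`
  bS_le : bS + 5 / 2 ≤ 2 * G.kn
  aS_ge : ∀ u, τ0 < u → G.w u / 2 + 1 ≤ aS * G.w u
  βS_ge : ∀ u, τ0 < u → Real.exp (-βS u) ≤ 1 / 2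
  St_sub : ∀ u, τ0 < u → u < G.M → ∀ κ, St (sl (u - 1)) u κ ⊆ Sy78.St Γ G aS bS (βS u) u κ
  -- ratio off the window
  ro : ∀ u, τ0 < u → u < G.M → ∀ κ : KS Γ G mt u, ∀ ω ∈ Tx (Ms9.TT Lv Ou St Fw) smax u κ.1, ∀ η, G.R u κ.1 η ω ∈ L u κ.1 →
    Ro (wt ω) (wt (G.R u κ.1 η ω)) Γ.p Γ.N (Bw G u κ.1) (Real.exp (dd u))
  -- steps
  stp : ∀ u v, τ0 < u → u + q ≤ v → v < G.M → ∀ (κ : KS Γ G mt u), ∀ ρ ∈ G.nb (FS Γ G mt) u κ, ∀ σ, sl (v - 1) ≤ σ →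
    σ + 2 * d u ≤ smax v → ∀ ω ∈ Tx (Ms9.TT Lv Ou St Fw) smax u κ.1, ∀ η, G.R u κ.1 η ω ∈ L u κ.1 →
      ω ∈ Ms9.TT Lv Ou St Fw σ v (G.loc v ρ.1) → G.R u κ.1 η ω ∈ Ms9.TT Lv Ou St Fw (σ + 2 * d u) v (G.loc v ρ.1)
  oscp : ∀ u j, τ0 < u → u < j → j ≤ G.M → ∀ κ : KS Γ G mt u, ∀ y ∈ G.nb (FS Γ G mt) u κ, ∀ ω ∈ Tx (Ms9.TT Lv Ou St Fw) smax u κ.1, ∀ η,
    G.R u κ.1 η ω ∈ L u κ.1 → ∀ σ, σ + b u ≤ sl (j + G.m2) →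
      pot86 Γ G mt lam m3 (Ms9.TT Lv Ou St Fw) (1 + c1)⁻¹ (j + G.m2) σ y ω ≤
        pot86 Γ G mt lam m3 (Ms9.TT Lv Ou St Fw) (1 + c1)⁻¹ (j + G.m2) (σ + b u) y (G.R u κ.1 η ω)
  -- averaged comparisons
  cmpA : ∀ t i, (p98 Γ G mt th sl be b st κ3 θ).rg τ0 t i → ∀ u ∈ Ico (st t i) i, ∀ y : XS Γ G mt,
    ∀ ω ∈ Tx (Ms9.TT Lv Ou St Fw) smax u (G.loc u y.1),
      c * ∫⁻ ξ, (Tx (Ms9.TT Lv Ou St Fw) smax u (G.loc u y.1)).indicator (wS Γ G mt y) (G.R u (G.loc u y.1) ξ ω) ∂(law μ) ≤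
        ∫⁻ η, (L u (G.loc u y.1)).indicator (wS Γ G mt y) (G.R u (G.loc u y.1) η ω) ∂(law μ)
  M3A : ∀ t i, (p98 Γ G mt th sl be b st κ3 θ).rg τ0 t i → ∀ s ∈ Ico (st t i) i, ∀ κ : KS Γ G mt s,
    ∀ ω ∈ TA (Ms9.TT Lv Ou St Fw) q d sl ∅ s κ.1, ω ∈ Hs (p98 Γ G mt th sl be b st κ3 θ) (wS Γ G mt) (G.cel (FS Γ G mt)) t i s κ →
      ∫⁻ ξ, (TA (Ms9.TT Lv Ou St Fw) q d sl ∅ s κ.1).indicator (rat (pX Γ G th sl be b st κ3 θ) (SD53.w Γ) (G.cel (Γ.rows 0 Γ.N))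
        (G.low (Γ.rows 0 Γ.N)) t i s (upK κ)) (G.R s κ.1 ξ ω) ∂(law μ) ≤
      C1 * ∫⁻ η, (L s κ.1).indicator (fun ω => ∑ ρ ∈ G.nb (Γ.rows 0 Γ.N) s (upK κ), SD53.w Γ ρ ω) (G.R s κ.1 η ω) ∂(law μ)
  -- exclusion
  exclF : ∀ t i, (p98 Γ G mt th sl be b st κ3 θ).rg τ0 t i → ∀ x : XS Γ G mt, ∀ u ∈ Sq q r (st t i) i,
    ∀ ω ∈ Tx (Ms9.TT Lv Ou St Fw) smax u (G.loc u x.1), ∀ η, G.R u (G.loc u x.1) η ω ∈ L u (G.loc u x.1) →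
    ∀ ω₁ ∈ Hf (pX Γ G th sl be b st κ3 θ) (SD53.w Γ) (SD53.fa Γ G) t i (up x),
      Lt87.Reach (fun v => G.R v (G.loc v x.1)) (fun v => Tx (Ms9.TT Lv Ou St Fw) smax v (G.loc v x.1) ∪ L v (G.loc v x.1))
        ((Sq q r (st t i) i).filter fun v => v % q = u % q) u ω ω₁ →
    ∀ ω₂ ∈ Hf (pX Γ G th sl be b st κ3 θ) (SD53.w Γ) (SD53.fa Γ G) t i (up x),
      Lt87.Reach (fun v => G.R v (G.loc v x.1)) (fun v => Tx (Ms9.TT Lv Ou St Fw) smax v (G.loc v x.1) ∪ L v (G.loc v x.1))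
        ((Sq q r (st t i) i).filter fun v => v % q = u % q) u (G.R u (G.loc u x.1) η ω) ω₂ → False
  exclE : ∀ t i, (p98 Γ G mt th sl be b st κ3 θ).rg τ0 t i → ∀ s ∈ Ico (st t i) i, ∀ κ : KS Γ G mt s,
    ∀ ρ ∈ G.nb (FS Γ G mt) s κ, ∀ u ∈ Sq q r s i,
    ∀ ω ∈ Tx (Ms9.TT Lv Ou St Fw) smax u (G.loc u ρ.1), ∀ η, G.R u (G.loc u ρ.1) η ω ∈ L u (G.loc u ρ.1) →
    ∀ ω₁ ∈ Hs (pX Γ G th sl be b st κ3 θ) (SD53.w Γ) (G.cel (Γ.rows 0 Γ.N)) t i s (upK κ) ∩ TA (Ms9.TT Lv Ou St Fw) q d sl ∅ s κ.1,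
      Lt87.Reach (Function.update (fun v => G.R v (G.loc v ρ.1)) s (G.R s κ.1))
        (Function.update (fun v => Tx (Ms9.TT Lv Ou St Fw) smax v (G.loc v ρ.1) ∪ L v (G.loc v ρ.1)) s
          (Tx (Ms9.TT Lv Ou St Fw) smax s κ.1 ∪ L s κ.1))
          (insert s ((Sq q r s i).filter fun v => v % q = u % q)) u ω ω₁ →
    ∀ ω₂ ∈ Hs (pX Γ G th sl be b st κ3 θ) (SD53.w Γ) (G.cel (Γ.rows 0 Γ.N)) t i s (upK κ) ∩ TA (Ms9.TT Lv Ou St Fw) q d sl ∅ s κ.1,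
      Lt87.Reach (Function.update (fun v => G.R v (G.loc v ρ.1)) s (G.R s κ.1))
        (Function.update (fun v => Tx (Ms9.TT Lv Ou St Fw) smax v (G.loc v ρ.1) ∪ L v (G.loc v ρ.1)) s
          (Tx (Ms9.TT Lv Ou St Fw) smax s κ.1 ∪ L s κ.1))
          (insert s ((Sq q r s i).filter fun v => v % q = u % q)) u (G.R u (G.loc u ρ.1) η ω) ω₂ → False

variable {Γ G mt}

variable {μ : Measure ℝ} {lam : ℕ} {Lv : ℕ → ℤ × ℤ → Set Env} {Ou St Fw : ℝ → ℕ → ℤ × ℤ → Set Env} {L : ℕ → ℤ × ℤ → Set Env}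
  {d sl smax : ℕ → ℝ} {th be : ℕ → ℕ → ℝ} {b : ℕ → ℝ} {st : ℕ → ℕ → ℕ} {κ3 θ : ℝ≥0∞} {τ0 q r q0 m1 m3 n1 C' : ℕ}
  {c c1 C1 Ast δ3 : ℝ≥0∞} {aS bS : ℝ} {βS dd : ℕ → ℝ}

/-- The numbers of the potential. -/
theorem pn98 (N : Num98 Γ G mt d sl smax th be b st κ3 θ τ0 q n1 c c1 2 Ast δ3)
    (h1 : ∀ t i, τ0 < t → t + G.m0 ≤ i → i ≤ G.M → st t i + lam ≤ i) (h2 : 2 * m3 ≤ q0) : PN G lam m3 sl st θ c1 τ0 q q0 where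
  one_le := N.one_le
  θ_top := N.θ_top
  c_eq := N.c_eq
  sl_mono := N.sl_mono
  st_ge := fun t i a b c => N.st_ge t i ⟨a, b, c⟩
  st_lt := fun t i a b c => N.st_lt t i ⟨a, b, c⟩
  st_la := h1
  hq0 := h2

/-- **THE INSTANCE OF THE REDUCED FRAME.** -/
theorem InI98.toInG (h : InI98 Γ G mt μ lam Lv Ou St Fw L d sl smax th be b st κ3 θ τ0 q r q0 m1 m3 n1 C' c c1 C1 Ast δ3 aS bS βS dd) :
    InG98 Γ G mt μ (pot86 Γ G mt lam m3 (Ms9.TT Lv Ou St Fw) (1 + c1)⁻¹) (Ms9.TT Lv Ou St Fw) L d sl smax th be b st κ3 θ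
      τ0 q r q0 m1 m3 n1 C' c c1 C1 Ast δ3 aS bS βS dd := by
  have pn := pn98 (lam := lam) h.num h.st_la h.hq0
  have mo : ∀ σ σ' u κ, σ ≤ σ' → Ms9.TT Lv Ou St Fw σ u κ ⊆ Ms9.TT Lv Ou St Fw σ' u κ :=
    fun σ σ' u κ hσ => Ms9.TT_mono h.moO h.moS h.moF σ σ' hσ u κ
  exact
  { ok := h.ok
    v0 := h.v0
    v1 := h.v1
    MT := h.MT
    hm2 := h.hm2
    bS_le := h.bS_le
    aS_ge := h.aS_ge
    βS_ge := h.βS_ge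
    m3_ge := h.m3_ge
    sty := fun u hu hM ρ ω hω => by
      have h1 := hω.2.2.1
      rw [dA_empty, add_zero] at h1
      exact h.St_sub u hu hM _ h1
    mpot := PS86.mpot fun σ u κ => h.ms.tt σ u κ
    pot_le := PS86.pot_le
    pot_mono := fun τ τ' σ σ' x ω h1 h2 => PS86.pot_mono pn.y_le mo x ω h1 h2
    An_le := h.An_le
    qr_le := h.qr_le
    sl_mono := h.num.sl_mono
    d_nonneg := h.num.d_nonneg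
    smax_ge := h.num.smax_ge
    b_nonneg := h.num.b_nonneg
    one_le := h.num.one_le
    θ_top := h.num.θ_top
    q_ne := h.num.q_ne
    c_pow := h.num.c_pow
    c_eq := h.num.c_eq
    st_pow := h.num.st_pow
    st_ge := h.num.st_ge
    st_lt := h.num.st_lt
    slack := h.num.slack
    num := h.num.num
    num4 := h.num.num4
    mTT := fun σ u κ => h.ms.tt σ u κ
    mL := h.mL
    TT_mono := mo
    dis := fun u κ => (h.dis u κ).mono_left fun _ hx => hx.1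
    stp := h.stp
    pot_late := fun t i hr x ω => PS86.pot_late pn mo t i hr x ω
    pot_none := fun t i j hr hij hj x ρ ω hω hab => PS86.pot_none pn mo t i j hr hij hj x ρ ω hω hab
    pot_early := fun t i j hr hij hj s hs x ρ ρ' hn ω hω _ hab => PS86.pot_early pn mo t i j hr hij hj s hs x ρ ρ' hn ω hω hab
    cmpA := h.cmpA
    M3A := h.M3A
    κ3_ne := h.κ3_ne
    exclF := h.exclF
    exclE := h.exclE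
    d_b := h.d_b
    pr := fun u hu hM κ ω hω η hη => pr_Ro h.MT hM (h.ro u hu hM κ ω hω η hη)
    oscp := h.oscp }

/-- **THE SEPARATION FROM THE INSTANCE** (`hsep` of `nuS77`, the far mass off the ball, the potential `pot86`). -/
theorem sepI98 {θ δ : ℝ} {C1 Ast : ℝ≥0∞} (m2 q0 m1 n1 C' : ℕ) (hθ : 1 < θ) (hd : 0 < δ) (hC1 : C1 ≠ ⊤) (hAst : Ast ≠ ⊤) :
    ∃ m0 : ℕ, ∀ {Γ : Cx} {G : Gm} {mt : ℕ} {μ : Measure ℝ} [IsProbabilityMeasure μ] {lam : ℕ} {Lv : ℕ → ℤ × ℤ → Set Env}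
      {Ou St Fw : ℝ → ℕ → ℤ × ℤ → Set Env} {L : ℕ → ℤ × ℤ → Set Env} {d sl smax : ℕ → ℝ}
      {th be : ℕ → ℕ → ℝ} {b : ℕ → ℝ} {st : ℕ → ℕ → ℕ} {κ3 : ℝ≥0∞} {τ0 q r m3 : ℕ} {c c1 δ3 : ℝ≥0∞} {aS bS : ℝ} {βS dd : ℕ → ℝ},
      InI98 Γ G mt μ lam Lv Ou St Fw L d sl smax th be b st κ3 (ENNReal.ofReal θ) τ0 q r q0 m1 m3 n1 C' c c1 C1 Ast δ3 aS bS βS dd →
      G.m2 = m2 → m0 ≤ G.m0 → ∀ {a b' : ℕ}, δ * G.M ≤ a → b' ≤ δ * G.M / 8 →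
      ∑ x : XS Γ G mt, ∫⁻ ω in {ω | a ≤ cnt (p98 Γ G mt th sl be b st κ3 (ENNReal.ofReal θ)) (wS Γ G mt) (fa98 Γ G mt) τ0 τ0 (sl τ0) x ω ∧
        (ENNReal.ofReal θ ^ 2)⁻¹ ^ b' ≤ pot86 Γ G mt lam m3 (Ms9.TT Lv Ou St Fw) (1 + c1)⁻¹ τ0 (sl τ0) x ω}, wS Γ G mt x ω ∂(law μ) ≤
          2 * ENNReal.ofReal (θ ^ (-(δ / 2) * G.M)) := by
  obtain ⟨m0, hm0⟩ := sep98 (C1 := C1) (Ast := Ast) m2 q0 m1 n1 C' hθ hd hC1 hAst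
  refine ⟨m0, fun {Γ G mt μ} _ {lam Lv Ou St Fw L d sl smax th be b st κ3 τ0 q r m3 c c1 δ3 aS bS βS dd} h h1 h2 {a b'} ha hb => ?_⟩
  exact hm0 h.toInG.toIn h1 h2 ha hb

end

end Pool.Agent.W_7d29a1_C1.SF98
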