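import Pool.Agent.W_7d29a1_C1.RatH22
import Pool.Agent.W_7d29a1_C1.SepI98

/-!
MP_7d29a1_pr, [C1] attractor route, SEP: THE FIELD `ro` OF `InI98`. (helper22)

`ro22` : `Lv ⊆ KiS`, `Ou (smax) ⊆ SzS ∩ FtS`, `L ⊆ KiS ∩ LoS` and two numbers give `ro` literally, for the old content in
`Tx` and the new one in `L`.
-/

set_option autoImplicit false

namespace Pool.Agent.W_7d29a1_C1.Rt22

open Finset MeasureTheory
open Pool.Agent.W_7d29a1_F hiding Bw G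
open Pool.Agent.W_7d29a1_h4g Pool.Agent.W_7d29a1_HS
open Pool.Agent.W_7d29a1_H hiding ex
open Pool.Agent.W_7d29a1_C1.K91 (wt wt_pos measurable_wt)
open Pool.Agent.W_7d29a1_C1.K91P (fw bw bw_succ bw_zero bw_pos bw_congr)
open Pool.Agent.W_7d29a1_C1.U16 (ker ker_zero ker_succ ker_nonneg ker_eq_zero ker_congr)
open Pool.Agent.W_7d29a1_C1.H60
open Pool.Agent.W_7d29a1_C1.G37 (Gm)
open Pool.Agent.W_7d29a1_C1.Sy78 (sp lat_win lat_succ)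
open Pool.Agent.W_7d29a1_C1.O22 (Bw)
open Pool.Agent.W_7d29a1_C1.SF98 (KS Tx rcc_KS)

noncomputable section

variable {Γ : Cx} {G : Gm} {γ : ℕ → ℤ → ℝ} {u : ℕ} {κ : ℤ × ℤ} {b A X U Q U₁ a : ℝ} {ω η : Env}

theorem SzS_mono (hγ : ∀ k y, 0 < γ k y) {U' Q' : ℝ} (hU : U ≤ U') (hQ : Q ≤ Q') : SzS Γ G γ b U Q u κ ⊆ SzS Γ G γ b U' Q' u κ :=
  fun ω h => ⟨h.1, h.2.mono (gg_pos hγ ω) (wt_pos ω) Γ.p_pos (fun _ => (bw_pos (wt_pos ω) Γ.p_pos _ _ _).le) hU hQ⟩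

theorem FtS_mono (hγ : ∀ k y, 0 < γ k y) {Q' : ℝ} (hQ : Q ≤ Q') : FtS Γ G γ b Q u κ ⊆ FtS Γ G γ b Q' u κ := fun ω h v hv => by
  have h1 := Real.exp_le_exp.2 hQ
  exact ⟨(h v hv).1.trans (mul_le_mul_of_nonneg_right (mul_le_mul_of_nonneg_right h1 (F0_nonneg hγ ω)) (gg_pos hγ ω _ _).le),
    (h v hv).2.trans (mul_le_mul_of_nonneg_right h1 (bw_pos (wt_pos ω) Γ.p_pos _ _ _).le)⟩

theorem KiS_mono (hγ : ∀ k y, 0 < γ k y) {A' X' : ℝ} (hA : A ≤ A') (hX : X ≤ X') : KiS Γ G γ b A X u κ ⊆ KiS Γ G γ b A' X' u κ :=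
  fun ω h => ⟨fun c hc => (h.mass c hc).trans (mul_le_mul_of_nonneg_right hA (gg_pos hγ ω _ _).le),
    fun c hc => (h.exit c hc).trans (mul_le_mul_of_nonneg_right hX (gg_pos hγ ω _ _).le)⟩

theorem LoS_mono (hγ : ∀ k y, 0 < γ k y) {U' : ℝ} (hU : U ≤ U') : LoS Γ G γ b U u κ ⊆ LoS Γ G γ b U' u κ := fun ω h c hc => by
  obtain ⟨J, hJ, hk⟩ := h c hc
  exact ⟨J, hJ, (mul_le_mul_of_nonneg_right (Real.exp_le_exp.2 (by linarith)) (gg_pos hγ ω _ _).le).trans hk⟩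

/-- **THE RATIO OFF THE WINDOW, one old content, one new content.** -/
theorem ro_one (hγ : ∀ k y, 0 < γ k y) (hv0 : 0 ≤ G.v) (hv1 : G.v ≤ 1) (h0 : 0 ≤ G.rcc u κ) (hb : G.kw * G.w u + 2 ≤ b * G.w u)
    (ha : 0 ≤ a) (hU : 0 ≤ U) (hQ : 0 ≤ Q) (hU₁ : 0 ≤ U₁) (hA : A ≤ Real.exp a) (hX0 : 0 ≤ X)
    (hX : X * Real.exp (1 + a + 3 * Q + 2 * U + U₁) ≤ 1 / 2) {d : ℝ} (hd : 2 + 2 * a + 3 * Q + 2 * U + U₁ ≤ d)
    (hK : ω ∈ KiS Γ G γ b A X u κ) (hS : ω ∈ SzS Γ G γ b U Q u κ) (hF : ω ∈ FtS Γ G γ b Q u κ)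
    (hK' : G.R u κ η ω ∈ KiS Γ G γ b A X u κ) (hL : G.R u κ η ω ∈ LoS Γ G γ b U₁ u κ) :
    Ro (wt ω) (wt (G.R u κ η ω)) Γ.p Γ.N (Bw G u κ) (Real.exp d) := by
  have e2 : (2 : ℝ) ≤ Real.exp 1 := by
    have := Real.add_one_le_exp (1 : ℝ)
    linarith
  have K := KiS_mono hγ hA le_rfl hK
  have K' := KiS_mono hγ hA le_rfl hK'
  -- the new content is in `SzS`
  have n1 : X * Real.exp (Q + U) ≤ 1 / 2 :=
    (mul_le_mul_of_nonneg_left (Real.exp_le_exp.2 (by linarith)) hX0).trans hX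
  have n2 := num_ok (A := Real.exp a) (X := X) (Q := Q) (U := U) n1
  have n3 : max 1 (2 * Real.exp a * Real.exp (Q + U)) ≤ Real.exp (1 + a + Q + U) := by
    refine max_le (Real.one_le_exp (by linarith)) ?_
    rw [show 1 + a + Q + U = 1 + (a + (Q + U)) by ring, Real.exp_add 1, Real.exp_add a, mul_assoc]
    exact mul_le_mul_of_nonneg_right e2 (by positivity)
  have S' : G.R u κ η ω ∈ SzS Γ G γ b (U₁ + Q) (1 + a + 2 * Q + U) u κ := by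
    refine szS_R hγ hv0 hv1 h0 hb n2.1 n2.2 hS hF K' hL ?_
    calc max 1 (2 * Real.exp a * Real.exp (Q + U)) * Real.exp Q ≤ Real.exp (1 + a + Q + U) * Real.exp Q :=
          mul_le_mul_of_nonneg_right n3 (Real.exp_pos _).le
      _ = _ := by rw [← Real.exp_add]; congr 1; ring
  have S1 := SzS_mono (Γ := Γ) (G := G) (b := b) (u := u) (κ := κ) hγ (show U ≤ U + U₁ + Q by linarith)
    (show Q ≤ 1 + a + 2 * Q + U by linarith) hS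
  have S2 := SzS_mono (Γ := Γ) (G := G) (b := b) (u := u) (κ := κ) hγ (show U₁ + Q ≤ U + U₁ + Q by linarith)
    (le_refl (1 + a + 2 * Q + U)) S'
  have m1 : X * Real.exp ((1 + a + 2 * Q + U) + (U + U₁ + Q)) ≤ 1 / 2 := by
    rw [show (1 + a + 2 * Q + U) + (U + U₁ + Q) = 1 + a + 3 * Q + 2 * U + U₁ by ring]
    exact hX
  have m2 := num_ok (A := Real.exp a) (X := X) (Q := 1 + a + 2 * Q + U) (U := U + U₁ + Q) m1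
  have m3 : max 1 (2 * Real.exp a * Real.exp ((1 + a + 2 * Q + U) + (U + U₁ + Q))) ≤ Real.exp d := by
    refine max_le (Real.one_le_exp (by linarith)) ?_
    have m4 : 2 * Real.exp a * Real.exp ((1 + a + 2 * Q + U) + (U + U₁ + Q)) ≤
        Real.exp 1 * Real.exp a * Real.exp ((1 + a + 2 * Q + U) + (U + U₁ + Q)) :=
      mul_le_mul_of_nonneg_right (mul_le_mul_of_nonneg_right e2 (Real.exp_pos _).le) (Real.exp_pos _).le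
    refine m4.trans ?_
    rw [← Real.exp_add, ← Real.exp_add]
    exact Real.exp_le_exp.2 (by linarith)
  exact (ro_R hγ hv0 hv1 h0 hb m2.1 m2.2 K S1 K' S2).mono (wt_pos _) (wt_pos _) Γ.p_pos m3

/-- **THE FIELD `ro` OF `InI98`.** -/
theorem ro22 {mt τ0 : ℕ} {Lv : ℕ → ℤ × ℤ → Set Env} {Ou St Fw : ℝ → ℕ → ℤ × ℤ → Set Env} {L : ℕ → ℤ × ℤ → Set Env} {smax dd : ℕ → ℝ}
    {b a A X U Q U₁ : ℕ → ℝ} (hγ : ∀ k y, 0 < γ k y) (hv0 : 0 ≤ G.v) (hv1 : G.v ≤ 1)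
    (hb : ∀ u, τ0 < u → G.kw * G.w u + 2 ≤ b u * G.w u)
    (hLv : ∀ u, τ0 < u → u < G.M → ∀ κ : KS Γ G mt u, Lv u κ.1 ⊆ KiS Γ G γ (b u) (A u) (X u) u κ.1)
    (hOu : ∀ u, τ0 < u → u < G.M → ∀ κ : KS Γ G mt u, Ou (smax u) u κ.1 ⊆ SzS Γ G γ (b u) (U u) (Q u) u κ.1 ∩ FtS Γ G γ (b u) (Q u) u κ.1)
    (hL : ∀ u, τ0 < u → u < G.M → ∀ κ : KS Γ G mt u, L u κ.1 ⊆ KiS Γ G γ (b u) (A u) (X u) u κ.1 ∩ LoS Γ G γ (b u) (U₁ u) u κ.1)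
    (ha : ∀ u, 0 ≤ a u) (hU : ∀ u, 0 ≤ U u) (hQ : ∀ u, 0 ≤ Q u) (hU₁ : ∀ u, 0 ≤ U₁ u) (hA : ∀ u, A u ≤ Real.exp (a u))
    (hX0 : ∀ u, 0 ≤ X u) (hX : ∀ u, τ0 < u → X u * Real.exp (1 + a u + 3 * Q u + 2 * U u + U₁ u) ≤ 1 / 2)
    (hd : ∀ u, τ0 < u → 2 + 2 * a u + 3 * Q u + 2 * U u + U₁ u ≤ dd u) :
    ∀ u, τ0 < u → u < G.M → ∀ κ : KS Γ G mt u, ∀ ω ∈ Tx (Ms9.TT Lv Ou St Fw) smax u κ.1, ∀ η, G.R u κ.1 η ω ∈ L u κ.1 →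
      Ro (wt ω) (wt (G.R u κ.1 η ω)) Γ.p Γ.N (Bw G u κ.1) (Real.exp (dd u)) := by
  intro u hu huM κ ω hω η hη
  have h1 : ω ∈ Lv u κ.1 ∩ (Ou (smax u) u κ.1 ∩ (St (smax u) u κ.1 ∩ Fw (smax u) u κ.1)) := hω
  have hO := hOu u hu huM κ h1.2.1
  have hL' := hL u hu huM κ hη
  exact ro_one hγ hv0 hv1 (rcc_KS κ) (hb u hu) (ha u) (hU u) (hQ u) (hU₁ u) (hA u) (hX0 u) (hX u hu) (hd u hu)
    (hLv u hu huM κ h1.1) hO.1 hO.2 hL'.1 hL'.2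

end

end Pool.Agent.W_7d29a1_C1.Rt22
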