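import Pool.Agent.W_7d29a1_C1.SepC3
import Pool.Agent.W_7d29a1_C1.EvK57
import Pool.Agent.W_7d29a1_C1.HtZ43

/-!
MP_7d29a1_pr, attractor route [C1], SEP + TAME: **THE LAST ASSEMBLY**: `LastQ2` from the leaves, each in the form `EvC`. (helper2)

Leaves: `HtQ2` (the clauses of the typical events, `htQ2_of` : from helper43's `HtQ43`), `LvQ2` (the probability of `Lv`), `SlQ2` (`LfF`), the
nonemptiness of the filter.
-/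

set_option autoImplicit false

namespace Pool.Agent.W_7d29a1_C1.Cs2

open MeasureTheory Finset Filter
open Pool.Agent.W_7d29a1_F Pool.Agent.W_7d29a1_h4g Pool.Agent.W_7d29a1_H Pool.Agent.W_7d29a1_HS
open Pool.Agent.W_7d29a1_C1.H60
open Pool.Agent.W_7d29a1_C1.H40 (Tk NbF)
open Pool.Agent.W_7d29a1_C1.G37 (Gm Wok gmW)
open Pool.Agent.W_7d29a1_C1.SF98
open Pool.Agent.W_7d29a1_C1.P25
open Pool.Agent.W_7d29a1_C1.N49
open Pool.Agent.W_7d29a1_C1.D98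
open Pool.Agent.W_7d29a1_C1.Q49
open Pool.Agent.W_7d29a1_C1.Nm15
open Pool.Agent.W_7d29a1_C1.PW86
open Pool.Agent.W_7d29a1_C1.Hp2
open Pool.Agent.W_7d29a1_C1.WrS19
open scoped ENNReal

noncomputable section

variable {μ : Measure ℝ} {s c Cc : ℝ} {n₀ : ℕ} {S : ℝ → Is → Cst → Prop}

/-! ### The leaves -/

/-- **THE CLAUSES OF THE TYPICAL EVENTS** (helper43). -/
def HtQ2 (μ : Measure ℝ) (s c a Cg : ℝ) (S : ℝ → Is → Cst → Prop) : Prop :=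
  ∃ K₀ : ℕ, ∀ Dd : Dat, K₀ ≤ Dd.K → Dd.κ = (Dd.K : ℝ) ^ a → Dd.Cg = Cg → ∀ ke : ℕ, 1 ≤ ke → ∀ D k : ℕ, 1 ≤ D → 1 ≤ k →
    ∃ z₀ : ℕ, ∀ z : ℕ, z₀ ≤ z → 1 ≤ z → ∀ ε : ℝ, 0 < ε → ∃ t : Tm, (∃ (AA a' gg : ℝ) (n₁ : ℕ), t.Ok μ z AA a' gg n₁) ∧
      EvC (S ε) fun C => ClQ C.P Dd μ s t k D (fun _ => {id}) (fun Γ G E => cut86 G (G.M / ke) ((C.fam μ s c ε).Ou Γ G E 0)) ∧
        ClQ C.P Dd μ s t k D (fun _ => {id}) (fun Γ G E => cut86 G (G.M / ke) ((C.fam μ s c ε).St Γ G E 0)) ∧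
        ClQ C.P Dd μ s t k D (fun _ => {id}) (fun Γ G E => cut86 G (G.M / ke) ((C.fam μ s c ε).Fw Γ G E 0))

/-- **THE PROBABILITY OF `Lv`**, `15` factors (helper86, helper81). -/
def LvQ2 (μ : Measure ℝ) (s c a Cg : ℝ) (S : ℝ → Is → Cst → Prop) : Prop :=
  ∃ K₀ : ℕ, ∀ Dd : Dat, K₀ ≤ Dd.K → Dd.κ = (Dd.K : ℝ) ^ a → Dd.Cg = Cg → ∀ ε : ℝ, 0 < ε →
    EvC (S ε) fun C => LvE C.P Dd μ s (C.fam μ s c ε).Lv (15 * ε)

/-- **THE ANALYTIC HALF**, `Sl F P` = `LfF F P μ` (helper19's `lfC19`). -/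
def SlQ2 (μ : Measure ℝ) (s c a Cg : ℝ) (S : ℝ → Is → Cst → Prop) (Sl : Fam → Pre → Phi) : Prop :=
  ∃ K₀ : ℕ, ∀ Dd : Dat, K₀ ≤ Dd.K → Dd.κ = (Dd.K : ℝ) ^ a → Dd.Cg = Cg → ∀ ε : ℝ, 0 < ε →
    EvC (S ε) fun C => Evn C.P Dd μ s (Sl (C.fam μ s c ε) C.P)

/-! ### The clauses -/

/-- **THE CLAUSES** from helper43's `HtQ43`. -/
theorem htQ2_of [IsProbabilityMeasure μ] {a Cg : ℝ} (h : Ht43.HtQ43 μ s a Cg (5 / 2)) : HtQ2 μ s c a Cg S := by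
  obtain ⟨K₀, h⟩ := h
  refine ⟨K₀, fun Dd h1 h2 h3 ke hke D k hD hk => ?_⟩
  obtain ⟨z₀, h⟩ := h Dd h1 h2 h3 ke hke D k hD hk
  refine ⟨z₀, fun z hz hz1 ε _ => ?_⟩
  obtain ⟨t, ht, hOu, hSt, hFw⟩ := h z hz hz1
  exact ⟨t, ht, EV57.clK57 (e := fun G => G.M / ke) (S ε) hOu hSt hFw⟩

/-! ### The assembly -/

theorem nbF_id : NbF {id} 1 := fun m v => by
  rw [sum_singleton]
  refine (card_le_card (t := {v}) fun u hu => ?_).trans (card_singleton v).le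
  rw [mem_filter] at hu
  rw [mem_singleton]
  exact hu.2

/-- **`LastQ2`** from the three halves. -/
theorem lastQ2_of {a Cg : ℝ} (hne : ∀ ε : ℝ, 0 < ε → (FC (S ε)).NeBot) (hT : HtQ2 μ s c a Cg S) (hE : LvQ2 μ s c a Cg S)
    (hL : SlQ2 μ s c a Cg S fun F P => LfF F P μ) : LastQ2 μ s a Cg := by
  obtain ⟨K1, hT⟩ := hT
  obtain ⟨K2, hE⟩ := hE
  obtain ⟨K3, hL⟩ := hL
  refine ⟨max (max K1 K2) K3, fun Dd hK hκ hCg δ hδ hδ1 ke hke => ⟨1, fun D k hD hk => ?_⟩⟩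
  have hk1 : K1 ≤ Dd.K := ((le_max_left _ _).trans (le_max_left _ _)).trans hK
  have hk2 : K2 ≤ Dd.K := ((le_max_right _ _).trans (le_max_left _ _)).trans hK
  have hk3 : K3 ≤ Dd.K := (le_max_right _ _).trans hK
  have hke1 : 1 ≤ ke := by
    have h1 : (0 : ℝ) < ke := lt_of_lt_of_le (by positivity) hke
    have h2 : 0 < ke := by exact_mod_cast h1
    omega
  obtain ⟨z₀, hT⟩ := hT Dd hk1 hκ hCg ke hke1 D k hD hk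
  refine ⟨z₀, fun z hz hz1 => ?_⟩
  have hz0 : (1 : ℝ) ≤ z := by exact_mod_cast hz1
  obtain ⟨ε, hεe⟩ : ∃ ε : ℝ, ε = 1 / (30 * z) := ⟨_, rfl⟩
  have hε : 0 < ε := by rw [hεe]; positivity
  obtain ⟨t, ht, hT⟩ := hT z hz hz1 ε hε
  have hN := hne ε hε
  obtain ⟨C, ⟨h1, h2, h3⟩, h4, h5⟩ := (hT.and ((hE Dd hk2 hκ hCg ε hε).and (hL Dd hk3 hκ hCg ε hε))).exists
  refine ⟨t, C.P, C.fam μ s c ε, fun _ => {id}, 15 * ε, ht, ?_, ?_, h5, h4, h1, h2, h3⟩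
  · rw [hεe]
    have : (z : ℝ) * (15 * (1 / (30 * z))) = 1 / 2 := by field_simp; norm_num
    exact this.le
  · refine Evn.of_all ?_
    intros
    exact ⟨nbF_id, mem_singleton_self _⟩

end

end Pool.Agent.W_7d29a1_C1.Cs2
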