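import Pool.Agent.W_7d29a1_C1.ShlP45
import Pool.Agent.W_7d29a1_C1.NumY54
import Pool.Agent.W_7d29a1_C1.NumP74

/-!
MP_7d29a1_pr, attractor route [C1], SHELL, SIDE F (helper45): **THE ORDER OF THE CONSTANTS OF SIDE F**:
`frT_of45 : In ⇒ LsB ⇒ LsS ⇒ LsW ⇒ LsU ⇒ FrT8` (the exit sets = `basX24`, the last choice = `lastY54`, `cost54`).
-/

set_option autoImplicit false

namespace Pool.Agent.W_7d29a1_C1.F45

open MeasureTheory ProbabilityTheory Filter Topology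
open Pool.Agent.W_7d29a1_F Pool.Agent.W_7d29a1_h4g Pool.Agent.W_7d29a1_H Pool.Agent.W_7d29a1_HS
open Pool.Agent.W_7d29a1_C1 (On20)
open Pool.Agent.W_7d29a1_C1.T10
open Pool.Agent.W_7d29a1_C1.S71 Pool.Agent.W_7d29a1_C1.Sw9
open Pool.Agent.W_7d29a1_C1.H60 Pool.Agent.W_7d29a1_C1.Lec17
open Pool.Agent.W_7d29a1_C1.H8
open Pool.Agent.W_7d29a1_C1.H54 (lastY54 cost54 xC54)
open Pool.Agent.W_7d29a1_C1.D31 (NV31)
open Pool.Agent.W_7d29a1_C1.Fr47 (Bas47 Sb47 NS47 So47)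
open Pool.Agent.W_7d29a1_C1.Lt9 (Lv9 W47 Suc9)
open Pool.Agent.W_7d29a1_C1.P24 (FXz24 rE24 basX24)
open Pool.Agent.W_7d29a1_C1.P74 (h8_big)

noncomputable section

/-! ### The composition -/

theorem le_T45 {h₀ K v : ℕ} (hK : 1 ≤ K) (hv : 1 ≤ v) : h₀ ≤ Tg h₀ K v := by
  rw [Tg_pos hv, mul_comm 2 h₀, mul_assoc]
  exact Nat.le_mul_of_pos_right _ (Nat.mul_pos two_pos (Nat.pow_pos (by omega)))

/-- **THE COMMON PART** `FrB8` from the base sets. -/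
theorem frB45 {μ : Measure ℝ} [IsProbabilityMeasure μ] {s : ℝ} {d R gg th K' θ' u' qi : ℝ} {P' : ℕ} {i : LnI} {o : LnO} (ho : o.Ok i)
    (hi : i.th' = th / 8) (hth : 0 < th) (hth4 : th ≤ 1 / 4) {Q : ℕ} (hQ : 1 ≤ Q) : ∃ n₀ : ℕ, 1 ≤ n₀ ∧
    ∀ {R' : ℝ} {B : ℕ} {C₀ : ℝ} {h₀ K L : ℕ} {G : Gd}, GW μ s R' B C₀ h₀ K L G → n₀ ≤ h₀ → 8 ≤ K → 16 ≤ th * K → 32 ∣ h₀ →
    ∀ (m n₁' : ℕ), n₁' ≤ h₀ → ∀ {pA pX : ℝ} {FA FB FX : ℕ → Pt → Env → Prop} {SA SB SX : ℕ → Set Env},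
    BAB45 μ (Tg h₀ K) m (rA10 th (R145 o Q) (Tg h₀ K)) (rB10 th (R145 o Q) (Q * o.j1) (Tg h₀ K)) pA (1 / 8) FA FB SA SB →
    (∀ j, MeasurableSet (SX j)) → (∀ j, 2 ≤ j → j < m → On20 (rows (rE24 (Tg h₀ K j)) (Tg h₀ K j)) (SX j)) →
    (∀ j, 2 ≤ j → j < m → pX ≤ (law μ).real (SX j)) → (∀ j, 2 ≤ j → j < m → ∀ (z : Pt) (ζ : Env), sh z ζ ∈ SX j → FX j z ζ) →
    ∀ σ : NS47, σ.T = Tg h₀ K →
    FrB8 μ ⟨d, R, gg, th, K', θ', u', P', qi, R145 o Q⟩ (Tg h₀ K) G.H m n₁' pA pX FA FB FX SA SB SX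
      (rB10 th (R145 o Q) (Q * o.j1) (Tg h₀ K)) σ (n145 th o Q (Tg h₀ K)) (D45 (Tg h₀ K)) (fun _ => 1) (Tg h₀ K) := by
  have hR := R145_pos ho hQ
  obtain ⟨n₀, hn₀, H⟩ := rB10_le hth hth4 hR
  refine ⟨n₀, hn₀, fun {R' B C₀ h₀ K L G} g hn hK8 hKth h32 m n₁' hn' {pA pX FA FB FX SA SB SX} hAB mX oX pX' fX σ hσ => ?_⟩
  obtain ⟨T, hT⟩ : ∃ T : ℕ → ℕ, T = Tg h₀ K := ⟨_, rfl⟩
  have d32 : ∀ j, 32 ∣ Tg h₀ K j := fun j => by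
    unfold Tg
    split_ifs
    · exact dvd_zero _
    · exact (h32.mul_left 2).mul_right _
  have hA : ∀ j, 1 ≤ j → rA10 th (R145 o Q) (Tg h₀ K) j ≤ -(Tg h₀ K (j - 1) : ℤ) := fun j hj => by
    have h1 := (H g hn hKth 0 (by push_cast; positivity) j hj).2.1
    unfold rB10 at h1
    simpa using h1
  have hRB : ((Q * o.j1 : ℕ) : ℝ) ≤ th / 8 * (R145 o Q : ℕ) := by
    have h1 := ho.j2'
    rw [hi] at h1
    have h2 : (0 : ℝ) ≤ Q := Nat.cast_nonneg _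
    have h3 : (0 : ℝ) ≤ o.j1 := Nat.cast_nonneg _
    have h4 : (0 : ℝ) ≤ o.a := Nat.cast_nonneg _
    unfold R145
    push_cast
    have h5 : (1 : ℝ) * (Q * (o.a + o.j1)) ≤ th / 8 * o.j2 * (Q * (o.a + o.j1)) := mul_le_mul_of_nonneg_right h1 (by positivity)
    have h6 : (Q : ℝ) * o.j1 ≤ 1 * (Q * (o.a + o.j1)) := by nlinarith
    calc (Q : ℝ) * o.j1 ≤ th / 8 * o.j2 * (Q * (o.a + o.j1)) := h6.trans h5
      _ = _ := by ring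
  have hB : ∀ j, 1 ≤ j → rB10 th (R145 o Q) (Q * o.j1) (Tg h₀ K) j ≤ -(Tg h₀ K (j - 1) : ℤ) := fun j hj => (H g hn hKth _ hRB j hj).2.1
  refine
    { bas :=
        { mA := hAB.mA
          mB := hAB.mB
          mX := mX
          oA := hAB.oA
          oB := hAB.oB
          oX := fun j h1 h2 => ?_
          pA := hAB.pA
          pB := hAB.pB
          pX := pX'
          fA := hAB.fA
          fB := hAB.fB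
          fX := fX }
      hA := fun j h1 _ => hA j (by omega)
      hB := fun j h1 _ => hB j (by omega)
      eT := hσ
      h1 := fun l h1 _ => ?_
      hD := fun l h1 _ => ?_
      hD2 := fun l _ => ?_
      hI := fun i' h1 _ => ⟨le_rfl, ?_, hn'.trans (le_T45 (by omega) (by omega)), (show 1 ≤ h₀ from g.h1).trans (le_T45 (by omega) (by omega))⟩ }
  · have h3 := oX j h1 h2
    have e8 : rE10 (Tg h₀ K) j = ((rE24 (Tg h₀ K j) : ℕ) : ℤ) := by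
      rw [rE10_eight ((by norm_num : 8 ∣ 32).trans (d32 j))]
      unfold rE24
      push_cast
      ring
    rw [e8]
    exact h3
  · have h2 := hB l h1
    unfold rB10 rA10 at h2
    unfold n145
    have h3 : (0 : ℤ) ≤ (Tg h₀ K (l - 1) : ℤ) := Nat.cast_nonneg _
    have h4 : (((R145 o Q + Q * o.j1) * kF th (R145 o Q) (Tg h₀ K l) + 1 : ℕ) : ℤ) ≤ ((Tg h₀ K l : ℕ) : ℤ) := by
      push_cast at h2 ⊢
      linarith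
    exact_mod_cast h4
  · obtain ⟨t, ht⟩ := d32 l
    have hH : G.H l = 16 * t := by
      rw [g.H l, Hg_pos h1]
      rw [Tg_pos h1] at ht
      have h3 : 2 * (h₀ * K ^ l) = 2 * (16 * t) := by rw [← mul_assoc]; omega
      omega
    unfold D45
    rw [hH, ht]
    omega
  · unfold D45
    omega
  · have h3 := hA i' (by omega)
    have h4 := rE10_nn (Tg h₀ K) i'
    have h5 : 1 ≤ Tg h₀ K (i' - 1) := g.h1.trans (le_T45 (by omega) (by omega))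
    show ((1 : ℕ) : ℤ) ≤ _
    push_cast
    omega

/-- **THE ORDER OF SIDE F.** -/
theorem frT_of45 {μ : Measure ℝ} [IsProbabilityMeasure μ] {s c C : ℝ} {n₀ : ℕ} (hI : In μ s c C n₀) {c₁ c₃ : ℝ} (HB : LsB μ s c)
    (HS : LsS μ s c c₁ c₃) (HW : LsW μ s c c₁ c₃) (HU : LsU μ s c c₁ c₃) : FrT8 μ s c c₁ c₃ := by
  intro d R hd hd1 hR
  refine ⟨d / 2, by linarith, by linarith, fun th hth hth4 => ⟨8, 1 / 2, 1, by norm_num, by norm_num, by norm_num, one_pos, ?_⟩⟩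
  intro P' q' hq' ρ e hρ hρ1 he he1
  obtain ⟨ell, K0, hell, hK0, HB⟩ := HB
  obtain ⟨c', hc', HX⟩ := basX24 hI
  obtain ⟨PX, dX, UX, qX, hdX, hdX4, hdX1, hUX, hqX, HX⟩ := HX 1 (d / 4) 1 1 one_pos (by linarith) zero_le_one one_pos
  obtain ⟨cc, ckS, PS, hcc, hckS, HS⟩ := HS
  have hx : (⟨c', PX, dX, UX, qX⟩ : ExO).Ok (d / 4) := ⟨hc', hdX, hdX4, hdX1, hUX, hqX⟩
  obtain ⟨KS, HS⟩ := HS d R th K0 hd hd1 hR hth hth4 hK0 ρ e hρ hρ1 he he1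
  obtain ⟨KW, HW⟩ := HW ell K0 hell hK0 d R th P' q' hd hd1 hR hth hth4 hq' _ hx ρ e hρ hρ1 he he1
  obtain ⟨KU, HU⟩ := HU ell K0 hell hK0 d R th hd hd1 hR hth hth4 _ hx ρ e hρ hρ1 he he1
  refine ⟨max KS (max KW KU), fun K hK hK8 hKth B C₀ hB hC => ?_⟩
  have kS : KS ≤ K := (le_max_left _ _).trans hK
  have kW : KW ≤ K := ((le_max_left _ _).trans (le_max_right _ _)).trans hK
  have kU : KU ≤ K := ((le_max_right _ _).trans (le_max_right _ _)).trans hK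
  obtain ⟨θ, Kw, hθ, hθ1, hKw, HU⟩ := HU K kU hK8 hKth B C₀ hB hC
  refine ⟨θ, Kw, hθ, hθ1, hKw, fun P A' a₁ g₁ n₁ hA' ha₁ hg₁ hg1 hn₁ hT => ?_⟩
  obtain ⟨χ, hχ, HU⟩ := HU P A' a₁ g₁ n₁ hA' ha₁ hg₁ hg1 hn₁ hT
  refine ⟨χ, hχ, fun U₀ qx₀ Z m₀ kst C' pw hU₀ hqx₀ hZ hm₀ hkst hC' => ?_⟩
  obtain ⟨MS, HS⟩ := HS K kS hK8 hKth B C₀ hB hC Z m₀ kst hZ hm₀ hkst
  obtain ⟨a, gW, ckW, MW, ha, hckW, HW⟩ := HW K kW hK8 hKth B C₀ hB hC Z m₀ kst hZ hm₀ hkst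
  obtain ⟨A0, Af, ckU, pp, MU, hA0, hAf, hckU, HU⟩ := HU U₀ qx₀ Z m₀ kst hU₀ hqx₀ hZ hm₀ hkst
  obtain ⟨ck, hck⟩ : ∃ ck : ℝ, ck = min ckS (min ckW ckU) := ⟨_, rfl⟩
  have ck0 : 0 < ck := hck ▸ lt_min hckS (lt_min hckW hckU)
  have cks : ck ≤ ckS := hck ▸ min_le_left _ _
  have ckw : ck ≤ ckW := hck ▸ (min_le_right _ _).trans (min_le_left _ _)
  have cku : ck ≤ ckU := hck ▸ (min_le_right _ _).trans (min_le_right _ _)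
  obtain ⟨m₁, g, U, hM₁, hm₁, hg, hU1, hUU, hCU, nY, hnY, HY⟩ := lastY54 hI (show 2 ≤ K by omega) (A := 5 * a + 12 * Af + 4 * A0 + 2)
    (by positivity) pp (η := kst / 8) (by positivity) (ρ := ck / cc) (by positivity) m₀ (max MS (max MW MU)) (max U₀ qx₀) hC' pw
  have mS : MS ≤ m₁ := (le_max_left _ _).trans hM₁
  have mW : MW ≤ m₁ := ((le_max_left _ _).trans (le_max_right _ _)).trans hM₁
  have mU : MU ≤ m₁ := ((le_max_right _ _).trans (le_max_right _ _)).trans hM₁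
  refine ⟨m₁, g, U, qx₀, hm₁, hg, (le_max_left _ _).trans hUU, le_rfl, hCU, fun w₁ hw₁ => ?_⟩
  obtain ⟨c0, cUf, cLf, gU, hc0, hcUf, hcLf, hc0A, hcUA, hcLA, HU⟩ := HU m₁ U mU hm₁ ((le_max_left _ _).trans hUU)
    ((le_max_right _ _).trans hUU)
  obtain ⟨x1, x2⟩ := cost54 (a := a) (U := U) (p := pp) ha (by linarith) hc0A hcUA hcLA hA0 hAf
  have tW : Tun45 μ s K (m₀ + m₁) (kst / 8) (5 * a) := ⟨nY, hnY, fun h₀ t ht hTt => ((HY h₀ t ht hTt).2 _ (by positivity) x1).2⟩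
  have tU : Tun45 μ s K (m₀ + m₁) (kst / 8) (xC54 c0 cUf cLf) :=
    ⟨nY, hnY, fun h₀ t ht hTt => ((HY h₀ t ht hTt).2 _ (H54.xC54_nn hc0 hcUf hcLf) x2).2⟩
  have hRat : Rat45 μ s K (m₀ + m₁) cc ck := ⟨nY, hnY, fun h₀ t ht hTt => by
    have h1 := mul_le_mul_of_nonneg_left (HY h₀ t ht hTt).1 hcc.le
    refine h1.trans (le_of_eq ?_)
    field_simp⟩
  -- the crossing
  obtain ⟨gc, hgc⟩ : ∃ gc : ℝ, gc = max (max gW gU) 0 := ⟨_, rfl⟩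
  have gc0 : 0 ≤ gc := hgc ▸ le_max_right _ _
  obtain ⟨o, ho, HB⟩ := HB d th hd hd1 hth hth4 gc gc0
  obtain ⟨PW, HW⟩ := HW m₁ mW hm₁ tW gc gc0 (hgc ▸ (le_max_left _ _).trans (le_max_left _ _)) o ho
  obtain ⟨PU, HU⟩ := HU tU gc gc0 (hgc ▸ (le_max_right _ _).trans (le_max_left _ _)) o ho
  obtain ⟨P₀, hP₀⟩ : ∃ P₀ : ℕ, P₀ = max (max PW PU) (max PS 1) := ⟨_, rfl⟩
  have p1 : 1 ≤ P₀ := hP₀ ▸ (le_max_right _ _).trans (le_max_right _ _)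
  have pS : PS ≤ P₀ := hP₀ ▸ (le_max_left _ _).trans (le_max_right _ _)
  obtain ⟨QW, SW, HW⟩ := HW P₀ (hP₀ ▸ (le_max_left _ _).trans (le_max_left _ _)) p1
  obtain ⟨QU, SU, HU⟩ := HU P₀ (hP₀ ▸ (le_max_right _ _).trans (le_max_left _ _)) p1
  obtain ⟨Q₀, hQ₀⟩ : ∃ Q₀ : ℝ, Q₀ = max (max QW QU) 0 := ⟨_, rfl⟩
  obtain ⟨S₀, hS₀⟩ : ∃ S₀ : ℝ, S₀ = max (max SW SU) 0 := ⟨_, rfl⟩
  have q0' : 0 ≤ Q₀ := hQ₀ ▸ le_max_right _ _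
  have s0' : 0 ≤ S₀ := hS₀ ▸ le_max_right _ _
  obtain ⟨wW, HW⟩ := HW ck ck Q₀ S₀ ck0 ckw ck0 ckw q0' (hQ₀ ▸ (le_max_left _ _).trans (le_max_left _ _)) s0'
    (hS₀ ▸ (le_max_left _ _).trans (le_max_left _ _))
  obtain ⟨wU, HU⟩ := HU ck ck Q₀ S₀ ck0 cku ck0 cku q0' (hQ₀ ▸ (le_max_right _ _).trans (le_max_left _ _)) s0'
    (hS₀ ▸ (le_max_right _ _).trans (le_max_left _ _))
  obtain ⟨wS, HS⟩ := HS m₁ mS hm₁ o ⟨P₀, ck, ck, Q₀, S₀⟩ ho p1 pS ck0 cks ck0 cks q0' s0' hRat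
  -- the widths
  obtain ⟨w₁', hw'⟩ : ∃ w₁' : ℝ, w₁' = max (w₁ + 1) (max wS (max wW wU)) := ⟨_, rfl⟩
  have w1 : w₁ + 1 ≤ w₁' := hw' ▸ le_max_left _ _
  have w2 : wS ≤ w₁' := hw' ▸ (le_max_left _ _).trans (le_max_right _ _)
  have w3 : wW ≤ w₁' := hw' ▸ ((le_max_left _ _).trans (le_max_right _ _)).trans (le_max_right _ _)
  have w4 : wU ≤ w₁' := hw' ▸ ((le_max_right _ _).trans (le_max_right _ _)).trans (le_max_right _ _)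
  refine ⟨w₁', by linarith, fun q₁ hq₁ => ?_⟩
  obtain ⟨φ, v, v1S, hφ, hv, hv1S, HS⟩ := HS w₁ w₁' q₁ hw₁ w1 w2 hq₁
  obtain ⟨G'W, GW', v1W, HW⟩ := HW φ v hφ hv
  obtain ⟨KwU, gxU, G'U, v1U, a₉, ha₉, HU⟩ := HU φ v hφ hv
  -- the walls
  obtain ⟨w, hwJ⟩ : ∃ w : LnJ, w = ⟨max KwU 0, max gxU 0, max (max G'W G'U) 0⟩ := ⟨_, rfl⟩
  have hw : w.Ok := by
    rw [hwJ]
    exact ⟨le_max_right _ _, le_max_right _ _, le_max_right _ _⟩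
  obtain ⟨p, pA, hp, hpA, nB, hnB, HB⟩ := HB w hw
  obtain ⟨GU, KU', HU⟩ := HU w hw (by rw [hwJ]; exact le_max_left _ _) (by rw [hwJ]; exact le_max_left _ _)
    (by rw [hwJ]; exact (le_max_right _ _).trans (le_max_left _ _)) p hp
  obtain ⟨GX, hGX⟩ : ∃ GX : ℝ, GX = max (max GW' GU) 0 := ⟨_, rfl⟩
  obtain ⟨KX, hKX⟩ : ∃ KX : ℝ, KX = max KU' 0 := ⟨_, rfl⟩
  obtain ⟨v₁, hv₁⟩ : ∃ v₁ : ℝ, v₁ = max (max (max v1S v1W) v1U) 0 := ⟨_, rfl⟩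
  have gx0 : 0 ≤ GX := hGX ▸ le_max_right _ _
  have kx0 : 0 ≤ KX := hKX ▸ le_max_right _ _
  have v0 : 0 ≤ v₁ := hv₁ ▸ le_max_right _ _
  obtain ⟨pX, QX, nX, hpX, hQX, hnX, HX⟩ := HX GX KX gx0 kx0
  have HW := HW w hw (by rw [hwJ]; exact (le_max_left _ _).trans (le_max_left _ _)) p hp GX KX v₁ gx0
    (hGX ▸ (le_max_left _ _).trans (le_max_left _ _)) kx0 v0 (hv₁ ▸ ((le_max_right _ _).trans (le_max_left _ _)).trans (le_max_left _ _))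
  have HU := HU GX KX v₁ gx0 (hGX ▸ (le_max_right _ _).trans (le_max_left _ _)) kx0 (hKX ▸ le_max_left _ _) v0
    (hv₁ ▸ (le_max_right _ _).trans (le_max_left _ _))
  obtain ⟨PV, QV, SV, gf, u, hQV, hSV, hgf, hu, HS⟩ := HS v₁ p.Q
    (hv₁ ▸ ((le_max_left _ _).trans (le_max_left _ _)).trans (le_max_left _ _)) hp.Q
  refine ⟨R145 o p.Q, q', a₉, PV, QV, SV, gf, u, R145_pos ho hp.Q, le_rfl, ha₉, hQV, hSV, hgf, hu, fun w₂ q₂ hw₂ hq₂ => ?_⟩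
  obtain ⟨q0, q4, sS, hq0, hq4, hsS, TS⟩ := HS w₂ q₂ hw₂ hq₂
  obtain ⟨kv, hkv⟩ : ∃ kv : KV8, kv = ⟨PV, c₁, c₃, QV, SV, w₁, w₁', w₂, kst, q₁, q₂, gf, u⟩ := ⟨_, rfl⟩
  have kvW : Kv45 c₁ c₃ kst wW kv := by
    rw [hkv]
    exact ⟨rfl, rfl, rfl, hw₁, w1, w3, hw₂, hq₁, hq₂, hQV, hSV, hgf, hu⟩
  have kvU : Kv45 c₁ c₃ kst wU kv := by
    rw [hkv]
    exact ⟨rfl, rfl, rfl, hw₁, w1, w4, hw₂, hq₁, hq₂, hQV, hSV, hgf, hu⟩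
  obtain ⟨sW, hsW, TW⟩ := HW kv kvW
  obtain ⟨sU, hsU, TU⟩ := HU kv kvU
  rw [← hkv] at TS
  have T3 := TS.and (TW.and TU)
  obtain ⟨nb, hnb, HFB⟩ := frB45 (μ := μ) (s := s) (d := d) (R := R) (gg := d / 2) (K' := 8) (θ' := 1 / 2) (u' := 1) (qi := q') (P' := P')
    ho rfl hth hth4 hp.Q
  refine ⟨q0, pA, pX, q4, 1 / 4, min sS (min sW sU), hq0, hpA, hpX, hq4, by norm_num, lt_min hsS (lt_min hsW hsU), ?_⟩
  intro c₂ hc₂ hcs δ hδ hδc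
  obtain ⟨κ₀, hκ₀, T3⟩ := T3 c₂ hc₂ hcs δ hδ hδc
  refine ⟨κ₀, hκ₀, fun κ hκ hκκ => ?_⟩
  obtain ⟨Qt, hQt, T3⟩ := T3 κ hκ hκκ
  refine ⟨Qt * (32 * QX), Nat.mul_pos hQt (by omega), fun Q hQQ hQ n₁' hn₁' => ?_⟩
  have d1 : Qt ∣ Q := (dvd_mul_right _ _).trans hQQ
  have d2 : 32 * QX ∣ Q := (dvd_mul_left _ _).trans hQQ
  have he0 : 0 < ρ * e := mul_pos hρ he
  filter_upwards [T3 Q d1 hQ n₁' hn₁', h8_big he0 hQ n₁', h8_big he0 hQ nB, h8_big he0 hQ nX, h8_big he0 hQ nb] with n T3 k1 k2 k3 k4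
  intro G hG ν hν
  rw [← hkv] at hν
  obtain ⟨hSo, hWt, hSu⟩ := T3 G hG ν hν
  obtain ⟨SA, SB, hAB⟩ := HB hG k2 hK8 hKth (m8 K e n / Z) ((Nat.div_le_self _ _).trans (Nat.le_add_right _ _))
  have dh : 32 * QX ∣ h8 Q (ρ * e) n := d2.trans (dvd_mul_right _ _)
  have dT : ∀ j, 32 * QX ∣ Tg (h8 Q (ρ * e) n) K j := fun j => by
    unfold Tg
    split_ifs
    · exact dvd_zero _
    · exact (dh.mul_left 2).mul_right _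
  obtain ⟨SX, mX, oX, pX', fX⟩ := HX (Tg (h8 Q (ρ * e) n) K) (cm45 G) 2 (m8 K e n / Z) (fun j _ _ => dT j)
    (fun j h1 _ => k3.trans (le_T45 (by omega) (by omega)))
  have hFB := HFB hG k4 hK8 hKth ((dvd_mul_right 32 QX).trans dh) (m8 K e n / Z) n₁' k1 hAB mX oX pX'
    (FX := FX45 μ s c ⟨c', PX, dX, UX, qX⟩ GX KX (Tg (h8 Q (ρ * e) n) K) (cm45 G)) (fun j h1 h2 z ζ hζ => fX j h1 h2 z ζ hζ)
    (sg45 μ s d th o p.Q ⟨P₀, ck, ck, Q₀, S₀⟩ (Tg (h8 Q (ρ * e) n) K) (cm45 G) (m₀ + m₁) φ v v₁ (kst / 8)) rfl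
  refine ⟨_, _, _, SA, SB, SX, _, _, _, _, _, _, hFB, fun Γ hΓ => ⟨hSo Γ hΓ, ?_, ?_⟩⟩
  · have h1 := hWt Γ hΓ
    rw [hkv] at h1
    exact h1
  · have h1 := hSu Γ hΓ
    rw [hkv] at h1
    intro l hl hlm c'' hc'' η b1 b2 b3 b4 b5
    obtain ⟨-, b6, b7, b8⟩ := b3
    exact h1 l hl hlm c'' hc'' η b1 b2 (hAB.fA l hl hlm _ _ b6) (hAB.fB l hl hlm _ _ b6 b7) (fX l hl hlm _ _ b8) b4 b5

end

end Pool.Agent.W_7d29a1_C1.F45
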