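import Pool.Agent.W_7d29a1_C1.ShlC8
import Pool.Agent.W_7d29a1_C1.AsmH54

/-!
MP_7d29a1_pr, attractor route (helper8): the result of the exchange at one tilt from the two leaves.
-/

set_option autoImplicit false

namespace Pool.Agent.W_7d29a1_C1.H8

open MeasureTheory
open Pool.Agent.W_7d29a1_F Pool.Agent.W_7d29a1_h4g Pool.Agent.W_7d29a1_H Pool.Agent.W_7d29a1_HS
open Pool.Agent.W_7d29a1_C1.H60
open Pool.Agent.W_7d29a1_C1.H54 (PhC ShC)

variable {μ : Measure ℝ} [IsProbabilityMeasure μ] {s : ℝ} {c C : ℝ} {n₀ : ℕ}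

/-- **THE RESULT OF THE EXCHANGE FROM THE TWO LEAVES.** -/
theorem lec_two8 (hI : In μ s c C n₀) {c₁ c₃ : ℝ} (hN : NuS8 μ s c₁ c₃) (hF : FrS8 μ s c c₁ c₃ PhC ShC) : LecQ μ s PhC ShC :=
  have hT : TF μ PhC ShC := tfS68 hI.em Ch87.meas_chiC Ch87.chiC_nonneg Ch87.chiC_le_one
  lecQ_of8 hI hT (shlG_red8 hI (shlR_of8 hT hN hF))

end Pool.Agent.W_7d29a1_C1.H8
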