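import Pool.Agent.W_7d29a1_C1.MainT29
import Pool.Agent.W_7d29a1_C1.ShlZ8
import Pool.Agent.W_7d29a1_C1.ShlF45
import Pool.Agent.W_7d29a1_C1.ShlN51
import Pool.Agent.W_7d29a1_C1.RcN6
import Pool.Agent.W_7d29a1_C1.SepZ2
import Pool.Agent.W_7d29a1_C1.NeZ5
import Pool.Agent.W_7d29a1_C1.HtI16
import Pool.Agent.W_7d29a1_C1.LvEC86
import Pool.Agent.W_7d29a1_C1.NmE15
import Pool.Agent.W_7d29a1_C1.LfC19
import Pool.Agent.W_7d29a1_C1.WqD98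
import Pool.Agent.W_7d29a1_C1.PiC86
import Pool.Agent.W_7d29a1_C1.LsBIn10
import Pool.Agent.W_7d29a1_C1.LsS7
import Pool.Agent.W_7d29a1_C1.LsU31
import Pool.Agent.W_7d29a1_C1.LsW5
import Pool.Agent.W_7d29a1_C1.Tilt57B
import Pool.Agent.W_7d29a1_C1.Str78

/-!
MP_7d29a1_pr, attractor route [C1] (helper91): THE ROOT, version 6. What is left of the whole route is the structure `Opn91`:
one place of the fourth piece of the fresh ball (`lP`).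
`hX91` is the input of `main_T29`.
-/

set_option autoImplicit false

namespace Pool.Agent.W_7d29a1_C1.R91

open MeasureTheory Filter
open Pool.Agent.W_7d29a1_F Pool.Agent.W_7d29a1_H Pool.Agent.W_7d29a1_HS
open Pool.Agent.W_7d29a1_LB
open Pool.Agent.W_7d29a1_h47 (EM Nondeg)
open Pool.Agent.W_7d29a1_C1.H8 Pool.Agent.W_7d29a1_C1.H54 Pool.Agent.W_7d29a1_C1.H60
open Pool.Agent.W_7d29a1_C1.Nu51 (TdQ51 nuS8_51)
open Pool.Agent.W_7d29a1_C1.Ns6 (tdN6)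
open Pool.Agent.W_7d29a1_C1.Hp2 (LastQ2 sepQ51_of2)
open Pool.Agent.W_7d29a1_C1.F45 (frT_of45 lsBIn10 lsW5)
open Pool.Agent.W_7d29a1_C1.Lt44 (LsP44)
open Pool.Agent.W_7d29a1_C1.U31 (lsU31)
open Pool.Agent.W_7d29a1_C1.N7 (lsS7)
open Pool.Agent.W_7d29a1_C1.Nbr78 (str78)
open Pool.Agent.W_7d29a1_C1.Tl57 (ee9_57)
open Pool.Agent.W_7d29a1_C1.P25 Pool.Agent.W_7d29a1_C1.N49 Pool.Agent.W_7d29a1_C1.D98 Pool.Agent.W_7d29a1_C1.Q49
open Pool.Agent.W_7d29a1_C1.SF98 Pool.Agent.W_7d29a1_C1.Cs2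
open Pool.Agent.W_7d29a1_C1.WrS19 Pool.Agent.W_7d29a1_C1.WrM19 Pool.Agent.W_7d29a1_C1.WrW19 Pool.Agent.W_7d29a1_C1.WrF19

noncomputable section

/-- **WHAT IS LEFT OF THE WHOLE ROUTE** at one tilt. -/
structure Opn91 (μ : Measure ℝ) [IsProbabilityMeasure μ] (s c : ℝ) : Prop where
  lP : LsP44 μ s c

variable {μ : Measure ℝ} [IsProbabilityMeasure μ] {s c C : ℝ} {n₀ : ℕ}

/-- The leaf of separation: `wqD98` (helper98), `piC86` (helper86), `lfC19` (helper19), `sl92` (helper92). -/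
theorem sl91 (hI : In μ s c C n₀) (a Cg : ℝ) : SlQ2 μ s c a Cg (fun ε => S0 μ s c C ε) fun F P => LfF F P μ := by
  obtain ⟨K₀, HP⟩ := PiC86.piC86 hI (ee9_57 hI) (a := a) (Cg := Cg)
  refine ⟨K₀, fun D h1 h2 h3 ε hε => ?_⟩
  obtain ⟨xF, hW⟩ := wqD98 hI D ε
  obtain ⟨R, hR, hP⟩ := HP D h1 h2 h3 ε hε
  exact Pool.Agent.W_7d29a1_C1.LfC19.lfC19 (Nm := fun K => K.Nm μ s c ε) (xF := xF) (R := R) hI (ee9_57 hI)
    (sg2.mono fun K h => ⟨h.pG, h.pL⟩) okE2 hW hR hP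

/-- **SEPARATION AND TAMENESS.** -/
theorem last91 (hI : In μ s c C n₀) (a Cg : ℝ) : LastQ2 μ s a Cg :=
  lastQ2_of (S := fun ε => S0 μ s c C ε) (fun ε hε => neS0 hI hε) (htQ2_of (Pool.Agent.W_7d29a1_C1.U16.htQ16 hI (by norm_num)))
    (Pool.Agent.W_7d29a1_C1.PL86.lvQ86 hI (ee9_57 hI) fun _ _ _ => okE2) (sl91 hI a Cg)

/-- The towers: tameness and determinism (helper6). -/
theorem td91 (hI : In μ s c C n₀) : TdQ51 μ s (c / 512) (c / 64) :=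
  have hc := hI.c0
  tdN6 hI (by linarith) (by linarith)

/-- **THE RESULT OF THE EXCHANGE FROM THE ROOT.** -/
theorem lec91 (hE : EM μ) (hN : Nondeg μ) (hI : In μ s c C n₀) (h : Opn91 μ s c) : LecQ μ s PhC ShC := by
  have hTF : TF μ PhC ShC := tfS68 hI.em Ch87.meas_chiC Ch87.chiC_nonneg Ch87.chiC_le_one
  exact lec_two8 hI (nuS8_51 hI (sepQ51_of2 hI fun a Cg _ _ => last91 hI a Cg) (td91 hI))
    (frS_of8 hI (str78 hI (lb_all hE hN s) (ub_all29 hE hN s)) (ee9_57 hI) (fun Γ hΓ η => (abs_nonneg _).trans (hTF.le Γ hΓ η))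
      (frT_of45 hI (lsBIn10 hI) (lsS7 hI (ee9_57 hI)) (lsW5 hI (ee9_57 hI) _ _) (lsU31 hI (ee9_57 hI) h.lP _ _)))

/-- **THE INPUT OF THE LAST ASSEMBLY FROM THE ROOT.** -/
theorem hX91 (H : ∀ (μ : Measure ℝ) [IsProbabilityMeasure μ], EM μ → Nondeg μ → ∀ (s c C : ℝ) (n₀ : ℕ), In μ s c C n₀ → Opn91 μ s c) :
    ∀ (μ : Measure ℝ) [IsProbabilityMeasure μ], EM μ → Nondeg μ → ∀ s, LecQ μ s PhC ShC := by
  intro μ _ hE hN s
  obtain ⟨c, C, n₀, hI⟩ := in_tilt hE hN s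
  exact lec91 hE hN hI (H μ hE hN s c C n₀ hI)

/-- Nothing else is asked by the last assembly. -/
theorem chk91 (H : ∀ (μ : Measure ℝ) [IsProbabilityMeasure μ], EM μ → Nondeg μ → ∀ (s c C : ℝ) (n₀ : ℕ), In μ s c C n₀ → Opn91 μ s c)
    (μ : Measure ℝ) [IsProbabilityMeasure μ] (hE : EM μ) (hN : Nondeg μ) (s : ℝ) : LMR54 μ s :=
  lmrY17 hE hN (hX91 H μ hE hN s)

end

end Pool.Agent.W_7d29a1_C1.R91
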