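import Pool.Agent.W_7d29a1_C1.SucP44
import Pool.Agent.W_7d29a1_C1.KEw24

/-!
MP_7d29a1_pr, attractor route [C1], SHELL, SIDE F: THE ROWS AND THE BOXES OF `LsP44`. (helper9)

Rows `c0 = z - T + 1`, `c0' = cF`, `r1 = c0' + Q j1 k = c0 + n1`, `e = z + 5 T / 8 = r1 + n'`, `rg = e + t`, `re = e + 6 t`, `r2 = e + 7 t`,
`c3 = e + 12 t + 1 = z + T + 1`, `T = 32 t`; `na = n' + t`, `ng = 5 t`, `nb = t`, `n3 = 5 t + 1`.

* `n1_le9` : `n145 ≤ T`; `Rw9`, **`rw9`** : all the row equations; `box9`, `boxE9` : the columns of `kEj24` from `Bx44`; `zm9` : the column of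
  the row `c3`; `k09` : the envelope of `So47` as `kap31` over the line of the box.
-/

set_option autoImplicit false

namespace Pool.Agent.W_7d29a1_C1.Lt9

open MeasureTheory Finset
open Pool.Agent.W_7d29a1_F Pool.Agent.W_7d29a1_h4g Pool.Agent.W_7d29a1_H Pool.Agent.W_7d29a1_HS
open Pool.Agent.W_7d29a1_C1.T10 (kF cF)
open Pool.Agent.W_7d29a1_C1.JnC35 (ln35)
open Pool.Agent.W_7d29a1_C1.D31 (kap31 kapo31 cutn)
open Pool.Agent.W_7d29a1_C1.Fr47 (NS47)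
open Pool.Agent.W_7d29a1_C1.F45
open Pool.Agent.W_7d29a1_C1.H8 (sg8 zc8)
open Pool.Agent.W_7d29a1_C1.P24 (rE24)
open Pool.Agent.W_7d29a1_C1.Lt44 (Bx44)

noncomputable section

/-! ### The rows -/

/-- **The first buffer and the typical rows have at most `(1 - th / 8) T` rows.** -/
theorem n1_le9 {c d th K0 : ℝ} {o : LnO} {Q : ℕ} {T : ℕ → ℕ} {j : ℕ} (hth : 0 < th) (hth4 : th ≤ 1 / 4) (ho : o.Ok (lnI c d th K0))
    (hQ : 1 ≤ Q) : (n145 th o Q T j : ℝ) ≤ (1 - th / 8) * T j := by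
  obtain ⟨R, hR⟩ : ∃ R : ℕ, R = R145 o Q := ⟨_, rfl⟩
  have hR1 : 1 ≤ R := by rw [hR]; exact R145_pos ho hQ
  have hRr : (0 : ℝ) < R := by exact_mod_cast hR1
  obtain ⟨k, hk⟩ : ∃ k : ℕ, k = kF th R (T j) := ⟨_, rfl⟩
  have hT0 : (0 : ℝ) ≤ T j := Nat.cast_nonneg _
  have h1 : (k : ℝ) ≤ (1 - th / 4) * T j / R := by
    rw [hk]
    unfold kF
    exact Nat.floor_le (div_nonneg (mul_nonneg (by linarith) hT0) hRr.le)
  have h2 : (R : ℝ) * k ≤ (1 - th / 4) * T j := by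
    rw [le_div_iff₀ hRr] at h1
    linarith
  have hj : 1 ≤ th / 8 * (o.j2 : ℝ) := ho.j2'
  have h3 : ((Q * o.j1 : ℕ) : ℝ) ≤ th / 8 * R := by
    have e : (R : ℝ) = (Q : ℝ) * ((o.j2 : ℝ) * ((o.a : ℝ) + o.j1)) := by
      rw [hR]
      unfold R145
      push_cast
      ring
    rw [e]
    push_cast
    have q0 : (0 : ℝ) ≤ Q := Nat.cast_nonneg _
    have a0 : (0 : ℝ) ≤ o.a := Nat.cast_nonneg _
    have j0 : (0 : ℝ) ≤ o.j1 := Nat.cast_nonneg _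
    have g1 : (o.j1 : ℝ) ≤ th / 8 * (o.j2 : ℝ) * ((o.a : ℝ) + o.j1) := by
      have := mul_le_mul_of_nonneg_right hj (show (0 : ℝ) ≤ (o.a : ℝ) + o.j1 by linarith)
      linarith
    have := mul_le_mul_of_nonneg_left g1 q0
    calc (Q : ℝ) * o.j1 ≤ Q * (th / 8 * (o.j2 : ℝ) * ((o.a : ℝ) + o.j1)) := this
      _ = _ := by ring
  have h4 : ((n145 th o Q T j : ℕ) : ℝ) = (R : ℝ) * k + ((Q * o.j1 : ℕ) : ℝ) * k := by
    unfold n145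
    rw [← hR, ← hk]
    push_cast
    ring
  rw [h4]
  have k0 : (0 : ℝ) ≤ k := Nat.cast_nonneg _
  have h5 : ((Q * o.j1 : ℕ) : ℝ) * k ≤ th / 8 * (R * k) := by
    have := mul_le_mul_of_nonneg_right h3 k0
    linarith
  have h6 : th / 8 * (R * k) ≤ th / 8 * ((1 - th / 4) * T j) := mul_le_mul_of_nonneg_left h2 (by linarith)
  have h7 : th / 8 * ((1 - th / 4) * T j) ≤ th / 8 * T j := by
    refine mul_le_mul_of_nonneg_left ?_ (by linarith)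
    have : 0 ≤ th / 4 * (T j : ℝ) := by positivity
    linarith
  linarith

/-- **THE ROWS OF ONE PLACE.** `Tj = T j`, `z1` = the row of the place, `Γk` free. -/
structure Rw9 (Tj z1 c0 c0' r1 e c3 n1 n' t : ℕ) : Prop where
  ht : Tj = 32 * t
  t1 : 1 ≤ t
  d32 : Tj / 32 = t
  d8 : Tj / 8 = 4 * t
  d58 : 5 * Tj / 8 = 20 * t
  rE : rE24 Tj = 20 * t
  c0z : c0 + Tj = z1 + 1
  c3z : c3 = z1 + Tj + 1
  n1T : n1 ≤ Tj
  c0n : c0 + n1 = r1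
  c0c : c0 ≤ c0'
  r1c : c0' ≤ r1
  r1z : r1 ≤ z1 + 1
  rn : r1 + n' = e
  ne : n' = e - r1
  ez : e = z1 + 20 * t
  ce : c0 + Tj ≤ e
  c0n' : c0 + n1 + n' = e
  c3e : c3 = e + 6 * t + t + (5 * t + 1)
  c3c : c3 - c0 = 2 * Tj
  rg : c0 + n1 + (n' + t) = e + t
  re : c0 + n1 + (n' + t) + 5 * t = e + 6 * t
  r2 : c0 + n1 + (n' + t) + 5 * t + t = e + 6 * t + t
  r3 : c0 + n1 + (n' + t) + 5 * t + t + (5 * t + 1) = c3
  sum : n1 + (n' + t) + 5 * t + t + (5 * t + 1) = 2 * Tj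
  D : n1 + (n' + t) + 5 * t + 1 = Tj + (5 * (Tj / 8) + 6 * (Tj / 32))
  c3n : r1 + n' + t + 1 ≤ c3
  Tn : Tj ≤ n1 + n'
  n8 : Tj ≤ 8 * (n1 + (n' + t))

/-- The rows, from `n1 ≤ T`. -/
theorem rw9_of {Tj z1 c0 c0' r1 e c3 n1 n' t : ℕ} (h32 : 32 ∣ Tj) (hT : 32 ≤ Tj) (hz : Tj ≤ z1) (h0 : c0 = z1 - Tj + 1) (h3 : c3 = z1 + Tj + 1)
    (hn1 : n1 ≤ Tj) (hr : r1 = c0 + n1) (hc : c0 ≤ c0') (hc' : c0' ≤ r1) (he : e = z1 + 5 * Tj / 8) (hn' : n' = e - r1) (ht : t = Tj / 32) :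
    Rw9 Tj z1 c0 c0' r1 e c3 n1 n' t := by
  obtain ⟨m, rfl⟩ := h32
  have e1 : 32 * m / 32 = m := by omega
  have e2 : 32 * m / 8 = 4 * m := by omega
  have e3 : 5 * (32 * m) / 8 = 20 * m := by omega
  have e4 : rE24 (32 * m) = 20 * m := by
    unfold rE24
    omega
  rw [e1] at ht
  rw [e3] at he
  subst ht
  refine ⟨rfl, ?_, e1, e2, e3, e4, ?_, ?_, ?_, ?_, ?_, ?_, ?_, ?_, ?_, ?_, ?_, ?_, ?_, ?_, ?_, ?_, ?_, ?_, ?_, ?_, ?_, ?_, ?_⟩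
  all_goals omega

/-- **THE ROWS OF `LsP44`.** -/
theorem rw9 {μ : Measure ℝ} {s c d th K0 : ℝ} {o : LnO} {Q : ℕ} {k : KE45} {T : ℕ → ℕ} {cm : ℕ → ℤ} {j m₂ : ℕ} {φ v v₁ g₂ : ℝ} {z : ℕ × ℤ}
    (hth : 0 < th) (hth4 : th ≤ 1 / 4) (ho : o.Ok (lnI c d th K0)) (hQ : 1 ≤ Q) (h32 : 32 ∣ T j) (hT : 32 ≤ T j) (hz : T j ≤ z.1) :
    Rw9 (T j) z.1 ((sg45 μ s d th o Q k T cm m₂ φ v v₁ g₂).c0 j z) (cF th (R145 o Q) z.1 (T j))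
      (cF th (R145 o Q) z.1 (T j) + Q * o.j1 * kF th (R145 o Q) (T j)) (z.1 + 5 * T j / 8) ((sg45 μ s d th o Q k T cm m₂ φ v v₁ g₂).c3 j z)
      (n145 th o Q T j) (z.1 + 5 * T j / 8 - (cF th (R145 o Q) z.1 (T j) + Q * o.j1 * kF th (R145 o Q) (T j))) (T j / 32) := by
  have h1 : n145 th o Q T j ≤ T j := by
    have h := n1_le9 (T := T) (j := j) hth hth4 ho hQ
    have h0 : (0 : ℝ) ≤ T j := Nat.cast_nonneg _
    have h2 : (n145 th o Q T j : ℝ) ≤ T j := by nlinarith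
    exact_mod_cast h2
  refine rw9_of h32 hT hz rfl rfl h1 ?_ ?_ ?_ rfl rfl rfl
  · show cF th (R145 o Q) z.1 (T j) + Q * o.j1 * kF th (R145 o Q) (T j) = z.1 - T j + 1 + n145 th o Q T j
    unfold cF n145
    ring
  · show z.1 - T j + 1 ≤ cF th (R145 o Q) z.1 (T j)
    unfold cF
    omega
  · omega

/-! ### The columns -/

section cols

variable {μ : Measure ℝ} {s ρ : ℝ} {T : ℕ} {z : ℕ × ℤ} {κ : Pt}

/-- **A site near the line is in the box.** -/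
theorem box9 (B : Bx44 μ s T z κ ρ) {K : ℝ} (hK : K ≤ ρ) (hw : 0 ≤ wd μ s T) {k N : ℕ} (hk : z.1 ≤ k + T) (hN : k ≤ N) {v : ℤ}
    (hv : |(v : ℝ) - ln35 μ s κ k| ≤ K * wd μ s T) : 0 ≤ v ∧ v ≤ (N : ℤ) := by
  obtain ⟨h1, h2⟩ := B k v hk (hv.trans (mul_le_mul_of_nonneg_right hK hw))
  exact ⟨h1, h2.trans (by exact_mod_cast hN)⟩

/-- **THE TWO BOX CONDITIONS OF `kEj24`**, `lo = 0`, `H = Γk + c0 + n1 + na`. -/
theorem boxE9 (B : Bx44 μ s T z κ ρ) (hρ : 2 ≤ ρ) (hw : 0 ≤ wd μ s T) {c0 c0' r1 e c3 n1 n' t : ℕ} (W : Rw9 T z.1 c0 c0' r1 e c3 n1 n' t)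
    (Γk : ℕ) :
    (∀ v : ℤ, |(v : ℝ) - ln35 μ s κ (e + 6 * t)| ≤ wd μ s T →
      0 ≤ v ∧ v ≤ ((Γk + c0 : ℕ) : ℤ) + n1 + (n' + t : ℕ) + (5 * t : ℕ)) ∧
    (∀ v : ℤ, |(v : ℝ) - ln35 μ s κ (e + 6 * t + t)| ≤ 2 * wd μ s T →
      0 ≤ v ∧ v ≤ ((Γk + c0 : ℕ) : ℤ) + n1 + (n' + t : ℕ) + (5 * t : ℕ) + (t : ℕ)) := by
  have g1 := W.re
  have g2 := W.ez
  constructor
  · intro v hv
    have := box9 (K := 1) (N := e + 6 * t) B (by linarith) hw (by omega) le_rfl (by rwa [one_mul])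
    refine ⟨this.1, this.2.trans ?_⟩
    push_cast
    omega
  · intro v hv
    have := box9 (K := 2) (N := e + 6 * t + t) B hρ hw (by omega) le_rfl hv
    refine ⟨this.1, this.2.trans ?_⟩
    push_cast
    omega

end cols

section env

variable {μ : Measure ℝ} {s d th : ℝ} {o : LnO} {Q : ℕ} {k : KE45} {T : ℕ → ℕ} {cm : ℕ → ℤ} {j m₂ : ℕ} {φ v v₁ g₂ : ℝ} {z : ℕ × ℤ}

/-- The line of the box at the row `c0`. -/
theorem ln9_0 (hz : T j ≤ z.1) : ln35 μ s ((z.1 : ℤ), z.2 + cm j) ((sg45 μ s d th o Q k T cm m₂ φ v v₁ g₂).c0 j z) =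
    (z.2 : ℝ) + ((cm j : ℝ) + sl μ s * (1 - (T j : ℝ))) := by
  have e : (((sg45 μ s d th o Q k T cm m₂ φ v v₁ g₂).c0 j z : ℕ) : ℤ) = (z.1 : ℤ) - T j + 1 := by
    show ((z.1 - T j + 1 : ℕ) : ℤ) = _
    omega
  unfold ln35
  rw [e]
  push_cast
  ring

/-- The line of the box at the row `c3`. -/
theorem ln9_3 : ln35 μ s ((z.1 : ℤ), z.2 + cm j) ((sg45 μ s d th o Q k T cm m₂ φ v v₁ g₂).c3 j z) =
    (z.2 : ℝ) + ((cm j : ℝ) + sl μ s * ((T j : ℝ) + 1)) := by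
  have e : (((sg45 μ s d th o Q k T cm m₂ φ v v₁ g₂).c3 j z : ℕ) : ℤ) = (z.1 : ℤ) + T j + 1 := by
    show ((z.1 + T j + 1 : ℕ) : ℤ) = _
    push_cast
    ring
  unfold ln35
  rw [e]
  push_cast
  ring

/-- **The column of the row `c3`** (`zm` of `kEj24`). -/
theorem zm9 : |((z.2 + (sg45 μ s d th o Q k T cm m₂ φ v v₁ g₂).ζc j : ℤ) : ℝ) -
    ln35 μ s ((z.1 : ℤ), z.2 + cm j) ((sg45 μ s d th o Q k T cm m₂ φ v v₁ g₂).c3 j z)| ≤ 1 := by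
  rw [ln9_3]
  have e : (sg45 μ s d th o Q k T cm m₂ φ v v₁ g₂).ζc j = cm j + ⌊sl μ s * ((T j : ℝ) + 1)⌋ := rfl
  rw [e]
  have f1 := Int.floor_le (sl μ s * ((T j : ℝ) + 1))
  have f2 := Int.lt_floor_add_one (sl μ s * ((T j : ℝ) + 1))
  push_cast
  rw [abs_le]
  constructor <;> linarith

/-- **THE ENVELOPE OF `So47` OVER THE LINE OF THE BOX.** -/
theorem k09 (hz : T j ≤ z.1) (y x : ℤ) : (sg45 μ s d th o Q k T cm m₂ φ v v₁ g₂).k0 j z y x =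
    kap31 k.P k.c₁ k.c₃ k.Q k.S (EE μ s (T j)) (wd μ s (T j))
      (ln35 μ s ((z.1 : ℤ), z.2 + cm j) ((sg45 μ s d th o Q k T cm m₂ φ v v₁ g₂).c0 j z))
      (ln35 μ s ((z.1 : ℤ), z.2 + cm j) ((sg45 μ s d th o Q k T cm m₂ φ v v₁ g₂).c3 j z)) (2 * T j) y x := by
  rw [ln9_0 hz, ln9_3]
  show kap31 k.P k.c₁ k.c₃ k.Q k.S (EE μ s (T j)) (wd μ s (T j)) ((cm j : ℝ) + sl μ s * (1 - (T j : ℝ)))
    ((cm j : ℝ) + sl μ s * ((T j : ℝ) + 1)) (2 * T j) (y - z.2) (x - z.2) = _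
  have e1 : ((y - z.2 : ℤ) : ℝ) - ((cm j : ℝ) + sl μ s * (1 - (T j : ℝ))) = (y : ℝ) - ((z.2 : ℝ) + ((cm j : ℝ) + sl μ s * (1 - (T j : ℝ)))) := by
    push_cast
    ring
  have e2 : ((x - z.2 : ℤ) : ℝ) - ((cm j : ℝ) + sl μ s * ((T j : ℝ) + 1)) = (x : ℝ) - ((z.2 : ℝ) + ((cm j : ℝ) + sl μ s * ((T j : ℝ) + 1))) := by
    push_cast
    ring
  unfold kap31 cutn kapo31
  simp only [e1, e2]
  have e3 : (y - z.2 ≤ x - z.2 ∧ x - z.2 ≤ y - z.2 + ((2 * T j : ℕ) : ℤ)) ↔ (y ≤ x ∧ x ≤ y + ((2 * T j : ℕ) : ℤ)) := by omega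
  simp only [e3]

end env

end

end Pool.Agent.W_7d29a1_C1.Lt9
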