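import Pool.Agent.W_7d29a1_C1.RowS83

/-!
Both halves (MP_7d29a1_pr), attractor route: THE CONTACTS OF ONE ROW, for every environment and without any hypothesis:
`∑ x, ws (i, x) ≤ p i * (3 + 4 log (N + 1))`. The one step ratio of the past at a contact of weight `≥ exp (- X)` is at most `exp X`, because
both neighbours of the cut see the same future in the frame of the contact (helper83).
-/

set_option autoImplicit false

namespace Pool.Agent.W_7d29a1_C1.H83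

open Finset MeasureTheory
open Pool.Agent.W_7d29a1_F
open Pool.Agent.W_7d29a1_C1.K91 (Box Grp cut zs jn wt wt_pos measurable_wt sum_shift ps2)
open Pool.Agent.W_7d29a1_C1.K91P Pool.Agent.W_7d29a1_C1.H60
open Pool.Agent.W_7d29a1_C1.L91 (Msk Nb fC)

noncomputable section

variable {Γ : Cx} {η : Env} {i : ℕ} {x : ℤ} {X : ℝ}

/-- The ratios of the past at a contact of the row `i`. -/
theorem past83 (hG : Msk Γ) (hx1 : 1 ≤ x) (hx2 : x ≤ 1 + (Γ.N : ℤ)) (h : Γ.p i * Real.exp (-X) ≤ Γ.ws (i, x) η) :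
    Ar Γ η i x ≤ Real.exp X * Ar Γ η i (x - 1) ∧ Br Γ η i (x - 1) ≤ Real.exp X * Br Γ η i x := by
  have hk := hG.k1
  have hR := rw83 (η := η) (i := i) hG
  have hpi := p_pos (Γ := Γ) i
  rw [ws_tq] at h
  have h0 : Real.exp (-X) ≤ tq (Ar Γ η i) (Br Γ η i) (GG (wt η) Γ.p Γ.N i) (Ur Γ η i) (Vr Γ η i) x := le_of_mul_le_mul_left h hpi
  have t := tq_le hR hx1 hx2
  have s1 := h0.trans t.1
  have s2 := h0.trans t.2.1
  have g := hR.G0 (x - 1)
  have U1 := hR.U0 x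
  have V1 := hR.V0 x
  have e0 : Real.exp (-X) * Real.exp X = 1 := by rw [← Real.exp_add, neg_add_cancel, Real.exp_zero]
  have eX := Real.exp_pos X
  have hu : Ar Γ η i x * GG (wt η) Γ.p Γ.N i (x - 1) ≤ Ur Γ η i x := by
    have h := zs_ge (S := Icc 0 Γ.hi) (q := x) (y := x) (fw_nonneg (p := Γ.p) (wt_pos η) p_pos l_nonneg i) (wt_pos η i)
      (GG_pos (N := Γ.N) (wt_pos η) (p_pos (Γ := Γ)) i) (by
        rw [mem_Icc]
        unfold Cx.hi
        omega)
    rwa [if_neg (show ¬ x < x by omega)] at h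
  have hv : Br Γ η i (x - 1) * GG (wt η) Γ.p Γ.N i (x - 1) ≤ Vr Γ η i x := by
    have h := zs_ge (S := Icc 0 Γ.hi) (q := x) (y := x - 1) (fw_nonneg (p := Γ.p) (wt_pos η) p_pos (r_nonneg hG.q0) i) (wt_pos η i)
      (GG_pos (N := Γ.N) (wt_pos η) (p_pos (Γ := Γ)) i) (by
        rw [mem_Icc]
        unfold Cx.hi
        omega)
    rwa [if_pos (show x - 1 < x by omega)] at h
  constructor
  · rw [le_div_iff₀ U1] at s1
    have h1 := (mul_le_mul_of_nonneg_left hu (Real.exp_pos (-X)).le).trans s1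
    have h2 : Real.exp (-X) * Ar Γ η i x ≤ Ar Γ η i (x - 1) := by
      have h3 : (Real.exp (-X) * Ar Γ η i x) * GG (wt η) Γ.p Γ.N i (x - 1) ≤
          Ar Γ η i (x - 1) * GG (wt η) Γ.p Γ.N i (x - 1) := by linarith
      exact le_of_mul_le_mul_right h3 g
    have h4 := mul_le_mul_of_nonneg_left h2 eX.le
    have e1 : Real.exp X * (Real.exp (-X) * Ar Γ η i x) = Ar Γ η i x := by
      rw [← mul_assoc, mul_comm (Real.exp X), e0, one_mul]
    linarith
  · rw [le_div_iff₀ V1] at s2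
    have h1 := (mul_le_mul_of_nonneg_left hv (Real.exp_pos (-X)).le).trans s2
    have h2 : Real.exp (-X) * Br Γ η i (x - 1) ≤ Br Γ η i x := by
      have h3 : (Real.exp (-X) * Br Γ η i (x - 1)) * GG (wt η) Γ.p Γ.N i (x - 1) ≤
          Br Γ η i x * GG (wt η) Γ.p Γ.N i (x - 1) := by linarith
      exact le_of_mul_le_mul_right h3 g
    have h4 := mul_le_mul_of_nonneg_left h2 eX.le
    have e1 : Real.exp X * (Real.exp (-X) * Br Γ η i (x - 1)) = Br Γ η i (x - 1) := by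
      rw [← mul_assoc, mul_comm (Real.exp X), e0, one_mul]
    linarith

/-- The row sum with a threshold. -/
theorem row_free (hG : Msk Γ) (hX : 0 ≤ X) : ∑ x ∈ Icc (1 : ℤ) (1 + (Γ.N : ℤ)), Γ.ws (i, x) η ≤
    Γ.p i * (2 + 4 * X + ((Γ.N : ℝ) + 1) * Real.exp (-X)) := by
  have h := row_sum83 (η := η) (i := i) hG hX hX fun x h1 h2 h3 => past83 hG h1 h2 h3
  refine h.trans (le_of_eq ?_)
  ring

/-- **THE ROW SUM, FREE**: for every environment, every row, every context. -/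
theorem row_log (hG : Msk Γ) (η : Env) (i : ℕ) : ∑ x ∈ Icc (1 : ℤ) (1 + (Γ.N : ℤ)), Γ.ws (i, x) η ≤
    Γ.p i * (3 + 4 * Real.log ((Γ.N : ℝ) + 1)) := by
  have h0 : (1 : ℝ) ≤ (Γ.N : ℝ) + 1 := by
    have : (0 : ℝ) ≤ Γ.N := Nat.cast_nonneg _
    linarith
  have h := row_free (Γ := Γ) (η := η) (i := i) hG (X := Real.log ((Γ.N : ℝ) + 1)) (Real.log_nonneg h0)
  have e : ((Γ.N : ℝ) + 1) * Real.exp (-Real.log ((Γ.N : ℝ) + 1)) = 1 := by
    rw [Real.exp_neg, Real.exp_log (by linarith)]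
    exact mul_inv_cancel₀ (by linarith)
  rw [e] at h
  refine h.trans (le_of_eq ?_)
  ring

/-- The contacts of the rows `a ≤ i < b`, for every environment. -/
theorem rows_log (hG : Msk Γ) (η : Env) {a b : ℕ} {P : ℝ} (hP : ∀ i, a ≤ i → i < b → Γ.p i ≤ P) :
    ∑ c ∈ Γ.rows a b, Γ.ws c η ≤ ((b - a : ℕ) : ℝ) * (P * (3 + 4 * Real.log ((Γ.N : ℝ) + 1))) := by
  have h0 : (1 : ℝ) ≤ (Γ.N : ℝ) + 1 := by
    have : (0 : ℝ) ≤ Γ.N := Nat.cast_nonneg _
    linarith
  have h1 : 0 ≤ 3 + 4 * Real.log ((Γ.N : ℝ) + 1) := by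
    have := Real.log_nonneg h0
    positivity
  unfold Cx.rows
  rw [sum_product]
  calc ∑ i ∈ Ico a b, ∑ x ∈ Icc (1 : ℤ) (1 + (Γ.N : ℤ)), Γ.ws (i, x) η
      ≤ ∑ _i ∈ Ico a b, P * (3 + 4 * Real.log ((Γ.N : ℝ) + 1)) := by
        refine sum_le_sum fun i hi => ?_
        rw [mem_Ico] at hi
        exact (row_log hG η i).trans (mul_le_mul_of_nonneg_right (hP i hi.1 hi.2) h1)
    _ = _ := by rw [sum_const, Nat.card_Ico, nsmul_eq_mul]

end

end Pool.Agent.W_7d29a1_C1.H83
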