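import Pool.Agent.W_7d29a1_C1.InC10
import Pool.Agent.W_7d29a1_C1.ELx60
import Pool.Agent.W_7d29a1_C1.LvF60
import Pool.Agent.W_7d29a1_C1.SetB10

/-!
MP_7d29a1_pr, [C1], SHELL, THE FRESH BALL (helper10; list of helper47 87325 (6)). The five row intervals of the ball (`rF`, `rows5`) and the
event `FF10` of the rows `(c0', e]` for all the leaves of the box: levels `NR60`, end pieces `ELx60` at every place, a given event of the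
second buffer. Measurable, rows, probability (`fin10`), from the tails of the level events only (the same `P`).
-/

set_option autoImplicit false

namespace Pool.Agent.W_7d29a1_C1.T10

open MeasureTheory Filter Topology
open Pool.Agent.W_7d29a1_F Pool.Agent.W_7d29a1_h4g Pool.Agent.W_7d29a1_H Pool.Agent.W_7d29a1_HS
open Pool.Agent.W_7d29a1_C1.S71 Pool.Agent.W_7d29a1_C1.Sw9 Pool.Agent.W_7d29a1_C1.U16 Pool.Agent.W_7d29a1_C1.H60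
open Pool.Agent.W_7d29a1_C1 (On20)
open scoped ENNReal

noncomputable section

/-! ### The intervals of rows -/

/-- Consecutive intervals of rows. -/
def AI (r : ℕ → ℤ) (j : ℕ) : Set Pt := rows (r j) (r (j + 1))

theorem AI_disj {r : ℕ → ℤ} (hr : Monotone r) {j j' : ℕ} (h : j ≠ j') : Disjoint (AI r j) (AI r j') := by
  rcases lt_or_gt_of_ne h with h1 | h1
  · exact rows_disj10 (Or.inl (hr (show j + 1 ≤ j' by omega)))
  · exact rows_disj10 (Or.inr (hr (show j' + 1 ≤ j by omega)))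

theorem AI_sub {r : ℕ → ℤ} (hr : Monotone r) {j N : ℕ} (h : j < N) : AI r j ⊆ rows (r 0) (r N) :=
  rows_mono10 (hr (Nat.zero_le j)) (hr (show j + 1 ≤ N by omega))

/-- The boundaries: `zo - To, z - T, c0', e, z + T, zo + To`. -/
def rF (zo To z T c0 e : ℕ) : ℕ → ℤ
  | 0 => (zo : ℤ) - To
  | 1 => (z : ℤ) - T
  | 2 => c0
  | 3 => e
  | 4 => (z : ℤ) + T
  | _ + 5 => (zo : ℤ) + To

theorem rF_mono {zo To z T c0 e : ℕ} (h1 : (zo : ℤ) - To ≤ z - T) (h2 : (z : ℤ) - T ≤ c0) (h3 : c0 ≤ e) (h4 : e ≤ z + T)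
    (h5 : z + T ≤ zo + To) : Monotone (rF zo To z T c0 e) := by
  refine monotone_nat_of_le_succ fun j => ?_
  match j with
  | 0 => exact h1
  | 1 => exact h2
  | 2 =>
    show (c0 : ℤ) ≤ e
    exact_mod_cast h3
  | 3 =>
    show (e : ℤ) ≤ (z : ℤ) + T
    exact_mod_cast h4
  | 4 =>
    show (z : ℤ) + T ≤ (zo : ℤ) + To
    exact_mod_cast h5
  | j + 5 => exact le_rfl

variable {μ : Measure ℝ} {s : ℝ} {R C₀ : ℝ} {B h₀ K L : ℕ} {G : Gd}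

/-- **The boundaries of the fresh ball are ordered.** -/
theorem GW.rF_mono (g : GW μ s R B C₀ h₀ K L G) (hK : 8 ≤ K) {i m₂ : ℕ} (hi : 1 ≤ i) (hm : 1 ≤ m₂) (hL : i + m₂ ≤ L) {q₀ : ℕ × ℤ}
    (hz : Tg h₀ K (i + m₂) ≤ (G.z (i + m₂) q₀).1) {c0 : ℕ} (h1 : (G.z i q₀).1 - Tg h₀ K i ≤ c0) (h2 : c0 ≤ (G.z i q₀).1) :
    Monotone (rF (G.z (i + m₂) q₀).1 (Tg h₀ K (i + m₂)) (G.z i q₀).1 (Tg h₀ K i) c0 ((G.z i q₀).1 + 5 * Tg h₀ K i / 8)) := by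
  obtain ⟨a1, a2, -, -⟩ := g.low hK hi hm hL hz
  obtain ⟨a3, -, -⟩ := g.upp hK hi hm hL q₀
  refine Pool.Agent.W_7d29a1_C1.T10.rF_mono ?_ ?_ ?_ ?_ ?_ <;> omega

/-- **The ball.** -/
theorem ball_rows (G : Gd) (T : ℕ → ℕ) (t : ℕ) (q₀ : ℕ × ℤ) :
    At (G.x t q₀) (AT T t) = rows (((G.z t q₀).1 : ℤ) - T t) (((G.z t q₀).1 : ℤ) + T t) := At_AT _ _ _

/-- **The five intervals lie in the ball.** -/
theorem rF_sub {T : ℕ → ℕ} {t : ℕ} {q₀ : ℕ × ℤ} {z Tz c0 e : ℕ} (hr : Monotone (rF (G.z t q₀).1 (T t) z Tz c0 e)) {j : ℕ} (hj : j < 5) :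
    AI (rF (G.z t q₀).1 (T t) z Tz c0 e) j ⊆ At (G.x t q₀) (AT T t) := by
  rw [ball_rows]
  exact AI_sub hr hj

/-! ### The event of the leaves -/

/-- **THE EVENT OF THE ROWS `(c0', e]`** for all the leaves of the box `q₀` of level `i`. -/
def FF10 (μ : Measure ℝ) (s c θ Kw : ℝ) (P : ℕ) (G : Gd) (L Lm : ℕ) (T : ℕ → ℕ) (y : ℕ → ℝ) (i : ℕ) (q₀ : ℕ × ℤ) (r₀ r₁ : ℤ) (q : ℝ)
    (EB : Set Env) : Set Env :=
  (NR60 G L (LvE Lm (EL60 μ s c θ Kw P T y)) i (i - 2) q₀ ∩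
    {η | ∀ o ∈ G.subs (i - 1) i, sh (G.x i q₀) η ∈ ELx60 μ s c θ Kw P (2 * T i) (T (i - 1)) r₀ r₁ q o}) ∩ EB

variable [IsProbabilityMeasure μ] {c θ Kw : ℝ} {P Lm : ℕ} {T : ℕ → ℕ} {y : ℕ → ℝ} {i : ℕ} {q₀ : ℕ × ℤ} {r₀ r₁ : ℤ} {q : ℝ} {EB : Set Env}

theorem FF10_meas (hEB : MeasurableSet EB) : MeasurableSet (FF10 μ s c θ Kw P G L Lm T y i q₀ r₀ r₁ q EB) := by
  refine ((measurableSet_NR60 (measurable_LvE fun v o l => measurableSet_EL60 v o l) _ _ _).inter ?_).inter hEB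
  have e : {η | ∀ o ∈ G.subs (i - 1) i, sh (G.x i q₀) η ∈ ELx60 μ s c θ Kw P (2 * T i) (T (i - 1)) r₀ r₁ q o} =
      ⋂ o ∈ G.subs (i - 1) i, sh (G.x i q₀) ⁻¹' ELx60 μ s c θ Kw P (2 * T i) (T (i - 1)) r₀ r₁ q o := by
    ext η
    simp only [Set.mem_ofPred_eq, Set.mem_iInter, Set.mem_preimage]
  rw [e]
  exact Finset.measurableSet_biInter _ fun o _ => (measurableSet_ELx60 o).preimage (measurable_sh _)

/-- The end pieces read the rows `(r₀, r₁]` only. -/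
theorem ELx60_on {n Tb : ℕ} (hr : r₀ ≤ 0) (o : ℕ × ℤ) : On20 (rows r₀ r₁) (ELx60 μ s c θ Kw P n Tb r₀ r₁ q o) := by
  intro η η' he
  refine and_congr (Far16_rows fun p hp => he p ?_) (Far16_rows fun p hp => he p ?_)
  · have h1 : r₀ < p.1 := hp.1
    have h2 : p.1 ≤ r₀ + (min ((o.1 : ℤ) - Tb) r₁ - r₀).toNat := hp.2
    have h3 : p.1 ≤ r₁ := by
      rcases le_total 0 (min ((o.1 : ℤ) - Tb) r₁ - r₀) with h4 | h4
      · rw [Int.toNat_of_nonneg h4] at h2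
        have := min_le_right ((o.1 : ℤ) - Tb) r₁
        omega
      · rw [Int.toNat_of_nonpos h4] at h2
        omega
    exact ⟨h1, h3⟩
  · have h1 : (o.1 : ℤ) + Tb < p.1 := hp.1
    have h2 : p.1 ≤ (o.1 : ℤ) + Tb + (r₁ - ((o.1 : ℤ) + Tb)).toNat := hp.2
    exact ⟨by omega, by omega⟩

/-- **The event reads the rows `(c0', e]`.** -/
theorem GW.FF10_on (g : GW μ s R B C₀ h₀ K L G) {i : ℕ} (hi : 2 ≤ i) (hL : i ≤ L) (hK4 : 4 ≤ K) {c0 e : ℕ}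
    (h1 : c0 ≤ (G.z i q₀).1 - Tg h₀ K (i - 1)) (h1' : Tg h₀ K (i - 1) ≤ (G.z i q₀).1) (h2 : (G.z i q₀).1 + 5 * Tg h₀ K i / 8 ≤ e)
    (hr₀ : ((G.z i q₀).1 : ℤ) + r₀ = c0) (hr₁ : ((G.z i q₀).1 : ℤ) + r₁ = e) (hEB : On20 (rows (c0 : ℤ) (e : ℤ)) EB) :
    On20 (rows (c0 : ℤ) (e : ℤ)) (FF10 μ s c θ Kw P G L Lm (Tg h₀ K) y i q₀ r₀ r₁ q EB) := by
  have hT' : 4 * Tg h₀ K (i - 1) ≤ Tg h₀ K i := by
    have := g.Tpred (show 1 ≤ i by omega)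
    calc 4 * Tg h₀ K (i - 1) ≤ K * Tg h₀ K (i - 1) := Nat.mul_le_mul_right _ hK4
      _ ≤ Tg h₀ K i := this
  refine on_inter (on_inter ?_ ?_) hEB
  · -- the levels
    have hRd : Gd.Rd (AT (Tg h₀ K)) (LvE Lm (EL60 μ s c θ Kw P (Tg h₀ K) y)) :=
      Rd_LvE fun v o l => EL60_off (fun v => g.Tmono (Nat.le_succ v)) v o l
    have h3 := NR60_off (t := i) (a := i - 2) g.ok g.nest hRd (show i - 2 + 1 ≤ L by omega) q₀
    intro η η' he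
    refine h3 η η' fun p hp => he p ?_
    rw [Set.mem_compl_iff, not_not] at hp
    obtain ⟨c', hc', hp'⟩ := Set.mem_iUnion₂.1 hp
    have hc : G.z i c' = G.z i q₀ := hc'
    have ei : i - 2 + 1 = i - 1 := by omega
    rw [ei, ball_rows] at hp'
    obtain ⟨l1, l2, l3, -⟩ := g.leaf (show 1 ≤ i by omega) hL hc hT'
    have p1 := hp'.1
    have p2 := hp'.2
    exact ⟨by omega, by omega⟩
  · -- the end pieces
    have e1 : rows (c0 : ℤ) (e : ℤ) = At (G.x i q₀) (rows r₀ r₁) := by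
      rw [At_rows]
      have e2 : (G.x i q₀).1 = ((G.z i q₀).1 : ℤ) := rfl
      rw [e2, hr₀, hr₁]
    intro η η' he
    have key : ∀ o : ℕ × ℤ, sh (G.x i q₀) η ∈ ELx60 μ s c θ Kw P (2 * Tg h₀ K i) (Tg h₀ K (i - 1)) r₀ r₁ q o ↔
        sh (G.x i q₀) η' ∈ ELx60 μ s c θ Kw P (2 * Tg h₀ K i) (Tg h₀ K (i - 1)) r₀ r₁ q o := fun o => by
      have h3 := on_sh (ELx60_on (μ := μ) (s := s) (c := c) (θ := θ) (Kw := Kw) (P := P) (n := 2 * Tg h₀ K i) (Tb := Tg h₀ K (i - 1))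
        (r₁ := r₁) (q := q) (show r₀ ≤ 0 by omega) o) (G.x i q₀)
      rw [← e1] at h3
      exact h3 η η' he
    exact forall_congr' fun o => forall_congr' fun _ => key o

/-! ### The probability -/

/-- **The tails of every `Far16`** from the tails of the level events (any height, any base point, the same `P`). -/
theorem far10 {A' a₁ g₁ : ℝ} {n₁ : ℕ} (hT : ∀ (T : ℕ → ℕ) (y : ℕ → ℝ) (v : ℕ) (o : ℕ × ℤ) (l : ℕ), n₁ ≤ T (v + 1) → 0 ≤ y l →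
      (law μ).real (EL60 μ s c θ Kw P T y v o l)ᶜ ≤ A' * Real.exp (-(a₁ * y l ^ g₁))) {T₁ N : ℕ} (h1 : n₁ ≤ T₁) (hN : N ≤ 2 * T₁)
    (b : Pt) {q : ℝ} (hq : 0 ≤ q) : (law μ).real (Far16 μ s c θ Kw (2 * T₁) N P b q)ᶜ ≤ A' * Real.exp (-(a₁ * q ^ g₁)) := by
  -- the radii and the place
  obtain ⟨T, o, hT1, hNo⟩ : ∃ (T : ℕ → ℕ) (o : ℕ × ℤ), T (0 + 1) = T₁ ∧ min (o.1 + T (0 + 1) - T 0) (2 * T (0 + 1)) = N := by
    rcases le_total N T₁ with h2 | h2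
    · refine ⟨fun v => if v = 0 then T₁ - N else T₁, (0, 0), rfl, ?_⟩
      show min (0 + T₁ - (T₁ - N)) (2 * T₁) = N
      omega
    · refine ⟨fun v => if v = 0 then 0 else T₁, (N - T₁, 0), rfl, ?_⟩
      show min (N - T₁ + T₁ - 0) (2 * T₁) = N
      omega
  have h2 := hT T (fun _ => q) 0 o 0 (by rw [hT1]; exact h1) hq
  refine le_trans ?_ h2
  -- the shift of the base point
  obtain ⟨a, ha⟩ : ∃ a : Pt, a = b - bs60 μ s (-(T (0 + 1) : ℤ)) := ⟨_, rfl⟩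
  have e1 : (Far16 μ s c θ Kw (2 * T₁) N P b q)ᶜ = sh a ⁻¹' (Far16 μ s c θ Kw (2 * T₁) N P (bs60 μ s (-(T (0 + 1) : ℤ))) q)ᶜ := by
    ext η
    rw [Set.mem_compl_iff, Set.mem_preimage, Set.mem_compl_iff, Far16_sh, ha, add_sub_cancel]
  have e2 : (law μ).real (Far16 μ s c θ Kw (2 * T₁) N P b q)ᶜ =
      (law μ).real (Far16 μ s c θ Kw (2 * T₁) N P (bs60 μ s (-(T (0 + 1) : ℤ))) q)ᶜ := by
    rw [e1]
    unfold Measure.real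
    rw [(mp_sh (μ := μ) a).measure_preimage (Far16_meas _ _ _ _ _ _ _).compl.nullMeasurableSet]
  rw [e2]
  refine measureReal_mono (Set.compl_subset_compl.2 fun η hη => ?_) (measure_ne_top _ _)
  have h3 := hη.1
  rw [hNo, hT1] at h3
  rw [hT1]
  exact h3

/-- **All the end pieces at once**, the same `P`. -/
theorem elx10 {A' a₁ g₁ : ℝ} {n₁ : ℕ} (ha : 0 < a₁) (hg : 0 < g₁)
    (hT : ∀ (T : ℕ → ℕ) (y : ℕ → ℝ) (v : ℕ) (o : ℕ × ℤ) (l : ℕ), n₁ ≤ T (v + 1) → 0 ≤ y l →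
      (law μ).real (EL60 μ s c θ Kw P T y v o l)ᶜ ≤ A' * Real.exp (-(a₁ * y l ^ g₁))) (Np : ℕ) {ε : ℝ} (hε : 0 < ε) :
    ∃ q₀ : ℝ, 0 ≤ q₀ ∧ ∀ q : ℝ, q₀ ≤ q → ∀ (T₁ Tb : ℕ) (r₀ r₁ : ℤ) (S : Finset (ℕ × ℤ)), n₁ ≤ T₁ → r₁ - r₀ ≤ 2 * T₁ → r₁ ≤ 2 * T₁ →
      S.card ≤ Np → (law μ).real {η | ∃ o ∈ S, η ∉ ELx60 μ s c θ Kw P (2 * T₁) Tb r₀ r₁ q o} ≤ ε := by
  have ht : Tendsto (fun q : ℝ => ((Np : ℝ) * (2 * A')) * Real.exp (-(a₁ * q ^ g₁))) atTop (𝓝 (((Np : ℝ) * (2 * A')) * 0)) := by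
    refine Tendsto.const_mul _ (Real.tendsto_exp_neg_atTop_nhds_zero.comp ?_)
    exact (tendsto_rpow_atTop hg).const_mul_atTop ha
  rw [mul_zero] at ht
  obtain ⟨q₀, hq₀⟩ := eventually_atTop.1 (ht.eventually_le_const hε)
  refine ⟨max q₀ 0, le_max_right _ _, fun q hq T₁ Tb r₀ r₁ S hn hr hr1 hS => ?_⟩
  have hq0 : 0 ≤ q := (le_max_right _ _).trans hq
  have key := hq₀ q ((le_max_left _ _).trans hq)
  have hA0 : 0 ≤ A' := by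
    have h1 := far10 hT hn (Nat.zero_le (2 * T₁)) (0 : Pt) hq0
    have h2 := (measureReal_nonneg).trans h1
    have h3 := Real.exp_pos (-(a₁ * q ^ g₁))
    by_contra hc
    have := mul_neg_of_neg_of_pos (not_le.1 hc) h3
    linarith
  have hsub : {η | ∃ o ∈ S, η ∉ ELx60 μ s c θ Kw P (2 * T₁) Tb r₀ r₁ q o} ⊆ ⋃ o ∈ S, (ELx60 μ s c θ Kw P (2 * T₁) Tb r₀ r₁ q o)ᶜ := by
    rintro η ⟨o, ho, h1⟩
    exact Set.mem_biUnion (Finset.mem_coe.2 ho) h1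
  have one : ∀ o ∈ S, (law μ).real (ELx60 μ s c θ Kw P (2 * T₁) Tb r₀ r₁ q o)ᶜ ≤ 2 * A' * Real.exp (-(a₁ * q ^ g₁)) := by
    intro o _
    have h1 := far10 hT hn (show (min ((o.1 : ℤ) - Tb) r₁ - r₀).toNat ≤ 2 * T₁ by
      have : min ((o.1 : ℤ) - Tb) r₁ ≤ r₁ := min_le_right _ _
      omega) (bs60 μ s r₀) hq0
    have h2 := far10 hT hn (show (r₁ - ((o.1 : ℤ) + Tb)).toNat ≤ 2 * T₁ by omega) (bs60 μ s ((o.1 : ℤ) + Tb)) hq0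
    unfold ELx60
    rw [Set.compl_inter]
    refine (measureReal_union_le _ _).trans ?_
    linarith
  calc (law μ).real {η | ∃ o ∈ S, η ∉ ELx60 μ s c θ Kw P (2 * T₁) Tb r₀ r₁ q o}
      ≤ (law μ).real (⋃ o ∈ S, (ELx60 μ s c θ Kw P (2 * T₁) Tb r₀ r₁ q o)ᶜ) := measureReal_mono hsub (measure_ne_top _ _)
    _ ≤ ∑ o ∈ S, (law μ).real (ELx60 μ s c θ Kw P (2 * T₁) Tb r₀ r₁ q o)ᶜ := measureReal_biUnion_finset_le _ _
    _ ≤ ∑ _o ∈ S, 2 * A' * Real.exp (-(a₁ * q ^ g₁)) := Finset.sum_le_sum one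
    _ = S.card * (2 * A' * Real.exp (-(a₁ * q ^ g₁))) := by rw [Finset.sum_const, nsmul_eq_mul]
    _ ≤ Np * (2 * A' * Real.exp (-(a₁ * q ^ g₁))) := by
        refine mul_le_mul_of_nonneg_right (by exact_mod_cast hS) (by positivity)
    _ ≤ ε := by
        refine le_trans (le_of_eq ?_) key
        ring

/-- **THE PROBABILITY OF THE EVENT OF THE LEAVES.** `U₀`, `q₀` depend on the tails, `K`, `χ`, `C₀`, `ε` only. -/
theorem fin10 {A' a₁ g₁ : ℝ} {n₁ : ℕ} (hA : 0 < A') (ha : 0 < a₁) (hg : 0 < g₁)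
    (hT : ∀ (T : ℕ → ℕ) (y : ℕ → ℝ) (v : ℕ) (o : ℕ × ℤ) (l : ℕ), n₁ ≤ T (v + 1) → 0 ≤ y l →
      (law μ).real (EL60 μ s c θ Kw P T y v o l)ᶜ ≤ A' * Real.exp (-(a₁ * y l ^ g₁))) {K : ℕ} (hK : 2 ≤ K) {χ C₀ ε : ℝ} (hχ : 0 < χ)
    (hC : 0 ≤ C₀) (hε : 0 < ε) : ∃ U₀ q₀ : ℝ, 1 ≤ U₀ ∧ 0 ≤ q₀ ∧ ∀ U q : ℝ, U₀ ≤ U → q₀ ≤ q → ∀ {R : ℝ} {B h₀ L Lm : ℕ} {G : Gd},
      GW μ s R B C₀ h₀ K L G → n₁ ≤ h₀ → ∀ {i : ℕ}, 2 ≤ i → i ≤ L → ∀ {y : ℕ → ℝ}, (∀ l, y l = U * (K : ℝ) ^ (χ * (l : ℝ))) →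
      ∀ (q₁ : ℕ × ℤ) (r₀ r₁ : ℤ), r₁ - r₀ ≤ 2 * Tg h₀ K i → r₁ ≤ 2 * Tg h₀ K i → ∀ EB : Set Env,
      law μ (FF10 μ s c θ Kw P G L Lm (Tg h₀ K) y i q₁ r₀ r₁ q EB)ᶜ ≤ ENNReal.ofReal ε + law μ EBᶜ := by
  have hK1 : (1 : ℝ) < K := by exact_mod_cast (show 1 < K by omega)
  have hK0 : (0 : ℝ) < K := by linarith
  obtain ⟨U₀, hU₀, H1⟩ := lvF60 (μ := μ) (A' := A') (a₁ := a₁) (g₁ := g₁) (κ := K) (b := 2) (χ := χ) (C₀ := C₀ * (K : ℝ) ^ 4) (ε := ε / 2) hA ha hg hK1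
    (by norm_num) hχ (by positivity) (by positivity)
  obtain ⟨q₀, hq₀, H2⟩ := elx10 ha hg hT ⌈C₀ * (K : ℝ) ^ 2⌉₊ (show 0 < ε / 2 by positivity)
  refine ⟨U₀, q₀, hU₀, hq₀, fun U q hU hq R B h₀ L Lm G g hn i hi hL y hy q₁ r₀ r₁ hr hr1 EB => ?_⟩
  have hU0 : 0 < U := by linarith
  have hTn : ∀ v, 1 ≤ v → n₁ ≤ Tg h₀ K v := fun v hv => by
    rw [Tg_pos hv, mul_comm 2 h₀, mul_assoc]
    exact hn.trans (Nat.le_mul_of_pos_right _ (Nat.mul_pos two_pos (Nat.pow_pos (by omega))))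
  have p1 : law μ (NR60 G L (LvE Lm (EL60 μ s c θ Kw P (Tg h₀ K) y)) i (i - 2) q₁)ᶜ ≤ ENNReal.ofReal (ε / 2) := by
    refine H1 U hU G L Lm i (i - 2) _ g.ok (Nat.sub_le _ _) hL (by omega) (fun v o l => measurableSet_EL60 v o l) (fun v hv => ?_)
      (fun v _ c' l => ?_) q₁
    · refine (g.card v i (by omega) hL).trans ?_
      have e1 : (K : ℝ) ^ ((2 : ℝ) * ((i - 2 - v : ℕ) : ℝ)) = (K : ℝ) ^ (2 * (i - 2 - v)) := by
        rw [← Real.rpow_natCast]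
        push_cast
        rfl
      rw [e1, mul_assoc, ← pow_add]
      refine mul_le_mul_of_nonneg_left (pow_le_pow_right₀ hK1.le ?_) hC
      omega
    · have h0 : 0 ≤ y l := by
        rw [hy]
        positivity
      have h1 := hT (Tg h₀ K) y v (G.dg v c') l (hTn (v + 1) (by omega)) h0
      rw [hy] at h1
      exact h1
  have p2 : law μ {η | ∀ o ∈ G.subs (i - 1) i, sh (G.x i q₁) η ∈ ELx60 μ s c θ Kw P (2 * Tg h₀ K i) (Tg h₀ K (i - 1)) r₀ r₁ q o}ᶜ ≤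
      ENNReal.ofReal (ε / 2) := by
    have hcard : (G.subs (i - 1) i).card ≤ ⌈C₀ * (K : ℝ) ^ 2⌉₊ := by
      have h1 := g.card (i - 1) i (Nat.sub_le _ _) hL
      have h2 : 2 * (i - (i - 1)) = 2 := by omega
      rw [h2] at h1
      exact_mod_cast h1.trans (Nat.le_ceil _)
    have h3 := H2 q hq (Tg h₀ K i) (Tg h₀ K (i - 1)) r₀ r₁ (G.subs (i - 1) i) (hTn i (by omega)) hr hr1 hcard
    have e1 : {η | ∀ o ∈ G.subs (i - 1) i, sh (G.x i q₁) η ∈ ELx60 μ s c θ Kw P (2 * Tg h₀ K i) (Tg h₀ K (i - 1)) r₀ r₁ q o}ᶜ =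
        sh (G.x i q₁) ⁻¹' {η | ∃ o ∈ G.subs (i - 1) i, η ∉ ELx60 μ s c θ Kw P (2 * Tg h₀ K i) (Tg h₀ K (i - 1)) r₀ r₁ q o} := by
      ext η
      simp only [Set.mem_compl_iff, Set.mem_ofPred_eq, Set.mem_preimage, not_forall, exists_prop]
    have mX : MeasurableSet {η | ∃ o ∈ G.subs (i - 1) i, η ∉ ELx60 μ s c θ Kw P (2 * Tg h₀ K i) (Tg h₀ K (i - 1)) r₀ r₁ q o} := by
      have e2 : {η | ∃ o ∈ G.subs (i - 1) i, η ∉ ELx60 μ s c θ Kw P (2 * Tg h₀ K i) (Tg h₀ K (i - 1)) r₀ r₁ q o} =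
          ⋃ o ∈ G.subs (i - 1) i, (ELx60 μ s c θ Kw P (2 * Tg h₀ K i) (Tg h₀ K (i - 1)) r₀ r₁ q o)ᶜ := by
        ext η
        simp only [Set.mem_ofPred_eq, Set.mem_iUnion, Set.mem_compl_iff, exists_prop]
      rw [e2]
      exact Finset.measurableSet_biUnion _ fun o _ => (measurableSet_ELx60 o).compl
    rw [e1, (mp_sh (μ := μ) (G.x i q₁)).measure_preimage mX.nullMeasurableSet, ← ofReal_measureReal (measure_ne_top _ _)]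
    exact ENNReal.ofReal_le_ofReal h3
  unfold FF10
  rw [Set.compl_inter, Set.compl_inter]
  refine (measure_union_le _ _).trans (add_le_add_left ((measure_union_le _ _).trans ?_) _)
  have e3 : ENNReal.ofReal ε = ENNReal.ofReal (ε / 2) + ENNReal.ofReal (ε / 2) := by
    rw [← ENNReal.ofReal_add (by positivity) (by positivity)]
    congr 1
    ring
  rw [e3]
  exact add_le_add p1 p2

/-! ### Outputs -/

omit [IsProbabilityMeasure μ] in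
/-- The event gives the two fields of `Cc8.fr`: levels and end pieces at the place of every site of the box. -/
theorem FF10_out {η : Env} (h : η ∈ FF10 μ s c θ Kw P G L Lm T y i q₀ r₀ r₁ q EB) (hG : G.Ok L) (hi : i ≤ L) :
    η ∈ NR60 G L (LvE Lm (EL60 μ s c θ Kw P T y)) i (i - 2) q₀ ∧ η ∈ EB ∧
      ∀ b : ℕ × ℤ, sh (G.x i q₀) η ∈ ELx60 μ s c θ Kw P (2 * T i) (T (i - 1)) r₀ r₁ q (G.z (i - 1) (G.rel i b)) :=
  ⟨h.1.1, h.2, fun b => h.1.2 _ (hG.mem_subs (Nat.sub_le i 1) hi b)⟩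

/-- The end pieces are an admissible part `Sp` of the inner half (`RP`). -/
theorem ELx60_RP (hT : ∀ v, T v ≤ T (v + 1)) {j : ℕ} (hj : 1 ≤ j) (hr₀ : -(T j : ℤ) ≤ r₀) (hr₁ : r₁ ≤ T j) {n : ℕ} (o : ℕ × ℤ) :
    On20 (RP T j o) (ELx60 μ s c θ Kw P n (T (j - 1)) r₀ r₁ q o) := by
  obtain ⟨v, rfl⟩ : ∃ v, j = v + 1 := ⟨j - 1, by omega⟩
  have h1 := ELx60_off (μ := μ) (s := s) (c := c) (θ := θ) (K := Kw) (P := P) (n := n) (q := q) (T := T) (v := v) hr₀ hr₁ o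
  have := hT v
  intro η η' he
  refine h1 η η' fun p hp => he p ?_
  rw [Set.mem_compl_iff, not_not] at hp
  exact hp

end

end Pool.Agent.W_7d29a1_C1.T10
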