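import Pool.Agent.W_7d29a1_C1.SucP44
import Pool.Agent.W_7d29a1_C1.GeX58
import Pool.Agent.W_7d29a1_C1.PshB83

/-!
Both halves (MP_7d29a1_pr), attractor route [C1], SHELL, side F: the rows and the columns of one place of `LsP44`. (helper73)
-/

set_option autoImplicit false

namespace Pool.Agent.W_7d29a1_C1.Sb73

open MeasureTheory Finset Filter
open Pool.Agent.W_7d29a1_F Pool.Agent.W_7d29a1_h4g Pool.Agent.W_7d29a1_H Pool.Agent.W_7d29a1_HS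
open Pool.Agent.W_7d29a1_C1
open Pool.Agent.W_7d29a1_C1.T10
open Pool.Agent.W_7d29a1_C1.F45
open Pool.Agent.W_7d29a1_C1.H8 (uc8 sg8 uc8_near uc8_sep ln8_c0 ln8_c3 zc8_near)
open Pool.Agent.W_7d29a1_C1.JnC35 (ln35)
open Pool.Agent.W_7d29a1_C1.Fr47 (NS47)
open Pool.Agent.W_7d29a1_C1.Lt44
open Pool.Agent.W_7d29a1_C1.S83

noncomputable section

variable {μ : Measure ℝ} {s : ℝ}

/-- **THE ROWS OF ONE PLACE.** -/
theorem rows73 {th : ℝ} (h0 : 0 < th) (h1 : th ≤ 1 / 4) {a : LnI} {o : LnO} (ho : o.Ok a) (hth' : a.th' = th / 8) {Qp : ℕ} (hQ : 1 ≤ Qp)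
    (n₁ : ℕ) : ∃ N : ℕ, 1 ≤ N ∧ ∀ (T : ℕ → ℕ) (j z : ℕ), N ≤ T j → T j ≤ z →
      n₁ ≤ TF45 th o Qp T j ∧ 1 ≤ TF45 th o Qp T j ∧ TF45 th o Qp T j ≤ T j ∧ T j ≤ 4 * TF45 th o Qp T j ∧
      nM45 th o Qp T j ≤ TF45 th o Qp T j ∧ nB45 th o Qp T j ≤ TF45 th o Qp T j ∧
      n145 th o Qp T j = nM45 th o Qp T j + (TF45 th o Qp T j + nB45 th o Qp T j) ∧
      z - T j + 1 + n145 th o Qp T j = cF th (R145 o Qp) z (T j) + Qp * o.j1 * kF th (R145 o Qp) (T j) ∧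
      z - T j + 1 + (nM45 th o Qp T j + TF45 th o Qp T j) = cF th (R145 o Qp) z (T j) ∧
      z - T j + 1 + n145 th o Qp T j ≤ z := by
  obtain ⟨N, hN, H⟩ := Ge58.tf58 h0 h1 ho hQ n₁
  obtain ⟨N', hN', H'⟩ := rowsF h0 h1 (R145_pos ho hQ) 0
  have hRB : ((Qp * o.j1 : ℕ) : ℝ) ≤ th / 8 * (R145 o Qp : ℕ) := by
    have g1 := ho.j2'
    rw [hth'] at g1
    have g2 : (0 : ℝ) ≤ Qp := Nat.cast_nonneg _
    have g3 : (0 : ℝ) ≤ o.j1 := Nat.cast_nonneg _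
    have g4 : (0 : ℝ) ≤ o.a := Nat.cast_nonneg _
    unfold R145
    push_cast
    have g5 : (1 : ℝ) * (Qp * (o.a + o.j1)) ≤ th / 8 * o.j2 * (Qp * (o.a + o.j1)) := mul_le_mul_of_nonneg_right g1 (by positivity)
    have g6 : (Qp : ℝ) * o.j1 ≤ 1 * (Qp * (o.a + o.j1)) := by nlinarith
    calc (Qp : ℝ) * o.j1 ≤ th / 8 * o.j2 * (Qp * (o.a + o.j1)) := g6.trans g5
      _ = _ := by ring
  refine ⟨max N N', hN.trans (le_max_left _ _), fun T j z hT hz => ?_⟩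
  obtain ⟨t1, t2, t3, t4⟩ := H T j ((le_max_left _ _).trans hT)
  obtain ⟨-, -, -, -, -, h6⟩ := H' (T j) z ((le_max_right _ _).trans hT) hz
  have h7 := h6 (Qp * o.j1) 0 hRB (by push_cast; positivity)
  have hM : nM45 th o Qp T j ≤ TF45 th o Qp T j := by
    unfold nM45 TF45
    exact Nat.mul_le_mul_right _ (Nat.mul_le_mul_left _ (Nat.mul_le_mul_right _ ho.aj))
  have hB : nB45 th o Qp T j ≤ TF45 th o Qp T j := by
    unfold nB45 TF45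
    refine Nat.mul_le_mul_right _ ?_
    have := ho.j2
    calc Qp * o.j1 = Qp * (o.j1 * 1) := by ring
      _ ≤ Qp * (o.j1 * o.j2) := Nat.mul_le_mul_left _ (Nat.mul_le_mul_left _ this)
  have e1 : n145 th o Qp T j = nM45 th o Qp T j + (TF45 th o Qp T j + nB45 th o Qp T j) := by
    have e2 := nMTF45 th o Qp T j
    have e3 : nB45 th o Qp T j = Qp * o.j1 * kF th (R145 o Qp) (T j) := rfl
    unfold n145
    rw [add_mul, ← e2, ← e3]
    ring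
  have e2 : z - T j + 1 + (nM45 th o Qp T j + TF45 th o Qp T j) = cF th (R145 o Qp) z (T j) := by
    rw [nMTF45]
    rfl
  have e3 : z - T j + 1 + n145 th o Qp T j = cF th (R145 o Qp) z (T j) + Qp * o.j1 * kF th (R145 o Qp) (T j) := by
    rw [← e2, e1]
    have e4 : nB45 th o Qp T j = Qp * o.j1 * kF th (R145 o Qp) (T j) := rfl
    rw [← e4]
    ring
  refine ⟨t1, t2, t3, t4, hM, hB, e1, e3, e2, ?_⟩
  rw [e3]
  simpa using h7

/-- **THE COLUMNS OF ONE PLACE.** -/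
theorem cols73 [IsProbabilityMeasure μ] {c C : ℝ} {n₀ : ℕ} (h : In μ s c C n₀) {d th K0 : ℝ} (hd : 0 < d) (hd1 : d ≤ 1) {o : LnO}
    (ho : o.Ok (lnI c d th K0)) (Qp : ℕ) : ∃ N : ℕ, ∀ (T : ℕ → ℕ) (cm : ℕ → ℤ) (j m₂ : ℕ) (k : KE45) (φ v v₁ g₂ : ℝ) (z : ℕ × ℤ),
      N ≤ TF45 th o Qp T j → 1 ≤ TF45 th o Qp T j → TF45 th o Qp T j ≤ T j → T j ≤ 4 * TF45 th o Qp T j → T j ≤ z.1 →
      ∀ (κ : Pt) (σ : NS47) (x0 : ℤ) (ub tb : Bool → ℤ) (R : ℝ), κ = ((z.1 : ℤ), z.2 + cm j) → σ = sg45 μ s d th o Qp k T cm m₂ φ v v₁ g₂ →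
      x0 = (bp45 μ s T cm j).2 + z.2 → (ub = fun b => u45 μ s d T cm j b + z.2) → (tb = fun b => t45 μ s d th o Qp T cm j b + z.2) →
      R = o.th * wd μ s (TF45 th o Qp T j) →
      (bp45 μ s T cm j).1 + (z.1 : ℤ) = ((z.1 - T j + 1 : ℕ) : ℤ) ∧ |(x0 : ℝ) - ln35 μ s κ (z.1 - T j + 1)| ≤ 1 * wd μ s (T j) ∧
      (∀ i, |((ub i - x0 : ℤ) : ℝ)| ≤ 8 * wd μ s (TF45 th o Qp T j)) ∧ R ≤ wd μ s (TF45 th o Qp T j) ∧
      (∀ i, |((tb i - x0 : ℤ) : ℝ) - sl μ s * (nM45 th o Qp T j + TF45 th o Qp T j : ℕ)| ≤ 8 * wd μ s (TF45 th o Qp T j)) ∧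
      (tb false : ℝ) + d / 2 * wd μ s (TF45 th o Qp T j) ≤ tb true ∧
      z.2 + σ.α₁ j ≤ z.2 + σ.β₁ j ∧ z.2 + σ.β₁ j < z.2 + σ.α₂ j ∧ z.2 + σ.α₂ j ≤ z.2 + σ.β₂ j ∧
      (∀ y : ℤ, z.2 + σ.α₁ j ≤ y → y ≤ z.2 + σ.β₁ j → |(y : ℝ) - ub false| ≤ R) ∧
      (∀ y : ℤ, z.2 + σ.α₂ j ≤ y → y ≤ z.2 + σ.β₂ j → |(y : ℝ) - ub true| ≤ R) ∧
      |((z.2 + σ.α₁ j : ℤ) : ℝ) - ln35 μ s κ (z.1 - T j + 1)| ≤ 3 * wd μ s (T j) ∧
      |((z.2 + σ.α₂ j : ℤ) : ℝ) - ln35 μ s κ (z.1 - T j + 1)| ≤ 3 * wd μ s (T j) ∧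
      |((z.2 + σ.β₂ j : ℤ) : ℝ) - ln35 μ s κ (z.1 - T j + 1)| ≤ 3 * wd μ s (T j) ∧
      (∀ i, |(tb i : ℝ) - ln35 μ s κ (z.1 - T j + 1 + (nM45 th o Qp T j + TF45 th o Qp T j))| ≤ 2 * wd μ s (T j)) ∧
      2 ≤ wd μ s (T j) ∧ 2 ≤ wd μ s (TF45 th o Qp T j) := by
  obtain ⟨N, hN⟩ := eventually_atTop.1 ((wd_tendsto h).eventually_ge_atTop (8 / d + 8))
  refine ⟨N, fun T cm j m₂ k φ v v₁ g₂ z hTN hT1 hT2 hT4 hz κ σ x0 ub tb R hκ hσ hx0 hub htb hR => ?_⟩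
  obtain ⟨w, hw⟩ : ∃ w : ℝ, w = wd μ s (T j) := ⟨_, rfl⟩
  obtain ⟨wF, hwF⟩ : ∃ w : ℝ, w = wd μ s (TF45 th o Qp T j) := ⟨_, rfl⟩
  obtain ⟨L, hL⟩ : ∃ L : ℕ, L = nM45 th o Qp T j + TF45 th o Qp T j := ⟨_, rfl⟩
  have w1 := hN _ hTN
  have w2 := hN _ (hTN.trans hT2)
  rw [← hwF] at w1
  rw [← hw] at w2
  have hd8 : 8 ≤ 8 / d := by
    rw [le_div_iff₀ hd]
    linarith
  have e8 : d * (8 / d) = 8 := by field_simp
  have hdw : 8 ≤ d * w := by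
    have := mul_le_mul_of_nonneg_left w2 hd.le
    nlinarith
  have hw0 : 0 < w := by linarith
  have hwF0 : 0 < wF := by linarith
  obtain ⟨-, -, u3, u4, -⟩ := unit83 h hT1 hT2 hT4 (by rw [← hw]; exact hw0) (by rw [← hwF]; exact hwF0)
  rw [← hw, ← hwF] at u3 u4
  have hth := ho.th0
  have hth1 : o.th ≤ d / 16 := ho.th1
  have hR1 : R ≤ d / 8 * w := by
    rw [hR, ← hwF]
    nlinarith
  have hR0 : 0 ≤ R := by
    rw [hR, ← hwF]
    positivity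
  obtain ⟨rad, hrad⟩ : ∃ r : ℕ, r = ⌊R⌋₊ := ⟨_, rfl⟩
  have hrad1 : (rad : ℝ) ≤ R := hrad ▸ Nat.floor_le hR0
  obtain ⟨sc, hsc⟩ : ∃ sc : ℝ, sc = sl μ s * (1 - (T j : ℝ)) := ⟨_, rfl⟩
  -- the base
  have f0 : |((bp45 μ s T cm j).2 : ℝ) - (cm j + sc)| ≤ 1 := by
    have f1 := Int.floor_le (sl μ s * (1 - (T j : ℝ)))
    have f2 := Int.lt_floor_add_one (sl μ s * (1 - (T j : ℝ)))
    show |((cm j + ⌊sl μ s * (1 - (T j : ℝ))⌋ : ℤ) : ℝ) - (cm j + sc)| ≤ 1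
    rw [hsc]
    push_cast
    rw [abs_le]
    constructor <;> linarith
  have fu : ∀ i, |(u45 μ s d T cm j i : ℝ) - (cm j + sc + (if i then 3 / 4 * d * w else -(3 / 4 * d * w)))| ≤ 1 := fun i => by
    have g := uc8_near (μ := μ) (s := s) d (wd μ s (T j)) (cm j) (1 - (T j : ℤ)) i
    have e : sl μ s * ((1 - (T j : ℤ) : ℤ) : ℝ) = sc := by
      rw [hsc]
      push_cast
      ring
    rw [e, ← hw] at g
    show |(uc8 μ s d (wd μ s (T j)) (cm j) (1 - (T j : ℤ)) i : ℝ) - _| ≤ 1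
    rw [← hw]
    exact g
  have ft : ∀ i, |(t45 μ s d th o Qp T cm j i : ℝ) - (cm j + sc + sl μ s * L + (if i then 3 / 4 * d * w else -(3 / 4 * d * w)))| ≤ 1 := fun i => by
    have g := uc8_near (μ := μ) (s := s) d (wd μ s (T j)) (cm j) (1 - (T j : ℤ) + ((L : ℕ) : ℤ)) i
    have e : sl μ s * ((1 - (T j : ℤ) + ((L : ℕ) : ℤ) : ℤ) : ℝ) = sc + sl μ s * L := by
      rw [hsc]
      push_cast
      ring
    rw [e, ← hw] at g
    show |(uc8 μ s d (wd μ s (T j)) (cm j) (1 - (T j : ℤ) + ((nM45 th o Qp T j + TF45 th o Qp T j : ℕ) : ℤ)) i : ℝ) - _| ≤ 1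
    rw [← hw, ← hL]
    refine le_trans (le_of_eq ?_) g
    congr 1
    ring
  have hif : ∀ i : Bool, |(if i then 3 / 4 * d * w else -(3 / 4 * d * w) : ℝ)| = 3 / 4 * d * w := fun i => by
    have h0 : 0 ≤ 3 / 4 * d * w := by positivity
    cases i
    · simp only [Bool.false_eq_true, if_false, abs_neg, abs_of_nonneg h0]
    · simp only [if_true, abs_of_nonneg h0]
  have hdw1 : d * w ≤ w := by nlinarith
  have hln0 : ln35 μ s κ (z.1 - T j + 1) = (z.2 : ℝ) + (cm j + sc) := by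
    have g := ln8_c0 (μ := μ) (s := s) (T := T) (cm := cm) (j := j) (z := z) (u := fun _ _ => 0) (rad := fun _ => 0) (m₂ := 0) (P := 0)
      (c₁ := 0) (c₃ := 0) (Q := 0) (S := 0) (phO := 0) (vO := 0) (v₁ := 0) (g₂ := 0) hz
    rw [hκ, hsc]
    exact g
  have hlnL : ln35 μ s κ (z.1 - T j + 1 + L) = (z.2 : ℝ) + (cm j + sc) + sl μ s * L := by
    rw [← hln0]
    unfold ln35
    push_cast
    ring
  have eα₁ : σ.α₁ j = u45 μ s d T cm j false - rad := by rw [hσ, hrad, hR]; rfl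
  have eβ₁ : σ.β₁ j = u45 μ s d T cm j false + rad := by rw [hσ, hrad, hR]; rfl
  have eα₂ : σ.α₂ j = u45 μ s d T cm j true - rad := by rw [hσ, hrad, hR]; rfl
  have eβ₂ : σ.β₂ j = u45 μ s d T cm j true + rad := by rw [hσ, hrad, hR]; rfl
  have fu0 := fu false
  have fu1 := fu true
  have ft0 := ft false
  have ft1 := ft true
  simp only [Bool.false_eq_true, if_false, if_true] at fu0 fu1 ft0 ft1
  rw [abs_le] at fu0 fu1 ft0 ft1 f0
  rw [← hw, ← hwF, ← hL, hln0, hlnL, eα₁, eβ₁, eα₂, eβ₂]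
  refine ⟨?_, ?_, ?_, ?_, ?_, ?_, ?_, ?_, ?_, ?_, ?_, ?_, ?_, ?_, ?_, by linarith, by linarith⟩
  · show (1 - (T j : ℤ)) + (z.1 : ℤ) = _
    omega
  · rw [hx0]
    push_cast
    rw [abs_le]
    constructor <;> linarith
  · intro i
    have g := abs_le.1 (fu i)
    have g' := abs_le.1 (le_of_eq (hif i))
    rw [hub, hx0]
    push_cast
    rw [abs_le]
    constructor <;> linarith
  · rw [hR, ← hwF]
    nlinarith
  · intro i
    have g := abs_le.1 (ft i)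
    have g' := abs_le.1 (le_of_eq (hif i))
    rw [htb, hx0]
    push_cast
    rw [abs_le]
    constructor <;> linarith
  · rw [htb]
    push_cast
    have : d / 2 * wF ≤ d * w := by nlinarith
    linarith
  · omega
  · have g : ((u45 μ s d T cm j false + rad : ℤ) : ℝ) < ((u45 μ s d T cm j true - rad : ℤ) : ℝ) := by
      push_cast
      linarith
    have g' : u45 μ s d T cm j false + rad < u45 μ s d T cm j true - rad := by exact_mod_cast g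
    omega
  · omega
  · intro y h1 h2
    have g1 : ((z.2 + (u45 μ s d T cm j false - rad) : ℤ) : ℝ) ≤ y := by exact_mod_cast h1
    have g2 : (y : ℝ) ≤ ((z.2 + (u45 μ s d T cm j false + rad) : ℤ) : ℝ) := by exact_mod_cast h2
    push_cast at g1 g2
    rw [hub]
    push_cast
    rw [abs_le]
    constructor <;> linarith
  · intro y h1 h2
    have g1 : ((z.2 + (u45 μ s d T cm j true - rad) : ℤ) : ℝ) ≤ y := by exact_mod_cast h1
    have g2 : (y : ℝ) ≤ ((z.2 + (u45 μ s d T cm j true + rad) : ℤ) : ℝ) := by exact_mod_cast h2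
    push_cast at g1 g2
    rw [hub]
    push_cast
    rw [abs_le]
    constructor <;> linarith
  · push_cast
    rw [abs_le]
    constructor <;> linarith
  · push_cast
    rw [abs_le]
    constructor <;> linarith
  · push_cast
    rw [abs_le]
    constructor <;> linarith
  · intro i
    have g := abs_le.1 (ft i)
    have g' := abs_le.1 (le_of_eq (hif i))
    rw [htb]
    push_cast
    rw [abs_le]
    constructor <;> linarith

end

end Pool.Agent.W_7d29a1_C1.Sb73
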