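import Pool.Agent.W_7d29a1_C1.Dun31

/-!
MP_7d29a1_pr, attractor route [C1], SHELL: the far part of the first seam from the data of the block. Abstract. (helper31)

Rows `r_o` (sites `I`), `c0` (sites `S₁`), `c3` (sites `S₂`), `r_o^+` (sites `I`). `f` arrives at `r_o`, `K₁` = kernel of the rows
`r_o, .., c0`, `kin` = envelope of the inside `c0, .., c3`, `K₅` = kernel of the rows `c3, .., r_o^+`, `G` future at `r_o^+`;
`PH y = ∑ kin y z * G' z`, `G' z = ∑ K₅ z z' * G z'`.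
-/

set_option autoImplicit false

namespace Pool.Agent.W_7d29a1_C1.D31

open Finset

noncomputable section

/-- The joint future of the site `y` of the first seam. -/
def PH (S₂ I : Finset ℤ) (kin K₅ : ℤ → ℤ → ℝ) (G : ℤ → ℝ) (y : ℤ) : ℝ := ∑ z ∈ S₂, kin y z * ∑ z' ∈ I, K₅ z z' * G z'

theorem PH_eq (S₂ I : Finset ℤ) (kin K₅ : ℤ → ℤ → ℝ) (G : ℤ → ℝ) (y : ℤ) :
    PH S₂ I kin K₅ G y = ∑ z' ∈ I, (∑ z ∈ S₂, kin y z * K₅ z z') * G z' := by
  unfold PH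
  rw [sum_congr rfl fun z _ => mul_sum _ _ _, sum_comm]
  refine sum_congr rfl fun z' _ => ?_
  rw [sum_mul]
  exact sum_congr rfl fun z _ => by ring

/-- **The far part of the first seam.** -/
theorem seaF31 {I S₁ S₂ Wy : Finset ℤ} {cen cen' W : ℝ} {K₁ kin K₅ kapo : ℤ → ℤ → ℝ} {f G : ℤ → ℝ} {y₁ yp : ℤ} {q ef e₂ : ℝ}
    (hf : ∀ x ∈ I, 0 ≤ f x) (hG : ∀ z ∈ I, 0 ≤ G z) (hK₁ : ∀ x y, 0 ≤ K₁ x y) (hkin : ∀ x y, 0 ≤ kin x y)
    (hK₅ : ∀ x y, 0 ≤ K₅ x y) (hfy : 0 ≤ f y₁) (hGp : 0 ≤ G yp) (he₂ : 0 ≤ e₂)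
    -- composition of the envelopes
    (hcomp : ∀ x ∈ I, ∀ z' ∈ I, ∑ y ∈ S₁, K₁ x y * ∑ z ∈ S₂, kin y z * K₅ z z' ≤ kapo x z')
    -- an excursion out of the window `Wy` of the seam
    (hexc : ∀ x ∈ I, ∀ z' ∈ I, |(x : ℝ) - cen| ≤ W → |(z' : ℝ) - cen'| ≤ W →
      ∑ y ∈ S₁ \ Wy, K₁ x y * ∑ z ∈ S₂, kin y z * K₅ z z' ≤ e₂)
    (hfar : fsum I cen cen' W kapo f G ≤ ef * (f y₁ * G yp))
    (tf : ∀ x ∈ I, |(x : ℝ) - cen| ≤ W → f x ≤ Real.exp q * f y₁)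
    (tG : ∀ z ∈ I, |(z : ℝ) - cen'| ≤ W → G z ≤ Real.exp q * G yp) :
    ∑ x ∈ I, ∑ y ∈ S₁, (if |(x : ℝ) - cen| ≤ W ∧ y ∈ Wy then 0 else f x * K₁ x y * PH S₂ I kin K₅ G y) ≤
      (ef + (I.card : ℝ) ^ 2 * Real.exp (2 * q) * e₂) * (f y₁ * G yp) := by
  have hM : ∀ y z', 0 ≤ ∑ z ∈ S₂, kin y z * K₅ z z' := fun y z' => sum_nonneg fun z _ => mul_nonneg (hkin y z) (hK₅ z z')
  -- one start, the sites `T` of the seam
  have hrow : ∀ x : ℤ, ∀ T : Finset ℤ, ∑ y ∈ T, f x * K₁ x y * PH S₂ I kin K₅ G y =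
      ∑ z' ∈ I, f x * (∑ y ∈ T, K₁ x y * ∑ z ∈ S₂, kin y z * K₅ z z') * G z' := by
    intro x T
    have e1 : ∀ y ∈ T, f x * K₁ x y * PH S₂ I kin K₅ G y =
        ∑ z' ∈ I, f x * (K₁ x y * ∑ z ∈ S₂, kin y z * K₅ z z') * G z' := by
      intro y _
      rw [PH_eq, mul_sum]
      exact sum_congr rfl fun z' _ => by ring
    rw [sum_congr rfl e1, sum_comm]
    refine sum_congr rfl fun z' _ => ?_
    rw [mul_sum, sum_mul]
  have hpt : ∀ x ∈ I, ∑ y ∈ S₁, (if |(x : ℝ) - cen| ≤ W ∧ y ∈ Wy then 0 else f x * K₁ x y * PH S₂ I kin K₅ G y) ≤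
      ∑ z' ∈ I, ((if |(x : ℝ) - cen| ≤ W ∧ |(z' : ℝ) - cen'| ≤ W then 0 else f x * kapo x z' * G z') +
        Real.exp (2 * q) * e₂ * (f y₁ * G yp)) := by
    intro x hx
    have hfx := hf x hx
    have c0 : 0 ≤ Real.exp (2 * q) * e₂ * (f y₁ * G yp) := by
      have := mul_nonneg hfy hGp
      positivity
    by_cases c1 : |(x : ℝ) - cen| ≤ W
    · have e1 : ∑ y ∈ S₁, (if |(x : ℝ) - cen| ≤ W ∧ y ∈ Wy then 0 else f x * K₁ x y * PH S₂ I kin K₅ G y) =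
          ∑ y ∈ S₁ \ Wy, f x * K₁ x y * PH S₂ I kin K₅ G y := by
        have e2 : S₁ \ Wy = S₁.filter fun y => ¬ (|(x : ℝ) - cen| ≤ W ∧ y ∈ Wy) := by
          ext y
          simp only [mem_sdiff, mem_filter, c1, true_and]
        rw [e2, sum_filter]
        refine sum_congr rfl fun y _ => ?_
        by_cases h : |(x : ℝ) - cen| ≤ W ∧ y ∈ Wy
        · rw [if_pos h, if_neg (not_not.2 h)]
        · rw [if_neg h, if_pos h]
      rw [e1, hrow]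
      refine sum_le_sum fun z' hz' => ?_
      by_cases c2 : |(z' : ℝ) - cen'| ≤ W
      · rw [if_pos ⟨c1, c2⟩, zero_add]
        have n1 := hexc x hx z' hz' c1 c2
        have n2 := tf x hx c1
        have n3 := tG z' hz' c2
        have n0 : 0 ≤ ∑ y ∈ S₁ \ Wy, K₁ x y * ∑ z ∈ S₂, kin y z * K₅ z z' :=
          sum_nonneg fun y _ => mul_nonneg (hK₁ x y) (hM y z')
        have n4 : f x * (∑ y ∈ S₁ \ Wy, K₁ x y * ∑ z ∈ S₂, kin y z * K₅ z z') * G z' ≤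
            (Real.exp q * f y₁) * e₂ * (Real.exp q * G yp) :=
          mul_le_mul (mul_le_mul n2 n1 n0 (mul_nonneg (Real.exp_pos _).le hfy)) n3 (hG z' hz')
            (mul_nonneg (mul_nonneg (Real.exp_pos _).le hfy) he₂)
        refine n4.trans (le_of_eq ?_)
        have : Real.exp (2 * q) = Real.exp q * Real.exp q := by rw [← Real.exp_add]; congr 1; ring
        rw [this]
        ring
      · rw [if_neg fun h => c2 h.2]
        have n1 : ∑ y ∈ S₁ \ Wy, K₁ x y * ∑ z ∈ S₂, kin y z * K₅ z z' ≤ kapo x z' :=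
          (sum_le_sum_of_subset_of_nonneg sdiff_subset fun y _ _ => mul_nonneg (hK₁ x y) (hM y z')).trans (hcomp x hx z' hz')
        have n2 := mul_le_mul_of_nonneg_right (mul_le_mul_of_nonneg_left n1 hfx) (hG z' hz')
        linarith
    · have e1 : ∑ y ∈ S₁, (if |(x : ℝ) - cen| ≤ W ∧ y ∈ Wy then 0 else f x * K₁ x y * PH S₂ I kin K₅ G y) =
          ∑ y ∈ S₁, f x * K₁ x y * PH S₂ I kin K₅ G y := sum_congr rfl fun y _ => if_neg fun h => c1 h.1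
      rw [e1, hrow]
      refine sum_le_sum fun z' hz' => ?_
      rw [if_neg fun h => c1 h.1]
      have n2 := mul_le_mul_of_nonneg_right (mul_le_mul_of_nonneg_left (hcomp x hx z' hz') hfx) (hG z' hz')
      linarith
  refine (sum_le_sum hpt).trans ?_
  have e3 : ∑ x ∈ I, ∑ z' ∈ I, ((if |(x : ℝ) - cen| ≤ W ∧ |(z' : ℝ) - cen'| ≤ W then 0 else f x * kapo x z' * G z') +
        Real.exp (2 * q) * e₂ * (f y₁ * G yp)) = fsum I cen cen' W kapo f G +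
        (I.card : ℝ) ^ 2 * Real.exp (2 * q) * e₂ * (f y₁ * G yp) := by
    unfold fsum
    simp only [sum_add_distrib, sum_const, nsmul_eq_mul]
    ring
  rw [e3]
  linarith

/-- The sum over a larger set of starts on which `f` vanishes. -/
theorem sum_starts {I I' S₁ : Finset ℤ} (hI : I ⊆ I') {f : ℤ → ℝ} (h0 : ∀ x ∈ I', x ∉ I → f x = 0) (g : ℤ → ℤ → ℝ)
    (P : ℤ → ℤ → Prop) [∀ x y, Decidable (P x y)] :
    ∑ x ∈ I', ∑ y ∈ S₁, (if P x y then 0 else f x * g x y) = ∑ x ∈ I, ∑ y ∈ S₁, (if P x y then 0 else f x * g x y) := by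
  refine (sum_subset hI fun x hx hx' => sum_eq_zero fun y _ => ?_).symm
  rw [h0 x hx hx', zero_mul, ite_self]

end

end Pool.Agent.W_7d29a1_C1.D31
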