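import Pool.Agent.W_7d29a1_C1.SeaM12
import Pool.Agent.W_7d29a1_C1.DunP31
import Pool.Agent.W_7d29a1_C1.ShDef21

/-!
MP_7d29a1_pr, [C1] attractor route, SHELL: **DATA OF THE BLOCK + LANES OF P1 ⇒ SeamIn** for the real kernels. (helper12)

`One12` : the data of helper31's `DP31` for one group. `ft12`, `pf12` : they give the fields of SeaL12 (`q` = tameness of the large window,
`q₁` = tameness of the window of the starts). `starts_real12` : the starts of the lanes and the target. SeamIn: `seamA12` in StA12.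
-/

set_option autoImplicit false

namespace Pool.Agent.W_7d29a1_C1.S12

open Finset
open Pool.Agent.W_7d29a1_F (Env)
open Pool.Agent.W_7d29a1_C1.K91P (fw fw_nonneg)
open Pool.Agent.W_7d29a1_C1.K91 (wt wt_pos)
open Pool.Agent.W_7d29a1_C1.FarW89 (nk nk_nonneg)
open Pool.Agent.W_7d29a1_C1.D31 (fsum DP31)

noncomputable section

/-- The window. -/
def win (I : Finset ℤ) (cen Wr : ℝ) : Finset ℤ := I.filter fun x : ℤ => |(x : ℝ) - cen| ≤ Wr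

theorem mem_win {I : Finset ℤ} {cen Wr : ℝ} {x : ℤ} : x ∈ win I cen Wr ↔ x ∈ I ∧ |(x : ℝ) - cen| ≤ Wr := mem_filter

theorem win_sub {I : Finset ℤ} {cen Wr : ℝ} : win I cen Wr ⊆ I := filter_subset _ _

/-- The data of the block for one group. -/
structure One12 (I : Finset ℤ) (cen cen' Wr : ℝ) (kap : ℤ → ℤ → ℝ) (y₀ yp : ℤ) (q gf : ℝ) (X F : ℤ → ℝ) : Prop where
  X0 : ∀ x, 0 ≤ X x
  Xy : 0 < X y₀
  F0 : ∀ z, 0 ≤ F z
  Fp : 0 < F yp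
  yw : |(y₀ : ℝ) - cen| ≤ Wr
  pI : yp ∈ I
  pw : |(yp : ℝ) - cen'| ≤ Wr
  tX : ∀ x x' : ℤ, |(x : ℝ) - cen| ≤ Wr → |(x' : ℝ) - cen| ≤ Wr → X x ≤ Real.exp q * X x'
  tF : ∀ x x' : ℤ, |(x : ℝ) - cen'| ≤ Wr → |(x' : ℝ) - cen'| ≤ Wr → F x ≤ Real.exp q * F x'
  far : fsum I cen cen' Wr kap X F ≤ Real.exp (-gf) * (X y₀ * F yp)

theorem oneL {I : Finset ℤ} {cen cen' Wr : ℝ} {kap : ℤ → ℤ → ℝ} {yl yr yp : ℤ} {g q gf : ℝ} {L R F : ℤ → ℝ}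
    (D : DP31 I cen cen' Wr kap yl yr yp g q gf L R F) (hL : ∀ x, 0 ≤ L x) (hF : ∀ z, 0 ≤ F z) (hl : |(yl : ℝ) - cen| ≤ Wr)
    (hI : yp ∈ I) (hp : |(yp : ℝ) - cen'| ≤ Wr) : One12 I cen cen' Wr kap yl yp q gf L F :=
  ⟨hL, D.Ll, hF, D.Fp, hl, hI, hp, D.tL, D.tF, D.farL⟩

theorem oneR {I : Finset ℤ} {cen cen' Wr : ℝ} {kap : ℤ → ℤ → ℝ} {yl yr yp : ℤ} {g q gf : ℝ} {L R F : ℤ → ℝ}
    (D : DP31 I cen cen' Wr kap yl yr yp g q gf L R F) (hR : ∀ x, 0 ≤ R x) (hF : ∀ z, 0 ≤ F z) (hr : |(yr : ℝ) - cen| ≤ Wr)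
    (hI : yp ∈ I) (hp : |(yp : ℝ) - cen'| ≤ Wr) : One12 I cen cen' Wr kap yr yp q gf R F :=
  ⟨hR, D.Rr, hF, D.Fp, hr, hI, hp, D.tR, D.tF, D.farR⟩

variable {I J W Wy P₂ Q₂ Q S : Finset ℤ} {cen cen' Wr : ℝ} {kap κ K : ℤ → ℤ → ℝ} {y₀ yp A₁ A₂ B₁ B₂ : ℤ} {q gf b : ℝ} {X F θ : ℤ → ℝ}

theorem One12.pos (o : One12 I cen cen' Wr kap y₀ yp q gf X F) {x : ℤ} (hx : |(x : ℝ) - cen| ≤ Wr) : 0 < X x := by
  have h1 := o.Xy.trans_le (o.tX y₀ x o.yw hx)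
  exact pos_of_mul_pos_right h1 (Real.exp_pos q).le

theorem One12.tame (o : One12 I cen cen' Wr kap y₀ yp q gf X F) (hθ : ∀ x ∈ win I cen Wr, Real.exp (-b) ≤ θ x ∧ θ x ≤ Real.exp b)
    {x A : ℤ} (hx : x ∈ win I cen Wr) (hA : A ∈ win I cen Wr) : X x * θ x ≤ Real.exp (q + 2 * b) * (X A * θ A) := by
  have h1 := o.tX x A (mem_win.1 hx).2 (mem_win.1 hA).2
  have h2 := hθ x hx
  have h3 := hθ A hA
  have h4 : θ x ≤ Real.exp (2 * b) * θ A := by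
    have h5 := mul_le_mul_of_nonneg_left h3.1 (Real.exp_pos (2 * b)).le
    rw [← Real.exp_add] at h5
    have h6 : 2 * b + -b = b := by ring
    rw [h6] at h5
    exact h2.2.trans h5
  have h7 : 0 ≤ θ x := (Real.exp_pos _).le.trans h2.1
  calc X x * θ x ≤ Real.exp q * X A * (Real.exp (2 * b) * θ A) := mul_le_mul h1 h4 h7 (mul_nonneg (Real.exp_pos _).le (o.X0 _))
    _ = _ := by
      rw [Real.exp_add]
      ring

/-- The joint far mass. -/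
theorem fsum_eq (hθ : ∀ x ∈ I, 0 < θ x) : ∑ p ∈ (I ×ˢ I) \ (win I cen Wr ×ˢ win I cen' Wr), X p.1 * θ p.1 * (kap p.1 p.2 / θ p.1) * F p.2 =
    fsum I cen cen' Wr kap X F := by
  classical
  unfold fsum
  rw [← sum_product']
  have e1 : ∀ p ∈ I ×ˢ I, (if |((p.1 : ℤ) : ℝ) - cen| ≤ Wr ∧ |((p.2 : ℤ) : ℝ) - cen'| ≤ Wr then 0 else X p.1 * kap p.1 p.2 * F p.2) =
      if p ∈ win I cen Wr ×ˢ win I cen' Wr then 0 else X p.1 * θ p.1 * (kap p.1 p.2 / θ p.1) * F p.2 := by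
    intro p hp
    rw [mem_product] at hp
    have h1 := hθ p.1 hp.1
    have h2 : p ∈ win I cen Wr ×ˢ win I cen' Wr ↔ |((p.1 : ℤ) : ℝ) - cen| ≤ Wr ∧ |((p.2 : ℤ) : ℝ) - cen'| ≤ Wr := by
      rw [mem_product, mem_win, mem_win]
      exact ⟨fun h3 => ⟨h3.1.2, h3.2.2⟩, fun h3 => ⟨⟨hp.1, h3.1⟩, hp.2, h3.2⟩⟩
    rw [if_congr h2 rfl rfl]
    split_ifs
    · rfl
    · field_simp
  rw [sum_congr rfl e1, sum_ite, sum_const_zero, zero_add]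
  refine sum_congr ?_ fun _ _ => rfl
  ext p
  rw [mem_sdiff, mem_filter]

/-- **The past and the future of the ball for one group.** `q₁` = tameness and weight of the start of the lane. -/
theorem ft12 (o : One12 I cen cen' Wr kap y₀ yp q gf X F) (hθ : ∀ x ∈ win I cen Wr, Real.exp (-b) ≤ θ x ∧ θ x ≤ Real.exp b)
    (hθ0 : ∀ x, 0 < θ x) (hA : A₁ ∈ win I cen Wr) {q₁ : ℝ} (hyA : X y₀ ≤ Real.exp q₁ * (X A₁ * θ A₁)) {e0 : ℝ} (he0 : 0 ≤ e0)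
    (comp : ∀ x ∈ I, ∀ z ∈ I, ∑ y ∈ J \ Q, K x y * κ y z ≤ kap x z / θ x)
    (near : ∀ x ∈ win I cen Wr, ∀ z ∈ win I cen' Wr, ∑ y ∈ J \ Q, K x y * κ y z ≤ e0) :
    Ft12 K κ (fun x z => kap x z / θ x) I J I (win I cen Wr) (win I cen' Wr) Q A₁ yp (fun x => X x * θ x) F (Real.exp (q + 2 * b))
      (Real.exp q) (Real.exp (-gf + q₁)) e0 where
  f0 := fun x => mul_nonneg (o.X0 x) (hθ0 x).le
  F0 := o.F0
  q0 := (Real.exp_pos _).le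
  qF0 := (Real.exp_pos _).le
  e00 := he0
  tame := fun x hx => o.tame hθ hx hA
  tF := fun z hz => o.tF z yp (mem_win.1 hz).2 o.pw
  comp := comp
  near := near
  far := by
    show ∑ p ∈ (I ×ˢ I) \ (win I cen Wr ×ˢ win I cen' Wr), X p.1 * θ p.1 * (kap p.1 p.2 / θ p.1) * F p.2 ≤ _
    rw [fsum_eq fun x _ => hθ0 x]
    refine o.far.trans ?_
    have h6 := mul_le_mul_of_nonneg_left (mul_le_mul_of_nonneg_right hyA o.Fp.le) (Real.exp_pos (-gf)).le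
    refine h6.trans (le_of_eq ?_)
    rw [Real.exp_add (-gf) q₁]
    ring

/-- **The profile of one group.** -/
theorem pf12 (o : One12 I cen cen' Wr kap y₀ yp q gf X F) (hθ : ∀ x ∈ win I cen Wr, Real.exp (-b) ≤ θ x ∧ θ x ≤ Real.exp b)
    (hθ0 : ∀ x, 0 < θ x) (hA : A₁ ∈ win I cen Wr) {q₁ : ℝ} (hyA : X y₀ ≤ Real.exp q₁ * (X A₁ * θ A₁)) {u th e0 κ₀ ef' : ℝ}
    (he0 : 0 ≤ e0)
    (hu : ∀ x ∈ P₂, X x * θ x ≤ Real.exp u * (X A₁ * θ A₁)) (hdom : Real.exp u * K A₂ B₂ ≤ th * K A₁ B₁)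
    (comp : ∀ x ∈ I, ∀ z ∈ I, ∑ y ∈ J \ Q, K x y * κ y z ≤ kap x z / θ x)
    (near : ∀ x ∈ win I cen Wr, ∀ z ∈ win I cen' Wr, ∑ y ∈ J \ Q, K x y * κ y z ≤ e0) (hkap : ∀ x z, 0 ≤ kap x z) (hκ₀ : 0 < κ₀)
    (cov : ∀ x ∈ I, ∀ y ∈ Q₂, K x y * κ₀ ≤ kap x yp / θ x) (he : Q₂.card * Real.exp (-gf + q₁) ≤ ef' * (κ₀ * K A₁ B₁)) :
    Pf12 K I (win I cen Wr) P₂ Q₂ A₁ A₂ B₁ B₂ (fun x => X x * θ x) (Real.exp (q + 2 * b)) (Real.exp u) ef' th where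
  f0 := fun x => mul_nonneg (o.X0 x) (hθ0 x).le
  q0 := (Real.exp_pos _).le
  U0 := (Real.exp_pos _).le
  tame := fun _ hx => o.tame hθ hx hA
  cell := hu
  dom := hdom
  fc := fc12 (ft12 o hθ hθ0 hA hyA he0 comp near) o.pI o.Fp (fun _ _ _ _ => div_nonneg (hkap _ _) (hθ0 _).le) hκ₀ cov he

/-- Positivity, from the masses with the weight of the row. -/
theorem pos12 {B : Finset ℤ} {a θ g : ℤ → ℝ} {Λ : ℝ} (hΛ : 0 < Λ) (ha : ∀ y ∈ B, 0 ≤ a y) (haθ : ∀ y ∈ B, a y * θ y = Λ * g y)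
    (h : 0 < ∑ y ∈ B, g y) : 0 < ∑ y ∈ B, a y := by
  refine lt_of_le_of_ne (sum_nonneg ha) fun h1 => h.ne' ?_
  have h2 := (sum_eq_zero_iff_of_nonneg ha).1 h1.symm
  refine sum_eq_zero fun y hy => ?_
  have h3 := haθ y hy
  rw [h2 y hy, zero_mul] at h3
  exact (mul_eq_zero.1 h3.symm).resolve_left hΛ.ne'

/-- **The starts of the lanes for the real profiles** (with the weights of the row `i`) and the target `(u - v) / 2` of the tuning; only the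
window `W` of the starts and its tameness `q₁` are used. -/
theorem starts_real12 {η : Env} {p : ℕ → ℝ} {i : ℕ} {l r : ℤ → ℝ} {XX : ℤ} (hp : ∀ k, 0 < p k) (hG : K91.Grp l r XX)
    {W : Finset ℤ} {yl yr : ℤ} {g q₁ b : ℝ}
    (pL : ∀ x ∈ W, 0 < fw (wt η) p l i x) (pR : ∀ x ∈ W, 0 < fw (wt η) p r i x)
    (tL : ∀ x ∈ W, ∀ x' ∈ W, fw (wt η) p l i x ≤ Real.exp q₁ * fw (wt η) p l i x')
    (tR : ∀ x ∈ W, ∀ x' ∈ W, fw (wt η) p r i x ≤ Real.exp q₁ * fw (wt η) p r i x')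
    (hg : g ≤ Real.log (fw (wt η) p l i yl) + Real.log (fw (wt η) p r i yr) - Real.log (fw (wt η) p l i yr) -
      Real.log (fw (wt η) p r i yl)) (hyl : yl ∈ W) (hyr : yr ∈ W)
    (θw : ∀ x ∈ W, Real.exp (-b) ≤ wt η i x ∧ wt η i x ≤ Real.exp b)
    {x₁ x₂ : ℤ} {Ns d : ℕ} {ε : ℝ} (hN : 1 ≤ Ns) (hW₁ : ∀ x, |x - x₁| ≤ Ns * d → x ∈ W)
    (hW₂ : ∀ x, |x - x₂| ≤ Ns * d → x ∈ W) (h₁ : x₁ + ((Ns : ℤ) - 1) * d ≤ yl) (h₂ : yr ≤ x₂ - ((Ns : ℤ) - 1) * d)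
    (hq : q₁ + 2 * b ≤ Ns * ε) :
    ∃ (A₁ A₂ : ℤ) (u v : ℝ), |A₁ - x₁| ≤ ((Ns : ℤ) - 1) * d ∧ |A₂ - x₂| ≤ ((Ns : ℤ) - 1) * d ∧
      A₁ ∈ W ∧ A₂ ∈ W ∧ (∀ x, |x - A₁| ≤ d → x ∈ W) ∧ (∀ x, |x - A₂| ≤ d → x ∈ W) ∧
      (∀ x, |x - A₂| ≤ d → fw (wt η) p l i x * wt η i x ≤ Real.exp u * (fw (wt η) p l i A₁ * wt η i A₁)) ∧
      (∀ x, |x - A₁| ≤ d → fw (wt η) p r i x * wt η i x ≤ Real.exp v * (fw (wt η) p r i A₂ * wt η i A₂)) ∧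
      u + v ≤ 2 * ε - g ∧ |(u - v) / 2| ≤ q₁ + 2 * b := by
  have w0 : ∀ x, 0 < wt η i x := fun x => wt_pos η i x
  have lgt : ∀ {X : ℤ → ℝ}, (∀ x ∈ W, 0 < X x) → (∀ x ∈ W, ∀ x' ∈ W, X x ≤ Real.exp q₁ * X x') → ∀ x ∈ W, ∀ x' ∈ W,
      Real.log (X x * wt η i x) ≤ Real.log (X x' * wt η i x') + (q₁ + 2 * b) := by
    intro X pX tX x hx x' hx'
    have h1 := Real.log_le_log (pX x hx) (tX x hx x' hx')
    rw [Real.log_mul (Real.exp_pos _).ne' (pX x' hx').ne', Real.log_exp] at h1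
    have h2 := Real.log_le_log (w0 x) (θw x hx).2
    have h3 := Real.log_le_log (Real.exp_pos _) (θw x' hx').1
    rw [Real.log_exp] at h2 h3
    rw [Real.log_mul (pX x hx).ne' (w0 x).ne', Real.log_mul (pX x' hx').ne' (w0 x').ne']
    linarith
  refine starts12 (fl := fun x => fw (wt η) p l i x * wt η i x) (fr := fun x => fw (wt η) p r i x * wt η i x) (g := g) hN
    W hW₁ hW₂ hyl hyr (fun x hx => ⟨mul_pos (pL x hx) (w0 x), mul_pos (pR x hx) (w0 x)⟩) ?_ h₁ h₂ ?_ ?_ ?_ hq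
  · intro x y hxy
    have h3 := K91P.dp_nonneg (wt_pos η) hp hG i x y hxy
    have h4 : 0 ≤ wt η i x * wt η i y := (mul_pos (w0 x) (w0 y)).le
    have h5 : 0 ≤ fw (wt η) p l i x * fw (wt η) p r i y - fw (wt η) p l i y * fw (wt η) p r i x := h3
    have h6 := mul_nonneg h5 h4
    linarith
  · show g ≤ Real.log (fw (wt η) p l i yl * wt η i yl) + Real.log (fw (wt η) p r i yr * wt η i yr) -
      Real.log (fw (wt η) p l i yr * wt η i yr) - Real.log (fw (wt η) p r i yl * wt η i yl)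
    rw [Real.log_mul (pL yl hyl).ne' (w0 _).ne', Real.log_mul (pR yr hyr).ne' (w0 _).ne', Real.log_mul (pL yr hyr).ne' (w0 _).ne',
      Real.log_mul (pR yl hyl).ne' (w0 _).ne']
    linarith
  · exact fun x hx x' hx' => lgt pL tL x hx x' hx'
  · exact fun x hx x' hx' => lgt pR tR x hx x' hx'

end

end Pool.Agent.W_7d29a1_C1.S12
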