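import Pool.Agent.W_7d29a1_C1.SeamW9
import Pool.Agent.W_7d29a1_C1.KAll21

/-!
MP_7d29a1_pr, attractor route [C1], SHELL, fresh ball (helper47 87325 (7b)): **CHANGE OF THE SLOPE IN `SeamIn`** and **a lower bound of the
slope `js` on the cells**. (helper75)

* `SeamI_scale`, `SeamIn_scale` : `ph' ≤ c ph` on the box ⇒ the seam for `ph'` with `e1' = c e1` (`e2` unchanged);
* `js_chg` : `G0 ≤ c G0'`, `Φ ≤ Φ'` ⇒ `js (G0') / Φ' ≤ c (js (G0) / Φ)`;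
* `js_low`, `js_lowc` : `κ ≤ k y zc * G zc / G0` ⇒ `κ / Φ ≤ js / Φ` (`G0 = G zc` : `κ ≤ k y zc`), the hypothesis `lw` of `SeamIn_widen`;
* `SeamIn_js` : all three in one step.
-/

set_option autoImplicit false
set_option linter.unusedSectionVars false
set_option linter.unusedVariables false

namespace Pool.Agent.W_7d29a1_C1.SS75

open Finset
open Pool.Agent.W_7d29a1_C1.S83 (SeamI)
open Pool.Agent.W_7d29a1_C1.Sh21 (SeamIn js js_nonneg)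

variable {S β₁ β₂ Z : Finset ℤ} {a b ph ph' G : ℤ → ℝ} {k : ℤ → ℤ → ℝ} {e1 e2 c κ G0 G0' Φ Φ' : ℝ} {lo h a1 b1 a2 b2 y zc : ℤ}

/-- **A smaller slope** (`ph' ≤ c ph`) : `e1' = c e1`. -/
theorem SeamI_scale (H : SeamI S β₁ β₂ a b ph e1 e2) (a0 : ∀ x, 0 ≤ a x) (b0 : ∀ x, 0 ≤ b x) (hc : 0 ≤ c)
    (hp : ∀ x ∈ S, ph' x ≤ c * ph x) : SeamI S β₁ β₂ a b ph' (c * e1) e2 := by
  have off : ∀ f : ℤ → ℝ, (∀ x, 0 ≤ f x) → ∑ x ∈ S \ (β₁ ∪ β₂), f x * ph x ≤ e1 * ∑ x ∈ β₁ ∪ β₂, f x →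
      ∑ x ∈ S \ (β₁ ∪ β₂), f x * ph' x ≤ (c * e1) * ∑ x ∈ β₁ ∪ β₂, f x := by
    intro f f0 hf
    have h1 : ∑ x ∈ S \ (β₁ ∪ β₂), f x * ph' x ≤ c * ∑ x ∈ S \ (β₁ ∪ β₂), f x * ph x := by
      rw [mul_sum]
      refine sum_le_sum fun x hx => ?_
      have := mul_le_mul_of_nonneg_left (hp x (mem_sdiff.1 hx).1) (f0 x)
      linarith
    refine h1.trans ?_
    rw [mul_assoc]
    exact mul_le_mul_of_nonneg_left hf hc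
  exact ⟨off a a0 H.offa, off b b0 H.offb, H.ta, H.tb⟩

theorem SeamIn_scale (H : SeamIn lo h a b a1 b1 a2 b2 ph e1 e2) (a0 : ∀ x, 0 ≤ a x) (b0 : ∀ x, 0 ≤ b x) (hc : 0 ≤ c)
    (hp : ∀ x ∈ Icc lo h, ph' x ≤ c * ph x) : SeamIn lo h a b a1 b1 a2 b2 ph' (c * e1) e2 :=
  ⟨SeamI_scale H.I a0 b0 hc hp, H.p2, H.p1⟩

/-- Larger errors. -/
theorem SeamIn_mono {e1' e2' : ℝ} (H : SeamIn lo h a b a1 b1 a2 b2 ph e1 e2) (a0 : ∀ x, 0 ≤ a x) (b0 : ∀ x, 0 ≤ b x)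
    (h1 : e1 ≤ e1') (h2 : e2 ≤ e2') : SeamIn lo h a b a1 b1 a2 b2 ph e1' e2' := by
  refine ⟨⟨H.I.offa.trans ?_, H.I.offb.trans ?_, H.I.ta.trans ?_, H.I.tb.trans ?_⟩, H.p2, H.p1⟩
  · exact mul_le_mul_of_nonneg_right h1 (sum_nonneg fun x _ => a0 x)
  · exact mul_le_mul_of_nonneg_right h1 (sum_nonneg fun x _ => b0 x)
  · exact mul_le_mul_of_nonneg_right h2 (sum_nonneg fun x _ => a0 x)
  · exact mul_le_mul_of_nonneg_right h2 (sum_nonneg fun x _ => b0 x)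

/-- **Another size of the future** : `G0 ≤ c G0'`, `Φ ≤ Φ'`. -/
theorem js_chg (hk : ∀ z ∈ Z, 0 ≤ k y z) (hG : ∀ z ∈ Z, 0 ≤ G z) (h0 : 0 < G0) (h0' : 0 < G0') (hc : G0 ≤ c * G0')
    (hΦ : 0 < Φ) (hΦ' : Φ ≤ Φ') : js Z k G G0' y / Φ' ≤ c * (js Z k G G0 y / Φ) := by
  have s0 : 0 ≤ ∑ z ∈ Z, k y z * G z := sum_nonneg fun z hz => mul_nonneg (hk z hz) (hG z hz)
  have hc0 : 0 < c := by
    by_contra hn
    have := mul_nonpos_of_nonpos_of_nonneg (not_lt.1 hn) h0'.le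
    linarith
  have h1 : js Z k G G0' y ≤ c * js Z k G G0 y := by
    unfold js
    rw [div_le_iff₀ h0', mul_div_assoc', div_mul_eq_mul_div, le_div_iff₀ h0]
    have := mul_le_mul_of_nonneg_left hc s0
    linarith
  have h2 : 0 ≤ js Z k G G0 y := js_nonneg hk hG h0.le
  rw [mul_div_assoc']
  exact div_le_div₀ (mul_nonneg hc0.le h2) h1 hΦ hΦ'

/-- **Lower bound of the slope**, one column of the last row. -/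
theorem js_low (hz : zc ∈ Z) (hk : ∀ z ∈ Z, 0 ≤ k y z) (hG : ∀ z ∈ Z, 0 ≤ G z) (h0 : 0 < G0) (hΦ : 0 < Φ)
    (hκ : κ ≤ k y zc * G zc / G0) : κ / Φ ≤ js Z k G G0 y / Φ := by
  refine div_le_div_of_nonneg_right (hκ.trans ?_) hΦ.le
  exact div_le_div_of_nonneg_right (single_le_sum (f := fun z => k y z * G z) (fun z hz => mul_nonneg (hk z hz) (hG z hz)) hz) h0.le

/-- The same with `G0 = G zc` (So47 of helper47). -/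
theorem js_lowc (hz : zc ∈ Z) (hk : ∀ z ∈ Z, 0 ≤ k y z) (hG : ∀ z ∈ Z, 0 ≤ G z) (h0 : 0 < G zc) (hΦ : 0 < Φ)
    (hκ : κ ≤ k y zc) : κ / Φ ≤ js Z k G (G zc) y / Φ :=
  js_low hz hk hG h0 hΦ (by rwa [mul_div_assoc, div_self h0.ne', mul_one])

/-- `G0 ≤ Ψ G zc` (any size `G0` comparable to the future at the column `zc`). -/
theorem js_low_of {Ψ : ℝ} (hz : zc ∈ Z) (hk : ∀ z ∈ Z, 0 ≤ k y z) (hG : ∀ z ∈ Z, 0 ≤ G z) (h0 : 0 < G0) (hΨ : 0 < Ψ)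
    (hg : G0 ≤ Ψ * G zc) (hΦ : 0 < Φ) (hκ : κ ≤ k y zc) (hκ0 : 0 ≤ κ) : κ / Ψ / Φ ≤ js Z k G G0 y / Φ := by
  refine js_low hz hk hG h0 hΦ ?_
  rw [div_le_div_iff₀ hΨ h0]
  have h1 := mul_le_mul_of_nonneg_left hg hκ0
  have h2 := mul_le_mul_of_nonneg_right hκ (mul_nonneg hΨ.le (hG zc hz))
  nlinarith

/-- **SeamIn : new size of the future (`G0 ≤ c G0'`, `Φ ≤ Φ'`) and larger cells, in one step.** `κ` = lower bound of the envelope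
towards the column `zc`, `G0' ≤ Ψ G zc`. -/
theorem SeamIn_js {a1' b1' a2' b2' : ℤ} {Ψ : ℝ} (H : SeamIn lo h a b a1 b1 a2 b2 (fun y => js Z k G G0 y / Φ) e1 e2)
    (a0 : ∀ x, 0 ≤ a x) (b0 : ∀ x, 0 ≤ b x) (hk : ∀ y, ∀ z ∈ Z, 0 ≤ k y z) (hG : ∀ z ∈ Z, 0 ≤ G z) (h0 : 0 < G0) (h0' : 0 < G0')
    (hc : G0 ≤ c * G0') (hc0 : 0 ≤ c) (hΦ : 0 < Φ) (hΦ' : Φ ≤ Φ')
    (g1 : lo ≤ a1') (g2 : a1' ≤ a1) (g3 : b1 ≤ b1') (g4 : b1' < a2') (g5 : a2' ≤ a2) (g6 : b2 ≤ b2') (g7 : b2' ≤ h) (g8 : a1' ≤ b1')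
    (g9 : a2' ≤ b2') (hz : zc ∈ Z) (hΨ : 0 < Ψ) (hg : G0' ≤ Ψ * G zc) (hκ0 : 0 < κ)
    (hκ : ∀ y ∈ Icc a1' b1' ∪ Icc a2' b2', κ ≤ k y zc) (he1 : 0 ≤ e1) (he2 : 0 ≤ e2) :
    SeamIn lo h a b a1' b1' a2' b2' (fun y => js Z k G G0' y / Φ') (c * e1) (e2 + c * e1 * (1 + e2) / (κ / Ψ / Φ')) := by
  have h1 := SeamIn_scale (ph' := fun y => js Z k G G0' y / Φ') H a0 b0 hc0 (fun x _ => js_chg (hk x) hG h0 h0' hc hΦ hΦ')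
  have p0 : 0 < Φ' := lt_of_lt_of_le hΦ hΦ'
  exact Lt9.SeamIn_widen h1 a0 b0 g1 g2 g3 g4 g5 g6 g7 g8 g9 (div_pos (div_pos hκ0 hΨ) p0)
    (fun x _ => div_nonneg (js_nonneg (hk x) hG h0'.le) p0.le)
    (fun x hx => js_low_of hz (hk x) hG h0' hΨ hg p0 (hκ x hx) hκ0.le) (mul_nonneg hc0 he1) he2

end Pool.Agent.W_7d29a1_C1.SS75
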