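import Pool.Agent.W_7d29a1_C1.Suc21

/-!
Both halves (MP_7d29a1_pr), attractor route [C1], SHELL: THE CELLS OF THE FIRST SEAM MAY BE ENLARGED. (helper9)

The functions of the inside and of the outside (`vI`, `PI`, `bO`) use the ends of the cells, so the cells must be fixed by the level.
`SeamI.widen`, `SeamIn.widen` : `SeamI` for smaller cells (radius chosen by the environment) gives `SeamI` for larger fixed cells, if the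
slope is at least `κ` on the larger cells; `e2` becomes `e2 + e1 * (1 + e2) / κ`.
-/

set_option autoImplicit false

namespace Pool.Agent.W_7d29a1_C1.Lt9

open Finset
open Pool.Agent.W_7d29a1_C1.Sh21 (SeamIn)
open Pool.Agent.W_7d29a1_C1.S83 (SeamI)

/-- One group. -/
theorem widen_one {S β₁ β₂ β₁' β₂' : Finset ℤ} {a ph : ℤ → ℝ} {e1 e2 κ : ℝ} (a0 : ∀ x, 0 ≤ a x) (s1 : β₁ ⊆ β₁') (s2 : β₂ ⊆ β₂')
    (hS2 : β₂' ⊆ S) (dj : Disjoint β₁ β₂') (hκ : 0 < κ) (ph0 : ∀ x ∈ S, 0 ≤ ph x) (lw : ∀ x ∈ β₂', κ ≤ ph x) (he1 : 0 ≤ e1)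
    (he2 : 0 ≤ e2) (off : ∑ x ∈ S \ (β₁ ∪ β₂), a x * ph x ≤ e1 * ∑ x ∈ β₁ ∪ β₂, a x) (t : ∑ x ∈ β₂, a x ≤ e2 * ∑ x ∈ β₁, a x) :
    ∑ x ∈ β₂', a x ≤ (e2 + e1 * (1 + e2) / κ) * ∑ x ∈ β₁', a x := by
  classical
  have A0 : 0 ≤ ∑ x ∈ β₁, a x := sum_nonneg fun x _ => a0 x
  have m1 : ∑ x ∈ β₁, a x ≤ ∑ x ∈ β₁', a x := sum_le_sum_of_subset_of_nonneg s1 fun x _ _ => a0 x
  have u : ∑ x ∈ β₁ ∪ β₂, a x ≤ (1 + e2) * ∑ x ∈ β₁, a x := by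
    have : ∑ x ∈ β₁ ∪ β₂, a x ≤ ∑ x ∈ β₁, a x + ∑ x ∈ β₂, a x := by
      rw [← sum_union_inter]
      have := sum_nonneg (s := β₁ ∩ β₂) fun x _ => a0 x
      linarith
    linarith
  have e0 : ∑ x ∈ β₂', a x = ∑ x ∈ β₂' \ β₂, a x + ∑ x ∈ β₂, a x := (sum_sdiff s2).symm
  have sub : β₂' \ β₂ ⊆ S \ (β₁ ∪ β₂) := by
    intro x hx
    rw [mem_sdiff] at hx ⊢
    refine ⟨hS2 hx.1, fun hc => ?_⟩
    rcases mem_union.1 hc with h | h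
    · exact disjoint_left.1 dj h hx.1
    · exact hx.2 h
  have k1 : κ * ∑ x ∈ β₂' \ β₂, a x ≤ ∑ x ∈ S \ (β₁ ∪ β₂), a x * ph x := by
    rw [mul_sum]
    refine (sum_le_sum fun x hx => ?_).trans (sum_le_sum_of_subset_of_nonneg sub fun x hx _ => ?_)
    · rw [mul_comm]
      exact mul_le_mul_of_nonneg_left (lw x (mem_sdiff.1 hx).1) (a0 x)
    · exact mul_nonneg (a0 x) (ph0 x (mem_sdiff.1 hx).1)
  have k2 : ∑ x ∈ β₂' \ β₂, a x ≤ e1 * (1 + e2) / κ * ∑ x ∈ β₁, a x := by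
    have h1 := (k1.trans off).trans (mul_le_mul_of_nonneg_left u he1)
    rw [div_mul_eq_mul_div, le_div_iff₀ hκ]
    linarith
  have c0 : 0 ≤ e2 + e1 * (1 + e2) / κ := by positivity
  calc ∑ x ∈ β₂', a x ≤ (e2 + e1 * (1 + e2) / κ) * ∑ x ∈ β₁, a x := by
        rw [e0, add_mul]
        linarith
    _ ≤ _ := mul_le_mul_of_nonneg_left m1 c0

/-- **LARGER CELLS.** -/
theorem SeamI_widen {S β₁ β₂ β₁' β₂' : Finset ℤ} {a b ph : ℤ → ℝ} {e1 e2 κ : ℝ} (h : SeamI S β₁ β₂ a b ph e1 e2)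
    (a0 : ∀ x, 0 ≤ a x) (b0 : ∀ x, 0 ≤ b x) (s1 : β₁ ⊆ β₁') (s2 : β₂ ⊆ β₂') (hS1 : β₁' ⊆ S) (hS2 : β₂' ⊆ S)
    (dj : Disjoint β₁' β₂') (hκ : 0 < κ) (ph0 : ∀ x ∈ S, 0 ≤ ph x) (lw : ∀ x ∈ β₁' ∪ β₂', κ ≤ ph x) (he1 : 0 ≤ e1) (he2 : 0 ≤ e2) :
    SeamI S β₁' β₂' a b ph e1 (e2 + e1 * (1 + e2) / κ) := by
  classical
  have uu : β₁ ∪ β₂ ⊆ β₁' ∪ β₂' := union_subset_union s1 s2
  have off : ∀ f : ℤ → ℝ, (∀ x, 0 ≤ f x) → ∑ x ∈ S \ (β₁ ∪ β₂), f x * ph x ≤ e1 * ∑ x ∈ β₁ ∪ β₂, f x →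
      ∑ x ∈ S \ (β₁' ∪ β₂'), f x * ph x ≤ e1 * ∑ x ∈ β₁' ∪ β₂', f x := by
    intro f f0 hf
    have h1 : ∑ x ∈ S \ (β₁' ∪ β₂'), f x * ph x ≤ ∑ x ∈ S \ (β₁ ∪ β₂), f x * ph x :=
      sum_le_sum_of_subset_of_nonneg (sdiff_subset_sdiff Subset.rfl uu) fun x hx _ => mul_nonneg (f0 x) (ph0 x (mem_sdiff.1 hx).1)
    have h2 : ∑ x ∈ β₁ ∪ β₂, f x ≤ ∑ x ∈ β₁' ∪ β₂', f x := sum_le_sum_of_subset_of_nonneg uu fun x _ _ => f0 x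
    exact h1.trans (hf.trans (mul_le_mul_of_nonneg_left h2 he1))
  refine ⟨off a a0 h.offa, off b b0 h.offb, ?_, ?_⟩
  · exact widen_one a0 s1 s2 hS2 (dj.mono_left s1) hκ ph0 (fun x hx => lw x (mem_union_right _ hx)) he1 he2 h.offa h.ta
  · refine widen_one b0 s2 s1 hS1 (dj.symm.mono_left s2) hκ ph0 (fun x hx => lw x (mem_union_left _ hx)) he1 he2 ?_ h.tb
    rw [union_comm β₂ β₁]
    exact h.offb

/-- **`SeamIn` with larger cells.** -/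
theorem SeamIn_widen {lo h : ℤ} {a b : ℤ → ℝ} {a1 b1 a2 b2 a1' b1' a2' b2' : ℤ} {ph : ℤ → ℝ} {e1 e2 κ : ℝ}
    (H : SeamIn lo h a b a1 b1 a2 b2 ph e1 e2) (a0 : ∀ x, 0 ≤ a x) (b0 : ∀ x, 0 ≤ b x) (g1 : lo ≤ a1') (g2 : a1' ≤ a1) (g3 : b1 ≤ b1')
    (g4 : b1' < a2') (g5 : a2' ≤ a2) (g6 : b2 ≤ b2') (g7 : b2' ≤ h) (g8 : a1' ≤ b1') (g9 : a2' ≤ b2') (hκ : 0 < κ)
    (ph0 : ∀ x ∈ Icc lo h, 0 ≤ ph x) (lw : ∀ x ∈ Icc a1' b1' ∪ Icc a2' b2', κ ≤ ph x) (he1 : 0 ≤ e1) (he2 : 0 ≤ e2) :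
    SeamIn lo h a b a1' b1' a2' b2' ph e1 (e2 + e1 * (1 + e2) / κ) := by
  refine ⟨SeamI_widen H.I a0 b0 (Icc_subset_Icc g2 g3) (Icc_subset_Icc g5 g6) (Icc_subset_Icc g1 (by omega))
    (Icc_subset_Icc (by omega) g7) ?_ hκ ph0 lw he1 he2, ?_, ?_⟩
  · rw [disjoint_left]
    intro x hx hx'
    rw [mem_Icc] at hx hx'
    omega
  · exact lt_of_lt_of_le H.p2 (sum_le_sum_of_subset_of_nonneg (Icc_subset_Icc g5 g6) fun x _ _ => a0 x)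
  · exact lt_of_lt_of_le H.p1 (sum_le_sum_of_subset_of_nonneg (Icc_subset_Icc g2 g3) fun x _ _ => b0 x)

end Pool.Agent.W_7d29a1_C1.Lt9
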