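import Pool.Agent.W_7d29a1_C1.CtxM68
import Pool.Agent.W_7d29a1_C1.KerP16

/-!
[C1] SEP, S10: PAIR ALGEBRA over K91P (helper35). `bf`: backward masses with a terminal profile; `un k f g`: the pairs which have not met up
to the row `k`, futures `f` (left path), `g` (right path); `me k f g`: the pairs which have met; `cw b f g c`: the first meeting is at the
contact `c` (`= (i, q)`: site `q` of the row `i + 1`), profiles `f`, `g` at the row `b`. Transport from row to row (`un_sum`, `me_sum`), cells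
(`cell_le`: the first meetings in a cell against the paths which visit the cell), splices (`*_congr`), quotients `Ur + Mr = 1` and their
change under a change of the futures (`Ur_off`, `Ur_ratio`), the natural quantities (`nm_eq`, `w_eq`, `early_eq`, `late_eq`).
-/

set_option autoImplicit false

namespace Pool.Agent.W_7d29a1_C1.SepA35

open Finset
open Pool.Agent.W_7d29a1_C1.K91 (Grp Box ps2 ps2_congr ps2_add ps2_mul sum_shift)
open Pool.Agent.W_7d29a1_C1.K91P
open Pool.Agent.W_7d29a1_C1.U16 (ker ker_zero ker_succ ker_eq_zero)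

noncomputable section

/-- Backward masses, `j` rows from the row `k` on, terminal profile `f`. -/
def bf (w : ℕ → ℤ → ℝ) (p : ℕ → ℝ) (f : ℤ → ℝ) : ℕ → ℕ → ℤ → ℝ
  | _, 0, y => f y
  | k, j + 1, y => w k y * (bf w p f (k + 1) j y + p k * bf w p f (k + 1) j (y + 1))

variable {w w' : ℕ → ℤ → ℝ} {p : ℕ → ℝ} {l r : ℤ → ℝ} {X lo hi : ℤ} {N : ℕ}

theorem bf_zero (f : ℤ → ℝ) (k : ℕ) (y : ℤ) : bf w p f k 0 y = f y := by
  cases k <;> rfl

theorem bf_succ (f : ℤ → ℝ) (k j : ℕ) (y : ℤ) :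
    bf w p f k (j + 1) y = w k y * (bf w p f (k + 1) j y + p k * bf w p f (k + 1) j (y + 1)) := by
  cases k <;> rfl

theorem bf_one : ∀ (j k : ℕ) (y : ℤ), bf w p (fun _ => 1) k j y = bw w p k j y
  | 0, k, y => by rw [bf_zero, bw_zero]
  | j + 1, k, y => by rw [bf_succ, bw_succ, bf_one j, bf_one j]

theorem bf_nonneg (hw : ∀ k y, 0 < w k y) (hp : ∀ k, 0 < p k) {f : ℤ → ℝ} (hf : ∀ y, 0 ≤ f y) : ∀ (j k : ℕ) (y : ℤ), 0 ≤ bf w p f k j y
  | 0, k, y => by rw [bf_zero]; exact hf y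
  | j + 1, k, y => by
    rw [bf_succ]
    have h1 := bf_nonneg hw hp hf j (k + 1) y
    have h2 := bf_nonneg hw hp hf j (k + 1) (y + 1)
    have h3 := hw k y
    have hpk := hp k
    positivity

theorem bf_mono (hw : ∀ k y, 0 < w k y) (hp : ∀ k, 0 < p k) {f g : ℤ → ℝ} (hfg : ∀ y, f y ≤ g y) :
    ∀ (j k : ℕ) (y : ℤ), bf w p f k j y ≤ bf w p g k j y
  | 0, k, y => by rw [bf_zero, bf_zero]; exact hfg y
  | j + 1, k, y => by
    rw [bf_succ, bf_succ]
    have h1 := bf_mono hw hp hfg j (k + 1) y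
    have h2 := bf_mono hw hp hfg j (k + 1) (y + 1)
    exact mul_le_mul_of_nonneg_left (add_le_add h1 (mul_le_mul_of_nonneg_left h2 (hp k).le)) (hw k y).le

theorem bf_smul (c : ℝ) (f : ℤ → ℝ) : ∀ (j k : ℕ) (y : ℤ), bf w p (fun y => c * f y) k j y = c * bf w p f k j y
  | 0, k, y => by rw [bf_zero, bf_zero]
  | j + 1, k, y => by
    rw [bf_succ, bf_succ, bf_smul c f j, bf_smul c f j]
    ring

theorem bf_sum (f g : ℤ → ℝ) : ∀ (j k : ℕ) (y : ℤ), bf w p (fun y => f y + g y) k j y = bf w p f k j y + bf w p g k j y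
  | 0, k, y => by rw [bf_zero, bf_zero, bf_zero]
  | j + 1, k, y => by
    rw [bf_succ, bf_succ, bf_succ, bf_sum f g j, bf_sum f g j]
    ring

/-- The backward masses read only their rows. -/
theorem bf_congr (f : ℤ → ℝ) : ∀ (j k : ℕ), (∀ i, k ≤ i → i < k + j → ∀ y, w i y = w' i y) → ∀ y, bf w p f k j y = bf w' p f k j y
  | 0, k, _, y => by rw [bf_zero, bf_zero]
  | j + 1, k, h, y => by
    have ih := bf_congr f j (k + 1) (fun i h1 h2 => h i (by omega) (by omega))
    rw [bf_succ, bf_succ, ih y, ih (y + 1), h k le_rfl (by omega) y]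

/-- Composition. -/
theorem bf_add (f : ℤ → ℝ) (n : ℕ) : ∀ (m k : ℕ) (y : ℤ), bf w p f k (m + n) y = bf w p (bf w p f (k + m) n) k m y
  | 0, k, y => by
    rw [bf_zero]
    congr 1
    omega
  | m + 1, k, y => by
    have e : m + 1 + n = (m + n) + 1 := by ring
    have e2 : k + (m + 1) = k + 1 + m := by ring
    rw [e, bf_succ, bf_succ, bf_add f n m (k + 1), bf_add f n m (k + 1), e2]

/-- The backward masses from the kernels. -/
theorem bf_ker (f : ℤ → ℝ) (i : ℕ) : ∀ (n : ℕ) (x : ℤ), bf w p f i n x = ∑ y ∈ Icc x (x + n), ker w p i n x y * f y := by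
  intro n
  induction n generalizing f with
  | zero =>
    intro x
    have e : Icc x (x + ((0 : ℕ) : ℤ)) = {x} := by simp
    rw [e, sum_singleton, ker_zero, if_pos rfl, one_mul, bf_zero]
  | succ n ih =>
    intro x
    rw [bf_add f 1 n i x, ih (bf w p f (i + n) 1) x]
    have h1 : ∀ y ∈ Icc x (x + (n : ℤ)), ker w p i n x y * bf w p f (i + n) 1 y =
        ker w p i n x y * w (i + n) y * f y + p (i + n) * (ker w p i n x y * w (i + n) y * f (y + 1)) := by
      intro y _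
      rw [bf_succ, bf_zero, bf_zero]
      ring
    rw [sum_congr rfl h1, sum_add_distrib]
    have h2 : ∑ y ∈ Icc x (x + (n : ℤ)), ker w p i n x y * w (i + n) y * f y =
        ∑ y ∈ Icc x (x + ((n + 1 : ℕ) : ℤ)), ker w p i n x y * w (i + n) y * f y := by
      refine sum_subset (Icc_subset_Icc le_rfl (by push_cast; omega)) fun y hy hy' => ?_
      rw [mem_Icc] at hy hy'
      rw [ker_eq_zero i n x y (fun h => hy' ⟨hy.1, h.2⟩)]
      ring
    have h3 : ∑ y ∈ Icc x (x + (n : ℤ)), p (i + n) * (ker w p i n x y * w (i + n) y * f (y + 1)) =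
        ∑ y ∈ Icc x (x + ((n + 1 : ℕ) : ℤ)), p (i + n) * (ker w p i n x (y - 1) * w (i + n) (y - 1) * f y) := by
      have h4 : ∑ y ∈ Icc x (x + (n : ℤ)), p (i + n) * (ker w p i n x y * w (i + n) y * f (y + 1)) =
          ∑ y ∈ Icc (x + 1) (x + (n : ℤ) + 1), p (i + n) * (ker w p i n x (y - 1) * w (i + n) (y - 1) * f y) := by
        refine sum_bij (fun y _ => y + 1) (fun y hy => ?_) (fun a _ b _ hab => by simpa using hab) (fun y hy => ?_) (fun y _ => ?_)
        · rw [mem_Icc] at hy ⊢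
          omega
        · rw [mem_Icc] at hy
          exact ⟨y - 1, mem_Icc.2 ⟨by omega, by omega⟩, by ring⟩
        · rw [add_sub_cancel_right]
      rw [h4]
      refine sum_subset (Icc_subset_Icc (by omega) (by push_cast; omega)) fun y hy hy' => ?_
      rw [mem_Icc] at hy hy'
      push_cast at hy
      rw [ker_eq_zero i n x (y - 1) (fun h => hy' ⟨by omega, by omega⟩)]
      ring
    rw [h2, h3, ← sum_add_distrib]
    refine sum_congr rfl fun y _ => ?_
    rw [ker_succ]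
    ring

/-! ### Transport of single masses -/

/-- One row. -/
theorem sum_fw_step {m : ℤ → ℝ} (hlh : lo ≤ hi) (h0 : ∀ y, y < lo → m y = 0) (h1 : ∀ y, hi - N < y → m y = 0) (f : ℤ → ℝ) {k : ℕ}
    (hk : k < N) : ∑ x ∈ Icc lo hi, fw w p m k x * (w k x * (f x + p k * f (x + 1))) = ∑ y ∈ Icc lo hi, fw w p m (k + 1) y * f y := by
  have hkN : (k : ℤ) < N := by exact_mod_cast hk
  have e0 : ∀ y ∈ Icc lo hi, fw w p m (k + 1) y * f y = w k y * fw w p m k y * f y +
      (fun z => p k * (w k z * fw w p m k z) * f (z + 1)) (y - 1) := by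
    intro y _
    show _ = _ + p k * (w k (y - 1) * fw w p m k (y - 1)) * f (y - 1 + 1)
    rw [fw_succ, sub_add_cancel]
    ring
  have e1 : ∑ y ∈ Icc lo hi, (fun z => p k * (w k z * fw w p m k z) * f (z + 1)) (y - 1) =
      ∑ y ∈ Icc lo hi, (fun z => p k * (w k z * fw w p m k z) * f (z + 1)) y := by
    refine sum_shift (f := fun z => p k * (w k z * fw w p m k z) * f (z + 1)) hlh ?_ ?_
    · show p k * (w k (lo - 1) * fw w p m k (lo - 1)) * _ = 0
      rw [fw_lo h0 k (lo - 1) (by omega)]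
      ring
    · show p k * (w k hi * fw w p m k hi) * _ = 0
      rw [fw_hi (B := hi - N) (fun y hy => h1 y hy) k hi (by omega)]
      ring
  rw [sum_congr rfl e0, sum_add_distrib, e1, ← sum_add_distrib]
  refine sum_congr rfl fun y _ => ?_
  ring

/-- **Transport of the single masses.** -/
theorem sum_fw_bf {m : ℤ → ℝ} (hlh : lo ≤ hi) (h0 : ∀ y, y < lo → m y = 0) (h1 : ∀ y, hi - N < y → m y = 0) (f : ℤ → ℝ) :
    ∀ (j k : ℕ), k + j ≤ N → ∑ x ∈ Icc lo hi, fw w p m k x * bf w p f k j x = ∑ y ∈ Icc lo hi, fw w p m (k + j) y * f y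
  | 0, k, _ => sum_congr rfl fun x _ => by rw [bf_zero]; rfl
  | j + 1, k, hk => by
    have e : k + (j + 1) = k + 1 + j := by ring
    rw [e, ← sum_fw_bf hlh h0 h1 f j (k + 1) (by omega), ← sum_fw_step hlh h0 h1 (bf w p f (k + 1) j) (show k < N by omega)]
    exact sum_congr rfl fun x _ => by rw [bf_succ]

/-! ### The pairs -/

/-- The pairs which have not met up to the row `k`, futures `f`, `g`. -/
def un (w : ℕ → ℤ → ℝ) (p : ℕ → ℝ) (l r : ℤ → ℝ) (lo hi : ℤ) (k : ℕ) (f g : ℤ → ℝ) : ℝ :=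
  ps2 lo hi fun x y => dp w p l r k x y * if x < y then f x * g y else 0

/-- The pairs which have met up to the row `k`, futures `f`, `g`. -/
def me (w : ℕ → ℤ → ℝ) (p : ℕ → ℝ) (l r : ℤ → ℝ) (lo hi : ℤ) (k : ℕ) (f g : ℤ → ℝ) : ℝ :=
  ps2 lo hi fun x y => (if x < y then fw w p l k y * fw w p r k x else fw w p l k x * fw w p r k y) * (f x * g y)

/-- The mass of one path with the future `f`. -/
def s1 (w : ℕ → ℤ → ℝ) (p : ℕ → ℝ) (m : ℤ → ℝ) (lo hi : ℤ) (k : ℕ) (f : ℤ → ℝ) : ℝ := ∑ x ∈ Icc lo hi, fw w p m k x * f x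

/-- **The pairs have met or not.** -/
theorem un_add_me (k : ℕ) (f g : ℤ → ℝ) : un w p l r lo hi k f g + me w p l r lo hi k f g = s1 w p l lo hi k f * s1 w p r lo hi k g := by
  unfold un me s1
  rw [← ps2_add, sum_mul_sum]
  unfold ps2
  beta_reduce
  refine sum_congr rfl fun x _ => sum_congr rfl fun y _ => ?_
  unfold dp
  by_cases h : x < y
  · rw [if_pos h, if_pos h]
    ring
  · rw [if_neg h, if_neg h]
    ring

theorem un_nonneg (hw : ∀ k y, 0 < w k y) (hp : ∀ k, 0 < p k) (h : Grp l r X) (k : ℕ) {f g : ℤ → ℝ} (hf : ∀ y, 0 ≤ f y)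
    (hg : ∀ y, 0 ≤ g y) : 0 ≤ un w p l r lo hi k f g := by
  unfold un ps2
  beta_reduce
  refine sum_nonneg fun x _ => sum_nonneg fun y _ => ?_
  by_cases hxy : x < y
  · rw [if_pos hxy]
    exact mul_nonneg (dp_nonneg hw hp h k x y hxy.le) (mul_nonneg (hf x) (hg y))
  · rw [if_neg hxy, mul_zero]

theorem me_nonneg (hw : ∀ k y, 0 < w k y) (hp : ∀ k, 0 < p k) (h : Grp l r X) (k : ℕ) {f g : ℤ → ℝ} (hf : ∀ y, 0 ≤ f y)
    (hg : ∀ y, 0 ≤ g y) : 0 ≤ me w p l r lo hi k f g := by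
  unfold me ps2
  beta_reduce
  refine sum_nonneg fun x _ => sum_nonneg fun y _ => mul_nonneg ?_ (mul_nonneg (hf x) (hg y))
  split_ifs
  · exact mul_nonneg (fw_nonneg hw hp h.l0 k y) (fw_nonneg hw hp h.r0 k x)
  · exact mul_nonneg (fw_nonneg hw hp h.l0 k x) (fw_nonneg hw hp h.r0 k y)

theorem un_mono (hw : ∀ k y, 0 < w k y) (hp : ∀ k, 0 < p k) (h : Grp l r X) (k : ℕ) {f g f' g' : ℤ → ℝ} (hf : ∀ y, 0 ≤ f y)
    (hg : ∀ y, 0 ≤ g y) (hff : ∀ y, f y ≤ f' y) (hgg : ∀ y, g y ≤ g' y) : un w p l r lo hi k f g ≤ un w p l r lo hi k f' g' := by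
  unfold un ps2
  beta_reduce
  refine sum_le_sum fun x _ => sum_le_sum fun y _ => ?_
  by_cases hxy : x < y
  · rw [if_pos hxy, if_pos hxy]
    exact mul_le_mul_of_nonneg_left (mul_le_mul (hff x) (hgg y) (hg y) ((hf x).trans (hff x))) (dp_nonneg hw hp h k x y hxy.le)
  · rw [if_neg hxy, if_neg hxy]

theorem me_mono (hw : ∀ k y, 0 < w k y) (hp : ∀ k, 0 < p k) (h : Grp l r X) (k : ℕ) {f g f' g' : ℤ → ℝ} (hf : ∀ y, 0 ≤ f y)
    (hg : ∀ y, 0 ≤ g y) (hff : ∀ y, f y ≤ f' y) (hgg : ∀ y, g y ≤ g' y) : me w p l r lo hi k f g ≤ me w p l r lo hi k f' g' := by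
  unfold me ps2
  beta_reduce
  refine sum_le_sum fun x _ => sum_le_sum fun y _ => mul_le_mul_of_nonneg_left (mul_le_mul (hff x) (hgg y) (hg y) ((hf x).trans (hff x))) ?_
  split_ifs
  · exact mul_nonneg (fw_nonneg hw hp h.l0 k y) (fw_nonneg hw hp h.r0 k x)
  · exact mul_nonneg (fw_nonneg hw hp h.l0 k x) (fw_nonneg hw hp h.r0 k y)

theorem s1_nonneg (hw : ∀ k y, 0 < w k y) (hp : ∀ k, 0 < p k) {m : ℤ → ℝ} (hm : ∀ y, 0 ≤ m y) (k : ℕ) {f : ℤ → ℝ} (hf : ∀ y, 0 ≤ f y) :
    0 ≤ s1 w p m lo hi k f := sum_nonneg fun x _ => mul_nonneg (fw_nonneg hw hp hm k x) (hf x)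

theorem s1_mono (hw : ∀ k y, 0 < w k y) (hp : ∀ k, 0 < p k) {m : ℤ → ℝ} (hm : ∀ y, 0 ≤ m y) (k : ℕ) {f f' : ℤ → ℝ}
    (hff : ∀ y, f y ≤ f' y) : s1 w p m lo hi k f ≤ s1 w p m lo hi k f' :=
  sum_le_sum fun x _ => mul_le_mul_of_nonneg_left (hff x) (fw_nonneg hw hp hm k x)

theorem un_smul (k : ℕ) (c d : ℝ) (f g : ℤ → ℝ) : un w p l r lo hi k (fun x => c * f x) (fun y => d * g y) = c * d * un w p l r lo hi k f g := by
  unfold un
  rw [← ps2_mul]
  refine ps2_congr fun x _ y _ => ?_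
  split_ifs <;> ring

theorem me_smul (k : ℕ) (c d : ℝ) (f g : ℤ → ℝ) : me w p l r lo hi k (fun x => c * f x) (fun y => d * g y) = c * d * me w p l r lo hi k f g := by
  unfold me
  rw [← ps2_mul]
  refine ps2_congr fun x _ y _ => ?_
  ring

theorem s1_smul (m : ℤ → ℝ) (k : ℕ) (c : ℝ) (f : ℤ → ℝ) : s1 w p m lo hi k (fun x => c * f x) = c * s1 w p m lo hi k f := by
  unfold s1
  rw [mul_sum]
  exact sum_congr rfl fun x _ => by ring

theorem un_add_left (k : ℕ) (f f' g : ℤ → ℝ) :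
    un w p l r lo hi k (fun x => f x + f' x) g = un w p l r lo hi k f g + un w p l r lo hi k f' g := by
  unfold un
  rw [← ps2_add]
  refine ps2_congr fun x _ y _ => ?_
  split_ifs <;> ring

theorem un_add_right (k : ℕ) (f g g' : ℤ → ℝ) :
    un w p l r lo hi k f (fun x => g x + g' x) = un w p l r lo hi k f g + un w p l r lo hi k f g' := by
  unfold un
  rw [← ps2_add]
  refine ps2_congr fun x _ y _ => ?_
  split_ifs <;> ring

theorem s1_add (m : ℤ → ℝ) (k : ℕ) (f f' : ℤ → ℝ) : s1 w p m lo hi k (fun x => f x + f' x) = s1 w p m lo hi k f + s1 w p m lo hi k f' := by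
  unfold s1
  rw [← sum_add_distrib]
  exact sum_congr rfl fun x _ => by ring

theorem un_le_s1 (hw : ∀ k y, 0 < w k y) (hp : ∀ k, 0 < p k) (h : Grp l r X) (k : ℕ) {f g : ℤ → ℝ} (hf : ∀ y, 0 ≤ f y)
    (hg : ∀ y, 0 ≤ g y) : un w p l r lo hi k f g ≤ s1 w p l lo hi k f * s1 w p r lo hi k g := by
  rw [← un_add_me]
  linarith [me_nonneg (lo := lo) (hi := hi) hw hp h k hf hg]

/-- At the row `0` nobody has met. -/
theorem me_row0 (h : Grp l r X) (f g : ℤ → ℝ) : me w p l r lo hi 0 f g = 0 := by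
  unfold me ps2
  beta_reduce
  refine sum_eq_zero fun x _ => sum_eq_zero fun y _ => ?_
  rw [fw_zero, fw_zero, fw_zero, fw_zero]
  by_cases hxy : x < y
  · rw [if_pos hxy]
    by_cases h1 : x < X
    · rw [h.rX x h1]
      ring
    · rw [h.lX y (by omega)]
      ring
  · rw [if_neg hxy]
    by_cases h1 : y < X
    · rw [h.rX y h1]
      ring
    · rw [h.lX x (by omega)]
      ring

/-! ### One row -/

/-- The pairs which meet at the row `k + 1`, profiles `f`, `g` at this row. -/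
def mq (w : ℕ → ℤ → ℝ) (p : ℕ → ℝ) (l r : ℤ → ℝ) (lo hi : ℤ) (k : ℕ) (f g : ℤ → ℝ) : ℝ :=
  ∑ q ∈ Icc lo hi, dp w p l r k (q - 1) q * (p k * (w k (q - 1) * w k q) * (f q * g q))

/-- **One row**: the pairs which have not met lose the pairs which meet. -/
theorem un_step (h : Box l r X lo hi N) (f g : ℤ → ℝ) {k : ℕ} (hk : k < N) :
    un w p l r lo hi k (fun x => w k x * (f x + p k * f (x + 1))) (fun y => w k y * (g y + p k * g (y + 1))) =
      un w p l r lo hi (k + 1) f g + mq w p l r lo hi k f g := by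
  have e1 := sum_dp_pb_step (w := w) (p := p) h (fun x y => f x * g y) hk 0
  have e2 : ps2 lo hi (fun x y => dp w p l r (k + 1) x y * pb w p (fun x y => f x * g y) (k + 1) 0 x y) =
      un w p l r lo hi (k + 1) f g := ps2_congr fun x _ y _ => by rw [pb_zero]
  rw [e2] at e1
  rw [← e1]
  have e3 : mq w p l r lo hi k f g = ps2 lo hi (fun x y => if x = y - 1 then
      dp w p l r k (y - 1) y * (p k * (w k (y - 1) * w k y) * (f y * g y)) else 0) := by
    unfold mq ps2
    beta_reduce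
    rw [sum_comm]
    refine sum_congr rfl fun y hy => ?_
    rw [sum_ite_eq' (Icc lo hi) (y - 1)]
    by_cases h3 : y - 1 ∈ Icc lo hi
    · rw [if_pos h3]
    · rw [if_neg h3]
      rw [mem_Icc] at h3 hy
      rw [dp_zero_left h k (show y - 1 < lo by omega), zero_mul]
  rw [e3, ← ps2_add]
  unfold un
  refine ps2_congr fun x _ y _ => ?_
  rw [pb_succ]
  by_cases hxy : x < y
  · rw [if_pos hxy, if_pos hxy, pb_zero, pb_zero, pb_zero, pb_zero, if_pos hxy, if_pos (show x < y + 1 by omega),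
      if_pos (show x + 1 < y + 1 by omega)]
    by_cases h4 : x = y - 1
    · rw [if_pos h4, if_neg (show ¬ x + 1 < y by omega), h4, sub_add_cancel]
      ring
    · rw [if_neg h4, if_pos (show x + 1 < y by omega)]
      ring
  · rw [if_neg hxy, if_neg hxy, if_neg (show ¬ x = y - 1 by omega)]
    ring

theorem box_le (h : Box l r X lo hi N) : lo ≤ hi := by
  have h1 := h.X0
  have h2 := h.X1
  have h3 : (0 : ℤ) ≤ N := by positivity
  omega

theorem me_step (h : Box l r X lo hi N) (f g : ℤ → ℝ) {k : ℕ} (hk : k < N) :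
    me w p l r lo hi (k + 1) f g = me w p l r lo hi k (fun x => w k x * (f x + p k * f (x + 1))) (fun y => w k y * (g y + p k * g (y + 1))) +
      mq w p l r lo hi k f g := by
  have e1 := un_step (w := w) (p := p) h f g hk
  have e2 := un_add_me (w := w) (p := p) (l := l) (r := r) (lo := lo) (hi := hi) k (fun x => w k x * (f x + p k * f (x + 1)))
    (fun y => w k y * (g y + p k * g (y + 1)))
  have e3 := un_add_me (w := w) (p := p) (l := l) (r := r) (lo := lo) (hi := hi) (k + 1) f g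
  have e4 : s1 w p l lo hi k (fun x => w k x * (f x + p k * f (x + 1))) = s1 w p l lo hi (k + 1) f :=
    sum_fw_step (box_le h) (fun z hz => (h.lo0 z hz).1) (fun z hz => (h.hi0 z hz).1) f hk
  have e5 : s1 w p r lo hi k (fun x => w k x * (g x + p k * g (x + 1))) = s1 w p r lo hi (k + 1) g :=
    sum_fw_step (box_le h) (fun z hz => (h.lo0 z hz).2) (fun z hz => (h.hi0 z hz).2) g hk
  rw [e4, e5] at e2
  linarith

/-! ### The law of the first meeting, profiles at the row `b` -/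

/-- The first meeting is at the site `c.2` of the row `c.1 + 1`, profiles `f`, `g` at the row `b`. -/
def cw (w : ℕ → ℤ → ℝ) (p : ℕ → ℝ) (l r : ℤ → ℝ) (b : ℕ) (f g : ℤ → ℝ) (c : ℕ × ℤ) : ℝ :=
  dp w p l r c.1 (c.2 - 1) c.2 * (p c.1 * (w c.1 (c.2 - 1) * w c.1 c.2) *
    (bf w p f (c.1 + 1) (b - (c.1 + 1)) c.2 * bf w p g (c.1 + 1) (b - (c.1 + 1)) c.2))

theorem cw_nonneg (hw : ∀ k y, 0 < w k y) (hp : ∀ k, 0 < p k) (h : Grp l r X) (b : ℕ) {f g : ℤ → ℝ} (hf : ∀ y, 0 ≤ f y)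
    (hg : ∀ y, 0 ≤ g y) (c : ℕ × ℤ) : 0 ≤ cw w p l r b f g c := by
  have h1 := dp_nonneg hw hp h c.1 (c.2 - 1) c.2 (by omega)
  have h2 := hw c.1 (c.2 - 1)
  have h3 := hw c.1 c.2
  have h4 := hp c.1
  have h5 := bf_nonneg hw hp hf (b - (c.1 + 1)) (c.1 + 1) c.2
  have h6 := bf_nonneg hw hp hg (b - (c.1 + 1)) (c.1 + 1) c.2
  unfold cw
  positivity

/-- **The law of the first meeting.** -/
theorem un_sum (h : Box l r X lo hi N) (f g : ℤ → ℝ) {b : ℕ} (hb : b ≤ N) : ∀ (j a : ℕ), a + j = b →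
    un w p l r lo hi a (bf w p f a j) (bf w p g a j) =
      un w p l r lo hi b f g + ∑ i ∈ Ico a b, ∑ q ∈ Icc lo hi, cw w p l r b f g (i, q)
  | 0, a, hj => by
    have e : a = b := by omega
    subst e
    rw [Ico_self, sum_empty, add_zero]
    unfold un
    exact ps2_congr fun x _ y _ => by rw [bf_zero, bf_zero]
  | j + 1, a, hj => by
    have e1 : un w p l r lo hi a (bf w p f a (j + 1)) (bf w p g a (j + 1)) =
        un w p l r lo hi a (fun x => w a x * (bf w p f (a + 1) j x + p a * bf w p f (a + 1) j (x + 1)))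
          (fun y => w a y * (bf w p g (a + 1) j y + p a * bf w p g (a + 1) j (y + 1))) := by
      unfold un
      exact ps2_congr fun x _ y _ => by rw [bf_succ, bf_succ]
    rw [e1, un_step h _ _ (show a < N by omega), un_sum h f g hb j (a + 1) (by omega), sum_eq_sum_Ico_succ_bot (show a < b by omega)]
    have e2 : mq w p l r lo hi a (bf w p f (a + 1) j) (bf w p g (a + 1) j) = ∑ q ∈ Icc lo hi, cw w p l r b f g (a, q) := by
      unfold mq cw
      refine sum_congr rfl fun q _ => ?_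
      have e3 : b - (a + 1) = j := by omega
      simp only [e3]
    rw [e2]
    ring

theorem s1_bf (h : Box l r X lo hi N) (f : ℤ → ℝ) {a j : ℕ} (hj : a + j ≤ N) :
    s1 w p l lo hi a (bf w p f a j) = s1 w p l lo hi (a + j) f ∧ s1 w p r lo hi a (bf w p f a j) = s1 w p r lo hi (a + j) f :=
  ⟨sum_fw_bf (box_le h) (fun z hz => (h.lo0 z hz).1) (fun z hz => (h.hi0 z hz).1) f j a hj,
    sum_fw_bf (box_le h) (fun z hz => (h.lo0 z hz).2) (fun z hz => (h.hi0 z hz).2) f j a hj⟩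

theorem me_sum (h : Box l r X lo hi N) (f g : ℤ → ℝ) {b : ℕ} (hb : b ≤ N) (j a : ℕ) (hj : a + j = b) :
    me w p l r lo hi b f g = me w p l r lo hi a (bf w p f a j) (bf w p g a j) +
      ∑ i ∈ Ico a b, ∑ q ∈ Icc lo hi, cw w p l r b f g (i, q) := by
  have e1 := un_sum (w := w) (p := p) h f g hb j a hj
  have e2 := un_add_me (w := w) (p := p) (l := l) (r := r) (lo := lo) (hi := hi) a (bf w p f a j) (bf w p g a j)
  have e3 := un_add_me (w := w) (p := p) (l := l) (r := r) (lo := lo) (hi := hi) b f g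
  have e4 := (s1_bf (w := w) (p := p) h f (a := a) (j := j) (by omega)).1
  have e5 := (s1_bf (w := w) (p := p) h g (a := a) (j := j) (by omega)).2
  rw [e4, e5, hj] at e2
  linarith

/-- Fewer pairs have not met later. -/
theorem un_anti (hw : ∀ k y, 0 < w k y) (hp : ∀ k, 0 < p k) (h : Box l r X lo hi N) {f g : ℤ → ℝ} (hf : ∀ y, 0 ≤ f y)
    (hg : ∀ y, 0 ≤ g y) {a b : ℕ} (hab : a ≤ b) (hb : b ≤ N) :
    un w p l r lo hi b f g ≤ un w p l r lo hi a (bf w p f a (b - a)) (bf w p g a (b - a)) := by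
  rw [un_sum h f g hb (b - a) a (by omega)]
  have := sum_nonneg fun i (_ : i ∈ Ico a b) => sum_nonneg fun q (_ : q ∈ Icc lo hi) => cw_nonneg hw hp h.g b hf hg (i, q)
  linarith

end

end Pool.Agent.W_7d29a1_C1.SepA35
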