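import Pool.Agent.W_7d29a1_C1.SepA35

/-!
[C1] SEP, S10: PAIR ALGEBRA over K91P, part 2 (helper35). Cells (`cell_le`: the first meetings in a cell are at most the pairs of paths which
visit the cell and have not met before), splices (`dp_congr`, `cw_before_le`: what happens to the contacts before the splice), quotients
`Ur + Mr = 1` (not met, met) and their change under a change of the futures (`Ur_off`, `Ur_ratio`), the natural quantities of a context
(`w_eq`, `early_eq`, `late_eq`, `cell_w_le`).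
-/

set_option autoImplicit false

namespace Pool.Agent.W_7d29a1_C1.SepA35

open Finset
open Pool.Agent.W_7d29a1_F
open Pool.Agent.W_7d29a1_C1.K91 (Grp Box ps2 ps2_congr ps2_add ps2_mul wt wt_pos)
open Pool.Agent.W_7d29a1_C1.K91P
open Pool.Agent.W_7d29a1_C1.H60 (Cx)

noncomputable section

variable {w w' : ℕ → ℤ → ℝ} {p : ℕ → ℝ} {l r : ℤ → ℝ} {X lo hi : ℤ} {N : ℕ}

/-! ### Cells -/

open Classical in
/-- The paths from `(k, y)`, `j` rows, profile `f` at the end, which visit the cell `A` (`(i, q)` = site `q` of the row `i + 1`). -/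
def vf (w : ℕ → ℤ → ℝ) (p : ℕ → ℝ) (A : Set (ℕ × ℤ)) (f : ℤ → ℝ) : ℕ → ℕ → ℤ → ℝ
  | _, 0, _ => 0
  | k, j + 1, y => w k y * ((if (k, y) ∈ A then bf w p f (k + 1) j y else vf w p A f (k + 1) j y) +
      p k * (if (k, y + 1) ∈ A then bf w p f (k + 1) j (y + 1) else vf w p A f (k + 1) j (y + 1)))

theorem vf_zero (A : Set (ℕ × ℤ)) (f : ℤ → ℝ) (k : ℕ) (y : ℤ) : vf w p A f k 0 y = 0 := by
  cases k <;> rfl

open Classical in
theorem vf_succ (A : Set (ℕ × ℤ)) (f : ℤ → ℝ) (k j : ℕ) (y : ℤ) : vf w p A f k (j + 1) y =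
    w k y * ((if (k, y) ∈ A then bf w p f (k + 1) j y else vf w p A f (k + 1) j y) +
      p k * (if (k, y + 1) ∈ A then bf w p f (k + 1) j (y + 1) else vf w p A f (k + 1) j (y + 1))) := by
  cases k <;> rfl

theorem vf_mem (hw : ∀ k y, 0 < w k y) (hp : ∀ k, 0 < p k) (A : Set (ℕ × ℤ)) {f : ℤ → ℝ} (hf : ∀ y, 0 ≤ f y) :
    ∀ (j k : ℕ) (y : ℤ), 0 ≤ vf w p A f k j y ∧ vf w p A f k j y ≤ bf w p f k j y
  | 0, k, y => by
    rw [vf_zero, bf_zero]
    exact ⟨le_rfl, hf y⟩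
  | j + 1, k, y => by
    classical
    have key : ∀ z : ℤ, 0 ≤ (if (k, z) ∈ A then bf w p f (k + 1) j z else vf w p A f (k + 1) j z) ∧
        (if (k, z) ∈ A then bf w p f (k + 1) j z else vf w p A f (k + 1) j z) ≤ bf w p f (k + 1) j z := by
      intro z
      split_ifs
      · exact ⟨bf_nonneg hw hp hf j (k + 1) z, le_rfl⟩
      · exact vf_mem hw hp A hf j (k + 1) z
    obtain ⟨a1, a2⟩ := key y
    obtain ⟨b1, b2⟩ := key (y + 1)
    have hpk := hp k
    have hwk := hw k y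
    rw [vf_succ, bf_succ]
    refine ⟨by positivity, mul_le_mul_of_nonneg_left (add_le_add a2 (mul_le_mul_of_nonneg_left b2 hpk.le)) hwk.le⟩

theorem mq_nonneg (hw : ∀ k y, 0 < w k y) (hp : ∀ k, 0 < p k) (h : Grp l r X) (k : ℕ) (q : ℤ) {a b : ℝ} (ha : 0 ≤ a) (hb : 0 ≤ b) :
    0 ≤ dp w p l r k (q - 1) q * (p k * (w k (q - 1) * w k q) * (a * b)) := by
  have h1 := dp_nonneg hw hp h k (q - 1) q (by omega)
  have h2 := hw k (q - 1)
  have h3 := hw k q
  have h4 := hp k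
  positivity

open Classical in
/-- **Cells**: the first meetings in the cell `A` are at most the pairs of paths which visit the cell and have not met before. -/
theorem cell_le (hw : ∀ k y, 0 < w k y) (hp : ∀ k, 0 < p k) (h : Box l r X lo hi N) (A : Set (ℕ × ℤ)) {f g : ℤ → ℝ}
    (hf : ∀ y, 0 ≤ f y) (hg : ∀ y, 0 ≤ g y) {b : ℕ} (hb : b ≤ N) : ∀ (j a : ℕ), a + j = b →
    ∑ i ∈ Ico a b, ∑ q ∈ Icc lo hi, (if (i, q) ∈ A then cw w p l r b f g (i, q) else 0) ≤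
      un w p l r lo hi a (vf w p A f a j) (vf w p A g a j)
  | 0, a, hj => by
    have e : a = b := by omega
    subst e
    rw [Ico_self, sum_empty]
    exact un_nonneg hw hp h.g a (fun y => (vf_mem hw hp A hf 0 a y).1) fun y => (vf_mem hw hp A hg 0 a y).1
  | j + 1, a, hj => by
    have ih := cell_le hw hp h A hf hg hb j (a + 1) (by omega)
    obtain ⟨F, hF⟩ : ∃ F : ℤ → ℝ, F = fun z => if (a, z) ∈ A then bf w p f (a + 1) j z else vf w p A f (a + 1) j z := ⟨_, rfl⟩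
    obtain ⟨G, hG⟩ : ∃ G : ℤ → ℝ, G = fun z => if (a, z) ∈ A then bf w p g (a + 1) j z else vf w p A g (a + 1) j z := ⟨_, rfl⟩
    have e1 : un w p l r lo hi a (vf w p A f a (j + 1)) (vf w p A g a (j + 1)) =
        un w p l r lo hi a (fun x => w a x * (F x + p a * F (x + 1))) (fun y => w a y * (G y + p a * G (y + 1))) := by
      unfold un
      exact ps2_congr fun x _ y _ => by rw [vf_succ, vf_succ, hF, hG]
    rw [e1, un_step h F G (show a < N by omega), sum_eq_sum_Ico_succ_bot (show a < b by omega)]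
    have hF0 : ∀ z, 0 ≤ F z ∧ vf w p A f (a + 1) j z ≤ F z := by
      intro z
      rw [hF]
      beta_reduce
      split_ifs
      · exact ⟨bf_nonneg hw hp hf j (a + 1) z, (vf_mem hw hp A hf j (a + 1) z).2⟩
      · exact ⟨(vf_mem hw hp A hf j (a + 1) z).1, le_rfl⟩
    have hG0 : ∀ z, 0 ≤ G z ∧ vf w p A g (a + 1) j z ≤ G z := by
      intro z
      rw [hG]
      beta_reduce
      split_ifs
      · exact ⟨bf_nonneg hw hp hg j (a + 1) z, (vf_mem hw hp A hg j (a + 1) z).2⟩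
      · exact ⟨(vf_mem hw hp A hg j (a + 1) z).1, le_rfl⟩
    have h1 : un w p l r lo hi (a + 1) (vf w p A f (a + 1) j) (vf w p A g (a + 1) j) ≤ un w p l r lo hi (a + 1) F G :=
      un_mono hw hp h.g (a + 1) (fun y => (vf_mem hw hp A hf j (a + 1) y).1) (fun y => (vf_mem hw hp A hg j (a + 1) y).1)
        (fun y => (hF0 y).2) fun y => (hG0 y).2
    have h2 : ∑ q ∈ Icc lo hi, (if (a, q) ∈ A then cw w p l r b f g (a, q) else 0) ≤ mq w p l r lo hi a F G := by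
      unfold mq
      refine sum_le_sum fun q _ => ?_
      by_cases hq : (a, q) ∈ A
      · have e2 : F q = bf w p f (a + 1) j q := by
          rw [hF]
          beta_reduce
          rw [if_pos hq]
        have e3 : G q = bf w p g (a + 1) j q := by
          rw [hG]
          beta_reduce
          rw [if_pos hq]
        have e4 : b - (a + 1) = j := by omega
        rw [if_pos hq, e2, e3]
        unfold cw
        simp only [e4]
        exact le_rfl
      · rw [if_neg hq]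
        exact mq_nonneg hw hp h.g a q (hF0 q).1 (hG0 q).1
    linarith

/-- The visits are monotone in the cell. -/
theorem vf_mono (hw : ∀ k y, 0 < w k y) (hp : ∀ k, 0 < p k) {A A' : Set (ℕ × ℤ)} (hA : A ⊆ A') {f : ℤ → ℝ} (hf : ∀ y, 0 ≤ f y) :
    ∀ (j k : ℕ) (y : ℤ), vf w p A f k j y ≤ vf w p A' f k j y
  | 0, k, y => by rw [vf_zero, vf_zero]
  | j + 1, k, y => by
    classical
    have key : ∀ z : ℤ, (if (k, z) ∈ A then bf w p f (k + 1) j z else vf w p A f (k + 1) j z) ≤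
        (if (k, z) ∈ A' then bf w p f (k + 1) j z else vf w p A' f (k + 1) j z) := by
      intro z
      by_cases h1 : (k, z) ∈ A
      · rw [if_pos h1, if_pos (hA h1)]
      · rw [if_neg h1]
        by_cases h2 : (k, z) ∈ A'
        · rw [if_pos h2]
          exact (vf_mem hw hp A hf j (k + 1) z).2
        · rw [if_neg h2]
          exact vf_mono hw hp hA hf j (k + 1) z
    rw [vf_succ, vf_succ]
    exact mul_le_mul_of_nonneg_left (add_le_add (key y) (mul_le_mul_of_nonneg_left (key (y + 1)) (hp k).le)) (hw k y).le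

/-! ### Splices -/

theorem dp_congr {k : ℕ} (h : ∀ i, i < k → ∀ y, w i y = w' i y) (x y : ℤ) : dp w p l r k x y = dp w' p l r k x y := by
  unfold dp
  rw [fw_congr k h, fw_congr k h, fw_congr k h, fw_congr k h]

theorem un_congr {k : ℕ} (h : ∀ i, i < k → ∀ y, w i y = w' i y) (f g : ℤ → ℝ) : un w p l r lo hi k f g = un w' p l r lo hi k f g := by
  unfold un
  exact ps2_congr fun x _ y _ => by rw [dp_congr h]

theorem me_congr {k : ℕ} (h : ∀ i, i < k → ∀ y, w i y = w' i y) (f g : ℤ → ℝ) : me w p l r lo hi k f g = me w' p l r lo hi k f g := by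
  unfold me
  exact ps2_congr fun x _ y _ => by rw [fw_congr k h, fw_congr k h, fw_congr k h, fw_congr k h]

theorem s1_congr {k : ℕ} (h : ∀ i, i < k → ∀ y, w i y = w' i y) (m f : ℤ → ℝ) : s1 w p m lo hi k f = s1 w' p m lo hi k f := by
  unfold s1
  exact sum_congr rfl fun x _ => by rw [fw_congr k h]

/-- If the futures at the row `a` grow by the factor `D` at most, so do the futures at the earlier rows (the rows before `a` do not
change). -/
theorem bf_before_le (hw' : ∀ k y, 0 < w' k y) (hp : ∀ k, 0 < p k) {a : ℕ} (h : ∀ i, i < a → ∀ y, w i y = w' i y) {f : ℤ → ℝ} {D : ℝ}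
    {j : ℕ} (hD : ∀ y, bf w' p f a j y ≤ D * bf w p f a j y) {k m : ℕ} (hk : k + m = a) (y : ℤ) :
    bf w' p f k (m + j) y ≤ D * bf w p f k (m + j) y := by
  rw [bf_add, bf_add, hk, ← bf_smul]
  have h1 : bf w p (fun z => D * bf w p f a j z) k m y = bf w' p (fun z => D * bf w p f a j z) k m y :=
    bf_congr _ m k (fun i _ hi z => h i (by omega) z) y
  rw [h1]
  exact bf_mono hw' hp hD m k y

/-- The same from below. -/
theorem bf_before_ge (hw' : ∀ k y, 0 < w' k y) (hp : ∀ k, 0 < p k) {a : ℕ} (h : ∀ i, i < a → ∀ y, w i y = w' i y) {f : ℤ → ℝ} {D : ℝ}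
    {j : ℕ} (hD : ∀ y, D * bf w p f a j y ≤ bf w' p f a j y) {k m : ℕ} (hk : k + m = a) (y : ℤ) :
    D * bf w p f k (m + j) y ≤ bf w' p f k (m + j) y := by
  rw [bf_add, bf_add, hk, ← bf_smul]
  have h1 : bf w p (fun z => D * bf w p f a j z) k m y = bf w' p (fun z => D * bf w p f a j z) k m y :=
    bf_congr _ m k (fun i _ hi z => h i (by omega) z) y
  rw [h1]
  exact bf_mono hw' hp hD m k y

/-- **The contacts before the splice**, from above. -/
theorem cw_before_le (hw : ∀ k y, 0 < w k y) (hp : ∀ k, 0 < p k) (hG : Grp l r X) {a b : ℕ} (hab : a ≤ b)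
    (hw' : ∀ k y, 0 < w' k y) (h : ∀ i, i < a → ∀ y, w i y = w' i y) {f g : ℤ → ℝ} (hf : ∀ y, 0 ≤ f y) (hg : ∀ y, 0 ≤ g y) {D E : ℝ}
    (hD : ∀ y, bf w' p f a (b - a) y ≤ D * bf w p f a (b - a) y) (hE : ∀ y, bf w' p g a (b - a) y ≤ E * bf w p g a (b - a) y)
    {c : ℕ × ℤ} (hc : c.1 + 1 ≤ a) : cw w' p l r b f g c ≤ D * E * cw w p l r b f g c := by
  have e1 : b - (c.1 + 1) = (a - (c.1 + 1)) + (b - a) := by omega
  have h1 := bf_before_le hw' hp h hD (k := c.1 + 1) (m := a - (c.1 + 1)) (by omega) c.2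
  have h2 := bf_before_le hw' hp h hE (k := c.1 + 1) (m := a - (c.1 + 1)) (by omega) c.2
  have d0 := dp_nonneg hw hp hG c.1 (c.2 - 1) c.2 (by omega)
  have p1 := hw c.1 (c.2 - 1)
  have p2 := hw c.1 c.2
  have p3 := hp c.1
  have q1 := bf_nonneg hw' hp hg ((a - (c.1 + 1)) + (b - a)) (c.1 + 1) c.2
  have q2 := bf_nonneg hw' hp hf ((a - (c.1 + 1)) + (b - a)) (c.1 + 1) c.2
  unfold cw
  rw [← dp_congr (fun i hi => h i (by omega)) (c.2 - 1) c.2, ← h c.1 (by omega), ← h c.1 (by omega), e1]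
  have h3 := mul_le_mul h1 h2 q1 (q2.trans h1)
  have h4 := mul_le_mul_of_nonneg_left h3 (show 0 ≤ dp w p l r c.1 (c.2 - 1) c.2 * (p c.1 * (w c.1 (c.2 - 1) * w c.1 c.2)) by positivity)
  linarith

/-- **The contacts before the splice**, from below. -/
theorem cw_before_ge (hw : ∀ k y, 0 < w k y) (hp : ∀ k, 0 < p k) (hG : Grp l r X) {a b : ℕ} (hab : a ≤ b)
    (hw' : ∀ k y, 0 < w' k y) (h : ∀ i, i < a → ∀ y, w i y = w' i y) {f g : ℤ → ℝ} (hf : ∀ y, 0 ≤ f y) (hg : ∀ y, 0 ≤ g y) {D E : ℝ}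
    (hD0 : 0 ≤ D) (hE0 : 0 ≤ E) (hD : ∀ y, D * bf w p f a (b - a) y ≤ bf w' p f a (b - a) y)
    (hE : ∀ y, E * bf w p g a (b - a) y ≤ bf w' p g a (b - a) y) {c : ℕ × ℤ} (hc : c.1 + 1 ≤ a) :
    D * E * cw w p l r b f g c ≤ cw w' p l r b f g c := by
  have e1 : b - (c.1 + 1) = (a - (c.1 + 1)) + (b - a) := by omega
  have h1 := bf_before_ge hw' hp h hD (k := c.1 + 1) (m := a - (c.1 + 1)) (by omega) c.2
  have h2 := bf_before_ge hw' hp h hE (k := c.1 + 1) (m := a - (c.1 + 1)) (by omega) c.2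
  have d0 := dp_nonneg hw hp hG c.1 (c.2 - 1) c.2 (by omega)
  have p1 := hw c.1 (c.2 - 1)
  have p2 := hw c.1 c.2
  have p3 := hp c.1
  have q1 := bf_nonneg hw hp hg ((a - (c.1 + 1)) + (b - a)) (c.1 + 1) c.2
  have q2 := bf_nonneg hw hp hf ((a - (c.1 + 1)) + (b - a)) (c.1 + 1) c.2
  unfold cw
  rw [← dp_congr (fun i hi => h i (by omega)) (c.2 - 1) c.2, ← h c.1 (by omega), ← h c.1 (by omega), e1]
  have h3 := mul_le_mul h1 h2 (mul_nonneg hE0 q1) ((mul_nonneg hD0 q2).trans h1)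
  have h4 := mul_le_mul_of_nonneg_left h3 (show 0 ≤ dp w p l r c.1 (c.2 - 1) c.2 * (p c.1 * (w c.1 (c.2 - 1) * w c.1 c.2)) by positivity)
  linarith

/-! ### Quotients -/

/-- The probability that the pair has not met up to the row `k`, futures `f`, `g`. -/
def Ur (w : ℕ → ℤ → ℝ) (p : ℕ → ℝ) (l r : ℤ → ℝ) (lo hi : ℤ) (k : ℕ) (f g : ℤ → ℝ) : ℝ :=
  un w p l r lo hi k f g / (s1 w p l lo hi k f * s1 w p r lo hi k g)

/-- The probability that the pair has met up to the row `k`, futures `f`, `g`. -/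
def Mr (w : ℕ → ℤ → ℝ) (p : ℕ → ℝ) (l r : ℤ → ℝ) (lo hi : ℤ) (k : ℕ) (f g : ℤ → ℝ) : ℝ :=
  me w p l r lo hi k f g / (s1 w p l lo hi k f * s1 w p r lo hi k g)

theorem Ur_add_Mr (k : ℕ) {f g : ℤ → ℝ} (hf : s1 w p l lo hi k f ≠ 0) (hg : s1 w p r lo hi k g ≠ 0) :
    Ur w p l r lo hi k f g + Mr w p l r lo hi k f g = 1 := by
  unfold Ur Mr
  rw [← add_div, un_add_me]
  exact div_self (mul_ne_zero hf hg)

theorem Ur_nonneg (hw : ∀ k y, 0 < w k y) (hp : ∀ k, 0 < p k) (h : Grp l r X) (k : ℕ) {f g : ℤ → ℝ} (hf : ∀ y, 0 ≤ f y)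
    (hg : ∀ y, 0 ≤ g y) : 0 ≤ Ur w p l r lo hi k f g :=
  div_nonneg (un_nonneg hw hp h k hf hg) (mul_nonneg (s1_nonneg hw hp h.l0 k hf) (s1_nonneg hw hp h.r0 k hg))

theorem Mr_nonneg (hw : ∀ k y, 0 < w k y) (hp : ∀ k, 0 < p k) (h : Grp l r X) (k : ℕ) {f g : ℤ → ℝ} (hf : ∀ y, 0 ≤ f y)
    (hg : ∀ y, 0 ≤ g y) : 0 ≤ Mr w p l r lo hi k f g :=
  div_nonneg (me_nonneg hw hp h k hf hg) (mul_nonneg (s1_nonneg hw hp h.l0 k hf) (s1_nonneg hw hp h.r0 k hg))

theorem Ur_le_one (hw : ∀ k y, 0 < w k y) (hp : ∀ k, 0 < p k) (h : Grp l r X) (k : ℕ) {f g : ℤ → ℝ} (hf : ∀ y, 0 ≤ f y)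
    (hg : ∀ y, 0 ≤ g y) : Ur w p l r lo hi k f g ≤ 1 :=
  div_le_one_of_le₀ (un_le_s1 hw hp h k hf hg) (mul_nonneg (s1_nonneg hw hp h.l0 k hf) (s1_nonneg hw hp h.r0 k hg))

/-- `un` is the quotient times the two masses. -/
theorem un_Ur (hw : ∀ k y, 0 < w k y) (hp : ∀ k, 0 < p k) (h : Grp l r X) (k : ℕ) {f g : ℤ → ℝ} (hf : ∀ y, 0 ≤ f y)
    (hg : ∀ y, 0 ≤ g y) : un w p l r lo hi k f g = Ur w p l r lo hi k f g * (s1 w p l lo hi k f * s1 w p r lo hi k g) := by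
  unfold Ur
  by_cases h0 : s1 w p l lo hi k f * s1 w p r lo hi k g = 0
  · rw [h0, mul_zero]
    have h1 := un_le_s1 (lo := lo) (hi := hi) hw hp h k hf hg
    rw [h0] at h1
    exact le_antisymm h1 (un_nonneg hw hp h k hf hg)
  · rw [div_mul_cancel₀ _ h0]

theorem real_off {u₀ u₁ u₂ U A A' B B' : ℝ} (hu : u₀ = U * (A * B)) (U0 : 0 ≤ U) (U1 : U ≤ 1) (hA : 0 ≤ A) (hA' : 0 ≤ A') (_hB : 0 ≤ B)
    (hB' : 0 ≤ B') (h1 : 0 ≤ u₁) (h1' : u₁ ≤ A * B') (h2 : 0 ≤ u₂) (h2' : u₂ ≤ A' * (B + B')) (hF : 0 < A + A') (hG : 0 < B + B') :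
    |(u₀ + u₁ + u₂) / ((A + A') * (B + B')) - U| ≤ A' / (A + A') + B' / (B + B') := by
  have hFG : 0 < (A + A') * (B + B') := mul_pos hF hG
  have e1 : A' / (A + A') + B' / (B + B') = (A' * (B + B') + (A + A') * B') / ((A + A') * (B + B')) := by
    field_simp
  have h5 : 0 ≤ A' * B' := mul_nonneg hA' hB'
  have h6 : 0 ≤ A' * (B + B') := mul_nonneg hA' hG.le
  have h7 : 0 ≤ A * B' := mul_nonneg hA hB'
  have h3 : U * ((A + A') * (B + B')) = U * (A * B) + U * (A' * (B + B') + A * B') := by ring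
  have h4 : U * (A' * (B + B') + A * B') ≤ 1 * (A' * (B + B') + A * B') := mul_le_mul_of_nonneg_right U1 (by linarith)
  have h8 : 0 ≤ U * (A' * (B + B') + A * B') := mul_nonneg U0 (by linarith)
  rw [e1, hu, abs_le]
  constructor
  · rw [neg_le, neg_sub, sub_le_iff_le_add, ← add_div, le_div_iff₀ hFG]
    linarith
  · rw [sub_le_iff_le_add, div_le_iff₀ hFG, add_mul, div_mul_cancel₀ _ hFG.ne']
    linarith

/-- **Leaving out a part of the futures**: the probability not to have met changes by at most the probabilities of the parts. -/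
theorem Ur_off (hw : ∀ k y, 0 < w k y) (hp : ∀ k, 0 < p k) (h : Grp l r X) (k : ℕ) {f f' g g' : ℤ → ℝ} (hf : ∀ y, 0 ≤ f y)
    (hf' : ∀ y, 0 ≤ f' y) (hg : ∀ y, 0 ≤ g y) (hg' : ∀ y, 0 ≤ g' y) (hF : 0 < s1 w p l lo hi k (fun x => f x + f' x))
    (hG : 0 < s1 w p r lo hi k (fun x => g x + g' x)) :
    |Ur w p l r lo hi k (fun x => f x + f' x) (fun x => g x + g' x) - Ur w p l r lo hi k f g| ≤
      s1 w p l lo hi k f' / s1 w p l lo hi k (fun x => f x + f' x) + s1 w p r lo hi k g' / s1 w p r lo hi k (fun x => g x + g' x) := by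
  have n1 : un w p l r lo hi k f' (fun x => g x + g' x) ≤ s1 w p l lo hi k f' * s1 w p r lo hi k (fun x => g x + g' x) :=
    un_le_s1 hw hp h k hf' fun y => add_nonneg (hg y) (hg' y)
  have e1 : Ur w p l r lo hi k (fun x => f x + f' x) (fun x => g x + g' x) =
      (un w p l r lo hi k f g + un w p l r lo hi k f g' + un w p l r lo hi k f' (fun x => g x + g' x)) /
        ((s1 w p l lo hi k f + s1 w p l lo hi k f') * (s1 w p r lo hi k g + s1 w p r lo hi k g')) := by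
    unfold Ur
    rw [s1_add, s1_add]
    congr 1
    rw [un_add_left, un_add_right k f g g']
  rw [s1_add] at hF hG
  rw [s1_add r] at n1
  rw [e1, s1_add, s1_add]
  exact real_off (un_Ur hw hp h k hf hg) (Ur_nonneg hw hp h k hf hg) (Ur_le_one hw hp h k hf hg) (s1_nonneg hw hp h.l0 k hf)
    (s1_nonneg hw hp h.l0 k hf') (s1_nonneg hw hp h.r0 k hg) (s1_nonneg hw hp h.r0 k hg') (un_nonneg hw hp h k hf hg')
    (un_le_s1 hw hp h k hf hg') (un_nonneg hw hp h k hf' fun y => add_nonneg (hg y) (hg' y)) n1 hF hG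

/-- **Changing the futures by factors.** -/
theorem Ur_ratio (hw : ∀ k y, 0 < w k y) (hp : ∀ k, 0 < p k) (h : Grp l r X) (k : ℕ) {f f' g g' : ℤ → ℝ} (hf : ∀ y, 0 ≤ f y)
    (hg : ∀ y, 0 ≤ g y) (hf' : ∀ y, 0 ≤ f' y) (hg' : ∀ y, 0 ≤ g' y) {D E : ℝ} (hD : 0 ≤ D) (hE : 0 ≤ E) (h1 : ∀ y, f y ≤ D * f' y)
    (h2 : ∀ y, g y ≤ E * g' y) (h3 : ∀ y, f' y ≤ D * f y) (h4 : ∀ y, g' y ≤ E * g y) (hF : 0 < s1 w p l lo hi k f)
    (hG : 0 < s1 w p r lo hi k g) : Ur w p l r lo hi k f g ≤ (D * E) ^ 2 * Ur w p l r lo hi k f' g' := by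
  have a1 : un w p l r lo hi k f g ≤ D * E * un w p l r lo hi k f' g' := by
    rw [← un_smul]
    exact un_mono hw hp h k hf hg h1 h2
  have a2 : s1 w p l lo hi k f' ≤ D * s1 w p l lo hi k f := by
    rw [← s1_smul]
    exact s1_mono hw hp h.l0 k h3
  have a3 : s1 w p r lo hi k g' ≤ E * s1 w p r lo hi k g := by
    rw [← s1_smul]
    exact s1_mono hw hp h.r0 k h4
  have b1 := s1_nonneg (lo := lo) (hi := hi) hw hp h.l0 k hf'
  have b2 := s1_nonneg (lo := lo) (hi := hi) hw hp h.r0 k hg'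
  have u0 := Ur_nonneg (lo := lo) (hi := hi) hw hp h k hf' hg'
  have e1 := un_Ur (lo := lo) (hi := hi) hw hp h k hf' hg'
  rw [e1] at a1
  have hFG : 0 < s1 w p l lo hi k f * s1 w p r lo hi k g := mul_pos hF hG
  have a4 : s1 w p l lo hi k f' * s1 w p r lo hi k g' ≤ D * E * (s1 w p l lo hi k f * s1 w p r lo hi k g) := by
    have := mul_le_mul a2 a3 b2 (b1.trans a2)
    linarith
  unfold Ur at a1 ⊢
  rw [div_le_iff₀ hFG]
  refine a1.trans ?_
  have a5 := mul_le_mul_of_nonneg_left a4 (mul_nonneg (mul_nonneg hD hE) u0)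
  unfold Ur at a5
  nlinarith [a5]

/-! ### The natural quantities of a context -/

variable {Γ : Cx}

/-- The natural weight. -/
theorem w_eq (c : ℕ × ℤ) (η : Env) : Γ.w c η =
    cw (wt η) Γ.p Cx.l Γ.r Γ.N (fun _ => 1) (fun _ => 1) c / (Γ.ZM η * Γ.ZR η) := by
  unfold Cx.w cw
  rw [bf_one]
  congr 2
  ring

theorem s1_nat (h : Γ.Ok) (η : Env) {k : ℕ} (hk : k ≤ Γ.N) : s1 (wt η) Γ.p Cx.l 0 Γ.hi k (bw (wt η) Γ.p k (Γ.N - k)) = Γ.ZM η ∧
    s1 (wt η) Γ.p Γ.r 0 Γ.hi k (bw (wt η) Γ.p k (Γ.N - k)) = Γ.ZR η := by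
  have hb := Cx.box1 h
  have e0 : ∀ (j : ℕ) (i : ℕ), bw (wt η) Γ.p i j = bf (wt η) Γ.p (fun _ => 1) i j := fun j i => funext fun y => (bf_one j i y).symm
  have e1 := s1_bf (w := wt η) (p := Γ.p) hb (fun _ => 1) (a := k) (j := Γ.N - k) (by omega)
  have e2 := s1_bf (w := wt η) (p := Γ.p) hb (fun _ => 1) (a := 0) (j := Γ.N) (by omega)
  have e3 : k + (Γ.N - k) = 0 + Γ.N := by omega
  rw [e3] at e1
  rw [e0, e1.1, e1.2, ← e2.1, ← e2.2, ← e0]
  refine ⟨?_, rfl⟩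
  rw [← Cx.ZM_eq h]
  rfl

/-- The natural probability not to have met up to the row `k`. -/
theorem nmt_eq (h : Γ.Ok) (η : Env) {k : ℕ} (hk : k ≤ Γ.N) : Γ.nmt k η =
    Ur (wt η) Γ.p Cx.l Γ.r 0 Γ.hi k (bw (wt η) Γ.p k (Γ.N - k)) (bw (wt η) Γ.p k (Γ.N - k)) := by
  unfold Ur
  rw [(s1_nat h η hk).1, (s1_nat h η hk).2]
  rfl

/-- **The early mass** (first meeting in the rows up to `k`) as a sum over the pairs at the row `k`. -/
theorem early_eq (h : Γ.Ok) (η : Env) {k : ℕ} (hk : k ≤ Γ.N) : ∑ c ∈ Γ.rows 0 k, Γ.w c η =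
    Mr (wt η) Γ.p Cx.l Γ.r 0 Γ.hi k (bw (wt η) Γ.p k (Γ.N - k)) (bw (wt η) Γ.p k (Γ.N - k)) := by
  have e1 := s1_nat h η hk
  have e2 := Ur_add_Mr (w := wt η) (p := Γ.p) (l := Cx.l) (r := Γ.r) (lo := 0) (hi := Γ.hi) k
    (f := bw (wt η) Γ.p k (Γ.N - k)) (g := bw (wt η) Γ.p k (Γ.N - k)) (by rw [e1.1]; exact (Γ.ZM_pos η).ne')
    (by rw [e1.2]; exact (Cx.ZR_pos h η).ne')
  rw [Cx.sum_w h η (Nat.zero_le k) hk, Cx.nmt_zero h, nmt_eq h η hk]
  linarith

/-- **The late mass**: the first meetings in the rows after `k` and the pairs which never meet. -/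
theorem late_le (h : Γ.Ok) (η : Env) {k b : ℕ} (hkb : k ≤ b) (hb : b ≤ Γ.N) : ∑ c ∈ Γ.rows k b, Γ.w c η ≤
    Ur (wt η) Γ.p Cx.l Γ.r 0 Γ.hi k (bw (wt η) Γ.p k (Γ.N - k)) (bw (wt η) Γ.p k (Γ.N - k)) := by
  rw [Cx.sum_w h η hkb hb, ← nmt_eq h η (hkb.trans hb)]
  linarith [Cx.nmt_nonneg h b η]

open Classical in
/-- **Cells**: the natural weight of a cell `A` in the rows `[a, N)` is at most the probability that the pair has not met up to the row `a`
and both paths visit the cell. -/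
theorem cell_w_le (h : Γ.Ok) (η : Env) (A : Set (ℕ × ℤ)) {a : ℕ} (ha : a ≤ Γ.N) :
    ∑ c ∈ (Γ.rows a Γ.N).filter fun c => c ∈ A, Γ.w c η ≤
      un (wt η) Γ.p Cx.l Γ.r 0 Γ.hi a (vf (wt η) Γ.p A (fun _ => 1) a (Γ.N - a)) (vf (wt η) Γ.p A (fun _ => 1) a (Γ.N - a)) /
        (Γ.ZM η * Γ.ZR η) := by
  have hb := Cx.box1 h
  have hZ := mul_pos (Γ.ZM_pos η) (Cx.ZR_pos h η)
  rw [le_div_iff₀ hZ, sum_mul]
  have e1 : ∀ c : ℕ × ℤ, Γ.w c η * (Γ.ZM η * Γ.ZR η) = cw (wt η) Γ.p Cx.l Γ.r Γ.N (fun _ => 1) (fun _ => 1) c := fun c => by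
    rw [w_eq, div_mul_cancel₀ _ hZ.ne']
  rw [sum_congr rfl fun c _ => e1 c]
  refine le_trans ?_ (cell_le (wt_pos η) Γ.p_pos hb A (fun _ => zero_le_one) (fun _ => zero_le_one) le_rfl (Γ.N - a) a (by omega))
  rw [sum_filter]
  unfold Cx.rows
  rw [sum_product]
  refine sum_le_sum fun i _ => ?_
  have hk := h.k1
  refine sum_le_sum_of_subset_of_nonneg (fun x hx => ?_) fun x _ _ => ?_
  · rw [mem_Icc] at hx ⊢
    unfold Cx.hi
    omega
  · split_ifs
    · exact cw_nonneg (wt_pos η) Γ.p_pos hb.g _ (fun _ => zero_le_one) (fun _ => zero_le_one) _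
    · exact le_rfl

end

end Pool.Agent.W_7d29a1_C1.SepA35
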