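import Pool.Agent.W_7d29a1_C1.MovP42
import Pool.Agent.W_7d29a1_C1.LucK30
import Pool.Agent.W_7d29a1_C1.Mid99
import Pool.Agent.W_7d29a1_C1.KiR2

/-!
MP_7d29a1_pr, [C1] attractor route, SEP: THE CONCRETE WINDOW: base points, gate block, lane block, with one number record `Nm98`.
(helper98; letters of helper25, helper18, helper66, helper58, helper87, helper30, helper99, helper71; version 2: helper32, helper73)

* `Nm98` : the numbers; `ln98` : the number of rows of the two blocks; `NoSw98` : the switch row of the force is not a row of the window;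
  `ag98 = ra - 1` : the base row of the gate block; `rl98 = ag98 + 5 n` : the base row of the lane block; `pt98 k` : the site of the row `k`
  on the line through the centre of the window; `B98` : the sites of the window in the rows `(rl98, rl98 + 3 T_r]`; `Sg98` : the wall sites;
* `Gt98 = TF58` : the typical set of the gate block; `LE98` : the lucky lane block; `Lk98` : its content part; `Far98`, `FarL98` : the
  levels of the rows of the window; measurability, rows;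
* `L98`, `Lv98` (generic in the events of the ratio): both are empty if the switch row is a row of the window.
-/

set_option autoImplicit false

namespace Pool.Agent.W_7d29a1_C1.D98

open MeasureTheory ProbabilityTheory Finset
open Pool.Agent.W_7d29a1_F hiding Bw G
open Pool.Agent.W_7d29a1_h4g Pool.Agent.W_7d29a1_H Pool.Agent.W_7d29a1_HS
open Pool.Agent.W_7d29a1_C1
open Pool.Agent.W_7d29a1_C1.S71 (Off gl gl_of_mem gl_of_not_mem)
open Pool.Agent.W_7d29a1_C1.H60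
open Pool.Agent.W_7d29a1_C1.G37 (Gm)
open Pool.Agent.W_7d29a1_C1.U16 (lat16 Far16 Far16_meas Far16_rows)
open Pool.Agent.W_7d29a1_C1.BP58
open Pool.Agent.W_7d29a1_C1.GL18
open Pool.Agent.W_7d29a1_C1.PW58 (TF58)
open Pool.Agent.W_7d29a1_C1.MJ42 (tf_meas42 tf_dec42 tf_on42)
open Pool.Agent.W_7d29a1_C1.F31 (DecO)
open Pool.Agent.W_7d29a1_C1.Luc30
open Pool.Agent.W_7d29a1_C1.M99 (Mid99 meas_Mid99 on_Mid99)
open Pool.Agent.W_7d29a1_C1.P25 (offR offS)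

noncomputable section

/-! ### The numbers -/

/-- **THE NUMBERS OF THE WINDOW.** -/
structure Nm98 where
  /-- gate: unit of the block (`5 n` rows) and rows of the strips -/
  n : ℕ → ℕ
  m : ℕ → ℕ
  /-- core and walls, `K1 u ≤ K1h`, `K2 u ≤ K2h` -/
  K1 : ℕ → ℕ
  K2 : ℕ → ℕ
  K1h : ℕ
  K2h : ℕ
  /-- levels of the gate (`TF58`): `Uc`, `Qc` = helper58's `U₀`, `Q₀` -/
  Uc : ℝ
  Qc : ℝ
  U1 : ℝ
  Q1 : ℝ
  U : ℝ
  Q : ℝ
  Y : ℝ
  /-- lanes: pieces of a slab, unit; `T_r = N nr` -/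
  N : ℕ
  nr : ℕ → ℕ
  δ : ℝ
  Kb : ℝ
  Kl : ℝ
  U0 : ℝ
  LA : ℝ
  KpA : ℝ
  UA : ℝ
  ρA : ℝ
  YA : ℝ
  LB : ℝ
  KpB : ℝ
  UB : ℝ
  ρB : ℝ
  YB : ℝ
  /-- the middle slab -/
  cM : ℝ
  qM : ℝ
  UM : ℝ
  rM : ℝ
  /-- the conditional probability of the lucky lane block -/
  pL : ℝ
  /-- levels of the rows of the window -/
  th : ℝ
  KF : ℝ
  PF : ℕ
  qF : ℝ

variable (μ : Measure ℝ) (s c : ℝ) (Γ : Cx) (G : Gm) (P : Nm98) (u : ℕ) (κ : ℤ × ℤ)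

/-- The rows of one slab. -/
def Nm98.T (P : Nm98) (u : ℕ) : ℕ := P.N * P.nr u

/-- The number of rows of the gate and of the lane block. -/
def ln98 : ℕ := 5 * P.n u + 3 * P.T u + 2

/-- **The switch row of the force is not a row of the window.** -/
def NoSw98 (Γ : Cx) (G : Gm) (u : ℕ) (κ : ℤ × ℤ) : Prop := ¬ (G.ra u κ - 1 < Γ.M ∧ Γ.M < G.re u κ)

/-- **The base row of the gate block.** -/
def ag98 (_ : Cx) (G : Gm) (_ : Nm98) (u : ℕ) (κ : ℤ × ℤ) : ℕ := G.ra u κ - 1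

/-- The site of the row `k` on the line through the centre. -/
def co98 (k : ℕ) : ℤ := ⌊G.ctr u κ + G.v * (k : ℝ)⌋

/-- The site of the row `k` on the line through the centre. -/
def pt98 (k : ℕ) : Pt := ((k : ℤ), co98 G u κ k)

/-- **The base row of the lane block.** -/
def rl98 : ℕ := ag98 Γ G P u κ + 5 * P.n u

/-- **The last row of the lane block.** -/
def b98 : ℕ := rl98 Γ G P u κ + 3 * P.T u

/-- **The sites of the lane block.** -/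
def B98 : Set Pt := {p | p ∈ G.win u κ ∧ ((rl98 Γ G P u κ : ℕ) : ℤ) < p.1 ∧ p.1 ≤ ((b98 Γ G P u κ : ℕ) : ℤ)}

/-- **The wall sites.** -/
def Sg98 : Set Pt := Sw μ s (P.K1 u) (P.K2 u) (P.n u) (P.m u) (pt98 G u κ (ag98 Γ G P u κ))

/-! ### The sets -/

/-- **The typical set of the gate block.** -/
def Gt98 : Set Env :=
  TF58 μ s c P.K1h P.K2h (P.K1 u) (P.K2 u) P.Uc P.Qc P.U1 P.Q1 P.U P.Q P.Y (P.n u) (P.m u) (pt98 G u κ (ag98 Γ G P u κ))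

/-- The end of lane A. -/
def eA98 : Unit → ℤ := fun _ => co98 G u κ (rl98 Γ G P u κ + P.T u) - co98 G u κ (rl98 Γ G P u κ)

/-- The end of the middle slab. -/
def zM98 : ℤ := co98 G u κ (rl98 Γ G P u κ + 2 * P.T u) - co98 G u κ (rl98 Γ G P u κ + P.T u)

/-- The end of lane B. -/
def eB98 : Unit → ℤ := fun _ => co98 G u κ (rl98 Γ G P u κ + 3 * P.T u) - co98 G u κ (rl98 Γ G P u κ + 2 * P.T u)

/-- Lane A. -/
def LA98 : Set Env := LC30 μ s c (fun _ : Unit => (0 : ℤ)) (eA98 Γ G P u κ) P.N (P.nr u) P.δ P.Kb P.Kl P.U0 P.LA P.KpA P.UA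
  (P.ρA * wd μ s (P.T u)) P.YA

/-- The middle slab. -/
def MM98 : Set Env := Mid99 μ s c (P.T u) P.cM P.qM P.UM P.Kl (P.rM * wd μ s (P.T u)) 0 (zM98 Γ G P u κ)

/-- Lane B. -/
def LB98 : Set Env := LC30 μ s c (fun _ : Unit => (0 : ℤ)) (eB98 Γ G P u κ) P.N (P.nr u) P.δ P.Kb P.Kl P.U0 P.LB P.KpB P.UB
  (P.ρB * wd μ s (P.T u)) P.YB

/-- **The lucky lane block.** -/
def LE98 : Set Env :=
  BL30 (pt98 G u κ (rl98 Γ G P u κ)) (pt98 G u κ (rl98 Γ G P u κ + 2 * P.T u)) (LA98 μ s c Γ G P u κ)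
    (at20 (pt98 G u κ (rl98 Γ G P u κ + P.T u)) (MM98 μ s c Γ G P u κ)) (LB98 μ s c Γ G P u κ)

/-- **The content part of the luck.** -/
def Lk98 : Set Env := Lk30 μ s (pt98 G u κ (rl98 Γ G P u κ)) (fun _ : Unit => (0 : ℤ)) (eA98 Γ G P u κ) (P.T u) P.δ P.LA

/-- **The levels of the rows of the window.** -/
def Far98 : Set Env := Far16 μ s c P.th P.KF (G.T u) (G.re u κ - (G.ra u κ - 1)) P.PF (G.base u κ) P.qF

/-- The levels of the rows of the lane block and beyond (they do not read the gate block). -/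
def FarL98 : Set Env := Far16 μ s c P.th P.KF (G.T u) (G.re u κ - rl98 Γ G P u κ) P.PF (pt98 G u κ (rl98 Γ G P u κ)) P.qF

variable {μ s c Γ G P u κ}

/-! ### The rows -/

/-- The blocks fit into the window, `T u / 8` rows remain. -/
def Fit98 (G : Gm) (P : Nm98) (u : ℕ) : Prop := ln98 P u + 1 + G.T u / 8 ≤ G.T u - G.T (u - 1)

theorem ra_pos98 : 1 ≤ G.ra u κ := by
  unfold Gm.ra
  omega

theorem ag_eq98 : ag98 Γ G P u κ = G.ra u κ - 1 := rfl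

theorem le_ag98 : G.ra u κ - 1 ≤ ag98 Γ G P u κ := le_rfl

/-- The blocks are in the window, `T u / 8` rows remain behind them. -/
theorem ag_ln98 (h : Fit98 G P u) : ag98 Γ G P u κ + ln98 P u + G.T u / 8 ≤ G.re u κ - 1 := by
  have h1 := G.re_sub_ra u κ
  have h2 := G.ra_le_re u κ
  have h3 := ra_pos98 (G := G) (u := u) (κ := κ)
  unfold Fit98 at h
  unfold ag98
  omega

/-- **One slope in the window.** -/
theorem noM98 (h : NoSw98 Γ G u κ) : Γ.M ≤ G.ra u κ - 1 ∨ G.re u κ ≤ Γ.M := by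
  unfold NoSw98 at h
  omega

/-- The switch row is not inside of the blocks. -/
theorem no_M98 (hF : Fit98 G P u) (h : NoSw98 Γ G u κ) : ¬ (ag98 Γ G P u κ < Γ.M ∧ Γ.M < ag98 Γ G P u κ + ln98 P u) := by
  have h1 := ag_ln98 (Γ := Γ) (κ := κ) hF
  rcases noM98 h with h2 | h2
  · rw [ag_eq98]
    omega
  · omega

theorem rl_eq98 : rl98 Γ G P u κ = ag98 Γ G P u κ + 5 * P.n u := rfl

theorem ag_le_rl98 : ag98 Γ G P u κ ≤ rl98 Γ G P u κ := Nat.le_add_right _ _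

/-- The lane block is in the window, `T u / 8` rows remain behind it. -/
theorem rl_T98 (h : Fit98 G P u) : rl98 Γ G P u κ + 3 * P.T u + G.T u / 8 + 3 ≤ G.re u κ := by
  have h1 := ag_ln98 (Γ := Γ) (κ := κ) h
  have h2 := G.ra_le_re u κ
  have h3 := ra_pos98 (G := G) (u := u) (κ := κ)
  rw [rl_eq98]
  unfold ln98 at h1
  omega

/-- The base of the window. -/
theorem base98 (h0 : 0 ≤ G.rcc u κ) : pt98 G u κ (G.ra u κ - 1) = G.base u κ := by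
  have e1 : ((G.ra u κ - 1 : ℕ) : ℤ) = G.rcc u κ + G.T (u - 1) := by
    have := G.ra_cast h0
    have h1 := ra_pos98 (G := G) (u := u) (κ := κ)
    omega
  have e2 : ((G.ra u κ - 1 : ℕ) : ℝ) = (G.rcc u κ : ℝ) + (G.T (u - 1) : ℝ) := by
    have := congrArg (fun z : ℤ => (z : ℝ)) e1
    push_cast at this
    exact_mod_cast this
  unfold pt98 co98 Gm.base
  rw [e1, e2]

/-- The rows of the lane block. -/
theorem B98_rows {p : Pt} (hp : p ∈ B98 Γ G P u κ) : ((rl98 Γ G P u κ + 1 : ℕ) : ℤ) ≤ p.1 := by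
  have h := hp.2.1
  push_cast
  omega

theorem B98_top {p : Pt} (hp : p ∈ B98 Γ G P u κ) : p.1 ≤ ((rl98 Γ G P u κ + 3 * P.T u : ℕ) : ℤ) := hp.2.2

theorem b98_eq : b98 Γ G P u κ = rl98 Γ G P u κ + 3 * P.T u := rfl

theorem rl_le_b98 : rl98 Γ G P u κ ≤ b98 Γ G P u κ := Nat.le_add_right _ _

/-- The lane block is in the window, `T u / 8` rows remain behind it. -/
theorem b98_T (h : Fit98 G P u) : b98 Γ G P u κ + G.T u / 8 + 3 ≤ G.re u κ := rl_T98 h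

/-- The sites of the lane block. -/
theorem mem_B98 {p : Pt} (h : p ∈ G.win u κ) (h1 : ((rl98 Γ G P u κ : ℕ) : ℤ) < p.1) (h2 : p.1 ≤ ((b98 Γ G P u κ : ℕ) : ℤ)) :
    p ∈ B98 Γ G P u κ := ⟨h, h1, h2⟩

theorem B98_sub : B98 Γ G P u κ ⊆ G.win u κ := fun _ h => h.1

/-! ### Measurability -/

theorem meas_Gt98 [IsProbabilityMeasure μ] : MeasurableSet (Gt98 μ s c Γ G P u κ) := tf_meas42

theorem meas_LA98 : MeasurableSet (LA98 μ s c Γ G P u κ) := meas_LC30 _ _ _ _ _ _ _ _ _ _ _ _ _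

theorem meas_LB98 : MeasurableSet (LB98 μ s c Γ G P u κ) := meas_LC30 _ _ _ _ _ _ _ _ _ _ _ _ _

theorem meas_MM98 : MeasurableSet (MM98 μ s c Γ G P u κ) := meas_Mid99 _ _ _ _ _ _ _ _

theorem meas_LE98 : MeasurableSet (LE98 μ s c Γ G P u κ) := meas_BL30 meas_LA98 (meas_at20 _ meas_MM98) meas_LB98

theorem meas_Lk98 : MeasurableSet (Lk98 μ s Γ G P u κ) := meas_Lk30 _ _ _ _ _ _

theorem meas_Far98 [IsProbabilityMeasure μ] : MeasurableSet (Far98 μ s c G P u κ) := Far16_meas _ _ _ _ _ _ _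

theorem meas_FarL98 [IsProbabilityMeasure μ] : MeasurableSet (FarL98 μ s c Γ G P u κ) := Far16_meas _ _ _ _ _ _ _

/-! ### The rows read -/

/-- **The gate block reads the rows `(ag98, rl98]`.** -/
theorem on_Gt98 [IsProbabilityMeasure μ] (hn : 1 ≤ P.n u) (hm : 2 * P.m u ≤ P.n u) :
    On20 (rows (ag98 Γ G P u κ : ℤ) (rl98 Γ G P u κ : ℤ)) (Gt98 μ s c Γ G P u κ) := by
  have e : ((rl98 Γ G P u κ : ℕ) : ℤ) = (ag98 Γ G P u κ : ℤ) + ((5 * P.n u : ℕ) : ℤ) := by rw [rl_eq98]; push_cast; ring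
  rw [e]
  exact tf_on42 (μ := μ) (s := s) (c := c) (K1h := P.K1h) (K2h := P.K2h) (K₁ := P.K1 u) (K₂ := P.K2 u) (U₀ := P.Uc) (Q₀ := P.Qc)
    (U₁ := P.U1) (Q₁ := P.Q1) (U := P.U) (Q := P.Q) (Y := P.Y) (b := pt98 G u κ (ag98 Γ G P u κ)) hn hm

/-- **The gate block is decreasing in the wall sites.** -/
theorem dec_Gt98 (hm : 2 * P.m u ≤ P.n u) : DecO (Sg98 μ s Γ G P u κ)ᶜ (Gt98 μ s c Γ G P u κ) := tf_dec42 hm

theorem on_LA98 [IsProbabilityMeasure μ] : On20 (rows 0 (0 + (P.T u : ℕ))) (LA98 μ s c Γ G P u κ) := on_LC30 _ _ _ _ _ _ _ _ _ _ _ _ _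

theorem on_LB98 [IsProbabilityMeasure μ] : On20 (rows 0 (0 + (P.T u : ℕ))) (LB98 μ s c Γ G P u κ) := on_LC30 _ _ _ _ _ _ _ _ _ _ _ _ _

/-- **The lane block reads the rows `(rl98, rl98 + 3 T_r]`.** -/
theorem on_LE98 [IsProbabilityMeasure μ] :
    On20 (rows (rl98 Γ G P u κ : ℤ) ((rl98 Γ G P u κ + 3 * P.T u : ℕ) : ℤ)) (LE98 μ s c Γ G P u κ) := by
  have hM : On20 (rows (((rl98 Γ G P u κ : ℕ) : ℤ) + (P.T u : ℤ)) (((rl98 Γ G P u κ : ℕ) : ℤ) + ((2 * P.T u : ℕ) : ℤ)))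
      (at20 (pt98 G u κ (rl98 Γ G P u κ + P.T u)) (MM98 μ s c Γ G P u κ)) := by
    have h1 := on_at20' (pt98 G u κ (rl98 Γ G P u κ + P.T u)) (on_Mid99 (μ := μ) (s := s) (c := c) (P.T u) P.cM P.qM P.UM P.Kl
      (P.rM * wd μ s (P.T u)) 0 (zM98 Γ G P u κ))
    refine h1.mono fun p hp => ?_
    have h2 : ((rl98 Γ G P u κ + P.T u : ℕ) : ℤ) < p.1 := hp.1
    have h3 : p.1 ≤ ((rl98 Γ G P u κ + P.T u : ℕ) : ℤ) + (P.T u : ℤ) := hp.2
    constructor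
    · show ((rl98 Γ G P u κ : ℕ) : ℤ) + (P.T u : ℤ) < p.1
      push_cast at h2 ⊢
      omega
    · show p.1 ≤ ((rl98 Γ G P u κ : ℕ) : ℤ) + ((2 * P.T u : ℕ) : ℤ)
      push_cast at h3 ⊢
      omega
  have h2 : (pt98 G u κ (rl98 Γ G P u κ + 2 * P.T u)).1 = (pt98 G u κ (rl98 Γ G P u κ)).1 + ((2 * P.T u : ℕ) : ℤ) := by
    show ((rl98 Γ G P u κ + 2 * P.T u : ℕ) : ℤ) = ((rl98 Γ G P u κ : ℕ) : ℤ) + ((2 * P.T u : ℕ) : ℤ)
    push_cast
    ring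
  have h3 := on_BL30 (b0 := pt98 G u κ (rl98 Γ G P u κ)) (b2 := pt98 G u κ (rl98 Γ G P u κ + 2 * P.T u)) (T := P.T u) h2
    (on_LA98 (μ := μ) (s := s) (c := c) (Γ := Γ) (G := G) (P := P) (u := u) (κ := κ)) hM
    (on_LB98 (μ := μ) (s := s) (c := c) (Γ := Γ) (G := G) (P := P) (u := u) (κ := κ))
  refine h3.mono fun p hp => ⟨hp.1, hp.2.trans ?_⟩
  show ((rl98 Γ G P u κ : ℕ) : ℤ) + ((3 * P.T u : ℕ) : ℤ) ≤ ((rl98 Γ G P u κ + 3 * P.T u : ℕ) : ℤ)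
  push_cast
  omega

theorem on_Lk98 : On20 (rows (rl98 Γ G P u κ : ℤ) ((rl98 Γ G P u κ + P.T u : ℕ) : ℤ)) (Lk98 μ s Γ G P u κ) := by
  refine (on_Lk30 (μ := μ) (s := s) (fun _ : Unit => (0 : ℤ)) (eA98 Γ G P u κ) (P.T u) P.δ P.LA (pt98 G u κ (rl98 Γ G P u κ))).mono
    fun p hp => ⟨hp.1, hp.2.trans ?_⟩
  show ((rl98 Γ G P u κ : ℕ) : ℤ) + (P.T u : ℤ) ≤ ((rl98 Γ G P u κ + P.T u : ℕ) : ℤ)
  push_cast
  omega

/-- The lucky block has lucky content. -/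
theorem LE_sub_Lk98 : LE98 μ s c Γ G P u κ ⊆ Lk98 μ s Γ G P u κ := BL30_sub

/-- **The levels read the rows `[ra, re]`.** -/
theorem on_Far98 [IsProbabilityMeasure μ] (h0 : 0 ≤ G.rcc u κ) :
    On20 (rows ((G.ra u κ : ℤ) - 1) (G.re u κ : ℤ)) (Far98 μ s c G P u κ) := by
  intro η η' h
  refine Far16_rows fun p hp => h p ?_
  have e1 : (G.base u κ).1 = G.rcc u κ + G.T (u - 1) := rfl
  have e2 := G.ra_cast h0
  have e3 := G.ra_le_re u κ
  have e4 := ra_pos98 (G := G) (u := u) (κ := κ)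
  have h1 : (G.base u κ).1 < p.1 := hp.1
  have h2 : p.1 ≤ (G.base u κ).1 + ((G.re u κ - (G.ra u κ - 1) : ℕ) : ℤ) := hp.2
  constructor
  · show (G.ra u κ : ℤ) - 1 < p.1
    omega
  · show p.1 ≤ (G.re u κ : ℤ)
    have e5 : ((G.re u κ - (G.ra u κ - 1) : ℕ) : ℤ) = (G.re u κ : ℤ) - (G.ra u κ : ℤ) + 1 := by omega
    omega

theorem on_FarL98 [IsProbabilityMeasure μ] (hF : Fit98 G P u) :
    On20 (rows (rl98 Γ G P u κ : ℤ) (G.re u κ : ℤ)) (FarL98 μ s c Γ G P u κ) := by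
  intro η η' h
  refine Far16_rows fun p hp => h p ?_
  have e3 := rl_T98 (Γ := Γ) (κ := κ) hF
  have h1 : ((rl98 Γ G P u κ : ℕ) : ℤ) < p.1 := hp.1
  have h2 : p.1 ≤ ((rl98 Γ G P u κ : ℕ) : ℤ) + ((G.re u κ - rl98 Γ G P u κ : ℕ) : ℤ) := hp.2
  constructor
  · exact h1
  · show p.1 ≤ (G.re u κ : ℤ)
    omega

/-! ### What the blocks do not read -/

/-- The gate block does not read the lane block. -/
theorem off_B98 {E : Set Env} {a : ℤ} (h : On20 (rows a (rl98 Γ G P u κ : ℤ)) E) : Off (B98 Γ G P u κ) E :=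
  h.off (Set.disjoint_left.2 fun p h1 h2 => by
    have h3 : p.1 ≤ ((rl98 Γ G P u κ : ℕ) : ℤ) := h1.2
    have h4 := h2.2.1
    omega)

/-- The rows beyond the lane block do not read it. -/
theorem offT_B98 {E : Set Env} {a e : ℤ} (h : On20 (rows a e) E) (ha : ((b98 Γ G P u κ : ℕ) : ℤ) ≤ a) :
    Off (B98 Γ G P u κ) E :=
  h.off (Set.disjoint_left.2 fun p h1 h2 => by
    have h3 : a < p.1 := h1.1
    have h4 := h2.2.2
    omega)

theorem off_Gt98 [IsProbabilityMeasure μ] (hn : 1 ≤ P.n u) (hm : 2 * P.m u ≤ P.n u) : Off (B98 Γ G P u κ) (Gt98 μ s c Γ G P u κ) :=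
  off_B98 (on_Gt98 hn hm)

/-- **The wall sites are in the rows `(ra - 1, rl98]`.** -/
theorem Sg98_rows {p : Pt} (hp : p ∈ Sg98 μ s Γ G P u κ) (hm : 2 * P.m u ≤ P.n u) : p.1 ≤ ((rl98 Γ G P u κ : ℕ) : ℤ) := by
  have h1 : ((ag98 Γ G P u κ : ℕ) : ℤ) + P.n u < p.1 ∧ p.1 ≤ ((ag98 Γ G P u κ : ℕ) : ℤ) + P.n u + P.m u ∨
      ((ag98 Γ G P u κ : ℕ) : ℤ) + 3 * P.n u < p.1 ∧ p.1 ≤ ((ag98 Γ G P u κ : ℕ) : ℤ) + 3 * P.n u + P.m u := hp.1
  rw [rl_eq98]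
  push_cast
  omega

/-- **Events of the rows beyond `rl98` do not read the wall sites.** -/
theorem offSg98 {E : Set Env} {a e : ℤ} (hm : 2 * P.m u ≤ P.n u) (h : On20 (rows a e) E) (ha : ((rl98 Γ G P u κ : ℕ) : ℤ) ≤ a) :
    Off (Sg98 μ s Γ G P u κ) E :=
  h.off (Set.disjoint_left.2 fun p h1 h2 => by
    have h3 : a < p.1 := h1.1
    have h4 := Sg98_rows h2 hm
    omega)

/-- An event which does not read the wall sites. -/
theorem decO_off98 {S : Set Pt} {E : Set Env} (h : Off S E) : DecO Sᶜ E := DecO.of_off (by rw [compl_compl]; exact h)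

/-- An event of some rows of the window. -/
theorem offS_of98 {E : Set Env} {a e : ℤ} (h : On20 (rows a e) E) (ha : (G.ra u κ : ℤ) - 1 ≤ a) (he : e ≤ G.re u κ) :
    Off (offS G u κ) E :=
  h.off (Set.disjoint_left.2 fun p h1 h2 => by
    have h3 : a < p.1 := h1.1
    have h4 : p.1 ≤ e := h1.2
    refine h2 ⟨?_, ?_⟩ <;> omega)

theorem ag_ra98 : (G.ra u κ : ℤ) - 1 ≤ ((ag98 Γ G P u κ : ℕ) : ℤ) := by
  have h1 := le_ag98 (Γ := Γ) (G := G) (P := P) (u := u) (κ := κ)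
  have h2 := ra_pos98 (G := G) (u := u) (κ := κ)
  omega

theorem rl_ra98 : (G.ra u κ : ℤ) - 1 ≤ ((rl98 Γ G P u κ : ℕ) : ℤ) := by
  have h1 := ag_ra98 (Γ := Γ) (G := G) (P := P) (u := u) (κ := κ)
  have h2 := ag_le_rl98 (Γ := Γ) (G := G) (P := P) (u := u) (κ := κ)
  omega

theorem offS_Gt98 [IsProbabilityMeasure μ] (hF : Fit98 G P u) (hn : 1 ≤ P.n u) (hm : 2 * P.m u ≤ P.n u) :
    Off (offS G u κ) (Gt98 μ s c Γ G P u κ) := by
  refine offS_of98 (on_Gt98 hn hm) ag_ra98 ?_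
  have := rl_T98 (Γ := Γ) (κ := κ) hF
  omega

theorem offS_LE98 [IsProbabilityMeasure μ] (hF : Fit98 G P u) : Off (offS G u κ) (LE98 μ s c Γ G P u κ) := by
  refine offS_of98 on_LE98 rl_ra98 ?_
  have := rl_T98 (Γ := Γ) (κ := κ) hF
  omega

theorem offS_Lk98 (hF : Fit98 G P u) : Off (offS G u κ) (Lk98 μ s Γ G P u κ) := by
  refine offS_of98 on_Lk98 rl_ra98 ?_
  have := rl_T98 (Γ := Γ) (κ := κ) hF
  omega

theorem offS_Far98 [IsProbabilityMeasure μ] (h0 : 0 ≤ G.rcc u κ) : Off (offS G u κ) (Far98 μ s c G P u κ) :=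
  offS_of98 (on_Far98 h0) le_rfl le_rfl

theorem offS_FarL98 [IsProbabilityMeasure μ] (hF : Fit98 G P u) : Off (offS G u κ) (FarL98 μ s c Γ G P u κ) :=
  offS_of98 (on_FarL98 hF) rl_ra98 le_rfl

/-! ### The typical and the lucky set of the window

`KG` = the events of the rows up to `rl98` which the ratio needs of BOTH contents, `KL` = the events of the lane rows which the ratio needs
of the NEW content, `XO` = further typical events of the OLD content (all of helper22's RatB22). -/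

/-- **What is asked of the new content of the lane block.** -/
def Lb98 (μ : Measure ℝ) (s c : ℝ) (Γ : Cx) (G : Gm) (P : Nm98) (KL : ℕ → ℤ × ℤ → Set Env) (u : ℕ) (κ : ℤ × ℤ) : Set Env :=
  LE98 μ s c Γ G P u κ ∩ KL u κ

/-- The lucky contents of `B98`, given the rest. -/
def Lc98 (μ : Measure ℝ) (s c : ℝ) (Γ : Cx) (G : Gm) (P : Nm98) (KL : ℕ → ℤ × ℤ → Set Env) (u : ℕ) (κ : ℤ × ℤ)
    (ω : Env) : Set Env := {η | gl (B98 Γ G P u κ) η ω ∈ Lb98 μ s c Γ G P KL u κ}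

/-- **The rest of the environment lets the lane block be lucky with probability at least `pL`.** -/
def Ty98 (μ : Measure ℝ) (s c : ℝ) (Γ : Cx) (G : Gm) (P : Nm98) (KL : ℕ → ℤ × ℤ → Set Env) (u : ℕ) (κ : ℤ × ℤ) : Set Env :=
  {ω | P.pL ≤ cP μ (B98 Γ G P u κ) (Lb98 μ s c Γ G P KL u κ) ω}

/-- **THE LUCKY SET.** -/
def L98 (μ : Measure ℝ) (s c : ℝ) (Γ : Cx) (G : Gm) (P : Nm98) (KG KL : ℕ → ℤ × ℤ → Set Env) (u : ℕ) (κ : ℤ × ℤ) : Set Env :=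
  ({_ω : Env | NoSw98 Γ G u κ} ∩ (Gt98 μ s c Γ G P u κ ∩ KG u κ)) ∩ Lb98 μ s c Γ G P KL u κ

/-- **THE TYPICAL SET OF THE WINDOW.** -/
def Lv98 (μ : Measure ℝ) (s c : ℝ) (Γ : Cx) (G : Gm) (P : Nm98) (KG KL XO : ℕ → ℤ × ℤ → Set Env) (u : ℕ) (κ : ℤ × ℤ) :
    Set Env :=
  ({_ω : Env | NoSw98 Γ G u κ} ∩ (Gt98 μ s c Γ G P u κ ∩ KG u κ)) ∩ (XO u κ ∩ ((Far98 μ s c G P u κ ∩ FarL98 μ s c Γ G P u κ) ∩
    (Ty98 μ s c Γ G P KL u κ ∩ (Lk98 μ s Γ G P u κ)ᶜ)))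

variable {KG KL XO : ℕ → ℤ × ℤ → Set Env}

theorem meas_Lb98 (mL : MeasurableSet (KL u κ)) : MeasurableSet (Lb98 μ s c Γ G P KL u κ) := meas_LE98.inter mL

theorem meas_Ty98 [IsProbabilityMeasure μ] (mL : MeasurableSet (KL u κ)) : MeasurableSet (Ty98 μ s c Γ G P KL u κ) :=
  meas_set30 (meas_Lb98 mL) _

theorem meas_Lc98 (mL : MeasurableSet (KL u κ)) (ω : Env) : MeasurableSet (Lc98 μ s c Γ G P KL u κ ω) := meas_sec (meas_Lb98 mL) ω

/-- **`mL`.** -/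
theorem meas_L98 [IsProbabilityMeasure μ] (mG : MeasurableSet (KG u κ)) (mL : MeasurableSet (KL u κ)) :
    MeasurableSet (L98 μ s c Γ G P KG KL u κ) :=
  ((MeasurableSet.const _).inter (meas_Gt98.inter mG)).inter (meas_Lb98 mL)

theorem meas_Lv98 [IsProbabilityMeasure μ] (mG : MeasurableSet (KG u κ)) (mL : MeasurableSet (KL u κ)) (mX : MeasurableSet (XO u κ)) :
    MeasurableSet (Lv98 μ s c Γ G P KG KL XO u κ) :=
  ((MeasurableSet.const _).inter (meas_Gt98.inter mG)).inter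
    (mX.inter ((meas_Far98.inter meas_FarL98).inter ((meas_Ty98 mL).inter meas_Lk98.compl)))

/-- **`dis`.** -/
theorem dis98 : Disjoint (Lv98 μ s c Γ G P KG KL XO u κ) (L98 μ s c Γ G P KG KL u κ) :=
  Set.disjoint_left.2 fun _ h1 h2 => h1.2.2.2.2 (LE_sub_Lk98 h2.2.1)

/-! ### Projections -/

theorem Lv98.nosw {ω : Env} (h : ω ∈ Lv98 μ s c Γ G P KG KL XO u κ) : NoSw98 Γ G u κ := h.1.1
theorem L98.nosw {ω : Env} (h : ω ∈ L98 μ s c Γ G P KG KL u κ) : NoSw98 Γ G u κ := h.1.1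
theorem Lv98.gt {ω : Env} (h : ω ∈ Lv98 μ s c Γ G P KG KL XO u κ) : ω ∈ Gt98 μ s c Γ G P u κ := h.1.2.1
theorem Lv98.kg {ω : Env} (h : ω ∈ Lv98 μ s c Γ G P KG KL XO u κ) : ω ∈ KG u κ := h.1.2.2
theorem Lv98.xo {ω : Env} (h : ω ∈ Lv98 μ s c Γ G P KG KL XO u κ) : ω ∈ XO u κ := h.2.1
theorem Lv98.far {ω : Env} (h : ω ∈ Lv98 μ s c Γ G P KG KL XO u κ) : ω ∈ Far98 μ s c G P u κ := h.2.2.1.1
theorem Lv98.farL {ω : Env} (h : ω ∈ Lv98 μ s c Γ G P KG KL XO u κ) : ω ∈ FarL98 μ s c Γ G P u κ := h.2.2.1.2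
theorem Lv98.ty {ω : Env} (h : ω ∈ Lv98 μ s c Γ G P KG KL XO u κ) : ω ∈ Ty98 μ s c Γ G P KL u κ := h.2.2.2.1
theorem L98.gt {ω : Env} (h : ω ∈ L98 μ s c Γ G P KG KL u κ) : ω ∈ Gt98 μ s c Γ G P u κ := h.1.2.1
theorem L98.kg {ω : Env} (h : ω ∈ L98 μ s c Γ G P KG KL u κ) : ω ∈ KG u κ := h.1.2.2
theorem L98.le {ω : Env} (h : ω ∈ L98 μ s c Γ G P KG KL u κ) : ω ∈ LE98 μ s c Γ G P u κ := h.2.1
theorem L98.kl {ω : Env} (h : ω ∈ L98 μ s c Γ G P KG KL u κ) : ω ∈ KL u κ := h.2.2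

/-- The three sets of the lane block. -/
theorem LE98.laneA {ω : Env} (h : ω ∈ LE98 μ s c Γ G P u κ) : sh (pt98 G u κ (rl98 Γ G P u κ)) ω ∈ LA98 μ s c Γ G P u κ := h.1
theorem LE98.mid {ω : Env} (h : ω ∈ LE98 μ s c Γ G P u κ) : sh (pt98 G u κ (rl98 Γ G P u κ + P.T u)) ω ∈ MM98 μ s c Γ G P u κ := h.2.1
theorem LE98.laneB {ω : Env} (h : ω ∈ LE98 μ s c Γ G P u κ) : sh (pt98 G u κ (rl98 Γ G P u κ + 2 * P.T u)) ω ∈ LB98 μ s c Γ G P u κ :=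
  h.2.2

/-! ### The passage to the lucky set -/

/-- **`toL`.** -/
theorem toL98 (hN : NoSw98 Γ G u κ) (oG : Off (B98 Γ G P u κ) (Gt98 μ s c Γ G P u κ)) (oK : Off (B98 Γ G P u κ) (KG u κ)) {ω η : Env}
    (hg : ω ∈ Gt98 μ s c Γ G P u κ) (hk : ω ∈ KG u κ) (hη : η ∈ Lc98 μ s c Γ G P KL u κ ω) :
    gl (B98 Γ G P u κ) η ω ∈ L98 μ s c Γ G P KG KL u κ :=
  ⟨⟨hN, (oG.gl η ω).2 hg, (oK.gl η ω).2 hk⟩, hη⟩

/-- **`pLk`.** -/
theorem pLk98 [IsProbabilityMeasure μ] {ω : Env} (hω : ω ∈ Ty98 μ s c Γ G P KL u κ) :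
    ENNReal.ofReal P.pL ≤ law μ (Lc98 μ s c Γ G P KL u κ ω) := by
  have hp := isProb58 (μ := μ)
  have h1 : P.pL ≤ (law μ).real (Lc98 μ s c Γ G P KL u κ ω) := hω
  exact ENNReal.ofReal_le_of_le_toReal h1

/-- **The probability of `Ty98`.** -/
theorem ty98_prob [IsProbabilityMeasure μ] (mL : MeasurableSet (KL u κ)) {p e₁ e₂ : ℝ} (hp : 0 < p) (hpL : P.pL = p / 2)
    (h1 : (law μ).real {ω | p ≤ cP μ (B98 Γ G P u κ) (LE98 μ s c Γ G P u κ) ω}ᶜ ≤ e₁) (h2 : (law μ).real (KL u κ)ᶜ ≤ e₂) :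
    (law μ).real (Ty98 μ s c Γ G P KL u κ)ᶜ ≤ e₁ + 2 * e₂ / p := by
  have hpr := isProb58 (μ := μ)
  have sub : (Ty98 μ s c Γ G P KL u κ)ᶜ ⊆ {ω | p ≤ cP μ (B98 Γ G P u κ) (LE98 μ s c Γ G P u κ) ω}ᶜ ∪
      {ω | p / 2 < cP μ (B98 Γ G P u κ) (KL u κ)ᶜ ω} := by
    intro ω hω
    by_contra hcon
    rw [Set.mem_union, not_or] at hcon
    obtain ⟨h3, h4⟩ := hcon
    have h3' : p ≤ cP μ (B98 Γ G P u κ) (LE98 μ s c Γ G P u κ) ω := by
      by_contra h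
      exact h3 h
    have h4' : cP μ (B98 Γ G P u κ) (KL u κ)ᶜ ω ≤ p / 2 := by
      by_contra h
      exact h4 (not_le.1 h)
    refine hω ?_
    show P.pL ≤ cP μ (B98 Γ G P u κ) (Lb98 μ s c Γ G P KL u κ) ω
    have h5 : cP μ (B98 Γ G P u κ) (LE98 μ s c Γ G P u κ) ω ≤
        cP μ (B98 Γ G P u κ) (Lb98 μ s c Γ G P KL u κ) ω + cP μ (B98 Γ G P u κ) (KL u κ)ᶜ ω := by
      unfold cP
      refine (measureReal_mono ?_).trans (measureReal_union_le _ _)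
      intro ξ hξ
      by_cases h6 : gl (B98 Γ G P u κ) ξ ω ∈ KL u κ
      · exact Or.inl ⟨hξ, h6⟩
      · exact Or.inr h6
    rw [hpL]
    linarith
  refine (measureReal_mono sub).trans ((measureReal_union_le _ _).trans (add_le_add h1 ?_))
  refine (cP_markov (μ := μ) (B := B98 Γ G P u κ) mL.compl (show (0 : ℝ) < p / 2 by linarith)).trans ?_
  have e : (law μ).real (KL u κ)ᶜ / (p / 2) = 2 * (law μ).real (KL u κ)ᶜ / p := by
    field_simp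
  rw [e]
  exact div_le_div_of_nonneg_right (by linarith) hp.le

/-! ### The rows -/

/-- A conditional probability does not read more than the event. -/
theorem off_cP98 {A B : Set Pt} {E : Set Env} (hE : Off A E) (p : ℝ) : Off A {ω | p ≤ cP μ B E ω} := by
  intro ω ω' h
  have e : {ξ | gl B ξ ω ∈ E} = {ξ | gl B ξ ω' ∈ E} := by
    ext ξ
    refine hE _ _ fun x hx => ?_
    by_cases h1 : x ∈ B
    · rw [gl_of_mem h1, gl_of_mem h1]
    · rw [gl_of_not_mem h1, gl_of_not_mem h1]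
      exact h x hx
  show p ≤ cP μ B E ω ↔ p ≤ cP μ B E ω'
  unfold cP
  rw [e]

/-- `Ty98` does not read `B98`. -/
theorem off_Ty98 : Off (B98 Γ G P u κ) (Ty98 μ s c Γ G P KL u κ) := off_set30 _ _

theorem offS_Ty98 [IsProbabilityMeasure μ] (hF : Fit98 G P u) (oL : Off (offS G u κ) (KL u κ)) :
    Off (offS G u κ) (Ty98 μ s c Γ G P KL u κ) :=
  off_cP98 ((offS_LE98 hF).inter oL) _

theorem offSg_Ty98 [IsProbabilityMeasure μ] (hm : 2 * P.m u ≤ P.n u) (oL : Off (Sg98 μ s Γ G P u κ) (KL u κ)) :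
    Off (Sg98 μ s Γ G P u κ) (Ty98 μ s c Γ G P KL u κ) :=
  off_cP98 ((offSg98 hm on_LE98 le_rfl).inter oL) _

theorem offSg_FarL98 [IsProbabilityMeasure μ] (hF : Fit98 G P u) (hm : 2 * P.m u ≤ P.n u) :
    Off (Sg98 μ s Γ G P u κ) (FarL98 μ s c Γ G P u κ) := offSg98 hm (on_FarL98 hF) le_rfl

/-- **THE TYPICAL SET READS THE ROWS `[ra, re]` OF THE WINDOW.** -/
theorem offS_Lv98 [IsProbabilityMeasure μ] (h0 : 0 ≤ G.rcc u κ) (hF : Fit98 G P u) (hn : 1 ≤ P.n u) (hm : 2 * P.m u ≤ P.n u)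
    (oG : Off (offS G u κ) (KG u κ)) (oL : Off (offS G u κ) (KL u κ)) (oX : Off (offS G u κ) (XO u κ)) :
    Off (offS G u κ) (Lv98 μ s c Γ G P KG KL XO u κ) :=
  (Off.inter (fun _ _ _ => Iff.rfl) ((offS_Gt98 hF hn hm).inter oG)).inter
    (oX.inter (((offS_Far98 h0).inter (offS_FarL98 hF)).inter ((offS_Ty98 hF oL).inter (P25.offS_compl (offS_Lk98 hF)))))

/-- `Stb` from the rows, scales beyond `τ0` only. -/
theorem stb_rows98 {mt q τ0 : ℕ} {dR d smax : ℕ → ℝ} {Lv : ℕ → ℤ × ℤ → Set Env} (hm : ∀ u κ, MeasurableSet (Lv u κ))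
    (ho : ∀ v κ, τ0 < v → 0 ≤ G.rcc v κ → Off (offR G v κ) (Lv v κ)) : P25.Stb Γ G mt q τ0 dR d smax fun _ => Lv where
  meas _ u κ := hm u κ
  mono _ _ _ _ _ := le_rfl
  tr u κ v κ' h1 _ h3 h4 h5 ω η _ _ _ h8 := by
    obtain ⟨c, -, hc⟩ := h3
    obtain ⟨c', -, hc'⟩ := h4
    have huv : u + q ≤ v := by cases h5 <;> assumption
    exact (((ho v κ' (by omega) (G.rcc_nonneg ⟨c', hc'⟩)).mono (P25.win_offR h5 (G.rcc_nonneg ⟨c, hc⟩))).gl η ω).2 h8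

/-- **`sLv` OF `In25`.** -/
theorem stb_Lv98 [IsProbabilityMeasure μ] {mt q τ0 : ℕ} {dR d smax : ℕ → ℝ}
    (hF : ∀ v, τ0 < v → Fit98 G P v ∧ 1 ≤ P.n v ∧ 2 * P.m v ≤ P.n v)
    (mG : ∀ u κ, MeasurableSet (KG u κ)) (mL : ∀ u κ, MeasurableSet (KL u κ)) (mX : ∀ u κ, MeasurableSet (XO u κ))
    (oG : ∀ v κ, τ0 < v → 0 ≤ G.rcc v κ → Off (offS G v κ) (KG v κ)) (oL : ∀ v κ, τ0 < v → 0 ≤ G.rcc v κ → Off (offS G v κ) (KL v κ))
    (oX : ∀ v κ, τ0 < v → 0 ≤ G.rcc v κ → Off (offS G v κ) (XO v κ)) :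
    P25.Stb Γ G mt q τ0 dR d smax fun _ => Lv98 μ s c Γ G P KG KL XO :=
  stb_rows98 (fun u κ => meas_Lv98 (mG u κ) (mL u κ) (mX u κ)) fun v κ hv h0 => P25.offR_of_offS
    (offS_Lv98 h0 (hF v hv).1 (hF v hv).2.1 (hF v hv).2.2 (oG v κ hv h0) (oL v κ hv h0) (oX v κ hv h0))

end

end Pool.Agent.W_7d29a1_C1.D98
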