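import Pool.Agent.W_7d29a1_C1.SepC2
import Pool.Agent.W_7d29a1_C1.NmC15

/-!
MP_7d29a1_pr, attractor route [C1], SEP: **THE GATE NUMBERS `C.g` AND THE LANE NUMBERS `C.l` OF THE RECORD `Cst`.** (helper2)

`ε` is the probability budget of one factor of `Lv`.
-/

set_option autoImplicit false

namespace Pool.Agent.W_7d29a1_C1.Cs2

open Pool.Agent.W_7d29a1_C1.Nm15

noncomputable section

namespace Cst

variable (C : Cst)

/-- The `G` of `num58`. -/
def Gg : ℝ := 2 * C.sgm * (C.R0 + 1) + 10 + C.Uc + C.Qc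

/-- **The gate.** -/
def g (ε : ℝ) : Gc15 :=
  { kc := C.kc, R := C.R0 - 1, G := C.Gg, j := C.j, K1h := C.K1h, M := C.M, K2h := C.K2h, U0 := C.Uc, Q0 := C.Qc, U1 := C.U1g, Q1 := C.Q1g,
    U := C.Ug, Q := C.Qg, A := C.Ag, B := C.Bg, Y := C.Yg, p := C.pG, ε := ε, n2 := C.n2 }

/-- **The lanes and the levels of the rows.** -/
def l : Lc15 :=
  { N := C.N, jl := C.jl, δ := C.dl, Kb := 2, Kl := C.Kl, U0 := C.U0, LA := C.LA, KpA := C.Kp, UA := C.UA, ρA := C.dl / 32, YA := C.YA,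
    LB := C.LB, KpB := C.Kp, UB := C.UB, ρB := C.dl / 32, YB := C.YB, cM := C.cM, qM := C.qM, UM := C.UM, rM := C.dl / 4, pL := C.pL,
    th := 1 / 8, KF := 4, PF := C.PF, qF := C.qF }

end Cst

end

end Pool.Agent.W_7d29a1_C1.Cs2
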