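import Pool.Agent.W_7d29a1_C1.SepF98
import Pool.Agent.W_7d29a1_C1.FaAv25
import Pool.Agent.W_7d29a1_C1.LatR74
import Pool.Agent.W_7d29a1_C1.Osc22

/-!
Both halves (MP_7d29a1_pr), attractor route [C1], SEP: THE FRAME WITH THE FAR MASS OFF THE BALL (helper98).

`fa98` = FaAv25.fa of the contact; `far98` = the field `far` of `In98` from the event `St` (helper78, helper74); `osc98` = the fields
`oscT`, `oscS` from one pair `Pr` (helper22) and the oscillation of the potential; `sepXX98` = the separation over all the contacts of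
SepDef53 (the form of `nuM77`).
-/

set_option autoImplicit false

namespace Pool.Agent.W_7d29a1_C1.SF98

open Finset MeasureTheory
open Pool.Agent.W_7d29a1_F
open Pool.Agent.W_7d29a1_C1.K91 (wt wt_pos)
open Pool.Agent.W_7d29a1_C1.H60
open Pool.Agent.W_7d29a1_C1.G37 (Gm)
open Pool.Agent.W_7d29a1_C1.H49 (Par MoveQ ex lm Hf Hs Osc fac rat hM gM cnt Cov)
open Pool.Agent.W_7d29a1_C1.SD53 (XX)
open Pool.Agent.W_7d29a1_C1.FA25 (Av la rr lr)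
open scoped ENNReal

noncomputable section

variable (Γ : Cx) (G : Gm) (mt : ℕ)

/-- **The far mass off the ball.** -/
def fa98 (t k τ : ℕ) (x : XS Γ G mt) (ω : Env) : ℝ≥0∞ := FA25.fa Γ G t k τ (up x) ω

variable {Γ G mt}

theorem meas_fa98 (t k τ : ℕ) (x : XS Γ G mt) : Measurable (fa98 Γ G mt t k τ x) := FA25.meas_fa _ _ _ _

theorem fa98_mono (h : Γ.Ok) (t k τ τ' : ℕ) (x : XS Γ G mt) (ω : Env) (hτ : τ ≤ τ') :
    fa98 Γ G mt t k τ x ω ≤ fa98 Γ G mt t k τ' x ω := FA25.fa_mono h t k hτ _ ω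

theorem fa98_move (h : Γ.Ok) {t i j s t' k : ℕ} {x ρ ρ' : XS Γ G mt} (ht : t ≤ i) (hs : s < i) (hr : G.relj i j x.1 ρ.1)
    (hn : G.Nb s (G.loc s ρ.1) ρ'.1) (hj : j < G.M) (ω : Env) :
    fa98 Γ G mt t' k (t - 1) x ω ≤ fa98 Γ G mt t' k (j + G.m2) ρ' ω :=
  FA25.mvfaJ h ht hj hs (x := up x) (ρ := up ρ) (ρ' := up ρ') hr hn ω

/-! ### The field `far` -/

/-- **The field `far`.** -/
theorem far98 (h : Γ.Ok) (hv0 : 0 ≤ G.v) (hv1 : G.v ≤ 1) {a b β : ℝ} (hβ : Real.exp (-β) ≤ 1 / 2) (hb : b + 5 / 2 ≤ 2 * G.kn)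
    (hM : G.M ≤ mt) {t i j u : ℕ} {x ρ : XS Γ G mt} (ht1 : 1 ≤ t) (hti : t ≤ i) (hj : G.relj i j x.1 ρ.1) (hu : i + 3 ≤ u) (huj : u < j)
    (ha : G.w u / 2 + 1 ≤ a * G.w u) {ω : Env} (hs : ω ∈ Sy78.St Γ G a b β u (G.loc u ρ.1)) :
    wS Γ G mt ρ ω ≤ 2 * fa98 Γ G mt t (i + 1) (t - 1) x ω := by
  have hp := G.T_pos (t - 1)
  obtain ⟨r0, hr0, hr1, hr2⟩ : ∃ r0 : ℤ, r0 ∈ G.fr t (t - 1) x.1 ∧ (x.1.1 : ℤ) + G.T t ≤ r0 ∧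
      r0 ≤ (x.1.1 : ℤ) + G.T t + G.T (t - 1) := by
    have h1 := H40.lt_nxt hp ((x.1.1 : ℤ) + G.T t)
    have h2 := H40.nxt_le hp ((x.1.1 : ℤ) + G.T t)
    have h3 := G.T_pos' (t - 1)
    refine ⟨H40.nxt (G.T (t - 1)) ((x.1.1 : ℤ) + G.T t), ?_, h1.le, h2⟩
    unfold Gm.fr
    rw [mem_filter, mem_Icc]
    refine ⟨⟨h1.le, by linarith⟩, ?_⟩
    unfold H40.nxt
    exact dvd_mul_right _ _
  have hx := row_up x
  have hjM := hj.2.1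
  have t1 := G.T_mono' (show t ≤ mt by omega)
  have t2 := G.T_lt8 (show t - 1 < t by omega)
  have t3 := G.T_pos' (t - 1)
  have t4 := G.T_pos' t
  have hr0n : 0 ≤ r0 := by
    have : (0 : ℤ) ≤ (x.1.1 : ℤ) := by positivity
    linarith
  obtain ⟨r, rfl⟩ := Int.eq_ofNat_of_zero_le hr0n
  have hx' : (x.1.1 : ℤ) + 2 * G.T mt ≤ Γ.N := by exact_mod_cast hx
  have hrN : r < Γ.N := by
    have : (r : ℤ) < Γ.N := by linarith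
    exact_mod_cast this
  have hρ := (Cx.mem_rows.1 (up ρ).2).2.1
  have key := (LtS74.w_le_av h hv0 hv1 hβ hb ht1 hti (x := x.1) (ρ := ρ.1) hρ hj hu huj ha hs hr1 hr2 hrN (B := Av G t (t - 1) x.1)
    (fun k y hk => by
      obtain ⟨k1, k2⟩ := hk
      have e1 : rr G t (t - 1) ≤ 2 * (G.T (t - 1) : ℤ) := by
        unfold rr
        have := G.T_pos' (t - 1 + 1 - G.m2)
        linarith
      have e2 : lr G t (t - 1) ≤ G.w (t - 1) := by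
        unfold lr
        have := mul_nonneg (FA25.la_nonneg (G := G)) (G.w_pos (t - 1 + 1 - G.m2)).le
        linarith
      refine ⟨?_, k2.trans e2⟩
      have := (abs_le.1 k1).1
      have k1' : -rr G t (t - 1) ≤ (k : ℤ) - x.1.1 := this
      linarith)).1
  have key2 : Γ.w ρ.1 ω ≤ 2 * FA25.PA Γ Cx.l (Av G t (t - 1) x.1) r (G.fs (i + 1) (t - 1) x.1 (r : ℤ)) ω := key
  calc wS Γ G mt ρ ω ≤ ENNReal.ofReal (2 * FA25.PA Γ Cx.l (Av G t (t - 1) x.1) r (G.fs (i + 1) (t - 1) x.1 (r : ℤ)) ω) :=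
        ENNReal.ofReal_le_ofReal key2
    _ = 2 * ENNReal.ofReal (FA25.PA Γ Cx.l (Av G t (t - 1) x.1) r (G.fs (i + 1) (t - 1) x.1 (r : ℤ)) ω) := by
        rw [ENNReal.ofReal_mul (by norm_num)]
        simp
    _ ≤ 2 * fa98 Γ G mt t (i + 1) (t - 1) x ω := by
        refine mul_le_mul' le_rfl ?_
        unfold fa98 FA25.fa
        have hm : (r : ℤ) ∈ (G.fr t (t - 1) (up x).1).filter (fun r => r ≤ (Γ.N : ℤ)) :=
          mem_filter.2 ⟨hr0, by exact_mod_cast hrN.le⟩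
        refine le_trans ?_ (single_le_sum (f := fun r : ℤ =>
          ENNReal.ofReal (FA25.PA Γ Cx.l (Av G t (t - 1) (up x).1) r.toNat (G.fs (i + 1) (t - 1) (up x).1 r) ω) +
            ENNReal.ofReal (FA25.PA Γ Γ.r (Av G t (t - 1) (up x).1) r.toNat (G.fs (i + 1) (t - 1) (up x).1 r) ω))
              (fun _ _ => zero_le) hm)
        exact le_self_add

/-! ### The oscillation -/

section Osc

variable {th : ℕ → ℕ → ℝ} {sl : ℕ → ℝ} {be : ℕ → ℕ → ℝ} {b : ℕ → ℝ} {st : ℕ → ℕ → ℕ} {κ3 θ : ℝ≥0∞}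
  {pot : ℕ → ℝ → XS Γ G mt → Env → ℝ≥0∞}

/-- **THE OSCILLATION** at the stage `j + m2`, window `u ≤ j` of the cell `κ`, target `y`. -/
theorem osc98 (h : Γ.Ok) (hm2 : la G + G.kw + G.kb + 2 ≤ 2 ^ (G.m2 - 1)) {u j : ℕ} (huj : u ≤ j) {κ : KS Γ G mt u} {y : XS Γ G mt}
    (hy : y ∈ G.nb (FS Γ G mt) u κ) {dd β : ℝ} {ω η : Env}
    (hp : O22.Pr Γ (G.ra u κ.1 - 1) (G.re u κ.1) (O22.Bw G u κ.1) dd ω (G.R u κ.1 η ω)) (hβ : 4 * dd ≤ β)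
    (hpot : ∀ σ, σ + β ≤ sl (j + G.m2) → pot (j + G.m2) σ y ω ≤ pot (j + G.m2) (σ + β) y (G.R u κ.1 η ω)) :
    Osc (p98 Γ G mt th sl be b st κ3 θ) (wS Γ G mt) (fa98 Γ G mt) pot (j + G.m2) y β ω (G.R u κ.1 η ω) := by
  have hn := (G.mem_nb).1 hy
  have hd := hp.d0
  have h0 : 0 ≤ G.rcc u κ.1 := by
    obtain ⟨c, hc⟩ := G.exists_cel κ
    rw [← hc]
    exact (G.rcc_pos u c.1).le
  obtain ⟨hrow1, -⟩ := O22.rows_R (G := G) h0 (j := j + G.m2) (by omega) hn.1 hn.2.1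
  have shift : ∀ {q σ : ℝ} {A A' : ℝ≥0∞} {d' : ℝ}, d' ≤ β → A ≤ ex d' * A' → ex (-(q + σ)) ≤ A → ex (-(q + (σ + β))) ≤ A' := by
    intro q σ A A' d' h1 h2 h3
    calc ex (-(q + (σ + β))) ≤ ex (-d' + -(q + σ)) := H49.ex_mono (by linarith)
      _ = ex (-d') * ex (-(q + σ)) := H49.ex_add _ _
      _ ≤ ex (-d') * (ex d' * A') := mul_le_mul' le_rfl (h3.trans h2)
      _ = (ex d' * ex (-d')) * A' := by ring
      _ = A' := by rw [H49.ex_mul_neg, one_mul]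
  refine ⟨fun t' k σ h1 h2 h3 h4 h5 => ?_, fun t' k σ h1 h2 h3 h4 h5 => ?_, hpot⟩
  · have h1' : j + G.m2 < t' := h1
    have h2' : t' + G.m0 ≤ k := h2
    have hD : 0 ≤ G.dk k (j + G.m2) := by
      have := G.T_mono' (show j + G.m2 ≤ k by omega)
      have := G.T_pos' k
      unfold Gm.dk
      linarith
    have e : ∀ ω, H49.em (p98 Γ G mt th sl be b st κ3 θ).row (wS Γ G mt) ((p98 Γ G mt th sl be b st κ3 θ).dk k (j + G.m2)) y ω =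
        H49.em (SD53.row Γ) (SD53.w Γ) (G.dk k (j + G.m2)) (up y) ω := fun ω => em_up hD y ω
    rw [e] at h5 ⊢
    exact shift (d' := 4 * dd) hβ (hp.symm.em h (x := up y) (hrow1 k (by omega))) h5
  · have h1' : j + G.m2 < t' := h1
    refine shift (d' := dd) (by linarith) ?_ h5
    refine FA25.osc_fa h (t := t') (by omega) (x := up y) (fun k z hk => ?_) (hp.ZG (SD53.ms_l h)) (hp.ZG (SD53.ms_r h))
    refine hp.off k z fun hz => hk ?_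
    refine FA25.win_sub_Av hm2 (u := u) (j := j) (t' := t') (by omega) h1' (κ := κ.1) (y := y.1) ?_ hn.2.2 hz
    have t1 := hn.1
    have t2 := hn.2.1
    have t3 := G.rcc_eq u κ.1
    have t4 := G.T_mono' (show u - 2 ≤ u by omega)
    rw [abs_le]
    constructor <;> linarith

end Osc

/-! ### The frame -/

section Frame

variable (Γ G mt)

/-- **WHAT IS STILL NEEDED**, with the far mass off the ball. -/
structure InG98 (μ : Measure ℝ) (pot : ℕ → ℝ → XS Γ G mt → Env → ℝ≥0∞)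
    (TT : ℝ → ℕ → ℤ × ℤ → Set Env) (L : ℕ → ℤ × ℤ → Set Env) (d sl smax : ℕ → ℝ) (th be : ℕ → ℕ → ℝ) (b : ℕ → ℝ)
    (st : ℕ → ℕ → ℕ) (κ3 θ : ℝ≥0∞) (τ0 q r q0 m1 m3 n1 C' : ℕ) (c c1 C1 Ast δ3 : ℝ≥0∞) (aS bS : ℝ) (βS dd : ℕ → ℝ) : Prop where
  ok : Γ.Ok
  v0 : 0 ≤ G.v
  v1 : G.v ≤ 1
  MT : G.M ≤ mt
  hm2 : la G + G.kw + G.kb + 2 ≤ 2 ^ (G.m2 - 1)
  -- the event `St`
  bS_le : bS + 5 / 2 ≤ 2 * G.kn
  aS_ge : ∀ u, τ0 < u → G.w u / 2 + 1 ≤ aS * G.w u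
  βS_ge : ∀ u, τ0 < u → Real.exp (-βS u) ≤ 1 / 2
  m3_ge : 3 ≤ m3
  sty : ∀ u, τ0 < u → u < G.M → ∀ ρ : XS Γ G mt, TA TT q d sl ∅ u (G.loc u ρ.1) ⊆ Sy78.St Γ G aS bS (βS u) u (G.loc u ρ.1)
  -- potential
  mpot : ∀ τ σ x, Measurable (pot τ σ x)
  pot_le : ∀ τ σ x ω, pot τ σ x ω ≤ 1
  pot_mono : ∀ τ τ' σ σ' x ω, τ ≤ τ' → σ ≤ σ' → pot τ σ x ω ≤ pot τ' σ' x ω
  -- numbers
  An_le : G.An ≤ C'
  qr_le : q + r ≤ m1
  sl_mono : Monotone sl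
  d_nonneg : ∀ v, 0 ≤ d v
  smax_ge : ∀ u, sl (u - 1) + 2 * ∑ v ∈ (range (u + 1)).filter (fun v => v + q ≤ u), d v ≤ smax u
  b_nonneg : ∀ v, 0 ≤ b v
  one_le : 1 ≤ θ
  θ_top : θ ≠ ⊤
  q_ne : q ≠ 0
  c_pow : (1 + c1) ^ q = 1 + c
  c_eq : 1 + c1 = θ ^ 2
  st_pow : ∀ t i, (p98 Γ G mt th sl be b st κ3 θ).rg τ0 t i → θ ^ (2 * (st t i - t)) ≤ Ast * ((i - t : ℕ) + 1) ^ n1
  st_ge : ∀ t i, (p98 Γ G mt th sl be b st κ3 θ).rg τ0 t i → t ≤ st t i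
  st_lt : ∀ t i, (p98 Γ G mt th sl be b st κ3 θ).rg τ0 t i → st t i < i
  slack : ∀ t i j, (p98 Γ G mt th sl be b st κ3 θ).rg τ0 t i → i ≤ j → j ≤ G.M →
    sl (t - 1) + ∑ v ∈ Ico (st t i) i, b v ≤ sl (j + G.m2)
  num : θ ^ G.M * ∑ t ∈ Ioc τ0 G.M, ∑ i ∈ Icc (t + G.m0) G.M, (Fintype.card (XS Γ G mt) * ex (-be t i) +
    Fintype.card (XS Γ G mt) * ex (-be t i) * ex (th t i + sl (t - 1)) + κ3 + δ3) ≤ 1
  num4 : ∀ t i, (p98 Γ G mt th sl be b st κ3 θ).rg τ0 t i →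
    (1 + Fintype.card (XS Γ G mt) * 2) * ex (-(th t (i + 1) - th t i)) ≤ δ3
  -- events
  mTT : ∀ σ u κ, MeasurableSet (TT σ u κ)
  mL : ∀ u κ, MeasurableSet (L u κ)
  TT_mono : ∀ σ σ' u κ, σ ≤ σ' → TT σ u κ ⊆ TT σ' u κ
  dis : ∀ u κ, Disjoint (Tx TT smax u κ) (L u κ)
  stp : ∀ u v, τ0 < u → u + q ≤ v → v < G.M → ∀ (κ : KS Γ G mt u), ∀ ρ ∈ G.nb (FS Γ G mt) u κ, ∀ σ, sl (v - 1) ≤ σ →
    σ + 2 * d u ≤ smax v → ∀ ω ∈ Tx TT smax u κ.1, ∀ η, G.R u κ.1 η ω ∈ L u κ.1 → ω ∈ TT σ v (G.loc v ρ.1) →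
      G.R u κ.1 η ω ∈ TT (σ + 2 * d u) v (G.loc v ρ.1)
  -- potential
  pot_late : ∀ t i, (p98 Γ G mt th sl be b st κ3 θ).rg τ0 t i → ∀ x ω, pot (t - 1) (sl (t - 1)) x ω ≤ θ ^ q0 *
    ((∏ u ∈ Sq q r (st t i) i, fac (TA TT q d sl ∅ u (G.loc u x.1)) c1 ω) * pot (i + G.m2) (sl (t - 1)) x ω)
  pot_none : ∀ t i j, (p98 Γ G mt th sl be b st κ3 θ).rg τ0 t i → i ≤ j → j ≤ G.M → ∀ (x ρ : XS Γ G mt),
    ∀ ω ∈ rl98 TT q d sl G m3 i j x.1 ρ.1, (∀ u ∈ Ico (st t i) i, ω ∉ TA TT q d sl ∅ u (G.loc u ρ.1)) →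
      pot (t - 1) (sl (t - 1)) x ω ≤ θ ^ q0 * ((1 + c1)⁻¹ ^ ((i - st t i) + (j - i)) * pot (j + G.m2) (sl (t - 1)) x ω)
  pot_early : ∀ t i j, (p98 Γ G mt th sl be b st κ3 θ).rg τ0 t i → i ≤ j → j ≤ G.M → ∀ s ∈ Ico (st t i) i,
    ∀ (x ρ : XS Γ G mt), ∀ ρ' ∈ G.nb (FS Γ G mt) s (G.cel (FS Γ G mt) s ρ), ∀ ω ∈ rl98 TT q d sl G m3 i j x.1 ρ.1,
    ω ∈ TA TT q d sl ∅ s (G.loc s ρ.1) → (∀ u ∈ Ico (st t i) s, ω ∉ TA TT q d sl ∅ u (G.loc u ρ.1)) →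
      pot (t - 1) (sl (t - 1)) x ω ≤ θ ^ q0 * (1 + c1)⁻¹ ^ ((s - st t i) + (j - i)) *
        ((∏ u ∈ Sq q r s i, fac (TA TT q d sl ∅ u (G.loc u ρ'.1)) c1 ω) * pot (j + G.m2) (sl (t - 1)) ρ' ω)
  -- averaged comparisons
  cmpA : ∀ t i, (p98 Γ G mt th sl be b st κ3 θ).rg τ0 t i → ∀ u ∈ Ico (st t i) i, ∀ y : XS Γ G mt,
    ∀ ω ∈ Tx TT smax u (G.loc u y.1),
      c * ∫⁻ ξ, (Tx TT smax u (G.loc u y.1)).indicator (wS Γ G mt y) (G.R u (G.loc u y.1) ξ ω) ∂(law μ) ≤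
        ∫⁻ η, (L u (G.loc u y.1)).indicator (wS Γ G mt y) (G.R u (G.loc u y.1) η ω) ∂(law μ)
  M3A : ∀ t i, (p98 Γ G mt th sl be b st κ3 θ).rg τ0 t i → ∀ s ∈ Ico (st t i) i, ∀ κ : KS Γ G mt s,
    ∀ ω ∈ TA TT q d sl ∅ s κ.1, ω ∈ Hs (p98 Γ G mt th sl be b st κ3 θ) (wS Γ G mt) (G.cel (FS Γ G mt)) t i s κ →
      ∫⁻ ξ, (TA TT q d sl ∅ s κ.1).indicator (rat (pX Γ G th sl be b st κ3 θ) (SD53.w Γ) (G.cel (Γ.rows 0 Γ.N))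
        (G.low (Γ.rows 0 Γ.N)) t i s (upK κ)) (G.R s κ.1 ξ ω) ∂(law μ) ≤
      C1 * ∫⁻ η, (L s κ.1).indicator (fun ω => ∑ ρ ∈ G.nb (Γ.rows 0 Γ.N) s (upK κ), SD53.w Γ ρ ω) (G.R s κ.1 η ω) ∂(law μ)
  κ3_ne : κ3 ≠ 0
  -- exclusion
  exclF : ∀ t i, (p98 Γ G mt th sl be b st κ3 θ).rg τ0 t i → ∀ x : XS Γ G mt, ∀ u ∈ Sq q r (st t i) i,
    ∀ ω ∈ Tx TT smax u (G.loc u x.1), ∀ η, G.R u (G.loc u x.1) η ω ∈ L u (G.loc u x.1) →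
    ∀ ω₁ ∈ Hf (pX Γ G th sl be b st κ3 θ) (SD53.w Γ) (SD53.fa Γ G) t i (up x),
      Lt87.Reach (fun v => G.R v (G.loc v x.1)) (fun v => Tx TT smax v (G.loc v x.1) ∪ L v (G.loc v x.1))
        ((Sq q r (st t i) i).filter fun v => v % q = u % q) u ω ω₁ →
    ∀ ω₂ ∈ Hf (pX Γ G th sl be b st κ3 θ) (SD53.w Γ) (SD53.fa Γ G) t i (up x),
      Lt87.Reach (fun v => G.R v (G.loc v x.1)) (fun v => Tx TT smax v (G.loc v x.1) ∪ L v (G.loc v x.1))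
        ((Sq q r (st t i) i).filter fun v => v % q = u % q) u (G.R u (G.loc u x.1) η ω) ω₂ → False
  exclE : ∀ t i, (p98 Γ G mt th sl be b st κ3 θ).rg τ0 t i → ∀ s ∈ Ico (st t i) i, ∀ κ : KS Γ G mt s,
    ∀ ρ ∈ G.nb (FS Γ G mt) s κ, ∀ u ∈ Sq q r s i,
    ∀ ω ∈ Tx TT smax u (G.loc u ρ.1), ∀ η, G.R u (G.loc u ρ.1) η ω ∈ L u (G.loc u ρ.1) →
    ∀ ω₁ ∈ Hs (pX Γ G th sl be b st κ3 θ) (SD53.w Γ) (G.cel (Γ.rows 0 Γ.N)) t i s (upK κ) ∩ TA TT q d sl ∅ s κ.1,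
      Lt87.Reach (Function.update (fun v => G.R v (G.loc v ρ.1)) s (G.R s κ.1))
        (Function.update (fun v => Tx TT smax v (G.loc v ρ.1) ∪ L v (G.loc v ρ.1)) s (Tx TT smax s κ.1 ∪ L s κ.1))
          (insert s ((Sq q r s i).filter fun v => v % q = u % q)) u ω ω₁ →
    ∀ ω₂ ∈ Hs (pX Γ G th sl be b st κ3 θ) (SD53.w Γ) (G.cel (Γ.rows 0 Γ.N)) t i s (upK κ) ∩ TA TT q d sl ∅ s κ.1,
      Lt87.Reach (Function.update (fun v => G.R v (G.loc v ρ.1)) s (G.R s κ.1))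
        (Function.update (fun v => Tx TT smax v (G.loc v ρ.1) ∪ L v (G.loc v ρ.1)) s (Tx TT smax s κ.1 ∪ L s κ.1))
          (insert s ((Sq q r s i).filter fun v => v % q = u % q)) u (G.R u (G.loc u ρ.1) η ω) ω₂ → False
  -- oscillation
  d_b : ∀ u, τ0 < u → 4 * dd u ≤ b u
  pr : ∀ u, τ0 < u → u < G.M → ∀ κ : KS Γ G mt u, ∀ ω ∈ Tx TT smax u κ.1, ∀ η, G.R u κ.1 η ω ∈ L u κ.1 →
    O22.Pr Γ (G.ra u κ.1 - 1) (G.re u κ.1) (O22.Bw G u κ.1) (dd u) ω (G.R u κ.1 η ω)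
  oscp : ∀ u j, τ0 < u → u < j → j ≤ G.M → ∀ κ : KS Γ G mt u, ∀ y ∈ G.nb (FS Γ G mt) u κ, ∀ ω ∈ Tx TT smax u κ.1, ∀ η,
    G.R u κ.1 η ω ∈ L u κ.1 → ∀ σ, σ + b u ≤ sl (j + G.m2) →
      pot (j + G.m2) σ y ω ≤ pot (j + G.m2) (σ + b u) y (G.R u κ.1 η ω)

variable {Γ G mt}

variable {μ : Measure ℝ} {pot : ℕ → ℝ → XS Γ G mt → Env → ℝ≥0∞} {TT : ℝ → ℕ → ℤ × ℤ → Set Env} {L : ℕ → ℤ × ℤ → Set Env} {d sl smax : ℕ → ℝ}
  {th be : ℕ → ℕ → ℝ} {b : ℕ → ℝ} {st : ℕ → ℕ → ℕ} {κ3 θ : ℝ≥0∞} {τ0 q r q0 m1 m3 n1 C' : ℕ} {c c1 C1 Ast δ3 : ℝ≥0∞}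
  {aS bS : ℝ} {βS dd : ℕ → ℝ}

/-- **THE FRAME FROM THE REDUCED ONE.** -/
theorem InG98.toIn (h : InG98 Γ G mt μ pot TT L d sl smax th be b st κ3 θ τ0 q r q0 m1 m3 n1 C' c c1 C1 Ast δ3 aS bS βS dd) :
    In98 Γ G mt μ (fa98 Γ G mt) pot TT L d sl smax th be b st κ3 θ τ0 q r q0 m1 m3 n1 C' c c1 C1 2 Ast δ3 where
  ok := h.ok
  mfa := meas_fa98
  mpot := h.mpot
  fa_mono := fun t k τ τ' x ω hτ => fa98_mono h.ok t k τ τ' x ω hτ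
  mvfa := fun t i j s t' k x ρ ρ' _ h2 h3 h4 h5 h6 _ _ _ ω => fa98_move h.ok h2 h3 h4 h5 h6 ω
  far := fun t i j u x ρ h1 h2 h3 h4 h5 ω hω => far98 h.ok h.v0 h.v1 (h.βS_ge u (by omega)) h.bS_le h.MT (by omega) (by omega) h3
    (by have := h.m3_ge; omega) h5 (h.aS_ge u (by omega)) (h.sty u (by omega) (by have := h3.2.1; omega) ρ hω)
  pot_le := h.pot_le
  pot_mono := h.pot_mono
  An_le := h.An_le
  qr_le := h.qr_le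
  sl_mono := h.sl_mono
  d_nonneg := h.d_nonneg
  smax_ge := h.smax_ge
  b_nonneg := h.b_nonneg
  one_le := h.one_le
  θ_top := h.θ_top
  q_ne := h.q_ne
  c_pow := h.c_pow
  c_eq := h.c_eq
  st_pow := h.st_pow
  st_ge := h.st_ge
  st_lt := h.st_lt
  slack := h.slack
  num := h.num
  num4 := h.num4
  mTT := h.mTT
  mL := h.mL
  TT_mono := h.TT_mono
  dis := h.dis
  stp := h.stp
  pot_late := h.pot_late
  pot_none := h.pot_none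
  pot_early := h.pot_early
  cmpA := h.cmpA
  M3A := fun t i hti s hs κ ω hω hH => M3_up h.ok h.κ3_ne (mem_Ico.1 hs).2 hH (h.M3A t i hti s hs κ ω hω hH)
  exclF := fun t i hti x u hu ω hω η hη ω₁ h1 r1 ω₂ h2 r2 => h.exclF t i hti x u hu ω hω η hη
    ω₁ (Hf_up (fun ω => FA25.fa_le53 h.ok _ _ _ _ ω) h1) r1 ω₂ (Hf_up (fun ω => FA25.fa_le53 h.ok _ _ _ _ ω) h2) r2
  exclE := fun t i hti s hs κ ρ hρ u hu ω hω η hη ω₁ h1 r1 ω₂ h2 r2 => h.exclE t i hti s hs κ ρ hρ u hu ω hω η hη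
    ω₁ ⟨Hs_up h1.1, h1.2⟩ r1 ω₂ ⟨Hs_up h2.1, h2.2⟩ r2
  oscT := by
    rintro t i j hti hij hjM u hu y ω hω η hη
    have h4 := h.st_ge t i hti
    have h5 := hti.1
    have hu' := mem_Ico.1 hu
    exact osc98 h.ok h.hm2 (u := u) (j := j) (by omega) (κ := G.cel (FS Γ G mt) u y) (nb_self u y)
      (h.pr u (by omega) (by omega) (G.cel (FS Γ G mt) u y) ω hω η hη) (h.d_b u (by omega))
      (h.oscp u j (by omega) (by omega) hjM (G.cel (FS Γ G mt) u y) y (nb_self u y) ω hω η hη)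
  oscS := by
    rintro t i j hti hij hjM s hs κ ρ hρ ω hω η hη
    have h4 := h.st_ge t i hti
    have h5 := hti.1
    have hs' := mem_Ico.1 hs
    have hω' : ω ∈ Tx TT smax s κ.1 :=
      h.TT_mono _ _ _ _ ((add_le_add le_rfl (dA_le h.d_nonneg ∅ s)).trans (h.smax_ge s)) hω
    exact osc98 h.ok h.hm2 (u := s) (j := j) (by omega) (κ := κ) hρ
      (h.pr s (by omega) (by omega) κ ω hω' η hη) (h.d_b s (by omega))
      (h.oscp s j (by omega) (by omega) hjM κ ρ hρ ω hω' η hη)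

end Frame

/-! ### All contacts -/

section All

variable {th : ℕ → ℕ → ℝ} {sl : ℕ → ℝ} {be : ℕ → ℕ → ℝ} {b : ℕ → ℝ} {st : ℕ → ℕ → ℕ} {κ3 θ : ℝ≥0∞}

/-- The covered scales are the same. -/
theorem Cov_up {t τ : ℕ} (ht : τ < t) {σ : ℝ} {x : XS Γ G mt} {ω : Env} :
    Cov (p98 Γ G mt th sl be b st κ3 θ) (wS Γ G mt) (fa98 Γ G mt) t τ σ x ω ↔
      Cov (pX Γ G th sl be b st κ3 θ) (SD53.w Γ) (FA25.fa Γ G) t τ σ (up x) ω := by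
  unfold Cov
  refine exists_congr fun k => and_congr_right fun hk => ?_
  have hk' : t + G.m0 ≤ k := (mem_Icc.1 hk).1
  have hD : 0 ≤ G.dk k τ := by
    have := G.T_mono' (show τ ≤ k by omega)
    have := G.T_pos' k
    unfold Gm.dk
    linarith
  have e : H49.em (p98 Γ G mt th sl be b st κ3 θ).row (wS Γ G mt) ((p98 Γ G mt th sl be b st κ3 θ).dk k τ) x ω =
      H49.em (pX Γ G th sl be b st κ3 θ).row (SD53.w Γ) ((pX Γ G th sl be b st κ3 θ).dk k τ) (up x) ω := em_up hD x ω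
  unfold H49.Cv
  rw [e]
  exact Iff.rfl

theorem cnt_up (τ : ℕ) (σ : ℝ) (x : XS Γ G mt) (ω : Env) :
    cnt (p98 Γ G mt th sl be b st κ3 θ) (wS Γ G mt) (fa98 Γ G mt) τ τ σ x ω =
      cnt (pX Γ G th sl be b st κ3 θ) (SD53.w Γ) (FA25.fa Γ G) τ τ σ (up x) ω := by
  classical
  unfold cnt
  congr 1
  refine filter_congr fun t ht => Cov_up (mem_Ioc.1 ht).1

open Classical in
/-- The potential of all the contacts: `0` off `FS`. -/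
def potX98 (pot : ℕ → ℝ → XS Γ G mt → Env → ℝ≥0∞) (τ : ℕ) (σ : ℝ) (x : XX Γ) (ω : Env) : ℝ≥0∞ :=
  if h : x.1 ∈ FS Γ G mt then pot τ σ ⟨x.1, h⟩ ω else 0

theorem potX98_up (pot : ℕ → ℝ → XS Γ G mt → Env → ℝ≥0∞) (τ : ℕ) (σ : ℝ) (x : XS Γ G mt) (ω : Env) :
    potX98 pot τ σ (up x) ω = pot τ σ x ω := by
  unfold potX98
  rw [dif_pos (show (up x).1 ∈ FS Γ G mt from x.2)]
  rfl

/-- **THE SEPARATION OVER ALL THE CONTACTS** (`hsep` of `nuM77`). -/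
theorem sepXX98 {P : Measure Env} {pot : ℕ → ℝ → XS Γ G mt → Env → ℝ≥0∞} {τ A : ℕ} {σ : ℝ} {θb : ℝ≥0∞} (hθ : θb ≠ 0) :
    ∑ x : XX Γ, ∫⁻ ω in {ω | A ≤ cnt (pX Γ G th sl be b st κ3 θ) (SD53.w Γ) (FA25.fa Γ G) τ τ σ x ω ∧
        θb ≤ potX98 pot τ σ x ω}, SD53.w Γ x ω ∂P =
      ∑ x : XS Γ G mt, ∫⁻ ω in {ω | A ≤ cnt (p98 Γ G mt th sl be b st κ3 θ) (wS Γ G mt) (fa98 Γ G mt) τ τ σ x ω ∧
        θb ≤ pot τ σ x ω}, wS Γ G mt x ω ∂P := by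
  classical
  have h1 : ∑ x : XX Γ, ∫⁻ ω in {ω | A ≤ cnt (pX Γ G th sl be b st κ3 θ) (SD53.w Γ) (FA25.fa Γ G) τ τ σ x ω ∧
        θb ≤ potX98 pot τ σ x ω}, SD53.w Γ x ω ∂P =
      ∑ x ∈ (univ : Finset (XX Γ)).filter (fun x => x.1 ∈ FS Γ G mt),
        ∫⁻ ω in {ω | A ≤ cnt (pX Γ G th sl be b st κ3 θ) (SD53.w Γ) (FA25.fa Γ G) τ τ σ x ω ∧
          θb ≤ potX98 pot τ σ x ω}, SD53.w Γ x ω ∂P := by
    refine (sum_subset (filter_subset _ _) fun x _ hx => ?_).symm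
    have hx' : x.1 ∉ FS Γ G mt := fun h => hx (mem_filter.2 ⟨mem_univ _, h⟩)
    have e : {ω | A ≤ cnt (pX Γ G th sl be b st κ3 θ) (SD53.w Γ) (FA25.fa Γ G) τ τ σ x ω ∧
        θb ≤ potX98 pot τ σ x ω} = ∅ := by
      ext ω
      simp only [Set.mem_setOf_eq, Set.mem_empty_iff_false, iff_false, not_and]
      intro _ h
      unfold potX98 at h
      rw [dif_neg hx'] at h
      exact hθ (le_antisymm h zero_le)
    rw [e]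
    simp
  rw [h1]
  refine (sum_bij (fun (x : XS Γ G mt) _ => up x) (fun x _ => mem_filter.2 ⟨mem_univ _, x.2⟩)
    (fun x _ y _ hxy => Subtype.ext (congrArg (fun z : XX Γ => z.1) hxy))
    (fun x hx => ⟨⟨x.1, (mem_filter.1 hx).2⟩, mem_univ _, rfl⟩) fun x _ => ?_).symm
  have e : {ω | A ≤ cnt (p98 Γ G mt th sl be b st κ3 θ) (wS Γ G mt) (fa98 Γ G mt) τ τ σ x ω ∧ θb ≤ pot τ σ x ω} =
      {ω | A ≤ cnt (pX Γ G th sl be b st κ3 θ) (SD53.w Γ) (FA25.fa Γ G) τ τ σ (up x) ω ∧ θb ≤ potX98 pot τ σ (up x) ω} := by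
    ext ω
    simp only [Set.mem_setOf_eq]
    rw [cnt_up, potX98_up]
  rw [e]
  rfl

end All

end

end Pool.Agent.W_7d29a1_C1.SF98
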