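import Pool.Agent.W_7d29a1_C1.SepJ49

/-!
MP_7d29a1_pr, attractor route [C1], SEP: `exists_num` and `exists_GN49` of helper49 with the exponents `e` (base height), `p` (total
height) AFTER all constants (order of the shell, helper25 89181 (3)). (helper41)
-/

set_option autoImplicit false

namespace Pool.Agent.W_7d29a1_C1.N49

open Finset MeasureTheory
open Pool.Agent.W_7d29a1_F Pool.Agent.W_7d29a1_h4g Pool.Agent.W_7d29a1_H Pool.Agent.W_7d29a1_HS
open Pool.Agent.W_7d29a1_C1.H60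
open Pool.Agent.W_7d29a1_C1.H40 (Tk)
open Pool.Agent.W_7d29a1_C1.G37 (Gm Wok gmW wok)
open Pool.Agent.W_7d29a1_C1.H49 (ex ex_mono ex_add ex_ne_top ex_zero)
open Pool.Agent.W_7d29a1_C1.SF98 (XS FS p98)
open Pool.Agent.W_7d29a1_C1.FA25 (la)
open scoped ENNReal

noncomputable section

/-- THE NUMBERS, `m00` before the exponents (`exists_num` of helper49, reordered). -/
theorem exists_numK41 {A : ℕ} (hA : 1 ≤ A) {η Cb ε0 C : ℝ} (hη : 0 < η) (hCb : 0 ≤ Cb) (hε : 0 < ε0) (hC : 1 ≤ C) :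
    ∃ m00 : ℕ, ∀ {CM e1 : ℝ}, 0 ≤ CM → 0 < e1 → ∀ ax C4 : ℕ, ∃ n0 : ℕ, ∀ n : ℕ, n0 ≤ n → ∀ (m0 m2 τ0 M cX : ℕ) (E : ℕ → ℝ)
      (κ : ℝ) (θ : ℝ≥0∞), m00 ≤ m0 → Gr E κ C → (M : ℝ) ≤ CM * Real.log n → cX ≤ n ^ ax → (n : ℝ) ^ e1 ≤ E τ0 →
      θ ≤ 2 → NumOK E η A Cb ε0 ((CM + ax + 5) * Real.log n) m0 m2 τ0 M cX C4 θ := by
  obtain ⟨m1, hm1⟩ := exists_log (A + 1)
  obtain ⟨m3, hm3⟩ := exists_nat_ge ((η + 2 * C * Cb * C + 1) * C / ε0)
  refine ⟨max m1 m3, fun {CM e1} hCM he ax C4 => ?_⟩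
  set B : ℝ := CM + ax + 5 with hB
  have hB0 : 0 < B := by positivity
  obtain ⟨n1, hn1⟩ := exists_log_le (C * B) he
  obtain ⟨n2, hn2⟩ := exists_log_le (C / ε0 * B) he
  obtain ⟨n3, hn3⟩ := exists_log_le (C / η * (ax + C4 + B)) he
  obtain ⟨n4, hn4⟩ := exists_log_le CM (show (0 : ℝ) < 1 by norm_num)
  refine ⟨max (max n1 n2) (max (max n3 n4) 2), fun n hn m0 m2 τ0 M cX E κ θ hm0 g hM hcX hE hθ => ?_⟩
  have a1 := hn1 n (by omega)
  have a2 := hn2 n (by omega)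
  have a3 := hn3 n (by omega)
  have a4 := hn4 n (by omega)
  have an : 2 ≤ n := by omega
  rw [Real.rpow_one] at a4
  have nr : (2 : ℝ) ≤ n := by exact_mod_cast an
  have hlog : 0 ≤ Real.log n := Real.log_nonneg (by linarith)
  set L := B * Real.log n with hL
  have hL0 : 0 ≤ L := mul_nonneg hB0.le hlog
  have hE' : ∀ u, τ0 ≤ u → (n : ℝ) ^ e1 ≤ C * E u := fun u hu => hE.trans (g.le hu)
  have hC0 : 0 < C := by linarith
  have hLE : ∀ u, τ0 ≤ u → L ≤ E u := fun u hu => by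
    have h1 : C * L ≤ C * E u := by
      calc C * L = C * B * Real.log n := by rw [hL]; ring
        _ ≤ _ := a1
        _ ≤ _ := hE' u hu
    exact le_of_mul_le_mul_left h1 hC0
  have hsl0 := g.sl_nonneg hCb m2
  have hth0 : ∀ t k, 0 ≤ thN η A E t k := fun t k =>
    mul_nonneg (mul_nonneg hη.le (by positivity)) (g.pos t).le
  refine ⟨fun t i => by exact_mod_cast st_pow (A + 1) t i hθ, fun t i => st_ge _ _ _, fun t i h => ?_, g.sl_mono hCb m2,
    g.b_nonneg hCb, fun t i j h1 h2 h3 => g.slack hCb m2 (st_ge _ _ _) (by omega) (by omega),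
    fun t i h1 h2 u hu => ?_, fun u hu => ?_, hL0, ?_, fun t i h1 h2 => ?_⟩
  · have h1 := hm1 (i - t) (by omega)
    unfold stN
    omega
  · refine g.be_le hη.le hCb A m2 (hLE t h1.le) ?_ hu
    rw [div_le_iff₀ hε] at hm3
    have h3 : (m3 : ℝ) ≤ ((i - t : ℕ) : ℝ) := by exact_mod_cast (by omega : m3 ≤ i - t)
    nlinarith
  · have h1 : C * L ≤ C * (ε0 * E u) := by
      have h2 : C * L = ε0 * (C / ε0 * B * Real.log n) := by
        rw [hL]; field_simp
      rw [h2]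
      calc ε0 * (C / ε0 * B * Real.log n) ≤ ε0 * (C * E u) := mul_le_mul_of_nonneg_left (a2.trans (hE' u hu)) hε.le
        _ = _ := by ring
    exact le_of_mul_le_mul_left h1 hC0
  · -- the sum
    have hterm : ∀ t i, (cX * ex (-beN η A Cb E m2 L t i) +
        cX * ex (-beN η A Cb E m2 L t i) * ex (thN η A E t i + slN Cb E m2 (t - 1)) + ex (-L) + ex (-L) : ℝ≥0∞) ≤
        (2 * cX + 2 : ℕ) * ex (-L) := by
      intro t i
      have h1 : ex (-beN η A Cb E m2 L t i) ≤ ex (-L) := ex_mono (by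
        unfold beN; linarith [hth0 t i, hsl0 (t - 1)])
      have h2 : ex (-beN η A Cb E m2 L t i) * ex (thN η A E t i + slN Cb E m2 (t - 1)) = ex (-L) := by
        rw [← ex_add]; congr 1; unfold beN; ring
      calc _ ≤ cX * ex (-L) + cX * ex (-L) + ex (-L) + ex (-L) := by
            rw [mul_assoc, h2]
            gcongr
        _ = _ := by push_cast; ring
    have hsum : ∑ t ∈ Ioc τ0 M, ∑ i ∈ Icc (t + m0) M, (cX * ex (-beN η A Cb E m2 L t i) +
        cX * ex (-beN η A Cb E m2 L t i) * ex (thN η A E t i + slN Cb E m2 (t - 1)) + ex (-L) + ex (-L) : ℝ≥0∞) ≤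
        (M * (M + 1) : ℕ) * ((2 * cX + 2 : ℕ) * ex (-L)) := by
      calc _ ≤ ∑ _t ∈ Ioc τ0 M, ((M + 1 : ℕ) : ℝ≥0∞) * ((2 * cX + 2 : ℕ) * ex (-L)) := by
            refine sum_le_sum fun t _ => ?_
            calc _ ≤ ∑ _i ∈ Icc (t + m0) M, ((2 * cX + 2 : ℕ) : ℝ≥0∞) * ex (-L) := sum_le_sum fun i _ => hterm t i
              _ = ((Icc (t + m0) M).card : ℝ≥0∞) * ((2 * cX + 2 : ℕ) * ex (-L)) := by rw [sum_const, nsmul_eq_mul]
              _ ≤ _ := by
                refine mul_le_mul' ?_ le_rfl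
                have : (Icc (t + m0) M).card ≤ M + 1 := by rw [Nat.card_Icc]; omega
                exact_mod_cast this
        _ = ((Ioc τ0 M).card : ℝ≥0∞) * (((M + 1 : ℕ) : ℝ≥0∞) * ((2 * cX + 2 : ℕ) * ex (-L))) := by
            rw [sum_const, nsmul_eq_mul]
        _ ≤ (M : ℝ≥0∞) * (((M + 1 : ℕ) : ℝ≥0∞) * ((2 * cX + 2 : ℕ) * ex (-L))) := by
            refine mul_le_mul' ?_ le_rfl
            have : (Ioc τ0 M).card ≤ M := by rw [Nat.card_Ioc]; omega
            exact_mod_cast this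
        _ = _ := by push_cast; ring
    have hreal : (2 : ℝ) ^ M * ((M * (M + 1) : ℕ) * (2 * cX + 2 : ℕ)) * Real.exp (-L) ≤ 1 := by
      have b1 : (2 : ℝ) ^ M ≤ Real.exp (CM * Real.log n) := by
        have c1 : (2 : ℝ) = Real.exp (Real.log 2) := (Real.exp_log (by norm_num)).symm
        rw [c1, ← Real.exp_nat_mul]
        refine Real.exp_le_exp.2 ?_
        have c2 : Real.log 2 ≤ 1 := by
          have := Real.log_two_lt_d9
          linarith
        have c3 : (0 : ℝ) ≤ M := Nat.cast_nonneg _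
        nlinarith [Real.log_pos (show (1 : ℝ) < 2 by norm_num)]
      have en : Real.exp (Real.log n) = n := Real.exp_log (by linarith)
      have hMn : (M : ℝ) ≤ n := hM.trans a4
      have b2 : ((M * (M + 1) : ℕ) : ℝ) ≤ 2 * (n : ℝ) ^ 2 := by
        push_cast
        have : (0 : ℝ) ≤ M := Nat.cast_nonneg _
        nlinarith
      have b3 : ((2 * cX + 2 : ℕ) : ℝ) ≤ 4 * (n : ℝ) ^ ax := by
        have c1 : 1 ≤ n ^ ax := Nat.one_le_pow _ _ (by omega)
        have c2 : 2 * cX + 2 ≤ 4 * n ^ ax := by omega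
        exact_mod_cast c2
      have b4 : (2 : ℝ) * (n : ℝ) ^ 2 * (4 * (n : ℝ) ^ ax) ≤ Real.exp ((ax + 4 + 1) * Real.log n) := by
        have c1 : Real.exp ((ax + 4 + 1) * Real.log n) = (n : ℝ) ^ (ax + 4 + 1) := by
          rw [← Real.rpow_natCast, Real.rpow_def_of_pos (by linarith)]
          push_cast
          ring_nf
        rw [c1, pow_succ, pow_add]
        have c2 : (8 : ℝ) ≤ n ^ 3 := by
          calc (8 : ℝ) = 2 ^ 3 := by norm_num
            _ ≤ _ := pow_le_pow_left₀ (by norm_num) nr 3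
        have c3 : (0 : ℝ) ≤ n ^ ax := by positivity
        have c4 : (0 : ℝ) ≤ (n : ℝ) ^ 2 * n ^ ax := by positivity
        calc (2 : ℝ) * (n : ℝ) ^ 2 * (4 * (n : ℝ) ^ ax) = 8 * ((n : ℝ) ^ 2 * n ^ ax) := by ring
          _ ≤ n ^ 3 * ((n : ℝ) ^ 2 * n ^ ax) := mul_le_mul_of_nonneg_right c2 c4
          _ = _ := by ring
      calc (2 : ℝ) ^ M * ((M * (M + 1) : ℕ) * (2 * cX + 2 : ℕ)) * Real.exp (-L)
          ≤ Real.exp (CM * Real.log n) * Real.exp ((ax + 4 + 1) * Real.log n) * Real.exp (-L) := by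
            refine mul_le_mul_of_nonneg_right ?_ (Real.exp_pos _).le
            refine mul_le_mul b1 ?_ (by positivity) (Real.exp_pos _).le
            exact (mul_le_mul b2 b3 (by positivity) (by positivity)).trans b4
        _ = Real.exp 0 := by
            rw [← Real.exp_add, ← Real.exp_add]
            congr 1
            rw [hL, hB]; ring
        _ = 1 := Real.exp_zero
    have hex : ex (-L) = ENNReal.ofReal (Real.exp (-L)) := rfl
    calc θ ^ M * _ ≤ 2 ^ M * ((M * (M + 1) : ℕ) * ((2 * cX + 2 : ℕ) * ex (-L))) :=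
          mul_le_mul' (pow_le_pow_left₀ (by positivity) hθ M) hsum
      _ = ENNReal.ofReal ((2 : ℝ) ^ M * ((M * (M + 1) : ℕ) * (2 * cX + 2 : ℕ)) * Real.exp (-L)) := by
          rw [hex, ENNReal.ofReal_mul (by positivity), ENNReal.ofReal_mul (by positivity),
            ENNReal.ofReal_mul (by positivity), ENNReal.ofReal_pow (by norm_num), ENNReal.ofReal_natCast,
            ENNReal.ofReal_natCast, ENNReal.ofReal_ofNat]
          ring
      _ ≤ ENNReal.ofReal 1 := ENNReal.ofReal_le_ofReal hreal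
      _ = 1 := ENNReal.ofReal_one
  · have b1 := g.th_succ hη.le hA (show t ≤ i by omega)
    have b2 : (ax + C4 + B) * Real.log n ≤ η * E t := by
      have c1 := a3.trans (hE' t h1.le)
      have c2 : C / η * (ax + C4 + B) * Real.log n = C / η * ((ax + C4 + B) * Real.log n) := by ring
      rw [c2] at c1
      have c3 : C * ((ax + C4 + B) * Real.log n) ≤ C * (η * E t) := by
        have c4 : C * ((ax + C4 + B) * Real.log n) = η * (C / η * ((ax + C4 + B) * Real.log n)) := by field_simp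
        rw [c4]
        calc _ ≤ η * (C * E t) := mul_le_mul_of_nonneg_left c1 hη.le
          _ = _ := by ring
      exact le_of_mul_le_mul_left c3 hC0
    have b3 : ((1 + cX * C4 : ℕ) : ℝ) ≤ Real.exp ((ax + C4) * Real.log n) := by
      have c1 : Real.exp ((ax + C4) * Real.log n) = (n : ℝ) ^ (ax + C4) := by
        rw [← Real.rpow_natCast, Real.rpow_def_of_pos (by linarith)]
        push_cast
        ring_nf
      rw [c1]
      have c2 : 1 + cX * C4 ≤ n ^ (ax + C4) := by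
        have d1 : 1 ≤ n ^ ax := Nat.one_le_pow _ _ (by omega)
        have d2 : C4 < 2 ^ C4 := Nat.lt_two_pow_self
        have d3 : 2 ^ C4 ≤ n ^ C4 := Nat.pow_le_pow_left an C4
        calc 1 + cX * C4 ≤ n ^ ax * 1 + n ^ ax * C4 := by
              refine Nat.add_le_add (by omega) (Nat.mul_le_mul_right _ hcX)
          _ = n ^ ax * (1 + C4) := by ring
          _ ≤ n ^ ax * n ^ C4 := Nat.mul_le_mul_left _ (by omega)
          _ = _ := (pow_add _ _ _).symm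
      exact_mod_cast c2
    have b4 : ((1 + cX * C4 : ℕ) : ℝ≥0∞) ≤ ex ((ax + C4) * Real.log n) := by
      have : ((1 + cX * C4 : ℕ) : ℝ≥0∞) = ENNReal.ofReal ((1 + cX * C4 : ℕ) : ℝ) := (ENNReal.ofReal_natCast _).symm
      rw [this]
      exact ENNReal.ofReal_le_ofReal b3
    calc (1 + cX * C4 : ℝ≥0∞) * ex (-(thN η A E t (i + 1) - thN η A E t i))
        = ((1 + cX * C4 : ℕ) : ℝ≥0∞) * ex (-(thN η A E t (i + 1) - thN η A E t i)) := by push_cast; ring
      _ ≤ ex ((ax + C4) * Real.log n) * ex (-((ax + C4 + B) * Real.log n)) :=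
          mul_le_mul' b4 (ex_mono (by linarith))
      _ = ex (-L) := by
          rw [← ex_add]; congr 1; rw [hL]; ring

/-- **EXISTENCE, in the order of the constants** (helper49), with the exponents `e` (height of the base) and `p` (total height) chosen
AFTER `q`, `m2`, `m0`. -/
theorem exists_GNK41 {μ : Measure ℝ} [IsProbabilityMeasure μ] {s c C : ℝ} {n₀ : ℕ} (h : In μ s c C n₀) {K : ℕ} (hK3 : 3 ≤ K)
    {κ Cg : ℝ} (hCg : 1 ≤ Cg)
    {kw kn kb aS βc Cb Cr Cd ε0 c' : ℝ} (hkw : 0 ≤ kw) (hkn : 0 ≤ kn) (hkb : 1 ≤ kb) (haS : 1 ≤ aS) (hβ : 0 < βc)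
    (hCr : 0 ≤ Cr) (hCd : 0 ≤ Cd) (hCbr : 4 * Cr ≤ Cb) (hCbd : 2 * Cd ≤ Cb) (hε : 0 < ε0) (hε1 : ε0 ≤ 1 / 16) (hc0 : 0 < c') (hc1 : c' ≤ 1) :
    ∃ q₁ : ℕ, ∀ q : ℕ, q₁ ≤ q → ∃ m2₁ : ℕ, ∀ m2 : ℕ, m2₁ ≤ m2 → 3 ≤ m2 ∧ ∀ η : ℝ, 0 < η → ∀ A : ℕ, 1 ≤ A → ∀ lam : ℕ,
    ∃ m0₁ : ℕ, ∀ m0 : ℕ, m0₁ ≤ m0 → ∀ {e p : ℝ}, 0 < e → 0 ≤ p → ∃ n₁ : ℕ, ∀ n : ℕ, n₁ ≤ n →
    ∀ (r q0 m1 m3 : ℕ), q + r ≤ m1 → 2 * m3 ≤ q0 → 3 ≤ m3 →
    ∀ {ca δ' κ' : ℝ} {Γ : Cx}, Adm μ s ca δ' κ' n Γ → ca ≤ 1 → ∀ (T0 M mt g1 τ0 : ℕ), (n : ℝ) ^ e ≤ T0 → (K : ℝ) ^ M ≤ (n : ℝ) ^ p →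
    ∀ (hW : Wok μ s T0 K), Gr (fun u => EE μ s (Tk T0 K u)) κ Cg → ∀ (h1 : 1 ≤ g1) (h2 : 3 ≤ m2),
      GN49 Γ (gmW hW M m0 g1 m2 kw kn kb (kn + 2 * kb) hkw hkn hkb le_rfl h1 h2) mt lam (fun u => EE μ s (Tk T0 K u)) κ Cg η Cb Cr Cd
        ε0 ((p + (13 : ℕ) + 5) * Real.log n) βc aS (thq c' q) c' A τ0 q r q0 m1 m3 (AnW K kn kb) (c1q c' q) := by
  obtain ⟨qa, hqa⟩ := exists_pow_ge (128 * Cg * Cg * Cd)
  obtain ⟨qb, hqb⟩ := exists_pow_ge kb
  have hCb : 0 ≤ Cb := by linarith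
  refine ⟨max 2 (max qa qb), fun q hq => ?_⟩
  have hq0 : q ≠ 0 := by omega
  obtain ⟨hθ1, hθ2, hcp, hce⟩ := thq_spec hc0 hc1 hq0
  obtain ⟨ma, hma⟩ := exists_pow_ge (64 * Cg * Cg * Cb)
  obtain ⟨mb, hmb⟩ := exists_pow_ge (2 * (kn + 2 * kb) + kw + kb + 2)
  refine ⟨max (max 3 q) (max ma (mb + 1)), fun m2 hm2 => ⟨by omega, fun η hη A hA lam => ?_⟩⟩
  obtain ⟨m00, hnum⟩ := exists_numK41 (A := A) hA (η := η) (Cb := Cb) (ε0 := ε0) (C := Cg) hη hCb hε hCg
  obtain ⟨mc, hmc⟩ := exists_log (A + 1 + lam)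
  refine ⟨max m00 mc, fun m0 hm0 e p he hp => ?_⟩
  obtain ⟨e1, he1, nE, hE⟩ := model_E h he
  obtain ⟨n0, hnum⟩ := hnum hp he1 13 2
  obtain ⟨nB, hnB⟩ := exists_log_le (Cg / βc) he1
  refine ⟨max (max n0 nE) (max nB 20), fun n hn r q0 m1 m3 hqr hq2 hm3 ca δ' κ' Γ hΓ hca T0 M mt g1
    τ0 hT0 hKM hW hGr hg1 h32 => ?_⟩
  have hn20 : 20 ≤ n := by omega
  have hn1 : (1 : ℝ) ≤ n := by exact_mod_cast (show 1 ≤ n by omega)
  have hEu : ∀ u, (n : ℝ) ^ e1 ≤ EE μ s (Tk T0 K u) := fun u => hE n (by omega) _ (hT0.trans (by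
    have : T0 ≤ Tk T0 K u := Nat.le_mul_of_pos_right _ (Nat.pow_pos (by omega))
    exact_mod_cast this))
  set G := gmW hW M m0 g1 m2 kw kn kb (kn + 2 * kb) hkw hkn hkb le_rfl hg1 h32 with hG
  have hNum := hnum n (by omega) m0 m2 τ0 M (Fintype.card (XS Γ G mt)) (fun u => EE μ s (Tk T0 K u)) κ (ENNReal.ofReal (thq c' q))
    (by omega) hGr (scales_le hK3 hKM (by omega)) (card_adm hΓ hca hn20) (hEu τ0) (by
      rw [show (2 : ℝ≥0∞) = ENNReal.ofReal 2 by simp]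
      exact ENNReal.ofReal_le_ofReal hθ2)
  have hsl := Pool.Agent.W_7d29a1_H.sl_mem h.em h.nd s
  refine
    { v0 := hsl.1.le
      v1 := hsl.2.le
      hm2 := ?_
      hkb := hqb q (by omega)
      q_ge := by omega
      q_le := by
        show q ≤ m2 + 1
        omega
      An_le := le_rfl
      qr_le := hqr
      num := ?_
      st_la := ?_
      hq0 := hq2
      κ3_ne := H49.ex_ne_zero _
      m3_ge := hm3
      R_b := fun u _ => by
        have h5 := mul_le_mul_of_nonneg_right hCbr (hGr.pos u).le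
        unfold bN
        rw [← mul_assoc]
        exact h5
      d_b := fun u _ => by
        have h5 := mul_le_mul_of_nonneg_right hCbd (hGr.pos u).le
        unfold bN
        rw [← mul_assoc]
        exact h5
      sl_smax := fun v => ?_
      aS_ge := ?_
      βS_ge := ?_
      gr := hGr
      ok := hNum }
  · have := hmb (m2 - 1) (by omega)
    exact this
  · have := num98 (A := A) (C4 := 2) (η := η) (mt := mt) hGr (Cb := Cb) (Cd := Cd) hCb hCd hq0 (hqa q (by omega))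
      (G := G) (hma m2 (by omega)) hθ1 hcp hce hε1 hNum
    exact_mod_cast this
  · intro t i _ h4 _
    have h5 := hmc (i - t) (by
      have h6 : t + m0 ≤ i := h4
      omega)
    have h6 : t + m0 ≤ i := h4
    unfold stN
    have h7 : (A + 1) * (Nat.log 2 (i - t + 1) + 1) + lam ≤ (A + 1 + lam) * (Nat.log 2 (i - t + 1) + 1) := by
      nlinarith [Nat.zero_le (Nat.log 2 (i - t + 1))]
    omega
  · have a1 := hGr.sl_small hCb m2 (le_refl v)
    have a2 := hGr.sl_nonneg hCb m2 v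
    have a3 : 64 * Cg * Cg * Cb ≤ 2 ^ m2 := hma m2 (by omega)
    have a4 := hGr.pos v
    rw [Nat.sub_self, Nat.add_zero] at a1
    have a5 : (0 : ℝ) < 2 ^ m2 := by positivity
    show slN Cb (fun u => EE μ s (Tk T0 K u)) m2 v ≤ EE μ s (Tk T0 K v) / 16
    by_contra hcon
    push Not at hcon
    have a6 : 2 ^ m2 * (EE μ s (Tk T0 K v) / 16) < 2 ^ m2 * slN Cb (fun u => EE μ s (Tk T0 K u)) m2 v :=
      mul_lt_mul_of_pos_left hcon a5
    have a7 : 64 * Cg * Cg * Cb * (EE μ s (Tk T0 K v) / 16) ≤ 2 ^ m2 * (EE μ s (Tk T0 K v) / 16) :=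
      mul_le_mul_of_nonneg_right a3 (by positivity)
    have a8 : 0 ≤ Cg * Cg * Cb * EE μ s (Tk T0 K v) := by positivity
    have a9 : 64 * Cg * Cg * Cb * (EE μ s (Tk T0 K v) / 16) = 4 * (Cg * Cg * Cb * EE μ s (Tk T0 K v)) := by ring
    have a10 : 2 * Cg * Cb * Cg * EE μ s (Tk T0 K v) = 2 * (Cg * Cg * Cb * EE μ s (Tk T0 K v)) := by ring
    linarith
  · intro u hu
    have h4 : 2 ≤ G.w u := w_ge_two G (hW.one 0) (by omega)
    have h5 : G.w u ≤ aS * G.w u := le_mul_of_one_le_left (by linarith) haS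
    linarith
  · intro u _
    have h4 := hEu u
    have h5 := hnB n (by omega)
    have hl : 1 ≤ Real.log n := by
      rw [← Real.log_exp 1]
      refine Real.log_le_log (Real.exp_pos _) ?_
      have := Real.exp_one_lt_d9
      have h20 : (20 : ℝ) ≤ n := by exact_mod_cast hn20
      linarith
    have h6 : 1 ≤ βc * EE μ s (Tk T0 K u) := by
      have h7 : Cg / βc ≤ EE μ s (Tk T0 K u) := by
        calc Cg / βc ≤ Cg / βc * Real.log n := le_mul_of_one_le_right (by positivity) hl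
          _ ≤ _ := h5.trans h4
      rw [div_le_iff₀ hβ] at h7
      linarith
    have h8 : Real.exp (-(βc * EE μ s (Tk T0 K u))) ≤ Real.exp (-1) := Real.exp_le_exp.2 (by linarith)
    refine h8.trans ?_
    have := Real.exp_neg_one_lt_d9
    linarith

end

end Pool.Agent.W_7d29a1_C1.N49
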