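import Pool.Agent.W_7d29a1_C1.Sep25
import Pool.Agent.W_7d29a1_C1.SepK41

/-!
Both halves (MP_7d29a1_pr), attractor route [C1], SEP: THE QUANTIFIERS. (helper49)

`Pre`: the constants which are chosen before the classes `q`. `Dat`: the data which are given. `Evn φ`: `φ` holds eventually, in the order
`q, m2, (η, A), lam, m0, m1, c₂, δ, κ, n`, for all contexts and the geometry of the model; all number and geometry fields (`GN49`) are available.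
`Evn.and`, `Evn.mono`. `Lf49`: the analytic fields of `In25`. `sepQ49`: `Evn` of the analytic fields gives `Evn` of the separation.
-/

set_option autoImplicit false

namespace Pool.Agent.W_7d29a1_C1.Q49

open Finset MeasureTheory
open Pool.Agent.W_7d29a1_F Pool.Agent.W_7d29a1_h4g Pool.Agent.W_7d29a1_H Pool.Agent.W_7d29a1_HS
open Pool.Agent.W_7d29a1_C1.H60
open Pool.Agent.W_7d29a1_C1.H40 (Tk)
open Pool.Agent.W_7d29a1_C1.G37 (Gm Wok gmW)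
open Pool.Agent.W_7d29a1_C1.H49 (Par ex Hf Hs rat cnt)
open Pool.Agent.W_7d29a1_C1.PS86 (pot86)
open Pool.Agent.W_7d29a1_C1.SF98
open Pool.Agent.W_7d29a1_C1.P25
open Pool.Agent.W_7d29a1_C1.N49
open scoped ENNReal

noncomputable section

/-- **THE CONSTANTS WHICH ARE CHOSEN BEFORE THE CLASSES.** `kw, kn, kb`: widths of the geometry; `aS, bS, βc`: the event `St` asked by
`relbad`; `dR u = Cr E u` (ratio of one window), `d u = Cd E u` (step of the slack), `b u = Cb E u` (loss); `ε0`: the levels are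
`≤ ε0 E u`; `c'`: the gain of one window; `C1`: the constant of the early moment; `r`: scales lost above; `m3`; `J1`: scales of the
contact above the last scale which are read. -/
structure Pre where
  kw : ℝ
  kn : ℝ
  kb : ℝ
  aS : ℝ
  bS : ℝ
  βc : ℝ
  Cr : ℝ
  Cd : ℝ
  Cb : ℝ
  ε0 : ℝ
  c' : ℝ
  C1 : ℝ≥0∞
  r : ℕ
  m3 : ℕ
  J1 : ℕ
  hkw : 0 ≤ kw
  hkn : 0 ≤ kn
  hkb : 1 ≤ kb
  haS : 1 ≤ aS
  hbS : bS + 5 / 2 ≤ 2 * kn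
  hβ : 0 < βc
  hCr : 0 ≤ Cr
  hCd : 0 ≤ Cd
  hCbr : 4 * Cr ≤ Cb
  hCbd : 2 * Cd ≤ Cb
  hε : 0 < ε0
  hε1 : ε0 ≤ 1 / 16
  hc0 : 0 < c'
  hc1 : c' ≤ 1
  hC1 : C1 ≠ ⊤
  hm3 : 3 ≤ m3

/-- **THE DATA WHICH ARE GIVEN**: at least `kap log n` scales; the ratio `K`, the growth `κ, Cg` of the energies. -/
structure Dat where
  kap : ℝ
  K : ℕ
  κ : ℝ
  Cg : ℝ
  hkap : 0 < kap
  hK : 3 ≤ K
  hCg : 1 ≤ Cg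

/-- The logarithmic level. -/
def Ln (n : ℕ) : ℝ := ((1 : ℝ) + (13 : ℕ) + 5) * Real.log n

/-- The geometry. -/
def Pre.G (P : Pre) {μ : Measure ℝ} {s : ℝ} {T0 K : ℕ} (hW : Wok μ s T0 K) (M m0 g1 m2 : ℕ) (h1 : 1 ≤ g1) (h2 : 3 ≤ m2) : Gm :=
  gmW hW M m0 g1 m2 P.kw P.kn P.kb (P.kn + 2 * P.kb) P.hkw P.hkn P.hkb le_rfl h1 h2

/-- The number and geometry fields at the constants `P`. -/
abbrev GP (P : Pre) (D : Dat) (Γ : Cx) (G : Gm) (mt : ℕ) (E : ℕ → ℝ) (q : ℕ) (η : ℝ) (A lam n τ0 : ℕ) : Prop :=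
  GN49 Γ G mt lam E D.κ D.Cg η P.Cb P.Cr P.Cd P.ε0 (Ln n) P.βc P.aS (thq P.c' q) P.c' A τ0 q P.r (2 * P.m3) (q + P.r) P.m3
    (AnW D.K P.kn P.kb) (c1q P.c' q)

/-- **EVENTUALLY, FOR THE CONTEXTS**, in the order of the shell: `c₂, δ, κ, n`. -/
def EvA (φ : ℝ → ℝ → ℝ → ℕ → Prop) : Prop :=
  ∃ s0 : ℝ, 0 < s0 ∧ s0 ≤ 1 ∧ ∀ c₂ : ℝ, 0 < c₂ → c₂ ≤ s0 → ∀ δ : ℝ, 0 < δ → δ ≤ c₂ / 16 → ∃ κ₀ : ℝ, 0 < κ₀ ∧ ∀ κ : ℝ, 0 < κ → κ ≤ κ₀ →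
    ∃ n₁ : ℕ, ∀ n : ℕ, n₁ ≤ n → φ c₂ δ κ n

theorem EvA.mono {φ ψ : ℝ → ℝ → ℝ → ℕ → Prop} (h : EvA φ)
    (hφ : ∀ c₂ δ κ n, 0 < c₂ → c₂ ≤ 1 → 0 < δ → δ ≤ c₂ / 16 → 0 < κ → φ c₂ δ κ n → ψ c₂ δ κ n) : EvA ψ := by
  obtain ⟨s0, h0, h1, h⟩ := h
  refine ⟨s0, h0, h1, fun c₂ hc hc' δ hδ hδ' => ?_⟩
  obtain ⟨κ₀, hκ, h⟩ := h c₂ hc hc' δ hδ hδ'
  refine ⟨κ₀, hκ, fun κ h2 h3 => ?_⟩
  obtain ⟨n₁, h⟩ := h κ h2 h3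
  exact ⟨n₁, fun n hn => hφ c₂ δ κ n hc (hc'.trans h1) hδ hδ' h2 (h n hn)⟩

theorem EvA.and {φ ψ : ℝ → ℝ → ℝ → ℕ → Prop} (h : EvA φ) (h' : EvA ψ) : EvA fun c₂ δ κ n => φ c₂ δ κ n ∧ ψ c₂ δ κ n := by
  obtain ⟨s0, h0, h1, h⟩ := h
  obtain ⟨s1, h0', _, h'⟩ := h'
  refine ⟨min s0 s1, lt_min h0 h0', (min_le_left _ _).trans h1, fun c₂ hc hc' δ hδ hδ' => ?_⟩
  obtain ⟨κ₀, hκ, h⟩ := h c₂ hc (hc'.trans (min_le_left _ _)) δ hδ hδ'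
  obtain ⟨κ₁, hκ', h'⟩ := h' c₂ hc (hc'.trans (min_le_right _ _)) δ hδ hδ'
  refine ⟨min κ₀ κ₁, lt_min hκ hκ', fun κ h2 h3 => ?_⟩
  obtain ⟨n₁, h⟩ := h κ h2 (h3.trans (min_le_left _ _))
  obtain ⟨n₂, h'⟩ := h' κ h2 (h3.trans (min_le_right _ _))
  exact ⟨max n₁ n₂, fun n hn => ⟨h n (le_trans (le_max_left _ _) hn), h' n (le_trans (le_max_right _ _) hn)⟩⟩

/-- From a threshold in `n`. -/
theorem EvA.of_ev {φ : ℝ → ℝ → ℝ → ℕ → Prop} (h : ∃ n₁ : ℕ, ∀ n : ℕ, n₁ ≤ n → ∀ c₂ δ κ : ℝ, 0 < c₂ → c₂ ≤ 1 → 0 < δ → δ ≤ c₂ / 16 →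
    0 < κ → φ c₂ δ κ n) : EvA φ := by
  obtain ⟨n₁, h⟩ := h
  exact ⟨1, one_pos, le_rfl, fun c₂ hc hc' δ hδ hδ' => ⟨1, one_pos, fun κ hκ _ => ⟨n₁, fun n hn => h n hn c₂ δ κ hc hc' hδ hδ' hκ⟩⟩⟩

/-- The data of one instance: the context is admissible, the base height is `≥ n ^ e0`, the top scale `≤ n ^ (1/32) / 4`, there are at
least `kap log n` scales and `m₂ + J₁` scales above them. -/
structure Ct (P : Pre) (D : Dat) (μ : Measure ℝ) (s e0 c₂ δ κ : ℝ) (n : ℕ) (Γ : Cx) (T0 M mt m2 g1 : ℕ) : Prop where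
  adm : Adm μ s c₂ δ κ n Γ
  T0_ge : (n : ℝ) ^ e0 ≤ T0
  top : 4 * ((T0 : ℝ) * (D.K : ℝ) ^ mt) ≤ (n : ℝ) ^ (1 / 32 : ℝ)
  M_ge : D.kap * Real.log n ≤ M
  mt_ge : M + m2 + P.J1 ≤ mt
  mt_le : mt ≤ 2 * M
  h1 : 1 ≤ g1
  h2 : 3 ≤ m2

/-- The properties of one instance. -/
abbrev Phi : Type := (q : ℕ) → (η : ℝ) → (A lam n : ℕ) → (Γ : Cx) → (G : Gm) → (mt τ0 : ℕ) → (E : ℕ → ℝ) → Prop

/-- **ONE VALUE OF THE CONSTANTS**: `φ` holds for all contexts and all geometries. -/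
def Ins (P : Pre) (D : Dat) (μ : Measure ℝ) (s : ℝ) (φ : Phi) (q m2 : ℕ) (η : ℝ) (A lam m0 g1 : ℕ) (e0 c₂ δ κ : ℝ) (n : ℕ) : Prop :=
  ∀ (Γ : Cx) (T0 M mt τ0 : ℕ) (hc : Ct P D μ s e0 c₂ δ κ n Γ T0 M mt m2 g1) (hW : Wok μ s T0 D.K),
    Gr (fun u => EE μ s (Tk T0 D.K u)) D.κ D.Cg →
    GP P D Γ (P.G hW M m0 g1 m2 hc.h1 hc.h2) mt (fun u => EE μ s (Tk T0 D.K u)) q η A lam n τ0 →
    φ q η A lam n Γ (P.G hW M m0 g1 m2 hc.h1 hc.h2) mt τ0 (fun u => EE μ s (Tk T0 D.K u))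

/-- **EVENTUALLY**, in the order of the constants: `q, m2, (η, A), lam, m0, m1`, the exponent `e0` of the base height, and then `EvA`. -/
def Evn (P : Pre) (D : Dat) (μ : Measure ℝ) (s : ℝ) (φ : Phi) : Prop :=
  ∃ q₁ : ℕ, ∀ q : ℕ, q₁ ≤ q → ∃ m2₁ : ℕ, ∀ m2 : ℕ, m2₁ ≤ m2 → ∀ η : ℝ, 0 < η → ∀ A : ℕ, 1 ≤ A →
  ∃ lam₁ : ℕ, ∀ lam : ℕ, lam₁ ≤ lam → ∃ m0₁ : ℕ, ∀ m0 : ℕ, m0₁ ≤ m0 → ∀ g1 : ℕ, 1 ≤ g1 →
    ∀ e0 : ℝ, 0 < e0 → EvA fun c₂ δ κ n => Ins P D μ s φ q m2 η A lam m0 g1 e0 c₂ δ κ n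

variable {P : Pre} {D : Dat} {μ : Measure ℝ} {s : ℝ} {φ ψ : Phi}

/-- Change of the property, everything at hand. -/
theorem Evn.monoG (h : Evn P D μ s φ) (hφ : ∀ q m2 η A lam m0 g1 e0 c₂ δ κ n Γ T0 M mt τ0 (hc : Ct P D μ s e0 c₂ δ κ n Γ T0 M mt m2 g1)
    (hW : Wok μ s T0 D.K), 0 < η → 1 ≤ A → 0 < e0 → 0 < c₂ → c₂ ≤ 1 → 0 < δ → δ ≤ c₂ / 16 → 0 < κ → Gr (fun u => EE μ s (Tk T0 D.K u)) D.κ D.Cg →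
    GP P D Γ (P.G hW M m0 g1 m2 hc.h1 hc.h2) mt (fun u => EE μ s (Tk T0 D.K u)) q η A lam n τ0 →
    φ q η A lam n Γ (P.G hW M m0 g1 m2 hc.h1 hc.h2) mt τ0 (fun u => EE μ s (Tk T0 D.K u)) →
    ψ q η A lam n Γ (P.G hW M m0 g1 m2 hc.h1 hc.h2) mt τ0 (fun u => EE μ s (Tk T0 D.K u))) : Evn P D μ s ψ := by
  obtain ⟨q₁, h⟩ := h
  refine ⟨q₁, fun q hq => ?_⟩
  obtain ⟨m2₁, h⟩ := h q hq
  refine ⟨m2₁, fun m2 hm2 η hη A hA => ?_⟩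
  obtain ⟨l₁, h⟩ := h m2 hm2 η hη A hA
  refine ⟨l₁, fun lam hl => ?_⟩
  obtain ⟨m0₁, h⟩ := h lam hl
  refine ⟨m0₁, fun m0 hm0 g1 hg1 e0 he0 => (h m0 hm0 g1 hg1 e0 he0).mono fun c₂ δ κ n h1 h2 h3 h4 h5 h6 => ?_⟩
  exact fun Γ T0 M mt τ0 hc hW hg hG => hφ q m2 η A lam m0 g1 e0 c₂ δ κ n Γ T0 M mt τ0 hc hW hη hA he0 h1 h2 h3 h4 h5 hg hG
    (h6 Γ T0 M mt τ0 hc hW hg hG)

theorem Evn.mono (h : Evn P D μ s φ) (hφ : ∀ q η A lam n Γ G mt τ0 E, φ q η A lam n Γ G mt τ0 E → ψ q η A lam n Γ G mt τ0 E) :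
    Evn P D μ s ψ := h.monoG fun _ _ _ _ _ _ _ _ _ _ _ _ _ _ _ _ _ _ _ _ _ _ _ _ _ _ _ _ _ h1 => hφ _ _ _ _ _ _ _ _ _ _ h1

theorem Evn.and (h : Evn P D μ s φ) (h' : Evn P D μ s ψ) :
    Evn P D μ s fun q η A lam n Γ G mt τ0 E => φ q η A lam n Γ G mt τ0 E ∧ ψ q η A lam n Γ G mt τ0 E := by
  obtain ⟨q₁, h⟩ := h
  obtain ⟨q₂, h'⟩ := h'
  refine ⟨max q₁ q₂, fun q hq => ?_⟩
  obtain ⟨m2₁, h⟩ := h q (le_trans (le_max_left _ _) hq)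
  obtain ⟨m2₂, h'⟩ := h' q (le_trans (le_max_right _ _) hq)
  refine ⟨max m2₁ m2₂, fun m2 hm2 η hη A hA => ?_⟩
  obtain ⟨l₁, h⟩ := h m2 (le_trans (le_max_left _ _) hm2) η hη A hA
  obtain ⟨l₂, h'⟩ := h' m2 (le_trans (le_max_right _ _) hm2) η hη A hA
  refine ⟨max l₁ l₂, fun lam hl => ?_⟩
  obtain ⟨m0₁, h⟩ := h lam (le_trans (le_max_left _ _) hl)
  obtain ⟨m0₂, h'⟩ := h' lam (le_trans (le_max_right _ _) hl)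
  refine ⟨max m0₁ m0₂, fun m0 hm0 g1 hg1 e0 he0 => ((h m0 (le_trans (le_max_left _ _) hm0) g1 hg1 e0 he0).and
    (h' m0 (le_trans (le_max_right _ _) hm0) g1 hg1 e0 he0)).mono fun c₂ δ κ n _ _ _ _ _ h6 => ?_⟩
  exact fun Γ T0 M mt τ0 hc hW hg hG => ⟨h6.1 Γ T0 M mt τ0 hc hW hg hG, h6.2 Γ T0 M mt τ0 hc hW hg hG⟩

/-- A property which does not need any threshold. -/
theorem Evn.of_all (h : ∀ q m2 η A lam m0 g1 e0 c₂ δ κ n Γ T0 M mt τ0 (hc : Ct P D μ s e0 c₂ δ κ n Γ T0 M mt m2 g1)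
    (hW : Wok μ s T0 D.K), 0 < η → 1 ≤ A → 0 < e0 → 0 < c₂ → c₂ ≤ 1 → 0 < δ → δ ≤ c₂ / 16 → 0 < κ → Gr (fun u => EE μ s (Tk T0 D.K u)) D.κ D.Cg →
    GP P D Γ (P.G hW M m0 g1 m2 hc.h1 hc.h2) mt (fun u => EE μ s (Tk T0 D.K u)) q η A lam n τ0 →
    φ q η A lam n Γ (P.G hW M m0 g1 m2 hc.h1 hc.h2) mt τ0 (fun u => EE μ s (Tk T0 D.K u))) : Evn P D μ s φ :=
  ⟨0, fun q _ => ⟨0, fun m2 _ η hη A hA => ⟨0, fun lam _ => ⟨0, fun m0 _ g1 _ e0 he0 => EvA.of_ev ⟨0, fun n _ c₂ δ κ h1 h2 h3 h4 h5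
    Γ T0 M mt τ0 hc hW hg hG => h q m2 η A lam m0 g1 e0 c₂ δ κ n Γ T0 M mt τ0 hc hW hη hA he0 h1 h2 h3 h4 h5 hg hG⟩⟩⟩⟩⟩

variable (Γ : Cx) (G : Gm) (mt : ℕ)

/-- **THE ANALYTIC FIELDS** of `In25`. -/
structure Lf49 (P : Pre) (μ : Measure ℝ) (Lv : ℕ → ℤ × ℤ → Set Env) (Ou St Fw : ℝ → ℕ → ℤ × ℤ → Set Env)
    (L : ℕ → ℤ × ℤ → Set Env) (q : ℕ) (η : ℝ) (A n τ0 : ℕ) (E : ℕ → ℝ) : Prop where
  sLv : Stb Γ G mt q τ0 (fun u => P.Cr * E u) (bN P.Cd E) (fun u => E u / 16) fun _ => Lv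
  sOu : Stb Γ G mt q τ0 (fun u => P.Cr * E u) (bN P.Cd E) (fun u => E u / 16) Ou
  sSt : Stb Γ G mt q τ0 (fun u => P.Cr * E u) (bN P.Cd E) (fun u => E u / 16) St
  sFw : Stb Γ G mt q τ0 (fun u => P.Cr * E u) (bN P.Cd E) (fun u => E u / 16) Fw
  mL : ∀ u κ, MeasurableSet (L u κ)
  dis : ∀ u κ, Disjoint (Lv u κ) (L u κ)
  St_sub : ∀ u, τ0 < u → u < G.M → ∀ κ, St (slN P.Cb E G.m2 (u - 1)) u κ ⊆ Sy78.St Γ G P.aS P.bS (P.βc * E u) u κ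
  ro : RatW Γ G mt τ0 (fun u => P.Cr * E u) (fun u => E u / 16) (TT25 Lv Ou St Fw) L
  cmpA : ∀ t i, (p98 Γ G mt (thN η A E) (slN P.Cb E G.m2) (beN η A P.Cb E G.m2 (Ln n)) (bN P.Cb E) (stN (A + 1)) (ex (-Ln n))
      (ENNReal.ofReal (thq P.c' q))).rg τ0 t i → ∀ u ∈ Ico (stN (A + 1) t i) i, ∀ y : XS Γ G mt,
    ∀ ω ∈ Tx (TT25 Lv Ou St Fw) (fun u => E u / 16) u (G.loc u y.1),
      ENNReal.ofReal P.c' * ∫⁻ ξ, (Tx (TT25 Lv Ou St Fw) (fun u => E u / 16) u (G.loc u y.1)).indicator (wS Γ G mt y)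
          (G.R u (G.loc u y.1) ξ ω) ∂(law μ) ≤
        ∫⁻ η, (L u (G.loc u y.1)).indicator (wS Γ G mt y) (G.R u (G.loc u y.1) η ω) ∂(law μ)
  M3A : ∀ t i, (p98 Γ G mt (thN η A E) (slN P.Cb E G.m2) (beN η A P.Cb E G.m2 (Ln n)) (bN P.Cb E) (stN (A + 1)) (ex (-Ln n))
      (ENNReal.ofReal (thq P.c' q))).rg τ0 t i → ∀ s ∈ Ico (stN (A + 1) t i) i, ∀ κ : KS Γ G mt s,
    ∀ ω ∈ TA (TT25 Lv Ou St Fw) q (bN P.Cd E) (slN P.Cb E G.m2) ∅ s κ.1,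
      ω ∈ Hs (p98 Γ G mt (thN η A E) (slN P.Cb E G.m2) (beN η A P.Cb E G.m2 (Ln n)) (bN P.Cb E) (stN (A + 1)) (ex (-Ln n))
        (ENNReal.ofReal (thq P.c' q))) (wS Γ G mt) (G.cel (FS Γ G mt)) t i s κ →
      ∫⁻ ξ, (TA (TT25 Lv Ou St Fw) q (bN P.Cd E) (slN P.Cb E G.m2) ∅ s κ.1).indicator
        (rat (pX Γ G (thN η A E) (slN P.Cb E G.m2) (beN η A P.Cb E G.m2 (Ln n)) (bN P.Cb E) (stN (A + 1)) (ex (-Ln n))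
          (ENNReal.ofReal (thq P.c' q))) (SD53.w Γ) (G.cel (Γ.rows 0 Γ.N))
        (G.low (Γ.rows 0 Γ.N)) t i s (upK κ)) (G.R s κ.1 ξ ω) ∂(law μ) ≤
      P.C1 * ∫⁻ η, (L s κ.1).indicator (fun ω => ∑ ρ ∈ G.nb (Γ.rows 0 Γ.N) s (upK κ), SD53.w Γ ρ ω) (G.R s κ.1 η ω) ∂(law μ)
  exclF : ∀ t i, (p98 Γ G mt (thN η A E) (slN P.Cb E G.m2) (beN η A P.Cb E G.m2 (Ln n)) (bN P.Cb E) (stN (A + 1)) (ex (-Ln n))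
      (ENNReal.ofReal (thq P.c' q))).rg τ0 t i → ∀ x : XS Γ G mt, ∀ u ∈ Sq q P.r (stN (A + 1) t i) i,
    ∀ ω ∈ Tx (TT25 Lv Ou St Fw) (fun u => E u / 16) u (G.loc u x.1), ∀ ξ, G.R u (G.loc u x.1) ξ ω ∈ L u (G.loc u x.1) →
    ∀ ω₁ ∈ Hf (pX Γ G (thN η A E) (slN P.Cb E G.m2) (beN η A P.Cb E G.m2 (Ln n)) (bN P.Cb E) (stN (A + 1)) (ex (-Ln n))
        (ENNReal.ofReal (thq P.c' q))) (SD53.w Γ) (SD53.fa Γ G) t i (up x),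
      Lt87.Reach (fun v => G.R v (G.loc v x.1))
        (fun v => Tx (TT25 Lv Ou St Fw) (fun u => E u / 16) v (G.loc v x.1) ∪ L v (G.loc v x.1))
        ((Sq q P.r (stN (A + 1) t i) i).filter fun v => v % q = u % q) u ω ω₁ →
    ∀ ω₂ ∈ Hf (pX Γ G (thN η A E) (slN P.Cb E G.m2) (beN η A P.Cb E G.m2 (Ln n)) (bN P.Cb E) (stN (A + 1)) (ex (-Ln n))
        (ENNReal.ofReal (thq P.c' q))) (SD53.w Γ) (SD53.fa Γ G) t i (up x),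
      Lt87.Reach (fun v => G.R v (G.loc v x.1))
        (fun v => Tx (TT25 Lv Ou St Fw) (fun u => E u / 16) v (G.loc v x.1) ∪ L v (G.loc v x.1))
        ((Sq q P.r (stN (A + 1) t i) i).filter fun v => v % q = u % q) u (G.R u (G.loc u x.1) ξ ω) ω₂ → False
  exclE : ∀ t i, (p98 Γ G mt (thN η A E) (slN P.Cb E G.m2) (beN η A P.Cb E G.m2 (Ln n)) (bN P.Cb E) (stN (A + 1)) (ex (-Ln n))
      (ENNReal.ofReal (thq P.c' q))).rg τ0 t i → ∀ s ∈ Ico (stN (A + 1) t i) i, ∀ κ : KS Γ G mt s,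
    ∀ ρ ∈ G.nb (FS Γ G mt) s κ, ∀ u ∈ Sq q P.r s i,
    ∀ ω ∈ Tx (TT25 Lv Ou St Fw) (fun u => E u / 16) u (G.loc u ρ.1), ∀ ξ, G.R u (G.loc u ρ.1) ξ ω ∈ L u (G.loc u ρ.1) →
    ∀ ω₁ ∈ Hs (pX Γ G (thN η A E) (slN P.Cb E G.m2) (beN η A P.Cb E G.m2 (Ln n)) (bN P.Cb E) (stN (A + 1)) (ex (-Ln n))
        (ENNReal.ofReal (thq P.c' q))) (SD53.w Γ) (G.cel (Γ.rows 0 Γ.N)) t i s (upK κ) ∩
        TA (TT25 Lv Ou St Fw) q (bN P.Cd E) (slN P.Cb E G.m2) ∅ s κ.1,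
      Lt87.Reach (Function.update (fun v => G.R v (G.loc v ρ.1)) s (G.R s κ.1))
        (Function.update (fun v => Tx (TT25 Lv Ou St Fw) (fun u => E u / 16) v (G.loc v ρ.1) ∪ L v (G.loc v ρ.1)) s
          (Tx (TT25 Lv Ou St Fw) (fun u => E u / 16) s κ.1 ∪ L s κ.1))
          (insert s ((Sq q P.r s i).filter fun v => v % q = u % q)) u ω ω₁ →
    ∀ ω₂ ∈ Hs (pX Γ G (thN η A E) (slN P.Cb E G.m2) (beN η A P.Cb E G.m2 (Ln n)) (bN P.Cb E) (stN (A + 1)) (ex (-Ln n))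
        (ENNReal.ofReal (thq P.c' q))) (SD53.w Γ) (G.cel (Γ.rows 0 Γ.N)) t i s (upK κ) ∩
        TA (TT25 Lv Ou St Fw) q (bN P.Cd E) (slN P.Cb E G.m2) ∅ s κ.1,
      Lt87.Reach (Function.update (fun v => G.R v (G.loc v ρ.1)) s (G.R s κ.1))
        (Function.update (fun v => Tx (TT25 Lv Ou St Fw) (fun u => E u / 16) v (G.loc v ρ.1) ∪ L v (G.loc v ρ.1)) s
          (Tx (TT25 Lv Ou St Fw) (fun u => E u / 16) s κ.1 ∪ L s κ.1))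
          (insert s ((Sq q P.r s i).filter fun v => v % q = u % q)) u (G.R u (G.loc u ρ.1) ξ ω) ω₂ → False

variable {Γ G mt}

/-- **`In25` FROM THE TWO LISTS.** -/
theorem Lf49.toIn (hok : Γ.Ok) {Lv : ℕ → ℤ × ℤ → Set Env} {Ou St Fw : ℝ → ℕ → ℤ × ℤ → Set Env} {L : ℕ → ℤ × ℤ → Set Env} {q : ℕ} {η : ℝ}
    {A lam n τ0 : ℕ} {E : ℕ → ℝ} (hbS : P.bS + 5 / 2 ≤ 2 * G.kn) (hM : G.M ≤ mt) (h : Lf49 Γ G mt P μ Lv Ou St Fw L q η A n τ0 E)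
    (g : GP P D Γ G mt E q η A lam n τ0) :
    In25 Γ G mt μ lam Lv Ou St Fw L (bN P.Cd E) (slN P.Cb E G.m2) (fun u => E u / 16) (thN η A E)
      (beN η A P.Cb E G.m2 (Ln n)) (bN P.Cb E) (stN (A + 1)) (ex (-Ln n)) (ENNReal.ofReal (thq P.c' q)) τ0 q P.r (2 * P.m3)
      (q + P.r) P.m3 (2 * (A + 1)) (AnW D.K P.kn P.kb) (ENNReal.ofReal P.c') (c1q P.c' q) P.C1 (2 ^ (2 * (A + 1))) (ex (-Ln n))
      P.aS P.bS (fun u => P.βc * E u) (fun u => P.Cr * E u) where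
  ok := hok
  v0 := g.v0
  v1 := g.v1
  MT := hM
  hm2 := g.hm2
  hkb := g.hkb
  q_ge := g.q_ge
  q_le := g.q_le
  An_le := g.An_le
  qr_le := g.qr_le
  num := g.num
  st_la := g.st_la
  hq0 := g.hq0
  κ3_ne := g.κ3_ne
  m3_ge := g.m3_ge
  R_b := g.R_b
  d_b := g.d_b
  sl_smax := g.sl_smax
  sLv := h.sLv
  sOu := h.sOu
  sSt := h.sSt
  sFw := h.sFw
  mL := h.mL
  dis := h.dis
  bS_le := hbS
  aS_ge := g.aS_ge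
  βS_ge := g.βS_ge
  St_sub := h.St_sub
  ro := h.ro
  cmpA := h.cmpA
  M3A := h.M3A
  exclF := h.exclF
  exclE := h.exclE

/-- The families of events, as functions of the context, the geometry and the constants. -/
structure Fam where
  Lv : Cx → Gm → (ℕ → ℝ) → ℕ → ℤ × ℤ → Set Env
  Ou : Cx → Gm → (ℕ → ℝ) → ℝ → ℕ → ℤ × ℤ → Set Env
  St : Cx → Gm → (ℕ → ℝ) → ℝ → ℕ → ℤ × ℤ → Set Env
  Fw : Cx → Gm → (ℕ → ℝ) → ℝ → ℕ → ℤ × ℤ → Set Env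
  L : Cx → Gm → (ℕ → ℝ) → ℕ → ℤ × ℤ → Set Env

/-- The typical events. -/
abbrev Fam.TT (F : Fam) (Γ : Cx) (G : Gm) (E : ℕ → ℝ) : ℝ → ℕ → ℤ × ℤ → Set Env :=
  TT25 (F.Lv Γ G E) (F.Ou Γ G E) (F.St Γ G E) (F.Fw Γ G E)

/-- The analytic fields for the families. -/
abbrev LfF (F : Fam) (P : Pre) (μ : Measure ℝ) : Phi := fun q η A _lam n Γ G mt τ0 E =>
  Lf49 Γ G mt P μ (F.Lv Γ G E) (F.Ou Γ G E) (F.St Γ G E) (F.Fw Γ G E) (F.L Γ G E) q η A n τ0 E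

/-- The threshold of the potential. -/
def yb (P : Pre) (q b' : ℕ) : ℝ≥0∞ := (ENNReal.ofReal (thq P.c' q) ^ 2)⁻¹ ^ b'

/-- **THE SEPARATION, one instance.** -/
def Sp49 (F : Fam) (P : Pre) (μ : Measure ℝ) (δ : ℝ) : Phi := fun q η A lam n Γ G mt τ0 E =>
  ∀ a b' : ℕ, δ * G.M ≤ a → b' ≤ δ * G.M / 8 →
    ∑ x : XS Γ G mt, ∫⁻ ω in {ω | a ≤ cnt (p98 Γ G mt (thN η A E) (slN P.Cb E G.m2) (beN η A P.Cb E G.m2 (Ln n)) (bN P.Cb E)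
        (stN (A + 1)) (ex (-Ln n)) (ENNReal.ofReal (thq P.c' q))) (wS Γ G mt) (fa98 Γ G mt) τ0 τ0 (slN P.Cb E G.m2 τ0) x ω ∧
      yb P q b' ≤ pot86 Γ G mt lam P.m3 (F.TT Γ G E) (1 + c1q P.c' q)⁻¹ τ0 (slN P.Cb E G.m2 τ0) x ω},
      wS Γ G mt x ω ∂(law μ) ≤ 2 * ENNReal.ofReal (thq P.c' q ^ (-(δ / 2) * G.M))

/-- **THE SEPARATION, WITH THE QUANTIFIERS.** -/
theorem sepQ49 [IsProbabilityMeasure μ] {F : Fam} {δ : ℝ} (hδ : 0 < δ) (h : Evn P D μ s (LfF F P μ)) :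
    Evn P D μ s (Sp49 F P μ δ) := by
  obtain ⟨q₁, h⟩ := h
  refine ⟨max q₁ 1, fun q hq => ?_⟩
  obtain ⟨m2₁, h⟩ := h q (le_trans (le_max_left _ _) hq)
  refine ⟨m2₁, fun m2 hm2 η hη A hA => ?_⟩
  obtain ⟨l₁, h⟩ := h m2 hm2 η hη A hA
  refine ⟨l₁, fun lam hl => ?_⟩
  obtain ⟨m0₁, h⟩ := h lam hl
  obtain ⟨m0₂, hs⟩ := sep25 (θ := thq P.c' q) (δ := δ) (C1 := P.C1) (Ast := 2 ^ (2 * (A + 1))) m2 (2 * P.m3) (q + P.r)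
    (2 * (A + 1)) (AnW D.K P.kn P.kb) (thq_spec P.hc0 P.hc1 (show q ≠ 0 by omega)).1 hδ P.hC1 (by finiteness)
  refine ⟨max m0₁ m0₂, fun m0 hm0 g1 hg1 e0 he0 => (h m0 (le_trans (le_max_left _ _) hm0) g1 hg1 e0 he0).mono
    fun c₂ δ' κ' n _ _ _ _ _ h6 => ?_⟩
  intro Γ T0 M mt τ0 hc hW hg hG a b' ha hb
  have h1 := h6 Γ T0 M mt τ0 hc hW hg hG
  exact hs (h1.toIn hc.adm.ok P.hbS (by
    have := hc.mt_ge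
    show M ≤ mt
    omega) hG) rfl (le_trans (le_max_right _ _) hm0) ha hb

/-- **OUT OF `Evn`**: the number and geometry fields hold. -/
theorem Evn.out [IsProbabilityMeasure μ] {c C : ℝ} {n₀ : ℕ} (hI : In μ s c C n₀) (h : Evn P D μ s φ) :
    ∃ q₁ : ℕ, ∀ q : ℕ, q₁ ≤ q → ∃ m2₁ : ℕ, ∀ m2 : ℕ, m2₁ ≤ m2 → ∀ η : ℝ, 0 < η → ∀ A : ℕ, 1 ≤ A →
    ∃ lam₁ : ℕ, ∀ lam : ℕ, lam₁ ≤ lam → ∃ m0₁ : ℕ, ∀ m0 : ℕ, m0₁ ≤ m0 → ∀ g1 : ℕ, 1 ≤ g1 →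
    ∀ e0 : ℝ, 0 < e0 → EvA fun c₂ δ κ n =>
    ∀ (Γ : Cx) (T0 M mt τ0 : ℕ) (hc : Ct P D μ s e0 c₂ δ κ n Γ T0 M mt m2 g1) (hW : Wok μ s T0 D.K),
      Gr (fun u => EE μ s (Tk T0 D.K u)) D.κ D.Cg →
      GP P D Γ (P.G hW M m0 g1 m2 hc.h1 hc.h2) mt (fun u => EE μ s (Tk T0 D.K u)) q η A lam n τ0 ∧
      φ q η A lam n Γ (P.G hW M m0 g1 m2 hc.h1 hc.h2) mt τ0 (fun u => EE μ s (Tk T0 D.K u)) := by
  obtain ⟨q₁, h⟩ := h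
  obtain ⟨q₂, h'⟩ := exists_GNK41 hI D.hK (κ := D.κ) D.hCg P.hkw P.hkn P.hkb P.haS P.hβ P.hCr P.hCd P.hCbr P.hCbd P.hε P.hε1 P.hc0
    P.hc1
  refine ⟨max q₁ q₂, fun q hq => ?_⟩
  obtain ⟨m2₁, h⟩ := h q (le_trans (le_max_left _ _) hq)
  obtain ⟨m2₂, h'⟩ := h' q (le_trans (le_max_right _ _) hq)
  refine ⟨max m2₁ m2₂, fun m2 hm2 η hη A hA => ?_⟩
  obtain ⟨l₁, h⟩ := h m2 (le_trans (le_max_left _ _) hm2) η hη A hA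
  have h' := (h' m2 (le_trans (le_max_right _ _) hm2)).2 η hη A hA
  refine ⟨l₁, fun lam hl => ?_⟩
  obtain ⟨m0₁, h⟩ := h lam hl
  obtain ⟨m0₂, h'⟩ := h' lam
  refine ⟨max m0₁ m0₂, fun m0 hm0 g1 hg1 e0 he0 => ?_⟩
  obtain ⟨n₂, h'⟩ := h' m0 (le_trans (le_max_right _ _) hm0) he0 (zero_le_one (α := ℝ))
  refine ((h m0 (le_trans (le_max_left _ _) hm0) g1 hg1 e0 he0).and (EvA.of_ev (φ := fun c₂ δ κ n => ∀ (Γ : Cx) (T0 M mt τ0 : ℕ)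
    (hc : Ct P D μ s e0 c₂ δ κ n Γ T0 M mt m2 g1) (hW : Wok μ s T0 D.K), Gr (fun u => EE μ s (Tk T0 D.K u)) D.κ D.Cg →
      GP P D Γ (P.G hW M m0 g1 m2 hc.h1 hc.h2) mt (fun u => EE μ s (Tk T0 D.K u)) q η A lam n τ0)
    ⟨max n₂ 1, fun n hn c₂ δ κ h1 h2 h3 h4 h5 Γ T0 M mt τ0 hc hW hg => ?_⟩)).mono fun c₂ δ κ n _ _ _ _ _ h6 => ?_
  · refine h' n (le_trans (le_max_left _ _) hn) P.r (2 * P.m3) (q + P.r) P.m3 le_rfl le_rfl P.hm3 hc.adm h2 T0 M mt g1 τ0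
      hc.T0_ge ?_ hW hg hc.h1 hc.h2
    have a1 : (1 : ℝ) ≤ D.K := by exact_mod_cast (show 1 ≤ D.K by have := D.hK; omega)
    have a2 : (D.K : ℝ) ^ M ≤ (D.K : ℝ) ^ mt := pow_le_pow_right₀ a1 (by have := hc.mt_ge; omega)
    have a3 : (1 : ℝ) ≤ T0 := by exact_mod_cast hW.hT
    have a4 : (D.K : ℝ) ^ mt ≤ (T0 : ℝ) * (D.K : ℝ) ^ mt := le_mul_of_one_le_left (by positivity) a3
    have a5 : 0 ≤ (T0 : ℝ) * (D.K : ℝ) ^ mt := by positivity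
    have hn1 : (1 : ℝ) ≤ n := by exact_mod_cast (show 1 ≤ n from le_trans (le_max_right _ _) hn)
    have a6 : (n : ℝ) ^ (1 / 32 : ℝ) ≤ (n : ℝ) ^ (1 : ℝ) := Real.rpow_le_rpow_of_exponent_le hn1 (by norm_num)
    have a7 := hc.top
    exact a2.trans (a4.trans ((le_mul_of_one_le_left a5 (by norm_num)).trans (a7.trans a6)))
  · intro Γ T0 M mt τ0 hc hW hg
    have h7 := h6.2 Γ T0 M mt τ0 hc hW hg
    exact ⟨h7, h6.1 Γ T0 M mt τ0 hc hW hg h7⟩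

end

end Pool.Agent.W_7d29a1_C1.Q49
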