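import Pool.Agent.W_7d29a1_C1.SepQ49
import Pool.Agent.W_7d29a1_C1.PotN40
import Pool.Agent.W_7d29a1_C1.ShlL51

/-!
Both halves (MP_7d29a1_pr), attractor route [C1], SEP: THE LAST SENTENCE. (helper49)

`TmF`: what TAME supplies for one instance (levels of the depths, the clause `Cl86` of the typical events). `Pb49`: the potential is small
only with probability `n ^ (-2)`. `potQ49`: `Evn` of `TmF` gives `Evn` of `Pb49`. `Leaf49`: all leaves, with the order of the constants.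
`sepQ51_of`: `Leaf49` gives the first leaf `SepQ51` of the shell (ShlL51).
-/

set_option autoImplicit false

namespace Pool.Agent.W_7d29a1_C1.Q49

open Finset MeasureTheory Filter Topology
open Pool.Agent.W_7d29a1_F Pool.Agent.W_7d29a1_h4g Pool.Agent.W_7d29a1_H Pool.Agent.W_7d29a1_HS
open Pool.Agent.W_7d29a1_C1.S71
open Pool.Agent.W_7d29a1_C1.H60
open Pool.Agent.W_7d29a1_C1.H40 (Tk potN40 Cut)
open Pool.Agent.W_7d29a1_C1.G37 (Gm Wok gmW A0n_gmW)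
open Pool.Agent.W_7d29a1_C1.H49 (Par ex Hf Hs rat cnt)
open Pool.Agent.W_7d29a1_C1.PS86 (pot86)
open Pool.Agent.W_7d29a1_C1.Dep6
open Pool.Agent.W_7d29a1_C1.SF98
open Pool.Agent.W_7d29a1_C1.PW86
open Pool.Agent.W_7d29a1_C1.P25
open Pool.Agent.W_7d29a1_C1.N49
open Pool.Agent.W_7d29a1_C1.Nu51
open scoped ENNReal

noncomputable section

/-- The constants of the levels: reach `D`, depth fraction `k`, moment `z`, number of switch rows `sw`, tail `th, a, gg, AA`, `C2`. -/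
structure Lvc where
  D : ℕ
  k : ℕ
  z : ℕ
  sw : ℕ
  C2 : ℕ
  th : ℝ
  a : ℝ
  gg : ℝ
  AA : ℝ
  hth : 1 < th
  ha : 0 < a
  hgg : 0 < gg

/-- **WHAT TAME SUPPLIES** for one instance. -/
def TmF (F : Fam) (c : Lvc) (μ : Measure ℝ) : Phi := fun _q _η _A _lam n Γ G mt τ0 E =>
  ∃ (C0 : ℝ) (dL : Cut (ℤ × ℤ) → Cut (ℤ × ℤ) → Env → ℕ) (dN : Cut (ℤ × ℤ) → Cut (ℤ × ℤ) → Cut (ℤ × ℤ) → Env → ℕ) (q₀ : ℝ)
    (Sw : Finset ℤ) (scL : Cut (ℤ × ℤ) → Cut (ℤ × ℤ) → ℕ) (scN : Cut (ℤ × ℤ) → Cut (ℤ × ℤ) → Cut (ℤ × ℤ) → ℕ) (bad : Set Env),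
    4 * (G.kn + (G.kb + 1) + 1) ≤ C0 ∧ Dp2 μ c.z 2 dL ∧ Dp3 μ c.z 2 dN ∧ 1 ≤ q₀ ∧
    (∀ e e', law μ {η | G.M / c.k < dL e e' η} ≤ ENNReal.ofReal (c.AA * Real.exp (-(c.a * (q₀ * c.th ^ (G.M / c.k)) ^ c.gg)))) ∧
    Sw.card ≤ c.sw ∧ Cl86 Γ G mt Sw (G.M / c.k) dL dN scL scN C0 c.C2 c.D τ0 bad (F.TT Γ G E 0) ∧
    law μ bad ≤ ENNReal.ofReal ((n : ℝ) ^ (-(3 : ℝ)))

/-- **THE POTENTIAL IS SMALL ONLY WITH SMALL PROBABILITY**, one instance. -/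
def Pb49 (F : Fam) (P : Pre) (μ : Measure ℝ) (δ : ℝ) : Phi := fun q _η _A lam n Γ G mt τ0 E =>
  ∀ b' : ℕ, δ * G.M / 8 ≤ b' + 1 →
    law μ {η | ∃ x : XS Γ G mt, pot86 Γ G mt lam P.m3 (F.TT Γ G E) (1 + c1q P.c' q)⁻¹ τ0 (slN P.Cb E G.m2 τ0) x η < yb P q b'} ≤
      ENNReal.ofReal ((n : ℝ) ^ (-(2 : ℝ)))

/-- The number of the cells per scale. -/
def A49 (K : ℕ) (kap : ℝ) : ℕ := max 2 (max ((2 * (K + 1) + 1) * (2 * (2 * K * 2 + 1) + 1)) ⌈Real.exp (13 / kap)⌉₊)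

/-- A threshold in `n` for a lower bound of `M`. -/
theorem M_large {kap : ℝ} (hk : 0 < kap) (x : ℝ) : ∃ n₁ : ℕ, ∀ n : ℕ, n₁ ≤ n → ∀ M : ℕ, kap * Real.log n ≤ M → x ≤ M := by
  have h1 : Tendsto (fun n : ℕ => kap * Real.log (n : ℝ)) atTop atTop :=
    (Real.tendsto_log_atTop.comp tendsto_natCast_atTop_atTop).const_mul_atTop hk
  obtain ⟨n₁, h⟩ := (h1.eventually_ge_atTop x).exists_forall_of_atTop
  exact ⟨n₁, fun n hn M hM => (h n hn).trans hM⟩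

/-- The scales are at most `n`. -/
theorem Ct.M_le {P : Pre} {D : Dat} {μ : Measure ℝ} {s e0 c₂ δ κ : ℝ} {n : ℕ} {Γ : Cx} {T0 M mt m2 g1 : ℕ}
    (h : Ct P D μ s e0 c₂ δ κ n Γ T0 M mt m2 g1) (hT : 1 ≤ T0) (hn : 1 ≤ n) : M ≤ n := by
  have a1 : (1 : ℝ) ≤ D.K := by exact_mod_cast (show 1 ≤ D.K by have := D.hK; omega)
  have a3 : (1 : ℝ) ≤ T0 := by exact_mod_cast hT
  have a4 : (D.K : ℝ) ^ mt ≤ (T0 : ℝ) * (D.K : ℝ) ^ mt := le_mul_of_one_le_left (by positivity) a3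
  have a5 : 0 ≤ (T0 : ℝ) * (D.K : ℝ) ^ mt := by positivity
  have hn1 : (1 : ℝ) ≤ n := by exact_mod_cast hn
  have a6 : (n : ℝ) ^ (1 / 32 : ℝ) ≤ (n : ℝ) := by
    calc (n : ℝ) ^ (1 / 32 : ℝ) ≤ (n : ℝ) ^ (1 : ℝ) := Real.rpow_le_rpow_of_exponent_le hn1 (by norm_num)
      _ = n := Real.rpow_one _
  have a7 := (a4.trans (le_mul_of_one_le_left a5 (by norm_num))).trans (h.top.trans a6)
  have a8 : D.K ^ mt ≤ n := by exact_mod_cast a7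
  have a9 : mt < D.K ^ mt := Nat.lt_pow_self (by have := D.hK; omega)
  have := h.mt_ge
  omega

/-- **THE POTENTIAL, WITH THE QUANTIFIERS**: `D, k, z` are chosen first. -/
theorem potQ49 {μ : Measure ℝ} [IsProbabilityMeasure μ] {s δ kap : ℝ} {K sw : ℕ} (hδ : 0 < δ) (hkap : 0 < kap) :
    ∃ D₀ k₀ z₀ : ℕ, 1 ≤ D₀ ∧ 1 ≤ k₀ ∧ 1 ≤ z₀ ∧ ∀ (c : Lvc) (P : Pre) (D : Dat) (F : Fam), c.D = D₀ → c.k = k₀ → c.z = z₀ → c.sw = sw →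
      D.K = K → D.kap = kap → Evn P D μ s (LfF F P μ) → Evn P D μ s (TmF F c μ) → Evn P D μ s (Pb49 F P μ δ) := by
  obtain ⟨D₀, k₀, z₀, h1, h2, h3, H⟩ := potN40 (μ := μ) (A49 K kap) sw (d := δ / 96) (c := kap) 3 (by positivity) hkap (by
    have : Real.exp (13 / kap) ≤ (⌈Real.exp (13 / kap)⌉₊ : ℝ) := Nat.le_ceil _
    refine this.trans ?_
    exact_mod_cast le_trans (le_max_right _ _) (le_max_right _ _))
  refine ⟨D₀, k₀, z₀, h1, h2, h3, fun c P D F e1 e2 e3 e4 e5 e6 hL hT => ?_⟩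
  obtain ⟨lam0, n0, H⟩ := H c.th c.a c.gg c.AA c.hth c.ha c.hgg c.C2
  -- one more condition on `lam`: the multiplicity of the targets
  obtain ⟨lam1, hlam1⟩ : ∃ lam1 : ℕ, ∀ lam : ℕ, lam1 ≤ lam → AnW D.K P.kn P.kb ≤ A49 K kap ^ lam := by
    refine ⟨AnW D.K P.kn P.kb, fun lam hl => ?_⟩
    have hA : 2 ≤ A49 K kap := le_max_left _ _
    have h5 : AnW D.K P.kn P.kb < (A49 K kap) ^ AnW D.K P.kn P.kb := Nat.lt_pow_self (by omega)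
    exact h5.le.trans (Nat.pow_le_pow_right (by omega) hl)
  obtain ⟨q₁, h⟩ := hL.and hT
  refine ⟨max q₁ 1, fun q hq => ?_⟩
  have hq0 : q ≠ 0 := by omega
  obtain ⟨m2₁, h⟩ := h q (le_trans (le_max_left _ _) hq)
  refine ⟨m2₁, fun m2 hm2 η hη A hA => ?_⟩
  obtain ⟨l₁, h⟩ := h m2 hm2 η hη A hA
  refine ⟨max l₁ (max lam0 lam1), fun lam hl => ?_⟩
  obtain ⟨m0₁, h⟩ := h lam (le_trans (le_max_left _ _) hl)
  obtain ⟨nM, hnM⟩ := M_large hkap (max (k₀ : ℝ) (max (m2 : ℝ) (768 / δ)))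
  refine ⟨m0₁, fun m0 hm0 g1 hg1 e0 he0 => ?_⟩
  refine ((h m0 hm0 g1 hg1 e0 he0).and (EvA.of_ev (φ := fun _ _ _ n => max (max n0 nM) 20 ≤ n)
    ⟨max (max n0 nM) 20, fun n hn _ _ _ _ _ _ _ _ => hn⟩)).mono fun c₂ δ' κ' n _ hc1 _ _ _ h6 => ?_
  obtain ⟨h6, hn⟩ := h6
  intro Γ T0 M mt τ0 hc hW hg hG b' hb'
  obtain ⟨h7, C0, dL, dN, q₀, Sw, scL, scN, bad, g1', g2, g3, g4, g5, g6, g7, g8⟩ := h6 Γ T0 M mt τ0 hc hW hg hG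
  rw [e3] at g2 g3
  rw [e2] at g5 g7
  rw [e1] at g7
  rw [e4] at g6
  have hMr : max (k₀ : ℝ) (max (m2 : ℝ) (768 / δ)) ≤ M := hnM n (by omega) M (by have := hc.M_ge; rwa [e6] at this)
  have hM1 : k₀ ≤ M := by exact_mod_cast (le_max_left _ _).trans hMr
  have hM2 : m2 ≤ M := by exact_mod_cast ((le_max_left _ _).trans (le_max_right _ _)).trans hMr
  have hM3 : 768 / δ ≤ M := ((le_max_right _ _).trans (le_max_right _ _)).trans hMr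
  rw [div_le_iff₀ hδ] at hM3
  obtain ⟨hθ1, hθ2, hcp, hce⟩ := thq_spec P.hc0 P.hc1 hq0
  have hy1 : (1 + c1q P.c' q)⁻¹ ≤ 1 := ENNReal.inv_le_one.2 le_self_add
  -- the number of the factors
  set b : ℕ := ⌈δ / 96 * M⌉₊ with hb
  have hb1 : δ / 96 * M ≤ b := Nat.le_ceil _
  have hb2 : (b : ℝ) < δ / 96 * M + 1 := Nat.ceil_lt_add_one (by positivity)
  have hb3 : 3 * b ≤ b' := by
    have h8 : (3 * b : ℝ) ≤ b' := by
      have h9 : δ * M / 8 ≤ b' + 1 := hb'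
      nlinarith
    exact_mod_cast h8
  have hcard : Fintype.card (XS Γ (P.G hW M m0 g1 m2 hc.h1 hc.h2) mt) ≤ n ^ 13 := card_adm hc.adm hc1 (by omega)
  have hmt := hc.mt_ge
  have hA0 : (P.G hW M m0 g1 m2 hc.h1 hc.h2).A0n ≤ A49 K kap := by
    have h8 : (P.G hW M m0 g1 m2 hc.h1 hc.h2).A0n = (2 * (D.K + 1) + 1) * (2 * (2 * D.K * 2 + 1) + 1) := rfl
    rw [h8, e5]
    exact le_trans (le_max_left _ _) (le_max_right _ _)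
  have hmono : ∀ σ σ' u κ, σ ≤ σ' → F.TT Γ (P.G hW M m0 g1 m2 hc.h1 hc.h2) (fun u => EE μ s (Tk T0 D.K u)) σ u κ ⊆
      F.TT Γ (P.G hW M m0 g1 m2 hc.h1 hc.h2) (fun u => EE μ s (Tk T0 D.K u)) σ' u κ := by
    intro σ σ' u κ hs ω hω
    exact ⟨hω.1, h7.sOu.mono _ _ u κ hs hω.2.1, h7.sSt.mono _ _ u κ hs hω.2.2.1, h7.sFw.mono _ _ u κ hs hω.2.2.2⟩
  have hσ : 0 ≤ slN P.Cb (fun u => EE μ s (Tk T0 D.K u)) (P.G hW M m0 g1 m2 hc.h1 hc.h2).m2 τ0 :=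
    hg.sl_nonneg (by have := P.hCbd; have := P.hCd; linarith) _ _
  have hkey := H Γ (P.G hW M m0 g1 m2 hc.h1 hc.h2) mt lam P.m3 n τ0 (by omega) (by omega)
    (show M + m2 ≤ mt + 1 by omega) (show mt ≤ 2 * M from hc.mt_le) hM2 hM1 (by have := hc.M_ge; rwa [e6] at this)
    (show M ≤ n from hc.M_le hW.hT (by omega)) hA0 (hG.An_le.trans (hlam1 lam (by omega))) hcard C0 g1' dL dN g2 g3 q₀ g4 g5
    (F.TT Γ (P.G hW M m0 g1 m2 hc.h1 hc.h2) (fun u => EE μ s (Tk T0 D.K u))) hmono _ hσ Sw scL scN bad g6 g7 g8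
    ((1 + c1q P.c' q)⁻¹) hy1 b hb1
  refine (measure_mono fun ω hω => ?_).trans (hkey.trans ?_)
  · obtain ⟨x, hx⟩ := hω
    refine ⟨x, hx.trans_le ?_⟩
    have h8 : yb P q b' = (1 + c1q P.c' q)⁻¹ ^ b' := by rw [hce]; rfl
    rw [h8]
    exact pow_le_pow_right_of_le_one' hy1 hb3
  · have hn3 : (3 : ℝ) ≤ n := by exact_mod_cast (show 3 ≤ n by omega)
    have hn0 : (0 : ℝ) < n := by linarith
    rw [show (3 : ℝ≥0∞) = ENNReal.ofReal 3 by simp, ← ENNReal.ofReal_mul (by norm_num)]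
    refine ENNReal.ofReal_le_ofReal ?_
    have h9 : (n : ℝ) ^ (-(2 : ℝ)) = n * (n : ℝ) ^ (-(3 : ℝ)) := by
      rw [← Real.rpow_one_add' (by positivity) (by norm_num)]
      norm_num
    rw [h9]
    exact mul_le_mul_of_nonneg_right hn3 (by positivity)

/-- **ALL LEAVES, WITH THE ORDER OF THE CONSTANTS**: `sw` (number of switch rows), `K`, the density `kap`, the fraction `δ`; `D, k, z` of the
potential are given; then the levels and the constants `P` and the events `F`. -/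
def Leaf49 (μ : Measure ℝ) (s : ℝ) : Prop :=
  ∀ a Cg : ℝ, 0 < a → 1 ≤ Cg → ∃ (sw K₀ : ℕ), ∀ K : ℕ, K₀ ≤ K → ∀ (hK : 3 ≤ K) (kap : ℝ) (hkap : 0 < kap) (hCg : 1 ≤ Cg) (δ : ℝ), 0 < δ →
    δ ≤ 1 → ∀ D k z : ℕ, 1 ≤ D → 1 ≤ k → 1 ≤ z → ∃ (c : Lvc) (P : Pre) (F : Fam), c.D = D ∧ c.k = k ∧ c.z = z ∧ c.sw = sw ∧
      Evn P ⟨kap, K, (K : ℝ) ^ a, Cg, hkap, hK, hCg⟩ μ s (LfF F P μ) ∧ Evn P ⟨kap, K, (K : ℝ) ^ a, Cg, hkap, hK, hCg⟩ μ s (TmF F c μ)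

/-- **THE FIRST LEAF OF THE SHELL FROM THE LEAVES OF SEP.** -/
theorem sepQ51_of {μ : Measure ℝ} [IsProbabilityMeasure μ] {s c C : ℝ} {n₀ : ℕ} (hI : In μ s c C n₀) (hL : Leaf49 μ s) : SepQ51 μ s := by
  obtain ⟨a, Cg, ha, hCg, K₁, hK₁⟩ := wok_gr hI
  obtain ⟨sw, K₀, hL⟩ := hL a Cg ha hCg
  refine ⟨max K₀ K₁, fun K hK kap δ hkap hδ hδ1 => ?_⟩
  obtain ⟨hK3, nW, hnW⟩ := hK₁ K (by omega)
  obtain ⟨D₀, k₀, z₀, h1, h2, h3, hpot⟩ := potQ49 (μ := μ) (s := s) (K := K) (sw := sw) hδ hkap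
  obtain ⟨lc, P, F, e1, e2, e3, e4, hLf, hTm⟩ := hL K (by omega) hK3 kap hkap hCg δ hδ hδ1 D₀ k₀ z₀ h1 h2 h3
  have hP := hpot lc P _ F e1 e2 e3 e4 rfl rfl hLf hTm
  have hS := sepQ49 hδ hLf
  obtain ⟨q₁, hq⟩ := Evn.out hI (hS.and hP)
  obtain ⟨m2₁, hm2⟩ := hq (max q₁ 1) (le_max_left _ _)
  obtain ⟨l₁, hl⟩ := hm2 (max m2₁ 3) (le_max_left _ _) 1 one_pos 1 le_rfl
  obtain ⟨m0₁, hm0⟩ := hl l₁ le_rfl
  obtain ⟨hθ1, hθ2, hcp, hce⟩ := thq_spec P.hc0 P.hc1 (show max q₁ 1 ≠ 0 by omega)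
  have hCb : 0 ≤ P.Cb := by
    have := P.hCbd
    have := P.hCd
    linarith
  refine ⟨SC51.mk K (max m0₁ 1) 1 (max m2₁ 3) (max m2₁ 3 + P.J1) 1 0 P.kw P.kn P.kb 1 P.Cb (thq P.c' (max q₁ 1)) δ P.hkw P.hkn P.hkb
    le_rfl (by omega) (by omega) one_pos hCb le_rfl hθ1, rfl, rfl, fun m e₀ he₀ => ?_⟩
  obtain ⟨s0, hs0, hs1, hE⟩ := hm0 (max m0₁ 1 + m) (by omega) 1 le_rfl e₀ he₀
  refine ⟨s0, hs0, fun c₂ hc hc' δ' hδ' hδ'' => ?_⟩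
  obtain ⟨κ₀, hκ₀, hE⟩ := hE c₂ hc hc' δ' hδ' hδ''
  refine ⟨κ₀, hκ₀, fun κ hκ hκ' => ?_⟩
  obtain ⟨n₁, hE⟩ := hE κ hκ hκ'
  obtain ⟨nM, hnM⟩ := M_large hkap (((max m2₁ 3 + P.J1 : ℕ) : ℝ))
  have hnT : ∀ᶠ n : ℕ in atTop, (nW : ℝ) ≤ (n : ℝ) ^ e₀ :=
    ((tendsto_rpow_atTop he₀).comp tendsto_natCast_atTop_atTop).eventually_ge_atTop _
  filter_upwards [eventually_ge_atTop (max n₁ nM), hnT] with n hn hnT T0 M hT0 hM htop hW Γ hA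
  have hJM : max m2₁ 3 + P.J1 ≤ M := by exact_mod_cast hnM n (by omega) M hM
  have hg := (hnW T0 (by exact_mod_cast hnT.trans hT0)).2
  have hct : Ct P ⟨kap, K, (K : ℝ) ^ a, Cg, hkap, hK3, hCg⟩ μ s e₀ c₂ δ' κ n Γ T0 M (M + (max m2₁ 3 + P.J1)) (max m2₁ 3) 1 :=
    { adm := hA
      T0_ge := hT0
      top := htop
      M_ge := hM
      mt_ge := by omega
      mt_le := by omega
      h1 := le_rfl
      h2 := by omega }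
  obtain ⟨-, hSp, hPb⟩ := hE n (by omega) Γ T0 M _ 0 hct hW hg
  have hf : (⌊δ * M / 8⌋₊ : ℝ) ≤ δ * M / 8 := Nat.floor_le (by positivity)
  have hf' : δ * M / 8 ≤ ⌊δ * M / 8⌋₊ + 1 := (Nat.lt_floor_add_one _).le
  exact sep51_of (Nat.ceil_lt_add_one (by positivity)).le (hPb ⌊δ * M / 8⌋₊ hf')
    (hSp ⌈δ * M⌉₊ ⌊δ * M / 8⌋₊ (Nat.le_ceil _) hf)

end

end Pool.Agent.W_7d29a1_C1.Q49
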