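import Pool.Agent.W_7d29a1_C1.SepZ2
import Pool.Agent.W_7d29a1_C1.NeZ5
import Pool.Agent.W_7d29a1_C1.LfC19
import Pool.Agent.W_7d29a1_C1.OuH43
import Pool.Agent.W_7d29a1_C1.Tilt57B

/-!
MP_7d29a1_pr, attractor route [C1], SEP + TAME: THE END FILE. (helper40)

`LastQ2` (all that is left of the separation and of the tameness) from the leaves, at the specification `S0` of the constants:
`OkY40` (the numbers of the windows: `OkE41`), `WqY40` (the comparison: `WQ19`), `PiY40` (the exclusions: `PI19` and its rates),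
`LvQ2` (the probability of `Lv`), `D2J43` (the second differences of the tame half).
`lfY40` : the slot `LfF`. **`lastY40`**, **`sepY40`**.
-/

set_option autoImplicit false

namespace Pool.Agent.W_7d29a1_C1.Cs2

open MeasureTheory Filter
open Pool.Agent.W_7d29a1_F Pool.Agent.W_7d29a1_h4g Pool.Agent.W_7d29a1_H Pool.Agent.W_7d29a1_HS
open Pool.Agent.W_7d29a1_C1.H60
open Pool.Agent.W_7d29a1_C1.N49
open Pool.Agent.W_7d29a1_C1.Q49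
open Pool.Agent.W_7d29a1_C1.Hp2
open Pool.Agent.W_7d29a1_C1.Ht43
open Pool.Agent.W_7d29a1_C1.WrS19 Pool.Agent.W_7d29a1_C1.WrM19 Pool.Agent.W_7d29a1_C1.WrW19
open Pool.Agent.W_7d29a1_C1.LfC19 (cf19 lfC19)
open scoped ENNReal

noncomputable section

/-- **LEAF: THE NUMBERS OF THE WINDOWS** (helper15's `okE2`). -/
def OkY40 (μ : Measure ℝ) (s c Cc : ℝ) : Prop :=
  ∀ (D : Dat) (ε : ℝ), 0 < ε → EvC (S0 μ s c Cc ε) fun C => OkE41 C.P D μ s (C.Nm μ s c ε) (C.cf.nr μ s c)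

/-- **LEAF: THE COMPARISON** (helper98). `xF` : the price of the ratio. -/
def WqY40 (μ : Measure ℝ) (s c Cc a Cg : ℝ) : Prop :=
  ∃ K₀ : ℕ, ∀ D : Dat, K₀ ≤ D.K → D.κ = (D.K : ℝ) ^ a → D.Cg = Cg → ∀ ε : ℝ, 0 < ε → ∃ xF : Cst → ℝ,
    EvC (S0 μ s c Cc ε) fun C => Evn C.P D μ s (WQ19 (C.famo μ s c ε) C.P μ s c (4 / 3) C.pG (xF C) (ENNReal.ofReal C.pL))

/-- **LEAF: THE EXCLUSIONS** (helper19, helper66). `R` : the rates. -/
def PiY40 (μ : Measure ℝ) (s c Cc a Cg : ℝ) : Prop :=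
  ∃ K₀ : ℕ, ∀ D : Dat, K₀ ≤ D.K → D.κ = (D.K : ℝ) ^ a → D.Cg = Cg → ∀ ε : ℝ, 0 < ε → ∃ R : Cst → Rt19,
    (EvC (S0 μ s c Cc ε) fun C => (R C).Ok ∧ (R C).fw + 1 ≤ C.gf - 1 / 16) ∧
      EvC (S0 μ s c Cc ε) fun C => Evn C.P D μ s (PI19 (C.famo μ s c ε) (R C) C.P.bS C.R1)

variable {μ : Measure ℝ} [IsProbabilityMeasure μ] {s c Cc a Cg : ℝ} {n₀ : ℕ}

/-- **THE SLOT `LfF`.** -/
theorem lfY40 (hI : In μ s c Cc n₀) (hN : OkY40 μ s c Cc) (hW : WqY40 μ s c Cc a Cg) (hP : PiY40 μ s c Cc a Cg) :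
    SlQ2 μ s c a Cg (S0 μ s c Cc) fun F P => LfF F P μ := by
  obtain ⟨K1, hW⟩ := hW
  obtain ⟨K2, hP⟩ := hP
  refine ⟨max K1 K2, fun D hK hκ hCg ε hε => ?_⟩
  obtain ⟨xF, hW⟩ := hW D ((le_max_left _ _).trans hK) hκ hCg ε hε
  obtain ⟨R, hR, hP⟩ := hP D ((le_max_right _ _).trans hK) hκ hCg ε hε
  exact lfC19 (Nm := fun C => C.Nm μ s c ε) (xF := xF) (R := R) hI (Tl57.ee9_57 hI) ((sg2 (μ := μ) (s := s) (c := c) (Cc := Cc)
    (ε := ε)).mono fun C h => ⟨h.pG, h.pL⟩) (hN D ε hε) hW hR hP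

/-- **`LastQ2`** from the leaves. -/
theorem lastY40 (hI : In μ s c Cc n₀) (hT : HtQ43 μ s a Cg (5 / 2)) (hE : LvQ2 μ s c a Cg (S0 μ s c Cc)) (hN : OkY40 μ s c Cc)
    (hW : WqY40 μ s c Cc a Cg) (hP : PiY40 μ s c Cc a Cg) : LastQ2 μ s a Cg :=
  lastQ2_of (fun _ hε => neS0 hI hε) (htQ2_of hT) hE (lfY40 hI hN hW hP)

/-- **`LastQ2`** from the leaves, the tame half from `D2J43`. -/
theorem lastY40D (hI : In μ s c Cc n₀) (hD : D2J43 μ s c a Cg) (hE : LvQ2 μ s c a Cg (S0 μ s c Cc)) (hN : OkY40 μ s c Cc)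
    (hW : WqY40 μ s c Cc a Cg) (hP : PiY40 μ s c Cc a Cg) : LastQ2 μ s a Cg :=
  lastY40 hI (htD43 hI (by norm_num) hD) hE hN hW hP

end

end Pool.Agent.W_7d29a1_C1.Cs2
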