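import Pool.Agent.W_7d29a1_C1.StayM31

/-!
MP_7d29a1_pr, attractor route [C1], SHELL: `stay` from one tower of slabs and a row `R` in its last slab. (helper31)
-/

set_option autoImplicit false

namespace Pool.Agent.W_7d29a1_C1.D31

open MeasureTheory ProbabilityTheory Filter Topology Finset
open Pool.Agent.W_7d29a1_F Pool.Agent.W_7d29a1_h4g Pool.Agent.W_7d29a1_H Pool.Agent.W_7d29a1_HS
open Pool.Agent.W_7d29a1_C1.K91 (wt wt_pos)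
open Pool.Agent.W_7d29a1_C1.K91P (bw bw_pos)
open Pool.Agent.W_7d29a1_C1.H75 Pool.Agent.W_7d29a1_C1.U16
open Pool.Agent.W_7d29a1_C1.FarK89 Pool.Agent.W_7d29a1_C1.FarW89

noncomputable section

variable {μ : Measure ℝ} {s : ℝ} [IsProbabilityMeasure μ] {c C : ℝ} {n₀ : ℕ}

/-- **STAY, ONE TOWER.** Slabs `a ≤ u < f + 1`; the row `R` is in the last slab; local regularity at the last row `r (f + 1)`. -/
theorem stayS31 (h0 : In μ s c C n₀) (P : ℕ) {K θ : ℝ} (hK : 4 ≤ K) (hθ : 0 < θ) : ∃ C₅ C₆ : ℝ, 0 < C₅ ∧ 0 < C₆ ∧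
    ∃ n₁ : ℕ, 1 ≤ n₁ ∧
    ∀ {h Q : ℝ} {η : Env} {p : ℕ → ℝ} {M N : ℕ} {κ : Pt} {r T Nr : ℕ → ℕ} {q : ℕ → ℝ} {bs : ℕ → Pt} {a f Tt R : ℕ}, a ≤ f →
    (∀ k, k < M → p k = Real.exp (s + h)) → (∀ k, M ≤ k → p k = Real.exp s) →
    Slabs μ s c θ K h P η κ r T Nr q bs a (f + 1) Tt n₁ Q →
    (∀ u, a ≤ u → u < f + 1 → θ * T u ≤ ((r (u + 1) - r u : ℕ) : ℝ)) → r f ≤ R → R ≤ r (f + 1) →
    r (f + 1) ≤ N → (N : ℝ) + 1 ≤ Real.exp (EE μ s Tt) →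
    ∀ {Y D r₀ σ δ Δ : ℝ}, 0 ≤ σ → 0 < δ → δ * (EE μ s Tt / wd μ s Tt) + σ ≤ hc μ s c Tt / 8 → 0 ≤ Y →
    (∀ y y₀ : ℤ, |lat16 μ s κ ((r (f + 1) : ℤ), y₀)| ≤ Y + 1 → |(y : ℝ) - y₀| ≤ D →
      bh16 μ s h η p M N (r (f + 1)) y ≤ Real.exp (r₀ + σ * |(y : ℝ) - y₀|) * bh16 μ s h η p M N (r (f + 1)) y₀) →
    ((r (f + 1) - r a : ℕ) : ℝ) ≤ D →
    lst31 P c δ C₅ C₆ Q K (wd μ s Tt) Y * EE μ s Tt + r₀ + σ ≤ (hc μ s c Tt / 8 - δ * (EE μ s Tt / wd μ s Tt) - σ) * Δ →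
    ∀ x : ℤ, |lat16 μ s κ ((r a : ℤ), x)| ≤ Y →
    ∀ B : Finset ℤ, (∀ v ∈ B, Δ ≤ |lat16 μ s κ ((R : ℤ), v) - lat16 μ s κ ((r a : ℤ), x)|) →
      ∑ v ∈ B, ker (wt η) p (r a) (R - r a) x v * bw (wt η) p (r a + (R - r a)) (N - (r a + (R - r a))) v ≤
        1 / 2 * bw (wt η) p (r a) (N - r a) x := by
  obtain ⟨C₅, C₆, hC₅, hC₆, n₂, hn₂, H⟩ := stayM31 h0 P hK hθ
  obtain ⟨n₅, hn₅⟩ := eventually_atTop.1 ((wd_tendsto h0).eventually_ge_atTop 2)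
  refine ⟨C₅, C₆, hC₅, hC₆, max n₂ n₅, hn₂.trans (le_max_left _ _), ?_⟩
  intro h Q η p M N κ r T Nr q bs a f Tt R haf hp hp' hS' hθr hR1 hR2 hrN hN Y D r₀ σ δ Δ hσ hδ hσc hY hLR hD hnum x hx B hB
  have hS : Slabs μ s c θ K h P η κ r T Nr q bs a (f + 1) Tt n₂ Q :=
    ⟨hS'.q0, hS'.K3, (le_max_left _ _).trans hS'.Tt1, fun u h1 h2 => (le_max_left _ _).trans (hS'.T1 u h1 h2), hS'.TT, hS'.NT, hS'.rr,
      hS'.b1, hS'.b2, hS'.b3, hS'.far, hS'.cost, hS'.force⟩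
  have hw : 0 ≤ wd μ s Tt := by linarith [hn₅ _ ((le_max_right _ _).trans hS'.Tt1)]
  have hwT : ∀ u, a ≤ u → u < f + 1 → 0 ≤ wd μ s (T u) := fun u h1 h2 => by
    linarith [hn₅ _ ((le_max_right _ _).trans (hS'.T1 u h1 h2))]
  have hra : r a ≤ r f := by
    have := r_mono (r := r) (a := a) (b := f + 1) hS.rr (f - a) a le_rfl (by omega)
    rwa [Nat.add_sub_cancel' haf] at this
  have S1 := cut31R hS (R := R) (fun u hu => by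
    have h1 : u = f := by omega
    rw [h1]
    exact hR1) hR2
  have S2 := tail31 hw hwT haf hS hR1 hR2
  obtain ⟨r1, hr1⟩ : ∃ r1 : ℕ → ℕ, r1 = fun u => if u < f + 1 then r u else R := ⟨_, rfl⟩
  obtain ⟨r2, hr2⟩ : ∃ r2 : ℕ → ℕ, r2 = fun u => if u = 0 then R else r (f + 1) := ⟨_, rfl⟩
  have e1 : r1 a = r a := by rw [hr1]; exact if_pos (by omega)
  have e2 : r1 (f + 1) = R := by rw [hr1]; exact if_neg (lt_irrefl _)
  have e3 : r2 0 = R := by rw [hr2]; exact if_pos rfl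
  have e4 : r2 1 = r (f + 1) := by rw [hr2]; exact if_neg one_ne_zero
  rw [← hr1] at S1
  rw [← hr2] at S2
  have key := H (N := N) (Y := Y) (D := D) (r₀ := r₀) (σ := σ) (δ := δ) (Δ := Δ) (show a ≤ f + 1 by omega) (Nat.zero_le 1)
    (show a < f + 1 by omega) (e2.trans e3.symm) e1.symm e4.symm hp hp' S1 S2 hS hθr (by rw [e4]; exact hrN) hN hσ hδ hσc hY
    (by
      intro y y₀ h1 h2
      unfold lt at h1
      rw [e4] at h1 ⊢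
      exact hLR y y₀ h1 h2) x (by
      unfold lt
      rw [e1]
      exact hx) (by rw [e4, e1]; exact hD) hnum B (by
      intro v hv
      unfold lt
      rw [e1, e2]
      exact hB v hv)
  rw [e1, e2] at key
  have e5 : r a + (R - r a) = R := by omega
  refine stayB31 (μ := μ) (s := s) (h := h) (M := M) (by omega) ?_
  rw [e5]
  exact key

end

end Pool.Agent.W_7d29a1_C1.D31
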