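import Pool.Agent.W_7d29a1_C1.Twr31
import Pool.Agent.W_7d29a1_C1.Tm31
import Pool.Agent.W_7d29a1_C1.StayS31
import Pool.Agent.W_7d29a1_C1.Geo74
import Pool.Agent.W_7d29a1_C1.UncN77

/-!
MP_7d29a1_pr, attractor route [C1], SHELL: ONE SHELL (helper31). `shS31`: from a place of an edge row (node `a` of the tower of the scale
`b`) at the lateral distance `≥ Δ + 2 w_k` the future stays at the coarse row `R` of the scale `b - 1` outside of `w_k`. `far31`: the masses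
of the far places of the coarse row.
-/

set_option autoImplicit false

namespace Pool.Agent.W_7d29a1_C1.D31

open MeasureTheory ProbabilityTheory Filter Topology Finset
open Pool.Agent.W_7d29a1_F Pool.Agent.W_7d29a1_h4g Pool.Agent.W_7d29a1_H Pool.Agent.W_7d29a1_HS
open Pool.Agent.W_7d29a1_C1.S71 Pool.Agent.W_7d29a1_C1.Sw9 Pool.Agent.W_7d29a1_C1.H75 Pool.Agent.W_7d29a1_C1.U16
open Pool.Agent.W_7d29a1_C1.K91 (wt wt_pos Box)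
open Pool.Agent.W_7d29a1_C1.K91P (bw bw_pos)
open Pool.Agent.W_7d29a1_C1.FarK89 Pool.Agent.W_7d29a1_C1.FarW89
open Pool.Agent.W_7d29a1_C1.T10 (Gd GW pt Tg Hg Tg_zero Tg_pos Tg_Hg)
open Pool.Agent.W_7d29a1_C1.H60 (Cx sT)
open Pool.Agent.W_7d29a1_C1.G37 (Gm)
open Pool.Agent.W_7d29a1_C1.Ge74

noncomputable section

variable {μ : Measure ℝ} {s : ℝ} [IsProbabilityMeasure μ] {c C : ℝ} {n₀ : ℕ}

/-- **STAY, ONE SHELL.** -/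
theorem shS31 (h0 : In μ s c C n₀) (P : ℕ) {Kw θ : ℝ} (hKw : 6 ≤ Kw) (hθ : 0 < θ) : ∃ C₅ C₆ : ℝ, 0 < C₅ ∧ 0 < C₆ ∧
    ∃ n₁ : ℕ, 1 ≤ n₁ ∧
    ∀ {Γ : Cx} {ω : Env} {G : Gd} {GS : Gm} {h₀ Kg L b Mt : ℕ} {x : ℕ × ℤ} {N : ℕ → ℕ} {q : ℕ → ℝ} {bs : ℕ → Pt} {Q K₁ A Φ σ₁ : ℝ},
    (∀ k, k < Γ.M → Γ.p k = Real.exp (s + Γ.h)) → (∀ k, Γ.M ≤ k → Γ.p k = Real.exp s) → G.Ok L → (∀ v, G.H v = Hg h₀ Kg v) →
    (∀ u, 1 ≤ u → GS.T u = Tg h₀ Kg u) → GS.v = sl μ s → 2 ≤ b → b ≤ L →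
    Slabs μ s c θ (Kw - 2) Γ.h P ω (pt x) (rW31 G h₀ Kg x b) (sT (Tg h₀ Kg) b) N q bs 0 (2 * b) (2 * Tg h₀ Kg b) n₁ Q →
    (∀ u, u < 2 * b → θ * sT (Tg h₀ Kg) b u ≤ ((rW31 G h₀ Kg x b (u + 1) - rW31 G h₀ Kg x b u : ℕ) : ℝ)) →
    (G.z b x).1 + Tg h₀ Kg b ≤ Γ.N → (Γ.N : ℝ) + 1 ≤ Real.exp (EE μ s (2 * Tg h₀ Kg b)) → Tg h₀ Kg b ≤ (G.z b x).1 →
    Lr31 μ s (pt x) (Tg h₀ Kg) Mt K₁ A Φ σ₁ (bh16 μ s Γ.h ω Γ.p Γ.M Γ.N ((G.z b x).1 + Tg h₀ Kg b)) ((G.z b x).1 + Tg h₀ Kg b) b →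
    0 ≤ σ₁ → ∀ {τ k nb : ℕ} {Y δ Δ : ℝ}, τ ≤ b - 1 → b + nb ≤ Mt → 0 < δ → 0 ≤ Y →
    Y + 1 ≤ K₁ * wd μ s (Tg h₀ Kg (b + nb)) → Y + 1 + 2 * (Tg h₀ Kg b : ℝ) ≤ K₁ * wd μ s (Tg h₀ Kg Mt) →
    δ * (EE μ s (2 * Tg h₀ Kg b) / wd μ s (2 * Tg h₀ Kg b)) + σ₁ * (EE μ s (Tg h₀ Kg b) / wd μ s (Tg h₀ Kg b)) ≤
      hc μ s c (2 * Tg h₀ Kg b) / 8 →
    lst31 P c δ C₅ C₆ Q (Kw - 2) (wd μ s (2 * Tg h₀ Kg b)) Y * EE μ s (2 * Tg h₀ Kg b) + A * (Φ ^ nb * EE μ s (Tg h₀ Kg b)) +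
      σ₁ * (EE μ s (Tg h₀ Kg b) / wd μ s (Tg h₀ Kg b)) ≤
      (hc μ s c (2 * Tg h₀ Kg b) / 8 - δ * (EE μ s (2 * Tg h₀ Kg b) / wd μ s (2 * Tg h₀ Kg b)) -
        σ₁ * (EE μ s (Tg h₀ Kg b) / wd μ s (Tg h₀ Kg b))) * Δ →
    ∀ {R : ℕ}, (R : ℤ) ∈ GS.fr (b - 1) τ x → ∀ a, a < 2 * b →
    ∀ x' : ℤ, |lat16 μ s (pt x) ((rW31 G h₀ Kg x b a : ℤ), x')| ≤ Y → Δ + 2 * GS.w k ≤ |lat16 μ s (pt x) ((rW31 G h₀ Kg x b a : ℤ), x')| →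
    ∀ D : Finset ℤ, (∀ v ∈ D, v ∉ GS.fs k τ x R) →
      ∑ v ∈ D, ker (wt ω) Γ.p (rW31 G h₀ Kg x b a) (R - rW31 G h₀ Kg x b a) x' v *
        bw (wt ω) Γ.p (rW31 G h₀ Kg x b a + (R - rW31 G h₀ Kg x b a)) (Γ.N - (rW31 G h₀ Kg x b a + (R - rW31 G h₀ Kg x b a))) v ≤
        1 / 2 * bw (wt ω) Γ.p (rW31 G h₀ Kg x b a) (Γ.N - rW31 G h₀ Kg x b a) x' := by
  obtain ⟨C₅, C₆, hC₅, hC₆, n₂, hn₂, H⟩ := stayS31 h0 P (K := Kw - 2) (θ := θ) (by linarith) hθ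
  obtain ⟨n₅, hn₅⟩ := eventually_atTop.1 ((wd_tendsto h0).eventually_ge_atTop 2)
  refine ⟨C₅, C₆, hC₅, hC₆, max n₂ n₅, hn₂.trans (le_max_left _ _), ?_⟩
  intro Γ ω G GS h₀ Kg L b Mt x N q bs Q K₁ A Φ σ₁ hp hp' hok hH hT hv hb hbL S hlen hzN hN hrow hLr hσ₁ τ k nb Y δ Δ hτ hnb hδ hY hY1
    hY2 hδσ hnum R hR a ha x' hx' hx'' D hD
  have hwT : ∀ u, 0 ≤ u → u < 2 * b → 0 ≤ wd μ s (sT (Tg h₀ Kg) b u) := fun u h1 h2 => by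
    linarith [hn₅ _ ((le_max_right _ _).trans (S.T1 u h1 h2))]
  have hwt : 0 ≤ wd μ s (2 * Tg h₀ Kg b) := by linarith [hn₅ _ ((le_max_right _ _).trans S.Tt1)]
  have e2b : 2 * b - 1 + 1 = 2 * b := by omega
  have rtop : rW31 G h₀ Kg x b (2 * b) = (G.z b x).1 + Tg h₀ Kg b := by
    have := rW_up (G := G) (h₀ := h₀) (Kg := Kg) (x := x) (b := b) (u := b) (by omega) le_rfl
    rwa [show b + b = 2 * b by omega] at this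
  have rbot : rW31 G h₀ Kg x b 0 = (G.z b x).1 - Tg h₀ Kg b := by
    have := rW_low (G := G) (h₀ := h₀) (Kg := Kg) (x := x) (b := b) (u := b) (by omega) le_rfl
    rwa [Nat.sub_self] at this
  have rlast : rW31 G h₀ Kg x b (2 * b - 1) = (G.z (b - 1) x).1 + Tg h₀ Kg (b - 1) := by
    have := rW_up (G := G) (h₀ := h₀) (Kg := Kg) (x := x) (b := b) (u := b - 1) (by omega) (by omega)
    rwa [show b + (b - 1) = 2 * b - 1 by omega] at this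
  have hmono := r_mono (r := rW31 G h₀ Kg x b) (a := 0) (b := 2 * b) S.rr
  have ha0 : rW31 G h₀ Kg x b 0 ≤ rW31 G h₀ Kg x b a := by
    have := hmono a 0 le_rfl (by omega)
    rwa [Nat.zero_add] at this
  have hab : rW31 G h₀ Kg x b a ≤ rW31 G h₀ Kg x b (2 * b) := by
    have := hmono (2 * b - a) a (Nat.zero_le _) (by omega)
    rwa [show a + (2 * b - a) = 2 * b by omega] at this
  have S' := Slabs.sub31 S (a' := a) (b' := 2 * b - 1 + 1) (n' := n₂) (Nat.zero_le _) (by omega) (le_max_left _ _) hwT hwt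
  have hR1 : rW31 G h₀ Kg x b (2 * b - 1) ≤ R := by
    rw [rlast]
    have h1 := fr_lo0 (G := G) hT (b := b - 1) (j := b - 1) le_rfl hR
    exact_mod_cast h1
  have hR2 : R ≤ rW31 G h₀ Kg x b (2 * b - 1 + 1) := by
    rw [e2b, rtop]
    have h1 := (fr_up hok hH hT (j := b - 1) (by omega) (by omega) hτ hR).le
    rw [show b - 1 + 1 = b by omega] at h1
    exact_mod_cast h1
  have hD0 : ((rW31 G h₀ Kg x b (2 * b - 1 + 1) - rW31 G h₀ Kg x b a : ℕ) : ℝ) ≤ 2 * (Tg h₀ Kg b : ℝ) := by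
    have h1 : rW31 G h₀ Kg x b (2 * b - 1 + 1) - rW31 G h₀ Kg x b a ≤ 2 * Tg h₀ Kg b := by
      rw [e2b]
      omega
    exact_mod_cast h1
  refine H (a := a) (f := 2 * b - 1) (Tt := 2 * Tg h₀ Kg b) (R := R) (by omega) hp hp' S' (fun u h1 h2 => hlen u (by omega)) hR1 hR2
    (by rw [e2b, rtop]; exact hzN) hN (Y := Y) (D := 2 * (Tg h₀ Kg b : ℝ)) (r₀ := A * (Φ ^ nb * EE μ s (Tg h₀ Kg b)))
    (σ := σ₁ * (EE μ s (Tg h₀ Kg b) / wd μ s (Tg h₀ Kg b))) (δ := δ) (Δ := Δ) ?_ hδ hδσ hY ?_ hD0 hnum x' hx' D ?_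
  · have h1 : 0 ≤ EE μ s (Tg h₀ Kg b) := (EE_pos _).le
    have h2 : 0 ≤ wd μ s (Tg h₀ Kg b)   := h0.wd_nonneg _
    positivity
  · rw [e2b, rtop]
    intro y y₀ h1 h2
    refine hLr nb hnb y y₀ (h1.trans hY1) ?_
    have h3 : lat16 μ s (pt x) ((((G.z b x).1 + Tg h₀ Kg b : ℕ) : ℤ), y) = lat16 μ s (pt x) ((((G.z b x).1 + Tg h₀ Kg b : ℕ) : ℤ), y₀) +
        ((y : ℝ) - y₀) := by
      unfold lat16
      push_cast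
      ring
    rw [h3]
    refine (abs_add_le _ _).trans ?_
    linarith
  · intro v hvD
    have h1 := nfs_lat (μ := μ) (s := s) hv (hD v hvD)
    have h2 := abs_sub_abs_le_abs_sub (lat16 μ s (pt x) ((rW31 G h₀ Kg x b a : ℤ), x')) (lat16 μ s (pt x) ((R : ℤ), v))
    rw [abs_sub_comm (lat16 μ s (pt x) ((rW31 G h₀ Kg x b a : ℤ), x'))] at h2
    linarith

end

end Pool.Agent.W_7d29a1_C1.D31
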