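import Pool.Agent.W_7d29a1_C1.FreN24

/-!
MP_7d29a1_pr, [C1] SHELL, E4 (helper24): SHIFT COVARIANCE OF THE EXIT. The facts of `freD24` / `freN24` at `sh z η` are the facts at `η`
with the base moved by `z`. `FX24`: the facts of the exit with one base. `freX24`: `freN24` for every shift of the event.
-/

set_option autoImplicit false

namespace Pool.Agent.W_7d29a1_C1.P24

open MeasureTheory ProbabilityTheory Filter Topology Finset
open Pool.Agent.W_7d29a1_F Pool.Agent.W_7d29a1_h4g Pool.Agent.W_7d29a1_H Pool.Agent.W_7d29a1_HS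
open Pool.Agent.W_7d29a1_C1
open Pool.Agent.W_7d29a1_C1.CR76 Pool.Agent.W_7d29a1_C1.Basin76
open Pool.Agent.W_7d29a1_C1.U16 (lat16)
open Pool.Agent.W_7d29a1_C1.FarK89 (gr gr_nonneg gr_one_le)
open Pool.Agent.W_7d29a1_C1.Fr47 (K247)
open Pool.Agent.W_7d29a1_C1.JnC35 (ln35)
open Pool.Agent.W_7d29a1_C1.JnE35 (Ex35)
open Pool.Agent.W_7d29a1_C1.S83 (RowG)

noncomputable section

variable {μ : Measure ℝ} {s c C : ℝ} {n₀ : ℕ}

/-! ### One kernel -/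

theorem kW_sh24 (η : Env) (z : Pt) (r : ℤ) (n : ℕ) (x y : ℤ) :
    kW μ s (sh z η) r n x y = kW μ s η (r + z.1) n (x + z.2) (y + z.2) := by
  unfold kW
  rw [W_sh, add_sub_add_right_eq_sub]
  rfl

theorem rowG_sh24 (z : Pt) (η : Env) (r y : ℤ) (R t : ℝ) : sh z η ∈ RowG r y R t ↔ η ∈ RowG (r + z.1) (y + z.2) R t := by
  constructor
  · intro H x
    have h := H (x - z.2)
    have e1 : sh z η (r, x - z.2) = η (r + z.1, x) := by
      show η ((r, x - z.2) + z) = _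
      congr 1
      exact Prod.ext rfl (by show x - z.2 + z.2 = x; ring)
    have e2 : x - z.2 - y = x - (y + z.2) := by ring
    rw [e1, e2] at h
    exact h
  · intro H x
    have h := H (x + z.2)
    have e2 : x + z.2 - (y + z.2) = x - y := by ring
    rw [e2] at h
    exact h

theorem EVR24_sh (n P : ℕ) (lo hi : ℤ) (b z : Pt) (q : ℝ) (η : Env) :
    sh z η ∈ EVR24 μ s c n P lo hi b q ↔ η ∈ EVR24 μ s c n P (lo + z.1) (hi + z.1) (b + z) q := by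
  have key : ∀ p : Pt, lat16 μ s (b + z) (p + z) = lat16 μ s b p := by
    intro p
    unfold lat16
    have e1 : (p + z).2 - (b + z).2 = p.2 - b.2 := by simp
    have e2 : (p + z).1 - (b + z).1 = p.1 - b.1 := by simp
    rw [e1, e2]
  constructor
  · intro H p j h1 h2 y
    have h3 := H (p - z) j (by
      show lo ≤ p.1 - z.1
      omega) (by
      show p.1 - z.1 + j ≤ hi
      omega) y
    rw [W_sh, sub_add_cancel] at h3
    have h4 := key (p - z)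
    rw [sub_add_cancel] at h4
    rw [← h4] at h3
    exact h3
  · intro H p j h1 h2 y
    rw [W_sh]
    have h3 := H (p + z) j (by
      show lo + z.1 ≤ p.1 + z.1
      omega) (by
      show p.1 + z.1 + j ≤ hi + z.1
      omega) y
    rw [key] at h3
    exact h3

section det

variable {k k' : ℤ → ℤ → ℝ} {Q Q' : ℤ → ℤ → Prop} {ca cb ca' cb' w E U G β h : ℝ} {v₀ : ℤ}

theorem Sl24.shift (H : Sl24 k ca cb w E U β h) (hk : ∀ v z, k v z = k' (v + v₀) (z + v₀)) (h1 : ca' = ca + v₀) (h2 : cb' = cb + v₀) :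
    Sl24 k' ca' cb' w E U β h := by
  intro v z
  have g := H (v - v₀) (z - v₀)
  rw [hk, sub_add_cancel, sub_add_cancel] at g
  have e1 : ((v - v₀ : ℤ) : ℝ) - ca = v - ca' := by rw [h1]; push_cast; ring
  have e2 : ((z - v₀ : ℤ) : ℝ) - cb = z - cb' := by rw [h2]; push_cast; ring
  rw [e1, e2] at g
  exact g

theorem Of24.shift (H : Of24 k Q ca cb w E G β h) (hk : ∀ v z, k v z = k' (v + v₀) (z + v₀)) (h1 : ca' = ca + v₀) (h2 : cb' = cb + v₀)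
    (hQ : ∀ v z, Q' v z → Q (v - v₀) (z - v₀)) : Of24 k' Q' ca' cb' w E G β h := by
  intro v z hv
  have g := H (v - v₀) (z - v₀) (hQ v z hv)
  rw [hk, sub_add_cancel, sub_add_cancel] at g
  have e1 : ((v - v₀ : ℤ) : ℝ) - ca = v - ca' := by rw [h1]; push_cast; ring
  have e2 : ((z - v₀ : ℤ) : ℝ) - cb = z - cb' := by rw [h2]; push_cast; ring
  rw [e1, e2] at g
  exact g

theorem mem_Ce24_sh {y e v₀ : ℤ} {ρ : ℝ} (h : y ∈ Ce24 (e + v₀) ρ) : y - v₀ ∈ Ce24 e ρ := by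
  rw [mem_Ce24] at h ⊢
  have e1 : ((y - v₀ : ℤ) : ℝ) - e = y - (e + v₀ : ℤ) := by push_cast; ring
  rw [e1]
  exact h

end det

/-! ### One block -/

theorem XO24.shift {η : Env} {b z : Pt} {n T m' : ℕ} {e : ℤ} {ρ U β h G K ε : ℝ} (H : XO24 μ s (sh z η) b n T m' e ρ U β h G K ε) :
    XO24 μ s η (b + z) n T m' (e + z.2) ρ U β h G K ε := by
  have hb1 : (b + z).1 = b.1 + z.1 := rfl
  have hb2 : (b + z).2 = b.2 + z.2 := rfl
  have hb : (((b + z).2 : ℤ) : ℝ) = (b.2 : ℝ) + (z.2 : ℤ) := by rw [hb2]; push_cast; ring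
  have kF : ∀ v y : ℤ, kW μ s (sh z η) b.1 T v y = kW μ s η (b + z).1 T (v + z.2) (y + z.2) := fun v y => kW_sh24 η z b.1 T v y
  have kA : ∀ v y : ℤ, kW μ s (sh z η) b.1 n v y = kW μ s η (b + z).1 n (v + z.2) (y + z.2) := fun v y => kW_sh24 η z b.1 n v y
  have kR : ∀ v y : ℤ, kW μ s (sh z η) (b.1 + T) m' v y = kW μ s η ((b + z).1 + T) m' (v + z.2) (y + z.2) := fun v y => by
    rw [kW_sh24 η z (b.1 + T) m' v y, hb1]
    congr 1
    ring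
  have c1 : ∀ (y : ℤ) (x : ℝ), |(y : ℝ) - ((b + z).2 + x)| = |((y - z.2 : ℤ) : ℝ) - (b.2 + x)| := fun y x => by
    rw [hb]
    push_cast
    congr 1
    ring
  have kF' : ∀ v y : ℤ, kW μ s η (b + z).1 T v y = kW μ s (sh z η) b.1 T (v - z.2) (y - z.2) := fun v y => by
    rw [kF, sub_add_cancel, sub_add_cancel]
  have kA' : ∀ v y : ℤ, kW μ s η (b + z).1 n v y = kW μ s (sh z η) b.1 n (v - z.2) (y - z.2) := fun v y => by
    rw [kA, sub_add_cancel, sub_add_cancel]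
  have kR' : ∀ v y : ℤ, kW μ s η ((b + z).1 + T) m' v y = kW μ s (sh z η) (b.1 + T) m' (v - z.2) (y - z.2) := fun v y => by
    rw [kR, sub_add_cancel, sub_add_cancel]
  refine ⟨H.upF.shift kF hb (by rw [hb]; ring), H.upR.shift kR (by rw [hb]; ring) (by rw [hb]; ring), H.upA.shift kA hb (by rw [hb]; ring),
    ?_, ?_, ?_, ?_, ?_, ?_⟩
  · rw [kF', hb2, add_sub_cancel_right, add_sub_cancel_right]
    exact H.loF
  · intro y hy x hx
    rw [c1] at hx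
    rw [kR']
    exact H.loR (y - z.2) (mem_Ce24_sh hy) (x - z.2) hx
  · intro x hx
    rw [c1] at hx
    rw [kA', hb2, add_sub_cancel_right]
    exact H.loA (x - z.2) hx
  · refine H.offF.shift kF hb (by rw [hb]; ring) fun v y hv hc => hv ?_
    have e1 : ((v - z.2 : ℤ) : ℝ) - b.2 = v - ((b + z).2 : ℤ) := by rw [hb]; push_cast; ring
    have e2 : ((y - z.2 : ℤ) : ℝ) - e = y - (e + z.2 : ℤ) := by push_cast; ring
    rw [e1, e2] at hc
    exact hc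
  · refine H.offA.shift kA hb (by rw [hb]; ring) fun v y hv hc => hv ?_
    have e1 : ((v - z.2 : ℤ) : ℝ) - b.2 = v - ((b + z).2 : ℤ) := by rw [hb]; push_cast; ring
    rw [e1] at hc
    exact hc
  · intro y hy y' hy' x x' hx hx'
    rw [c1] at hx hx'
    rw [kR', kR', kR', kR']
    exact H.rk (y - z.2) (mem_Ce24_sh hy) (y' - z.2) (mem_Ce24_sh hy') (x - z.2) (x' - z.2) hx hx'

theorem pt24_sh (b z : Pt) (T : ℕ) : pt24 μ s (b + z) T = pt24 μ s b T + z.2 := by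
  unfold pt24
  show b.2 + z.2 + _ = _
  ring

/-! ### The exit -/

theorem XD24.shift {η : Env} {z : Pt} {e a a' : ℤ} {n T P : ℕ} {ρ U β h G K ε q κ : ℝ}
    (H : XD24 μ s (sh z η) e a a' n T P ρ U β h G K ε q κ) :
    XD24 μ s η (e + z.1) (a + z.2) (a' + z.2) n T P ρ U β h G K ε q κ := by
  have kD : ∀ v y : ℤ, kW μ s (sh z η) e (n + n) v y = kW μ s η (e + z.1) (n + n) (v + z.2) (y + z.2) := fun v y =>
    kW_sh24 η z e (n + n) v y
  have kD' : ∀ v y : ℤ, kW μ s η (e + z.1) (n + n) v y = kW μ s (sh z η) e (n + n) (v - z.2) (y - z.2) := fun v y => by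
    rw [kD, sub_add_cancel, sub_add_cancel]
  have hb : ((a + z.2 : ℤ) : ℝ) = (a : ℝ) + (z.2 : ℤ) := by push_cast; ring
  have c0 : ∀ v : ℤ, (v : ℝ) - ((a + z.2 : ℤ) : ℝ) = ((v - z.2 : ℤ) : ℝ) - a := fun v => by push_cast; ring
  have c1 : ∀ (y : ℤ) (x : ℝ), (y : ℝ) - (((a + z.2 : ℤ) : ℝ) + x) = ((y - z.2 : ℤ) : ℝ) - (a + x) := fun y x => by
    push_cast
    ring
  have e1 : ((e, a) : Pt) + z = (e + z.1, a + z.2) := rfl
  have e2 : ((e + n, a') : Pt) + z = (e + z.1 + n, a' + z.2) := Prod.ext (by show e + n + z.1 = e + z.1 + n; ring) rfl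
  refine ⟨?_, ?_, H.up.shift kD hb (by rw [hb]; ring), ?_, ?_, ?_, ?_, ?_⟩
  · have g := H.X1.shift
    rw [← pt24_sh, e1] at g
    exact g
  · have g := H.X2.shift
    rw [← pt24_sh, e2] at g
    exact g
  · refine H.off.shift kD hb (by rw [hb]; ring) fun v y hv hc => hv ?_
    rw [c0]
    exact hc
  · intro y hy
    rw [c1] at hy
    rw [kD', add_sub_cancel_right]
    exact H.lo (y - z.2) hy
  · intro v hv y
    rw [c0] at hv
    rw [c1, c0, kD', kD', add_sub_cancel_right]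
    exact H.cell (v - z.2) hv (y - z.2)
  · intro v y
    rw [c1, c0, kD']
    exact H.en (v - z.2) (y - z.2)
  · intro v y hv
    rw [c0] at hv
    rw [c1, c0, kD']
    exact H.ofe (v - z.2) (y - z.2) hv

/-- **The facts of the exit of the fresh ball with one base.** -/
structure FX24 (μ : Measure ℝ) (s c : ℝ) (η : Env) (e : ℕ) (a a' : ℤ) (n T Tt P : ℕ) (d U β q G K ε R u : ℝ) : Prop where
  D : XD24 μ s η (e : ℤ) a a' n T P (d * wd μ s T) U β (c / 2048) (32 * G) K ε q (c / 4096)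
  V1 : η ∈ EVR24 μ s (c / 512) n P (e : ℤ) ((e : ℤ) + n) ((e : ℤ), a) q
  V2 : η ∈ EVR24 μ s (c / 512) n P ((e : ℤ) + n) ((e : ℤ) + n + n) ((e : ℤ) + n, a') q
  r1 : η ∈ RowG ((e : ℤ) + T) (pt24 μ s ((e : ℤ), a) T) (wd μ s Tt) (u * EE μ s Tt)
  r2 : η ∈ RowG ((e : ℤ) + n) a' (wd μ s Tt) (u * EE μ s Tt)
  r3 : η ∈ RowG ((e : ℤ) + n + T) (pt24 μ s ((e : ℤ) + n, a') T) (wd μ s Tt) (u * EE μ s Tt)
  r4 : η ∈ RowG ((e : ℤ) + n + n) (pt24 μ s ((e : ℤ) + n, a') n) (wd μ s Tt) (u * EE μ s Tt)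
  ex : ∀ (hh : ℝ) (w : ℕ → ℝ) (M : ℕ) (κ : Pt), (∀ k, k < M → w k = Real.exp (s + hh)) → (∀ k, M ≤ k → w k = Real.exp s) →
    |hh| * (n + n : ℕ) ≤ 1 → |(a : ℝ) - ln35 μ s κ e| ≤ R * wd μ s Tt →
    ∀ δ' : Finset ℤ, δ'.Nonempty → (∀ z ∈ δ', |(z : ℝ) - (a + sl μ s * (n + n + 1 : ℕ))| ≤ wd μ s Tt / 64) →
    Ex35 P ((q + 2) * gr P (32 * R + 32)) (c / 262144) (U + 2) G (EE μ s Tt) (wd μ s Tt) (ln35 μ s κ e)
      (ln35 μ s κ (e + (n + n + 1))) a (n + n + 1) (Ce24 a (d * wd μ s T)) δ' (K247 μ s hh η w M e (n + n))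

/-- **THE EXIT OF THE FRESH BALL, EVERY SHIFT.** -/
theorem freX24 [IsProbabilityMeasure μ] (h : In μ s c C n₀) : ∃ c' : ℝ, 0 < c' ∧ ∀ β ρ₀ R u : ℝ, 0 < β → 0 < ρ₀ → 0 ≤ R → 0 < u →
    ∃ (P : ℕ) (d U q : ℝ), 0 < d ∧ d ≤ ρ₀ ∧ d ≤ 1 ∧ 0 ≤ U ∧ 0 ≤ q ∧ ∀ G K : ℝ, 0 ≤ G → 0 ≤ K →
    ∃ (p : ℝ) (Q n₁ : ℕ), 0 < p ∧ 1 ≤ Q ∧ 1 ≤ n₁ ∧ ∀ t : ℕ, n₁ ≤ t → ∀ T n Tt : ℕ, T = Q * t → n = 6 * T → Tt = 32 * T →
    ∀ (e : ℕ) (a a' : ℤ), |(a' : ℝ) - (a + sl μ s * n)| ≤ wd μ s n → ∃ Λ : Set Env, MeasurableSet Λ ∧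
      On20 (rows (e : ℤ) ((e : ℤ) + n + n)) Λ ∧ p ≤ (law μ).real Λ ∧ ∀ (z : Pt) (η : Env), sh z η ∈ Λ → ∀ e' : ℕ, (e' : ℤ) = e + z.1 →
        FX24 μ s c η e' (a + z.2) (a' + z.2) n T Tt P d U β q G K (Real.exp (-(n : ℝ) ^ c')) R u := by
  obtain ⟨c', hc', H⟩ := freN24 h
  have h0 := h.c0
  have hc1 := h.c1
  refine ⟨c', hc', fun β ρ₀ R u hβ hρ₀ hR hu => ?_⟩
  obtain ⟨P, d, U, q, hd, hdρ, hd1, hU, hq, H⟩ := H β ρ₀ R u hβ hρ₀ hR hu
  refine ⟨P, d, U, q, hd, hdρ, hd1, hU, hq, fun G K hG hK => ?_⟩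
  obtain ⟨p, Q, n₁, hp, hQ, hn₁, H⟩ := H G K hG hK
  obtain ⟨nw, hnw⟩ := eventually_atTop.1 ((wd_tendsto h).eventually_ge_atTop 2)
  obtain ⟨ne, hne⟩ := eventually_atTop.1 (h.tE.eventually_ge_atTop (Real.log (Real.exp 1 * (1 + Real.exp (|s| + 1)))))
  refine ⟨p, Q, n₁ + (nw + ne), hp, hQ, by omega, fun t ht T n Tt hT hn hTt e a a' haa => ?_⟩
  have htT : t ≤ T := by rw [hT]; exact Nat.le_mul_of_pos_left t (by omega)
  obtain ⟨Λ, m1, o1, p1, H⟩ := H t (by omega) T n Tt hT hn hTt e a a' haa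
  have hn1 : 1 ≤ n := by omega
  have hwn2 : 2 ≤ wd μ s n := hnw n (by omega)
  have hC := cmp24 h hn1 (by omega : n ≤ Tt) (by omega : Tt ≤ 16 * n) (by linarith)
  refine ⟨Λ, m1, o1, p1, fun z η hη e' he' => ?_⟩
  obtain ⟨D, ⟨V1, V2⟩, ⟨r1, r2, r3, r4⟩, _⟩ := H (sh z η) hη
  have D' := D.shift
  rw [← he'] at D'
  have ea : ∀ m : ℤ, (e : ℤ) + m + z.1 = (e' : ℤ) + m := fun m => by rw [he']; ring
  have ea2 : ∀ m m' : ℤ, (e : ℤ) + m + m' + z.1 = (e' : ℤ) + m + m' := fun m m' => by rw [he']; ring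
  have eb : ((e : ℤ), a) + z = (((e' : ℤ), a + z.2) : Pt) := Prod.ext he'.symm rfl
  have eb2 : ((e : ℤ) + n, a') + z = (((e' : ℤ) + n, a' + z.2) : Pt) := Prod.ext (ea n) rfl
  rw [EVR24_sh, ← he', ea, eb] at V1
  rw [EVR24_sh, ea, ea2, eb2] at V2
  rw [rowG_sh24, ea, ← pt24_sh, eb] at r1
  rw [rowG_sh24, ea] at r2
  rw [rowG_sh24, ea2, ← pt24_sh, eb2] at r3
  rw [rowG_sh24, ea2, ← pt24_sh, eb2] at r4
  refine ⟨D', V1, V2, r1, r2, r3, r4, fun hh w M κ hw hw' hhn ha δ' hnem hδ => ?_⟩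
  have hX := ex_of_xd24 (R := R) (κ := κ) (Tt := Tt) D' hw hw' h.sl_pos.le h.sl_lt.le hn1 hhn hwn2 (by
    have g1 := hne n (by omega)
    rwa [Real.log_le_iff_le_exp (by positivity)] at g1) hC.e1 hC.e2 hC.a1 hC.a2 hq (by positivity) (by linarith) hU (by positivity) hR ha
    (mul_nonneg hd.le (wd_pos96 h (by omega)).le) hnem hδ
  have e1 : 32 * G / 32 = G := by ring
  have e2 : c / 4096 / 64 = c / 262144 := by ring
  rw [e1, e2] at hX
  exact hX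

end

end Pool.Agent.W_7d29a1_C1.P24
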