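import Pool.Agent.W_7d29a1_C1.CR76

/-!
MP_7d29a1_pr, attractor route [C1], SHELL (board 76095, 76367): THE DETERMINISTIC CORE OF THE COMPARISON AT ONE SHELL.
(helper28)

One row `ρ`; `S` = sites of the row, `m`, `r` = probability laws of the row position of the left / right path (masses from
the past times future mass over the partition function), `om x x'` in `[0,1]` = probability of `no meeting up to the contact
c and contact c` for the paths which start in `x < x'`.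

* `wt S m r om` : the weight of the contact, seen from the row;
* `wt_le`, `exists_best` : `wt G m r om ≤ om x x'` for the best ordered pair of `G`: NO number of cells, no property of the
  arms;
* `new_ge` : if the two laws sit in two cells `C < C'` up to `δ` then `(1 - 2δ) inf om ≤ wt S m r om`;
* `tv_of_CR` : total variation of two starts of one cell from the cross ratio of the next sub block;
* `om_flat`, `om_same` : `om` changes by at most the total variations inside the cells; inside one cell it is small;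
* `markov` : the weight is the same from every row;
* `core` : `w_old ≤ 5/4/(1-2δ) w_new + errors`;
* `lane_dom` : the law of one path from three classes of routes.
-/

set_option autoImplicit false
set_option linter.unusedSectionVars false

namespace Pool.Agent.W_7d29a1_C1.Shell28

open Finset Pool.Agent.W_7d29a1_C1.Gini76 Pool.Agent.W_7d29a1_C1.CR76

noncomputable section

variable {ι κ σ τ : Type*} [LinearOrder ι] [LinearOrder κ] [LinearOrder σ]

/-- the weight of the contact seen from a row -/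
def wt (S : Finset κ) (m r : κ → ℝ) (om : κ → κ → ℝ) : ℝ := P2 S (fun x x' => NI m r x x' * om x x')

/-- The weight of the pairs of `G` is at most the supremum of `om` on `G`. -/
theorem wt_le {G : Finset κ} {m r : κ → ℝ} {om : κ → κ → ℝ} (hm : ∀ x ∈ G, 0 ≤ m x) (hr : ∀ x ∈ G, 0 ≤ r x)
    (hm1 : ∑ x ∈ G, m x ≤ 1) (hr1 : ∑ x ∈ G, r x ≤ 1) (ho : ∀ x ∈ G, ∀ x' ∈ G, x < x' → 0 ≤ om x x') {s : ℝ}
    (hs0 : 0 ≤ s) (hs : ∀ x ∈ G, ∀ x' ∈ G, x < x' → om x x' ≤ s) : wt G m r om ≤ s := by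
  have h1 : wt G m r om ≤ ∑ x ∈ G, ∑ x' ∈ G, s * (m x * r x') := by
    unfold wt P2
    refine sum_le_sum fun x hx => sum_le_sum fun x' hx' => ?_
    have p := mul_nonneg (hm x hx) (hr x' hx')
    have p' := mul_nonneg (hm x' hx') (hr x hx)
    split_ifs with hlt
    · unfold NI
      have a := ho x hx x' hx' hlt
      have b := hs x hx x' hx' hlt
      nlinarith [mul_nonneg p' a, mul_le_mul_of_nonneg_left b p]
    · exact mul_nonneg hs0 p
  have h2 : ∑ x ∈ G, ∑ x' ∈ G, s * (m x * r x') = s * ((∑ x ∈ G, m x) * ∑ x ∈ G, r x) := by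
    rw [sum_mul_sum, mul_sum]
    exact sum_congr rfl fun x _ => by rw [mul_sum]
  have a0 : 0 ≤ ∑ x ∈ G, m x := sum_nonneg hm
  have b0 : 0 ≤ ∑ x ∈ G, r x := sum_nonneg hr
  have h3 : (∑ x ∈ G, m x) * ∑ x ∈ G, r x ≤ 1 := mul_le_one₀ hm1 b0 hr1
  calc wt G m r om ≤ s * ((∑ x ∈ G, m x) * ∑ x ∈ G, r x) := h1.trans h2.le
    _ ≤ s * 1 := mul_le_mul_of_nonneg_left h3 hs0
    _ = s := mul_one s

/-- Either there is no ordered pair and the weight is `0`, or the best ordered pair bounds it. -/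
theorem exists_best {G : Finset κ} {m r : κ → ℝ} {om : κ → κ → ℝ} (hm : ∀ x ∈ G, 0 ≤ m x) (hr : ∀ x ∈ G, 0 ≤ r x)
    (hm1 : ∑ x ∈ G, m x ≤ 1) (hr1 : ∑ x ∈ G, r x ≤ 1) (ho : ∀ x ∈ G, ∀ x' ∈ G, x < x' → 0 ≤ om x x') :
    wt G m r om = 0 ∨ ∃ x ∈ G, ∃ x' ∈ G, x < x' ∧ (∀ y ∈ G, ∀ y' ∈ G, y < y' → om y y' ≤ om x x') ∧
      wt G m r om ≤ om x x' := by
  classical
  rcases ((G ×ˢ G).filter fun p => p.1 < p.2).eq_empty_or_nonempty with h0 | hne
  · left
    unfold wt P2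
    refine sum_eq_zero fun x hx => sum_eq_zero fun x' hx' => ?_
    rw [if_neg]
    intro hlt
    have : (x, x') ∈ (G ×ˢ G).filter fun p => p.1 < p.2 := mem_filter.2 ⟨mem_product.2 ⟨hx, hx'⟩, hlt⟩
    rw [h0] at this
    exact absurd this (notMem_empty _)
  · right
    obtain ⟨p, hp, hmax⟩ := exists_max_image _ (fun p : κ × κ => om p.1 p.2) hne
    obtain ⟨hp1, hp2⟩ := mem_filter.1 hp
    obtain ⟨hx, hx'⟩ := mem_product.1 hp1
    have hb : ∀ y ∈ G, ∀ y' ∈ G, y < y' → om y y' ≤ om p.1 p.2 := fun y hy y' hy' hlt =>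
      hmax (y, y') (mem_filter.2 ⟨mem_product.2 ⟨hy, hy'⟩, hlt⟩)
    exact ⟨p.1, hx, p.2, hx', hp2, hb, wt_le hm hr hm1 hr1 ho (ho _ hx _ hx' hp2) hb⟩

/-- The pairs in two ordered cells: exact. -/
theorem new_ge {S C C' : Finset κ} (hC : C ⊆ S) (hC' : C' ⊆ S) (hlt : ∀ x ∈ C, ∀ x' ∈ C', x < x') {m r : κ → ℝ}
    {om : κ → κ → ℝ} (hni : ∀ x ∈ S, ∀ x' ∈ S, x < x' → 0 ≤ NI m r x x')
    (ho : ∀ x ∈ S, ∀ x' ∈ S, x < x' → 0 ≤ om x x') {s : ℝ} (hs : ∀ x ∈ C, ∀ x' ∈ C', s ≤ om x x') :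
    ((∑ x ∈ C, m x) * (∑ x ∈ C', r x) - (∑ x ∈ C', m x) * ∑ x ∈ C, r x) * s ≤ wt S m r om := by
  have h1 : ∑ x ∈ C, ∑ x' ∈ C', NI m r x x' * om x x' ≤ wt S m r om := by
    unfold wt P2
    refine (sum_le_sum fun x hx => ?_).trans (sum_le_sum_of_subset_of_nonneg hC fun x hx _ => ?_)
    · calc ∑ x' ∈ C', NI m r x x' * om x x' = ∑ x' ∈ C', (if x < x' then NI m r x x' * om x x' else 0) :=
            sum_congr rfl fun x' hx' => by rw [if_pos (hlt x hx x' hx')]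
        _ ≤ ∑ x' ∈ S, (if x < x' then NI m r x x' * om x x' else 0) := by
            refine sum_le_sum_of_subset_of_nonneg hC' fun x' hx' _ => ?_
            split_ifs with h
            · exact mul_nonneg (hni x (hC hx) x' hx' h) (ho x (hC hx) x' hx' h)
            · exact le_rfl
    · refine sum_nonneg fun x' hx' => ?_
      split_ifs with h
      · exact mul_nonneg (hni x hx x' hx' h) (ho x hx x' hx' h)
      · exact le_rfl
  have h2 : ∑ x ∈ C, ∑ x' ∈ C', NI m r x x' * s ≤ ∑ x ∈ C, ∑ x' ∈ C', NI m r x x' * om x x' := by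
    refine sum_le_sum fun x hx => sum_le_sum fun x' hx' => ?_
    exact mul_le_mul_of_nonneg_left (hs x hx x' hx') (hni x (hC hx) x' (hC' hx') (hlt x hx x' hx'))
  have h3 : ∑ x ∈ C, ∑ x' ∈ C', NI m r x x' * s =
      ((∑ x ∈ C, m x) * (∑ x ∈ C', r x) - (∑ x ∈ C', m x) * ∑ x ∈ C, r x) * s := by
    have e1 : (∑ x ∈ C, m x) * (∑ x ∈ C', r x) = ∑ x ∈ C, ∑ x' ∈ C', m x * r x' := sum_mul_sum _ _ _ _
    have e2 : (∑ x ∈ C', m x) * (∑ x ∈ C, r x) = ∑ x ∈ C, ∑ x' ∈ C', m x' * r x := by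
      rw [mul_comm, sum_mul_sum]
      exact sum_congr rfl fun x _ => sum_congr rfl fun x' _ => mul_comm _ _
    rw [e1, e2, ← sum_sub_distrib, sum_mul]
    refine sum_congr rfl fun x _ => ?_
    rw [← sum_sub_distrib, sum_mul]
    exact sum_congr rfl fun x' _ => rfl
  rw [← h3]
  exact h2.trans h1

/-- Two laws which sit in `C`, `C'` up to `δ`. -/
theorem new_ge' {S C C' : Finset κ} (hC : C ⊆ S) (hC' : C' ⊆ S) (hlt : ∀ x ∈ C, ∀ x' ∈ C', x < x') {m r : κ → ℝ}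
    {om : κ → κ → ℝ} (hm : ∀ x ∈ S, 0 ≤ m x) (hr : ∀ x ∈ S, 0 ≤ r x) (hm1 : ∑ x ∈ S, m x ≤ 1) (hr1 : ∑ x ∈ S, r x ≤ 1)
    (hni : ∀ x ∈ S, ∀ x' ∈ S, x < x' → 0 ≤ NI m r x x')
    (ho : ∀ x ∈ S, ∀ x' ∈ S, x < x' → 0 ≤ om x x') {s δ : ℝ} (hs0 : 0 ≤ s) (hs : ∀ x ∈ C, ∀ x' ∈ C', s ≤ om x x')
    (hδ1 : δ ≤ 1) (hmC : 1 - δ ≤ ∑ x ∈ C, m x) (hrC : 1 - δ ≤ ∑ x ∈ C', r x) :
    (1 - 2 * δ) * s ≤ wt S m r om := by
  have hd : Disjoint C C' := disjoint_left.2 fun x hx hx' => absurd (hlt x hx x hx') (lt_irrefl x)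
  have hU : C ∪ C' ⊆ S := union_subset hC hC'
  have a1 : (∑ x ∈ C, m x) + ∑ x ∈ C', m x ≤ 1 := by
    rw [← sum_union hd]
    exact (sum_le_sum_of_subset_of_nonneg hU fun x hx _ => hm x hx).trans hm1
  have a2 : (∑ x ∈ C, r x) + ∑ x ∈ C', r x ≤ 1 := by
    rw [← sum_union hd]
    exact (sum_le_sum_of_subset_of_nonneg hU fun x hx _ => hr x hx).trans hr1
  have b1 : 0 ≤ ∑ x ∈ C', m x := sum_nonneg fun x hx => hm x (hC' hx)
  have b2 : 0 ≤ ∑ x ∈ C, r x := sum_nonneg fun x hx => hr x (hC hx)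
  have key := new_ge hC hC' hlt hni ho hs
  refine le_trans (mul_le_mul_of_nonneg_right ?_ hs0) key
  have c1 : ∑ x ∈ C', m x ≤ δ := by linarith
  have c2 : ∑ x ∈ C, r x ≤ δ := by linarith
  have d1 : (1 - δ) * (1 - δ) ≤ (∑ x ∈ C, m x) * ∑ x ∈ C', r x :=
    mul_le_mul hmC hrC (by linarith) (le_trans (by linarith) hmC)
  have d2 : (∑ x ∈ C', m x) * (∑ x ∈ C, r x) ≤ δ * δ := mul_le_mul c1 c2 b2 (b1.trans c1)
  nlinarith

/-! ### flatness -/

/-- total variation (without the factor `1/2`) -/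
def tv (S : Finset σ) (p q : σ → ℝ) : ℝ := ∑ z ∈ S, |p z - q z|

theorem tv_nonneg (S : Finset σ) (p q : σ → ℝ) : 0 ≤ tv S p q := sum_nonneg fun _ _ => abs_nonneg _

theorem tv_comm (S : Finset σ) (p q : σ → ℝ) : tv S p q = tv S q p :=
  sum_congr rfl fun _ _ => abs_sub_comm _ _

/-- `om` of two pairs of starts: additive error = sum of the total variations. -/
theorem om_flat {S : Finset σ} {p p' q q' : σ → ℝ} {om : σ → σ → ℝ} (hp' : ∀ z ∈ S, 0 ≤ p' z)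
    (hq : ∀ z ∈ S, 0 ≤ q z) (hp1 : ∑ z ∈ S, p' z ≤ 1) (hq1 : ∑ z ∈ S, q z ≤ 1)
    (h0 : ∀ z ∈ S, ∀ z' ∈ S, z < z' → 0 ≤ om z z') (h1 : ∀ z ∈ S, ∀ z' ∈ S, z < z' → om z z' ≤ 1) :
    wt S p p' om ≤ wt S q q' om + (tv S p q + tv S p' q') := by
  classical
  have e : wt S p p' om - wt S q q' om ≤
      ∑ z ∈ S, ∑ z' ∈ S, (|p z - q z| * p' z' + q z * |p' z' - q' z'|) := by
    have s1 : wt S p p' om - wt S q q' om = ∑ z ∈ S, ∑ z' ∈ S,
        ((if z < z' then (p z * p' z' - q z * q' z') * om z z' else 0) -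
          (if z < z' then (p z' * p' z - q z' * q' z) * om z z' else 0)) := by
      unfold wt P2
      rw [← sum_sub_distrib]
      refine sum_congr rfl fun z _ => ?_
      rw [← sum_sub_distrib]
      refine sum_congr rfl fun z' _ => ?_
      split_ifs
      · simp only [NI]; ring
      · ring
    have s2 : ∑ z ∈ S, ∑ z' ∈ S, (if z < z' then (p z' * p' z - q z' * q' z) * om z z' else 0) =
        ∑ z ∈ S, ∑ z' ∈ S, (if z' < z then (p z * p' z' - q z * q' z') * om z' z else 0) := by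
      rw [sum_comm]
    rw [s1]
    have s3 : ∑ z ∈ S, ∑ z' ∈ S, ((if z < z' then (p z * p' z' - q z * q' z') * om z z' else 0) -
          (if z < z' then (p z' * p' z - q z' * q' z) * om z z' else 0)) =
        ∑ z ∈ S, ∑ z' ∈ S, ((if z < z' then (p z * p' z' - q z * q' z') * om z z' else 0) -
          (if z' < z then (p z * p' z' - q z * q' z') * om z' z else 0)) := by
      have t1 : ∀ F H : σ → σ → ℝ, ∑ z ∈ S, ∑ z' ∈ S, (F z z' - H z z') =
          (∑ z ∈ S, ∑ z' ∈ S, F z z') - ∑ z ∈ S, ∑ z' ∈ S, H z z' := fun F H => by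
        rw [← sum_sub_distrib]; exact sum_congr rfl fun z _ => sum_sub_distrib _ _
      rw [t1, t1, s2]
    rw [s3]
    refine sum_le_sum fun z hz => sum_le_sum fun z' hz' => ?_
    have b : |p z * p' z' - q z * q' z'| ≤ |p z - q z| * p' z' + q z * |p' z' - q' z'| := by
      have : p z * p' z' - q z * q' z' = (p z - q z) * p' z' + q z * (p' z' - q' z') := by ring
      rw [this]
      refine (abs_add_le _ _).trans (le_of_eq ?_)
      rw [abs_mul, abs_mul, abs_of_nonneg (hp' z' hz'), abs_of_nonneg (hq z hz)]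
    have b0 : 0 ≤ |p z - q z| * p' z' + q z * |p' z' - q' z'| := (abs_nonneg _).trans b
    rcases lt_trichotomy z z' with h | h | h
    · rw [if_pos h, if_neg (not_lt.2 h.le), sub_zero]
      calc (p z * p' z' - q z * q' z') * om z z' ≤ |p z * p' z' - q z * q' z'| * om z z' :=
            mul_le_mul_of_nonneg_right (le_abs_self _) (h0 z hz z' hz' h)
        _ ≤ |p z * p' z' - q z * q' z'| * 1 := mul_le_mul_of_nonneg_left (h1 z hz z' hz' h) (abs_nonneg _)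
        _ ≤ _ := by rw [mul_one]; exact b
    · subst h
      simpa using b0
    · rw [if_neg (not_lt.2 h.le), if_pos h, zero_sub]
      calc -((p z * p' z' - q z * q' z') * om z' z) ≤ |p z * p' z' - q z * q' z'| * om z' z := by
            have := mul_le_mul_of_nonneg_right (neg_le_abs (p z * p' z' - q z * q' z')) (h0 z' hz' z hz h)
            linarith
        _ ≤ |p z * p' z' - q z * q' z'| * 1 := mul_le_mul_of_nonneg_left (h1 z' hz' z hz h) (abs_nonneg _)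
        _ ≤ _ := by rw [mul_one]; exact b
  have e2 : ∑ z ∈ S, ∑ z' ∈ S, (|p z - q z| * p' z' + q z * |p' z' - q' z'|) =
      tv S p q * (∑ z ∈ S, p' z) + (∑ z ∈ S, q z) * tv S p' q' := by
    unfold tv
    rw [sum_mul_sum, sum_mul_sum, ← sum_add_distrib]
    exact sum_congr rfl fun z _ => sum_add_distrib
  have a1 := tv_nonneg S p q
  have a2 := tv_nonneg S p' q'
  have c1 := mul_le_mul_of_nonneg_left hp1 a1
  have c2 := mul_le_mul_of_nonneg_right hq1 a2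
  linarith

/-- Two starts of one cell: the pair has met in the next sub block up to the total variation. -/
theorem om_same {S : Finset σ} {p p' : σ → ℝ} {om : σ → σ → ℝ} (hp' : ∀ z ∈ S, 0 ≤ p' z)
    (hp1' : ∑ z ∈ S, p' z ≤ 1)
    (h0 : ∀ z ∈ S, ∀ z' ∈ S, z < z' → 0 ≤ om z z') (h1 : ∀ z ∈ S, ∀ z' ∈ S, z < z' → om z z' ≤ 1) :
    wt S p p' om ≤ tv S p p' := by
  have key := om_flat (S := S) (p := p) (p' := p') (q := p') (q' := p') (om := om) hp' hp' hp1' hp1' h0 h1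
  have z1 : wt S p' p' om = 0 := by
    unfold wt P2 NI
    refine sum_eq_zero fun x _ => sum_eq_zero fun x' _ => ?_
    split_ifs
    · ring
    · rfl
  have z2 : tv S p' p' = 0 := by
    unfold tv
    simp
  rw [z1, z2] at key
  linarith

/-- **TOTAL VARIATION FROM THE CROSS RATIO.** `p`, `q` = laws of the next row from two starts, `W` = window of the next
row, `e` = cross ratio error, `d` = mass outside the window. -/
theorem tv_of_cross {S W : Finset σ} (hW : W ⊆ S) {p q : σ → ℝ} (hp : ∀ z ∈ S, 0 ≤ p z) (hq : ∀ z ∈ S, 0 ≤ q z)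
    {e d : ℝ} (he : 0 ≤ e) (hd0 : 0 ≤ d) (hd : d ≤ 1 / 2)
    (h1 : ∀ z ∈ W, ∀ z' ∈ W, p z * q z' ≤ (1 + e) * (p z' * q z))
    (hp1 : ∑ z ∈ S, p z = 1) (hq1 : ∑ z ∈ S, q z = 1) (hpW : ∑ z ∈ S \ W, p z ≤ d) (hqW : ∑ z ∈ S \ W, q z ≤ d) :
    tv S p q ≤ 4 * e + 6 * d := by
  have sp : ∑ z ∈ S \ W, p z + ∑ z ∈ W, p z = 1 := by rw [sum_sdiff hW, hp1]
  have sq : ∑ z ∈ S \ W, q z + ∑ z ∈ W, q z = 1 := by rw [sum_sdiff hW, hq1]
  have pW0 : 0 ≤ ∑ z ∈ S \ W, p z := sum_nonneg fun z hz => hp z (mem_sdiff.1 hz).1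
  have qW0 : 0 ≤ ∑ z ∈ S \ W, q z := sum_nonneg fun z hz => hq z (mem_sdiff.1 hz).1
  have f1 : ∀ z ∈ W, (1 - d) * p z ≤ (1 + e) * q z := by
    intro z hz
    have t : ∑ z' ∈ W, p z * q z' ≤ ∑ z' ∈ W, (1 + e) * (p z' * q z) := sum_le_sum fun z' hz' => h1 z hz z' hz'
    rw [← mul_sum, ← mul_sum, ← sum_mul] at t
    have a := hp z (hW hz)
    have b := hq z (hW hz)
    have u1 : (1 - d) * p z ≤ p z * ∑ z' ∈ W, q z' := by nlinarith
    have u2 : (1 + e) * ((∑ z' ∈ W, p z') * q z) ≤ (1 + e) * q z := by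
      have : (∑ z' ∈ W, p z') * q z ≤ 1 * q z := mul_le_mul_of_nonneg_right (by linarith) b
      have := mul_le_mul_of_nonneg_left this (by linarith : (0:ℝ) ≤ 1 + e)
      linarith
    linarith
  have f2 : ∀ z ∈ W, (1 - d) * q z ≤ (1 + e) * p z := by
    intro z hz
    have t : ∑ z' ∈ W, p z' * q z ≤ ∑ z' ∈ W, (1 + e) * (p z * q z') := sum_le_sum fun z' hz' => h1 z' hz' z hz
    rw [← mul_sum, ← sum_mul, ← mul_sum] at t
    have a := hp z (hW hz)
    have b := hq z (hW hz)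
    have u1 : (1 - d) * q z ≤ (∑ z' ∈ W, p z') * q z := by nlinarith
    have u2 : (1 + e) * (p z * ∑ z' ∈ W, q z') ≤ (1 + e) * p z := by
      have : p z * (∑ z' ∈ W, q z') ≤ p z * 1 := mul_le_mul_of_nonneg_left (by linarith) a
      have := mul_le_mul_of_nonneg_left this (by linarith : (0:ℝ) ≤ 1 + e)
      linarith
    linarith
  have f3 : ∀ z ∈ W, |p z - q z| ≤ 2 * (e + d) * (p z + q z) := by
    intro z hz
    have a := hp z (hW hz)
    have b := hq z (hW hz)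
    have g1 := f1 z hz
    have g2 := f2 z hz
    have k : 0 ≤ e + d := by linarith
    rw [abs_le]
    constructor
    · -- the lower bound
      have : (1 - d) * (q z - p z) ≤ (e + d) * p z := by nlinarith
      by_cases hqp : q z ≤ p z
      · have := mul_nonneg k (add_nonneg a b)
        nlinarith
      · push Not at hqp
        have h' : 1 / 2 * (q z - p z) ≤ (1 - d) * (q z - p z) :=
          mul_le_mul_of_nonneg_right (by linarith) (by linarith)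
        have := mul_nonneg k b
        nlinarith
    · have : (1 - d) * (p z - q z) ≤ (e + d) * q z := by nlinarith
      by_cases hqp : p z ≤ q z
      · have := mul_nonneg k (add_nonneg a b)
        nlinarith
      · push Not at hqp
        have h' : 1 / 2 * (p z - q z) ≤ (1 - d) * (p z - q z) :=
          mul_le_mul_of_nonneg_right (by linarith) (by linarith)
        have := mul_nonneg k a
        nlinarith
  have f4 : ∑ z ∈ W, |p z - q z| ≤ 4 * (e + d) := by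
    calc ∑ z ∈ W, |p z - q z| ≤ ∑ z ∈ W, 2 * (e + d) * (p z + q z) := sum_le_sum f3
      _ = 2 * (e + d) * ((∑ z ∈ W, p z) + ∑ z ∈ W, q z) := by rw [← mul_sum, sum_add_distrib]
      _ ≤ 2 * (e + d) * 2 := mul_le_mul_of_nonneg_left (by linarith) (by linarith)
      _ = 4 * (e + d) := by ring
  have f5 : ∑ z ∈ S \ W, |p z - q z| ≤ 2 * d := by
    calc ∑ z ∈ S \ W, |p z - q z| ≤ ∑ z ∈ S \ W, (p z + q z) := by
          refine sum_le_sum fun z hz => ?_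
          have a := hp z (mem_sdiff.1 hz).1
          have b := hq z (mem_sdiff.1 hz).1
          rw [abs_le]
          constructor <;> linarith
      _ = ∑ z ∈ S \ W, p z + ∑ z ∈ S \ W, q z := sum_add_distrib
      _ ≤ 2 * d := by linarith
  have f6 : tv S p q = ∑ z ∈ S \ W, |p z - q z| + ∑ z ∈ W, |p z - q z| := by
    unfold tv; rw [sum_sdiff hW]
  rw [f6]
  linarith

/-- law of the next row: `J` = kernel of the sub block, `F` = future mass behind it -/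
def law (S : Finset σ) (J : κ → σ → ℝ) (F : σ → ℝ) (x : κ) (z : σ) : ℝ := J x z * F z / pull S J F x

theorem law_nonneg {S : Finset σ} {J : κ → σ → ℝ} {F : σ → ℝ} {x : κ} (hJ : ∀ z ∈ S, 0 ≤ J x z) (hF : ∀ z ∈ S, 0 ≤ F z)
    (z : σ) (hz : z ∈ S) : 0 ≤ law S J F x z :=
  div_nonneg (mul_nonneg (hJ z hz) (hF z hz)) (sum_nonneg fun z' hz' => mul_nonneg (hJ z' hz') (hF z' hz'))

theorem law_sum {S : Finset σ} {J : κ → σ → ℝ} {F : σ → ℝ} {x : κ} (h : 0 < pull S J F x) :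
    ∑ z ∈ S, law S J F x z = 1 := by
  unfold law
  rw [← sum_div]
  exact div_self h.ne'

/-- The cross ratio of the sub block between the corners `xa, xb` of the cell and `za, zb` of the window. -/
theorem cross_of_CR {J : κ → σ → ℝ} {Y : Set κ} {X : Set σ} (h : TP J Y X) {xa xb x y : κ} {za zb z z' : σ}
    (hxa : xa ∈ Y) (hxb : xb ∈ Y) (hx : x ∈ Y) (hy : y ∈ Y) (hza : za ∈ X) (hzb : zb ∈ X) (hz : z ∈ X) (hz' : z' ∈ X)
    (x1 : xa ≤ x) (x2 : x ≤ xb) (y1 : xa ≤ y) (y2 : y ≤ xb) (z1 : za ≤ z) (z2 : z ≤ zb) (z3 : za ≤ z') (z4 : z' ≤ zb)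
    {e : ℝ} (he : 0 ≤ e) (hc : CR J xa xb za zb ≤ 1 + e) : J x z * J y z' ≤ (1 + e) * (J x z' * J y z) := by
  have base : ∀ {u v : κ} {s t : σ}, u ∈ Y → v ∈ Y → s ∈ X → t ∈ X → xa ≤ u → v ≤ xb → za ≤ s → t ≤ zb → u ≤ v → s ≤ t →
      J u s * J v t ≤ (1 + e) * (J u t * J v s) := by
    intro u v s t hu hv hs ht a1 a2 a3 a4 huv hst
    have c := (h.CR_mono hxa hu hv hxb hza hs ht hzb a1 huv a2 a3 hst a4).trans hc
    unfold CR at c
    rwa [div_le_iff₀ (mul_pos (h.pos u hu t ht) (h.pos v hv s hs))] at c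
  have base2 : ∀ {u v : κ} {s t : σ}, u ∈ Y → v ∈ Y → s ∈ X → t ∈ X → u ≤ v → s ≤ t →
      J u t * J v s ≤ (1 + e) * (J u s * J v t) := by
    intro u v s t hu hv hs ht huv hst
    have a := h.tp u hu v hv huv s hs t ht hst
    have b : 0 ≤ J u s * J v t := (mul_pos (h.pos u hu s hs) (h.pos v hv t ht)).le
    nlinarith
  rcases le_total x y with hxy | hxy <;> rcases le_total z z' with hzz | hzz
  · exact base hx hy hz hz' x1 y2 z1 z4 hxy hzz
  · exact base2 hx hy hz' hz hxy hzz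
  · have := base2 hy hx hz hz' hxy hzz
    calc J x z * J y z' = J y z' * J x z := by ring
      _ ≤ (1 + e) * (J y z * J x z') := this
      _ = _ := by ring
  · have := base hy hx hz' hz y1 x2 z3 z2 hxy hzz
    calc J x z * J y z' = J y z' * J x z := by ring
      _ ≤ (1 + e) * (J y z * J x z') := this
      _ = _ := by ring

/-- **TOTAL VARIATION OF TWO STARTS OF ONE CELL.** -/
theorem tv_of_CR {J : κ → σ → ℝ} {Y : Set κ} {X : Set σ} (h : TP J Y X) {xa xb x y : κ} {za zb : σ}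
    (hxa : xa ∈ Y) (hxb : xb ∈ Y) (hx : x ∈ Y) (hy : y ∈ Y) (hza : za ∈ X) (hzb : zb ∈ X)
    (x1 : xa ≤ x) (x2 : x ≤ xb) (y1 : xa ≤ y) (y2 : y ≤ xb) {e d : ℝ} (he : 0 ≤ e) (hd0 : 0 ≤ d) (hd : d ≤ 1 / 2)
    (hc : CR J xa xb za zb ≤ 1 + e) {S W : Finset σ} (hW : W ⊆ S) (hWX : ∀ z ∈ W, z ∈ X ∧ za ≤ z ∧ z ≤ zb)
    (hJx : ∀ z ∈ S, 0 ≤ J x z) (hJy : ∀ z ∈ S, 0 ≤ J y z) {F : σ → ℝ} (hF : ∀ z ∈ S, 0 ≤ F z)
    (px : 0 < pull S J F x) (py : 0 < pull S J F y)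
    (hxW : ∑ z ∈ S \ W, law S J F x z ≤ d) (hyW : ∑ z ∈ S \ W, law S J F y z ≤ d) :
    tv S (law S J F x) (law S J F y) ≤ 4 * e + 6 * d := by
  refine tv_of_cross hW (fun z hz => law_nonneg hJx hF z hz) (fun z hz => law_nonneg hJy hF z hz) he hd0 hd ?_
    (law_sum px) (law_sum py) hxW hyW
  intro z hz z' hz'
  obtain ⟨a1, a2, a3⟩ := hWX z hz
  obtain ⟨b1, b2, b3⟩ := hWX z' hz'
  have k := cross_of_CR h hxa hxb hx hy hza hzb a1 b1 x1 x2 y1 y2 a2 a3 b2 b3 he hc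
  have f0 : 0 ≤ F z * F z' / (pull S J F x * pull S J F y) :=
    div_nonneg (mul_nonneg (hF z (hW hz)) (hF z' (hW hz'))) (mul_pos px py).le
  have e1 : law S J F x z * law S J F y z' = (J x z * J y z') * (F z * F z' / (pull S J F x * pull S J F y)) := by
    unfold law; field_simp
  have e2 : law S J F x z' * law S J F y z = (J x z' * J y z) * (F z * F z' / (pull S J F x * pull S J F y)) := by
    unfold law; field_simp
  rw [e1, e2, ← mul_assoc]
  exact mul_le_mul_of_nonneg_right k f0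

/-- **THE WEIGHT IS THE SAME FROM EVERY ROW.** -/
theorem markov (S : Finset κ) (S' : Finset σ) (p : κ → σ → ℝ) (m r : κ → ℝ) (om : σ → σ → ℝ) :
    wt S' (push S p m) (push S p r) om = wt S m r (fun x x' => wt S' (p x) (p x') om) := by
  unfold wt
  have e1 : P2 S' (fun z z' => NI (push S p m) (push S p r) z z' * om z z') =
      P2 S' (fun z z' => P2 S (fun x x' => NI m r x x' * NIk p x x' z z' * om z z')) := by
    refine P2_congr fun z _ z' _ _ => ?_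
    rw [binet]
    unfold P2
    rw [sum_mul]
    refine sum_congr rfl fun x _ => ?_
    rw [sum_mul]
    refine sum_congr rfl fun x' _ => ?_
    split_ifs <;> simp
  rw [e1]
  unfold P2
  have sw : ∀ F : κ → κ → σ → σ → ℝ,
      (∑ z ∈ S', ∑ z' ∈ S', if z < z' then (∑ x ∈ S, ∑ x' ∈ S, if x < x' then F x x' z z' else 0) else 0) =
      ∑ x ∈ S, ∑ x' ∈ S, if x < x' then (∑ z ∈ S', ∑ z' ∈ S', if z < z' then F x x' z z' else 0) else 0 := by
    intro F
    calc (∑ z ∈ S', ∑ z' ∈ S', if z < z' then (∑ x ∈ S, ∑ x' ∈ S, if x < x' then F x x' z z' else 0) else 0)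
        = ∑ z ∈ S', ∑ z' ∈ S', ∑ x ∈ S, ∑ x' ∈ S, (if z < z' then (if x < x' then F x x' z z' else 0) else 0) := by
          refine sum_congr rfl fun z _ => sum_congr rfl fun z' _ => ?_
          split_ifs
          · rfl
          · simp
      _ = ∑ z ∈ S', ∑ x ∈ S, ∑ z' ∈ S', ∑ x' ∈ S, (if z < z' then (if x < x' then F x x' z z' else 0) else 0) :=
          sum_congr rfl fun z _ => sum_comm
      _ = ∑ x ∈ S, ∑ z ∈ S', ∑ z' ∈ S', ∑ x' ∈ S, (if z < z' then (if x < x' then F x x' z z' else 0) else 0) := sum_comm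
      _ = ∑ x ∈ S, ∑ z ∈ S', ∑ x' ∈ S, ∑ z' ∈ S', (if z < z' then (if x < x' then F x x' z z' else 0) else 0) :=
          sum_congr rfl fun x _ => sum_congr rfl fun z _ => sum_comm
      _ = ∑ x ∈ S, ∑ x' ∈ S, ∑ z ∈ S', ∑ z' ∈ S', (if z < z' then (if x < x' then F x x' z z' else 0) else 0) :=
          sum_congr rfl fun x _ => sum_comm
      _ = _ := by
          refine sum_congr rfl fun x _ => sum_congr rfl fun x' _ => ?_
          by_cases h : x < x'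
          · rw [if_pos h]
            refine sum_congr rfl fun z _ => sum_congr rfl fun z' _ => ?_
            rw [if_pos h]
          · rw [if_neg h]
            refine sum_eq_zero fun z _ => sum_eq_zero fun z' _ => ?_
            rw [if_neg h, ite_self]
  rw [sw]
  refine sum_congr rfl fun x _ => sum_congr rfl fun x' _ => ?_
  by_cases h : x < x'
  · rw [if_pos h, if_pos h]
    simp only
    rw [mul_sum]
    refine sum_congr rfl fun z _ => ?_
    rw [mul_sum]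
    refine sum_congr rfl fun z' _ => ?_
    split_ifs
    · unfold NI NIk; ring
    · simp
  · rw [if_neg h, if_neg h]

/-! ### the comparison -/

/-- **THE CORE.** `G` = sites of the good cells of the row, `q` = label of the cell. Either the old weight is an error
term, or there are two cells (labels `a ≠ b`) such that for EVERY new content which brings the two paths into sub cells
`C < C'` of them up to `δ` the new weight is at least a constant times the old one. -/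
theorem core {S G : Finset κ} (hG : G ⊆ S) (q : κ → τ) {m0 r0 : κ → ℝ} {om : κ → κ → ℝ} {w0 err t : ℝ}
    (hm : ∀ x ∈ G, 0 ≤ m0 x) (hr : ∀ x ∈ G, 0 ≤ r0 x) (hm1 : ∑ x ∈ G, m0 x ≤ 1) (hr1 : ∑ x ∈ G, r0 x ≤ 1)
    (ho : ∀ x ∈ S, ∀ x' ∈ S, x < x' → 0 ≤ om x x') (herr : 0 ≤ err)
    (pig : w0 ≤ 5 / 4 * wt G m0 r0 om + t)
    (flat : ∀ x ∈ G, ∀ x' ∈ G, ∀ y ∈ G, ∀ y' ∈ G, q x = q y → q x' = q y' → x < x' → y < y' → om x x' ≤ om y y' + err)
    (same : ∀ x ∈ G, ∀ x' ∈ G, x < x' → q x = q x' → om x x' ≤ err) :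
    w0 ≤ 5 / 4 * err + t ∨ ∃ x ∈ G, ∃ x' ∈ G, x < x' ∧ q x ≠ q x' ∧
      ∀ (C C' : Finset κ), C ⊆ G → C' ⊆ G → (∀ y ∈ C, q y = q x) → (∀ y ∈ C', q y = q x') → (∀ y ∈ C, ∀ y' ∈ C', y < y') →
      ∀ (m1 r1 : κ → ℝ) (δ : ℝ), (∀ y ∈ S, 0 ≤ m1 y) → (∀ y ∈ S, 0 ≤ r1 y) → ∑ y ∈ S, m1 y ≤ 1 → ∑ y ∈ S, r1 y ≤ 1 →
      (∀ y ∈ S, ∀ y' ∈ S, y < y' → 0 ≤ NI m1 r1 y y') → 0 ≤ δ → δ < 1 / 2 →
      1 - δ ≤ ∑ y ∈ C, m1 y → 1 - δ ≤ ∑ y ∈ C', r1 y →
      w0 ≤ 5 / 4 / (1 - 2 * δ) * wt S m1 r1 om + (5 / 4 * err + t) := by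
  rcases exists_best hm hr hm1 hr1 (fun x hx x' hx' h => ho x (hG hx) x' (hG hx') h) with h0 | ⟨x, hx, x', hx', hlt, _, hb⟩
  · left
    rw [h0] at pig
    linarith
  by_cases hq : q x = q x'
  · left
    have := same x hx x' hx' hlt hq
    linarith
  right
  refine ⟨x, hx, x', hx', hlt, hq, ?_⟩
  intro C C' hC hC' hCq hCq' hCC m1 r1 δ p1 p2 s1 s2 hni hδ0 hδ1 c1 c2
  have d0 : 0 < 1 - 2 * δ := by linarith
  by_cases hneg : om x x' - err ≤ 0
  · have w1 : 0 ≤ wt S m1 r1 om := P2_nonneg fun y hy y' hy' h => mul_nonneg (hni y hy y' hy' h) (ho y hy y' hy' h)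
    have : 0 ≤ 5 / 4 / (1 - 2 * δ) * wt S m1 r1 om := mul_nonneg (div_nonneg (by norm_num) d0.le) w1
    linarith
  · push Not at hneg
    have k := new_ge' (hC.trans hG) (hC'.trans hG) hCC p1 p2 s1 s2 hni ho (s := om x x' - err) hneg.le
      (fun y hy y' hy' => by
        have := flat x hx x' hx' y (hC hy) y' (hC' hy') (hCq y hy).symm (hCq' y' hy').symm hlt (hCC y hy y' hy')
        linarith) (δ := δ) (by linarith) c1 c2
    have k2 : om x x' - err ≤ wt S m1 r1 om / (1 - 2 * δ) := by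
      rw [le_div_iff₀ d0]; linarith
    have e : 5 / 4 / (1 - 2 * δ) * wt S m1 r1 om = 5 / 4 * (wt S m1 r1 om / (1 - 2 * δ)) := by ring
    rw [e]
    linarith

/-- `om` from the next sub block: the two hypotheses of `core`. -/
theorem flat_of_tv {S' : Finset σ} {p : κ → σ → ℝ} {om' : σ → σ → ℝ} {x x' y y' : κ} {d : ℝ}
    (hx' : ∀ z ∈ S', 0 ≤ p x' z) (hy : ∀ z ∈ S', 0 ≤ p y z) (hx1 : ∑ z ∈ S', p x' z ≤ 1) (hy1 : ∑ z ∈ S', p y z ≤ 1)
    (h0 : ∀ z ∈ S', ∀ z' ∈ S', z < z' → 0 ≤ om' z z') (h1 : ∀ z ∈ S', ∀ z' ∈ S', z < z' → om' z z' ≤ 1)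
    (t1 : tv S' (p x) (p y) ≤ d) (t2 : tv S' (p x') (p y') ≤ d) :
    wt S' (p x) (p x') om' ≤ wt S' (p y) (p y') om' + 2 * d := by
  have := om_flat (S := S') (p := p x) (p' := p x') (q := p y) (q' := p y') (om := om') hx' hy hx1 hy1 h0 h1
  linarith

/-- Some row has both paths in good cells for `4/5` of the weight. `g b` = weight with both good at the row `b`. -/
theorem pig {n : ℕ} (hn : 0 < n) {g : ℕ → ℝ} {w0 t : ℝ} (h : ∑ b ∈ range n, (w0 - g b) ≤ n * (1 / 5 * w0) + n * t) :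
    ∃ b < n, w0 ≤ 5 / 4 * g b + 5 / 4 * t := by
  by_contra hcon
  push Not at hcon
  have h1 : ∑ _b ∈ range n, (1 / 5 * w0 + t) < ∑ b ∈ range n, (w0 - g b) := by
    refine sum_lt_sum_of_nonempty ⟨0, mem_range.2 hn⟩ fun b hb => ?_
    have := hcon b (mem_range.1 hb)
    linarith
  rw [sum_const, card_range, nsmul_eq_mul] at h1
  have : (n : ℝ) * (1 / 5 * w0 + t) = n * (1 / 5 * w0) + n * t := by ring
  linarith

/-- **ONE ROW OF THE SHELL.** `J` = kernel of the next sub block of the OLD content, `F` = future mass behind it, `om'` =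
probability of the contact from the next row. Good cells = intervals `[lo a, hi a]` (label `a`) with cross ratio at most
`1 + e` against the window `[za, zb]`, and exits at most `d`. -/
theorem shell_row {S G : Finset κ} (hG : G ⊆ S) (q : κ → τ) (lo hi : τ → κ) {J : κ → σ → ℝ} {Y : Set κ} {X : Set σ}
    (hTP : TP J Y X) {S' W : Finset σ} (hW : W ⊆ S') {za zb : σ} (hza : za ∈ X) (hzb : zb ∈ X)
    (hWX : ∀ z ∈ W, z ∈ X ∧ za ≤ z ∧ z ≤ zb)
    (hcell : ∀ x ∈ G, x ∈ Y ∧ lo (q x) ∈ Y ∧ hi (q x) ∈ Y ∧ lo (q x) ≤ x ∧ x ≤ hi (q x))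
    {e d : ℝ} (he : 0 ≤ e) (hd0 : 0 ≤ d) (hd : d ≤ 1 / 2) (hCR : ∀ x ∈ G, CR J (lo (q x)) (hi (q x)) za zb ≤ 1 + e)
    {F : σ → ℝ} (hJ : ∀ x ∈ S, ∀ z ∈ S', 0 ≤ J x z) (hF : ∀ z ∈ S', 0 ≤ F z)
    (hpull : ∀ x ∈ G, 0 < pull S' J F x) (hexit : ∀ x ∈ G, ∑ z ∈ S' \ W, law S' J F x z ≤ d)
    {om' : σ → σ → ℝ} (h0 : ∀ z ∈ S', ∀ z' ∈ S', z < z' → 0 ≤ om' z z') (h1 : ∀ z ∈ S', ∀ z' ∈ S', z < z' → om' z z' ≤ 1)
    (hTP2 : ∀ x ∈ S, ∀ x' ∈ S, x < x' → 0 ≤ wt S' (law S' J F x) (law S' J F x') om')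
    {m0 r0 : κ → ℝ} {w0 t : ℝ} (hm : ∀ x ∈ G, 0 ≤ m0 x) (hr : ∀ x ∈ G, 0 ≤ r0 x) (hm1 : ∑ x ∈ G, m0 x ≤ 1)
    (hr1 : ∑ x ∈ G, r0 x ≤ 1)
    (hpig : w0 ≤ 5 / 4 * wt G m0 r0 (fun x x' => wt S' (law S' J F x) (law S' J F x') om') + t) :
    w0 ≤ 5 / 4 * (8 * e + 12 * d) + t ∨ ∃ x ∈ G, ∃ x' ∈ G, x < x' ∧ q x ≠ q x' ∧
      ∀ (C C' : Finset κ), C ⊆ G → C' ⊆ G → (∀ y ∈ C, q y = q x) → (∀ y ∈ C', q y = q x') → (∀ y ∈ C, ∀ y' ∈ C', y < y') →
      ∀ (m1 r1 : κ → ℝ) (δ : ℝ), (∀ y ∈ S, 0 ≤ m1 y) → (∀ y ∈ S, 0 ≤ r1 y) → ∑ y ∈ S, m1 y ≤ 1 → ∑ y ∈ S, r1 y ≤ 1 →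
      (∀ y ∈ S, ∀ y' ∈ S, y < y' → 0 ≤ NI m1 r1 y y') → 0 ≤ δ → δ < 1 / 2 →
      1 - δ ≤ ∑ y ∈ C, m1 y → 1 - δ ≤ ∑ y ∈ C', r1 y →
      w0 ≤ 5 / 4 / (1 - 2 * δ) * wt S m1 r1 (fun x x' => wt S' (law S' J F x) (law S' J F x') om') +
        (5 / 4 * (8 * e + 12 * d) + t) := by
  have tvb : ∀ x ∈ G, ∀ y ∈ G, q x = q y → tv S' (law S' J F x) (law S' J F y) ≤ 4 * e + 6 * d := by
    intro x hx y hy hxy
    obtain ⟨a1, a2, a3, a4, a5⟩ := hcell x hx
    obtain ⟨b1, _, _, b4, b5⟩ := hcell y hy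
    rw [← hxy] at b4 b5
    exact tv_of_CR hTP a2 a3 a1 b1 hza hzb a4 a5 b4 b5 he hd0 hd (hCR x hx) hW hWX (hJ x (hG hx)) (hJ y (hG hy)) hF
      (hpull x hx) (hpull y hy) (hexit x hx) (hexit y hy)
  have n0 : ∀ x ∈ G, ∀ z ∈ S', 0 ≤ law S' J F x z := fun x hx z hz => law_nonneg (hJ x (hG hx)) hF z hz
  have n1 : ∀ x ∈ G, ∑ z ∈ S', law S' J F x z ≤ 1 := fun x hx => (law_sum (hpull x hx)).le
  refine core hG q hm hr hm1 hr1 hTP2 (by linarith) hpig ?_ ?_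
  · intro x hx x' hx' y hy y' hy' h1' h2' _ _
    have := flat_of_tv (p := law S' J F) (om' := om') (n0 x' hx') (n0 y hy) (n1 x' hx') (n1 y hy) h0 h1
      (tvb x hx y hy h1') (tvb x' hx' y' hy' h2')
    linarith
  · intro x hx x' hx' _ hq
    have := om_same (S := S') (p := law S' J F x) (p' := law S' J F x') (om := om') (n0 x' hx') (n1 x' hx') h0 h1
    have t1 := tvb x hx x' hx' hq
    linarith

/-! ### the law of one path in the new content -/

/-- Routes: `good` carries at least `A`, the rest at most `δ A`. -/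
theorem dom {Z g A b δ : ℝ} (hZ : Z = g + b) (hb0 : 0 ≤ b) (hg : A ≤ g) (hb : b ≤ δ * A) (hA : 0 < A) (hδ : 0 ≤ δ) :
    1 - δ ≤ g / Z := by
  have g0 : 0 < g := lt_of_lt_of_le hA hg
  have Z0 : 0 < Z := by rw [hZ]; linarith
  rw [le_div_iff₀ Z0, hZ]
  have : b ≤ δ * g := hb.trans (mul_le_mul_of_nonneg_left hg hδ)
  nlinarith [mul_nonneg hδ hb0]

/-- the law of the row position -/
def pos (S : Finset κ) (a f : κ → ℝ) (x : κ) : ℝ := a x * f x / ∑ y ∈ S, a y * f y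

theorem pos_nonneg {S : Finset κ} {a f : κ → ℝ} (ha : ∀ x ∈ S, 0 ≤ a x) (hf : ∀ x ∈ S, 0 ≤ f x) (x : κ) (hx : x ∈ S) :
    0 ≤ pos S a f x :=
  div_nonneg (mul_nonneg (ha x hx) (hf x hx)) (sum_nonneg fun y hy => mul_nonneg (ha y hy) (hf y hy))

theorem pos_sum {S : Finset κ} {a f : κ → ℝ} (h : 0 < ∑ y ∈ S, a y * f y) : ∑ x ∈ S, pos S a f x = 1 := by
  unfold pos
  rw [← sum_div]
  exact div_self h.ne'

theorem pos_NI (S : Finset κ) (a b f : κ → ℝ) (x x' : κ) :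
    NI (pos S a f) (pos S b f) x x' =
      NI a b x x' * (f x * f x') / ((∑ y ∈ S, a y * f y) * ∑ y ∈ S, b y * f y) := by
  unfold NI pos
  ring

/-- The weight of the contact in the usual form: masses, future masses, totals. -/
theorem wt_pos (S : Finset κ) (a b f : κ → ℝ) (om : κ → κ → ℝ) :
    wt S (pos S a f) (pos S b f) om =
      P2 S (fun x x' => NI a b x x' * (f x * f x') * om x x') / ((∑ y ∈ S, a y * f y) * ∑ y ∈ S, b y * f y) := by
  have e : ∀ c : ℝ, P2 S (fun x x' => NI a b x x' * (f x * f x') * om x x') / c =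
      P2 S (fun x x' => NI a b x x' * (f x * f x') * om x x' / c) := by
    intro c
    unfold P2
    rw [sum_div]
    refine sum_congr rfl fun x _ => ?_
    rw [sum_div]
    refine sum_congr rfl fun x' _ => ?_
    split_ifs <;> simp
  rw [e]
  unfold wt
  refine P2_congr fun x _ x' _ _ => ?_
  rw [pos_NI]
  ring

/-- The rest of the mass outside the cell `C`: the law gives it at most `δ`. -/
theorem pos_dom {S C : Finset κ} (hC : C ⊆ S) {a f : κ → ℝ} (ha : ∀ x ∈ S, 0 ≤ a x) (hf : ∀ x ∈ S, 0 ≤ f x) {A δ : ℝ}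
    (hA : 0 < A) (hδ : 0 ≤ δ) (h1 : A ≤ ∑ x ∈ C, a x * f x) (h2 : ∑ x ∈ S \ C, a x * f x ≤ δ * A) :
    1 - δ ≤ ∑ x ∈ C, pos S a f x := by
  have e : ∑ x ∈ C, pos S a f x = (∑ x ∈ C, a x * f x) / ∑ y ∈ S, a y * f y := by
    unfold pos; rw [sum_div]
  rw [e]
  refine dom (b := ∑ x ∈ S \ C, a x * f x) ?_ ?_ h1 h2 hA hδ
  · rw [add_comm, sum_sdiff hC]
  · exact sum_nonneg fun x hx => mul_nonneg (ha x (mem_sdiff.1 hx).1) (hf x (mem_sdiff.1 hx).1)

/-- mass of the routes start in `Y`, middle in `M`, end in `C` -/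
def route {μ : Type*} (Y : Finset ι) (M : Finset μ) (C : Finset κ) (L : ι → ℝ) (K1 : ι → μ → ℝ) (K2 : μ → κ → ℝ) (f : κ → ℝ) : ℝ :=
  ∑ y ∈ Y, ∑ u ∈ M, ∑ x ∈ C, L y * K1 y u * K2 u x * f x

/-- The rest of the mass = the routes which do not use the lane. -/
theorem route_rest {μ : Type*} [DecidableEq ι] [DecidableEq μ] {Y0 Y : Finset ι} {M0 M : Finset μ} {C S : Finset κ}
    (hY : Y0 ⊆ Y) (hM : M0 ⊆ M) {L : ι → ℝ} {K1 : ι → μ → ℝ} {K2 : μ → κ → ℝ} {f : κ → ℝ} :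
    ∑ x ∈ S \ C, push M K2 (push Y K1 L) x * f x =
      route Y0 M0 (S \ C) L K1 K2 f + route (Y \ Y0) M0 (S \ C) L K1 K2 f + route Y (M \ M0) (S \ C) L K1 K2 f := by
  have e : ∑ x ∈ S \ C, push M K2 (push Y K1 L) x * f x = route Y M (S \ C) L K1 K2 f := by
    unfold route push
    calc ∑ x ∈ S \ C, (∑ u ∈ M, (∑ y ∈ Y, L y * K1 y u) * K2 u x) * f x
        = ∑ x ∈ S \ C, ∑ u ∈ M, ∑ y ∈ Y, L y * K1 y u * K2 u x * f x := by
          refine sum_congr rfl fun x _ => ?_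
          rw [sum_mul]
          refine sum_congr rfl fun u _ => ?_
          rw [sum_mul, sum_mul]
      _ = ∑ u ∈ M, ∑ x ∈ S \ C, ∑ y ∈ Y, L y * K1 y u * K2 u x * f x := sum_comm
      _ = ∑ u ∈ M, ∑ y ∈ Y, ∑ x ∈ S \ C, L y * K1 y u * K2 u x * f x := sum_congr rfl fun u _ => sum_comm
      _ = _ := sum_comm
  rw [e]
  have s1 : route Y M (S \ C) L K1 K2 f = route Y (M \ M0) (S \ C) L K1 K2 f + route Y M0 (S \ C) L K1 K2 f := by
    unfold route
    rw [← sum_add_distrib]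
    exact sum_congr rfl fun y _ => (sum_sdiff hM).symm
  have s2 : route Y M0 (S \ C) L K1 K2 f =
      route (Y \ Y0) M0 (S \ C) L K1 K2 f + route Y0 M0 (S \ C) L K1 K2 f := by
    unfold route
    exact (sum_sdiff hY).symm
  rw [s1, s2]
  ring

/-- One class of routes from the four bounds. -/
theorem route_le {μ : Type*} {Y : Finset ι} {M : Finset μ} {C : Finset κ} {L : ι → ℝ} {K1 : ι → μ → ℝ}
    {K2 : μ → κ → ℝ} {f : κ → ℝ} {l k1 k2 φ : ℝ}
    (hL0 : ∀ y ∈ Y, 0 ≤ L y) (h10 : ∀ y ∈ Y, ∀ u ∈ M, 0 ≤ K1 y u) (h20 : ∀ u ∈ M, ∀ x ∈ C, 0 ≤ K2 u x)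
    (hf0 : ∀ x ∈ C, 0 ≤ f x) (hL : ∀ y ∈ Y, L y ≤ l) (h1 : ∀ y ∈ Y, ∀ u ∈ M, K1 y u ≤ k1)
    (h2 : ∀ u ∈ M, ∀ x ∈ C, K2 u x ≤ k2) (hf : ∀ x ∈ C, f x ≤ φ) :
    route Y M C L K1 K2 f ≤ (Y.card * M.card * C.card : ℝ) * (l * k1 * k2 * φ) := by
  unfold route
  have t : ∀ y ∈ Y, ∀ u ∈ M, ∀ x ∈ C, L y * K1 y u * K2 u x * f x ≤ l * k1 * k2 * φ := by
    intro y hy u hu x hx
    have a := hL0 y hy
    have b := h10 y hy u hu
    have c := h20 u hu x hx
    have d := hf0 x hx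
    have l0 := a.trans (hL y hy)
    have k0 := b.trans (h1 y hy u hu)
    have q0 := c.trans (h2 u hu x hx)
    exact mul_le_mul (mul_le_mul (mul_le_mul (hL y hy) (h1 y hy u hu) b l0) (h2 u hu x hx) c (mul_nonneg l0 k0))
      (hf x hx) d (mul_nonneg (mul_nonneg l0 k0) q0)
  calc ∑ y ∈ Y, ∑ u ∈ M, ∑ x ∈ C, L y * K1 y u * K2 u x * f x
      ≤ ∑ _y ∈ Y, ∑ _u ∈ M, ∑ _x ∈ C, l * k1 * k2 * φ :=
        sum_le_sum fun y hy => sum_le_sum fun u hu => sum_le_sum fun x hx => t y hy u hu x hx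
    _ = _ := by simp only [sum_const, nsmul_eq_mul]; ring

/-- The lane carries at least its single route. -/
theorem route_ge {μ : Type*} {Y : Finset ι} {M : Finset μ} {C S : Finset κ} (hC : C ⊆ S) {L : ι → ℝ} {K1 : ι → μ → ℝ}
    {K2 : μ → κ → ℝ} {f : κ → ℝ} (hL : ∀ y ∈ Y, 0 ≤ L y) (h1 : ∀ y ∈ Y, ∀ u ∈ M, 0 ≤ K1 y u)
    (h2 : ∀ u ∈ M, ∀ x ∈ S, 0 ≤ K2 u x) (hf : ∀ x ∈ S, 0 ≤ f x) {y0 : ι} {u0 : μ} {p : κ} (hy : y0 ∈ Y) (hu : u0 ∈ M) (hp : p ∈ C) :
    L y0 * K1 y0 u0 * K2 u0 p * f p ≤ ∑ x ∈ C, push M K2 (push Y K1 L) x * f x := by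
  have a1 : L y0 * K1 y0 u0 ≤ push Y K1 L u0 :=
    single_le_sum (f := fun y => L y * K1 y u0) (fun y hy' => mul_nonneg (hL y hy') (h1 y hy' u0 hu)) hy
  have a0 : ∀ u ∈ M, 0 ≤ push Y K1 L u := fun u hu' => sum_nonneg fun y hy' => mul_nonneg (hL y hy') (h1 y hy' u hu')
  have a2 : push Y K1 L u0 * K2 u0 p ≤ push M K2 (push Y K1 L) p :=
    single_le_sum (f := fun u => push Y K1 L u * K2 u p) (fun u hu' => mul_nonneg (a0 u hu') (h2 u hu' p (hC hp))) hu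
  have a3 : push M K2 (push Y K1 L) p * f p ≤ ∑ x ∈ C, push M K2 (push Y K1 L) x * f x := by
    refine single_le_sum (f := fun x => push M K2 (push Y K1 L) x * f x) (fun x hx => mul_nonneg ?_ (hf x (hC hx))) hp
    exact sum_nonneg fun u hu' => mul_nonneg (a0 u hu') (h2 u hu' x (hC hx))
  refine le_trans ?_ a3
  refine mul_le_mul_of_nonneg_right ?_ (hf p (hC hp))
  exact (mul_le_mul_of_nonneg_right a1 (h2 u0 hu p (hC hp))).trans a2

end

end Pool.Agent.W_7d29a1_C1.Shell28
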