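import Mathlib

/-!
MP_7d29a1_pr, attractor route [C1], SHELL: FROM THE POINTWISE COMPARISON TO THE FIELD `cmp` OF `ChData`.
(helper28)

`F η` = weight when the block is filled with `η` (everything else frozen), `M j η' η` = the content `η` with the sub block `j`
taken from `η'` (preserves the law). If for every old content `η` of `N` there is ONE of finitely many sub blocks `j` such that
a fresh content of it is, with probability at least `p`, in `S` and at least as good as the old one up to `C` and `e`, then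
`p ∫_N F ≤ card * C ∫_S F + e`. No measurable choice of `j`.
-/

set_option autoImplicit false

namespace Pool.Agent.W_7d29a1_C1.Shell28

open MeasureTheory ENNReal

variable {Ω J : Type*} [MeasurableSpace Ω] [Fintype J]

theorem cmp_mix {P : Measure Ω} [IsProbabilityMeasure P] {F : Ω → ℝ≥0∞} (hF : Measurable F) {N S : Set Ω}
    (hS : MeasurableSet S) {M : J → Ω → Ω → Ω}
    (mp : ∀ j, MeasurePreserving (fun w : Ω × Ω => M j w.1 w.2) (P.prod P) P) {p C e : ℝ≥0∞}
    (h : ∀ η ∈ N, ∃ j, p ≤ P {η' | M j η' η ∈ S ∧ F η ≤ C * F (M j η' η) + e}) :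
    p * ∫⁻ η in N, F η ∂P ≤ Fintype.card J * C * ∫⁻ η in S, F η ∂P + e := by
  classical
  set H : J → Ω → Ω → ℝ≥0∞ := fun j η η' => S.indicator F (M j η' η) with hH
  have mIF : Measurable (S.indicator F) := hF.indicator hS
  have mH : ∀ j, Measurable (fun w : Ω × Ω => H j w.1 w.2) := fun j => by
    have h1 : Measurable (fun w : Ω × Ω => M j w.1 w.2) := (mp j).measurable
    have h2 : Measurable (fun w : Ω × Ω => M j w.2 w.1) := h1.comp measurable_swap
    exact mIF.comp h2
  have mHη : ∀ j η, Measurable (H j η) := fun j η => (mH j).comp measurable_prodMk_left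
  have key : ∀ η ∈ N, p * F η ≤ (∑ j, C * ∫⁻ η', H j η η' ∂P) + e := by
    intro η hη
    obtain ⟨j, hj⟩ := h η hη
    set A : Set Ω := {η' | M j η' η ∈ S ∧ F η ≤ C * F (M j η' η) + e} with hA
    have c1 : p * F η ≤ ∫⁻ η' in A, F η ∂P := by
      rw [setLIntegral_const, mul_comm]
      exact mul_le_mul_right hj (F η)
    have c2 : ∫⁻ η' in A, F η ∂P ≤ ∫⁻ η', (C * H j η η' + e) ∂P := by
      refine le_trans ?_ (setLIntegral_le_lintegral A _)
      refine setLIntegral_mono ((((mHη j η).const_mul C)).add_const e) fun η' hη' => ?_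
      have e1 : H j η η' = F (M j η' η) := Set.indicator_of_mem hη'.1 F
      rw [e1]
      exact hη'.2
    have c3 : ∫⁻ η', (C * H j η η' + e) ∂P = C * (∫⁻ η', H j η η' ∂P) + e := by
      rw [lintegral_add_right _ measurable_const, lintegral_const, measure_univ, mul_one,
        lintegral_const_mul _ (mHη j η)]
    have c4 : C * (∫⁻ η', H j η η' ∂P) ≤ ∑ j, C * ∫⁻ η', H j η η' ∂P :=
      Finset.single_le_sum (f := fun j => C * ∫⁻ η', H j η η' ∂P) (fun _ _ => bot_le) (Finset.mem_univ j)
    calc p * F η ≤ C * (∫⁻ η', H j η η' ∂P) + e := by rw [← c3]; exact c1.trans c2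
      _ ≤ _ := by gcongr
  have mInt : ∀ j, Measurable (fun η => ∫⁻ η', H j η η' ∂P) := fun j => (mH j).lintegral_prod_right'
  have tot : ∀ j, ∫⁻ η, ∫⁻ η', H j η η' ∂P ∂P = ∫⁻ η in S, F η ∂P := by
    intro j
    have e1 : ∫⁻ η, ∫⁻ η', H j η η' ∂P ∂P = ∫⁻ w, H j w.1 w.2 ∂(P.prod P) := (lintegral_prod _ (mH j).aemeasurable).symm
    have e2 : ∫⁻ w, H j w.1 w.2 ∂(P.prod P) = ∫⁻ w, S.indicator F (M j w.1 w.2) ∂(P.prod P) := by
      have hsw : MeasurePreserving (Prod.swap : Ω × Ω → Ω × Ω) (P.prod P) (P.prod P) := Measure.measurePreserving_swap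
      have := hsw.lintegral_comp (f := fun w : Ω × Ω => S.indicator F (M j w.1 w.2)) (mIF.comp (mp j).measurable)
      rw [← this]
      rfl
    rw [e1, e2, (mp j).lintegral_comp mIF, lintegral_indicator hS]
  calc p * ∫⁻ η in N, F η ∂P = ∫⁻ η in N, p * F η ∂P := by rw [lintegral_const_mul _ hF]
    _ ≤ ∫⁻ η in N, ((∑ j, C * ∫⁻ η', H j η η' ∂P) + e) ∂P := by
        refine setLIntegral_mono ?_ key
        exact (Finset.measurable_sum _ fun j _ => (mInt j).const_mul C).add_const e
    _ ≤ ∫⁻ η, ((∑ j, C * ∫⁻ η', H j η η' ∂P) + e) ∂P := setLIntegral_le_lintegral N _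
    _ = (∑ j, C * ∫⁻ η, ∫⁻ η', H j η η' ∂P ∂P) + e := by
        rw [lintegral_add_right _ measurable_const, lintegral_const, measure_univ, mul_one,
          lintegral_finsetSum _ fun j _ => (mInt j).const_mul C]
        congr 1
        exact Finset.sum_congr rfl fun j _ => lintegral_const_mul _ (mInt j)
    _ = Fintype.card J * C * ∫⁻ η in S, F η ∂P + e := by
        rw [Finset.sum_congr rfl fun j _ => by rw [tot j], Finset.sum_const, Finset.card_univ, nsmul_eq_mul, mul_assoc]

end Pool.Agent.W_7d29a1_C1.Shell28
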