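import Pool.Agent.W_7d29a1_C1.ShlC8
import Pool.Agent.W_7d29a1_C1.FrmH10
import Pool.Agent.W_7d29a1_C1.CbT9

/-!
MP_7d29a1_pr, attractor route (helper8): **SIDE F OF THE SHELL, THE FRAME**. `FrT8` = what is left of `FrS8` after the frame of the fresh
ball (`frF10`, `fin10'`, `cmF10` of helper10) and the structure of one context (`ce9` of helper9), with the order of the constants: the
outer part `SoP8`, the weight `WtP8`, the success `SucP8`, the base sets `FrB8`. `frS_of8 : FrT8 ⇒ FrS8`.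
-/

set_option autoImplicit false

namespace Pool.Agent.W_7d29a1_C1.H8

open MeasureTheory ProbabilityTheory Filter Topology
open Pool.Agent.W_7d29a1_F Pool.Agent.W_7d29a1_h4g Pool.Agent.W_7d29a1_H Pool.Agent.W_7d29a1_HS
open Pool.Agent.W_7d29a1_C1 (On20)
open Pool.Agent.W_7d29a1_C1.T10
open Pool.Agent.W_7d29a1_C1.S71 Pool.Agent.W_7d29a1_C1.Sw9
open Pool.Agent.W_7d29a1_C1.H60 Pool.Agent.W_7d29a1_C1.Lec17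
open Pool.Agent.W_7d29a1_C1.D31 (NV31)
open Pool.Agent.W_7d29a1_C1.Fr47 (Bas47 Sb47 NS47 So47 mSo47 rSo47)
open Pool.Agent.W_7d29a1_C1.Lt9 (Lv9 W47 Suc9 vI9 PI9 bOc ov9 oP9 ce9)
open Pool.Agent.W_7d29a1_C1.FreC35 (FC35)
open Pool.Agent.W_7d29a1_C1.Nbr78 (Str78)
open Pool.Agent.W_7d29a1_C1.H54 (PhC)
open scoped ENNReal NNReal

noncomputable section

/-! ### The three implications of one context -/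

/-- **(S)** : the two outer events of the fresh ball. `T` : radii, `m` : number of scales, `S` : sites, `V` : `V8 ..`, `So` : `So47 Γ σ`. -/
def SoP8 (μ : Measure ℝ) (G : Gd) (T : ℕ → ℕ) (m m₂ : ℕ) (S : Finset (ℕ × ℤ)) (V So : ℕ → ℕ × ℤ → Set Env) (q0 q4 : ℝ) : Prop :=
  ∀ i, 2 ≤ i → i < m → ∀ q₀ ∈ S, ∀ ω ∈ V i q₀, ∃ E0 E5 : Set Env, MeasurableSet E0 ∧ MeasurableSet E5 ∧
    On20 (rows (((G.z (i + m₂) q₀).1 : ℤ) - T (i + m₂)) (((G.z i q₀).1 : ℤ) - T i)) E0 ∧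
    On20 (rows (((G.z i q₀).1 : ℤ) + T i) (((G.z (i + m₂) q₀).1 : ℤ) + T (i + m₂))) E5 ∧
    q0 ≤ (law μ).real E0 ∧ q4 ≤ (law μ).real E5 ∧
    ∀ ζ : Env, (∀ p, p ∉ At (G.x (i + m₂) q₀) (AT T (i + m₂)) → ζ p = ω p) → ζ ∈ E0 → ζ ∈ E5 → ζ ∈ So i (G.z i q₀)

/-- The numbers of the inside of the fresh ball: `d`, `R`, `gg`, `th` of `frF10`; `K'`, `θ'`, `u'` and the levels `P'`, `qi` of `FC35`;
`R₁` : number of blocks of the first buffer. -/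
structure NI8 where
  d : ℝ
  R : ℝ
  gg : ℝ
  th : ℝ
  K' : ℝ
  θ' : ℝ
  u' : ℝ
  P' : ℕ
  qi : ℝ
  R₁ : ℕ

/-- **(W)** : the weight of the fresh ball. -/
def WtP8 (μ : Measure ℝ) (s c : ℝ) (ι : NI8) (G : Gd) (T : ℕ → ℕ) (m m₂ : ℕ) (S : Finset (ℕ × ℤ)) (Γ : Cx)
    (V So : ℕ → ℕ × ℤ → Set Env) (FA FB FX : ℕ → Pt → Env → Prop) (nB TB : ℕ → ℕ) (aa aB zB z' : ℕ → ℕ × ℤ → ℤ) (a : ℝ) : Prop :=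
  ∀ i, 2 ≤ i → i < m → ∀ q₀ ∈ S, ∀ ω ∈ V i q₀, ∀ ζ : Env, (∀ p, p ∉ At (G.x (i + m₂) q₀) (AT T (i + m₂)) → ζ p = ω p) →
    ζ ∈ So i (G.z i q₀) → FA i (G.x i q₀) ζ → FB i (G.x i q₀) ζ → FX i (G.x i q₀) ζ → ∀ (c0 n' : ℕ) (xc : ℝ),
    c0 = cF ι.th ι.R₁ (G.z i q₀).1 (T i) → n' = (G.z i q₀).1 + 5 * T i / 8 - c0 →
    xc = (xm G i q₀ : ℝ) - sl μ s * (((G.z i q₀).1 : ℝ) - c0) →
    ζ ∈ FC35 μ s c ι.θ' ι.K' ι.P' ι.qi ι.u' c0 n' (T i) (nB i) (TB i) (aa i q₀) (aB i q₀) (zB i q₀) (z' i q₀) →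
    InQ10 μ s (1 / 8) ι.d ι.gg ι.R xc G i q₀ (T i) c0 n' ζ → a ≤ ∑ b ∈ QF G i q₀ S 0 Γ.hi, Γ.w b ζ

/-- **(U)** : the literal success from the memberships. -/
def SucP8 (G : Gd) (L m n : ℕ) (S : Finset (ℕ × ℤ)) (Γ : Cx) (Lv : ℕ → ℕ × ℤ → Env → ℕ) (V So : ℕ → ℕ × ℤ → Set Env) (Sb : ℕ → Set Env)
    (Sp : ℕ → ℕ × ℤ → Set Env) (W : Lv9) (a em : ℝ) : Prop :=
  ∀ l, 2 ≤ l → l < m → ∀ c' ∈ S, ∀ η, η ∈ V l c' → η ∈ So l (G.z l c') → sh (G.x l c') η ∈ Sb l →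
    sh (G.x l c') η ∈ Sp l (G.z (l - 1) (G.rel l c')) → η ∉ Rch (lvL G Lv L) (l - 2) c' →
    Suc9 Γ W n a (⌈(n : ℝ) ^ em⌉₊ + 1) l (G.z l c') η

/-- **THE COMMON PART** of all the contexts: base sets, rows. -/
structure FrB8 (μ : Measure ℝ) [IsProbabilityMeasure μ] (ι : NI8) (T H : ℕ → ℕ) (m n₁' : ℕ) (pA pX : ℝ)
    (FA FB FX : ℕ → Pt → Env → Prop) (SA SB SX : ℕ → Set Env) (rB : ℕ → ℤ) (σ : NS47) (n1 D' nB TB : ℕ → ℕ) : Prop where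
  bas : Bas47 μ T 2 m (rA10 ι.th ι.R₁ T) rB (rE10 T) pA (1 / 8) pX FA FB FX SA SB SX
  hA : ∀ j, 2 ≤ j → j < m → rA10 ι.th ι.R₁ T j ≤ -(T (j - 1) : ℤ)
  hB : ∀ j, 2 ≤ j → j < m → rB j ≤ -(T (j - 1) : ℤ)
  eT : σ.T = T
  h1 : ∀ l, 1 ≤ l → l < m → n1 l + 1 ≤ T l
  hD : ∀ l, 1 ≤ l → l < m → T l + H l ≤ D' l + 1
  hD2 : ∀ l < m, D' l ≤ 2 * T l
  hI : ∀ i, 2 ≤ i → i < m → 1 ≤ nB i ∧ (nB i : ℤ) ≤ rE10 T i - rA10 ι.th ι.R₁ T i ∧ n₁' ≤ TB i ∧ nB i ≤ TB i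

/-- **WHAT IS LEFT OF SIDE F**, with the order of the constants: `d`, `R` (boxes) | `gg` (inner radius of the cells) | `th` | `K'`, `θ'`,
`u'` | `P'`, `q'` | `ρ`, `e` | `K₂`, `K` | `B`, `C₀` | `θ`, `Kw` | the tails | `χ` | `U₀`, `qx₀`, `Z`, `m₀`, `kst`, `C'`, `pw` | `m₁`, `g`, `U`, `qx` |
`w₁` | `w₁'` | `q₁` | `R₁`, `qi`, the exponent `a₉` of the success, the levels of `V` | `w₂`, `q₂` | the probabilities, the weight `a`, the exponent `s₀` | `c₂`, `δ`, `κ` | the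
period | `n`. -/
def FrT8 (μ : Measure ℝ) [IsProbabilityMeasure μ] (s c c₁ c₃ : ℝ) : Prop :=
  ∀ d R : ℝ, 0 < d → d ≤ 1 → 1 ≤ R → ∃ gg : ℝ, 0 < gg ∧ gg < d ∧ ∀ th : ℝ, 0 < th → th ≤ 1 / 4 →
    ∃ K' θ' u' : ℝ, 0 < K' ∧ 0 < θ' ∧ θ' ≤ 1 ∧ 0 < u' ∧ ∀ (P' : ℕ) (q' : ℝ), 0 ≤ q' → ∀ ρ e : ℝ, 0 < ρ → ρ ≤ 1 → 0 < e → e ≤ 1 / 32 →
    ∃ K₂ : ℕ, ∀ K : ℕ, K₂ ≤ K → 8 ≤ K → 16 ≤ th * K → ∀ (B : ℕ) (C₀ : ℝ), 2 ≤ B → 1 ≤ C₀ →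
    ∃ θ Kw : ℝ, 0 < θ ∧ θ ≤ 1 ∧ 0 < Kw ∧ ∀ (P : ℕ) (A' a₁ g₁ : ℝ) (n₁ : ℕ), 0 < A' → 0 < a₁ → 0 < g₁ → g₁ ≤ 1 → 1 ≤ n₁ →
      Tl8 μ s c θ Kw P A' a₁ g₁ n₁ → ∃ χ : ℝ, 0 < χ ∧ ∀ (U₀ qx₀ : ℝ) (Z m₀ : ℕ) (kst C' : ℝ) (pw : ℕ), 1 ≤ U₀ → 0 ≤ qx₀ → 1 ≤ Z → 1 ≤ m₀ →
        0 < kst → 1 ≤ C' →
      ∃ (m₁ g : ℕ) (U qx : ℝ), 1 ≤ m₁ ∧ 1 ≤ g ∧ U₀ ≤ U ∧ qx₀ ≤ qx ∧ C' * ((m₀ + m₁ + g : ℕ) : ℝ) ^ pw ≤ U ∧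
        ∀ w₁ : ℝ, 0 < w₁ → ∃ w₁' : ℝ, w₁ ≤ w₁' ∧
        ∀ q₁ : ℝ, 0 < q₁ → ∃ (R₁ : ℕ) (qi a₉ : ℝ) (PV : ℕ) (QV SV gf u : ℝ), 1 ≤ R₁ ∧ q' ≤ qi ∧ 0 < a₉ ∧ 0 < QV ∧ 0 < SV ∧ 0 < gf ∧ 0 < u ∧
          ∀ w₂ q₂ : ℝ, w₁' ≤ w₂ → 0 < q₂ →
          ∃ q0 pA pX q4 a s₀ : ℝ, 0 < q0 ∧ 0 < pA ∧ 0 < pX ∧ 0 < q4 ∧ 0 < a ∧ 0 < s₀ ∧
            ∀ c₂ : ℝ, 0 < c₂ → c₂ ≤ s₀ → ∀ δ : ℝ, 0 < δ → δ ≤ c₂ / 16 → ∃ κ₀ : ℝ, 0 < κ₀ ∧ ∀ κ : ℝ, 0 < κ → κ ≤ κ₀ →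
              ∃ Q₀ : ℕ, 1 ≤ Q₀ ∧ ∀ Q : ℕ, Q₀ ∣ Q → 1 ≤ Q → ∀ n₁' : ℕ, 1 ≤ n₁' → ∀ᶠ n : ℕ in atTop, ∀ G : Gd,
                GW μ s R B C₀ (h8 Q (ρ * e) n) K (m8 K e n + (m₀ + m₁)) G → ∀ ν : NV31,
                  NB8 μ s (Tg (h8 Q (ρ * e) n) K) (m₀ + m₁) ⟨PV, c₁, c₃, QV, SV, w₁, w₁', w₂, kst, q₁, q₂, gf, u⟩ ν →
                  ∃ (FA FB FX : ℕ → Pt → Env → Prop) (SA SB SX : ℕ → Set Env) (rB : ℕ → ℤ) (σ : NS47) (n1 D' nB TB : ℕ → ℕ),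
                    FrB8 μ ⟨d, R, gg, th, K', θ', u', P', qi, R₁⟩ (Tg (h8 Q (ρ * e) n) K) G.H (m8 K e n / Z) n₁' pA pX FA FB FX SA SB SX
                      rB σ n1 D' nB TB ∧ ∀ Γ : Cx, Adm μ s c₂ δ κ n Γ →
                      SoP8 μ G (Tg (h8 Q (ρ * e) n) K) (m8 K e n / Z) (m₀ + m₁) (S8 e K n G Γ) (V8 μ s Γ ν u G) (So47 Γ σ) q0 q4 ∧
                      (∃ aa aB zB z' : ℕ → ℕ × ℤ → ℤ, WtP8 μ s c ⟨d, R, gg, th, K', θ', u', P', qi, R₁⟩ G (Tg (h8 Q (ρ * e) n) K)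
                        (m8 K e n / Z) (m₀ + m₁) (S8 e K n G Γ) Γ (V8 μ s Γ ν u G) (So47 Γ σ) FA FB FX nB TB aa aB zB z' a) ∧
                      SucP8 G (m8 K e n + (m₀ + m₁)) (m8 K e n / Z) n (S8 e K n G Γ) Γ (LvE (m8 K e n + (m₀ + m₁))
                        (EL60 μ s c θ Kw P (Tg (h8 Q (ρ * e) n) K) (yl8 U K χ))) (V8 μ s Γ ν u G) (So47 Γ σ) (Sb47 2 SA SB SX)
                        (Sp10 μ s c θ Kw P (Tg (h8 Q (ρ * e) n) K) 2 (rA10 th R₁ (Tg (h8 Q (ρ * e) n) K)) (rE10 (Tg (h8 Q (ρ * e) n) K)) qx)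
                        (W47 σ n1 D') a₉ (ρ * e / 8)

variable {μ : Measure ℝ} [IsProbabilityMeasure μ]

/-- **THE FRAME OF SIDE F.** -/
theorem frS_of8 {s c C : ℝ} {n₀ : ℕ} (hI : In μ s c C n₀) (hS : Str78 μ s)
    (hE9 : ∀ᶠ n : ℕ in atTop, (n : ℝ) ^ (1 / 9 : ℝ) ≤ EE μ s n) {Sg : Cx → Env → ℝ} (hSg : ∀ Γ : Cx, Γ.Ok → ∀ η, 0 ≤ Sg Γ η) {c₁ c₃ : ℝ}
    (H : FrT8 μ s c c₁ c₃) : FrS8 μ s c c₁ c₃ PhC Sg := by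
  obtain ⟨d, hd, hd1, R, hR, HF⟩ := frV10 hI (show (0 : ℝ) < 1 / 8 by norm_num) (show (0 : ℝ) < 1 / 8 by norm_num)
  obtain ⟨gg, hgg, hggd, H⟩ := H d R hd hd1 hR
  obtain ⟨th, hth, hth4, HF⟩ := HF gg hgg hggd
  obtain ⟨K', θ', u', hK', hθ', hθ'1, hu', H⟩ := H th hth hth4
  obtain ⟨P', q', hq', HF⟩ := HF K' θ' u' hK' hθ' hθ'1 hu'
  refine ⟨1, one_pos, fun ρ hρ hρ1 _ e he he1 => ?_⟩
  obtain ⟨K₃, H⟩ := H P' q' hq' ρ e hρ hρ1 he he1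
  obtain ⟨K₂, hK₂⟩ : ∃ K₂ : ℕ, K₂ = max K₃ (max 8 ⌈16 / th⌉₊) := ⟨_, rfl⟩
  have k1 : K₃ ≤ K₂ := hK₂ ▸ le_max_left _ _
  have k2 : 8 ≤ K₂ := hK₂ ▸ (le_max_left _ _).trans (le_max_right _ _)
  have k3 : ⌈16 / th⌉₊ ≤ K₂ := hK₂ ▸ (le_max_right _ _).trans (le_max_right _ _)
  refine ⟨R, K₂, hR, by omega, fun K hK B C₀ hB hC => ?_⟩
  have hK8 : 8 ≤ K := k2.trans hK
  have hKth : 16 ≤ th * K := by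
    have h1 : 16 / th ≤ (K : ℝ) := (Nat.le_ceil _).trans (by exact_mod_cast k3.trans hK)
    rw [div_le_iff₀ hth] at h1
    linarith
  obtain ⟨θ, Kw, hθ, hθ1, hKw, H⟩ := H K (k1.trans hK) hK8 hKth B C₀ hB hC
  refine ⟨θ, Kw, hθ, hθ1, hKw, fun P A' a₁ g₁ n₁ hA' ha₁ hg₁ hg₁1 hn₁ hT => ?_⟩
  obtain ⟨χ, hχ, H⟩ := H P A' a₁ g₁ n₁ hA' ha₁ hg₁ hg₁1 hn₁ hT
  obtain ⟨U₀, qx₀, hU₀, hqx₀, HU⟩ := fin10' (C₀ := C₀) (ε := 1 / 8) hA' ha₁ hg₁ hT (show 2 ≤ K by omega) hχ (by linarith) (by norm_num)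
  refine ⟨χ, hχ, fun Z m₀ kst C' pw hZ hm₀ hkst hC' => ?_⟩
  obtain ⟨m₁, g, U, qx, hm₁, hg, hU, hqx, hCU, H⟩ := H U₀ qx₀ Z m₀ kst C' pw hU₀ hqx₀ hZ hm₀ hkst hC'
  refine ⟨m₁, g, U, hm₁, hg, hCU, fun w₁ hw₁ => ?_⟩
  obtain ⟨w₁', hw₁', H⟩ := H w₁ hw₁
  refine ⟨w₁', hw₁', fun q₁ hq₁ => ?_⟩
  obtain ⟨R₁, qi, a₉, PV, QV, SV, gf, u, hR₁, hqi, ha₉, hQV, hSV, hgf, hu, H⟩ := H q₁ hq₁
  obtain ⟨n₁', hn₁', HF⟩ := HF R₁ hR₁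
  refine ⟨PV, QV, SV, gf, u, hQV, hSV, hgf, hu, fun w₂ q₂ hw₂ hq₂ => ?_⟩
  obtain ⟨q0, pA, pX, q4, a, s₀, hq0, hpA, hpX, hq4, ha, hs₀, H⟩ := H w₂ q₂ hw₂ hq₂
  have hFin : Fin10 μ s c θ Kw P χ C₀ K (1 / 8) n₁ U qx := HU U qx hU hqx
  have he₀ : 0 < ρ * e := mul_pos hρ he
  have hee : ρ * e ≤ e := mul_le_of_le_one_left he.le hρ1
  obtain ⟨s₁, hs₁⟩ : ∃ s₁ : ℝ, s₁ = min s₀ (1 / 100) := ⟨_, rfl⟩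
  have s1 : s₁ ≤ s₀ := hs₁ ▸ min_le_left _ _
  have s2 : s₁ ≤ 1 / 100 := hs₁ ▸ min_le_right _ _
  have s3 : 0 < s₁ := hs₁ ▸ lt_min hs₀ (by norm_num)
  refine ⟨5, fiveR q0 pA (1 - (1 / 8 + 1 / 8 + 1 / 8)) pX q4, a, s₁, fun j _ => fiveR_pos hq0 hpA (by norm_num) hpX hq4 j, ha, s3,
    fun c₂ hc₂ hc₂s δ hδ hδc => ?_⟩
  obtain ⟨κa, hκa, H⟩ := H c₂ hc₂ (hc₂s.trans s1) δ hδ hδc
  obtain ⟨κb, hκb, HC⟩ := ce9 hI hS hE9 (a := a₉) (e := e) (em := ρ * e / 8) ha₉ he1 (by positivity)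
  have HC := HC c₂ (by linarith) δ hδ.le (by linarith)
  refine ⟨min κa κb, lt_min hκa hκb, fun κ hκ hκκ => ?_⟩
  obtain ⟨Q₀, hQ₀, H⟩ := H κ hκ (hκκ.trans (min_le_left _ _))
  refine ⟨Q₀, hQ₀, fun Q hQQ hQ => ?_⟩
  have ev : ∀ {y : ℝ}, 0 < y → ∀ M : ℝ, ∀ᶠ n : ℕ in atTop, M ≤ (n : ℝ) ^ y := fun hy M =>
    ((tendsto_rpow_atTop hy).comp tendsto_natCast_atTop_atTop).eventually_ge_atTop M
  filter_upwards [H Q hQQ hQ n₁' hn₁', HC κ (hκκ.trans (min_le_right _ _)), gridN8 (x := m₀ + m₁) he he1 he₀ hee (by omega : 2 ≤ K) hQ,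
    ev (show (0 : ℝ) < ρ * e / 4 by positivity) (max n₁ n₁' : ℕ)] with n H HC hg8 hbig
  intro G g8 ν hν
  have hh : max n₁ n₁' ≤ h8 Q (ρ * e) n := by exact_mod_cast hbig.trans hg8.h1
  obtain ⟨FA, FB, FX, SA, SB, SX, rB, σ, n1, D', nB, TB, hFB, H⟩ := H G g8 ν hν
  obtain ⟨T, hTe⟩ : ∃ T : ℕ → ℕ, T = Tg (h8 Q (ρ * e) n) K := ⟨_, rfl⟩
  have hbas := hFB.bas
  have eσ := hFB.eT
  have h2 : (W47 σ n1 D').T = Tg (h8 Q (ρ * e) n) K := eσ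
  refine ⟨Sb47 2 SA SB SX, Sp10 μ s c θ Kw P (Tg (h8 Q (ρ * e) n) K) 2 (rA10 th R₁ (Tg (h8 Q (ρ * e) n) K)) (rE10 (Tg (h8 Q (ρ * e) n) K)) qx,
    vI9 s (W47 σ n1 D'), PI9 s (W47 σ n1 D'), ?_, fun Γ hA => ?_⟩
  · refine cmF10 g8 hK8 (by omega) hbas hFB.hA hFB.hB (fun l hl y => ?_) (fun l hl y => ?_)
    · have h1 := ov9 s (W47 σ n1 D') (l := l) (by
        show D' l ≤ 2 * σ.T l
        rw [eσ]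
        exact hFB.hD2 l hl) y
      rwa [h2] at h1
    · have h1 := oP9 s (W47 σ n1 D') (l := l) (by
        show D' l ≤ 2 * σ.T l
        rw [eσ]
        exact hFB.hD2 l hl) y
      rwa [h2] at h1
  · obtain ⟨hSo, ⟨aa, aB, zB, z', hWt⟩, hSuc⟩ := H Γ hA
    obtain ⟨Bd, HB⟩ := HC Γ hA
    have hL : ∀ i < m8 K e n / Z, i + (m₀ + m₁) ≤ m8 K e n + (m₀ + m₁) := fun i hi =>
      Nat.add_le_add_right (hi.le.trans (Nat.div_le_self _ _)) _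
    obtain ⟨s1', s2', s3'⟩ := so10 (Γ := Γ) g8.ok eσ (m := m8 K e n / Z) ((Nat.div_le_self _ _).trans (Nat.le_add_right _ _))
    refine ⟨fun j z => So47 Γ σ j (G.z j z), bOc Γ (W47 σ n1 D'), Bd, ?_⟩
    obtain ⟨Sp, hSp⟩ : ∃ Sp : ℕ → ℕ × ℤ → Set Env, Sp = Sp10 μ s c θ Kw P (Tg (h8 Q (ρ * e) n) K) 2
      (rA10 th R₁ (Tg (h8 Q (ρ * e) n) K)) (rE10 (Tg (h8 Q (ρ * e) n) K)) qx := ⟨_, rfl⟩
    rw [← hSp] at hSuc ⊢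
    obtain ⟨D, hD⟩ : ∃ D : Sd8, D = D8 μ s c θ Kw P U χ e (ρ * e) K Q Z (m₀ + m₁) n G (Sb47 2 SA SB SX) Sp
      (vI9 s (W47 σ n1 D')) (PI9 s (W47 σ n1 D')) := ⟨_, rfl⟩
    have hD' := hD
    rw [hSp] at hD'
    have eG : D.G = G := by rw [hD]; rfl
    have eL : D.L = m8 K e n + (m₀ + m₁) := by rw [hD]; rfl
    have em : D.m = m8 K e n / Z := by rw [hD]; rfl
    have eLv : D.Lv = LvE (m8 K e n + (m₀ + m₁)) (EL60 μ s c θ Kw P (Tg (h8 Q (ρ * e) n) K) (yl8 U K χ)) := by rw [hD]; rfl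
    have eS : D.S n e Γ = S8 e K n G Γ := by rw [hD]; rfl
    have fr := HF qi hqi hFin hK8 hKth (by norm_num) g8 ((le_max_left _ _).trans hh) ((le_max_right _ _).trans hh) (by omega) rfl hν hbas
        (fun j h3 h4 => by
          have h5 := hFB.hB j h3 h4
          have h6 := rE10_nn (Tg (h8 Q (ρ * e) n) K) j
          omega) hD' hA.ok (u := u) (σ := σ) (q0 := q0) (q4 := q4) (a := a) (by rw [eS]; exact hSo) nB TB aa aB zB z' hFB.hI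
        (by rw [eS]; exact hWt)
    have key : Ce8 μ s D (W47 σ n1 D').T (Sb47 2 SA SB SX) Sp n (m₀ + m₁) 5 (fiveR q0 pA (1 - (1 / 8 + 1 / 8 + 1 / 8)) pX q4) e a s₁ Γ
        (PhC Γ) (Sg Γ) (V8 μ s Γ ν u G) (fun j z => So47 Γ σ j (G.z j z)) (bOc Γ (W47 σ n1 D')) Bd := by
      refine HB (W47 σ n1 D') D _ _ (m₀ + m₁) 5 _ a s₁ (Sg Γ) (V8 μ s Γ ν u G) _ (by rw [eG, eL]; exact g8.ok) (fun l hl => ?_)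
        (by rw [hD]; rfl) (by rw [hD]; rfl) s2 (fun η => hSg Γ hA.ok η) (fun l hl l1 => ?_) (by rw [em]; exact s1')
        (by rw [em, h2, eG]; exact s2') ?_ (fun l hl c' hc' η _ b1 b2 b3 b4 b5 => ?_)
      · rw [em] at hl
        rw [eL]
        exact (hl.le.trans (Nat.div_le_self _ _)).trans (Nat.le_add_right _ _)
      · rw [em] at hl
        have hlm : l ≤ m8 K e n := hl.le.trans (Nat.div_le_self _ _)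
        rw [h2, eG]
        refine ⟨hFB.h1 l l1 hl, hFB.hD l l1 hl, ?_⟩
        have h3 := hg8.TL
        have h4 : (Tg (h8 Q (ρ * e) n) K l : ℝ) ≤ Tg (h8 Q (ρ * e) n) K (m8 K e n + (m₀ + m₁)) := by
          exact_mod_cast Tg_mono (show 1 ≤ K by omega) (hlm.trans (Nat.le_add_right _ _))
        have h5 : (0 : ℝ) ≤ Tg (h8 Q (ρ * e) n) K l := Nat.cast_nonneg _
        push_cast
        linarith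
      · rw [h2, hSp]
        exact fr
      · rw [em] at hl
        rw [eS] at hc'
        rw [eG] at b1 b2 b3 b4 b5 ⊢
        rw [eL, eLv] at b5
        have hj := V8_low10 g8.ok (by rw [hν.em]; exact hL l hl) b1
        rw [V8_base g8.ok (by rw [hν.em]; exact hL l hl)] at b1
        have b2' : η ∈ So47 Γ σ l (G.z l (G.z l c')) := b2
        rw [s3' l hl] at b2'
        have hl2 : 2 ≤ l := hν.hj.trans hj.1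
        exact ⟨by omega, hSuc l hl2 hl c' hc' η b1 b2' b3 b4 b5⟩
    rw [h2] at key
    rw [← hD]
    exact key

end

end Pool.Agent.W_7d29a1_C1.H8
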