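import Pool.Agent.W_7d29a1_C1.SiC62

/-!
MP_7d29a1_pr, attractor route, [C1] SEP: THE PART (d) OF `wqC98` IN HELPER98'S FORM, from `siC62`. (helper62)

`siD62` : one exponent `e3` (stages before `LB`, nonnegative), every `zs` of the stages before `R1`, every tilt constant `kap ≤ c / 8`.
-/

set_option autoImplicit false

namespace Pool.Agent.W_7d29a1_C1.Sz62

open Finset MeasureTheory Filter
open Pool.Agent.W_7d29a1_F hiding Bw G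
open Pool.Agent.W_7d29a1_h4g Pool.Agent.W_7d29a1_HS
open Pool.Agent.W_7d29a1_H hiding ex gg
open Pool.Agent.W_7d29a1_C1
open Pool.Agent.W_7d29a1_C1.H60
open Pool.Agent.W_7d29a1_C1.G37 (Gm)
open Pool.Agent.W_7d29a1_C1.SF98 (Tx)
open Pool.Agent.W_7d29a1_C1.D98
open Pool.Agent.W_7d29a1_C1.N49
open Pool.Agent.W_7d29a1_C1.Q49
open Pool.Agent.W_7d29a1_C1.Cs2

noncomputable section

variable {μ : Measure ℝ} {s c Cc : ℝ} {n₀ : ℕ}

/-- A larger constant of the tilt. -/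
theorem ew_monoK [IsProbabilityMeasure μ] {kap kap' : ℝ} {P : Pre} {N : NmF} {F : Cf98} (hk : kap ≤ kap')
    {φ : Cx → Gm → ℕ → ℕ → (ℕ → ℝ) → ℕ → ℤ × ℤ → Prop} (h : Ew98 μ s c kap' P N F φ) : Ew98 μ s c kap P N F φ := by
  obtain ⟨n₁, H⟩ := h
  exact ⟨n₁, fun Γ G mt τ0 E u κ W => H Γ G mt τ0 E u κ ⟨W.w.monoK hk, W.aS, W.kb, W.nosw, W.tc⟩⟩

/-- **THE PART (d).** -/
theorem siD62 [IsProbabilityMeasure μ] (hI : In μ s c Cc n₀) (ε : ℝ) : ∃ e3 : Cst → ℝ, (∀ C : Cst, e3 (C.cut .LB) = e3 C) ∧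
    (EvC (S0 μ s c Cc ε) fun C => 0 ≤ e3 C) ∧ ∀ zs : Cst → ℝ, (∀ C : Cst, zs (C.cut .R1) = zs C) →
      EvC (S0 μ s c Cc ε) fun C => ∀ kap : ℝ, kap ≤ c / 8 → Ew98 μ s c kap C.P (nm62 μ s c ε C) (cf62 C) fun Γ G _mt _τ0 E u κ =>
        SiP98 μ s Γ G (nm62 μ s c ε C Γ G E) u κ (Tx ((Fam98o μ s c C.P (nm62 μ s c ε C) (cf62 C)).TT Γ G E) (fun u => E u / 16) u κ)
          (TF98 μ s c (nm62 μ s c ε C) (cf62 C) Γ G E u κ) (e3 C) ∧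
        StP98 μ s Γ G (nm62 μ s c ε C Γ G E) u κ (Tx ((Fam98o μ s c C.P (nm62 μ s c ε C) (cf62 C)).TT Γ G E) (fun u => E u / 16) u κ)
          (TF98 μ s c (nm62 μ s c ε C) (cf62 C) Γ G E u κ) (zs C) := by
  obtain ⟨X, hX, H⟩ := siC62 hI ε
  refine ⟨fun C => e62 c (max 0 (X C)) C.Qg (C.sgm * C.R2) C.bS, fun C => ?_, ?_, fun zs hzs => ?_⟩
  · show e62 c (max 0 (X (C.cut .LB))) C.Qg (C.sgm * C.R2) C.bS = _
    rw [hX]
  · filter_upwards [FC.sgm_le (S0 μ s c Cc ε) (fun _ => 1) (fun _ => one_pos), FC.bS_ge (S0 μ s c Cc ε) fun _ => 0,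
      FC.R2_ge (S0 μ s c Cc ε) fun _ => 0, sg2 (μ := μ) (s := s) (c := c) (Cc := Cc) (ε := ε)] with C h1 h2 h3 h4
    have h5 := hI.c0
    have h6 : 0 ≤ max 0 (X C) := le_max_left _ _
    have h7 : 0 ≤ C.sgm * C.R2 := mul_nonneg h1.1.le h3
    have h8 : 0 ≤ C.Qg := h4.Qg
    have h9 : 0 ≤ C.bS := h2
    have h10 : 0 ≤ c / 8 * (C.bS + 1) := by positivity
    show 0 ≤ 1 + 3 * max 0 (X C) + C.Qg + 2 * (C.sgm * C.R2 + 1 / 16) + c / 8 * (C.bS + 1)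
    linarith
  · filter_upwards [H zs hzs (c / 8) le_rfl] with C h kap hk
    exact ew_monoK hk (h (max 0 (X C)) (le_max_right _ _))

end

end Pool.Agent.W_7d29a1_C1.Sz62
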