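import Pool.Agent.W_7d29a1_C1.YSeamP54
import Pool.Agent.W_7d29a1_C1.Near83

/-!
MP_7d29a1_pr, the attractor route, (Y) BY CORNERS: THE SHIFT OF THE FUTURE OF A CONTACT (helper54). `sg k` reads the rows after `k` one
column further right. It preserves the law, it does not touch the rows `≤ k`, and it moves the total masses and the balance point by the
ratio of the futures of neighbouring sites only.
-/

set_option autoImplicit false

namespace Pool.Agent.W_7d29a1_C1.H54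

open MeasureTheory Filter Topology Finset
open Pool.Agent.W_7d29a1_F Pool.Agent.W_7d29a1_h4g Pool.Agent.W_7d29a1_H Pool.Agent.W_7d29a1_HS
open Pool.Agent.W_7d29a1_C1.K91 (Box Grp cut zs jn wt wt_pos measurable_wt)
open Pool.Agent.W_7d29a1_C1.K91P
open Pool.Agent.W_7d29a1_C1.H60
open Pool.Agent.W_7d29a1_C1.H60.Cx (l)
open Pool.Agent.W_7d29a1_C1.L91 (Msk Nb fC)

noncomputable section

/-- The rows after `k` are read one column further right. -/
def sg (k : ℕ) (η : Env) : Env := fun a => η (if (k : ℤ) < a.1 then (a.1, a.2 + 1) else a)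

theorem mp_sg {μ : Measure ℝ} [IsProbabilityMeasure μ] (k : ℕ) : MeasurePreserving (sg k) (law μ) (law μ) := by
  refine ⟨measurable_pi_iff.2 fun a => measurable_pi_apply _, ?_⟩
  refine Measure.map_infinitePi_infinitePi_of_inj (P := fun _ : Pt => μ)
    (f := fun a : Pt => if (k : ℤ) < a.1 then (a.1, a.2 + 1) else a) ?_
  rintro ⟨a, x⟩ ⟨b, y⟩ h
  simp only at h
  split_ifs at h <;> simp only [Prod.mk.injEq] at h ⊢ <;> omega

theorem meas_sg (k : ℕ) : Measurable (sg k) := measurable_pi_iff.2 fun _ => measurable_pi_apply _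

theorem wt_sg_le (η : Env) {i k : ℕ} (h : i ≤ k) (y : ℤ) : wt (sg k η) i y = wt η i y := by
  unfold wt sg
  rw [if_neg (show ¬ (k : ℤ) < (((i : ℤ), y) : Pt).1 by
    show ¬ (k : ℤ) < (i : ℤ)
    omega)]

theorem wt_sg_gt (η : Env) {i k : ℕ} (h : k < i) (y : ℤ) : wt (sg k η) i y = wt η i (y + 1) := by
  unfold wt sg
  rw [if_pos (show (k : ℤ) < (((i : ℤ), y) : Pt).1 by
    show (k : ℤ) < (i : ℤ)
    omega)]

theorem fw_sg (η : Env) {p : ℕ → ℝ} {m : ℤ → ℝ} {i k : ℕ} (h : i ≤ k + 1) (y : ℤ) : fw (wt (sg k η)) p m i y = fw (wt η) p m i y :=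
  fw_congr i (fun j hj z => wt_sg_le η (by omega) z) y

theorem bw_sg (η : Env) {p : ℕ → ℝ} {k i : ℕ} (h : k < i) (j : ℕ) (y : ℤ) : bw (wt (sg k η)) p i j y = bw (wt η) p i j (y + 1) := by
  have h1 := H83.bw_shift (p := p) (w := wt (sg k η)) (w' := wt η) j i (y + 1) (fun i' hi' z => by
    rw [wt_sg_gt η (by omega), sub_add_cancel])
  rw [h1, add_sub_cancel_right]

theorem GG_sg (η : Env) {p : ℕ → ℝ} {N : ℕ} (k : ℕ) (y : ℤ) : GG (wt (sg k η)) p N k y = GG (wt η) p N k (y + 1) := by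
  unfold GG
  rw [bw_sg η (by omega), bw_sg η (by omega)]

theorem fC_sg (Γ : Cx) (η : Env) (k : ℕ) (y : ℤ) : fC Γ (sg k η) k y = fC Γ η k (y + 1) := bw_sg η (by omega) _ _

variable {Γ : Cx}

/-- The ratios of the futures of neighbouring sites of the row `k`, seen from the groups. -/
def Nx (Γ : Cx) (k : ℕ) (X : ℝ) (η : Env) : Prop := ∀ z ∈ Icc (0 : ℤ) (Γ.k + k),
  |Real.log (GG (wt η) Γ.p Γ.N k (z + 1)) - Real.log (GG (wt η) Γ.p Γ.N k z)| ≤ X

theorem NB54.nx {X : ℝ} {η : Env} (h : NB54 Γ X η) {k : ℕ} (hk : k < Γ.N) : Nx Γ k X η := by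
  intro z hz
  have hz' := mem_Icc.1 hz
  have hb := h
  have f0 : ∀ y, 0 < fC Γ η k y := fun y => bw_pos (wt_pos η) Γ.p_pos _ _ _
  have h1 := h (k + 1) (Γ.N - (k + 1)) (by omega) (z + 1) (mem_Icc.2 ⟨by omega, by unfold Cx.hi; omega⟩)
  have h2 := h (k + 1) (Γ.N - (k + 1)) (by omega) (z + 1 + 1) (mem_Icc.2 ⟨by omega, by unfold Cx.hi; omega⟩)
  rw [add_sub_cancel_right] at h1 h2
  have a1 := L91.le_of_log (f0 (z + 1)) (f0 z) h1
  have a2 := L91.le_of_log (f0 (z + 1 + 1)) (f0 (z + 1)) h2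
  have hp := Γ.p_pos k
  have g1 := f0 z
  have g2 := f0 (z + 1)
  have g3 := f0 (z + 1 + 1)
  rw [L91.GG_fC, L91.GG_fC]
  refine L91.log_of_le (by positivity) (by positivity) ?_ ?_
  · have := mul_le_mul_of_nonneg_left a2.1 hp.le
    linarith [a1.1]
  · have := mul_le_mul_of_nonneg_left a2.2 hp.le
    linarith [a1.2]

/-- The masses of the earlier rows move at most by the factor `exp X`. -/
theorem bw_sg_le {k : ℕ} (hk : k < Γ.N) {X : ℝ} {η : Env} (hX : Nx Γ k X η) : ∀ (j : ℕ), j ≤ k → ∀ y : ℤ, 0 ≤ y → y + j ≤ Γ.k + k →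
    bw (wt (sg k η)) Γ.p (k - j) (Γ.N - (k - j)) y ≤ Real.exp X * bw (wt η) Γ.p (k - j) (Γ.N - (k - j)) y ∧
    bw (wt η) Γ.p (k - j) (Γ.N - (k - j)) y ≤ Real.exp X * bw (wt (sg k η)) Γ.p (k - j) (Γ.N - (k - j)) y
  | 0, _, y, h0, h1 => by
    rw [Nat.sub_zero, bw_eq hk, bw_eq hk, wt_sg_le η le_rfl, GG_sg]
    have a := L91.le_of_log (GG_pos (N := Γ.N) (wt_pos η) Γ.p_pos k (y + 1)) (GG_pos (N := Γ.N) (wt_pos η) Γ.p_pos k y)
      (hX y (mem_Icc.2 ⟨h0, by push_cast at h1; omega⟩))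
    have w0 := wt_pos η k y
    constructor
    · have := mul_le_mul_of_nonneg_left a.1 w0.le
      linarith
    · have := mul_le_mul_of_nonneg_left a.2 w0.le
      linarith
  | j + 1, hj, y, h0, h1 => by
    have e1 : Γ.N - (k - (j + 1)) = (Γ.N - (k - j)) + 1 := by omega
    have e2 : k - (j + 1) + 1 = k - j := by omega
    rw [e1, bw_succ, bw_succ, e2, wt_sg_le η (by omega)]
    push_cast at h1
    have a := bw_sg_le hk hX j (by omega) y h0 (by omega)
    have b := bw_sg_le hk hX j (by omega) (y + 1) (by omega) (by omega)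
    have w0 := wt_pos η (k - (j + 1)) y
    have hp := Γ.p_pos (k - (j + 1))
    constructor
    · have c1 := mul_le_mul_of_nonneg_left b.1 hp.le
      have c2 := mul_le_mul_of_nonneg_left (add_le_add a.1 c1) w0.le
      refine c2.trans (le_of_eq ?_)
      ring
    · have c1 := mul_le_mul_of_nonneg_left b.2 hp.le
      have c2 := mul_le_mul_of_nonneg_left (add_le_add a.2 c1) w0.le
      refine c2.trans (le_of_eq ?_)
      ring

theorem bw0_sg_le {k : ℕ} (hk : k < Γ.N) {X : ℝ} {η : Env} (hX : Nx Γ k X η) {y : ℤ} (h0 : 0 ≤ y) (h1 : y ≤ Γ.k) :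
    bw (wt (sg k η)) Γ.p 0 Γ.N y ≤ Real.exp X * bw (wt η) Γ.p 0 Γ.N y ∧
    bw (wt η) Γ.p 0 Γ.N y ≤ Real.exp X * bw (wt (sg k η)) Γ.p 0 Γ.N y := by
  have h := bw_sg_le hk hX k le_rfl y h0 (by omega)
  rw [Nat.sub_self, Nat.sub_zero] at h
  exact h

theorem ZM_sg {k : ℕ} (hk : k < Γ.N) {X : ℝ} {η : Env} (hX : Nx Γ k X η) :
    |Real.log (Γ.ZM (sg k η)) - Real.log (Γ.ZM η)| ≤ X := by
  have h := bw0_sg_le hk hX (y := 0) le_rfl (by positivity)
  exact L91.log_of_le (Γ.ZM_pos _) (Γ.ZM_pos _) h.1 h.2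

theorem Z0_sg (hG : Γ.Ok) {k : ℕ} (hk : k < Γ.N) {X : ℝ} {η : Env} (hX : Nx Γ k X η) :
    |Real.log (Γ.Z0 (sg k η)) - Real.log (Γ.Z0 η)| ≤ X := by
  refine L91.log_of_le (Cx.Z0_pos hG _) (Cx.Z0_pos hG _) ?_ ?_
  · unfold Cx.Z0
    rw [mul_sum]
    refine sum_le_sum fun y _ => ?_
    by_cases hy : 1 ≤ y ∧ y ≤ Γ.k
    · have h := bw0_sg_le hk hX (y := y - 1) (by omega) (by omega)
      have := mul_le_mul_of_nonneg_left h.1 (Cx.r_nonneg hG y)
      linarith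
    · rw [Cx.r_out Γ hy]
      simp
  · unfold Cx.Z0
    rw [mul_sum]
    refine sum_le_sum fun y _ => ?_
    by_cases hy : 1 ≤ y ∧ y ≤ Γ.k
    · have h := bw0_sg_le hk hX (y := y - 1) (by omega) (by omega)
      have := mul_le_mul_of_nonneg_left h.2 (Cx.r_nonneg hG y)
      linarith
    · rw [Cx.r_out Γ hy]
      simp

theorem ZR_sg (hG : Γ.Ok) {k : ℕ} (hk : k < Γ.N) {X : ℝ} {η : Env} (hX : Nx Γ k X η) :
    |Real.log (Γ.ZR (sg k η)) - Real.log (Γ.ZR η)| ≤ X := by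
  refine L91.log_of_le (Cx.ZR_pos hG _) (Cx.ZR_pos hG _) ?_ ?_
  · unfold Cx.ZR
    rw [mul_sum]
    refine sum_le_sum fun y _ => ?_
    by_cases hy : 1 ≤ y ∧ y ≤ Γ.k
    · have h := bw0_sg_le hk hX (y := y) (by omega) (by omega)
      have := mul_le_mul_of_nonneg_left h.1 (Cx.r_nonneg hG y)
      linarith
    · rw [Cx.r_out Γ hy]
      simp
  · unfold Cx.ZR
    rw [mul_sum]
    refine sum_le_sum fun y _ => ?_
    by_cases hy : 1 ≤ y ∧ y ≤ Γ.k
    · have h := bw0_sg_le hk hX (y := y) (by omega) (by omega)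
      have := mul_le_mul_of_nonneg_left h.2 (Cx.r_nonneg hG y)
      linarith
    · rw [Cx.r_out Γ hy]
      simp

/-- **The balance point moves at most by `2 X`.** -/
theorem B_sg (hG : Γ.Ok) {k : ℕ} (hk : k < Γ.N) {X : ℝ} {η : Env} (hX : Nx Γ k X η) : |Γ.B (sg k η) - Γ.B η| ≤ 2 * X := by
  have h1 := ZM_sg hk hX
  have h2 := Z0_sg hG hk hX
  unfold Cx.B
  rw [abs_le] at h1 h2 ⊢
  constructor <;> linarith [h1.1, h1.2, h2.1, h2.2]

end

end Pool.Agent.W_7d29a1_C1.H54
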