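import Pool.Agent.W_7d29a1_C1.SitW62
import Pool.Agent.W_7d29a1_C1.GwF52
import Pool.Agent.W_7d29a1_C1.E2H97
import Pool.Agent.W_7d29a1_C1.CorK71
import Pool.Agent.W_7d29a1_C1.NumH58
import Pool.Agent.W_7d29a1_C1.NumX32

/-!
MP_7d29a1_pr, attractor route, [C1] SEP: **THE FIELDS `site` AND `st` OF `WQ28`** OVER THE CONCRETE WINDOW OF SepE98. (helper62)

`T` = typical set (`St`, `Fw`, `OuT` at the radii `R₂`, `R₁`), `TF ⊆ TP98 ∩ OuTl (R₂, R₁)`; `Pr`, `Ro` (`exp (Cd E)`, helper52's `ratT52`).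
* **`siteE62`** : the field `site`, `e₁ := exp (-(e62 ..) E)`, every constant of `e62` before the luck;
* **`stE62`** : the field `st`, `s0 := exp (-zs E)`, one line of constants, linear in `b₀` (radius `R₁`), and `kb` beyond `a₀`;
* `ordE62` : the line, for `b₀ = R₁ - 1`, tame level `sgm R₁`, `sgm ≤ c / 80`.
-/

set_option autoImplicit false

namespace Pool.Agent.W_7d29a1_C1.Sz62

open Finset MeasureTheory Filter
open Pool.Agent.W_7d29a1_F hiding Bw G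
open Pool.Agent.W_7d29a1_h4g Pool.Agent.W_7d29a1_HS
open Pool.Agent.W_7d29a1_H hiding ex gg
open Pool.Agent.W_7d29a1_C1
open Pool.Agent.W_7d29a1_C1.K91 (wt wt_pos)
open Pool.Agent.W_7d29a1_C1.K91P (bw bw_pos)
open Pool.Agent.W_7d29a1_C1.U16 (ker lat16)
open Pool.Agent.W_7d29a1_C1.H60
open Pool.Agent.W_7d29a1_C1.H75 (hc)
open Pool.Agent.W_7d29a1_C1.G37 (Gm)
open Pool.Agent.W_7d29a1_C1.Rt22 (Ro)
open Pool.Agent.W_7d29a1_C1.Ou37 (Zo OuT)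
open Pool.Agent.W_7d29a1_C1.SD53
open Pool.Agent.W_7d29a1_C1.Sy78 (St Rg)
open Pool.Agent.W_7d29a1_C1.PW58
open Pool.Agent.W_7d29a1_C1.E2H97 (OuTl)
open Pool.Agent.W_7d29a1_C1.Ge52 (Cm52)
open Pool.Agent.W_7d29a1_C1.MC71 (Inn rg71 x0_71)
open Pool.Agent.W_7d29a1_C1.D98

noncomputable section

attribute [local instance 10] Classical.propDecidable

variable {μ : Measure ℝ} {s c C : ℝ} {n₀ : ℕ}

/-- The exponent of the field `site`. -/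
def e62 (c Cd Q x₂ bS : ℝ) : ℝ := 1 + 3 * Cd + Q + 2 * (x₂ + 1 / 16) + c / 8 * (bS + 1)

/-- One slope on the gate block. -/
theorem slope62 {Γ : Cx} {G : Gm} {P : Nm98} {u : ℕ} {κ : ℤ × ℤ} (hF : Fit98 G P u) (hN : NoSw98 Γ G u κ) :
    ∃ g : ℝ, ((g = Γ.h ∧ G.ra u κ - 1 + 5 * P.n u ≤ Γ.M) ∨ (g = 0 ∧ Γ.M ≤ G.ra u κ - 1)) ∧ |g| ≤ |Γ.h| := by
  have h1 := rl_T98 (Γ := Γ) (κ := κ) hF
  rw [rl_eq98, ag_eq98] at h1
  rcases noM98 hN with h2 | h2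
  · exact ⟨0, Or.inr ⟨rfl, h2⟩, by rw [abs_zero]; exact abs_nonneg _⟩
  · exact ⟨Γ.h, Or.inl ⟨rfl, by omega⟩, le_rfl⟩

/-- **THE FIELD `site`.** -/
theorem siteE62 [IsProbabilityMeasure μ] (h : In μ s c C n₀) : ∃ n₁ : ℕ, ∀ {Γ : Cx} {G : Gm} {P : Nm98} {Rn : Nr98} {u : ℕ}
    {κ : ℤ × ℤ} {kw : ℝ} {τ0 : ℕ}, Cm52 μ s c Γ G kw n₁ u → 0 ≤ G.rcc u κ → G.re u κ ≤ Γ.N → Ok98 G P Rn τ0 → τ0 < u →
    ∀ {kc R G₀ : ℝ} {j M : ℕ} {A B p₀ ε : ℝ} {n₂ : ℕ},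
    NumT58 μ s c kc R G₀ j P.K1h M P.K2h P.Uc P.Qc P.U1 P.Q1 P.U P.Q A B P.Y p₀ ε n₂ (G.T u) (P.n u) (P.m u) (P.K1 u) (P.K2 u) →
    0 ≤ P.Q → ∀ {aS bS β : ℝ}, G.w u / 2 + 1 ≤ aS * G.w u → 0 ≤ bS → bS ≤ kc → 2 ≤ kc → Real.log 2 ≤ β →
    ∀ {E : ℕ → ℝ} {R₂ x₂ sg Cd : ℝ} {T TF : Set Env}, E u = EE μ s (G.T u) → sg ≤ 1 / 16 * EE μ s (G.T u) → bS ≤ R₂ → 1 ≤ R₂ →
    T ⊆ St Γ G aS bS β u κ → T ⊆ OuT μ s Γ G E R₂ x₂ sg u κ → TF ⊆ TP98 μ s c Γ G P Rn u κ →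
    TF ⊆ OuTl μ s Γ G R₂ (x₂ * E u + sg) (rl98 Γ G P u κ) u κ →
    (∀ ω ∈ T, ∀ ξ, G.R u κ ξ ω ∈ TF →
      O22.Pr Γ (G.ra u κ - 1) (G.re u κ) (O22.Bw G u κ) (Cd * EE μ s (G.T u)) ω (G.R u κ ξ ω)) →
    ∀ ω ∈ T, ∀ ξ, G.R u κ ξ ω ∈ TF → ∀ x : XX Γ, G.loc u x.1 = κ →
      Real.exp (-(e62 c Cd P.Q x₂ bS) * EE μ s (G.T u)) * bW Γ (G.R u κ ξ ω) (x.1.1 + 1) x.1.2 ≤
        ker (wt (G.R u κ ξ ω)) Γ.p (x.1.1 + 1) (ag98 Γ G P u κ + 5 * P.n u - (x.1.1 + 1)) x.1.2 (co98 G u κ (rl98 Γ G P u κ)) *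
          bW Γ (G.R u κ ξ ω) (ag98 Γ G P u κ + 5 * P.n u) (co98 G u κ (rl98 Γ G P u κ)) := by
  obtain ⟨n₁, hn₁⟩ := eventually_atTop.1 (h.tE.eventually_ge_atTop 16)
  refine ⟨n₁, ?_⟩
  intro Γ G P Rn u κ kw τ0 M52 h0 hreN hO hu kc R G₀ j M A B p₀ ε n₂ H hQ aS bS β haS hbS hbk hkc hβ E R₂ x₂ sg Cd T TF hE hsg hbR hR1
    hSt hT hTF hTFl hPr ω hω ξ hξ x hx
  have hE16 := hn₁ _ M52.hT
  have hF := hO.fit u hu
  have hre := rl_T98 (Γ := Γ) (κ := κ) hF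
  rw [rl_eq98, ag_eq98] at hre
  have hra := ra_pos98 (G := G) (u := u) (κ := κ)
  have w1 := H.sc.w1
  have wT := H.sc.wnT
  have wT1 : 1 ≤ wd μ s (G.T u) := w1.trans wT
  have hK12 : (P.K1 u : ℝ) + 3 ≤ P.K2 u := by exact_mod_cast H.K12
  have hkl := H.kc_le
  have hEn := H.sc.EnT
  obtain ⟨g, hg, hgh⟩ := slope62 (Γ := Γ) (κ := κ) hF (TP98.nosw (hTF hξ))
  have hsl := sl_mem (μ := μ) h.em h.nd s
  have hv0 : 0 ≤ G.v := by rw [M52.hv]; exact hsl.1.le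
  have hv1 : G.v ≤ 1 := by rw [M52.hv]; exact hsl.2.le
  have hkT : kc * wd μ s (G.T u) + 3 ≤ P.K2 u * wd μ s (P.n u) := by nlinarith
  have hbT : bS * wd μ s (G.T u) ≤ kc * wd μ s (G.T u) := mul_le_mul_of_nonneg_right hbk (by linarith)
  have h2T : 2 * wd μ s (G.T u) ≤ kc * wd μ s (G.T u) := mul_le_mul_of_nonneg_right hkc (by linarith)
  have hbz : |G.lat (G.ra u κ - 1 + 5 * P.n u, co98 G u κ (G.ra u κ - 1 + 5 * P.n u)) - G.ctr u κ| ≤ 1 := by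
    have h1 := Int.floor_le (G.ctr u κ + G.v * ((G.ra u κ - 1 + 5 * P.n u : ℕ) : ℝ))
    have h2 := Int.lt_floor_add_one (G.ctr u κ + G.v * ((G.ra u κ - 1 + 5 * P.n u : ℕ) : ℝ))
    unfold Gm.lat co98
    simp only
    rw [abs_le]
    constructor <;> linarith
  have hgw : |g| * (bS * G.w u + 1) ≤ c / 8 * (bS + 1) * EE μ s (G.T u) := by
    have h1 := M52.hh
    have h2 : bS * G.w u + 1 ≤ (bS + 1) * wd μ s (G.T u) := by rw [M52.hw]; linarith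
    calc |g| * (bS * G.w u + 1) ≤ |Γ.h| * ((bS + 1) * wd μ s (G.T u)) := by
          refine mul_le_mul hgh h2 ?_ (abs_nonneg _)
          rw [M52.hw]
          positivity
      _ = (bS + 1) * (|Γ.h| * wd μ s (G.T u)) := by ring
      _ ≤ (bS + 1) * (c / 8 * EE μ s (G.T u)) := mul_le_mul_of_nonneg_left h1 (by linarith)
      _ = _ := by ring
  have hQn : P.Q * EE μ s (P.n u) ≤ P.Q * EE μ s (G.T u) := mul_le_mul_of_nonneg_left hEn hQ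
  have hlog : Real.log 2 ≤ 1 := by
    have := Real.log_two_lt_d9
    linarith
  have hr1 : x.1.1 + 1 ≤ G.ra u κ - 1 := by
    have := MJ42.con_row42 (G := G) u x.1
    rwa [hx] at this
  have hr2 : (x.1.1 + 1, x.1.2) ∈ Rg G u κ aS := by
    have := rg71 (u := u) hv0 hv1 haS x.1
    rwa [hx] at this
  rw [neg_mul]
  refine siteW62 (β := β) (x0 := co98 G u κ (ag98 Γ G P u κ)) (K₁ := P.K1 u) (K₂ := P.K2 u) (Q := P.Q) (m := P.m u) (aS := aS) (bS := bS)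
    (E := E) (R := R₂) (Q' := x₂) (sg := sg) (X2 := x₂ * E u + sg) (g := g) (k := x.1.1 + 1) (q := x.1.2) M52.hs M52.hv hg h0 (by omega)
    (by omega) hreN (by omega) hβ (x0_71 M52.hv _) hbz (by rw [M52.hw]; linarith) (by linarith)
    (hPr ω hω ξ hξ) (hSt hω) (hT hω) (hTFl hξ) hbR (by rw [M52.hw]; nlinarith) (TP98.gt (hTF hξ)).1.1.1.1 hr1 hr2 ?_
  rw [hE]
  unfold e62
  nlinarith

/-- **THE FIELD `st`.** -/
theorem stE62 [IsProbabilityMeasure μ] (h : In μ s c C n₀) : ∃ n₁ : ℕ, ∀ {Γ : Cx} {G : Gm} {P : Nm98} {Rn : Nr98} {u : ℕ}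
    {κ : ℤ × ℤ} {kw : ℝ} {τ0 : ℕ}, Cm52 μ s c Γ G kw n₁ u → 0 ≤ G.rcc u κ → G.re u κ ≤ Γ.N → Ok98 G P Rn τ0 → τ0 < u →
    ∀ {kc R G₀ : ℝ} {j M : ℕ} {A B p₀ ε : ℝ} {n₂ : ℕ},
    NumT58 μ s c kc R G₀ j P.K1h M P.K2h P.Uc P.Qc P.U1 P.Q1 P.U P.Q A B P.Y p₀ ε n₂ (G.T u) (P.n u) (P.m u) (P.K1 u) (P.K2 u) →
    ∀ {E : ℕ → ℝ} {R₁ x₁ sg Cd V zs a₀ b₀ γ : ℝ} {T TF : Set Env} {Mo : Set ℤ}, E u = EE μ s (G.T u) →
    sg ≤ 1 / 16 * EE μ s (G.T u) → 0 ≤ kc → kc + 3 ≤ b₀ → kw + 2 ≤ b₀ → b₀ ≤ R₁ → b₀ < a₀ → a₀ + 1 ≤ G.kb →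
    Rn.Vs u ≤ V * EE μ s (G.T u) → Rn.sV u ≤ c / 16 * (EE μ s (G.T u) / wd μ s (G.T u)) →
    (2 * Cd + zs + 2) * EE μ s (G.T u) ≤ γ → zs + V + Cd + 2 * x₁ + 2 + c * (kc + 4) ≤ 3 * c / 4 * b₀ →
    T ⊆ Fw Γ G a₀ b₀ γ u κ → T ⊆ OuT μ s Γ G E R₁ x₁ sg u κ → TF ⊆ TP98 μ s c Γ G P Rn u κ →
    TF ⊆ OuTl μ s Γ G R₁ (x₁ * E u + sg) (rl98 Γ G P u κ) u κ →
    (∀ ω ∈ T, ∀ ξ, G.R u κ ξ ω ∈ TF → Ro (wt ω) (wt (G.R u κ ξ ω)) Γ.p Γ.N (O22.Bw G u κ) (Real.exp (Cd * EE μ s (G.T u))) ∧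
      O22.Pr Γ (G.ra u κ - 1) (G.re u κ) (O22.Bw G u κ) (Cd * EE μ s (G.T u)) ω (G.R u κ ξ ω)) →
    (∀ v ∈ Mo, |lt μ s (co98 G u κ (ag98 Γ G P u κ)) (5 * P.n u) v| ≤ P.K1 u * wd μ s (P.n u)) →
    ∀ ω ∈ T, ∀ ξ, G.R u κ ξ ω ∈ TF → ∀ i, (G.lo u κ).toNat ≤ i → i < ag98 Γ G P u κ + 5 * P.n u → ∀ y : ℤ, ¬ G.Nb u κ (i, y) →
      ∑ v ∈ bx Γ Mo, ker (wt (G.R u κ ξ ω)) Γ.p (i + 1) (ag98 Γ G P u κ + 5 * P.n u - (i + 1)) y v *
          bW Γ (G.R u κ ξ ω) (ag98 Γ G P u κ + 5 * P.n u) v ≤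
        Real.exp (-zs * EE μ s (G.T u)) * bW Γ (G.R u κ ξ ω) (i + 1) y := by
  obtain ⟨n₁, hn₁⟩ := eventually_atTop.1 (h.tE.eventually_ge_atTop 16)
  obtain ⟨n₃, hn₃⟩ := NM32.two_units h 0 (X := 1) le_rfl
  refine ⟨max n₁ n₃, ?_⟩
  intro Γ G P Rn u κ kw τ0 M52 h0 hreN hO hu kc R G₀ j M A B p₀ ε n₂ H E R₁ x₁ sg Cd V zs a₀ b₀ γ T TF Mo hE hsg hkc hb1 hkw hbR hab hkb
    hV hsV hγ hline hFw hT hTF hTFl hPr hMo ω hω ξ hξ i hi1 hi2 y hnb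
  have hE16 := hn₁ _ ((le_max_left _ _).trans M52.hT)
  obtain ⟨-, -, -, -, hrow⟩ := hn₃ _ ((le_max_right _ _).trans M52.hT) (G.T u) le_rfl (by rw [one_mul])
  have hF := hO.fit u hu
  have hre := rl_T98 (Γ := Γ) (κ := κ) hF
  rw [rl_eq98, ag_eq98] at hre
  have hra := ra_pos98 (G := G) (u := u) (κ := κ)
  have w1 := H.sc.w1
  have wT := H.sc.wnT
  have wT1 : 1 ≤ wd μ s (G.T u) := w1.trans wT
  have wT0 : 0 < wd μ s (G.T u) := by linarith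
  have hlk := H.le_kc
  have hc0 := h.c0
  obtain ⟨g, hg, hgh⟩ := slope62 (Γ := Γ) (κ := κ) hF (TP98.nosw (hTF hξ))
  have hsl := sl_mem (μ := μ) h.em h.nd s
  obtain ⟨e, he⟩ : ∃ e, e = EE μ s (G.T u) := ⟨_, rfl⟩
  obtain ⟨w, hw⟩ : ∃ w, w = wd μ s (G.T u) := ⟨_, rfl⟩
  have hew : 0 ≤ e / w := by rw [he, hw]; exact div_nonneg (by linarith) wT0.le
  have hewe : e / w * w = e := div_mul_cancel₀ _ (by rw [hw]; exact wT0.ne')
  have hhc : hc μ s c (G.T u) = c * (e / w) := by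
    unfold hc
    rw [← he, ← hw]
    ring
  have hgc : |g| ≤ c / 8 * (e / w) := by
    refine hgh.trans ?_
    have h1 := M52.hh
    rw [← he, ← hw] at h1
    have h2 : c / 8 * (e / w) = c / 8 * e / w := by ring
    rw [h2, le_div_iff₀ (by rw [hw]; exact wT0)]
    exact h1
  -- the upper kernels
  have hUp : G.R u κ ξ ω ∈ Up52.UpS μ s (hc μ s c (G.T u)) (((G.ra u κ - 1 : ℕ) : ℤ), co98 G u κ (G.ra u κ - 1)) (5 * P.n u) (V * e)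
      (c / 16 * (e / w)) := by
    refine Up52.upS_mono (by rw [he]; exact hV) (by rw [he, hw]; exact hsV) ?_ (KG98.upS (TP98.kg (hTF hξ)))
    rw [rl_eq98, ag_eq98]
    omega
  -- the mouth
  have hMo' : ∀ v ∈ Mo, |G.lat (G.ra u κ - 1 + 5 * P.n u, v) - G.ctr u κ| ≤ (kc + 2) * w := by
    intro v hv
    have h1 := hMo v hv
    have h2 := lat_lt (μ := μ) (s := s) (G.ra u κ - 1) (co98 G u κ (G.ra u κ - 1)) (5 * P.n u) v
    obtain ⟨g1, g2⟩ := MJ42.lat_pt42 (G := G) (u := u) (κ := κ) M52.hv (G.ra u κ - 1) (G.ra u κ - 1 + 5 * P.n u) v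
    unfold co98 at h2
    rw [h2] at g1 g2
    unfold ag98 co98 at h1
    have h3 := abs_le.1 h1
    rw [abs_le]
    have h4 : P.K1 u * wd μ s (P.n u) + 1 ≤ (kc + 2) * w := by rw [hw]; linarith
    constructor <;> linarith [h3.1, h3.2]
  have hb0 : 0 ≤ b₀ := by linarith
  have hw0 : 0 < w := by rw [hw]; exact wT0
  have hw1 : 1 ≤ w := by rw [hw]; exact wT1
  have hro : (kc + 3) * w ≤ b₀ * w := mul_le_mul_of_nonneg_right hb1 hw0.le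
  have hGw : G.w u = w := by rw [hw]; exact M52.hw
  have he16 : 16 ≤ e := by rw [he]; exact hE16
  have hqe : e / w ≤ e := div_le_self (by linarith) hw1
  have hEe : E u = e := by rw [he]; exact hE
  have hsge : sg ≤ 1 / 16 * e := by rw [he]; exact hsg
  refine stW62 (g := g) (x0 := co98 G u κ (G.ra u κ - 1)) (d := Cd * e) (dR := Cd * e) (a₀ := a₀) (b₀ := b₀) (γ := γ) (E := E) (R := R₁)
    (Q' := x₁) (sg := sg) (X2 := x₁ * E u + sg) (t := hc μ s c (G.T u)) (V := V * e) (σV := c / 16 * (e / w)) (ρ := (kc + 2) * w)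
    M52.hs M52.hv hsl.1.le hsl.2.le hg h0 (by omega) (by omega) hreN (x0_71 M52.hv _) (by rw [he]; exact (hPr ω hω ξ hξ).2)
    (by rw [he]; exact (hPr ω hω ξ hξ).1) hab (hFw hω) ?_ ?_ (hT hω) (hTFl hξ) hbR ?_ hUp ?_ (by positivity) hMo' ?_ hi1 hi2 hnb ?_
  · rw [hGw]
    have := mul_le_mul_of_nonneg_right hkb hw0.le
    linarith
  · rw [hGw, M52.hk]
    have := mul_le_mul_of_nonneg_right hkw hw0.le
    linarith
  · rw [hGw]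
    have := mul_le_mul_of_nonneg_right (show (1 : ℝ) ≤ R₁ by linarith) hw0.le
    linarith
  · rw [hhc]
    nlinarith
  · rw [hGw]
    linarith
  · rw [hGw, hEe, hhc]
    have hro2 : 0 ≤ b₀ * w - 1 - (kc + 2) * w := by linarith
    -- the column
    have t1 : Real.exp (2 * (Cd * e)) * (((G.ra u κ - (G.lo u κ).toNat : ℕ) : ℝ) * Real.exp (-γ)) ≤ 2 * Real.exp (-(zs + 1) * e) := by
      have h1 := hrow (G.ra u κ - (G.lo u κ).toNat) (NM32.rows32 G (by omega))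
      rw [← he] at h1
      have h2 : Real.exp (-γ) ≤ Real.exp (-((2 * Cd + zs + 2) * e)) := Real.exp_le_exp.2 (by rw [he]; linarith)
      calc Real.exp (2 * (Cd * e)) * (((G.ra u κ - (G.lo u κ).toNat : ℕ) : ℝ) * Real.exp (-γ))
          ≤ Real.exp (2 * (Cd * e)) * (2 * Real.exp e * Real.exp (-((2 * Cd + zs + 2) * e))) :=
            mul_le_mul_of_nonneg_left (mul_le_mul h1 h2 (Real.exp_pos _).le (by positivity)) (Real.exp_pos _).le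
        _ = 2 * (Real.exp (2 * (Cd * e)) * Real.exp e * Real.exp (-((2 * Cd + zs + 2) * e))) := by ring
        _ = _ := by
            rw [← Real.exp_add, ← Real.exp_add]
            congr 2
            ring
    -- the rim
    have t2 : V * e + c / 16 * (e / w) * (b₀ * w + 1) + (x₁ * e + sg + (x₁ * e + sg) + Cd * e) -
        (c * (e / w) - |g|) * (b₀ * w - 1 - (kc + 2) * w) ≤ -(zs + 1) * e := by
      obtain ⟨q, hq⟩ : ∃ q, q = e / w := ⟨_, rfl⟩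
      rw [← hq] at hew hewe hgc hqe ⊢
      have h1 : 7 * c / 8 * q ≤ c * q - |g| := by linarith
      have h2 := mul_le_mul_of_nonneg_right h1 hro2
      have h3 : 7 * c / 8 * q * (b₀ * w - 1 - (kc + 2) * w) = 7 * c / 8 * (b₀ * (q * w) - q - (kc + 2) * (q * w)) := by ring
      have h4 : c / 16 * q * (b₀ * w + 1) = c / 16 * (b₀ * (q * w) + q) := by ring
      rw [h3, hewe] at h2
      rw [h4, hewe]
      have h5 : c * q ≤ c * e := mul_le_mul_of_nonneg_left hqe hc0.le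
      have h6 := mul_le_mul_of_nonneg_right hline (show 0 ≤ e by linarith)
      have h7 : 0 ≤ c * b₀ * e := by positivity
      have h8 : 0 ≤ c * kc * e := by positivity
      have h9 : 0 ≤ c * e := by positivity
      nlinarith
    have t3 := Real.exp_le_exp.2 t2
    have t4 : 3 * Real.exp (-(zs + 1) * e) ≤ Real.exp (-zs * e) := by
      have h1 : (3 : ℝ) ≤ Real.exp e := by
        have := Real.add_one_le_exp e
        linarith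
      have h2 : Real.exp (-zs * e) = Real.exp e * Real.exp (-(zs + 1) * e) := by
        rw [← Real.exp_add]
        congr 1
        ring
      rw [h2]
      exact mul_le_mul_of_nonneg_right h1 (Real.exp_pos _).le
    rw [← he]
    linarith

/-- **The line of `stE62`**: tame level `sgm R₁`, `sgm ≤ c / 80`, `b₀ = R₁ - 1`. -/
theorem ordE62 (hc : 0 < c) {sgm : ℝ} (hs : sgm ≤ c / 80) (zs V Cd kc kw : ℝ) : ∃ r₀ : ℝ, ∀ R₁ : ℝ, r₀ ≤ R₁ →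
    kc + 3 ≤ R₁ - 1 ∧ kw + 2 ≤ R₁ - 1 ∧ zs + V + Cd + 2 * (sgm * R₁) + 2 + c * (kc + 4) ≤ 3 * c / 4 * (R₁ - 1) := by
  refine ⟨max (max (kc + 4) (kw + 3)) (max 0 (2 * (zs + V + Cd + 2 + c * (kc + 4) + c) / c)), fun R₁ hR => ?_⟩
  have h1 := ((le_max_left _ _).trans (le_max_left _ _)).trans hR
  have h2 := ((le_max_right _ _).trans (le_max_left _ _)).trans hR
  have h3 := ((le_max_left _ _).trans (le_max_right _ _)).trans hR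
  have h4 := ((le_max_right _ _).trans (le_max_right _ _)).trans hR
  rw [div_le_iff₀ hc] at h4
  have h5 := mul_le_mul_of_nonneg_right hs h3
  have h6 : 0 ≤ c * R₁ := mul_nonneg hc.le h3
  exact ⟨by linarith, by linarith, by nlinarith⟩

end

end Pool.Agent.W_7d29a1_C1.Sz62
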