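import Pool.Agent.W_7d29a1_C1.SitE62
import Pool.Agent.W_7d29a1_C1.WqT98

/-!
MP_7d29a1_pr, attractor route, [C1] SEP: **THE PARTS `SiP98` AND `StP98` OF ONE WINDOW**, over helper98's context `Wc98`. (helper62)

* **`siQ62`** : `kw, V, Re, Qe, Uw, sgm | R₂ | Cd`; `SiP98` at the exponent `e62 c xF ..` for every `xF ≥ Cd`; `StP98` for the later numbers;
* `lineE62` : the line of `stE62` with `b₀ = R₁`, explicit threshold.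
-/

set_option autoImplicit false

namespace Pool.Agent.W_7d29a1_C1.Sz62

open Finset MeasureTheory Filter
open Pool.Agent.W_7d29a1_F hiding Bw G
open Pool.Agent.W_7d29a1_h4g Pool.Agent.W_7d29a1_HS
open Pool.Agent.W_7d29a1_H hiding ex gg
open Pool.Agent.W_7d29a1_C1
open Pool.Agent.W_7d29a1_C1.K91 (wt wt_pos)
open Pool.Agent.W_7d29a1_C1.U16 (ker lat16)
open Pool.Agent.W_7d29a1_C1.H60
open Pool.Agent.W_7d29a1_C1.G37 (Gm)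
open Pool.Agent.W_7d29a1_C1.SD53
open Pool.Agent.W_7d29a1_C1.SF98 (Tx)
open Pool.Agent.W_7d29a1_C1.PW58
open Pool.Agent.W_7d29a1_C1.E2H97 (OuTl)
open Pool.Agent.W_7d29a1_C1.D98
open Pool.Agent.W_7d29a1_C1.N49
open Pool.Agent.W_7d29a1_C1.Q49

noncomputable section

attribute [local instance 10] Classical.propDecidable

variable {μ : Measure ℝ} {s c C : ℝ} {n₀ : ℕ}

theorem e62_mono {Cd Cd' Q x₂ bS : ℝ} (h : Cd ≤ Cd') : e62 c Cd Q x₂ bS ≤ e62 c Cd' Q x₂ bS := by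
  unfold e62
  linarith

/-- A larger exponent. -/
theorem siP_mono {Γ : Cx} {G : Gm} {Q : Nm98} {u : ℕ} {κ : ℤ × ℤ} {T TF : Set Env} {e e' : ℝ} [IsProbabilityMeasure μ] (he : e ≤ e')
    (h : SiP98 μ s Γ G Q u κ T TF e) : SiP98 μ s Γ G Q u κ T TF e' := fun ω hω ξ hξ x hx =>
  (mul_le_mul_of_nonneg_right (Real.exp_le_exp.2 (mul_le_mul_of_nonneg_right (neg_le_neg he) (EE_pos _).le)) (bW_pos _ _ _ _).le).trans
    (h ω hω ξ hξ x hx)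

/-- **THE PARTS `SiP98` AND `StP98`.** -/
theorem siQ62 [IsProbabilityMeasure μ] (hI : In μ s c C n₀) {kw V ρ Q y sgm : ℝ} (hkw : 0 ≤ kw) (hV : 0 ≤ V) (hρ : 0 ≤ ρ)
    (hQ : 0 ≤ Q) (hy : 0 ≤ y) (hs0 : 0 ≤ sgm) (hs1 : sgm ≤ c / 80) : ∃ R₀ : ℝ, ∀ R₂ : ℝ, R₀ ≤ R₂ → ∃ Cd : ℝ, 0 < Cd ∧
      ∃ n₁ : ℕ, ∀ {P : Pre} {N : NmF} {F : Cf98} {kap : ℝ}, P.kw = kw → F.sgm = sgm → F.R2 = R₂ → R₂ ≤ F.R1 → F.V₁ = V → F.Re = ρ →
        F.Qe = Q → F.Uw ≤ y → kap ≤ c / 8 → ∀ {Γ : Cx} {G : Gm} {mt τ0 : ℕ} {E : ℕ → ℝ} {u : ℕ} {κ : ℤ × ℤ},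
        Wc98 μ s c kap P N F n₁ Γ G mt τ0 E u κ →
        ∀ {kc R G₀ : ℝ} {j M : ℕ} {A B p₀ ε : ℝ} {n₂ : ℕ},
        NumT58 μ s c kc R G₀ j (N Γ G E).K1h M (N Γ G E).K2h (N Γ G E).Uc (N Γ G E).Qc (N Γ G E).U1 (N Γ G E).Q1 (N Γ G E).U
          (N Γ G E).Q A B (N Γ G E).Y p₀ ε n₂ (G.T u) ((N Γ G E).n u) ((N Γ G E).m u) ((N Γ G E).K1 u) ((N Γ G E).K2 u) →
        0 ≤ (N Γ G E).Q → 2 ≤ kc →
        (0 ≤ P.bS → P.bS ≤ kc → P.bS ≤ R₂ → 1 / 16 ≤ P.βc → ∀ xF : ℝ, Cd ≤ xF →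
          SiP98 μ s Γ G (N Γ G E) u κ (Tx ((Fam98o μ s c P N F).TT Γ G E) (fun u => E u / 16) u κ) (TF98 μ s c N F Γ G E u κ)
            (e62 c xF (N Γ G E).Q (sgm * R₂) P.bS)) ∧
        ∀ {zs : ℝ}, kc + 3 ≤ F.bF → kw + 2 ≤ F.bF → F.bF ≤ F.R1 → F.bF < F.aF → F.aF + 1 ≤ P.kb →
          2 * Cd + zs + 2 + 1 / 16 ≤ F.gF → zs + V + Cd + 2 * (sgm * F.R1) + 2 + c * (kc + 4) ≤ 3 * c / 4 * F.bF →
          (N Γ G E).δ / 4 * wd μ s ((N Γ G E).T u) + 1 ≤ (N Γ G E).K1 u * wd μ s ((N Γ G E).n u) →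
          StP98 μ s Γ G (N Γ G E) u κ (Tx ((Fam98o μ s c P N F).TT Γ G E) (fun u => E u / 16) u κ) (TF98 μ s c N F Γ G E u κ) zs := by
  obtain ⟨R₀, -, H⟩ := Ge52.ratT52 hI hkw hV hρ hQ hy hs0 hs1
  obtain ⟨n₂, HS⟩ := siteE62 hI
  obtain ⟨n₃, HT⟩ := stE62 hI
  obtain ⟨n₄, hn₄⟩ := eventually_atTop.1 (hI.tE.eventually_ge_atTop 16)
  refine ⟨max R₀ 1, fun R₂ hR => ?_⟩
  obtain ⟨Cd, hCd, n₁, -, H⟩ := H R₂ ((le_max_left _ _).trans hR)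
  refine ⟨Cd, hCd, max (max n₁ n₄) (max n₂ n₃), ?_⟩
  intro P N F kap hk hsg hR2 hR1 hV1 hRe hQe hUw hkap Γ G mt τ0 E u κ W kc R G₀ j M A B p₀ ε n₂' HN hQN hkc
  have hT := W.w.hT u
  have hE := W.w.hE u
  have htilt : |Γ.h| * wd μ s (G.T u) ≤ c / 8 * EE μ s (G.T u) :=
    W.w.tilt.trans (mul_le_mul_of_nonneg_right hkap (EE_pos _).le)
  have m1 : Ge52.Cm52 μ s c Γ G kw n₁ u := ⟨W.w.hs, W.w.hv, W.w.hw u, W.w.hk.trans hk, htilt,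
    ((le_max_left _ _).trans (le_max_left _ _)).trans hT⟩
  have m2 : Ge52.Cm52 μ s c Γ G kw n₂ u := ⟨W.w.hs, W.w.hv, W.w.hw u, W.w.hk.trans hk, htilt,
    ((le_max_left _ _).trans (le_max_right _ _)).trans hT⟩
  have m3 : Ge52.Cm52 μ s c Γ G kw n₃ u := ⟨W.w.hs, W.w.hv, W.w.hw u, W.w.hk.trans hk, htilt,
    ((le_max_right _ _).trans (le_max_right _ _)).trans hT⟩
  have hE16 : 16 ≤ EE μ s (G.T u) := hn₄ _ (((le_max_right _ _).trans (le_max_left _ _)).trans hT)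
  have hsg16 : E u / 16 ≤ 1 / 16 * EE μ s (G.T u) := le_of_eq (by rw [hE]; ring)
  have hTF : TF98 μ s c N F Γ G E u κ ⊆ TP98 μ s c Γ G (N Γ G E) (F.nr μ s c Γ G E) u κ := fun _ h => h.1
  have hT2 : Tx ((Fam98o μ s c P N F).TT Γ G E) (fun u => E u / 16) u κ ⊆ Ou37.OuT μ s Γ G E R₂ (sgm * R₂) (E u / 16) u κ := by
    intro ω hω
    have h1 := (W.tc ω hω).R2
    rwa [hR2, hsg] at h1
  have hTl2 : TF98 μ s c N F Γ G E u κ ⊆ OuTl μ s Γ G R₂ (sgm * R₂ * E u + E u / 16) (rl98 Γ G (N Γ G E) u κ) u κ := by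
    intro ω hω
    have h1 := E2H97.OuG97.tR2 hω.2
    rwa [hR2, hsg] at h1
  have hRP : ∀ ω ∈ Tx ((Fam98o μ s c P N F).TT Γ G E) (fun u => E u / 16) u κ, ∀ ξ, G.R u κ ξ ω ∈ TF98 μ s c N F Γ G E u κ →
      Rt22.Ro (wt ω) (wt (G.R u κ ξ ω)) Γ.p Γ.N (O22.Bw G u κ) (Real.exp (Cd * EE μ s (G.T u))) ∧
        O22.Pr Γ (G.ra u κ - 1) (G.re u κ) (O22.Bw G u κ) (Cd * EE μ s (G.T u)) ω (G.R u κ ξ ω) := by
    intro ω hω ξ hξ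
    exact H (P := N Γ G E) (R := F.nr μ s c Γ G E) (E := E) (sg := E u / 16) m1 W.w.rc W.w.reN (W.w.ok.fit u W.w.hu) hRe hQe
      (le_of_eq (by show F.V₁ * _ = _; rw [hV1])) le_rfl (by show R₂ - 1 ≤ F.R1 - 1; linarith)
      (mul_le_mul_of_nonneg_right hUw (EE_pos _).le) hE hsg16 ω ⟨(W.tc ω hω).tp, hT2 hω⟩ ξ (hTF hξ)
  refine ⟨fun hbS hbk hbR hβ xF hxF => siP_mono (e62_mono hxF) fun ω hω ξ hξ x hx => ?_,
    fun {zs} hb1 hb2 hb3 hab hkb hg hline hmo ω hω ξ hξ i hi1 hi2 z _ hnb => ?_⟩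
  · refine HS m2 W.w.rc W.w.reN W.w.ok W.w.hu HN hQN W.aS hbS hbk hkc (β := P.βc * E u) ?_
      (E := E) (R₂ := R₂) (x₂ := sgm * R₂) (sg := E u / 16) (Cd := Cd)
      (T := Tx ((Fam98o μ s c P N F).TT Γ G E) (fun u => E u / 16) u κ) (TF := TF98 μ s c N F Γ G E u κ) hE hsg16 hbR
      ((le_max_right _ _).trans hR) (fun ω hω => (W.tc ω hω).st) hT2 hTF hTl2 (fun ω hω ξ hξ => (hRP ω hω ξ hξ).2) ω hω ξ hξ x hx
    rw [hE]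
    have h1 := Real.log_two_lt_d9
    nlinarith
  · refine HT m3 W.w.rc W.w.reN W.w.ok W.w.hu HN (E := E) (R₁ := F.R1) (x₁ := sgm * F.R1) (sg := E u / 16) (Cd := Cd) (V := V) (zs := zs)
      (a₀ := F.aF) (b₀ := F.bF) (γ := (F.gF - 1 / 16) * E u) (T := Tx ((Fam98o μ s c P N F).TT Γ G E) (fun u => E u / 16) u κ)
      (TF := TF98 μ s c N F Γ G E u κ) (Mo := mo98 μ s Γ G (N Γ G E) u κ) hE hsg16 (by linarith) hb1 hb2 hb3 hab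
      (by rw [W.kb]; exact hkb) (le_of_eq (by show F.V₁ * _ = _; rw [hV1])) le_rfl ?_ hline
      (fun ω hω => (W.tc ω hω).fw) (fun ω hω => ?_) hTF (fun ω hω => ?_) hRP (fun v hv => mo_core98 W.w.hv hmo hv)
      ω hω ξ hξ i hi1 hi2 z hnb
    · rw [hE]
      exact mul_le_mul_of_nonneg_right (by linarith) (EE_pos (μ := μ) (s := s) (G.T u)).le
    · have h1 := (W.tc ω hω).R1
      rwa [hsg] at h1
    · have h1 := E2H97.OuG97.tR1 hω.2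
      rwa [hsg] at h1

/-- **The line of `stE62`**, `b₀ = R₁`, with an explicit threshold. -/
theorem lineE62 (hc : 0 < c) {sgm zs V Cd kc kw R₁ : ℝ} (hs : sgm ≤ c / 80)
    (hR : max (max (kc + 4) (kw + 3)) (max 0 (2 * (zs + V + Cd + 2 + c * (kc + 4) + c) / c)) ≤ R₁) :
    kc + 3 ≤ R₁ ∧ kw + 2 ≤ R₁ ∧ zs + V + Cd + 2 * (sgm * R₁) + 2 + c * (kc + 4) ≤ 3 * c / 4 * R₁ := by
  have h1 := ((le_max_left _ _).trans (le_max_left _ _)).trans hR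
  have h2 := ((le_max_right _ _).trans (le_max_left _ _)).trans hR
  have h3 := ((le_max_left _ _).trans (le_max_right _ _)).trans hR
  have h4 := ((le_max_right _ _).trans (le_max_right _ _)).trans hR
  rw [div_le_iff₀ hc] at h4
  have h5 := mul_le_mul_of_nonneg_right hs h3
  have h6 : 0 ≤ c * R₁ := mul_nonneg hc.le h3
  exact ⟨by linarith, by linarith, by nlinarith⟩

end

end Pool.Agent.W_7d29a1_C1.Sz62
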