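import Pool.Agent.W_7d29a1_C1.SitZ62
import Pool.Agent.W_7d29a1_C1.UpS52
import Pool.Agent.W_7d29a1_C1.GateL18

/-!
MP_7d29a1_pr, attractor route, [C1] SEP: **THE FIELDS `site` AND `st` OF `WQ28`** for one window, on the fibre. (helper62)

`a + 1 = ra`, gate block `(a, a + 5 n]`, base `(a, x0)`; `ω` typical (`St`, `Fw`, `OuT`), `ω'` in the same fibre (`Lo18`, `UpS`, tame masses of
the rows `≥ a + 5 n`).
* **`siteW62`** : `exp (-Ee) bW ω' k q ≤ ker ω' k → a + 5 n q z₀ bW ω' (a + 5 n) z₀`;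
* **`stW62`** : the sum over the mouth for every start of the rows `lo ≤ i < a + 5 n` which is no target.
-/

set_option autoImplicit false

namespace Pool.Agent.W_7d29a1_C1.Sz62

open Finset MeasureTheory
open Pool.Agent.W_7d29a1_F hiding Bw G
open Pool.Agent.W_7d29a1_h4g Pool.Agent.W_7d29a1_HS
open Pool.Agent.W_7d29a1_H hiding ex gg
open Pool.Agent.W_7d29a1_L (T exp_T)
open Pool.Agent.W_7d29a1_C1.K91 (wt wt_pos)
open Pool.Agent.W_7d29a1_C1.K91P (fw bw bw_pos bw_congr)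
open Pool.Agent.W_7d29a1_C1.U16 (ker ker_nonneg ker_eq_zero lat16)
open Pool.Agent.W_7d29a1_C1.H60 (Cx)
open Pool.Agent.W_7d29a1_C1.G37 (Gm)
open Pool.Agent.W_7d29a1_C1.Rt22 (gg Ro)
open Pool.Agent.W_7d29a1_C1.Ou37 (gam bn bn_pos bw_bn bn_eq Zo OuT)
open Pool.Agent.W_7d29a1_C1.SD53
open Pool.Agent.W_7d29a1_C1.Sy78 (St Rg sp lat_win)
open Pool.Agent.W_7d29a1_C1.GL18 (Lo18)
open Pool.Agent.W_7d29a1_C1.Hc62 (la)
open Pool.Agent.W_7d29a1_C1.Up52 (UpS)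

noncomputable section

attribute [local instance 10] Classical.propDecidable

variable {μ : Measure ℝ} {s : ℝ} {Γ : Cx} {G : Gm} {u : ℕ} {κ : ℤ × ℤ} {ω ω' : Env}

theorem la_lat (hGv : G.v = sl μ s) (k : ℕ) (y : ℤ) : la (sl μ s) (G.ctr u κ) k y = G.lat (k, y) - G.ctr u κ := by
  unfold la Gm.lat
  rw [hGv]

/-- The last row before the window is not in the window. -/
theorem not_Bw {a : ℕ} (h0 : 0 ≤ G.rcc u κ) (ha : a + 1 = G.ra u κ) (x : ℤ) : (a, x) ∉ O22.Bw G u κ := by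
  intro h
  have h1 : G.rcc u κ + G.T (u - 1) < (a : ℤ) := h.1
  have h2 := G.ra_cast h0
  have h3 : ((a : ℤ)) + 1 = (G.ra u κ : ℤ) := by exact_mod_cast ha
  linarith

/-- The normalised mass off the changed sites. -/
theorem bn_off {k : ℕ} {y : ℤ} {C : ℝ} (hw : wt ω k y = wt ω' k y) (h : bW Γ ω k y ≤ C * bW Γ ω' k y) :
    bn μ s Γ k y ω ≤ C * bn μ s Γ k y ω' := by
  have h1 : bW Γ ω k y = gg (gam μ s Γ) ω k y * bn μ s Γ k y ω := bw_bn (μ := μ) (s := s) k y ω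
  have h2 : bW Γ ω' k y = gg (gam μ s Γ) ω' k y * bn μ s Γ k y ω' := bw_bn (μ := μ) (s := s) k y ω'
  have h3 : gg (gam μ s Γ) ω k y = gg (gam μ s Γ) ω' k y := by
    unfold gg
    rw [hw]
  have h4 : 0 < gg (gam μ s Γ) ω' k y := Rt22.gg_pos (fun k y => Ou37.gam_pos k y) ω' k y
  rw [h1, h2, h3] at h
  refine le_of_mul_le_mul_left ?_ h4
  linarith

/-- The rows beyond the window. -/
theorem bn_ge {a e : ℕ} {B : Set (ℕ × ℤ)} {d : ℝ} (P : O22.Pr Γ a e B d ω ω') {k : ℕ} (hk : e ≤ k) (y : ℤ) :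
    bn μ s Γ k y ω' = bn μ s Γ k y ω := by
  have e1 : bw (wt ω') Γ.p k (Γ.N - k) y = bw (wt ω) Γ.p k (Γ.N - k) y :=
    bw_congr _ _ (fun i hi z => by rw [P.ge i (hk.trans hi)]) y
  rw [bn_eq, bn_eq, e1]
  unfold gg
  rw [P.ge k hk]

/-- **THE FIELD `site`.** -/
theorem siteW62 (hs : Γ.s = s) (hGv : G.v = sl μ s) {a nn : ℕ} {g : ℝ} (hg : (g = Γ.h ∧ a + 5 * nn ≤ Γ.M) ∨ (g = 0 ∧ Γ.M ≤ a))
    (h0 : 0 ≤ G.rcc u κ) (ha : a + 1 = G.ra u κ) (hrl : a + 5 * nn ≤ G.re u κ) (hre : G.re u κ ≤ Γ.N) (haN : a < Γ.N)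
    {aS bS β : ℝ} (hβ : Real.log 2 ≤ β) {x0 z₀ : ℤ} (hx0 : |(x0 : ℝ) - sl μ s * a - G.ctr u κ| ≤ 1)
    (hz₀ : |G.lat (a + 5 * nn, z₀) - G.ctr u κ| ≤ 1) {K₁ K₂ Q : ℝ} {m : ℕ} (hK2 : bS * G.w u + 1 ≤ K₂ * wd μ s nn)
    (hK1 : 2 ≤ K₁ * wd μ s nn) {d : ℝ} (P : O22.Pr Γ a (G.re u κ) (O22.Bw G u κ) d ω ω') (hSt : ω ∈ St Γ G aS bS β u κ)
    {E : ℕ → ℝ} {R Q' sg X2 : ℝ} (hT : ω ∈ OuT μ s Γ G E R Q' sg u κ)
    (hT' : ∀ c ∈ Zo G R u κ, ∀ c' ∈ Zo G R u κ, a + 5 * nn ≤ c.1 → a + 5 * nn ≤ c'.1 →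
      bn μ s Γ c'.1 c'.2 ω' ≤ Real.exp X2 * bn μ s Γ c.1 c.2 ω')
    (hR : bS ≤ R) (hR1 : 1 ≤ R * G.w u) (hLo : ω' ∈ Lo18 μ s K₁ K₂ nn m ((a : ℤ), x0) Q) {k : ℕ} {q : ℤ} (hka : k ≤ a)
    (hRg : (k, q) ∈ Rg G u κ aS) {Ee : ℝ}
    (hEe : Real.log 2 + (3 * d + Q * EE μ s nn + (Q' * E u + sg) + X2 + |g| * (bS * G.w u + 1)) ≤ Ee) :
    Real.exp (-Ee) * bW Γ ω' k q ≤ ker (wt ω') Γ.p k (a + 5 * nn - k) q z₀ * bW Γ ω' (a + 5 * nn) z₀ := by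
  have hw := G.w_pos u
  obtain ⟨z', hz'⟩ : ∃ z' : ℤ, |G.lat (G.re u κ, z') - G.ctr u κ| ≤ 1 := by
    refine ⟨⌊G.ctr u κ + G.v * (G.re u κ : ℝ)⌋, ?_⟩
    have h1 := Int.floor_le (G.ctr u κ + G.v * (G.re u κ : ℝ))
    have h2 := Int.lt_floor_add_one (G.ctr u κ + G.v * (G.re u κ : ℝ))
    unfold Gm.lat
    simp only
    rw [abs_le]
    constructor <;> linarith
  have hZr : (G.re u κ, z') ∈ Zo G R u κ := ⟨by
    have := G.ra_le_re u κ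
    show G.ra u κ ≤ G.re u κ + 1
    omega, le_rfl, hz'.trans hR1⟩
  have hZ0 : (a + 5 * nn, z₀) ∈ Zo G R u κ := ⟨by show G.ra u κ ≤ a + 5 * nn + 1; omega, hrl, hz₀.trans hR1⟩
  -- the lower bound of the block
  obtain ⟨g₀, hg₀⟩ : ∃ g₀ : ℝ, g₀ = Real.exp (-(Q * EE μ s nn + (d + (Q' * E u + sg) + X2) + |g| * (bS * G.w u + 1))) := ⟨_, rfl⟩
  have low : ∀ x, |G.lat (a, x) - G.ctr u κ| ≤ bS * G.w u → g₀ * bW Γ ω' a x ≤
      ker (wt ω') Γ.p a (a + 5 * nn - a) x z₀ * bW Γ ω' (a + 5 * nn) z₀ := by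
    intro x hx
    have hZx : (a, x) ∈ Zo G R u κ := ⟨by show G.ra u κ ≤ a + 1; omega, by show a ≤ G.re u κ; omega,
      hx.trans (mul_le_mul_of_nonneg_right hR hw.le)⟩
    rw [hg₀, Nat.add_sub_cancel_left]
    refine low62 (μ := μ) hs hg (hrl.trans hre) ?_ ?_ ?_
    · have h1 := hLo x z₀ (by
        have e : lat16 μ s ((a : ℤ), x0) ((a : ℤ), x) = (G.lat (a, x) - G.ctr u κ) + -((x0 : ℝ) - sl μ s * a - G.ctr u κ) := by
          unfold lat16 Gm.lat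
          rw [hGv]
          push_cast
          ring
        show |lat16 μ s ((a : ℤ), x0) ((a : ℤ), x)| ≤ _
        rw [e]
        refine (abs_add_le _ _).trans ?_
        rw [abs_neg]
        linarith) (by
        have e : lat16 μ s ((a : ℤ), x0) ((a : ℤ) + ((5 * nn : ℕ) : ℤ), z₀) =
            (G.lat (a + 5 * nn, z₀) - G.ctr u κ) + -((x0 : ℝ) - sl μ s * a - G.ctr u κ) := by
          unfold lat16 Gm.lat
          rw [hGv]
          push_cast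
          ring
        show |lat16 μ s ((a : ℤ), x0) ((a : ℤ) + ((5 * nn : ℕ) : ℤ), z₀)| ≤ _
        rw [e]
        refine (abs_add_le _ _).trans ?_
        rw [abs_neg]
        linarith)
      exact h1.trans (WR_le_W _ _ _ _ _)
    · have e : ((z₀ - x : ℤ) : ℝ) - sl μ s * ((5 * nn : ℕ) : ℝ) =
          (G.lat (a + 5 * nn, z₀) - G.ctr u κ) - (G.lat (a, x) - G.ctr u κ) := by
        unfold Gm.lat
        rw [hGv]
        push_cast
        ring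
      rw [e]
      refine (abs_sub _ _).trans ?_
      linarith
    · have h1 := (bnX62 (d := d) (c := (a, x)) (c' := (a + 5 * nn, z₀)) hT hT' hZr hrl (bn_ge P le_rfl z') hZx hZ0 le_rfl).2
        (bn_off (P.off a x (not_Bw h0 ha x)).symm (P.up x))
      exact h1
  have h1 := site62 P hSt (by omega) haN hka hRg (rl := a + 5 * nn) (z₀ := z₀) (g₀ := g₀) (by omega)
    (by rw [hg₀]; exact (Real.exp_pos _).le) low
  refine (mul_le_mul_of_nonneg_right ?_ (bW_pos _ _ _ _).le).trans h1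
  have h2 : (1 / 2 : ℝ) ≤ 1 - Real.exp (-β) := by
    have h3 : Real.exp (-β) ≤ Real.exp (-Real.log 2) := Real.exp_le_exp.2 (by linarith)
    have h30 : Real.exp (-Real.log 2) = 1 / 2 := by
      rw [Real.exp_neg, Real.exp_log (by norm_num)]
      norm_num
    linarith
  have h4 : Real.exp (-Ee) ≤ 1 / 2 * (Real.exp (-(2 * d)) * g₀) := by
    have h5 : (1 / 2 : ℝ) = Real.exp (-Real.log 2) := by
      rw [Real.exp_neg, Real.exp_log (by norm_num)]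
      norm_num
    rw [hg₀, h5, ← Real.exp_add, ← Real.exp_add]
    refine Real.exp_le_exp.2 ?_
    linarith
  have h6 : 0 ≤ Real.exp (-(2 * d)) * g₀ := by
    rw [hg₀]
    positivity
  have h7 := mul_le_mul_of_nonneg_right h2 h6
  linarith

/-- **THE FIELD `st`.** -/
theorem stW62 (hs : Γ.s = s) (hGv : G.v = sl μ s) (hv0 : 0 ≤ sl μ s) (hv1 : sl μ s ≤ 1) {a nn : ℕ} {g : ℝ}
    (hg : (g = Γ.h ∧ a + 5 * nn ≤ Γ.M) ∨ (g = 0 ∧ Γ.M ≤ a))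
    (h0 : 0 ≤ G.rcc u κ) (ha : a + 1 = G.ra u κ) (hrl : a + 5 * nn < G.re u κ) (hre : G.re u κ ≤ Γ.N)
    {x0 : ℤ} (hx0 : |(x0 : ℝ) - sl μ s * a - G.ctr u κ| ≤ 1) {d dR : ℝ} (P : O22.Pr Γ a (G.re u κ) (O22.Bw G u κ) d ω ω')
    (hRo : Ro (wt ω) (wt ω') Γ.p Γ.N (O22.Bw G u κ) (Real.exp dR))
    {a₀ b₀ γ : ℝ} (hab : b₀ < a₀) (hFw : ω ∈ Fw Γ G a₀ b₀ γ u κ) (hkb : a₀ * G.w u + 1 ≤ G.kb * G.w u)
    (hkw : G.kw * G.w u + 2 ≤ b₀ * G.w u)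
    {E : ℕ → ℝ} {R Q' sg X2 : ℝ} (hT : ω ∈ OuT μ s Γ G E R Q' sg u κ)
    (hT' : ∀ c ∈ Zo G R u κ, ∀ c' ∈ Zo G R u κ, a + 5 * nn ≤ c.1 → a + 5 * nn ≤ c'.1 →
      bn μ s Γ c'.1 c'.2 ω' ≤ Real.exp X2 * bn μ s Γ c.1 c.2 ω')
    (hR : b₀ ≤ R) (hR1 : 1 ≤ R * G.w u) {t V σV : ℝ} (hUp : ω' ∈ UpS μ s t ((a : ℤ), x0) (5 * nn) V σV) (hgt : |g| ≤ t)
    (hσV : 0 ≤ σV) {Mo : Set ℤ} {ρ : ℝ} (hMo : ∀ v ∈ Mo, |G.lat (a + 5 * nn, v) - G.ctr u κ| ≤ ρ) (hρ : ρ ≤ b₀ * G.w u - 1)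
    {i : ℕ} {y : ℤ} (hlo : (G.lo u κ).toNat ≤ i) (hi : i < a + 5 * nn) (hnb : ¬ G.Nb u κ (i, y)) {s0 : ℝ}
    (hs0 : Real.exp (2 * d) * (((G.ra u κ - (G.lo u κ).toNat : ℕ) : ℝ) * Real.exp (-γ)) +
      Real.exp (V + σV * (b₀ * G.w u + 1) + (X2 + (Q' * E u + sg) + dR) - (t - |g|) * (b₀ * G.w u - 1 - ρ)) ≤ s0) :
    ∑ v ∈ bx Γ Mo, ker (wt ω') Γ.p (i + 1) (a + 5 * nn - (i + 1)) y v * bW Γ ω' (a + 5 * nn) v ≤ s0 * bW Γ ω' (i + 1) y := by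
  have hw := G.w_pos u
  have hraE := G.ra_cast h0
  have hreE := G.re_cast h0
  obtain ⟨z', hz'⟩ : ∃ z' : ℤ, |G.lat (G.re u κ, z') - G.ctr u κ| ≤ 1 := by
    refine ⟨⌊G.ctr u κ + G.v * (G.re u κ : ℝ)⌋, ?_⟩
    have h1 := Int.floor_le (G.ctr u κ + G.v * (G.re u κ : ℝ))
    have h2 := Int.lt_floor_add_one (G.ctr u κ + G.v * (G.re u κ : ℝ))
    unfold Gm.lat
    simp only
    rw [abs_le]
    constructor <;> linarith
  have hZr : (G.re u κ, z') ∈ Zo G R u κ := ⟨by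
    have := G.ra_le_re u κ
    show G.ra u κ ≤ G.re u κ + 1
    omega, le_rfl, hz'.trans hR1⟩
  obtain ⟨σ, hσ⟩ : ∃ σ : ℝ, σ = Real.exp (V + σV * (b₀ * G.w u + 1) + (X2 + (Q' * E u + sg) + dR) - (t - |g|) * (b₀ * G.w u - 1 - ρ)) :=
    ⟨_, rfl⟩
  have hσ0 : 0 ≤ σ := by rw [hσ]; exact (Real.exp_pos _).le
  have hbR : b₀ * G.w u ≤ R * G.w u := mul_le_mul_of_nonneg_right hR hw.le
  -- the starts next to the column
  have rim : ∀ k y, a < k → k ≤ a + 5 * nn → b₀ * G.w u - 1 < |G.lat (k, y) - G.ctr u κ| → |G.lat (k, y) - G.ctr u κ| ≤ b₀ * G.w u →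
      QA Γ ω' (a + 5 * nn) Mo k y ≤ σ * bW Γ ω' k y := by
    intro k y h1 h2 h3 h4
    obtain ⟨n, hn⟩ : ∃ n, a + 5 * nn = k + n := ⟨a + 5 * nn - k, by omega⟩
    have hZk : (k, y) ∈ Zo G R u κ := ⟨by show G.ra u κ ≤ k + 1; omega, by show k ≤ G.re u κ; omega, h4.trans hbR⟩
    have hoff : (k, y) ∉ O22.Bw G u κ := fun h => by
      have := lat_win (G := G) (u := u) (κ := κ) (k := k) (y := y) h
      linarith
    have hbn : bn μ s Γ k y ω ≤ Real.exp dR * bn μ s Γ k y ω' := bn_off (P.off k y hoff) (hRo.dn k y hoff)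
    have hl : |lat16 μ s ((a : ℤ), x0) ((k : ℤ), y)| ≤ b₀ * G.w u + 1 := by
      have e : lat16 μ s ((a : ℤ), x0) ((k : ℤ), y) = (G.lat (k, y) - G.ctr u κ) + -((x0 : ℝ) - sl μ s * a - G.ctr u κ) := by
        unfold lat16 Gm.lat
        rw [hGv]
        push_cast
        ring
      rw [e]
      refine (abs_add_le _ _).trans ?_
      rw [abs_neg]
      linarith
    obtain ⟨-, t1, t2⟩ := hUp ((k : ℤ), y) n (by
      show (a : ℤ) ≤ (k : ℤ)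
      omega) (by
      show (k : ℤ) + (n : ℤ) ≤ (a : ℤ) + ((5 * nn : ℕ) : ℤ)
      have : ((a + 5 * nn : ℕ) : ℤ) = ((k + n : ℕ) : ℤ) := by rw [hn]
      push_cast at this ⊢
      linarith)
    have hV : V + σV * |lat16 μ s ((a : ℤ), x0) ((k : ℤ), y)| ≤ V + σV * (b₀ * G.w u + 1) := by
      have := mul_le_mul_of_nonneg_left hl hσV
      linarith
    have h5 := rim62 (μ := μ) hs (g := g) (r := k) (n := n) (by
      rcases hg with ⟨g1, g2⟩ | ⟨g1, g2⟩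
      · exact Or.inl ⟨g1, by omega⟩
      · exact Or.inr ⟨g1, by omega⟩) (by omega) (η := ω') (z := y) (c0 := G.ctr u κ) (t := t)
      (V := V + σV * (b₀ * G.w u + 1)) (X := X2 + (Q' * E u + sg) + dR) (ρ₀ := ρ) (ρ₁ := b₀ * G.w u - 1) (t1.trans hV) (t2.trans hV) hgt
      (by rw [la_lat hGv]; exact h3.le) (A := Mo) (fun v hv => by
        rw [la_lat hGv, ← hn]
        exact hMo v hv) hρ (fun v hv => by
        have hZv : (k + n, v) ∈ Zo G R u κ := ⟨by show G.ra u κ ≤ k + n + 1; omega, by show k + n ≤ G.re u κ; omega, by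
          rw [← hn]
          exact (hMo v hv).trans (by linarith)⟩
        exact (bnX62 (d := dR) (c := (k, y)) (c' := (k + n, v)) hT hT' hZr hrl.le (bn_ge P le_rfl z') hZk hZv
          (show a + 5 * nn ≤ k + n by omega)).1 hbn)
    rw [hn, hσ]
    exact h5
  -- the start
  have h1 : G.kb * G.w u < |G.lat (i, y) - G.ctr u κ| := by
    by_contra h2
    refine hnb ⟨?_, ?_, not_lt.1 h2⟩
    · have := Int.self_le_toNat (G.lo u κ)
      show G.lo u κ ≤ (i : ℤ)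
      omega
    · show (i : ℤ) < G.rcc u κ + G.T u
      omega
  have h2 : a₀ * G.w u ≤ |G.lat (i + 1, y) - G.ctr u κ| := by
    have e : G.lat (i, y) - G.ctr u κ = (G.lat (i + 1, y) - G.ctr u κ) + G.v := by
      unfold Gm.lat
      push_cast
      ring
    rw [e] at h1
    have h3 := abs_add_le (G.lat (i + 1, y) - G.ctr u κ) G.v
    rw [hGv, abs_of_nonneg hv0] at h3
    rw [hGv] at h1
    linarith
  have h3 := st62 P hab hFw (by omega) (show a ≤ Γ.N by omega) (rl := a + 5 * nn) (by omega) (by omega) (Mo := Mo) hσ0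
    (by rw [hGv]; exact hv0) (by rw [hGv]; exact hv1) (fun v hv => (hMo v hv).trans (by linarith)) rim (k := i + 1) (by omega) (y := y)
    (by
      have := Int.self_le_toNat (G.lo u κ)
      push_cast
      omega) h2
  refine (sum_le_QA (Γ := Γ) (ω := ω') (e := a + 5 * nn) (k := i + 1) (A := Mo) y).trans (h3.trans ?_)
  refine mul_le_mul_of_nonneg_right (le_trans ?_ hs0) (bW_pos _ _ _ _).le
  rw [← hσ]
  have h4 : ((er Γ G u κ - (i + 1) : ℕ) : ℝ) ≤ ((G.ra u κ - (G.lo u κ).toNat : ℕ) : ℝ) := by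
    have h5 : er Γ G u κ ≤ G.ra u κ := min_le_left _ _
    exact_mod_cast (by omega : er Γ G u κ - (i + 1) ≤ G.ra u κ - (G.lo u κ).toNat)
  have h5 := mul_le_mul_of_nonneg_right h4 (Real.exp_pos (-γ)).le
  have h6 := mul_le_mul_of_nonneg_left h5 (Real.exp_pos (2 * d)).le
  linarith

end

end Pool.Agent.W_7d29a1_C1.Sz62
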