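import Pool.Agent.W_7d29a1_C1.Fw53
import Pool.Agent.W_7d29a1_C1.HcoB62
import Pool.Agent.W_7d29a1_C1.KerP16

/-!
MP_7d29a1_pr, attractor route, [C1] SEP: **THE SITE `z₀` AND THE STARTS OFF THE COLUMN** (`site`, `st` of `Rs28` / `Lu28`), on the fibre of a
typical environment. (helper62)

`ω` = the old environment (sets `St`, `Fw`), `ω'` = an environment of the same fibre; `bW` = the mass of a site, `QA e A k q` = the part of it
which is in `A` at the row `e` (Quen53).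
* `site62` : every contact of the cell has the part `(1 - exp (-β)) exp (-2 d) g₀` of its mass through the one site `z₀`;
* `kb62`, `low62` : one kernel in the normalised masses, the lower bound `g₀` of the block; `bnX62` : the chain `ω'`, row `re`, `ω`, `ω'`;
* `ent62` : the first entrance; `rim62` : one start next to the column, three tilts; **`st62`** : the field `st`.
-/

set_option autoImplicit false

namespace Pool.Agent.W_7d29a1_C1.Sz62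

open Finset MeasureTheory
open Pool.Agent.W_7d29a1_F hiding Bw G
open Pool.Agent.W_7d29a1_h4g Pool.Agent.W_7d29a1_HS
open Pool.Agent.W_7d29a1_H hiding ex gg
open Pool.Agent.W_7d29a1_L (T exp_T)
open Pool.Agent.W_7d29a1_C1.K91 (wt wt_pos)
open Pool.Agent.W_7d29a1_C1.K91P (fw bw bw_pos)
open Pool.Agent.W_7d29a1_C1.U16 (ker ker_nonneg ker_eq_zero ker_W)
open Pool.Agent.W_7d29a1_C1.FarW89 (bl)
open Pool.Agent.W_7d29a1_C1.H60 (Cx)
open Pool.Agent.W_7d29a1_C1.G37 (Gm)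
open Pool.Agent.W_7d29a1_C1.Rt22 (gg)
open Pool.Agent.W_7d29a1_C1.Ou37 (gam bn bn_pos bw_bn Zo OuT)
open Pool.Agent.W_7d29a1_C1.SD53
open Pool.Agent.W_7d29a1_C1.Sy78 (St Rg sp)
open Pool.Agent.W_7d29a1_C1.Hc62 (la la_sub gam_add)

noncomputable section

attribute [local instance 10] Classical.propDecidable

variable {μ : Measure ℝ} {s : ℝ} {Γ : Cx} {G : Gm} {u : ℕ} {κ : ℤ × ℤ} {ω ω' : Env}

/-! ### Parts of a mass -/

theorem QA_sing {e k : ℕ} {z : ℤ} (q : ℤ) : QA Γ ω e {z} k q = ker (wt ω) Γ.p k (e - k) q z * bW Γ ω e z := by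
  unfold QA
  rw [Sp22.bf_ker, sum_eq_single z]
  · rw [tf_mem (show z ∈ ({z} : Set ℤ) from rfl)]
  · intro y _ hy
    rw [tf_not (show y ∉ ({z} : Set ℤ) from hy), mul_zero]
  · intro hz
    rw [ker_eq_zero _ _ _ _ (fun h => hz (mem_Icc.2 h)), zero_mul]

/-- A sum over sites of the box. -/
theorem sum_le_QA {e k : ℕ} {A : Set ℤ} (q : ℤ) :
    ∑ v ∈ bx Γ A, ker (wt ω) Γ.p k (e - k) q v * bW Γ ω e v ≤ QA Γ ω e A k q := by
  have h0 : ∀ v, 0 ≤ ker (wt ω) Γ.p k (e - k) q v * tf Γ ω e A v := fun v =>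
    mul_nonneg (ker_nonneg (wt_pos ω) Γ.p_pos _ _ _ _) (tf_nonneg _ _ _)
  have h1 : ∑ v ∈ bx Γ A, ker (wt ω) Γ.p k (e - k) q v * bW Γ ω e v = ∑ v ∈ bx Γ A, ker (wt ω) Γ.p k (e - k) q v * tf Γ ω e A v :=
    sum_congr rfl fun v hv => by rw [tf_mem (mem_bx hv)]
  have h2 : ∑ v ∈ bx Γ A, ker (wt ω) Γ.p k (e - k) q v * tf Γ ω e A v =
      ∑ v ∈ (bx Γ A).filter (fun v => v ∈ Icc q (q + (e - k : ℕ))), ker (wt ω) Γ.p k (e - k) q v * tf Γ ω e A v := by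
    rw [sum_filter]
    refine sum_congr rfl fun v _ => ?_
    split_ifs with h
    · rfl
    · rw [ker_eq_zero _ _ _ _ (fun h' => h (mem_Icc.2 h')), zero_mul]
  rw [h1, h2]
  unfold QA
  rw [Sp22.bf_ker]
  exact sum_le_sum_of_subset_of_nonneg (fun v hv => (mem_filter.1 hv).2) fun v _ _ => h0 v

/-- Two environments which agree before the row `a`. -/
theorem QA_cmp {a : ℕ} {A : Set ℤ} {C : ℝ} (lt : ∀ i, i < a → wt ω i = wt ω' i)
    (h : ∀ y ∈ A, bW Γ ω a y ≤ C * bW Γ ω' a y) : ∀ k, k ≤ a → ∀ q, QA Γ ω a A k q ≤ C * QA Γ ω' a A k q := by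
  refine down (fun q => ?_) fun k hk ih q => ?_
  · rw [QA_self, QA_self]
    by_cases h1 : q ∈ A
    · rw [tf_mem h1, tf_mem h1]
      exact h q h1
    · rw [tf_not h1, tf_not h1, mul_zero]
  · rw [QA_step A hk, QA_step A hk, lt k hk]
    have a1 := ih q
    have a2 := mul_le_mul_of_nonneg_left (ih (q + 1)) (Γ.p_pos k).le
    have a3 := mul_le_mul_of_nonneg_left (add_le_add a1 a2) (wt_pos ω' k q).le
    calc _ ≤ _ := a3
      _ = _ := by ring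

/-- The totals. -/
theorem bW_cmp {a : ℕ} {C : ℝ} (haN : a ≤ Γ.N) (lt : ∀ i, i < a → wt ω i = wt ω' i) (h : ∀ y, bW Γ ω a y ≤ C * bW Γ ω' a y) :
    ∀ k, k ≤ a → ∀ q, bW Γ ω k q ≤ C * bW Γ ω' k q := by
  refine down (fun q => h q) fun k hk ih q => ?_
  rw [bW_step (show k < Γ.N by omega), bW_step (show k < Γ.N by omega), lt k hk]
  have a1 := ih q
  have a2 := mul_le_mul_of_nonneg_left (ih (q + 1)) (Γ.p_pos k).le
  have a3 := mul_le_mul_of_nonneg_left (add_le_add a1 a2) (wt_pos ω' k q).le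
  calc _ ≤ _ := a3
    _ = _ := by ring

/-- From a set of sites of the row `b` on. -/
theorem QA_low {b e : ℕ} (hbe : b ≤ e) {A Z : Set ℤ} {g : ℝ} (h : ∀ x ∈ A, g * bW Γ ω b x ≤ QA Γ ω e Z b x) :
    ∀ k, k ≤ b → ∀ q, g * QA Γ ω b A k q ≤ QA Γ ω e Z k q := by
  refine down (fun q => ?_) fun k hk ih q => ?_
  · rw [QA_self]
    by_cases h1 : q ∈ A
    · rw [tf_mem h1]
      exact h q h1
    · rw [tf_not h1, mul_zero]
      exact QA_nonneg e Z b q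
  · rw [QA_step A hk, QA_step Z (show k < e by omega)]
    have a1 := ih q
    have a2 := mul_le_mul_of_nonneg_left (ih (q + 1)) (Γ.p_pos k).le
    have a3 := mul_le_mul_of_nonneg_left (add_le_add a1 a2) (wt_pos ω k q).le
    calc _ = wt ω k q * (g * QA Γ ω b A (k + 1) q + Γ.p k * (g * QA Γ ω b A (k + 1) (q + 1))) := by ring
      _ ≤ _ := a3

/-- Visits, a row before the last one. -/
theorem QA_VS {a e : ℕ} (hae : a ≤ e) (he : e ≤ Γ.N) {A : Set ℤ} {S : Set (ℕ × ℤ)} (h : ∀ y ∈ A, (a, y) ∈ S) :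
    ∀ k, k ≤ a → ∀ q, QA Γ ω a A k q ≤ VS Γ ω e S k q := by
  refine down (fun q => ?_) fun k hk ih q => ?_
  · rw [QA_self]
    by_cases h1 : q ∈ A
    · rw [tf_mem h1, VS_mem (h q h1)]
    · rw [tf_not h1]
      exact VS_nonneg a hae q
  · by_cases h1 : (k, q) ∈ S
    · rw [VS_mem h1]
      exact QA_le_bW (hae.trans he) A k hk.le q
    · rw [QA_step A hk, VS_step (show k < e by omega) h1]
      exact mul_le_mul_of_nonneg_left (add_le_add (ih q) (mul_le_mul_of_nonneg_left (ih (q + 1)) (Γ.p_pos k).le))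
        (wt_pos ω k q).le

/-! ### The site -/

/-- **THE SITE `z₀`.** `(k, q)` = the first site behind the contact. -/
theorem site62 {a e : ℕ} {B : Set (ℕ × ℤ)} {d : ℝ} (P : O22.Pr Γ a e B d ω ω') {aS bS β : ℝ} (hSt : ω ∈ St Γ G aS bS β u κ)
    (har : a ≤ G.ra u κ) (haN : a < Γ.N) {k : ℕ} {q : ℤ} (hka : k ≤ a) (hRg : (k, q) ∈ Rg G u κ aS) {rl : ℕ} {z₀ : ℤ} {g₀ : ℝ}
    (harl : a ≤ rl) (hg₀ : 0 ≤ g₀)
    (low : ∀ x, |G.lat (a, x) - G.ctr u κ| ≤ bS * G.w u → g₀ * bW Γ ω' a x ≤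
      ker (wt ω') Γ.p a (rl - a) x z₀ * bW Γ ω' rl z₀) :
    (1 - Real.exp (-β)) * Real.exp (-(2 * d)) * g₀ * bW Γ ω' k q ≤ ker (wt ω') Γ.p k (rl - k) q z₀ * bW Γ ω' rl z₀ := by
  obtain ⟨Z, hZ⟩ : ∃ Z : Set ℤ, Z = {x | |G.lat (a, x) - G.ctr u κ| ≤ bS * G.w u} := ⟨_, rfl⟩
  have h1 : QA Γ ω a Zᶜ k q ≤ Real.exp (-β) * bW Γ ω k q := St_QA hSt har haN hka hRg fun z hz h => hz (by
    rw [hZ]
    exact h)
  have h2 := QA_compl (Γ := Γ) (ω := ω) haN.le Z k hka q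
  have h3 : QA Γ ω a Z k q ≤ Real.exp d * QA Γ ω' a Z k q := QA_cmp P.lt (fun y _ => P.dn y) k hka q
  have h4 : g₀ * QA Γ ω' a Z k q ≤ QA Γ ω' rl {z₀} k q := QA_low harl (fun x hx => by
    rw [QA_sing]
    rw [hZ] at hx
    exact low x hx) k hka q
  have h5 : bW Γ ω' k q ≤ Real.exp d * bW Γ ω k q := bW_cmp (ω := ω') (ω' := ω) haN.le (fun i hi => (P.lt i hi).symm) P.up k hka q
  rw [QA_sing] at h4
  refine le_trans ?_ h4
  have h6 : (1 - Real.exp (-β)) * bW Γ ω k q ≤ Real.exp d * QA Γ ω' a Z k q := by linarith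
  have b0 := bW_pos Γ ω k q
  have e0 : Real.exp (-(2 * d)) * Real.exp d = Real.exp (-d) := by
    rw [← Real.exp_add]
    congr 1
    ring
  have e1 : Real.exp (-d) * Real.exp d = 1 := by
    rw [← Real.exp_add, neg_add_cancel, Real.exp_zero]
  have Q0 := QA_nonneg (Γ := Γ) (ω := ω') a Z k q
  rcases le_or_gt (Real.exp (-β)) 1 with hb | hb
  · have m1 : (1 - Real.exp (-β)) * bW Γ ω' k q ≤ Real.exp d * ((1 - Real.exp (-β)) * bW Γ ω k q) := by
      have := mul_le_mul_of_nonneg_left h5 (show 0 ≤ 1 - Real.exp (-β) by linarith)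
      linarith
    have m2 : Real.exp (-(2 * d)) * ((1 - Real.exp (-β)) * bW Γ ω' k q) ≤ QA Γ ω' a Z k q := by
      calc Real.exp (-(2 * d)) * ((1 - Real.exp (-β)) * bW Γ ω' k q)
          ≤ Real.exp (-(2 * d)) * (Real.exp d * (Real.exp d * QA Γ ω' a Z k q)) :=
            mul_le_mul_of_nonneg_left (m1.trans (mul_le_mul_of_nonneg_left h6 (Real.exp_pos _).le)) (Real.exp_pos _).le
        _ = (Real.exp (-(2 * d)) * Real.exp d) * Real.exp d * QA Γ ω' a Z k q := by ring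
        _ = QA Γ ω' a Z k q := by rw [e0, e1, one_mul]
    have m3 := mul_le_mul_of_nonneg_left m2 hg₀
    linarith
  · have m1 : (1 - Real.exp (-β)) * Real.exp (-(2 * d)) * g₀ * bW Γ ω' k q ≤ 0 := by
      have n1 : (1 - Real.exp (-β)) ≤ 0 := by linarith
      have n2 : 0 ≤ Real.exp (-(2 * d)) * g₀ * bW Γ ω' k q := mul_nonneg (mul_nonneg (Real.exp_pos _).le hg₀) (bW_pos _ _ _ _).le
      have n3 := mul_nonneg (neg_nonneg.2 n1) n2
      linarith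
    exact m1.trans (mul_nonneg hg₀ Q0)

/-! ### One kernel -/

/-- **A kernel in the normalised masses**, one slope `g` on the rows. -/
theorem kb62 (hs : Γ.s = s) {g : ℝ} {r n : ℕ} (hg : (g = Γ.h ∧ r + n ≤ Γ.M) ∨ (g = 0 ∧ Γ.M ≤ r)) (hN : r + n ≤ Γ.N) (η : Env)
    (z v : ℤ) : ker (wt η) Γ.p r n z v * bW Γ η (r + n) v * bn μ s Γ r z η =
      Real.exp (g * (((v - z : ℤ) : ℝ) - sl μ s * n)) * W μ s η ((r : ℤ), z) n (v - z) * bn μ s Γ (r + n) v η * bW Γ η r z := by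
  have hp : ∀ k, r ≤ k → k < r + n → Γ.p k = Real.exp (s + g) := by
    intro k h1 h2
    unfold Cx.p
    rcases hg with ⟨h3, h4⟩ | ⟨h3, h4⟩
    · rw [if_pos (by omega), hs, h3]
    · rw [if_neg (by omega), hs, h3, add_zero]
  have h1 := ker_W (μ := μ) (s := s) (h := g) η (p := Γ.p) r z n v hp
  have h2 : bW Γ η (r + n) v = wt η (r + n) v * gam μ s Γ (r + n) v * bn μ s Γ (r + n) v η := by
    unfold bW
    rw [bw_bn (μ := μ) (s := s)]
    rfl
  have h3 : bW Γ η r z = wt η r z * gam μ s Γ r z * bn μ s Γ r z η := by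
    unfold bW
    rw [bw_bn (μ := μ) (s := s)]
    rfl
  have hb : Γ.h * sl μ s * ((bl Γ.M r n : ℕ) : ℝ) = g * (sl μ s * n) := by
    rcases hg with ⟨h4, h5⟩ | ⟨h4, h5⟩
    · have e : bl Γ.M r n = n := by
        show min n (Γ.M - r) = n
        omega
      rw [e, h4]
      ring
    · have e : bl Γ.M r n = 0 := by
        show min n (Γ.M - r) = 0
        omega
      rw [e, h4]
      simp
  have e1 : Real.exp (n * lam μ s + g * ((v - z : ℤ) : ℝ)) =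
      Real.exp (g * (((v - z : ℤ) : ℝ) - sl μ s * n)) * Real.exp (n * lam μ s + Γ.h * sl μ s * ((bl Γ.M r n : ℕ) : ℝ)) := by
    rw [← Real.exp_add, hb]
    congr 1
    ring
  rw [h2, h3, gam_add (μ := μ) (s := s) hN z v]
  calc ker (wt η) Γ.p r n z v * (wt η (r + n) v * gam μ s Γ (r + n) v * bn μ s Γ (r + n) v η) * bn μ s Γ r z η
      = (ker (wt η) Γ.p r n z v * wt η (r + n) v) * (gam μ s Γ (r + n) v * bn μ s Γ (r + n) v η * bn μ s Γ r z η) := by ring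
    _ = _ := by
        rw [h1, e1]
        ring

/-- **The lower bound of the block**: from `x` (row `a`) to `z₀` (row `a + n`). -/
theorem low62 (hs : Γ.s = s) {g : ℝ} {a n : ℕ} (hg : (g = Γ.h ∧ a + n ≤ Γ.M) ∨ (g = 0 ∧ Γ.M ≤ a)) (hN : a + n ≤ Γ.N) {η : Env}
    {x z₀ : ℤ} {Q X D : ℝ} (hW : Real.exp (-Q) ≤ W μ s η ((a : ℤ), x) n (z₀ - x))
    (hD : |((z₀ - x : ℤ) : ℝ) - sl μ s * n| ≤ D) (hX : bn μ s Γ a x η ≤ Real.exp X * bn μ s Γ (a + n) z₀ η) :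
    Real.exp (-(Q + X + |g| * D)) * bW Γ η a x ≤ ker (wt η) Γ.p a n x z₀ * bW Γ η (a + n) z₀ := by
  have h1 := kb62 (μ := μ) hs hg hN η x z₀
  have hb := bn_pos (μ := μ) (s := s) (Γ := Γ) a x η
  have hB := (bW_pos Γ η a x).le
  refine le_of_mul_le_mul_right ?_ hb
  rw [h1]
  have h2 : Real.exp (-(|g| * D)) ≤ Real.exp (g * (((z₀ - x : ℤ) : ℝ) - sl μ s * n)) := by
    refine Real.exp_le_exp.2 ?_
    have h3 : |g * (((z₀ - x : ℤ) : ℝ) - sl μ s * n)| ≤ |g| * D := by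
      rw [abs_mul]
      exact mul_le_mul_of_nonneg_left hD (abs_nonneg _)
    exact (abs_le.1 h3).1
  have h4 : Real.exp (-X) * bn μ s Γ a x η ≤ bn μ s Γ (a + n) z₀ η := by
    have := mul_le_mul_of_nonneg_left hX (Real.exp_pos (-X)).le
    rw [← mul_assoc, ← Real.exp_add, neg_add_cancel, Real.exp_zero, one_mul] at this
    exact this
  have e1 : Real.exp (-(Q + X + |g| * D)) = Real.exp (-(|g| * D)) * Real.exp (-Q) * Real.exp (-X) := by
    rw [← Real.exp_add, ← Real.exp_add]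
    congr 1
    ring
  calc Real.exp (-(Q + X + |g| * D)) * bW Γ η a x * bn μ s Γ a x η
      = Real.exp (-(|g| * D)) * Real.exp (-Q) * (Real.exp (-X) * bn μ s Γ a x η) * bW Γ η a x := by rw [e1]; ring
    _ ≤ Real.exp (g * (((z₀ - x : ℤ) : ℝ) - sl μ s * n)) * W μ s η ((a : ℤ), x) n (z₀ - x) * bn μ s Γ (a + n) z₀ η * bW Γ η a x := by
        refine mul_le_mul_of_nonneg_right (mul_le_mul (mul_le_mul h2 hW (Real.exp_pos _).le (Real.exp_pos _).le) h4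
          (by positivity) (mul_nonneg (Real.exp_pos _).le (W_nonneg _ _ _ _))) hB

private theorem ch3 {a b c c' x1 x2 x3 : ℝ} (h1 : a ≤ Real.exp x1 * b) (h2 : b ≤ Real.exp x2 * c) (h3 : c ≤ Real.exp x3 * c') :
    a ≤ Real.exp (x1 + x2 + x3) * c' := by
  have h4 := mul_le_mul_of_nonneg_left h3 (Real.exp_pos x2).le
  have h5 := mul_le_mul_of_nonneg_left (h2.trans h4) (Real.exp_pos x1).le
  refine (h1.trans h5).trans (le_of_eq ?_)
  rw [Real.exp_add, Real.exp_add]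
  ring

/-- **The chain of the normalised masses**: `ω'` (rows `≥ rl`), the row `re`, `ω`, and the ratio of one site. -/
theorem bnX62 {R X1 X2 d : ℝ} {rl : ℕ} (hT : ∀ c ∈ Zo G R u κ, ∀ c' ∈ Zo G R u κ, bn μ s Γ c'.1 c'.2 ω ≤ Real.exp X1 * bn μ s Γ c.1 c.2 ω)
    (hT' : ∀ c ∈ Zo G R u κ, ∀ c' ∈ Zo G R u κ, rl ≤ c.1 → rl ≤ c'.1 → bn μ s Γ c'.1 c'.2 ω' ≤ Real.exp X2 * bn μ s Γ c.1 c.2 ω')
    {z' : ℤ} (hz' : (G.re u κ, z') ∈ Zo G R u κ) (hre : rl ≤ G.re u κ) (he : bn μ s Γ (G.re u κ) z' ω' = bn μ s Γ (G.re u κ) z' ω)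
    {c c' : ℕ × ℤ} (hc : c ∈ Zo G R u κ) (hc' : c' ∈ Zo G R u κ) (hr : rl ≤ c'.1) :
    (bn μ s Γ c.1 c.2 ω ≤ Real.exp d * bn μ s Γ c.1 c.2 ω' → bn μ s Γ c'.1 c'.2 ω' ≤ Real.exp (X2 + X1 + d) * bn μ s Γ c.1 c.2 ω') ∧
    (bn μ s Γ c.1 c.2 ω' ≤ Real.exp d * bn μ s Γ c.1 c.2 ω → bn μ s Γ c.1 c.2 ω' ≤ Real.exp (d + X1 + X2) * bn μ s Γ c'.1 c'.2 ω') := by
  have t1 : bn μ s Γ c'.1 c'.2 ω' ≤ Real.exp X2 * bn μ s Γ (G.re u κ) z' ω' := hT' (G.re u κ, z') hz' c' hc' hre hr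
  have t2 : bn μ s Γ (G.re u κ) z' ω ≤ Real.exp X1 * bn μ s Γ c.1 c.2 ω := hT c hc (G.re u κ, z') hz'
  have t3 : bn μ s Γ c.1 c.2 ω ≤ Real.exp X1 * bn μ s Γ (G.re u κ) z' ω := hT (G.re u κ, z') hz' c hc
  have t4 : bn μ s Γ (G.re u κ) z' ω' ≤ Real.exp X2 * bn μ s Γ c'.1 c'.2 ω' := hT' c' hc' (G.re u κ, z') hz' hr hre
  rw [he] at t1 t4
  exact ⟨fun h => ch3 t1 t2 h, fun h => ch3 h t3 t4⟩

/-! ### The starts off the column -/

/-- **THE FIRST ENTRANCE.** `D` = off the column. -/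
theorem ent62 {e : ℕ} (he : e ≤ Γ.N) {A : Set ℤ} {D : ℕ → ℤ → Prop} {a : ℕ} {σ : ℝ} (hσ : 0 ≤ σ) (hA : ∀ y, D e y → y ∉ A)
    (hR : ∀ k y y', a ≤ k → k < e → D k y → (y' = y ∨ y' = y + 1) → ¬ D (k + 1) y' → QA Γ ω e A (k + 1) y' ≤ σ * bW Γ ω (k + 1) y') :
    ∀ k, k ≤ e → a ≤ k → ∀ q, D k q → QA Γ ω e A k q ≤ σ * bW Γ ω k q := by
  refine down (fun _ q hq => ?_) fun k hk ih hak q hq => ?_
  · rw [QA_self, tf_not (hA q hq)]
    exact mul_nonneg hσ (bW_pos _ _ _ _).le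
  · have key : ∀ y', (y' = q ∨ y' = q + 1) → QA Γ ω e A (k + 1) y' ≤ σ * bW Γ ω (k + 1) y' := fun y' hy' => by
      by_cases h1 : D (k + 1) y'
      · exact ih (by omega) y' h1
      · exact hR k q y' hak hk hq hy' h1
    rw [QA_step A hk, bW_step (show k < Γ.N by omega)]
    have a1 := key q (Or.inl rfl)
    have a2 := mul_le_mul_of_nonneg_left (key (q + 1) (Or.inr rfl)) (Γ.p_pos k).le
    have a3 := mul_le_mul_of_nonneg_left (add_le_add a1 a2) (wt_pos ω k q).le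
    calc _ ≤ _ := a3
      _ = _ := by ring

/-- **ONE START NEXT TO THE COLUMN.** `t` = the tilt, `c0` = any centre. -/
theorem rim62 (hs : Γ.s = s) {g : ℝ} {r n : ℕ} (hg : (g = Γ.h ∧ r + n ≤ Γ.M) ∨ (g = 0 ∧ Γ.M ≤ r)) (hN : r + n ≤ Γ.N) {η : Env} {z : ℤ}
    {c0 t V X ρ₀ ρ₁ : ℝ} (h1 : T μ s (sl μ s) t η ((r : ℤ), z) n ≤ V) (h2 : T μ s (sl μ s) (-t) η ((r : ℤ), z) n ≤ V) (hgt : |g| ≤ t)
    (hz : ρ₁ ≤ |la (sl μ s) c0 r z|) {A : Set ℤ} (hA : ∀ v ∈ A, |la (sl μ s) c0 (r + n) v| ≤ ρ₀) (hρ : ρ₀ ≤ ρ₁)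
    (hX : ∀ v ∈ A, bn μ s Γ (r + n) v η ≤ Real.exp X * bn μ s Γ r z η) :
    QA Γ η (r + n) A r z ≤ Real.exp (V + X - (t - |g|) * (ρ₁ - ρ₀)) * bW Γ η r z := by
  have hb := bn_pos (μ := μ) (s := s) (Γ := Γ) r z η
  have hB := bW_pos Γ η r z
  -- the tilt against the side of the start
  obtain ⟨τ, hτT, hτ⟩ : ∃ τ : ℝ, T μ s (sl μ s) τ η ((r : ℤ), z) n ≤ V ∧ ∀ v ∈ A,
      g * (((v - z : ℤ) : ℝ) - sl μ s * n) ≤ τ * (((v - z : ℤ) : ℝ) - sl μ s * n) - (t - |g|) * (ρ₁ - ρ₀) := by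
    have hg1 := neg_abs_le g
    have hg2 := le_abs_self g
    have hm : 0 ≤ t - |g| := by linarith
    rcases le_total 0 (la (sl μ s) c0 r z) with h3 | h3
    · refine ⟨-t, h2, fun v hv => ?_⟩
      rw [abs_of_nonneg h3] at hz
      have h4 := (abs_le.1 (hA v hv)).2
      rw [la_sub (c0 := c0) r n z v]
      have h5 : la (sl μ s) c0 (r + n) v - la (sl μ s) c0 r z ≤ -(ρ₁ - ρ₀) := by linarith
      have h6 : (t + g) * (la (sl μ s) c0 (r + n) v - la (sl μ s) c0 r z) ≤ (t + g) * -(ρ₁ - ρ₀) :=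
        mul_le_mul_of_nonneg_left h5 (by linarith)
      have h7 : (t - |g|) * (ρ₁ - ρ₀) ≤ (t + g) * (ρ₁ - ρ₀) := mul_le_mul_of_nonneg_right (by linarith) (by linarith)
      linarith
    · refine ⟨t, h1, fun v hv => ?_⟩
      rw [abs_of_nonpos h3] at hz
      have h4 := (abs_le.1 (hA v hv)).1
      rw [la_sub (c0 := c0) r n z v]
      have h5 : ρ₁ - ρ₀ ≤ la (sl μ s) c0 (r + n) v - la (sl μ s) c0 r z := by linarith
      have h6 : (t - g) * (ρ₁ - ρ₀) ≤ (t - g) * (la (sl μ s) c0 (r + n) v - la (sl μ s) c0 r z) :=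
        mul_le_mul_of_nonneg_left h5 (by linarith)
      have h7 : (t - |g|) * (ρ₁ - ρ₀) ≤ (t - g) * (ρ₁ - ρ₀) := mul_le_mul_of_nonneg_right (by linarith) (by linarith)
      linarith
  obtain ⟨Kc, hKc⟩ : ∃ Kc : ℝ, Kc = Real.exp (X - (t - |g|) * (ρ₁ - ρ₀)) := ⟨_, rfl⟩
  have hKc0 : 0 < Kc := by rw [hKc]; exact Real.exp_pos _
  have key : ∀ v, ker (wt η) Γ.p r n z v * tf Γ η (r + n) A v ≤
      Kc * bW Γ η r z * (W μ s η ((r : ℤ), z) n (v - z) * Real.exp (τ * (((v - z : ℤ) : ℝ) - sl μ s * n))) := by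
    intro v
    have hW : 0 ≤ W μ s η ((r : ℤ), z) n (v - z) := W_nonneg _ _ _ _
    by_cases hv : v ∈ A
    · rw [tf_mem hv]
      refine le_of_mul_le_mul_right ?_ hb
      rw [kb62 (μ := μ) hs hg hN η z v]
      have e1 : Real.exp (g * (((v - z : ℤ) : ℝ) - sl μ s * n)) ≤
          Real.exp (τ * (((v - z : ℤ) : ℝ) - sl μ s * n)) * Real.exp (-((t - |g|) * (ρ₁ - ρ₀))) := by
        rw [← Real.exp_add]
        exact Real.exp_le_exp.2 (by linarith [hτ v hv])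
      have e2 : Kc = Real.exp (-((t - |g|) * (ρ₁ - ρ₀))) * Real.exp X := by
        rw [hKc, ← Real.exp_add]
        congr 1
        ring
      calc Real.exp (g * (((v - z : ℤ) : ℝ) - sl μ s * n)) * W μ s η ((r : ℤ), z) n (v - z) * bn μ s Γ (r + n) v η * bW Γ η r z
          ≤ (Real.exp (τ * (((v - z : ℤ) : ℝ) - sl μ s * n)) * Real.exp (-((t - |g|) * (ρ₁ - ρ₀)))) *
              W μ s η ((r : ℤ), z) n (v - z) * (Real.exp X * bn μ s Γ r z η) * bW Γ η r z := by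
            refine mul_le_mul_of_nonneg_right (mul_le_mul (mul_le_mul_of_nonneg_right e1 hW) (hX v hv) (bn_pos _ _ _).le ?_) hB.le
            exact mul_nonneg (by positivity) hW
        _ = _ := by
            rw [e2]
            ring
    · rw [tf_not hv, mul_zero]
      exact mul_nonneg (by positivity) (mul_nonneg hW (Real.exp_pos _).le)
  have hsum : ∑ v ∈ Icc z (z + (n : ℤ)), W μ s η ((r : ℤ), z) n (v - z) * Real.exp (τ * (((v - z : ℤ) : ℝ) - sl μ s * n)) =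
      Real.exp (T μ s (sl μ s) τ η ((r : ℤ), z) n) := by
    rw [exp_T]
    refine sum_bij' (fun v _ => v - z) (fun y _ => y + z) ?_ ?_ ?_ ?_ ?_
    · intro v hv
      rw [mem_Icc] at hv ⊢
      omega
    · intro y hy
      rw [mem_Icc] at hy ⊢
      omega
    · intro v _
      ring
    · intro y _
      ring
    · intro v _
      rfl
  have hQ : QA Γ η (r + n) A r z = ∑ v ∈ Icc z (z + (n : ℤ)), ker (wt η) Γ.p r n z v * tf Γ η (r + n) A v := by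
    unfold QA
    rw [Sp22.bf_ker, Nat.add_sub_cancel_left]
  rw [hQ]
  refine (sum_le_sum fun v _ => key v).trans ?_
  rw [← mul_sum, hsum]
  have h5 : Real.exp (T μ s (sl μ s) τ η ((r : ℤ), z) n) ≤ Real.exp V := Real.exp_le_exp.2 hτT
  have e3 : Real.exp (V + X - (t - |g|) * (ρ₁ - ρ₀)) = Kc * Real.exp V := by
    rw [hKc, ← Real.exp_add]
    congr 1
    ring
  rw [e3]
  have := mul_le_mul_of_nonneg_left h5 (show 0 ≤ Kc * bW Γ η r z by positivity)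
  linarith

/-- **THE FIELD `st`**, in the parts of the masses. `b₀` = the strip of `Fw`, column `|lat - ctr| ≤ b₀ w`; the starts off the column
`a₀ w` of `Fw` (rows `≤ a`), off the column `b₀ w` (rows of the block). -/
theorem st62 {a e : ℕ} {B : Set (ℕ × ℤ)} {d : ℝ} (P : O22.Pr Γ a e B d ω ω') {a₀ b₀ γ : ℝ} (hab : b₀ < a₀)
    (hFw : ω ∈ Fw Γ G a₀ b₀ γ u κ) (har : a ≤ G.ra u κ) (haN : a ≤ Γ.N) {rl : ℕ} (harl : a ≤ rl) (hrl : rl ≤ Γ.N) {Mo : Set ℤ} {σ : ℝ}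
    (hσ : 0 ≤ σ) (hv0 : 0 ≤ G.v) (hv1 : G.v ≤ 1)
    (hMo : ∀ v ∈ Mo, |G.lat (rl, v) - G.ctr u κ| ≤ b₀ * G.w u)
    (rim : ∀ k y, a < k → k ≤ rl → b₀ * G.w u - 1 < |G.lat (k, y) - G.ctr u κ| → |G.lat (k, y) - G.ctr u κ| ≤ b₀ * G.w u →
      QA Γ ω' rl Mo k y ≤ σ * bW Γ ω' k y) {k : ℕ} (hk : k ≤ rl) {y : ℤ} (hlo : G.lo u κ ≤ (k : ℤ))
    (hy : a₀ * G.w u ≤ |G.lat (k, y) - G.ctr u κ|) :
    QA Γ ω' rl Mo k y ≤ (Real.exp (2 * d) * (((er Γ G u κ - k : ℕ) : ℝ) * Real.exp (-γ)) + σ) * bW Γ ω' k y := by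
  have hw := G.w_pos u
  have hbw := mul_lt_mul_of_pos_right hab hw
  have hB := bW_pos Γ ω' k y
  have blk : ∀ k, k ≤ rl → a ≤ k → ∀ y, b₀ * G.w u < |G.lat (k, y) - G.ctr u κ| → QA Γ ω' rl Mo k y ≤ σ * bW Γ ω' k y := by
    refine ent62 (D := fun k y => b₀ * G.w u < |G.lat (k, y) - G.ctr u κ|) hrl hσ (fun y hD hM => ?_) fun k y y' h1 h2 h3 h4 h5 => ?_
    · exact absurd (hMo y hM) (not_le.2 hD)
    · refine rim (k + 1) y' (by omega) (by omega) ?_ (not_lt.1 h5)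
      have h6 : G.lat (k + 1, y') - G.ctr u κ = G.lat (k, y) - G.ctr u κ + (((y' : ℝ) - y) - G.v) := by
        unfold Gm.lat
        push_cast
        ring
      have h7 : |((y' : ℝ) - y) - G.v| ≤ 1 := by
        rw [abs_le]
        rcases h4 with rfl | rfl
        · constructor <;> linarith
        · push_cast
          constructor <;> linarith
      have h8 := abs_sub_abs_le_abs_sub (G.lat (k, y) - G.ctr u κ) (-(((y' : ℝ) - y) - G.v))
      rw [abs_neg, sub_neg_eq_add, ← h6] at h8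
      linarith
  rcases Nat.lt_or_ge a k with h1 | h1
  · have h2 := blk k hk h1.le y (by linarith)
    have h3 : 0 ≤ Real.exp (2 * d) * (((er Γ G u κ - k : ℕ) : ℝ) * Real.exp (-γ)) * bW Γ ω' k y := by positivity
    linarith
  · have hae : a ≤ er Γ G u κ := le_min har haN
    have h2 := QA_stay (ω := ω') harl hrl (A := Mo) (Z := {x | b₀ * G.w u < |G.lat (a, x) - G.ctr u κ|}) hσ
      (fun q hq => blk a harl le_rfl q hq) k h1 y
    have h3 : QA Γ ω' a {x | b₀ * G.w u < |G.lat (a, x) - G.ctr u κ|}ᶜ k y ≤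
        Real.exp d * QA Γ ω a {x | b₀ * G.w u < |G.lat (a, x) - G.ctr u κ|}ᶜ k y :=
      QA_cmp (ω := ω') (ω' := ω) (fun i hi => (P.lt i hi).symm) (fun y _ => P.up y) k h1 y
    have h4 : QA Γ ω a {x | b₀ * G.w u < |G.lat (a, x) - G.ctr u κ|}ᶜ k y ≤ VS Γ ω (er Γ G u κ) (sp G u κ b₀) k y :=
      QA_VS hae (er_le Γ G u κ) (fun x hx => by
        show |G.lat (a, x) - G.ctr u κ| ≤ b₀ * G.w u
        exact not_lt.1 hx) k h1 y
    have h5 := Fw_VS hab hFw (k := k) (y := y) ⟨hlo, hy⟩ (h1.trans hae)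
    have h6 : bW Γ ω k y ≤ Real.exp d * bW Γ ω' k y := bW_cmp haN P.lt P.dn k h1 y
    have h7 : ((er Γ G u κ - k : ℕ) : ℝ) * Real.exp (-γ) * bW Γ ω k y ≤
        ((er Γ G u κ - k : ℕ) : ℝ) * Real.exp (-γ) * (Real.exp d * bW Γ ω' k y) :=
      mul_le_mul_of_nonneg_left h6 (by positivity)
    have h8 := mul_le_mul_of_nonneg_left (h4.trans (h5.trans h7)) (Real.exp_pos d).le
    have e2 : Real.exp (2 * d) = Real.exp d * Real.exp d := by
      rw [← Real.exp_add]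
      congr 1
      ring
    calc QA Γ ω' rl Mo k y ≤ Real.exp d * (((er Γ G u κ - k : ℕ) : ℝ) * Real.exp (-γ) * (Real.exp d * bW Γ ω' k y)) + σ * bW Γ ω' k y := by
          linarith
      _ = _ := by
          rw [e2]
          ring

end

end Pool.Agent.W_7d29a1_C1.Sz62
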