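import Mathlib

/-!
Both halves (MP_7d29a1_pr), attractor route: MOVE THE CONTACT (helper25, 73236), the measure theory and the counting
(M4), abstract form. (helper49)

`R η ω` = the environment `ω` with one slab taken from `η`; `T` = the slab is typical, `L` = lucky, neither = abnormal.
`Slab.step` / `hazard` / `inv_window` (window form: helper87): an alternative of moderate cost has a conditional price.
`Slab.move`: the contact is moved to an early alternative `ρ` whose slab is made lucky.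
`renewal`: the sum over all skeletons, as a renewal inequality.
`skeleton`: the assembly.
-/

set_option autoImplicit false

namespace Pool.Agent.W_7d29a1_C1.H49

open MeasureTheory Finset
open scoped ENNReal

variable {Ω : Type*} [MeasurableSpace Ω] {P : Measure Ω}

/-- One slab. -/
structure Slab (P : Measure Ω) (R : Ω → Ω → Ω) (T L : Set Ω) : Prop where
  mp : MeasurePreserving (fun z : Ω × Ω => R z.1 z.2) (P.prod P) P
  mT : MeasurableSet T
  mL : MeasurableSet L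
  disj : Disjoint T L

open Classical in
/-- A slab which is not typical (abnormal or lucky) counts `(1 + c)⁻¹`. -/
noncomputable def fac (T : Set Ω) (c : ℝ≥0∞) (ω : Ω) : ℝ≥0∞ := if ω ∈ T then 1 else (1 + c)⁻¹

omit [MeasurableSpace Ω] in
theorem fac_congr {T : Set Ω} (c : ℝ≥0∞) {ω ω' : Ω} (h1 : ω ∈ T ↔ ω' ∈ T) : fac T c ω = fac T c ω' := by
  classical
  unfold fac
  by_cases h3 : ω ∈ T
  · rw [if_pos h3, if_pos (h1.1 h3)]
  · rw [if_neg h3, if_neg fun h => h3 (h1.2 h)]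

theorem measurable_fac {T : Set Ω} (hT : MeasurableSet T) (c : ℝ≥0∞) : Measurable (fac T c) := by
  classical
  unfold fac
  exact Measurable.ite hT measurable_const measurable_const

/-- Transport of an inequality between an old typical and a new lucky content. -/
theorem Slab.transport [SFinite P] {R : Ω → Ω → Ω} {T L : Set Ω} (h : Slab P R T L) {g : Ω → ℝ≥0∞}
    (mg : Measurable g) :
    ∫⁻ ω, ∫⁻ η, L.indicator g (R η ω) ∂P ∂P = ∫⁻ ω in L, g ω ∂P := by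
  rw [← lintegral_indicator h.mL, ← h.mp.lintegral_comp (mg.indicator h.mL)]
  exact (lintegral_prod_symm' (fun z : Ω × Ω => L.indicator g (R z.1 z.2))
    ((mg.indicator h.mL).comp h.mp.measurable)).symm

/-- HAZARD of one slab, window form (helper87): never both the old typical and the new lucky content count in `f`. -/
theorem Slab.step [SFinite P] {R : Ω → Ω → Ω} {T L : Set Ω} (h : Slab P R T L) {c : ℝ≥0∞} (hc : c ≠ ⊤)
    {w f g : Ω → ℝ≥0∞} (mw : Measurable w) (mf : Measurable f) (mg : Measurable g)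
    (cmp : ∀ ω ∈ T, c * w ω ≤ ∫⁻ η, L.indicator w (R η ω) ∂P)
    (hfg : ∀ ω, f ω ≤ g ω) (hfg' : ∀ ω ∈ T, ∀ η, R η ω ∈ L → f ω + f (R η ω) ≤ g (R η ω)) :
    (1 + c) * ∫⁻ ω, w ω * (f ω * fac T c ω) ∂P ≤ ∫⁻ ω, w ω * g ω ∂P := by
  classical
  have hone : (1 + c) * (1 + c)⁻¹ = 1 :=
    ENNReal.mul_inv_cancel (by positivity) (by finiteness)
  have mwf : Measurable fun ω => w ω * f ω := mw.mul mf
  have mwg : Measurable fun ω => w ω * g ω := mw.mul mg
  have e0 : ∀ φ : Ω → ℝ≥0∞, ∫⁻ ω, φ ω ∂P =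
      (∫⁻ ω in T, φ ω ∂P) + ((∫⁻ ω in L, φ ω ∂P) + ∫⁻ ω in Tᶜ \ L, φ ω ∂P) := by
    intro φ
    rw [← lintegral_add_compl φ h.mT, ← lintegral_inter_add_sdiff φ Tᶜ h.mL]
    congr 3
    refine congrArg _ ?_
    ext ω
    exact ⟨fun h1 => h1.2, fun h1 => ⟨fun h2 => (Set.disjoint_left.1 h.disj) h2 h1, h1⟩⟩
  have e1 : ∫⁻ ω in T, w ω * (f ω * fac T c ω) ∂P = ∫⁻ ω in T, w ω * f ω ∂P :=
    setLIntegral_congr_fun h.mT fun ω hω => by simp [fac, hω]
  have e3 : ∀ S : Set Ω, MeasurableSet S → S ⊆ Tᶜ →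
      (1 + c) * ∫⁻ ω in S, w ω * (f ω * fac T c ω) ∂P = ∫⁻ ω in S, w ω * f ω ∂P := by
    intro S mS hS
    have m1 : Measurable fun ω => w ω * (f ω * fac T c ω) := mw.mul (mf.mul (measurable_fac h.mT c))
    rw [← lintegral_const_mul _ m1]
    refine setLIntegral_congr_fun mS fun ω hω => ?_
    have h3 : ω ∉ T := hS hω
    have h5 : fac T c ω = (1 + c)⁻¹ := by simp [fac, h3]
    calc (1 + c) * (w ω * (f ω * fac T c ω)) = ((1 + c) * (1 + c)⁻¹) * (w ω * f ω) := by rw [h5]; ring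
      _ = _ := by rw [hone, one_mul]
  have hLT : L ⊆ Tᶜ := fun ω h1 h2 => (Set.disjoint_left.1 h.disj) h2 h1
  have e4 : c * (∫⁻ ω in T, w ω * f ω ∂P) + ∫⁻ ω in L, w ω * f ω ∂P ≤ ∫⁻ ω in L, w ω * g ω ∂P := by
    rw [← h.transport mwg, ← h.transport mwf, ← lintegral_const_mul _ mwf, ← lintegral_indicator h.mT,
      ← lintegral_add_left ((mwf.const_mul c).indicator h.mT)]
    refine lintegral_mono fun ω => ?_
    have hmR : Measurable fun η => R η ω := h.mp.measurable.comp (measurable_id.prodMk measurable_const)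
    have hm2 : Measurable fun η => L.indicator w (R η ω) := (mw.indicator h.mL).comp hmR
    by_cases hω : ω ∈ T
    · rw [Set.indicator_of_mem hω]
      calc c * (w ω * f ω) + ∫⁻ η, L.indicator (fun ω => w ω * f ω) (R η ω) ∂P
          = f ω * (c * w ω) + ∫⁻ η, L.indicator (fun ω => w ω * f ω) (R η ω) ∂P := by ring_nf
        _ ≤ f ω * (∫⁻ η, L.indicator w (R η ω) ∂P) + ∫⁻ η, L.indicator (fun ω => w ω * f ω) (R η ω) ∂P := by
            gcongr; exact cmp ω hω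
        _ = ∫⁻ η, (f ω * L.indicator w (R η ω) + L.indicator (fun ω => w ω * f ω) (R η ω)) ∂P := by
            rw [← lintegral_const_mul _ hm2, ← lintegral_add_left (hm2.const_mul _)]
        _ ≤ _ := by
          refine lintegral_mono fun η => ?_
          by_cases hη : R η ω ∈ L
          · rw [Set.indicator_of_mem hη, Set.indicator_of_mem hη, Set.indicator_of_mem hη]
            calc f ω * w (R η ω) + w (R η ω) * f (R η ω) = w (R η ω) * (f ω + f (R η ω)) := by ring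
              _ ≤ _ := by gcongr; exact hfg' ω hω η hη
          · rw [Set.indicator_of_notMem hη, Set.indicator_of_notMem hη, mul_zero, zero_add]
            exact zero_le
    · rw [Set.indicator_of_notMem hω, zero_add]
      refine lintegral_mono fun η => ?_
      by_cases hη : R η ω ∈ L
      · rw [Set.indicator_of_mem hη, Set.indicator_of_mem hη]
        gcongr
        exact hfg _
      · rw [Set.indicator_of_notMem hη]
        exact zero_le
  rw [e0 fun ω => w ω * (f ω * fac T c ω), e0 fun ω => w ω * g ω, mul_add, mul_add, e1, e3 L h.mL hLT,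
    e3 (Tᶜ \ L) (h.mT.compl.diff h.mL) Set.sdiff_subset, add_mul, one_mul]
  calc (∫⁻ ω in T, w ω * f ω ∂P) + c * (∫⁻ ω in T, w ω * f ω ∂P) +
        ((∫⁻ ω in L, w ω * f ω ∂P) + ∫⁻ ω in Tᶜ \ L, w ω * f ω ∂P)
      = (∫⁻ ω in T, w ω * f ω ∂P) + ((c * (∫⁻ ω in T, w ω * f ω ∂P) + ∫⁻ ω in L, w ω * f ω ∂P) +
          ∫⁻ ω in Tᶜ \ L, w ω * f ω ∂P) := by ring
    _ ≤ (∫⁻ ω in T, w ω * g ω ∂P) + ((∫⁻ ω in L, w ω * g ω ∂P) + ∫⁻ ω in Tᶜ \ L, w ω * g ω ∂P) := by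
        refine add_le_add ?_ (add_le_add e4 ?_) <;>
        · refine lintegral_mono fun ω => ?_
          gcongr
          exact hfg _

/-- MOVE: the slab (typical or lucky) is replaced by a lucky one. -/
theorem Slab.move [SFinite P] {R : Ω → Ω → Ω} {T L : Set Ω} (h : Slab P R T L) {p : ℝ≥0∞} {f g : Ω → ℝ≥0∞}
    (mf : Measurable f) (mg : Measurable g) (hp : ∀ ω ∈ T ∪ L, p ≤ P {η | R η ω ∈ L})
    (hfg : ∀ ω ∈ T ∪ L, ∀ η, R η ω ∈ L → f ω ≤ g (R η ω)) :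
    p * ∫⁻ ω in T ∪ L, f ω ∂P ≤ ∫⁻ ω in L, g ω ∂P := by
  classical
  rw [← h.transport mg, ← lintegral_const_mul _ mf, ← lintegral_indicator (h.mT.union h.mL)]
  refine lintegral_mono fun ω => ?_
  by_cases hω : ω ∈ T ∪ L
  · rw [Set.indicator_of_mem hω]
    have hm1 : Measurable fun η => R η ω := h.mp.measurable.comp (measurable_id.prodMk measurable_const)
    have hm2 : MeasurableSet {η | R η ω ∈ L} := hm1 h.mL
    calc p * f ω ≤ P {η | R η ω ∈ L} * f ω := by gcongr; exact hp ω hω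
      _ = ∫⁻ η in {η | R η ω ∈ L}, f ω ∂P := by rw [setLIntegral_const, mul_comm]
      _ ≤ ∫⁻ η in {η | R η ω ∈ L}, L.indicator g (R η ω) ∂P := by
        refine setLIntegral_mono' hm2 fun η hη => ?_
        rw [Set.indicator_of_mem (show R η ω ∈ L from hη)]
        exact hfg ω hω η hη
      _ ≤ _ := setLIntegral_le_lintegral _ _
  · rw [Set.indicator_of_notMem hω]
    exact zero_le

omit [MeasurableSpace Ω] in
/-- Window form of the increment: `D` = log (weight of the contact) - log (mass of the late alternatives) is in the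
window `[lo, hi]` for a typical content; then a lucky content brings it above `hi`, inside `[lo, hi']`. -/
theorem inv_window {R : Ω → Ω → Ω} {T L : Set Ω} {D : Ω → ℝ} {lo hi hi' : ℝ} {h0 h1 : Ω → ℝ≥0∞}
    (hh : hi ≤ hi') (mono : ∀ ω, h0 ω ≤ h1 ω) (inv : ∀ ω ∈ T, ∀ η, R η ω ∈ L → h0 ω ≤ h1 (R η ω))
    (win : ∀ ω ∈ T, ∀ η, R η ω ∈ L → lo ≤ D ω → D ω ≤ hi → hi < D (R η ω) ∧ lo ≤ D (R η ω) ∧ D (R η ω) ≤ hi') :
    ∀ ω ∈ T, ∀ η, R η ω ∈ L → {ω | lo ≤ D ω ∧ D ω ≤ hi}.indicator h0 ω +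
      {ω | lo ≤ D ω ∧ D ω ≤ hi}.indicator h0 (R η ω) ≤ {ω | lo ≤ D ω ∧ D ω ≤ hi'}.indicator h1 (R η ω) := by
  classical
  intro ω hω η hη
  by_cases h2 : ω ∈ {ω | lo ≤ D ω ∧ D ω ≤ hi}
  · obtain ⟨h3, h4, h5⟩ := win ω hω η hη h2.1 h2.2
    have h6 : R η ω ∉ {ω | lo ≤ D ω ∧ D ω ≤ hi} := fun h7 => absurd h7.2 (not_le.2 h3)
    have h8 : R η ω ∈ {ω | lo ≤ D ω ∧ D ω ≤ hi'} := ⟨h4, h5⟩
    rw [Set.indicator_of_mem h2, Set.indicator_of_notMem h6, Set.indicator_of_mem h8, add_zero]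
    exact inv ω hω η hη
  · rw [Set.indicator_of_notMem h2, zero_add]
    by_cases h6 : R η ω ∈ {ω | lo ≤ D ω ∧ D ω ≤ hi}
    · have h8 : R η ω ∈ {ω | lo ≤ D ω ∧ D ω ≤ hi'} := ⟨h6.1, h6.2.trans hh⟩
      rw [Set.indicator_of_mem h6, Set.indicator_of_mem h8]
      exact mono _
    · rw [Set.indicator_of_notMem h6]
      exact zero_le

/-- HAZARD CHAIN, from inside to outside: the slabs `s < u < s + 1 + n` of one site. `h u` = the outer event with the slack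
of the slabs `< u`, times the window. -/
theorem hazard [SFinite P] {R : ℕ → Ω → Ω → Ω} {T L : ℕ → Set Ω} {c : ℝ≥0∞} (hc : c ≠ ⊤) {w : Ω → ℝ≥0∞}
    (mw : Measurable w) (n s : ℕ) (hS : ∀ u ∈ Ioo s (s + 1 + n), Slab P (R u) (T u) (L u))
    (cmp : ∀ u ∈ Ioo s (s + 1 + n), ∀ ω ∈ T u, c * w ω ≤ ∫⁻ η, (L u).indicator w (R u η ω) ∂P)
    (offT : ∀ u v, u < v → ∀ ω ∈ T u, ∀ η, R u η ω ∈ L u → (R u η ω ∈ T v ↔ ω ∈ T v))
    {h : ℕ → Ω → ℝ≥0∞} (mh : ∀ u, Measurable (h u))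
    (mono : ∀ u ∈ Ioo s (s + 1 + n), ∀ ω, h u ω ≤ h (u + 1) ω)
    (inv : ∀ u ∈ Ioo s (s + 1 + n), ∀ ω ∈ T u, ∀ η, R u η ω ∈ L u → h u ω + h u (R u η ω) ≤ h (u + 1) (R u η ω)) :
    (1 + c) ^ n * ∫⁻ ω, w ω * (h (s + 1) ω * ∏ u ∈ Ioo s (s + 1 + n), fac (T u) c ω) ∂P ≤
      ∫⁻ ω, w ω * h (s + 1 + n) ω ∂P := by
  classical
  induction n generalizing s with
  | zero =>
    have h0 : Ioo s (s + 1) = ∅ := eq_empty_of_forall_notMem fun v hv => by rw [mem_Ioo] at hv; omega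
    simp [h0]
  | succ n ih =>
    have hsub : ∀ u ∈ Ioo (s + 1) (s + 1 + 1 + n), u ∈ Ioo s (s + 1 + (n + 1)) := fun u hu => by
      rw [mem_Ioo] at hu ⊢; omega
    have h1 := ih (s + 1) (fun u hu => hS u (hsub u hu)) (fun u hu => cmp u (hsub u hu))
      (fun u hu => mono u (hsub u hu)) (fun u hu => inv u (hsub u hu))
    have hu' : s + 1 ∈ Ioo s (s + 1 + (n + 1)) := by rw [mem_Ioo]; omega
    have hIoo : Ioo s (s + 1 + (n + 1)) = insert (s + 1) (Ioo (s + 1) (s + 1 + 1 + n)) := by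
      ext v; simp only [mem_insert, mem_Ioo]; omega
    have mprod : Measurable fun ω => ∏ v ∈ Ioo (s + 1) (s + 1 + 1 + n), fac (T v) c ω :=
      Finset.measurable_prod _ fun v hv => measurable_fac (hS v (hsub v hv)).mT c
    have h2 := (hS (s + 1) hu').step hc (f := fun ω => h (s + 1) ω * ∏ v ∈ Ioo (s + 1) (s + 1 + 1 + n), fac (T v) c ω)
      (g := fun ω => h (s + 1 + 1) ω * ∏ v ∈ Ioo (s + 1) (s + 1 + 1 + n), fac (T v) c ω) mw ((mh _).mul mprod)
      ((mh _).mul mprod) (cmp _ hu')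
      (fun ω => by gcongr; exact mono _ hu' ω) (fun ω hω η hη => by
        have h3 : ∏ v ∈ Ioo (s + 1) (s + 1 + 1 + n), fac (T v) c ω =
            ∏ v ∈ Ioo (s + 1) (s + 1 + 1 + n), fac (T v) c (R (s + 1) η ω) := by
          refine prod_congr rfl fun v hv => ?_
          exact fac_congr c (offT (s + 1) v (mem_Ioo.1 hv).1 ω hω η hη).symm
        rw [h3, ← add_mul]
        gcongr
        exact inv _ hu' ω hω η hη)
    calc (1 + c) ^ (n + 1) * ∫⁻ ω, w ω * (h (s + 1) ω * ∏ u ∈ Ioo s (s + 1 + (n + 1)), fac (T u) c ω) ∂P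
        = (1 + c) ^ n * ((1 + c) * ∫⁻ ω, w ω * ((h (s + 1) ω *
            ∏ v ∈ Ioo (s + 1) (s + 1 + 1 + n), fac (T v) c ω) * fac (T (s + 1)) c ω) ∂P) := by
          rw [pow_succ, mul_assoc]
          congr 3
          funext ω
          rw [hIoo, prod_insert (by simp)]
          ring
      _ ≤ (1 + c) ^ n * ∫⁻ ω, w ω * (h (s + 1 + 1) ω *
            ∏ v ∈ Ioo (s + 1) (s + 1 + 1 + n), fac (T v) c ω) ∂P := by gcongr
      _ ≤ _ := h1
      _ = _ := by rw [show s + 1 + 1 + n = s + 1 + (n + 1) by ring]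

/-- RENEWAL INEQUALITY: the sum over all skeletons of stretches `(t, i)`, `i ≥ t + m0`. -/
theorem renewal {M m0 m2 τ0 : ℕ} {A δ : ℝ≥0∞} {V : ℕ → ℕ → ℝ≥0∞} {b : ℕ → ℕ → ℝ≥0∞}
    (hb : ∀ t, ∑ i ∈ Icc (t + m0) M, b t i ≤ δ)
    (hV : ∀ j τ, τ0 ≤ τ → V j τ ≤ A + ∑ t ∈ Ioc τ M, ∑ i ∈ Icc (t + m0) M, b t i * V (j + 1) (i + m2)) (j τ : ℕ)
    (hτ0 : τ0 ≤ τ) : V j τ ≤ A * (1 + δ) ^ (M - τ) := by
  classical
  induction h : M - τ using Nat.strong_induction_on generalizing j τ with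
  | _ n ih =>
    have h1 : ∀ t ∈ Ioc τ M, ∑ i ∈ Icc (t + m0) M, b t i * V (j + 1) (i + m2) ≤ A * (δ * (1 + δ) ^ (M - t)) := by
      intro t ht
      rw [mem_Ioc] at ht
      calc ∑ i ∈ Icc (t + m0) M, b t i * V (j + 1) (i + m2)
          ≤ ∑ i ∈ Icc (t + m0) M, b t i * (A * (1 + δ) ^ (M - t)) := by
            refine sum_le_sum fun i hi => ?_
            rw [mem_Icc] at hi
            refine mul_le_mul' le_rfl ?_
            have h2 := ih (M - (i + m2)) (by omega) (j + 1) (i + m2) (by omega) rfl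
            refine h2.trans (mul_le_mul' le_rfl ?_)
            exact pow_le_pow_right₀ le_self_add (by omega)
        _ = (∑ i ∈ Icc (t + m0) M, b t i) * (A * (1 + δ) ^ (M - t)) := by rw [sum_mul]
        _ ≤ δ * (A * (1 + δ) ^ (M - t)) := mul_le_mul' (hb t) le_rfl
        _ = _ := by ring
    refine (hV j τ hτ0).trans ?_
    calc A + ∑ t ∈ Ioc τ M, ∑ i ∈ Icc (t + m0) M, b t i * V (j + 1) (i + m2)
        ≤ A + ∑ t ∈ Ioc τ M, A * (δ * (1 + δ) ^ (M - t)) := by gcongr with t ht; exact h1 t ht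
      _ = A * (1 + ∑ t ∈ Ioc τ M, δ * (1 + δ) ^ (M - t)) := by rw [mul_add, mul_one, mul_sum]
      _ ≤ A * (1 + δ) ^ n := by
          refine mul_le_mul' le_rfl ?_
          have key : ∀ k τ, τ + k = M → 1 + ∑ t ∈ Ioc τ M, δ * (1 + δ) ^ (M - t) = (1 + δ) ^ k := by
            intro k
            induction k with
            | zero => intro τ hτ; have : τ = M := by omega
                      subst this; simp
            | succ k ihk =>
              intro τ hτ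
              have h3 : Ioc τ M = insert (τ + 1) (Ioc (τ + 1) M) := by
                ext t; simp only [mem_insert, mem_Ioc]; omega
              rw [h3, sum_insert (by simp), ← add_assoc, add_comm (1 : ℝ≥0∞), add_assoc, ihk (τ + 1) (by omega)]
              have h4 : M - (τ + 1) = k := by omega
              rw [h4]
              ring
          by_cases hτ : τ ≤ M
          · rw [key n τ (by omega)]
          · have : Ioc τ M = ∅ := Ioc_eq_empty (by omega)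
            rw [this]
            simp only [sum_empty, add_zero]
            exact one_le_pow₀ le_self_add

/-- THE DATA. Sites `x : X` (contacts), scales `u`, cells `κ : K u` (`cel u x` = the cell of `x`); `R u κ` = the slab of
the scale `u` behind the cell `κ` taken afresh; `w x` = the probability that the first meeting is `x`; `g τ x` = (weight of
the covered scales `> τ`); `la t k i x` / `ea t k i x ρ` = the part of `g` which comes from a late / early alternative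
(at `ρ`) of the first covered scale `t`, row distance scale `k`, box distance scale `i`; `er` = no scale covered, or
something negligible; `nb s κ` = the sites which become the contact after a lucky slab behind `κ`; `h t k i y u` = the
outer event (scales `> i + m2`) with the slack of the slabs `< u`, times the window of log (weight of `y`) - log (mass of
the late alternatives at the row distance scale `k`), see `inv_window`; `E l` = the weight of a stretch of length `l`.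
Only the scales `t > τ0` are looked at. -/
structure SkelData {X : Type*} [Fintype X] {K : ℕ → Type*} [∀ u, Fintype (K u)] (P : Measure Ω) (τ0 M m0 m1 m2 : ℕ)
    (cel : ∀ u, X → K u) (R : ∀ u, K u → Ω → Ω → Ω) (T L : ∀ u, K u → Set Ω) (w : X → Ω → ℝ≥0∞)
    (nb : ∀ s, K s → Finset X) (A₀ c p C : ℝ≥0∞) (C' : ℕ) (E : ℕ → ℝ≥0∞) (g er : ℕ → X → Ω → ℝ≥0∞)
    (la : ℕ → ℕ → ℕ → X → Ω → ℝ≥0∞) (ea : ℕ → ℕ → ℕ → X → X → Ω → ℝ≥0∞)
    (h : ℕ → ℕ → ℕ → X → ℕ → Ω → ℝ≥0∞) : Prop where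
  slab : ∀ u κ, Slab P (R u κ) (T u κ) (L u κ)
  mw : ∀ x, Measurable (w x)
  mg : ∀ τ x, Measurable (g τ x)
  mer : ∀ τ x, Measurable (er τ x)
  mla : ∀ t k i x, Measurable (la t k i x)
  mea : ∀ t k i x ρ, Measurable (ea t k i x ρ)
  mh : ∀ t k i x u, Measurable (h t k i x u)
  mult : ∀ s x, ∀ S : Finset (K s), (∀ κ ∈ S, x ∈ nb s κ) → S.card ≤ C'
  er_le : ∀ τ, τ0 ≤ τ → ∑ x, ∫⁻ ω, w x ω * er τ x ω ∂P ≤ A₀
  cmp : ∀ x u, ∀ ω ∈ T u (cel u x), c * w x ω ≤ ∫⁻ η, (L u (cel u x)).indicator (w x) (R u (cel u x) η ω) ∂P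
  offT : ∀ x u v, u < v → ∀ ω ∈ T u (cel u x), ∀ η, R u (cel u x) η ω ∈ L u (cel u x) →
    (R u (cel u x) η ω ∈ T v (cel v x) ↔ ω ∈ T v (cel v x))
  prob : ∀ u κ, ∀ ω ∈ T u κ ∪ L u κ, p ≤ P {η | R u κ η ω ∈ L u κ}
  dec : ∀ τ x ω, τ0 ≤ τ → g τ x ω ≤ er τ x ω + ∑ t ∈ Ioc τ M, ∑ i ∈ Icc (t + m0) M, ∑ k ∈ Icc t i,
    (la t k i x ω + ∑ ρ, ea t k i x ρ ω)
  late : ∀ t k i x ω, τ0 < t → t + m0 ≤ i → i ≤ M → k ∈ Icc t i → la t k i x ω ≤
    E (i - t) * (1 + c)⁻¹ ^ (i - k) * (h t k i x (t + m1 + 1) ω * ∏ u ∈ Ioo (t + m1) k, fac (T u (cel u x)) c ω)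
  mono : ∀ t k i x, τ0 < t → t + m0 ≤ i → i ≤ M → k ∈ Icc t i → ∀ u ∈ Ioo t k, ∀ ω,
    h t k i x u ω ≤ h t k i x (u + 1) ω
  inv : ∀ t k i x, τ0 < t → t + m0 ≤ i → i ≤ M → k ∈ Icc t i → ∀ u ∈ Ioo t k, ∀ ω ∈ T u (cel u x), ∀ η,
    R u (cel u x) η ω ∈ L u (cel u x) →
    h t k i x u ω + h t k i x u (R u (cel u x) η ω) ≤ h t k i x (u + 1) (R u (cel u x) η ω)
  out : ∀ t k i x, τ0 < t → t + m0 ≤ i → i ≤ M → k ∈ Icc t i → ∀ u ω, h t k i x u ω ≤ g (i + m2) x ω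
  early : ∀ t k i, τ0 < t → t + m0 ≤ i → i ≤ M → k ∈ Icc t i → ∀ s ∈ Ico t k, ∀ κ : K s, ∀ ω ∈ T s κ ∪ L s κ,
    ∀ η, R s κ η ω ∈ L s κ →
    ∑ ρ, {ω | cel s ρ = κ ∧ ∀ u ∈ Ico t s, ω ∉ T u (cel u ρ) ∪ L u (cel u ρ)}.indicator
      (fun ω => ∑ x, w x ω * ea t k i x ρ ω) ω ≤
    C * E (i - t) * (1 + c)⁻¹ ^ (s - t) * (1 + c)⁻¹ ^ (i - k) * ∑ ρ ∈ nb s κ, w ρ (R s κ η ω) *
      (h t k i ρ (s + m1 + 1) (R s κ η ω) * ∏ u ∈ Ioo (s + m1) k, fac (T u (cel u ρ)) c (R s κ η ω))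
  none : ∀ t k i x ω, τ0 < t → t + m0 ≤ i → i ≤ M → k ∈ Icc t i →
    ∑ ρ, {ω | ∀ u ∈ Ico t k, ω ∉ T u (cel u ρ) ∪ L u (cel u ρ)}.indicator (ea t k i x ρ) ω ≤
    E (i - t) * (1 + c)⁻¹ ^ (i - t) * g (i + m2) x ω

namespace SkelData

variable {X : Type*} [Fintype X] {K : ℕ → Type*} [∀ u, Fintype (K u)] {τ0 M m0 m1 m2 : ℕ} {cel : ∀ u, X → K u}
    {R : ∀ u, K u → Ω → Ω → Ω} {T L : ∀ u, K u → Set Ω} {w : X → Ω → ℝ≥0∞} {nb : ∀ s, K s → Finset X}
    {A₀ c p C : ℝ≥0∞} {C' : ℕ} {E : ℕ → ℝ≥0∞} {g er : ℕ → X → Ω → ℝ≥0∞}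
    {la : ℕ → ℕ → ℕ → X → Ω → ℝ≥0∞} {ea : ℕ → ℕ → ℕ → X → X → Ω → ℝ≥0∞} {h : ℕ → ℕ → ℕ → X → ℕ → Ω → ℝ≥0∞}

/-- The hazard chain at the site `x`, scales `s < u < k`. -/
theorem haz [SFinite P] (d : SkelData P τ0 M m0 m1 m2 cel R T L w nb A₀ c p C C' E g er la ea h) (hc : c ≠ ⊤)
    {t k i : ℕ} (h1t : τ0 < t) (h2t : t + m0 ≤ i) (h3t : i ≤ M) (hk : k ∈ Icc t i) (x : X) {s : ℕ} (hs : t ≤ s) :
    ∫⁻ ω, w x ω * (h t k i x (s + 1) ω * ∏ u ∈ Ioo s k, fac (T u (cel u x)) c ω) ∂P ≤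
      (1 + c)⁻¹ ^ (k - s - 1) * ∫⁻ ω, w x ω * g (i + m2) x ω ∂P := by
  classical
  have hone : (1 + c)⁻¹ * (1 + c) = 1 :=
    ENNReal.inv_mul_cancel (by positivity) (by finiteness)
  have hI : Ioo s k = Ioo s (s + 1 + (k - s - 1)) := by
    ext v; simp only [mem_Ioo]; omega
  have hsub : ∀ u ∈ Ioo s (s + 1 + (k - s - 1)), u ∈ Ioo t k := fun u hu => by
    rw [mem_Ioo] at hu ⊢; omega
  have h1 := hazard (P := P) (R := fun u => R u (cel u x)) (T := fun u => T u (cel u x))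
    (L := fun u => L u (cel u x)) hc (d.mw x) (k - s - 1) s (fun u _ => d.slab u (cel u x)) (fun u _ => d.cmp x u)
    (d.offT x) (h := h t k i x) (d.mh t k i x)
    (fun u hu => d.mono t k i x h1t h2t h3t hk u (hsub u hu))
    (fun u hu => d.inv t k i x h1t h2t h3t hk u (hsub u hu))
  rw [← hI] at h1
  calc ∫⁻ ω, w x ω * (h t k i x (s + 1) ω * ∏ u ∈ Ioo s k, fac (T u (cel u x)) c ω) ∂P
      = (1 + c)⁻¹ ^ (k - s - 1) * ((1 + c) ^ (k - s - 1) *
          ∫⁻ ω, w x ω * (h t k i x (s + 1) ω * ∏ u ∈ Ioo s k, fac (T u (cel u x)) c ω) ∂P) := by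
        rw [← mul_assoc, ← mul_pow, hone, one_pow, one_mul]
    _ ≤ (1 + c)⁻¹ ^ (k - s - 1) * ∫⁻ ω, w x ω * h t k i x (s + 1 + (k - s - 1)) ω ∂P := by gcongr
    _ ≤ _ := by
        gcongr with ω
        exact d.out t k i x h1t h2t h3t hk _ ω

/-- The price of a stretch. -/
noncomputable def price (m1 : ℕ) (c p C : ℝ≥0∞) (C' : ℕ) (E : ℕ → ℝ≥0∞) (l : ℕ) : ℝ≥0∞ :=
  (l + 1) * E l * ((1 + c)⁻¹ ^ (l - m1 - 1) + p⁻¹ * C * C' * l * (1 + c)⁻¹ ^ (l - m1 - 1) + (1 + c)⁻¹ ^ l)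

/-- The total weight, scales `> τ`. -/
noncomputable def V (P : Measure Ω) (w : X → Ω → ℝ≥0∞) (g : ℕ → X → Ω → ℝ≥0∞) (τ : ℕ) : ℝ≥0∞ :=
  ∑ x, ∫⁻ ω, w x ω * g τ x ω ∂P

/-- Moving the contact. -/
theorem moved [SFinite P] (d : SkelData P τ0 M m0 m1 m2 cel R T L w nb A₀ c p C C' E g er la ea h) (hc : c ≠ ⊤)
    (hp : p ≠ 0) (hp' : p ≠ ⊤) {t k i : ℕ} (h1t : τ0 < t) (h2t : t + m0 ≤ i) (h3t : i ≤ M) (hk : k ∈ Icc t i) :
    ∑ ρ, ∫⁻ ω, ∑ x, w x ω * ea t k i x ρ ω ∂P ≤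
      E (i - t) * (p⁻¹ * C * C' * (i - t : ℕ) * (1 + c)⁻¹ ^ (i - t - m1 - 1) + (1 + c)⁻¹ ^ (i - t)) *
        V P w g (i + m2) := by
  classical
  have hk' := mem_Icc.1 hk
  set F : X → Ω → ℝ≥0∞ := fun ρ ω => ∑ x, w x ω * ea t k i x ρ ω with hFdef
  have mF : ∀ ρ, Measurable (F ρ) := fun ρ =>
    Finset.measurable_sum _ fun x _ => (d.mw x).mul (d.mea t k i x ρ)
  set G : X → ℕ → Set Ω := fun ρ s => {ω | ∀ u ∈ Ico t s, ω ∉ T u (cel u ρ) ∪ L u (cel u ρ)} with hG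
  have mTL : ∀ u (κ : K u), MeasurableSet (T u κ ∪ L u κ) := fun u κ => (d.slab u κ).mT.union (d.slab u κ).mL
  have mG : ∀ ρ s, MeasurableSet (G ρ s) := fun ρ s => by
    have e : G ρ s = ⋂ u ∈ Ico t s, (T u (cel u ρ) ∪ L u (cel u ρ))ᶜ := by
      ext ω; simp only [Set.mem_iInter, Set.mem_compl_iff]; rfl
    rw [e]
    exact Finset.measurableSet_biInter _ fun u _ => (mTL u _).compl
  set D : X → ℕ → Set Ω := fun ρ s => G ρ s ∩ (T s (cel s ρ) ∪ L s (cel s ρ)) with hD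
  have mD : ∀ ρ s, MeasurableSet (D ρ s) := fun ρ s => (mG ρ s).inter (mTL s _)
  -- decomposition by the first scale which is not abnormal
  have hdec : ∀ ρ ω, F ρ ω ≤ ∑ s ∈ Ico t k, (D ρ s).indicator (F ρ) ω + (G ρ k).indicator (F ρ) ω := by
    intro ρ ω
    by_cases h0 : ω ∈ G ρ k
    · rw [Set.indicator_of_mem h0]; exact le_add_self
    · have h1 : ∃ u, u ∈ Ico t k ∧ ω ∈ T u (cel u ρ) ∪ L u (cel u ρ) := by
        by_contra h2
        push Not at h2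
        exact h0 fun u hu => h2 u hu
      have hs := Nat.find_spec h1
      set s := Nat.find h1
      have hsD : ω ∈ D ρ s := ⟨fun u hu hu' => by
        rw [mem_Ico] at hu
        have h3 := hs.1
        rw [mem_Ico] at h3
        exact Nat.find_min h1 hu.2 ⟨mem_Ico.2 ⟨hu.1, by omega⟩, hu'⟩, hs.2⟩
      refine le_trans ?_ le_self_add
      refine le_trans ?_ (single_le_sum (f := fun s => (D ρ s).indicator (F ρ) ω) (fun _ _ => zero_le) hs.1)
      rw [Set.indicator_of_mem hsD]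
  have hone : p⁻¹ * p = 1 := ENNReal.inv_mul_cancel hp hp'
  -- one scale `s`
  have hs : ∀ s ∈ Ico t k, ∑ ρ, ∫⁻ ω, (D ρ s).indicator (F ρ) ω ∂P ≤
      p⁻¹ * C * C' * E (i - t) * (1 + c)⁻¹ ^ (i - t - m1 - 1) * V P w g (i + m2) := by
    intro s hs
    have hs' := mem_Ico.1 hs
    set q : ℝ≥0∞ := C * E (i - t) * (1 + c)⁻¹ ^ (s - t) * (1 + c)⁻¹ ^ (i - k) with hq
    have mH : ∀ ρ, Measurable fun ω => w ρ ω *
        (h t k i ρ (s + m1 + 1) ω * ∏ u ∈ Ioo (s + m1) k, fac (T u (cel u ρ)) c ω) := fun ρ =>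
      (d.mw ρ).mul ((d.mh t k i ρ (s + m1 + 1)).mul
        (Finset.measurable_prod _ fun v _ => measurable_fac (d.slab v _).mT c))
    -- one cell
    have hκ : ∀ κ : K s, ∫⁻ ω in T s κ ∪ L s κ, ∑ ρ, {ω | cel s ρ = κ ∧ ω ∈ G ρ s}.indicator (F ρ) ω ∂P ≤
        p⁻¹ * (q * ∑ ρ ∈ nb s κ, ∫⁻ ω, w ρ ω *
          (h t k i ρ (s + m1 + 1) ω * ∏ u ∈ Ioo (s + m1) k, fac (T u (cel u ρ)) c ω) ∂P) := by
      intro κ
      have mI : ∀ ρ, MeasurableSet {ω | cel s ρ = κ ∧ ω ∈ G ρ s} := fun ρ => by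
        by_cases h1 : cel s ρ = κ
        · simpa [h1] using mG ρ s
        · simp [h1]
      have m1' : Measurable fun ω => ∑ ρ, {ω | cel s ρ = κ ∧ ω ∈ G ρ s}.indicator (F ρ) ω :=
        Finset.measurable_sum _ fun ρ _ => (mF ρ).indicator (mI ρ)
      have m2' : Measurable fun ω => ∑ ρ ∈ nb s κ, w ρ ω *
          (h t k i ρ (s + m1 + 1) ω * ∏ u ∈ Ioo (s + m1) k, fac (T u (cel u ρ)) c ω) :=
        Finset.measurable_sum _ fun ρ _ => mH ρ
      have h1 := (d.slab s κ).move (p := p) (g := fun ω => q * ∑ ρ ∈ nb s κ, w ρ ω *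
          (h t k i ρ (s + m1 + 1) ω * ∏ u ∈ Ioo (s + m1) k, fac (T u (cel u ρ)) c ω)) m1'
        (m2'.const_mul _) (d.prob s κ) (fun ω hω η hη => d.early t k i h1t h2t h3t hk s hs κ ω hω η hη)
      calc ∫⁻ ω in T s κ ∪ L s κ, ∑ ρ, {ω | cel s ρ = κ ∧ ω ∈ G ρ s}.indicator (F ρ) ω ∂P
          = p⁻¹ * (p * ∫⁻ ω in T s κ ∪ L s κ,
              ∑ ρ, {ω | cel s ρ = κ ∧ ω ∈ G ρ s}.indicator (F ρ) ω ∂P) := by
            rw [← mul_assoc, hone, one_mul]
        _ ≤ p⁻¹ * ∫⁻ ω in L s κ, q * ∑ ρ ∈ nb s κ, w ρ ω *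
              (h t k i ρ (s + m1 + 1) ω * ∏ u ∈ Ioo (s + m1) k, fac (T u (cel u ρ)) c ω) ∂P := by gcongr
        _ ≤ p⁻¹ * ∫⁻ ω, q * ∑ ρ ∈ nb s κ, w ρ ω *
              (h t k i ρ (s + m1 + 1) ω * ∏ u ∈ Ioo (s + m1) k, fac (T u (cel u ρ)) c ω) ∂P := by
            gcongr; exact Measure.restrict_le_self
        _ = _ := by
            rw [lintegral_const_mul _ m2', lintegral_finsetSum _ fun ρ _ => mH ρ]
    have h1 : ∑ ρ, ∫⁻ ω, (D ρ s).indicator (F ρ) ω ∂P =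
        ∑ κ : K s, ∫⁻ ω in T s κ ∪ L s κ, ∑ ρ, {ω | cel s ρ = κ ∧ ω ∈ G ρ s}.indicator (F ρ) ω ∂P := by
      have mI : ∀ ρ (κ : K s), MeasurableSet {ω | cel s ρ = κ ∧ ω ∈ G ρ s} := fun ρ κ => by
        by_cases h1 : cel s ρ = κ
        · simpa [h1] using mG ρ s
        · simp [h1]
      have e1 : ∀ κ : K s, ∫⁻ ω in T s κ ∪ L s κ, ∑ ρ, {ω | cel s ρ = κ ∧ ω ∈ G ρ s}.indicator (F ρ) ω ∂P =
          ∑ ρ, if cel s ρ = κ then ∫⁻ ω, (D ρ s).indicator (F ρ) ω ∂P else 0 := by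
        intro κ
        rw [lintegral_finsetSum _ fun ρ _ => (mF ρ).indicator (mI ρ κ)]
        refine sum_congr rfl fun ρ _ => ?_
        by_cases h1 : cel s ρ = κ
        · rw [if_pos h1, setLIntegral_indicator (mI ρ κ), lintegral_indicator (mD ρ s)]
          congr 2
          subst h1
          ext ω
          simp only [hD, Set.mem_inter_iff]
          constructor
          · rintro ⟨h2, h3⟩; exact ⟨h2.2, h3⟩
          · rintro ⟨h2, h3⟩; exact ⟨⟨trivial, h2⟩, h3⟩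
        · rw [if_neg h1]
          have e2 : {ω | cel s ρ = κ ∧ ω ∈ G ρ s} = ∅ := by
            ext ω; exact ⟨fun h2 => h1 h2.1, fun h2 => h2.elim⟩
          simp [e2]
      rw [sum_congr rfl fun κ _ => e1 κ, sum_comm]
      refine sum_congr rfl fun ρ _ => ?_
      rw [sum_ite_eq]
      simp
    rw [h1]
    refine (sum_le_sum fun κ _ => hκ κ).trans ?_
    have h2 : ∀ ρ, ∫⁻ ω, w ρ ω * (h t k i ρ (s + m1 + 1) ω * ∏ u ∈ Ioo (s + m1) k,
        fac (T u (cel u ρ)) c ω) ∂P ≤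
        (1 + c)⁻¹ ^ (k - (s + m1) - 1) * ∫⁻ ω, w ρ ω * g (i + m2) ρ ω ∂P := fun ρ =>
      d.haz hc h1t h2t h3t hk ρ (by omega)
    have h3 : ∑ κ : K s, ∑ ρ ∈ nb s κ, ((1 + c)⁻¹ ^ (k - (s + m1) - 1) * ∫⁻ ω, w ρ ω * g (i + m2) ρ ω ∂P) ≤
        C' * ((1 + c)⁻¹ ^ (k - (s + m1) - 1) * V P w g (i + m2)) := by
      have e3 : ∀ κ : K s, ∑ ρ ∈ nb s κ, ((1 + c)⁻¹ ^ (k - (s + m1) - 1) * ∫⁻ ω, w ρ ω * g (i + m2) ρ ω ∂P) =
          ∑ ρ, if ρ ∈ nb s κ then ((1 + c)⁻¹ ^ (k - (s + m1) - 1) * ∫⁻ ω, w ρ ω * g (i + m2) ρ ω ∂P) else 0 :=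
        fun κ => by rw [sum_ite_mem, univ_inter]
      rw [sum_congr rfl fun κ _ => e3 κ, sum_comm, V, mul_sum, mul_sum]
      refine sum_le_sum fun ρ _ => ?_
      rw [← sum_filter, sum_const, nsmul_eq_mul]
      refine mul_le_mul' ?_ le_rfl
      exact_mod_cast d.mult s ρ _ fun κ hκ => (mem_filter.1 hκ).2
    calc ∑ κ : K s, p⁻¹ * (q * ∑ ρ ∈ nb s κ, ∫⁻ ω, w ρ ω *
          (h t k i ρ (s + m1 + 1) ω * ∏ u ∈ Ioo (s + m1) k, fac (T u (cel u ρ)) c ω) ∂P)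
        = p⁻¹ * (q * ∑ κ : K s, ∑ ρ ∈ nb s κ, ∫⁻ ω, w ρ ω *
          (h t k i ρ (s + m1 + 1) ω * ∏ u ∈ Ioo (s + m1) k, fac (T u (cel u ρ)) c ω) ∂P) := by
          rw [← mul_sum, ← mul_sum]
      _ ≤ p⁻¹ * (q * (C' * ((1 + c)⁻¹ ^ (k - (s + m1) - 1) * V P w g (i + m2)))) := by
          refine mul_le_mul' le_rfl (mul_le_mul' le_rfl (le_trans ?_ h3))
          exact sum_le_sum fun κ _ => sum_le_sum fun ρ _ => h2 ρ
      _ = p⁻¹ * C * C' * E (i - t) * (1 + c)⁻¹ ^ ((s - t) + (i - k) + (k - (s + m1) - 1)) * V P w g (i + m2) := by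
          rw [hq, pow_add, pow_add]; ring
      _ ≤ _ := by
          have e5 : (1 + c)⁻¹ ^ ((s - t) + (i - k) + (k - (s + m1) - 1)) ≤ (1 + c)⁻¹ ^ (i - t - m1 - 1) :=
            pow_le_pow_right_of_le_one' (ENNReal.inv_le_one.2 le_self_add) (by omega)
          exact mul_le_mul' (mul_le_mul' le_rfl e5) le_rfl
  calc ∑ ρ, ∫⁻ ω, F ρ ω ∂P
      ≤ ∑ ρ, (∑ s ∈ Ico t k, ∫⁻ ω, (D ρ s).indicator (F ρ) ω ∂P + ∫⁻ ω, (G ρ k).indicator (F ρ) ω ∂P) := by
        refine sum_le_sum fun ρ _ => ?_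
        rw [← lintegral_finsetSum _ fun s _ => (mF ρ).indicator (mD ρ s),
          ← lintegral_add_right _ ((mF ρ).indicator (mG ρ k))]
        exact lintegral_mono fun ω => hdec ρ ω
    _ = ∑ s ∈ Ico t k, ∑ ρ, ∫⁻ ω, (D ρ s).indicator (F ρ) ω ∂P +
          ∑ ρ, ∫⁻ ω, (G ρ k).indicator (F ρ) ω ∂P := by
        rw [sum_add_distrib, sum_comm]
    _ ≤ (i - t : ℕ) * (p⁻¹ * C * C' * E (i - t) * (1 + c)⁻¹ ^ (i - t - m1 - 1) * V P w g (i + m2)) +
          E (i - t) * (1 + c)⁻¹ ^ (i - t) * V P w g (i + m2) := by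
        refine add_le_add ?_ ?_
        · refine (sum_le_sum hs).trans ?_
          rw [sum_const, Nat.card_Ico, nsmul_eq_mul]
          refine mul_le_mul' ?_ le_rfl
          exact_mod_cast (by omega : k - t ≤ i - t)
        · rw [← lintegral_finsetSum _ fun ρ _ => (mF ρ).indicator (mG ρ k), V, mul_sum]
          calc ∫⁻ ω, ∑ ρ, (G ρ k).indicator (F ρ) ω ∂P
              = ∫⁻ ω, ∑ x, w x ω * ∑ ρ, (G ρ k).indicator (ea t k i x ρ) ω ∂P := by
                refine lintegral_congr fun ω => ?_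
                simp_rw [mul_sum]
                rw [sum_comm]
                refine sum_congr rfl fun ρ _ => ?_
                by_cases h0 : ω ∈ G ρ k
                · rw [Set.indicator_of_mem h0]
                  exact sum_congr rfl fun x _ => by rw [Set.indicator_of_mem h0]
                · rw [Set.indicator_of_notMem h0]
                  exact (sum_eq_zero fun x _ => by rw [Set.indicator_of_notMem h0, mul_zero]).symm
            _ ≤ ∫⁻ ω, ∑ x, w x ω * (E (i - t) * (1 + c)⁻¹ ^ (i - t) * g (i + m2) x ω) ∂P := by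
                refine lintegral_mono fun ω => sum_le_sum fun x _ => ?_
                gcongr
                exact d.none t k i x ω h1t h2t h3t hk
            _ = _ := by
                have m1 : ∀ x, Measurable fun ω => w x ω * (E (i - t) * (1 + c)⁻¹ ^ (i - t) *
                    g (i + m2) x ω) := fun x => (d.mw x).mul ((d.mg (i + m2) x).const_mul _)
                have m2' : ∀ x, Measurable fun ω => w x ω * g (i + m2) x ω := fun x =>
                  (d.mw x).mul (d.mg (i + m2) x)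
                rw [lintegral_finsetSum _ fun x _ => m1 x]
                refine sum_congr rfl fun x _ => ?_
                rw [← lintegral_const_mul _ (m2' x)]
                refine lintegral_congr fun ω => ?_
                ring
    _ = _ := by ring

/-- One step of the skeleton. -/
theorem step [SFinite P] (d : SkelData P τ0 M m0 m1 m2 cel R T L w nb A₀ c p C C' E g er la ea h) (hc : c ≠ ⊤)
    (hp : p ≠ 0) (hp' : p ≠ ⊤) (τ : ℕ) (hτ : τ0 ≤ τ) :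
    V P w g τ ≤ A₀ + ∑ t ∈ Ioc τ M, ∑ i ∈ Icc (t + m0) M, price m1 c p C C' E (i - t) * V P w g (i + m2) := by
  classical
  have ma : ∀ x t k i, Measurable fun ω => w x ω * la t k i x ω := fun x t k i => (d.mw x).mul (d.mla t k i x)
  have m2' : ∀ x t k i ρ, Measurable fun ω => w x ω * ea t k i x ρ ω := fun x t k i ρ =>
    (d.mw x).mul (d.mea t k i x ρ)
  have h1 : V P w g τ ≤ (∑ x, ∫⁻ ω, w x ω * er τ x ω ∂P) + ∑ t ∈ Ioc τ M, ∑ i ∈ Icc (t + m0) M, ∑ k ∈ Icc t i,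
      ((∑ x, ∫⁻ ω, w x ω * la t k i x ω ∂P) + ∑ ρ, ∫⁻ ω, ∑ x, w x ω * ea t k i x ρ ω ∂P) := by
    have e1 : ∀ x, ∫⁻ ω, w x ω * g τ x ω ∂P ≤ (∫⁻ ω, w x ω * er τ x ω ∂P) + ∑ t ∈ Ioc τ M,
        ∑ i ∈ Icc (t + m0) M, ∑ k ∈ Icc t i,
        ((∫⁻ ω, w x ω * la t k i x ω ∂P) + ∑ ρ, ∫⁻ ω, w x ω * ea t k i x ρ ω ∂P) := by
      intro x
      calc ∫⁻ ω, w x ω * g τ x ω ∂P
          ≤ ∫⁻ ω, (w x ω * er τ x ω + ∑ t ∈ Ioc τ M, ∑ i ∈ Icc (t + m0) M, ∑ k ∈ Icc t i,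
              (w x ω * la t k i x ω + ∑ ρ, w x ω * ea t k i x ρ ω)) ∂P := by
            refine lintegral_mono fun ω => ?_
            calc w x ω * g τ x ω ≤ w x ω * (er τ x ω + ∑ t ∈ Ioc τ M, ∑ i ∈ Icc (t + m0) M, ∑ k ∈ Icc t i,
                (la t k i x ω + ∑ ρ, ea t k i x ρ ω)) := by gcongr; exact d.dec τ x ω hτ
              _ = _ := by simp only [mul_add, mul_sum]
        _ = _ := by
            have m3 : ∀ t k i, Measurable fun ω => w x ω * la t k i x ω + ∑ ρ, w x ω * ea t k i x ρ ω :=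
              fun t k i => (ma x t k i).add (Finset.measurable_sum _ fun ρ _ => m2' x t k i ρ)
            have m4 : ∀ t i, Measurable fun ω => ∑ k ∈ Icc t i,
                (w x ω * la t k i x ω + ∑ ρ, w x ω * ea t k i x ρ ω) := fun t i =>
              Finset.measurable_sum _ fun k _ => m3 t k i
            have m5 : ∀ t, Measurable fun ω => ∑ i ∈ Icc (t + m0) M, ∑ k ∈ Icc t i,
                (w x ω * la t k i x ω + ∑ ρ, w x ω * ea t k i x ρ ω) := fun t =>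
              Finset.measurable_sum _ fun i _ => m4 t i
            have m0' : Measurable fun ω => w x ω * er τ x ω := (d.mw x).mul (d.mer τ x)
            rw [lintegral_add_left m0']
            congr 1
            rw [lintegral_finsetSum _ fun t _ => m5 t]
            refine sum_congr rfl fun t _ => ?_
            rw [lintegral_finsetSum _ fun i _ => m4 t i]
            refine sum_congr rfl fun i _ => ?_
            rw [lintegral_finsetSum _ fun k _ => m3 t k i]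
            refine sum_congr rfl fun k _ => ?_
            rw [lintegral_add_left (ma x t k i), lintegral_finsetSum _ fun ρ _ => m2' x t k i ρ]
    refine (sum_le_sum fun x _ => e1 x).trans (le_of_eq ?_)
    rw [sum_add_distrib, sum_comm]
    congr 1
    refine sum_congr rfl fun t _ => ?_
    rw [sum_comm]
    refine sum_congr rfl fun i _ => ?_
    rw [sum_comm]
    refine sum_congr rfl fun k _ => ?_
    rw [sum_add_distrib]
    congr 1
    rw [sum_comm]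
    refine sum_congr rfl fun ρ _ => ?_
    rw [lintegral_finsetSum _ fun x _ => m2' x t k i ρ]
  refine h1.trans ?_
  refine add_le_add (d.er_le τ hτ) (sum_le_sum fun t ht => sum_le_sum fun i hi => ?_)
  have h1t : τ0 < t := by rw [mem_Ioc] at ht; omega
  have h2t : t + m0 ≤ i := (mem_Icc.1 hi).1
  have h3t : i ≤ M := (mem_Icc.1 hi).2
  have hk : ∀ k ∈ Icc t i, ((∑ x, ∫⁻ ω, w x ω * la t k i x ω ∂P) + ∑ ρ, ∫⁻ ω, ∑ x, w x ω * ea t k i x ρ ω ∂P) ≤
      E (i - t) * ((1 + c)⁻¹ ^ (i - t - m1 - 1) + p⁻¹ * C * C' * (i - t : ℕ) * (1 + c)⁻¹ ^ (i - t - m1 - 1) +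
        (1 + c)⁻¹ ^ (i - t)) * V P w g (i + m2) := by
    intro k hk
    have hk' := mem_Icc.1 hk
    have hla : ∀ x, ∫⁻ ω, w x ω * la t k i x ω ∂P ≤
        E (i - t) * (1 + c)⁻¹ ^ (i - t - m1 - 1) * ∫⁻ ω, w x ω * g (i + m2) x ω ∂P := by
      intro x
      have mG : Measurable fun ω => w x ω *
          (h t k i x (t + m1 + 1) ω * ∏ u ∈ Ioo (t + m1) k, fac (T u (cel u x)) c ω) :=
        (d.mw x).mul ((d.mh t k i x (t + m1 + 1)).mul
          (Finset.measurable_prod _ fun v _ => measurable_fac (d.slab v _).mT c))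
      calc ∫⁻ ω, w x ω * la t k i x ω ∂P
          ≤ ∫⁻ ω, E (i - t) * (1 + c)⁻¹ ^ (i - k) * (w x ω *
              (h t k i x (t + m1 + 1) ω * ∏ u ∈ Ioo (t + m1) k, fac (T u (cel u x)) c ω)) ∂P := by
            refine lintegral_mono fun ω => ?_
            calc w x ω * la t k i x ω ≤ w x ω * (E (i - t) * (1 + c)⁻¹ ^ (i - k) *
                (h t k i x (t + m1 + 1) ω * ∏ u ∈ Ioo (t + m1) k, fac (T u (cel u x)) c ω)) := by
                  gcongr; exact d.late t k i x ω h1t h2t h3t hk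
              _ = _ := by ring
        _ = E (i - t) * (1 + c)⁻¹ ^ (i - k) * ∫⁻ ω, w x ω *
              (h t k i x (t + m1 + 1) ω * ∏ u ∈ Ioo (t + m1) k, fac (T u (cel u x)) c ω) ∂P :=
            lintegral_const_mul _ mG
        _ ≤ E (i - t) * (1 + c)⁻¹ ^ (i - k) * ((1 + c)⁻¹ ^ (k - (t + m1) - 1) *
              ∫⁻ ω, w x ω * g (i + m2) x ω ∂P) := by
            gcongr
            exact d.haz hc h1t h2t h3t hk x (by omega)
        _ = E (i - t) * (1 + c)⁻¹ ^ ((i - k) + (k - (t + m1) - 1)) * ∫⁻ ω, w x ω * g (i + m2) x ω ∂P := by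
            rw [pow_add]; ring
        _ ≤ _ := by
            have e5 : (1 + c)⁻¹ ^ ((i - k) + (k - (t + m1) - 1)) ≤ (1 + c)⁻¹ ^ (i - t - m1 - 1) :=
              pow_le_pow_right_of_le_one' (ENNReal.inv_le_one.2 le_self_add) (by omega)
            exact mul_le_mul' (mul_le_mul' le_rfl e5) le_rfl
    calc _ ≤ E (i - t) * (1 + c)⁻¹ ^ (i - t - m1 - 1) * V P w g (i + m2) +
          E (i - t) * (p⁻¹ * C * C' * (i - t : ℕ) * (1 + c)⁻¹ ^ (i - t - m1 - 1) + (1 + c)⁻¹ ^ (i - t)) *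
            V P w g (i + m2) := by
          refine add_le_add ?_ (d.moved hc hp hp' h1t h2t h3t hk)
          refine (sum_le_sum fun x _ => hla x).trans (le_of_eq ?_)
          rw [← mul_sum]; rfl
      _ = _ := by ring
  refine (sum_le_sum hk).trans (le_of_eq ?_)
  rw [sum_const, Nat.card_Icc, nsmul_eq_mul, price]
  have e6 : ((i + 1 - t : ℕ) : ℝ≥0∞) = ((i - t : ℕ) : ℝ≥0∞) + 1 := by
    have : i + 1 - t = (i - t) + 1 := by omega
    rw [this]; push_cast; rfl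
  rw [e6]
  ring

/-- THE SKELETON LEMMA. -/
theorem total [SFinite P] (d : SkelData P τ0 M m0 m1 m2 cel R T L w nb A₀ c p C C' E g er la ea h) (hc : c ≠ ⊤)
    (hp : p ≠ 0) (hp' : p ≠ ⊤) {δ : ℝ≥0∞} (hδ : ∀ t, ∑ i ∈ Icc (t + m0) M, price m1 c p C C' E (i - t) ≤ δ)
    (τ : ℕ) (hτ : τ0 ≤ τ) : V P w g τ ≤ A₀ * (1 + δ) ^ (M - τ) :=
  renewal (V := fun _ τ => V P w g τ) (b := fun t i => price m1 c p C C' E (i - t)) hδ
    (fun _ τ h => d.step hc hp hp' τ h) 0 τ hτ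

/-- In the form which is used: if on the bad event `B x` the weight `g τ0 x` is at least `κ`, then the measure of the
bad events is at most `κ⁻¹ A₀ (1 + δ) ^ M`. -/
theorem bad [SFinite P] (d : SkelData P τ0 M m0 m1 m2 cel R T L w nb A₀ c p C C' E g er la ea h) (hc : c ≠ ⊤)
    (hp : p ≠ 0) (hp' : p ≠ ⊤) {δ : ℝ≥0∞} (hδ : ∀ t, ∑ i ∈ Icc (t + m0) M, price m1 c p C C' E (i - t) ≤ δ)
    {B : X → Set Ω} (mB : ∀ x, MeasurableSet (B x)) {κ : ℝ≥0∞} (hκ : κ ≠ 0) (hκ' : κ ≠ ⊤)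
    (hB : ∀ x, ∀ ω ∈ B x, κ ≤ g τ0 x ω) :
    ∑ x, ∫⁻ ω in B x, w x ω ∂P ≤ κ⁻¹ * (A₀ * (1 + δ) ^ M) := by
  classical
  have hone : κ⁻¹ * κ = 1 := ENNReal.inv_mul_cancel hκ hκ'
  have h1 := (d.total hc hp hp' hδ τ0 le_rfl).trans
    (mul_le_mul' le_rfl (pow_le_pow_right₀ le_self_add (Nat.sub_le M τ0) : (1 + δ) ^ (M - τ0) ≤ (1 + δ) ^ M))
  calc ∑ x, ∫⁻ ω in B x, w x ω ∂P = κ⁻¹ * (κ * ∑ x, ∫⁻ ω in B x, w x ω ∂P) := by
        rw [← mul_assoc, hone, one_mul]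
    _ ≤ κ⁻¹ * V P w g τ0 := by
        gcongr
        rw [mul_sum]
        refine sum_le_sum fun x _ => ?_
        rw [← lintegral_const_mul _ (d.mw x)]
        calc ∫⁻ ω in B x, κ * w x ω ∂P ≤ ∫⁻ ω in B x, w x ω * g τ0 x ω ∂P := by
              refine setLIntegral_mono' (mB x) fun ω hω => ?_
              rw [mul_comm]
              gcongr
              exact hB x ω hω
          _ ≤ _ := setLIntegral_le_lintegral _ _
    _ ≤ _ := mul_le_mul' le_rfl h1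

end SkelData

end Pool.Agent.W_7d29a1_C1.H49
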