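import Pool.Agent.W_7d29a1_C1.StepA49

/-!
Both halves (MP_7d29a1_pr), attractor route: MOVE THE CONTACT, the price of an alternative when the typical event `T A u`
depends on the set `A` of the windows already changed (helper2 81276 (6): it contains the stay of the contact). (helper49)
-/

set_option autoImplicit false

namespace Pool.Agent.W_7d29a1_C1.Lt87

open MeasureTheory Finset
open scoped ENNReal

variable {Ω : Type*} [MeasurableSpace Ω] {P : Measure Ω}

omit [MeasurableSpace Ω] in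
theorem fac_mono {T T' : Set Ω} (c : ℝ≥0∞) {ω ω' : Ω} (h : ω ∈ T → ω' ∈ T') : fac T c ω ≤ fac T' c ω' := by
  classical
  unfold fac
  have h1 : (1 + c)⁻¹ ≤ 1 := ENNReal.inv_le_one.2 le_self_add
  by_cases h2 : ω ∈ T
  · rw [if_pos h2, if_pos (h h2)]
  · rw [if_neg h2]
    split_ifs
    · exact h1
    · exact le_rfl

/-- The data: `S` = the paid windows, `S'` = the windows which may be changed by `Reach`, `H` = the hit event; `T A u` =
typical, the windows of `A` having been changed (increasing in `A`, inside `Tt u`). `T`, `L` may read the rows beyond the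
window, and `T` also the windows inside (`stepT`: only from typical to lucky). -/
structure HitH (P : Measure Ω) (R : ℕ → Ω → Ω → Ω) (T : Finset ℕ → ℕ → Set Ω) (Tt L : ℕ → Set Ω) (S S' : Finset ℕ)
    (H : Set Ω) : Prop where
  sub : S ⊆ S'
  slab : ∀ A, ∀ u ∈ S', Slab P (R u) (T A u) (L u)
  Tsub : ∀ A, ∀ u ∈ S', T A u ⊆ Tt u
  Tmono : ∀ {A B : Finset ℕ}, A ⊆ B → ∀ u ∈ S', T A u ⊆ T B u
  stepT : ∀ A, ∀ u ∈ S, u ∉ A → ∀ v ∈ S, u < v → ∀ ω ∈ T A u, ∀ η, R u η ω ∈ L u → ω ∈ T A v →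
    R u η ω ∈ T (insert u A) v
  excl : ∀ u ∈ S, ∀ ω ∈ Tt u, ∀ η, R u η ω ∈ L u → ∀ ω₁ ∈ H, Reach R (fun v => Tt v ∪ L v) S' u ω ω₁ →
    ∀ ω₂ ∈ H, Reach R (fun v => Tt v ∪ L v) S' u (R u η ω) ω₂ → False

/-- **THE PRICE OF AN ALTERNATIVE**, directed form, averaged comparison, thresholds which depend on the changed windows. -/
theorem HitH.late [SFinite P] {R : ℕ → Ω → Ω → Ω} {S S' : Finset ℕ} {T : Finset ℕ → ℕ → Set Ω} {Tt L : ℕ → Set Ω}
    {H : Set Ω} (d : HitH P R T Tt L S S' H) {c : ℝ≥0∞} (hc : c ≠ ⊤) {G : Ω → ℝ≥0∞}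
    (mG : Measurable G)
    (cmp : ∀ u ∈ S, ∀ ω, c * ∫⁻ ξ, (Tt u).indicator G (R u ξ ω) ∂P ≤ ∫⁻ η, (L u).indicator G (R u η ω) ∂P)
    {h : Finset ℕ → Ω → ℝ≥0∞} (mh : ∀ A, Measurable (h A)) (mono : ∀ u ∈ S, ∀ A ω, h A ω ≤ h (insert u A) ω)
    {A₀ : Finset ℕ} (inv : ∀ u ∈ S, ∀ A, u ∉ A → insert u A ⊆ A₀ ∪ S → ∀ ω ∈ Tt u, ∀ η, R u η ω ∈ L u →
      h A ω ≤ h (insert u A) (R u η ω)) {B₀ : Set Ω} (mB₀ : MeasurableSet B₀)
    (hB₀ : ∀ u ∈ S, ∀ ω ∈ B₀, ∃ ω' ∈ H, Reach R (fun v => Tt v ∪ L v) S' u ω ω') (hAS : Disjoint A₀ S) :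
    (1 + c) ^ S.card * ∫⁻ ω, G ω * (h A₀ ω * B₀.indicator 1 ω * ∏ u ∈ S, fac (T A₀ u) c ω) ∂P ≤
      ∫⁻ ω, G ω * h (A₀ ∪ S) ω ∂P := by
  classical
  -- general statement: the hit set after some slabs have been refilled
  suffices key : ∀ (k : ℕ) (S₁ : Finset ℕ), S₁.card = k → S₁ ⊆ S → ∀ (B : Set Ω), MeasurableSet B → ∀ A : Finset ℕ,
      Disjoint A S₁ → A ∪ S₁ ⊆ A₀ ∪ S →
      (∀ u ∈ S₁, ∀ ω ∈ B, ∃ ω' ∈ H, Reach R (fun v => Tt v ∪ L v) S' u ω ω') →
      (1 + c) ^ k * ∫⁻ ω, G ω * (h A ω * B.indicator 1 ω * ∏ u ∈ S₁, fac (T A u) c ω) ∂P ≤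
        ∫⁻ ω, G ω * h (A ∪ S₁) ω ∂P by
    exact key S.card S rfl subset_rfl B₀ mB₀ A₀ hAS subset_rfl hB₀
  intro k
  induction k with
  | zero =>
    intro S₁ hcard hsub B mB A hdis hAu hB
    have e : S₁ = ∅ := card_eq_zero.1 hcard
    subst e
    rw [pow_zero, one_mul, union_empty]
    refine lintegral_mono fun ω => ?_
    rw [prod_empty, mul_one]
    gcongr
    calc h A ω * B.indicator 1 ω ≤ h A ω * 1 := by
          gcongr
          exact Set.indicator_le_self' (fun _ _ => zero_le) ω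
      _ = _ := mul_one _
  | succ k ih =>
    intro S₁ hcard hsub B mB A hdis hAu hB
    have hne : S₁.Nonempty := card_pos.1 (by omega)
    set u := S₁.min' hne with hu
    have huS₁ : u ∈ S₁ := min'_mem _ _
    have huS : u ∈ S := hsub huS₁
    have huA : u ∉ A := fun h => disjoint_left.1 hdis h huS₁
    have hAu' : insert u A ⊆ A₀ ∪ S := insert_subset (hAu (mem_union_right _ huS₁)) (subset_union_left.trans hAu)
    set S₂ := S₁.erase u with hS₂
    have hins : insert u S₂ = S₁ := insert_erase huS₁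
    have hnot : u ∉ S₂ := notMem_erase _ _
    have hlt : ∀ v ∈ S₂, u < v := fun v hv => by
      rw [hS₂, mem_erase] at hv
      exact lt_of_le_of_ne (min'_le _ _ hv.2) (Ne.symm hv.1)
    have hcard' : S₂.card = k := by
      rw [hS₂, card_erase_of_mem huS₁, hcard]; rfl
    have hsl := d.slab A u (d.sub huS)
    have hTt : T A u ⊆ Tt u := d.Tsub A u (d.sub huS)
    set N : Set Ω := T A u ∪ L u with hN
    have mN : MeasurableSet N := hsl.mT.union hsl.mL
    set B' : Set Ω := ext P (R u) N B with hB'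
    have mB' : MeasurableSet B' := measurableSet_ext hsl.mp mN mB
    set Z : Set Ω := exc P (R u) N B with hZ
    have mZ : MeasurableSet Z := measurableSet_exc hsl.mp mN mB
    have hZ0 : P Z = 0 := exc_null hsl.mp hsl.rr mN mB
    -- the hit set is still reached
    have hBB : ∀ v ∈ S₂, ∀ ω ∈ B', ∃ ω' ∈ H, Reach R (fun v => Tt v ∪ L v) S' v ω ω' := by
      intro v hv ω hω
      have hv' := hlt v hv
      rcases ext_hit hω with h1 | ⟨h1, η, h2⟩
      · obtain ⟨ω', h3, h4⟩ := hB u huS₁ ω h1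
        exact ⟨ω', h3, h4.mono hv'.le⟩
      · obtain ⟨ω', h3, h4⟩ := hB u huS₁ _ h2.2
        exact ⟨ω', h3, Reach.step η hv' (d.sub huS) (Set.union_subset_union_left _ hTt h1)
          (Set.union_subset_union_left _ hTt h2.1) h4⟩
    -- a typical and a lucky content do not both hit
    have hex : ∀ ω ∈ T A u, ω ∈ B → ∀ η, R u η ω ∈ L u → R u η ω ∈ B → False := by
      intro ω h1 h2 η h3 h4
      obtain ⟨ω₁, h5, h6⟩ := hB u huS₁ ω h2
      obtain ⟨ω₂, h7, h8⟩ := hB u huS₁ _ h4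
      exact d.excl u huS ω (hTt h1) η h3 ω₁ h5 h6 ω₂ h7 h8
    have mprod : ∀ A' : Finset ℕ, Measurable fun ω => ∏ v ∈ S₂, fac (T A' v) c ω := fun A' =>
      Finset.measurable_prod _ fun v hv =>
        measurable_fac (d.slab A' v (d.sub (hsub (hins ▸ mem_insert_of_mem hv)))).mT c
    have hcmp : ∀ ω, c * ∫⁻ ξ, (T A u).indicator G (R u ξ ω) ∂P ≤ ∫⁻ η, (L u).indicator G (R u η ω) ∂P := by
      intro ω
      refine le_trans ?_ (cmp u huS ω)
      refine mul_le_mul' le_rfl (lintegral_mono fun ξ => ?_)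
      exact Set.indicator_le_indicator_of_subset hTt (fun _ => zero_le) _
    have hprod : ∀ ω, ∏ v ∈ S₂, fac (T A v) c ω ≤ ∏ v ∈ S₂, fac (T (insert u A) v) c ω := fun ω =>
      prod_le_prod (fun _ _ => zero_le) fun v hv => fac_mono c fun h3 =>
        d.Tmono (subset_insert u A) v (d.sub (hsub (hins ▸ mem_insert_of_mem hv))) h3
    have m1 : ∀ D : Set Ω, MeasurableSet D → Measurable (D.indicator (1 : Ω → ℝ≥0∞)) := fun D mD =>
      measurable_one.indicator mD
    -- one slab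
    have h2 := hsl.stepA hc (w := G)
      (f := fun ω => h A ω * (B \ Z).indicator 1 ω * ∏ v ∈ S₂, fac (T A v) c ω)
      (g := fun ω => h (insert u A) ω * B'.indicator 1 ω * ∏ v ∈ S₂, fac (T (insert u A) v) c ω) mG
      (((mh A).mul (m1 _ (mB.diff mZ))).mul (mprod _)) (((mh _).mul (m1 _ mB')).mul (mprod _)) hcmp
      (fun ω => by
        refine mul_le_mul' (mul_le_mul' (mono u huS A ω) ?_) (hprod ω)
        exact Set.indicator_le_indicator_of_subset (fun x hx => sub_ext hx) (fun _ => zero_le) _)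
      (fun ω hω η hη => by
        have h3 : ∏ v ∈ S₂, fac (T A v) c ω ≤ ∏ v ∈ S₂, fac (T (insert u A) v) c (R u η ω) := by
          refine prod_le_prod (fun _ _ => zero_le) fun v hv => fac_mono c fun h4 => ?_
          have hvS : v ∈ S := hsub (hins ▸ mem_insert_of_mem hv)
          exact d.stepT A u huS huA v hvS (hlt v hv) ω hω η hη h4
        by_cases h5 : ω ∈ B \ Z
        · have h6 : R u η ω ∉ B \ Z := fun h7 => hex ω hω h5.1 η hη h7.1
          have h8 : R u η ω ∈ B' := ext_step hsl.rr h5 (Or.inl hω) (Or.inr hη)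
          rw [Set.indicator_of_mem h5, Set.indicator_of_notMem h6, Set.indicator_of_mem h8]
          simp only [Pi.one_apply, mul_one, mul_zero, zero_mul, add_zero]
          exact mul_le_mul' (inv u huS A huA hAu' ω (hTt hω) η hη) h3
        · rw [Set.indicator_of_notMem h5]
          simp only [mul_zero, zero_mul, zero_add]
          refine mul_le_mul' (mul_le_mul' (mono u huS A _) ?_) (hprod _)
          exact Set.indicator_le_indicator_of_subset (fun x hx => sub_ext hx) (fun _ => zero_le) _)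
    have hdis' : Disjoint (insert u A) S₂ := by
      rw [disjoint_insert_left]
      exact ⟨hnot, disjoint_of_subset_right (erase_subset _ _) hdis⟩
    have hAu2 : insert u A ∪ S₂ ⊆ A₀ ∪ S := by
      refine subset_trans ?_ hAu
      intro v hv
      rw [mem_union, mem_insert] at hv
      rw [mem_union]
      rcases hv with (h1 | h1) | h1
      · exact Or.inr (h1 ▸ huS₁)
      · exact Or.inl h1
      · exact Or.inr (hins ▸ mem_insert_of_mem h1)
    have h1 := ih S₂ hcard' (fun v hv => hsub (hins ▸ mem_insert_of_mem hv)) B' mB' (insert u A) hdis' hAu2 hBB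
    have e : insert u A ∪ S₂ = A ∪ S₁ := by
      rw [← hins]
      ext v
      simp only [mem_union, mem_insert]
      tauto
    rw [e] at h1
    have e2 : ∫⁻ ω, G ω * (h A ω * B.indicator 1 ω * ∏ v ∈ S₁, fac (T A v) c ω) ∂P =
        ∫⁻ ω, G ω * ((h A ω * (B \ Z).indicator 1 ω * ∏ v ∈ S₂, fac (T A v) c ω) * fac (T A u) c ω) ∂P := by
      refine lintegral_congr_ae ?_
      have hZ1 : ∀ᵐ ω ∂P, ω ∉ Z := measure_eq_zero_iff_ae_notMem.1 hZ0
      filter_upwards [hZ1] with ω hω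
      have h3 : (B \ Z).indicator (1 : Ω → ℝ≥0∞) ω = B.indicator 1 ω := by
        by_cases h4 : ω ∈ B
        · rw [Set.indicator_of_mem h4, Set.indicator_of_mem (show ω ∈ B \ Z from ⟨h4, hω⟩)]
        · rw [Set.indicator_of_notMem h4, Set.indicator_of_notMem (fun h5 : ω ∈ B \ Z => h4 h5.1)]
      rw [h3, ← hins, prod_insert hnot]
      ring
    calc (1 + c) ^ (k + 1) * ∫⁻ ω, G ω * (h A ω * B.indicator 1 ω * ∏ v ∈ S₁, fac (T A v) c ω) ∂P
        = (1 + c) ^ k * ((1 + c) *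
            ∫⁻ ω, G ω * ((h A ω * (B \ Z).indicator 1 ω * ∏ v ∈ S₂, fac (T A v) c ω) * fac (T A u) c ω) ∂P) := by
          rw [e2, pow_succ, mul_assoc]
      _ ≤ (1 + c) ^ k * ∫⁻ ω, G ω * (h (insert u A) ω * B'.indicator 1 ω *
            ∏ v ∈ S₂, fac (T (insert u A) v) c ω) ∂P := by
          gcongr
      _ ≤ _ := h1

end Pool.Agent.W_7d29a1_C1.Lt87
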