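import Pool.Agent.W_7d29a1_C1.SkelJ49
import Pool.Agent.W_7d29a1_C1.StepB49

/-!
Both halves (MP_7d29a1_pr), attractor route: MOVE THE CONTACT, THE FINAL FORM: averaged comparisons (`cmpA`, `M3A`), end
`j ≥ i` of the stretch (`rl i j x ρ`), typical events `T A u κ` which may depend on the set `A` of the scales already
changed (inside `Tt u κ`). Structure `MoveC`, separation `sepC`. (helper49; after helper2 81276, helper18 79857)
-/

set_option autoImplicit false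

namespace Pool.Agent.W_7d29a1_C1.H49

open MeasureTheory Finset
open scoped ENNReal

/-- THE DATA OF THE SEPARATION. -/
structure MoveC {Ω X : Type*} [MeasurableSpace Ω] [Fintype X] (P : Measure Ω) (p : Par X) (w : X → Ω → ℝ≥0∞)
    (fa : ℕ → ℕ → ℕ → X → Ω → ℝ≥0∞) (pot : ℕ → ℝ → X → Ω → ℝ≥0∞) (rl : ℕ → ℕ → X → X → Set Ω) {K : ℕ → Type*}
    [∀ u, Fintype (K u)] (cel : ∀ u, X → K u) (R : ∀ u, K u → Ω → Ω → Ω) (T : Finset ℕ → ∀ u, K u → Set Ω)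
    (Tt L : ∀ u, K u → Set Ω) (nb : ∀ s, K s → Finset X) (low : ∀ s, K s → ℤ) (S : ℕ → ℕ → Finset ℕ)
    (τ0 q0 m1 n1 C' : ℕ) (c C1 Ast δ3 : ℝ≥0∞) : Prop where
  -- masses
  mw : ∀ x, Measurable (w x)
  mfa : ∀ t k τ x, Measurable (fa t k τ x)
  mpot : ∀ τ σ x, Measurable (pot τ σ x)
  mrl : ∀ i j x ρ, MeasurableSet (rl i j x ρ)
  sum_w : ∀ ω, ∑ x, w x ω ≤ 1
  fa_mono : ∀ t k τ τ' x ω, τ ≤ τ' → fa t k τ x ω ≤ fa t k τ' x ω
  pot_le : ∀ τ σ x ω, pot τ σ x ω ≤ 1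
  pot_mono : ∀ τ τ' σ σ' x ω, τ ≤ τ' → σ ≤ σ' → pot τ σ x ω ≤ pot τ' σ' x ω
  -- numbers
  dk_anti : ∀ k τ τ', τ ≤ τ' → p.dk k τ' ≤ p.dk k τ
  sl_mono : Monotone p.sl
  b_nonneg : ∀ v, 0 ≤ p.b v
  one_le : 1 ≤ p.θ
  θ_top : p.θ ≠ ⊤
  c_eq : 1 + c = p.θ ^ 2
  st_pow : ∀ t i, p.rg τ0 t i → p.θ ^ (2 * (p.st t i - t)) ≤ Ast * ((i - t : ℕ) + 1) ^ n1
  st_ge : ∀ t i, p.rg τ0 t i → t ≤ p.st t i
  st_lt : ∀ t i, p.rg τ0 t i → p.st t i < i
  S_sub : ∀ s i, S s i ⊆ Ioo s i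
  card_S : ∀ s i, τ0 < s → s < i → i ≤ p.M → i ≤ s + (S s i).card + m1
  hdl : ∀ t i, p.rg τ0 t i → p.dl i ≤ p.dk i (t - 1)
  slack : ∀ t i j, p.rg τ0 t i → i ≤ j → j ≤ p.M → p.sl (t - 1) + ∑ v ∈ Ico (p.st t i) i, p.b v ≤ p.sl (j + p.m2)
  num : p.θ ^ p.M * ∑ t ∈ Ioc τ0 p.M, ∑ i ∈ Icc (t + p.m0) p.M, (Fintype.card X * ex (-p.be t i) +
    Fintype.card X * ex (-p.be t i) * ex (p.th t i + p.sl (t - 1)) + p.κ3 + δ3) ≤ 1
  relbad : ∀ t i, p.rg τ0 t i → ∑ x, ∫⁻ ω, w x ω * rbJ p w fa rl t i x ω ∂P ≤ δ3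
  -- geometry
  slab : ∀ A u κ, Lt87.Slab P (R u κ) (T A u κ) (L u κ)
  Tsub : ∀ A u κ, T A u κ ⊆ Tt u κ
  Tmono : ∀ {A B : Finset ℕ}, A ⊆ B → ∀ u κ, T A u κ ⊆ T B u κ
  mult : ∀ s x, ∀ A : Finset (K s), (∀ κ ∈ A, x ∈ nb s κ) → A.card ≤ C'
  hlow : ∀ s ρ, low s (cel s ρ) ≤ p.row ρ
  mvrow : ∀ t i j, p.rg τ0 t i → i ≤ j → j ≤ p.M → ∀ s ∈ Ico (p.st t i) i, ∀ x ρ, ∀ ρ' ∈ nb s (cel s ρ),
    (rl i j x ρ).Nonempty → ∀ k, j + p.m2 + p.m0 < k → k ≤ p.M →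
      p.row x - p.dk k (t - 1) ≤ p.row ρ' - p.dk k (j + p.m2)
  mvfa : ∀ t i j, p.rg τ0 t i → i ≤ j → j ≤ p.M → ∀ s ∈ Ico (p.st t i) i, ∀ x ρ, ∀ ρ' ∈ nb s (cel s ρ),
    (rl i j x ρ).Nonempty → ∀ t' k, j + p.m2 < t' → t' + p.m0 ≤ k → k ≤ p.M →
      ∀ ω, fa t' k (t - 1) x ω ≤ fa t' k (j + p.m2) ρ' ω
  stepT : ∀ t i, p.rg τ0 t i → ∀ s ∈ Ico (p.st t i) i, ∀ y A, ∀ u ∈ S s i, u ∉ A → ∀ v ∈ S s i, u < v →
    ∀ ω ∈ T A u (cel u y), ∀ η, R u (cel u y) η ω ∈ L u (cel u y) →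
      ω ∈ T A v (cel v y) → R u (cel u y) η ω ∈ T (insert u A) v (cel v y)
  stepS : ∀ t i, p.rg τ0 t i → ∀ s ∈ Ico (p.st t i) i, ∀ κ, ∀ ρ ∈ nb s κ, ∀ v ∈ S s i,
    ∀ ω ∈ T ∅ s κ ∪ L s κ, ∀ η, R s κ η ω ∈ L s κ → ω ∈ T ∅ v (cel v ρ) → R s κ η ω ∈ T {s} v (cel v ρ)
  -- potential
  pot_late : ∀ t i, p.rg τ0 t i → ∀ x ω, pot (t - 1) (p.sl (t - 1)) x ω ≤ p.θ ^ q0 *
    ((∏ u ∈ S (p.st t i) i, fac (T ∅ u (cel u x)) c ω) * pot (i + p.m2) (p.sl (t - 1)) x ω)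
  pot_none : ∀ t i j, p.rg τ0 t i → i ≤ j → j ≤ p.M → ∀ x ρ, ∀ ω ∈ rl i j x ρ,
    (∀ u ∈ Ico (p.st t i) i, ω ∉ T ∅ u (cel u ρ) ∪ L u (cel u ρ)) → pot (t - 1) (p.sl (t - 1)) x ω ≤
      p.θ ^ q0 * ((1 + c)⁻¹ ^ ((i - p.st t i) + (j - i)) * pot (j + p.m2) (p.sl (t - 1)) x ω)
  pot_early : ∀ t i j, p.rg τ0 t i → i ≤ j → j ≤ p.M → ∀ s ∈ Ico (p.st t i) i, ∀ x ρ, ∀ ρ' ∈ nb s (cel s ρ),
    ∀ ω ∈ rl i j x ρ, ω ∈ T ∅ s (cel s ρ) ∪ L s (cel s ρ) →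
    (∀ u ∈ Ico (p.st t i) s, ω ∉ T ∅ u (cel u ρ) ∪ L u (cel u ρ)) → pot (t - 1) (p.sl (t - 1)) x ω ≤
      p.θ ^ q0 * (1 + c)⁻¹ ^ ((s - p.st t i) + (j - i)) *
        ((∏ u ∈ S s i, fac (T ∅ u (cel u ρ')) c ω) * pot (j + p.m2) (p.sl (t - 1)) ρ' ω)
  -- environment, averaged comparisons
  cmpA : ∀ t i, p.rg τ0 t i → ∀ u ∈ Ico (p.st t i) i, ∀ y ω,
    c * ∫⁻ ξ, (Tt u (cel u y)).indicator (w y) (R u (cel u y) ξ ω) ∂P ≤
      ∫⁻ η, (L u (cel u y)).indicator (w y) (R u (cel u y) η ω) ∂P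
  M3A : ∀ t i, p.rg τ0 t i → ∀ s ∈ Ico (p.st t i) i, ∀ κ ω,
    ∫⁻ ξ, (T ∅ s κ ∪ L s κ).indicator (rat p w cel low t i s κ) (R s κ ξ ω) ∂P ≤
      C1 * ∫⁻ η, (L s κ).indicator (fun ω => ∑ ρ ∈ nb s κ, w ρ ω) (R s κ η ω) ∂P
  -- environment, exclusion
  exclF : ∀ t i, p.rg τ0 t i → ∀ x, ∀ u ∈ S (p.st t i) i, ∀ ω ∈ Tt u (cel u x), ∀ η, R u (cel u x) η ω ∈ L u (cel u x) →
    ∀ ω₁ ∈ Hf p w fa t i x, Lt87.Reach (fun v => R v (cel v x)) (fun v => Tt v (cel v x) ∪ L v (cel v x))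
      (S (p.st t i) i) u ω ω₁ →
    ∀ ω₂ ∈ Hf p w fa t i x, Lt87.Reach (fun v => R v (cel v x)) (fun v => Tt v (cel v x) ∪ L v (cel v x))
      (S (p.st t i) i) u (R u (cel u x) η ω) ω₂ → False
  exclE : ∀ t i, p.rg τ0 t i → ∀ s ∈ Ico (p.st t i) i, ∀ κ, ∀ ρ ∈ nb s κ, ∀ u ∈ S s i,
    ∀ ω ∈ Tt u (cel u ρ), ∀ η, R u (cel u ρ) η ω ∈ L u (cel u ρ) →
    ∀ ω₁ ∈ Hs p w cel t i s κ, Lt87.Reach (Function.update (fun v => R v (cel v ρ)) s (R s κ))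
      (Function.update (fun v => Tt v (cel v ρ) ∪ L v (cel v ρ)) s (Tt s κ ∪ L s κ)) (insert s (S s i)) u ω ω₁ →
    ∀ ω₂ ∈ Hs p w cel t i s κ, Lt87.Reach (Function.update (fun v => R v (cel v ρ)) s (R s κ))
      (Function.update (fun v => Tt v (cel v ρ) ∪ L v (cel v ρ)) s (Tt s κ ∪ L s κ)) (insert s (S s i)) u
        (R u (cel u ρ) η ω) ω₂ → False
  -- environment, oscillation of the outer masses
  oscT : ∀ t i j, p.rg τ0 t i → i ≤ j → j ≤ p.M → ∀ u ∈ Ico (p.st t i) i, ∀ y, ∀ ω ∈ Tt u (cel u y), ∀ η,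
    R u (cel u y) η ω ∈ L u (cel u y) → Osc p w fa pot (j + p.m2) y (p.b u) ω (R u (cel u y) η ω)
  oscS : ∀ t i j, p.rg τ0 t i → i ≤ j → j ≤ p.M → ∀ s ∈ Ico (p.st t i) i, ∀ κ, ∀ ρ ∈ nb s κ,
    ∀ ω ∈ T ∅ s κ ∪ L s κ, ∀ η, R s κ η ω ∈ L s κ → Osc p w fa pot (j + p.m2) ρ (p.b s) ω (R s κ η ω)

namespace MoveC

variable {Ω X : Type*} [MeasurableSpace Ω] [Fintype X] {P : Measure Ω} {p : Par X} {w : X → Ω → ℝ≥0∞}
  {fa : ℕ → ℕ → ℕ → X → Ω → ℝ≥0∞} {pot : ℕ → ℝ → X → Ω → ℝ≥0∞} {rl : ℕ → ℕ → X → X → Set Ω} {K : ℕ → Type*}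
  [∀ u, Fintype (K u)] {cel : ∀ u, X → K u} {R : ∀ u, K u → Ω → Ω → Ω} {T : Finset ℕ → ∀ u, K u → Set Ω}
  {Tt L : ∀ u, K u → Set Ω} {nb : ∀ s, K s → Finset X}
  {low : ∀ s, K s → ℤ} {S : ℕ → ℕ → Finset ℕ} {τ0 q0 m1 n1 C' : ℕ} {c C1 Ast δ3 : ℝ≥0∞}

theorem c_top (d : MoveC P p w fa pot rl cel R T Tt L nb low S τ0 q0 m1 n1 C' c C1 Ast δ3) : c ≠ ⊤ := by
  have h1 : 1 + c ≠ ⊤ := by rw [d.c_eq]; exact ENNReal.pow_ne_top d.θ_top
  exact fun h => h1 (by rw [h]; simp)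

theorem mHs (d : MoveC P p w fa pot rl cel R T Tt L nb low S τ0 q0 m1 n1 C' c C1 Ast δ3) (t i s : ℕ) (κ : K s) :
    MeasurableSet (Hs p w cel t i s κ) := by
  have e : Hs p w cel t i s κ = ⋃ ρ : X, {ω | cel s ρ = κ ∧ ex (-p.be t i) ≤ w ρ ω ∧
      p.κ3 ≤ lm p.row w (p.dl i) ρ ω} := by
    ext ω; simp [Hs]
  rw [e]
  refine MeasurableSet.iUnion fun ρ => ?_
  by_cases h : cel s ρ = κ
  · simp only [h, true_and]
    exact (measurableSet_le measurable_const (d.mw ρ)).inter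
      (measurableSet_le measurable_const (measurable_lm d.mw _ _))
  · simp [h]

theorem mHf (d : MoveC P p w fa pot rl cel R T Tt L nb low S τ0 q0 m1 n1 C' c C1 Ast δ3) (t i : ℕ) (x : X) :
    MeasurableSet (Hf p w fa t i x) :=
  (measurableSet_le measurable_const (d.mfa _ _ _ x)).inter (measurableSet_le measurable_const (d.mw x))

/-- The numbers: `θ ^ (j - t) (1 + c) ^ (- k)` when `k` misses only `st t i - t` and `m1` scales. -/
theorem pow_le (d : MoveC P p w fa pot rl cel R T Tt L nb low S τ0 q0 m1 n1 C' c C1 Ast δ3) {t i j : ℕ}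
    (h : p.rg τ0 t i) (hij : i ≤ j) {k : ℕ} (hk : j ≤ p.st t i + k + m1) :
    p.θ ^ (j + p.m2 + 1 - t) * p.θ ^ q0 * (1 + c)⁻¹ ^ k ≤
      p.θ ^ (p.m2 + 1 + q0 + 2 * m1) * Ast * ((j - t : ℕ) + 1) ^ n1 * p.θ⁻¹ ^ (j - t) := by
  have h0 : p.θ ≠ 0 := (zero_lt_one.trans_le d.one_le).ne'
  have hinv : p.θ⁻¹ ≤ 1 := ENNReal.inv_le_one.2 d.one_le
  have hone : p.θ * p.θ⁻¹ = 1 := ENNReal.mul_inv_cancel h0 d.θ_top
  have e1 : (1 + c)⁻¹ = p.θ⁻¹ ^ 2 := by rw [d.c_eq, ENNReal.inv_pow]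
  obtain ⟨h1, h2, h3⟩ := h
  have h4 := d.st_ge t i ⟨h1, h2, h3⟩
  have h5 := d.st_lt t i ⟨h1, h2, h3⟩
  have e2 : j + p.m2 + 1 - t = (j - t) + (p.m2 + 1) := by omega
  have hst := d.st_pow t i ⟨h1, h2, h3⟩
  have hli : (((i - t : ℕ) : ℝ≥0∞) + 1) ^ n1 ≤ (((j - t : ℕ) : ℝ≥0∞) + 1) ^ n1 := by
    gcongr
  set l := j - t with hl
  set s := p.st t i - t with hs
  have h6 : 2 * l ≤ 2 * s + 2 * k + 2 * m1 := by omega
  have h7 : p.θ⁻¹ ^ (2 * s + 2 * k + 2 * m1) ≤ p.θ⁻¹ ^ (2 * l) := pow_le_pow_right_of_le_one' hinv h6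
  have h8 : p.θ⁻¹ ^ (2 * k) ≤ p.θ ^ (2 * s) * p.θ ^ (2 * m1) * p.θ⁻¹ ^ (2 * l) := by
    calc p.θ⁻¹ ^ (2 * k) = (p.θ * p.θ⁻¹) ^ (2 * s) * (p.θ * p.θ⁻¹) ^ (2 * m1) * p.θ⁻¹ ^ (2 * k) := by
          rw [hone, one_pow, one_pow, one_mul, one_mul]
      _ = p.θ ^ (2 * s) * p.θ ^ (2 * m1) * p.θ⁻¹ ^ (2 * s + 2 * k + 2 * m1) := by
          rw [mul_pow, mul_pow, pow_add, pow_add]; ring
      _ ≤ _ := mul_le_mul' le_rfl h7
  have h9 : p.θ ^ l * p.θ⁻¹ ^ (2 * l) = p.θ⁻¹ ^ l := by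
    rw [two_mul, pow_add, ← mul_assoc, ← mul_pow, hone, one_pow, one_mul]
  calc p.θ ^ (j + p.m2 + 1 - t) * p.θ ^ q0 * (1 + c)⁻¹ ^ k
      = p.θ ^ (p.m2 + 1 + q0) * p.θ ^ l * p.θ⁻¹ ^ (2 * k) := by
        rw [e2, e1, ← pow_mul, pow_add, pow_add p.θ (p.m2 + 1) q0]; ring
    _ ≤ p.θ ^ (p.m2 + 1 + q0) * p.θ ^ l * (p.θ ^ (2 * s) * p.θ ^ (2 * m1) * p.θ⁻¹ ^ (2 * l)) :=
        mul_le_mul' le_rfl h8
    _ = p.θ ^ (p.m2 + 1 + q0 + 2 * m1) * p.θ ^ (2 * s) * (p.θ ^ l * p.θ⁻¹ ^ (2 * l)) := by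
        rw [pow_add p.θ (p.m2 + 1 + q0) (2 * m1)]; ring
    _ ≤ p.θ ^ (p.m2 + 1 + q0 + 2 * m1) * (Ast * ((l : ℕ) + 1) ^ n1) * (p.θ ^ l * p.θ⁻¹ ^ (2 * l)) :=
        mul_le_mul' (mul_le_mul' le_rfl (hst.trans (mul_le_mul' le_rfl hli))) le_rfl
    _ = _ := by rw [h9]; ring

/-- The constant of the price. -/
noncomputable def Q (θ : ℝ≥0∞) (m2 q0 m1 C' : ℕ) (C1 Ast : ℝ≥0∞) : ℝ≥0∞ :=
  θ ^ (m2 + 1 + q0 + 2 * m1) * Ast * (C1 * C' + 1)

theorem inS (d : MoveC P p w fa pot rl cel R T Tt L nb low S τ0 q0 m1 n1 C' c C1 Ast δ3) {t i s : ℕ}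
    (hs : s ∈ Ico (p.st t i) i) : ∀ u ∈ S s i, s < u ∧ u ∈ Ico (p.st t i) i := fun u hu => by
  have := mem_Ioo.1 (d.S_sub _ _ hu)
  rw [mem_Ico] at hs ⊢; omega

/-- THE CONTACT STAYS, the hazard. -/
theorem hzF [SFinite P] (d : MoveC P p w fa pot rl cel R T Tt L nb low S τ0 q0 m1 n1 C' c C1 Ast δ3) {t i : ℕ}
    (h : p.rg τ0 t i) (x : X) : ∫⁻ ω, w x ω * (hM p w fa pot t i x ∅ ω * (Hf p w fa t i x).indicator 1 ω *
      ∏ u ∈ S (p.st t i) i, fac (T ∅ u (cel u x)) c ω) ∂P ≤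
        (1 + c)⁻¹ ^ (S (p.st t i) i).card * ∫⁻ ω, w x ω * gM p w fa pot (i + p.m2) x ω ∂P := by
  classical
  have hst : p.st t i ∈ Ico (p.st t i) i := mem_Ico.2 ⟨le_rfl, d.st_lt t i h⟩
  have hsub := d.inS hst
  have hit : Lt87.HitH P (fun u => R u (cel u x)) (fun A u => T A u (cel u x)) (fun u => Tt u (cel u x))
      (fun u => L u (cel u x)) (S (p.st t i) i) (S (p.st t i) i) (Hf p w fa t i x) :=
    ⟨subset_rfl, fun A u _ => d.slab A u _, fun A u _ => d.Tsub A u _, fun hAB u _ => d.Tmono hAB u _,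
      fun A u hu hA v hv huv ω hω η hη hv' => d.stepT t i h (p.st t i) hst x A u hu hA v hv huv ω hω η hη hv',
      fun u hu ω hω η hη ω₁ h1 h2 ω₂ h3 h4 => d.exclF t i h x u hu ω hω η hη ω₁ h1 h2 ω₂ h3 h4⟩
  have slack : p.sl (t - 1) + ∑ v ∈ S (p.st t i) i, p.b v ≤ p.sl (i + p.m2) := by
    have h1 := sum_le_sum_of_subset_of_nonneg (f := p.b) (fun u hu => (hsub u hu).2) fun v _ _ => d.b_nonneg v
    linarith [d.slack t i i h le_rfl h.2.2]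
  refine inv_pow_mul_le d.c_top ?_
  have key := hit.late d.c_top (d.mw x) (fun u hu ω => d.cmpA t i h u (hsub u hu).2 x ω)
    (h := fun A ω => hM p w fa pot t i x A ω) (fun A => mhM d.mw d.mfa d.mpot t i x _)
    (fun u _ A ω => hM_mono d.one_le d.dk_anti d.fa_mono d.pot_mono d.b_nonneg t i x (subset_insert u A) ω)
    (A₀ := ∅) (fun u hu A hA hA' ω hω η hη => hM_insert d.one_le hA
      (sl_sub d.b_nonneg (by rwa [empty_union] at hA') slack)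
      (d.oscT t i i h le_rfl h.2.2 u (hsub u hu).2 x ω hω η hη)) (d.mHf t i x)
    (fun u _ ω hω => ⟨ω, hω, Lt87.Reach.refl⟩) (disjoint_empty_left _)
  refine key.trans (lintegral_mono fun ω => mul_le_mul' le_rfl ?_)
  rw [empty_union]
  exact hM_le_gM d.one_le d.dk_anti d.fa_mono d.pot_mono slack ω

/-- THE CONTACT STAYS. -/
theorem late [SFinite P] (d : MoveC P p w fa pot rl cel R T Tt L nb low S τ0 q0 m1 n1 C' c C1 Ast δ3) {t i : ℕ}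
    (h : p.rg τ0 t i) (x : X) : ∫⁻ ω, w x ω * laM p w fa pot t i x ω ∂P ≤
      Q p.θ p.m2 q0 m1 C' C1 Ast * ((i - t : ℕ) + 1) ^ (n1 + 2) * p.θ⁻¹ ^ (i - t) *
        ∫⁻ ω, w x ω * gM p w fa pot (i + p.m2) x ω ∂P := by
  classical
  obtain ⟨h1, h2, h3⟩ := h
  have h : p.rg τ0 t i := ⟨h1, h2, h3⟩
  set S' := S (p.st t i) i with hS'
  have h5 := d.st_ge t i h
  have hpt : ∀ ω, laM p w fa pot t i x ω ≤ p.θ ^ (i + p.m2 + 1 - t) * p.θ ^ q0 *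
      (hM p w fa pot t i x ∅ ω * (Hf p w fa t i x).indicator 1 ω * ∏ u ∈ S', fac (T ∅ u (cel u x)) c ω) := by
    intro ω
    unfold laM
    split_ifs with hc
    · have h6 : ω ∈ Hf p w fa t i x := hc.2
      rw [Set.indicator_of_mem h6]
      unfold fct hM
      simp only [sum_empty, add_zero, Pi.one_apply, mul_one]
      have h7 : cnt p w fa (i + p.m2) (t - 1) (p.sl (t - 1)) x ω ≤
          cnt p w fa (i + p.m2) (i + p.m2) (p.sl (t - 1)) x ω :=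
        cnt_mono d.dk_anti d.fa_mono (by omega) le_rfl x ω
      calc _ ≤ p.θ ^ (i + p.m2 + 1 - t) * (p.θ ^ cnt p w fa (i + p.m2) (i + p.m2) (p.sl (t - 1)) x ω *
            (p.θ ^ q0 * ((∏ u ∈ S', fac (T ∅ u (cel u x)) c ω) * pot (i + p.m2) (p.sl (t - 1)) x ω))) :=
            mul_le_mul' le_rfl (mul_le_mul' (pow_le_pow_right₀ d.one_le h7) (d.pot_late t i h x ω))
        _ = _ := by ring
    · exact zero_le
  have hcard := d.card_S (p.st t i) i (by omega) (d.st_lt t i h) h3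
  calc ∫⁻ ω, w x ω * laM p w fa pot t i x ω ∂P
      ≤ ∫⁻ ω, (p.θ ^ (i + p.m2 + 1 - t) * p.θ ^ q0) * (w x ω * (hM p w fa pot t i x ∅ ω *
          (Hf p w fa t i x).indicator 1 ω * ∏ u ∈ S', fac (T ∅ u (cel u x)) c ω)) ∂P := by
        refine lintegral_mono fun ω => ?_
        calc _ ≤ w x ω * _ := mul_le_mul' le_rfl (hpt ω)
          _ = _ := by ring
    _ = (p.θ ^ (i + p.m2 + 1 - t) * p.θ ^ q0) * ∫⁻ ω, w x ω * (hM p w fa pot t i x ∅ ω *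
          (Hf p w fa t i x).indicator 1 ω * ∏ u ∈ S', fac (T ∅ u (cel u x)) c ω) ∂P := by
        have mf : ∀ u ∈ S', Measurable (fac (T ∅ u (cel u x)) c) := fun u _ => measurable_fac (d.slab ∅ u _).mT c
        exact lintegral_const_mul _ ((d.mw x).mul (((mhM d.mw d.mfa d.mpot t i x ∅).mul
          (measurable_one.indicator (d.mHf t i x))).mul (Finset.measurable_fun_prod _ mf)))
    _ ≤ (p.θ ^ (i + p.m2 + 1 - t) * p.θ ^ q0) * ((1 + c)⁻¹ ^ S'.card *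
          ∫⁻ ω, w x ω * gM p w fa pot (i + p.m2) x ω ∂P) := mul_le_mul' le_rfl (d.hzF h x)
    _ = (p.θ ^ (i + p.m2 + 1 - t) * p.θ ^ q0 * (1 + c)⁻¹ ^ S'.card) *
          ∫⁻ ω, w x ω * gM p w fa pot (i + p.m2) x ω ∂P := by ring
    _ ≤ (p.θ ^ (p.m2 + 1 + q0 + 2 * m1) * Ast * ((i - t : ℕ) + 1) ^ n1 * p.θ⁻¹ ^ (i - t)) *
          ∫⁻ ω, w x ω * gM p w fa pot (i + p.m2) x ω ∂P := mul_le_mul' (d.pow_le h le_rfl (by omega)) le_rfl
    _ ≤ _ := by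
        refine mul_le_mul' ?_ le_rfl
        unfold Q
        calc _ = p.θ ^ (p.m2 + 1 + q0 + 2 * m1) * Ast * 1 * ((i - t : ℕ) + 1) ^ n1 * p.θ⁻¹ ^ (i - t) := by ring
          _ ≤ _ := by
              refine mul_le_mul' (mul_le_mul' (mul_le_mul' le_rfl le_add_self) ?_) le_rfl
              exact pow_le_pow_right₀ le_add_self (by omega)

/-- ONE CELL: what is moved into it at its first good scale. -/
theorem cell [SFinite P] (d : MoveC P p w fa pot rl cel R T Tt L nb low S τ0 q0 m1 n1 C' c C1 Ast δ3) {t i j : ℕ}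
    (h : p.rg τ0 t i) (hij : i ≤ j) (hjM : j ≤ p.M) {s : ℕ} (hs : s ∈ Ico (p.st t i) i) (κ : K s) :
    ∫⁻ ω in T ∅ s κ ∪ L s κ, ∑ ρ, {ω | cel s ρ = κ ∧ ∀ u ∈ Ico (p.st t i) s,
      ω ∉ T ∅ u (cel u ρ) ∪ L u (cel u ρ)}.indicator (fun ω => ∑ x, w x ω * eaJ p w fa pot rl t i j x ρ ω) ω ∂P ≤
    C1 * (p.θ ^ (j + p.m2 + 1 - t) * (p.θ ^ q0 * (1 + c)⁻¹ ^ ((s - p.st t i) + (j - i)))) *
      (1 + c)⁻¹ ^ (S s i).card * ∑ ρ ∈ nb s κ, ∫⁻ ω, w ρ ω * gM p w fa pot (j + p.m2) ρ ω ∂P := by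
  classical
  have hsub := d.inS hs
  have hs' := mem_Ico.1 hs
  have h1 := h.1
  have hge := d.st_ge t i h
  have hsl := d.slab ∅ s κ
  have mN : MeasurableSet (T ∅ s κ ∪ L s κ) := hsl.mT.union hsl.mL
  set H := Hs p w cel t i s κ with hH
  have mH : MeasurableSet H := d.mHs t i s κ
  set B₁ : Set Ω := Lt87.ext P (R s κ) (T ∅ s κ ∪ L s κ) H with hB₁
  have mB₁ : MeasurableSet B₁ := Lt87.measurableSet_ext hsl.mp mN mH
  set Q0 := p.θ ^ (j + p.m2 + 1 - t) * (p.θ ^ q0 * (1 + c)⁻¹ ^ ((s - p.st t i) + (j - i))) with hQ0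
  set g : X → Ω → ℝ≥0∞ := fun ρ ω => hM p w fa pot t j ρ {s} ω * B₁.indicator 1 ω *
    ∏ u ∈ S s i, fac (T {s} u (cel u ρ)) c ω with hg
  have mg : ∀ ρ, Measurable (g ρ) := fun ρ =>
    ((mhM d.mw d.mfa d.mpot t j ρ {s}).mul (measurable_one.indicator mB₁)).mul
      (Finset.measurable_fun_prod _ fun u _ => measurable_fac (d.slab {s} u _).mT c)
  have mI : ∀ ρ, MeasurableSet {ω | cel s ρ = κ ∧ ∀ u ∈ Ico (p.st t i) s, ω ∉ T ∅ u (cel u ρ) ∪ L u (cel u ρ)} := by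
    intro ρ
    have e : {ω | ∀ u ∈ Ico (p.st t i) s, ω ∉ T ∅ u (cel u ρ) ∪ L u (cel u ρ)} =
        ⋂ u ∈ Ico (p.st t i) s, (T ∅ u (cel u ρ) ∪ L u (cel u ρ))ᶜ := by
      ext ω; simp only [Set.mem_iInter, Set.mem_compl_iff]; rfl
    have m1 : MeasurableSet {ω | ∀ u ∈ Ico (p.st t i) s, ω ∉ T ∅ u (cel u ρ) ∪ L u (cel u ρ)} := by
      rw [e]
      exact Finset.measurableSet_biInter _ fun u _ => ((d.slab ∅ u _).mT.union (d.slab ∅ u _).mL).compl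
    by_cases h2 : cel s ρ = κ
    · simpa [h2] using m1
    · simp [h2]
  have mF : ∀ ρ, Measurable fun ω => ∑ x, w x ω * eaJ p w fa pot rl t i j x ρ ω := fun ρ =>
    Finset.measurable_sum _ fun x _ => (d.mw x).mul (meaJ d.mw d.mfa d.mpot d.mrl t i j x ρ)
  set Zf : Ω → ℝ≥0∞ := fun ω => ⨆ (x : X) (ρ : X) (_ : cel s ρ = κ ∧
    (∀ u ∈ Ico (p.st t i) s, ω ∉ T ∅ u (cel u ρ) ∪ L u (cel u ρ)) ∧ ω ∈ rl i j x ρ), fct p w fa pot t j x ω with hZf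
  have slack : p.sl (t - 1) + ∑ v ∈ insert s (S s i), p.b v ≤ p.sl (j + p.m2) := by
    have h1 := sum_le_sum_of_subset_of_nonneg (f := p.b) (s := insert s (S s i)) (t := Ico (p.st t i) i)
      (fun u hu => by
        rcases mem_insert.1 hu with h2 | h2
        · rw [h2]; exact hs
        · exact (hsub u h2).2) fun v _ _ => d.b_nonneg v
    linarith [d.slack t i j h hij hjM]
  have hcls := cls_le hsl (Φ := fun ω => ∑ ρ, {ω | cel s ρ = κ ∧ ∀ u ∈ Ico (p.st t i) s,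
      ω ∉ T ∅ u (cel u ρ) ∪ L u (cel u ρ)}.indicator (fun ω => ∑ x, w x ω * eaJ p w fa pot rl t i j x ρ ω) ω)
    (r := rat p w cel low t i s κ) (Zf := Zf) (W := w) (g := g) (nb := nb s κ) (C1 := C1) (Q0 := Q0) (H := H)
    (Finset.measurable_sum _ fun ρ _ => (mF ρ).indicator (mI ρ)) (measurable_rat d.mw mH) d.mw mg
    (fun ω hω => by unfold rat; rw [if_neg hω])
    (fun ω _ => early_ratJ (N := fun u κ => T ∅ u κ ∪ L u κ) d.sum_w (fun ρ hρ => hρ ▸ d.hlow s ρ)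
      fun x ρ h2 h3 h4 => le_iSup_of_le x (le_iSup_of_le ρ (le_iSup_of_le ⟨h2, h3, h4⟩ le_rfl)))
    (fun ω hω hP η hη ρ' hρ' => by
      refine iSup_le fun x => iSup_le fun ρ => iSup_le fun hc => ?_
      obtain ⟨h2, h3, h4⟩ := hc
      subst h2
      have hB : R s (cel s ρ) η ω ∈ B₁ := by
        refine Or.inl ⟨Or.inr hη, ?_⟩
        simp only [hsl.rr]
        exact hP
      have hcnt : cnt p w fa (j + p.m2) (t - 1) (p.sl (t - 1)) x ω ≤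
          cnt p w fa (j + p.m2) (j + p.m2) (p.sl (t - 1)) ρ' ω := by
        unfold cnt
        refine card_le_card fun t' ht' => ?_
        rw [mem_filter, mem_Ioc] at ht' ⊢
        obtain ⟨h5, k, hk, h6⟩ := ht'
        rw [mem_Icc] at hk
        refine ⟨h5, k, mem_Icc.2 hk, ?_⟩
        rcases h6 with h6 | h6
        · exact Or.inl (h6.trans (em_mono (d.mvrow t i j h hij hjM s hs x ρ ρ' hρ' ⟨ω, h4⟩ k (by omega) hk.2) ω))
        · exact Or.inr (h6.trans (d.mvfa t i j h hij hjM s hs x ρ ρ' hρ' ⟨ω, h4⟩ t' k h5.1 hk.1 hk.2 ω))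
      have hpt := d.pot_early t i j h hij hjM s hs x ρ ρ' hρ' ω h4 hω.1 h3
      have hins : hM p w fa pot t j ρ' ∅ ω ≤ hM p w fa pot t j ρ' {s} (R s (cel s ρ) η ω) := by
        have := hM_insert (p := p) (t := t) d.one_le (notMem_empty s)
          (sl_sub d.b_nonneg (insert_subset_insert s (empty_subset (S s i))) slack)
          (d.oscS t i j h hij hjM s hs (cel s ρ) ρ' hρ' ω hω.1 η hη)
        rwa [insert_empty_eq] at this
      have hfac : ∏ u ∈ S s i, fac (T ∅ u (cel u ρ')) c ω ≤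
          ∏ u ∈ S s i, fac (T {s} u (cel u ρ')) c (R s (cel s ρ) η ω) :=
        prod_le_prod (fun _ _ => zero_le) fun v hv => Lt87.fac_mono c fun h8 =>
          d.stepS t i h s hs (cel s ρ) ρ' hρ' v hv ω hω.1 η hη h8
      rw [hg]
      simp only
      rw [Set.indicator_of_mem hB, Pi.one_apply, mul_one]
      unfold hM at hins
      unfold hM
      simp only [sum_empty, add_zero] at hins
      unfold fct
      calc p.θ ^ (j + p.m2 + 1 - t) * (p.θ ^ cnt p w fa (j + p.m2) (t - 1) (p.sl (t - 1)) x ω *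
            pot (t - 1) (p.sl (t - 1)) x ω)
          ≤ p.θ ^ (j + p.m2 + 1 - t) * (p.θ ^ cnt p w fa (j + p.m2) (j + p.m2) (p.sl (t - 1)) ρ' ω *
            (p.θ ^ q0 * (1 + c)⁻¹ ^ ((s - p.st t i) + (j - i)) *
              ((∏ u ∈ S s i, fac (T ∅ u (cel u ρ')) c ω) * pot (j + p.m2) (p.sl (t - 1)) ρ' ω))) :=
            mul_le_mul' le_rfl (mul_le_mul' (pow_le_pow_right₀ d.one_le hcnt) hpt)
        _ = Q0 * ((p.θ ^ cnt p w fa (j + p.m2) (j + p.m2) (p.sl (t - 1)) ρ' ω *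
              pot (j + p.m2) (p.sl (t - 1)) ρ' ω) * ∏ u ∈ S s i, fac (T ∅ u (cel u ρ')) c ω) := by rw [hQ0]; ring
        _ ≤ _ := mul_le_mul' le_rfl (mul_le_mul' hins hfac))
    (d.M3A t i h s hs κ)
  refine hcls.trans ?_
  rw [mul_assoc (C1 * Q0), mul_sum (s := nb s κ) (a := (1 + c)⁻¹ ^ (S s i).card)]
  refine mul_le_mul' le_rfl (sum_le_sum fun ρ hρ => ?_)
  -- the hazard after the move
  have hne : ∀ u ∈ S s i, u ≠ s := fun u hu => (hsub u hu).1.ne'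
  set R' : ℕ → Ω → Ω → Ω := Function.update (fun v => R v (cel v ρ)) s (R s κ) with hR'
  set T' : Finset ℕ → ℕ → Set Ω := fun A => Function.update (fun v => T A v (cel v ρ)) s (T A s κ) with hT'
  set Tt' : ℕ → Set Ω := Function.update (fun v => Tt v (cel v ρ)) s (Tt s κ) with hTt'
  set L' : ℕ → Set Ω := Function.update (fun v => L v (cel v ρ)) s (L s κ) with hL'
  have eR : ∀ u ∈ S s i, R' u = R u (cel u ρ) := fun u hu => Function.update_of_ne (hne u hu) _ _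
  have eT : ∀ A, ∀ u ∈ S s i, T' A u = T A u (cel u ρ) := fun A u hu => Function.update_of_ne (hne u hu) _ _
  have eTt : ∀ u ∈ S s i, Tt' u = Tt u (cel u ρ) := fun u hu => Function.update_of_ne (hne u hu) _ _
  have eL : ∀ u ∈ S s i, L' u = L u (cel u ρ) := fun u hu => Function.update_of_ne (hne u hu) _ _
  have eRs : R' s = R s κ := Function.update_self _ _ _
  have eTs : ∀ A, T' A s = T A s κ := fun A => Function.update_self _ _ _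
  have eTts : Tt' s = Tt s κ := Function.update_self _ _ _
  have eLs : L' s = L s κ := Function.update_self _ _ _
  have eN : (fun v => Tt' v ∪ L' v) =
      Function.update (fun v => Tt v (cel v ρ) ∪ L v (cel v ρ)) s (Tt s κ ∪ L s κ) := by
    funext v
    by_cases hv : v = s
    · subst hv
      rw [Function.update_self, eTts, eLs]
    · rw [Function.update_of_ne hv, hTt', hL', Function.update_of_ne hv, Function.update_of_ne hv]
  have hit : Lt87.HitH P R' T' Tt' L' (S s i) (insert s (S s i)) H := by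
    refine ⟨subset_insert _ _, fun A u hu => ?_, fun A u hu => ?_, fun {A B} hAB u hu => ?_,
      fun A u hu hA v hv huv ω hω η hη hv' => ?_,
      fun u hu ω hω η hη ω₁ h1 h2 ω₂ h3 h4 => ?_⟩
    · rcases mem_insert.1 hu with h1 | h1
      · rw [h1, eRs, eTs, eLs]; exact d.slab A s κ
      · rw [eR u h1, eT A u h1, eL u h1]; exact d.slab A u _
    · rcases mem_insert.1 hu with h1 | h1
      · rw [h1, eTs, eTts]; exact d.Tsub A s κ
      · rw [eT A u h1, eTt u h1]; exact d.Tsub A u _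
    · rcases mem_insert.1 hu with h1 | h1
      · rw [h1, eTs, eTs]; exact d.Tmono hAB s κ
      · rw [eT A u h1, eT B u h1]; exact d.Tmono hAB u _
    · rw [eT A u hu] at hω
      rw [eR u hu, eL u hu] at hη
      rw [eT A v hv] at hv'
      rw [eT _ v hv, eR u hu]
      exact d.stepT t i h s hs ρ A u hu hA v hv huv ω hω η hη hv'
    · rw [eN] at h2 h4
      rw [eTt u hu] at hω
      rw [eR u hu] at hη h4
      rw [eL u hu] at hη
      exact d.exclE t i h s hs κ ρ hρ u hu ω hω η hη ω₁ h1 h2 ω₂ h3 h4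
  have hsS' : s ∉ S s i := fun h => lt_irrefl _ (hsub s h).1
  have e5 : ∀ ω, ∏ u ∈ S s i, fac (T {s} u (cel u ρ)) c ω = ∏ u ∈ S s i, fac (T' {s} u) c ω := fun ω =>
    prod_congr rfl fun u hu => by rw [eT _ u hu]
  have hTs : T ∅ s κ ⊆ Tt s κ := d.Tsub ∅ s κ
  have key := hit.late d.c_top (d.mw ρ)
    (fun u hu ω => by
      rw [eTt u hu, eL u hu, eR u hu]
      exact d.cmpA t i h u (hsub u hu).2 ρ ω)
    (h := fun A ω => hM p w fa pot t j ρ A ω) (fun A => mhM d.mw d.mfa d.mpot t j ρ _)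
    (fun u _ A ω => hM_mono d.one_le d.dk_anti d.fa_mono d.pot_mono d.b_nonneg t j ρ (subset_insert u A) ω)
    (A₀ := {s}) (fun u hu A hA hA' ω hω η hη => by
      rw [eTt u hu] at hω
      rw [eR u hu, eL u hu] at hη
      rw [eR u hu]
      exact hM_insert d.one_le hA (sl_sub d.b_nonneg (by rwa [← insert_eq] at hA') slack)
        (d.oscT t i j h hij hjM u (hsub u hu).2 ρ ω hω η hη)) mB₁
    (fun u hu ω hω => by
      rcases Lt87.ext_hit hω with h1 | ⟨h1, η, h2⟩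
      · exact ⟨ω, h1, Lt87.Reach.refl⟩
      · refine ⟨_, h2.2, Lt87.Reach.step η (hsub u hu).1 (mem_insert_self _ _) ?_ ?_ ?_⟩
        · show ω ∈ Tt' s ∪ L' s
          rw [eTts, eLs]; exact Set.union_subset_union_left _ hTs h1
        · show R' s η ω ∈ Tt' s ∪ L' s
          rw [eTts, eLs, eRs]; exact Set.union_subset_union_left _ hTs h2.1
        · rw [eRs]; exact Lt87.Reach.refl)
    (disjoint_singleton_left.2 hsS')
  refine inv_pow_mul_le d.c_top ?_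
  have e6 : ∫⁻ ω, w ρ ω * g ρ ω ∂P = ∫⁻ ω, w ρ ω * (hM p w fa pot t j ρ {s} ω * B₁.indicator 1 ω *
      ∏ u ∈ S s i, fac (T' {s} u) c ω) ∂P := by
    refine lintegral_congr fun ω => ?_
    rw [hg]
    simp only
    rw [e5]
  rw [e6]
  refine key.trans (lintegral_mono fun ω => mul_le_mul' le_rfl ?_)
  rw [← insert_eq]
  exact hM_le_gM d.one_le d.dk_anti d.fa_mono d.pot_mono slack ω

/-- THE CONTACT MOVES, fixed `i ≤ j`. -/
theorem earlyIJ [SFinite P] (d : MoveC P p w fa pot rl cel R T Tt L nb low S τ0 q0 m1 n1 C' c C1 Ast δ3) {t i j : ℕ}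
    (h : p.rg τ0 t i) (hij : i ≤ j) (hjM : j ≤ p.M) :
    ∑ ρ, ∫⁻ ω, ∑ x, w x ω * eaJ p w fa pot rl t i j x ρ ω ∂P ≤
      Q p.θ p.m2 q0 m1 C' C1 Ast * ((j - t : ℕ) + 1) ^ (n1 + 1) * p.θ⁻¹ ^ (j - t) *
        ∑ x, ∫⁻ ω, w x ω * gM p w fa pot (j + p.m2) x ω ∂P := by
  classical
  obtain ⟨h1, h2, h3⟩ := h
  have h : p.rg τ0 t i := ⟨h1, h2, h3⟩
  have h5 := d.st_ge t i h
  have h5' := d.st_lt t i h
  set A := p.θ ^ (j + p.m2 + 1 - t) * p.θ ^ q0 with hA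
  have mF : ∀ ρ, Measurable fun ω => ∑ x, w x ω * eaJ p w fa pot rl t i j x ρ ω := fun ρ =>
    Finset.measurable_sum _ fun x _ => (d.mw x).mul (meaJ d.mw d.mfa d.mpot d.mrl t i j x ρ)
  have key := moved0 (P := P) (t := p.st t i) (k := i) (cel := cel) (N := fun s κ => T ∅ s κ ∪ L s κ)
    (nb := nb) (F := fun ρ ω => ∑ x, w x ω * eaJ p w fa pot rl t i j x ρ ω)
    (v := fun x => ∫⁻ ω, w x ω * gM p w fa pot (j + p.m2) x ω ∂P)
    (q := fun s => C1 * (p.θ ^ (j + p.m2 + 1 - t) * (p.θ ^ q0 * (1 + c)⁻¹ ^ ((s - p.st t i) + (j - i)))) *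
      (1 + c)⁻¹ ^ (S s i).card)
    (zn := A * (1 + c)⁻¹ ^ ((i - p.st t i) + (j - i))) (C' := C')
    (fun s κ => (d.slab ∅ s κ).mT.union (d.slab ∅ s κ).mL)
    mF d.mult (fun s hs κ => d.cell h hij hjM hs κ)
    (by
      -- nothing good between `st` and `i`
      have mG : ∀ ρ, MeasurableSet {ω | ∀ u ∈ Ico (p.st t i) i, ω ∉ T ∅ u (cel u ρ) ∪ L u (cel u ρ)} := fun ρ => by
        have e : {ω | ∀ u ∈ Ico (p.st t i) i, ω ∉ T ∅ u (cel u ρ) ∪ L u (cel u ρ)} =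
            ⋂ u ∈ Ico (p.st t i) i, (T ∅ u (cel u ρ) ∪ L u (cel u ρ))ᶜ := by
          ext ω; simp only [Set.mem_iInter, Set.mem_compl_iff]; rfl
        rw [e]
        exact Finset.measurableSet_biInter _ fun u _ => ((d.slab ∅ u _).mT.union (d.slab ∅ u _).mL).compl
      calc ∑ ρ, ∫⁻ ω in {ω | ∀ u ∈ Ico (p.st t i) i, ω ∉ T ∅ u (cel u ρ) ∪ L u (cel u ρ)},
            ∑ x, w x ω * eaJ p w fa pot rl t i j x ρ ω ∂P
          = ∫⁻ ω, ∑ ρ, {ω | ∀ u ∈ Ico (p.st t i) i, ω ∉ T ∅ u (cel u ρ) ∪ L u (cel u ρ)}.indicator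
              (fun ω => ∑ x, w x ω * eaJ p w fa pot rl t i j x ρ ω) ω ∂P := by
            rw [lintegral_finsetSum _ fun ρ _ => (mF ρ).indicator (mG ρ)]
            exact sum_congr rfl fun ρ _ => (lintegral_indicator (mG ρ) _).symm
        _ ≤ ∫⁻ ω, ∑ x, (A * (1 + c)⁻¹ ^ ((i - p.st t i) + (j - i))) * (w x ω * gM p w fa pot (j + p.m2) x ω) ∂P := by
            refine lintegral_mono fun ω => ?_
            calc ∑ ρ, {ω | ∀ u ∈ Ico (p.st t i) i, ω ∉ T ∅ u (cel u ρ) ∪ L u (cel u ρ)}.indicator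
                  (fun ω => ∑ x, w x ω * eaJ p w fa pot rl t i j x ρ ω) ω
                ≤ ∑ ρ, ∑ x, w x ω * (nu p w t i x ρ ω *
                    ((A * (1 + c)⁻¹ ^ ((i - p.st t i) + (j - i))) * gM p w fa pot (j + p.m2) x ω)) := by
                  refine sum_le_sum fun ρ _ => ?_
                  by_cases h6 : ω ∈ {ω | ∀ u ∈ Ico (p.st t i) i, ω ∉ T ∅ u (cel u ρ) ∪ L u (cel u ρ)}
                  · rw [Set.indicator_of_mem h6]
                    refine sum_le_sum fun x _ => mul_le_mul' le_rfl ?_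
                    unfold eaJ
                    split_ifs with h7
                    · refine mul_le_mul' le_rfl ?_
                      unfold fct gM
                      have h8 := d.pot_none t i j h hij hjM x ρ ω h7.2.2 h6
                      have h9 : cnt p w fa (j + p.m2) (t - 1) (p.sl (t - 1)) x ω ≤
                          cnt p w fa (j + p.m2) (j + p.m2) (p.sl (j + p.m2)) x ω :=
                        cnt_mono d.dk_anti d.fa_mono (by omega) (d.sl_mono (by omega)) x ω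
                      have h10 : pot (j + p.m2) (p.sl (t - 1)) x ω ≤ pot (j + p.m2) (p.sl (j + p.m2)) x ω :=
                        d.pot_mono _ _ _ _ _ _ le_rfl (d.sl_mono (by omega))
                      calc _ ≤ p.θ ^ (j + p.m2 + 1 - t) * (p.θ ^ cnt p w fa (j + p.m2) (j + p.m2)
                            (p.sl (j + p.m2)) x ω * (p.θ ^ q0 * ((1 + c)⁻¹ ^ ((i - p.st t i) + (j - i)) *
                              pot (j + p.m2) (p.sl (j + p.m2)) x ω))) := by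
                            refine mul_le_mul' le_rfl (mul_le_mul' (pow_le_pow_right₀ d.one_le h9)
                              (h8.trans ?_))
                            exact mul_le_mul' le_rfl (mul_le_mul' le_rfl h10)
                        _ = _ := by rw [hA]; ring
                    · exact zero_le
                  · rw [Set.indicator_of_notMem h6]; exact zero_le
              _ = ∑ x, (∑ ρ, nu p w t i x ρ ω) *
                    ((A * (1 + c)⁻¹ ^ ((i - p.st t i) + (j - i))) * (w x ω * gM p w fa pot (j + p.m2) x ω)) := by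
                  rw [sum_comm]
                  refine sum_congr rfl fun x _ => ?_
                  rw [sum_mul]
                  exact sum_congr rfl fun ρ _ => by ring
              _ ≤ _ := by
                  refine sum_le_sum fun x _ => ?_
                  calc _ ≤ 1 * _ := mul_le_mul' (nu_le_one t i x ω) le_rfl
                    _ = _ := one_mul _
        _ = A * (1 + c)⁻¹ ^ ((i - p.st t i) + (j - i)) * ∑ x, ∫⁻ ω, w x ω * gM p w fa pot (j + p.m2) x ω ∂P := by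
            have mg : ∀ x, Measurable fun ω => w x ω * gM p w fa pot (j + p.m2) x ω := fun x =>
              (d.mw x).mul (mgM d.mw d.mfa d.mpot _ x)
            rw [lintegral_finsetSum _ fun x _ => (mg x).const_mul _, mul_sum]
            exact sum_congr rfl fun x _ => lintegral_const_mul _ (mg x))
  refine key.trans (mul_le_mul' ?_ le_rfl)
  -- the numbers
  set B := p.θ ^ (p.m2 + 1 + q0 + 2 * m1) * Ast * ((j - t : ℕ) + 1) ^ n1 * p.θ⁻¹ ^ (j - t) with hB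
  have hs : ∀ s ∈ Ico (p.st t i) i, C1 * (p.θ ^ (j + p.m2 + 1 - t) *
      (p.θ ^ q0 * (1 + c)⁻¹ ^ ((s - p.st t i) + (j - i)))) * (1 + c)⁻¹ ^ (S s i).card * C' ≤ C1 * C' * B := by
    intro s hs
    rw [mem_Ico] at hs
    have h6 := d.card_S s i (by omega) hs.2 h3
    calc _ = C1 * C' * (p.θ ^ (j + p.m2 + 1 - t) * p.θ ^ q0 *
          (1 + c)⁻¹ ^ (((s - p.st t i) + (j - i)) + (S s i).card)) := by
          rw [pow_add (1 + c)⁻¹ ((s - p.st t i) + (j - i)) (S s i).card]; ring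
      _ ≤ _ := mul_le_mul' le_rfl (d.pow_le h hij (by omega))
  have hcard : ((Ico (p.st t i) i).card : ℝ≥0∞) ≤ (j - t : ℕ) + 1 := by
    rw [Nat.card_Ico]
    have : (i - p.st t i : ℕ) ≤ (j - t) + 1 := by omega
    exact_mod_cast this
  have hone : (1 : ℝ≥0∞) ≤ (j - t : ℕ) + 1 := le_add_self
  calc _ ≤ ∑ _s ∈ Ico (p.st t i) i, C1 * C' * B + B := by
        refine add_le_add (sum_le_sum hs) (d.pow_le h hij (by omega))
    _ = (Ico (p.st t i) i).card * (C1 * C' * B) + B := by rw [sum_const, nsmul_eq_mul]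
    _ ≤ ((j - t : ℕ) + 1) * (C1 * C' * B) + ((j - t : ℕ) + 1) * B := by
        refine add_le_add (mul_le_mul' hcard le_rfl) ?_
        calc B = 1 * B := (one_mul _).symm
          _ ≤ _ := mul_le_mul' hone le_rfl
    _ = _ := by unfold Q; rw [hB, pow_succ]; ring

/-- THE CONTACT MOVES. -/
theorem early [SFinite P] (d : MoveC P p w fa pot rl cel R T Tt L nb low S τ0 q0 m1 n1 C' c C1 Ast δ3) {t j : ℕ}
    (h : p.rg τ0 t j) :
    ∑ ρ, ∫⁻ ω, ∑ x, w x ω * ∑ i ∈ Icc (t + p.m0) j, eaJ p w fa pot rl t i j x ρ ω ∂P ≤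
      Q p.θ p.m2 q0 m1 C' C1 Ast * ((j - t : ℕ) + 1) ^ (n1 + 2) * p.θ⁻¹ ^ (j - t) *
        ∑ x, ∫⁻ ω, w x ω * gM p w fa pot (j + p.m2) x ω ∂P := by
  classical
  obtain ⟨h1, h2, h3⟩ := h
  set V := ∑ x, ∫⁻ ω, w x ω * gM p w fa pot (j + p.m2) x ω ∂P with hV
  have mF : ∀ ρ i, Measurable fun ω => ∑ x, w x ω * eaJ p w fa pot rl t i j x ρ ω := fun ρ i =>
    Finset.measurable_sum _ fun x _ => (d.mw x).mul (meaJ d.mw d.mfa d.mpot d.mrl t i j x ρ)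
  have e : ∀ ρ, ∫⁻ ω, ∑ x, w x ω * ∑ i ∈ Icc (t + p.m0) j, eaJ p w fa pot rl t i j x ρ ω ∂P =
      ∑ i ∈ Icc (t + p.m0) j, ∫⁻ ω, ∑ x, w x ω * eaJ p w fa pot rl t i j x ρ ω ∂P := by
    intro ρ
    rw [← lintegral_finsetSum _ fun i _ => mF ρ i]
    refine lintegral_congr fun ω => ?_
    simp_rw [mul_sum]
    exact sum_comm
  rw [sum_congr rfl fun ρ _ => e ρ, sum_comm]
  have hcard : ((Icc (t + p.m0) j).card : ℝ≥0∞) ≤ (j - t : ℕ) + 1 := by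
    rw [Nat.card_Icc]
    have : (j + 1 - (t + p.m0) : ℕ) ≤ (j - t) + 1 := by omega
    exact_mod_cast this
  calc ∑ i ∈ Icc (t + p.m0) j, ∑ ρ, ∫⁻ ω, ∑ x, w x ω * eaJ p w fa pot rl t i j x ρ ω ∂P
      ≤ ∑ _i ∈ Icc (t + p.m0) j, Q p.θ p.m2 q0 m1 C' C1 Ast * ((j - t : ℕ) + 1) ^ (n1 + 1) * p.θ⁻¹ ^ (j - t) * V := by
        refine sum_le_sum fun i hi => ?_
        rw [mem_Icc] at hi
        exact d.earlyIJ ⟨h1, hi.1, by omega⟩ hi.2 h3
    _ = (Icc (t + p.m0) j).card * (Q p.θ p.m2 q0 m1 C' C1 Ast * ((j - t : ℕ) + 1) ^ (n1 + 1) *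
          p.θ⁻¹ ^ (j - t) * V) := by rw [sum_const, nsmul_eq_mul]
    _ ≤ ((j - t : ℕ) + 1) * (Q p.θ p.m2 q0 m1 C' C1 Ast * ((j - t : ℕ) + 1) ^ (n1 + 1) *
          p.θ⁻¹ ^ (j - t) * V) := mul_le_mul' hcard le_rfl
    _ = _ := by ring

/-- ALL TOGETHER. -/
theorem ren [IsProbabilityMeasure P]
    (d : MoveC P p w fa pot rl cel R T Tt L nb low S τ0 q0 m1 n1 C' c C1 Ast δ3) :
    RenData P τ0 p.M p.m0 p.m2 w 2
      (fun l => Q p.θ p.m2 q0 m1 C' C1 Ast * (l + 1) ^ (n1 + 2) * p.θ⁻¹ ^ l)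
      (gM p w fa pot) (erJ p w fa rl) (laM p w fa pot)
      (fun t j x ρ ω => ∑ i ∈ Icc (t + p.m0) j, eaJ p w fa pot rl t i j x ρ ω) where
  mw := d.mw
  mer := fun τ x => merJ d.mw d.mfa d.mrl τ x
  mla := fun t i x => mlaM d.mw d.mfa d.mpot t i x
  mea := fun t j x ρ => Finset.measurable_sum _ fun i _ => meaJ d.mw d.mfa d.mpot d.mrl t i j x ρ
  er_le := fun τ hτ => er_leJ d.mw d.mfa d.mrl d.sum_w d.hdl d.relbad d.num τ hτ
  dec := fun τ x ω _ => decJ d.one_le d.dk_anti d.fa_mono d.sl_mono d.pot_le d.pot_mono d.sum_w τ x ω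
  late_le := fun _ _ x h1 h2 h3 => d.late ⟨h1, h2, h3⟩ x
  early_le := fun _ _ h1 h2 h3 => d.early ⟨h1, h2, h3⟩

end MoveC

/-- THE SEPARATION. The bad event of `x`: at least `a ≥ d M` scales `> τ0` are covered, and the potential is at least
`θ ^ (- 2 b)` with `b ≤ d M / 8`. -/
theorem sepC {θ d : ℝ} {C1 Ast : ℝ≥0∞} (m2 q0 m1 n1 C' : ℕ) (hθ : 1 < θ) (hd : 0 < d) (hC1 : C1 ≠ ⊤)
    (hAst : Ast ≠ ⊤) :
    ∃ m0 : ℕ, ∀ {Ω X : Type*} [MeasurableSpace Ω] [Fintype X] {P : Measure Ω} [IsProbabilityMeasure P] {p : Par X}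
      {w : X → Ω → ℝ≥0∞} {fa : ℕ → ℕ → ℕ → X → Ω → ℝ≥0∞} {pot : ℕ → ℝ → X → Ω → ℝ≥0∞}
      {rl : ℕ → ℕ → X → X → Set Ω} {K : ℕ → Type*} [∀ u, Fintype (K u)] {cel : ∀ u, X → K u}
      {R : ∀ u, K u → Ω → Ω → Ω} {T : Finset ℕ → ∀ u, K u → Set Ω} {Tt L : ∀ u, K u → Set Ω}
      {nb : ∀ s, K s → Finset X} {low : ∀ s, K s → ℤ} {S : ℕ → ℕ → Finset ℕ} {τ0 : ℕ} {c δ3 : ℝ≥0∞},
      MoveC P p w fa pot rl cel R T Tt L nb low S τ0 q0 m1 n1 C' c C1 Ast δ3 →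
      p.θ = ENNReal.ofReal θ → p.m2 = m2 → m0 ≤ p.m0 → ∀ {a b : ℕ}, d * p.M ≤ a → b ≤ d * p.M / 8 →
      ∑ x, ∫⁻ ω in {ω | a ≤ cnt p w fa τ0 τ0 (p.sl τ0) x ω ∧
        (ENNReal.ofReal θ ^ 2)⁻¹ ^ b ≤ pot τ0 (p.sl τ0) x ω}, w x ω ∂P ≤
          2 * ENNReal.ofReal (θ ^ (-(d / 2) * p.M)) := by
  have hQ : MoveC.Q (ENNReal.ofReal θ) m2 q0 m1 C' C1 Ast ≠ ⊤ := by
    unfold MoveC.Q
    finiteness
  obtain ⟨m0, hm0⟩ := RenData.sep (n1 + 2) hθ hd hQ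
  refine ⟨m0, fun {Ω X} _ _ P _ p w fa pot rl K _ cel R T Tt L nb low S τ0 c δ3 D h1 h2 h3 a b ha hb => ?_⟩
  have hr := D.ren
  rw [h1] at hr
  subst h2
  have hone : 1 ≤ ENNReal.ofReal θ := by rw [← h1]; exact D.one_le
  refine hm0 p.m0 h3 hr (B := fun x => {ω | a ≤ cnt p w fa τ0 τ0 (p.sl τ0) x ω ∧
        (ENNReal.ofReal θ ^ 2)⁻¹ ^ b ≤ pot τ0 (p.sl τ0) x ω}) (fun x => ?_) ha hb (fun x ω hω => ?_)
  · exact (measurableSet_le measurable_const (mcnt D.mw D.mfa _ _ _ x)).inter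
      (measurableSet_le measurable_const (D.mpot _ _ x))
  · unfold gM
    rw [h1]
    exact mul_le_mul' (pow_le_pow_right₀ hone hω.1) hω.2

end Pool.Agent.W_7d29a1_C1.H49
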