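import Pool.Agent.W_7d29a1_C1.SkelM49

/-!
Both halves (MP_7d29a1_pr), attractor route: MOVE THE CONTACT, the final statement: from the comparison of one cell (M3),
the hazard in product form and the potential to the separation. (helper49)
-/

set_option autoImplicit false

namespace Pool.Agent.W_7d29a1_C1.H49

open MeasureTheory Finset
open scoped ENNReal

/-- The cell `κ` contains a site with enough mass and enough later mass. -/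
def Hs {Ω X : Type*} [Fintype X] (p : Par X) (w : X → Ω → ℝ≥0∞) {K : ℕ → Type*} (cel : ∀ u, X → K u) (t i s : ℕ)
    (κ : K s) : Set Ω :=
  {ω | ∃ ρ, cel s ρ = κ ∧ ex (-p.be t i) ≤ w ρ ω ∧ p.κ3 ≤ lm p.row w (p.dl i) ρ ω}

/-- The site `x` has enough mass and a far alternative. -/
def Hf {Ω X : Type*} (p : Par X) (w : X → Ω → ℝ≥0∞) (fa : ℕ → ℕ → ℕ → X → Ω → ℝ≥0∞) (t i : ℕ) (x : X) :
    Set Ω :=
  {ω | ex (-(p.th t i + p.sl (t - 1))) ≤ fa t i (t - 1) x ω ∧ ex (-p.be t i) ≤ w x ω}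

/-- The range of the scales. -/
def Par.rg {X : Type*} (p : Par X) (τ0 t i : ℕ) : Prop := τ0 < t ∧ t + p.m0 ≤ i ∧ i ≤ p.M

open Classical in
/-- THE DATA OF THE SEPARATION. -/
structure MoveD {Ω X : Type*} [MeasurableSpace Ω] [Fintype X] (P : Measure Ω) (p : Par X) (w : X → Ω → ℝ≥0∞)
    (fa : ℕ → ℕ → ℕ → X → Ω → ℝ≥0∞) (pot : ℕ → ℝ → X → Ω → ℝ≥0∞) {K : ℕ → Type*} [∀ u, Fintype (K u)]
    (cel : ∀ u, X → K u) (R : ∀ u, K u → Ω → Ω → Ω) (T L : ∀ u, K u → Set Ω) (nb : ∀ s, K s → Finset X)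
    (low : ∀ s, K s → ℤ) (S : ℕ → ℕ → Finset ℕ) (τ0 q0 m1 n1 C' : ℕ) (c C1 pl Cz Ast δ3 : ℝ≥0∞) : Prop where
  mw : ∀ x, Measurable (w x)
  mfa : ∀ t k τ x, Measurable (fa t k τ x)
  mpot : ∀ τ σ x, Measurable (pot τ σ x)
  mR : ∀ s κ, Measurable fun x : Ω × Ω => R s κ x.1 x.2
  mT : ∀ s κ, MeasurableSet (T s κ)
  mL : ∀ s κ, MeasurableSet (L s κ)
  sum_w : ∀ ω, ∑ x, w x ω ≤ 1
  dk_anti : ∀ k τ τ', τ ≤ τ' → p.dk k τ' ≤ p.dk k τ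
  fa_mono : ∀ t k τ τ' x ω, τ ≤ τ' → fa t k τ x ω ≤ fa t k τ' x ω
  sl_mono : Monotone p.sl
  pot_le : ∀ τ σ x ω, pot τ σ x ω ≤ 1
  pot_mono : ∀ τ τ' σ σ' x ω, τ ≤ τ' → σ ≤ σ' → pot τ σ x ω ≤ pot τ' σ' x ω
  one_le : 1 ≤ p.θ
  θ_top : p.θ ≠ ⊤
  c_eq : 1 + c = p.θ ^ 2
  pl_pos : pl ≠ 0
  pl_top : pl ≠ ⊤
  st_pow : ∀ t i, p.rg τ0 t i → p.θ ^ (2 * (p.st t i - t)) ≤ Ast * ((i - t : ℕ) + 1) ^ n1
  st_ge : ∀ t i, p.rg τ0 t i → t ≤ p.st t i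
  st_le : ∀ t i, p.rg τ0 t i → p.st t i ≤ i
  card_S : ∀ s i, τ0 < s → s ≤ i → i ≤ p.M → i ≤ s + (S s i).card + m1
  hdl : ∀ t i, p.rg τ0 t i → p.dl i ≤ p.dk i (t - 1)
  relbad : ∀ t i, p.rg τ0 t i → ∑ x, ∫⁻ ω, w x ω * rb p w fa t i x ω ∂P ≤ δ3
  num : p.θ ^ p.M * ∑ t ∈ Ioc τ0 p.M, ∑ i ∈ Icc (t + p.m0) p.M, (Fintype.card X * ex (-p.be t i) +
    Fintype.card X * ex (-p.be t i) * ex (p.th t i + p.sl (t - 1)) + p.κ3 + δ3) ≤ 1
  mult : ∀ s x, ∀ A : Finset (K s), (∀ κ ∈ A, x ∈ nb s κ) → A.card ≤ C'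
  prob : ∀ s, τ0 < s → s < p.M → ∀ κ, ∀ ω ∈ T s κ ∪ L s κ, pl ≤ P {η | R s κ η ω ∈ L s κ}
  hlow : ∀ s ρ, low s (cel s ρ) ≤ p.row ρ
  M3 : ∀ t i, p.rg τ0 t i → ∀ s ∈ Ico (p.st t i) i, ∀ κ, ∀ ω ∈ T s κ ∪ L s κ, ∀ η, R s κ η ω ∈ L s κ →
    ex (-p.be t i) ≤ ∑ ρ, (if cel s ρ = κ then w ρ ω else 0) → ∑ ρ, (if cel s ρ = κ then w ρ ω else 0) ≤
      C1 * (∑ ρ ∈ nb s κ, w ρ (R s κ η ω)) *
        (∑ ρ, (if p.row ρ < low s κ then w ρ ω else 0) + ∑ ρ, if cel s ρ = κ then w ρ ω else 0)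
  mvrow : ∀ t i, p.rg τ0 t i → ∀ s ∈ Ico (p.st t i) i, ∀ x ρ, ∀ ρ' ∈ nb s (cel s ρ), p.rel i x ρ →
    ∀ k, i + p.m2 + p.m0 < k → k ≤ p.M → p.row x - p.dk k (t - 1) ≤ p.row ρ' - p.dk k (i + p.m2)
  mvfa : ∀ t i, p.rg τ0 t i → ∀ s ∈ Ico (p.st t i) i, ∀ x ρ, ∀ ρ' ∈ nb s (cel s ρ), p.rel i x ρ →
    ∀ t' k, i + p.m2 < t' → t' + p.m0 ≤ k → k ≤ p.M → ∀ ω, fa t' k (t - 1) x ω ≤ fa t' k (i + p.m2) ρ' ω
  pot_late : ∀ t i, p.rg τ0 t i → ∀ x ω, pot (t - 1) (p.sl (t - 1)) x ω ≤ p.θ ^ q0 *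
    ((∏ u ∈ S (p.st t i) i, fac (T u (cel u x)) c ω) * pot (i + p.m2) (p.sl (t - 1)) x ω)
  pot_none : ∀ t i, p.rg τ0 t i → ∀ x ρ, p.rel i x ρ → ∀ ω,
    (∀ u ∈ Ico (p.st t i) i, ω ∉ T u (cel u ρ) ∪ L u (cel u ρ)) → pot (t - 1) (p.sl (t - 1)) x ω ≤
      p.θ ^ q0 * ((1 + c)⁻¹ ^ (i - p.st t i) * pot (i + p.m2) (p.sl (t - 1)) x ω)
  pot_early : ∀ t i, p.rg τ0 t i → ∀ s ∈ Ico (p.st t i) i, ∀ x ρ, ∀ ρ' ∈ nb s (cel s ρ), p.rel i x ρ →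
    ∀ ω ∈ T s (cel s ρ) ∪ L s (cel s ρ),
    (∀ u ∈ Ico (p.st t i) s, ω ∉ T u (cel u ρ) ∪ L u (cel u ρ)) → pot (t - 1) (p.sl (t - 1)) x ω ≤
      p.θ ^ q0 * (1 + c)⁻¹ ^ (s - p.st t i) *
        ((∏ u ∈ S s i, fac (T u (cel u ρ')) c ω) * pot (i + p.m2) (p.sl (t - 1)) ρ' ω)
  hzF : ∀ t i, p.rg τ0 t i → ∀ x, ∫⁻ ω, w x ω * (hM p w fa pot t i x ∅ ω * (Hf p w fa t i x).indicator 1 ω *
    ∏ u ∈ S (p.st t i) i, fac (T u (cel u x)) c ω) ∂P ≤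
      Cz * (1 + c)⁻¹ ^ (S (p.st t i) i).card * ∫⁻ ω, w x ω * gM p w fa pot (i + p.m2) x ω ∂P
  hzE : ∀ t i, p.rg τ0 t i → ∀ s ∈ Ico (p.st t i) i, ∀ κ : K s, ∀ ρ ∈ nb s κ,
    ∫⁻ ω in T s κ ∪ L s κ, (hM p w fa pot t i ρ ∅ ω * (Hs p w cel t i s κ).indicator 1 ω *
      ∏ u ∈ S s i, fac (T u (cel u ρ)) c ω) * ∫⁻ η, (L s κ).indicator (w ρ) (R s κ η ω) ∂P ∂P ≤
        Cz * (1 + c)⁻¹ ^ (S s i).card * ∫⁻ ω, w ρ ω * gM p w fa pot (i + p.m2) ρ ω ∂P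

namespace MoveD

variable {Ω X : Type*} [MeasurableSpace Ω] [Fintype X] {P : Measure Ω} {p : Par X} {w : X → Ω → ℝ≥0∞}
  {fa : ℕ → ℕ → ℕ → X → Ω → ℝ≥0∞} {pot : ℕ → ℝ → X → Ω → ℝ≥0∞} {K : ℕ → Type*} [∀ u, Fintype (K u)]
  {cel : ∀ u, X → K u} {R : ∀ u, K u → Ω → Ω → Ω} {T L : ∀ u, K u → Set Ω} {nb : ∀ s, K s → Finset X}
  {low : ∀ s, K s → ℤ} {S : ℕ → ℕ → Finset ℕ} {τ0 q0 m1 n1 C' : ℕ} {c C1 pl Cz Ast δ3 : ℝ≥0∞}

theorem mHs (d : MoveD P p w fa pot cel R T L nb low S τ0 q0 m1 n1 C' c C1 pl Cz Ast δ3) (t i s : ℕ) (κ : K s) :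
    MeasurableSet (Hs p w cel t i s κ) := by
  have e : Hs p w cel t i s κ = ⋃ ρ : X, {ω | cel s ρ = κ ∧ ex (-p.be t i) ≤ w ρ ω ∧
      p.κ3 ≤ lm p.row w (p.dl i) ρ ω} := by
    ext ω; simp [Hs]
  rw [e]
  refine MeasurableSet.iUnion fun ρ => ?_
  by_cases h : cel s ρ = κ
  · simp only [h, true_and]
    exact (measurableSet_le measurable_const (d.mw ρ)).inter
      (measurableSet_le measurable_const (measurable_lm d.mw _ _))
  · simp [h]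

theorem mHf (d : MoveD P p w fa pot cel R T L nb low S τ0 q0 m1 n1 C' c C1 pl Cz Ast δ3) (t i : ℕ) (x : X) :
    MeasurableSet (Hf p w fa t i x) :=
  (measurableSet_le measurable_const (d.mfa _ _ _ x)).inter (measurableSet_le measurable_const (d.mw x))

/-- The numbers: `θ ^ l (1 + c) ^ (- k)` when `k` misses only `st t i - t` and `m1` scales. -/
theorem pow_le (d : MoveD P p w fa pot cel R T L nb low S τ0 q0 m1 n1 C' c C1 pl Cz Ast δ3) {t i : ℕ}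
    (h : p.rg τ0 t i) {k : ℕ} (hk : i ≤ p.st t i + k + m1) :
    p.θ ^ (i + p.m2 + 1 - t) * p.θ ^ q0 * (1 + c)⁻¹ ^ k ≤
      p.θ ^ (p.m2 + 1 + q0 + 2 * m1) * Ast * ((i - t : ℕ) + 1) ^ n1 * p.θ⁻¹ ^ (i - t) := by
  have h0 : p.θ ≠ 0 := (zero_lt_one.trans_le d.one_le).ne'
  have hinv : p.θ⁻¹ ≤ 1 := ENNReal.inv_le_one.2 d.one_le
  have hone : p.θ * p.θ⁻¹ = 1 := ENNReal.mul_inv_cancel h0 d.θ_top
  have e1 : (1 + c)⁻¹ = p.θ⁻¹ ^ 2 := by rw [d.c_eq, ENNReal.inv_pow]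
  obtain ⟨h1, h2, h3⟩ := h
  have h4 := d.st_ge t i ⟨h1, h2, h3⟩
  have h5 := d.st_le t i ⟨h1, h2, h3⟩
  have e2 : i + p.m2 + 1 - t = (i - t) + (p.m2 + 1) := by omega
  set l := i - t with hl
  set s := p.st t i - t with hs
  have h6 : 2 * l ≤ 2 * s + 2 * k + 2 * m1 := by omega
  have h7 : p.θ⁻¹ ^ (2 * s + 2 * k + 2 * m1) ≤ p.θ⁻¹ ^ (2 * l) := pow_le_pow_right_of_le_one' hinv h6
  have h8 : p.θ⁻¹ ^ (2 * k) ≤ p.θ ^ (2 * s) * p.θ ^ (2 * m1) * p.θ⁻¹ ^ (2 * l) := by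
    calc p.θ⁻¹ ^ (2 * k) = (p.θ * p.θ⁻¹) ^ (2 * s) * (p.θ * p.θ⁻¹) ^ (2 * m1) * p.θ⁻¹ ^ (2 * k) := by
          rw [hone, one_pow, one_pow, one_mul, one_mul]
      _ = p.θ ^ (2 * s) * p.θ ^ (2 * m1) * p.θ⁻¹ ^ (2 * s + 2 * k + 2 * m1) := by
          rw [mul_pow, mul_pow, pow_add, pow_add]; ring
      _ ≤ _ := mul_le_mul' le_rfl h7
  have h9 : p.θ ^ l * p.θ⁻¹ ^ (2 * l) = p.θ⁻¹ ^ l := by
    rw [two_mul, pow_add, ← mul_assoc, ← mul_pow, hone, one_pow, one_mul]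
  calc p.θ ^ (i + p.m2 + 1 - t) * p.θ ^ q0 * (1 + c)⁻¹ ^ k
      = p.θ ^ (p.m2 + 1 + q0) * p.θ ^ l * p.θ⁻¹ ^ (2 * k) := by
        rw [e2, e1, ← pow_mul, pow_add, pow_add p.θ (p.m2 + 1) q0]; ring
    _ ≤ p.θ ^ (p.m2 + 1 + q0) * p.θ ^ l * (p.θ ^ (2 * s) * p.θ ^ (2 * m1) * p.θ⁻¹ ^ (2 * l)) :=
        mul_le_mul' le_rfl h8
    _ = p.θ ^ (p.m2 + 1 + q0 + 2 * m1) * p.θ ^ (2 * s) * (p.θ ^ l * p.θ⁻¹ ^ (2 * l)) := by
        rw [pow_add p.θ (p.m2 + 1 + q0) (2 * m1)]; ring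
    _ ≤ p.θ ^ (p.m2 + 1 + q0 + 2 * m1) * (Ast * ((l : ℕ) + 1) ^ n1) * (p.θ ^ l * p.θ⁻¹ ^ (2 * l)) := by
        gcongr
        exact d.st_pow t i ⟨h1, h2, h3⟩
    _ = _ := by rw [h9]; ring

/-- The constant of the price. -/
noncomputable def Q (θ : ℝ≥0∞) (m2 q0 m1 C' : ℕ) (C1 pl Cz Ast : ℝ≥0∞) : ℝ≥0∞ :=
  θ ^ (m2 + 1 + q0 + 2 * m1) * Ast * (pl⁻¹ * C1 * C' * Cz + 1 + Cz)

/-- THE CONTACT STAYS. -/
theorem late (d : MoveD P p w fa pot cel R T L nb low S τ0 q0 m1 n1 C' c C1 pl Cz Ast δ3) {t i : ℕ}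
    (h : p.rg τ0 t i) (x : X) : ∫⁻ ω, w x ω * laM p w fa pot t i x ω ∂P ≤
      Q p.θ p.m2 q0 m1 C' C1 pl Cz Ast * ((i - t : ℕ) + 1) ^ (n1 + 1) * p.θ⁻¹ ^ (i - t) *
        ∫⁻ ω, w x ω * gM p w fa pot (i + p.m2) x ω ∂P := by
  classical
  obtain ⟨h1, h2, h3⟩ := h
  have h : p.rg τ0 t i := ⟨h1, h2, h3⟩
  set S' := S (p.st t i) i with hS'
  have h5 := d.st_ge t i h
  have hpt : ∀ ω, laM p w fa pot t i x ω ≤ p.θ ^ (i + p.m2 + 1 - t) * p.θ ^ q0 *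
      (hM p w fa pot t i x ∅ ω * (Hf p w fa t i x).indicator 1 ω * ∏ u ∈ S', fac (T u (cel u x)) c ω) := by
    intro ω
    unfold laM
    split_ifs with hc
    · have h6 : ω ∈ Hf p w fa t i x := hc.2
      rw [Set.indicator_of_mem h6]
      unfold fct hM
      simp only [sum_empty, add_zero, Pi.one_apply, mul_one]
      have h7 : cnt p w fa (i + p.m2) (t - 1) (p.sl (t - 1)) x ω ≤
          cnt p w fa (i + p.m2) (i + p.m2) (p.sl (t - 1)) x ω :=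
        cnt_mono d.dk_anti d.fa_mono (by omega) le_rfl x ω
      calc _ ≤ p.θ ^ (i + p.m2 + 1 - t) * (p.θ ^ cnt p w fa (i + p.m2) (i + p.m2) (p.sl (t - 1)) x ω *
            (p.θ ^ q0 * ((∏ u ∈ S', fac (T u (cel u x)) c ω) * pot (i + p.m2) (p.sl (t - 1)) x ω))) :=
            mul_le_mul' le_rfl (mul_le_mul' (pow_le_pow_right₀ d.one_le h7) (d.pot_late t i h x ω))
        _ = _ := by ring
    · exact zero_le
  have hcard := d.card_S (p.st t i) i (by omega) (d.st_le t i h) h3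
  calc ∫⁻ ω, w x ω * laM p w fa pot t i x ω ∂P
      ≤ ∫⁻ ω, (p.θ ^ (i + p.m2 + 1 - t) * p.θ ^ q0) * (w x ω * (hM p w fa pot t i x ∅ ω *
          (Hf p w fa t i x).indicator 1 ω * ∏ u ∈ S', fac (T u (cel u x)) c ω)) ∂P := by
        refine lintegral_mono fun ω => ?_
        calc _ ≤ w x ω * _ := mul_le_mul' le_rfl (hpt ω)
          _ = _ := by ring
    _ = (p.θ ^ (i + p.m2 + 1 - t) * p.θ ^ q0) * ∫⁻ ω, w x ω * (hM p w fa pot t i x ∅ ω *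
          (Hf p w fa t i x).indicator 1 ω * ∏ u ∈ S', fac (T u (cel u x)) c ω) ∂P := by
        have mf : ∀ u ∈ S', Measurable (fac (T u (cel u x)) c) := fun u _ => measurable_fac (d.mT u _) c
        exact lintegral_const_mul _ ((d.mw x).mul (((mhM d.mw d.mfa d.mpot t i x ∅).mul
          (measurable_one.indicator (d.mHf t i x))).mul (Finset.measurable_fun_prod _ mf)))
    _ ≤ (p.θ ^ (i + p.m2 + 1 - t) * p.θ ^ q0) * (Cz * (1 + c)⁻¹ ^ S'.card *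
          ∫⁻ ω, w x ω * gM p w fa pot (i + p.m2) x ω ∂P) := mul_le_mul' le_rfl (d.hzF t i h x)
    _ = (p.θ ^ (i + p.m2 + 1 - t) * p.θ ^ q0 * (1 + c)⁻¹ ^ S'.card) * Cz *
          ∫⁻ ω, w x ω * gM p w fa pot (i + p.m2) x ω ∂P := by ring
    _ ≤ (p.θ ^ (p.m2 + 1 + q0 + 2 * m1) * Ast * ((i - t : ℕ) + 1) ^ n1 * p.θ⁻¹ ^ (i - t)) * Cz *
          ∫⁻ ω, w x ω * gM p w fa pot (i + p.m2) x ω ∂P :=
        mul_le_mul' (mul_le_mul' (d.pow_le h (by omega)) le_rfl) le_rfl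
    _ ≤ _ := by
        refine mul_le_mul' ?_ le_rfl
        unfold Q
        calc _ = p.θ ^ (p.m2 + 1 + q0 + 2 * m1) * Ast * Cz * ((i - t : ℕ) + 1) ^ n1 * p.θ⁻¹ ^ (i - t) := by ring
          _ ≤ _ := by
              refine mul_le_mul' (mul_le_mul' (mul_le_mul' le_rfl le_add_self) ?_) le_rfl
              exact pow_le_pow_right₀ le_add_self (Nat.le_succ _)

/-- THE CONTACT MOVES. -/
theorem early [SFinite P] (d : MoveD P p w fa pot cel R T L nb low S τ0 q0 m1 n1 C' c C1 pl Cz Ast δ3) {t i : ℕ}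
    (h : p.rg τ0 t i) : ∑ ρ, ∫⁻ ω, ∑ x, w x ω * eaM p w fa pot t i x ρ ω ∂P ≤
      Q p.θ p.m2 q0 m1 C' C1 pl Cz Ast * ((i - t : ℕ) + 1) ^ (n1 + 1) * p.θ⁻¹ ^ (i - t) *
        ∑ x, ∫⁻ ω, w x ω * gM p w fa pot (i + p.m2) x ω ∂P := by
  classical
  obtain ⟨h1, h2, h3⟩ := h
  have h : p.rg τ0 t i := ⟨h1, h2, h3⟩
  have h5 := d.st_ge t i h
  have h5' := d.st_le t i h
  set A := p.θ ^ (i + p.m2 + 1 - t) * p.θ ^ q0 with hA
  have mF : ∀ ρ, Measurable fun ω => ∑ x, w x ω * eaM p w fa pot t i x ρ ω := fun ρ =>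
    Finset.measurable_sum _ fun x _ => (d.mw x).mul (meaM d.mw d.mfa d.mpot t i x ρ)
  have mh : ∀ s (κ : K s) ρ, Measurable fun ω => hM p w fa pot t i ρ ∅ ω * (Hs p w cel t i s κ).indicator 1 ω *
      ∏ u ∈ S s i, fac (T u (cel u ρ)) c ω := fun s κ ρ =>
    ((mhM d.mw d.mfa d.mpot t i ρ ∅).mul (measurable_one.indicator (d.mHs t i s κ))).mul
      (Finset.measurable_fun_prod _ fun u _ => measurable_fac (d.mT u _) c)
  have key := moved (P := P) (t := p.st t i) (k := i) (cel := cel) (R := R) (N := fun s κ => T s κ ∪ L s κ) (L := L)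
    (w := w) (nb := nb) (F := fun ρ ω => ∑ x, w x ω * eaM p w fa pot t i x ρ ω)
    (g := fun x => gM p w fa pot (i + p.m2) x)
    (hh := fun s κ ρ ω => hM p w fa pot t i ρ ∅ ω * (Hs p w cel t i s κ).indicator 1 ω *
      ∏ u ∈ S s i, fac (T u (cel u ρ)) c ω)
    (q := fun s => C1 * p.θ ^ (i + p.m2 + 1 - t) * p.θ ^ q0 * (1 + c)⁻¹ ^ (s - p.st t i))
    (z := fun s => Cz * (1 + c)⁻¹ ^ (S s i).card) (p := pl)
    (zn := A * (1 + c)⁻¹ ^ (i - p.st t i)) (C' := C') d.mR (fun s κ => (d.mT s κ).union (d.mL s κ)) d.mL d.mw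
    mF mh d.pl_pos d.pl_top d.mult
    (fun s hs κ ω hω => d.prob s (by rw [mem_Ico] at hs; omega) (by rw [mem_Ico] at hs; omega) κ ω hω)
    (fun s hs κ ω hω η hη => by
      refine (early_pt (T := T) (L := L) (S := S) (H := Hs p w cel t i) (nb := nb) (low := low) (C1 := C1)
        (q0 := q0) (c := c) (ω' := R s κ η ω) d.one_le d.sum_w
        (fun ρ hρ => hρ ▸ d.hlow s ρ) (d.M3 t i h s hs κ ω hω η hη)
        (fun x ρ ρ' h6 h7 h8 => ?_) (fun x ρ ρ' h6 h7 h8 t' k h9 h10 h11 => ?_)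
        (fun x ρ ρ' h6 h7 h8 h9 => ?_) (fun ρ h6 h7 h8 => ⟨ρ, h6, h7, h8⟩))
      · subst h7; exact d.mvrow t i h s hs x ρ ρ' h8 h6
      · subst h7; exact d.mvfa t i h s hs x ρ ρ' h8 h6 t' k h9 h10 h11 ω
      · subst h7; exact d.pot_early t i h s hs x ρ ρ' h8 h6 ω hω h9)
    (fun s hs κ ρ hρ => d.hzE t i h s hs κ ρ hρ)
    (by
      -- nothing good between `st` and `i`
      have mG : ∀ ρ, MeasurableSet {ω | ∀ u ∈ Ico (p.st t i) i, ω ∉ T u (cel u ρ) ∪ L u (cel u ρ)} := fun ρ => by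
        have e : {ω | ∀ u ∈ Ico (p.st t i) i, ω ∉ T u (cel u ρ) ∪ L u (cel u ρ)} =
            ⋂ u ∈ Ico (p.st t i) i, (T u (cel u ρ) ∪ L u (cel u ρ))ᶜ := by
          ext ω; simp only [Set.mem_iInter, Set.mem_compl_iff]; rfl
        rw [e]
        exact Finset.measurableSet_biInter _ fun u _ => ((d.mT u _).union (d.mL u _)).compl
      have hnu1 : ∀ x ω, ∑ ρ, nu p w t i x ρ ω ≤ 1 := by
        intro x ω
        have h3 : ∀ ρ, nu p w t i x ρ ω = (if p.row ρ < p.row x - p.dk i (t - 1) then w ρ ω else 0) *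
            (em p.row w (p.dk i (t - 1)) x ω)⁻¹ := by
          intro ρ
          unfold nu
          by_cases h2 : p.row ρ < p.row x - p.dk i (t - 1)
          · rw [if_pos h2, if_pos h2, ENNReal.div_eq_inv_mul, mul_comm]
          · rw [if_neg h2, if_neg h2, zero_mul]
        rw [sum_congr rfl fun ρ _ => h3 ρ, ← sum_mul]
        exact ENNReal.mul_inv_le_one _
      calc ∑ ρ, ∫⁻ ω in {ω | ∀ u ∈ Ico (p.st t i) i, ω ∉ T u (cel u ρ) ∪ L u (cel u ρ)},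
            ∑ x, w x ω * eaM p w fa pot t i x ρ ω ∂P
          = ∫⁻ ω, ∑ ρ, {ω | ∀ u ∈ Ico (p.st t i) i, ω ∉ T u (cel u ρ) ∪ L u (cel u ρ)}.indicator
              (fun ω => ∑ x, w x ω * eaM p w fa pot t i x ρ ω) ω ∂P := by
            rw [lintegral_finsetSum _ fun ρ _ => (mF ρ).indicator (mG ρ)]
            exact sum_congr rfl fun ρ _ => (lintegral_indicator (mG ρ) _).symm
        _ ≤ ∫⁻ ω, ∑ x, (A * (1 + c)⁻¹ ^ (i - p.st t i)) * (w x ω * gM p w fa pot (i + p.m2) x ω) ∂P := by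
            refine lintegral_mono fun ω => ?_
            calc ∑ ρ, {ω | ∀ u ∈ Ico (p.st t i) i, ω ∉ T u (cel u ρ) ∪ L u (cel u ρ)}.indicator
                  (fun ω => ∑ x, w x ω * eaM p w fa pot t i x ρ ω) ω
                ≤ ∑ ρ, ∑ x, w x ω * (nu p w t i x ρ ω *
                    ((A * (1 + c)⁻¹ ^ (i - p.st t i)) * gM p w fa pot (i + p.m2) x ω)) := by
                  refine sum_le_sum fun ρ _ => ?_
                  by_cases h6 : ω ∈ {ω | ∀ u ∈ Ico (p.st t i) i, ω ∉ T u (cel u ρ) ∪ L u (cel u ρ)}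
                  · rw [Set.indicator_of_mem h6]
                    refine sum_le_sum fun x _ => mul_le_mul' le_rfl ?_
                    unfold eaM
                    split_ifs with h7
                    · refine mul_le_mul' le_rfl ?_
                      unfold fct gM
                      have h8 := d.pot_none t i h x ρ h7.2.1 ω h6
                      have h9 : cnt p w fa (i + p.m2) (t - 1) (p.sl (t - 1)) x ω ≤
                          cnt p w fa (i + p.m2) (i + p.m2) (p.sl (i + p.m2)) x ω :=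
                        cnt_mono d.dk_anti d.fa_mono (by omega) (d.sl_mono (by omega)) x ω
                      have h10 : pot (i + p.m2) (p.sl (t - 1)) x ω ≤ pot (i + p.m2) (p.sl (i + p.m2)) x ω :=
                        d.pot_mono _ _ _ _ _ _ le_rfl (d.sl_mono (by omega))
                      calc _ ≤ p.θ ^ (i + p.m2 + 1 - t) * (p.θ ^ cnt p w fa (i + p.m2) (i + p.m2)
                            (p.sl (i + p.m2)) x ω * (p.θ ^ q0 * ((1 + c)⁻¹ ^ (i - p.st t i) *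
                              pot (i + p.m2) (p.sl (i + p.m2)) x ω))) := by
                            refine mul_le_mul' le_rfl (mul_le_mul' (pow_le_pow_right₀ d.one_le h9)
                              (h8.trans ?_))
                            exact mul_le_mul' le_rfl (mul_le_mul' le_rfl h10)
                        _ = _ := by rw [hA]; ring
                    · exact zero_le
                  · rw [Set.indicator_of_notMem h6]; exact zero_le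
              _ = ∑ x, (∑ ρ, nu p w t i x ρ ω) *
                    ((A * (1 + c)⁻¹ ^ (i - p.st t i)) * (w x ω * gM p w fa pot (i + p.m2) x ω)) := by
                  rw [sum_comm]
                  refine sum_congr rfl fun x _ => ?_
                  rw [sum_mul]
                  exact sum_congr rfl fun ρ _ => by ring
              _ ≤ _ := by
                  refine sum_le_sum fun x _ => ?_
                  calc _ ≤ 1 * _ := mul_le_mul' (hnu1 x ω) le_rfl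
                    _ = _ := one_mul _
        _ = A * (1 + c)⁻¹ ^ (i - p.st t i) * ∑ x, ∫⁻ ω, w x ω * gM p w fa pot (i + p.m2) x ω ∂P := by
            have mg : ∀ x, Measurable fun ω => w x ω * gM p w fa pot (i + p.m2) x ω := fun x =>
              (d.mw x).mul (mgM d.mw d.mfa d.mpot _ x)
            rw [lintegral_finsetSum _ fun x _ => (mg x).const_mul _, mul_sum]
            exact sum_congr rfl fun x _ => lintegral_const_mul _ (mg x))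
  refine key.trans (mul_le_mul' ?_ le_rfl)
  -- the numbers
  set B := p.θ ^ (p.m2 + 1 + q0 + 2 * m1) * Ast * ((i - t : ℕ) + 1) ^ n1 * p.θ⁻¹ ^ (i - t) with hB
  have hs : ∀ s ∈ Ico (p.st t i) i, pl⁻¹ * (C1 * p.θ ^ (i + p.m2 + 1 - t) * p.θ ^ q0 *
      (1 + c)⁻¹ ^ (s - p.st t i)) * C' * (Cz * (1 + c)⁻¹ ^ (S s i).card) ≤ pl⁻¹ * C1 * C' * Cz * B := by
    intro s hs
    rw [mem_Ico] at hs
    have h6 := d.card_S s i (by omega) hs.2.le h3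
    calc _ = pl⁻¹ * C1 * C' * Cz * (p.θ ^ (i + p.m2 + 1 - t) * p.θ ^ q0 *
          (1 + c)⁻¹ ^ ((s - p.st t i) + (S s i).card)) := by rw [pow_add (1 + c)⁻¹]; ring
      _ ≤ _ := mul_le_mul' le_rfl (d.pow_le h (by omega))
  have hcard : ((Ico (p.st t i) i).card : ℝ≥0∞) ≤ (i - t : ℕ) + 1 := by
    rw [Nat.card_Ico]
    have : (i - p.st t i : ℕ) ≤ (i - t) + 1 := by omega
    exact_mod_cast this
  have hone : (1 : ℝ≥0∞) ≤ (i - t : ℕ) + 1 := le_add_self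
  calc _ ≤ ∑ _s ∈ Ico (p.st t i) i, pl⁻¹ * C1 * C' * Cz * B + B := by
        refine add_le_add (sum_le_sum hs) (d.pow_le h (by omega))
    _ = (Ico (p.st t i) i).card * (pl⁻¹ * C1 * C' * Cz * B) + B := by rw [sum_const, nsmul_eq_mul]
    _ ≤ ((i - t : ℕ) + 1) * (pl⁻¹ * C1 * C' * Cz * B) + ((i - t : ℕ) + 1) * B := by
        refine add_le_add (mul_le_mul' hcard le_rfl) ?_
        calc B = 1 * B := (one_mul _).symm
          _ ≤ _ := mul_le_mul' hone le_rfl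
    _ = p.θ ^ (p.m2 + 1 + q0 + 2 * m1) * Ast * (pl⁻¹ * C1 * C' * Cz + 1) * ((i - t : ℕ) + 1) ^ (n1 + 1) *
          p.θ⁻¹ ^ (i - t) := by rw [hB, pow_succ]; ring
    _ ≤ _ := by
        unfold Q
        exact mul_le_mul' (mul_le_mul' (mul_le_mul' le_rfl le_self_add) le_rfl) le_rfl

/-- ALL TOGETHER. -/
theorem ren [IsProbabilityMeasure P]
    (d : MoveD P p w fa pot cel R T L nb low S τ0 q0 m1 n1 C' c C1 pl Cz Ast δ3) :
    RenData P τ0 p.M p.m0 p.m2 w 2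
      (fun l => Q p.θ p.m2 q0 m1 C' C1 pl Cz Ast * (l + 1) ^ (n1 + 1) * p.θ⁻¹ ^ l)
      (gM p w fa pot) (erM p w fa) (laM p w fa pot) (eaM p w fa pot) where
  mw := d.mw
  mer := fun τ x => merM d.mw d.mfa τ x
  mla := fun t i x => mlaM d.mw d.mfa d.mpot t i x
  mea := fun t i x ρ => meaM d.mw d.mfa d.mpot t i x ρ
  er_le := fun τ hτ => er_le d.mw d.mfa d.sum_w (fun t i h1 h2 h3 => d.hdl t i ⟨h1, h2, h3⟩)
    (fun t i h1 h2 h3 => d.relbad t i ⟨h1, h2, h3⟩) d.num τ hτ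
  dec := fun τ x ω _ => dec d.one_le d.dk_anti d.fa_mono d.sl_mono d.pot_le d.pot_mono d.sum_w τ x ω
  late_le := fun _ _ x h1 h2 h3 => d.late ⟨h1, h2, h3⟩ x
  early_le := fun _ _ h1 h2 h3 => d.early ⟨h1, h2, h3⟩

end MoveD

/-- THE SEPARATION. The bad event of `x`: at least `a ≥ d M` scales `> τ0` are covered, and the potential is at least
`θ ^ (- 2 b)` with `b ≤ d M / 8`. -/
theorem sepM {θ d : ℝ} {C1 pl Cz Ast : ℝ≥0∞} (m2 q0 m1 n1 C' : ℕ) (hθ : 1 < θ) (hd : 0 < d) (hC1 : C1 ≠ ⊤)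
    (hpl : pl ≠ 0) (hCz : Cz ≠ ⊤) (hAst : Ast ≠ ⊤) :
    ∃ m0 : ℕ, ∀ {Ω X : Type*} [MeasurableSpace Ω] [Fintype X] {P : Measure Ω} [IsProbabilityMeasure P] {p : Par X}
      {w : X → Ω → ℝ≥0∞} {fa : ℕ → ℕ → ℕ → X → Ω → ℝ≥0∞} {pot : ℕ → ℝ → X → Ω → ℝ≥0∞} {K : ℕ → Type*}
      [∀ u, Fintype (K u)] {cel : ∀ u, X → K u} {R : ∀ u, K u → Ω → Ω → Ω} {T L : ∀ u, K u → Set Ω}
      {nb : ∀ s, K s → Finset X} {low : ∀ s, K s → ℤ} {S : ℕ → ℕ → Finset ℕ} {τ0 : ℕ} {c δ3 : ℝ≥0∞},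
      MoveD P p w fa pot cel R T L nb low S τ0 q0 m1 n1 C' c C1 pl Cz Ast δ3 →
      p.θ = ENNReal.ofReal θ → p.m2 = m2 → m0 ≤ p.m0 → ∀ {a b : ℕ}, d * p.M ≤ a → b ≤ d * p.M / 8 →
      ∑ x, ∫⁻ ω in {ω | a ≤ cnt p w fa τ0 τ0 (p.sl τ0) x ω ∧
        (ENNReal.ofReal θ ^ 2)⁻¹ ^ b ≤ pot τ0 (p.sl τ0) x ω}, w x ω ∂P ≤
          2 * ENNReal.ofReal (θ ^ (-(d / 2) * p.M)) := by
  have hQ : MoveD.Q (ENNReal.ofReal θ) m2 q0 m1 C' C1 pl Cz Ast ≠ ⊤ := by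
    unfold MoveD.Q
    have : pl⁻¹ ≠ ⊤ := ENNReal.inv_ne_top.2 hpl
    finiteness
  obtain ⟨m0, hm0⟩ := RenData.sep (n1 + 1) hθ hd hQ
  refine ⟨m0, fun {Ω X} _ _ P _ p w fa pot K _ cel R T L nb low S τ0 c δ3 D h1 h2 h3 a b ha hb => ?_⟩
  have hr := D.ren
  rw [h1] at hr
  subst h2
  have hone : 1 ≤ ENNReal.ofReal θ := by rw [← h1]; exact D.one_le
  refine hm0 p.m0 h3 hr (B := fun x => {ω | a ≤ cnt p w fa τ0 τ0 (p.sl τ0) x ω ∧
        (ENNReal.ofReal θ ^ 2)⁻¹ ^ b ≤ pot τ0 (p.sl τ0) x ω}) (fun x => ?_) ha hb (fun x ω hω => ?_)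
  · exact (measurableSet_le measurable_const (mcnt D.mw D.mfa _ _ _ x)).inter
      (measurableSet_le measurable_const (D.mpot _ _ x))
  · unfold gM
    rw [h1]
    exact mul_le_mul' (pow_le_pow_right₀ hone hω.1) hω.2

end Pool.Agent.W_7d29a1_C1.H49
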