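import Pool.Agent.W_7d29a1_C1.SkelA49

/-!
Both halves (MP_7d29a1_pr), attractor route: MOVE THE CONTACT, the decomposition with the end `j ≥ i` of the stretch
(helper2 81276 (2)): the early alternative `ρ` is at row distance of scale `i` and lateral distance of scale `j`, and the
scales between are abnormal at `ρ` (event `rl i j x ρ`). (helper49)
-/

set_option autoImplicit false

namespace Pool.Agent.W_7d29a1_C1.H49

open MeasureTheory Finset
open scoped ENNReal

section Defs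

variable {Ω X : Type*} [MeasurableSpace Ω] [Fintype X] (p : Par X) (w : X → Ω → ℝ≥0∞)
  (fa : ℕ → ℕ → ℕ → X → Ω → ℝ≥0∞) (pot : ℕ → ℝ → X → Ω → ℝ≥0∞) (rl : ℕ → ℕ → X → X → Set Ω)

/-- `ρ` is a good target, up to the relation. -/
def Gw (t i : ℕ) (ρ : X) (ω : Ω) : Prop := ex (-p.be t i) ≤ w ρ ω ∧ p.κ3 ≤ lm p.row w (p.dl i) ρ ω

open Classical in
/-- The contact moves to `ρ`, the stretch ends at `j`. -/
noncomputable def eaJ (t i j : ℕ) (x ρ : X) (ω : Ω) : ℝ≥0∞ :=
  if Er p w fa t i x ω ∧ Gw p w t i ρ ω ∧ ω ∈ rl i j x ρ then nu p w t i x ρ ω * fct p w fa pot t j x ω else 0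

open Classical in
/-- The mass of the early alternatives which are in no relation. -/
noncomputable def rbJ (t i : ℕ) (x : X) (ω : Ω) : ℝ≥0∞ :=
  if Er p w fa t i x ω then ∑ ρ, if ∃ j ∈ Icc i p.M, ω ∈ rl i j x ρ then 0 else nu p w t i x ρ ω else 0

open Classical in
/-- The negligible part of the scales `t, i`. -/
noncomputable def bdJ (t i : ℕ) (x : X) (ω : Ω) : ℝ≥0∞ :=
  (if w x ω < ex (-p.be t i) then 1 else 0) + if Er p w fa t i x ω then
    ∑ ρ, if Gw p w t i ρ ω ∧ ∃ j ∈ Icc i p.M, ω ∈ rl i j x ρ then 0 else nu p w t i x ρ ω else 0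

/-- No scale is covered, or something negligible. -/
noncomputable def erJ (τ : ℕ) (x : X) (ω : Ω) : ℝ≥0∞ :=
  1 + p.θ ^ p.M * ∑ t ∈ Ioc τ p.M, ∑ i ∈ Icc (t + p.m0) p.M, bdJ p w fa rl t i x ω

end Defs

section Dec

variable {Ω X : Type*} [MeasurableSpace Ω] [Fintype X] {p : Par X} {w : X → Ω → ℝ≥0∞}
  {fa : ℕ → ℕ → ℕ → X → Ω → ℝ≥0∞} {pot : ℕ → ℝ → X → Ω → ℝ≥0∞} {rl : ℕ → ℕ → X → X → Set Ω}

omit [MeasurableSpace Ω] in
/-- The decomposition at the first covered scale. -/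
theorem decJ (hθ : 1 ≤ p.θ) (dk_anti : ∀ k τ τ', τ ≤ τ' → p.dk k τ' ≤ p.dk k τ)
    (fa_mono : ∀ t k τ τ' x ω, τ ≤ τ' → fa t k τ x ω ≤ fa t k τ' x ω) (sl_mono : Monotone p.sl)
    (pot_le : ∀ τ σ x ω, pot τ σ x ω ≤ 1)
    (pot_mono : ∀ τ τ' σ σ' x ω, τ ≤ τ' → σ ≤ σ' → pot τ σ x ω ≤ pot τ' σ' x ω)
    (sum_w : ∀ ω, ∑ x, w x ω ≤ 1) (τ : ℕ) (x : X) (ω : Ω) :
    gM p w fa pot τ x ω ≤ erJ p w fa rl τ x ω + ∑ t ∈ Ioc τ p.M, ∑ j ∈ Icc (t + p.m0) p.M,
      (laM p w fa pot t j x ω + ∑ ρ, ∑ i ∈ Icc (t + p.m0) j, eaJ p w fa pot rl t i j x ρ ω) := by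
  classical
  set S := (Ioc τ p.M).filter fun t => Cov p w fa t τ (p.sl τ) x ω with hS
  rcases S.eq_empty_or_nonempty with h0 | h0
  · -- nothing is covered
    have h1 : cnt p w fa τ τ (p.sl τ) x ω = 0 := by unfold cnt; rw [← hS, h0, card_empty]
    unfold gM erJ
    rw [h1, pow_zero, one_mul]
    exact (pot_le _ _ _ _).trans (le_self_add.trans le_self_add)
  set t := S.min' h0 with ht
  have htS : t ∈ S := min'_mem _ _
  obtain ⟨ht1, ht2⟩ := mem_filter.1 htS
  have ht1' := mem_Ioc.1 ht1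
  have hτt : τ ≤ t - 1 := by omega
  -- the largest distance scale
  set I := (Icc (t + p.m0) p.M).filter fun k => Cv p w fa t k (t - 1) (p.sl (t - 1)) x ω with hI
  have hIne : I.Nonempty := by
    obtain ⟨k, hk, h1⟩ := ht2
    exact ⟨k, mem_filter.2 ⟨hk, h1.mono dk_anti fa_mono hτt (sl_mono hτt)⟩⟩
  set i := I.max' hIne with hi
  have hiI : i ∈ I := max'_mem _ _
  obtain ⟨hi1, hi2⟩ := mem_filter.1 hiI
  have hi1' := mem_Icc.1 hi1
  have hLg : Lg p w fa t i x ω := by
    refine ⟨hi2, fun k hk hcv => ?_⟩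
    rw [mem_Ioc] at hk
    have h1 : k ∈ I := mem_filter.2 ⟨mem_Icc.2 ⟨by omega, hk.2⟩, hcv⟩
    have h2 : k ≤ i := le_max' _ _ h1
    omega
  -- the weight
  have hcnt : ∀ j, i ≤ j → cnt p w fa τ τ (p.sl τ) x ω ≤
      (j + p.m2 + 1 - t) + cnt p w fa (j + p.m2) (t - 1) (p.sl (t - 1)) x ω := by
    intro j hj
    refine le_trans ?_ (Nat.add_le_add_left (cnt_mono dk_anti fa_mono hτt (sl_mono hτt) x ω) _)
    unfold cnt
    rw [← hS]
    have hsub : S ⊆ Icc t (j + p.m2) ∪ (Ioc (j + p.m2) p.M).filter fun t => Cov p w fa t τ (p.sl τ) x ω := by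
      intro s hs
      have h1 : t ≤ s := min'_le _ _ hs
      obtain ⟨h2, h3⟩ := mem_filter.1 hs
      rw [mem_Ioc] at h2
      rw [mem_union, mem_Icc, mem_filter, mem_Ioc]
      by_cases h4 : s ≤ j + p.m2
      · exact Or.inl ⟨h1, h4⟩
      · exact Or.inr ⟨⟨by omega, h2.2⟩, h3⟩
    refine (card_le_card hsub).trans ((card_union_le _ _).trans ?_)
    rw [Nat.card_Icc]
  have hg : ∀ j, i ≤ j → gM p w fa pot τ x ω ≤ fct p w fa pot t j x ω := by
    intro j hj
    unfold gM fct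
    rw [← mul_assoc, ← pow_add]
    refine mul_le_mul' (pow_le_pow_right₀ hθ (hcnt j hj)) (pot_mono _ _ _ _ _ _ hτt (sl_mono hτt))
  have hgM : gM p w fa pot τ x ω ≤ p.θ ^ p.M := by
    unfold gM
    calc _ ≤ p.θ ^ p.M * 1 := mul_le_mul' (pow_le_pow_right₀ hθ (cnt_le _ _ _ _ _)) (pot_le _ _ _ _)
      _ = _ := mul_one _
  have hbd : p.θ ^ p.M * bdJ p w fa rl t i x ω ≤ erJ p w fa rl τ x ω := by
    unfold erJ
    refine le_trans ?_ le_add_self
    refine mul_le_mul' le_rfl ?_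
    refine le_trans ?_ (single_le_sum (f := fun t => ∑ i ∈ Icc (t + p.m0) p.M, bdJ p w fa rl t i x ω)
      (fun _ _ => zero_le) ht1)
    exact single_le_sum (f := fun i => bdJ p w fa rl t i x ω) (fun _ _ => zero_le) hi1
  have hle : ∑ j ∈ Icc (t + p.m0) p.M,
      (laM p w fa pot t j x ω + ∑ ρ, ∑ i ∈ Icc (t + p.m0) j, eaJ p w fa pot rl t i j x ρ ω) ≤
      ∑ t ∈ Ioc τ p.M, ∑ j ∈ Icc (t + p.m0) p.M,
        (laM p w fa pot t j x ω + ∑ ρ, ∑ i ∈ Icc (t + p.m0) j, eaJ p w fa pot rl t i j x ρ ω) :=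
    single_le_sum (f := fun t => ∑ j ∈ Icc (t + p.m0) p.M,
      (laM p w fa pot t j x ω + ∑ ρ, ∑ i ∈ Icc (t + p.m0) j, eaJ p w fa pot rl t i j x ρ ω)) (fun _ _ => zero_le) ht1
  rcases hi2 with hem | hfa
  · -- an early alternative
    have hEr : Er p w fa t i x ω := ⟨hLg, hem⟩
    set e := em p.row w (p.dk i (t - 1)) x ω with he
    have he0 : e ≠ 0 := (lt_of_lt_of_le (ex_pos _) hem).ne'
    have het : e ≠ ⊤ := ne_top_of_le_ne_top ENNReal.one_ne_top (em_le_one sum_w _ _ _)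
    have hnu : ∑ ρ, nu p w t i x ρ ω = 1 := by
      have h1 : ∀ ρ, nu p w t i x ρ ω = (if p.row ρ < p.row x - p.dk i (t - 1) then w ρ ω else 0) * e⁻¹ := by
        intro ρ
        unfold nu
        by_cases h2 : p.row ρ < p.row x - p.dk i (t - 1)
        · rw [if_pos h2, if_pos h2, ENNReal.div_eq_inv_mul, mul_comm]
        · rw [if_neg h2, if_neg h2, zero_mul]
      rw [sum_congr rfl fun ρ _ => h1 ρ, ← sum_mul]
      exact ENNReal.mul_inv_cancel he0 het
    -- all targets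
    have hea : ∀ ρ, gM p w fa pot τ x ω * nu p w t i x ρ ω ≤
        p.θ ^ p.M * (if Gw p w t i ρ ω ∧ ∃ j ∈ Icc i p.M, ω ∈ rl i j x ρ then 0 else nu p w t i x ρ ω) +
        ∑ j ∈ Icc (t + p.m0) p.M, ∑ i ∈ Icc (t + p.m0) j, eaJ p w fa pot rl t i j x ρ ω := by
      intro ρ
      by_cases hG : Gw p w t i ρ ω ∧ ∃ j ∈ Icc i p.M, ω ∈ rl i j x ρ
      · rw [if_pos hG, mul_zero, zero_add]
        obtain ⟨hG1, j, hj, hG2⟩ := hG
        rw [mem_Icc] at hj
        have hj1 : j ∈ Icc (t + p.m0) p.M := mem_Icc.2 ⟨by omega, hj.2⟩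
        have hi3 : i ∈ Icc (t + p.m0) j := mem_Icc.2 ⟨hi1'.1, hj.1⟩
        refine le_trans ?_ (single_le_sum (f := fun j => ∑ i ∈ Icc (t + p.m0) j, eaJ p w fa pot rl t i j x ρ ω)
          (fun _ _ => zero_le) hj1)
        refine le_trans ?_ (single_le_sum (f := fun i => eaJ p w fa pot rl t i j x ρ ω) (fun _ _ => zero_le) hi3)
        unfold eaJ
        rw [if_pos ⟨hEr, hG1, hG2⟩, mul_comm]
        exact mul_le_mul' le_rfl (hg j hj.1)
      · rw [if_neg hG]
        exact (mul_le_mul' hgM le_rfl).trans le_self_add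
    calc gM p w fa pot τ x ω = gM p w fa pot τ x ω * ∑ ρ, nu p w t i x ρ ω := by rw [hnu, mul_one]
      _ = ∑ ρ, gM p w fa pot τ x ω * nu p w t i x ρ ω := mul_sum _ _ _
      _ ≤ ∑ ρ, (p.θ ^ p.M * (if Gw p w t i ρ ω ∧ ∃ j ∈ Icc i p.M, ω ∈ rl i j x ρ then 0 else nu p w t i x ρ ω) +
          ∑ j ∈ Icc (t + p.m0) p.M, ∑ i ∈ Icc (t + p.m0) j, eaJ p w fa pot rl t i j x ρ ω) :=
          sum_le_sum fun ρ _ => hea ρ
      _ = p.θ ^ p.M * (∑ ρ, if Gw p w t i ρ ω ∧ ∃ j ∈ Icc i p.M, ω ∈ rl i j x ρ then 0 else nu p w t i x ρ ω) +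
          ∑ j ∈ Icc (t + p.m0) p.M, ∑ ρ, ∑ i ∈ Icc (t + p.m0) j, eaJ p w fa pot rl t i j x ρ ω := by
          rw [sum_add_distrib, mul_sum, sum_comm (s := univ) (t := Icc (t + p.m0) p.M)]
      _ ≤ _ := by
          refine add_le_add (le_trans (mul_le_mul' le_rfl ?_) hbd)
            (le_trans (sum_le_sum fun j _ => le_add_self) hle)
          unfold bdJ
          rw [if_pos hEr]
          exact le_add_self
  · -- a far alternative
    by_cases hw : ex (-p.be t i) ≤ w x ω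
    · refine le_trans ?_ le_add_self
      refine le_trans ?_ hle
      refine le_trans ?_ (single_le_sum (f := fun j =>
        (laM p w fa pot t j x ω + ∑ ρ, ∑ i ∈ Icc (t + p.m0) j, eaJ p w fa pot rl t i j x ρ ω)) (fun _ _ => zero_le) hi1)
      refine le_trans ?_ le_self_add
      unfold laM
      rw [if_pos ⟨hLg, hfa, hw⟩]
      exact hg i le_rfl
    · refine le_trans ?_ le_self_add
      refine le_trans ?_ hbd
      refine hgM.trans ?_
      unfold bdJ
      rw [if_pos (not_le.1 hw)]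
      calc p.θ ^ p.M = p.θ ^ p.M * 1 := (mul_one _).symm
        _ ≤ _ := mul_le_mul' le_rfl le_self_add

end Dec

section Bad

variable {Ω X : Type*} [MeasurableSpace Ω] [Fintype X] {P : Measure Ω} {p : Par X} {w : X → Ω → ℝ≥0∞}
  {fa : ℕ → ℕ → ℕ → X → Ω → ℝ≥0∞} {pot : ℕ → ℝ → X → Ω → ℝ≥0∞} {rl : ℕ → ℕ → X → X → Set Ω}

theorem mGw (mw : ∀ x, Measurable (w x)) (t i : ℕ) (ρ : X) : MeasurableSet {ω | Gw p w t i ρ ω} :=
  (measurableSet_le measurable_const (mw ρ)).inter (measurableSet_le measurable_const (measurable_lm mw _ _))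

theorem meaJ (mw : ∀ x, Measurable (w x)) (mfa : ∀ t k τ x, Measurable (fa t k τ x))
    (mpot : ∀ τ σ x, Measurable (pot τ σ x)) (mrl : ∀ i j x ρ, MeasurableSet (rl i j x ρ)) (t i j : ℕ) (x ρ : X) :
    Measurable (eaJ p w fa pot rl t i j x ρ) := by
  classical
  unfold eaJ
  exact Measurable.ite ((mEr mw mfa t i x).inter ((mGw mw t i ρ).inter (mrl i j x ρ)))
    ((mnu mw t i x ρ).mul (mfct mw mfa mpot t j x)) measurable_const

omit [Fintype X] in
theorem mexJ (mrl : ∀ i j x ρ, MeasurableSet (rl i j x ρ)) (i : ℕ) (x ρ : X) :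
    MeasurableSet {ω | ∃ j ∈ Icc i p.M, ω ∈ rl i j x ρ} := by
  have e : {ω | ∃ j ∈ Icc i p.M, ω ∈ rl i j x ρ} = ⋃ j ∈ Icc i p.M, rl i j x ρ := by
    ext ω
    simp only [Set.mem_iUnion]
    exact ⟨fun ⟨k, h1, h2⟩ => ⟨k, h1, h2⟩, fun ⟨k, h1, h2⟩ => ⟨k, h1, h2⟩⟩
  rw [e]
  exact Finset.measurableSet_biUnion _ fun j _ => mrl i j x ρ

theorem mrbJ (mw : ∀ x, Measurable (w x)) (mfa : ∀ t k τ x, Measurable (fa t k τ x))
    (mrl : ∀ i j x ρ, MeasurableSet (rl i j x ρ)) (t i : ℕ) (x : X) : Measurable (rbJ p w fa rl t i x) := by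
  classical
  unfold rbJ
  refine Measurable.ite (mEr mw mfa t i x) ?_ measurable_const
  exact Finset.measurable_sum _ fun ρ _ => Measurable.ite (mexJ mrl i x ρ) measurable_const (mnu mw t i x ρ)

theorem mbdJ (mw : ∀ x, Measurable (w x)) (mfa : ∀ t k τ x, Measurable (fa t k τ x))
    (mrl : ∀ i j x ρ, MeasurableSet (rl i j x ρ)) (t i : ℕ) (x : X) : Measurable (bdJ p w fa rl t i x) := by
  classical
  unfold bdJ
  refine Measurable.add (Measurable.ite (measurableSet_lt (mw x) measurable_const) measurable_const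
    measurable_const) ?_
  refine Measurable.ite (mEr mw mfa t i x) ?_ measurable_const
  exact Finset.measurable_sum _ fun ρ _ => Measurable.ite ((mGw mw t i ρ).inter (mexJ mrl i x ρ))
    measurable_const (mnu mw t i x ρ)

theorem merJ (mw : ∀ x, Measurable (w x)) (mfa : ∀ t k τ x, Measurable (fa t k τ x))
    (mrl : ∀ i j x ρ, MeasurableSet (rl i j x ρ)) (τ : ℕ) (x : X) : Measurable (erJ p w fa rl τ x) :=
  measurable_const.add ((Finset.measurable_sum _ fun t _ => Finset.measurable_sum _ fun i _ =>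
    mbdJ mw mfa mrl t i x).const_mul _)

omit [MeasurableSpace Ω] in
theorem nu_le_one (t i : ℕ) (x : X) (ω : Ω) : ∑ ρ, nu p w t i x ρ ω ≤ 1 := by
  classical
  have h3 : ∀ ρ, nu p w t i x ρ ω = (if p.row ρ < p.row x - p.dk i (t - 1) then w ρ ω else 0) *
      (em p.row w (p.dk i (t - 1)) x ω)⁻¹ := by
    intro ρ
    unfold nu
    by_cases h2 : p.row ρ < p.row x - p.dk i (t - 1)
    · rw [if_pos h2, if_pos h2, ENNReal.div_eq_inv_mul, mul_comm]
    · rw [if_neg h2, if_neg h2, zero_mul]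
  rw [sum_congr rfl fun ρ _ => h3 ρ, ← sum_mul]
  exact ENNReal.mul_inv_le_one _

omit [MeasurableSpace Ω] in
/-- The pointwise bound of the negligible part. -/
theorem bad_leJ (sum_w : ∀ ω, ∑ x, w x ω ≤ 1) {t i : ℕ} (hdl : p.dl i ≤ p.dk i (t - 1)) (ω : Ω) :
    ∑ x, w x ω * bdJ p w fa rl t i x ω ≤ Fintype.card X * ex (-p.be t i) +
      Fintype.card X * ex (-p.be t i) * ex (p.th t i + p.sl (t - 1)) + p.κ3 +
        ∑ x, w x ω * rbJ p w fa rl t i x ω := by
  classical
  set e : X → ℝ≥0∞ := fun x => em p.row w (p.dk i (t - 1)) x ω with he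
  set q : ℝ := p.th t i + p.sl (t - 1) with hq
  -- the three parts
  have h1 : ∑ x, w x ω * (if w x ω < ex (-p.be t i) then 1 else 0) ≤ Fintype.card X * ex (-p.be t i) := by
    calc _ ≤ ∑ _x : X, ex (-p.be t i) := by
          refine sum_le_sum fun x _ => ?_
          by_cases h : w x ω < ex (-p.be t i)
          · rw [if_pos h, mul_one]; exact h.le
          · rw [if_neg h, mul_zero]; exact zero_le
      _ = _ := by rw [sum_const, card_univ, nsmul_eq_mul]
  -- the small targets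
  have h2 : ∑ x, w x ω * (if Er p w fa t i x ω then
      ∑ ρ, if w ρ ω < ex (-p.be t i) then nu p w t i x ρ ω else 0 else 0) ≤
      Fintype.card X * ex (-p.be t i) * ex q := by
    calc _ ≤ ∑ x, w x ω * (Fintype.card X * ex (-p.be t i) * ex q) := by
          refine sum_le_sum fun x _ => mul_le_mul' le_rfl ?_
          by_cases h : Er p w fa t i x ω
          · rw [if_pos h]
            have he1 : (e x)⁻¹ ≤ ex q := by
              have h3 : ex (-q) ≤ e x := h.2
              rw [ENNReal.inv_le_iff_inv_le, ex_inv]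
              exact h3
            calc ∑ ρ, (if w ρ ω < ex (-p.be t i) then nu p w t i x ρ ω else 0) ≤
                ∑ _ρ : X, ex (-p.be t i) * ex q := by
                  refine sum_le_sum fun ρ _ => ?_
                  by_cases h4 : w ρ ω < ex (-p.be t i)
                  · rw [if_pos h4]
                    unfold nu
                    by_cases h5 : p.row ρ < p.row x - p.dk i (t - 1)
                    · rw [if_pos h5, ENNReal.div_eq_inv_mul, mul_comm]
                      exact mul_le_mul' h4.le he1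
                    · rw [if_neg h5]; exact zero_le
                  · rw [if_neg h4]; exact zero_le
              _ = _ := by rw [sum_const, card_univ, nsmul_eq_mul, mul_assoc]
          · rw [if_neg h]; exact zero_le
      _ = (∑ x, w x ω) * (Fintype.card X * ex (-p.be t i) * ex q) := by rw [sum_mul]
      _ ≤ 1 * _ := mul_le_mul' (sum_w ω) le_rfl
      _ = _ := one_mul _
  -- the targets with a small late mass
  have h3 : ∑ x, w x ω * (∑ ρ, if lm p.row w (p.dl i) ρ ω < p.κ3 then nu p w t i x ρ ω else 0) ≤ p.κ3 := by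
    set B : Finset X := univ.filter fun ρ => lm p.row w (p.dl i) ρ ω < p.κ3 with hB
    rcases B.eq_empty_or_nonempty with h0 | h0
    · have h4 : ∀ x, (∑ ρ, if lm p.row w (p.dl i) ρ ω < p.κ3 then nu p w t i x ρ ω else 0) = 0 := by
        intro x
        refine sum_eq_zero fun ρ _ => ?_
        rw [if_neg]
        intro h5
        have : ρ ∈ B := mem_filter.2 ⟨mem_univ _, h5⟩
        rw [h0] at this
        exact absurd this (notMem_empty _)
      simp only [h4, mul_zero, sum_const_zero]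
      exact zero_le
    · obtain ⟨ρ0, hρ0, hmin⟩ := exists_min_image B p.row h0
      have hρ1 : lm p.row w (p.dl i) ρ0 ω < p.κ3 := (mem_filter.1 hρ0).2
      refine le_trans ?_ hρ1.le
      have e3 : lm p.row w (p.dl i) ρ0 ω = ∑ x, if p.row ρ0 + p.dl i < p.row x then w x ω else 0 := rfl
      rw [e3]
      refine sum_le_sum fun x _ => ?_
      by_cases hx : p.row ρ0 + p.dl i < p.row x
      · rw [if_pos hx]
        calc w x ω * (∑ ρ, if lm p.row w (p.dl i) ρ ω < p.κ3 then nu p w t i x ρ ω else 0) ≤ w x ω * 1 := by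
              refine mul_le_mul' le_rfl (le_trans (sum_le_sum fun ρ _ => ?_) (nu_le_one (p := p) (w := w) t i x ω))
              split_ifs
              · exact le_rfl
              · exact zero_le
          _ = _ := mul_one _
      · rw [if_neg hx]
        have h6 : (∑ ρ, if lm p.row w (p.dl i) ρ ω < p.κ3 then nu p w t i x ρ ω else 0) = 0 := by
          refine sum_eq_zero fun ρ _ => ?_
          by_cases h7 : lm p.row w (p.dl i) ρ ω < p.κ3
          · rw [if_pos h7]
            unfold nu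
            rw [if_neg]
            intro h8
            have h9 : p.row ρ0 ≤ p.row ρ := hmin ρ (mem_filter.2 ⟨mem_univ _, h7⟩)
            omega
          · rw [if_neg h7]
        rw [h6, mul_zero]
  calc ∑ x, w x ω * bdJ p w fa rl t i x ω
      ≤ ∑ x, (w x ω * (if w x ω < ex (-p.be t i) then 1 else 0) +
          w x ω * (if Er p w fa t i x ω then
            ∑ ρ, if w ρ ω < ex (-p.be t i) then nu p w t i x ρ ω else 0 else 0) +
          w x ω * (∑ ρ, if lm p.row w (p.dl i) ρ ω < p.κ3 then nu p w t i x ρ ω else 0) +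
          w x ω * rbJ p w fa rl t i x ω) := by
        refine sum_le_sum fun x _ => ?_
        rw [← mul_add, ← mul_add, ← mul_add]
        refine mul_le_mul' le_rfl ?_
        unfold bdJ rbJ
        rw [add_assoc, add_assoc]
        refine add_le_add le_rfl ?_
        by_cases hE : Er p w fa t i x ω
        · rw [if_pos hE, if_pos hE, if_pos hE, ← sum_add_distrib, ← sum_add_distrib]
          refine sum_le_sum fun ρ _ => ?_
          by_cases hG : Gw p w t i ρ ω ∧ ∃ j ∈ Icc i p.M, ω ∈ rl i j x ρ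
          · rw [if_pos hG]; exact zero_le
          · rw [if_neg hG]
            by_cases h4 : w ρ ω < ex (-p.be t i)
            · rw [if_pos h4]; exact le_self_add
            · by_cases h5 : lm p.row w (p.dl i) ρ ω < p.κ3
              · rw [if_pos h5]; exact le_trans le_self_add le_add_self
              · by_cases h6 : ∃ j ∈ Icc i p.M, ω ∈ rl i j x ρ
                · exact absurd ⟨⟨not_lt.1 h4, not_lt.1 h5⟩, h6⟩ hG
                · rw [if_neg h6]; exact le_trans le_add_self le_add_self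
        · rw [if_neg hE]; exact zero_le
    _ ≤ _ := by
        rw [sum_add_distrib, sum_add_distrib, sum_add_distrib]
        exact add_le_add (add_le_add (add_le_add h1 h2) h3) le_rfl

/-- The error term of `RenData`. -/
theorem er_leJ [IsProbabilityMeasure P] (mw : ∀ x, Measurable (w x)) (mfa : ∀ t k τ x, Measurable (fa t k τ x))
    (mrl : ∀ i j x ρ, MeasurableSet (rl i j x ρ)) (sum_w : ∀ ω, ∑ x, w x ω ≤ 1) {δ3 : ℝ≥0∞} {τ0 : ℕ}
    (hdl : ∀ t i, p.rg τ0 t i → p.dl i ≤ p.dk i (t - 1))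
    (relbad : ∀ t i, p.rg τ0 t i → ∑ x, ∫⁻ ω, w x ω * rbJ p w fa rl t i x ω ∂P ≤ δ3)
    (num : p.θ ^ p.M * ∑ t ∈ Ioc τ0 p.M, ∑ i ∈ Icc (t + p.m0) p.M, (Fintype.card X * ex (-p.be t i) +
      Fintype.card X * ex (-p.be t i) * ex (p.th t i + p.sl (t - 1)) + p.κ3 + δ3) ≤ 1) (τ : ℕ) (hτ : τ0 ≤ τ) :
    ∑ x, ∫⁻ ω, w x ω * erJ p w fa rl τ x ω ∂P ≤ 2 := by
  classical
  have hb : ∀ t i, τ0 < t → t + p.m0 ≤ i → i ≤ p.M → ∫⁻ ω, ∑ x, w x ω * bdJ p w fa rl t i x ω ∂P ≤
      Fintype.card X * ex (-p.be t i) + Fintype.card X * ex (-p.be t i) * ex (p.th t i + p.sl (t - 1)) +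
        p.κ3 + δ3 := by
    intro t i h1 h2 h3
    have mr : ∀ x, Measurable fun ω => w x ω * rbJ p w fa rl t i x ω := fun x => (mw x).mul (mrbJ mw mfa mrl t i x)
    calc ∫⁻ ω, ∑ x, w x ω * bdJ p w fa rl t i x ω ∂P
        ≤ ∫⁻ ω, ((Fintype.card X * ex (-p.be t i) +
            Fintype.card X * ex (-p.be t i) * ex (p.th t i + p.sl (t - 1)) + p.κ3) +
            ∑ x, w x ω * rbJ p w fa rl t i x ω) ∂P := lintegral_mono fun ω => bad_leJ sum_w (hdl t i ⟨h1, h2, h3⟩) ω
      _ = _ + ∑ x, ∫⁻ ω, w x ω * rbJ p w fa rl t i x ω ∂P := by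
          rw [lintegral_add_left measurable_const, lintegral_const, measure_univ, mul_one,
            lintegral_finsetSum _ fun x _ => mr x]
      _ ≤ _ := add_le_add le_rfl (relbad t i ⟨h1, h2, h3⟩)
  have mb : ∀ x t i, Measurable fun ω => w x ω * bdJ p w fa rl t i x ω := fun x t i =>
    (mw x).mul (mbdJ mw mfa mrl t i x)
  have mer : ∀ x, Measurable fun ω => w x ω * erJ p w fa rl τ x ω := fun x => (mw x).mul (merJ mw mfa mrl τ x)
  rw [← lintegral_finsetSum _ fun x _ => mer x]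
  calc ∫⁻ ω, ∑ x, w x ω * erJ p w fa rl τ x ω ∂P
      = ∫⁻ ω, (∑ x, w x ω + p.θ ^ p.M * ∑ t ∈ Ioc τ p.M, ∑ i ∈ Icc (t + p.m0) p.M,
          ∑ x, w x ω * bdJ p w fa rl t i x ω) ∂P := by
        refine lintegral_congr fun ω => ?_
        have e1 : ∑ t ∈ Ioc τ p.M, ∑ i ∈ Icc (t + p.m0) p.M, ∑ x, w x ω * bdJ p w fa rl t i x ω =
            ∑ x, w x ω * ∑ t ∈ Ioc τ p.M, ∑ i ∈ Icc (t + p.m0) p.M, bdJ p w fa rl t i x ω := by
          simp_rw [mul_sum]
          rw [sum_congr rfl fun t _ => sum_comm, sum_comm]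
        rw [e1, mul_sum, ← sum_add_distrib]
        refine sum_congr rfl fun x _ => ?_
        unfold erJ
        ring
    _ = (∫⁻ ω, ∑ x, w x ω ∂P) + p.θ ^ p.M * ∑ t ∈ Ioc τ p.M, ∑ i ∈ Icc (t + p.m0) p.M,
          ∫⁻ ω, ∑ x, w x ω * bdJ p w fa rl t i x ω ∂P := by
        have m1 : ∀ t i, Measurable fun ω => ∑ x, w x ω * bdJ p w fa rl t i x ω := fun t i =>
          Finset.measurable_sum _ fun x _ => mb x t i
        have m2 : ∀ t, Measurable fun ω => ∑ i ∈ Icc (t + p.m0) p.M, ∑ x, w x ω * bdJ p w fa rl t i x ω := fun t =>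
          Finset.measurable_sum _ fun i _ => m1 t i
        have m3 : Measurable fun ω => ∑ t ∈ Ioc τ p.M, ∑ i ∈ Icc (t + p.m0) p.M,
            ∑ x, w x ω * bdJ p w fa rl t i x ω := Finset.measurable_sum _ fun t _ => m2 t
        have m4 : Measurable fun ω => ∑ x, w x ω := Finset.measurable_sum _ fun x _ => mw x
        rw [lintegral_add_left m4, lintegral_const_mul _ m3, lintegral_finsetSum _ fun t _ => m2 t]
        congr 2
        refine sum_congr rfl fun t _ => ?_
        rw [lintegral_finsetSum _ fun i _ => m1 t i]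
    _ ≤ 1 + 1 := by
        refine add_le_add ?_ (le_trans (mul_le_mul' le_rfl ?_) num)
        · calc ∫⁻ ω, ∑ x, w x ω ∂P ≤ ∫⁻ _, 1 ∂P := lintegral_mono fun ω => sum_w ω
            _ = 1 := by simp
        · refine le_trans (sum_le_sum fun t ht => sum_le_sum fun i hi => ?_)
            (sum_le_sum_of_subset (f := fun t => ∑ i ∈ Icc (t + p.m0) p.M, (Fintype.card X * ex (-p.be t i) +
              Fintype.card X * ex (-p.be t i) * ex (p.th t i + p.sl (t - 1)) + p.κ3 + δ3)) (Ioc_subset_Ioc_left hτ))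
          have h1 := mem_Ioc.1 ht
          have h2 := mem_Icc.1 hi
          exact hb t i (by omega) h2.1 h2.2
    _ = 2 := one_add_one_eq_two

omit [MeasurableSpace Ω] in
/-- `relbad`, pointwise: the targets in no relation are beyond the distance scale `i + 1`, or of mass at most
`C4 fa t (i + 1)`. -/
theorem rbJ_le {t i : ℕ} {C4 : ℝ≥0∞} {x : X} {ω : Ω}
    (hrel : ∀ ρ, p.row ρ < p.row x - p.dk i (t - 1) → (∀ j ∈ Icc i p.M, ω ∉ rl i j x ρ) →
      i < p.M ∧ (p.row ρ < p.row x - p.dk (i + 1) (t - 1) ∨ w ρ ω ≤ C4 * fa t (i + 1) (t - 1) x ω)) :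
    rbJ p w fa rl t i x ω ≤ (1 + Fintype.card X * C4) * ex (-(p.th t (i + 1) - p.th t i)) := by
  classical
  unfold rbJ
  by_cases hE : Er p w fa t i x ω
  · rw [if_pos hE]
    set e := em p.row w (p.dk i (t - 1)) x ω with he
    set q : ℝ := p.th t i + p.sl (t - 1) with hq
    have he1 : e⁻¹ ≤ ex q := by
      rw [ENNReal.inv_le_iff_inv_le, ex_inv]; exact hE.2
    by_cases hiM : i < p.M
    · have hno : ¬ Cv p w fa t (i + 1) (t - 1) (p.sl (t - 1)) x ω := hE.1.2 (i + 1) (by rw [mem_Ioc]; omega)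
      have hem : em p.row w (p.dk (i + 1) (t - 1)) x ω ≤ ex (-(p.th t (i + 1) + p.sl (t - 1))) := by
        by_contra h; exact hno (Or.inl (not_le.1 h).le)
      have hfa : fa t (i + 1) (t - 1) x ω ≤ ex (-(p.th t (i + 1) + p.sl (t - 1))) := by
        by_contra h; exact hno (Or.inr (not_le.1 h).le)
      have hsum : ∑ ρ, (if ∃ j ∈ Icc i p.M, ω ∈ rl i j x ρ then 0 else nu p w t i x ρ ω) ≤
          e⁻¹ * (em p.row w (p.dk (i + 1) (t - 1)) x ω + Fintype.card X * (C4 * fa t (i + 1) (t - 1) x ω)) := by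
        have e1 : (Fintype.card X : ℝ≥0∞) * (C4 * fa t (i + 1) (t - 1) x ω) =
            ∑ _ρ : X, C4 * fa t (i + 1) (t - 1) x ω := by rw [sum_const, card_univ, nsmul_eq_mul]
        rw [e1]
        unfold em
        rw [← sum_add_distrib, mul_sum]
        refine sum_le_sum fun ρ _ => ?_
        by_cases h1 : ∃ j ∈ Icc i p.M, ω ∈ rl i j x ρ
        · rw [if_pos h1]; exact zero_le
        · rw [if_neg h1]
          unfold nu
          by_cases h2 : p.row ρ < p.row x - p.dk i (t - 1)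
          · rw [if_pos h2, ENNReal.div_eq_inv_mul]
            refine mul_le_mul' le_rfl ?_
            obtain ⟨-, h3⟩ := hrel ρ h2 fun j hj h4 => h1 ⟨j, hj, h4⟩
            rcases h3 with h3 | h3
            · rw [if_pos h3]; exact le_self_add
            · exact h3.trans le_add_self
          · rw [if_neg h2]; exact zero_le
      refine hsum.trans ?_
      calc _ ≤ ex q * (ex (-(p.th t (i + 1) + p.sl (t - 1))) +
            Fintype.card X * (C4 * ex (-(p.th t (i + 1) + p.sl (t - 1))))) :=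
            mul_le_mul' he1 (add_le_add hem (mul_le_mul' le_rfl (mul_le_mul' le_rfl hfa)))
        _ = (1 + Fintype.card X * C4) * (ex q * ex (-(p.th t (i + 1) + p.sl (t - 1)))) := by ring
        _ = _ := by
            rw [← ex_add, hq]
            congr 2
            ring
    · refine le_trans (le_of_eq (sum_eq_zero fun ρ _ => ?_)) zero_le
      by_cases h1 : ∃ j ∈ Icc i p.M, ω ∈ rl i j x ρ
      · rw [if_pos h1]
      · rw [if_neg h1]
        unfold nu
        rw [if_neg]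
        exact fun h2 => hiM (hrel ρ h2 fun j hj h4 => h1 ⟨j, hj, h4⟩).1
  · rw [if_neg hE]; exact zero_le

/-- THE FIELD `relbad`. -/
theorem relbad_ofJ [IsProbabilityMeasure P] (mw : ∀ x, Measurable (w x)) (sum_w : ∀ ω, ∑ x, w x ω ≤ 1) {τ0 : ℕ}
    (mfa : ∀ t k τ x, Measurable (fa t k τ x)) (mrl : ∀ i j x ρ, MeasurableSet (rl i j x ρ)) {C4 δ3 : ℝ≥0∞}
    (hrel : ∀ t i, p.rg τ0 t i → ∀ x ω ρ, p.row ρ < p.row x - p.dk i (t - 1) → (∀ j ∈ Icc i p.M, ω ∉ rl i j x ρ) →
      i < p.M ∧ (p.row ρ < p.row x - p.dk (i + 1) (t - 1) ∨ w ρ ω ≤ C4 * fa t (i + 1) (t - 1) x ω))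
    (num : ∀ t i, p.rg τ0 t i → (1 + Fintype.card X * C4) * ex (-(p.th t (i + 1) - p.th t i)) ≤ δ3) :
    ∀ t i, p.rg τ0 t i → ∑ x, ∫⁻ ω, w x ω * rbJ p w fa rl t i x ω ∂P ≤ δ3 := by
  intro t i h
  have mr : ∀ x, Measurable fun ω => w x ω * rbJ p w fa rl t i x ω := fun x => (mw x).mul (mrbJ mw mfa mrl t i x)
  rw [← lintegral_finsetSum _ fun x _ => mr x]
  calc _ ≤ ∫⁻ _, δ3 ∂P := by
        refine lintegral_mono fun ω => ?_
        calc ∑ x, w x ω * rbJ p w fa rl t i x ω ≤ ∑ x, w x ω * δ3 :=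
              sum_le_sum fun x _ => mul_le_mul' le_rfl ((rbJ_le (hrel t i h x ω)).trans (num t i h))
          _ = (∑ x, w x ω) * δ3 := (sum_mul _ _ _).symm
          _ ≤ 1 * δ3 := mul_le_mul' (sum_w ω) le_rfl
          _ = δ3 := one_mul _
    _ = δ3 := by rw [lintegral_const, measure_univ, mul_one]

variable {K : ℕ → Type*} {cel : ∀ u, X → K u} {N : ∀ u, K u → Set Ω} {low : ∀ s, K s → ℤ}

omit [MeasurableSpace Ω] in
open Classical in
/-- THE POINTWISE BOUND of what is moved into one cell. -/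
theorem early_ratJ (sum_w : ∀ ω, ∑ x, w x ω ≤ 1) {t i j s : ℕ} {κ : K s} {ω : Ω} {Z : ℝ≥0∞}
    (hlow : ∀ ρ, cel s ρ = κ → low s κ ≤ p.row ρ)
    (hZ : ∀ x ρ, cel s ρ = κ → (∀ u ∈ Ico (p.st t i) s, ω ∉ N u (cel u ρ)) → ω ∈ rl i j x ρ →
      fct p w fa pot t j x ω ≤ Z) :
    ∑ ρ, {ω | cel s ρ = κ ∧ ∀ u ∈ Ico (p.st t i) s, ω ∉ N u (cel u ρ)}.indicator
      (fun ω => ∑ x, w x ω * eaJ p w fa pot rl t i j x ρ ω) ω ≤ rat p w cel low t i s κ ω * Z := by
  set I : X → Set Ω := fun ρ => {ω | cel s ρ = κ ∧ ∀ u ∈ Ico (p.st t i) s, ω ∉ N u (cel u ρ)} with hI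
  have hWt : Wc w cel s κ ω ≠ ⊤ := by
    refine ne_top_of_le_ne_top ENNReal.one_ne_top (le_trans ?_ (sum_w ω))
    unfold Wc
    refine sum_le_sum fun ρ _ => ?_
    split_ifs
    · exact le_rfl
    · exact zero_le
  have hEt : Ec p w low s κ ω ≠ ⊤ := by
    refine ne_top_of_le_ne_top ENNReal.one_ne_top (le_trans ?_ (sum_w ω))
    unfold Ec
    refine sum_le_sum fun ρ _ => ?_
    split_ifs
    · exact le_rfl
    · exact zero_le
  -- one `x`
  have hx : ∀ x, ∑ ρ, (I ρ).indicator (eaJ p w fa pot rl t i j x ρ) ω ≤ rat p w cel low t i s κ ω * Z := by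
    intro x
    by_cases hex : ∃ ρ0, ω ∈ I ρ0 ∧ Er p w fa t i x ω ∧ (Gw p w t i ρ0 ω ∧ ω ∈ rl i j x ρ0) ∧
        p.row ρ0 < p.row x - p.dk i (t - 1)
    · obtain ⟨ρ0, hI0, hEr, hGd, hrow⟩ := hex
      have h0 : cel s ρ0 = κ := hI0.1
      have hH : ω ∈ Hs p w cel t i s κ := ⟨ρ0, h0, hGd.1.1, hGd.1.2⟩
      have hf : fct p w fa pot t j x ω ≤ Z := hZ x ρ0 h0 hI0.2 hGd.2
      set e := em p.row w (p.dk i (t - 1)) x ω with he
      set A := ∑ ρ, (if cel s ρ = κ ∧ p.row ρ < p.row x - p.dk i (t - 1) then w ρ ω else 0) with hA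
      have hAW : A ≤ Wc w cel s κ ω := by
        unfold Wc
        refine sum_le_sum fun ρ _ => ?_
        by_cases h2 : cel s ρ = κ
        · rw [if_pos h2]; split_ifs
          · exact le_rfl
          · exact zero_le
        · rw [if_neg h2, if_neg fun h3 => h2 h3.1]
      have hBA : Ec p w low s κ ω + A ≤ e := by
        rw [hA, he]
        unfold Ec em
        rw [← sum_add_distrib]
        refine sum_le_sum fun ρ _ => ?_
        have h3 : low s κ ≤ p.row ρ0 := hlow ρ0 h0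
        by_cases h2 : p.row ρ < low s κ
        · have h4 : ¬ (cel s ρ = κ ∧ p.row ρ < p.row x - p.dk i (t - 1)) := fun h5 => absurd (hlow ρ h5.1) (not_le.2 h2)
          rw [if_pos h2, if_neg h4, add_zero, if_pos (by omega)]
        · rw [if_neg h2, zero_add]
          by_cases h5 : cel s ρ = κ ∧ p.row ρ < p.row x - p.dk i (t - 1)
          · rw [if_pos h5, if_pos h5.2]
          · rw [if_neg h5]; exact zero_le
      have hAe : A * e⁻¹ ≤ rat p w cel low t i s κ ω := by
        unfold rat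
        rw [if_pos hH]
        exact (mul_le_mul' le_rfl (ENNReal.inv_le_inv.2 hBA)).trans (frac_mono hAW hWt hEt)
      calc ∑ ρ, (I ρ).indicator (eaJ p w fa pot rl t i j x ρ) ω
          ≤ ∑ ρ, (if cel s ρ = κ ∧ p.row ρ < p.row x - p.dk i (t - 1) then w ρ ω else 0) * (e⁻¹ * Z) := by
            refine sum_le_sum fun ρ _ => ?_
            by_cases h4 : ω ∈ I ρ
            · rw [Set.indicator_of_mem h4]
              unfold eaJ
              by_cases h5 : Er p w fa t i x ω ∧ Gw p w t i ρ ω ∧ ω ∈ rl i j x ρ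
              · rw [if_pos h5]
                unfold nu
                by_cases h6 : p.row ρ < p.row x - p.dk i (t - 1)
                · rw [if_pos h6, if_pos ⟨h4.1, h6⟩, ENNReal.div_eq_inv_mul]
                  calc _ ≤ (e⁻¹ * w ρ ω) * Z := mul_le_mul' le_rfl hf
                    _ = _ := by ring
                · rw [if_neg h6, zero_mul]; exact zero_le
              · rw [if_neg h5]; exact zero_le
            · rw [Set.indicator_of_notMem h4]; exact zero_le
        _ = A * (e⁻¹ * Z) := (sum_mul _ _ _).symm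
        _ = (A * e⁻¹) * Z := (mul_assoc _ _ _).symm
        _ ≤ _ := mul_le_mul' hAe le_rfl
    · refine le_trans (le_of_eq (sum_eq_zero fun ρ _ => ?_)) zero_le
      by_cases h4 : ω ∈ I ρ
      · rw [Set.indicator_of_mem h4]
        unfold eaJ
        by_cases h5 : Er p w fa t i x ω ∧ Gw p w t i ρ ω ∧ ω ∈ rl i j x ρ
        · rw [if_pos h5]
          unfold nu
          rw [if_neg, zero_mul]
          exact fun h6 => hex ⟨ρ, h4, h5.1, h5.2, h6⟩
        · rw [if_neg h5]
      · rw [Set.indicator_of_notMem h4]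
  calc ∑ ρ, (I ρ).indicator (fun ω => ∑ x, w x ω * eaJ p w fa pot rl t i j x ρ ω) ω
      = ∑ x, w x ω * ∑ ρ, (I ρ).indicator (eaJ p w fa pot rl t i j x ρ) ω := by
        simp_rw [mul_sum]
        rw [sum_comm]
        refine sum_congr rfl fun ρ _ => ?_
        by_cases h4 : ω ∈ I ρ
        · rw [Set.indicator_of_mem h4]
          exact sum_congr rfl fun x _ => by rw [Set.indicator_of_mem h4]
        · rw [Set.indicator_of_notMem h4]
          exact (sum_eq_zero fun x _ => by rw [Set.indicator_of_notMem h4, mul_zero]).symm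
    _ ≤ ∑ x, w x ω * (rat p w cel low t i s κ ω * Z) := sum_le_sum fun x _ => mul_le_mul' le_rfl (hx x)
    _ = (∑ x, w x ω) * (rat p w cel low t i s κ ω * Z) := (sum_mul _ _ _).symm
    _ ≤ 1 * (rat p w cel low t i s κ ω * Z) := mul_le_mul' (sum_w ω) le_rfl
    _ = _ := one_mul _

end Bad

end Pool.Agent.W_7d29a1_C1.H49
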