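import Pool.Agent.W_7d29a1_C1.SkelR49
import Pool.Agent.W_7d29a1_C1.Mov49

/-!
Both halves (MP_7d29a1_pr), attractor route: MOVE THE CONTACT, thresholds (S2 of helper25 76787): `RenData` from the law
`w` of the first meeting, the early masses `em`, the far masses `fa`, thresholds, slack, potential. (helper49)
-/

set_option autoImplicit false

namespace Pool.Agent.W_7d29a1_C1.H49

open MeasureTheory Finset
open scoped ENNReal

/-- `e^r` in `[0, ∞]`. -/
noncomputable def ex (r : ℝ) : ℝ≥0∞ := ENNReal.ofReal (Real.exp r)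

theorem ex_ne_top (r : ℝ) : ex r ≠ ⊤ := ENNReal.ofReal_ne_top

theorem ex_pos (r : ℝ) : 0 < ex r := ENNReal.ofReal_pos.2 (Real.exp_pos r)

theorem ex_ne_zero (r : ℝ) : ex r ≠ 0 := (ex_pos r).ne'

theorem ex_mono {r r' : ℝ} (h : r ≤ r') : ex r ≤ ex r' := ENNReal.ofReal_le_ofReal (Real.exp_le_exp.2 h)

theorem ex_add (r r' : ℝ) : ex (r + r') = ex r * ex r' := by
  unfold ex; rw [Real.exp_add, ENNReal.ofReal_mul (Real.exp_nonneg r)]

theorem ex_zero : ex 0 = 1 := by unfold ex; simp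

theorem ex_mul_neg (r : ℝ) : ex r * ex (-r) = 1 := by rw [← ex_add]; simp [ex_zero]

theorem ex_inv (r : ℝ) : (ex r)⁻¹ = ex (-r) :=
  (ENNReal.eq_inv_of_mul_eq_one_left (by rw [mul_comm]; exact ex_mul_neg r)).symm

section Masses

variable {Ω X : Type*} [MeasurableSpace Ω] [Fintype X]

open Classical in
/-- Mass of the first meetings earlier than `x` by more than `D`. -/
noncomputable def em (row : X → ℤ) (w : X → Ω → ℝ≥0∞) (D : ℤ) (x : X) (ω : Ω) : ℝ≥0∞ :=
  ∑ ρ, if row ρ < row x - D then w ρ ω else 0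

open Classical in
/-- Mass of the first meetings later than `x` by more than `D`. -/
noncomputable def lm (row : X → ℤ) (w : X → Ω → ℝ≥0∞) (D : ℤ) (x : X) (ω : Ω) : ℝ≥0∞ :=
  ∑ ρ, if row x + D < row ρ then w ρ ω else 0

variable {row : X → ℤ} {w : X → Ω → ℝ≥0∞}

theorem measurable_em (mw : ∀ x, Measurable (w x)) (D : ℤ) (x : X) : Measurable (em row w D x) := by
  classical
  unfold em
  refine Finset.measurable_sum _ fun ρ _ => ?_
  by_cases h : row ρ < row x - D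
  · simp [h, mw ρ]
  · simp [h]

theorem measurable_lm (mw : ∀ x, Measurable (w x)) (D : ℤ) (x : X) : Measurable (lm row w D x) := by
  classical
  unfold lm
  refine Finset.measurable_sum _ fun ρ _ => ?_
  by_cases h : row x + D < row ρ
  · simp [h, mw ρ]
  · simp [h]

omit [MeasurableSpace Ω] in
theorem em_mono {D D' : ℤ} {x y : X} (h : row x - D ≤ row y - D') (ω : Ω) : em row w D x ω ≤ em row w D' y ω := by
  classical
  unfold em
  refine sum_le_sum fun ρ _ => ?_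
  by_cases h1 : row ρ < row x - D
  · rw [if_pos h1, if_pos (h1.trans_le h)]
  · rw [if_neg h1]; exact zero_le

omit [MeasurableSpace Ω] in
theorem em_le_one (h : ∀ ω, ∑ x, w x ω ≤ 1) (D : ℤ) (x : X) (ω : Ω) : em row w D x ω ≤ 1 := by
  classical
  refine le_trans ?_ (h ω)
  unfold em
  refine sum_le_sum fun ρ _ => ?_
  split_ifs
  · exact le_rfl
  · exact zero_le

end Masses

/-- The parameters. -/
structure Par (X : Type*) where
  row : X → ℤ
  dk : ℕ → ℕ → ℤ
  dl : ℕ → ℤ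
  th : ℕ → ℕ → ℝ
  sl : ℕ → ℝ
  be : ℕ → ℕ → ℝ
  b : ℕ → ℝ
  st : ℕ → ℕ → ℕ
  rel : ℕ → X → X → Prop
  κ3 : ℝ≥0∞
  θ : ℝ≥0∞
  M : ℕ
  m0 : ℕ
  m2 : ℕ

section Defs

variable {Ω X : Type*} [MeasurableSpace Ω] [Fintype X] (p : Par X) (w : X → Ω → ℝ≥0∞)
  (fa : ℕ → ℕ → ℕ → X → Ω → ℝ≥0∞) (pot : ℕ → ℝ → X → Ω → ℝ≥0∞)

/-- The scale `t` is covered from the distance scale `k`, stage `τ`, slack `σ`. -/
def Cv (t k τ : ℕ) (σ : ℝ) (x : X) (ω : Ω) : Prop :=
  ex (-(p.th t k + σ)) ≤ em p.row w (p.dk k τ) x ω ∨ ex (-(p.th t k + σ)) ≤ fa t k τ x ω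

/-- The scale `t` is covered. -/
def Cov (t τ : ℕ) (σ : ℝ) (x : X) (ω : Ω) : Prop := ∃ k ∈ Icc (t + p.m0) p.M, Cv p w fa t k τ σ x ω

open Classical in
/-- Number of covered scales `> j`. -/
noncomputable def cnt (j τ : ℕ) (σ : ℝ) (x : X) (ω : Ω) : ℕ :=
  ((Ioc j p.M).filter fun t => Cov p w fa t τ σ x ω).card

/-- The weight of the stage `τ`. -/
noncomputable def gM (τ : ℕ) (x : X) (ω : Ω) : ℝ≥0∞ :=
  p.θ ^ cnt p w fa τ τ (p.sl τ) x ω * pot τ (p.sl τ) x ω

/-- `i` is the largest distance scale from which `t` is covered (stage `t - 1`). -/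
def Lg (t i : ℕ) (x : X) (ω : Ω) : Prop :=
  Cv p w fa t i (t - 1) (p.sl (t - 1)) x ω ∧ ∀ k ∈ Ioc i p.M, ¬ Cv p w fa t k (t - 1) (p.sl (t - 1)) x ω

/-- The weight behind the stretch, seen from the stage `t - 1`. -/
noncomputable def fct (t i : ℕ) (x : X) (ω : Ω) : ℝ≥0∞ :=
  p.θ ^ (i + p.m2 + 1 - t) * (p.θ ^ cnt p w fa (i + p.m2) (t - 1) (p.sl (t - 1)) x ω * pot (t - 1) (p.sl (t - 1)) x ω)

open Classical in
/-- The contact stays. -/
noncomputable def laM (t i : ℕ) (x : X) (ω : Ω) : ℝ≥0∞ :=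
  if Lg p w fa t i x ω ∧ ex (-(p.th t i + p.sl (t - 1))) ≤ fa t i (t - 1) x ω ∧ ex (-p.be t i) ≤ w x ω then
    fct p w fa pot t i x ω else 0

/-- `x` has an early alternative from the distance scale `i`. -/
def Er (t i : ℕ) (x : X) (ω : Ω) : Prop :=
  Lg p w fa t i x ω ∧ ex (-(p.th t i + p.sl (t - 1))) ≤ em p.row w (p.dk i (t - 1)) x ω

/-- `ρ` is a good target. -/
def Gd (t i : ℕ) (x ρ : X) (ω : Ω) : Prop :=
  p.rel i x ρ ∧ ex (-p.be t i) ≤ w ρ ω ∧ p.κ3 ≤ lm p.row w (p.dl i) ρ ω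

open Classical in
/-- The conditional law of the early alternative. -/
noncomputable def nu (t i : ℕ) (x ρ : X) (ω : Ω) : ℝ≥0∞ :=
  if p.row ρ < p.row x - p.dk i (t - 1) then w ρ ω / em p.row w (p.dk i (t - 1)) x ω else 0

open Classical in
/-- The contact moves to `ρ`. -/
noncomputable def eaM (t i : ℕ) (x ρ : X) (ω : Ω) : ℝ≥0∞ :=
  if Er p w fa t i x ω ∧ Gd p w t i x ρ ω then nu p w t i x ρ ω * fct p w fa pot t i x ω else 0

open Classical in
/-- The negligible part of the scales `t, i`. -/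
noncomputable def bdM (t i : ℕ) (x : X) (ω : Ω) : ℝ≥0∞ :=
  (if w x ω < ex (-p.be t i) then 1 else 0) +
    if Er p w fa t i x ω then ∑ ρ, if Gd p w t i x ρ ω then 0 else nu p w t i x ρ ω else 0

/-- No scale is covered, or something negligible. -/
noncomputable def erM (τ : ℕ) (x : X) (ω : Ω) : ℝ≥0∞ :=
  1 + p.θ ^ p.M * ∑ t ∈ Ioc τ p.M, ∑ i ∈ Icc (t + p.m0) p.M, bdM p w fa t i x ω

end Defs

section Dec

variable {Ω X : Type*} [MeasurableSpace Ω] [Fintype X] {p : Par X} {w : X → Ω → ℝ≥0∞}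
  {fa : ℕ → ℕ → ℕ → X → Ω → ℝ≥0∞} {pot : ℕ → ℝ → X → Ω → ℝ≥0∞}

omit [MeasurableSpace Ω] in
theorem Cv.mono (dk_anti : ∀ k τ τ', τ ≤ τ' → p.dk k τ' ≤ p.dk k τ)
    (fa_mono : ∀ t k τ τ' x ω, τ ≤ τ' → fa t k τ x ω ≤ fa t k τ' x ω) {t k τ τ' : ℕ} {σ σ' : ℝ} (hτ : τ ≤ τ')
    (hσ : σ ≤ σ') {x : X} {ω : Ω} (h : Cv p w fa t k τ σ x ω) : Cv p w fa t k τ' σ' x ω := by
  have h1 : ex (-(p.th t k + σ')) ≤ ex (-(p.th t k + σ)) := ex_mono (by linarith)
  rcases h with h | h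
  · left
    refine h1.trans (h.trans (em_mono ?_ ω))
    have := dk_anti k τ τ' hτ
    omega
  · right
    exact h1.trans (h.trans (fa_mono t k τ τ' x ω hτ))

omit [MeasurableSpace Ω] in
theorem cnt_mono (dk_anti : ∀ k τ τ', τ ≤ τ' → p.dk k τ' ≤ p.dk k τ)
    (fa_mono : ∀ t k τ τ' x ω, τ ≤ τ' → fa t k τ x ω ≤ fa t k τ' x ω) {j τ τ' : ℕ} {σ σ' : ℝ} (hτ : τ ≤ τ')
    (hσ : σ ≤ σ') (x : X) (ω : Ω) : cnt p w fa j τ σ x ω ≤ cnt p w fa j τ' σ' x ω := by
  classical
  unfold cnt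
  refine card_le_card fun t ht => ?_
  rw [mem_filter] at ht ⊢
  obtain ⟨h1, k, hk, h2⟩ := ht
  exact ⟨h1, k, hk, h2.mono dk_anti fa_mono hτ hσ⟩

omit [MeasurableSpace Ω] in
theorem cnt_le (j τ : ℕ) (σ : ℝ) (x : X) (ω : Ω) : cnt p w fa j τ σ x ω ≤ p.M := by
  classical
  unfold cnt
  refine (card_filter_le _ _).trans ?_
  rw [Nat.card_Ioc]
  omega

omit [MeasurableSpace Ω] in
/-- The decomposition at the first covered scale. -/
theorem dec (hθ : 1 ≤ p.θ) (dk_anti : ∀ k τ τ', τ ≤ τ' → p.dk k τ' ≤ p.dk k τ)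
    (fa_mono : ∀ t k τ τ' x ω, τ ≤ τ' → fa t k τ x ω ≤ fa t k τ' x ω) (sl_mono : Monotone p.sl)
    (pot_le : ∀ τ σ x ω, pot τ σ x ω ≤ 1)
    (pot_mono : ∀ τ τ' σ σ' x ω, τ ≤ τ' → σ ≤ σ' → pot τ σ x ω ≤ pot τ' σ' x ω)
    (sum_w : ∀ ω, ∑ x, w x ω ≤ 1) (τ : ℕ) (x : X) (ω : Ω) :
    gM p w fa pot τ x ω ≤ erM p w fa τ x ω + ∑ t ∈ Ioc τ p.M, ∑ i ∈ Icc (t + p.m0) p.M,
      (laM p w fa pot t i x ω + ∑ ρ, eaM p w fa pot t i x ρ ω) := by
  classical
  set S := (Ioc τ p.M).filter fun t => Cov p w fa t τ (p.sl τ) x ω with hS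
  rcases S.eq_empty_or_nonempty with h0 | h0
  · -- nothing is covered
    have h1 : cnt p w fa τ τ (p.sl τ) x ω = 0 := by unfold cnt; rw [← hS, h0, card_empty]
    unfold gM erM
    rw [h1, pow_zero, one_mul]
    exact (pot_le _ _ _ _).trans (le_self_add.trans le_self_add)
  set t := S.min' h0 with ht
  have htS : t ∈ S := min'_mem _ _
  obtain ⟨ht1, ht2⟩ := mem_filter.1 htS
  have ht1' := mem_Ioc.1 ht1
  have hτt : τ ≤ t - 1 := by omega
  -- the largest distance scale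
  set I := (Icc (t + p.m0) p.M).filter fun k => Cv p w fa t k (t - 1) (p.sl (t - 1)) x ω with hI
  have hIne : I.Nonempty := by
    obtain ⟨k, hk, h1⟩ := ht2
    exact ⟨k, mem_filter.2 ⟨hk, h1.mono dk_anti fa_mono hτt (sl_mono hτt)⟩⟩
  set i := I.max' hIne with hi
  have hiI : i ∈ I := max'_mem _ _
  obtain ⟨hi1, hi2⟩ := mem_filter.1 hiI
  have hi1' := mem_Icc.1 hi1
  have hLg : Lg p w fa t i x ω := by
    refine ⟨hi2, fun k hk hcv => ?_⟩
    rw [mem_Ioc] at hk
    have h1 : k ∈ I := mem_filter.2 ⟨mem_Icc.2 ⟨by omega, hk.2⟩, hcv⟩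
    have h2 : k ≤ i := le_max' _ _ h1
    omega
  -- the weight
  have hcnt : cnt p w fa τ τ (p.sl τ) x ω ≤
      (i + p.m2 + 1 - t) + cnt p w fa (i + p.m2) (t - 1) (p.sl (t - 1)) x ω := by
    refine le_trans ?_ (Nat.add_le_add_left (cnt_mono dk_anti fa_mono hτt (sl_mono hτt) x ω) _)
    unfold cnt
    rw [← hS]
    have hsub : S ⊆ Icc t (i + p.m2) ∪ (Ioc (i + p.m2) p.M).filter fun t => Cov p w fa t τ (p.sl τ) x ω := by
      intro s hs
      have h1 : t ≤ s := min'_le _ _ hs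
      obtain ⟨h2, h3⟩ := mem_filter.1 hs
      rw [mem_Ioc] at h2
      rw [mem_union, mem_Icc, mem_filter, mem_Ioc]
      by_cases h4 : s ≤ i + p.m2
      · exact Or.inl ⟨h1, h4⟩
      · exact Or.inr ⟨⟨by omega, h2.2⟩, h3⟩
    refine (card_le_card hsub).trans ((card_union_le _ _).trans ?_)
    rw [Nat.card_Icc]
  have hg : gM p w fa pot τ x ω ≤ fct p w fa pot t i x ω := by
    unfold gM fct
    rw [← mul_assoc, ← pow_add]
    refine mul_le_mul' (pow_le_pow_right₀ hθ hcnt) (pot_mono _ _ _ _ _ _ hτt (sl_mono hτt))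
  have hgM : gM p w fa pot τ x ω ≤ p.θ ^ p.M := by
    unfold gM
    calc _ ≤ p.θ ^ p.M * 1 := mul_le_mul' (pow_le_pow_right₀ hθ (cnt_le _ _ _ _ _)) (pot_le _ _ _ _)
      _ = _ := mul_one _
  have hbd : p.θ ^ p.M * bdM p w fa t i x ω ≤ erM p w fa τ x ω := by
    unfold erM
    refine le_trans ?_ le_add_self
    refine mul_le_mul' le_rfl ?_
    refine le_trans ?_ (single_le_sum (f := fun t => ∑ i ∈ Icc (t + p.m0) p.M, bdM p w fa t i x ω)
      (fun _ _ => zero_le) ht1)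
    exact single_le_sum (f := fun i => bdM p w fa t i x ω) (fun _ _ => zero_le) hi1
  have hle : laM p w fa pot t i x ω + ∑ ρ, eaM p w fa pot t i x ρ ω ≤
      ∑ t ∈ Ioc τ p.M, ∑ i ∈ Icc (t + p.m0) p.M, (laM p w fa pot t i x ω + ∑ ρ, eaM p w fa pot t i x ρ ω) := by
    refine le_trans ?_ (single_le_sum (f := fun t => ∑ i ∈ Icc (t + p.m0) p.M,
      (laM p w fa pot t i x ω + ∑ ρ, eaM p w fa pot t i x ρ ω)) (fun _ _ => zero_le) ht1)
    exact single_le_sum (f := fun i => laM p w fa pot t i x ω + ∑ ρ, eaM p w fa pot t i x ρ ω)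
      (fun _ _ => zero_le) hi1
  rcases hi2 with hem | hfa
  · -- an early alternative
    have hEr : Er p w fa t i x ω := ⟨hLg, hem⟩
    set e := em p.row w (p.dk i (t - 1)) x ω with he
    have he0 : e ≠ 0 := (lt_of_lt_of_le (ex_pos _) hem).ne'
    have het : e ≠ ⊤ := ne_top_of_le_ne_top ENNReal.one_ne_top (em_le_one sum_w _ _ _)
    have hnu : ∑ ρ, nu p w t i x ρ ω = 1 := by
      have h1 : ∀ ρ, nu p w t i x ρ ω = (if p.row ρ < p.row x - p.dk i (t - 1) then w ρ ω else 0) * e⁻¹ := by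
        intro ρ
        unfold nu
        by_cases h2 : p.row ρ < p.row x - p.dk i (t - 1)
        · rw [if_pos h2, if_pos h2, ENNReal.div_eq_inv_mul, mul_comm]
        · rw [if_neg h2, if_neg h2, zero_mul]
      rw [sum_congr rfl fun ρ _ => h1 ρ, ← sum_mul]
      exact ENNReal.mul_inv_cancel he0 het
    calc gM p w fa pot τ x ω = gM p w fa pot τ x ω * ∑ ρ, nu p w t i x ρ ω := by rw [hnu, mul_one]
      _ = ∑ ρ, gM p w fa pot τ x ω * nu p w t i x ρ ω := mul_sum _ _ _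
      _ ≤ ∑ ρ, (p.θ ^ p.M * (if Gd p w t i x ρ ω then 0 else nu p w t i x ρ ω) + eaM p w fa pot t i x ρ ω) := by
          refine sum_le_sum fun ρ _ => ?_
          by_cases hG : Gd p w t i x ρ ω
          · unfold eaM
            rw [if_pos hG, mul_zero, zero_add, if_pos ⟨hEr, hG⟩, mul_comm]
            exact mul_le_mul' le_rfl hg
          · rw [if_neg hG]
            exact (mul_le_mul' hgM le_rfl).trans le_self_add
      _ = p.θ ^ p.M * (∑ ρ, if Gd p w t i x ρ ω then 0 else nu p w t i x ρ ω) + ∑ ρ, eaM p w fa pot t i x ρ ω := by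
          rw [sum_add_distrib, mul_sum]
      _ ≤ _ := by
          refine add_le_add (le_trans (mul_le_mul' le_rfl ?_) hbd) (le_trans le_add_self hle)
          unfold bdM
          rw [if_pos hEr]
          exact le_add_self
  · -- a far alternative
    by_cases hw : ex (-p.be t i) ≤ w x ω
    · refine le_trans ?_ le_add_self
      refine le_trans ?_ hle
      refine le_trans ?_ le_self_add
      unfold laM
      rw [if_pos ⟨hLg, hfa, hw⟩]
      exact hg
    · refine le_trans ?_ le_self_add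
      refine le_trans ?_ hbd
      refine hgM.trans ?_
      unfold bdM
      rw [if_pos (not_le.1 hw)]
      calc p.θ ^ p.M = p.θ ^ p.M * 1 := (mul_one _).symm
        _ ≤ _ := mul_le_mul' le_rfl le_self_add

end Dec

section Meas

variable {Ω X : Type*} [MeasurableSpace Ω] [Fintype X] {p : Par X} {w : X → Ω → ℝ≥0∞}
  {fa : ℕ → ℕ → ℕ → X → Ω → ℝ≥0∞} {pot : ℕ → ℝ → X → Ω → ℝ≥0∞}

theorem mCv (mw : ∀ x, Measurable (w x)) (mfa : ∀ t k τ x, Measurable (fa t k τ x)) (t k τ : ℕ) (σ : ℝ) (x : X) :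
    MeasurableSet {ω | Cv p w fa t k τ σ x ω} :=
  (measurableSet_le measurable_const (measurable_em mw _ _)).union
    (measurableSet_le measurable_const (mfa t k τ x))

theorem mCov (mw : ∀ x, Measurable (w x)) (mfa : ∀ t k τ x, Measurable (fa t k τ x)) (t τ : ℕ) (σ : ℝ) (x : X) :
    MeasurableSet {ω | Cov p w fa t τ σ x ω} := by
  have e : {ω | Cov p w fa t τ σ x ω} = ⋃ k ∈ Icc (t + p.m0) p.M, {ω | Cv p w fa t k τ σ x ω} := by
    ext ω
    simp only [Set.mem_iUnion]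
    exact ⟨fun ⟨k, h1, h2⟩ => ⟨k, h1, h2⟩, fun ⟨k, h1, h2⟩ => ⟨k, h1, h2⟩⟩
  rw [e]
  exact Finset.measurableSet_biUnion _ fun k _ => mCv mw mfa t k τ σ x

theorem mcnt (mw : ∀ x, Measurable (w x)) (mfa : ∀ t k τ x, Measurable (fa t k τ x)) (j τ : ℕ) (σ : ℝ) (x : X) :
    Measurable (cnt p w fa j τ σ x) := by
  classical
  have e : cnt p w fa j τ σ x = fun ω => ∑ t ∈ Ioc j p.M, if Cov p w fa t τ σ x ω then 1 else 0 := by
    funext ω
    unfold cnt
    rw [card_filter]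
  rw [e]
  exact Finset.measurable_sum _ fun t _ => Measurable.ite (mCov mw mfa t τ σ x) measurable_const measurable_const

theorem mpow (mw : ∀ x, Measurable (w x)) (mfa : ∀ t k τ x, Measurable (fa t k τ x)) (j τ : ℕ) (σ : ℝ) (x : X) :
    Measurable fun ω => p.θ ^ cnt p w fa j τ σ x ω := measurable_const.pow (mcnt mw mfa j τ σ x)

theorem mLg (mw : ∀ x, Measurable (w x)) (mfa : ∀ t k τ x, Measurable (fa t k τ x)) (t i : ℕ) (x : X) :
    MeasurableSet {ω | Lg p w fa t i x ω} := by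
  have e : {ω | Lg p w fa t i x ω} = {ω | Cv p w fa t i (t - 1) (p.sl (t - 1)) x ω} ∩
      ⋂ k ∈ Ioc i p.M, {ω | Cv p w fa t k (t - 1) (p.sl (t - 1)) x ω}ᶜ := by
    ext ω
    simp only [Set.mem_inter_iff, Set.mem_iInter]
    exact Iff.rfl
  rw [e]
  exact (mCv mw mfa _ _ _ _ _).inter (Finset.measurableSet_biInter _ fun k _ => (mCv mw mfa _ _ _ _ _).compl)

theorem mfct (mw : ∀ x, Measurable (w x)) (mfa : ∀ t k τ x, Measurable (fa t k τ x))
    (mpot : ∀ τ σ x, Measurable (pot τ σ x)) (t i : ℕ) (x : X) : Measurable (fct p w fa pot t i x) :=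
  ((mpow mw mfa _ _ _ x).mul (mpot _ _ x)).const_mul _

theorem mEr (mw : ∀ x, Measurable (w x)) (mfa : ∀ t k τ x, Measurable (fa t k τ x)) (t i : ℕ) (x : X) :
    MeasurableSet {ω | Er p w fa t i x ω} :=
  (mLg mw mfa t i x).inter (measurableSet_le measurable_const (measurable_em mw _ _))

theorem mGd (mw : ∀ x, Measurable (w x)) (t i : ℕ) (x ρ : X) : MeasurableSet {ω | Gd p w t i x ρ ω} := by
  classical
  by_cases h : p.rel i x ρ
  · have e : {ω | Gd p w t i x ρ ω} = {ω | ex (-p.be t i) ≤ w ρ ω} ∩ {ω | p.κ3 ≤ lm p.row w (p.dl i) ρ ω} := by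
      ext ω; exact ⟨fun h1 => h1.2, fun h1 => ⟨h, h1⟩⟩
    rw [e]
    exact (measurableSet_le measurable_const (mw ρ)).inter
      (measurableSet_le measurable_const (measurable_lm mw _ _))
  · have e : {ω | Gd p w t i x ρ ω} = ∅ := by
      ext ω; exact ⟨fun h1 => h h1.1, fun h1 => h1.elim⟩
    rw [e]; exact MeasurableSet.empty

theorem mnu (mw : ∀ x, Measurable (w x)) (t i : ℕ) (x ρ : X) : Measurable (nu p w t i x ρ) := by
  classical
  unfold nu
  by_cases h : p.row ρ < p.row x - p.dk i (t - 1)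
  · simp only [h, if_true]
    exact (mw ρ).div (measurable_em mw _ _)
  · simp only [h, if_false]
    exact measurable_const

theorem mlaM (mw : ∀ x, Measurable (w x)) (mfa : ∀ t k τ x, Measurable (fa t k τ x))
    (mpot : ∀ τ σ x, Measurable (pot τ σ x)) (t i : ℕ) (x : X) : Measurable (laM p w fa pot t i x) := by
  classical
  unfold laM
  refine Measurable.ite ?_ (mfct mw mfa mpot t i x) measurable_const
  exact (mLg mw mfa t i x).inter ((measurableSet_le measurable_const (mfa _ _ _ x)).inter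
    (measurableSet_le measurable_const (mw x)))

theorem meaM (mw : ∀ x, Measurable (w x)) (mfa : ∀ t k τ x, Measurable (fa t k τ x))
    (mpot : ∀ τ σ x, Measurable (pot τ σ x)) (t i : ℕ) (x ρ : X) : Measurable (eaM p w fa pot t i x ρ) := by
  classical
  unfold eaM
  exact Measurable.ite ((mEr mw mfa t i x).inter (mGd mw t i x ρ)) ((mnu mw t i x ρ).mul (mfct mw mfa mpot t i x))
    measurable_const

theorem mbdM (mw : ∀ x, Measurable (w x)) (mfa : ∀ t k τ x, Measurable (fa t k τ x)) (t i : ℕ) (x : X) :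
    Measurable (bdM p w fa t i x) := by
  classical
  unfold bdM
  refine Measurable.add (Measurable.ite (measurableSet_lt (mw x) measurable_const) measurable_const
    measurable_const) ?_
  refine Measurable.ite (mEr mw mfa t i x) ?_ measurable_const
  exact Finset.measurable_sum _ fun ρ _ => Measurable.ite (mGd mw t i x ρ) measurable_const (mnu mw t i x ρ)

theorem merM (mw : ∀ x, Measurable (w x)) (mfa : ∀ t k τ x, Measurable (fa t k τ x)) (τ : ℕ) (x : X) :
    Measurable (erM p w fa τ x) :=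
  measurable_const.add ((Finset.measurable_sum _ fun t _ => Finset.measurable_sum _ fun i _ =>
    mbdM mw mfa t i x).const_mul _)

theorem mgM (mw : ∀ x, Measurable (w x)) (mfa : ∀ t k τ x, Measurable (fa t k τ x))
    (mpot : ∀ τ σ x, Measurable (pot τ σ x)) (τ : ℕ) (x : X) : Measurable (gM p w fa pot τ x) :=
  (mpow mw mfa _ _ _ x).mul (mpot _ _ x)

end Meas

section Bad

variable {Ω X : Type*} [MeasurableSpace Ω] [Fintype X] {P : Measure Ω} {p : Par X} {w : X → Ω → ℝ≥0∞}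
  {fa : ℕ → ℕ → ℕ → X → Ω → ℝ≥0∞}

open Classical in
/-- The mass of the early alternatives which are not near. -/
noncomputable def rb (p : Par X) (w : X → Ω → ℝ≥0∞) (fa : ℕ → ℕ → ℕ → X → Ω → ℝ≥0∞) (t i : ℕ) (x : X) (ω : Ω) :
    ℝ≥0∞ :=
  if Er p w fa t i x ω then ∑ ρ, if p.rel i x ρ then 0 else nu p w t i x ρ ω else 0

theorem mrb (mw : ∀ x, Measurable (w x)) (mfa : ∀ t k τ x, Measurable (fa t k τ x)) (t i : ℕ) (x : X) :
    Measurable (rb p w fa t i x) := by
  classical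
  unfold rb
  refine Measurable.ite (mEr mw mfa t i x) ?_ measurable_const
  refine Finset.measurable_sum _ fun ρ _ => ?_
  by_cases h : p.rel i x ρ
  · simp [h]
  · simp only [h, if_false]; exact mnu mw t i x ρ

omit [MeasurableSpace Ω] in
/-- The pointwise bound of the negligible part. -/
theorem bad_le (sum_w : ∀ ω, ∑ x, w x ω ≤ 1) {t i : ℕ} (hdl : p.dl i ≤ p.dk i (t - 1)) (ω : Ω) :
    ∑ x, w x ω * bdM p w fa t i x ω ≤ Fintype.card X * ex (-p.be t i) +
      Fintype.card X * ex (-p.be t i) * ex (p.th t i + p.sl (t - 1)) + p.κ3 + ∑ x, w x ω * rb p w fa t i x ω := by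
  classical
  set e : X → ℝ≥0∞ := fun x => em p.row w (p.dk i (t - 1)) x ω with he
  set q : ℝ := p.th t i + p.sl (t - 1) with hq
  -- the three parts
  have h1 : ∑ x, w x ω * (if w x ω < ex (-p.be t i) then 1 else 0) ≤ Fintype.card X * ex (-p.be t i) := by
    calc _ ≤ ∑ _x : X, ex (-p.be t i) := by
          refine sum_le_sum fun x _ => ?_
          by_cases h : w x ω < ex (-p.be t i)
          · rw [if_pos h, mul_one]; exact h.le
          · rw [if_neg h, mul_zero]; exact zero_le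
      _ = _ := by rw [sum_const, card_univ, nsmul_eq_mul]
  -- the small targets
  have h2 : ∑ x, w x ω * (if Er p w fa t i x ω then
      ∑ ρ, if w ρ ω < ex (-p.be t i) then nu p w t i x ρ ω else 0 else 0) ≤
      Fintype.card X * ex (-p.be t i) * ex q := by
    calc _ ≤ ∑ x, w x ω * (Fintype.card X * ex (-p.be t i) * ex q) := by
          refine sum_le_sum fun x _ => mul_le_mul' le_rfl ?_
          by_cases h : Er p w fa t i x ω
          · rw [if_pos h]
            have he1 : (e x)⁻¹ ≤ ex q := by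
              have h3 : ex (-q) ≤ e x := h.2
              rw [ENNReal.inv_le_iff_inv_le, ex_inv]
              exact h3
            calc ∑ ρ, (if w ρ ω < ex (-p.be t i) then nu p w t i x ρ ω else 0) ≤
                ∑ _ρ : X, ex (-p.be t i) * ex q := by
                  refine sum_le_sum fun ρ _ => ?_
                  by_cases h4 : w ρ ω < ex (-p.be t i)
                  · rw [if_pos h4]
                    unfold nu
                    by_cases h5 : p.row ρ < p.row x - p.dk i (t - 1)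
                    · rw [if_pos h5, ENNReal.div_eq_inv_mul, mul_comm]
                      exact mul_le_mul' h4.le he1
                    · rw [if_neg h5]; exact zero_le
                  · rw [if_neg h4]; exact zero_le
              _ = _ := by rw [sum_const, card_univ, nsmul_eq_mul, mul_assoc]
          · rw [if_neg h]; exact zero_le
      _ = (∑ x, w x ω) * (Fintype.card X * ex (-p.be t i) * ex q) := by rw [sum_mul]
      _ ≤ 1 * _ := mul_le_mul' (sum_w ω) le_rfl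
      _ = _ := one_mul _
  -- the targets with a small late mass
  have hnu1 : ∀ x, ∑ ρ, nu p w t i x ρ ω ≤ 1 := by
    intro x
    have h3 : ∀ ρ, nu p w t i x ρ ω = (if p.row ρ < p.row x - p.dk i (t - 1) then w ρ ω else 0) * (e x)⁻¹ := by
      intro ρ
      unfold nu
      by_cases h2 : p.row ρ < p.row x - p.dk i (t - 1)
      · rw [if_pos h2, if_pos h2, ENNReal.div_eq_inv_mul, mul_comm]
      · rw [if_neg h2, if_neg h2, zero_mul]
    rw [sum_congr rfl fun ρ _ => h3 ρ, ← sum_mul]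
    exact ENNReal.mul_inv_le_one _
  have h3 : ∑ x, w x ω * (∑ ρ, if lm p.row w (p.dl i) ρ ω < p.κ3 then nu p w t i x ρ ω else 0) ≤ p.κ3 := by
    set B : Finset X := univ.filter fun ρ => lm p.row w (p.dl i) ρ ω < p.κ3 with hB
    rcases B.eq_empty_or_nonempty with h0 | h0
    · have h4 : ∀ x, (∑ ρ, if lm p.row w (p.dl i) ρ ω < p.κ3 then nu p w t i x ρ ω else 0) = 0 := by
        intro x
        refine sum_eq_zero fun ρ _ => ?_
        rw [if_neg]
        intro h5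
        have : ρ ∈ B := mem_filter.2 ⟨mem_univ _, h5⟩
        rw [h0] at this
        exact absurd this (notMem_empty _)
      simp only [h4, mul_zero, sum_const_zero]
      exact zero_le
    · obtain ⟨ρ0, hρ0, hmin⟩ := exists_min_image B p.row h0
      have hρ1 : lm p.row w (p.dl i) ρ0 ω < p.κ3 := (mem_filter.1 hρ0).2
      refine le_trans ?_ hρ1.le
      have e3 : lm p.row w (p.dl i) ρ0 ω = ∑ x, if p.row ρ0 + p.dl i < p.row x then w x ω else 0 := rfl
      rw [e3]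
      refine sum_le_sum fun x _ => ?_
      by_cases hx : p.row ρ0 + p.dl i < p.row x
      · rw [if_pos hx]
        calc w x ω * (∑ ρ, if lm p.row w (p.dl i) ρ ω < p.κ3 then nu p w t i x ρ ω else 0) ≤ w x ω * 1 := by
              refine mul_le_mul' le_rfl (le_trans (sum_le_sum fun ρ _ => ?_) (hnu1 x))
              split_ifs
              · exact le_rfl
              · exact zero_le
          _ = _ := mul_one _
      · rw [if_neg hx]
        have h6 : (∑ ρ, if lm p.row w (p.dl i) ρ ω < p.κ3 then nu p w t i x ρ ω else 0) = 0 := by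
          refine sum_eq_zero fun ρ _ => ?_
          by_cases h7 : lm p.row w (p.dl i) ρ ω < p.κ3
          · rw [if_pos h7]
            unfold nu
            rw [if_neg]
            intro h8
            have h9 : p.row ρ0 ≤ p.row ρ := hmin ρ (mem_filter.2 ⟨mem_univ _, h7⟩)
            omega
          · rw [if_neg h7]
        rw [h6, mul_zero]
  calc ∑ x, w x ω * bdM p w fa t i x ω
      ≤ ∑ x, (w x ω * (if w x ω < ex (-p.be t i) then 1 else 0) +
          w x ω * (if Er p w fa t i x ω then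
            ∑ ρ, if w ρ ω < ex (-p.be t i) then nu p w t i x ρ ω else 0 else 0) +
          w x ω * (∑ ρ, if lm p.row w (p.dl i) ρ ω < p.κ3 then nu p w t i x ρ ω else 0) +
          w x ω * rb p w fa t i x ω) := by
        refine sum_le_sum fun x _ => ?_
        rw [← mul_add, ← mul_add, ← mul_add]
        refine mul_le_mul' le_rfl ?_
        unfold bdM rb
        rw [add_assoc, add_assoc]
        refine add_le_add le_rfl ?_
        by_cases hE : Er p w fa t i x ω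
        · rw [if_pos hE, if_pos hE, if_pos hE, ← sum_add_distrib, ← sum_add_distrib]
          refine sum_le_sum fun ρ _ => ?_
          by_cases hG : Gd p w t i x ρ ω
          · rw [if_pos hG]; exact zero_le
          · rw [if_neg hG]
            by_cases h4 : w ρ ω < ex (-p.be t i)
            · rw [if_pos h4]; exact le_self_add
            · by_cases h5 : lm p.row w (p.dl i) ρ ω < p.κ3
              · rw [if_pos h5]; exact le_trans le_self_add le_add_self
              · by_cases h6 : p.rel i x ρ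
                · exact absurd ⟨h6, not_lt.1 h4, not_lt.1 h5⟩ hG
                · rw [if_neg h6]; exact le_trans le_add_self le_add_self
        · rw [if_neg hE]; exact zero_le
    _ ≤ _ := by
        rw [sum_add_distrib, sum_add_distrib, sum_add_distrib]
        exact add_le_add (add_le_add (add_le_add h1 h2) h3) le_rfl

/-- The error term of `RenData`. -/
theorem er_le [IsProbabilityMeasure P] (mw : ∀ x, Measurable (w x)) (mfa : ∀ t k τ x, Measurable (fa t k τ x))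
    (sum_w : ∀ ω, ∑ x, w x ω ≤ 1) {δ3 : ℝ≥0∞} {τ0 : ℕ}
    (hdl : ∀ t i, τ0 < t → t + p.m0 ≤ i → i ≤ p.M → p.dl i ≤ p.dk i (t - 1))
    (relbad : ∀ t i, τ0 < t → t + p.m0 ≤ i → i ≤ p.M → ∑ x, ∫⁻ ω, w x ω * rb p w fa t i x ω ∂P ≤ δ3)
    (num : p.θ ^ p.M * ∑ t ∈ Ioc τ0 p.M, ∑ i ∈ Icc (t + p.m0) p.M, (Fintype.card X * ex (-p.be t i) +
      Fintype.card X * ex (-p.be t i) * ex (p.th t i + p.sl (t - 1)) + p.κ3 + δ3) ≤ 1) (τ : ℕ) (hτ : τ0 ≤ τ) :
    ∑ x, ∫⁻ ω, w x ω * erM p w fa τ x ω ∂P ≤ 2 := by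
  classical
  have hb : ∀ t i, τ0 < t → t + p.m0 ≤ i → i ≤ p.M → ∫⁻ ω, ∑ x, w x ω * bdM p w fa t i x ω ∂P ≤
      Fintype.card X * ex (-p.be t i) + Fintype.card X * ex (-p.be t i) * ex (p.th t i + p.sl (t - 1)) + p.κ3 + δ3 := by
    intro t i h1 h2 h3
    have mr : ∀ x, Measurable fun ω => w x ω * rb p w fa t i x ω := fun x => (mw x).mul (mrb mw mfa t i x)
    calc ∫⁻ ω, ∑ x, w x ω * bdM p w fa t i x ω ∂P
        ≤ ∫⁻ ω, ((Fintype.card X * ex (-p.be t i) +
            Fintype.card X * ex (-p.be t i) * ex (p.th t i + p.sl (t - 1)) + p.κ3) +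
            ∑ x, w x ω * rb p w fa t i x ω) ∂P := lintegral_mono fun ω => bad_le sum_w (hdl t i h1 h2 h3) ω
      _ = _ + ∑ x, ∫⁻ ω, w x ω * rb p w fa t i x ω ∂P := by
          rw [lintegral_add_left measurable_const, lintegral_const, measure_univ, mul_one,
            lintegral_finsetSum _ fun x _ => mr x]
      _ ≤ _ := add_le_add le_rfl (relbad t i h1 h2 h3)
  have mb : ∀ x t i, Measurable fun ω => w x ω * bdM p w fa t i x ω := fun x t i => (mw x).mul (mbdM mw mfa t i x)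
  have mer : ∀ x, Measurable fun ω => w x ω * erM p w fa τ x ω := fun x => (mw x).mul (merM mw mfa τ x)
  rw [← lintegral_finsetSum _ fun x _ => mer x]
  calc ∫⁻ ω, ∑ x, w x ω * erM p w fa τ x ω ∂P
      = ∫⁻ ω, (∑ x, w x ω + p.θ ^ p.M * ∑ t ∈ Ioc τ p.M, ∑ i ∈ Icc (t + p.m0) p.M,
          ∑ x, w x ω * bdM p w fa t i x ω) ∂P := by
        refine lintegral_congr fun ω => ?_
        have e1 : ∑ t ∈ Ioc τ p.M, ∑ i ∈ Icc (t + p.m0) p.M, ∑ x, w x ω * bdM p w fa t i x ω =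
            ∑ x, w x ω * ∑ t ∈ Ioc τ p.M, ∑ i ∈ Icc (t + p.m0) p.M, bdM p w fa t i x ω := by
          simp_rw [mul_sum]
          rw [sum_congr rfl fun t _ => sum_comm, sum_comm]
        rw [e1, mul_sum, ← sum_add_distrib]
        refine sum_congr rfl fun x _ => ?_
        unfold erM
        ring
    _ = (∫⁻ ω, ∑ x, w x ω ∂P) + p.θ ^ p.M * ∑ t ∈ Ioc τ p.M, ∑ i ∈ Icc (t + p.m0) p.M,
          ∫⁻ ω, ∑ x, w x ω * bdM p w fa t i x ω ∂P := by
        have m1 : ∀ t i, Measurable fun ω => ∑ x, w x ω * bdM p w fa t i x ω := fun t i =>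
          Finset.measurable_sum _ fun x _ => mb x t i
        have m2 : ∀ t, Measurable fun ω => ∑ i ∈ Icc (t + p.m0) p.M, ∑ x, w x ω * bdM p w fa t i x ω := fun t =>
          Finset.measurable_sum _ fun i _ => m1 t i
        have m3 : Measurable fun ω => ∑ t ∈ Ioc τ p.M, ∑ i ∈ Icc (t + p.m0) p.M,
            ∑ x, w x ω * bdM p w fa t i x ω := Finset.measurable_sum _ fun t _ => m2 t
        have m4 : Measurable fun ω => ∑ x, w x ω := Finset.measurable_sum _ fun x _ => mw x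
        rw [lintegral_add_left m4, lintegral_const_mul _ m3, lintegral_finsetSum _ fun t _ => m2 t]
        congr 2
        refine sum_congr rfl fun t _ => ?_
        rw [lintegral_finsetSum _ fun i _ => m1 t i]
    _ ≤ 1 + 1 := by
        refine add_le_add ?_ (le_trans (mul_le_mul' le_rfl ?_) num)
        · calc ∫⁻ ω, ∑ x, w x ω ∂P ≤ ∫⁻ _, 1 ∂P := lintegral_mono fun ω => sum_w ω
            _ = 1 := by simp
        · refine le_trans (sum_le_sum fun t ht => sum_le_sum fun i hi => ?_)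
            (sum_le_sum_of_subset (f := fun t => ∑ i ∈ Icc (t + p.m0) p.M, (Fintype.card X * ex (-p.be t i) +
              Fintype.card X * ex (-p.be t i) * ex (p.th t i + p.sl (t - 1)) + p.κ3 + δ3)) (Ioc_subset_Ioc_left hτ))
          have h1 := mem_Ioc.1 ht
          have h2 := mem_Icc.1 hi
          exact hb t i (by omega) h2.1 h2.2
    _ = 2 := one_add_one_eq_two

end Bad

section Move

variable {Ω X : Type*} [MeasurableSpace Ω] [Fintype X] {p : Par X} {w : X → Ω → ℝ≥0∞}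
  {fa : ℕ → ℕ → ℕ → X → Ω → ℝ≥0∞} {pot : ℕ → ℝ → X → Ω → ℝ≥0∞}

/-- The outer event (stage `i + m2`) with the slack of the slabs `A`. -/
noncomputable def hM (p : Par X) (w : X → Ω → ℝ≥0∞) (fa : ℕ → ℕ → ℕ → X → Ω → ℝ≥0∞) (pot : ℕ → ℝ → X → Ω → ℝ≥0∞)
    (t i : ℕ) (y : X) (A : Finset ℕ) (ω : Ω) : ℝ≥0∞ :=
  p.θ ^ cnt p w fa (i + p.m2) (i + p.m2) (p.sl (t - 1) + ∑ v ∈ A, p.b v) y ω *
    pot (i + p.m2) (p.sl (t - 1) + ∑ v ∈ A, p.b v) y ω

theorem mhM (mw : ∀ x, Measurable (w x)) (mfa : ∀ t k τ x, Measurable (fa t k τ x))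
    (mpot : ∀ τ σ x, Measurable (pot τ σ x)) (t i : ℕ) (y : X) (A : Finset ℕ) :
    Measurable (hM p w fa pot t i y A) :=
  (mpow mw mfa _ _ _ y).mul (mpot _ _ y)

omit [MeasurableSpace Ω] in
theorem hM_mono (hθ : 1 ≤ p.θ) (dk_anti : ∀ k τ τ', τ ≤ τ' → p.dk k τ' ≤ p.dk k τ)
    (fa_mono : ∀ t k τ τ' x ω, τ ≤ τ' → fa t k τ x ω ≤ fa t k τ' x ω)
    (pot_mono : ∀ τ τ' σ σ' x ω, τ ≤ τ' → σ ≤ σ' → pot τ σ x ω ≤ pot τ' σ' x ω) (b_nonneg : ∀ v, 0 ≤ p.b v)
    (t i : ℕ) (y : X) {A B : Finset ℕ} (h : A ⊆ B) (ω : Ω) :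
    hM p w fa pot t i y A ω ≤ hM p w fa pot t i y B ω := by
  have h1 : p.sl (t - 1) + ∑ v ∈ A, p.b v ≤ p.sl (t - 1) + ∑ v ∈ B, p.b v := by
    have := sum_le_sum_of_subset_of_nonneg h fun v _ _ => b_nonneg v
    linarith
  unfold hM
  exact mul_le_mul' (pow_le_pow_right₀ hθ (cnt_mono dk_anti fa_mono le_rfl h1 y ω)) (pot_mono _ _ _ _ _ _ le_rfl h1)

omit [MeasurableSpace Ω] in
/-- Typical to lucky (or any change which moves the outer masses by at most `e^b`). -/
theorem hM_osc (hθ : 1 ≤ p.θ) {i : ℕ} {y : X} {ω ω' : Ω} {β : ℝ}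
    (osc_em : ∀ k, i + p.m2 + p.m0 < k → k ≤ p.M →
      em p.row w (p.dk k (i + p.m2)) y ω ≤ ex β * em p.row w (p.dk k (i + p.m2)) y ω')
    (osc_fa : ∀ t' k, i + p.m2 < t' → t' + p.m0 ≤ k → k ≤ p.M → fa t' k (i + p.m2) y ω ≤ ex β * fa t' k (i + p.m2) y ω')
    {σ σ' : ℝ} (hσ : σ + β ≤ σ') (osc_pot : pot (i + p.m2) σ y ω ≤ pot (i + p.m2) σ' y ω') :
    p.θ ^ cnt p w fa (i + p.m2) (i + p.m2) σ y ω * pot (i + p.m2) σ y ω ≤
      p.θ ^ cnt p w fa (i + p.m2) (i + p.m2) σ' y ω' * pot (i + p.m2) σ' y ω' := by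
  classical
  refine mul_le_mul' (pow_le_pow_right₀ hθ ?_) osc_pot
  unfold cnt
  refine card_le_card fun t' ht' => ?_
  rw [mem_filter, mem_Ioc] at ht' ⊢
  obtain ⟨h1, k, hk, h2⟩ := ht'
  rw [mem_Icc] at hk
  refine ⟨h1, k, mem_Icc.2 hk, ?_⟩
  have h3 : ∀ {a a' : ℝ≥0∞}, a ≤ ex β * a' → ex (-(p.th t' k + σ)) ≤ a → ex (-(p.th t' k + σ')) ≤ a' := by
    intro a a' h4 h5
    calc ex (-(p.th t' k + σ')) ≤ ex (-β + -(p.th t' k + σ)) := ex_mono (by linarith)
      _ = ex (-β) * ex (-(p.th t' k + σ)) := ex_add _ _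
      _ ≤ ex (-β) * (ex β * a') := mul_le_mul' le_rfl (h5.trans h4)
      _ = (ex β * ex (-β)) * a' := by ring
      _ = a' := by rw [ex_mul_neg, one_mul]
  rcases h2 with h2 | h2
  · exact Or.inl (h3 (osc_em k (by omega) hk.2) h2)
  · exact Or.inr (h3 (osc_fa t' k h1.1 hk.1 hk.2) h2)

variable {K : ℕ → Type*} {cel : ∀ u, X → K u} {R : ∀ u, K u → Ω → Ω → Ω} {T L : ∀ u, K u → Set Ω}
  {nb : ∀ s, K s → Finset X} {low : ∀ s, K s → ℤ}

omit [MeasurableSpace Ω] in
open Classical in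
/-- M3: from the cell to a site `x` whose boundary row may cut the cell. -/
theorem m3x {C1 W' : ℝ≥0∞} (sum_w : ∀ ω, ∑ x, w x ω ≤ 1) {s : ℕ} {κ : K s} (hlow : ∀ ρ, cel s ρ = κ → low s κ ≤ p.row ρ)
    {ω : Ω} (hm : ∑ ρ, (if cel s ρ = κ then w ρ ω else 0) ≤
      C1 * W' * (∑ ρ, (if p.row ρ < low s κ then w ρ ω else 0) + ∑ ρ, if cel s ρ = κ then w ρ ω else 0))
    {x ρ0 : X} {D : ℤ} (h0 : cel s ρ0 = κ) (h1 : p.row ρ0 < p.row x - D) :
    ∑ ρ, (if cel s ρ = κ ∧ p.row ρ < p.row x - D then w ρ ω else 0) ≤ C1 * W' * em p.row w D x ω := by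
  set c := C1 * W' with hc
  set A := ∑ ρ, (if cel s ρ = κ ∧ p.row ρ < p.row x - D then w ρ ω else 0) with hA
  set B := ∑ ρ, (if p.row ρ < low s κ then w ρ ω else 0) with hB
  set Wk := ∑ ρ, (if cel s ρ = κ then w ρ ω else 0) with hWk
  have hAW : A ≤ Wk := by
    refine sum_le_sum fun ρ _ => ?_
    by_cases h2 : cel s ρ = κ
    · rw [if_pos h2]; split_ifs
      · exact le_rfl
      · exact zero_le
    · rw [if_neg h2, if_neg fun h3 => h2 h3.1]
  have hWt : Wk ≠ ⊤ := by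
    refine ne_top_of_le_ne_top ENNReal.one_ne_top (le_trans ?_ (sum_w ω))
    refine sum_le_sum fun ρ _ => ?_
    split_ifs
    · exact le_rfl
    · exact zero_le
  have hBA : B + A ≤ em p.row w D x ω := by
    rw [hA, hB, ← sum_add_distrib]
    unfold em
    refine sum_le_sum fun ρ _ => ?_
    have h3 : low s κ ≤ p.row ρ0 := hlow ρ0 h0
    by_cases h2 : p.row ρ < low s κ
    · have h4 : ¬ (cel s ρ = κ ∧ p.row ρ < p.row x - D) := fun h5 => absurd (hlow ρ h5.1) (not_le.2 h2)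
      rw [if_pos h2, if_neg h4, add_zero, if_pos (by omega)]
    · rw [if_neg h2, zero_add]
      by_cases h5 : cel s ρ = κ ∧ p.row ρ < p.row x - D
      · rw [if_pos h5, if_pos h5.2]
      · rw [if_neg h5]; exact zero_le
  refine le_trans ?_ (mul_le_mul' le_rfl hBA)
  rcases le_or_gt 1 c with h2 | h2
  · calc A ≤ 1 * (B + A) := by rw [one_mul]; exact le_add_self
      _ ≤ _ := mul_le_mul' h2 le_rfl
  · have h3 : (1 - c) + c = 1 := tsub_add_cancel_of_le h2.le
    have hct : c ≠ ⊤ := h2.ne_top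
    have h4 : (1 - c) * Wk ≤ c * B := by
      have h5 : (1 - c) * Wk + c * Wk ≤ c * B + c * Wk := by
        rw [← add_mul, h3, one_mul, ← mul_add]; exact hm
      exact (ENNReal.add_le_add_iff_right (ENNReal.mul_ne_top hct hWt)).1 h5
    calc A = (1 - c) * A + c * A := by rw [← add_mul, h3, one_mul]
      _ ≤ (1 - c) * Wk + c * A := add_le_add (mul_le_mul' le_rfl hAW) le_rfl
      _ ≤ c * B + c * A := add_le_add h4 le_rfl
      _ = _ := (mul_add _ _ _).symm

omit [MeasurableSpace Ω] in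
open Classical in
/-- THE POINTWISE MOVE. -/
theorem early_pt {c C1 : ℝ≥0∞} {q0 : ℕ} {S : ℕ → ℕ → Finset ℕ} {H : ∀ s, K s → Set Ω} (hθ : 1 ≤ p.θ)
    (sum_w : ∀ ω, ∑ x, w x ω ≤ 1) {t i s : ℕ} {κ : K s} {ω ω' : Ω}
    (hlow : ∀ ρ, cel s ρ = κ → low s κ ≤ p.row ρ)
    (M3 : ex (-p.be t i) ≤ ∑ ρ, (if cel s ρ = κ then w ρ ω else 0) → ∑ ρ, (if cel s ρ = κ then w ρ ω else 0) ≤
      C1 * (∑ ρ ∈ nb s κ, w ρ ω') *
        (∑ ρ, (if p.row ρ < low s κ then w ρ ω else 0) + ∑ ρ, if cel s ρ = κ then w ρ ω else 0))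
    (mvrow : ∀ x ρ ρ', p.rel i x ρ → cel s ρ = κ → ρ' ∈ nb s κ → ∀ k, i + p.m2 + p.m0 < k → k ≤ p.M →
      p.row x - p.dk k (t - 1) ≤ p.row ρ' - p.dk k (i + p.m2))
    (mvfa : ∀ x ρ ρ', p.rel i x ρ → cel s ρ = κ → ρ' ∈ nb s κ → ∀ t' k, i + p.m2 < t' → t' + p.m0 ≤ k → k ≤ p.M →
      fa t' k (t - 1) x ω ≤ fa t' k (i + p.m2) ρ' ω)
    (pot_early : ∀ x ρ ρ', p.rel i x ρ → cel s ρ = κ → ρ' ∈ nb s κ →
      (∀ u ∈ Ico (p.st t i) s, ω ∉ T u (cel u ρ) ∪ L u (cel u ρ)) → pot (t - 1) (p.sl (t - 1)) x ω ≤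
        p.θ ^ q0 * (1 + c)⁻¹ ^ (s - p.st t i) *
          ((∏ u ∈ S s i, fac (T u (cel u ρ')) c ω) * pot (i + p.m2) (p.sl (t - 1)) ρ' ω))
    (Himp : ∀ ρ, cel s ρ = κ → ex (-p.be t i) ≤ w ρ ω → p.κ3 ≤ lm p.row w (p.dl i) ρ ω → ω ∈ H s κ) :
    ∑ ρ, {ω | cel s ρ = κ ∧ ∀ u ∈ Ico (p.st t i) s, ω ∉ T u (cel u ρ) ∪ L u (cel u ρ)}.indicator
      (fun ω => ∑ x, w x ω * eaM p w fa pot t i x ρ ω) ω ≤
    C1 * p.θ ^ (i + p.m2 + 1 - t) * p.θ ^ q0 * (1 + c)⁻¹ ^ (s - p.st t i) * ∑ ρ ∈ nb s κ, w ρ ω' *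
      (hM p w fa pot t i ρ ∅ ω * (H s κ).indicator 1 ω * ∏ u ∈ S s i, fac (T u (cel u ρ)) c ω) := by
  set Bd : X → ℝ≥0∞ := fun ρ => hM p w fa pot t i ρ ∅ ω * (H s κ).indicator 1 ω *
    ∏ u ∈ S s i, fac (T u (cel u ρ)) c ω with hBd
  set Q := p.θ ^ (i + p.m2 + 1 - t) * p.θ ^ q0 * (1 + c)⁻¹ ^ (s - p.st t i) with hQ
  set I : X → Set Ω := fun ρ => {ω | cel s ρ = κ ∧ ∀ u ∈ Ico (p.st t i) s, ω ∉ T u (cel u ρ) ∪ L u (cel u ρ)} with hI
  -- one `x`
  have hx : ∀ x, ∑ ρ, (I ρ).indicator (eaM p w fa pot t i x ρ) ω ≤ C1 * (Q * ∑ ρ ∈ nb s κ, w ρ ω' * Bd ρ) := by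
    intro x
    by_cases hex : ∃ ρ0, ω ∈ I ρ0 ∧ Er p w fa t i x ω ∧ Gd p w t i x ρ0 ω ∧ p.row ρ0 < p.row x - p.dk i (t - 1)
    · obtain ⟨ρ0, hI0, hEr, hGd, hrow⟩ := hex
      have h0 : cel s ρ0 = κ := hI0.1
      have hH : ω ∈ H s κ := Himp ρ0 h0 hGd.2.1 hGd.2.2
      -- the weight is transported
      have hf : ∀ ρ' ∈ nb s κ, fct p w fa pot t i x ω ≤ Q * Bd ρ' := by
        intro ρ' hρ'
        have hcnt : cnt p w fa (i + p.m2) (t - 1) (p.sl (t - 1)) x ω ≤
            cnt p w fa (i + p.m2) (i + p.m2) (p.sl (t - 1)) ρ' ω := by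
          unfold cnt
          refine card_le_card fun t' ht' => ?_
          rw [mem_filter, mem_Ioc] at ht' ⊢
          obtain ⟨h1, k, hk, h2⟩ := ht'
          rw [mem_Icc] at hk
          refine ⟨h1, k, mem_Icc.2 hk, ?_⟩
          rcases h2 with h2 | h2
          · exact Or.inl (h2.trans (em_mono (mvrow x ρ0 ρ' hGd.1 h0 hρ' k (by omega) hk.2) ω))
          · exact Or.inr (h2.trans (mvfa x ρ0 ρ' hGd.1 h0 hρ' t' k h1.1 hk.1 hk.2))
        have hpt := pot_early x ρ0 ρ' hGd.1 h0 hρ' hI0.2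
        unfold fct
        rw [hQ, hBd]
        simp only
        rw [Set.indicator_of_mem hH]
        unfold hM
        simp only [sum_empty, add_zero, Pi.one_apply, mul_one]
        calc p.θ ^ (i + p.m2 + 1 - t) * (p.θ ^ cnt p w fa (i + p.m2) (t - 1) (p.sl (t - 1)) x ω *
              pot (t - 1) (p.sl (t - 1)) x ω)
            ≤ p.θ ^ (i + p.m2 + 1 - t) * (p.θ ^ cnt p w fa (i + p.m2) (i + p.m2) (p.sl (t - 1)) ρ' ω *
              (p.θ ^ q0 * (1 + c)⁻¹ ^ (s - p.st t i) *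
                ((∏ u ∈ S s i, fac (T u (cel u ρ')) c ω) * pot (i + p.m2) (p.sl (t - 1)) ρ' ω))) :=
              mul_le_mul' le_rfl (mul_le_mul' (pow_le_pow_right₀ hθ hcnt) hpt)
          _ = _ := by ring
      -- the law
      have hnu : ∑ ρ, (I ρ).indicator (eaM p w fa pot t i x ρ) ω ≤
          (C1 * ∑ ρ ∈ nb s κ, w ρ ω') * fct p w fa pot t i x ω := by
        set e := em p.row w (p.dk i (t - 1)) x ω with he
        have he0 : e ≠ 0 := (lt_of_lt_of_le (ex_pos _) hEr.2).ne'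
        have het : e ≠ ⊤ := ne_top_of_le_ne_top ENNReal.one_ne_top (em_le_one sum_w _ _ _)
        have hmass : ex (-p.be t i) ≤ ∑ ρ, (if cel s ρ = κ then w ρ ω else 0) := by
          refine hGd.2.1.trans ?_
          have := single_le_sum (f := fun ρ => if cel s ρ = κ then w ρ ω else 0) (fun _ _ => zero_le)
            (mem_univ ρ0)
          simpa only [h0, if_true] using this
        have h3 := m3x (C1 := C1) (W' := ∑ ρ ∈ nb s κ, w ρ ω') sum_w hlow (M3 hmass) h0 hrow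
        calc ∑ ρ, (I ρ).indicator (eaM p w fa pot t i x ρ) ω
            ≤ ∑ ρ, (if cel s ρ = κ ∧ p.row ρ < p.row x - p.dk i (t - 1) then w ρ ω else 0) *
                (e⁻¹ * fct p w fa pot t i x ω) := by
              refine sum_le_sum fun ρ _ => ?_
              by_cases h4 : ω ∈ I ρ
              · rw [Set.indicator_of_mem h4]
                unfold eaM
                by_cases h5 : Er p w fa t i x ω ∧ Gd p w t i x ρ ω
                · rw [if_pos h5]
                  unfold nu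
                  by_cases h6 : p.row ρ < p.row x - p.dk i (t - 1)
                  · rw [if_pos h6, if_pos ⟨h4.1, h6⟩, ENNReal.div_eq_inv_mul]
                    exact le_of_eq (by ring)
                  · rw [if_neg h6, zero_mul]; exact zero_le
                · rw [if_neg h5]; exact zero_le
              · rw [Set.indicator_of_notMem h4]; exact zero_le
          _ = (∑ ρ, if cel s ρ = κ ∧ p.row ρ < p.row x - p.dk i (t - 1) then w ρ ω else 0) *
                (e⁻¹ * fct p w fa pot t i x ω) := (sum_mul _ _ _).symm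
          _ ≤ (C1 * (∑ ρ ∈ nb s κ, w ρ ω') * e) * (e⁻¹ * fct p w fa pot t i x ω) := mul_le_mul' h3 le_rfl
          _ = (C1 * ∑ ρ ∈ nb s κ, w ρ ω') * (e * e⁻¹) * fct p w fa pot t i x ω := by ring
          _ = _ := by rw [ENNReal.mul_inv_cancel he0 het, mul_one]
      refine hnu.trans ?_
      calc (C1 * ∑ ρ ∈ nb s κ, w ρ ω') * fct p w fa pot t i x ω
          = C1 * ∑ ρ ∈ nb s κ, w ρ ω' * fct p w fa pot t i x ω := by rw [mul_assoc, sum_mul]
        _ ≤ C1 * ∑ ρ ∈ nb s κ, w ρ ω' * (Q * Bd ρ) :=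
            mul_le_mul' le_rfl (sum_le_sum fun ρ hρ => mul_le_mul' le_rfl (hf ρ hρ))
        _ = _ := by
            congr 1
            rw [mul_sum]
            exact sum_congr rfl fun ρ _ => by ring
    · refine le_trans (le_of_eq (sum_eq_zero fun ρ _ => ?_)) zero_le
      by_cases h4 : ω ∈ I ρ
      · rw [Set.indicator_of_mem h4]
        unfold eaM
        by_cases h5 : Er p w fa t i x ω ∧ Gd p w t i x ρ ω
        · rw [if_pos h5]
          unfold nu
          rw [if_neg, zero_mul]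
          exact fun h6 => hex ⟨ρ, h4, h5.1, h5.2, h6⟩
        · rw [if_neg h5]
      · rw [Set.indicator_of_notMem h4]
  calc ∑ ρ, (I ρ).indicator (fun ω => ∑ x, w x ω * eaM p w fa pot t i x ρ ω) ω
      = ∑ x, w x ω * ∑ ρ, (I ρ).indicator (eaM p w fa pot t i x ρ) ω := by
        simp_rw [mul_sum]
        rw [sum_comm]
        refine sum_congr rfl fun ρ _ => ?_
        by_cases h4 : ω ∈ I ρ
        · rw [Set.indicator_of_mem h4]
          exact sum_congr rfl fun x _ => by rw [Set.indicator_of_mem h4]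
        · rw [Set.indicator_of_notMem h4]
          exact (sum_eq_zero fun x _ => by rw [Set.indicator_of_notMem h4, mul_zero]).symm
    _ ≤ ∑ x, w x ω * (C1 * (Q * ∑ ρ ∈ nb s κ, w ρ ω' * Bd ρ)) :=
        sum_le_sum fun x _ => mul_le_mul' le_rfl (hx x)
    _ = (∑ x, w x ω) * (C1 * (Q * ∑ ρ ∈ nb s κ, w ρ ω' * Bd ρ)) := (sum_mul _ _ _).symm
    _ ≤ 1 * (C1 * (Q * ∑ ρ ∈ nb s κ, w ρ ω' * Bd ρ)) := mul_le_mul' (sum_w ω) le_rfl
    _ = _ := by rw [one_mul, hQ, hBd]; ring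

end Move

end Pool.Agent.W_7d29a1_C1.H49
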