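import Pool.Agent.W_7d29a1_C1.Skel49

/-!
Both halves (MP_7d29a1_pr), attractor route: MOVE THE CONTACT, the choice of `m0` (the last constant) and the final
number. (helper49)
-/

set_option autoImplicit false

namespace Pool.Agent.W_7d29a1_C1.H49

open MeasureTheory Finset Filter
open scoped ENNReal Topology

namespace SkelData

theorem price_le {θ c p C : ℝ≥0∞} {C' : ℕ} (m1 m3 : ℕ) (hθ : 1 ≤ θ) (hθ' : θ ≠ ⊤) (hc : 1 + c = θ ^ 2) (l : ℕ) :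
    price m1 c p C C' (fun l => θ ^ (l + m3)) l ≤
      θ ^ (m3 + 2 * (m1 + 1)) * ((l + 1) * (2 + p⁻¹ * C * C' * l) * θ⁻¹ ^ l) := by
  have h0 : θ ≠ 0 := (zero_lt_one.trans_le hθ).ne'
  have hinv : θ⁻¹ ≤ 1 := ENNReal.inv_le_one.2 hθ
  have hone : θ * θ⁻¹ = 1 := ENNReal.mul_inv_cancel h0 hθ'
  have e1 : (1 + c)⁻¹ = θ⁻¹ ^ 2 := by rw [hc, ENNReal.inv_pow]
  have key : ∀ k, l ≤ k + (m1 + 1) → θ ^ (l + m3) * (1 + c)⁻¹ ^ k ≤ θ ^ (m3 + 2 * (m1 + 1)) * θ⁻¹ ^ l := by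
    intro k hk
    rw [e1, ← pow_mul]
    have h2 : θ⁻¹ ^ (2 * k) ≤ θ ^ (2 * (m1 + 1)) * θ⁻¹ ^ (2 * l) := by
      calc θ⁻¹ ^ (2 * k) = θ ^ (2 * (m1 + 1)) * θ⁻¹ ^ (2 * (m1 + 1)) * θ⁻¹ ^ (2 * k) := by
            rw [← mul_pow, hone, one_pow, one_mul]
        _ = θ ^ (2 * (m1 + 1)) * θ⁻¹ ^ (2 * (m1 + 1) + 2 * k) := by rw [pow_add θ⁻¹, mul_assoc]
        _ ≤ _ := mul_le_mul' le_rfl (pow_le_pow_right_of_le_one' hinv (by omega))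
    calc θ ^ (l + m3) * θ⁻¹ ^ (2 * k) ≤ θ ^ (l + m3) * (θ ^ (2 * (m1 + 1)) * θ⁻¹ ^ (2 * l)) := by gcongr
      _ = θ ^ (m3 + 2 * (m1 + 1)) * ((θ * θ⁻¹) ^ l * θ⁻¹ ^ l) := by
          rw [mul_pow]; ring
      _ = _ := by rw [hone, one_pow, one_mul]
  unfold price
  calc (l + 1) * θ ^ (l + m3) * ((1 + c)⁻¹ ^ (l - m1 - 1) + p⁻¹ * C * C' * l * (1 + c)⁻¹ ^ (l - m1 - 1) +
        (1 + c)⁻¹ ^ l)
      = (l + 1) * ((1 + p⁻¹ * C * C' * l) * (θ ^ (l + m3) * (1 + c)⁻¹ ^ (l - m1 - 1)) +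
          θ ^ (l + m3) * (1 + c)⁻¹ ^ l) := by ring
    _ ≤ (l + 1) * ((1 + p⁻¹ * C * C' * l) * (θ ^ (m3 + 2 * (m1 + 1)) * θ⁻¹ ^ l) +
          θ ^ (m3 + 2 * (m1 + 1)) * θ⁻¹ ^ l) :=
        mul_le_mul' le_rfl (add_le_add (mul_le_mul' le_rfl (key _ (by omega))) (key _ (by omega)))
    _ = _ := by ring

theorem tsum_pow_ne_top {r : ℝ≥0∞} (hr : r < 1) (n : ℕ) : ∑' l : ℕ, (l : ℝ≥0∞) ^ n * r ^ l ≠ ⊤ := by
  have hrt : r ≠ ⊤ := hr.ne_top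
  have hr' : ‖r.toReal‖ < 1 := by
    rw [Real.norm_of_nonneg ENNReal.toReal_nonneg]
    exact (ENNReal.toReal_lt_toReal hrt ENNReal.one_ne_top).2 hr
  have hs := summable_pow_mul_geometric_of_norm_lt_one n hr'
  have e : ∀ l : ℕ, (l : ℝ≥0∞) ^ n * r ^ l = ENNReal.ofReal ((l : ℝ) ^ n * r.toReal ^ l) := fun l => by
    rw [ENNReal.ofReal_mul (by positivity), ENNReal.ofReal_pow (by positivity), ENNReal.ofReal_natCast,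
      ENNReal.ofReal_pow ENNReal.toReal_nonneg, ENNReal.ofReal_toReal hrt]
  rw [tsum_congr e]
  exact hs.tsum_ofReal_ne_top

theorem tsum_ne_top {θ B : ℝ≥0∞} (hθ : 1 < θ) (hB : B ≠ ⊤) :
    ∑' l : ℕ, ((l : ℝ≥0∞) + 1) * (2 + B * l) * θ⁻¹ ^ l ≠ ⊤ := by
  have hr : θ⁻¹ < 1 := ENNReal.inv_lt_one.2 hθ
  set r := θ⁻¹
  have h0 := tsum_pow_ne_top hr 0
  have h1 := tsum_pow_ne_top hr 1
  have h2 := tsum_pow_ne_top hr 2
  have e : ∀ l : ℕ, ((l : ℝ≥0∞) + 1) * (2 + B * l) * r ^ l =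
      2 * ((l : ℝ≥0∞) ^ 0 * r ^ l) + (2 + B) * ((l : ℝ≥0∞) ^ 1 * r ^ l) + B * ((l : ℝ≥0∞) ^ 2 * r ^ l) :=
    fun l => by ring
  rw [tsum_congr e, ENNReal.tsum_add, ENNReal.tsum_add, ENNReal.tsum_mul_left, ENNReal.tsum_mul_left,
    ENNReal.tsum_mul_left]
  finiteness

/-- The choice of `m0`. -/
theorem exists_m0 {θ c p C : ℝ≥0∞} (C' : ℕ) (m1 m3 : ℕ) (hθ : 1 < θ) (hθ' : θ ≠ ⊤) (hc : 1 + c = θ ^ 2) (hp : p ≠ 0)
    (hC : C ≠ ⊤) {δ : ℝ≥0∞} (hδ : δ ≠ 0) :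
    ∃ m0 : ℕ, ∀ m0' ≥ m0, ∀ M t : ℕ,
      ∑ i ∈ Icc (t + m0') M, price m1 c p C C' (fun l => θ ^ (l + m3)) (i - t) ≤ δ := by
  classical
  have hB : p⁻¹ * C * C' ≠ ⊤ :=
    ENNReal.mul_ne_top (ENNReal.mul_ne_top (ENNReal.inv_ne_top.2 hp) hC) (ENNReal.natCast_ne_top C')
  set F : ℕ → ℝ≥0∞ := fun l => θ ^ (m3 + 2 * (m1 + 1)) * ((l + 1) * (2 + p⁻¹ * C * C' * l) * θ⁻¹ ^ l) with hF
  have hF' : ∑' l, F l ≠ ⊤ := by
    rw [hF, ENNReal.tsum_mul_left]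
    exact ENNReal.mul_ne_top (by finiteness) (tsum_ne_top hθ hB)
  have h1 := ENNReal.tendsto_sum_nat_add F hF'
  have h2 : ∀ᶠ n in atTop, ∑' k, F (k + n) < δ := h1.eventually_lt_const (pos_iff_ne_zero.2 hδ)
  obtain ⟨m0, hm0⟩ := eventually_atTop.1 h2
  refine ⟨m0, fun m0' hm M t => ?_⟩
  calc ∑ i ∈ Icc (t + m0') M, price m1 c p C C' (fun l => θ ^ (l + m3)) (i - t)
      ≤ ∑ i ∈ Icc (t + m0') M, F (i - t) := sum_le_sum fun i _ => price_le m1 m3 hθ.le hθ' hc _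
    _ = ∑ k ∈ (Icc (t + m0') M).image (fun i => i - t - m0'), F (k + m0') := by
        rw [sum_image]
        · refine sum_congr rfl fun i hi => ?_
          rw [mem_Icc] at hi
          congr 1
          omega
        · intro a ha b hb hab
          simp only [coe_Icc, Set.mem_Icc] at ha hb
          simp only at hab
          omega
    _ ≤ ∑' k, F (k + m0') := ENNReal.sum_le_tsum _
    _ ≤ δ := (hm0 m0' hm).le

/-- SEP, NUMERIC FORM. `θ = (1 + c)^(1/2)`, `1 + δ = θ ^ (d / 4)`: if on the bad event at least `d M` scales are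
covered (`a`) and at most `d M / 8` slabs of a chain are abnormal (`b`), then its measure is at most `A₀ θ ^ (- d M / 2)`. -/
theorem sep {θ d : ℝ} {p C : ℝ≥0∞} (C' m1 m3 : ℕ) (hθ : 1 < θ) (hd : 0 < d) (hp : p ≠ 0) (hp' : p ≠ ⊤)
    (hC : C ≠ ⊤) :
    ∃ m0 : ℕ, ∀ m0' ≥ m0, ∀ {Ω : Type*} [MeasurableSpace Ω] {P : Measure Ω} [SFinite P]
      {X : Type*} [Fintype X] {K : ℕ → Type*} [∀ u, Fintype (K u)] {τ0 M m2 : ℕ} {cel : ∀ u, X → K u}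
      {R : ∀ u, K u → Ω → Ω → Ω} {T L : ∀ u, K u → Set Ω} {w : X → Ω → ℝ≥0∞} {nb : ∀ s, K s → Finset X}
      {A₀ : ℝ≥0∞} {g er : ℕ → X → Ω → ℝ≥0∞} {la : ℕ → ℕ → ℕ → X → Ω → ℝ≥0∞}
      {ea : ℕ → ℕ → ℕ → X → X → Ω → ℝ≥0∞} {h : ℕ → ℕ → ℕ → X → ℕ → Ω → ℝ≥0∞},
      SkelData P τ0 M m0' m1 m2 cel R T L w nb A₀ (ENNReal.ofReal (θ ^ 2 - 1)) p C C'
        (fun l => ENNReal.ofReal θ ^ (l + m3)) g er la ea h →
      ∀ {B : X → Set Ω}, (∀ x, MeasurableSet (B x)) → ∀ {a b : ℕ}, d * M ≤ a → b ≤ d * M / 8 →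
      (∀ x, ∀ ω ∈ B x, ENNReal.ofReal θ ^ a * (1 + ENNReal.ofReal (θ ^ 2 - 1))⁻¹ ^ b ≤ g τ0 x ω) →
      ∑ x, ∫⁻ ω in B x, w x ω ∂P ≤ A₀ * ENNReal.ofReal (θ ^ (-(d / 2) * M)) := by
  have hθ0 : 0 < θ := by linarith
  set c : ℝ≥0∞ := ENNReal.ofReal (θ ^ 2 - 1) with hcdef
  set δ : ℝ := θ ^ (d / 4) - 1 with hδdef
  have hδ : 0 < δ := by
    have : 1 < θ ^ (d / 4) := Real.one_lt_rpow hθ (by positivity)
    rw [hδdef]; linarith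
  have hc : 1 + c = ENNReal.ofReal θ ^ 2 := by
    have h2 : 0 ≤ θ ^ 2 - 1 := by nlinarith
    rw [hcdef, ← ENNReal.ofReal_one, ← ENNReal.ofReal_add zero_le_one h2, ← ENNReal.ofReal_pow hθ0.le]
    congr 1; ring
  have hθ1 : 1 < ENNReal.ofReal θ := by
    rw [← ENNReal.ofReal_one]; exact (ENNReal.ofReal_lt_ofReal_iff hθ0).2 hθ
  obtain ⟨m0, hm0⟩ := exists_m0 (θ := ENNReal.ofReal θ) (c := c) (p := p) (C := C) C' m1 m3 hθ1 ENNReal.ofReal_ne_top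
    hc hp hC (δ := ENNReal.ofReal δ) (ENNReal.ofReal_pos.2 hδ).ne'
  refine ⟨m0, fun m0' hm0' Ω _ P _ X _ K _ τ0 M m2 cel R T L w nb A₀ g er la ea h D B mB a b ha hb hB => ?_⟩
  have hκ0 : ENNReal.ofReal θ ^ a * (1 + c)⁻¹ ^ b ≠ 0 := by
    refine mul_ne_zero (pow_ne_zero _ (ENNReal.ofReal_pos.2 hθ0).ne') (pow_ne_zero _ ?_)
    exact ENNReal.inv_ne_zero.2 (by finiteness)
  have hκt : ENNReal.ofReal θ ^ a * (1 + c)⁻¹ ^ b ≠ ⊤ := by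
    have : (1 + c)⁻¹ ≠ ⊤ := ENNReal.inv_ne_top.2 (by positivity)
    finiteness
  refine (D.bad ENNReal.ofReal_ne_top hp hp' (hm0 m0' hm0' M) mB hκ0 hκt hB).trans ?_
  have e1 : ENNReal.ofReal θ ^ a * (1 + c)⁻¹ ^ b = ENNReal.ofReal (θ ^ (a : ℝ) * θ ^ (-(2 * b : ℝ))) := by
    rw [hc, ENNReal.ofReal_mul (by positivity), Real.rpow_natCast, ENNReal.ofReal_pow hθ0.le]
    congr 1
    rw [Real.rpow_neg hθ0.le, ENNReal.ofReal_inv_of_pos (by positivity), ← ENNReal.ofReal_pow hθ0.le,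
      ← ENNReal.ofReal_inv_of_pos (by positivity), ← ENNReal.ofReal_inv_of_pos (by positivity),
      ← ENNReal.ofReal_pow (by positivity)]
    congr 1
    rw [inv_pow, ← pow_mul, show (2 * b : ℝ) = ((2 * b : ℕ) : ℝ) by push_cast; ring, Real.rpow_natCast]
  have e2 : (1 + ENNReal.ofReal δ) ^ M = ENNReal.ofReal (θ ^ (d / 4 * M)) := by
    rw [← ENNReal.ofReal_one, ← ENNReal.ofReal_add zero_le_one hδ.le, ← ENNReal.ofReal_pow (by positivity)]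
    congr 1
    rw [hδdef, add_sub_cancel, Real.rpow_mul hθ0.le, Real.rpow_natCast]
  rw [e1, e2, ← ENNReal.ofReal_inv_of_pos (by positivity), mul_left_comm, ← ENNReal.ofReal_mul (by positivity)]
  refine mul_le_mul' le_rfl (ENNReal.ofReal_le_ofReal ?_)
  rw [← Real.rpow_add hθ0, ← Real.rpow_neg hθ0.le, ← Real.rpow_add hθ0]
  refine Real.rpow_le_rpow_of_exponent_le hθ.le ?_
  linarith

end SkelData

end Pool.Agent.W_7d29a1_C1.H49
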