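import Pool.Agent.W_7d29a1_C1.SkelN49

/-!
Both halves (MP_7d29a1_pr), attractor route: MOVE THE CONTACT, assembly with integrated fields: the renewal of the
stretches, for the early coverage (the contact moves) and for the late coverage (it stays). (helper49)
-/

set_option autoImplicit false

namespace Pool.Agent.W_7d29a1_C1.H49

open MeasureTheory Finset Filter
open scoped ENNReal Topology

variable {Ω : Type*} [MeasurableSpace Ω] {P : Measure Ω}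

/-- THE DATA. `w x` = weight of the contact `x`, `g τ x` = weight of the covered scales `> τ`; for the first covered
scale `t` and the end `i` of its stretch: `la t i x` = the part where the contact stays, `ea t i x ρ` = where it moves to
`ρ`; `er` = no scale covered, or something negligible; `pr l` = the price of a stretch of length `l`. -/
structure RenData {X : Type*} [Fintype X] (P : Measure Ω) (τ0 M m0 m2 : ℕ) (w : X → Ω → ℝ≥0∞) (A₀ : ℝ≥0∞)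
    (pr : ℕ → ℝ≥0∞) (g er : ℕ → X → Ω → ℝ≥0∞) (la : ℕ → ℕ → X → Ω → ℝ≥0∞)
    (ea : ℕ → ℕ → X → X → Ω → ℝ≥0∞) : Prop where
  mw : ∀ x, Measurable (w x)
  mer : ∀ τ x, Measurable (er τ x)
  mla : ∀ t i x, Measurable (la t i x)
  mea : ∀ t i x ρ, Measurable (ea t i x ρ)
  er_le : ∀ τ, τ0 ≤ τ → ∑ x, ∫⁻ ω, w x ω * er τ x ω ∂P ≤ A₀
  dec : ∀ τ x ω, τ0 ≤ τ → g τ x ω ≤ er τ x ω + ∑ t ∈ Ioc τ M, ∑ i ∈ Icc (t + m0) M,
    (la t i x ω + ∑ ρ, ea t i x ρ ω)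
  late_le : ∀ t i x, τ0 < t → t + m0 ≤ i → i ≤ M →
    ∫⁻ ω, w x ω * la t i x ω ∂P ≤ pr (i - t) * ∫⁻ ω, w x ω * g (i + m2) x ω ∂P
  early_le : ∀ t i, τ0 < t → t + m0 ≤ i → i ≤ M →
    ∑ ρ, ∫⁻ ω, ∑ x, w x ω * ea t i x ρ ω ∂P ≤ pr (i - t) * ∑ x, ∫⁻ ω, w x ω * g (i + m2) x ω ∂P

namespace RenData

variable {X : Type*} [Fintype X] {τ0 M m0 m2 : ℕ} {w : X → Ω → ℝ≥0∞} {A₀ : ℝ≥0∞} {pr : ℕ → ℝ≥0∞}
    {g er : ℕ → X → Ω → ℝ≥0∞} {la : ℕ → ℕ → X → Ω → ℝ≥0∞} {ea : ℕ → ℕ → X → X → Ω → ℝ≥0∞}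

/-- The total weight, scales `> τ`. -/
noncomputable def V (P : Measure Ω) (w : X → Ω → ℝ≥0∞) (g : ℕ → X → Ω → ℝ≥0∞) (τ : ℕ) : ℝ≥0∞ :=
  ∑ x, ∫⁻ ω, w x ω * g τ x ω ∂P

/-- One stretch. -/
theorem step (d : RenData P τ0 M m0 m2 w A₀ pr g er la ea) (τ : ℕ) (hτ : τ0 ≤ τ) :
    V P w g τ ≤ A₀ + ∑ t ∈ Ioc τ M, ∑ i ∈ Icc (t + m0) M, 2 * pr (i - t) * V P w g (i + m2) := by
  classical
  have ma : ∀ x t i, Measurable fun ω => w x ω * la t i x ω := fun x t i => (d.mw x).mul (d.mla t i x)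
  have m2' : ∀ x t i ρ, Measurable fun ω => w x ω * ea t i x ρ ω := fun x t i ρ =>
    (d.mw x).mul (d.mea t i x ρ)
  have h1 : V P w g τ ≤ (∑ x, ∫⁻ ω, w x ω * er τ x ω ∂P) + ∑ t ∈ Ioc τ M, ∑ i ∈ Icc (t + m0) M,
      ((∑ x, ∫⁻ ω, w x ω * la t i x ω ∂P) + ∑ ρ, ∫⁻ ω, ∑ x, w x ω * ea t i x ρ ω ∂P) := by
    have e1 : ∀ x, ∫⁻ ω, w x ω * g τ x ω ∂P ≤ (∫⁻ ω, w x ω * er τ x ω ∂P) + ∑ t ∈ Ioc τ M,
        ∑ i ∈ Icc (t + m0) M, ((∫⁻ ω, w x ω * la t i x ω ∂P) + ∑ ρ, ∫⁻ ω, w x ω * ea t i x ρ ω ∂P) := by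
      intro x
      calc ∫⁻ ω, w x ω * g τ x ω ∂P
          ≤ ∫⁻ ω, (w x ω * er τ x ω + ∑ t ∈ Ioc τ M, ∑ i ∈ Icc (t + m0) M,
              (w x ω * la t i x ω + ∑ ρ, w x ω * ea t i x ρ ω)) ∂P := by
            refine lintegral_mono fun ω => ?_
            calc w x ω * g τ x ω ≤ w x ω * (er τ x ω + ∑ t ∈ Ioc τ M, ∑ i ∈ Icc (t + m0) M,
                (la t i x ω + ∑ ρ, ea t i x ρ ω)) := by gcongr; exact d.dec τ x ω hτ
              _ = _ := by simp only [mul_add, mul_sum]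
        _ = _ := by
            have m3 : ∀ t i, Measurable fun ω => w x ω * la t i x ω + ∑ ρ, w x ω * ea t i x ρ ω :=
              fun t i => (ma x t i).add (Finset.measurable_sum _ fun ρ _ => m2' x t i ρ)
            have m4 : ∀ t, Measurable fun ω => ∑ i ∈ Icc (t + m0) M,
                (w x ω * la t i x ω + ∑ ρ, w x ω * ea t i x ρ ω) := fun t =>
              Finset.measurable_sum _ fun i _ => m3 t i
            have m0' : Measurable fun ω => w x ω * er τ x ω := (d.mw x).mul (d.mer τ x)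
            rw [lintegral_add_left m0']
            congr 1
            rw [lintegral_finsetSum _ fun t _ => m4 t]
            refine sum_congr rfl fun t _ => ?_
            rw [lintegral_finsetSum _ fun i _ => m3 t i]
            refine sum_congr rfl fun i _ => ?_
            rw [lintegral_add_left (ma x t i), lintegral_finsetSum _ fun ρ _ => m2' x t i ρ]
    refine (sum_le_sum fun x _ => e1 x).trans (le_of_eq ?_)
    rw [sum_add_distrib, sum_comm]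
    congr 1
    refine sum_congr rfl fun t _ => ?_
    rw [sum_comm]
    refine sum_congr rfl fun i _ => ?_
    rw [sum_add_distrib]
    congr 1
    rw [sum_comm]
    refine sum_congr rfl fun ρ _ => ?_
    rw [lintegral_finsetSum _ fun x _ => m2' x t i ρ]
  refine h1.trans ?_
  refine add_le_add (d.er_le τ hτ) (sum_le_sum fun t ht => sum_le_sum fun i hi => ?_)
  have h1t : τ0 < t := by rw [mem_Ioc] at ht; omega
  have h2t : t + m0 ≤ i := (mem_Icc.1 hi).1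
  have h3t : i ≤ M := (mem_Icc.1 hi).2
  calc _ ≤ pr (i - t) * V P w g (i + m2) + pr (i - t) * V P w g (i + m2) := by
        refine add_le_add ?_ (d.early_le t i h1t h2t h3t)
        refine (sum_le_sum fun x _ => d.late_le t i x h1t h2t h3t).trans (le_of_eq ?_)
        rw [← mul_sum]; rfl
    _ = _ := by ring

/-- THE RENEWAL. -/
theorem total (d : RenData P τ0 M m0 m2 w A₀ pr g er la ea) {δ : ℝ≥0∞}
    (hδ : ∀ t, ∑ i ∈ Icc (t + m0) M, 2 * pr (i - t) ≤ δ) (τ : ℕ) (hτ : τ0 ≤ τ) :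
    V P w g τ ≤ A₀ * (1 + δ) ^ (M - τ) :=
  renewal (V := fun _ τ => V P w g τ) (b := fun t i => 2 * pr (i - t)) hδ (fun _ τ h => d.step τ h) 0 τ hτ

/-- If on the bad event `B x` the weight `g τ0 x` is at least `κ`, then its measure is at most `κ⁻¹ A₀ (1 + δ) ^ M`. -/
theorem bad (d : RenData P τ0 M m0 m2 w A₀ pr g er la ea) {δ : ℝ≥0∞}
    (hδ : ∀ t, ∑ i ∈ Icc (t + m0) M, 2 * pr (i - t) ≤ δ) {B : X → Set Ω} (mB : ∀ x, MeasurableSet (B x))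
    {κ : ℝ≥0∞} (hκ : κ ≠ 0) (hκ' : κ ≠ ⊤) (hB : ∀ x, ∀ ω ∈ B x, κ ≤ g τ0 x ω) :
    ∑ x, ∫⁻ ω in B x, w x ω ∂P ≤ κ⁻¹ * (A₀ * (1 + δ) ^ M) := by
  classical
  have hone : κ⁻¹ * κ = 1 := ENNReal.inv_mul_cancel hκ hκ'
  have h1 := (d.total hδ τ0 le_rfl).trans
    (mul_le_mul' le_rfl (pow_le_pow_right₀ le_self_add (Nat.sub_le M τ0) : (1 + δ) ^ (M - τ0) ≤ (1 + δ) ^ M))
  calc ∑ x, ∫⁻ ω in B x, w x ω ∂P = κ⁻¹ * (κ * ∑ x, ∫⁻ ω in B x, w x ω ∂P) := by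
        rw [← mul_assoc, hone, one_mul]
    _ ≤ κ⁻¹ * V P w g τ0 := by
        gcongr
        rw [mul_sum]
        refine sum_le_sum fun x _ => ?_
        rw [← lintegral_const_mul _ (d.mw x)]
        calc ∫⁻ ω in B x, κ * w x ω ∂P ≤ ∫⁻ ω in B x, w x ω * g τ0 x ω ∂P := by
              refine setLIntegral_mono' (mB x) fun ω hω => ?_
              rw [mul_comm]
              gcongr
              exact hB x ω hω
          _ ≤ _ := setLIntegral_le_lintegral _ _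
    _ ≤ _ := mul_le_mul' le_rfl h1

/-- The choice of `m0` for the prices `Q (l + 1)ⁿ θ⁻ˡ`. -/
theorem exists_m0 {θ Q : ℝ≥0∞} (n : ℕ) (hθ : 1 < θ) (hQ : Q ≠ ⊤) {δ : ℝ≥0∞} (hδ : δ ≠ 0) :
    ∃ m0 : ℕ, ∀ m0' ≥ m0, ∀ M t : ℕ,
      ∑ i ∈ Icc (t + m0') M, 2 * (Q * ((i - t : ℕ) + 1) ^ n * θ⁻¹ ^ (i - t)) ≤ δ := by
  classical
  set F : ℕ → ℝ≥0∞ := fun l => 2 * (Q * (l + 1) ^ n * θ⁻¹ ^ l) with hF
  have hF' : ∑' l, F l ≠ ⊤ := by
    rcases eq_or_ne θ ⊤ with h0 | h0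
    · have e : ∀ l : ℕ, l ∉ ({0} : Finset ℕ) → F l = 0 := fun l hl => by
        have h1 : l ≠ 0 := fun h2 => hl (mem_singleton.2 h2)
        simp [hF, h0, h1]
      rw [tsum_eq_sum e]
      simp [hF, ENNReal.mul_ne_top, hQ]
    · have h1 := SkelData.tsum_pow_ne_top (ENNReal.inv_lt_one.2 hθ) n
      have h2 : ∑' l : ℕ, ((l + 1 : ℕ) : ℝ≥0∞) ^ n * θ⁻¹ ^ (l + 1) ≠ ⊤ :=
        ne_top_of_le_ne_top h1 (ENNReal.tsum_comp_le_tsum_of_injective (add_left_injective 1)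
          (fun l : ℕ => (l : ℝ≥0∞) ^ n * θ⁻¹ ^ l))
      have hone : θ * θ⁻¹ = 1 := ENNReal.mul_inv_cancel (zero_lt_one.trans hθ).ne' h0
      have e : ∀ l : ℕ, F l = 2 * Q * θ * (((l + 1 : ℕ) : ℝ≥0∞) ^ n * θ⁻¹ ^ (l + 1)) := fun l => by
        calc F l = 2 * (Q * ((l : ℝ≥0∞) + 1) ^ n * θ⁻¹ ^ l) * 1 := by rw [mul_one]
          _ = 2 * (Q * ((l : ℝ≥0∞) + 1) ^ n * θ⁻¹ ^ l) * (θ * θ⁻¹) := by rw [hone]
          _ = _ := by push_cast; ring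
      rw [tsum_congr e, ENNReal.tsum_mul_left]
      exact ENNReal.mul_ne_top (by finiteness) h2
  have h1 := ENNReal.tendsto_sum_nat_add F hF'
  have h2 : ∀ᶠ n in atTop, ∑' k, F (k + n) < δ := h1.eventually_lt_const (pos_iff_ne_zero.2 hδ)
  obtain ⟨m0, hm0⟩ := eventually_atTop.1 h2
  refine ⟨m0, fun m0' hm M t => ?_⟩
  calc ∑ i ∈ Icc (t + m0') M, F (i - t)
      = ∑ k ∈ (Icc (t + m0') M).image (fun i => i - t - m0'), F (k + m0') := by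
        rw [sum_image]
        · refine sum_congr rfl fun i hi => ?_
          rw [mem_Icc] at hi
          congr 1
          omega
        · intro a ha b hb hab
          simp only [coe_Icc, Set.mem_Icc] at ha hb
          simp only at hab
          omega
    _ ≤ ∑' k, F (k + m0') := ENNReal.sum_le_tsum _
    _ ≤ δ := (hm0 m0' hm).le

/-- SEP, NUMERIC FORM: prices `Q (l + 1)ⁿ θ⁻ˡ`; if on the bad event `θ ^ (a) (θ²)⁻ᵇ ≤ g τ0 x` with `a ≥ d M` (covered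
scales) and `b ≤ d M / 8` (abnormal slabs of a chain), then its measure is at most `A₀ θ ^ (- d M / 2)`. -/
theorem sep {θ d : ℝ} {Q : ℝ≥0∞} (n : ℕ) (hθ : 1 < θ) (hd : 0 < d) (hQ : Q ≠ ⊤) :
    ∃ m0 : ℕ, ∀ m0' ≥ m0, ∀ {Ω : Type*} [MeasurableSpace Ω] {P : Measure Ω}
      {X : Type*} [Fintype X] {τ0 M m2 : ℕ} {w : X → Ω → ℝ≥0∞} {A₀ : ℝ≥0∞} {g er : ℕ → X → Ω → ℝ≥0∞}
      {la : ℕ → ℕ → X → Ω → ℝ≥0∞} {ea : ℕ → ℕ → X → X → Ω → ℝ≥0∞},
      RenData P τ0 M m0' m2 w A₀ (fun l => Q * (l + 1) ^ n * (ENNReal.ofReal θ)⁻¹ ^ l) g er la ea →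
      ∀ {B : X → Set Ω}, (∀ x, MeasurableSet (B x)) → ∀ {a b : ℕ}, d * M ≤ a → b ≤ d * M / 8 →
      (∀ x, ∀ ω ∈ B x, ENNReal.ofReal θ ^ a * (ENNReal.ofReal θ ^ 2)⁻¹ ^ b ≤ g τ0 x ω) →
      ∑ x, ∫⁻ ω in B x, w x ω ∂P ≤ A₀ * ENNReal.ofReal (θ ^ (-(d / 2) * M)) := by
  have hθ0 : 0 < θ := by linarith
  set δ : ℝ := θ ^ (d / 4) - 1 with hδdef
  have hδ : 0 < δ := by
    have : 1 < θ ^ (d / 4) := Real.one_lt_rpow hθ (by positivity)
    rw [hδdef]; linarith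
  have hθ1 : 1 < ENNReal.ofReal θ := by
    rw [← ENNReal.ofReal_one]; exact (ENNReal.ofReal_lt_ofReal_iff hθ0).2 hθ
  obtain ⟨m0, hm0⟩ := exists_m0 (θ := ENNReal.ofReal θ) n hθ1 hQ (δ := ENNReal.ofReal δ)
    (ENNReal.ofReal_pos.2 hδ).ne'
  refine ⟨m0, fun m0' hm0' Ω _ P X _ τ0 M m2 w A₀ g er la ea D B mB a b ha hb hB => ?_⟩
  have hκ0 : ENNReal.ofReal θ ^ a * (ENNReal.ofReal θ ^ 2)⁻¹ ^ b ≠ 0 := by
    refine mul_ne_zero (pow_ne_zero _ (ENNReal.ofReal_pos.2 hθ0).ne') (pow_ne_zero _ ?_)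
    exact ENNReal.inv_ne_zero.2 (by finiteness)
  have hκt : ENNReal.ofReal θ ^ a * (ENNReal.ofReal θ ^ 2)⁻¹ ^ b ≠ ⊤ := by
    have : (ENNReal.ofReal θ ^ 2)⁻¹ ≠ ⊤ := ENNReal.inv_ne_top.2 (pow_ne_zero _ (ENNReal.ofReal_pos.2 hθ0).ne')
    finiteness
  refine (D.bad (hm0 m0' hm0' M) mB hκ0 hκt hB).trans ?_
  have e1 : ENNReal.ofReal θ ^ a * (ENNReal.ofReal θ ^ 2)⁻¹ ^ b =
      ENNReal.ofReal (θ ^ (a : ℝ) * θ ^ (-(2 * b : ℝ))) := by
    rw [ENNReal.ofReal_mul (by positivity), Real.rpow_natCast, ENNReal.ofReal_pow hθ0.le]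
    congr 1
    rw [Real.rpow_neg hθ0.le, ENNReal.ofReal_inv_of_pos (by positivity), ← ENNReal.ofReal_pow hθ0.le,
      ← ENNReal.ofReal_inv_of_pos (by positivity), ← ENNReal.ofReal_inv_of_pos (by positivity),
      ← ENNReal.ofReal_pow (by positivity)]
    congr 1
    rw [inv_pow, ← pow_mul, show (2 * b : ℝ) = ((2 * b : ℕ) : ℝ) by push_cast; ring, Real.rpow_natCast]
  have e2 : (1 + ENNReal.ofReal δ) ^ M = ENNReal.ofReal (θ ^ (d / 4 * M)) := by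
    rw [← ENNReal.ofReal_one, ← ENNReal.ofReal_add zero_le_one hδ.le, ← ENNReal.ofReal_pow (by positivity)]
    congr 1
    rw [hδdef, add_sub_cancel, Real.rpow_mul hθ0.le, Real.rpow_natCast]
  rw [e1, e2, ← ENNReal.ofReal_inv_of_pos (by positivity), mul_left_comm, ← ENNReal.ofReal_mul (by positivity)]
  refine mul_le_mul' le_rfl (ENNReal.ofReal_le_ofReal ?_)
  rw [← Real.rpow_add hθ0, ← Real.rpow_neg hθ0.le, ← Real.rpow_add hθ0]
  refine Real.rpow_le_rpow_of_exponent_le hθ.le ?_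
  linarith

end RenData

end Pool.Agent.W_7d29a1_C1.H49
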