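import Pool.Agent.W_7d29a1_C1.PcD65
import Pool.Agent.W_7d29a1_C1.SwU40
import Pool.Agent.W_7d29a1_C1.TmO6
import Pool.Agent.W_7d29a1_C1.FwC75

/-!
MP_7d29a1_pr, the attractor route [C1], TAME: THE CHAINS OF SLABS OF THE STARTS OF AN OWN SLAB. (helper65)

`chn65`: at an own slab `(u, ρ)` where nothing is felt (canonical depths of helper6), every start `(k, y)`, `lo - T (u - 2) ≤ k ≤ ra`, ANY
lateral position, is joined to the row `rt78` of the cut `ct u ρ` by a chain of slabs of cost `Q = 7 C₃ (1 + q₀)²`, and reaches the sites within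
`A₀` widths of the start with the exponent `Q gr (2P) (|lat - ctr| / wd + 2)` (piece: `pcD65`; slabs and lower bound: `pcl63` of helper63).
**`slS65`** : the clause `SlT78` (input of `stC78`), **`slF65`** : the clause `SlF75` (input of `fwC75`), for any `Sw`, `E`, `E3`, `Fs ∋ id`;
**`slSU65`**, **`slFU65`** : the same as `ClU40`.
Order: `α₀, K₁ | P, K, θ, A₀ | m₁ | j₁ | D, ε | C₃, m₂ | T, α, n₁, everything else`.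
-/

set_option autoImplicit false

namespace Pool.Agent.W_7d29a1_C1.PcD65

open MeasureTheory ProbabilityTheory Finset Filter
open Pool.Agent.W_7d29a1_F hiding Bw G
open Pool.Agent.W_7d29a1_h4g Pool.Agent.W_7d29a1_HS
open Pool.Agent.W_7d29a1_H hiding ex gg
open Pool.Agent.W_7d29a1_C1.H60
open Pool.Agent.W_7d29a1_C1.H75 Pool.Agent.W_7d29a1_C1.U16 Pool.Agent.W_7d29a1_C1.H40 Pool.Agent.W_7d29a1_C1.S71
open Pool.Agent.W_7d29a1_C1.Dep6 Pool.Agent.W_7d29a1_C1.TpF63 Pool.Agent.W_7d29a1_C1.PcS63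
open Pool.Agent.W_7d29a1_C1.G37 (Gm)
open Pool.Agent.W_7d29a1_C1.FarK89 (gr gr_nonneg gr_one_le gr_mono)
open Pool.Agent.W_7d29a1_C1.FarW89 (nk Slabs)
open Pool.Agent.W_7d29a1_C1.SF98
open Pool.Agent.W_7d29a1_C1.PW86
open Pool.Agent.W_7d29a1_C1.Sy78 (rt78 SlT78 Rg)
open Pool.Agent.W_7d29a1_C1.FW75 (SlF75)

noncomputable section

variable {μ : Measure ℝ} {s c C : ℝ} {n₀ : ℕ} [IsProbabilityMeasure μ]

/-- The cost of the chains. -/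
def Qc65 (C₃ q₀ : ℝ) : ℝ := C₃ * (1 + (6 : ℕ)) * (1 + q₀) ^ 2

theorem Qc65_nonneg {C₃ q₀ : ℝ} (h : 0 ≤ C₃) : 0 ≤ Qc65 C₃ q₀ := by
  unfold Qc65
  positivity

omit [IsProbabilityMeasure μ] in
theorem lat16_lat65 {G : Gm} (hv : G.v = sl μ s) (o : Pt) (k : ℕ) (y : ℤ) :
    lat16 μ s o ((k : ℤ), y) = G.lat (k, y) - ((o.2 : ℝ) - G.v * (o.1 : ℝ)) := by
  unfold lat16 Gm.lat
  rw [hv]
  push_cast
  ring

/-- **THE CHAINS OF AN OWN SLAB.** -/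
theorem chn65 (h0 : In μ s c C n₀) : ∃ (α₀ : ℝ) (K₁ : ℕ), 0 < α₀ ∧ α₀ ≤ 1 ∧ 2 ≤ K₁ ∧ ∀ (P : ℕ) {K θ A₀ : ℝ}, 1 ≤ P → 0 ≤ A₀ →
    2 * A₀ + 12 ≤ K → 0 < θ → θ ≤ 1 / 2 → ∃ m₁ : ℕ, 1 ≤ m₁ ∧ ∀ j₁ : ℕ, m₁ ≤ 2 ^ j₁ → ∀ (D : ℕ) (ε : ℝ), 0 ≤ ε → ε ≤ α₀ →
      ∃ (C₃ : ℝ) (m₂ : ℕ), 1 ≤ C₃ ∧ 1 ≤ m₂ ∧ ∀ {T : Tc6} {Γ : Cx} {G : Gm} {mt : ℕ} {A a g A' a' g' α : ℝ} {n₁ : ℕ}, T.K = K → T.θ = θ →
        T.e = ε → T.P = P → T.j₁ = j₁ → Tg6 μ s c G T A a g A' a' g' → Γ.s = s → G.v = sl μ s → (∀ v, G.w v = wd μ s (G.T v)) →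
        0 ≤ α → α ≤ α₀ → T.Th ≤ (G.K : ℝ) ^ α → K₁ ≤ G.K → 64 * (G.K : ℝ) ^ 2 * θ ≤ 1 → m₂ ≤ n₁ → n₁ ≤ G.T0 →
        ∀ {C0 : ℝ} {C2 : ℕ}, 2 ≤ C2 → C0 ≤ (G.K : ℝ) ^ C2 → ∀ {Sw : Finset ℤ} {E : Cut (ℤ × ℤ) → Cut (ℤ × ℤ) → Set Env}
        {E3 : Cut (ℤ × ℤ) → Cut (ℤ × ℤ) → Cut (ℤ × ℤ) → Set Env} {Dd : ℕ} {η : Env} (ρ : XS Γ G mt) (u : ℕ) (Z : List (Cut (ℤ × ℤ))),
        PW (gj Γ G mt) Z → ODW (gj Γ G mt) (fun x => G.lat x.1) G.latC G.w C0 C2 D Z ρ u →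
        Ok6 Sw (dLC6 μ s c G T E Dd) (dNC6 μ s c G T E3 Dd) lb6 lbN6 Z u η → u < Dd →
        |Γ.h| * wd μ s (HsC6 G u) ≤ c / 8 * EE μ s (HsC6 G u) → ∀ (k : ℕ) (y : ℤ), G.lo u (G.loc u ρ.1) - (G.T (u - 2) : ℤ) ≤ (k : ℤ) →
        k ≤ G.ra u (G.loc u ρ.1) → ∃ (o : Pt) (r T' N : ℕ → ℕ) (q : ℕ → ℝ) (bs : ℕ → Pt) (i₁ i₂ : ℕ), i₁ ≤ i₂ ∧ r i₁ = k ∧
          r i₂ = rt78 G u (G.loc u ρ.1) ∧ |((o.2 : ℝ) - G.v * (o.1 : ℝ)) - G.ctr u (G.loc u ρ.1)| ≤ 1 ∧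
          Slabs μ s c θ (K - 2) Γ.h P η o r T' N q bs i₁ i₂ (HsC6 G u) n₁ (Qc65 C₃ T.q₀) ∧
          ∀ z : ℤ, |G.lat (rt78 G u (G.loc u ρ.1), z) - G.lat (k, y)| ≤ A₀ * wd μ s (HsC6 G u) →
            Real.exp (-(Qc65 C₃ T.q₀ * gr (2 * P) (|G.lat (k, y) - G.ctr u (G.loc u ρ.1)| / wd μ s (HsC6 G u) + 2) * EE μ s (HsC6 G u))) ≤
              nk μ s Γ.h η Γ.p Γ.M k (rt78 G u (G.loc u ρ.1) - k) y z := by
  obtain ⟨α₀, K₁, hα₀, hα₁, hK₁, H⟩ := pcl63 h0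
  refine ⟨α₀, K₁, hα₀, hα₁, hK₁, fun P K θ A₀ hP hA₀ hKA hθ hθ2 => ?_⟩
  obtain ⟨m₁, hm₁, H⟩ := H P hP hA₀ hKA hθ hθ2
  refine ⟨m₁, hm₁, fun j₁ hj₁ D ε hε hεα => ?_⟩
  obtain ⟨C₃, m₂, hC₃, hm₂, H⟩ := H j₁ hj₁ (D + 1) 8 ε (by norm_num) hε hεα
  refine ⟨C₃, m₂, hC₃, hm₂, ?_⟩
  intro T Γ G mt A a g A' a' g' α n₁ eK eθ ee eP ej hT hs hv hw hα hαα hTh hKK hθK hmn hnT C0 C2 hC2 hC0 Sw E E3 Dd η ρ u Z hPW hOD ho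
    hDd hfr k y hk1 hk2
  subst eK eθ ee eP ej
  obtain ⟨v0, v1, v2, iL, iC, iT, hO⟩ := ownL hPW hOD
  obtain ⟨cs, hcs⟩ : ∃ cs : ℕ → Cut (ℤ × ℤ), cs = fun i => Z.getD i ((gj Γ G mt).ct 0 ρ) := ⟨_, rfl⟩
  rw [← hcs] at hO
  have a1 := hO.v0u
  have a3 := hO.uv2
  have a4 := hO.iLC
  have hw1 : 1 ≤ wd μ s (HsC6 G u) := by
    have g1 := wd_ge_one h0 (HsC6_pos (G := G) u)
    have g2 := one_le_EE (μ := μ) (s := s) (HsC6 G u)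
    linarith
  have hw0 : 0 < wd μ s (HsC6 G u) := by linarith
  -- the base point
  obtain ⟨o, ho1⟩ : ∃ o : Pt, |((o.2 : ℝ) - G.v * (o.1 : ℝ)) - G.ctr u (G.loc u ρ.1)| ≤ 1 := by
    refine ⟨(0, ⌊G.ctr u (G.loc u ρ.1)⌋), ?_⟩
    have f1 := Int.floor_le (G.ctr u (G.loc u ρ.1))
    have f2 := Int.lt_floor_add_one (G.ctr u (G.loc u ρ.1))
    show |((⌊G.ctr u (G.loc u ρ.1)⌋ : ℝ) - G.v * ((0 : ℤ) : ℝ)) - G.ctr u (G.loc u ρ.1)| ≤ 1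
    rw [Int.cast_zero, mul_zero, sub_zero, abs_le]
    constructor <;> linarith
  have hwu1 : 1 ≤ G.w u := by
    have g1 := wd_ge_one h0 (G.T_pos u)
    have g2 := one_le_EE (μ := μ) (s := s) (G.T u)
    rw [hw]
    linarith
  have ho2 : |((o.2 : ℝ) - sl μ s * (o.1 : ℝ)) - G.ctr u (G.loc u ρ.1)| ≤ G.w u := by
    rw [← hv]
    exact ho1.trans hwu1
  -- the piece
  have hPc := pcD65 (W := Set.univ) h0 hT hw hO ho (by omega) hC0 hDd hθ.le hθK (α := α) hTh (K₀ := G.K) hnT le_rfl ho2 (D' := D + 1)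
    le_rfl hfr
  have hp1 : ∀ k, k < Γ.M → Γ.p k = Real.exp (s + Γ.h) := fun k hk => by
    unfold Cx.p
    rw [if_pos hk, hs]
  have hp2 : ∀ k, Γ.M ≤ k → Γ.p k = Real.exp s := fun k hk => by
    unfold Cx.p
    rw [if_neg (not_lt.2 hk), hs]
  have hk0 : (cs (iL + (v2 - (u - 1)))).row ≤ (k : ℤ) := ((row_lo65 (W := Set.univ) hO hC2).trans_le hk1).le
  obtain ⟨hb1, hb2, hb3⟩ := row_top65 (W := Set.univ) hO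
  obtain ⟨j, q', bs, hj1, hj2, S, low⟩ := H hα hαα hT.q0 hKK hmn (by omega) hp1 hp2 hPc k y hk0
    (row_hi65 (W := Set.univ) hθK hO (by omega) hk2)
  have hrt : ((cs (iC + (u - v0))).row).toNat = rt78 G u (G.loc u ρ.1) := hb3
  refine ⟨o, fun v => if v = j then k else ((cs v).row).toNat, _, _, q', bs, j, iC + (u - v0), hj2.le, if_pos rfl, ?_, ho1, S,
    fun z hz => ?_⟩
  · show (if iC + (u - v0) = j then k else ((cs (iC + (u - v0))).row).toNat) = _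
    rw [if_neg (by omega), hrt]
  · have hcast : (cs (iC + (u - v0))).row = ((rt78 G u (G.loc u ρ.1) : ℕ) : ℤ) := by
      rw [← hrt, Int.toNat_of_nonneg]
      rw [hb2]
      have := G.rcc_pos u ρ.1
      positivity
    have e1 : lat16 μ s o ((cs (iC + (u - v0))).row, z) - lat16 μ s o ((k : ℤ), y) =
        G.lat (rt78 G u (G.loc u ρ.1), z) - G.lat (k, y) := by
      rw [hcast, lat16_lat65 hv, lat16_lat65 hv]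
      ring
    have key := low z (by rw [e1]; exact hz)
    rw [hrt] at key
    refine le_trans (Real.exp_le_exp.2 (neg_le_neg ?_)) key
    have hQ : 0 ≤ Qc65 C₃ T.q₀ := Qc65_nonneg (by linarith)
    have hE0 := EE_pos (μ := μ) (s := s) (HsC6 G u)
    refine mul_le_mul_of_nonneg_right (mul_le_mul_of_nonneg_left (gr_mono _ (by positivity) ?_) hQ) hE0.le
    have g1 : |lat16 μ s o ((k : ℤ), y)| ≤ |G.lat (k, y) - G.ctr u (G.loc u ρ.1)| + 1 := by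
      rw [lat16_lat65 hv]
      have e2 : G.lat (k, y) - ((o.2 : ℝ) - G.v * (o.1 : ℝ)) = (G.lat (k, y) - G.ctr u (G.loc u ρ.1)) +
          -(((o.2 : ℝ) - G.v * (o.1 : ℝ)) - G.ctr u (G.loc u ρ.1)) := by ring
      rw [e2]
      refine (abs_add_le _ _).trans ?_
      rw [abs_neg]
      linarith
    have g2 : |lat16 μ s o ((k : ℤ), y)| / wd μ s (HsC6 G u) ≤ (|G.lat (k, y) - G.ctr u (G.loc u ρ.1)| + wd μ s (HsC6 G u)) / wd μ s (HsC6 G u) :=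
      div_le_div_of_nonneg_right (by linarith) hw0.le
    rw [add_div, div_self hw0.ne'] at g2
    linarith

/-- **BOTH SETS AT ONE OWN SLAB.** -/
theorem sl65 (h0 : In μ s c C n₀) : ∃ (α₀ : ℝ) (K₁ : ℕ), 0 < α₀ ∧ α₀ ≤ 1 ∧ 2 ≤ K₁ ∧ ∀ (P : ℕ) {K θ a : ℝ}, 1 ≤ P → 0 ≤ a →
    2 * (a + 1) + 12 ≤ K → 0 < θ → θ ≤ 1 / 2 → ∃ m₁ : ℕ, 1 ≤ m₁ ∧ ∀ j₁ : ℕ, m₁ ≤ 2 ^ j₁ → ∀ (D : ℕ) (ε : ℝ), 0 ≤ ε → ε ≤ α₀ →
      ∃ (C₃ : ℝ) (m₂ : ℕ), 1 ≤ C₃ ∧ 1 ≤ m₂ ∧ ∀ {T : Tc6} {Γ : Cx} {G : Gm} {mt : ℕ} {A b g A' b' g' α : ℝ} {n₁ : ℕ}, T.K = K → T.θ = θ →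
        T.e = ε → T.P = P → T.j₁ = j₁ → Tg6 μ s c G T A b g A' b' g' → Γ.s = s → G.v = sl μ s → (∀ v, G.w v = wd μ s (G.T v)) →
        0 ≤ α → α ≤ α₀ → T.Th ≤ (G.K : ℝ) ^ α → K₁ ≤ G.K → 64 * (G.K : ℝ) ^ 2 * θ ≤ 1 → m₂ ≤ n₁ → n₁ ≤ G.T0 →
        ∀ {C0 : ℝ} {C2 : ℕ}, 2 ≤ C2 → C0 ≤ (G.K : ℝ) ^ C2 → ∀ {Sw : Finset ℤ} {E : Cut (ℤ × ℤ) → Cut (ℤ × ℤ) → Set Env}
        {E3 : Cut (ℤ × ℤ) → Cut (ℤ × ℤ) → Cut (ℤ × ℤ) → Set Env} {Dd : ℕ} {η : Env} (ρ : XS Γ G mt) (u : ℕ) (Z : List (Cut (ℤ × ℤ))),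
        PW (gj Γ G mt) Z → ODW (gj Γ G mt) (fun x => G.lat x.1) G.latC G.w C0 C2 D Z ρ u →
        Ok6 Sw (dLC6 μ s c G T E Dd) (dNC6 μ s c G T E3 Dd) lb6 lbN6 Z u η → u < Dd →
        |Γ.h| * wd μ s (8 * G.K ^ 2 * G.T u) ≤ c / 8 * EE μ s (8 * G.K ^ 2 * G.T u) →
        η ∈ SlT78 μ s c θ (K - 2) P Γ G a (8 * G.K ^ 2 * G.T u) n₁ (Qc65 C₃ T.q₀) (Qc65 C₃ T.q₀ * gr (2 * P) (a + 2)) u (G.loc u ρ.1) ∩
          SlF75 μ s c θ (K - 2) 2 P Γ G (8 * G.K ^ 2 * G.T u) n₁ (Qc65 C₃ T.q₀) (Qc65 C₃ T.q₀) u (G.loc u ρ.1) := by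
  obtain ⟨α₀, K₁, hα₀, hα₁, hK₁, H⟩ := chn65 h0
  obtain ⟨K₀, n₂, -, hn₂, hsc⟩ := Pool.Agent.W_7d29a1_C1.DD84.scale_num h0
  refine ⟨α₀, max K₁ K₀, hα₀, hα₁, hK₁.trans (le_max_left _ _), fun P K θ a hP ha hKA hθ hθ2 => ?_⟩
  obtain ⟨m₁, hm₁, H⟩ := H P (A₀ := a + 1) hP (by linarith) hKA hθ hθ2
  refine ⟨m₁, hm₁, fun j₁ hj₁ D ε hε hεα => ?_⟩
  obtain ⟨C₃, m₂, hC₃, hm₂, H⟩ := H j₁ hj₁ D ε hε hεα
  refine ⟨C₃, max m₂ n₂, hC₃, hm₂.trans (le_max_left _ _), ?_⟩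
  intro T Γ G mt A b g A' b' g' α n₁ eK eθ ee eP ej hT hs hv hw hα hαα hTh hKK hθK hmn hnT C0 C2 hC2 hC0 Sw E E3 Dd η ρ u Z hPW hOD ho
    hDd hfr
  have key := H eK eθ ee eP ej hT hs hv hw hα hαα hTh ((le_max_left _ _).trans hKK) hθK ((le_max_left _ _).trans hmn) hnT hC2 hC0 ρ u Z hPW
    hOD ho hDd hfr
  have eH : HsC6 G u = 8 * G.K ^ 2 * G.T u := rfl
  rw [eH] at key
  obtain ⟨Tt, hTt⟩ : ∃ Tt, Tt = 8 * G.K ^ 2 * G.T u := ⟨_, rfl⟩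
  have hT0u : G.T0 ≤ G.T u := by
    have h1 := G.T_mono (Nat.zero_le u)
    have h2 : G.T 0 = G.T0 := by
      show G.T0 * G.K ^ 0 = G.T0
      rw [pow_zero, mul_one]
    omega
  have hwT : G.w u ≤ wd μ s (8 * G.K ^ 2 * G.T u) := by
    rw [hw u]
    refine (hsc (G.T u) (8 * G.K ^ 2 * G.T u) (((le_max_right _ _).trans hmn).trans (hnT.trans hT0u)) (Nat.mul_le_mul_right _ ?_)).1
    have h1 : K₀ ≤ G.K := (le_max_right _ _).trans hKK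
    have h2 : G.K ≤ 8 * G.K ^ 2 := by nlinarith [G.hK]
    omega
  have hw1 : 1 ≤ wd μ s (8 * G.K ^ 2 * G.T u) := by
    have g1 := wd_ge_one h0 (HsC6_pos (G := G) u)
    have g2 := one_le_EE (μ := μ) (s := s) (HsC6 G u)
    rw [eH] at g1 g2
    linarith
  rw [← hTt] at key hwT hw1 ⊢
  have hw0 : 0 < wd μ s Tt := by linarith
  have hwu := G.w_pos u
  have hQ : 0 ≤ Qc65 C₃ T.q₀ := Qc65_nonneg (by linarith)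
  have hE0 := EE_pos (μ := μ) (s := s) Tt
  have hTTu : (0 : ℤ) ≤ G.T (u - 2) := by positivity
  refine ⟨fun k y hky => ?_, fun k y hk1 hk2 => ?_⟩
  · obtain ⟨h1, h2, h3⟩ := hky
    obtain ⟨o, r, T', N, q, bs, i₁, i₂, g1, g2, g3, g4, S, low⟩ := key k y h1 h2
    refine ⟨o, r, T', N, q, bs, i₁, i₂, g1, g2, g3, g4, S, fun z₀ hz₀ => ?_⟩
    have g5 : |G.lat (rt78 G u (G.loc u ρ.1), z₀) - G.lat (k, y)| ≤ (a + 1) * wd μ s Tt := by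
      have e1 : G.lat (rt78 G u (G.loc u ρ.1), z₀) - G.lat (k, y) = (G.lat (rt78 G u (G.loc u ρ.1), z₀) - G.ctr u (G.loc u ρ.1)) +
          -(G.lat (k, y) - G.ctr u (G.loc u ρ.1)) := by ring
      rw [e1]
      refine (abs_add_le _ _).trans ?_
      rw [abs_neg]
      have g6 : |G.lat (k, y) - G.ctr u (G.loc u ρ.1)| ≤ a * G.w u := h3
      have g7 := mul_le_mul_of_nonneg_left hwT ha
      linarith
    refine le_trans (Real.exp_le_exp.2 (neg_le_neg ?_)) (low z₀ g5)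
    refine mul_le_mul_of_nonneg_right (mul_le_mul_of_nonneg_left (gr_mono _ (by positivity) ?_) hQ) hE0.le
    have g6 : |G.lat (k, y) - G.ctr u (G.loc u ρ.1)| / wd μ s Tt ≤ a := by
      rw [div_le_iff₀ hw0]
      have g7 : |G.lat (k, y) - G.ctr u (G.loc u ρ.1)| ≤ a * G.w u := h3
      exact g7.trans (mul_le_mul_of_nonneg_left hwT ha)
    linarith
  · obtain ⟨o, r, T', N, q, bs, i₁, i₂, g1, g2, g3, g4, S, low⟩ := key k y (by linarith) hk2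
    refine ⟨o, r, T', N, q, bs, i₁, i₂, g1, g2, g3, g4, S, fun z hz => low z (hz.trans ?_)⟩
    have := mul_nonneg ha hw0.le
    linarith

end

end Pool.Agent.W_7d29a1_C1.PcD65
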