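import Pool.Agent.W_7d29a1_C1.ELx60
import Pool.Agent.W_7d29a1_C1.GeoU10

/-!
Both halves (MP_7d29a1_pr), attractor route: ALL THE SLABS OF A CONTACT OF A SUCCESS, FOR THE GRID OF HELPER10 (helper60).

`lenT60` : the lengths of the slabs, at least an eighth of the scale. `slabsG60` : `slabsX60` for `GU`, with the lengths.
-/

set_option autoImplicit false
set_option linter.unusedSectionVars false

namespace Pool.Agent.W_7d29a1_C1.H60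

open MeasureTheory ProbabilityTheory Filter Topology
open Pool.Agent.W_7d29a1_F Pool.Agent.W_7d29a1_h4g Pool.Agent.W_7d29a1_H Pool.Agent.W_7d29a1_HS
open Pool.Agent.W_7d29a1_C1.S71 Pool.Agent.W_7d29a1_C1.Sw9 Pool.Agent.W_7d29a1_C1.H75 Pool.Agent.W_7d29a1_C1.U16
open Pool.Agent.W_7d29a1_C1.FarK89 Pool.Agent.W_7d29a1_C1.FarW89
open Pool.Agent.W_7d29a1_C1.T10
open scoped ENNReal

noncomputable section

section rows

variable {G : Gd} {L : ℕ} {T : ℕ → ℕ} {x : ℕ × ℤ}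

theorem rT_zero {b r₀ r₁ : ℕ} : rT G T x b r₀ r₁ 0 = r₀ := if_pos rfl

theorem rT_end {b r₀ r₁ : ℕ} (hb : 1 ≤ b) : rT G T x b r₀ r₁ (2 * b) = r₁ := by
  unfold rT
  rw [if_neg (by omega), if_neg (by omega), if_neg (by omega)]

theorem rT_low {b r₀ r₁ u : ℕ} (h1 : 0 < u) (h2 : u ≤ b) : rT G T x b r₀ r₁ u = (G.z (b - u) x).1 - T (b - u) := by
  unfold rT
  rw [if_neg (by omega), if_pos h2]

theorem rT_up {b r₀ r₁ u : ℕ} (_hb : 1 ≤ b) (hT0 : T 0 = 0) (h1 : b ≤ u) (h2 : u < 2 * b) :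
    rT G T x b r₀ r₁ u = (G.z (u - b) x).1 + T (u - b) := by
  unfold rT
  rw [if_neg (by omega)]
  by_cases h3 : u ≤ b
  · rw [if_pos h3]
    have e1 : b - u = 0 := by omega
    have e2 : u - b = 0 := by omega
    rw [e1, e2, hT0]
    omega
  · rw [if_neg h3, if_pos h2]

theorem sT_zero {b : ℕ} (hb : 1 ≤ b) : sT T b 0 = 2 * T b := by
  unfold sT
  rw [if_pos (by omega), Nat.sub_zero]

theorem sT_last {b : ℕ} (hb : 1 ≤ b) : sT T b (2 * b - 1) = 2 * T b := by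
  unfold sT
  rw [if_neg (by omega)]
  congr 2
  omega

/-- **THE LENGTHS.** -/
theorem lenT60 (hG : G.Ok L) (hT0 : T 0 = 0) (h2 : ∀ v, v < L → 2 * T v ≤ T (v + 1))
    (h4 : ∀ v, v < L → 4 * (G.H (v + 1) + T v) ≤ 3 * T (v + 1) + 4 * G.H v) {b r₀ r₁ : ℕ} (hb : 1 ≤ b) (hbL : b ≤ L)
    (hrow : ∀ v ≤ b, T v ≤ (G.z v x).1) {u : ℕ} (h0 : 0 < u) (h1 : u < 2 * b - 1) :
    sT T b u ≤ 8 * (rT G T x b r₀ r₁ (u + 1) - rT G T x b r₀ r₁ u) := by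
  by_cases hu : u < b
  · rw [rT_low (u := u) h0 hu.le, rT_low (u := u + 1) (by omega) hu]
    unfold sT
    rw [if_pos hu]
    obtain ⟨v, hv⟩ : ∃ v, b - (u + 1) = v := ⟨_, rfl⟩
    have e1 : b - u = v + 1 := by omega
    rw [hv, e1]
    have g1 := congrArg Prod.fst (hG.z_dg (show v < L by omega) x)
    have g1' : (G.z v x).1 = (G.z (v + 1) x).1 + (G.dg v x).1 := g1
    have g2 := h2 v (by omega)
    have g3 := hrow v (by omega)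
    have g4 := hrow (v + 1) (by omega)
    omega
  · rw [rT_up (u := u) hb hT0 (by omega) (by omega), rT_up (u := u + 1) hb hT0 (by omega) (by omega)]
    unfold sT
    rw [if_neg hu]
    obtain ⟨v, hv⟩ : ∃ v, u - b = v := ⟨_, rfl⟩
    have e1 : u + 1 - b = v + 1 := by omega
    rw [hv, e1]
    have g1 := congrArg Prod.fst (hG.z_dg (show v < L by omega) x)
    have g1' : (G.z v x).1 = (G.z (v + 1) x).1 + (G.dg v x).1 := g1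
    have g2 := h4 v (by omega)
    have g3 : (G.dg v x).1 + G.H v ≤ G.H (v + 1) := hG.row_place (Nat.le_succ v) (show v + 1 ≤ L by omega) x
    omega

end rows

/-- The two conditions for the grids of helper10. -/
theorem len_Hg {h₀ K : ℕ} {G : Gd} (hK : 2 ≤ K) (hH : ∀ v, G.H v = Hg h₀ K v) (v : ℕ) :
    2 * Tg h₀ K v ≤ Tg h₀ K (v + 1) ∧ 4 * (G.H (v + 1) + Tg h₀ K v) ≤ 3 * Tg h₀ K (v + 1) + 4 * G.H v := by
  rw [hH, hH]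
  rcases Nat.eq_zero_or_pos v with hv | hv
  · subst hv
    have h1 := Tg_Hg (h₀ := h₀) (K := K) (v := 0 + 1) le_rfl
    rw [Tg_zero]
    omega
  · have h1 := Tg_Hg (h₀ := h₀) (K := K) hv
    have h2 := Tg_Hg (h₀ := h₀) (K := K) (v := v + 1) (by omega)
    have h3 : Tg h₀ K (v + 1) = Tg h₀ K v * K := by
      have := Tg_lt (h₀ := h₀) (K := K) hv 1
      rwa [pow_one] at this
    have h4 : Tg h₀ K v * 2 ≤ Tg h₀ K v * K := Nat.mul_le_mul_left _ hK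
    omega

variable {μ : Measure ℝ} {s : ℝ} [IsProbabilityMeasure μ] {c C : ℝ} {n₀ : ℕ}

/-- **ALL THE SLABS OF A CONTACT OF A SUCCESS**, with the lengths; any grid with the heights `Hg` (`GU`, `GW`), `Λ` = the width of the
boxes in units of `wd (2 T v)`. -/
theorem slabsG60 (h0 : In μ s c C n₀) (P : ℕ) {K : ℕ} (hK : 2 ≤ K) : ∃ R : ℝ, 1 < R ∧ ∃ n₁ : ℕ, 1 ≤ n₁ ∧ ∀ n₂ : ℕ, n₁ ≤ n₂ →
    ∀ q₀ Λ : ℝ, 0 ≤ q₀ → 0 ≤ Λ → ∃ Q : ℝ, 0 < Q ∧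
    ∀ {θ Kw h : ℝ} {h₀ : ℕ} {G : Gd} {L Lm : ℕ} {t : ℕ} {y : ℕ → ℝ} {x : ℕ × ℤ} {η : Env} {κ : Pt} {r₀ r₁ : ℤ} {ρ₀ ρ₁ : ℕ}
      {q₁ : ℝ}, 5 ≤ Kw → G.Ok L → (∀ v, G.H v = Hg h₀ K v) → n₂ ≤ h₀ → 2 ≤ t → t ≤ L → t ≤ Lm + 1 → Monotone y → (∀ l, 0 ≤ y l) →
      (∀ l, y l ≤ q₀ * R ^ l) → 0 ≤ q₁ → q₁ ≤ q₀ → (∀ v ≤ t, Tg h₀ K v ≤ (G.z v x).1) →
      η ∉ Rch (lvL G (LvE Lm (EL60 μ s c θ Kw P (Tg h₀ K) y)) L) (t - 2) x →
      sh (G.x t x) η ∈ ELx60 μ s c θ Kw P (2 * Tg h₀ K t) (Tg h₀ K (t - 1)) r₀ r₁ q₁ (G.dg (t - 1) x) →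
      (∀ v, 1 ≤ v → v ≤ t → |lat16 μ s κ (G.x v x)| + 1 ≤ Λ * wd μ s (2 * Tg h₀ K v)) →
      -(Tg h₀ K t : ℤ) ≤ r₀ → r₁ ≤ Tg h₀ K t → ((G.z t x).1 : ℤ) + r₀ ≤ ρ₀ → (ρ₁ : ℤ) ≤ ((G.z t x).1 : ℤ) + r₁ → θ ≤ 1 / 8 → 0 ≤ θ →
      θ * (2 * Tg h₀ K t : ℕ) ≤ ((((G.z t x).1 : ℤ) - Tg h₀ K (t - 1) - ρ₀ : ℤ) : ℝ) →
      θ * (2 * Tg h₀ K t : ℕ) ≤ ((ρ₁ + G.H (t - 1) - (((G.z t x).1 : ℤ) + G.H t + Tg h₀ K (t - 1)) : ℤ) : ℝ) →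
      |h| * wd μ s (2 * Tg h₀ K t) ≤ c / 8 * EE μ s (2 * Tg h₀ K t) →
      Slabs μ s c θ (Kw - 2) h P η κ (rT G (Tg h₀ K) x t ρ₀ ρ₁) (sT (Tg h₀ K) t)
        (nT G (Tg h₀ K) x t (min (((G.dg (t - 1) x).1 : ℤ) - Tg h₀ K (t - 1)) r₁ - r₀).toNat
          (r₁ - (((G.dg (t - 1) x).1 : ℤ) + Tg h₀ K (t - 1))).toNat)
        (fun u => qT y t q₁ u * fq16 P (Λ + 2))
        (fun u => lp μ s κ (bT μ s G (Tg h₀ K) x t (bs60 μ s r₀ + G.x t x)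
          (bs60 μ s (((G.dg (t - 1) x).1 : ℤ) + Tg h₀ K (t - 1)) + G.x t x) u).1)
        0 (2 * t) (2 * Tg h₀ K t) n₂ Q ∧
      (∀ u, 0 ≤ u → u < 2 * t → θ * sT (Tg h₀ K) t u ≤
        ((rT G (Tg h₀ K) x t ρ₀ ρ₁ (u + 1) - rT G (Tg h₀ K) x t ρ₀ ρ₁ u : ℕ) : ℝ)) := by
  obtain ⟨R, hR, n₁, hn1, H⟩ := slabsX60 h0 P hK
  refine ⟨R, hR, n₁, hn1, fun n₂ hn2 q₀ Λ hq₀ hΛ => ?_⟩
  obtain ⟨Q, hQ, HC⟩ := H n₂ hn2 q₀ Λ hq₀ hΛ
  refine ⟨Q, hQ, ?_⟩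
  intro θ Kw h h₀ G L Lm t y x η κ r₀ r₁ ρ₀ ρ₁ q₁ hKw hok hGH hh ht htL htLm hym hy0 hyR hq1 hq1' hrow hY hx hκ
    hr0 hr1' hρ₀ hρ₁ hθ hθ0 hl0 hl1 hforce
  have hpos : (0 : ℝ) ≤ θ * (2 * Tg h₀ K t : ℕ) := by positivity
  have i0 : (0 : ℤ) ≤ ((G.z t x).1 : ℤ) - Tg h₀ K (t - 1) - ρ₀ := by exact_mod_cast hpos.trans hl0
  have i1 : (0 : ℤ) ≤ ρ₁ + G.H (t - 1) - (((G.z t x).1 : ℤ) + G.H t + Tg h₀ K (t - 1)) := by exact_mod_cast hpos.trans hl1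
  have hplace : (G.dg (t - 1) x).1 + G.H (t - 1) ≤ G.H t := by
    have h1 := hok.row_place (Nat.sub_le t 1) htL x
    have e : G.z (t - 1) (G.rel t x) = G.dg (t - 1) x := by
      unfold Gd.dg
      rw [show t - 1 + 1 = t by omega]
    rwa [e] at h1
  have hT1 : n₂ ≤ 2 * h₀ * K := by
    have : h₀ ≤ 2 * h₀ * K := by
      calc h₀ ≤ 2 * h₀ := by omega
        _ ≤ 2 * h₀ * K := Nat.le_mul_of_pos_right _ (by omega)
    exact hh.trans this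
  refine ⟨HC hKw hok (Tg_zero h₀ K) (GU.T1 h₀ K) hT1 (fun v _ => by rw [hGH, hGH]; exact Tg_nest (by omega) v) ht htL htLm hym hy0 hyR hq1 hq1' hrow hY hx hκ hr0
    hr1' hρ₀ (by omega) (by omega) hρ₁ hforce, fun u _ hu => ?_⟩
  have g1 := congrArg Prod.fst (hok.z_dg (show t - 1 < L by omega) x)
  have g1' : (G.z (t - 1) x).1 = (G.z t x).1 + (G.dg (t - 1) x).1 := by
    have e : t - 1 + 1 = t := by omega
    rw [e] at g1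
    exact g1
  have gr1 := hrow (t - 1) (Nat.sub_le _ _)
  by_cases h1 : u = 0
  · subst h1
    rw [sT_zero (by omega), rT_zero, rT_low (u := 0 + 1) (by omega) (by omega)]
    refine hl0.trans ?_
    have : ((G.z t x).1 : ℤ) - Tg h₀ K (t - 1) - ρ₀ ≤ (((G.z (t - (0 + 1)) x).1 - Tg h₀ K (t - (0 + 1)) - ρ₀ : ℕ) : ℤ) := by
      rw [show t - (0 + 1) = t - 1 by omega]
      omega
    exact_mod_cast this
  · by_cases h2 : u = 2 * t - 1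
    · subst h2
      rw [sT_last (by omega), show 2 * t - 1 + 1 = 2 * t by omega, rT_end (by omega), rT_up (u := 2 * t - 1) (by omega)
        (Tg_zero h₀ K) (by omega) (by omega), show 2 * t - 1 - t = t - 1 by omega]
      refine hl1.trans ?_
      have : (ρ₁ : ℤ) + (G.H (t - 1) : ℤ) - (((G.z t x).1 : ℤ) + G.H t + Tg h₀ K (t - 1)) ≤
          ((ρ₁ - ((G.z (t - 1) x).1 + Tg h₀ K (t - 1)) : ℕ) : ℤ) := by
        omega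
      exact_mod_cast this
    · have h3 := lenT60 (x := x) (r₀ := ρ₀) (r₁ := ρ₁) hok (Tg_zero h₀ K) (fun v _ => (len_Hg hK hGH v).1)
        (fun v _ => (len_Hg hK hGH v).2) (show 1 ≤ t by omega) htL hrow (u := u) (by omega) (by omega)
      have h4 : (sT (Tg h₀ K) t u : ℝ) ≤
          8 * ((rT G (Tg h₀ K) x t ρ₀ ρ₁ (u + 1) - rT G (Tg h₀ K) x t ρ₀ ρ₁ u : ℕ) : ℝ) := by exact_mod_cast h3
      have h5 : θ * (sT (Tg h₀ K) t u : ℝ) ≤ 1 / 8 * (sT (Tg h₀ K) t u : ℝ) :=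
        mul_le_mul_of_nonneg_right hθ (by positivity)
      linarith

end

end Pool.Agent.W_7d29a1_C1.H60
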