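import Pool.Agent.W_7d29a1_C1.SlC65
import Pool.Agent.W_7d29a1_C1.HpE39

/-!
MP_7d29a1_pr, the attractor route [C1], TAME: THE CHAINS OF SLABS, THE CLAUSES WITH THE ORDER OF THE CONSTANTS. (helper65)

`slT_anti65`, `slF_anti65` : a larger height threshold is stronger. `frc65` : the force at the heights `8 K² T u`. **`slQ65`** : `ClQ` of `SlT78`
(input of `stC78`) and of `SlF75` (input of `fwC75`) for the canonical depths `tm6 μ s c T`; no exceptional set.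
Order: `α₀, K₁ | P₀, K, θ, a | m₁ | j₁ | D, ε | C₃, m₂ | T, α, n₁, Pre, Dat, k, Fs` (`C0P P` only in `C2₀`).
-/

set_option autoImplicit false

namespace Pool.Agent.W_7d29a1_C1.PcD65

open MeasureTheory ProbabilityTheory Finset Filter
open Pool.Agent.W_7d29a1_F hiding Bw G
open Pool.Agent.W_7d29a1_h4g Pool.Agent.W_7d29a1_HS
open Pool.Agent.W_7d29a1_H hiding ex gg
open Pool.Agent.W_7d29a1_C1.H60
open Pool.Agent.W_7d29a1_C1.H75 Pool.Agent.W_7d29a1_C1.U16 Pool.Agent.W_7d29a1_C1.H40 Pool.Agent.W_7d29a1_C1.S71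
open Pool.Agent.W_7d29a1_C1.Dep6 Pool.Agent.W_7d29a1_C1.TpF63 Pool.Agent.W_7d29a1_C1.PcS63
open Pool.Agent.W_7d29a1_C1.G37 (Gm Wok gmW)
open Pool.Agent.W_7d29a1_C1.FarK89 (gr gr_nonneg gr_one_le gr_mono)
open Pool.Agent.W_7d29a1_C1.FarW89 (nk Slabs)
open Pool.Agent.W_7d29a1_C1.SF98
open Pool.Agent.W_7d29a1_C1.PW86
open Pool.Agent.W_7d29a1_C1.Sy78 (rt78 SlT78 Rg)
open Pool.Agent.W_7d29a1_C1.FW75 (SlF75)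
open Pool.Agent.W_7d29a1_C1.Q49
open Pool.Agent.W_7d29a1_C1.Hp2
open Pool.Agent.W_7d29a1_C1.Hp39
open scoped ENNReal

noncomputable section

variable {μ : Measure ℝ} {s c C : ℝ} {n₀ : ℕ} [IsProbabilityMeasure μ]

/-! ### The height threshold -/

theorem slabs_n65 {θ K h : ℝ} {P : ℕ} {η : Env} {κ : Pt} {r T N : ℕ → ℕ} {q : ℕ → ℝ} {bs : ℕ → Pt} {a b Tt n₁ n₁' : ℕ} {Q : ℝ}
    (hn : n₁' ≤ n₁) (S : Slabs μ s c θ K h P η κ r T N q bs a b Tt n₁ Q) : Slabs μ s c θ K h P η κ r T N q bs a b Tt n₁' Q :=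
  { S with
    Tt1 := hn.trans S.Tt1
    T1 := fun u hu hub => hn.trans (S.T1 u hu hub) }

theorem slT_anti65 {θ K a Q Q₁ : ℝ} {P Tt n₁ n₁' u : ℕ} {Γ : Cx} {G : Gm} {κ : ℤ × ℤ} (hn : n₁' ≤ n₁) :
    SlT78 μ s c θ K P Γ G a Tt n₁ Q Q₁ u κ ⊆ SlT78 μ s c θ K P Γ G a Tt n₁' Q Q₁ u κ := fun _ h k y hky => by
  obtain ⟨o, r, T, N, q, bs, i₁, i₂, g1, g2, g3, g4, S, low⟩ := h k y hky
  exact ⟨o, r, T, N, q, bs, i₁, i₂, g1, g2, g3, g4, slabs_n65 hn S, low⟩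

theorem slF_anti65 {θ K Kg Q Q₁ : ℝ} {P Tt n₁ n₁' u : ℕ} {Γ : Cx} {G : Gm} {κ : ℤ × ℤ} (hn : n₁' ≤ n₁) :
    SlF75 μ s c θ K Kg P Γ G Tt n₁ Q Q₁ u κ ⊆ SlF75 μ s c θ K Kg P Γ G Tt n₁' Q Q₁ u κ := fun _ h k y h1 h2 => by
  obtain ⟨o, r, T, N, q, bs, i₁, i₂, g1, g2, g3, g4, S, low⟩ := h k y h1 h2
  exact ⟨o, r, T, N, q, bs, i₁, i₂, g1, g2, g3, g4, slabs_n65 hn S, low⟩

/-! ### The force -/

/-- **THE FORCE AT THE HEIGHTS `8 K² T u`**, at all scales. -/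
theorem frc65 {P : Pre} {Dd : Dat} (h0 : In μ s c C n₀) (hE9 : ∀ᶠ n : ℕ in atTop, (n : ℝ) ^ (1 / 9 : ℝ) ≤ EE μ s n) :
    Evn P Dd μ s fun _ _ _ _ _ Γ G mt _ _ => ∀ u ≤ mt,
      |Γ.h| * wd μ s (8 * G.K ^ 2 * G.T u) ≤ c / 8 * EE μ s (8 * G.K ^ 2 * G.T u) := by
  have hc0 := h0.c0
  have hK : (0 : ℝ) < Dd.K := by
    have := Dd.hK
    exact_mod_cast (show 0 < Dd.K by omega)
  refine ((evn_tilt (P := P) (Dd := Dd) h0 hE9 (ε := c / (128 * (Dd.K : ℝ) ^ 2)) (by positivity)).and evn_geo).mono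
    fun q η A lam n Γ G mt τ0 E h u hu => ?_
  obtain ⟨⟨-, h1⟩, h2, -, h3, -⟩ := h
  obtain ⟨h4, -⟩ := h1 u hu
  rw [h2] at h4
  have hT1 := G.T_pos u
  have hK8 := G.hK
  have hTt : G.T u ≤ 8 * G.K ^ 2 * G.T u := Nat.le_mul_of_pos_left _ (by positivity)
  have h5 := Pool.Agent.W_7d29a1_C1.U16.wd_le h0 hT1 hTt
  have hTR : (0 : ℝ) < G.T u := by exact_mod_cast hT1
  have e1 : 2 * (((8 * G.K ^ 2 * G.T u : ℕ) : ℝ) / (G.T u : ℝ)) * wd μ s (G.T u) = 16 * (G.K : ℝ) ^ 2 * wd μ s (G.T u) := by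
    push_cast
    field_simp
    ring
  rw [e1] at h5
  rw [← h3] at h4
  have hKG : (0 : ℝ) < G.K := by exact_mod_cast (show 0 < G.K by omega)
  have h6 : |Γ.h| * wd μ s (8 * G.K ^ 2 * G.T u) ≤ 16 * (G.K : ℝ) ^ 2 * (|Γ.h| * wd μ s (G.T u)) := by
    have := mul_le_mul_of_nonneg_left h5 (abs_nonneg Γ.h)
    linarith
  have h7 : 16 * (G.K : ℝ) ^ 2 * (|Γ.h| * wd μ s (G.T u)) ≤ 16 * (G.K : ℝ) ^ 2 * (c / (128 * (G.K : ℝ) ^ 2) * EE μ s (G.T u)) :=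
    mul_le_mul_of_nonneg_left h4 (by positivity)
  have e2 : 16 * (G.K : ℝ) ^ 2 * (c / (128 * (G.K : ℝ) ^ 2) * EE μ s (G.T u)) = c / 8 * EE μ s (G.T u) := by
    field_simp
    ring
  have h8 : EE μ s (G.T u) ≤ EE μ s (8 * G.K ^ 2 * G.T u) := EE_mono hTt
  have h9 := mul_le_mul_of_nonneg_left h8 (show 0 ≤ c / 8 by positivity)
  linarith

/-! ### The clauses -/

/-- **THE CHAINS AT ALL OWN SLABS WHERE NOTHING IS FELT**, `Evn` form: both sets, any switch set, any trivial or non-trivial events. -/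
theorem evn_sl65 (h0 : In μ s c C n₀) (hE9 : ∀ᶠ n : ℕ in atTop, (n : ℝ) ^ (1 / 9 : ℝ) ≤ EE μ s n) :
    ∃ (α₀ : ℝ) (K₁ : ℕ), 0 < α₀ ∧ α₀ ≤ 1 ∧ 2 ≤ K₁ ∧ ∀ (P₀ : ℕ) {K θ a : ℝ}, 1 ≤ P₀ → 0 ≤ a → 2 * (a + 1) + 12 ≤ K → 0 < θ → θ ≤ 1 / 2 →
      ∃ m₁ : ℕ, 1 ≤ m₁ ∧ ∀ j₁ : ℕ, m₁ ≤ 2 ^ j₁ → ∀ (D : ℕ) (ε : ℝ), 0 ≤ ε → ε ≤ α₀ → ∃ (C₃ : ℝ) (m₂ : ℕ), 1 ≤ C₃ ∧ 1 ≤ m₂ ∧
        ∀ {T : Tc6} {A b g A' b' g' α : ℝ} {n₂ : ℕ} {Dd : Dat}, T.K = K → T.θ = θ → T.e = ε → T.P = P₀ → T.j₁ = j₁ →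
        (∀ G : Gm, n₂ ≤ G.T0 → Tg6 μ s c G T A b g A' b' g') → 0 ≤ α → α ≤ α₀ → T.Th ≤ (Dd.K : ℝ) ^ α →
        K₁ ≤ Dd.K → 64 * (Dd.K : ℝ) ^ 2 * θ ≤ 1 → ∀ (n₁ : ℕ) (P : Pre), ∃ C2₀ : ℕ, ∀ C2 : ℕ, C2₀ ≤ C2 →
        Evn P Dd μ s fun _ _ _ _ _ Γ G mt _ _ => ∀ (Sw : Finset ℤ) (E2 : Cu → Cu → Set Env) (E3 : Cu → Cu → Cu → Set Env) (η : Env)
          (ρ : XS Γ G mt) (u : ℕ) (Z : List Cu), u < G.M → PW (gj Γ G mt) Z →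
          ODW (gj Γ G mt) (fun x => G.lat x.1) G.latC G.w (C0P P) C2 D Z ρ u →
          Ok6 Sw ((tm6 μ s c T).dL G mt E2) ((tm6 μ s c T).dN G mt E3) lb6 lbN6 Z u η →
          η ∈ SlT78 μ s c θ (K - 2) P₀ Γ G a (8 * G.K ^ 2 * G.T u) n₁ (Qc65 C₃ T.q₀) (Qc65 C₃ T.q₀ * gr (2 * P₀) (a + 2)) u (G.loc u ρ.1) ∩
            SlF75 μ s c θ (K - 2) 2 P₀ Γ G (8 * G.K ^ 2 * G.T u) n₁ (Qc65 C₃ T.q₀) (Qc65 C₃ T.q₀) u (G.loc u ρ.1) := by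
  obtain ⟨α₀, K₁, hα₀, hα₁, hK₁, H⟩ := sl65 h0
  refine ⟨α₀, K₁, hα₀, hα₁, hK₁, fun P₀ K θ a hP ha hKA hθ hθ2 => ?_⟩
  obtain ⟨m₁, hm₁, H⟩ := H P₀ hP ha hKA hθ hθ2
  refine ⟨m₁, hm₁, fun j₁ hj₁ D ε hε hεα => ?_⟩
  obtain ⟨C₃, m₂, hC₃, hm₂, H⟩ := H j₁ hj₁ D ε hε hεα
  refine ⟨C₃, m₂, hC₃, hm₂, ?_⟩
  intro T A b g A' b' g' α n₂ Dd eK eθ ee eP ej hT hα hαα hTh hKK hθK n₁ P
  have hK1 : (1 : ℝ) < Dd.K := by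
    have := Dd.hK
    exact_mod_cast (show 1 < Dd.K by omega)
  obtain ⟨l, hl⟩ := pow_unbounded_of_one_lt (C0P P) hK1
  refine ⟨max 2 l, fun C2 hC2 => ?_⟩
  have hb := bs2 (P := P) (Dd := Dd) (μ := μ) (s := s) (A0 := max 2 ((2 * (Dd.K + 1) + 1) * (2 * (2 * Dd.K * 2 + 1) + 1)))
    (le_max_left _ _) (le_max_right _ _) 0 0 (max (max n₁ m₂) n₂) 0
  have hs : Evn P Dd μ s fun _ _ _ _ _ Γ _ _ _ _ => Γ.s = s :=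
    Evn.of_all fun _ _ _ _ _ _ _ _ _ _ _ _ _ _ _ _ _ hc _ _ _ _ _ _ _ _ _ _ _ => hc.adm.hs
  refine ((hb.and (frc65 h0 hE9)).and (evn_geo.and hs)).mono fun q η A lam n Γ G mt τ0 E h => ?_
  obtain ⟨⟨hB, hfr⟩, ⟨hw, -, hGK, hv, -⟩, hs⟩ := h
  intro Sw E2 E3 η' ρ u Z hu hPW hOD hok
  have hmt := hB.hM_mt
  have hT0 := hB.hT
  rw [← hGK] at hTh hKK hθK
  have hC0 : C0P P ≤ (G.K : ℝ) ^ C2 := by
    rw [hGK]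
    exact hl.le.trans (pow_le_pow_right₀ hK1.le ((le_max_right _ _).trans hC2))
  have key := H (n₁ := max n₁ m₂) eK eθ ee eP ej (hT G ((le_max_right _ _).trans hT0)) hs hv hw hα hαα hTh hKK hθK (le_max_right _ _)
    ((le_max_left _ _).trans hT0) ((le_max_left _ _).trans hC2) hC0 ρ u Z hPW hOD hok (by omega) (hfr u (by omega))
  exact ⟨slT_anti65 (le_max_left _ _) key.1, slF_anti65 (le_max_left _ _) key.2⟩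

end

end Pool.Agent.W_7d29a1_C1.PcD65
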