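import Pool.Agent.W_7d29a1_C1.EL60
import Pool.Agent.W_7d29a1_C1.FarB89

/-!
Both halves (MP_7d29a1_pr), attractor route: THE SLABS THROUGH THE INSIDE OF THE TOWER (helper60).

A leaf `c` whose slabs `v + 1 < b` are in the level events of the range `b - 2 - v` (`not Y_b`), one given piece at each end (rows `r₀` to
`z_(b-1) - T_(b-1)` and `z_(b-1) + T_(b-1)` to `r₁`): `slabsT60` = helper89's `Slabs` with `2 b` slabs at the scales `2 T (v + 1)`, cost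
by `cost_geo`, total scale `2 T b`.
-/

set_option autoImplicit false
set_option linter.unusedSectionVars false

namespace Pool.Agent.W_7d29a1_C1.H60

open MeasureTheory ProbabilityTheory Filter Topology
open Pool.Agent.W_7d29a1_F Pool.Agent.W_7d29a1_h4g Pool.Agent.W_7d29a1_H Pool.Agent.W_7d29a1_HS
open Pool.Agent.W_7d29a1_C1.S71 Pool.Agent.W_7d29a1_C1.Sw9 Pool.Agent.W_7d29a1_C1.H75 Pool.Agent.W_7d29a1_C1.U16
open Pool.Agent.W_7d29a1_C1.FarK89 Pool.Agent.W_7d29a1_C1.FarW89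
open Pool.Agent.W_7d29a1_C1.T10

noncomputable section

variable {μ : Measure ℝ} {s : ℝ} [IsProbabilityMeasure μ] {c C : ℝ} {n₀ : ℕ}

omit [IsProbabilityMeasure μ] in
/-- The base point is moved by a shift. -/
theorem Far16_sh (θ K : ℝ) (n N P : ℕ) (b a : Pt) (q : ℝ) (η : Env) :
    sh a η ∈ Far16 μ s c θ K n N P b q ↔ η ∈ Far16 μ s c θ K n N P (b + a) q := by
  refine forall_congr' fun m => ?_
  have e : ft16 μ s n (b + a) m = ft16 μ s n b m + a := by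
    unfold ft16
    refine Prod.ext rfl ?_
    show b.2 + a.2 + ⌊(m : ℝ) * wd μ s n⌋ = b.2 + ⌊(m : ℝ) * wd μ s n⌋ + a.2
    ring
  rw [e, LevS_sh, bx16_sh]

omit [IsProbabilityMeasure μ] in
/-- The base of a half slab is within one of the line. -/
theorem lat_bs60 (κ x : Pt) (r : ℤ) : |lat16 μ s κ (bs60 μ s r + x)| ≤ |lat16 μ s κ x| + 1 := by
  have e : lat16 μ s κ (bs60 μ s r + x) = lat16 μ s κ x + (((⌊sl μ s * (r : ℝ)⌋ : ℤ) : ℝ) - sl μ s * (r : ℝ)) := by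
    unfold lat16 bs60
    have e1 : ((r, ⌊sl μ s * (r : ℝ)⌋) + x : Pt).1 = r + x.1 := rfl
    have e2 : ((r, ⌊sl μ s * (r : ℝ)⌋) + x : Pt).2 = ⌊sl μ s * (r : ℝ)⌋ + x.2 := rfl
    rw [e1, e2]
    push_cast
    ring
  rw [e]
  refine (abs_add_le _ _).trans (add_le_add le_rfl ?_)
  have h1 := Int.floor_le (sl μ s * (r : ℝ))
  have h2 := Int.lt_floor_add_one (sl μ s * (r : ℝ))
  rw [abs_le]
  constructor <;> linarith

/-- The rows of the slabs. -/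
def rT (G : Gd) (T : ℕ → ℕ) (c : ℕ × ℤ) (b r₀ r₁ u : ℕ) : ℕ :=
  if u = 0 then r₀ else if u ≤ b then (G.z (b - u) c).1 - T (b - u) else if u < 2 * b then (G.z (u - b) c).1 + T (u - b) else r₁

/-- The scales. -/
def sT (T : ℕ → ℕ) (b u : ℕ) : ℕ := if u < b then 2 * T (b - u) else 2 * T (u - b + 1)

/-- The heights. -/
def nT (G : Gd) (T : ℕ → ℕ) (c : ℕ × ℤ) (b N₀ N₁ u : ℕ) : ℕ :=
  if u = 0 then N₀ else if u < b then min ((G.dg (b - 1 - u) c).1 + T (b - u) - T (b - 1 - u)) (2 * T (b - u))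
    else if u = 2 * b - 1 then N₁ else T (u - b + 1) - ((G.dg (u - b) c).1 + T (u - b))

/-- The levels. -/
def qT (y : ℕ → ℝ) (b : ℕ) (q₁ : ℝ) (u : ℕ) : ℝ :=
  if u = 0 then q₁ else if u < b then y (u - 1) else if u = 2 * b - 1 then q₁ else y (2 * b - 2 - u)

/-- The base points. -/
def bT (μ : Measure ℝ) (s : ℝ) (G : Gd) (T : ℕ → ℕ) (c : ℕ × ℤ) (b : ℕ) (b₀ b₁ : Pt) (u : ℕ) : Pt :=
  if u = 0 then b₀ else if u < b then bs60 μ s (-(T (b - u) : ℤ)) + G.x (b - u) c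
    else if u = 2 * b - 1 then b₁ else bs60 μ s (((G.dg (u - b) c).1 : ℤ) + T (u - b)) + G.x (u - b + 1) c

section rows

variable {G : Gd} {L : ℕ} {T : ℕ → ℕ} {x : ℕ × ℤ}

/-- The geometry of one slab. -/
theorem slab_rows (hG : G.Ok L) (hH : ∀ v, v < L → G.H (v + 1) + T v ≤ T (v + 1) + G.H v) {v : ℕ} (hv : v < L) (x : ℕ × ℤ) :
    (G.z v x).1 = (G.z (v + 1) x).1 + (G.dg v x).1 ∧ (G.dg v x).1 + G.H v ≤ G.H (v + 1) ∧
      (G.dg v x).1 + T v ≤ T (v + 1) ∧ ((G.x (v + 1) x).1 : ℤ) = ((G.z (v + 1) x).1 : ℤ) := by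
  have h1 := congrArg Prod.fst (hG.z_dg hv x)
  have h2 : (G.dg v x).1 + G.H v ≤ G.H (v + 1) := hG.row_place (Nat.le_succ v) hv x
  have h3 := hH v hv
  exact ⟨h1, h2, by omega, rfl⟩

end rows

/-- The fields of helper89's `Slabs` and `Slabs.of_base`: bases at the distance `Λ` widths, levels times `f` in the cost. -/
structure SlF60 (μ : Measure ℝ) (s c θ K : ℝ) (P : ℕ) (η : Env) (κ : Pt) (r T N : ℕ → ℕ) (q : ℕ → ℝ) (bs : ℕ → Pt) (a b Tt n₁ : ℕ)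
    (Q Λ f : ℝ) : Prop where
  q0 : ∀ u, a ≤ u → u < b → 0 ≤ q u
  Tt1 : n₁ ≤ Tt
  T1 : ∀ u, a ≤ u → u < b → n₁ ≤ T u
  TT : ∀ u, a ≤ u → u < b → T u ≤ Tt
  NT : ∀ u, a ≤ u → u < b → N u ≤ T u
  rr : ∀ u, a ≤ u → u < b → r u ≤ r (u + 1)
  b1 : ∀ u, a ≤ u → u < b → (bs u).1 ≤ r u
  b2 : ∀ u, a ≤ u → u < b → (r (u + 1) : ℤ) ≤ (bs u).1 + N u
  b3 : ∀ u, a ≤ u → u < b → |lat16 μ s κ (bs u)| ≤ Λ * wd μ s (T u)
  far : ∀ u, a ≤ u → u < b → η ∈ Far16 μ s c θ K (T u) (N u) P (bs u) (q u)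
  cost : ∑ u ∈ Finset.Ico a b, (1 + q u * f) ^ 2 * gr (2 * P) (2 * wd μ s Tt / wd μ s (T u)) * EE μ s (T u) ≤ Q * EE μ s Tt

/-- **THE SLABS THROUGH THE INSIDE**, all fields. -/
theorem slabsC60 (h0 : In μ s c C n₀) (P : ℕ) {K : ℕ} (hK : 2 ≤ K) : ∃ R : ℝ, 1 < R ∧ ∃ n₁ : ℕ, 1 ≤ n₁ ∧ ∀ n₂ : ℕ, n₁ ≤ n₂ →
    ∀ q₀ f : ℝ, 0 ≤ q₀ → 0 ≤ f → ∃ Q : ℝ, 0 < Q ∧
    ∀ {θ Kw Λ : ℝ} {G : Gd} {L : ℕ} {T : ℕ → ℕ} {T₁ b : ℕ} {y : ℕ → ℝ} {x : ℕ × ℤ} {η : Env} {κ : Pt} {r₀ r₁ N₀ N₁ : ℕ} {b₀ b₁ : Pt}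
      {q₁ : ℝ}, G.Ok L → T 0 = 0 → (∀ v, T (v + 1) = T₁ * K ^ v) → n₂ ≤ T₁ →
      (∀ v, v < L → G.H (v + 1) + T v ≤ T (v + 1) + G.H v) → 1 ≤ b → b ≤ L → (∀ l, 0 ≤ y l) → (∀ l, y l ≤ q₀ * R ^ l) →
      0 ≤ q₁ → q₁ ≤ q₀ → (∀ v ≤ b, T v ≤ (G.z v x).1) →
      (∀ v, v + 1 < b → η ∈ ELc G (EL60 μ s c θ Kw P T y) x v (b - 2 - v)) →
      (∀ v, v + 1 < b → |lat16 μ s κ (G.x (v + 1) x)| + 1 ≤ Λ * wd μ s (2 * T (v + 1))) →
      b₀.1 ≤ r₀ → r₀ ≤ (G.z (b - 1) x).1 - T (b - 1) → (((G.z (b - 1) x).1 - T (b - 1) : ℕ) : ℤ) ≤ b₀.1 + N₀ → N₀ ≤ 2 * T b →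
      |lat16 μ s κ b₀| ≤ Λ * wd μ s (2 * T b) → η ∈ Far16 μ s c θ Kw (2 * T b) N₀ P b₀ q₁ →
      b₁.1 ≤ (((G.z (b - 1) x).1 + T (b - 1) : ℕ) : ℤ) → (G.z (b - 1) x).1 + T (b - 1) ≤ r₁ → (r₁ : ℤ) ≤ b₁.1 + N₁ → N₁ ≤ 2 * T b →
      |lat16 μ s κ b₁| ≤ Λ * wd μ s (2 * T b) → η ∈ Far16 μ s c θ Kw (2 * T b) N₁ P b₁ q₁ →
      SlF60 μ s c θ Kw P η κ (rT G T x b r₀ r₁) (sT T b) (nT G T x b N₀ N₁) (qT y b q₁) (bT μ s G T x b b₀ b₁) 0 (2 * b)
        (2 * T b) n₂ Q Λ f := by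
  obtain ⟨R, hR, n₁, hn1, HC⟩ := FarN89.cost_geo h0 P hK
  refine ⟨R, hR, n₁, hn1, fun n₂ hn2 q₀ f hq₀ hf => ?_⟩
  obtain ⟨Q, hQ, Hcost⟩ := HC (q₀ * f) (mul_nonneg hq₀ hf)
  refine ⟨2 * Q, by linarith, ?_⟩
  intro θ Kw Λ G L T T₁ b y x η κ r₀ r₁ N₀ N₁ b₀ b₁ q₁ hG hT0 hTK hT1 hH hb hbL hy0 hyR hq1 hq1' hrow lev hκ
    hb01 hr0 hb02 hN0 hlat0 hF0 hb11 hr1 hb12 hN1 hlat1 hF1
  have hTm : ∀ v, T v ≤ T (v + 1) := by
    intro v
    rcases Nat.eq_zero_or_pos v with h1 | h1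
    · rw [h1, hT0]
      exact Nat.zero_le _
    · obtain ⟨w, rfl⟩ : ∃ w, v = w + 1 := ⟨v - 1, by omega⟩
      rw [hTK, hTK, pow_succ]
      exact Nat.mul_le_mul_left _ (Nat.le_mul_of_pos_right _ (by omega))
  have hTmono : Monotone T := monotone_nat_of_le_succ hTm
  have hT1' : ∀ v, T₁ ≤ T (v + 1) := fun v => by
    rw [hTK]
    exact Nat.le_mul_of_pos_right _ (Nat.pos_of_ne_zero (pow_ne_zero _ (by omega)))
  have hR0 : 0 < R := by linarith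
  -- the level events, unfolded
  have lev' : ∀ v, v + 1 < b → η ∈ Far16 μ s c θ Kw (2 * T (v + 1)) (min ((G.dg v x).1 + T (v + 1) - T v) (2 * T (v + 1))) P
        (bs60 μ s (-(T (v + 1) : ℤ)) + G.x (v + 1) x) (y (b - 2 - v)) ∧
      η ∈ Far16 μ s c θ Kw (2 * T (v + 1)) (T (v + 1) - ((G.dg v x).1 + T v)) P
        (bs60 μ s (((G.dg v x).1 : ℤ) + T v) + G.x (v + 1) x) (y (b - 2 - v)) := by
    intro v hv
    have h1 : sh (G.x (v + 1) x) η ∈ EL60 μ s c θ Kw P T y v (G.dg v x) (b - 2 - v) := lev v hv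
    exact ⟨(Far16_sh _ _ _ _ _ _ _ _ _).1 h1.1, (Far16_sh _ _ _ _ _ _ _ _ _).1 h1.2⟩
  have geo := fun v (hv : v < L) => slab_rows hG hH hv x
  -- the rows
  have rlow : ∀ u, 0 < u → u ≤ b → rT G T x b r₀ r₁ u = (G.z (b - u) x).1 - T (b - u) := fun u h1 h2 => by
    unfold rT
    rw [if_neg (by omega), if_pos h2]
  have rup : ∀ u, b ≤ u → u < 2 * b → rT G T x b r₀ r₁ u = (G.z (u - b) x).1 + T (u - b) := fun u h1 h2 => by
    unfold rT
    rw [if_neg (by omega)]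
    by_cases h3 : u ≤ b
    · rw [if_pos h3]
      have e1 : b - u = 0 := by omega
      have e2 : u - b = 0 := by omega
      rw [e1, e2, hT0]
      omega
    · rw [if_neg h3, if_pos h2]
  have r0e : rT G T x b r₀ r₁ 0 = r₀ := by unfold rT; rw [if_pos rfl]
  have rbe : rT G T x b r₀ r₁ (2 * b) = r₁ := by
    unfold rT
    rw [if_neg (by omega), if_neg (by omega), if_neg (by omega)]
  -- q
  have q00 : ∀ u, 0 ≤ qT y b q₁ u := by
    intro u
    unfold qT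
    split_ifs
    · exact hq1
    · exact hy0 _
    · exact hq1
    · exact hy0 _
  refine ⟨fun u _ _ => q00 u, ?_, ?_, ?_, ?_, ?_, ?_, ?_, ?_, ?_, ?_⟩
  · -- Tt1
    obtain ⟨w, hw⟩ : ∃ w, b = w + 1 := ⟨b - 1, by omega⟩
    rw [hw]
    have := hT1' w
    omega
  · -- T1
    intro u _ hu
    unfold sT
    split_ifs with h1
    · obtain ⟨w, hw⟩ : ∃ w, b - u = w + 1 := ⟨b - u - 1, by omega⟩
      rw [hw]
      have := hT1' w
      omega
    · have := hT1' (u - b)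
      omega
  · -- TT
    intro u _ hu
    unfold sT
    split_ifs with h1
    · exact Nat.mul_le_mul_left _ (hTmono (by omega))
    · exact Nat.mul_le_mul_left _ (hTmono (by omega))
  · -- NT
    intro u _ hu
    unfold nT sT
    by_cases h1 : u = 0
    · subst h1
      rw [if_pos rfl, if_pos (by omega)]
      simpa using hN0
    · rw [if_neg h1]
      by_cases h2 : u < b
      · rw [if_pos h2, if_pos h2]
        exact min_le_right _ _
      · rw [if_neg h2, if_neg h2]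
        by_cases h3 : u = 2 * b - 1
        · rw [if_pos h3]
          have e : u - b + 1 = b := by omega
          rw [e]
          exact hN1
        · rw [if_neg h3]
          omega
  · -- rr
    intro u _ hu
    by_cases h1 : u = 0
    · subst h1
      rw [r0e, rlow 1 one_pos hb]
      exact hr0
    · by_cases h2 : u < b
      · rw [rlow u (by omega) h2.le, rlow (u + 1) (by omega) h2]
        obtain ⟨v, hv⟩ : ∃ v, b - (u + 1) = v := ⟨_, rfl⟩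
        have e1 : b - u = v + 1 := by omega
        rw [hv, e1]
        obtain ⟨g1, g2, g3, _⟩ := geo v (by omega)
        have g4 := hrow (v + 1) (by omega)
        have g5 := hTm v
        omega
      · by_cases h3 : u = 2 * b - 1
        · have e1 : u + 1 = 2 * b := by omega
          rw [e1, rbe, rup u (by omega) (by omega)]
          have e2 : u - b = b - 1 := by omega
          rw [e2]
          exact hr1
        · rw [rup u (by omega) (by omega), rup (u + 1) (by omega) (by omega)]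
          obtain ⟨v, hv⟩ : ∃ v, u - b = v := ⟨_, rfl⟩
          have e1 : u + 1 - b = v + 1 := by omega
          rw [hv, e1]
          obtain ⟨g1, g2, g3, _⟩ := geo v (by omega)
          omega
  · -- b1
    intro u _ hu
    by_cases h1 : u = 0
    · subst h1
      rw [r0e]
      unfold bT
      rw [if_pos rfl]
      exact hb01
    · by_cases h2 : u < b
      · rw [rlow u (by omega) h2.le]
        unfold bT
        rw [if_neg h1, if_pos h2]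
        have g4 := hrow (b - u) (by omega)
        show -(T (b - u) : ℤ) + (((G.z (b - u) x).1 : ℕ) : ℤ) ≤ (((G.z (b - u) x).1 - T (b - u) : ℕ) : ℤ)
        omega
      · by_cases h3 : u = 2 * b - 1
        · rw [rup u (by omega) (by omega)]
          unfold bT
          rw [if_neg h1, if_neg h2, if_pos h3]
          have e2 : u - b = b - 1 := by omega
          rw [e2]
          exact hb11
        · rw [rup u (by omega) (by omega)]
          unfold bT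
          rw [if_neg h1, if_neg h2, if_neg h3]
          obtain ⟨g1, g2, g3, _⟩ := geo (u - b) (by omega)
          show ((G.dg (u - b) x).1 : ℤ) + T (u - b) + (((G.z (u - b + 1) x).1 : ℕ) : ℤ) ≤ (((G.z (u - b) x).1 + T (u - b) : ℕ) : ℤ)
          omega
  · -- b2
    intro u _ hu
    by_cases h1 : u = 0
    · subst h1
      rw [rlow 1 one_pos hb]
      unfold bT nT
      rw [if_pos rfl, if_pos rfl]
      exact hb02
    · by_cases h2 : u < b
      · rw [rlow (u + 1) (by omega) h2]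
        unfold bT nT
        rw [if_neg h1, if_pos h2, if_neg h1, if_pos h2]
        obtain ⟨v, hv⟩ : ∃ v, b - (u + 1) = v := ⟨_, rfl⟩
        have e1 : b - u = v + 1 := by omega
        have e2 : b - 1 - u = v := by omega
        rw [hv, e1, e2]
        obtain ⟨g1, g2, g3, _⟩ := geo v (by omega)
        have g4 := hrow (v + 1) (by omega)
        have g5 := hTm v
        have g6 : min ((G.dg v x).1 + T (v + 1) - T v) (2 * T (v + 1)) = (G.dg v x).1 + T (v + 1) - T v := min_eq_left (by omega)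
        rw [g6]
        show (((G.z v x).1 - T v : ℕ) : ℤ) ≤ -(T (v + 1) : ℤ) + (((G.z (v + 1) x).1 : ℕ) : ℤ) + (((G.dg v x).1 + T (v + 1) - T v : ℕ) : ℤ)
        have g7 := hrow v (by omega)
        omega
      · by_cases h3 : u = 2 * b - 1
        · have e1 : u + 1 = 2 * b := by omega
          rw [e1, rbe]
          unfold bT nT
          rw [if_neg h1, if_neg h2, if_pos h3, if_neg h1, if_neg h2, if_pos h3]
          exact hb12
        · rw [rup (u + 1) (by omega) (by omega)]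
          unfold bT nT
          rw [if_neg h1, if_neg h2, if_neg h3, if_neg h1, if_neg h2, if_neg h3]
          obtain ⟨v, hv⟩ : ∃ v, u - b = v := ⟨_, rfl⟩
          have e1 : u + 1 - b = v + 1 := by omega
          rw [hv, e1]
          obtain ⟨g1, g2, g3, _⟩ := geo v (by omega)
          show (((G.z (v + 1) x).1 + T (v + 1) : ℕ) : ℤ) ≤ ((G.dg v x).1 : ℤ) + T v + (((G.z (v + 1) x).1 : ℕ) : ℤ) +
            ((T (v + 1) - ((G.dg v x).1 + T v) : ℕ) : ℤ)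
          omega
  · -- b3
    intro u _ hu
    by_cases h1 : u = 0
    · subst h1
      unfold bT sT
      rw [if_pos rfl, if_pos (by omega)]
      simpa using hlat0
    · by_cases h2 : u < b
      · unfold bT sT
        rw [if_neg h1, if_pos h2, if_pos h2]
        obtain ⟨v, hv⟩ : ∃ v, b - u = v + 1 := ⟨b - u - 1, by omega⟩
        rw [hv]
        exact (lat_bs60 _ _ _).trans (hκ v (by omega))
      · by_cases h3 : u = 2 * b - 1
        · unfold bT sT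
          rw [if_neg h1, if_neg h2, if_pos h3, if_neg h2]
          have e : u - b + 1 = b := by omega
          rw [e]
          exact hlat1
        · unfold bT sT
          rw [if_neg h1, if_neg h2, if_neg h3, if_neg h2]
          exact (lat_bs60 _ _ _).trans (hκ (u - b) (by omega))
  · -- far
    intro u _ hu
    by_cases h1 : u = 0
    · subst h1
      unfold bT sT nT qT
      rw [if_pos rfl, if_pos rfl, if_pos rfl, if_pos (by omega)]
      simpa using hF0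
    · by_cases h2 : u < b
      · unfold bT sT nT qT
        rw [if_neg h1, if_pos h2, if_pos h2, if_neg h1, if_pos h2, if_neg h1, if_pos h2]
        obtain ⟨v, hv⟩ : ∃ v, b - 1 - u = v := ⟨_, rfl⟩
        have e1 : b - u = v + 1 := by omega
        have e2 : u - 1 = b - 2 - v := by omega
        rw [hv, e1, e2]
        exact (lev' v (by omega)).1
      · by_cases h3 : u = 2 * b - 1
        · unfold bT sT nT qT
          rw [if_neg h1, if_neg h2, if_pos h3, if_neg h2, if_neg h1, if_neg h2, if_pos h3, if_neg h1, if_neg h2, if_pos h3]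
          have e : u - b + 1 = b := by omega
          rw [e]
          exact hF1
        · unfold bT sT nT qT
          rw [if_neg h1, if_neg h2, if_neg h3, if_neg h2, if_neg h1, if_neg h2, if_neg h3, if_neg h1, if_neg h2, if_neg h3]
          have e2 : 2 * b - 2 - u = b - 2 - (u - b) := by omega
          rw [e2]
          exact (lev' (u - b) (by omega)).2
  · -- cost
    have eT : ∀ v, 2 * T (v + 1) = (2 * T₁) * K ^ v := fun v => by rw [hTK, mul_assoc]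
    have eTb : 2 * T b = (2 * T₁) * K ^ (b - 1) := by
      obtain ⟨w, hw⟩ : ∃ w, b = w + 1 := ⟨b - 1, by omega⟩
      rw [hw, Nat.add_sub_cancel]
      exact eT w
    have hn : n₁ ≤ 2 * T₁ := by omega
    have hq0R : ∀ j : ℕ, q₁ ≤ q₀ * R ^ j := fun j =>
      hq1'.trans (le_mul_of_one_le_right hq₀ (one_le_pow₀ hR.le))
    have hsc : ∀ (X : ℝ) (j : ℕ), X ≤ q₀ * R ^ j → X * f ≤ q₀ * f * R ^ j := fun X j hX =>
      (mul_le_mul_of_nonneg_right hX hf).trans (le_of_eq (by ring))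
    have c1 := Hcost (2 * T₁) (b - 1) (Finset.range b) (fun u => b - 1 - u) (fun u => qT y b q₁ u * f) hn
      (fun u hu u' hu' huu => by
        have h1 := Finset.mem_range.1 (Finset.mem_coe.1 hu)
        have h2 := Finset.mem_range.1 (Finset.mem_coe.1 hu')
        have h3 : b - 1 - u = b - 1 - u' := huu
        omega)
      (fun u _ => by omega) (fun u _ => mul_nonneg (q00 u) hf)
      (fun u hu => by
        have h1 := Finset.mem_range.1 hu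
        refine hsc _ _ ?_
        unfold qT
        by_cases h2 : u = 0
        · rw [if_pos h2]
          exact hq0R _
        · rw [if_neg h2, if_pos h1]
          refine (hyR _).trans (mul_le_mul_of_nonneg_left (pow_le_pow_right₀ hR.le ?_) hq₀)
          omega)
    have c2 := Hcost (2 * T₁) (b - 1) (Finset.Ico b (2 * b)) (fun u => u - b) (fun u => qT y b q₁ u * f) hn
      (fun u hu u' hu' huu => by
        have h1 := Finset.mem_Ico.1 (Finset.mem_coe.1 hu)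
        have h2 := Finset.mem_Ico.1 (Finset.mem_coe.1 hu')
        have h3 : u - b = u' - b := huu
        omega)
      (fun u hu => by
        have h1 := Finset.mem_Ico.1 hu
        omega) (fun u _ => mul_nonneg (q00 u) hf)
      (fun u hu => by
        have h1 := Finset.mem_Ico.1 hu
        refine hsc _ _ ?_
        unfold qT
        rw [if_neg (by omega), if_neg (by omega)]
        by_cases h2 : u = 2 * b - 1
        · rw [if_pos h2]
          exact hq0R _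
        · rw [if_neg h2]
          refine (hyR _).trans (mul_le_mul_of_nonneg_left (pow_le_pow_right₀ hR.le ?_) hq₀)
          omega)
    have e0 : Finset.Ico 0 (2 * b) = Finset.range b ∪ Finset.Ico b (2 * b) := by
      ext u
      simp only [Finset.mem_Ico, Finset.mem_union, Finset.mem_range]
      omega
    have hd : Disjoint (Finset.range b) (Finset.Ico b (2 * b)) := by
      rw [Finset.disjoint_left]
      intro u h1 h2
      have := Finset.mem_range.1 h1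
      have := Finset.mem_Ico.1 h2
      omega
    rw [e0, Finset.sum_union hd, eTb]
    have s1 : ∑ u ∈ Finset.range b, (1 + qT y b q₁ u * f) ^ 2 *
        gr (2 * P) (2 * wd μ s ((2 * T₁) * K ^ (b - 1)) / wd μ s (sT T b u)) * EE μ s (sT T b u) =
        ∑ u ∈ Finset.range b, (1 + qT y b q₁ u * f) ^ 2 *
        gr (2 * P) (2 * wd μ s ((2 * T₁) * K ^ (b - 1)) / wd μ s ((2 * T₁) * K ^ (b - 1 - u))) * EE μ s ((2 * T₁) * K ^ (b - 1 - u)) := by
      refine Finset.sum_congr rfl fun u hu => ?_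
      have h1 := Finset.mem_range.1 hu
      have e : sT T b u = (2 * T₁) * K ^ (b - 1 - u) := by
        unfold sT
        rw [if_pos h1, ← eT]
        congr 2
        omega
      rw [e]
    have s2 : ∑ u ∈ Finset.Ico b (2 * b), (1 + qT y b q₁ u * f) ^ 2 *
        gr (2 * P) (2 * wd μ s ((2 * T₁) * K ^ (b - 1)) / wd μ s (sT T b u)) * EE μ s (sT T b u) =
        ∑ u ∈ Finset.Ico b (2 * b), (1 + qT y b q₁ u * f) ^ 2 *
        gr (2 * P) (2 * wd μ s ((2 * T₁) * K ^ (b - 1)) / wd μ s ((2 * T₁) * K ^ (u - b))) * EE μ s ((2 * T₁) * K ^ (u - b)) := by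
      refine Finset.sum_congr rfl fun u hu => ?_
      have h1 := Finset.mem_Ico.1 hu
      have e : sT T b u = (2 * T₁) * K ^ (u - b) := by
        unfold sT
        rw [if_neg (by omega), ← eT]
      rw [e]
    rw [s1, s2]
    linarith

/-- **THE SLABS THROUGH THE INSIDE**, bases within one width of the line through `κ`. -/
theorem slabsT60 (h0 : In μ s c C n₀) (P : ℕ) {K : ℕ} (hK : 2 ≤ K) : ∃ R : ℝ, 1 < R ∧ ∃ n₁ : ℕ, 1 ≤ n₁ ∧ ∀ n₂ : ℕ, n₁ ≤ n₂ →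
    ∀ q₀ : ℝ, 0 ≤ q₀ → ∃ Q : ℝ, 0 < Q ∧
    ∀ {θ Kw h : ℝ} {G : Gd} {L : ℕ} {T : ℕ → ℕ} {T₁ b : ℕ} {y : ℕ → ℝ} {x : ℕ × ℤ} {η : Env} {κ : Pt} {r₀ r₁ N₀ N₁ : ℕ} {b₀ b₁ : Pt}
      {q₁ : ℝ}, 3 ≤ Kw → G.Ok L → T 0 = 0 → (∀ v, T (v + 1) = T₁ * K ^ v) → n₂ ≤ T₁ →
      (∀ v, v < L → G.H (v + 1) + T v ≤ T (v + 1) + G.H v) → 1 ≤ b → b ≤ L → (∀ l, 0 ≤ y l) → (∀ l, y l ≤ q₀ * R ^ l) →
      0 ≤ q₁ → q₁ ≤ q₀ → (∀ v ≤ b, T v ≤ (G.z v x).1) →
      (∀ v, v + 1 < b → η ∈ ELc G (EL60 μ s c θ Kw P T y) x v (b - 2 - v)) →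
      (∀ v, v + 1 < b → |lat16 μ s κ (G.x (v + 1) x)| + 1 ≤ wd μ s (2 * T (v + 1))) →
      b₀.1 ≤ r₀ → r₀ ≤ (G.z (b - 1) x).1 - T (b - 1) → (((G.z (b - 1) x).1 - T (b - 1) : ℕ) : ℤ) ≤ b₀.1 + N₀ → N₀ ≤ 2 * T b →
      |lat16 μ s κ b₀| ≤ wd μ s (2 * T b) → η ∈ Far16 μ s c θ Kw (2 * T b) N₀ P b₀ q₁ →
      b₁.1 ≤ (((G.z (b - 1) x).1 + T (b - 1) : ℕ) : ℤ) → (G.z (b - 1) x).1 + T (b - 1) ≤ r₁ → (r₁ : ℤ) ≤ b₁.1 + N₁ → N₁ ≤ 2 * T b →
      |lat16 μ s κ b₁| ≤ wd μ s (2 * T b) → η ∈ Far16 μ s c θ Kw (2 * T b) N₁ P b₁ q₁ →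
      |h| * wd μ s (2 * T b) ≤ c / 8 * EE μ s (2 * T b) →
      Slabs μ s c θ Kw h P η κ (rT G T x b r₀ r₁) (sT T b) (nT G T x b N₀ N₁) (qT y b q₁) (bT μ s G T x b b₀ b₁) 0 (2 * b)
        (2 * T b) n₂ Q := by
  obtain ⟨R, hR, n₁, hn1, H⟩ := slabsC60 h0 P hK
  refine ⟨R, hR, n₁, hn1, fun n₂ hn2 q₀ hq₀ => ?_⟩
  obtain ⟨Q, hQ, HC⟩ := H n₂ hn2 q₀ 1 hq₀ zero_le_one
  refine ⟨Q, hQ, ?_⟩
  intro θ Kw h G L T T₁ b y x η κ r₀ r₁ N₀ N₁ b₀ b₁ q₁ hKw hG hT0 hTK hT1 hH hb hbL hy0 hyR hq1 hq1' hrow lev hκ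
    hb01 hr0 hb02 hN0 hlat0 hF0 hb11 hr1 hb12 hN1 hlat1 hF1 hforce
  have F := HC (Λ := 1) hG hT0 hTK hT1 hH hb hbL hy0 hyR hq1 hq1' hrow lev (fun v hv => by rw [one_mul]; exact hκ v hv)
    hb01 hr0 hb02 hN0 (by rw [one_mul]; exact hlat0) hF0 hb11 hr1 hb12 hN1 (by rw [one_mul]; exact hlat1) hF1
  exact ⟨F.q0, hKw, F.Tt1, F.T1, F.TT, F.NT, F.rr, F.b1, F.b2, fun u h1 h2 => by simpa using F.b3 u h1 h2, F.far,
    by simpa using F.cost, hforce⟩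

/-- **THE SLABS THROUGH THE INSIDE**, bases within `Λ` widths of the line through `κ` (wide boxes): half width `Kw - 2`, levels times
`fq16 P (Λ + 2)`, bases on the line. -/
theorem slabsU60 (h0 : In μ s c C n₀) (P : ℕ) {K : ℕ} (hK : 2 ≤ K) : ∃ R : ℝ, 1 < R ∧ ∃ n₁ : ℕ, 1 ≤ n₁ ∧ ∀ n₂ : ℕ, n₁ ≤ n₂ →
    ∀ q₀ Λ : ℝ, 0 ≤ q₀ → 0 ≤ Λ → ∃ Q : ℝ, 0 < Q ∧
    ∀ {θ Kw h : ℝ} {G : Gd} {L : ℕ} {T : ℕ → ℕ} {T₁ b : ℕ} {y : ℕ → ℝ} {x : ℕ × ℤ} {η : Env} {κ : Pt} {r₀ r₁ N₀ N₁ : ℕ} {b₀ b₁ : Pt}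
      {q₁ : ℝ}, 5 ≤ Kw → G.Ok L → T 0 = 0 → (∀ v, T (v + 1) = T₁ * K ^ v) → n₂ ≤ T₁ →
      (∀ v, v < L → G.H (v + 1) + T v ≤ T (v + 1) + G.H v) → 1 ≤ b → b ≤ L → (∀ l, 0 ≤ y l) → (∀ l, y l ≤ q₀ * R ^ l) →
      0 ≤ q₁ → q₁ ≤ q₀ → (∀ v ≤ b, T v ≤ (G.z v x).1) →
      (∀ v, v + 1 < b → η ∈ ELc G (EL60 μ s c θ Kw P T y) x v (b - 2 - v)) →
      (∀ v, v + 1 < b → |lat16 μ s κ (G.x (v + 1) x)| + 1 ≤ Λ * wd μ s (2 * T (v + 1))) →
      b₀.1 ≤ r₀ → r₀ ≤ (G.z (b - 1) x).1 - T (b - 1) → (((G.z (b - 1) x).1 - T (b - 1) : ℕ) : ℤ) ≤ b₀.1 + N₀ → N₀ ≤ 2 * T b →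
      |lat16 μ s κ b₀| ≤ Λ * wd μ s (2 * T b) → η ∈ Far16 μ s c θ Kw (2 * T b) N₀ P b₀ q₁ →
      b₁.1 ≤ (((G.z (b - 1) x).1 + T (b - 1) : ℕ) : ℤ) → (G.z (b - 1) x).1 + T (b - 1) ≤ r₁ → (r₁ : ℤ) ≤ b₁.1 + N₁ → N₁ ≤ 2 * T b →
      |lat16 μ s κ b₁| ≤ Λ * wd μ s (2 * T b) → η ∈ Far16 μ s c θ Kw (2 * T b) N₁ P b₁ q₁ →
      |h| * wd μ s (2 * T b) ≤ c / 8 * EE μ s (2 * T b) →
      Slabs μ s c θ (Kw - 2) h P η κ (rT G T x b r₀ r₁) (sT T b) (nT G T x b N₀ N₁) (fun u => qT y b q₁ u * fq16 P (Λ + 2))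
        (fun u => lp μ s κ (bT μ s G T x b b₀ b₁ u).1) 0 (2 * b) (2 * T b) n₂ Q := by
  obtain ⟨R, hR, n₁, hn1, H⟩ := slabsC60 h0 P hK
  obtain ⟨n₃, H3⟩ := eventually_atTop.1 ((wd_tendsto h0).eventually_ge_atTop 1)
  refine ⟨R, hR, max n₁ n₃, hn1.trans (le_max_left _ _), fun n₂ hn2 q₀ Λ hq₀ hΛ => ?_⟩
  obtain ⟨Q, hQ, HC⟩ := H n₂ ((le_max_left _ _).trans hn2) q₀ (fq16 P (Λ + 2)) hq₀ (zero_le_one.trans (fq16_one _ _))
  refine ⟨Q, hQ, ?_⟩
  intro θ Kw h G L T T₁ b y x η κ r₀ r₁ N₀ N₁ b₀ b₁ q₁ hKw hG hT0 hTK hT1 hH hb hbL hy0 hyR hq1 hq1' hrow lev hκ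
    hb01 hr0 hb02 hN0 hlat0 hF0 hb11 hr1 hb12 hN1 hlat1 hF1 hforce
  have F := HC (θ := θ) (Kw := Kw) (Λ := Λ) hG hT0 hTK hT1 hH hb hbL hy0 hyR hq1 hq1' hrow lev hκ
    hb01 hr0 hb02 hN0 hlat0 hF0 hb11 hr1 hb12 hN1 hlat1 hF1
  exact Slabs.of_base hKw hΛ F.q0 F.Tt1 F.T1 F.TT F.NT F.rr F.b1 F.b2
    (fun u h1 h2 => H3 _ ((le_max_right _ _).trans (hn2.trans (F.T1 u h1 h2)))) F.b3 F.far F.cost hforce

end

end Pool.Agent.W_7d29a1_C1.H60
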