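import Pool.Agent.W_7d29a1_HZ.ZE_Leg
/-!
MP_7d29a1_pr, [C1] attractor route, every tilt: THE LUCKY TUBES. `luckD`: luck of a cell with a displacement of the order of the width;
`chain`: blocks one after the other; `tube`: with positive probability (uniform in the place, in the scale and in the end point within
`K₁` widths) the point to point weight CONFINED TO A TUBE OF HALF WIDTH `d` WIDTHS around the straight line is at least
`exp (K * EE')`. (helper71)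
-/

set_option autoImplicit false

namespace Pool.Agent.W_7d29a1_C1.T71

open MeasureTheory ProbabilityTheory Filter Topology Finset
open Pool.Agent.W_7d29a1_F Pool.Agent.W_7d29a1_h4g Pool.Agent.W_7d29a1_H
open Pool.Agent.W_7d29a1_HS (In wd St cf md tubeIn_of wd_tendsto)
open Pool.Agent.W_7d29a1_HZ (wd' EE')
open Pool.Agent.W_7d29a1_HZ.ZE (leg first_good WR_end)

noncomputable section

variable {μ : Measure ℝ} {s : ℝ} [IsProbabilityMeasure μ] {c C : ℝ} {n₀ : ℕ}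

/-- (L2') The luck, for every end point `k` within `C₃` widths of the line of slope `sl μ s` (two rows of legs: strip, then leg). -/
theorem luckD (h : In μ s c C n₀) : ∀ C₃ : ℝ, 0 ≤ C₃ → ∃ Rc : ℝ, 1 ≤ Rc ∧ ∀ K : ℝ, ∃ p : ℝ, 0 < p ∧ ∃ n₁ : ℕ, ∀ i : ℕ, n₁ ≤ 2 ^ i →
    ∀ (a : Pt) (k : ℤ), |(k : ℝ) - sl μ s * (2 * 2 ^ i : ℕ)| ≤ C₃ * wd' μ s (2 ^ i) → p ≤ (law μ).real {η | Real.exp (K * EE' μ s (2 ^ i)) ≤
      WR μ s (St μ s (Rc * wd' μ s (2 ^ i)) a) η a (2 * 2 ^ i) k} := by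
  intro C₃ hC₃
  obtain ⟨R₁, hR₁, hst⟩ := Pool.Agent.W_7d29a1_HL.strip h
  obtain ⟨A, R, hA, hR, n₁, hleg⟩ := leg h (1 / 2) (R₁ + C₃) (by norm_num) (by linarith)
  obtain ⟨n₂, hn₂⟩ := Pool.Agent.W_7d29a1_HZ.wd'_eq h
  have hC1 := h.C1
  refine ⟨R + R₁, by linarith, fun K => ?_⟩
  obtain ⟨K₀, hK₀⟩ : ∃ K₀ : ℝ, K₀ = max K 0 := ⟨_, rfl⟩
  have hKK : K ≤ K₀ := by rw [hK₀]; exact le_max_left _ _
  have hK0 : 0 ≤ K₀ := by rw [hK₀]; exact le_max_right _ _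
  obtain ⟨p, hp, n₃, hn₃⟩ := hst (K₀ + A + C + 2)
  refine ⟨1 / 2 * p, by positivity, max n₁ (max n₂ n₃) + 1, fun i hi a k hk => ?_⟩
  have hi1 : n₁ ≤ 2 ^ i := by
    have := le_max_left n₁ (max n₂ n₃)
    omega
  have hi2 : n₂ ≤ 2 ^ i := by
    have := (le_max_left n₂ n₃).trans (le_max_right n₁ (max n₂ n₃))
    omega
  have hi3 : n₃ ≤ 2 ^ i := by
    have := (le_max_right n₂ n₃).trans (le_max_right n₁ (max n₂ n₃))
    omega
  obtain ⟨n, hn⟩ : ∃ n : ℕ, n = 2 ^ i := ⟨_, rfl⟩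
  have hlg := hleg i hi1
  rw [← hn] at hlg hi2 hi3 hk ⊢
  have hn1 : 1 ≤ n := by rw [hn]; exact Nat.one_le_two_pow
  obtain ⟨e1, e2, -⟩ := hn₂ n hi2
  rw [e2]
  have hE1 : 1 ≤ EE μ s n := one_le_EE n
  have hnR : (1 : ℝ) ≤ n := by exact_mod_cast hn1
  have hw1 : 1 ≤ wd' μ s n := le_max_left _ _
  have hw0 : 0 ≤ wd' μ s n := zero_le_one.trans hw1
  have hlog : Real.log (n + 1) ≤ (C + 1) * EE μ s n := by
    have h1 := h.lg n hn1
    have h2 : Real.log (n + 1) ≤ Real.log (2 * n) := Real.log_le_log (by linarith) (by linarith)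
    rw [Real.log_mul (by norm_num) (by linarith)] at h2
    have h3 : Real.log 2 ≤ 1 := by
      have := Real.log_two_lt_d9
      linarith
    nlinarith
  obtain ⟨E, hEd⟩ : ∃ E : ℤ → Set Env, E = fun y => {η | Real.exp ((K₀ + A) * EE μ s n) ≤ WR μ s (St μ s (R₁ * wd μ s n) a) η a n y} :=
    ⟨_, rfl⟩
  obtain ⟨B, hBd⟩ : ∃ B : ℤ → Set Env, B = fun y => {η | Real.exp (-(A * EE' μ s n)) ≤
      WR μ s (St μ s (R * wd' μ s n) (a.1 + n, a.2 + y)) η (a.1 + n, a.2 + y) n (k - y)} := ⟨_, rfl⟩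
  have hEm : ∀ y, MeasurableSet (E y) := fun y => by
    rw [hEd]
    exact measurableSet_le measurable_const (measurable_WR _ _ _ _)
  have hBm : ∀ y, MeasurableSet (B y) := fun y => by
    rw [hBd]
    exact measurableSet_le measurable_const (measurable_WR _ _ _ _)
  have hUV : Disjoint (rows a.1 (a.1 + n)) (rows (a.1 + n) (a.1 + n + n)) := by
    rw [Set.disjoint_left]
    intro q h1 h2
    have h3 := h1.2
    have h4 := h2.1
    omega
  have dE : ∀ (y : ℤ) (η η' : Env), (∀ p ∈ rows a.1 (a.1 + n), η p = η' p) → (η ∈ E y ↔ η' ∈ E y) := by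
    intro y η η' hh
    have h1 := WR_dep (μ := μ) (s := s) (St μ s (R₁ * wd μ s n) a) a n y (fun p hp => hh p ⟨hp.1.1, hp.1.2.1⟩)
    dsimp only at h1
    rw [hEd]
    simp only [Set.mem_ofPred_eq]
    rw [h1]
  have dB : ∀ (y : ℤ) (η η' : Env), (∀ p ∈ rows (a.1 + n) (a.1 + n + n), η p = η' p) → (η ∈ B y ↔ η' ∈ B y) := by
    intro y η η' hh
    have h1 := WR_dep (μ := μ) (s := s) (St μ s (R * wd' μ s n) (a.1 + n, a.2 + y)) (a.1 + n, a.2 + y) n (k - y)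
      (fun p hp => hh p ⟨hp.1.1, hp.1.2.1⟩)
    dsimp only at h1
    rw [hBd]
    simp only [Set.mem_ofPred_eq]
    rw [h1]
  have hend : ∀ (y : ℤ) (η : Env), η ∈ E y → |(y : ℝ) - sl μ s * n| ≤ (R₁ * wd' μ s n) := by
    intro y η hη
    by_contra hcon
    have h1 : WR μ s (St μ s (R₁ * wd μ s n) a) η a n y = 0 := WR_end _ η a hn1 fun h2 => hcon (by
      have h3 : |((a.2 + y - a.2 : ℤ) : ℝ) - sl μ s * ((a.1 + (n : ℤ) - a.1 : ℤ) : ℝ)| ≤ R₁ * wd μ s n := h2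
      rw [e1]
      rw [add_sub_cancel_left, add_sub_cancel_left, Int.cast_natCast] at h3
      exact h3)
    rw [hEd] at hη
    have h2 : Real.exp ((K₀ + A) * EE μ s n) ≤ WR μ s (St μ s (R₁ * wd μ s n) a) η a n y := hη
    rw [h1] at h2
    exact absurd h2 (not_le.2 (Real.exp_pos _))
  have hneB : ∀ y ∈ Icc (0 : ℤ) n, (E y).Nonempty → 1 / 2 ≤ (law μ).real (B y) := by
    rintro y hy ⟨η, hη⟩
    have h1 := hlg (a.1 + n, a.2 + y) (k - y) (by
      have h2 := hend y η hη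
      push_cast at hk ⊢
      rw [abs_le] at h2 hk ⊢
      constructor <;> nlinarith)
    have h2 : (B y)ᶜ = {η | WR μ s (St μ s (R * wd' μ s n) (a.1 + n, a.2 + y)) η (a.1 + n, a.2 + y) n (k - y) <
        Real.exp (-(A * EE' μ s n))} := by
      rw [hBd]
      ext η
      simp only [Set.mem_compl_iff, Set.mem_ofPred_eq, not_le]
    rw [← h2, measureReal_compl (hBm y), probReal_univ] at h1
    linarith
  have hmain := first_good (μ := μ) hUV (1 / 2) E B hEm hBm dE dB (Icc (0 : ℤ) n) hneB Set.univ MeasurableSet.univ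
    (fun _ _ _ => Iff.rfl)
  rw [Set.univ_inter, Set.univ_inter] at hmain
  have hp' : p ≤ (law μ).real (⋃ y ∈ Icc (0 : ℤ) n, E y) := by
    refine (hn₃ n hi3 a).trans (measureReal_mono (fun η hη => ?_) (measure_ne_top _ _))
    by_contra hcon
    rw [Set.mem_iUnion₂] at hcon
    push Not at hcon
    have h1 : cf μ s (R₁ * wd μ s n) η a n ≤ (n + 1) * Real.exp ((K₀ + A) * EE μ s n) := by
      unfold cf
      have h2 : ∀ y ∈ Icc (0 : ℤ) n, WR μ s (St μ s (R₁ * wd μ s n) a) η a n y ≤ Real.exp ((K₀ + A) * EE μ s n) := fun y hy => by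
        have h3 := hcon y hy
        rw [hEd] at h3
        exact (not_le.1 h3).le
      refine (Finset.sum_le_sum h2).trans (le_of_eq ?_)
      rw [Finset.sum_const, Int.card_Icc, nsmul_eq_mul]
      have h4 : ((n : ℤ) + 1 - 0).toNat = n + 1 := by omega
      rw [h4]
      push_cast
      ring
    have h2 : (K₀ + A + C + 2) * EE μ s n ≤ Real.log (cf μ s (R₁ * wd μ s n) η a n) := hη
    have h3 : 0 < Real.log (cf μ s (R₁ * wd μ s n) η a n) := by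
      refine lt_of_lt_of_le ?_ h2
      have : 0 < K₀ + A + C + 2 := by linarith
      positivity
    have h4 : 0 < cf μ s (R₁ * wd μ s n) η a n := by
      by_contra h5
      have h6 : cf μ s (R₁ * wd μ s n) η a n = 0 :=
        le_antisymm (not_lt.1 h5) (Finset.sum_nonneg fun _ _ => WR_nonneg _ _ _ _ _)
      rw [h6, Real.log_zero] at h3
      exact lt_irrefl _ h3
    have h5 := Real.log_le_log h4 h1
    rw [Real.log_mul (by positivity) (Real.exp_pos _).ne', Real.log_exp] at h5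
    have e3 : (K₀ + A + C + 2) * EE μ s n = (C + 1) * EE μ s n + (K₀ + A) * EE μ s n + EE μ s n := by ring
    linarith
  have hsub : (⋃ y ∈ Icc (0 : ℤ) n, (E y ∩ B y)) ⊆ {η | Real.exp (K * EE μ s n) ≤
      WR μ s (St μ s ((R + R₁) * wd' μ s n) a) η a (2 * n) k} := by
    intro η hη
    rw [Set.mem_iUnion₂] at hη
    obtain ⟨y, hy, hyE, hyB⟩ := hη
    have hnd := hend y η hyE
    rw [hEd] at hyE
    rw [hBd] at hyB
    have h1 : Real.exp ((K₀ + A) * EE μ s n) ≤ WR μ s (St μ s ((R + R₁) * wd' μ s n) a) η a n y := by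
      have h1' : Real.exp ((K₀ + A) * EE μ s n) ≤ WR μ s (St μ s (R₁ * wd μ s n) a) η a n y := hyE
      refine h1'.trans (Pool.Agent.W_7d29a1_HS.WR_mono_on η a _ _ fun p hp _ _ => ?_)
      have h2 : |((p.2 - a.2 : ℤ) : ℝ) - sl μ s * ((p.1 - a.1 : ℤ) : ℝ)| ≤ R₁ * wd μ s n := hp
      show |((p.2 - a.2 : ℤ) : ℝ) - sl μ s * ((p.1 - a.1 : ℤ) : ℝ)| ≤ (R + R₁) * wd' μ s n
      rw [← e1] at h2
      refine h2.trans ?_
      nlinarith
    have h2 : Real.exp (-(A * EE μ s n)) ≤ WR μ s (St μ s ((R + R₁) * wd' μ s n) a) η (a.1 + n, a.2 + y) n (k - y) := by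
      have h2' : Real.exp (-(A * EE' μ s n)) ≤
        WR μ s (St μ s (R * wd' μ s n) (a.1 + n, a.2 + y)) η (a.1 + n, a.2 + y) n (k - y) := hyB
      rw [e2] at h2'
      refine h2'.trans (Pool.Agent.W_7d29a1_HS.WR_mono_on η _ _ _ fun p hp _ _ => ?_)
      have h3 : |((p.2 - (a.2 + y) : ℤ) : ℝ) - sl μ s * ((p.1 - (a.1 + (n : ℤ)) : ℤ) : ℝ)| ≤ R * wd' μ s n := hp
      show |((p.2 - a.2 : ℤ) : ℝ) - sl μ s * ((p.1 - a.1 : ℤ) : ℝ)| ≤ (R + R₁) * wd' μ s n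
      have h4 : ((p.2 - a.2 : ℤ) : ℝ) - sl μ s * ((p.1 - a.1 : ℤ) : ℝ) =
        (((p.2 - (a.2 + y) : ℤ) : ℝ) - sl μ s * ((p.1 - (a.1 + (n : ℤ)) : ℤ) : ℝ)) + ((y : ℝ) - sl μ s * n) := by
        push_cast
        ring
      rw [h4]
      refine (abs_add_le _ _).trans ?_
      linarith
    show Real.exp (K * EE μ s n) ≤ WR μ s (St μ s ((R + R₁) * wd' μ s n) a) η a (2 * n) k
    rw [two_mul, WR_add]
    refine le_trans ?_ (Finset.single_le_sum (f := fun k' : ℤ => WR μ s (St μ s ((R + R₁) * wd' μ s n) a) η a n k' *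
      WR μ s (St μ s ((R + R₁) * wd' μ s n) a) η (a.1 + n, a.2 + k') n (k - k'))
      (fun k _ => mul_nonneg (WR_nonneg _ _ _ _ _) (WR_nonneg _ _ _ _ _)) hy)
    refine le_trans ?_ (mul_le_mul h1 h2 (Real.exp_nonneg _) (WR_nonneg _ _ _ _ _))
    rw [← Real.exp_add]
    refine Real.exp_le_exp.2 ?_
    nlinarith
  have := measureReal_mono (μ := law μ) hsub (measure_ne_top _ _)
  linarith


/-- Blocks one after the other (row durations `τ`, heights `b i` at the row `i τ`): the lucks multiply. -/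
theorem chain {s : ℝ} (S : Set Pt) (a : Pt) (τ : ℕ) (b : ℕ → ℤ) (h0 : b 0 = 0) (hb : ∀ i, 0 ≤ b i ∧ b i ≤ ((i * τ : ℕ) : ℤ)) {p x : ℝ}
    (hp : 0 ≤ p) : ∀ q : ℕ, (∀ i < q, p ≤ (law μ).real {η | Real.exp x ≤ WR μ s S η (a.1 + ((i * τ : ℕ) : ℤ), a.2 + b i) τ (b (i + 1) - b i)}) →
      p ^ q ≤ (law μ).real {η | Real.exp (q * x) ≤ WR μ s S η a (q * τ) (b q)} := by
  intro q
  induction q with
  | zero =>
    intro _
    have h1 : {η : Env | Real.exp (((0 : ℕ) : ℝ) * x) ≤ WR μ s S η a (0 * τ) (b 0)} = Set.univ := by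
      ext η
      simp only [Set.mem_ofPred_eq, Set.mem_univ, iff_true]
      rw [h0, zero_mul]
      have h2 : WR μ s S η a 0 0 = 1 := by
        unfold WR
        have h3 : Zr S η a 0 0 = 1 := by
          show (if (0 : ℤ) = 0 then (1 : ℝ) else 0) = 1
          simp
        rw [h3]
        simp
      rw [h2]
      simp
    rw [h1, probReal_univ, pow_zero]
  | succ q ih =>
    intro hq
    have ih' := ih fun i hi => hq i (by omega)
    have hq' := hq q (by omega)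
    obtain ⟨A, hA⟩ : ∃ A : Set Env, A = {η | Real.exp (q * x) ≤ WR μ s S η a (q * τ) (b q)} := ⟨_, rfl⟩
    obtain ⟨B, hB⟩ : ∃ B : Set Env, B = {η | Real.exp x ≤ WR μ s S η (a.1 + ((q * τ : ℕ) : ℤ), a.2 + b q) τ (b (q + 1) - b q)} := ⟨_, rfl⟩
    rw [← hA] at ih'
    rw [← hB] at hq'
    have hAm : MeasurableSet A := by
      rw [hA]
      exact measurableSet_le measurable_const (measurable_WR _ _ _ _)
    have hBm : MeasurableSet B := by
      rw [hB]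
      exact measurableSet_le measurable_const (measurable_WR _ _ _ _)
    have dA : ∀ η η' : Env, (∀ p ∈ rows a.1 (a.1 + ((q * τ : ℕ) : ℤ)), η p = η' p) → (η ∈ A ↔ η' ∈ A) := by
      intro η η' hh
      have h1 := WR_dep (μ := μ) (s := s) S a (q * τ) (b q) (fun p hp => hh p ⟨hp.1.1, hp.1.2.1⟩)
      dsimp only at h1
      rw [hA]
      simp only [Set.mem_ofPred_eq]
      rw [h1]
    have dB : ∀ η η' : Env, (∀ p ∈ rows (a.1 + ((q * τ : ℕ) : ℤ)) (a.1 + ((q * τ : ℕ) : ℤ) + τ), η p = η' p) → (η ∈ B ↔ η' ∈ B) := by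
      intro η η' hh
      have h1 := WR_dep (μ := μ) (s := s) S (a.1 + ((q * τ : ℕ) : ℤ), a.2 + b q) τ (b (q + 1) - b q)
        (fun p hp => hh p ⟨hp.1.1, hp.1.2.1⟩)
      dsimp only at h1
      rw [hB]
      simp only [Set.mem_ofPred_eq]
      rw [h1]
    have hd : Disjoint (rows a.1 (a.1 + ((q * τ : ℕ) : ℤ))) (rows (a.1 + ((q * τ : ℕ) : ℤ)) (a.1 + ((q * τ : ℕ) : ℤ) + τ)) := by
      rw [Set.disjoint_left]
      intro z h1 h2
      have h3 := h1.2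
      have h4 := h2.1
      omega
    have hAB := Pool.Agent.W_7d29a1_HL.real_inter_indep (μ := μ) hAm hBm dA dB hd
    have hsub : A ∩ B ⊆ {η | Real.exp (((q + 1 : ℕ) : ℝ) * x) ≤ WR μ s S η a ((q + 1) * τ) (b (q + 1))} := by
      rintro η ⟨h1, h2⟩
      rw [hA] at h1
      rw [hB] at h2
      have h1' : Real.exp (q * x) ≤ WR μ s S η a (q * τ) (b q) := h1
      have h2' : Real.exp x ≤ WR μ s S η (a.1 + ((q * τ : ℕ) : ℤ), a.2 + b q) τ (b (q + 1) - b q) := h2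
      show Real.exp (((q + 1 : ℕ) : ℝ) * x) ≤ WR μ s S η a ((q + 1) * τ) (b (q + 1))
      have h3 := Pool.Agent.W_7d29a1_HS.WR_mul_le (μ := μ) (s := s) S η a (q * τ) τ (b (q + 1) - b q) (hb q).1 (hb q).2
      have e1 : (q + 1) * τ = q * τ + τ := by ring
      have e2 : b q + (b (q + 1) - b q) = b (q + 1) := by ring
      rw [e2] at h3
      rw [e1]
      refine le_trans ?_ h3
      refine le_trans ?_ (mul_le_mul h1' h2' (Real.exp_nonneg _) (WR_nonneg _ _ _ _ _))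
      rw [← Real.exp_add]
      refine Real.exp_le_exp.2 ?_
      push_cast
      nlinarith
    calc p ^ (q + 1) = p ^ q * p := pow_succ _ _
      _ ≤ (law μ).real A * (law μ).real B := mul_le_mul ih' hq' hp measureReal_nonneg
      _ = (law μ).real (A ∩ B) := hAB.symm
      _ ≤ _ := measureReal_mono hsub (measure_ne_top _ _)

/-- The tube of half width `r` around the straight line from `a` to `a + (n, k)`, rows `(a.1, a.1 + n]`. -/
def Tb (a : Pt) (n : ℕ) (k : ℤ) (r : ℝ) : Set Pt :=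
  {p | a.1 < p.1 ∧ p.1 ≤ a.1 + n ∧ |((p.2 - a.2 : ℤ) : ℝ) - (k : ℝ) / (n : ℝ) * ((p.1 - a.1 : ℤ) : ℝ)| ≤ r}

/-- `K₁` widths are less than any part of the cone. -/
theorem in_cone (h : In μ s c C n₀) (K₁ : ℝ) (hK₁ : 0 ≤ K₁) : ∃ n₁ : ℕ, ∀ n, n₁ ≤ n → ∀ k : ℤ, |(k : ℝ) - sl μ s * (n : ℕ)| ≤ K₁ * wd' μ s n →
    0 ≤ k ∧ k ≤ (n : ℤ) := by
  obtain ⟨a, K, ha, ha1, hK, hw⟩ := Pool.Agent.W_7d29a1_HZ.wd'_pow h
  obtain ⟨d₀, hd₀⟩ : ∃ d₀ : ℝ, d₀ = min (sl μ s) (1 - sl μ s) := ⟨_, rfl⟩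
  have hd₀0 : 0 < d₀ := by
    rw [hd₀]
    have h1 := h.sl_pos
    have h2 := h.sl_lt
    exact lt_min h1 (by linarith)
  obtain ⟨n₃, hn₃⟩ : ∃ n₃ : ℕ, ∀ n : ℕ, n₃ ≤ n → K₁ * K * wd' μ s 1 / d₀ ≤ (n : ℝ) ^ a := by
    have h1 : Tendsto (fun n : ℕ => (n : ℝ) ^ a) atTop atTop := (tendsto_rpow_atTop ha).comp tendsto_natCast_atTop_atTop
    exact eventually_atTop.1 (h1.eventually_ge_atTop _)
  refine ⟨n₃ + 1, fun n hn k hk => ?_⟩
  have hn1 : 1 ≤ n := by omega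
  have hnR : (0 : ℝ) < n := by exact_mod_cast hn1
  obtain ⟨w1', w2', w3'⟩ := hw 1 n le_rfl hn1
  have hcone : K₁ * wd' μ s n ≤ d₀ * n := by
    have h1 := hn₃ n (by omega)
    rw [div_le_iff₀ hd₀0] at h1
    rw [Nat.cast_one, div_one] at w3'
    have h2 : (n : ℝ) ^ (1 - a) * (n : ℝ) ^ a = n := by
      rw [← Real.rpow_add hnR]
      simp
    have h3 : 0 ≤ (n : ℝ) ^ (1 - a) := by positivity
    calc K₁ * wd' μ s n ≤ K₁ * (K * (n : ℝ) ^ (1 - a) * wd' μ s 1) := by gcongr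
      _ = (n : ℝ) ^ (1 - a) * (K₁ * K * wd' μ s 1) := by ring
      _ ≤ (n : ℝ) ^ (1 - a) * ((n : ℝ) ^ a * d₀) := mul_le_mul_of_nonneg_left h1 h3
      _ = d₀ * ((n : ℝ) ^ (1 - a) * (n : ℝ) ^ a) := by ring
      _ = d₀ * n := by rw [h2]
  have hkk := abs_le.1 (hk.trans hcone)
  have hda : d₀ * n ≤ sl μ s * n := mul_le_mul_of_nonneg_right (by rw [hd₀]; exact min_le_left _ _) hnR.le
  have hdb : d₀ * n ≤ (1 - sl μ s) * n := mul_le_mul_of_nonneg_right (by rw [hd₀]; exact min_le_right _ _) hnR.le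
  constructor
  · have h1 : (0 : ℝ) ≤ k := by linarith [hkk.1]
    exact_mod_cast h1
  · have h1 : (k : ℝ) ≤ n := by linarith [hkk.2]
    exact_mod_cast h1

/-- THE LUCKY TUBE. -/
theorem tube (h : In μ s c C n₀) {d : ℝ} (hd : 0 < d) (K₁ K : ℝ) : ∃ p : ℝ, 0 < p ∧ ∃ n₁ : ℕ, ∀ j : ℕ, n₁ ≤ 2 ^ j → ∀ (a : Pt) (k : ℤ),
    |(k : ℝ) - sl μ s * (2 ^ j : ℕ)| ≤ K₁ * wd' μ s (2 ^ j) →
      p ≤ (law μ).real {η | Real.exp (K * EE' μ s (2 ^ j)) ≤ WR μ s (Tb a (2 ^ j) k (d * wd' μ s (2 ^ j))) η a (2 ^ j) k} := by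
  obtain ⟨α, Kw, hα, hα1, hKw, hw⟩ := Pool.Agent.W_7d29a1_HZ.wd'_pow h
  obtain ⟨α₂, Ke, hα₂, hα₂1, hKe, hE⟩ := Pool.Agent.W_7d29a1_HZ.EE'_pow h
  obtain ⟨K₂, hK₂⟩ : ∃ K₂ : ℝ, K₂ = max K₁ 0 := ⟨_, rfl⟩
  have hK₂0 : 0 ≤ K₂ := by rw [hK₂]; exact le_max_right _ _
  have hK₂1 : K₁ ≤ K₂ := by rw [hK₂]; exact le_max_left _ _
  obtain ⟨K₀, hK₀⟩ : ∃ K₀ : ℝ, K₀ = max K 0 := ⟨_, rfl⟩
  have hK₀0 : 0 ≤ K₀ := by rw [hK₀]; exact le_max_right _ _
  have hK₀1 : K ≤ K₀ := by rw [hK₀]; exact le_max_left _ _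
  obtain ⟨Rc, hRc, hl⟩ := luckD h 2 (by norm_num)
  -- the number of blocks
  obtain ⟨m, hm⟩ : ∃ m : ℕ, (Rc + 2) * Kw / d + 2 * K₂ * Kw ≤ ((2 : ℝ) ^ m) ^ α := by
    have h1 : Tendsto (fun j : ℕ => ((2 : ℝ) ^ j) ^ α) atTop atTop :=
      (tendsto_rpow_atTop hα).comp (tendsto_pow_atTop_atTop_of_one_lt (by norm_num))
    exact (h1.eventually_ge_atTop _).exists
  obtain ⟨Kb, hKb⟩ : ∃ Kb : ℝ, Kb = K₀ * (Ke * Real.sqrt (2 * 2 ^ m)) := ⟨_, rfl⟩
  have hKb0 : 0 ≤ Kb := by rw [hKb]; positivity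
  obtain ⟨p, hp, n₁, hl⟩ := hl Kb
  obtain ⟨n₂, hn₂⟩ := in_cone h K₂ hK₂0
  refine ⟨p ^ (2 ^ m), by positivity, 2 ^ (m + 1) * (n₁ + 1) + n₂, fun j hj a k hk => ?_⟩
  have hmj : m + 1 ≤ j := by
    have h1 : 2 ^ (m + 1) ≤ 2 ^ j := le_trans (Nat.le_mul_of_pos_right _ (by omega : 0 < n₁ + 1)) (by omega)
    exact (Nat.pow_le_pow_iff_right (by norm_num)).1 h1
  obtain ⟨i, hi⟩ : ∃ i : ℕ, j = i + (m + 1) := ⟨j - (m + 1), by omega⟩
  obtain ⟨n, hn⟩ : ∃ n : ℕ, n = 2 ^ i := ⟨_, rfl⟩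
  obtain ⟨N, hN⟩ : ∃ N : ℕ, N = 2 ^ j := ⟨_, rfl⟩
  obtain ⟨q, hq⟩ : ∃ q : ℕ, q = 2 ^ m := ⟨_, rfl⟩
  have hNq : N = q * (2 * n) := by
    rw [hN, hq, hn, hi, pow_add, pow_succ]
    ring
  have hin : n₁ ≤ n := by
    have h1 : 2 ^ (m + 1) * (n₁ + 1) ≤ 2 ^ (m + 1) * 2 ^ i := by
      rw [← pow_add, add_comm (m + 1) i, ← hi]
      omega
    have h2 := Nat.le_of_mul_le_mul_left h1 (by positivity)
    omega
  have hn1 : 1 ≤ n := by rw [hn]; exact Nat.one_le_two_pow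
  have hq1 : 1 ≤ q := by rw [hq]; exact Nat.one_le_two_pow
  have hnN : n ≤ N := by
    rw [hNq]
    nlinarith
  have hN1 : 1 ≤ N := hn1.trans hnN
  have hnR : (0 : ℝ) < n := by exact_mod_cast hn1
  have hqR : (0 : ℝ) < q := by exact_mod_cast hq1
  have hqR1 : (1 : ℝ) ≤ q := by exact_mod_cast hq1
  have hNR : (0 : ℝ) < N := by exact_mod_cast hN1
  have hqc : (q : ℝ) = 2 ^ m := by rw [hq]; push_cast; rfl
  have hNqR : (N : ℝ) = q * (2 * n) := by rw [hNq]; push_cast; ring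
  have hratio : (N : ℝ) / n = 2 * q := by
    rw [hNqR]
    field_simp
  rw [← hN] at hk ⊢
  have hk' : |(k : ℝ) - sl μ s * N| ≤ K₂ * wd' μ s N :=
    hk.trans (mul_le_mul_of_nonneg_right hK₂1 (zero_le_one.trans (le_max_left _ _)))
  have hlb := hl i (by rw [← hn]; exact hin)
  rw [← hn] at hlb
  obtain ⟨w1, w2, w3⟩ := hw n N hn1 hnN
  obtain ⟨e1, e2, e3⟩ := hE n N hn1 hnN
  rw [hratio] at w2 w3 e3
  have hwn1 : 1 ≤ wd' μ s n := le_max_left _ _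
  have hwn0 : 0 ≤ wd' μ s n := zero_le_one.trans hwn1
  have hEn0 : 0 ≤ EE' μ s n := zero_le_one.trans (le_max_left _ _)
  have hEN0 : 0 ≤ EE' μ s N := zero_le_one.trans (le_max_left _ _)
  have hq2 : (2 : ℝ) * q ≥ 1 := by linarith
  -- powers
  have hpa : ((2 : ℝ) ^ m) ^ α ≤ ((2 : ℝ) * q) ^ α := by
    rw [← hqc]
    exact Real.rpow_le_rpow hqR.le (by linarith) hα.le
  -- the cone
  obtain ⟨hk0, hkN⟩ := hn₂ N (by rw [hN]; omega) k hk'
  obtain ⟨v, hv⟩ : ∃ v : ℝ, v = (k : ℝ) / (N : ℝ) := ⟨_, rfl⟩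
  have hv0 : 0 ≤ v := by
    rw [hv]
    have : (0 : ℝ) ≤ k := by exact_mod_cast hk0
    positivity
  have hv1 : v ≤ 1 := by
    rw [hv, div_le_one hNR]
    exact_mod_cast hkN
  -- the slope
  have hsl : |v - sl μ s| * (2 * n) ≤ wd' μ s n := by
    have h1 : |v - sl μ s| * (2 * n) = |(k : ℝ) - sl μ s * N| / q := by
      have h2 : v - sl μ s = ((k : ℝ) - sl μ s * N) / N := by
        rw [hv]
        field_simp
      rw [h2, abs_div, abs_of_pos hNR, hNqR]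
      field_simp
    rw [h1, div_le_iff₀ hqR]
    refine hk'.trans ?_
    have h3 : ((2 : ℝ) * q) ^ (1 - α) * ((2 : ℝ) * q) ^ α = 2 * q := by
      rw [← Real.rpow_add (by linarith)]
      simp
    have h4 : 2 * K₂ * Kw ≤ ((2 : ℝ) * q) ^ α := by
      refine le_trans ?_ (hm.trans hpa)
      have : 0 ≤ (Rc + 2) * Kw / d := by positivity
      linarith
    have h5 : 0 ≤ ((2 : ℝ) * q) ^ (1 - α) := by positivity
    calc K₂ * wd' μ s N ≤ K₂ * (Kw * (2 * (q : ℝ)) ^ (1 - α) * wd' μ s n) := by gcongr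
      _ = (2 * (q : ℝ)) ^ (1 - α) * (2 * K₂ * Kw) * wd' μ s n / 2 := by ring
      _ ≤ (2 * (q : ℝ)) ^ (1 - α) * (2 * (q : ℝ)) ^ α * wd' μ s n / 2 := by gcongr
      _ = wd' μ s n * q := by rw [h3]; ring
  -- the width
  have hwid : (Rc + 2) * wd' μ s n ≤ d * wd' μ s N := by
    have h1 : (Rc + 2) * Kw / d ≤ ((2 : ℝ) * q) ^ α := by
      refine le_trans ?_ (hm.trans hpa)
      have : 0 ≤ 2 * K₂ * Kw := by positivity
      linarith
    rw [div_le_iff₀ hd] at h1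
    have hKw0 : 0 < Kw := by linarith
    have h2 : (2 * (q : ℝ)) ^ α * wd' μ s n ≤ Kw * wd' μ s N := by
      have h3 := mul_le_mul_of_nonneg_left w2 hKw0.le
      calc _ = Kw * (Kw⁻¹ * (2 * (q : ℝ)) ^ α * wd' μ s n) := by field_simp
        _ ≤ _ := h3
    have h3 : (Rc + 2) * Kw * wd' μ s n ≤ Kw * (d * wd' μ s N) := by
      calc (Rc + 2) * Kw * wd' μ s n ≤ ((2 * (q : ℝ)) ^ α * d) * wd' μ s n := by gcongr
        _ = d * ((2 * (q : ℝ)) ^ α * wd' μ s n) := by ring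
        _ ≤ d * (Kw * wd' μ s N) := by gcongr
        _ = _ := by ring
    have h4 : Kw * ((Rc + 2) * wd' μ s n) ≤ Kw * (d * wd' μ s N) := by
      calc _ = (Rc + 2) * Kw * wd' μ s n := by ring
        _ ≤ _ := h3
    exact le_of_mul_le_mul_left h4 hKw0
  -- the energy
  have hen : K * EE' μ s N ≤ q * (Kb * EE' μ s n) := by
    have h1 : K * EE' μ s N ≤ K₀ * (Ke * Real.sqrt (2 * q) * EE' μ s n) :=
      (mul_le_mul_of_nonneg_right hK₀1 hEN0).trans (mul_le_mul_of_nonneg_left e3 hK₀0)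
    have h2 : K₀ * (Ke * Real.sqrt (2 * q) * EE' μ s n) = 1 * (Kb * EE' μ s n) := by
      rw [hKb, hqc]
      ring
    rw [h2] at h1
    exact h1.trans (mul_le_mul_of_nonneg_right hqR1 (mul_nonneg hKb0 hEn0))
  -- the blocks
  have hbq : Pool.Agent.W_7d29a1_HS.bp v (2 * n) q = k := by
    unfold Pool.Agent.W_7d29a1_HS.bp
    rw [← hNq, hv, div_mul_cancel₀ _ hNR.ne']
    exact Int.floor_intCast k
  have hb : ∀ l, 0 ≤ Pool.Agent.W_7d29a1_HS.bp v (2 * n) l ∧ Pool.Agent.W_7d29a1_HS.bp v (2 * n) l ≤ ((l * (2 * n) : ℕ) : ℤ) := by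
    intro l
    unfold Pool.Agent.W_7d29a1_HS.bp
    have hl0 : (0 : ℝ) ≤ ((l * (2 * n) : ℕ) : ℝ) := Nat.cast_nonneg _
    constructor
    · exact Int.floor_nonneg.2 (mul_nonneg hv0 hl0)
    · have h1 : v * ((l * (2 * n) : ℕ) : ℝ) ≤ ((l * (2 * n) : ℕ) : ℝ) := by nlinarith
      have h2 := Int.floor_le_floor h1
      rwa [Int.floor_natCast] at h2
  have hmain := chain (μ := μ) (s := s) (Tb a N k (d * wd' μ s N)) a (2 * n) (Pool.Agent.W_7d29a1_HS.bp v (2 * n))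
    (Pool.Agent.W_7d29a1_HS.bp_zero _ _) hb (p := p) (x := Kb * EE' μ s n) hp.le q (fun l hlq => by
      have hst := Pool.Agent.W_7d29a1_HS.bp_step v (2 * n) l
      have her := Pool.Agent.W_7d29a1_HS.bp_err v (2 * n) l
      obtain ⟨z, hz⟩ : ∃ z : ℤ, z = Pool.Agent.W_7d29a1_HS.bp v (2 * n) (l + 1) - Pool.Agent.W_7d29a1_HS.bp v (2 * n) l := ⟨_, rfl⟩
      obtain ⟨β, hβ⟩ : ∃ β : ℤ, β = Pool.Agent.W_7d29a1_HS.bp v (2 * n) l := ⟨_, rfl⟩
      rw [← hz] at hst ⊢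
      rw [← hβ] at her ⊢
      have h1 : |(z : ℝ) - sl μ s * ((2 * n : ℕ) : ℝ)| ≤ 2 * wd' μ s n := by
        have e4 : (z : ℝ) - sl μ s * ((2 * n : ℕ) : ℝ) = ((z : ℝ) - v * ((2 * n : ℕ) : ℝ)) + (v - sl μ s) * (2 * n) := by
          push_cast
          ring
        rw [e4]
        refine (abs_add_le _ _).trans ?_
        rw [abs_mul (v - sl μ s), abs_of_nonneg (show (0 : ℝ) ≤ 2 * n by positivity)]
        linarith
      have h2 := hlb (a.1 + ((l * (2 * n) : ℕ) : ℤ), a.2 + β) z h1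
      refine h2.trans (measureReal_mono (fun η hη => ?_) (measure_ne_top _ _))
      have h3 : Real.exp (Kb * EE' μ s n) ≤ WR μ s (St μ s (Rc * wd' μ s n) (a.1 + ((l * (2 * n) : ℕ) : ℤ), a.2 + β)) η
        (a.1 + ((l * (2 * n) : ℕ) : ℤ), a.2 + β) (2 * n) z := hη
      refine h3.trans (Pool.Agent.W_7d29a1_HS.WR_mono_on η _ _ _ fun P hP hP1 hP2 => ?_)
      have h4 : |((P.2 - (a.2 + β) : ℤ) : ℝ) - sl μ s * ((P.1 - (a.1 + ((l * (2 * n) : ℕ) : ℤ)) : ℤ) : ℝ)| ≤ Rc * wd' μ s n := hP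
      have h5 : a.1 + ((l * (2 * n) : ℕ) : ℤ) < P.1 := hP1
      have h6 : P.1 ≤ a.1 + ((l * (2 * n) : ℕ) : ℤ) + ((2 * n : ℕ) : ℤ) := hP2
      have h7 : (l + 1) * (2 * n) ≤ N := by
        rw [hNq]
        exact Nat.mul_le_mul_right _ hlq
      refine ⟨by omega, ?_, ?_⟩
      · have h8 : (((l + 1) * (2 * n) : ℕ) : ℤ) ≤ (N : ℤ) := by exact_mod_cast h7
        push_cast at h6 h8 ⊢
        linarith
      · rw [← hv]
        obtain ⟨u, hu⟩ : ∃ u : ℝ, u = ((P.1 - (a.1 + ((l * (2 * n) : ℕ) : ℤ)) : ℤ) : ℝ) := ⟨_, rfl⟩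
        have hu0 : 0 ≤ u := by
          rw [hu]
          have : 0 ≤ P.1 - (a.1 + ((l * (2 * n) : ℕ) : ℤ)) := by omega
          exact_mod_cast this
        have hu1 : u ≤ 2 * n := by
          rw [hu]
          have h8 : P.1 - (a.1 + ((l * (2 * n) : ℕ) : ℤ)) ≤ ((2 * n : ℕ) : ℤ) := by omega
          have h9 : ((P.1 - (a.1 + ((l * (2 * n) : ℕ) : ℤ)) : ℤ) : ℝ) ≤ (((2 * n : ℕ) : ℤ) : ℝ) := by exact_mod_cast h8
          refine h9.trans (le_of_eq ?_)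
          push_cast
          ring
        have e5 : ((P.2 - a.2 : ℤ) : ℝ) - v * ((P.1 - a.1 : ℤ) : ℝ) =
            (((P.2 - (a.2 + β) : ℤ) : ℝ) - sl μ s * u) + ((β : ℝ) - v * ((l * (2 * n) : ℕ) : ℝ)) + (sl μ s - v) * u := by
          rw [hu]
          push_cast
          ring
        rw [← hu] at h4
        rw [e5]
        refine (abs_add_le _ _).trans ?_
        have h9 : |(((P.2 - (a.2 + β) : ℤ) : ℝ) - sl μ s * u) + ((β : ℝ) - v * ((l * (2 * n) : ℕ) : ℝ))| ≤ Rc * wd' μ s n + 1 := by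
          refine (abs_add_le _ _).trans (add_le_add h4 ?_)
          rw [abs_le]
          constructor <;> linarith [her.1, her.2]
        have h10 : |(sl μ s - v) * u| ≤ wd' μ s n := by
          rw [abs_mul, abs_sub_comm, abs_of_nonneg hu0]
          exact (mul_le_mul_of_nonneg_left hu1 (abs_nonneg _)).trans hsl
        linarith)
  rw [hbq, ← hNq, hq] at hmain
  refine hmain.trans (measureReal_mono (fun η hη => ?_) (measure_ne_top _ _))
  rw [Set.mem_ofPred_eq] at hη ⊢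
  refine le_trans (Real.exp_le_exp.2 ?_) hη
  rw [hqc] at hen
  push_cast
  exact hen

end

end Pool.Agent.W_7d29a1_C1.T71
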