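import Pool.Agent.W_7d29a1_C1.FunB20
import Pool.Agent.W_7d29a1_C1.Tube71

/-!
MP_7d29a1_pr, [C1] SLAB LEMMA, final form with straight lucky lanes (any finite number of lanes, in particular one or two).
(helper20)

`SLAB20`: the kernel of the slab from `(0, a j)` to `(T, e j)` is at least `exp (L E)` for every lane `j`, the kernel from ANY start of the
window to ANY end is at most `exp (- G E)` unless the start and the end are at the two ends of the same lane, and the total mass from any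
start of the window is at most `exp (U E)`. `slab20`: its probability is at least a constant.
-/

set_option autoImplicit false

namespace Pool.Agent.W_7d29a1_C1

open MeasureTheory ProbabilityTheory Filter Topology
open Pool.Agent.W_7d29a1_F Pool.Agent.W_7d29a1_h4g Pool.Agent.W_7d29a1_H Pool.Agent.W_7d29a1_HS
open Pool.Agent.W_7d29a1_HL (real_inter_indep measurable_WR')
open Pool.Agent.W_7d29a1_C1.F31 (DecO FinO)
open Pool.Agent.W_7d29a1_C1.S71 (Off)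

noncomputable section

variable {μ : Measure ℝ} {s c C : ℝ} {n₀ : ℕ}

/-- The straight lanes. -/
def sl20 {ι : Type} (a e : ι → ℤ) (T : ℕ) (j : ι) (t : ℝ) : ℝ := a j + ((e j : ℝ) - a j) * (t / T)

/-- One lane is lucky, in its strip of half width `r`. -/
def LN20 (μ : Measure ℝ) (s : ℝ) {ι : Type} (a e : ι → ℤ) (T : ℕ) (r x : ℝ) (j : ι) : Set Env :=
  {η | Real.exp x ≤ WR μ s (T71.Tb ((0 : ℤ), a j) T (e j - a j) r) η ((0 : ℤ), a j) T (e j - a j)}

/-- The slab event. -/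
def SLAB20 (μ : Measure ℝ) (s : ℝ) {ι : Type} (a e : ι → ℤ) (T : ℕ) (ω δ L G U : ℝ) : Set Env :=
  {η | (∀ j, Real.exp L ≤ W μ s η ((0 : ℤ), a j) T (e j - a j)) ∧
    (∀ (x y : ℤ), |(x : ℝ)| ≤ ω → (∀ j, ¬ (|(x : ℝ) - a j| ≤ δ ∧ |(y : ℝ) - e j| ≤ δ)) →
      W μ s η ((0 : ℤ), x) T (y - x) ≤ Real.exp (-G)) ∧
    ∀ x : ℤ, |(x : ℝ)| ≤ ω → V μ s η ((0 : ℤ), x) T ≤ U}

theorem drift_sl20 {ι : Type} {a e : ι → ℤ} {T : ℕ} (hT : 1 ≤ T) {v K : ℝ} (ha : ∀ j, |(a j : ℝ)| ≤ K)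
    (he : ∀ j, |(e j : ℝ) - v * T| ≤ K) : Drift20 v T (2 * K) (sl20 a e T) := by
  intro j t t' h0 h1 h2
  have hT' : (0 : ℝ) < T := by exact_mod_cast hT
  have e1 : sl20 a e T j t' - sl20 a e T j t - v * (t' - t) = ((e j : ℝ) - a j - v * T) * ((t' - t) / T) := by
    unfold sl20
    field_simp
    ring
  rw [e1, abs_mul, abs_of_nonneg (div_nonneg (by linarith) hT'.le : 0 ≤ (t' - t) / T)]
  refine mul_le_mul_of_nonneg_right ?_ (div_nonneg (by linarith) hT'.le)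
  have h3 := ha j
  have h4 := he j
  rw [abs_le] at h3 h4 ⊢
  constructor <;> linarith [h3.1, h3.2, h4.1, h4.2]

/-- The strips of the lanes are protected. -/
theorem Tb_sub20 {ι : Type} {a e : ι → ℤ} {T : ℕ} {r : ℝ} (j : ι) :
    T71.Tb ((0 : ℤ), a j) T (e j - a j) r ⊆ PS20 (sl20 a e T) r := by
  intro p hp
  obtain ⟨h1, h2, h3⟩ := hp
  refine ⟨j, ?_⟩
  unfold sl20
  have e1 : (p.2 : ℝ) - (a j + ((e j : ℝ) - a j) * ((p.1 : ℝ) / T)) =
      ((p.2 - a j : ℤ) : ℝ) - ((e j - a j : ℤ) : ℝ) / (T : ℝ) * ((p.1 - 0 : ℤ) : ℝ) := by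
    push_cast
    ring
  rw [e1]
  exact h3

/-- Two straight lanes stay apart. -/
theorem sep_sl20 {ι : Type} {a e : ι → ℤ} {T : ℕ} (hT : 1 ≤ T) {d : ℝ}
    (hsep : ∀ j j', j ≠ j' → ((a j : ℝ) + d ≤ a j' ∧ (e j : ℝ) + d ≤ e j') ∨ ((a j' : ℝ) + d ≤ a j ∧ (e j' : ℝ) + d ≤ e j))
    {j j' : ι} (hj : j ≠ j') {t : ℝ} (h0 : 0 ≤ t) (h1 : t ≤ T) : d ≤ |sl20 a e T j t - sl20 a e T j' t| := by
  have hT' : (0 : ℝ) < T := by exact_mod_cast hT
  obtain ⟨θ, hθ⟩ : ∃ θ : ℝ, θ = t / T := ⟨_, rfl⟩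
  have hθ0 : 0 ≤ θ := by rw [hθ]; exact div_nonneg h0 hT'.le
  have hθ1 : θ ≤ 1 := by rw [hθ, div_le_one hT']; exact h1
  have e1 : sl20 a e T j t - sl20 a e T j' t = (1 - θ) * ((a j : ℝ) - a j') + θ * ((e j : ℝ) - e j') := by
    unfold sl20
    rw [← hθ]
    ring
  rw [e1]
  rcases hsep j j' hj with ⟨h2, h3⟩ | ⟨h2, h3⟩
  · refine le_trans ?_ (neg_le_abs _)
    nlinarith
  · refine le_trans ?_ (le_abs_self _)
    nlinarith

theorem meas_LN20 {ι : Type} (a e : ι → ℤ) (T : ℕ) (r x : ℝ) (j : ι) : MeasurableSet (LN20 μ s a e T r x j) :=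
  measurableSet_le measurable_const (measurable_WR' _ _ _ _)

theorem dep_LN20 {ι : Type} (a e : ι → ℤ) (T : ℕ) (r x : ℝ) (j : ι) : ∀ η η' : Env,
    (∀ p ∈ T71.Tb ((0 : ℤ), a j) T (e j - a j) r, η p = η' p) → (η ∈ LN20 μ s a e T r x j ↔ η' ∈ LN20 μ s a e T r x j) := by
  intro η η' hh
  have h1 : WR μ s (T71.Tb ((0 : ℤ), a j) T (e j - a j) r) η ((0 : ℤ), a j) T (e j - a j) =
      WR μ s (T71.Tb ((0 : ℤ), a j) T (e j - a j) r) η' ((0 : ℤ), a j) T (e j - a j) :=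
    WR_dep (μ := μ) (s := s) _ _ _ _ fun p hp => hh p hp.2
  unfold LN20
  rw [Set.mem_ofPred_eq, Set.mem_ofPred_eq, h1]

/-- The lanes are independent. -/
theorem lanes_prob20 [IsProbabilityMeasure μ] {ι : Type} {a e : ι → ℤ} {T : ℕ} (hT : 1 ≤ T) {r x p d : ℝ} (hp : 0 ≤ p)
    (hd : 2 * r < d)
    (hsep : ∀ j j', j ≠ j' → ((a j : ℝ) + d ≤ a j' ∧ (e j : ℝ) + d ≤ e j') ∨ ((a j' : ℝ) + d ≤ a j ∧ (e j' : ℝ) + d ≤ e j))
    (hP : ∀ j, p ≤ (law μ).real (LN20 μ s a e T r x j)) (I : Finset ι) :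
    p ^ I.card ≤ (law μ).real (⋂ j ∈ I, LN20 μ s a e T r x j) := by
  classical
  induction I using Finset.induction_on with
  | empty => simp
  | insert i I hi ih =>
    rw [Finset.card_insert_of_notMem hi, Finset.set_biInter_insert, pow_succ']
    have hdisj : Disjoint (T71.Tb ((0 : ℤ), a i) T (e i - a i) r) (⋃ j ∈ I, T71.Tb ((0 : ℤ), a j) T (e j - a j) r) := by
      rw [Set.disjoint_left]
      intro q hq1 hq2
      rw [Set.mem_iUnion₂] at hq2
      obtain ⟨j, hj, hq2⟩ := hq2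
      have hij : i ≠ j := fun h => hi (h ▸ hj)
      have t0 : (0 : ℝ) ≤ (q.1 : ℝ) := by
        have : (0 : ℤ) < q.1 := hq1.1
        exact_mod_cast this.le
      have t1 : (q.1 : ℝ) ≤ T := by
        have : q.1 ≤ (0 : ℤ) + T := hq1.2.1
        rw [zero_add] at this
        exact_mod_cast this
      have h1 := sep_sl20 hT hsep hij t0 t1
      have key : ∀ k : ι, q ∈ T71.Tb ((0 : ℤ), a k) T (e k - a k) r → |(q.2 : ℝ) - sl20 a e T k q.1| ≤ r := by
        intro k hk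
        have h3 := hk.2.2
        have e1 : (q.2 : ℝ) - sl20 a e T k q.1 =
            ((q.2 - a k : ℤ) : ℝ) - ((e k - a k : ℤ) : ℝ) / (T : ℝ) * ((q.1 - 0 : ℤ) : ℝ) := by
          unfold sl20
          push_cast
          ring
        rw [e1]
        exact h3
      have h2 := key i hq1
      have h3 := key j hq2
      have h4 : |sl20 a e T i q.1 - sl20 a e T j q.1| ≤ 2 * r := by
        rw [abs_le] at h2 h3 ⊢
        constructor <;> linarith [h2.1, h2.2, h3.1, h3.2]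
      linarith
    have h1 := real_inter_indep (μ := μ) (meas_LN20 (μ := μ) (s := s) a e T r x i)
      (Finset.measurableSet_biInter I fun j _ => meas_LN20 (μ := μ) (s := s) a e T r x j)
      (dep_LN20 (μ := μ) (s := s) a e T r x i) (fun η η' hh => by
        simp only [Set.mem_iInter]
        exact forall₂_congr fun j hj => dep_LN20 (μ := μ) (s := s) a e T r x j η η' fun p hp =>
          hh p (Set.mem_iUnion₂.2 ⟨j, hj, hp⟩)) hdisj
    rw [h1]
    exact mul_le_mul (hP i) ih (pow_nonneg hp _) measureReal_nonneg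

/-- The luck of a straight tube, every length (helper71's `tubeG`). -/
def TubeG20 (μ : Measure ℝ) (s : ℝ) : Prop :=
  ∀ d : ℝ, 0 < d → ∀ K₁ K : ℝ, ∃ p : ℝ, 0 < p ∧ ∃ n₁ : ℕ, ∀ T : ℕ, n₁ ≤ T → ∀ (a : Pt) (k : ℤ),
    |(k : ℝ) - sl μ s * T| ≤ K₁ * wd μ s T →
      p ≤ (law μ).real {η | Real.exp (K * EE μ s T) ≤ WR μ s (T71.Tb a T k (d * wd μ s T)) η a T k}

/-- **THE SLAB LEMMA WITH LUCKY LANES.** -/
theorem slab20 [IsProbabilityMeasure μ] (h : In μ s c C n₀) (hTube : TubeG20 μ s) {K δ G : ℝ} (L : ℝ) (hK : 0 ≤ K) (hδ : 0 < δ)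
    (hG : 0 ≤ G) (m : ℕ) :
    ∃ (U c₁ : ℝ) (Q n₁ : ℕ), 0 ≤ U ∧ 0 < c₁ ∧ 1 ≤ Q ∧ 1 ≤ n₁ ∧ ∀ n : ℕ, n₁ ≤ n → ∀ (ι : Type) [Fintype ι], Fintype.card ι ≤ m →
      ∀ a e : ι → ℤ, (∀ j, |(a j : ℝ)| ≤ K * wd μ s (Q * n)) → (∀ j, |(e j : ℝ) - sl μ s * (Q * n : ℕ)| ≤ K * wd μ s (Q * n)) →
        (∀ j j', j ≠ j' → ((a j : ℝ) + δ * wd μ s (Q * n) ≤ a j' ∧ (e j : ℝ) + δ * wd μ s (Q * n) ≤ e j') ∨
          ((a j' : ℝ) + δ * wd μ s (Q * n) ≤ a j ∧ (e j' : ℝ) + δ * wd μ s (Q * n) ≤ e j)) →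
        c₁ ≤ (law μ).real (SLAB20 μ s a e (Q * n) (K * wd μ s (Q * n)) (δ / 8 * wd μ s (Q * n)) (L * EE μ s (Q * n))
          (G * EE μ s (Q * n)) (U * EE μ s (Q * n))) := by
  obtain ⟨p₀, hp₀, n₂, hlane⟩ := hTube (δ / 32) (by positivity) (2 * K) L
  obtain ⟨p, hp⟩ : ∃ p : ℝ, p = min p₀ 1 ^ m := ⟨_, rfl⟩
  have hp0 : 0 < p := by rw [hp]; positivity
  obtain ⟨K₃, U, Y, hK3, hU, hY, N₀, hN₀, hfun⟩ := fun20 h (ε := δ / 64) hK (by positivity) hG hp0 (D := 2 * K) (by positivity)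
  obtain ⟨c₁, hc₁, n₁, hn₁, hmain⟩ := hfun N₀ le_rfl
  obtain ⟨n₃, hn₃⟩ := eventually_atTop.1 ((wd_tendsto h).eventually_ge_atTop 1)
  refine ⟨U, c₁, N₀, max n₁ (max n₂ n₃), hU, hc₁, hN₀, hn₁.trans (le_max_left _ _), fun n hn ι _ hcard a e ha he hsep => ?_⟩
  have hnn1 : n₁ ≤ n := (le_max_left _ _).trans hn
  have hnn2 : n₂ ≤ n := (le_max_left _ _).trans ((le_max_right _ _).trans hn)
  have hnn3 : n₃ ≤ n := (le_max_right _ _).trans ((le_max_right _ _).trans hn)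
  have hn1 : 1 ≤ n := hn₁.trans hnn1
  obtain ⟨T, hT⟩ : ∃ T : ℕ, T = N₀ * n := ⟨_, rfl⟩
  have hTn : n ≤ T := by rw [hT]; exact Nat.le_mul_of_pos_left n hN₀
  have hT1 : 1 ≤ T := hn1.trans hTn
  have hw1 : 1 ≤ wd μ s T := hn₃ T (hnn3.trans hTn)
  obtain ⟨her, hA⟩ := hmain n hnn1
  rw [← hT] at her hA ha he hsep ⊢
  have hδw : 0 < δ * wd μ s T := by
    have : 0 < wd μ s T := by linarith
    positivity
  -- the lanes
  have hP : ∀ j, min p₀ 1 ≤ (law μ).real (LN20 μ s a e T (δ / 32 * wd μ s T) (L * EE μ s T) j) := by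
    intro j
    refine (min_le_left _ _).trans (hlane T (hnn2.trans hTn) ((0 : ℤ), a j) (e j - a j) ?_)
    have h3 := ha j
    have h4 := he j
    push_cast
    rw [abs_le] at h3 h4 ⊢
    constructor <;> linarith [h3.1, h3.2, h4.1, h4.2]
  have hp1 : p ≤ (law μ).real (⋂ j ∈ (Finset.univ : Finset ι), LN20 μ s a e T (δ / 32 * wd μ s T) (L * EE μ s T) j) := by
    refine le_trans ?_ (lanes_prob20 (μ := μ) (s := s) hT1 (le_min hp₀.le zero_le_one) (d := δ * wd μ s T) (by linarith) hsep hP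
      Finset.univ)
    rw [hp]
    exact pow_le_pow_of_le_one (le_min hp₀.le zero_le_one) (min_le_right _ _) (by rw [Finset.card_univ]; exact hcard)
  have hdr : Drift20 (sl μ s) T (2 * K * wd μ s T) (sl20 a e T) := by
    have h3 := drift_sl20 (v := sl μ s) (K := K * wd μ s T) hT1 ha he
    have e1 : 2 * (K * wd μ s T) = 2 * K * wd μ s T := by ring
    rwa [e1] at h3
  obtain ⟨h1, hdr2⟩ := hA ι (sl20 a e T) (δ / 32 * wd μ s T) hdr
    (⋂ j ∈ (Finset.univ : Finset ι), LN20 μ s a e T (δ / 32 * wd μ s T) (L * EE μ s T) j)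
    (Finset.measurableSet_biInter _ fun j _ => meas_LN20 (μ := μ) (s := s) a e T _ _ j)
    (DecO.of_off fun η η' hh => by
      simp only [Set.mem_iInter]
      exact forall₂_congr fun j _ => dep_LN20 (μ := μ) (s := s) a e T _ _ j η η' fun q hq =>
        hh q (Set.notMem_compl_iff.2 (Tb_sub20 j hq))) hp1
  refine h1.trans (measureReal_mono (fun η hη => ?_) (measure_ne_top _ _))
  obtain ⟨k1, k2, k3, k4, k5⟩ := hη
  rw [← hT] at k2 k3 k4 k5
  refine ⟨fun j => ?_, fun x y hx hxy => ?_, fun x hx => ?_⟩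
  · have h2 : η ∈ LN20 μ s a e T (δ / 32 * wd μ s T) (L * EE μ s T) j := Set.mem_iInter₂.1 k1 j (Finset.mem_univ _)
    exact le_trans h2 (WR_le_W _ _ _ _ _)
  · refine le_trans ?_ her
    have hωω : K * wd μ s T ≤ K₃ * wd μ s T := mul_le_mul_of_nonneg_right (by linarith) (by linarith)
    have hs1 := kernel_small20 (μ := μ) (s := s) (ω₀ := K * wd μ s T) (ω := K₃ * wd μ s T) (ρ := δ / 64 * wd μ s T)
      (α := δ / 32 * wd μ s T + 2 * (δ / 64 * wd μ s T)) (τ := δ / 64 * wd μ s T) (Y := Y * EE μ s T)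
      (Y' := (G + 1) * EE μ s T) (U := U * EE μ s T) (n := n) (N := N₀) (l := la20 (sl20 a e T) n) (η := η) hn1 hN₀ hωω
      (by rw [← hT]; exact k2) (by rw [← hT]; exact k3) k4 k5 (fun j i hi => hdr2 j i hi) (fun j j' hj i hi => ?_) hx y
      (fun j => ?_)
    · rw [← hT] at hs1
      exact hs1
    · -- separation
      have t1 : (((i * n : ℕ) : ℝ)) ≤ T := by
        rw [hT]
        exact_mod_cast Nat.mul_le_mul_right n hi
      have h3 := sep_sl20 hT1 hsep hj (t := ((i * n : ℕ) : ℝ)) (Nat.cast_nonneg _) t1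
      unfold la20
      refine lt_of_lt_of_le ?_ h3
      linarith
    · rintro ⟨h3, h4⟩
      refine hxy j ⟨?_, ?_⟩
      · have e1 : la20 (sl20 a e T) n j 0 = a j := by
          unfold la20 sl20
          simp
        rw [e1] at h3
        linarith
      · have e1 : la20 (sl20 a e T) n j N₀ = e j := by
          unfold la20 sl20
          rw [← hT, div_self (by positivity : (T : ℝ) ≠ 0)]
          ring
        rw [e1] at h4
        linarith
  · have h3 := k2 0 T x (by omega) (by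
      simp only [Nat.cast_zero, mul_zero, sub_zero]
      exact hx.trans (mul_le_mul_of_nonneg_right (by linarith) (by linarith)))
    exact h3

end

end Pool.Agent.W_7d29a1_C1
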