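import Pool.Agent.W_7d29a1_C1.SlabT20

/-!
MP_7d29a1_pr, [C1] SLAB LEMMA, ORDER OF THE CONSTANTS: `U` BEFORE `G`. (helper20)

`slabGZ20`: the upper bound `U` of the total masses (and the tolerance `p` of an additional decreasing event `Z`) depend on `K, δ, L, m` only;
the suppression `G` is chosen after them, then `c₁`, `Q`, `n₁`.
-/

set_option autoImplicit false

namespace Pool.Agent.W_7d29a1_C1

open MeasureTheory ProbabilityTheory Filter Topology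
open Pool.Agent.W_7d29a1_F Pool.Agent.W_7d29a1_h4g Pool.Agent.W_7d29a1_H Pool.Agent.W_7d29a1_HS
open Pool.Agent.W_7d29a1_HR (Dec)
open Pool.Agent.W_7d29a1_C1.F31 (DecO FinO)
open Pool.Agent.W_7d29a1_C1.S71 (Off gl)

noncomputable section

variable {μ : Measure ℝ} {s c C : ℝ} {n₀ : ℕ}

/-- **THE SLAB LEMMA, `U` before `G`, with an additional decreasing event.** -/
theorem slabGZ20 [IsProbabilityMeasure μ] (h : In μ s c C n₀) {K δ : ℝ} (L : ℝ) (hK : 0 ≤ K) (hδ : 0 < δ) (m : ℕ) :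
    ∃ U p : ℝ, 0 ≤ U ∧ 0 < p ∧ ∀ G : ℝ, 0 ≤ G → ∃ (c₁ : ℝ) (Q n₁ : ℕ), 0 < c₁ ∧ 1 ≤ Q ∧ 1 ≤ n₁ ∧ ∀ n : ℕ, n₁ ≤ n →
      ∀ (ι : Type) [Fintype ι], Fintype.card ι ≤ m →
      ∀ a e : ι → ℤ, (∀ j, |(a j : ℝ)| ≤ K * wd μ s (Q * n)) → (∀ j, |(e j : ℝ) - sl μ s * (Q * n : ℕ)| ≤ K * wd μ s (Q * n)) →
        (∀ j j', j ≠ j' → ((a j : ℝ) + δ * wd μ s (Q * n) ≤ a j' ∧ (e j : ℝ) + δ * wd μ s (Q * n) ≤ e j') ∨
          ((a j' : ℝ) + δ * wd μ s (Q * n) ≤ a j ∧ (e j' : ℝ) + δ * wd μ s (Q * n) ≤ e j)) →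
        ∀ Z : Set Env, MeasurableSet Z → Dec Z → (law μ).real Zᶜ ≤ p →
        c₁ ≤ (law μ).real (SLAB20 μ s a e (Q * n) (K * wd μ s (Q * n)) (δ / 8 * wd μ s (Q * n)) (L * EE μ s (Q * n))
          (G * EE μ s (Q * n)) (U * EE μ s (Q * n)) ∩ Z) := by
  obtain ⟨p₀, hp₀, n₂, hlane⟩ := tubeG20 h (δ / 32) (by positivity) (2 * K) L
  obtain ⟨p, hp⟩ : ∃ p : ℝ, p = min p₀ 1 ^ m := ⟨_, rfl⟩
  have hp0 : 0 < p := by rw [hp]; positivity
  obtain ⟨K₀, U, hK0, hU, n₄, hUE⟩ := upexit20 h hK (G := 0) le_rfl (eps := p / 4) (by positivity)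
  refine ⟨U, p / 4, hU, by positivity, fun G hG => ?_⟩
  obtain ⟨K₃, U', Y, hK3, hU', hY, N₀, hN₀, hfun⟩ := fun20 h (ε := δ / 64) hK (by positivity) hG (p := p / 2) (by positivity)
    (D := 2 * K) (by positivity)
  obtain ⟨c₁, hc₁, n₁, hn₁, hmain⟩ := hfun N₀ le_rfl
  obtain ⟨n₃, hn₃⟩ := eventually_atTop.1 ((wd_tendsto h).eventually_ge_atTop 1)
  refine ⟨c₁, N₀, max (max n₁ n₄) (max n₂ n₃), hc₁, hN₀, hn₁.trans ((le_max_left _ _).trans (le_max_left _ _)),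
    fun n hn ι _ hcard a e ha he hsep Z mZ dZ pZ => ?_⟩
  have hnn1 : n₁ ≤ n := (le_max_left _ _).trans ((le_max_left _ _).trans hn)
  have hnn4 : n₄ ≤ n := (le_max_right _ _).trans ((le_max_left _ _).trans hn)
  have hnn2 : n₂ ≤ n := (le_max_left _ _).trans ((le_max_right _ _).trans hn)
  have hnn3 : n₃ ≤ n := (le_max_right _ _).trans ((le_max_right _ _).trans hn)
  have hn1 : 1 ≤ n := hn₁.trans hnn1
  obtain ⟨T, hT⟩ : ∃ T : ℕ, T = N₀ * n := ⟨_, rfl⟩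
  have hTn : n ≤ T := by rw [hT]; exact Nat.le_mul_of_pos_left n hN₀
  have hT1 : 1 ≤ T := hn1.trans hTn
  have hw1 : 1 ≤ wd μ s T := hn₃ T (hnn3.trans hTn)
  obtain ⟨her, hA⟩ := hmain n hnn1
  rw [← hT] at her hA ha he hsep ⊢
  have hδw : 0 < δ * wd μ s T := by
    have : 0 < wd μ s T := by linarith
    positivity
  -- the upper bound of the masses of the starts of the window
  obtain ⟨Bu, hBu⟩ : ∃ Bu : Set Env, Bu = {η | UP20 μ s (K₀ * wd μ s T) T (U * EE μ s T) η} := ⟨_, rfl⟩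
  have mBu : MeasurableSet Bu := by rw [hBu]; exact meas_UP20 _ _ _
  have dBu : Dec Bu := by rw [hBu]; exact fun η η' hh h1 => dec_UP20 _ _ _ _ _ hh h1
  have pBu : (law μ).real Buᶜ ≤ p / 4 := by
    refine le_trans (measureReal_mono (fun η hη => ?_) (measure_ne_top _ _)) (hUE T (hnn4.trans hTn))
    rw [hBu] at hη
    exact fun h1 => hη h1.1
  -- the lanes
  have hP : ∀ j, min p₀ 1 ≤ (law μ).real (LN20 μ s a e T (δ / 32 * wd μ s T) (L * EE μ s T) j) := by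
    intro j
    refine (min_le_left _ _).trans (hlane T (hnn2.trans hTn) ((0 : ℤ), a j) (e j - a j) ?_)
    have h3 := ha j
    have h4 := he j
    push_cast
    rw [abs_le] at h3 h4 ⊢
    constructor <;> linarith [h3.1, h3.2, h4.1, h4.2]
  obtain ⟨A₀, hA₀⟩ : ∃ A₀ : Set Env, A₀ = ⋂ j ∈ (Finset.univ : Finset ι), LN20 μ s a e T (δ / 32 * wd μ s T) (L * EE μ s T) j :=
    ⟨_, rfl⟩
  have mA₀ : MeasurableSet A₀ := by
    rw [hA₀]
    exact Finset.measurableSet_biInter _ fun j _ => meas_LN20 (μ := μ) (s := s) a e T _ _ j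
  have hp1 : p ≤ (law μ).real A₀ := by
    rw [hA₀]
    refine le_trans ?_ (lanes_prob20 (μ := μ) (s := s) hT1 (le_min hp₀.le zero_le_one) (d := δ * wd μ s T) (by linarith) hsep hP
      Finset.univ)
    rw [hp]
    exact pow_le_pow_of_le_one (le_min hp₀.le zero_le_one) (min_le_right _ _) (by rw [Finset.card_univ]; exact hcard)
  have hp2 : p / 2 ≤ (law μ).real (A₀ ∩ (Bu ∩ Z)) := by
    have h3 : A₀ ⊆ (A₀ ∩ (Bu ∩ Z)) ∪ (Buᶜ ∪ Zᶜ) := by
      intro η hη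
      by_cases hb : η ∈ Bu
      · by_cases hj : η ∈ Z
        · exact Or.inl ⟨hη, hb, hj⟩
        · exact Or.inr (Or.inr hj)
      · exact Or.inr (Or.inl hb)
    have h4 := (measureReal_mono h3 (measure_ne_top (law μ) _)).trans ((measureReal_union_le _ _).trans
      (add_le_add le_rfl (measureReal_union_le _ _)))
    linarith
  have hdr : Drift20 (sl μ s) T (2 * K * wd μ s T) (sl20 a e T) := by
    have h3 := drift_sl20 (v := sl μ s) (K := K * wd μ s T) hT1 ha he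
    have e1 : 2 * (K * wd μ s T) = 2 * K * wd μ s T := by ring
    rwa [e1] at h3
  have oA : DecO (PS20 (sl20 a e T) (δ / 32 * wd μ s T)) A₀ := by
    rw [hA₀]
    exact DecO.of_off fun η η' hh => by
      simp only [Set.mem_iInter]
      exact forall₂_congr fun j _ => dep_LN20 (μ := μ) (s := s) a e T _ _ j η η' fun q hq =>
        hh q (Set.notMem_compl_iff.2 (Tb_sub20 j hq))
  obtain ⟨h1, hdr2⟩ := hA ι (sl20 a e T) (δ / 32 * wd μ s T) hdr (A₀ ∩ (Bu ∩ Z)) (mA₀.inter (mBu.inter mZ))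
    (oA.inter ((DecO.of_dec dBu _).inter (DecO.of_dec dZ _))) hp2
  refine h1.trans (measureReal_mono (fun η hη => ?_) (measure_ne_top _ _))
  obtain ⟨⟨k1, k1u, k1z⟩, k2, k3, k4, k5⟩ := hη
  rw [← hT] at k2 k3 k4 k5
  refine ⟨⟨fun j => ?_, fun x y hx hxy => ?_, fun x hx => ?_⟩, k1z⟩
  · rw [hA₀] at k1
    have h2 : η ∈ LN20 μ s a e T (δ / 32 * wd μ s T) (L * EE μ s T) j := Set.mem_iInter₂.1 k1 j (Finset.mem_univ _)
    exact le_trans h2 (WR_le_W _ _ _ _ _)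
  · refine le_trans ?_ her
    have hωω : K * wd μ s T ≤ K₃ * wd μ s T := mul_le_mul_of_nonneg_right (by linarith) (by linarith)
    have hs1 := kernel_small20 (μ := μ) (s := s) (ω₀ := K * wd μ s T) (ω := K₃ * wd μ s T) (ρ := δ / 64 * wd μ s T)
      (α := δ / 32 * wd μ s T + 2 * (δ / 64 * wd μ s T)) (τ := δ / 64 * wd μ s T) (Y := Y * EE μ s T)
      (Y' := (G + 1) * EE μ s T) (U := U' * EE μ s T) (n := n) (N := N₀) (l := la20 (sl20 a e T) n) (η := η) hn1 hN₀ hωω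
      (by rw [← hT]; exact k2) (by rw [← hT]; exact k3) k4 k5 (fun j i hi => hdr2 j i hi) (fun j j' hj i hi => ?_) hx y
      (fun j => ?_)
    · rw [← hT] at hs1
      exact hs1
    · -- separation
      have t1 : (((i * n : ℕ) : ℝ)) ≤ T := by
        rw [hT]
        exact_mod_cast Nat.mul_le_mul_right n hi
      have h3 := sep_sl20 hT1 hsep hj (t := ((i * n : ℕ) : ℝ)) (Nat.cast_nonneg _) t1
      unfold la20
      refine lt_of_lt_of_le ?_ h3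
      linarith
    · rintro ⟨h3, h4⟩
      refine hxy j ⟨?_, ?_⟩
      · have e1 : la20 (sl20 a e T) n j 0 = a j := by
          unfold la20 sl20
          simp
        rw [e1] at h3
        linarith
      · have e1 : la20 (sl20 a e T) n j N₀ = e j := by
          unfold la20 sl20
          rw [← hT, div_self (by positivity : (T : ℝ) ≠ 0)]
          ring
        rw [e1] at h4
        linarith
  · rw [hBu] at k1u
    exact k1u 0 T x (by omega) (by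
      simp only [Nat.cast_zero, mul_zero, sub_zero]
      exact hx.trans (mul_le_mul_of_nonneg_right (by linarith) (by linarith)))

/-- **THE SLAB LEMMA, `U` before `G`.** -/
theorem slabG20 [IsProbabilityMeasure μ] (h : In μ s c C n₀) {K δ : ℝ} (L : ℝ) (hK : 0 ≤ K) (hδ : 0 < δ) (m : ℕ) :
    ∃ U : ℝ, 0 ≤ U ∧ ∀ G : ℝ, 0 ≤ G → ∃ (c₁ : ℝ) (Q n₁ : ℕ), 0 < c₁ ∧ 1 ≤ Q ∧ 1 ≤ n₁ ∧ ∀ n : ℕ, n₁ ≤ n →
      ∀ (ι : Type) [Fintype ι], Fintype.card ι ≤ m →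
      ∀ a e : ι → ℤ, (∀ j, |(a j : ℝ)| ≤ K * wd μ s (Q * n)) → (∀ j, |(e j : ℝ) - sl μ s * (Q * n : ℕ)| ≤ K * wd μ s (Q * n)) →
        (∀ j j', j ≠ j' → ((a j : ℝ) + δ * wd μ s (Q * n) ≤ a j' ∧ (e j : ℝ) + δ * wd μ s (Q * n) ≤ e j') ∨
          ((a j' : ℝ) + δ * wd μ s (Q * n) ≤ a j ∧ (e j' : ℝ) + δ * wd μ s (Q * n) ≤ e j)) →
        ∀ (b : Pt) (B : Set Pt), rows b.1 (b.1 + (Q * n : ℕ)) ⊆ B → ∀ f : Env,
        c₁ ≤ (law μ).real {η | gl B η f ∈ at20 b (SLAB20 μ s a e (Q * n) (K * wd μ s (Q * n)) (δ / 8 * wd μ s (Q * n))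
          (L * EE μ s (Q * n)) (G * EE μ s (Q * n)) (U * EE μ s (Q * n)))} := by
  obtain ⟨U, p, hU, hp, hG⟩ := slabGZ20 h L hK hδ m
  refine ⟨U, hU, fun G hG0 => ?_⟩
  obtain ⟨c₁, Q, n₁, hc₁, hQ, hn₁, hmain⟩ := hG G hG0
  refine ⟨c₁, Q, n₁, hc₁, hQ, hn₁, fun n hn ι _ hcard a e ha he hsep b B hB f => ?_⟩
  rw [slab_gl20 a e (Q * n) _ _ _ _ _ b hB f]
  have h1 := hmain n hn ι hcard a e ha he hsep Set.univ MeasurableSet.univ (fun _ _ _ _ => Set.mem_univ _) (by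
    rw [Set.compl_univ, measureReal_empty]
    exact hp.le)
  rwa [Set.inter_univ] at h1

end

end Pool.Agent.W_7d29a1_C1
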