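import Pool.Agent.W_7d29a1_C1.SlabT20

/-!
MP_7d29a1_pr, [C1] SLAB LEMMA WITH THE UPPER BOUND CHOSEN BEFORE THE WALLS. (helper31)

`slabA31`: any lane event `A` (measurable, decreasing off the strips of the straight lanes, probability at least `p`): the upper level `U`
of the window depends on `K`, `p` only, it is chosen BEFORE the strength `G` of the walls. `slabU31` = the slab event `SLAB20` of lucky
lanes in this order, `slabF31` = the same at any base with everything else frozen.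
-/

set_option autoImplicit false

namespace Pool.Agent.W_7d29a1_C1.SU31

open MeasureTheory ProbabilityTheory Filter Topology
open Pool.Agent.W_7d29a1_F Pool.Agent.W_7d29a1_h4g Pool.Agent.W_7d29a1_H Pool.Agent.W_7d29a1_HS
open Pool.Agent.W_7d29a1_C1
open Pool.Agent.W_7d29a1_C1.F31 (DecO FinO)
open Pool.Agent.W_7d29a1_C1.S71 (Off gl)

noncomputable section

variable {μ : Measure ℝ} {s c C : ℝ} {n₀ : ℕ}

/-- The walls: every kernel from the window is at most `exp (- G)` unless start and end are at the two ends of one lane. -/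
def Wal (μ : Measure ℝ) (s : ℝ) {ι : Type} (a e : ι → ℤ) (T : ℕ) (ω δ G : ℝ) : Set Env :=
  {η | ∀ (x y : ℤ), |(x : ℝ)| ≤ ω → (∀ j, ¬ (|(x : ℝ) - a j| ≤ δ ∧ |(y : ℝ) - e j| ≤ δ)) →
      W μ s η ((0 : ℤ), x) T (y - x) ≤ Real.exp (-G)}

/-- **THE SLAB LEMMA, `U` BEFORE `G`, any lane event.** -/
theorem slabA31 [IsProbabilityMeasure μ] (h : In μ s c C n₀) {K δ p : ℝ} (hK : 0 ≤ K) (hδ : 0 < δ) (hp : 0 < p) :
    ∃ U : ℝ, 0 ≤ U ∧ ∀ G : ℝ, 0 ≤ G → ∃ (c₁ : ℝ) (Q n₁ : ℕ), 0 < c₁ ∧ 1 ≤ Q ∧ 1 ≤ n₁ ∧ ∀ n : ℕ, n₁ ≤ n → ∀ (ι : Type),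
      ∀ a e : ι → ℤ, (∀ j, |(a j : ℝ)| ≤ K * wd μ s (Q * n)) → (∀ j, |(e j : ℝ) - sl μ s * (Q * n : ℕ)| ≤ K * wd μ s (Q * n)) →
        (∀ j j', j ≠ j' → ((a j : ℝ) + δ * wd μ s (Q * n) ≤ a j' ∧ (e j : ℝ) + δ * wd μ s (Q * n) ≤ e j') ∨
          ((a j' : ℝ) + δ * wd μ s (Q * n) ≤ a j ∧ (e j' : ℝ) + δ * wd μ s (Q * n) ≤ e j)) →
        ∀ A : Set Env, MeasurableSet A → DecO (PS20 (sl20 a e (Q * n)) (δ / 32 * wd μ s (Q * n))) A → p ≤ (law μ).real A →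
        c₁ ≤ (law μ).real (A ∩ (Wal μ s a e (Q * n) (K * wd μ s (Q * n)) (δ / 8 * wd μ s (Q * n)) (G * EE μ s (Q * n)) ∩
          {η | UP20 μ s (K * wd μ s (Q * n)) (Q * n) (U * EE μ s (Q * n)) η})) := by
  obtain ⟨K', U, hK', hU, n₂, hUE⟩ := upexit20 h hK (G := 0) le_rfl (eps := p / 2) (by positivity)
  refine ⟨U, hU, fun G hG => ?_⟩
  obtain ⟨K₃, U', Y, hK3, hU', hY, N₀, hN₀, hfun⟩ := fun20 h (ε := δ / 64) hK (by positivity) hG
    (half_pos hp) (D := 2 * K) (by positivity)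
  obtain ⟨c₁, hc₁, n₁, hn₁, hmain⟩ := hfun N₀ le_rfl
  obtain ⟨n₃, hn₃⟩ := eventually_atTop.1 ((wd_tendsto h).eventually_ge_atTop 1)
  refine ⟨c₁, N₀, max n₁ (max n₂ n₃), hc₁, hN₀, hn₁.trans (le_max_left _ _), fun n hn ι a e ha he hsep A mA hA hpA => ?_⟩
  have hnn1 : n₁ ≤ n := (le_max_left _ _).trans hn
  have hnn2 : n₂ ≤ n := (le_max_left _ _).trans ((le_max_right _ _).trans hn)
  have hnn3 : n₃ ≤ n := (le_max_right _ _).trans ((le_max_right _ _).trans hn)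
  have hn1 : 1 ≤ n := hn₁.trans hnn1
  obtain ⟨T, hT⟩ : ∃ T : ℕ, T = N₀ * n := ⟨_, rfl⟩
  have hTn : n ≤ T := by rw [hT]; exact Nat.le_mul_of_pos_left n hN₀
  have hT1 : 1 ≤ T := hn1.trans hTn
  have hw1 : 1 ≤ wd μ s T := hn₃ T (hnn3.trans hTn)
  obtain ⟨her, hAm⟩ := hmain n hnn1
  rw [← hT] at her hAm ha he hsep hA ⊢
  have hδw : 0 < δ * wd μ s T := by
    have : 0 < wd μ s T := by linarith
    positivity
  -- the lane event with the upper bound on the window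
  obtain ⟨B, hB⟩ : ∃ B : Set Env, B = {η | UP20 μ s (K * wd μ s T) T (U * EE μ s T) η} := ⟨_, rfl⟩
  have mB : MeasurableSet B := by rw [hB]; exact meas_UP20 _ _ _
  have dB : DecO (PS20 (sl20 a e T) (δ / 32 * wd μ s T)) B := by rw [hB]; exact DecO.of_dec (dec_UP20 _ _ _) _
  have pB : (law μ).real Bᶜ ≤ p / 2 := by
    refine (measureReal_mono ?_ (measure_ne_top _ _)).trans (hUE T (hnn2.trans hTn))
    intro η hη hc
    apply hη
    rw [hB]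
    intro t l x h1 h2
    exact hc.1 t l x h1 (h2.trans (mul_le_mul_of_nonneg_right (by linarith) (by linarith)))
  have pAB : p / 2 ≤ (law μ).real (A ∩ B) := by
    have h2 : (law μ).real A ≤ (law μ).real (A ∩ B) + (law μ).real Bᶜ := by
      have h3 : A ⊆ (A ∩ B) ∪ Bᶜ := by
        intro η hη
        by_cases hb : η ∈ B
        · exact Or.inl ⟨hη, hb⟩
        · exact Or.inr hb
      exact (measureReal_mono h3 (measure_ne_top _ _)).trans (measureReal_union_le _ _)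
    linarith
  have hdr : Drift20 (sl μ s) T (2 * K * wd μ s T) (sl20 a e T) := by
    have h3 := drift_sl20 (v := sl μ s) (K := K * wd μ s T) hT1 ha he
    have e1 : 2 * (K * wd μ s T) = 2 * K * wd μ s T := by ring
    rwa [e1] at h3
  obtain ⟨h1, hdr2⟩ := hAm ι (sl20 a e T) (δ / 32 * wd μ s T) hdr (A ∩ B) (mA.inter mB) (hA.inter dB) pAB
  refine h1.trans (measureReal_mono (fun η hη => ?_) (measure_ne_top _ _))
  obtain ⟨⟨k1, k1'⟩, k2, k3, k4, k5⟩ := hη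
  rw [← hT] at k2 k3 k4 k5
  rw [hB] at k1'
  refine ⟨k1, fun x y hx hxy => ?_, k1'⟩
  refine le_trans ?_ her
  have hωω : K * wd μ s T ≤ K₃ * wd μ s T := mul_le_mul_of_nonneg_right (by linarith) (by linarith)
  have hs1 := kernel_small20 (μ := μ) (s := s) (ω₀ := K * wd μ s T) (ω := K₃ * wd μ s T) (ρ := δ / 64 * wd μ s T)
    (α := δ / 32 * wd μ s T + 2 * (δ / 64 * wd μ s T)) (τ := δ / 64 * wd μ s T) (Y := Y * EE μ s T)
    (Y' := (G + 1) * EE μ s T) (U := U' * EE μ s T) (n := n) (N := N₀) (l := la20 (sl20 a e T) n) (η := η) hn1 hN₀ hωω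
    (by rw [← hT]; exact k2) (by rw [← hT]; exact k3) k4 k5 (fun j i hi => hdr2 j i hi) (fun j j' hj i hi => ?_) hx y
    (fun j => ?_)
  · rw [← hT] at hs1
    exact hs1
  · -- separation
    have t1 : (((i * n : ℕ) : ℝ)) ≤ T := by
      rw [hT]
      exact_mod_cast Nat.mul_le_mul_right n hi
    have h3 := sep_sl20 hT1 hsep hj (t := ((i * n : ℕ) : ℝ)) (Nat.cast_nonneg _) t1
    unfold la20
    refine lt_of_lt_of_le ?_ h3
    linarith
  · rintro ⟨h3, h4⟩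
    refine hxy j ⟨?_, ?_⟩
    · have e1 : la20 (sl20 a e T) n j 0 = a j := by
        unfold la20 sl20
        simp
      rw [e1] at h3
      linarith
    · have e1 : la20 (sl20 a e T) n j N₀ = e j := by
        unfold la20 sl20
        rw [← hT, div_self (by positivity : (T : ℝ) ≠ 0)]
        ring
      rw [e1] at h4
      linarith

/-- The lucky lanes as a lane event. -/
theorem lanes31 [IsProbabilityMeasure μ] (h : In μ s c C n₀) {K δ : ℝ} (L : ℝ) (hδ : 0 < δ) (m : ℕ) :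
    ∃ (p : ℝ) (n₁ : ℕ), 0 < p ∧ ∀ T : ℕ, n₁ ≤ T → 1 ≤ T → ∀ (ι : Type) [Fintype ι], Fintype.card ι ≤ m →
      ∀ a e : ι → ℤ, (∀ j, |(a j : ℝ)| ≤ K * wd μ s T) → (∀ j, |(e j : ℝ) - sl μ s * T| ≤ K * wd μ s T) →
        (∀ j j', j ≠ j' → ((a j : ℝ) + δ * wd μ s T ≤ a j' ∧ (e j : ℝ) + δ * wd μ s T ≤ e j') ∨
          ((a j' : ℝ) + δ * wd μ s T ≤ a j ∧ (e j' : ℝ) + δ * wd μ s T ≤ e j)) →
        MeasurableSet (⋂ j ∈ (Finset.univ : Finset ι), LN20 μ s a e T (δ / 32 * wd μ s T) (L * EE μ s T) j) ∧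
        DecO (PS20 (sl20 a e T) (δ / 32 * wd μ s T))
          (⋂ j ∈ (Finset.univ : Finset ι), LN20 μ s a e T (δ / 32 * wd μ s T) (L * EE μ s T) j) ∧
        p ≤ (law μ).real (⋂ j ∈ (Finset.univ : Finset ι), LN20 μ s a e T (δ / 32 * wd μ s T) (L * EE μ s T) j) := by
  obtain ⟨p₀, hp₀, n₂, hlane⟩ := tubeG20 h (δ / 32) (by positivity) (2 * K) L
  obtain ⟨n₃, hn₃⟩ := eventually_atTop.1 ((wd_tendsto h).eventually_ge_atTop 1)
  refine ⟨min p₀ 1 ^ m, max n₂ n₃, by positivity, fun T hTT hT1 ι _ hcard a e ha he hsep => ⟨?_, ?_, ?_⟩⟩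
  · exact Finset.measurableSet_biInter _ fun j _ => meas_LN20 (μ := μ) (s := s) a e T _ _ j
  · refine DecO.of_off fun η η' hh => ?_
    simp only [Set.mem_iInter]
    exact forall₂_congr fun j _ => dep_LN20 (μ := μ) (s := s) a e T _ _ j η η' fun q hq =>
        hh q (Set.notMem_compl_iff.2 (Tb_sub20 j hq))
  · have hnn2 : n₂ ≤ T := (le_max_left _ _).trans hTT
    have hnn3 : n₃ ≤ T := (le_max_right _ _).trans hTT
    have hw1 : 1 ≤ wd μ s T := hn₃ T hnn3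
    have hδw : 0 < δ * wd μ s T := by
      have : 0 < wd μ s T := by linarith
      positivity
    have hP : ∀ j, min p₀ 1 ≤ (law μ).real (LN20 μ s a e T (δ / 32 * wd μ s T) (L * EE μ s T) j) := by
      intro j
      refine (min_le_left _ _).trans (hlane T hnn2 ((0 : ℤ), a j) (e j - a j) ?_)
      have h3 := ha j
      have h4 := he j
      push_cast
      rw [abs_le] at h3 h4 ⊢
      constructor <;> linarith [h3.1, h3.2, h4.1, h4.2]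
    refine le_trans ?_ (lanes_prob20 (μ := μ) (s := s) hT1 (le_min hp₀.le zero_le_one) (d := δ * wd μ s T) (by linarith) hsep hP
      Finset.univ)
    exact pow_le_pow_of_le_one (le_min hp₀.le zero_le_one) (min_le_right _ _) (by rw [Finset.card_univ]; exact hcard)

/-- **THE SLAB LEMMA WITH LUCKY LANES, `U` BEFORE `G`.** -/
theorem slabU31 [IsProbabilityMeasure μ] (h : In μ s c C n₀) {K δ : ℝ} (L : ℝ) (hK : 0 ≤ K) (hδ : 0 < δ) (m : ℕ) :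
    ∃ U : ℝ, 0 ≤ U ∧ ∀ G : ℝ, 0 ≤ G →
    ∃ (c₁ : ℝ) (Q n₁ : ℕ), 0 < c₁ ∧ 1 ≤ Q ∧ 1 ≤ n₁ ∧ ∀ n : ℕ, n₁ ≤ n → ∀ (ι : Type) [Fintype ι], Fintype.card ι ≤ m →
      ∀ a e : ι → ℤ, (∀ j, |(a j : ℝ)| ≤ K * wd μ s (Q * n)) → (∀ j, |(e j : ℝ) - sl μ s * (Q * n : ℕ)| ≤ K * wd μ s (Q * n)) →
        (∀ j j', j ≠ j' → ((a j : ℝ) + δ * wd μ s (Q * n) ≤ a j' ∧ (e j : ℝ) + δ * wd μ s (Q * n) ≤ e j') ∨
          ((a j' : ℝ) + δ * wd μ s (Q * n) ≤ a j ∧ (e j' : ℝ) + δ * wd μ s (Q * n) ≤ e j)) →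
        c₁ ≤ (law μ).real (SLAB20 μ s a e (Q * n) (K * wd μ s (Q * n)) (δ / 8 * wd μ s (Q * n)) (L * EE μ s (Q * n))
          (G * EE μ s (Q * n)) (U * EE μ s (Q * n))) := by
  obtain ⟨p, n₂, hp, hlanes⟩ := lanes31 h (K := K) L hδ m
  obtain ⟨U, hU, hmain⟩ := slabA31 h hK hδ hp
  refine ⟨U, hU, fun G hG => ?_⟩
  obtain ⟨c₁, Q, n₁, hc₁, hQ, hn₁, hs⟩ := hmain G hG
  refine ⟨c₁, Q, max n₁ n₂, hc₁, hQ, hn₁.trans (le_max_left _ _), fun n hn ι _ hcard a e ha he hsep => ?_⟩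
  have hnn1 : n₁ ≤ n := (le_max_left _ _).trans hn
  have hnn2 : n₂ ≤ n := (le_max_right _ _).trans hn
  have hTn : n ≤ Q * n := Nat.le_mul_of_pos_left n hQ
  obtain ⟨h1, h2, h3⟩ := hlanes (Q * n) (hnn2.trans hTn) ((hn₁.trans hnn1).trans hTn) ι hcard a e ha he hsep
  refine (hs n hnn1 ι a e ha he hsep _ h1 h2 h3).trans (measureReal_mono (fun η hη => ?_) (measure_ne_top _ _))
  obtain ⟨k1, k2, k3⟩ := hη
  refine ⟨fun j => ?_, k2, fun x hx => ?_⟩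
  · have h5 : η ∈ LN20 μ s a e (Q * n) (δ / 32 * wd μ s (Q * n)) (L * EE μ s (Q * n)) j :=
      Set.mem_iInter₂.1 k1 j (Finset.mem_univ _)
    exact le_trans h5 (WR_le_W _ _ _ _ _)
  · have h5 := k3 0 (Q * n) x (by omega) (by simpa using hx)
    exact h5

/-- **The same at any base `b`, the rows of the slab (or more) resampled, everything else frozen.** -/
theorem slabF31 [IsProbabilityMeasure μ] (h : In μ s c C n₀) {K δ : ℝ} (L : ℝ) (hK : 0 ≤ K) (hδ : 0 < δ) (m : ℕ) :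
    ∃ U : ℝ, 0 ≤ U ∧ ∀ G : ℝ, 0 ≤ G →
    ∃ (c₁ : ℝ) (Q n₁ : ℕ), 0 < c₁ ∧ 1 ≤ Q ∧ 1 ≤ n₁ ∧ ∀ n : ℕ, n₁ ≤ n → ∀ (ι : Type) [Fintype ι], Fintype.card ι ≤ m →
      ∀ a e : ι → ℤ, (∀ j, |(a j : ℝ)| ≤ K * wd μ s (Q * n)) → (∀ j, |(e j : ℝ) - sl μ s * (Q * n : ℕ)| ≤ K * wd μ s (Q * n)) →
        (∀ j j', j ≠ j' → ((a j : ℝ) + δ * wd μ s (Q * n) ≤ a j' ∧ (e j : ℝ) + δ * wd μ s (Q * n) ≤ e j') ∨
          ((a j' : ℝ) + δ * wd μ s (Q * n) ≤ a j ∧ (e j' : ℝ) + δ * wd μ s (Q * n) ≤ e j)) →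
        ∀ (b : Pt) (B : Set Pt), rows b.1 (b.1 + (Q * n : ℕ)) ⊆ B → ∀ f : Env,
        c₁ ≤ (law μ).real {η | gl B η f ∈ at20 b (SLAB20 μ s a e (Q * n) (K * wd μ s (Q * n)) (δ / 8 * wd μ s (Q * n))
          (L * EE μ s (Q * n)) (G * EE μ s (Q * n)) (U * EE μ s (Q * n)))} := by
  obtain ⟨U, hU, hmain⟩ := slabU31 h L hK hδ m
  refine ⟨U, hU, fun G hG => ?_⟩
  obtain ⟨c₁, Q, n₁, hc₁, hQ, hn₁, hs⟩ := hmain G hG
  refine ⟨c₁, Q, n₁, hc₁, hQ, hn₁, fun n hn ι _ hcard a e ha he hsep b B hB f => ?_⟩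
  rw [slab_gl20 a e (Q * n) _ _ _ _ _ b hB f]
  exact hs n hn ι hcard a e ha he hsep

end

end Pool.Agent.W_7d29a1_C1.SU31
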