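import Pool.Agent.W_7d29a1_C1.Sets47
import Pool.Agent.W_7d29a1_C1.SeaS75
import Pool.Agent.W_7d29a1_C1.FreE83

/-!
MP_7d29a1_pr, [C1] SHELL, fresh ball, (S): **FROM THE SEAM OF P1 AND THE FUTURE OF THE LAST BLOCK TO THE LITERAL SET `So47`.** (helper74)

`Fe` = future at the upper edge row `c3 + n₃` (`GG`), `Ge` = normalised profile at the row `c3`: `Fu47 = Nn * Ge` (`Fu_eq`). `soW74` : seam
at small cells for every slope below the envelope against `Ge` (= last line of `freA12`), lower bounds of `K5` (= `freE83`), upper bounds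
`up`, `phi` ⇒ `ζ ∈ So47`. `up74`, `phi74` : `up`, `phi` from the envelopes `En31` and the one-sided regularity (LP) of the future.
-/

set_option autoImplicit false

namespace Pool.Agent.W_7d29a1_C1.So74

open MeasureTheory Finset
open Pool.Agent.W_7d29a1_F Pool.Agent.W_7d29a1_h4g Pool.Agent.W_7d29a1_H Pool.Agent.W_7d29a1_HS
open Pool.Agent.W_7d29a1_C1.K91 (wt wt_pos)
open Pool.Agent.W_7d29a1_C1.K91P (fw bw GG fw_nonneg bw_pos bw_eq GG_pos)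
open Pool.Agent.W_7d29a1_C1.FarW89 (nk nk_nonneg nk_eq_zero bl)
open Pool.Agent.W_7d29a1_C1.FarK89 (gr gr_nonneg gr_one_le gr_mono AQ AQ_nonneg)
open Pool.Agent.W_7d29a1_C1.S83 (K5 bw_K5)
open Pool.Agent.W_7d29a1_C1.Sh21 (SeamIn js js_nonneg)
open Pool.Agent.W_7d29a1_C1.F74 (cl2)
open Pool.Agent.W_7d29a1_C1.H60 (Cx)
open Pool.Agent.W_7d29a1_C1.D31 (En31 kapo31 kapo31_pos comp31)
open Pool.Agent.W_7d29a1_C1.Fr47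

noncomputable section

/-- The future at the upper edge row `c3 + n₃`. -/
def Fe (Γ : Cx) (σ : NS47) (j : ℕ) (z : ℕ × ℤ) (n₃ : ℕ) (ζ : Env) : ℤ → ℝ := GG (wt ζ) Γ.p Γ.N (σ.c3 j z + n₃)

/-- The normalised profile at the row `c3`. -/
def Ge (μ : Measure ℝ) (s : ℝ) (Γ : Cx) (σ : NS47) (j : ℕ) (z : ℕ × ℤ) (n₃ : ℕ) (ζ : Env) (v : ℤ) : ℝ :=
  ∑ z' ∈ Icc 0 Γ.hi, K5 μ s Γ.h ζ Γ.p Γ.M (σ.c3 j z) n₃ v z' * Fe Γ σ j z n₃ ζ z'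

/-- The normalisation. -/
def Nn (μ : Measure ℝ) (s : ℝ) (Γ : Cx) (σ : NS47) (j : ℕ) (z : ℕ × ℤ) (n₃ : ℕ) : ℝ :=
  Real.exp (n₃ * lam μ s + Γ.h * sl μ s * bl Γ.M (σ.c3 j z) n₃)

variable {μ : Measure ℝ} {s : ℝ} {Γ : Cx} {σ : NS47} {j : ℕ} {z : ℕ × ℤ} {ζ : Env} {n₃ : ℕ}

theorem Nn_pos : 0 < Nn μ s Γ σ j z n₃ := Real.exp_pos _

theorem Fe_pos (y : ℤ) : 0 < Fe Γ σ j z n₃ ζ y := GG_pos (wt_pos ζ) Γ.p_pos _ _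

theorem K5_nn (x y : ℤ) : 0 ≤ K5 μ s Γ.h ζ Γ.p Γ.M (σ.c3 j z) n₃ x y :=
  mul_nonneg (wt_pos ζ _ x).le (nk_nonneg Γ.p_pos _ _ x y)

theorem Ge_nn (v : ℤ) : 0 ≤ Ge μ s Γ σ j z n₃ ζ v := sum_nonneg fun z' _ => mul_nonneg (K5_nn v z') (Fe_pos z').le

/-- **The profile at the row `c3`.** -/
theorem Fu_eq (hN : σ.c3 j z + n₃ < Γ.N) {v : ℤ} (hv : v ∈ Icc (0 : ℤ) (Γ.k + σ.c3 j z)) :
    Fu47 Γ σ j z ζ v = Nn μ s Γ σ j z n₃ * Ge μ s Γ σ j z n₃ ζ v := by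
  rw [mem_Icc] at hv
  have hZ : Icc v (v + n₃) ⊆ Icc (0 : ℤ) Γ.hi := by
    refine Icc_subset_Icc hv.1 ?_
    unfold Cx.hi
    omega
  have e1 : Γ.N - σ.c3 j z = n₃ + (Γ.N - (σ.c3 j z + n₃)) := by omega
  show bw (wt ζ) Γ.p (σ.c3 j z) (Γ.N - σ.c3 j z) v = _
  rw [e1, bw_K5 (μ := μ) (s := s) (h := Γ.h) (M := Γ.M) hZ]
  unfold Nn Ge
  refine congrArg _ (sum_congr rfl fun z' _ => ?_)
  have h1 := bw_eq (w := wt ζ) (p := Γ.p) hN z'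
  have h2 := wt_pos ζ (σ.c3 j z + n₃) z'
  rw [h1, mul_div_cancel_left₀ _ h2.ne']
  rfl

/-- Lower bound from one column of the edge row. -/
theorem Ge_ge {yp v : ℤ} (hyp : yp ∈ Icc 0 Γ.hi) {U : ℝ} (hK : Real.exp (-U) ≤ K5 μ s Γ.h ζ Γ.p Γ.M (σ.c3 j z) n₃ v yp) :
    Fe Γ σ j z n₃ ζ yp ≤ Real.exp U * Ge μ s Γ σ j z n₃ ζ v := by
  have h1 : K5 μ s Γ.h ζ Γ.p Γ.M (σ.c3 j z) n₃ v yp * Fe Γ σ j z n₃ ζ yp ≤ Ge μ s Γ σ j z n₃ ζ v :=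
    single_le_sum (f := fun z' => K5 μ s Γ.h ζ Γ.p Γ.M (σ.c3 j z) n₃ v z' * Fe Γ σ j z n₃ ζ z')
      (fun z' _ => mul_nonneg (K5_nn v z') (Fe_pos z').le) hyp
  have h2 := (mul_le_mul_of_nonneg_right hK (Fe_pos (Γ := Γ) (σ := σ) (j := j) (z := z) (n₃ := n₃) (ζ := ζ) yp).le).trans h1
  have h3 := mul_le_mul_of_nonneg_left h2 (Real.exp_pos U).le
  rwa [← mul_assoc, ← Real.exp_add, add_neg_cancel, Real.exp_zero, one_mul] at h3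

/-- The slope is below the envelope (`1 ≤ Φ`). -/
theorem js_le {Z : Finset ℤ} {k : ℤ → ℤ → ℝ} {G H : ℤ → ℝ} {c Φ : ℝ} {mp y : ℤ} (hc : 0 < c) (hΦ : 1 ≤ Φ) (hk : ∀ v ∈ Z, 0 ≤ k y v)
    (hG : ∀ v ∈ Z, 0 ≤ G v) (hH : ∀ v ∈ Z, H v = c * G v) (hm : mp ∈ Z) (hmp : 0 < G mp) :
    js Z k H (H mp) y / Φ * G mp ≤ ∑ v ∈ Z, k y v * G v := by
  have e1 : ∑ v ∈ Z, k y v * H v = c * ∑ v ∈ Z, k y v * G v := by
    rw [mul_sum]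
    exact sum_congr rfl fun v hv => by
      rw [hH v hv]
      ring
  have e2 : js Z k H (H mp) y / Φ * G mp = (∑ v ∈ Z, k y v * G v) / Φ := by
    unfold js
    rw [e1, hH mp hm]
    field_simp
  rw [e2]
  exact div_le_self (sum_nonneg fun v hv => mul_nonneg (hk v hv) (hG v hv)) hΦ

/-- **`ζ ∈ So47`.** -/
theorem soW74 (hT : σ.T j ≤ z.1) (hN : σ.c3 j z + n₃ < Γ.N) (l0 : ∀ y, 0 ≤ Cx.l y) (r0 : ∀ y, 0 ≤ Γ.r y)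
    (hκ0 : ∀ y v, 0 ≤ σ.κ j y v) (hΦ : 1 ≤ σ.Φ j)
    {B₁ B₂ yp : ℤ} {r : ℕ} {e1' e2' κ₀ U A B : ℝ}
    -- the seam of P1, small cells
    (seam : ∀ ph : ℤ → ℝ, (∀ y ∈ Icc (0 : ℤ) (Γ.k + σ.c0 j z) \ (Icc (B₁ - r) (B₁ + r + 1) ∪ Icc (B₂ - r) (B₂ + r + 1)),
        ph y * Ge μ s Γ σ j z n₃ ζ (z.2 + σ.ζc j) ≤ ∑ v ∈ Icc (0 : ℤ) (Γ.k + σ.c3 j z), σ.k0 j z y v * Ge μ s Γ σ j z n₃ ζ v) →
      SeamIn 0 (Γ.k + σ.c0 j z) (fw (wt ζ) Γ.p Cx.l (σ.c0 j z)) (fw (wt ζ) Γ.p Γ.r (σ.c0 j z)) (B₁ - r) (B₁ + r + 1) (B₂ - r)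
        (B₂ + r + 1) ph e1' e2')
    -- the fixed cells
    (a1 : σ.α₁ j + r ≤ B₁ - z.2) (b1 : B₁ - z.2 + r + 1 ≤ σ.β₁ j) (a2 : σ.α₂ j + r ≤ B₂ - z.2) (b2 : B₂ - z.2 + r + 1 ≤ σ.β₂ j)
    (gap : σ.β₁ j < σ.α₂ j) (lo : 0 ≤ z.2 + σ.α₁ j) (hi : z.2 + σ.β₂ j ≤ Γ.k + σ.c0 j z)
    (hm : z.2 + σ.ζc j ∈ Icc (0 : ℤ) (Γ.k + σ.c3 j z))
    (hwin : ∀ v ∈ Icc (z.2 + σ.ζa j) (z.2 + σ.ζb j), v ∈ Icc (0 : ℤ) (Γ.k + σ.c3 j z))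
    (hκp : 0 < κ₀) (hκ : ∀ y, (σ.α₁ j ≤ y ∧ y ≤ σ.β₁ j) ∨ (σ.α₂ j ≤ y ∧ y ≤ σ.β₂ j) → κ₀ ≤ σ.κ j y (σ.ζc j))
    -- the future
    (hyp : yp ∈ Icc 0 Γ.hi)
    (lw : ∀ v ∈ Icc (z.2 + σ.ζa j) (z.2 + σ.ζb j), Real.exp (-U) ≤ K5 μ s Γ.h ζ Γ.p Γ.M (σ.c3 j z) n₃ v yp)
    (lwm : Real.exp (-U) ≤ K5 μ s Γ.h ζ Γ.p Γ.M (σ.c3 j z) n₃ (z.2 + σ.ζc j) yp)
    (up : Ge μ s Γ σ j z n₃ ζ (z.2 + σ.ζc j) ≤ A * Fe Γ σ j z n₃ ζ yp)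
    (phi : ∀ x ∈ cl2 (z.2 + σ.α₁ j) (z.2 + σ.β₁ j) (z.2 + σ.α₂ j) (z.2 + σ.β₂ j),
      ∑ v ∈ Icc (0 : ℤ) (Γ.k + σ.c3 j z), σ.k0 j z x v * Ge μ s Γ σ j z n₃ ζ v ≤ B * Fe Γ σ j z n₃ ζ yp)
    -- the numbers
    (A0 : 0 ≤ A) (hB0 : 0 ≤ B) (hV : A * Real.exp U ≤ σ.V j) (hB : B * Real.exp U ≤ σ.Φ j) (he1 : 0 ≤ e1') (he2 : 0 ≤ e2') (h1 : e1' ≤ σ.e1 j)
    (h2 : e2' + e1' * (1 + e2') * σ.Φ j / κ₀ ≤ σ.e2 j) : ζ ∈ So47 Γ σ j z := by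
  classical
  obtain ⟨G, hGd⟩ : ∃ G, G = Ge μ s Γ σ j z n₃ ζ := ⟨_, rfl⟩
  obtain ⟨F0, hF0⟩ : ∃ F0, F0 = Fe Γ σ j z n₃ ζ yp := ⟨_, rfl⟩
  have F0p : 0 < F0 := by rw [hF0]; exact Fe_pos yp
  have hFu : ∀ v ∈ Icc (0 : ℤ) (Γ.k + σ.c3 j z), Fu47 Γ σ j z ζ v = Nn μ s Γ σ j z n₃ * G v := fun v hv => by
    rw [hGd]
    exact Fu_eq hN hv
  have Gn : ∀ v, 0 ≤ G v := fun v => by rw [hGd]; exact Ge_nn v
  have np : 0 < Nn μ s Γ σ j z n₃ := Nn_pos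
  have hmG : F0 ≤ Real.exp U * G (z.2 + σ.ζc j) := by rw [hF0, hGd]; exact Ge_ge hyp lwm
  have eU := Real.exp_pos U
  have mp0 : 0 < G (z.2 + σ.ζc j) := by
    by_contra hcon
    have := mul_nonpos_of_nonneg_of_nonpos eU.le (not_lt.1 hcon)
    linarith
  have Φ0 : 0 < σ.Φ j := by linarith
  have k0n : ∀ y v, 0 ≤ σ.k0 j z y v := fun y v => hκ0 _ _
  rw [← hGd] at seam up phi
  rw [← hF0] at up phi
  obtain ⟨ph, hph⟩ : ∃ ph : ℤ → ℝ, ph = fun x => js (Icc (0 : ℤ) (Γ.k + σ.c3 j z)) (σ.k0 j z) (Fu47 Γ σ j z ζ)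
    (Fu47 Γ σ j z ζ (z.2 + σ.ζc j)) x / σ.Φ j := ⟨_, rfl⟩
  have S1 := seam ph fun y _ => by
    rw [hph]
    exact js_le np hΦ (fun v _ => k0n y v) (fun v _ => Gn v) hFu hm mp0
  have fl0 : ∀ x, 0 ≤ fw (wt ζ) Γ.p Cx.l (σ.c0 j z) x := fun x => fw_nonneg (wt_pos ζ) Γ.p_pos l0 _ x
  have fr0 : ∀ x, 0 ≤ fw (wt ζ) Γ.p Γ.r (σ.c0 j z) x := fun x => fw_nonneg (wt_pos ζ) Γ.p_pos r0 _ x
  have Fup : ∀ v, 0 < Fu47 Γ σ j z ζ v := fun v => Fu47_pos ζ v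
  have ph0 : ∀ x ∈ Icc (0 : ℤ) (Γ.k + σ.c0 j z), 0 ≤ ph x := fun x _ => by
    rw [hph]
    exact div_nonneg (js_nonneg (fun v _ => k0n x v) (fun v _ => (Fup v).le) (Fup _).le) Φ0.le
  have phl : ∀ x ∈ Icc (z.2 + σ.α₁ j) (z.2 + σ.β₁ j) ∪ Icc (z.2 + σ.α₂ j) (z.2 + σ.β₂ j), κ₀ / σ.Φ j ≤ ph x := fun x hx => by
    rw [hph]
    refine SS75.js_lowc hm (fun v _ => k0n x v) (fun v _ => (Fup v).le) (Fup _) Φ0 ?_
    show κ₀ ≤ σ.κ j (x - z.2) (z.2 + σ.ζc j - z.2)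
    rw [add_sub_cancel_left]
    refine hκ _ ?_
    rw [mem_union, mem_Icc, mem_Icc] at hx
    omega
  have S2 := Lt9.SeamIn_widen (a1' := z.2 + σ.α₁ j) (b1' := z.2 + σ.β₁ j) (a2' := z.2 + σ.α₂ j) (b2' := z.2 + σ.β₂ j) S1 fl0 fr0 lo
    (by omega) (by omega) (by omega) (by omega) (by omega) hi (by omega) (by omega) (div_pos hκp Φ0) ph0 phl he1 he2
  have S3 := SS75.SeamIn_mono (e1' := σ.e1 j) (e2' := σ.e2 j) S2 fl0 fr0 h1 (by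
    refine le_trans (le_of_eq ?_) h2
    rw [div_div_eq_mul_div])
  refine ⟨hT, ?_, fun v hv => ?_, fun x hx => ?_⟩
  · show SeamIn _ _ _ _ _ _ _ _ _ _ _
    rw [hph] at S3
    exact S3
  · -- the window
    have g1 : F0 ≤ Real.exp U * G v := by rw [hF0, hGd]; exact Ge_ge hyp (lw v hv)
    have g2 : G (z.2 + σ.ζc j) ≤ A * (Real.exp U * G v) := up.trans (mul_le_mul_of_nonneg_left g1 A0)
    have g3 : A * (Real.exp U * G v) ≤ σ.V j * G v := by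
      rw [← mul_assoc]
      exact mul_le_mul_of_nonneg_right hV (Gn v)
    rw [hFu _ hm, hFu _ (hwin v hv)]
    have g4 := mul_le_mul_of_nonneg_left (g2.trans g3) np.le
    linarith
  · -- the row of the envelope
    have g1 : ∑ v ∈ Icc (0 : ℤ) (Γ.k + σ.c3 j z), σ.k0 j z x v * Fu47 Γ σ j z ζ v =
        Nn μ s Γ σ j z n₃ * ∑ v ∈ Icc (0 : ℤ) (Γ.k + σ.c3 j z), σ.k0 j z x v * G v := by
      rw [mul_sum]
      exact sum_congr rfl fun v hv => by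
        rw [hFu v hv]
        ring
    rw [g1, hFu _ hm]
    have g2 := phi x hx
    have g3 := mul_le_mul_of_nonneg_left hmG hB0
    have g4 : B * (Real.exp U * G (z.2 + σ.ζc j)) ≤ σ.Φ j * G (z.2 + σ.ζc j) := by
      rw [← mul_assoc]
      exact mul_le_mul_of_nonneg_right hB (Gn _)
    have g5 := mul_le_mul_of_nonneg_left ((g2.trans g3).trans g4) np.le
    linarith

/-! ### The upper bounds from the envelopes and the one-sided regularity of the future -/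

section Up

variable {P : ℕ} {c c₁ c₂ c₃ c₄ E w Q₂ Q₃ s₂ s₃ s₄ Q' S' Λ D q₁ sg : ℝ} {ℓ₁ ℓ₂ ℓ₃ : ℤ → ℝ} {kap K : ℤ → ℤ → ℝ} {J U Z C : Finset ℤ}
  {F G : ℤ → ℝ} {yp : ℤ}

/-- One exponential against (LP). -/
theorem exp_lp {c Eh t a b : ℝ} (hE : 0 ≤ Eh) (hsg : 0 ≤ sg) (hcc : c₄ + sg ≤ c) (ht : |t - b| ≤ |t - a| + D * w) (hw : 0 < w)
    (hEh : Eh = E / w) : -(c * Eh * |t - a|) + sg * Eh * |t - b| ≤ -(c₄ * Eh * |t - a|) + sg * D * E := by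
  have h1 := mul_le_mul_of_nonneg_left ht (mul_nonneg hsg hE)
  have h2 := mul_le_mul_of_nonneg_right hcc (mul_nonneg hE (abs_nonneg (t - a)))
  have h3 : sg * Eh * (D * w) = sg * D * E := by
    rw [hEh]
    field_simp
  nlinarith

/-- **`up`.** -/
theorem up74 (hE : 0 < E) (hw : 0 < w) (h3 : En31 P c c₂ E w Q₃ s₃ ℓ₂ ℓ₃ K U Z) (hsg : 0 ≤ sg) (hcc : c₂ + sg ≤ c) {x : ℤ} (hx : x ∈ U)
    (hΛ : |ℓ₂ x| ≤ Λ * w) (hD : |ℓ₂ x - ℓ₃ yp| ≤ D * w) (F0 : 0 ≤ F yp)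
    (LP : ∀ z ∈ Z, K x z ≠ 0 → F z ≤ Real.exp (q₁ * E + sg * (E / w) * |ℓ₃ z - ℓ₃ yp|) * F yp) :
    ∑ z ∈ Z, K x z * F z ≤ Real.exp ((Q₃ * gr P Λ + q₁ + sg * D + s₃) * E) * F yp := by
  have hEw : 0 ≤ E / w := (div_pos hE hw).le
  have g1 : Q₃ * gr P (|ℓ₂ x| / w) * E ≤ Q₃ * gr P Λ * E := by
    refine mul_le_mul_of_nonneg_right (mul_le_mul_of_nonneg_left (gr_mono P (by positivity) ?_) h3.q0) hE.le
    rwa [div_le_iff₀ hw]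
  have one : ∀ z ∈ Z, K x z * F z ≤ Real.exp ((Q₃ * gr P Λ + q₁ + sg * D) * E) * F yp *
      Real.exp (-(c₂ * (E / w) * |ℓ₃ z - ℓ₂ x|)) := by
    intro z hz
    have r0 : 0 ≤ Real.exp ((Q₃ * gr P Λ + q₁ + sg * D) * E) * F yp * Real.exp (-(c₂ * (E / w) * |ℓ₃ z - ℓ₂ x|)) := by positivity
    by_cases hK : K x z = 0
    · rw [hK, zero_mul]
      exact r0
    · have e1 := h3.up x hx z hz
      have e2 := LP z hz hK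
      have e3 : |ℓ₃ z - ℓ₃ yp| ≤ |ℓ₃ z - ℓ₂ x| + D * w := (abs_sub_le _ (ℓ₂ x) _).trans (add_le_add le_rfl hD)
      have e4 := exp_lp (E := E) (D := D) hEw hsg hcc e3 hw rfl
      calc K x z * F z ≤ K x z * (Real.exp (q₁ * E + sg * (E / w) * |ℓ₃ z - ℓ₃ yp|) * F yp) := mul_le_mul_of_nonneg_left e2 (h3.k0 x z)
        _ ≤ Real.exp (Q₃ * gr P (|ℓ₂ x| / w) * E - c * (E / w) * |ℓ₃ z - ℓ₂ x|) *
            (Real.exp (q₁ * E + sg * (E / w) * |ℓ₃ z - ℓ₃ yp|) * F yp) := mul_le_mul_of_nonneg_right e1 (by positivity)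
        _ = Real.exp (Q₃ * gr P (|ℓ₂ x| / w) * E - c * (E / w) * |ℓ₃ z - ℓ₂ x| + (q₁ * E + sg * (E / w) * |ℓ₃ z - ℓ₃ yp|)) * F yp := by
          rw [← mul_assoc, ← Real.exp_add]
        _ ≤ Real.exp ((Q₃ * gr P Λ + q₁ + sg * D) * E + -(c₂ * (E / w) * |ℓ₃ z - ℓ₂ x|)) * F yp := by
          refine mul_le_mul_of_nonneg_right (Real.exp_le_exp.2 ?_) F0
          linarith
        _ = _ := by
          rw [Real.exp_add]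
          ring
  refine (sum_le_sum one).trans ?_
  rw [← mul_sum]
  have h4 := h3.sum x
  have h5 : (0 : ℝ) ≤ Real.exp ((Q₃ * gr P Λ + q₁ + sg * D) * E) * F yp := by positivity
  refine (mul_le_mul_of_nonneg_left h4 h5).trans (le_of_eq ?_)
  have e : (Q₃ * gr P Λ + q₁ + sg * D + s₃) * E = (Q₃ * gr P Λ + q₁ + sg * D) * E + s₃ * E := by ring
  rw [e, Real.exp_add]
  ring

/-- **`phi`.** `sm` = the sum over the edge row (`S83.sumR83`). -/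
theorem phi74 (hE : 0 < E) (hw : 0 < w) (hc₂ : 0 ≤ c₂) (h2 : En31 P c c₂ E w Q₂ s₂ ℓ₁ ℓ₂ kap J U) (h3 : En31 P c c₂ E w Q₃ s₃ ℓ₂ ℓ₃ K U Z)
    (hc₁ : 0 < c₁) (hc₃ : 0 ≤ c₃) (hcc : c₁ + c₂ + c₃ ≤ c) (hQ' : Q₂ + Q₃ ≤ Q') (hS' : s₂ + s₃ ≤ S') (hsg : 0 ≤ sg) (h43 : c₄ + sg ≤ c₃)
    (sm : ∀ a : ℝ, ∑ z ∈ Z, Real.exp (-(c₄ * (E / w) * |ℓ₃ z - a|)) ≤ Real.exp (s₄ * E)) (hCJ : C ⊆ J)
    (hG : ∀ v ∈ U, G v = ∑ z ∈ Z, K v z * F z) (F0 : ∀ z, 0 ≤ F z) (hΛ : ∀ x ∈ C, |ℓ₁ x| ≤ Λ * w) (hD : ∀ x ∈ C, |ℓ₁ x - ℓ₃ yp| ≤ D * w)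
    (LP : ∀ x ∈ C, ∀ z ∈ Z, (∃ v ∈ U, kap x v * K v z ≠ 0) → F z ≤ Real.exp (q₁ * E + sg * (E / w) * |ℓ₃ z - ℓ₃ yp|) * F yp) :
    ∀ x ∈ C, ∑ v ∈ U, kap x v * G v ≤ Real.exp ((Q' * gr P (AQ P c₁ Q' + Λ) + S' + q₁ + sg * D + s₄) * E) * F yp := by
  classical
  have hq2 := h2.q0
  have hq3 := h3.q0
  have hs2 := h2.s0
  have hs3 := h3.s0
  have hEw : 0 ≤ E / w := (div_pos hE hw).le
  intro x hx
  have env : ∀ z ∈ Z, ∑ v ∈ U, kap x v * K v z ≤ kapo31 P c₁ c₃ Q' S' E w ℓ₁ ℓ₃ x z := by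
    intro z hz
    have h1 : En31 P c c₂ E w 0 0 ℓ₁ ℓ₁ (fun a b => if a = b then 1 else 0) {x} {x} := by
      refine ⟨le_rfl, le_rfl, fun a b => by split_ifs <;> norm_num, fun a ha b hb => ?_, fun a => ?_⟩
      · rw [mem_singleton] at ha hb
        rw [ha, hb]
        simp
      · rw [sum_singleton, zero_mul, Real.exp_zero]
        rw [Real.exp_le_one_iff]
        have : 0 ≤ c₂ * (E / w) * |ℓ₁ x - ℓ₁ a| := by positivity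
        linarith
    have hm := comp31 hE hw hc₂ h1 (h2.mono (singleton_subset_iff.2 (hCJ hx)) (subset_refl _)) h3 hc₁ hc₃ hcc
      (Q := Q') (S := S') (by linarith) (by linarith) (subset_refl _) x (mem_singleton_self x) z hz
    rw [sum_singleton, if_pos rfl, one_mul] at hm
    exact hm
  have e1 : ∑ v ∈ U, kap x v * G v = ∑ z ∈ Z, (∑ v ∈ U, kap x v * K v z) * F z := by
    calc ∑ v ∈ U, kap x v * G v = ∑ v ∈ U, ∑ z ∈ Z, kap x v * K v z * F z := by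
          refine sum_congr rfl fun v hv => ?_
          rw [hG v hv, mul_sum]
          exact sum_congr rfl fun z _ => by ring
      _ = ∑ z ∈ Z, ∑ v ∈ U, kap x v * K v z * F z := sum_comm
      _ = _ := sum_congr rfl fun z _ => by rw [sum_mul]
  obtain ⟨a, ha⟩ : ∃ a, a = Q' * gr P (AQ P c₁ Q' + Λ) + S' := ⟨_, rfl⟩
  have ga : (Q' * gr P (AQ P c₁ Q' + |ℓ₁ x| / w) + S') * E ≤ a * E := by
    rw [ha]
    refine mul_le_mul_of_nonneg_right (add_le_add (mul_le_mul_of_nonneg_left (gr_mono P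
      (add_nonneg (AQ_nonneg P c₁ Q') (by positivity)) (add_le_add le_rfl ?_)) (by linarith)) le_rfl) hE.le
    rw [div_le_iff₀ hw]
    exact hΛ x hx
  have one : ∀ z ∈ Z, (∑ v ∈ U, kap x v * K v z) * F z ≤ Real.exp ((a + q₁ + sg * D) * E) * F yp *
      Real.exp (-(c₄ * (E / w) * |ℓ₃ z - ℓ₁ x|)) := by
    intro z hz
    have Fp := F0 yp
    have r0 : 0 ≤ Real.exp ((a + q₁ + sg * D) * E) * F yp * Real.exp (-(c₄ * (E / w) * |ℓ₃ z - ℓ₁ x|)) := by positivity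
    have s0 : 0 ≤ ∑ v ∈ U, kap x v * K v z := sum_nonneg fun v _ => mul_nonneg (h2.k0 x v) (h3.k0 v z)
    by_cases hK : ∃ v ∈ U, kap x v * K v z ≠ 0
    · have e2 := LP x hx z hz hK
      have e3 : |ℓ₃ z - ℓ₃ yp| ≤ |ℓ₃ z - ℓ₁ x| + D * w := (abs_sub_le _ (ℓ₁ x) _).trans (add_le_add le_rfl (hD x hx))
      have e4 := exp_lp (E := E) (D := D) hEw hsg h43 e3 hw rfl
      calc (∑ v ∈ U, kap x v * K v z) * F z ≤ (∑ v ∈ U, kap x v * K v z) *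
            (Real.exp (q₁ * E + sg * (E / w) * |ℓ₃ z - ℓ₃ yp|) * F yp) := mul_le_mul_of_nonneg_left e2 s0
        _ ≤ kapo31 P c₁ c₃ Q' S' E w ℓ₁ ℓ₃ x z * (Real.exp (q₁ * E + sg * (E / w) * |ℓ₃ z - ℓ₃ yp|) * F yp) :=
          mul_le_mul_of_nonneg_right (env z hz) (by positivity)
        _ = Real.exp ((Q' * gr P (AQ P c₁ Q' + |ℓ₁ x| / w) + S') * E - c₃ * (E / w) * |ℓ₃ z - ℓ₁ x| +
            (q₁ * E + sg * (E / w) * |ℓ₃ z - ℓ₃ yp|)) * F yp := by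
          unfold kapo31
          rw [← mul_assoc, ← Real.exp_add]
        _ ≤ Real.exp ((a + q₁ + sg * D) * E + -(c₄ * (E / w) * |ℓ₃ z - ℓ₁ x|)) * F yp := by
          refine mul_le_mul_of_nonneg_right (Real.exp_le_exp.2 ?_) Fp
          linarith
        _ = _ := by
          rw [Real.exp_add]
          ring
    · have e2 : ∑ v ∈ U, kap x v * K v z = 0 := sum_eq_zero fun v hv => by
        by_contra h4
        exact hK ⟨v, hv, h4⟩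
      rw [e2, zero_mul]
      exact r0
  rw [e1]
  refine (sum_le_sum one).trans ?_
  rw [← mul_sum]
  have Fp := F0 yp
  have h5 : (0 : ℝ) ≤ Real.exp ((a + q₁ + sg * D) * E) * F yp := by positivity
  refine (mul_le_mul_of_nonneg_left (sm (ℓ₁ x)) h5).trans (le_of_eq ?_)
  have e : (Q' * gr P (AQ P c₁ Q' + Λ) + S' + q₁ + sg * D + s₄) * E = (a + q₁ + sg * D) * E + s₄ * E := by
    rw [ha]
    ring
  rw [e, Real.exp_add]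
  ring

end Up

end

end Pool.Agent.W_7d29a1_C1.So74
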