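import Pool.Agent.W_7d29a1_C1.FreA12
import Pool.Agent.W_7d29a1_C1.SoW74

/-!
MP_7d29a1_pr, [C1] attractor route, SHELL, (S): **P1 in the letters of `V47`, `So47`** (helper12). `soA12` : for `ω` in `V47` an event `E₀` of
the rows `(z_o - T_o, z - T]`, of probability `≥ p₁`, and the hypothesis `seam` of helper74's `soW74` for every `ζ` in it.

PREFIX: `P₀` | `c₂ ω₁ ω₁' q₁ u kst g₁ Ke δ δr` | `Q₁` | `P cc c₁ c₃ c₄ Qk S k₅ v gf ω₂ q₂` | `p₁ ι Q n₁` | every configuration.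
-/

set_option autoImplicit false

namespace Pool.Agent.W_7d29a1_C1.S12

open MeasureTheory ProbabilityTheory Filter Topology Finset
open Pool.Agent.W_7d29a1_F Pool.Agent.W_7d29a1_h4g Pool.Agent.W_7d29a1_H Pool.Agent.W_7d29a1_HS
open Pool.Agent.W_7d29a1_C1.K91P (fw GG bw_congr)
open Pool.Agent.W_7d29a1_C1.K91 (wt wt_pos)
open Pool.Agent.W_7d29a1_C1.FarK89 (gr gr_nonneg gr_one_le gr_mono)
open Pool.Agent.W_7d29a1_C1.U16 (lat16)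
open Pool.Agent.W_7d29a1_C1.S71 Pool.Agent.W_7d29a1_C1.T10
open Pool.Agent.W_7d29a1_C1.S83 (RowG K5)
open Pool.Agent.W_7d29a1_C1.H60 (Cx)
open Pool.Agent.W_7d29a1_C1.D31 (DW31 kap31 En31 NV31 V31 GV)
open Pool.Agent.W_7d29a1_C1.Fr47 (NS47 V47 So47)
open Pool.Agent.W_7d29a1_C1.So74 (Fe Ge)

noncomputable section

variable {μ : Measure ℝ} {s c C : ℝ} {n₀ : ℕ}

/-- The level of a regular row at the lateral distance `R`. -/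
theorem rowg12 {η : Env} {i : ℕ} {c₀ : ℤ} {w t : ℝ} (h : η ∈ RowG (i : ℤ) c₀ w t) (x : ℤ) :
    Real.exp (-(t * (1 + Real.log (1 + |((x - c₀ : ℤ) : ℝ)| / w)))) ≤ wt η i x ∧
      wt η i x ≤ Real.exp (t * (1 + Real.log (1 + |((x - c₀ : ℤ) : ℝ)| / w))) := by
  have h1 := abs_le.1 (h x)
  have h2 : 0 ≤ t * (1 + Real.log (1 + |((x - c₀ : ℤ) : ℝ)| / w)) := (abs_nonneg _).trans (h x)
  unfold wt
  split_ifs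
  · exact ⟨Real.exp_le_one_iff.2 (by linarith), Real.one_le_exp h2⟩
  · exact ⟨Real.exp_le_exp.2 h1.1, Real.exp_le_exp.2 h1.2⟩

/-- The line through the base point at the row `r`. -/
def Ln (μ : Measure ℝ) (s : ℝ) (z : ℕ × ℤ) (r : ℕ) : ℝ := (z.2 : ℝ) + sl μ s * ((r : ℝ) - (z.1 : ℝ))

/-- **The configuration of (S)** : `To` = scale of the ball, `T` = length of P1, `n₃` = number of rows of the last part. -/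
structure Cf12 (μ : Measure ℝ) (s : ℝ) (Γ : Cx) (ν : NV31) (σ : NS47) (G : Gd) (i : ℕ) (q₀ : ℕ × ℤ) (To T n₃ : ℕ)
    (P : ℕ) (c₁ c₃ Qk S ω₁ ω₁' ω₂ q₁ q₂ gf kst ι Ke δ : ℝ) (B₁ B₂ : ℤ) : Prop where
  sΓ : Γ.s = s
  ok : Γ.Ok
  eTo : To = ν.Ts (i + ν.m₂)
  eP : ν.P = P
  ec₁ : ν.c₁ = c₁
  ec₃ : ν.c₃ = c₃
  eQ : ν.Q = Qk
  eS : ν.S = S
  eE : ν.E i = EE μ s To
  ew : ν.w i = wd μ s To
  W1 : ν.W1 i ≤ ω₁ * wd μ s To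
  W1' : ν.W1' i = ω₁' * wd μ s To
  W2 : ν.W2 i ≤ ω₂ * wd μ s To
  W21 : ω₁' * wd μ s To ≤ ν.W2 i
  g : 2 * (kst * EE μ s To - 2) ≤ ν.g i
  q1 : ν.q₁ i ≤ q₁ * EE μ s To
  q2 : ν.q₂ i ≤ q₂ * EE μ s To
  gf : gf * EE μ s To ≤ ν.gf i
  zo : To ≤ (G.z (i + ν.m₂) q₀).1
  z0 : σ.T i ≤ (G.z i q₀).1
  low : (G.z (i + ν.m₂) q₀).1 - To + T = (G.z i q₀).1 - σ.T i
  upp : (G.z i q₀).1 + σ.T i + 1 + n₃ = (G.z (i + ν.m₂) q₀).1 + To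
  N : (G.z (i + ν.m₂) q₀).1 + To < Γ.N
  h1 : |Γ.h| ≤ 1
  hι : |Γ.h| * wd μ s To ≤ ι * EE μ s To
  box : ∀ x : ℤ, |(x : ℝ) - ν.cn G i q₀ (sl μ s)| ≤ ω₁' * wd μ s To → x ∈ Icc 0 Γ.hi
  boxS : ∀ y : ℤ, |(y : ℝ) - Ln μ s (G.z i q₀) (σ.c0 i (G.z i q₀))| ≤ (Ke + 2) * wd μ s To →
    y ∈ Icc (0 : ℤ) (Γ.k + σ.c0 i (G.z i q₀))
  yp : ⌊ν.cn' G i q₀ (sl μ s)⌋ ∈ Icc 0 Γ.hi
  e1 : |(B₁ : ℝ) - Ln μ s (G.z i q₀) (σ.c0 i (G.z i q₀))| ≤ Ke * wd μ s To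
  e2 : |(B₂ : ℝ) - Ln μ s (G.z i q₀) (σ.c0 i (G.z i q₀))| ≤ Ke * wd μ s To
  sB : (B₁ : ℝ) + δ * wd μ s To ≤ B₂
  reach : ∀ y : ℤ, |(y : ℝ) - Ln μ s (G.z i q₀) (σ.c0 i (G.z i q₀))| ≤ (Ke + 1) * wd μ s To →
    y ≤ ⌊ν.cn' G i q₀ (sl μ s)⌋ ∧ ⌊ν.cn' G i q₀ (sl μ s)⌋ ≤ y + 2 * σ.T i + n₃
  mp : (G.z i q₀).2 + σ.ζc i ∈ Icc (0 : ℤ) (Γ.k + σ.c3 i (G.z i q₀))

/-- The level of the row in a window. -/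
theorem rowb12 {η : Env} {i : ℕ} {c₀ : ℤ} {w u E R cn : ℝ} (h : η ∈ RowG (i : ℤ) c₀ w (u * E)) (hw : 1 ≤ w) (hu : 0 ≤ u) (hE : 0 ≤ E)
    (hc : |cn - c₀| ≤ 1) {x : ℤ} (hx : |(x : ℝ) - cn| ≤ R * w) :
    Real.exp (-(u * (1 + Real.log (1 + (R + 1))) * E)) ≤ wt η i x ∧ wt η i x ≤ Real.exp (u * (1 + Real.log (1 + (R + 1))) * E) := by
  have h1 := rowg12 h x
  have h2 : |((x - c₀ : ℤ) : ℝ)| / w ≤ R + 1 := by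
    rw [div_le_iff₀ (by linarith)]
    push_cast
    have := abs_sub_le (x : ℝ) cn c₀
    linarith
  have h3 : Real.log (1 + |((x - c₀ : ℤ) : ℝ)| / w) ≤ Real.log (1 + (R + 1)) := Real.log_le_log (by positivity) (by linarith)
  have h4 : u * E * (1 + Real.log (1 + |((x - c₀ : ℤ) : ℝ)| / w)) ≤ u * (1 + Real.log (1 + (R + 1))) * E := by
    have := mul_le_mul_of_nonneg_left (add_le_add (le_refl (1 : ℝ)) h3) (mul_nonneg hu hE)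
    linarith
  exact ⟨(Real.exp_le_exp.2 (by linarith)).trans h1.1, h1.2.trans (Real.exp_le_exp.2 h4)⟩

/-- The level of the row everywhere. -/
theorem rowu12 {η : Env} {i P : ℕ} {c₀ : ℤ} {w u E cn : ℝ} (h : η ∈ RowG (i : ℤ) c₀ w (u * E)) (hw : 1 ≤ w) (hu : 0 ≤ u) (hE : 0 ≤ E)
    (hc : |cn - c₀| ≤ 1) (hP : 1 ≤ P) (x : ℤ) : wt η i x ≤ Real.exp (2 * u * gr P (|(x : ℝ) - cn| / w) * E) := by
  have h1 := (rowg12 h x).2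
  refine h1.trans (Real.exp_le_exp.2 ?_)
  obtain ⟨ξ, hξ⟩ : ∃ ξ : ℝ, ξ = |(x : ℝ) - cn| / w := ⟨_, rfl⟩
  have hξ0 : 0 ≤ ξ := by rw [hξ]; positivity
  rw [← hξ]
  have h2 : |((x - c₀ : ℤ) : ℝ)| / w ≤ ξ + 1 := by
    rw [div_le_iff₀ (by linarith), hξ]
    push_cast
    have e : (|(x : ℝ) - cn| / w + 1) * w = |(x : ℝ) - cn| + w := by field_simp
    rw [e]
    have := abs_sub_le (x : ℝ) cn c₀
    linarith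
  have h3 : Real.log (1 + |((x - c₀ : ℤ) : ℝ)| / w) ≤ Real.log (2 * (1 + ξ)) := Real.log_le_log (by positivity) (by linarith)
  rw [Real.log_mul (by norm_num) (by positivity)] at h3
  have hl := Real.log_nonneg (show 1 ≤ 1 + ξ by linarith)
  have hl2 : Real.log 2 ≤ 1 := by
    have := Real.log_two_lt_d9
    linarith
  have h4 : 1 + Real.log (1 + ξ) ≤ gr P ξ := by
    unfold gr
    exact le_self_pow₀ (by linarith) (by omega)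
  have h5 : u * E * (1 + Real.log (1 + |((x - c₀ : ℤ) : ℝ)| / w)) ≤ u * E * (2 * gr P ξ) :=
    mul_le_mul_of_nonneg_left (by linarith) (mul_nonneg hu hE)
  linarith

/-- **(S), P1.** -/
theorem soA12 [IsProbabilityMeasure μ] (h0 : In μ s c C n₀) : ∃ P₀ : ℕ,
    ∀ {c₂ ω₁ ω₁' q₁ u kst g₁ Ke δ δr : ℝ}, 0 < c₂ → 0 ≤ ω₁ → ω₁ < ω₁' → 0 ≤ q₁ → 0 ≤ u → 0 ≤ g₁ → g₁ < kst → 0 ≤ Ke → 0 < δ →
      0 < δr → ∃ Q₁ : ℝ, 0 ≤ Q₁ ∧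
    ∀ {P : ℕ} {cc c₁ c₃ c₄ Qk S k₅ v gf ω₂ q₂ : ℝ}, 2 * P₀ ≤ P → 1 ≤ P → cc ≤ c / 16 → 0 < c₁ → c₁ < c₄ → 0 ≤ c₂ → 0 ≤ c₃ →
      c₁ + c₂ + c₃ + c₄ ≤ cc → 0 ≤ Qk → 0 ≤ ω₂ →
      q₁ + u * (1 + Real.log (1 + (ω₁' + 1))) + kst + c₃ * (ω₁ + Ke + 1) ≤ gf →
      q₁ + u * (1 + Real.log (1 + (ω₁' + 1))) + kst + v + k₅ ≤ gf →
    ∃ (p₁ ι : ℝ) (Q n₁ : ℕ), 0 < p₁ ∧ 0 < ι ∧ 1 ≤ Q ∧ 1 ≤ n₁ ∧
    ∀ T To : ℕ, n₁ ≤ T → n₁ ≤ To → Q ∣ T → T ≤ 2 * To → To ≤ 2 * T → ∃ r₀ : ℕ, (r₀ : ℝ) ≤ δr * wd μ s To ∧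
    ∀ {Γ : Cx} {ν : NV31} {σ : NS47} {G : Gd} {i : ℕ} {q₀ : ℕ × ℤ} {n₃ : ℕ} {B₁ B₂ : ℤ},
      Cf12 μ s Γ ν σ G i q₀ To T n₃ P c₁ c₃ Qk S ω₁ ω₁' ω₂ q₁ q₂ gf kst ι Ke δ B₁ B₂ →
      (∀ y ∈ Icc (B₁ - (r₀ : ℤ)) (B₁ + r₀ + 1) ∪ Icc (B₂ - (r₀ : ℤ)) (B₂ + r₀ + 1),
        |(y : ℝ) - Ln μ s (G.z i q₀) (σ.c0 i (G.z i q₀))| ≤ (Ke + 1) * wd μ s To) →
      ∀ ω ∈ V47 μ s Γ ν G u i q₀, ∃ E₀ : Set Env, MeasurableSet E₀ ∧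
        On20 (rows (((G.z (i + ν.m₂) q₀).1 : ℤ) - To) (((G.z i q₀).1 : ℤ) - σ.T i)) E₀ ∧ p₁ ≤ (law μ).real E₀ ∧
        ∀ ζ : Env, (∀ a, a ∉ rows (((G.z (i + ν.m₂) q₀).1 : ℤ) - To) (((G.z (i + ν.m₂) q₀).1 : ℤ) + To) → ζ a = ω a) → ζ ∈ E₀ →
        ∀ {Q₂ Q₃ s₂ s₃ : ℝ}, 2 * u + Q₁ + Q₂ + Q₃ ≤ Qk → 1 + s₂ + s₃ ≤ S →
          En31 P cc c₂ (EE μ s To) (wd μ s To) Q₂ s₂ (fun y => (y : ℝ) - Ln μ s (G.z i q₀) (σ.c0 i (G.z i q₀)))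
            (fun v => (v : ℝ) - Ln μ s (G.z i q₀) (σ.c3 i (G.z i q₀))) (σ.k0 i (G.z i q₀)) (Icc 0 (Γ.k + σ.c0 i (G.z i q₀)))
            (Icc 0 (Γ.k + σ.c3 i (G.z i q₀))) →
          (∀ y v : ℤ, ¬ (y ≤ v ∧ v ≤ y + (2 * σ.T i : ℕ)) → σ.k0 i (G.z i q₀) y v = 0) →
          En31 P cc c₂ (EE μ s To) (wd μ s To) Q₃ s₃ (fun v => (v : ℝ) - Ln μ s (G.z i q₀) (σ.c3 i (G.z i q₀)))
            (fun z' => (z' : ℝ) - ν.cn' G i q₀ (sl μ s)) (K5 μ s Γ.h ζ Γ.p Γ.M (σ.c3 i (G.z i q₀)) n₃) (Icc 0 (Γ.k + σ.c3 i (G.z i q₀)))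
            (Icc 0 Γ.hi) →
          Real.exp (-(k₅ * EE μ s To)) ≤ K5 μ s Γ.h ζ Γ.p Γ.M (σ.c3 i (G.z i q₀)) n₃ ((G.z i q₀).2 + σ.ζc i) ⌊ν.cn' G i q₀ (sl μ s)⌋ →
          ∀ ph : ℤ → ℝ, (∀ y ∈ Icc (0 : ℤ) (Γ.k + σ.c0 i (G.z i q₀)) \ (Icc (B₁ - (r₀ : ℤ)) (B₁ + r₀ + 1) ∪ Icc (B₂ - (r₀ : ℤ)) (B₂ + r₀ + 1)),
            ph y * Ge μ s Γ σ i (G.z i q₀) n₃ ζ ((G.z i q₀).2 + σ.ζc i) ≤
              ∑ v ∈ Icc (0 : ℤ) (Γ.k + σ.c3 i (G.z i q₀)), σ.k0 i (G.z i q₀) y v * Ge μ s Γ σ i (G.z i q₀) n₃ ζ v) →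
          Sh21.SeamIn 0 (Γ.k + σ.c0 i (G.z i q₀)) (fw (wt ζ) Γ.p Cx.l (σ.c0 i (G.z i q₀))) (fw (wt ζ) Γ.p Γ.r (σ.c0 i (G.z i q₀)))
            (B₁ - r₀) (B₁ + r₀ + 1) (B₂ - r₀) (B₂ + r₀ + 1) ph (Real.exp (-(v * EE μ s To))) (Real.exp (-(g₁ * EE μ s To))) := by
  obtain ⟨P₀, HA⟩ := freA12 h0 (show 1 ≤ 2 by norm_num)
  refine ⟨P₀, fun {c₂ ω₁ ω₁' q₁ u kst g₁ Ke δ δr} hc₂ hω₁ hω₁' hq₁ hu hg₁0 hg₁ hKe hδ hδr => ?_⟩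
  have hl1 : 0 ≤ Real.log (1 + (ω₁' + 1)) := Real.log_nonneg (by linarith)
  obtain ⟨Q₁, hQ₁, HB⟩ := HA hc₂ hω₁ hω₁' hq₁ (show 0 ≤ u * (1 + Real.log (1 + (ω₁' + 1))) by positivity) hg₁0 hg₁ hKe hδ hδr
  refine ⟨Q₁, hQ₁, fun {P cc c₁ c₃ c₄ Qk S k₅ v gf ω₂ q₂} hP hP1 hcc hc₁ hc₄ hc₂0 hc₃ hsum hQk hω₂ hgf1 hgf2 => ?_⟩
  obtain ⟨p₁, ι, Q, n₁, hp₁, hι, hQ, hn₁, HC⟩ := HB (S := S) (q₂ := q₂) (b₂ := u * (1 + Real.log (1 + (ω₂ + 1)))) hP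
    (hcc.trans (le_of_eq (by norm_num))) hc₁ hc₄ hQk hω₂ hgf1 hgf2
  obtain ⟨nW, HW⟩ := eventually_atTop.1 ((wd_tendsto h0).eventually_ge_atTop 1)
  refine ⟨p₁, ι, Q, max n₁ nW, hp₁, hι, hQ, hn₁.trans (le_max_left _ _), fun T To hT hTo hQT hTT hTT' => ?_⟩
  obtain ⟨r₀, hr₀, HD⟩ := HC T To ((le_max_left _ _).trans hT) ((le_max_left _ _).trans hTo) hQT hTT hTT'
  refine ⟨r₀, hr₀, ?_⟩
  intro Γ ν σ G i q₀ n₃ B₁ B₂ cf hcell ω hω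
  have hw : 1 ≤ wd μ s To := HW To ((le_max_right _ _).trans hTo)
  have hE := EE_pos (μ := μ) (s := s) To
  obtain ⟨-, hV, hRG⟩ := hω
  obtain ⟨-, D⟩ := hV
  have hok := cf.ok
  have hbx := Cx.box1 hok
  have erow : ν.row G i q₀ = (G.z (i + ν.m₂) q₀).1 - To := by
    unfold NV31.row
    rw [← cf.eTo]
  have enr : ν.nr i = 2 * To := by
    unfold NV31.nr
    rw [← cf.eTo]
  have hzo := cf.zo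
  have hz0 := cf.z0
  have hlow := cf.low
  have hupp := cf.upp
  have ec0 : ν.row G i q₀ + T + 1 = σ.c0 i (G.z i q₀) := by
    unfold NS47.c0
    omega
  have ec3 : σ.c3 i (G.z i q₀) + n₃ = ν.row G i q₀ + ν.nr i := by
    unfold NS47.c3
    omega
  have ecc : σ.c3 i (G.z i q₀) = σ.c0 i (G.z i q₀) + 2 * σ.T i := by
    unfold NS47.c3 NS47.c0
    omega
  have ecS : ν.cn G i q₀ (sl μ s) + sl μ s * ((T : ℝ) + 1) = Ln μ s (G.z i q₀) (σ.c0 i (G.z i q₀)) := by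
    unfold Ln NV31.cn
    rw [← ec0]
    push_cast
    ring
  rw [cf.ew, cf.eE] at hRG
  rw [cf.eP, cf.ec₁, cf.ec₃, cf.eQ, cf.eS, cf.eE, cf.ew, cf.W1'] at D
  have hF : ∀ x, 0 ≤ GV Γ ν G i q₀ ω x := fun x => (K91P.GG_pos (wt_pos ω) Γ.p_pos _ _).le
  have D' := dw_weak12 D (K91P.fw_nonneg (wt_pos ω) Γ.p_pos hbx.g.l0 _) (K91P.fw_nonneg (wt_pos ω) Γ.p_pos hbx.g.r0 _) hF cf.W1
    (le_refl (ν.g i)) cf.q1 cf.q2 cf.gf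
  have hfl : |ν.cn G i q₀ (sl μ s) - (⌊ν.cn G i q₀ (sl μ s)⌋ : ℤ)| ≤ 1 := by
    have h1 := Int.floor_le (ν.cn G i q₀ (sl μ s))
    have h2 := Int.lt_floor_add_one (ν.cn G i q₀ (sl μ s))
    rw [abs_le]
    constructor <;> linarith
  have hW10 : 0 ≤ ν.W1 i := (abs_nonneg _).trans D.yl1
  have cfg : Cfg12 s (sl μ s) (EE μ s To) (wd μ s To) T Γ.M Γ.h Γ.p ι Ke δ ω₁' 0 Γ.hi (ν.cn G i q₀ (sl μ s)) B₁ B₂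
      ⌈ν.cn G i q₀ (sl μ s) - ν.W1 i⌉ ⌊ν.cn G i q₀ (sl μ s) + ν.W1 i⌋ Cx.l Γ.r 1 := by
    refine ⟨?_, ?_, cf.sB, ?_, cf.h1, cf.hι, fun k hk => ?_, fun k hk => ?_, hbx.g, hbx.lo0, cf.box⟩
    · rw [ecS]; exact cf.e1
    · rw [ecS]; exact cf.e2
    · have h1 := Int.ceil_lt_add_one (ν.cn G i q₀ (sl μ s) - ν.W1 i)
      have h2 := Int.lt_floor_add_one (ν.cn G i q₀ (sl μ s) + ν.W1 i)
      have h3 : ((⌈ν.cn G i q₀ (sl μ s) - ν.W1 i⌉ : ℤ) : ℝ) < ((⌊ν.cn G i q₀ (sl μ s) + ν.W1 i⌋ + 1 + 1 : ℤ) : ℝ) := by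
        push_cast
        linarith
      have h4 : ⌈ν.cn G i q₀ (sl μ s) - ν.W1 i⌉ < ⌊ν.cn G i q₀ (sl μ s) + ν.W1 i⌋ + 1 + 1 := by exact_mod_cast h3
      omega
    · unfold Cx.p
      rw [if_pos hk, cf.sΓ]
    · unfold Cx.p
      rw [if_neg (not_lt.2 hk), cf.sΓ]
  obtain ⟨E₀, mE, oE, pE, HE⟩ := HD (ω := ω) cfg hF cf.W21 cf.W2
    (fun x hx => rowb12 hRG hw hu hE.le hfl (mem_win.1 hx).2)
    (fun x hx => rowb12 hRG hw hu hE.le hfl ((mem_win.1 hx).2.trans cf.W2)) cf.g D'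
  have er1 : ((ν.row G i q₀ : ℕ) : ℤ) = ((G.z (i + ν.m₂) q₀).1 : ℤ) - To := by
    rw [erow]
    omega
  have er2 : ((ν.row G i q₀ : ℕ) : ℤ) + T = ((G.z i q₀).1 : ℤ) - σ.T i := by
    rw [erow]
    omega
  refine ⟨E₀, mE, ?_, pE, ?_⟩
  · rw [er2, er1] at oE
    exact oE
  intro ζ hζ hζE Q₂ Q₃ s₂ s₃ hQQ hSS en2 cut2 en3 lwm ph hph
  have low : ∀ a : Pt, a.1 ≤ ν.row G i q₀ → ζ a = ω a := fun a ha => hζ a fun hm => by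
    have h1 : ((G.z (i + ν.m₂) q₀).1 : ℤ) - To < a.1 := hm.1
    omega
  have eF : Fe Γ σ i (G.z i q₀) n₃ ζ = GV Γ ν G i q₀ ω := by
    funext y
    have hrow : ∀ j : ℕ, ν.row G i q₀ + ν.nr i < j → ∀ y, wt ζ j y = wt ω j y := fun j hj y => by
      unfold wt
      rw [hζ ((j : ℤ), y) fun hm => by
        have h1 : (j : ℤ) ≤ ((G.z (i + ν.m₂) q₀).1 : ℤ) + To := hm.2
        omega]
    unfold Fe GV GG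
    rw [ec3, bw_congr _ _ (fun i hi y => hrow i (by omega) y) y, bw_congr _ _ (fun i hi y => hrow i (by omega) y) (y + 1)]
  have hR := HE ζ hζE ζ (fun _ _ => rfl) low (h' := Γ.k + σ.c0 i (G.z i q₀)) (n₂ := 2 * σ.T i) (n₃ := n₃)
    (ℓ₂ := fun v => (v : ℝ) - Ln μ s (G.z i q₀) (σ.c3 i (G.z i q₀))) (kp := σ.k0 i (G.z i q₀))
    (K5 := K5 μ s Γ.h ζ Γ.p Γ.M (σ.c3 i (G.z i q₀)) n₃) (S₂ := Icc 0 (Γ.k + σ.c3 i (G.z i q₀))) (G := Ge μ s Γ σ i (G.z i q₀) n₃ ζ)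
    (ph := ph) (mp := (G.z i q₀).2 + σ.ζc i) (bθ := 2 * u) (Q₂ := Q₂) (Q₃ := Q₃) (s₂ := s₂) (s₃ := s₃)
    (fun y hy => cf.boxS y (by rw [← ecS]; exact hy))
    ⟨hE, by linarith, hc₁, hc₂0, hc₃, by linarith, hsum, by linarith, hQQ, hSS, by
      have h1 := cf.N
      unfold Cx.hi
      omega, by rw [ecS]; exact en2, en3,
      fun x hx => by
        have h1 := rowu12 hRG hw hu hE.le hfl hP1 x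
        rw [wt_env12 low]
        exact h1,
      cut2, fun v z' hvz => by
        show wt ζ _ v * FarW89.nk μ s Γ.h ζ Γ.p Γ.M _ n₃ v z' = 0
        rw [FarW89.nk_eq_zero _ _ hvz, mul_zero], by omega, cf.yp,
      fun y hy => by
        have h1 := cf.reach y (hcell y hy)
        refine ⟨h1.1, ?_⟩
        push_cast
        linarith [h1.2], cf.mp, lwm, fun v _ => by rw [← eF]; rfl, hph⟩
  rw [ec0] at hR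
  exact hR

end

end Pool.Agent.W_7d29a1_C1.S12
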