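import Pool.Agent.W_7d29a1_C1.SoP74
import Pool.Agent.W_7d29a1_C1.DwW95

/-!
MP_7d29a1_pr, [C1] SHELL, fresh ball, (S): the letters of `V31`, `LP95` in `futP74` (helper74): `Fe = GV`, the one-sided regularity of the
future at `ζ`, the standard point `yp95` on the line.
-/

set_option autoImplicit false

namespace Pool.Agent.W_7d29a1_C1.So74

open MeasureTheory Finset
open Pool.Agent.W_7d29a1_F Pool.Agent.W_7d29a1_h4g Pool.Agent.W_7d29a1_H Pool.Agent.W_7d29a1_HS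
open Pool.Agent.W_7d29a1_C1.U16 (lat16)
open Pool.Agent.W_7d29a1_C1.T10 (Gd)
open Pool.Agent.W_7d29a1_C1.H60 (Cx)
open Pool.Agent.W_7d29a1_C1.D31 (NV31 GV LP95 yp95 GV_congr95)
open Pool.Agent.W_7d29a1_C1.Fr47

noncomputable section

variable {μ : Measure ℝ} {s : ℝ} {Γ : Cx} {σ : NS47} {ν : NV31} {G : Gd} {t j : ℕ} {z c : ℕ × ℤ} {ω ζ : Env} {n₃ : ℕ}

/-- **The two futures are the same.** -/
theorem Fe_GV (hrow : σ.c3 j z + n₃ = ν.row G t c + ν.nr t)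
    (hζ : ∀ i : ℕ, ν.row G t c + ν.nr t < i → ∀ y : ℤ, ζ ((i : ℤ), y) = ω ((i : ℤ), y)) :
    Fe Γ σ j z n₃ ζ = GV Γ ν G t c ω := by
  have h1 : GV Γ ν G t c ω = GV Γ ν G t c ζ := GV_congr95 fun i hi y => (hζ i hi y).symm
  rw [h1]
  funext y
  unfold Fe GV
  rw [hrow]

/-- **LP of `futP74`** (`q₁` in the unit `E`). -/
theorem lp74 {sg q₁ E w : ℝ} {n₂ : ℕ} (hrow : σ.c3 j z + n₃ = ν.row G t c + ν.nr t)
    (hζ : ∀ i : ℕ, ν.row G t c + ν.nr t < i → ∀ y : ℤ, ζ ((i : ℤ), y) = ω ((i : ℤ), y)) (hL : ω ∈ LP95 μ s Γ ν sg G t c)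
    (hE : ν.E t = E) (hw : ν.w t = w) (hq : ν.q₁ t ≤ q₁ * E) (hr : n₂ + n₃ ≤ ν.nr t + 1) :
    ∀ z' : ℤ, |(z' : ℝ) - yp95 μ s ν G t c| ≤ n₂ + n₃ → Fe Γ σ j z n₃ ζ z' ≤
      Real.exp (q₁ * E + sg * (E / w) * |(z' : ℝ) - yp95 μ s ν G t c|) * Fe Γ σ j z n₃ ζ (yp95 μ s ν G t c) := by
  intro z' hz'
  have h0 : 0 ≤ Fe Γ σ j z n₃ ζ (yp95 μ s ν G t c) := (Fe_pos _).le
  rw [Fe_GV hrow hζ] at h0 ⊢
  have h1 := hL z' (hz'.trans (by exact_mod_cast hr))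
  rw [hE, hw] at h1
  exact h1.trans (mul_le_mul_of_nonneg_right (Real.exp_le_exp.2 (by linarith)) h0)

/-- **The standard point**: against the line through `(z_t.1, z_t.2 + v)`. -/
theorem lat_yp {z : ℕ × ℤ} (hz : G.z t c = z) (v : ℤ) (r : ℕ) (hr : r = ν.row G t c + ν.nr t) :
    |lat16 μ s (((z.1 : ℤ), z.2 + v) : Pt) ((r : ℤ), yp95 μ s ν G t c)| ≤ 1 + |(v : ℝ)| := by
  have e : lat16 μ s (((z.1 : ℤ), z.2 + v) : Pt) ((r : ℤ), yp95 μ s ν G t c) = ((yp95 μ s ν G t c : ℤ) : ℝ) - ν.cn' G t c (sl μ s) - v := by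
    unfold lat16 NV31.cn' NV31.cn
    rw [hz, hr]
    push_cast
    ring
  have h1 := Int.floor_le (ν.cn' G t c (sl μ s))
  have h2 := Int.lt_floor_add_one (ν.cn' G t c (sl μ s))
  have h3 : |((yp95 μ s ν G t c : ℤ) : ℝ) - ν.cn' G t c (sl μ s)| ≤ 1 := by
    unfold yp95
    rw [abs_le]
    constructor <;> linarith
  rw [e]
  refine (abs_sub _ _).trans ?_
  linarith

/-- The lines of `V31` and of the place: at the row `r`. -/
theorem lat_cn {z : ℕ × ℤ} (hz : G.z t c = z) (v y : ℤ) :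
    lat16 μ s (((z.1 : ℤ), z.2 + v) : Pt) ((ν.row G t c : ℤ), y) = (y : ℝ) - ν.cn G t c (sl μ s) - v := by
  unfold lat16 NV31.cn
  rw [hz]
  push_cast
  ring

theorem lat_cn' {z : ℕ × ℤ} (hz : G.z t c = z) (v y : ℤ) :
    lat16 μ s (((z.1 : ℤ), z.2 + v) : Pt) (((ν.row G t c + ν.nr t : ℕ) : ℤ), y) = (y : ℝ) - ν.cn' G t c (sl μ s) - v := by
  unfold lat16 NV31.cn' NV31.cn
  rw [hz]
  push_cast
  ring

end

end Pool.Agent.W_7d29a1_C1.So74
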