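import Pool.Agent.W_7d29a1_C1.SoR7
import Pool.Agent.W_7d29a1_C1.NumS7
import Pool.Agent.W_7d29a1_C1.SoL74

/-!
MP_7d29a1_pr, [C1] SHELL, fresh ball, (S): **THE COLUMNS OF `soF7` FROM `Cf12` AND `Col7`**, and `soG7` = `soF7` in the letters of `Cf12`,
`LP95`, `k5o60`, with the tail of `soA12` as a hypothesis. (helper7, leaf of helper12's `SoF12`)
-/

set_option autoImplicit false

namespace Pool.Agent.W_7d29a1_C1.N7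

open MeasureTheory Finset
open Pool.Agent.W_7d29a1_F Pool.Agent.W_7d29a1_h4g Pool.Agent.W_7d29a1_H Pool.Agent.W_7d29a1_HS
open Pool.Agent.W_7d29a1_C1.K91 (wt)
open Pool.Agent.W_7d29a1_C1.K91P (fw)
open Pool.Agent.W_7d29a1_C1.T10
open Pool.Agent.W_7d29a1_C1.U16 (lat16)
open Pool.Agent.W_7d29a1_C1.FarK89 (gr AQ AQ_nonneg)
open Pool.Agent.W_7d29a1_C1.S83 (K5)
open Pool.Agent.W_7d29a1_C1.F74 (cl2)
open Pool.Agent.W_7d29a1_C1.Sh21 (SeamIn)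
open Pool.Agent.W_7d29a1_C1.H60 (Cx)
open Pool.Agent.W_7d29a1_C1.D31 (NV31 En31 LP95 yp95 kap31)
open Pool.Agent.W_7d29a1_C1.Fr47 (NS47 So47)
open Pool.Agent.W_7d29a1_C1.So74
open Pool.Agent.W_7d29a1_C1.S12 (Ln Cf12)

noncomputable section

variable {μ : Measure ℝ} {s : ℝ}

/-- The line of the place. -/
theorem lat_Ln (z : ℕ × ℤ) (r : ℕ) (y : ℤ) : lat16 μ s ((z.1 : ℤ), z.2) ((r : ℤ), y) = (y : ℝ) - Ln μ s z r := by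
  unfold lat16 Ln
  push_cast
  ring

/-- The windows above a row, right end `m + row`. -/
theorem col7' {z1 z2 v W D : ℝ} {ro k : ℕ} {m : ℤ} (key : ∀ x : ℤ, |(x : ℝ) - (z2 + v * ((ro : ℝ) - z1))| ≤ W → 0 ≤ x ∧ x ≤ m + ro)
    (v0 : 0 ≤ v) (v1 : v ≤ 1) (hk : ro ≤ k) {x : ℤ} (hx : |(x : ℝ) - (z2 + v * ((k : ℝ) - z1))| ≤ D) (hW : D + 1 ≤ W) :
    0 ≤ x ∧ x ≤ m + k := by
  obtain ⟨cn, hcn⟩ : ∃ cn : ℝ, cn = z2 + v * ((ro : ℝ) - z1) := ⟨_, rfl⟩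
  rw [← hcn] at key
  have hk' : (ro : ℝ) ≤ k := by exact_mod_cast hk
  have hD : 0 ≤ D := (abs_nonneg _).trans hx
  have e : z2 + v * ((k : ℝ) - z1) = cn + v * ((k : ℝ) - ro) := by
    rw [hcn]
    ring
  rw [e, abs_le] at hx
  have d0 : 0 ≤ v * ((k : ℝ) - ro) := mul_nonneg v0 (by linarith)
  have d1 : v * ((k : ℝ) - ro) ≤ (k : ℝ) - ro := mul_le_of_le_one_left (by linarith) v1
  constructor
  · obtain ⟨y, hy⟩ : ∃ y : ℤ, y = ⌈cn - W⌉ := ⟨_, rfl⟩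
    have y1 : cn - W ≤ y := by rw [hy]; exact Int.le_ceil _
    have y2 : (y : ℝ) < cn - W + 1 := by rw [hy]; exact Int.ceil_lt_add_one _
    have y3 := (key y (by
      rw [abs_le]
      constructor <;> linarith)).1
    have y4 : (y : ℝ) < x := by linarith [hx.1]
    have y5 : y < x := by exact_mod_cast y4
    omega
  · obtain ⟨y, hy⟩ : ∃ y : ℤ, y = ⌊cn + W⌋ := ⟨_, rfl⟩
    have y1 : (y : ℝ) ≤ cn + W := by rw [hy]; exact Int.floor_le _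
    have y2 : cn + W < y + 1 := by rw [hy]; exact Int.lt_floor_add_one _
    have y3 := (key y (by
      rw [abs_le]
      constructor <;> linarith)).2
    have y4 : (x : ℝ) < y + (k - ro) := by linarith [hx.2]
    have y5 : x < y + ((k : ℤ) - ro) := by exact_mod_cast y4
    omega

variable {Γ : Cx} {ν : NV31} {σ : NS47} {G : Gd} {i : ℕ} {q₀ : ℕ × ℤ} {To T n₃ P : ℕ}
  {c₁ c₃ Qk S ω₁ ω₁' ω₂ q₁ q₂ gf kst ι Ke δ : ℝ} {B₁ B₂ : ℤ} {D wi : ℝ}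

/-- The upper edge row. -/
theorem row_c3 (cf : Cf12 μ s Γ ν σ G i q₀ To T n₃ P c₁ c₃ Qk S ω₁ ω₁' ω₂ q₁ q₂ gf kst ι Ke δ B₁ B₂) :
    σ.c3 i (G.z i q₀) + n₃ = ν.row G i q₀ + ν.nr i := by
  have h1 := cf.zo
  have h2 := cf.upp
  unfold NS47.c3 NV31.row NV31.nr
  rw [← cf.eTo]
  omega

theorem cn'_Ln (cf : Cf12 μ s Γ ν σ G i q₀ To T n₃ P c₁ c₃ Qk S ω₁ ω₁' ω₂ q₁ q₂ gf kst ι Ke δ B₁ B₂) :
    ν.cn' G i q₀ (sl μ s) = Ln μ s (G.z i q₀) (σ.c3 i (G.z i q₀) + n₃) := by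
  rw [row_c3 cf]
  unfold NV31.cn' NV31.cn Ln
  push_cast
  ring

/-- **THE COLUMNS.** -/
theorem geo7 (cf : Cf12 μ s Γ ν σ G i q₀ To T n₃ P c₁ c₃ Qk S ω₁ ω₁' ω₂ q₁ q₂ gf kst ι Ke δ B₁ B₂) (col : Col7 μ s σ i D wi)
    (sl0 : 0 ≤ sl μ s) (sl1 : sl μ s ≤ 1) (hw : 1 ≤ wd μ s To) (hD : D * wi ≤ Ke * wd μ s To) (hDw : D * wi ≤ wd μ s To)
    (hs1 : D * wi ≤ sl μ s * σ.T i) (hs2 : D * wi ≤ (1 - sl μ s) * σ.T i) :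
    (∀ x ∈ cl2 ((G.z i q₀).2 + σ.α₁ i) ((G.z i q₀).2 + σ.β₁ i) ((G.z i q₀).2 + σ.α₂ i) ((G.z i q₀).2 + σ.β₂ i),
      |(x : ℝ) - Ln μ s (G.z i q₀) (σ.c0 i (G.z i q₀))| ≤ Ke * wd μ s To ∧ x ≤ yp95 μ s ν G i q₀ ∧
        yp95 μ s ν G i q₀ ≤ x + (2 * σ.T i : ℕ) + n₃) ∧
    (∀ u ∈ Icc ((G.z i q₀).2 + σ.ζa i) ((G.z i q₀).2 + σ.ζb i), |(u : ℝ) - Ln μ s (G.z i q₀) (σ.c3 i (G.z i q₀))| ≤ wd μ s To ∧
      u ∈ Icc (0 : ℤ) (Γ.k + σ.c3 i (G.z i q₀))) ∧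
    |(((G.z i q₀).2 + σ.ζc i : ℤ) : ℝ) - Ln μ s (G.z i q₀) (σ.c3 i (G.z i q₀))| ≤ wd μ s To ∧
    (∀ y, (σ.α₁ i ≤ y ∧ y ≤ σ.β₁ i) ∨ (σ.α₂ i ≤ y ∧ y ≤ σ.β₂ i) → y ≤ σ.ζc i ∧ σ.ζc i ≤ y + (2 * σ.T i : ℕ) ∧
      |((σ.ζc i : ℝ) - sl μ s * (1 + σ.T i)) - ((y : ℝ) - sl μ s * (1 - σ.T i))| ≤ 2 * D * wi) ∧
    0 ≤ (G.z i q₀).2 + σ.α₁ i ∧ (G.z i q₀).2 + σ.β₂ i ≤ Γ.k + σ.c0 i (G.z i q₀) ∧
    |((yp95 μ s ν G i q₀ : ℤ) : ℝ) - Ln μ s (G.z i q₀) (σ.c3 i (G.z i q₀) + n₃)| ≤ wd μ s To := by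
  obtain ⟨z, hz⟩ : ∃ z, z = G.z i q₀ := ⟨_, rfl⟩
  have bS := cf.boxS
  have rc := cf.reach
  have ecn := cn'_Ln cf
  have hz0 := cf.z0
  rw [← hz] at bS rc ecn hz0 ⊢
  have e0 : Ln μ s z (σ.c0 i z) = z.2 + sl μ s * (1 - σ.T i) := Ln_c0 hz0
  have e3 : Ln μ s z (σ.c3 i z) = z.2 + sl μ s * (1 + σ.T i) := Ln_c3
  have hw0 : 0 ≤ wd μ s To := by linarith
  have cellb : ∀ y : ℤ, σ.α₁ i ≤ y → y ≤ σ.β₂ i → |((z.2 + y : ℤ) : ℝ) - Ln μ s z (σ.c0 i z)| ≤ Ke * wd μ s To := fun y h1 h2 => by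
    have h3 := (col.cell h1 h2).trans hD
    rw [e0]
    have e : ((z.2 + y : ℤ) : ℝ) - (z.2 + sl μ s * (1 - σ.T i)) = (y : ℝ) - sl μ s * (1 - σ.T i) := by
      push_cast
      ring
    rw [e]
    exact h3
  have h12 := col.ab1
  have h34 := col.ab2
  have hg := col.gap
  have key : ∀ x : ℤ, |(x : ℝ) - (z.2 + sl μ s * (((σ.c0 i z : ℕ) : ℝ) - z.1))| ≤ (Ke + 2) * wd μ s To → 0 ≤ x ∧ x ≤ (Γ.k : ℤ) + σ.c0 i z :=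
    fun x hx => mem_Icc.1 (bS x hx)
  have hcc : σ.c0 i z ≤ σ.c3 i z := by
    unfold NS47.c0 NS47.c3
    omega
  have winb : ∀ y : ℤ, |(y : ℝ) - sl μ s * (1 + σ.T i)| ≤ D * wi → |((z.2 + y : ℤ) : ℝ) - Ln μ s z (σ.c3 i z)| ≤ wd μ s To ∧
      z.2 + y ∈ Icc (0 : ℤ) (Γ.k + σ.c3 i z) := fun y h1 => by
    have e : ((z.2 + y : ℤ) : ℝ) - Ln μ s z (σ.c3 i z) = (y : ℝ) - sl μ s * (1 + σ.T i) := by
      rw [e3]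
      push_cast
      ring
    rw [e]
    refine ⟨h1.trans hDw, ?_⟩
    have e' : ((z.2 + y : ℤ) : ℝ) - (z.2 + sl μ s * (((σ.c3 i z : ℕ) : ℝ) - z.1)) = (y : ℝ) - sl μ s * (1 + σ.T i) := by
      rw [← e]
      rfl
    obtain ⟨h4, h5⟩ := col7' (x := z.2 + y) (D := D * wi) key sl0 sl1 hcc (by rw [e']; exact h1) (by linarith)
    rw [mem_Icc]
    exact ⟨h4, h5⟩
  refine ⟨fun x hx => ?_, fun u hu => ?_, (winb _ col.zc).1, fun y hy => ?_, ?_, ?_, ?_⟩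
  · unfold cl2 at hx
    rw [mem_union, mem_Icc, mem_Icc] at hx
    have h1 := cellb (x - z.2) (by omega) (by omega)
    rw [show z.2 + (x - z.2) = x by ring] at h1
    have h2 := rc x (h1.trans (mul_le_mul_of_nonneg_right (by linarith) hw0))
    refine ⟨h1, h2.1, ?_⟩
    have h3 : yp95 μ s ν G i q₀ ≤ x + 2 * σ.T i + n₃ := h2.2
    push_cast
    exact h3
  · rw [mem_Icc] at hu
    have h1 := winb (u - z.2) (col.win (by omega) (by omega))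
    rw [show z.2 + (u - z.2) = u by ring] at h1
    exact h1
  · have hT0 : (0 : ℝ) ≤ σ.T i := Nat.cast_nonneg _
    have hy1 : |(y : ℝ) - sl μ s * (1 - σ.T i)| ≤ D * wi := by
      rcases hy with hy | hy
      · exact col.cell hy.1 (by omega)
      · exact col.cell (by omega) hy.2
    have h2 := abs_le.1 hy1
    have h3 := abs_le.1 col.zc
    refine ⟨?_, ?_, ?_⟩
    · have h4 : (y : ℝ) ≤ σ.ζc i := by linarith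
      exact_mod_cast h4
    · have h4 : (σ.ζc i : ℝ) ≤ y + 2 * σ.T i := by linarith
      have h5 : σ.ζc i ≤ y + 2 * σ.T i := by exact_mod_cast h4
      push_cast
      exact h5
    · rw [abs_le]
      constructor <;> linarith
  · have h1 := cellb (σ.α₁ i) le_rfl (by omega)
    exact (key _ (h1.trans (mul_le_mul_of_nonneg_right (by linarith) hw0))).1
  · have h1 := cellb (σ.β₂ i) (by omega) le_rfl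
    exact (key _ (h1.trans (mul_le_mul_of_nonneg_right (by linarith) hw0))).2
  · rw [← ecn]
    unfold yp95
    have h1 := Int.floor_le (ν.cn' G i q₀ (sl μ s))
    have h2 := Int.lt_floor_add_one (ν.cn' G i q₀ (sl μ s))
    rw [abs_le]
    constructor <;> linarith

/-- The places of the lines at `v = 0`. -/
theorem latf0 (z : ℕ × ℤ) (r : ℕ) : (fun y : ℤ => lat16 μ s ((z.1 : ℤ), z.2 + 0) ((r : ℤ), y)) = fun y : ℤ => (y : ℝ) - Ln μ s z r := by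
  funext y
  rw [add_zero]
  exact lat_Ln z r y

/-- **`ζ ∈ So47` IN THE LETTERS OF `Cf12`** (`D` of `Col7`, `wi` = `wd` of the inner scale, `Ei` its `EE`; `cc` = rate of all the
envelopes, `ck`, `ce`, `Qe`, `Se` = letters `c₁`, `c₃`, `Q`, `S` of the envelope `κ` of `So47`; `cF`, `c₃'`, `c₄` = slopes of `phi74`;
`hA` = the tail of `soA12`; `en5`, `lo5` = `k5o60` at the place). -/
theorem soG7 [IsProbabilityMeasure μ] (cf : Cf12 μ s Γ ν σ G i q₀ To T n₃ P c₁ c₃ Qk S ω₁ ω₁' ω₂ q₁ q₂ gf kst ι Ke δ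
      (mid (G.z i q₀).2 (σ.α₁ i) (σ.β₁ i)) (mid (G.z i q₀).2 (σ.α₂ i) (σ.β₂ i)))
    (col : Col7 μ s σ i D wi) (sl0 : 0 ≤ sl μ s) (sl1 : sl μ s ≤ 1) (hw : 1 ≤ wd μ s To) (hD0 : 0 ≤ D)
    (hD : D * wi ≤ Ke * wd μ s To) (hDw : D * wi ≤ wd μ s To) (hs1 : D * wi ≤ sl μ s * σ.T i) (hs2 : D * wi ≤ (1 - sl μ s) * σ.T i)
    {ω ζ : Env} {sg : ℝ} (hL : ω ∈ LP95 μ s Γ ν sg G i q₀)
    (hζ : ∀ a, a ∉ rows (((G.z (i + ν.m₂) q₀).1 : ℤ) - To) (((G.z (i + ν.m₂) q₀).1 : ℤ) + To) → ζ a = ω a)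
    -- the envelope of `So47`
    {ck ce Qe Se Ei ca cz ρ : ℝ} (K7 : Kap7 σ i P (2 * σ.T i) ck ce Qe Se Ei wi ca cz) (hEi : 0 ≤ Ei) (hwi : 0 < wi)
    (hEE : Ei ≤ EE μ s To) (hQe : 0 ≤ Qe) (hSe : 0 ≤ Se) (hρ : 0 ≤ ρ) (hρw : wd μ s To ≤ ρ * wi) (hce : 0 ≤ ce) {cc : ℝ}
    (hr : cc * (EE μ s To / wd μ s To) ≤ ce * (Ei / wi)) (hca : |ca + sl μ s * ((σ.T i : ℝ) - 1)| ≤ 2 * D * wi)
    (hcz : cz - ca = sl μ s * (2 * σ.T i))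
    -- the rates and the sums
    {cF c₂ c₃' c₄ sk s₄ : ℝ} (hcF : 0 < cF) (hc₂ : 0 ≤ c₂) (hc₃' : 0 ≤ c₃') (hcc : cF + c₂ + c₃' ≤ cc) (hsg : 0 ≤ sg) (h43 : c₄ + sg ≤ c₃')
    (h2s : c₂ + sg ≤ cc) (hsk : 0 ≤ sk) (s40 : 0 ≤ s₄)
    (sum2 : ∀ (cen cen' : ℝ) (J : Finset ℤ) (x : ℤ), ∑ y ∈ J, Real.exp (-(c₂ * (EE μ s To / wd μ s To) *
      |((y : ℝ) - cen') - ((x : ℝ) - cen)|)) ≤ Real.exp (sk * EE μ s To))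
    (sum4 : ∀ (cen cen' : ℝ) (J : Finset ℤ) (x : ℤ), ∑ y ∈ J, Real.exp (-(c₄ * (EE μ s To / wd μ s To) *
      |((y : ℝ) - cen') - ((x : ℝ) - cen)|)) ≤ Real.exp (s₄ * EE μ s To))
    -- the last block (`k5o60`)
    {Q₃ s₃ k₅ : ℝ} (en5 : ∀ I J : Finset ℤ, En31 P cc c₂ (EE μ s To) (wd μ s To) Q₃ s₃
      (fun x => lat16 μ s (((G.z i q₀).1 : ℤ), (G.z i q₀).2) ((σ.c3 i (G.z i q₀) : ℤ), x))
      (fun y => lat16 μ s (((G.z i q₀).1 : ℤ), (G.z i q₀).2) (((σ.c3 i (G.z i q₀) + n₃ : ℕ) : ℤ), y))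
      (K5 μ s Γ.h ζ Γ.p Γ.M (σ.c3 i (G.z i q₀)) n₃) I J)
    (lo5 : ∀ x y : ℤ, |lat16 μ s (((G.z i q₀).1 : ℤ), (G.z i q₀).2) ((σ.c3 i (G.z i q₀) : ℤ), x)| ≤ wd μ s To →
      |lat16 μ s (((G.z i q₀).1 : ℤ), (G.z i q₀).2) (((σ.c3 i (G.z i q₀) + n₃ : ℕ) : ℤ), y)| ≤ wd μ s To →
      Real.exp (-(k₅ * EE μ s To)) ≤ K5 μ s Γ.h ζ Γ.p Γ.M (σ.c3 i (G.z i q₀)) n₃ x y)
    -- the tail of `soA12`
    {Qa v₁ g₁ : ℝ} {r : ℕ} (hA : ∀ {Q₂ Q₃ s₂ s₃ : ℝ}, Qa + Q₂ + Q₃ ≤ Qk → 1 + s₂ + s₃ ≤ S →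
      En31 P cc c₂ (EE μ s To) (wd μ s To) Q₂ s₂ (fun y => (y : ℝ) - Ln μ s (G.z i q₀) (σ.c0 i (G.z i q₀)))
        (fun v => (v : ℝ) - Ln μ s (G.z i q₀) (σ.c3 i (G.z i q₀))) (σ.k0 i (G.z i q₀)) (Icc 0 (Γ.k + σ.c0 i (G.z i q₀)))
        (Icc 0 (Γ.k + σ.c3 i (G.z i q₀))) →
      (∀ y v : ℤ, ¬ (y ≤ v ∧ v ≤ y + (2 * σ.T i : ℕ)) → σ.k0 i (G.z i q₀) y v = 0) →
      En31 P cc c₂ (EE μ s To) (wd μ s To) Q₃ s₃ (fun v => (v : ℝ) - Ln μ s (G.z i q₀) (σ.c3 i (G.z i q₀)))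
        (fun z' => (z' : ℝ) - ν.cn' G i q₀ (sl μ s)) (K5 μ s Γ.h ζ Γ.p Γ.M (σ.c3 i (G.z i q₀)) n₃) (Icc 0 (Γ.k + σ.c3 i (G.z i q₀)))
        (Icc 0 Γ.hi) →
      Real.exp (-(k₅ * EE μ s To)) ≤ K5 μ s Γ.h ζ Γ.p Γ.M (σ.c3 i (G.z i q₀)) n₃ ((G.z i q₀).2 + σ.ζc i) ⌊ν.cn' G i q₀ (sl μ s)⌋ →
      ∀ ph : ℤ → ℝ, (∀ y ∈ Icc (0 : ℤ) (Γ.k + σ.c0 i (G.z i q₀)) \
          (Icc (mid (G.z i q₀).2 (σ.α₁ i) (σ.β₁ i) - (r : ℤ)) (mid (G.z i q₀).2 (σ.α₁ i) (σ.β₁ i) + r + 1) ∪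
            Icc (mid (G.z i q₀).2 (σ.α₂ i) (σ.β₂ i) - (r : ℤ)) (mid (G.z i q₀).2 (σ.α₂ i) (σ.β₂ i) + r + 1)),
        ph y * Ge μ s Γ σ i (G.z i q₀) n₃ ζ ((G.z i q₀).2 + σ.ζc i) ≤
          ∑ v ∈ Icc (0 : ℤ) (Γ.k + σ.c3 i (G.z i q₀)), σ.k0 i (G.z i q₀) y v * Ge μ s Γ σ i (G.z i q₀) n₃ ζ v) →
      SeamIn 0 (Γ.k + σ.c0 i (G.z i q₀)) (fw (wt ζ) Γ.p Cx.l (σ.c0 i (G.z i q₀))) (fw (wt ζ) Γ.p Γ.r (σ.c0 i (G.z i q₀)))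
        (mid (G.z i q₀).2 (σ.α₁ i) (σ.β₁ i) - r) (mid (G.z i q₀).2 (σ.α₁ i) (σ.β₁ i) + r + 1)
        (mid (G.z i q₀).2 (σ.α₂ i) (σ.β₂ i) - r) (mid (G.z i q₀).2 (σ.α₂ i) (σ.β₂ i) + r + 1) ph
        (Real.exp (-(v₁ * EE μ s To))) (Real.exp (-(g₁ * EE μ s To))))
    (hQk : Qa + (Qe * gr P (AQ P ck Qe + ρ + 2 * D) + Se) + Q₃ ≤ Qk) (hSk : 1 + sk + s₃ ≤ S)
    -- the numbers
    (r1 : 2 * (r : ℤ) + 2 ≤ σ.β₁ i - σ.α₁ i) (r2 : 2 * (r : ℤ) + 2 ≤ σ.β₂ i - σ.α₂ i) (q0 : 0 ≤ Q₃) (k50 : 0 ≤ k₅) (s30 : 0 ≤ s₃)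
    (q10 : 0 ≤ q₁) (Ke0 : 0 ≤ Ke) (nV : σ.V i = Real.exp ((a7 P Q₃ q₁ sg s₃ + k₅) * EE μ s To))
    (nΦ : σ.Φ i = Real.exp ((b7 P cF (Qe * gr P (AQ P ck Qe + ρ + 2 * D) + Se) Q₃ Ke sk s₃ q₁ sg s₄ + k₅) * EE μ s To))
    {g₂ : ℝ} (n1 : σ.e1 i = Real.exp (-(v₁ * EE μ s To))) (n2 : σ.e2 i = Real.exp (-(g₂ * EE μ s To))) (hg : 0 ≤ g₁)
    (hv₁ : g₁ + (b7 P cF (Qe * gr P (AQ P ck Qe + ρ + 2 * D) + Se) Q₃ Ke sk s₃ q₁ sg s₄ + k₅) + ce * (2 * D) ≤ v₁)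
    (h3 : Real.log 3 ≤ (g₁ - g₂) * EE μ s To) : ζ ∈ So47 Γ σ i (G.z i q₀) := by
  obtain ⟨f1, f2, f3, f4, f5, f6, f7⟩ := geo7 cf col sl0 sl1 hw hD hDw hs1 hs2
  have hE := EE_pos (μ := μ) (s := s) To
  have hw0 : 0 < wd μ s To := by linarith
  have ecn := cn'_Ln cf
  have hrow := row_c3 cf
  have hz0 := cf.z0
  have hmp := cf.mp
  have hyp := cf.yp
  have hlow := cf.low
  have hzo := cf.zo
  have hupp := cf.upp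
  have hNN := cf.N
  have hq1 := cf.q1
  have hnr : ν.nr i = 2 * To := by
    unfold NV31.nr
    rw [← cf.eTo]
  have hro : ν.row G i q₀ = (G.z (i + ν.m₂) q₀).1 - To := by
    unfold NV31.row
    rw [← cf.eTo]
  have hLP := lp74 (σ := σ) (j := i) (z := G.z i q₀) (ζ := ζ) (n₂ := 2 * σ.T i) (n₃ := n₃) hrow (fun i' hi' y => hζ _ fun hm => by
    have h1 : (i' : ℤ) ≤ ((G.z (i + ν.m₂) q₀).1 : ℤ) + To := hm.2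
    omega) hL cf.eE cf.ew hq1 (by omega)
  obtain ⟨z, hz⟩ : ∃ z, z = G.z i q₀ := ⟨_, rfl⟩
  rw [← hz] at f1 f2 f3 f5 f6 f7 ecn hrow hz0 hmp hlow hupp en5 lo5 hA hLP ⊢
  have lo0 : ∀ (r : ℕ) (y : ℤ), lat16 μ s ((z.1 : ℤ), z.2 + 0) ((r : ℤ), y) = (y : ℝ) - Ln μ s z r := fun r y => by
    rw [add_zero]
    exact lat_Ln z r y
  have hcell : ∀ y, (σ.α₁ i ≤ y ∧ y ≤ σ.β₁ i) ∨ (σ.α₂ i ≤ y ∧ y ≤ σ.β₂ i) → y ≤ σ.ζc i ∧ σ.ζc i ≤ y + (2 * σ.T i : ℕ) ∧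
      |((σ.ζc i : ℝ) - cz) - ((y : ℝ) - ca)| ≤ 2 * D * wi := fun y hy => by
    obtain ⟨h4, h5, h6⟩ := f4 y hy
    refine ⟨h4, h5, ?_⟩
    have e : ((σ.ζc i : ℝ) - cz) - ((y : ℝ) - ca) = ((σ.ζc i : ℝ) - sl μ s * (1 + σ.T i)) - ((y : ℝ) - sl μ s * (1 - σ.T i)) := by
      have : cz = ca + sl μ s * (2 * σ.T i) := by linarith
      rw [this]
      ring
    rw [e]
    exact h6
  have hca' : |((0 : ℤ) : ℝ) - (ca + sl μ s * ((σ.T i : ℝ) - 1))| ≤ 2 * D * wi := by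
    rw [Int.cast_zero, zero_sub, abs_neg]
    exact hca
  have en2 : ∀ I J : Finset ℤ, En31 P cc c₂ (EE μ s To) (wd μ s To) (Qe * gr P (AQ P ck Qe + ρ + 2 * D) + Se) sk
      (fun y => lat16 μ s ((z.1 : ℤ), z.2 + 0) ((σ.c0 i z : ℤ), y)) (fun x => lat16 μ s ((z.1 : ℤ), z.2 + 0) ((σ.c3 i z : ℤ), x))
      (σ.k0 i z) I J := fun I J =>
    en7 K7 (z := z) (v := 0) hz0 hE hw0 hEi hwi hEE hQe hSe hρ (by positivity) hρw hr hca' hcz hsk sum2 I J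
  have en5' : ∀ I J : Finset ℤ, En31 P cc c₂ (EE μ s To) (wd μ s To) Q₃ s₃
      (fun x => lat16 μ s ((z.1 : ℤ), z.2 + 0) ((σ.c3 i z : ℤ), x))
      (fun y => lat16 μ s ((z.1 : ℤ), z.2 + 0) (((σ.c3 i z + n₃ : ℕ) : ℤ), y)) (K5 μ s Γ.h ζ Γ.p Γ.M (σ.c3 i z) n₃) I J := by
    rw [add_zero]
    exact en5
  have lo5' : ∀ x y : ℤ, |lat16 μ s ((z.1 : ℤ), z.2 + 0) ((σ.c3 i z : ℤ), x)| ≤ wd μ s To →
      |lat16 μ s ((z.1 : ℤ), z.2 + 0) (((σ.c3 i z + n₃ : ℕ) : ℤ), y)| ≤ wd μ s To →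
      Real.exp (-(k₅ * EE μ s To)) ≤ K5 μ s Γ.h ζ Γ.p Γ.M (σ.c3 i z) n₃ x y := by
    rw [add_zero]
    exact lo5
  have hN : σ.c3 i z + n₃ < Γ.N := by
    unfold NS47.c3
    omega
  have hr0 : ∀ y, 0 ≤ Γ.r y := (Cx.box1 cf.ok).g.r0
  have lwm : Real.exp (-(k₅ * EE μ s To)) ≤ K5 μ s Γ.h ζ Γ.p Γ.M (σ.c3 i z) n₃ (z.2 + σ.ζc i) ⌊ν.cn' G i q₀ (sl μ s)⌋ := by
    refine lo5' _ _ ?_ ?_
    · rw [lo0]
      exact f3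
    · rw [lo0]
      exact f7
  have seam := hA (Q₂ := Qe * gr P (AQ P ck Qe + ρ + 2 * D) + Se) (Q₃ := Q₃) (s₂ := sk) (s₃ := s₃) hQk hSk (by
      have h1 := en2 (Icc 0 (Γ.k + σ.c0 i z)) (Icc 0 (Γ.k + σ.c3 i z))
      rw [latf0, latf0] at h1
      exact h1) (fun y v => cut7 K7 y v) (by
      have h1 := en5' (Icc 0 (Γ.k + σ.c3 i z)) (Icc 0 Γ.hi)
      rw [latf0, latf0] at h1
      rw [ecn]
      exact h1) lwm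
  exact soF7 (v := 0) (yp := yp95 μ s ν G i q₀) (Kc := Ke) hz0 hN hr0 hE hw0 K7 hEi hwi hEE hQe hSe hρ (by positivity) hρw hce hr hca' hcz hsk
    hcell hcF hc₂ hc₃' hcc hsg h43 h2s sum2 sum4 en5' lo5' hyp (by rw [lo0]; exact f7) hLP (fun x hx => by rw [lo0]; exact f1 x hx)
    (fun u hu => by rw [lo0]; exact f2 u hu) (by rw [lo0]; exact f3) seam r1 r2 col.gap f5 f6 hmp q0 k50 s30 s40 q10 Ke0 nV nΦ n1 n2 hg hv₁ h3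

end

end Pool.Agent.W_7d29a1_C1.N7
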