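import Pool.Agent.W_7d29a1_C1.SoW74

/-!
MP_7d29a1_pr, [C1] SHELL, fresh ball, (S): **THE NUMBERS OF `soW74`** in multiples of `E` (`E` = `EE` of the outer ball). (helper74)

`mid74` : the small cells around the middle of the fixed cells. `numV74`, `numE74` : the inequalities. `soN74` : `soW74` with
`Φ = exp (φ E)`, `V = exp (v E)`, `e1 = exp (- v₁ E)`, `e2 = exp (- g₂ E)`.
-/

set_option autoImplicit false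

namespace Pool.Agent.W_7d29a1_C1.So74

open MeasureTheory Finset
open Pool.Agent.W_7d29a1_F Pool.Agent.W_7d29a1_h4g Pool.Agent.W_7d29a1_H Pool.Agent.W_7d29a1_HS
open Pool.Agent.W_7d29a1_C1.K91 (wt wt_pos)
open Pool.Agent.W_7d29a1_C1.K91P (fw)
open Pool.Agent.W_7d29a1_C1.S83 (K5)
open Pool.Agent.W_7d29a1_C1.Sh21 (SeamIn)
open Pool.Agent.W_7d29a1_C1.F74 (cl2)
open Pool.Agent.W_7d29a1_C1.H60 (Cx)
open Pool.Agent.W_7d29a1_C1.Fr47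

noncomputable section

/-- The middle of a fixed cell `[z + α, z + β]`. -/
def mid (z α β : ℤ) : ℤ := z + (α + β) / 2

/-- **The small cell around the middle.** -/
theorem mid74 {z α β : ℤ} {r : ℕ} (h : 2 * (r : ℤ) + 2 ≤ β - α) : α + r ≤ mid z α β - z ∧ mid z α β - z + r + 1 ≤ β := by
  unfold mid
  omega

/-- The middle against the real line: `|mid - (z + (α + β) / 2)| ≤ 1 / 2`. -/
theorem mid_abs (z α β : ℤ) : |(mid z α β : ℝ) - (z + ((α : ℝ) + β) / 2)| ≤ 1 / 2 := by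
  unfold mid
  have h1 : 2 * ((α + β) / 2) ≤ α + β := Int.mul_ediv_self_le (by norm_num)
  have h2 : α + β ≤ 2 * ((α + β) / 2) + 1 := by omega
  have h3 : (2 : ℝ) * (((α + β) / 2 : ℤ) : ℝ) ≤ (α : ℝ) + β := by exact_mod_cast h1
  have h4 : (α : ℝ) + β ≤ 2 * (((α + β) / 2 : ℤ) : ℝ) + 1 := by exact_mod_cast h2
  push_cast
  rw [abs_le]
  constructor <;> linarith

/-- `V`, `Φ`. -/
theorem numV74 {E a u v : ℝ} (hE : 0 ≤ E) (h : a + u ≤ v) : Real.exp (a * E) * Real.exp (u * E) ≤ Real.exp (v * E) := by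
  rw [← Real.exp_add]
  refine Real.exp_le_exp.2 ?_
  have := mul_le_mul_of_nonneg_right h hE
  linarith

/-- The tune error of the fixed cells. -/
theorem numE74 {E g₁ g₂ v₁ φ k : ℝ} (hE : 0 ≤ E) (hg : 0 ≤ g₁) (h : g₁ + φ + k ≤ v₁) (h3 : Real.log 3 ≤ (g₁ - g₂) * E) :
    Real.exp (-(g₁ * E)) + Real.exp (-(v₁ * E)) * (1 + Real.exp (-(g₁ * E))) * Real.exp (φ * E) / Real.exp (-(k * E)) ≤
      Real.exp (-(g₂ * E)) := by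
  have e1 : Real.exp (-(g₁ * E)) ≤ 1 := by
    rw [Real.exp_le_one_iff]
    have := mul_nonneg hg hE
    linarith
  have e2 : Real.exp (-(v₁ * E)) * Real.exp (φ * E) / Real.exp (-(k * E)) ≤ Real.exp (-(g₁ * E)) := by
    rw [← Real.exp_add, ← Real.exp_sub]
    refine Real.exp_le_exp.2 ?_
    have := mul_le_mul_of_nonneg_right h hE
    linarith
  have e3 : Real.exp (-(v₁ * E)) * (1 + Real.exp (-(g₁ * E))) * Real.exp (φ * E) / Real.exp (-(k * E)) =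
      (1 + Real.exp (-(g₁ * E))) * (Real.exp (-(v₁ * E)) * Real.exp (φ * E) / Real.exp (-(k * E))) := by ring
  have e4 : (1 + Real.exp (-(g₁ * E))) * (Real.exp (-(v₁ * E)) * Real.exp (φ * E) / Real.exp (-(k * E))) ≤
      2 * Real.exp (-(g₁ * E)) := mul_le_mul (by linarith) e2 (by positivity) (by norm_num)
  have e5 : 3 * Real.exp (-(g₁ * E)) ≤ Real.exp (-(g₂ * E)) := by
    rw [← Real.exp_log (show (0 : ℝ) < 3 by norm_num), ← Real.exp_add]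
    exact Real.exp_le_exp.2 (by linarith)
  rw [e3]
  linarith

variable {μ : Measure ℝ} {s : ℝ} {Γ : Cx} {σ : NS47} {j : ℕ} {z : ℕ × ℤ} {ζ : Env} {n₃ : ℕ}

/-- **`ζ ∈ So47`**, with numbers. `U` : level of the last block, `a`, `b` : levels of `up` and `phi`, `k` : level of the envelope on the
cells. -/
theorem soN74 (hT : σ.T j ≤ z.1) (hN : σ.c3 j z + n₃ < Γ.N) (hq : ∀ i, 0 ≤ Γ.q i) (hκ0 : ∀ y v, 0 ≤ σ.κ j y v)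
    {yp : ℤ} {r : ℕ} {E U a b k v φ v₁ g₁ g₂ : ℝ} (hE : 0 ≤ E) (hφ0 : 0 ≤ φ)
    (nV : σ.V j = Real.exp (v * E)) (nΦ : σ.Φ j = Real.exp (φ * E)) (n1 : σ.e1 j = Real.exp (-(v₁ * E))) (n2 : σ.e2 j = Real.exp (-(g₂ * E)))
    (seam : ∀ ph : ℤ → ℝ, (∀ y ∈ Icc (0 : ℤ) (Γ.k + σ.c0 j z) \
          (Icc (mid z.2 (σ.α₁ j) (σ.β₁ j) - r) (mid z.2 (σ.α₁ j) (σ.β₁ j) + r + 1) ∪
            Icc (mid z.2 (σ.α₂ j) (σ.β₂ j) - r) (mid z.2 (σ.α₂ j) (σ.β₂ j) + r + 1)),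
        ph y * Ge μ s Γ σ j z n₃ ζ (z.2 + σ.ζc j) ≤ ∑ v ∈ Icc (0 : ℤ) (Γ.k + σ.c3 j z), σ.k0 j z y v * Ge μ s Γ σ j z n₃ ζ v) →
      SeamIn 0 (Γ.k + σ.c0 j z) (fw (wt ζ) Γ.p Cx.l (σ.c0 j z)) (fw (wt ζ) Γ.p Γ.r (σ.c0 j z))
        (mid z.2 (σ.α₁ j) (σ.β₁ j) - r) (mid z.2 (σ.α₁ j) (σ.β₁ j) + r + 1) (mid z.2 (σ.α₂ j) (σ.β₂ j) - r)
        (mid z.2 (σ.α₂ j) (σ.β₂ j) + r + 1) ph (Real.exp (-(v₁ * E))) (Real.exp (-(g₁ * E))))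
    (h1 : 2 * (r : ℤ) + 2 ≤ σ.β₁ j - σ.α₁ j) (h2 : 2 * (r : ℤ) + 2 ≤ σ.β₂ j - σ.α₂ j)
    (gap : σ.β₁ j < σ.α₂ j) (lo : 0 ≤ z.2 + σ.α₁ j) (hi : z.2 + σ.β₂ j ≤ Γ.k + σ.c0 j z)
    (hm : z.2 + σ.ζc j ∈ Icc (0 : ℤ) (Γ.k + σ.c3 j z))
    (hwin : ∀ v ∈ Icc (z.2 + σ.ζa j) (z.2 + σ.ζb j), v ∈ Icc (0 : ℤ) (Γ.k + σ.c3 j z))
    (hκ : ∀ y, (σ.α₁ j ≤ y ∧ y ≤ σ.β₁ j) ∨ (σ.α₂ j ≤ y ∧ y ≤ σ.β₂ j) → Real.exp (-(k * E)) ≤ σ.κ j y (σ.ζc j))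
    (hyp : yp ∈ Icc 0 Γ.hi)
    (lw : ∀ v ∈ Icc (z.2 + σ.ζa j) (z.2 + σ.ζb j), Real.exp (-(U * E)) ≤ K5 μ s Γ.h ζ Γ.p Γ.M (σ.c3 j z) n₃ v yp)
    (lwm : Real.exp (-(U * E)) ≤ K5 μ s Γ.h ζ Γ.p Γ.M (σ.c3 j z) n₃ (z.2 + σ.ζc j) yp)
    (up : Ge μ s Γ σ j z n₃ ζ (z.2 + σ.ζc j) ≤ Real.exp (a * E) * Fe Γ σ j z n₃ ζ yp)
    (phi : ∀ x ∈ cl2 (z.2 + σ.α₁ j) (z.2 + σ.β₁ j) (z.2 + σ.α₂ j) (z.2 + σ.β₂ j),
      ∑ v ∈ Icc (0 : ℤ) (Γ.k + σ.c3 j z), σ.k0 j z x v * Ge μ s Γ σ j z n₃ ζ v ≤ Real.exp (b * E) * Fe Γ σ j z n₃ ζ yp)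
    (hav : a + U ≤ v) (hbφ : b + U ≤ φ) (hg : 0 ≤ g₁) (hv₁ : g₁ + φ + k ≤ v₁) (h3 : Real.log 3 ≤ (g₁ - g₂) * E) :
    ζ ∈ So47 Γ σ j z := by
  have l0 : ∀ y, 0 ≤ Cx.l y := fun y => by
    unfold Cx.l
    split_ifs <;> norm_num
  have r0 : ∀ y, 0 ≤ Γ.r y := fun y => by
    unfold Cx.r
    split_ifs
    · exact hq _
    · exact le_rfl
  have hΦ : 1 ≤ σ.Φ j := by
    rw [nΦ]
    exact Real.one_le_exp (mul_nonneg hφ0 hE)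
  have m1 := mid74 (z := z.2) h1
  have m2 := mid74 (z := z.2) h2
  refine soW74 hT hN l0 r0 hκ0 hΦ seam m1.1 m1.2 m2.1 m2.2 gap lo hi hm hwin (Real.exp_pos (-(k * E))) hκ hyp lw lwm up phi
    (Real.exp_pos _).le (Real.exp_pos _).le ?_ ?_ (Real.exp_pos _).le (Real.exp_pos _).le n1.ge ?_
  · rw [nV]
    exact numV74 hE hav
  · rw [nΦ]
    exact numV74 hE hbφ
  · rw [nΦ, n2]
    exact numE74 hE hg hv₁ h3

end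

end Pool.Agent.W_7d29a1_C1.So74
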