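import Pool.Agent.W_7d29a1_C1.SoG7
import Pool.Agent.W_7d29a1_C1.ShlE8

/-!
MP_7d29a1_pr, [C1] SHELL, fresh ball: **(S) = `SoP8`**. (helper7, over helper12's `soA12`, helper60's `k5o60`, helper74's `soW74`)

`Sg7` : the letters of `So47` at one level. `so7` : the two outer events at one place, with the order of the constants:
`P₀ Q₃ k₅` | `c₂ ω₁ ω₁' q₁ u kst g₁ Ke δ δr` | `Q₁` | `P c₁ c₃ c₄ QV SV v₁ gf w₂ q₂` | `p₁ ι Q n₁` | every configuration.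
-/

set_option autoImplicit false

namespace Pool.Agent.W_7d29a1_C1.N7

open MeasureTheory ProbabilityTheory Filter Topology Finset
open Pool.Agent.W_7d29a1_F Pool.Agent.W_7d29a1_h4g Pool.Agent.W_7d29a1_H Pool.Agent.W_7d29a1_HS
open Pool.Agent.W_7d29a1_C1 (On20)
open Pool.Agent.W_7d29a1_C1.K91 (wt)
open Pool.Agent.W_7d29a1_C1.K91P (fw)
open Pool.Agent.W_7d29a1_C1.T10
open Pool.Agent.W_7d29a1_C1.U16 (lat16)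
open Pool.Agent.W_7d29a1_C1.FarK89 (gr AQ AQ_nonneg)
open Pool.Agent.W_7d29a1_C1.H60 (Cx Adm AT k5o60 sum_en60)
open Pool.Agent.W_7d29a1_C1.D31 (NV31 En31 LP95 yp95 kap31)
open Pool.Agent.W_7d29a1_C1.Fr47 (NS47 So47 V47)
open Pool.Agent.W_7d29a1_C1.H8 (V8 S8 NB8 KV8)
open Pool.Agent.W_7d29a1_C1.So74
open Pool.Agent.W_7d29a1_C1.S12 (Ln Cf12 soA12)

noncomputable section

variable {μ : Measure ℝ} {s c C : ℝ} {n₀ : ℕ}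

/-- **The numbers of `So47` at the level `i`** (`Ti` the scale, `To` the scale of the ball): `D` columns, `ck`, `ce`, `Qe`, `Se` the envelope,
`vO`, `φO`, `v₁`, `g₂` the exponents in the unit `EE To`. -/
structure Sg7 (μ : Measure ℝ) (s : ℝ) (σ : NS47) (i Ti To P : ℕ) (D ck ce Qe Se vO φO v₁ g₂ : ℝ) : Prop where
  T : σ.T i = Ti
  col : Col7 μ s σ i D (wd μ s Ti)
  kap : ∃ ca cz : ℝ, Kap7 σ i P (2 * Ti) ck ce Qe Se (EE μ s Ti) (wd μ s Ti) ca cz ∧ |ca + sl μ s * ((Ti : ℝ) - 1)| ≤ 2 * D * wd μ s Ti ∧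
    cz - ca = sl μ s * (2 * Ti)
  V : σ.V i = Real.exp (vO * EE μ s To)
  Φ : σ.Φ i = Real.exp (φO * EE μ s To)
  e1 : σ.e1 i = Real.exp (-(v₁ * EE μ s To))
  e2 : σ.e2 i = Real.exp (-(g₂ * EE μ s To))

/-- **The numbers of the two scales** (`cc` = `c / 32`). -/
structure Nu7 (μ : Measure ℝ) (s : ℝ) (Ti To : ℕ) (cc D Ke ce ρ sk s₄ c₂ c₄ g₁ g₂ : ℝ) : Prop where
  w : 1 ≤ wd μ s To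
  wi : 0 < wd μ s Ti
  D0 : 0 ≤ D
  Ke0 : 0 ≤ Ke
  DK : D * wd μ s Ti ≤ Ke * wd μ s To
  Dw : D * wd μ s Ti ≤ wd μ s To
  s1 : D * wd μ s Ti ≤ sl μ s * Ti
  s2 : D * wd μ s Ti ≤ (1 - sl μ s) * Ti
  EE : EE μ s Ti ≤ EE μ s To
  ρ0 : 0 ≤ ρ
  ρw : wd μ s To ≤ ρ * wd μ s Ti
  r : cc * (Pool.Agent.W_7d29a1_H.EE μ s To / wd μ s To) ≤ ce * (Pool.Agent.W_7d29a1_H.EE μ s Ti / wd μ s Ti)
  sum2 : ∀ (cen cen' : ℝ) (J : Finset ℤ) (x : ℤ), ∑ y ∈ J, Real.exp (-(c₂ * (Pool.Agent.W_7d29a1_H.EE μ s To / wd μ s To) *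
      |((y : ℝ) - cen') - ((x : ℝ) - cen)|)) ≤ Real.exp (sk * Pool.Agent.W_7d29a1_H.EE μ s To)
  sum4 : ∀ (cen cen' : ℝ) (J : Finset ℤ) (x : ℤ), ∑ y ∈ J, Real.exp (-(c₄ * (Pool.Agent.W_7d29a1_H.EE μ s To / wd μ s To) *
      |((y : ℝ) - cen') - ((x : ℝ) - cen)|)) ≤ Real.exp (s₄ * Pool.Agent.W_7d29a1_H.EE μ s To)
  lg : Real.log 3 ≤ (g₁ - g₂) * Pool.Agent.W_7d29a1_H.EE μ s To

/-- **THE TWO OUTER EVENTS AT ONE PLACE.** -/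
theorem so7 [IsProbabilityMeasure μ] (h0 : In μ s c C n₀) : ∃ (P₀ : ℕ) (Q₃ k₅ : ℝ), 0 ≤ Q₃ ∧ 0 ≤ k₅ ∧
    ∀ {c₂ ω₁ ω₁' q₁ u kst g₁ Ke δ δr : ℝ}, 0 < c₂ → 0 ≤ ω₁ → ω₁ < ω₁' → 0 ≤ q₁ → 0 ≤ u → 0 ≤ g₁ → g₁ < kst → 0 ≤ Ke → 0 < δ →
      0 < δr → ∃ Q₁ : ℝ, 0 ≤ Q₁ ∧
    ∀ {P : ℕ} {c₁ c₃ c₄ QV SV v₁ gf ω₂ q₂ : ℝ}, P₀ ≤ P → 1 ≤ P → 0 < c₁ → c₁ < c₄ → 0 ≤ c₃ → c₁ + c₂ + c₃ + c₄ ≤ c / 32 → 0 ≤ QV →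
      0 ≤ ω₂ → q₁ + u * (1 + Real.log (1 + (ω₁' + 1))) + kst + c₃ * (ω₁ + Ke + 1) ≤ gf →
      q₁ + u * (1 + Real.log (1 + (ω₁' + 1))) + kst + v₁ + k₅ ≤ gf →
    ∃ (p₁ ι : ℝ) (Q n₁ : ℕ), 0 < p₁ ∧ 0 < ι ∧ 1 ≤ Q ∧ 1 ≤ n₁ ∧
    ∀ T To : ℕ, n₁ ≤ T → n₁ ≤ To → Q ∣ T → T ≤ 2 * To → To ≤ 2 * T → ∃ r₀ : ℕ, (r₀ : ℝ) ≤ δr * wd μ s To ∧
    ∀ {Γ : Cx} {ν : NV31} {σ : NS47} {G : Gd} {i : ℕ} {q₀ : ℕ × ℤ} {Ti n₃ : ℕ} {D ck ce Qe Se ρ cF c₃' c₄' sk s₄ g₂ : ℝ},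
      Cf12 μ s Γ ν σ G i q₀ To T n₃ P c₁ c₃ QV SV ω₁ ω₁' ω₂ q₁ q₂ gf kst ι Ke δ (mid (G.z i q₀).2 (σ.α₁ i) (σ.β₁ i))
        (mid (G.z i q₀).2 (σ.α₂ i) (σ.β₂ i)) →
      |Γ.h| * wd μ s To ≤ c / 64 * EE μ s To → To ≤ 8 * n₃ → n₃ ≤ 2 * To →
      Sg7 μ s σ i Ti To P D ck ce Qe Se (a7 P Q₃ q₁ (c₃ - c₁) 1 + k₅)
        (b7 P cF (Qe * gr P (AQ P ck Qe + ρ + 2 * D) + Se) Q₃ Ke sk 1 q₁ (c₃ - c₁) s₄ + k₅) v₁ g₂ →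
      Nu7 μ s Ti To (c / 32) D Ke ce ρ sk s₄ c₂ c₄' g₁ g₂ → 0 ≤ Qe → 0 ≤ Se → 0 ≤ ce → 0 < cF → 0 ≤ c₃' → cF + c₂ + c₃' ≤ c / 32 →
      c₁ ≤ c₃ → c₄' + (c₃ - c₁) ≤ c₃' → c₂ + (c₃ - c₁) ≤ c / 32 → 0 ≤ sk → 0 ≤ s₄ →
      2 * u + Q₁ + (Qe * gr P (AQ P ck Qe + ρ + 2 * D) + Se) + Q₃ ≤ QV → 1 + sk + 1 ≤ SV →
      2 * (r₀ : ℤ) + 2 ≤ σ.β₁ i - σ.α₁ i → 2 * (r₀ : ℤ) + 2 ≤ σ.β₂ i - σ.α₂ i →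
      D * wd μ s Ti + r₀ + 1 ≤ (Ke + 1) * wd μ s To →
      g₁ + (b7 P cF (Qe * gr P (AQ P ck Qe + ρ + 2 * D) + Se) Q₃ Ke sk 1 q₁ (c₃ - c₁) s₄ + k₅) + ce * (2 * D) ≤ v₁ →
      ∀ ω ∈ V47 μ s Γ ν G u i q₀, ω ∈ LP95 μ s Γ ν (c₃ - c₁) G i q₀ → ∃ E0 E5 : Set Env, MeasurableSet E0 ∧ MeasurableSet E5 ∧
        On20 (rows (((G.z (i + ν.m₂) q₀).1 : ℤ) - To) (((G.z i q₀).1 : ℤ) - Ti)) E0 ∧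
        On20 (rows (((G.z i q₀).1 : ℤ) + Ti) (((G.z (i + ν.m₂) q₀).1 : ℤ) + To)) E5 ∧ p₁ ≤ (law μ).real E0 ∧ 1 / 2 ≤ (law μ).real E5 ∧
        ∀ ζ : Env, (∀ a, a ∉ rows (((G.z (i + ν.m₂) q₀).1 : ℤ) - To) (((G.z (i + ν.m₂) q₀).1 : ℤ) + To) → ζ a = ω a) → ζ ∈ E0 → ζ ∈ E5 →
          ζ ∈ So47 Γ σ i (G.z i q₀) := by
  obtain ⟨Pa, HA⟩ := soA12 h0
  obtain ⟨Pb, Q₃, k₅, hQ₃, hk₅, HB⟩ := k5o60 h0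
  obtain ⟨sl0, sl1⟩ := sl_mem (μ := μ) h0.em h0.nd s
  refine ⟨max (2 * Pa) Pb, Q₃, k₅, hQ₃, hk₅, fun {c₂ ω₁ ω₁' q₁ u kst g₁ Ke δ δr} hc₂ hω₁ hω₁' hq₁ hu hg₁0 hg₁ hKe hδ hδr => ?_⟩
  obtain ⟨nB, hnB, HB⟩ := HB c₂ hc₂
  obtain ⟨Q₁, hQ₁, HA⟩ := HA hc₂ hω₁ hω₁' hq₁ hu hg₁0 hg₁ hKe hδ hδr
  refine ⟨Q₁, hQ₁, fun {P c₁ c₃ c₄ QV SV v₁ gf ω₂ q₂} hP hP1 hc₁ hc₄ hc₃ hsum hQV hω₂ hgf1 hgf2 => ?_⟩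
  have hcc0 := h0.c0
  obtain ⟨p₁, ι, Q, n₁, hp₁, hι, hQ, hn₁, HA⟩ := HA (P := P) (cc := c / 32) (c₁ := c₁) (c₃ := c₃) (c₄ := c₄) (Qk := QV) (S := SV) (k₅ := k₅)
    (v := v₁) (gf := gf) (ω₂ := ω₂) (q₂ := q₂) ((le_max_left _ _).trans hP) hP1 (by linarith) hc₁ hc₄ hc₂.le hc₃ hsum hQV hω₂ hgf1 hgf2
  refine ⟨p₁, ι, Q, max n₁ nB, hp₁, hι, hQ, hn₁.trans (le_max_left _ _), fun T To hT hTo hQT hTT hTT' => ?_⟩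
  obtain ⟨r₀, hr₀, HA⟩ := HA T To ((le_max_left _ _).trans hT) ((le_max_left _ _).trans hTo) hQT hTT hTT'
  refine ⟨r₀, hr₀, ?_⟩
  intro Γ ν σ G i q₀ Ti n₃ D ck ce Qe Se ρ cF c₃' c₄' sk s₄ g₂ cf hh hn8 hn2 sg nu hQe hSe hce hcF hc₃' hcc hc13 h43 h2s hsk hs₄ hQQ hSS hr1 hr2
    hrD hv₁ ω hω hL
  have hσ := sg.T
  subst hσ
  have hw0 : 0 < wd μ s To := lt_of_lt_of_le one_pos nu.w
  obtain ⟨E0, mE0, oE0, pE0, HA⟩ := HA cf (fun y hy => by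
    have e0 : Ln μ s (G.z i q₀) (σ.c0 i (G.z i q₀)) = (G.z i q₀).2 + sl μ s * (1 - σ.T i) := Ln_c0 cf.z0
    have hab : ∀ α β : ℤ, α ≤ β → σ.α₁ i ≤ α → β ≤ σ.β₂ i → y ∈ Icc (mid (G.z i q₀).2 α β - (r₀ : ℤ)) (mid (G.z i q₀).2 α β + r₀ + 1) →
        |(y : ℝ) - Ln μ s (G.z i q₀) (σ.c0 i (G.z i q₀))| ≤ (Ke + 1) * wd μ s To := fun α β h1 h2 h3 h4 => by
      obtain ⟨m1, m2⟩ := mid_bd (z := G.z i q₀) h1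
      rw [mem_Icc] at h4
      have h5 := sg.col.cell (y := mid (G.z i q₀).2 α β - (G.z i q₀).2) (by omega) (by omega)
      rw [e0]
      have h6 : ((y : ℝ) - ((mid (G.z i q₀).2 α β : ℤ) : ℝ)) ≤ r₀ + 1 := by
        have : y - mid (G.z i q₀).2 α β ≤ (r₀ : ℤ) + 1 := by omega
        exact_mod_cast this
      have h7 : -((r₀ : ℝ) + 1) ≤ ((y : ℝ) - ((mid (G.z i q₀).2 α β : ℤ) : ℝ)) := by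
        have : -((r₀ : ℤ) + 1) ≤ y - mid (G.z i q₀).2 α β := by omega
        exact_mod_cast this
      have e : (y : ℝ) - ((G.z i q₀).2 + sl μ s * (1 - σ.T i)) = ((y : ℝ) - ((mid (G.z i q₀).2 α β : ℤ) : ℝ)) +
          (((mid (G.z i q₀).2 α β - (G.z i q₀).2 : ℤ) : ℝ) - sl μ s * (1 - σ.T i)) := by
        push_cast
        ring
      rw [e]
      rw [abs_le] at h5 ⊢
      constructor <;> linarith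
    have c1 := sg.col.ab1
    have c2 := sg.col.ab2
    have c3 := sg.col.gap
    rcases mem_union.1 hy with hy | hy
    · exact hab _ _ c1 le_rfl (by omega) hy
    · exact hab _ _ c2 (by omega) le_rfl hy) ω hω
  have hc3 : ((σ.c3 i (G.z i q₀) : ℕ) : ℤ) = ((G.z i q₀).1 : ℤ) + σ.T i + 1 := by
    unfold NS47.c3
    push_cast
    ring
  obtain ⟨E5, mE5, oE5, pE5, HB⟩ := HB To ((le_max_right _ _).trans hTo) n₃ hn8 hn2 (((G.z i q₀).1 : ℤ), (G.z i q₀).2) (σ.c3 i (G.z i q₀))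
  have hup := cf.upp
  have er : ((σ.c3 i (G.z i q₀) : ℕ) : ℤ) + n₃ = ((G.z (i + ν.m₂) q₀).1 : ℤ) + To := by
    rw [hc3]
    omega
  have er' : ((σ.c3 i (G.z i q₀) : ℕ) : ℤ) - 1 = ((G.z i q₀).1 : ℤ) + σ.T i := by
    rw [hc3]
    ring
  rw [er, er'] at oE5
  refine ⟨E0, E5, mE0, mE5, oE0, oE5, pE0, pE5, fun ζ hζ hζ0 hζ5 => ?_⟩
  have hp : ∀ k, k < Γ.M → Γ.p k = Real.exp (s + Γ.h) := fun k hk => by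
    unfold Cx.p
    rw [if_pos hk, cf.sΓ]
  have hp' : ∀ k, Γ.M ≤ k → Γ.p k = Real.exp s := fun k hk => by
    unfold Cx.p
    rw [if_neg (not_lt.2 hk), cf.sΓ]
  obtain ⟨en5, lo5⟩ := HB ζ hζ5 Γ.h Γ.p Γ.M hp hp' hh
  obtain ⟨ca, cz, K7, hca, hcz⟩ := sg.kap
  exact soG7 cf sg.col sl0.le sl1.le nu.w nu.D0 nu.DK nu.Dw nu.s1 nu.s2 hL hζ K7 (EE_pos _).le nu.wi nu.EE
    hQe hSe nu.ρ0 nu.ρw hce nu.r hca hcz hcF hc₂.le hc₃' hcc (by linarith) h43 h2s hsk hs₄ nu.sum2 nu.sum4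
    (fun I J => en5 P ((le_max_right _ _).trans hP) I J) lo5 (HA ζ hζ hζ0) (by linarith) (by linarith) hr1 hr2 hQ₃ hk₅ zero_le_one hq₁ hKe
    sg.V sg.Φ sg.e1 sg.e2 hg₁0 hv₁ nu.lg

end

end Pool.Agent.W_7d29a1_C1.N7
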