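import Pool.Agent.W_7d29a1_C1.SoN74

/-!
MP_7d29a1_pr, [C1] SHELL, fresh ball, (S): **THE FUTURE HALF**: the inputs `lw`, `lwm`, `up`, `phi` of `soN74` from the last block
(`k5o60`: envelope and lower bound of `K5`), the envelope of the inside and the one-sided regularity (LP) of the future. (helper74)

All in one unit `(E, w)`, lines `lat16 μ s κ` at the rows `c0`, `c3`, `c3 + n₃`.
-/

set_option autoImplicit false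

namespace Pool.Agent.W_7d29a1_C1.So74

open MeasureTheory Finset
open Pool.Agent.W_7d29a1_F Pool.Agent.W_7d29a1_h4g Pool.Agent.W_7d29a1_H Pool.Agent.W_7d29a1_HS
open Pool.Agent.W_7d29a1_C1.K91 (wt wt_pos)
open Pool.Agent.W_7d29a1_C1.U16 (lat16)
open Pool.Agent.W_7d29a1_C1.FarW89 (nk nk_nonneg nk_eq_zero)
open Pool.Agent.W_7d29a1_C1.FarK89 (gr gr_nonneg gr_one_le gr_mono AQ AQ_nonneg)
open Pool.Agent.W_7d29a1_C1.S83 (K5)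
open Pool.Agent.W_7d29a1_C1.F74 (cl2)
open Pool.Agent.W_7d29a1_C1.H60 (Cx)
open Pool.Agent.W_7d29a1_C1.D31 (En31)
open Pool.Agent.W_7d29a1_C1.Fr47

noncomputable section

variable {μ : Measure ℝ} {s : ℝ} {Γ : Cx} {σ : NS47} {j : ℕ} {z : ℕ × ℤ} {ζ : Env} {n₃ : ℕ}

/-- `K5` vanishes off the reachable pairs. -/
theorem K5_cut (i : ℕ) {x y : ℤ} (h : ¬ (x ≤ y ∧ y ≤ x + n₃)) : K5 μ s Γ.h ζ Γ.p Γ.M i n₃ x y = 0 := by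
  unfold K5
  rw [nk_eq_zero i n₃ h, mul_zero]

/-- The lines of one row. -/
theorem lat_row (κ : Pt) (r x y : ℤ) : lat16 μ s κ (r, x) - lat16 μ s κ (r, y) = (x : ℝ) - y := by
  unfold lat16
  push_cast
  ring

/-- **THE FUTURE HALF OF (S).** -/
theorem futP74 {κ : Pt} {P n₂ : ℕ} {c c₁ c₂ c₃ c₄ E w Q₃ s₃ k₅ Qk sk s₄ q₁ sg Kc : ℝ} {yp : ℤ} (hE : 0 < E) (hw : 0 < w)
    (hc₁ : 0 < c₁) (hc₂ : 0 ≤ c₂) (hc₃ : 0 ≤ c₃) (hcc : c₁ + c₂ + c₃ ≤ c) (hsg : 0 ≤ sg) (h43 : c₄ + sg ≤ c₃) (h2s : c₂ + sg ≤ c)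
    (en3 : ∀ I J : Finset ℤ, En31 P c c₂ E w Q₃ s₃ (fun x => lat16 μ s κ ((σ.c3 j z : ℤ), x))
      (fun y => lat16 μ s κ (((σ.c3 j z + n₃ : ℕ) : ℤ), y)) (K5 μ s Γ.h ζ Γ.p Γ.M (σ.c3 j z) n₃) I J)
    (lo5 : ∀ x y : ℤ, |lat16 μ s κ ((σ.c3 j z : ℤ), x)| ≤ w → |lat16 μ s κ (((σ.c3 j z + n₃ : ℕ) : ℤ), y)| ≤ w →
      Real.exp (-(k₅ * E)) ≤ K5 μ s Γ.h ζ Γ.p Γ.M (σ.c3 j z) n₃ x y)
    (en2 : ∀ I J : Finset ℤ, En31 P c c₂ E w Qk sk (fun y => lat16 μ s κ ((σ.c0 j z : ℤ), y))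
      (fun x => lat16 μ s κ ((σ.c3 j z : ℤ), x)) (σ.k0 j z) I J)
    (cut2 : ∀ y v : ℤ, ¬ (y ≤ v ∧ v ≤ y + n₂) → σ.k0 j z y v = 0)
    (sm : ∀ a : ℝ, ∑ y ∈ Icc 0 Γ.hi, Real.exp (-(c₄ * (E / w) * |lat16 μ s κ (((σ.c3 j z + n₃ : ℕ) : ℤ), y) - a|)) ≤ Real.exp (s₄ * E))
    (hyw : |lat16 μ s κ (((σ.c3 j z + n₃ : ℕ) : ℤ), yp)| ≤ w)
    (LP : ∀ z' : ℤ, |(z' : ℝ) - yp| ≤ n₂ + n₃ → Fe Γ σ j z n₃ ζ z' ≤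
      Real.exp (q₁ * E + sg * (E / w) * |(z' : ℝ) - yp|) * Fe Γ σ j z n₃ ζ yp)
    (cells : ∀ x ∈ cl2 (z.2 + σ.α₁ j) (z.2 + σ.β₁ j) (z.2 + σ.α₂ j) (z.2 + σ.β₂ j),
      |lat16 μ s κ ((σ.c0 j z : ℤ), x)| ≤ Kc * w ∧ x ≤ yp ∧ yp ≤ x + n₂ + n₃)
    (win : ∀ v ∈ Icc (z.2 + σ.ζa j) (z.2 + σ.ζb j), |lat16 μ s κ ((σ.c3 j z : ℤ), v)| ≤ w)
    (zcw : |lat16 μ s κ ((σ.c3 j z : ℤ), z.2 + σ.ζc j)| ≤ w) :
    (∀ v ∈ Icc (z.2 + σ.ζa j) (z.2 + σ.ζb j), Real.exp (-(k₅ * E)) ≤ K5 μ s Γ.h ζ Γ.p Γ.M (σ.c3 j z) n₃ v yp) ∧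
    Real.exp (-(k₅ * E)) ≤ K5 μ s Γ.h ζ Γ.p Γ.M (σ.c3 j z) n₃ (z.2 + σ.ζc j) yp ∧
    Ge μ s Γ σ j z n₃ ζ (z.2 + σ.ζc j) ≤ Real.exp ((Q₃ * gr P 1 + q₁ + sg * 2 + s₃) * E) * Fe Γ σ j z n₃ ζ yp ∧
    ∀ x ∈ cl2 (z.2 + σ.α₁ j) (z.2 + σ.β₁ j) (z.2 + σ.α₂ j) (z.2 + σ.β₂ j),
      ∑ v ∈ Icc (0 : ℤ) (Γ.k + σ.c3 j z), σ.k0 j z x v * Ge μ s Γ σ j z n₃ ζ v ≤
        Real.exp (((Qk + Q₃) * gr P (AQ P c₁ (Qk + Q₃) + Kc) + (sk + s₃) + q₁ + sg * (Kc + 1) + s₄) * E) * Fe Γ σ j z n₃ ζ yp := by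
  have hlw : ∀ v : ℤ, |lat16 μ s κ ((σ.c3 j z : ℤ), v)| ≤ w → Real.exp (-(k₅ * E)) ≤ K5 μ s Γ.h ζ Γ.p Γ.M (σ.c3 j z) n₃ v yp :=
    fun v hv => lo5 v yp hv hyw
  have hmp := hlw _ zcw
  have hreach : z.2 + σ.ζc j ≤ yp ∧ yp ≤ z.2 + σ.ζc j + n₃ := by
    by_contra hcon
    rw [K5_cut (σ.c3 j z) hcon] at hmp
    exact absurd hmp (not_le.2 (Real.exp_pos _))
  have Fp := Fe_pos (Γ := Γ) (σ := σ) (j := j) (z := z) (n₃ := n₃) (ζ := ζ)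
  have lp : ∀ z' : ℤ, |(z' : ℝ) - yp| ≤ n₂ + n₃ → Fe Γ σ j z n₃ ζ z' ≤ Real.exp (q₁ * E + sg * (E / w) *
      |lat16 μ s κ (((σ.c3 j z + n₃ : ℕ) : ℤ), z') - lat16 μ s κ (((σ.c3 j z + n₃ : ℕ) : ℤ), yp)|) * Fe Γ σ j z n₃ ζ yp := by
    intro z' hz'
    rw [lat_row]
    exact LP z' hz'
  refine ⟨fun v hv => hlw v (win v hv), hmp, ?_, ?_⟩
  · -- `up`
    refine up74 (Λ := 1) (D := 2) hE hw (en3 {z.2 + σ.ζc j} (Icc 0 Γ.hi)) hsg h2s (mem_singleton_self _) (by rwa [one_mul]) ?_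
      (Fp yp).le (fun z' _ hK => lp z' ?_)
    · have := abs_sub (lat16 μ s κ ((σ.c3 j z : ℤ), z.2 + σ.ζc j)) (lat16 μ s κ (((σ.c3 j z + n₃ : ℕ) : ℤ), yp))
      linarith
    · have h1 : z.2 + σ.ζc j ≤ z' ∧ z' ≤ z.2 + σ.ζc j + n₃ := by
        by_contra hcon
        exact hK (K5_cut _ hcon)
      have h2 : |z' - yp| ≤ n₃ := by
        rw [abs_le]
        omega
      have h3 : |(z' : ℝ) - yp| ≤ n₃ := by exact_mod_cast h2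
      have h4 : (0 : ℝ) ≤ n₂ := by positivity
      linarith
  · -- `phi`
    have h1 := phi74 (s₄ := s₄) (yp := yp) (q₁ := q₁) (Λ := Kc) (D := Kc + 1) (C := cl2 (z.2 + σ.α₁ j) (z.2 + σ.β₁ j) (z.2 + σ.α₂ j) (z.2 + σ.β₂ j))
      (F := Fe Γ σ j z n₃ ζ) (G := Ge μ s Γ σ j z n₃ ζ) hE hw hc₂
      (en2 (cl2 (z.2 + σ.α₁ j) (z.2 + σ.β₁ j) (z.2 + σ.α₂ j) (z.2 + σ.β₂ j)) (Icc (0 : ℤ) (Γ.k + σ.c3 j z)))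
      (en3 (Icc (0 : ℤ) (Γ.k + σ.c3 j z)) (Icc 0 Γ.hi)) hc₁ hc₃ hcc le_rfl le_rfl hsg h43 sm (Finset.Subset.refl _)
      (fun v _ => rfl) (fun z' => (Fp z').le) (fun x hx => (cells x hx).1) (fun x hx => ?_) (fun x hx z' hz' hv => ?_)
    · exact h1
    · have h2 := abs_sub (lat16 μ s κ ((σ.c0 j z : ℤ), x)) (lat16 μ s κ (((σ.c3 j z + n₃ : ℕ) : ℤ), yp))
      have h3 := (cells x hx).1
      have e : (Kc + 1) * w = Kc * w + w := by ring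
      rw [e]
      linarith
    · obtain ⟨v, hv, hne⟩ := hv
      refine lp z' ?_
      have h2 : x ≤ v ∧ v ≤ x + n₂ := by
        by_contra hcon
        exact hne (by rw [cut2 x v hcon, zero_mul])
      have h3 : v ≤ z' ∧ z' ≤ v + n₃ := by
        by_contra hcon
        exact hne (by rw [K5_cut (σ.c3 j z) hcon, mul_zero])
      have h4 := (cells x hx).2
      have h5 : |z' - yp| ≤ n₂ + n₃ := by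
        rw [abs_le]
        omega
      exact_mod_cast h5

end

end Pool.Agent.W_7d29a1_C1.So74
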