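import Pool.Agent.W_7d29a1_C1.SoA12
import Pool.Agent.W_7d29a1_C1.Geo58
import Pool.Agent.W_7d29a1_C1.SoN74

/-!
MP_7d29a1_pr, [C1] SHELL, fresh ball, (S): **THE CONFIGURATION `Cf12` FROM THE GRID**. (helper7, leaf of helper12's `SoF12`)

`col7` : a window of the lower edge row gives the windows of all the rows above. `Col7` : the columns of `So47` at one level. `rows7` : the
rows (`T` = length of P1, `n₃` = number of rows of the last part). `cf7` : `Cf12` from `In`, `GW`, `NB8`, `V8`, `S8` and the numbers.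
`wT7` : the thresholds.
-/

set_option autoImplicit false

namespace Pool.Agent.W_7d29a1_C1.N7

open MeasureTheory Finset Filter Topology
open Pool.Agent.W_7d29a1_F Pool.Agent.W_7d29a1_h4g Pool.Agent.W_7d29a1_H Pool.Agent.W_7d29a1_HS
open Pool.Agent.W_7d29a1_C1.K91 (wt)
open Pool.Agent.W_7d29a1_C1.K91P (fw)
open Pool.Agent.W_7d29a1_C1.T10
open Pool.Agent.W_7d29a1_C1.H60 (Cx)
open Pool.Agent.W_7d29a1_C1.D31 (NV31 V31 DW31)
open Pool.Agent.W_7d29a1_C1.Fr47 (NS47 V47)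
open Pool.Agent.W_7d29a1_C1.H8 (V8 S8 NB8 KV8)
open Pool.Agent.W_7d29a1_C1.So74 (mid mid_abs)
open Pool.Agent.W_7d29a1_C1.S12 (Ln Cf12)
open Pool.Agent.W_7d29a1_C1.Ge58 (pos58 fwl58 hN58)

noncomputable section

/-- **The windows above the edge row.** -/
theorem col7 {z1 z2 v W D : ℝ} {ro k : ℕ} (key : ∀ x : ℤ, |(x : ℝ) - (z2 + v * ((ro : ℝ) - z1))| ≤ W → 0 ≤ x ∧ x ≤ ro) (v0 : 0 ≤ v)
    (v1 : v ≤ 1) (hk : ro ≤ k) {x : ℤ} (hD : 0 ≤ D) (hx : |(x : ℝ) - (z2 + v * ((k : ℝ) - z1))| ≤ D) (hW : D + 1 ≤ W) : 0 ≤ x ∧ x ≤ k := by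
  obtain ⟨cn, hcn⟩ : ∃ cn : ℝ, cn = z2 + v * ((ro : ℝ) - z1) := ⟨_, rfl⟩
  rw [← hcn] at key
  have hk' : (ro : ℝ) ≤ k := by exact_mod_cast hk
  have e : z2 + v * ((k : ℝ) - z1) = cn + v * ((k : ℝ) - ro) := by
    rw [hcn]
    ring
  rw [e, abs_le] at hx
  have d0 : 0 ≤ v * ((k : ℝ) - ro) := mul_nonneg v0 (by linarith)
  have d1 : v * ((k : ℝ) - ro) ≤ (k : ℝ) - ro := mul_le_of_le_one_left (by linarith) v1
  constructor
  · obtain ⟨y, hy⟩ : ∃ y : ℤ, y = ⌈cn - W⌉ := ⟨_, rfl⟩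
    have y1 : cn - W ≤ y := by rw [hy]; exact Int.le_ceil _
    have y2 : (y : ℝ) < cn - W + 1 := by rw [hy]; exact Int.ceil_lt_add_one _
    have y3 := (key y (by
      rw [abs_le]
      constructor <;> linarith)).1
    have y4 : (y : ℝ) < x := by linarith [hx.1]
    have y5 : y < x := by exact_mod_cast y4
    omega
  · obtain ⟨y, hy⟩ : ∃ y : ℤ, y = ⌊cn + W⌋ := ⟨_, rfl⟩
    have y1 : (y : ℝ) ≤ cn + W := by rw [hy]; exact Int.floor_le _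
    have y2 : cn + W < y + 1 := by rw [hy]; exact Int.lt_floor_add_one _
    have y3 := (key y (by
      rw [abs_le]
      constructor <;> linarith)).2
    have y4 : (x : ℝ) < y + (k - ro) := by linarith [hx.2]
    have y5 : x < y + ((k : ℤ) - ro) := by exact_mod_cast y4
    omega

/-- **The columns of `So47` at one level** (`wi` = `wd` of the scale `σ.T i`), relative to the place. -/
structure Col7 (μ : Measure ℝ) (s : ℝ) (σ : NS47) (i : ℕ) (D wi : ℝ) : Prop where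
  ab1 : σ.α₁ i ≤ σ.β₁ i
  gap : σ.β₁ i < σ.α₂ i
  ab2 : σ.α₂ i ≤ σ.β₂ i
  a1 : -(D * wi) ≤ (σ.α₁ i : ℝ) - sl μ s * (1 - σ.T i)
  b2 : (σ.β₂ i : ℝ) - sl μ s * (1 - σ.T i) ≤ D * wi
  zc : |(σ.ζc i : ℝ) - sl μ s * (1 + σ.T i)| ≤ D * wi
  za : -(D * wi) ≤ (σ.ζa i : ℝ) - sl μ s * (1 + σ.T i)
  zb : (σ.ζb i : ℝ) - sl μ s * (1 + σ.T i) ≤ D * wi

section Cols

variable {μ : Measure ℝ} {s : ℝ} {σ : NS47} {i : ℕ} {D wi : ℝ} {z : ℕ × ℤ}

/-- Any column of the two fixed cells and between them. -/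
theorem Col7.cell (h : Col7 μ s σ i D wi) {y : ℤ} (h1 : σ.α₁ i ≤ y) (h2 : y ≤ σ.β₂ i) : |(y : ℝ) - sl μ s * (1 - σ.T i)| ≤ D * wi := by
  have e1 : (σ.α₁ i : ℝ) ≤ y := by exact_mod_cast h1
  have e2 : (y : ℝ) ≤ σ.β₂ i := by exact_mod_cast h2
  rw [abs_le]
  constructor <;> linarith [h.a1, h.b2]

theorem Col7.win (h : Col7 μ s σ i D wi) {y : ℤ} (h1 : σ.ζa i ≤ y) (h2 : y ≤ σ.ζb i) : |(y : ℝ) - sl μ s * (1 + σ.T i)| ≤ D * wi := by
  have e1 : (σ.ζa i : ℝ) ≤ y := by exact_mod_cast h1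
  have e2 : (y : ℝ) ≤ σ.ζb i := by exact_mod_cast h2
  rw [abs_le]
  constructor <;> linarith [h.za, h.zb]

theorem Ln_c0 (hT : σ.T i ≤ z.1) : Ln μ s z (σ.c0 i z) = z.2 + sl μ s * (1 - σ.T i) := by
  unfold Ln NS47.c0
  rw [Nat.cast_add, Nat.cast_sub hT]
  push_cast
  ring

theorem Ln_c3 : Ln μ s z (σ.c3 i z) = z.2 + sl μ s * (1 + σ.T i) := by
  unfold Ln NS47.c3
  push_cast
  ring

/-- The middle of a fixed cell. -/
theorem mid_bd {α β : ℤ} (h : α ≤ β) : z.2 + α ≤ mid z.2 α β ∧ mid z.2 α β ≤ z.2 + β := by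
  unfold mid
  omega

end Cols

variable {μ : Measure ℝ} [IsProbabilityMeasure μ] {s c C : ℝ} {n₀ : ℕ}

omit [IsProbabilityMeasure μ] in
/-- **THE ROWS** : `T` = length of P1, `n₃` = number of rows of the last part. -/
theorem rows7 {R : ℝ} {B : ℕ} {C₀ : ℝ} {h₀ K L : ℕ} {G : Gd} (g : GW μ s R B C₀ h₀ K L G) (hK : 8 ≤ K) {i m₂ : ℕ} (hi : 1 ≤ i)
    (hm : 1 ≤ m₂) (hL : i + m₂ ≤ L) {q₀ : ℕ × ℤ} (hz : Tg h₀ K (i + m₂) ≤ (G.z (i + m₂) q₀).1) : ∃ T n₃ : ℕ,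
    Tg h₀ K i ≤ (G.z i q₀).1 ∧ (G.z (i + m₂) q₀).1 - Tg h₀ K (i + m₂) + T = (G.z i q₀).1 - Tg h₀ K i ∧
    (G.z i q₀).1 + Tg h₀ K i + 1 + n₃ = (G.z (i + m₂) q₀).1 + Tg h₀ K (i + m₂) ∧ T ≤ 2 * Tg h₀ K (i + m₂) ∧ Tg h₀ K (i + m₂) ≤ 2 * T ∧
    Tg h₀ K (i + m₂) ≤ 8 * n₃ ∧ n₃ ≤ 2 * Tg h₀ K (i + m₂) ∧ 8 * Tg h₀ K i ≤ Tg h₀ K (i + m₂) ∧ ∀ Q : ℕ, Q ∣ h₀ → Q ∣ T := by
  obtain ⟨a1, a2, a3, a4⟩ := g.low hK hi hm hL hz
  obtain ⟨b1, b2, b3⟩ := g.upp hK hi hm hL q₀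
  have h8 := g.To_ge hK hi hm
  have hT := g.Tpos hi
  refine ⟨((G.z i q₀).1 - Tg h₀ K i) - ((G.z (i + m₂) q₀).1 - Tg h₀ K (i + m₂)),
    ((G.z (i + m₂) q₀).1 + Tg h₀ K (i + m₂)) - ((G.z i q₀).1 + Tg h₀ K i) - 1, a1, by omega, by omega, a4, a3, by omega, by omega, h8,
    fun Q hQ => (g.low_dvd hQ i (i + m₂) q₀).1⟩

/-- **`Cf12` FROM THE GRID.** -/
theorem cf7 (h0 : In μ s c C n₀) {R : ℝ} {B : ℕ} {C₀ : ℝ} {h₀ K L : ℕ} {G : Gd} (g : GW μ s R B C₀ h₀ K L G) {m₂ : ℕ} {kk : KV8}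
    {ν : NV31} (N : NB8 μ s (Tg h₀ K) m₂ kk ν) {i : ℕ} (hi : 1 ≤ i) (hm : 1 ≤ m₂) {Γ : Cx} {u : ℝ} {q₀ : ℕ × ℤ}
    {ω : Env} (hω : ω ∈ V8 μ s Γ ν u G i q₀) (sΓ : Γ.s = s) (ok : Γ.Ok) {ι : ℝ} (h1 : |Γ.h| ≤ 1) {To Ti : ℕ} (eTo : To = Tg h₀ K (i + m₂))
    (eTi : Ti = Tg h₀ K i) (hι : |Γ.h| * wd μ s To ≤ ι * EE μ s To) {e : ℝ} {n : ℕ} (hS : q₀ ∈ S8 e K n G Γ) (hTn : To + 1 ≤ n)
    {σ : NS47} (hσ : σ.T i = Ti) {T n₃ : ℕ} (z0 : Ti ≤ (G.z i q₀).1) (low : (G.z (i + m₂) q₀).1 - To + T = (G.z i q₀).1 - Ti)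
    (upp : (G.z i q₀).1 + Ti + 1 + n₃ = (G.z (i + m₂) q₀).1 + To) (h8 : To ≤ 8 * n₃)
    {D Ke δ : ℝ} (col : Col7 μ s σ i D (wd μ s Ti)) (hD : 0 ≤ D) (hww : wd μ s Ti ≤ wd μ s To) (hKe : D ≤ Ke)
    (hsB : (σ.β₁ i : ℝ) + δ * wd μ s To ≤ σ.α₂ i) (hw1 : kk.w₁ ≤ kk.w₁') (hw' : Ke + 3 ≤ kk.w₁')
    (hs1 : 8 * ((Ke + 1) * wd μ s To + 1) ≤ sl μ s * To) (hs2 : 8 * ((Ke + 1) * wd μ s To + 1) ≤ (1 - sl μ s) * To) :
    Cf12 μ s Γ ν σ G i q₀ To T n₃ kk.P kk.c₁ kk.c₃ kk.Q kk.S kk.w₁ kk.w₁' kk.w₂ kk.q₁ kk.q₂ kk.gf (kk.g / 2) ι Ke δ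
      (mid (G.z i q₀).2 (σ.α₁ i) (σ.β₁ i)) (mid (G.z i q₀).2 (σ.α₂ i) (σ.β₂ i)) := by
  obtain ⟨sl0, sl1⟩ := sl_mem (μ := μ) h0.em h0.nd s
  have hwo : 1 ≤ wd μ s To := by rw [eTo]; exact g.w1 (by omega)
  have hwo0 : 0 < wd μ s To := by linarith
  have em := N.em
  have eT := N.eT
  have hzo : To ≤ (G.z (i + ν.m₂) q₀).1 := by
    have h2 : ν.Ts (i + ν.m₂) ≤ (G.z (i + ν.m₂) q₀).1 := hω.1.1
    rwa [eT, em, ← eTo, ← em] at h2
  have hzo' : To ≤ (G.z (i + m₂) q₀).1 := by rwa [em] at hzo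
  obtain ⟨z, hz⟩ : ∃ z, z = G.z i q₀ := ⟨_, rfl⟩
  obtain ⟨zo, hzo2⟩ : ∃ zo, zo = G.z (i + m₂) q₀ := ⟨_, rfl⟩
  rw [← hz] at z0 low upp
  rw [← hzo2] at low upp hzo'
  -- the edge row
  have erow : ν.row G i q₀ = zo.1 - To := by
    unfold NV31.row
    rw [eT, em, ← eTo, ← hzo2]
  have enr : ν.nr i = 2 * To := by
    unfold NV31.nr
    rw [eT, em, ← eTo]
  have ecn : ν.cn G i q₀ (sl μ s) = z.2 + sl μ s * (((zo.1 - To : ℕ) : ℝ) - z.1) := by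
    unfold NV31.cn
    rw [erow, ← hz]
  have ecn' : ν.cn' G i q₀ (sl μ s) = z.2 + sl μ s * (((zo.1 + To : ℕ) : ℝ) - z.1) := by
    unfold NV31.cn'
    rw [ecn, enr, Nat.cast_sub hzo']
    push_cast
    ring
  have hD31 := hω.1.2.1.2
  have eE : ν.E i = EE μ s To := by rw [N.eE, ← eTo]
  have ew : ν.w i = wd μ s To := by rw [N.ew, ← eTo]
  have W1 : ν.W1 i ≤ kk.w₁ * wd μ s To := by rw [eTo]; exact N.hW1 i
  have W1' : ν.W1' i = kk.w₁' * wd μ s To := by rw [eTo]; exact N.eW1' i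
  have W21 : kk.w₁' * wd μ s To ≤ ν.W2 i := by rw [eTo]; exact N.hW21 i
  have W12 : ν.W1 i ≤ ν.W2 i := W1.trans ((mul_le_mul_of_nonneg_right hw1 hwo0.le).trans W21)
  have key : ∀ x : ℤ, |(x : ℝ) - (z.2 + sl μ s * (((zo.1 - To : ℕ) : ℝ) - z.1))| ≤ ν.W2 i → 0 ≤ x ∧ x ≤ ((zo.1 - To : ℕ) : ℤ) := fun x hx => by
    rw [← ecn] at hx
    have h2 := fwl58 (pos58 hD31 W12 hx)
    rwa [erow] at h2
  have hzz : zo.1 - To + To = zo.1 := Nat.sub_add_cancel hzo'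
  have hN : zo.1 + To + 1 ≤ Γ.N := by
    rw [hzo2]
    exact hN58 hS hTn
  have hhi : (Γ.N : ℤ) ≤ Γ.hi := by
    unfold Cx.hi
    omega
  have Ke0 : 0 ≤ Ke := hD.trans hKe
  have hW3 : (Ke + 2) * wd μ s To + 1 ≤ ν.W2 i := by
    have h2 := mul_le_mul_of_nonneg_right hw' hwo0.le
    linarith
  have hT' : σ.T i ≤ z.1 := by omega
  have eLn0 : Ln μ s z (σ.c0 i z) = z.2 + sl μ s * (1 - σ.T i) := Ln_c0 hT'
  have ec0 : ((σ.c0 i z : ℕ) : ℝ) = z.1 - σ.T i + 1 := by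
    unfold NS47.c0
    rw [Nat.cast_add, Nat.cast_sub hT']
    push_cast
    ring
  have ero : zo.1 - To + T + 1 = σ.c0 i z := by
    unfold NS47.c0
    rw [hσ]
    omega
  have hDw : D * wd μ s Ti ≤ Ke * wd μ s To := mul_le_mul hKe hww (h0.wd_nonneg Ti) Ke0
  have ewi : ∀ α β : ℤ, α ≤ β → σ.α₁ i ≤ α → β ≤ σ.β₂ i → |(mid z.2 α β : ℝ) - Ln μ s z (σ.c0 i z)| ≤ Ke * wd μ s To := fun α β hab h2 h3 => by
    obtain ⟨m1, m2⟩ := mid_bd (z := z) hab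
    have h4 := col.cell (y := mid z.2 α β - z.2) (by omega) (by omega)
    rw [eLn0]
    have e : ((mid z.2 α β - z.2 : ℤ) : ℝ) - sl μ s * (1 - σ.T i) = (mid z.2 α β : ℝ) - (z.2 + sl μ s * (1 - σ.T i)) := by
      push_cast
      ring
    rw [e] at h4
    exact h4.trans hDw
  have h5 := col.ab1
  have h6 := col.ab2
  have h7 := col.gap
  rw [← hz]
  exact
    { sΓ := sΓ
      ok := ok
      eTo := by rw [eT, em, eTo]
      eP := N.eP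
      ec₁ := N.ec₁
      ec₃ := N.ec₃
      eQ := N.eQ
      eS := N.eS
      eE := eE
      ew := ew
      W1 := W1
      W1' := W1'
      W2 := by rw [eTo]; exact N.hW2 i
      W21 := W21
      g := by
        have h2 := N.hg i
        rw [← eTo] at h2
        linarith
      q1 := by rw [eTo]; exact N.hq₁ i
      q2 := by rw [eTo]; exact N.hq₂ i
      gf := by rw [eTo]; exact N.hgf i
      zo := hzo
      z0 := by rw [hσ, ← hz]; exact z0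
      low := by rw [hσ, em, ← hz, ← hzo2]; exact low
      upp := by rw [hσ, em, ← hz, ← hzo2]; exact upp
      N := by
        rw [em, ← hzo2]
        omega
      h1 := h1
      hι := hι
      box := fun x hx => by
        rw [ecn] at hx
        obtain ⟨h2, h3⟩ := key x (hx.trans W21)
        rw [mem_Icc]
        omega
      boxS := fun y hy => by
        rw [← hz] at hy ⊢
        have h2 : Ln μ s z (σ.c0 i z) = z.2 + sl μ s * (((σ.c0 i z : ℕ) : ℝ) - z.1) := rfl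
        rw [h2] at hy
        obtain ⟨h3, h4⟩ := col7 key sl0.le sl1.le (by omega) (by positivity) hy hW3
        rw [mem_Icc]
        omega
      yp := by
        rw [ecn']
        have h2 := Int.floor_le ((z.2 : ℝ) + sl μ s * (((zo.1 + To : ℕ) : ℝ) - z.1))
        have h3 := Int.lt_floor_add_one ((z.2 : ℝ) + sl μ s * (((zo.1 + To : ℕ) : ℝ) - z.1))
        obtain ⟨h4, h5⟩ := col7 (k := zo.1 + To) (D := 1) key sl0.le sl1.le (by omega) (by norm_num)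
          (x := ⌊(z.2 : ℝ) + sl μ s * (((zo.1 + To : ℕ) : ℝ) - z.1)⌋) (by
            rw [abs_le]
            constructor <;> linarith) (by nlinarith)
        rw [mem_Icc]
        omega
      e1 := by rw [← hz]; exact ewi _ _ h5 le_rfl (by omega)
      e2 := by rw [← hz]; exact ewi _ _ h6 (by omega) le_rfl
      sB := by
        have m1 : ((mid z.2 (σ.α₁ i) (σ.β₁ i) : ℤ) : ℝ) ≤ z.2 + σ.β₁ i := by exact_mod_cast (mid_bd (z := z) h5).2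
        have m2 : (z.2 : ℝ) + σ.α₂ i ≤ ((mid z.2 (σ.α₂ i) (σ.β₂ i) : ℤ) : ℝ) := by exact_mod_cast (mid_bd (z := z) h6).1
        linarith
      reach := fun y hy => by
        rw [← hz, eLn0, abs_le] at hy
        rw [ecn']
        obtain ⟨Y, hY⟩ : ∃ Y : ℝ, Y = (z.2 : ℝ) + sl μ s * (((zo.1 + To : ℕ) : ℝ) - z.1) := ⟨_, rfl⟩
        obtain ⟨Dr, hDr⟩ : ∃ Dr : ℝ, Dr = 2 * Ti + n₃ := ⟨_, rfl⟩
        rw [← hY]
        have h8' : (To : ℝ) ≤ 8 * n₃ := by exact_mod_cast h8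
        have hT0 : (0 : ℝ) ≤ Ti := Nat.cast_nonneg _
        have e8 : (z.1 : ℝ) + Ti + 1 + n₃ = zo.1 + To := by exact_mod_cast upp
        have eY : Y = (z.2 : ℝ) + sl μ s * (1 - σ.T i) + sl μ s * Dr := by
          rw [hY, hDr, hσ]
          push_cast
          rw [← e8]
          ring
        have hDr8 : (To : ℝ) ≤ 8 * Dr := by
          rw [hDr]
          linarith
        have g1 : sl μ s * To ≤ 8 * (sl μ s * Dr) := by
          have := mul_le_mul_of_nonneg_left hDr8 sl0.le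
          linarith
        have g2 : (1 - sl μ s) * To ≤ 8 * ((1 - sl μ s) * Dr) := by
          have := mul_le_mul_of_nonneg_left hDr8 (show 0 ≤ 1 - sl μ s by linarith)
          linarith
        have f1 := Int.floor_le Y
        have f2 := Int.lt_floor_add_one Y
        constructor
        · have h2 : (y : ℝ) ≤ (⌊Y⌋ : ℝ) := by linarith
          exact_mod_cast h2
        · have h2 : ((⌊Y⌋ : ℤ) : ℝ) ≤ y + Dr := by linarith
          rw [hDr] at h2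
          have h3 : ⌊Y⌋ ≤ y + (2 * Ti + n₃) := by exact_mod_cast h2
          rw [hσ]
          omega
      mp := by
        rw [← hz]
        have h2 : σ.c3 i z = z.1 + Ti + 1 := by
          unfold NS47.c3
          rw [hσ]
        have h3 := col.zc
        obtain ⟨h4, h5⟩ := col7 (k := σ.c3 i z) (x := z.2 + σ.ζc i) (D := (Ke + 2) * wd μ s To) key sl0.le sl1.le (by omega)
          (by positivity) (by
            have e : ((z.2 + σ.ζc i : ℤ) : ℝ) - (z.2 + sl μ s * (((σ.c3 i z : ℕ) : ℝ) - z.1)) = (σ.ζc i : ℝ) - sl μ s * (1 + σ.T i) := by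
              rw [h2, hσ]
              push_cast
              ring
            rw [e]
            linarith) hW3
        rw [mem_Icc]
        omega }

/-- **The thresholds** : every multiple of the width is small against the height. -/
theorem wT7 (h0 : In μ s c C n₀) (X : ℝ) : ∃ n₁ : ℕ, 1 ≤ n₁ ∧ ∀ T : ℕ, n₁ ≤ T → 8 * (X * wd μ s T + 1) ≤ sl μ s * T ∧
    8 * (X * wd μ s T + 1) ≤ (1 - sl μ s) * T := by
  obtain ⟨sl0, sl1⟩ := sl_mem (μ := μ) h0.em h0.nd s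
  obtain ⟨v, hv⟩ : ∃ v : ℝ, v = min (sl μ s) (1 - sl μ s) := ⟨_, rfl⟩
  have v0 : 0 < v := by rw [hv]; exact lt_min sl0 (by linarith)
  have v1 : v ≤ sl μ s := by rw [hv]; exact min_le_left _ _
  have v2 : v ≤ 1 - sl μ s := by rw [hv]; exact min_le_right _ _
  have hX : 0 < 16 * (|X| + 1) := by positivity
  obtain ⟨n₁, hn₁⟩ := eventually_atTop.1 (h0.tv.eventually_lt_const (show (0 : ℝ) < v / (16 * (|X| + 1)) by positivity))
  obtain ⟨n₂, hn₂⟩ := exists_nat_ge (16 / v)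
  refine ⟨max (max n₁ n₂) 1, le_max_right _ _, fun T hT => ?_⟩
  have t1 := hn₁ T (((le_max_left _ _).trans (le_max_left _ _)).trans hT)
  have t2 : 16 / v ≤ T := hn₂.trans (by exact_mod_cast ((le_max_right _ _).trans (le_max_left _ _)).trans hT)
  rw [lt_div_iff₀ hX] at t1
  rw [div_le_iff₀ v0] at t2
  have hT0 : (0 : ℝ) ≤ T := Nat.cast_nonneg _
  have hA := h0.wd_nonneg T
  have e : wd μ s T = T * vA 1 μ s T := rfl
  have t3 : 16 * ((|X| + 1) * wd μ s T) ≤ v * T := by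
    rw [e]
    have := mul_le_mul_of_nonneg_left t1.le hT0
    linarith
  have t4 : X * wd μ s T ≤ (|X| + 1) * wd μ s T := mul_le_mul_of_nonneg_right (by linarith [le_abs_self X]) hA
  have t5 : 8 * (X * wd μ s T + 1) ≤ v * T := by linarith
  exact ⟨t5.trans (mul_le_mul_of_nonneg_right v1 hT0), t5.trans (mul_le_mul_of_nonneg_right v2 hT0)⟩

end

end Pool.Agent.W_7d29a1_C1.N7
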