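import Pool.Agent.W_7d29a1_C1.RatG22
import Pool.Agent.W_7d29a1_C1.Pos25

/-!
MP_7d29a1_pr, [C1] attractor route, SEP: events which read the rows `[ra - 1, re]` of the window only (any columns): `Stb.rows`; from a
congruence in the weights; the upper kernels `KiS` of RatG22 (they read a strip wider than the window); events of the content. (helper37)
-/

set_option autoImplicit false

namespace Pool.Agent.W_7d29a1_C1.P25

open Finset MeasureTheory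
open Pool.Agent.W_7d29a1_F
open Pool.Agent.W_7d29a1_C1.K91 (wt)
open Pool.Agent.W_7d29a1_C1.S71 (Off)
open Pool.Agent.W_7d29a1_C1.H60
open Pool.Agent.W_7d29a1_C1.G37 (Gm)
open Pool.Agent.W_7d29a1_C1.SF98
open Pool.Agent.W_7d29a1_C1.Rt22 (KiS meas_KiS kiS_congr)

noncomputable section

variable {Γ : Cx} {G : Gm} {mt q τ0 : ℕ} {dR d smax : ℕ → ℝ}

/-- The sites off the rows `[ra - 1, re]`. -/
def offR (G : Gm) (v : ℕ) (κ : ℤ × ℤ) : Set Pt := {p : Pt | ¬ ((G.ra v κ : ℤ) - 1 ≤ p.1 ∧ p.1 ≤ G.re v κ)}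

theorem win_offR {u v : ℕ} {κ κ' : ℤ × ℤ} (h : Pos G q u κ v κ') (h0 : 0 ≤ G.rcc u κ) : G.win u κ ⊆ offR G v κ' := by
  intro p hp
  have h3 := G.win_rows hp
  have e1 := G.re_cast h0
  have e2 := G.ra_cast h0
  rintro ⟨a1, a2⟩
  cases h with
  | mid _ hr _ =>
    have : (G.re u κ : ℤ) + 1 ≤ G.ra v κ' := by exact_mod_cast hr
    linarith [h3.2]
  | out _ hr _ =>
    have : (G.re u κ : ℤ) + 1 ≤ G.ra v κ' := by exact_mod_cast hr
    linarith [h3.2]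
  | low _ hr =>
    have : (G.re v κ' : ℤ) + 1 ≤ G.ra u κ := by exact_mod_cast hr
    linarith [h3.1]

/-- **An event of the rows `[ra - 1, re]`.** -/
theorem Stb.rows {Lv : ℕ → ℤ × ℤ → Set Env} (hm : ∀ u κ, MeasurableSet (Lv u κ))
    (ho : ∀ v κ, 0 ≤ G.rcc v κ → Off (offR G v κ) (Lv v κ)) : Stb Γ G mt q τ0 dR d smax fun _ => Lv where
  meas _ u κ := hm u κ
  mono _ _ _ _ _ := le_rfl
  tr u κ v κ' _ _ h3 h4 h5 ω η _ _ _ h8 := by
    obtain ⟨c, -, hc⟩ := h3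
    obtain ⟨c', -, hc'⟩ := h4
    exact (((ho v κ' (G.rcc_nonneg ⟨c', hc'⟩)).mono (win_offR h5 (G.rcc_nonneg ⟨c, hc⟩))).gl η ω).2 h8

theorem wt_eq {ω ω' : Env} {k : ℕ} {y : ℤ} (h : ω (((k : ℤ), y) : Pt) = ω' (((k : ℤ), y) : Pt)) : wt ω k y = wt ω' k y := by
  unfold wt
  split_ifs
  · rfl
  · rw [h]

/-- From a congruence in the weights of the rows `[ra - 1, re]`. -/
theorem off_of_wt {v : ℕ} {κ : ℤ × ℤ} {S : Set Env}
    (h : ∀ ω ω' : Env, (∀ k y, G.ra v κ - 1 ≤ k → k ≤ G.re v κ → wt ω k y = wt ω' k y) → ω ∈ S → ω' ∈ S) : Off (offR G v κ) S := by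
  have key : ∀ ω ω' : Env, (∀ p, p ∉ offR G v κ → ω p = ω' p) → ω ∈ S → ω' ∈ S := fun ω ω' he => h ω ω' fun k y h1 h2 => by
    refine wt_eq (he _ ?_)
    intro h3
    refine h3 ⟨?_, ?_⟩
    · show (G.ra v κ : ℤ) - 1 ≤ (k : ℤ)
      omega
    · show (k : ℤ) ≤ G.re v κ
      omega
  exact fun ω ω' he => ⟨key ω ω' he, key ω' ω fun p hp => (he p hp).symm⟩

theorem off_KiS {γ : ℕ → ℤ → ℝ} {b A X : ℝ} (v : ℕ) (κ : ℤ × ℤ) : Off (offR G v κ) (KiS Γ G γ b A X v κ) :=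
  off_of_wt fun _ _ h => kiS_congr h

/-- **`Stb` of the upper kernels.** -/
theorem stb_KiS (γ : ℕ → ℤ → ℝ) (b A X : ℕ → ℝ) : Stb Γ G mt q τ0 dR d smax (fun _ u κ => KiS Γ G γ (b u) (A u) (X u) u κ) :=
  Stb.rows (fun _ _ => meas_KiS _ _ _ _ _) fun v κ _ => off_KiS v κ

/-- An event of the content of the window reads the rows `[ra - 1, re]` only. -/
theorem off_win {v : ℕ} {κ : ℤ × ℤ} (h0 : 0 ≤ G.rcc v κ) {S : Set Env} (h : Off (G.win v κ)ᶜ S) : Off (offR G v κ) S := by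
  refine h.mono fun p hp hw => hp ?_
  have h3 := G.win_rows hw
  have e1 := G.re_cast h0
  have e2 := G.ra_cast h0
  constructor
  · linarith [h3.1]
  · linarith [h3.2]

theorem offR_inter {v : ℕ} {κ : ℤ × ℤ} {S S' : Set Env} (h : Off (offR G v κ) S) (h' : Off (offR G v κ) S') : Off (offR G v κ) (S ∩ S') :=
  h.inter h'

theorem offR_compl {v : ℕ} {κ : ℤ × ℤ} {S : Set Env} (h : Off (offR G v κ) S) : Off (offR G v κ) Sᶜ :=
  fun ω ω' he => not_congr (h ω ω' he)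

end

end Pool.Agent.W_7d29a1_C1.P25
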