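import Pool.Agent.W_7d29a1_C1.StayG78
import Pool.Agent.W_7d29a1_C1.Pos25

/-!
MP_7d29a1_pr, [C1] attractor route, SEP: `Stb` OF THE STAY EVENT, the field `sSt` of `In25` (helper78)

* `lv_off` : the changed sites `B` are off a set `P` which contains the strip's successors: `lv' ≤ E₁ lv` on `P`;
* `St_out` : a window beside the strip is changed : `St β → St (β - 2 d)`;
* **`stb_St`** : `Stb` of `St Γ G aS bS (be u - sg) u κ` for the three positions `mid`, `out`, `low`;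
* `St_sub78` : the field `St_sub`.
-/

set_option autoImplicit false

namespace Pool.Agent.W_7d29a1_C1.Sy78

open Finset MeasureTheory
open Pool.Agent.W_7d29a1_F hiding Bw G
open Pool.Agent.W_7d29a1_h4g Pool.Agent.W_7d29a1_HS
open Pool.Agent.W_7d29a1_H hiding ex gg
open Pool.Agent.W_7d29a1_C1.K91 (wt wt_pos measurable_wt)
open Pool.Agent.W_7d29a1_C1.K91P (fw bw bw_pos bw_succ bw_zero)
open Pool.Agent.W_7d29a1_C1.H60
open Pool.Agent.W_7d29a1_C1.G37 (Gm)
open Pool.Agent.W_7d29a1_C1.P25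
open Pool.Agent.W_7d29a1_C1.SF98 (FS mem_FS)

noncomputable section

/-- **The changed sites are beside the strip.** -/
theorem lv_off {w w' : ℕ → ℤ → ℝ} {p : ℕ → ℝ} {N e k₀ : ℕ} {S B P : Set (ℕ × ℤ)} {E₁ : ℝ} (R : Rt w w' p N k₀ B E₁)
    (hPB : ∀ k y, (k, y) ∈ P → (k, y) ∉ B)
    (hP : ∀ k y, (k, y) ∈ P → (k, y) ∈ S → (k + 1, y) ∈ P ∧ (k + 1, y + 1) ∈ P) {k : ℕ} (hk : k₀ ≤ k) {y : ℤ} (hy : (k, y) ∈ P) :
    lv w' p N S e k y ≤ E₁ * lv w p N S e k y := by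
  have hE : 0 ≤ E₁ := by linarith [R.one]
  refine down (e := e) (k₁ := k₀) (P := fun k y => (k, y) ∈ P → lv w' p N S e k y ≤ E₁ * lv w p N S e k y)
    (fun k hk y _ => ?_) (fun k hk1 hk ih y hy => ?_) k hk y hy
  · show lv w' p N S e k y ≤ E₁ * lv w p N S e k y
    rw [lv_stop hk, lv_stop hk, mul_zero]
  · show lv w' p N S e k y ≤ E₁ * lv w p N S e k y
    by_cases hS : (k, y) ∈ S
    · obtain ⟨h1, h2⟩ := hP k y hy hS
      rw [lv_in hk hS, lv_in hk hS, R.eq k y hk1 (hPB k y hy)]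
      have h3 := mul_le_mul_of_nonneg_left (add_le_add (ih y h1) (mul_le_mul_of_nonneg_left (ih (y + 1) h2) (R.hp k).le)) (R.hw k y).le
      refine h3.trans (le_of_eq ?_)
      ring
    · rw [lv_out hk hS, lv_out hk hS]
      exact R.up k y hk1 (hPB k y hy)

variable {Γ : Cx} {G : Gm}

/-- **A window beside the strip is changed.** -/
theorem St_out {a b β d : ℝ} {u v : ℕ} {κ κ' : ℤ × ℤ} (hv0 : 0 ≤ G.v) (hv1 : G.v ≤ 1) (hab : a ≤ b)
    (hout : b * G.w v + G.kw * G.w u + 2 < |G.ctr u κ' - G.ctr v κ|) (hd : 0 ≤ d) {η ω : Env}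
    (hr : RtO Γ (O22.Bw G u κ') ω (G.R u κ' η ω) (rl G v κ) d) (h : ω ∈ St Γ G a b β v κ) :
    G.R u κ' η ω ∈ St Γ G a b (β - 2 * d) v κ := by
  have hw := G.w_pos v
  intro k y hk
  have hk0 : rl G v κ ≤ k := by
    have := hk.1
    simp only at this
    unfold rl
    omega
  obtain ⟨P, hP⟩ : ∃ P : Set (ℕ × ℤ), P = {c | |G.lat c - G.ctr v κ| ≤ b * G.w v + 1} := ⟨_, rfl⟩
  have hPm : ∀ k y, (k, y) ∈ P ↔ |G.lat (k, y) - G.ctr v κ| ≤ b * G.w v + 1 := fun k y => by rw [hP]; rfl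
  have hPB : ∀ k y, (k, y) ∈ P → (k, y) ∉ O22.Bw G u κ' := by
    intro k y h1 h2
    have h3 := (hPm k y).1 h1
    have h4 := lat_win h2
    have e1 : G.ctr u κ' - G.ctr v κ = (G.lat (k, y) - G.ctr v κ) - (G.lat (k, y) - G.ctr u κ') := by ring
    rw [e1] at hout
    have h5 := abs_sub (G.lat (k, y) - G.ctr v κ) (G.lat (k, y) - G.ctr u κ')
    linarith
  have hyP : (k, y) ∈ P := by
    rw [hPm]
    have h1 := hk.2.2
    have h2 := mul_le_mul_of_nonneg_right hab hw.le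
    linarith
  have R := rt_of hd hr
  have key := lv_off (S := sp G v κ b) (P := P) (e := sr Γ G v κ) R hPB (fun k y _ hS => by
    have h1 : |G.lat (k, y) - G.ctr v κ| ≤ b * G.w v := hS
    rw [hPm, hPm]
    exact lat_succ hv0 hv1 k y h1) hk0 hyP
  have h2 := h k y hk
  have h3 := R.dn k y hk0 (hPB k y hyP)
  have hE : 0 ≤ Real.exp d := (Real.exp_pos _).le
  calc lv (wt (G.R u κ' η ω)) Γ.p Γ.N (sp G v κ b) (sr Γ G v κ) k y ≤ Real.exp d * lv (wt ω) Γ.p Γ.N (sp G v κ b) (sr Γ G v κ) k y := key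
    _ ≤ Real.exp d * (Real.exp (-β) * (Real.exp d * bw (wt (G.R u κ' η ω)) Γ.p k (Γ.N - k) y)) :=
        mul_le_mul_of_nonneg_left (h2.trans (mul_le_mul_of_nonneg_left h3 (Real.exp_pos _).le)) hE
    _ = _ := by
        rw [show -(β - 2 * d) = d + d + -β by ring, Real.exp_add, Real.exp_add]
        ring

/-- The ratio off the window, as `RtO`. -/
theorem rtO_of_RoW {u : ℕ} {κ' : ℤ × ℤ} {d : ℝ} {ω ω' : Env} (h : RoW Γ G u κ' d ω ω') (k₀ : ℕ) : RtO Γ (O22.Bw G u κ') ω ω' k₀ d :=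
  RtO.of h.up h.dn le_rfl k₀

/-- **`Stb` OF `St`.** -/
theorem stb_St {mt q τ0 : ℕ} {dR d smax be : ℕ → ℝ} {aS bS : ℝ} (hv0 : 0 ≤ G.v) (hv1 : G.v ≤ 1) (ha : 5 / 2 ≤ aS) (hab : aS ≤ bS)
    (hb : bS + 5 / 2 ≤ 2 * G.kn) (hkw : 4 * G.kw ≤ 2 ^ q) (hw12 : ∀ v, τ0 < v → 12 ≤ G.w v) (hdR : ∀ u, τ0 < u → 0 ≤ dR u)
    (hd : ∀ u, τ0 < u → c78 G (dR u) u ≤ 2 * d u) :
    Stb Γ G mt q τ0 dR d smax (fun sg u κ => St Γ G aS bS (be u - sg) u κ) where
  meas sg u κ := meas_St Γ G _ _ _ _ _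
  mono sg sg' u κ h := St_mono le_rfl (by linarith)
  tr u κ v κ' h1 h2 h3 h4 h5 ω η hR sg hsg hω := by
    obtain ⟨c, -, hc⟩ := h3
    have h0 : 0 ≤ G.rcc u κ := G.rcc_nonneg ⟨c, hc⟩
    have hr := rtO_of_RoW hR (rl G v κ')
    have hdu := hdR u h1
    have hcu := hd u h1
    have hlog : 0 ≤ Real.log (1 + G.T u) := Real.log_nonneg (by have : (0 : ℝ) ≤ G.T u := Nat.cast_nonneg _; linarith)
    have h2d : 2 * dR u ≤ 2 * d u := by
      unfold c78 at hcu
      linarith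
    have hwu := G.w_pos u
    have num : u + q ≤ v → G.kw * G.w u + 3 ≤ G.w v / 2 := by
      intro huv
      have g1 : 2 ^ q * G.w u ≤ G.w v := (FA25.w_pow (G := G) u q).trans (G.w_mono huv)
      have g2 := mul_le_mul_of_nonneg_right hkw hwu.le
      have g3 := hw12 v (by omega)
      linarith
    cases h5 with
    | mid huv hrr hl =>
      refine St_mono le_rfl (show be v - (sg + 2 * d u) ≤ be v - sg - c78 G (dR u) u by linarith)
        (St_RO (β := be v - sg) hv0 hv1 hab ?_ hdu hr hω)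
      have g1 := num huv
      have g2 := mul_le_mul_of_nonneg_right ha (G.w_pos v).le
      linarith
    | out huv hrr hl =>
      refine St_mono le_rfl (show be v - (sg + 2 * d u) ≤ be v - sg - 2 * dR u by linarith)
        (St_out (β := be v - sg) hv0 hv1 hab ?_ hdu hr hω)
      have g1 := num huv
      have g2 := mul_le_mul_of_nonneg_right hb (G.w_pos v).le
      linarith
    | low huv hrr =>
      refine St_mono le_rfl (show be v - (sg + 2 * d u) ≤ be v - sg - 2 * dR u by linarith)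
        (St_up (β := be v - sg) (up_of ?_) hdu hr hω)
      have g1 := G.ra_le_re v κ'
      have g2 := G.ra_cast h0
      omega

/-- The field `St_sub` of `In25`. -/
theorem St_sub78 {be sl βS : ℕ → ℝ} {aS bS : ℝ} {u : ℕ} (h : βS u + sl (u - 1) ≤ be u) (κ : ℤ × ℤ) :
    St Γ G aS bS (be u - sl (u - 1)) u κ ⊆ St Γ G aS bS (βS u) u κ := St_mono le_rfl (by linarith)

end

end Pool.Agent.W_7d29a1_C1.Sy78
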