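import Pool.Agent.W_7d29a1_C1.Lat74

/-!
MP_7d29a1_pr, attractor route [C1], SEP, STAY (helper78): THE LEAVE MASS AND ITS TRANSPORT, deterministic part.

Model K91P. `lv w p N S e k y` = mass of the routes from the site `(k, y)` which visit a site off `S` in a row `< e`.

* `lv_nonneg`, `lv_le`, `lv_in`, `lv_out`, `lv_stop`, `lv_mono` ;
* `bF_le_lv` : the mass of the routes which are off `S` at ONE row `e' < e` is at most the leave mass;
* `lv_A`, `lv_B`, **`lv_tr`** : two environments equal off `B`, backward masses comparable (factor `E₁`) at the sites OFF `B` of the rows `≥ k₀`;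
  if `lv ≤ ε bw` at all successors of the sites of `B`, then for every site `lv' ≤ E₁² (ε₀ + (rows of B) ε) bw'`, where `ε₀` is the
  quotient `lv / bw` at the site itself.
-/

set_option autoImplicit false

namespace Pool.Agent.W_7d29a1_C1.Sy78

open Finset
open Pool.Agent.W_7d29a1_C1.K91P (fw bw fw_zero fw_succ bw_zero bw_succ bw_pos)
open Pool.Agent.W_7d29a1_C1.Sp22 (bf bf_zero bf_succ bf_nonneg Har har_bw har_bf bf_mono bf_bw)
open Pool.Agent.W_7d29a1_C1.Lt74 (bF bF_nonneg har_bF)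

noncomputable section

variable {w w' : ℕ → ℤ → ℝ} {p : ℕ → ℝ} {N e : ℕ} {S B : Set (ℕ × ℤ)}

open Classical in
/-- The leave mass, `j` rows before the stop. -/
def lf (w : ℕ → ℤ → ℝ) (p : ℕ → ℝ) (N : ℕ) (S : Set (ℕ × ℤ)) : ℕ → ℕ → ℤ → ℝ
  | _, 0, _ => 0
  | k, j + 1, y => if (k, y) ∈ S then w k y * (lf w p N S (k + 1) j y + p k * lf w p N S (k + 1) j (y + 1)) else bw w p k (N - k) y

/-- The leave mass: routes from `(k, y)` which visit a site off `S` in a row `< e`. -/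
def lv (w : ℕ → ℤ → ℝ) (p : ℕ → ℝ) (N : ℕ) (S : Set (ℕ × ℤ)) (e k : ℕ) (y : ℤ) : ℝ := lf w p N S k (e - k) y

theorem lv_stop {k : ℕ} (h : e ≤ k) (y : ℤ) : lv w p N S e k y = 0 := by
  unfold lv
  rw [Nat.sub_eq_zero_of_le h]
  cases k <;> rfl

theorem lv_in {k : ℕ} (h : k < e) {y : ℤ} (hS : (k, y) ∈ S) :
    lv w p N S e k y = w k y * (lv w p N S e (k + 1) y + p k * lv w p N S e (k + 1) (y + 1)) := by
  unfold lv
  have e1 : e - k = e - (k + 1) + 1 := by omega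
  rw [e1]
  exact if_pos hS

theorem lv_out {k : ℕ} (h : k < e) {y : ℤ} (hS : (k, y) ∉ S) : lv w p N S e k y = bw w p k (N - k) y := by
  unfold lv
  have e1 : e - k = e - (k + 1) + 1 := by omega
  rw [e1]
  exact if_neg hS

/-- Induction from the last row on. -/
theorem down {P : ℕ → ℤ → Prop} {k₁ : ℕ} (h0 : ∀ k, e ≤ k → ∀ y, P k y)
    (h1 : ∀ k, k₁ ≤ k → k < e → (∀ y, P (k + 1) y) → ∀ y, P k y) : ∀ k, k₁ ≤ k → ∀ y, P k y := by
  have key : ∀ j k, k₁ ≤ k → e ≤ k + j → ∀ y, P k y := by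
    intro j
    induction j with
    | zero => intro k _ h y; exact h0 k h y
    | succ j ih =>
      intro k hk h y
      rcases lt_or_ge k e with h2 | h2
      · exact h1 k hk h2 (fun z => ih (k + 1) (by omega) (by omega) z) y
      · exact h0 k h2 y
  exact fun k hk y => key e k hk (by omega) y

theorem bwN (he : e ≤ N) {k : ℕ} (h : k < e) (y : ℤ) :
    bw w p k (N - k) y = w k y * (bw w p (k + 1) (N - (k + 1)) y + p k * bw w p (k + 1) (N - (k + 1)) (y + 1)) :=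
  har_bw w p N k (lt_of_lt_of_le h he) y

theorem lv_nonneg (hw : ∀ k y, 0 < w k y) (hp : ∀ k, 0 < p k) (k : ℕ) (y : ℤ) : 0 ≤ lv w p N S e k y := by
  refine down (e := e) (k₁ := 0) (P := fun k y => 0 ≤ lv w p N S e k y) (fun k hk y => ?_) (fun k _ hk ih y => ?_) k (Nat.zero_le _) y
  · show 0 ≤ lv w p N S e k y
    rw [lv_stop hk]
  · show 0 ≤ lv w p N S e k y
    by_cases hS : (k, y) ∈ S
    · rw [lv_in hk hS]
      exact mul_nonneg (hw k y).le (add_nonneg (ih y) (mul_nonneg (hp k).le (ih (y + 1))))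
    · rw [lv_out hk hS]
      exact (bw_pos hw hp _ _ _).le

theorem lv_le (hw : ∀ k y, 0 < w k y) (hp : ∀ k, 0 < p k) (he : e ≤ N) (k : ℕ) (y : ℤ) :
    lv w p N S e k y ≤ bw w p k (N - k) y := by
  refine down (e := e) (k₁ := 0) (P := fun k y => lv w p N S e k y ≤ bw w p k (N - k) y) (fun k hk y => ?_) (fun k _ hk ih y => ?_)
    k (Nat.zero_le _) y
  · show lv w p N S e k y ≤ _
    rw [lv_stop hk]
    exact (bw_pos hw hp _ _ _).le
  · show lv w p N S e k y ≤ _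
    by_cases hS : (k, y) ∈ S
    · rw [lv_in hk hS, bwN he hk]
      exact mul_le_mul_of_nonneg_left (add_le_add (ih y) (mul_le_mul_of_nonneg_left (ih (y + 1)) (hp k).le)) (hw k y).le
    · rw [lv_out hk hS]

/-- A bigger strip: less is lost. -/
theorem lv_mono (hw : ∀ k y, 0 < w k y) (hp : ∀ k, 0 < p k) (he : e ≤ N) {S' : Set (ℕ × ℤ)} {k₁ : ℕ}
    (h : ∀ k y, k₁ ≤ k → k < e → (k, y) ∈ S → (k, y) ∈ S') {k : ℕ} (hk : k₁ ≤ k) (y : ℤ) : lv w p N S' e k y ≤ lv w p N S e k y := by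
  refine down (e := e) (k₁ := k₁) (P := fun k y => lv w p N S' e k y ≤ lv w p N S e k y) (fun k hk y => ?_) (fun k hk1 hk ih y => ?_) k hk y
  · show lv w p N S' e k y ≤ lv w p N S e k y
    rw [lv_stop hk, lv_stop hk]
  · show lv w p N S' e k y ≤ lv w p N S e k y
    by_cases hS : (k, y) ∈ S
    · rw [lv_in hk hS, lv_in hk (h k y hk1 hk hS)]
      exact mul_le_mul_of_nonneg_left (add_le_add (ih y) (mul_le_mul_of_nonneg_left (ih (y + 1)) (hp k).le)) (hw k y).le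
    · rw [lv_out hk hS]
      exact lv_le hw hp he k y

/-- A later stop: more is lost. -/
theorem lv_stop_mono (hw : ∀ k y, 0 < w k y) (hp : ∀ k, 0 < p k) {e' : ℕ} (h : e ≤ e') (k : ℕ) (y : ℤ) :
    lv w p N S e k y ≤ lv w p N S e' k y := by
  refine down (e := e) (k₁ := 0) (P := fun k y => lv w p N S e k y ≤ lv w p N S e' k y) (fun k hk y => ?_) (fun k _ hk ih y => ?_)
    k (Nat.zero_le _) y
  · show lv w p N S e k y ≤ lv w p N S e' k y
    rw [lv_stop hk]
    exact lv_nonneg hw hp k y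
  · show lv w p N S e k y ≤ lv w p N S e' k y
    by_cases hS : (k, y) ∈ S
    · rw [lv_in hk hS, lv_in (lt_of_lt_of_le hk h) hS]
      exact mul_le_mul_of_nonneg_left (add_le_add (ih y) (mul_le_mul_of_nonneg_left (ih (y + 1)) (hp k).le)) (hw k y).le
    · rw [lv_out hk hS, lv_out (lt_of_lt_of_le hk h) hS]

/-- The leave mass reads the weights of the rows `≥ k`. -/
theorem lv_congr (he : e ≤ N) {k₁ : ℕ} (h : ∀ k, k₁ ≤ k → w k = w' k) (hb : ∀ k, k₁ ≤ k → ∀ y, bw w p k (N - k) y = bw w' p k (N - k) y)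
    {k : ℕ} (hk : k₁ ≤ k) (y : ℤ) : lv w p N S e k y = lv w' p N S e k y := by
  refine down (e := e) (k₁ := k₁) (P := fun k y => lv w p N S e k y = lv w' p N S e k y) (fun k hk y => ?_) (fun k hk1 hk ih y => ?_) k hk y
  · show lv w p N S e k y = lv w' p N S e k y
    rw [lv_stop hk, lv_stop hk]
  · show lv w p N S e k y = lv w' p N S e k y
    by_cases hS : (k, y) ∈ S
    · rw [lv_in hk hS, lv_in hk hS, ih y, ih (y + 1), h k hk1]
    · rw [lv_out hk hS, lv_out hk hS, hb k hk1 y]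

/-- **One row.** -/
theorem bF_le_lv (hw : ∀ k y, 0 < w k y) (hp : ∀ k, 0 < p k) (he : e ≤ N) {e' : ℕ} (h : e' < e) {F : Finset ℤ} {k : ℕ} (hk : k ≤ e') {y : ℤ}
    (hF : ∀ z ∈ F, y ≤ z → z ≤ y + (e' - k : ℕ) → (e', z) ∉ S) : bF w p N e' F k y ≤ lv w p N S e k y := by
  have key : ∀ (j k : ℕ) (y : ℤ), k + j = e' → (∀ z ∈ F, y ≤ z → z ≤ y + (j : ℕ) → (e', z) ∉ S) →
      bf w p (fun y => if y ∈ F then bw w p e' (N - e') y else 0) k j y ≤ lv w p N S e k y := by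
    intro j
    induction j with
    | zero =>
      intro k y hk hF
      have e1 : k = e' := by omega
      subst e1
      rw [bf_zero]
      show (if y ∈ F then bw w p k (N - k) y else 0) ≤ _
      split_ifs with hy
      · rw [lv_out h (hF y hy le_rfl (by simp))]
      · exact lv_nonneg hw hp k y
    | succ j ih =>
      intro k y hk hF
      by_cases hS : (k, y) ∈ S
      · rw [bf_succ, lv_in (by omega) hS]
        have i1 := ih (k + 1) y (by omega) fun z hz h1 h2 => hF z hz h1 (by push_cast; omega)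
        have i2 := ih (k + 1) (y + 1) (by omega) fun z hz h1 h2 => hF z hz (by omega) (by push_cast; omega)
        exact mul_le_mul_of_nonneg_left (add_le_add i1 (mul_le_mul_of_nonneg_left i2 (hp k).le)) (hw k y).le
      · rw [lv_out (by omega) hS]
        have h1 : bf w p (fun y => if y ∈ F then bw w p e' (N - e') y else 0) k (j + 1) y ≤
            bf w p (bw w p (k + (j + 1)) (N - e')) k (j + 1) y := by
          refine bf_mono (fun k y => (hw k y).le) hp (fun z => ?_) _ _ _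
          rw [hk]
          show (if z ∈ F then bw w p e' (N - e') z else 0) ≤ _
          split_ifs
          · exact le_rfl
          · exact (bw_pos hw hp _ _ _).le
        rw [bf_bw, show j + 1 + (N - e') = N - k by omega] at h1
        exact h1
  exact key (e' - k) k y (by omega) hF

/-! ### Transport -/

/-- The two environments: equal off `B`, backward masses comparable AT THE SITES OFF `B`. -/
structure Rt (w w' : ℕ → ℤ → ℝ) (p : ℕ → ℝ) (N k₀ : ℕ) (B : Set (ℕ × ℤ)) (E₁ : ℝ) : Prop where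
  hw : ∀ k y, 0 < w k y
  hw' : ∀ k y, 0 < w' k y
  hp : ∀ k, 0 < p k
  one : 1 ≤ E₁
  eq : ∀ k y, k₀ ≤ k → (k, y) ∉ B → w' k y = w k y
  up : ∀ k y, k₀ ≤ k → (k, y) ∉ B → bw w' p k (N - k) y ≤ E₁ * bw w p k (N - k) y
  dn : ∀ k y, k₀ ≤ k → (k, y) ∉ B → bw w p k (N - k) y ≤ E₁ * bw w' p k (N - k) y

variable {k₀ : ℕ} {E₁ : ℝ}

theorem Rt.symm (R : Rt w w' p N k₀ B E₁) : Rt w' w p N k₀ B E₁ :=
  ⟨R.hw', R.hw, R.hp, R.one, fun k y h1 h2 => (R.eq k y h1 h2).symm, R.dn, R.up⟩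

theorem Rt.mono (R : Rt w w' p N k₀ B E₁) {k₁ : ℕ} {B' : Set (ℕ × ℤ)} {E₂ : ℝ} (hk : k₀ ≤ k₁) (hB : ∀ k y, k₁ ≤ k → (k, y) ∈ B → (k, y) ∈ B')
    (hE : E₁ ≤ E₂) : Rt w w' p N k₁ B' E₂ :=
  ⟨R.hw, R.hw', R.hp, R.one.trans hE, fun k y h1 h2 => R.eq k y (hk.trans h1) fun h => h2 (hB k y h1 h),
    fun k y h1 h2 => (R.up k y (hk.trans h1) fun h => h2 (hB k y h1 h)).trans (mul_le_mul_of_nonneg_right hE (bw_pos R.hw R.hp _ _ _).le),
    fun k y h1 h2 => (R.dn k y (hk.trans h1) fun h => h2 (hB k y h1 h)).trans (mul_le_mul_of_nonneg_right hE (bw_pos R.hw' R.hp _ _ _).le)⟩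

/-- (A) A bound on `B` gives a bound everywhere. -/
theorem lv_A (R : Rt w w' p N k₀ B E₁) (he : e ≤ N) {s : ℝ} {k₁ : ℕ} (hk₁ : k₀ ≤ k₁)
    (hB : ∀ k y, k₁ ≤ k → (k, y) ∈ B → lv w' p N S e k y ≤ s * bw w' p k (N - k) y) (hs : 0 ≤ s) {k : ℕ} (hk : k₁ ≤ k) (y : ℤ) :
    lv w' p N S e k y ≤ E₁ * lv w p N S e k y + s * bw w' p k (N - k) y := by
  have hE : 0 ≤ E₁ := by linarith [R.one]
  refine down (e := e) (k₁ := k₁) (P := fun k y => lv w' p N S e k y ≤ E₁ * lv w p N S e k y + s * bw w' p k (N - k) y)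
    (fun k hk y => ?_) (fun k hk1 hk ih y => ?_) k hk y
  · show lv w' p N S e k y ≤ E₁ * lv w p N S e k y + s * bw w' p k (N - k) y
    rw [lv_stop hk, lv_stop hk, mul_zero, zero_add]
    exact mul_nonneg hs (bw_pos R.hw' R.hp _ _ _).le
  · show lv w' p N S e k y ≤ E₁ * lv w p N S e k y + s * bw w' p k (N - k) y
    by_cases hyB : (k, y) ∈ B
    · have h1 := hB k y hk1 hyB
      have h2 := mul_nonneg hE (lv_nonneg (S := S) (e := e) (N := N) R.hw R.hp k y)
      linarith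
    · by_cases hS : (k, y) ∈ S
      · rw [lv_in hk hS, lv_in hk hS, bwN he hk, R.eq k y (hk₁.trans hk1) hyB]
        have h1 := mul_le_mul_of_nonneg_left (add_le_add (ih y) (mul_le_mul_of_nonneg_left (ih (y + 1)) (R.hp k).le)) (R.hw k y).le
        refine h1.trans (le_of_eq ?_)
        ring
      · rw [lv_out hk hS, lv_out hk hS]
        have h1 := R.up k y (hk₁.trans hk1) hyB
        have h2 := mul_nonneg hs (bw_pos R.hw' R.hp (N - k) k y).le
        linarith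

/-- (B) The rows of `B`, from the last one on. -/
theorem lv_B (R : Rt w w' p N k₀ B E₁) (he : e ≤ N) {ε : ℝ} (hε : 0 ≤ ε) {b₁ : ℕ} (hb : ∀ k y, k₀ ≤ k → (k, y) ∈ B → k < b₁)
    (hBS : ∀ k y, k₀ ≤ k → k < e → (k, y) ∈ B → (k, y) ∈ S)
    (hG : ∀ k y, k₀ ≤ k → k + 1 < e → (k, y) ∈ B → lv w p N S e (k + 1) y ≤ ε * bw w p (k + 1) (N - (k + 1)) y ∧
      lv w p N S e (k + 1) (y + 1) ≤ ε * bw w p (k + 1) (N - (k + 1)) (y + 1)) :
    ∀ (m k : ℕ) (y : ℤ), k₀ ≤ k → b₁ ≤ k + m → (k, y) ∈ B → lv w' p N S e k y ≤ (m : ℝ) * (E₁ ^ 2 * ε) * bw w' p k (N - k) y := by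
  have hE : 0 ≤ E₁ := by linarith [R.one]
  intro m
  induction m with
  | zero =>
    intro k y hk hm hy
    have := hb k y hk hy
    omega
  | succ m ih =>
    intro k y hk hm hy
    have hs : 0 ≤ (m : ℝ) * (E₁ ^ 2 * ε) := by positivity
    rcases lt_or_ge k e with hke | hke
    · have hA := fun z => lv_A (S := S) R he (s := (m : ℝ) * (E₁ ^ 2 * ε)) (k₁ := k + 1) (by omega)
        (fun k' y' h1 h2 => ih k' y' (by omega) (by omega) h2) hs (le_refl (k + 1)) z
      have step : ∀ z, (k + 1 < e → lv w p N S e (k + 1) z ≤ ε * bw w p (k + 1) (N - (k + 1)) z) →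
          lv w' p N S e (k + 1) z ≤ ((m : ℝ) + 1) * (E₁ ^ 2 * ε) * bw w' p (k + 1) (N - (k + 1)) z := by
        intro z hz
        have hb' := bw_pos R.hw' R.hp (N - (k + 1)) (k + 1) z
        rcases lt_or_ge (k + 1) e with h3 | h3
        · by_cases hzB : (k + 1, z) ∈ B
          · have h4 := ih (k + 1) z (by omega) (by omega) hzB
            refine h4.trans (mul_le_mul_of_nonneg_right ?_ hb'.le)
            have : 0 ≤ E₁ ^ 2 * ε := by positivity
            linarith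
          · have h4 := hz h3
            have h5 := R.dn (k + 1) z (by omega) hzB
            have h6 : E₁ * lv w p N S e (k + 1) z ≤ E₁ ^ 2 * ε * bw w' p (k + 1) (N - (k + 1)) z := by
              calc E₁ * lv w p N S e (k + 1) z ≤ E₁ * (ε * bw w p (k + 1) (N - (k + 1)) z) := mul_le_mul_of_nonneg_left h4 hE
                _ ≤ E₁ * (ε * (E₁ * bw w' p (k + 1) (N - (k + 1)) z)) :=
                    mul_le_mul_of_nonneg_left (mul_le_mul_of_nonneg_left h5 hε) hE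
                _ = _ := by ring
            have h7 := hA z
            have e3 : ((m : ℝ) + 1) * (E₁ ^ 2 * ε) * bw w' p (k + 1) (N - (k + 1)) z =
                E₁ ^ 2 * ε * bw w' p (k + 1) (N - (k + 1)) z + (m : ℝ) * (E₁ ^ 2 * ε) * bw w' p (k + 1) (N - (k + 1)) z := by ring
            rw [e3]
            linarith
        · rw [lv_stop h3]
          positivity
      have g1 := step y fun h3 => (hG k y hk h3 hy).1
      have g2 := step (y + 1) fun h3 => (hG k y hk h3 hy).2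
      rw [lv_in hke (hBS k y hk hke hy), bwN he hke]
      have h8 := mul_le_mul_of_nonneg_left (add_le_add g1 (mul_le_mul_of_nonneg_left g2 (R.hp k).le)) (R.hw' k y).le
      refine h8.trans (le_of_eq ?_)
      push_cast
      ring
    · rw [lv_stop hke]
      have := bw_pos R.hw' R.hp (N - k) k y
      positivity

/-- **THE TRANSPORT OF THE LEAVE PROBABILITY.** `n` = number of the rows of `B`. -/
theorem lv_tr (R : Rt w w' p N k₀ B E₁) (he : e ≤ N) {ε ε₀ : ℝ} (hε : 0 ≤ ε) {b₀ b₁ : ℕ}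
    (hb : ∀ k y, k₀ ≤ k → (k, y) ∈ B → b₀ ≤ k ∧ k < b₁)
    (hBS : ∀ k y, k₀ ≤ k → k < e → (k, y) ∈ B → (k, y) ∈ S)
    (hG : ∀ k y, k₀ ≤ k → k + 1 < e → (k, y) ∈ B → lv w p N S e (k + 1) y ≤ ε * bw w p (k + 1) (N - (k + 1)) y ∧
      lv w p N S e (k + 1) (y + 1) ≤ ε * bw w p (k + 1) (N - (k + 1)) (y + 1))
    {k : ℕ} (hk : k₀ ≤ k) {y : ℤ} (h0 : lv w p N S e k y ≤ ε₀ * bw w p k (N - k) y) (hε₀ : 0 ≤ ε₀) :
    lv w' p N S e k y ≤ E₁ ^ 2 * (ε₀ + ((b₁ - b₀ : ℕ) : ℝ) * ε) * bw w' p k (N - k) y := by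
  have hE : 0 ≤ E₁ := by linarith [R.one]
  have hBb : ∀ k' y', k₀ ≤ k' → (k', y') ∈ B → lv w' p N S e k' y' ≤ ((b₁ - b₀ : ℕ) : ℝ) * (E₁ ^ 2 * ε) * bw w' p k' (N - k') y' :=
    fun k' y' h1 h2 => lv_B R he hε (fun k y h3 h4 => (hb k y h3 h4).2) hBS hG (b₁ - b₀) k' y' h1 (by
      have := hb k' y' h1 h2
      omega) h2
  have hb' := bw_pos R.hw' R.hp (N - k) k y
  have e1 : E₁ ^ 2 * (ε₀ + ((b₁ - b₀ : ℕ) : ℝ) * ε) * bw w' p k (N - k) y =
      E₁ ^ 2 * ε₀ * bw w' p k (N - k) y + ((b₁ - b₀ : ℕ) : ℝ) * (E₁ ^ 2 * ε) * bw w' p k (N - k) y := by ring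
  by_cases hyB : (k, y) ∈ B
  · have h1 := hBb k y hk hyB
    rw [e1]
    have h2 : 0 ≤ E₁ ^ 2 * ε₀ * bw w' p k (N - k) y := by positivity
    linarith
  · have h1 := lv_A (S := S) R he (s := ((b₁ - b₀ : ℕ) : ℝ) * (E₁ ^ 2 * ε)) (k₁ := k₀) le_rfl hBb (by positivity) hk y
    have h2 := R.dn k y hk hyB
    have h3 : E₁ * lv w p N S e k y ≤ E₁ ^ 2 * ε₀ * bw w' p k (N - k) y := by
      calc E₁ * lv w p N S e k y ≤ E₁ * (ε₀ * bw w p k (N - k) y) := mul_le_mul_of_nonneg_left h0 hE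
        _ ≤ E₁ * (ε₀ * (E₁ * bw w' p k (N - k) y)) := mul_le_mul_of_nonneg_left (mul_le_mul_of_nonneg_left h2 hε₀) hE
        _ = _ := by ring
    rw [e1]
    linarith

end

end Pool.Agent.W_7d29a1_C1.Sy78
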