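import Pool.Agent.W_7d29a1_C1.Stay78

/-!
MP_7d29a1_pr, attractor route [C1], SEP, STAY (helper78): STAY FROM KERNEL ENVELOPES, deterministic part.

* `lv_le_sum` : the leave mass is at most the sum over the rows of the mass which is off `S` at that row;
* **`stay_env`** : upper envelope for ALL starts of the rows `k₁ ≤ k < i ≤ r` (cost `U` of the distance of the start from the centre,
  linear decay in the skew), lower bound from the box to one site `z₀` of the row `r`, growth of `bw` at the row `r` with small slope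
  ==> leave probability `≤ exp (-β E)` from every site of the box, if the strip is wide enough.
-/

set_option autoImplicit false

namespace Pool.Agent.W_7d29a1_C1.Sy78

open Finset
open Pool.Agent.W_7d29a1_C1.K91P (fw bw fw_zero fw_succ bw_zero bw_succ bw_pos)
open Pool.Agent.W_7d29a1_C1.Sp22 (bf bf_zero bf_succ bf_nonneg bf_ker)
open Pool.Agent.W_7d29a1_C1.U16 (ker ker_zero ker_nonneg ker_eq_zero bw_ker)

noncomputable section

variable {w : ℕ → ℤ → ℝ} {p : ℕ → ℝ} {N e : ℕ} {S : Set (ℕ × ℤ)}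

open Classical in
/-- The backward mass of the sites of the row `i` off `S`. -/
def gS (w : ℕ → ℤ → ℝ) (p : ℕ → ℝ) (N : ℕ) (S : Set (ℕ × ℤ)) (i : ℕ) (z : ℤ) : ℝ := if (i, z) ∈ S then 0 else bw w p i (N - i) z

theorem gS_nonneg (hw : ∀ k y, 0 < w k y) (hp : ∀ k, 0 < p k) (i : ℕ) (z : ℤ) : 0 ≤ gS w p N S i z := by
  classical
  unfold gS
  split_ifs
  · exact le_rfl
  · exact (bw_pos hw hp _ _ _).le

/-- The leave mass, row by row. -/
theorem lv_le_sum (hw : ∀ k y, 0 < w k y) (hp : ∀ k, 0 < p k) (k : ℕ) (y : ℤ) :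
    lv w p N S e k y ≤ ∑ i ∈ Ico k e, bf w p (gS w p N S i) k (i - k) y := by
  refine down (e := e) (k₁ := 0) (P := fun k y => lv w p N S e k y ≤ ∑ i ∈ Ico k e, bf w p (gS w p N S i) k (i - k) y)
    (fun k hk y => ?_) (fun k _ hk ih y => ?_) k (Nat.zero_le _) y
  · show lv w p N S e k y ≤ _
    rw [lv_stop hk, Ico_eq_empty (by omega), sum_empty]
  · show lv w p N S e k y ≤ _
    have hnn : ∀ i, 0 ≤ bf w p (gS w p N S i) k (i - k) y := fun i => bf_nonneg (fun k y => (hw k y).le) hp (gS_nonneg hw hp i) _ _ _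
    rw [sum_eq_sum_Ico_succ_bot hk]
    by_cases hS : (k, y) ∈ S
    · rw [lv_in hk hS]
      have h1 : ∑ i ∈ Ico (k + 1) e, bf w p (gS w p N S i) k (i - k) y =
          w k y * (∑ i ∈ Ico (k + 1) e, bf w p (gS w p N S i) (k + 1) (i - (k + 1)) y +
            p k * ∑ i ∈ Ico (k + 1) e, bf w p (gS w p N S i) (k + 1) (i - (k + 1)) (y + 1)) := by
        rw [mul_sum, ← sum_add_distrib, mul_sum]
        refine sum_congr rfl fun i hi => ?_
        have := mem_Ico.1 hi
        rw [show i - k = i - (k + 1) + 1 by omega, bf_succ]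
      rw [h1]
      have h2 := mul_le_mul_of_nonneg_left (add_le_add (ih y) (mul_le_mul_of_nonneg_left (ih (y + 1)) (hp k).le)) (hw k y).le
      have h3 := hnn k
      linarith
    · rw [lv_out hk hS]
      have h1 : bf w p (gS w p N S k) k (k - k) y = bw w p k (N - k) y := by
        rw [Nat.sub_self, bf_zero]
        exact if_neg hS
      rw [h1]
      have h2 : 0 ≤ ∑ i ∈ Ico (k + 1) e, bf w p (gS w p N S i) k (i - k) y := sum_nonneg fun i _ => hnn i
      linarith

/-- One end. -/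
theorem ker_bw_le (hw : ∀ k y, 0 < w k y) (hp : ∀ k, 0 < p k) {k r : ℕ} (hk : k ≤ r) (hr : r ≤ N) (y z : ℤ) :
    ker w p k (r - k) y z * bw w p r (N - r) z ≤ bw w p k (N - k) y := by
  have e1 : N - k = (r - k) + (N - r) := by omega
  rw [e1, bw_ker]
  rw [show k + (r - k) = r by omega]
  by_cases hz : y ≤ z ∧ z ≤ y + ((r - k : ℕ) : ℤ)
  · exact single_le_sum (f := fun z => ker w p k (r - k) y z * bw w p r (N - r) z)
      (fun v _ => mul_nonneg (ker_nonneg hw hp _ _ _ _) (bw_pos hw hp _ _ _).le) (mem_Icc.2 hz)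
  · rw [ker_eq_zero _ _ _ _ hz, zero_mul]
    exact sum_nonneg fun v _ => mul_nonneg (ker_nonneg hw hp _ _ _ _) (bw_pos hw hp _ _ _).le

/-- **STAY FROM ENVELOPES.** -/
theorem stay_env (hw : ∀ k y, 0 < w k y) (hp : ∀ k, 0 < p k) {r : ℕ} (hN : r ≤ N) (her : e ≤ r) {L : ℕ → ℤ → ℝ}
    {ctr W E c' a b σ CU Q₁ Q₂ β : ℝ} {ρ : ℕ → ℤ → ℝ} (hρ : ∀ k y, 0 < ρ k y) {A : ℕ → ℕ → ℝ} {U : ℝ → ℝ} {k₁ : ℕ} {z₀ : ℤ}
    (hW : 0 < W) (hE : 0 ≤ E) (hc : 0 < c') (hσ0 : 0 ≤ σ) (hσ : σ ≤ c' / 4) (hab : a ≤ b)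
    (hU : ∀ X, 0 ≤ X → U X ≤ c' / 4 * X + CU) (hA : ∀ k i, k₁ ≤ k → k ≤ i → i ≤ r → A k i * A i r = A k r) (hA0 : ∀ k i, 0 ≤ A k i)
    (up : ∀ k i y z, k₁ ≤ k → k < i → i ≤ r → ker w p k (i - k) y z ≤
      ρ k y / ρ i z * (A k i * Real.exp (U (|L k y - ctr| / W) * E - c' * (E / W) * |L i z - L k y|)))
    (hz₀ : |L r z₀ - ctr| ≤ W)
    (D2 : ∀ v, bw w p r (N - r) v / ρ r v ≤ Real.exp (Q₂ * E + σ * (E / W) * |L r v - L r z₀|) * (bw w p r (N - r) z₀ / ρ r z₀))
    (hS : ∀ i z, i < e → (i, z) ∉ S → b * W < |L i z - ctr|) (hn : ((r - k₁ : ℕ) : ℝ) + 1 ≤ Real.exp E)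
    (hβ : β + (2 * CU + 5 / 4 * c' * a + Q₁ + Q₂ + σ + 3) ≤ c' / 2 * b)
    {k : ℕ} (hk : k₁ ≤ k) {y : ℤ} (hy : |L k y - ctr| ≤ a * W)
    (lo : k < e → ρ k y / ρ r z₀ * (A k r * Real.exp (-(Q₁ * E))) ≤ ker w p k (r - k) y z₀) :
    lv w p N S e k y ≤ Real.exp (-(β * E)) * bw w p k (N - k) y := by
  classical
  have hbk := bw_pos hw hp (N - k) k y
  rcases le_or_gt e k with hke | hke
  · rw [lv_stop hke]
    positivity
  obtain ⟨B, hB⟩ : ∃ B, B = bw w p r (N - r) z₀ / ρ r z₀ := ⟨_, rfl⟩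
  have hB0 : 0 < B := by rw [hB]; exact div_pos (bw_pos hw hp _ _ _) (hρ _ _)
  have hA1 : 0 ≤ A k r := hA0 k r
  obtain ⟨cst, hcst⟩ : ∃ cst, cst = 2 * CU + 5 / 4 * c' * a + Q₂ + σ - c' / 2 * b := ⟨_, rfl⟩
  -- one term
  have term : ∀ i z v, k < i → i < e → (i, z) ∉ S → ker w p k (i - k) y z * (ker w p i (r - i) z v * bw w p r (N - r) v) ≤
      ρ k y * A k r * Real.exp (cst * E) * B := by
    intro i z v hki hie hz
    have u1 := up k i y z hk hki (by omega)
    have u2 := up i r z v (by omega) (by omega) le_rfl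
    have d2 := D2 v
    rw [← hB] at d2
    have hρk := hρ k y
    have hρi := hρ i z
    have hρv := hρ r v
    rw [div_le_iff₀ hρv] at d2
    obtain ⟨f1, hf1⟩ : ∃ f, f = Real.exp (U (|L k y - ctr| / W) * E - c' * (E / W) * |L i z - L k y|) := ⟨_, rfl⟩
    obtain ⟨f2, hf2⟩ : ∃ f, f = Real.exp (U (|L i z - ctr| / W) * E - c' * (E / W) * |L r v - L i z|) := ⟨_, rfl⟩
    obtain ⟨f3, hf3⟩ : ∃ f, f = Real.exp (Q₂ * E + σ * (E / W) * |L r v - L r z₀|) := ⟨_, rfl⟩
    rw [← hf1] at u1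
    rw [← hf2] at u2
    rw [← hf3] at d2
    have p1 : 0 < f1 := by rw [hf1]; exact Real.exp_pos _
    have p2 : 0 < f2 := by rw [hf2]; exact Real.exp_pos _
    have p3 : 0 < f3 := by rw [hf3]; exact Real.exp_pos _
    have k0 := ker_nonneg hw hp k (i - k) y z
    have k1 := ker_nonneg hw hp i (r - i) z v
    have b0 := bw_pos hw hp (N - r) r v
    have s1 : ker w p i (r - i) z v * bw w p r (N - r) v ≤ ρ i z / ρ r v * (A i r * f2) * (f3 * B * ρ r v) :=
      mul_le_mul u2 d2 b0.le (k1.trans u2)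
    have s2 : ker w p k (i - k) y z * (ker w p i (r - i) z v * bw w p r (N - r) v) ≤
        ρ k y / ρ i z * (A k i * f1) * (ρ i z / ρ r v * (A i r * f2) * (f3 * B * ρ r v)) :=
      mul_le_mul u1 s1 (mul_nonneg k1 b0.le) (k0.trans u1)
    have e1 : ρ k y / ρ i z * (A k i * f1) * (ρ i z / ρ r v * (A i r * f2) * (f3 * B * ρ r v)) = ρ k y * (A k i * A i r) * (f1 * f2 * f3) * B := by
      field_simp
    rw [e1, hA k i hk hki.le (by omega)] at s2
    refine s2.trans ?_
    have h5 : f1 * f2 * f3 ≤ Real.exp (cst * E) := by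
      rw [hf1, hf2, hf3, ← Real.exp_add, ← Real.exp_add]
      refine Real.exp_le_exp.2 ?_
      have hEW : 0 ≤ E / W := by positivity
      obtain ⟨D, hD⟩ : ∃ D, D = |L i z - ctr| / W := ⟨_, rfl⟩
      obtain ⟨X, hX⟩ : ∃ X, X = |L r v - L i z| / W := ⟨_, rfl⟩
      obtain ⟨Y, hY⟩ : ∃ Y, Y = |L k y - ctr| / W := ⟨_, rfl⟩
      have hD0 : 0 ≤ D := by rw [hD]; positivity
      have hX0 : 0 ≤ X := by rw [hX]; positivity
      have hY0 : 0 ≤ Y := by rw [hY]; positivity
      have hYa : Y ≤ a := by rw [hY, div_le_iff₀ hW]; exact hy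
      have hDb : b ≤ D := by
        rw [hD, le_div_iff₀ hW]
        exact (hS i z hie hz).le
      have g1 : |L i z - L k y| / W ≥ D - Y := by
        rw [hD, hY, ge_iff_le, ← sub_div]
        refine div_le_div_of_nonneg_right ?_ hW.le
        have := abs_sub_abs_le_abs_sub (L i z - ctr) (L k y - ctr)
        rwa [show L i z - ctr - (L k y - ctr) = L i z - L k y by ring] at this
      have g2 : |L r v - L r z₀| / W ≤ X + D + 1 := by
        rw [hX, hD, div_le_iff₀ hW, add_mul, add_mul, div_mul_cancel₀ _ hW.ne', div_mul_cancel₀ _ hW.ne', one_mul]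
        have t1 := abs_add_le (L r v - L i z) (L i z - ctr)
        have t2 := abs_sub (L r v - ctr) (L r z₀ - ctr)
        rw [show L r v - L i z + (L i z - ctr) = L r v - ctr by ring] at t1
        rw [show L r v - ctr - (L r z₀ - ctr) = L r v - L r z₀ by ring] at t2
        linarith
      have m1 : E / W * |L i z - L k y| = E * (|L i z - L k y| / W) := by ring
      have m2 : E / W * |L r v - L i z| = E * X := by rw [hX]; ring
      have m3 : E / W * |L r v - L r z₀| = E * (|L r v - L r z₀| / W) := by ring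
      rw [← hD, ← hY, mul_assoc c', mul_assoc c', mul_assoc σ, m1, m2, m3]
      have u3 := hU Y hY0
      have u4 := hU D hD0
      have q1 : U Y - c' * (|L i z - L k y| / W) + (U D - c' * X) + (Q₂ + σ * (|L r v - L r z₀| / W)) ≤ cst := by
        rw [hcst]
        have v1 := mul_le_mul_of_nonneg_left g1 hc.le
        have v2 := mul_le_mul_of_nonneg_left g2 hσ0
        have v3 : σ * X ≤ c' / 4 * X := mul_le_mul_of_nonneg_right hσ hX0
        have v4 : σ * D ≤ c' / 4 * D := mul_le_mul_of_nonneg_right hσ hD0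
        have v5 : c' / 2 * b ≤ c' / 2 * D := mul_le_mul_of_nonneg_left hDb (by linarith)
        have v6 : c' / 4 * Y ≤ c' / 4 * a := mul_le_mul_of_nonneg_left hYa (by linarith)
        have v7 : c' * Y ≤ c' * a := mul_le_mul_of_nonneg_left hYa hc.le
        have v8 : 0 ≤ c' * X := by positivity
        nlinarith
      have q2 := mul_le_mul_of_nonneg_right q1 hE
      calc _ = (U Y - c' * (|L i z - L k y| / W) + (U D - c' * X) + (Q₂ + σ * (|L r v - L r z₀| / W))) * E := by ring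
        _ ≤ cst * E := q2
    have h6 : 0 ≤ ρ k y * A k r := mul_nonneg hρk.le hA1
    exact mul_le_mul_of_nonneg_right (mul_le_mul_of_nonneg_left h5 h6) hB0.le
  -- the sum
  obtain ⟨Tm, hTm⟩ : ∃ Tm, Tm = ρ k y * A k r * Real.exp (cst * E) * B := ⟨_, rfl⟩
  have hTm0 : 0 ≤ Tm := by
    rw [hTm]
    have := hρ k y
    positivity
  obtain ⟨n, hnn⟩ : ∃ n : ℝ, n = ((r - k₁ : ℕ) : ℝ) + 1 := ⟨_, rfl⟩
  have hn1 : 1 ≤ n := by rw [hnn]; have : (0 : ℝ) ≤ ((r - k₁ : ℕ) : ℝ) := Nat.cast_nonneg _; linarith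
  have row : ∀ i ∈ Ico k e, bf w p (gS w p N S i) k (i - k) y ≤ n * (n * Tm) := by
    intro i hi
    obtain ⟨h1, h2⟩ := mem_Ico.1 hi
    rcases eq_or_lt_of_le h1 with h3 | h3
    · subst h3
      have hkS : (k, y) ∈ S := by
        by_contra h4
        have h5 := hS k y h2 h4
        have h6 := mul_le_mul_of_nonneg_right hab hW.le
        linarith
      rw [Nat.sub_self, bf_zero]
      have h4 : gS w p N S k y = 0 := if_pos hkS
      rw [h4]
      positivity
    · rw [bf_ker]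
      have h4 : ∀ z ∈ Icc y (y + ((i - k : ℕ) : ℤ)), ker w p k (i - k) y z * gS w p N S i z ≤ n * Tm := by
        intro z _
        by_cases hz : (i, z) ∈ S
        · have h5 : gS w p N S i z = 0 := if_pos hz
          rw [h5, mul_zero]
          positivity
        · have h5 : gS w p N S i z = bw w p i (N - i) z := if_neg hz
          rw [h5, show N - i = (r - i) + (N - r) by omega, bw_ker, show i + (r - i) = r by omega, mul_sum]
          refine (sum_le_card_nsmul _ _ Tm fun v _ => ?_).trans ?_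
          · rw [hTm]
            exact term i z v h3 h2 hz
          · rw [nsmul_eq_mul, Int.card_Icc]
            refine mul_le_mul_of_nonneg_right ?_ hTm0
            rw [hnn]
            have h6 : (z + ((r - i : ℕ) : ℤ) + 1 - z).toNat ≤ (r - k₁) + 1 := by omega
            exact_mod_cast h6
      refine (sum_le_card_nsmul _ _ (n * Tm) h4).trans ?_
      rw [nsmul_eq_mul, Int.card_Icc]
      refine mul_le_mul_of_nonneg_right ?_ (by positivity)
      rw [hnn]
      have h6 : (y + ((i - k : ℕ) : ℤ) + 1 - y).toNat ≤ (r - k₁) + 1 := by omega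
      exact_mod_cast h6
  have tot : lv w p N S e k y ≤ n * (n * (n * Tm)) := by
    refine (lv_le_sum hw hp k y).trans ((sum_le_card_nsmul _ _ _ row).trans ?_)
    rw [nsmul_eq_mul, Nat.card_Ico]
    refine mul_le_mul_of_nonneg_right ?_ (by positivity)
    rw [hnn]
    have h6 : e - k ≤ (r - k₁) + 1 := by omega
    exact_mod_cast h6
  have low : ρ k y * A k r * Real.exp (-(Q₁ * E)) * B ≤ bw w p k (N - k) y := by
    refine le_trans ?_ (ker_bw_le hw hp (by omega : k ≤ r) hN y z₀)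
    have h1 := lo hke
    have h2 := bw_pos hw hp (N - r) r z₀
    have h3 := mul_le_mul_of_nonneg_right h1 h2.le
    refine le_trans (le_of_eq ?_) h3
    rw [hB]
    have := hρ r z₀
    field_simp
  have hn3 : n * (n * (n * Tm)) ≤ Real.exp (3 * E) * Tm := by
    have h1 : n * (n * n) ≤ Real.exp E * (Real.exp E * Real.exp E) := by
      have h0 : n ≤ Real.exp E := by rw [hnn]; exact hn
      have h2 : n * n ≤ Real.exp E * Real.exp E := mul_le_mul h0 h0 (by linarith) (Real.exp_pos _).le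
      exact mul_le_mul h0 h2 (by positivity) (Real.exp_pos _).le
    have h2 : Real.exp (3 * E) = Real.exp E * (Real.exp E * Real.exp E) := by
      rw [← Real.exp_add, ← Real.exp_add]
      congr 1
      ring
    rw [h2]
    calc n * (n * (n * Tm)) = n * (n * n) * Tm := by ring
      _ ≤ _ := mul_le_mul_of_nonneg_right h1 hTm0
  refine tot.trans (hn3.trans ?_)
  have fin : Real.exp (3 * E) * Tm ≤ Real.exp (-(β * E)) * (ρ k y * A k r * Real.exp (-(Q₁ * E)) * B) := by
    have h1 : Real.exp (3 * E) * Real.exp (cst * E) ≤ Real.exp (-(β * E)) * Real.exp (-(Q₁ * E)) := by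
      rw [← Real.exp_add, ← Real.exp_add]
      refine Real.exp_le_exp.2 ?_
      have h2 : (3 + cst) * E ≤ (-β - Q₁) * E := mul_le_mul_of_nonneg_right (by rw [hcst]; linarith) hE
      linarith
    have h2 : 0 ≤ ρ k y * A k r * B := by
      have := hρ k y
      positivity
    calc Real.exp (3 * E) * Tm = Real.exp (3 * E) * Real.exp (cst * E) * (ρ k y * A k r * B) := by rw [hTm]; ring
      _ ≤ Real.exp (-(β * E)) * Real.exp (-(Q₁ * E)) * (ρ k y * A k r * B) := mul_le_mul_of_nonneg_right h1 h2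
      _ = _ := by ring
  exact fin.trans (mul_le_mul_of_nonneg_left low (Real.exp_pos _).le)

end

end Pool.Agent.W_7d29a1_C1.Sy78
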