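import Pool.Agent.W_7d29a1_C1.SucP44
import Pool.Agent.W_7d29a1_C1.SucI44
import Pool.Agent.W_7d29a1_C1.SucS46
import Pool.Agent.W_7d29a1_C1.GeoR58

/-!
Both halves (MP_7d29a1_pr), attractor route [C1], SHELL: **`LsU` FROM `LsP44`.** (helper44)

`lsU44 : In, (units ≥ n ^ (1/9)), LsP44 ⇒ LsU` : the choices `K₂`, `θ`, `Kw`, `χ`, the costs as a polynomial in `1 + U`, `wU`, `ge`, `v1U`, `a₉`, the events
(`gridN8`, tilt, `suc9_pcs46`, cross ratio), the inside (`ins44`) and the columns (`geo58`) at the place.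
-/

set_option autoImplicit false

namespace Pool.Agent.W_7d29a1_C1.Lt44

open MeasureTheory ProbabilityTheory Filter Topology Finset
open Pool.Agent.W_7d29a1_F Pool.Agent.W_7d29a1_h4g Pool.Agent.W_7d29a1_H Pool.Agent.W_7d29a1_HS
open Pool.Agent.W_7d29a1_C1.T10 Pool.Agent.W_7d29a1_C1.S71
open Pool.Agent.W_7d29a1_C1.H60 (Cx Adm exists_chi60)
open Pool.Agent.W_7d29a1_C1.H8
open Pool.Agent.W_7d29a1_C1.H54
open Pool.Agent.W_7d29a1_C1.D31 (NV31)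
open Pool.Agent.W_7d29a1_C1.JnC35 (ln35)
open Pool.Agent.W_7d29a1_C1.Ge58
open Pool.Agent.W_7d29a1_C1.F45
open Pool.Agent.W_7d29a1_C1.S46 (suc9_pcs46)

noncomputable section

variable {μ : Measure ℝ} {s : ℝ} [IsProbabilityMeasure μ] {c C : ℝ} {n₀ : ℕ}

/-- The costs are a polynomial in `1 + U`. -/
theorem num44 {A U B₀ : ℝ} (hA : 0 ≤ A) (hU : 0 ≤ U) (hB : 0 ≤ B₀) (pp : ℕ) :
    B₀ * (1 + A * (1 + U) ^ 4 + A * (1 + U) ^ 2) ^ pp ≤ B₀ * (1 + 2 * A) ^ pp * (1 + U) ^ (4 * pp) := by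
  have h1 : 1 ≤ (1 + U) ^ 2 := one_le_pow₀ (by linarith)
  have h2 : (1 + U) ^ 4 = (1 + U) ^ 2 * (1 + U) ^ 2 := by ring
  have h3 : (1 + U) ^ 2 ≤ (1 + U) ^ 4 := by
    rw [h2]
    nlinarith
  have h4 : 1 ≤ (1 + U) ^ 4 := h1.trans h3
  have h5 : 1 + A * (1 + U) ^ 4 + A * (1 + U) ^ 2 ≤ (1 + 2 * A) * (1 + U) ^ 4 := by
    have := mul_le_mul_of_nonneg_left h3 hA
    nlinarith
  have h6 : 0 ≤ 1 + A * (1 + U) ^ 4 + A * (1 + U) ^ 2 := by positivity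
  calc B₀ * (1 + A * (1 + U) ^ 4 + A * (1 + U) ^ 2) ^ pp ≤ B₀ * ((1 + 2 * A) * (1 + U) ^ 4) ^ pp :=
        mul_le_mul_of_nonneg_left (pow_le_pow_left₀ h6 h5 _) hB
    _ = _ := by
        rw [mul_pow, ← pow_mul]
        ring

/-- The lanes are shorter than the ball. -/
theorem TFle44 {i : LnI} {o : LnO} (h : o.Ok i) {Q : ℕ} (hQ : 1 ≤ Q) {th : ℝ} (hth : 0 < th) (hth1 : th ≤ 1 / 4) (T : ℕ → ℕ) (j : ℕ) :
    TF45 th o Q T j ≤ T j := by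
  have hR := R145_pos h hQ
  have h1 : TF45 th o Q T j ≤ R145 o Q * kF th (R145 o Q) (T j) := by
    rw [← nMTF45]
    exact Nat.le_add_left _ _
  have hR' : (0 : ℝ) < (R145 o Q : ℕ) := by exact_mod_cast hR
  have hT : (0 : ℝ) ≤ (T j : ℕ) := Nat.cast_nonneg _
  have h3 : (kF th (R145 o Q) (T j) : ℝ) ≤ (1 - th / 4) * T j / (R145 o Q : ℕ) := by
    unfold kF
    exact Nat.floor_le (div_nonneg (mul_nonneg (by linarith) hT) hR'.le)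
  have h4 : (R145 o Q : ℝ) * kF th (R145 o Q) (T j) ≤ T j := by
    calc (R145 o Q : ℝ) * kF th (R145 o Q) (T j) ≤ (R145 o Q : ℝ) * ((1 - th / 4) * T j / (R145 o Q : ℕ)) :=
          mul_le_mul_of_nonneg_left h3 hR'.le
      _ = (1 - th / 4) * T j := by field_simp
      _ ≤ T j := by nlinarith
  have h2 : R145 o Q * kF th (R145 o Q) (T j) ≤ T j := by exact_mod_cast h4
  exact h1.trans h2

/-- **The right cell is in the box**: `ha2` of `lit_of_so`. -/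
theorem col44 (hI : In μ s c C n₀) {d th K0 : ℝ} (hd : 0 < d) (hd1 : d ≤ 1) (hth : 0 < th) (hth1 : th ≤ 1 / 4) {o : LnO}
    (ho : o.Ok (lnI c d th K0)) {Q : ℕ} (hQ : 1 ≤ Q) (k : KE45) (T : ℕ → ℕ) (cm : ℕ → ℤ) (m₂ : ℕ) (φ v v₁ g₂ : ℝ) {j : ℕ} {z : ℕ × ℤ}
    (hw : 1 ≤ wd μ s (T j)) (hz : T j ≤ z.1) (hB : Bx44 μ s (T j) z ((z.1 : ℤ), z.2 + cm j) 4) :
    z.2 + (sg45 μ s d th o Q k T cm m₂ φ v v₁ g₂).α₂ j ≤ (sg45 μ s d th o Q k T cm m₂ φ v v₁ g₂).c0 j z := by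
  obtain ⟨w, hwd⟩ : ∃ w, w = wd μ s (T j) := ⟨_, rfl⟩
  have near := uc8_near (μ := μ) (s := s) d (wd μ s (T j)) (cm j) (1 - (T j : ℤ)) true
  obtain ⟨y, hy⟩ : ∃ y : ℤ, y = uc8 μ s d (wd μ s (T j)) (cm j) (1 - (T j : ℤ)) true := ⟨_, rfl⟩
  rw [← hy, if_pos rfl, abs_le] at near
  obtain ⟨r, hr⟩ : ∃ r : ℕ, r = ⌊o.th * wd μ s (TF45 th o Q T j)⌋₊ := ⟨_, rfl⟩
  have hTF := TFle44 ho hQ hth hth1 T j
  have hoth : o.th ≤ 1 / 16 := by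
    have h1 : o.th ≤ d / 16 := ho.th1
    linarith
  have hwF : wd μ s (TF45 th o Q T j) ≤ 2 * wd μ s (T j) := by
    rcases Nat.eq_zero_or_pos (TF45 th o Q T j) with h0 | h0
    · rw [h0]
      have : wd μ s 0 = 0 := by
        unfold wd
        rw [Nat.cast_zero, zero_mul]
      rw [this]
      linarith
    · exact Pool.Agent.W_7d29a1_HS.wd_le_two hI h0 hTF
  have hr1 : (r : ℝ) ≤ 1 / 8 * wd μ s (T j) := by
    have h0 : 0 ≤ o.th * wd μ s (TF45 th o Q T j) := mul_nonneg ho.th0.le (hI.wd_nonneg _)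
    have h1 : (r : ℝ) ≤ o.th * wd μ s (TF45 th o Q T j) := hr ▸ Nat.floor_le h0
    have h2 := mul_le_mul hoth hwF (hI.wd_nonneg _) (by norm_num)
    linarith
  have hr0 : (0 : ℝ) ≤ r := Nat.cast_nonneg _
  have e1 : (sg45 μ s d th o Q k T cm m₂ φ v v₁ g₂).α₂ j = y - r := by
    rw [hy, hr]
    rfl
  have e2 : (sg45 μ s d th o Q k T cm m₂ φ v v₁ g₂).c0 j z = z.1 - T j + 1 := rfl
  rw [e1, e2]
  refine (hB (z.1 - T j + 1) (z.2 + (y - r)) (by omega) ?_).2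
  have e3 : ((z.2 + (y - r) : ℤ) : ℝ) - ln35 μ s ((z.1 : ℤ), z.2 + cm j) (z.1 - T j + 1) = y - (cm j + sl μ s * ((1 - (T j : ℤ) : ℤ) : ℝ)) - r := by
    unfold ln35
    push_cast [Nat.cast_sub hz]
    ring
  rw [e3, abs_le, ← hwd]
  rw [← hwd] at near hr1 hw
  constructor
  · nlinarith [mul_pos hd (show 0 < w by linarith)]
  · nlinarith [mul_le_mul_of_nonneg_right hd1 (show 0 ≤ w by linarith)]

/-- **`Geo58` from the events at the SITE.** -/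
theorem geoK44 (h : In μ s c C n₀) {Γ : Cx} {R : ℝ} {B : ℕ} {C₀ : ℝ} {h₀ K L : ℕ} {G : Gd} (g : GW μ s R B C₀ h₀ K L G) {m₂ : ℕ}
    {κ : KV8} {ν : NV31} (N : NB8 μ s (Tg h₀ K) m₂ κ ν) {i : ℕ} {q₀ : ℕ × ℤ} {u : ℝ} {ω : Env} (hω : ω ∈ V8 μ s Γ ν u G i q₀)
    (hi : 1 ≤ i) (hL : i + m₂ ≤ L) {ρ : ℝ} (hρ : 0 ≤ ρ) (hwo : wd μ s (Tg h₀ K i) ≤ wd μ s (Tg h₀ K (i + m₂))) (hw : κ.w₁ ≤ κ.w₁')
    (hw' : C₀ + ρ + 1 ≤ κ.w₁') (hN : (G.z i q₀).1 + Tg h₀ K i + 1 ≤ Γ.N) : Geo58 μ s Γ G (Tg h₀ K i) i q₀ ρ := by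
  have hs := sl_mem (μ := μ) h.em h.nd s
  have hwi : 0 ≤ wd μ s (Tg h₀ K (i + m₂)) := h.wd_nonneg _
  have hω1 := hω.1
  have h1 := geo58 (ρ := ρ) hω1.2.1 g.ok (by rw [N.em]; exact hL) rfl hs.1.le hs.2.le hω1.1 (by
    rw [N.eT]
    exact Tg_mono (by have := g.K2; omega) (Nat.le_add_right i ν.m₂))
    ((N.hW1 i).trans ((mul_le_mul_of_nonneg_right hw hwi).trans (N.hW21 i))) (by
    rw [N.eT]
    have := g.small i hi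
    have hi0 : (0 : ℝ) ≤ (i : ℝ) := Nat.cast_nonneg _
    exact mul_nonneg hρ (by linarith)) (by
    rw [N.eT]
    exact hW58 g hi (by omega) hρ hwo hw' (N.hW21 i)) (by rw [N.eT]; exact hN)
  rw [N.eT] at h1
  exact h1

/-- The tilt over one ball, in the form of the inside. -/
theorem tlt44 {h κ c : ℝ} {T : ℕ} (h1 : |h| * T ≤ κ) (hκ : κ ≤ c / 16) (h2 : wd μ s (2 * T) ≤ (2 * T : ℕ)) (hc : 0 ≤ c) :
    |h| * wd μ s (2 * T) ≤ c / 8 * EE μ s (2 * T) := by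
  have hE := one_le_EE (μ := μ) (s := s) (2 * T)
  have h3 := mul_le_mul_of_nonneg_left h2 (abs_nonneg h)
  push_cast at h3
  nlinarith

/-- **`LsU` FROM THE PLACE.** -/
theorem lsU44 (hI : In μ s c C n₀) (hE9 : ∀ᶠ n : ℕ in atTop, (n : ℝ) ^ (1 / 9 : ℝ) ≤ EE μ s n) (hP : LsP44 μ s c) (c₁ c₃ : ℝ) :
    LsU μ s c c₁ c₃ := by
  intro ell K0 hell hK0 d R th hd hd1 hR hth hth4 x hx ρ e hρ hρ1 he he1
  have hc0' := hI.c0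
  refine ⟨⌈32 / th⌉₊, fun K hK hK8 hKth B C₀ hB hC₀ => ?_⟩
  have hthK : 32 ≤ th * K := by
    have h1 : 32 / th ≤ K := (Nat.le_ceil _).trans (by exact_mod_cast hK)
    rw [div_le_iff₀ hth] at h1
    linarith
  refine ⟨th / 128, 2 * (4 * 2 + 2 * C₀ ^ 2) + 8, by positivity, by linarith, by positivity,
    fun P A' a₁ g₁ n₁ hA' ha₁ hg₁ hg₁1 hn₁ hTl => ?_⟩
  obtain ⟨RI, hRI, A, hA, HI⟩ := ins44 hI P hK8 hth hth4 hthK (θ := th / 128) (Kw := 2 * (4 * 2 + 2 * C₀ ^ 2) + 8) (D := 2) (C₀ := C₀)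
    (by positivity) le_rfl (by norm_num) le_rfl
  obtain ⟨χ, hχ, Hχ⟩ := exists_chi60 (K := (K : ℝ)) (R := RI) (by positivity) hRI
  refine ⟨χ, hχ, fun U₀ qx Z m₀ kst hU₀ hqx hZ hm₀ hkst => ?_⟩
  obtain ⟨c₂, σ, ck, f, c0, B₀, ρb, pp, hc₂, hσ, hck, hf, hc0, hB₀, hρb, HP⟩ := hP ell K0 hell hK0 d th hd hd1 hth hth4 x hx P
  obtain ⟨J, nJ, HJ⟩ := hwoT58 hI
  refine ⟨c0, 3 * (B₀ * (1 + 2 * A) ^ pp) + f, ck, 4 * pp, J, hc0, by positivity, hck, fun m₁ U hM hm₁ hU₀U hqU => ?_⟩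
  have hU : 0 ≤ U := by linarith
  obtain ⟨qin, hqin⟩ : ∃ q, q = A * (1 + U) ^ 4 := ⟨_, rfl⟩
  obtain ⟨Ui, hUi⟩ : ∃ q, q = A * (1 + U) ^ 2 := ⟨_, rfl⟩
  have hqin0 : 0 ≤ qin := by rw [hqin]; positivity
  have hUi0 : 0 ≤ Ui := by rw [hUi]; positivity
  obtain ⟨lam, hlam⟩ : ∃ q, q = B₀ * (1 + qin + Ui) ^ pp := ⟨_, rfl⟩
  have hlam0 : 0 ≤ lam := by rw [hlam]; positivity
  have hlamB : lam ≤ B₀ * (1 + 2 * A) ^ pp * (1 + U) ^ (4 * pp) := by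
    rw [hlam, hqin, hUi]
    exact num44 (by linarith) hU hB₀ pp
  have hX1 : (1 : ℝ) ≤ (1 + U) ^ (4 * pp) := one_le_pow₀ (by linarith)
  obtain ⟨gs, hgs⟩ : ∃ q, q = f + fC54 lam (3 * lam + f) := ⟨_, rfl⟩
  have hgs0 : 0 ≤ gs := by
    rw [hgs]
    have := fC54_nn hlam0 (show 0 ≤ 3 * lam + f by positivity)
    linarith
  obtain ⟨gU, HP⟩ := HP qin Ui hqin0 hUi0 gs hgs0
  have hB1 : 0 ≤ B₀ * (1 + 2 * A) ^ pp := by positivity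
  have hfX : f ≤ f * (1 + U) ^ (4 * pp) := le_mul_of_one_le_right hf hX1
  refine ⟨c0, lam, 3 * lam + f, gU, hc0, hlam0, by positivity, le_mul_of_one_le_right hc0 hX1, ?_, ?_, fun hTun g hg hgU o ho => ?_⟩
  · nlinarith [mul_nonneg hB1 (show (0 : ℝ) ≤ (1 + U) ^ (4 * pp) by linarith)]
  · nlinarith
  obtain ⟨PU, cδ, hcδ, HP⟩ := HP g hg hgU o ho
  refine ⟨PU, fun P₀ hP₀ hP₀1 => ?_⟩
  obtain ⟨QU, SU, HP⟩ := HP P₀ hP₀ hP₀1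
  refine ⟨QU, SU, fun c₁₀ c₃₀ Q₀ S₀ t1 t2 t3 t4 t5 t6 t7 t8 => ?_⟩
  have HP := HP c₁₀ c₃₀ Q₀ S₀ t1 t2 t3 t4 t5 t6 t7 t8
  refine ⟨C₀ + max ρb 4 + 1, fun φ v hφ hv => ?_⟩
  have hgC0 : 0 ≤ gC54 (φ * (K : ℝ) ^ (m₀ + m₁)) (3 * lam) lam := gC54_nn (by positivity) (by positivity) hlam0
  obtain ⟨ge, hge⟩ : ∃ q, q = max (5 * lam + gC54 (φ * (K : ℝ) ^ (m₀ + m₁)) (3 * lam) lam + 2) (5 * lam + gs + 2) := ⟨_, rfl⟩
  have hge1 : 5 * lam + gC54 (φ * (K : ℝ) ^ (m₀ + m₁)) (3 * lam) lam + 2 ≤ ge := hge ▸ le_max_left _ _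
  have hge2 : 5 * lam + gs + 2 ≤ ge := hge ▸ le_max_right _ _
  have hge0 : 0 ≤ ge := by linarith
  obtain ⟨KwU, gxU, G'U, HP⟩ := HP ge hge0
  obtain ⟨a₉, ha₉⟩ : ∃ q, q = min (ρ * e / 72) (ρ * e * cδ / 8) := ⟨_, rfl⟩
  have hρe : 0 < ρ * e := mul_pos hρ he
  have ha0 : 0 < a₉ := by rw [ha₉]; exact lt_min (by positivity) (by positivity)
  have ha1 : a₉ ≤ ρ * e / 72 := ha₉ ▸ min_le_left _ _
  have ha2 : a₉ < ρ * e / 4 * cδ := by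
    have h9 : a₉ ≤ ρ * e * cδ / 8 := ha₉ ▸ min_le_right _ _
    have h10 : 0 < ρ * e * cδ := by positivity
    have h11 : ρ * e / 4 * cδ = ρ * e * cδ / 4 := by ring
    rw [h11]
    linarith
  refine ⟨KwU, gxU, G'U, gC54 (φ * (K : ℝ) ^ (m₀ + m₁)) (3 * lam) lam, a₉, ha0, fun w hw w1 w2 w3 p hp => ?_⟩
  obtain ⟨GU, KU, HP⟩ := HP w hw w1 w2 w3 p hp
  refine ⟨GU, KU, fun GX KX v₁ hGX hGU hKX hKU hv₁ hv1U kv hkv => ⟨1, one_pos, ?_⟩⟩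
  obtain ⟨n₂, HP⟩ := HP GX KX hGX hGU hKX hKU
  intro c₂' hc₂' _ δ hδ _
  refine ⟨1, one_pos, fun κ hκ _ => ⟨32, by norm_num, fun Q hQ32 hQ n₁' _ => ?_⟩⟩
  obtain ⟨nI, hnI, HI⟩ := HI c₂ σ (R145 o p.Q) hc₂ hσ (R145_pos ho hp.Q)
  obtain ⟨nT, hnT, HT⟩ := hTun
  obtain ⟨nw, hnw, Hw⟩ := wd_small58 hI 1 (θ := 1) one_pos
  have hee : ρ * e ≤ e := by nlinarith
  have hK1 : 1 ≤ K := by omega
  have ev : ∀ M : ℝ, ∀ᶠ n : ℕ in atTop, M ≤ (n : ℝ) ^ (ρ * e / 4) := fun M =>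
    ((tendsto_rpow_atTop (show 0 < ρ * e / 4 by positivity)).comp tendsto_natCast_atTop_atTop).eventually_ge_atTop M
  filter_upwards [gridN8 (x := m₀ + m₁) he he1 hρe hee (show 2 ≤ K by omega) hQ,
    tiltG58 hI hE9 (e := e) (e₀ := ρ * e) (kap := min (1 / 8) (c / 16)) (c := c₂') (δ := δ) (κ := κ) he1 hδ.le
      (lt_min (by norm_num) (by positivity)) (K := K) (Q := Q) (x := m₀ + m₁) hK1,
    suc9_pcs46 hI hE9 (e₀ := ρ * e) (e := e) (a := a₉) hρe he1 ha0 ha1 (ℓ := lam) (f := f) (gX := gs) (phO := φ) (G := ge) (c0' := c0)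
      hlam0 hf hφ hK1 (m₀ + m₁) hgs.ge hge1 hge2,
    dl54 (a := a₉) (b := ρ * e / 4) (c' := cδ) ha0 hcδ ha2 (Real.exp 32) (D := 1) one_pos,
    ev 128, ev n₂, ev nI, ev nT, ev nw, ev nJ, ev_le54 64 (show ρ * e / 8 < ρ * e / 4 by linarith), eventually_ge_atTop 2]
    with n hg hti hsuc hdl b1 b2 b3 b4 b5 b6 b7 hn2
  intro G hG ν hν Γ hΓ l hl hlm c' hc' η hηV hηS hFA hFB hFX hSp hRc
  have hgh := hg.h1
  have hl1 : 1 ≤ l := by omega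
  have hlm8 : l ≤ m8 K e n := hlm.le.trans (Nat.div_le_self _ _)
  have hti := hti Γ hΓ hg l (by omega)
  have hNT := T_lt58 hg hK1 (by linarith) hn2 (show l ≤ m8 K e n + (m₀ + m₁) by omega)
  have hTh : h8 Q (ρ * e) n ≤ Tg (h8 Q (ρ * e) n) K l := by
    rw [Tg_pos hl1, mul_comm 2 (h8 Q (ρ * e) n), mul_assoc]
    exact Nat.le_mul_of_pos_right _ (Nat.mul_pos two_pos (Nat.pow_pos (by omega)))
  have hnh : ∀ a : ℕ, (a : ℝ) ≤ (n : ℝ) ^ (ρ * e / 4) → a ≤ h8 Q (ρ * e) n := fun a ha => by exact_mod_cast ha.trans hgh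
  have hnT : (n : ℝ) ^ (ρ * e / 4) ≤ (Tg (h8 Q (ρ * e) n) K l : ℕ) := hgh.trans (by exact_mod_cast hTh)
  have hnTa : ∀ a : ℕ, (a : ℝ) ≤ (n : ℝ) ^ (ρ * e / 4) → a ≤ Tg (h8 Q (ρ * e) n) K l := fun a ha => (hnh a ha).trans hTh
  have hzT : Tg (h8 Q (ρ * e) n) K l ≤ (G.z l c').1 := hηS.1
  have h32 : 32 ∣ Tg (h8 Q (ρ * e) n) K l := Tg_dvd (by
    unfold h8
    exact hQ32.mul_right _) K l
  have hp1 : ∀ k, k < Γ.M → Γ.p k = Real.exp (s + Γ.h) := fun k hk => by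
    unfold Cx.p
    rw [if_pos hk, hΓ.hs]
  have hp2 : ∀ k, Γ.M ≤ k → Γ.p k = Real.exp s := fun k hk => by
    unfold Cx.p
    rw [if_neg (by omega), hΓ.hs]
  -- the columns
  have hgeo : Geo58 μ s Γ G (Tg (h8 Q (ρ * e) n) K l) l c' (max ρb 4) := geoK44 hI hG hν hηV hl1 (by omega)
    (le_max_of_le_left hρb) (HJ _ K l (m₀ + m₁) (by omega) hl1 (by omega) (hnTa nJ b6)) (by linarith [hkv.w1]) hkv.wm (hN58 hc' hNT.2)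
  have hwT : 0 ≤ wd μ s (Tg (h8 Q (ρ * e) n) K l) := hI.wd_nonneg _
  have hBx : Bx44 μ s (Tg (h8 Q (ρ * e) n) K l) (G.z l c') (((G.z l c').1 : ℤ), (G.z l c').2 + cm45 G l) ρb :=
    (hgeo.mono hwT (le_max_left _ _)).col
  have hB4 : Bx44 μ s (Tg (h8 Q (ρ * e) n) K l) (G.z l c') (((G.z l c').1 : ℤ), (G.z l c').2 + cm45 G l) 4 :=
    (hgeo.mono hwT (le_max_right _ _)).col
  have hw1 : 1 ≤ wd μ s (Tg (h8 Q (ρ * e) n) K l) := by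
    have h1 := hG.small l hl1
    have h2 : (0 : ℝ) ≤ (l : ℝ) := Nat.cast_nonneg _
    linarith
  -- the inside
  have hRB : ((p.Q * o.j1 : ℕ) : ℝ) ≤ th / 8 * (R145 o p.Q : ℕ) := by
    have h1 : 1 ≤ th / 8 * o.j2 := ho.j2'
    unfold R145
    push_cast
    have h2 : (0 : ℝ) ≤ (p.Q : ℝ) * o.j1 := by positivity
    have h3 : (0 : ℝ) ≤ (p.Q : ℝ) * o.a := by positivity
    nlinarith [mul_le_mul_of_nonneg_left h1 h2, mul_le_mul_of_nonneg_left h1 h3]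
  have htlt : |Γ.h| * wd μ s (2 * Tg (h8 Q (ρ * e) n) K l) ≤ c / 8 * EE μ s (2 * Tg (h8 Q (ρ * e) n) K l) := by
    refine tlt44 hti (min_le_right _ _) ?_ hc0'.le
    have h1 := Hw (2 * Tg (h8 Q (ρ * e) n) K l) ((hnTa nw b5).trans (Nat.le_mul_of_pos_left _ two_pos))
    linarith
  have hIn := HI U χ hU hχ.le (Hχ χ hχ.le le_rfl) (h := Γ.h) (p := Γ.p) (M := Γ.M) (x := c') (q₁ := qx) (RB := p.Q * o.j1) hG hp1 hp2
    (hnh nI b3) hl (by omega) hqx hqU hzT hRc hSp htlt hRB _ _ _ rfl rfl rfl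
  rw [← hqin, ← hUi] at hIn
  have hRc44 := HP (Tg (h8 Q (ρ * e) n) K) (cm45 G) l (m₀ + m₁) (G.z l c') Γ.k Γ.h Γ.p Γ.M η φ v v₁ (kst / 8) (hnTa n₂ b2) h32 hzT hp1 hp2
    (hti.trans (min_le_left _ _)) hBx hFA hFB hFX ⟨hIn.1, hIn.2⟩
  obtain ⟨na, ng, nb, n3, xa, xb, sc, da, db, ya, yb, za, zb, va, vb, xm', xn, ua, ub, d0, kc, k1, kg, ke, k2, δ', eR, eS, L, L0, A0, Aa, Am,
    A2, A3, hPcs, hKS, r1, r2, r3, r4, s1, s2, s3, s4, s5, s6, s7⟩ := hRc44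
  have hTd : 32 * (Tg (h8 Q (ρ * e) n) K l / 32) = Tg (h8 Q (ρ * e) n) K l := Nat.mul_div_cancel' h32
  have hm0 : ⌈(n : ℝ) ^ (ρ * e / 8)⌉₊ + 1 ≤ Tg (h8 Q (ρ * e) n) K l / 32 := by
    have h1 : (⌈(n : ℝ) ^ (ρ * e / 8)⌉₊ : ℝ) < (n : ℝ) ^ (ρ * e / 8) + 1 := Nat.ceil_lt_add_one (by positivity)
    have h2 : ((Tg (h8 Q (ρ * e) n) K l : ℕ) : ℝ) = 32 * ((Tg (h8 Q (ρ * e) n) K l / 32 : ℕ) : ℝ) := by exact_mod_cast hTd.symm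
    have h3 : ((⌈(n : ℝ) ^ (ρ * e / 8)⌉₊ + 1 : ℕ) : ℝ) ≤ ((Tg (h8 Q (ρ * e) n) K l / 32 : ℕ) : ℝ) := by
      push_cast
      linarith
    exact_mod_cast h3
  rw [← hlam] at s4
  have r3' : nb = Tg (h8 Q (ρ * e) n) K l / 32 := r3
  have r4' : n145 th o p.Q (Tg (h8 Q (ρ * e) n) K) l + na + ng + 1 = Tg (h8 Q (ρ * e) n) K l +
    (5 * (Tg (h8 Q (ρ * e) n) K l / 8) + 6 * (Tg (h8 Q (ρ * e) n) K l / 32)) := r4
  have hD : D45 (Tg (h8 Q (ρ * e) n) K) l + 1 = n145 th o p.Q (Tg (h8 Q (ρ * e) n) K) l + na + ng + 1 := by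
    unfold D45
    omega
  have q1 : n145 th o p.Q (Tg (h8 Q (ρ * e) n) K) l + na + ng ≤ D45 (Tg (h8 Q (ρ * e) n) K) l := by omega
  have q2 : D45 (Tg (h8 Q (ρ * e) n) K) l + (⌈(n : ℝ) ^ (ρ * e / 8)⌉₊ + 1) ≤ n145 th o p.Q (Tg (h8 Q (ρ * e) n) K) l + na + ng + nb := by
    rw [r3']
    omega
  exact hsuc (h8 Q (ρ * e) n) l hl1 hnT (by
      have h1 := hNT.1
      have h2 : (0 : ℝ) ≤ (Tg (h8 Q (ρ * e) n) K l : ℕ) := Nat.cast_nonneg _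
      linarith) (sx := sc) hηS hPcs hKS r1 r2 hgeo.hN
    (col44 hI hd hd1 hth hth4 ho hp.Q _ _ _ _ _ _ _ _ hw1 hzT hB4) q1 q2 s1 (Real.one_le_exp (mul_nonneg hf (EE_pos _).le)) (Real.one_le_exp (mul_nonneg hφ (EE_pos _).le)) (Real.exp_pos _).le
    (Real.exp_pos _).le (s2.trans (hdl _ (by rw [one_mul]; exact hnT))) s4 s5 le_rfl s7 s6 le_rfl hv1U le_rfl le_rfl (HT _ l hl1 (hnTa nT b4))

end

end Pool.Agent.W_7d29a1_C1.Lt44
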