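import Pool.Agent.W_7d29a1_C1.Suc21

/-!
Both halves (MP_7d29a1_pr), attractor route [C1]: SUCCESS => H1 FOR ONE CONTACT, last part. (helper21)

`sucn21` : the predicates of `ShDef21` at the two seams, the two buffers and the inside give `H1c.SucN` for every contact row
`k = c0 + K`, `n1 ≤ K`, `K + 1 ≤ n1 + ne + nb` (all rows up to the end of the one lane slab). The predicates are used twice, with the
slopes of the real future (`S`, `F`) and with the slopes of the flat future (`S'`, `F0`).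
-/

set_option autoImplicit false
set_option linter.unusedSectionVars false

namespace Pool.Agent.W_7d29a1_C1.Sh21

open Finset Pool.Agent.W_7d29a1_C1.Gini76 Pool.Agent.W_7d29a1_C1.CR76 Pool.Agent.W_7d29a1_C1.K91P
  Pool.Agent.W_7d29a1_C1.Basin76 Pool.Agent.W_7d29a1_C1.R26P Pool.Agent.W_7d29a1_C1.F74 Pool.Agent.W_7d29a1_C1.P21
open Pool.Agent.W_7d29a1_C1.K97 (Nr Reg)
open Pool.Agent.W_7d29a1_C1.H1c (SucN rrn tpos)

noncomputable section

variable {w : ℕ → ℤ → ℝ} {p : ℕ → ℝ} {lo h hi : ℤ} {l rr : ℤ → ℝ} {c0 n1 ne nb n3 m r n j n2 K J k : ℕ}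
  {a b a1 b1 a2 b2 xa xb s da db ya yb za zb q : ℤ} {ph p1 pe p2 p3 f ph' p1' pe' p2' p3' : ℤ → ℝ}
  {δ e e1 e2 U L L0 V A0 A1 A2 A3 G0 ε ε' ρ β t kap M ef Uf Lf : ℝ}

/-! ### Amplitudes -/

theorem am_two {X : ℤ → ℝ} (hX : ∀ y, 0 ≤ X y) (hL : 1 ≤ L0) (k0 : 0 < kf w p r n a xa)
    (q : ∀ y ∈ Icc a b, kf w p r n a xa ≤ L0 * kf w p r n y xa ∧ kf w p r n y xa ≤ L0 * kf w p r n a xa) :
    ∑ y ∈ Icc a b, X y ≤ L0 ^ 2 * am w p r n a b xa X ∧ am w p r n a b xa X ≤ L0 ^ 2 * ∑ y ∈ Icc a b, X y := by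
  have L02 : L0 ≤ L0 ^ 2 := by nlinarith
  have L0p : 0 < L0 := by linarith
  unfold am
  constructor
  · rw [mul_sum]
    refine sum_le_sum fun y hy => ?_
    have h1 : 1 ≤ L0 ^ 2 * (kf w p r n y xa / kf w p r n a xa) := by
      rw [← mul_div_assoc, le_div_iff₀ k0, one_mul]
      have h2 := (q y hy).1
      have h0 : 0 ≤ kf w p r n y xa := by
        by_contra hc
        have := mul_neg_of_pos_of_neg L0p (not_le.1 hc)
        linarith
      exact h2.trans (mul_le_mul_of_nonneg_right L02 h0)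
    have := mul_le_mul_of_nonneg_left h1 (hX y)
    linarith
  · rw [mul_sum]
    refine sum_le_sum fun y hy => ?_
    have h1 : kf w p r n y xa / kf w p r n a xa ≤ L0 ^ 2 := by
      rw [div_le_iff₀ k0]
      exact (q y hy).2.trans (mul_le_mul_of_nonneg_right L02 k0.le)
    have := mul_le_mul_of_nonneg_left h1 (hX y)
    linarith

/-- The ratio of two amplitudes. -/
theorem am_log {S1 S2 B1 B2 : ℝ} (hL : 1 ≤ L0) (he2 : 0 ≤ e2) (h1 : S1 ≤ L0 ^ 2 * B1) (h2 : B2 ≤ L0 ^ 2 * S2) (h3 : S2 ≤ e2 * S1)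
    (hB2 : 0 < B2) (hM : Real.exp (M + 1) * (e2 * L0 ^ 4) ≤ 1) : 0 < B1 ∧ M + 1 ≤ Real.log (B1 / B2) := by
  have L2 : 0 < L0 ^ 2 := by positivity
  have s2 : 0 < S2 := by
    by_contra hc
    have := mul_nonpos_of_nonneg_of_nonpos L2.le (not_lt.1 hc)
    linarith
  have s1 : 0 < S1 := by
    by_contra hc
    have := mul_nonpos_of_nonneg_of_nonpos he2 (not_lt.1 hc)
    linarith
  have b1 : 0 < B1 := by
    by_contra hc
    have := mul_nonpos_of_nonneg_of_nonpos L2.le (not_lt.1 hc)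
    linarith
  refine ⟨b1, ?_⟩
  rw [Real.le_log_iff_exp_le (div_pos b1 hB2), le_div_iff₀ hB2]
  have E := Real.exp_pos (M + 1)
  have c1 : B2 ≤ e2 * L0 ^ 4 * B1 := by
    have g1 := mul_le_mul_of_nonneg_left h3 L2.le
    have g2 := mul_le_mul_of_nonneg_left h1 (mul_nonneg L2.le he2)
    nlinarith
  have c2 := mul_le_mul_of_nonneg_left c1 E.le
  have c3 := mul_le_mul_of_nonneg_right hM b1.le
  linarith

/-! ### The theorem -/

section main

variable (hw : ∀ k y, 0 < w k y) (hp : ∀ k, 0 < p k)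
  (S : All w p lo h c0 n1 ne nb n3 a1 b1 a2 b2 xa xb s da db ya yb za zb ph p1 pe p2 p3 δ e U L L0 A0 A1 A2 A3)
  (F : Fut w p lo (h + n1 + ne + nb + n3) (c0 + n1 + ne + nb + n3) m za zb p3 V G0)
  (S' : All w p lo h c0 n1 ne nb n3 a1 b1 a2 b2 xa xb s da db ya yb za zb ph' p1' pe' p2' p3' δ ef Uf Lf L0 A0 A1 A2 A3)
  (F0 : Fut w p lo (h + n1 + ne + nb + n3) (c0 + n1 + ne + nb + n3) 0 za zb p3' 1 1)

include hw hp S F

theorem All.mem : a1 ∈ cl2 a1 b1 a2 b2 ∧ b1 ∈ cl2 a1 b1 a2 b2 ∧ a2 ∈ cl2 a1 b1 a2 b2 ∧ b2 ∈ cl2 a1 b1 a2 b2 := by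
  have g := S.g
  have h1 := g.h1
  have h3 := g.h3
  unfold cl2
  simp only [mem_union, mem_Icc]
  omega

/-- **The entrance of one group.** -/
theorem All.ent (hl0 : ∀ y, 0 ≤ l y) (hs : ∀ y, fw w p l c0 y ≠ 0 → lo ≤ y ∧ y ≤ h) (hh : h + (n1 + j : ℕ) < hi)
    (hj : j + (n2 + 1) = ne + nb) (he1 : 0 ≤ e1)
    (ho : ∑ x ∈ Icc lo h \ (Icc a1 b1 ∪ Icc a2 b2), fw w p l c0 x * ph x ≤ e1 * ∑ x ∈ Icc a1 b1 ∪ Icc a2 b2, fw w p l c0 x)
    (hε : e * (V * L * U * L) * (V * L * U * L) ≤ ε) (hε1 : e1 * (V * L * U * L) * (V * L * U * L) ≤ ε) (ε1 : ε ≤ 1 / 8) :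
    Ent w p lo hi l c0 n1 j (j + (n2 + (n3 + m) + 1)) a1 b1 a2 b2 xa xb δ ε := by
  have g := S.g
  have g1 := g.h1
  have g2 := g.h2
  have g3 := g.h3
  have g7 := g.h7
  have g8 := g.h8
  have V1 := F.V1
  have L1 := S.L1
  have U1 := S.U1
  have e0 := S.e0
  have nn0 : (0 : ℤ) ≤ ((n1 + j : ℕ) : ℤ) := by positivity
  have em : j + (n2 + (n3 + m) + 1) = ne + (nb + (n3 + m)) := by omega
  have en : n1 + (ne + (nb + (n3 + m))) = n1 + ne + (nb + (n3 + m)) := by ring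
  have mm := S.mem hw hp F
  have bx := S.B
  rw [em]
  refine ⟨⟨g.h1, g.h2, g.h3, g.h4, g.h5, g.h6, g.h7, by omega⟩, ⟨hl0, fun y hy => ?_⟩, S.δ0, le_trans (by positivity) hε, ε1,
    bx.c1, bx.c2, ?_, ?_, ?_⟩
  · have := hs y hy
    omega
  · rw [en]
    have c := S.cell hw hp F (hi := hi) hl0 hs (by omega) he1 ho
    refine c.trans (mul_le_mul_of_nonneg_right hε1 ?_)
    unfold Tt
    exact sum_nonneg fun z _ => mul_nonneg (fw_nonneg hw hp hl0 _ z) (bw_pos hw hp _ _ _).le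
  · unfold LX
    refine (S.buf hw hp F (· < xa) mm.1 bx.xl).trans (mul_le_mul_of_nonneg_right hε (bw_pos hw hp _ _ _).le)
  · unfold RX
    refine (S.buf hw hp F (xb < ·) mm.2.2.2 bx.xr).trans (mul_le_mul_of_nonneg_right hε (bw_pos hw hp _ _ _).le)

include S' F0

/-- **The exits of the model paths.** -/
theorem All.outs (hε : e * (V * L * U * L) * (V * L * U * L) ≤ ε) (hεf : ef * (Lf * Uf * Lf) * (Lf * Uf * Lf) ≤ ε) :
    Out w p c0 (n1 + ne + nb) n3 m a1 b2 ya yb ε := by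
  have mm := S.mem hw hp F
  have c0' : ef * (1 * Lf * Uf * Lf) * (1 * Lf * Uf * Lf) ≤ ε := by rwa [one_mul]
  have f1 := fun (a : ℤ) (ha : a ∈ cl2 a1 b1 a2 b2) (Q : ℤ → Prop) [DecidablePred Q] (hQ : ∀ z, Q z → ¬ (ya ≤ z ∧ z ≤ yb)) =>
    (S.out hw hp F ha Q hQ).trans (mul_le_mul_of_nonneg_right hε (bw_pos hw hp _ _ _).le)
  have f0 := fun (a : ℤ) (ha : a ∈ cl2 a1 b1 a2 b2) (Q : ℤ → Prop) [DecidablePred Q] (hQ : ∀ z, Q z → ¬ (ya ≤ z ∧ z ≤ yb)) =>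
    (S'.out hw hp F0 ha Q hQ).trans (mul_le_mul_of_nonneg_right c0' (bw_pos hw hp _ _ _).le)
  exact ⟨f1 a1 mm.1 (· < ya) (fun z hz => by omega), f1 b2 mm.2.2.2 (yb < ·) (fun z hz => by omega),
    f0 a1 mm.1 (· < ya) (fun z hz => by omega), f0 b2 mm.2.2.2 (yb < ·) (fun z hz => by omega)⟩

/-- **The last buffer.** -/
theorem All.bufs (hε : e * (V * L * U * L) * (V * L * U * L) ≤ ε) (hεf : ef * (Lf * Uf * Lf) * (Lf * Uf * Lf) ≤ ε) :
    Buf w p (c0 + n1 + ne + nb) n3 m ya yb za zb δ ε := by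
  have V1 := F.V1
  have k1 : ∀ e v L U : ℝ, 0 ≤ e → 1 ≤ v → 1 ≤ L → 1 ≤ U → e * (v * L * U * L) * (v * L * U * L) ≤ ε → e * v * (v * L) ≤ ε := by
    intro e v L U e0 v1 L1 U1 hh
    refine le_trans ?_ hh
    have h1 : v ≤ v * L * U * L := by
      calc v = v * 1 * 1 * 1 := by ring
        _ ≤ v * L * U * L := by
          refine mul_le_mul (mul_le_mul (mul_le_mul le_rfl L1 zero_le_one (by linarith)) U1 zero_le_one (by positivity)) L1 zero_le_one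
            (by positivity)
    have h2 : v * L ≤ v * L * U * L := by
      have h3 : v * L * 1 * 1 ≤ v * L * U * L :=
        mul_le_mul (mul_le_mul le_rfl U1 zero_le_one (by positivity)) L1 zero_le_one (by positivity)
      linarith
    exact mul_le_mul (mul_le_mul_of_nonneg_left h1 e0) h2 (by positivity) (by positivity)
  have r1 := S.X.buf_l hw hp F S.L1 S.e0
  have r0 := S'.X.buf_l hw hp F0 S'.L1 S'.e0
  have s1 := k1 e V L U S.e0 V1 S.L1 S.U1 hε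
  have s0 := k1 ef 1 Lf Uf S'.e0 le_rfl S'.L1 S'.U1 (by rwa [one_mul])
  refine ⟨S.X.gx, S.X.cx, ?_, ?_, ?_, ?_⟩
  · exact r1.1.trans (mul_le_mul_of_nonneg_right s1 (bw_pos hw hp _ _ _).le)
  · exact r1.2.trans (mul_le_mul_of_nonneg_right s1 (bw_pos hw hp _ _ _).le)
  · exact r0.1.trans (mul_le_mul_of_nonneg_right s0 (bw_pos hw hp _ _ _).le)
  · exact r0.2.trans (mul_le_mul_of_nonneg_right s0 (bw_pos hw hp _ _ _).le)

/-- **SUCCESS => H1 FOR ONE CONTACT.** -/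
theorem sucn21 (hl0 : ∀ y, 0 ≤ l y) (hr0 : ∀ y, 0 ≤ rr y) (hsl : ∀ y, fw w p l c0 y ≠ 0 → lo ≤ y ∧ y ≤ h)
    (hsr : ∀ y, fw w p rr c0 y ≠ 0 → lo ≤ y ∧ y ≤ h)
    (I : SeamIn lo h (fw w p l c0) (fw w p rr c0) a1 b1 a2 b2 ph e1 e2) (he1 : 0 ≤ e1) (he2 : 0 ≤ e2)
    (hn : n1 ≤ K) (hK : K + (n2 + 1) = n1 + ne + nb) (hk : k = c0 + K) (hJ : J = n2 + n3) (hh : h + (K : ℕ) < hi)
    (hf : f = bw w p (k + 1) (n2 + (n3 + m)))
    (hε : e * (V * L * U * L) * (V * L * U * L) ≤ ε) (hεf : ef * (Lf * Uf * Lf) * (Lf * Uf * Lf) ≤ ε)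
    (hε1 : e1 * (V * L * U * L) * (V * L * U * L) ≤ ε) (sm : δ + 12 * ε ≤ 1 / 4)
    (ε1 : ε ≤ 1 / 8) (ρ1 : 1 ≤ ρ) (β1 : 1 ≤ β) (t0 : 0 ≤ t) (he : β / min 1 (p k) * ε + t ≤ ε')
    (G : Reg lo hi (w k) f q kap) (G' : Reg lo hi (w k) (bw w p (k + 1) J) q kap)
    (rf : ∀ y ∈ Icc lo hi, f (y - 1) ≤ ρ * f y ∧ f (y + 1) ≤ ρ * f y)
    (ri : ∀ y ∈ Icc lo hi, bw w p (k + 1) J (y - 1) ≤ ρ * bw w p (k + 1) J y ∧ bw w p (k + 1) J (y + 1) ≤ ρ * bw w p (k + 1) J y)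
    (dn : ∀ y ∈ Icc lo hi, ev w p (k + 1) n2 (n3 + m) (fun z => ¬ (ya ≤ z ∧ z ≤ yb)) (y - 1) ≤
      β * ev w p (k + 1) n2 (n3 + m) (fun z => ¬ (ya ≤ z ∧ z ≤ yb)) y + t * bw w p (k + 1) (n2 + (n3 + m)) (y - 1))
    (dn0 : ∀ y ∈ Icc lo hi, ev w p (k + 1) n2 n3 (fun z => ¬ (ya ≤ z ∧ z ≤ yb)) (y - 1) ≤
      β * ev w p (k + 1) n2 n3 (fun z => ¬ (ya ≤ z ∧ z ≤ yb)) y + t * bw w p (k + 1) (n2 + n3) (y - 1))
    (e1' : (1 + p k) * et (p k) δ ε' ρ ≤ 1 / 2) (hM1 : Real.exp (M + 1) * (e2 * L0 ^ 4) ≤ 1)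
    (hM : Real.log (rrn (p k) ρ ((Lf * Uf * Lf) ^ 2)) + 1 ≤ M) :
    SucN w p lo hi l rr c0 K J k f a1 a2 q (am w p c0 n1 a1 b1 xa (fw w p l c0)) (am w p c0 n1 a2 b2 xa (fw w p l c0))
      (am w p c0 n1 a1 b1 xa (fw w p rr c0)) (am w p c0 n1 a2 b2 xa (fw w p rr c0)) (Kr w p (k + 1) n2 n3 m ya za zb) kap
      (et (p k) δ ε' ρ) ρ ((Lf * Uf * Lf) ^ 2) M := by
  obtain ⟨j, rfl⟩ : ∃ j, K = n1 + j := ⟨K - n1, by omega⟩
  have hk' : k = c0 + n1 + j := by omega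
  clear hk
  subst hk'
  subst hJ
  subst hf
  have g := S.g
  have g1 := g.h1
  have g2 := g.h2
  have g3 := g.h3
  have g7 := g.h7
  have g8 := g.h8
  have V1 := F.V1
  have L1 := S.L1
  have U1 := S.U1
  have e0 := S.e0
  have nn0 : (0 : ℤ) ≤ ((n1 + j : ℕ) : ℤ) := by positivity
  have hj : j + (n2 + 1) = ne + nb := by omega
  have El := S.ent hw hp F hl0 hsl hh hj he1 I.I.offa hε hε1 ε1
  have Er := S.ent hw hp F hr0 hsr hh hj he1 I.I.offb hε hε1 ε1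
  have OO := S.outs hw hp F S' F0 hε hεf
  have BB := S.bufs hw hp F S' F0 hε hεf
  have i1 : n1 + j + (n2 + 1) = n1 + ne + nb := by omega
  have i2 : c0 + n1 + j + 1 + n2 = c0 + n1 + ne + nb := by omega
  have RR : Row21 w p lo hi c0 n1 j n2 n3 m a1 b2 ya yb za zb δ ε ρ β t :=
    { B := by rw [i2]; exact BB
      O := by rw [i1]; exact OO
      ρ1 := ρ1
      β1 := β1
      t0 := t0
      sm := sm
      rf := rf
      ri := ri
      dn := dn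
      dn0 := dn0 }
  have pk := hp (c0 + n1 + j)
  have mp : 0 < min 1 (p (c0 + n1 + j)) := lt_min one_pos pk
  -- amplitudes
  have f0l : ∀ y, 0 ≤ fw w p l c0 y := fun y => fw_nonneg hw hp hl0 _ y
  have f0r : ∀ y, 0 ≤ fw w p rr c0 y := fun y => fw_nonneg hw hp hr0 _ y
  have g4 := g.h4
  have g5 := g.h5
  have g6 := g.h6
  have ka1 : 0 < kf w p c0 n1 a1 xa := kf_pos hw hp c0 n1 (by omega) (by omega)
  have ka2 : 0 < kf w p c0 n1 a2 xa := kf_pos hw hp c0 n1 (by omega) (by omega)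
  have m1l := am_two (a := a1) (b := b1) f0l S.L01 ka1 S.B.q1
  have m2l := am_two (a := a2) (b := b2) f0l S.L01 ka2 S.B.q2
  have m1r := am_two (a := a1) (b := b1) f0r S.L01 ka1 S.B.q1
  have m2r := am_two (a := a2) (b := b2) f0r S.L01 ka2 S.B.q2
  have L2 : 0 < L0 ^ 2 := by have := S.L01; positivity
  have A2p : 0 < am w p c0 n1 a2 b2 xa (fw w p l c0) := by
    by_contra hc
    have := mul_nonpos_of_nonneg_of_nonpos L2.le (not_lt.1 hc)
    linarith [I.p2, m2l.1]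
  have B1p : 0 < am w p c0 n1 a1 b1 xa (fw w p rr c0) := by
    by_contra hc
    have := mul_nonpos_of_nonneg_of_nonpos L2.le (not_lt.1 hc)
    linarith [I.p1, m1r.1]
  have AL := am_log (M := M) S.L01 he2 m1l.1 m2l.2 I.I.ta A2p hM1
  have BL := am_log (M := M) S.L01 he2 m2r.1 m1r.2 I.I.tb B1p hM1
  have mm := S.mem hw hp F
  have it : n1 + j + (n2 + n3 + 1) = n1 + ne + (nb + (n3 + 0)) := by omega
  have t12 := S'.tot hw hp F0 mm.1 mm.2.2.1
  have t21 := S'.tot hw hp F0 mm.2.2.1 mm.1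
  rw [← it, one_mul] at t12 t21
  have et0 : 0 ≤ et (p (c0 + n1 + j)) δ ε' ρ := by
    have := S.δ0
    have εn := El.ε0
    have : 0 ≤ ε' := le_trans (by positivity) he
    unfold et
    positivity
  have f' : ∀ y, 0 < Pm w p (c0 + n1 + j) n2 n3 m ya za zb y := fun y => Pm_pos hw hp BB.gx _ y
  have ha1 : a1 ∈ Icc lo hi := mem_Icc.2 ⟨by omega, by omega⟩
  have ha2 : a2 ∈ Icc lo hi := mem_Icc.2 ⟨by omega, by omega⟩
  exact
    { hk := by ring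
      g1 := g7
      g2 := by omega
      g3 := by omega
      A1p := AL.1
      A2p := A2p
      B1p := B1p
      B2p := BL.1
      KKp := Kr_pos hw hp BB.gx _ _ _
      f0 := fun y => bw_pos hw hp _ _ _
      G := G
      G' := G'
      eta0 := et0
      e1 := e1'
      nl := ⟨_, tpos (k := c0 + n1 + j) (c0 := c0) (K := n1 + j) hw hp f' ha1 ha2 AL.1 A2p, nr21 hw hp RR El he q⟩
      nr := ⟨_, tpos (k := c0 + n1 + j) (c0 := c0) (K := n1 + j) hw hp f' ha1 ha2 B1p BL.1, nr21 hw hp RR Er he q⟩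
      ρ1 := ρ1
      ri := ri
      r1 := by
        have Lf1 := S'.L1
        have Uf1 := S'.U1
        have h1 : 1 ≤ Lf * Uf * Lf := by
          calc (1 : ℝ) = 1 * 1 * 1 := by ring
            _ ≤ Lf * Uf * Lf := mul_le_mul (mul_le_mul Lf1 Uf1 zero_le_one (by linarith)) Lf1 zero_le_one (by positivity)
        nlinarith
      t12 := t12
      t21 := t21
      w1 := by
        have e : Real.log (am w p c0 n1 a1 b1 xa (fw w p rr c0) / am w p c0 n1 a2 b2 xa (fw w p rr c0)) =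
            -Real.log (am w p c0 n1 a2 b2 xa (fw w p rr c0) / am w p c0 n1 a1 b1 xa (fw w p rr c0)) := by
          rw [← Real.log_inv, inv_div]
        rw [e]
        linarith [BL.2]
      w2 := AL.2
      hM := hM }

end main

end

end Pool.Agent.W_7d29a1_C1.Sh21
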