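import Pool.Agent.W_7d29a1_C1.MirN99
import Pool.Agent.W_7d29a1_C1.SucN21

/-!
Both halves (MP_7d29a1_pr), attractor route [C1], (Y) BY CORNERS: SUCCESS => H1 FOR ONE CONTACT IN THE MIRROR FRAME. (helper99)

`sucm99` : the hypotheses of `Sh21.sucn21`, with the right neighbour of the off profile (`up`) next to the left one and one more column,
give `SucN` for the environment `wsh k w` and the profile read one column to the right.
-/

set_option autoImplicit false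
set_option linter.unusedSectionVars false

namespace Pool.Agent.W_7d29a1_C1.Mir99

open Finset Pool.Agent.W_7d29a1_C1.Gini76 Pool.Agent.W_7d29a1_C1.CR76 Pool.Agent.W_7d29a1_C1.K91P
  Pool.Agent.W_7d29a1_C1.Basin76 Pool.Agent.W_7d29a1_C1.R26P Pool.Agent.W_7d29a1_C1.F74
open Pool.Agent.W_7d29a1_C1.K91 (shw sum_shift zs cut)
open Pool.Agent.W_7d29a1_C1.K97 (ds Nr rz rt tm Reg)
open Pool.Agent.W_7d29a1_C1.P21
open Pool.Agent.W_7d29a1_C1.H1c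
open Pool.Agent.W_7d29a1_C1.Sh21

noncomputable section

variable {w : ℕ → ℤ → ℝ} {p : ℕ → ℝ} {lo hi h : ℤ} {c0 n1 ne nb n2 n3 m K J k : ℕ} {a1 b1 a2 b2 xa xb s da db ya yb za zb q : ℤ}
  {l rr f ph p1 pe p2 p3 ph' p1' pe' p2' p3' : ℤ → ℝ} {δ e e1 e2 ε ε' ρ β t U L L0 A0 A1 A2 A3 V G0 kap kap' M ef Uf Lf : ℝ}

/-- **SUCCESS => H1 FOR ONE CONTACT, MIRROR FRAME.** -/
theorem sucm99 (hw : ∀ k y, 0 < w k y) (hp : ∀ k, 0 < p k)
    (S : All w p lo h c0 n1 ne nb n3 a1 b1 a2 b2 xa xb s da db ya yb za zb ph p1 pe p2 p3 δ e U L L0 A0 A1 A2 A3)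
    (F : Fut w p lo (h + n1 + ne + nb + n3) (c0 + n1 + ne + nb + n3) m za zb p3 V G0)
    (S' : All w p lo h c0 n1 ne nb n3 a1 b1 a2 b2 xa xb s da db ya yb za zb ph' p1' pe' p2' p3' δ ef Uf Lf L0 A0 A1 A2 A3)
    (F0 : Fut w p lo (h + n1 + ne + nb + n3) (c0 + n1 + ne + nb + n3) 0 za zb p3' 1 1)
    (hl0 : ∀ y, 0 ≤ l y) (hr0 : ∀ y, 0 ≤ rr y) (hsl : ∀ y, fw w p l c0 y ≠ 0 → lo ≤ y ∧ y ≤ h)
    (hsr : ∀ y, fw w p rr c0 y ≠ 0 → lo ≤ y ∧ y ≤ h)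
    (I : SeamIn lo h (fw w p l c0) (fw w p rr c0) a1 b1 a2 b2 ph e1 e2) (he1 : 0 ≤ e1)
    (hn : n1 ≤ K) (hK : K + (n2 + 1) = n1 + ne + nb) (hk : k = c0 + K) (hJ : J = n2 + n3) (hh : h + (K : ℕ) < hi)
    (hf : f = bw w p (k + 1) (n2 + (n3 + m)))
    (hε : e * (V * L * U * L) * (V * L * U * L) ≤ ε) (hεf : ef * (Lf * Uf * Lf) * (Lf * Uf * Lf) ≤ ε)
    (hε1 : e1 * (V * L * U * L) * (V * L * U * L) ≤ ε) (sm : δ + 12 * ε ≤ 1 / 4)
    (ε1 : ε ≤ 1 / 8) (β1 : 1 ≤ β) (t0 : 0 ≤ t) (he : β / min 1 (p k) * ε + t ≤ ε')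
    (N : SucN w p lo hi l rr c0 K J k f a1 a2 q (am w p c0 n1 a1 b1 xa (fw w p l c0)) (am w p c0 n1 a2 b2 xa (fw w p l c0))
      (am w p c0 n1 a1 b1 xa (fw w p rr c0)) (am w p c0 n1 a2 b2 xa (fw w p rr c0)) (Kr w p (k + 1) n2 n3 m ya za zb) kap
      (et (p k) δ ε' ρ) ρ ((Lf * Uf * Lf) ^ 2) M)
    (rf : ∀ y ∈ Icc lo (hi + 1), f (y - 1) ≤ ρ * f y ∧ f (y + 1) ≤ ρ * f y)
    (ri : ∀ y ∈ Icc lo (hi + 1), bw w p (k + 1) J (y - 1) ≤ ρ * bw w p (k + 1) J y ∧ bw w p (k + 1) J (y + 1) ≤ ρ * bw w p (k + 1) J y)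
    (up : ∀ y ∈ Icc lo (hi + 1), ev w p (k + 1) n2 (n3 + m) (fun z => ¬ (ya ≤ z ∧ z ≤ yb)) (y + 1) ≤
      β * ev w p (k + 1) n2 (n3 + m) (fun z => ¬ (ya ≤ z ∧ z ≤ yb)) y + t * bw w p (k + 1) (n2 + (n3 + m)) (y + 1))
    (up0 : ∀ y ∈ Icc lo (hi + 1), ev w p (k + 1) n2 n3 (fun z => ¬ (ya ≤ z ∧ z ≤ yb)) (y + 1) ≤
      β * ev w p (k + 1) n2 n3 (fun z => ¬ (ya ≤ z ∧ z ≤ yb)) y + t * bw w p (k + 1) (n2 + n3) (y + 1))
    (hkk : kap ≤ kap') (hkρ : ρ ≤ kap') (e1' : (1 + p k) * (ρ ^ 2 * et (p k) δ ε' ρ) ≤ 1 / 2)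
    (hM : Real.log (rrn (p k) ρ (ρ ^ 2 * (Lf * Uf * Lf) ^ 2)) + 1 ≤ M) :
    SucN (wsh k w) p lo hi l rr c0 K J k (fun y => f (y + 1)) a1 a2 q (am w p c0 n1 a1 b1 xa (fw w p l c0))
      (am w p c0 n1 a2 b2 xa (fw w p l c0)) (am w p c0 n1 a1 b1 xa (fw w p rr c0)) (am w p c0 n1 a2 b2 xa (fw w p rr c0))
      (Kr w p (k + 1) n2 n3 m ya za zb) kap' (ρ ^ 2 * et (p k) δ ε' ρ) ρ (ρ ^ 2 * (Lf * Uf * Lf) ^ 2) M := by
  have q1 := mem_Icc.1 N.G.q1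
  have q2 := mem_Icc.1 N.G.q2
  have f0 := N.f0
  refine Mir99.SucN.mir hw hp N (mul_nonneg (by positivity) N.eta0) e1' ?_ ?_ N.ρ1 ri hkk hkρ ?_ ?_ hM
  · obtain ⟨j, rfl⟩ : ∃ j, K = n1 + j := ⟨K - n1, by omega⟩
    have hk' : k = c0 + n1 + j := by omega
    clear hk
    subst hk'
    subst hJ
    subst hf
    have g := S.g
    have g1 := g.h1
    have g2 := g.h2
    have g3 := g.h3
    have g7 := g.h7
    have g8 := g.h8
    have nn0 : (0 : ℤ) ≤ ((n1 + j : ℕ) : ℤ) := by positivity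
    have hj : j + (n2 + 1) = ne + nb := by omega
    have El := S.ent hw hp F hl0 hsl hh hj he1 I.I.offa hε hε1 ε1
    have OO := S.outs hw hp F S' F0 hε hεf
    have BB := S.bufs hw hp F S' F0 hε hεf
    have i1 : n1 + j + (n2 + 1) = n1 + ne + nb := by omega
    have i2 : c0 + n1 + j + 1 + n2 = c0 + n1 + ne + nb := by omega
    have RR : Row21m w p lo hi c0 n1 j n2 n3 m a1 b2 ya yb za zb δ ε ρ β t :=
      { B := by rw [i2]; exact BB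
        O := by rw [i1]; exact OO
        ρ1 := N.ρ1
        β1 := β1
        t0 := t0
        sm := sm
        rf := rf
        ri := ri
        up := up
        up0 := up0 }
    have f' : ∀ y, 0 < Pm w p (c0 + n1 + j) n2 n3 m ya za zb (y + 1) := fun y => Pm_pos hw hp BB.gx _ _
    have ha1 : a1 ∈ Icc lo hi := mem_Icc.2 ⟨by omega, by omega⟩
    have ha2 : a2 ∈ Icc lo hi := mem_Icc.2 ⟨by omega, by omega⟩
    exact ⟨_, tpos (k := c0 + n1 + j) (c0 := c0) (K := n1 + j) hw hp f' ha1 ha2 N.A1p N.A2p, nr21m hw hp RR El he q⟩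
  · obtain ⟨j, rfl⟩ : ∃ j, K = n1 + j := ⟨K - n1, by omega⟩
    have hk' : k = c0 + n1 + j := by omega
    clear hk
    subst hk'
    subst hJ
    subst hf
    have g := S.g
    have g1 := g.h1
    have g2 := g.h2
    have g3 := g.h3
    have g7 := g.h7
    have g8 := g.h8
    have nn0 : (0 : ℤ) ≤ ((n1 + j : ℕ) : ℤ) := by positivity
    have hj : j + (n2 + 1) = ne + nb := by omega
    have Er := S.ent hw hp F hr0 hsr hh hj he1 I.I.offb hε hε1 ε1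
    have OO := S.outs hw hp F S' F0 hε hεf
    have BB := S.bufs hw hp F S' F0 hε hεf
    have i1 : n1 + j + (n2 + 1) = n1 + ne + nb := by omega
    have i2 : c0 + n1 + j + 1 + n2 = c0 + n1 + ne + nb := by omega
    have RR : Row21m w p lo hi c0 n1 j n2 n3 m a1 b2 ya yb za zb δ ε ρ β t :=
      { B := by rw [i2]; exact BB
        O := by rw [i1]; exact OO
        ρ1 := N.ρ1
        β1 := β1
        t0 := t0
        sm := sm
        rf := rf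
        ri := ri
        up := up
        up0 := up0 }
    have f' : ∀ y, 0 < Pm w p (c0 + n1 + j) n2 n3 m ya za zb (y + 1) := fun y => Pm_pos hw hp BB.gx _ _
    have ha1 : a1 ∈ Icc lo hi := mem_Icc.2 ⟨by omega, by omega⟩
    have ha2 : a2 ∈ Icc lo hi := mem_Icc.2 ⟨by omega, by omega⟩
    exact ⟨_, tpos (k := c0 + n1 + j) (c0 := c0) (K := n1 + j) hw hp f' ha1 ha2 N.B1p N.B2p, nr21m hw hp RR Er he q⟩
  · have r := (rf (q + 1) (mem_Icc.2 ⟨by omega, by omega⟩)).1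
    rw [add_sub_cancel_right] at r
    exact r.trans (mul_le_mul_of_nonneg_right hkρ (f0 _).le)
  · have r := (rf q (mem_Icc.2 ⟨by omega, by omega⟩)).2
    exact r.trans (mul_le_mul_of_nonneg_right hkρ (f0 _).le)

end

end Pool.Agent.W_7d29a1_C1.Mir99
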