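import Pool.Agent.W_7d29a1_C1.ShlP45
import Pool.Agent.W_7d29a1_C1.KStp21

/-!
Both halves (MP_7d29a1_pr), attractor route [C1], SHELL: THE TWO HALVES OF `LsU`. (helper44)

`LsP44` : at one place, from the facts of the first buffer, of the exit and of the inside, the record `Pcs` and `KSep`, with the order of the
constants of `LsU` (definition only). `In44` : the facts of the inside (`ins44`), `Bx44` : the columns (`Geo58`).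
-/

set_option autoImplicit false

namespace Pool.Agent.W_7d29a1_C1.Lt44

open MeasureTheory ProbabilityTheory Filter Topology Finset
open Pool.Agent.W_7d29a1_F Pool.Agent.W_7d29a1_h4g Pool.Agent.W_7d29a1_H Pool.Agent.W_7d29a1_HS
open Pool.Agent.W_7d29a1_C1.T10 Pool.Agent.W_7d29a1_C1.S71
open Pool.Agent.W_7d29a1_C1.K91 (wt)
open Pool.Agent.W_7d29a1_C1.F74 (cl2)
open Pool.Agent.W_7d29a1_C1.D31 (En31)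
open Pool.Agent.W_7d29a1_C1.FarW89 (nk)
open Pool.Agent.W_7d29a1_C1.JnC35 (ln35)
open Pool.Agent.W_7d29a1_C1.Fr47 (NS47)
open Pool.Agent.W_7d29a1_C1.Sh21 (Pcs KSep)
open Pool.Agent.W_7d29a1_C1.F45
open Pool.Agent.W_7d29a1_C1.P24 (FXz24)

noncomputable section

/-- **The inside at one place** (`ins44`): `κ` = middle of the box, `c0'` = end of the lanes, `r₁` = end of the first buffer, `e` = exit row. -/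
structure In44 (μ : Measure ℝ) (s c : ℝ) (P : ℕ) (T : ℕ) (κ : Pt) (hh : ℝ) (p : ℕ → ℝ) (M : ℕ) (ζ : Env) (c₂ σ qin Ui : ℝ) (c0' r₁ e : ℕ) :
    Prop where
  up : ∀ P', 2 * P ≤ P' → ∀ I J : Finset ℤ, En31 P' (c / 64) c₂ (EE μ s T) (wd μ s T) qin σ (fun z => (z : ℝ) - ln35 μ s κ r₁)
    (fun z => (z : ℝ) - ln35 μ s κ e) (nk μ s hh ζ p M r₁ (e - r₁)) I J
  lo : ∀ z z' : ℤ, |(z : ℝ) - ln35 μ s κ c0'| ≤ 2 * wd μ s T → |(z' : ℝ) - ln35 μ s κ e| ≤ 2 * wd μ s T →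
    Real.exp (-(Ui * EE μ s T)) ≤ nk μ s hh ζ p M c0' (e - c0') z z'

/-- **The columns at one place** (`Geo58.col`). -/
def Bx44 (μ : Measure ℝ) (s : ℝ) (T : ℕ) (z : ℕ × ℤ) (κ : Pt) (ρ : ℝ) : Prop :=
  ∀ (k : ℕ) (y : ℤ), z.1 ≤ k + T → |(y : ℝ) - ln35 μ s κ k| ≤ ρ * wd μ s T → 0 ≤ y ∧ y ≤ k

/-- **THE RECORD AT ONE PLACE**: what `LsP44` gives, sizes in the unit `E = EE T`. `λ` = cost of the halves, `c0` = cost inside a cell,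
`f` = size of the kernel of the cells, `gs` = separation, `ge` = real errors. -/
def Rc44 (μ : Measure ℝ) (s : ℝ) (σ : NS47) (n1 : ℕ → ℕ) (j : ℕ) (z : ℕ × ℤ) (Γk : ℕ) (p : ℕ → ℝ) (ζ : Env)
    (cδ lam c0 f gs ge : ℝ) : Prop :=
  ∃ (na ng nb n3 : ℕ) (xa xb sc da db ya yb za zb va vb xm xn ua ub : ℤ) (d0 : Finset ℤ) (kc k1 kg ke k2 : ℤ → ℤ → ℝ)
    (δ eR eS L L0 A0 Aa Am A2 A3 : ℝ),
    Pcs (wt ζ) p 0 (Γk + σ.c0 j z) (σ.c0 j z) (n1 j) na ng nb n3 (z.2 + σ.α₁ j) (z.2 + σ.β₁ j) (z.2 + σ.α₂ j) (z.2 + σ.β₂ j) xa xb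
      da db ya yb za zb va vb xm xn ua ub d0 kc (σ.k0 j z) k1 kg ke k2 δ eR L L0 A0 Aa Am A2 A3 ∧
    KSep (wt ζ) p 0 (Γk + σ.c0 j z) (σ.c0 j z) (n1 j) (z.2 + σ.α₁ j) (z.2 + σ.α₂ j) sc (Icc 0 (Γk + σ.c3 j z)) kc k1 eS A0 ∧
    -- rows
    (za + zb) / 2 = z.2 + σ.ζc j ∧ n1 j + na + ng + nb + n3 = 2 * σ.T j ∧ nb = σ.T j / 32 ∧ n1 j + na + ng + 1 = σ.T j + (5 * (σ.T j / 8) + 6 * (σ.T j / 32)) ∧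
    -- sizes
    (∀ a ∈ cl2 (z.2 + σ.α₁ j) (z.2 + σ.β₁ j) (z.2 + σ.α₂ j) (z.2 + σ.β₂ j), ∑ v ∈ Icc (0 : ℤ) (Γk + σ.c3 j z), kc a v ≤
      Real.exp (f * EE μ s (σ.T j))) ∧
    δ ≤ Real.exp 32 * Real.exp (-((σ.T j : ℝ) ^ cδ)) ∧ 0 ≤ eS ∧ L ≤ Real.exp (lam * EE μ s (σ.T j)) ∧ L0 ≤ Real.exp (c0 * EE μ s (σ.T j)) ∧
    eS ≤ Real.exp (-(gs * EE μ s (σ.T j))) ∧ eR ≤ Real.exp (-(ge * EE μ s (σ.T j)))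

/-- **THE PLACE.** Constants in the order of `LsU`: `ell K0 d th x` | tails `P` | `c₂ σ` (rates of the inside), `ck`, `f`, `c0`, `B₀`, `pp`, `ρ` | levels
`qin`, `Ui` of the inside | `gs` | `gU`, `g` | `o` | `PU`, `cδ` | envelope of `So47` | `ge` | walls `w`, `p` | exit `GX KX` | `n₂`. -/
def LsP44 (μ : Measure ℝ) (s c : ℝ) : Prop :=
  ∀ (ell K0 : ℝ), 0 ≤ ell → 0 ≤ K0 → ∀ (d th : ℝ), 0 < d → d ≤ 1 → 0 < th → th ≤ 1 / 4 → ∀ x : ExO, x.Ok (d / 4) → ∀ P : ℕ,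
    ∃ (c₂ σ ck f c0 B₀ ρ : ℝ) (pp : ℕ), 0 < c₂ ∧ 0 < σ ∧ 0 < ck ∧ 0 ≤ f ∧ 0 ≤ c0 ∧ 0 ≤ B₀ ∧ 0 ≤ ρ ∧ ∀ qin Ui : ℝ, 0 ≤ qin → 0 ≤ Ui →
    ∀ gs : ℝ, 0 ≤ gs → ∃ gU : ℝ, ∀ g : ℝ, 0 ≤ g → gU ≤ g → ∀ o : LnO, o.Ok (lnI c d th K0) → ∃ (PU : ℕ) (cδ : ℝ), 0 < cδ ∧
    ∀ P₀ : ℕ, PU ≤ P₀ → 1 ≤ P₀ → ∃ QU SU : ℝ, ∀ c₁₀ c₃₀ Q₀ S₀ : ℝ, 0 < c₁₀ → c₁₀ ≤ ck → 0 < c₃₀ → c₃₀ ≤ ck → 0 ≤ Q₀ → QU ≤ Q₀ → 0 ≤ S₀ →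
    SU ≤ S₀ → ∀ ge : ℝ, 0 ≤ ge → ∃ KwU gxU G'U : ℝ, ∀ w : LnJ, w.Ok → KwU ≤ w.Kw → gxU ≤ w.gx → G'U ≤ w.G' → ∀ p : LnP, p.Ok w →
    ∃ GU KU : ℝ, ∀ GX KX : ℝ, 0 ≤ GX → GU ≤ GX → 0 ≤ KX → KU ≤ KX → ∃ n₂ : ℕ, ∀ (T : ℕ → ℕ) (cm : ℕ → ℤ) (j m₂ : ℕ) (z : ℕ × ℤ) (Γk : ℕ) (hh : ℝ)
      (pr : ℕ → ℝ) (M : ℕ) (ζ : Env) (φ v v₁ g₂ : ℝ), n₂ ≤ T j → 32 ∣ T j → T j ≤ z.1 → (∀ k, k < M → pr k = Real.exp (s + hh)) →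
      (∀ k, M ≤ k → pr k = Real.exp s) → |hh| * T j ≤ 1 / 8 → Bx44 μ s (T j) z ((z.1 : ℤ), z.2 + cm j) ρ →
      FA45 μ s c d th (lnI c d th K0) ell g o w p T cm j ((z.1 : ℤ), z.2) ζ → FB45 μ s c d th (lnI c d th K0) ell g o w p T cm j ((z.1 : ℤ), z.2) ζ →
      FX45 μ s c x GX KX T cm j ((z.1 : ℤ), z.2) ζ →
      In44 μ s c P (T j) ((z.1 : ℤ), z.2 + cm j) hh pr M ζ c₂ σ qin Ui (cF th (R145 o p.Q) z.1 (T j))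
        (cF th (R145 o p.Q) z.1 (T j) + p.Q * o.j1 * kF th (R145 o p.Q) (T j)) (z.1 + 5 * T j / 8) →
      Rc44 μ s (sg45 μ s d th o p.Q ⟨P₀, c₁₀, c₃₀, Q₀, S₀⟩ T cm m₂ φ v v₁ g₂) (n145 th o p.Q T) j z Γk pr ζ cδ (B₀ * (1 + qin + Ui) ^ pp) c0 f
        gs ge

end

end Pool.Agent.W_7d29a1_C1.Lt44
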