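import Pool.Agent.W_7d29a1_C1.SucS46
import Pool.Agent.W_7d29a1_C1.SucP44

/-!
Both halves (MP_7d29a1_pr), attractor route [C1], SHELL: THE SUCCESS FROM THE RECORD `Rc44`. (helper46)

`suc9_rc46` : `suc9_pcs46` at the record of one place, all variables of `Pcs` and `KSep` consumed: rows (`D' = D45`, the spare rows
`⌈n ^ em⌉ + 1 <= T / 32`), cross ratio (`dl54`), sizes in the unit `EE (T_l)`.
-/

set_option autoImplicit false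
set_option linter.unusedSectionVars false

namespace Pool.Agent.W_7d29a1_C1.S46

open MeasureTheory Filter Topology Finset
open Pool.Agent.W_7d29a1_F Pool.Agent.W_7d29a1_H Pool.Agent.W_7d29a1_HS
open Pool.Agent.W_7d29a1_C1.S71
open Pool.Agent.W_7d29a1_C1.T10 (Tg)
open Pool.Agent.W_7d29a1_C1.H60 (Cx)
open Pool.Agent.W_7d29a1_C1.Fr47 (NS47 So47)
open Pool.Agent.W_7d29a1_C1.Lt9 (Suc9 W47)
open Pool.Agent.W_7d29a1_C1.H54 (gC54 fC54 xC54 dl54)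
open Pool.Agent.W_7d29a1_C1.Lt44 (Rc44)

noncomputable section

variable {μ : Measure ℝ} [IsProbabilityMeasure μ] {st : ℝ} {c₀ C₀ : ℝ} {n₀ : ℕ}

/-- The spare rows. -/
theorem spare46 {b em : ℝ} (hem : em < b) (hb : 0 < b) :
    ∀ᶠ n : ℕ in atTop, ∀ T : ℕ, (n : ℝ) ^ b ≤ T → ⌈(n : ℝ) ^ em⌉₊ + 1 ≤ T / 32 := by
  have t1 : Tendsto (fun n : ℕ => (n : ℝ) ^ (b - em)) atTop atTop :=
    (tendsto_rpow_atTop (by linarith)).comp tendsto_natCast_atTop_atTop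
  have t2 : Tendsto (fun n : ℕ => (n : ℝ) ^ b) atTop atTop := (tendsto_rpow_atTop hb).comp tendsto_natCast_atTop_atTop
  filter_upwards [t1.eventually_ge_atTop 64, t2.eventually_ge_atTop 256, eventually_ge_atTop 1] with n h1 h2 hn1 T hT
  have n0 : (0 : ℝ) < n := by exact_mod_cast hn1
  have e1 : (n : ℝ) ^ b = (n : ℝ) ^ (b - em) * (n : ℝ) ^ em := by
    rw [← Real.rpow_add n0]
    congr 1
    ring
  have h3 : 64 * (n : ℝ) ^ em ≤ (n : ℝ) ^ b := by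
    rw [e1]
    exact mul_le_mul_of_nonneg_right h1 (Real.rpow_nonneg n0.le _)
  have h4 := Nat.ceil_lt_add_one (Real.rpow_nonneg n0.le em)
  have h5 : ((32 * (⌈(n : ℝ) ^ em⌉₊ + 1) : ℕ) : ℝ) ≤ T := by
    push_cast
    nlinarith
  have h6 : 32 * (⌈(n : ℝ) ^ em⌉₊ + 1) ≤ T := by exact_mod_cast h5
  omega

/-- **THE SUCCESS FROM THE RECORD.** -/
theorem suc9_rc46 (hI : In μ st c₀ C₀ n₀) (hE9 : ∀ᶠ n : ℕ in atTop, (n : ℝ) ^ (1 / 9 : ℝ) ≤ EE μ st n) {e₀ e a em cδ : ℝ} (he₀ : 0 < e₀)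
    (he : e ≤ 1 / 32) (ha : 0 < a) (hae : a ≤ e₀ / 72) (hem : em < e₀ / 4) (hcδ : 0 < cδ) (hac : a < e₀ / 4 * cδ)
    {lam c0 f gs ge phO : ℝ} (hl0 : 0 ≤ lam) (hf : 0 ≤ f) (hph : 0 ≤ phO) {K : ℕ} (hK : 1 ≤ K) (m₂ : ℕ)
    (hgs : f + fC54 lam (3 * lam + f) ≤ gs) (hge : 5 * lam + gC54 (phO * (K : ℝ) ^ m₂) (3 * lam) lam + 2 ≤ ge)
    (hge' : 5 * lam + gs + 2 ≤ ge) :
    ∀ᶠ n : ℕ in atTop, ∀ (h₀ l : ℕ), 1 ≤ l → (n : ℝ) ^ (e₀ / 4) ≤ (Tg h₀ K l : ℕ) → ((Tg h₀ K l : ℕ) : ℝ) ≤ 2 * (n : ℝ) ^ e →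
      ∀ {Γ : Cx} {σ : NS47} {n1 D' : ℕ → ℕ} {z : ℕ × ℤ} {η : Env} {v g₂ : ℝ}, σ.T l = Tg h₀ K l →
      η ∈ So47 Γ σ l z → Rc44 μ st σ n1 l z Γ.k Γ.p η cδ lam c0 f gs ge →
      D' l = σ.T l + (5 * (σ.T l / 8) + 6 * (σ.T l / 32)) - 1 → z.1 + σ.T l + 1 ≤ Γ.N → z.2 + σ.α₂ l ≤ σ.c0 l z →
      1 ≤ σ.Φ l → 0 ≤ σ.e1 l → 0 ≤ σ.e2 l →
      -- sizes, unit `EE (T_(l + m₂))`
      σ.Φ l ≤ Real.exp (phO * EE μ st (Tg h₀ K (l + m₂))) → gC54 (phO * (K : ℝ) ^ m₂) (3 * lam) lam ≤ v →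
      σ.e1 l ≤ Real.exp (-(v * EE μ st (Tg h₀ K (l + m₂)))) → σ.e2 l ≤ Real.exp (-(g₂ * EE μ st (Tg h₀ K (l + m₂)))) →
      xC54 c0 lam (3 * lam + f) * EE μ st (Tg h₀ K l) + 8 ≤ g₂ * EE μ st (Tg h₀ K (l + m₂)) →
      Suc9 Γ (W47 σ n1 D') n a (⌈(n : ℝ) ^ em⌉₊ + 1) l z η := by
  filter_upwards [suc9_pcs46 hI hE9 he₀ he ha hae (ℓ := lam) (f := f) (gX := gs) (phO := phO) (G := ge) (c0' := c0) hl0 hf hph hK m₂ hgs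
    hge hge', spare46 hem (by linarith), dl54 ha hcδ hac (Real.exp 32) one_pos] with n key hsp hdl
  intro h₀ l hl hT1 hT2 Γ σ n1 D' z η v g₂ hTl hS hR hD hN ha2 hΦ he1 he2 bΦ bv be1 be2 bx
  obtain ⟨na, ng, nb, n3, xa, xb, sc, da, db, ya, yb, za, zb, va, vb, xm, xn, ua, ub, d0, kc, k1, kg, ke, k2, δ, eR, eS, L, L0, A0, Aa, Am,
    A2, A3, P, S, hzc, hrow, hnb, hrD, hΦf, bδ, heS, bL, bL0, beS, beR⟩ := hR
  have hE1 : 1 ≤ EE μ st (Tg h₀ K l) := one_le_EE (μ := μ) (s := st) _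
  have hsp' := hsp _ hT1
  have hdl' := hdl _ (by rw [one_mul]; exact hT1)
  rw [hTl] at hΦf bδ bL bL0 beS beR
  have hnb' : nb = Tg h₀ K l / 32 := by rw [hnb, hTl]
  exact key h₀ l hl hT1 hT2 hS P S hzc hrow hN ha2 (by omega) (by omega) hΦf
    (Real.one_le_exp (mul_nonneg hf (by linarith))) hΦ he1 he2 (bδ.trans hdl') bL bL0 le_rfl beR beS bΦ bv be1 be2 bx

end

end Pool.Agent.W_7d29a1_C1.S46
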