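import Pool.Agent.W_7d29a1_C1.Sw70
import Pool.Agent.W_7d29a1_C1.Tm31

/-!
MP_7d29a1_pr, [C1]: THE SWITCH ROW MAY BE MOVED OUT OF A TOWER: the statements `Lr31`, `TM31`. (helper70)

`lr_fut70`, `lr_past70`: `Lr31` for the masses with the switch row `M'` gives `Lr31` for the masses with the switch row `M`, with `A + 1`
in the place of `A`, if `4 |h| D ≤ E (T b)`.
-/

set_option autoImplicit false

namespace Pool.Agent.W_7d29a1_C1.Swm70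

open MeasureTheory Finset
open Pool.Agent.W_7d29a1_F Pool.Agent.W_7d29a1_h4g Pool.Agent.W_7d29a1_H Pool.Agent.W_7d29a1_HS
open Pool.Agent.W_7d29a1_C1.S71 Pool.Agent.W_7d29a1_C1.T10 Pool.Agent.W_7d29a1_C1.D31
open Pool.Agent.W_7d29a1_C1.H60 (Cx)
open Pool.Agent.W_7d29a1_C1.K91 (wt wt_pos)
open Pool.Agent.W_7d29a1_C1.H75 Pool.Agent.W_7d29a1_C1.U16
open Pool.Agent.W_7d29a1_C1.FarW89 (nk bl)
open Pool.Agent.W_7d29a1_C1.SysP84 (fh84)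

noncomputable section

variable {μ : Measure ℝ} {s h : ℝ} {D M M' : ℕ} {p p' : ℕ → ℝ} {η : Env}

/-- The profile of the frame. -/
theorem cx70 (Γ : Cx) (hs : Γ.s = s) (M' : ℕ) (d1 : Γ.M ≤ M' + D) (d2 : M' ≤ Γ.M + D) :
    Sw70 s Γ.h D Γ.M M' Γ.p (pr70 s Γ.h M') := by
  subst hs
  refine mk70 (fun k hk => ?_) (fun k hk => ?_) M' d1 d2
  · unfold Cx.p
    rw [if_pos hk]
  · unfold Cx.p
    rw [if_neg (by omega)]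

variable [IsProbabilityMeasure μ]

/-- One more unit in the constant of `Lr31`. -/
theorem lr_up70 {κ : Pt} {T : ℕ → ℕ} {Mt : ℕ} {K₁ A Φ σ q : ℝ} {F F' : ℤ → ℝ} {row b : ℕ} (hΦ : 1 ≤ Φ) (hF : ∀ y, 0 ≤ F y)
    (hq : q ≤ EE μ s (T b)) (hFF : ∀ (x x' : ℤ) (X : ℝ), F' x ≤ Real.exp X * F' x' → F x ≤ Real.exp (X + q) * F x')
    (H : Lr31 μ s κ T Mt K₁ A Φ σ F' row b) : Lr31 μ s κ T Mt K₁ (A + 1) Φ σ F row b := by
  intro n hn y y₀ h1 h2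
  refine (hFF y y₀ _ (H n hn y y₀ h1 h2)).trans (mul_le_mul_of_nonneg_right (Real.exp_le_exp.2 ?_) (hF y₀))
  have hE := EE_pos (μ := μ) (s := s) (T b)
  have h3 : 1 * EE μ s (T b) ≤ Φ ^ n * EE μ s (T b) := mul_le_mul_of_nonneg_right (one_le_pow₀ hΦ) hE.le
  linarith

/-- **`Lr31` of the future.** -/
theorem lr_fut70 (H : Sw70 s h D M M' p p') (s0 : 0 ≤ sl μ s) (s1 : sl μ s ≤ 1) {κ : Pt} {T : ℕ → ℕ} {Mt N a : ℕ} {K₁ A Φ σ : ℝ}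
    {row b : ℕ} (hΦ : 1 ≤ Φ) (hq : 4 * (|h| * D) ≤ EE μ s (T b))
    (hL : Lr31 μ s κ T Mt K₁ A Φ σ (bh16 μ s h η p' M' N a) row b) :
    Lr31 μ s κ T Mt K₁ (A + 1) Φ σ (bh16 μ s h η p M N a) row b :=
  lr_up70 hΦ (fun y => bh_nonneg70 H.pos N a y) hq (fun _ _ _ hX => bh_rat70 H s0 s1 hX) hL

/-- **`Lr31` of the past.** -/
theorem lr_past70 (H : Sw70 s h D M M' p p') (s0 : 0 ≤ sl μ s) (s1 : sl μ s ≤ 1) {l : ℤ → ℝ} (hl : ∀ y, 0 ≤ l y) {κ : Pt}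
    {T : ℕ → ℕ} {Mt i : ℕ} {K₁ A Φ σ : ℝ} {row b : ℕ} (hΦ : 1 ≤ Φ) (hq : 4 * (|h| * D) ≤ EE μ s (T b))
    (hL : Lr31 μ s κ T Mt K₁ A Φ σ (fh84 μ s h η p' M' l i) row b) :
    Lr31 μ s κ T Mt K₁ (A + 1) Φ σ (fh84 μ s h η p M l i) row b :=
  lr_up70 hΦ (fun y => SysP84.fh_nonneg H.pos hl i y) hq (fun _ _ _ hX => fh_rat70 H s0 s1 hl hX) hL

end

end Pool.Agent.W_7d29a1_C1.Swm70
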