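import Pool.Agent.W_7d29a1_C1.Swap87
import Pool.Agent.W_7d29a1_C1.CmpG20

/-!
MP_7d29a1_pr, [C1] attractor route, SEP, the gate: FROM GOOD PAIRS OF PATHS TO THE GATE, over K91P. (helper87)

`gateD87`: `S` = the paths of the contact inside the core, `D` = pairs of paths of `S` such that the group avoids both only with the share
`ε`. If the pairs of `D` carry the share `θ`, then `(θ (1 - ε) / 2) * (fw m b v * Zc S) ≤ Z_m * ker v`.
`gateE87`: the property `CmpG20.Gate` of the gate row.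
-/

set_option autoImplicit false

namespace Pool.Agent.W_7d29a1_C1.Sw87

open Finset
open Pool.Agent.W_7d29a1_C1.K91 (Box Grp)
open Pool.Agent.W_7d29a1_C1.K91P
open Pool.Agent.W_7d29a1_C1.U16 (ker ker_zero ker_succ ker_nonneg ker_eq_zero fw_ker bw_ker)
open Pool.Agent.W_7d29a1_C1.Cnt58 (Gr Zt)

noncomputable section

variable {w : ℕ → ℤ → ℝ} {p : ℕ → ℝ} {m : ℤ → ℝ} {lo hi : ℤ} {N : ℕ}

theorem mAv2_nonneg (hw : ∀ k y, 0 < w k y) (hp : ∀ k, 0 < p k) (h : Gr m lo hi N) (a : ℕ) (x v : ℤ) (s t : List Bool) :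
    0 ≤ mAv2 w p m lo hi a x v s t := by
  unfold mAv2
  refine sum_nonneg fun y _ => mul_nonneg (fw_nonneg hw hp h.m0 _ _) (sum_nonneg fun u _ => ?_)
  split_ifs
  · exact le_rfl
  · exact mul_nonneg (pW_nonneg hw hp _ _ _) (pt_nonneg _ _)

theorem mAv2_le (hw : ∀ k y, 0 < w k y) (hp : ∀ k, 0 < p k) (h : Gr m lo hi N) {a n : ℕ} (hN : a + n ≤ N) (x v : ℤ)
    {s t : List Bool} (hs : s.length = n) : mAv2 w p m lo hi a x v s t ≤ fw w p m (a + n) v := by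
  rw [Cnt58.fw_box h hN v]
  unfold mAv2
  refine sum_le_sum fun y _ => mul_le_mul_of_nonneg_left ?_ (fw_nonneg hw hp h.m0 _ _)
  rw [← vf_pt, vf_pl, hs]
  refine sum_le_sum fun u _ => ?_
  split_ifs
  · exact mul_nonneg (pW_nonneg hw hp _ _ _) (pt_nonneg _ _)
  · exact le_rfl

/-- The weight of a pair of paths of the contact. -/
def qq (w : ℕ → ℤ → ℝ) (p : ℕ → ℝ) (N a n : ℕ) (x : ℤ) (s : List Bool) : ℝ := pW w p a x s * bw w p (a + n) (N - (a + n)) (pe x s)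

theorem qq_nonneg (hw : ∀ k y, 0 < w k y) (hp : ∀ k, 0 < p k) (a n : ℕ) (x : ℤ) (s : List Bool) : 0 ≤ qq w p N a n x s :=
  mul_nonneg (pW_nonneg hw hp _ _ _) (bw_pos hw hp _ _ _).le

theorem Zc_qq (a n : ℕ) (x : ℤ) (S : Finset (List Bool)) : Zc w p N a n x S = ∑ s ∈ S, qq w p N a n x s := rfl

theorem le_of_sq_le_sq87 {x y : ℝ} (h : x ^ 2 ≤ y ^ 2) (hy : 0 ≤ y) : x ≤ y := by
  nlinarith [sq_nonneg (x - y), sq_nonneg (x + y)]

open Classical in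
/-- **THE GATE FROM GOOD PAIRS.** -/
theorem gateD87 (hw : ∀ k y, 0 < w k y) (hp : ∀ k, 0 < p k) (h : Gr m lo hi N) {a n : ℕ} (hN : a + n ≤ N) (x v : ℤ)
    {S : Finset (List Bool)} (hS : S ⊆ pl n) (D : List Bool → List Bool → Prop) {θ ε : ℝ} (hθ : 0 ≤ θ) (hθ1 : θ ≤ 1) (hε : 0 ≤ ε) (hε1 : ε ≤ 1)
    (hD : θ * Zc w p N a n x S ^ 2 ≤ ∑ s ∈ S, ∑ t ∈ S, if D s t then qq w p N a n x s * qq w p N a n x t else 0)
    (hav : ∀ s ∈ S, ∀ t ∈ S, D s t → mAv2 w p m lo hi a x v s t ≤ ε * fw w p m (a + n) v) :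
    θ * (1 - ε) / 2 * (fw w p m (a + n) v * Zc w p N a n x S) ≤ Zt w p m lo hi N * ker w p a n x v := by
  obtain ⟨F, hF⟩ : ∃ F, F = fw w p m (a + n) v := ⟨_, rfl⟩
  obtain ⟨Z, hZ⟩ : ∃ Z, Z = Zc w p N a n x S := ⟨_, rfl⟩
  have F0 : 0 ≤ F := hF ▸ fw_nonneg hw hp h.m0 _ _
  have Z0 : 0 ≤ Z := hZ ▸ Zc_nonneg hw hp _ _ _ _
  have q0 : ∀ s, 0 ≤ qq w p N a n x s := fun s => qq_nonneg hw hp a n x s
  have k1 := mAv2_ge hw hp h hN x v hS (qq w p N a n x)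
  have k2 : ∑ s ∈ S, ∑ t ∈ S, qq w p N a n x s * qq w p N a n x t * mAv2 w p m lo hi a x v s t ≤
      F * Z ^ 2 - (1 - ε) * F * ∑ s ∈ S, ∑ t ∈ S, if D s t then qq w p N a n x s * qq w p N a n x t else 0 := by
    have e1 : F * Z ^ 2 = ∑ s ∈ S, ∑ t ∈ S, F * (qq w p N a n x s * qq w p N a n x t) := by
      rw [hZ, Zc_qq, sq, sum_mul_sum, mul_sum]
      exact sum_congr rfl fun s _ => by rw [mul_sum]
    rw [e1, mul_sum, ← sum_sub_distrib]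
    refine sum_le_sum fun s hs => ?_
    rw [mul_sum, ← sum_sub_distrib]
    refine sum_le_sum fun t ht => ?_
    have u1 := mAv2_le (w := w) (p := p) hw hp h hN x v (t := t) (mem_pl.1 (hS hs))
    rw [← hF] at u1
    have u2 : 0 ≤ qq w p N a n x s * qq w p N a n x t := mul_nonneg (q0 s) (q0 t)
    by_cases hst : D s t
    · rw [if_pos hst]
      have u3 := hav s hs t ht hst
      rw [← hF] at u3
      calc _ ≤ qq w p N a n x s * qq w p N a n x t * (ε * F) := mul_le_mul_of_nonneg_left u3 u2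
        _ = _ := by ring
    · rw [if_neg hst]
      calc _ ≤ qq w p N a n x s * qq w p N a n x t * F := mul_le_mul_of_nonneg_left u1 u2
        _ = _ := by ring
  have k3 : (∑ s ∈ S, qq w p N a n x s * mAv w p m lo hi a x v s) ^ 2 ≤ (1 - θ * (1 - ε)) * (F * Z) ^ 2 := by
    rw [← hF] at k1
    rw [← hZ] at hD
    calc _ ≤ _ := k1
      _ ≤ F * (F * Z ^ 2 - (1 - ε) * F * ∑ s ∈ S, ∑ t ∈ S, if D s t then qq w p N a n x s * qq w p N a n x t else 0) :=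
          mul_le_mul_of_nonneg_left k2 F0
      _ ≤ F * (F * Z ^ 2 - (1 - ε) * F * (θ * Z ^ 2)) := by
          refine mul_le_mul_of_nonneg_left ?_ F0
          have : (1 - ε) * F * (θ * Z ^ 2) ≤ (1 - ε) * F * ∑ s ∈ S, ∑ t ∈ S, if D s t then qq w p N a n x s * qq w p N a n x t else 0 :=
            mul_le_mul_of_nonneg_left hD (mul_nonneg (by linarith) F0)
          linarith
      _ = _ := by ring
  have hx0 : 0 ≤ θ * (1 - ε) := mul_nonneg hθ (by linarith)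
  have hx1 : θ * (1 - ε) ≤ 1 := by nlinarith
  have k4 : ∑ s ∈ S, qq w p N a n x s * mAv w p m lo hi a x v s ≤ (1 - θ * (1 - ε) / 2) * (F * Z) := by
    have FZ : 0 ≤ F * Z := mul_nonneg F0 Z0
    have m1 : (∑ s ∈ S, qq w p N a n x s * mAv w p m lo hi a x v s) ^ 2 ≤ ((1 - θ * (1 - ε) / 2) * (F * Z)) ^ 2 := by
      calc _ ≤ _ := k3
        _ ≤ ((1 - θ * (1 - ε) / 2) * (F * Z)) ^ 2 := by
            have m3 : ((1 - θ * (1 - ε) / 2) * (F * Z)) ^ 2 = (1 - θ * (1 - ε) / 2) ^ 2 * (F * Z) ^ 2 := by ring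
            rw [m3]
            refine mul_le_mul_of_nonneg_right ?_ (sq_nonneg (F * Z))
            nlinarith [sq_nonneg (θ * (1 - ε))]
    have m2 : 0 ≤ (1 - θ * (1 - ε) / 2) * (F * Z) := mul_nonneg (by linarith) FZ
    exact le_of_sq_le_sq87 m1 m2
  refine gate87 hw hp h hN x v hS (c := θ * (1 - ε) / 2) ?_
  rw [← hF, ← hZ]
  exact k4

/-- **THE GATE ROW** in the letters of `CmpG20`. -/
theorem gateC87 (hw : ∀ k y, 0 < w k y) (hp : ∀ k, 0 < p k) {a k : ℕ} {q : ℤ} {Y0 : Finset ℤ} {S : Finset (List Bool)} {c D1 : ℝ} (hc : 0 < c) (hD1 : 0 ≤ D1)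
    (hZ : bw w p (k + 1) (N - (k + 1)) q ≤ D1 * Zc w p N (k + 1) (a - (k + 1)) q S)
    (hg : ∀ m : ℤ → ℝ, Sp22.Ms m lo hi N → ∀ v ∈ Y0,
      c * (fw w p m a v * Zc w p N (k + 1) (a - (k + 1)) q S) ≤ Sp22.Zt w p m lo hi N * ker w p (k + 1) (a - (k + 1)) q v) :
    CmpG20.Gate w p lo hi N a Y0 (D1 * c⁻¹) k q := by
  refine CmpG20.Gate.of_core hw hp hD1 hZ fun m hm v hv => ?_
  have h1 := hg m hm v hv
  calc fw w p m a v * Zc w p N (k + 1) (a - (k + 1)) q S = c⁻¹ * (c * (fw w p m a v * Zc w p N (k + 1) (a - (k + 1)) q S)) := by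
        field_simp
    _ ≤ _ := mul_le_mul_of_nonneg_left h1 (inv_nonneg.2 hc.le)

open Classical in
/-- **THE GATE ROW FROM GOOD PAIRS.** -/
theorem gateE87 (hw : ∀ k y, 0 < w k y) (hp : ∀ k, 0 < p k) {a k : ℕ} (hk : k < a) (haN : a ≤ N) {q : ℤ} {Y0 : Finset ℤ}
    {S : Finset (List Bool)} (hS : S ⊆ pl (a - (k + 1))) (D : List Bool → List Bool → Prop) {θ ε D1 : ℝ} (hθ : 0 < θ) (hθ1 : θ ≤ 1)
    (hε : 0 ≤ ε) (hε1 : ε < 1) (hD1 : 0 ≤ D1)
    (hZ : bw w p (k + 1) (N - (k + 1)) q ≤ D1 * Zc w p N (k + 1) (a - (k + 1)) q S)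
    (hD : θ * Zc w p N (k + 1) (a - (k + 1)) q S ^ 2 ≤
      ∑ s ∈ S, ∑ t ∈ S, if D s t then qq w p N (k + 1) (a - (k + 1)) q s * qq w p N (k + 1) (a - (k + 1)) q t else 0)
    (hav : ∀ m : ℤ → ℝ, Sp22.Ms m lo hi N → ∀ v ∈ Y0, ∀ s ∈ S, ∀ t ∈ S, D s t →
      mAv2 w p m lo hi (k + 1) q v s t ≤ ε * fw w p m a v) :
    CmpG20.Gate w p lo hi N a Y0 (D1 * (θ * (1 - ε) / 2)⁻¹) k q := by
  have e1 : k + 1 + (a - (k + 1)) = a := by omega
  refine gateC87 hw hp (by nlinarith [mul_pos hθ (show (0 : ℝ) < 1 - ε by linarith)]) hD1 hZ fun m hm v hv => ?_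
  have h1 := gateD87 (m := m) hw hp ⟨hm.nn, hm.lo0, hm.hi0⟩ (show k + 1 + (a - (k + 1)) ≤ N by omega) q v hS D hθ.le hθ1 hε hε1.le hD
    (fun s hs t ht hst => by rw [e1]; exact hav m hm v hv s hs t ht hst)
  rw [e1] at h1
  exact h1

end

end Pool.Agent.W_7d29a1_C1.Sw87
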