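import Pool.Agent.W_7d29a1_C1.TamT16

/-!
MP_7d29a1_pr, [C1] attractor route, TAME FOR CHAINS, (P3) + TAME of helper40 79486 (3), deterministic. (helper16)

`Sys16 K B N`: kernels `K a b x z` of the rows `(a, b]` and backward masses `B a x` with `B a x = Σ K a b x z B b z`, `a ≤ b ≤ N`.
`PM16`: the mass from `(a, x)` through a set of places of the row `e`.
`arms16`: the chain over the tower rows `0, .., n`, bottom boundary (short start), top boundary (mass at most `B` at the row `n` beyond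
the levels `l ≥ n - j`), node inequality at the rows `0 < k < n` for the levels `l ≥ xi k`, `xi k ≤ |k - j|`.
`p3_16`: the same for the masses of a system. `top16`: the top boundary from the levels of the two kernels and a regular profile.
`tame16`: TAME from the arms of one place and the two sided levels.
-/

set_option autoImplicit false

namespace Pool.Agent.W_7d29a1_C1.U16

open Finset

noncomputable section

/-! ### The chain -/

/-- **The chain with its two boundaries.** -/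
theorem arms16 {n j D : ℕ} {m : ℕ → ℕ → ℝ} {xi : ℕ → ℕ} {P B : ℝ} (hP : 0 ≤ P) (hB : 0 ≤ B) (hbot : ∀ l, 1 ≤ l → m 0 l ≤ 0)
    (htop : ∀ l, n ≤ j + l → m n l ≤ B) (hmax : ∀ k, k < n → m k D ≤ 0) (hxi : ∀ k, 1 ≤ k → k < n → xi k ≤ (k - j) + (j - k))
    (hrec : ∀ k l, 1 ≤ k → k < n → l < D → xi k ≤ l → m k l ≤ m (k - 1) (l + 1) + m (k + 1) (l + 1) + P)
    (hj1 : 1 ≤ j) (hjn : j < n) : m j 0 ≤ 2 ^ D * (P + B) := by
  have key : ∀ i : ℕ, i ≤ D → ∀ k : ℕ, k ≤ n → (k - j) + (j - k) ≤ D - i → m k (D - i) ≤ 2 ^ i * (P + B) - P := by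
    intro i
    induction i with
    | zero =>
      intro _ k hk hk'
      rw [Nat.sub_zero] at hk' ⊢
      rw [pow_zero, one_mul]
      rcases hk.lt_or_eq with h1 | h1
      · have := hmax k h1
        linarith
      · subst h1
        have := htop D (by omega)
        linarith
    | succ i ih =>
      intro hi k hk hk'
      have h2 : (1 : ℝ) ≤ 2 ^ i := one_le_pow₀ (by norm_num)
      have h3 : 0 ≤ (2 ^ i - 1) * (P + B) := mul_nonneg (by linarith) (by linarith)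
      have h4 : (2 : ℝ) ^ (i + 1) = 2 * 2 ^ i := by rw [pow_succ]; ring
      rcases Nat.eq_zero_or_pos k with h1 | h1
      · subst h1
        have := hbot (D - (i + 1)) (by omega)
        rw [h4]
        nlinarith
      rcases hk.lt_or_eq with h5 | h5
      · have h6 := hrec k (D - (i + 1)) h1 h5 (by omega) ((hxi k h1 h5).trans hk')
        have e : D - (i + 1) + 1 = D - i := by omega
        rw [e] at h6
        have h7 := ih (by omega) (k - 1) (by omega) (by omega)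
        have h8 := ih (by omega) (k + 1) (by omega) (by omega)
        rw [h4]
        linarith
      · subst h5
        have := htop (D - (i + 1)) (by omega)
        rw [h4]
        nlinarith
  have h1 := key D le_rfl j hjn.le (by omega)
  rw [Nat.sub_self] at h1
  linarith

/-! ### Systems of kernels -/

/-- Kernels and backward masses. -/
structure Sys16 (K : ℕ → ℕ → ℤ → ℤ → ℝ) (B : ℕ → ℤ → ℝ) (N : ℕ) : Prop where
  k0 : ∀ a b x z, 0 ≤ K a b x z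
  b0 : ∀ a x, a ≤ N → 0 < B a x
  out : ∀ a b x z, a ≤ b → ¬ (x ≤ z ∧ z ≤ x + ((b - a : ℕ) : ℤ)) → K a b x z = 0
  one : ∀ a x, K a a x x = 1
  step : ∀ a b x, a ≤ b → b ≤ N → B a x = ∑ z ∈ Icc x (x + ((b - a : ℕ) : ℤ)), K a b x z * B b z
  comp : ∀ a b c x z, a ≤ b → b ≤ c → K a c x z = ∑ y ∈ Icc x (x + ((b - a : ℕ) : ℤ)), K a b x y * K b c y z

/-- The mass from `(a, x)` through the places `Q` of the row `e`. -/
def PM16 (K : ℕ → ℕ → ℤ → ℤ → ℝ) (B : ℕ → ℤ → ℝ) (a e : ℕ) (x : ℤ) (Q : ℤ → Prop) [DecidablePred Q] : ℝ :=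
  ∑ z ∈ (Icc x (x + ((e - a : ℕ) : ℤ))).filter Q, K a e x z * B e z

section Sys

variable {K : ℕ → ℕ → ℤ → ℤ → ℝ} {B : ℕ → ℤ → ℝ} {N : ℕ}

theorem PM16_nonneg (S : Sys16 K B N) {a e : ℕ} (he : e ≤ N) (x : ℤ) (Q : ℤ → Prop) [DecidablePred Q] : 0 ≤ PM16 K B a e x Q :=
  sum_nonneg fun z _ => mul_nonneg (S.k0 _ _ _ _) (S.b0 _ _ he).le

theorem PM16_mono (S : Sys16 K B N) {a e : ℕ} (he : e ≤ N) (x : ℤ) {Q Q' : ℤ → Prop} [DecidablePred Q] [DecidablePred Q']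
    (h : ∀ z : ℤ, x ≤ z → z ≤ x + ((e - a : ℕ) : ℤ) → Q z → Q' z) : PM16 K B a e x Q ≤ PM16 K B a e x Q' := by
  refine sum_le_sum_of_subset_of_nonneg (fun z hz => ?_) fun z _ _ => mul_nonneg (S.k0 _ _ _ _) (S.b0 _ _ he).le
  obtain ⟨h1, h2⟩ := mem_filter.1 hz
  exact mem_filter.2 ⟨h1, h z (mem_Icc.1 h1).1 (mem_Icc.1 h1).2 h2⟩

theorem PM16_zero {a e : ℕ} (x : ℤ) {Q : ℤ → Prop} [DecidablePred Q] (h : ∀ z, x ≤ z → z ≤ x + ((e - a : ℕ) : ℤ) → ¬ Q z) :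
    PM16 K B a e x Q = 0 := by
  unfold PM16
  rw [filter_eq_empty_iff.2 fun z hz => h z (mem_Icc.1 hz).1 (mem_Icc.1 hz).2, sum_empty]

/-- The two parts. -/
theorem PM16_split (S : Sys16 K B N) {a e : ℕ} (ha : a ≤ e) (he : e ≤ N) (x : ℤ) (Q : ℤ → Prop) [DecidablePred Q] :
    PM16 K B a e x Q + PM16 K B a e x (fun z => ¬ Q z) = B a x := by
  unfold PM16
  rw [S.step a e x ha he]
  exact sum_filter_add_sum_filter_not _ _ _

/-- One place. -/
theorem one_le16 (S : Sys16 K B N) {a e : ℕ} (ha : a ≤ e) (he : e ≤ N) (x z : ℤ) : K a e x z * B e z ≤ B a x := by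
  by_cases hz : x ≤ z ∧ z ≤ x + ((e - a : ℕ) : ℤ)
  · rw [S.step a e x ha he]
    exact single_le_sum (f := fun z => K a e x z * B e z) (fun z _ => mul_nonneg (S.k0 _ _ _ _) (S.b0 _ _ he).le) (mem_Icc.2 hz)
  · rw [S.out a e x z ha hz, zero_mul]
    exact (S.b0 a x (ha.trans he)).le

/-- A set of places. -/
theorem sum_le16 (S : Sys16 K B N) {a e : ℕ} (ha : a ≤ e) (he : e ≤ N) (x : ℤ) (Z : Finset ℤ) : ∑ z ∈ Z, K a e x z * B e z ≤ B a x := by
  have h0 : ∀ z, 0 ≤ K a e x z * B e z := fun z => mul_nonneg (S.k0 _ _ _ _) (S.b0 _ _ he).le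
  calc ∑ z ∈ Z, K a e x z * B e z ≤ ∑ z ∈ Z ∪ Icc x (x + ((e - a : ℕ) : ℤ)), K a e x z * B e z :=
        sum_le_sum_of_subset_of_nonneg subset_union_left fun z _ _ => h0 z
    _ = ∑ z ∈ Icc x (x + ((e - a : ℕ) : ℤ)), K a e x z * B e z := by
        refine (sum_subset subset_union_right fun z _ hz => ?_).symm
        rw [S.out a e x z ha (fun h => hz (mem_Icc.2 h)), zero_mul]
    _ = B a x := (S.step a e x ha he).symm

/-- **(P3)**: the arms at the tower row `j`. `r k` = the tower rows, `ℓ k` = the lateral coordinate of the row `r k`, `d k l` = the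
distance of the level `l` at the row `r k`. -/
theorem p3_16 (S : Sys16 K B N) {r : ℕ → ℕ} {ℓ : ℕ → ℤ → ℝ} {d : ℕ → ℕ → ℝ} {n j D : ℕ} {xi : ℕ → ℕ} {P Q : ℝ} {x : ℤ}
    (hrN : ∀ k, k ≤ n → r k ≤ N) (hP : 0 ≤ P) (hQ : 0 ≤ Q)
    (hstart : ∀ l, 1 ≤ l → |ℓ 0 x| < d 0 l)
    (htop : ∀ l, n ≤ j + l → PM16 K B (r 0) (r n) x (fun z => d n l ≤ |ℓ n z|) ≤ Q * B (r 0) x)
    (hmax : ∀ k, k < n → ∀ z, x ≤ z → z ≤ x + ((r k - r 0 : ℕ) : ℤ) → |ℓ k z| < d k D)
    (hxi : ∀ k, 1 ≤ k → k < n → xi k ≤ (k - j) + (j - k))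
    (hnode : ∀ k l, 1 ≤ k → k < n → l < D → xi k ≤ l → PM16 K B (r 0) (r k) x (fun z => d k l ≤ |ℓ k z|) ≤
      PM16 K B (r 0) (r (k - 1)) x (fun z => d (k - 1) (l + 1) ≤ |ℓ (k - 1) z|) +
      PM16 K B (r 0) (r (k + 1)) x (fun z => d (k + 1) (l + 1) ≤ |ℓ (k + 1) z|) + P * B (r 0) x)
    (hj1 : 1 ≤ j) (hjn : j < n) : PM16 K B (r 0) (r j) x (fun z => d j 0 ≤ |ℓ j z|) ≤ 2 ^ D * (P + Q) * B (r 0) x := by
  have hB0 : 0 < B (r 0) x := S.b0 _ _ (hrN 0 (by omega))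
  have h1 := arms16 (n := n) (j := j) (D := D) (m := fun k l => PM16 K B (r 0) (r k) x (fun z => d k l ≤ |ℓ k z|)) (xi := xi)
    (P := P * B (r 0) x) (B := Q * B (r 0) x) (by positivity) (by positivity)
    (fun l hl => by
      refine le_of_eq (PM16_zero x fun z hz1 hz2 => ?_)
      rw [Nat.sub_self] at hz2
      have e : z = x := by
        push_cast at hz2
        omega
      rw [e, not_le]
      exact hstart l hl)
    htop (fun k hk => le_of_eq (PM16_zero x fun z hz1 hz2 => not_le.2 (hmax k hk z hz1 hz2))) hxi hnode hj1 hjn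
  refine h1.trans (le_of_eq ?_)
  ring

/-- **The top boundary** from the levels of the two kernels and a regular profile (`trans_far16`). -/
theorem top16 (P : ℕ) : ∃ C : ℝ, 0 < C ∧ ∀ {K : ℕ → ℕ → ℤ → ℤ → ℝ} {B : ℕ → ℤ → ℝ} {N : ℕ} (_ : Sys16 K B N) {a e f : ℕ} {x : ℤ}
    {l1 l2 : ℤ → ℝ} {a1 a2 a3 b lam kap w x0 X0 F0 R s G : ℝ}, a ≤ e → e ≤ f → f ≤ N →
    0 < lam → 0 ≤ kap → kap ≤ lam / 8 → 0 < w → 0 ≤ a2 → 0 ≤ F0 → |x0| ≤ X0 →
    (∀ z, x ≤ z → z ≤ x + ((e - a : ℕ) : ℤ) → K a e x z ≤ Real.exp (a1 - lam * |l1 z - x0|)) →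
    (∀ z, x ≤ z → z ≤ x + ((e - a : ℕ) : ℤ) → ∀ y, K e f z y ≤ Real.exp (a2 * fq16 P (|l1 z| / w) - lam * |l2 y - l1 z|)) →
    (∀ y, x ≤ y → y ≤ x + ((f - a : ℕ) : ℤ) → B f y ≤ Real.exp (b + kap * |l2 y|) * F0) →
    Real.exp (-a3) * F0 ≤ B a x → (N : ℝ) + 1 ≤ Real.exp s →
    a1 + b + a3 + lam * X0 + C * (lam * w) * (1 + a2 / (lam * w)) ^ 2 + 2 * s + G ≤ lam / 4 * R →
    PM16 K B a e x (fun z => R ≤ |l1 z|) ≤ Real.exp (-G) * B a x := by
  obtain ⟨C, hC, H⟩ := trans_far16 P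
  refine ⟨C, hC, ?_⟩
  intro K B N S a e f x l1 l2 a1 a2 a3 b lam kap w x0 X0 F0 R s G hae hef hfN hl hk hkl hw ha2 hF0 hx h1 h2 h3 h4 hs hR
  have hcard : ∀ (Y : Finset ℤ) (g : ℤ → ℝ), Y.card ≤ N + 1 → (∀ y ∈ Y, g y ≤ 1) → ∑ y ∈ Y, g y ≤ Real.exp s := by
    intro Y g hY hg
    calc ∑ y ∈ Y, g y ≤ ∑ _y ∈ Y, (1 : ℝ) := sum_le_sum hg
      _ = Y.card := by rw [sum_const, nsmul_eq_mul, mul_one]
      _ ≤ ((N + 1 : ℕ) : ℝ) := by exact_mod_cast hY
      _ ≤ Real.exp s := by push_cast; exact hs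
  have h5 := H (Z := Icc x (x + ((e - a : ℕ) : ℤ))) (Y := Icc x (x + ((f - a : ℕ) : ℤ))) (k1 := fun z => K a e x z) (F := B f) (l1 := l1)
    (l2 := l2) (k2 := fun z y => K e f z y) (a1 := a1) (a2 := a2) (a3 := a3) (B := b) (lam := lam) (kap := kap) (w := w) (x := x0)
    (X0 := X0) (F0 := F0) (S := s) (M := B a x) (R := R) (G := G) hl hk hkl hw ha2 hF0 hx
    (fun z hz => ⟨S.k0 _ _ _ _, h1 z (mem_Icc.1 hz).1 (mem_Icc.1 hz).2⟩)
    (fun z hz y _ => ⟨S.k0 _ _ _ _, h2 z (mem_Icc.1 hz).1 (mem_Icc.1 hz).2 y⟩)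
    (fun y hy => ⟨(S.b0 _ _ hfN).le, h3 y (mem_Icc.1 hy).1 (mem_Icc.1 hy).2⟩) h4 (S.b0 _ _ (hae.trans (hef.trans hfN))).le
    (fun t => hcard _ _ (by rw [Int.card_Icc]; omega) fun y _ => Real.exp_le_one_iff.2 (by
      have : 0 ≤ lam / 2 * |l2 y - t| := by positivity
      linarith))
    (hcard _ _ (by rw [Int.card_Icc]; omega) fun y _ => Real.exp_le_one_iff.2 (by
      have : 0 ≤ lam / 4 * |l1 y| := by positivity
      linarith)) hR
  refine le_trans (le_of_eq ?_) h5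
  unfold PM16
  refine sum_congr rfl fun z hz => ?_
  obtain ⟨hz1, _⟩ := mem_filter.1 hz
  rw [mem_Icc] at hz1
  have e1 : B e z = ∑ y ∈ Icc x (x + ((f - a : ℕ) : ℤ)), K e f z y * B f y := by
    rw [S.step e f z hef hfN]
    refine sum_subset (Icc_subset_Icc hz1.1 (by omega)) fun y _ hy => ?_
    rw [S.out e f z y hef (fun h => hy (mem_Icc.2 h)), zero_mul]
  rw [e1, mul_sum]
  refine sum_congr rfl fun y _ => ?_
  ring

/-- **TAME** from the arms of one place `x` of the row `a` at the row `e`: `(b, y)`, `(b', y')` with rows between `a` and `e`. -/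
theorem tame16 (S : Sys16 K B N) {a b b' e : ℕ} (_hab : a ≤ b) (hab' : a ≤ b') (hbe : b ≤ e) (hbe' : b' ≤ e) (he : e ≤ N)
    {x y y' : ℤ} {Z : ℤ → Prop} [DecidablePred Z] {A1 A2 A3 : ℝ}
    (harm : PM16 K B a e x (fun z => ¬ Z z) ≤ 1 / 2 * B a x)
    (h1 : Real.exp (-A1) ≤ K a b' x y')
    (h2 : ∀ z, x ≤ z → z ≤ x + ((e - a : ℕ) : ℤ) → Z z → K a e x z ≤ Real.exp A2)
    (h3 : ∀ z, x ≤ z → z ≤ x + ((e - a : ℕ) : ℤ) → Z z → Real.exp (-A3) ≤ K b e y z) :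
    B b' y' ≤ 2 * Real.exp (A1 + A2 + A3) * B b y := by
  have hsp := PM16_split S (hab'.trans hbe') he x Z
  have hx := S.b0 a x (hab'.trans (hbe'.trans he))
  have hB' := S.b0 b' y' (hbe'.trans he)
  -- from `(a, x)` to `(b', y')`
  have g1 : Real.exp (-A1) * B b' y' ≤ B a x :=
    (mul_le_mul_of_nonneg_right h1 hB'.le).trans (one_le16 S hab' (hbe'.trans he) x y')
  -- the arms
  have g2 : B a x ≤ 2 * PM16 K B a e x Z := by linarith
  have g3 : PM16 K B a e x Z ≤ Real.exp A2 * ∑ z ∈ (Icc x (x + ((e - a : ℕ) : ℤ))).filter Z, B e z := by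
    unfold PM16
    rw [mul_sum]
    refine sum_le_sum fun z hz => ?_
    obtain ⟨hz1, hz2⟩ := mem_filter.1 hz
    exact mul_le_mul_of_nonneg_right (h2 z (mem_Icc.1 hz1).1 (mem_Icc.1 hz1).2 hz2) (S.b0 _ _ he).le
  -- from `(b, y)`
  have g4 : Real.exp (-A3) * ∑ z ∈ (Icc x (x + ((e - a : ℕ) : ℤ))).filter Z, B e z ≤ B b y := by
    refine le_trans ?_ (sum_le16 S hbe he y ((Icc x (x + ((e - a : ℕ) : ℤ))).filter Z))
    rw [mul_sum]
    refine sum_le_sum fun z hz => ?_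
    obtain ⟨hz1, hz2⟩ := mem_filter.1 hz
    exact mul_le_mul_of_nonneg_right (h3 z (mem_Icc.1 hz1).1 (mem_Icc.1 hz1).2 hz2) (S.b0 _ _ he).le
  obtain ⟨T, hT⟩ : ∃ T : ℝ, T = ∑ z ∈ (Icc x (x + ((e - a : ℕ) : ℤ))).filter Z, B e z := ⟨_, rfl⟩
  rw [← hT] at g3 g4
  have e1 : Real.exp A1 * Real.exp (-A1) = 1 := by rw [← Real.exp_add, add_neg_cancel, Real.exp_zero]
  have e3 : Real.exp A3 * Real.exp (-A3) = 1 := by rw [← Real.exp_add, add_neg_cancel, Real.exp_zero]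
  calc B b' y' = Real.exp A1 * (Real.exp (-A1) * B b' y') := by rw [← mul_assoc, e1, one_mul]
    _ ≤ Real.exp A1 * B a x := mul_le_mul_of_nonneg_left g1 (Real.exp_pos _).le
    _ ≤ Real.exp A1 * (2 * (Real.exp A2 * T)) := by
        refine mul_le_mul_of_nonneg_left ?_ (Real.exp_pos _).le
        linarith
    _ = 2 * (Real.exp A1 * Real.exp A2) * (Real.exp A3 * (Real.exp (-A3) * T)) := by
        rw [← mul_assoc (Real.exp A3), e3]
        ring
    _ ≤ 2 * (Real.exp A1 * Real.exp A2) * (Real.exp A3 * B b y) := by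
        refine mul_le_mul_of_nonneg_left (mul_le_mul_of_nonneg_left g4 (Real.exp_pos _).le) (by positivity)
    _ = _ := by
        rw [Real.exp_add, Real.exp_add]
        ring

end Sys

end

end Pool.Agent.W_7d29a1_C1.U16
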