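import Pool.Agent.W_7d29a1_C1.KerB16

/-!
MP_7d29a1_pr, [C1] attractor route, TAME FOR CHAINS, THE TRANSITIONAL BLOCK ((P2) of helper40 78521). (helper16)

Two kernels which decay linearly (`k1` from the start to the middle row, `k2` from the middle row to the top row, levels `a1`,
`a2 (1 + log (1 + |z|/w))^P`), a regular profile `F` on the top row (`F y ≤ exp (B + κ |y|) F0`, `κ ≤ λ/8`), a lower bound
`exp (- a3) F0 ≤ M` for the whole mass. Then the mass beyond `R` at the middle row is at most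
`exp (a1 + B + a3 + λ X0 + C λ w (1 + a2/(λ w))² - (λ/4) R) S² M` (`trans16`); `trans_far16`: it is at most `exp (- G) M` for `R` large.
`reg_up16`: the profile `Σ k2 z y F y` is regular on the middle row, with any slope `κ + δ λ`.
-/

set_option autoImplicit false

namespace Pool.Agent.W_7d29a1_C1.U16

open Finset

noncomputable section

private lemma e3_16 (a b c F : ℝ) : Real.exp a * Real.exp b * (Real.exp c * F) = Real.exp (a + b + c) * F := by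
  rw [Real.exp_add, Real.exp_add]
  ring

private lemma e2_16 (a b F : ℝ) : Real.exp a * (Real.exp b * F) = Real.exp (a + b) * F := by
  rw [Real.exp_add]
  ring

theorem trans16 (P : ℕ) : ∃ C : ℝ, 0 < C ∧ ∀ {Z Y : Finset ℤ} {k1 F l1 l2 : ℤ → ℝ} {k2 : ℤ → ℤ → ℝ} {a1 a2 a3 B lam kap w x X0 F0 S M R : ℝ},
    0 < lam → 0 ≤ kap → kap ≤ lam / 8 → 0 < w → 0 ≤ a2 → 0 ≤ F0 → 0 ≤ S → |x| ≤ X0 →
    (∀ z ∈ Z, 0 ≤ k1 z ∧ k1 z ≤ Real.exp (a1 - lam * |l1 z - x|)) →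
    (∀ z ∈ Z, ∀ y ∈ Y, 0 ≤ k2 z y ∧ k2 z y ≤ Real.exp (a2 * fq16 P (|l1 z| / w) - lam * |l2 y - l1 z|)) →
    (∀ y ∈ Y, 0 ≤ F y ∧ F y ≤ Real.exp (B + kap * |l2 y|) * F0) →
    Real.exp (-a3) * F0 ≤ M →
    (∀ t : ℝ, ∑ y ∈ Y, Real.exp (-(lam / 2 * |l2 y - t|)) ≤ S) → (∑ z ∈ Z, Real.exp (-(lam / 4 * |l1 z|)) ≤ S) →
    ∑ z ∈ Z.filter (fun z => R ≤ |l1 z|), ∑ y ∈ Y, k1 z * k2 z y * F y ≤
      Real.exp (a1 + B + a3 + lam * X0 + C * (lam * w) * (1 + a2 / (lam * w)) ^ 2 - lam / 4 * R) * S ^ 2 * M := by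
  obtain ⟨C, hC, H⟩ := fq16_pay P (ε := 1 / 8) (by norm_num)
  refine ⟨C, hC, ?_⟩
  intro Z Y k1 F l1 l2 k2 a1 a2 a3 B lam kap w x X0 F0 S M R hl hk hkl hw ha2 hF0 hS hx h1 h2 h3 h4 h5 h6
  have hlw : 0 < lam * w := by positivity
  obtain ⟨Q, hQ⟩ : ∃ Q : ℝ, Q = a1 + B + lam * X0 + C * (lam * w) * (1 + a2 / (lam * w)) ^ 2 := ⟨_, rfl⟩
  -- one term
  have key : ∀ z ∈ Z.filter (fun z => R ≤ |l1 z|), ∀ y ∈ Y, k1 z * k2 z y * F y ≤
      (Real.exp (Q - lam / 4 * R) * F0) * (Real.exp (-(lam / 4 * |l1 z|)) * Real.exp (-(lam / 2 * |l2 y - l1 z|))) := by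
    intro z hz y hy
    obtain ⟨hz1, hz2⟩ := mem_filter.1 hz
    obtain ⟨g1, g2⟩ := h1 z hz1
    obtain ⟨g3, g4⟩ := h2 z hz1 y hy
    obtain ⟨g5, g6⟩ := h3 y hy
    have p1 : a2 * fq16 P (|l1 z| / w) ≤ lam / 8 * |l1 z| + C * (lam * w) * (1 + a2 / (lam * w)) ^ 2 := by
      have g7 := H (a2 / (lam * w)) (|l1 z| / w) (by positivity) (by positivity)
      have g8 := mul_le_mul_of_nonneg_left g7 hlw.le
      have e1 : lam * w * (a2 / (lam * w) * fq16 P (|l1 z| / w)) = a2 * fq16 P (|l1 z| / w) := by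
        field_simp
      have e2 : lam * w * (1 / 8 * (|l1 z| / w) + C * (1 + a2 / (lam * w)) ^ 2) = lam / 8 * |l1 z| + C * (lam * w) * (1 + a2 / (lam * w)) ^ 2 := by
        field_simp
      rw [e1, e2] at g8
      exact g8
    have p2 : |l1 z| - X0 ≤ |l1 z - x| := by
      have := abs_sub_abs_le_abs_sub (l1 z) x
      linarith
    have p3 : |l2 y| ≤ |l2 y - l1 z| + |l1 z| := by
      have := abs_add_le (l2 y - l1 z) (l1 z)
      rwa [sub_add_cancel] at this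
    have hz0 := abs_nonneg (l1 z)
    have hy0 := abs_nonneg (l2 y - l1 z)
    calc k1 z * k2 z y * F y ≤ Real.exp (a1 - lam * |l1 z - x|) * Real.exp (a2 * fq16 P (|l1 z| / w) - lam * |l2 y - l1 z|) *
          (Real.exp (B + kap * |l2 y|) * F0) :=
          mul_le_mul (mul_le_mul g2 g4 g3 (Real.exp_pos _).le) g6 g5 (by positivity)
      _ = Real.exp ((a1 - lam * |l1 z - x|) + (a2 * fq16 P (|l1 z| / w) - lam * |l2 y - l1 z|) + (B + kap * |l2 y|)) * F0 := e3_16 _ _ _ _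
      _ ≤ Real.exp ((Q - lam / 4 * R) + (-(lam / 4 * |l1 z|) + -(lam / 2 * |l2 y - l1 z|))) * F0 := by
          refine mul_le_mul_of_nonneg_right (Real.exp_le_exp.2 ?_) hF0
          rw [hQ]
          have q1 := mul_le_mul_of_nonneg_left p2 hl.le
          have q2 := mul_le_mul_of_nonneg_left p3 hk
          have q3 := mul_le_mul_of_nonneg_right hkl hz0
          have q4 := mul_le_mul_of_nonneg_right hkl hy0
          have q5 : 0 ≤ lam * |l1 z| := by positivity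
          have q6 : 0 ≤ lam * |l2 y - l1 z| := by positivity
          have q7 := mul_le_mul_of_nonneg_left hz2 hl.le
          nlinarith
      _ = _ := by
          rw [Real.exp_add, Real.exp_add]
          ring
  have hsum : ∑ z ∈ Z.filter (fun z => R ≤ |l1 z|), ∑ y ∈ Y, k1 z * k2 z y * F y ≤ (Real.exp (Q - lam / 4 * R) * F0) * (S * S) := by
    have g1 : ∀ z ∈ Z.filter (fun z => R ≤ |l1 z|), ∑ y ∈ Y, k1 z * k2 z y * F y ≤
        (Real.exp (Q - lam / 4 * R) * F0) * (Real.exp (-(lam / 4 * |l1 z|)) * S) := by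
      intro z hz
      refine (sum_le_sum (key z hz)).trans ?_
      rw [← mul_sum, ← mul_sum]
      exact mul_le_mul_of_nonneg_left (mul_le_mul_of_nonneg_left (h5 (l1 z)) (Real.exp_pos _).le) (by positivity)
    refine (sum_le_sum g1).trans ?_
    rw [← mul_sum, ← sum_mul]
    refine mul_le_mul_of_nonneg_left (mul_le_mul_of_nonneg_right ?_ hS) (by positivity)
    exact (sum_le_sum_of_subset_of_nonneg (filter_subset _ _) fun z _ _ => (Real.exp_pos _).le).trans h6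
  refine hsum.trans ?_
  have e1 : Real.exp (Q - lam / 4 * R) = Real.exp (a1 + B + a3 + lam * X0 + C * (lam * w) * (1 + a2 / (lam * w)) ^ 2 - lam / 4 * R) *
      Real.exp (-a3) := by
    rw [← Real.exp_add, hQ]
    congr 1
    ring
  rw [e1]
  calc _ = Real.exp (a1 + B + a3 + lam * X0 + C * (lam * w) * (1 + a2 / (lam * w)) ^ 2 - lam / 4 * R) * S ^ 2 * (Real.exp (-a3) * F0) := by ring
    _ ≤ _ := mul_le_mul_of_nonneg_left h4 (by positivity)

/-- The mass beyond `R` is at most `exp (- G)` of the whole. -/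
theorem trans_far16 (P : ℕ) : ∃ C : ℝ, 0 < C ∧ ∀ {Z Y : Finset ℤ} {k1 F l1 l2 : ℤ → ℝ} {k2 : ℤ → ℤ → ℝ}
    {a1 a2 a3 B lam kap w x X0 F0 S M R G : ℝ},
    0 < lam → 0 ≤ kap → kap ≤ lam / 8 → 0 < w → 0 ≤ a2 → 0 ≤ F0 → |x| ≤ X0 →
    (∀ z ∈ Z, 0 ≤ k1 z ∧ k1 z ≤ Real.exp (a1 - lam * |l1 z - x|)) →
    (∀ z ∈ Z, ∀ y ∈ Y, 0 ≤ k2 z y ∧ k2 z y ≤ Real.exp (a2 * fq16 P (|l1 z| / w) - lam * |l2 y - l1 z|)) →
    (∀ y ∈ Y, 0 ≤ F y ∧ F y ≤ Real.exp (B + kap * |l2 y|) * F0) →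
    Real.exp (-a3) * F0 ≤ M → 0 ≤ M →
    (∀ t : ℝ, ∑ y ∈ Y, Real.exp (-(lam / 2 * |l2 y - t|)) ≤ Real.exp S) → (∑ z ∈ Z, Real.exp (-(lam / 4 * |l1 z|)) ≤ Real.exp S) →
    a1 + B + a3 + lam * X0 + C * (lam * w) * (1 + a2 / (lam * w)) ^ 2 + 2 * S + G ≤ lam / 4 * R →
    ∑ z ∈ Z.filter (fun z => R ≤ |l1 z|), ∑ y ∈ Y, k1 z * k2 z y * F y ≤ Real.exp (-G) * M := by
  obtain ⟨C, hC, H⟩ := trans16 P
  refine ⟨C, hC, ?_⟩
  intro Z Y k1 F l1 l2 k2 a1 a2 a3 B lam kap w x X0 F0 S M R G hl hk hkl hw ha2 hF0 hx h1 h2 h3 h4 hM h5 h6 hR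
  refine (H hl hk hkl hw ha2 hF0 (Real.exp_pos S).le hx h1 h2 h3 h4 h5 h6).trans ?_
  refine mul_le_mul_of_nonneg_right ?_ hM
  rw [← Real.exp_nat_mul, ← Real.exp_add]
  refine Real.exp_le_exp.2 ?_
  push_cast
  linarith

/-- The profile seen from the middle row is regular. -/
theorem reg_up16 (P : ℕ) : ∃ C : ℝ, 0 < C ∧ ∀ {Y : Finset ℤ} {F l1 l2 : ℤ → ℝ} {k2 : ℤ → ℤ → ℝ} {a2 B lam kap del w F0 S : ℝ} {z : ℤ},
    0 < lam → 0 ≤ kap → kap ≤ lam / 2 → 0 < del → del ≤ 1 → 0 < w → 0 ≤ a2 → 0 ≤ F0 →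
    (∀ y ∈ Y, 0 ≤ k2 z y ∧ k2 z y ≤ Real.exp (a2 * fq16 P (|l1 z| / w) - lam * |l2 y - l1 z|)) →
    (∀ y ∈ Y, 0 ≤ F y ∧ F y ≤ Real.exp (B + kap * |l2 y|) * F0) →
    (∀ t : ℝ, ∑ y ∈ Y, Real.exp (-(lam / 2 * |l2 y - t|)) ≤ Real.exp S) →
    ∑ y ∈ Y, k2 z y * F y ≤ Real.exp (B + S + C / del * (lam * w) * (1 + a2 / (lam * w)) ^ 2 + (kap + del * lam) * |l1 z|) * F0 := by
  obtain ⟨M, hM, H⟩ := fq16_sqrt P
  refine ⟨1 + M ^ 2, by positivity, ?_⟩
  intro Y F l1 l2 k2 a2 B lam kap del w F0 S z hl hk hkl hd hd1 hw ha2 hF0 h2 h3 h5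
  have hlw : 0 < lam * w := by positivity
  obtain ⟨Q, hQ⟩ : ∃ Q : ℝ, Q = B + (1 + M ^ 2) / del * (lam * w) * (1 + a2 / (lam * w)) ^ 2 + (kap + del * lam) * |l1 z| := ⟨_, rfl⟩
  -- the growth of the level with a small slope
  have p1 : a2 * fq16 P (|l1 z| / w) ≤ del * lam * |l1 z| + (1 + M ^ 2) / del * (lam * w) * (1 + a2 / (lam * w)) ^ 2 := by
    obtain ⟨A, hA⟩ : ∃ A : ℝ, A = a2 / (lam * w) := ⟨_, rfl⟩
    obtain ⟨d, hd'⟩ : ∃ d : ℝ, d = |l1 z| / w := ⟨_, rfl⟩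
    have hA0 : 0 ≤ A := by rw [hA]; positivity
    have hd0 : 0 ≤ d := by rw [hd']; positivity
    have eA : a2 = A * (lam * w) := by rw [hA, div_mul_cancel₀ _ hlw.ne']
    have ed : |l1 z| = d * w := by rw [hd', div_mul_cancel₀ _ hw.ne']
    have g1 := H d hd0
    have g2 := Real.sq_sqrt (show 0 ≤ 1 + d by linarith)
    have g3 := Real.sqrt_nonneg (1 + d)
    obtain ⟨r, hr⟩ : ∃ r : ℝ, r = Real.sqrt (1 + d) := ⟨_, rfl⟩
    rw [← hr] at g1 g2 g3
    have g4 : A * fq16 P d ≤ del * r ^ 2 + (A * M) ^ 2 / del := by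
      have k1 : A * fq16 P d ≤ A * (M * r) := mul_le_mul_of_nonneg_left g1 hA0
      refine k1.trans ?_
      rw [← sub_nonneg]
      have e : del * r ^ 2 + (A * M) ^ 2 / del - A * (M * r) = ((del * r - A * M / 2) ^ 2 + 3 / 4 * (A * M) ^ 2) / del := by
        field_simp
        ring
      rw [e]
      positivity
    have g5 : A * fq16 P d ≤ del * d + (1 + M ^ 2) / del * (1 + A) ^ 2 := by
      rw [g2] at g4
      have k1 : A ^ 2 ≤ (1 + A) ^ 2 := by nlinarith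
      have k2 : (A * M) ^ 2 / del ≤ M ^ 2 / del * (1 + A) ^ 2 := by
        have e : (A * M) ^ 2 / del = M ^ 2 / del * A ^ 2 := by ring
        rw [e]
        exact mul_le_mul_of_nonneg_left k1 (by positivity)
      have k3 : del ≤ 1 / del * (1 + A) ^ 2 := by
        have k4 : del ≤ 1 / del := by
          rw [le_div_iff₀ hd]
          nlinarith
        have k5 : (1 : ℝ) ≤ (1 + A) ^ 2 := by nlinarith
        have k6 : 0 ≤ 1 / del := by positivity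
        nlinarith
      have e : (1 + M ^ 2) / del * (1 + A) ^ 2 = 1 / del * (1 + A) ^ 2 + M ^ 2 / del * (1 + A) ^ 2 := by ring
      rw [e]
      linarith
    have g6 := mul_le_mul_of_nonneg_left g5 hlw.le
    rw [← hA, ← hd', eA, ed]
    have e1 : A * (lam * w) * fq16 P d = lam * w * (A * fq16 P d) := by ring
    rw [e1]
    refine g6.trans (le_of_eq ?_)
    ring
  have key : ∀ y ∈ Y, k2 z y * F y ≤ (Real.exp Q * F0) * Real.exp (-(lam / 2 * |l2 y - l1 z|)) := by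
    intro y hy
    obtain ⟨g3, g4⟩ := h2 y hy
    obtain ⟨g5, g6⟩ := h3 y hy
    have p3 : |l2 y| ≤ |l2 y - l1 z| + |l1 z| := by
      have := abs_add_le (l2 y - l1 z) (l1 z)
      rwa [sub_add_cancel] at this
    have hy0 := abs_nonneg (l2 y - l1 z)
    calc k2 z y * F y ≤ Real.exp (a2 * fq16 P (|l1 z| / w) - lam * |l2 y - l1 z|) * (Real.exp (B + kap * |l2 y|) * F0) :=
          mul_le_mul g4 g6 g5 (Real.exp_pos _).le
      _ = Real.exp ((a2 * fq16 P (|l1 z| / w) - lam * |l2 y - l1 z|) + (B + kap * |l2 y|)) * F0 := e2_16 _ _ _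
      _ ≤ Real.exp (Q + -(lam / 2 * |l2 y - l1 z|)) * F0 := by
          refine mul_le_mul_of_nonneg_right (Real.exp_le_exp.2 ?_) hF0
          rw [hQ]
          have q2 := mul_le_mul_of_nonneg_left p3 hk
          have q4 := mul_le_mul_of_nonneg_right hkl hy0
          nlinarith
      _ = _ := by
          rw [Real.exp_add]
          ring
  refine (sum_le_sum key).trans ?_
  rw [← mul_sum]
  calc (Real.exp Q * F0) * ∑ y ∈ Y, Real.exp (-(lam / 2 * |l2 y - l1 z|)) ≤ (Real.exp Q * F0) * Real.exp S :=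
        mul_le_mul_of_nonneg_left (h5 (l1 z)) (by positivity)
    _ = Real.exp (Q + S) * F0 := by rw [Real.exp_add]; ring
    _ = _ := by
        rw [hQ]
        congr 2
        ring

end

end Pool.Agent.W_7d29a1_C1.U16
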