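import Pool.Agent.W_7d29a1_C1.FreK35
import Pool.Agent.W_7d29a1_C1.BoxX69
import Pool.Agent.W_7d29a1_C1.TamK16
import Pool.Agent.W_7d29a1_C1.DDJ84

/-!
MP_7d29a1_pr, [C1], SEP, WINDOW LEMMA: `TameV69` FROM ONE LEVEL EVENT AND D2, THE CONSTANT BEFORE THE OUTER WINDOW. (helper20)

One environment `η ∈ Far16 μ s c θ K Tt N P b q` (levels of `N ≤ Tt` rows at the scale `Tt`); at a row `d` of the slab a profile `B ≥ 0` with
D2: `B y ≤ exp ((Q4 + σ |lat y| / w) E) B y₀` for all `y` and all `y₀` of the inner window `|lat y₀| ≤ R w + 2`.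

* `V20 k x`: normalised mass from `(k, x)` to the row `d` with the profile `B`; `V20_bh`: for `B = bh16 d` it is `bh16 k`; `VX_V20`: `VX69`.
* **`core20`**: `V20 k' y' ≤ exp ((U + Q4 + (β + σ) |lat y'| / w) E) V20 k y` for ALL places `y'` of the rows `k' ≤ d`, all places
  `|lat y| ≤ R w + 1` of the rows `k` with `θ Tt ≤ d - k`; `U` depends on `q`, `β`, `R` only.
* **`tamV20`**: `TameV69` of every slab `(r, r + T]` below `d - θ Tt`, window `Kp wd T`, level `(Qv + (c / 8) Kp) EE T`, `Qv` BEFORE `Kp`;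
  any profile. `tamM20`: the profile `Mx (r + T)` (the backward masses). `units20`: the ratios of the units of `T` and `Tt`.
-/

set_option autoImplicit false

namespace Pool.Agent.W_7d29a1_C1.TamV20

open MeasureTheory ProbabilityTheory Filter Topology Finset
open Pool.Agent.W_7d29a1_F Pool.Agent.W_7d29a1_h4g Pool.Agent.W_7d29a1_H Pool.Agent.W_7d29a1_HS
open Pool.Agent.W_7d29a1_C1 Pool.Agent.W_7d29a1_C1.H75 Pool.Agent.W_7d29a1_C1.U16 Pool.Agent.W_7d29a1_C1.FarK89 Pool.Agent.W_7d29a1_C1.FarW89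
open Pool.Agent.W_7d29a1_C1.K91 (wt wt_pos)
open Pool.Agent.W_7d29a1_C1.K91P (bw bw_pos)
open Pool.Agent.W_7d29a1_C1.Tb87 (Mx kx Mo Mo_pos Mo_eq Mo_Mx Mx_pos kx_nonneg Mx_kx)
open Pool.Agent.W_7d29a1_C1.FreK35 (nk1b)
open Pool.Agent.W_7d29a1_C1.DD84 (scale_num)

noncomputable section

/-- Normalised mass from `(k, x)` to the row `d` with the profile `B`. -/
def V20 (μ : Measure ℝ) (s h : ℝ) (η : Env) (p : ℕ → ℝ) (M d : ℕ) (B : ℤ → ℝ) (k : ℕ) (x : ℤ) : ℝ :=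
  ∑ z ∈ Icc x (x + ((d - k : ℕ) : ℤ)), nk μ s h η p M k (d - k) x z * B z

variable {μ : Measure ℝ} {s : ℝ} {c C : ℝ} {n₀ : ℕ}

/-- The lateral coordinate along a step of the kernel. -/
theorem lat_step20 (κ : Pt) {k d : ℕ} (hk : k ≤ d) (y z : ℤ) :
    lat16 μ s κ ((d : ℤ), z) = lat16 μ s κ ((k : ℤ), y) + (((z - y : ℤ) : ℝ) - sl μ s * ((d - k : ℕ) : ℝ)) := by
  unfold lat16
  push_cast [Nat.cast_sub hk]
  ring

/-- A site of a row at a given lateral coordinate. -/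
theorem site20 (κ : Pt) (d : ℕ) (r : ℝ) : ∃ y : ℤ, |lat16 μ s κ ((d : ℤ), y) - r| ≤ 1 := by
  refine ⟨κ.2 + ⌊sl μ s * (((d : ℤ) - κ.1 : ℤ) : ℝ) + r⌋, ?_⟩
  have h1 := Int.floor_le (sl μ s * (((d : ℤ) - κ.1 : ℤ) : ℝ) + r)
  have h2 := Int.lt_floor_add_one (sl μ s * (((d : ℤ) - κ.1 : ℤ) : ℝ) + r)
  have e : lat16 μ s κ ((d : ℤ), κ.2 + ⌊sl μ s * (((d : ℤ) - κ.1 : ℤ) : ℝ) + r⌋) =
      (⌊sl μ s * (((d : ℤ) - κ.1 : ℤ) : ℝ) + r⌋ : ℝ) - sl μ s * (((d : ℤ) - κ.1 : ℤ) : ℝ) := by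
    unfold lat16
    push_cast
    ring
  rw [e, abs_le]
  constructor <;> linarith

variable [IsProbabilityMeasure μ]

/-- **MASSES OF ALL PLACES AGAINST THE PLACES OF THE INNER WINDOW.** -/
theorem core20 (h0 : In μ s c C n₀) (P : ℕ) {θ K : ℝ} (hK : 4 ≤ K) (hθ : 0 < θ) : ∃ n₁ : ℕ, 1 ≤ n₁ ∧
    ∀ q β R : ℝ, 0 ≤ q → 0 < β → 0 ≤ R → ∃ U : ℝ, 0 < U ∧
    ∀ {h : ℝ} {η : Env} {p : ℕ → ℝ} {M : ℕ} {κ b : Pt} {Tt N : ℕ}, n₁ ≤ Tt → N ≤ Tt →
    (∀ k, k < M → p k = Real.exp (s + h)) → (∀ k, M ≤ k → p k = Real.exp s) → η ∈ Far16 μ s c θ K Tt N P b q →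
    |lat16 μ s κ b| ≤ wd μ s Tt → |h| * wd μ s Tt ≤ c / 8 * EE μ s Tt →
    ∀ (d : ℕ) (B : ℤ → ℝ) (Q4 σ : ℝ), (d : ℤ) ≤ b.1 + N → (∀ z, 0 ≤ B z) → 0 ≤ σ → σ ≤ c / 8 →
    (∀ y y₀ : ℤ, |lat16 μ s κ ((d : ℤ), y₀)| ≤ R * wd μ s Tt + 2 →
      B y ≤ Real.exp ((Q4 + σ * (|lat16 μ s κ ((d : ℤ), y)| / wd μ s Tt)) * EE μ s Tt) * B y₀) →
    ∀ (k k' : ℕ) (y y' : ℤ), b.1 ≤ k → k ≤ d → θ * Tt ≤ ((d - k : ℕ) : ℝ) → b.1 ≤ k' → k' ≤ d →
      |lat16 μ s κ ((k : ℤ), y)| ≤ R * wd μ s Tt + 1 →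
      V20 μ s h η p M d B k' y' ≤
        Real.exp ((U + Q4 + (β + σ) * (|lat16 μ s κ ((k' : ℤ), y')| / wd μ s Tt)) * EE μ s Tt) * V20 μ s h η p M d B k y := by
  obtain ⟨n₁, hn₁, H⟩ := nk1b h0 P hK hθ
  obtain ⟨n₂, hn₂⟩ := eventually_atTop.1 ((wd_tendsto h0).eventually_ge_atTop 2)
  have hC1 := h0.C1
  have hc0 := h0.c0
  refine ⟨max n₁ n₂, hn₁.trans (le_max_left _ _), fun q β R hq hβ hR => ?_⟩
  obtain ⟨U₀, hU₀, H⟩ := H q β (R + 1) hq hβ (by linarith)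
  refine ⟨2 * U₀ + (C + 1), by positivity, ?_⟩
  intro h η p M κ b Tt N hT hNT hp hp' hη hb hh d B Q4 σ hd hB hσ hσc hD k k' y y' hk1 hk2 hk3 hk1' hk2' hy
  have hT1 : n₁ ≤ Tt := (le_max_left _ _).trans hT
  have hw2 : 2 ≤ wd μ s Tt := hn₂ Tt ((le_max_right _ _).trans hT)
  have hw0 : 0 < wd μ s Tt := by linarith
  have hE := EE_pos (μ := μ) (s := s) Tt
  obtain ⟨w, hw⟩ : ∃ w : ℝ, w = wd μ s Tt := ⟨_, rfl⟩
  obtain ⟨E, hEd⟩ : ∃ E : ℝ, E = EE μ s Tt := ⟨_, rfl⟩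
  have hpp : ∀ k, 0 < p k := fun k => by
    rcases lt_or_ge k M with h1 | h1
    · rw [hp k h1]; exact Real.exp_pos _
    · rw [hp' k h1]; exact Real.exp_pos _
  have hup := (H hT1 hNT hp hp' hη hb hh k' (d - k') hk1' (by
    rw [Nat.cast_sub hk2']
    linarith)).1
  have hlo := (H hT1 hNT hp hp' hη hb hh k (d - k) hk1 (by
    rw [Nat.cast_sub hk2]
    linarith)).2 hk3
  -- the lower bound
  obtain ⟨ρ, hρ⟩ : ∃ ρ : ℝ, ρ = lat16 μ s κ ((k : ℤ), y) := ⟨_, rfl⟩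
  rw [← hρ] at hy
  obtain ⟨y₀, hy₀⟩ := site20 (μ := μ) (s := s) κ d ρ
  have hKw : 1 ≤ (K - 2) / 2 * wd μ s Tt - 1 := by nlinarith
  have hy₀' : |lat16 μ s κ ((d : ℤ), y₀)| ≤ R * wd μ s Tt + 2 := by
    have e : lat16 μ s κ ((d : ℤ), y₀) = (lat16 μ s κ ((d : ℤ), y₀) - ρ) + ρ := by ring
    rw [e]
    refine (abs_add_le _ _).trans ?_
    linarith
  have hlow : Real.exp (-(U₀ * EE μ s Tt)) * B y₀ ≤ V20 μ s h η p M d B k y := by
    have h1 := hlo ρ y y₀ (by nlinarith) (by rw [← hρ, sub_self, abs_zero]; linarith) (by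
      rw [Nat.add_sub_cancel' hk2]
      linarith)
    have h2 : y₀ ∈ Icc y (y + ((d - k : ℕ) : ℤ)) := by
      by_contra h3
      rw [mem_Icc] at h3
      rw [nk_eq_zero (μ := μ) (s := s) (h := h) (η := η) (p := p) (M := M) k (d - k) h3] at h1
      exact absurd h1 (not_le.2 (Real.exp_pos _))
    unfold V20
    refine le_trans (mul_le_mul_of_nonneg_right h1 (hB y₀)) ?_
    exact single_le_sum (f := fun z => nk μ s h η p M k (d - k) y z * B z) (fun z _ => mul_nonneg (nk_nonneg hpp _ _ _ _) (hB z)) h2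
  -- the upper bound
  obtain ⟨X, hX⟩ : ∃ X : ℝ, X = |lat16 μ s κ ((k' : ℤ), y')| / wd μ s Tt := ⟨_, rfl⟩
  have hupp : V20 μ s h η p M d B k' y' ≤ Real.exp ((C + 1) * EE μ s Tt) * (Real.exp ((U₀ + Q4 + (β + σ) * X) * EE μ s Tt) * B y₀) := by
    have h1 : ∀ z ∈ Icc y' (y' + ((d - k' : ℕ) : ℤ)), nk μ s h η p M k' (d - k') y' z * B z ≤
        Real.exp ((U₀ + Q4 + (β + σ) * X) * EE μ s Tt) * B y₀ := by
      intro z _
      have g1 := hup y' z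
      have g2 := hD z y₀ hy₀'
      rw [← hX] at g1
      obtain ⟨Y, hY⟩ : ∃ Y : ℝ, Y = |((z - y' : ℤ) : ℝ) - sl μ s * ((d - k' : ℕ) : ℝ)| / wd μ s Tt := ⟨_, rfl⟩
      rw [← hY] at g1
      have hY0 : 0 ≤ Y := by rw [hY]; positivity
      have g3 : |lat16 μ s κ ((d : ℤ), z)| / wd μ s Tt ≤ X + Y := by
        rw [hX, hY, ← add_div]
        refine div_le_div_of_nonneg_right ?_ hw0.le
        rw [lat_step20 κ hk2' y' z]
        exact abs_add_le _ _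
      calc nk μ s h η p M k' (d - k') y' z * B z
          ≤ Real.exp ((U₀ + β * X - c / 8 * Y) * EE μ s Tt) *
            (Real.exp ((Q4 + σ * (|lat16 μ s κ ((d : ℤ), z)| / wd μ s Tt)) * EE μ s Tt) * B y₀) :=
            mul_le_mul g1 g2 (hB z) (Real.exp_pos _).le
        _ = Real.exp ((U₀ + β * X - c / 8 * Y) * EE μ s Tt + (Q4 + σ * (|lat16 μ s κ ((d : ℤ), z)| / wd μ s Tt)) * EE μ s Tt) * B y₀ := by
            rw [Real.exp_add, mul_assoc]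
        _ ≤ Real.exp ((U₀ + Q4 + (β + σ) * X) * EE μ s Tt) * B y₀ := by
            refine mul_le_mul_of_nonneg_right (Real.exp_le_exp.2 ?_) (hB y₀)
            rw [← add_mul]
            refine mul_le_mul_of_nonneg_right ?_ hE.le
            have g4 := mul_le_mul_of_nonneg_left g3 hσ
            have g5 := mul_le_mul_of_nonneg_right hσc hY0
            linarith
    unfold V20
    refine (sum_le_sum h1).trans ?_
    rw [sum_const, nsmul_eq_mul]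
    refine mul_le_mul_of_nonneg_right ?_ (mul_nonneg (Real.exp_pos _).le (hB y₀))
    rw [Int.card_Icc]
    have e : ((y' + ((d - k' : ℕ) : ℤ) + 1 - y').toNat : ℝ) = ((d - k' : ℕ) : ℝ) + 1 := by
      have : (y' + ((d - k' : ℕ) : ℤ) + 1 - y').toNat = (d - k') + 1 := by omega
      rw [this]
      push_cast
      ring
    rw [e]
    have h2 : d - k' ≤ Tt := by omega
    have h3 : ((d - k' : ℕ) : ℝ) ≤ Tt := by exact_mod_cast h2
    have h4 := lg69 h0 (T := Tt) (hn₁.trans hT1)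
    linarith
  calc V20 μ s h η p M d B k' y' ≤ _ := hupp
    _ ≤ Real.exp ((C + 1) * EE μ s Tt) * (Real.exp ((U₀ + Q4 + (β + σ) * X) * EE μ s Tt) *
        (Real.exp (U₀ * EE μ s Tt) * V20 μ s h η p M d B k y)) := by
      refine mul_le_mul_of_nonneg_left (mul_le_mul_of_nonneg_left ?_ (Real.exp_pos _).le) (Real.exp_pos _).le
      have h5 := mul_le_mul_of_nonneg_left hlow (Real.exp_pos (U₀ * EE μ s Tt)).le
      rw [← mul_assoc, ← Real.exp_add, add_neg_cancel, Real.exp_zero, one_mul] at h5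
      exact h5
    _ = _ := by
      rw [← hX, ← mul_assoc, ← mul_assoc, ← Real.exp_add, ← Real.exp_add]
      congr 2
      ring

/-! ### The masses of the model, `VX69` -/

omit [IsProbabilityMeasure μ] in
/-- For the profile `bh16 d` the mass `V20` is the normalised backward mass. -/
theorem V20_bh {h : ℝ} {η : Env} {p : ℕ → ℝ} {M N d k : ℕ} (hp : ∀ k, 0 < p k) (hk : k ≤ d) (hd : d ≤ N) (x : ℤ) :
    V20 μ s h η p M d (bh16 μ s h η p M N d) k x = bh16 μ s h η p M N k x :=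
  ((sys_model16 (μ := μ) (s := s) (h := h) (η := η) (p := p) (M := M) (N := N) hp).step k d x hk hd).symm

omit [IsProbabilityMeasure μ] in
/-- `VX69` in terms of `V20`. -/
theorem VX_V20 {h : ℝ} {η : Env} {p : ℕ → ℝ} {M d k : ℕ} (B : ℤ → ℝ) (x : ℤ) :
    VX69 (wt η) p k (d - k) B x =
      Real.exp (((d - k : ℕ) : ℝ) * lam μ s + h * sl μ s * bl M k (d - k)) * V20 μ s h η p M d B k x := by
  unfold VX69 V20
  rw [mul_sum]
  refine sum_congr rfl fun z _ => ?_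
  unfold kx nk
  rw [Real.exp_neg]
  have h1 := wt_pos η k x
  field_simp

theorem kx_out {w : ℕ → ℤ → ℝ} {p : ℕ → ℝ} (i n : ℕ) {x y : ℤ} (h : ¬ (x ≤ y ∧ y ≤ x + n)) : kx w p i n x y = 0 := by
  unfold kx
  rw [ker_eq_zero i n x y h]
  simp

/-- Composition of `VX69`. -/
theorem VX_comp {w : ℕ → ℤ → ℝ} {p : ℕ → ℝ} (hw : ∀ k y, 0 < w k y) (i m n : ℕ) (B : ℤ → ℝ) (x : ℤ) :
    VX69 w p i m (VX69 w p (i + m) n B) x = VX69 w p i (m + n) B x := by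
  have h0 : ∀ y, kx w p i (m + n) x y = ∑ z ∈ Icc x (x + m), kx w p i m x z * kx w p (i + m) n z y := by
    intro y
    have f1 : ∀ z, ¬ (x ≤ z ∧ z ≤ x + m) → kx w p i m x z * kx w p (i + m) n z y = 0 := fun z hz => by rw [kx_out i m hz, zero_mul]
    have f2 : ∀ z, ¬ (y - n ≤ z ∧ z ≤ y) → kx w p i m x z * kx w p (i + m) n z y = 0 := fun z hz => by
      rw [kx_out (i + m) n (x := z) (y := y) (fun h => hz ⟨by omega, h.1⟩), mul_zero]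
    have h1 : kx w p i (m + n) x y = ∑ z ∈ Icc (y - n) y, kx w p i m x z * kx w p (i + m) n z y := by
      unfold kx
      rw [ker_add, ← add_assoc, sum_mul, sum_div]
      refine sum_congr rfl fun z _ => ?_
      have g1 := hw (i + m) z
      have g2 := hw i x
      field_simp
    rw [h1, sum_subset (subset_union_left : _ ⊆ Icc (y - (n : ℤ)) y ∪ Icc x (x + (m : ℤ))) fun z _ hz => f2 z fun h => hz (mem_Icc.2 h)]
    exact (sum_subset subset_union_right fun z _ hz => f1 z fun h => hz (mem_Icc.2 h)).symm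
  unfold VX69
  have h2 : ∀ z ∈ Icc x (x + (m : ℤ)), kx w p i m x z * ∑ y ∈ Icc z (z + (n : ℤ)), kx w p (i + m) n z y * B y =
      ∑ y ∈ Icc x (x + ((m + n : ℕ) : ℤ)), kx w p i m x z * kx w p (i + m) n z y * B y := by
    intro z hz
    rw [mem_Icc] at hz
    rw [mul_sum]
    have h3 : ∀ y ∈ Icc z (z + (n : ℤ)), kx w p i m x z * (kx w p (i + m) n z y * B y) = kx w p i m x z * kx w p (i + m) n z y * B y :=
      fun y _ => by ring
    rw [sum_congr rfl h3]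
    refine sum_subset (fun y hy => ?_) fun y _ hy => ?_
    · rw [mem_Icc] at hy ⊢
      push_cast
      omega
    · rw [kx_out (i + m) n (x := z) (y := y) (fun h => hy (mem_Icc.2 h)), mul_zero, zero_mul]
  rw [sum_congr rfl h2, sum_comm]
  refine sum_congr rfl fun y _ => ?_
  rw [h0 y, sum_mul]

/-! ### The units -/

theorem wd_next20 (h0 : In μ s c C n₀) (b : ℕ) : ∃ (Bw : ℝ) (n₁ : ℕ), 2 ≤ Bw ∧ 1 ≤ n₁ ∧ ∀ m n : ℕ, n₁ ≤ m → m ≤ n → n ≤ b * m →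
    wd μ s n ≤ Bw * wd μ s m := by
  obtain ⟨g, B, n₁, hg, hg3, hB, hn₁, H⟩ := Pool.Agent.W_7d29a1_HL.wd_pow_le h0
  refine ⟨B * (b + 2), n₁, by
    have : (0 : ℝ) ≤ b := Nat.cast_nonneg b
    nlinarith, hn₁, fun m n hm hmn hK => ?_⟩
  have hm0 : (0 : ℝ) < m := by exact_mod_cast hn₁.trans hm
  have hx1 : 1 ≤ (n : ℝ) / m := by
    rw [one_le_div hm0]
    exact_mod_cast hmn
  have hxK : (n : ℝ) / m ≤ b := by
    rw [div_le_iff₀ hm0]
    exact_mod_cast hK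
  have h1 : ((n : ℝ) / m) ^ (1 - g) ≤ b := by
    calc ((n : ℝ) / m) ^ (1 - g) ≤ ((n : ℝ) / m) ^ (1 : ℝ) := Real.rpow_le_rpow_of_exponent_le hx1 (by linarith)
      _ = (n : ℝ) / m := Real.rpow_one _
      _ ≤ b := hxK
  have h2 := H m n hm hmn
  have hw := h0.wd_pos (hn₁.trans hm)
  calc wd μ s n ≤ B * ((n : ℝ) / m) ^ (1 - g) * wd μ s m := h2
    _ ≤ _ := mul_le_mul_of_nonneg_right (mul_le_mul_of_nonneg_left (by linarith) (by linarith)) hw.le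

/-- The units of two scales of a bounded ratio. -/
theorem units20 (h0 : In μ s c C n₀) (Bt : ℕ) : ∃ ρ : ℝ, 1 ≤ ρ ∧ ∃ n₁ : ℕ, 1 ≤ n₁ ∧ ∀ T Tt : ℕ, n₁ ≤ T → T ≤ Tt → Tt ≤ Bt * T →
    wd μ s T ≤ ρ * wd μ s Tt ∧ EE μ s Tt ≤ ρ * EE μ s T ∧ EE μ s Tt / wd μ s Tt ≤ ρ * (EE μ s T / wd μ s T) := by
  obtain ⟨K₀, n₁, hK₀, hn₁, Hs⟩ := scale_num h0
  obtain ⟨Bw, n₂, hBw, hn₂, Hw⟩ := wd_next20 h0 (K₀ * Bt)
  refine ⟨Bw * Bw, by nlinarith, max n₁ n₂, hn₁.trans (le_max_left _ _), fun T Tt hT hTt hB => ?_⟩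
  have h1 : n₁ ≤ T := (le_max_left _ _).trans hT
  have h2 : n₂ ≤ T := (le_max_right _ _).trans hT
  have hT1 : 1 ≤ T := hn₁.trans h1
  have hBt : 1 ≤ Bt := by
    rcases Nat.eq_zero_or_pos Bt with h3 | h3
    · rw [h3, zero_mul] at hB
      omega
    · exact h3
  have h4 : K₀ * T ≤ K₀ * Bt * T := by
    calc K₀ * T = K₀ * 1 * T := by ring
      _ ≤ _ := Nat.mul_le_mul_right _ (Nat.mul_le_mul_left _ hBt)
  have h5 : Tt ≤ K₀ * Bt * T := by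
    calc Tt ≤ Bt * T := hB
      _ = 1 * (Bt * T) := (one_mul _).symm
      _ ≤ K₀ * (Bt * T) := Nat.mul_le_mul_right _ (by omega)
      _ = _ := by ring
  have h6 : T ≤ K₀ * Bt * T := hTt.trans h5
  obtain ⟨g1, g2⟩ := Hs T (K₀ * Bt * T) h1 h4
  have g3 := Hw T (K₀ * Bt * T) h2 h6 le_rfl
  have g4 := Hw Tt (K₀ * Bt * T) (h2.trans hTt) h5 (Nat.mul_le_mul_left _ hTt)
  have w1 := h0.wd_pos hT1
  have w2 := h0.wd_pos (hT1.trans hTt)
  have w3 := h0.wd_pos (hT1.trans h6)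
  have e1 := EE_pos (μ := μ) (s := s) T
  have e2 := EE_pos (μ := μ) (s := s) Tt
  have hBw0 : 0 < Bw := by linarith
  have k1 : wd μ s T ≤ Bw * wd μ s Tt := g1.trans g4
  have k2 : EE μ s Tt ≤ Bw * EE μ s T := by
    have m1 : EE μ s Tt ≤ EE μ s (K₀ * Bt * T) := EE_mono h5
    rw [div_le_div_iff₀ w3 w1] at g2
    have m2 : EE μ s (K₀ * Bt * T) * wd μ s T ≤ Bw * EE μ s T * wd μ s T := by
      calc _ ≤ EE μ s T * wd μ s (K₀ * Bt * T) := g2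
        _ ≤ EE μ s T * (Bw * wd μ s T) := mul_le_mul_of_nonneg_left g3 e1.le
        _ = _ := by ring
    exact m1.trans (le_of_mul_le_mul_right m2 w1)
  have hBB : Bw ≤ Bw * Bw := by nlinarith
  refine ⟨k1.trans (mul_le_mul_of_nonneg_right hBB w2.le), k2.trans (mul_le_mul_of_nonneg_right hBB e1.le), ?_⟩
  rw [← mul_div_assoc, div_le_div_iff₀ w2 w1]
  calc EE μ s Tt * wd μ s T ≤ (Bw * EE μ s T) * (Bw * wd μ s Tt) := mul_le_mul k2 k1 w1.le (by positivity)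
    _ = _ := by ring

/-! ### `TameV69` -/

omit [IsProbabilityMeasure μ] in
theorem lat_lat69 (r : ℕ) (col : ℤ) (t : ℕ) (x : ℤ) : |lat16 μ s ((r : ℤ), col) (((r + t : ℕ) : ℤ), x + col)| = lat69 μ s t x := by
  unfold lat16 lat69
  congr 1
  push_cast
  ring

/-- **`TameV69` FROM ONE LEVEL EVENT AND D2 AT A ROW ABOVE**, any profile of the row `d`; `Qv` before the outer window `Kp`. -/
theorem tamV20 (h0 : In μ s c C n₀) (P : ℕ) {θ K : ℝ} (hK : 4 ≤ K) (hθ : 0 < θ) : ∃ n₁ : ℕ, 1 ≤ n₁ ∧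
    ∀ q Q4 Kh ρ : ℝ, 0 ≤ q → 0 ≤ Q4 → 0 ≤ Kh → 1 ≤ ρ → ∃ Qv : ℝ, 0 ≤ Qv ∧
    ∀ {h g σ : ℝ} {η : Env} {p : ℕ → ℝ} {M : ℕ} {b : Pt} {Tt N r T d : ℕ} {col : ℤ}, n₁ ≤ Tt → N ≤ Tt →
    (∀ k, k < M → p k = Real.exp (s + h)) → (∀ k, M ≤ k → p k = Real.exp s) → ((g = h ∧ r + T ≤ M) ∨ (g = 0 ∧ M ≤ r)) →
    η ∈ Far16 μ s c θ K Tt N P b q → |lat16 μ s ((r : ℤ), col) b| ≤ wd μ s Tt → |h| * wd μ s Tt ≤ c / 8 * EE μ s Tt →
    wd μ s T ≤ ρ * wd μ s Tt → EE μ s Tt ≤ ρ * EE μ s T → EE μ s Tt / wd μ s Tt ≤ ρ * (EE μ s T / wd μ s T) →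
    b.1 ≤ r → r + T ≤ d → (d : ℤ) ≤ b.1 + N → θ * Tt ≤ ((d - (r + T) : ℕ) : ℝ) → 0 ≤ σ → ρ * σ ≤ c / 16 →
    ∀ B : ℤ → ℝ, (∀ z, 0 ≤ B z) →
    (∀ y y₀ : ℤ, |lat16 μ s ((r : ℤ), col) ((d : ℤ), y₀)| ≤ ρ * Kh * wd μ s Tt + 2 →
      B y ≤ Real.exp ((Q4 + σ * (|lat16 μ s ((r : ℤ), col) ((d : ℤ), y)| / wd μ s Tt)) * EE μ s Tt) * B y₀) →
    ∀ Kp : ℝ, 0 ≤ Kp → ∀ (t : ℕ) (x : ℤ), t < T → lat69 μ s t x ≤ Kh * wd μ s T + 1 →
      TameV69 μ s g (wt η) p (VX69 (wt η) p (r + T) (d - (r + T)) B) r col T (Kp * wd μ s T) ((Qv + c / 8 * Kp) * EE μ s T) t x := by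
  obtain ⟨n₁, hn₁, H⟩ := core20 h0 P hK hθ
  have hc0 := h0.c0
  refine ⟨n₁, hn₁, fun q Q4 Kh ρ hq hQ4 hKh hρ => ?_⟩
  have hρ0 : 0 < ρ := by linarith
  obtain ⟨β, hβ⟩ : ∃ β : ℝ, β = c / 16 / ρ := ⟨_, rfl⟩
  have hβ0 : 0 < β := by rw [hβ]; positivity
  have hρβ : ρ * β = c / 16 := by rw [hβ]; field_simp
  obtain ⟨U, hU, H⟩ := H q β (ρ * Kh) hq hβ0 (by positivity)
  refine ⟨ρ * (U + Q4), by positivity, ?_⟩
  intro h g σ η p M b Tt N r T d col hT hNT hp hp' hg hη hb hh hu1 hu2 hu3 hbr hrT hdN hθd hσ hρσ B hB hD Kp hKp t x htT hx k u hk htk hu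
  have hpp : ∀ k, 0 < p k := fun k => by
    rcases lt_or_ge k M with h1 | h1
    · rw [hp k h1]; exact Real.exp_pos _
    · rw [hp' k h1]; exact Real.exp_pos _
  have hT1 : 1 ≤ T := by omega
  have hw0 := h0.wd_pos (hn₁.trans hT)
  have hw1 := h0.wd_pos hT1
  have hE0 := EE_pos (μ := μ) (s := s) Tt
  have hE1 := EE_pos (μ := μ) (s := s) T
  have hσc : σ ≤ c / 8 := by nlinarith
  have e1 : r + t + (T - t) = r + T := by omega
  have e2 : T - t + (d - (r + T)) = d - (r + t) := by omega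
  have e3 : r + (t + k) + (T - (t + k)) = r + T := by omega
  have e4 : T - (t + k) + (d - (r + T)) = d - (r + (t + k)) := by omega
  have c1 := VX_comp (p := p) (wt_pos η) (r + t) (T - t) (d - (r + T)) B (x + col)
  rw [e1, e2] at c1
  have c2 := VX_comp (p := p) (wt_pos η) (r + (t + k)) (T - (t + k)) (d - (r + T)) B (u + col)
  rw [e3, e4] at c2
  rw [c1, c2, VX_V20 (μ := μ) (s := s) (h := h) (M := M) (d := d) (k := r + (t + k)), VX_V20 (μ := μ) (s := s) (h := h) (M := M) (d := d) (k := r + t)]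
  -- the masses
  have key := H hT hNT hp hp' hη hb hh d B Q4 σ hdN hB hσ hσc hD (r + t) (r + (t + k)) (x + col) (u + col)
    (by push_cast; linarith) (by omega) (hθd.trans (by
      have h1 : d - (r + T) ≤ d - (r + t) := by omega
      exact_mod_cast h1)) (by push_cast; linarith) (by omega) (by
      rw [lat_lat69]
      refine hx.trans ?_
      have h1 := mul_le_mul_of_nonneg_left hu1 hKh
      linarith)
  -- the exponents
  have hV0 : 0 ≤ V20 μ s h η p M d B (r + t) (x + col) := sum_nonneg fun z _ => mul_nonneg (nk_nonneg hpp _ _ _ _) (hB z)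
  have eb : h * (bl M (r + t) (d - (r + t)) : ℝ) = g * k + h * bl M (r + (t + k)) (d - (r + (t + k))) := by
    have h1 : d - (r + t) = k + (d - (r + (t + k))) := by omega
    have h2 := bl_add M (r + t) k (d - (r + (t + k)))
    rw [← h1, show r + t + k = r + (t + k) by omega] at h2
    rw [h2]
    push_cast
    rcases hg with ⟨h3, h4⟩ | ⟨h3, h4⟩
    · have h5 : bl M (r + t) k = k := by unfold bl; omega
      rw [h5, h3]
      ring
    · have h5 : bl M (r + t) k = 0 := by unfold bl; omega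
      rw [h5, h3]
      push_cast
      ring
  have ed : (((d - (r + t) : ℕ) : ℝ)) = k + ((d - (r + (t + k)) : ℕ) : ℝ) := by
    have h1 : d - (r + t) = k + (d - (r + (t + k))) := by omega
    rw [h1]
    push_cast
    ring
  obtain ⟨a2, ha2⟩ : ∃ a2 : ℝ, a2 = ((d - (r + (t + k)) : ℕ) : ℝ) * lam μ s + h * sl μ s * bl M (r + (t + k)) (d - (r + (t + k))) :=
    ⟨_, rfl⟩
  have ea : ((d - (r + t) : ℕ) : ℝ) * lam μ s + h * sl μ s * bl M (r + t) (d - (r + t)) = k * lam μ s + g * sl μ s * k + a2 := by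
    rw [ha2, ed]
    have : h * sl μ s * (bl M (r + t) (d - (r + t)) : ℝ) = sl μ s * (h * (bl M (r + t) (d - (r + t)) : ℝ)) := by ring
    rw [this, eb]
    ring
  rw [ea, ← ha2]
  -- the units
  obtain ⟨X, hX⟩ : ∃ X : ℝ, X = |lat16 μ s ((r : ℤ), col) (((r + (t + k) : ℕ) : ℤ), u + col)| := ⟨_, rfl⟩
  rw [← hX] at key
  have hXK : X ≤ Kp * wd μ s T := by rw [hX, lat_lat69]; exact hu
  have hX0 : 0 ≤ X := by rw [hX]; exact abs_nonneg _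
  have hexp : (U + Q4 + (β + σ) * (X / wd μ s Tt)) * EE μ s Tt ≤ (ρ * (U + Q4) + c / 8 * Kp) * EE μ s T := by
    have m1 : (U + Q4) * EE μ s Tt ≤ (U + Q4) * (ρ * EE μ s T) := mul_le_mul_of_nonneg_left hu2 (by positivity)
    have m2 : (β + σ) * (X / wd μ s Tt) * EE μ s Tt = (β + σ) * X * (EE μ s Tt / wd μ s Tt) := by ring
    have m3 : (β + σ) * X * (EE μ s Tt / wd μ s Tt) ≤ (β + σ) * (Kp * wd μ s T) * (ρ * (EE μ s T / wd μ s T)) :=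
      mul_le_mul (mul_le_mul_of_nonneg_left hXK (by positivity)) hu3 (by positivity) (by positivity)
    have m4 : (β + σ) * (Kp * wd μ s T) * (ρ * (EE μ s T / wd μ s T)) = (ρ * β + ρ * σ) * Kp * EE μ s T := by
      field_simp
    have m5 : (ρ * β + ρ * σ) * Kp * EE μ s T ≤ c / 8 * Kp * EE μ s T := by
      refine mul_le_mul_of_nonneg_right (mul_le_mul_of_nonneg_right ?_ hKp) hE1.le
      rw [hρβ]
      linarith
    calc (U + Q4 + (β + σ) * (X / wd μ s Tt)) * EE μ s Tt = (U + Q4) * EE μ s Tt + (β + σ) * (X / wd μ s Tt) * EE μ s Tt := by ring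
      _ ≤ (U + Q4) * (ρ * EE μ s T) + c / 8 * Kp * EE μ s T := by
        rw [m2]
        exact add_le_add m1 (m3.trans (m4.le.trans m5))
      _ = _ := by ring
  have key2 := key.trans (mul_le_mul_of_nonneg_right (Real.exp_le_exp.2 hexp) hV0)
  calc Real.exp (k * lam μ s + g * sl μ s * k) * (Real.exp a2 * V20 μ s h η p M d B (r + (t + k)) (u + col))
      ≤ Real.exp (k * lam μ s + g * sl μ s * k) * (Real.exp a2 * (Real.exp ((ρ * (U + Q4) + c / 8 * Kp) * EE μ s T) *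
        V20 μ s h η p M d B (r + t) (x + col))) :=
        mul_le_mul_of_nonneg_left (mul_le_mul_of_nonneg_left key2 (Real.exp_pos _).le) (Real.exp_pos _).le
    _ = _ := by
      rw [Real.exp_add (k * lam μ s + g * sl μ s * k) a2]
      ring

omit [IsProbabilityMeasure μ] in
/-- The normalised backward mass in terms of `Mx`. -/
theorem bh_Mx {h : ℝ} {η : Env} {p : ℕ → ℝ} {M N a : ℕ} (ha : a < N) (x : ℤ) :
    bh16 μ s h η p M N a x = Real.exp (-(((N - a : ℕ) : ℝ) * lam μ s + h * sl μ s * bl M a (N - a))) * Mx (wt η) p N a x := by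
  have h1 := Mo_Mx (w := wt η) (p := p) ha x
  have h2 := wt_pos η a x
  unfold Mo at h1
  unfold bh16
  rw [h1, mul_div_cancel_left₀ _ h2.ne']

/-- **`TameV69` OF THE BACKWARD MASSES** (`G = Mx (r + T)`), D2 for `bh16` at the row `d < Nn`. -/
theorem tamM20 (h0 : In μ s c C n₀) (P : ℕ) {θ K : ℝ} (hK : 4 ≤ K) (hθ : 0 < θ) : ∃ n₁ : ℕ, 1 ≤ n₁ ∧
    ∀ q Q4 Kh ρ : ℝ, 0 ≤ q → 0 ≤ Q4 → 0 ≤ Kh → 1 ≤ ρ → ∃ Qv : ℝ, 0 ≤ Qv ∧
    ∀ {h g σ : ℝ} {η : Env} {p : ℕ → ℝ} {M : ℕ} {b : Pt} {Tt N r T d Nn : ℕ} {col : ℤ}, n₁ ≤ Tt → N ≤ Tt →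
    (∀ k, k < M → p k = Real.exp (s + h)) → (∀ k, M ≤ k → p k = Real.exp s) → ((g = h ∧ r + T ≤ M) ∨ (g = 0 ∧ M ≤ r)) →
    η ∈ Far16 μ s c θ K Tt N P b q → |lat16 μ s ((r : ℤ), col) b| ≤ wd μ s Tt → |h| * wd μ s Tt ≤ c / 8 * EE μ s Tt →
    wd μ s T ≤ ρ * wd μ s Tt → EE μ s Tt ≤ ρ * EE μ s T → EE μ s Tt / wd μ s Tt ≤ ρ * (EE μ s T / wd μ s T) →
    b.1 ≤ r → r + T ≤ d → (d : ℤ) ≤ b.1 + N → d < Nn → θ * Tt ≤ ((d - (r + T) : ℕ) : ℝ) → 0 ≤ σ → ρ * σ ≤ c / 16 →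
    (∀ y y₀ : ℤ, |lat16 μ s ((r : ℤ), col) ((d : ℤ), y₀)| ≤ ρ * Kh * wd μ s Tt + 2 →
      bh16 μ s h η p M Nn d y ≤
        Real.exp ((Q4 + σ * (|lat16 μ s ((r : ℤ), col) ((d : ℤ), y)| / wd μ s Tt)) * EE μ s Tt) * bh16 μ s h η p M Nn d y₀) →
    ∀ Kp : ℝ, 0 ≤ Kp → ∀ (t : ℕ) (x : ℤ), t < T → lat69 μ s t x ≤ Kh * wd μ s T + 1 →
      TameV69 μ s g (wt η) p (Mx (wt η) p Nn (r + T)) r col T (Kp * wd μ s T) ((Qv + c / 8 * Kp) * EE μ s T) t x := by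
  obtain ⟨n₁, hn₁, H⟩ := tamV20 h0 P hK hθ
  refine ⟨n₁, hn₁, fun q Q4 Kh ρ hq hQ4 hKh hρ => ?_⟩
  obtain ⟨Qv, hQv, H⟩ := H q Q4 Kh ρ hq hQ4 hKh hρ
  refine ⟨Qv, hQv, ?_⟩
  intro h g σ η p M b Tt N r T d Nn col hT hNT hp hp' hg hη hb hh hu1 hu2 hu3 hbr hrT hdN hdNn hθd hσ hρσ hD Kp hKp t x htT hx
  have hpp : ∀ k, 0 < p k := fun k => by
    rcases lt_or_ge k M with h1 | h1
    · rw [hp k h1]; exact Real.exp_pos _
    · rw [hp' k h1]; exact Real.exp_pos _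
  have e0 : VX69 (wt η) p (r + T) (d - (r + T)) (Mx (wt η) p Nn d) = Mx (wt η) p Nn (r + T) := by
    funext y
    have h1 := VX_Mx (w := wt η) (p := p) (wt_pos η) (N := Nn) (i := r + T) (n := d - (r + T)) (by omega) y
    rwa [show r + T + (d - (r + T)) = d by omega] at h1
  rw [← e0]
  refine H hT hNT hp hp' hg hη hb hh hu1 hu2 hu3 hbr hrT hdN hθd hσ hρσ (Mx (wt η) p Nn d) (fun z => (Mx_pos (wt_pos η) hpp _ _).le)
    (fun y y₀ hy₀ => ?_) Kp hKp t x htT hx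
  have h1 := hD y y₀ hy₀
  rw [bh_Mx hdNn, bh_Mx hdNn] at h1
  refine le_of_mul_le_mul_left ?_ (Real.exp_pos (-(((Nn - d : ℕ) : ℝ) * lam μ s + h * sl μ s * bl M d (Nn - d))))
  calc _ ≤ _ := h1
    _ = _ := by ring

end

end Pool.Agent.W_7d29a1_C1.TamV20
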