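import Pool.Agent.W_7d29a1_C1.TmU51
import Pool.Agent.W_7d29a1_C1.Gd27

/-!
MP_7d29a1_pr, attractor route [C1], field `nu`: **`TmQ51 ⇒ RcQ51 ⇒ DtQ51 ⇒ TdQ51`** (helper51).

`RcQ51` : few scales are reached by the levels of the shell. `Un51` : the scales `u ≤ 7 M / 16` which are not tame. `DtQ51` : the determinism at one contact (`vt31` at the numbers): a contact which
is locally regular at the level `o` of the ball, with few early meetings at the scale `u` and a good scale in every shell, is in `V8`. Pieces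
`1 / 8`, window `6`; the top of the regularity is `m8 / 2`, the levels read up to `m8 + x`, `x = m0 + m₁`.
-/

set_option autoImplicit false
set_option linter.unusedSectionVars false

namespace Pool.Agent.W_7d29a1_C1.Nu51

open MeasureTheory Finset Filter Topology
open Pool.Agent.W_7d29a1_F Pool.Agent.W_7d29a1_h4g Pool.Agent.W_7d29a1_H Pool.Agent.W_7d29a1_HS
open Pool.Agent.W_7d29a1_C1.T10 (Gd pt Tg Hg GW)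
open Pool.Agent.W_7d29a1_C1.H60
open Pool.Agent.W_7d29a1_C1.H40 (Tk)
open Pool.Agent.W_7d29a1_C1.H49 (cnt ex em)
open Pool.Agent.W_7d29a1_C1.G37 (Gm Wok)
open Pool.Agent.W_7d29a1_C1.N49 (thN slN bN)
open Pool.Agent.W_7d29a1_C1.SF98 (XS FS wS up p98)
open Pool.Agent.W_7d29a1_C1.H8
open Pool.Agent.W_7d29a1_C1.D31 (NV31 TM31 GdS31)
open Pool.Agent.W_7d29a1_C1.NS94 (NS)
open Pool.Agent.W_7d29a1_C1.Gd27 (Un27 us27 sh27)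
open scoped ENNReal

noncomputable section

variable {μ : Measure ℝ} [IsProbabilityMeasure μ]

/-! ### The reached scales -/

/-- The levels of the shell. -/
abbrev Lv51 (μ : Measure ℝ) [IsProbabilityMeasure μ] (s c : ℝ) (P : ℕ) (G : Gd) (h₀ K L : ℕ) (y : ℕ → ℝ) : ℕ → ℕ × ℤ → Env → ℕ :=
  lvL G (LvE L (EL60 μ s c (1 / 8) 6 P (Tg h₀ K) y)) L

/-- **FEW SCALES ARE REACHED BY THE LEVELS.** -/
def RcQ51 (μ : Measure ℝ) [IsProbabilityMeasure μ] (s c : ℝ) : Prop :=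
  ∀ (P : ℕ) (A' a₁ g₁ : ℝ) (n₁ : ℕ), 0 < A' → 0 < a₁ → 0 < g₁ → g₁ ≤ 1 → 1 ≤ n₁ → Tl8 μ s c (1 / 8) 6 P A' a₁ g₁ n₁ →
    ∀ ρ : ℝ, 0 < ρ → ρ ≤ 1 → ∀ e : ℝ, 0 < e → e ≤ 1 / 32 → ∀ K : ℕ, 2 ≤ K → ∀ (R : ℝ) (B : ℕ) (C₀ : ℝ), 1 ≤ R → 2 ≤ B → 1 ≤ C₀ →
      ∀ Rg δ : ℝ, 1 < Rg → 0 < δ → ∃ (y : ℕ → ℝ) (q₀ : ℝ), 0 ≤ q₀ ∧ Monotone y ∧ (∀ l, 0 ≤ y l) ∧ (∀ l, y l ≤ q₀ * Rg ^ l) ∧
        ∀ x : ℕ, 1 ≤ x → ∀ c₂ δ' κ : ℝ, 0 < c₂ → c₂ ≤ 1 / 32 → 0 < δ' → 0 < κ → ∀ Q : ℕ, 1 ≤ Q → ∀ᶠ n : ℕ in atTop, ∀ G : Gd,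
          GW μ s R B C₀ (h8 Q (ρ * e) n) K (m8 K e n + x) G → ∀ Γ : Cx, Adm μ s c₂ δ' κ n Γ →
            ∃ bad : Set Env, law μ bad ≤ ENNReal.ofReal ((n : ℝ) ^ (-(2 : ℝ))) ∧ ∀ ω ∉ bad, ∀ c' ∈ S8 e K n G Γ, ∀ F : Finset ℕ,
              F ⊆ range (m8 K e n + 1) → (∀ b ∈ F, ω ∈ Rch (Lv51 μ s c P G (h8 Q (ρ * e) n) K (m8 K e n + x) y) (b - 2) c') →
                (F.card : ℝ) ≤ δ * m8 K e n

/-! ### The determinism -/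

/-- **THE DETERMINISM FOR ONE CONTEXT**, off `bad`. -/
def DtE51 (μ : Measure ℝ) [IsProbabilityMeasure μ] (s c : ℝ) (P : ℕ) (k : SC51) (K n : ℕ) {T0 : ℕ} (hW : Wok μ s T0 k.K)
    (M ms m₁ l₀ lm h₀ L : ℕ) (y : ℕ → ℝ) (A Φ σ e' : ℝ) (G : Gd) (S : Finset (ℕ × ℤ)) (Γ : Cx) (V : ℕ → ℕ × ℤ → Set Env) (bad : Set Env) :
    Prop :=
  ∀ ω ∉ bad, ∀ x : XS Γ (k.G hW M) (M + k.J), x.1 ∈ S → Real.exp (-((n : ℝ) ^ e')) ≤ Γ.w x.1 ω → ∀ t, 2 ≤ t → t < ms →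
    TM31 μ s Γ G (Tg h₀ K) (M / 2) 2 A Φ σ (t + (m₁ - 1) + k.m0 + 1) x.1 ω →
    ω ∉ Rch (Lv51 μ s c P G h₀ K L y) (t + (m₁ - 1) + k.m0 + 1 - 2) x.1 →
    ω ∉ Rch (Lv51 μ s c P G h₀ K L y) (t + (m₁ - 1) + k.m0 + 1 - 1) x.1 →
    em (SD53.row Γ) (SD53.w Γ) ((k.G hW M).dk (t + (m₁ - 1) + k.m0) k.τ₀) (up x) ω <
      ex (-(k.th μ s T0 (t + (m₁ - 1)) (t + (m₁ - 1) + k.m0))) →
    (∀ l, l₀ ≤ l → l ≤ lm → ∃ v, t + (m₁ - 1) + k.m0 + 1 + 1 ≤ v ∧ t + (m₁ - 1) + (l - 1) / 2 ≤ v ∧ v + 2 ≤ t + (m₁ - 1) + l ∧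
      GdS31 μ s c (1 / 8) 6 P Γ (k.G hW M) G h₀ K L L y (M / 2) 2 A Φ σ k.τ₀ v (v + k.m0) (k.th μ s T0 v (v + k.m0)) (up x) ω) →
    ω ∈ V t (G.z t x.1)

/-- **THE DETERMINISM WITH THE ORDER OF THE CONSTANTS**, for the literal `V8`. -/
def DtQ51 (μ : Measure ℝ) [IsProbabilityMeasure μ] (s c c₁ c₃ : ℝ) : Prop :=
  ∀ (Φ : ℝ) (P : ℕ), 1 ≤ Φ → ∃ ρ₁ : ℝ, 0 < ρ₁ ∧ ∀ ρ : ℝ, 0 < ρ → ρ ≤ ρ₁ → ρ ≤ 1 →
  ∀ e : ℝ, 0 < e → e ≤ 1 / 32 → ∃ K₁ : ℕ, ∀ K : ℕ, K₁ ≤ K → ∀ (R : ℝ) (B : ℕ) (C₀ : ℝ), 1 ≤ R → 2 ≤ B → 1 ≤ C₀ →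
    ∃ (σ Rg : ℝ) (Z : ℕ), 0 < σ ∧ 1 < Rg ∧ 4 ≤ Z ∧ ∀ A : ℝ, 0 ≤ A → ∀ (y : ℕ → ℝ) (q₀ : ℝ), 0 ≤ q₀ → Monotone y → (∀ l, 0 ≤ y l) →
      (∀ l, y l ≤ q₀ * Rg ^ l) → ∀ k : SC51, k.K = K → ∃ mb : ℕ, ∀ m : ℕ, mb ≤ m → ∃ kst : ℝ, 0 < kst ∧
      ∀ m₁ : ℕ, 1 ≤ m₁ → ∃ w₁ : ℝ, 0 < w₁ ∧ ∀ w₁' : ℝ, w₁ ≤ w₁' → ∃ q₁ : ℝ, 0 < q₁ ∧
        ∀ (PV : ℕ) (QV SV gf u : ℝ), 0 < QV → 0 < SV → 0 < gf → 0 < u →
          ∃ (w₂ q₂ s₁ e' : ℝ) (l₀ : ℕ), w₁' ≤ w₂ ∧ 0 < q₂ ∧ 0 < s₁ ∧ 0 < e' ∧ 2 * (k.up m).m0 + 5 ≤ l₀ ∧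
            ∀ c₂ : ℝ, 0 < c₂ → c₂ ≤ s₁ → ∀ δ' : ℝ, 0 < δ' → δ' ≤ c₂ / 16 → ∃ κ₀ : ℝ, 0 < κ₀ ∧ ∀ κ : ℝ, 0 < κ → κ ≤ κ₀ →
              ∃ Q₀ : ℕ, 1 ≤ Q₀ ∧ ∀ Q : ℕ, Q₀ ∣ Q → 1 ≤ Q → ∀ᶠ n : ℕ in atTop, ∀ G : Gd,
                GW μ s R B C₀ (h8 Q (ρ * e) n) K (m8 K e n + ((k.up m).m0 + m₁)) G → ∃ (ν : NV31) (lm : ℕ),
                  NB8 μ s (Tg (h8 Q (ρ * e) n) K) ((k.up m).m0 + m₁) ⟨PV, c₁, c₃, QV, SV, w₁, w₁', w₂, kst, q₁, q₂, gf, u⟩ ν ∧ 8 * lm ≤ m8 K e n ∧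
                  ∀ (hW : Wok μ s (2 * h8 Q (ρ * e) n) k.K) (Γ : Cx), Adm μ s c₂ δ' κ n Γ → ∃ bad : Set Env,
                    law μ bad ≤ 3 * ENNReal.ofReal ((n : ℝ) ^ (-(2 : ℝ))) ∧
                    DtE51 μ s c P (k.up m) K n hW (m8 K e n) (m8 K e n / Z) m₁ l₀ lm (h8 Q (ρ * e) n) (m8 K e n + ((k.up m).m0 + m₁)) y
                      A Φ σ e' G (S8 e K n G Γ) Γ (V8 μ s Γ ν u G) bad

/-! ### The count -/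

/-- **THE SCALE `u ≤ 7 M / 16` IS NOT TAME.** -/
def Un51 (μ : Measure ℝ) [IsProbabilityMeasure μ] (s c : ℝ) (P : ℕ) (Γ : Cx) (GS : Gm) (th : ℕ → ℕ → ℝ) (m0 τ₀ : ℕ) (G : Gd)
    (h₀ K L : ℕ) (y : ℕ → ℝ) (M : ℕ) (A Φ σ : ℝ) (u : ℕ) (x : ℕ × ℤ) : Set Env :=
  {ω | 16 * u ≤ 7 * M ∧ ω ∈ Un27 μ s c (1 / 8) 6 P Γ GS th m0 τ₀ G h₀ K L L y (M / 2) 2 A Φ σ u x}

/-- The count of `Un51`. -/
theorem cnJ51 {s c : ℝ} {P : ℕ} {Γ : Cx} {G : Gd} {h₀ K L : ℕ} {y : ℕ → ℝ} {A Φ σ : ℝ} {ω : Env} {M : ℕ} {GS : Gm} {th : ℕ → ℕ → ℝ}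
    {m0 τ₀ : ℕ} {c' : ℕ × ℤ} {b₁ b₂ : ℝ} (hm0 : 1 ≤ m0)
    (h1 : ∀ F : Finset ℕ, F ⊆ range (M + 1) → (∀ b ∈ F, ¬ (TM31 μ s Γ G (Tg h₀ K) (M / 2) 2 A Φ σ b c' ω ∧
      (16 * b ≤ 7 * M → ω ∈ NS Γ GS th m0 τ₀ b c'))) → (F.card : ℝ) ≤ b₁)
    (h2 : ∀ F : Finset ℕ, F ⊆ range (M + 1) → (∀ b ∈ F, ω ∈ Rch (Lv51 μ s c P G h₀ K L y) (b - 2) c') → (F.card : ℝ) ≤ b₂)
    (F : Finset ℕ) (hF : F ⊆ range (M + 1)) (h : ∀ u ∈ F, ω ∈ Un51 μ s c P Γ GS th m0 τ₀ G h₀ K L y M A Φ σ u c') :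
    (F.card : ℝ) ≤ 3 * b₁ + 4 * b₂ + (3 * m0 + 8) := by
  classical
  obtain ⟨T1, hT1⟩ : ∃ T1 : ℕ → Prop, T1 = fun b => ¬ (TM31 μ s Γ G (Tg h₀ K) (M / 2) 2 A Φ σ b c' ω ∧
      (16 * b ≤ 7 * M → ω ∈ NS Γ GS th m0 τ₀ b c')) := ⟨_, rfl⟩
  obtain ⟨T2, hT2⟩ : ∃ T2 : ℕ → Prop, T2 = fun b => ω ∈ Rch (Lv51 μ s c P G h₀ K L y) (b - 2) c' := ⟨_, rfl⟩
  have H1 : ∀ F : Finset ℕ, F ⊆ range (M + 1) → (∀ u ∈ F, T1 u) → (F.card : ℝ) ≤ b₁ := by rw [hT1]; exact h1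
  have H2 : ∀ F : Finset ℕ, F ⊆ range (M + 1) → (∀ u ∈ F, T2 u) → (F.card : ℝ) ≤ b₂ := by rw [hT2]; exact h2
  have key : ∀ u ∈ F, (T1 (u + 1) ∨ T1 (u + (m0 + 1)) ∨ T1 (u + 0)) ∨ (T2 (u + 1) ∨ T2 (u + 2) ∨ T2 (u + (m0 + 1)) ∨ T2 (u + (m0 + 2))) := by
    intro u hu
    obtain ⟨h16, h3⟩ := h u hu
    by_contra hcon
    push Not at hcon
    obtain ⟨⟨a1, a2, a3⟩, a4, a5, a6, a7⟩ := hcon
    rw [hT1] at a1 a2 a3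
    rw [hT2] at a4 a5 a6 a7
    simp only [not_not] at a1 a2 a3
    refine h3 ⟨a1.1, ?_, ?_, ?_, ?_, ?_, a3.2 (by simpa using h16)⟩
    · rw [show u + m0 + 1 = u + (m0 + 1) by omega]
      exact a2.1
    · rw [show u - 1 = u + 1 - 2 by omega]
      exact a4
    · have a8 := a5
      simp only [Nat.add_sub_cancel] at a8
      exact a8
    · rw [show u + m0 - 1 = u + (m0 + 1) - 2 by omega]
      exact a6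
    · rw [show u + m0 = u + (m0 + 2) - 2 by omega]
      exact a7
  have hs : F ⊆ ((F.filter fun u => T1 (u + 1)) ∪ ((F.filter fun u => T1 (u + (m0 + 1))) ∪ (F.filter fun u => T1 (u + 0)))) ∪
      ((F.filter fun u => T2 (u + 1)) ∪ ((F.filter fun u => T2 (u + 2)) ∪ ((F.filter fun u => T2 (u + (m0 + 1))) ∪
        (F.filter fun u => T2 (u + (m0 + 2)))))) := by
    intro u hu
    simp only [mem_union, mem_filter]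
    rcases key u hu with (h1 | h1 | h1) | (h1 | h1 | h1 | h1)
    · exact Or.inl (Or.inl ⟨hu, h1⟩)
    · exact Or.inl (Or.inr (Or.inl ⟨hu, h1⟩))
    · exact Or.inl (Or.inr (Or.inr ⟨hu, h1⟩))
    · exact Or.inr (Or.inl ⟨hu, h1⟩)
    · exact Or.inr (Or.inr (Or.inl ⟨hu, h1⟩))
    · exact Or.inr (Or.inr (Or.inr (Or.inl ⟨hu, h1⟩)))
    · exact Or.inr (Or.inr (Or.inr (Or.inr ⟨hu, h1⟩)))
  have hc := card_le_card hs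
  have e1 := card_union_le ((F.filter fun u => T1 (u + 1)) ∪ ((F.filter fun u => T1 (u + (m0 + 1))) ∪ (F.filter fun u => T1 (u + 0))))
    ((F.filter fun u => T2 (u + 1)) ∪ ((F.filter fun u => T2 (u + 2)) ∪ ((F.filter fun u => T2 (u + (m0 + 1))) ∪
        (F.filter fun u => T2 (u + (m0 + 2))))))
  have e2 := card_union_le (F.filter fun u => T1 (u + 1)) ((F.filter fun u => T1 (u + (m0 + 1))) ∪ (F.filter fun u => T1 (u + 0)))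
  have e3 := card_union_le (F.filter fun u => T1 (u + (m0 + 1))) (F.filter fun u => T1 (u + 0))
  have e4 := card_union_le (F.filter fun u => T2 (u + 1)) ((F.filter fun u => T2 (u + 2)) ∪ ((F.filter fun u => T2 (u + (m0 + 1))) ∪
        (F.filter fun u => T2 (u + (m0 + 2)))))
  have e5 := card_union_le (F.filter fun u => T2 (u + 2)) ((F.filter fun u => T2 (u + (m0 + 1))) ∪ (F.filter fun u => T2 (u + (m0 + 2))))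
  have e6 := card_union_le (F.filter fun u => T2 (u + (m0 + 1))) (F.filter fun u => T2 (u + (m0 + 2)))
  have hN : F.card ≤ (F.filter fun u => T1 (u + 1)).card + (F.filter fun u => T1 (u + (m0 + 1))).card + (F.filter fun u => T1 (u + 0)).card +
      ((F.filter fun u => T2 (u + 1)).card + (F.filter fun u => T2 (u + 2)).card + (F.filter fun u => T2 (u + (m0 + 1))).card +
        (F.filter fun u => T2 (u + (m0 + 2))).card) := by omega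
  have sub : ∀ p : ℕ → Prop, F.filter p ⊆ range (M + 1) := fun p => (filter_subset _ _).trans hF
  have s1 := sh27 H1 1 (F.filter fun u => T1 (u + 1)) (sub _) fun u hu => (mem_filter.1 hu).2
  have s2 := sh27 H1 (m0 + 1) (F.filter fun u => T1 (u + (m0 + 1))) (sub _) fun u hu => (mem_filter.1 hu).2
  have s3 := sh27 H1 0 (F.filter fun u => T1 (u + 0)) (sub _) fun u hu => (mem_filter.1 hu).2
  have s4 := sh27 H2 1 (F.filter fun u => T2 (u + 1)) (sub _) fun u hu => (mem_filter.1 hu).2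
  have s5 := sh27 H2 2 (F.filter fun u => T2 (u + 2)) (sub _) fun u hu => (mem_filter.1 hu).2
  have s6 := sh27 H2 (m0 + 1) (F.filter fun u => T2 (u + (m0 + 1))) (sub _) fun u hu => (mem_filter.1 hu).2
  have s7 := sh27 H2 (m0 + 2) (F.filter fun u => T2 (u + (m0 + 2))) (sub _) fun u hu => (mem_filter.1 hu).2
  have hNR : (F.card : ℝ) ≤ (F.filter fun u => T1 (u + 1)).card + (F.filter fun u => T1 (u + (m0 + 1))).card +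
      (F.filter fun u => T1 (u + 0)).card + ((F.filter fun u => T2 (u + 1)).card + (F.filter fun u => T2 (u + 2)).card +
        (F.filter fun u => T2 (u + (m0 + 1))).card + (F.filter fun u => T2 (u + (m0 + 2))).card) := by exact_mod_cast hN
  push_cast at s1 s2 s3 s4 s5 s6 s7
  linarith

/-! ### The assembly -/

/-- The numbers of the assembly at the scale `n`. -/
theorem numJ51 {κm δ : ℝ} (hκm : 0 < κm) (hδ : 0 < δ) (m0 m₁ : ℕ) : ∀ᶠ n : ℕ in atTop, ∀ M : ℕ, κm * Real.log n ≤ M →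
    32 * (m0 + m₁) + 32 ≤ M ∧ (3 * m0 + 8 : ℝ) ≤ δ * M := by
  have hlog : Tendsto (fun n : ℕ => κm * Real.log n) atTop atTop :=
    (Real.tendsto_log_atTop.comp tendsto_natCast_atTop_atTop).const_mul_atTop hκm
  filter_upwards [hlog.eventually_ge_atTop ((32 * (m0 + m₁) + 32 : ℕ) : ℝ), hlog.eventually_ge_atTop ((3 * m0 + 8 : ℝ) / δ)] with n hn hn'
  intro M hM
  refine ⟨by exact_mod_cast hn.trans hM, ?_⟩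
  have h1 := hn'.trans hM
  rw [div_le_iff₀ hδ] at h1
  linarith

omit [IsProbabilityMeasure μ] in
/-- Three rare events. -/
theorem lawJ51 : ∀ᶠ n : ℕ in atTop, ∀ {A B D : Set Env}, law μ A ≤ 3 * ENNReal.ofReal ((n : ℝ) ^ (-(2 : ℝ))) →
    law μ B ≤ ENNReal.ofReal ((n : ℝ) ^ (-(2 : ℝ))) → law μ D ≤ 3 * ENNReal.ofReal ((n : ℝ) ^ (-(2 : ℝ))) →
      law μ (A ∪ (B ∪ D)) ≤ ENNReal.ofReal ((n : ℝ) ^ (-(3 / 2 : ℝ))) := by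
  have ev : ∀ {y : ℝ}, 0 < y → ∀ M : ℝ, ∀ᶠ n : ℕ in atTop, M ≤ (n : ℝ) ^ y := fun hy M =>
    ((tendsto_rpow_atTop hy).comp tendsto_natCast_atTop_atTop).eventually_ge_atTop M
  filter_upwards [ev (show (0 : ℝ) < 1 / 2 by norm_num) 7, eventually_ge_atTop 1] with n hn hn1
  intro A B D hA hB hD
  have hnR : (1 : ℝ) ≤ n := by exact_mod_cast hn1
  have n0 : (0 : ℝ) < n := by linarith
  have h0 : 0 ≤ (n : ℝ) ^ (-(2 : ℝ)) := Real.rpow_nonneg n0.le _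
  refine (measure_union_le _ _).trans ((add_le_add hA ((measure_union_le _ _).trans (add_le_add hB hD))).trans ?_)
  have e3 : (3 : ℝ≥0∞) = ENNReal.ofReal 3 := by norm_num
  rw [e3, ← ENNReal.ofReal_mul (by norm_num), ← ENNReal.ofReal_add (by linarith) (by linarith),
    ← ENNReal.ofReal_add (by linarith) (by linarith)]
  refine ENNReal.ofReal_le_ofReal ?_
  have e1 : (n : ℝ) ^ (-(3 / 2 : ℝ)) = (n : ℝ) ^ (1 / 2 : ℝ) * (n : ℝ) ^ (-(2 : ℝ)) := by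
    rw [← Real.rpow_add n0]
    norm_num
  rw [e1]
  nlinarith

/-- **`TmQ51 ⇒ RcQ51 ⇒ DtQ51 ⇒ TdQ51`.** -/
theorem tdQ51_of {s c C : ℝ} {n₀ : ℕ} (hI : In μ s c C n₀) {c₁ c₃ : ℝ} (hT : TmQ51 μ s) (hR : RcQ51 μ s c) (hD : DtQ51 μ s c c₁ c₃) :
    TdQ51 μ s c₁ c₃ := by
  obtain ⟨Φ, hΦ, hT⟩ := hT
  obtain ⟨P, A', a₁, g₁, hA', ha₁, hg₁, hg₁1, n₁, hn₁, HE⟩ := EL60_prob hI (K := 6) (θ := 1 / 8) (by norm_num) (by norm_num) (by norm_num)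
  obtain ⟨ρ₁, hρ₁, hD⟩ := hD Φ P hΦ
  refine ⟨ρ₁, hρ₁, fun ρ hρ hρρ hρ1 e he he1 => ?_⟩
  obtain ⟨Kt, hT⟩ := hT ρ hρ hρ1 e he he1
  obtain ⟨Kd, hD⟩ := hD ρ hρ hρρ hρ1 e he he1
  refine ⟨max (max Kt Kd) 2, fun K hK R B C₀ hR1 hB hC => ?_⟩
  have k1 : Kt ≤ K := (le_max_left _ _).trans ((le_max_left _ _).trans hK)
  have k2 : Kd ≤ K := (le_max_right _ _).trans ((le_max_left _ _).trans hK)
  have k3 : 2 ≤ K := (le_max_right _ _).trans hK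
  obtain ⟨σ, Rg, Z, hσ, hRg, hZ, hD⟩ := hD K k2 R B C₀ hR1 hB hC
  refine ⟨Z, hZ, fun δ hδ => ?_⟩
  have hδ16 : 0 < δ / 16 := by linarith
  obtain ⟨A, hA, hT⟩ := hT K k1 R B C₀ hR1 hB hC σ (δ / 16) hσ hδ16
  obtain ⟨y, q₀, hq₀, hym, hy0, hyR, hR⟩ := hR P A' a₁ g₁ n₁ hA' ha₁ hg₁ hg₁1 hn₁ HE ρ hρ hρ1 e he he1 K k3 R B C₀ hR1 hB hC Rg (δ / 16)
    hRg hδ16
  have hD := hD A hA y q₀ hq₀ hym hy0 hyR
  intro k hk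
  obtain ⟨mt, hT⟩ := hT k hk
  obtain ⟨md, hD⟩ := hD k hk
  refine ⟨max mt md, fun m hm => ?_⟩
  obtain ⟨kst, hkst, hD⟩ := hD m ((le_max_right _ _).trans hm)
  refine ⟨kst, hkst, fun m₁ hm₁ => ?_⟩
  obtain ⟨w₁, hw₁, hD⟩ := hD m₁ hm₁
  obtain ⟨sT, eT, hsT, heT, hT⟩ := hT m ((le_max_left _ _).trans hm) m₁ hm₁
  refine ⟨w₁, hw₁, fun w₁' hw₁' => ?_⟩
  obtain ⟨q₁, hq₁, hD⟩ := hD w₁' hw₁'
  refine ⟨q₁, hq₁, fun PV QV SV gf u hQV hSV hgf hu => ?_⟩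
  obtain ⟨w₂, q₂, sD, eD, l₀, hw₂, hq₂, hsD, heD, hl₀, hD⟩ := hD PV QV SV gf u hQV hSV hgf hu
  refine ⟨w₂, q₂, min (min sT sD) (1 / 32), min eT eD, l₀, hw₂, hq₂, lt_min (lt_min hsT hsD) (by norm_num), lt_min heT heD, by omega,
    fun c₂ hc₂ hc₂s δ' hδ' hδc => ?_⟩
  have s1 : c₂ ≤ sT := hc₂s.trans ((min_le_left _ _).trans (min_le_left _ _))
  have s2 : c₂ ≤ sD := hc₂s.trans ((min_le_left _ _).trans (min_le_right _ _))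
  have s3 : c₂ ≤ 1 / 32 := hc₂s.trans (min_le_right _ _)
  obtain ⟨κT, hκT, hT⟩ := hT c₂ hc₂ s1 δ' hδ' hδc
  obtain ⟨κD, hκD, hD⟩ := hD c₂ hc₂ s2 δ' hδ' hδc
  refine ⟨min κT κD, lt_min hκT hκD, fun κ hκ hκκ => ?_⟩
  obtain ⟨QT, hQT, hT⟩ := hT κ hκ (hκκ.trans (min_le_left _ _))
  obtain ⟨QD, hQD, hD⟩ := hD κ hκ (hκκ.trans (min_le_right _ _))
  refine ⟨QT * QD, Nat.mul_pos hQT hQD, fun Q hQ hQ1 => ?_⟩
  have hm0 := (k.up m).hm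
  have hlK : 0 < Real.log K := Real.log_pos (by exact_mod_cast (by omega : 1 < K))
  have he₀ : 0 < ρ * e := mul_pos hρ he
  have hee : ρ * e ≤ e := mul_le_of_le_one_left he.le hρ1
  filter_upwards [hT Q ((dvd_mul_right _ _).trans hQ) hQ1, hD Q ((dvd_mul_left _ _).trans hQ) hQ1,
    hR ((k.up m).m0 + m₁) (by omega) c₂ δ' κ hc₂ s3 hδ' hκ Q hQ1, gridN8 (x := 0) he he1 he₀ hee k3 hQ1,
    numJ51 (κm := e / (8 * Real.log K)) (by positivity) (show 0 < δ / 2 by linarith) (k.up m).m0 m₁, lawJ51 (μ := μ),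
    eventually_ge_atTop 1] with n hT hD hR hg8 hnum hlaw hn1
  intro G hG
  obtain ⟨ν, lm, hν, hlm, hD⟩ := hD G hG
  refine ⟨ν, lm, hν, by omega, fun hW Γ hΓ => ?_⟩
  obtain ⟨bT, hbT, hT⟩ := hT G hG hW Γ hΓ
  obtain ⟨bR, hbR, hR⟩ := hR G hG Γ hΓ
  obtain ⟨bD, hbD, hD⟩ := hD hW Γ hΓ
  obtain ⟨n1, n2⟩ := hnum _ hg8.m1
  have hnR : (1 : ℝ) ≤ n := by exact_mod_cast hn1
  refine ⟨Un51 μ s c P Γ ((k.up m).G hW (m8 K e n)) ((k.up m).th μ s (2 * h8 Q (ρ * e) n)) (k.up m).m0 (k.up m).τ₀ G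
    (h8 Q (ρ * e) n) K (m8 K e n + ((k.up m).m0 + m₁)) y (m8 K e n) A Φ σ, bT ∪ (bR ∪ bD),
    hlaw hbT hbR hbD, fun ω hω c' hc' hw F hF hFU => ?_, fun ω hω x hx hw t ht1 ht2 hu hl => ?_⟩
  · have wT : Real.exp (-((n : ℝ) ^ eT)) ≤ Γ.w c' ω := le_trans (Real.exp_le_exp.2 (neg_le_neg
      (Real.rpow_le_rpow_of_exponent_le hnR (min_le_left _ _)))) hw
    have h1 := cnJ51 (b₁ := δ / 16 * m8 K e n) (b₂ := δ / 16 * m8 K e n) hm0 (hT ω (fun h => hω (Or.inl h)) c' hc' wT)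
      (hR ω (fun h => hω (Or.inr (Or.inl h))) c' hc') F hF hFU
    have h2 : (0 : ℝ) ≤ m8 K e n := Nat.cast_nonneg _
    nlinarith
  · have wD : Real.exp (-((n : ℝ) ^ eD)) ≤ Γ.w x.1 ω := le_trans (Real.exp_le_exp.2 (neg_le_neg
      (Real.rpow_le_rpow_of_exponent_le hnR (min_le_right _ _)))) hw
    have hE0 : ∀ v, 0 ≤ (k.up m).E μ s (2 * h8 Q (ρ * e) n) v := fun v => (EE_pos _).le
    have hth : ∀ v j, 0 ≤ (k.up m).th μ s (2 * h8 Q (ρ * e) n) v j := fun v j =>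
      mul_nonneg (mul_nonneg (k.up m).hη.le (by positivity)) (hE0 v)
    have hsl : 0 ≤ (k.up m).sl μ s (2 * h8 Q (ρ * e) n) (k.up m).τ₀ := by
      show 0 ≤ slN (k.up m).Cb ((k.up m).E μ s (2 * h8 Q (ρ * e) n)) (k.up m).m2 (k.up m).τ₀
      unfold slN bN
      exact sum_nonneg fun v _ => mul_nonneg (k.up m).hCb (hE0 v)
    have hZ4 : m8 K e n / Z ≤ m8 K e n / 4 := Nat.div_le_div_left hZ (by norm_num)
    have hM4 : m8 K e n / 4 * 4 ≤ m8 K e n := Nat.div_mul_le_self _ _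
    have gd : ∀ j, 16 * j ≤ 7 * m8 K e n → Gd51 μ s (k.up m) hW (m8 K e n) Γ (Un51 μ s c P Γ ((k.up m).G hW (m8 K e n))
        ((k.up m).th μ s (2 * h8 Q (ρ * e) n)) (k.up m).m0 (k.up m).τ₀ G (h8 Q (ρ * e) n) K (m8 K e n + ((k.up m).m0 + m₁)) y
        (m8 K e n) A Φ σ) x j ω → Gd51 μ s (k.up m) hW (m8 K e n) Γ (Un27 μ s c (1 / 8) 6 P Γ ((k.up m).G hW (m8 K e n))
        ((k.up m).th μ s (2 * h8 Q (ρ * e) n)) (k.up m).m0 (k.up m).τ₀ G (h8 Q (ρ * e) n) K (m8 K e n + ((k.up m).m0 + m₁))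
        (m8 K e n + ((k.up m).m0 + m₁)) y (m8 K e n / 2) 2 A Φ σ) x j ω := fun j hj h => ⟨h.1, h.2.1, fun hcon => h.2.2.1 ⟨hj, hcon⟩, h.2.2.2⟩
    have hl : ∀ l, l₀ ≤ l → l ≤ lm → ∃ j, Gd51 μ s (k.up m) hW (m8 K e n) Γ (Un27 μ s c (1 / 8) 6 P Γ ((k.up m).G hW (m8 K e n))
        ((k.up m).th μ s (2 * h8 Q (ρ * e) n)) (k.up m).m0 (k.up m).τ₀ G (h8 Q (ρ * e) n) K (m8 K e n + ((k.up m).m0 + m₁))
        (m8 K e n + ((k.up m).m0 + m₁)) y (m8 K e n / 2) 2 A Φ σ) x j ω ∧ t + (m₁ - 1) + (l - 1) / 2 ≤ j ∧ j + 2 ≤ t + (m₁ - 1) + l := by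
      intro l hl1 hl2
      obtain ⟨j, j1, j2, j3⟩ := hl l hl1 hl2
      exact ⟨j, gd j (by omega) j1, j2, j3⟩
    have hu := gd _ (by omega) hu
    obtain ⟨g1, g2, g3, g4, g5⟩ := us27 (κ₀ := (k.up m).th μ s (2 * h8 Q (ρ * e) n) (t + (m₁ - 1)) (t + (m₁ - 1) + (k.up m).m0))
      (κv := fun v => (k.up m).th μ s (2 * h8 Q (ρ * e) n) v (v + (k.up m).m0)) hu hl le_rfl hl₀ (by omega) (by omega)
      (fun v _ _ => le_add_of_nonneg_right hsl) (fun v _ _ => by linarith [hth v (v + (k.up m).m0)]) (le_add_of_nonneg_right hsl)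
    exact hD ω (fun h => hω (Or.inr (Or.inr h))) x hx wD t ht1 ht2 g1 g2 g3 g4 g5

end

end Pool.Agent.W_7d29a1_C1.Nu51
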