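import Pool.Agent.W_7d29a1_C1.TmS89
import Pool.Agent.W_7d29a1_C1.FwS51
import Pool.Agent.W_7d29a1_C1.TmG94
import Pool.Agent.W_7d29a1_C1.TpF17
import Pool.Agent.W_7d29a1_C1.TpZ70
import Pool.Agent.W_7d29a1_C1.NsT84
import Pool.Agent.W_7d29a1_C1.RcJ38
import Pool.Agent.W_7d29a1_C1.DtS90
import Pool.Agent.W_7d29a1_C1.TdJ51
import Pool.Agent.W_7d29a1_C1.TmU51
import Pool.Agent.W_7d29a1_C1.TopI16
import Pool.Agent.W_7d29a1_C1.ArmE94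

/-!
MP_7d29a1_pr, attractor route [C1], SIDE N OF THE SHELL: `tdN92 : In μ s c C n₀ → 0 < c₁ → c₁ < c₃ → TdQ51 μ s c₁ c₃`, from the four clauses
`paQ92`, `fwQ92`, `nsQ84`, `rcQ51` and the determinism `dtS90`. (helper92)
-/

set_option autoImplicit false

namespace Pool.Agent.W_7d29a1_C1.TdN92

open MeasureTheory Filter
open Pool.Agent.W_7d29a1_F Pool.Agent.W_7d29a1_h4g Pool.Agent.W_7d29a1_H Pool.Agent.W_7d29a1_HS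
open Pool.Agent.W_7d29a1_C1.Nu51
open Pool.Agent.W_7d29a1_C1.U16

theorem paQ92 {μ : Measure ℝ} [IsProbabilityMeasure μ] {s c C : ℝ} {n₀ : ℕ} (hI : In μ s c C n₀) : PaQ51 μ s :=
  Pool.Agent.W_7d29a1_C1.TmS89.tmS89 hI (Pool.Agent.W_7d29a1_C1.H94.cs94_all hI.em hI.nd s) (Pool.Agent.W_7d29a1_C1.Tl57.ee9_57 hI)
    fun e he he1 => ⟨2, fun K hK R B C₀ hR hB hC =>
      Pool.Agent.W_7d29a1_C1.TpZ70.topZ70 hI (lb_in16 hI) (ub_in16 hI) (fut_in16 hI) K B R C₀ hK hB hC hR e he he1⟩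

theorem fwQ92 {μ : Measure ℝ} [IsProbabilityMeasure μ] {s c C : ℝ} {n₀ : ℕ} (hI : In μ s c C n₀) : FwQ51 μ s :=
  Pool.Agent.W_7d29a1_C1.FwN51.fwS51 hI (Pool.Agent.W_7d29a1_C1.Tl57.ee9_57 hI)
    (Pool.Agent.W_7d29a1_C1.TmG94.tmG94 hI (Pool.Agent.W_7d29a1_C1.H94.cs94_all hI.em hI.nd s))
    (Pool.Agent.W_7d29a1_C1.TpF17.tpf17 hI (Pool.Agent.W_7d29a1_C1.Tl57.ee9_57 hI) (lb_in16 hI) (ub_in16 hI) (fut_in16 hI))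

theorem tdN92 {μ : Measure ℝ} [IsProbabilityMeasure μ] {s c C : ℝ} {n₀ : ℕ} (hI : In μ s c C n₀) {c₁ c₃ : ℝ} (h1 : 0 < c₁) (h2 : c₁ < c₃) :
    TdQ51 μ s c₁ c₃ :=
  tdQ51_of hI (tmU51 hI (fwQ92 hI) (Pool.Agent.W_7d29a1_C1.NsN84.nsQ84 hI (lb_in16 hI) (cry_in16 hI)) (paQ92 hI))
    (Pool.Agent.W_7d29a1_C1.Rc38.rcQ51 hI) (Pool.Agent.W_7d29a1_C1.Dts90.dtS90 hI (lb_in16 hI) (ub_in16 hI) h1 h2)

end Pool.Agent.W_7d29a1_C1.TdN92
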