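import Mathlib

/-!
MP_7d29a1_pr, attractor route, the shell (helper10): nested sheared boxes. Sites `b = (row, column)` with rows in `ℕ`. A grid has heights
`H k`, widths `V k` (each one divides the next one) and the column `s r` of the row `r`, additive over the digits of `r` (`hs`), so that
all boxes of one level are exact translates together with their children. `z k b` is the base of the box of level `k` of `b`, `rel k b`
the position in the box, `pm k (c, c')` the exchange of the positions in the boxes (the partner map).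
-/

set_option autoImplicit false

namespace Pool.Agent.W_7d29a1_C1.T10

open Finset

noncomputable section

/-- A grid. -/
structure Gd where
  H : ℕ → ℕ
  V : ℕ → ℕ
  s : ℕ → ℤ

namespace Gd

/-- A grid with `L` levels (`0 .. L`). -/
structure Ok (G : Gd) (L : ℕ) : Prop where
  H0 : ∀ k, k ≤ L → 0 < G.H k
  V0 : ∀ k, k ≤ L → 0 < G.V k
  Hd : ∀ k, k < L → G.H k ∣ G.H (k + 1)
  Vd : ∀ k, k < L → G.V k ∣ G.V (k + 1)
  hs : ∀ k, k ≤ L → ∀ j r, r < G.H k → G.s (G.H k * j + r) = G.s (G.H k * j) + G.s r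

/-- The column in the frame which moves with the rows. -/
def u (G : Gd) (b : ℕ × ℤ) : ℤ := b.2 - G.s b.1

/-- The base of the box of level `k` of the site `b`. -/
def z (G : Gd) (k : ℕ) (b : ℕ × ℤ) : ℕ × ℤ :=
  (G.H k * (b.1 / G.H k), G.s (G.H k * (b.1 / G.H k)) + G.V k * (G.u b / G.V k))

/-- The position of the site `b` in its box of level `k`. -/
def rel (G : Gd) (k : ℕ) (b : ℕ × ℤ) : ℕ × ℤ := (b.1 % G.H k, G.s (b.1 % G.H k) + G.u b % G.V k)

/-- **The partner map**: the two positions in the boxes of level `k` are exchanged. -/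
def pm (G : Gd) (k : ℕ) (c : (ℕ × ℤ) × (ℕ × ℤ)) : (ℕ × ℤ) × (ℕ × ℤ) := (G.z k c.1 + G.rel k c.2, G.z k c.2 + G.rel k c.1)

/-- The box of level `k` of the site `a`. -/
def box (G : Gd) (k : ℕ) (a : ℕ × ℤ) : Finset (ℕ × ℤ) :=
  (range (G.H k) ×ˢ range (G.V k)).image fun v => G.z k a + (v.1, G.s v.1 + v.2)

variable {G : Gd} {L : ℕ}

theorem Ok.dvdH (h : G.Ok L) {j k : ℕ} (hjk : j ≤ k) (hk : k ≤ L) : G.H j ∣ G.H k := by
  induction k, hjk using Nat.le_induction with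
  | base => exact dvd_rfl
  | succ k hjk ih => exact (ih (by omega)).trans (h.Hd k (by omega))

theorem Ok.dvdV (h : G.Ok L) {j k : ℕ} (hjk : j ≤ k) (hk : k ≤ L) : G.V j ∣ G.V k := by
  induction k, hjk using Nat.le_induction with
  | base => exact dvd_rfl
  | succ k hjk ih => exact (ih (by omega)).trans (h.Vd k (by omega))

theorem Ok.V0' (h : G.Ok L) {k : ℕ} (hk : k ≤ L) : (0 : ℤ) < (G.V k : ℤ) := by exact_mod_cast h.V0 k hk

theorem Ok.s0 (h : G.Ok L) : G.s 0 = 0 := by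
  have h1 := h.hs 0 (Nat.zero_le L) 0 0 (h.H0 0 (Nat.zero_le L))
  rw [Nat.mul_zero, Nat.add_zero] at h1
  linarith

theorem Ok.s_split (h : G.Ok L) {k : ℕ} (hk : k ≤ L) (r : ℕ) : G.s r = G.s (G.H k * (r / G.H k)) + G.s (r % G.H k) := by
  have h1 := h.hs k hk (r / G.H k) (r % G.H k) (Nat.mod_lt _ (h.H0 k hk))
  rwa [Nat.div_add_mod] at h1

/-- A site is the base of its box plus its position. -/
theorem Ok.z_add_rel (h : G.Ok L) {k : ℕ} (hk : k ≤ L) (b : ℕ × ℤ) : G.z k b + G.rel k b = b := by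
  refine Prod.ext (Nat.div_add_mod _ _) ?_
  show G.s (G.H k * (b.1 / G.H k)) + G.V k * (G.u b / G.V k) + (G.s (b.1 % G.H k) + G.u b % G.V k) = b.2
  have h1 := h.s_split hk b.1
  have h2 := Int.mul_ediv_add_emod (G.u b) (G.V k)
  have h3 : G.u b = b.2 - G.s b.1 := rfl
  linarith

/-- The row of a transplanted site. -/
theorem row_tr (k : ℕ) (a b : ℕ × ℤ) : (G.z k a + G.rel k b).1 = G.H k * (a.1 / G.H k) + b.1 % G.H k := rfl

/-- The moving column of a transplanted site. -/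
theorem Ok.u_tr (h : G.Ok L) {k : ℕ} (hk : k ≤ L) (a b : ℕ × ℤ) :
    G.u (G.z k a + G.rel k b) = G.V k * (G.u a / G.V k) + G.u b % G.V k := by
  have h1 := h.hs k hk (a.1 / G.H k) (b.1 % G.H k) (Nat.mod_lt _ (h.H0 k hk))
  show G.s (G.H k * (a.1 / G.H k)) + G.V k * (G.u a / G.V k) + (G.s (b.1 % G.H k) + G.u b % G.V k) -
    G.s (G.H k * (a.1 / G.H k) + b.1 % G.H k) = _
  linarith

/-- The base depends only on the two quotients. -/
theorem z_congr {k : ℕ} {a b : ℕ × ℤ} (h1 : a.1 / G.H k = b.1 / G.H k) (h2 : G.u a / G.V k = G.u b / G.V k) :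
    G.z k a = G.z k b := by
  unfold z
  rw [h1, h2]

theorem rel_congr {k : ℕ} {a b : ℕ × ℤ} (h1 : a.1 % G.H k = b.1 % G.H k) (h2 : G.u a % G.V k = G.u b % G.V k) :
    G.rel k a = G.rel k b := by
  unfold rel
  rw [h1, h2]

theorem quot_tr (h : G.Ok L) {k j : ℕ} (hkj : k ≤ j) (hj : j ≤ L) (a b : ℕ × ℤ) :
    (G.z k a + G.rel k b).1 / G.H j = a.1 / G.H j ∧ G.u (G.z k a + G.rel k b) / G.V j = G.u a / G.V j := by
  have hk := hkj.trans hj
  obtain ⟨e, he⟩ := h.dvdH hkj hj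
  obtain ⟨f, hf⟩ := h.dvdV hkj hj
  have H0 := h.H0 k hk
  have V0 := h.V0' hk
  have hf' : (G.V j : ℤ) = G.V k * f := by exact_mod_cast hf
  constructor
  · rw [row_tr, he, ← Nat.div_div_eq_div_mul, ← Nat.div_div_eq_div_mul]
    congr 1
    rw [Nat.mul_add_div H0, Nat.div_eq_of_lt (Nat.mod_lt _ H0), Nat.add_zero]
  · rw [h.u_tr hk, hf', ← Int.ediv_ediv_of_nonneg V0.le, ← Int.ediv_ediv_of_nonneg V0.le]
    congr 1
    rw [Int.mul_add_ediv_left _ _ V0.ne', Int.ediv_eq_zero_of_lt (Int.emod_nonneg _ V0.ne') (Int.emod_lt_of_pos _ V0), add_zero]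

theorem rem_tr (h : G.Ok L) {k j : ℕ} (hjk : j ≤ k) (hk : k ≤ L) (a b : ℕ × ℤ) :
    (G.z k a + G.rel k b).1 % G.H j = b.1 % G.H j ∧ G.u (G.z k a + G.rel k b) % G.V j = G.u b % G.V j := by
  have V0 := h.V0' hk
  have dH := h.dvdH hjk hk
  have dV : (G.V j : ℤ) ∣ (G.V k : ℤ) := by exact_mod_cast h.dvdV hjk hk
  constructor
  · rw [row_tr, Nat.add_mod, Nat.mod_eq_zero_of_dvd (dH.mul_right _), Nat.zero_add, Nat.mod_mod, Nat.mod_mod_of_dvd _ dH]
  · rw [h.u_tr hk, Int.add_emod, Int.emod_eq_zero_of_dvd (dV.mul_right _), zero_add, Int.emod_emod_of_dvd _ dvd_rfl,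
      Int.emod_emod_of_dvd _ dV]

/-- **The boxes of the higher levels do not move.** -/
theorem Ok.z_tr (h : G.Ok L) {k j : ℕ} (hkj : k ≤ j) (hj : j ≤ L) (a b : ℕ × ℤ) : G.z j (G.z k a + G.rel k b) = G.z j a :=
  z_congr (quot_tr h hkj hj a b).1 (quot_tr h hkj hj a b).2

/-- **The positions in the boxes of the lower levels are those of the transplanted site.** -/
theorem Ok.rel_tr (h : G.Ok L) {k j : ℕ} (hjk : j ≤ k) (hk : k ≤ L) (a b : ℕ × ℤ) : G.rel j (G.z k a + G.rel k b) = G.rel j b :=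
  rel_congr (rem_tr h hjk hk a b).1 (rem_tr h hjk hk a b).2

theorem Ok.z_zero (h : G.Ok L) (k : ℕ) : G.z k 0 = 0 := by
  unfold z u
  rw [show ((0 : ℕ × ℤ)).1 = 0 from rfl, show ((0 : ℕ × ℤ)).2 = 0 from rfl, Nat.zero_div, Nat.mul_zero, h.s0]
  simp

theorem Ok.rel_eq (h : G.Ok L) {k : ℕ} (hk : k ≤ L) (b : ℕ × ℤ) : G.z k 0 + G.rel k b = G.rel k b := by
  rw [h.z_zero, zero_add]

theorem Ok.rel_rel (h : G.Ok L) {k j : ℕ} (hjk : j ≤ k) (hk : k ≤ L) (b : ℕ × ℤ) : G.rel j (G.rel k b) = G.rel j b := by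
  have h1 := h.rel_tr hjk hk 0 b
  rwa [h.z_zero, zero_add] at h1

/-- **Equivariance**: the tower of a transplanted site is the transplanted tower. -/
theorem Ok.z_tr_le (h : G.Ok L) {k j : ℕ} (hjk : j ≤ k) (hk : k ≤ L) (a b : ℕ × ℤ) :
    G.z j (G.z k a + G.rel k b) = G.z k a + G.z j (G.rel k b) := by
  have h1 := h.z_add_rel (hjk.trans hk) (G.z k a + G.rel k b)
  have h2 := h.z_add_rel (hjk.trans hk) (G.rel k b)
  rw [h.rel_tr hjk hk] at h1
  rw [h.rel_rel hjk hk] at h2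
  have h3 : G.z j (G.z k a + G.rel k b) + G.rel j b = G.z k a + G.z j (G.rel k b) + G.rel j b := by
    rw [h1, add_assoc, h2]
  exact add_right_cancel h3

/-- The tower of a site over its box of level `k`. -/
theorem Ok.z_le (h : G.Ok L) {k j : ℕ} (hjk : j ≤ k) (hk : k ≤ L) (b : ℕ × ℤ) : G.z j b = G.z k b + G.z j (G.rel k b) := by
  have h1 := h.z_tr_le hjk hk b b
  rwa [h.z_add_rel hk] at h1

theorem Ok.rel_z (h : G.Ok L) {k j : ℕ} (hjk : j ≤ k) (hk : k ≤ L) (b : ℕ × ℤ) : G.rel j (G.z k b) = 0 := by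
  have dH := h.dvdH hjk hk
  have dV : (G.V j : ℤ) ∣ (G.V k : ℤ) := by exact_mod_cast h.dvdV hjk hk
  have e1 : G.u (G.z k b) = G.V k * (G.u b / G.V k) := by
    show G.s (G.H k * (b.1 / G.H k)) + G.V k * (G.u b / G.V k) - G.s (G.H k * (b.1 / G.H k)) = _
    ring
  unfold rel
  rw [e1, Int.emod_eq_zero_of_dvd (dV.mul_right _), show (G.z k b).1 % G.H j = 0 from Nat.mod_eq_zero_of_dvd (dH.mul_right _),
    h.s0, add_zero]
  rfl

/-- **Nested**: the base of the higher level is a function of the base of the lower level. -/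
theorem Ok.z_z (h : G.Ok L) {k j : ℕ} (hkj : k ≤ j) (hj : j ≤ L) (b : ℕ × ℤ) : G.z j (G.z k b) = G.z j b := by
  have h1 := h.z_tr hkj hj b (G.z k b)
  rwa [h.rel_z le_rfl (hkj.trans hj), add_zero] at h1

theorem Ok.z_nested (h : G.Ok L) {k j : ℕ} (hkj : k ≤ j) (hj : j ≤ L) {a b : ℕ × ℤ} (hab : G.z k a = G.z k b) :
    G.z j a = G.z j b := by
  rw [← h.z_z hkj hj a, hab, h.z_z hkj hj b]

theorem Ok.z_z_le (h : G.Ok L) {k j : ℕ} (hjk : j ≤ k) (hk : k ≤ L) (b : ℕ × ℤ) : G.z j (G.z k b) = G.z k b := by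
  have h1 := h.z_add_rel (hjk.trans hk) (G.z k b)
  rwa [h.rel_z hjk hk, add_zero] at h1

/-! ### The partner map -/

theorem Ok.pm_z (h : G.Ok L) {k j : ℕ} (hkj : k ≤ j) (hj : j ≤ L) (c : (ℕ × ℤ) × (ℕ × ℤ)) :
    G.z j (G.pm k c).1 = G.z j c.1 ∧ G.z j (G.pm k c).2 = G.z j c.2 := ⟨h.z_tr hkj hj _ _, h.z_tr hkj hj _ _⟩

theorem Ok.pm_rel (h : G.Ok L) {k j : ℕ} (hjk : j ≤ k) (hk : k ≤ L) (c : (ℕ × ℤ) × (ℕ × ℤ)) :
    G.rel j (G.pm k c).1 = G.rel j c.2 ∧ G.rel j (G.pm k c).2 = G.rel j c.1 := ⟨h.rel_tr hjk hk _ _, h.rel_tr hjk hk _ _⟩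

/-- **The partner map is an involution.** -/
theorem Ok.pm_pm (h : G.Ok L) {k : ℕ} (hk : k ≤ L) (c : (ℕ × ℤ) × (ℕ × ℤ)) : G.pm k (G.pm k c) = c := by
  have h1 := h.pm_z le_rfl hk c
  have h2 := h.pm_rel le_rfl hk c
  refine Prod.ext ?_ ?_
  · show G.z k (G.pm k c).1 + G.rel k (G.pm k c).2 = c.1
    rw [h1.1, h2.2, h.z_add_rel hk]
  · show G.z k (G.pm k c).2 + G.rel k (G.pm k c).1 = c.2
    rw [h1.2, h2.1, h.z_add_rel hk]

theorem Ok.pm_inj (h : G.Ok L) {k : ℕ} (hk : k ≤ L) : Function.Injective (G.pm k) :=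
  Function.LeftInverse.injective (g := G.pm k) fun c => h.pm_pm hk c

/-- **The towers below the level `k` are exchanged.** -/
theorem Ok.pm_tower (h : G.Ok L) {k j : ℕ} (hjk : j ≤ k) (hk : k ≤ L) (c : (ℕ × ℤ) × (ℕ × ℤ)) :
    G.z j (G.pm k c).1 = G.z k c.1 + G.z j (G.rel k c.2) ∧ G.z j (G.pm k c).2 = G.z k c.2 + G.z j (G.rel k c.1) :=
  ⟨h.z_tr_le hjk hk _ _, h.z_tr_le hjk hk _ _⟩

/-! ### The boxes as finite sets -/

theorem Ok.mem_box (h : G.Ok L) {k : ℕ} (hk : k ≤ L) {a b : ℕ × ℤ} : b ∈ G.box k a ↔ G.z k b = G.z k a := by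
  have V0 := h.V0' hk
  unfold box
  rw [mem_image]
  constructor
  · rintro ⟨v, hv, rfl⟩
    rw [mem_product, mem_range, mem_range] at hv
    have e1 : G.u (v.1, G.s v.1 + (v.2 : ℤ)) = v.2 := by
      show G.s v.1 + (v.2 : ℤ) - G.s v.1 = v.2
      ring
    have e : G.rel k (v.1, G.s v.1 + (v.2 : ℤ)) = (v.1, G.s v.1 + (v.2 : ℤ)) := by
      unfold rel
      rw [e1]
      show (v.1 % G.H k, G.s (v.1 % G.H k) + (v.2 : ℤ) % (G.V k : ℤ)) = _
      rw [Nat.mod_eq_of_lt hv.1, Int.emod_eq_of_lt (by positivity) (by exact_mod_cast hv.2)]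
    rw [← e]
    exact h.z_tr le_rfl hk _ _
  · intro hb
    refine ⟨(b.1 % G.H k, (G.u b % G.V k).toNat), ?_, ?_⟩
    · rw [mem_product, mem_range, mem_range]
      refine ⟨Nat.mod_lt _ (h.H0 k hk), ?_⟩
      have h1 := Int.emod_lt_of_pos (G.u b) V0
      have h2 := Int.emod_nonneg (G.u b) V0.ne'
      show (G.u b % G.V k).toNat < G.V k
      omega
    · have h2 := Int.emod_nonneg (G.u b) V0.ne'
      have e : (b.1 % G.H k, G.s (b.1 % G.H k) + (((G.u b % G.V k).toNat : ℕ) : ℤ)) = G.rel k b := by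
        unfold rel
        rw [Int.toNat_of_nonneg h2]
      show G.z k a + (b.1 % G.H k, G.s (b.1 % G.H k) + (((G.u b % G.V k).toNat : ℕ) : ℤ)) = b
      rw [e, ← hb, h.z_add_rel hk]

theorem Ok.self_mem_box (h : G.Ok L) {k : ℕ} (hk : k ≤ L) (a : ℕ × ℤ) : a ∈ G.box k a := (h.mem_box hk).2 rfl

theorem Ok.box_congr (h : G.Ok L) {k : ℕ} (hk : k ≤ L) {a b : ℕ × ℤ} (hab : G.z k a = G.z k b) : G.box k a = G.box k b := by
  ext c
  rw [h.mem_box hk, h.mem_box hk, hab]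

theorem Ok.box_mono (h : G.Ok L) {k j : ℕ} (hkj : k ≤ j) (hj : j ≤ L) (a : ℕ × ℤ) : G.box k a ⊆ G.box j a := fun b hb => by
  rw [h.mem_box (hkj.trans hj)] at hb
  rw [h.mem_box hj]
  exact h.z_nested hkj hj hb

theorem Ok.card_box (h : G.Ok L) {k : ℕ} (_ : k ≤ L) (a : ℕ × ℤ) : (G.box k a).card = G.H k * G.V k := by
  unfold box
  rw [card_image_of_injective, card_product, card_range, card_range]
  intro v v' hv
  have h1 : ((v.1, G.s v.1 + (v.2 : ℤ)) : ℕ × ℤ) = (v'.1, G.s v'.1 + (v'.2 : ℤ)) := add_left_cancel hv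
  have e1 : v.1 = v'.1 := (Prod.mk.injEq _ _ _ _ ▸ h1).1
  have e2 : G.s v.1 + (v.2 : ℤ) = G.s v'.1 + (v'.2 : ℤ) := (Prod.mk.injEq _ _ _ _ ▸ h1).2
  rw [e1] at e2
  exact Prod.ext e1 (by omega)

/-- The partner map exchanges the positions inside the pair of boxes. -/
theorem Ok.pm_mem (h : G.Ok L) {k : ℕ} (hk : k ≤ L) {c : (ℕ × ℤ) × (ℕ × ℤ)} {a a' : ℕ × ℤ} :
    G.pm k c ∈ G.box k a ×ˢ G.box k a' ↔ c ∈ G.box k a ×ˢ G.box k a' := by
  rw [mem_product, mem_product, h.mem_box hk, h.mem_box hk, h.mem_box hk, h.mem_box hk, (h.pm_z le_rfl hk c).1,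
    (h.pm_z le_rfl hk c).2]

/-- **Sums over all pairs, with the partner map**: for sets of pairs which are unions of products of boxes of level `k`. -/
theorem Ok.sum_pm (h : G.Ok L) {k : ℕ} (hk : k ≤ L) {M : Type*} [AddCommMonoid M] {S : Finset ((ℕ × ℤ) × (ℕ × ℤ))}
    (hS : ∀ c, c ∈ S → G.pm k c ∈ S) (f : (ℕ × ℤ) × (ℕ × ℤ) → M) : ∑ c ∈ S, f (G.pm k c) = ∑ c ∈ S, f c :=
  sum_bij (fun c _ => G.pm k c) (fun c hc => hS c hc) (fun a _ b _ hab => h.pm_inj hk hab)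
    (fun c hc => ⟨G.pm k c, hS c hc, h.pm_pm hk c⟩) fun _ _ => rfl

/-! ### The geometry -/

/-- The site in its box: rows. -/
theorem row_le (k : ℕ) (b : ℕ × ℤ) : (G.z k b).1 ≤ b.1 := Nat.mul_div_le _ _

theorem Ok.row_lt (h : G.Ok L) {k : ℕ} (hk : k ≤ L) (b : ℕ × ℤ) : b.1 < (G.z k b).1 + G.H k := by
  have h1 := Nat.div_add_mod b.1 (G.H k)
  have h2 := Nat.mod_lt b.1 (h.H0 k hk)
  show b.1 < G.H k * (b.1 / G.H k) + G.H k
  omega

/-- The site in its box: columns. -/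
theorem Ok.col (h : G.Ok L) {k : ℕ} (hk : k ≤ L) {b : ℕ × ℤ} {sl e : ℝ}
    (hb : ∀ r, r < G.H k → |(G.s r : ℝ) - sl * r| ≤ e) :
    |(b.2 : ℝ) - (G.z k b).2 - sl * ((b.1 : ℝ) - (G.z k b).1)| ≤ G.V k + e := by
  have V0 := h.V0' hk
  have h1 := congrArg Prod.fst (h.z_add_rel hk b)
  have h2 := congrArg Prod.snd (h.z_add_rel hk b)
  have e1 : (b.1 : ℝ) - (G.z k b).1 = ((b.1 % G.H k : ℕ) : ℝ) := by
    have : (G.z k b).1 + b.1 % G.H k = b.1 := h1
    have h3 : ((G.z k b).1 : ℝ) + ((b.1 % G.H k : ℕ) : ℝ) = b.1 := by exact_mod_cast this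
    linarith
  have e2 : (b.2 : ℝ) - (G.z k b).2 = (G.s (b.1 % G.H k) : ℝ) + ((G.u b % G.V k : ℤ) : ℝ) := by
    have : (G.z k b).2 + (G.s (b.1 % G.H k) + G.u b % G.V k) = b.2 := h2
    have h3 : ((G.z k b).2 : ℝ) + ((G.s (b.1 % G.H k) : ℝ) + ((G.u b % G.V k : ℤ) : ℝ)) = b.2 := by exact_mod_cast this
    linarith
  rw [e1, e2]
  have a1 := hb (b.1 % G.H k) (Nat.mod_lt _ (h.H0 k hk))
  have a2 : (0 : ℝ) ≤ ((G.u b % G.V k : ℤ) : ℝ) := by exact_mod_cast Int.emod_nonneg (G.u b) V0.ne'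
  have a3 : ((G.u b % G.V k : ℤ) : ℝ) ≤ G.V k := by exact_mod_cast (Int.emod_lt_of_pos (G.u b) V0).le
  rw [abs_le] at a1 ⊢
  constructor <;> linarith

end Gd

/-! ### Existence -/

section ex

variable (sl : ℝ) (H : ℕ → ℕ) (L : ℕ)

/-- The digits of the row `r`. -/
def dg (r : ℕ) : ℕ → ℤ
  | 0 => ((r % H 0 : ℕ) : ℤ)
  | i + 1 => if i < L then ((r % H (i + 1) : ℕ) : ℤ) - ((r % H i : ℕ) : ℤ) else (r : ℤ) - ((r % H L : ℕ) : ℤ)

theorem dg_succ (H : ℕ → ℕ) (L r i : ℕ) : dg H L r (i + 1) =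
    if i < L then ((r % H (i + 1) : ℕ) : ℤ) - ((r % H i : ℕ) : ℤ) else (r : ℤ) - ((r % H L : ℕ) : ℤ) := rfl

/-- The column of the row `r`: the slope times each digit, rounded. -/
def cs (r : ℕ) : ℤ := ∑ i ∈ range (L + 2), ⌊sl * (dg H L r i : ℝ)⌋

variable {sl H L}

theorem dvd10 (hd : ∀ k, k < L → H k ∣ H (k + 1)) {j k : ℕ} (hjk : j ≤ k) (hk : k ≤ L) : H j ∣ H k := by
  induction k, hjk using Nat.le_induction with
  | base => exact dvd_rfl
  | succ k hjk ih => exact (ih (by omega)).trans (hd k (by omega))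

/-- The remainders of a sum, lower levels. -/
theorem mod_lo (hd : ∀ k, k < L → H k ∣ H (k + 1)) {i k : ℕ} (hik : i ≤ k) (hk : k ≤ L) (j r : ℕ) :
    (H k * j + r) % H i = r % H i := by
  rw [Nat.add_mod, Nat.mod_eq_zero_of_dvd ((dvd10 hd hik hk).mul_right _), Nat.zero_add, Nat.mod_mod]

theorem mod_lo0 (hd : ∀ k, k < L → H k ∣ H (k + 1)) {i k : ℕ} (hik : i ≤ k) (hk : k ≤ L) (j : ℕ) : (H k * j) % H i = 0 :=
  Nat.mod_eq_zero_of_dvd ((dvd10 hd hik hk).mul_right _)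

/-- The remainders of a sum, higher levels. -/
theorem mod_hi (h0 : ∀ k, k ≤ L → 0 < H k) (hd : ∀ k, k < L → H k ∣ H (k + 1)) {i k : ℕ} (hki : k ≤ i) (hi : i ≤ L) (j : ℕ)
    {r : ℕ} (hr : r < H k) : (H k * j + r) % H i = (H k * j) % H i + r ∧ r % H i = r := by
  obtain ⟨e, he⟩ := dvd10 hd hki hi
  have hk0 := h0 k (hki.trans hi)
  have hi0 := h0 i hi
  have he0 : 0 < e := by
    rcases Nat.eq_zero_or_pos e with h | h
    · rw [h, Nat.mul_zero] at he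
      omega
    · exact h
  have e1 : (H k * j) % H i = H k * (j % e) := by rw [he, Nat.mul_mod_mul_left]
  have e2 : j % e + 1 ≤ e := Nat.mod_lt _ he0
  have e3 : H k * (j % e) + r < H i := by
    calc H k * (j % e) + r < H k * (j % e) + H k := by omega
      _ = H k * (j % e + 1) := by ring
      _ ≤ H k * e := Nat.mul_le_mul_left _ e2
      _ = H i := he.symm
  have hri : r < H i := lt_of_le_of_lt (Nat.le_add_left r (H k * (j % e))) e3
  refine ⟨?_, Nat.mod_eq_of_lt hri⟩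
  rw [Nat.add_mod, e1, Nat.mod_eq_of_lt hri, Nat.mod_eq_of_lt e3]

/-- The digits below the level `k` are those of the remainder. -/
theorem dg_lo (hd : ∀ k, k < L → H k ∣ H (k + 1)) {i k : ℕ} (hik : i ≤ k) (hk : k ≤ L) (j r : ℕ) :
    dg H L (H k * j + r) i = dg H L r i ∧ dg H L (H k * j) i = 0 := by
  cases i with
  | zero =>
    unfold dg
    rw [mod_lo hd hik hk, mod_lo0 hd hik hk]
    exact ⟨rfl, rfl⟩
  | succ i =>
    rw [dg_succ, dg_succ, dg_succ, if_pos (show i < L by omega), if_pos (show i < L by omega), if_pos (show i < L by omega),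
      mod_lo hd hik hk, mod_lo hd (by omega) hk, mod_lo0 hd hik hk, mod_lo0 hd (by omega) hk]
    exact ⟨rfl, by simp⟩

/-- The digits above the level `k` are those of the multiple. -/
theorem dg_hi (h0 : ∀ k, k ≤ L → 0 < H k) (hd : ∀ k, k < L → H k ∣ H (k + 1)) {i k : ℕ} (hki : k < i) (hk : k ≤ L) (j : ℕ)
    {r : ℕ} (hr : r < H k) : dg H L (H k * j + r) i = dg H L (H k * j) i ∧ dg H L r i = 0 := by
  obtain ⟨i, rfl⟩ : ∃ i', i = i' + 1 := ⟨i - 1, by omega⟩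
  rw [dg_succ, dg_succ, dg_succ]
  by_cases hiL : i < L
  · have a1 := mod_hi h0 hd (show k ≤ i + 1 by omega) (by omega) j hr
    have a2 := mod_hi h0 hd (show k ≤ i by omega) (by omega) j hr
    rw [if_pos hiL, if_pos hiL, if_pos hiL, a1.1, a2.1, a1.2, a2.2]
    push_cast
    exact ⟨by ring, by ring⟩
  · have a2 := mod_hi h0 hd hk le_rfl j hr
    rw [if_neg hiL, if_neg hiL, if_neg hiL, a2.1, a2.2]
    push_cast
    exact ⟨by ring, by ring⟩

theorem cs_add (h0 : ∀ k, k ≤ L → 0 < H k) (hd : ∀ k, k < L → H k ∣ H (k + 1)) {k : ℕ} (hk : k ≤ L) (j : ℕ) {r : ℕ}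
    (hr : r < H k) : cs sl H L (H k * j + r) = cs sl H L (H k * j) + cs sl H L r := by
  unfold cs
  rw [← sum_add_distrib]
  refine sum_congr rfl fun i _ => ?_
  rcases Nat.lt_or_ge k i with h | h
  · have h1 := dg_hi h0 hd h hk j hr
    rw [h1.1, h1.2]
    simp
  · have h1 := dg_lo hd h hk j r
    rw [h1.1, h1.2]
    simp

theorem sum_dg (r : ℕ) : ∀ n, n ≤ L → ∑ i ∈ range (n + 1), dg H L r i = ((r % H n : ℕ) : ℤ)
  | 0, _ => by
    rw [sum_range_one]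
    rfl
  | n + 1, hn => by
    rw [sum_range_succ, sum_dg r n (by omega)]
    show ((r % H n : ℕ) : ℤ) + (if n < L then ((r % H (n + 1) : ℕ) : ℤ) - ((r % H n : ℕ) : ℤ) else (r : ℤ) - ((r % H L : ℕ) : ℤ)) = _
    rw [if_pos (by omega)]
    ring

theorem sum_dg_all (r : ℕ) : ∑ i ∈ range (L + 2), dg H L r i = (r : ℤ) := by
  rw [sum_range_succ, sum_dg r L le_rfl]
  show ((r % H L : ℕ) : ℤ) + (if L < L then ((r % H (L + 1) : ℕ) : ℤ) - ((r % H L : ℕ) : ℤ) else (r : ℤ) - ((r % H L : ℕ) : ℤ)) = _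
  rw [if_neg (lt_irrefl L)]
  ring

/-- The digits above the level `k` of a row `r < H k` vanish. -/
theorem dg_zero (h0 : ∀ k, k ≤ L → 0 < H k) (hd : ∀ k, k < L → H k ∣ H (k + 1)) {i k : ℕ} (hki : k < i) (hk : k ≤ L)
    {r : ℕ} (hr : r < H k) : dg H L r i = 0 := (dg_hi h0 hd hki hk 0 hr).2

theorem cs_err_aux (r n : ℕ) (hz : ∀ i, n ≤ i → i < L + 2 → dg H L r i = 0) (hn : n ≤ L + 2) : |(cs sl H L r : ℝ) - sl * r| ≤ n := by
  have e1 : (r : ℝ) = ∑ i ∈ range (L + 2), (dg H L r i : ℝ) := by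
    have h1 := sum_dg_all (H := H) (L := L) r
    have h2 : ((∑ i ∈ range (L + 2), dg H L r i : ℤ) : ℝ) = ((r : ℤ) : ℝ) := by rw [h1]
    push_cast at h2
    exact h2.symm
  have e2 : (cs sl H L r : ℝ) - sl * r = ∑ i ∈ range (L + 2), ((⌊sl * (dg H L r i : ℝ)⌋ : ℝ) - sl * (dg H L r i : ℝ)) := by
    rw [sum_sub_distrib, ← mul_sum, ← e1]
    unfold cs
    push_cast
    rfl
  have e3 : ∑ i ∈ range (L + 2), ((⌊sl * (dg H L r i : ℝ)⌋ : ℝ) - sl * (dg H L r i : ℝ)) =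
      ∑ i ∈ range n, ((⌊sl * (dg H L r i : ℝ)⌋ : ℝ) - sl * (dg H L r i : ℝ)) := by
    symm
    refine sum_subset (range_mono hn) fun i hi2 hi => ?_
    rw [mem_range, not_lt] at hi
    rw [hz i hi (mem_range.1 hi2)]
    simp
  rw [e2, e3]
  refine (abs_sum_le_sum_abs _ _).trans ?_
  calc ∑ i ∈ range n, |(⌊sl * (dg H L r i : ℝ)⌋ : ℝ) - sl * (dg H L r i : ℝ)| ≤ ∑ _i ∈ range n, (1 : ℝ) := by
        refine sum_le_sum fun i _ => ?_
        have h1 := Int.floor_le (sl * (dg H L r i : ℝ))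
        have h2 := Int.lt_floor_add_one (sl * (dg H L r i : ℝ))
        rw [abs_le]
        constructor <;> linarith
    _ = n := by simp

/-- **The columns follow the slope.** -/
theorem cs_err (h0 : ∀ k, k ≤ L → 0 < H k) (hd : ∀ k, k < L → H k ∣ H (k + 1)) {k : ℕ} (hk : k ≤ L) {r : ℕ} (hr : r < H k) :
    |(cs sl H L r : ℝ) - sl * r| ≤ k + 1 := by
  have h1 := cs_err_aux (sl := sl) (H := H) (L := L) r (k + 1) (fun i hi _ => dg_zero h0 hd (by omega) hk hr) (by omega)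
  push_cast at h1
  exact h1

theorem cs_err_all (r : ℕ) : |(cs sl H L r : ℝ) - sl * r| ≤ L + 2 := by
  have h1 := cs_err_aux (sl := sl) (H := H) (L := L) r (L + 2) (fun i hi hi2 => absurd hi (by omega)) le_rfl
  push_cast at h1
  exact h1

/-- **Existence of a grid** with given heights and widths, along the slope `sl`. -/
theorem exGd (sl : ℝ) {H V : ℕ → ℕ} {L : ℕ} (h0 : ∀ k, k ≤ L → 0 < H k) (v0 : ∀ k, k ≤ L → 0 < V k)
    (hd : ∀ k, k < L → H k ∣ H (k + 1)) (vd : ∀ k, k < L → V k ∣ V (k + 1)) :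
    ∃ G : Gd, G.H = H ∧ G.V = V ∧ G.Ok L ∧ (∀ r, |(G.s r : ℝ) - sl * r| ≤ L + 2) ∧
      ∀ k, k ≤ L → ∀ r, r < H k → |(G.s r : ℝ) - sl * r| ≤ k + 1 :=
  ⟨⟨H, V, cs sl H L⟩, rfl, rfl, ⟨h0, v0, hd, vd, fun _ hk j _ hr => cs_add h0 hd hk j hr⟩, fun r => cs_err_all r,
    fun _ hk _ hr => cs_err h0 hd hk hr⟩

end ex

end

end Pool.Agent.W_7d29a1_C1.T10
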