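import Pool.Agent.W_7d29a1_C1.Tile10

/-!
MP_7d29a1_pr, attractor route [C1], SHELL: THE SITES OF THE TOP BOXES, SUMS OVER PAIRS OF SITES AND OVER PAIRS OF BOXES.
(helper98, over the grid of helper10)

`St G m j0 j1 x0 x1` = all sites in the boxes of the level `m` with row block in `[j0, j1)` and column block in `[x0, x1)`.
It is a union of boxes of every level `k ≤ m`; the partner map `pm k` maps `St × St'` onto itself.
-/

set_option autoImplicit false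

namespace Pool.Agent.W_7d29a1_C1.T98

open Finset
open Pool.Agent.W_7d29a1_C1.T10

section sites

variable (G : Gd) (m : ℕ) (j0 j1 : ℕ) (x0 x1 : ℤ)

/-- The sites of the boxes of the level `m` with row block in `[j0, j1)` and column block in `[x0, x1)`. -/
noncomputable def St : Finset (ℕ × ℤ) :=
  ((Ico (G.H m * j0) (G.H m * j1)) ×ˢ (Ico ((G.V m : ℤ) * x0) ((G.V m : ℤ) * x1))).image fun c => (c.1, c.2 + G.s c.1)

variable {G m j0 j1 x0 x1} {L : ℕ}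

theorem mem_St {c : ℕ × ℤ} : c ∈ St G m j0 j1 x0 x1 ↔
    (G.H m * j0 ≤ c.1 ∧ c.1 < G.H m * j1) ∧ (G.V m : ℤ) * x0 ≤ G.u c ∧ G.u c < (G.V m : ℤ) * x1 := by
  unfold St Gd.u
  rw [mem_image]
  constructor
  · rintro ⟨a, ha, rfl⟩
    rw [mem_product, mem_Ico, mem_Ico] at ha
    refine ⟨ha.1, ?_⟩
    simpa using ha.2
  · intro h
    refine ⟨(c.1, c.2 - G.s c.1), ?_, ?_⟩
    · rw [mem_product, mem_Ico, mem_Ico]
      exact ⟨h.1, h.2⟩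
    · ext <;> simp

theorem mem_St' (h : G.Ok L) (hm : m ≤ L) {c : ℕ × ℤ} : c ∈ St G m j0 j1 x0 x1 ↔
    (j0 ≤ c.1 / G.H m ∧ c.1 / G.H m < j1) ∧ x0 ≤ G.u c / G.V m ∧ G.u c / G.V m < x1 := by
  have hH := h.H0 m hm
  have hV : (0 : ℤ) < G.V m := h.V0' hm
  rw [mem_St, Nat.le_div_iff_mul_le hH, Nat.div_lt_iff_lt_mul hH, Int.le_ediv_iff_mul_le hV, Int.ediv_lt_iff_lt_mul hV,
    Nat.mul_comm j0, Nat.mul_comm j1, mul_comm x0, mul_comm x1]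

/-- The base point determines the box. -/
theorem z_inj (h : G.Ok L) {k : ℕ} (hk : k ≤ L) {c c' : ℕ × ℤ} (hz : G.z k c = G.z k c') :
    c.1 / G.H k = c'.1 / G.H k ∧ G.u c / G.V k = G.u c' / G.V k := by
  have hH := h.H0 k hk
  have hV : (0 : ℤ) < G.V k := h.V0' hk
  unfold Gd.z at hz
  have h1 : G.H k * (c.1 / G.H k) = G.H k * (c'.1 / G.H k) := congrArg Prod.fst hz
  have h1' := Nat.eq_of_mul_eq_mul_left hH h1
  have h2 : G.s (G.H k * (c.1 / G.H k)) + G.V k * (G.u c / G.V k) =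
      G.s (G.H k * (c'.1 / G.H k)) + G.V k * (G.u c' / G.V k) := congrArg Prod.snd hz
  rw [h1'] at h2
  have h3 := add_left_cancel h2
  exact ⟨h1', mul_left_cancel₀ hV.ne' h3⟩

/-- **`St` is a union of boxes of every level.** -/
theorem St_box (h : G.Ok L) (hm : m ≤ L) {k : ℕ} (hk : k ≤ m) {c c' : ℕ × ℤ} (hc : c ∈ St G m j0 j1 x0 x1)
    (hz : G.z k c' = G.z k c) : c' ∈ St G m j0 j1 x0 x1 := by
  have h1 := z_inj h hm (h.z_nested hk hm hz)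
  rw [mem_St' h hm] at hc ⊢
  rw [h1.1, h1.2]
  exact hc

theorem St_box_iff (h : G.Ok L) (hm : m ≤ L) {k : ℕ} (hk : k ≤ m) {c c' : ℕ × ℤ} (hz : G.z k c' = G.z k c) :
    c' ∈ St G m j0 j1 x0 x1 ↔ c ∈ St G m j0 j1 x0 x1 :=
  ⟨fun hh => St_box h hm hk hh hz.symm, fun hh => St_box h hm hk hh hz⟩

/-- The box of a site of `St` is in `St`. -/
theorem box_sub (h : G.Ok L) (hm : m ≤ L) {k : ℕ} (hk : k ≤ m) {c : ℕ × ℤ} (hc : c ∈ St G m j0 j1 x0 x1) :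
    G.box k c ⊆ St G m j0 j1 x0 x1 := fun b hb => St_box h hm hk hc ((h.mem_box (hk.trans hm)).1 hb)

/-- The base point of a box in `St` is in `St`. -/
theorem z_mem (h : G.Ok L) (hm : m ≤ L) {k : ℕ} (hk : k ≤ m) {c : ℕ × ℤ} (hc : c ∈ St G m j0 j1 x0 x1) :
    G.z k c ∈ St G m j0 j1 x0 x1 :=
  St_box h hm hk hc (h.z_z le_rfl (hk.trans hm) c)

theorem row_lt {c : ℕ × ℤ} (hc : c ∈ St G m j0 j1 x0 x1) : c.1 < G.H m * j1 := (mem_St.1 hc).1.2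

theorem le_row {c : ℕ × ℤ} (hc : c ∈ St G m j0 j1 x0 x1) : G.H m * j0 ≤ c.1 := (mem_St.1 hc).1.1

/-- The rows of the box of a site of `St` are rows of `St`. -/
theorem box_rows (h : G.Ok L) (hm : m ≤ L) {k : ℕ} (hk : k ≤ m) {c : ℕ × ℤ} (hc : c ∈ St G m j0 j1 x0 x1) :
    G.H m * j0 ≤ (G.z k c).1 ∧ (G.z k c).1 + G.H k ≤ G.H m * j1 := by
  refine ⟨le_row (z_mem h hm hk hc), ?_⟩
  have h1 := row_lt (z_mem h hm hk hc)
  obtain ⟨a, ha⟩ := h.dvdH hk hm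
  have h2 : (G.z k c).1 = G.H k * (c.1 / G.H k) := rfl
  rw [h2] at h1 ⊢
  rw [ha, mul_assoc] at h1 ⊢
  have h3 : c.1 / G.H k < a * j1 := lt_of_mul_lt_mul_left h1 (Nat.zero_le _)
  calc G.H k * (c.1 / G.H k) + G.H k = G.H k * (c.1 / G.H k + 1) := by ring
    _ ≤ G.H k * (a * j1) := Nat.mul_le_mul_left _ h3

theorem card_St (hx : x0 ≤ x1) :
    (St G m j0 j1 x0 x1).card = (G.H m * (j1 - j0)) * (G.V m * (x1 - x0).toNat) := by
  have hinj : Function.Injective fun c : ℕ × ℤ => (c.1, c.2 + G.s c.1) := by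
    rintro ⟨a, a'⟩ ⟨b, b'⟩ hab
    simp only [Prod.mk.injEq] at hab
    obtain ⟨h1, h2⟩ := hab
    subst h1
    rw [add_right_cancel h2]
  unfold St
  rw [card_image_of_injective _ hinj, card_product, Nat.card_Ico, Int.card_Ico, ← Nat.mul_sub, ← mul_sub]
  congr 1
  obtain ⟨n, hn⟩ := Int.le.dest hx
  have h1 : x1 - x0 = n := by omega
  rw [h1, Int.toNat_natCast]
  exact_mod_cast Int.toNat_natCast (G.V m * n)

end sites

section sums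

variable {G : Gd} {L m : ℕ} {j0 j1 : ℕ} {x0 x1 : ℤ} {j0' j1' : ℕ} {x0' x1' : ℤ} {A : Type*} [AddCommMonoid A]

/-- **The partner of a pair of sites of `St × St'` is in `St × St'`.** -/
theorem pm_mem (h : G.Ok L) (hm : m ≤ L) {k : ℕ} (hk : k ≤ m) {p : (ℕ × ℤ) × (ℕ × ℤ)}
    (hp : p ∈ St G m j0 j1 x0 x1 ×ˢ St G m j0' j1' x0' x1') :
    G.pm k p ∈ St G m j0 j1 x0 x1 ×ˢ St G m j0' j1' x0' x1' := by
  rw [mem_product] at hp ⊢
  have h1 := h.pm_z (le_refl k) (hk.trans hm) p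
  exact ⟨St_box h hm hk hp.1 h1.1, St_box h hm hk hp.2 h1.2⟩

/-- The sum over all pairs, seen from the partners. -/
theorem sum_pm (h : G.Ok L) (hm : m ≤ L) {k : ℕ} (hk : k ≤ m) (F : (ℕ × ℤ) × (ℕ × ℤ) → A) :
    ∑ p ∈ St G m j0 j1 x0 x1 ×ˢ St G m j0' j1' x0' x1', F (G.pm k p) =
      ∑ p ∈ St G m j0 j1 x0 x1 ×ˢ St G m j0' j1' x0' x1', F p :=
  h.sum_pm (hk.trans hm) (fun _ hp => pm_mem h hm hk hp) F

/-- Half of the sum over the pair and its partner. -/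
theorem sum_half (h : G.Ok L) (hm : m ≤ L) {k : ℕ} (hk : k ≤ m) (F : (ℕ × ℤ) × (ℕ × ℤ) → ℝ) :
    ∑ p ∈ St G m j0 j1 x0 x1 ×ˢ St G m j0' j1' x0' x1', F p =
      (1 / 2) * ∑ p ∈ St G m j0 j1 x0 x1 ×ˢ St G m j0' j1' x0' x1', (F p + F (G.pm k p)) := by
  rw [sum_add_distrib, sum_pm h hm hk]
  ring

theorem sum_half_abs (h : G.Ok L) (hm : m ≤ L) {k : ℕ} (hk : k ≤ m) (F : (ℕ × ℤ) × (ℕ × ℤ) → ℝ) :
    |∑ p ∈ St G m j0 j1 x0 x1 ×ˢ St G m j0' j1' x0' x1', F p| ≤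
      (1 / 2) * ∑ p ∈ St G m j0 j1 x0 x1 ×ˢ St G m j0' j1' x0' x1', |F p + F (G.pm k p)| := by
  rw [sum_half h hm hk, abs_mul, abs_of_nonneg (by norm_num : (0 : ℝ) ≤ 1 / 2)]
  gcongr
  exact abs_sum_le_sum_abs _ _

/-- The base points of the boxes of the level `k` in `St`. -/
noncomputable def Bs (G : Gd) (k m j0 j1 : ℕ) (x0 x1 : ℤ) : Finset (ℕ × ℤ) := (St G m j0 j1 x0 x1).image (G.z k)

theorem mem_Bs (h : G.Ok L) (hm : m ≤ L) {k : ℕ} (hk : k ≤ m) {Q : ℕ × ℤ} :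
    Q ∈ Bs G k m j0 j1 x0 x1 ↔ Q ∈ St G m j0 j1 x0 x1 ∧ G.z k Q = Q := by
  unfold Bs
  rw [mem_image]
  constructor
  · rintro ⟨c, hc, rfl⟩
    exact ⟨z_mem h hm hk hc, h.z_z le_rfl (hk.trans hm) c⟩
  · rintro ⟨h1, h2⟩
    exact ⟨Q, h1, h2⟩

/-- The fibre of a box is the box. -/
theorem fib_eq (h : G.Ok L) (hm : m ≤ L) {k : ℕ} (hk : k ≤ m) {Q : ℕ × ℤ} (hQ : Q ∈ Bs G k m j0 j1 x0 x1) :
    (St G m j0 j1 x0 x1).filter (fun c => G.z k c = Q) = G.box k Q := by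
  obtain ⟨h1, h2⟩ := (mem_Bs h hm hk).1 hQ
  ext c
  rw [mem_filter, h.mem_box (hk.trans hm), h2]
  exact ⟨fun hh => hh.2, fun hh => ⟨St_box h hm hk h1 (hh.trans h2.symm), hh⟩⟩

/-- **The sum over the sites = the sum over the boxes of the level `k`.** -/
theorem sum_box (h : G.Ok L) (hm : m ≤ L) {k : ℕ} (hk : k ≤ m) (F : ℕ × ℤ → A) :
    ∑ c ∈ St G m j0 j1 x0 x1, F c = ∑ Q ∈ Bs G k m j0 j1 x0 x1, ∑ c ∈ G.box k Q, F c := by
  rw [← sum_fiberwise_of_maps_to (g := G.z k) (t := Bs G k m j0 j1 x0 x1) (fun c hc => mem_image_of_mem _ hc) F]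
  exact sum_congr rfl fun Q hQ => by rw [fib_eq h hm hk hQ]

/-- **The sum over the pairs of sites = the sum over the pairs of boxes of the level `k`.** -/
theorem sum_pairs (h : G.Ok L) (hm : m ≤ L) {k : ℕ} (hk : k ≤ m) (F : (ℕ × ℤ) × (ℕ × ℤ) → A) :
    ∑ p ∈ St G m j0 j1 x0 x1 ×ˢ St G m j0' j1' x0' x1', F p =
      ∑ Q ∈ Bs G k m j0 j1 x0 x1 ×ˢ Bs G k m j0' j1' x0' x1', ∑ p ∈ G.box k Q.1 ×ˢ G.box k Q.2, F p := by
  rw [sum_product, sum_product, sum_box h hm hk]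
  refine sum_congr rfl fun Q hQ => ?_
  rw [sum_congr rfl fun c _ => sum_box h hm hk fun c' => F (c, c'), sum_comm]
  refine sum_congr rfl fun Q' hQ' => ?_
  rw [sum_product]

/-- The boxes of the level `j ≤ k` inside a box of the level `k`. -/
theorem sum_sub (h : G.Ok L) {j k : ℕ} (hjk : j ≤ k) (hk : k ≤ L) (Q : ℕ × ℤ) (F : ℕ × ℤ → A) :
    ∑ c ∈ G.box k Q, F c = ∑ R ∈ (G.box k Q).image (G.z j), ∑ c ∈ G.box j R, F c := by
  rw [← sum_fiberwise_of_maps_to (g := G.z j) (fun c hc => mem_image_of_mem _ hc) F]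
  refine sum_congr rfl fun R hR => ?_
  obtain ⟨c0, hc0, rfl⟩ := mem_image.1 hR
  refine sum_congr ?_ fun _ _ => rfl
  ext c
  rw [mem_filter, h.mem_box (hjk.trans hk), h.z_z le_rfl (hjk.trans hk)]
  refine ⟨fun hh => hh.2, fun hh => ⟨?_, hh⟩⟩
  rw [h.mem_box hk] at hc0 ⊢
  rw [h.z_nested hjk hk hh, hc0]

/-- The partner map exchanges the sites inside a pair of boxes of a higher level. -/
theorem pm_fib (h : G.Ok L) {k l : ℕ} (hl : l ≤ k) (hk : k ≤ L) {Q Q' : ℕ × ℤ} {p : (ℕ × ℤ) × (ℕ × ℤ)}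
    (hp : p ∈ G.box k Q ×ˢ G.box k Q') : G.pm l p ∈ G.box k Q ×ˢ G.box k Q' := by
  rw [mem_product, h.mem_box hk, h.mem_box hk] at hp ⊢
  have h1 := h.pm_z hl hk p
  exact ⟨h1.1.trans hp.1, h1.2.trans hp.2⟩

theorem sum_fib_pm (h : G.Ok L) {k l : ℕ} (hl : l ≤ k) (hk : k ≤ L) (Q Q' : ℕ × ℤ) (F : (ℕ × ℤ) × (ℕ × ℤ) → A) :
    ∑ p ∈ G.box k Q ×ˢ G.box k Q', F (G.pm l p) = ∑ p ∈ G.box k Q ×ˢ G.box k Q', F p :=
  h.sum_pm (hl.trans hk) (fun _ hp => pm_fib h hl hk hp) F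

end sums

/-! ### The pairs of boxes as ancestors of the pairs of sites -/

section anc

variable {G : Gd} {L : ℕ}

/-- The pair of boxes of the level `k` of a pair of sites. -/
def an (G : Gd) (k : ℕ) (p : (ℕ × ℤ) × (ℕ × ℤ)) : (ℕ × ℤ) × (ℕ × ℤ) := (G.z k p.1, G.z k p.2)

theorem an_nest (h : G.Ok L) {k j : ℕ} (hkj : k ≤ j) (hj : j ≤ L) {p q : (ℕ × ℤ) × (ℕ × ℤ)} (hpq : an G k p = an G k q) :
    an G j p = an G j q :=
  Prod.ext (h.z_nested hkj hj (congrArg Prod.fst hpq)) (h.z_nested hkj hj (congrArg Prod.snd hpq))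

theorem an_pm (h : G.Ok L) {k j : ℕ} (hkj : k ≤ j) (hj : j ≤ L) (p : (ℕ × ℤ) × (ℕ × ℤ)) : an G j (G.pm k p) = an G j p :=
  Prod.ext (h.pm_z hkj hj p).1 (h.pm_z hkj hj p).2

theorem an_an (h : G.Ok L) {k j : ℕ} (hkj : k ≤ j) (hj : j ≤ L) (p : (ℕ × ℤ) × (ℕ × ℤ)) : an G j (an G k p) = an G j p :=
  Prod.ext (h.z_z hkj hj p.1) (h.z_z hkj hj p.2)

end anc

end Pool.Agent.W_7d29a1_C1.T98
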