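import Pool.Agent.W_7d29a1_C1.FinS74
import Pool.Agent.W_7d29a1_C1.TiltK97

/-!
Both halves (MP_7d29a1_pr), attractor route [C1], (Y) BY CORNERS: THE COST OF A TILT, SPLIT FUNCTIONAL OF THE INSIDE. (helper54)

`chi_tilt` : the splitting function. `FinS_tilt` : one contact of the inside, both frames. `FPhC_tilt` : the total. The conclusions are
`(θ ^ D) ^ 16 - 1` times numbers, `θ` = bound of the ratios of the step weights.
-/

set_option autoImplicit false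
set_option linter.unusedSectionVars false

namespace Pool.Agent.W_7d29a1_C1.T97

open Finset MeasureTheory
open Pool.Agent.W_7d29a1_C1.K91 (shw Box Grp wt wt_pos zs)
open Pool.Agent.W_7d29a1_C1.K97
open Pool.Agent.W_7d29a1_C1.L91
open Pool.Agent.W_7d29a1_C1.K91P (fw bw shp bw_pos dp GG fw_nonneg)
open Pool.Agent.W_7d29a1_C1.R26P
open Pool.Agent.W_7d29a1_C1.F74
open Pool.Agent.W_7d29a1_C1.H1c
open Pool.Agent.W_7d29a1_C1.Mir99
open Pool.Agent.W_7d29a1_C1.Ch87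

noncomputable section

variable {W : ℕ → ℤ → ℝ} {P P' : ℕ → ℝ} {θ κ κ' : ℝ} {K J : ℕ} {a1 a2 q : ℤ}

/-- **The splitting function.** -/
theorem chi_tilt {a a' Θ : ℝ} {f f' : ℤ → ℝ} (ha : 0 < a) (ha' : 0 < a') (hf : ∀ y, 0 < f y) (hf' : ∀ y, 0 < f' y) (ht : 1 ≤ θ)
    (hT : 1 ≤ Θ) (mp : mc θ a a') (m : ∀ y, mc Θ (f y) (f' y)) (q : ℤ) : |chi a' f' q - chi a f q| ≤ (θ * Θ * Θ) ^ 2 - 1 := by
  set g : ℤ → ℝ := fun y => if y = q then a * f y else f y with hg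
  set g' : ℤ → ℝ := fun y => if y = q then a' * f' y else f' y with hg'
  have nq : q - 1 ≠ q := by omega
  have g0 : g q = a * f q := by rw [hg]; simp
  have g1 : g (q - 1) = f (q - 1) := by rw [hg]; simp
  have g0' : g' q = a' * f' q := by rw [hg']; simp
  have g1' : g' (q - 1) = f' (q - 1) := by rw [hg']; simp
  have e : chi a f q = chi 1 g q := by
    unfold chi
    rw [g0, g1, one_mul]
  have e' : chi a' f' q = chi 1 g' q := by
    unfold chi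
    rw [g0', g1', one_mul]
  have T0 : 0 < Θ := by linarith
  have t0 : 0 < θ := by linarith
  have f0 := hf q
  have f1 := hf (q - 1)
  have f0' := hf' q
  have f1' := hf' (q - 1)
  have key : ∀ {b b' : ℝ} {u u' v v' : ℝ}, 0 < b → 0 < b' → 0 < u → 0 < u' → 0 < v → 0 < v' → b ≤ θ * b' → u ≤ Θ * u' → v' ≤ Θ * v →
      b * u * v' ≤ θ * Θ * Θ * (b' * u' * v) := by
    intro b b' u u' v v' hb hb' hu hu' hv hv' h1 h2 h3
    have k1 := mul_le_mul h1 h2 hu.le (by positivity)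
    have k2 := mul_le_mul k1 h3 hv'.le (by positivity)
    refine k2.trans (le_of_eq ?_)
    ring
  rw [e, e']
  refine chi_lip (a := 1) (f := g') (g := g) (κ := θ * Θ * Θ) (by rw [g1']; exact f1'.ne') (by rw [g1]; exact f1.ne')
    (by rw [g0']; positivity) (by rw [g1']; exact f1'.le) (by rw [g0]; positivity) (by rw [g1]; exact f1.le) ?_ ?_ ?_
  · rw [g0', g1', g0, g1]
    exact key ha' ha f0' f0 f1' f1 mp.2 (m q).2 (m (q - 1)).1
  · rw [g0', g1', g0, g1]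
    exact key ha ha' f0 f0' f1 f1' mp.1 (m q).1 (m (q - 1)).2
  · have h1 : 1 * 1 ≤ θ * Θ := mul_le_mul ht hT zero_le_one t0.le
    have h2 : 1 * 1 * 1 ≤ θ * Θ * Θ := mul_le_mul h1 hT zero_le_one (by positivity)
    linarith

/-- **One contact, one frame.** -/
theorem finc_tilt (hW : ∀ k y, 0 < W k y) (hP : ∀ k, 0 < P k) (hP' : ∀ k, 0 < P' k) (ht : 1 ≤ θ) (h : a1 < a2)
    (hpp : ∀ i < K + J + 1, mc θ (P i) (P' i)) (h16 : (θ ^ (K + J + 1)) ^ 16 ≤ 3 / 2) (hq1 : a1 ≤ q - 1)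
    (hq2 : q ≤ a2 + K + 1) (hκ : 1 ≤ κ) (hκ' : 1 ≤ κ') (wl : W K (q - 1) ≤ κ * W K q) (wr : W K q ≤ κ * W K (q - 1))
    (fl : bw W P (K + 1) J (q - 1) ≤ κ' * bw W P (K + 1) J q) (fr : bw W P (K + 1) J q ≤ κ' * bw W P (K + 1) J (q - 1))
    {x x' : ℝ} (hx : (x = chi (P K) (bw W P (K + 1) J) q ∧ x' = chi (P' K) (bw W P' (K + 1) J) q) ∨
      (x = 1 - chi (P K) (bw W P (K + 1) J) q ∧ x' = 1 - chi (P' K) (bw W P' (K + 1) J) q)) :
    |Fin W P' K J a1 a2 q * x' - Fin W P K J a1 a2 q * x| ≤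
      (Kt (P K) κ (2 * κ') + Kl (P K) κ (2 * κ')) * P K * ((θ ^ (K + J + 1)) ^ 16 - 1) := by
  have T1 : 1 ≤ θ ^ (K + J + 1) := one_le_pow₀ ht
  have T16 : 0 ≤ (θ ^ (K + J + 1)) ^ 16 - 1 := by
    have := one_le_pow₀ T1 (n := 16)
    linarith
  obtain ⟨c1, c2⟩ := cutd_tilt hW hP hP' ht h hpp h16 hq1 hq2 hκ hκ' wl wr fl fr
  have k1 := Fin_tilt hW hP hP' ht h hpp h16 hq1 hq2 hκ hκ' wl wr fl fr
  have k2 : |Fin W P K J a1 a2 q| ≤ Kl (P K) κ (2 * κ') * Cin W P K J a1 a2 q := abs_Cc c1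
  have k3 : Cin W P K J a1 a2 q ≤ P K := cw_le c1
  have Kt0 : 0 ≤ Kt (P K) κ (2 * κ') := Kt_nonneg (hP K) (by linarith)
  have Kl0 : 0 ≤ Kl (P K) κ (2 * κ') := Kl_nonneg (hP K) hκ (by linarith)
  have mp : mc θ (P K) (P' K) := hpp K (by omega)
  have mb := mc_bw hW hP hP' ht J (K + 1) (fun i h1 h2 => hpp i (by omega))
  have d := chi_tilt (hP K) (hP' K) (bw_pos hW hP _ _) (bw_pos hW hP' _ _) ht (one_le_pow₀ ht (n := J)) mp mb q
  have e : θ * θ ^ J * θ ^ J = θ ^ (2 * J + 1) := by ring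
  have d2 : (θ * θ ^ J * θ ^ J) ^ 2 ≤ (θ ^ (K + J + 1)) ^ 16 := by
    rw [e, ← pow_mul, ← pow_mul]
    exact pow_le_pow_right₀ ht (by nlinarith)
  have b0 := chi_nonneg (P' K) (bw W P' (K + 1) J) q
  have b1 := chi_le_one (P' K) (bw W P' (K + 1) J) q
  have x0 : 0 ≤ x' := by rcases hx with hx | hx <;> rw [hx.2] <;> linarith
  have x1 : x' ≤ 1 := by rcases hx with hx | hx <;> rw [hx.2] <;> linarith
  have hd : |x' - x| ≤ (θ ^ (K + J + 1)) ^ 16 - 1 := by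
    have hd' : |x' - x| = |chi (P' K) (bw W P' (K + 1) J) q - chi (P K) (bw W P (K + 1) J) q| := by
      rcases hx with hx | hx
      · rw [hx.1, hx.2]
      · rw [hx.1, hx.2, ← abs_neg]
        congr 1
        ring
    rw [hd']
    linarith
  have e2 : Fin W P' K J a1 a2 q * x' - Fin W P K J a1 a2 q * x =
      (Fin W P' K J a1 a2 q - Fin W P K J a1 a2 q) * x' + Fin W P K J a1 a2 q * (x' - x) := by ring
  rw [e2]
  have s1 : |(Fin W P' K J a1 a2 q - Fin W P K J a1 a2 q) * x'| ≤ Kt (P K) κ (2 * κ') * ((θ ^ (K + J + 1)) ^ 16 - 1) * P K := by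
    rw [abs_mul, abs_of_nonneg x0]
    refine (mul_le_of_le_one_right (abs_nonneg _) x1).trans (k1.trans ?_)
    exact mul_le_mul_of_nonneg_left k3 (mul_nonneg Kt0 T16)
  have s2 : |Fin W P K J a1 a2 q * (x' - x)| ≤ Kl (P K) κ (2 * κ') * P K * ((θ ^ (K + J + 1)) ^ 16 - 1) := by
    rw [abs_mul]
    exact mul_le_mul (k2.trans (mul_le_mul_of_nonneg_left k3 Kl0)) hd (abs_nonneg _) (mul_nonneg Kl0 (hP K).le)
  refine (abs_add_le _ _).trans ((add_le_add s1 s2).trans (le_of_eq ?_))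
  ring

/-- **THE COST OF A TILT, ONE CONTACT OF THE SPLIT FUNCTIONAL.** -/
theorem FinS_tilt (hW : ∀ k y, 0 < W k y) (hP : ∀ k, 0 < P k) (hP' : ∀ k, 0 < P' k) (ht : 1 ≤ θ) (h : a1 < a2)
    (hpp : ∀ i < K + J + 1, mc θ (P i) (P' i)) (h16 : (θ ^ (K + J + 1)) ^ 16 ≤ 3 / 2) (hq1 : a1 ≤ q - 1)
    (hq2 : q ≤ a2 + K + 1) (hκ : 1 ≤ κ) (hκ' : 1 ≤ κ') (wl : W K (q - 1) ≤ κ * W K q) (wr : W K q ≤ κ * W K (q - 1))
    (fl : bw W P (K + 1) J (q - 1) ≤ κ' * bw W P (K + 1) J q) (fr : bw W P (K + 1) J q ≤ κ' * bw W P (K + 1) J (q - 1))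
    (fl' : bw W P (K + 1) J q ≤ κ' * bw W P (K + 1) J (q + 1)) (fr' : bw W P (K + 1) J (q + 1) ≤ κ' * bw W P (K + 1) J q) :
    |FinS W P' K J a1 a2 q - FinS W P K J a1 a2 q| ≤
      2 * ((Kt (P K) κ (2 * κ') + Kl (P K) κ (2 * κ')) * P K * ((θ ^ (K + J + 1)) ^ 16 - 1)) := by
  have k1 := finc_tilt hW hP hP' ht h hpp h16 hq1 hq2 hκ hκ' wl wr fl fr (x := _) (x' := _) (Or.inl ⟨rfl, rfl⟩)
  have eb : ∀ (Q : ℕ → ℝ) (y : ℤ), bw (wsh K W) Q (K + 1) J y = bw W Q (K + 1) J (y + 1) := fun Q y => bw_wsh K J (K + 1) y (by omega)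
  have ew : wsh K W K = W K := wsh_le le_rfl
  have k2 := finc_tilt (W := wsh K W) (wsh_pos hW K) hP hP' ht h hpp h16 hq1 hq2 hκ hκ' (by rw [ew]; exact wl) (by rw [ew]; exact wr)
    (by rw [eb, eb, sub_add_cancel]; exact fl') (by rw [eb, eb, sub_add_cancel]; exact fr') (x := _) (x' := _) (Or.inr ⟨rfl, rfl⟩)
  have e : FinS W P' K J a1 a2 q - FinS W P K J a1 a2 q =
      (Fin W P' K J a1 a2 q * chi (P' K) (bw W P' (K + 1) J) q - Fin W P K J a1 a2 q * chi (P K) (bw W P (K + 1) J) q) +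
      (Fin (wsh K W) P' K J a1 a2 q * (1 - chi (P' K) (bw (wsh K W) P' (K + 1) J) q) -
        Fin (wsh K W) P K J a1 a2 q * (1 - chi (P K) (bw (wsh K W) P (K + 1) J) q)) := by
    unfold FinS
    ring
  rw [e]
  refine (abs_add_le _ _).trans ?_
  linarith

/-- **THE COST OF A TILT, THE TOTAL SPLIT FUNCTIONAL OF THE INSIDE.** -/
theorem FPhC_tilt (hW : ∀ k y, 0 < W k y) (hP : ∀ k, 0 < P k) (hP' : ∀ k, 0 < P' k) (ht : 1 ≤ θ) (h : a1 < a2) {n1 D' D : ℕ}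
    (hD : D' ≤ D) (hpp : ∀ i < D, mc θ (P i) (P' i)) (h16 : (θ ^ D) ^ 16 ≤ 3 / 2) (hκ : 1 ≤ κ) (hκ' : 1 ≤ κ')
    (wr : ∀ K, n1 ≤ K → K < D' → ∀ q ∈ Icc (a1 + 1) (a2 + K), W K (q - 1) ≤ κ * W K q ∧ W K q ≤ κ * W K (q - 1))
    (fr : ∀ K, n1 ≤ K → K < D' → ∀ q ∈ Icc (a1 + 1) (a2 + K + 1),
      bw W P (K + 1) (D - (K + 1)) (q - 1) ≤ κ' * bw W P (K + 1) (D - (K + 1)) q ∧
      bw W P (K + 1) (D - (K + 1)) q ≤ κ' * bw W P (K + 1) (D - (K + 1)) (q - 1))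
    {B : ℝ} (hB : ∀ K, n1 ≤ K → K < D' → (Kt (P K) κ (2 * κ') + Kl (P K) κ (2 * κ')) * P K ≤ B) :
    |FPhC W P' n1 D' D a1 a2 - FPhC W P n1 D' D a1 a2| ≤
      (D' - n1 : ℕ) * (((a2 - a1 + D' : ℤ) : ℝ) * (2 * (B * ((θ ^ D) ^ 16 - 1)))) := by
  have T16 : 0 ≤ (θ ^ D) ^ 16 - 1 := by
    have := one_le_pow₀ (one_le_pow₀ ht (n := D)) (n := 16)
    linarith
  unfold FPhC FG
  rw [← sum_sub_distrib]
  refine (abs_sum_le_sum_abs _ _).trans ?_
  have key : ∀ K ∈ Ico n1 D', |(∑ q ∈ cs a1 a2 K, FinS W P' K (D - (K + 1)) a1 a2 q) - ∑ q ∈ cs a1 a2 K, FinS W P K (D - (K + 1)) a1 a2 q| ≤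
      ((a2 - a1 + D' : ℤ) : ℝ) * (2 * (B * ((θ ^ D) ^ 16 - 1))) := by
    intro K hK
    rw [mem_Ico] at hK
    have eJ : K + (D - (K + 1)) + 1 = D := by omega
    have B0 : 0 ≤ B := by
      refine le_trans ?_ (hB K hK.1 hK.2)
      have h1 := Kt_nonneg (hP K) (κ := κ) (show 1 ≤ 2 * κ' by linarith)
      have h2 := Kl_nonneg (hP K) hκ (show 1 ≤ 2 * κ' by linarith)
      have h3 := (hP K).le
      positivity
    rw [← sum_sub_distrib]
    refine (abs_sum_le_sum_abs _ _).trans ?_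
    have one : ∀ q ∈ cs a1 a2 K, |FinS W P' K (D - (K + 1)) a1 a2 q - FinS W P K (D - (K + 1)) a1 a2 q| ≤
        2 * (B * ((θ ^ D) ^ 16 - 1)) := by
      intro q hq
      unfold cs at hq
      rw [mem_Icc] at hq
      have w1 := wr K hK.1 hK.2 q (mem_Icc.2 hq)
      have f1 := fr K hK.1 hK.2 q (mem_Icc.2 ⟨hq.1, by omega⟩)
      have f2 := fr K hK.1 hK.2 (q + 1) (mem_Icc.2 ⟨by omega, by omega⟩)
      rw [add_sub_cancel_right] at f2
      have k := FinS_tilt (K := K) (J := D - (K + 1)) (q := q) hW hP hP' ht h (by rw [eJ]; exact hpp) (by rw [eJ]; exact h16)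
        (by omega) (by omega) hκ hκ' w1.1 w1.2 f1.1 f1.2 f2.1 f2.2
      rw [eJ] at k
      refine k.trans ?_
      have := mul_le_mul_of_nonneg_right (hB K hK.1 hK.2) T16
      linarith
    refine (sum_le_sum one).trans ?_
    rw [sum_const, nsmul_eq_mul]
    refine mul_le_mul_of_nonneg_right ?_ (by positivity)
    unfold cs
    rw [Int.card_Icc]
    have h1 : (((a2 + K + 1 - (a1 + 1)).toNat : ℤ)) ≤ a2 - a1 + D' := by omega
    exact_mod_cast h1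
  refine (sum_le_sum key).trans (le_of_eq ?_)
  rw [sum_const, nsmul_eq_mul, Nat.card_Ico]

end

end Pool.Agent.W_7d29a1_C1.T97
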