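import Pool.Agent.W_7d29a1_C1.ShlL51
import Pool.Agent.W_7d29a1_C1.Tm31
import Pool.Agent.W_7d29a1_C1.NsG94

/-!
MP_7d29a1_pr, attractor route [C1], field `nu`: THE COUNT OF THE SCALES WHICH ARE NOT TAME, WITH THE ORDER OF THE CONSTANTS (helper77).

`Gt77`: the contact `c` is tame at the scale `b`: locally regular up to the scale `Mt`, no steep future. `TmQ77`: off a rare event at
most `δ M` scales of a contact which is not rare are not tame.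
-/

set_option autoImplicit false

namespace Pool.Agent.W_7d29a1_C1.H77

open MeasureTheory Finset Filter Topology
open Pool.Agent.W_7d29a1_F Pool.Agent.W_7d29a1_h4g Pool.Agent.W_7d29a1_H Pool.Agent.W_7d29a1_HS
open Pool.Agent.W_7d29a1_C1.T10 (Gd Tg GW)
open Pool.Agent.W_7d29a1_C1.H60
open Pool.Agent.W_7d29a1_C1.G37 (Gm Wok)
open Pool.Agent.W_7d29a1_C1.H8
open Pool.Agent.W_7d29a1_C1.D31 (TM31)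
open Pool.Agent.W_7d29a1_C1.NS94 (NS)
open Pool.Agent.W_7d29a1_C1.Nu51 (SC51)
open scoped ENNReal

noncomputable section

/-- **THE CONTACT `c` IS TAME AT THE SCALE `b`.** `h₀` = base height, `M` = last scale of the separation, `Mt` = last scale of the local
regularity. -/
def Gt77 (μ : Measure ℝ) (s : ℝ) (k : SC51) {h₀ : ℕ} (hW : Wok μ s (2 * h₀) k.K) (M Mt : ℕ) (A Φ σ : ℝ) (G : Gd) (Γ : Cx) (b : ℕ)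
    (c : ℕ × ℤ) (ω : Env) : Prop :=
  TM31 μ s Γ G (Tg h₀ k.K) Mt 2 A Φ σ b c ω ∧ ω ∈ NS Γ (k.G hW M) (k.th μ s (2 * h₀)) k.m0 k.τ₀ b c

/-- **FEW SCALES ARE NOT TAME.** The constant `Φ` before the ratio `K`, the constant `A` before `m0`. -/
def TmQ77 (μ : Measure ℝ) [IsProbabilityMeasure μ] (s : ℝ) : Prop :=
  ∃ Φ : ℝ, 1 ≤ Φ ∧ ∀ ρ : ℝ, 0 < ρ → ρ ≤ 1 → ∀ e : ℝ, 0 < e → e ≤ 1 / 32 → ∃ K₁ : ℕ, ∀ K : ℕ, K₁ ≤ K →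
    ∀ (R : ℝ) (B : ℕ) (C₀ : ℝ), 1 ≤ R → 2 ≤ B → 1 ≤ C₀ → ∀ σ δ : ℝ, 0 < σ → 0 < δ → ∃ A : ℝ, 0 ≤ A ∧
      ∀ k : SC51, k.K = K → ∃ mb : ℕ, ∀ m : ℕ, mb ≤ m → ∀ m₁ : ℕ, 1 ≤ m₁ → ∃ s₁ e' : ℝ, 0 < s₁ ∧ 0 < e' ∧
        ∀ c₂ : ℝ, 0 < c₂ → c₂ ≤ s₁ → ∀ δ' : ℝ, 0 < δ' → δ' ≤ c₂ / 16 → ∃ κ₀ : ℝ, 0 < κ₀ ∧ ∀ κ : ℝ, 0 < κ → κ ≤ κ₀ →
          ∃ Q₀ : ℕ, 1 ≤ Q₀ ∧ ∀ Q : ℕ, Q₀ ∣ Q → 1 ≤ Q → ∀ᶠ n : ℕ in atTop, ∀ G : Gd,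
            GW μ s R B C₀ (h8 Q (ρ * e) n) K (m8 K e n + ((k.up m).m0 + m₁)) G →
            ∀ (hW : Wok μ s (2 * h8 Q (ρ * e) n) (k.up m).K) (Γ : Cx), Adm μ s c₂ δ' κ n Γ → ∃ bad : Set Env,
              law μ bad ≤ 2 * ENNReal.ofReal ((n : ℝ) ^ (-(2 : ℝ))) ∧
              ∀ ω ∉ bad, ∀ c ∈ S8 e K n G Γ, Real.exp (-((n : ℝ) ^ e')) ≤ Γ.w c ω → ∀ F : Finset ℕ, F ⊆ range (m8 K e n + 1) →
                (∀ b ∈ F, ¬ Gt77 μ s (k.up m) hW (m8 K e n) (m8 K e n / 2) A Φ σ G Γ b c ω) → (F.card : ℝ) ≤ δ * m8 K e n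

end

end Pool.Agent.W_7d29a1_C1.H77
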