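import Pool.Agent.W_7d29a1_C1.UnT77
import Pool.Agent.W_7d29a1_C1.DepS6

/-!
MP_7d29a1_pr, attractor route [C1], field `nu`: `hU` from helper6's count `cntUS6` (`Ok6` and `OkS6` as premises of the clause); over the
tower `Zt77` of one contact. (helper77)
-/

set_option autoImplicit false

namespace Pool.Agent.W_7d29a1_C1.H77

open MeasureTheory ProbabilityTheory Finset Filter Topology
open Pool.Agent.W_7d29a1_F Pool.Agent.W_7d29a1_C1.H40 Pool.Agent.W_7d29a1_C1.Dep6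
open Pool.Agent.W_7d29a1_C1.T10 (Gd)
open scoped ENNReal

noncomputable section

variable {μ : Measure ℝ} [IsProbabilityMeasure μ]

/-- **`hU` WITH `Ok6`, `OkS6`.** -/
theorem hUS77 {Λ X : Type*} [Inhabited Λ] {S : Finset X} {Z : X → List (Cut Λ)} {ℓ : ℕ}
    (hpw : ∀ x ∈ S, (Z x).Pairwise fun c d => c.row ≤ d.row)
    (hlen : ∀ x ∈ S, (Z x).length ≤ ℓ) {dL : Cut Λ → Cut Λ → Env → ℕ} {dN : Cut Λ → Cut Λ → Cut Λ → Env → ℕ} {z M tl : ℝ≥0∞}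
    (hL : Dp2 μ z M dL) (hN : Dp3 μ z M dN) (hz : 1 ≤ z) (hz' : z ≠ ∞) (hM : 1 ≤ M) (Sw : Finset ℤ) (E₀ : ℕ)
    (htl : ∀ a b, law μ {η | E₀ < dL a b η} ≤ tl) (scL : Cut Λ → Cut Λ → ℕ) (scN : Cut Λ → Cut Λ → Cut Λ → ℕ)
    {F : Finset (Cut Λ)} (hF : ∀ x ∈ S, ∀ d ∈ Z x, d ∈ F) {bad : Set Env} {r m : ℕ} {Q : X → Env → Prop} {Un : ℕ → X → Set Env}
    {Ex : Finset ℕ}
    (hT : ∀ η ∉ bad, ∀ x ∈ S, Q x η → ∀ u < m, u ∉ Ex → Ok6 Sw dL dN scL scN (Z x) u η → OkS6 Sw E₀ scL scN (Z x) u → η ∉ Un u x)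
    {b : ℕ} (hb : Ex.card + 9 * r + 9 * (Sw.card * E₀) ≤ b) :
    ∃ Bd : Set Env, bad ⊆ Bd ∧ law μ Bd ≤ law μ bad + ((F.card : ℝ≥0∞) ^ 2 * tl + S.card * (3 * (M ^ ℓ / z ^ r))) ∧
      ∀ η ∉ Bd, ∀ x ∈ S, Q x η → ∀ F' : Finset ℕ, F' ⊆ range m → (∀ u ∈ F', η ∈ Un u x) → F'.card ≤ b := by
  classical
  have h1 := cntUS6 hL hN hz hz' hM Sw E₀ htl scL scN hpw hlen hF r m
  refine ⟨bad ∪ {η | ∃ x ∈ S, 9 * r + 9 * (Sw.card * E₀) <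
    ((range m).filter fun u => ¬ (Ok6 Sw dL dN scL scN (Z x) u η ∧ OkS6 Sw E₀ scL scN (Z x) u)).card},
    Set.subset_union_left, (measure_union_le _ _).trans (add_le_add le_rfl (by convert h1)), fun η hη x hx hQ F' hF' hU => ?_⟩
  have h2 : ¬ 9 * r + 9 * (Sw.card * E₀) <
      ((range m).filter fun u => ¬ (Ok6 Sw dL dN scL scN (Z x) u η ∧ OkS6 Sw E₀ scL scN (Z x) u)).card :=
    fun h => hη (Or.inr ⟨x, hx, h⟩)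
  have hsub : F' ⊆ Ex ∪ (range m).filter fun u => ¬ (Ok6 Sw dL dN scL scN (Z x) u η ∧ OkS6 Sw E₀ scL scN (Z x) u) := by
    intro u hu
    by_contra hcon
    rw [mem_union, not_or] at hcon
    obtain ⟨h3, h4⟩ := hcon
    have hum := hF' hu
    rw [mem_filter, not_and, not_not] at h4
    obtain ⟨h5, h6⟩ := h4 hum
    exact hT η (fun hb' => hη (Or.inl hb')) x hx hQ u (mem_range.1 hum) h3 h5 h6 (hU u hu)
  have h3 := (card_le_card hsub).trans (card_union_le _ _)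
  omega

/-- **THE SAME OVER THE TOWERS `Zt77`** of the contacts `S`. -/
theorem hUT77 {X : Type*} {G : Gd} {T : ℕ → ℕ} {L : ℕ} (hG : G.Ok L) (hT : Monotone T)
    (hH : ∀ v, v < L → G.H (v + 1) + T v ≤ T (v + 1) + G.H v) {S : Finset X} {site : X → ℕ × ℤ} {S' : Finset (ℕ × ℤ)}
    (hS : ∀ x ∈ S, site x ∈ S')
    {dL : Cut (ℕ × ℤ) → Cut (ℕ × ℤ) → Env → ℕ} {dN : Cut (ℕ × ℤ) → Cut (ℕ × ℤ) → Cut (ℕ × ℤ) → Env → ℕ} {z M tl : ℝ≥0∞}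
    (hL : Dp2 μ z M dL) (hN : Dp3 μ z M dN) (hz : 1 ≤ z) (hz' : z ≠ ∞) (hM : 1 ≤ M) (Sw : Finset ℤ) (E₀ : ℕ)
    (htl : ∀ a b, law μ {η | E₀ < dL a b η} ≤ tl) (scL : Cut (ℕ × ℤ) → Cut (ℕ × ℤ) → ℕ)
    (scN : Cut (ℕ × ℤ) → Cut (ℕ × ℤ) → Cut (ℕ × ℤ) → ℕ)
    {bad : Set Env} {r m : ℕ} {Q : X → Env → Prop} {Un : ℕ → X → Set Env} {Ex : Finset ℕ}
    (hTm : ∀ η ∉ bad, ∀ x ∈ S, Q x η → ∀ u < m, u ∉ Ex → Ok6 Sw dL dN scL scN (Zt77 G T L (site x)) u η →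
      OkS6 Sw E₀ scL scN (Zt77 G T L (site x)) u → η ∉ Un u x)
    {b : ℕ} (hb : Ex.card + 9 * r + 9 * (Sw.card * E₀) ≤ b) :
    ∃ Bd : Set Env, bad ⊆ Bd ∧
      law μ Bd ≤ law μ bad + (((S'.card * (2 * (L + 1)) : ℕ) : ℝ≥0∞) ^ 2 * tl + S.card * (3 * (M ^ (2 * L + 1) / z ^ r))) ∧
      ∀ η ∉ Bd, ∀ x ∈ S, Q x η → ∀ F' : Finset ℕ, F' ⊆ range m → (∀ u ∈ F', η ∈ Un u x) → F'.card ≤ b := by
  obtain ⟨Bd, h1, h2, h3⟩ := hUS77 (S := S) (Z := fun x => Zt77 G T L (site x)) (ℓ := 2 * L + 1)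
    (fun x _ => pw_Zt77 hG hT hH) (fun x _ => le_of_eq length_Zt77) hL hN hz hz' hM Sw E₀ htl scL scN
    (F := Ft77 G T L S') (fun x hx d hd => mem_Ft77 (hS x hx) hd) hTm hb
  refine ⟨Bd, h1, h2.trans (add_le_add le_rfl (add_le_add ?_ le_rfl)), h3⟩
  refine mul_le_mul' (pow_le_pow_left' ?_ 2) le_rfl
  exact_mod_cast card_Ft77 (G := G) (T := T) (L := L) S'

end

end Pool.Agent.W_7d29a1_C1.H77
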