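import Pool.Agent.W_7d29a1_C1.TmP89
import Pool.Agent.W_7d29a1_C1.UnW77
import Pool.Agent.W_7d29a1_C1.OkN6
import Pool.Agent.W_7d29a1_C1.StD94
import Pool.Agent.W_7d29a1_C1.SwT70

/-!
MP_7d29a1_pr, [C1], FIELD nu, THE PAST CLAUSE: A SCALE OF A CONTACT WHICH IS NOT FELT IS TAME IN THE PAST. (helper89)

`tmR89`: the two depths (levels and steep levels of the layers of the lower edges of the tower `Zt77`, nodes of the past) exist with moments
at most two, and at a scale `b` which does not feel them (`Ok6`, no row of a switch) the past masses of the row `z_b - T_b` are locally regular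
(`Lr31`, clauses `pl`, `pr` of `TM31`). `TopP89`: the crude bound of the far mass at the top edge. The switch row may be anywhere (`Sw70`).
-/

set_option autoImplicit false

namespace Pool.Agent.W_7d29a1_C1.TmR89

open MeasureTheory ProbabilityTheory Filter Topology Finset
open Pool.Agent.W_7d29a1_F Pool.Agent.W_7d29a1_h4g Pool.Agent.W_7d29a1_H Pool.Agent.W_7d29a1_HS
open Pool.Agent.W_7d29a1_C1.S71 Pool.Agent.W_7d29a1_C1.H40 Pool.Agent.W_7d29a1_C1.Dep6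
open Pool.Agent.W_7d29a1_C1.H75 Pool.Agent.W_7d29a1_C1.U16
open Pool.Agent.W_7d29a1_C1.FarW89 (nk bl lt)
open Pool.Agent.W_7d29a1_C1.SysP84 Pool.Agent.W_7d29a1_C1.LrQ89 Pool.Agent.W_7d29a1_C1.TmP89
open Pool.Agent.W_7d29a1_C1.H94 (nu Cs94)
open Pool.Agent.W_7d29a1_C1.ArmPn88 (nuP dpXP88 dpXP_eq dp3_p88)
open Pool.Agent.W_7d29a1_C1.T10 (Gd pt)
open Pool.Agent.W_7d29a1_C1.H60 (Cx)
open Pool.Agent.W_7d29a1_C1.D31 (Lr31)
open Pool.Agent.W_7d29a1_C1.H77 (Zt77 lc77 split_lc77 split3_lc77)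
open Pool.Agent.W_7d29a1_C1.Swm70
open Pool.Agent.W_7d29a1_C1.StD94 (stF_famD94)
open Pool.Agent.W_7d29a1_g (rv)
open scoped ENNReal

noncomputable section

variable {μ : Measure ℝ} {s c C : ℝ} {n₀ : ℕ}

/-! ### The lower edges of one contact -/

/-- The row of the lower edge of the scale `v`. -/
def ro89 (G : Gd) (T : ℕ → ℕ) (x : ℕ × ℤ) (v : ℕ) : ℕ := (G.z v x).1 - T v

/-- The lateral coordinate of the base of a cut. -/
def la89 (μ : Measure ℝ) (s : ℝ) (d : Cut (ℕ × ℤ)) : ℝ := (d.cd.2 : ℝ) - sl μ s * (d.cd.1 : ℝ)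

/-- The column of a cut. -/
def co89 (μ : Measure ℝ) (s : ℝ) (d : Cut (ℕ × ℤ)) : ℤ := colC6 (la89 μ s) (sl μ s) d

/-- **The scales.** -/
structure Sc89 (μ : Measure ℝ) (s : ℝ) (B K : ℕ) (C₀ : ℝ) (T : ℕ → ℕ) : Prop where
  TK : ∀ v, 1 ≤ v → T (v + 1) = K * T v
  w3 : ∀ v, 1 ≤ v → 2 ≤ wd μ s (T v)
  wB : ∀ v, 1 ≤ v → wd μ s (B * T v) ≤ C₀ * wd μ s (T v)
  wB' : ∀ v, 1 ≤ v → wd μ s (T v) ≤ wd μ s (B * T v)
  w2 : ∀ v, 1 ≤ v → wd μ s (T v) ≤ C₀ * wd μ s (2 * T v)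

/-- **The lower edges of a contact.** -/
structure Cn89 (μ : Measure ℝ) (s : ℝ) (B : ℕ) (G : Gd) (T : ℕ → ℕ) (L : ℕ) (x : ℕ × ℤ) : Prop where
  row : ∀ v, 1 ≤ v → v ≤ L → T v ≤ (G.z v x).1
  up : ∀ v, 1 ≤ v → v < L → (G.z (v + 1) x).1 ≤ (G.z v x).1
  dn : ∀ v, 1 ≤ v → v < L → (G.z v x).1 ≤ (G.z (v + 1) x).1 + T (v + 1)
  lat : ∀ v, 1 ≤ v → v ≤ L → |lat16 μ s (pt x) (G.x v x)| + 1 ≤ wd μ s (B * T v)

/-- **THE FAR MASS OF THE TOP EDGE IS SMALL** (crude): places of the rows `z_b - T_b`, `b ≤ M`, within `Kt` widths of the scale `M + 2`;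
top edge of the scale `L`. -/
def TopP89 (μ : Measure ℝ) (s : ℝ) (Γ : Cx) (G : Gd) (T : ℕ → ℕ) (M L : ℕ) (Kt : ℝ) (l : ℤ → ℝ) (x : ℕ × ℤ) (ω : Env) : Prop :=
  ∀ b, 1 ≤ b → b ≤ M → ∀ y : ℤ, |lat16 μ s (pt x) ((ro89 G T x b : ℤ), y)| ≤ Kt * wd μ s (T (M + 2)) →
    32 * (((ro89 G T x b - ro89 G T x L : ℕ) : ℝ) * PMP84 μ s Γ.h ω Γ.p Γ.M l (ro89 G T x b) (ro89 G T x L) y
      (fun z => 4 ^ (L - M - 4) * wd μ s (2 * T L) ≤
        |lat16 μ s (pt x) ((ro89 G T x L : ℤ), z) - lat16 μ s (pt x) ((ro89 G T x b : ℤ), y)|)) ≤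
      fh84 μ s Γ.h ω Γ.p Γ.M l (ro89 G T x b) y

section Geom

variable {B K L : ℕ} {C₀ : ℝ} {G : Gd} {T : ℕ → ℕ} {x : ℕ × ℤ}

theorem Cn89.rz (h : Cn89 μ s B G T L x) {v : ℕ} (h1 : 1 ≤ v) (h2 : v ≤ L) : ((ro89 G T x v : ℕ) : ℤ) = (lc77 G T x v).row := by
  have h3 := h.row v h1 h2
  show (((G.z v x).1 - T v : ℕ) : ℤ) = ((G.z v x).1 : ℤ) - T v
  omega

/-- **The rows of a layer.** -/
theorem Cn89.rows (h : Cn89 μ s B G T L x) (hT : Sc89 μ s B K C₀ T) (hK : 2 ≤ K) {v : ℕ} (h1 : 1 ≤ v) (h2 : v < L) :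
    ro89 G T x (v + 1) ≤ ro89 G T x v ∧ ro89 G T x v - ro89 G T x (v + 1) ≤ 2 * T (v + 1) ∧
      T (v + 1) ≤ 2 * (ro89 G T x v - ro89 G T x (v + 1)) := by
  have a1 := h.row v h1 h2.le
  have a2 := h.row (v + 1) (by omega) h2
  have a3 := h.up v h1 h2
  have a4 := h.dn v h1 h2
  have a5 : 2 * T v ≤ T (v + 1) := by
    rw [hT.TK v h1]
    exact Nat.mul_le_mul_right _ hK
  unfold ro89
  omega

theorem Cn89.mono (h : Cn89 μ s B G T L x) (hT : Sc89 μ s B K C₀ T) (hK : 2 ≤ K) : ∀ d v, 1 ≤ v → v + d ≤ L →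
    ro89 G T x (v + d) ≤ ro89 G T x v
  | 0, _, _, _ => le_rfl
  | d + 1, v, h1, h2 => ((h.rows hT hK (v := v + d) (by omega) (by omega)).1).trans (Cn89.mono h hT hK d v h1 (by omega))

/-- The number of rows of a layer. -/
theorem Cn89.nrow (h : Cn89 μ s B G T L x) {v : ℕ} (h1 : 1 ≤ v) (h2 : v < L) :
    nR (lc77 G T x (v + 1)) (lc77 G T x v) = ro89 G T x v - ro89 G T x (v + 1) := by
  have e1 := h.rz h1 h2.le
  have e2 := h.rz (v := v + 1) (by omega) h2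
  unfold nR
  rw [← e1, ← e2]
  omega

theorem lb89 (v : ℕ) : lb6 (lc77 G T x (v + 1)) (lc77 G T x v) = v + 1 := max_eq_left (Nat.le_succ v)

/-- **The column of a lower edge.** -/
theorem Cn89.col (h : Cn89 μ s B G T L x) {v : ℕ} (h1 : 1 ≤ v) (h2 : v ≤ L) :
    |la89 μ s (lc77 G T x v) - ((x.2 : ℝ) - sl μ s * (x.1 : ℝ))| + 1 ≤ wd μ s (B * T v) ∧
      |lat16 μ s (pt x) ((ro89 G T x v : ℤ), co89 μ s (lc77 G T x v))| ≤ wd μ s (B * T v) := by
  have h3 := h.lat v h1 h2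
  have e1 : lat16 μ s (pt x) (G.x v x) = la89 μ s (lc77 G T x v) - ((x.2 : ℝ) - sl μ s * (x.1 : ℝ)) := by
    unfold lat16 la89
    show ((((G.z v x).2 - x.2 : ℤ)) : ℝ) - sl μ s * ((((G.z v x).1 : ℤ) - (x.1 : ℤ) : ℤ) : ℝ) =
      (((G.z v x).2 : ℤ) : ℝ) - sl μ s * ((G.z v x).1 : ℝ) - ((x.2 : ℝ) - sl μ s * (x.1 : ℝ))
    push_cast
    ring
  rw [e1] at h3
  refine ⟨h3, ?_⟩
  have h4 := colC6_line (μ := μ) (s := s) (κ := pt x) (latC := la89 μ s) (x := (x.2 : ℝ) - sl μ s * (x.1 : ℝ)) (by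
    show ((x.2 : ℤ) : ℝ) - sl μ s * (((x.1 : ℕ) : ℤ) : ℝ) = _
    push_cast
    ring) (lc77 G T x v) (B := wd μ s (B * T v) - 1) (by linarith)
  rw [h.rz h1 h2]
  unfold co89
  linarith

end Geom

/-! ### The clause -/

variable [IsProbabilityMeasure μ]

/-- Labels of the layers. -/
def Hl89 (B : ℕ) (T : ℕ → ℕ) (a b : Cut (ℕ × ℤ)) : ℕ := B * T (max (lb6 a b) 1)

/-- **A SCALE WHICH IS NOT FELT IS TAME IN THE PAST.** -/
theorem tmR89 (h0 : In μ s c C n₀) (hCs : ∃ (c₀ δ₁ c₁ A a g θ : ℝ) (K0 : ℕ), ∀ Kb : ℕ, ∃ (n₃ : ℕ) (Y₁ : ℝ),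
      Cs94 μ s c₀ δ₁ c₁ A a g θ Y₁ K0 Kb n₃) :
    ∃ (Φ : ℝ) (K₂ : ℕ), 1 ≤ Φ ∧ 2 ≤ K₂ ∧ ∀ (K B : ℕ) (C₀ : ℝ), K₂ ≤ K → 2 ≤ B → 1 ≤ C₀ → ∀ Cn : ℕ, 1 ≤ Cn → ∀ σ : ℝ, 0 < σ →
    ∃ AA a g AA' a' g' : ℝ, 0 < AA ∧ 0 < a ∧ 0 < g ∧ 0 < AA' ∧ 0 < a' ∧ 0 < g' ∧ ∀ z : ℝ, 1 ≤ z →
    ∃ (A q₁ : ℝ) (n₁ : ℕ), 0 ≤ A ∧ 1 ≤ q₁ ∧ 1 ≤ n₁ ∧ ∀ T : ℕ → ℕ, n₁ ≤ T 1 → Sc89 μ s B K C₀ T → ∀ D : ℕ,
      ∃ (dL : Cut (ℕ × ℤ) → Cut (ℕ × ℤ) → Env → ℕ) (dN : Cut (ℕ × ℤ) → Cut (ℕ × ℤ) → Cut (ℕ × ℤ) → Env → ℕ),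
        Dp2 μ (ENNReal.ofReal z) 2 dL ∧ Dp3 μ (ENNReal.ofReal z) 2 dN ∧ (∀ a b η, dL a b η ≤ max D 1) ∧
        (∀ E₀ x y, 1 ≤ E₀ → law μ {η | E₀ < dL x y η} ≤
          ENNReal.ofReal (AA * Real.exp (-(a * (q₁ * (17 / 16) ^ E₀) ^ g)) + AA' * Real.exp (-(a' * (q₁ * (17 / 16) ^ E₀) ^ g')))) ∧
        ∀ (Γ : Cx) (G : Gd) (L M : ℕ) (x : ℕ × ℤ) (ω : Env) (b : ℕ), Γ.s = s → M + 5 ≤ L → L < D → Cn89 μ s B G T L x →
          (∀ v, 1 ≤ v → v ≤ L → |Γ.h| * wd μ s (B * T v) ≤ c / 4 * EE μ s (B * T v)) →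
          1 ≤ b → b ≤ M → 12 * (|Γ.h| * ((ro89 G T x b - ro89 G T x L : ℕ) : ℝ)) ≤ 1 →
          ((ro89 G T x b - ro89 G T x L : ℕ) : ℝ) ≤ Real.exp (EE μ s (2 * T (b + 1))) →
          n₁ * K₂ ^ ((M - b + 1) / Cn) ≤ T (b + 1) → Ok6 ∅ dL dN lb6 lbN6 (Zt77 G T L x) b ω →
          ∀ l : ℤ → ℝ, (∀ y, 0 ≤ l y) → TopP89 μ s Γ G T M L (4 * C₀) l x ω →
            Lr31 μ s (pt x) T M 2 A Φ σ (fh84 μ s Γ.h ω Γ.p Γ.M l ((G.z b x).1 - T b)) ((G.z b x).1 - T b) b := by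
  obtain ⟨c₀, δ₁, c₁, Ac, aa, g, θn, K0, hCs⟩ := hCs
  obtain ⟨pw, HL⟩ := lr_towP89 h0
  obtain ⟨Ds, hDs, HS⟩ := stF_famD94 h0
  obtain ⟨Φ₀, hΦ₀⟩ : ∃ Φ₀ : ℝ, Φ₀ = max 2 Ds := ⟨_, rfl⟩
  have hΦ2 : 2 ≤ Φ₀ := hΦ₀ ▸ le_max_left _ _
  have hΦD : Ds ≤ Φ₀ := hΦ₀ ▸ le_max_right _ _
  have hΦ1 : 1 ≤ Φ₀ := by linarith only [hΦ2]
  have hθn : 0 < θn := by
    obtain ⟨n₃, Y₁, h⟩ := hCs 0
    exact h.θ0
  have hc₁ : 0 < c₁ := by
    obtain ⟨n₃, Y₁, h⟩ := hCs 0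
    exact h.c₁0
  obtain ⟨K₂', hK₂', HL⟩ := HL Φ₀ hΦ1 hθn K0 (Bn := 4) (by norm_num)
  obtain ⟨K3, n₄, hK3, HN⟩ := ndok88 h0 hθn K0 (Bn := 4) (by norm_num)
  obtain ⟨K₂, hK₂⟩ : ∃ K₂ : ℕ, K₂ = max K₂' K3 := ⟨_, rfl⟩
  have k2 : K₂' ≤ K₂ := hK₂ ▸ le_max_left _ _
  have k3 : K3 ≤ K₂ := hK₂ ▸ le_max_right _ _
  refine ⟨Φ₀ ^ pw, K₂, one_le_pow₀ hΦ1, hK₂'.trans k2, ?_⟩
  intro K B C₀ hKK hB hC₀ Cn hCn σ hσ
  have hK2 : 2 ≤ K := (hK₂'.trans k2).trans hKK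
  have hBR : (2 : ℝ) ≤ B := by exact_mod_cast hB
  have hKR : (2 : ℝ) ≤ K := by exact_mod_cast hK2
  obtain ⟨θ, hθe⟩ : ∃ θ : ℝ, θ = 1 / (2 * B) := ⟨_, rfl⟩
  have hθ : 0 < θ := by rw [hθe]; positivity
  have hθ1 : θ ≤ 1 := by
    rw [hθe, div_le_one (by positivity)]
    linarith only [hBR]
  have hθB : θ * B = 1 / 2 := by
    rw [hθe]
    field_simp
  obtain ⟨P, Al, al, gl, nl, hAl, hal, hgl, hnl, HF⟩ := lv_fam h0 (K := 4) (by norm_num) hθ hθ1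
  have hΦC : Φ₀ ≤ Φ₀ ^ Cn := le_self_pow₀ hΦ1 (by omega)
  obtain ⟨Bp, hBp, HL⟩ := HL P θ 4 Φ₀ Cn hθ le_rfl hΦ2 hCn hΦC K B
  obtain ⟨Rm, HL⟩ := HL 4 (C₀ ^ 2) (by norm_num) (by positivity)
  obtain ⟨R, hR⟩ : ∃ R : ℕ, R = ⌈max 1 Rm⌉₊ := ⟨_, rfl⟩
  have hRR : max 1 Rm ≤ (R : ℝ) := hR ▸ Nat.le_ceil _
  have hR1 : 1 ≤ R := by
    have : (1 : ℝ) ≤ R := (le_max_left _ _).trans hRR
    exact_mod_cast this
  have hRm : Rm ≤ (R : ℝ) := (le_max_right _ _).trans hRR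
  obtain ⟨δs, hδ0, hδ1, hδ2, HS⟩ := HS θ hθ
  obtain ⟨Bw, nw, hBw, hnw, HW⟩ := DD84.wd_next h0 K
  obtain ⟨Lm, hLm⟩ : ∃ Lm : ℝ, Lm = 2 * (C₀ * Bw) := ⟨_, rfl⟩
  have hLm1 : 1 ≤ Lm := by
    rw [hLm]
    have := mul_le_mul hC₀ hBw (by norm_num) (by linarith only [hC₀])
    linarith only [this]
  obtain ⟨As, as, gs, ns, hAs, has, hgs, hns, HS⟩ := HS (3 * Bp) Φ₀ Lm 1 (by linarith only [hBp]) hΦ2 hΦD hLm1 one_pos
  refine ⟨Al, al, gl, As, as, gs, hAl, hal, hgl, hAs, has, hgs, fun z hz => ?_⟩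
  obtain ⟨n₃, Y₁, hC⟩ := hCs (4 * K * 4)
  obtain ⟨Y₂, hY1, hY8, HX⟩ := dp3_p88 hC hR1 (z := z ^ Cn) (d := 1 / 4) (one_le_pow₀ hz) (by norm_num)
  obtain ⟨Y, hY⟩ : ∃ Y : ℝ, Y = max Y₂ (64 / c₁) := ⟨_, rfl⟩
  have hYY : Y₂ ≤ Y := hY ▸ le_max_left _ _
  have hYc : 64 ≤ c₁ * Y := by
    have h1 : 64 / c₁ ≤ Y := hY ▸ le_max_right _ _
    rw [div_le_iff₀ hc₁] at h1
    linarith only [h1]
  obtain ⟨Y₀, hY₀, HD⟩ := depI6 (μ := μ) (th := 17 / 16) (z := z) hAl hal hgl hAs has hgs (by norm_num) hz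
  obtain ⟨q₀, hq₀⟩ : ∃ q₀ : ℝ, q₀ = 3 * (Y₀ * (17 / 16)) := ⟨_, rfl⟩
  have hq0 : 0 ≤ q₀ := by rw [hq₀]; positivity
  have hBK0 : (0 : ℝ) < B * K := by positivity
  obtain ⟨A₀, n₁, hA₀, hn₁, HL⟩ := HL (σ / (4 * (B * K))) Y q₀ δs 0 (by positivity) (hY8.trans hYY) hq0 hδ0 hδ1 hδ2
  obtain ⟨n₁', hn₁'⟩ : ∃ n : ℕ, n = max (max (max n₁ nl) (max n₄ ns)) (max (4 * n₃) nw) := ⟨_, rfl⟩
  have l1 : n₁ ≤ n₁' := by rw [hn₁']; exact ((le_max_left _ _).trans (le_max_left _ _)).trans (le_max_left _ _)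
  have l2 : nl ≤ n₁' := by rw [hn₁']; exact ((le_max_right _ _).trans (le_max_left _ _)).trans (le_max_left _ _)
  have l3 : n₄ ≤ n₁' := by rw [hn₁']; exact ((le_max_left _ _).trans (le_max_right _ _)).trans (le_max_left _ _)
  have l4 : ns ≤ n₁' := by rw [hn₁']; exact ((le_max_right _ _).trans (le_max_right _ _)).trans (le_max_left _ _)
  have l5 : 4 * n₃ ≤ n₁' := by rw [hn₁']; exact (le_max_left _ _).trans (le_max_right _ _)
  have l6 : nw ≤ n₁' := by rw [hn₁']; exact (le_max_right _ _).trans (le_max_right _ _)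
  refine ⟨2 * (B * K) * A₀ + 1, Y₀, n₁', by positivity, hY₀, hn₁.trans l1, ?_⟩
  intro T hT1 hT D
  -- the scales
  have hTn : ∀ v, 1 ≤ v → n₁' ≤ T v := by
    intro v hv
    induction v, hv using Nat.le_induction with
    | base => exact hT1
    | succ v hv ih =>
      rw [hT.TK v hv]
      exact ih.trans (Nat.le_mul_of_pos_left _ (by omega))
  have hT2 : ∀ v, 1 ≤ v → 2 * T v ≤ T (v + 1) := fun v hv => by
    rw [hT.TK v hv]
    exact Nat.mul_le_mul_right _ hK2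
  have hT0 : ∀ v, 1 ≤ v → 1 ≤ T v := fun v hv => (hn₁.trans l1).trans (hTn v hv)
  obtain ⟨Wg, hWg⟩ : ∃ Wg : ℕ → ℤ, Wg = fun v => ⌊wd μ s (T v)⌋ := ⟨_, rfl⟩
  have hWg' : ∀ v, Wg v = ⌊wd μ s (T v)⌋ := fun v => by rw [hWg]
  have hLv := HF (Λ := ℕ × ℤ) (Hl89 B T) (fun a b => by
    have h1 := hTn (max (lb6 a b) 1) (le_max_right _ _)
    exact (l2.trans h1).trans (Nat.le_mul_of_pos_left _ (by omega))) (co89 μ s)
  have hLs := HS (Λ := ℕ × ℤ) (Hl89 B T) (fun a => Wg a.sc) (ceC6 (la89 μ s) (sl μ s))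
  have hE2 : Ev2 μ 0 (fun _ _ : Cut (ℕ × ℤ) => Set.univ) := Ev2.univ μ
  have hE3 : Ev3 μ 0 (fun _ _ _ : Cut (ℕ × ℤ) => Set.univ) := Ev3.univ μ
  obtain ⟨d1, d2, d3⟩ := HD Y₀ le_rfl D hLv hLs hE2 hE3 (by rw [mul_zero]; exact zero_le)
  obtain ⟨wN, hwN⟩ : ∃ wN : Cut (ℕ × ℤ) → Cut (ℕ × ℤ) → Cut (ℕ × ℤ) → ℝ, wN = fun _ b e => wd μ s (2 * T (lb6 b e)) := ⟨_, rfl⟩
  obtain ⟨qN, hqN⟩ : ∃ qN : Cut (ℕ × ℤ) → Cut (ℕ × ℤ) → Cut (ℕ × ℤ) → ℝ,
    qN = fun a b e => wd μ s (2 * T (lb6 a b)) / wd μ s (2 * T (lb6 b e)) := ⟨_, rfl⟩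
  have d4 := HX Y hYY wN qN (fun _ b _ => co89 μ s b)
  rw [ENNReal.ofReal_pow (by linarith only [hz])] at d4
  have d5 := d3 _ Cn d4
  refine ⟨_, _, d1, d5, fun a b η => ?_, d2, ?_⟩
  · refine max_le (max_le ?_ ?_) ((dE6_le _ 1 a b η).trans (le_max_right _ _))
    · exact (dep_le _ D η).trans (le_max_left _ _)
    · exact (dep_le _ D η).trans (le_max_left _ _)
  intro Γ G L M x ω b hΓs hML hLD hG hforce hb1 hbM hhD hN hcone hok l hl htop
  have hY₀0 : 0 ≤ Y₀ := by linarith only [hY₀]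
  obtain ⟨r, hr⟩ : ∃ r : ℕ → ℕ, r = ro89 G T x := ⟨_, rfl⟩
  have hrr : ∀ v, 1 ≤ v → v < L → r (v + 1) ≤ r v ∧ r v - r (v + 1) ≤ 2 * T (v + 1) ∧ T (v + 1) ≤ 2 * (r v - r (v + 1)) :=
    fun v h1 h2 => by
      rw [hr]
      exact hG.rows hT hK2 h1 h2
  have hmono : ∀ d v, 1 ≤ v → v + d ≤ L → r (v + d) ≤ r v := fun d v h1 h2 => by
    rw [hr]
    exact hG.mono hT hK2 d v h1 h2
  rw [← hr] at hhD hN
  have hrz : ∀ v, 1 ≤ v → v ≤ L → ((r v : ℕ) : ℤ) = (lc77 G T x v).row := fun v h1 h2 => by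
    rw [hr]
    exact hG.rz h1 h2
  have hnR : ∀ v, 1 ≤ v → v < L → nR (lc77 G T x (v + 1)) (lc77 G T x v) = r v - r (v + 1) := fun v h1 h2 => by
    rw [hr]
    exact hG.nrow h1 h2
  have hHl : ∀ v, Hl89 B T (lc77 G T x (v + 1)) (lc77 G T x v) = B * T (v + 1) := fun v => by
    unfold Hl89
    rw [lb89, max_eq_left (by omega)]
  have hrbL : r L ≤ r b := by
    have := hmono (L - b) b hb1 (by omega)
    rwa [show b + (L - b) = L by omega] at this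
  have hbL : b + (L - b) = L := by omega
  -- the switch
  obtain ⟨Dr, hDr⟩ : ∃ Dr : ℕ, Dr = r b - r L := ⟨_, rfl⟩
  rw [← hDr] at hhD
  obtain ⟨M', hM1, hM2, hM3⟩ : ∃ M' : ℕ, (r b ≤ M' ∨ M' ≤ r L) ∧ Γ.M ≤ M' + Dr ∧ M' ≤ Γ.M + Dr := by
    by_cases h1 : r b ≤ Γ.M ∨ Γ.M ≤ r L
    · exact ⟨Γ.M, h1, by omega, by omega⟩
    · push Not at h1
      exact ⟨r L, Or.inr le_rfl, by omega, by omega⟩
  have hSw := cx70 Γ hΓs M' hM2 hM3
  have s0 := h0.sl_pos.le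
  have s1 := h0.sl_lt.le
  have hhD0 : 0 ≤ |Γ.h| * (Dr : ℝ) := by positivity
  have hE6 : Real.exp (6 * (|Γ.h| * Dr)) ≤ 2 := by
    have h1 := Real.log_two_gt_d9
    calc Real.exp (6 * (|Γ.h| * Dr)) ≤ Real.exp (Real.log 2) := Real.exp_le_exp.2 (by linarith only [hhD, h1])
      _ = 2 := Real.exp_log two_pos
  -- the top
  have htop' : ∀ y : ℤ, |lt μ s (pt x) r b y| ≤ 4 * wd μ s (B * T (M + 2)) →
      16 * (((r b - r L : ℕ) : ℝ) * PMP84 μ s Γ.h ω (pr70 s Γ.h M') M' l (r b) (r L) y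
        (fun z => 4 ^ (L - M - 4) * wd μ s (2 * T L) ≤ |lt μ s (pt x) r L z - lt μ s (pt x) r b y|)) ≤
        fh84 μ s Γ.h ω (pr70 s Γ.h M') M' l (r b) y := by
    intro y hy
    have h1 := htop b hb1 hbM y (by
      rw [← hr]
      refine hy.trans ?_
      have h2 := hT.wB (M + 2) (by omega)
      linarith only [h2])
    rw [← hr] at h1
    have h2 := PMP_sw70 (η := ω) hSw.symm s0 s1 hl (r b) (r L) y
      (fun z => 4 ^ (L - M - 4) * wd μ s (2 * T L) ≤ |lt μ s (pt x) r L z - lt μ s (pt x) r b y|)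
    have h3 := fh_sw70 (η := ω) hSw s0 s1 hl (r b) y
    obtain ⟨X, hX⟩ : ∃ X : ℝ, X = PMP84 μ s Γ.h ω Γ.p Γ.M l (r b) (r L) y
      (fun z => 4 ^ (L - M - 4) * wd μ s (2 * T L) ≤ |lt μ s (pt x) r L z - lt μ s (pt x) r b y|) := ⟨_, rfl⟩
    have h1' : 32 * (((r b - r L : ℕ) : ℝ) * X) ≤ fh84 μ s Γ.h ω Γ.p Γ.M l (r b) y := by
      rw [hX]
      exact h1
    rw [← hX] at h2
    have f0 := fh_nonneg (μ := μ) (s := s) (h := Γ.h) (η := ω) (M := M') hSw.pos' hl (r b) y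
    have e4 := Real.exp_pos (4 * (|Γ.h| * (Dr : ℝ)))
    have e46 : Real.exp (4 * (|Γ.h| * (Dr : ℝ))) * Real.exp (2 * (|Γ.h| * Dr)) = Real.exp (6 * (|Γ.h| * Dr)) := by
      rw [← Real.exp_add]
      congr 1
      ring
    have hrw0 : (0 : ℝ) ≤ ((r b - r L : ℕ) : ℝ) := Nat.cast_nonneg _
    calc _ ≤ 16 * (((r b - r L : ℕ) : ℝ) * (Real.exp (4 * (|Γ.h| * Dr)) * X)) :=
          mul_le_mul_of_nonneg_left (mul_le_mul_of_nonneg_left h2 hrw0) (by norm_num)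
      _ = Real.exp (4 * (|Γ.h| * Dr)) * (32 * (((r b - r L : ℕ) : ℝ) * X)) / 2 := by ring
      _ ≤ Real.exp (4 * (|Γ.h| * Dr)) * (Real.exp (2 * (|Γ.h| * Dr)) * fh84 μ s Γ.h ω (pr70 s Γ.h M') M' l (r b) y) / 2 :=
          div_le_div_of_nonneg_right (mul_le_mul_of_nonneg_left (h1'.trans h3) e4.le) two_pos.le
      _ = Real.exp (6 * (|Γ.h| * Dr)) / 2 * fh84 μ s Γ.h ω (pr70 s Γ.h M') M' l (r b) y := by
          rw [← e46]
          ring
      _ ≤ 1 * fh84 μ s Γ.h ω (pr70 s Γ.h M') M' l (r b) y := mul_le_mul_of_nonneg_right (by linarith only [hE6]) f0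
      _ = _ := one_mul _
  -- the nodes have the right numbers
  have hnd : ∀ k, 1 ≤ k → k < L - b → NdOk μ s θn (4 * K * 4) n₃ (r (b + (k - 1)) - r (b + k)) (r (b + k) - r (b + (k + 1)))
      (wd μ s (2 * T (b + (k - 1) + 1))) (wd μ s (2 * T (b + k + 1)) / wd μ s (2 * T (b + (k - 1) + 1))) := by
    have hle : ∀ i, i ≤ L - b → r (b + i) ≤ r b := fun i hi => hmono i b hb1 (by omega)
    intro k hk1 hk2
    have h1 := HN hC K le_rfl (r := fun i => r b - r (b + i)) (T := fun i => 2 * T (b + i + 1)) (u := 0) (m := L - b) (by omega)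
      (fun i hi => by
        have a1 := hrr (b + i) (by omega) (by omega)
        have a2 := hle i hi.le
        have a3 := hle (i + 1) hi
        simp only [Nat.zero_add]
        rw [show b + (i + 1) = b + i + 1 by omega] at a3 ⊢
        omega)
      (fun i hi => by
        have a1 := hrr (b + i) (by omega) (by omega)
        have a2 := hle i hi.le
        have a3 := hle (i + 1) hi
        simp only [Nat.zero_add]
        rw [show b + (i + 1) = b + i + 1 by omega] at a3 ⊢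
        omega)
      (fun i hi => by
        have a1 := hTn (b + i + 1) (by omega)
        simp only [Nat.zero_add]
        omega)
      (fun i hi => by
        simp only [Nat.zero_add]
        rw [show b + (i + 1) + 1 = b + i + 1 + 1 by omega, hT.TK (b + i + 1) (by omega)]
        have a1 : K3 * T (b + i + 1) ≤ K * T (b + i + 1) := Nat.mul_le_mul_right _ (k3.trans hKK)
        constructor
        · calc K3 * (2 * T (b + i + 1)) = 2 * (K3 * T (b + i + 1)) := by ring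
            _ ≤ 2 * (K * T (b + i + 1)) := Nat.mul_le_mul_left _ a1
        · exact le_of_eq (by ring))
      k hk1 hk2
    simp only [Nat.zero_add] at h1
    have a2 := hle k hk2.le
    have a3 := hle (k + 1) hk2
    have a4 := hle (k - 1) (by omega)
    have a5 : r (b + k) ≤ r (b + (k - 1)) := by
      have := (hrr (b + (k - 1)) (by omega) (by omega)).1
      rwa [show b + (k - 1) + 1 = b + k by omega] at this
    have a6 : r (b + (k + 1)) ≤ r (b + k) := by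
      have := (hrr (b + k) (by omega) (by omega)).1
      rwa [show b + k + 1 = b + (k + 1) by omega] at this
    rw [show r b - r (b + k) - (r b - r (b + (k - 1))) = r (b + (k - 1)) - r (b + k) by omega,
      show r b - r (b + (k + 1)) - (r b - r (b + k)) = r (b + k) - r (b + (k + 1)) by omega] at h1
    exact h1
  -- the steep levels
  have hst : ∀ v, b ≤ v → v < L → ∃ β' : ℝ, |β' - (((pt x).2 : ℝ) + sl μ s * ((r (v + 1) : ℝ) - ((pt x).1 : ℝ)))| ≤ wd μ s (B * T (v + 1)) ∧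
      ω ∈ DD84.StE84 μ s (3 * Bp) Φ₀ δs (B * T (v + 1)) (r v - r (v + 1)) (Wg (v + 1)) (Wg v) (r (v + 1) : ℤ) β'
        (3 * (Y₀ * (17 / 16) ^ (v + 1 - b))) := by
    intro v hv1 hv2
    obtain ⟨P', Q', hZ⟩ := split_lc77 (G := G) (T := T) (x := x) (L := L) (v := v) (by omega) hv2
    have h1 := (ok_lay6 hLv hLs hY₀0 (by norm_num) hok hZ (l := v + 1 - b) (by rw [lb89]; omega) (by rw [lb89]; omega) (by omega)).2
    have hw := h0.wd_pos (n := B * T (v + 1)) ((hT0 (v + 1) (by omega)).trans (Nat.le_mul_of_pos_left _ (by omega)))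
    have a1 := hrr v (by omega) hv2
    have w0 := hT.w3 v (by omega)
    have w1 := hT.w3 (v + 1) (by omega)
    have f0 : wd μ s (T v) ≤ 2 * (Wg v : ℝ) := by
      rw [hWg']
      have := Int.lt_floor_add_one (wd μ s (T v))
      linarith only [this, w0]
    have f1 : wd μ s (T (v + 1)) ≤ 2 * (Wg (v + 1) : ℝ) := by
      rw [hWg']
      have := Int.lt_floor_add_one (wd μ s (T (v + 1)))
      linarith only [this, w1]
    have g0 : (0 : ℤ) < Wg v := by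
      have : (0 : ℝ) < (Wg v : ℝ) := by linarith only [f0, w0]
      exact_mod_cast this
    have g1 : (0 : ℤ) < Wg (v + 1) := by
      have : (0 : ℝ) < (Wg (v + 1) : ℝ) := by linarith only [f1, w1]
      exact_mod_cast this
    have u1 := hT.wB (v + 1) (by omega)
    have u2 : wd μ s (T (v + 1)) ≤ Bw * wd μ s (T v) := by
      refine HW (T v) (T (v + 1)) (l6.trans (hTn v (by omega))) ?_ (le_of_eq (hT.TK v (by omega)))
      have := hT2 v (by omega)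
      omega
    have hC0 : 0 ≤ C₀ := by linarith only [hC₀]
    have hst1 : StOk μ s θ Lm ns (Hl89 B T (lc77 G T x (v + 1)) (lc77 G T x v)) (nR (lc77 G T x (v + 1)) (lc77 G T x v))
        (Wg (lc77 G T x (v + 1)).sc) (Wg (lc77 G T x v).sc) := by
      rw [hHl, hnR v (by omega) hv2]
      refine ⟨?_, ?_, ?_, g1, g0, ?_, ?_⟩
      · exact (l4.trans (hTn (v + 1) (by omega))).trans (Nat.le_mul_of_pos_left _ (by omega))
      · have a2 : (T (v + 1) : ℝ) ≤ 2 * ((r v - r (v + 1) : ℕ) : ℝ) := by exact_mod_cast a1.2.2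
        push_cast at a2 ⊢
        calc θ * ((B : ℝ) * T (v + 1)) = θ * B * T (v + 1) := by ring
          _ = T (v + 1) / 2 := by
            rw [hθB]
            ring
          _ ≤ _ := by linarith only [a2]
      · exact a1.2.1.trans (Nat.mul_le_mul_right _ hB)
      · rw [hLm]
        show wd μ s (B * T (v + 1)) ≤ 2 * (C₀ * Bw) * (Wg (v + 1) : ℝ)
        have b1 := mul_le_mul_of_nonneg_left f1 hC0
        have b2 : C₀ * (2 * (Wg (v + 1) : ℝ)) ≤ Bw * (C₀ * (2 * (Wg (v + 1) : ℝ))) :=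
          le_mul_of_one_le_left (by positivity) (by linarith only [hBw])
        linarith only [u1, b1, b2, show Bw * (C₀ * (2 * (Wg (v + 1) : ℝ))) = 2 * (C₀ * Bw) * (Wg (v + 1) : ℝ) by ring]
      · rw [hLm]
        show wd μ s (B * T (v + 1)) ≤ 2 * (C₀ * Bw) * (Wg v : ℝ)
        have b1 := mul_le_mul_of_nonneg_left u2 hC0
        have b2 := mul_le_mul_of_nonneg_left f0 (show 0 ≤ C₀ * Bw by positivity)
        linarith only [u1, b1, b2, show C₀ * Bw * (2 * (Wg v : ℝ)) = 2 * (C₀ * Bw) * (Wg v : ℝ) by ring,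
          show C₀ * (Bw * wd μ s (T v)) = C₀ * Bw * wd μ s (T v) by ring]
    have hcol := (hG.col (v := v + 1) (by omega) (by omega)).1
    have hb : |(((pt x).2 : ℝ) + sl μ s * ((r (v + 1) : ℝ) - ((pt x).1 : ℝ))) -
        ceC6 (la89 μ s) (sl μ s) (lc77 G T x (v + 1)) (lc77 G T x v)| ≤ 1 ^ (v + 1 - b) *
          wd μ s (Hl89 B T (lc77 G T x (v + 1)) (lc77 G T x v)) := by
      rw [hHl, one_pow, one_mul]
      have e2 : (r (v + 1) : ℝ) = (((lc77 G T x (v + 1)).row : ℤ) : ℝ) := by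
        rw [← hrz (v + 1) (by omega) (by omega)]
        push_cast
        rfl
      have e1 : (((pt x).2 : ℝ) + sl μ s * ((r (v + 1) : ℝ) - ((pt x).1 : ℝ))) -
          ceC6 (la89 μ s) (sl μ s) (lc77 G T x (v + 1)) (lc77 G T x v) =
          -(la89 μ s (lc77 G T x (v + 1)) - ((x.2 : ℝ) - sl μ s * (x.1 : ℝ))) := by
        unfold ceC6
        rw [e2]
        show ((x.2 : ℤ) : ℝ) + sl μ s * ((((lc77 G T x (v + 1)).row : ℤ) : ℝ) - (((x.1 : ℕ) : ℤ) : ℝ)) - _ = _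
        push_cast
        ring
      rw [e1, abs_neg]
      linarith only [hcol]
    obtain ⟨β', b1, b2⟩ := stF_line (R := 1) (Th := 1) (l := v + 1 - b) (by linarith only [hΦ2])
      (by rw [hHl]; exact hw) le_rfl zero_le_one le_rfl (by rw [Real.one_rpow]) (by positivity) h1 hst1 hb
    rw [hHl, hnR v (by omega) hv2] at b2
    rw [hHl] at b1
    rw [one_pow, mul_one, ← hrz (v + 1) (by omega) (by omega)] at b2
    exact ⟨β', b1, b2⟩
  choose! β hβ using hst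
  have key := HL hC le_rfl (hY1.trans hYY) hYc (R := R) (ρ := 1) le_rfl (by rw [one_pow]; exact hR1) hRm hl hSw.q1 hSw.q2
    (η := ω) (κ := pt x) (r := r) (T := fun v => B * T (v + 1)) (Tn := fun v => 2 * T (v + 1)) (N := fun v => r v - r (v + 1))
    (q := fun v => 3 * (Y₀ * (17 / 16) ^ (v + 1 - b))) (bs := fun v => ((r (v + 1) : ℤ), co89 μ s (lc77 G T x (v + 1))))
    (w := Wg) (be := β) (f := b) (m := L - b) (mt := M - b) (Θ := 17 / 16) (B₁ := 3 * Bp)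
    (xc := fun k => co89 μ s (lc77 G T x (b + k))) (by norm_num) (by norm_num)
    (le_trans (by norm_num) hΦ2) (by omega) ?_ ?_ le_rfl (by rw [hbL]; exact hM1) (by rw [hbL]; exact hN) ?_ ?_ ?_ ?_ ?_ ?_ ?_ ?_ ?_ ?_
  · -- conclusion
    have hEE : EE μ s (B * T (b + 1)) ≤ 2 * (B * K) * EE μ s (T b) := by
      have h1 := Pool.Agent.W_7d29a1_HS.EE_le_mul h0 (n' := T b) (n := B * T (b + 1)) (hT0 b hb1) (by
        have := hT2 b hb1
        exact (by omega : T b ≤ T (b + 1)).trans (Nat.le_mul_of_pos_left _ (by omega)))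
      have h2 : (0 : ℝ) < T b := by exact_mod_cast hT0 b hb1
      rw [hT.TK b hb1] at h1 ⊢
      push_cast at h1
      have h3 : EE μ s (B * (K * T b)) * T b ≤ (2 * (B * K) * EE μ s (T b)) * T b := by
        refine h1.trans (le_of_eq ?_)
        ring
      exact le_of_mul_le_mul_right h3 h2
    have hww : ∀ n, b + n ≤ M → wd μ s (T (b + n)) ≤ 2 * wd μ s (B * T (b + n + 1)) := fun n hn => by
      refine U16.wd_le_two h0 (hT0 (b + n) (by omega)) ?_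
      have := hT2 (b + n) (by omega)
      exact (by omega : T (b + n) ≤ T (b + n + 1)).trans (Nat.le_mul_of_pos_left _ (by omega))
    have hfin : Lr31 μ s (pt x) T M 2 (2 * (B * K) * A₀) (Φ₀ ^ pw) σ (fh84 μ s Γ.h ω (pr70 s Γ.h M') M' l (r b)) (r b) b := by
      intro n hn y y₀ hy0 hy
      have h1 := key n (by omega) y y₀
        (hy0.trans (by
          have := hww n hn
          show 2 * wd μ s (T (b + n)) ≤ 4 * wd μ s (B * T (b + n + 1))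
          linarith only [this]))
        (hy.trans (by
          have := hww (M - b) (by omega)
          rw [show b + (M - b) = M by omega] at this
          show 2 * wd μ s (T M) ≤ 4 * wd μ s (B * T (b + (M - b) + 1))
          rw [show b + (M - b) = M by omega]
          linarith only [this]))
      refine h1.trans (mul_le_mul_of_nonneg_right (Real.exp_le_exp.2 (add_le_add ?_ ?_)) (fh_nonneg hSw.pos' hl _ _))
      · show A₀ * (Φ₀ ^ (pw * n) * EE μ s (B * T (b + 1))) ≤ 2 * (B * K) * A₀ * ((Φ₀ ^ pw) ^ n * EE μ s (T b))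
        rw [pow_mul]
        have h2 := mul_le_mul_of_nonneg_left hEE (show 0 ≤ A₀ * (Φ₀ ^ pw) ^ n by positivity)
        calc _ = A₀ * (Φ₀ ^ pw) ^ n * EE μ s (B * T (b + 1)) := by ring
          _ ≤ _ := h2
          _ = _ := by ring
      · show σ / (4 * (B * K)) * (EE μ s (B * T (b + 1)) / wd μ s (B * T (b + 1))) * |(y : ℝ) - y₀| ≤
          σ * (EE μ s (T b) / wd μ s (T b)) * |(y : ℝ) - y₀|
        refine mul_le_mul_of_nonneg_right ?_ (abs_nonneg _)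
        have w0 := h0.wd_pos (n := T b) (hT0 b hb1)
        have w1 := h0.wd_pos (n := B * T (b + 1)) ((hT0 (b + 1) (by omega)).trans (Nat.le_mul_of_pos_left _ (by omega)))
        have w2 := hww 0 (by omega)
        rw [Nat.add_zero] at w2
        have h2 : EE μ s (B * T (b + 1)) / wd μ s (B * T (b + 1)) ≤ 4 * (B * K) * (EE μ s (T b) / wd μ s (T b)) := by
          rw [div_le_iff₀ w1]
          have h3 : EE μ s (T b) ≤ 2 * (EE μ s (T b) / wd μ s (T b)) * wd μ s (B * T (b + 1)) := by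
            have h4 : EE μ s (T b) = EE μ s (T b) / wd μ s (T b) * wd μ s (T b) := by field_simp
            have h5 := mul_le_mul_of_nonneg_left w2 (show 0 ≤ EE μ s (T b) / wd μ s (T b) from
              div_nonneg (EE_pos (μ := μ) (s := s) (T b)).le w0.le)
            linarith only [h4, h5]
          have h4 := mul_le_mul_of_nonneg_left h3 (show 0 ≤ 2 * ((B : ℝ) * K) by positivity)
          linarith only [hEE, h4]
        calc _ ≤ σ / (4 * (B * K)) * (4 * (B * K) * (EE μ s (T b) / wd μ s (T b))) := mul_le_mul_of_nonneg_left h2 (by positivity)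
          _ = _ := by field_simp
    have h2 := lr_past70 (η := ω) hSw s0 s1 hl (one_le_pow₀ hΦ1) (by
      have := one_le_EE (μ := μ) (s := s) (T b)
      linarith only [this, hhD, hhD0]) hfin
    rw [hr] at h2
    exact h2
  · -- the layers
    refine ⟨fun v _ _ => by positivity, fun v h1 h2 => ?_, fun v h1 h2 => ?_, fun v h1 h2 => (hrr v (by omega) (by omega)).1,
      fun v h1 h2 => le_rfl, fun v h1 h2 => ?_, fun v h1 h2 => ?_, fun v h1 h2 => ?_, fun v h1 h2 => hforce (v + 1) (by omega) (by omega),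
      fun v h1 h2 => ?_⟩
    · exact (l1.trans (hTn (v + 1) (by omega))).trans (Nat.le_mul_of_pos_left _ (by omega))
    · exact (hrr v (by omega) (by omega)).2.1.trans (Nat.mul_le_mul_right _ hB)
    · have := (hrr v (by omega) (by omega)).1
      show ((r v : ℕ) : ℤ) ≤ ((r (v + 1) : ℕ) : ℤ) + ((r v - r (v + 1) : ℕ) : ℤ)
      omega
    · have := (hG.col (v := v + 1) (by omega) (by omega)).2
      rw [← hr] at this
      exact this
    · obtain ⟨P', Q', hZ⟩ := split_lc77 (G := G) (T := T) (x := x) (L := L) (v := v) (by omega) (by omega)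
      have h3 := (ok_lay6 hLv hLs hY₀0 (by norm_num) hok hZ (l := v + 1 - b) (by rw [lb89]; omega) (by rw [lb89]; omega) (by omega)).1
      unfold lvS at h3
      have a1 := hrr v (by omega) (by omega)
      rw [hg6_eq (by
        rw [hHl, ← hrz v (by omega) (by omega), ← hrz (v + 1) (by omega) (by omega)]
        have a2 : r v - r (v + 1) ≤ B * T (v + 1) := a1.2.1.trans (Nat.mul_le_mul_right _ hB)
        push_cast
        have a3 : ((r v : ℕ) : ℤ) ≤ (r (v + 1) : ℤ) + ((B * T (v + 1) : ℕ) : ℤ) := by omega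
        push_cast at a3
        exact a3), hHl, hnR v (by omega) (by omega), ← hrz (v + 1) (by omega) (by omega)] at h3
      refine Far16_mono ?_ _ _ _ _ h3
      show Y₀ * (17 / 16) ^ (v + 1 - b) ≤ 3 * (Y₀ * (17 / 16) ^ (v + 1 - b))
      have : 0 ≤ Y₀ * (17 / 16 : ℝ) ^ (v + 1 - b) := by positivity
      linarith only [this]
    · have a1 := (hrr v (by omega) (by omega)).2.2
      have a2 : (T (v + 1) : ℝ) ≤ 2 * ((r v - r (v + 1) : ℕ) : ℝ) := by exact_mod_cast a1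
      show θ * ((B * T (v + 1) : ℕ) : ℝ) ≤ ((r v - r (v + 1) : ℕ) : ℝ)
      push_cast at a2 ⊢
      calc θ * ((B : ℝ) * T (v + 1)) = θ * B * T (v + 1) := by ring
        _ = T (v + 1) / 2 := by
          rw [hθB]
          ring
        _ ≤ _ := by linarith only [a2]
  · -- the steep levels
    refine ⟨fun v h1 h2 => ?_, fun v h1 h2 => ?_, fun v h1 h2 => (hβ v (by omega) (by omega)).1, fun v h1 h2 => (hβ v (by omega) (by omega)).2⟩
    · have w0 := hT.w3 v (by omega)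
      have f0 := Int.lt_floor_add_one (wd μ s (T v))
      rw [← hWg'] at f0
      have : (0 : ℝ) < (Wg v : ℝ) := by linarith only [f0, w0]
      exact_mod_cast this
    · have f0 := Int.floor_le (wd μ s (T (v + 1)))
      rw [← hWg'] at f0
      exact f0.trans (hT.wB' (v + 1) (by omega))
  · -- the heights
    intro v h1 h2
    show K₂' * (B * T (v + 1)) ≤ B * T (v + 1 + 1) ∧ B * T (v + 1 + 1) ≤ K * (B * T (v + 1))
    rw [hT.TK (v + 1) (by omega)]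
    have a1 : K₂' * T (v + 1) ≤ K * T (v + 1) := Nat.mul_le_mul_right _ (k2.trans hKK)
    constructor
    · calc K₂' * (B * T (v + 1)) = B * (K₂' * T (v + 1)) := by ring
        _ ≤ B * (K * T (v + 1)) := Nat.mul_le_mul_left _ a1
    · exact le_of_eq (by ring)
  · intro v h1 h2
    show K₂' * (2 * T (v + 1)) ≤ 2 * T (v + 1 + 1) ∧ 2 * T (v + 1 + 1) ≤ K * (2 * T (v + 1))
    rw [hT.TK (v + 1) (by omega)]
    have a1 : K₂' * T (v + 1) ≤ K * T (v + 1) := Nat.mul_le_mul_right _ (k2.trans hKK)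
    constructor
    · calc K₂' * (2 * T (v + 1)) = 2 * (K₂' * T (v + 1)) := by ring
        _ ≤ 2 * (K * T (v + 1)) := Nat.mul_le_mul_left _ a1
    · exact le_of_eq (by ring)
  · intro v h1 h2
    show 2 * T (v + 1) ≤ B * T (v + 1) ∧ B * T (v + 1) ≤ B * (2 * T (v + 1))
    exact ⟨Nat.mul_le_mul_right _ hB, Nat.mul_le_mul_left _ (by omega)⟩
  · intro v h1 h2
    have a1 := hTn (v + 1) (by omega)
    show n₁ ≤ 2 * T (v + 1) ∧ 4 * n₃ ≤ 2 * T (v + 1)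
    omega
  · intro v h1 h2
    have a1 := hrr v (by omega) (by omega)
    show r v ≤ r (v + 1) + 2 * T (v + 1) ∧ 2 * T (v + 1) ≤ 4 * (r v - r (v + 1))
    omega
  · show n₁ * K₂' ^ ((M - b + 1) / Cn) ≤ B * T (b + 1)
    calc n₁ * K₂' ^ ((M - b + 1) / Cn) ≤ n₁' * K₂ ^ ((M - b + 1) / Cn) := Nat.mul_le_mul l1 (Nat.pow_le_pow_left k2 _)
      _ ≤ T (b + 1) := hcone
      _ ≤ B * T (b + 1) := Nat.le_mul_of_pos_left _ (by omega)
  · intro v h1 h2
    show 3 * (Y₀ * (17 / 16) ^ (v + 1 - b)) ≤ q₀ * (17 / 16) ^ (v - b)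
    rw [hq₀, show v + 1 - b = (v - b) + 1 by omega, pow_succ]
    exact le_of_eq (by ring)
  · intro k hk1 hk2
    obtain ⟨j, rfl⟩ : ∃ j, k = j + 1 := ⟨k - 1, by omega⟩
    obtain ⟨P', Q', hZ⟩ := split3_lc77 (G := G) (T := T) (x := x) (L := L) (v := b + j) (by omega) (by omega)
    have h1 := (ok_nod6 hLv hY₀0 (by norm_num) hok hZ (fun h => by
      obtain ⟨i, hi, -⟩ := h
      exact absurd hi (Finset.notMem_empty i)) (l := j + 1) (by show b ≤ b + j + 1 + (j + 1); omega) (by show b + j + 1 ≤ b + (j + 1); omega)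
      (by omega)).1
    have h2 := hnd (j + 1) (by omega) hk2
    have e1 := hnR (b + j) (by omega) (by omega)
    have e2 := hnR (b + j + 1) (by omega) (by omega)
    have e3 := lb89 (G := G) (T := T) (x := x) (b + j)
    have e4 := lb89 (G := G) (T := T) (x := x) (b + j + 1)
    simp only [Nat.add_sub_cancel] at h2 ⊢
    have hnd' : NdOk μ s θn (4 * K * 4) n₃ (nR (lc77 G T x (b + j + 1)) (lc77 G T x (b + j)))
        (nR (lc77 G T x (b + j + 2)) (lc77 G T x (b + j + 1)))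
        (wN (lc77 G T x (b + j + 2)) (lc77 G T x (b + j + 1)) (lc77 G T x (b + j)))
        (qN (lc77 G T x (b + j + 2)) (lc77 G T x (b + j + 1)) (lc77 G T x (b + j))) := by
      rw [hwN, hqN]
      show NdOk μ s θn (4 * K * 4) n₃ (nR (lc77 G T x (b + j + 1)) (lc77 G T x (b + j)))
        (nR (lc77 G T x (b + j + 1 + 1)) (lc77 G T x (b + j + 1)))
        (wd μ s (2 * T (lb6 (lc77 G T x (b + j + 1)) (lc77 G T x (b + j)))))
        (wd μ s (2 * T (lb6 (lc77 G T x (b + j + 1 + 1)) (lc77 G T x (b + j + 1)))) /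
          wd μ s (2 * T (lb6 (lc77 G T x (b + j + 1)) (lc77 G T x (b + j)))))
      rw [e1, e2, e3, e4]
      exact h2
    rw [dpXP_eq ω hnd'] at h1
    rw [hwN, hqN] at h1
    unfold nuP at h1
    have h1' : Cn * nu μ s c₀ δ₁ Y (wd μ s (2 * T (lb6 (lc77 G T x (b + j + 1)) (lc77 G T x (b + j)))))
        (wd μ s (2 * T (lb6 (lc77 G T x (b + j + 1 + 1)) (lc77 G T x (b + j + 1)))) /
          wd μ s (2 * T (lb6 (lc77 G T x (b + j + 1)) (lc77 G T x (b + j))))) R (-(lc77 G T x (b + j)).row)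
        (nR (lc77 G T x (b + j + 1)) (lc77 G T x (b + j))) (nR (lc77 G T x (b + j + 1 + 1)) (lc77 G T x (b + j + 1)))
        (-co89 μ s (lc77 G T x (b + j + 1))) (rv 0 ω) ≤ j + 1 := h1
    rw [e1, e2, e3, e4, ← hrz (b + j) (by omega) (by omega)] at h1'
    rw [Nat.zero_add]
    exact h1'
  · intro k hk1 hk2
    have h1 := (hG.col (v := b + k) (by omega) (by omega)).2
    rw [← hr] at h1
    have h2 := hT.wB (b + k) (by omega)
    have h3 := hT.w2 (b + k) (by omega)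
    show |lat16 μ s (pt x) ((r (b + k) : ℤ), co89 μ s (lc77 G T x (b + k)))| ≤ C₀ ^ 2 * ((1 : ℕ) : ℝ) ^ (0 + k) * wd μ s (2 * T (b + (k - 1) + 1))
    rw [show b + (k - 1) + 1 = b + k by omega, Nat.cast_one, one_pow, mul_one]
    have h4 := mul_le_mul_of_nonneg_left h3 (show 0 ≤ C₀ by linarith only [hC₀])
    linarith only [h1, h2, h4, show C₀ * (C₀ * wd μ s (2 * T (b + k))) = C₀ ^ 2 * wd μ s (2 * T (b + k)) by ring]
  · intro y hy
    have h1 := htop' y (by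
      refine hy.trans (le_of_eq ?_)
      show 4 * wd μ s (B * T (b + (M - b + 1) + 1)) = _
      rw [show b + (M - b + 1) + 1 = M + 2 by omega])
    rw [hbL]
    show 16 * (((r b - r L : ℕ) : ℝ) * PMP84 μ s Γ.h ω (pr70 s Γ.h M') M' l (r b) (r L) y
        (fun z => 4 ^ (L - b - (M - b + 4)) * wd μ s (2 * T (b + (L - b - 1) + 1)) ≤ |lt μ s (pt x) r L z - lt μ s (pt x) r b y|)) ≤ _
    rw [show L - b - (M - b + 4) = L - M - 4 by omega, show b + (L - b - 1) + 1 = L by omega]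
    exact h1

end

end Pool.Agent.W_7d29a1_C1.TmR89
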