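import Pool.Agent.W_7d29a1_C1.TopC16
import Pool.Agent.W_7d29a1_C1.HpE39

/-!
MP_7d29a1_pr, [C1] attractor route, TAME: THE CRUDE (D2), EVENTUALLY. (helper16)

`evn_top16` : `topC16` in the form `Evn`, in the unit of every scale `t` between the base height and the last one; no condition on the switch
row is left.
-/

set_option autoImplicit false

namespace Pool.Agent.W_7d29a1_C1.U16

open MeasureTheory ProbabilityTheory Filter Topology Finset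
open Pool.Agent.W_7d29a1_F Pool.Agent.W_7d29a1_h4g Pool.Agent.W_7d29a1_H Pool.Agent.W_7d29a1_HS
open Pool.Agent.W_7d29a1_C1.Win84
open Pool.Agent.W_7d29a1_C1.H60 (Cx Adm)
open Pool.Agent.W_7d29a1_C1.H40 (Tk)
open Pool.Agent.W_7d29a1_C1.G37 (Gm Wok gmW)
open Pool.Agent.W_7d29a1_C1.N49
open Pool.Agent.W_7d29a1_C1.Q49
open Pool.Agent.W_7d29a1_C1.Hp39

noncomputable section

variable {μ : Measure ℝ} {s c C : ℝ} {n₀ : ℕ} [IsProbabilityMeasure μ] {P : Pre} {Dd : Dat}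

/-- The probability of the bad event is at most `n ^ (-5)`. -/
theorem exp_le_five16 {c' : ℝ} (hc' : 0 < c') : ∃ n₁ : ℕ, 1 ≤ n₁ ∧ ∀ n : ℕ, n₁ ≤ n → Real.exp (-(n : ℝ) ^ c') ≤ (n : ℝ) ^ (-(5 : ℝ)) := by
  have h1 := (isLittleO_log_rpow_atTop hc').bound (show (0 : ℝ) < 1 / 5 by norm_num)
  have h2 := tendsto_natCast_atTop_atTop (R := ℝ) |>.eventually h1
  obtain ⟨n₁, hn₁⟩ := eventually_atTop.1 h2
  refine ⟨max n₁ 1, le_max_right _ _, fun n hn => ?_⟩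
  have h3 := hn₁ n ((le_max_left _ _).trans hn)
  have h4 : (1 : ℝ) ≤ n := by exact_mod_cast (le_max_right _ _).trans hn
  have h5 : (0 : ℝ) < n := by linarith only [h4]
  rw [Real.norm_of_nonneg (Real.log_nonneg h4), Real.norm_of_nonneg (Real.rpow_nonneg h5.le _)] at h3
  rw [Real.rpow_def_of_pos h5 (-(5 : ℝ)), Real.exp_le_exp]
  linarith only [h3]

/-- `topC16`, eventually, with its side conditions. -/
theorem evn_topS16 (h0 : In μ s c C n₀) (hL : LB84 μ s) (HY : CrY16 μ s) {e₁ : ℝ} (he₁ : 0 < e₁) {σ K₁ : ℝ} (hσ : 0 < σ) (hσ1 : σ ≤ 1)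
    (hK₁ : 1 ≤ K₁) : Evn P Dd μ s fun _ _ _ _ n Γ G _ _ _ => ∃ bad : Set Env, law μ bad ≤ ENNReal.ofReal ((n : ℝ) ^ (-(5 : ℝ))) ∧
      ∀ η ∉ bad, ∀ {M' : ℕ} {p' : ℕ → ℝ}, M' ≤ Γ.M → (∀ k, k < M' → p' k = Real.exp (s + Γ.h)) → (∀ k, M' ≤ k → p' k = Real.exp s) →
      ∀ {a t : ℕ}, a + 1 ≤ Γ.N → (t ≤ M' - a ∨ |Γ.h| * ((M' - a : ℕ) : ℝ) ≤ 1) → G.T0 ≤ t → (t : ℝ) ≤ (n : ℝ) ^ (1 / 4 : ℝ) →
      ∀ {x₀ : ℝ} {x x' : ℤ}, |x'| ≤ 4 * Γ.N → |(x' : ℝ) - x₀| ≤ K₁ * wd μ s t →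
        bh16 μ s Γ.h η p' M' Γ.N a x ≤ Real.exp (((n : ℝ) ^ e₁ + σ * (|(x : ℝ) - x₀| / wd μ s t)) * EE μ s t) *
          bh16 μ s Γ.h η p' M' Γ.N a x' := by
  refine ⟨0, fun q _ => ⟨0, fun m2 _ η hη A hA => ⟨0, fun lam _ => ⟨0, fun m0 _ g1 hg1 e0 he0 => ?_⟩⟩⟩⟩
  obtain ⟨κ₀, c', hκ₀, hc', H⟩ := topC16 h0 hL HY he0 he₁
  obtain ⟨n₁, hn₁, H⟩ := H σ K₁ hσ hσ1 hK₁
  obtain ⟨n₂, -, hn₂⟩ := exp_le_five16 hc'
  refine ⟨1, one_pos, le_rfl, fun c₂ hc hc1 δ hδ hδ' => ⟨κ₀, hκ₀, fun κ hκ hκ' => ⟨max n₁ n₂, fun n hn => ?_⟩⟩⟩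
  intro Γ T0 M mt τ0 hct hW _ _
  obtain ⟨bad, hb, H⟩ := H ((le_max_left _ _).trans hn) hc1 hκ' hct.adm
  refine ⟨bad, ?_, fun η hη M' p' hM' h1 h2 a t ha hsw ht ht' x₀ x x' hx' hxx =>
    H η hη hM' h1 h2 ha hsw (hct.T0_ge.trans (by exact_mod_cast ht)) ht' hx' hxx⟩
  rw [← ofReal_measureReal]
  exact ENNReal.ofReal_le_ofReal (hb.trans (hn₂ n ((le_max_right _ _).trans hn)))

/-- **THE CRUDE (D2), EVENTUALLY.** -/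
theorem evn_top16 (h0 : In μ s c C n₀) (hL : LB84 μ s) (HY : CrY16 μ s)
    (hE9 : ∀ᶠ n : ℕ in atTop, (n : ℝ) ^ (1 / 9 : ℝ) ≤ EE μ s n) {e₁ : ℝ} (he₁ : 0 < e₁) {σ K₁ : ℝ} (hσ : 0 < σ) (hσ1 : σ ≤ 1)
    (hK₁ : 1 ≤ K₁) : Evn P Dd μ s fun _ _ _ _ n Γ G mt _ _ => ∃ bad : Set Env, law μ bad ≤ ENNReal.ofReal ((n : ℝ) ^ (-(5 : ℝ))) ∧
      ∀ η ∉ bad, ∀ {M' : ℕ} {p' : ℕ → ℝ}, M' ≤ Γ.M → (∀ k, k < M' → p' k = Real.exp (s + Γ.h)) → (∀ k, M' ≤ k → p' k = Real.exp s) →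
      ∀ {a t : ℕ}, a + 1 ≤ Γ.N → G.T0 ≤ t → t ≤ 8 * G.K ^ 2 * G.T mt → ∀ {x₀ : ℝ} {x x' : ℤ}, |x'| ≤ 4 * Γ.N →
        |(x' : ℝ) - x₀| ≤ K₁ * wd μ s t →
        bh16 μ s Γ.h η p' M' Γ.N a x ≤ Real.exp (((n : ℝ) ^ e₁ + σ * (|(x : ℝ) - x₀| / wd μ s t)) * EE μ s t) *
          bh16 μ s Γ.h η p' M' Γ.N a x' := by
  obtain ⟨n₁, hn₁⟩ := eventually_atTop.1 (ev84 (2 * (Dd.K : ℝ) ^ 2) (show (0 : ℝ) < 1 / 4 - 1 / 32 by norm_num))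
  refine ((((((evn_topS16 h0 hL HY he₁ hσ hσ1 hK₁).and (evn_tilt h0 hE9 one_pos)).and evn_top).and
    (evn_T0 fun _ _ _ _ _ _ _ => 8 * Dd.K ^ 2)).and (evn_n fun _ _ _ _ _ _ _ => max n₁ 3)).and evn_geo).mono
    fun q η A lam n Γ G mt τ0 E h => ?_
  obtain ⟨⟨⟨⟨⟨⟨bad, hb, H⟩, -, h1⟩, h2⟩, h3⟩, h4⟩, -, -, hGK, -⟩ := h
  have hn3 : 3 ≤ n := (le_max_right _ _).trans h4
  have hnR : (3 : ℝ) ≤ n := by exact_mod_cast hn3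
  have hn0 : (0 : ℝ) < n := by linarith only [hnR]
  have b1 := hn₁ n ((le_max_left _ _).trans h4)
  have hT0 : G.T0 ≤ G.T mt := by
    have h5 := G.T_mono (Nat.zero_le mt)
    have h6 : G.T 0 = G.T0 := by
      show G.T0 * G.K ^ 0 = G.T0
      rw [pow_zero, mul_one]
    omega
  refine ⟨bad, hb, fun η hη M' p' hM' hp hp' a t ha ht ht' x₀ x x' hx' hxx => ?_⟩
  have e1 : (t : ℝ) ≤ 8 * (Dd.K : ℝ) ^ 2 * G.T mt := by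
    rw [← hGK]
    exact_mod_cast ht'
  have hTp : (0 : ℝ) ≤ G.T mt := Nat.cast_nonneg _
  refine H η hη hM' hp hp' ha ?_ ht ?_ hx' hxx
  · by_cases hc : t ≤ M' - a
    · exact Or.inl hc
    refine Or.inr ?_
    push Not at hc
    have e2 : ((M' - a : ℕ) : ℝ) ≤ t := by exact_mod_cast hc.le
    have e3 := (h1 mt le_rfl).2
    have e4 : (1 : ℝ) ≤ 1 + Real.log n := by
      have := Real.log_nonneg (show (1 : ℝ) ≤ n by linarith only [hnR])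
      linarith only [this]
    have e5 : (8 : ℝ) * (Dd.K : ℝ) ^ 2 ≤ G.T mt := by exact_mod_cast h3.trans hT0
    have e6 : (1 : ℝ) ≤ G.T mt := by
      have h7 : (3 : ℝ) ≤ Dd.K := by exact_mod_cast Dd.hK
      nlinarith only [e5, h7]
    have e7 : 8 * (Dd.K : ℝ) ^ 2 * G.T mt ≤ (G.T mt : ℝ) ^ 3 * (1 + Real.log n) := by
      calc 8 * (Dd.K : ℝ) ^ 2 * G.T mt ≤ G.T mt * G.T mt := mul_le_mul_of_nonneg_right e5 hTp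
        _ ≤ (G.T mt : ℝ) ^ 3 := by nlinarith only [mul_nonneg hTp hTp, e6]
        _ = (G.T mt : ℝ) ^ 3 * 1 := (mul_one _).symm
        _ ≤ _ := mul_le_mul_of_nonneg_left e4 (by positivity)
    exact (mul_le_mul_of_nonneg_left (e2.trans (e1.trans e7)) (abs_nonneg _)).trans e3
  · have e2 := h2 mt le_rfl
    have e3 : (n : ℝ) ^ (1 / 4 : ℝ) = (n : ℝ) ^ (1 / 4 - 1 / 32 : ℝ) * (n : ℝ) ^ (1 / 32 : ℝ) := by
      rw [← Real.rpow_add hn0]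
      norm_num
    have e4 : 0 ≤ (n : ℝ) ^ (1 / 32 : ℝ) := Real.rpow_nonneg hn0.le _
    rw [e3]
    calc (t : ℝ) ≤ 8 * (Dd.K : ℝ) ^ 2 * G.T mt := e1
      _ = 2 * (Dd.K : ℝ) ^ 2 * (4 * G.T mt) := by ring
      _ ≤ 2 * (Dd.K : ℝ) ^ 2 * (n : ℝ) ^ (1 / 32 : ℝ) := mul_le_mul_of_nonneg_left e2 (by positivity)
      _ ≤ _ := mul_le_mul_of_nonneg_right b1 e4

end

end Pool.Agent.W_7d29a1_C1.U16
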