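import Pool.Agent.W_7d29a1_C1.DepT6

/-!
MP_7d29a1_pr, the attractor route [C1], TAME: THE LEVELS OF ALL SCALES AT THE TOP ROW OF A LAYER. (helper63)

A start `(k, y)` with few rows left in its layer is not controlled by the level of the layer (a cost only for `≥ θ n` rows). `Tp63` : the
levels `Far16` of the boxes of `2 ^ i` rows which end at the top row, for all `j₁ ≤ i`, `2 ^ i ≤ N`, with the level `q (N / 2 ^ i) ^ ε`, and
the sites of the last `2 ^ j₁` rows. `tp_prob` : the probability. `tpS` : the family of layers; `LvF.inter63`; `lt_fam63` : the levels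
of the layers and of their top rows are one family.
-/

set_option autoImplicit false

namespace Pool.Agent.W_7d29a1_C1.TpF63

open MeasureTheory ProbabilityTheory Finset Filter
open Pool.Agent.W_7d29a1_F Pool.Agent.W_7d29a1_h4g Pool.Agent.W_7d29a1_H Pool.Agent.W_7d29a1_HS
open Pool.Agent.W_7d29a1_C1.H75 Pool.Agent.W_7d29a1_C1.U16 Pool.Agent.W_7d29a1_C1.H40 Pool.Agent.W_7d29a1_C1.Dep6
open Pool.Agent.W_7d29a1_h47 (EM Mom)
open scoped ENNReal

noncomputable section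

/-- The site `n` rows below `b` on its line. -/
def dp63 (μ : Measure ℝ) (s : ℝ) (b : Pt) (n : ℕ) : Pt := (b.1 - n, b.2 - ⌊sl μ s * n⌋)

/-- **THE LEVELS AT THE TOP ROW.** -/
def Tp63 (μ : Measure ℝ) (s c θ K ε : ℝ) (P j₁ N : ℕ) (b : Pt) (q : ℝ) : Set Env :=
  {η | (∀ i : ℕ, j₁ ≤ i → 2 ^ i ≤ N → η ∈ Far16 μ s c θ K (2 ^ i) (2 ^ i) P (dp63 μ s b (2 ^ i)) (q * ((N : ℝ) / 2 ^ i) ^ ε)) ∧
    ∀ p : Pt, b.1 - N < p.1 → b.1 - 2 ^ j₁ < p.1 → p.1 ≤ b.1 → |η p| ≤ q * (N : ℝ) ^ ε * (1 + Real.log (1 + |lat16 μ s b p|))}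

variable {μ : Measure ℝ} {s c θ K ε q q' : ℝ} {P j₁ N : ℕ} {b : Pt}

theorem log_nn (x : ℝ) : 0 ≤ Real.log (1 + |x|) := Real.log_nonneg (by linarith [abs_nonneg x])

theorem lat_dp63 (b : Pt) (n : ℕ) : 0 ≤ lat16 μ s b (dp63 μ s b n) ∧ lat16 μ s b (dp63 μ s b n) < 1 := by
  have f1 := Int.floor_le (sl μ s * n)
  have f2 := Int.lt_floor_add_one (sl μ s * n)
  have e : lat16 μ s b (dp63 μ s b n) = sl μ s * n - ⌊sl μ s * n⌋ := by
    unfold lat16 dp63
    push_cast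
    ring
  rw [e]
  constructor <;> linarith

theorem Tp63_mono (hq : q ≤ q') : Tp63 μ s c θ K ε P j₁ N b q ⊆ Tp63 μ s c θ K ε P j₁ N b q' := by
  rintro η ⟨h1, h2⟩
  refine ⟨fun i hi hN => Far16_mono (mul_le_mul_of_nonneg_right hq (by positivity)) _ _ _ _ (h1 i hi hN), fun p h3 h4 h5 => ?_⟩
  refine (h2 p h3 h4 h5).trans ?_
  have := log_nn (lat16 μ s b p)
  exact mul_le_mul_of_nonneg_right (mul_le_mul_of_nonneg_right hq (by positivity)) (by linarith)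

theorem Tp63_meas : MeasurableSet (Tp63 μ s c θ K ε P j₁ N b q) := by
  have e : Tp63 μ s c θ K ε P j₁ N b q =
      (⋂ i : ℕ, {η | j₁ ≤ i → 2 ^ i ≤ N → η ∈ Far16 μ s c θ K (2 ^ i) (2 ^ i) P (dp63 μ s b (2 ^ i)) (q * ((N : ℝ) / 2 ^ i) ^ ε)}) ∩
      ⋂ p : Pt, {η | b.1 - N < p.1 → b.1 - 2 ^ j₁ < p.1 → p.1 ≤ b.1 → |η p| ≤ q * (N : ℝ) ^ ε * (1 + Real.log (1 + |lat16 μ s b p|))} := by
    ext η
    simp only [Tp63, Set.mem_inter_iff, Set.mem_iInter, Set.mem_ofPred_eq]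
  rw [e]
  refine (MeasurableSet.iInter fun i => ?_).inter (MeasurableSet.iInter fun p => ?_)
  · by_cases h1 : j₁ ≤ i
    · by_cases h2 : 2 ^ i ≤ N
      · simp only [h1, h2, true_imp_iff]
        exact Far16_meas _ _ _ _ _ _ _
      · simp only [h2, false_imp_iff, imp_true_iff]
        exact MeasurableSet.univ
    · simp only [h1, false_imp_iff]
      exact MeasurableSet.univ
  · by_cases h : b.1 - N < p.1 ∧ b.1 - 2 ^ j₁ < p.1 ∧ p.1 ≤ b.1
    · obtain ⟨h1, h2, h3⟩ := h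
      simp only [h1, h2, h3, true_imp_iff]
      exact measurableSet_le ((measurable_pi_apply p).abs) measurable_const
    · have e2 : {η : Env | b.1 - N < p.1 → b.1 - 2 ^ j₁ < p.1 → p.1 ≤ b.1 →
          |η p| ≤ q * (N : ℝ) ^ ε * (1 + Real.log (1 + |lat16 μ s b p|))} = Set.univ := by
        ext η
        simp only [Set.mem_ofPred_eq, Set.mem_univ, iff_true]
        exact fun h1 h2 h3 => absurd ⟨h1, h2, h3⟩ h
      rw [e2]
      exact MeasurableSet.univ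

/-- It reads only the last `N` rows. -/
theorem Tp63_rows [IsProbabilityMeasure μ] {η η' : Env} (hh : ∀ p : Pt, b.1 - N < p.1 → p.1 ≤ b.1 → η p = η' p) :
    η ∈ Tp63 μ s c θ K ε P j₁ N b q ↔ η' ∈ Tp63 μ s c θ K ε P j₁ N b q := by
  have key : ∀ {η η' : Env}, (∀ p : Pt, b.1 - N < p.1 → p.1 ≤ b.1 → η p = η' p) → η ∈ Tp63 μ s c θ K ε P j₁ N b q →
      η' ∈ Tp63 μ s c θ K ε P j₁ N b q := by
    rintro η η' hh ⟨h1, h2⟩
    refine ⟨fun i hi hN => (Far16_rows fun p hp => (hh p ?_ ?_)).1 (h1 i hi hN), fun p h3 h4 h5 => ?_⟩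
    · have h3 : (b.1 - (2 ^ i : ℕ) : ℤ) < p.1 := hp.1
      have h4 : ((2 ^ i : ℕ) : ℤ) ≤ N := by exact_mod_cast hN
      linarith
    · have h3 : p.1 ≤ (b.1 - (2 ^ i : ℕ) : ℤ) + (2 ^ i : ℕ) := hp.2
      linarith
    · rw [← hh p h3 h5]
      exact h2 p h3 h4 h5
  exact ⟨key hh, key fun p h1 h2 => (hh p h1 h2).symm⟩

/-! ### The probability -/

/-- One site. -/
theorem site63 [IsProbabilityMeasure μ] (em : EM μ) (p : Pt) (X : ℝ) : (law μ).real {η | X < |η p|} ≤ Mom μ 1 * Real.exp (-X) := by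
  have mp : MeasurePreserving (Function.eval p) (law μ) μ := measurePreserving_eval_infinitePi (fun _ : Pt => μ) p
  have mS : MeasurableSet {u : ℝ | X < |u|} := measurableSet_lt measurable_const measurable_id.abs
  have e1 : (law μ).real {η | X < |η p|} = μ.real {u : ℝ | X < |u|} := by
    have h1 := mp.measure_preimage mS.nullMeasurableSet
    unfold Measure.real
    exact congrArg ENNReal.toReal h1
  rw [e1]
  have hi : Integrable (fun u : ℝ => Real.exp (1 * |u|)) μ := em 1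
  have h2 := mul_meas_ge_le_integral_of_nonneg (μ := μ) (f := fun u : ℝ => Real.exp (1 * |u|)) (ae_of_all _ fun u => (Real.exp_pos _).le) hi
    (Real.exp X)
  have h3 : μ.real {u : ℝ | X < |u|} ≤ μ.real {u : ℝ | Real.exp X ≤ Real.exp (1 * |u|)} := by
    refine measureReal_mono (fun u hu => ?_)
    have hu' : X < |u| := hu
    exact Real.exp_le_exp.2 (by linarith)
  have h4 : Real.exp X * μ.real {u : ℝ | X < |u|} ≤ Mom μ 1 := (mul_le_mul_of_nonneg_left h3 (Real.exp_pos _).le).trans h2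
  rw [Real.exp_neg, ← div_eq_mul_inv, le_div_iff₀ (Real.exp_pos _)]
  linarith

/-- The sites of the last rows. -/
theorem bot63 [IsProbabilityMeasure μ] (em : EM μ) (s : ℝ) (j₁ : ℕ) : ∃ A : ℝ, 0 < A ∧ ∀ (N : ℕ) (b : Pt) {ε q : ℝ}, 0 ≤ ε → 2 ≤ q →
    (law μ).real {η | ∀ p : Pt, b.1 - N < p.1 → b.1 - 2 ^ j₁ < p.1 → p.1 ≤ b.1 →
      |η p| ≤ q * (N : ℝ) ^ ε * (1 + Real.log (1 + |lat16 μ s b p|))}ᶜ ≤ A * Real.exp (-q) := by
  have hsum : Summable fun k : ℕ => (1 : ℝ) / ((k : ℝ) + 1) ^ 2 := by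
    have h1 := (summable_nat_add_iff (f := fun k : ℕ => (1 : ℝ) / (k : ℝ) ^ 2) 1).2 (Real.summable_one_div_nat_pow.2 (by norm_num))
    refine h1.congr fun k => ?_
    push_cast
    rfl
  obtain ⟨S, hS⟩ : ∃ S : ℝ, S = ∑' k : ℕ, (1 : ℝ) / ((k : ℝ) + 1) ^ 2 := ⟨_, rfl⟩
  have hS0 : 0 ≤ S := by rw [hS]; exact tsum_nonneg fun k => by positivity
  have hM : 0 ≤ Mom μ 1 := integral_nonneg fun u => (Real.exp_pos _).le
  obtain ⟨B, hB⟩ : ∃ B : ℝ, B = 8 * Mom μ 1 := ⟨_, rfl⟩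
  have hB0 : 0 ≤ B := by rw [hB]; positivity
  refine ⟨2 ^ j₁ * (B * S) + 1, by positivity, fun N b ε q hε hq => ?_⟩
  -- one site
  obtain ⟨bad, hbad⟩ : ∃ bad : Pt → Set Env, bad = fun p => {η | q * (1 + Real.log (1 + |lat16 μ s b p|)) < |η p|} := ⟨_, rfl⟩
  have one : ∀ (p : Pt) (k : ℕ), (k : ℝ) - 1 ≤ |lat16 μ s b p| → (law μ).real (bad p) ≤ 4 * Mom μ 1 * Real.exp (-q) * (1 / ((k : ℝ) + 1) ^ 2) := by
    intro p k hk
    rw [hbad]
    refine (site63 em p _).trans ?_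
    obtain ⟨l, hl⟩ : ∃ l : ℝ, l = Real.log (1 + |lat16 μ s b p|) := ⟨_, rfl⟩
    have hl0 : 0 ≤ l := by rw [hl]; exact log_nn _
    rw [← hl]
    have hx : 0 < 1 + |lat16 μ s b p| := by linarith [abs_nonneg (lat16 μ s b p)]
    have e1 : Real.exp l = 1 + |lat16 μ s b p| := by rw [hl]; exact Real.exp_log hx
    have h1 : Real.exp (-(q * (1 + l))) ≤ Real.exp (-q) * Real.exp (-(2 * l)) := by
      rw [← Real.exp_add]
      exact Real.exp_le_exp.2 (by nlinarith)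
    have h2 : ((k : ℝ) + 1) / 2 ≤ Real.exp l := by
      rw [e1]
      have h3 := abs_nonneg (lat16 μ s b p)
      have h4 : (k : ℝ) ≤ 1 ∨ 1 ≤ (k : ℝ) := le_total _ _
      rcases h4 with h4 | h4 <;> linarith
    have h3 : Real.exp (-(2 * l)) ≤ 4 * (1 / ((k : ℝ) + 1) ^ 2) := by
      have h4 : Real.exp (-(2 * l)) = (Real.exp l ^ 2)⁻¹ := by
        rw [Real.exp_neg, ← Real.exp_nat_mul]
        congr 2
      rw [h4]
      have h5 : (((k : ℝ) + 1) / 2) ^ 2 ≤ Real.exp l ^ 2 := pow_le_pow_left₀ (by positivity) h2 2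
      calc (Real.exp l ^ 2)⁻¹ ≤ ((((k : ℝ) + 1) / 2) ^ 2)⁻¹ := inv_anti₀ (by positivity) h5
        _ = 4 * (1 / ((k : ℝ) + 1) ^ 2) := by
          field_simp
          norm_num
    calc Mom μ 1 * Real.exp (-(q * (1 + l))) ≤ Mom μ 1 * (Real.exp (-q) * (4 * (1 / ((k : ℝ) + 1) ^ 2))) :=
          mul_le_mul_of_nonneg_left (h1.trans (mul_le_mul_of_nonneg_left h3 (Real.exp_pos _).le)) hM
      _ = _ := by ring
  -- the sites of one row
  obtain ⟨y, hy⟩ : ∃ y : ℕ → ℤ, y = fun j : ℕ => b.2 + ⌊-(sl μ s * (j : ℝ))⌋ := ⟨_, rfl⟩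
  have hlat : ∀ (j : ℕ) (z : ℤ), lat16 μ s b (b.1 - j, y j + z) = z + (⌊-(sl μ s * j)⌋ + sl μ s * j) := by
    intro j z
    rw [hy]
    unfold lat16
    push_cast
    ring
  have hfl : ∀ j : ℕ, -1 ≤ (⌊-(sl μ s * j)⌋ : ℝ) + sl μ s * j ∧ (⌊-(sl μ s * j)⌋ : ℝ) + sl μ s * j ≤ 0 := by
    intro j
    have f1 := Int.floor_le (-(sl μ s * j))
    have f2 := Int.lt_floor_add_one (-(sl μ s * j))
    constructor <;> linarith
  have hp : ∀ (j k : ℕ), (k : ℝ) - 1 ≤ |lat16 μ s b (b.1 - j, y j + (k : ℤ))| := by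
    intro j k
    rw [hlat]
    have h1 := hfl j
    have h2 := le_abs_self (((k : ℤ) : ℝ) + (⌊-(sl μ s * j)⌋ + sl μ s * j))
    push_cast at h2 ⊢
    linarith
  have hm : ∀ (j k : ℕ), (k : ℝ) - 1 ≤ |lat16 μ s b (b.1 - j, y j + (-(k : ℤ)))| := by
    intro j k
    rw [hlat]
    have h1 := hfl j
    have h2 := neg_abs_le (((-(k : ℤ) : ℤ) : ℝ) + (⌊-(sl μ s * j)⌋ + sl μ s * j))
    push_cast at h2 ⊢
    linarith
  have hsub : {η : Env | ∀ p : Pt, b.1 - N < p.1 → b.1 - 2 ^ j₁ < p.1 → p.1 ≤ b.1 →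
      |η p| ≤ q * (N : ℝ) ^ ε * (1 + Real.log (1 + |lat16 μ s b p|))}ᶜ ⊆
      ⋃ j ∈ range (2 ^ j₁), ⋃ k : ℕ, (bad (b.1 - j, y j + (k : ℤ)) ∪ bad (b.1 - j, y j + (-(k : ℤ)))) := by
    intro η hη
    rw [Set.mem_compl_iff, Set.mem_ofPred_eq] at hη
    push Not at hη
    obtain ⟨p, h1, h2, h3, h4⟩ := hη
    have hj : (((b.1 - p.1).toNat : ℕ) : ℤ) = b.1 - p.1 := Int.toNat_of_nonneg (by omega)
    have hN : 1 ≤ N := by
      by_contra hc
      have : N = 0 := by omega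
      subst this
      simp only [Nat.cast_zero, sub_zero] at h1
      omega
    have hNe : (1 : ℝ) ≤ (N : ℝ) ^ ε := Real.one_le_rpow (by exact_mod_cast hN) hε
    have hb : η ∈ bad p := by
      rw [hbad]
      show q * (1 + Real.log (1 + |lat16 μ s b p|)) < |η p|
      refine lt_of_le_of_lt ?_ h4
      have h5 := log_nn (lat16 μ s b p)
      refine mul_le_mul_of_nonneg_right ?_ (by linarith)
      nlinarith
    simp only [Set.mem_iUnion, exists_prop, mem_range]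
    refine ⟨(b.1 - p.1).toNat, ?_, ?_⟩
    · have h5 : (((b.1 - p.1).toNat : ℕ) : ℤ) < ((2 ^ j₁ : ℕ) : ℤ) := by
        rw [hj]
        push_cast
        linarith
      exact_mod_cast h5
    · have e1 : p = (b.1 - ((b.1 - p.1).toNat : ℕ), y (b.1 - p.1).toNat + (p.2 - y (b.1 - p.1).toNat)) := by
        rw [hj]
        ext
        · show p.1 = b.1 - (b.1 - p.1)
          ring
        · show p.2 = _
          ring
      rcases Int.eq_nat_or_neg (p.2 - y (b.1 - p.1).toNat) with ⟨k, hk | hk⟩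
      · refine ⟨k, Or.inl ?_⟩
        rw [← hk, ← e1]
        exact hb
      · refine ⟨k, Or.inr ?_⟩
        rw [← hk, ← e1]
        exact hb
  have hrow : ∀ j ∈ range (2 ^ j₁), law μ (⋃ k : ℕ, (bad (b.1 - j, y j + (k : ℤ)) ∪ bad (b.1 - j, y j + (-(k : ℤ))))) ≤
      ENNReal.ofReal (B * Real.exp (-q) * S) := by
    intro j _
    have hreal : ∀ k : ℕ, law μ (bad (b.1 - j, y j + (k : ℤ)) ∪ bad (b.1 - j, y j + (-(k : ℤ)))) ≤
        ENNReal.ofReal (B * Real.exp (-q) * (1 / ((k : ℝ) + 1) ^ 2)) := by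
      intro k
      rw [← ENNReal.ofReal_toReal (measure_ne_top (law μ) _)]
      refine ENNReal.ofReal_le_ofReal ?_
      refine (measureReal_union_le _ _).trans ?_
      have h1 := one _ k (hp j k)
      have h2 := one _ k (hm j k)
      rw [hB]
      linarith
    refine (measure_iUnion_le _).trans ((ENNReal.tsum_le_tsum hreal).trans ?_)
    rw [← ENNReal.ofReal_tsum_of_nonneg (fun k => by positivity) (hsum.mul_left _), tsum_mul_left, hS]
  have h1 : law μ ({η : Env | ∀ p : Pt, b.1 - N < p.1 → b.1 - 2 ^ j₁ < p.1 → p.1 ≤ b.1 →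
      |η p| ≤ q * (N : ℝ) ^ ε * (1 + Real.log (1 + |lat16 μ s b p|))}ᶜ) ≤ ENNReal.ofReal (2 ^ j₁ * (B * Real.exp (-q) * S)) := by
    refine (measure_mono hsub).trans ((measure_biUnion_finset_le _ _).trans ((sum_le_sum hrow).trans ?_))
    rw [sum_const, card_range, nsmul_eq_mul]
    have e2 : ENNReal.ofReal (2 ^ j₁ * (B * Real.exp (-q) * S)) = ENNReal.ofReal (2 ^ j₁) * ENNReal.ofReal (B * Real.exp (-q) * S) :=
      ENNReal.ofReal_mul (by positivity)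
    have e3 : ((2 ^ j₁ : ℕ) : ℝ≥0∞) = ENNReal.ofReal (2 ^ j₁) := by
      rw [← ENNReal.ofReal_natCast]
      push_cast
      rfl
    rw [e2, e3]
  have h2 := ENNReal.toReal_le_of_le_ofReal (by positivity) h1
  have h3 : 0 < Real.exp (-q) := Real.exp_pos _
  calc _ ≤ 2 ^ j₁ * (B * Real.exp (-q) * S) := h2
    _ ≤ (2 ^ j₁ * (B * S) + 1) * Real.exp (-q) := by linarith

/-- **THE PROBABILITY OF THE LEVELS OF ALL SCALES.** -/
theorem tp_prob [IsProbabilityMeasure μ] {A a g : ℝ} {n₁ : ℕ} (em : EM μ) (hA : 0 < A) (ha : 0 < a) (hg : 0 < g) (hg1 : g ≤ 1)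
    (hε : 0 < ε) (hF : ∀ n : ℕ, n₁ ≤ n → ∀ N : ℕ, N ≤ n → ∀ (b : Pt) (q : ℝ), 0 ≤ q →
      (law μ).real (Far16 μ s c θ K n N P b q)ᶜ ≤ A * Real.exp (-(a * q ^ g))) :
    ∃ (j₁ : ℕ) (A' : ℝ), n₁ ≤ 2 ^ j₁ ∧ 0 < A' ∧ ∀ (N : ℕ) (b : Pt) (q : ℝ), 0 ≤ q →
      (law μ).real (Tp63 μ s c θ K ε P j₁ N b q)ᶜ ≤ A' * Real.exp (-(min a 1 * q ^ g)) := by
  obtain ⟨j₁, hj₁⟩ : ∃ j₁ : ℕ, n₁ ≤ 2 ^ j₁ := ⟨n₁, Nat.lt_two_pow_self.le⟩
  obtain ⟨A₂, hA₂, hbot⟩ := bot63 em s j₁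
  obtain ⟨δ, hδ⟩ : ∃ δ : ℝ, δ = (2 : ℝ) ^ (ε * g) - 1 := ⟨_, rfl⟩
  have hδ0 : 0 < δ := by
    have := Real.one_lt_rpow (show (1 : ℝ) < 2 by norm_num) (show 0 < ε * g by positivity)
    rw [hδ]; linarith
  -- the first level
  obtain ⟨q₁, hq₁2, hq₁⟩ : ∃ q₁ : ℝ, 2 ≤ q₁ ∧ ∀ q, q₁ ≤ q → Real.exp (-(a * δ * q ^ g)) ≤ 1 / 2 := by
    have h1 : Tendsto (fun q : ℝ => a * δ * q ^ g) atTop atTop :=
      (tendsto_rpow_atTop hg).const_mul_atTop (by positivity)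
    obtain ⟨q₁, h2⟩ := eventually_atTop.1 (h1.eventually_ge_atTop (Real.log 2))
    refine ⟨max 2 q₁, le_max_left _ _, fun q hq => ?_⟩
    have h3 := h2 q ((le_max_right _ _).trans hq)
    calc Real.exp (-(a * δ * q ^ g)) ≤ Real.exp (-Real.log 2) := Real.exp_le_exp.2 (by linarith)
      _ = 1 / 2 := by rw [Real.exp_neg, Real.exp_log (by norm_num)]; norm_num
  obtain ⟨a', ha'⟩ : ∃ a', a' = min a 1 := ⟨_, rfl⟩
  have ha'0 : 0 < a' := by rw [ha']; exact lt_min ha one_pos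
  have ha'a : a' ≤ a := by rw [ha']; exact min_le_left _ _
  have ha'1 : a' ≤ 1 := by rw [ha']; exact min_le_right _ _
  refine ⟨j₁, Real.exp (a' * q₁ ^ g) + 2 * A + A₂, hj₁, by positivity, fun N b q hq => ?_⟩
  rw [← ha']
  have hE := Real.exp_pos (-(a' * q ^ g))
  rcases le_total q q₁ with hqq | hqq
  · have h1 : (law μ).real (Tp63 μ s c θ K ε P j₁ N b q)ᶜ ≤ 1 := measureReal_le_one
    have h2 : (1 : ℝ) ≤ Real.exp (a' * q₁ ^ g) * Real.exp (-(a' * q ^ g)) := by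
      rw [← Real.exp_add]
      refine Real.one_le_exp ?_
      have := Real.rpow_le_rpow hq hqq hg.le
      nlinarith
    have h3 : 0 ≤ (2 * A + A₂) * Real.exp (-(a' * q ^ g)) := by positivity
    linarith
  have hq2 : 2 ≤ q := hq₁2.trans hqq
  have hqg0 : 0 ≤ q ^ g := Real.rpow_nonneg hq g
  obtain ⟨J, hJ⟩ : ∃ J, J = Nat.log 2 N := ⟨_, rfl⟩
  obtain ⟨bad, hbad⟩ : ∃ bad : ℕ → Set Env, bad = fun k => {η | j₁ ≤ J - k ∧ 2 ^ (J - k) ≤ N ∧
    η ∉ Far16 μ s c θ K (2 ^ (J - k)) (2 ^ (J - k)) P (dp63 μ s b (2 ^ (J - k))) (q * ((N : ℝ) / 2 ^ (J - k)) ^ ε)} := ⟨_, rfl⟩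
  have hsub : (Tp63 μ s c θ K ε P j₁ N b q)ᶜ ⊆ (⋃ k ∈ range (J + 1), bad k) ∪ {η : Env | ∀ p : Pt, b.1 - N < p.1 → b.1 - 2 ^ j₁ < p.1 →
      p.1 ≤ b.1 → |η p| ≤ q * (N : ℝ) ^ ε * (1 + Real.log (1 + |lat16 μ s b p|))}ᶜ := by
    intro η hη
    by_contra hcon
    rw [Set.mem_union, not_or] at hcon
    obtain ⟨h1, h2⟩ := hcon
    rw [Set.mem_compl_iff, not_not] at h2
    refine hη ⟨fun i hi hN => ?_, h2⟩
    by_contra h3
    apply h1
    have hN0 : N ≠ 0 := by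
      intro h0
      rw [h0] at hN
      have : 0 < 2 ^ i := by positivity
      omega
    have hiJ : i ≤ J := by
      rw [hJ]
      exact Nat.le_log_of_pow_le (by norm_num) hN
    simp only [Set.mem_iUnion, exists_prop, mem_range]
    refine ⟨J - i, by omega, ?_⟩
    rw [hbad]
    have e1 : J - (J - i) = i := by omega
    show j₁ ≤ J - (J - i) ∧ 2 ^ (J - (J - i)) ≤ N ∧ _
    rw [e1]
    exact ⟨hi, hN, h3⟩
  have hk : ∀ k ∈ range (J + 1), (law μ).real (bad k) ≤ A * Real.exp (-(a' * q ^ g)) * (1 / 2) ^ k := by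
    intro k hk
    rw [mem_range] at hk
    by_cases hjN : j₁ ≤ J - k ∧ 2 ^ (J - k) ≤ N
    · obtain ⟨h1, h2⟩ := hjN
      have hsub2 : bad k ⊆ (Far16 μ s c θ K (2 ^ (J - k)) (2 ^ (J - k)) P (dp63 μ s b (2 ^ (J - k)))
          (q * ((N : ℝ) / 2 ^ (J - k)) ^ ε))ᶜ := by
        rw [hbad]
        rintro η ⟨-, -, h⟩
        exact h
      refine (measureReal_mono hsub2).trans ((hF _ (hj₁.trans (Nat.pow_le_pow_right (by norm_num) h1)) _ le_rfl _ _ (by positivity)).trans ?_)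
      rw [mul_assoc]
      refine mul_le_mul_of_nonneg_left ?_ hA.le
      -- the exponent
      have hN0 : N ≠ 0 := by
        intro h0
        rw [h0] at h2
        have : 0 < 2 ^ (J - k) := by positivity
        omega
      have hJN : 2 ^ J ≤ N := by
        rw [hJ]
        exact Nat.pow_log_le_self 2 hN0
      have hx : (2 : ℝ) ^ k ≤ (N : ℝ) / 2 ^ (J - k) := by
        rw [le_div_iff₀ (by positivity), ← pow_add]
        rw [show k + (J - k) = J by omega]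
        exact_mod_cast hJN
      have e1 : (q * ((N : ℝ) / 2 ^ (J - k)) ^ ε) ^ g = q ^ g * ((N : ℝ) / 2 ^ (J - k)) ^ (ε * g) := by
        rw [Real.mul_rpow hq (by positivity), ← Real.rpow_mul (by positivity)]
      have h3 : ((2 : ℝ) ^ k) ^ (ε * g) ≤ ((N : ℝ) / 2 ^ (J - k)) ^ (ε * g) := Real.rpow_le_rpow (by positivity) hx (by positivity)
      have e2 : ((2 : ℝ) ^ k) ^ (ε * g) = (1 + δ) ^ k := by
        rw [← Real.rpow_natCast, ← Real.rpow_mul (by norm_num), mul_comm (k : ℝ), Real.rpow_mul (by norm_num), Real.rpow_natCast, hδ]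
        congr 1
        ring
      have h4 : 1 + (k : ℝ) * δ ≤ (1 + δ) ^ k := one_add_mul_le_pow (by linarith) k
      rw [e2] at h3
      have h5 : a' * q ^ g + (k : ℝ) * (a * δ * q ^ g) ≤ a * (q * ((N : ℝ) / 2 ^ (J - k)) ^ ε) ^ g := by
        rw [e1]
        have h6 := mul_le_mul_of_nonneg_left (h4.trans h3) (show 0 ≤ a * q ^ g by positivity)
        have h7 := mul_le_mul_of_nonneg_right ha'a hqg0
        nlinarith
      calc Real.exp (-(a * (q * ((N : ℝ) / 2 ^ (J - k)) ^ ε) ^ g)) ≤ Real.exp (-(a' * q ^ g) + -((k : ℝ) * (a * δ * q ^ g))) :=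
            Real.exp_le_exp.2 (by linarith)
        _ = Real.exp (-(a' * q ^ g)) * Real.exp (-(a * δ * q ^ g)) ^ k := by
            rw [Real.exp_add, ← Real.exp_nat_mul]
            congr 2
            ring
        _ ≤ _ := mul_le_mul_of_nonneg_left (pow_le_pow_left₀ (Real.exp_pos _).le (hq₁ q hqq) k) hE.le
    · have e1 : bad k = ∅ := by
        rw [hbad]
        ext η
        simp only [Set.mem_ofPred_eq, Set.mem_empty_iff_false, iff_false]
        exact fun h => hjN ⟨h.1, h.2.1⟩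
      rw [e1, measureReal_empty]
      positivity
  have h1 : (law μ).real (⋃ k ∈ range (J + 1), bad k) ≤ 2 * A * Real.exp (-(a' * q ^ g)) := by
    refine (measureReal_biUnion_finset_le _ _).trans ((sum_le_sum hk).trans ?_)
    rw [← mul_sum]
    have h2 : ∑ k ∈ range (J + 1), ((1 : ℝ) / 2) ^ k ≤ 2 := by
      have h3 := (summable_geometric_two).sum_le_tsum (range (J + 1)) (fun i _ => by positivity)
      rwa [tsum_geometric_two] at h3
    have h3 := mul_le_mul_of_nonneg_left h2 (show 0 ≤ A * Real.exp (-(a' * q ^ g)) by positivity)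
    linarith
  have h2 := hbot N b hε.le hq2
  have h3 : Real.exp (-q) ≤ Real.exp (-(a' * q ^ g)) := by
    refine Real.exp_le_exp.2 ?_
    have h4 : q ^ g ≤ q := by
      calc q ^ g ≤ q ^ (1 : ℝ) := Real.rpow_le_rpow_of_exponent_le (by linarith) hg1
        _ = q := Real.rpow_one q
    nlinarith
  have h4 := (measureReal_mono (μ := law μ) hsub (measure_ne_top _ _)).trans (measureReal_union_le _ _)
  have h5 := mul_le_mul_of_nonneg_left h3 hA₂.le
  have h6 : 0 ≤ Real.exp (a' * q₁ ^ g) * Real.exp (-(a' * q ^ g)) := by positivity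
  linarith

/-! ### The family of layers -/

variable {Λ : Type*}

/-- **THE TOP LEVELS OF A LAYER.** -/
def tpS (μ : Measure ℝ) (s c θ K ε : ℝ) (P j₁ : ℕ) (col : Cut Λ → ℤ) (a b : Cut Λ) (q : ℝ) : Set Env :=
  Tp63 μ s c θ K ε P j₁ (nR a b) (b.row, col b) q

theorem nR_lt {a b : Cut Λ} {p : ℤ} (h1 : b.row - nR a b < p) (h2 : p ≤ b.row) : a.row < p := by
  unfold nR at h1
  omega

/-- The intersection of two families. -/
theorem LvF.inter63 {A a g A' a' g' : ℝ} {F F' : Cut Λ → Cut Λ → ℝ → Set Env} (hF : LvF μ A a g F) (hF' : LvF μ A' a' g' F')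
    (hA : 0 < A) (hA' : 0 < A') (ha : 0 < a) (ha' : 0 < a') (hg : 0 < g) (hg' : 0 < g') : ∃ A₂ : ℝ, 0 < A₂ ∧
      LvF μ A₂ (min a a') (min g g') fun x y q => F x y q ∩ F' x y q := by
  obtain ⟨G, hG⟩ : ∃ G, G = min g g' := ⟨_, rfl⟩
  obtain ⟨B, hB⟩ : ∃ B, B = min a a' := ⟨_, rfl⟩
  have hG0 : 0 < G := by rw [hG]; exact lt_min hg hg'
  have hB0 : 0 < B := by rw [hB]; exact lt_min ha ha'
  -- one tail
  have one : ∀ {A a g q : ℝ}, 0 < A → 0 < a → B ≤ a → G ≤ g → 0 ≤ q →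
      A * Real.exp (-(a * q ^ g)) ≤ A * Real.exp B * Real.exp (-(B * q ^ G)) := by
    intro A a g q hA ha hBa hGg hq
    rw [mul_assoc, ← Real.exp_add]
    refine mul_le_mul_of_nonneg_left (Real.exp_le_exp.2 ?_) hA.le
    rcases le_total q 1 with h1 | h1
    · have h2 : q ^ G ≤ 1 := Real.rpow_le_one hq h1 hG0.le
      have h3 : 0 ≤ q ^ g := Real.rpow_nonneg hq g
      nlinarith
    · have h2 : q ^ G ≤ q ^ g := Real.rpow_le_rpow_of_exponent_le h1 hGg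
      have h3 : 0 ≤ q ^ G := Real.rpow_nonneg hq G
      nlinarith
  rw [← hG, ← hB]
  refine ⟨(A + A') * Real.exp B, by positivity, fun x y q q' hq => Set.inter_subset_inter (hF.mono x y hq) (hF'.mono x y hq),
    fun x y q => (hF.meas x y q).inter (hF'.meas x y q), fun x y q η η' hh => and_congr (hF.rows x y q η η' hh) (hF'.rows x y q η η' hh),
    fun x y q hq => ?_⟩
  rw [Set.compl_inter]
  refine (measure_union_le _ _).trans ((add_le_add (hF.tail x y q hq) (hF'.tail x y q hq)).trans ?_)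
  rw [← ENNReal.ofReal_add (by positivity) (by positivity)]
  refine ENNReal.ofReal_le_ofReal ?_
  have b1 : B ≤ a := by rw [hB]; exact min_le_left _ _
  have b2 : B ≤ a' := by rw [hB]; exact min_le_right _ _
  have b3 : G ≤ g := by rw [hG]; exact min_le_left _ _
  have b4 : G ≤ g' := by rw [hG]; exact min_le_right _ _
  have h1 := one (q := q) hA ha b1 b3 hq
  have h2 := one (q := q) hA' ha' b2 b4 hq
  linarith

/-- **THE LEVELS OF THE LAYERS AND OF THEIR TOP ROWS ARE ONE FAMILY.** -/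
theorem lt_fam63 [IsProbabilityMeasure μ] {C : ℝ} {n₀ : ℕ} (h : In μ s c C n₀) (hK : 0 < K) (hθ : 0 < θ) (hθ1 : θ ≤ 1) (hε : 0 < ε) :
    ∃ (P : ℕ) (A a g : ℝ) (n₁ j₁ : ℕ), 0 < A ∧ 0 < a ∧ 0 < g ∧ g ≤ 1 ∧ 1 ≤ n₁ ∧ n₁ ≤ 2 ^ j₁ ∧ ∀ {Λ : Type*} (Hf : Cut Λ → Cut Λ → ℕ),
      (∀ a b, n₁ ≤ Hf a b) → ∀ col : Cut Λ → ℤ,
        LvF μ A a g fun x y q => lvS μ s c θ K P Hf col x y q ∩ tpS μ s c θ K ε P j₁ col x y q := by
  obtain ⟨P, A, a, g, hA, ha, hg, hg1, n₁, hn1, H⟩ := far_prob h hK hθ hθ1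
  obtain ⟨j₁, A', hj₁, hA', HT⟩ := tp_prob (μ := μ) (s := s) (c := c) (θ := θ) (K := K) (ε := ε) (P := P) h.em hA ha hg hg1 hε H
  obtain ⟨a', ha'⟩ : ∃ a', a' = min a 1 := ⟨_, rfl⟩
  have ha'0 : 0 < a' := by rw [ha']; exact lt_min ha one_pos
  have hP : IsProbabilityMeasure (law μ) := by unfold law; infer_instance
  refine ⟨P, A + A', a', g, n₁, j₁, by positivity, ha'0, hg, hg1, hn1, hj₁, fun Hf hH col => ⟨fun x y q q' hq => ?_, fun x y q => ?_,
    fun x y q η η' hh => ?_, fun x y q hq => ?_⟩⟩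
  · exact Set.inter_subset_inter (Far16_mono hq _ _ _ _) (Tp63_mono hq)
  · exact (Far16_meas _ _ _ _ _ _ _).inter Tp63_meas
  · refine and_congr (Far16_rows fun p hp => hh p (rows_btw hp.1 hp.2)) (Tp63_rows fun p h1 h2 => hh p ⟨nR_lt h1 h2, h2⟩)
  · have h1 := H (hg6 Hf x y) ((hH x y).trans (le_max_left _ _)) (nR x y) (le_max_right _ _) (x.row, col x) q hq
    have h2 := HT (nR x y) (y.row, col y) q hq
    rw [← ha'] at h2
    have h3 : Real.exp (-(a * q ^ g)) ≤ Real.exp (-(a' * q ^ g)) := by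
      refine Real.exp_le_exp.2 ?_
      have h4 : 0 ≤ q ^ g := Real.rpow_nonneg hq g
      have h5 : a' ≤ a := by rw [ha']; exact min_le_left _ _
      nlinarith
    rw [Set.compl_inter]
    refine (measure_union_le _ _).trans ?_
    rw [← ENNReal.ofReal_toReal (measure_ne_top (law μ) (lvS μ s c θ K P Hf col x y q)ᶜ),
      ← ENNReal.ofReal_toReal (measure_ne_top (law μ) (tpS μ s c θ K ε P j₁ col x y q)ᶜ),
      ← ENNReal.ofReal_add ENNReal.toReal_nonneg ENNReal.toReal_nonneg]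
    refine ENNReal.ofReal_le_ofReal ?_
    have h6 := mul_le_mul_of_nonneg_left h3 hA.le
    have h7 := add_le_add h1 h2
    refine h7.trans ?_
    linarith

end

end Pool.Agent.W_7d29a1_C1.TpF63
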