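import Pool.Agent.W_7d29a1_C1.OwnT67

/-!
MP_7d29a1_pr, [C1] attractor route, THE TOP BOUNDARY OF A TOWER FOR DISPLACED STARTS: the frame goes through the start. (helper67)

`lay_shift67`: `Lay89` in the frame shifted by `a₀` columns (`K - 2`, levels times `fq16 P (Λ + 2)`, `|a₀| + 1 ≤ Λ wd (T v)`).
**`topS67`** : `topQ67` for all starts at the distance at most `K₁ wd (T (u + m₁))`, `m₁ ≤ m`, of the line, the constant `Qm` times
`(1 + m) ^ (2 P)`; the regularity at the row `r (u + m + 1)` is asked for all the references at the distance at most `K₂` widths.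
-/

set_option autoImplicit false

namespace Pool.Agent.W_7d29a1_C1.Own67

open MeasureTheory ProbabilityTheory Filter Topology Finset
open Pool.Agent.W_7d29a1_F Pool.Agent.W_7d29a1_h4g Pool.Agent.W_7d29a1_H Pool.Agent.W_7d29a1_HS
open Pool.Agent.W_7d29a1_C1.H75 Pool.Agent.W_7d29a1_C1.U16
open Pool.Agent.W_7d29a1_C1.FarK89 Pool.Agent.W_7d29a1_C1.FarW89 Pool.Agent.W_7d29a1_C1.DD84 Pool.Agent.W_7d29a1_C1.SysN89

noncomputable section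

/-- The frame shifted by `a` columns. -/
def shf (κ : Pt) (a : ℤ) : Pt := (κ.1, κ.2 + a)

theorem lat_shf {μ : Measure ℝ} {s : ℝ} (κ p : Pt) (a : ℤ) : lat16 μ s (shf κ a) p = lat16 μ s κ p - a := by
  unfold lat16 shf
  push_cast
  ring

theorem lt_shf {μ : Measure ℝ} {s : ℝ} (κ : Pt) (a : ℤ) (r : ℕ → ℕ) (v : ℕ) (y : ℤ) : lt μ s (shf κ a) r v y = lt μ s κ r v y - a :=
  lat_shf _ _ _

variable {μ : Measure ℝ} [IsProbabilityMeasure μ] {s c C : ℝ} {n₀ : ℕ}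

omit [IsProbabilityMeasure μ] in
/-- **The layers in a shifted frame.** -/
theorem lay_shift67 {θ K h Λ : ℝ} {P : ℕ} {η : Env} {κ : Pt} {r T N : ℕ → ℕ} {q : ℕ → ℝ} {bs : ℕ → Pt} {a b n₁ : ℕ} {a₀ : ℤ}
    (hL : Lay89 μ s c θ K h P η κ r T N q bs a b n₁) (hw : ∀ v, a ≤ v → v < b → 1 ≤ wd μ s (T v)) (hΛ : 0 ≤ Λ)
    (ha : ∀ v, a ≤ v → v < b → |(a₀ : ℝ)| + 1 ≤ Λ * wd μ s (T v)) :
    Lay89 μ s c θ (K - 2) h P η (shf κ a₀) r T N (fun v => q v * fq16 P (Λ + 2)) (fun v => lp μ s (shf κ a₀) (bs v).1) a b n₁ := by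
  refine ⟨fun v h1 h2 => mul_nonneg (hL.q0 v h1 h2) (zero_le_one.trans (fq16_one _ _)), hL.T1, hL.NT, hL.rr, hL.b1, hL.b2,
    fun v h1 h2 => (lat_lp (shf κ a₀) _).trans (hw v h1 h2), fun v h1 h2 => ?_, hL.force, hL.len⟩
  have g1 : |lat16 μ s (bs v) (lp μ s (shf κ a₀) (bs v).1)| ≤ (Λ + 1) * wd μ s (T v) := by
    rw [lat_base (μ := μ) (s := s) κ (bs v) (lp μ s (shf κ a₀) (bs v).1)]
    have k1 := lat_lp (μ := μ) (s := s) (shf κ a₀) (bs v).1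
    rw [lat_shf] at k1
    have k2 := hL.b3 v h1 h2
    have k3 := ha v h1 h2
    obtain ⟨X, hX⟩ : ∃ X, X = lat16 μ s κ (lp μ s (shf κ a₀) (bs v).1) := ⟨_, rfl⟩
    rw [← hX] at k1 ⊢
    have k4 : |X| ≤ |(a₀ : ℝ)| + 1 := by
      have k5 := abs_add_le (X - a₀) (a₀ : ℝ)
      rw [sub_add_cancel] at k5
      linarith
    have k6 := abs_sub X (lat16 μ s κ (bs v))
    linarith
  have g2 := far_rebase (c := c) (θ := θ) (K := K) (N := N v) (N' := N v) (P := P) (b := bs v) (b' := lp μ s (shf κ a₀) (bs v).1)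
    (hw v h1 h2) (hL.q0 v h1 h2) (show 0 ≤ Λ + 1 by linarith) le_rfl le_rfl g1 (hL.far v h1 h2)
  rwa [show Λ + 1 + 1 = Λ + 2 by ring] at g2

/-- **THE TOP BOUNDARY FOR DISPLACED STARTS.** -/
theorem topS67 (h0 : In μ s c C n₀) : ∃ K₀ : ℕ, 2 ≤ K₀ ∧ ∀ (P : ℕ) {K θ : ℝ}, 6 ≤ K → 0 < θ → ∀ (b : ℕ) {K₁ : ℝ}, 1 ≤ b → 0 ≤ K₁ →
    ∃ (X : ℝ) (n₁ : ℕ), 1 ≤ X ∧ 1 ≤ n₁ ∧
    ∀ {h σ Qm t K₂ : ℝ} {η : Env} {κ : Pt} {p : ℕ → ℝ} {M N : ℕ} {r T Nr : ℕ → ℕ} {q : ℕ → ℝ} {bs : ℕ → Pt} {u m m₁ : ℕ} {x : ℤ},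
      1 ≤ m → m₁ ≤ m → 1 ≤ Qm → X * ((1 + (m : ℝ)) ^ (2 * P) * Qm) ^ 4 * wd μ s (T (u + m)) ≤ t →
      (∀ k, k < M → p k = Real.exp (s + h)) → (∀ k, M ≤ k → p k = Real.exp s) →
      Lay89 μ s c θ K h P η κ r T Nr q bs u (u + m + 1) n₁ →
      (∀ v, u ≤ v → v < u + m → K₀ * T v ≤ T (v + 1) ∧ T (v + 1) ≤ b * T v) →
      (∀ v, u ≤ v → v ≤ u + m → (1 + q v) ^ 2 ≤ Qm) → |h| * wd μ s (T (u + m)) ≤ c / 8 * EE μ s (T (u + m)) →
      r (u + m + 1) ≤ N → (N : ℝ) + 1 ≤ Real.exp (EE μ s (T (u + m))) →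
      |lt μ s κ r u x| ≤ K₁ * wd μ s (T (u + m₁)) → K₁ + 2 ≤ K₂ → 0 ≤ σ → σ ≤ c / 64 →
      (∀ y y₀ : ℤ, |lt μ s κ r (u + m + 1) y₀| ≤ K₂ * wd μ s (T (u + m)) → bh16 μ s h η p M N (r (u + m + 1)) y ≤
        Real.exp ((Qm + σ * (|lt μ s κ r (u + m + 1) y| / wd μ s (T (u + m)))) * EE μ s (T (u + m))) *
          bh16 μ s h η p M N (r (u + m + 1)) y₀) →
      16 * (((r (u + m) - r u : ℕ) : ℝ) * PM16 (fun a b x z => nk μ s h η p M a (b - a) x z) (bh16 μ s h η p M N) (r u) (r (u + m)) x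
        (fun z => t ≤ |lt μ s κ r (u + m) z - lt μ s κ r u x|)) ≤ bh16 μ s h η p M N (r u) x := by
  obtain ⟨K₃, hK₃, HQ⟩ := topQ67 h0
  obtain ⟨K₄, n₇, hK₄, hn₇, H7⟩ := scale_num h0
  obtain ⟨Bw, nb, hBw, hnb, HB⟩ := wd_next67 h0
  refine ⟨max K₃ K₄, hK₃.trans (le_max_left _ _), fun P K θ hK hθ b K₁ hb hK₁ => ?_⟩
  obtain ⟨X, n₅, hX, hn₅, HQ⟩ := HQ P (K := K - 2) (by linarith) hθ
  obtain ⟨n₆, hn₆⟩ := eventually_atTop.1 ((wd_tendsto h0).eventually_ge_atTop 2)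
  have hc0 := h0.c0
  have hb1 : (1 : ℝ) ≤ b := by exact_mod_cast hb
  have hBb : 1 ≤ Bw * b := one_le_mul_of_one_le_of_one_le hBw hb1
  obtain ⟨Cl, hCl⟩ : ∃ Cl : ℝ, Cl = Real.log (K₁ + 5) + Real.log (Bw * b) := ⟨_, rfl⟩
  have hl1 : 0 ≤ Real.log (K₁ + 5) := Real.log_nonneg (by linarith)
  have hl2 : 0 ≤ Real.log (Bw * b) := Real.log_nonneg hBb
  have hCl0 : 0 ≤ Cl := by rw [hCl]; linarith
  obtain ⟨Cs, hCs⟩ : ∃ Cs : ℝ, Cs = (1 + Cl) ^ (2 * P) + c / 64 * (K₁ + 1) := ⟨_, rfl⟩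
  have hCl1 : 1 ≤ (1 + Cl) ^ (2 * P) := one_le_pow₀ (by linarith)
  have hcK : 0 ≤ c / 64 * (K₁ + 1) := by positivity
  have hCs1 : 1 ≤ Cs := by rw [hCs]; linarith
  have hCs4 : 1 ≤ Cs ^ 4 := one_le_pow₀ hCs1
  refine ⟨X * Cs ^ 4, max (max n₅ n₆) (max n₇ nb), one_le_mul_of_one_le_of_one_le hX hCs4, hn₅.trans ((le_max_left _ _).trans (le_max_left _ _)),
    ?_⟩
  obtain ⟨n₁, hn₁⟩ : ∃ n₁, n₁ = max (max n₅ n₆) (max n₇ nb) := ⟨_, rfl⟩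
  rw [← hn₁]
  have l5 : n₅ ≤ n₁ := by rw [hn₁]; exact (le_max_left _ _).trans (le_max_left _ _)
  have l6 : n₆ ≤ n₁ := by rw [hn₁]; exact (le_max_right _ _).trans (le_max_left _ _)
  have l7 : n₇ ≤ n₁ := by rw [hn₁]; exact (le_max_left _ _).trans (le_max_right _ _)
  have lb : nb ≤ n₁ := by rw [hn₁]; exact (le_max_right _ _).trans (le_max_right _ _)
  intro h σ Qm t K₂ η κ p M N r T Nr q bs u m m₁ x hm hm₁ hQm ht hp hp' hL hTK hq hh hrN hN hx hK₂ hσ0 hσ hD2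
  have hT1 : ∀ v, u ≤ v → v ≤ u + m → n₁ ≤ T v := fun v h1 h2 => hL.T1 v h1 (by omega)
  have hw2 : ∀ v, u ≤ v → v ≤ u + m → 2 ≤ wd μ s (T v) := fun v h1 h2 => hn₆ _ (l6.trans (hT1 v h1 h2))
  have hpp : ∀ k, 0 < p k := fun k => by
    rcases lt_or_ge k M with h1 | h1
    · rw [hp k h1]; exact Real.exp_pos _
    · rw [hp' k h1]; exact Real.exp_pos _
  -- the widths
  have hstep : ∀ v, u ≤ v → v < u + m → wd μ s (T v) ≤ wd μ s (T (v + 1)) ∧ wd μ s (T (v + 1)) ≤ Bw * b * wd μ s (T v) := by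
    intro v h1 h2
    have g1 := hTK v h1 h2
    have g2 : K₄ * T v ≤ T (v + 1) := (Nat.mul_le_mul_right _ (le_max_right _ _)).trans g1.1
    refine ⟨(H7 (T v) (T (v + 1)) (l7.trans (hT1 v h1 (by omega))) g2).1, HB (lb.trans (hT1 v h1 (by omega))) ?_ (by exact_mod_cast g1.2)⟩
    have : 1 * T v ≤ K₄ * T v := Nat.mul_le_mul_right _ (by omega)
    omega
  have hup : ∀ i v, u ≤ v → v + i ≤ u + m → wd μ s (T v) ≤ wd μ s (T (v + i)) ∧ wd μ s (T (v + i)) ≤ (Bw * b) ^ i * wd μ s (T v) := by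
    intro i
    induction i with
    | zero => intro v _ _; simp
    | succ i ih =>
      intro v h1 h2
      obtain ⟨g1, g2⟩ := ih v h1 (by omega)
      obtain ⟨g3, g4⟩ := hstep (v + i) (by omega) (by omega)
      refine ⟨g1.trans g3, ?_⟩
      calc wd μ s (T (v + (i + 1))) ≤ Bw * b * wd μ s (T (v + i)) := g4
        _ ≤ Bw * b * ((Bw * b) ^ i * wd μ s (T v)) := mul_le_mul_of_nonneg_left g2 (by linarith)
        _ = _ := by rw [pow_succ]; ring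
  have hall : ∀ v, u ≤ v → v ≤ u + m → wd μ s (T (u + m₁)) ≤ (Bw * b) ^ m * wd μ s (T v) := by
    intro v h1 h2
    have hwv := hw2 v h1 h2
    rcases le_total v (u + m₁) with h3 | h3
    · obtain ⟨i, hi⟩ : ∃ i, u + m₁ = v + i := ⟨u + m₁ - v, by omega⟩
      rw [hi]
      refine (hup i v h1 (by omega)).2.trans (mul_le_mul_of_nonneg_right ?_ (by linarith))
      exact pow_le_pow_right₀ hBb (by omega)
    · obtain ⟨i, hi⟩ : ∃ i, v = u + m₁ + i := ⟨v - (u + m₁), by omega⟩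
      have g1 := (hup i (u + m₁) (by omega) (by omega)).1
      rw [← hi] at g1
      have g2 : (1 : ℝ) ≤ (Bw * b) ^ m := one_le_pow₀ hBb
      nlinarith
  -- the shift
  obtain ⟨a₀, ha₀⟩ : ∃ a₀ : ℤ, a₀ = ⌊lt μ s κ r u x⌋ := ⟨_, rfl⟩
  have hf1 : (a₀ : ℝ) ≤ lt μ s κ r u x := by rw [ha₀]; exact Int.floor_le _
  have hf2 : lt μ s κ r u x < a₀ + 1 := by rw [ha₀]; exact Int.lt_floor_add_one _
  have hxs : |lt μ s (shf κ a₀) r u x| ≤ 1 := by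
    rw [lt_shf, abs_le]
    constructor <;> linarith
  have ha1 : |(a₀ : ℝ)| ≤ K₁ * wd μ s (T (u + m₁)) + 1 := by
    have g1 : |(a₀ : ℝ)| ≤ |lt μ s κ r u x| + 1 := by
      rw [abs_le]
      have g2 := neg_abs_le (lt μ s κ r u x)
      have g3 := le_abs_self (lt μ s κ r u x)
      constructor <;> linarith
    linarith
  have hwm1 := hw2 (u + m₁) (by omega) (by omega)
  obtain ⟨Λ, hΛ⟩ : ∃ Λ : ℝ, Λ = (K₁ + 2) * (Bw * b) ^ m := ⟨_, rfl⟩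
  have hBm : (1 : ℝ) ≤ (Bw * b) ^ m := one_le_pow₀ hBb
  have hΛ0 : 0 ≤ Λ := by rw [hΛ]; positivity
  have hLs := lay_shift67 (a₀ := a₀) (Λ := Λ) hL (fun v h1 h2 => by linarith [hw2 v h1 (by omega)]) hΛ0 (fun v h1 h2 => by
    have g1 := hall v h1 (by omega)
    have g2 : |(a₀ : ℝ)| + 1 ≤ (K₁ + 2) * wd μ s (T (u + m₁)) := by nlinarith
    refine g2.trans ?_
    rw [hΛ]
    calc (K₁ + 2) * wd μ s (T (u + m₁)) ≤ (K₁ + 2) * ((Bw * b) ^ m * wd μ s (T v)) := mul_le_mul_of_nonneg_left g1 (by linarith)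
      _ = _ := by ring)
  -- the level
  have hfq : fq16 P (Λ + 2) ≤ ((1 + Cl) * (1 + m)) ^ P := by
    unfold fq16
    refine pow_le_pow_left₀ ?_ ?_ P
    · have : 0 ≤ Real.log (1 + |Λ + 2|) := Real.log_nonneg (by linarith [abs_nonneg (Λ + 2)])
      linarith
    · rw [abs_of_nonneg (by linarith)]
      have g1 : 1 + (Λ + 2) ≤ (K₁ + 5) * (Bw * b) ^ m := by
        rw [hΛ]
        nlinarith
      have g2 : Real.log (1 + (Λ + 2)) ≤ Real.log (K₁ + 5) + m * Real.log (Bw * b) := by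
        rw [← Real.log_pow, ← Real.log_mul (by linarith) (by positivity)]
        exact Real.log_le_log (by linarith) g1
      have hm0 : (0 : ℝ) ≤ m := Nat.cast_nonneg _
      have g3 : Real.log (K₁ + 5) + m * Real.log (Bw * b) ≤ Cl * (1 + m) := by
        rw [hCl]
        nlinarith [mul_nonneg hm0 hl1]
      nlinarith
  have hfq1 := fq16_one P (Λ + 2)
  have hm0 : (0 : ℝ) ≤ m := Nat.cast_nonneg _
  have h1m : (1 : ℝ) ≤ (1 + (m : ℝ)) ^ (2 * P) := one_le_pow₀ (by linarith)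
  obtain ⟨Qn, hQn⟩ : ∃ Qn : ℝ, Qn = Cs * ((1 + (m : ℝ)) ^ (2 * P) * Qm) := ⟨_, rfl⟩
  have hQmm : 1 ≤ (1 + (m : ℝ)) ^ (2 * P) * Qm := one_le_mul_of_one_le_of_one_le h1m hQm
  have hQn1 : 1 ≤ Qn := by rw [hQn]; exact one_le_mul_of_one_le_of_one_le hCs1 hQmm
  have hlev : ∀ v, u ≤ v → v ≤ u + m → (1 + q v * fq16 P (Λ + 2)) ^ 2 ≤ Qn := by
    intro v h1 h2
    have g0 := hL.q0 v h1 (by omega)
    have g1 : 1 + q v * fq16 P (Λ + 2) ≤ fq16 P (Λ + 2) * (1 + q v) := by nlinarith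
    have g2 : (1 + q v * fq16 P (Λ + 2)) ^ 2 ≤ (fq16 P (Λ + 2) * (1 + q v)) ^ 2 := pow_le_pow_left₀ (by positivity) g1 2
    have g3 : fq16 P (Λ + 2) ^ 2 ≤ (1 + Cl) ^ (2 * P) * (1 + (m : ℝ)) ^ (2 * P) := by
      have g4 := pow_le_pow_left₀ (by linarith) hfq 2
      refine g4.trans (le_of_eq ?_)
      rw [← mul_pow, ← pow_mul, mul_comm P 2]
    have g5 : (fq16 P (Λ + 2) * (1 + q v)) ^ 2 ≤ ((1 + Cl) ^ (2 * P) * (1 + (m : ℝ)) ^ (2 * P)) * Qm := by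
      rw [mul_pow]
      exact mul_le_mul g3 (hq v h1 h2) (by positivity) (by positivity)
    refine g2.trans (g5.trans ?_)
    rw [hQn, hCs]
    have g6 : 0 ≤ c / 64 * (K₁ + 1) * ((1 + (m : ℝ)) ^ (2 * P) * Qm) := by positivity
    nlinarith
  have e1 : ∀ z : ℤ, lt μ s (shf κ a₀) r (u + m) z - lt μ s (shf κ a₀) r u x = lt μ s κ r (u + m) z - lt μ s κ r u x := fun z => by
    rw [lt_shf, lt_shf]
    ring
  -- the reference
  have hwM := hw2 (u + m) (by omega) le_rfl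
  have hwm : wd μ s (T (u + m₁)) ≤ wd μ s (T (u + m)) := by
    obtain ⟨i, hi⟩ : ∃ i, u + m = u + m₁ + i := ⟨m - m₁, by omega⟩
    rw [hi]
    exact (hup i (u + m₁) (by omega) (by omega)).1
  obtain ⟨y₀, hy₀⟩ : ∃ y₀ : ℤ, |lt μ s (shf κ a₀) r (u + m + 1) y₀| ≤ 1 :=
    ⟨(shf κ a₀).2 + ⌊sl μ s * (((r (u + m + 1) : ℤ) - (shf κ a₀).1 : ℤ) : ℝ)⌋, lat_lp (shf κ a₀) (r (u + m + 1) : ℤ)⟩
  have hy₀' : |lt μ s κ r (u + m + 1) y₀| ≤ K₂ * wd μ s (T (u + m)) := by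
    have g1 := lt_shf (μ := μ) (s := s) κ a₀ r (u + m + 1) y₀
    have g2 : lt μ s κ r (u + m + 1) y₀ = lt μ s (shf κ a₀) r (u + m + 1) y₀ + a₀ := by rw [g1]; ring
    have g3 := abs_add_le (lt μ s (shf κ a₀) r (u + m + 1) y₀) (a₀ : ℝ)
    rw [← g2] at g3
    have g4 : K₁ * wd μ s (T (u + m₁)) ≤ K₁ * wd μ s (T (u + m)) := mul_le_mul_of_nonneg_left hwm hK₁
    have g5 : (K₁ + 2) * wd μ s (T (u + m)) ≤ K₂ * wd μ s (T (u + m)) := mul_le_mul_of_nonneg_right hK₂ (by linarith)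
    linarith
  have hD2' : ∀ y : ℤ, bh16 μ s h η p M N (r (u + m + 1)) y ≤ Real.exp ((Qn + σ * (|lt μ s (shf κ a₀) r (u + m + 1) y| / wd μ s (T (u + m)))) *
      EE μ s (T (u + m))) * bh16 μ s h η p M N (r (u + m + 1)) y₀ := by
    intro y
    have hB0 : 0 ≤ bh16 μ s h η p M N (r (u + m + 1)) y₀ := (bh16_pos hpp _ _).le
    refine (hD2 y y₀ hy₀').trans (mul_le_mul_of_nonneg_right (Real.exp_le_exp.2 ?_) hB0)
    refine mul_le_mul_of_nonneg_right ?_ (EE_pos (μ := μ) (s := s) (T (u + m))).le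
    have g1 : |lt μ s κ r (u + m + 1) y| ≤ |lt μ s (shf κ a₀) r (u + m + 1) y| + |(a₀ : ℝ)| := by
      rw [lt_shf]
      have g2 := abs_add_le (lt μ s κ r (u + m + 1) y - a₀) (a₀ : ℝ)
      rwa [sub_add_cancel] at g2
    have hw0 : 0 < wd μ s (T (u + m)) := by linarith
    have g2 : |(a₀ : ℝ)| / wd μ s (T (u + m)) ≤ K₁ + 1 := by
      rw [div_le_iff₀ hw0]
      have g4 : K₁ * wd μ s (T (u + m₁)) ≤ K₁ * wd μ s (T (u + m)) := mul_le_mul_of_nonneg_left hwm hK₁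
      linarith
    have g3 : |lt μ s κ r (u + m + 1) y| / wd μ s (T (u + m)) ≤
        |lt μ s (shf κ a₀) r (u + m + 1) y| / wd μ s (T (u + m)) + (K₁ + 1) := by
      calc |lt μ s κ r (u + m + 1) y| / wd μ s (T (u + m)) ≤
          (|lt μ s (shf κ a₀) r (u + m + 1) y| + |(a₀ : ℝ)|) / wd μ s (T (u + m)) := div_le_div_of_nonneg_right g1 hw0.le
        _ = |lt μ s (shf κ a₀) r (u + m + 1) y| / wd μ s (T (u + m)) + |(a₀ : ℝ)| / wd μ s (T (u + m)) := add_div _ _ _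
        _ ≤ _ := by linarith
    have g4 : σ * (|lt μ s κ r (u + m + 1) y| / wd μ s (T (u + m))) ≤
        σ * (|lt μ s (shf κ a₀) r (u + m + 1) y| / wd μ s (T (u + m)) + (K₁ + 1)) := mul_le_mul_of_nonneg_left g3 hσ0
    have g5 : σ * (K₁ + 1) ≤ c / 64 * (K₁ + 1) := mul_le_mul_of_nonneg_right hσ (by linarith)
    have g6 : Qm + c / 64 * (K₁ + 1) ≤ Qn := by
      rw [hQn, hCs]
      have g7 : c / 64 * (K₁ + 1) * 1 ≤ c / 64 * (K₁ + 1) * ((1 + (m : ℝ)) ^ (2 * P) * Qm) := mul_le_mul_of_nonneg_left hQmm hcK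
      have g8 : Qm ≤ (1 + (m : ℝ)) ^ (2 * P) * Qm := by nlinarith
      have g9 : 1 * ((1 + (m : ℝ)) ^ (2 * P) * Qm) ≤ (1 + Cl) ^ (2 * P) * ((1 + (m : ℝ)) ^ (2 * P) * Qm) :=
        mul_le_mul_of_nonneg_right hCl1 (by linarith)
      nlinarith
    nlinarith
  have key := HQ (σ := σ) (Qm := Qn) (t := t) (κ := shf κ a₀) (T := T) (Nr := Nr) (u := u) (m := m) (x := x) (y₀ := y₀) hm hQn1 (by
      refine le_trans (le_of_eq ?_) ht
      rw [hQn]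
      ring) hp hp' (hLs.sub le_rfl le_rfl l5) (fun v h1 h2 => (Nat.mul_le_mul_right _ (le_max_left _ _)).trans (hTK v h1 h2).1)
      hlev hh hrN hN (by
      have g1 := hw2 u le_rfl (by omega)
      nlinarith) (by nlinarith) hσ0 hσ hD2'
  have e2 : (fun z : ℤ => t ≤ |lt μ s (shf κ a₀) r (u + m) z - lt μ s (shf κ a₀) r u x|) =
      fun z : ℤ => t ≤ |lt μ s κ r (u + m) z - lt μ s κ r u x| := by
    funext z
    rw [e1 z]
  have e3 : PM16 (fun a b x z => nk μ s h η p M a (b - a) x z) (bh16 μ s h η p M N) (r u) (r (u + m)) x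
      (fun z => t ≤ |lt μ s (shf κ a₀) r (u + m) z - lt μ s (shf κ a₀) r u x|) =
      PM16 (fun a b x z => nk μ s h η p M a (b - a) x z) (bh16 μ s h η p M N) (r u) (r (u + m)) x
        (fun z => t ≤ |lt μ s κ r (u + m) z - lt μ s κ r u x|) := by
    congr 1
  rw [e3] at key
  exact key

end

end Pool.Agent.W_7d29a1_C1.Own67
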