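import Pool.Agent.W_7d29a1_C1.CaS88
import Pool.Agent.W_7d29a1_C1.CrI84
import Pool.Agent.W_7d29a1_C1.Ctx60

/-!
MP_7d29a1_pr, attractor route [C1], THE LAW HALF OF THE TOPS: `CrS84` and `CA88` for an admissible context off a rare event. (helper88)
-/

set_option autoImplicit false

namespace Pool.Agent.W_7d29a1_C1.CaS88

open MeasureTheory ProbabilityTheory Filter Topology Finset
open Pool.Agent.W_7d29a1_F Pool.Agent.W_7d29a1_h4g Pool.Agent.W_7d29a1_H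
open Pool.Agent.W_7d29a1_HS (In wd md md_abs wd_le_two wd_lower_one wd_tendsto)
open Pool.Agent.W_7d29a1_C1.H60 (Cx Adm)
open Pool.Agent.W_7d29a1_C1.U16 Pool.Agent.W_7d29a1_C1.FarW89 Pool.Agent.W_7d29a1_C1.Win84 Pool.Agent.W_7d29a1_C1.Cr84

noncomputable section

variable {μ : Measure ℝ} {s : ℝ} [IsProbabilityMeasure μ] {c C : ℝ} {n₀ : ℕ}

/-- **THE LAW HALF**, any system below the size `N`. -/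
theorem law88 (h : In μ s c C n₀) (hL : LB84 μ s) (hU : UB84 μ s) (hF : FUT84 μ s) {ε₁ τ : ℝ} (hε₁ : 0 < ε₁) (hτ : 0 < τ) :
    ∃ δ₁ εa κ c₁ c₂ c' : ℝ, 0 < δ₁ ∧ 0 < εa ∧ εa < δ₁ ∧ εa ≤ ε₁ ∧ 0 < κ ∧ 0 < c₁ ∧ 0 < c₂ ∧ 0 < c' ∧ ∃ N₀ : ℕ, ∀ N Nf T H : ℕ, N₀ ≤ N →
    (N : ℝ) ^ τ ≤ T → T ≤ N → H ≤ N → ∀ t : ℝ, |t| * EE μ s Nf ≤ (N : ℝ) ^ κ → |t| * T ≤ 1 →
    ∃ bad : Set Env, (law μ).real bad ≤ Real.exp (-(N : ℝ) ^ c') ∧ ∀ η ∉ bad, ∀ (M Nt : ℕ) (p : ℕ → ℝ), M ≤ Nf → M + 1 ≤ Nt → Nt ≤ N →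
      (∀ k, k < M → p k = Real.exp (s + t)) → (∀ k, M ≤ k → p k = Real.exp s) →
      CrS84 μ s t ε₁ δ₁ c₁ N T M Nt p η ∧ CA88 μ s t c εa N T H M Nt p η := by
  obtain ⟨δ₁, κ₁, c₁, hδ₁, hκ₁, hc₁, N₁, H₁⟩ := crd84f h hL hU hF hε₁ hτ
  obtain ⟨εa, hεa⟩ : ∃ εa : ℝ, εa = min (δ₁ / 2) ε₁ := ⟨_, rfl⟩
  have hεa0 : 0 < εa := by rw [hεa]; exact lt_min (by positivity) hε₁
  have hεa1 : εa < δ₁ := by
    have : εa ≤ δ₁ / 2 := by rw [hεa]; exact min_le_left _ _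
    linarith
  have hεa2 : εa ≤ ε₁ := by rw [hεa]; exact min_le_right _ _
  obtain ⟨ε₀, hε₀⟩ : ∃ ε₀ : ℝ, ε₀ = εa / 4 := ⟨_, rfl⟩
  have hε₀0 : 0 < ε₀ := by rw [hε₀]; positivity
  obtain ⟨δ₂, κ₂, c₂, hδ₂, hκ₂, hc₂, N₂, H₂⟩ := crd84f h hL hU hF hε₀0 hτ
  obtain ⟨P, hP⟩ := fg_law88 h
  obtain ⟨c₃, hc₃, N₃, H₃⟩ := hP hε₀0 hτ
  obtain ⟨n₄, hn₄, H₄⟩ := cas88 h hL P hε₀0 (show 4 * ε₀ ≤ εa by rw [hε₀]; linarith)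
  obtain ⟨g, hg⟩ : ∃ g : ℝ, g = min (min c₁ c₂) c₃ := ⟨_, rfl⟩
  have hg0 : 0 < g := by rw [hg]; exact lt_min (lt_min hc₁ hc₂) hc₃
  have hg1 : g ≤ c₁ := by rw [hg]; exact (min_le_left _ _).trans (min_le_left _ _)
  have hg2 : g ≤ c₂ := by rw [hg]; exact (min_le_left _ _).trans (min_le_right _ _)
  have hg3 : g ≤ c₃ := by rw [hg]; exact min_le_right _ _
  have ev1 := Pool.Agent.W_7d29a1_HZ.Z22.absorb 3 0 (b := 1) (g := g) one_pos hg0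
  obtain ⟨N₅, hN₅⟩ := eventually_atTop.1 (ev1.and (ev84 (n₄ : ℝ) hτ))
  refine ⟨δ₁, εa, min κ₁ κ₂, c₁, c₂, g / 2, hδ₁, hεa0, hεa1, hεa2, lt_min hκ₁ hκ₂, hc₁, hc₂, by positivity, max (max N₁ N₂) (max N₃ (max N₅ 1)), ?_⟩
  intro N Nf T H hN hNT hTN hHN t ht htT
  have k1 : N₁ ≤ N := ((le_max_left _ _).trans (le_max_left _ _)).trans hN
  have k2 : N₂ ≤ N := ((le_max_right _ _).trans (le_max_left _ _)).trans hN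
  have k3 : N₃ ≤ N := ((le_max_left _ _).trans (le_max_right _ _)).trans hN
  have k4 : N₅ ≤ N := (((le_max_left _ _).trans (le_max_right _ _)).trans (le_max_right _ _)).trans hN
  have k5 : 1 ≤ N := (((le_max_right _ _).trans (le_max_right _ _)).trans (le_max_right _ _)).trans hN
  have hNR : (1 : ℝ) ≤ N := by exact_mod_cast k5
  obtain ⟨q1, q2⟩ := hN₅ N k4
  have hT4 : n₄ ≤ T := by
    have : (n₄ : ℝ) ≤ T := q2.trans hNT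
    exact_mod_cast this
  obtain ⟨G₁, hG₁, HG₁⟩ := H₁ N Nf T k1 hNT hTN t (ht.trans (Real.rpow_le_rpow_of_exponent_le hNR (min_le_left _ _)))
  obtain ⟨G₂, hG₂, HG₂⟩ := H₂ N Nf T k2 hNT hTN t (ht.trans (Real.rpow_le_rpow_of_exponent_le hNR (min_le_right _ _)))
  have hG₃ := H₃ N T H k3 hNT hTN hHN
  refine ⟨(G₁ᶜ ∪ G₂ᶜ) ∪ (FG88 μ s c P ((N : ℝ) ^ ε₀) N T H)ᶜ, ?_, ?_⟩
  · have a1 : ∀ x : ℝ, g ≤ x → Real.exp (-(N : ℝ) ^ x) ≤ Real.exp (-(N : ℝ) ^ g) := fun x hx =>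
      Real.exp_le_exp.2 (neg_le_neg (Real.rpow_le_rpow_of_exponent_le hNR hx))
    have a2 := measureReal_union_le (μ := law μ) (G₁ᶜ ∪ G₂ᶜ) (FG88 μ s c P ((N : ℝ) ^ ε₀) N T H)ᶜ
    have a3 := measureReal_union_le (μ := law μ) G₁ᶜ G₂ᶜ
    have a4 := a1 c₁ hg1
    have a5 := a1 c₂ hg2
    have a6 := a1 c₃ hg3
    rw [Real.rpow_zero, mul_one, one_mul] at q1
    linarith
  · intro η hη M Nt p hM hMN hNt hp hp'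
    rw [Set.mem_union, Set.mem_union, not_or, not_or, Set.mem_compl_iff, Set.mem_compl_iff, Set.mem_compl_iff, not_not, not_not, not_not] at hη
    have S₁ := HG₁ η hη.1.1 M Nt p hM hMN hNt hp hp'
    have S₂ := HG₂ η hη.1.2 M Nt p hM hMN hNt hp hp'
    exact ⟨S₁, H₄ hT4 hδ₂.le htT hp hp' S₂ hη.2 hNt⟩

/-- **THE LAW HALF FOR A CONTEXT**. -/
theorem tpl88 (h : In μ s c C n₀) (hL : LB84 μ s) (hU : UB84 μ s) (hF : FUT84 μ s) {ε₁ τ : ℝ} (hε₁ : 0 < ε₁) (hτ : 0 < τ) :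
    ∃ δ₁ εa κ₀ c₁ c' : ℝ, 0 < δ₁ ∧ 0 < εa ∧ εa < δ₁ ∧ εa ≤ ε₁ ∧ 0 < κ₀ ∧ 0 < c₁ ∧ 0 < c' ∧ ∃ n₁ : ℕ, 1 ≤ n₁ ∧ ∀ n : ℕ, n₁ ≤ n →
    ∀ {c₂ δ κ : ℝ} {Γ : Cx}, c₂ ≤ 1 → κ ≤ κ₀ → Adm μ s c₂ δ κ n Γ → ∃ N : ℕ, n ≤ N ∧ Γ.N ≤ N ∧ (N : ℝ) ≤ (n : ℝ) ^ (7 : ℝ) ∧
    ∀ T H : ℕ, (N : ℝ) ^ τ ≤ T → T ≤ H → H ≤ N → |Γ.h| * H ≤ 1 →
    ∃ bad : Set Env, (law μ).real bad ≤ Real.exp (-(n : ℝ) ^ c') ∧ ∀ η ∉ bad,
      CrS84 μ s Γ.h ε₁ δ₁ c₁ N T Γ.M Γ.N Γ.p η ∧ CA88 μ s Γ.h c εa N T H Γ.M Γ.N Γ.p η := by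
  obtain ⟨δ₁, εa, κ₀, c₁, c₂', c', hδ₁, hεa, hεa1, hεa2, hκ₀, hc₁, -, hc', N₀, HH⟩ := law88 h hL hU hF hε₁ hτ
  refine ⟨δ₁, εa, κ₀, c₁, c', hδ₁, hεa, hεa1, hεa2, hκ₀, hc₁, hc', max N₀ 4, le_trans (by norm_num) (le_max_right _ _), ?_⟩
  intro n hn c₂ δ κ Γ hc₂ hκ hA
  have b0 : N₀ ≤ n := (le_max_left _ _).trans hn
  have b4 : 4 ≤ n := (le_max_right _ _).trans hn
  have hn1 : (4 : ℝ) ≤ n := by exact_mod_cast b4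
  have hn0 : (0 : ℝ) < n := by linarith only [hn1]
  have hn1' : (1 : ℝ) ≤ n := by linarith only [hn1]
  obtain ⟨Na, L, hNa, hNan, hL3, hL2, hM, hΓN, -, hh⟩ := hA.hor
  obtain ⟨N, hN⟩ : ∃ N : ℕ, N = 4 * Na ^ 3 := ⟨_, rfl⟩
  have hNa1 : 1 ≤ Na := by omega
  have hNa3 : Na ≤ Na ^ 3 := Nat.le_self_pow (by norm_num) Na
  have hNaN : Na ≤ N := by omega
  have hnN : n ≤ N := hNa.trans hNaN
  have hΓ : Γ.N ≤ N := by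
    have h1 : 1 ≤ Na ^ 3 := Nat.one_le_pow _ _ hNa1
    omega
  have hNn7 : (N : ℝ) ≤ (n : ℝ) ^ (7 : ℝ) := by
    have h1 : (Na : ℝ) ≤ (n : ℝ) ^ (2 : ℝ) := hNan.trans (Real.rpow_le_rpow_of_exponent_le hn1' (by linarith only [hc₂]))
    have h2 : (Na : ℝ) ^ 3 ≤ ((n : ℝ) ^ (2 : ℝ)) ^ 3 := pow_le_pow_left₀ (Nat.cast_nonneg _) h1 3
    have h3 : (N : ℝ) = 4 * (Na : ℝ) ^ 3 := by rw [hN]; push_cast; ring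
    have h4 : ((n : ℝ) ^ (2 : ℝ)) ^ 3 = (n : ℝ) ^ (6 : ℝ) := by
      rw [← Real.rpow_natCast, ← Real.rpow_mul hn0.le]
      norm_num
    have h5 : (n : ℝ) ^ (7 : ℝ) = n * (n : ℝ) ^ (6 : ℝ) := by
      rw [show (7 : ℝ) = 1 + 6 by norm_num, Real.rpow_add hn0, Real.rpow_one]
    rw [h3, h5]
    rw [h4] at h2
    have h6 : 0 ≤ (n : ℝ) ^ (6 : ℝ) := by positivity
    have h7 := mul_le_mul_of_nonneg_right hn1 h6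
    linarith only [h2, h7]
  refine ⟨N, hnN, hΓ, hNn7, fun T H hNT hTH hHN hh1 => ?_⟩
  have hκN : |Γ.h| * EE μ s Na ≤ (N : ℝ) ^ κ₀ := by
    have h1 : (Na : ℝ) ^ κ ≤ (Na : ℝ) ^ κ₀ := Real.rpow_le_rpow_of_exponent_le (by exact_mod_cast hNa1) hκ
    have h2 : (Na : ℝ) ^ κ₀ ≤ (N : ℝ) ^ κ₀ := Real.rpow_le_rpow (Nat.cast_nonneg _) (by exact_mod_cast hNaN) hκ₀.le
    exact hh.trans (h1.trans h2)
  have hT1 : |Γ.h| * T ≤ 1 := le_trans (mul_le_mul_of_nonneg_left (by exact_mod_cast hTH) (abs_nonneg _)) hh1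
  obtain ⟨bad, hb, HB⟩ := HH N Na T H (b0.trans hnN) hNT (hTH.trans hHN) hHN Γ.h hκN hT1
  refine ⟨bad, hb.trans (Real.exp_le_exp.2 (neg_le_neg (Real.rpow_le_rpow hn0.le (by exact_mod_cast hnN) hc'.le))), fun η hη => ?_⟩
  refine HB η hη Γ.M Γ.N Γ.p hM (by omega) hΓ (fun k hk => ?_) fun k hk => ?_
  · rw [← hA.hs]
    exact if_pos hk
  · rw [← hA.hs]
    exact if_neg (not_lt.2 hk)

end

end Pool.Agent.W_7d29a1_C1.CaS88
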