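import Pool.Agent.W_7d29a1_C1.KerP16
import Pool.Agent.W_7d29a1_C1.PairP91

/-!
MP_7d29a1_pr, [C1] attractor route, (Y): THE LUCK OF A TUBE BEHIND A CONTACT CANCELS, deterministic. (helper87)

Model K91P (`fw`, `bw`, `ker`, row dependent step weights `p`). `Mo w i x = bw w p i (N - i) x` = the mass from the site `(i, x)` to the
free end. The environment `w'` agrees with `w` off the rows `r1 ≤ i < r2`, which are cut into five slabs

  `A | F1 | M | F2 | B`,   cells: `mo` (mouth of `F1`), `be` (exit of `F1` = entrance of `M`), `be'` (exit of `M` = mouth of `F2`).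

Everything is measured in the OLD masses `Mo w`. `Leak`: one slab of `w'` multiplies the old masses by at most `R`, for EVERY start;
`LeakL`: the same for a lane slab off the pairs mouth - exit. With lower bounds at a few pairs and one lucky pair in `F1` and in `F2`:

* `lo_c`: the future mass of `c` rises at least by `Γ / (2 K)`, `up_Z`: the total mass of a group at most by `5 R Γ`, so the luck `Γ`
  cancels in the weight of a contact (`weight_le`);
* `off_le`: the replicas go through `be` and `be'`, up to `3 K^2 R^3 / (La P(c))`.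
-/

set_option autoImplicit false

namespace Pool.Agent.W_7d29a1_C1.Tb87

open Finset
open Pool.Agent.W_7d29a1_C1.K91 (Box Grp)
open Pool.Agent.W_7d29a1_C1.K91P
open Pool.Agent.W_7d29a1_C1.U16 (ker ker_zero ker_succ ker_nonneg ker_eq_zero fw_ker bw_ker)

noncomputable section

/-! ### Values with a final profile -/

/-- The mass from `(k, y)` over `j` rows with the final profile `g`. -/
def vf (w : ℕ → ℤ → ℝ) (p : ℕ → ℝ) (g : ℤ → ℝ) : ℕ → ℕ → ℤ → ℝ
  | _, 0, y => g y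
  | k, j + 1, y => w k y * (vf w p g (k + 1) j y + p k * vf w p g (k + 1) j (y + 1))

section Det

variable {w w' : ℕ → ℤ → ℝ} {p : ℕ → ℝ} {g g' : ℤ → ℝ}

theorem vf_zero (g : ℤ → ℝ) (k : ℕ) (y : ℤ) : vf w p g k 0 y = g y := by
  cases k <;> rfl

theorem vf_succ (g : ℤ → ℝ) (k j : ℕ) (y : ℤ) :
    vf w p g k (j + 1) y = w k y * (vf w p g (k + 1) j y + p k * vf w p g (k + 1) j (y + 1)) := by
  cases k <;> rfl

theorem vf_one : ∀ (j k : ℕ) (y : ℤ), vf w p (fun _ => 1) k j y = bw w p k j y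
  | 0, k, y => by rw [vf_zero, bw_zero]
  | j + 1, k, y => by rw [vf_succ, bw_succ, vf_one j (k + 1) y, vf_one j (k + 1) (y + 1)]

/-- Composition. -/
theorem vf_comp : ∀ (m n k : ℕ) (y : ℤ), vf w p g k (m + n) y = vf w p (fun z => vf w p g (k + m) n z) k m y
  | 0, n, k, y => by rw [vf_zero, zero_add, add_zero]
  | m + 1, n, k, y => by
    have e1 : m + 1 + n = (m + n) + 1 := by ring
    have e2 : k + (m + 1) = k + 1 + m := by ring
    rw [e1, vf_succ, vf_succ, vf_comp m n (k + 1) y, vf_comp m n (k + 1) (y + 1), e2]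

theorem vf_mono (hw : ∀ k y, 0 < w k y) (hp : ∀ k, 0 < p k) : ∀ (j k : ℕ) (y : ℤ),
    (∀ z, y ≤ z → z ≤ y + j → g z ≤ g' z) → vf w p g k j y ≤ vf w p g' k j y
  | 0, k, y, h => by
    rw [vf_zero, vf_zero]
    exact h y le_rfl (by simp)
  | j + 1, k, y, h => by
    push_cast at h
    rw [vf_succ, vf_succ]
    have h1 := vf_mono hw hp j (k + 1) y fun z hz hz' => h z hz (by omega)
    have h2 := vf_mono hw hp j (k + 1) (y + 1) fun z hz hz' => h z (by omega) (by omega)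
    have h3 := hw k y
    have h4 := hp k
    exact mul_le_mul_of_nonneg_left (add_le_add h1 (mul_le_mul_of_nonneg_left h2 h4.le)) h3.le

theorem vf_nonneg (hw : ∀ k y, 0 < w k y) (hp : ∀ k, 0 < p k) (hg : ∀ z, 0 ≤ g z) : ∀ (j k : ℕ) (y : ℤ), 0 ≤ vf w p g k j y
  | 0, k, y => by
    rw [vf_zero]
    exact hg y
  | j + 1, k, y => by
    rw [vf_succ]
    have h1 := vf_nonneg hw hp hg j (k + 1) y
    have h2 := vf_nonneg hw hp hg j (k + 1) (y + 1)
    have h3 := hw k y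
    have h4 := hp k
    positivity

theorem vf_smul (c : ℝ) : ∀ (j k : ℕ) (y : ℤ), vf w p (fun z => c * g z) k j y = c * vf w p g k j y
  | 0, k, y => by rw [vf_zero, vf_zero]
  | j + 1, k, y => by
    rw [vf_succ, vf_succ, vf_smul c j (k + 1) y, vf_smul c j (k + 1) (y + 1)]
    ring

theorem vf_add : ∀ (j k : ℕ) (y : ℤ), vf w p (fun z => g z + g' z) k j y = vf w p g k j y + vf w p g' k j y
  | 0, k, y => by rw [vf_zero, vf_zero, vf_zero]
  | j + 1, k, y => by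
    rw [vf_succ, vf_succ, vf_succ, vf_add j (k + 1) y, vf_add j (k + 1) (y + 1)]
    ring

theorem vf_congr (h : ∀ z, g z = g' z) (j k : ℕ) (y : ℤ) : vf w p g k j y = vf w p g' k j y := by
  have : g = g' := funext h
  rw [this]

theorem vf_last (k : ℕ) : ∀ (n : ℕ) (y : ℤ), vf w p g k (n + 1) y =
    vf w p (fun z => w (k + n) z * (g z + p (k + n) * g (z + 1))) k n y := by
  intro n y
  rw [vf_comp n 1 k y]
  refine vf_congr (fun z => ?_) n k y
  rw [vf_succ, vf_zero, vf_zero]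

/-- The value with a final profile is the sum over the kernel. -/
theorem vf_ker (k : ℕ) : ∀ (n : ℕ) (g : ℤ → ℝ) (x : ℤ), vf w p g k n x = ∑ y ∈ Icc x (x + n), ker w p k n x y * g y
  | 0, g, x => by
    have e : Icc x (x + ((0 : ℕ) : ℤ)) = {x} := by simp
    rw [e, sum_singleton, ker_zero, if_pos rfl, one_mul, vf_zero]
  | n + 1, g, x => by
    rw [vf_last, vf_ker k n]
    have h1 : ∀ y ∈ Icc x (x + (n : ℤ)), ker w p k n x y * (w (k + n) y * (g y + p (k + n) * g (y + 1))) =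
        ker w p k n x y * w (k + n) y * g y + p (k + n) * (ker w p k n x y * w (k + n) y * g (y + 1)) := fun y _ => by ring
    rw [sum_congr rfl h1, sum_add_distrib]
    have h2 : ∑ y ∈ Icc x (x + (n : ℤ)), ker w p k n x y * w (k + n) y * g y =
        ∑ y ∈ Icc x (x + ((n + 1 : ℕ) : ℤ)), ker w p k n x y * w (k + n) y * g y := by
      refine sum_subset (Icc_subset_Icc le_rfl (by push_cast; omega)) fun y hy hy' => ?_
      rw [mem_Icc] at hy hy'
      rw [ker_eq_zero k n x y (fun h => hy' ⟨hy.1, h.2⟩)]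
      ring
    have h3 : ∑ y ∈ Icc x (x + (n : ℤ)), p (k + n) * (ker w p k n x y * w (k + n) y * g (y + 1)) =
        ∑ y ∈ Icc x (x + ((n + 1 : ℕ) : ℤ)), p (k + n) * (ker w p k n x (y - 1) * w (k + n) (y - 1) * g y) := by
      have h4 : ∑ y ∈ Icc x (x + (n : ℤ)), p (k + n) * (ker w p k n x y * w (k + n) y * g (y + 1)) =
          ∑ y ∈ Icc (x + 1) (x + (n : ℤ) + 1), p (k + n) * (ker w p k n x (y - 1) * w (k + n) (y - 1) * g y) := by
        refine sum_bij (fun y _ => y + 1) (fun y hy => ?_) (fun a _ b _ hab => by simpa using hab) (fun y hy => ?_) (fun y _ => ?_)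
        · rw [mem_Icc] at hy ⊢
          omega
        · rw [mem_Icc] at hy
          exact ⟨y - 1, mem_Icc.2 ⟨by omega, by omega⟩, by ring⟩
        · rw [add_sub_cancel_right]
      rw [h4]
      refine sum_subset (Icc_subset_Icc (by omega) (by push_cast; omega)) fun y hy hy' => ?_
      rw [mem_Icc] at hy hy'
      push_cast at hy
      rw [ker_eq_zero k n x (y - 1) (fun h => hy' ⟨by omega, by omega⟩)]
      ring
    rw [h2, h3, ← sum_add_distrib]
    refine sum_congr rfl fun y _ => ?_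
    rw [ker_succ]
    ring

/-- One site of the end. -/
theorem ker_mul_le_vf (hw : ∀ k y, 0 < w k y) (hp : ∀ k, 0 < p k) (hg : ∀ z, 0 ≤ g z) (k n : ℕ) (x y : ℤ) :
    ker w p k n x y * g y ≤ vf w p g k n x := by
  by_cases h : x ≤ y ∧ y ≤ x + n
  · rw [vf_ker]
    exact single_le_sum (f := fun y => ker w p k n x y * g y) (fun z _ => mul_nonneg (ker_nonneg hw hp k n x z) (hg z))
      (mem_Icc.2 h)
  · rw [ker_eq_zero k n x y h, zero_mul]
    exact vf_nonneg hw hp hg n k x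

end Det

/-! ### The masses to the free end -/

/-- The mass from `(i, x)` to the free end (row `N`). -/
def Mo (w : ℕ → ℤ → ℝ) (p : ℕ → ℝ) (N i : ℕ) (x : ℤ) : ℝ := bw w p i (N - i) x

section Mass

variable {w w' : ℕ → ℤ → ℝ} {p : ℕ → ℝ} {N : ℕ}

theorem Mo_pos (hw : ∀ k y, 0 < w k y) (hp : ∀ k, 0 < p k) (i : ℕ) (x : ℤ) : 0 < Mo w p N i x := bw_pos hw hp _ _ _

theorem Mo_vf {i n : ℕ} (h : i + n ≤ N) (x : ℤ) : Mo w p N i x = vf w p (Mo w p N (i + n)) i n x := by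
  unfold Mo
  have e1 : N - i = n + (N - (i + n)) := by omega
  rw [e1, ← vf_one, vf_comp]
  refine vf_congr (fun z => ?_) n i x
  rw [vf_one]

theorem Mo_ker {i n : ℕ} (h : i + n ≤ N) (x : ℤ) : Mo w p N i x = ∑ y ∈ Icc x (x + n), ker w p i n x y * Mo w p N (i + n) y := by
  rw [Mo_vf h, vf_ker]

/-- Behind the changed rows nothing changes. -/
theorem Mo_eq {r2 : ℕ} (h : ∀ i, r2 ≤ i → ∀ y, w' i y = w i y) {i : ℕ} (hi : r2 ≤ i) (x : ℤ) : Mo w' p N i x = Mo w p N i x := by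
  unfold Mo
  exact bw_congr _ _ (fun j hj y => h j (by omega) y) x

/-- **LEAK**: the slab of `w'` of the rows `a, .., a + n - 1` multiplies the old masses by at most `R`. -/
def Leak (w w' : ℕ → ℤ → ℝ) (p : ℕ → ℝ) (N a n : ℕ) (R : ℝ) : Prop :=
  ∀ x, vf w' p (Mo w p N (a + n)) a n x ≤ R * Mo w p N a x

/-- **LEAK OF A LANE SLAB**: the same off the pairs `mo - ex`. -/
def LeakL (w w' : ℕ → ℤ → ℝ) (p : ℕ → ℝ) (N a n : ℕ) (mo ex : Finset ℤ) (R : ℝ) : Prop :=
  (∀ x, x ∉ mo → vf w' p (Mo w p N (a + n)) a n x ≤ R * Mo w p N a x) ∧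
    ∀ x ∈ mo, vf w' p (fun y => if y ∈ ex then 0 else Mo w p N (a + n) y) a n x ≤ R * Mo w p N a x

theorem leak_iff {a n : ℕ} {R : ℝ} : Leak w w' p N a n R ↔
    ∀ x : ℤ, ∑ y ∈ Icc x (x + n), ker w' p a n x y * Mo w p N (a + n) y ≤ R * Mo w p N a x := by
  unfold Leak
  simp only [vf_ker]

theorem sum_off {a n : ℕ} {mo ex : Finset ℤ} {x : ℤ} (hx : x ∈ mo) :
    ∑ y ∈ (Icc x (x + n)).filter (fun y => ¬ (x ∈ mo ∧ y ∈ ex)), ker w' p a n x y * Mo w p N (a + n) y =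
      ∑ y ∈ Icc x (x + n), ker w' p a n x y * (if y ∈ ex then 0 else Mo w p N (a + n) y) := by
  rw [sum_filter]
  refine sum_congr rfl fun y _ => ?_
  by_cases hy : y ∈ ex
  · rw [if_neg (fun h : ¬ (x ∈ mo ∧ y ∈ ex) => h ⟨hx, hy⟩), if_pos hy, mul_zero]
  · rw [if_pos (fun h : x ∈ mo ∧ y ∈ ex => hy h.2), if_neg hy]

theorem sum_off' {a n : ℕ} {mo ex : Finset ℤ} {x : ℤ} (hx : x ∉ mo) :
    ∑ y ∈ (Icc x (x + n)).filter (fun y => ¬ (x ∈ mo ∧ y ∈ ex)), ker w' p a n x y * Mo w p N (a + n) y =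
      ∑ y ∈ Icc x (x + n), ker w' p a n x y * Mo w p N (a + n) y := by
  rw [sum_filter]
  exact sum_congr rfl fun y _ => if_pos (fun h : x ∈ mo ∧ y ∈ ex => hx h.1)

theorem leakL_iff {a n : ℕ} {mo ex : Finset ℤ} {R : ℝ} : LeakL w w' p N a n mo ex R ↔
    ∀ x : ℤ, ∑ y ∈ (Icc x (x + n)).filter (fun y => ¬ (x ∈ mo ∧ y ∈ ex)), ker w' p a n x y * Mo w p N (a + n) y ≤ R * Mo w p N a x := by
  unfold LeakL
  simp only [vf_ker]
  constructor
  · rintro ⟨h1, h2⟩ x
    by_cases hx : x ∈ mo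
    · rw [sum_off hx]
      exact h2 x hx
    · rw [sum_off' hx]
      exact h1 x hx
  · intro h
    refine ⟨fun x hx => ?_, fun x hx => ?_⟩
    · have h1 := h x
      rw [sum_off' hx] at h1
      exact h1
    · have h1 := h x
      rw [sum_off hx] at h1
      exact h1

/-- The masses of one group, transported over `n` rows with any final profile. -/
theorem sum_fw_vf {m : ℤ → ℝ} {lo hi : ℤ} (h0 : ∀ y, y < lo → m y = 0) (h1 : ∀ y, hi - N < y → m y = 0) (hlh : lo ≤ hi) (k : ℕ) :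
    ∀ (n : ℕ) (g : ℤ → ℝ), k + n ≤ N → ∑ y ∈ Icc lo hi, fw w p m (k + n) y * g y = ∑ y ∈ Icc lo hi, fw w p m k y * vf w p g k n y
  | 0, g, _ => sum_congr rfl fun y _ => by rw [vf_zero, add_zero]
  | n + 1, g, hk => by
    have hkN : ((k : ℕ) : ℤ) + n < N := by exact_mod_cast (by omega : k + n < N)
    rw [show ∑ y ∈ Icc lo hi, fw w p m k y * vf w p g k (n + 1) y =
      ∑ y ∈ Icc lo hi, fw w p m k y * vf w p (fun z => w (k + n) z * (g z + p (k + n) * g (z + 1))) k n y from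
      sum_congr rfl fun y _ => by rw [vf_last], ← sum_fw_vf h0 h1 hlh k n _ (by omega)]
    have e0 : ∀ y ∈ Icc lo hi, fw w p m (k + (n + 1)) y * g y = w (k + n) y * fw w p m (k + n) y * g y +
        (fun z => p (k + n) * (w (k + n) z * fw w p m (k + n) z) * g (z + 1)) (y - 1) := by
      intro y _
      show fw w p m (k + n + 1) y * g y = _ + p (k + n) * (w (k + n) (y - 1) * fw w p m (k + n) (y - 1)) * g (y - 1 + 1)
      rw [fw_succ, sub_add_cancel]
      ring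
    have e1 : ∑ y ∈ Icc lo hi, (fun z => p (k + n) * (w (k + n) z * fw w p m (k + n) z) * g (z + 1)) (y - 1) =
        ∑ y ∈ Icc lo hi, (fun z => p (k + n) * (w (k + n) z * fw w p m (k + n) z) * g (z + 1)) y := by
      refine K91.sum_shift (f := fun z => p (k + n) * (w (k + n) z * fw w p m (k + n) z) * g (z + 1)) hlh ?_ ?_
      · show p (k + n) * (w (k + n) (lo - 1) * fw w p m (k + n) (lo - 1)) * _ = 0
        rw [fw_lo h0 (k + n) _ (show lo - 1 < lo by omega)]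
        ring
      · show p (k + n) * (w (k + n) hi * fw w p m (k + n) hi) * _ = 0
        rw [fw_hi (B := hi - N) h1 (k + n) hi (by push_cast; omega)]
        ring
    rw [sum_congr rfl e0, sum_add_distrib, e1, ← sum_add_distrib]
    refine sum_congr rfl fun y _ => ?_
    ring

end Mass

/-! ### The tube -/

/-- **THE TUBE**: the rows `r1 < r0 < b1 < b2 < b3 < r2`, the cells and the numbers. `w` old, `w'` new environment. -/
structure Tube (w w' : ℕ → ℤ → ℝ) (p : ℕ → ℝ) (N r1 nA n1 nM n2 nB : ℕ) (In mo be be' ex : Finset ℤ) (R K La : ℝ) : Prop where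
  hN : r1 + nA + n1 + nM + n2 + nB ≤ N
  past : ∀ i, i < r1 → ∀ y, w' i y = w i y
  fut : ∀ i, r1 + nA + n1 + nM + n2 + nB ≤ i → ∀ y, w' i y = w i y
  R1 : 1 ≤ R
  K1 : 1 ≤ K
  big : K ^ 2 * R ^ 3 ≤ La
  lA : Leak w w' p N r1 nA R
  l1 : LeakL w w' p N (r1 + nA) n1 mo be R
  lM : Leak w w' p N (r1 + nA + n1) nM R
  l2 : LeakL w w' p N (r1 + nA + n1 + nM) n2 be' ex R
  lB : Leak w w' p N (r1 + nA + n1 + nM + n2) nB R
  kA : ∀ x ∈ In, ∀ m ∈ mo, Mo w p N r1 x ≤ K * (ker w' p r1 nA x m * Mo w p N (r1 + nA) m)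
  k1 : ∃ m ∈ mo, ∃ e ∈ be, La * Mo w p N (r1 + nA) m ≤ ker w' p (r1 + nA) n1 m e * Mo w p N (r1 + nA + n1) e
  kM : ∀ x ∈ be, ∀ y ∈ be', Mo w p N (r1 + nA + n1) x ≤ K * (ker w' p (r1 + nA + n1) nM x y * Mo w p N (r1 + nA + n1 + nM) y)
  k2 : ∃ m ∈ be', ∃ e, La * Mo w p N (r1 + nA + n1 + nM) m ≤
      ker w' p (r1 + nA + n1 + nM) n2 m e * Mo w p N (r1 + nA + n1 + nM + n2) e ∧
      Mo w p N (r1 + nA + n1 + nM + n2) e ≤ K * Mo w' p N (r1 + nA + n1 + nM + n2) e

section Tube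

variable {w w' : ℕ → ℤ → ℝ} {p : ℕ → ℝ} {N r1 nA n1 nM n2 nB : ℕ} {In mo be be' ex : Finset ℤ} {R K La : ℝ}

/-- The mass from `(b1, x)` through `be'`. -/
def thr2 (w' : ℕ → ℤ → ℝ) (p : ℕ → ℝ) (N b1 nM : ℕ) (be' : Finset ℤ) (x : ℤ) : ℝ :=
  vf w' p (fun y => if y ∈ be' then Mo w' p N (b1 + nM) y else 0) b1 nM x

/-- The mass from `(a, x)` through `be` (row `a + n`) and `be'`. -/
def thr (w' : ℕ → ℤ → ℝ) (p : ℕ → ℝ) (N a n nM : ℕ) (be be' : Finset ℤ) (x : ℤ) : ℝ :=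
  vf w' p (fun y => if y ∈ be then thr2 w' p N (a + n) nM be' y else 0) a n x

theorem thr2_nonneg (hw' : ∀ k y, 0 < w' k y) (hp : ∀ k, 0 < p k) (b1 : ℕ) (x : ℤ) : 0 ≤ thr2 w' p N b1 nM be' x := by
  refine vf_nonneg hw' hp (fun z => ?_) _ _ _
  split_ifs
  · exact (Mo_pos hw' hp _ _).le
  · exact le_rfl

/-- What the composition of the slabs gives. -/
theorem core (T : Tube w w' p N r1 nA n1 nM n2 nB In mo be be' ex R K La) (hw : ∀ k y, 0 < w k y) (hw' : ∀ k y, 0 < w' k y)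
    (hp : ∀ k, 0 < p k) : ∃ Γ k3 δ : ℝ, 0 < k3 ∧ 0 ≤ δ ∧ δ ≤ 1 ∧ La * δ ≤ K ^ 2 * R ^ 3 ∧ La * k3 ≤ K * Γ ∧ k3 * R ^ 3 ≤ Γ ∧ La ≤ K * k3 ∧
      (∀ x, thr w' p N r1 (nA + n1) nM be be' x ≤ R * Γ * Mo w p N r1 x) ∧
      (∀ x ∈ In, Γ * Mo w p N r1 x ≤ K * thr w' p N r1 (nA + n1) nM be be' x) ∧
      (∀ x, Mo w' p N r1 x ≤ (1 + δ) * thr w' p N r1 (nA + n1) nM be be' x + k3 * R ^ 3 * Mo w p N r1 x) := by
  have hR : 0 < R := by linarith [T.R1]
  have hK : 0 < K := by linarith [T.K1]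
  have hKR : 1 ≤ K ^ 2 * R ^ 3 := one_le_mul_of_one_le_of_one_le (one_le_pow₀ T.K1) (one_le_pow₀ T.R1)
  have hLa : 0 < La := by linarith [T.big]
  obtain ⟨r0, hr0⟩ : ∃ r0, r0 = r1 + nA := ⟨_, rfl⟩
  obtain ⟨b1, hb1⟩ : ∃ b1, b1 = r1 + nA + n1 := ⟨_, rfl⟩
  obtain ⟨b2, hb2⟩ : ∃ b2, b2 = r1 + nA + n1 + nM := ⟨_, rfl⟩
  obtain ⟨b3, hb3⟩ : ∃ b3, b3 = r1 + nA + n1 + nM + n2 := ⟨_, rfl⟩
  obtain ⟨r2, hr2⟩ : ∃ r2, r2 = r1 + nA + n1 + nM + n2 + nB := ⟨_, rfl⟩
  have hN := T.hN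
  have lA := T.lA
  have l1 := T.l1
  have lM := T.lM
  have l2 := T.l2
  have lB := T.lB
  obtain ⟨m1, hm1, e1, he1, h1⟩ := T.k1
  obtain ⟨m2, hm2, e2, h2, h2'⟩ := T.k2
  have kM := T.kM
  have kA := T.kA
  have fut := T.fut
  rw [← hr2] at hN fut
  rw [← hb3] at lB h2 h2'
  rw [← hb2] at l2 h2 kM
  rw [← hb1] at lM h1 kM
  rw [← hr0] at l1 h1 kA
  have s1 : r1 + nA = r0 := hr0.symm
  have s2 : r0 + n1 = b1 := by omega
  have s3 : b1 + nM = b2 := by omega
  have s4 : b2 + n2 = b3 := by omega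
  have s5 : b3 + nB = r2 := by omega
  have s6 : r1 + (nA + n1) = b1 := by omega
  have V0 : ∀ i x, 0 < Mo w' p N i x := fun i x => Mo_pos hw' hp i x
  have M0 : ∀ i x, 0 < Mo w p N i x := fun i x => Mo_pos hw hp i x
  unfold Leak at lA lM lB
  unfold LeakL at l1 l2
  rw [s1] at lA
  rw [s2] at l1
  rw [s3] at lM
  rw [s4] at l2
  rw [s5] at lB
  -- the row `b3`
  have VB : ∀ x, Mo w' p N b3 x ≤ R * Mo w p N b3 x := by
    intro x
    rw [Mo_vf (w := w') (show b3 + nB ≤ N by omega) x, s5]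
    refine le_trans (le_of_eq ?_) (lB x)
    exact vf_congr (fun z => Mo_eq fut le_rfl z) nB b3 x
  -- the row `b2`
  have V2off : ∀ x, x ∉ be' → Mo w' p N b2 x ≤ R * R * Mo w p N b2 x := by
    intro x hx
    rw [Mo_vf (w := w') (show b2 + n2 ≤ N by omega) x, s4]
    calc vf w' p (Mo w' p N b3) b2 n2 x ≤ vf w' p (fun z => R * Mo w p N b3 z) b2 n2 x :=
          vf_mono hw' hp _ _ _ fun z _ _ => VB z
      _ = R * vf w' p (Mo w p N b3) b2 n2 x := vf_smul R _ _ _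
      _ ≤ R * (R * Mo w p N b2 x) := mul_le_mul_of_nonneg_left (l2.1 x hx) hR.le
      _ = _ := by ring
  obtain ⟨x2, hx2, hmax2⟩ := Finset.exists_max_image be' (fun x => Mo w' p N b2 x / Mo w p N b2 x) ⟨m2, hm2⟩
  obtain ⟨k3, hk3⟩ : ∃ k3, k3 = Mo w' p N b2 x2 / Mo w p N b2 x2 := ⟨_, rfl⟩
  have hk30 : 0 < k3 := by rw [hk3]; exact div_pos (V0 _ _) (M0 _ _)
  have hk3x : Mo w' p N b2 x2 = k3 * Mo w p N b2 x2 := by
    rw [hk3, div_mul_cancel₀ _ (M0 _ _).ne']
  have V2in : ∀ x ∈ be', Mo w' p N b2 x ≤ k3 * Mo w p N b2 x := by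
    intro x hx
    have h3 := hmax2 x hx
    rw [← hk3, div_le_iff₀ (M0 _ _)] at h3
    exact h3
  have hLk : La ≤ K * k3 := by
    have h3 : ker w' p b2 n2 m2 e2 * Mo w' p N b3 e2 ≤ Mo w' p N b2 m2 := by
      rw [Mo_vf (w := w') (show b2 + n2 ≤ N by omega) m2, s4]
      exact ker_mul_le_vf hw' hp (g := Mo w' p N b3) (fun z => (V0 b3 z).le) b2 n2 m2 e2
    have h4 := V2in m2 hm2
    have h5 : La * Mo w p N b2 m2 ≤ K * k3 * Mo w p N b2 m2 := by
      calc La * Mo w p N b2 m2 ≤ ker w' p b2 n2 m2 e2 * Mo w p N b3 e2 := h2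
        _ ≤ ker w' p b2 n2 m2 e2 * (K * Mo w' p N b3 e2) := mul_le_mul_of_nonneg_left h2' (ker_nonneg hw' hp _ _ _ _)
        _ = K * (ker w' p b2 n2 m2 e2 * Mo w' p N b3 e2) := by ring
        _ ≤ K * Mo w' p N b2 m2 := mul_le_mul_of_nonneg_left h3 hK.le
        _ ≤ K * (k3 * Mo w p N b2 m2) := mul_le_mul_of_nonneg_left h4 hK.le
        _ = _ := by ring
    exact le_of_mul_le_mul_right h5 (M0 _ _)
  have hbig := T.big
  have hk3R : K * R ^ 3 ≤ k3 := by
    have h3 : K * (K * R ^ 3) ≤ K * k3 := by nlinarith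
    exact le_of_mul_le_mul_left h3 hK
  have hRR : R * R ≤ k3 := by
    have h3 : R * R ≤ K * R ^ 3 := by
      have h4 : 1 ≤ K * R := one_le_mul_of_one_le_of_one_le T.K1 T.R1
      nlinarith [mul_pos hR hR]
    linarith
  have V2 : ∀ x, Mo w' p N b2 x ≤ k3 * Mo w p N b2 x := by
    intro x
    by_cases hx : x ∈ be'
    · exact V2in x hx
    · exact (V2off x hx).trans (mul_le_mul_of_nonneg_right hRR (M0 _ _).le)
  -- the row `b1`
  have V1 : ∀ x, Mo w' p N b1 x ≤ k3 * R * Mo w p N b1 x := by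
    intro x
    rw [Mo_vf (w := w') (show b1 + nM ≤ N by omega) x, s3]
    calc vf w' p (Mo w' p N b2) b1 nM x ≤ vf w' p (fun z => k3 * Mo w p N b2 z) b1 nM x :=
          vf_mono hw' hp _ _ _ fun z _ _ => V2 z
      _ = k3 * vf w' p (Mo w p N b2) b1 nM x := vf_smul k3 _ _ _
      _ ≤ k3 * (R * Mo w p N b1 x) := mul_le_mul_of_nonneg_left (lM x) hk30.le
      _ = _ := by ring
  have T2V : ∀ x, thr2 w' p N b1 nM be' x ≤ Mo w' p N b1 x := by
    intro x
    rw [Mo_vf (w := w') (show b1 + nM ≤ N by omega) x]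
    refine vf_mono hw' hp _ _ _ fun z _ _ => ?_
    split_ifs
    · exact le_rfl
    · exact (V0 _ _).le
  have T2lo : ∀ x ∈ be, k3 * Mo w p N b1 x ≤ K * thr2 w' p N b1 nM be' x := by
    intro x hx
    have h3 : ker w' p b1 nM x x2 * Mo w' p N b2 x2 ≤ thr2 w' p N b1 nM be' x := by
      have h4 := ker_mul_le_vf hw' hp (g := fun y => if y ∈ be' then Mo w' p N (b1 + nM) y else 0) (fun z => by
        split_ifs
        · exact (V0 _ _).le
        · exact le_rfl) b1 nM x x2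
      simp only [if_pos hx2, s3] at h4
      unfold thr2
      rw [s3]
      exact h4
    calc k3 * Mo w p N b1 x ≤ k3 * (K * (ker w' p b1 nM x x2 * Mo w p N b2 x2)) :=
          mul_le_mul_of_nonneg_left (kM x hx x2 hx2) hk30.le
      _ = K * (ker w' p b1 nM x x2 * Mo w' p N b2 x2) := by rw [hk3x]; ring
      _ ≤ _ := mul_le_mul_of_nonneg_left h3 hK.le
  obtain ⟨δ, hδ⟩ : ∃ δ, δ = K * R ^ 3 / k3 := ⟨_, rfl⟩
  have hδ0 : 0 ≤ δ := by rw [hδ]; positivity
  have hδ1 : δ ≤ 1 := by rw [hδ, div_le_one hk30]; exact hk3R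
  have hδk : δ * k3 = K * R ^ 3 := by rw [hδ, div_mul_cancel₀ _ hk30.ne']
  have hδL : La * δ ≤ K ^ 2 * R ^ 3 := by
    calc La * δ ≤ K * k3 * δ := mul_le_mul_of_nonneg_right hLk hδ0
      _ = K * (δ * k3) := by ring
      _ = _ := by rw [hδk]; ring
  have V1be : ∀ x ∈ be, Mo w' p N b1 x ≤ (1 + δ) * thr2 w' p N b1 nM be' x := by
    intro x hx
    have h3 : Mo w' p N b1 x = thr2 w' p N b1 nM be' x +
        vf w' p (fun y => if y ∈ be' then 0 else Mo w' p N (b1 + nM) y) b1 nM x := by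
      rw [Mo_vf (w := w') (show b1 + nM ≤ N by omega) x]
      unfold thr2
      rw [← vf_add]
      refine vf_congr (fun z => ?_) _ _ _
      split_ifs <;> simp
    have h4 : vf w' p (fun y => if y ∈ be' then 0 else Mo w' p N (b1 + nM) y) b1 nM x ≤ R * R * (R * Mo w p N b1 x) := by
      calc vf w' p (fun y => if y ∈ be' then 0 else Mo w' p N (b1 + nM) y) b1 nM x
          ≤ vf w' p (fun z => R * R * Mo w p N b2 z) b1 nM x := vf_mono hw' hp _ _ _ fun z _ _ => by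
            rw [s3]
            split_ifs with hz
            · exact mul_nonneg (mul_nonneg hR.le hR.le) (M0 _ _).le
            · exact V2off z hz
        _ = R * R * vf w' p (Mo w p N b2) b1 nM x := vf_smul _ _ _ _
        _ ≤ _ := mul_le_mul_of_nonneg_left (lM x) (mul_nonneg hR.le hR.le)
    have h5 := T2lo x hx
    have h6 : R * R * (R * Mo w p N b1 x) ≤ δ * thr2 w' p N b1 nM be' x := by
      have h7 : K * (R * R * (R * Mo w p N b1 x)) ≤ K * (δ * thr2 w' p N b1 nM be' x) := by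
        calc K * (R * R * (R * Mo w p N b1 x)) = (K * R ^ 3) * Mo w p N b1 x := by ring
          _ = δ * (k3 * Mo w p N b1 x) := by rw [← hδk]; ring
          _ ≤ δ * (K * thr2 w' p N b1 nM be' x) := mul_le_mul_of_nonneg_left h5 hδ0
          _ = _ := by ring
      exact le_of_mul_le_mul_left h7 hK
    linarith
  -- the row `r0`
  obtain ⟨S, hS⟩ : ∃ S : ℤ → ℝ, S = fun x => vf w' p (fun y => if y ∈ be then thr2 w' p N b1 nM be' y else 0) r0 n1 x := ⟨_, rfl⟩
  have hS0 : ∀ x, 0 ≤ S x := by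
    intro x
    rw [hS]
    refine vf_nonneg hw' hp (fun z => ?_) _ _ _
    split_ifs
    · exact thr2_nonneg hw' hp b1 z
    · exact le_rfl
  have Soff : ∀ x, x ∉ mo → S x ≤ k3 * R * (R * Mo w p N r0 x) := by
    intro x hx
    rw [hS]
    calc vf w' p (fun y => if y ∈ be then thr2 w' p N b1 nM be' y else 0) r0 n1 x
        ≤ vf w' p (fun z => k3 * R * Mo w p N b1 z) r0 n1 x := vf_mono hw' hp _ _ _ fun z _ _ => by
          split_ifs
          · exact (T2V z).trans (V1 z)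
          · exact mul_nonneg (mul_nonneg hk30.le hR.le) (M0 _ _).le
      _ = k3 * R * vf w' p (Mo w p N b1) r0 n1 x := vf_smul _ _ _ _
      _ ≤ _ := mul_le_mul_of_nonneg_left (l1.1 x hx) (mul_nonneg hk30.le hR.le)
  obtain ⟨x0, hx0, hmax0⟩ := Finset.exists_max_image mo (fun x => S x / Mo w p N r0 x) ⟨m1, hm1⟩
  obtain ⟨Γ, hΓ⟩ : ∃ Γ, Γ = S x0 / Mo w p N r0 x0 := ⟨_, rfl⟩
  have hΓx : S x0 = Γ * Mo w p N r0 x0 := by rw [hΓ, div_mul_cancel₀ _ (M0 _ _).ne']
  have Sin : ∀ x ∈ mo, S x ≤ Γ * Mo w p N r0 x := by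
    intro x hx
    have h3 := hmax0 x hx
    rw [← hΓ, div_le_iff₀ (M0 _ _)] at h3
    exact h3
  have hΓk : La * k3 ≤ K * Γ := by
    have h3 : ker w' p r0 n1 m1 e1 * thr2 w' p N b1 nM be' e1 ≤ S m1 := by
      have h4 := ker_mul_le_vf hw' hp (g := fun y => if y ∈ be then thr2 w' p N b1 nM be' y else 0) (fun z => by
        split_ifs
        · exact thr2_nonneg hw' hp b1 z
        · exact le_rfl) r0 n1 m1 e1
      simp only [if_pos he1] at h4
      rw [hS]
      exact h4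
    have h5 : La * k3 * Mo w p N r0 m1 ≤ K * Γ * Mo w p N r0 m1 := by
      calc La * k3 * Mo w p N r0 m1 = k3 * (La * Mo w p N r0 m1) := by ring
        _ ≤ k3 * (ker w' p r0 n1 m1 e1 * Mo w p N b1 e1) := mul_le_mul_of_nonneg_left h1 hk30.le
        _ = ker w' p r0 n1 m1 e1 * (k3 * Mo w p N b1 e1) := by ring
        _ ≤ ker w' p r0 n1 m1 e1 * (K * thr2 w' p N b1 nM be' e1) :=
            mul_le_mul_of_nonneg_left (T2lo e1 he1) (ker_nonneg hw' hp _ _ _ _)
        _ = K * (ker w' p r0 n1 m1 e1 * thr2 w' p N b1 nM be' e1) := by ring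
        _ ≤ K * S m1 := mul_le_mul_of_nonneg_left h3 hK.le
        _ ≤ K * (Γ * Mo w p N r0 m1) := mul_le_mul_of_nonneg_left (Sin m1 hm1) hK.le
        _ = _ := by ring
    exact le_of_mul_le_mul_right h5 (M0 _ _)
  have hΓR : k3 * (K * R ^ 3) ≤ Γ := by
    have h3 : K * (k3 * (K * R ^ 3)) ≤ K * Γ := by
      calc K * (k3 * (K * R ^ 3)) = (K ^ 2 * R ^ 3) * k3 := by ring
        _ ≤ La * k3 := mul_le_mul_of_nonneg_right hbig hk30.le
        _ ≤ _ := hΓk
    exact le_of_mul_le_mul_left h3 hK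
  have hΓ3 : k3 * R ^ 3 ≤ Γ := by
    have h3 : k3 * R ^ 3 ≤ k3 * (K * R ^ 3) :=
      mul_le_mul_of_nonneg_left (le_mul_of_one_le_left (by positivity) T.K1) hk30.le
    linarith
  have hΓ0 : 0 < Γ := lt_of_lt_of_le (by positivity) hΓ3
  have hS1 : ∀ x, S x ≤ Γ * Mo w p N r0 x := by
    intro x
    by_cases hx : x ∈ mo
    · exact Sin x hx
    · refine (Soff x hx).trans ?_
      have h3 : k3 * R * R ≤ k3 * R ^ 3 := by
        have h4 : k3 * R * R = k3 * R ^ 2 := by ring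
        rw [h4]
        exact mul_le_mul_of_nonneg_left (pow_le_pow_right₀ T.R1 (by norm_num)) hk30.le
      calc k3 * R * (R * Mo w p N r0 x) = k3 * R * R * Mo w p N r0 x := by ring
        _ ≤ Γ * Mo w p N r0 x := mul_le_mul_of_nonneg_right (h3.trans hΓ3) (M0 _ _).le
  -- the row `r1`
  have hT : ∀ x, thr w' p N r1 (nA + n1) nM be be' x = vf w' p S r1 nA x := by
    intro x
    unfold thr
    rw [vf_comp, s6, s1, hS]
  have T1 : ∀ x, thr w' p N r1 (nA + n1) nM be be' x ≤ R * Γ * Mo w p N r1 x := by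
    intro x
    rw [hT]
    calc vf w' p S r1 nA x ≤ vf w' p (fun z => Γ * Mo w p N r0 z) r1 nA x := vf_mono hw' hp _ _ _ fun z _ _ => hS1 z
      _ = Γ * vf w' p (Mo w p N r0) r1 nA x := vf_smul _ _ _ _
      _ ≤ Γ * (R * Mo w p N r1 x) := mul_le_mul_of_nonneg_left (lA x) hΓ0.le
      _ = _ := by ring
  have Tlo : ∀ x ∈ In, Γ * Mo w p N r1 x ≤ K * thr w' p N r1 (nA + n1) nM be be' x := by
    intro x hx
    have h3 : ker w' p r1 nA x x0 * S x0 ≤ thr w' p N r1 (nA + n1) nM be be' x := by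
      rw [hT]
      exact ker_mul_le_vf hw' hp hS0 r1 nA x x0
    calc Γ * Mo w p N r1 x ≤ Γ * (K * (ker w' p r1 nA x x0 * Mo w p N r0 x0)) := mul_le_mul_of_nonneg_left (kA x hx x0 hx0) hΓ0.le
      _ = K * (ker w' p r1 nA x x0 * S x0) := by rw [hΓx]; ring
      _ ≤ _ := mul_le_mul_of_nonneg_left h3 hK.le
  have Tnt : ∀ x, Mo w' p N r1 x ≤ (1 + δ) * thr w' p N r1 (nA + n1) nM be be' x + k3 * R ^ 3 * Mo w p N r1 x := by
    intro x
    have h3 : Mo w' p N r1 x = vf w' p (fun y => if y ∈ be then Mo w' p N b1 y else 0) r1 (nA + n1) x +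
        vf w' p (fun y => if y ∈ be then 0 else Mo w' p N b1 y) r1 (nA + n1) x := by
      rw [Mo_vf (w := w') (show r1 + (nA + n1) ≤ N by omega) x, s6, ← vf_add]
      refine vf_congr (fun z => ?_) _ _ _
      split_ifs <;> simp
    have h4 : vf w' p (fun y => if y ∈ be then Mo w' p N b1 y else 0) r1 (nA + n1) x ≤
        (1 + δ) * thr w' p N r1 (nA + n1) nM be be' x := by
      unfold thr
      rw [← vf_smul, s6]
      refine vf_mono hw' hp _ _ _ fun z _ _ => ?_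
      split_ifs with hz
      · exact V1be z hz
      · simp
    have h5 : ∀ m, vf w' p (fun y => if y ∈ be then 0 else Mo w p N b1 y) r0 n1 m ≤ R * Mo w p N r0 m := by
      intro m
      by_cases hm : m ∈ mo
      · exact l1.2 m hm
      · refine le_trans (vf_mono hw' hp _ _ _ fun z _ _ => ?_) (l1.1 m hm)
        split_ifs
        · exact (M0 _ _).le
        · exact le_rfl
    have h6 : vf w' p (fun y => if y ∈ be then 0 else Mo w' p N b1 y) r1 (nA + n1) x ≤ k3 * R ^ 3 * Mo w p N r1 x := by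
      calc vf w' p (fun y => if y ∈ be then 0 else Mo w' p N b1 y) r1 (nA + n1) x
          ≤ vf w' p (fun y => k3 * R * (if y ∈ be then 0 else Mo w p N b1 y)) r1 (nA + n1) x :=
            vf_mono hw' hp _ _ _ fun z _ _ => by
              split_ifs
              · simp
              · exact V1 z
        _ = k3 * R * vf w' p (fun y => if y ∈ be then 0 else Mo w p N b1 y) r1 (nA + n1) x := vf_smul _ _ _ _
        _ = k3 * R * vf w' p (fun m => vf w' p (fun y => if y ∈ be then 0 else Mo w p N b1 y) r0 n1 m) r1 nA x := by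
            rw [vf_comp, s1]
        _ ≤ k3 * R * vf w' p (fun m => R * Mo w p N r0 m) r1 nA x :=
            mul_le_mul_of_nonneg_left (vf_mono hw' hp _ _ _ fun z _ _ => h5 z) (mul_nonneg hk30.le hR.le)
        _ = k3 * R * (R * vf w' p (Mo w p N r0) r1 nA x) := by rw [vf_smul]
        _ ≤ k3 * R * (R * (R * Mo w p N r1 x)) := mul_le_mul_of_nonneg_left (mul_le_mul_of_nonneg_left (lA x) hR.le)
            (mul_nonneg hk30.le hR.le)
        _ = _ := by ring
    linarith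
  exact ⟨Γ, k3, δ, hk30, hδ0, hδ1, hδL, hΓk, hΓ3, hLk, T1, Tlo, Tnt⟩

/-! ### Contacts and groups -/

/-- The total mass of a group. -/
def ZZm (w : ℕ → ℤ → ℝ) (p : ℕ → ℝ) (m : ℤ → ℝ) (lo hi : ℤ) (N : ℕ) : ℝ := ∑ y ∈ Icc lo hi, m y * bw w p 0 N y

/-- The natural weight of the contact `(k, q)` (first meeting at the site `q` of the row `k + 1`). -/
def wc (w : ℕ → ℤ → ℝ) (p : ℕ → ℝ) (l r : ℤ → ℝ) (lo hi : ℤ) (N k : ℕ) (q : ℤ) : ℝ :=
  dp w p l r k (q - 1) q * (p k * (w k (q - 1) * w k q) * bw w p (k + 1) (N - (k + 1)) q ^ 2) / (ZZm w p l lo hi N * ZZm w p r lo hi N)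

/-- The mass of the group which goes through `be` at the row `b1` and through `be'` at the row `b1 + nM`. -/
def ThrM (w : ℕ → ℤ → ℝ) (p : ℕ → ℝ) (m : ℤ → ℝ) (lo hi : ℤ) (N b1 nM : ℕ) (be be' : Finset ℤ) : ℝ :=
  ∑ x ∈ Icc lo hi, fw w p m b1 x * (if x ∈ be then thr2 w p N b1 nM be' x else 0)

variable {m l r : ℤ → ℝ} {X lo hi : ℤ}

theorem thr2_sum (w : ℕ → ℤ → ℝ) (b1 nM : ℕ) (be' : Finset ℤ) (x : ℤ) : thr2 w p N b1 nM be' x =
    ∑ y ∈ Icc x (x + nM), ker w p b1 nM x y * (if y ∈ be' then bw w p (b1 + nM) (N - (b1 + nM)) y else 0) := by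
  unfold thr2
  rw [vf_ker]
  rfl

theorem ZZm_row (h0 : ∀ y, y < lo → m y = 0) (h1 : ∀ y, hi - N < y → m y = 0) (hlh : lo ≤ hi) {k : ℕ} (hk : k ≤ N) :
    ZZm w p m lo hi N = ∑ y ∈ Icc lo hi, fw w p m k y * Mo w p N k y := by
  have h := sum_fw_vf (w := w) (p := p) (N := N) h0 h1 hlh 0 k (Mo w p N k) (by omega)
  rw [zero_add] at h
  rw [h]
  unfold ZZm
  refine sum_congr rfl fun y _ => ?_
  have h2 := Mo_vf (w := w) (p := p) (N := N) (i := 0) (n := k) (by omega) y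
  rw [zero_add] at h2
  rw [← h2]
  rfl

theorem ThrM_row (h0 : ∀ y, y < lo → m y = 0) (h1 : ∀ y, hi - N < y → m y = 0) (hlh : lo ≤ hi) {k n nM : ℕ} (hk : k + n ≤ N) :
    ThrM w p m lo hi N (k + n) nM be be' = ∑ y ∈ Icc lo hi, fw w p m k y * thr w p N k n nM be be' y := by
  unfold ThrM thr
  exact sum_fw_vf h0 h1 hlh k n _ hk

/-- The values read their rows only. -/
theorem vf_past {b : ℕ} (h : ∀ i, i < b → ∀ y, w' i y = w i y) : ∀ (j a : ℕ) (g : ℤ → ℝ) (y : ℤ), a + j ≤ b →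
    vf w' p g a j y = vf w p g a j y
  | 0, a, g, y, _ => by rw [vf_zero, vf_zero]
  | j + 1, a, g, y, ha => by
    rw [vf_succ, vf_succ, vf_past h j (a + 1) g y (by omega), vf_past h j (a + 1) g (y + 1) (by omega), h a (by omega) y]

theorem thr_le (hw' : ∀ k y, 0 < w' k y) (hp : ∀ k, 0 < p k) {a n : ℕ} (hN : a + n + nM ≤ N) (x : ℤ) :
    thr w' p N a n nM be be' x ≤ Mo w' p N a x := by
  rw [Mo_vf (w := w') (show a + n ≤ N by omega) x]
  unfold thr
  refine vf_mono hw' hp _ _ _ fun z _ _ => ?_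
  split_ifs
  · rw [Mo_vf (w := w') (show a + n + nM ≤ N by omega) z]
    unfold thr2
    refine vf_mono hw' hp _ _ _ fun u _ _ => ?_
    split_ifs
    · exact le_rfl
    · exact (Mo_pos hw' hp _ _).le
  · exact (Mo_pos hw' hp _ _).le

/-- The future mass of an early site, seen through the arm window `In` of the row `r1`. -/
theorem lo_c (T : Tube w w' p N r1 nA n1 nM n2 nB In mo be be' ex R K La) (hw' : ∀ k y, 0 < w' k y)
    (hp : ∀ k, 0 < p k) {Γ : ℝ} (hΓ : ∀ x ∈ In, Γ * Mo w p N r1 x ≤ K * thr w' p N r1 (nA + n1) nM be be' x)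
    (h0 : 0 ≤ Γ) {i : ℕ} (hi : i ≤ r1) {q : ℤ}
    (harm : Mo w p N i q ≤ 2 * vf w p (fun x => if x ∈ In then Mo w p N r1 x else 0) i (r1 - i) q) :
    Γ * Mo w p N i q ≤ 2 * K * Mo w' p N i q := by
  have hK : 0 < K := by linarith [T.K1]
  have hN := T.hN
  have e1 : Mo w' p N i q = vf w' p (Mo w' p N r1) i (r1 - i) q := by
    have h := Mo_vf (w := w') (p := p) (N := N) (i := i) (n := r1 - i) (by omega) q
    rwa [show i + (r1 - i) = r1 by omega] at h
  have h3 : Γ * vf w p (fun x => if x ∈ In then Mo w p N r1 x else 0) i (r1 - i) q ≤ K * Mo w' p N i q := by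
    rw [e1, ← vf_smul, ← vf_smul, ← vf_past T.past _ _ _ _ (by omega)]
    refine vf_mono hw' hp _ _ _ fun z _ _ => ?_
    split_ifs with hz
    · exact (hΓ z hz).trans (mul_le_mul_of_nonneg_left (thr_le hw' hp (by omega) z) hK.le)
    · rw [mul_zero]
      exact mul_nonneg hK.le (Mo_pos hw' hp _ _).le
  calc Γ * Mo w p N i q ≤ Γ * (2 * vf w p (fun x => if x ∈ In then Mo w p N r1 x else 0) i (r1 - i) q) :=
        mul_le_mul_of_nonneg_left harm h0
    _ = 2 * (Γ * vf w p (fun x => if x ∈ In then Mo w p N r1 x else 0) i (r1 - i) q) := by ring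
    _ ≤ 2 * (K * Mo w' p N i q) := by linarith
    _ = _ := by ring

theorem fw_past {b : ℕ} (h : ∀ i, i < b → ∀ y, w' i y = w i y) {k : ℕ} (hk : k ≤ b) (y : ℤ) : fw w' p m k y = fw w p m k y :=
  (fw_congr k (fun i hi z => (h i (by omega) z).symm) y).symm

/-- The total mass of a group. -/
theorem up_Z (T : Tube w w' p N r1 nA n1 nM n2 nB In mo be be' ex R K La) (hw : ∀ k y, 0 < w k y) (hp : ∀ k, 0 < p k) (hm : ∀ y, 0 ≤ m y) (h0 : ∀ y, y < lo → m y = 0) (h1 : ∀ y, hi - N < y → m y = 0) (hlh : lo ≤ hi) {D : ℝ}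
    (hD : ∀ x, Mo w' p N r1 x ≤ D * Mo w p N r1 x) : ZZm w' p m lo hi N ≤ D * ZZm w p m lo hi N := by
  have hN := T.hN
  rw [ZZm_row (w := w') h0 h1 hlh (show r1 ≤ N by omega), ZZm_row (w := w) h0 h1 hlh (show r1 ≤ N by omega), mul_sum]
  refine sum_le_sum fun y _ => ?_
  rw [fw_past T.past le_rfl]
  calc fw w p m r1 y * Mo w' p N r1 y ≤ fw w p m r1 y * (D * Mo w p N r1 y) :=
        mul_le_mul_of_nonneg_left (hD y) (fw_nonneg hw hp hm _ _)
    _ = _ := by ring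

theorem ZZm_pos (hw : ∀ k y, 0 < w k y) (hp : ∀ k, 0 < p k) (hm : ∀ y, 0 ≤ m y) (hs : ∃ y, 0 < m y) (h0 : ∀ y, y < lo → m y = 0)
    (h1 : ∀ y, hi - N < y → m y = 0) : 0 < ZZm w p m lo hi N := by
  obtain ⟨y, hy⟩ := hs
  have h2 : lo ≤ y := by
    by_contra h
    rw [h0 y (by omega)] at hy
    exact lt_irrefl _ hy
  have h3 : y ≤ hi - N := by
    by_contra h
    rw [h1 y (by omega)] at hy
    exact lt_irrefl _ hy
  have h4 : (0 : ℤ) ≤ N := by positivity
  exact sum_pos' (fun z _ => mul_nonneg (hm z) (bw_pos hw hp _ _ _).le)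
    ⟨y, mem_Icc.2 ⟨h2, by omega⟩, mul_pos hy (bw_pos hw hp _ _ _)⟩

/-- **THE LUCK CANCELS** in the weight of a contact before the tube. -/
theorem weight87 (T : Tube w w' p N r1 nA n1 nM n2 nB In mo be be' ex R K La) (hw : ∀ k y, 0 < w k y) (hw' : ∀ k y, 0 < w' k y)
    (hp : ∀ k, 0 < p k) (hB : Box l r X lo hi N) (hl : ∃ y, 0 < l y) (hr : ∃ y, 0 < r y) {k : ℕ} (hk : k + 1 ≤ r1) {q : ℤ}
    (harm : Mo w p N (k + 1) q ≤ 2 * vf w p (fun x => if x ∈ In then Mo w p N r1 x else 0) (k + 1) (r1 - (k + 1)) q) :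
    wc w p l r lo hi N k q ≤ 36 * K ^ 2 * R ^ 2 * wc w' p l r lo hi N k q := by
  obtain ⟨Γ, k3, δ, hk3, hδ0, hδ1, -, hΓk, hΓ3, hLk, T1, Tlo, Tnt⟩ := core T hw hw' hp
  have hR : 0 < R := by linarith [T.R1]
  have hK : 0 < K := by linarith [T.K1]
  have hN := T.hN
  have hΓ0 : 0 < Γ := lt_of_lt_of_le (by positivity) hΓ3
  have hlh : lo ≤ hi := by
    have h1 := hB.X0
    have h2 := hB.X1
    have h3 : (0 : ℤ) ≤ N := by positivity
    omega
  have hV : ∀ x, Mo w' p N r1 x ≤ 3 * R * Γ * Mo w p N r1 x := by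
    intro x
    have h1 := Tnt x
    have h2 := T1 x
    have h3 : 0 < Mo w p N r1 x := Mo_pos hw hp _ _
    have h4 : (1 + δ) * thr w' p N r1 (nA + n1) nM be be' x ≤ 2 * (R * Γ * Mo w p N r1 x) := by
      have h5 : 0 ≤ R * Γ * Mo w p N r1 x := by positivity
      have h6 : (1 + δ) * thr w' p N r1 (nA + n1) nM be be' x ≤ (1 + δ) * (R * Γ * Mo w p N r1 x) :=
        mul_le_mul_of_nonneg_left h2 (by linarith)
      nlinarith
    have h7 : k3 * R ^ 3 * Mo w p N r1 x ≤ R * Γ * Mo w p N r1 x := by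
      refine mul_le_mul_of_nonneg_right (hΓ3.trans ?_) h3.le
      exact le_mul_of_one_le_left hΓ0.le T.R1
    calc Mo w' p N r1 x ≤ 2 * (R * Γ * Mo w p N r1 x) + R * Γ * Mo w p N r1 x := h1.trans (add_le_add h4 h7)
      _ = _ := by ring
  have hZl := up_Z T hw hp hB.g.l0 (fun y hy => (hB.lo0 y hy).1) (fun y hy => (hB.hi0 y hy).1) hlh hV
  have hZr := up_Z T hw hp hB.g.r0 (fun y hy => (hB.lo0 y hy).2) (fun y hy => (hB.hi0 y hy).2) hlh hV
  have pl := ZZm_pos hw hp hB.g.l0 hl (fun y hy => (hB.lo0 y hy).1) (fun y hy => (hB.hi0 y hy).1)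
  have pr := ZZm_pos hw hp hB.g.r0 hr (fun y hy => (hB.lo0 y hy).2) (fun y hy => (hB.hi0 y hy).2)
  have pl' := ZZm_pos hw' hp hB.g.l0 hl (fun y hy => (hB.lo0 y hy).1) (fun y hy => (hB.hi0 y hy).1)
  have pr' := ZZm_pos hw' hp hB.g.r0 hr (fun y hy => (hB.lo0 y hy).2) (fun y hy => (hB.hi0 y hy).2)
  have hc := lo_c T hw' hp Tlo hΓ0.le hk harm
  have hb : 0 < Mo w p N (k + 1) q := Mo_pos hw hp _ _
  have hb' : 0 < Mo w' p N (k + 1) q := Mo_pos hw' hp _ _
  have hd : dp w' p l r k (q - 1) q = dp w p l r k (q - 1) q := by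
    unfold dp
    rw [fw_past T.past (by omega), fw_past T.past (by omega), fw_past T.past (by omega), fw_past T.past (by omega)]
  have hd0 : 0 ≤ dp w p l r k (q - 1) q := dp_nonneg hw hp hB.g k (q - 1) q (by omega)
  have hc0 : 0 ≤ dp w p l r k (q - 1) q * (p k * (w k (q - 1) * w k q)) :=
    mul_nonneg hd0 (mul_nonneg (hp k).le (mul_nonneg (hw _ _).le (hw _ _).le))
  unfold wc
  rw [hd, T.past k (by omega) (q - 1), T.past k (by omega) q]
  show dp w p l r k (q - 1) q * (p k * (w k (q - 1) * w k q) * Mo w p N (k + 1) q ^ 2) / _ ≤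
    36 * K ^ 2 * R ^ 2 * (dp w p l r k (q - 1) q * (p k * (w k (q - 1) * w k q) * Mo w' p N (k + 1) q ^ 2) / _)
  rw [← mul_div_assoc, div_le_div_iff₀ (mul_pos pl pr) (mul_pos pl' pr')]
  have h1 : ZZm w' p l lo hi N * ZZm w' p r lo hi N ≤ (3 * R * Γ) ^ 2 * (ZZm w p l lo hi N * ZZm w p r lo hi N) := by
    calc ZZm w' p l lo hi N * ZZm w' p r lo hi N ≤ (3 * R * Γ * ZZm w p l lo hi N) * (3 * R * Γ * ZZm w p r lo hi N) :=
          mul_le_mul hZl hZr pr'.le (by positivity)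
      _ = _ := by ring
  have h2 : (Γ * Mo w p N (k + 1) q) ^ 2 ≤ (2 * K * Mo w' p N (k + 1) q) ^ 2 := pow_le_pow_left₀ (by positivity) hc 2
  calc dp w p l r k (q - 1) q * (p k * (w k (q - 1) * w k q) * Mo w p N (k + 1) q ^ 2) * (ZZm w' p l lo hi N * ZZm w' p r lo hi N)
      = (dp w p l r k (q - 1) q * (p k * (w k (q - 1) * w k q))) * (Mo w p N (k + 1) q ^ 2 * (ZZm w' p l lo hi N * ZZm w' p r lo hi N)) := by
        ring
    _ ≤ (dp w p l r k (q - 1) q * (p k * (w k (q - 1) * w k q))) *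
        (Mo w p N (k + 1) q ^ 2 * ((3 * R * Γ) ^ 2 * (ZZm w p l lo hi N * ZZm w p r lo hi N))) :=
        mul_le_mul_of_nonneg_left (mul_le_mul_of_nonneg_left h1 (by positivity)) hc0
    _ = (dp w p l r k (q - 1) q * (p k * (w k (q - 1) * w k q))) *
        ((Γ * Mo w p N (k + 1) q) ^ 2 * (9 * R ^ 2 * (ZZm w p l lo hi N * ZZm w p r lo hi N))) := by ring
    _ ≤ (dp w p l r k (q - 1) q * (p k * (w k (q - 1) * w k q))) *
        ((2 * K * Mo w' p N (k + 1) q) ^ 2 * (9 * R ^ 2 * (ZZm w p l lo hi N * ZZm w p r lo hi N))) :=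
        mul_le_mul_of_nonneg_left (mul_le_mul_of_nonneg_right h2 (by positivity)) hc0
    _ = _ := by ring

/-- **THE REPLICAS GO THROUGH THE TUBE**: the mass of one group which is not in `be` at the row `b1` or not in `be'` at the row `b2`. -/
theorem off87 (T : Tube w w' p N r1 nA n1 nM n2 nB In mo be be' ex R K La) (hw : ∀ k y, 0 < w k y) (hw' : ∀ k y, 0 < w' k y)
    (hp : ∀ k, 0 < p k) (hm : ∀ y, 0 ≤ m y) (h0 : ∀ y, y < lo → m y = 0) (h1 : ∀ y, hi - N < y → m y = 0) (hlh : lo ≤ hi)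
    {i : ℕ} (hi1 : i ≤ r1) {q : ℤ} (hq1 : lo ≤ q) (hq2 : q ≤ hi)
    (harm : Mo w p N i q ≤ 2 * vf w p (fun x => if x ∈ In then Mo w p N r1 x else 0) i (r1 - i) q)
    {P : ℝ} (hP0 : 0 < P) (hP1 : P ≤ 1) (hP : P * ZZm w p m lo hi N ≤ fw w p m i q * Mo w p N i q) :
    La * P * (ZZm w' p m lo hi N - ThrM w' p m lo hi N (r1 + nA + n1) nM be be') ≤ 3 * K ^ 2 * R ^ 3 * ZZm w' p m lo hi N := by
  obtain ⟨Γ, k3, δ, hk3, hδ0, hδ1, hδL, hΓk, hΓ3, hLk, T1, Tlo, Tnt⟩ := core T hw hw' hp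
  have hR : 0 < R := by linarith [T.R1]
  have hK : 0 < K := by linarith [T.K1]
  have hLa : 0 < La := lt_of_lt_of_le (by positivity) T.big
  have hN := T.hN
  have hΓ0 : 0 < Γ := lt_of_lt_of_le (by positivity) hΓ3
  have hZ0 : 0 ≤ ZZm w p m lo hi N := sum_nonneg fun y _ => mul_nonneg (hm y) (bw_pos hw hp _ _ _).le
  have e1 : ThrM w' p m lo hi N (r1 + nA + n1) nM be be' = ∑ y ∈ Icc lo hi, fw w p m r1 y * thr w' p N r1 (nA + n1) nM be be' y := by
    rw [show r1 + nA + n1 = r1 + (nA + n1) by ring, ThrM_row (w := w') h0 h1 hlh (by omega)]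
    exact sum_congr rfl fun y _ => by rw [fw_past T.past le_rfl]
  have e2 : ZZm w' p m lo hi N = ∑ y ∈ Icc lo hi, fw w p m r1 y * Mo w' p N r1 y := by
    rw [ZZm_row (w := w') h0 h1 hlh (show r1 ≤ N by omega)]
    exact sum_congr rfl fun y _ => by rw [fw_past T.past le_rfl]
  have e3 : ZZm w p m lo hi N = ∑ y ∈ Icc lo hi, fw w p m r1 y * Mo w p N r1 y :=
    ZZm_row (w := w) h0 h1 hlh (show r1 ≤ N by omega)
  have h2 : ZZm w' p m lo hi N - ThrM w' p m lo hi N (r1 + nA + n1) nM be be' ≤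
      δ * ZZm w' p m lo hi N + k3 * R ^ 3 * ZZm w p m lo hi N := by
    rw [e1, e2, e3, ← sum_sub_distrib, mul_sum, mul_sum, ← sum_add_distrib]
    refine sum_le_sum fun y _ => ?_
    have h3 := Tnt y
    have h4 := thr_le (w' := w') (p := p) (N := N) (a := r1) (n := nA + n1) (nM := nM) (be := be) (be' := be') hw' hp (by omega) y
    have h5 := fw_nonneg hw hp hm r1 y
    have h6 : Mo w' p N r1 y - thr w' p N r1 (nA + n1) nM be be' y ≤ δ * Mo w' p N r1 y + k3 * R ^ 3 * Mo w p N r1 y := by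
      nlinarith [mul_le_mul_of_nonneg_left h4 hδ0]
    calc fw w p m r1 y * Mo w' p N r1 y - fw w p m r1 y * thr w' p N r1 (nA + n1) nM be be' y
        = fw w p m r1 y * (Mo w' p N r1 y - thr w' p N r1 (nA + n1) nM be be' y) := by ring
      _ ≤ fw w p m r1 y * (δ * Mo w' p N r1 y + k3 * R ^ 3 * Mo w p N r1 y) := mul_le_mul_of_nonneg_left h6 h5
      _ = _ := by ring
  -- the mass of `c`
  have h7 : Γ * (P * ZZm w p m lo hi N) ≤ 2 * K * ZZm w' p m lo hi N := by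
    have h8 := lo_c T hw' hp Tlo hΓ0.le hi1 harm
    have h9 : fw w p m i q * Mo w' p N i q ≤ ZZm w' p m lo hi N := by
      rw [ZZm_row (w := w') h0 h1 hlh (show i ≤ N by omega), ← fw_past T.past hi1]
      exact single_le_sum (f := fun y => fw w' p m i y * Mo w' p N i y)
        (fun z _ => mul_nonneg (fw_nonneg hw' hp hm _ _) (Mo_pos hw' hp _ _).le) (mem_Icc.2 ⟨hq1, hq2⟩)
    have h10 := fw_nonneg hw hp hm i q
    calc Γ * (P * ZZm w p m lo hi N) ≤ Γ * (fw w p m i q * Mo w p N i q) := mul_le_mul_of_nonneg_left hP hΓ0.le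
      _ = fw w p m i q * (Γ * Mo w p N i q) := by ring
      _ ≤ fw w p m i q * (2 * K * Mo w' p N i q) := mul_le_mul_of_nonneg_left h8 h10
      _ = 2 * K * (fw w p m i q * Mo w' p N i q) := by ring
      _ ≤ _ := mul_le_mul_of_nonneg_left h9 (by positivity)
  have hZ' : 0 ≤ ZZm w' p m lo hi N := sum_nonneg fun y _ => mul_nonneg (hm y) (bw_pos hw' hp _ _ _).le
  have h11 : La * P * (k3 * R ^ 3 * ZZm w p m lo hi N) ≤ 2 * K ^ 2 * R ^ 3 * ZZm w' p m lo hi N := by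
    calc La * P * (k3 * R ^ 3 * ZZm w p m lo hi N) = (La * k3) * (P * R ^ 3 * ZZm w p m lo hi N) := by ring
      _ ≤ (K * Γ) * (P * R ^ 3 * ZZm w p m lo hi N) := mul_le_mul_of_nonneg_right hΓk (by positivity)
      _ = K * R ^ 3 * (Γ * (P * ZZm w p m lo hi N)) := by ring
      _ ≤ K * R ^ 3 * (2 * K * ZZm w' p m lo hi N) := mul_le_mul_of_nonneg_left h7 (by positivity)
      _ = _ := by ring
  have h12 : La * P * (δ * ZZm w' p m lo hi N) ≤ K ^ 2 * R ^ 3 * ZZm w' p m lo hi N := by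
    calc La * P * (δ * ZZm w' p m lo hi N) = P * ((La * δ) * ZZm w' p m lo hi N) := by ring
      _ ≤ 1 * ((La * δ) * ZZm w' p m lo hi N) := mul_le_mul_of_nonneg_right hP1 (by positivity)
      _ = (La * δ) * ZZm w' p m lo hi N := one_mul _
      _ ≤ _ := mul_le_mul_of_nonneg_right hδL hZ'
  calc La * P * (ZZm w' p m lo hi N - ThrM w' p m lo hi N (r1 + nA + n1) nM be be')
      ≤ La * P * (δ * ZZm w' p m lo hi N + k3 * R ^ 3 * ZZm w p m lo hi N) := mul_le_mul_of_nonneg_left h2 (by positivity)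
    _ = La * P * (δ * ZZm w' p m lo hi N) + La * P * (k3 * R ^ 3 * ZZm w p m lo hi N) := by ring
    _ ≤ K ^ 2 * R ^ 3 * ZZm w' p m lo hi N + 2 * K ^ 2 * R ^ 3 * ZZm w' p m lo hi N := add_le_add h12 h11
    _ = _ := by ring

/-- Both replicas pass the contact: the weight is at most the mass share of the meeting site, left group. -/
theorem wc_le_l (hw : ∀ k y, 0 < w k y) (hp : ∀ k, 0 < p k) (hB : Box l r X lo hi N) (hr : ∃ y, 0 < r y) (hl : ∃ y, 0 < l y) {k : ℕ}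
    (hk : k < N) {q : ℤ} (hq1 : lo ≤ q) (hq2 : q ≤ hi) :
    wc w p l r lo hi N k q * ZZm w p l lo hi N ≤ fw w p l (k + 1) q * Mo w p N (k + 1) q := by
  have hlh : lo ≤ hi := hq1.trans hq2
  have pl := ZZm_pos hw hp hB.g.l0 hl (fun y hy => (hB.lo0 y hy).1) (fun y hy => (hB.hi0 y hy).1)
  have pr := ZZm_pos hw hp hB.g.r0 hr (fun y hy => (hB.lo0 y hy).2) (fun y hy => (hB.hi0 y hy).2)
  have a1 := fw_nonneg hw hp hB.g.l0 k (q - 1)
  have a2 := fw_nonneg hw hp hB.g.l0 k q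
  have a3 := fw_nonneg hw hp hB.g.r0 k (q - 1)
  have a4 := fw_nonneg hw hp hB.g.r0 k q
  have b1 := hw k (q - 1)
  have b2 := hw k q
  have b3 := hp k
  have c1 : p k * (w k (q - 1) * fw w p l k (q - 1)) ≤ fw w p l (k + 1) q := by
    rw [fw_succ]
    have : 0 ≤ w k q * fw w p l k q := by positivity
    linarith
  have c2 : w k q * fw w p r k q ≤ fw w p r (k + 1) q := by
    rw [fw_succ]
    have : 0 ≤ p k * (w k (q - 1) * fw w p r k (q - 1)) := by positivity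
    linarith
  have c3 : dp w p l r k (q - 1) q ≤ fw w p l k (q - 1) * fw w p r k q := by
    unfold dp
    have : 0 ≤ fw w p l k q * fw w p r k (q - 1) := by positivity
    linarith
  have c4 : fw w p r (k + 1) q * Mo w p N (k + 1) q ≤ ZZm w p r lo hi N := by
    rw [ZZm_row (w := w) (fun y hy => (hB.lo0 y hy).2) (fun y hy => (hB.hi0 y hy).2) hlh (show k + 1 ≤ N by omega)]
    exact single_le_sum (f := fun y => fw w p r (k + 1) y * Mo w p N (k + 1) y)
      (fun z _ => mul_nonneg (fw_nonneg hw hp hB.g.r0 _ _) (Mo_pos hw hp _ _).le) (mem_Icc.2 ⟨hq1, hq2⟩)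
  have c5 : 0 < Mo w p N (k + 1) q := Mo_pos hw hp _ _
  have c6 := fw_nonneg hw hp hB.g.l0 (k + 1) q
  have c7 : dp w p l r k (q - 1) q * (p k * (w k (q - 1) * w k q) * Mo w p N (k + 1) q ^ 2) ≤
      (fw w p l (k + 1) q * Mo w p N (k + 1) q) * ZZm w p r lo hi N := by
    calc dp w p l r k (q - 1) q * (p k * (w k (q - 1) * w k q) * Mo w p N (k + 1) q ^ 2)
        ≤ (fw w p l k (q - 1) * fw w p r k q) * (p k * (w k (q - 1) * w k q) * Mo w p N (k + 1) q ^ 2) :=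
          mul_le_mul_of_nonneg_right c3 (by positivity)
      _ = (p k * (w k (q - 1) * fw w p l k (q - 1)) * Mo w p N (k + 1) q) * (w k q * fw w p r k q * Mo w p N (k + 1) q) := by ring
      _ ≤ (fw w p l (k + 1) q * Mo w p N (k + 1) q) * (fw w p r (k + 1) q * Mo w p N (k + 1) q) :=
          mul_le_mul (mul_le_mul_of_nonneg_right c1 c5.le) (mul_le_mul_of_nonneg_right c2 c5.le) (by positivity) (by positivity)
      _ ≤ _ := mul_le_mul_of_nonneg_left c4 (by positivity)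
  unfold wc
  show dp w p l r k (q - 1) q * (p k * (w k (q - 1) * w k q) * Mo w p N (k + 1) q ^ 2) / _ * _ ≤ _
  rw [div_mul_eq_mul_div, div_le_iff₀ (mul_pos pl pr)]
  calc dp w p l r k (q - 1) q * (p k * (w k (q - 1) * w k q) * Mo w p N (k + 1) q ^ 2) * ZZm w p l lo hi N
      ≤ ((fw w p l (k + 1) q * Mo w p N (k + 1) q) * ZZm w p r lo hi N) * ZZm w p l lo hi N := mul_le_mul_of_nonneg_right c7 pl.le
    _ = _ := by ring

/-- The same for the right group. -/
theorem wc_le_r (hw : ∀ k y, 0 < w k y) (hp : ∀ k, 0 < p k) (hB : Box l r X lo hi N) (hr : ∃ y, 0 < r y) (hl : ∃ y, 0 < l y) {k : ℕ}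
    (hk : k < N) {q : ℤ} (hq1 : lo ≤ q) (hq2 : q ≤ hi) :
    wc w p l r lo hi N k q * ZZm w p r lo hi N ≤ fw w p r (k + 1) q * Mo w p N (k + 1) q := by
  have hlh : lo ≤ hi := hq1.trans hq2
  have pl := ZZm_pos hw hp hB.g.l0 hl (fun y hy => (hB.lo0 y hy).1) (fun y hy => (hB.hi0 y hy).1)
  have pr := ZZm_pos hw hp hB.g.r0 hr (fun y hy => (hB.lo0 y hy).2) (fun y hy => (hB.hi0 y hy).2)
  have a1 := fw_nonneg hw hp hB.g.l0 k (q - 1)
  have a2 := fw_nonneg hw hp hB.g.l0 k q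
  have a3 := fw_nonneg hw hp hB.g.r0 k (q - 1)
  have a4 := fw_nonneg hw hp hB.g.r0 k q
  have b1 := hw k (q - 1)
  have b2 := hw k q
  have b3 := hp k
  have c1 : p k * (w k (q - 1) * fw w p l k (q - 1)) ≤ fw w p l (k + 1) q := by
    rw [fw_succ]
    have : 0 ≤ w k q * fw w p l k q := by positivity
    linarith
  have c2 : w k q * fw w p r k q ≤ fw w p r (k + 1) q := by
    rw [fw_succ]
    have : 0 ≤ p k * (w k (q - 1) * fw w p r k (q - 1)) := by positivity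
    linarith
  have c3 : dp w p l r k (q - 1) q ≤ fw w p l k (q - 1) * fw w p r k q := by
    unfold dp
    have : 0 ≤ fw w p l k q * fw w p r k (q - 1) := by positivity
    linarith
  have c4 : fw w p l (k + 1) q * Mo w p N (k + 1) q ≤ ZZm w p l lo hi N := by
    rw [ZZm_row (w := w) (fun y hy => (hB.lo0 y hy).1) (fun y hy => (hB.hi0 y hy).1) hlh (show k + 1 ≤ N by omega)]
    exact single_le_sum (f := fun y => fw w p l (k + 1) y * Mo w p N (k + 1) y)
      (fun z _ => mul_nonneg (fw_nonneg hw hp hB.g.l0 _ _) (Mo_pos hw hp _ _).le) (mem_Icc.2 ⟨hq1, hq2⟩)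
  have c5 : 0 < Mo w p N (k + 1) q := Mo_pos hw hp _ _
  have c6 := fw_nonneg hw hp hB.g.r0 (k + 1) q
  have c7 : dp w p l r k (q - 1) q * (p k * (w k (q - 1) * w k q) * Mo w p N (k + 1) q ^ 2) ≤
      ZZm w p l lo hi N * (fw w p r (k + 1) q * Mo w p N (k + 1) q) := by
    calc dp w p l r k (q - 1) q * (p k * (w k (q - 1) * w k q) * Mo w p N (k + 1) q ^ 2)
        ≤ (fw w p l k (q - 1) * fw w p r k q) * (p k * (w k (q - 1) * w k q) * Mo w p N (k + 1) q ^ 2) :=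
          mul_le_mul_of_nonneg_right c3 (by positivity)
      _ = (p k * (w k (q - 1) * fw w p l k (q - 1)) * Mo w p N (k + 1) q) * (w k q * fw w p r k q * Mo w p N (k + 1) q) := by ring
      _ ≤ (fw w p l (k + 1) q * Mo w p N (k + 1) q) * (fw w p r (k + 1) q * Mo w p N (k + 1) q) :=
          mul_le_mul (mul_le_mul_of_nonneg_right c1 c5.le) (mul_le_mul_of_nonneg_right c2 c5.le) (by positivity)
            (mul_nonneg (fw_nonneg hw hp hB.g.l0 _ _) c5.le)
      _ ≤ _ := mul_le_mul_of_nonneg_right c4 (by positivity)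
  unfold wc
  show dp w p l r k (q - 1) q * (p k * (w k (q - 1) * w k q) * Mo w p N (k + 1) q ^ 2) / _ * _ ≤ _
  rw [div_mul_eq_mul_div, div_le_iff₀ (mul_pos pl pr)]
  calc dp w p l r k (q - 1) q * (p k * (w k (q - 1) * w k q) * Mo w p N (k + 1) q ^ 2) * ZZm w p r lo hi N
      ≤ (ZZm w p l lo hi N * (fw w p r (k + 1) q * Mo w p N (k + 1) q)) * ZZm w p r lo hi N := mul_le_mul_of_nonneg_right c7 pr.le
    _ = _ := by ring

/-- **(T6)**: the weight of any contact before the row `r1` moves at most by `D ^ 4` if the masses at the row `r1` move at most by `D`. -/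
theorem early87 (hw : ∀ k y, 0 < w k y) (hw' : ∀ k y, 0 < w' k y) (hp : ∀ k, 0 < p k) (hB : Box l r X lo hi N) (hl : ∃ y, 0 < l y)
    (hr : ∃ y, 0 < r y) {b : ℕ} (hb : b ≤ N) (past : ∀ i, i < b → ∀ y, w' i y = w i y) {D : ℝ} (hD : 0 < D)
    (h1 : ∀ x, Mo w p N b x ≤ D * Mo w' p N b x) (h2 : ∀ x, Mo w' p N b x ≤ D * Mo w p N b x) {k : ℕ} (hk : k + 1 ≤ b) (q : ℤ) :
    wc w p l r lo hi N k q ≤ D ^ 4 * wc w' p l r lo hi N k q := by
  have hlh : lo ≤ hi := by
    have h1 := hB.X0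
    have h2 := hB.X1
    have h3 : (0 : ℤ) ≤ N := by positivity
    omega
  have key : ∀ (m : ℤ → ℝ), (∀ y, 0 ≤ m y) → (∀ y, y < lo → m y = 0) → (∀ y, hi - N < y → m y = 0) →
      ZZm w' p m lo hi N ≤ D * ZZm w p m lo hi N := by
    intro m hm h0 h1'
    rw [ZZm_row (w := w') h0 h1' hlh hb, ZZm_row (w := w) h0 h1' hlh hb, mul_sum]
    refine sum_le_sum fun y _ => ?_
    rw [fw_past past le_rfl]
    calc fw w p m b y * Mo w' p N b y ≤ fw w p m b y * (D * Mo w p N b y) :=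
          mul_le_mul_of_nonneg_left (h2 y) (fw_nonneg hw hp hm _ _)
      _ = _ := by ring
  have hZl := key l hB.g.l0 (fun y hy => (hB.lo0 y hy).1) (fun y hy => (hB.hi0 y hy).1)
  have hZr := key r hB.g.r0 (fun y hy => (hB.lo0 y hy).2) (fun y hy => (hB.hi0 y hy).2)
  have pl := ZZm_pos hw hp hB.g.l0 hl (fun y hy => (hB.lo0 y hy).1) (fun y hy => (hB.hi0 y hy).1)
  have pr := ZZm_pos hw hp hB.g.r0 hr (fun y hy => (hB.lo0 y hy).2) (fun y hy => (hB.hi0 y hy).2)
  have pl' := ZZm_pos hw' hp hB.g.l0 hl (fun y hy => (hB.lo0 y hy).1) (fun y hy => (hB.hi0 y hy).1)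
  have pr' := ZZm_pos hw' hp hB.g.r0 hr (fun y hy => (hB.lo0 y hy).2) (fun y hy => (hB.hi0 y hy).2)
  have hc : Mo w p N (k + 1) q ≤ D * Mo w' p N (k + 1) q := by
    have e1 := Mo_vf (w := w) (p := p) (N := N) (i := k + 1) (n := b - (k + 1)) (by omega) q
    have e2 := Mo_vf (w := w') (p := p) (N := N) (i := k + 1) (n := b - (k + 1)) (by omega) q
    rw [show k + 1 + (b - (k + 1)) = b by omega] at e1 e2
    rw [e1, e2, vf_past past _ _ _ _ (by omega), ← vf_smul]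
    exact vf_mono hw hp _ _ _ fun z _ _ => h1 z
  have hb0 : 0 < Mo w p N (k + 1) q := Mo_pos hw hp _ _
  have hb0' : 0 < Mo w' p N (k + 1) q := Mo_pos hw' hp _ _
  have hd : dp w' p l r k (q - 1) q = dp w p l r k (q - 1) q := by
    unfold dp
    rw [fw_past past (by omega), fw_past past (by omega), fw_past past (by omega), fw_past past (by omega)]
  have hd0 : 0 ≤ dp w p l r k (q - 1) q := dp_nonneg hw hp hB.g k (q - 1) q (by omega)
  have hc0 : 0 ≤ dp w p l r k (q - 1) q * (p k * (w k (q - 1) * w k q)) :=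
    mul_nonneg hd0 (mul_nonneg (hp k).le (mul_nonneg (hw _ _).le (hw _ _).le))
  unfold wc
  rw [hd, past k (by omega) (q - 1), past k (by omega) q]
  show dp w p l r k (q - 1) q * (p k * (w k (q - 1) * w k q) * Mo w p N (k + 1) q ^ 2) / _ ≤
    D ^ 4 * (dp w p l r k (q - 1) q * (p k * (w k (q - 1) * w k q) * Mo w' p N (k + 1) q ^ 2) / _)
  rw [← mul_div_assoc, div_le_div_iff₀ (mul_pos pl pr) (mul_pos pl' pr')]
  have h3 : ZZm w' p l lo hi N * ZZm w' p r lo hi N ≤ D ^ 2 * (ZZm w p l lo hi N * ZZm w p r lo hi N) := by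
    calc ZZm w' p l lo hi N * ZZm w' p r lo hi N ≤ (D * ZZm w p l lo hi N) * (D * ZZm w p r lo hi N) :=
          mul_le_mul hZl hZr pr'.le (by positivity)
      _ = _ := by ring
  have h4 : Mo w p N (k + 1) q ^ 2 ≤ (D * Mo w' p N (k + 1) q) ^ 2 := pow_le_pow_left₀ hb0.le hc 2
  calc dp w p l r k (q - 1) q * (p k * (w k (q - 1) * w k q) * Mo w p N (k + 1) q ^ 2) * (ZZm w' p l lo hi N * ZZm w' p r lo hi N)
      = (dp w p l r k (q - 1) q * (p k * (w k (q - 1) * w k q))) * (Mo w p N (k + 1) q ^ 2 * (ZZm w' p l lo hi N * ZZm w' p r lo hi N)) := by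
        ring
    _ ≤ (dp w p l r k (q - 1) q * (p k * (w k (q - 1) * w k q))) *
        ((D * Mo w' p N (k + 1) q) ^ 2 * (D ^ 2 * (ZZm w p l lo hi N * ZZm w p r lo hi N))) :=
        mul_le_mul_of_nonneg_left (mul_le_mul h4 h3 (by positivity) (by positivity)) hc0
    _ = _ := by ring

end Tube

end

end Pool.Agent.W_7d29a1_C1.Tb87
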