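import Pool.Agent.W_7d29a1_C1.Tub87
import Pool.Agent.W_7d29a1_C1.CntX58

/-!
MP_7d29a1_pr, [C1] attractor route, (Y): items (3), (4) of the interface `YTub99` in a context `Γ` (Ctx60). (helper87)

`good87`: the tube `⟨r1 + nA + n1, nM, be, be'⟩` is good (Cnt58) in the new environment; `weightG87`: the contact is still heavy;
`earlyG87`: the earlier heavy contacts are a little less heavy, from the crude bound of the site weights in the changed slab.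
-/

set_option autoImplicit false

namespace Pool.Agent.W_7d29a1_C1.Tb87

open Finset
open Pool.Agent.W_7d29a1_F
open Pool.Agent.W_7d29a1_C1.K91 (Box Grp wt wt_pos)
open Pool.Agent.W_7d29a1_C1.K91P
open Pool.Agent.W_7d29a1_C1.U16 (ker ker_zero ker_succ ker_nonneg ker_eq_zero fw_ker bw_ker)
open Pool.Agent.W_7d29a1_C1.Cnt58 (Gr Zt Tb off Hv Good grl grr)
open Pool.Agent.W_7d29a1_C1.H60
open Pool.Agent.W_7d29a1_C1.H60.Cx (l)

noncomputable section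

section Det

variable {w w' : ℕ → ℤ → ℝ} {p : ℕ → ℝ} {m : ℤ → ℝ} {lo hi : ℤ} {N : ℕ}

/-- The mass off the tube is the total mass minus the mass through the tube. -/
theorem off_eq87 (h : Gr m lo hi N) {b n : ℕ} (hb : b + n ≤ N) (I O : Finset ℤ) :
    off w p m lo hi N ⟨b, n, I, O⟩ = Zt w p m lo hi N - ThrM w p m lo hi N b n I O := by
  rw [Cnt58.off_eq, Cnt58.Zt_eq h (t := ⟨b, n, I, O⟩) hb]
  unfold ThrM
  rw [← sum_sub_distrib]
  refine sum_congr rfl fun x _ => ?_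
  show fw w p m b x * Cnt58.QQ w p lo hi N ⟨b, n, I, O⟩ x = fw w p m b x * Cnt58.PP w p lo hi N ⟨b, n, I, O⟩ x -
    fw w p m b x * (if x ∈ I then thr2 w p N b n O x else 0)
  by_cases h1 : lo ≤ x ∧ x ≤ hi - N + b
  · rw [← mul_sub]
    congr 1
    have e1 : (if x ∈ I then thr2 w p N b n O x else 0) =
        ∑ u ∈ Icc lo hi, (if x ∈ I ∧ u ∈ O then ker w p b n x u * bw w p (b + n) (N - (b + n)) u else 0) := by
      by_cases hx : x ∈ I
      · rw [if_pos hx, thr2_sum]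
        have e2 : ∑ y ∈ Icc x (x + n), ker w p b n x y * (if y ∈ O then bw w p (b + n) (N - (b + n)) y else 0) =
            ∑ y ∈ Icc lo hi, ker w p b n x y * (if y ∈ O then bw w p (b + n) (N - (b + n)) y else 0) := by
          refine sum_subset (fun u hu => ?_) fun u _ hu => ?_
          · rw [mem_Icc] at hu ⊢
            constructor <;> omega
          · rw [mem_Icc] at hu
            rw [ker_eq_zero b n x u (fun h3 => hu ⟨h3.1, h3.2⟩), zero_mul]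
        rw [e2]
        refine sum_congr rfl fun u _ => ?_
        by_cases hu : u ∈ O
        · rw [if_pos hu, if_pos ⟨hx, hu⟩]
        · rw [if_neg hu, if_neg (fun h3 => hu h3.2), mul_zero]
      · rw [if_neg hx]
        exact (sum_eq_zero fun u _ => if_neg (fun h3 => hx h3.1)).symm
    rw [e1]
    unfold Cnt58.QQ Cnt58.PP Cnt58.oo
    rw [← sum_sub_distrib]
    refine sum_congr rfl fun u _ => ?_
    show (if x ∈ I ∧ u ∈ O then (0 : ℝ) else 1) * (ker w p b n x u * bw w p (b + n) (N - (b + n)) u) =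
      ker w p b n x u * bw w p (b + n) (N - (b + n)) u - _
    split_ifs <;> ring
  · rw [h.fw0 b h1]
    ring

end Det

variable {Γ : Cx} {η η' : Env}

theorem w_eq87 (h : Γ.Ok) (c : ℕ × ℤ) (η : Env) : Γ.w c η = wc (wt η) Γ.p l Γ.r 0 Γ.hi Γ.N c.1 c.2 := by
  unfold wc Cx.w
  rw [show ZZm (wt η) Γ.p l 0 Γ.hi Γ.N = Γ.ZM η from Cx.ZM_eq h η]
  rfl

theorem l_pos87 : ∃ y, 0 < l y := ⟨0, by rw [Cx.l_zero]; exact one_pos⟩

theorem r_pos87 (h : Γ.Ok) : ∃ y, 0 < Γ.r y := by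
  obtain ⟨y, _, _, hy⟩ := Cx.r_pos h
  exact ⟨y, hy⟩

theorem col87 (h : Γ.Ok) {c : ℕ × ℤ} (hc : c ∈ Γ.rows 0 Γ.N) : (0 : ℤ) ≤ c.2 ∧ c.2 ≤ Γ.hi := by
  obtain ⟨⟨_, _⟩, h1, h2⟩ := Cx.mem_rows.1 hc
  have h3 := h.k1
  refine ⟨by omega, ?_⟩
  show c.2 ≤ (Γ.k : ℤ) + Γ.N
  have h4 : (1 : ℤ) ≤ Γ.k := by exact_mod_cast h3
  omega

variable {r1 nA n1 nM n2 nB : ℕ} {In mo be be' ex : Finset ℤ} {R K La : ℝ}

/-- The arm of the contact: at least half of its future mass is in the window `In` of the row `r1`. -/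
def Arm (Γ : Cx) (η : Env) (c : ℕ × ℤ) (r1 : ℕ) (In : Finset ℤ) : Prop :=
  Mo (wt η) Γ.p Γ.N (c.1 + 1) c.2 ≤
    2 * vf (wt η) Γ.p (fun x => if x ∈ In then Mo (wt η) Γ.p Γ.N r1 x else 0) (c.1 + 1) (r1 - (c.1 + 1)) c.2

/-- **ITEM (3) OF `YTub99`, the tube is good in the new environment.** -/
theorem good87 (h : Γ.Ok) (T : Tube (wt η) (wt η') Γ.p Γ.N r1 nA n1 nM n2 nB In mo be be' ex R K La) {c : ℕ × ℤ}
    (hc : c ∈ Γ.rows 0 Γ.N) (hr : c.1 + 1 ≤ r1) (harm : Arm Γ η c r1 In) {a b : ℝ} (ha : 0 ≤ a) (hw : Real.exp (-a) ≤ Γ.w c η)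
    (hLa : 3 * K ^ 2 * R ^ 3 * Real.exp (a + 2 * b) ≤ La) {cc : ℝ} (hv : Hv (wt η') Γ.p cc ⟨r1 + nA + n1, nM, be, be'⟩) :
    Good (wt η') Γ.p l Γ.r 0 Γ.hi Γ.N cc (Real.exp (-(2 * b))) ⟨r1 + nA + n1, nM, be, be'⟩ := by
  have hB := Cx.box1 h
  have hk := (Cx.mem_rows.1 hc).1.2
  obtain ⟨q1, q2⟩ := col87 h hc
  have hP0 := Real.exp_pos (-a)
  have hP1 : Real.exp (-a) ≤ 1 := Real.exp_le_one_iff.2 (by linarith)
  have hN := T.hN
  have hR : 0 < R := by linarith [T.R1]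
  have hK : 0 < K := by linarith [T.K1]
  have hLa0 : 0 < La := lt_of_lt_of_le (by positivity) hLa
  have hlh : (0 : ℤ) ≤ Γ.hi := q1.trans q2
  rw [w_eq87 h] at hw
  have key : ∀ (m : ℤ → ℝ), Gr m 0 Γ.hi Γ.N → (Real.exp (-a) * ZZm (wt η) Γ.p m 0 Γ.hi Γ.N ≤
      fw (wt η) Γ.p m (c.1 + 1) c.2 * Mo (wt η) Γ.p Γ.N (c.1 + 1) c.2) →
      off (wt η') Γ.p m 0 Γ.hi Γ.N ⟨r1 + nA + n1, nM, be, be'⟩ ≤ Real.exp (-(2 * b)) * Zt (wt η') Γ.p m 0 Γ.hi Γ.N := by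
    intro m hm hP
    rw [off_eq87 hm (show r1 + nA + n1 + nM ≤ Γ.N by omega)]
    have h1 := off87 T (wt_pos η) (wt_pos η') Γ.p_pos hm.m0 hm.lo0 hm.hi0 hlh hr q1 q2 harm hP0 hP1 hP
    have hZ : 0 ≤ Zt (wt η') Γ.p m 0 Γ.hi Γ.N := Cnt58.Zt_nonneg (wt_pos η') Γ.p_pos hm
    have h2 : La * Real.exp (-a) * (Zt (wt η') Γ.p m 0 Γ.hi Γ.N - ThrM (wt η') Γ.p m 0 Γ.hi Γ.N (r1 + nA + n1) nM be be') ≤
        3 * K ^ 2 * R ^ 3 * Zt (wt η') Γ.p m 0 Γ.hi Γ.N := h1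
    have h3 : 3 * K ^ 2 * R ^ 3 ≤ La * Real.exp (-a) * Real.exp (-(2 * b)) := by
      have e1 : La * Real.exp (-a) * Real.exp (-(2 * b)) = La * Real.exp (-(a + 2 * b)) := by
        rw [mul_assoc, ← Real.exp_add]
        congr 2
        ring
      have e2 : Real.exp (a + 2 * b) * Real.exp (-(a + 2 * b)) = 1 := by
        rw [← Real.exp_add, add_neg_cancel, Real.exp_zero]
      rw [e1]
      calc 3 * K ^ 2 * R ^ 3 = 3 * K ^ 2 * R ^ 3 * Real.exp (a + 2 * b) * Real.exp (-(a + 2 * b)) := by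
            rw [mul_assoc _ (Real.exp (a + 2 * b)) _, e2, mul_one]
        _ ≤ _ := mul_le_mul_of_nonneg_right hLa (Real.exp_pos _).le
    have h4 : La * Real.exp (-a) * (Zt (wt η') Γ.p m 0 Γ.hi Γ.N - ThrM (wt η') Γ.p m 0 Γ.hi Γ.N (r1 + nA + n1) nM be be') ≤
        La * Real.exp (-a) * (Real.exp (-(2 * b)) * Zt (wt η') Γ.p m 0 Γ.hi Γ.N) := by
      refine h2.trans ?_
      calc 3 * K ^ 2 * R ^ 3 * Zt (wt η') Γ.p m 0 Γ.hi Γ.N ≤
          (La * Real.exp (-a) * Real.exp (-(2 * b))) * Zt (wt η') Γ.p m 0 Γ.hi Γ.N := mul_le_mul_of_nonneg_right h3 hZ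
        _ = _ := by ring
    exact le_of_mul_le_mul_left h4 (mul_pos hLa0 hP0)
  refine ⟨by show r1 + nA + n1 + nM ≤ Γ.N; omega, hv, key l (grl hB) ?_, key Γ.r (grr hB) ?_⟩
  · refine le_trans (mul_le_mul_of_nonneg_right hw ?_) (wc_le_l (wt_pos η) Γ.p_pos hB (r_pos87 h) l_pos87 hk q1 q2)
    exact sum_nonneg fun y _ => mul_nonneg (Cx.l_nonneg y) (bw_pos (wt_pos η) Γ.p_pos _ _ _).le
  · refine le_trans (mul_le_mul_of_nonneg_right hw ?_) (wc_le_r (wt_pos η) Γ.p_pos hB (r_pos87 h) l_pos87 hk q1 q2)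
    exact sum_nonneg fun y _ => mul_nonneg (Cx.r_nonneg h y) (bw_pos (wt_pos η) Γ.p_pos _ _ _).le

/-- **ITEM (3) OF `YTub99`, the contact is still heavy in the new environment.** -/
theorem weightG87 (h : Γ.Ok) (T : Tube (wt η) (wt η') Γ.p Γ.N r1 nA n1 nM n2 nB In mo be be' ex R K La) {c : ℕ × ℤ}
    (hr : c.1 + 1 ≤ r1) (harm : Arm Γ η c r1 In) {a b : ℝ} (hw : Real.exp (-a) ≤ Γ.w c η)
    (hb : 36 * K ^ 2 * R ^ 2 * Real.exp a ≤ Real.exp b) : Real.exp (-b) ≤ Γ.w c η' := by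
  have h1 := weight87 T (wt_pos η) (wt_pos η') Γ.p_pos (Cx.box1 h) l_pos87 (r_pos87 h) hr harm
  rw [← w_eq87 h, ← w_eq87 h] at h1
  have hR : 0 < R := by linarith [T.R1]
  have hK : 0 < K := by linarith [T.K1]
  have e1 : Real.exp (-b) * Real.exp b = 1 := by rw [← Real.exp_add, neg_add_cancel, Real.exp_zero]
  have e2 : Real.exp a * Real.exp (-a) = 1 := by rw [← Real.exp_add, add_neg_cancel, Real.exp_zero]
  have h2 : Real.exp (-b) * (36 * K ^ 2 * R ^ 2) ≤ Real.exp (-a) := by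
    calc Real.exp (-b) * (36 * K ^ 2 * R ^ 2) = Real.exp (-b) * (36 * K ^ 2 * R ^ 2 * Real.exp a) * Real.exp (-a) := by
          rw [show Real.exp (-b) * (36 * K ^ 2 * R ^ 2 * Real.exp a) * Real.exp (-a) =
            Real.exp (-b) * (36 * K ^ 2 * R ^ 2) * (Real.exp a * Real.exp (-a)) by ring, e2, mul_one]
      _ ≤ Real.exp (-b) * Real.exp b * Real.exp (-a) :=
          mul_le_mul_of_nonneg_right (mul_le_mul_of_nonneg_left hb (Real.exp_pos _).le) (Real.exp_pos _).le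
      _ = _ := by rw [e1, one_mul]
  have h3 : Real.exp (-b) * (36 * K ^ 2 * R ^ 2) ≤ Γ.w c η' * (36 * K ^ 2 * R ^ 2) := by linarith
  exact le_of_mul_le_mul_right h3 (by positivity)

/-! ### The crude bound -/

section Crude

variable {w w' : ℕ → ℤ → ℝ} {p : ℕ → ℝ} {lo hi : ℤ}

/-- The sites of the changed slab change by a factor of at most `D`: the masses by at most `D ^ (number of rows)`. -/
theorem bw_crude (hw : ∀ k y, 0 < w k y) (hw' : ∀ k y, 0 < w' k y) (hp : ∀ k, 0 < p k) {r1 r2 : ℕ} {D : ℝ} (hD : 1 ≤ D)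
    (hs : ∀ k, ¬ (r1 ≤ k ∧ k < r2) → ∀ y, w k y = w' k y) (hd : ∀ k, r1 ≤ k → k < r2 → ∀ y, lo ≤ y → y ≤ hi → w k y ≤ D * w' k y) :
    ∀ (j i : ℕ) (x : ℤ), lo ≤ x → x + j ≤ hi + 1 →
      bw w p i j x ≤ D ^ (min r2 (i + j) - max r1 i) * bw w' p i j x
  | 0, i, x, _, _ => by
    rw [bw_zero, bw_zero, mul_one]
    exact one_le_pow₀ hD
  | j + 1, i, x, h1, h2 => by
    push_cast at h2
    rw [bw_succ, bw_succ]
    have a1 := bw_crude hw hw' hp hD hs hd j (i + 1) x h1 (by omega)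
    have a2 := bw_crude hw hw' hp hD hs hd j (i + 1) (x + 1) (by omega) (by omega)
    have b1 : 0 < bw w' p (i + 1) j x := bw_pos hw' hp _ _ _
    have b2 : 0 < bw w' p (i + 1) j (x + 1) := bw_pos hw' hp _ _ _
    have b3 := hw' i x
    have b4 := hp i
    have e1 : i + (j + 1) = i + 1 + j := by ring
    have a3 : bw w p (i + 1) j x + p i * bw w p (i + 1) j (x + 1) ≤
        D ^ (min r2 (i + 1 + j) - max r1 (i + 1)) * (bw w' p (i + 1) j x + p i * bw w' p (i + 1) j (x + 1)) := by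
      have := mul_le_mul_of_nonneg_left a2 b4.le
      linarith
    rw [e1]
    by_cases hi1 : r1 ≤ i ∧ i < r2
    · have e2 : min r2 (i + 1 + j) - max r1 i = (min r2 (i + 1 + j) - max r1 (i + 1)) + 1 := by omega
      rw [e2, pow_succ]
      calc w i x * (bw w p (i + 1) j x + p i * bw w p (i + 1) j (x + 1))
          ≤ (D * w' i x) * (D ^ (min r2 (i + 1 + j) - max r1 (i + 1)) * (bw w' p (i + 1) j x + p i * bw w' p (i + 1) j (x + 1))) := by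
            have hD0 : 0 < D := by linarith
            refine mul_le_mul (hd i hi1.1 hi1.2 x h1 (by omega)) a3 ?_ (by positivity)
            have c1 : 0 < bw w p (i + 1) j x := bw_pos hw hp _ _ _
            have c2 : 0 < bw w p (i + 1) j (x + 1) := bw_pos hw hp _ _ _
            exact (add_pos c1 (mul_pos b4 c2)).le
        _ = _ := by ring
    · have e2 : D ^ (min r2 (i + 1 + j) - max r1 (i + 1)) ≤ D ^ (min r2 (i + 1 + j) - max r1 i) :=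
        pow_le_pow_right₀ hD (by omega)
      rw [hs i hi1 x]
      calc w' i x * (bw w p (i + 1) j x + p i * bw w p (i + 1) j (x + 1))
          ≤ w' i x * (D ^ (min r2 (i + 1 + j) - max r1 (i + 1)) * (bw w' p (i + 1) j x + p i * bw w' p (i + 1) j (x + 1))) :=
            mul_le_mul_of_nonneg_left a3 b3.le
        _ ≤ w' i x * (D ^ (min r2 (i + 1 + j) - max r1 i) * (bw w' p (i + 1) j x + p i * bw w' p (i + 1) j (x + 1))) :=
            mul_le_mul_of_nonneg_left (mul_le_mul_of_nonneg_right e2 (by positivity)) b3.le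
        _ = _ := by ring

end Crude

/-- **ITEM (4) OF `YTub99`**: the contacts before the changed slab lose at most a factor `D ^ (4 n)`. -/
theorem earlyG87 (h : Γ.Ok) {r1 n : ℕ} {D : ℝ} (hD : 1 ≤ D) (hs : ∀ k, ¬ (r1 ≤ k ∧ k < r1 + n) → ∀ y, wt η k y = wt η' k y)
    (hd : ∀ k, r1 ≤ k → k < r1 + n → ∀ y, 0 ≤ y → y ≤ Γ.hi → wt η k y ≤ D * wt η' k y ∧ wt η' k y ≤ D * wt η k y)
    {c : ℕ × ℤ} (hc : c ∈ Γ.rows 0 Γ.N) (hr : c.1 + 1 ≤ r1) : Γ.w c η ≤ D ^ (4 * n) * Γ.w c η' := by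
  have hN := (Cx.mem_rows.1 hc).1.2
  obtain ⟨q1, q2⟩ := col87 h hc
  have hB := Cx.box1 h
  have D0 : 0 < D := by linarith
  have key : ∀ (ζ ζ' : Env), (∀ k, ¬ (r1 ≤ k ∧ k < r1 + n) → ∀ y, wt ζ k y = wt ζ' k y) →
      (∀ k, r1 ≤ k → k < r1 + n → ∀ y, 0 ≤ y → y ≤ Γ.hi → wt ζ k y ≤ D * wt ζ' k y) →
      ∀ (j i : ℕ) (x : ℤ), 0 ≤ x → x + j ≤ Γ.hi + 1 → bw (wt ζ) Γ.p i j x ≤ D ^ n * bw (wt ζ') Γ.p i j x := by
    intro ζ ζ' h1 h2 j i x h3 h4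
    refine (bw_crude (wt_pos ζ) (wt_pos ζ') Γ.p_pos hD h1 h2 j i x h3 h4).trans ?_
    exact mul_le_mul_of_nonneg_right (pow_le_pow_right₀ hD (by omega)) (bw_pos (wt_pos ζ') Γ.p_pos _ _ _).le
  have k1 := key η η' hs fun k a b y c d => (hd k a b y c d).1
  have k2 := key η' η (fun k hk y => (hs k hk y).symm) fun k a b y c d => (hd k a b y c d).2
  have hhi : Γ.hi = (Γ.k : ℤ) + Γ.N := rfl
  have Zl : Γ.ZM η' ≤ D ^ n * Γ.ZM η := k2 Γ.N 0 0 le_rfl (by omega)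
  have Zr : Γ.ZR η' ≤ D ^ n * Γ.ZR η := by
    unfold Cx.ZR
    rw [mul_sum]
    refine sum_le_sum fun y hy => ?_
    rw [mem_Icc] at hy
    by_cases h5 : 1 ≤ y ∧ y ≤ Γ.k
    · have h6 := k2 Γ.N 0 y hy.1 (by omega)
      have h7 := mul_le_mul_of_nonneg_left h6 (Cx.r_nonneg h y)
      calc _ ≤ _ := h7
        _ = _ := by ring
    · rw [Cx.r_out Γ h5]
      simp
  have hb0 : 0 < bw (wt η') Γ.p (c.1 + 1) (Γ.N - (c.1 + 1)) c.2 := bw_pos (wt_pos η') Γ.p_pos _ _ _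
  have hb1 : 0 < bw (wt η) Γ.p (c.1 + 1) (Γ.N - (c.1 + 1)) c.2 := bw_pos (wt_pos η) Γ.p_pos _ _ _
  have past : ∀ i, i < r1 → ∀ y, wt η' i y = wt η i y := fun i hi y => (hs i (by omega) y).symm
  have hdp : dp (wt η') Γ.p l Γ.r c.1 (c.2 - 1) c.2 = dp (wt η) Γ.p l Γ.r c.1 (c.2 - 1) c.2 := by
    unfold dp
    rw [fw_past past (by omega), fw_past past (by omega), fw_past past (by omega), fw_past past (by omega)]
  have hdp0 : 0 ≤ dp (wt η) Γ.p l Γ.r c.1 (c.2 - 1) c.2 := dp_nonneg (wt_pos η) Γ.p_pos hB.g c.1 (c.2 - 1) c.2 (by omega)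
  have z1 := Cx.ZM_pos Γ η
  have z2 := Cx.ZR_pos h η
  have z3 := Cx.ZM_pos Γ η'
  have z4 := Cx.ZR_pos h η'
  have pc := Γ.p_pos c.1
  have w1 := wt_pos η c.1 (c.2 - 1)
  have w2 := wt_pos η c.1 c.2
  have hbw : dp (wt η) Γ.p l Γ.r c.1 (c.2 - 1) c.2 * bw (wt η) Γ.p (c.1 + 1) (Γ.N - (c.1 + 1)) c.2 ^ 2 ≤
      dp (wt η) Γ.p l Γ.r c.1 (c.2 - 1) c.2 * (D ^ n * bw (wt η') Γ.p (c.1 + 1) (Γ.N - (c.1 + 1)) c.2) ^ 2 := by
    by_cases h5 : c.2 ≤ (Γ.k : ℤ) + c.1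
    · refine mul_le_mul_of_nonneg_left (pow_le_pow_left₀ hb1.le (k1 _ _ _ q1 ?_) 2) hdp0
      rw [hhi]
      have : ((Γ.N - (c.1 + 1) : ℕ) : ℤ) = Γ.N - (c.1 + 1) := by omega
      rw [this]
      omega
    · have e1 : dp (wt η) Γ.p l Γ.r c.1 (c.2 - 1) c.2 = 0 := by
        unfold dp
        rw [(grl hB).fw0 c.1 (y := c.2) (fun h6 => by omega), (grr hB).fw0 c.1 (y := c.2) (fun h6 => by omega)]
        ring
      rw [e1, zero_mul, zero_mul]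
  unfold Cx.w
  rw [hdp, past c.1 (by omega) (c.2 - 1), past c.1 (by omega) c.2, ← mul_div_assoc, div_le_div_iff₀ (mul_pos z1 z2) (mul_pos z3 z4)]
  have hZ : Γ.ZM η' * Γ.ZR η' ≤ (D ^ n * Γ.ZM η) * (D ^ n * Γ.ZR η) := mul_le_mul Zl Zr z4.le (by positivity)
  calc dp (wt η) Γ.p l Γ.r c.1 (c.2 - 1) c.2 * (Γ.p c.1 * (wt η c.1 (c.2 - 1) * wt η c.1 c.2) *
        bw (wt η) Γ.p (c.1 + 1) (Γ.N - (c.1 + 1)) c.2 ^ 2) * (Γ.ZM η' * Γ.ZR η')
      = (dp (wt η) Γ.p l Γ.r c.1 (c.2 - 1) c.2 * bw (wt η) Γ.p (c.1 + 1) (Γ.N - (c.1 + 1)) c.2 ^ 2) *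
        ((Γ.p c.1 * (wt η c.1 (c.2 - 1) * wt η c.1 c.2)) * (Γ.ZM η' * Γ.ZR η')) := by ring
    _ ≤ (dp (wt η) Γ.p l Γ.r c.1 (c.2 - 1) c.2 * (D ^ n * bw (wt η') Γ.p (c.1 + 1) (Γ.N - (c.1 + 1)) c.2) ^ 2) *
        ((Γ.p c.1 * (wt η c.1 (c.2 - 1) * wt η c.1 c.2)) * ((D ^ n * Γ.ZM η) * (D ^ n * Γ.ZR η))) :=
        mul_le_mul hbw (mul_le_mul_of_nonneg_left hZ (by positivity)) (by positivity) (by positivity)
    _ = _ := by
        have e4 : D ^ (4 * n) = (D ^ n) ^ 4 := by rw [← pow_mul, mul_comm]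
        rw [e4]
        ring

/-- The same as levels. -/
theorem earlyE87 (h : Γ.Ok) {r1 n : ℕ} {L : ℝ} (hL : 0 ≤ L) (hs : ∀ k, ¬ (r1 ≤ k ∧ k < r1 + n) → ∀ y, wt η k y = wt η' k y)
    (hd : ∀ k, r1 ≤ k → k < r1 + n → ∀ y, 0 ≤ y → y ≤ Γ.hi → Real.exp (-L) ≤ wt η k y ∧ wt η k y ≤ Real.exp L ∧
      Real.exp (-L) ≤ wt η' k y ∧ wt η' k y ≤ Real.exp L)
    {c : ℕ × ℤ} (hc : c ∈ Γ.rows 0 Γ.N) (hr : c.1 + 1 ≤ r1) {a a' : ℝ} (ha : a + 8 * n * L ≤ a') (hw : Real.exp (-a) ≤ Γ.w c η) :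
    Real.exp (-a') ≤ Γ.w c η' := by
  have h1 := earlyG87 (D := Real.exp (2 * L)) h (Real.one_le_exp (by linarith)) hs (fun k a b y c d => by
    obtain ⟨x1, x2, x3, x4⟩ := hd k a b y c d
    have e1 : Real.exp (2 * L) * Real.exp (-L) = Real.exp L := by
      rw [← Real.exp_add]
      congr 1
      ring
    constructor
    · refine x2.trans ?_
      rw [← e1]
      exact mul_le_mul_of_nonneg_left x3 (Real.exp_pos _).le
    · refine x4.trans ?_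
      rw [← e1]
      exact mul_le_mul_of_nonneg_left x1 (Real.exp_pos _).le) hc hr
  have e2 : Real.exp (2 * L) ^ (4 * n) = Real.exp (8 * n * L) := by
    rw [← Real.exp_nat_mul]
    congr 1
    push_cast
    ring
  rw [e2] at h1
  have h2 : Real.exp (8 * n * L) * Real.exp (-a') ≤ Real.exp (8 * n * L) * Γ.w c η' := by
    calc Real.exp (8 * n * L) * Real.exp (-a') = Real.exp (8 * n * L - a') := by
          rw [← Real.exp_add]
          congr 1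
      _ ≤ Real.exp (-a) := Real.exp_le_exp.2 (by linarith)
      _ ≤ _ := hw.trans h1
  exact le_of_mul_le_mul_left h2 (Real.exp_pos _)

end

end Pool.Agent.W_7d29a1_C1.Tb87
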