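import Pool.Agent.W_7d29a1_C1.TunE20

/-!
MP_7d29a1_pr, [C1] **THE TUNED SLAB LEMMA** (TSLAB, F5), over the block events `B12.Blk`. (helper20)

At most two lanes. Besides the slab event (`SLAB20`: lanes `≥ e^{LE}`, pairs off the lanes `≤ e^{-GE}`, masses `≤ e^{UE}`) the cells of half
width `r` (`κ w ≤ r ≤ δ' w`) have the level of their lane up to `e^{dE}` (`CELL20`), and the difference of the levels of the lanes is the
target `t`, `|t| ≤ Kt E`, up to `d E` (`DIF20`), together with any decreasing event `Z` of probability at least `1 - p`;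
the probability is at least `c₁`, uniformly in the lanes, in the target and in `Z`. Order: lanes `K₁, δ, L`, precision `d`, cells `δ'`, targets
`Kt`; then `κ`, `p`; then the window `K` of the starts; then `U`; then `G`; then `c₁`, `Q`, `n₁`.
-/

set_option autoImplicit false

namespace Pool.Agent.W_7d29a1_C1

open MeasureTheory ProbabilityTheory Filter Topology
open Pool.Agent.W_7d29a1_F Pool.Agent.W_7d29a1_h4g Pool.Agent.W_7d29a1_H Pool.Agent.W_7d29a1_HS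
open Pool.Agent.W_7d29a1_HR (Dec Fin')
open Pool.Agent.W_7d29a1_C1.F31 (DecO FinO IncO)
open Pool.Agent.W_7d29a1_C1.S71 (Off gl)
open Pool.Agent.W_7d29a1_C1.T26

noncomputable section

variable {μ : Measure ℝ} {s c C : ℝ} {n₀ : ℕ}

/-- **THE TUNED SLAB LEMMA.** `K₁` = window of the lanes, `K` = window of the starts of the slab. -/
theorem tslab20 [IsProbabilityMeasure μ] (h : In μ s c C n₀) (hBlk : B12.Blk μ s) {K₁ δ d δ' Kt : ℝ} (L : ℝ) (hK₁ : 0 ≤ K₁)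
    (hδ : 0 < δ) (hd : 0 < d) (hδ' : 0 < δ') (hKt : 0 ≤ Kt) :
    ∃ κ p : ℝ, 0 < κ ∧ 0 < p ∧ ∀ K : ℝ, K₁ ≤ K → ∃ U : ℝ, 0 ≤ U ∧ ∀ G : ℝ, 0 ≤ G → ∃ (c₁ : ℝ) (Q n₁ : ℕ), 0 < c₁ ∧ 1 ≤ Q ∧
      1 ≤ n₁ ∧ ∀ n : ℕ, n₁ ≤ n → ∃ r : ℝ, κ * wd μ s (Q * n) ≤ r ∧ r ≤ δ' * wd μ s (Q * n) ∧
      ∀ (ι : Type) [Fintype ι], Fintype.card ι ≤ 2 →
      ∀ a e : ι → ℤ, (∀ j, |(a j : ℝ)| ≤ K₁ * wd μ s (Q * n)) → (∀ j, |(e j : ℝ) - sl μ s * (Q * n : ℕ)| ≤ K₁ * wd μ s (Q * n)) →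
        (∀ j j', j ≠ j' → ((a j : ℝ) + δ * wd μ s (Q * n) ≤ a j' ∧ (e j : ℝ) + δ * wd μ s (Q * n) ≤ e j') ∨
          ((a j' : ℝ) + δ * wd μ s (Q * n) ≤ a j ∧ (e j' : ℝ) + δ * wd μ s (Q * n) ≤ e j)) →
        ∀ (j₁ j₀ : ι) (t : ℝ), |t| ≤ Kt * EE μ s (Q * n) → (j₁ = j₀ → t = 0) →
        ∀ Z : Set Env, MeasurableSet Z → Dec Z → (law μ).real Zᶜ ≤ p →
        c₁ ≤ (law μ).real (SLAB20 μ s a e (Q * n) (K * wd μ s (Q * n)) r (L * EE μ s (Q * n))
          (G * EE μ s (Q * n)) (U * EE μ s (Q * n)) ∩ (CELL20 μ s a e (Q * n) r (d * EE μ s (Q * n)) ∩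
            (DIF20 μ s a e (Q * n) j₁ j₀ t (d * EE μ s (Q * n)) ∩ Z))) := by
  classical
  obtain ⟨k₀, k₁, k₃, KL, KU, c₄, A, Rp, S, pp, hk0, hk01, hk1L, hkL3, hk3U, hc4, hRp, hRA, hAS, hpp, n_b, hblk⟩ := hBlk 1 le_rfl
  have hk1 : 1 ≤ k₁ := by linarith
  have hKU : 0 ≤ KU := by linarith
  -- the number of blocks
  obtain ⟨X, hX⟩ : ∃ X : ℝ, X = 4 * KU + 3 * c₄ + 6 := ⟨_, rfl⟩
  have hX0 : 0 < X := by rw [hX]; linarith
  obtain ⟨M, hM⟩ : ∃ M : ℝ, M = (2 * A + 2 * Rp + S + 20) / δ + (Rp + 7) / δ' + (Rp + 7) + Kt + |L| + X / d + 4 * K₁ + 1 := ⟨_, rfl⟩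
  have m1 : 0 ≤ (2 * A + 2 * Rp + S + 20) / δ := div_nonneg (by linarith) hδ.le
  have m2 : 0 ≤ (Rp + 7) / δ' := div_nonneg (by linarith) hδ'.le
  have m3 : 0 ≤ |L| := abs_nonneg L
  have m4 : 0 ≤ X / d := div_nonneg hX0.le hd.le
  have hM0 : 0 ≤ M := by rw [hM]; linarith
  obtain ⟨b, m₀, hb1, hm₀, hsc⟩ := scal20 h hM0
  have hb0 : (0 : ℝ) < b := by exact_mod_cast hb1
  obtain ⟨P, hP⟩ : ∃ P : ℝ, P = pp ^ b := ⟨_, rfl⟩
  have hP0 : 0 < P := by rw [hP]; positivity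
  obtain ⟨ep, hep⟩ : ∃ ep : ℝ, ep = P ^ 2 / (24 * (b + 1)) := ⟨_, rfl⟩
  have hep0 : 0 < ep := by rw [hep]; positivity
  refine ⟨1 / b, ep, by positivity, hep0, fun K hKK => ?_⟩
  have hK : 0 ≤ K := hK₁.trans hKK
  obtain ⟨K₀, U, hK0, hU, n₄, hUE⟩ := upexit20 h hK (G := 0) le_rfl (eps := ep) hep0
  refine ⟨U, hU, fun G hG => ?_⟩
  -- the constants after `G`
  obtain ⟨K₃, U', hK3, hU', n₅, hUE'⟩ := upexit20 h (K := K + 1) (by linarith) (G := G + 2) (by linarith) (eps := ep) hep0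
  have hK30 : 0 ≤ K₃ := by linarith
  obtain ⟨Y, hY⟩ : ∃ Y : ℝ, Y = 2 * U' + G + 3 := ⟨_, rfl⟩
  have hε : (0 : ℝ) < 1 / b := by positivity
  obtain ⟨N₀, n₆, hN₀, hJp⟩ := jumpP20 h hK30 hε (e := P / 2) (by positivity) Y
  obtain ⟨N₁, hN₁⟩ := exists_nat_ge (2 * K₁)
  obtain ⟨N', hN'⟩ : ∃ N' : ℕ, N' = max (max N₀ N₁) 1 := ⟨_, rfl⟩
  have hN'1 : 1 ≤ N' := by rw [hN']; exact le_max_right _ _
  have hN'0 : N₀ ≤ N' := by rw [hN']; exact (le_max_left _ _).trans (le_max_left _ _)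
  have hN'2 : (2 * K₁ : ℝ) ≤ N' := by
    refine hN₁.trans ?_
    have : N₁ ≤ N' := by rw [hN']; exact (le_max_right _ _).trans (le_max_left _ _)
    exact_mod_cast this
  have hbN : b ≤ b * N' := Nat.le_mul_of_pos_right b hN'1
  have hN'b : N' ≤ b * N' := Nat.le_mul_of_pos_left N' hb1
  have hN1 : 1 ≤ b * N' := hb1.trans hbN
  obtain ⟨q, hq, n₇, hWp⟩ := wallP20 h hK30 hε.le hN1 Y
  obtain ⟨n₈, hn₈⟩ := eventually_atTop.1 (h.tE.eventually_ge_atTop (2 * ((b * N' : ℕ) : ℝ) + 1))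
  obtain ⟨n₉, hn₉⟩ := eventually_atTop.1 ((wd_tendsto h).eventually_ge_atTop 2)
  refine ⟨(P / 2) ^ 2 / 2 * q ^ 2 / (b + 1), b * N', max (max (max n_b m₀) (max n₄ n₅)) (max (max n₆ n₇) (max (max n₈ n₉) 1)),
    by positivity, hN1, (le_max_right _ _).trans ((le_max_right _ _).trans (le_max_right _ _)), fun n hn => ?_⟩
  have hnb : n_b ≤ n := (le_max_left _ _).trans ((le_max_left _ _).trans ((le_max_left _ _).trans hn))
  have hnm : m₀ ≤ n := (le_max_right _ _).trans ((le_max_left _ _).trans ((le_max_left _ _).trans hn))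
  have hn4 : n₄ ≤ n := (le_max_left _ _).trans ((le_max_right _ _).trans ((le_max_left _ _).trans hn))
  have hn5 : n₅ ≤ n := (le_max_right _ _).trans ((le_max_right _ _).trans ((le_max_left _ _).trans hn))
  have hn6 : n₆ ≤ n := (le_max_left _ _).trans ((le_max_left _ _).trans ((le_max_right _ _).trans hn))
  have hn7 : n₇ ≤ n := (le_max_right _ _).trans ((le_max_left _ _).trans ((le_max_right _ _).trans hn))
  have hn8 : n₈ ≤ n := (le_max_left _ _).trans ((le_max_left _ _).trans ((le_max_right _ _).trans ((le_max_right _ _).trans hn)))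
  have hn9 : n₉ ≤ n := (le_max_right _ _).trans ((le_max_left _ _).trans ((le_max_right _ _).trans ((le_max_right _ _).trans hn)))
  have hn1 : 1 ≤ n := (le_max_right _ _).trans ((le_max_right _ _).trans ((le_max_right _ _).trans hn))
  -- the scales
  obtain ⟨m, hm⟩ : ∃ m : ℕ, m = N' * n := ⟨_, rfl⟩
  obtain ⟨T, hT⟩ : ∃ T : ℕ, T = b * N' * n := ⟨_, rfl⟩
  have hTm : T = b * m := by rw [hT, hm, Nat.mul_assoc]
  have hnm' : n ≤ m := by rw [hm]; exact Nat.le_mul_of_pos_left n hN'1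
  have hmT : m ≤ T := by rw [hTm]; exact Nat.le_mul_of_pos_left m hb1
  have hnT : n ≤ T := hnm'.trans hmT
  have hmm : 1 ≤ m := hn1.trans hnm'
  have hT1 : 1 ≤ T := hmm.trans hmT
  obtain ⟨s1, s2, s3, s4⟩ := hsc b m le_rfl (hnm.trans hnm')
  rw [← hTm] at s1 s2 s3 s4
  have hw2 : 2 ≤ wd μ s m := hn₉ m (hn9.trans hnm')
  have hwT2 : 2 ≤ wd μ s T := hn₉ T (hn9.trans hnT)
  have hE1 : 1 ≤ EE μ s m := one_le_EE m
  have hET1 : 1 ≤ EE μ s T := one_le_EE T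
  have hET8 : 2 * ((b * N' : ℕ) : ℝ) + 1 ≤ EE μ s T := hn₈ T (hn8.trans hnT)
  obtain ⟨w, hw⟩ : ∃ w : ℝ, w = wd μ s m := ⟨_, rfl⟩
  obtain ⟨wT, hwT⟩ : ∃ wT : ℝ, wT = wd μ s T := ⟨_, rfl⟩
  obtain ⟨E, hE⟩ : ∃ E : ℝ, E = EE μ s m := ⟨_, rfl⟩
  obtain ⟨ET, hET⟩ : ∃ ET : ℝ, ET = EE μ s T := ⟨_, rfl⟩
  have hw0 : 0 < w := by rw [hw]; linarith
  have hwT0 : 0 < wT := by rw [hwT]; linarith
  have hE0 : 0 < E := by rw [hE]; linarith
  have hET0 : 0 < ET := by rw [hET]; linarith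
  -- consequences of the choice of `b`
  have hMX : ∀ x : ℝ, x ≤ M → x * w ≤ wT ∧ x * E ≤ ET ∧ x * wT ≤ b * w ∧ x * ET ≤ b * E := by
    intro x hx
    rw [hw, hwT, hE, hET] at *
    refine ⟨le_trans (mul_le_mul_of_nonneg_right hx (by linarith)) s1, le_trans (mul_le_mul_of_nonneg_right hx (by linarith)) s2,
      le_trans (mul_le_mul_of_nonneg_right hx (by linarith)) s3, le_trans (mul_le_mul_of_nonneg_right hx (by linarith)) s4⟩
  have q1 : (2 * A + 2 * Rp + S + 20) * w ≤ δ * wT := by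
    have h1 := (hMX ((2 * A + 2 * Rp + S + 20) / δ) (by rw [hM]; linarith)).1
    have h2 := mul_le_mul_of_nonneg_left h1 hδ.le
    have h3 : δ * ((2 * A + 2 * Rp + S + 20) / δ * w) = (2 * A + 2 * Rp + S + 20) * w := by field_simp
    linarith
  have q2 : (Rp + 7) * w ≤ δ' * wT := by
    have h1 := (hMX ((Rp + 7) / δ') (by rw [hM]; linarith)).1
    have h2 := mul_le_mul_of_nonneg_left h1 hδ'.le
    have h3 : δ' * ((Rp + 7) / δ' * w) = (Rp + 7) * w := by field_simp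
    linarith
  have q3 : (Rp + 7) * w ≤ wT := (hMX (Rp + 7) (by rw [hM]; linarith)).1
  have q4 : wT ≤ b * w := by
    have h1 := (hMX 1 (by rw [hM]; linarith)).2.2.1
    linarith
  have q5 : 4 * K₁ * wT ≤ b * w := (hMX (4 * K₁) (by rw [hM]; linarith)).2.2.1
  have q6 : Kt * ET ≤ b * E := (hMX Kt (by rw [hM]; linarith)).2.2.2
  have q7 : |L| * ET ≤ b * E := (hMX |L| (by rw [hM]; linarith)).2.2.2
  have q8 : X * E ≤ d * ET := by
    have h1 := (hMX (X / d) (by rw [hM]; linarith)).2.1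
    have h2 := mul_le_mul_of_nonneg_left h1 hd.le
    have h3 : d * (X / d * E) = X * E := by field_simp
    linarith
  -- the blocks
  obtain ⟨ρ, Bk, hB⟩ := hblk m (hnb.trans hnm')
  have hBN : BN26 μ s m k₀ k₁ k₃ KL KU c₄ A Rp :=
    ⟨hk0, hk01, by linarith, hk1L, by linarith, hc4, hRA, by linarith, hE1⟩
  obtain ⟨ε', hε'⟩ : ∃ ε' : ℝ, ε' = 1 / b * wT := ⟨_, rfl⟩
  have hε0 : 0 ≤ ε' := by rw [hε']; positivity
  have hε1 : ε' ≤ w := by
    rw [hε', one_div, inv_mul_le_iff₀ hb0]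
    exact q4
  have hS0 : 0 ≤ S * w := mul_nonneg (by linarith) hw0.le
  refine ⟨(Rp + 7) * w, ?_, ?_, ?_⟩
  · rw [← hT, ← hwT]
    have h1 : 1 / (b : ℝ) * wT ≤ w := by rw [← hε']; exact hε1
    have h2 : 1 * w ≤ (Rp + 7) * w := mul_le_mul_of_nonneg_right (by linarith) hw0.le
    linarith
  · rw [← hT, ← hwT]
    exact q2
  intro ι _ hcard a e ha he hsep j₁ j₀ t ht ht0 Z mZ dZ pZ
  rw [← hT] at ha he hsep ht ⊢
  -- geometry
  have hdr0 : Drift20 (sl μ s) T (2 * (K₁ * wT)) (sl20 a e T) := by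
    rw [hwT]
    exact drift_sl20 hT1 ha he
  have hTN : TN20 μ s T m b n N' A Rp K δ ε' a e := by
    have hKw : K₁ * wd μ s T ≤ K * wd μ s T := mul_le_mul_of_nonneg_right hKK (by linarith)
    refine ⟨hn1, hm, hb1, hN'1, hTm, hK, by linarith, fun j => (ha j).trans hKw, fun j => (he j).trans hKw, hsep, hε0, ?_,
      by linarith, ?_, ?_, ?_⟩
    · rw [← hw]; exact hε1
    · rw [← hw, ← hwT]; exact q3
    · rw [← hw, ← hwT]
      have h1 : (2 * A + 2 * Rp + 20) * w + S * w = (2 * A + 2 * Rp + S + 20) * w := by ring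
      linarith
    · intro j i hi
      have h1 : Drift20 (sl μ s) (b * N' * n) (2 * (K₁ * wT)) (sl20 a e T) := by rw [← hT]; exact hdr0
      refine drift_la20 hn1 hN1 h1 ?_ j i hi
      rw [hε']
      have h2 : ((b * N' : ℕ) : ℝ) * (1 / b * wT) = N' * wT := by
        push_cast
        field_simp
      rw [h2]
      have h3 := mul_le_mul_of_nonneg_right hN'2 hwT0.le
      linarith
  have hdrb : Drift20 (sl μ s) (b * m) (2 * (K₁ * wT)) (sl20 a e (b * m)) := by rw [← hTm]; exact hdr0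
  have hkb : 2 * (K₁ * wT) + b ≤ b * wd μ s m := by
    rw [← hw]
    have h1 : (b : ℝ) * 2 ≤ b * w := mul_le_mul_of_nonneg_left (by rw [hw]; exact hw2) hb0.le
    linarith
  have hkdiv : 2 * (K₁ * wT) / b ≤ w / 2 := by
    rw [div_le_iff₀ hb0]
    linarith
  -- the strips
  obtain ⟨Sp, hSp⟩ : ∃ Sp : Set Pt, Sp = PS20 (sl20 a e T) ((Rp + 2) * w) := ⟨_, rfl⟩
  -- the types
  obtain ⟨τU, hτU⟩ : ∃ τU : ι → ℕ → Bool, τU = fun j _ => decide (j = j₁) := ⟨_, rfl⟩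
  obtain ⟨τL, hτL⟩ : ∃ τL : ι → ℕ → Bool, τL = fun j _ => !decide (j = j₁) := ⟨_, rfl⟩
  obtain ⟨r, hr⟩ : ∃ r : ℝ, r = A * wd μ s m := ⟨_, rfl⟩
  obtain ⟨D, hD⟩ : ∃ D : Env → ℝ, D = fun η => Real.log (It20 μ s r m b (cp20 a e b j₁) η) -
    Real.log (It20 μ s r m b (cp20 a e b j₀) η) := ⟨_, rfl⟩
  have mD : Measurable D := by
    rw [hD]
    exact (Real.measurable_log.comp (measurable_It20 _ _ _ _)).sub (Real.measurable_log.comp (measurable_It20 _ _ _ _))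
  -- JUMP and WALL
  obtain ⟨J, hJ⟩ : ∃ J : Set Env, J = {η | JUMP20 μ s (K₃ * wT) ε' n (b * N') (Y * ET) η} := ⟨_, rfl⟩
  obtain ⟨Wl, hWl⟩ : ∃ Wl : Set Env, Wl = {η | WALL20 μ s (K₃ * wT) ε' ((Rp + 2) * w + 2 * ε') n (b * N') (Y * ET)
      (la20 (sl20 a e T) n) η} := ⟨_, rfl⟩
  have mJ : MeasurableSet J := by rw [hJ]; exact meas_JUMP20 _ _ _ _ _
  have dJ : Dec J := by rw [hJ]; exact dec_JUMP20 _ _ _ _ _
  have mW : MeasurableSet Wl := by rw [hWl]; exact meas_WALL20 _ _ _ _ _ _ _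
  have dW : Dec Wl := by rw [hWl]; exact dec_WALL20 _ _ _ _ _ _ _
  have fW : Fin' Wl := by rw [hWl]; exact fin_WALL20 _ _ _ _ _ _ _
  have oW : Off Sp Wl := by
    rw [hWl, hSp]
    refine wall_sites20 _ _ _ _ _ _ _ _ fun i z hi hz haw => ?_
    refine away20 (D := 2 * (K₁ * wT)) hn1 hN1 (by positivity) (by rw [← hT]; exact hdr0) ?_ i z hi hz haw
    rw [hε']
    have h2 : ((b * N' : ℕ) : ℝ) * (1 / b * wT) = N' * wT := by
      push_cast
      field_simp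
    rw [h2]
    have h3 := mul_le_mul_of_nonneg_right hN'2 hwT0.le
    linarith
  have pJ : (law μ).real Jᶜ ≤ P / 2 := by
    have h1 := hJp (b * N') n (hN'0.trans hN'b) hn6
    rw [← hT, ← hwT, ← hET, ← hε'] at h1
    rw [hJ]
    exact h1
  have pW : q ≤ (law μ).real Wl := by
    have h1 := hWp n hn7 ι ((Rp + 2) * w + 2 * ε') (la20 (sl20 a e T) n)
    rw [← hT, ← hwT, ← hET, ← hε'] at h1
    rw [hWl]
    exact h1
  -- the decreasing events
  obtain ⟨Bu, hBu⟩ : ∃ Bu : Set Env, Bu = {η | UP20 μ s (K₀ * wT) T (U * ET) η} := ⟨_, rfl⟩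
  obtain ⟨Bv, hBv⟩ : ∃ Bv : Set Env, Bv = {η | UP20 μ s (K₃ * wT) T (U' * ET) η ∧
      EXIT20 μ s ((K + 1) * wT) (K₃ * wT) T ((G + 2) * ET) η} := ⟨_, rfl⟩
  have mBu : MeasurableSet Bu := by rw [hBu]; exact meas_UP20 _ _ _
  have dBu : Dec Bu := by rw [hBu]; exact fun η η' hh h1 => dec_UP20 _ _ _ _ _ hh h1
  have mBv : MeasurableSet Bv := by rw [hBv]; exact (meas_UP20 _ _ _).inter (meas_EXIT20 _ _ _ _)
  have dBv : Dec Bv := by
    rw [hBv]
    intro η η' hh h1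
    exact ⟨dec_UP20 _ _ _ _ _ hh h1.1, dec_EXIT20 _ _ _ _ _ _ hh h1.2⟩
  have pBu : (law μ).real Buᶜ ≤ ep := by
    refine le_trans (measureReal_mono (fun η hη => ?_) (measure_ne_top _ _)) (hUE T (hn4.trans hnT))
    rw [hBu, hwT, hET] at hη
    exact fun h1 => hη h1.1
  have pBv : (law μ).real Bvᶜ ≤ ep := by
    rw [hBv, hwT, hET]
    exact hUE' T (hn5.trans hnT)
  obtain ⟨Zt, hZt⟩ : ∃ Zt : Set Env, Zt = Bu ∩ (Bv ∩ Z) := ⟨_, rfl⟩
  have mZt : MeasurableSet Zt := by rw [hZt]; exact mBu.inter (mBv.inter mZ)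
  have dZt : Dec Zt := by
    rw [hZt]
    intro η η' hh h1
    exact ⟨dBu η η' hh h1.1, dBv η η' hh h1.2.1, dZ η η' hh h1.2.2⟩
  have pZt : ((b : ℝ) + 1) * (law μ).real Ztᶜ ≤ (P / 2) ^ 2 / 2 := by
    have h1 : (law μ).real Ztᶜ ≤ 3 * ep := by
      have h2 : Ztᶜ = Buᶜ ∪ (Bvᶜ ∪ Zᶜ) := by rw [hZt, Set.compl_inter, Set.compl_inter]
      rw [h2]
      have h3 := (measureReal_union_le (μ := law μ) Buᶜ (Bvᶜ ∪ Zᶜ)).trans (add_le_add le_rfl (measureReal_union_le _ _))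
      linarith
    have h2 := mul_le_mul_of_nonneg_left h1 (show (0 : ℝ) ≤ (b : ℝ) + 1 by positivity)
    have h3 : ((b : ℝ) + 1) * (3 * ep) = (P / 2) ^ 2 / 2 := by
      rw [hep]
      field_simp
      norm_num
    linarith
  -- the lane events
  have hAB : ∀ τ : ι → ℕ → Bool, MeasurableSet (AB20 Bk a e m b τ) ∧ DecO Sp (AB20 Bk a e m b τ) ∧
      P ≤ (law μ).real (AB20 Bk a e m b τ) := by
    intro τ
    refine ⟨meas_AB20 hB a e b τ, ?_, ?_⟩
    · rw [hSp]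
      have h1 := dec_AB20 (μ := μ) (s := s) hB hmm hb1 (k := 2 * (K₁ * wT)) (r := (Rp + 2) * w) (by positivity) hdrb (by
        rw [← hw]
        have h2 : 2 ≤ w := by rw [hw]; exact hw2
        have h3 : (Rp + 2) * w = Rp * w + 2 * w := by ring
        linarith) τ
      rw [← hTm] at h1
      exact h1
    · rw [hP]
      refine prob_AB20 (μ := μ) (s := s) (d := δ * wT) hcard hB hpp.le hmm hb1 hdrb hkb (by rw [hwT]; exact hsep) ?_ τ
      rw [← hw]
      have h2 : 0 ≤ (2 * A + 2 * Rp + 19) * w := mul_nonneg (by linarith) hw0.le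
      have h3 : (2 * A + 2 * Rp + S + 20) * w = (2 * A + 2 * Rp + 19) * w + S * w + w := by ring
      have h4 : 2 ≤ w := by rw [hw]; exact hw2
      linarith
  have hABJ : ∀ τ : ι → ℕ → Bool, P / 2 ≤ (law μ).real (AB20 Bk a e m b τ ∩ J) := by
    intro τ
    have h3 : AB20 Bk a e m b τ ⊆ (AB20 Bk a e m b τ ∩ J) ∪ Jᶜ := by
      intro η hη
      by_cases hj : η ∈ J
      · exact Or.inl ⟨hη, hj⟩
      · exact Or.inr hj
    have h4 := (measureReal_mono h3 (measure_ne_top (law μ) _)).trans (measureReal_union_le _ _)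
    have h5 := (hAB τ).2.2
    linarith
  -- the mixed event
  obtain ⟨mix, hmix⟩ : ∃ mix : ℕ → ι → ℕ → Bool, mix = fun i j i' => if i ≤ i' then τU j i' else τL j i' := ⟨_, rfl⟩
  obtain ⟨Gs, hGs⟩ : ∃ Gs : Set Env, Gs = (⋃ i ∈ Finset.range (b + 1), AB20 Bk a e m b (mix i)) ∩ (J ∩ Wl) := ⟨_, rfl⟩
  have mGs : MeasurableSet Gs := by
    rw [hGs]
    exact (Finset.measurableSet_biUnion _ fun i _ => meas_AB20 hB a e b (mix i)).inter (mJ.inter mW)
  have hx : ∀ x ∈ AB20 Bk a e m b τU ∩ J ∩ Wl, ∀ y ∈ AB20 Bk a e m b τL ∩ J ∩ Wl, ∀ i,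
      gl (Qs20 m b i) x y ∈ AB20 Bk a e m b (mix i) := by
    intro x hx y hy i
    rw [hmix]
    exact splice_AB20 hB hx.1.1 hy.1.1 i
  have hmain := tune20 (μ := μ) (S := Sp) b (Qs20 m b) (Qs20_zero m b) (Qs20_end m hb1)
    (AU := AB20 Bk a e m b τU ∩ J) (AL := AB20 Bk a e m b τL ∩ J) (Wl := Wl) (Z := Zt) (G := Gs)
    ((hAB τU).1.inter mJ) ((hAB τL).1.inter mJ) mW mZt mGs ((hAB τU).2.1.inter (DecO.of_dec dJ _))
    ((hAB τL).2.1.inter (DecO.of_dec dJ _)) (DecO.of_dec dW _) (FinO.of_fin fW oW) dZt (p := P / 2) (q := q)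
    (by positivity) hq.le (hABJ τU) (hABJ τL) pW pZt D mD t ((4 * KU + 3 * c₄ + 4) * E) (by positivity)
    (fun x hx => by
      -- the upper level
      rw [hD]
      dsimp only
      by_cases hj : j₁ = j₀
      · rw [ht0 hj, hj, sub_self]
      · have u1 := It20_up hB hBN (p := cp20 a e b j₁) (t := τU j₁) (hx.1 j₁) (fun i _ => by rw [hτU]; simp)
        have u2 := It20_dn hB hBN (p := cp20 a e b j₀) (t := τU j₀) (hx.1 j₀) (fun i _ => by
          rw [hτU]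
          simp [Ne.symm hj])
        have u3 := It20_low hB hBN (p := cp20 a e b j₀) (t := τU j₀) (hx.1 j₀)
        rw [← hr, ← hE] at u1 u2 u3
        have u4 := Real.log_le_log (Real.exp_pos _) u1
        have u5 := Real.log_le_log ((Real.exp_pos _).trans_le u3) u2
        rw [Real.log_exp] at u4 u5
        have u6 := (le_abs_self t).trans ht
        rw [← hET] at u6
        have u7 : b * E * 1 ≤ b * E * (k₃ - KL) := mul_le_mul_of_nonneg_left (by linarith) (by positivity)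
        linarith)
    (fun x hx => by
      rw [hD]
      dsimp only
      by_cases hj : j₁ = j₀
      · rw [ht0 hj, hj, sub_self]
      · have u1 := It20_up hB hBN (p := cp20 a e b j₀) (t := τL j₀) (hx.1 j₀) (fun i _ => by
          rw [hτL]
          simp [Ne.symm hj])
        have u2 := It20_dn hB hBN (p := cp20 a e b j₁) (t := τL j₁) (hx.1 j₁) (fun i _ => by rw [hτL]; simp)
        have u3 := It20_low hB hBN (p := cp20 a e b j₁) (t := τL j₁) (hx.1 j₁)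
        rw [← hr, ← hE] at u1 u2 u3
        have u4 := Real.log_le_log (Real.exp_pos _) u1
        have u5 := Real.log_le_log ((Real.exp_pos _).trans_le u3) u2
        rw [Real.log_exp] at u4 u5
        have u6 := (neg_abs_le t)
        rw [← hET] at ht
        have u7 : b * E * 1 ≤ b * E * (k₃ - KL) := mul_le_mul_of_nonneg_left (by linarith) (by positivity)
        linarith)
    (fun x hx' y hy' i hi => by
      rw [hGs]
      refine ⟨Set.mem_iUnion₂.2 ⟨i, Finset.mem_range.2 (by omega), hx x hx' y hy' i⟩, ?_, ?_⟩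
      · have h1 := hx'.1.2
        have h2 := hy'.1.2
        rw [hJ, jump_row20] at h1 h2 ⊢
        exact splice_row20 hm hN'1 (fun i => dep_JR20 _ _ _ _ i) h1 h2 i
      · have h1 := hx'.2
        have h2 := hy'.2
        rw [hWl, wall_row20] at h1 h2 ⊢
        exact splice_row20 hm hN'1 (fun i => dep_WL20 _ _ _ _ _ _ i) h1 h2 i)
    (fun x hx' y hy' i hi => by
      have g1 := hx x hx' y hy' (i + 1)
      have g2 := hx x hx' y hy' i
      have g3 : ∀ j, |Real.log (It20 μ s r m b (cp20 a e b j) (gl (Qs20 m b (i + 1)) x y)) -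
          Real.log (It20 μ s r m b (cp20 a e b j) (gl (Qs20 m b i) x y))| ≤ (4 * KU + 3 * c₄ + 4) * E := by
        intro j
        have h1 := swap26 hB (by linarith) hRA (by linarith) hk01 (by linarith) (by linarith) hKU hc4 (g1 j) (g2 j) hi
          (fun i' h1 h2 q hq => splice_eq20 (i := i) x y h1 h2 hq)
        rw [← hr, ← hE] at h1
        exact h1
      have h1 := g3 j₁
      have h0 := g3 j₀
      rw [hD]
      dsimp only
      rw [abs_le] at h1 h0 ⊢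
      constructor <;> linarith [h1.1, h1.2, h0.1, h0.2])
  -- the conclusion
  have hb1' : (0 : ℝ) < (b : ℝ) + 1 := by positivity
  rw [div_le_iff₀ hb1']
  refine hmain.trans ?_
  rw [mul_comm]
  refine mul_le_mul_of_nonneg_right (measureReal_mono (fun η hη => ?_) (measure_ne_top _ _)) hb1'.le
  obtain ⟨hηD, hηG, hηZ⟩ := hη
  rw [hGs] at hηG
  obtain ⟨hηA, hηJ, hηW⟩ := hηG
  obtain ⟨i, -, hηA⟩ := Set.mem_iUnion₂.1 hηA
  rw [hZt] at hηZ
  obtain ⟨hηu, hηv, hηz⟩ := hηZ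
  rw [hJ] at hηJ
  rw [hWl] at hηW
  rw [hBv] at hηv
  obtain ⟨er1, er2⟩ := er_num20 (U' := U') hET8 hbN hG
  rw [← hET, ← hY] at er1 er2
  have hdet := det20 hTN hB hBN (ω := K₃ * wT) (Y := Y * ET) (Y' := (G + 2) * ET) (U := U' * ET) (η := η)
    (by rw [hwT]; exact mul_le_mul_of_nonneg_right (by linarith) (by linarith)) hηv.1 (by rw [← hwT]; exact hηv.2) hηJ
    (by rw [← hw]; exact hηW) er2 hηA
  rw [← hr, ← hw, ← hE] at hdet
  obtain ⟨c1, c2, c3, c4⟩ := hdet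
  rw [← hwT, ← hET]
  have hW0 : ∀ j, 0 < W μ s η ((0 : ℤ), a j) T (e j - a j) := fun j => (Real.exp_pos _).trans_le (c1 j)
  refine ⟨⟨fun j => le_trans (Real.exp_le_exp.2 ?_) (c1 j), fun x y hx' hxy => (c2 x y (by rw [← hwT]; exact hx') hxy).trans er1,
    fun x hx' => ?_⟩, fun j x y hx' hy' => (c3 j x y hx' hy').trans ?_, ?_, hηz⟩
  · have h1 : L * ET ≤ |L| * ET := mul_le_mul_of_nonneg_right (le_abs_self L) hET0.le
    have h2 : (b : ℝ) * E * 1 ≤ b * E * k₁ := mul_le_mul_of_nonneg_left hk1 (by positivity)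
    linarith
  · rw [hBu] at hηu
    exact hηu 0 T x (by omega) (by
      simp only [Nat.cast_zero, mul_zero, sub_zero]
      exact hx'.trans (mul_le_mul_of_nonneg_right (by linarith) hwT0.le))
  · refine mul_le_mul_of_nonneg_right ?_ (hW0 j).le
    have h1 : 2 * Real.exp (KU * E) * Real.exp (c₄ * E) = 2 * Real.exp ((KU + c₄) * E) := by
      rw [add_mul, Real.exp_add]
      ring
    rw [h1]
    refine cell_num20 (by linarith) (by rw [hE]; exact hE1) ?_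
    have h2 : (3 + 2 * (KU + c₄)) * E ≤ X * E := mul_le_mul_of_nonneg_right (by rw [hX]; linarith) hE0.le
    linarith
  · -- the difference
    have h1 : ∀ j, 0 ≤ Real.log (W μ s η ((0 : ℤ), a j) T (e j - a j)) - Real.log (It20 μ s r m b (cp20 a e b j) η) ∧
        Real.log (W μ s η ((0 : ℤ), a j) T (e j - a j)) - Real.log (It20 μ s r m b (cp20 a e b j) η) ≤ 1 := by
      intro j
      have g1 := It20_low hB hBN (p := cp20 a e b j) (hηA j)
      rw [← hr] at g1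
      have g2 : 0 < It20 μ s r m b (cp20 a e b j) η := (Real.exp_pos _).trans_le g1
      have g3 := Real.log_le_log g2 (c4 j).1
      have g4 := Real.log_le_log (hW0 j) (c4 j).2
      rw [Real.log_mul (by norm_num) g2.ne'] at g4
      have g5 := Real.log_two_lt_d9
      constructor <;> linarith
    have k1 := h1 j₁
    have k0 := h1 j₀
    have hηD' : |D η - t| ≤ (4 * KU + 3 * c₄ + 4) * E := hηD
    rw [hD] at hηD'
    dsimp only at hηD'
    show |Real.log (W μ s η ((0 : ℤ), a j₁) T (e j₁ - a j₁)) - Real.log (W μ s η ((0 : ℤ), a j₀) T (e j₀ - a j₀)) - t| ≤ d * ET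
    have h2 : (4 * KU + 3 * c₄ + 4) * E + 1 ≤ X * E := by
      have h3 : X * E = (4 * KU + 3 * c₄ + 4) * E + 2 * E := by rw [hX]; ring
      have h4 : 1 ≤ E := by rw [hE]; exact hE1
      linarith
    rw [abs_le] at hηD' ⊢
    constructor <;> linarith [hηD'.1, hηD'.2, k1.1, k1.2, k0.1, k0.2]

end

end Pool.Agent.W_7d29a1_C1
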