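import Mathlib.MeasureTheory.Measure.Prod
import Mathlib.MeasureTheory.Measure.Real
import Mathlib.Dynamics.Ergodic.MeasurePreserving
import Mathlib.MeasureTheory.Constructions.BorelSpace.Real
import Mathlib.MeasureTheory.Constructions.BorelSpace.Order

/-!
# Hitting a small window by block swaps (intermediate values for product laws)

`D` is a real functional of an environment with law `P`; `sig j` (j = 0 .. b) are the splices of
two independent environments `z = (x, y)` (the blocks `< j` from `y`, the others from `x`), each of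
them measure preserving. If `D x` is above `t`, `D y` below `t` and the steps are at most `2 del`,
then one of the splices hits `[t - del, t + del]`. Hence a LOWER small ball bound at depth
`l` costs only `1 / (b + 1)`.
-/

namespace Pool.Agent.W_7d29a1_C1.H12

open MeasureTheory

/-- discrete intermediate values -/
lemma hit (b : ℕ) (d : ℕ → ℝ) (t δ : ℝ) (hδ : 0 ≤ δ) (h0 : t ≤ d 0) (hb : d b ≤ t)
    (hs : ∀ j < b, |d (j + 1) - d j| ≤ 2 * δ) : ∃ j, j ≤ b ∧ |d j - t| ≤ δ := by
  classical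
  by_cases h : ∃ j, j ≤ b ∧ |d j - t| ≤ δ
  · exact h
  push Not at h
  -- all the `d j` stay above `t + δ`
  have key : ∀ j, j ≤ b → t + δ < d j := by
    intro j
    induction j with
    | zero =>
      intro _
      have h1 := h 0 (Nat.zero_le b)
      rw [abs_of_nonneg (by linarith)] at h1
      linarith
    | succ j ih =>
      intro hj
      have h1 := ih (by omega)
      have h2 := hs j (by omega)
      have h3 := h (j + 1) hj
      rw [abs_le] at h2
      rcases le_or_gt 0 (d (j + 1) - t) with h4 | h4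
      · rw [abs_of_nonneg h4] at h3
        linarith
      · rw [abs_of_neg h4] at h3
        linarith
  have := key b le_rfl
  exfalso
  linarith

variable {Ω : Type*} [MeasurableSpace Ω]

/-- **block swaps hit the window**, with a side event `G` which the splices keep. -/
theorem ivt (P : Measure Ω) [IsProbabilityMeasure P] (b : ℕ) (σ : ℕ → Ω × Ω → Ω)
    (hσ : ∀ j ≤ b, MeasurePreserving (σ j) (P.prod P) P) (D : Ω → ℝ) (hD : Measurable D)
    (G : Set Ω) (hG : MeasurableSet G) (t δ : ℝ) (hδ : 0 ≤ δ) (E : Set (Ω × Ω))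
    (hE0 : ∀ z ∈ E, t ≤ D (σ 0 z)) (hEb : ∀ z ∈ E, D (σ b z) ≤ t)
    (hEG : ∀ z ∈ E, ∀ j ≤ b, σ j z ∈ G)
    (hEs : ∀ z ∈ E, ∀ j < b, |D (σ (j + 1) z) - D (σ j z)| ≤ 2 * δ) :
    (P.prod P).real E ≤ (b + 1) * P.real ({x | |D x - t| ≤ δ} ∩ G) := by
  have hm : MeasurableSet ({x | |D x - t| ≤ δ} ∩ G) := by
    have h1 : Measurable fun x => |D x - t| := (continuous_abs.measurable).comp (hD.sub_const t)
    exact (measurableSet_le h1 measurable_const).inter hG
  have hsub : E ⊆ ⋃ j ∈ Finset.range (b + 1), (σ j) ⁻¹' ({x | |D x - t| ≤ δ} ∩ G) := by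
    intro z hz
    obtain ⟨j, hj, hd⟩ := hit b (fun j => D (σ j z)) t δ hδ (hE0 z hz) (hEb z hz) (hEs z hz)
    simp only [Set.mem_iUnion]
    exact ⟨j, Finset.mem_range.2 (by omega), hd, hEG z hz j hj⟩
  calc (P.prod P).real E
      ≤ (P.prod P).real (⋃ j ∈ Finset.range (b + 1), (σ j) ⁻¹' ({x | |D x - t| ≤ δ} ∩ G)) :=
        measureReal_mono hsub (measure_ne_top _ _)
    _ ≤ ∑ j ∈ Finset.range (b + 1), (P.prod P).real ((σ j) ⁻¹' ({x | |D x - t| ≤ δ} ∩ G)) :=
        measureReal_biUnion_finset_le _ _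
    _ = ∑ j ∈ Finset.range (b + 1), P.real ({x | |D x - t| ≤ δ} ∩ G) := by
        refine Finset.sum_congr rfl fun j hj => ?_
        have hj' : j ≤ b := by have := Finset.mem_range.1 hj; omega
        unfold Measure.real
        rw [(hσ j hj').measure_preimage hm.nullMeasurableSet]
    _ = (b + 1) * P.real ({x | |D x - t| ≤ δ} ∩ G) := by
        rw [Finset.sum_const, Finset.card_range, nsmul_eq_mul]
        push_cast
        ring

/-- Two sided form: upper event `U` (where `t ≤ D`), lower event `L` (where `D ≤ t`), bad event `B`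
of the pair (a step `> 2 del`, or a splice which leaves `G`). -/
theorem ivt2 (P : Measure Ω) [IsProbabilityMeasure P] (b : ℕ) (σ : ℕ → Ω × Ω → Ω)
    (hσ : ∀ j ≤ b, MeasurePreserving (σ j) (P.prod P) P) (h0 : ∀ z, σ 0 z = z.1)
    (hb : ∀ z, σ b z = z.2) (D : Ω → ℝ) (hD : Measurable D)
    (G : Set Ω) (hG : MeasurableSet G) (t δ : ℝ) (hδ : 0 ≤ δ) (U L : Set Ω) (B : Set (Ω × Ω))
    (hU : ∀ x ∈ U, t ≤ D x) (hL : ∀ x ∈ L, D x ≤ t)
    (hBG : ∀ z, z.1 ∈ U → z.2 ∈ L → z ∉ B → ∀ j ≤ b, σ j z ∈ G)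
    (hBs : ∀ z, z.1 ∈ U → z.2 ∈ L → z ∉ B → ∀ j < b, |D (σ (j + 1) z) - D (σ j z)| ≤ 2 * δ) :
    P.real U * P.real L ≤ (b + 1) * P.real ({x | |D x - t| ≤ δ} ∩ G) + (P.prod P).real B := by
  have h1 := ivt P b σ hσ D hD G hG t δ hδ ((U ×ˢ L) \ B)
    (fun z hz => by rw [h0]; exact hU _ hz.1.1) (fun z hz => by rw [hb]; exact hL _ hz.1.2)
    (fun z hz => hBG z hz.1.1 hz.1.2 hz.2) (fun z hz => hBs z hz.1.1 hz.1.2 hz.2)
  have h2 : P.real U * P.real L = (P.prod P).real (U ×ˢ L) := by
    rw [measureReal_prod_prod]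
  rw [h2]
  have h3 : (P.prod P).real (U ×ˢ L) ≤ (P.prod P).real ((U ×ˢ L) \ B) + (P.prod P).real B := by
    refine le_trans (measureReal_mono (s₂ := ((U ×ˢ L) \ B) ∪ B) ?_ (measure_ne_top _ _))
      (measureReal_union_le _ _)
    intro z hz
    by_cases hzB : z ∈ B
    · exact Or.inr hzB
    · exact Or.inl ⟨hz, hzB⟩
  linarith

end Pool.Agent.W_7d29a1_C1.H12
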