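import Pool.Agent.W_7d29a1_C1.Fkg31B
import Pool.Agent.W_7d29a1_C1.Tune12
import Pool.Agent.W_7d29a1_C1.Seq71

/-!
MP_7d29a1_pr, [C1] TUNED SLAB LEMMA, abstract part: two copies, splices, walls. (helper20)

`tune20`: the functional `D` is `≥ t` on `AU`, `≤ t` on `AL`; `AU`, `AL` are decreasing off the protected sites `S`, the walls
`Wl` are a decreasing event of finitely many sites off `S`, `Z` is decreasing; splices of a point of `AU ∩ Wl` and a point
of `AL ∩ Wl` are in `G` and move `D` by at most `2 δ` at each step. Then `|D - t| ≤ δ` inside `G ∩ Z` has probability at least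
`p² q² / (2 (b + 1))`. The failure of `Z` along the splices is increasing in both copies: the walls do not make it more likely.
-/

set_option autoImplicit false

namespace Pool.Agent.W_7d29a1_C1

open MeasureTheory ProbabilityTheory Filter Topology
open Pool.Agent.W_7d29a1_F Pool.Agent.W_7d29a1_h4g Pool.Agent.W_7d29a1_H Pool.Agent.W_7d29a1_HS
open Pool.Agent.W_7d29a1_HR (Dec)
open Pool.Agent.W_7d29a1_C1.F31 (DecO FinO IncO)
open Pool.Agent.W_7d29a1_C1.S71 (Off gl)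

noncomputable section

variable {μ : Measure ℝ}

/-- The pairs with a splice out of `Z`. -/
def bad20 (b : ℕ) (Qs : ℕ → Set Pt) (Z : Set Env) : Set (Env × Env) := {z | ∃ i ≤ b, gl (Qs i) z.1 z.2 ∉ Z}

theorem bad20_eq (b : ℕ) (Qs : ℕ → Set Pt) (Z : Set Env) :
    bad20 b Qs Z = ⋃ i ∈ Finset.range (b + 1), (fun q : Env × Env => gl (Qs i) q.1 q.2) ⁻¹' Zᶜ := by
  ext z
  simp only [bad20, Set.mem_ofPred_eq, Set.mem_iUnion, Finset.mem_range, Set.mem_preimage, Set.mem_compl_iff]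
  constructor
  · rintro ⟨i, hi, h⟩
    exact ⟨i, by omega, h⟩
  · rintro ⟨i, hi, h⟩
    exact ⟨i, by omega, h⟩

theorem meas_bad20 (b : ℕ) (Qs : ℕ → Set Pt) {Z : Set Env} (mZ : MeasurableSet Z) : MeasurableSet (bad20 b Qs Z) := by
  rw [bad20_eq]
  exact Finset.measurableSet_biUnion _ fun i _ => S71.measurable_gl (Qs i) mZ.compl

theorem prob_bad20 [IsProbabilityMeasure μ] (b : ℕ) (Qs : ℕ → Set Pt) {Z : Set Env} (mZ : MeasurableSet Z) :
    ((law μ).prod (law μ)).real (bad20 b Qs Z) ≤ (b + 1) * (law μ).real Zᶜ := by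
  rw [bad20_eq]
  refine (measureReal_biUnion_finset_le _ _).trans (le_of_eq ?_)
  rw [Finset.sum_congr rfl fun i _ => ?_, Finset.sum_const, Finset.card_range, nsmul_eq_mul]
  · push_cast
    rfl
  · unfold Measure.real
    rw [(S71.mp_gl (Qs i)).measure_preimage mZ.compl.nullMeasurableSet]

theorem gl_mono_left20 (A : Set Pt) {η η' : Env} (ω : Env) (h : ∀ p, η p ≤ η' p) (p : Pt) : gl A η ω p ≤ gl A η' ω p := by
  by_cases hp : p ∈ A
  · rw [S71.gl_of_mem hp, S71.gl_of_mem hp]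
    exact h p
  · rw [S71.gl_of_not_mem hp, S71.gl_of_not_mem hp]

theorem gl_mono_right20 (A : Set Pt) {η η' : Env} (ω : Env) (h : ∀ p, η p ≤ η' p) (p : Pt) : gl A ω η p ≤ gl A ω η' p := by
  by_cases hp : p ∈ A
  · rw [S71.gl_of_mem hp, S71.gl_of_mem hp]
  · rw [S71.gl_of_not_mem hp, S71.gl_of_not_mem hp]
    exact h p

theorem inc_bad20 (b : ℕ) (Qs : ℕ → Set Pt) {Z : Set Env} (dZ : Dec Z) (S : Set Pt) (y : Env) :
    IncO S {x | (x, y) ∈ bad20 b Qs Z} := by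
  intro η η' h1 _ h3
  obtain ⟨i, hi, h⟩ := h3
  exact ⟨i, hi, fun h4 => h (dZ _ _ (gl_mono_left20 (Qs i) y h1) h4)⟩

theorem inc_bad20' (b : ℕ) (Qs : ℕ → Set Pt) {Z : Set Env} (dZ : Dec Z) (S : Set Pt) (x : Env) :
    IncO S {y | (x, y) ∈ bad20 b Qs Z} := by
  intro η η' h1 _ h3
  obtain ⟨i, hi, h⟩ := h3
  exact ⟨i, hi, fun h4 => h (dZ _ _ (gl_mono_right20 (Qs i) x h1) h4)⟩

/-- **TWO COPIES, WALLS, SPLICES.** -/
theorem tune20 [IsProbabilityMeasure μ] {S : Set Pt} (b : ℕ) (Qs : ℕ → Set Pt) (h0 : Qs 0 = Set.univ) (hb : Qs b = ∅)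
    {AU AL Wl Z G : Set Env} (mU : MeasurableSet AU) (mL : MeasurableSet AL) (mW : MeasurableSet Wl) (mZ : MeasurableSet Z)
    (mG : MeasurableSet G) (dU : DecO S AU) (dL : DecO S AL) (dW : DecO S Wl) (fW : FinO S Wl) (dZ : Dec Z) {p q : ℝ}
    (hp : 0 ≤ p) (hq : 0 ≤ q) (pU : p ≤ (law μ).real AU) (pL : p ≤ (law μ).real AL) (pW : q ≤ (law μ).real Wl)
    (pZ : (b + 1) * (law μ).real Zᶜ ≤ p ^ 2 / 2) (D : Env → ℝ) (mD : Measurable D) (t δ : ℝ) (hδ : 0 ≤ δ)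
    (hU : ∀ x ∈ AU, t ≤ D x) (hL : ∀ x ∈ AL, D x ≤ t)
    (hG : ∀ x ∈ AU ∩ Wl, ∀ y ∈ AL ∩ Wl, ∀ i ≤ b, gl (Qs i) x y ∈ G)
    (hs : ∀ x ∈ AU ∩ Wl, ∀ y ∈ AL ∩ Wl, ∀ i < b, |D (gl (Qs (i + 1)) x y) - D (gl (Qs i) x y)| ≤ 2 * δ) :
    p ^ 2 / 2 * q ^ 2 ≤ (b + 1) * (law μ).real ({x | |D x - t| ≤ δ} ∩ (G ∩ Z)) := by
  classical
  obtain ⟨B, hB⟩ : ∃ B : Set (Env × Env), B = bad20 b Qs Z := ⟨_, rfl⟩
  have mB : MeasurableSet B := by rw [hB]; exact meas_bad20 b Qs mZ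
  have pB : ((law μ).prod (law μ)).real B ≤ p ^ 2 / 2 := by
    rw [hB]
    exact (prob_bad20 b Qs mZ).trans pZ
  have h1 := H12.ivt (law μ) b (fun i z => gl (Qs i) z.1 z.2) (fun i _ => S71.mp_gl (Qs i)) D mD (G ∩ Z) (mG.inter mZ) t δ hδ
    (((AU ∩ Wl) ×ˢ (AL ∩ Wl)) \ B)
    (fun z hz => by
      have e : gl (Qs 0) z.1 z.2 = z.1 := by
        funext p
        rw [h0]
        exact S71.gl_of_mem (Set.mem_univ p) _ _
      rw [e]
      exact hU _ hz.1.1.1)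
    (fun z hz => by
      have e : gl (Qs b) z.1 z.2 = z.2 := by
        funext p
        rw [hb]
        exact S71.gl_of_not_mem (Set.notMem_empty p) _ _
      rw [e]
      exact hL _ hz.1.2.1)
    (fun z hz i hi => by
      refine ⟨hG _ hz.1.1 _ hz.1.2 i hi, ?_⟩
      by_contra hcon
      refine hz.2 ?_
      rw [hB]
      exact ⟨i, hi, hcon⟩)
    (fun z hz i hi => hs _ hz.1.1 _ hz.1.2 i hi)
  refine le_trans ?_ h1
  have c0 : 0 ≤ (law μ).real Wl := measureReal_nonneg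
  -- the product event
  have h2 : p ^ 2 * ((law μ).real Wl * (law μ).real Wl) ≤ ((law μ).prod (law μ)).real ((AU ∩ Wl) ×ˢ (AL ∩ Wl)) := by
    rw [measureReal_prod_prod]
    have k3 := F31.fkg (μ := μ) mU mW dU dW fW
    have k4 := F31.fkg (μ := μ) mL mW dL dW fW
    calc p ^ 2 * ((law μ).real Wl * (law μ).real Wl) = (p * (law μ).real Wl) * (p * (law μ).real Wl) := by ring
      _ ≤ ((law μ).real AU * (law μ).real Wl) * ((law μ).real AL * (law μ).real Wl) := by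
          refine mul_le_mul (mul_le_mul_of_nonneg_right pU c0) (mul_le_mul_of_nonneg_right pL c0) (by positivity)
            (mul_nonneg measureReal_nonneg c0)
      _ ≤ _ := mul_le_mul k3 k4 (mul_nonneg measureReal_nonneg c0) measureReal_nonneg
  -- the bad pairs
  have h3 : ((law μ).prod (law μ)).real (B ∩ (Wl ×ˢ Wl)) ≤ p ^ 2 / 2 * ((law μ).real Wl * (law μ).real Wl) := by
    have k1 := F31.two (μ := μ) (S := S) (B := B) mB mW mW (fun y => by rw [hB]; exact inc_bad20 b Qs dZ S y)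
      (fun x => by rw [hB]; exact inc_bad20' b Qs dZ S x) dW fW dW fW
    have k2 := ENNReal.toReal_mono (ENNReal.mul_ne_top (ENNReal.mul_ne_top (measure_ne_top _ _) (measure_ne_top _ _))
      (measure_ne_top _ _)) k1
    rw [ENNReal.toReal_mul, ENNReal.toReal_mul] at k2
    refine le_trans k2 ?_
    rw [mul_assoc]
    exact mul_le_mul_of_nonneg_right pB (mul_nonneg c0 c0)
  have h4 : ((law μ).prod (law μ)).real ((AU ∩ Wl) ×ˢ (AL ∩ Wl)) ≤
      ((law μ).prod (law μ)).real (B ∩ (Wl ×ˢ Wl)) +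
        ((law μ).prod (law μ)).real (((AU ∩ Wl) ×ˢ (AL ∩ Wl)) \ B) := by
    refine le_trans (measureReal_mono (s₂ := (B ∩ (Wl ×ˢ Wl)) ∪ (((AU ∩ Wl) ×ˢ (AL ∩ Wl)) \ B)) ?_ (measure_ne_top _ _))
      (measureReal_union_le _ _)
    intro z hz
    by_cases hzB : z ∈ B
    · exact Or.inl ⟨hzB, hz.1.2, hz.2.2⟩
    · exact Or.inr ⟨hz, hzB⟩
  have h5 : q ^ 2 ≤ (law μ).real Wl * (law μ).real Wl := by
    have := mul_le_mul pW pW hq c0
    linarith [this, (by ring : q ^ 2 = q * q)]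
  have h6 : p ^ 2 / 2 * q ^ 2 ≤ p ^ 2 / 2 * ((law μ).real Wl * (law μ).real Wl) :=
    mul_le_mul_of_nonneg_left h5 (by positivity)
  have h7 : p ^ 2 * ((law μ).real Wl * (law μ).real Wl) =
      p ^ 2 / 2 * ((law μ).real Wl * (law μ).real Wl) + p ^ 2 / 2 * ((law μ).real Wl * (law μ).real Wl) := by ring
  linarith

end

end Pool.Agent.W_7d29a1_C1
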