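import Pool.Agent.W_7d29a1_C1.TunG20

/-!
MP_7d29a1_pr, [C1] TUNED SLAB LEMMA: the deterministic conclusion in one environment (all the lanes). (helper20)
-/

set_option autoImplicit false

namespace Pool.Agent.W_7d29a1_C1

open MeasureTheory ProbabilityTheory Filter Topology
open Pool.Agent.W_7d29a1_F Pool.Agent.W_7d29a1_h4g Pool.Agent.W_7d29a1_H Pool.Agent.W_7d29a1_HS
open Pool.Agent.W_7d29a1_HR (Dec)
open Pool.Agent.W_7d29a1_C1.F31 (DecO FinO IncO)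
open Pool.Agent.W_7d29a1_C1.S71 (Off gl)
open Pool.Agent.W_7d29a1_C1.T26

noncomputable section

variable {μ : Measure ℝ} {s : ℝ} {ι : Type}

/-- The numbers of the slab: window `K`, separation `δ`, jumps `ε'`; `T = b m`, `m = N' n`. -/
structure TN20 (μ : Measure ℝ) (s : ℝ) (T m b n N' : ℕ) (A Rp K δ ε' : ℝ) (a e : ι → ℤ) : Prop where
  n1 : 1 ≤ n
  m1 : m = N' * n
  b1 : 1 ≤ b
  Nn : 1 ≤ N'
  T1 : T = b * m
  K0 : 0 ≤ K
  Rp0 : 0 ≤ Rp
  ha : ∀ j, |(a j : ℝ)| ≤ K * wd μ s T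
  he : ∀ j, |(e j : ℝ) - sl μ s * T| ≤ K * wd μ s T
  sep : ∀ j j', j ≠ j' → ((a j : ℝ) + δ * wd μ s T ≤ a j' ∧ (e j : ℝ) + δ * wd μ s T ≤ e j') ∨
    ((a j' : ℝ) + δ * wd μ s T ≤ a j ∧ (e j' : ℝ) + δ * wd μ s T ≤ e j)
  ε0 : 0 ≤ ε'
  ε1 : ε' ≤ wd μ s m
  w1 : 1 ≤ wd μ s m
  wT : (Rp + 7) * wd μ s m ≤ wd μ s T
  del : (2 * A + 2 * Rp + 20) * wd μ s m ≤ δ * wd μ s T
  dr : ∀ j, ∀ i < b * N', |la20 (sl20 a e T) n j (i + 1) - la20 (sl20 a e T) n j i - sl μ s * n| ≤ ε'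

theorem TN20.m0 {T m b n N' : ℕ} {A Rp K δ ε' : ℝ} {a e : ι → ℤ} (h : TN20 μ s T m b n N' A Rp K δ ε' a e) : 1 ≤ m := by
  rw [h.m1]
  exact Nat.mul_pos h.Nn h.n1

theorem TN20.T0 {T m b n N' : ℕ} {A Rp K δ ε' : ℝ} {a e : ι → ℤ} (h : TN20 μ s T m b n N' A Rp K δ ε' a e) : 1 ≤ T := by
  rw [h.T1]
  exact Nat.mul_pos h.b1 h.m0

theorem TN20.T2 {T m b n N' : ℕ} {A Rp K δ ε' : ℝ} {a e : ι → ℤ} (h : TN20 μ s T m b n N' A Rp K δ ε' a e) :
    b * N' * n = T := by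
  rw [h.T1, h.m1, Nat.mul_assoc]

variable {T m b n N' : ℕ} {A Rp K δ ε' : ℝ} {a e : ι → ℤ}

theorem TN20.ln (h : TN20 μ s T m b n N' A Rp K δ ε' a e) {j j' : ι} (hj : j ≠ j') {t : ℝ} (h0 : 0 ≤ t) (h1 : t ≤ T) :
    (2 * A + 2 * Rp + 20) * wd μ s m ≤ |sl20 a e T j t - sl20 a e T j' t| :=
  h.del.trans (sep_sl20 h.T0 h.sep hj h0 h1)

/-- The data of `TunD26` around one lane. -/
theorem TN20.sd (h : TN20 μ s T m b n N' A Rp K δ ε' a e) (hA : Rp + 8 ≤ A) {ω Y Y' U : ℝ} {η : Env}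
    (hω : (K + 1) * wd μ s T ≤ ω)
    (hU : UP20 μ s ω T U η) (hE : EXIT20 μ s ((K + 1) * wd μ s T) ω T Y' η)
    (hJ : JUMP20 μ s ω ε' n (b * N') Y η)
    (hW : WALL20 μ s ω ε' ((Rp + 2) * wd μ s m + 2 * ε') n (b * N') Y (la20 (sl20 a e T) n) η)
    (herr : b * er20 (b * N') U Y Y' ≤ 1) (j : ι) :
    SD26 μ s m b n N' ((K + 1) * wd μ s T) ω ε' ((Rp + 2) * wd μ s m + 2 * ε') ε' Y Y' U (A * wd μ s m)
      (la20 (sl20 a e T) n) j (cp20 a e b j) η := by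
  have hw := h.w1
  have hε0 := h.ε0
  have hε1 := h.ε1
  have hR := h.Rp0
  have hm0 := h.m0
  have hAw : Rp * wd μ s m ≤ A * wd μ s m := mul_le_mul_of_nonneg_right (by linarith) (by linarith)
  have hAw' : (Rp + 8) * wd μ s m ≤ A * wd μ s m := mul_le_mul_of_nonneg_right hA (by linarith)
  have hRw : 0 ≤ Rp * wd μ s m := mul_nonneg hR (by linarith)
  refine ⟨h.n1, h.m1, h.b1, hω, ?_, ?_, hJ, hW, h.dr, ?_, ?_, ?_, ?_, herr⟩
  · rw [h.T2]
    exact hU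
  · rw [h.T2]
    exact hE
  · intro j' j'' hj i hi
    have t1 : (((i * n : ℕ) : ℝ)) ≤ T := by
      rw [← h.T2]
      exact_mod_cast Nat.mul_le_mul_right n hi
    have h1 := h.ln hj (t := ((i * n : ℕ) : ℝ)) (Nat.cast_nonneg _) t1
    unfold la20
    refine lt_of_lt_of_le ?_ h1
    linarith
  · intro i hi
    have e1 : la20 (sl20 a e T) n j (i * N') = sl20 a e (b * m) j ((i * m : ℕ) : ℝ) := by
      unfold la20
      rw [h.T1, h.m1, Nat.mul_assoc]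
    rw [e1]
    exact cp20_abs a e hm0 j i
  · linarith
  · intro j' hj z hz
    have h1 := h.ln (j := j) (j' := j') (Ne.symm hj) (t := 0) le_rfl (Nat.cast_nonneg _)
    have e1 : ∀ j₁, sl20 a e T j₁ 0 = a j₁ := fun j₁ => by
      unfold sl20
      simp
    have e2 : la20 (sl20 a e T) n j' 0 = a j' := by
      unfold la20
      rw [zero_mul, Nat.cast_zero, e1]
    rw [e1, e1] at h1
    rw [cp20_zero] at hz
    rw [e2]
    have h2 : |(a j : ℝ) - a j'| ≤ |(z : ℝ) - a j| + |(z : ℝ) - a j'| := by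
      have := abs_sub_le (a j : ℝ) z (a j')
      rwa [abs_sub_comm (a j : ℝ) (z : ℝ)] at this
    linarith

/-- **THE DETERMINISTIC CONCLUSION.** -/
theorem det20 [IsProbabilityMeasure μ] (h : TN20 μ s T m b n N' A Rp K δ ε' a e) {k₀ k₁ k₃ KL KU c₄ S pp : ℝ} {ρ : ℤ}
    {Bk : Bool → ℤ → Set Env}
    (hB : B12.BlkD μ s m k₀ k₁ k₃ KL KU c₄ A Rp S pp ρ Bk) (hn : BN26 μ s m k₀ k₁ k₃ KL KU c₄ A Rp) {ω Y Y' U : ℝ} {η : Env}
    (hω : (K + 1) * wd μ s T ≤ ω)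
    (hU : UP20 μ s ω T U η) (hE : EXIT20 μ s ((K + 1) * wd μ s T) ω T Y' η)
    (hJ : JUMP20 μ s ω ε' n (b * N') Y η)
    (hW : WALL20 μ s ω ε' ((Rp + 2) * wd μ s m + 2 * ε') n (b * N') Y (la20 (sl20 a e T) n) η)
    (herr : b * er20 (b * N') U Y Y' ≤ 1) {τ : ι → ℕ → Bool} (hη : η ∈ AB20 Bk a e m b τ) :
    (∀ j, Real.exp (b * (k₁ * EE μ s m)) ≤ W μ s η ((0 : ℤ), a j) T (e j - a j)) ∧
    (∀ x y : ℤ, |(x : ℝ)| ≤ K * wd μ s T →
      (∀ j, ¬ (|(x : ℝ) - a j| ≤ (Rp + 7) * wd μ s m ∧ |(y : ℝ) - e j| ≤ (Rp + 7) * wd μ s m)) →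
      W μ s η ((0 : ℤ), x) T (y - x) ≤ er20 (b * N') U Y Y') ∧
    (∀ j, ∀ x y : ℤ, |(x : ℝ) - a j| ≤ (Rp + 7) * wd μ s m → |(y : ℝ) - e j| ≤ (Rp + 7) * wd μ s m →
      W μ s η ((0 : ℤ), x) T (y - x) ≤
        2 * (1 + 2 * Real.exp (KU * EE μ s m) * Real.exp (c₄ * EE μ s m)) ^ 2 * W μ s η ((0 : ℤ), a j) T (e j - a j)) ∧
    (∀ j, It20 μ s (A * wd μ s m) m b (cp20 a e b j) η ≤ W μ s η ((0 : ℤ), a j) T (e j - a j) ∧
      W μ s η ((0 : ℤ), a j) T (e j - a j) ≤ 2 * It20 μ s (A * wd μ s m) m b (cp20 a e b j) η) := by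
  have hw := h.w1
  have hε0 := h.ε0
  have hε1 := h.ε1
  have hR := h.Rp0
  have hm0 := h.m0
  have hA := hn.RA
  have hwT : wd μ s m ≤ wd μ s T := by
    have h1 := h.wT
    have h2 : 1 * wd μ s m ≤ (Rp + 7) * wd μ s m := mul_le_mul_of_nonneg_right (by linarith) (by linarith)
    linarith
  have hwT0 : 0 < wd μ s T := by linarith
  have hRw : 0 ≤ Rp * wd μ s m := mul_nonneg hR (by linarith)
  have hAw' : (Rp + 8) * wd μ s m ≤ A * wd μ s m := mul_le_mul_of_nonneg_right hA (by linarith)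
  have hA0 : 0 ≤ A * wd μ s m := by linarith
  have hsd := fun j => h.sd hA hω hU hE hJ hW herr j
  have hW4 : ∀ j, It20 μ s (A * wd μ s m) m b (cp20 a e b j) η ≤ W μ s η ((0 : ℤ), a j) T (e j - a j) ∧
      W μ s η ((0 : ℤ), a j) T (e j - a j) ≤ 2 * It20 μ s (A * wd μ s m) m b (cp20 a e b j) η := by
    intro j
    have h1 := It20_le_W (μ := μ) (s := s) (m := m) (A * wd μ s m) b (cp20 a e b j) η hA0 h.b1
    have h2 := two26 hB hn (hsd j) (hη j) (by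
      rw [cp20_zero]
      have h3 := h.ha j
      linarith)
    rw [cp20_zero, cp20_end a e h.b1, ← h.T1] at h1 h2
    exact ⟨h1, h2⟩
  refine ⟨fun j => (It20_low hB hn (hη j)).trans (hW4 j).1, ?_, ?_, hW4⟩
  · intro x y hx hxy
    have hs1 := kernel_small20 (μ := μ) (s := s) (ω₀ := (K + 1) * wd μ s T) (ω := ω) (ρ := ε')
      (α := (Rp + 2) * wd μ s m + 2 * ε') (τ := ε') (Y := Y) (Y' := Y') (U := U) (n := n) (N := b * N')
      (l := la20 (sl20 a e T) n) (η := η) h.n1 (Nat.mul_pos h.b1 h.Nn) hω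
      (by rw [h.T2]; exact hU) (by rw [h.T2]; exact hE) hJ hW h.dr (fun j j' hj i hi => ?_) (x := x) (by linarith) y
      (fun j => ?_)
    · rw [h.T2] at hs1
      exact hs1
    · have t1 : (((i * n : ℕ) : ℝ)) ≤ T := by
        rw [← h.T2]
        exact_mod_cast Nat.mul_le_mul_right n hi
      have h1 := h.ln hj (t := ((i * n : ℕ) : ℝ)) (Nat.cast_nonneg _) t1
      unfold la20
      refine lt_of_lt_of_le ?_ h1
      linarith
    · rintro ⟨h3, h4⟩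
      refine hxy j ⟨?_, ?_⟩
      · have e1 : la20 (sl20 a e T) n j 0 = a j := by
          unfold la20 sl20
          simp
        rw [e1] at h3
        linarith
      · have e1 : la20 (sl20 a e T) n j (b * N') = e j := by
          unfold la20 sl20
          have hT0 : (T : ℝ) ≠ 0 := by
            have : (0 : ℝ) < T := by exact_mod_cast h.T0
            exact this.ne'
          rw [h.T2, div_self hT0]
          ring
        rw [e1] at h4
        linarith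
  · intro j x y hx hy
    have hx0 : |(x : ℝ)| ≤ (K + 1) * wd μ s T := by
      have h1 := h.ha j
      have h2 := h.wT
      have h3 : |(x : ℝ)| ≤ |(x : ℝ) - a j| + |(a j : ℝ)| := by
        have := abs_add_le ((x : ℝ) - a j) (a j)
        rwa [sub_add_cancel] at this
      linarith
    have h1 := cell26 hB hn (hsd j) (hη j) (x := x) (y := y) hx0 (by rw [cp20_zero]; linarith)
      (by rw [cp20_end a e h.b1]; linarith)
    rw [← h.T1] at h1
    refine h1.trans (mul_le_mul_of_nonneg_left (hW4 j).1 (by positivity))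

end

end Pool.Agent.W_7d29a1_C1
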