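import Pool.Agent.W_7d29a1_C1.Fun20
import Pool.Agent.W_7d29a1_C1.BlkI12
import Pool.Agent.W_7d29a1_C1.Pin71
import Pool.Agent.W_7d29a1_C1.Basin76

/-!
MP_7d29a1_pr, [C1] slab lemma, tuned form (F5): THE DETERMINISTIC HALF. (helper26)

One lane of `b` good blocks of `m = b' n` rows (`BlkD` of helper12) inside the slab of `N = b b'` sub blocks of `n` rows with `UP20`,
`EXIT20`, `JUMP20`, `WALL20` of helper20. `ln26` : the hypotheses of the pinching (`Pin12`, `Pin71`) for the full kernels of the blocks on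
the collars; `It_le_kW`, `kW_le_It26` : kernel of the slab = collar sum up to `b er20`; `cell26` : cell level; `up26`, `low26` : the
levels of the two types; `swap26` : influence of one block.
-/

set_option autoImplicit false
set_option linter.unusedSectionVars false

namespace Pool.Agent.W_7d29a1_C1.T26

open Finset MeasureTheory ProbabilityTheory Filter Topology
open Pool.Agent.W_7d29a1_F Pool.Agent.W_7d29a1_h4g Pool.Agent.W_7d29a1_H Pool.Agent.W_7d29a1_HS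
open Pool.Agent.W_7d29a1_C1.P12 Pool.Agent.W_7d29a1_C1.B12 Pool.Agent.W_7d29a1_C1.Basin76
open Pool.Agent.W_7d29a1_C1.CR76 (comp)

noncomputable section

/-! ### Iterated kernels -/

section gen

variable {α : Type*} {X : ℕ → Finset α} {B B' : ℕ → α → α → ℝ}

/-- Splitting at the row `j + n`. -/
theorem It_add : ∀ (n k j : ℕ) {x : α}, x ∈ X j → ∀ y : α,
    It X B (n + k) j x y = ∑ z ∈ X (j + n), It X B n j x z * It X B k (j + n) z y
  | 0, k, j, x, hx, y => by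
    rw [zero_add, add_zero, sum_eq_single x]
    · rw [It_zero_self, one_mul]
    · intro u _ hu
      rw [It_zero_ne _ (Ne.symm hu), zero_mul]
    · intro h
      exact absurd hx h
  | n + 1, k, j, x, _, y => by
    have e : j + 1 + n = j + (n + 1) := by omega
    have e2 : n + 1 + k = n + k + 1 := by omega
    rw [e2, It_succ]
    have h1 : ∀ z' ∈ X (j + 1), B j x z' * It X B (n + k) (j + 1) z' y =
        ∑ z ∈ X (j + (n + 1)), B j x z' * (It X B n (j + 1) z' z * It X B k (j + (n + 1)) z y) := by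
      intro z' hz'
      rw [It_add n k (j + 1) hz' y, mul_sum, e]
    rw [sum_congr rfl h1, sum_comm]
    refine sum_congr rfl fun z _ => ?_
    rw [It_succ, sum_mul]
    exact sum_congr rfl fun z' _ => by ring

theorem It_congr : ∀ (n j : ℕ), (∀ l, j ≤ l → l < j + n → B l = B' l) → It X B n j = It X B' n j
  | 0, _, _ => rfl
  | n + 1, j, h => by
    funext x y
    rw [It_succ, It_succ, h j le_rfl (by omega), It_congr n (j + 1) fun l h1 h2 => h l (by omega) (by omega)]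

/-- Upper bound of the iterated kernels. -/
theorem It_le_pow (hB : ∀ j z z', 0 ≤ B j z z') {k : ℝ} (hk : 0 ≤ k) (b : ℕ) (hs : ∀ j < b, ∀ z ∈ X j, ∑ z' ∈ X (j + 1), B j z z' ≤ k) :
    ∀ (n j : ℕ), j + n ≤ b → ∀ x ∈ X j, ∀ y, It X B n j x y ≤ k ^ n
  | 0, j, _, x, _, y => by
    rw [pow_zero]
    exact It_zero_le j x y
  | n + 1, j, hj, x, hx, y => by
    rw [It_succ]
    calc ∑ z' ∈ X (j + 1), B j x z' * It X B n (j + 1) z' y
        ≤ ∑ z' ∈ X (j + 1), B j x z' * k ^ n := sum_le_sum fun z' hz' =>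
          mul_le_mul_of_nonneg_left (It_le_pow hB hk b hs n (j + 1) (by omega) z' hz' y) (hB _ _ _)
      _ = (∑ z' ∈ X (j + 1), B j x z') * k ^ n := by rw [sum_mul]
      _ ≤ k * k ^ n := mul_le_mul_of_nonneg_right (hs j (by omega) x hx) (pow_nonneg hk n)
      _ = k ^ (n + 1) := by ring

/-- Lower bound of the iterated kernels. -/
theorem pow_le_It (hB : ∀ j z z', 0 ≤ B j z z') {a : ℝ} (ha : 0 ≤ a) (b : ℕ) (p : ℕ → α) (hp : ∀ j ≤ b, p j ∈ X j)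
    (hl : ∀ j < b, a ≤ B j (p j) (p (j + 1))) : ∀ (n j : ℕ), j + n ≤ b → a ^ n ≤ It X B n j (p j) (p (j + n))
  | 0, j, _ => by
    rw [pow_zero, add_zero, It_zero_self]
  | n + 1, j, hj => by
    have h1 := pow_le_It hB ha b p hp hl n (j + 1) (by omega)
    have e : j + 1 + n = j + (n + 1) := by omega
    rw [e] at h1
    rw [It_succ]
    have h2 := single_le_sum (f := fun z' => B j (p j) z' * It X B n (j + 1) z' (p (j + (n + 1))))
      (fun z' _ => mul_nonneg (hB j _ _) (It_nn hB _ _ _ _)) (hp (j + 1) (by omega))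
    refine le_trans ?_ h2
    rw [pow_succ, mul_comm]
    exact mul_le_mul (hl j (by omega)) h1 (pow_nonneg ha n) (hB _ _ _)

end gen

/-! ### The kernels of the blocks -/

variable {μ : Measure ℝ} {s : ℝ}

/-- The kernel of the block `i` : the rows `(i m, (i + 1) m]`. -/
def Kn20 (μ : Measure ℝ) (s : ℝ) (η : Env) (m : ℕ) : ℕ → ℤ → ℤ → ℝ := fun i z z' => W μ s η (((i * m : ℕ) : ℤ), z) m (z' - z)

/-- The collars of half width `r` of the standard points `p i`. -/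
def Xc20 (r : ℝ) (p : ℕ → ℤ) (i : ℕ) : Finset ℤ := Finset.Icc ⌈(p i : ℝ) - r⌉ ⌊(p i : ℝ) + r⌋

/-- The collar sum of the lane. -/
def It20 (μ : Measure ℝ) (s : ℝ) (r : ℝ) (m b : ℕ) (p : ℕ → ℤ) (η : Env) : ℝ :=
  P12.It (Xc20 r p) (Kn20 μ s η m) b 0 (p 0) (p b)

theorem mem_Xc20 {r : ℝ} {p : ℕ → ℤ} {i : ℕ} {z : ℤ} : z ∈ Xc20 r p i ↔ |(z : ℝ) - p i| ≤ r := by
  unfold Xc20
  rw [mem_Icc, Int.ceil_le, Int.le_floor, abs_le]
  constructor
  · rintro ⟨h1, h2⟩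
    constructor <;> linarith
  · rintro ⟨h1, h2⟩
    constructor <;> linarith

theorem Kn20_nonneg (η : Env) (m j : ℕ) (z z' : ℤ) : 0 ≤ Kn20 μ s η m j z z' := W_nonneg η _ m _

theorem mass_le (η : Env) (t z : ℤ) (m : ℕ) (S : Finset ℤ) : ∑ z' ∈ S, kW μ s η t m z z' ≤ Real.exp (V μ s η (t, z) m) := by
  classical
  have h1 := WS_le_exp_V (μ := μ) (s := s) η (t, z) m (S.image fun z' => z' - z)
  refine le_trans (le_of_eq ?_) h1
  unfold WS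
  rw [sum_image (fun a _ b _ h => by simpa using h)]
  rfl

theorem kW_row_zero (η : Env) (t x : ℤ) : kW μ s η t 0 x x = 1 := by
  unfold kW W WR
  simp [Zr]

/-- **The collar sum is a part of the kernel.** -/
theorem It_le_kW (η : Env) (m : ℕ) (X : ℕ → Finset ℤ) : ∀ (n j : ℕ) (x y : ℤ),
    It X (Kn20 μ s η m) n j x y ≤ kW μ s η ((j * m : ℕ) : ℤ) (n * m) x y
  | 0, j, x, y => by
    rw [zero_mul]
    by_cases h : x = y
    · rw [h, It_zero_self, kW_row_zero]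
    · rw [It_zero_ne j h]
      exact kW_nonneg _ _ _ _ _
  | n + 1, j, x, y => by
    classical
    have e1 : (n + 1) * m = m + n * m := by ring
    have e2 : (((j + 1) * m : ℕ) : ℤ) = ((j * m : ℕ) : ℤ) + m := by push_cast; ring
    rw [e1, kW_comp' (μ := μ) (s := s) η ((j * m : ℕ) : ℤ) m (n * m) x y (X (j + 1) ∪ Icc x (x + m)) subset_union_right, It_succ]
    unfold comp
    refine le_trans ?_ (sum_le_sum_of_subset_of_nonneg subset_union_left fun z _ _ =>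
      mul_nonneg (kW_nonneg _ _ _ _ _) (kW_nonneg _ _ _ _ _))
    refine sum_le_sum fun z _ => ?_
    have h1 := It_le_kW η m X n (j + 1) z y
    rw [e2] at h1
    exact mul_le_mul_of_nonneg_left h1 (kW_nonneg η ((j * m : ℕ) : ℤ) m x z)

/-- The kernel of a block reads its rows only. -/
theorem Kn20_congr [IsProbabilityMeasure μ] {η η' : Env} {m j : ℕ}
    (h : ∀ p : Pt, ((j * m : ℕ) : ℤ) < p.1 → p.1 ≤ ((j * m : ℕ) : ℤ) + m → η p = η' p) : Kn20 μ s η m j = Kn20 μ s η' m j := by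
  funext z z'
  refine W_dep (μ := μ) (s := s) (((j * m : ℕ) : ℤ), z) m (z' - z) fun p hp => ?_
  obtain ⟨h1, h2, -⟩ := hp
  exact h p h1 h2

/-! ### The good blocks of a lane -/

/-- All blocks of the lane `p` are good, with the types `t`. -/
def LB20 (Bk : Bool → ℤ → Set Env) (m b : ℕ) (p : ℕ → ℤ) (t : ℕ → Bool) : Set Env :=
  {η | ∀ i < b, sh (((i * m : ℕ) : ℤ), p i) η ∈ Bk (t i) (p (i + 1) - p i)}

variable {m : ℕ} {k₀ k₁ k₃ KL KU c₄ A Rp S pp r : ℝ} {ρ : ℤ} {Bk : Bool → ℤ → Set Env} {b : ℕ} {p : ℕ → ℤ} {t : ℕ → Bool}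
  {η : Env}

theorem pt_add (t z x : ℤ) : (((0 : ℤ), z) : Pt) + (t, x) = (t, x + z) := by
  refine Prod.ext ?_ ?_
  · show (0 : ℤ) + t = t
    ring
  · show z + x = x + z
    ring

theorem low_kb (hB : BlkD μ s m k₀ k₁ k₃ KL KU c₄ A Rp S pp ρ Bk) (hg : η ∈ LB20 Bk m b p t) {j : ℕ} (hj : j < b) :
    Real.exp (lv (t j) k₁ k₃ * EE μ s m) ≤ Kn20 μ s η m j (p j) (p (j + 1)) := by
  have h1 := hB.low _ _ _ (hg j hj)
  rw [W_sh, zero_add] at h1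
  exact h1

theorem sup_kb (hB : BlkD μ s m k₀ k₁ k₃ KL KU c₄ A Rp S pp ρ Bk) (hg : η ∈ LB20 Bk m b p t) (hr : r ≤ A * wd μ s m)
    {j : ℕ} (hj : j < b) {z : ℤ} (hz : z ∈ Xc20 r p j) (J : Finset ℤ) :
    ∑ z' ∈ J, Kn20 μ s η m j z z' ≤ Real.exp (lv (t j) KL KU * EE μ s m) := by
  rw [mem_Xc20, ← Int.cast_sub] at hz
  have h1 := hB.sup _ _ _ (hg j hj) (z - p j) (hz.trans hr)
  rw [V_sh, pt_add, show p j + (z - p j) = z by ring] at h1
  exact (mass_le _ _ _ _ _).trans (Real.exp_le_exp.2 h1)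

theorem off_kb (hB : BlkD μ s m k₀ k₁ k₃ KL KU c₄ A Rp S pp ρ Bk) (hg : η ∈ LB20 Bk m b p t) (hr : r ≤ A * wd μ s m)
    {j : ℕ} (hj : j < b) {z : ℤ} (hz : z ∈ Xc20 r p j) (hf : p j + ρ ≤ z ∨ z ≤ p j - ρ) (J : Finset ℤ) :
    ∑ z' ∈ J, Kn20 μ s η m j z z' ≤ Real.exp (k₀ * EE μ s m) := by
  rw [mem_Xc20, ← Int.cast_sub] at hz
  have h0 : (ρ : ℝ) ≤ |((z - p j : ℤ) : ℝ)| := by
    rw [le_abs]
    rcases hf with h | h
    · left
      exact_mod_cast (by omega : ρ ≤ z - p j)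
    · right
      rw [← Int.cast_neg]
      exact_mod_cast (by omega : ρ ≤ -(z - p j))
  have h1 := hB.off _ _ _ (hg j hj) (z - p j) h0 (hz.trans hr)
  rw [V_sh, pt_add, show p j + (z - p j) = z by ring] at h1
  exact (mass_le _ _ _ _ _).trans (Real.exp_le_exp.2 h1)

theorem qp_kb (hB : BlkD μ s m k₀ k₁ k₃ KL KU c₄ A Rp S pp ρ Bk) (hg : η ∈ LB20 Bk m b p t) {j : ℕ} (hj : j < b) {g : ℤ}
    (hgr : g = ρ ∨ g = -ρ) : 1 ≤ Real.exp (c₄ * EE μ s m) * Kn20 μ s η m j (p j + g) (p (j + 1)) := by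
  have h1 := hB.qp _ _ _ (hg j hj) g hgr
  rw [W_sh, pt_add, show p (j + 1) - p j - g = p (j + 1) - (p j + g) by ring] at h1
  have h2 := mul_le_mul_of_nonneg_left h1 (Real.exp_pos (c₄ * EE μ s m)).le
  rw [← Real.exp_add, add_neg_cancel, Real.exp_zero] at h2
  exact h2

theorem pq_kb (hB : BlkD μ s m k₀ k₁ k₃ KL KU c₄ A Rp S pp ρ Bk) (hg : η ∈ LB20 Bk m b p t) {j : ℕ} (hj : j < b) {g : ℤ}
    (hgr : g = ρ ∨ g = -ρ) : 1 ≤ Real.exp (c₄ * EE μ s m) * Kn20 μ s η m j (p j) (p (j + 1) + g) := by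
  have h1 := hB.pq _ _ _ (hg j hj) g hgr
  rw [W_sh, zero_add, show p (j + 1) - p j + g = p (j + 1) + g - p j by ring] at h1
  have h2 := mul_le_mul_of_nonneg_left h1 (Real.exp_pos (c₄ * EE μ s m)).le
  rw [← Real.exp_add, add_neg_cancel, Real.exp_zero] at h2
  exact h2

variable [IsProbabilityMeasure μ]

/-- **(D1) THE HYPOTHESES OF THE PINCHING**, any collars `ρ ≤ r ≤ A wd m`, `K` = any upper bound of the levels of the types. -/
theorem ln26 (hB : BlkD μ s m k₀ k₁ k₃ KL KU c₄ A Rp S pp ρ Bk) (hg : η ∈ LB20 Bk m b p t) (hρr : (ρ : ℝ) ≤ r) (hr : r ≤ A * wd μ s m)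
    (hk01 : k₀ + 1 ≤ k₁) (hk13 : k₁ ≤ k₃) {K : ℝ} (hK : ∀ j < b, lv (t j) KL KU ≤ K) :
    P12.Ln (Xc20 r p) (Kn20 μ s η m) b p (fun i => p i + ρ) (fun i => p i - ρ) (Real.exp (k₁ * EE μ s m)) (Real.exp (k₀ * EE μ s m))
      (Real.exp (K * EE μ s m)) (Real.exp (c₄ * EE μ s m)) := by
  have hE1 : 1 ≤ EE μ s m := one_le_EE m
  have hE0 : 0 ≤ EE μ s m := by linarith
  have hρ := hB.rho.1
  have hρ' : (1 : ℝ) ≤ ρ := by exact_mod_cast hρ
  have hda : 2 * Real.exp (k₀ * EE μ s m) ≤ Real.exp (k₁ * EE μ s m) := by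
    have h1 : Real.exp (k₀ * EE μ s m) * Real.exp 1 ≤ Real.exp (k₁ * EE μ s m) := by
      rw [← Real.exp_add]
      refine Real.exp_le_exp.2 ?_
      nlinarith
    have h2 : (2 : ℝ) ≤ Real.exp 1 := by
      have := Real.add_one_le_exp (1 : ℝ)
      linarith
    have h3 := mul_le_mul_of_nonneg_left h2 (Real.exp_pos (k₀ * EE μ s m)).le
    linarith
  have hlow : ∀ j < b, Real.exp (k₁ * EE μ s m) ≤ Kn20 μ s η m j (p j) (p (j + 1)) := fun j hj => by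
    refine le_trans (Real.exp_le_exp.2 ?_) (low_kb hB hg hj)
    refine mul_le_mul_of_nonneg_right ?_ hE0
    unfold lv
    split_ifs
    · exact hk13
    · exact le_rfl
  have hsup : ∀ j < b, ∀ z ∈ Xc20 r p j, ∑ z' ∈ Xc20 r p (j + 1), Kn20 μ s η m j z z' ≤ Real.exp (K * EE μ s m) := fun j hj z hz =>
    (sup_kb hB hg hr hj hz _).trans (Real.exp_le_exp.2 (mul_le_mul_of_nonneg_right (hK j hj) hE0))
  have htp : ∀ j, ∀ z y w x : ℤ, z ≤ w → x ≤ y →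
      Kn20 μ s η m j z y * Kn20 μ s η m j w x ≤ Kn20 μ s η m j z x * Kn20 μ s η m j w y := fun j z y w x h1 h2 =>
    W_tp2 (μ := μ) (s := s) η ((j * m : ℕ) : ℤ) z w m x y h1 h2
  have hp : ∀ j, p j ∈ Xc20 r p j := fun j => mem_Xc20.2 (by rw [sub_self, abs_zero]; linarith)
  have hq : ∀ j, p j + ρ ∈ Xc20 r p j := fun j => mem_Xc20.2 (by
    push_cast
    rw [add_sub_cancel_left, abs_of_nonneg (by linarith)]
    exact hρr)
  have hq' : ∀ j, p j - ρ ∈ Xc20 r p j := fun j => mem_Xc20.2 (by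
    push_cast
    rw [show (p j : ℝ) - ρ - p j = -ρ by ring, abs_neg, abs_of_nonneg (by linarith)]
    exact hρr)
  constructor
  · refine ⟨fun j z z' => Kn20_nonneg _ _ _ _ _, fun j _ => htp j, fun j _ => hp j, fun j _ => hq j, fun j _ => by
        show p j < p j + ρ
        omega, Real.exp_pos _, (Real.exp_pos _).le, (Real.exp_pos _).le, (Real.exp_pos _).le, hda, hlow, hsup, ?_, ?_, ?_⟩
    · intro j hj z hz h1
      exact off_kb hB hg hr hj hz (Or.inl h1) _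
    · intro j hj
      exact qp_kb hB hg hj (Or.inl rfl)
    · intro j hj
      exact pq_kb hB hg hj (Or.inl rfl)
  · refine Rt.mk (α := ℤᵒᵈ) (fun j z z' => Kn20_nonneg _ _ _ _ _) (fun j _ z y w x h1 h2 => ?_) (fun j _ => hp j)
      (fun j _ => hq' j) (fun j _ => by
        show p j - ρ < p j
        omega) (Real.exp_pos _) (Real.exp_pos _).le (Real.exp_pos _).le (Real.exp_pos _).le hda hlow hsup ?_ ?_ ?_
    · have h3 := htp j w x z y h1 h2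
      rw [mul_comm, mul_comm (Kn20 μ s η m j z x)]
      exact h3
    · intro j hj z hz h1
      exact off_kb hB hg hr hj hz (Or.inr h1) _
    · intro j hj
      exact qp_kb hB hg hj (g := -ρ) (Or.inr rfl)
    · intro j hj
      exact pq_kb hB hg hj (g := -ρ) (Or.inr rfl)

/-- The constants of `B12.Blk` on one lane. -/
theorem K_le (hK : KL ≤ KU) (j : ℕ) : lv (t j) KL KU ≤ KU := by
  unfold lv
  split_ifs
  · exact le_rfl
  · exact hK

theorem rho_le (hB : BlkD μ s m k₀ k₁ k₃ KL KU c₄ A Rp S pp ρ Bk) (hw : 0 ≤ wd μ s m) (hA : Rp + 8 ≤ A) :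
    (ρ : ℝ) ≤ A * wd μ s m :=
  hB.rho.2.trans (mul_le_mul_of_nonneg_right (by linarith) hw)

/-- **(D1), collars `A wd m`.** -/
theorem ln20 (hB : BlkD μ s m k₀ k₁ k₃ KL KU c₄ A Rp S pp ρ Bk) (hw : 0 ≤ wd μ s m) (hA : Rp + 8 ≤ A) (hk01 : k₀ + 1 ≤ k₁)
    (hk13 : k₁ ≤ k₃) (hK : KL ≤ KU) (h : η ∈ LB20 Bk m b p t) :
    P12.Ln (Xc20 (A * wd μ s m) p) (Kn20 μ s η m) b p (fun i => p i + ρ) (fun i => p i - ρ) (Real.exp (k₁ * EE μ s m))
      (Real.exp (k₀ * EE μ s m)) (Real.exp (KU * EE μ s m)) (Real.exp (c₄ * EE μ s m)) :=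
  ln26 hB h (rho_le hB hw hA) le_rfl hk01 hk13 fun j _ => K_le hK j

/-- Far starts. -/
theorem hf20 (hB : BlkD μ s m k₀ k₁ k₃ KL KU c₄ A Rp S pp ρ Bk) (h : η ∈ LB20 Bk m b p t) :
    ∀ j < b, ∀ z ∈ Xc20 (A * wd μ s m) p j, (p j + ρ ≤ z ∨ z ≤ p j - ρ) →
      ∑ z' ∈ Xc20 (A * wd μ s m) p (j + 1), Kn20 μ s η m j z z' ≤ Real.exp (k₀ * EE μ s m) :=
  fun _ hj _ hz hh => off_kb hB h le_rfl hj hz hh _

/-! ### (D2) The kernel of the slab and the collar sum -/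

theorem It20_le (η : Env) (r : ℝ) (m b : ℕ) (p : ℕ → ℤ) :
    It20 μ s r m b p η ≤ W μ s η ((0 : ℤ), p 0) (b * m) (p b - p 0) := by
  have h1 := It_le_kW (μ := μ) (s := s) η m (Xc20 r p) b 0 (p 0) (p b)
  unfold kW at h1
  rw [zero_mul, Nat.cast_zero] at h1
  exact h1

/-- The rest of the collars at one row. -/
theorem rest26 {ι : Type*} {ω₀ ω ρ' α τ' Y Y' U : ℝ} {n N N' : ℕ} {l : ι → ℕ → ℝ} (hn : 1 ≤ n) (hN' : 1 ≤ N') (hN : N = b * N')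
    (hm : m = N' * n) (hω : ω₀ ≤ ω) (hU : UP20 μ s ω (N * n) U η) (hE : EXIT20 μ s ω₀ ω (N * n) Y' η) (hJ : JUMP20 μ s ω ρ' n N Y η)
    (hW : WALL20 μ s ω ρ' α n N Y l η) (hs : ∀ j, ∀ i < N, |l j (i + 1) - l j i - sl μ s * n| ≤ τ')
    (hsep : ∀ j j', j ≠ j' → ∀ i ≤ N, 2 * α + ρ' + τ' < |l j i - l j' i|) (j : ι) (hp : ∀ i ≤ b, |l j (i * N') - p i| ≤ 1)
    (hr : α + ρ' + τ' + 1 ≤ r) {x y : ℤ} (hx0 : |(x : ℝ)| ≤ ω₀) (hxo : ∀ j', j' ≠ j → α < |(x : ℝ) - l j' 0|) {i : ℕ} (hi : i < b)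
    (S : Finset ℤ) (hS : S = Icc x (x + (N * n : ℕ))) :
    ∑ z ∈ S.filter (fun z => z ∉ Xc20 r p (i + 1)), kW μ s η 0 ((i + 1) * m) x z *
      kW μ s η (((i + 1) * m : ℕ) : ℤ) ((b - (i + 1)) * m) z y ≤ er20 N U Y Y' := by
  classical
  have hib : (i + 1) * N' ≤ N := by
    rw [hN]
    exact Nat.mul_le_mul_right N' (by omega)
  have hi1 : 1 ≤ (i + 1) * N' := Nat.mul_pos (Nat.succ_pos i) hN'
  have e1 : (i + 1) * N' * n = (i + 1) * m := by rw [hm]; ring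
  have e2 : (N - (i + 1) * N') * n = (b - (i + 1)) * m := by
    rw [hN, ← Nat.sub_mul, hm]
    ring
  have k1 := kernel_near20 hn hω hU hE hJ hW hs hsep hx0 y (i := (i + 1) * N') hi1 hib
  rw [e1, e2] at k1
  have e3 : N * n = (i + 1) * m + (b - (i + 1)) * m := by
    rw [← Nat.add_mul, hN, hm]
    have : i + 1 + (b - (i + 1)) = b := by omega
    rw [this]
    ring
  have hle : (i + 1) * m ≤ N * n := by omega
  have hSsub : Icc x (x + ((i + 1) * m : ℕ)) ⊆ S := by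
    rw [hS]
    refine Icc_subset_Icc le_rfl ?_
    have : (((i + 1) * m : ℕ) : ℤ) ≤ ((N * n : ℕ) : ℤ) := by exact_mod_cast hle
    omega
  have k2 : W μ s η ((0 : ℤ), x) (N * n) (y - x) = ∑ z ∈ S, kW μ s η 0 ((i + 1) * m) x z *
      kW μ s η (((i + 1) * m : ℕ) : ℤ) ((b - (i + 1)) * m) z y := by
    have h1 := kW_comp' (μ := μ) (s := s) η 0 ((i + 1) * m) ((b - (i + 1)) * m) x y S hSsub
    rw [← e3, zero_add] at h1
    exact h1
  rw [← sum_filter_add_sum_filter_not S (fun z => z ∈ Xc20 r p (i + 1))] at k2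
  have k3 : ∑ z ∈ (Finset.Icc x (x + (N * n : ℕ))).filter (fun z =>
        ∃ j, |(x : ℝ) - l j 0| ≤ α ∧ nr20 (l j) (α + ρ' + τ') ((i + 1) * N') z),
        W μ s η ((0 : ℤ), x) ((i + 1) * m) (z - x) * W μ s η ((((i + 1) * m : ℕ) : ℤ), z) ((b - (i + 1)) * m) (y - z) ≤
      ∑ z ∈ S.filter (fun z => z ∈ Xc20 r p (i + 1)), kW μ s η 0 ((i + 1) * m) x z *
        kW μ s η (((i + 1) * m : ℕ) : ℤ) ((b - (i + 1)) * m) z y := by
    refine sum_le_sum_of_subset_of_nonneg (fun z hz => ?_) fun z _ _ => mul_nonneg (kW_nonneg _ _ _ _ _) (kW_nonneg _ _ _ _ _)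
    rw [mem_filter] at hz ⊢
    obtain ⟨hz1, j', hj1, hj2⟩ := hz
    refine ⟨by rw [hS]; exact hz1, ?_⟩
    have hjj : j' = j := by
      by_contra hne
      have := hxo j' hne
      linarith
    subst hjj
    unfold nr20 at hj2
    rw [mem_Xc20]
    have h2 := hp (i + 1) (by omega)
    rw [abs_le] at hj2 h2 ⊢
    constructor <;> linarith [hj2.1, hj2.2, h2.1, h2.2]
  have k4 := k1.trans (add_le_add k3 le_rfl)
  rw [k2] at k4
  linarith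

/-- **(D2) THE KERNEL OF THE SLAB IS THE COLLAR SUM UP TO `b er20`.** -/
theorem chain26 {ι : Type*} {ω₀ ω ρ' α τ' Y Y' U : ℝ} {n N N' : ℕ} {l : ι → ℕ → ℝ} (hn : 1 ≤ n) (hN' : 1 ≤ N') (hN : N = b * N')
    (hm : m = N' * n) (hω : ω₀ ≤ ω) (hU : UP20 μ s ω (N * n) U η) (hE : EXIT20 μ s ω₀ ω (N * n) Y' η) (hJ : JUMP20 μ s ω ρ' n N Y η)
    (hW : WALL20 μ s ω ρ' α n N Y l η) (hs : ∀ j, ∀ i < N, |l j (i + 1) - l j i - sl μ s * n| ≤ τ')
    (hsep : ∀ j j', j ≠ j' → ∀ i ≤ N, 2 * α + ρ' + τ' < |l j i - l j' i|) (j : ι) (hp : ∀ i ≤ b, |l j (i * N') - p i| ≤ 1)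
    (hr : α + ρ' + τ' + 1 ≤ r) {x y : ℤ} (hx : x ∈ Xc20 r p 0) (hx0 : |(x : ℝ)| ≤ ω₀) (hxo : ∀ j', j' ≠ j → α < |(x : ℝ) - l j' 0|)
    (hy : y ∈ Xc20 r p b) :
    W μ s η ((0 : ℤ), x) (N * n) (y - x) ≤ P12.It (Xc20 r p) (Kn20 μ s η m) b 0 x y + b * er20 N U Y Y' := by
  classical
  obtain ⟨F, hF⟩ : ∃ F : ℕ → ℝ, F = fun i => ∑ z ∈ Xc20 r p i, P12.It (Xc20 r p) (Kn20 μ s η m) i 0 x z *
      kW μ s η ((i * m : ℕ) : ℤ) ((b - i) * m) z y := ⟨_, rfl⟩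
  have hnn : ∀ (j : ℕ) (z z' : ℤ), 0 ≤ Kn20 μ s η m j z z' := fun j z z' => Kn20_nonneg η m j z z'
  have eNn : N * n = b * m := by rw [hN, hm]; ring
  have h0 : F 0 = W μ s η ((0 : ℤ), x) (N * n) (y - x) := by
    rw [hF]
    show ∑ z ∈ Xc20 r p 0, P12.It (Xc20 r p) (Kn20 μ s η m) 0 0 x z * kW μ s η ((0 * m : ℕ) : ℤ) ((b - 0) * m) z y = _
    rw [sum_eq_single x]
    · rw [It_zero_self, one_mul, zero_mul, Nat.cast_zero, Nat.sub_zero, eNn]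
      rfl
    · intro u _ hu
      rw [It_zero_ne _ (Ne.symm hu), zero_mul]
    · intro h
      exact absurd hx h
  have hb : F b = P12.It (Xc20 r p) (Kn20 μ s η m) b 0 x y := by
    rw [hF]
    show ∑ z ∈ Xc20 r p b, P12.It (Xc20 r p) (Kn20 μ s η m) b 0 x z * kW μ s η ((b * m : ℕ) : ℤ) ((b - b) * m) z y = _
    rw [Nat.sub_self, zero_mul, sum_eq_single y]
    · rw [kW_row_zero, mul_one]
    · intro u _ hu
      rw [kW_zero (μ := μ) (s := s) η _ (by omega), mul_zero]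
    · intro h
      exact absurd hy h
  have hstep : ∀ i < b, F i ≤ F (i + 1) + er20 N U Y Y' := by
    intro i hi
    obtain ⟨S, hS⟩ : ∃ S : Finset ℤ, S = Icc x (x + (N * n : ℕ)) := ⟨_, rfl⟩
    obtain ⟨g, hg⟩ : ∃ g : ℤ → ℝ, g = fun z => kW μ s η (((i + 1) * m : ℕ) : ℤ) ((b - (i + 1)) * m) z y := ⟨_, rfl⟩
    have hg0 : ∀ z, 0 ≤ g z := fun z => by rw [hg]; exact kW_nonneg _ _ _ _ _
    obtain ⟨cc, hcc⟩ : ∃ cc : ℤ → ℝ, cc = fun z' => ∑ z ∈ Xc20 r p i, P12.It (Xc20 r p) (Kn20 μ s η m) i 0 x z *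
        Kn20 μ s η m i z z' := ⟨_, rfl⟩
    have hcast : (((i + 1) * m : ℕ) : ℤ) = ((i * m : ℕ) : ℤ) + m := by push_cast; ring
    have hbm : (b - i) * m = m + (b - (i + 1)) * m := by
      have : b - i = b - (i + 1) + 1 := by omega
      rw [this]
      ring
    have him : i * m + m ≤ N * n := by
      rw [eNn]
      have : (i + 1) * m ≤ b * m := Nat.mul_le_mul_right m hi
      linarith
    -- `F i`
    have e1 : F i = ∑ z' ∈ S, cc z' * g z' := by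
      rw [hF, hcc]
      show ∑ z ∈ Xc20 r p i, P12.It (Xc20 r p) (Kn20 μ s η m) i 0 x z * kW μ s η ((i * m : ℕ) : ℤ) ((b - i) * m) z y = _
      simp only [sum_mul]
      rw [sum_comm]
      refine sum_congr rfl fun z _ => ?_
      by_cases hz : P12.It (Xc20 r p) (Kn20 μ s η m) i 0 x z = 0
      · rw [hz, zero_mul]
        symm
        refine sum_eq_zero fun z' _ => ?_
        rw [zero_mul, zero_mul]
      · have h1 := It_le_kW (μ := μ) (s := s) η m (Xc20 r p) i 0 x z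
        have h2 : kW μ s η ((0 * m : ℕ) : ℤ) (i * m) x z ≠ 0 := by
          intro h3
          rw [h3] at h1
          exact hz (le_antisymm h1 (It_nn hnn _ _ _ _))
        have h3 : x ≤ z ∧ z ≤ x + (i * m : ℕ) := by
          by_contra h4
          exact h2 (kW_zero (μ := μ) (s := s) η _ h4)
        have h4 : Icc z (z + m) ⊆ S := by
          rw [hS]
          refine Icc_subset_Icc h3.1 ?_
          have : (((i * m + m : ℕ)) : ℤ) ≤ ((N * n : ℕ) : ℤ) := by exact_mod_cast him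
          push_cast at this h3 ⊢
          linarith [h3.2]
        rw [hbm, kW_comp' (μ := μ) (s := s) η ((i * m : ℕ) : ℤ) m ((b - (i + 1)) * m) z y S h4]
        unfold comp
        rw [mul_sum]
        refine sum_congr rfl fun z' _ => ?_
        rw [hg]
        show _ = _ * kW μ s η (((i + 1) * m : ℕ) : ℤ) ((b - (i + 1)) * m) z' y
        rw [hcast, mul_assoc]
        rfl
    -- the part in the collar
    have e2 : ∀ z' ∈ Xc20 r p (i + 1), cc z' = P12.It (Xc20 r p) (Kn20 μ s η m) (i + 1) 0 x z' := by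
      intro z' hz'
      have h1 := It_succ' (X := Xc20 r p) (B := Kn20 μ s η m) i 0 hx z' (by rw [zero_add]; exact hz')
      simp only [zero_add] at h1
      rw [h1, hcc]
    -- the bound of `cc`
    have e3 : ∀ z', cc z' ≤ kW μ s η 0 ((i + 1) * m) x z' := by
      intro z'
      have h0' : ((0 : ℤ) + ((i * m : ℕ) : ℤ)) = ((i * m : ℕ) : ℤ) := zero_add _
      have h1 := kW_comp' (μ := μ) (s := s) η 0 (i * m) m x z' (Xc20 r p i ∪ Icc x (x + (i * m : ℕ))) subset_union_right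
      have h2 : (i + 1) * m = i * m + m := by ring
      rw [h2, h1, hcc]
      unfold comp
      refine le_trans (sum_le_sum fun z _ => ?_) (sum_le_sum_of_subset_of_nonneg subset_union_left fun z _ _ =>
        mul_nonneg (kW_nonneg _ _ _ _ _) (kW_nonneg _ _ _ _ _))
      have h3 := It_le_kW (μ := μ) (s := s) η m (Xc20 r p) i 0 x z
      rw [zero_mul, Nat.cast_zero] at h3
      rw [h0']
      exact mul_le_mul_of_nonneg_right h3 (kW_nonneg _ _ _ _ _)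
    have e4 := rest26 (μ := μ) (s := s) hn hN' hN hm hω hU hE hJ hW hs hsep j hp hr (x := x) (y := y) hx0 hxo hi S hS
    have e5 : ∑ z ∈ S.filter (fun z => z ∉ Xc20 r p (i + 1)), cc z * g z ≤ er20 N U Y Y' := by
      refine le_trans (sum_le_sum fun z _ => ?_) e4
      rw [hg]
      exact mul_le_mul_of_nonneg_right (e3 z) (kW_nonneg _ _ _ _ _)
    have e6 : ∑ z ∈ S.filter (fun z => z ∈ Xc20 r p (i + 1)), cc z * g z ≤ F (i + 1) := by
      rw [hF]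
      show _ ≤ ∑ z ∈ Xc20 r p (i + 1), P12.It (Xc20 r p) (Kn20 μ s η m) (i + 1) 0 x z *
        kW μ s η (((i + 1) * m : ℕ) : ℤ) ((b - (i + 1)) * m) z y
      calc ∑ z ∈ S.filter (fun z => z ∈ Xc20 r p (i + 1)), cc z * g z
          = ∑ z ∈ S.filter (fun z => z ∈ Xc20 r p (i + 1)), P12.It (Xc20 r p) (Kn20 μ s η m) (i + 1) 0 x z * g z := by
            refine sum_congr rfl fun z hz => ?_
            rw [mem_filter] at hz
            rw [e2 z hz.2]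
        _ ≤ ∑ z ∈ Xc20 r p (i + 1), P12.It (Xc20 r p) (Kn20 μ s η m) (i + 1) 0 x z * g z :=
            sum_le_sum_of_subset_of_nonneg (fun z hz => (mem_filter.1 hz).2) fun z _ _ =>
              mul_nonneg (It_nn hnn _ _ _ _) (hg0 z)
        _ = _ := by rw [hg]
    rw [e1, ← sum_filter_add_sum_filter_not S (fun z => z ∈ Xc20 r p (i + 1))]
    linarith
  have htel : ∀ i ≤ b, F 0 ≤ F i + i * er20 N U Y Y' := by
    intro i
    induction i with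
    | zero =>
      intro _
      simp
    | succ i ih =>
      intro hi
      have h1 := ih (by omega)
      have h2 := hstep i (by omega)
      push_cast
      linarith
  have h1 := htel b le_rfl
  rw [h0, hb] at h1
  exact h1

/-! ### (D4) The levels -/

/-- Lower bound of the collar sum. -/
theorem low26 (hB : BlkD μ s m k₀ k₁ k₃ KL KU c₄ A Rp S pp ρ Bk) (h : η ∈ LB20 Bk m b p t) (hr : 0 ≤ r) (hk13 : k₁ ≤ k₃) :
    Real.exp (b * (k₁ * EE μ s m)) ≤ It20 μ s r m b p η := by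
  have hE0 : 0 ≤ EE μ s m := by linarith [one_le_EE (μ := μ) (s := s) m]
  have h1 := pow_le_It (X := Xc20 r p) (B := Kn20 μ s η m) (fun j z z' => Kn20_nonneg η m j z z') (Real.exp_pos (k₁ * EE μ s m)).le b p
    (fun j _ => mem_Xc20.2 (by rw [sub_self, abs_zero]; exact hr)) (fun j hj => by
      refine le_trans (Real.exp_le_exp.2 ?_) (low_kb hB h hj)
      refine mul_le_mul_of_nonneg_right ?_ hE0
      unfold lv
      split_ifs
      · exact hk13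
      · exact le_rfl) b 0 (by omega)
  rw [zero_add, ← Real.exp_nat_mul] at h1
  exact h1

/-- Lower bound of the collar sum, all types up. -/
theorem up26 (hB : BlkD μ s m k₀ k₁ k₃ KL KU c₄ A Rp S pp ρ Bk) (h : η ∈ LB20 Bk m b p t) (hr : 0 ≤ r) (ht : ∀ i < b, t i = true) :
    Real.exp (b * (k₃ * EE μ s m)) ≤ It20 μ s r m b p η := by
  have h1 := pow_le_It (X := Xc20 r p) (B := Kn20 μ s η m) (fun j z z' => Kn20_nonneg η m j z z') (Real.exp_pos (k₃ * EE μ s m)).le b p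
    (fun j _ => mem_Xc20.2 (by rw [sub_self, abs_zero]; exact hr)) (fun j hj => by
      have h2 := low_kb hB h hj
      rw [ht j hj] at h2
      exact h2) b 0 (by omega)
  rw [zero_add, ← Real.exp_nat_mul] at h1
  exact h1

/-- Upper bound of the collar sum, all types low. -/
theorem dn26 (hB : BlkD μ s m k₀ k₁ k₃ KL KU c₄ A Rp S pp ρ Bk) (h : η ∈ LB20 Bk m b p t) (hr0 : 0 ≤ r) (hr : r ≤ A * wd μ s m)
    (ht : ∀ i < b, t i = false) : It20 μ s r m b p η ≤ Real.exp (b * (KL * EE μ s m)) := by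
  have h1 := It_le_pow (X := Xc20 r p) (B := Kn20 μ s η m) (fun j z z' => Kn20_nonneg η m j z z') (Real.exp_pos (KL * EE μ s m)).le b
    (fun j hj z hz => by
      have h2 := sup_kb hB h hr hj hz (Xc20 r p (j + 1))
      rw [ht j hj] at h2
      exact h2) b 0 (by omega) (p 0) (mem_Xc20.2 (by rw [sub_self, abs_zero]; exact hr0)) (p b)
  rw [← Real.exp_nat_mul] at h1
  exact h1

/-- Upper bound of the collar sum, any types. -/
theorem sup26 (hB : BlkD μ s m k₀ k₁ k₃ KL KU c₄ A Rp S pp ρ Bk) (h : η ∈ LB20 Bk m b p t) (hr0 : 0 ≤ r) (hr : r ≤ A * wd μ s m)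
    (hK : KL ≤ KU) : It20 μ s r m b p η ≤ Real.exp (b * (KU * EE μ s m)) := by
  have hE0 : 0 ≤ EE μ s m := by linarith [one_le_EE (μ := μ) (s := s) m]
  have h1 := It_le_pow (X := Xc20 r p) (B := Kn20 μ s η m) (fun j z z' => Kn20_nonneg η m j z z') (Real.exp_pos (KU * EE μ s m)).le b
    (fun j hj z hz => (sup_kb hB h hr hj hz _).trans (Real.exp_le_exp.2 (mul_le_mul_of_nonneg_right (K_le hK j) hE0)))
    b 0 (by omega) (p 0) (mem_Xc20.2 (by rw [sub_self, abs_zero]; exact hr0)) (p b)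
  rw [← Real.exp_nat_mul] at h1
  exact h1

theorem It20_pos (hB : BlkD μ s m k₀ k₁ k₃ KL KU c₄ A Rp S pp ρ Bk) (h : η ∈ LB20 Bk m b p t) (hr : 0 ≤ r) (hk13 : k₁ ≤ k₃) :
    0 < It20 μ s r m b p η := lt_of_lt_of_le (Real.exp_pos _) (low26 hB h hr hk13)

theorem one_le_It20 (hB : BlkD μ s m k₀ k₁ k₃ KL KU c₄ A Rp S pp ρ Bk) (h : η ∈ LB20 Bk m b p t) (hr : 0 ≤ r) (hk1 : 0 ≤ k₁)
    (hk13 : k₁ ≤ k₃) : 1 ≤ It20 μ s r m b p η := by
  have hE0 : 0 ≤ EE μ s m := by linarith [one_le_EE (μ := μ) (s := s) m]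
  refine le_trans (Real.one_le_exp ?_) (low26 hB h hr hk13)
  positivity

/-! ### (D3) The cell level -/

/-- The cell level of the collar sum. -/
theorem cellIt26 (hB : BlkD μ s m k₀ k₁ k₃ KL KU c₄ A Rp S pp ρ Bk) (h : η ∈ LB20 Bk m b p t) (hw : 0 ≤ wd μ s m) (hA : Rp + 8 ≤ A)
    (hk01 : k₀ + 1 ≤ k₁) (hk13 : k₁ ≤ k₃) (hK : KL ≤ KU) {x y : ℤ} (hx : x ∈ Xc20 (A * wd μ s m) p 0) (hy : y ∈ Xc20 (A * wd μ s m) p b) :
    P12.It (Xc20 (A * wd μ s m) p) (Kn20 μ s η m) b 0 x y ≤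
      (1 + 2 * Real.exp (KU * EE μ s m) * Real.exp (c₄ * EE μ s m)) ^ 2 * It20 μ s (A * wd μ s m) m b p η :=
  P12.cell (ln20 hB hw hA hk01 hk13 hK h) (hf20 hB h) hx hy

/-- **(D3) THE CELL LEVEL.** -/
theorem cellg26 {ι : Type*} {ω₀ ω ρ' α τ' Y Y' U : ℝ} {n N N' : ℕ} {l : ι → ℕ → ℝ} (hn : 1 ≤ n) (hN' : 1 ≤ N') (hN : N = b * N')
    (hm : m = N' * n) (hω : ω₀ ≤ ω) (hU : UP20 μ s ω (N * n) U η) (hE : EXIT20 μ s ω₀ ω (N * n) Y' η) (hJ : JUMP20 μ s ω ρ' n N Y η)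
    (hW : WALL20 μ s ω ρ' α n N Y l η) (hs : ∀ j, ∀ i < N, |l j (i + 1) - l j i - sl μ s * n| ≤ τ')
    (hsep : ∀ j j', j ≠ j' → ∀ i ≤ N, 2 * α + ρ' + τ' < |l j i - l j' i|) (j : ι) (hp : ∀ i ≤ b, |l j (i * N') - p i| ≤ 1)
    (hB : BlkD μ s m k₀ k₁ k₃ KL KU c₄ A Rp S pp ρ Bk) (h : η ∈ LB20 Bk m b p t) (hw : 0 ≤ wd μ s m) (hA : Rp + 8 ≤ A)
    (hk1 : 0 ≤ k₁) (hk01 : k₀ + 1 ≤ k₁) (hk13 : k₁ ≤ k₃) (hK : KL ≤ KU) (hr : α + ρ' + τ' + 1 ≤ A * wd μ s m)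
    (her : b * er20 N U Y Y' ≤ 1) {x y : ℤ} (hx : x ∈ Xc20 (A * wd μ s m) p 0) (hx0 : |(x : ℝ)| ≤ ω₀)
    (hxo : ∀ j', j' ≠ j → α < |(x : ℝ) - l j' 0|) (hy : y ∈ Xc20 (A * wd μ s m) p b) :
    W μ s η ((0 : ℤ), x) (N * n) (y - x) ≤ 2 * (1 + 2 * Real.exp (KU * EE μ s m) * Real.exp (c₄ * EE μ s m)) ^ 2 *
      It20 μ s (A * wd μ s m) m b p η := by
  have h1 := chain26 (μ := μ) (s := s) hn hN' hN hm hω hU hE hJ hW hs hsep j hp hr hx hx0 hxo hy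
  have h2 := cellIt26 hB h hw hA hk01 hk13 hK hx hy
  have hρ := hB.rho
  have hAw : 0 ≤ A * wd μ s m := by
    have h3 : (1 : ℝ) ≤ ρ := by exact_mod_cast hρ.1
    linarith [rho_le hB hw hA]
  have h3 := one_le_It20 (p := p) (t := t) (b := b) hB h hAw hk1 hk13
  have h4 : 1 ≤ (1 + 2 * Real.exp (KU * EE μ s m) * Real.exp (c₄ * EE μ s m)) ^ 2 := by
    refine one_le_pow₀ ?_
    have := Real.exp_pos (KU * EE μ s m)
    have := Real.exp_pos (c₄ * EE μ s m)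
    nlinarith [mul_pos (Real.exp_pos (KU * EE μ s m)) (Real.exp_pos (c₄ * EE μ s m))]
  nlinarith

/-- The same against the kernel of the ends. -/
theorem cellw26 {ι : Type*} {ω₀ ω ρ' α τ' Y Y' U : ℝ} {n N N' : ℕ} {l : ι → ℕ → ℝ} (hn : 1 ≤ n) (hN' : 1 ≤ N') (hN : N = b * N')
    (hm : m = N' * n) (hω : ω₀ ≤ ω) (hU : UP20 μ s ω (N * n) U η) (hE : EXIT20 μ s ω₀ ω (N * n) Y' η) (hJ : JUMP20 μ s ω ρ' n N Y η)
    (hW : WALL20 μ s ω ρ' α n N Y l η) (hs : ∀ j, ∀ i < N, |l j (i + 1) - l j i - sl μ s * n| ≤ τ')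
    (hsep : ∀ j j', j ≠ j' → ∀ i ≤ N, 2 * α + ρ' + τ' < |l j i - l j' i|) (j : ι) (hp : ∀ i ≤ b, |l j (i * N') - p i| ≤ 1)
    (hB : BlkD μ s m k₀ k₁ k₃ KL KU c₄ A Rp S pp ρ Bk) (h : η ∈ LB20 Bk m b p t) (hw : 0 ≤ wd μ s m) (hA : Rp + 8 ≤ A)
    (hk1 : 0 ≤ k₁) (hk01 : k₀ + 1 ≤ k₁) (hk13 : k₁ ≤ k₃) (hK : KL ≤ KU) (hr : α + ρ' + τ' + 1 ≤ A * wd μ s m)
    (her : b * er20 N U Y Y' ≤ 1) {x y : ℤ} (hx : x ∈ Xc20 (A * wd μ s m) p 0) (hx0 : |(x : ℝ)| ≤ ω₀)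
    (hxo : ∀ j', j' ≠ j → α < |(x : ℝ) - l j' 0|) (hy : y ∈ Xc20 (A * wd μ s m) p b) :
    W μ s η ((0 : ℤ), x) (N * n) (y - x) ≤ 2 * (1 + 2 * Real.exp (KU * EE μ s m) * Real.exp (c₄ * EE μ s m)) ^ 2 *
      W μ s η ((0 : ℤ), p 0) (N * n) (p b - p 0) := by
  have h1 := cellg26 (μ := μ) (s := s) hn hN' hN hm hω hU hE hJ hW hs hsep j hp hB h hw hA hk1 hk01 hk13 hK hr her hx hx0 hxo hy
  have h2 := It20_le (μ := μ) (s := s) η (A * wd μ s m) m b p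
  have e : N * n = b * m := by rw [hN, hm]; ring
  rw [e] at h1 ⊢
  exact h1.trans (mul_le_mul_of_nonneg_left h2 (by positivity))

/-- The kernel of the ends is the collar sum up to the factor `2`. -/
theorem twog26 {ι : Type*} {ω₀ ω ρ' α τ' Y Y' U : ℝ} {n N N' : ℕ} {l : ι → ℕ → ℝ} (hn : 1 ≤ n) (hN' : 1 ≤ N') (hN : N = b * N')
    (hm : m = N' * n) (hω : ω₀ ≤ ω) (hU : UP20 μ s ω (N * n) U η) (hE : EXIT20 μ s ω₀ ω (N * n) Y' η) (hJ : JUMP20 μ s ω ρ' n N Y η)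
    (hW : WALL20 μ s ω ρ' α n N Y l η) (hs : ∀ j, ∀ i < N, |l j (i + 1) - l j i - sl μ s * n| ≤ τ')
    (hsep : ∀ j j', j ≠ j' → ∀ i ≤ N, 2 * α + ρ' + τ' < |l j i - l j' i|) (j : ι) (hp : ∀ i ≤ b, |l j (i * N') - p i| ≤ 1)
    (hB : BlkD μ s m k₀ k₁ k₃ KL KU c₄ A Rp S pp ρ Bk) (h : η ∈ LB20 Bk m b p t)
    (hk1 : 0 ≤ k₁) (hk13 : k₁ ≤ k₃) (hr0 : 0 ≤ r) (hr : α + ρ' + τ' + 1 ≤ r)
    (her : b * er20 N U Y Y' ≤ 1) (hx0 : |(p 0 : ℝ)| ≤ ω₀) (hxo : ∀ j', j' ≠ j → α < |(p 0 : ℝ) - l j' 0|) :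
    W μ s η ((0 : ℤ), p 0) (N * n) (p b - p 0) ≤ 2 * It20 μ s r m b p η := by
  have hmem : ∀ i, p i ∈ Xc20 r p i := fun i => mem_Xc20.2 (by rw [sub_self, abs_zero]; exact hr0)
  have h1 := chain26 (μ := μ) (s := s) hn hN' hN hm hω hU hE hJ hW hs hsep j hp hr (hmem 0) hx0 hxo (hmem b)
  have h3 := one_le_It20 (p := p) (t := t) (b := b) hB h hr0 hk1 hk13
  unfold It20 at h3 ⊢
  linarith

/-! ### (D5) The influence of one block -/

/-- **(D5) ONE BLOCK IS REPLACED.** -/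
theorem inflg26 (hB : BlkD μ s m k₀ k₁ k₃ KL KU c₄ A Rp S pp ρ Bk) (hw : 0 ≤ wd μ s m) (hA : Rp + 8 ≤ A) (hk01 : k₀ + 1 ≤ k₁)
    (hk13 : k₁ ≤ k₃) (hK : KL ≤ KU) {η' : Env} {t' : ℕ → Bool} (h : η ∈ LB20 Bk m b p t) (h' : η' ∈ LB20 Bk m b p t') {i : ℕ}
    (hi : i < b) (heq : ∀ i' < b, i' ≠ i → ∀ q ∈ rows (i' * m : ℕ) ((i' * m : ℕ) + m), η q = η' q) :
    It20 μ s (A * wd μ s m) m b p η ≤ (1 + 8 * Real.exp (KU * EE μ s m) ^ 2 * Real.exp (c₄ * EE μ s m) ^ 2) *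
      ((1 + 2 * Real.exp (KU * EE μ s m) * Real.exp (c₄ * EE μ s m)) * Real.exp (KU * EE μ s m)) / Real.exp (k₁ * EE μ s m) *
        It20 μ s (A * wd μ s m) m b p η' := by
  obtain ⟨X, hX⟩ : ∃ X : ℕ → Finset ℤ, X = Xc20 (A * wd μ s m) p := ⟨_, rfl⟩
  have hL := ln20 hB hw hA hk01 hk13 hK h
  have hL' := ln20 hB hw hA hk01 hk13 hK h'
  have hc : ∀ l < b, l ≠ i → Kn20 μ s η m l = Kn20 μ s η' m l := by
    intro l hl hli
    refine Kn20_congr fun q h1 h2 => heq l hl hli q ⟨?_, ?_⟩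
    · push_cast at h1 ⊢
      exact h1
    · push_cast at h2 ⊢
      exact h2
  have h1 := influence hL (fwIt hL.rt) (bwIt hL.rt) hi (K := Kn20 μ s η' m i) (fun z z' => Kn20_nonneg η' m i z z')
    (hL'.rt.low i hi)
  have e1 : ∑ z ∈ Xc20 (A * wd μ s m) p i, P12.It (Xc20 (A * wd μ s m) p) (Kn20 μ s η m) i 0 (p 0) z *
      P12.It (Xc20 (A * wd μ s m) p) (Kn20 μ s η m) (b - i) i z (p b) = It20 μ s (A * wd μ s m) m b p η := by
    have h2 := It_add (X := Xc20 (A * wd μ s m) p) (B := Kn20 μ s η m) i (b - i) 0 (hL.rt.pX 0 (Nat.zero_le _)) (p b)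
    have e : i + (b - i) = b := by omega
    rw [e, zero_add] at h2
    exact h2.symm
  have e2 : ∑ z ∈ Xc20 (A * wd μ s m) p i, P12.It (Xc20 (A * wd μ s m) p) (Kn20 μ s η m) i 0 (p 0) z *
      ∑ z' ∈ Xc20 (A * wd μ s m) p (i + 1), Kn20 μ s η' m i z z' *
        P12.It (Xc20 (A * wd μ s m) p) (Kn20 μ s η m) (b - (i + 1)) (i + 1) z' (p b) = It20 μ s (A * wd μ s m) m b p η' := by
    have h2 := It_add (X := Xc20 (A * wd μ s m) p) (B := Kn20 μ s η' m) i (b - i) 0 (hL.rt.pX 0 (Nat.zero_le _)) (p b)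
    have e : i + (b - i) = b := by omega
    have e' : b - i = b - (i + 1) + 1 := by omega
    rw [e, zero_add] at h2
    unfold It20
    rw [h2]
    refine sum_congr rfl fun z _ => ?_
    rw [It_congr (B := Kn20 μ s η m) (B' := Kn20 μ s η' m) i 0 fun l _ h3 => hc l (by omega) (by omega), e', It_succ,
      It_congr (B := Kn20 μ s η m) (B' := Kn20 μ s η' m) (b - (i + 1)) (i + 1) fun l h3 h4 => hc l (by omega) (by omega)]
  rw [e1, e2] at h1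
  rw [div_mul_eq_mul_div, le_div_iff₀ (Real.exp_pos _), mul_comm]
  exact h1

/-- The constant of `infl26`. -/
theorem infl_const {E : ℝ} (hE : 1 ≤ E) (hk1 : 0 ≤ k₁) (hKU : 0 ≤ KU) (hc4 : 0 ≤ c₄) :
    (1 + 8 * Real.exp (KU * E) ^ 2 * Real.exp (c₄ * E) ^ 2) * ((1 + 2 * Real.exp (KU * E) * Real.exp (c₄ * E)) *
      Real.exp (KU * E)) / Real.exp (k₁ * E) ≤ Real.exp ((4 * KU + 3 * c₄ + 4) * E) := by
  have hk : 1 ≤ Real.exp (KU * E) := Real.one_le_exp (by positivity)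
  have hc : 1 ≤ Real.exp (c₄ * E) := Real.one_le_exp (by positivity)
  have ha : 1 ≤ Real.exp (k₁ * E) := Real.one_le_exp (by positivity)
  obtain ⟨k, hkk⟩ : ∃ k : ℝ, k = Real.exp (KU * E) := ⟨_, rfl⟩
  obtain ⟨c, hcc⟩ : ∃ c : ℝ, c = Real.exp (c₄ * E) := ⟨_, rfl⟩
  rw [← hkk] at hk ⊢
  rw [← hcc] at hc ⊢
  have hkc : 1 ≤ k * c := by nlinarith
  have h1 : 1 + 8 * k ^ 2 * c ^ 2 ≤ 9 * (k * c) ^ 2 := by nlinarith
  have h2 : 1 + 2 * k * c ≤ 3 * (k * c) := by nlinarith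
  have h27 : (27 : ℝ) ≤ Real.exp (4 * E) := by
    have h3 : (27 : ℝ) ≤ Real.exp 4 := by
      have h4 : Real.exp 4 = Real.exp 1 ^ 4 := by
        rw [← Real.exp_nat_mul]
        norm_num
      have h5 := Real.exp_one_gt_d9
      rw [h4]
      have h6 : (2.7182818283 : ℝ) ^ 4 ≤ Real.exp 1 ^ 4 := pow_le_pow_left₀ (by norm_num) h5.le 4
      refine le_trans ?_ h6
      norm_num
    exact h3.trans (Real.exp_le_exp.2 (by linarith))
  have h3 : Real.exp ((4 * KU + 3 * c₄ + 4) * E) = Real.exp (4 * E) * (k ^ 4 * c ^ 3) := by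
    rw [hkk, hcc, ← Real.exp_nat_mul, ← Real.exp_nat_mul, ← Real.exp_add, ← Real.exp_add]
    congr 1
    push_cast
    ring
  rw [h3]
  have h4 : (1 + 8 * k ^ 2 * c ^ 2) * ((1 + 2 * k * c) * k) ≤ 9 * (k * c) ^ 2 * (3 * (k * c) * k) := by
    refine mul_le_mul h1 (mul_le_mul_of_nonneg_right h2 (by linarith)) (by positivity) (by positivity)
  have h5 : 9 * (k * c) ^ 2 * (3 * (k * c) * k) = 27 * (k ^ 4 * c ^ 3) := by ring
  have h6 : 27 * (k ^ 4 * c ^ 3) ≤ Real.exp (4 * E) * (k ^ 4 * c ^ 3) := mul_le_mul_of_nonneg_right h27 (by positivity)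
  refine (div_le_self (by positivity) ha).trans ?_
  linarith

/-- **(D5), logarithmic form.** -/
theorem swap26 (hB : BlkD μ s m k₀ k₁ k₃ KL KU c₄ A Rp S pp ρ Bk) (hw : 0 ≤ wd μ s m) (hA : Rp + 8 ≤ A) (hk1 : 0 ≤ k₁)
    (hk01 : k₀ + 1 ≤ k₁) (hk13 : k₁ ≤ k₃) (hK : KL ≤ KU) (hKU : 0 ≤ KU) (hc4 : 0 ≤ c₄) {η' : Env} {t' : ℕ → Bool}
    (h : η ∈ LB20 Bk m b p t) (h' : η' ∈ LB20 Bk m b p t') {i : ℕ}
    (hi : i < b) (heq : ∀ i' < b, i' ≠ i → ∀ q ∈ rows (i' * m : ℕ) ((i' * m : ℕ) + m), η q = η' q) :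
    |Real.log (It20 μ s (A * wd μ s m) m b p η) - Real.log (It20 μ s (A * wd μ s m) m b p η')| ≤
      (4 * KU + 3 * c₄ + 4) * EE μ s m := by
  have hρ := hB.rho
  have hAw : 0 ≤ A * wd μ s m := by
    have h3 : (1 : ℝ) ≤ ρ := by exact_mod_cast hρ.1
    linarith [rho_le hB hw hA]
  have hp := It20_pos (p := p) (t := t) (b := b) hB h hAw hk13
  have hp' := It20_pos (p := p) (t := t') (b := b) hB h' hAw hk13
  have hE1 : 1 ≤ EE μ s m := one_le_EE m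
  have hC := infl_const (k₁ := k₁) (KU := KU) (c₄ := c₄) hE1 hk1 hKU hc4
  have key : ∀ {u v : ℝ}, 0 < u → 0 < v → u ≤ (1 + 8 * Real.exp (KU * EE μ s m) ^ 2 * Real.exp (c₄ * EE μ s m) ^ 2) *
      ((1 + 2 * Real.exp (KU * EE μ s m) * Real.exp (c₄ * EE μ s m)) * Real.exp (KU * EE μ s m)) / Real.exp (k₁ * EE μ s m) * v →
      Real.log u - Real.log v ≤ (4 * KU + 3 * c₄ + 4) * EE μ s m := by
    intro u v hu hv huv
    have h1 := huv.trans (mul_le_mul_of_nonneg_right hC hv.le)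
    have h2 := Real.log_le_log hu h1
    rw [Real.log_mul (Real.exp_pos _).ne' hv.ne', Real.log_exp] at h2
    linarith
  rw [abs_le]
  constructor
  · have h1 := key hp' hp (inflg26 hB hw hA hk01 hk13 hK h' h hi fun i' h1 h2 q hq => (heq i' h1 h2 q hq).symm)
    linarith
  · exact key hp hp' (inflg26 hB hw hA hk01 hk13 hK h h' hi heq)

/-! ### (D6) Measurability -/

theorem measurable_It26 (X : ℕ → Finset ℤ) (m : ℕ) : ∀ (n j : ℕ) (x y : ℤ), Measurable fun η : Env => P12.It X (Kn20 μ s η m) n j x y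
  | 0, j, x, y => by
    by_cases h : x = y
    · subst h
      simp only [It_zero_self]
      exact measurable_const
    · simp only [It_zero_ne (X := X) j h]
      exact measurable_const
  | n + 1, j, x, y => by
    simp only [It_succ]
    exact Finset.measurable_sum _ fun z _ => (measurable_W _ _ _).mul (measurable_It26 X m n (j + 1) z y)

theorem measurable_It20 (r : ℝ) (m b : ℕ) (p : ℕ → ℤ) : Measurable fun η : Env => It20 μ s r m b p η :=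
  measurable_It26 _ _ _ _ _ _

/-! ### The literal forms of `Tun20` -/

/-- The numbers of the block data. -/
structure BN26 (μ : Measure ℝ) (s : ℝ) (m : ℕ) (k₀ k₁ k₃ KL KU c₄ A Rp : ℝ) : Prop where
  k0 : 0 ≤ k₀
  k1 : k₀ + 1 ≤ k₁
  k3 : k₁ ≤ k₃
  KL1 : k₁ ≤ KL
  KU1 : KL ≤ KU
  c4 : 0 ≤ c₄
  RA : Rp + 8 ≤ A
  w1 : 1 ≤ wd μ s m
  E1 : 1 ≤ EE μ s m

/-- The constant of the influence. -/
def R26 (μ : Measure ℝ) (s : ℝ) (m : ℕ) (k₁ KU c₄ : ℝ) : ℝ :=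
  (1 + 8 * Real.exp (KU * EE μ s m) ^ 2 * Real.exp (c₄ * EE μ s m) ^ 2) *
    ((1 + 2 * Real.exp (KU * EE μ s m) * Real.exp (c₄ * EE μ s m)) * Real.exp (KU * EE μ s m)) / Real.exp (k₁ * EE μ s m)

theorem BN26.w0 (hn : BN26 μ s m k₀ k₁ k₃ KL KU c₄ A Rp) : 0 ≤ wd μ s m := by linarith [hn.w1]

theorem BN26.k1' (hn : BN26 μ s m k₀ k₁ k₃ KL KU c₄ A Rp) : 0 ≤ k₁ := by linarith [hn.k0, hn.k1]

theorem BN26.KU0 (hn : BN26 μ s m k₀ k₁ k₃ KL KU c₄ A Rp) : 0 ≤ KU := by linarith [hn.k0, hn.k1, hn.KL1, hn.KU1]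

theorem Aw0 (hB : BlkD μ s m k₀ k₁ k₃ KL KU c₄ A Rp S pp ρ Bk) (hn : BN26 μ s m k₀ k₁ k₃ KL KU c₄ A Rp) : 0 ≤ A * wd μ s m := by
  have h3 : (1 : ℝ) ≤ ρ := by exact_mod_cast hB.rho.1
  linarith [rho_le hB hn.w0 hn.RA]

/-- `R26` is at most `exp ((4 KU + 3 c₄ + 4) EE m)`. -/
theorem R26_le (hn : BN26 μ s m k₀ k₁ k₃ KL KU c₄ A Rp) : R26 μ s m k₁ KU c₄ ≤ Real.exp ((4 * KU + 3 * c₄ + 4) * EE μ s m) :=
  infl_const hn.E1 hn.k1' hn.KU0 hn.c4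

theorem R26_pos : 0 < R26 μ s m k₁ KU c₄ := by
  unfold R26
  positivity

theorem It20_low (hB : B12.BlkD μ s m k₀ k₁ k₃ KL KU c₄ A Rp S pp ρ Bk) (hn : BN26 μ s m k₀ k₁ k₃ KL KU c₄ A Rp)
    {b : ℕ} {p : ℕ → ℤ} {t : ℕ → Bool} {η : Env} (h : η ∈ LB20 Bk m b p t) :
    Real.exp (b * (k₁ * EE μ s m)) ≤ It20 μ s (A * wd μ s m) m b p η := low26 hB h (Aw0 hB hn) hn.k3

theorem It20_up (hB : B12.BlkD μ s m k₀ k₁ k₃ KL KU c₄ A Rp S pp ρ Bk) (hn : BN26 μ s m k₀ k₁ k₃ KL KU c₄ A Rp)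
    {b : ℕ} {p : ℕ → ℤ} {t : ℕ → Bool} {η : Env} (h : η ∈ LB20 Bk m b p t) (ht : ∀ i < b, t i = true) :
    Real.exp (b * (k₃ * EE μ s m)) ≤ It20 μ s (A * wd μ s m) m b p η := up26 hB h (Aw0 hB hn) ht

theorem It20_dn (hB : B12.BlkD μ s m k₀ k₁ k₃ KL KU c₄ A Rp S pp ρ Bk) (hn : BN26 μ s m k₀ k₁ k₃ KL KU c₄ A Rp)
    {b : ℕ} {p : ℕ → ℤ} {t : ℕ → Bool} {η : Env} (h : η ∈ LB20 Bk m b p t) (ht : ∀ i < b, t i = false) :
    It20 μ s (A * wd μ s m) m b p η ≤ Real.exp (b * (KL * EE μ s m)) := dn26 hB h (Aw0 hB hn) le_rfl ht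

theorem It20_sup (hB : B12.BlkD μ s m k₀ k₁ k₃ KL KU c₄ A Rp S pp ρ Bk) (hn : BN26 μ s m k₀ k₁ k₃ KL KU c₄ A Rp)
    {b : ℕ} {p : ℕ → ℤ} {t : ℕ → Bool} {η : Env} (h : η ∈ LB20 Bk m b p t) :
    It20 μ s (A * wd μ s m) m b p η ≤ Real.exp (b * (KU * EE μ s m)) := sup26 hB h (Aw0 hB hn) le_rfl hn.KU1

/-- **THE INFLUENCE OF ONE BLOCK.** -/
theorem infl26 (hB : B12.BlkD μ s m k₀ k₁ k₃ KL KU c₄ A Rp S pp ρ Bk) (hn : BN26 μ s m k₀ k₁ k₃ KL KU c₄ A Rp)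
    {b : ℕ} {p : ℕ → ℤ} {t t' : ℕ → Bool} {η η' : Env} (h : η ∈ LB20 Bk m b p t) (h' : η' ∈ LB20 Bk m b p t')
    {i : ℕ} (hi : i < b) (he : ∀ i' < b, i' ≠ i → ∀ q ∈ rows (i' * m : ℕ) ((i' * m : ℕ) + m), η q = η' q) :
    It20 μ s (A * wd μ s m) m b p η ≤ R26 μ s m k₁ KU c₄ * It20 μ s (A * wd μ s m) m b p η' :=
  inflg26 hB hn.w0 hn.RA hn.k1 hn.k3 hn.KU1 h h' hi he

theorem It20_le_W (r : ℝ) (b : ℕ) (p : ℕ → ℤ) (η : Env) (_hr : 0 ≤ r) (_hb : 1 ≤ b) :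
    It20 μ s r m b p η ≤ W μ s η ((0 : ℤ), p 0) (b * m) (p b - p 0) := It20_le η r m b p

/-- The numbers and events of the slab around ONE lane `j` of the family `l`, sub blocks of `n` rows, `m = N' n`, `T = b m`. -/
structure SD26 (μ : Measure ℝ) (s : ℝ) (m b n N' : ℕ) (ω₀ ω ρ' α τ Y Y' U Aw : ℝ) {ι : Type} (l : ι → ℕ → ℝ) (j : ι) (p : ℕ → ℤ)
    (η : Env) : Prop where
  n1 : 1 ≤ n
  m1 : m = N' * n
  b1 : 1 ≤ b
  ω1 : ω₀ ≤ ω
  U1 : UP20 μ s ω (b * N' * n) U η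
  E1 : EXIT20 μ s ω₀ ω (b * N' * n) Y' η
  J1 : JUMP20 μ s ω ρ' n (b * N') Y η
  W1 : WALL20 μ s ω ρ' α n (b * N') Y l η
  dr : ∀ j, ∀ i < b * N', |l j (i + 1) - l j i - sl μ s * n| ≤ τ
  sep : ∀ j j', j ≠ j' → ∀ i ≤ b * N', 2 * α + ρ' + τ < |l j i - l j' i|
  cp : ∀ i ≤ b, |l j (i * N') - p i| ≤ 1
  hA : α + ρ' + τ + 1 ≤ Aw
  far : ∀ j', j' ≠ j → ∀ z : ℤ, |(z : ℝ) - p 0| ≤ Aw → α < |(z : ℝ) - l j' 0|
  err : b * er20 (b * N') U Y Y' ≤ 1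

/-- `m ≥ 1`, since the levels of a block are positive. -/
theorem N1 (hn : BN26 μ s m k₀ k₁ k₃ KL KU c₄ A Rp) {n N' : ℕ} (hm : m = N' * n) : 1 ≤ N' := by
  by_contra h
  have h1 : N' = 0 := by omega
  rw [h1, zero_mul] at hm
  have h2 := hn.w1
  rw [hm] at h2
  unfold wd at h2
  simp at h2
  linarith

/-- **THE CELL LEVEL.** -/
theorem cell26 (hB : B12.BlkD μ s m k₀ k₁ k₃ KL KU c₄ A Rp S pp ρ Bk) (hn : BN26 μ s m k₀ k₁ k₃ KL KU c₄ A Rp)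
    {ι : Type} {ω₀ ω ρ' α τ Y Y' U : ℝ} {n N' b : ℕ} {l : ι → ℕ → ℝ} {j : ι} {p : ℕ → ℤ} {t : ℕ → Bool} {η : Env}
    (hS : SD26 μ s m b n N' ω₀ ω ρ' α τ Y Y' U (A * wd μ s m) l j p η) (h : η ∈ LB20 Bk m b p t) {x y : ℤ}
    (hx : |(x : ℝ)| ≤ ω₀) (hx' : |(x : ℝ) - p 0| ≤ A * wd μ s m) (hy : |(y : ℝ) - p b| ≤ A * wd μ s m) :
    W μ s η ((0 : ℤ), x) (b * m) (y - x) ≤
      2 * (1 + 2 * Real.exp (KU * EE μ s m) * Real.exp (c₄ * EE μ s m)) ^ 2 * It20 μ s (A * wd μ s m) m b p η := by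
  have hN1 := N1 hn hS.m1
  have e : b * N' * n = b * m := by rw [hS.m1]; ring
  have h1 := cellg26 (N := b * N') hS.n1 hN1 rfl hS.m1 hS.ω1 hS.U1 hS.E1 hS.J1 hS.W1 hS.dr hS.sep j hS.cp hB h hn.w0 hn.RA hn.k1'
    hn.k1 hn.k3 hn.KU1 hS.hA hS.err (x := x) (y := y) (mem_Xc20.2 hx') hx (fun j' hj' => hS.far j' hj' x hx') (mem_Xc20.2 hy)
  rw [e] at h1
  exact h1

/-- **THE LEVEL OF THE LANE.** -/
theorem two26 (hB : B12.BlkD μ s m k₀ k₁ k₃ KL KU c₄ A Rp S pp ρ Bk) (hn : BN26 μ s m k₀ k₁ k₃ KL KU c₄ A Rp)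
    {ι : Type} {ω₀ ω ρ' α τ Y Y' U : ℝ} {n N' b : ℕ} {l : ι → ℕ → ℝ} {j : ι} {p : ℕ → ℤ} {t : ℕ → Bool} {η : Env}
    (hS : SD26 μ s m b n N' ω₀ ω ρ' α τ Y Y' U (A * wd μ s m) l j p η) (h : η ∈ LB20 Bk m b p t) (h0 : |(p 0 : ℝ)| ≤ ω₀) :
    W μ s η ((0 : ℤ), p 0) (b * m) (p b - p 0) ≤ 2 * It20 μ s (A * wd μ s m) m b p η := by
  have hN1 := N1 hn hS.m1
  have e : b * N' * n = b * m := by rw [hS.m1]; ring
  have h1 := twog26 (N := b * N') hS.n1 hN1 rfl hS.m1 hS.ω1 hS.U1 hS.E1 hS.J1 hS.W1 hS.dr hS.sep j hS.cp hB h hn.k1' hn.k3 (Aw0 hB hn)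
    hS.hA hS.err h0 (fun j' hj' => hS.far j' hj' (p 0) (by rw [sub_self, abs_zero]; exact Aw0 hB hn))
  rw [e] at h1
  exact h1

end

end Pool.Agent.W_7d29a1_C1.T26
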