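import Pool.Agent.W_7d29a1_C1.JmpN67
import Pool.Agent.W_7d29a1_HZ.PB

/-!
MP_7d29a1_pr, [C1] TUNED SLAB LEMMA: the numbers (ratios of widths and units between the scales `m` and `b m`). (helper20)
-/

set_option autoImplicit false

namespace Pool.Agent.W_7d29a1_C1

open MeasureTheory ProbabilityTheory Filter Topology
open Pool.Agent.W_7d29a1_F Pool.Agent.W_7d29a1_h4g Pool.Agent.W_7d29a1_H Pool.Agent.W_7d29a1_HS

noncomputable section

variable {μ : Measure ℝ} [IsProbabilityMeasure μ] {s c C : ℝ} {n₀ : ℕ}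

theorem rpow_ge20 {a : ℝ} (ha : 0 < a) (M : ℝ) : ∃ N₀ : ℕ, ∀ N : ℕ, N₀ ≤ N → M ≤ (N : ℝ) ^ a := by
  obtain ⟨N₀, hN⟩ := eventually_atTop.1
    (((tendsto_rpow_atTop ha).comp tendsto_natCast_atTop_atTop).eventually_ge_atTop M)
  exact ⟨N₀, fun N h => hN N h⟩

/-- **Widths and units at the scales `m` and `b m`.** -/
theorem scal20 (h : In μ s c C n₀) {M : ℝ} (hM : 0 ≤ M) : ∃ b₀ n₁ : ℕ, 1 ≤ b₀ ∧ 1 ≤ n₁ ∧ ∀ b m : ℕ, b₀ ≤ b → n₁ ≤ m →
    M * wd μ s m ≤ wd μ s (b * m) ∧ M * EE μ s m ≤ EE μ s (b * m) ∧ M * wd μ s (b * m) ≤ b * wd μ s m ∧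
      M * EE μ s (b * m) ≤ b * EE μ s m := by
  obtain ⟨k, K, a, b', n₁, hk, hK, ha, hb0, hb1, hn₁, hw⟩ := wd_pow_two h
  obtain ⟨a', k', ha', hk', n₂, hn₂, hE⟩ := EE_ratio h
  obtain ⟨a'', K'', ha0, ha1, hK'', hE'⟩ := Pool.Agent.W_7d29a1_HZ.EE'_pow h
  obtain ⟨n₃, heq⟩ := Pool.Agent.W_7d29a1_HZ.wd'_eq h
  obtain ⟨N₁, g1⟩ := rpow_ge20 ha (M / k)
  obtain ⟨N₂, g2⟩ := rpow_ge20 ha' (M / k')
  obtain ⟨N₃, g3⟩ := rpow_ge20 (a := 1 - b') (by linarith) (M * K)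
  obtain ⟨N₄, g4⟩ := rpow_ge20 (a := 1 / 2) (by norm_num) (M * K'')
  refine ⟨max (max N₁ N₂) (max (max N₃ N₄) 1), max (max n₁ n₂) n₃, (le_max_right _ _).trans (le_max_right _ _),
    hn₁.trans ((le_max_left _ _).trans (le_max_left _ _)), fun b m hb hm => ?_⟩
  have b1 : N₁ ≤ b := (le_max_left _ _).trans ((le_max_left _ _).trans hb)
  have b2 : N₂ ≤ b := (le_max_right _ _).trans ((le_max_left _ _).trans hb)
  have b3 : N₃ ≤ b := (le_max_left _ _).trans ((le_max_left _ _).trans ((le_max_right _ _).trans hb))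
  have b4 : N₄ ≤ b := (le_max_right _ _).trans ((le_max_left _ _).trans ((le_max_right _ _).trans hb))
  have b5 : 1 ≤ b := (le_max_right _ _).trans ((le_max_right _ _).trans hb)
  have m1 : n₁ ≤ m := (le_max_left _ _).trans ((le_max_left _ _).trans hm)
  have m2 : n₂ ≤ m := (le_max_right _ _).trans ((le_max_left _ _).trans hm)
  have m3 : n₃ ≤ m := (le_max_right _ _).trans hm
  have hm1 : 1 ≤ m := hn₁.trans m1
  have hmb : m ≤ b * m := Nat.le_mul_of_pos_left m b5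
  have hm0 : (0 : ℝ) < m := by exact_mod_cast hm1
  have hb0' : (0 : ℝ) < b := by exact_mod_cast b5
  have er : (((b * m : ℕ) : ℝ) / m) = b := by
    push_cast
    field_simp
  have hwm : 0 ≤ wd μ s m := h.wd_nonneg m
  have hEm : 0 ≤ EE μ s m := by linarith [one_le_EE (μ := μ) (s := s) m]
  obtain ⟨w1, w2⟩ := hw b m b5 m1
  have e1 := hE m (b * m) m2 hmb
  rw [er] at e1
  have e2 := (hE' m (b * m) hm1 hmb).2.2
  rw [er, (heq m m3).2.1, (heq (b * m) (m3.trans hmb)).2.1] at e2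
  refine ⟨?_, ?_, ?_, ?_⟩
  · refine le_trans (mul_le_mul_of_nonneg_right ?_ hwm) w1
    have := (div_le_iff₀ hk).1 (g1 b b1)
    linarith
  · refine le_trans (mul_le_mul_of_nonneg_right ?_ hEm) e1
    have := (div_le_iff₀ hk').1 (g2 b b2)
    linarith
  · have h1 := g3 b b3
    have h2 : (b : ℝ) = (b : ℝ) ^ b' * (b : ℝ) ^ (1 - b') := by
      rw [← Real.rpow_add hb0']
      norm_num
    have h3 : M * (K * (b : ℝ) ^ b') ≤ b := by
      conv_rhs => rw [h2]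
      have h4 := mul_le_mul_of_nonneg_left h1 (Real.rpow_nonneg hb0'.le b')
      linarith
    calc M * wd μ s (b * m) ≤ M * (K * (b : ℝ) ^ b' * wd μ s m) := mul_le_mul_of_nonneg_left w2 hM
      _ = M * (K * (b : ℝ) ^ b') * wd μ s m := by ring
      _ ≤ _ := mul_le_mul_of_nonneg_right h3 hwm
  · have h1 := g4 b b4
    rw [← Real.sqrt_eq_rpow] at h1
    have h3 : M * (K'' * Real.sqrt b) ≤ b := by
      have h4 := mul_le_mul_of_nonneg_left h1 (Real.sqrt_nonneg (b : ℝ))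
      have h5 : Real.sqrt (b : ℝ) * Real.sqrt b = b := Real.mul_self_sqrt hb0'.le
      nlinarith
    calc M * EE μ s (b * m) ≤ M * (K'' * Real.sqrt b * EE μ s m) := mul_le_mul_of_nonneg_left e2 hM
      _ = M * (K'' * Real.sqrt b) * EE μ s m := by ring
      _ ≤ _ := mul_le_mul_of_nonneg_right h3 hEm

end

end Pool.Agent.W_7d29a1_C1
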