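import Pool.Agent.W_7d29a1_C1.TunC20
import Pool.Agent.W_7d29a1_C1.TunN20

/-!
MP_7d29a1_pr, [C1] TUNED SLAB LEMMA: small lemmas of the assembly. (helper20)
-/

set_option autoImplicit false

namespace Pool.Agent.W_7d29a1_C1

open MeasureTheory ProbabilityTheory Filter Topology
open Pool.Agent.W_7d29a1_F Pool.Agent.W_7d29a1_h4g Pool.Agent.W_7d29a1_H Pool.Agent.W_7d29a1_HS
open Pool.Agent.W_7d29a1_HR (Dec)
open Pool.Agent.W_7d29a1_C1.F31 (DecO FinO IncO)
open Pool.Agent.W_7d29a1_C1.S71 (Off gl)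
open Pool.Agent.W_7d29a1_C1.T26

noncomputable section

variable {μ : Measure ℝ} {s : ℝ} {ι : Type}

/-- The level of the cells of half width `r`: every kernel between the cells of one lane is at most `e ^ d` times the lane. -/
def CELL20 (μ : Measure ℝ) (s : ℝ) {ι : Type} (a e : ι → ℤ) (T : ℕ) (r d : ℝ) : Set Env :=
  {η | ∀ (j : ι) (x y : ℤ), |(x : ℝ) - a j| ≤ r → |(y : ℝ) - e j| ≤ r →
    W μ s η ((0 : ℤ), x) T (y - x) ≤ Real.exp d * W μ s η ((0 : ℤ), a j) T (e j - a j)}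

/-- The difference of the levels of the lanes `j₁`, `j₀` is `t` up to `d`. -/
def DIF20 (μ : Measure ℝ) (s : ℝ) {ι : Type} (a e : ι → ℤ) (T : ℕ) (j₁ j₀ : ι) (t d : ℝ) : Set Env :=
  {η | |Real.log (W μ s η ((0 : ℤ), a j₁) T (e j₁ - a j₁)) - Real.log (W μ s η ((0 : ℤ), a j₀) T (e j₀ - a j₀)) - t| ≤ d}

theorem meas_CELL20 {ι : Type} [Countable ι] (a e : ι → ℤ) (T : ℕ) (r d : ℝ) : MeasurableSet (CELL20 μ s a e T r d) := by
  have e1 : CELL20 μ s a e T r d = ⋂ (j : ι) (x : ℤ) (y : ℤ) (_ : |(x : ℝ) - a j| ≤ r) (_ : |(y : ℝ) - e j| ≤ r),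
      {η | W μ s η ((0 : ℤ), x) T (y - x) ≤ Real.exp d * W μ s η ((0 : ℤ), a j) T (e j - a j)} := by
    ext η
    simp only [CELL20, Set.mem_ofPred_eq, Set.mem_iInter]
  rw [e1]
  exact MeasurableSet.iInter fun j => MeasurableSet.iInter fun x => MeasurableSet.iInter fun y => MeasurableSet.iInter fun _ =>
    MeasurableSet.iInter fun _ => measurableSet_le (measurable_W _ _ _) ((measurable_W _ _ _).const_mul _)

theorem on_CELL20 {ι : Type} (a e : ι → ℤ) (T : ℕ) (r d : ℝ) : On20 (rows 0 (0 + T)) (CELL20 μ s a e T r d) := by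
  intro η η' hh
  have hW : ∀ (x y : ℤ), W μ s η ((0 : ℤ), x) T y = W μ s η' ((0 : ℤ), x) T y := fun x y =>
    W_dep_rows (μ := μ) (s := s) ((0 : ℤ), x) T y fun p hp => hh p hp
  unfold CELL20
  simp only [Set.mem_ofPred_eq, hW]

theorem meas_DIF20 {ι : Type} (a e : ι → ℤ) (T : ℕ) (j₁ j₀ : ι) (t d : ℝ) : MeasurableSet (DIF20 μ s a e T j₁ j₀ t d) := by
  have h1 : Measurable fun η : Env => |Real.log (W μ s η ((0 : ℤ), a j₁) T (e j₁ - a j₁)) -
      Real.log (W μ s η ((0 : ℤ), a j₀) T (e j₀ - a j₀)) - t| :=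
    continuous_abs.measurable.comp ((((Real.measurable_log.comp (measurable_W _ _ _))).sub
      (Real.measurable_log.comp (measurable_W _ _ _))).sub_const t)
  exact measurableSet_le h1 measurable_const

theorem on_DIF20 {ι : Type} (a e : ι → ℤ) (T : ℕ) (j₁ j₀ : ι) (t d : ℝ) : On20 (rows 0 (0 + T)) (DIF20 μ s a e T j₁ j₀ t d) := by
  intro η η' hh
  have hW : ∀ (x y : ℤ), W μ s η ((0 : ℤ), x) T y = W μ s η' ((0 : ℤ), x) T y := fun x y =>
    W_dep_rows (μ := μ) (s := s) ((0 : ℤ), x) T y fun p hp => hh p hp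
  unfold DIF20
  simp only [Set.mem_ofPred_eq, hW]

/-- A conjunction of events of the sub blocks is kept by the splices. -/
theorem splice_row20 {F : ℕ → Set Env} {n N' m b : ℕ} (hm : m = N' * n) (hN : 1 ≤ N')
    (hF : ∀ i, On20 (rows ((i * n : ℕ) : ℤ) (((i * n : ℕ) : ℤ) + n)) (F i)) {x y : Env}
    (hx : x ∈ ⋂ i ∈ Finset.range (b * N'), F i) (hy : y ∈ ⋂ i ∈ Finset.range (b * N'), F i) (i₀ : ℕ) :
    gl (Qs20 m b i₀) x y ∈ ⋂ i ∈ Finset.range (b * N'), F i := by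
  refine Set.mem_iInter₂.2 fun i hi => ?_
  have hi1 := Finset.mem_range.1 hi
  have hib : i / N' < b := Nat.div_lt_of_lt_mul (by rw [Nat.mul_comm]; exact hi1)
  have h1 : i / N' * m ≤ i * n := by
    rw [hm, ← Nat.mul_assoc]
    exact Nat.mul_le_mul_right n (Nat.div_mul_le_self i N')
  have h2 : i * n + n ≤ i / N' * m + m := by
    have h3 : i + 1 ≤ (i / N' + 1) * N' := Nat.succ_le_of_lt (by
      have := Nat.lt_div_mul_add (a := i) (b := N') (by omega)
      linarith)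
    have h4 : (i + 1) * n ≤ (i / N' + 1) * N' * n := Nat.mul_le_mul_right n h3
    have h5 : (i / N' + 1) * N' * n = i / N' * m + m := by rw [hm]; ring
    linarith
  have hsub : rows ((i * n : ℕ) : ℤ) (((i * n : ℕ) : ℤ) + n) ⊆ rows ((i / N' * m : ℕ) : ℤ) (((i / N' * m : ℕ) : ℤ) + m) := by
    rintro q ⟨q1, q2⟩
    have h3 : ((i / N' * m : ℕ) : ℤ) ≤ ((i * n : ℕ) : ℤ) := by exact_mod_cast h1
    have h4 : ((i * n : ℕ) : ℤ) + n ≤ ((i / N' * m : ℕ) : ℤ) + m := by exact_mod_cast h2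
    exact ⟨lt_of_le_of_lt h3 q1, q2.trans h4⟩
  have h3 := (splice20 (b := b) (i := i₀) (x := x) (y := y) hib ((hF i).mono hsub)).2
  refine h3 ?_
  split_ifs
  · exact Set.mem_iInter₂.1 hx i hi
  · exact Set.mem_iInter₂.1 hy i hi

/-- The error. -/
theorem er_num20 {U' G E : ℝ} {N b : ℕ} (hE : 2 * (N : ℝ) + 1 ≤ E) (hbN : b ≤ N) (hG : 0 ≤ G) :
    er20 N (U' * E) ((2 * U' + G + 3) * E) ((G + 2) * E) ≤ Real.exp (-(G * E)) ∧
      b * er20 N (U' * E) ((2 * U' + G + 3) * E) ((G + 2) * E) ≤ 1 := by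
  have hN0 : (0 : ℝ) ≤ N := Nat.cast_nonneg N
  have hb0 : (0 : ℝ) ≤ b := Nat.cast_nonneg b
  have hbN' : (b : ℝ) ≤ N := by exact_mod_cast hbN
  have hE0 : 0 ≤ E := by linarith
  have e1 : er20 N (U' * E) ((2 * U' + G + 3) * E) ((G + 2) * E) ≤ Real.exp (-((G + 1) * E)) := by
    unfold er20
    have e1 : Real.exp (U' * E) * (2 * Real.exp (-((2 * U' + G + 3) * E))) * Real.exp (U' * E) = 2 * Real.exp (-((G + 3) * E)) := by
      have : Real.exp (-((G + 3) * E)) = Real.exp (U' * E) * Real.exp (-((2 * U' + G + 3) * E)) * Real.exp (U' * E) := by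
        rw [← Real.exp_add, ← Real.exp_add]
        congr 1
        ring
      rw [this]
      ring
    rw [e1]
    have e2 : Real.exp (-((G + 3) * E)) ≤ Real.exp (-((G + 2) * E)) := Real.exp_le_exp.2 (by nlinarith)
    have e3 : Real.exp (-((G + 1) * E)) = Real.exp E * Real.exp (-((G + 2) * E)) := by
      rw [← Real.exp_add]
      congr 1
      ring
    have e4 : 2 * (N : ℝ) + 1 ≤ Real.exp E := hE.trans (by linarith [Real.add_one_le_exp E])
    have e5 := Real.exp_pos (-((G + 2) * E))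
    rw [e3]
    have e6 : (N : ℝ) * (2 * Real.exp (-((G + 3) * E))) ≤ N * (2 * Real.exp (-((G + 2) * E))) :=
      mul_le_mul_of_nonneg_left (by linarith) hN0
    nlinarith
  refine ⟨e1.trans (Real.exp_le_exp.2 (by nlinarith)), ?_⟩
  have e2 : (b : ℝ) ≤ Real.exp E := by linarith [Real.add_one_le_exp E]
  calc (b : ℝ) * er20 N (U' * E) ((2 * U' + G + 3) * E) ((G + 2) * E) ≤ Real.exp E * Real.exp (-((G + 1) * E)) :=
        mul_le_mul e2 e1 (by unfold er20; positivity) (Real.exp_nonneg _)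
    _ = Real.exp (-(G * E)) := by
        rw [← Real.exp_add]
        congr 1
        ring
    _ ≤ 1 := by
        rw [Real.exp_le_one_iff]
        have := mul_nonneg hG hE0
        linarith

/-- The constant of the cells. -/
theorem cell_num20 {k E X : ℝ} (hk : 0 ≤ k) (hE : 1 ≤ E) (hX : (3 + 2 * k) * E ≤ X) :
    2 * (1 + 2 * Real.exp (k * E)) ^ 2 ≤ Real.exp X := by
  have h1 : 1 ≤ Real.exp (k * E) := Real.one_le_exp (mul_nonneg hk (by linarith))
  have h2 : 2 * (1 + 2 * Real.exp (k * E)) ^ 2 ≤ 18 * Real.exp (k * E) ^ 2 := by nlinarith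
  have h3 : Real.exp (k * E) ^ 2 = Real.exp (2 * k * E) := by
    rw [← Real.exp_nat_mul]
    congr 1
    push_cast
    ring
  have h4 : (18 : ℝ) ≤ Real.exp (3 * E) := by
    have h5 : (2.7 : ℝ) ≤ Real.exp 1 := by
      have := Real.exp_one_gt_d9
      linarith
    have h6 : Real.exp 1 ^ 3 = Real.exp 3 := by
      rw [← Real.exp_nat_mul]
      norm_num
    have h7 : (2.7 : ℝ) ^ 3 ≤ Real.exp 1 ^ 3 := pow_le_pow_left₀ (by norm_num) h5 3
    rw [h6] at h7
    have h8 : Real.exp 3 ≤ Real.exp (3 * E) := Real.exp_le_exp.2 (by linarith)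
    have h9 : (18 : ℝ) ≤ 2.7 ^ 3 := by norm_num
    linarith
  calc 2 * (1 + 2 * Real.exp (k * E)) ^ 2 ≤ 18 * Real.exp (2 * k * E) := by rw [← h3]; exact h2
    _ ≤ Real.exp (3 * E) * Real.exp (2 * k * E) := mul_le_mul_of_nonneg_right h4 (Real.exp_nonneg _)
    _ = Real.exp ((3 + 2 * k) * E) := by
        rw [← Real.exp_add]
        congr 1
        ring
    _ ≤ _ := Real.exp_le_exp.2 hX

end

end Pool.Agent.W_7d29a1_C1
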