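import Pool.Agent.W_7d29a1_C1.TunA20
import Pool.Agent.W_7d29a1_C1.TunD26
import Pool.Agent.W_7d29a1_C1.SlabG20

/-!
MP_7d29a1_pr, [C1] TUNED SLAB LEMMA: the coarse points of the lanes and the block events of all the lanes. (helper20)
-/

set_option autoImplicit false

namespace Pool.Agent.W_7d29a1_C1

open MeasureTheory ProbabilityTheory Filter Topology
open Pool.Agent.W_7d29a1_F Pool.Agent.W_7d29a1_h4g Pool.Agent.W_7d29a1_H Pool.Agent.W_7d29a1_HS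
open Pool.Agent.W_7d29a1_HR (Dec)
open Pool.Agent.W_7d29a1_C1.F31 (DecO FinO IncO)
open Pool.Agent.W_7d29a1_C1.S71 (Off gl)
open Pool.Agent.W_7d29a1_C1.T26

noncomputable section

variable {μ : Measure ℝ} {s : ℝ} {ι : Type}

/-- The coarse points of the lane `j` at the rows `i m`, `i ≤ b`. -/
def cp20 (a e : ι → ℤ) (b : ℕ) (j : ι) (i : ℕ) : ℤ := ⌊(a j : ℝ) + ((e j : ℝ) - a j) * ((i : ℝ) / b)⌋

theorem cp20_zero (a e : ι → ℤ) (b : ℕ) (j : ι) : cp20 a e b j 0 = a j := by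
  unfold cp20
  simp

theorem cp20_end (a e : ι → ℤ) {b : ℕ} (hb : 1 ≤ b) (j : ι) : cp20 a e b j b = e j := by
  unfold cp20
  have : (b : ℝ) ≠ 0 := by
    have : (0 : ℝ) < b := by exact_mod_cast hb
    exact this.ne'
  rw [div_self this, mul_one, add_sub_cancel, Int.floor_intCast]

theorem cp20_line (a e : ι → ℤ) {b m : ℕ} (hm : 1 ≤ m) (j : ι) (i : ℕ) :
    sl20 a e (b * m) j ((i * m : ℕ) : ℝ) = (a j : ℝ) + ((e j : ℝ) - a j) * ((i : ℝ) / b) := by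
  unfold sl20
  have hm' : (m : ℝ) ≠ 0 := by
    have : (0 : ℝ) < m := by exact_mod_cast hm
    exact this.ne'
  congr 2
  push_cast
  exact mul_div_mul_right _ _ hm'

theorem cp20_near (a e : ι → ℤ) {b m : ℕ} (hm : 1 ≤ m) (j : ι) (i : ℕ) :
    (cp20 a e b j i : ℝ) ≤ sl20 a e (b * m) j ((i * m : ℕ) : ℝ) ∧
      sl20 a e (b * m) j ((i * m : ℕ) : ℝ) < cp20 a e b j i + 1 := by
  rw [cp20_line a e hm j i]
  exact ⟨Int.floor_le _, Int.lt_floor_add_one _⟩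

theorem cp20_abs (a e : ι → ℤ) {b m : ℕ} (hm : 1 ≤ m) (j : ι) (i : ℕ) :
    |sl20 a e (b * m) j ((i * m : ℕ) : ℝ) - cp20 a e b j i| ≤ 1 := by
  have h := cp20_near a e (b := b) hm j i
  rw [abs_le]
  constructor <;> linarith [h.1, h.2]

/-- The displacement of one block. -/
theorem cp20_step {a e : ι → ℤ} {b m : ℕ} (hm : 1 ≤ m) (hb : 1 ≤ b) {v k w : ℝ} {j : ι}
    (hdr : Drift20 v (b * m) k (sl20 a e (b * m))) (hw : k + b ≤ b * w) {i : ℕ} (hi : i < b) :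
    |((cp20 a e b j (i + 1) - cp20 a e b j i : ℤ) : ℝ) - v * m| ≤ w := by
  have hb' : (0 : ℝ) < b := by exact_mod_cast hb
  have hm' : (0 : ℝ) < m := by exact_mod_cast hm
  have h1 := hdr j ((i * m : ℕ) : ℝ) (((i + 1) * m : ℕ) : ℝ) (Nat.cast_nonneg _) (by
    exact_mod_cast Nat.mul_le_mul_right m (Nat.le_succ i)) (by
    exact_mod_cast Nat.mul_le_mul_right m (by omega : i + 1 ≤ b))
  have e1 : (((i + 1) * m : ℕ) : ℝ) - ((i * m : ℕ) : ℝ) = m := by push_cast; ring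
  rw [e1] at h1
  have e2 : k * ((m : ℝ) / ((b * m : ℕ) : ℝ)) = k / b := by
    push_cast
    field_simp
  rw [e2] at h1
  have n1 := cp20_near a e (b := b) hm j i
  have n2 := cp20_near a e (b := b) hm j (i + 1)
  have h2 : k / b + 1 ≤ w := by
    rw [div_add_one hb'.ne', div_le_iff₀ hb']
    linarith
  push_cast at h1 n1 n2 ⊢
  rw [abs_le] at h1 ⊢
  constructor <;> linarith [h1.1, h1.2, n1.1, n1.2, n2.1, n2.2]

/-- The separation of the coarse points. -/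
theorem cp20_sep {a e : ι → ℤ} {b m : ℕ} (hm : 1 ≤ m) {d : ℝ} {j j' : ι} {i : ℕ}
    (h : d ≤ |sl20 a e (b * m) j ((i * m : ℕ) : ℝ) - sl20 a e (b * m) j' ((i * m : ℕ) : ℝ)|) :
    d - 1 ≤ |((cp20 a e b j i : ℤ) : ℝ) - cp20 a e b j' i| := by
  have n1 := cp20_near a e (b := b) hm j i
  have n2 := cp20_near a e (b := b) hm j' i
  have h1 : |sl20 a e (b * m) j ((i * m : ℕ) : ℝ) - sl20 a e (b * m) j' ((i * m : ℕ) : ℝ)| ≤
      |((cp20 a e b j i : ℤ) : ℝ) - cp20 a e b j' i| + 1 := by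
    rcases le_total 0 (sl20 a e (b * m) j ((i * m : ℕ) : ℝ) - sl20 a e (b * m) j' ((i * m : ℕ) : ℝ)) with h2 | h2
    · rw [abs_of_nonneg h2]
      linarith [le_abs_self (((cp20 a e b j i : ℤ) : ℝ) - cp20 a e b j' i), n1.1, n1.2, n2.1, n2.2]
    · rw [abs_of_nonpos h2]
      linarith [neg_abs_le (((cp20 a e b j i : ℤ) : ℝ) - cp20 a e b j' i), n1.1, n1.2, n2.1, n2.2]
  linarith

/-- The strip of one block is in the protected strip of its lane. -/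
theorem cp20_strip {a e : ι → ℤ} {b m : ℕ} (hm : 1 ≤ m) (hb : 1 ≤ b) {k r₀ r : ℝ} {j : ι} (hk : 0 ≤ k)
    (hdr : Drift20 (sl μ s) (b * m) k (sl20 a e (b * m))) (hr : r₀ + 1 + k / b ≤ r) {i : ℕ} (hi : i < b) {q : Pt}
    (hq : |((q.2 - cp20 a e b j i : ℤ) : ℝ) - sl μ s * ((q.1 - ((i * m : ℕ) : ℤ) : ℤ) : ℝ)| ≤ r₀)
    (hq1 : ((i * m : ℕ) : ℤ) < q.1) (hq2 : q.1 ≤ ((i * m : ℕ) : ℤ) + m) : q ∈ PS20 (sl20 a e (b * m)) r := by
  refine ⟨j, ?_⟩
  have hb' : (0 : ℝ) < b := by exact_mod_cast hb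
  have hm' : (0 : ℝ) < m := by exact_mod_cast hm
  have g1 : ((i * m : ℕ) : ℝ) ≤ (q.1 : ℝ) := by exact_mod_cast hq1.le
  have g2 : (q.1 : ℝ) ≤ ((i * m : ℕ) : ℝ) + m := by exact_mod_cast hq2
  have g3 : ((i * m : ℕ) : ℝ) + m ≤ ((b * m : ℕ) : ℝ) := by
    have : i * m + m ≤ b * m := by
      have : (i + 1) * m ≤ b * m := Nat.mul_le_mul_right m hi
      linarith
    exact_mod_cast this
  have h1 := hdr j ((i * m : ℕ) : ℝ) (q.1 : ℝ) (Nat.cast_nonneg _) g1 (g2.trans g3)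
  have h2 : k * (((q.1 : ℝ) - ((i * m : ℕ) : ℝ)) / ((b * m : ℕ) : ℝ)) ≤ k / b := by
    rw [div_eq_mul_one_div k (b : ℝ)]
    refine mul_le_mul_of_nonneg_left ?_ hk
    rw [div_le_div_iff₀ (by push_cast; positivity) hb', one_mul]
    push_cast at g2 ⊢
    nlinarith
  have n1 := cp20_near a e (b := b) hm j i
  have h3 := h1.trans h2
  have e1 : ((q.1 - ((i * m : ℕ) : ℤ) : ℤ) : ℝ) = (q.1 : ℝ) - ((i * m : ℕ) : ℝ) := by push_cast; ring
  have e2 : ((q.2 - cp20 a e b j i : ℤ) : ℝ) = (q.2 : ℝ) - cp20 a e b j i := by push_cast; ring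
  rw [e1, e2] at hq
  rw [abs_le] at hq h3 ⊢
  constructor <;> linarith [hq.1, hq.2, h3.1, h3.2, n1.1, n1.2]

/-! ### Events seen from another site -/

theorem DecO.at20 {S S' : Set Pt} {E : Set Env} (h : DecO S E) (b : Pt) (hS : ∀ p ∈ S, p + b ∈ S') : DecO S' (at20 b E) := by
  intro η η' h1 h2 h3
  refine h (sh b η) (sh b η') (fun p => h1 (p + b)) (fun p hp => h2 (p + b) (hS p hp)) h3

/-- All the block events of all the lanes. -/
def AB20 (Bk : Bool → ℤ → Set Env) (a e : ι → ℤ) (m b : ℕ) (τ : ι → ℕ → Bool) : Set Env :=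
  {η | ∀ j, η ∈ LB20 Bk m b (cp20 a e b j) (τ j)}

/-- The block events of one row of blocks. -/
def RB20 (Bk : Bool → ℤ → Set Env) (a e : ι → ℤ) (m b : ℕ) (τ : ι → ℕ → Bool) (i : ℕ) : Set Env :=
  ⋂ j, at20 (((i * m : ℕ) : ℤ), cp20 a e b j i) (Bk (τ j i) (cp20 a e b j (i + 1) - cp20 a e b j i))

theorem AB20_eq (Bk : Bool → ℤ → Set Env) (a e : ι → ℤ) (m b : ℕ) (τ : ι → ℕ → Bool) :
    AB20 Bk a e m b τ = {η | ∀ i ∈ Finset.range b, η ∈ RB20 Bk a e m b τ i} := by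
  ext η
  constructor
  · intro h i hi
    exact Set.mem_iInter.2 fun j => h j i (Finset.mem_range.1 hi)
  · intro h j i hi
    exact Set.mem_iInter.1 (h i (Finset.mem_range.2 hi)) j

variable {m : ℕ} {k₀ k₁ k₃ KL KU c₄ A Rp S pp : ℝ} {ρ : ℤ} {Bk : Bool → ℤ → Set Env}

theorem meas_RB20 [Countable ι] (hB : B12.BlkD μ s m k₀ k₁ k₃ KL KU c₄ A Rp S pp ρ Bk) (a e : ι → ℤ) (b : ℕ) (τ : ι → ℕ → Bool)
    (i : ℕ) : MeasurableSet (RB20 Bk a e m b τ i) :=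
  MeasurableSet.iInter fun _ => meas_at20 _ (hB.meas _ _)

theorem on_RB20 (hB : B12.BlkD μ s m k₀ k₁ k₃ KL KU c₄ A Rp S pp ρ Bk) (a e : ι → ℤ) (b : ℕ) (τ : ι → ℕ → Bool)
    (i : ℕ) : On20 (rows ((i * m : ℕ) : ℤ) (((i * m : ℕ) : ℤ) + m)) (RB20 Bk a e m b τ i) := by
  refine On20.iInter fun j => ?_
  have h1 : On20 (rows 0 (0 + m)) (Bk (τ j i) (cp20 a e b j (i + 1) - cp20 a e b j i)) := by
    rw [zero_add]
    exact hB.row _ _
  exact on_at20' (((i * m : ℕ) : ℤ), cp20 a e b j i) h1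

theorem meas_AB20 [Countable ι] (hB : B12.BlkD μ s m k₀ k₁ k₃ KL KU c₄ A Rp S pp ρ Bk) (a e : ι → ℤ) (b : ℕ) (τ : ι → ℕ → Bool) :
    MeasurableSet (AB20 Bk a e m b τ) := by
  have e1 : AB20 Bk a e m b τ = ⋂ i ∈ Finset.range b, RB20 Bk a e m b τ i := by
    rw [AB20_eq]
    ext η
    simp only [Set.mem_ofPred_eq, Set.mem_iInter]
  rw [e1]
  exact Finset.measurableSet_biInter _ fun i _ => meas_RB20 hB a e b τ i

theorem rows_disj20 {m : ℕ} {i i' : ℕ} (h : i ≠ i') :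
    Disjoint (rows ((i * m : ℕ) : ℤ) (((i * m : ℕ) : ℤ) + m)) (rows ((i' * m : ℕ) : ℤ) (((i' * m : ℕ) : ℤ) + m)) := by
  rw [Set.disjoint_left]
  rintro q ⟨h1, h2⟩ ⟨h3, h4⟩
  rcases lt_or_gt_of_ne h with h5 | h5
  · have h6 : (i + 1) * m ≤ i' * m := Nat.mul_le_mul_right m h5
    have h7 : (((i + 1) * m : ℕ) : ℤ) ≤ ((i' * m : ℕ) : ℤ) := by exact_mod_cast h6
    have h8 : (((i + 1) * m : ℕ) : ℤ) = ((i * m : ℕ) : ℤ) + m := by push_cast; ring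
    omega
  · have h6 : (i' + 1) * m ≤ i * m := Nat.mul_le_mul_right m h5
    have h7 : (((i' + 1) * m : ℕ) : ℤ) ≤ ((i * m : ℕ) : ℤ) := by exact_mod_cast h6
    have h8 : (((i' + 1) * m : ℕ) : ℤ) = ((i' * m : ℕ) : ℤ) + m := by push_cast; ring
    omega

theorem prob_AB20 [IsProbabilityMeasure μ] [Fintype ι] (hι : Fintype.card ι ≤ 2)
    (hB : B12.BlkD μ s m k₀ k₁ k₃ KL KU c₄ A Rp S pp ρ Bk) (hp : 0 ≤ pp) (hm : 1 ≤ m) {b : ℕ} (hb : 1 ≤ b) {a e : ι → ℤ} {k d : ℝ}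
    (hdr : Drift20 (sl μ s) (b * m) k (sl20 a e (b * m))) (hw : k + b ≤ b * wd μ s m)
    (hsep : ∀ j j', j ≠ j' → ((a j : ℝ) + d ≤ a j' ∧ (e j : ℝ) + d ≤ e j') ∨ ((a j' : ℝ) + d ≤ a j ∧ (e j' : ℝ) + d ≤ e j))
    (hd : S * wd μ s m + 1 ≤ d) (τ : ι → ℕ → Bool) : pp ^ b ≤ (law μ).real (AB20 Bk a e m b τ) := by
  have hT : 1 ≤ b * m := Nat.mul_pos hb hm
  rw [AB20_eq]
  have h1 := prod20 (μ := μ) (Finset.range b) (fun i => RB20 Bk a e m b τ i)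
    (fun i => rows ((i * m : ℕ) : ℤ) (((i * m : ℕ) : ℤ) + m)) (fun _ => pp) (fun _ _ => hp)
    (fun i _ => meas_RB20 hB a e b τ i) (fun i _ => on_RB20 hB a e b τ i) (fun i _ i' _ h => rows_disj20 h) (fun i hi => by
      rw [Finset.mem_range] at hi
      refine (hB.prob ι hι ((i * m : ℕ) : ℤ) (fun j => cp20 a e b j i) (fun j => cp20 a e b j (i + 1) - cp20 a e b j i)
        (fun j => τ j i) (fun j => cp20_step hm hb hdr hw hi) (fun j j' hj => ?_)).trans (le_of_eq ?_)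
      · have t1 : ((i * m : ℕ) : ℝ) ≤ ((b * m : ℕ) : ℝ) := by
          exact_mod_cast Nat.mul_le_mul_right m hi.le
        have h2 := cp20_sep hm (sep_sl20 hT hsep hj (t := ((i * m : ℕ) : ℝ)) (Nat.cast_nonneg _) t1)
        linarith
      · congr 1)
  rw [Finset.prod_const, Finset.card_range] at h1
  exact h1

theorem dec_AB20 (hB : B12.BlkD μ s m k₀ k₁ k₃ KL KU c₄ A Rp S pp ρ Bk) (hm : 1 ≤ m) {b : ℕ} (hb : 1 ≤ b) {a e : ι → ℤ}
    {k r : ℝ} (hk : 0 ≤ k) (hdr : Drift20 (sl μ s) (b * m) k (sl20 a e (b * m))) (hr : Rp * wd μ s m + 1 + k / b ≤ r)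
    (τ : ι → ℕ → Bool) : DecO (PS20 (sl20 a e (b * m)) r) (AB20 Bk a e m b τ) := by
  intro η η' h1 h2 h3 j i hi
  refine DecO.at20 (S' := PS20 (sl20 a e (b * m)) r) (hB.dec (τ j i) (cp20 a e b j (i + 1) - cp20 a e b j i))
    (((i * m : ℕ) : ℤ), cp20 a e b j i) (fun p hp => ?_) η η' h1 h2 (h3 j i hi)
  obtain ⟨hp1, hp2, hp3⟩ := hp
  refine cp20_strip hm hb hk hdr hr (j := j) hi ?_ ?_ ?_
  · have h4 : |((p.2 - (0 : Pt).2 : ℤ) : ℝ) - sl μ s * ((p.1 - (0 : Pt).1 : ℤ) : ℝ)| ≤ Rp * wd μ s m := hp1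
    have e1 : (p + (((i * m : ℕ) : ℤ), cp20 a e b j i)).2 - cp20 a e b j i = p.2 - (0 : Pt).2 := by
      show p.2 + cp20 a e b j i - cp20 a e b j i = p.2 - 0
      ring
    have e2 : (p + (((i * m : ℕ) : ℤ), cp20 a e b j i)).1 - ((i * m : ℕ) : ℤ) = p.1 - (0 : Pt).1 := by
      show p.1 + ((i * m : ℕ) : ℤ) - ((i * m : ℕ) : ℤ) = p.1 - 0
      ring
    rw [e1, e2]
    exact h4
  · show ((i * m : ℕ) : ℤ) < p.1 + ((i * m : ℕ) : ℤ)
    have : (0 : ℤ) < p.1 := hp2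
    omega
  · show p.1 + ((i * m : ℕ) : ℤ) ≤ ((i * m : ℕ) : ℤ) + m
    have : p.1 ≤ (m : ℤ) := hp3
    omega

/-! ### Splices -/

/-- The sites of the first copy in the splice `i`: the rows above `i m`. -/
def Qs20 (m b : ℕ) (i : ℕ) : Set Pt := if i = 0 then Set.univ else if b ≤ i then ∅ else {q | ((i * m : ℕ) : ℤ) < q.1}

theorem Qs20_zero (m b : ℕ) : Qs20 m b 0 = Set.univ := by
  unfold Qs20
  rw [if_pos rfl]

theorem Qs20_end (m : ℕ) {b : ℕ} (hb : 1 ≤ b) : Qs20 m b b = ∅ := by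
  unfold Qs20
  rw [if_neg (by omega), if_pos le_rfl]

/-- The rows of the block `i'`. -/
theorem Qs20_hi (m : ℕ) {b i i' : ℕ} (h : i ≤ i') (hb : i' < b) {q : Pt}
    (hq : q ∈ rows ((i' * m : ℕ) : ℤ) (((i' * m : ℕ) : ℤ) + m)) : q ∈ Qs20 m b i := by
  unfold Qs20
  split_ifs with h1 h2
  · exact Set.mem_univ _
  · omega
  · show ((i * m : ℕ) : ℤ) < q.1
    have h3 : ((i * m : ℕ) : ℤ) ≤ ((i' * m : ℕ) : ℤ) := by exact_mod_cast Nat.mul_le_mul_right m h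
    have h4 : ((i' * m : ℕ) : ℤ) < q.1 := hq.1
    omega

theorem Qs20_lo (m : ℕ) {b i i' : ℕ} (h : i' < i) {q : Pt}
    (hq : q ∈ rows ((i' * m : ℕ) : ℤ) (((i' * m : ℕ) : ℤ) + m)) : q ∉ Qs20 m b i := by
  unfold Qs20
  rw [if_neg (by omega)]
  split_ifs with h2
  · exact Set.notMem_empty _
  · intro h3
    have h4 : ((i * m : ℕ) : ℤ) < q.1 := h3
    have h5 : (i' + 1) * m ≤ i * m := Nat.mul_le_mul_right m h
    have h6 : (((i' + 1) * m : ℕ) : ℤ) ≤ ((i * m : ℕ) : ℤ) := by exact_mod_cast h5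
    have h7 : (((i' + 1) * m : ℕ) : ℤ) = ((i' * m : ℕ) : ℤ) + m := by push_cast; ring
    have h8 : q.1 ≤ ((i' * m : ℕ) : ℤ) + m := hq.2
    omega

/-- An event of the rows of the block `i'` under the splice `i`. -/
theorem splice20 {m b i i' : ℕ} (hi' : i' < b) {E : Set Env} {x y : Env}
    (hE : On20 (rows ((i' * m : ℕ) : ℤ) (((i' * m : ℕ) : ℤ) + m)) E) :
    gl (Qs20 m b i) x y ∈ E ↔ (if i ≤ i' then x else y) ∈ E := by
  refine hE _ _ fun q hq => ?_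
  split_ifs with h
  · exact S71.gl_of_mem (Qs20_hi m h hi' hq) x y
  · exact S71.gl_of_not_mem (Qs20_lo m (by omega) hq) x y

/-- The splices of good environments are good, the first `i` blocks are of the types of the second copy. -/
theorem splice_AB20 (hB : B12.BlkD μ s m k₀ k₁ k₃ KL KU c₄ A Rp S pp ρ Bk) {a e : ι → ℤ} {b : ℕ} {τ τ' : ι → ℕ → Bool}
    {x y : Env} (hx : x ∈ AB20 Bk a e m b τ) (hy : y ∈ AB20 Bk a e m b τ') (i : ℕ) :
    gl (Qs20 m b i) x y ∈ AB20 Bk a e m b (fun j i' => if i ≤ i' then τ j i' else τ' j i') := by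
  rw [AB20_eq] at hx hy ⊢
  intro i' hi'
  have hi := Finset.mem_range.1 hi'
  have h1 := (splice20 (b := b) (i := i) (x := x) (y := y) hi
    (on_RB20 hB a e b (fun j i' => if i ≤ i' then τ j i' else τ' j i') i')).2
  refine h1 ?_
  by_cases h : i ≤ i'
  · have e1 : RB20 Bk a e m b (fun j i' => if i ≤ i' then τ j i' else τ' j i') i' = RB20 Bk a e m b τ i' := by
      unfold RB20
      simp only [h, if_true]
    rw [e1, if_pos h]
    exact hx i' hi'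
  · have e1 : RB20 Bk a e m b (fun j i' => if i ≤ i' then τ j i' else τ' j i') i' = RB20 Bk a e m b τ' i' := by
      unfold RB20
      simp only [h, if_false]
    rw [e1, if_neg h]
    exact hy i' hi'

/-- Two consecutive splices agree off one row of blocks. -/
theorem splice_eq20 {m b i : ℕ} (x y : Env) {i' : ℕ} (hi' : i' < b) (hne : i' ≠ i) {q : Pt}
    (hq : q ∈ rows ((i' * m : ℕ) : ℤ) (((i' * m : ℕ) : ℤ) + m)) : gl (Qs20 m b (i + 1)) x y q = gl (Qs20 m b i) x y q := by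
  rcases lt_or_gt_of_ne hne with h | h
  · rw [S71.gl_of_not_mem (Qs20_lo m (by omega) hq), S71.gl_of_not_mem (Qs20_lo m h hq)]
  · rw [S71.gl_of_mem (Qs20_hi m (by omega) hi' hq), S71.gl_of_mem (Qs20_hi m (by omega) hi' hq)]

end

end Pool.Agent.W_7d29a1_C1
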