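import Pool.Agent.W_7d29a1_C1.Tun20

/-!
MP_7d29a1_pr, [C1] **THE TUNED SLAB EVENT** `TS20`: measurable, an event of the rows of the slab, at any base and under resampling of
any larger set of sites. (helper20)
-/

set_option autoImplicit false

namespace Pool.Agent.W_7d29a1_C1

open MeasureTheory ProbabilityTheory Filter Topology
open Pool.Agent.W_7d29a1_F Pool.Agent.W_7d29a1_h4g Pool.Agent.W_7d29a1_H Pool.Agent.W_7d29a1_HS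
open Pool.Agent.W_7d29a1_HR (Dec Fin')
open Pool.Agent.W_7d29a1_C1.S71 (Off gl)

noncomputable section

variable {μ : Measure ℝ} {s c C : ℝ} {n₀ : ℕ}

/-- The tuned slab event: window `ω`, cells `r`, lanes `≥ e ^ L`, off the lanes `≤ e ^ -G`, masses `≤ e ^ U`, level of the cells up to `e ^ d`,
difference of the lanes `j₁`, `j₀` equal to `t` up to `d`. -/
def TS20 (μ : Measure ℝ) (s : ℝ) {ι : Type} (a e : ι → ℤ) (T : ℕ) (ω r L G U d : ℝ) (j₁ j₀ : ι) (t : ℝ) : Set Env :=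
  SLAB20 μ s a e T ω r L G U ∩ (CELL20 μ s a e T r d ∩ DIF20 μ s a e T j₁ j₀ t d)

theorem meas_TS20 {ι : Type} [Countable ι] (a e : ι → ℤ) (T : ℕ) (ω r L G U d : ℝ) (j₁ j₀ : ι) (t : ℝ) :
    MeasurableSet (TS20 μ s a e T ω r L G U d j₁ j₀ t) :=
  (meas_SLAB20 a e T ω r L G U).inter ((meas_CELL20 a e T r d).inter (meas_DIF20 a e T j₁ j₀ t d))

theorem on_TS20 {ι : Type} (a e : ι → ℤ) (T : ℕ) (ω r L G U d : ℝ) (j₁ j₀ : ι) (t : ℝ) :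
    On20 (rows 0 (0 + T)) (TS20 μ s a e T ω r L G U d j₁ j₀ t) :=
  (on_SLAB20 a e T ω r L G U).inter ((on_CELL20 a e T r d).inter (on_DIF20 a e T j₁ j₀ t d))

/-- The literal content of the tuned slab event at the base `b`. -/
theorem mem_at_TS20 {ι : Type} (a e : ι → ℤ) (T : ℕ) (ω r L G U d : ℝ) (j₁ j₀ : ι) (t : ℝ) (b : Pt) (η : Env) :
    η ∈ at20 b (TS20 μ s a e T ω r L G U d j₁ j₀ t) ↔
      ((∀ j, Real.exp L ≤ W μ s η (b.1, a j + b.2) T (e j - a j)) ∧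
      (∀ (x y : ℤ), |(x : ℝ)| ≤ ω → (∀ j, ¬ (|(x : ℝ) - a j| ≤ r ∧ |(y : ℝ) - e j| ≤ r)) →
        W μ s η (b.1, x + b.2) T (y - x) ≤ Real.exp (-G)) ∧
      (∀ x : ℤ, |(x : ℝ)| ≤ ω → V μ s η (b.1, x + b.2) T ≤ U)) ∧
      (∀ (j : ι) (x y : ℤ), |(x : ℝ) - a j| ≤ r → |(y : ℝ) - e j| ≤ r →
        W μ s η (b.1, x + b.2) T (y - x) ≤ Real.exp d * W μ s η (b.1, a j + b.2) T (e j - a j)) ∧
      |Real.log (W μ s η (b.1, a j₁ + b.2) T (e j₁ - a j₁)) - Real.log (W μ s η (b.1, a j₀ + b.2) T (e j₀ - a j₀)) - t| ≤ d := by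
  have e1 : ∀ x : ℤ, (((0 : ℤ), x) : Pt) + b = (b.1, x + b.2) := fun x => by
    refine Prod.ext ?_ rfl
    show (0 : ℤ) + b.1 = b.1
    ring
  have h1 : η ∈ at20 b (TS20 μ s a e T ω r L G U d j₁ j₀ t) ↔ η ∈ at20 b (SLAB20 μ s a e T ω r L G U) ∧
      η ∈ at20 b (CELL20 μ s a e T r d) ∧ η ∈ at20 b (DIF20 μ s a e T j₁ j₀ t d) := Iff.rfl
  rw [h1, mem_at_SLAB20]
  unfold at20 CELL20 DIF20
  simp only [Set.mem_ofPred_eq, W_sh, e1]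

/-- **THE TUNED SLAB LEMMA at any base, everything else frozen**, together with any decreasing event `Z` of the rows of the slab, of
probability at least `1 - p`. -/
theorem tslab_gl20 [IsProbabilityMeasure μ] (h : In μ s c C n₀) (hBlk : B12.Blk μ s) {K₁ δ d δ' Kt : ℝ} (L : ℝ) (hK₁ : 0 ≤ K₁)
    (hδ : 0 < δ) (hd : 0 < d) (hδ' : 0 < δ') (hKt : 0 ≤ Kt) :
    ∃ κ p : ℝ, 0 < κ ∧ 0 < p ∧ ∀ K : ℝ, K₁ ≤ K → ∃ U : ℝ, 0 ≤ U ∧ ∀ G : ℝ, 0 ≤ G → ∃ (c₁ : ℝ) (Q n₁ : ℕ), 0 < c₁ ∧ 1 ≤ Q ∧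
      1 ≤ n₁ ∧ ∀ n : ℕ, n₁ ≤ n → ∃ r : ℝ, κ * wd μ s (Q * n) ≤ r ∧ r ≤ δ' * wd μ s (Q * n) ∧
      ∀ (ι : Type) [Fintype ι], Fintype.card ι ≤ 2 →
      ∀ a e : ι → ℤ, (∀ j, |(a j : ℝ)| ≤ K₁ * wd μ s (Q * n)) → (∀ j, |(e j : ℝ) - sl μ s * (Q * n : ℕ)| ≤ K₁ * wd μ s (Q * n)) →
        (∀ j j', j ≠ j' → ((a j : ℝ) + δ * wd μ s (Q * n) ≤ a j' ∧ (e j : ℝ) + δ * wd μ s (Q * n) ≤ e j') ∨
          ((a j' : ℝ) + δ * wd μ s (Q * n) ≤ a j ∧ (e j' : ℝ) + δ * wd μ s (Q * n) ≤ e j)) →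
        ∀ (j₁ j₀ : ι) (t : ℝ), |t| ≤ Kt * EE μ s (Q * n) → (j₁ = j₀ → t = 0) →
        ∀ Z : Set Env, MeasurableSet Z → Dec Z → (law μ).real Zᶜ ≤ p → On20 (rows 0 (0 + (Q * n : ℕ))) Z →
        ∀ (b : Pt) (B : Set Pt), rows b.1 (b.1 + (Q * n : ℕ)) ⊆ B → ∀ f : Env,
        c₁ ≤ (law μ).real {η | gl B η f ∈ at20 b (TS20 μ s a e (Q * n) (K * wd μ s (Q * n)) r (L * EE μ s (Q * n))
          (G * EE μ s (Q * n)) (U * EE μ s (Q * n)) (d * EE μ s (Q * n)) j₁ j₀ t ∩ Z)} := by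
  obtain ⟨κ, p, hκ, hp, hK⟩ := tslab20 h hBlk L hK₁ hδ hd hδ' hKt
  refine ⟨κ, p, hκ, hp, fun K hKK => ?_⟩
  obtain ⟨U, hU, hG⟩ := hK K hKK
  refine ⟨U, hU, fun G hG0 => ?_⟩
  obtain ⟨c₁, Q, n₁, hc₁, hQ, hn₁, hmain⟩ := hG G hG0
  refine ⟨c₁, Q, n₁, hc₁, hQ, hn₁, fun n hn => ?_⟩
  obtain ⟨r, hr1, hr2, hmain⟩ := hmain n hn
  refine ⟨r, hr1, hr2, fun ι _ hcard a e ha he hsep j₁ j₀ t ht ht0 Z mZ dZ pZ oZ b B hB f => ?_⟩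
  have h1 := hmain ι hcard a e ha he hsep j₁ j₀ t ht ht0 Z mZ dZ pZ
  have h2 := (on_TS20 (μ := μ) (s := s) a e (Q * n) (K * wd μ s (Q * n)) r (L * EE μ s (Q * n))
    (G * EE μ s (Q * n)) (U * EE μ s (Q * n)) (d * EE μ s (Q * n)) j₁ j₀ t).inter oZ
  rw [real_gl20 hB (on_at20' b h2) f, real_at20 b ((meas_TS20 a e (Q * n) _ _ _ _ _ _ j₁ j₀ t).inter mZ)]
  refine h1.trans (measureReal_mono (fun η hη => ?_) (measure_ne_top _ _))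
  exact ⟨⟨hη.1, hη.2.1, hη.2.2.1⟩, hη.2.2.2⟩

end

end Pool.Agent.W_7d29a1_C1
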