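import Pool.Agent.W_7d29a1_C1.TunT20
import Pool.Agent.W_7d29a1_C1.Blk12

/-!
MP_7d29a1_pr, [C1] **THE TUNED SLAB LEMMA, UNCONDITIONAL.** (helper20)

`tslabU20`, `tslabF20` (any base, everything else frozen): over `In` only, with helper12's block events (`Blk12`).
-/

set_option autoImplicit false

namespace Pool.Agent.W_7d29a1_C1

open MeasureTheory ProbabilityTheory Filter Topology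
open Pool.Agent.W_7d29a1_F Pool.Agent.W_7d29a1_h4g Pool.Agent.W_7d29a1_H Pool.Agent.W_7d29a1_HS
open Pool.Agent.W_7d29a1_HR (Dec Fin')
open Pool.Agent.W_7d29a1_C1.S71 (Off gl)

noncomputable section

variable {μ : Measure ℝ} {s c C : ℝ} {n₀ : ℕ}

/-- **THE TUNED SLAB LEMMA.** -/
theorem tslabU20 [IsProbabilityMeasure μ] (h : In μ s c C n₀) {K₁ δ d δ' Kt : ℝ} (L : ℝ) (hK₁ : 0 ≤ K₁)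
    (hδ : 0 < δ) (hd : 0 < d) (hδ' : 0 < δ') (hKt : 0 ≤ Kt) :
    ∃ κ p : ℝ, 0 < κ ∧ 0 < p ∧ ∀ K : ℝ, K₁ ≤ K → ∃ U : ℝ, 0 ≤ U ∧ ∀ G : ℝ, 0 ≤ G → ∃ (c₁ : ℝ) (Q n₁ : ℕ), 0 < c₁ ∧ 1 ≤ Q ∧
      1 ≤ n₁ ∧ ∀ n : ℕ, n₁ ≤ n → ∃ r : ℝ, κ * wd μ s (Q * n) ≤ r ∧ r ≤ δ' * wd μ s (Q * n) ∧
      ∀ (ι : Type) [Fintype ι], Fintype.card ι ≤ 2 →
      ∀ a e : ι → ℤ, (∀ j, |(a j : ℝ)| ≤ K₁ * wd μ s (Q * n)) → (∀ j, |(e j : ℝ) - sl μ s * (Q * n : ℕ)| ≤ K₁ * wd μ s (Q * n)) →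
        (∀ j j', j ≠ j' → ((a j : ℝ) + δ * wd μ s (Q * n) ≤ a j' ∧ (e j : ℝ) + δ * wd μ s (Q * n) ≤ e j') ∨
          ((a j' : ℝ) + δ * wd μ s (Q * n) ≤ a j ∧ (e j' : ℝ) + δ * wd μ s (Q * n) ≤ e j)) →
        ∀ (j₁ j₀ : ι) (t : ℝ), |t| ≤ Kt * EE μ s (Q * n) → (j₁ = j₀ → t = 0) →
        ∀ Z : Set Env, MeasurableSet Z → Dec Z → (law μ).real Zᶜ ≤ p →
        c₁ ≤ (law μ).real (SLAB20 μ s a e (Q * n) (K * wd μ s (Q * n)) r (L * EE μ s (Q * n))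
          (G * EE μ s (Q * n)) (U * EE μ s (Q * n)) ∩ (CELL20 μ s a e (Q * n) r (d * EE μ s (Q * n)) ∩
            (DIF20 μ s a e (Q * n) j₁ j₀ t (d * EE μ s (Q * n)) ∩ Z))) :=
  tslab20 h (B12.blk12 h) L hK₁ hδ hd hδ' hKt

/-- **THE TUNED SLAB LEMMA at any base, everything else frozen.** -/
theorem tslabF20 [IsProbabilityMeasure μ] (h : In μ s c C n₀) {K₁ δ d δ' Kt : ℝ} (L : ℝ) (hK₁ : 0 ≤ K₁)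
    (hδ : 0 < δ) (hd : 0 < d) (hδ' : 0 < δ') (hKt : 0 ≤ Kt) :
    ∃ κ p : ℝ, 0 < κ ∧ 0 < p ∧ ∀ K : ℝ, K₁ ≤ K → ∃ U : ℝ, 0 ≤ U ∧ ∀ G : ℝ, 0 ≤ G → ∃ (c₁ : ℝ) (Q n₁ : ℕ), 0 < c₁ ∧ 1 ≤ Q ∧
      1 ≤ n₁ ∧ ∀ n : ℕ, n₁ ≤ n → ∃ r : ℝ, κ * wd μ s (Q * n) ≤ r ∧ r ≤ δ' * wd μ s (Q * n) ∧
      ∀ (ι : Type) [Fintype ι], Fintype.card ι ≤ 2 →
      ∀ a e : ι → ℤ, (∀ j, |(a j : ℝ)| ≤ K₁ * wd μ s (Q * n)) → (∀ j, |(e j : ℝ) - sl μ s * (Q * n : ℕ)| ≤ K₁ * wd μ s (Q * n)) →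
        (∀ j j', j ≠ j' → ((a j : ℝ) + δ * wd μ s (Q * n) ≤ a j' ∧ (e j : ℝ) + δ * wd μ s (Q * n) ≤ e j') ∨
          ((a j' : ℝ) + δ * wd μ s (Q * n) ≤ a j ∧ (e j' : ℝ) + δ * wd μ s (Q * n) ≤ e j)) →
        ∀ (j₁ j₀ : ι) (t : ℝ), |t| ≤ Kt * EE μ s (Q * n) → (j₁ = j₀ → t = 0) →
        ∀ Z : Set Env, MeasurableSet Z → Dec Z → (law μ).real Zᶜ ≤ p → On20 (rows 0 (0 + (Q * n : ℕ))) Z →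
        ∀ (b : Pt) (B : Set Pt), rows b.1 (b.1 + (Q * n : ℕ)) ⊆ B → ∀ f : Env,
        c₁ ≤ (law μ).real {η | gl B η f ∈ at20 b (TS20 μ s a e (Q * n) (K * wd μ s (Q * n)) r (L * EE μ s (Q * n))
          (G * EE μ s (Q * n)) (U * EE μ s (Q * n)) (d * EE μ s (Q * n)) j₁ j₀ t ∩ Z)} :=
  tslab_gl20 h (B12.blk12 h) L hK₁ hδ hd hδ' hKt

end

end Pool.Agent.W_7d29a1_C1
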