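import Pool.Agent.W_7d29a1_C1.TwS63
import Pool.Agent.W_7d29a1_C1.TopG63

/-!
MP_7d29a1_pr, the attractor route [C1], FIELD nu: `twS63` WITH THE FAMILY OF LEVELS INSIDE. (helper63)

`TwC63` : the tail of `twS63` (everything after the constants). **`twF63`** : the power `P`, the bottom height `2 ^ j₁` and the family of levels
`lvS ∩ tpS` (for all labels `≥ n₁`, all columns) are chosen inside (`lt_famB63`).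
-/

set_option autoImplicit false

namespace Pool.Agent.W_7d29a1_C1.TwS63

open MeasureTheory ProbabilityTheory Finset Filter
open Pool.Agent.W_7d29a1_F Pool.Agent.W_7d29a1_h4g Pool.Agent.W_7d29a1_H Pool.Agent.W_7d29a1_HS
open Pool.Agent.W_7d29a1_C1.S71 Pool.Agent.W_7d29a1_C1.H40 Pool.Agent.W_7d29a1_C1.Dep6
open Pool.Agent.W_7d29a1_C1.H75 Pool.Agent.W_7d29a1_C1.U16
open Pool.Agent.W_7d29a1_C1.FarK89 (gr gr_nonneg gr_one_le gr_mono)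
open Pool.Agent.W_7d29a1_C1.FarW89 (nk Slabs)
open Pool.Agent.W_7d29a1_C1.TpF63 Pool.Agent.W_7d29a1_C1.PcS63
open Pool.Agent.W_7d29a1_C1.T10 (Gd GW pt Tg Hg Tg_zero Tg_pos Tg_Hg lat_tri lat_swap)
open Pool.Agent.W_7d29a1_C1.H60 (Cx)
open Pool.Agent.W_7d29a1_C1.H77 (Zt77 lc77 uc77 split_lc77 split_uc77 split_mid77)
open Pool.Agent.W_7d29a1_C1.TmR89 (la89 co89 Hl89)

noncomputable section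

variable {μ : Measure ℝ} {s c C : ℝ} {n₀ : ℕ}

/-- The tail of `twS63`. -/
def TwC63 (μ : Measure ℝ) (s c α₀ : ℝ) (K₁ : ℕ) (Kw θ A₀ ε : ℝ) (P j₁ : ℕ) (C₃ : ℝ) (m₂ : ℕ) : Prop :=
  ∀ {R C₀ : ℝ} {B h₀ K L : ℕ} {G : Gd}, GW μ s R B C₀ h₀ K L G → K₁ ≤ K → 8 * B * θ ≤ 1 →
        ∀ {Af af gf Af' af' gf' q₀ th : ℝ} {F F' : Cut (ℕ × ℤ) → Cut (ℕ × ℤ) → ℝ → Set Env} {E : Cut (ℕ × ℤ) → Cut (ℕ × ℤ) → Set Env}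
          {D n₁ : ℕ}, LvF μ Af af gf F → LvF μ Af' af' gf' F' →
        (∀ a b q, F a b q ⊆ lvS μ s c θ Kw P (Hl89 B (Tg h₀ K)) (co89 μ s) a b q ∩ tpS μ s c θ Kw ε P j₁ (co89 μ s) a b q) →
        0 ≤ q₀ → 1 ≤ th → th ≤ (K : ℝ) ^ α₀ → m₂ ≤ n₁ → n₁ ≤ h₀ → ∀ {x : ℕ × ℤ} {u : ℕ} {η : Env} {Γ : Cx}, Γ.s = s →
        NFL (dLI6 F F' E q₀ th D) lb6 (Zt77 G (Tg h₀ K) L x) u η → ∀ {a b d : ℕ}, 1 ≤ b → b ≤ d → d ≤ L → u ≤ d → d ≤ u + a →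
        u + a < D → ∀ {κ : Pt}, |lat16 μ s (pt x) κ| ≤ wd μ s (B * Tg h₀ K d) →
        |Γ.h| * wd μ s (B * Tg h₀ K d) ≤ c / 8 * EE μ s (B * Tg h₀ K d) →
        ∀ (k : ℕ) (z : ℤ), (lc77 G (Tg h₀ K) x b).row ≤ k →
          (k : ℝ) + θ * ((B * Tg h₀ K d : ℕ) : ℝ) ≤ (((uc77 G (Tg h₀ K) x d).row : ℤ) : ℝ) →
          ∃ (r Hh Nr : ℕ → ℕ) (q' : ℕ → ℝ) (bs : ℕ → Pt) (m₁ m₂ : ℕ), m₁ < m₂ ∧ r m₁ = k ∧ (r m₂ : ℤ) = (uc77 G (Tg h₀ K) x d).row ∧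
            Slabs μ s c θ (Kw - 2) Γ.h P η κ r Hh Nr q' bs m₁ m₂ (B * Tg h₀ K d) n₁ (C₃ * (1 + q₀ * th ^ a) ^ 2) ∧
            ∀ y : ℤ, |lat16 μ s κ ((uc77 G (Tg h₀ K) x d).row, y) - lat16 μ s κ ((k : ℤ), z)| ≤ A₀ * wd μ s (B * Tg h₀ K d) →
              Real.exp (-(C₃ * (1 + q₀ * th ^ a) ^ 2 * gr (2 * P) (1 + |lat16 μ s κ ((k : ℤ), z)| / wd μ s (B * Tg h₀ K d)) *
                EE μ s (B * Tg h₀ K d))) ≤ nk μ s Γ.h η Γ.p Γ.M k (r m₂ - k) z y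

variable [IsProbabilityMeasure μ]

/-- **THE SLABS AND THE LOWER BOUND FROM EVERY START OF THE TOWER, THE FAMILY OF LEVELS INSIDE.** -/
theorem twF63 (h0 : In μ s c C n₀) : ∃ (α₀ : ℝ) (K₁ : ℕ), 0 < α₀ ∧ α₀ ≤ 1 ∧ 2 ≤ K₁ ∧ ∀ {Kw θ A₀ ε : ℝ}, 0 ≤ A₀ → 2 * A₀ + 12 ≤ Kw →
    0 < θ → θ ≤ 1 / 2 → 0 < ε → ε ≤ α₀ → ∃ (P j₁ nl : ℕ) (A a g : ℝ), 1 ≤ P ∧ 1 ≤ nl ∧ 0 < A ∧ 0 < a ∧ 0 < g ∧ g ≤ 1 ∧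
      (∀ (Hf : Cut (ℕ × ℤ) → Cut (ℕ × ℤ) → ℕ), (∀ x y, nl ≤ Hf x y) → ∀ col : Cut (ℕ × ℤ) → ℤ,
        LvF μ A a g fun x y q => lvS μ s c θ Kw P Hf col x y q ∩ tpS μ s c θ Kw ε P j₁ col x y q) ∧
      ∃ (C₃ : ℝ) (m₂ : ℕ), 1 ≤ C₃ ∧ 1 ≤ m₂ ∧ TwC63 μ s c α₀ K₁ Kw θ A₀ ε P j₁ C₃ m₂ := by
  obtain ⟨α₀, K₁, hα₀, hα₁, hK₁, H⟩ := twS63 h0
  refine ⟨α₀, K₁, hα₀, hα₁, hK₁, fun {Kw θ A₀ ε} hA hKw hθ hθ2 hε hεα => ?_⟩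
  choose! m hm H using fun (P : ℕ) (hP : 1 ≤ P) => H P hP hA hKw hθ hθ2
  obtain ⟨P, A, a, g, nl, j₁, hP, h1, h2, h3, h4, h5, -, h6, hF⟩ := lt_famB63 h0 (K := Kw) (θ := θ) (ε := ε) (by linarith) hθ (by linarith) hε m
  obtain ⟨C₃, m₂, hC, hm2, H⟩ := H P hP j₁ h6 ε hε.le hεα
  exact ⟨P, j₁, nl, A, a, g, hP, h5, h1, h2, h3, h4, fun Hf hHf col => hF Hf hHf col, C₃, m₂, hC, hm2, H⟩

end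

end Pool.Agent.W_7d29a1_C1.TwS63
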