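import Pool.Agent.W_7d29a1_C1.TmR89
import Pool.Agent.W_7d29a1_C1.PcS63
import Pool.Agent.W_7d29a1_C1.Geo74

/-!
MP_7d29a1_pr, the attractor route [C1], FIELD nu: THE TOWER OF A CONTACT AS ONE PIECE OF LAYERS. (helper63)

`cs63 G T x b i`: the cuts of `Zt77` from the lower edge of the scale `b` up: `b, .., 1` below, `0, 1, ..` above. **`twS63`**: at a scale `u`
where no layer is felt (`NFL` of `dLI6`, levels and tops: `lvS ∩ tpS` with the labels `Hl89 B T` and the columns `co89`), from EVERY start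
`(k, z)` between the lower edge `b` and the upper edge `d` (`1 ≤ b ≤ d ≤ u + a`): the chain `Slabs` from the row `k` to the upper edge `d`,
and the lower bound of the kernel to all sites of the upper edge in the window around the line of the start.
-/

set_option autoImplicit false

namespace Pool.Agent.W_7d29a1_C1.TwS63

open MeasureTheory ProbabilityTheory Finset Filter
open Pool.Agent.W_7d29a1_F Pool.Agent.W_7d29a1_h4g Pool.Agent.W_7d29a1_H Pool.Agent.W_7d29a1_HS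
open Pool.Agent.W_7d29a1_C1.S71 Pool.Agent.W_7d29a1_C1.H40 Pool.Agent.W_7d29a1_C1.Dep6
open Pool.Agent.W_7d29a1_C1.H75 Pool.Agent.W_7d29a1_C1.U16
open Pool.Agent.W_7d29a1_C1.FarK89 (gr gr_nonneg gr_one_le gr_mono)
open Pool.Agent.W_7d29a1_C1.FarW89 (nk Slabs)
open Pool.Agent.W_7d29a1_C1.TpF63 Pool.Agent.W_7d29a1_C1.PcS63
open Pool.Agent.W_7d29a1_C1.T10 (Gd GW pt Tg Hg Tg_zero Tg_pos Tg_Hg lat_tri lat_swap)
open Pool.Agent.W_7d29a1_C1.H60 (Cx)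
open Pool.Agent.W_7d29a1_C1.H77 (Zt77 lc77 uc77 split_lc77 split_uc77 split_mid77)
open Pool.Agent.W_7d29a1_C1.TmR89 (la89 co89 Hl89)

noncomputable section

variable {μ : Measure ℝ} {s c C : ℝ} {n₀ : ℕ}

/-! ### The cuts -/

section Cuts

variable {G : Gd} {T : ℕ → ℕ} {x : ℕ × ℤ} {b i : ℕ}

/-- **The cuts from the lower edge `b` up.** -/
def cs63 (G : Gd) (T : ℕ → ℕ) (x : ℕ × ℤ) (b i : ℕ) : Cut (ℕ × ℤ) := if i < b then lc77 G T x (b - i) else uc77 G T x (i - b)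

theorem cs_lo63 (h : i < b) : cs63 G T x b i = lc77 G T x (b - i) := if_pos h

theorem cs_up63 (h : b ≤ i) : cs63 G T x b i = uc77 G T x (i - b) := if_neg (by omega)

/-- The label of a layer, minus one. -/
def lab63 (b i : ℕ) : ℕ := if i < b then b - i - 1 else i - b

theorem lb_cs63 (i : ℕ) : lb6 (cs63 G T x b i) (cs63 G T x b (i + 1)) = lab63 b i + 1 := by
  unfold lb6 lab63
  rcases lt_trichotomy (i + 1) b with h | h | h
  · rw [cs_lo63 (show i < b by omega), cs_lo63 h, if_pos (by omega)]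
    show max (b - i) (b - (i + 1)) = _
    omega
  · rw [cs_lo63 (show i < b by omega), cs_up63 (show b ≤ i + 1 by omega), if_pos (by omega)]
    show max (b - i) (i + 1 - b) = _
    omega
  · rw [cs_up63 (show b ≤ i by omega), cs_up63 (show b ≤ i + 1 by omega), if_neg (by omega)]
    show max (i - b) (i + 1 - b) = _
    omega

theorem lab_le63 {d : ℕ} (hb : 1 ≤ b) (hbd : b ≤ d) (hi : i < b + d) : lab63 b i + 1 ≤ d := by
  unfold lab63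
  split_ifs <;> omega

theorem split63 {L d : ℕ} (hbL : b ≤ L) (hd : d ≤ L) (hL : 1 ≤ L) (hi : i < b + d) :
    ∃ P Q, Zt77 G T L x = P ++ cs63 G T x b i :: cs63 G T x b (i + 1) :: Q := by
  rcases lt_trichotomy (i + 1) b with h | h | h
  · rw [cs_lo63 (show i < b by omega), cs_lo63 h]
    have h1 := split_lc77 (G := G) (T := T) (L := L) (x := x) (v := b - (i + 1)) (by omega) (by omega)
    rwa [show b - (i + 1) + 1 = b - i by omega] at h1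
  · rw [cs_lo63 (show i < b by omega), cs_up63 (show b ≤ i + 1 by omega), show b - i = 1 by omega, show i + 1 - b = 0 by omega]
    exact split_mid77 hL
  · rw [cs_up63 (show b ≤ i by omega), cs_up63 (show b ≤ i + 1 by omega)]
    have h1 := split_uc77 (G := G) (T := T) (L := L) (x := x) (v := i - b) (by omega)
    rwa [show i - b + 1 = i + 1 - b by omega] at h1

theorem cnt63 (a e v : ℕ) : ((Ico a e).filter fun i => lab63 b i = v).card ≤ 2 := by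
  have h1 : ((Ico a e).filter fun i => lab63 b i = v) ⊆ {b - 1 - v, b + v} := by
    intro i hi
    have h2 := (mem_filter.1 hi).2
    unfold lab63 at h2
    rw [mem_insert, mem_singleton]
    split_ifs at h2 with h3
    · left; omega
    · right; omega
  exact (card_le_card h1).trans (card_le_two)

end Cuts

/-! ### The rows -/

section Rows

variable {G : Gd} {x : ℕ × ℤ} {b i : ℕ} {R C₀ : ℝ} {B h₀ K L : ℕ}

theorem z_rows63 (g : GW μ s R B C₀ h₀ K L G) {v : ℕ} (hv : v < L) :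
    (G.z (v + 1) x).1 ≤ (G.z v x).1 ∧ (G.z v x).1 + G.H v ≤ (G.z (v + 1) x).1 + G.H (v + 1) := by
  have h1 := congrArg Prod.fst (g.ok.z_dg hv x)
  have h2 : (G.dg v x).1 + G.H v ≤ G.H (v + 1) := g.ok.row_place (Nat.le_succ v) hv x
  have h3 : (G.z v x).1 = (G.z (v + 1) x).1 + (G.dg v x).1 := h1
  omega

theorem T_next63 (_ : GW μ s R B C₀ h₀ K L G) {v : ℕ} (hv : 1 ≤ v) : Tg h₀ K (v + 1) = K * Tg h₀ K v := by
  rw [Tg_pos hv, Tg_pos (by omega), pow_succ]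
  ring

/-- **The gaps between the cuts.** -/
theorem gap63 (g : GW μ s R B C₀ h₀ K L G) {d : ℕ} (hbL : b ≤ L) (hd : d ≤ L) (hi : i < b + d) :
    (Tg h₀ K (lab63 b i + 1) : ℤ) ≤ 4 * ((cs63 G (Tg h₀ K) x b (i + 1)).row - (cs63 G (Tg h₀ K) x b i).row) ∧
      (cs63 G (Tg h₀ K) x b (i + 1)).row - (cs63 G (Tg h₀ K) x b i).row ≤ 2 * Tg h₀ K (lab63 b i + 1) := by
  have hK := g.K2
  have hT2 : ∀ v, 1 ≤ v → 2 * Tg h₀ K v ≤ Tg h₀ K (v + 1) := fun v hv => by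
    rw [T_next63 g hv]
    exact Nat.mul_le_mul_right _ hK
  have hz : (G.z 0 x).1 = (G.z 1 x).1 := by rw [g.z01]
  have hT0 : Tg h₀ K 0 = 0 := Tg_zero _ _
  rcases lt_trichotomy (i + 1) b with h | h | h
  · rw [cs_lo63 (show i < b by omega), cs_lo63 h]
    obtain ⟨v, hv⟩ : ∃ v, b = i + 1 + v := ⟨b - (i + 1), by omega⟩
    have e0 : b - i = v + 1 := by omega
    have e1 : b - (i + 1) = v := by omega
    have e2 : lab63 b i + 1 = v + 1 := by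
      unfold lab63
      rw [if_pos (by omega)]
      omega
    rw [e0, e1, e2]
    obtain ⟨z1, z2⟩ := z_rows63 (x := x) g (v := v) (by omega)
    have t1 := hT2 v (by omega)
    have t2 := g.TH (v := v) (by omega)
    have t3 := g.TH (v := v + 1) (by omega)
    show _ ≤ 4 * (((G.z v x).1 : ℤ) - (Tg h₀ K v : ℤ) - (((G.z (v + 1) x).1 : ℤ) - (Tg h₀ K (v + 1) : ℤ))) ∧
      ((G.z v x).1 : ℤ) - (Tg h₀ K v : ℤ) - (((G.z (v + 1) x).1 : ℤ) - (Tg h₀ K (v + 1) : ℤ)) ≤ _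
    omega
  · rw [cs_lo63 (show i < b by omega), cs_up63 (show b ≤ i + 1 by omega), show b - i = 1 by omega, show i + 1 - b = 0 by omega]
    have e2 : lab63 b i + 1 = 1 := by
      unfold lab63
      rw [if_pos (by omega)]
      omega
    rw [e2]
    show _ ≤ 4 * (((G.z 0 x).1 : ℤ) + (Tg h₀ K 0 : ℤ) - (((G.z 1 x).1 : ℤ) - (Tg h₀ K 1 : ℤ))) ∧
      ((G.z 0 x).1 : ℤ) + (Tg h₀ K 0 : ℤ) - (((G.z 1 x).1 : ℤ) - (Tg h₀ K 1 : ℤ)) ≤ _
    omega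
  · rw [cs_up63 (show b ≤ i by omega), cs_up63 (show b ≤ i + 1 by omega)]
    obtain ⟨v, hv⟩ : ∃ v, i = b + v := ⟨i - b, by omega⟩
    have e0 : i - b = v := by omega
    have e1 : i + 1 - b = v + 1 := by omega
    have e2 : lab63 b i + 1 = v + 1 := by
      unfold lab63
      rw [if_neg (by omega)]
      omega
    rw [e0, e1, e2]
    obtain ⟨z1, z2⟩ := z_rows63 (x := x) g (v := v) (by omega)
    have t3 := g.TH (v := v + 1) (by omega)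
    show _ ≤ 4 * (((G.z (v + 1) x).1 : ℤ) + (Tg h₀ K (v + 1) : ℤ) - (((G.z v x).1 : ℤ) + (Tg h₀ K v : ℤ))) ∧
      ((G.z (v + 1) x).1 : ℤ) + (Tg h₀ K (v + 1) : ℤ) - (((G.z v x).1 : ℤ) + (Tg h₀ K v : ℤ)) ≤ _
    rcases Nat.eq_zero_or_pos v with hv0 | hv0
    · subst hv0
      simp only [Nat.zero_add] at *
      omega
    · have t1 := hT2 v hv0
      have t2 := g.TH (v := v) hv0
      omega

/-- **The columns of the cuts.** -/
theorem col63 (g : GW μ s R B C₀ h₀ K L G) {v : ℕ} (hv : v ≤ L) (hL : 1 ≤ L) (r : ℤ) :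
    |lat16 μ s (pt x) (r, co89 μ s ⟨r, v, G.z v x⟩)| ≤ wd μ s (B * Tg h₀ K (max v 1)) := by
  have h3 : |lat16 μ s (pt x) (G.x v x)| + 1 ≤ wd μ s (B * Tg h₀ K (max v 1)) := by
    rcases Nat.eq_zero_or_pos v with h0 | h0
    · subst h0
      have e : G.x 0 x = G.x 1 x := by
        unfold Gd.x
        rw [g.z01]
      rw [e]
      exact g.lat_base' le_rfl hL x
    · rw [max_eq_left (by omega)]
      exact g.lat_base' h0 hv x
  have e1 : lat16 μ s (pt x) (G.x v x) = la89 μ s ⟨r, v, G.z v x⟩ - ((x.2 : ℝ) - sl μ s * (x.1 : ℝ)) := by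
    unfold lat16 la89
    show ((((G.z v x).2 - x.2 : ℤ)) : ℝ) - sl μ s * ((((G.z v x).1 : ℤ) - (x.1 : ℤ) : ℤ) : ℝ) =
      (((G.z v x).2 : ℤ) : ℝ) - sl μ s * ((G.z v x).1 : ℝ) - ((x.2 : ℝ) - sl μ s * (x.1 : ℝ))
    push_cast
    ring
  rw [e1] at h3
  have h4 := colC6_line (μ := μ) (s := s) (κ := pt x) (latC := la89 μ s) (x := (x.2 : ℝ) - sl μ s * (x.1 : ℝ)) (by
    show ((x.2 : ℤ) : ℝ) - sl μ s * (((x.1 : ℕ) : ℤ) : ℝ) = _
    push_cast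
    ring) ⟨r, v, G.z v x⟩ (B := wd μ s (B * Tg h₀ K (max v 1)) - 1) (by linarith)
  unfold co89
  have e2 : (⟨r, v, G.z v x⟩ : Cut (ℕ × ℤ)).row = r := rfl
  rw [e2] at h4
  linarith

end Rows

/-! ### The piece -/

variable [IsProbabilityMeasure μ]

/-- **THE TOWER AS A PIECE**: from the lower edge `b` to the upper edge `d`, no layer felt at `u`, `d ≤ u + a`. -/
theorem pcT63 (h0 : In μ s c C n₀) {θ Kw ε α : ℝ} {P j₁ K₀ n₁ : ℕ} {R C₀ : ℝ} {B h₀ K L : ℕ} {G : Gd} (g : GW μ s R B C₀ h₀ K L G)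
    {Af af gf Af' af' gf' q₀ th : ℝ} {F F' : Cut (ℕ × ℤ) → Cut (ℕ × ℤ) → ℝ → Set Env} {E : Cut (ℕ × ℤ) → Cut (ℕ × ℤ) → Set Env}
    {D : ℕ} {x : ℕ × ℤ} {u : ℕ} {η : Env} (hF : LvF μ Af af gf F) (hF' : LvF μ Af' af' gf' F')
    (hsub : ∀ a b q, F a b q ⊆ lvS μ s c θ Kw P (Hl89 B (Tg h₀ K)) (co89 μ s) a b q ∩ tpS μ s c θ Kw ε P j₁ (co89 μ s) a b q)
    (hq : 0 ≤ q₀) (hth : 1 ≤ th) (hα0 : 0 ≤ α) (hα : th ≤ (K : ℝ) ^ α)
    (hok : NFL (dLI6 F F' E q₀ th D) lb6 (Zt77 G (Tg h₀ K) L x) u η) {a b d : ℕ} (hb : 1 ≤ b) (hbd : b ≤ d) (hd : d ≤ L)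
    (hua : d ≤ u + a) (huD : u + a < D) (hud : u ≤ d) (hθ0 : 0 ≤ θ) (hθ : 8 * B * θ ≤ 1) (hn : n₁ ≤ h₀) (hK : K₀ ≤ K) {κ : Pt}
    (hκ : |lat16 μ s (pt x) κ| ≤ wd μ s (B * Tg h₀ K d)) {h : ℝ}
    (hh : |h| * wd μ s (B * Tg h₀ K d) ≤ c / 8 * EE μ s (B * Tg h₀ K d)) :
    Pc63 μ s c θ Kw ε α P j₁ K₀ n₁ η κ (fun i => (cs63 G (Tg h₀ K) x b i).row) (fun i => co89 μ s (cs63 G (Tg h₀ K) x b i))
      (fun v => B * Tg h₀ K (v + 1)) (lab63 b) (fun i => q₀ * th ^ ((u - (lab63 b i + 1)) + (lab63 b i + 1 - u))) 0 (b + d) (d - 1)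
      (B * Tg h₀ K d) 2 (q₀ * th ^ a) 4 h 0 := by
  have hB2 := g.B2
  have hL1 : 1 ≤ L := by omega
  have hK2 := g.K2
  have hK1 : (1 : ℝ) ≤ K := by exact_mod_cast (show 1 ≤ K by omega)
  have hBR : (2 : ℝ) ≤ B := by exact_mod_cast hB2
  have hgap := fun i (hi : i < b + d) => gap63 (x := x) g (show b ≤ L by omega) hd hi
  have hlab := fun i (hi : i < b + d) => lab_le63 hb hbd hi
  have hlenH : ∀ i, i < b + d → (cs63 G (Tg h₀ K) x b (i + 1)).row - (cs63 G (Tg h₀ K) x b i).row ≤ ((B * Tg h₀ K (lab63 b i + 1) : ℕ) : ℤ) := by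
    intro i hi
    refine (hgap i hi).2.trans ?_
    push_cast
    have h1 : (0 : ℤ) ≤ Tg h₀ K (lab63 b i + 1) := Int.natCast_nonneg _
    have h2 : (2 : ℤ) ≤ B := by exact_mod_cast hB2
    nlinarith
  have hHl : ∀ i, Hl89 B (Tg h₀ K) (cs63 G (Tg h₀ K) x b i) (cs63 G (Tg h₀ K) x b (i + 1)) = B * Tg h₀ K (lab63 b i + 1) := by
    intro i
    unfold Hl89
    rw [lb_cs63, max_eq_left (by omega)]
  have hhg : ∀ i, i < b + d → hg6 (Hl89 B (Tg h₀ K)) (cs63 G (Tg h₀ K) x b i) (cs63 G (Tg h₀ K) x b (i + 1)) =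
      B * Tg h₀ K (lab63 b i + 1) := by
    intro i hi
    rw [hg6_eq, hHl]
    have := hlenH i hi
    rw [hHl]
    linarith
  have hlev : ∀ i, i < b + d → η ∈ F (cs63 G (Tg h₀ K) x b i) (cs63 G (Tg h₀ K) x b (i + 1))
      (q₀ * th ^ ((u - (lab63 b i + 1)) + (lab63 b i + 1 - u))) := by
    intro i hi
    obtain ⟨P', Q', hZ⟩ := split63 (G := G) (T := Tg h₀ K) (x := x) (show b ≤ L by omega) hd hL1 hi
    have h1 := hlab i hi
    have h3 := nfl_le hok hZ (l := (u - (lab63 b i + 1)) + (lab63 b i + 1 - u)) (by rw [lb_cs63]; omega) (by rw [lb_cs63]; omega)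
    exact (dL6_good hF hF' hq hth ((le_max_left _ _).trans h3) (by omega)).1
  have hTp : ∀ v, 1 ≤ v → 1 ≤ Tg h₀ K v := fun v hv => g.Tpos hv
  have hTR : ∀ v, 1 ≤ v → (0 : ℝ) < (Tg h₀ K v : ℕ) := fun v hv => by exact_mod_cast hTp v hv
  have hratio : ∀ {v : ℕ}, 1 ≤ v → v ≤ d → ((B * Tg h₀ K d : ℕ) : ℝ) / ((B * Tg h₀ K v : ℕ) : ℝ) = (K : ℝ) ^ (d - v) := by
    intro v hv hvd
    have h1 := hTR v hv
    have h2 : Tg h₀ K d = K ^ (d - v) * Tg h₀ K v := by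
      rw [Tg_pos hv, Tg_pos (by omega)]
      have h3 : K ^ d = K ^ (d - v) * K ^ v := by rw [← pow_add, show d - v + v = d by omega]
      rw [h3]
      ring
    rw [h2]
    push_cast
    have h4 : (0 : ℝ) < B := by linarith
    field_simp
  have hwmono : ∀ v, 1 ≤ v → v ≤ d → wd μ s (B * Tg h₀ K v) ≤ 2 * wd μ s (B * Tg h₀ K d) := fun v hv hvd =>
    Pool.Agent.W_7d29a1_HS.wd_le_two h0 (Nat.mul_pos (by omega) (hTp v hv)) (Nat.mul_le_mul_left _ (g.Tmono hvd))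
  have hw0 : 0 ≤ wd μ s (B * Tg h₀ K d) := (abs_nonneg _).trans hκ
  -- the positions
  have hpos : ∀ i, i ≤ b + d → |lat16 μ s κ ((cs63 G (Tg h₀ K) x b i).row, co89 μ s (cs63 G (Tg h₀ K) x b i))| ≤
      4 * wd μ s (B * Tg h₀ K d) := by
    intro i hi
    have key : |lat16 μ s (pt x) ((cs63 G (Tg h₀ K) x b i).row, co89 μ s (cs63 G (Tg h₀ K) x b i))| ≤ 2 * wd μ s (B * Tg h₀ K d) := by
      rcases lt_or_ge i b with h1 | h1
      · rw [cs_lo63 h1]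
        exact (col63 (x := x) g (v := b - i) (by omega) hL1 _).trans (hwmono _ (by omega) (by omega))
      · rw [cs_up63 h1]
        exact (col63 (x := x) g (v := i - b) (by omega) hL1 _).trans (hwmono _ (by omega) (by omega))
    have h1 := lat_tri (μ := μ) (s := s) κ (pt x) ((cs63 G (Tg h₀ K) x b i).row, co89 μ s (cs63 G (Tg h₀ K) x b i))
    have h2 : |lat16 μ s κ (pt x)| ≤ wd μ s (B * Tg h₀ K d) := by
      rw [lat_swap, abs_neg]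
      exact hκ
    linarith
  refine ⟨fun i _ hi => ?_, fun i _ hi => hlenH i hi, fun i _ hi => ?_, ?_, ?_, fun v => cnt63 _ _ v, fun v hv => ?_, fun v hv => ?_,
    fun i _ _ => ?_, fun i _ hi => ?_, fun i _ hi => ?_, fun i _ hi => ?_, fun i _ hi => ?_, fun i _ hi => ?_, hh⟩
  · -- len
    have g1 : ((Tg h₀ K (lab63 b i + 1) : ℕ) : ℝ) ≤
        4 * (((cs63 G (Tg h₀ K) x b (i + 1)).row - (cs63 G (Tg h₀ K) x b i).row : ℤ) : ℝ) := by
      exact_mod_cast (hgap i hi).1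
    have g2 : (0 : ℝ) ≤ ((Tg h₀ K (lab63 b i + 1) : ℕ) : ℝ) := Nat.cast_nonneg _
    have g3 := mul_le_mul_of_nonneg_right hθ g2
    show 2 * θ * ((B * Tg h₀ K (lab63 b i + 1) : ℕ) : ℝ) ≤ _
    push_cast at g1 ⊢
    linarith
  · have := hlab i hi
    omega
  · show lab63 b (b + d - 1) = d - 1
    unfold lab63
    rw [if_neg (by omega)]
    omega
  · show B * Tg h₀ K (d - 1 + 1) = _
    rw [show d - 1 + 1 = d by omega]
  · -- H1
    have g1 : h₀ ≤ Tg h₀ K (v + 1) := by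
      rw [Tg_pos (by omega), mul_comm 2 h₀, mul_assoc]
      exact Nat.le_mul_of_pos_right _ (Nat.mul_pos two_pos (Nat.pow_pos (by omega)))
    exact (hn.trans g1).trans (Nat.le_mul_of_pos_left _ (by omega))
  · -- HK
    show K₀ * (B * Tg h₀ K (v + 1)) ≤ B * Tg h₀ K (v + 1 + 1)
    rw [T_next63 g (v := v + 1) (by omega)]
    calc K₀ * (B * Tg h₀ K (v + 1)) ≤ K * (B * Tg h₀ K (v + 1)) := Nat.mul_le_mul_right _ hK
      _ = _ := by ring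
  · exact mul_nonneg hq (pow_nonneg (by linarith) _)
  · -- q1
    have h1 := hlab i hi
    show q₀ * th ^ ((u - (lab63 b i + 1)) + (lab63 b i + 1 - u)) ≤
      q₀ * th ^ a * (((B * Tg h₀ K d : ℕ) : ℝ) / ((B * Tg h₀ K (lab63 b i + 1) : ℕ) : ℝ)) ^ α
    rw [hratio (by omega) h1, mul_assoc]
    refine mul_le_mul_of_nonneg_left ?_ hq
    rw [pow_add]
    have h2 : th ^ (u - (lab63 b i + 1)) ≤ ((K : ℝ) ^ (d - (lab63 b i + 1))) ^ α := by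
      rw [← Real.rpow_pow_comm (by linarith)]
      refine (pow_le_pow_left₀ (by linarith) hα _).trans (pow_le_pow_right₀ (Real.one_le_rpow hK1 hα0) (by omega))
    have h3 : th ^ (lab63 b i + 1 - u) ≤ th ^ a := pow_le_pow_right₀ hth (by omega)
    rw [mul_comm]
    exact mul_le_mul h3 h2 (by positivity) (by positivity)
  · -- far
    have g1 := (hsub _ _ _ (hlev i hi)).1
    unfold lvS at g1
    rw [hhg i hi] at g1
    exact g1
  · -- tp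
    exact (hsub _ _ _ (hlev i hi)).2
  · rw [pow_zero, mul_one]
    exact hpos i hi.le
  · rw [pow_zero, mul_one]
    exact hpos (i + 1) hi

/-- **THE SLABS AND THE LOWER BOUND FROM EVERY START OF THE TOWER.** -/
theorem twS63 (h0 : In μ s c C n₀) : ∃ (α₀ : ℝ) (K₁ : ℕ), 0 < α₀ ∧ α₀ ≤ 1 ∧ 2 ≤ K₁ ∧ ∀ (P : ℕ) {Kw θ A₀ : ℝ}, 1 ≤ P → 0 ≤ A₀ →
    2 * A₀ + 12 ≤ Kw → 0 < θ → θ ≤ 1 / 2 → ∃ m₁ : ℕ, 1 ≤ m₁ ∧ ∀ j₁ : ℕ, m₁ ≤ 2 ^ j₁ → ∀ ε : ℝ, 0 ≤ ε → ε ≤ α₀ →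
      ∃ (C₃ : ℝ) (m₂ : ℕ), 1 ≤ C₃ ∧ 1 ≤ m₂ ∧ ∀ {R C₀ : ℝ} {B h₀ K L : ℕ} {G : Gd}, GW μ s R B C₀ h₀ K L G → K₁ ≤ K → 8 * B * θ ≤ 1 →
        ∀ {Af af gf Af' af' gf' q₀ th : ℝ} {F F' : Cut (ℕ × ℤ) → Cut (ℕ × ℤ) → ℝ → Set Env} {E : Cut (ℕ × ℤ) → Cut (ℕ × ℤ) → Set Env}
          {D n₁ : ℕ}, LvF μ Af af gf F → LvF μ Af' af' gf' F' →
        (∀ a b q, F a b q ⊆ lvS μ s c θ Kw P (Hl89 B (Tg h₀ K)) (co89 μ s) a b q ∩ tpS μ s c θ Kw ε P j₁ (co89 μ s) a b q) →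
        0 ≤ q₀ → 1 ≤ th → th ≤ (K : ℝ) ^ α₀ → m₂ ≤ n₁ → n₁ ≤ h₀ → ∀ {x : ℕ × ℤ} {u : ℕ} {η : Env} {Γ : Cx}, Γ.s = s →
        NFL (dLI6 F F' E q₀ th D) lb6 (Zt77 G (Tg h₀ K) L x) u η → ∀ {a b d : ℕ}, 1 ≤ b → b ≤ d → d ≤ L → u ≤ d → d ≤ u + a →
        u + a < D → ∀ {κ : Pt}, |lat16 μ s (pt x) κ| ≤ wd μ s (B * Tg h₀ K d) →
        |Γ.h| * wd μ s (B * Tg h₀ K d) ≤ c / 8 * EE μ s (B * Tg h₀ K d) →
        ∀ (k : ℕ) (z : ℤ), (lc77 G (Tg h₀ K) x b).row ≤ k →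
          (k : ℝ) + θ * ((B * Tg h₀ K d : ℕ) : ℝ) ≤ (((uc77 G (Tg h₀ K) x d).row : ℤ) : ℝ) →
          ∃ (r Hh Nr : ℕ → ℕ) (q' : ℕ → ℝ) (bs : ℕ → Pt) (m₁ m₂ : ℕ), m₁ < m₂ ∧ r m₁ = k ∧ (r m₂ : ℤ) = (uc77 G (Tg h₀ K) x d).row ∧
            Slabs μ s c θ (Kw - 2) Γ.h P η κ r Hh Nr q' bs m₁ m₂ (B * Tg h₀ K d) n₁ (C₃ * (1 + q₀ * th ^ a) ^ 2) ∧
            ∀ y : ℤ, |lat16 μ s κ ((uc77 G (Tg h₀ K) x d).row, y) - lat16 μ s κ ((k : ℤ), z)| ≤ A₀ * wd μ s (B * Tg h₀ K d) →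
              Real.exp (-(C₃ * (1 + q₀ * th ^ a) ^ 2 * gr (2 * P) (1 + |lat16 μ s κ ((k : ℤ), z)| / wd μ s (B * Tg h₀ K d)) *
                EE μ s (B * Tg h₀ K d))) ≤ nk μ s Γ.h η Γ.p Γ.M k (r m₂ - k) z y := by
  obtain ⟨α₀, K₁, hα₀, hα₁, hK₁, H⟩ := pcl63 h0
  refine ⟨α₀, K₁, hα₀, hα₁, hK₁, fun P Kw θ A₀ hP hA₀ hKA hθ hθ2 => ?_⟩
  obtain ⟨m₁, hm₁, H⟩ := H P hP hA₀ hKA hθ hθ2
  refine ⟨m₁, hm₁, fun j₁ hj₁ ε hε hεα => ?_⟩
  obtain ⟨C₃, m₂, hC₃, hm₂, H⟩ := H j₁ hj₁ 0 4 ε (by norm_num) hε hεα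
  refine ⟨C₃ * (1 + (2 : ℕ)), m₂, one_le_mul_of_one_le_of_one_le hC₃ (by norm_num), hm₂, ?_⟩
  intro R C₀ B h₀ K L G g hKK hBθ Af af gf Af' af' gf' q₀ th F F' E D n₁ hF hF' hsub hq hth hthα hn1 hn2 x u η Γ hΓs hok a b d hb hbd hd
    hud hua huD κ hκ hh k z hk1 hk2
  have hp : ∀ k, k < Γ.M → Γ.p k = Real.exp (s + Γ.h) := fun k hk => by
    unfold Cx.p
    rw [if_pos hk, hΓs]
  have hp' : ∀ k, Γ.M ≤ k → Γ.p k = Real.exp s := fun k hk => by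
    unfold Cx.p
    rw [if_neg (not_lt.2 hk), hΓs]
  have S := pcT63 h0 (n₁ := n₁) (K₀ := K₁) g hF hF' hsub hq hth hα₀.le hthα hok hb hbd hd hua huD hud hθ.le hBθ hn2 hKK hκ hh
  have e0 : (cs63 G (Tg h₀ K) x b 0).row = (lc77 G (Tg h₀ K) x b).row := by
    rw [cs_lo63 (by omega)]
    rfl
  have e1 : (cs63 G (Tg h₀ K) x b (b + d)).row = (uc77 G (Tg h₀ K) x d).row := by
    rw [cs_up63 (by omega), show b + d - b = d by omega]
  have hq' : 0 ≤ q₀ * th ^ a := mul_nonneg hq (pow_nonneg (by linarith) _)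
  obtain ⟨j, q', bs, hj1, hj2, SL, LOW⟩ := H (K₀ := K₁) hα₀.le le_rfl hq' le_rfl hn1 (show 0 < b + d by omega) hp hp' S k z
    (by rw [e0]; exact hk1) (by
      show (k : ℝ) + θ * _ ≤ (((cs63 G (Tg h₀ K) x b (b + d)).row : ℤ) : ℝ)
      rw [e1]
      exact hk2)
  have hr0 : 0 ≤ (uc77 G (Tg h₀ K) x d).row := by
    show 0 ≤ ((G.z d x).1 : ℤ) + (Tg h₀ K d : ℤ)
    positivity
  have e2 : (if b + d = j then k else ((cs63 G (Tg h₀ K) x b (b + d)).row).toNat) = ((uc77 G (Tg h₀ K) x d).row).toNat := by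
    rw [if_neg (by omega), e1]
  refine ⟨_, _, _, q', bs, j, b + d, hj2, ?_, ?_, SL, fun y hy => ?_⟩
  · exact if_pos rfl
  · show (((if b + d = j then k else ((cs63 G (Tg h₀ K) x b (b + d)).row).toNat : ℕ)) : ℤ) = _
    rw [e2, Int.toNat_of_nonneg hr0]
  · have h1 := LOW y (by
      show |lat16 μ s κ ((cs63 G (Tg h₀ K) x b (b + d)).row, y) - _| ≤ _
      rw [e1]
      exact hy)
    rw [e1] at h1
    show _ ≤ nk μ s Γ.h η Γ.p Γ.M k ((if b + d = j then k else ((cs63 G (Tg h₀ K) x b (b + d)).row).toNat) - k) z y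
    rw [e2]
    exact h1

end

end Pool.Agent.W_7d29a1_C1.TwS63
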