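import Pool.Agent.W_7d29a1_C1.SlG60
import Pool.Agent.W_7d29a1_C1.GeoW10

/-!
MP_7d29a1_pr, attractor route [C1], SHELL: THE TOWER OF SLABS OF A CONTACT UP TO THE SCALE `b`, rows `z_b - T_b, .., z_b + T_b` (helper31).

`ELx_of31`: the end pieces from the level event of the slab `b - 1`. `tower31`: the slabs and their lengths from the levels are not
reached at `b - 2` and `b - 1`. `Slabs.sub31`: a part of the slabs.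
-/

set_option autoImplicit false

namespace Pool.Agent.W_7d29a1_C1.D31

open MeasureTheory ProbabilityTheory Filter Topology Finset
open Pool.Agent.W_7d29a1_F Pool.Agent.W_7d29a1_h4g Pool.Agent.W_7d29a1_H Pool.Agent.W_7d29a1_HS
open Pool.Agent.W_7d29a1_C1.S71 Pool.Agent.W_7d29a1_C1.Sw9 Pool.Agent.W_7d29a1_C1.H75 Pool.Agent.W_7d29a1_C1.U16
open Pool.Agent.W_7d29a1_C1.FarK89 Pool.Agent.W_7d29a1_C1.FarW89
open Pool.Agent.W_7d29a1_C1.T10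
open Pool.Agent.W_7d29a1_C1.H60
open scoped ENNReal

noncomputable section

variable {μ : Measure ℝ} {s : ℝ} {c C θ K h : ℝ} {n₀ P : ℕ}

section Sub

variable [IsProbabilityMeasure μ]

/-- **A part of the slabs**, with a smaller threshold. -/
theorem Slabs.sub31 {η : Env} {κ : Pt} {r T N : ℕ → ℕ} {q : ℕ → ℝ} {bs : ℕ → Pt} {a b Tt n₁ : ℕ} {Q : ℝ}
    (S : Slabs μ s c θ K h P η κ r T N q bs a b Tt n₁ Q) {a' b' n' : ℕ} (h1 : a ≤ a') (h2 : b' ≤ b) (h3 : n' ≤ n₁)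
    (hw : ∀ u, a ≤ u → u < b → 0 ≤ wd μ s (T u)) (hw' : 0 ≤ wd μ s Tt) :
    Slabs μ s c θ K h P η κ r T N q bs a' b' Tt n' Q := by
  refine ⟨fun u g1 g2 => S.q0 u (h1.trans g1) (by omega), S.K3, h3.trans S.Tt1, fun u g1 g2 => h3.trans (S.T1 u (h1.trans g1) (by omega)),
    fun u g1 g2 => S.TT u (h1.trans g1) (by omega), fun u g1 g2 => S.NT u (h1.trans g1) (by omega),
    fun u g1 g2 => S.rr u (h1.trans g1) (by omega), fun u g1 g2 => S.b1 u (h1.trans g1) (by omega),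
    fun u g1 g2 => S.b2 u (h1.trans g1) (by omega), fun u g1 g2 => S.b3 u (h1.trans g1) (by omega),
    fun u g1 g2 => S.far u (h1.trans g1) (by omega), ?_, S.force⟩
  refine le_trans (sum_le_sum_of_subset_of_nonneg (Ico_subset_Ico h1 h2) fun u hu _ => ?_) S.cost
  rw [mem_Ico] at hu
  have g1 := hw u hu.1 hu.2
  have g2 := EE_pos (μ := μ) (s := s) (T u)
  have g3 := gr_nonneg (2 * P) (show 0 ≤ 2 * wd μ s Tt / wd μ s (T u) by positivity)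
  positivity

end Sub

/-- **The end pieces** from the level event of the last slab. -/
theorem ELx_of31 {Kw : ℝ} {T : ℕ → ℕ} {y : ℕ → ℝ} {v : ℕ} {o : ℕ × ℤ} {l : ℕ} (ho : o.1 + T v ≤ T (v + 1)) :
    EL60 μ s c θ Kw P T y v o l ⊆ ELx60 μ s c θ Kw P (2 * T (v + 1)) (T v) (-(T (v + 1) : ℤ)) (T (v + 1) : ℤ) (y l) o := by
  intro η hη
  obtain ⟨h1, h2⟩ := hη
  refine ⟨?_, ?_⟩
  · have e : (min ((o.1 : ℤ) - (T v : ℤ)) (T (v + 1) : ℤ) - -(T (v + 1) : ℤ)).toNat = min (o.1 + T (v + 1) - T v) (2 * T (v + 1)) := by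
      omega
    show η ∈ Far16 μ s c θ Kw (2 * T (v + 1)) (min ((o.1 : ℤ) - (T v : ℤ)) (T (v + 1) : ℤ) - -(T (v + 1) : ℤ)).toNat P _ _
    rw [e]
    exact h1
  · have e : ((T (v + 1) : ℤ) - ((o.1 : ℤ) + (T v : ℤ))).toNat = T (v + 1) - (o.1 + T v) := by omega
    show η ∈ Far16 μ s c θ Kw (2 * T (v + 1)) ((T (v + 1) : ℤ) - ((o.1 : ℤ) + (T v : ℤ))).toNat P _ _
    rw [e]
    exact h2

variable [IsProbabilityMeasure μ]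

/-- The rows of the tower. -/
def rW31 (G : Gd) (h₀ Kg : ℕ) (x : ℕ × ℤ) (b : ℕ) : ℕ → ℕ :=
  rT G (Tg h₀ Kg) x b ((G.z b x).1 - Tg h₀ Kg b) ((G.z b x).1 + Tg h₀ Kg b)

theorem rW_low {G : Gd} {h₀ Kg : ℕ} {x : ℕ × ℤ} {b u : ℕ} (hb : 1 ≤ b) (hu : u ≤ b) :
    rW31 G h₀ Kg x b (b - u) = (G.z u x).1 - Tg h₀ Kg u := by
  unfold rW31
  rcases Nat.eq_or_lt_of_le hu with h1 | h1
  · subst h1
    rw [Nat.sub_self, rT_zero]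
  · rw [rT_low (by omega) (by omega)]
    have e : b - (b - u) = u := by omega
    rw [e]

theorem rW_up {G : Gd} {h₀ Kg : ℕ} {x : ℕ × ℤ} {b u : ℕ} (hb : 1 ≤ b) (hu : u ≤ b) :
    rW31 G h₀ Kg x b (b + u) = (G.z u x).1 + Tg h₀ Kg u := by
  unfold rW31
  rcases Nat.eq_or_lt_of_le hu with h1 | h1
  · subst h1
    have e : u + u = 2 * u := by omega
    rw [e, rT_end hb]
  · rw [rT_up hb (Tg_zero h₀ Kg) (by omega) (by omega)]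
    have e : b + u - b = u := by omega
    rw [e]

/-- **THE TOWER.** -/
theorem tower31 (h0 : In μ s c C n₀) (P : ℕ) {Kg : ℕ} (hKg : 2 ≤ Kg) : ∃ Rg : ℝ, 1 < Rg ∧ ∃ n₁ : ℕ, 1 ≤ n₁ ∧ ∀ n₂ : ℕ, n₁ ≤ n₂ →
    ∀ q₀ Λ : ℝ, 0 ≤ q₀ → 0 ≤ Λ → ∃ Q : ℝ, 0 < Q ∧
    ∀ {θ Kw h R C₀ : ℝ} {B h₀ : ℕ} {G : Gd} {L Lm b : ℕ} {y : ℕ → ℝ} {x : ℕ × ℤ} {ω : Env},
      0 ≤ θ → θ ≤ 1 / 8 → 5 ≤ Kw → GW μ s R B C₀ h₀ Kg L G → C₀ * C₀ ≤ Λ → n₂ ≤ h₀ → 2 ≤ b → b ≤ L → b ≤ Lm → Monotone y → (∀ l, 0 ≤ y l) →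
      (∀ l, y l ≤ q₀ * Rg ^ l) → (∀ v ≤ b, Tg h₀ Kg v ≤ (G.z v x).1) →
      ω ∉ Rch (lvL G (LvE Lm (EL60 μ s c θ Kw P (Tg h₀ Kg) y)) L) (b - 2) x →
      ω ∉ Rch (lvL G (LvE Lm (EL60 μ s c θ Kw P (Tg h₀ Kg) y)) L) (b - 1) x →
      |h| * wd μ s (2 * Tg h₀ Kg b) ≤ c / 8 * EE μ s (2 * Tg h₀ Kg b) →
      ∃ (N : ℕ → ℕ) (q : ℕ → ℝ) (bs : ℕ → Pt),
        Slabs μ s c θ (Kw - 2) h P ω (pt x) (rW31 G h₀ Kg x b) (sT (Tg h₀ Kg) b) N q bs 0 (2 * b) (2 * Tg h₀ Kg b) n₂ Q ∧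
        ∀ u, u < 2 * b → θ * sT (Tg h₀ Kg) b u ≤ ((rW31 G h₀ Kg x b (u + 1) - rW31 G h₀ Kg x b u : ℕ) : ℝ) := by
  obtain ⟨Rg, hRg, n₁, hn1, H⟩ := slabsG60 h0 P hKg
  refine ⟨Rg, hRg, n₁, hn1, fun n₂ hn2 q₀ Λ hq₀ hΛ => ?_⟩
  obtain ⟨Q, hQ, HC⟩ := H n₂ hn2 q₀ Λ hq₀ hΛ
  refine ⟨Q, hQ, ?_⟩
  intro θ Kw h R C₀ B h₀ G L Lm b y x ω hθ0 hθ hKw g hΛC hh hb hbL hbLm hym hy0 hyR hrow hR2 hR1 hforce
  have hdg := slab_rows g.ok (fun v _ => g.HT v) (show b - 1 < L by omega) x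
  rw [show b - 1 + 1 = b by omega] at hdg
  obtain ⟨d1, d2, d3, d4⟩ := hdg
  have hlev := lev_not60 (fun v o i j hij => EL60_mono hym v o i j hij) (show b - 1 < Lm by omega) (show b - 1 < L by omega) hR1 (v := b - 1) le_rfl
  rw [Nat.sub_self] at hlev
  have hx : sh (G.x b x) ω ∈ ELx60 μ s c θ Kw P (2 * Tg h₀ Kg b) (Tg h₀ Kg (b - 1)) (-(Tg h₀ Kg b : ℤ)) (Tg h₀ Kg b : ℤ) (y 0)
      (G.dg (b - 1) x) := by
    have h1 : sh (G.x (b - 1 + 1) x) ω ∈ EL60 μ s c θ Kw P (Tg h₀ Kg) y (b - 1) (G.dg (b - 1) x) 0 := hlev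
    have h2 := ELx_of31 (μ := μ) (s := s) (c := c) (θ := θ) (P := P) (Kw := Kw) (T := Tg h₀ Kg) (y := y) (v := b - 1) (o := G.dg (b - 1) x) (l := 0)
      (by rw [show b - 1 + 1 = b by omega]; exact d3) h1
    rw [show b - 1 + 1 = b by omega] at h2
    exact h2
  have hTT : 2 * Tg h₀ Kg (b - 1) ≤ Tg h₀ Kg b := by
    have h1 := (len_Hg (h₀ := h₀) (K := Kg) (G := G) hKg g.H (b - 1)).1
    rwa [show b - 1 + 1 = b by omega] at h1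
  have hTH := g.TH (v := b) (by omega)
  have hTH' := g.TH (v := b - 1) (by omega)
  have hrb := hrow b le_rfl
  have hT0 : (0 : ℝ) ≤ (Tg h₀ Kg b : ℝ) := Nat.cast_nonneg _
  have hTTr : 2 * (Tg h₀ Kg (b - 1) : ℝ) ≤ Tg h₀ Kg b := by exact_mod_cast hTT
  have hTHr : (Tg h₀ Kg b : ℝ) = 2 * G.H b := by exact_mod_cast hTH
  have hTHr' : (Tg h₀ Kg (b - 1) : ℝ) = 2 * G.H (b - 1) := by exact_mod_cast hTH'
  have hθT : θ * (Tg h₀ Kg b : ℝ) ≤ 1 / 8 * (Tg h₀ Kg b : ℝ) := mul_le_mul_of_nonneg_right hθ hT0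
  have e1 : (((G.z b x).1 - Tg h₀ Kg b : ℕ) : ℤ) = ((G.z b x).1 : ℤ) - (Tg h₀ Kg b : ℤ) := Nat.cast_sub hrb
  have key := HC (θ := θ) (Kw := Kw) (h := h) (κ := pt x) (r₀ := -(Tg h₀ Kg b : ℤ)) (r₁ := (Tg h₀ Kg b : ℤ))
    (ρ₀ := (G.z b x).1 - Tg h₀ Kg b) (ρ₁ := (G.z b x).1 + Tg h₀ Kg b) (q₁ := y 0) hKw g.ok g.H hh hb hbL (by omega) hym hy0 hyR (hy0 0)
    (by simpa using hyR 0) hrow hR2 hx ?_ le_rfl le_rfl (by rw [e1]; linarith) (by push_cast; linarith) hθ hθ0 ?_ ?_ hforce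
  · exact ⟨_, _, _, key.1, fun u hu => key.2 u (Nat.zero_le _) hu⟩
  · intro v hv1 hvb
    have h1 := g.lat_base' hv1 (hvb.trans hbL) x
    have h2 := g.wB v hv1
    have h3 := g.w2 v hv1
    have h4 := g.w21 v hv1
    have hC := g.C1
    have h5 : C₀ * wd μ s (Tg h₀ Kg v) ≤ C₀ * (C₀ * wd μ s (2 * Tg h₀ Kg v)) := mul_le_mul_of_nonneg_left h3 (by linarith)
    have h6 : C₀ * C₀ * wd μ s (2 * Tg h₀ Kg v) ≤ Λ * wd μ s (2 * Tg h₀ Kg v) := mul_le_mul_of_nonneg_right hΛC (by linarith)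
    linarith
  · rw [e1]
    push_cast
    linarith
  · push_cast
    linarith

end

end Pool.Agent.W_7d29a1_C1.D31
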