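import Pool.Agent.W_7d29a1_C1.DepA6
import Pool.Agent.W_7d29a1_C1.ChnV40
import Pool.Agent.W_7d29a1_C1.Tow10

/-!
MP_7d29a1_pr, attractor route [C1], field `nu`, input `hU` of `nuS77`: THE NUMBER OF THE SCALES AT WHICH ONE CONTACT IS NOT TAME. (helper77)

One sorted list of cuts `Z x` per contact `x` (no chain). `felt77`: all scales `u < m` off a set of `≤ 3 (SL + SN)` scales feel no layer and
no node. `cnt77`: off a set of small probability this holds for all contacts with `≤ 9 r + 9 #Sw E₀` scales, layers and nodes which contain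
a row of `Sw` included. `hU77`: the count of `Un`. `Zt77 G T L x`: the tower of the contact itself, lower edges `z_v - T_v`, `v = L .. 1`,
upper edges `z_v + T_v`, `v = 0 .. L`; `nfl_uc77` .. `nfn_lo77` = what `not felt` says. `numU77`: the numbers.
-/

set_option autoImplicit false

namespace Pool.Agent.W_7d29a1_C1.H77

open MeasureTheory ProbabilityTheory Finset Filter Topology
open Pool.Agent.W_7d29a1_F Pool.Agent.W_7d29a1_C1.H40 Pool.Agent.W_7d29a1_C1.Dep6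
open Pool.Agent.W_7d29a1_C1.T10 (Gd)
open scoped ENNReal

noncomputable section

section Count

variable {Λ : Type*} [Inhabited Λ]

open Classical in
/-- **The scales which feel a layer or a node.** -/
theorem felt77 (Z : List (Cut Λ)) (dL : Cut Λ → Cut Λ → Env → ℕ) (dN : Cut Λ → Cut Λ → Cut Λ → Env → ℕ) (scL : Cut Λ → Cut Λ → ℕ)
    (scN : Cut Λ → Cut Λ → Cut Λ → ℕ) (η : Env) (m : ℕ) : ∃ E : Finset ℕ, E.card ≤ 3 * (SL dL Z η + SN dN Z η) ∧
      ∀ u < m, u ∉ E → NFL dL scL Z u η ∧ NFN dN scN Z u η := by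
  set EL : ℕ → Finset ℕ := fun k => (range m).filter fun u =>
    Felt (scL (Z.getD k d0) (Z.getD (k + 1) d0)) (dL (Z.getD k d0) (Z.getD (k + 1) d0) η) u with hEL
  set EN : ℕ → Finset ℕ := fun k => (range m).filter fun u =>
    Felt (scN (Z.getD k d0) (Z.getD (k + 1) d0) (Z.getD (k + 2) d0))
      (dN (Z.getD k d0) (Z.getD (k + 1) d0) (Z.getD (k + 2) d0) η) u with hEN
  refine ⟨(range (Z.length - 1)).biUnion EL ∪ (range (Z.length - 2)).biUnion EN, ?_, fun u hu hE => ⟨fun P a b Q e hF => hE ?_,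
    fun P a b d Q e hF => hE ?_⟩⟩
  · refine (card_union_le _ _).trans ?_
    rw [mul_add]
    refine Nat.add_le_add ?_ ?_
    · refine card_biUnion_le.trans ?_
      unfold SL
      rw [mul_sum]
      refine sum_le_sum fun k _ => ?_
      rw [hEL]
      show ((range m).filter _).card ≤ _
      rw [card_filter]
      exact sum_felt _ _ _
    · refine card_biUnion_le.trans ?_
      unfold SN
      rw [mul_sum]
      refine sum_le_sum fun k _ => ?_
      rw [hEN]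
      show ((range m).filter _).card ≤ _
      rw [card_filter]
      exact sum_felt _ _ _
  · have hlen : Z.length = P.length + (Q.length + 2) := by rw [e]; simp
    refine mem_union_left _ (mem_biUnion.2 ⟨P.length, mem_range.2 (by omega), mem_filter.2 ⟨mem_range.2 hu, ?_⟩⟩)
    rw [e, getD_split2.1, getD_split2.2]
    exact hF
  · have hlen : Z.length = P.length + (Q.length + 3) := by rw [e]; simp
    refine mem_union_right _ (mem_biUnion.2 ⟨P.length, mem_range.2 (by omega), mem_filter.2 ⟨mem_range.2 hu, ?_⟩⟩)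
    rw [e, getD_split2.1, getD_split2.2, getD_split3]
    exact hF

variable {μ : Measure ℝ} [IsProbabilityMeasure μ] {X : Type*}

open Classical in
/-- **THE COUNT**: one list of cuts per contact. Off `Bd`, for every contact all scales `u < m` off a set of `≤ 9 r + 9 #Sw E₀` scales feel
no layer, and no node without a row of `Sw`. -/
theorem cnt77 {S : Finset X} {Z : X → List (Cut Λ)} {ℓ : ℕ} (hpw : ∀ x ∈ S, (Z x).Pairwise fun c d => c.row ≤ d.row)
    (hlen : ∀ x ∈ S, (Z x).length ≤ ℓ) {dL : Cut Λ → Cut Λ → Env → ℕ} {dN : Cut Λ → Cut Λ → Cut Λ → Env → ℕ} {z M tl : ℝ≥0∞}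
    (hL : Dp2 μ z M dL) (hN : Dp3 μ z M dN) (hz : 1 ≤ z) (hz' : z ≠ ∞) (hM : 1 ≤ M) (Sw : Finset ℤ) (E₀ : ℕ)
    (htl : ∀ a b, law μ {η | E₀ < dL a b η} ≤ tl) (scL : Cut Λ → Cut Λ → ℕ) (scN : Cut Λ → Cut Λ → Cut Λ → ℕ)
    {F : Finset (Cut Λ)} (hF : ∀ x ∈ S, ∀ d ∈ Z x, d ∈ F) (bad : Set Env) (r m : ℕ) :
    ∃ Bd : Set Env, bad ⊆ Bd ∧ law μ Bd ≤ (law μ bad + (F.card : ℝ≥0∞) ^ 2 * tl) + S.card * (3 * (M ^ ℓ / z ^ r)) ∧
      ∀ η ∉ Bd, ∀ x ∈ S, ∃ E : Finset ℕ, E.card ≤ 9 * r + 9 * (Sw.card * E₀) ∧ ∀ u < m, u ∉ E → NFL dL scL (Z x) u η ∧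
        ∀ P a b e Q, Z x = P ++ a :: b :: e :: Q → ¬ HasSw Sw a e → ¬ Felt (scN a b e) (dN a b e η) u := by
  have hP : IsProbabilityMeasure (law μ) := by unfold law; infer_instance
  -- the depths without the rows of `Sw`
  set dL' : Cut Λ → Cut Λ → Env → ℕ := fun a b η => if HasSw Sw a b then 0 else dL a b η with hdL
  set dN' : Cut Λ → Cut Λ → Cut Λ → Env → ℕ := fun a b e η => if HasSw Sw a e then 0 else dN a b e η with hdN
  have hL' : Dp2 μ z M dL' := by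
    have h := hL.ite hM fun a b => ¬ HasSw Sw a b
    have e : (fun (a b : Cut Λ) (η : Env) => if ¬ HasSw Sw a b then dL a b η else 0) = dL' := by
      funext a b η
      exact ite_not ..
    rwa [e] at h
  have hN' : Dp3 μ z M dN' := by
    have h := hN.ite hM fun a _ e => ¬ HasSw Sw a e
    have e : (fun (a b e : Cut Λ) (η : Env) => if ¬ HasSw Sw a e then dN a b e η else 0) = dN' := by
      funext a b e η
      exact ite_not ..
    rwa [e] at h
  have hone : ∀ x ∈ S, law μ {η | 3 * r ≤ SL dL' (Z x) η + SN dN' (Z x) η} ≤ 3 * (M ^ ℓ / z ^ r) := fun x hx =>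
    tailZ hL'.meas hN'.meas hL'.rows hN'.rows hz hz' hM (hpw x hx) (hlen x hx) (fun _ _ => hL'.mom _ _) (fun _ _ => hN'.mom _ _ _) r
  refine ⟨(bad ∪ bad6 F dL E₀) ∪ ⋃ x ∈ S, {η | 3 * r ≤ SL dL' (Z x) η + SN dN' (Z x) η},
    fun η hη => Or.inl (Or.inl hη), ?_, fun η hη x hx => ?_⟩
  · refine (measure_union_le _ _).trans (add_le_add ((measure_union_le _ _).trans (add_le_add le_rfl (bad6_le htl))) ?_)
    refine (measure_biUnion_finset_le _ _).trans ((sum_le_sum hone).trans (le_of_eq ?_))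
    rw [sum_const, nsmul_eq_mul]
  · have hb6 : η ∉ bad6 F dL E₀ := fun h => hη (Or.inl (Or.inr h))
    have hx3 : SL dL' (Z x) η + SN dN' (Z x) η < 3 * r := by
      by_contra hcon
      exact hη (Or.inr (Set.mem_biUnion (show x ∈ (S : Set X) from hx) (not_lt.1 hcon)))
    obtain ⟨E, hE, hnf⟩ := felt77 (Z x) (sw6 Sw E₀ dL) (swN6 Sw E₀ dN) scL scN η m
    refine ⟨E, hE.trans ?_, fun u hu huE => ?_⟩
    · have h5 := SL_sw (hpw x hx) Sw (dpL := sw6 Sw E₀ dL) (η := η) (E0 := E₀) (fun a b hs => (sw6_pos hs).le)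
      have h6 := SN_sw (hpw x hx) Sw (dpN := swN6 Sw E₀ dN) (η := η) (E0 := E₀) (fun a b e hs => (swN6_pos hs).le)
      have e5 : (fun (a b : Cut Λ) (η : Env) => if HasSw Sw a b then 0 else sw6 Sw E₀ dL a b η) = dL' := by
        funext a b η
        by_cases hs : HasSw Sw a b
        · rw [if_pos hs, hdL]
          exact (if_pos hs).symm
        · rw [if_neg hs, sw6_neg hs, hdL]
          exact (if_neg hs).symm
      have e6 : (fun (a b e : Cut Λ) (η : Env) => if HasSw Sw a e then 0 else swN6 Sw E₀ dN a b e η) = dN' := by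
        funext a b e η
        by_cases hs : HasSw Sw a e
        · rw [if_pos hs, hdN]
          exact (if_pos hs).symm
        · rw [if_neg hs, swN6_neg hs, hdN]
          exact (if_neg hs).symm
      rw [e5] at h5
      rw [e6] at h6
      omega
    · obtain ⟨h1, h2⟩ := hnf u hu huE
      refine ⟨fun P a b Q e => nfelt6 (h1 P a b Q e) (Or.inl ?_), fun P a b d Q e hs => ?_⟩
      · by_contra hc
        exact hb6 ⟨a, hF x hx a (by rw [e]; simp), b, hF x hx b (by rw [e]; simp), not_le.1 hc⟩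
      · have h3 := h2 P a b d Q e
        rwa [swN6_neg hs] at h3

open Classical in
/-- **`hU` OF `nuS77`**: the analysis `hT` (a scale off `Ex`, which feels no layer and no node, is not in `Un`) gives the count. `Q x η`: an
extra premise on the contact (`ε₀ ≤ w`). -/
theorem hU77 {S : Finset X} {Z : X → List (Cut Λ)} {ℓ : ℕ} (hpw : ∀ x ∈ S, (Z x).Pairwise fun c d => c.row ≤ d.row)
    (hlen : ∀ x ∈ S, (Z x).length ≤ ℓ) {dL : Cut Λ → Cut Λ → Env → ℕ} {dN : Cut Λ → Cut Λ → Cut Λ → Env → ℕ} {z M tl : ℝ≥0∞}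
    (hL : Dp2 μ z M dL) (hN : Dp3 μ z M dN) (hz : 1 ≤ z) (hz' : z ≠ ∞) (hM : 1 ≤ M) (Sw : Finset ℤ) (E₀ : ℕ)
    (htl : ∀ a b, law μ {η | E₀ < dL a b η} ≤ tl) (scL : Cut Λ → Cut Λ → ℕ) (scN : Cut Λ → Cut Λ → Cut Λ → ℕ)
    {F : Finset (Cut Λ)} (hF : ∀ x ∈ S, ∀ d ∈ Z x, d ∈ F) {bad : Set Env} {r m : ℕ} {Q : X → Env → Prop} {Un : ℕ → X → Set Env}
    {Ex : Finset ℕ}
    (hT : ∀ η ∉ bad, ∀ x ∈ S, Q x η → ∀ u < m, u ∉ Ex → NFL dL scL (Z x) u η →
      (∀ P a b e Q, Z x = P ++ a :: b :: e :: Q → ¬ HasSw Sw a e → ¬ Felt (scN a b e) (dN a b e η) u) → η ∉ Un u x)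
    {b : ℕ} (hb : Ex.card + 9 * r + 9 * (Sw.card * E₀) ≤ b) :
    ∃ Bd : Set Env, bad ⊆ Bd ∧ law μ Bd ≤ (law μ bad + (F.card : ℝ≥0∞) ^ 2 * tl) + S.card * (3 * (M ^ ℓ / z ^ r)) ∧
      ∀ η ∉ Bd, ∀ x ∈ S, Q x η → ∀ F' : Finset ℕ, F' ⊆ range m → (∀ u ∈ F', η ∈ Un u x) → F'.card ≤ b := by
  obtain ⟨Bd, h1, h2, h3⟩ := cnt77 hpw hlen hL hN hz hz' hM Sw E₀ htl scL scN hF bad r m
  refine ⟨Bd, h1, h2, fun η hη x hx hQ F' hF' hU => ?_⟩
  obtain ⟨E, hE, h4⟩ := h3 η hη x hx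
  have hsub : F' ⊆ Ex ∪ E := by
    intro u hu
    by_contra hcon
    rw [mem_union, not_or] at hcon
    have hum := mem_range.1 (hF' hu)
    obtain ⟨h5, h6⟩ := h4 u hum hcon.2
    exact hT η (fun hb' => hη (h1 hb')) x hx hQ u hum hcon.1 h5 h6 (hU u hu)
  have := (card_le_card hsub).trans (card_union_le _ _)
  omega

end Count

/-! ### The tower of the contact itself -/

section Tower

/-- The upper edge of the region of the scale `v` around the box of `x`. -/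
def uc77 (G : Gd) (T : ℕ → ℕ) (x : ℕ × ℤ) (v : ℕ) : Cut (ℕ × ℤ) := ⟨((G.z v x).1 : ℤ) + T v, v, G.z v x⟩

/-- The lower edge. -/
def lc77 (G : Gd) (T : ℕ → ℕ) (x : ℕ × ℤ) (v : ℕ) : Cut (ℕ × ℤ) := ⟨((G.z v x).1 : ℤ) - T v, v, G.z v x⟩

/-- The upper edges `v, …, v + n - 1`. -/
def ucs77 (G : Gd) (T : ℕ → ℕ) (x : ℕ × ℤ) (v n : ℕ) : List (Cut (ℕ × ℤ)) := (List.range n).map fun k => uc77 G T x (v + k)

/-- The lower edges `n, …, 1` (descending scales). -/
def lcs77 (G : Gd) (T : ℕ → ℕ) (x : ℕ × ℤ) : ℕ → List (Cut (ℕ × ℤ))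
  | 0 => []
  | n + 1 => lc77 G T x (n + 1) :: lcs77 G T x n

/-- **THE TOWER OF THE CONTACT**: lower edges `L, …, 1`, upper edges `0, …, L`. -/
def Zt77 (G : Gd) (T : ℕ → ℕ) (L : ℕ) (x : ℕ × ℤ) : List (Cut (ℕ × ℤ)) := lcs77 G T x L ++ ucs77 G T x 0 (L + 1)

variable {G : Gd} {T : ℕ → ℕ} {L : ℕ} {x : ℕ × ℤ}

theorem ucs_succ77 (v n : ℕ) : ucs77 G T x v (n + 1) = uc77 G T x v :: ucs77 G T x (v + 1) n := by
  unfold ucs77
  rw [List.range_succ_eq_map, List.map_cons, List.map_map]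
  refine congrArg₂ List.cons rfl ?_
  refine List.map_congr_left fun k _ => ?_
  show uc77 G T x (v + (k + 1)) = uc77 G T x (v + 1 + k)
  rw [show v + (k + 1) = v + 1 + k by omega]

theorem ucs_append77 (v a b : ℕ) : ucs77 G T x v (a + b) = ucs77 G T x v a ++ ucs77 G T x (v + a) b := by
  unfold ucs77
  rw [List.range_add, List.map_append, List.map_map]
  refine congrArg₂ _ rfl (List.map_congr_left fun k _ => ?_)
  show uc77 G T x (v + (a + k)) = uc77 G T x (v + a + k)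
  rw [add_assoc]

theorem lcs_append77 (a b : ℕ) : ∃ P, lcs77 G T x (a + b) = P ++ lcs77 G T x a := by
  induction b with
  | zero => exact ⟨[], rfl⟩
  | succ b ih =>
    obtain ⟨P, hP⟩ := ih
    refine ⟨lc77 G T x (a + b + 1) :: P, ?_⟩
    show lc77 G T x (a + b + 1) :: lcs77 G T x (a + b) = _
    rw [hP]
    rfl

theorem length_Zt77 : (Zt77 G T L x).length = 2 * L + 1 := by
  have h1 : ∀ n, (lcs77 G T x n).length = n := by
    intro n
    induction n with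
    | zero => rfl
    | succ n ih =>
      show (lcs77 G T x n).length + 1 = n + 1
      rw [ih]
  unfold Zt77 ucs77
  rw [List.length_append, h1, List.length_map, List.length_range]
  omega

theorem mem_lcs77 {n : ℕ} {d : Cut (ℕ × ℤ)} (h : d ∈ lcs77 G T x n) : ∃ v, 1 ≤ v ∧ v ≤ n ∧ d = lc77 G T x v := by
  induction n with
  | zero => exact absurd h (by simp [lcs77])
  | succ n ih =>
    have h1 : d ∈ lc77 G T x (n + 1) :: lcs77 G T x n := h
    rcases List.mem_cons.1 h1 with rfl | h2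
    · exact ⟨n + 1, by omega, le_rfl, rfl⟩
    · obtain ⟨v, a1, a2, a3⟩ := ih h2
      exact ⟨v, a1, by omega, a3⟩

theorem mem_ucs77 {v n : ℕ} {d : Cut (ℕ × ℤ)} (h : d ∈ ucs77 G T x v n) : ∃ w, v ≤ w ∧ w < v + n ∧ d = uc77 G T x w := by
  unfold ucs77 at h
  obtain ⟨k, hk, rfl⟩ := List.mem_map.1 h
  rw [List.mem_range] at hk
  exact ⟨v + k, by omega, by omega, rfl⟩

/-- The cuts of the tower. -/
theorem mem_Zt77 {d : Cut (ℕ × ℤ)} (h : d ∈ Zt77 G T L x) : ∃ v ≤ L, d = lc77 G T x v ∨ d = uc77 G T x v := by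
  rcases List.mem_append.1 h with h1 | h1
  · obtain ⟨v, _, a2, a3⟩ := mem_lcs77 h1
    exact ⟨v, a2, Or.inl a3⟩
  · obtain ⟨v, _, a2, a3⟩ := mem_ucs77 h1
    exact ⟨v, by omega, Or.inr a3⟩

open Classical in
/-- All the cuts of the towers of a finite set of contacts. -/
def Ft77 (G : Gd) (T : ℕ → ℕ) (L : ℕ) (S : Finset (ℕ × ℤ)) : Finset (Cut (ℕ × ℤ)) :=
  S.biUnion fun x => (range (L + 1)).image (lc77 G T x) ∪ (range (L + 1)).image (uc77 G T x)

theorem mem_Ft77 {S : Finset (ℕ × ℤ)} (hx : x ∈ S) {d : Cut (ℕ × ℤ)} (h : d ∈ Zt77 G T L x) : d ∈ Ft77 G T L S := by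
  classical
  obtain ⟨v, hv, h1⟩ := mem_Zt77 h
  refine mem_biUnion.2 ⟨x, hx, ?_⟩
  rcases h1 with rfl | rfl
  · exact mem_union_left _ (mem_image.2 ⟨v, mem_range.2 (by omega), rfl⟩)
  · exact mem_union_right _ (mem_image.2 ⟨v, mem_range.2 (by omega), rfl⟩)

theorem card_Ft77 (S : Finset (ℕ × ℤ)) : (Ft77 G T L S).card ≤ S.card * (2 * (L + 1)) := by
  classical
  refine card_biUnion_le.trans ((sum_le_card_nsmul _ _ (2 * (L + 1)) fun x _ => ?_).trans (le_of_eq (smul_eq_mul _ _)))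
  refine (card_union_le _ _).trans ?_
  have h1 := card_image_le (s := range (L + 1)) (f := lc77 G T x)
  have h2 := card_image_le (s := range (L + 1)) (f := uc77 G T x)
  rw [card_range] at h1 h2
  omega

/-- The rows of the tower. -/
theorem uc_mono77 (hG : G.Ok L) (hH : ∀ v, v < L → G.H (v + 1) + T v ≤ T (v + 1) + G.H v) {a b : ℕ} (hab : a ≤ b) (hb : b ≤ L) :
    (uc77 G T x a).row ≤ (uc77 G T x b).row := by
  induction b, hab using Nat.le_induction with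
  | base => exact le_rfl
  | succ b hab ih =>
    refine (ih (by omega)).trans ?_
    have h1 := congrArg Prod.fst (hG.z_dg (show b < L by omega) x)
    have h2 : (G.dg b x).1 + G.H b ≤ G.H (b + 1) := hG.row_place (Nat.le_succ b) hb x
    have h3 := hH b (by omega)
    have h4 : (G.z b x).1 = (G.z (b + 1) x).1 + (G.dg b x).1 := h1
    show ((G.z b x).1 : ℤ) + T b ≤ ((G.z (b + 1) x).1 : ℤ) + T (b + 1)
    omega

theorem lc_mono77 (hG : G.Ok L) (hT : Monotone T) {a b : ℕ} (hab : a ≤ b) (hb : b ≤ L) :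
    (lc77 G T x b).row ≤ (lc77 G T x a).row := by
  induction b, hab using Nat.le_induction with
  | base => exact le_rfl
  | succ b hab ih =>
    refine le_trans ?_ (ih (by omega))
    have h1 := congrArg Prod.fst (hG.z_dg (show b < L by omega) x)
    have h4 : (G.z b x).1 = (G.z (b + 1) x).1 + (G.dg b x).1 := h1
    have h5 : T b ≤ T (b + 1) := hT (Nat.le_succ b)
    show ((G.z (b + 1) x).1 : ℤ) - T (b + 1) ≤ ((G.z b x).1 : ℤ) - T b
    omega

/-- **The tower is sorted.** -/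
theorem pw_Zt77 (hG : G.Ok L) (hT : Monotone T) (hH : ∀ v, v < L → G.H (v + 1) + T v ≤ T (v + 1) + G.H v) :
    (Zt77 G T L x).Pairwise fun c d => c.row ≤ d.row := by
  unfold Zt77
  refine List.pairwise_append.2 ⟨?_, ?_, fun c hc d hd => ?_⟩
  · have key : ∀ n, n ≤ L → (lcs77 G T x n).Pairwise fun c d => c.row ≤ d.row := by
      intro n
      induction n with
      | zero => exact fun _ => List.Pairwise.nil
      | succ n ih =>
        intro hn
        refine List.Pairwise.cons (fun d hd => ?_) (ih (by omega))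
        obtain ⟨v, _, a2, rfl⟩ := mem_lcs77 hd
        exact lc_mono77 hG hT (by omega) hn
    exact key L le_rfl
  · unfold ucs77
    rw [List.pairwise_map]
    refine List.Pairwise.imp_of_mem (fun {a b} ha hb hab => ?_) List.pairwise_lt_range
    rw [List.mem_range] at ha hb
    exact uc_mono77 hG hH (by omega) (by omega)
  · obtain ⟨v, _, a2, rfl⟩ := mem_lcs77 hc
    obtain ⟨w, _, b2, rfl⟩ := mem_ucs77 hd
    have h1 := lc_mono77 (x := x) hG hT (Nat.zero_le v) a2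
    have h2 := uc_mono77 (x := x) hG hH (Nat.zero_le w) (by omega)
    have h3 : (lc77 G T x 0).row ≤ (uc77 G T x 0).row := by
      show ((G.z 0 x).1 : ℤ) - T 0 ≤ ((G.z 0 x).1 : ℤ) + T 0
      omega
    linarith

/-! #### What `not felt` says -/

variable {dL : Cut (ℕ × ℤ) → Cut (ℕ × ℤ) → Env → ℕ} {scL : Cut (ℕ × ℤ) → Cut (ℕ × ℤ) → ℕ} {u : ℕ} {η : Env}
  {PN : Cut (ℕ × ℤ) → Cut (ℕ × ℤ) → Cut (ℕ × ℤ) → Prop}

/-- Two successive cuts of the tower. -/
theorem split_uc77 {v : ℕ} (hv : v < L) : ∃ P Q, Zt77 G T L x = P ++ uc77 G T x v :: uc77 G T x (v + 1) :: Q := by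
  refine ⟨lcs77 G T x L ++ ucs77 G T x 0 v, ucs77 G T x (v + 2) (L - v - 1), ?_⟩
  unfold Zt77
  have e1 : L + 1 = v + ((L - v - 1) + 1 + 1) := by omega
  rw [e1, ucs_append77, ucs_succ77, ucs_succ77, List.append_assoc, Nat.zero_add]

theorem split_lc77 {v : ℕ} (h1 : 1 ≤ v) (hv : v < L) : ∃ P Q, Zt77 G T L x = P ++ lc77 G T x (v + 1) :: lc77 G T x v :: Q := by
  obtain ⟨P, hP⟩ := lcs_append77 (G := G) (T := T) (x := x) (v + 1) (L - (v + 1))
  obtain ⟨w, rfl⟩ : ∃ w, v = w + 1 := ⟨v - 1, by omega⟩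
  refine ⟨P, lcs77 G T x w ++ ucs77 G T x 0 (L + 1), ?_⟩
  unfold Zt77
  have e1 : w + 1 + 1 + (L - (w + 1 + 1)) = L := by omega
  rw [e1] at hP
  rw [hP, List.append_assoc]
  rfl

theorem split_mid77 (hL : 1 ≤ L) : ∃ P Q, Zt77 G T L x = P ++ lc77 G T x 1 :: uc77 G T x 0 :: Q := by
  obtain ⟨P, hP⟩ := lcs_append77 (G := G) (T := T) (x := x) 1 (L - 1)
  refine ⟨P, ucs77 G T x 1 L, ?_⟩
  unfold Zt77
  rw [show 1 + (L - 1) = L by omega] at hP
  rw [hP, ucs_succ77, List.append_assoc]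
  rfl

/-- Three successive cuts of the tower. -/
theorem split3_uc77 {v : ℕ} (hv : v + 1 < L) :
    ∃ P Q, Zt77 G T L x = P ++ uc77 G T x v :: uc77 G T x (v + 1) :: uc77 G T x (v + 2) :: Q := by
  refine ⟨lcs77 G T x L ++ ucs77 G T x 0 v, ucs77 G T x (v + 3) (L - v - 2), ?_⟩
  unfold Zt77
  have e1 : L + 1 = v + ((L - v - 2) + 1 + 1 + 1) := by omega
  rw [e1, ucs_append77, ucs_succ77, ucs_succ77, ucs_succ77, List.append_assoc, Nat.zero_add]

theorem split3_lc77 {v : ℕ} (h1 : 1 ≤ v) (hv : v + 1 < L) :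
    ∃ P Q, Zt77 G T L x = P ++ lc77 G T x (v + 2) :: lc77 G T x (v + 1) :: lc77 G T x v :: Q := by
  obtain ⟨P, hP⟩ := lcs_append77 (G := G) (T := T) (x := x) (v + 2) (L - (v + 2))
  obtain ⟨w, rfl⟩ : ∃ w, v = w + 1 := ⟨v - 1, by omega⟩
  refine ⟨P, lcs77 G T x w ++ ucs77 G T x 0 (L + 1), ?_⟩
  unfold Zt77
  have e1 : w + 1 + 2 + (L - (w + 1 + 2)) = L := by omega
  rw [e1] at hP
  rw [hP, List.append_assoc]
  rfl

theorem nfl_uc77 (h : NFL dL scL (Zt77 G T L x) u η) {v : ℕ} (hv : v < L) :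
    ¬ Felt (scL (uc77 G T x v) (uc77 G T x (v + 1))) (dL (uc77 G T x v) (uc77 G T x (v + 1)) η) u := by
  obtain ⟨P, Q, e⟩ := split_uc77 (G := G) (T := T) (x := x) hv
  exact h P _ _ Q e

theorem nfl_lc77 (h : NFL dL scL (Zt77 G T L x) u η) {v : ℕ} (h1 : 1 ≤ v) (hv : v < L) :
    ¬ Felt (scL (lc77 G T x (v + 1)) (lc77 G T x v)) (dL (lc77 G T x (v + 1)) (lc77 G T x v) η) u := by
  obtain ⟨P, Q, e⟩ := split_lc77 (G := G) (T := T) (x := x) h1 hv
  exact h P _ _ Q e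

end Tower

/-! ### The numbers -/

/-- **THE NUMBERS**: `z` before everything, `ℓ ≤ C m`, `κ log n ≤ m`. -/
theorem numU77 {δ κ D : ℝ} (hδ : 0 < δ) (hκ : 0 < κ) (hD : 0 ≤ D) (C : ℕ) : ∃ z : ℝ, 1 ≤ z ∧ ∀ᶠ n : ℕ in atTop, ∀ m ℓ r cd : ℕ,
    κ * Real.log n ≤ m → ℓ ≤ C * m → δ * m ≤ r → (cd : ℝ) ≤ (n : ℝ) ^ D →
      (cd : ℝ≥0∞) * (3 * ((2 : ℝ≥0∞) ^ ℓ / (ENNReal.ofReal z) ^ r)) ≤ ENNReal.ofReal ((n : ℝ) ^ (-(2 : ℝ))) := by
  obtain ⟨y, hy⟩ : ∃ y : ℝ, y = C * Real.log 2 + (D + 3) / κ := ⟨_, rfl⟩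
  have hy0 : 0 ≤ y := by
    have := Real.log_nonneg (show (1 : ℝ) ≤ 2 by norm_num)
    rw [hy]
    positivity
  refine ⟨Real.exp (y / δ), Real.one_le_exp (by positivity), ?_⟩
  filter_upwards [eventually_ge_atTop 3] with n hn3
  intro m ℓ r cd hm hl hr hcd
  have hn : (3 : ℝ) ≤ n := by exact_mod_cast hn3
  have n0 : (0 : ℝ) < n := by linarith
  have z0 : 0 < Real.exp (y / δ) := Real.exp_pos _
  have e1 : (cd : ℝ≥0∞) * (3 * ((2 : ℝ≥0∞) ^ ℓ / (ENNReal.ofReal (Real.exp (y / δ))) ^ r)) =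
      ENNReal.ofReal (cd * (3 * (2 ^ ℓ / (Real.exp (y / δ)) ^ r))) := by
    rw [ENNReal.ofReal_mul (by positivity), ENNReal.ofReal_mul (by norm_num), ENNReal.ofReal_div_of_pos (by positivity),
      ENNReal.ofReal_pow (by norm_num), ENNReal.ofReal_pow z0.le, ENNReal.ofReal_natCast]
    norm_num
  rw [e1]
  refine ENNReal.ofReal_le_ofReal ?_
  have hm0 : (0 : ℝ) ≤ m := Nat.cast_nonneg m
  have hlog2 := Real.log_nonneg (show (1 : ℝ) ≤ 2 by norm_num)
  have a1 : (2 : ℝ) ^ ℓ ≤ Real.exp (C * Real.log 2 * m) := by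
    rw [← Real.rpow_natCast, Real.rpow_def_of_pos (by norm_num)]
    refine Real.exp_le_exp.2 ?_
    have : (ℓ : ℝ) ≤ C * m := by exact_mod_cast hl
    nlinarith
  have a2 : Real.exp (y * m) ≤ (Real.exp (y / δ)) ^ r := by
    rw [← Real.exp_nat_mul]
    refine Real.exp_le_exp.2 ?_
    have h2 : y / δ * (δ * m) ≤ y / δ * r := mul_le_mul_of_nonneg_left hr (by positivity)
    have h3 : y / δ * (δ * m) = y * m := by field_simp
    linarith
  have a3 : (2 : ℝ) ^ ℓ / (Real.exp (y / δ)) ^ r ≤ Real.exp (-((D + 3) / κ * m)) := by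
    rw [div_le_iff₀ (by positivity)]
    calc (2 : ℝ) ^ ℓ ≤ Real.exp (C * Real.log 2 * m) := a1
      _ = Real.exp (-((D + 3) / κ * m)) * Real.exp (y * m) := by
        rw [← Real.exp_add, hy]
        congr 1
        ring
      _ ≤ _ := mul_le_mul_of_nonneg_left a2 (Real.exp_pos _).le
  have a4 : Real.exp (-((D + 3) / κ * m)) ≤ (n : ℝ) ^ (-(D + 3)) := by
    rw [Real.rpow_def_of_pos n0]
    refine Real.exp_le_exp.2 ?_
    have h2 : (D + 3) / κ * (κ * Real.log n) ≤ (D + 3) / κ * m := mul_le_mul_of_nonneg_left hm (by positivity)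
    have h3 : (D + 3) / κ * (κ * Real.log n) = (D + 3) * Real.log n := by field_simp
    linarith
  have p0 : 0 < (n : ℝ) ^ (-(D + 3)) := Real.rpow_pos_of_pos n0 _
  calc (cd : ℝ) * (3 * (2 ^ ℓ / (Real.exp (y / δ)) ^ r)) ≤ (n : ℝ) ^ D * (n * (n : ℝ) ^ (-(D + 3))) :=
        mul_le_mul hcd (mul_le_mul hn (a3.trans a4) (by positivity) n0.le) (by positivity) (by positivity)
    _ = (n : ℝ) ^ (-(2 : ℝ)) := by
        have e5 : (n : ℝ) * (n : ℝ) ^ (-(D + 3)) = (n : ℝ) ^ (1 + -(D + 3)) := by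
          rw [Real.rpow_add n0, Real.rpow_one]
        rw [e5, ← Real.rpow_add n0]
        congr 1
        ring

end

end Pool.Agent.W_7d29a1_C1.H77
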