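import Pool.Agent.W_7d29a1_C1.UnT77
import Pool.Agent.W_7d29a1_C1.NuM77

/-!
MP_7d29a1_pr, attractor route [C1], field `nu`: the scales `u` at which one of the shifted scales `u + s`, `s ∈ sh`, is bad: at most
`#sh · b`. (helper77)
-/

set_option autoImplicit false

namespace Pool.Agent.W_7d29a1_C1.H77

open MeasureTheory Finset Filter Topology
open Pool.Agent.W_7d29a1_F

noncomputable section

/-- **THE SHIFTS.** -/
theorem cnt_shift77 {A : ℕ → Prop} {m b K : ℕ} (sh : Finset ℕ) (hs : ∀ s ∈ sh, s ≤ K)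
    (h : ∀ F : Finset ℕ, F ⊆ range (m + K) → (∀ u ∈ F, A u) → F.card ≤ b) {F : Finset ℕ} (hF : F ⊆ range m)
    (hA : ∀ u ∈ F, ∃ s ∈ sh, A (u + s)) : F.card ≤ sh.card * b := by
  classical
  have h1 : F ⊆ sh.biUnion fun s => F.filter fun u => A (u + s) := by
    intro u hu
    obtain ⟨s, hs', hA'⟩ := hA u hu
    exact mem_biUnion.2 ⟨s, hs', mem_filter.2 ⟨hu, hA'⟩⟩
  refine (card_le_card h1).trans (card_biUnion_le.trans ((sum_le_card_nsmul _ _ b fun s hs' => ?_).trans (le_of_eq (smul_eq_mul _ _))))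
  have h2 := h ((F.filter fun u => A (u + s)).image fun u => u + s) (fun v hv => ?_) (fun v hv => ?_)
  · rwa [card_image_of_injective _ (add_left_injective s)] at h2
  · obtain ⟨u, hu, rfl⟩ := mem_image.1 hv
    have h3 := mem_range.1 (hF (mem_filter.1 hu).1)
    have h4 := hs s hs'
    rw [mem_range]
    omega
  · obtain ⟨u, hu, rfl⟩ := mem_image.1 hv
    exact (mem_filter.1 hu).2

/-- `hU` of `nuT77` from the count of the unshifted scales (`m + K` scales). -/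
theorem hUsh77 {X : Type*} {Bd : Set Env} {S : Finset X} {Q : X → Env → Prop} {A : ℕ → X → Set Env} {m b K : ℕ} (sh : Finset ℕ)
    (hs : ∀ s ∈ sh, s ≤ K) (h : ∀ η ∉ Bd, ∀ x ∈ S, Q x η → ∀ F : Finset ℕ, F ⊆ range (m + K) → (∀ u ∈ F, η ∈ A u x) → F.card ≤ b) :
    ∀ η ∉ Bd, ∀ x ∈ S, Q x η → ∀ F : Finset ℕ, F ⊆ range m → (∀ u ∈ F, ∃ s ∈ sh, η ∈ A (u + s) x) → F.card ≤ sh.card * b :=
  fun η hη x hx hQ _ hF hA => cnt_shift77 sh hs (h η hη x hx hQ) hF hA

end

end Pool.Agent.W_7d29a1_C1.H77
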