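import Pool.Agent.W_7d29a1_C1.UniA16

/-!
MP_7d29a1_pr, [C1] attractor route, UNIFORM LOWER BOUND AT CONSTANT LEVEL, part B: the good event of the links and its probability, the
chains from every start and to every end. (helper16)
-/

set_option autoImplicit false

namespace Pool.Agent.W_7d29a1_C1.U16

open MeasureTheory ProbabilityTheory Filter Topology Finset
open Pool.Agent.W_7d29a1_F Pool.Agent.W_7d29a1_h4g Pool.Agent.W_7d29a1_H Pool.Agent.W_7d29a1_HS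

noncomputable section

variable {μ : Measure ℝ} {s : ℝ}

/-- The grid of the scale `2 ^ i` in the box of `n` rows and half width `W`. -/
def Sg (μ : Measure ℝ) (s κ W : ℝ) (n i : ℕ) : Finset Pt :=
  ((range (n / 2 ^ i + 1)) ×ˢ Icc (-⌊(W + 1) / mw μ s κ i⌋) ⌊(W + 1) / mw μ s κ i⌋).image fun q => gp μ s κ i q.1 q.2

theorem mem_Sg {κ W : ℝ} {n i r : ℕ} {k : ℤ} (hr : r * 2 ^ i ≤ n)
    (hk : |((gp μ s κ i r k).2 : ℝ) - sl μ s * ((r * 2 ^ i : ℕ) : ℝ)| ≤ W) : gp μ s κ i r k ∈ Sg μ s κ W n i := by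
  have hw : (0 : ℝ) < mw μ s κ i := by exact_mod_cast (one_le_mw κ i)
  refine mem_image.2 ⟨(r, k), mem_product.2 ⟨?_, ?_⟩, rfl⟩
  · rw [mem_range]
    have : r ≤ n / 2 ^ i := (Nat.le_div_iff_mul_le (by positivity)).2 hr
    exact Nat.lt_succ_of_le this
  · have e1 : ((gp μ s κ i r k).2 : ℝ) = ((⌊sl μ s * ((r * 2 ^ i : ℕ) : ℝ)⌋ : ℤ) : ℝ) + k * mw μ s κ i := by
      show (((⌊sl μ s * ((r * 2 ^ i : ℕ) : ℝ)⌋ + k * mw μ s κ i : ℤ)) : ℝ) = _
      push_cast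
      ring
    have f1 := Int.floor_le (sl μ s * ((r * 2 ^ i : ℕ) : ℝ))
    have f2 := Int.lt_floor_add_one (sl μ s * ((r * 2 ^ i : ℕ) : ℝ))
    rw [e1, abs_le] at hk
    rw [mem_Icc]
    have h1 : (k : ℝ) ≤ (W + 1) / mw μ s κ i := by
      rw [le_div_iff₀ hw]
      linarith [hk.2]
    have h2 : -(k : ℝ) ≤ (W + 1) / mw μ s κ i := by
      rw [le_div_iff₀ hw]
      linarith [hk.1]
    constructor
    · have : -k ≤ ⌊(W + 1) / mw μ s κ i⌋ := Int.le_floor.2 (by push_cast; exact h2)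
      omega
    · exact Int.le_floor.2 h1

variable [IsProbabilityMeasure μ] {c C : ℝ} {n₀ : ℕ}

theorem card_Sg (h : In μ s c C n₀) {κ : ℝ} (hκ : Ka μ s c κ) {K' : ℝ} (hK : 0 ≤ K') {n i : ℕ} (hi : 2 ^ i ≤ n) :
    ((Sg μ s κ (K' * wd μ s n) n i).card : ℝ) ≤ 2 * (8 * K' / κ + 3) * ((n : ℝ) / 2 ^ i) ^ 2 := by
  obtain ⟨w, hw⟩ : ∃ w : ℕ, w = mw μ s κ i := ⟨_, rfl⟩
  have hκ0 := hκ.pos
  have hw1 : (1 : ℝ) ≤ w := by rw [hw]; exact_mod_cast (one_le_mw κ i)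
  have hw0 : (0 : ℝ) < w := by linarith
  obtain ⟨q, hq⟩ : ∃ q : ℝ, q = (n : ℝ) / 2 ^ i := ⟨_, rfl⟩
  have hq1 : 1 ≤ q := by
    rw [hq, le_div_iff₀ (by positivity), one_mul]
    exact_mod_cast hi
  have h2 : ((n / 2 ^ i + 1 : ℕ) : ℝ) ≤ 2 * q := by
    have : ((n / 2 ^ i : ℕ) : ℝ) ≤ q := by
      rw [hq]
      have := Nat.cast_div_le (α := ℝ) (m := n) (n := 2 ^ i)
      push_cast at this ⊢
      exact this
    push_cast
    linarith
  have hwd0 : 0 < wd μ s (2 ^ i) := h.wd_pos Nat.one_le_two_pow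
  have h3 : (K' * wd μ s n + 1) / w ≤ 4 * K' / κ * q + 1 := by
    have h4 := le_mw (μ := μ) (s := s) κ i
    rw [← hw] at h4
    have h5 := wd_le h (m := 2 ^ i) (n := n) Nat.one_le_two_pow hi
    have e1 : (n : ℝ) / ((2 ^ i : ℕ) : ℝ) = q := by rw [hq]; push_cast; rfl
    rw [e1] at h5
    rw [div_le_iff₀ hw0]
    have h6 : K' * wd μ s n ≤ 4 * K' / κ * q * w := by
      have h7 : K' * wd μ s n ≤ K' * (2 * q * wd μ s (2 ^ i)) := mul_le_mul_of_nonneg_left h5 hK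
      have h8 : K' * (2 * q * wd μ s (2 ^ i)) = 4 * K' / κ * q * (κ * wd μ s (2 ^ i) / 2) := by
        field_simp
        ring
      rw [h8] at h7
      exact h7.trans (mul_le_mul_of_nonneg_left h4 (by positivity))
    nlinarith
  have h0 : 0 ≤ (K' * wd μ s n + 1) / w := div_nonneg (by have := mul_nonneg hK (h.wd_nonneg n); linarith) hw0.le
  have hfl : (0 : ℤ) ≤ ⌊(K' * wd μ s n + 1) / w⌋ := Int.floor_nonneg.2 h0
  have hc : (Sg μ s κ (K' * wd μ s n) n i).card ≤ (n / 2 ^ i + 1) * (2 * ⌊(K' * wd μ s n + 1) / w⌋ + 1).toNat := by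
    unfold Sg
    refine card_image_le.trans ?_
    rw [card_product, card_range, Int.card_Icc, ← hw]
    refine Nat.mul_le_mul_left _ ?_
    apply Int.toNat_le_toNat
    linarith
  have hc2 : ((Sg μ s κ (K' * wd μ s n) n i).card : ℝ) ≤ ((n / 2 ^ i + 1 : ℕ) : ℝ) * (((2 * ⌊(K' * wd μ s n + 1) / w⌋ + 1).toNat : ℕ) : ℝ) := by
    exact_mod_cast hc
  have h9 : (((2 * ⌊(K' * wd μ s n + 1) / w⌋ + 1).toNat : ℕ) : ℝ) ≤ (8 * K' / κ + 3) * q := by
    have e2 : (((2 * ⌊(K' * wd μ s n + 1) / w⌋ + 1).toNat : ℕ) : ℝ) = ((2 * ⌊(K' * wd μ s n + 1) / w⌋ + 1 : ℤ) : ℝ) := by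
      have : (((2 * ⌊(K' * wd μ s n + 1) / w⌋ + 1).toNat : ℕ) : ℤ) = 2 * ⌊(K' * wd μ s n + 1) / w⌋ + 1 := Int.toNat_of_nonneg (by linarith)
      exact_mod_cast this
    rw [e2]
    push_cast
    have h10 := Int.floor_le ((K' * wd μ s n + 1) / w)
    have e3 : (8 * K' / κ + 3) * q = 2 * (4 * K' / κ * q) + 3 * q := by ring
    rw [e3]
    linarith
  refine hc2.trans ?_
  have h11 : (0 : ℝ) ≤ (((2 * ⌊(K' * wd μ s n + 1) / w⌋ + 1).toNat : ℕ) : ℝ) := Nat.cast_nonneg _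
  calc ((n / 2 ^ i + 1 : ℕ) : ℝ) * (((2 * ⌊(K' * wd μ s n + 1) / w⌋ + 1).toNat : ℕ) : ℝ) ≤ (2 * q) * ((8 * K' / κ + 3) * q) :=
        mul_le_mul h2 h9 h11 (by linarith)
    _ = _ := by rw [hq]; ring

/-! ### The events -/

/-- The links between the grids of the scales `2 ^ i` and `2 ^ (i + 1)` are not unlucky (cost at most `v i` units). -/
def GLk (μ : Measure ℝ) (s κ W : ℝ) (n k : ℕ) (v : ℕ → ℝ) : Set Env :=
  {η | ∀ i < k, ∀ p ∈ Sg μ s κ W n i, ∀ q ∈ Sg μ s κ W n (i + 1), ∀ (j : ℕ) (y : ℤ),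
    (Lk μ s κ (i + 1) p q j y → X μ s η p j y ≤ v i * EE μ s (2 * 2 ^ (i + 1))) ∧
    (Lk μ s κ (i + 1) q p j y → X μ s η q j y ≤ v i * EE μ s (2 * 2 ^ (i + 1)))}

/-- The pairs of the top grid are not unlucky. -/
def GTp (μ : Measure ℝ) (s κ W : ℝ) (n k : ℕ) (x θ : ℝ) : Set Env :=
  {η | ∀ p ∈ Sg μ s κ W n k, ∀ q ∈ Sg μ s κ W n k, ∀ (j : ℕ) (y : ℤ), q.1 = p.1 + j → q.2 = p.2 + y → θ * n ≤ j →
    X μ s η p j y ≤ x}

/-- The bad event of a pair. -/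
def BLk (μ : Measure ℝ) (s κ : ℝ) (i : ℕ) (p q : Pt) (x : ℝ) : Set Env := {η | ∃ (j : ℕ) (y : ℤ), Lk μ s κ i p q j y ∧ x < X μ s η p j y}

theorem real_X16 (a : Pt) (l : ℕ) (y : ℤ) (r : ℝ) : (law μ).real {η | r ≤ X μ s η a l y} = (law μ).real {η | r ≤ X μ s η 0 l y} := by
  have hm : MeasurableSet {η : Env | r ≤ X μ s η 0 l y} := measurableSet_le measurable_const (measurable_X (μ := μ) (s := s) 0 l y)
  have h := real_sh (μ := μ) a hm
  rw [← h]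
  congr 1
  ext η
  simp only [Set.mem_ofPred_eq, X_sh, zero_add]

theorem BLk_prob (h : In μ s c C n₀) {κ : ℝ} (hκ : Ka μ s c κ) : ∃ A c' γ : ℝ, 0 < A ∧ 0 < c' ∧ 0 < γ ∧ γ ≤ 1 ∧ ∀ (i : ℕ) (p q : Pt) (v : ℝ), 0 ≤ v →
    (law μ).real (BLk μ s κ i p q (v * EE μ s (2 * 2 ^ i))) ≤ A * Real.exp (-(c' * v ^ γ)) := by
  obtain ⟨A, c', γ, hA, hc', hγ, hγ1, hU⟩ := unlucky_exp h
  refine ⟨A, c', γ, hA, hc', hγ, hγ1, fun i p q v hv => ?_⟩
  by_cases hex : ∃ (j : ℕ) (y : ℤ), Lk μ s κ i p q j y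
  · obtain ⟨j, y, hl⟩ := hex
    obtain ⟨l1, l2, l3, l4, l5, l6, l7⟩ := hl
    have hj1 : 1 ≤ j := le_trans Nat.one_le_two_pow l3
    have hcone : |(y : ℝ) - sl μ s * j| ≤ c / 16 * vA 1 μ s j * j + 1 := by
      have hw0 := h.wd_nonneg j
      have hc0 := h.c0
      have e1 : c / 16 * vA 1 μ s j * j = c / 16 * wd μ s j := by unfold wd; ring
      rw [e1]
      refine l7.trans ?_
      rcases mw_or h hκ i with h5 | h5
      · rw [h5]
        push_cast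
        have : 0 ≤ c / 16 * wd μ s j := by positivity
        linarith
      · have h6 := wd_le_two h (m := 2 ^ i) (n := j) Nat.one_le_two_pow l3
        have h7 : κ * wd μ s (2 ^ i) ≤ c / 32 * (2 * wd μ s j) := mul_le_mul hκ.le_c h6 (h.wd_nonneg _) (by positivity)
        linarith
    have hsub : BLk μ s κ i p q (v * EE μ s (2 * 2 ^ i)) ⊆ {η | v * EE μ s j ≤ X μ s η p j y} := by
      rintro η ⟨j', y', hl', hx⟩
      obtain ⟨m1, m2, -⟩ := hl'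
      have ej : j' = j := by
        have : (j' : ℤ) = j := by linarith
        exact_mod_cast this
      have ey : y' = y := by linarith
      subst ej
      subst ey
      have h8 : EE μ s j' ≤ EE μ s (2 * 2 ^ i) := EE_mono l4
      have h9 := mul_le_mul_of_nonneg_left h8 hv
      show v * EE μ s j' ≤ X μ s η p j' y'
      linarith
    refine (measureReal_mono hsub (measure_ne_top _ _)).trans ?_
    rw [real_X16]
    exact hU j hj1 y l5 l6 hcone v hv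
  · have : BLk μ s κ i p q (v * EE μ s (2 * 2 ^ i)) = ∅ := by
      ext η
      constructor
      · rintro ⟨j, y, hl, -⟩
        exact absurd ⟨j, y, hl⟩ hex
      · intro hη
        exact absurd hη (Set.notMem_empty η)
    rw [this, measureReal_empty]
    positivity

/-- Union over the links. -/
theorem GLk_prob (h : In μ s c C n₀) {κ : ℝ} (hκ : Ka μ s c κ) {K' : ℝ} (hK : 0 ≤ K') {b : ℝ} (hb : 0 < b) : ∃ A c' γ : ℝ, 0 < A ∧ 0 < c' ∧
    0 < γ ∧ γ ≤ 1 ∧ ∀ n k : ℕ, 2 ^ k ≤ n → ∀ u : ℝ, 1 ≤ u →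
    (law μ).real (GLk μ s κ (K' * wd μ s n) n k fun i => u * ((n : ℝ) / 2 ^ i) ^ b)ᶜ ≤ A * Real.exp (-(c' * u ^ γ)) := by
  obtain ⟨A, c', γ, hA, hc', hγ, hγ1, hBL⟩ := BLk_prob h hκ
  obtain ⟨A', hA', hoct⟩ := oct_tail (q := 4) hb hc' hγ
  obtain ⟨N, hN⟩ : ∃ N : ℝ, N = 2 * (8 * K' / κ + 3) := ⟨_, rfl⟩
  have hκ0 := hκ.pos
  have hN0 : 0 < N := by rw [hN]; positivity
  refine ⟨2 * N ^ 2 * A * A', c' / 2, γ, by positivity, by positivity, hγ, hγ1, fun n k hk u hu => ?_⟩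
  obtain ⟨v, hv⟩ : ∃ v : ℕ → ℝ, v = fun i => u * ((n : ℝ) / 2 ^ i) ^ b := ⟨_, rfl⟩
  obtain ⟨W, hW⟩ : ∃ W : ℝ, W = K' * wd μ s n := ⟨_, rfl⟩
  rw [← hv, ← hW]
  have hn0 : (0 : ℝ) ≤ n := Nat.cast_nonneg n
  have hsub : (GLk μ s κ W n k v)ᶜ ⊆ ⋃ i ∈ range k, ⋃ p ∈ Sg μ s κ W n i, ⋃ q ∈ Sg μ s κ W n (i + 1),
      (BLk μ s κ (i + 1) p q (v i * EE μ s (2 * 2 ^ (i + 1))) ∪ BLk μ s κ (i + 1) q p (v i * EE μ s (2 * 2 ^ (i + 1)))) := by
    intro η hη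
    by_contra hcon
    refine hη fun i hi p hp q hq j y => ⟨fun hl => ?_, fun hl => ?_⟩
    · by_contra hx
      refine hcon ?_
      simp only [Set.mem_iUnion]
      exact ⟨i, mem_range.2 hi, p, hp, q, hq, Or.inl ⟨j, y, hl, not_le.1 hx⟩⟩
    · by_contra hx
      refine hcon ?_
      simp only [Set.mem_iUnion]
      exact ⟨i, mem_range.2 hi, p, hp, q, hq, Or.inr ⟨j, y, hl, not_le.1 hx⟩⟩
  have hb1 : (law μ).real (GLk μ s κ W n k v)ᶜ ≤ ∑ i ∈ range k, ∑ p ∈ Sg μ s κ W n i, ∑ q ∈ Sg μ s κ W n (i + 1),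
      (2 * (A * Real.exp (-(c' * v i ^ γ)))) := by
    refine (measureReal_mono hsub (measure_ne_top _ _)).trans ?_
    refine (measureReal_biUnion_finset_le _ _).trans (sum_le_sum fun i _ => ?_)
    refine (measureReal_biUnion_finset_le _ _).trans (sum_le_sum fun p _ => ?_)
    refine (measureReal_biUnion_finset_le _ _).trans (sum_le_sum fun q _ => ?_)
    have hv0 : 0 ≤ v i := by
      rw [hv]
      show 0 ≤ u * ((n : ℝ) / 2 ^ i) ^ b
      have : 0 ≤ ((n : ℝ) / 2 ^ i) ^ b := by positivity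
      exact mul_nonneg (by linarith) this
    refine (measureReal_union_le _ _).trans ?_
    have h1 := hBL (i + 1) p q (v i) hv0
    have h2 := hBL (i + 1) q p (v i) hv0
    linarith
  refine hb1.trans ?_
  have hb2 : ∀ i ∈ range k, ∑ p ∈ Sg μ s κ W n i, ∑ q ∈ Sg μ s κ W n (i + 1), (2 * (A * Real.exp (-(c' * v i ^ γ)))) ≤
      2 * N ^ 2 * A * (((n : ℝ) / 2 ^ i) ^ 4 * Real.exp (-(c' * (u * ((n : ℝ) / 2 ^ i) ^ b) ^ γ))) := by
    intro i hi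
    rw [mem_range] at hi
    have hi1 : 2 ^ i ≤ n := (Nat.pow_le_pow_right (by norm_num) (by omega)).trans hk
    have hi2 : 2 ^ (i + 1) ≤ n := (Nat.pow_le_pow_right (by norm_num) (by omega)).trans hk
    have c1 := card_Sg h hκ hK hi1
    have c2 := card_Sg h hκ hK hi2
    rw [← hW, ← hN] at c1 c2
    have hq0 : 0 ≤ (n : ℝ) / 2 ^ i := by positivity
    have c3 : ((n : ℝ) / 2 ^ (i + 1)) ^ 2 ≤ ((n : ℝ) / 2 ^ i) ^ 2 := by
      refine pow_le_pow_left₀ (by positivity) ?_ 2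
      exact div_le_div_of_nonneg_left hn0 (by positivity) (pow_le_pow_right₀ (by norm_num) (by omega))
    have c4 : ((Sg μ s κ W n (i + 1)).card : ℝ) ≤ N * ((n : ℝ) / 2 ^ i) ^ 2 := c2.trans (mul_le_mul_of_nonneg_left c3 hN0.le)
    simp only [sum_const, nsmul_eq_mul]
    have e1 : v i = u * ((n : ℝ) / 2 ^ i) ^ b := by rw [hv]
    rw [e1]
    obtain ⟨E, hE⟩ : ∃ E : ℝ, E = Real.exp (-(c' * (u * ((n : ℝ) / 2 ^ i) ^ b) ^ γ)) := ⟨_, rfl⟩
    have hE0 : 0 < E := by rw [hE]; exact Real.exp_pos _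
    rw [← hE]
    have d1 : (0 : ℝ) ≤ (Sg μ s κ W n i).card := Nat.cast_nonneg _
    have d2 : (0 : ℝ) ≤ (Sg μ s κ W n (i + 1)).card := Nat.cast_nonneg _
    calc ((Sg μ s κ W n i).card : ℝ) * (((Sg μ s κ W n (i + 1)).card : ℝ) * (2 * (A * E))) ≤
          (N * ((n : ℝ) / 2 ^ i) ^ 2) * ((N * ((n : ℝ) / 2 ^ i) ^ 2) * (2 * (A * E))) :=
          mul_le_mul c1 (mul_le_mul_of_nonneg_right c4 (by positivity)) (by positivity) (by positivity)
      _ = _ := by ring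
  refine (sum_le_sum hb2).trans ?_
  rw [← mul_sum]
  have h3 := hoct n k hk u hu
  have h4 : ∑ i ∈ range k, ((n : ℝ) / 2 ^ i) ^ 4 * Real.exp (-(c' * (u * ((n : ℝ) / 2 ^ i) ^ b) ^ γ)) ≤
      ∑ i ∈ range (k + 1), ((n : ℝ) / 2 ^ i) ^ 4 * Real.exp (-(c' * (u * ((n : ℝ) / 2 ^ i) ^ b) ^ γ)) :=
    sum_le_sum_of_subset_of_nonneg (range_mono (by omega)) fun i _ _ => by positivity
  calc 2 * N ^ 2 * A * ∑ i ∈ range k, ((n : ℝ) / 2 ^ i) ^ 4 * Real.exp (-(c' * (u * ((n : ℝ) / 2 ^ i) ^ b) ^ γ)) ≤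
        2 * N ^ 2 * A * (A' * Real.exp (-(c' / 2 * u ^ γ))) := mul_le_mul_of_nonneg_left (h4.trans h3) (by positivity)
    _ = _ := by ring

/-! ### The chains -/

omit [IsProbabilityMeasure μ] in
theorem X_zero (η : Env) (p : Pt) : X μ s η p 0 0 = 0 := by
  unfold X W WR
  simp [Zr]

/-- Forward chain: from every start of the box to the grid of the scale `2 ^ i`. -/
theorem chain_fwd (h : In μ s c C n₀) {κ : ℝ} (hκ : Ka μ s c κ) {W B : ℝ} {n k : ℕ} {v : ℕ → ℝ} {η : Env}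
    (hη : η ∈ GLk μ s κ W n k v) (hB : ∀ i ≤ k, B + ∑ l ∈ range i, (mw μ s κ (l + 1) : ℝ) ≤ W) {t : ℕ} {x : ℤ}
    (ht : t + 4 * 2 ^ k ≤ n) (hx : |(x : ℝ) - sl μ s * t| ≤ B) (i : ℕ) (hi : i ≤ k) :
    ∃ (r : ℕ) (kk : ℤ) (j : ℕ) (y : ℤ), gp μ s κ i r kk = ((t : ℤ) + j, x + y) ∧ j + 4 ≤ 4 * 2 ^ i ∧ 0 ≤ y ∧ y ≤ j ∧
      |(y : ℝ) - sl μ s * j| ≤ ∑ l ∈ range i, (mw μ s κ (l + 1) : ℝ) ∧ gp μ s κ i r kk ∈ Sg μ s κ W n i ∧
      X μ s η ((t : ℤ), x) j y ≤ ∑ l ∈ range i, v l * EE μ s (2 * 2 ^ (l + 1)) := by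
  induction i with
  | zero =>
    have e1 : gp μ s κ 0 t (x - ⌊sl μ s * ((t * 2 ^ 0 : ℕ) : ℝ)⌋) = ((t : ℤ) + (0 : ℕ), x + 0) := by
      unfold gp
      rw [mw_zero h hκ]
      ext
      · simp
      · simp
    refine ⟨t, x - ⌊sl μ s * ((t * 2 ^ 0 : ℕ) : ℝ)⌋, 0, 0, e1, by norm_num, le_rfl, le_rfl, ?_, ?_, ?_⟩
    · simp
    · have hB0 := hB 0 (Nat.zero_le k)
      rw [range_zero, sum_empty, add_zero] at hB0
      refine mem_Sg (by rw [pow_zero, mul_one]; omega) ?_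
      rw [e1, pow_zero, mul_one, add_zero]
      exact hx.trans hB0
    · rw [X_zero, range_zero, sum_empty]
  | succ i ih =>
    obtain ⟨r, kk, j, y, g1, g2, g3, g4, g5, g6, g7⟩ := ih (by omega)
    obtain ⟨r', k', j', y', hl⟩ := fwd h hκ (i + 1) (t + j) (x + y)
    have hcast : (((t + j : ℕ) : ℤ), x + y) = ((t : ℤ) + j, x + y) := by push_cast; rfl
    rw [hcast] at hl
    obtain ⟨l1, l2, l3, l4, l5, l6, l7⟩ := id hl
    have hpow : 2 ^ (i + 1) ≤ 2 ^ k := Nat.pow_le_pow_right (by norm_num) hi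
    have e2 : (2 : ℕ) ^ (i + 1) = 2 * 2 ^ i := by rw [pow_succ]; ring
    have hjj : j + j' + 4 ≤ 4 * 2 ^ (i + 1) := by omega
    have hrow : r' * 2 ^ (i + 1) = t + (j + j') := by
      have h1 : ((r' * 2 ^ (i + 1) : ℕ) : ℤ) = (t : ℤ) + j + j' := l1
      have h2 : ((r' * 2 ^ (i + 1) : ℕ) : ℤ) = ((t + (j + j') : ℕ) : ℤ) := by rw [h1]; push_cast; ring
      exact_mod_cast h2
    have hcol : (gp μ s κ (i + 1) r' k').2 = x + (y + y') := by
      rw [l2]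
      show x + y + y' = x + (y + y')
      ring
    have habs : |((y + y' : ℤ) : ℝ) - sl μ s * ((j + j' : ℕ) : ℝ)| ≤ ∑ l ∈ range (i + 1), (mw μ s κ (l + 1) : ℝ) := by
      rw [sum_range_succ]
      push_cast
      have e3 : (y : ℝ) + y' - sl μ s * ((j : ℝ) + j') = ((y : ℝ) - sl μ s * j) + ((y' : ℝ) - sl μ s * j') := by ring
      rw [e3]
      exact (abs_add_le _ _).trans (add_le_add g5 l7)
    have hmem : gp μ s κ (i + 1) r' k' ∈ Sg μ s κ W n (i + 1) := by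
      refine mem_Sg (by omega) ?_
      rw [hrow, hcol]
      push_cast
      have e4 : (x : ℝ) + (y + y') - sl μ s * ((t : ℝ) + (j + j')) = ((x : ℝ) - sl μ s * t) + (((y + y' : ℤ) : ℝ) - sl μ s * ((j + j' : ℕ) : ℝ)) := by
        push_cast
        ring
      rw [e4]
      exact (abs_add_le _ _).trans ((add_le_add hx habs).trans (hB (i + 1) hi))
    refine ⟨r', k', j + j', y + y', ?_, hjj, by omega, by push_cast; omega, habs, hmem, ?_⟩
    · ext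
      · show ((r' * 2 ^ (i + 1) : ℕ) : ℤ) = (t : ℤ) + ((j + j' : ℕ) : ℤ)
        rw [hrow]
        push_cast
        ring
      · exact hcol
    · rw [sum_range_succ]
      have h1 := X_add_le (μ := μ) (s := s) η ((t : ℤ), x) g3 g4 l5 l6
      refine h1.trans (add_le_add g7 ?_)
      rw [g1] at g6
      have h2 := (hη i (by omega) _ g6 _ hmem j' y').1 hl
      exact h2

/-- Backward chain: from the grid of the scale `2 ^ i` to every end of the box. -/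
theorem chain_bwd (h : In μ s c C n₀) {κ : ℝ} (hκ : Ka μ s c κ) {W B : ℝ} {n k : ℕ} {v : ℕ → ℝ} {η : Env}
    (hη : η ∈ GLk μ s κ W n k v) (hB : ∀ i ≤ k, B + ∑ l ∈ range i, (mw μ s κ (l + 1) : ℝ) ≤ W) {t : ℕ} {x : ℤ}
    (htn : t ≤ n) (ht : 8 * 2 ^ k ≤ t) (hx : |(x : ℝ) - sl μ s * t| ≤ B) (i : ℕ) (hi : i ≤ k) :
    ∃ (r : ℕ) (kk : ℤ) (j : ℕ) (y : ℤ), gp μ s κ i r kk = ((t : ℤ) - j, x - y) ∧ j + 4 ≤ 4 * 2 ^ i ∧ 0 ≤ y ∧ y ≤ j ∧
      |(y : ℝ) - sl μ s * j| ≤ ∑ l ∈ range i, (mw μ s κ (l + 1) : ℝ) ∧ gp μ s κ i r kk ∈ Sg μ s κ W n i ∧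
      X μ s η (gp μ s κ i r kk) j y ≤ ∑ l ∈ range i, v l * EE μ s (2 * 2 ^ (l + 1)) := by
  induction i with
  | zero =>
    have e1 : gp μ s κ 0 t (x - ⌊sl μ s * ((t * 2 ^ 0 : ℕ) : ℝ)⌋) = ((t : ℤ) - (0 : ℕ), x - 0) := by
      unfold gp
      rw [mw_zero h hκ]
      ext
      · simp
      · simp
    refine ⟨t, x - ⌊sl μ s * ((t * 2 ^ 0 : ℕ) : ℝ)⌋, 0, 0, e1, by norm_num, le_rfl, le_rfl, ?_, ?_, ?_⟩
    · simp
    · have hB0 := hB 0 (Nat.zero_le k)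
      rw [range_zero, sum_empty, add_zero] at hB0
      refine mem_Sg (by rw [pow_zero, mul_one]; omega) ?_
      rw [e1, pow_zero, mul_one, sub_zero]
      exact hx.trans hB0
    · rw [X_zero, range_zero, sum_empty]
  | succ i ih =>
    obtain ⟨r, kk, j, y, g1, g2, g3, g4, g5, g6, g7⟩ := ih (by omega)
    have hpow : 2 ^ (i + 1) ≤ 2 ^ k := Nat.pow_le_pow_right (by norm_num) hi
    have e2 : (2 : ℕ) ^ (i + 1) = 2 * 2 ^ i := by rw [pow_succ]; ring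
    obtain ⟨t', ht'⟩ : ∃ t' : ℕ, t = t' + j := ⟨t - j, by omega⟩
    obtain ⟨r', k', j', y', hl⟩ := bwd h hκ (i + 1) t' (x - y) (by omega)
    have hcast : ((t' : ℤ), x - y) = ((t : ℤ) - j, x - y) := by
      rw [ht']
      push_cast
      rw [add_sub_cancel_right]
    rw [hcast, ← g1] at hl
    obtain ⟨l1, l2, l3, l4, l5, l6, l7⟩ := id hl
    have hjj : j + j' + 4 ≤ 4 * 2 ^ (i + 1) := by omega
    have hrow : r' * 2 ^ (i + 1) + (j + j') = t := by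
      have h1 : (gp μ s κ i r kk).1 = ((r' * 2 ^ (i + 1) : ℕ) : ℤ) + j' := l1
      rw [g1] at h1
      have h1' : (t : ℤ) - j = ((r' * 2 ^ (i + 1) : ℕ) : ℤ) + j' := h1
      have h2 : ((r' * 2 ^ (i + 1) + (j + j') : ℕ) : ℤ) = (t : ℤ) := by push_cast at h1' ⊢; linarith
      exact_mod_cast h2
    have hcol : (gp μ s κ (i + 1) r' k').2 = x - (y + y') := by
      have h1 : (gp μ s κ i r kk).2 = (gp μ s κ (i + 1) r' k').2 + y' := l2
      rw [g1] at h1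
      have h1' : x - y = (gp μ s κ (i + 1) r' k').2 + y' := h1
      linarith
    have habs : |((y + y' : ℤ) : ℝ) - sl μ s * ((j + j' : ℕ) : ℝ)| ≤ ∑ l ∈ range (i + 1), (mw μ s κ (l + 1) : ℝ) := by
      rw [sum_range_succ]
      push_cast
      have e3 : (y : ℝ) + y' - sl μ s * ((j : ℝ) + j') = ((y : ℝ) - sl μ s * j) + ((y' : ℝ) - sl μ s * j') := by ring
      rw [e3]
      exact (abs_add_le _ _).trans (add_le_add g5 l7)
    have hmem : gp μ s κ (i + 1) r' k' ∈ Sg μ s κ W n (i + 1) := by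
      refine mem_Sg (by omega) ?_
      have e5 : ((r' * 2 ^ (i + 1) : ℕ) : ℝ) = (t : ℝ) - ((j + j' : ℕ) : ℝ) := by
        rw [← hrow]
        push_cast
        ring
      rw [e5, hcol]
      push_cast
      have e4 : (x : ℝ) - (y + y') - sl μ s * ((t : ℝ) - (j + j')) = ((x : ℝ) - sl μ s * t) + -(((y + y' : ℤ) : ℝ) - sl μ s * ((j + j' : ℕ) : ℝ)) := by
        push_cast
        ring
      rw [e4]
      refine (abs_add_le _ _).trans ?_
      rw [abs_neg]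
      exact (add_le_add hx habs).trans (hB (i + 1) hi)
    have egp : gp μ s κ (i + 1) r' k' = ((t : ℤ) - ((j + j' : ℕ) : ℤ), x - (y + y')) := by
      ext
      · show ((r' * 2 ^ (i + 1) : ℕ) : ℤ) = (t : ℤ) - ((j + j' : ℕ) : ℤ)
        rw [← hrow]
        push_cast
        ring
      · exact hcol
    refine ⟨r', k', j + j', y + y', egp, hjj, by omega, by push_cast; omega, habs, hmem, ?_⟩
    rw [sum_range_succ]
    have h1 := X_add_le (μ := μ) (s := s) η (gp μ s κ (i + 1) r' k') l5 l6 g3 g4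
    have e6 : ((gp μ s κ (i + 1) r' k').1 + (j' : ℤ), (gp μ s κ (i + 1) r' k').2 + y') = gp μ s κ i r kk := by
      ext
      · exact l1.symm
      · exact l2.symm
    rw [e6] at h1
    have e7 : X μ s η (gp μ s κ (i + 1) r' k') (j + j') (y + y') = X μ s η (gp μ s κ (i + 1) r' k') (j' + j) (y' + y) := by
      rw [add_comm j j', add_comm y y']
    rw [e7]
    have h2 := (hη i (by omega) _ g6 _ hmem j' y').2 hl
    linarith

end

end Pool.Agent.W_7d29a1_C1.U16
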