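import Pool.Agent.W_7d29a1_C1.UniB16

/-!
MP_7d29a1_pr, [C1] attractor route, UNIFORM LOWER BOUND AT CONSTANT LEVEL: `low_prob`. For every box of `n` rows and half width
`K * wd n` around a line of the slope of the tilt: ALL the point to point weights of the box of a duration `≥ θ n` are at least
`exp (- (C₁ + u) EE n)`, outside an event of probability `≤ A exp (- a u ^ g)` (all the starts and all the ends at the same time; no
power of `n`, no logarithm). (helper16)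
-/

set_option autoImplicit false

namespace Pool.Agent.W_7d29a1_C1.U16

open MeasureTheory ProbabilityTheory Filter Topology Finset
open Pool.Agent.W_7d29a1_F Pool.Agent.W_7d29a1_h4g Pool.Agent.W_7d29a1_H Pool.Agent.W_7d29a1_HS
open Pool.Agent.W_7d29a1_HX.X50 (unlucky_all)

noncomputable section

variable {μ : Measure ℝ} {s : ℝ}

/-- All the costs of the box (rows `a.1 .. a.1 + n`, half width `K * wd n`) of a duration at least `θ n` are at most `x`. -/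
def Low16 (μ : Measure ℝ) (s K θ : ℝ) (n : ℕ) (a : Pt) (x : ℝ) : Set Env :=
  {η | ∀ (t j : ℕ) (z y : ℤ), t + j ≤ n → θ * n ≤ j → |(z : ℝ) - sl μ s * t| ≤ K * wd μ s n →
    |((z + y : ℤ) : ℝ) - sl μ s * ((t + j : ℕ) : ℝ)| ≤ K * wd μ s n → X μ s η (a.1 + t, a.2 + z) j y ≤ x}

theorem Low16_sh (K θ : ℝ) (n : ℕ) (a : Pt) (x : ℝ) (η : Env) : sh a η ∈ Low16 μ s K θ n 0 x ↔ η ∈ Low16 μ s K θ n a x := by
  have key : ∀ (t j : ℕ) (z y : ℤ), X μ s (sh a η) ((0 : Pt).1 + (t : ℤ), (0 : Pt).2 + z) j y = X μ s η (a.1 + t, a.2 + z) j y := by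
    intro t j z y
    rw [X_sh]
    congr 1
    ext
    · show (0 : ℤ) + (t : ℤ) + a.1 = a.1 + t
      ring
    · show (0 : ℤ) + z + a.2 = a.2 + z
      ring
  constructor
  · intro h t j z y h1 h2 h3 h4
    rw [← key]
    exact h t j z y h1 h2 h3 h4
  · intro h t j z y h1 h2 h3 h4
    rw [key]
    exact h t j z y h1 h2 h3 h4

theorem Low16_mono {K θ x x' : ℝ} (hx : x ≤ x') (n : ℕ) (a : Pt) : Low16 μ s K θ n a x ⊆ Low16 μ s K θ n a x' :=
  fun _ hη t j z y h1 h2 h3 h4 => (hη t j z y h1 h2 h3 h4).trans hx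

theorem Low16_meas (K θ : ℝ) (n : ℕ) (a : Pt) (x : ℝ) : MeasurableSet (Low16 μ s K θ n a x) := by
  have e : Low16 μ s K θ n a x = ⋂ (t : ℕ) (j : ℕ) (z : ℤ) (y : ℤ) (_ : t + j ≤ n) (_ : θ * n ≤ j)
      (_ : |(z : ℝ) - sl μ s * t| ≤ K * wd μ s n) (_ : |((z + y : ℤ) : ℝ) - sl μ s * ((t + j : ℕ) : ℝ)| ≤ K * wd μ s n),
      {η | X μ s η (a.1 + t, a.2 + z) j y ≤ x} := by
    ext η
    simp only [Set.mem_iInter]
    exact Iff.rfl
  rw [e]
  refine MeasurableSet.iInter fun t => MeasurableSet.iInter fun j => MeasurableSet.iInter fun z => MeasurableSet.iInter fun y =>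
    MeasurableSet.iInter fun _ => MeasurableSet.iInter fun _ => MeasurableSet.iInter fun _ => MeasurableSet.iInter fun _ => ?_
  exact measurableSet_le (measurable_X _ _ _) measurable_const

theorem Sg_spec {κ W : ℝ} {n i : ℕ} {p : Pt} (hp : p ∈ Sg μ s κ W n i) : ∃ r : ℕ, r ≤ n ∧ p.1 = (r : ℤ) ∧ |(p.2 : ℝ) - sl μ s * r| ≤ W + 2 := by
  obtain ⟨q, hq, rfl⟩ := mem_image.1 hp
  obtain ⟨h1, h2⟩ := mem_product.1 hq
  rw [mem_range] at h1
  rw [mem_Icc] at h2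
  have hw : (0 : ℝ) < mw μ s κ i := by exact_mod_cast (one_le_mw κ i)
  refine ⟨q.1 * 2 ^ i, ?_, rfl, ?_⟩
  · have : q.1 ≤ n / 2 ^ i := Nat.lt_succ_iff.1 h1
    exact (Nat.le_div_iff_mul_le (by positivity)).1 this
  · have e1 : ((gp μ s κ i q.1 q.2).2 : ℝ) = ((⌊sl μ s * ((q.1 * 2 ^ i : ℕ) : ℝ)⌋ : ℤ) : ℝ) + q.2 * mw μ s κ i := by
      show (((⌊sl μ s * ((q.1 * 2 ^ i : ℕ) : ℝ)⌋ + q.2 * mw μ s κ i : ℤ)) : ℝ) = _
      push_cast
      ring
    have f1 := Int.floor_le (sl μ s * ((q.1 * 2 ^ i : ℕ) : ℝ))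
    have f2 := Int.lt_floor_add_one (sl μ s * ((q.1 * 2 ^ i : ℕ) : ℝ))
    have f3 := Int.floor_le ((W + 1) / mw μ s κ i)
    have g1 : (q.2 : ℝ) ≤ (W + 1) / mw μ s κ i := le_trans (by exact_mod_cast h2.2) f3
    have g2 : -(q.2 : ℝ) ≤ (W + 1) / mw μ s κ i := by
      refine le_trans ?_ f3
      have : -q.2 ≤ ⌊(W + 1) / (mw μ s κ i : ℝ)⌋ := by linarith [h2.1]
      exact_mod_cast this
    rw [le_div_iff₀ hw] at g1 g2
    rw [e1, abs_le]
    constructor <;> linarith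

variable [IsProbabilityMeasure μ] {c C : ℝ} {n₀ : ℕ}

/-- The pairs of the top grid. -/
theorem GTp_prob (h : In μ s c C n₀) {κ : ℝ} (hκ : Ka μ s c κ) {K' θ : ℝ} (hK : 0 ≤ K') (hθ : 0 < θ) (t0 : ℕ) :
    ∃ C₂ A c' γ : ℝ, 0 < C₂ ∧ 0 < A ∧ 0 < c' ∧ 0 < γ ∧ γ ≤ 1 ∧ ∃ n₁ : ℕ, ∀ n k : ℕ, n₁ ≤ n → 2 ^ k ≤ n → n ≤ 2 ^ t0 * 2 ^ k → ∀ u : ℝ, 0 ≤ u →
    (law μ).real (GTp μ s κ (K' * wd μ s n) n k ((C₂ + u) * EE μ s n) θ)ᶜ ≤ A * Real.exp (-(c' * u ^ γ)) := by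
  obtain ⟨C₁, A, a, g, hC₁, hA, ha, hg, hg1, hU⟩ := unlucky_all h
  obtain ⟨K₃, hK₃⟩ : ∃ K₃ : ℝ, K₃ = (2 * K' + 4) / θ := ⟨_, rfl⟩
  have hK₃0 : 0 < K₃ := by rw [hK₃]; positivity
  obtain ⟨aJ, AJ, n₂, haJ, hAJ, hn2, hJ⟩ := J_wd h hK₃0
  obtain ⟨n₃, hn3⟩ := eventually_atTop.1 ((wd_tendsto h).eventually_ge_atTop 1)
  obtain ⟨N, hN⟩ : ∃ N : ℝ, N = 2 * (8 * K' / κ + 3) * (2 ^ t0) ^ 2 := ⟨_, rfl⟩
  have hκ0 := hκ.pos
  have hN0 : 0 < N := by rw [hN]; positivity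
  refine ⟨C₁ * (1 + AJ), N ^ 2 * A, a, g, by positivity, by positivity, ha, hg, hg1, n₂ + n₃ + 1, fun n k hn hk hkt u hu => ?_⟩
  obtain ⟨W, hW⟩ : ∃ W : ℝ, W = K' * wd μ s n := ⟨_, rfl⟩
  have hwn1 : 1 ≤ wd μ s n := hn3 n (by omega)
  have hW0 : 0 ≤ W := by rw [hW]; exact mul_nonneg hK (by linarith)
  have hnR : (1 : ℝ) ≤ n := by exact_mod_cast (by omega : 1 ≤ n)
  have hEn := EE_pos (μ := μ) (s := s) n
  rw [← hW]
  have hsub : (GTp μ s κ W n k ((C₁ * (1 + AJ) + u) * EE μ s n) θ)ᶜ ⊆ ⋃ p ∈ Sg μ s κ W n k, ⋃ q ∈ Sg μ s κ W n k,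
      {η | ∃ (j : ℕ) (y : ℤ), q.1 = p.1 + j ∧ q.2 = p.2 + y ∧ θ * n ≤ j ∧ (C₁ * (1 + AJ) + u) * EE μ s n < X μ s η p j y} := by
    intro η hη
    by_contra hcon
    refine hη fun p hp q hq j y h1 h2 h3 => ?_
    by_contra hx
    refine hcon ?_
    simp only [Set.mem_iUnion]
    exact ⟨p, hp, q, hq, j, y, h1, h2, h3, not_le.1 hx⟩
  have hpair : ∀ p ∈ Sg μ s κ W n k, ∀ q ∈ Sg μ s κ W n k, (law μ).real
      {η | ∃ (j : ℕ) (y : ℤ), q.1 = p.1 + j ∧ q.2 = p.2 + y ∧ θ * n ≤ j ∧ (C₁ * (1 + AJ) + u) * EE μ s n < X μ s η p j y} ≤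
      A * Real.exp (-(a * u ^ g)) := by
    intro p hp q hq
    have hL0 : 0 < C₁ * (1 + AJ) * EE μ s n := by positivity
    by_cases hex : ∃ (j : ℕ) (y : ℤ), q.1 = p.1 + j ∧ q.2 = p.2 + y ∧ θ * n ≤ j ∧ 0 ≤ y ∧ y ≤ j
    · obtain ⟨j, y, e1, e2, e3, e4, e5⟩ := hex
      have hj0 : 1 ≤ j := by
        have h1 : (0 : ℝ) < j := lt_of_lt_of_le (by positivity) e3
        exact_mod_cast h1
      have hjR : (1 : ℝ) ≤ j := by exact_mod_cast hj0
      obtain ⟨r, hr1, hr2, hr3⟩ := Sg_spec hp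
      obtain ⟨r', hr1', hr2', hr3'⟩ := Sg_spec hq
      have hrj : r' = r + j := by
        have : (r' : ℤ) = r + j := by rw [← hr2', ← hr2]; exact e1
        exact_mod_cast this
      have hjn : j ≤ n := by omega
      have hjnR : (j : ℝ) ≤ n := by exact_mod_cast hjn
      -- the rate function
      have hdev : |(y : ℝ) - sl μ s * j| ≤ 2 * W + 4 := by
        rw [hrj, e2] at hr3'
        push_cast at hr3'
        have e6 : (y : ℝ) - sl μ s * j = ((p.2 : ℝ) + y - sl μ s * ((r : ℝ) + j)) - ((p.2 : ℝ) - sl μ s * r) := by ring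
        rw [e6]
        exact (abs_sub _ _).trans (by linarith)
      obtain ⟨x, hx⟩ : ∃ x : ℝ, x = ((y : ℝ) - sl μ s * j) / j := ⟨_, rfl⟩
      have hxa : |x| ≤ K₃ * vA 1 μ s n := by
        rw [hx, abs_div, abs_of_pos (by linarith : (0 : ℝ) < j), div_le_iff₀ (by linarith)]
        have h1 : θ * n ≤ (j : ℝ) := e3
        have h2 : 2 * W + 4 ≤ (2 * K' + 4) * wd μ s n := by rw [hW]; linarith only [hwn1]
        have h3 : (2 * K' + 4) * wd μ s n = K₃ * vA 1 μ s n * (θ * n) := by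
          rw [hK₃]
          unfold wd
          field_simp
        have h4 : K₃ * vA 1 μ s n * (θ * n) ≤ K₃ * vA 1 μ s n * j :=
          mul_le_mul_of_nonneg_left h1 (mul_nonneg hK₃0.le (h.vA_nonneg n))
        linarith
      have hJx : j * J μ s x ≤ AJ * EE μ s n := by
        have hv0 : 0 ≤ K₃ * vA 1 μ s n := mul_nonneg hK₃0.le (h.vA_nonneg n)
        have hn0 : (0 : ℝ) ≤ n := by linarith
        have hJn : n * J μ s x ≤ AJ * EE μ s n := by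
          rcases le_total 0 x with hx0 | hx0
          · have h1 : J μ s x ≤ J μ s (K₃ * vA 1 μ s n) := h.J_mono hx0 (by rwa [abs_of_nonneg hx0] at hxa)
            have h2 := (hJ n (by omega) (K₃ * vA 1 μ s n) (abs_of_nonneg hv0)).2
            exact (mul_le_mul_of_nonneg_left h1 hn0).trans h2
          · have h1 : J μ s (-(-x)) ≤ J μ s (-(K₃ * vA 1 μ s n)) := h.J_mono_neg (by linarith) (by rwa [abs_of_nonpos hx0] at hxa)
            rw [neg_neg] at h1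
            have h2 := (hJ n (by omega) (-(K₃ * vA 1 μ s n)) (by rw [abs_neg, abs_of_nonneg hv0])).2
            exact (mul_le_mul_of_nonneg_left h1 hn0).trans h2
        rcases le_total 0 (J μ s x) with h0 | h0
        · exact (mul_le_mul_of_nonneg_right hjnR h0).trans hJn
        · have h1 : (j : ℝ) * J μ s x ≤ 0 := mul_nonpos_of_nonneg_of_nonpos (by linarith) h0
          have h2 : 0 ≤ AJ * EE μ s n := by positivity
          linarith
      have hEj : EE μ s j ≤ EE μ s n := EE_mono hjn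
      have hsub2 : {η | ∃ (j : ℕ) (y : ℤ), q.1 = p.1 + j ∧ q.2 = p.2 + y ∧ θ * n ≤ j ∧ (C₁ * (1 + AJ) + u) * EE μ s n < X μ s η p j y} ⊆
          {η | C₁ * (EE μ s j + j * J μ s (((y : ℝ) - sl μ s * j) / j)) + u * EE μ s j ≤ X μ s η p j y} := by
        rintro η ⟨j', y', m1, m2, -, hX⟩
        have ej : j' = j := by
          have : (j' : ℤ) = j := by linarith
          exact_mod_cast this
        have ey : y' = y := by linarith
        subst ej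
        subst ey
        show C₁ * (EE μ s j' + j' * J μ s (((y' : ℝ) - sl μ s * j') / j')) + u * EE μ s j' ≤ X μ s η p j' y'
        rw [← hx]
        have h5 : C₁ * (EE μ s j' + j' * J μ s x) ≤ C₁ * (EE μ s n + AJ * EE μ s n) :=
          mul_le_mul_of_nonneg_left (add_le_add hEj hJx) hC₁.le
        have h6 := mul_le_mul_of_nonneg_left hEj hu
        linarith only [h5, h6, hX]
      refine (measureReal_mono hsub2 (measure_ne_top _ _)).trans ?_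
      rw [real_X16]
      exact hU j hj0 y e4 e5 u hu
    · have hempty : {η | ∃ (j : ℕ) (y : ℤ), q.1 = p.1 + j ∧ q.2 = p.2 + y ∧ θ * n ≤ j ∧ (C₁ * (1 + AJ) + u) * EE μ s n < X μ s η p j y} = ∅ := by
        ext η
        constructor
        · rintro ⟨j, y, m1, m2, m3, hX⟩
          exfalso
          have hy : ¬ (0 ≤ y ∧ y ≤ j) := fun hy => hex ⟨j, y, m1, m2, m3, hy.1, hy.2⟩
          have hX0 : X μ s η p j y = 0 := by
            unfold X
            rw [show Pool.Agent.W_7d29a1_F.W μ s η p j y = 0 from W_eq_zero η p hy, Real.log_zero, neg_zero]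
          rw [hX0] at hX
          have h7 : 0 ≤ u * EE μ s n := by positivity
          linarith only [hX, hL0, h7]
        · intro hη
          exact absurd hη (Set.notMem_empty η)
      rw [hempty, measureReal_empty]
      positivity
  refine (measureReal_mono hsub (measure_ne_top _ _)).trans ?_
  have hcard : ((Sg μ s κ W n k).card : ℝ) ≤ N := by
    have h1 := card_Sg h hκ hK hk
    rw [← hW] at h1
    refine h1.trans ?_
    rw [hN]
    refine mul_le_mul_of_nonneg_left ?_ (by positivity)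
    refine pow_le_pow_left₀ (by positivity) ?_ 2
    rw [div_le_iff₀ (by positivity)]
    exact_mod_cast hkt
  have hb : (law μ).real (⋃ p ∈ Sg μ s κ W n k, ⋃ q ∈ Sg μ s κ W n k,
      {η | ∃ (j : ℕ) (y : ℤ), q.1 = p.1 + j ∧ q.2 = p.2 + y ∧ θ * n ≤ j ∧ (C₁ * (1 + AJ) + u) * EE μ s n < X μ s η p j y}) ≤
      ∑ p ∈ Sg μ s κ W n k, ∑ q ∈ Sg μ s κ W n k, (A * Real.exp (-(a * u ^ g))) := by
    refine (measureReal_biUnion_finset_le _ _).trans (sum_le_sum fun p hp => ?_)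
    refine (measureReal_biUnion_finset_le _ _).trans (sum_le_sum fun q hq => ?_)
    exact hpair p hp q hq
  refine hb.trans ?_
  simp only [sum_const, nsmul_eq_mul]
  have hE0 := Real.exp_pos (-(a * u ^ g))
  have hc0 : (0 : ℝ) ≤ (Sg μ s κ W n k).card := Nat.cast_nonneg _
  calc ((Sg μ s κ W n k).card : ℝ) * (((Sg μ s κ W n k).card : ℝ) * (A * Real.exp (-(a * u ^ g)))) ≤
        N * (N * (A * Real.exp (-(a * u ^ g)))) :=
        mul_le_mul hcard (mul_le_mul_of_nonneg_right hcard (by positivity)) (by positivity) hN0.le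
    _ = _ := by ring

/-- **UNIFORM LOWER BOUND AT CONSTANT LEVEL.** -/
theorem low_prob (h : In μ s c C n₀) {K θ : ℝ} (hK : 0 < K) (hθ : 0 < θ) (hθ1 : θ ≤ 1) : ∃ C₁ A a g : ℝ, 0 < C₁ ∧ 0 < A ∧ 0 < a ∧ 0 < g ∧
    g ≤ 1 ∧ ∃ n₁ : ℕ, ∀ n : ℕ, n₁ ≤ n → ∀ (a₀ : Pt) (u : ℝ), 0 ≤ u →
    (law μ).real (Low16 μ s K θ n a₀ ((C₁ + u) * EE μ s n))ᶜ ≤ A * Real.exp (-(a * u ^ g)) := by
  obtain ⟨κ, hκ⟩ := exists_Ka h
  have hκ0 := hκ.pos
  have hs0 := h.sl_pos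
  have hs1 := h.sl_lt
  have hC0 : 0 < C := lt_of_lt_of_le one_pos h.C1
  obtain ⟨aE, KE, haE, hKE, nE, hnE, hE⟩ := EE_oct h
  obtain ⟨aW, KW, haW, hKW, nW, hnW, hWd⟩ := wd_oct h
  obtain ⟨SE, hSE, hsE⟩ := oct_sum (b := aE / 2) (by positivity)
  obtain ⟨SW, hSW, hsW⟩ := oct_sum (b := aW) haW
  obtain ⟨t0, ht0⟩ : ∃ t0 : ℕ, 64 / θ ≤ 2 ^ t0 := by
    obtain ⟨t0, ht0⟩ := pow_unbounded_of_one_lt (64 / θ) (by norm_num : (1 : ℝ) < 2)
    exact ⟨t0, ht0.le⟩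
  have ht0' : 64 ≤ (2 : ℝ) ^ t0 * θ := by rwa [div_le_iff₀ hθ] at ht0
  have ht3 : 3 ≤ t0 := by
    by_contra hcon
    have h1 : (2 : ℝ) ^ t0 ≤ 2 ^ 2 := pow_le_pow_right₀ (by norm_num) (by omega)
    have h2 : (2 : ℝ) ^ t0 * θ ≤ 4 := by
      calc (2 : ℝ) ^ t0 * θ ≤ 2 ^ t0 * 1 := mul_le_mul_of_nonneg_left hθ1 (by positivity)
        _ ≤ 4 := by
          rw [mul_one]
          exact h1.trans (by norm_num)
    linarith
  -- the widths
  obtain ⟨K₂, hK₂⟩ : ∃ K₂ : ℝ, K₂ = C / Real.log 2 + κ * (KW * 2 ^ aW * SW) := ⟨_, rfl⟩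
  have hlog2 : 0 < Real.log 2 := Real.log_pos (by norm_num)
  have hK₂0 : 0 < K₂ := by rw [hK₂]; positivity
  obtain ⟨K', hK'⟩ : ∃ K' : ℝ, K' = K + K₂ := ⟨_, rfl⟩
  have hK'0 : 0 ≤ K' := by rw [hK']; linarith
  obtain ⟨A₁, c₁, γ₁, hA₁, hc₁, hγ₁, hγ₁1, hGL⟩ := GLk_prob h hκ hK'0 (b := aE / 2) (by positivity)
  obtain ⟨C₂, A₂, c₂, γ₂, hC₂, hA₂, hc₂, hγ₂, hγ₂1, n₂, hGT⟩ := GTp_prob h hκ hK'0 (show 0 < θ / 2 by positivity) (t0 + 1)
  obtain ⟨nv, hnv⟩ := eventually_atTop.1 (h.tv.eventually_le_const (show (0 : ℝ) < min (sl μ s) (1 - sl μ s) * θ / (4 * K' + 1) by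
    have : 0 < min (sl μ s) (1 - sl μ s) := lt_min hs0 (by linarith)
    positivity))
  obtain ⟨Ec, hEc⟩ : ∃ Ec : ℝ, Ec = KE * 4 ^ aE * SE := ⟨_, rfl⟩
  have hEc0 : 0 < Ec := by rw [hEc]; positivity
  obtain ⟨M, hM⟩ : ∃ M : ℝ, M = 2 * Ec + 1 := ⟨_, rfl⟩
  have hM0 : 0 < M := by rw [hM]; linarith
  obtain ⟨g, hg⟩ : ∃ g : ℝ, g = min γ₁ γ₂ := ⟨_, rfl⟩
  have hg0 : 0 < g := by rw [hg]; exact lt_min hγ₁ hγ₂
  have hg1 : g ≤ 1 := by rw [hg]; exact (min_le_left _ _).trans hγ₁1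
  obtain ⟨a, ha⟩ : ∃ a : ℝ, a = min c₁ c₂ * (1 / M) ^ g := ⟨_, rfl⟩
  have ha0 : 0 < a := by rw [ha]; have := lt_min hc₁ hc₂; positivity
  obtain ⟨Q₀, hQ₀⟩ : ∃ Q₀ : ℕ, Q₀ = 2 ^ (t0 + 1) := ⟨_, rfl⟩
  refine ⟨C₂, A₁ + A₂ + Real.exp (a * M ^ g), a, g, hC₂, by positivity, ha0, hg0, hg1, Q₀ + nE + nW + n₂ + nv + n₀ + 1,
    fun n hn a₀ u hu => ?_⟩
  -- stationarity
  have hst : (law μ).real (Low16 μ s K θ n a₀ ((C₂ + u) * EE μ s n))ᶜ = (law μ).real (Low16 μ s K θ n 0 ((C₂ + u) * EE μ s n))ᶜ := by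
    have h1 := real_sh (μ := μ) a₀ (Low16_meas (μ := μ) (s := s) K θ n 0 ((C₂ + u) * EE μ s n)).compl
    rw [← h1]
    congr 1
    ext η
    show ¬ (η ∈ Low16 μ s K θ n a₀ ((C₂ + u) * EE μ s n)) ↔ ¬ (sh a₀ η ∈ Low16 μ s K θ n 0 ((C₂ + u) * EE μ s n))
    rw [Low16_sh]
  rw [hst]
  have hA0 : 0 ≤ A₁ + A₂ := by linarith
  -- small levels
  rcases lt_or_ge u M with huM | huM
  · have h1 : (1 : ℝ) ≤ (A₁ + A₂ + Real.exp (a * M ^ g)) * Real.exp (-(a * u ^ g)) := by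
      have h2 : a * u ^ g ≤ a * M ^ g := mul_le_mul_of_nonneg_left (Real.rpow_le_rpow hu huM.le hg0.le) ha0.le
      have h3 : Real.exp (a * u ^ g) * Real.exp (-(a * u ^ g)) = 1 := by rw [← Real.exp_add, add_neg_cancel, Real.exp_zero]
      have h4 : Real.exp (a * u ^ g) ≤ A₁ + A₂ + Real.exp (a * M ^ g) := by
        have := Real.exp_le_exp.2 h2
        linarith
      rw [← h3]
      exact mul_le_mul_of_nonneg_right h4 (Real.exp_pos _).le
    exact measureReal_le_one.trans h1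
  -- the scales
  obtain ⟨L, hL⟩ : ∃ L : ℕ, L = Nat.log 2 n := ⟨_, rfl⟩
  have hn0 : n ≠ 0 := by omega
  have hL1 : 2 ^ L ≤ n := by rw [hL]; exact Nat.pow_log_le_self 2 hn0
  have hL2 : n < 2 ^ (L + 1) := by rw [hL]; exact Nat.lt_pow_succ_log_self (by norm_num) n
  have hLt : t0 ≤ L := by
    have h1 : 2 ^ (t0 + 1) < 2 ^ (L + 1) := lt_of_le_of_lt (by rw [← hQ₀]; omega) hL2
    have h2 := (Nat.pow_lt_pow_iff_right (by norm_num : 1 < 2)).1 h1
    omega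
  obtain ⟨k, hk⟩ : ∃ k : ℕ, L = k + t0 := ⟨L - t0, by omega⟩
  have hk1 : 2 ^ k ≤ n := (Nat.pow_le_pow_right (by norm_num) (by omega)).trans hL1
  have hk2 : n ≤ 2 ^ (t0 + 1) * 2 ^ k := by
    rw [← pow_add]
    have e1 : t0 + 1 + k = L + 1 := by omega
    rw [e1]
    exact hL2.le
  have hk3 : 2 ^ t0 * 2 ^ k ≤ n := by
    rw [← pow_add, add_comm, ← hk]
    exact hL1
  have hnR : (1 : ℝ) ≤ n := by exact_mod_cast (by omega : 1 ≤ n)
  have hnR0 : (0 : ℝ) < n := by linarith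
  have hk4 : 64 * (2 : ℝ) ^ k ≤ θ * n := by
    have h1 : (2 : ℝ) ^ t0 * 2 ^ k ≤ n := by exact_mod_cast hk3
    have h2 : (0 : ℝ) < 2 ^ k := by positivity
    calc 64 * (2 : ℝ) ^ k ≤ 2 ^ t0 * θ * 2 ^ k := mul_le_mul_of_nonneg_right ht0' h2.le
      _ = θ * (2 ^ t0 * 2 ^ k) := by ring
      _ ≤ θ * n := mul_le_mul_of_nonneg_left h1 hθ.le
  have hEn := EE_pos (μ := μ) (s := s) n
  have hwn0 := h.wd_nonneg n
  have hvn := hnv n (by omega)
  have hmin : 0 < min (sl μ s) (1 - sl μ s) := lt_min hs0 (by linarith)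
  have hcone : 2 * K' * wd μ s n ≤ min (sl μ s) (1 - sl μ s) * (θ / 2 * n) := by
    have h1 : vA 1 μ s n * (4 * K' + 1) ≤ min (sl μ s) (1 - sl μ s) * θ := by rwa [le_div_iff₀ (by linarith)] at hvn
    have h2 := h.vA_nonneg n
    unfold wd
    have h3 : 4 * K' * vA 1 μ s n ≤ min (sl μ s) (1 - sl μ s) * θ := by linarith only [h1, h2]
    have h4 := mul_le_mul_of_nonneg_right h3 hnR0.le
    linarith only [h4]
  -- the sum of the meshes
  have hmesh : ∀ i ≤ k, K * wd μ s n + ∑ l ∈ range i, (mw μ s κ (l + 1) : ℝ) ≤ K' * wd μ s n := by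
    intro i hi
    have h1 : ∀ l ∈ range i, (mw μ s κ (l + 1) : ℝ) ≤ 1 + κ * (KW * 2 ^ aW * ((2 : ℝ) ^ l / n) ^ aW * wd μ s n) := by
      intro l hl
      rw [mem_range] at hl
      refine (mw_le h hκ (l + 1)).trans (add_le_add le_rfl (mul_le_mul_of_nonneg_left ?_ hκ0.le))
      have h2 := hWd n (by omega) (2 ^ (l + 1)) Nat.one_le_two_pow ((Nat.pow_le_pow_right (by norm_num) (by omega)).trans hk1)
      refine h2.trans (le_of_eq ?_)
      have e1 : (((2 ^ (l + 1) : ℕ) : ℝ) / n) = 2 * ((2 : ℝ) ^ l / n) := by push_cast; rw [pow_succ]; ring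
      rw [e1, Real.mul_rpow (by norm_num) (by positivity)]
      ring
    have h2 : ∑ l ∈ range i, (mw μ s κ (l + 1) : ℝ) ≤ i + κ * (KW * 2 ^ aW * SW) * wd μ s n := by
      refine (sum_le_sum h1).trans ?_
      rw [sum_add_distrib, sum_const, card_range, nsmul_eq_mul, mul_one, ← mul_sum]
      refine add_le_add le_rfl ?_
      have e2 : ∑ l ∈ range i, KW * 2 ^ aW * ((2 : ℝ) ^ l / n) ^ aW * wd μ s n = KW * 2 ^ aW * (∑ l ∈ range i, ((2 : ℝ) ^ l / n) ^ aW) * wd μ s n := by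
        rw [mul_sum, sum_mul]
      rw [e2]
      have h3 : ∑ l ∈ range i, ((2 : ℝ) ^ l / n) ^ aW ≤ SW := by
        refine le_trans (sum_le_sum_of_subset_of_nonneg (range_mono (by omega : i ≤ k + 1)) fun l _ _ => by positivity) (hsW n k hk1)
      have h4 : KW * 2 ^ aW * (∑ l ∈ range i, ((2 : ℝ) ^ l / n) ^ aW) * wd μ s n ≤ KW * 2 ^ aW * SW * wd μ s n :=
        mul_le_mul_of_nonneg_right (mul_le_mul_of_nonneg_left h3 (by positivity)) hwn0
      calc κ * (KW * 2 ^ aW * (∑ l ∈ range i, ((2 : ℝ) ^ l / n) ^ aW) * wd μ s n) ≤ κ * (KW * 2 ^ aW * SW * wd μ s n) :=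
            mul_le_mul_of_nonneg_left h4 hκ0.le
        _ = _ := by ring
    have h3 : (i : ℝ) ≤ C / Real.log 2 * wd μ s n := by
      have h4 : (i : ℝ) ≤ L := by exact_mod_cast (by omega : i ≤ L)
      have h5 : (L : ℝ) * Real.log 2 ≤ Real.log n := by
        rw [← Real.log_pow]
        exact Real.log_le_log (by positivity) (by exact_mod_cast hL1)
      have h6 := h.lg n (by omega)
      have h7 : EE μ s n ≤ wd μ s n := by
        have h8 := h.vA_ge n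
        unfold wd
        have h9 : (n : ℝ) * (2 * (EE μ s n / n)) ≤ n * vA 1 μ s n := mul_le_mul_of_nonneg_left h8 hnR0.le
        have e3 : (n : ℝ) * (2 * (EE μ s n / n)) = 2 * EE μ s n := by field_simp
        rw [e3] at h9
        linarith
      rw [div_mul_eq_mul_div, le_div_iff₀ hlog2]
      have h10 := mul_le_mul_of_nonneg_left h7 hC0.le
      have h11 := mul_le_mul_of_nonneg_right h4 hlog2.le
      linarith only [h11, h5, h6, h10]
    have e4 : K' * wd μ s n = K * wd μ s n + (C / Real.log 2 * wd μ s n + κ * (KW * 2 ^ aW * SW) * wd μ s n) := by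
      rw [hK', hK₂]
      ring
    rw [e4]
    linarith
  -- the levels
  obtain ⟨v, hv⟩ : ∃ v : ℝ, v = u / M := ⟨_, rfl⟩
  have hv1 : 1 ≤ v := by rw [hv, le_div_iff₀ hM0]; linarith
  have hv0 : 0 ≤ v := by linarith
  have hMv : M * v = u := by rw [hv]; field_simp
  have hen : ∑ l ∈ range k, (v * ((n : ℝ) / 2 ^ l) ^ (aE / 2)) * EE μ s (2 * 2 ^ (l + 1)) ≤ Ec * v * EE μ s n := by
    have h1 : ∀ l ∈ range k, (v * ((n : ℝ) / 2 ^ l) ^ (aE / 2)) * EE μ s (2 * 2 ^ (l + 1)) ≤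
        v * (KE * 4 ^ aE) * ((2 : ℝ) ^ l / n) ^ (aE / 2) * EE μ s n := by
      intro l hl
      rw [mem_range] at hl
      have e1 : 2 * 2 ^ (l + 1) = 2 ^ (l + 2) := by ring
      have h2 := hE n (by omega) (2 * 2 ^ (l + 1)) (by rw [e1]; exact Nat.one_le_two_pow) (by
        rw [e1]
        exact (Nat.pow_le_pow_right (by norm_num) (by omega)).trans hL1)
      have e2 : (((2 * 2 ^ (l + 1) : ℕ) : ℝ) / n) = 4 * ((2 : ℝ) ^ l / n) := by push_cast; rw [pow_succ]; ring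
      obtain ⟨r, hr⟩ : ∃ r : ℝ, r = (2 : ℝ) ^ l / n := ⟨_, rfl⟩
      have hr0 : 0 < r := by rw [hr]; positivity
      rw [e2, ← hr, Real.mul_rpow (by norm_num) hr0.le] at h2
      have e3 : (n : ℝ) / 2 ^ l = r⁻¹ := by rw [hr, inv_div]
      have e4 : (r⁻¹) ^ (aE / 2) * r ^ aE = r ^ (aE / 2) := by
        rw [Real.inv_rpow hr0.le, inv_mul_eq_div, ← Real.rpow_sub hr0]
        congr 1
        ring
      rw [e3, ← hr]
      have h3 : 0 ≤ v * (r⁻¹) ^ (aE / 2) := by positivity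
      calc v * (r⁻¹) ^ (aE / 2) * EE μ s (2 * 2 ^ (l + 1)) ≤ v * (r⁻¹) ^ (aE / 2) * (KE * (4 ^ aE * r ^ aE) * EE μ s n) :=
            mul_le_mul_of_nonneg_left h2 h3
        _ = v * (KE * 4 ^ aE) * ((r⁻¹) ^ (aE / 2) * r ^ aE) * EE μ s n := by ring
        _ = _ := by rw [e4]
    refine (sum_le_sum h1).trans ?_
    rw [← sum_mul, ← mul_sum]
    have h3 : ∑ l ∈ range k, ((2 : ℝ) ^ l / n) ^ (aE / 2) ≤ SE :=
      le_trans (sum_le_sum_of_subset_of_nonneg (range_mono (by omega : k ≤ k + 1)) fun l _ _ => by positivity) (hsE n k hk1)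
    have h4 : v * (KE * 4 ^ aE) * (∑ l ∈ range k, ((2 : ℝ) ^ l / n) ^ (aE / 2)) ≤ v * (KE * 4 ^ aE) * SE :=
      mul_le_mul_of_nonneg_left h3 (by positivity)
    calc v * (KE * 4 ^ aE) * (∑ l ∈ range k, ((2 : ℝ) ^ l / n) ^ (aE / 2)) * EE μ s n ≤ v * (KE * 4 ^ aE) * SE * EE μ s n :=
          mul_le_mul_of_nonneg_right h4 hEn.le
      _ = _ := by rw [hEc]; ring
  -- the inclusion
  have hincl : (Low16 μ s K θ n 0 ((C₂ + u) * EE μ s n))ᶜ ⊆
      (GLk μ s κ (K' * wd μ s n) n k fun i => v * ((n : ℝ) / 2 ^ i) ^ (aE / 2))ᶜ ∪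
      (GTp μ s κ (K' * wd μ s n) n k ((C₂ + v) * EE μ s n) (θ / 2))ᶜ := by
    intro η hη
    by_contra hcon
    rw [Set.mem_union, not_or, Set.notMem_compl_iff, Set.notMem_compl_iff] at hcon
    obtain ⟨hG1, hG2⟩ := hcon
    refine hη fun t j z y h1 h2 h3 h4 => ?_
    have h2k : 64 * 2 ^ k ≤ j := by
      have h5 : (64 : ℝ) * 2 ^ k ≤ j := hk4.trans h2
      exact_mod_cast h5
    obtain ⟨r₁, kk₁, j₁, y₁, f1, f2, f3, f4, f5, f6, f7⟩ := chain_fwd h hκ hG1 hmesh (t := t) (x := z) (by omega) h3 k le_rfl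
    obtain ⟨r₂, kk₂, j₂, y₂, b1, b2, b3, b4, b5, b6, b7⟩ := chain_bwd h hκ hG1 hmesh (t := t + j) (x := z + y) h1 (by omega) h4 k le_rfl
    obtain ⟨j₃, hj₃⟩ : ∃ j₃ : ℕ, j = j₁ + (j₃ + j₂) := ⟨j - j₁ - j₂, by omega⟩
    obtain ⟨y₃, hy₃⟩ : ∃ y₃ : ℤ, y = y₁ + (y₃ + y₂) := ⟨y - y₁ - y₂, by ring⟩
    have hmk := hmesh k le_rfl
    have hj3 : θ / 2 * n ≤ j₃ := by
      have h5 : (j₁ : ℝ) + j₂ ≤ 8 * 2 ^ k := by
        have : j₁ + j₂ ≤ 8 * 2 ^ k := by omega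
        exact_mod_cast this
      have h6 : (j : ℝ) = j₁ + (j₃ + j₂) := by rw [hj₃]; push_cast; rfl
      linarith
    have hdev : |(y₃ : ℝ) - sl μ s * j₃| ≤ 2 * K' * wd μ s n := by
      have g1 : |((z : ℝ) - sl μ s * t) + ((y₁ : ℝ) - sl μ s * j₁)| ≤ K' * wd μ s n :=
        (abs_add_le _ _).trans ((add_le_add h3 f5).trans hmk)
      have g2 : |(((z + y : ℤ) : ℝ) - sl μ s * ((t + j : ℕ) : ℝ)) + -((y₂ : ℝ) - sl μ s * j₂)| ≤ K' * wd μ s n := by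
        refine (abs_add_le _ _).trans ?_
        rw [abs_neg]
        exact (add_le_add h4 b5).trans hmk
      have e5 : (y₃ : ℝ) - sl μ s * j₃ = ((((z + y : ℤ) : ℝ) - sl μ s * ((t + j : ℕ) : ℝ)) + -((y₂ : ℝ) - sl μ s * j₂)) -
          (((z : ℝ) - sl μ s * t) + ((y₁ : ℝ) - sl μ s * j₁)) := by
        rw [hj₃, hy₃]
        push_cast
        ring
      rw [e5]
      exact (abs_sub _ _).trans (by linarith)
    have hin : 0 ≤ y₃ ∧ y₃ ≤ j₃ := by
      have g1 : 2 * K' * wd μ s n ≤ min (sl μ s) (1 - sl μ s) * j₃ := hcone.trans (mul_le_mul_of_nonneg_left hj3 hmin.le)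
      have g2 : min (sl μ s) (1 - sl μ s) * j₃ ≤ sl μ s * j₃ := mul_le_mul_of_nonneg_right (min_le_left _ _) (Nat.cast_nonneg _)
      have g3 : min (sl μ s) (1 - sl μ s) * j₃ ≤ (1 - sl μ s) * j₃ := mul_le_mul_of_nonneg_right (min_le_right _ _) (Nat.cast_nonneg _)
      rw [abs_le] at hdev
      constructor
      · have g4 : (0 : ℝ) ≤ y₃ := by linarith [hdev.1]
        exact_mod_cast g4
      · have g4 : (y₃ : ℝ) ≤ j₃ := by linarith [hdev.2]
        exact_mod_cast g4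
    have e6 : ((0 : Pt).1 + (t : ℤ), (0 : Pt).2 + z) = ((t : ℤ), z) := by simp
    rw [e6, hj₃, hy₃]
    have x1 := X_add_le (μ := μ) (s := s) η ((t : ℤ), z) (m := j₁) (n := j₃ + j₂) (k := y₁) (y := y₃ + y₂) f3 f4
      (by omega) (by push_cast; omega)
    have e7 : (((t : ℤ), z).1 + (j₁ : ℤ), ((t : ℤ), z).2 + y₁) = gp μ s κ k r₁ kk₁ := by rw [f1]
    rw [e7] at x1
    have x2 := X_add_le (μ := μ) (s := s) η (gp μ s κ k r₁ kk₁) (m := j₃) (n := j₂) (k := y₃) (y := y₂) hin.1 hin.2 b3 b4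
    have e8 : ((gp μ s κ k r₁ kk₁).1 + (j₃ : ℤ), (gp μ s κ k r₁ kk₁).2 + y₃) = gp μ s κ k r₂ kk₂ := by
      rw [f1, b1]
      ext
      · show (t : ℤ) + j₁ + j₃ = ((t + j : ℕ) : ℤ) - j₂
        rw [hj₃]
        push_cast
        ring
      · show z + y₁ + y₃ = z + y - y₂
        rw [hy₃]
        ring
    rw [e8] at x2
    have x3 := hG2 _ f6 _ b6 j₃ y₃ (by rw [← e8]) (by rw [← e8]) hj3
    have x4 := f7.trans hen
    have x5 := b7.trans hen
    have x6 : X μ s η ((t : ℤ), z) (j₁ + (j₃ + j₂)) (y₁ + (y₃ + y₂)) ≤ Ec * v * EE μ s n + ((C₂ + v) * EE μ s n + Ec * v * EE μ s n) := by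
      linarith
    refine x6.trans (le_of_eq ?_)
    rw [← hMv, hM]
    ring
  have hP1 := hGL n k hk1 v hv1
  have hP2 := hGT n k (by omega) hk1 hk2 v hv0
  have hfin : ∀ (A' c' γ' : ℝ), 0 ≤ A' → min c₁ c₂ ≤ c' → g ≤ γ' → A' * Real.exp (-(c' * v ^ γ')) ≤ A' * Real.exp (-(a * u ^ g)) := by
    intro A' c' γ' hA' hc' hγ'
    refine mul_le_mul_of_nonneg_left (Real.exp_le_exp.2 (neg_le_neg ?_)) hA'
    have h1 : v ^ g ≤ v ^ γ' := Real.rpow_le_rpow_of_exponent_le hv1 hγ'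
    have h2 : a * u ^ g = min c₁ c₂ * v ^ g := by
      rw [ha, hv, Real.div_rpow hu hM0.le, Real.div_rpow (by norm_num) hM0.le, Real.one_rpow]
      ring
    rw [h2]
    have h3 : 0 ≤ min c₁ c₂ := (lt_min hc₁ hc₂).le
    exact mul_le_mul hc' h1 (by positivity) (h3.trans hc')
  have q1 := hP1.trans (hfin A₁ c₁ γ₁ hA₁.le (min_le_left _ _) (by rw [hg]; exact min_le_left _ _))
  have q2 := hP2.trans (hfin A₂ c₂ γ₂ hA₂.le (min_le_right _ _) (by rw [hg]; exact min_le_right _ _))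
  have hmain := (measureReal_mono hincl (measure_ne_top (law μ) _)).trans (measureReal_union_le _ _)
  have hpos : 0 ≤ Real.exp (a * M ^ g) * Real.exp (-(a * u ^ g)) := by positivity
  calc (law μ).real (Low16 μ s K θ n 0 ((C₂ + u) * EE μ s n))ᶜ ≤ A₁ * Real.exp (-(a * u ^ g)) + A₂ * Real.exp (-(a * u ^ g)) := by linarith
    _ ≤ (A₁ + A₂ + Real.exp (a * M ^ g)) * Real.exp (-(a * u ^ g)) := by linarith

end

end Pool.Agent.W_7d29a1_C1.U16
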