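import Pool.Agent.W_7d29a1_C1.VDef31
import Pool.Agent.W_7d29a1_C1.FarW89

/-!
MP_7d29a1_pr, attractor route [C1], SHELL: `ω ∈ V31` FROM THE MODEL (helper31): `dw_shell` with the normalised kernels `nk` of the ball,
the future `GV`, local regularity at the two edge rows, `stay`, the far masses, the early meetings, tameness.
-/

set_option autoImplicit false

namespace Pool.Agent.W_7d29a1_C1.D31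

open MeasureTheory Finset
open Pool.Agent.W_7d29a1_F Pool.Agent.W_7d29a1_h4g Pool.Agent.W_7d29a1_H Pool.Agent.W_7d29a1_HS
open Pool.Agent.W_7d29a1_C1.S71 Pool.Agent.W_7d29a1_C1.T10
open Pool.Agent.W_7d29a1_C1.H60 (Cx AT mem_AT)
open Pool.Agent.W_7d29a1_C1.K91 (wt wt_pos Box)
open Pool.Agent.W_7d29a1_C1.K91P
open Pool.Agent.W_7d29a1_C1.U31 (ms ms_nonneg)
open Pool.Agent.W_7d29a1_C1.U16 (ker ker_nonneg)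
open Pool.Agent.W_7d29a1_C1.FarW89 (nk nk_nonneg nk_eq_zero ker_nk bl)

noncomputable section

/-- The kernel of the ball, normalised, times the weight of the start. -/
def kM31 (μ : Measure ℝ) (s : ℝ) (Γ : Cx) (ω : Env) (i n : ℕ) (x z : ℤ) : ℝ := wt ω i x * nk μ s Γ.h ω Γ.p Γ.M i n x z

theorem kM_nonneg {μ : Measure ℝ} {s : ℝ} {Γ : Cx} {ω : Env} {i n : ℕ} (x z : ℤ) : 0 ≤ kM31 μ s Γ ω i n x z :=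
  mul_nonneg (wt_pos ω i x).le (nk_nonneg Γ.p_pos i n x z)

/-- The future of the kernel at the upper row. -/
theorem kM_eq {μ : Measure ℝ} {s : ℝ} {Γ : Cx} {ω : Env} {i n : ℕ} (hN : i + n < Γ.N) (x z : ℤ) :
    ker (wt ω) Γ.p i n x z * bw (wt ω) Γ.p (i + n) (Γ.N - (i + n)) z =
      Real.exp (n * lam μ s + Γ.h * sl μ s * bl Γ.M i n) * (kM31 μ s Γ ω i n x z * GG (wt ω) Γ.p Γ.N (i + n) z) := by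
  have h1 := wt_pos ω (i + n) z
  rw [ker_nk (μ := μ) (s := s) (h := Γ.h) (M := Γ.M), bw_eq hN]
  unfold kM31
  field_simp

variable {μ : Measure ℝ} {s : ℝ} {Γ : Cx} {ν : NV31} {G : Gd} {t : ℕ} {c : ℕ × ℤ} {ω : Env}

/-- A site of positive mass in a window in which the profile is tame. -/
theorem pos_of_tame31 {f : ℤ → ℝ} {cen W q : ℝ} (ht : ∀ x x' : ℤ, |(x : ℝ) - cen| ≤ W → |(x' : ℝ) - cen| ≤ W → f x ≤ Real.exp q * f x')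
    {x₀ : ℤ} (hx₀ : |(x₀ : ℝ) - cen| ≤ W) (h0 : 0 < f x₀) {x : ℤ} (hx : |(x : ℝ) - cen| ≤ W) : 0 < f x := by
  have h1 := ht x₀ x hx₀ hx
  have h2 := Real.exp_pos q
  by_contra hcon
  have h3 : Real.exp q * f x ≤ 0 := mul_nonpos_of_nonneg_of_nonpos h2.le (not_lt.1 hcon)
  linarith

/-- Local regularity gives tameness of a window. -/
theorem tame_of_lr31 {f : ℤ → ℝ} {cen Y D r σ W : ℝ} (hLR : ∀ x x₀ : ℤ, |(x₀ : ℝ) - cen| ≤ Y → |(x : ℝ) - x₀| ≤ D →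
      f x ≤ Real.exp (r + σ * |(x : ℝ) - x₀|) * f x₀) (hf : ∀ x, 0 ≤ f x) (hσ : 0 ≤ σ) (hY : W ≤ Y) (hD : 2 * W ≤ D) :
    ∀ x x' : ℤ, |(x : ℝ) - cen| ≤ W → |(x' : ℝ) - cen| ≤ W → f x ≤ Real.exp (r + 2 * σ * W) * f x' := by
  intro x x' hx hx'
  have h1 : |(x : ℝ) - x'| ≤ 2 * W := by
    have h2 := abs_sub_le (x : ℝ) cen x'
    rw [abs_sub_comm cen (x' : ℝ)] at h2
    linarith
  refine (hLR x x' (hx'.trans hY) (h1.trans hD)).trans (mul_le_mul_of_nonneg_right (Real.exp_le_exp.2 ?_) (hf x'))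
  have h2 := mul_le_mul_of_nonneg_left h1 hσ
  linarith

/-- **THE EVENT `V` FROM THE MODEL.** The shells: widths `Wd l`, `l₁ ≤ l₂ ≤ L`; losses `loss31`. -/
theorem vin31 (hΓ : Γ.Ok) (hj : ν.j₀ ≤ t) (hN : ν.row G t c + ν.nr t < Γ.N)
    {Wd : ℕ → ℝ} {l₁ l₂ L l' : ℕ} (h12 : l₁ ≤ l₂) (hl : l₂ < L) (hl'1 : l' < l₂) {σ aT R : ℝ} {r a : ℕ → ℝ} (hσ : 0 ≤ σ)
    (hE : 0 < ν.E t) (hw0 : 0 < ν.w t) (hQ : 0 ≤ ν.Q) (hc₁ : 0 < ν.c₁) (hσc : σ ≤ (ν.c₃ - ν.c₁) * (ν.E t / ν.w t))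
    (hsl0 : 0 ≤ sl μ s) (hsl1 : sl μ s ≤ 1)
    -- the levels of the ball
    (hlowS : ∀ l, l₂ ≤ l → l < L → ∀ x z : ℤ, InS Wd L l ((x : ℝ) - ν.cn G t c (sl μ s)) → x ≤ z → z ≤ x + ν.nr t →
      |((z : ℝ) - ν.cn' G t c (sl μ s)) - ((x : ℝ) - ν.cn G t c (sl μ s))| ≤ 1 → Real.exp (-a l) ≤ kM31 μ s Γ ω (ν.row G t c) (ν.nr t) x z)
    (hlowE : ∀ l, l₂ ≤ l → l < L → ∀ x z : ℤ, InS Wd L l ((z : ℝ) - ν.cn' G t c (sl μ s)) → x ≤ z → z ≤ x + ν.nr t →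
      |((z : ℝ) - ν.cn' G t c (sl μ s)) - ((x : ℝ) - ν.cn G t c (sl μ s))| ≤ 1 → Real.exp (-a l) ≤ kM31 μ s Γ ω (ν.row G t c) (ν.nr t) x z)
    (hone : ∀ x z : ℤ, x ≤ z → z ≤ x + ν.nr t → 0 ≤ x → z ≤ Γ.hi → Real.exp (-aT) ≤ kM31 μ s Γ ω (ν.row G t c) (ν.nr t) x z)
    {u₀ : ℝ} (hkw : ∀ x ∈ Icc 0 Γ.hi, ∀ z ∈ Icc 0 Γ.hi, |(x : ℝ) - ν.cn G t c (sl μ s)| ≤ Wd l₂ →
      |(z : ℝ) - ν.cn' G t c (sl μ s)| ≤ Wd l₂ → kM31 μ s Γ ω (ν.row G t c) (ν.nr t) x z ≤ Real.exp u₀)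
    -- local regularity at the two edge rows
    (hLG : ∀ l, l < L → ∀ z z₀ : ℤ, |(z₀ : ℝ) - ν.cn' G t c (sl μ s)| ≤ Wd (l + 1) + 1 → |(z : ℝ) - z₀| ≤ ν.nr t + 1 →
      GV Γ ν G t c ω z ≤ Real.exp (r l + σ * |(z : ℝ) - z₀|) * GV Γ ν G t c ω z₀)
    (hLl : ∀ l, l < L → ∀ x x₀ : ℤ, |(x₀ : ℝ) - ν.cn G t c (sl μ s)| ≤ Wd (l + 1) + 1 → |(x : ℝ) - x₀| ≤ ν.nr t + 1 →
      fw (wt ω) Γ.p Cx.l (ν.row G t c) x ≤ Real.exp (r l + σ * |(x : ℝ) - x₀|) * fw (wt ω) Γ.p Cx.l (ν.row G t c) x₀)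
    (hLr : ∀ l, l < L → ∀ x x₀ : ℤ, |(x₀ : ℝ) - ν.cn G t c (sl μ s)| ≤ Wd (l + 1) + 1 → |(x : ℝ) - x₀| ≤ ν.nr t + 1 →
      fw (wt ω) Γ.p Γ.r (ν.row G t c) x ≤ Real.exp (r l + σ * |(x : ℝ) - x₀|) * fw (wt ω) Γ.p Γ.r (ν.row G t c) x₀)
    (hpL : ∃ x : ℤ, |(x : ℝ) - ν.cn G t c (sl μ s)| ≤ Wd l₁ ∧ 0 < fw (wt ω) Γ.p Cx.l (ν.row G t c) x)
    (hpR : ∃ x : ℤ, |(x : ℝ) - ν.cn G t c (sl μ s)| ≤ Wd l₁ ∧ 0 < fw (wt ω) Γ.p Γ.r (ν.row G t c) x)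
    -- stay and far masses
    {nn : ℕ → ℕ} {A : ℕ → Finset ℤ} (hn1 : ∀ j, l₁ ≤ j → j ≤ L → ν.nr t ≤ nn j) (hn2 : ∀ j, l₁ ≤ j → j ≤ L → ν.row G t c + nn j ≤ Γ.N)
    (hsi : ∀ j, l₁ ≤ j → j ≤ L → ∀ x ∈ Icc 0 Γ.hi, x ≤ Γ.hi - Γ.N + ν.row G t c → InS Wd L j ((x : ℝ) - ν.cn G t c (sl μ s)) →
      ∑ v ∈ Icc 0 Γ.hi \ A j, ker (wt ω) Γ.p (ν.row G t c) (nn j) x v * bw (wt ω) Γ.p (ν.row G t c + nn j) (Γ.N - (ν.row G t c + nn j)) v ≤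
        1 / 2 * bw (wt ω) Γ.p (ν.row G t c) (Γ.N - ν.row G t c) x)
    (hsn : ∀ j, l₁ ≤ j → j ≤ L → ∀ z ∈ Icc 0 Γ.hi, z ≤ Γ.hi - Γ.N + (ν.row G t c + ν.nr t : ℕ) → InS Wd L j ((z : ℝ) - ν.cn' G t c (sl μ s)) →
      ∑ v ∈ Icc 0 Γ.hi \ A j, ker (wt ω) Γ.p (ν.row G t c + ν.nr t) (nn j - ν.nr t) z v *
        bw (wt ω) Γ.p (ν.row G t c + ν.nr t + (nn j - ν.nr t)) (Γ.N - (ν.row G t c + ν.nr t + (nn j - ν.nr t))) v ≤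
        1 / 2 * bw (wt ω) Γ.p (ν.row G t c + ν.nr t) (Γ.N - (ν.row G t c + ν.nr t)) z)
    {κ : ℕ → ℝ}
    (hfL : ∀ j, l₁ ≤ j → j ≤ L → ms (wt ω) Γ.p Γ.N Cx.l (ν.row G t c + nn j) (A j) ≤
      Real.exp (-κ j) * ∑ x ∈ Icc 0 Γ.hi, Cx.l x * bw (wt ω) Γ.p 0 Γ.N x)
    (hfR : ∀ j, l₁ ≤ j → j ≤ L → ms (wt ω) Γ.p Γ.N Γ.r (ν.row G t c + nn j) (A j) ≤
      Real.exp (-κ j) * ∑ x ∈ Icc 0 Γ.hi, Γ.r x * bw (wt ω) Γ.p 0 Γ.N x)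
    -- the early meetings
    {κ₀ g₁ : ℝ} (hmet : ∑ j ∈ range (ν.row G t c), mt (wt ω) Γ.p Cx.l Γ.r 0 Γ.hi Γ.N j ≤ Real.exp (-κ₀) *
      ((∑ x ∈ Icc 0 Γ.hi, Cx.l x * bw (wt ω) Γ.p 0 Γ.N x) * ∑ y ∈ Icc 0 Γ.hi, Γ.r y * bw (wt ω) Γ.p 0 Γ.N y))
    -- the geometry of the box
    (hR1 : ∀ x ∈ Icc 0 Γ.hi, |(x : ℝ) - ν.cn G t c (sl μ s)| ≤ R) (hR2 : ∀ z ∈ Icc 0 Γ.hi, |(z : ℝ) - ν.cn' G t c (sl μ s)| ≤ R)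
    (hb1 : ∀ x : ℤ, |(x : ℝ) - ν.cn G t c (sl μ s)| ≤ Wd L → 0 ≤ x ∧ x + ν.nr t ≤ Γ.hi)
    (hb2 : ∀ z : ℤ, |(z : ℝ) - ν.cn' G t c (sl μ s)| ≤ Wd L → 0 ≤ z - ν.nr t)
    (hWm : ∀ l, l < L → Wd (l + 1) ≤ Wd L) (hW12 : Wd l₁ ≤ Wd l₂) (hW1 : 1 ≤ Wd l₁) (hW2 : Wd l₂ ≤ Wd (l₂ + 1)) (hWn : 2 * Wd l₂ ≤ ν.nr t)
    -- the numbers of `V`
    (n1 : ν.W1 t = Wd l₁) (n2 : ν.W2 t = Wd l₂) (n3 : ν.W1' t ≤ Wd (l' + 1)) (n4 : 2 * ν.W1' t ≤ ν.nr t)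
    (n5 : ν.g t = 2 * κ₀ - 3) (n6 : ν.q₁ t = r l' + 2 * σ * ν.W1' t) (n7 : ν.q₂ t = r l₂ + 2 * σ * Wd l₂)
    (hBκ : ∀ j, l₂ ≤ j → j ≤ L → loss31 ν.P ν.c₁ ν.Q ν.S (ν.E t) (ν.w t) Wd L R σ aT r a j + g₁ + 1 ≤ κ j)
    (hB0 : ∀ j, 0 ≤ loss31 ν.P ν.c₁ ν.Q ν.S (ν.E t) (ν.w t) Wd L R σ aT r a j)
    (hκ₀ : ∀ j, l₁ ≤ j → j ≤ L → κ₀ + Real.log (L + 1) + 1 ≤ κ j) (hJ4 : 4 * ((L : ℝ) + 1) ≤ Real.exp g₁)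
    (hnum : 4 * ((Icc 0 Γ.hi).card : ℝ) * (L + 1) * ((Icc 0 Γ.hi).card : ℝ) ^ 2 * Real.exp (2 * ν.q₂ t + u₀ + ν.gf t) ≤ Real.exp g₁) :
    ω ∈ V31 μ s Γ ν G t c := by
  have hb := Cx.box1 hΓ
  obtain ⟨i, hi⟩ : ∃ i, i = ν.row G t c := ⟨_, rfl⟩
  obtain ⟨n, hn⟩ : ∃ n, n = ν.nr t := ⟨_, rfl⟩
  obtain ⟨cen, hcen⟩ : ∃ x, x = ν.cn G t c (sl μ s) := ⟨_, rfl⟩
  obtain ⟨cen', hcen'⟩ : ∃ x, x = ν.cn' G t c (sl μ s) := ⟨_, rfl⟩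
  have hcc : cen' = cen + sl μ s * n := by
    rw [hcen', hcen, hn]
    rfl
  have hGV : ∀ z, GV Γ ν G t c ω z = GG (wt ω) Γ.p Γ.N (i + n) z := fun z => by rw [hi, hn]; rfl
  show _ ∧ _
  rw [n1, n2, n5]
  simp only [← hi, ← hn, ← hcen, ← hcen'] at *
  have gpos : ∀ z, 0 < GV Γ ν G t c ω z := fun z => by rw [hGV]; exact GG_pos (wt_pos ω) Γ.p_pos _ _
  have fl0 : ∀ x, 0 ≤ fw (wt ω) Γ.p Cx.l i x := fun x => fw_nonneg (wt_pos ω) Γ.p_pos hb.g.l0 i x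
  have fr0 : ∀ x, 0 ≤ fw (wt ω) Γ.p Γ.r i x := fun x => fw_nonneg (wt_pos ω) Γ.p_pos hb.g.r0 i x
  -- tameness of the windows
  have hWl2 : Wd l₂ ≤ Wd (l₂ + 1) + 1 := by linarith
  have hWd2 : 2 * Wd l₂ ≤ (n : ℝ) + 1 := by linarith
  have tL2 := tame_of_lr31 (hLl l₂ hl) fl0 hσ hWl2 hWd2
  have tR2 := tame_of_lr31 (hLr l₂ hl) fr0 hσ hWl2 hWd2
  have tG2 := tame_of_lr31 (hLG l₂ hl) (fun z => (gpos z).le) hσ hWl2 hWd2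
  have tL1 := tame_of_lr31 (W := ν.W1' t) (hLl l' (by omega)) fl0 hσ (by linarith) (by linarith)
  have tR1 := tame_of_lr31 (W := ν.W1' t) (hLr l' (by omega)) fr0 hσ (by linarith) (by linarith)
  rw [← n6] at tL1 tR1
  rw [← n7] at tL2 tR2 tG2
  obtain ⟨xL, hxL, hxL0⟩ := hpL
  obtain ⟨xR, hxR, hxR0⟩ := hpR
  -- the standard points
  have a1 : ∀ {x : ℤ} {v : ℝ}, |(x : ℝ) - v| ≤ Wd l₁ → |(x : ℝ) - v| ≤ Wd l₂ := fun h => h.trans hW12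
  have b1 := Int.le_ceil (cen - Wd l₁)
  have b2 := Int.ceil_lt_add_one (cen - Wd l₁)
  have b3 := Int.floor_le (cen + Wd l₁)
  have b4 := Int.lt_floor_add_one (cen + Wd l₁)
  have b5 := Int.floor_le cen'
  have b6 := Int.lt_floor_add_one cen'
  have hyl : |((⌈cen - Wd l₁⌉ : ℤ) : ℝ) - cen| ≤ Wd l₁ := by
    rw [abs_le]
    constructor <;> linarith
  have hyr : |((⌊cen + Wd l₁⌋ : ℤ) : ℝ) - cen| ≤ Wd l₁ := by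
    rw [abs_le]
    constructor <;> linarith
  have hyp : |((⌊cen'⌋ : ℤ) : ℝ) - cen'| ≤ Wd l₁ := by
    rw [abs_le]
    constructor <;> linarith
  have hWL : Wd l₁ ≤ Wd L := by
    have h1 := hWm l₂ hl
    linarith
  have hin : i + n ≤ Γ.N := hN.le
  have key := dw_shell (w := wt ω) (p := Γ.p) (wt_pos ω) Γ.p_pos hb hin
    (k := kM31 μ s Γ ω i n) (kap := kap31 ν.P ν.c₁ ν.c₃ ν.Q ν.S (ν.E t) (ν.w t) cen cen' n) (G := GV Γ ν G t c ω)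
    (N₀ := Real.exp (n * lam μ s + Γ.h * sl μ s * bl Γ.M i n)) (Real.exp_pos _) (fun z => (gpos z).le) (fun x z => kM_nonneg x z)
    (fun x z => by rw [hGV]; exact kM_eq hN x z) (cen := cen) (cen' := cen') (Wd := Wd) h12 hl.le
    (cK := (ν.c₃ - ν.c₁) * (ν.E t / ν.w t)) (σ := σ) hσc (fun x z => kap31_nonneg x z)
    (B := loss31 ν.P ν.c₁ ν.Q ν.S (ν.E t) (ν.w t) Wd L R σ aT r a) hB0
    (lc_start hE hw0 hQ hc₁ hσ (fun z => (gpos z).le) hsl0 hsl1 hcc hR1 (fun x hx => (hb1 x hx).2) hWm hlowS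
      (fun l _ hlL => hLG l hlL) hone)
    (lc_end hE hw0 hQ hc₁ hσ fl0 hsl0 hsl1 hcc hR2 hb2 hWm hlowE (fun l _ hlL => hLl l hlL) hone)
    (lc_end hE hw0 hQ hc₁ hσ fr0 hsl0 hsl1 hcc hR2 hb2 hWm hlowE (fun l _ hlL => hLr l hlL) hone)
    hn1 hn2 hsi hsn hfL hfR hBκ hκ₀ hW12 (yl := ⌈cen - Wd l₁⌉) (yr := ⌊cen + Wd l₁⌋) (yp := ⌊cen'⌋) ((hb1 _ (hyl.trans hWL)).1)
    (Int.le_floor.2 (by linarith)) (by have := (hb1 _ (hyr.trans hWL)).2; omega)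
    (fun x hx => ⟨Int.ceil_le.2 (by have := (abs_le.1 hx).1; linarith), Int.le_floor.2 (by have := (abs_le.1 hx).2; linarith)⟩)
    hyl hyr hyp (pos_of_tame31 tL2 (a1 hxL) hxL0 (a1 hyl)) (pos_of_tame31 tL2 (a1 hxL) hxL0 (a1 hyr))
    (pos_of_tame31 tR2 (a1 hxR) hxR0 (a1 hyl)) (pos_of_tame31 tR2 (a1 hxR) hxR0 (a1 hyr)) (gpos _) tL1 tR1 tL2 tR2 tG2 hkw hmet hJ4 hnum
  exact ⟨hj, key⟩

end

end Pool.Agent.W_7d29a1_C1.D31
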