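import Pool.Agent.W_7d29a1_C1.ShS31
import Pool.Agent.W_7d29a1_C1.DwW95
import Pool.Agent.W_7d29a1_C1.Half31

/-!
MP_7d29a1_pr, attractor route [C1], SHELL: PARTS OF `hdet` (helper31). `pos_win31`: a place of positive mass in the window, from the far
masses. `fr_ex31`: a coarse row. `GdS31`: the facts of a good scale `v`. `fm31`: the two far masses of a good scale. `shl31`: the data of
one shell (row, far places, `stay`, masses), `shT31`: of the top shell.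
-/

set_option autoImplicit false

namespace Pool.Agent.W_7d29a1_C1.D31

open MeasureTheory ProbabilityTheory Filter Topology Finset
open Pool.Agent.W_7d29a1_F Pool.Agent.W_7d29a1_h4g Pool.Agent.W_7d29a1_H Pool.Agent.W_7d29a1_HS
open Pool.Agent.W_7d29a1_C1.S71 Pool.Agent.W_7d29a1_C1.Sw9 Pool.Agent.W_7d29a1_C1.H75 Pool.Agent.W_7d29a1_C1.U16
open Pool.Agent.W_7d29a1_C1.K91 (wt wt_pos Box)
open Pool.Agent.W_7d29a1_C1.K91P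
open Pool.Agent.W_7d29a1_C1.U31 (ms ms_nonneg sum_fw_bw)
open Pool.Agent.W_7d29a1_C1.FarK89 Pool.Agent.W_7d29a1_C1.FarW89
open Pool.Agent.W_7d29a1_C1.T10 (Gd GW pt Tg Hg Tg_zero Tg_pos Tg_Hg)
open Pool.Agent.W_7d29a1_C1.H60 (Cx sT Rch lvL LvE EL60)
open Pool.Agent.W_7d29a1_C1.G37 (Gm)
open Pool.Agent.W_7d29a1_C1.Ge74
open Pool.Agent.W_7d29a1_C1.E53 (ZG)
open Pool.Agent.W_7d29a1_C1.SD53 (XX bx)
open Pool.Agent.W_7d29a1_C1.FA25 (Av)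
open Pool.Agent.W_7d29a1_C1.O22 (Ste)
open Pool.Agent.W_7d29a1_C1.H49 (em ex)
open scoped ENNReal

noncomputable section

/-- **A place of positive mass in the window.** -/
theorem pos_win31 {w : ℕ → ℤ → ℝ} {p : ℕ → ℝ} {m : ℤ → ℝ} {lo hi : ℤ} {N : ℕ} (hw : ∀ k y, 0 < w k y) (hp : ∀ k, 0 < p k)
    (hm : ∀ y, 0 ≤ m y) (hlo : ∀ y, y < lo → m y = 0) (hhi : ∀ y, hi - N < y → m y = 0) (hb : lo + N ≤ hi) {i : ℕ} (hi' : i ≤ N)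
    {cen : ℝ} {Wd : ℕ → ℝ} {l₁ L : ℕ} (hl : l₁ ≤ L) {nn : ℕ → ℕ} {A : ℕ → Finset ℤ} {κ : ℕ → ℝ} {κ₀ : ℝ} (hκ4 : 4 ≤ Real.exp κ₀)
    (hn2 : ∀ j, l₁ ≤ j → j ≤ L → i + nn j ≤ N)
    (hsi : ∀ j, l₁ ≤ j → j ≤ L → ∀ x ∈ Icc lo hi, x ≤ hi - N + i → InS Wd L j ((x : ℝ) - cen) →
      ∑ v ∈ Icc lo hi \ A j, ker w p i (nn j) x v * bw w p (i + nn j) (N - (i + nn j)) v ≤ 1 / 2 * bw w p i (N - i) x)
    (hf : ∀ j, l₁ ≤ j → j ≤ L → ms w p N m (i + nn j) (A j) ≤ Real.exp (-κ j) * ∑ x ∈ Icc lo hi, m x * bw w p 0 N x)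
    (hκ₀ : ∀ j, l₁ ≤ j → j ≤ L → κ₀ + Real.log (L + 1) + 1 ≤ κ j) (hZ : 0 < ∑ x ∈ Icc lo hi, m x * bw w p 0 N x) :
    ∃ x : ℤ, |(x : ℝ) - cen| ≤ Wd l₁ ∧ 0 < fw w p m i x := by
  classical
  by_contra hcon
  push Not at hcon
  have h1 : ms w p N m i ((Icc lo hi).filter fun x : ℤ => Wd l₁ < |(x : ℝ) - cen|) ≤
      Real.exp (-κ₀) * ∑ x ∈ Icc lo hi, m x * bw w p 0 N x := by
    refine ms_off hw hp hm (I := Icc lo hi) (ℓ := fun x => (x : ℝ) - cen) (Wd := Wd) (κ := fun j => κ j - 1) hl (filter_subset _ _)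
      (fun x hx => (mem_filter.1 hx).2) hZ.le (fun j hj hjL => ?_) (fun j hj hjL => by linarith [hκ₀ j hj hjL])
    exact shell_down hw hp hm hlo hhi (hn2 j hj hjL) (hsi j hj hjL) (hf j hj hjL) hZ.le
  have h2 : ∑ y ∈ Icc lo hi, fw w p m i y * bw w p i (N - i) y =
      ms w p N m i ((Icc lo hi).filter fun x : ℤ => Wd l₁ < |(x : ℝ) - cen|) := by
    unfold ms
    rw [sum_filter]
    refine sum_congr rfl fun x _ => ?_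
    split_ifs with h3
    · rfl
    · have h4 := hcon x (not_lt.1 h3)
      have h5 := fw_nonneg hw hp hm i x
      rw [le_antisymm h4 h5, zero_mul]
  rw [sum_fw_bw hlo hhi hb i hi'] at h2
  rw [← h2] at h1
  have h3 : Real.exp (-κ₀) ≤ 1 / 4 := by
    rw [Real.exp_neg, inv_le_comm₀ (Real.exp_pos _) (by norm_num)]
    linarith
  have h4 := mul_le_mul_of_nonneg_right h3 hZ.le
  linarith

/-- A coarse row. -/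
theorem fr_ex31 (GS : Gm) (v τ : ℕ) (x : ℕ × ℤ) : ∃ R : ℕ, (R : ℤ) ∈ GS.fr v τ x := by
  have hd := GS.T_pos (v - 1)
  obtain ⟨d, hd'⟩ : ∃ d, d = GS.T (v - 1) := ⟨_, rfl⟩
  rw [← hd'] at hd
  obtain ⟨n, hn⟩ : ∃ n, n = x.1 + GS.T v := ⟨_, rfl⟩
  refine ⟨d * ((n + d - 1) / d), ?_⟩
  unfold Gm.fr
  rw [mem_filter, mem_Icc]
  have h1 := Nat.div_add_mod (n + d - 1) d
  have h2 := Nat.mod_lt (n + d - 1) hd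
  have h3 : n ≤ d * ((n + d - 1) / d) := by omega
  have h4 : d * ((n + d - 1) / d) ≤ n + d := by omega
  have h5 := GS.T_pos' τ
  refine ⟨⟨?_, ?_⟩, ?_⟩
  · have : ((n : ℕ) : ℤ) ≤ ((d * ((n + d - 1) / d) : ℕ) : ℤ) := by exact_mod_cast h3
    rw [hn] at this
    push_cast at this ⊢
    rw [hn]
    push_cast
    exact this
  · have h6 : ((d * ((n + d - 1) / d) : ℕ) : ℤ) ≤ ((n + d : ℕ) : ℤ) := by exact_mod_cast h4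
    have h7 : ((n + d : ℕ) : ℤ) = (x.1 : ℤ) + GS.T v + GS.T (v - 1) := by
      rw [hn, hd']
      push_cast
      ring
    linarith
  · rw [← hd']
    push_cast
    exact Dvd.intro _ rfl

variable {μ : Measure ℝ} {s : ℝ} [IsProbabilityMeasure μ] {c C : ℝ} {n₀ : ℕ}

/-- **The facts of a good scale `v`** of the contact `x`: local regularity and levels at the scale `v + 1`, the far masses at the distance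
scale `k`. -/
structure GdS31 (μ : Measure ℝ) (s : ℝ) (c θ Kw : ℝ) (P : ℕ) (Γ : Cx) (GS : Gm) (G : Gd) (h₀ Kg Lg Lm : ℕ) (y : ℕ → ℝ) (Mt : ℕ)
    (K₁ A Φ σ₁ : ℝ) (τ v k : ℕ) (κv : ℝ) (x : XX Γ) (ω : Env) : Prop where
  tm : TM31 μ s Γ G (Tg h₀ Kg) Mt K₁ A Φ σ₁ (v + 1) x.1 ω
  r1 : ω ∉ Rch (lvL G (LvE Lm (EL60 μ s c θ Kw P (Tg h₀ Kg) y)) Lg) (v - 1) x.1
  r2 : ω ∉ Rch (lvL G (LvE Lm (EL60 μ s c θ Kw P (Tg h₀ Kg) y)) Lg) v x.1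
  fa : FA25.fa Γ GS v k τ x ω < ex (-κv)
  ns : ∀ r : ℕ, (r : ℤ) ∈ GS.fr v τ x.1 → r ≤ Γ.N → Ste Γ (Av GS v τ x.1) r (bx Γ (GS.fs k τ x.1 r)) (Real.exp (-κv)) ω

omit [IsProbabilityMeasure μ] in
/-- The two far masses of a good scale. -/
theorem fm31 {θ Kw : ℝ} {P : ℕ} {Γ : Cx} {GS : Gm} {G : Gd} {h₀ Kg Lg Lm : ℕ} {y : ℕ → ℝ} {Mt : ℕ} {K₁ A Φ σ₁ : ℝ} {τ v k : ℕ} {κv : ℝ}
    {x : XX Γ} {ω : Env} (hΓ : Γ.Ok) (h : GdS31 μ s c θ Kw P Γ GS G h₀ Kg Lg Lm y Mt K₁ A Φ σ₁ τ v k κv x ω) {r : ℕ}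
    (hr : (r : ℤ) ∈ GS.fr v τ x.1) (hrN : r ≤ Γ.N) {κ : ℝ} (hκ : κ + 1 ≤ κv) :
    ms (wt ω) Γ.p Γ.N Cx.l r (bx Γ (GS.fs k τ x.1 r)) ≤ Real.exp (-κ) * ∑ y ∈ Icc (0 : ℤ) Γ.hi, Cx.l y * bw (wt ω) Γ.p 0 Γ.N y ∧
      ms (wt ω) Γ.p Γ.N Γ.r r (bx Γ (GS.fs k τ x.1 r)) ≤
        Real.exp (-κ) * ∑ y ∈ Icc (0 : ℤ) Γ.hi, Γ.r y * bw (wt ω) Γ.p 0 Γ.N y := by
  obtain ⟨h1, h2⟩ := H77.far_av77 hΓ h.fa hr hrN (Real.exp_pos _).le (h.ns r hr hrN)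
  have e1 : Real.exp (-κv) + Real.exp (-κv) ≤ Real.exp (-κ) := by
    have h3 : Real.exp (-κv) ≤ Real.exp (-κ - 1) := Real.exp_le_exp.2 (by linarith)
    have h4 : Real.exp (-κ - 1) * Real.exp 1 = Real.exp (-κ) := by
      rw [← Real.exp_add]
      congr 1
      ring
    have h5 : (2 : ℝ) ≤ Real.exp 1 := by
      have := Real.add_one_le_exp (1 : ℝ)
      linarith
    have h6 := mul_le_mul_of_nonneg_left h5 (Real.exp_pos (-κ - 1)).le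
    linarith
  have z1 : 0 ≤ ∑ y ∈ Icc (0 : ℤ) Γ.hi, Cx.l y * bw (wt ω) Γ.p 0 Γ.N y := (SD53.ZG_l_pos hΓ ω).le
  have z2 : 0 ≤ ∑ y ∈ Icc (0 : ℤ) Γ.hi, Γ.r y * bw (wt ω) Γ.p 0 Γ.N y := (SD53.ZG_r_pos hΓ ω).le
  exact ⟨h1.trans (mul_le_mul_of_nonneg_right e1 z1), h2.trans (mul_le_mul_of_nonneg_right e1 z2)⟩

open Classical in
theorem mem_bx31 {Γ : Cx} {S : Set ℤ} {v : ℤ} (h1 : v ∈ Icc (0 : ℤ) Γ.hi) (h2 : v ∈ S) : v ∈ bx Γ S := by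
  unfold SD53.bx
  exact mem_filter.2 ⟨h1, h2⟩

/-- **THE DATA OF ONE SHELL**: `i` = the lower edge row, `n` = the number of rows of the ball, widths `W₀ < |.| ≤ W₁`. -/
structure Shd31 (Γ : Cx) (ω : Env) (i n : ℕ) (cen cen' : ℝ) (W₀ : ℝ) (W₁ : Option ℝ) (κ : ℝ) (nn : ℕ) (A : Finset ℤ) : Prop where
  n1 : n ≤ nn
  n2 : i + nn ≤ Γ.N
  si : ∀ x ∈ Icc (0 : ℤ) Γ.hi, W₀ < |(x : ℝ) - cen| → (∀ W ∈ W₁, |(x : ℝ) - cen| ≤ W) →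
    ∑ v ∈ Icc (0 : ℤ) Γ.hi \ A, ker (wt ω) Γ.p i nn x v * bw (wt ω) Γ.p (i + nn) (Γ.N - (i + nn)) v ≤
      1 / 2 * bw (wt ω) Γ.p i (Γ.N - i) x
  sn : ∀ z ∈ Icc (0 : ℤ) Γ.hi, W₀ < |(z : ℝ) - cen'| → (∀ W ∈ W₁, |(z : ℝ) - cen'| ≤ W) →
    ∑ v ∈ Icc (0 : ℤ) Γ.hi \ A, ker (wt ω) Γ.p (i + n) (nn - n) z v *
      bw (wt ω) Γ.p (i + n + (nn - n)) (Γ.N - (i + n + (nn - n))) v ≤ 1 / 2 * bw (wt ω) Γ.p (i + n) (Γ.N - (i + n)) z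
  fL : ms (wt ω) Γ.p Γ.N Cx.l (i + nn) A ≤ Real.exp (-κ) * ∑ y ∈ Icc (0 : ℤ) Γ.hi, Cx.l y * bw (wt ω) Γ.p 0 Γ.N y
  fR : ms (wt ω) Γ.p Γ.N Γ.r (i + nn) A ≤ Real.exp (-κ) * ∑ y ∈ Icc (0 : ℤ) Γ.hi, Γ.r y * bw (wt ω) Γ.p 0 Γ.N y

/-- **ONE SHELL BELOW THE TOP.** -/
theorem shl31 (h0 : In μ s c C n₀) (P : ℕ) {Kw θ : ℝ} (hKw : 6 ≤ Kw) (hθ : 0 < θ) : ∃ C₅ C₆ : ℝ, 0 < C₅ ∧ 0 < C₆ ∧
    ∃ n₁ : ℕ, 1 ≤ n₁ ∧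
    ∀ {Γ : Cx} {ω : Env} {G : Gd} {GS : Gm} {h₀ Kg Lg Lm o v k Mt : ℕ} {x : XX Γ} {y : ℕ → ℝ} {N : ℕ → ℕ} {q : ℕ → ℝ} {bs : ℕ → Pt}
      {Q K₁ A Φ σ₁ : ℝ} {τ : ℕ} {κv : ℝ},
    Γ.Ok → (∀ k, k < Γ.M → Γ.p k = Real.exp (s + Γ.h)) → (∀ k, Γ.M ≤ k → Γ.p k = Real.exp s) → G.Ok Lg → (∀ v, G.H v = Hg h₀ Kg v) →
    (∀ u, 1 ≤ u → GS.T u = Tg h₀ Kg u) → GS.v = sl μ s → 1 ≤ o → o + 1 ≤ v → v + 1 ≤ Lg → τ ≤ v →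
    Slabs μ s c θ (Kw - 2) Γ.h P ω (pt x.1) (rW31 G h₀ Kg x.1 (v + 1)) (sT (Tg h₀ Kg) (v + 1)) N q bs 0 (2 * (v + 1)) (2 * Tg h₀ Kg (v + 1))
      n₁ Q →
    (∀ u, u < 2 * (v + 1) → θ * sT (Tg h₀ Kg) (v + 1) u ≤
      ((rW31 G h₀ Kg x.1 (v + 1) (u + 1) - rW31 G h₀ Kg x.1 (v + 1) u : ℕ) : ℝ)) →
    (G.z (v + 1) x.1).1 + Tg h₀ Kg (v + 1) ≤ Γ.N → (Γ.N : ℝ) + 1 ≤ Real.exp (EE μ s (2 * Tg h₀ Kg (v + 1))) →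
    (∀ w ≤ v + 1, Tg h₀ Kg w ≤ (G.z w x.1).1) →
    GdS31 μ s c θ Kw P Γ GS G h₀ Kg Lg Lm y Mt K₁ A Φ σ₁ τ v k κv x ω →
    0 ≤ σ₁ → ∀ {nb : ℕ} {cen cen' D₀ W₀ W₁ κ δ : ℝ},
    (∀ z : ℤ, |lat16 μ s (pt x.1) ((((G.z o x.1).1 - Tg h₀ Kg o : ℕ) : ℤ), z) - ((z : ℝ) - cen)| ≤ D₀) →
    (∀ z : ℤ, |lat16 μ s (pt x.1) ((((G.z o x.1).1 + Tg h₀ Kg o : ℕ) : ℤ), z) - ((z : ℝ) - cen')| ≤ D₀) →
    v + 1 + nb ≤ Mt → 0 < δ → 0 ≤ W₁ → κ + 1 ≤ κv →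
    W₁ + D₀ + 1 ≤ K₁ * wd μ s (Tg h₀ Kg (v + 1 + nb)) → W₁ + D₀ + 1 + 2 * (Tg h₀ Kg (v + 1) : ℝ) ≤ K₁ * wd μ s (Tg h₀ Kg Mt) →
    δ * (EE μ s (2 * Tg h₀ Kg (v + 1)) / wd μ s (2 * Tg h₀ Kg (v + 1))) +
      σ₁ * (EE μ s (Tg h₀ Kg (v + 1)) / wd μ s (Tg h₀ Kg (v + 1))) ≤ hc μ s c (2 * Tg h₀ Kg (v + 1)) / 8 →
    lst31 P c δ C₅ C₆ Q (Kw - 2) (wd μ s (2 * Tg h₀ Kg (v + 1))) (W₁ + D₀) * EE μ s (2 * Tg h₀ Kg (v + 1)) +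
      A * (Φ ^ nb * EE μ s (Tg h₀ Kg (v + 1))) + σ₁ * (EE μ s (Tg h₀ Kg (v + 1)) / wd μ s (Tg h₀ Kg (v + 1))) ≤
      (hc μ s c (2 * Tg h₀ Kg (v + 1)) / 8 - δ * (EE μ s (2 * Tg h₀ Kg (v + 1)) / wd μ s (2 * Tg h₀ Kg (v + 1))) -
        σ₁ * (EE μ s (Tg h₀ Kg (v + 1)) / wd μ s (Tg h₀ Kg (v + 1)))) * (W₀ - D₀ - 2 * GS.w k) →
    ∃ (nn : ℕ) (B : Finset ℤ), Shd31 Γ ω ((G.z o x.1).1 - Tg h₀ Kg o) (2 * Tg h₀ Kg o) cen cen' W₀ (some W₁) κ nn B := by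
  obtain ⟨C₅, C₆, hC₅, hC₆, n₁, hn₁, H⟩ := shS31 h0 P hKw hθ
  refine ⟨C₅, C₆, hC₅, hC₆, n₁, hn₁, ?_⟩
  intro Γ ω G GS h₀ Kg Lg Lm o v k Mt x y N q bs Q K₁ A Φ σ₁ τ κv hΓ hp hp' hok hH hT hv ho hov hvL hτ S hlen hzN hN hrow hgd hσ₁ nb cen
    cen' D₀ W₀ W₁ κ δ hcA hcB hnb hδ hW₁ hκ hY1 hY2 hδσ hnum
  obtain ⟨R, hR⟩ := fr_ex31 GS v τ x.1
  obtain ⟨i, hi⟩ : ∃ i, i = (G.z o x.1).1 - Tg h₀ Kg o := ⟨_, rfl⟩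
  have hro := hrow o (by omega)
  have hin : (G.z o x.1).1 + Tg h₀ Kg o = i + 2 * Tg h₀ Kg o := by omega
  have eb : v + 1 - 1 = v := by omega
  have r1 : rW31 G h₀ Kg x.1 (v + 1) (v + 1 - o) = i := by rw [hi]; exact rW_low (by omega) (by omega)
  have r2 : rW31 G h₀ Kg x.1 (v + 1) (v + 1 + o) = i + 2 * Tg h₀ Kg o := by rw [← hin]; exact rW_up (by omega) (by omega)
  have hRo : (G.z o x.1).1 + Tg h₀ Kg o ≤ R := by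
    have h1 := fr_lo (G := G) hT (b := o) (j := v) (by omega) hR
    exact_mod_cast h1
  have hRt : R ≤ (G.z (v + 1) x.1).1 + Tg h₀ Kg (v + 1) := by
    have h1 := (fr_up hok hH hT (j := v) (by omega) hvL hτ hR).le
    exact_mod_cast h1
  have hRN : R ≤ Γ.N := hRt.trans hzN
  have hD₀ : 0 ≤ D₀ := (abs_nonneg _).trans (hcA 0)
  have key := H (x := x.1) hp hp' hok hH hT hv (b := v + 1) (by omega) hvL S hlen hzN hN (hrow _ le_rfl) hgd.tm.fut hσ₁ (τ := τ) (k := k)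
    (nb := nb) (Y := W₁ + D₀) (δ := δ) (Δ := W₀ - D₀ - 2 * GS.w k) (by omega) hnb hδ (by linarith) hY1 hY2 hδσ hnum (R := R)
    (by rw [eb]; exact hR)
  refine ⟨R - i, bx Γ (GS.fs k τ x.1 R), ⟨by omega, by omega, ?_, ?_, ?_, ?_⟩⟩
  · intro x' _ h1 h2
    have k1 := key (v + 1 - o) (by omega) x'
    rw [r1] at k1
    have h3 := hcA x'
    rw [← hi] at h3
    have h4 := h2 W₁ rfl
    have h5 := abs_sub_abs_le_abs_sub (lat16 μ s (pt x.1) ((i : ℤ), x')) ((x' : ℝ) - cen)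
    have h6 := abs_sub_abs_le_abs_sub ((x' : ℝ) - cen) (lat16 μ s (pt x.1) ((i : ℤ), x'))
    rw [abs_sub_comm ((x' : ℝ) - cen)] at h6
    rw [← hi]
    refine k1 (by linarith) (by linarith) _ fun v' hv' => ?_
    rw [Finset.mem_sdiff] at hv'
    intro hfs
    exact hv'.2 (mem_bx31 hv'.1 hfs)
  · intro x' _ h1 h2
    have k1 := key (v + 1 + o) (by omega) x'
    rw [r2] at k1
    have h3 := hcB x'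
    rw [hin] at h3
    have h4 := h2 W₁ rfl
    have h5 := abs_sub_abs_le_abs_sub (lat16 μ s (pt x.1) (((i + 2 * Tg h₀ Kg o : ℕ) : ℤ), x')) ((x' : ℝ) - cen')
    have h6 := abs_sub_abs_le_abs_sub ((x' : ℝ) - cen') (lat16 μ s (pt x.1) (((i + 2 * Tg h₀ Kg o : ℕ) : ℤ), x'))
    rw [abs_sub_comm ((x' : ℝ) - cen')] at h6
    rw [← hi]
    have e1 : R - i - 2 * Tg h₀ Kg o = R - (i + 2 * Tg h₀ Kg o) := by omega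
    rw [e1]
    refine k1 (by linarith) (by linarith) _ fun v' hv' => ?_
    rw [Finset.mem_sdiff] at hv'
    intro hfs
    exact hv'.2 (mem_bx31 hv'.1 hfs)
  · rw [← hi, show i + (R - i) = R by omega]
    exact (fm31 hΓ hgd hR hRN hκ).1
  · rw [← hi, show i + (R - i) = R by omega]
    exact (fm31 hΓ hgd hR hRN hκ).2

omit [IsProbabilityMeasure μ] in
/-- **THE TOP SHELL**: by reachability. -/
theorem shT31 (hsl0 : 0 ≤ sl μ s) (hsl1 : sl μ s ≤ 1) {θ Kw : ℝ} {P : ℕ} {Γ : Cx} {ω : Env} {G : Gd} {GS : Gm} {h₀ Kg Lg Lm o v k Mt : ℕ} {x : XX Γ} {y : ℕ → ℝ} {K₁ A Φ σ₁ : ℝ} {τ : ℕ}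
    {κv : ℝ} (hΓ : Γ.Ok) (hok : G.Ok Lg) (hH : ∀ v, G.H v = Hg h₀ Kg v)
    (hT : ∀ u, 1 ≤ u → GS.T u = Tg h₀ Kg u) (hv : GS.v = sl μ s) (ho : 1 ≤ o) (hov : o + 1 ≤ v) (hvL : v + 1 ≤ Lg) (hτ : τ ≤ v)
    (hzN : (G.z (v + 1) x.1).1 + Tg h₀ Kg (v + 1) ≤ Γ.N) (hrow : ∀ w ≤ v + 1, Tg h₀ Kg w ≤ (G.z w x.1).1)
    (hnest : (G.z (v + 1) x.1).1 - Tg h₀ Kg (v + 1) ≤ (G.z o x.1).1 - Tg h₀ Kg o)
    (hgd : GdS31 μ s c θ Kw P Γ GS G h₀ Kg Lg Lm y Mt K₁ A Φ σ₁ τ v k κv x ω) {cen cen' D₀ W₀ κ : ℝ}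
    (hcA : ∀ z : ℤ, |lat16 μ s (pt x.1) ((((G.z o x.1).1 - Tg h₀ Kg o : ℕ) : ℤ), z) - ((z : ℝ) - cen)| ≤ D₀)
    (hcB : ∀ z : ℤ, |lat16 μ s (pt x.1) ((((G.z o x.1).1 + Tg h₀ Kg o : ℕ) : ℤ), z) - ((z : ℝ) - cen')| ≤ D₀) (hκ : κ + 1 ≤ κv)
    (hnum : 2 * (Tg h₀ Kg (v + 1) : ℝ) + 2 * GS.w k + D₀ ≤ W₀) :
    ∃ (nn : ℕ) (B : Finset ℤ), Shd31 Γ ω ((G.z o x.1).1 - Tg h₀ Kg o) (2 * Tg h₀ Kg o) cen cen' W₀ none κ nn B := by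
  obtain ⟨R, hR⟩ := fr_ex31 GS v τ x.1
  obtain ⟨i, hi⟩ : ∃ i, i = (G.z o x.1).1 - Tg h₀ Kg o := ⟨_, rfl⟩
  have hro := hrow o (by omega)
  have hrv := hrow (v + 1) le_rfl
  have hin : (G.z o x.1).1 + Tg h₀ Kg o = i + 2 * Tg h₀ Kg o := by omega
  have hRo : (G.z o x.1).1 + Tg h₀ Kg o ≤ R := by
    have h1 := fr_lo (G := G) hT (b := o) (j := v) (by omega) hR
    exact_mod_cast h1
  have hRt : R ≤ (G.z (v + 1) x.1).1 + Tg h₀ Kg (v + 1) := by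
    have h1 := (fr_up hok hH hT (j := v) (by omega) hvL hτ hR).le
    exact_mod_cast h1
  have hRN : R ≤ Γ.N := hRt.trans hzN
  have gen : ∀ (e : ℕ) (cn : ℝ), i ≤ e → e ≤ R → (∀ z : ℤ, |lat16 μ s (pt x.1) ((e : ℤ), z) - ((z : ℝ) - cn)| ≤ D₀) → ∀ x' : ℤ,
      W₀ < |(x' : ℝ) - cn| → ∀ v' ∈ Icc (0 : ℤ) Γ.hi \ bx Γ (GS.fs k τ x.1 R), ¬ (x' ≤ v' ∧ v' ≤ x' + (R - e : ℕ)) := by
    intro e cn hie heR hc x' hx' v' hv'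
    rw [Finset.mem_sdiff] at hv'
    have h1 : v' ∉ GS.fs k τ x.1 R := fun hfs => hv'.2 (mem_bx31 hv'.1 hfs)
    have h2 := nfs_lat (μ := μ) (s := s) hv h1
    have h3 := hc x'
    have h4 := abs_sub_abs_le_abs_sub ((x' : ℝ) - cn) (lat16 μ s (pt x.1) ((e : ℤ), x'))
    rw [abs_sub_comm ((x' : ℝ) - cn)] at h4
    have h5 : R - e ≤ 2 * Tg h₀ Kg (v + 1) := by omega
    have h5' : ((R - e : ℕ) : ℝ) ≤ 2 * (Tg h₀ Kg (v + 1) : ℝ) := by exact_mod_cast h5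
    have h6 := abs_sub_abs_le_abs_sub (lat16 μ s (pt x.1) ((e : ℤ), x')) (lat16 μ s (pt x.1) ((R : ℤ), v'))
    refine not_reach (sl := sl μ s) hsl0 hsl1 (cen := ((x.1.2 : ℤ) : ℝ) + sl μ s * ((e : ℝ) - (x.1.1 : ℝ)))
      (cen' := ((x.1.2 : ℤ) : ℝ) + sl μ s * ((e : ℝ) - (x.1.1 : ℝ)) + sl μ s * ((R - e : ℕ) : ℝ)) rfl ?_
    have e1 : lat16 μ s (pt x.1) ((e : ℤ), x') = (x' : ℝ) - (((x.1.2 : ℤ) : ℝ) + sl μ s * ((e : ℝ) - (x.1.1 : ℝ))) := by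
      unfold lat16
      show ((x' - x.1.2 : ℤ) : ℝ) - sl μ s * (((e : ℤ) - (x.1.1 : ℤ) : ℤ) : ℝ) = _
      push_cast
      ring
    have e2 : lat16 μ s (pt x.1) ((R : ℤ), v') =
        (v' : ℝ) - (((x.1.2 : ℤ) : ℝ) + sl μ s * ((e : ℝ) - (x.1.1 : ℝ)) + sl μ s * ((R - e : ℕ) : ℝ)) := by
      unfold lat16
      show ((v' - x.1.2 : ℤ) : ℝ) - sl μ s * (((R : ℤ) - (x.1.1 : ℤ) : ℤ) : ℝ) = _
      rw [Nat.cast_sub heR]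
      push_cast
      ring
    rw [← e1, ← e2, abs_sub_comm]
    linarith
  refine ⟨R - i, bx Γ (GS.fs k τ x.1 R), ⟨by omega, by omega, ?_, ?_, ?_, ?_⟩⟩
  · intro x' _ h1 _
    rw [← hi]
    exact half31' (wt_pos ω) Γ.p_pos (gen i cen le_rfl (by omega) (by rw [hi]; exact hcA) x' h1)
  · intro x' _ h1 _
    rw [← hi, show R - i - 2 * Tg h₀ Kg o = R - (i + 2 * Tg h₀ Kg o) by omega]
    exact half31' (wt_pos ω) Γ.p_pos (gen (i + 2 * Tg h₀ Kg o) cen' (by omega) (by omega) (by rw [← hin]; exact hcB) x' h1)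
  · rw [← hi, show i + (R - i) = R by omega]
    exact (fm31 hΓ hgd hR hRN hκ).1
  · rw [← hi, show i + (R - i) = R by omega]
    exact (fm31 hΓ hgd hR hRN hκ).2

end

end Pool.Agent.W_7d29a1_C1.D31
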