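import Pool.Agent.W_7d29a1_C1.HybD8

/-!
MP_7d29a1_pr, attractor route: THE SIZE OF THE COEFFICIENT `v`, abstract part. (helper54)

If the comparison of the gap `1` and the gap `0` systems holds with a real coefficient `v` for all masses, then (masses concentrated
at one site, sum over the sites `k₀ ≤ j < K`, integral over the level) `v ∑ P (|B_j| ≤ A)` is `E B_K ^ 2 - E B_k₀ ^ 2` up to the
errors, `B_j = log R_j - log R_0`.
-/

set_option autoImplicit false

namespace Pool.Agent.W_7d29a1_C1.H54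

open MeasureTheory Set Filter Topology
open Pool.Agent.W_7d29a1_C1.H8
open scoped ENNReal NNReal

noncomputable section

variable {Ω : Type*} [MeasurableSpace Ω] {ν : Measure Ω} [IsProbabilityMeasure ν]

/-- `LMs` with a real coefficient. -/
def LMx (ν : Measure Ω) (g : ℝ → ℝ) (v : ℝ) (R : ℕ → Ω → ℝ) (k : ℕ) (p : ℕ → ℝ) (e : ℝ) : Prop :=
  ∀ a0, |(∫ a, g (a - a0) * (Lg ν (R 0) (C1 R k p) a - Lg ν (R 0) (C0 R k p) a)) -
    v / 2 * ∫ ω, g (Real.log (C0 R k p ω) - Real.log (R 0 ω) - a0) ∂ν| ≤ e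

/-- The increment of the profile. -/
def Bk (R : ℕ → Ω → ℝ) (k : ℕ) (ω : Ω) : ℝ := Real.log (R k ω) - Real.log (R 0 ω)

theorem logx_eq {a c : ℝ} (ha : 0 < a) (hc : 0 < c) (y : ℝ) :
    Real.log (Real.exp y * a + c) = Real.log c + sp (y - (Real.log c - Real.log a)) := by
  unfold sp
  have e : Real.exp y * a + c = c * (1 + Real.exp (y - (Real.log c - Real.log a))) := by
    rw [Real.exp_sub, Real.exp_sub, Real.exp_log hc, Real.exp_log ha]
    field_simp
    ring
  rw [e, Real.log_mul hc.ne' (by positivity)]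

/-! ### Masses concentrated at one site -/

omit [IsProbabilityMeasure ν] in
/-- The loss of a small additional mass. -/
theorem small_mass {f S : Ω → ℝ} (hf : Pl ν f) (mS : Measurable S) (S0 : ∀ ω, 0 ≤ S ω)
    (hi : Integrable (fun ω => Real.log (f ω + S ω)) ν) :
    Tendsto (fun ε : ℝ => ∫ ω, (Real.log (f ω + ε * S ω) - Real.log (f ω)) ∂ν) (𝓝[>] 0) (𝓝 0) := by
  have key : Tendsto (fun ε : ℝ => ∫ ω, (Real.log (f ω + ε * S ω) - Real.log (f ω)) ∂ν) (𝓝[>] 0) (𝓝 (∫ _ : Ω, (0 : ℝ) ∂ν)) := by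
    refine tendsto_integral_filter_of_dominated_convergence (fun ω => Real.log (f ω + S ω) - Real.log (f ω)) ?_ ?_
      (hi.sub hf.int) ?_
    · exact Eventually.of_forall fun ε => ((Real.measurable_log.comp (hf.meas.add (mS.const_mul ε))).sub
        (Real.measurable_log.comp hf.meas)).aestronglyMeasurable
    · filter_upwards [self_mem_nhdsWithin, Ioc_mem_nhdsGT (show (0 : ℝ) < 1 by norm_num)] with ε hε hε1
      refine ae_of_all _ fun ω => ?_
      have hε0 : 0 < ε := hε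
      have h1 := hf.pos ω
      have h2 := S0 ω
      have h3 : 0 ≤ ε * S ω := by positivity
      rw [Real.norm_eq_abs, abs_of_nonneg (sub_nonneg.2 (Real.log_le_log h1 (by linarith)))]
      have h4 : ε * S ω ≤ S ω := mul_le_of_le_one_left h2 hε1.2
      have := Real.log_le_log (show 0 < f ω + ε * S ω by linarith) (show f ω + ε * S ω ≤ f ω + S ω by linarith)
      linarith
    · refine ae_of_all _ fun ω => ?_
      have h1 := hf.pos ω
      have hc : ContinuousAt (fun ε : ℝ => Real.log (f ω + ε * S ω) - Real.log (f ω)) 0 := by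
        refine ContinuousAt.sub (ContinuousAt.log (by fun_prop) ?_) continuousAt_const
        simp only [zero_mul, add_zero]
        exact h1.ne'
      have := hc.tendsto
      simp only [zero_mul, add_zero, sub_self] at this
      exact this.mono_left nhdsWithin_le_nhds
  simpa using key

/-- The pointwise bound. -/
theorem log_add_small {x f s : ℝ} (hx : 0 ≤ x) (hf : 0 < f) (hs : 0 ≤ s) :
    0 ≤ Real.log (x + (f + s)) - Real.log (x + f) ∧
      Real.log (x + (f + s)) - Real.log (x + f) ≤ Real.log (f + s) - Real.log f := by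
  have h1 : 0 < x + f := by linarith
  have h2 : 0 < f + s := by linarith
  refine ⟨sub_nonneg.2 (Real.log_le_log h1 (by linarith)), ?_⟩
  rw [← Real.log_div (by linarith) h1.ne', ← Real.log_div h2.ne' hf.ne']
  refine Real.log_le_log (by positivity) ?_
  rw [div_le_div_iff₀ h1 hf]
  nlinarith [mul_nonneg hx hs]

/-- **Masses concentrated at one site.** -/
theorem unit_mass {τ v : ℝ} (hτ : 0 < τ) {R : ℕ → Ω → ℝ} (hR : ∀ j, Pl ν (R j)) {j d : ℕ} (hd : d ≤ j) {e₁ e₂ : ℝ} (he₂ : 0 ≤ e₂)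
    (hLM : ∀ p : ℕ → ℝ, (∀ i, i < j + 1 → 0 < p i) → LMx ν (tri τ) v R (j + 1) p (e₁ + e₂ * NG ν R (j + 1) p d)) (a0 : ℝ) :
    |(∫ a, tri τ (a - a0) * (Lg ν (R 0) (R (j + 1)) a - Lg ν (R 0) (R j) a)) - v / 2 * ∫ ω, tri τ (Bk R j ω - a0) ∂ν| ≤ e₁ := by
  obtain ⟨S1, hS1⟩ : ∃ S1 : Ω → ℝ, S1 = fun ω => ∑ i ∈ Finset.range j, R (i + 1) ω := ⟨_, rfl⟩
  obtain ⟨S0, hS0⟩ : ∃ S0 : Ω → ℝ, S0 = fun ω => ∑ i ∈ Finset.range j, R i ω := ⟨_, rfl⟩
  have mS1 : Measurable S1 := by rw [hS1]; exact Finset.measurable_sum _ fun i _ => (hR (i + 1)).meas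
  have mS0 : Measurable S0 := by rw [hS0]; exact Finset.measurable_sum _ fun i _ => (hR i).meas
  have nS1 : ∀ ω, 0 ≤ S1 ω := fun ω => by rw [hS1]; exact Finset.sum_nonneg fun i _ => ((hR (i + 1)).pos ω).le
  have nS0 : ∀ ω, 0 ≤ S0 ω := fun ω => by rw [hS0]; exact Finset.sum_nonneg fun i _ => ((hR i).pos ω).le
  -- the masses with `ε` at the sites `< j`
  have pl1 : ∀ ε : ℝ, 0 < ε → Pl ν fun ω => R (j + 1) ω + ε * S1 ω := by
    intro ε hε
    have h := pl_sum (R := fun i => R (i + 1)) (fun i => hR (i + 1)) j (fun i => if i = j then 1 else ε) fun i _ => by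
      show 0 < (if i = j then (1 : ℝ) else ε)
      split_ifs
      · norm_num
      · exact hε
    have e : (fun ω => R (j + 1) ω + ε * S1 ω) = fun ω => ∑ i ∈ Finset.range (j + 1), (if i = j then 1 else ε) * R (i + 1) ω := by
      funext ω
      rw [Finset.sum_range_succ, if_pos rfl, one_mul, add_comm, hS1, Finset.mul_sum]
      congr 1
      refine Finset.sum_congr rfl fun i hi => ?_
      rw [if_neg (by have := Finset.mem_range.1 hi; omega)]
    rw [e]
    exact h
  have pl0 : ∀ ε : ℝ, 0 < ε → Pl ν fun ω => R j ω + ε * S0 ω := by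
    intro ε hε
    have h := pl_sum (R := R) hR j (fun i => if i = j then 1 else ε) fun i _ => by
      show 0 < (if i = j then (1 : ℝ) else ε)
      split_ifs
      · norm_num
      · exact hε
    have e : (fun ω => R j ω + ε * S0 ω) = fun ω => ∑ i ∈ Finset.range (j + 1), (if i = j then 1 else ε) * R i ω := by
      funext ω
      rw [Finset.sum_range_succ, if_pos rfl, one_mul, add_comm, hS0, Finset.mul_sum]
      congr 1
      refine Finset.sum_congr rfl fun i hi => ?_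
      rw [if_neg (by have := Finset.mem_range.1 hi; omega)]
    rw [e]
    exact h
  obtain ⟨D1, hD1⟩ : ∃ D1 : ℝ → ℝ, D1 = fun ε => ∫ ω, (Real.log (R (j + 1) ω + ε * S1 ω) - Real.log (R (j + 1) ω)) ∂ν := ⟨_, rfl⟩
  obtain ⟨D0, hD0⟩ : ∃ D0 : ℝ → ℝ, D0 = fun ε => ∫ ω, (Real.log (R j ω + ε * S0 ω) - Real.log (R j ω)) ∂ν := ⟨_, rfl⟩
  have t1 : Tendsto D1 (𝓝[>] 0) (𝓝 0) := by
    rw [hD1]
    have h := (pl1 1 one_pos).int
    simp only [one_mul] at h
    exact small_mass (hR (j + 1)) mS1 nS1 h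
  have t0 : Tendsto D0 (𝓝[>] 0) (𝓝 0) := by
    rw [hD0]
    have h := (pl0 1 one_pos).int
    simp only [one_mul] at h
    exact small_mass (hR j) mS0 nS0 h
  have tF : Tendsto (fun ε => e₁ + e₂ * D0 ε + (D1 ε + D0 ε) + |v| / 2 * (1 / τ ^ 2 * D0 ε)) (𝓝[>] 0) (𝓝 e₁) := by
    have h := ((tendsto_const_nhds (x := e₁)).add (t0.const_mul e₂)).add (t1.add t0) |>.add ((t0.const_mul (1 / τ ^ 2)).const_mul (|v| / 2))
    simpa using h
  refine ge_of_tendsto tF ?_
  filter_upwards [self_mem_nhdsWithin] with ε hε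
  have hε0 : 0 < ε := hε
  obtain ⟨p, hp⟩ : ∃ p : ℕ → ℝ, p = fun i => if i = j then 1 else ε := ⟨_, rfl⟩
  have hp0 : ∀ i, i < j + 1 → 0 < p i := by
    intro i _
    rw [hp]
    show 0 < (if i = j then (1 : ℝ) else ε)
    split_ifs
    · norm_num
    · exact hε0
  have hpj : p j = 1 := by rw [hp]; exact if_pos rfl
  have hpi : ∀ i, i < j → p i = ε := fun i hi => by rw [hp]; exact if_neg (by omega)
  have eC1 : C1 R (j + 1) p = fun ω => R (j + 1) ω + ε * S1 ω := by
    funext ω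
    unfold C1
    rw [Finset.sum_range_succ, hpj, one_mul, add_comm, hS1, Finset.mul_sum]
    congr 1
    exact Finset.sum_congr rfl fun i hi => by rw [hpi i (Finset.mem_range.1 hi)]
  have eC0 : C0 R (j + 1) p = fun ω => R j ω + ε * S0 ω := by
    funext ω
    unfold C0
    rw [Finset.sum_range_succ, hpj, one_mul, add_comm, hS0, Finset.mul_sum]
    congr 1
    exact Finset.sum_congr rfl fun i hi => by rw [hpi i (Finset.mem_range.1 hi)]
  have hNG : NG ν R (j + 1) p d ≤ D0 ε := by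
    rw [hD0]
    unfold NG
    rw [min_eq_left (by omega), eC0]
    refine integral_mono_of_nonneg (ae_of_all _ fun ω => ?_) ((pl0 ε hε0).int.sub (hR j).int) (ae_of_all _ fun ω => ?_)
    · have h1 := (hR j).pos ω
      have h2 := nS0 ω
      have h3 : 0 ≤ C0 R d p ω := by
        unfold C0
        refine Finset.sum_nonneg fun i hi => mul_nonneg (hp0 i ?_).le ((hR i).pos ω).le
        have := Finset.mem_range.1 hi
        omega
      have h4 : 0 < R j ω + ε * S0 ω := by positivity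
      exact div_nonneg h3 h4.le
    · have h1 := (hR j).pos ω
      have h2 := nS0 ω
      have h4 : 0 < R j ω + ε * S0 ω := by positivity
      have h3 : C0 R d p ω ≤ ε * S0 ω := by
        unfold C0
        rw [hS0, Finset.mul_sum]
        calc ∑ i ∈ Finset.range d, p i * R i ω = ∑ i ∈ Finset.range d, ε * R i ω := by
              refine Finset.sum_congr rfl fun i hi => ?_
              rw [hpi i (by have := Finset.mem_range.1 hi; omega)]
          _ ≤ ∑ i ∈ Finset.range j, ε * R i ω :=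
              Finset.sum_le_sum_of_subset_of_nonneg (Finset.range_mono hd) fun i _ _ => (mul_pos hε0 ((hR i).pos ω)).le
      show C0 R d p ω / (R j ω + ε * S0 ω) ≤ Real.log (R j ω + ε * S0 ω) - Real.log (R j ω)
      have h5 := Real.one_sub_inv_le_log_of_pos (div_pos h4 h1)
      rw [Real.log_div h4.ne' h1.ne'] at h5
      refine le_trans ?_ h5
      rw [inv_div, div_le_iff₀ h4, sub_mul, div_mul_cancel₀ _ h4.ne', one_mul]
      linarith
  have hLM' := hLM p hp0 a0
  rw [eC1, eC0] at hLM'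
  have hw : Wgt (fun a => tri τ (a - a0)) (1 / τ ^ 2) := by
    have := (wgt_tri hτ).shift (-a0)
    simpa only [← sub_eq_add_neg] using this
  -- the free energies
  have c1 := (Cf.of_pos (hR 0) (hR (j + 1))).lip.cont
  have c0 := (Cf.of_pos (hR 0) (hR j)).lip.cont
  have c1' := (Cf.of_pos (hR 0) (pl1 ε hε0)).lip.cont
  have c0' := (Cf.of_pos (hR 0) (pl0 ε hε0)).lip.cont
  have b1 : ∀ a, 0 ≤ Lg ν (R 0) (fun ω => R (j + 1) ω + ε * S1 ω) a - Lg ν (R 0) (R (j + 1)) a ∧
      Lg ν (R 0) (fun ω => R (j + 1) ω + ε * S1 ω) a - Lg ν (R 0) (R (j + 1)) a ≤ D1 ε := by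
    intro a
    have i1 := (Cf.of_pos (hR 0) (hR (j + 1))).intx a
    have i2 := (Cf.of_pos (hR 0) (pl1 ε hε0)).intx a
    unfold Lg
    rw [← integral_sub i2 i1]
    refine ⟨integral_nonneg fun ω => ?_, ?_⟩
    · exact (log_add_small (mul_pos (Real.exp_pos a) ((hR 0).pos ω)).le ((hR (j + 1)).pos ω)
        (mul_nonneg hε0.le (nS1 ω))).1
    · rw [hD1]
      exact integral_mono (i2.sub i1) ((pl1 ε hε0).int.sub (hR (j + 1)).int) fun ω =>
        (log_add_small (mul_pos (Real.exp_pos a) ((hR 0).pos ω)).le ((hR (j + 1)).pos ω) (mul_nonneg hε0.le (nS1 ω))).2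
  have b0 : ∀ a, 0 ≤ Lg ν (R 0) (fun ω => R j ω + ε * S0 ω) a - Lg ν (R 0) (R j) a ∧
      Lg ν (R 0) (fun ω => R j ω + ε * S0 ω) a - Lg ν (R 0) (R j) a ≤ D0 ε := by
    intro a
    have i1 := (Cf.of_pos (hR 0) (hR j)).intx a
    have i2 := (Cf.of_pos (hR 0) (pl0 ε hε0)).intx a
    unfold Lg
    rw [← integral_sub i2 i1]
    refine ⟨integral_nonneg fun ω => ?_, ?_⟩
    · exact (log_add_small (mul_pos (Real.exp_pos a) ((hR 0).pos ω)).le ((hR j).pos ω)
        (mul_nonneg hε0.le (nS0 ω))).1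
    · rw [hD0]
      exact integral_mono (i2.sub i1) ((pl0 ε hε0).int.sub (hR j).int) fun ω =>
        (log_add_small (mul_pos (Real.exp_pos a) ((hR 0).pos ω)).le ((hR j).pos ω) (mul_nonneg hε0.le (nS0 ω))).2
  have d1 : |(∫ a, tri τ (a - a0) * (Lg ν (R 0) (R (j + 1)) a - Lg ν (R 0) (R j) a)) -
      ∫ a, tri τ (a - a0) * (Lg ν (R 0) (fun ω => R (j + 1) ω + ε * S1 ω) a - Lg ν (R 0) (fun ω => R j ω + ε * S0 ω) a)| ≤
      D1 ε + D0 ε := by
    have i1 : Integrable fun a => tri τ (a - a0) * (Lg ν (R 0) (R (j + 1)) a - Lg ν (R 0) (R j) a) :=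
      hw.int_mul (c1.sub c0)
    have i2 : Integrable fun a => tri τ (a - a0) *
        (Lg ν (R 0) (fun ω => R (j + 1) ω + ε * S1 ω) a - Lg ν (R 0) (fun ω => R j ω + ε * S0 ω) a) :=
      hw.int_mul (c1'.sub c0')
    rw [← integral_sub i1 i2]
    refine abs_integral_le_integral_abs.trans ?_
    calc ∫ a, |tri τ (a - a0) * (Lg ν (R 0) (R (j + 1)) a - Lg ν (R 0) (R j) a) -
          tri τ (a - a0) * (Lg ν (R 0) (fun ω => R (j + 1) ω + ε * S1 ω) a - Lg ν (R 0) (fun ω => R j ω + ε * S0 ω) a)|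
        ≤ ∫ a, tri τ (a - a0) * (D1 ε + D0 ε) := by
          refine integral_mono (i1.sub i2).abs (hw.int.mul_const _) fun a => ?_
          show |tri τ (a - a0) * (Lg ν (R 0) (R (j + 1)) a - Lg ν (R 0) (R j) a) -
            tri τ (a - a0) * (Lg ν (R 0) (fun ω => R (j + 1) ω + ε * S1 ω) a - Lg ν (R 0) (fun ω => R j ω + ε * S0 ω) a)| ≤
            tri τ (a - a0) * (D1 ε + D0 ε)
          rw [← mul_sub, abs_mul, abs_of_nonneg (hw.nn a)]
          refine mul_le_mul_of_nonneg_left ?_ (hw.nn a)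
          have h1 := b1 a
          have h0 := b0 a
          rw [abs_le]
          constructor <;> linarith [h1.1, h1.2, h0.1, h0.2]
      _ = D1 ε + D0 ε := by rw [integral_mul_const, hw.one, one_mul]
  have d2 : |(∫ ω, tri τ (Bk R j ω - a0) ∂ν) - ∫ ω, tri τ (Real.log (R j ω + ε * S0 ω) - Real.log (R 0 ω) - a0) ∂ν| ≤
      1 / τ ^ 2 * D0 ε := by
    have m1 : Measurable fun ω => tri τ (Bk R j ω - a0) := (wgt_tri hτ).cont.measurable.comp
      (((Real.measurable_log.comp (hR j).meas).sub (Real.measurable_log.comp (hR 0).meas)).sub_const a0)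
    have m2 : Measurable fun ω => tri τ (Real.log (R j ω + ε * S0 ω) - Real.log (R 0 ω) - a0) := (wgt_tri hτ).cont.measurable.comp
      (((Real.measurable_log.comp (pl0 ε hε0).meas).sub (Real.measurable_log.comp (hR 0).meas)).sub_const a0)
    have bd : ∀ x, |tri τ x| ≤ 1 / τ := fun x => by
      rw [abs_of_nonneg ((wgt_tri hτ).nn x)]
      exact tri_le hτ x
    have i1 : Integrable (fun ω => tri τ (Bk R j ω - a0)) ν :=
      (integrable_const (1 / τ)).mono' m1.aestronglyMeasurable (ae_of_all _ fun ω => bd _)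
    have i2 : Integrable (fun ω => tri τ (Real.log (R j ω + ε * S0 ω) - Real.log (R 0 ω) - a0)) ν :=
      (integrable_const (1 / τ)).mono' m2.aestronglyMeasurable (ae_of_all _ fun ω => bd _)
    rw [← integral_sub i1 i2]
    refine abs_integral_le_integral_abs.trans ?_
    rw [hD0, ← integral_const_mul]
    refine integral_mono (i1.sub i2).abs (((pl0 ε hε0).int.sub (hR j).int).const_mul _) fun ω => ?_
    show |tri τ (Bk R j ω - a0) - tri τ (Real.log (R j ω + ε * S0 ω) - Real.log (R 0 ω) - a0)| ≤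
      1 / τ ^ 2 * (Real.log (R j ω + ε * S0 ω) - Real.log (R j ω))
    refine ((wgt_tri hτ).lip _ _).trans (mul_le_mul_of_nonneg_left (le_of_eq ?_) (by positivity))
    unfold Bk
    rw [show Real.log (R j ω) - Real.log (R 0 ω) - a0 - (Real.log (R j ω + ε * S0 ω) - Real.log (R 0 ω) - a0) =
      -(Real.log (R j ω + ε * S0 ω) - Real.log (R j ω)) by ring, abs_neg, abs_of_nonneg]
    exact sub_nonneg.2 (Real.log_le_log ((hR j).pos ω) (by linarith [mul_nonneg hε0.le (nS0 ω)]))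
  have d3 : |v / 2 * (∫ ω, tri τ (Bk R j ω - a0) ∂ν) -
      v / 2 * ∫ ω, tri τ (Real.log (R j ω + ε * S0 ω) - Real.log (R 0 ω) - a0) ∂ν| ≤ |v| / 2 * (1 / τ ^ 2 * D0 ε) := by
    rw [← mul_sub, abs_mul, abs_div, abs_two]
    exact mul_le_mul_of_nonneg_left d2 (by positivity)
  have d4 : e₁ + e₂ * NG ν R (j + 1) p d ≤ e₁ + e₂ * D0 ε := by
    have := mul_le_mul_of_nonneg_left hNG he₂
    linarith
  have h1 := abs_le.1 (hLM'.trans d4)
  have h2 := abs_le.1 d1
  have h3 := abs_le.1 d3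
  rw [abs_le]
  constructor <;> linarith [h1.1, h1.2, h2.1, h2.2, h3.1, h3.2]

/-! ### The weight of the levels -/

/-- The trapezoid: `1` on `[-Iτ, Iτ]`, `0` outside `[-(I+1)τ, (I+1)τ]`. -/
def trap (τ : ℝ) (I : ℕ) (a : ℝ) : ℝ := ∑ i ∈ Finset.range (2 * I + 1), τ * tri τ (a - ((i : ℝ) - I) * τ)

theorem trap_nonneg {τ : ℝ} (hτ : 0 < τ) (I : ℕ) (a : ℝ) : 0 ≤ trap τ I a :=
  Finset.sum_nonneg fun i _ => mul_nonneg hτ.le ((wgt_tri hτ).nn _)

theorem trap_closed {τ : ℝ} (hτ : 0 < τ) (I : ℕ) (a : ℝ) : τ * trap τ I a =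
    (max (a + (I + 1) * τ) 0 - max (a + I * τ) 0) - (max (a - I * τ) 0 - max (a - (I + 1) * τ) 0) := by
  unfold trap
  rw [Finset.mul_sum]
  have e : ∀ i ∈ Finset.range (2 * I + 1), τ * (τ * tri τ (a - ((i : ℝ) - I) * τ)) =
      (fun i : ℕ => max (a - ((i : ℝ) - I - 1) * τ) 0 - max (a - ((i : ℝ) - I) * τ) 0) i -
        (fun i : ℕ => max (a - ((i : ℝ) - I - 1) * τ) 0 - max (a - ((i : ℝ) - I) * τ) 0) (i + 1) := by
    intro i _
    have h1 := max_sd τ (a - ((i : ℝ) - I) * τ)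
    unfold tri
    rw [← h1]
    simp only [Nat.cast_add, Nat.cast_one]
    rw [show a - ((i : ℝ) + 1 - I - 1) * τ = a - ((i : ℝ) - I) * τ by ring,
      show a - ((i : ℝ) - I - 1) * τ = a - ((i : ℝ) - I) * τ + τ by ring,
      show a - ((i : ℝ) + 1 - I) * τ = a - ((i : ℝ) - I) * τ - τ by ring]
    field_simp
    ring
  rw [Finset.sum_congr rfl e, Finset.sum_range_sub']
  simp only [Nat.cast_zero, Nat.cast_add, Nat.cast_mul, Nat.cast_ofNat, Nat.cast_one]
  rw [show a - ((0 : ℝ) - I - 1) * τ = a + (I + 1) * τ by ring, show a - ((0 : ℝ) - I) * τ = a + I * τ by ring,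
    show a - (2 * (I : ℝ) + 1 - I - 1) * τ = a - I * τ by ring, show a - (2 * (I : ℝ) + 1 - I) * τ = a - (I + 1) * τ by ring]

theorem trap_le_one {τ : ℝ} (hτ : 0 < τ) (I : ℕ) (a : ℝ) : trap τ I a ≤ 1 := by
  have h := trap_closed hτ I a
  have h1 : max (a + (I + 1) * τ) 0 ≤ max (a + I * τ) 0 + τ := by
    refine max_le ?_ ?_
    · have := le_max_left (a + I * τ) 0
      linarith
    · have := le_max_right (a + I * τ) 0
      linarith
  have h2 : max (a - (I + 1) * τ) 0 ≤ max (a - I * τ) 0 := max_le_max (by linarith) le_rfl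
  have h3 : τ * trap τ I a ≤ τ * 1 := by linarith
  exact le_of_mul_le_mul_left h3 hτ

theorem trap_one {τ : ℝ} (hτ : 0 < τ) {I : ℕ} {a : ℝ} (ha : |a| ≤ I * τ) : trap τ I a = 1 := by
  have h := trap_closed hτ I a
  have h0 := abs_le.1 ha
  rw [max_eq_left (by linarith), max_eq_left (by linarith), max_eq_right (by linarith), max_eq_right (by linarith)] at h
  have h3 : τ * trap τ I a = τ * 1 := by linarith
  exact mul_left_cancel₀ hτ.ne' h3

theorem trap_neg {τ : ℝ} (hτ : 0 < τ) (I : ℕ) (a : ℝ) : trap τ I (-a) = trap τ I a := by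
  have h := trap_closed hτ I a
  have h' := trap_closed hτ I (-a)
  have e : ∀ x : ℝ, max (-x) 0 = max x 0 - x := by
    intro x
    rcases le_total 0 x with h | h
    · rw [max_eq_left h, max_eq_right (by linarith), sub_self]
    · rw [max_eq_right h, max_eq_left (by linarith), zero_sub]
  rw [show -a + (I + 1) * τ = -(a - (I + 1) * τ) by ring, show -a + I * τ = -(a - I * τ) by ring,
    show -a - I * τ = -(a + I * τ) by ring, show -a - (I + 1) * τ = -(a + (I + 1) * τ) by ring, e, e, e, e] at h'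
  have h3 : τ * trap τ I (-a) = τ * trap τ I a := by rw [h, h']; ring
  exact mul_left_cancel₀ hτ.ne' h3

theorem trap_zero {τ : ℝ} (hτ : 0 < τ) {I : ℕ} {a : ℝ} (ha : (I + 1) * τ ≤ |a|) : trap τ I a = 0 := by
  have key : ∀ a : ℝ, (I + 1) * τ ≤ a → trap τ I a = 0 := by
    intro a ha
    have h := trap_closed hτ I a
    rw [max_eq_left (by nlinarith), max_eq_left (by nlinarith), max_eq_left (by nlinarith), max_eq_left (by linarith)] at h
    have h3 : τ * trap τ I a = τ * 0 := by rw [h]; ring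
    exact mul_left_cancel₀ hτ.ne' h3
  rcases abs_cases a with ⟨h1, _⟩ | ⟨h1, _⟩
  · exact key a (by rwa [h1] at ha)
  · rw [← trap_neg hτ]
    exact key (-a) (by rwa [h1] at ha)

theorem trap_cont {τ : ℝ} (hτ : 0 < τ) (I : ℕ) : Continuous (trap τ I) := by
  unfold trap
  exact continuous_finsetSum _ fun i _ => continuous_const.mul ((wgt_tri hτ).cont.comp (continuous_id.sub continuous_const))

theorem trap_cs {τ : ℝ} (hτ : 0 < τ) (I : ℕ) : HasCompactSupport (trap τ I) := by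
  refine HasCompactSupport.intro (K := Icc (-((I + 1) * τ)) ((I + 1) * τ)) isCompact_Icc fun a ha => trap_zero hτ ?_
  by_contra hc
  rw [not_le, abs_lt] at hc
  exact ha ⟨hc.1.le, hc.2.le⟩

theorem trap_int_mul {τ : ℝ} (hτ : 0 < τ) (I : ℕ) {f : ℝ → ℝ} (hf : Continuous f) : Integrable fun a => trap τ I a * f a :=
  ((trap_cont hτ I).mul hf).integrable_of_hasCompactSupport (trap_cs hτ I).mul_right

theorem trap_int {τ : ℝ} (hτ : 0 < τ) (I : ℕ) : Integrable (trap τ I) :=
  (trap_cont hτ I).integrable_of_hasCompactSupport (trap_cs hτ I)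

/-- The free energy of one balance point seen through the trapezoid. -/
def Ps (τ : ℝ) (I : ℕ) (B : ℝ) : ℝ := ∫ a, trap τ I a * sp (a - B)

theorem Ps_eq {τ : ℝ} (hτ : 0 < τ) (I : ℕ) (B : ℝ) :
    Ps τ I B = (1 / 2) * (∫ a, trap τ I a * |a|) - (1 / 2) * (∫ a, trap τ I a) * B + (1 / 2) * (∫ a, trap τ I a * hat B a) +
      ∫ a, trap τ I a * rr (a - B) := by
  have i1 : Integrable fun a => trap τ I a * max (a - B) 0 :=
    trap_int_mul hτ I ((continuous_id.sub continuous_const).max continuous_const)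
  have i2 : Integrable fun a => trap τ I a * rr (a - B) :=
    trap_int_mul hτ I (continuous_rr.comp (continuous_id.sub continuous_const))
  have i3 : Integrable fun a => trap τ I a * max (-a - B) 0 :=
    trap_int_mul hτ I ((continuous_neg.sub continuous_const).max continuous_const)
  have i4 : Integrable fun a => trap τ I a * |a| := trap_int_mul hτ I continuous_abs
  have i5 : Integrable fun a => trap τ I a * B := (trap_int hτ I).mul_const B
  have i6 : Integrable fun a => trap τ I a * hat B a := trap_int_mul hτ I (continuous_hat B)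
  have e1 : Ps τ I B = (∫ a, trap τ I a * max (a - B) 0) + ∫ a, trap τ I a * rr (a - B) := by
    unfold Ps
    rw [← integral_add i1 i2]
    refine integral_congr_ae (ae_of_all _ fun a => ?_)
    show trap τ I a * sp (a - B) = trap τ I a * max (a - B) 0 + trap τ I a * rr (a - B)
    rw [sp_eq]
    ring
  have e2 : ∫ a, trap τ I a * max (-a - B) 0 = ∫ a, trap τ I a * max (a - B) 0 := by
    rw [← integral_neg_eq_self (fun a => trap τ I a * max (a - B) 0)]
    refine integral_congr_ae (ae_of_all _ fun a => ?_)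
    show trap τ I a * max (-a - B) 0 = trap τ I (-a) * max (-a - B) 0
    rw [trap_neg hτ]
  have e3 : (∫ a, trap τ I a * max (a - B) 0) + ∫ a, trap τ I a * max (-a - B) 0 =
      (∫ a, trap τ I a * |a|) - (∫ a, trap τ I a) * B + ∫ a, trap τ I a * hat B a := by
    have i7 : Integrable fun a => trap τ I a * |a| - trap τ I a * B := i4.sub i5
    rw [← integral_add i1 i3, ← integral_mul_const, ← integral_sub i4 i5, ← integral_add i7 i6]
    refine integral_congr_ae (ae_of_all _ fun a => ?_)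
    show trap τ I a * max (a - B) 0 + trap τ I a * max (-a - B) 0 = trap τ I a * |a| - trap τ I a * B + trap τ I a * hat B a
    have h1 := max_sd a (-B)
    have h2 : hat a (-B) = |a| - |B| + hat B a := by
      unfold hat
      rw [abs_neg]
      rcases le_total |a| |B| with h | h
      · rw [max_eq_right (by linarith), max_eq_left (by linarith)]
        ring
      · rw [max_eq_left (by linarith), max_eq_right (by linarith)]
        ring
    have h3 : 2 * max (-B) 0 = |B| - B := by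
      rcases abs_cases B with ⟨h, h'⟩ | ⟨h, h'⟩
      · rw [h, max_eq_right (by linarith)]
        ring
      · rw [h, max_eq_left (by linarith)]
        ring
    rw [show -B + a = a - B by ring, show -B - a = -a - B by ring, h2] at h1
    rw [← mul_add, ← mul_sub, ← mul_add]
    congr 1
    linarith
  rw [e2] at e3
  rw [e1]
  linarith

theorem Ps_rr {τ : ℝ} (hτ : 0 < τ) (I : ℕ) (B : ℝ) :
    0 ≤ ∫ a, trap τ I a * rr (a - B) ∧ ∫ a, trap τ I a * rr (a - B) ≤ 2 := by
  refine ⟨integral_nonneg fun a => mul_nonneg (trap_nonneg hτ I a) (rr_nonneg _), ?_⟩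
  have h1 : ∫ a, rr (a - B) = ∫ a, rr a := integral_sub_right_eq_self (fun a => rr a) B
  calc ∫ a, trap τ I a * rr (a - B) ≤ ∫ a, rr (a - B) := by
        refine integral_mono (trap_int_mul hτ I (continuous_rr.comp (continuous_id.sub continuous_const))) (int_rr.comp_sub_right B)
          fun a => ?_
        exact mul_le_of_le_one_left (rr_nonneg _) (trap_le_one hτ I a)
    _ ≤ 2 := by rw [h1]; exact integral_rr_le

theorem Ps_up {τ : ℝ} (hτ : 0 < τ) (I : ℕ) (B : ℝ) :
    Ps τ I B ≤ (1 / 2) * (∫ a, trap τ I a * |a|) - (1 / 2) * (∫ a, trap τ I a) * B + B ^ 2 / 2 + 2 := by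
  rw [Ps_eq hτ]
  have h1 : ∫ a, trap τ I a * hat B a ≤ B ^ 2 := by
    rw [← integral_hat]
    refine integral_mono (trap_int_mul hτ I (continuous_hat B)) (int_hat B) fun a => ?_
    exact mul_le_of_le_one_left (hat_nonneg _ _) (trap_le_one hτ I a)
  have h2 := (Ps_rr hτ I B).2
  linarith

theorem Ps_low {τ : ℝ} (hτ : 0 < τ) (I : ℕ) (B : ℝ) :
    (1 / 2) * (∫ a, trap τ I a * |a|) - (1 / 2) * (∫ a, trap τ I a) * B + (if |B| ≤ I * τ then B ^ 2 / 2 else 0) ≤ Ps τ I B := by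
  rw [Ps_eq hτ]
  have h2 := (Ps_rr hτ I B).1
  have h1 : (if |B| ≤ I * τ then B ^ 2 / 2 else 0) ≤ (1 / 2) * ∫ a, trap τ I a * hat B a := by
    split_ifs with hB
    · have h3 : ∫ a, trap τ I a * hat B a = B ^ 2 := by
        rw [← integral_hat]
        refine integral_congr_ae (ae_of_all _ fun a => ?_)
        show trap τ I a * hat B a = hat B a
        by_cases ha : |a| ≤ |B|
        · rw [trap_one hτ (ha.trans hB), one_mul]
        · rw [hat_eq_zero (not_le.1 ha).le, mul_zero]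
      rw [h3]
      linarith
    · have h3 : 0 ≤ ∫ a, trap τ I a * hat B a := integral_nonneg fun a => mul_nonneg (trap_nonneg hτ I a) (hat_nonneg _ _)
      linarith
  linarith

/-! ### The profile -/

section prof

variable {R : ℕ → Ω → ℝ}

omit [IsProbabilityMeasure ν] in
theorem Bk_meas (hR : ∀ j, Pl ν (R j)) (j : ℕ) : Measurable (Bk R j) :=
  (Real.measurable_log.comp (hR j).meas).sub (Real.measurable_log.comp (hR 0).meas)

omit [IsProbabilityMeasure ν] in
theorem Bk_int (hR : ∀ j, Pl ν (R j)) (j : ℕ) : Integrable (Bk R j) ν := (hR j).int.sub (hR 0).int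

theorem sp_abs (x : ℝ) : |sp x| ≤ |x| + 1 := by
  have h1 := sp_lip x 0
  have h2 : sp 0 ≤ 1 := by
    unfold sp
    rw [Real.exp_zero]
    have := Real.log_le_sub_one_of_pos (show (0 : ℝ) < 1 + 1 by norm_num)
    linarith
  have h3 : 0 ≤ sp 0 := by
    unfold sp
    rw [Real.exp_zero]
    exact Real.log_nonneg (by norm_num)
  rw [sub_zero] at h1
  have h4 := abs_sub_abs_le_abs_sub (sp x) (sp 0)
  rw [abs_of_nonneg h3] at h4
  linarith

/-- The integrand on the product. -/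
theorem int_prod {τ : ℝ} (hτ : 0 < τ) (I : ℕ) (hR : ∀ j, Pl ν (R j)) (j : ℕ) :
    Integrable (Function.uncurry fun (a : ℝ) (ω : Ω) => trap τ I a * sp (a - Bk R j ω)) ((volume : Measure ℝ).prod ν) := by
  have i1 : Integrable (fun z : ℝ × Ω => (trap τ I z.1 * (|z.1| + 1)) * (1 : ℝ)) ((volume : Measure ℝ).prod ν) :=
    (trap_int_mul hτ I (continuous_abs.add continuous_const)).mul_prod (integrable_const (μ := ν) (1 : ℝ))
  have i2 : Integrable (fun z : ℝ × Ω => trap τ I z.1 * |Bk R j z.2|) ((volume : Measure ℝ).prod ν) :=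
    (trap_int hτ I).mul_prod (Bk_int hR j).abs
  refine (i1.add i2).mono' ?_ (ae_of_all _ fun z => ?_)
  · exact (((trap_cont hτ I).measurable.comp measurable_fst).mul (continuous_sp.measurable.comp
      (measurable_fst.sub ((Bk_meas hR j).comp measurable_snd)))).aestronglyMeasurable
  · show ‖trap τ I z.1 * sp (z.1 - Bk R j z.2)‖ ≤ trap τ I z.1 * (|z.1| + 1) * 1 + trap τ I z.1 * |Bk R j z.2|
    rw [Real.norm_eq_abs, abs_mul, abs_of_nonneg (trap_nonneg hτ I _), mul_one, ← mul_add]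
    refine mul_le_mul_of_nonneg_left ?_ (trap_nonneg hτ I _)
    have h1 := sp_abs (z.1 - Bk R j z.2)
    have h2 := abs_sub z.1 (Bk R j z.2)
    linarith

theorem Ps_int {τ : ℝ} (hτ : 0 < τ) (I : ℕ) (hR : ∀ j, Pl ν (R j)) (j : ℕ) : Integrable (fun ω => Ps τ I (Bk R j ω)) ν :=
  (int_prod hτ I hR j).integral_prod_right

/-- The mean free energy seen through the trapezoid. -/
theorem UG_eq {τ : ℝ} (hτ : 0 < τ) (I : ℕ) (hR : ∀ j, Pl ν (R j)) (j : ℕ) :
    ∫ a, trap τ I a * Lg ν (R 0) (R j) a =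
      (∫ a, trap τ I a) * (∫ ω, Real.log (R j ω) ∂ν) + ∫ ω, Ps τ I (Bk R j ω) ∂ν := by
  have isp : ∀ a, Integrable (fun ω => sp (a - Bk R j ω)) ν := by
    intro a
    refine ((integrable_const (|a| + 1)).add (Bk_int hR j).abs).mono'
      (continuous_sp.measurable.comp ((Bk_meas hR j).const_sub a)).aestronglyMeasurable (ae_of_all _ fun ω => ?_)
    rw [Real.norm_eq_abs]
    have h1 := sp_abs (a - Bk R j ω)
    have h2 := abs_sub a (Bk R j ω)
    simp only [Pi.add_apply]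
    linarith
  have e1 : ∀ a, Lg ν (R 0) (R j) a = (∫ ω, Real.log (R j ω) ∂ν) + ∫ ω, sp (a - Bk R j ω) ∂ν := by
    intro a
    rw [← integral_add (hR j).int (isp a)]
    unfold Lg
    exact integral_congr_ae (ae_of_all _ fun ω => logx_eq ((hR 0).pos ω) ((hR j).pos ω) a)
  have e2 : ∫ a, trap τ I a * (∫ ω, sp (a - Bk R j ω) ∂ν) = ∫ ω, Ps τ I (Bk R j ω) ∂ν := by
    have h := integral_integral_swap (int_prod hτ I hR j)
    have h2 : ∀ a, trap τ I a * (∫ ω, sp (a - Bk R j ω) ∂ν) = ∫ ω, trap τ I a * sp (a - Bk R j ω) ∂ν := fun a =>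
      (integral_const_mul _ _).symm
    simp only [h2]
    exact h
  have i2 : Integrable fun a => trap τ I a * (∫ ω, sp (a - Bk R j ω) ∂ν) := by
    have h := (int_prod hτ I hR j).integral_prod_left
    refine h.congr (ae_of_all _ fun a => ?_)
    show ∫ ω, trap τ I a * sp (a - Bk R j ω) ∂ν = trap τ I a * (∫ ω, sp (a - Bk R j ω) ∂ν)
    exact integral_const_mul _ _
  simp only [e1, mul_add]
  rw [integral_add ((trap_int hτ I).mul_const _) i2, integral_mul_const, e2]

/-- The lower bound of the difference. -/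
theorem UG_low {τ : ℝ} (hτ : 0 < τ) (I : ℕ) (hR : ∀ j, Pl ν (R j)) (hm : ∀ j, ∫ ω, Real.log (R j ω) ∂ν = ∫ ω, Real.log (R 0 ω) ∂ν)
    (hB2 : ∀ j, Integrable (fun ω => Bk R j ω ^ 2) ν) (K k : ℕ) :
    (∫ ω, (if |Bk R K ω| ≤ I * τ then Bk R K ω ^ 2 / 2 else 0) ∂ν) - (∫ ω, Bk R k ω ^ 2 ∂ν) / 2 - 2 ≤
      ∫ a, trap τ I a * (Lg ν (R 0) (R K) a - Lg ν (R 0) (R k) a) ∧
    ∫ a, trap τ I a * (Lg ν (R 0) (R K) a - Lg ν (R 0) (R k) a) ≤ (∫ ω, Bk R K ω ^ 2 ∂ν) / 2 + 2 := by
  have hBm : ∀ j, ∫ ω, Bk R j ω ∂ν = 0 := by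
    intro j
    unfold Bk
    rw [integral_sub (hR j).int (hR 0).int, hm j, sub_self]
  have c1 : ∀ j, Continuous (Lg ν (R 0) (R j)) := fun j => (Cf.of_pos (hR 0) (hR j)).lip.cont
  have e : ∫ a, trap τ I a * (Lg ν (R 0) (R K) a - Lg ν (R 0) (R k) a) =
      (∫ ω, Ps τ I (Bk R K ω) ∂ν) - ∫ ω, Ps τ I (Bk R k ω) ∂ν := by
    simp only [mul_sub]
    rw [integral_sub (trap_int_mul hτ I (c1 K)) (trap_int_mul hτ I (c1 k)), UG_eq hτ I hR, UG_eq hτ I hR, hm K, hm k]
    ring
  obtain ⟨c, hc⟩ : ∃ c : ℝ, c = (1 / 2) * (∫ a, trap τ I a * |a|) := ⟨_, rfl⟩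
  obtain ⟨A, hA⟩ : ∃ A : ℝ, A = (1 / 2) * (∫ a, trap τ I a) := ⟨_, rfl⟩
  have up : ∀ j, ∫ ω, Ps τ I (Bk R j ω) ∂ν ≤ c + (∫ ω, Bk R j ω ^ 2 ∂ν) / 2 + 2 := by
    intro j
    have i1 : Integrable (fun ω => c - A * Bk R j ω + Bk R j ω ^ 2 / 2 + 2) ν :=
      (((integrable_const c).sub ((Bk_int hR j).const_mul A)).add ((hB2 j).div_const 2)).add (integrable_const 2)
    have h := integral_mono (Ps_int hτ I hR j) i1 fun ω => by
      have := Ps_up hτ I (Bk R j ω)
      rw [← hc, ← hA] at this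
      exact this
    have i2 : Integrable (fun ω => c - A * Bk R j ω) ν := (integrable_const c).sub ((Bk_int hR j).const_mul A)
    have i3 : Integrable (fun ω => c - A * Bk R j ω + Bk R j ω ^ 2 / 2) ν := i2.add ((hB2 j).div_const 2)
    rw [integral_add i3 (integrable_const 2), integral_add i2 ((hB2 j).div_const 2), integral_sub (integrable_const c)
      ((Bk_int hR j).const_mul A), integral_const_mul, hBm j, integral_div] at h
    simp only [integral_const, probReal_univ, smul_eq_mul, one_mul, mul_zero, sub_zero] at h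
    exact h
  have mi : ∀ j, Integrable (fun ω => if |Bk R j ω| ≤ I * τ then Bk R j ω ^ 2 / 2 else 0) ν := by
    intro j
    refine ((hB2 j).div_const 2).mono' ?_ (ae_of_all _ fun ω => ?_)
    · exact (Measurable.ite (measurableSet_le (Bk_meas hR j).abs measurable_const)
        (((Bk_meas hR j).pow_const 2).div_const 2) measurable_const).aestronglyMeasurable
    · have h0 : 0 ≤ Bk R j ω ^ 2 / 2 := by positivity
      rw [Real.norm_eq_abs]
      split_ifs
      · rw [abs_of_nonneg h0]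
      · rw [abs_zero]
        exact h0
  have low : ∀ j, c + ∫ ω, (if |Bk R j ω| ≤ I * τ then Bk R j ω ^ 2 / 2 else 0) ∂ν ≤ ∫ ω, Ps τ I (Bk R j ω) ∂ν := by
    intro j
    have i2 : Integrable (fun ω => c - A * Bk R j ω) ν := (integrable_const c).sub ((Bk_int hR j).const_mul A)
    have i4 : Integrable (fun ω => (c - A * Bk R j ω) + (if |Bk R j ω| ≤ I * τ then Bk R j ω ^ 2 / 2 else 0)) ν := i2.add (mi j)
    have h := integral_mono i4 (Ps_int hτ I hR j) fun ω => by
      have := Ps_low hτ I (Bk R j ω)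
      rw [← hc, ← hA] at this
      exact this
    have e3 := integral_add i2 (mi j)
    rw [e3, integral_sub (integrable_const c) ((Bk_int hR j).const_mul A), integral_const_mul, hBm j] at h
    simp only [integral_const, probReal_univ, smul_eq_mul, one_mul, mul_zero, sub_zero] at h
    exact h
  have low0 : ∀ j, c ≤ ∫ ω, Ps τ I (Bk R j ω) ∂ν := by
    intro j
    have h1 := low j
    have h2 : 0 ≤ ∫ ω, (if |Bk R j ω| ≤ I * τ then Bk R j ω ^ 2 / 2 else 0) ∂ν := integral_nonneg fun ω => by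
      show 0 ≤ (if |Bk R j ω| ≤ I * τ then Bk R j ω ^ 2 / 2 else 0)
      split_ifs <;> positivity
    linarith
  rw [e]
  constructor
  · have h1 := low K
    have h2 := up k
    linarith
  · have h1 := up K
    have h2 := low0 k
    linarith

/-- One site, all the levels. -/
theorem one_site {τ v : ℝ} (hτ : 0 < τ) (I : ℕ) (hR : ∀ j, Pl ν (R j)) {e₁ : ℝ} {j : ℕ}
    (hU : ∀ a0, |(∫ a, tri τ (a - a0) * (Lg ν (R 0) (R (j + 1)) a - Lg ν (R 0) (R j) a)) -
      v / 2 * ∫ ω, tri τ (Bk R j ω - a0) ∂ν| ≤ e₁) :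
    |(∫ a, trap τ I a * (Lg ν (R 0) (R (j + 1)) a - Lg ν (R 0) (R j) a)) - v / 2 * ∫ ω, trap τ I (Bk R j ω) ∂ν| ≤
      (2 * I + 1) * τ * e₁ := by
  have c1 : ∀ j, Continuous (Lg ν (R 0) (R j)) := fun j => (Cf.of_pos (hR 0) (hR j)).lip.cont
  have cF : Continuous fun a => Lg ν (R 0) (R (j + 1)) a - Lg ν (R 0) (R j) a := (c1 _).sub (c1 _)
  have hw : ∀ a0 : ℝ, Wgt (fun a => tri τ (a - a0)) (1 / τ ^ 2) := by
    intro a0
    have := (wgt_tri hτ).shift (-a0)
    simpa only [← sub_eq_add_neg] using this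
  have e1 : ∫ a, trap τ I a * (Lg ν (R 0) (R (j + 1)) a - Lg ν (R 0) (R j) a) = ∑ i ∈ Finset.range (2 * I + 1),
      τ * ∫ a, tri τ (a - ((i : ℝ) - I) * τ) * (Lg ν (R 0) (R (j + 1)) a - Lg ν (R 0) (R j) a) := by
    unfold trap
    simp only [Finset.sum_mul]
    rw [integral_finsetSum _ fun i _ => by
      have := ((hw (((i : ℝ) - I) * τ)).int_mul cF).const_mul τ
      refine this.congr (ae_of_all _ fun a => ?_)
      show τ * (tri τ (a - ((i : ℝ) - I) * τ) * (Lg ν (R 0) (R (j + 1)) a - Lg ν (R 0) (R j) a)) = _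
      ring]
    refine Finset.sum_congr rfl fun i _ => ?_
    rw [← integral_const_mul]
    refine integral_congr_ae (ae_of_all _ fun a => ?_)
    show τ * tri τ (a - ((i : ℝ) - I) * τ) * (Lg ν (R 0) (R (j + 1)) a - Lg ν (R 0) (R j) a) =
      τ * (tri τ (a - ((i : ℝ) - I) * τ) * (Lg ν (R 0) (R (j + 1)) a - Lg ν (R 0) (R j) a))
    ring
  have e2 : ∫ ω, trap τ I (Bk R j ω) ∂ν = ∑ i ∈ Finset.range (2 * I + 1), τ * ∫ ω, tri τ (Bk R j ω - ((i : ℝ) - I) * τ) ∂ν := by
    unfold trap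
    rw [integral_finsetSum _ fun i _ => by
      have mt : Measurable fun ω => tri τ (Bk R j ω - ((i : ℝ) - I) * τ) :=
        (wgt_tri hτ).cont.measurable.comp ((Bk_meas hR j).sub_const _)
      refine Integrable.const_mul ?_ τ
      refine (integrable_const (1 / τ)).mono' mt.aestronglyMeasurable (ae_of_all _ fun ω => ?_)
      rw [Real.norm_eq_abs, abs_of_nonneg ((wgt_tri hτ).nn _)]
      exact tri_le hτ _]
    exact Finset.sum_congr rfl fun i _ => integral_const_mul _ _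
  rw [e1, e2, Finset.mul_sum, ← Finset.sum_sub_distrib]
  refine (Finset.abs_sum_le_sum_abs _ _).trans ?_
  calc ∑ i ∈ Finset.range (2 * I + 1), |τ * (∫ a, tri τ (a - ((i : ℝ) - I) * τ) *
          (Lg ν (R 0) (R (j + 1)) a - Lg ν (R 0) (R j) a)) - v / 2 * (τ * ∫ ω, tri τ (Bk R j ω - ((i : ℝ) - I) * τ) ∂ν)|
      ≤ ∑ _i ∈ Finset.range (2 * I + 1), τ * e₁ := by
        refine Finset.sum_le_sum fun i _ => ?_
        have h := hU (((i : ℝ) - I) * τ)
        rw [show τ * (∫ a, tri τ (a - ((i : ℝ) - I) * τ) * (Lg ν (R 0) (R (j + 1)) a - Lg ν (R 0) (R j) a)) -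
          v / 2 * (τ * ∫ ω, tri τ (Bk R j ω - ((i : ℝ) - I) * τ) ∂ν) =
          τ * ((∫ a, tri τ (a - ((i : ℝ) - I) * τ) * (Lg ν (R 0) (R (j + 1)) a - Lg ν (R 0) (R j) a)) -
          v / 2 * ∫ ω, tri τ (Bk R j ω - ((i : ℝ) - I) * τ) ∂ν) by ring, abs_mul, abs_of_pos hτ]
        exact mul_le_mul_of_nonneg_left h hτ.le
    _ = (2 * I + 1) * τ * e₁ := by
        rw [Finset.sum_const, Finset.card_range, nsmul_eq_mul]
        push_cast
        ring

/-- All the sites, all the levels. -/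
theorem all_sites {τ v : ℝ} (hτ : 0 < τ) (I : ℕ) (hR : ∀ j, Pl ν (R j)) {e₁ : ℝ} {k K : ℕ} (hk : k ≤ K)
    (hU : ∀ j, k ≤ j → j < K → ∀ a0, |(∫ a, tri τ (a - a0) * (Lg ν (R 0) (R (j + 1)) a - Lg ν (R 0) (R j) a)) -
      v / 2 * ∫ ω, tri τ (Bk R j ω - a0) ∂ν| ≤ e₁) :
    |(∫ a, trap τ I a * (Lg ν (R 0) (R K) a - Lg ν (R 0) (R k) a)) -
      v / 2 * ∑ j ∈ Finset.Ico k K, ∫ ω, trap τ I (Bk R j ω) ∂ν| ≤ (2 * I + 1) * τ * e₁ * (K - k) := by
  have c1 : ∀ j, Continuous (Lg ν (R 0) (R j)) := fun j => (Cf.of_pos (hR 0) (hR j)).lip.cont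
  induction K, hk using Nat.le_induction with
  | base => simp
  | succ K hkK ih =>
    have h1 := ih fun j a b => hU j a (by omega)
    have h2 := one_site hτ I hR (hU K hkK (by omega))
    have i1 : Integrable fun a => trap τ I a * (Lg ν (R 0) (R K) a - Lg ν (R 0) (R k) a) :=
      trap_int_mul hτ I ((c1 _).sub (c1 _))
    have i2 : Integrable fun a => trap τ I a * (Lg ν (R 0) (R (K + 1)) a - Lg ν (R 0) (R K) a) :=
      trap_int_mul hτ I ((c1 _).sub (c1 _))
    have e : ∫ a, trap τ I a * (Lg ν (R 0) (R (K + 1)) a - Lg ν (R 0) (R k) a) =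
        (∫ a, trap τ I a * (Lg ν (R 0) (R K) a - Lg ν (R 0) (R k) a)) +
          ∫ a, trap τ I a * (Lg ν (R 0) (R (K + 1)) a - Lg ν (R 0) (R K) a) := by
      rw [← integral_add i1 i2]
      refine integral_congr_ae (ae_of_all _ fun a => ?_)
      show trap τ I a * (Lg ν (R 0) (R (K + 1)) a - Lg ν (R 0) (R k) a) =
        trap τ I a * (Lg ν (R 0) (R K) a - Lg ν (R 0) (R k) a) + trap τ I a * (Lg ν (R 0) (R (K + 1)) a - Lg ν (R 0) (R K) a)
      ring
    rw [e, Finset.sum_Ico_succ_top hkK]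
    push_cast
    have h3 := abs_le.1 h1
    have h4 := abs_le.1 h2
    rw [abs_le]
    constructor <;> nlinarith [h3.1, h3.2, h4.1, h4.2]

/-- **THE SIZE OF THE COEFFICIENT.** -/
theorem v_size {τ v : ℝ} (hτ : 0 < τ) (I : ℕ) (hR : ∀ j, Pl ν (R j)) (hm : ∀ j, ∫ ω, Real.log (R j ω) ∂ν = ∫ ω, Real.log (R 0 ω) ∂ν)
    (hB2 : ∀ j, Integrable (fun ω => Bk R j ω ^ 2) ν) {d k K : ℕ} (hd : d ≤ k) (hk : k ≤ K) {e₁ e₂ : ℝ} (he₂ : 0 ≤ e₂)
    (hLM : ∀ j, k ≤ j → j < K → ∀ p : ℕ → ℝ, (∀ i, i < j + 1 → 0 < p i) →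
      LMx ν (tri τ) v R (j + 1) p (e₁ + e₂ * NG ν R (j + 1) p d)) :
    (∫ ω, (if |Bk R K ω| ≤ I * τ then Bk R K ω ^ 2 / 2 else 0) ∂ν) - (∫ ω, Bk R k ω ^ 2 ∂ν) / 2 - 2 -
        (2 * I + 1) * τ * e₁ * (K - k) ≤ v / 2 * ∑ j ∈ Finset.Ico k K, ∫ ω, trap τ I (Bk R j ω) ∂ν ∧
    v / 2 * ∑ j ∈ Finset.Ico k K, ∫ ω, trap τ I (Bk R j ω) ∂ν ≤
      (∫ ω, Bk R K ω ^ 2 ∂ν) / 2 + 2 + (2 * I + 1) * τ * e₁ * (K - k) := by
  have h1 := abs_le.1 (all_sites hτ I hR hk fun j a b => unit_mass hτ hR (hd.trans a) he₂ (hLM j a b))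
  have h2 := UG_low hτ I hR hm hB2 K k
  constructor
  · linarith [h1.1, h1.2, h2.1]
  · linarith [h1.1, h1.2, h2.2]

/-- The weights of the levels are between `P (|B| ≤ I τ)` and `1`. -/
theorem trap_mean {τ : ℝ} (hτ : 0 < τ) (I : ℕ) (hR : ∀ j, Pl ν (R j)) (j : ℕ) :
    ν.real {ω | |Bk R j ω| ≤ I * τ} ≤ ∫ ω, trap τ I (Bk R j ω) ∂ν ∧ ∫ ω, trap τ I (Bk R j ω) ∂ν ≤ 1 := by
  have mt : Measurable fun ω => trap τ I (Bk R j ω) := (trap_cont hτ I).measurable.comp (Bk_meas hR j)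
  have it : Integrable (fun ω => trap τ I (Bk R j ω)) ν :=
    (integrable_const (1 : ℝ)).mono' mt.aestronglyMeasurable (ae_of_all _ fun ω => by
      rw [Real.norm_eq_abs, abs_of_nonneg (trap_nonneg hτ I _)]
      exact trap_le_one hτ I _)
  have mS : MeasurableSet {ω | |Bk R j ω| ≤ I * τ} := measurableSet_le (Bk_meas hR j).abs measurable_const
  constructor
  · have h1 : ∫ ω, ({ω | |Bk R j ω| ≤ I * τ}.indicator fun _ => (1 : ℝ)) ω ∂ν = ν.real {ω | |Bk R j ω| ≤ I * τ} := by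
      rw [integral_indicator_const _ mS, smul_eq_mul, mul_one]
    rw [← h1]
    refine integral_mono ((integrable_const _).indicator mS) it fun ω => ?_
    by_cases hω : |Bk R j ω| ≤ I * τ
    · rw [indicator_of_mem (show ω ∈ {ω | |Bk R j ω| ≤ I * τ} from hω)]
      exact (trap_one hτ hω).ge
    · rw [indicator_of_notMem (show ω ∉ {ω | |Bk R j ω| ≤ I * τ} from hω)]
      exact trap_nonneg hτ I _
  · have h2 := integral_mono it (integrable_const (1 : ℝ)) fun ω => trap_le_one hτ I (Bk R j ω)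
    simpa using h2

end prof

end

end Pool.Agent.W_7d29a1_C1.H54
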