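import Pool.Agent.W_7d29a1_C1.VnA54
import Pool.Agent.W_7d29a1_HZ.Z96_ScaleZ
import Pool.Agent.W_7d29a1_HZ.Defs

/-!
MP_7d29a1_pr, attractor route: the size of the variance `v_n` (helper54). Part B: the model. The future profile is `exp V` with ONE
polynomial horizon `H`, `n ≤ H ≤ n ^ p`. From the growth of the increments (`StepV`, `IncV`, theorems of LB and UB) and a tail (`TailV`)
the level identities `LMx` force `n ^ (- δ) ≤ v ≤ n ^ δ`.
-/

set_option autoImplicit false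

namespace Pool.Agent.W_7d29a1_C1.H54

open MeasureTheory ProbabilityTheory Set Filter Topology
open Pool.Agent.W_7d29a1_F Pool.Agent.W_7d29a1_h4g Pool.Agent.W_7d29a1_H Pool.Agent.W_7d29a1_HS
open Pool.Agent.W_7d29a1_C1.H8
open Pool.Agent.W_7d29a1_h47 (EM)

noncomputable section

/-- The second moment of the increment of the free energy. -/
def Iv (μ : Measure ℝ) (s : ℝ) (H x : ℕ) : ℝ := ∫ η, (V μ s η (0, (x : ℤ)) H - V μ s η 0 H) ^ 2 ∂(law μ)

/-- The step (`step_end29` of `W_7d29a1_LB`). -/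
def StepV (μ : Measure ℝ) (s : ℝ) : Prop := ∀ ε : ℝ, 0 < ε → ∃ N₀ : ℕ, ∀ n : ℕ, N₀ ≤ n → ∃ w x0 : ℕ, 1 ≤ w ∧ (w : ℝ) ≤ (n : ℝ) ^ ε ∧
  (x0 : ℝ) ≤ (n : ℝ) ^ ε ∧ ∀ x : ℕ, x0 ≤ x → ((x + w : ℕ) : ℝ) ≤ (n : ℝ) ^ (-ε) * wd μ s n → Iv μ s n x + 1 ≤ Iv μ s n (x + w)

/-- The increments are small (`inc_le92` of `W_7d29a1_UB`). -/
def IncV (μ : Measure ℝ) (s : ℝ) : Prop := ∀ ε : ℝ, 0 < ε → ∃ N₀ : ℕ, ∀ n : ℕ, N₀ ≤ n → ∀ x : ℕ, 1 ≤ x → x ≤ n →
  Iv μ s n x ≤ (n : ℝ) ^ ε * x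

/-- The tail of the increments at one scale, any polynomial horizon. -/
def TailV (μ : Measure ℝ) (s : ℝ) : Prop := ∀ ε : ℝ, 0 < ε → ∀ p : ℝ, 1 ≤ p → ∃ N₀ : ℕ, ∀ n : ℕ, N₀ ≤ n → ∀ H : ℕ, n ≤ H →
  (H : ℝ) ≤ (n : ℝ) ^ p → ∀ x : ℕ, (x : ℝ) ≤ wd μ s n →
    (law μ).real {η | (n : ℝ) ^ ε * EE μ s n < |V μ s η (0, (x : ℤ)) H - V μ s η 0 H|} ≤ 1 / 2 ∧
    ∫ η, (if |V μ s η (0, (x : ℤ)) H - V μ s η 0 H| ≤ (n : ℝ) ^ ε * EE μ s n then 0 else
      (V μ s η (0, (x : ℤ)) H - V μ s η 0 H) ^ 2) ∂(law μ) ≤ 1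

/-- Climbing with the steps `w` (`climb86`). -/
theorem climb54 {F : ℕ → ℝ} {w x0 : ℕ} {X : ℝ} (hF : 0 ≤ F x0)
    (hstep : ∀ x : ℕ, x0 ≤ x → ((x + w : ℕ) : ℝ) ≤ X → F x + 1 ≤ F (x + w)) :
    ∀ k : ℕ, ((x0 + k * w : ℕ) : ℝ) ≤ X → (k : ℝ) ≤ F (x0 + k * w)
  | 0, _ => by simpa using hF
  | k + 1, h => by
    have e1 : x0 + (k + 1) * w = x0 + k * w + w := by ring
    have h1 : ((x0 + k * w : ℕ) : ℝ) ≤ X := by
      refine le_trans ?_ h
      exact_mod_cast (by rw [e1]; omega : x0 + k * w ≤ x0 + (k + 1) * w)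
    have h2 := climb54 hF hstep k h1
    have h3 := hstep (x0 + k * w) (Nat.le_add_right _ _) (by rw [← e1]; exact h)
    rw [e1]
    push_cast
    linarith

/-- The value at one point. -/
theorem climb_at {F : ℕ → ℝ} {w x0 K : ℕ} {X y : ℝ} (hw : 1 ≤ w) (hwy : (w : ℝ) ≤ y) (hxy : (x0 : ℝ) ≤ y) (hF : ∀ x, 0 ≤ F x)
    (hstep : ∀ x : ℕ, x0 ≤ x → ((x + w : ℕ) : ℝ) ≤ X → F x + 1 ≤ F (x + w)) (hK : (K : ℝ) ≤ X) :
    K / y - 2 ≤ F K := by
  have hwR : (1 : ℝ) ≤ w := by exact_mod_cast hw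
  have hy : 0 < y := by linarith
  rcases lt_or_ge K x0 with h | h
  · have h1 : (K : ℝ) < x0 := by exact_mod_cast h
    have h2 : (K : ℝ) / y ≤ 1 := by
      rw [div_le_one hy]
      linarith
    linarith [hF K]
  obtain ⟨m, hm⟩ : ∃ m : ℕ, m = (K - x0) / w := ⟨_, rfl⟩
  have h1 : m * w ≤ K - x0 := by
    rw [hm]
    exact Nat.div_mul_le_self _ _
  have h2 : K - x0 < (m + 1) * w := by
    have := Nat.lt_div_mul_add (a := K - x0) (b := w) (by omega)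
    rw [← hm] at this
    calc K - x0 < m * w + w := this
      _ = (m + 1) * w := by ring
  have e1 : K - m * w + m * w = K := by omega
  have h3 : x0 ≤ K - m * w := by omega
  have h4 := climb54 (F := F) (w := w) (x0 := K - m * w) (X := X) (hF _) (fun x hx hxX => hstep x (h3.trans hx) hxX) m
    (by rw [e1]; exact hK)
  rw [e1] at h4
  refine le_trans ?_ h4
  have h5 : (K : ℝ) - x0 < (m + 1) * w := by
    have : ((K - x0 : ℕ) : ℝ) < (m + 1) * w := by exact_mod_cast h2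
    rwa [Nat.cast_sub h] at this
  rw [sub_le_iff_le_add, div_le_iff₀ hy]
  have h6 : (0 : ℝ) ≤ m := Nat.cast_nonneg _
  nlinarith

/-- The numbers. -/
theorem numV {K k y v S a : ℝ} (hy : 16 ≤ y) (hk0 : 0 ≤ k) (hK : 28 * y + 4 * y ^ 2 * k ≤ K) (hS0 : (K - k) / 2 ≤ S) (hS1 : S ≤ K)
    (ha0 : 0 ≤ a) (ha : a ≤ 5 / y ^ 3)
    (hlow : (K / y - 3) / 2 - y * k / 2 - 2 - a * (K - k) ≤ v / 2 * S) (hup : v / 2 * S ≤ y * K / 2 + 2 + a * (K - k)) :
    1 / (2 * y) ≤ v ∧ v ≤ 8 * y := by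
  have hy0 : 0 < y := by linarith
  have hyk : 0 ≤ y ^ 2 * k := by positivity
  have hyy : (256 : ℝ) ≤ y ^ 2 := by
    calc (256 : ℝ) = 16 ^ 2 := by norm_num
      _ ≤ y ^ 2 := pow_le_pow_left₀ (by norm_num) hy 2
  have hK0 : 448 ≤ K := by linarith
  have hkK : k ≤ K / 4 := by
    have h1 : 4 * 256 * k ≤ 4 * y ^ 2 * k := mul_le_mul_of_nonneg_right (by linarith only [hyy]) hk0
    linarith
  have h1 : a * (K - k) ≤ 5 / y ^ 3 * K := by
    calc a * (K - k) ≤ a * K := mul_le_mul_of_nonneg_left (by linarith) ha0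
      _ ≤ 5 / y ^ 3 * K := mul_le_mul_of_nonneg_right ha (by linarith)
  have h2 : 5 / y ^ 3 * K ≤ K / (8 * y) := by
    rw [div_mul_eq_mul_div, div_le_div_iff₀ (by positivity) (by positivity)]
    have h3 : (40 : ℝ) ≤ y ^ 2 := by linarith only [hyy]
    calc 5 * K * (8 * y) = 40 * (K * y) := by ring
      _ ≤ y ^ 2 * (K * y) := mul_le_mul_of_nonneg_right h3 (by positivity)
      _ = K * y ^ 3 := by ring
  have h3 : (28 * y + 4 * y ^ 2 * k) / (8 * y) ≤ K / (8 * y) := div_le_div_of_nonneg_right hK (by positivity)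
  have h4 : (28 * y + 4 * y ^ 2 * k) / (8 * y) = 7 / 2 + y * k / 2 := by
    field_simp
    ring
  rw [h4] at h3
  have h5 : K / y = 8 * (K / (8 * y)) := by
    field_simp
  have h6 : 2 * (K / (8 * y)) ≤ v / 2 * S := by
    rw [h5] at hlow
    linarith
  have hS2 : K / 4 ≤ S := by linarith
  have hS3 : 0 < S := by linarith
  have hq : 0 < K / (8 * y) := by positivity
  have hv : 0 < v := by
    by_contra hc
    have : v / 2 * S ≤ 0 := mul_nonpos_of_nonpos_of_nonneg (by linarith [not_lt.1 hc]) hS3.le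
    linarith
  constructor
  · have h7 : v / 2 * S ≤ v / 2 * K := mul_le_mul_of_nonneg_left hS1 (by positivity)
    have h8 : 2 * (K / (8 * y)) ≤ v / 2 * K := h6.trans h7
    have h9 : 2 * (K / (8 * y)) = (1 / (2 * y)) / 2 * K := by
      field_simp
      ring
    rw [h9] at h8
    have := le_of_mul_le_mul_right h8 (by linarith)
    linarith
  · have h7 : v / 2 * (K / 4) ≤ v / 2 * S := mul_le_mul_of_nonneg_left hS2 (by positivity)
    have hKp : 0 < K := by linarith only [hK0]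
    have h8 : K / (8 * y) ≤ K := by
      rw [div_le_iff₀ (by positivity)]
      exact le_mul_of_one_le_right hKp.le (by linarith only [hy])
    have h11 : 16 * K ≤ y * K := mul_le_mul_of_nonneg_right hy hKp.le
    have h9 : v / 2 * (K / 4) ≤ y * K := by linarith only [h7, hup, h1, h2, h8, h11, hK0]
    by_contra hc
    have h10 := mul_lt_mul_of_pos_right (not_le.1 hc) hKp
    linarith only [h9, h10]

section model

variable {μ : Measure ℝ} [IsProbabilityMeasure μ] {s : ℝ}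

/-- The profile. -/
def Rv (μ : Measure ℝ) (s : ℝ) (H j : ℕ) (η : Env) : ℝ := Real.exp (V μ s η (0, (j : ℤ)) H)

omit [IsProbabilityMeasure μ] in
theorem Bk_Rv (H j : ℕ) (η : Env) : Bk (Rv μ s H) j η = V μ s η (0, (j : ℤ)) H - V μ s η 0 H := by
  unfold Bk Rv
  rw [Real.log_exp, Real.log_exp]
  rfl

theorem pl_Rv (hE : EM μ) (H j : ℕ) : Pl (law μ) (Rv μ s H j) where
  meas := (measurable_V (0, (j : ℤ)) H).exp
  pos := fun _ => Real.exp_pos _
  int := by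
    refine ((Sub_V (μ := μ) (s := s) (0, (j : ℤ)) H).integrable hE).congr (ae_of_all _ fun η => ?_)
    show _ = Real.log (Real.exp (V μ s η (0, (j : ℤ)) H))
    rw [Real.log_exp]

theorem mean_Rv (H j : ℕ) : ∫ η, Real.log (Rv μ s H j η) ∂(law μ) = ∫ η, Real.log (Rv μ s H 0 η) ∂(law μ) := by
  unfold Rv
  simp only [Real.log_exp]
  have h := mp_sh (μ := μ) ((0 : ℤ), (j : ℤ))
  have h2 : (fun η : Env => V μ s η (0, (j : ℤ)) H) = fun η : Env => (fun ξ => V μ s ξ 0 H) (sh (0, (j : ℤ)) η) := by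
    funext η
    show _ = V μ s (sh (0, (j : ℤ)) η) 0 H
    rw [V_sh, zero_add]
  rw [h2, ← integral_map h.measurable.aemeasurable (f := fun ξ : Env => V μ s ξ 0 H) (measurable_V 0 H).aestronglyMeasurable,
    h.map_eq]
  rfl

theorem sq_Rv (hE : EM μ) (H j : ℕ) : Integrable (fun η => Bk (Rv μ s H) j η ^ 2) (law μ) := by
  simp only [Bk_Rv]
  exact ((Sub_V (0, (j : ℤ)) H).sub (Sub_V 0 H)).sq_integrable hE

omit [IsProbabilityMeasure μ] in
theorem Iv_eq (H j : ℕ) : ∫ η, Bk (Rv μ s H) j η ^ 2 ∂(law μ) = Iv μ s H j := by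
  simp only [Bk_Rv]
  rfl

/-- The truncated second moment. -/
theorem trunc_ge (hE : EM μ) {H K : ℕ} {b t : ℝ} (hbt : b ≤ t)
    (htail : ∫ η, (if |V μ s η (0, (K : ℤ)) H - V μ s η 0 H| ≤ b then 0 else
      (V μ s η (0, (K : ℤ)) H - V μ s η 0 H) ^ 2) ∂(law μ) ≤ 1) :
    (Iv μ s H K - 1) / 2 ≤ ∫ η, (if |Bk (Rv μ s H) K η| ≤ t then Bk (Rv μ s H) K η ^ 2 / 2 else 0) ∂(law μ) := by
  have i1 := sq_Rv (μ := μ) (s := s) hE H K
  have mB : Measurable fun η : Env => Bk (Rv μ s H) K η := by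
    simp only [Bk_Rv]
    exact (measurable_V (0, (K : ℤ)) H).sub (measurable_V 0 H)
  have i2 : Integrable (fun η => if |Bk (Rv μ s H) K η| ≤ t then Bk (Rv μ s H) K η ^ 2 / 2 else 0) (law μ) := by
    refine (i1.div_const 2).mono' ?_ (ae_of_all _ fun η => ?_)
    · exact (Measurable.ite (measurableSet_le mB.abs measurable_const) ((mB.pow_const 2).div_const 2)
        measurable_const).aestronglyMeasurable
    · have h0 : 0 ≤ Bk (Rv μ s H) K η ^ 2 / 2 := by positivity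
      rw [Real.norm_eq_abs]
      split_ifs
      · rw [abs_of_nonneg h0]
      · rw [abs_zero]
        exact h0
  have i3 : Integrable (fun η => if |Bk (Rv μ s H) K η| ≤ b then 0 else Bk (Rv μ s H) K η ^ 2) (law μ) := by
    refine i1.mono' ?_ (ae_of_all _ fun η => ?_)
    · exact (Measurable.ite (measurableSet_le mB.abs measurable_const) measurable_const (mB.pow_const 2)).aestronglyMeasurable
    · have h0 : 0 ≤ Bk (Rv μ s H) K η ^ 2 := by positivity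
      rw [Real.norm_eq_abs]
      split_ifs
      · rw [abs_zero]
        exact h0
      · rw [abs_of_nonneg h0]
  have ht : ∫ η, (if |Bk (Rv μ s H) K η| ≤ b then 0 else Bk (Rv μ s H) K η ^ 2) ∂(law μ) ≤ 1 := by
    simp only [Bk_Rv]
    exact htail
  have i4 : Integrable (fun η => (if |Bk (Rv μ s H) K η| ≤ t then Bk (Rv μ s H) K η ^ 2 / 2 else 0) +
      (if |Bk (Rv μ s H) K η| ≤ b then 0 else Bk (Rv μ s H) K η ^ 2) / 2) (law μ) := i2.add (i3.div_const 2)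
  have h1 := integral_mono (i1.div_const 2) i4 fun η => by
    show Bk (Rv μ s H) K η ^ 2 / 2 ≤ (if |Bk (Rv μ s H) K η| ≤ t then Bk (Rv μ s H) K η ^ 2 / 2 else 0) +
      (if |Bk (Rv μ s H) K η| ≤ b then 0 else Bk (Rv μ s H) K η ^ 2) / 2
    have h0 : 0 ≤ Bk (Rv μ s H) K η ^ 2 := by positivity
    by_cases h2 : |Bk (Rv μ s H) K η| ≤ t
    · rw [if_pos h2]
      have h3 : 0 ≤ (if |Bk (Rv μ s H) K η| ≤ b then 0 else Bk (Rv μ s H) K η ^ 2) := by split_ifs <;> positivity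
      linarith
    · rw [if_neg h2, if_neg fun h3 => h2 (h3.trans hbt)]
      linarith
  rw [integral_add i2 (i3.div_const 2), integral_div, integral_div, Iv_eq] at h1
  linarith

/-- **The size of the variance**, one scale: the numbers are `y = n ^ η₁`, `A = n ^ (- c)`. -/
theorem v_scale (hE : EM μ) {H k K d I : ℕ} {y A E v e₂ X : ℝ} (hy : 16 ≤ y) (hE0 : 0 < E) (hA0 : 0 < A) (hA : A * y ^ 4 ≤ 1)
    (hI0 : y / A ≤ I) (hI1 : (I : ℝ) ≤ y / A + 1) (hd : d ≤ k) (hk : 1 ≤ k) (hKk : 28 * y + 4 * y ^ 2 * k ≤ K) (he₂ : 0 ≤ e₂)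
    (hstep : ∃ w x0 : ℕ, 1 ≤ w ∧ (w : ℝ) ≤ y ∧ (x0 : ℝ) ≤ y ∧ ∀ x : ℕ, x0 ≤ x → ((x + w : ℕ) : ℝ) ≤ X →
      Iv μ s H x + 1 ≤ Iv μ s H (x + w)) (hKX : (K : ℝ) ≤ X)
    (hinc : ∀ x : ℕ, 1 ≤ x → x ≤ K → Iv μ s H x ≤ y * x)
    (htail : ∀ x : ℕ, x ≤ K → (law μ).real {η | y * E < |V μ s η (0, (x : ℤ)) H - V μ s η 0 H|} ≤ 1 / 2 ∧
      ∫ η, (if |V μ s η (0, (x : ℤ)) H - V μ s η 0 H| ≤ y * E then 0 else
        (V μ s η (0, (x : ℤ)) H - V μ s η 0 H) ^ 2) ∂(law μ) ≤ 1)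
    (hLM : ∀ j, j < K → ∀ q : ℕ → ℝ, (∀ i, i < j + 1 → 0 < q i) →
      LMx (law μ) (tri (A * E)) v (Rv μ s H) (j + 1) q (A / E + e₂ * NG (law μ) (Rv μ s H) (j + 1) q d)) :
    1 / (2 * y) ≤ v ∧ v ≤ 8 * y := by
  have hy0 : 0 < y := by linarith
  have hkR : (1 : ℝ) ≤ k := by exact_mod_cast hk
  have hk0 : (0 : ℝ) ≤ k := by linarith
  have hKR : (k : ℝ) ≤ K := by
    have hyy : (256 : ℝ) ≤ y ^ 2 := by
      calc (256 : ℝ) = 16 ^ 2 := by norm_num
        _ ≤ y ^ 2 := pow_le_pow_left₀ (by norm_num) hy 2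
    have h1 : 4 * 256 * (k : ℝ) ≤ 4 * y ^ 2 * k := mul_le_mul_of_nonneg_right (by linarith only [hyy]) hk0
    linarith only [h1, hKk, hy, hk0]
  have hkK : k ≤ K := by exact_mod_cast hKR
  have hτ : 0 < A * E := mul_pos hA0 hE0
  have hIt : y * E ≤ I * (A * E) := by
    have h1 : y / A * (A * E) ≤ I * (A * E) := mul_le_mul_of_nonneg_right hI0 hτ.le
    have h2 : y / A * (A * E) = y * E := by
      field_simp
    linarith
  have key := v_size (v := v) (τ := A * E) hτ I (fun j => pl_Rv (μ := μ) (s := s) hE H j) (mean_Rv H) (sq_Rv hE H) hd hkK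
    (e₁ := A / E) he₂ fun j _ hj q hq => hLM j hj q hq
  obtain ⟨S, hS⟩ : ∃ S : ℝ, S = ∑ j ∈ Finset.Ico k K, ∫ ω, trap (A * E) I (Bk (Rv μ s H) j ω) ∂(law μ) := ⟨_, rfl⟩
  rw [← hS, Iv_eq, Iv_eq] at key
  have ha : (2 * (I : ℝ) + 1) * (A * E) * (A / E) = (2 * I + 1) * A * A := by
    field_simp
  rw [ha] at key
  have ha1 : (2 * (I : ℝ) + 1) * A * A ≤ 5 / y ^ 3 := by
    have h1 : (2 * (I : ℝ) + 1) * A ≤ 2 * y + 3 * A := by
      have h2 : (2 * (I : ℝ) + 1) * A ≤ (2 * (y / A + 1) + 1) * A := mul_le_mul_of_nonneg_right (by linarith) hA0.le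
      have h3 : (2 * (y / A + 1) + 1) * A = 2 * y + 3 * A := by
        field_simp
        ring
      linarith
    have hA1 : A ≤ 1 := by
      have : 1 ≤ y ^ 4 := one_le_pow₀ (by linarith)
      exact (le_mul_of_one_le_right hA0.le this).trans hA
    have h4 : (2 * (I : ℝ) + 1) * A ≤ 5 * y := by linarith
    rw [le_div_iff₀ (by positivity)]
    calc (2 * (I : ℝ) + 1) * A * A * y ^ 3 ≤ 5 * y * A * y ^ 3 := by
          refine mul_le_mul_of_nonneg_right (mul_le_mul_of_nonneg_right h4 hA0.le) (by positivity)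
      _ = 5 * (A * y ^ 4) := by ring
      _ ≤ 5 := by linarith
  have ha0 : 0 ≤ (2 * (I : ℝ) + 1) * A * A := by positivity
  -- the sum of the weights
  have hS1 : S ≤ K := by
    rw [hS]
    calc ∑ j ∈ Finset.Ico k K, ∫ ω, trap (A * E) I (Bk (Rv μ s H) j ω) ∂(law μ) ≤ ∑ _j ∈ Finset.Ico k K, (1 : ℝ) :=
          Finset.sum_le_sum fun j _ => (trap_mean hτ I (fun j => pl_Rv (μ := μ) (s := s) hE H j) j).2
      _ = ((K - k : ℕ) : ℝ) := by simp
      _ ≤ K := by exact_mod_cast Nat.sub_le _ _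
  have hS0 : ((K : ℝ) - k) / 2 ≤ S := by
    rw [hS]
    calc ((K : ℝ) - k) / 2 = ∑ _j ∈ Finset.Ico k K, (1 / 2 : ℝ) := by
          rw [Finset.sum_const, Nat.card_Ico, nsmul_eq_mul, Nat.cast_sub hkK]
          ring
      _ ≤ _ := by
          refine Finset.sum_le_sum fun j hj => ?_
          refine le_trans ?_ (trap_mean hτ I (fun j => pl_Rv (μ := μ) (s := s) hE H j) j).1
          have h1 := (htail j (Finset.mem_Ico.1 hj).2.le).1
          have mS : MeasurableSet {η : Env | y * E < |V μ s η (0, (j : ℤ)) H - V μ s η 0 H|} :=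
            measurableSet_lt measurable_const ((measurable_V (0, (j : ℤ)) H).sub (measurable_V 0 H)).abs
          have h2 := probReal_compl_eq_one_sub (μ := law μ) mS
          have h3 : (law μ).real {η : Env | y * E < |V μ s η (0, (j : ℤ)) H - V μ s η 0 H|}ᶜ ≤
              (law μ).real {η | |Bk (Rv μ s H) j η| ≤ I * (A * E)} := by
            refine measureReal_mono fun η hη => ?_
            show |Bk (Rv μ s H) j η| ≤ I * (A * E)
            have h4 : ¬ (y * E < |V μ s η (0, (j : ℤ)) H - V μ s η 0 H|) := hη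
            rw [Bk_Rv]
            exact (not_lt.1 h4).trans hIt
          linarith
  obtain ⟨w, x0, hw, hwy, hxy, hst⟩ := hstep
  have hVK := climb_at (F := Iv μ s H) hw hwy hxy (fun x => integral_nonneg fun _ => sq_nonneg _) hst hKX
  have hK1 : 1 ≤ K := hk.trans hkK
  refine numV hy hk0 hKk hS0 hS1 ha0 ha1 ?_ ?_
  · have h1 := key.1
    have h2 := trunc_ge (μ := μ) (s := s) hE hIt (htail K le_rfl).2
    have h3 := hinc k hk hkK
    linarith
  · have h1 := key.2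
    have h3 := hinc K hK1 le_rfl
    linarith

open Pool.Agent.W_7d29a1_HZ (wd' EE')

/-- **The size of the variance.** At the scale `n` the level identities for ONE polynomial horizon `H`, `n ≤ H ≤ n ^ p`, no force and
windows of at most `wd n` sites force `n ^ (- δ) ≤ v ≤ n ^ δ`; `v` is any real number and the factor `e₂` of the near term is arbitrary. -/
theorem vn54 {c₀ C : ℝ} {n₀ : ℕ} (h : In μ s c₀ C n₀) (hSt : StepV μ s) (hIn : IncV μ s) (hTa : TailV μ s) {c δ e p : ℝ}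
    (hc : 0 < c) (hδ : 0 < δ) (he : 0 < e) (he1 : e ≤ 1 / 32) (hp : 1 ≤ p) :
    ∀ᶠ n : ℕ in atTop, ∀ H : ℕ, n ≤ H → (H : ℝ) ≤ (n : ℝ) ^ p → ∀ v e₂ : ℝ, 0 ≤ e₂ →
      (∀ (k : ℕ) (q : ℕ → ℝ), 1 ≤ k → (k : ℝ) ≤ wd μ s n → (∀ j, j < k → 0 < q j) →
        LMx (law μ) (tri ((n : ℝ) ^ (-c) * EE μ s n)) v (Rv μ s H) k q
          ((n : ℝ) ^ (-c) / EE μ s n + e₂ * NG (law μ) (Rv μ s H) k q ⌈(n : ℝ) ^ e⌉₊)) →
      (n : ℝ) ^ (-δ) ≤ v ∧ v ≤ (n : ℝ) ^ δ := by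
  obtain ⟨η, hη⟩ : ∃ η : ℝ, η = min (min (δ / 2) (c / 4)) (1 / 64) := ⟨_, rfl⟩
  have hη0 : 0 < η := by rw [hη]; positivity
  have hηδ : η ≤ δ / 2 := by rw [hη]; exact (min_le_left _ _).trans (min_le_left _ _)
  have hηc : η ≤ c / 4 := by rw [hη]; exact (min_le_left _ _).trans (min_le_right _ _)
  have hη1 : η ≤ 1 / 64 := by rw [hη]; exact min_le_right _ _
  have hp0 : 0 < p := by linarith
  have hε : 0 < η / p := by positivity
  obtain ⟨a, K₀, ha, ha1, hK₀, hwd⟩ := Pool.Agent.W_7d29a1_HZ.Z96.wd_all96 h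
  obtain ⟨n₁, hn₁⟩ := Pool.Agent.W_7d29a1_HZ.Z96.wd_eq96 h
  obtain ⟨n₂, hn₂⟩ := hSt (η / p) hε
  obtain ⟨n₃, hn₃⟩ := hIn (η / p) hε
  obtain ⟨n₄, hn₄⟩ := hTa η hη0 p hp
  have hev : ∀ (e : ℝ), 0 < e → ∀ B : ℝ, ∀ᶠ n : ℕ in atTop, B ≤ (n : ℝ) ^ e := fun e he B =>
    ((tendsto_rpow_atTop he).comp tendsto_natCast_atTop_atTop).eventually_ge_atTop B
  filter_upwards [hev η hη0 (16 + K₀ + K₀ * max 1 (wd μ s 1)), hev (5 / 32) (by norm_num) 37, eventually_ge_atTop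
    (max (max n₁ n₂) (max n₃ (max n₄ 1)))] with n g1 g2 g3 H hnH hHp v e₂ he₂ hLM
  have gn₁ : n₁ ≤ n := ((le_max_left _ _).trans (le_max_left _ _)).trans g3
  have gn₂ : n₂ ≤ n := ((le_max_right _ _).trans (le_max_left _ _)).trans g3
  have gn₃ : n₃ ≤ n := ((le_max_left _ _).trans (le_max_right _ _)).trans g3
  have gn₄ : n₄ ≤ n := (((le_max_left _ _).trans (le_max_right _ _)).trans (le_max_right _ _)).trans g3
  have gn : 1 ≤ n := (((le_max_right _ _).trans (le_max_right _ _)).trans (le_max_right _ _)).trans g3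
  have hnR : (1 : ℝ) ≤ n := by exact_mod_cast gn
  have hn0 : (0 : ℝ) < n := by linarith
  have hHR : (n : ℝ) ≤ H := by exact_mod_cast hnH
  have hH0 : (0 : ℝ) < H := by linarith
  obtain ⟨y, hy⟩ : ∃ y : ℝ, y = (n : ℝ) ^ η := ⟨_, rfl⟩
  rw [← hy] at g1
  have hw1 : 1 ≤ max 1 (wd μ s 1) := le_max_left _ _
  have hKw : 0 ≤ K₀ * max 1 (wd μ s 1) := by positivity
  have hy16 : 16 ≤ y := by linarith
  have hyK : K₀ ≤ y := by linarith
  have hyw : K₀ * max 1 (wd μ s 1) ≤ y := by linarith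
  have hy0 : 0 < y := by linarith
  have hHε : (H : ℝ) ^ (η / p) ≤ y := by
    calc (H : ℝ) ^ (η / p) ≤ ((n : ℝ) ^ p) ^ (η / p) := Real.rpow_le_rpow hH0.le hHp hε.le
      _ = y := by
        rw [← Real.rpow_mul hn0.le, hy]
        congr 1
        field_simp
  have hHε' : 1 / y ≤ (H : ℝ) ^ (-(η / p)) := by
    rw [Real.rpow_neg hH0.le, one_div]
    exact inv_anti₀ (Real.rpow_pos_of_pos hH0 _) hHε
  obtain ⟨hwn, -, hwn4⟩ := hn₁ n gn₁
  obtain ⟨hwH, -, -⟩ := hn₁ H (gn₁.trans hnH)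
  have hE0 : 0 < EE μ s n := zero_lt_one.trans_le (Pool.Agent.W_7d29a1_H.one_le_EE (μ := μ) (s := s) n)
  have hwn0 : 0 < wd μ s n := (Real.rpow_pos_of_pos hn0 _).trans_le hwn4
  -- the widths
  have hwnH : wd μ s n / K₀ ≤ wd μ s H := by
    have h1 := (hwd n H gn hnH).2.1
    rw [hwn, hwH] at h1
    have h2 : 1 ≤ ((H : ℝ) / n) ^ a := Real.one_le_rpow ((one_le_div hn0).2 hHR) ha.le
    have hK00 : 0 < K₀ := by linarith
    calc wd μ s n / K₀ = K₀⁻¹ * 1 * wd μ s n := by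
          field_simp
      _ ≤ K₀⁻¹ * ((H : ℝ) / n) ^ a * wd μ s n := by
          refine mul_le_mul_of_nonneg_right (mul_le_mul_of_nonneg_left h2 (by positivity)) hwn0.le
      _ ≤ wd μ s H := h1
  obtain ⟨K, hK⟩ : ∃ K : ℕ, K = ⌊wd μ s n / y ^ 2⌋₊ := ⟨_, rfl⟩
  have hKu : (K : ℝ) ≤ wd μ s n / y ^ 2 := by
    rw [hK]
    exact Nat.floor_le (by positivity)
  have hKl : wd μ s n / y ^ 2 - 1 ≤ K := by
    rw [hK]
    linarith [Nat.lt_floor_add_one (wd μ s n / y ^ 2)]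
  have hy2 : y ^ 2 ≤ (n : ℝ) ^ (1 / 32 : ℝ) := by
    rw [hy, ← Real.rpow_natCast, ← Real.rpow_mul hn0.le]
    exact Real.rpow_le_rpow_of_exponent_le hnR (by push_cast; linarith)
  have hy21 : 1 ≤ y ^ 2 := one_le_pow₀ (by linarith)
  have hKw2 : (K : ℝ) ≤ wd μ s n := hKu.trans (div_le_self hwn0.le hy21)
  have hd1 : (1 : ℝ) ≤ (n : ℝ) ^ e := Real.one_le_rpow hnR he.le
  have hk : 1 ≤ ⌈(n : ℝ) ^ e⌉₊ := Nat.one_le_ceil_iff.2 (by linarith)
  have hku : ((⌈(n : ℝ) ^ e⌉₊ : ℕ) : ℝ) ≤ 2 * (n : ℝ) ^ (1 / 32 : ℝ) := by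
    have h1 := Nat.ceil_lt_add_one (show (0 : ℝ) ≤ (n : ℝ) ^ e by linarith)
    have h2 : (n : ℝ) ^ e ≤ (n : ℝ) ^ (1 / 32 : ℝ) := Real.rpow_le_rpow_of_exponent_le hnR he1
    linarith
  have hKk : 28 * y + 4 * y ^ 2 * (⌈(n : ℝ) ^ e⌉₊ : ℕ) ≤ K := by
    obtain ⟨z, hz⟩ : ∃ z : ℝ, z = (n : ℝ) ^ (1 / 32 : ℝ) := ⟨_, rfl⟩
    have hz1 : 1 ≤ z := by rw [hz]; exact Real.one_le_rpow hnR (by norm_num)
    have hz5 : (n : ℝ) ^ (5 / 32 : ℝ) = z ^ 5 := by
      rw [hz, ← Real.rpow_natCast, ← Real.rpow_mul hn0.le]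
      norm_num
    have hz8 : (n : ℝ) ^ (1 / 4 : ℝ) = z ^ 8 := by
      rw [hz, ← Real.rpow_natCast, ← Real.rpow_mul hn0.le]
      norm_num
    rw [hz5] at g2
    rw [hz8] at hwn4
    rw [← hz] at hy2 hku
    have hyz : y ≤ z := (le_self_pow₀ (by linarith only [hy16]) two_ne_zero).trans hy2
    have h1 : z ^ 7 ≤ wd μ s n / y ^ 2 := by
      rw [le_div_iff₀ (by positivity)]
      calc z ^ 7 * y ^ 2 ≤ z ^ 7 * z := mul_le_mul_of_nonneg_left hy2 (by positivity)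
        _ = z ^ 8 := by ring
        _ ≤ wd μ s n := hwn4
    have h2 : 37 * z ^ 2 ≤ z ^ 7 := by
      calc 37 * z ^ 2 ≤ z ^ 5 * z ^ 2 := mul_le_mul_of_nonneg_right g2 (by positivity)
        _ = z ^ 7 := by ring
    have h3 : 4 * y ^ 2 * ((⌈(n : ℝ) ^ e⌉₊ : ℕ) : ℝ) ≤ 4 * z * (2 * z) :=
      mul_le_mul (by linarith) hku (Nat.cast_nonneg _) (by positivity)
    have h4 : z ≤ z ^ 2 := le_self_pow₀ hz1 two_ne_zero
    have h5 : 1 ≤ z ^ 2 := one_le_pow₀ hz1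
    linarith only [h1, hKl, h2, h3, hyz, h4, h5]
  have hKX : (K : ℝ) ≤ (H : ℝ) ^ (-(η / p)) * wd μ s H := by
    calc (K : ℝ) ≤ wd μ s n / y ^ 2 := hKu
      _ ≤ 1 / y * (wd μ s n / K₀) := by
          rw [one_div_mul_eq_div, div_div]
          refine div_le_div_of_nonneg_left hwn0.le (by positivity) ?_
          rw [sq]
          exact mul_le_mul_of_nonneg_right hyK hy0.le
      _ ≤ (H : ℝ) ^ (-(η / p)) * wd μ s H := mul_le_mul hHε' hwnH (by positivity) (by positivity)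
  have hKn : K ≤ n := by
    have h1 : max 1 (wd μ s n) ≤ K₀ * ((n : ℝ) / (1 : ℕ)) ^ (1 - a) * max 1 (wd μ s 1) := (hwd 1 n le_rfl gn).2.2
    rw [Nat.cast_one, div_one, hwn] at h1
    have h2 : (n : ℝ) ^ (1 - a) ≤ n := by
      calc (n : ℝ) ^ (1 - a) ≤ (n : ℝ) ^ (1 : ℝ) := Real.rpow_le_rpow_of_exponent_le hnR (by linarith)
        _ = n := Real.rpow_one _
    have h3 : wd μ s n ≤ y ^ 2 * n := by
      calc wd μ s n ≤ K₀ * max 1 (wd μ s 1) * (n : ℝ) ^ (1 - a) := by linarith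
        _ ≤ y * n := mul_le_mul hyw h2 (by positivity) hy0.le
        _ ≤ y ^ 2 * n := mul_le_mul_of_nonneg_right (le_self_pow₀ (by linarith only [hy16]) two_ne_zero) hn0.le
    have h4 : (K : ℝ) ≤ n := by
      refine hKu.trans ?_
      rw [div_le_iff₀ (by positivity)]
      linarith
    exact_mod_cast h4
  have hA0 : 0 < (n : ℝ) ^ (-c) := Real.rpow_pos_of_pos hn0 _
  have hAy : (n : ℝ) ^ (-c) * y ^ 4 ≤ 1 := by
    rw [hy, ← Real.rpow_natCast, ← Real.rpow_mul hn0.le, ← Real.rpow_add hn0]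
    refine Real.rpow_le_one_of_one_le_of_nonpos hnR ?_
    push_cast
    linarith
  obtain ⟨w, x0, hw, hwH', hx0H, hst⟩ := hn₂ H (gn₂.trans hnH)
  have key := v_scale (μ := μ) (s := s) h.em (H := H) (k := ⌈(n : ℝ) ^ e⌉₊) (K := K) (d := ⌈(n : ℝ) ^ e⌉₊)
    (I := ⌈y / (n : ℝ) ^ (-c)⌉₊) (y := y) (A := (n : ℝ) ^ (-c)) (E := EE μ s n) (v := v) (e₂ := e₂)
    (X := (H : ℝ) ^ (-(η / p)) * wd μ s H) hy16 hE0 hA0 hAy (Nat.le_ceil _)
    (Nat.ceil_lt_add_one (by positivity)).le le_rfl hk hKk he₂ ⟨w, x0, hw, hwH'.trans hHε, hx0H.trans hHε, hst⟩ hKX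
    (fun x hx hxK => ?_) (fun x hxK => ?_) (fun j hj q hq => ?_)
  · have hyδ : y ^ 2 ≤ (n : ℝ) ^ δ := by
      rw [hy, ← Real.rpow_natCast, ← Real.rpow_mul hn0.le]
      exact Real.rpow_le_rpow_of_exponent_le hnR (by push_cast; linarith)
    have hy8 : 16 * y ≤ y ^ 2 := by
      rw [sq]
      exact mul_le_mul_of_nonneg_right hy16 hy0.le
    constructor
    · refine le_trans ?_ key.1
      rw [Real.rpow_neg hn0.le, ← one_div]
      refine one_div_le_one_div_of_le (by positivity) ?_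
      linarith only [hy8, hyδ, hy0]
    · refine key.2.trans ?_
      linarith only [hy8, hyδ, hy0]
  · have h1 := hn₃ H (gn₃.trans hnH) x hx ((hxK.trans hKn).trans hnH)
    exact h1.trans (mul_le_mul_of_nonneg_right hHε (Nat.cast_nonneg _))
  · have hxw : (x : ℝ) ≤ wd μ s n := by
      have : (x : ℝ) ≤ K := by exact_mod_cast hxK
      exact this.trans hKw2
    rw [hy]
    exact hn₄ n gn₄ H hnH hHp x hxw
  · have hjw : ((j + 1 : ℕ) : ℝ) ≤ wd μ s n := by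
      have : ((j + 1 : ℕ) : ℝ) ≤ K := by exact_mod_cast hj
      exact this.trans hKw2
    exact hLM (j + 1) q (by omega) hjw hq

end model

end

end Pool.Agent.W_7d29a1_C1.H54
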