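import Pool.Agent.W_7d29a1_HX.XG_Cross
import Pool.Agent.W_7d29a1_HR.TailsD
import Pool.Agent.W_7d29a1_HL.Hsl

/-!
MP_7d29a1_pr, TRACK C1: THE WALL, part A. Decreasing events which depend on finitely many sites (finite intersections,
shifts), the event of the tilted lucks, confined masses cut at a row, the event `WA` of a wall. (helper66)
-/

set_option autoImplicit false

namespace Pool.Agent.W_7d29a1_C1.Wall66

open MeasureTheory ProbabilityTheory Filter Topology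
open Pool.Agent.W_7d29a1_F Pool.Agent.W_7d29a1_h4g Pool.Agent.W_7d29a1_H Pool.Agent.W_7d29a1_HS Pool.Agent.W_7d29a1_HL
open Pool.Agent.W_7d29a1_HR (Dec Fin' harris_dec V_mono_env cS_mono_env cS_add_le)
open Pool.Agent.W_7d29a1_L (Mh T kap Bx mem_Bx Mh_nonneg le_Mh Mh_le)
open Pool.Agent.W_7d29a1_h48 (WR_mono_env)

noncomputable section

variable {μ : Measure ℝ} [IsProbabilityMeasure μ] {s : ℝ}

/-- A finite family of good events. -/
structure Gd (A : Set Env) : Prop where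
  m : MeasurableSet A
  d : Dec A
  f : Fin' A

theorem Gd.inter {A B : Set Env} (hA : Gd A) (hB : Gd B) : Gd (A ∩ B) := by
  classical
  refine ⟨hA.m.inter hB.m, hA.d.inter hB.d, ?_⟩
  obtain ⟨D, hD⟩ := hA.f
  obtain ⟨D', hD'⟩ := hB.f
  refine ⟨D ∪ D', fun η η' hh => ?_⟩
  have h1 := hD η η' fun p hp => hh p (Finset.mem_union_left _ hp)
  have h2 := hD' η η' fun p hp => hh p (Finset.mem_union_right _ hp)
  exact and_congr h1 h2

theorem Gd.univ : Gd (Set.univ : Set Env) :=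
  ⟨MeasurableSet.univ, fun _ _ _ _ => trivial, ⟨∅, fun _ _ _ => Iff.rfl⟩⟩

theorem Gd.biInter {ι : Type*} (I : Finset ι) {A : ι → Set Env} (hA : ∀ i ∈ I, Gd (A i)) : Gd (⋂ i ∈ I, A i) := by
  classical
  induction I using Finset.induction_on with
  | empty => simpa using Gd.univ
  | insert a I ha ih =>
    rw [Finset.set_biInter_insert]
    exact (hA a (Finset.mem_insert_self _ _)).inter (ih fun i hi => hA i (Finset.mem_insert_of_mem hi))

theorem Gd.sh {A : Set Env} (hA : Gd A) (a : Pt) : Gd {η : Env | sh a η ∈ A} := by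
  classical
  refine ⟨?_, fun η η' h h1 => hA.d _ _ (fun p => h (p + a)) h1, ?_⟩
  · have hs : Measurable fun η : Env => Pool.Agent.W_7d29a1_F.sh a η := measurable_pi_lambda _ fun p => measurable_pi_apply (p + a)
    exact hs hA.m
  · obtain ⟨D, hD⟩ := hA.f
    refine ⟨D.image fun p => p + a, fun η η' hh => ?_⟩
    exact hD _ _ fun p hp => hh (p + a) (Finset.mem_image_of_mem _ hp)

/-- Finitely many decreasing events are positively correlated. -/
theorem harris_fin {ι : Type*} (I : Finset ι) {A : ι → Set Env} {p : ℝ} (hp : 0 ≤ p) (hA : ∀ i ∈ I, Gd (A i))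
    (hP : ∀ i ∈ I, p ≤ (law μ).real (A i)) : p ^ I.card ≤ (law μ).real (⋂ i ∈ I, A i) := by
  classical
  induction I using Finset.induction_on with
  | empty => simp
  | insert a I ha ih =>
    have hI := Gd.biInter I fun i hi => hA i (Finset.mem_insert_of_mem hi)
    have ha' := hA a (Finset.mem_insert_self _ _)
    have h1 := ih (fun i hi => hA i (Finset.mem_insert_of_mem hi)) fun i hi => hP i (Finset.mem_insert_of_mem hi)
    have h2 := harris_dec (μ := μ) ha'.m hI.m ha'.d hI.d hI.f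
    rw [Finset.set_biInter_insert, Finset.card_insert_of_notMem ha, pow_succ, mul_comm]
    refine le_trans ?_ h2
    exact mul_le_mul (hP a (Finset.mem_insert_self _ _)) h1 (pow_nonneg hp _) measureReal_nonneg

theorem harris_two {A B : Set Env} (hA : Gd A) (hB : Gd B) :
    (law μ).real A * (law μ).real B ≤ (law μ).real (A ∩ B) := harris_dec (μ := μ) hA.m hB.m hA.d hB.d hB.f

/-! ### The event of the tilted lucks -/

theorem Mh_mono_env {v h w z : ℝ} {n : ℕ} {η η' : Env} (hh : ∀ p, η p ≤ η' p) :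
    Mh μ s v h w z n η ≤ Mh μ s v h w z n η' := by
  refine Mh_le η (Mh_nonneg η') fun q hq => ?_
  refine le_trans ?_ (le_Mh (μ := μ) (s := s) (v := v) (h := h) η' hq)
  unfold T
  have := V_mono_env (μ := μ) (s := s + h) hh ((q.1.1 : ℤ), q.1.2) q.2
  linarith

theorem Mh_fin (v h w z : ℝ) (n : ℕ) : ∃ D : Finset Pt, ∀ η η' : Env, (∀ p ∈ D, η p = η' p) →
    Mh μ s v h w z n η = Mh μ s v h w z n η' := by
  classical
  refine ⟨(Bx v w z n).biUnion fun q => Finset.Icc (q.1.1 : ℤ) (q.1.1 + q.2) ×ˢ Finset.Icc q.1.2 (q.1.2 + q.2),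
    fun η η' hη => ?_⟩
  unfold Mh
  refine Finset.fold_congr fun q hq => ?_
  unfold T
  congr 1
  refine V_dep (μ := μ) (s := s + h) _ _ fun p hp => hη p ?_
  obtain ⟨h1, h2, h3, h4⟩ := hp
  simp only at h1 h2 h3 h4
  refine Finset.mem_biUnion.2 ⟨q, hq, ?_⟩
  rw [Finset.mem_product, Finset.mem_Icc, Finset.mem_Icc]
  omega

theorem XC_gd (h : ℝ) (d K : ℕ) (b : ℝ) (a : Pt) : Gd (Pool.Agent.W_7d29a1_HX.XG.XC μ s h d K b a) := by
  classical
  refine ⟨Pool.Agent.W_7d29a1_HX.XG.XC_meas h d K b a, fun η η' hh h1 k hk => ?_, ?_⟩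
  · exact (Mh_mono_env (fun p => hh (p + a))).trans (h1 k hk)
  · have h1 : ∀ k : ℕ, ∃ D : Finset Pt, ∀ η η' : Env, (∀ p ∈ D, η p = η' p) →
        Mh μ s (sl μ s) h (wd μ s d) (((k : ℝ) - (K + 1)) * wd μ s d) (4 * d) η =
        Mh μ s (sl μ s) h (wd μ s d) (((k : ℝ) - (K + 1)) * wd μ s d) (4 * d) η' := fun k => Mh_fin _ _ _ _ _
    choose D hD using h1
    refine ⟨(Finset.range (2 * K + 1)).biUnion fun k => (D k).image fun p => p + a, fun η η' hη => ?_⟩
    have h2 : ∀ k ∈ Finset.range (2 * K + 1),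
        Mh μ s (sl μ s) h (wd μ s d) (((k : ℝ) - (K + 1)) * wd μ s d) (4 * d) (sh a η) =
        Mh μ s (sl μ s) h (wd μ s d) (((k : ℝ) - (K + 1)) * wd μ s d) (4 * d) (sh a η') := by
      intro k hk
      refine hD k _ _ fun p hp => hη (p + a) ?_
      exact Finset.mem_biUnion.2 ⟨k, hk, Finset.mem_image_of_mem _ hp⟩
    constructor
    · intro h3 k hk
      rw [← h2 k hk]
      exact h3 k hk
    · intro h3 k hk
      rw [h2 k hk]
      exact h3 k hk

/-! ### Confined masses -/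

theorem cS_mono_set {S S' : Set Pt} (h : S ⊆ S') (η : Env) (a : Pt) (l : ℕ) : cS μ s S η a l ≤ cS μ s S' η a l :=
  Finset.sum_le_sum fun y _ => WR_mono' h η a l y

/-- A confined mass, cut at the row `t + m`. -/
theorem cS_cut {S : Set Pt} (η : Env) {t x : ℤ} {m n : ℕ} (hm : 1 ≤ m) {A B : ℝ}
    (hA : cS μ s S η (t, x) m ≤ Real.exp A) (hn : ∀ u : ℤ, ((t + m, u) : Pt) ∈ S → cS μ s S η (t + m, u) n ≤ Real.exp B) :
    cS μ s S η (t, x) (m + n) ≤ Real.exp (A + B) := by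
  refine (cS_add_le S η t x m n).trans ?_
  have h1 : ∀ u ∈ Finset.Icc x (x + m), WR μ s S η (t, x) m (u - x) * cS μ s S η (t + m, u) n ≤
      WR μ s S η (t, x) m (u - x) * Real.exp B := by
    intro u _
    by_cases hu : ((t + m, u) : Pt) ∈ S
    · exact mul_le_mul_of_nonneg_left (hn u hu) (WR_nonneg _ _ _ _ _)
    · rw [WR_last_off η (t, x) hm (by
        have : ((t : ℤ) + m, x + (u - x)) = ((t + m, u) : Pt) := by
          ext
          · rfl
          · show x + (u - x) = u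
            ring
        show ((t : ℤ) + m, x + (u - x)) ∉ S
        rw [this]
        exact hu), zero_mul, zero_mul]
  refine (Finset.sum_le_sum h1).trans ?_
  rw [← Finset.sum_mul]
  have h3 : ∑ u ∈ Finset.Icc x (x + m), WR μ s S η (t, x) m (u - x) = cS μ s S η (t, x) m := by
    unfold cS
    refine Finset.sum_nbij' (fun u => u - x) (fun y => y + x) ?_ ?_ ?_ ?_ ?_
    · intro u hu
      rw [Finset.mem_Icc] at hu ⊢
      omega
    · intro y hy
      rw [Finset.mem_Icc] at hy ⊢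
      omega
    · intro u _
      ring
    · intro y _
      ring
    · intro u _
      rfl
  rw [h3, Real.exp_add]
  exact mul_le_mul_of_nonneg_right hA (Real.exp_pos _).le

/-- A confined weight vanishes when none of the two first steps is in the region. -/
theorem WR_first_off {S : Set Pt} (η : Env) (t x : ℤ) {n : ℕ} (hn : 1 ≤ n) (h0 : ((t + 1, x) : Pt) ∉ S)
    (h1 : ((t + 1, x + 1) : Pt) ∉ S) (y : ℤ) : WR μ s S η (t, x) n y = 0 := by
  obtain ⟨k, rfl⟩ : ∃ k, n = 1 + k := ⟨n - 1, by omega⟩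
  have h2 := WR_add' (μ := μ) (s := s) S η t x 1 k (y + x) (A := x) (B := x + (1 : ℕ)) le_rfl le_rfl
  rw [add_sub_cancel_right] at h2
  rw [h2]
  refine Finset.sum_eq_zero fun u hu => ?_
  rw [Finset.mem_Icc] at hu
  have h3 : WR μ s S η (t, x) 1 (u - x) = 0 := by
    refine WR_last_off η (t, x) le_rfl ?_
    show ((t + ((1 : ℕ) : ℤ), x + (u - x)) : Pt) ∉ S
    have hu2 : u = x ∨ u = x + 1 := by
      have := hu.2
      push_cast at this
      omega
    rcases hu2 with h | h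
    · have e : ((t + ((1 : ℕ) : ℤ), x + (u - x)) : Pt) = (t + 1, x) := by rw [h]; ext <;> simp
      rw [e]
      exact h0
    · have e : ((t + ((1 : ℕ) : ℤ), x + (u - x)) : Pt) = (t + 1, x + 1) := by rw [h]; ext <;> simp
      rw [e]
      exact h1
  rw [h3, zero_mul]

/-! ### The event of a wall -/

/-- THE WALL `S` over the rows `a.1, ..., a.1 + N`: the confined masses are at most `exp B`, those over at least `τ` rows
at most `exp (- A)`, and those with displacements off the slope by at least `δ` at most `exp (- A)`. -/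
def WA (μ : Measure ℝ) (s : ℝ) (S : Set Pt) (a : Pt) (N τ : ℕ) (δ A B : ℝ) : Set Env :=
  {η | ∀ (q : Pt) (j : ℕ), a.1 ≤ q.1 → q.1 + j ≤ a.1 + N → cS μ s S η q j ≤ Real.exp B ∧
    (τ ≤ j → cS μ s S η q j ≤ Real.exp (-A)) ∧
    ∀ F : Finset ℤ, (∀ y ∈ F, δ ≤ |(y : ℝ) - sl μ s * j|) → ∑ y ∈ F, WR μ s S η q j y ≤ Real.exp (-A)}

theorem WA_meas (S : Set Pt) (a : Pt) (N τ : ℕ) (δ A B : ℝ) : MeasurableSet (WA μ s S a N τ δ A B) := by
  have e : WA μ s S a N τ δ A B = ⋂ (q : Pt) (j : ℕ) (_ : a.1 ≤ q.1) (_ : q.1 + j ≤ a.1 + N),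
      ({η | cS μ s S η q j ≤ Real.exp B} ∩ ((⋂ (_ : τ ≤ j), {η | cS μ s S η q j ≤ Real.exp (-A)}) ∩
      ⋂ (F : Finset ℤ) (_ : ∀ y ∈ F, δ ≤ |(y : ℝ) - sl μ s * j|), {η | ∑ y ∈ F, WR μ s S η q j y ≤ Real.exp (-A)})) := by
    ext η
    simp only [Set.mem_iInter, Set.mem_inter_iff]
    exact Iff.rfl
  rw [e]
  refine MeasurableSet.iInter fun q => MeasurableSet.iInter fun j => MeasurableSet.iInter fun _ =>
    MeasurableSet.iInter fun _ => ?_
  refine (measurableSet_le (measurable_cS _ _ _) measurable_const).inter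
    ((MeasurableSet.iInter fun _ => measurableSet_le (measurable_cS _ _ _) measurable_const).inter
    (MeasurableSet.iInter fun F => MeasurableSet.iInter fun _ => ?_))
  exact measurableSet_le (Finset.measurable_sum _ fun y _ => measurable_WR' S q j y) measurable_const

theorem WA_dec (S : Set Pt) (a : Pt) (N τ : ℕ) (δ A B : ℝ) : Dec (WA μ s S a N τ δ A B) := by
  intro η η' hh h1 q j hq hj
  obtain ⟨k1, k2, k3⟩ := h1 q j hq hj
  refine ⟨(cS_mono_env S hh q j).trans k1, fun ht => (cS_mono_env S hh q j).trans (k2 ht), fun F hF => ?_⟩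
  exact (Finset.sum_le_sum fun y _ => WR_mono_env S hh q j y).trans (k3 F hF)

/-- The wall sees only the sites of the region in its rows. -/
theorem WA_dep (S : Set Pt) (a : Pt) (N τ : ℕ) (δ A B : ℝ) : ∀ η η' : Env,
    (∀ p ∈ S ∩ rows a.1 (a.1 + N), η p = η' p) → (η ∈ WA μ s S a N τ δ A B ↔ η' ∈ WA μ s S a N τ δ A B) := by
  have key : ∀ η η' : Env, (∀ p ∈ S ∩ rows a.1 (a.1 + N), η p = η' p) → η ∈ WA μ s S a N τ δ A B →
      η' ∈ WA μ s S a N τ δ A B := by
    intro η η' hh h1 q j hq hj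
    have h2 : ∀ y : ℤ, WR μ s S η' q j y = WR μ s S η q j y := by
      intro y
      refine WR_dep (μ := μ) (s := s) S q j y fun p hp => (hh p ?_).symm
      obtain ⟨⟨g1, g2, -, -, -, -⟩, g3⟩ := hp
      exact ⟨g3, by omega, by omega⟩
    have h3 : cS μ s S η' q j = cS μ s S η q j := Finset.sum_congr rfl fun y _ => h2 y
    obtain ⟨k1, k2, k3⟩ := h1 q j hq hj
    refine ⟨by rw [h3]; exact k1, fun ht => by rw [h3]; exact k2 ht, fun F hF => ?_⟩
    rw [Finset.sum_congr rfl fun y _ => h2 y]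
    exact k3 F hF
  intro η η' hh
  exact ⟨key η η' hh, key η' η fun p hp => (hh p hp).symm⟩

theorem WA_gd {S : Set Pt} {a a' : Pt} {r : ℝ} (hS : S ⊆ tb (sl μ s) a' r) (N τ : ℕ) (δ A B : ℝ) :
    Gd (WA μ s S a N τ δ A B) := by
  classical
  refine ⟨WA_meas S a N τ δ A B, WA_dec S a N τ δ A B, ?_⟩
  obtain ⟨L, hL⟩ : ∃ L : ℝ, L = |(a'.2 : ℝ)| + |r| + |sl μ s| * (|(a.1 : ℝ)| + N + |(a'.1 : ℝ)|) := ⟨_, rfl⟩
  refine ⟨Finset.Icc a.1 (a.1 + N) ×ˢ Finset.Icc (-⌈L⌉) ⌈L⌉, fun η η' hh => WA_dep S a N τ δ A B η η' fun p hp => hh p ?_⟩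
  obtain ⟨h1, h2, h3⟩ := hp
  have h4 : |((p.2 - a'.2 : ℤ) : ℝ) - sl μ s * ((p.1 - a'.1 : ℤ) : ℝ)| ≤ r := hS h1
  rw [Finset.mem_product, Finset.mem_Icc, Finset.mem_Icc]
  refine ⟨⟨h2.le, h3⟩, ?_⟩
  have h5 : |(p.2 : ℝ)| ≤ L := by
    have e : (p.2 : ℝ) = (((p.2 - a'.2 : ℤ) : ℝ) - sl μ s * ((p.1 - a'.1 : ℤ) : ℝ)) + a'.2 + sl μ s * ((p.1 : ℝ) - a'.1) := by
      push_cast
      ring
    have h6 : |(p.1 : ℝ) - a'.1| ≤ |(a.1 : ℝ)| + N + |(a'.1 : ℝ)| := by
      have g1 : (a.1 : ℝ) < p.1 := by exact_mod_cast h2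
      have g2 : (p.1 : ℝ) ≤ a.1 + N := by exact_mod_cast h3
      have g3 := abs_le.1 (le_refl |(a.1 : ℝ)|)
      have g4 := abs_le.1 (le_refl |(a'.1 : ℝ)|)
      have g5 : (0 : ℝ) ≤ N := Nat.cast_nonneg N
      rw [abs_le]
      constructor <;> linarith [g3.1, g3.2, g4.1, g4.2]
    have h7 : |sl μ s * ((p.1 : ℝ) - a'.1)| ≤ |sl μ s| * (|(a.1 : ℝ)| + N + |(a'.1 : ℝ)|) := by
      rw [abs_mul]
      exact mul_le_mul_of_nonneg_left h6 (abs_nonneg _)
    have h8 := abs_add_le (((p.2 - a'.2 : ℤ) : ℝ) - sl μ s * ((p.1 - a'.1 : ℤ) : ℝ) + a'.2) (sl μ s * ((p.1 : ℝ) - a'.1))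
    have h9 := abs_add_le (((p.2 - a'.2 : ℤ) : ℝ) - sl μ s * ((p.1 - a'.1 : ℤ) : ℝ)) (a'.2 : ℝ)
    rw [← e] at h8
    have h10 := h4.trans (le_abs_self r)
    rw [hL]
    linarith
  have h6 := abs_le.1 (h5.trans (Int.le_ceil L))
  constructor
  · have : ((-⌈L⌉ : ℤ) : ℝ) ≤ p.2 := by push_cast; exact h6.1
    exact_mod_cast this
  · exact_mod_cast h6.2

end

end Pool.Agent.W_7d29a1_C1.Wall66
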