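import Pool.Agent.W_7d29a1_C1.WallA66

/-!
MP_7d29a1_pr, TRACK C1: THE WALL, part B. The confined masses of the duration `d`, `n / M₀ ≤ d ≤ n`, in a box of the width of
the scale `n` are all at most `exp (- A EE n)` with positive probability, for all `A`. (helper66)
-/

set_option autoImplicit false

namespace Pool.Agent.W_7d29a1_C1.Wall66

open MeasureTheory ProbabilityTheory Filter Topology
open Pool.Agent.W_7d29a1_F Pool.Agent.W_7d29a1_h4g Pool.Agent.W_7d29a1_H Pool.Agent.W_7d29a1_HS Pool.Agent.W_7d29a1_HL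
open Pool.Agent.W_7d29a1_HR (Dec Fin' Dn Dn_meas Dn_dec Dn_fin Dn_iter cell_prob sm block_unit)
open Pool.Agent.W_7d29a1_HX.X (sub_pow)

noncomputable section

variable {μ : Measure ℝ} [IsProbabilityMeasure μ] {s c C : ℝ} {n₀ : ℕ}

theorem Dn_gd (ρ : ℝ) (N : ℕ) (Y : ℝ) : Gd (Dn μ s ρ N Y) := ⟨Dn_meas ρ N Y, Dn_dec ρ N Y, Dn_fin ρ N Y⟩

omit [IsProbabilityMeasure μ] in
theorem Dn_anti {ρ : ℝ} {N : ℕ} {Y Y' : ℝ} (h : Y ≤ Y') : Dn μ s ρ N Y' ⊆ Dn μ s ρ N Y := fun _ hη y hy =>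
  (hη y hy).trans (Real.exp_le_exp.2 (by linarith))

theorem rows_unlucky (h : In μ s c C n₀) {R : ℝ} (hR : 0 ≤ R) (A : ℝ) {M₀ : ℕ} (hM₀ : 1 ≤ M₀) :
    ∃ p : ℝ, 0 < p ∧ ∃ n₁ : ℕ, ∀ n d : ℕ, n₁ ≤ n → d ≤ n → n ≤ M₀ * d →
      p ≤ (law μ).real (Dn μ s (R * wd μ s n + 2) d (A * EE μ s n)) := by
  have hc0 := h.c0
  obtain ⟨κ, p, hκ, hp, hp1, J, n1, hcell⟩ := cell_prob h
  obtain ⟨B, θ₀, hB, hθ₀, hθ₁, n2, hsub⟩ := sub_pow h
  obtain ⟨n5, hwd⟩ := (tendsto_atTop.1 (wd_tendsto h) (2 / c)).exists_forall_of_atTop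
  obtain ⟨A', hA'⟩ : ∃ A' : ℝ, A' = max A 1 := ⟨_, rfl⟩
  have hA'1 : 1 ≤ A' := hA' ▸ le_max_right _ _
  have hAA' : A ≤ A' := hA' ▸ le_max_left _ _
  have hM₀r : (1 : ℝ) ≤ M₀ := by exact_mod_cast hM₀
  -- the number of the rows
  obtain ⟨K, hK⟩ : ∃ K : ℝ, K = κ / (2 * M₀) := ⟨_, rfl⟩
  have hK0 : 0 < K := by rw [hK]; positivity
  obtain ⟨M, hM2, hMs⟩ : ∃ M : ℕ, 2 ≤ M ∧ B * A' ≤ K * (2 * ((M₀ * M : ℕ) : ℝ)) ^ θ₀ := by
    have h1 : Tendsto (fun M : ℕ => K * (2 * ((M₀ * M : ℕ) : ℝ)) ^ θ₀) atTop atTop := by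
      refine Tendsto.const_mul_atTop hK0 ((tendsto_rpow_atTop hθ₀).comp ?_)
      refine Tendsto.const_mul_atTop (by norm_num) ?_
      refine tendsto_natCast_atTop_atTop.comp ?_
      exact tendsto_id.const_mul_atTop' (by omega)
    obtain ⟨M, h2, h3⟩ := ((h1.eventually_ge_atTop (B * A')).and (eventually_ge_atTop 2)).exists
    exact ⟨M, h3, h2⟩
  have hMr : (2 : ℝ) ≤ M := by exact_mod_cast hM2
  obtain ⟨k, hk⟩ : ∃ k : ℕ, M = k + 1 := ⟨M - 1, by omega⟩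
  obtain ⟨T, hT⟩ : ∃ T : ℕ, T = 2 ^ J * (n1 + n5 + 2) + n2 + 2 := ⟨_, rfl⟩
  have hJ1 : 1 ≤ 2 ^ J := Nat.one_le_two_pow
  obtain ⟨Q, hQ⟩ : ∃ Q : ℝ, Q = 16 * M₀ * M * 2 ^ J := ⟨_, rfl⟩
  have hQ0 : 0 < Q := by rw [hQ]; positivity
  obtain ⟨I, hI⟩ : ∃ I : ℕ, I = ⌈4 * R * Q / c + 5⌉₊ + 1 := ⟨_, rfl⟩
  have hIr : 4 * R * Q / c + 5 < I := by
    rw [hI]
    push_cast
    linarith [Nat.le_ceil (4 * R * Q / c + 5)]
  refine ⟨(p ^ I) ^ (k + 1), by positivity, M₀ * (2 * M * (T + 1)), fun n d hn hdn hnd => ?_⟩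
  have hd1 : 2 * M * (T + 1) ≤ d := by
    have h1 : M₀ * (2 * M * (T + 1)) ≤ M₀ * d := hn.trans hnd
    exact Nat.le_of_mul_le_mul_left h1 (by omega)
  obtain ⟨m', hm'⟩ : ∃ m' : ℕ, m' = d / (2 * M) := ⟨_, rfl⟩
  have hm'T : T + 1 ≤ m' := by
    rw [hm']
    refine (Nat.le_div_iff_mul_le (by omega)).2 ?_
    rw [mul_comm]
    exact hd1
  have h2M : 2 * M * m' ≤ d := by
    rw [hm']
    exact Nat.mul_div_le d (2 * M)
  have h2M' : d < 2 * M * (m' + 1) := by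
    rw [hm']
    exact Nat.lt_mul_div_succ d (by omega)
  obtain ⟨l, hl⟩ : ∃ l : ℕ, l = d - k * (2 * m') := ⟨_, rfl⟩
  have e1 : 2 * M * m' = k * (2 * m') + 2 * m' := by rw [hk]; ring
  have hkl : k * (2 * m') + l = d := by omega
  have hl1 : 2 * m' ≤ l := by omega
  -- the cells
  obtain ⟨r, hr⟩ : ∃ r : ℕ, r = m' / 2 ^ J := ⟨_, rfl⟩
  have hJr1 : 2 ^ J * r ≤ m' := by
    rw [hr]
    exact Nat.mul_div_le m' (2 ^ J)
  have hJr2 : m' < 2 ^ J * (r + 1) := by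
    rw [hr]
    exact Nat.lt_mul_div_succ m' (by omega)
  have hrn : n1 + n5 + 2 ≤ r := by
    rw [hr]
    refine (Nat.le_div_iff_mul_le (by omega)).2 ?_
    rw [mul_comm]
    omega
  have hwr : 2 ≤ c * wd μ s r := by
    have := hwd r (by omega)
    rw [div_le_iff₀ hc0] at this
    linarith
  obtain ⟨w, hw⟩ : ∃ w : ℕ, w = ⌊c * wd μ s r⌋₊ := ⟨_, rfl⟩
  have hw1 : (w : ℝ) ≤ c * wd μ s r := by rw [hw]; exact Nat.floor_le (by linarith)
  have hw2 : c * wd μ s r < w + 1 := by rw [hw]; exact Nat.lt_floor_add_one _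
  have hw4 : 1 ≤ w := by
    have : (0 : ℝ) < w := by linarith
    have : 0 < w := by exact_mod_cast this
    omega
  have hwpos : (1 : ℝ) ≤ w := by exact_mod_cast hw4
  have hmono := EE_mono (μ := μ) (s := s)
  have hcell' : ∀ t y0 : ℤ, ∀ L : ℕ, 2 * m' ≤ L →
      p ≤ (law μ).real {η | sm μ s η (Finset.Ico y0 (y0 + w)) t L ≤ -(κ * EE μ s (2 * m'))} := by
    intro t y0 L hL
    refine (hcell r L w (by omega) (by omega) hw4 hw1 t y0).trans (measureReal_mono (fun η hη => ?_) (measure_ne_top _ _))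
    rw [Set.mem_ofPred_eq] at hη ⊢
    have := mul_le_mul_of_nonneg_left (hmono hL) hκ.le
    linarith
  -- the width
  have hnm : n ≤ 2 * (M₀ * M) * (2 * m') := by
    have k1 : d ≤ 2 * M * (2 * m') := by
      have : 2 * M * (m' + 1) ≤ 2 * M * (2 * m') := Nat.mul_le_mul_left _ (by omega)
      omega
    have k2 : M₀ * d ≤ M₀ * (2 * M * (2 * m')) := Nat.mul_le_mul_left _ k1
    have k3 : M₀ * (2 * M * (2 * m')) = 2 * (M₀ * M) * (2 * m') := by ring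
    omega
  have hrn' : r ≤ n := by
    have : 1 * r ≤ 2 ^ J * r := Nat.mul_le_mul_right r hJ1
    have : 1 * m' ≤ 2 * M * m' := Nat.mul_le_mul_right m' (by omega)
    omega
  have hwn : wd μ s n ≤ Q * wd μ s r := by
    have k0 : m' ≤ 2 * (2 ^ J * r) := by
      have : 2 ^ J * (r + 1) ≤ 2 ^ J * (2 * r) := Nat.mul_le_mul_left _ (by omega)
      have : 2 ^ J * (2 * r) = 2 * (2 ^ J * r) := by ring
      omega
    have k2' : n ≤ 8 * (M₀ * M) * (2 ^ J * r) := by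
      have : 2 * (M₀ * M) * (2 * m') ≤ 2 * (M₀ * M) * (2 * (2 * (2 ^ J * r))) :=
        Nat.mul_le_mul_left _ (Nat.mul_le_mul_left _ k0)
      have e : 2 * (M₀ * M) * (2 * (2 * (2 ^ J * r))) = 8 * (M₀ * M) * (2 ^ J * r) := by ring
      omega
    have k1 : vA 1 μ s n ≤ 2 * vA 1 μ s r := vA_le_two h (show 1 ≤ r by omega) hrn'
    have k2 : (n : ℝ) ≤ 8 * (M₀ * M) * (2 ^ J * r) := by exact_mod_cast k2'
    have k3 := h.vA_nonneg r
    unfold wd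
    calc n * vA 1 μ s n ≤ (8 * (M₀ * M) * (2 ^ J * r)) * (2 * vA 1 μ s r) :=
          mul_le_mul k2 k1 (h.vA_nonneg n) (by positivity)
      _ = Q * (r * vA 1 μ s r) := by rw [hQ]; ring
  obtain ⟨ρ, hρ⟩ : ∃ ρ : ℝ, ρ = R * wd μ s n + 2 := ⟨_, rfl⟩
  have hIw : 2 * ⌊ρ⌋ + 1 < I * w := by
    have h1 : 2 * ρ + 1 < I * w := by
      have k1 : wd μ s r ≤ 2 / c * w := by
        rw [div_mul_eq_mul_div, le_div_iff₀ hc0]
        linarith
      have k2 : R * wd μ s n ≤ R * (Q * (2 / c * w)) :=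
        mul_le_mul_of_nonneg_left (hwn.trans (mul_le_mul_of_nonneg_left k1 hQ0.le)) hR
      have k3 : (4 * R * Q / c + 5) * w < I * w := mul_lt_mul_of_pos_right hIr (by linarith)
      have k4 : 2 * (R * (Q * (2 / c * w))) = 4 * R * Q / c * w := by ring
      rw [hρ]
      linarith
    have h2 : ((2 * ⌊ρ⌋ + 1 : ℤ) : ℝ) < ((I * w : ℤ) : ℝ) := by
      push_cast
      linarith [Int.floor_le ρ]
    exact_mod_cast h2
  have hDn := Dn_iter (μ := μ) (ρ := ρ) (κ := κ * EE μ s (2 * m')) (m := 2 * m') (l := l) (I := I) (by omega) hw4 hp.le hIw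
    (fun t y0 => hcell' t y0 (2 * m') le_rfl) (fun y0 => hcell' 0 y0 l hl1) k
  rw [hkl] at hDn
  rw [← hρ]
  refine hDn.trans (measureReal_mono (Dn_anti ?_) (measure_ne_top _ _))
  have hunit := block_unit (μ := μ) hB hθ₁ hsub (m := 2 * m') (n := n) (M := M₀ * M) (by omega) (by omega) (by omega)
    (by have := Nat.mul_le_mul hM₀ (show 1 ≤ M by omega); omega) hnm (K := K) (u := A') hMs (by linarith)
  have e3 : K * (2 * ((M₀ * M : ℕ) : ℝ)) * EE μ s (2 * m') = (k + 1) * (κ * EE μ s (2 * m')) := by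
    have : ((M₀ * M : ℕ) : ℝ) = M₀ * (k + 1) := by
      rw [hk]
      push_cast
      ring
    rw [this, hK]
    field_simp
  rw [e3] at hunit
  exact (mul_le_mul_of_nonneg_right hAA' (EE_pos n).le).trans hunit

end

end Pool.Agent.W_7d29a1_C1.Wall66
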