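import Pool.Agent.W_7d29a1_C1.WallB66

/-!
MP_7d29a1_pr, TRACK C1: THE WALL, part C: the deterministic part. (helper66)
-/

set_option autoImplicit false

namespace Pool.Agent.W_7d29a1_C1.Wall66

open MeasureTheory ProbabilityTheory Filter Topology
open Pool.Agent.W_7d29a1_F Pool.Agent.W_7d29a1_h4g Pool.Agent.W_7d29a1_H Pool.Agent.W_7d29a1_HS Pool.Agent.W_7d29a1_HL
open Pool.Agent.W_7d29a1_HR (Dec Fin' Dn So Sp mem_So mem_Sp cSo_sh So_zero)
open Pool.Agent.W_7d29a1_HX.XG (XC XC_use XC_prob cross cross_neg)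

noncomputable section

variable {μ : Measure ℝ} [IsProbabilityMeasure μ] {s c C : ℝ} {n₀ : ℕ}

/-- The start of a path which enters the region is near the region. -/
theorem near_or_zero (h : In μ s c C n₀) {S : Set Pt} {a : Pt} {r : ℝ} (hS : S ⊆ tb (sl μ s) a r) (η : Env) (q : Pt) {j : ℕ}
    (hj : 1 ≤ j) : |((q.2 : ℝ) - a.2) - sl μ s * ((q.1 : ℝ) - a.1)| ≤ r + 1 ∨ ∀ y : ℤ, WR μ s S η q j y = 0 := by
  have h0 := h.sl_pos
  have h1 := h.sl_lt
  by_cases hA : ((q.1 + 1, q.2) : Pt) ∈ S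
  · left
    have h2 : |((q.2 - a.2 : ℤ) : ℝ) - sl μ s * ((q.1 + 1 - a.1 : ℤ) : ℝ)| ≤ r := hS hA
    push_cast at h2
    rw [abs_le] at h2 ⊢
    constructor <;> nlinarith [h2.1, h2.2]
  · by_cases hB : ((q.1 + 1, q.2 + 1) : Pt) ∈ S
    · left
      have h2 : |((q.2 + 1 - a.2 : ℤ) : ℝ) - sl μ s * ((q.1 + 1 - a.1 : ℤ) : ℝ)| ≤ r := hS hB
      push_cast at h2
      rw [abs_le] at h2 ⊢
      constructor <;> nlinarith [h2.1, h2.2]
    · right
      exact fun y => WR_first_off η q.1 q.2 hj hA hB y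

omit [IsProbabilityMeasure μ] in
theorem cS_zero (S : Set Pt) (η : Env) (q : Pt) : cS μ s S η q 0 = 1 := by
  unfold cS
  have e : Finset.Icc (0 : ℤ) ((0 : ℕ) : ℤ) = {0} := by simp
  rw [e, Finset.sum_singleton]
  unfold WR Zr
  simp

/-- The confined masses in the strip around `a` from the row `a.1`, from the event at `0`. -/
theorem Dn_use {S : Set Pt} {a : Pt} {ρ Y : ℝ} {N : ℕ} {η : Env} (hη : sh a η ∈ Dn μ s ρ N Y)
    (hS : ∀ p ∈ S, |((p.2 : ℝ) - a.2) - sl μ s * ((p.1 : ℝ) - a.1)| ≤ ρ) {u : ℤ} (hu : |(u : ℝ) - a.2| ≤ ρ) :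
    cS μ s S η (a.1, u) N ≤ Real.exp (-Y) := by
  have h1 : u - a.2 ∈ Finset.Icc (-⌊ρ⌋) ⌊ρ⌋ := by
    rw [abs_le] at hu
    rw [Finset.mem_Icc]
    constructor
    · have h3 : -(u - a.2 : ℤ) ≤ ⌊ρ⌋ := Int.le_floor.2 (by push_cast; linarith [hu.1])
      omega
    · exact Int.le_floor.2 (by push_cast; linarith [hu.2])
  have h2 := hη (u - a.2) h1
  refine le_trans ?_ h2
  unfold cS
  refine Finset.sum_le_sum fun y _ => ?_
  have h3 := WR_sh (μ := μ) (s := s) {p : Pt | p - a ∈ Sp μ s ρ} η ((0 : ℤ), u - a.2) a N y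
  have e1 : {p : Pt | p + a ∈ {p : Pt | p - a ∈ Sp μ s ρ}} = Sp μ s ρ := by
    ext p
    simp
  rw [e1] at h3
  have e2 : (((0 : ℤ), u - a.2) : Pt) + a = (a.1, u) := by
    ext
    · simp
    · simp
  rw [e2] at h3
  rw [h3]
  refine WR_mono' (fun p hp => ?_) η _ _ _
  rw [Set.mem_ofPred_eq, mem_Sp]
  have h4 := hS p hp
  have e3 : (((p - a).2 : ℤ) : ℝ) = (p.2 : ℝ) - a.2 := by
    show ((p.2 - a.2 : ℤ) : ℝ) = _
    push_cast
    ring
  have e4 : (((p - a).1 : ℤ) : ℝ) = (p.1 : ℝ) - a.1 := by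
    show ((p.1 - a.1 : ℤ) : ℝ) = _
    push_cast
    ring
  rw [e3, e4]
  exact h4

/-! ### The deterministic part -/

/-- The frame of the wall: base rows `a.1 + i d`, columns around the line. -/
structure Fr (μ : Measure ℝ) (s : ℝ) (a : Pt) (n K d N₀ G K₁ : ℕ) (w₁ : ℤ) (R B₀ Y Q θ : ℝ) (η : Env) : Prop where
  /-- All weights of the box are bounded. -/
  up : ∀ (q : Pt) (j : ℕ) (y : ℤ), a.1 ≤ q.1 → q.1 + j ≤ a.1 + K * n →
    |((q.2 : ℝ) - a.2) - sl μ s * ((q.1 : ℝ) - a.1)| ≤ R * wd μ s n + 1 → W μ s η q j y ≤ Real.exp (B₀ * EE μ s n)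
  /-- The blocks of length `d` are unlucky. -/
  bl : ∀ i ∈ Finset.range N₀, sh (a.1 + i * d, a.2 + ⌊sl μ s * ((i : ℝ) * d)⌋) η ∈ Dn μ s (R * wd μ s n + 2) d (Y * EE μ s n)
  /-- The fast crossings are expensive. -/
  fast : ∀ i ∈ Finset.range N₀, ∀ g ∈ Finset.range (2 * G + 1), ∀ (q : Pt) (j : ℕ) (y : ℤ),
    a.1 + i * d ≤ q.1 → q.1 + j ≤ a.1 + i * d + 4 * d →
    |((q.2 : ℝ) - (a.2 + ⌊sl μ s * ((i : ℝ) * d)⌋ + ((g : ℤ) - G) * w₁ : ℤ)) - sl μ s * ((q.1 : ℝ) - (a.1 + i * d : ℤ))| ≤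
      wd μ s d → θ * wd μ s n ≤ |(y : ℝ) - sl μ s * j| → W μ s η q j y ≤ Real.exp (-(Q * EE μ s n))

/-- The upper bound of the confined masses. -/
theorem Fr.mass (h : In μ s c C n₀) {S : Set Pt} {a : Pt} {n K d N₀ G K₁ : ℕ} {w₁ : ℤ} {R B₀ Y Q θ : ℝ} {η : Env}
    (F : Fr μ s a n K d N₀ G K₁ w₁ R B₀ Y Q θ η) (hS : S ⊆ tb (sl μ s) a (R * wd μ s n)) (hB₀ : 0 ≤ B₀)
    (hlg : Real.log (K * n + 1) ≤ 2 * C * EE μ s n) (hC : 0 ≤ C) (q : Pt) (j : ℕ) (hq : a.1 ≤ q.1)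
    (hj : q.1 + j ≤ a.1 + K * n) : cS μ s S η q j ≤ Real.exp ((B₀ + 2 * C) * EE μ s n) := by
  have hE := EE_pos (μ := μ) (s := s) n
  rcases Nat.eq_zero_or_pos j with h0 | h0
  · rw [h0, cS_zero]
    exact Real.one_le_exp (by positivity)
  rcases near_or_zero h hS η q (j := j) h0 with h1 | h1
  · unfold cS
    have h2 : ∀ y ∈ Finset.Icc (0 : ℤ) j, WR μ s S η q j y ≤ Real.exp (B₀ * EE μ s n) := fun y _ =>
      (WR_le_W _ _ _ _ _).trans (F.up q j y hq hj h1)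
    refine (Finset.sum_le_card_nsmul _ _ _ h2).trans ?_
    rw [nsmul_eq_mul, Int.card_Icc, add_mul, Real.exp_add, mul_comm]
    refine mul_le_mul_of_nonneg_left ?_ (Real.exp_pos _).le
    have h3 : (((j : ℤ) + 1 - 0).toNat : ℝ) ≤ K * n + 1 := by
      have h4 : ((j : ℤ) + 1 - 0).toNat ≤ K * n + 1 := by
        have : (j : ℤ) ≤ K * n := by omega
        omega
      exact_mod_cast h4
    refine h3.trans ?_
    have h4 : (0 : ℝ) < K * n + 1 := by positivity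
    calc (K * n + 1 : ℝ) = Real.exp (Real.log (K * n + 1)) := (Real.exp_log h4).symm
      _ ≤ _ := Real.exp_le_exp.2 hlg
  · unfold cS
    rw [Finset.sum_eq_zero fun y _ => h1 y]
    exact (Real.exp_pos _).le

/-- The long confined paths are unlucky. -/
theorem Fr.slow (h : In μ s c C n₀) {S : Set Pt} {a : Pt} {n K d N₀ G K₁ : ℕ} {w₁ : ℤ} {R B₀ Y Q θ : ℝ} {η : Env}
    (F : Fr μ s a n K d N₀ G K₁ w₁ R B₀ Y Q θ η) (hS : S ⊆ tb (sl μ s) a (R * wd μ s n)) (hB₀ : 0 ≤ B₀)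
    (hlg : Real.log (K * n + 1) ≤ 2 * C * EE μ s n) (hC : 0 ≤ C) (hd : 1 ≤ d) (hN : K * n < N₀ * d) (q : Pt) (j : ℕ)
    (hq : a.1 ≤ q.1) (hj : q.1 + j ≤ a.1 + K * n) (hjd : 2 * d ≤ j) :
    cS μ s S η q j ≤ Real.exp (((B₀ + 2 * C) + (-Y + (B₀ + 2 * C))) * EE μ s n) := by
  obtain ⟨t, ht⟩ : ∃ t : ℕ, (t : ℤ) = q.1 - a.1 := ⟨(q.1 - a.1).toNat, Int.toNat_of_nonneg (by omega)⟩
  obtain ⟨i, hi⟩ : ∃ i : ℕ, i = t / d + 1 := ⟨_, rfl⟩
  have hi1 : t < i * d := by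
    rw [hi]
    have := Nat.lt_mul_div_succ t (show 0 < d by omega)
    rw [mul_comm]
    exact this
  have hi2 : i * d ≤ t + d := by
    rw [hi, add_mul, one_mul]
    have := Nat.div_mul_le_self t d
    omega
  have hKn : t + j ≤ K * n := by omega
  have hiN : i ∈ Finset.range N₀ := by
    rw [Finset.mem_range]
    by_contra hcon
    have h1 : N₀ * d ≤ i * d := Nat.mul_le_mul_right d (by omega)
    omega
  obtain ⟨f, hf⟩ : ∃ f : ℕ, t + f = i * d := ⟨i * d - t, by omega⟩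
  obtain ⟨g, hg⟩ : ∃ g : ℕ, j = f + (d + g) := ⟨j - f - d, by omega⟩
  have hq1 : q.1 + f = a.1 + i * d := by
    have : ((t + f : ℕ) : ℤ) = ((i * d : ℕ) : ℤ) := by rw [hf]
    push_cast at this
    omega
  have eq : q = (q.1, q.2) := rfl
  have e1 : ((B₀ + 2 * C) + (-Y + (B₀ + 2 * C))) * EE μ s n =
      (B₀ + 2 * C) * EE μ s n + (-(Y * EE μ s n) + (B₀ + 2 * C) * EE μ s n) := by ring
  rw [e1, hg, eq]
  refine cS_cut η (by omega) ?_ fun u hu => ?_
  · exact F.mass h hS hB₀ hlg hC q f hq (by omega)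
  · refine cS_cut η hd ?_ fun v _ => ?_
    · -- the block
      have h1 := F.bl i hiN
      rw [hq1] at hu ⊢
      have h2 := hS hu
      have h3 : |((u - a.2 : ℤ) : ℝ) - sl μ s * ((a.1 + i * d - a.1 : ℤ) : ℝ)| ≤ R * wd μ s n := h2
      have hf1 := Int.floor_le (sl μ s * ((i : ℝ) * d))
      have hf2 := Int.lt_floor_add_one (sl μ s * ((i : ℝ) * d))
      refine Dn_use (a := (a.1 + i * d, a.2 + ⌊sl μ s * ((i : ℝ) * d)⌋)) h1 (fun p hp => ?_) ?_
      · have h4 : |((p.2 - a.2 : ℤ) : ℝ) - sl μ s * ((p.1 - a.1 : ℤ) : ℝ)| ≤ R * wd μ s n := hS hp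
        push_cast at h4 ⊢
        rw [abs_le] at h4 ⊢
        constructor <;> nlinarith [h4.1, h4.2]
      · push_cast at h3 ⊢
        rw [abs_le] at h3 ⊢
        constructor <;> nlinarith [h3.1, h3.2]
    · refine F.mass h hS hB₀ hlg hC _ g ?_ ?_
      · show a.1 ≤ q.1 + f + d
        omega
      · show q.1 + f + d + g ≤ a.1 + K * n
        omega

/-- The far displacements of short paths are expensive. -/
theorem Fr.far (h : In μ s c C n₀) {S : Set Pt} {a : Pt} {n K d N₀ G K₁ : ℕ} {w₁ : ℤ} {R B₀ Y Q θ : ℝ} {η : Env}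
    (F : Fr μ s a n K d N₀ G K₁ w₁ R B₀ Y Q θ η) (hS : S ⊆ tb (sl μ s) a (R * wd μ s n)) (hθ : 0 < θ * wd μ s n)
    (hlg : Real.log (K * n + 1) ≤ 2 * C * EE μ s n) (hd : 1 ≤ d) (hN : K * n < N₀ * d)
    (hw : 0 < w₁) (hw1 : (w₁ : ℝ) ≤ wd μ s d) (hG : R * wd μ s n + 2 ≤ (G - 1) * w₁) (q : Pt) (j : ℕ)
    (hq : a.1 ≤ q.1) (hj : q.1 + j ≤ a.1 + K * n) (hjd : j ≤ 2 * d) (A : Finset ℤ)
    (hA : ∀ y ∈ A, θ * wd μ s n ≤ |(y : ℝ) - sl μ s * j|) :
    ∑ y ∈ A, WR μ s S η q j y ≤ Real.exp (-((Q - 2 * C) * EE μ s n)) := by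
  have hE := EE_pos (μ := μ) (s := s) n
  -- only the displacements in the cone
  have h0 : ∑ y ∈ A, WR μ s S η q j y ≤ ∑ y ∈ (Finset.Icc (0 : ℤ) j).filter (fun y : ℤ => θ * wd μ s n ≤ |(y : ℝ) - sl μ s * j|),
      WR μ s S η q j y := by
    have h1 : ∑ y ∈ A, WR μ s S η q j y = ∑ y ∈ A.filter (fun y : ℤ => 0 ≤ y ∧ y ≤ j), WR μ s S η q j y := by
      rw [Finset.sum_filter]
      refine Finset.sum_congr rfl fun y _ => ?_
      split_ifs with h2
      · rfl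
      · exact WR_off S η q h2
    rw [h1]
    refine Finset.sum_le_sum_of_subset_of_nonneg (fun y hy => ?_) fun y _ _ => WR_nonneg _ _ _ _ _
    rw [Finset.mem_filter] at hy ⊢
    exact ⟨Finset.mem_Icc.2 hy.2, hA y hy.1⟩
  refine h0.trans ?_
  have h1 : ∀ y ∈ (Finset.Icc (0 : ℤ) j).filter (fun y : ℤ => θ * wd μ s n ≤ |(y : ℝ) - sl μ s * j|),
      WR μ s S η q j y ≤ Real.exp (-(Q * EE μ s n)) := by
    intro y hy
    rw [Finset.mem_filter] at hy
    rcases Nat.eq_zero_or_pos j with h0 | h0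
    · exfalso
      rw [h0] at hy
      have h2 := Finset.mem_Icc.1 hy.1
      have h3 : y = 0 := by
        have := h2.2
        push_cast at this
        omega
      have h4 := hy.2
      rw [h3] at h4
      simp at h4
      linarith
    rcases near_or_zero h hS η q (j := j) h0 with h1 | h1
    · refine (WR_le_W _ _ _ _ _).trans ?_
      obtain ⟨t, ht⟩ : ∃ t : ℕ, (t : ℤ) = q.1 - a.1 := ⟨(q.1 - a.1).toNat, Int.toNat_of_nonneg (by omega)⟩
      obtain ⟨i, hi⟩ : ∃ i : ℕ, i = t / d := ⟨_, rfl⟩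
      have hi1 : i * d ≤ t := by
        rw [hi]
        exact Nat.div_mul_le_self t d
      have hi2 : t < i * d + d := by
        have := Nat.lt_mul_div_succ t (show 0 < d by omega)
        rw [hi]
        have e : d * (t / d + 1) = t / d * d + d := by ring
        omega
      have hiN : i ∈ Finset.range N₀ := by
        rw [Finset.mem_range]
        by_contra hcon
        have h1 : N₀ * d ≤ i * d := Nat.mul_le_mul_right d (by omega)
        omega
      have hq1 : a.1 + i * d ≤ q.1 := by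
        have : ((i * d : ℕ) : ℤ) ≤ (t : ℤ) := by exact_mod_cast hi1
        push_cast at this
        omega
      have hq2 : q.1 < a.1 + i * d + d := by
        have : (t : ℤ) < ((i * d + d : ℕ) : ℤ) := by exact_mod_cast hi2
        push_cast at this
        omega
      have hf1 := Int.floor_le (sl μ s * ((i : ℝ) * d))
      have hf2 := Int.lt_floor_add_one (sl μ s * ((i : ℝ) * d))
      obtain ⟨D, hD⟩ : ∃ D : ℝ, D = ((q.2 : ℝ) - (a.2 + ⌊sl μ s * ((i : ℝ) * d)⌋ : ℤ)) - sl μ s * ((q.1 : ℝ) - (a.1 + i * d : ℤ)) :=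
        ⟨_, rfl⟩
      have hDb : |D| ≤ R * wd μ s n + 2 := by
        rw [hD]
        push_cast
        rw [abs_le] at h1 ⊢
        constructor <;> nlinarith [h1.1, h1.2]
      have hw0 : (0 : ℝ) < w₁ := by exact_mod_cast hw
      obtain ⟨g, hg⟩ : ∃ g : ℤ, g = ⌊D / w₁⌋ := ⟨_, rfl⟩
      have hg1 : (g : ℝ) * w₁ ≤ D := by
        rw [← le_div_iff₀ hw0, hg]
        exact Int.floor_le _
      have hg2 : D < (g : ℝ) * w₁ + w₁ := by
        have : D / w₁ < g + 1 := by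
          rw [hg]
          exact Int.lt_floor_add_one _
        rw [div_lt_iff₀ hw0] at this
        linarith
      have hgG : -(G : ℤ) ≤ g ∧ g ≤ G := by
        have k1 := abs_le.1 (hDb.trans hG)
        constructor
        · have : -(G : ℝ) * w₁ < (g : ℝ) * w₁ := by linarith [k1.1]
          have := lt_of_mul_lt_mul_right this hw0.le
          have : (-(G : ℤ) : ℤ) < g := by exact_mod_cast this
          omega
        · have : (g : ℝ) * w₁ ≤ (G - 1) * w₁ := by linarith [k1.2]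
          have := le_of_mul_le_mul_right this hw0
          have : (g : ℝ) ≤ (G : ℝ) := by linarith
          exact_mod_cast this
      obtain ⟨g', hg'⟩ : ∃ g' : ℕ, (g' : ℤ) = g + G := ⟨(g + G).toNat, Int.toNat_of_nonneg (by omega)⟩
      refine F.fast i hiN g' (by rw [Finset.mem_range]; omega) q j y hq1 (by omega) ?_ hy.2
      have e : ((q.2 : ℝ) - (a.2 + ⌊sl μ s * ((i : ℝ) * d)⌋ + ((g' : ℤ) - G) * w₁ : ℤ)) -
          sl μ s * ((q.1 : ℝ) - (a.1 + i * d : ℤ)) = D - g * w₁ := by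
        rw [hD, hg']
        push_cast
        ring
      rw [e, abs_of_nonneg (by linarith)]
      linarith
    · rw [h1 y]
      exact (Real.exp_pos _).le
  refine (Finset.sum_le_card_nsmul _ _ _ h1).trans ?_
  have e : -((Q - 2 * C) * EE μ s n) = 2 * C * EE μ s n + -(Q * EE μ s n) := by ring
  rw [nsmul_eq_mul, e, Real.exp_add]
  refine mul_le_mul_of_nonneg_right ?_ (Real.exp_pos _).le
  have h3 : (((Finset.Icc (0 : ℤ) j).filter (fun y : ℤ => θ * wd μ s n ≤ |(y : ℝ) - sl μ s * j|)).card : ℝ) ≤ K * n + 1 := by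
    have h4 : ((Finset.Icc (0 : ℤ) j).filter (fun y : ℤ => θ * wd μ s n ≤ |(y : ℝ) - sl μ s * j|)).card ≤ K * n + 1 := by
      refine (Finset.card_filter_le _ _).trans ?_
      rw [Int.card_Icc]
      have : (j : ℤ) ≤ K * n := by omega
      omega
    exact_mod_cast h4
  refine h3.trans ?_
  have h4 : (0 : ℝ) < K * n + 1 := by positivity
  calc (K * n + 1 : ℝ) = Real.exp (Real.log (K * n + 1)) := (Real.exp_log h4).symm
    _ ≤ _ := Real.exp_le_exp.2 hlg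

end

end Pool.Agent.W_7d29a1_C1.Wall66
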