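import Pool.Agent.W_7d29a1_C1.Wall66
import Pool.Agent.W_7d29a1_C1.Fun20
import Pool.Agent.W_7d29a1_C1.Seq71

/-!
MP_7d29a1_pr, TRACK C1: THE WALL in the form of the slab lemma (`WALL20`), blind to an arbitrary protected set. (helper66)
-/

set_option autoImplicit false

namespace Pool.Agent.W_7d29a1_C1.Wall66

open MeasureTheory ProbabilityTheory Filter Topology
open Pool.Agent.W_7d29a1_F Pool.Agent.W_7d29a1_h4g Pool.Agent.W_7d29a1_H Pool.Agent.W_7d29a1_HS Pool.Agent.W_7d29a1_HL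
open Pool.Agent.W_7d29a1_HR (Dec Fin' Dn)
open Pool.Agent.W_7d29a1_C1.S71 (Off)

noncomputable section

variable {μ : Measure ℝ} [IsProbabilityMeasure μ] {s c C : ℝ} {n₀ : ℕ}

/-- The wall, used for a smaller region: only the rows of the path count. -/
theorem cS_le_of_rows {S S' : Set Pt} (η : Env) (q : Pt) (j : ℕ) (h : ∀ p ∈ S', q.1 < p.1 → p.1 ≤ q.1 + j → p ∈ S) :
    cS μ s S' η q j ≤ cS μ s S η q j := by
  have h1 : cS μ s S' η q j = cS μ s (S' ∩ S) η q j := by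
    unfold cS
    refine Finset.sum_congr rfl fun y _ => WR_congr' η q j y fun p hp1 hp2 => ?_
    exact ⟨fun h3 => ⟨h3, h p h3 hp1 hp2⟩, fun h3 => h3.1⟩
  rw [h1]
  exact cS_mono_set Set.inter_subset_right η q j

/-- **THE WALL, form of the slab lemma.** For every protected set `P₀` there is a decreasing event `E` which does not see `P₀`, of
probability at least `p`, on which all the starts away from the lanes have unlucky sub blocks. -/
theorem wall20 (h : In μ s c C n₀) {R : ℝ} (hR : 0 ≤ R) {N : ℕ} (hN : 1 ≤ N) (A : ℝ) :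
    ∃ p : ℝ, 0 < p ∧ ∃ n₁ : ℕ, ∀ n : ℕ, n₁ ≤ n → ∀ P₀ : Set Pt, ∃ E : Set Env, Gd E ∧ Off P₀ E ∧ p ≤ (law μ).real E ∧
      ∀ η ∈ E,
        -- every mass over a sub block confined to a region of the box off the protected set
        (∀ (S' : Set Pt) (t : ℕ) (z : ℤ), t + n ≤ N * n →
          (∀ p ∈ S', (t : ℤ) < p.1 → p.1 ≤ t + n → |(p.2 : ℝ) - sl μ s * p.1| ≤ R * wd μ s (N * n) ∧ p ∉ P₀) →
          cS μ s S' η ((t : ℤ), z) n ≤ Real.exp (-(A * EE μ s (N * n)))) ∧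
        ∀ (ι : Type) (ω ρ α : ℝ) (l : ι → ℕ → ℝ), ω + ρ ≤ R * wd μ s (N * n) →
          (∀ (i : ℕ) (z : ℤ), i < N → |(z : ℝ) - sl μ s * (i * n : ℕ)| ≤ ω → (∀ j, α < |(z : ℝ) - l j i|) →
            ∀ p ∈ St μ s ρ (((i * n : ℕ) : ℤ), z), ((i * n : ℕ) : ℤ) < p.1 → p.1 ≤ ((i * n : ℕ) : ℤ) + n → p ∉ P₀) →
          WALL20 μ s ω ρ α n N (A * EE μ s (N * n)) l η := by
  obtain ⟨B, hB, hw⟩ := wall h hR (K := 1) le_rfl
  have hNr : (0 : ℝ) < N := by exact_mod_cast (show 0 < N by omega)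
  obtain ⟨p, hp, n₁, hp1⟩ := hw A (1 / N) (by positivity)
  refine ⟨p, hp, n₁, fun n hn P₀ => ?_⟩
  obtain ⟨S, hS⟩ : ∃ S : Set Pt, S = tb (sl μ s) 0 (R * wd μ s (N * n)) \ P₀ := ⟨_, rfl⟩
  have hSt : S ⊆ tb (sl μ s) 0 (R * wd μ s (N * n)) := by rw [hS]; exact Set.sdiff_subset
  have hNn : n₁ ≤ N * n := hn.trans (Nat.le_mul_of_pos_left n (by omega))
  have hP := hp1 (N * n) hNn 0 S n hSt (by
    rw [one_div, inv_mul_le_iff₀ hNr]
    push_cast
    exact le_rfl)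
  refine ⟨_, WA_gd hSt _ _ _ _ _, ?_, hP, fun η hη => ?_⟩
  · intro η η' hh
    refine WA_dep S 0 _ _ _ _ _ η η' fun q hq => hh q fun hq' => ?_
    have h1 := hq.1
    rw [hS] at h1
    exact h1.2 hq'
  · have key : ∀ (S' : Set Pt) (t : ℕ) (z : ℤ), t + n ≤ N * n →
        (∀ p ∈ S', (t : ℤ) < p.1 → p.1 ≤ t + n → |(p.2 : ℝ) - sl μ s * p.1| ≤ R * wd μ s (N * n) ∧ p ∉ P₀) →
        cS μ s S' η ((t : ℤ), z) n ≤ Real.exp (-(A * EE μ s (N * n))) := by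
      intro S' t z ht hS'
      obtain ⟨-, h2, -⟩ := hη ((t : ℤ), z) n (by show (0 : ℤ) ≤ t; omega) (by
        show (t : ℤ) + n ≤ 0 + ((1 * (N * n) : ℕ) : ℤ)
        rw [one_mul, zero_add]
        exact_mod_cast ht)
      refine (cS_le_of_rows η _ n fun p hp1 hp2 hp3 => ?_).trans (h2 le_rfl)
      obtain ⟨h3, h4⟩ := hS' p hp1 hp2 hp3
      rw [hS]
      refine ⟨?_, h4⟩
      show |((p.2 - 0 : ℤ) : ℝ) - sl μ s * ((p.1 - 0 : ℤ) : ℝ)| ≤ _
      rw [sub_zero, sub_zero]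
      exact h3
    refine ⟨key, fun ι ω ρ α l hωρ hP₀ i z hi hz h1 => ?_⟩
    refine key _ (i * n) z ?_ fun p hp1 hp2 hp3 => ⟨?_, hP₀ i z hi hz h1 p hp1 hp2 hp3⟩
    · have : (i + 1) * n ≤ N * n := Nat.mul_le_mul_right n (by omega)
      have e : (i + 1) * n = i * n + n := by ring
      omega
    · have h3 : |((p.2 - z : ℤ) : ℝ) - sl μ s * ((p.1 - ((i * n : ℕ) : ℤ) : ℤ) : ℝ)| ≤ ρ := hp1
      refine le_trans ?_ hωρ
      have e : (p.2 : ℝ) - sl μ s * p.1 = (((p.2 - z : ℤ) : ℝ) - sl μ s * ((p.1 - ((i * n : ℕ) : ℤ) : ℤ) : ℝ)) +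
          ((z : ℝ) - sl μ s * (i * n : ℕ)) := by
        push_cast
        ring
      rw [e]
      refine (abs_add_le _ _).trans ?_
      linarith

end

end Pool.Agent.W_7d29a1_C1.Wall66
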