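import Pool.Agent.W_7d29a1_HZ.Z74_P1M
import Pool.Agent.W_7d29a1_HZ.Z94_TiltE

/-!
[C1] HYBRIDS, CLOSURE (C) (helper84): the tilted free polymer at one row, deterministic part. `QW` is the tilted mass of the paths of
`m + k` rows from `a` through a set of sites of the row `m`; `QW_full` is the composition, `QW_eq` the sum over the end points, `pin_sum`
the comparison with the polymer with fixed end, `end_tail` the tail of the end point.
-/

set_option autoImplicit false

namespace Pool.Agent.W_7d29a1_C1.Win84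

open MeasureTheory ProbabilityTheory Filter Topology Finset
open Pool.Agent.W_7d29a1_F Pool.Agent.W_7d29a1_X Pool.Agent.W_7d29a1_h4g Pool.Agent.W_7d29a1_H
open Pool.Agent.W_7d29a1_HS (In wd md)
open Pool.Agent.W_7d29a1_L (T kap exp_T exp_T_add)
open Pool.Agent.W_7d29a1_HZ (gp P1)

noncomputable section

variable {μ : Measure ℝ} {s h : ℝ}

/-- The tilted mass of the paths of `m + k` rows from `a` through the sites `a.2 + y`, `y ∈ A`, of the row `a.1 + m`. -/
def QW (μ : Measure ℝ) (s h : ℝ) (η : Env) (a : Pt) (m k : ℕ) (A : Finset ℤ) : ℝ :=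
  ∑ y ∈ A, (W μ s η a m y * Real.exp (h * ((y : ℝ) - sl μ s * m))) *
    Real.exp (T μ s (sl μ s) h η (a.1 + m, a.2 + y) k)

theorem QW_full (η : Env) (a : Pt) (m k : ℕ) :
    QW μ s h η a m k (Icc (0 : ℤ) m) = Real.exp (T μ s (sl μ s) h η a (m + k)) := (exp_T_add η a m k).symm

theorem QW_nonneg (η : Env) (a : Pt) (m k : ℕ) (A : Finset ℤ) : 0 ≤ QW μ s h η a m k A :=
  sum_nonneg fun _ _ => mul_nonneg (mul_nonneg (W_nonneg _ _ _ _) (Real.exp_pos _).le) (Real.exp_pos _).le

theorem QW_mono (η : Env) (a : Pt) (m k : ℕ) {A B : Finset ℤ} (hAB : A ⊆ B) :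
    QW μ s h η a m k A ≤ QW μ s h η a m k B :=
  sum_le_sum_of_subset_of_nonneg hAB fun _ _ _ =>
    mul_nonneg (mul_nonneg (W_nonneg _ _ _ _) (Real.exp_pos _).le) (Real.exp_pos _).le

theorem QW_sh (η : Env) (a b : Pt) (m k : ℕ) (A : Finset ℤ) : QW μ s h (sh b η) a m k A = QW μ s h η (a + b) m k A := by
  unfold QW
  refine sum_congr rfl fun y _ => ?_
  rw [W_sh, Pool.Agent.W_7d29a1_L.T_sh]
  have e : ((a.1 + (m : ℤ), a.2 + y) : Pt) + b = ((a + b).1 + (m : ℤ), (a + b).2 + y) := by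
    ext
    · show a.1 + (m : ℤ) + b.1 = a.1 + b.1 + m
      ring
    · show a.2 + y + b.2 = a.2 + b.2 + y
      ring
  rw [e]

/-- Sites and their complement. -/
theorem QW_split (η : Env) (a : Pt) (m k : ℕ) (p : ℤ → Prop) [DecidablePred p] (A : Finset ℤ) :
    QW μ s h η a m k (A.filter p) + QW μ s h η a m k (A.filter fun y => ¬ p y) = QW μ s h η a m k A :=
  sum_filter_add_sum_filter_not A p _

/-- The sum over the end points. -/
theorem QW_eq (η : Env) (a : Pt) (m k : ℕ) {A : Finset ℤ} (hA : A ⊆ Icc (0 : ℤ) m) :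
    QW μ s h η a m k A = ∑ u ∈ Icc (0 : ℤ) ((m + k : ℕ) : ℤ), Real.exp (h * ((u : ℝ) - sl μ s * ((m + k : ℕ) : ℝ))) *
      ∑ y ∈ A, W μ s η a m y * W μ s η (a.1 + m, a.2 + y) k (u - y) := by
  have h1 : ∀ y ∈ A, (W μ s η a m y * Real.exp (h * ((y : ℝ) - sl μ s * m))) *
      Real.exp (T μ s (sl μ s) h η (a.1 + m, a.2 + y) k) = ∑ u ∈ Icc (0 : ℤ) ((m + k : ℕ) : ℤ),
        Real.exp (h * ((u : ℝ) - sl μ s * ((m + k : ℕ) : ℝ))) * (W μ s η a m y * W μ s η (a.1 + m, a.2 + y) k (u - y)) := by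
    intro y hy
    have hy' := mem_Icc.1 (hA hy)
    have h2 : ∑ u ∈ Icc (0 : ℤ) ((m + k : ℕ) : ℤ),
        Real.exp (h * ((u : ℝ) - sl μ s * ((m + k : ℕ) : ℝ))) * (W μ s η a m y * W μ s η (a.1 + m, a.2 + y) k (u - y)) =
        ∑ u ∈ Icc y (y + k),
        Real.exp (h * ((u : ℝ) - sl μ s * ((m + k : ℕ) : ℝ))) * (W μ s η a m y * W μ s η (a.1 + m, a.2 + y) k (u - y)) := by
      symm
      refine sum_subset ?_ fun u _ hu => ?_
      · intro u hu
        rw [mem_Icc] at hu ⊢
        push_cast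
        constructor <;> omega
      · rw [mem_Icc] at hu
        rw [W_eq_zero (n := k) (y := u - y) η _ (by omega), mul_zero, mul_zero]
    have h3 : ∑ u ∈ Icc y (y + k),
        Real.exp (h * ((u : ℝ) - sl μ s * ((m + k : ℕ) : ℝ))) * (W μ s η a m y * W μ s η (a.1 + m, a.2 + y) k (u - y)) =
        ∑ z ∈ Icc (0 : ℤ) k, Real.exp (h * (((y + z : ℤ) : ℝ) - sl μ s * ((m + k : ℕ) : ℝ))) *
          (W μ s η a m y * W μ s η (a.1 + m, a.2 + y) k z) := by
      refine sum_nbij' (fun u => u - y) (fun z => y + z) ?_ ?_ ?_ ?_ ?_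
      · intro u hu
        rw [mem_Icc] at hu ⊢
        constructor <;> omega
      · intro z hz
        rw [mem_Icc] at hz ⊢
        constructor <;> omega
      · intro u _
        ring
      · intro z _
        ring
      · intro u _
        have e : y + (u - y) = u := by ring
        rw [e]
    rw [h2, h3, exp_T, mul_sum]
    refine sum_congr rfl fun z _ => ?_
    have e : Real.exp (h * (((y + z : ℤ) : ℝ) - sl μ s * ((m + k : ℕ) : ℝ))) =
        Real.exp (h * ((y : ℝ) - sl μ s * m)) * Real.exp (h * ((z : ℝ) - sl μ s * k)) := by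
      rw [← Real.exp_add]
      congr 1
      push_cast
      ring
    rw [e]
    ring
  unfold QW
  rw [sum_congr rfl h1, sum_comm]
  refine sum_congr rfl fun u _ => ?_
  rw [mul_sum]

/-- **The polymer with fixed end**: the mass of the paths from `0` to `(m + k, u)` through `A`. -/
theorem pin_sum (η : Env) (m k : ℕ) {A : Finset ℤ} (hA : A ⊆ Icc (0 : ℤ) m) (u : ℤ) (B : Finset ℕ → Prop) [DecidablePred B]
    (hB : ∀ S : Finset ℕ, pos S m ∈ A → B S) :
    ∑ y ∈ A, W μ s η 0 m y * W μ s η ((0 : Pt).1 + m, (0 : Pt).2 + y) k (u - y) ≤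
      W μ s η 0 (m + k) u * ∑ S ∈ (range (m + k)).powerset, gp μ s η (m + k) u S * (if B S then 1 else 0) := by
  have h1 := Mt_add (μ := μ) (s := s) η m k (fun S => if pos S m ∈ A then 1 else 0) u
  have h2 : ∀ x : ℤ, Mt μ s η m (fun S => if pos S m ∈ A then 1 else 0) x = if x ∈ A then W μ s η 0 m x else 0 := by
    intro x
    split_ifs with hx
    · rw [← Mt_one]
      unfold Mt
      refine sum_congr rfl fun S _ => ?_
      beta_reduce
      by_cases hS : pos S m = x
      · rw [if_pos hS, if_pos hS, if_pos (hS ▸ hx)]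
      · rw [if_neg hS, if_neg hS]
    · unfold Mt
      refine sum_eq_zero fun S _ => ?_
      beta_reduce
      by_cases hS : pos S m = x
      · rw [if_pos hS, if_neg (hS ▸ hx), mul_zero]
      · rw [if_neg hS]
  have h3 : ∑ y ∈ A, W μ s η 0 m y * W μ s η ((0 : Pt).1 + m, (0 : Pt).2 + y) k (u - y) =
      ∑ x ∈ Icc (0 : ℤ) m, Mt μ s η m (fun S => if pos S m ∈ A then 1 else 0) x * W μ s η ((m : ℤ), x) k (u - x) := by
    have h4 : ∀ x : ℤ, Mt μ s η m (fun S => if pos S m ∈ A then 1 else 0) x * W μ s η ((m : ℤ), x) k (u - x) =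
        if x ∈ A then W μ s η 0 m x * W μ s η ((m : ℤ), x) k (u - x) else 0 := by
      intro x
      rw [h2]
      split_ifs
      · rfl
      · rw [zero_mul]
    simp only [h4]
    rw [sum_ite, sum_const_zero, add_zero, filter_mem_eq_inter, inter_eq_right.2 hA]
    refine sum_congr rfl fun y _ => ?_
    have e : (((0 : Pt).1 + (m : ℤ), (0 : Pt).2 + y) : Pt) = ((m : ℤ), y) := by simp
    rw [e]
  rw [h3, ← h1]
  unfold Mt
  rw [mul_sum]
  refine sum_le_sum fun S _ => ?_
  by_cases hS : pos S (m + k) = u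
  · rw [if_pos hS]
    have h5 : pos (S ∩ range m) m = pos S m := pos_inter S le_rfl
    have hp := pth_nonneg (μ := μ) (s := s) η (m + k) S
    have hW : 0 ≤ W μ s η 0 (m + k) u := W_nonneg _ _ _ _
    have hu0 : 0 ≤ u ∧ u ≤ ((m + k : ℕ) : ℤ) := by
      rw [← hS]
      exact ⟨pos_nonneg _ _, pos_le _ _⟩
    have hWp : 0 < W μ s η 0 (m + k) u := W_pos η 0 hu0.1 hu0.2
    have h6 : W μ s η 0 (m + k) u * (gp μ s η (m + k) u S * (if B S then 1 else 0)) =
        pth μ s η (m + k) S * (if B S then 1 else 0) := by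
      unfold gp
      rw [if_pos hS]
      field_simp
    rw [h6]
    refine mul_le_mul_of_nonneg_left ?_ hp
    beta_reduce
    rw [h5]
    by_cases hA' : pos S m ∈ A
    · rw [if_pos hA', if_pos (hB S hA')]
    · rw [if_neg hA']
      split_ifs <;> norm_num
  · rw [if_neg hS]
    refine mul_nonneg (W_nonneg _ _ _ _) (mul_nonneg ?_ (by split_ifs <;> norm_num))
    unfold gp
    rw [if_neg hS]

/-- The tail of the end point. -/
theorem end_tail (η : Env) (a : Pt) (K : ℕ) {h' D : ℝ} (hh : 2 * |h| ≤ h') (hD : 0 ≤ D) (A : Finset ℤ) (hA : A ⊆ Icc (0 : ℤ) K)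
    (hAD : ∀ u ∈ A, D < |(u : ℝ) - sl μ s * K|) :
    ∑ u ∈ A, Real.exp (h * ((u : ℝ) - sl μ s * K)) * W μ s η a K u ≤
      Real.exp (-(h' * D / 2)) * (Real.exp (T μ s (sl μ s) h' η a K) + Real.exp (T μ s (sl μ s) (-h') η a K)) := by
  have hh1 := abs_le.1 (show |h| ≤ |h| from le_rfl)
  have hh0 : 0 ≤ h' := by
    have := abs_nonneg h
    linarith
  rw [exp_T, exp_T, ← sum_add_distrib, mul_sum]
  refine (sum_le_sum fun u hu => ?_).trans (sum_le_sum_of_subset_of_nonneg hA fun u _ _ => ?_)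
  swap
  · exact mul_nonneg (Real.exp_pos _).le (add_nonneg (mul_nonneg (W_nonneg _ _ _ _) (Real.exp_pos _).le)
      (mul_nonneg (W_nonneg _ _ _ _) (Real.exp_pos _).le))
  obtain ⟨x, hx⟩ : ∃ x : ℝ, x = (u : ℝ) - sl μ s * K := ⟨_, rfl⟩
  have h1 := hAD u hu
  rw [← hx] at h1 ⊢
  have hW := W_nonneg (μ := μ) (s := s) η a K u
  have key : Real.exp (h * x) ≤ Real.exp (-(h' * D / 2)) * (Real.exp (h' * x) + Real.exp (-h' * x)) := by
    rcases lt_or_ge 0 x with hx0 | hx0
    · rw [abs_of_pos hx0] at h1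
      have h2 : h * x ≤ -(h' * D / 2) + h' * x := by
        have h3 : (h' - h) * x ≥ h' / 2 * x := mul_le_mul_of_nonneg_right (by linarith [le_abs_self h]) hx0.le
        have h4 : h' / 2 * D ≤ h' / 2 * x := mul_le_mul_of_nonneg_left h1.le (by linarith)
        nlinarith
      calc Real.exp (h * x) ≤ Real.exp (-(h' * D / 2) + h' * x) := Real.exp_le_exp.2 h2
        _ = Real.exp (-(h' * D / 2)) * Real.exp (h' * x) := Real.exp_add _ _
        _ ≤ _ := by
          refine mul_le_mul_of_nonneg_left ?_ (Real.exp_pos _).le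
          have := Real.exp_pos (-h' * x)
          linarith
    · rw [abs_of_nonpos hx0] at h1
      have h2 : h * x ≤ -(h' * D / 2) + -h' * x := by
        have h3 : h' / 2 * (-x) ≤ (h' + h) * (-x) := mul_le_mul_of_nonneg_right (by linarith [neg_abs_le h]) (by linarith)
        have h4 : h' / 2 * D ≤ h' / 2 * (-x) := mul_le_mul_of_nonneg_left h1.le (by linarith)
        nlinarith
      calc Real.exp (h * x) ≤ Real.exp (-(h' * D / 2) + -h' * x) := Real.exp_le_exp.2 h2
        _ = Real.exp (-(h' * D / 2)) * Real.exp (-h' * x) := Real.exp_add _ _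
        _ ≤ _ := by
          refine mul_le_mul_of_nonneg_left ?_ (Real.exp_pos _).le
          have := Real.exp_pos (h' * x)
          linarith
  calc Real.exp (h * x) * W μ s η a K u
      ≤ Real.exp (-(h' * D / 2)) * (Real.exp (h' * x) + Real.exp (-h' * x)) * W μ s η a K u :=
        mul_le_mul_of_nonneg_right key hW
    _ = _ := by ring

/-- The quenched estimate: the mass through `A`, from the bounds of the fixed end polymers with ends in the cone and the tail. -/
theorem loc_det (η : Env) (m k : ℕ) {A : Finset ℤ} (hA : A ⊆ Icc (0 : ℤ) m) {h' D g : ℝ} (hh : 2 * |h| ≤ h') (hD : 0 ≤ D)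
    (hg : 0 ≤ g) (hpin : ∀ u : ℤ, 0 ≤ u → u ≤ ((m + k : ℕ) : ℤ) → |(u : ℝ) - sl μ s * ((m + k : ℕ) : ℝ)| ≤ D →
      ∑ y ∈ A, W μ s η 0 m y * W μ s η ((0 : Pt).1 + m, (0 : Pt).2 + y) k (u - y) ≤ g * W μ s η 0 (m + k) u) :
    QW μ s h η 0 m k A ≤ g * Real.exp (T μ s (sl μ s) h η 0 (m + k)) +
      Real.exp (-(h' * D / 2)) * (Real.exp (T μ s (sl μ s) h' η 0 (m + k)) + Real.exp (T μ s (sl μ s) (-h') η 0 (m + k))) := by
  classical
  rw [QW_eq η 0 m k hA]
  rw [← sum_filter_add_sum_filter_not (Icc (0 : ℤ) ((m + k : ℕ) : ℤ)) fun u : ℤ => |(u : ℝ) - sl μ s * ((m + k : ℕ) : ℝ)| ≤ D]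
  refine add_le_add ?_ ?_
  · rw [exp_T, mul_sum]
    refine (sum_le_sum (g := fun u : ℤ => g * (W μ s η 0 (m + k) u * Real.exp (h * ((u : ℝ) - sl μ s * ((m + k : ℕ) : ℝ)))))
      fun u hu => ?_).trans (sum_le_sum_of_subset_of_nonneg (filter_subset _ _) fun u _ _ => ?_)
    · rw [mem_filter, mem_Icc] at hu
      have h1 := hpin u hu.1.1 hu.1.2 hu.2
      have h2 := mul_le_mul_of_nonneg_left h1 (Real.exp_pos (h * ((u : ℝ) - sl μ s * ((m + k : ℕ) : ℝ)))).le
      refine h2.trans (le_of_eq ?_)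
      ring
    · exact mul_nonneg hg (mul_nonneg (W_nonneg _ _ _ _) (Real.exp_pos _).le)
  · refine (sum_le_sum fun u _ => mul_le_mul_of_nonneg_left (?_ : _ ≤ W μ s η 0 (m + k) u) (Real.exp_pos _).le).trans
      (end_tail (h := h) η 0 (m + k) hh hD _ (filter_subset _ _) fun u hu => ?_)
    · rw [W_add η 0 m k u]
      exact sum_le_sum_of_subset_of_nonneg hA fun y _ _ => mul_nonneg (W_nonneg _ _ _ _) (W_nonneg _ _ _ _)
    · rw [mem_filter] at hu
      exact not_le.1 hu.2

end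

end Pool.Agent.W_7d29a1_C1.Win84
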