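import Pool.Agent.W_7d29a1_C1.WinB84

/-!
[C1] HYBRIDS, CLOSURE (C) (helper84): `loc84`, the tilted free polymer stays in the window.
-/

set_option autoImplicit false

namespace Pool.Agent.W_7d29a1_C1.Win84

open MeasureTheory ProbabilityTheory Filter Topology Finset
open Pool.Agent.W_7d29a1_F Pool.Agent.W_7d29a1_X Pool.Agent.W_7d29a1_h4g Pool.Agent.W_7d29a1_H
open Pool.Agent.W_7d29a1_HS (In wd md md_abs wd_ge_one)
open Pool.Agent.W_7d29a1_L (T kap exp_T exp_T_add)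
open Pool.Agent.W_7d29a1_HZ (gp P1 NSp ns PBox pbox wd' EE' EE'_pow wd'_pow)
open Pool.Agent.W_7d29a1_HZ.Z21 (ev_pow94)
open scoped ENNReal

noncomputable section

variable {μ : Measure ℝ} {s : ℝ} [IsProbabilityMeasure μ] {c C : ℝ} {n₀ : ℕ}

/-- The natural scale of a tilt which is a little larger than the natural one at `K`. -/
theorem scale84 (h : In μ s c C n₀) (hL : LB84 μ s) : ∃ K1 : ℝ, 1 ≤ K1 ∧ ∀ δ : ℝ, 0 < δ → δ ≤ 1 → ∃ κ : ℝ, 0 < κ ∧ ∀ n₁ : ℕ,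
    ∀ᶠ K : ℕ in atTop, ∃ r : ℕ, n₁ ≤ r ∧ 1 ≤ r ∧ r ≤ K ∧ wd μ s r ≤ K1 * wd μ s K ∧ EE μ s K ≤ K1 * (K : ℝ) ^ (δ / 8) * EE μ s r ∧
      (((K / r : ℕ) : ℝ) + 1) ≤ 3 * ((K : ℝ) ^ (δ / 8)) ^ 2 ∧
      ∀ t : ℝ, |t| * EE μ s K ≤ (K : ℝ) ^ κ → 2 * |t| ≤ c / 2 * (EE μ s r / wd μ s r) := by
  obtain ⟨a', K2, ha', ha'1, hK2, hE⟩ := EE'_pow h
  obtain ⟨a'', K3, -, -, hK3, hw⟩ := wd'_pow h
  have hc0 := h.c0
  refine ⟨2 * K2 + K3, by linarith, fun δ hδ hδ1 => ?_⟩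
  obtain ⟨d, hd⟩ : ∃ d : ℝ, d = a' * δ / 8 := ⟨_, rfl⟩
  have hd0 : 0 < d := by rw [hd]; positivity
  refine ⟨d / 2, by positivity, fun n₁ => ?_⟩
  obtain ⟨n₂, hL⟩ := hL d hd0
  filter_upwards [ev84 2 (show 0 < δ / 8 by positivity), ev84 ((n₁ : ℝ) + n₂ + 2) (show (0 : ℝ) < 1 / 2 by norm_num),
    ev84 (4 * K2 / c) (show 0 < d / 2 by positivity), eventually_ge_atTop 1] with K h1 h2 h3 h4
  obtain ⟨a, ha⟩ : ∃ a : ℝ, a = (K : ℝ) ^ (δ / 8) := ⟨_, rfl⟩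
  rw [← ha] at h1 ⊢
  have hK0 : (0 : ℝ) < K := by exact_mod_cast h4
  have hK1 : (1 : ℝ) ≤ K := by exact_mod_cast h4
  have ha0 : 0 < a := by linarith
  have ha2 : 0 < a ^ 2 := by positivity
  have haK : a ^ 2 * (K : ℝ) ^ (1 / 2 : ℝ) ≤ K := by
    have e1 : a ^ 2 = (K : ℝ) ^ (δ / 4) := by
      rw [ha, ← Real.rpow_natCast, ← Real.rpow_mul hK0.le]
      congr 1
      push_cast
      ring
    rw [e1, ← Real.rpow_add hK0]
    calc (K : ℝ) ^ (δ / 4 + 1 / 2) ≤ (K : ℝ) ^ (1 : ℝ) := Real.rpow_le_rpow_of_exponent_le hK1 (by linarith)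
      _ = K := Real.rpow_one _
  obtain ⟨r, hr⟩ : ∃ r : ℕ, r = ⌊(K : ℝ) / a ^ 2⌋₊ := ⟨_, rfl⟩
  have hq : (n₁ : ℝ) + n₂ + 2 ≤ (K : ℝ) / a ^ 2 := by
    rw [le_div_iff₀ ha2]
    calc ((n₁ : ℝ) + n₂ + 2) * a ^ 2 ≤ (K : ℝ) ^ (1 / 2 : ℝ) * a ^ 2 := mul_le_mul_of_nonneg_right h2 ha2.le
      _ ≤ K := by linarith
  have hrq : (r : ℝ) ≤ (K : ℝ) / a ^ 2 := by
    rw [hr]
    exact Nat.floor_le (by positivity)
  have hrq2 : (K : ℝ) / a ^ 2 < r + 1 := by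
    rw [hr]
    exact Nat.lt_floor_add_one _
  have hrn : (n₁ : ℝ) + n₂ + 1 ≤ r := by linarith
  have hrn' : n₁ + n₂ + 1 ≤ r := by exact_mod_cast hrn
  have hr1 : 1 ≤ r := by omega
  have hr0 : (0 : ℝ) < r := by exact_mod_cast hr1
  have hr1' : (1 : ℝ) ≤ r := by exact_mod_cast hr1
  have ha21 : 4 ≤ a ^ 2 := by
    calc (4 : ℝ) = 2 ^ 2 := by norm_num
      _ ≤ a ^ 2 := pow_le_pow_left₀ (by norm_num) h1 2
  have hrK : (r : ℝ) ≤ K := by
    refine hrq.trans (div_le_self hK0.le (by linarith))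
  have hrK' : r ≤ K := by exact_mod_cast hrK
  -- `K / r` between `a ^ 2` and `2 a ^ 2`
  have hKr1 : a ^ 2 ≤ (K : ℝ) / r := by
    rw [le_div_iff₀ hr0]
    rw [le_div_iff₀ ha2] at hrq
    linarith
  have hKr2 : (K : ℝ) / r ≤ 2 * a ^ 2 := by
    rw [div_le_iff₀ hr0]
    rw [div_lt_iff₀ ha2] at hrq2
    have h5 := mul_le_mul_of_nonneg_right hr1' ha2.le
    linarith only [hrq2, h5]
  have hEr := one_le_EE (μ := μ) (s := s) r
  have hE0 := one_le_EE (μ := μ) (s := s) K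
  have hwr := wd_two h hr1
  obtain ⟨e1, e2, e3⟩ := hE r K hr1 hrK'
  obtain ⟨w1, -, -⟩ := hw r K hr1 hrK'
  rw [EE'_eq, EE'_eq] at e1 e2 e3
  rw [wd'_eq' h hr1, wd'_eq' h h4] at w1
  refine ⟨r, by omega, hr1, hrK', ?_, ?_, ?_, fun t ht => ?_⟩
  · refine w1.trans ?_
    have := wd_two h h4
    exact mul_le_mul_of_nonneg_right (by linarith only [hK2]) (by linarith only [this])
  · refine e3.trans ?_
    have hs : Real.sqrt ((K : ℝ) / r) ≤ 2 * a := by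
      rw [Real.sqrt_le_left (by positivity)]
      linarith only [hKr2, ha2]
    calc K2 * Real.sqrt ((K : ℝ) / r) * EE μ s r ≤ K2 * (2 * a) * EE μ s r := by gcongr
      _ = 2 * K2 * a * EE μ s r := by ring
      _ ≤ (2 * K2 + K3) * a * EE μ s r := by
        have : 0 ≤ K3 * a * EE μ s r := by positivity
        linarith
  · have h5 : ((K / r : ℕ) : ℝ) ≤ (K : ℝ) / r := Nat.cast_div_le
    linarith
  · -- the natural tilt at `r`
    have hLr := hL r (by omega)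
    have hX : (a ^ 2) ^ a' ≤ ((K : ℝ) / r) ^ a' := Real.rpow_le_rpow ha2.le hKr1 ha'.le
    have hX2 : (a ^ 2) ^ a' = ((K : ℝ) ^ d) ^ 2 := by
      rw [ha, hd, ← Real.rpow_natCast, ← Real.rpow_natCast, ← Real.rpow_mul hK0.le, ← Real.rpow_mul hK0.le,
        ← Real.rpow_mul hK0.le]
      congr 1
      push_cast
      ring
    obtain ⟨b, hb⟩ : ∃ b : ℝ, b = (K : ℝ) ^ d := ⟨_, rfl⟩
    have hb2 : (K : ℝ) ^ (d / 2) * (K : ℝ) ^ (d / 2) = b := by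
      rw [← Real.rpow_add hK0, hb]
      congr 1
      ring
    have hb1 : 1 ≤ b := by
      rw [hb]
      exact Real.one_le_rpow hK1 hd0.le
    have hb0 : 0 < b := by linarith
    have hrd : (r : ℝ) ^ d ≤ b := by
      rw [hb]
      exact Real.rpow_le_rpow hr0.le hrK hd0.le
    rw [← hb] at hX2
    -- `EE r b ^ 2 ≤ K2 EE K`
    have h5 : b ^ 2 * EE μ s r ≤ K2 * EE μ s K := by
      have h6 : K2⁻¹ * b ^ 2 * EE μ s r ≤ EE μ s K := by
        refine le_trans ?_ e2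
        rw [← hX2]
        gcongr
      have hK20 : 0 < K2 := by linarith
      calc b ^ 2 * EE μ s r = K2 * (K2⁻¹ * b ^ 2 * EE μ s r) := by field_simp
        _ ≤ K2 * EE μ s K := mul_le_mul_of_nonneg_left h6 hK20.le
    have h7 : wd μ s r ≤ b * EE μ s r ^ 2 := hLr.trans (mul_le_mul_of_nonneg_right hrd (by positivity))
    -- `b / (K2 EE K) ≤ EE r / wd r`
    have h8 : b / (K2 * EE μ s K) ≤ EE μ s r / wd μ s r := by
      rw [div_le_div_iff₀ (by positivity) (by linarith)]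
      calc b * wd μ s r ≤ b * (b * EE μ s r ^ 2) := mul_le_mul_of_nonneg_left h7 hb0.le
        _ = EE μ s r * (b ^ 2 * EE μ s r) := by ring
        _ ≤ EE μ s r * (K2 * EE μ s K) := mul_le_mul_of_nonneg_left h5 (by linarith)
    have h9 : 2 * |t| ≤ c / 2 * (b / (K2 * EE μ s K)) := by
      have hp := mul_nonneg (abs_nonneg t) (show (0 : ℝ) ≤ EE μ s K by linarith)
      rw [← mul_div_assoc, le_div_iff₀ (by positivity)]
      have h10 : 4 * K2 / c * (K : ℝ) ^ (d / 2) ≤ b := by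
        rw [← hb2]
        exact mul_le_mul_of_nonneg_right h3 (by positivity)
      have h11 : 4 * K2 * (K : ℝ) ^ (d / 2) ≤ c * b := by
        have : 4 * K2 / c * (K : ℝ) ^ (d / 2) = 4 * K2 * (K : ℝ) ^ (d / 2) / c := by ring
        rw [this, div_le_iff₀ hc0] at h10
        linarith
      calc 2 * |t| * (K2 * EE μ s K) = 2 * K2 * (|t| * EE μ s K) := by ring
        _ ≤ 2 * K2 * (K : ℝ) ^ (d / 2) := mul_le_mul_of_nonneg_left ht (by linarith)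
        _ ≤ c / 2 * b := by linarith
    exact h9.trans (mul_le_mul_of_nonneg_left h8 (by linarith))

omit [IsProbabilityMeasure μ] in
theorem meas_T (t : ℝ) (a : Pt) (n : ℕ) : Measurable fun η : Env => T μ s (sl μ s) t η a n := by
  unfold T
  exact (measurable_V (μ := μ) (s := s + t) a n).add_const _

omit [IsProbabilityMeasure μ] in
theorem meas_QW (t : ℝ) (a : Pt) (m k : ℕ) (A : Finset ℤ) : Measurable fun η : Env => QW μ s t η a m k A := by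
  unfold QW
  exact Finset.measurable_sum _ fun y _ => ((measurable_W (μ := μ) (s := s) a m y).mul_const _).mul
    (Real.measurable_exp.comp (meas_T t _ k))

/-- The start `0`. -/
theorem loc84_zero (h : In μ s c C n₀) (hL : LB84 μ s) : ∀ ε : ℝ, 0 < ε → ∃ κ c' : ℝ, 0 < κ ∧ 0 < c' ∧ ∃ K₀ : ℕ, ∀ K : ℕ, K₀ ≤ K →
    ∀ m k : ℕ, 1 ≤ m → m + k = K → ∀ t : ℝ, |t| * EE μ s K ≤ (K : ℝ) ^ κ →
    (law μ).real {η | ¬ QW μ s t η 0 m k (bd μ s K ε m) ≤ Real.exp (-(K : ℝ) ^ c') * Real.exp (T μ s (sl μ s) t η 0 K)} ≤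
      Real.exp (-(K : ℝ) ^ c') := by
  intro ε hε
  obtain ⟨δ₁, c₁, hδ₁, hc₁, L₁, hpin⟩ := pin84 h hε
  obtain ⟨δ, hδd⟩ : ∃ δ : ℝ, δ = min δ₁ 1 := ⟨_, rfl⟩
  have hδ0 : 0 < δ := by rw [hδd]; positivity
  have hδ1 : δ ≤ 1 := by rw [hδd]; exact min_le_right _ _
  have hδδ : δ ≤ δ₁ := by rw [hδd]; exact min_le_left _ _
  obtain ⟨δ₂, c₂, hδ₂, hc₂, L₂, hbox⟩ := pbox h (δ / 8) (by positivity)
  obtain ⟨B, hB, n₁, hn₁, hup⟩ := up_T h
  obtain ⟨K1, hK1, hsc⟩ := scale84 h hL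
  obtain ⟨κ, hκ, hsc⟩ := hsc δ hδ0 hδ1
  obtain ⟨C5, hC5⟩ : ∃ C5 : ℝ, C5 = C * (1 + 3 * Real.log B) + 3 := ⟨_, rfl⟩
  obtain ⟨c', hc'⟩ : ∃ c' : ℝ, c' = min (min c₁ c₂) (δ / 4) / 2 := ⟨_, rfl⟩
  have hm0 : 0 < min (min c₁ c₂) (δ / 4) := by positivity
  have hc'0 : 0 < c' := by rw [hc']; linarith
  have hc'1 : c' < c₁ := by
    have := (min_le_left (min c₁ c₂) (δ / 4)).trans (min_le_left _ _)
    rw [hc']; linarith
  have hc'2 : c' < c₂ := by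
    have := (min_le_left (min c₁ c₂) (δ / 4)).trans (min_le_right _ _)
    rw [hc']; linarith
  have hc'3 : c' < δ / 4 := by
    have := min_le_right (min c₁ c₂) (δ / 4)
    rw [hc']; linarith
  have ev1 := ev_pow94 0 (A := 6) (a := 1) (s := δ / 4) (c' := c') (by norm_num) one_pos hc'3 (by positivity)
  have ev2 := ev_pow94 0 (A := 1) (a := 1) (s := c₂) (c' := c') (by norm_num) one_pos hc'2 hc₂
  have ev3 := ev_pow94 1 (A := 1) (a := 1 / 2) (s := c₁) (c' := c') (by norm_num) (by norm_num) hc'1 hc₁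
  have ev4 := ev84 (K1 / c * 8 * (|C5| + 4 * |K1| + 4)) (show 0 < δ / 8 by positivity)
  obtain ⟨K₀, hK₀⟩ := eventually_atTop.1 (ev1.and (ev2.and (ev3.and (ev4.and ((hsc n₁).and
    (eventually_ge_atTop (max (max L₁ L₂) 1)))))))
  refine ⟨κ, c', hκ, hc'0, K₀, fun K hK m k hm hmk t ht => ?_⟩
  obtain ⟨h1, h2, h3, h4, ⟨r, hr1, hr1', hrK, hwr, hEr, hkr, htr⟩, h5⟩ := hK₀ K hK
  have g1 : L₁ ≤ K := (le_max_left _ _).trans ((le_max_left _ _).trans h5)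
  have g2 : L₂ ≤ K := (le_max_right _ _).trans ((le_max_left _ _).trans h5)
  have g3 : 1 ≤ K := (le_max_right _ _).trans h5
  have hK0 : (0 : ℝ) < K := by exact_mod_cast g3
  have hK1R : (1 : ℝ) ≤ K := by exact_mod_cast g3
  have htr' := htr t ht
  obtain ⟨a, ha⟩ : ∃ a : ℝ, a = (K : ℝ) ^ (δ / 8) := ⟨_, rfl⟩
  rw [← ha] at h4 hEr hkr
  have ha1 : 1 ≤ a := by rw [ha]; exact Real.one_le_rpow hK1R (by positivity)
  have ha2 : a ^ 2 = (K : ℝ) ^ (δ / 4) := by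
    rw [ha, ← Real.rpow_natCast, ← Real.rpow_mul hK0.le]
    congr 1
    push_cast
    ring
  have ha8 : a ^ 8 = (K : ℝ) ^ δ := by
    rw [ha, ← Real.rpow_natCast, ← Real.rpow_mul hK0.le]
    congr 1
    push_cast
    ring
  have hEr1 := one_le_EE (μ := μ) (s := s) r
  have hEK1 := one_le_EE (μ := μ) (s := s) K
  have hwr2 := wd_ge_one h hr1'
  have hwr0 : 0 < wd μ s r := by linarith
  have hwK := wd_two h g3
  have hc0 := h.c0
  have hc1 := h.c1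
  have hC1 := h.C1
  obtain ⟨h', hh'⟩ : ∃ h' : ℝ, h' = c / 2 * (EE μ s r / wd μ s r) := ⟨_, rfl⟩
  rw [← hh'] at htr'
  have hh'0 : 0 ≤ h' := by rw [hh']; positivity
  have hh'w : |h'| * wd μ s r ≤ c / 2 * EE μ s r := by
    rw [abs_of_nonneg hh'0, hh']
    apply le_of_eq
    field_simp
  have hh'w2 : |-h'| * wd μ s r ≤ c / 2 * EE μ s r := by rwa [abs_neg]
  have ht1 := Pool.Agent.W_7d29a1_HZ.Z94.t_le_one h hr1' hh'w
  rw [abs_of_nonneg hh'0] at ht1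
  have htabs : |t| ≤ 1 := by linarith
  -- the tails
  have u1 := hup r hr1 h' hh'w K (a ^ 2)
  have u2 := hup r hr1 (-h') hh'w2 K (a ^ 2)
  obtain ⟨U, hU⟩ : ∃ U : ℝ, U = C * EE μ s r * (a ^ 2 + (((K / r : ℕ) : ℝ) + 1) * Real.log B) +
      (((K / r : ℕ) : ℝ) + 1) * EE μ s r := ⟨_, rfl⟩
  rw [← hU] at u1 u2
  have hlB : 0 ≤ Real.log B := Real.log_nonneg hB
  have hUle : U ≤ C5 * a ^ 2 * EE μ s r := by
    rw [hU, hC5]
    have e1 : C * EE μ s r * (a ^ 2 + (((K / r : ℕ) : ℝ) + 1) * Real.log B) ≤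
        C * EE μ s r * (a ^ 2 + 3 * a ^ 2 * Real.log B) := by gcongr
    have e2 : (((K / r : ℕ) : ℝ) + 1) * EE μ s r ≤ 3 * a ^ 2 * EE μ s r := by gcongr
    refine (add_le_add e1 e2).trans (le_of_eq ?_)
    ring
  -- the box
  have b1 : (law μ).real {η | ¬ PBox μ s K δ₂ (δ / 8) η} ≤ Real.exp (-(K : ℝ) ^ c₂) :=
    ENNReal.toReal_le_of_le_ofReal (Real.exp_pos _).le (hbox K g2)
  -- the pinned polymers
  obtain ⟨D, hD⟩ : ∃ D : ℝ, D = a ^ 8 * wd μ s K := ⟨_, rfl⟩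
  have hD0 : 0 ≤ D := by rw [hD]; positivity
  have hDle : D ≤ (K : ℝ) ^ δ₁ * wd' μ s K := by
    rw [hD, ha8, wd'_eq' h g3]
    exact mul_le_mul_of_nonneg_right (Real.rpow_le_rpow_of_exponent_le hK1R hδδ) (by linarith)
  obtain ⟨P, hP⟩ : ∃ P : ℤ → Set Env, P = fun u : ℤ => {η | |(u : ℝ) - sl μ s * K| ≤ D ∧
    ¬ ∑ y ∈ bd μ s K ε m, W μ s η 0 m y * W μ s η ((0 : Pt).1 + m, (0 : Pt).2 + y) k (u - y) ≤
      Real.exp (-(1 / 2 * (K : ℝ) ^ c₁)) * W μ s η 0 K u} := ⟨_, rfl⟩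
  have p1 : (law μ).real (⋃ u ∈ Icc (0 : ℤ) K, P u) ≤ ((Icc (0 : ℤ) K).card : ℝ) * Real.exp (-(1 / 2 * (K : ℝ) ^ c₁)) := by
    refine Pool.Agent.W_7d29a1_HZ.Z21.union94 _ P fun u hu => ?_
    rw [mem_Icc] at hu
    rw [hP]
    by_cases hcone : |(u : ℝ) - sl μ s * K| ≤ D
    · refine (measureReal_mono fun η hη => ?_).trans (hpin K g1 m k hm hmk u hu.1 hu.2 (hcone.trans hDle))
      exact hη.2
    · have : {η : Env | |(u : ℝ) - sl μ s * K| ≤ D ∧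
          ¬ ∑ y ∈ bd μ s K ε m, W μ s η 0 m y * W μ s η ((0 : Pt).1 + m, (0 : Pt).2 + y) k (u - y) ≤
          Real.exp (-(1 / 2 * (K : ℝ) ^ c₁)) * W μ s η 0 K u} = ∅ := by
        ext η
        simp [hcone]
      beta_reduce
      rw [this, measureReal_empty]
      exact (Real.exp_pos _).le
  have hcard : ((Icc (0 : ℤ) K).card : ℝ) = (K : ℝ) + 1 := by
    rw [Int.card_Icc]
    have : ((K : ℤ) + 1 - 0).toNat = K + 1 := by omega
    rw [this]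
    push_cast
    ring
  rw [hcard] at p1
  have hincl : {η | ¬ QW μ s t η 0 m k (bd μ s K ε m) ≤ Real.exp (-(K : ℝ) ^ c') * Real.exp (T μ s (sl μ s) t η 0 K)} ⊆
      (({η | ¬ T μ s (sl μ s) h' η 0 K ≤ U} ∪ {η | ¬ T μ s (sl μ s) (-h') η 0 K ≤ U}) ∪ {η | ¬ PBox μ s K δ₂ (δ / 8) η}) ∪
        ⋃ u ∈ Icc (0 : ℤ) K, P u := by
    intro η hη
    by_contra hcon
    simp only [Set.mem_union, not_or] at hcon
    obtain ⟨⟨⟨c1', c2'⟩, c3'⟩, c4'⟩ := hcon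
    have q1 : T μ s (sl μ s) h' η 0 K ≤ U := not_not.1 c1'
    have q2 : T μ s (sl μ s) (-h') η 0 K ≤ U := not_not.1 c2'
    have q3 : PBox μ s K δ₂ (δ / 8) η := not_not.1 c3'
    refine hη ?_
    -- the lower bound
    have q4 : X μ s η 0 K (md μ s K) ≤ a * EE μ s K := by
      have q5 := (q3 0 K (by omega) 0 (by simp) (md μ s K) (h.md_nonneg K) (h.md_le_nat K)).2.2 (by
        refine (md_abs K).trans ?_
        have : 1 ≤ (K : ℝ) ^ δ₂ := Real.one_le_rpow hK1R hδ₂.le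
        rw [wd'_eq' h g3]
        exact one_le_mul_of_one_le_of_one_le this (by linarith))
      rw [EE'_eq, ← ha] at q5
      have q6 : W μ s η (((0 : ℕ) : ℤ), 0) K (md μ s K) = W μ s η 0 K (md μ s K) := by
        congr 1
      rw [q6] at q5
      have q7 := Real.log_le_log (Real.exp_pos _) q5
      rw [Real.log_exp] at q7
      unfold X
      linarith
    have q8 := low_T h t η K
    have hTh : -(4 * K1 * a ^ 2 * EE μ s r) - |t| ≤ T μ s (sl μ s) t η 0 K := by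
      have q9 : a * EE μ s K ≤ a * (K1 * a * EE μ s r) := mul_le_mul_of_nonneg_left hEr (by linarith)
      have q10 : 0 ≤ K1 * a ^ 2 * EE μ s r := by positivity
      have q11 : a * (K1 * a * EE μ s r) = K1 * a ^ 2 * EE μ s r := by ring
      have q12 : 4 * K1 * a ^ 2 * EE μ s r = 4 * (K1 * a ^ 2 * EE μ s r) := by ring
      rw [q11] at q9
      rw [q12]
      linarith
    have key := num84 (K1 := K1) (K2 := K1) (c := c) (C5 := C5) (D := D) (h' := h') (w := wd μ s K) ha1 hEr1 hwr0 hK1 hc0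
      hwr hh' hD (q1.trans hUle) (q2.trans hUle) hTh htabs h4
    subst hmk
    have det := loc_det (h := t) η m k (bd_sub (μ := μ) (s := s) (m + k) ε m) (D := D) htr' hD0
      (g := Real.exp (-(1 / 2 * ((m + k : ℕ) : ℝ) ^ c₁))) (Real.exp_pos _).le fun u hu0 hu1 hu => by
        by_contra hcon2
        refine c4' ?_
        rw [Set.mem_iUnion₂]
        refine ⟨u, mem_Icc.2 ⟨hu0, hu1⟩, ?_⟩
        rw [hP]
        exact ⟨hu, hcon2⟩
    refine det.trans ((add_le_add_right key _).trans ?_)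
    rw [← add_mul]
    refine mul_le_mul_of_nonneg_right ?_ (Real.exp_pos _).le
    rw [pow_zero, one_mul, one_mul, ← ha2] at h1
    rw [pow_one, one_mul] at h3
    have z1 := Real.exp_pos (-(1 / 2 * ((m + k : ℕ) : ℝ) ^ c₁))
    have z2 := Real.exp_pos (-a ^ 2)
    have z3 := Real.exp_pos (-((m + k : ℕ) : ℝ) ^ c')
    have z4 : 1 * Real.exp (-(1 / 2 * ((m + k : ℕ) : ℝ) ^ c₁)) ≤
        (((m + k : ℕ) : ℝ) + 1) * Real.exp (-(1 / 2 * ((m + k : ℕ) : ℝ) ^ c₁)) :=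
      mul_le_mul_of_nonneg_right (by linarith) z1.le
    linarith
  refine (measureReal_mono hincl).trans ((measureReal_union_le _ _).trans ?_)
  have v1 := measureReal_union_le (μ := law μ) ({η | ¬ T μ s (sl μ s) h' η 0 K ≤ U} ∪ {η | ¬ T μ s (sl μ s) (-h') η 0 K ≤ U})
    {η | ¬ PBox μ s K δ₂ (δ / 8) η}
  have v2 := measureReal_union_le (μ := law μ) {η | ¬ T μ s (sl μ s) h' η 0 K ≤ U} {η | ¬ T μ s (sl μ s) (-h') η 0 K ≤ U}
  rw [pow_zero, one_mul, one_mul, ← ha2] at h1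
  rw [pow_zero, one_mul, one_mul, one_mul] at h2
  rw [pow_one, one_mul] at h3
  have z3 := Real.exp_pos (-(K : ℝ) ^ c')
  linarith

/-- **The tilted free polymer stays in the window**, every start. -/
theorem loc84 (h : In μ s c C n₀) (hL : LB84 μ s) : ∀ ε : ℝ, 0 < ε → ∃ κ c' : ℝ, 0 < κ ∧ 0 < c' ∧ ∃ K₀ : ℕ, ∀ K : ℕ, K₀ ≤ K →
    ∀ m k : ℕ, 1 ≤ m → m + k = K → ∀ t : ℝ, |t| * EE μ s K ≤ (K : ℝ) ^ κ → ∀ a : Pt,
    (law μ).real {η | ¬ QW μ s t η a m k (bd μ s K ε m) ≤ Real.exp (-(K : ℝ) ^ c') * Real.exp (T μ s (sl μ s) t η a K)} ≤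
      Real.exp (-(K : ℝ) ^ c') := by
  intro ε hε
  obtain ⟨κ, c', hκ, hc', K₀, H⟩ := loc84_zero h hL ε hε
  refine ⟨κ, c', hκ, hc', K₀, fun K hK m k hm hmk t ht a => ?_⟩
  have h1 := H K hK m k hm hmk t ht
  have hm2 : MeasurableSet {η : Env | ¬ QW μ s t η 0 m k (bd μ s K ε m) ≤
      Real.exp (-(K : ℝ) ^ c') * Real.exp (T μ s (sl μ s) t η 0 K)} :=
    (measurableSet_le (meas_QW t 0 m k _) ((Real.measurable_exp.comp (meas_T t 0 K)).const_mul _)).compl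
  have h2 := real_sh (μ := μ) a hm2
  rw [← h2] at h1
  have e : {η | sh a η ∈ {η : Env | ¬ QW μ s t η 0 m k (bd μ s K ε m) ≤
      Real.exp (-(K : ℝ) ^ c') * Real.exp (T μ s (sl μ s) t η 0 K)}} =
      {η | ¬ QW μ s t η a m k (bd μ s K ε m) ≤ Real.exp (-(K : ℝ) ^ c') * Real.exp (T μ s (sl μ s) t η a K)} := by
    ext η
    simp only [Set.mem_ofPred_eq, QW_sh, Pool.Agent.W_7d29a1_L.T_sh, zero_add]
  rw [← e]
  exact h1

end

end Pool.Agent.W_7d29a1_C1.Win84
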