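import Pool.Agent.W_7d29a1_C1.WinC84
import Pool.Agent.W_7d29a1_HZ.Z3_Er3

/-!
[C1] HYBRIDS, CLOSURE (C) (helper84): `trunc84`, the truncation of the free energy to the window costs at most `1`.
-/

set_option autoImplicit false

namespace Pool.Agent.W_7d29a1_C1.Win84

open MeasureTheory ProbabilityTheory Filter Topology Finset
open Pool.Agent.W_7d29a1_F Pool.Agent.W_7d29a1_X Pool.Agent.W_7d29a1_h4g Pool.Agent.W_7d29a1_H
open Pool.Agent.W_7d29a1_HS (In wd md md_abs wd_ge_one)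
open Pool.Agent.W_7d29a1_L (T kap exp_T exp_T_add)
open Pool.Agent.W_7d29a1_HZ (gp P1 NSp ns PBox pbox wd' EE' EE'_pow wd'_pow)
open Pool.Agent.W_7d29a1_HZ.Z21 (ev_pow94)
open Pool.Agent.W_7d29a1_Z3 (sum_abs_sq_le int_le_of_bad)
open scoped ENNReal

noncomputable section

variable {μ : Measure ℝ} {s : ℝ} [IsProbabilityMeasure μ] {c C : ℝ} {n₀ : ℕ}

/-! ### Crude bounds -/

omit [IsProbabilityMeasure μ] in
theorem Sub_T (t : ℝ) (a : Pt) (n : ℕ) : Sub fun η : Env => T μ s (sl μ s) t η a n := by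
  unfold T
  exact (Sub_V (μ := μ) (s := s + t) a n).add (Sub.const _)

/-- The crude deterministic bound of the tilted luck. -/
theorem abs_T_le (h : In μ s c C n₀) {t : ℝ} (ht : |t| ≤ 1) (η : Env) (n : ℕ) :
    |T μ s (sl μ s) t η 0 n| ≤ n * (|lam μ s| + |s| + Real.log 2 + 2) + 1 +
      ∑ p ∈ Icc (0 : ℤ) n ×ˢ Icc (0 : ℤ) n, |η p| := by
  obtain ⟨S, hS⟩ : ∃ S : ℝ, S = ∑ p ∈ Icc (0 : ℤ) n ×ˢ Icc (0 : ℤ) n, |η p| := ⟨_, rfl⟩
  obtain ⟨κ, hκ⟩ : ∃ κ : ℝ, κ = |lam μ s| + |s| + Real.log 2 := ⟨_, rfl⟩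
  have hX : ∀ y : ℤ, 0 ≤ y → y ≤ n → |X μ s η 0 n y| ≤ n * κ + S := fun y h0 h1 => by
    rw [hκ, hS]
    exact Pool.Agent.W_7d29a1_HZ.Z3.abs_X_le η h0 h1
  rw [← hS, ← hκ]
  have hn : (0 : ℝ) ≤ n := Nat.cast_nonneg n
  have hs0 := h.sl_pos
  have hs1 := h.sl_lt
  rw [abs_le]
  constructor
  · have h1 := low_T h t η n
    have h2 := hX (md μ s n) (h.md_nonneg n) (h.md_le_nat n)
    have h3 := (abs_le.1 h2).2
    linarith
  · have h1 : Real.exp (T μ s (sl μ s) t η 0 n) ≤ Real.exp (n * (κ + 2) + S) := by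
      rw [exp_T]
      have h2 : ∀ y ∈ Icc (0 : ℤ) n, W μ s η 0 n y * Real.exp (t * ((y : ℝ) - sl μ s * n)) ≤ Real.exp (n * (κ + 1) + S) := by
        intro y hy
        rw [mem_Icc] at hy
        have hW := W_pos (μ := μ) (s := s) η 0 hy.1 hy.2
        have h3 := (abs_le.1 (hX y hy.1 hy.2)).1
        have h4 : W μ s η 0 n y = Real.exp (-X μ s η 0 n y) := by
          unfold X
          rw [neg_neg, Real.exp_log hW]
        have hy0 : (0 : ℝ) ≤ y := by exact_mod_cast hy.1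
        have hy1 : (y : ℝ) ≤ n := by exact_mod_cast hy.2
        have h5 : t * ((y : ℝ) - sl μ s * n) ≤ n := by
          have h6 : |(y : ℝ) - sl μ s * n| ≤ n := by
            have h7 : sl μ s * n ≤ 1 * n := mul_le_mul_of_nonneg_right hs1.le hn
            have h8 : 0 ≤ sl μ s * n := by positivity
            rw [abs_le]
            constructor <;> linarith
          calc t * ((y : ℝ) - sl μ s * n) ≤ |t * ((y : ℝ) - sl μ s * n)| := le_abs_self _
            _ = |t| * |(y : ℝ) - sl μ s * n| := abs_mul _ _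
            _ ≤ 1 * n := mul_le_mul ht h6 (abs_nonneg _) (by norm_num)
            _ = n := one_mul _
        rw [h4, ← Real.exp_add]
        refine Real.exp_le_exp.2 ?_
        linarith
      refine (sum_le_card_nsmul _ _ _ h2).trans ?_
      rw [Int.card_Icc, nsmul_eq_mul]
      have h9 : (((n : ℤ) + 1 - 0).toNat : ℝ) = (n : ℝ) + 1 := by
        have : ((n : ℤ) + 1 - 0).toNat = n + 1 := by omega
        rw [this]
        push_cast
        ring
      rw [h9]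
      have h10 : Real.exp (n * (κ + 2) + S) = Real.exp n * Real.exp (n * (κ + 1) + S) := by
        rw [← Real.exp_add]
        congr 1
        ring
      rw [h10]
      exact mul_le_mul_of_nonneg_right (Real.add_one_le_exp _) (Real.exp_pos _).le
    have h2 := Real.exp_le_exp.1 h1
    linarith

/-- The second moment of the tilted luck. -/
theorem T_sq_le (h : In μ s c C n₀) : ∃ K : ℝ, 0 < K ∧ ∀ (n : ℕ) (t : ℝ), |t| ≤ 1 → ∀ a : Pt,
    ∫ η, T μ s (sl μ s) t η a n ^ 2 ∂(law μ) ≤ K * ((n : ℝ) + 1) ^ 4 := by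
  obtain ⟨m2, hm2, hQ⟩ := sum_abs_sq_le (μ := μ) h.em
  obtain ⟨κ, hκ⟩ : ∃ κ, κ = |lam μ s| + |s| + Real.log 2 + 2 := ⟨_, rfl⟩
  have hκ0 : 0 < κ := by
    rw [hκ]
    have := Real.log_pos (show (1 : ℝ) < 2 by norm_num)
    positivity
  refine ⟨2 * (κ + 1) ^ 2 + 2 * m2, by positivity, fun n t ht a => ?_⟩
  have e0 : ∫ η, T μ s (sl μ s) t η a n ^ 2 ∂(law μ) = ∫ η, T μ s (sl μ s) t η 0 n ^ 2 ∂(law μ) := by
    have h1 := Pool.Agent.W_7d29a1_f21.mp_integral (mp_sh (μ := μ) a) (F := fun η : Env => T μ s (sl μ s) t η 0 n ^ 2)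
      ((meas_T t 0 n).pow_const 2).aestronglyMeasurable
    rw [← h1]
    refine integral_congr_ae (Eventually.of_forall fun η => ?_)
    show T μ s (sl μ s) t η a n ^ 2 = T μ s (sl μ s) t (sh a η) 0 n ^ 2
    rw [Pool.Agent.W_7d29a1_L.T_sh, zero_add]
  rw [e0]
  obtain ⟨Q, hQd⟩ : ∃ Q : Finset Pt, Q = Icc (0 : ℤ) n ×ˢ Icc (0 : ℤ) n := ⟨_, rfl⟩
  have hc : (Q.card : ℝ) = ((n : ℝ) + 1) ^ 2 := by
    rw [hQd, Finset.card_product, Int.card_Icc]
    push_cast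
    have : ((n : ℤ) + 1 - 0).toNat = n + 1 := by omega
    rw [this]
    push_cast
    ring
  have hS : Sub fun η : Env => ∑ p ∈ Q, |η p| := Sub.sum Q fun p _ => (Sub.coord p).abs
  have hn0 : (0 : ℝ) ≤ n := Nat.cast_nonneg n
  calc ∫ η, T μ s (sl μ s) t η 0 n ^ 2 ∂(law μ)
      ≤ ∫ η, (2 * (n * κ + 1) ^ 2 + 2 * (∑ p ∈ Q, |η p|) ^ 2) ∂(law μ) := by
        refine integral_mono ((Sub_T t 0 n).sq_integrable h.em)
          ((integrable_const _).add (((hS.sq_integrable h.em)).const_mul 2)) fun η => ?_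
        have h2 := abs_T_le h ht η n
        rw [← hκ, ← hQd] at h2
        have h3 : T μ s (sl μ s) t η 0 n ^ 2 ≤ (n * κ + 1 + ∑ p ∈ Q, |η p|) ^ 2 := by
          rw [← sq_abs (T μ s (sl μ s) t η 0 n)]
          exact pow_le_pow_left₀ (abs_nonneg _) h2 2
        have h4 := sq_nonneg (n * κ + 1 - ∑ p ∈ Q, |η p|)
        show T μ s (sl μ s) t η 0 n ^ 2 ≤ 2 * (n * κ + 1) ^ 2 + 2 * (∑ p ∈ Q, |η p|) ^ 2
        have h5 : (n * κ + 1 + ∑ p ∈ Q, |η p|) ^ 2 + (n * κ + 1 - ∑ p ∈ Q, |η p|) ^ 2 =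
            2 * (n * κ + 1) ^ 2 + 2 * (∑ p ∈ Q, |η p|) ^ 2 := by ring
        linarith
    _ = 2 * (n * κ + 1) ^ 2 + 2 * ∫ η, (∑ p ∈ Q, |η p|) ^ 2 ∂(law μ) := by
        have g5 : ∫ η, 2 * (∑ p ∈ Q, |η p|) ^ 2 ∂(law μ) = 2 * ∫ η, (∑ p ∈ Q, |η p|) ^ 2 ∂(law μ) := integral_const_mul _ _
        rw [integral_add (integrable_const _) ((hS.sq_integrable h.em).const_mul 2), g5]
        simp
    _ ≤ 2 * (n * κ + 1) ^ 2 + 2 * (((n : ℝ) + 1) ^ 4 * m2) := by
        have := hQ Q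
        rw [hc] at this
        have e2 : (((n : ℝ) + 1) ^ 2) ^ 2 = ((n : ℝ) + 1) ^ 4 := by ring
        rw [e2] at this
        linarith
    _ ≤ (2 * (κ + 1) ^ 2 + 2 * m2) * ((n : ℝ) + 1) ^ 4 := by
        have h4 : (n * κ + 1) ^ 2 ≤ ((κ + 1) * ((n : ℝ) + 1)) ^ 2 := by
          refine pow_le_pow_left₀ (by positivity) ?_ 2
          have : 0 ≤ κ + n := by positivity
          linarith [show (κ + 1) * ((n : ℝ) + 1) = n * κ + 1 + (κ + n) by ring]
        have h5 : ((n : ℝ) + 1) ^ 2 ≤ ((n : ℝ) + 1) ^ 4 := pow_le_pow_right₀ (by linarith) (by norm_num)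
        have h6 : ((κ + 1) * ((n : ℝ) + 1)) ^ 2 = (κ + 1) ^ 2 * ((n : ℝ) + 1) ^ 2 := by ring
        have h7 := mul_le_mul_of_nonneg_left h5 (sq_nonneg (κ + 1))
        rw [h6] at h4
        linarith [show (2 * (κ + 1) ^ 2 + 2 * m2) * ((n : ℝ) + 1) ^ 4 =
          2 * ((κ + 1) ^ 2 * ((n : ℝ) + 1) ^ 4) + 2 * (((n : ℝ) + 1) ^ 4 * m2) by ring]

omit [IsProbabilityMeasure μ] in
/-- The windowed mass is at least one site. -/
theorem QW_ge (η : Env) (t : ℝ) (a : Pt) (m k : ℕ) {A : Finset ℤ} {y : ℤ} (hy : y ∈ A) (h0 : 0 ≤ y) (h1 : y ≤ m) :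
    Real.exp (-X μ s η a m y + t * ((y : ℝ) - sl μ s * m) + T μ s (sl μ s) t η (a.1 + m, a.2 + y) k) ≤
      QW μ s t η a m k A := by
  have h2 := single_le_sum (s := A) (f := fun y : ℤ => (W μ s η a m y * Real.exp (t * ((y : ℝ) - sl μ s * m))) *
    Real.exp (T μ s (sl μ s) t η (a.1 + m, a.2 + y) k)) (fun y _ =>
      mul_nonneg (mul_nonneg (W_nonneg _ _ _ _) (Real.exp_pos _).le) (Real.exp_pos _).le) hy
  refine le_trans (le_of_eq ?_) h2
  have hW := W_pos (μ := μ) (s := s) η a h0 h1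
  have h4 : W μ s η a m y = Real.exp (-X μ s η a m y) := by
    unfold X
    rw [neg_neg, Real.exp_log hW]
  show _ = (W μ s η a m y * Real.exp (t * ((y : ℝ) - sl μ s * m))) * Real.exp (T μ s (sl μ s) t η (a.1 + m, a.2 + y) k)
  rw [h4, ← Real.exp_add, ← Real.exp_add]

/-- The bounds of the logarithm of the windowed mass. -/
theorem logQW (η : Env) (t : ℝ) (a : Pt) (m k : ℕ) {A : Finset ℤ} (hA : A ⊆ Icc (0 : ℤ) m) {y : ℤ} (hy : y ∈ A) :
    0 < QW μ s t η a m k A ∧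
    -X μ s η a m y + t * ((y : ℝ) - sl μ s * m) + T μ s (sl μ s) t η (a.1 + m, a.2 + y) k ≤ Real.log (QW μ s t η a m k A) ∧
    Real.log (QW μ s t η a m k A) ≤ T μ s (sl μ s) t η a (m + k) := by
  have hy' := mem_Icc.1 (hA hy)
  have h1 := QW_ge (μ := μ) (s := s) η t a m k hy hy'.1 hy'.2
  have h2 : 0 < QW μ s t η a m k A := (Real.exp_pos _).trans_le h1
  refine ⟨h2, ?_, ?_⟩
  · have h3 := Real.log_le_log (Real.exp_pos _) h1
    rwa [Real.log_exp] at h3
  · have h3 := QW_mono (μ := μ) (s := s) (h := t) η a m k hA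
    rw [QW_full] at h3
    have h4 := Real.log_le_log h2 h3
    rwa [Real.log_exp] at h4

theorem Sub_logQW (t : ℝ) (a : Pt) (m k : ℕ) {A : Finset ℤ} (hA : A ⊆ Icc (0 : ℤ) m) {y : ℤ} (hy : y ∈ A) :
    Sub fun η : Env => Real.log (QW μ s t η a m k A) := by
  have hy' := mem_Icc.1 (hA hy)
  exact Sub.of_le (Real.measurable_log.comp (meas_QW t a m k A))
    (((Sub_X a hy'.1 hy'.2).neg.add (Sub.const (t * ((y : ℝ) - sl μ s * m)))).add (Sub_T (μ := μ) (s := s) t _ k))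
    (Sub_T (μ := μ) (s := s) t a (m + k)) (fun η => (logQW η t a m k hA hy).2.1) fun η => (logQW η t a m k hA hy).2.2

/-- **The truncation to the window.** -/
theorem trunc84 (h : In μ s c C n₀) (hL : LB84 μ s) : ∀ ε : ℝ, 0 < ε → ∃ κ : ℝ, 0 < κ ∧ ∃ K₀ : ℕ, ∀ K : ℕ, K₀ ≤ K →
    ∀ m k : ℕ, 1 ≤ m → m + k = K → ∀ t : ℝ, |t| ≤ 1 → |t| * EE μ s K ≤ (K : ℝ) ^ κ → ∀ A : Finset ℤ, A ⊆ Icc (0 : ℤ) m →
    (∀ y : ℤ, 0 ≤ y → y ≤ m → |(y : ℝ) - sl μ s * m| ≤ (K : ℝ) ^ ε * wd' μ s m → y ∈ A) →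
    ∫ η, T μ s (sl μ s) t η 0 K ∂(law μ) - ∫ η, Real.log (QW μ s t η 0 m k A) ∂(law μ) ≤ 1 := by
  intro ε hε
  obtain ⟨κ, c', hκ, hc', K₀, hloc⟩ := loc84_zero h hL ε hε
  obtain ⟨B1, hB1, hT2⟩ := T_sq_le h
  obtain ⟨B2, hB2, hX2⟩ := Pool.Agent.W_7d29a1_HZ.Z3.X_sq_le h.em s
  obtain ⟨B, hB⟩ : ∃ B : ℝ, B = 2 * B1 + B2 + 1 := ⟨_, rfl⟩
  have hB0 : 0 < B := by rw [hB]; positivity
  have ev1 := ev_pow94 2 (A := 2 * Real.sqrt B) (a := 1 / 2) (s := c') (c' := c' / 2) (by positivity) (by norm_num) (by linarith) hc'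
  have ev2 := ev_pow94 0 (A := 1) (a := 1) (s := c') (c' := c' / 2) (by norm_num) (by norm_num) (by linarith) hc'
  have ev3 := ev84 2 (show 0 < c' / 2 by positivity)
  obtain ⟨K₁, hK₁⟩ := eventually_atTop.1 (ev1.and (ev2.and (ev3.and (eventually_ge_atTop 1))))
  refine ⟨κ, hκ, max K₀ K₁, fun K hK m k hm hmk t ht htK A hA hAm => ?_⟩
  have g1 : K₀ ≤ K := (le_max_left _ _).trans hK
  obtain ⟨h1, h2, h3, h4⟩ := hK₁ K ((le_max_right _ _).trans hK)
  rw [pow_zero, one_mul, one_mul, one_mul] at h2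
  have hlc := hloc K g1 m k hm hmk t htK
  obtain ⟨x, hx⟩ : ∃ x : ℝ, x = (K : ℝ) ^ c' := ⟨_, rfl⟩
  rw [← hx] at h1 h2 hlc
  have hsmall : Real.exp (-(K : ℝ) ^ (c' / 2)) ≤ 1 / 3 := by
    have h5 : Real.exp (-(K : ℝ) ^ (c' / 2)) ≤ Real.exp (-2) := Real.exp_le_exp.2 (by linarith)
    have h6 : (3 : ℝ) ≤ Real.exp 2 := by
      have := Real.add_one_le_exp (2 : ℝ)
      linarith
    have h7 : Real.exp (-2) * Real.exp 2 = 1 := by rw [← Real.exp_add]; norm_num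
    have h8 := Real.exp_pos (-2)
    have h9 := mul_le_mul_of_nonneg_left h6 h8.le
    linarith only [h5, h7, h9]
  have hg : Real.exp (-x) ≤ 1 / 9 := by linarith
  have hg0 := Real.exp_pos (-x)
  -- the site of the middle
  have hmdA : md μ s m ∈ A := by
    refine hAm _ (h.md_nonneg m) (h.md_le_nat m) ((md_abs m).trans ?_)
    have hK1R : (1 : ℝ) ≤ K := by exact_mod_cast h4
    have : 1 ≤ (K : ℝ) ^ ε := Real.one_le_rpow hK1R hε.le
    rw [wd'_eq' h hm]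
    exact one_le_mul_of_one_le_of_one_le this (by linarith [wd_two h hm])
  have hS1 : Sub fun η : Env => T μ s (sl μ s) t η 0 K := Sub_T (μ := μ) (s := s) t 0 K
  have hS2 : Sub fun η : Env => Real.log (QW μ s t η 0 m k A) := Sub_logQW (μ := μ) (s := s) t 0 m k hA hmdA
  have hS : Sub fun η : Env => T μ s (sl μ s) t η 0 K - Real.log (QW μ s t η 0 m k A) := hS1.sub hS2
  rw [← integral_sub (hS1.integrable h.em) (hS2.integrable h.em)]
  have hmem := mem_Icc.1 (hA hmdA)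
  have key := int_le_of_bad (P := law μ) (D := fun η : Env => T μ s (sl μ s) t η 0 K - Real.log (QW μ s t η 0 m k A)) hS.1
    (hS.integrable h.em) (hS.sq_integrable h.em) (A := 1 / 2) (δ := Real.exp (-x)) (M := 2 * Real.sqrt B * ((K : ℝ) + 1) ^ 2)
    (by norm_num) (by positivity) ?_ ?_
  · refine key.trans ?_
    have h5 : Real.sqrt (Real.exp (-x)) = Real.exp (-(1 / 2 * x)) := by
      rw [Real.sqrt_eq_iff_mul_self_eq (Real.exp_pos _).le (Real.exp_pos _).le, ← Real.exp_add]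
      congr 1
      ring
    rw [h5]
    have h6 : 2 * Real.sqrt B * ((K : ℝ) + 1) ^ 2 * Real.exp (-(1 / 2 * x)) =
        ((K : ℝ) + 1) ^ 2 * (2 * Real.sqrt B * Real.exp (-(1 / 2 * x))) := by ring
    rw [h6]
    linarith
  · -- the second moment
    have hT0 := hT2 K t ht 0
    have hT1 := hT2 k t ht (((0 : Pt).1 + m, (0 : Pt).2 + md μ s m))
    have hX := hX2 m (md μ s m) hmem.1 hmem.2
    have hi1 := (Sub_T (μ := μ) (s := s) t 0 K).sq_integrable h.em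
    have hi2 := (Sub_T (μ := μ) (s := s) t (((0 : Pt).1 + m, (0 : Pt).2 + md μ s m)) k).sq_integrable h.em
    have hi3 := (Sub_X (μ := μ) (s := s) 0 hmem.1 hmem.2).sq_integrable h.em
    have hKR : (0 : ℝ) ≤ K := Nat.cast_nonneg K
    calc ∫ η, (T μ s (sl μ s) t η 0 K - Real.log (QW μ s t η 0 m k A)) ^ 2 ∂(law μ)
        ≤ ∫ η, 4 * ((T μ s (sl μ s) t η 0 K ^ 2 + X μ s η 0 m (md μ s m) ^ 2) +
            (1 + T μ s (sl μ s) t η ((0 : Pt).1 + m, (0 : Pt).2 + md μ s m) k ^ 2)) ∂(law μ) := by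
          refine integral_mono (hS.sq_integrable h.em) (((hi1.add hi3).add ((integrable_const 1).add hi2)).const_mul 4)
            fun η => ?_
          obtain ⟨l1, l2, l3⟩ := logQW (μ := μ) (s := s) η t 0 m k hA hmdA
          rw [hmk] at l3
          obtain ⟨u, hu⟩ : ∃ u : ℝ, u = T μ s (sl μ s) t η 0 K := ⟨_, rfl⟩
          obtain ⟨v, hv⟩ : ∃ v : ℝ, v = X μ s η 0 m (md μ s m) := ⟨_, rfl⟩
          obtain ⟨w, hw⟩ : ∃ w : ℝ, w = T μ s (sl μ s) t η ((0 : Pt).1 + m, (0 : Pt).2 + md μ s m) k := ⟨_, rfl⟩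
          obtain ⟨q, hq⟩ : ∃ q : ℝ, q = Real.log (QW μ s t η 0 m k A) := ⟨_, rfl⟩
          show (T μ s (sl μ s) t η 0 K - Real.log (QW μ s t η 0 m k A)) ^ 2 ≤
            4 * ((T μ s (sl μ s) t η 0 K ^ 2 + X μ s η 0 m (md μ s m) ^ 2) +
            (1 + T μ s (sl μ s) t η ((0 : Pt).1 + m, (0 : Pt).2 + md μ s m) k ^ 2))
          rw [← hu, ← hv, ← hw, ← hq]
          rw [← hv, ← hw, ← hq] at l2
          rw [← hu, ← hq] at l3
          have h5 : |t * (((md μ s m : ℤ) : ℝ) - sl μ s * m)| ≤ 1 := by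
            rw [abs_mul]
            exact mul_le_one₀ ht (abs_nonneg _) (md_abs m)
          have h6 := (abs_le.1 h5).1
          have h7 : u - q ≤ |u| + |v| + (1 + |w|) := by
            have a1 := le_abs_self u
            have a2 := le_abs_self v
            have a3 := neg_abs_le w
            linarith
          have h8 : (u - q) ^ 2 ≤ (|u| + |v| + (1 + |w|)) ^ 2 := pow_le_pow_left₀ (by linarith) h7 2
          have e1 : |u| ^ 2 = u ^ 2 := sq_abs u
          have e2 : |v| ^ 2 = v ^ 2 := sq_abs v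
          have e3 : |w| ^ 2 = w ^ 2 := sq_abs w
          have h9 : (|u| + |v| + (1 + |w|)) ^ 2 ≤ 4 * ((|u| ^ 2 + |v| ^ 2) + (1 + |w| ^ 2)) := by
            linarith only [sq_nonneg (|u| - |v|), sq_nonneg (|u| - 1), sq_nonneg (|u| - |w|), sq_nonneg (|v| - 1),
              sq_nonneg (|v| - |w|), sq_nonneg (1 - |w|)]
          rw [e1, e2, e3] at h9
          exact h8.trans h9
      _ = 4 * ((∫ η, T μ s (sl μ s) t η 0 K ^ 2 ∂(law μ) + ∫ η, X μ s η 0 m (md μ s m) ^ 2 ∂(law μ)) +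
            (1 + ∫ η, T μ s (sl μ s) t η ((0 : Pt).1 + m, (0 : Pt).2 + md μ s m) k ^ 2 ∂(law μ))) := by
          rw [integral_const_mul]
          congr 1
          have j1 := integral_add (hi1.add hi3) ((integrable_const (μ := law μ) (1 : ℝ)).add hi2)
          have j2 := integral_add hi1 hi3
          have j3 := integral_add (integrable_const (μ := law μ) (1 : ℝ)) hi2
          have j4 : ∫ _η : Env, (1 : ℝ) ∂(law μ) = 1 := by simp
          simp only [Pi.add_apply] at j1 j2 j3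
          rw [j1, j2, j3, j4]
      _ ≤ (2 * Real.sqrt B * ((K : ℝ) + 1) ^ 2) ^ 2 := by
          have hmK : ((m : ℝ) + 1) ^ 4 ≤ ((K : ℝ) + 1) ^ 4 := by
            refine pow_le_pow_left₀ (by positivity) ?_ 4
            have : (m : ℝ) ≤ K := by exact_mod_cast (by omega : m ≤ K)
            linarith
          have hkK : ((k : ℝ) + 1) ^ 4 ≤ ((K : ℝ) + 1) ^ 4 := by
            refine pow_le_pow_left₀ (by positivity) ?_ 4
            have : (k : ℝ) ≤ K := by exact_mod_cast (by omega : k ≤ K)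
            linarith
          have h1K : 1 ≤ ((K : ℝ) + 1) ^ 4 := one_le_pow₀ (by linarith)
          have e1 : (2 * Real.sqrt B * ((K : ℝ) + 1) ^ 2) ^ 2 = 4 * B * ((K : ℝ) + 1) ^ 4 := by
            have := Real.sq_sqrt hB0.le
            calc (2 * Real.sqrt B * ((K : ℝ) + 1) ^ 2) ^ 2 = 4 * Real.sqrt B ^ 2 * ((K : ℝ) + 1) ^ 4 := by ring
              _ = _ := by rw [this]
          rw [e1, hB]
          have i1 := hX.trans (mul_le_mul_of_nonneg_left hmK hB2.le)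
          have i2 := hT1.trans (mul_le_mul_of_nonneg_left hkK hB1.le)
          linarith [show 4 * (2 * B1 + B2 + 1) * ((K : ℝ) + 1) ^ 4 =
            4 * ((B1 * ((K : ℝ) + 1) ^ 4 + B2 * ((K : ℝ) + 1) ^ 4) + (((K : ℝ) + 1) ^ 4 + B1 * ((K : ℝ) + 1) ^ 4)) by ring]
  · -- the bad event
    refine (measureReal_mono fun η hη => ?_).trans hlc
    have hη' : 1 / 2 < T μ s (sl μ s) t η 0 K - Real.log (QW μ s t η 0 m k A) := hη
    intro hgood
    have l1 := (logQW (μ := μ) (s := s) η t 0 m k hA hmdA).1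
    have l2 : Real.exp (T μ s (sl μ s) t η 0 K) ≤ QW μ s t η 0 m k A + QW μ s t η 0 m k (bd μ s K ε m) := by
      have l3 := QW_full (μ := μ) (s := s) (h := t) η 0 m k
      rw [hmk] at l3
      rw [← l3]
      classical
      have l4 := QW_split (μ := μ) (s := s) (h := t) η 0 m k (fun y => y ∈ A) (Icc (0 : ℤ) m)
      have l5 : QW μ s t η 0 m k ((Icc (0 : ℤ) m).filter fun y => y ∈ A) ≤ QW μ s t η 0 m k A :=
        QW_mono η 0 m k fun y hy => (mem_filter.1 hy).2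
      have l6 : QW μ s t η 0 m k ((Icc (0 : ℤ) m).filter fun y => ¬ y ∈ A) ≤ QW μ s t η 0 m k (bd μ s K ε m) := by
        refine QW_mono η 0 m k fun y hy => ?_
        rw [mem_filter, mem_Icc] at hy
        rw [mem_bd]
        exact ⟨hy.1, fun hc => hy.2 (hAm y hy.1.1 hy.1.2 hc)⟩
      linarith
    have hE := Real.exp_pos (T μ s (sl μ s) t η 0 K)
    have l7 : 8 / 9 * Real.exp (T μ s (sl μ s) t η 0 K) ≤ QW μ s t η 0 m k A := by
      have := mul_le_mul_of_nonneg_right hg hE.le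
      linarith
    have l8 : Real.exp (T μ s (sl μ s) t η 0 K - 1 / 2) ≤ 2 / 3 * Real.exp (T μ s (sl μ s) t η 0 K) := by
      have l9 : Real.exp (T μ s (sl μ s) t η 0 K - 1 / 2) * Real.exp (1 / 2) = Real.exp (T μ s (sl μ s) t η 0 K) := by
        rw [← Real.exp_add]
        congr 1
        ring
      have l10 := Real.add_one_le_exp (1 / 2 : ℝ)
      have l11 := Real.exp_pos (T μ s (sl μ s) t η 0 K - 1 / 2)
      have l13 := mul_le_mul_of_nonneg_left l10 l11.le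
      linarith only [l9, l13]
    have l12 := Real.log_le_log (Real.exp_pos _) (l8.trans ((mul_le_mul_of_nonneg_right (by norm_num) hE.le).trans l7))
    rw [Real.log_exp] at l12
    linarith

end

end Pool.Agent.W_7d29a1_C1.Win84
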