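import Pool.Agent.W_7d29a1_C1.WinD84
import Pool.Agent.W_7d29a1_C1.WnD8
import Pool.Agent.W_7d29a1_C1.EndF17

/-!
[C1] HYBRIDS, CLOSURE (C) (helper84): **`wn84`: the window of the hybrids** (the predicate `WN8` of helper8): the truncation to the window
costs at most `1`, and the total decrease of the windowed mass is at most `n ^ (c₁ + δ) EE n`.
-/

set_option autoImplicit false

namespace Pool.Agent.W_7d29a1_C1.Win84

open MeasureTheory ProbabilityTheory Filter Topology Finset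
open Pool.Agent.W_7d29a1_F Pool.Agent.W_7d29a1_X Pool.Agent.W_7d29a1_h4g Pool.Agent.W_7d29a1_H
open Pool.Agent.W_7d29a1_HS (In wd md md_abs wd_ge_one)
open Pool.Agent.W_7d29a1_L (T kap exp_T exp_T_add)
open Pool.Agent.W_7d29a1_HZ (gp P1 NSp ns PBox pbox wd' EE' EE'_pow wd'_pow)
open Pool.Agent.W_7d29a1_HZ.Z21 (ev_pow94)
open Pool.Agent.W_7d29a1_Z3 (sum_abs_sq_le int_le_of_bad)
open Pool.Agent.W_7d29a1_C1.H8 (Wn)
open scoped ENNReal

noncomputable section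

variable {μ : Measure ℝ} {s : ℝ} [IsProbabilityMeasure μ] {c C : ℝ} {n₀ : ℕ}

/-- The mean cost of a displacement in a cone which is larger than the width. -/
theorem cost84 (h : In μ s c C n₀) : ∀ ε : ℝ, 0 < ε → ∃ δ : ℝ, 0 < δ ∧ ∃ n₁ : ℕ, ∀ n : ℕ, n₁ ≤ n → ∀ y : ℤ, 0 ≤ y → y ≤ n →
    |(y : ℝ) - sl μ s * n| ≤ (n : ℝ) ^ δ * wd μ s n → ∫ η, X μ s η 0 n y ∂(law μ) ≤ (n : ℝ) ^ ε * EE μ s n + 1 := by
  intro ε hε
  obtain ⟨δ, c', hδ, hc', L₀, hbox⟩ := pbox h ε hε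
  obtain ⟨B, hB, hX2⟩ := Pool.Agent.W_7d29a1_HZ.Z3.X_sq_le h.em s
  have ev1 := ev_pow94 2 (A := Real.sqrt B) (a := 1 / 2) (s := c') (c' := c' / 2) (by positivity) (by norm_num) (by linarith only [hc']) hc'
  obtain ⟨K₁, hK₁⟩ := eventually_atTop.1 (ev1.and (eventually_ge_atTop 1))
  refine ⟨δ, hδ, max L₀ K₁, fun n hn y h0 h1 hy => ?_⟩
  have g1 : L₀ ≤ n := (le_max_left _ _).trans hn
  obtain ⟨h2, h3⟩ := hK₁ n ((le_max_right _ _).trans hn)
  have hS := Sub_X (μ := μ) (s := s) 0 h0 h1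
  have hE := one_le_EE (μ := μ) (s := s) n
  have hnR : (1 : ℝ) ≤ n := by exact_mod_cast h3
  have key := int_le_of_bad (P := law μ) (D := fun η : Env => X μ s η 0 n y) hS.1
    (hS.integrable h.em) (hS.sq_integrable h.em) (A := (n : ℝ) ^ ε * EE μ s n) (δ := Real.exp (-(n : ℝ) ^ c'))
    (M := Real.sqrt B * ((n : ℝ) + 1) ^ 2) (by positivity) (by positivity) ?_ ?_
  · refine key.trans ?_
    have h5 : Real.sqrt (Real.exp (-(n : ℝ) ^ c')) = Real.exp (-(1 / 2 * (n : ℝ) ^ c')) := by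
      rw [Real.sqrt_eq_iff_mul_self_eq (Real.exp_pos _).le (Real.exp_pos _).le, ← Real.exp_add]
      congr 1
      ring
    rw [h5]
    have h6 : Real.sqrt B * ((n : ℝ) + 1) ^ 2 * Real.exp (-(1 / 2 * (n : ℝ) ^ c')) =
        ((n : ℝ) + 1) ^ 2 * (Real.sqrt B * Real.exp (-(1 / 2 * (n : ℝ) ^ c'))) := by ring
    have h7 : Real.exp (-(n : ℝ) ^ (c' / 2)) ≤ 1 := by
      rw [Real.exp_le_one_iff]
      have : 0 ≤ (n : ℝ) ^ (c' / 2) := by positivity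
      linarith only [this]
    rw [h6]
    linarith only [h7, h2]
  · refine (hX2 n y h0 h1).trans (le_of_eq ?_)
    have := Real.sq_sqrt hB.le
    calc B * ((n : ℝ) + 1) ^ 4 = Real.sqrt B ^ 2 * ((n : ℝ) + 1) ^ 4 := by rw [this]
      _ = _ := by ring
  · have b1 : (law μ).real {η | ¬ PBox μ s n δ ε η} ≤ Real.exp (-(n : ℝ) ^ c') :=
      ENNReal.toReal_le_of_le_ofReal (Real.exp_pos _).le (hbox n g1)
    refine (measureReal_mono fun η hη => ?_).trans b1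
    intro hgood
    have hη' : (n : ℝ) ^ ε * EE μ s n < X μ s η 0 n y := hη
    have q5 := (hgood 0 n (by omega) 0 (by simp) y h0 h1).2.2 (by rw [wd'_eq' h h3]; exact hy)
    rw [EE'_eq] at q5
    have q6 : W μ s η (((0 : ℕ) : ℤ), 0) n y = W μ s η 0 n y := by
      congr 1
    rw [q6] at q5
    have q7 := Real.log_le_log (Real.exp_pos _) q5
    rw [Real.log_exp] at q7
    unfold X at hη'
    linarith only [q7, hη']

/-- The mean free energy from above, at the tilts a little larger than the natural ones. -/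
theorem FM_up84 (h : In μ s c C n₀) (hL : LB84 μ s) : ∃ K2 : ℝ, 1 ≤ K2 ∧ ∀ δ : ℝ, 0 < δ → δ ≤ 1 → ∃ κ : ℝ, 0 < κ ∧
    ∀ᶠ K : ℕ in atTop, ∀ t : ℝ, |t| * EE μ s K ≤ (K : ℝ) ^ κ → FM17 μ s K t ≤ K2 * (K : ℝ) ^ (δ / 4) * EE μ s K := by
  obtain ⟨a', K2, ha', ha'1, hK2, hE⟩ := EE'_pow h
  obtain ⟨K1, hK1, hsc⟩ := scale84 h hL
  have hc0 := h.c0
  have hc1 := h.c1
  refine ⟨3 * K2, by linarith only [hK2], fun δ hδ hδ1 => ?_⟩
  obtain ⟨κ, hκ, hsc⟩ := hsc δ hδ hδ1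
  refine ⟨κ, hκ, ?_⟩
  filter_upwards [hsc 1, eventually_ge_atTop 1] with K hK hK1' t ht
  obtain ⟨r, -, hr1, hrK, -, -, hkr, htr⟩ := hK
  have htr := htr t ht
  have hK0 : (0 : ℝ) < K := by exact_mod_cast hK1'
  have hr0 : (0 : ℝ) < r := by exact_mod_cast hr1
  have hEr := one_le_EE (μ := μ) (s := s) r
  have hEK := one_le_EE (μ := μ) (s := s) K
  have hwr := wd_ge_one h hr1
  have hwr0 : 0 < wd μ s r := by linarith only [hwr, hEr]
  have htw : |t| * wd μ s r ≤ c / 2 * EE μ s r := by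
    have h1 : |t| * wd μ s r ≤ (c / 2 * (EE μ s r / wd μ s r)) * wd μ s r :=
      mul_le_mul_of_nonneg_right (by linarith only [htr, abs_nonneg t]) hwr0.le
    have h2 : (c / 2 * (EE μ s r / wd μ s r)) * wd μ s r = c / 2 * EE μ s r := by field_simp
    linarith only [h2, h1]
  have ht1 := Pool.Agent.W_7d29a1_HZ.Z94.t_le_one h hr1 htw
  have hexE := Pool.Agent.W_7d29a1_HZ.Z94.ex_le_EE h hr1 (t := t) (by linarith only [ht1]) (by
    refine htw.trans ?_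
    have : c / 2 * EE μ s r ≤ 1 * EE μ s r := mul_le_mul_of_nonneg_right (by linarith only [hc1]) (by linarith only [hEr])
    linarith only [this])
  have hex := ex_nonneg h.em h.nd s t
  obtain ⟨k, hk⟩ : ∃ k : ℝ, k = ((K / r : ℕ) : ℝ) + 1 := ⟨_, rfl⟩
  rw [← hk] at hkr
  have hk0 : 0 < k := by rw [hk]; positivity
  have hKr : (K : ℝ) ≤ k * r := by
    have h8 : K < (K / r + 1) * r := by
      have := Nat.lt_div_mul_add (a := K) (b := r) (by omega)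
      calc K < K / r * r + r := this
        _ = (K / r + 1) * r := by ring
    have h9 : (K : ℝ) ≤ (((K / r + 1) * r : ℕ) : ℝ) := by exact_mod_cast h8.le
    rw [hk]
    push_cast at h9
    exact h9
  have e1 := (hE r K hr1 hrK).1
  rw [EE'_eq, EE'_eq] at e1
  have e2 : ((K : ℝ) ^ (δ / 8)) ^ 2 = (K : ℝ) ^ (δ / 4) := by
    rw [← Real.rpow_natCast, ← Real.rpow_mul hK0.le]
    congr 1
    push_cast
    ring
  rw [e2] at hkr
  have hp : 0 ≤ (K : ℝ) ^ (δ / 4) := by positivity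
  calc FM17 μ s K t ≤ K * ex μ s t := FM_le17 h K t
    _ ≤ k * r * ex μ s t := mul_le_mul_of_nonneg_right hKr hex
    _ = k * (r * ex μ s t) := by ring
    _ ≤ k * EE μ s r := mul_le_mul_of_nonneg_left hexE hk0.le
    _ ≤ (3 * (K : ℝ) ^ (δ / 4)) * (K2 * EE μ s K) := mul_le_mul hkr e1 (by linarith only [hEr]) (by positivity)
    _ = 3 * K2 * (K : ℝ) ^ (δ / 4) * EE μ s K := by ring

/-- The mean free energy from below. -/
theorem FM_low84 (h : In μ s c C n₀) {M : ℕ} (hM : n₀ ≤ M) (hM1 : 1 ≤ M) (t : ℝ) : -|t| - C * EE μ s M ≤ FM17 μ s M t := by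
  have h1 := FM_ge17 h (h.md_nonneg M) (h.md_le_nat M) t
  have h2 : |t * ((md μ s M : ℝ) - sl μ s * M)| ≤ |t| * 1 := by
    rw [abs_mul]
    exact mul_le_mul_of_nonneg_left (md_abs M) (abs_nonneg t)
  have h3 := (abs_le.1 h2).1
  have h4 : ep μ s M (md μ s M) ≤ C * EE μ s M := by
    refine h.inn M hM M _ (by omega) (h.md_nonneg M) (h.md_le_nat M) ((md_abs M).trans ?_)
    have := h.c0
    have hv : 0 ≤ vA 1 μ s M := (h.vA_pos hM1).le
    have : 0 ≤ c * vA 1 μ s M * M := by positivity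
    linarith only [this]
  linarith only [h4, h3, h1]

omit [IsProbabilityMeasure μ] in
theorem Wn_eq (t : ℝ) (n M : ℕ) (y₀ : ℤ) (m : ℕ) (η : Env) :
    Wn μ s (sl μ s) t n M y₀ m η = Real.log (QW μ s t η 0 n M (Icc y₀ (y₀ + m))) := by
  unfold Wn QW
  congr 1
  refine sum_nbij' (fun j : ℕ => y₀ + (j : ℤ)) (fun y : ℤ => (y - y₀).toNat) ?_ ?_ ?_ ?_ ?_
  · intro j hj
    rw [mem_range] at hj
    rw [mem_Icc]
    constructor <;> omega
  · intro y hy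
    rw [mem_Icc] at hy
    rw [mem_range]
    omega
  · intro j _
    simp
  · intro y hy
    rw [mem_Icc] at hy
    show y₀ + ((y - y₀).toNat : ℤ) = y
    omega
  · intro j _
    have e : (((0 : Pt).1 + (n : ℤ), (0 : Pt).2 + (y₀ + (j : ℤ))) : Pt) = ((n : ℤ), y₀ + (j : ℤ)) := by simp
    rw [e]

/-- **THE WINDOW OF THE HYBRIDS** (`WN8` of helper8). -/
theorem wn84 (h : In μ s c C n₀) (hL : LB17 μ s) : ∀ c₁ : ℝ, 0 < c₁ → ∀ δ : ℝ, 0 < δ → ∃ κ : ℝ, 0 < κ ∧ κ ≤ δ ∧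
    ∀ᶠ n : ℕ in atTop, ∃ (y₀ : ℤ) (m : ℕ), 0 ≤ y₀ ∧ 1 ≤ m ∧ y₀ + m ≤ n ∧ (m : ℝ) ≤ (n : ℝ) ^ δ * wd μ s n ∧
    ∀ N : ℕ, n ≤ N → (N : ℝ) ≤ (n : ℝ) ^ (1 + c₁) → ∀ M : ℕ, (n : ℝ) ^ (1 + δ) ≤ M → M ≤ N → ∀ t : ℝ,
      |t| * EE μ s n ≤ (n : ℝ) ^ (-(2 * δ)) → |t| * EE μ s N ≤ (N : ℝ) ^ κ →
      FM17 μ s (n + M) t - ∫ η, Wn μ s (sl μ s) t n M y₀ m η ∂(law μ) ≤ 1 ∧
      (∫ η, Wn μ s (sl μ s) t n M y₀ m η ∂(law μ)) - (t * (((y₀ + (m : ℤ) : ℤ) : ℝ) - sl μ s * n) -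
        ∫ η, X μ s η 0 n (y₀ + (m : ℤ)) ∂(law μ)) - FM17 μ s M t ≤ (n : ℝ) ^ (c₁ + δ) * EE μ s n := by
  intro c₁ hc₁ δ hδ
  have hc0 := h.c0
  have hC1 := h.C1
  obtain ⟨δ₁, hδ₁, nX, hcost⟩ := cost84 h (δ / 4) (by positivity)
  obtain ⟨a'', K3, ha'', ha''1, hK3, hw⟩ := wd'_pow h
  obtain ⟨a', K2, ha', ha'1, hK2, hE⟩ := EE'_pow h
  obtain ⟨δ₀, hδ₀d⟩ : ∃ δ₀ : ℝ, δ₀ = min (min δ a'') δ₁ / 4 := ⟨_, rfl⟩
  have hmin0 : 0 < min (min δ a'') δ₁ := by positivity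
  have hδ₀ : 0 < δ₀ := by rw [hδ₀d]; positivity
  have hδ₀1 : δ₀ ≤ δ / 4 := by
    have := (min_le_left (min δ a'') δ₁).trans (min_le_left _ _)
    rw [hδ₀d]; linarith only [this]
  have hδ₀2 : δ₀ ≤ a'' / 4 := by
    have := (min_le_left (min δ a'') δ₁).trans (min_le_right _ _)
    rw [hδ₀d]; linarith only [this]
  have hδ₀3 : δ₀ ≤ δ₁ := by
    have := min_le_right (min δ a'') δ₁
    rw [hδ₀d]; linarith only [this, hδ₀, hδ₀d]
  obtain ⟨κ₁, hκ₁, KT, htr⟩ := trunc84 h (fun ε hε => hL ε hε) (δ₀ / (2 + c₁)) (by positivity)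
  obtain ⟨K4, hK4, hFM⟩ := FM_up84 h (fun ε hε => hL ε hε)
  obtain ⟨δ', hδ'd⟩ : ∃ δ' : ℝ, δ' = min 1 (δ / (2 + c₁)) := ⟨_, rfl⟩
  have hδ'0 : 0 < δ' := by rw [hδ'd]; positivity
  have hδ'1 : δ' ≤ 1 := by rw [hδ'd]; exact min_le_left _ _
  have hδ'2 : δ' ≤ δ / (2 + c₁) := by rw [hδ'd]; exact min_le_right _ _
  obtain ⟨κ₂, hκ₂, hFM⟩ := hFM δ' hδ'0 hδ'1
  obtain ⟨KF, hFM⟩ := eventually_atTop.1 hFM
  obtain ⟨κ₀, hκ₀d⟩ : ∃ κ₀ : ℝ, κ₀ = min κ₁ κ₂ := ⟨_, rfl⟩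
  have hκ₀0 : 0 < κ₀ := by rw [hκ₀d]; positivity
  obtain ⟨κ, hκd⟩ : ∃ κ : ℝ, κ = min δ (κ₀ / (2 * (1 + c₁))) := ⟨_, rfl⟩
  have hκ0 : 0 < κ := by rw [hκd]; positivity
  have hκ1 : κ * (1 + c₁) ≤ κ₀ / 2 := by
    have h1 : κ ≤ κ₀ / (2 * (1 + c₁)) := by rw [hκd]; exact min_le_right _ _
    calc κ * (1 + c₁) ≤ κ₀ / (2 * (1 + c₁)) * (1 + c₁) := mul_le_mul_of_nonneg_right h1 (by linarith only [hc₁])
      _ = κ₀ / 2 := by field_simp
  refine ⟨κ, hκ0, by rw [hκd]; exact min_le_left _ _, ?_⟩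
  have hsl0 := h.sl_pos
  have hsl1 := h.sl_lt
  obtain ⟨σ₀, hσ₀⟩ : ∃ σ₀ : ℝ, σ₀ = min (sl μ s) (1 - sl μ s) := ⟨_, rfl⟩
  have hσ₀0 : 0 < σ₀ := by rw [hσ₀]; exact lt_min hsl0 (by linarith only [hsl1])
  obtain ⟨nL, hLn⟩ := hL (δ / 4) (by positivity)
  filter_upwards [eventually_ge_atTop (max (max nX KT) (max (max KF nL) (max n₀ 2))),
    ev84 2 (show 0 < δ₀ by positivity), ev84 (2 * K2) (show 0 < κ₀ / 2 by positivity),
    ev84 (K3 * wd' μ s 1 / σ₀ + 2) (show 0 < a'' / 4 by positivity),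
    ev84 (2 * K4 * K2 + C * K2 + 4) (show 0 < c₁ / 2 by positivity),
    ev84 2 (show 0 < δ by positivity)] with n hn e1 e2 e3 e4 e5
  have g1 : nX ≤ n := by omega
  have g2 : KT ≤ n := by omega
  have g3 : KF ≤ n := by omega
  have g4 : nL ≤ n := by omega
  have g5 : n₀ ≤ n := by omega
  have g6 : 2 ≤ n := by omega
  have g7 : 1 ≤ n := by omega
  have hn2 : (2 : ℝ) ≤ n := by exact_mod_cast g6
  have hn1 : (1 : ℝ) ≤ n := by linarith only [hn2]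
  have hn0 : (0 : ℝ) < n := by linarith only [hn2]
  have hEn := one_le_EE (μ := μ) (s := s) n
  have hwn := wd_two h g7
  -- the window
  obtain ⟨ω, hω⟩ : ∃ ω : ℝ, ω = (n : ℝ) ^ δ₀ * wd μ s n := ⟨_, rfl⟩
  have hω4 : 4 ≤ ω := by
    rw [hω]
    have h0 := mul_le_mul e1 hwn (by norm_num) (le_trans (by norm_num) e1)
    linarith only [h0]
  have hωn : ω ≤ σ₀ * n := by
    have h1 := (hw 1 n le_rfl g7).2.2
    rw [wd'_eq' h g7] at h1
    have h2 : ((n : ℝ) / ((1 : ℕ) : ℝ)) ^ (1 - a'') = (n : ℝ) ^ (1 - a'') := by simp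
    rw [h2] at h1
    have h3 : (n : ℝ) ^ δ₀ ≤ (n : ℝ) ^ (a'' / 4) := Real.rpow_le_rpow_of_exponent_le hn1 hδ₀2
    have hw1 : 0 ≤ wd' μ s 1 := zero_le_one.trans (le_max_left _ _)
    have h4 : K3 * wd' μ s 1 ≤ σ₀ * (n : ℝ) ^ (a'' / 4) := by
      have h5 : K3 * wd' μ s 1 / σ₀ ≤ (n : ℝ) ^ (a'' / 4) := by linarith only [e3]
      rw [div_le_iff₀ hσ₀0] at h5
      linarith only [h5]
    calc ω = (n : ℝ) ^ δ₀ * wd μ s n := hω
      _ ≤ (n : ℝ) ^ (a'' / 4) * (K3 * (n : ℝ) ^ (1 - a'') * wd' μ s 1) :=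
        mul_le_mul h3 h1 (by linarith only [hwn]) (by positivity)
      _ = (K3 * wd' μ s 1) * ((n : ℝ) ^ (a'' / 4) * (n : ℝ) ^ (1 - a'')) := by ring
      _ ≤ (σ₀ * (n : ℝ) ^ (a'' / 4)) * ((n : ℝ) ^ (a'' / 4) * (n : ℝ) ^ (1 - a'')) :=
        mul_le_mul_of_nonneg_right h4 (by positivity)
      _ = σ₀ * (n : ℝ) ^ (a'' / 4 + (a'' / 4 + (1 - a''))) := by
        rw [Real.rpow_add hn0, Real.rpow_add hn0]
        ring
      _ ≤ σ₀ * (n : ℝ) ^ (1 : ℝ) :=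
        mul_le_mul_of_nonneg_left (Real.rpow_le_rpow_of_exponent_le hn1 (by linarith only [hδ₀2, hδ₀])) hσ₀0.le
      _ = σ₀ * n := by rw [Real.rpow_one]
  have hσs : σ₀ * n ≤ sl μ s * n := mul_le_mul_of_nonneg_right (by rw [hσ₀]; exact min_le_left _ _) hn0.le
  have hσs2 : σ₀ * n ≤ (1 - sl μ s) * n := mul_le_mul_of_nonneg_right (by rw [hσ₀]; exact min_le_right _ _) hn0.le
  obtain ⟨y₀, hy₀⟩ : ∃ y₀ : ℤ, y₀ = ⌈sl μ s * n - ω⌉ := ⟨_, rfl⟩
  obtain ⟨y₁, hy₁⟩ : ∃ y₁ : ℤ, y₁ = ⌊sl μ s * n + ω⌋ := ⟨_, rfl⟩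
  have a1 : sl μ s * n - ω ≤ (y₀ : ℝ) := by rw [hy₀]; exact Int.le_ceil _
  have a2 : (y₀ : ℝ) < sl μ s * n - ω + 1 := by rw [hy₀]; exact Int.ceil_lt_add_one _
  have a3 : (y₁ : ℝ) ≤ sl μ s * n + ω := by rw [hy₁]; exact Int.floor_le _
  have a4 : sl μ s * n + ω < y₁ + 1 := by rw [hy₁]; exact Int.lt_floor_add_one _
  have b1 : (0 : ℝ) ≤ y₀ := by linarith only [a1, hσs, hωn]
  have b1' : 0 ≤ y₀ := by exact_mod_cast b1
  have b2 : (y₁ : ℝ) ≤ n := by linarith only [a3, hσs2, hωn]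
  have b2' : y₁ ≤ n := by exact_mod_cast b2
  have b3 : (y₀ : ℝ) + 1 ≤ y₁ := by linarith only [a4, a2, hω4]
  have b3' : y₀ + 1 ≤ y₁ := by exact_mod_cast b3
  obtain ⟨m, hm⟩ : ∃ m : ℕ, (m : ℤ) = y₁ - y₀ := ⟨(y₁ - y₀).toNat, by omega⟩
  have hym : y₀ + (m : ℤ) = y₁ := by omega
  have hmR : (m : ℝ) = y₁ - y₀ := by exact_mod_cast hm
  refine ⟨y₀, m, b1', by omega, by omega, ?_, ?_⟩
  · -- the width of the window
    have h1 : (m : ℝ) ≤ 2 * ω := by linarith only [hmR, a3, a1]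
    refine h1.trans ?_
    rw [hω, ← mul_assoc]
    refine mul_le_mul_of_nonneg_right ?_ (by linarith only [hwn])
    have h2 : 2 * (n : ℝ) ^ δ₀ ≤ (n : ℝ) ^ δ₀ * (n : ℝ) ^ δ₀ := mul_le_mul_of_nonneg_right e1 (by positivity)
    rw [← Real.rpow_add hn0] at h2
    exact h2.trans (Real.rpow_le_rpow_of_exponent_le hn1 (by linarith only [hδ₀1, hδ₀]))
  intro N hnN hNn M hM hMN t ht1 ht2
  rw [hym]
  have hNR : (n : ℝ) ≤ N := by exact_mod_cast hnN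
  have hMR : (M : ℝ) ≤ N := by exact_mod_cast hMN
  have hnM : (n : ℝ) ≤ M := by
    refine le_trans ?_ hM
    calc (n : ℝ) = (n : ℝ) ^ (1 : ℝ) := (Real.rpow_one _).symm
      _ ≤ (n : ℝ) ^ (1 + δ) := Real.rpow_le_rpow_of_exponent_le hn1 (by linarith only [hδ₀1, hδ₀])
  have hnM' : n ≤ M := by exact_mod_cast hnM
  obtain ⟨K, hK⟩ : ∃ K : ℕ, K = n + M := ⟨_, rfl⟩
  have hKR : (K : ℝ) = n + M := by rw [hK]; push_cast; ring
  have hnK : n ≤ K := by omega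
  have hNK : N ≤ K ∨ K ≤ N := le_total _ _
  have hK2N : (K : ℝ) ≤ 2 * N := by rw [hKR]; linarith only [hMR, hNR]
  have hK0 : (0 : ℝ) < K := by rw [hKR]; linarith only [hσs2, hσs, hωn, hω4]
  have hN0 : (0 : ℝ) < N := by linarith only [hNR, hσs2, hσs, hωn, hω4]
  have hK1R : (1 : ℝ) ≤ K := by rw [hKR]; linarith only [hσs2, hσs, hωn, hω4]
  have hNK' : (n : ℝ) ≤ K := by rw [hKR]; linarith only []
  have hEK := one_le_EE (μ := μ) (s := s) K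
  have hEN := one_le_EE (μ := μ) (s := s) N
  -- `N ≤ K ^ (1 + c₁)`, `K ≤ n ^ (2 + c₁)`
  have hKn : (K : ℝ) ≤ (n : ℝ) ^ (2 + c₁) := by
    calc (K : ℝ) ≤ 2 * N := hK2N
      _ ≤ n * (n : ℝ) ^ (1 + c₁) := mul_le_mul hn2 hNn hN0.le hn0.le
      _ = (n : ℝ) ^ (2 + c₁) := by
        have : (2 : ℝ) + c₁ = 1 + (1 + c₁) := by ring
        rw [this, Real.rpow_add hn0 1 (1 + c₁), Real.rpow_one]
  -- the tilt
  have hEEK : EE μ s K ≤ 2 * K2 * EE μ s N := by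
    rcases hNK with h1 | h1
    · have h2 := (hE N K (by omega) h1).2.2
      rw [EE'_eq, EE'_eq] at h2
      have h3 : Real.sqrt ((K : ℝ) / N) ≤ 2 := by
        rw [Real.sqrt_le_left (by norm_num), div_le_iff₀ hN0]
        linarith only [hKR, hMR, hNR]
      calc EE μ s K ≤ K2 * Real.sqrt ((K : ℝ) / N) * EE μ s N := h2
        _ ≤ K2 * 2 * EE μ s N := by gcongr
        _ = 2 * K2 * EE μ s N := by ring
    · have h2 := (hE K N (by omega) h1).1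
      rw [EE'_eq, EE'_eq] at h2
      have : 0 ≤ K2 * EE μ s N := by positivity
      linarith only [h2, hEK]
  have htK : |t| * EE μ s K ≤ (K : ℝ) ^ κ₀ := by
    have h1 : (N : ℝ) ^ κ ≤ (K : ℝ) ^ (κ₀ / 2) := by
      calc (N : ℝ) ^ κ ≤ ((n : ℝ) ^ (1 + c₁)) ^ κ := Real.rpow_le_rpow hN0.le hNn hκ0.le
        _ = (n : ℝ) ^ (κ * (1 + c₁)) := by rw [← Real.rpow_mul hn0.le]; congr 1; ring
        _ ≤ (K : ℝ) ^ (κ * (1 + c₁)) := Real.rpow_le_rpow hn0.le hNK' (by positivity)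
        _ ≤ (K : ℝ) ^ (κ₀ / 2) := Real.rpow_le_rpow_of_exponent_le hK1R hκ1
    have h2 : 2 * K2 ≤ (K : ℝ) ^ (κ₀ / 2) := e2.trans (Real.rpow_le_rpow hn0.le hNK' (by positivity))
    calc |t| * EE μ s K ≤ |t| * (2 * K2 * EE μ s N) := mul_le_mul_of_nonneg_left hEEK (abs_nonneg _)
      _ = 2 * K2 * (|t| * EE μ s N) := by ring
      _ ≤ 2 * K2 * (N : ℝ) ^ κ := mul_le_mul_of_nonneg_left ht2 (by linarith only [hK2])
      _ ≤ (K : ℝ) ^ (κ₀ / 2) * (K : ℝ) ^ (κ₀ / 2) := mul_le_mul h2 h1 (by positivity) (by positivity)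
      _ = (K : ℝ) ^ κ₀ := by rw [← Real.rpow_add hK0]; congr 1; ring
  have htK1 : |t| * EE μ s K ≤ (K : ℝ) ^ κ₁ :=
    htK.trans (Real.rpow_le_rpow_of_exponent_le hK1R (by rw [hκ₀d]; exact min_le_left _ _))
  have htK2 : |t| * EE μ s K ≤ (K : ℝ) ^ κ₂ :=
    htK.trans (Real.rpow_le_rpow_of_exponent_le hK1R (by rw [hκ₀d]; exact min_le_right _ _))
  have hnneg : (n : ℝ) ^ (-(2 * δ)) ≤ 1 := by
    calc (n : ℝ) ^ (-(2 * δ)) ≤ (n : ℝ) ^ (0 : ℝ) := Real.rpow_le_rpow_of_exponent_le hn1 (by linarith only [hδ₀1, hδ₀])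
      _ = 1 := Real.rpow_zero _
  have htabs : |t| ≤ 1 := by
    have h1 : |t| * 1 ≤ |t| * EE μ s n := mul_le_mul_of_nonneg_left hEn (abs_nonneg _)
    linarith only [h1, hnneg, ht1]
  -- the window as a set of sites
  have hA : Icc y₀ (y₀ + (m : ℤ)) ⊆ Icc (0 : ℤ) n := by
    intro y hy
    rw [mem_Icc] at hy ⊢
    constructor <;> omega
  have hAm : ∀ y : ℤ, 0 ≤ y → y ≤ n → |(y : ℝ) - sl μ s * n| ≤ (K : ℝ) ^ (δ₀ / (2 + c₁)) * wd' μ s n →
      y ∈ Icc y₀ (y₀ + (m : ℤ)) := by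
    intro y _ _ hy
    have h1 : (K : ℝ) ^ (δ₀ / (2 + c₁)) ≤ (n : ℝ) ^ δ₀ := by
      calc (K : ℝ) ^ (δ₀ / (2 + c₁)) ≤ ((n : ℝ) ^ (2 + c₁)) ^ (δ₀ / (2 + c₁)) := Real.rpow_le_rpow hK0.le hKn (by positivity)
        _ = (n : ℝ) ^ δ₀ := by
          rw [← Real.rpow_mul hn0.le]
          congr 1
          field_simp
    have h2 : |(y : ℝ) - sl μ s * n| ≤ ω := by
      rw [hω]
      rw [wd'_eq' h g7] at hy
      exact hy.trans (mul_le_mul_of_nonneg_right h1 (by linarith only [hwn]))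
    have h3 := abs_le.1 h2
    rw [mem_Icc, hym, hy₀, hy₁]
    constructor
    · rw [Int.ceil_le]
      linarith only [h3]
    · rw [Int.le_floor]
      linarith only [h3]
  have hy₁A : y₁ ∈ Icc y₀ (y₀ + (m : ℤ)) := by
    rw [mem_Icc]
    constructor <;> omega
  have hWn : ∀ η, Wn μ s (sl μ s) t n M y₀ m η = Real.log (QW μ s t η 0 n M (Icc y₀ (y₀ + (m : ℤ)))) := fun η =>
    Wn_eq t n M y₀ m η
  simp only [hWn]
  constructor
  · have h1 := htr K (by omega) n M g7 hK.symm t htabs htK1 _ hA hAm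
    rw [← hK]
    exact h1
  · -- the rough bound
    have hS2 : Sub fun η : Env => Real.log (QW μ s t η 0 n M (Icc y₀ (y₀ + (m : ℤ)))) :=
      Sub_logQW (μ := μ) (s := s) t 0 n M hA hy₁A
    have u1 : ∫ η, Real.log (QW μ s t η 0 n M (Icc y₀ (y₀ + (m : ℤ)))) ∂(law μ) ≤ FM17 μ s K t := by
      refine integral_mono (hS2.integrable h.em) ((Sub_T (μ := μ) (s := s) t 0 K).integrable h.em) fun η => ?_
      have := (logQW (μ := μ) (s := s) η t 0 n M hA hy₁A).2.2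
      rw [hK]
      exact this
    have u2 := hFM K (by omega) t htK2
    have u3 := FM_low84 h (M := M) (by omega) (by omega) t
    have hy1n : |(y₁ : ℝ) - sl μ s * n| ≤ ω := by
      rw [abs_le]
      constructor <;> linarith only [a4, hω4, a3]
    have u4 := hcost n g1 y₁ (by omega) b2' (hy1n.trans (by
      rw [hω]
      exact mul_le_mul_of_nonneg_right (Real.rpow_le_rpow_of_exponent_le hn1 hδ₀3) (by linarith only [hwn])))
    have u5 : |t * ((y₁ : ℝ) - sl μ s * n)| ≤ EE μ s n := by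
      rw [abs_mul]
      have h1 := hLn n g4
      calc |t| * |(y₁ : ℝ) - sl μ s * n| ≤ |t| * ω := mul_le_mul_of_nonneg_left hy1n (abs_nonneg _)
        _ ≤ |t| * ((n : ℝ) ^ (δ / 4) * ((n : ℝ) ^ (δ / 4) * EE μ s n ^ 2)) := by
          refine mul_le_mul_of_nonneg_left ?_ (abs_nonneg _)
          rw [hω]
          exact mul_le_mul (Real.rpow_le_rpow_of_exponent_le hn1 hδ₀1) h1 (by linarith only [hwn]) (by positivity)
        _ = (|t| * EE μ s n) * ((n : ℝ) ^ (δ / 4) * (n : ℝ) ^ (δ / 4)) * EE μ s n := by ring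
        _ ≤ (n : ℝ) ^ (-(2 * δ)) * ((n : ℝ) ^ (δ / 4) * (n : ℝ) ^ (δ / 4)) * EE μ s n := by gcongr
        _ = (n : ℝ) ^ (-(2 * δ) + (δ / 4 + δ / 4)) * EE μ s n := by rw [Real.rpow_add hn0, Real.rpow_add hn0]
        _ ≤ 1 * EE μ s n := by
          refine mul_le_mul_of_nonneg_right ?_ (by linarith only [hEn])
          calc (n : ℝ) ^ (-(2 * δ) + (δ / 4 + δ / 4)) ≤ (n : ℝ) ^ (0 : ℝ) :=
                Real.rpow_le_rpow_of_exponent_le hn1 (by linarith only [hδ₀1, hδ₀])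
            _ = 1 := Real.rpow_zero _
        _ = EE μ s n := one_mul _
    have u6 := (abs_le.1 u5).1
    -- the units
    obtain ⟨b, hb⟩ : ∃ b : ℝ, b = (n : ℝ) ^ (c₁ / 2) := ⟨_, rfl⟩
    obtain ⟨d, hd⟩ : ∃ d : ℝ, d = (n : ℝ) ^ (δ / 4) := ⟨_, rfl⟩
    rw [← hb] at e4
    rw [← hd] at u4
    have hb1 : 1 ≤ b := by rw [hb]; exact Real.one_le_rpow hn1 (by linarith only [hc₁])
    have hd1 : 1 ≤ d := by rw [hd]; exact Real.one_le_rpow hn1 (by linarith only [hδ₀1, hδ₀])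
    have hbb : b * b = (n : ℝ) ^ c₁ := by
      rw [hb, ← Real.rpow_add hn0]
      congr 1
      ring
    have v1 : EE μ s K ≤ 2 * K2 * b * EE μ s n := by
      have h2 := (hE n K g7 hnK).2.2
      rw [EE'_eq, EE'_eq] at h2
      have h3 : Real.sqrt ((K : ℝ) / n) ≤ 2 * b := by
        rw [Real.sqrt_le_left (by positivity), div_le_iff₀ hn0]
        have h4 : (n : ℝ) ^ (1 + c₁) = n * (b * b) := by rw [hbb, Real.rpow_add hn0, Real.rpow_one]
        rw [h4] at hNn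
        have h5 : 0 ≤ (n : ℝ) * (b * b) := by positivity
        linarith only [hNn, hKR, hMR, hNR]
      calc EE μ s K ≤ K2 * Real.sqrt ((K : ℝ) / n) * EE μ s n := h2
        _ ≤ K2 * (2 * b) * EE μ s n := by gcongr
        _ = 2 * K2 * b * EE μ s n := by ring
    have v2 : EE μ s M ≤ K2 * b * EE μ s n := by
      have h2 := (hE n M g7 hnM').2.2
      rw [EE'_eq, EE'_eq] at h2
      have h3 : Real.sqrt ((M : ℝ) / n) ≤ b := by
        rw [Real.sqrt_le_left (by positivity), div_le_iff₀ hn0]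
        have h4 : (n : ℝ) ^ (1 + c₁) = n * (b * b) := by rw [hbb, Real.rpow_add hn0, Real.rpow_one]
        rw [h4] at hNn
        linarith only [hNn, hMR]
      calc EE μ s M ≤ K2 * Real.sqrt ((M : ℝ) / n) * EE μ s n := h2
        _ ≤ K2 * b * EE μ s n := by gcongr
    have v3 : (K : ℝ) ^ (δ' / 4) ≤ d := by
      calc (K : ℝ) ^ (δ' / 4) ≤ ((n : ℝ) ^ (2 + c₁)) ^ (δ' / 4) := Real.rpow_le_rpow hK0.le hKn (by positivity)
        _ = (n : ℝ) ^ ((2 + c₁) * (δ' / 4)) := by rw [← Real.rpow_mul hn0.le]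
        _ ≤ (n : ℝ) ^ (δ / 4) := by
          refine Real.rpow_le_rpow_of_exponent_le hn1 ?_
          have : (2 + c₁) * δ' ≤ δ := by
            calc (2 + c₁) * δ' ≤ (2 + c₁) * (δ / (2 + c₁)) := mul_le_mul_of_nonneg_left hδ'2 (by linarith only [hc₁])
              _ = δ := by field_simp
          linarith only [this]
        _ = d := hd.symm
    have hEn0 : 0 < EE μ s n := by linarith only [hEn]
    have w1 : FM17 μ s K t ≤ 2 * K4 * K2 * (b * d * EE μ s n) := by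
      calc FM17 μ s K t ≤ K4 * (K : ℝ) ^ (δ' / 4) * EE μ s K := u2
        _ ≤ K4 * d * (2 * K2 * b * EE μ s n) := by gcongr
        _ = 2 * K4 * K2 * (b * d * EE μ s n) := by ring
    have hbd1 : EE μ s n ≤ b * d * EE μ s n := by
      have : 1 ≤ b * d := one_le_mul_of_one_le_of_one_le hb1 hd1
      have h2 := mul_le_mul_of_nonneg_right this hEn0.le
      linarith only [h2]
    have hbd2 : d * EE μ s n ≤ b * d * EE μ s n := by
      have h2 := mul_le_mul_of_nonneg_right hb1 (show 0 ≤ d * EE μ s n by positivity)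
      linarith only [h2]
    have hbd3 : b * EE μ s n ≤ b * d * EE μ s n := by
      have h2 := mul_le_mul_of_nonneg_right hd1 (show 0 ≤ b * EE μ s n by positivity)
      linarith only [h2]
    have w2 : C * EE μ s M ≤ C * K2 * (b * d * EE μ s n) := by
      calc C * EE μ s M ≤ C * (K2 * b * EE μ s n) := mul_le_mul_of_nonneg_left v2 (by linarith only [hC1])
        _ = C * K2 * (b * EE μ s n) := by ring
        _ ≤ C * K2 * (b * d * EE μ s n) := mul_le_mul_of_nonneg_left hbd3 (by positivity)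
    have w3 : (2 * K4 * K2 + C * K2 + 4) * (b * d * EE μ s n) ≤ (n : ℝ) ^ (c₁ + δ) * EE μ s n := by
      calc (2 * K4 * K2 + C * K2 + 4) * (b * d * EE μ s n) ≤ b * (b * d * EE μ s n) :=
            mul_le_mul_of_nonneg_right e4 (by positivity)
        _ = (n : ℝ) ^ (c₁ + δ / 4) * EE μ s n := by
          rw [Real.rpow_add hn0, ← hbb, ← hd]
          ring
        _ ≤ (n : ℝ) ^ (c₁ + δ) * EE μ s n :=
          mul_le_mul_of_nonneg_right (Real.rpow_le_rpow_of_exponent_le hn1 (by linarith only [hδ₀1, hδ₀])) hEn0.le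
    linarith only [w3, w2, hbd2, hbd1, w1, u4, u6, u3, u1, htabs, hEn]

end

end Pool.Agent.W_7d29a1_C1.Win84
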