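import Pool.Agent.W_7d29a1_C1.WinD84

/-!
[C1] HYBRIDS, CLOSURE (C), composite horizon (helper84): `M` tilted rows, then `L` rows without the extra tilt, flat end. `TG` is the
logarithm of the composite mass (`TL8` of helper8), `QV` the composite mass through a set of sites of the row `m`; `loc_comp` is the
quenched estimate.
-/

set_option autoImplicit false

namespace Pool.Agent.W_7d29a1_C1.Win84

open MeasureTheory ProbabilityTheory Filter Topology Finset
open Pool.Agent.W_7d29a1_F Pool.Agent.W_7d29a1_X Pool.Agent.W_7d29a1_h4g Pool.Agent.W_7d29a1_H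
open Pool.Agent.W_7d29a1_HS (In wd md md_abs wd_ge_one)
open Pool.Agent.W_7d29a1_L (T kap exp_T exp_T_add)
open Pool.Agent.W_7d29a1_HZ (gp P1 NSp ns PBox pbox wd' EE' EE'_pow wd'_pow)

noncomputable section

variable {μ : Measure ℝ} {s h : ℝ}

/-- The logarithm of the composite mass. -/
def TG (μ : Measure ℝ) (s h : ℝ) (M L : ℕ) (η : Env) (a : Pt) : ℝ :=
  Real.log (∑ y ∈ Icc (0 : ℤ) M, (W μ s η a M y * Real.exp (h * ((y : ℝ) - sl μ s * M))) *
    Real.exp (V μ s η (a.1 + M, a.2 + y) L))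

theorem TG_pos (M L : ℕ) (η : Env) (a : Pt) :
    0 < ∑ y ∈ Icc (0 : ℤ) M, (W μ s η a M y * Real.exp (h * ((y : ℝ) - sl μ s * M))) * Real.exp (V μ s η (a.1 + M, a.2 + y) L) := by
  refine sum_pos (fun y hy => ?_) ⟨0, by simp⟩
  rw [mem_Icc] at hy
  exact mul_pos (mul_pos (W_pos η a hy.1 hy.2) (Real.exp_pos _)) (Real.exp_pos _)

theorem exp_TG (M L : ℕ) (η : Env) (a : Pt) : Real.exp (TG μ s h M L η a) =
    ∑ y ∈ Icc (0 : ℤ) M, (W μ s η a M y * Real.exp (h * ((y : ℝ) - sl μ s * M))) * Real.exp (V μ s η (a.1 + M, a.2 + y) L) :=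
  Real.exp_log (TG_pos M L η a)

/-- The composite mass with the factors in another order. -/
theorem exp_TG' (M L : ℕ) (η : Env) (a : Pt) : Real.exp (TG μ s h M L η a) =
    ∑ y ∈ Icc (0 : ℤ) M, Real.exp (h * ((y : ℝ) - sl μ s * M)) * W μ s η a M y * Real.exp (V μ s η (a.1 + M, a.2 + y) L) := by
  rw [exp_TG]
  refine sum_congr rfl fun y _ => ?_
  ring

theorem pt_sh (a b : Pt) (m : ℕ) (y : ℤ) : ((a.1 + (m : ℤ), a.2 + y) : Pt) + b = ((a + b).1 + (m : ℤ), (a + b).2 + y) := by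
  ext
  · show a.1 + (m : ℤ) + b.1 = a.1 + b.1 + m
    ring
  · show a.2 + y + b.2 = a.2 + b.2 + y
    ring

theorem TG_sh (M L : ℕ) (η : Env) (a b : Pt) : TG μ s h M L (sh b η) a = TG μ s h M L η (a + b) := by
  unfold TG
  congr 1
  refine sum_congr rfl fun y _ => ?_
  rw [W_sh, V_sh, pt_sh]

theorem meas_TG (M L : ℕ) (a : Pt) : Measurable fun η : Env => TG μ s h M L η a := by
  unfold TG
  exact Real.measurable_log.comp (Finset.measurable_sum _ fun y _ => ((measurable_W (μ := μ) (s := s) a M y).mul_const _).mul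
    (Real.measurable_exp.comp (measurable_V (μ := μ) (s := s) _ L)))

/-- The composite mass against the mass without tilt. -/
theorem TG_near (hs0 : 0 ≤ sl μ s) (hs1 : sl μ s ≤ 1) (M L : ℕ) (η : Env) (a : Pt) :
    |TG μ s h M L η a - V μ s η a (M + L)| ≤ |h| * M := by
  have hM : (0 : ℝ) ≤ M := Nat.cast_nonneg M
  have h1 : ∀ y ∈ Icc (0 : ℤ) M, |h * ((y : ℝ) - sl μ s * M)| ≤ |h| * M := by
    intro y hy
    rw [mem_Icc] at hy
    rw [abs_mul]
    refine mul_le_mul_of_nonneg_left ?_ (abs_nonneg h)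
    have hy0 : (0 : ℝ) ≤ y := by exact_mod_cast hy.1
    have hy1 : (y : ℝ) ≤ M := by exact_mod_cast hy.2
    have h7 : sl μ s * M ≤ 1 * M := mul_le_mul_of_nonneg_right hs1 hM
    have h8 : 0 ≤ sl μ s * M := by positivity
    rw [abs_le]
    constructor <;> linarith
  have e0 := exp_V_add (μ := μ) (s := s) η a M L
  have hW : ∀ y ∈ Icc (0 : ℤ) M, 0 ≤ W μ s η a M y * Real.exp (V μ s η (a.1 + M, a.2 + y) L) := fun y _ =>
    mul_nonneg (W_nonneg _ _ _ _) (Real.exp_pos _).le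
  have u1 : Real.exp (TG μ s h M L η a) ≤ Real.exp (V μ s η a (M + L) + |h| * M) := by
    rw [exp_TG, Real.exp_add, e0, sum_mul]
    refine sum_le_sum fun y hy => ?_
    have h2 := Real.exp_le_exp.2 (abs_le.1 (h1 y hy)).2
    have h3 := mul_le_mul_of_nonneg_left h2 (hW y hy)
    refine le_trans (le_of_eq ?_) h3
    ring
  have u2 : Real.exp (V μ s η a (M + L) - |h| * M) ≤ Real.exp (TG μ s h M L η a) := by
    rw [exp_TG, sub_eq_add_neg, Real.exp_add, e0, sum_mul]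
    refine sum_le_sum fun y hy => ?_
    have h2 := Real.exp_le_exp.2 (abs_le.1 (h1 y hy)).1
    have h3 := mul_le_mul_of_nonneg_left h2 (hW y hy)
    refine h3.trans (le_of_eq ?_)
    ring
  have v1 := Real.exp_le_exp.1 u1
  have v2 := Real.exp_le_exp.1 u2
  rw [abs_le]
  constructor <;> linarith

/-- The composite mass through sites of the row `m`. -/
def QV (μ : Measure ℝ) (s h : ℝ) (η : Env) (a : Pt) (m k L : ℕ) (A : Finset ℤ) : ℝ :=
  ∑ y ∈ A, (W μ s η a m y * Real.exp (h * ((y : ℝ) - sl μ s * m))) * Real.exp (TG μ s h k L η (a.1 + m, a.2 + y))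

theorem QV_sh (η : Env) (a b : Pt) (m k L : ℕ) (A : Finset ℤ) : QV μ s h (sh b η) a m k L A = QV μ s h η (a + b) m k L A := by
  unfold QV
  refine sum_congr rfl fun y _ => ?_
  rw [W_sh, TG_sh, pt_sh]

theorem QV_mono (η : Env) (a : Pt) (m k L : ℕ) {A B : Finset ℤ} (hAB : A ⊆ B) :
    QV μ s h η a m k L A ≤ QV μ s h η a m k L B :=
  sum_le_sum_of_subset_of_nonneg hAB fun _ _ _ =>
    mul_nonneg (mul_nonneg (W_nonneg _ _ _ _) (Real.exp_pos _).le) (Real.exp_pos _).le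

theorem QV_split (η : Env) (a : Pt) (m k L : ℕ) (p : ℤ → Prop) [DecidablePred p] (A : Finset ℤ) :
    QV μ s h η a m k L (A.filter p) + QV μ s h η a m k L (A.filter fun y => ¬ p y) = QV μ s h η a m k L A :=
  sum_filter_add_sum_filter_not A p _

theorem meas_QV (a : Pt) (m k L : ℕ) (A : Finset ℤ) : Measurable fun η : Env => QV μ s h η a m k L A := by
  unfold QV
  exact Finset.measurable_sum _ fun y _ => ((measurable_W (μ := μ) (s := s) a m y).mul_const _).mul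
    (Real.measurable_exp.comp (meas_TG k L _))

/-- The sum over the sites of the row `m + k`. -/
theorem QV_eq (η : Env) (a : Pt) (m k L : ℕ) {A : Finset ℤ} (hA : A ⊆ Icc (0 : ℤ) m) :
    QV μ s h η a m k L A = ∑ u ∈ Icc (0 : ℤ) ((m + k : ℕ) : ℤ), Real.exp (h * ((u : ℝ) - sl μ s * ((m + k : ℕ) : ℝ))) *
      (∑ y ∈ A, W μ s η a m y * W μ s η (a.1 + m, a.2 + y) k (u - y)) *
        Real.exp (V μ s η (a.1 + ((m + k : ℕ) : ℤ), a.2 + u) L) := by
  have h1 : ∀ y ∈ A, (W μ s η a m y * Real.exp (h * ((y : ℝ) - sl μ s * m))) *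
      Real.exp (TG μ s h k L η (a.1 + m, a.2 + y)) = ∑ u ∈ Icc (0 : ℤ) ((m + k : ℕ) : ℤ),
        Real.exp (h * ((u : ℝ) - sl μ s * ((m + k : ℕ) : ℝ))) * (W μ s η a m y * W μ s η (a.1 + m, a.2 + y) k (u - y)) *
          Real.exp (V μ s η (a.1 + ((m + k : ℕ) : ℤ), a.2 + u) L) := by
    intro y hy
    have hy' := mem_Icc.1 (hA hy)
    have h2 : ∑ u ∈ Icc (0 : ℤ) ((m + k : ℕ) : ℤ),
        Real.exp (h * ((u : ℝ) - sl μ s * ((m + k : ℕ) : ℝ))) * (W μ s η a m y * W μ s η (a.1 + m, a.2 + y) k (u - y)) *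
          Real.exp (V μ s η (a.1 + ((m + k : ℕ) : ℤ), a.2 + u) L) =
        ∑ u ∈ Icc y (y + k),
        Real.exp (h * ((u : ℝ) - sl μ s * ((m + k : ℕ) : ℝ))) * (W μ s η a m y * W μ s η (a.1 + m, a.2 + y) k (u - y)) *
          Real.exp (V μ s η (a.1 + ((m + k : ℕ) : ℤ), a.2 + u) L) := by
      symm
      refine sum_subset ?_ fun u _ hu => ?_
      · intro u hu
        rw [mem_Icc] at hu ⊢
        push_cast
        constructor <;> omega
      · rw [mem_Icc] at hu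
        rw [W_eq_zero (n := k) (y := u - y) η _ (by omega), mul_zero, mul_zero, zero_mul]
    have h3 : ∑ u ∈ Icc y (y + k),
        Real.exp (h * ((u : ℝ) - sl μ s * ((m + k : ℕ) : ℝ))) * (W μ s η a m y * W μ s η (a.1 + m, a.2 + y) k (u - y)) *
          Real.exp (V μ s η (a.1 + ((m + k : ℕ) : ℤ), a.2 + u) L) =
        ∑ z ∈ Icc (0 : ℤ) k, Real.exp (h * (((y + z : ℤ) : ℝ) - sl μ s * ((m + k : ℕ) : ℝ))) *
          (W μ s η a m y * W μ s η (a.1 + m, a.2 + y) k z) *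
          Real.exp (V μ s η (a.1 + ((m + k : ℕ) : ℤ), a.2 + (y + z)) L) := by
      refine sum_nbij' (fun u => u - y) (fun z => y + z) ?_ ?_ ?_ ?_ ?_
      · intro u hu
        rw [mem_Icc] at hu ⊢
        constructor <;> omega
      · intro z hz
        rw [mem_Icc] at hz ⊢
        constructor <;> omega
      · intro u _
        ring
      · intro z _
        ring
      · intro u _
        have e : y + (u - y) = u := by ring
        rw [e]
    rw [h2, h3, exp_TG, mul_sum]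
    refine sum_congr rfl fun z _ => ?_
    have e : Real.exp (h * (((y + z : ℤ) : ℝ) - sl μ s * ((m + k : ℕ) : ℝ))) =
        Real.exp (h * ((y : ℝ) - sl μ s * m)) * Real.exp (h * ((z : ℝ) - sl μ s * k)) := by
      rw [← Real.exp_add]
      congr 1
      push_cast
      ring
    have e2 : ((((a.1 + (m : ℤ), a.2 + y) : Pt).1 + (k : ℤ), ((a.1 + (m : ℤ), a.2 + y) : Pt).2 + z) : Pt) =
        (a.1 + ((m + k : ℕ) : ℤ), a.2 + (y + z)) := by
      ext
      · show a.1 + (m : ℤ) + k = a.1 + ((m + k : ℕ) : ℤ)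
        push_cast
        ring
      · show a.2 + y + z = a.2 + (y + z)
        ring
    rw [e, e2]
    ring
  unfold QV
  rw [sum_congr rfl h1, sum_comm]
  refine sum_congr rfl fun u _ => ?_
  rw [mul_sum, sum_mul]

theorem QV_full (η : Env) (a : Pt) (m k L : ℕ) :
    QV μ s h η a m k L (Icc (0 : ℤ) m) = Real.exp (TG μ s h (m + k) L η a) := by
  rw [QV_eq η a m k L le_rfl, exp_TG']
  refine sum_congr rfl fun u _ => ?_
  rw [← W_add η a m k u]

/-- One displacement. -/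
theorem TG_ge (η : Env) (a : Pt) (M L : ℕ) {y : ℤ} (h0 : 0 ≤ y) (h1 : y ≤ M) :
    -X μ s η a M y + h * ((y : ℝ) - sl μ s * M) + V μ s η (a.1 + M, a.2 + y) L ≤ TG μ s h M L η a := by
  have h2 := single_le_sum (s := Icc (0 : ℤ) M) (f := fun y : ℤ => (W μ s η a M y * Real.exp (h * ((y : ℝ) - sl μ s * M))) *
    Real.exp (V μ s η (a.1 + M, a.2 + y) L)) (fun y _ =>
      mul_nonneg (mul_nonneg (W_nonneg _ _ _ _) (Real.exp_pos _).le) (Real.exp_pos _).le) (mem_Icc.2 ⟨h0, h1⟩)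
  rw [← exp_TG] at h2
  have hW := W_pos (μ := μ) (s := s) η a h0 h1
  have h4 : W μ s η a M y = Real.exp (-X μ s η a M y) := by
    unfold X
    rw [neg_neg, Real.exp_log hW]
  have h5 : Real.exp (-X μ s η a M y + h * ((y : ℝ) - sl μ s * M) + V μ s η (a.1 + M, a.2 + y) L) ≤
      Real.exp (TG μ s h M L η a) := by
    refine le_trans (le_of_eq ?_) h2
    show _ = (W μ s η a M y * Real.exp (h * ((y : ℝ) - sl μ s * M))) * Real.exp (V μ s η (a.1 + M, a.2 + y) L)
    rw [h4, ← Real.exp_add, ← Real.exp_add]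
  exact Real.exp_le_exp.1 h5

/-- The windowed composite mass is at least one site. -/
theorem QV_ge (η : Env) (a : Pt) (m k L : ℕ) {A : Finset ℤ} {y : ℤ} (hy : y ∈ A) (h0 : 0 ≤ y) (h1 : y ≤ m) :
    Real.exp (-X μ s η a m y + h * ((y : ℝ) - sl μ s * m) + TG μ s h k L η (a.1 + m, a.2 + y)) ≤
      QV μ s h η a m k L A := by
  have h2 := single_le_sum (s := A) (f := fun y : ℤ => (W μ s η a m y * Real.exp (h * ((y : ℝ) - sl μ s * m))) *
    Real.exp (TG μ s h k L η (a.1 + m, a.2 + y))) (fun y _ =>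
      mul_nonneg (mul_nonneg (W_nonneg _ _ _ _) (Real.exp_pos _).le) (Real.exp_pos _).le) hy
  refine le_trans (le_of_eq ?_) h2
  have hW := W_pos (μ := μ) (s := s) η a h0 h1
  have h4 : W μ s η a m y = Real.exp (-X μ s η a m y) := by
    unfold X
    rw [neg_neg, Real.exp_log hW]
  show _ = (W μ s η a m y * Real.exp (h * ((y : ℝ) - sl μ s * m))) * Real.exp (TG μ s h k L η (a.1 + m, a.2 + y))
  rw [h4, ← Real.exp_add, ← Real.exp_add]

theorem logQV (η : Env) (a : Pt) (m k L : ℕ) {A : Finset ℤ} (hA : A ⊆ Icc (0 : ℤ) m) {y : ℤ} (hy : y ∈ A) :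
    0 < QV μ s h η a m k L A ∧
    -X μ s η a m y + h * ((y : ℝ) - sl μ s * m) + TG μ s h k L η (a.1 + m, a.2 + y) ≤ Real.log (QV μ s h η a m k L A) ∧
    Real.log (QV μ s h η a m k L A) ≤ TG μ s h (m + k) L η a := by
  have hy' := mem_Icc.1 (hA hy)
  have h1 := QV_ge (μ := μ) (s := s) (h := h) η a m k L hy hy'.1 hy'.2
  have h2 : 0 < QV μ s h η a m k L A := (Real.exp_pos _).trans_le h1
  refine ⟨h2, ?_, ?_⟩
  · have h3 := Real.log_le_log (Real.exp_pos _) h1
    rwa [Real.log_exp] at h3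
  · have h3 := QV_mono (μ := μ) (s := s) (h := h) η a m k L hA
    rw [QV_full] at h3
    have h4 := Real.log_le_log h2 h3
    rwa [Real.log_exp] at h4

theorem Sub_TG (hs0 : 0 ≤ sl μ s) (hs1 : sl μ s ≤ 1) (M L : ℕ) (a : Pt) : Sub fun η : Env => TG μ s h M L η a :=
  Sub.of_le (meas_TG M L a) ((Sub_V (μ := μ) (s := s) a (M + L)).sub (Sub.const (|h| * M)))
    ((Sub_V (μ := μ) (s := s) a (M + L)).add (Sub.const (|h| * M)))
    (fun η => by
      show V μ s η a (M + L) - |h| * M ≤ TG μ s h M L η a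
      linarith [(abs_le.1 (TG_near (h := h) hs0 hs1 M L η a)).1])
    (fun η => by
      show TG μ s h M L η a ≤ V μ s η a (M + L) + |h| * M
      linarith [(abs_le.1 (TG_near (h := h) hs0 hs1 M L η a)).2])

theorem Sub_logQV (hs0 : 0 ≤ sl μ s) (hs1 : sl μ s ≤ 1) (a : Pt) (m k L : ℕ) {A : Finset ℤ} (hA : A ⊆ Icc (0 : ℤ) m) {y : ℤ}
    (hy : y ∈ A) : Sub fun η : Env => Real.log (QV μ s h η a m k L A) := by
  have hy' := mem_Icc.1 (hA hy)
  exact Sub.of_le (Real.measurable_log.comp (meas_QV a m k L A))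
    (((Sub_X a hy'.1 hy'.2).neg.add (Sub.const (h * ((y : ℝ) - sl μ s * m)))).add (Sub_TG (h := h) hs0 hs1 k L _))
    (Sub_TG (h := h) hs0 hs1 (m + k) L a) (fun η => (logQV η a m k L hA hy).2.1) fun η => (logQV η a m k L hA hy).2.2

/-- The tail, with a future which is not steeper than `h''`. -/
theorem end_tailG (η : Env) (K L : ℕ) {h' h'' D G : ℝ} (hh : 2 * (|h| + h'') ≤ h') (hh0 : 0 ≤ h'') (hD : 0 ≤ D) (hG : 0 ≤ G)
    (A : Finset ℤ) (hA : A ⊆ Icc (0 : ℤ) K) (hAD : ∀ u ∈ A, D < |(u : ℝ) - sl μ s * K|)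
    (hf : ∀ u : ℤ, 0 ≤ u → u ≤ K →
      Real.exp (V μ s η ((0 : Pt).1 + (K : ℤ), (0 : Pt).2 + u) L) ≤ G * Real.exp (h'' * |(u : ℝ) - sl μ s * K|)) :
    ∑ u ∈ A, Real.exp (h * ((u : ℝ) - sl μ s * K)) * W μ s η 0 K u * Real.exp (V μ s η ((0 : Pt).1 + (K : ℤ), (0 : Pt).2 + u) L) ≤
      2 * G * (Real.exp (-(h' * D / 2)) * (Real.exp (T μ s (sl μ s) h' η 0 K) + Real.exp (T μ s (sl μ s) (-h') η 0 K))) := by
  have ha1 : 2 * |h + h''| ≤ h' := by
    have := abs_add_le h h''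
    rw [abs_of_nonneg hh0] at this
    linarith
  have ha2 : 2 * |h - h''| ≤ h' := by
    have := abs_sub h h''
    rw [abs_of_nonneg hh0] at this
    linarith
  have t1 := end_tail (μ := μ) (s := s) (h := h + h'') η 0 K ha1 hD A hA hAD
  have t2 := end_tail (μ := μ) (s := s) (h := h - h'') η 0 K ha2 hD A hA hAD
  have key : ∀ u ∈ A, Real.exp (h * ((u : ℝ) - sl μ s * K)) * W μ s η 0 K u *
      Real.exp (V μ s η ((0 : Pt).1 + (K : ℤ), (0 : Pt).2 + u) L) ≤
      G * (Real.exp ((h + h'') * ((u : ℝ) - sl μ s * K)) * W μ s η 0 K u +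
        Real.exp ((h - h'') * ((u : ℝ) - sl μ s * K)) * W μ s η 0 K u) := by
    intro u hu
    have hu' := mem_Icc.1 (hA hu)
    have hW := W_nonneg (μ := μ) (s := s) η 0 K u
    obtain ⟨x, hx⟩ : ∃ x : ℝ, x = (u : ℝ) - sl μ s * K := ⟨_, rfl⟩
    have hf' := hf u hu'.1 hu'.2
    rw [← hx] at hf' ⊢
    have h1 : Real.exp (h'' * |x|) ≤ Real.exp (h'' * x) + Real.exp (-(h'' * x)) := by
      rcases abs_cases x with ⟨h2, _⟩ | ⟨h2, _⟩
      · rw [h2]
        have := Real.exp_pos (-(h'' * x))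
        linarith
      · rw [h2, mul_neg]
        have := Real.exp_pos (h'' * x)
        linarith
    have h3 : Real.exp (h * x) * W μ s η 0 K u * (G * Real.exp (h'' * |x|)) ≤
        Real.exp (h * x) * W μ s η 0 K u * (G * (Real.exp (h'' * x) + Real.exp (-(h'' * x)))) := by gcongr
    refine (mul_le_mul_of_nonneg_left hf' (by positivity)).trans (h3.trans (le_of_eq ?_))
    have e1 : Real.exp ((h + h'') * x) = Real.exp (h * x) * Real.exp (h'' * x) := by
      rw [← Real.exp_add]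
      congr 1
      ring
    have e2 : Real.exp ((h - h'') * x) = Real.exp (h * x) * Real.exp (-(h'' * x)) := by
      rw [← Real.exp_add]
      congr 1
      ring
    rw [e1, e2]
    ring
  refine (sum_le_sum key).trans ?_
  rw [← mul_sum, sum_add_distrib]
  have := mul_le_mul_of_nonneg_left (add_le_add t1 t2) hG
  refine this.trans (le_of_eq ?_)
  ring

/-- The quenched estimate of the composite mass through `A`. -/
theorem loc_comp (η : Env) (m k L : ℕ) {A : Finset ℤ} (hA : A ⊆ Icc (0 : ℤ) m) {h' h'' D g G : ℝ} (hh : 2 * (|h| + h'') ≤ h')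
    (hh0 : 0 ≤ h'') (hD : 0 ≤ D) (hg : 0 ≤ g) (hG : 0 ≤ G)
    (hpin : ∀ u : ℤ, 0 ≤ u → u ≤ ((m + k : ℕ) : ℤ) → |(u : ℝ) - sl μ s * ((m + k : ℕ) : ℝ)| ≤ D →
      ∑ y ∈ A, W μ s η 0 m y * W μ s η ((0 : Pt).1 + m, (0 : Pt).2 + y) k (u - y) ≤ g * W μ s η 0 (m + k) u)
    (hf : ∀ u : ℤ, 0 ≤ u → u ≤ ((m + k : ℕ) : ℤ) → Real.exp (V μ s η ((0 : Pt).1 + ((m + k : ℕ) : ℤ), (0 : Pt).2 + u) L) ≤
      G * Real.exp (h'' * |(u : ℝ) - sl μ s * ((m + k : ℕ) : ℝ)|)) :
    QV μ s h η 0 m k L A ≤ g * Real.exp (TG μ s h (m + k) L η 0) +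
      2 * G * (Real.exp (-(h' * D / 2)) *
        (Real.exp (T μ s (sl μ s) h' η 0 (m + k)) + Real.exp (T μ s (sl μ s) (-h') η 0 (m + k)))) := by
  classical
  rw [QV_eq η 0 m k L hA]
  rw [← sum_filter_add_sum_filter_not (Icc (0 : ℤ) ((m + k : ℕ) : ℤ)) fun u : ℤ => |(u : ℝ) - sl μ s * ((m + k : ℕ) : ℝ)| ≤ D]
  refine add_le_add ?_ ?_
  · rw [exp_TG', mul_sum]
    refine (sum_le_sum (g := fun u : ℤ => g * (Real.exp (h * ((u : ℝ) - sl μ s * ((m + k : ℕ) : ℝ))) * W μ s η 0 (m + k) u *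
      Real.exp (V μ s η ((0 : Pt).1 + ((m + k : ℕ) : ℤ), (0 : Pt).2 + u) L)))
      fun u hu => ?_).trans (sum_le_sum_of_subset_of_nonneg (filter_subset _ _) fun u _ _ => ?_)
    · rw [mem_filter, mem_Icc] at hu
      have h1 := hpin u hu.1.1 hu.1.2 hu.2
      have h2 := mul_le_mul_of_nonneg_right (mul_le_mul_of_nonneg_left h1 (Real.exp_pos (h * ((u : ℝ) - sl μ s * ((m + k : ℕ) : ℝ)))).le)
        (Real.exp_pos (V μ s η ((0 : Pt).1 + ((m + k : ℕ) : ℤ), (0 : Pt).2 + u) L)).le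
      refine h2.trans (le_of_eq ?_)
      ring
    · exact mul_nonneg hg (mul_nonneg (mul_nonneg (Real.exp_pos _).le (W_nonneg _ _ _ _)) (Real.exp_pos _).le)
  · refine (sum_le_sum fun u _ => mul_le_mul_of_nonneg_right (mul_le_mul_of_nonneg_left (?_ : _ ≤ W μ s η 0 (m + k) u)
      (Real.exp_pos _).le) (Real.exp_pos _).le).trans
      (end_tailG (h := h) η (m + k) L hh hh0 hD hG _ (filter_subset _ _) (fun u hu => ?_) hf)
    · rw [W_add η 0 m k u]
      exact sum_le_sum_of_subset_of_nonneg hA fun y _ _ => mul_nonneg (W_nonneg _ _ _ _) (W_nonneg _ _ _ _)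
    · rw [mem_filter] at hu
      exact not_le.1 hu.2

/-- The composite mass from above. -/
theorem TG_up (η : Env) (K L : ℕ) {h'' G : ℝ} (hG : 0 ≤ G)
    (hf : ∀ u : ℤ, 0 ≤ u → u ≤ K →
      Real.exp (V μ s η ((0 : Pt).1 + (K : ℤ), (0 : Pt).2 + u) L) ≤ G * Real.exp (h'' * |(u : ℝ) - sl μ s * K|)) :
    Real.exp (TG μ s h K L η 0) ≤ G * (Real.exp (T μ s (sl μ s) (h + h'') η 0 K) + Real.exp (T μ s (sl μ s) (h - h'') η 0 K)) := by
  rw [exp_TG, exp_T, exp_T, ← sum_add_distrib, mul_sum]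
  refine sum_le_sum fun u hu => ?_
  rw [mem_Icc] at hu
  have hW := W_nonneg (μ := μ) (s := s) η 0 K u
  obtain ⟨x, hx⟩ : ∃ x : ℝ, x = (u : ℝ) - sl μ s * K := ⟨_, rfl⟩
  have hf' := hf u hu.1 hu.2
  rw [← hx] at hf' ⊢
  have h1 : Real.exp (h'' * |x|) ≤ Real.exp (h'' * x) + Real.exp (-(h'' * x)) := by
    rcases abs_cases x with ⟨h2, _⟩ | ⟨h2, _⟩
    · rw [h2]
      have := Real.exp_pos (-(h'' * x))
      linarith
    · rw [h2, mul_neg]
      have := Real.exp_pos (h'' * x)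
      linarith
  have h3 : W μ s η 0 K u * Real.exp (h * x) * (G * Real.exp (h'' * |x|)) ≤
      W μ s η 0 K u * Real.exp (h * x) * (G * (Real.exp (h'' * x) + Real.exp (-(h'' * x)))) := by gcongr
  refine (mul_le_mul_of_nonneg_left hf' (by positivity)).trans (h3.trans (le_of_eq ?_))
  have e1 : Real.exp ((h + h'') * x) = Real.exp (h * x) * Real.exp (h'' * x) := by
    rw [← Real.exp_add]
    congr 1
    ring
  have e2 : Real.exp ((h - h'') * x) = Real.exp (h * x) * Real.exp (-(h'' * x)) := by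
    rw [← Real.exp_add]
    congr 1
    ring
  rw [e1, e2]
  ring

end

end Pool.Agent.W_7d29a1_C1.Win84
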