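import Pool.Agent.W_7d29a1_C1.WinF84

/-!
[C1] HYBRIDS, CLOSURE (C), composite horizon (helper84): `comp84`: for the tilts `|t| EE K ≤ K ^ κ` on the first `K` rows, and `L` more
rows without the extra tilt, the path stays in the window at every row of the first `K`, and the composite free energy is at most the
one of the future plus `K ^ ε EE K`, outside an event of probability `exp (- K ^ c')`. The input is `FUT84` (helper67): the future is
regular at the scale of the horizon.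
-/

set_option autoImplicit false

namespace Pool.Agent.W_7d29a1_C1.Win84

open MeasureTheory ProbabilityTheory Filter Topology Finset
open Pool.Agent.W_7d29a1_F Pool.Agent.W_7d29a1_X Pool.Agent.W_7d29a1_h4g Pool.Agent.W_7d29a1_H
open Pool.Agent.W_7d29a1_HS (In wd md md_abs wd_ge_one)
open Pool.Agent.W_7d29a1_L (T kap exp_T exp_T_add)
open Pool.Agent.W_7d29a1_HZ (gp P1 NSp ns PBox pbox wd' EE' EE'_pow wd'_pow)
open Pool.Agent.W_7d29a1_HZ.Z21 (ev_pow94)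
open scoped ENNReal

noncomputable section

variable {μ : Measure ℝ} {s : ℝ} [IsProbabilityMeasure μ] {c C : ℝ} {n₀ : ℕ}

/-- The upper bound of the variance (`UB20` of `W_7d29a1_LB`, `UB17` of `EndF17`), repeated to keep the imports short. -/
def UB84 (μ : Measure ℝ) (s : ℝ) : Prop :=
  ∀ ε : ℝ, 0 < ε → ∃ n₁ : ℕ, ∀ n : ℕ, n₁ ≤ n → EE μ s n ^ 2 ≤ (n : ℝ) ^ ε * wd μ s n

/-- The future of `L` rows is regular at the scale `wd T`, in a box of size `T ≤ L` (`FUT67` of helper67). -/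
def FUT84 (μ : Measure ℝ) (s : ℝ) : Prop :=
  ∀ e : ℝ, 0 < e → ∀ p : ℝ, ∃ c' : ℝ, 0 < c' ∧ ∃ T₀ : ℕ, ∀ T : ℕ, T₀ ≤ T → ∀ L : ℕ, T ≤ L → (L : ℝ) ≤ (T : ℝ) ^ p →
    (law μ).real {η | ¬ ∀ x x' : ℤ, |x| ≤ T → |x'| ≤ T → |((x : ℝ) - x')| ≤ wd μ s T →
      |V μ s η (0, x) L - V μ s η (0, x') L| ≤ (T : ℝ) ^ e * EE μ s T} ≤ Real.exp (-(T : ℝ) ^ c')

/-- The same for all `L ≤ T ^ p`. -/
def FUTS84 (μ : Measure ℝ) (s : ℝ) : Prop :=
  ∀ e : ℝ, 0 < e → ∀ p : ℝ, ∃ c' : ℝ, 0 < c' ∧ ∃ T₀ : ℕ, ∀ T : ℕ, T₀ ≤ T → ∀ L : ℕ, (L : ℝ) ≤ (T : ℝ) ^ p →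
    (law μ).real {η | ¬ ∀ x x' : ℤ, |x| ≤ T → |x'| ≤ T → |((x : ℝ) - x')| ≤ wd μ s T →
      |V μ s η (0, x) L - V μ s η (0, x') L| ≤ (T : ℝ) ^ e * EE μ s T} ≤ Real.exp (-(T : ℝ) ^ c')

/-- The short futures, from the box event. -/
theorem short84 (h : In μ s c C n₀) : ∀ e : ℝ, 0 < e → ∃ δ c' : ℝ, 0 < δ ∧ 0 < c' ∧ ∃ T₀ : ℕ, ∀ T : ℕ, T₀ ≤ T →
    (law μ).real {η | ¬ ∀ L : ℕ, L ≤ T → ∀ x : ℤ, |x| ≤ T → |V μ s η (0, x) L| ≤ (T : ℝ) ^ e * EE μ s T} ≤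
      Real.exp (-(T : ℝ) ^ c') := by
  intro e he
  obtain ⟨δ, c₂, hδ, hc₂, T₂, hbox⟩ := pbox h (e / 2) (by positivity)
  obtain ⟨a', K2, ha', ha'1, hK2, hE⟩ := EE'_pow h
  obtain ⟨T₃, hT₃⟩ := eventually_atTop.1 (ev84 (K2 + 2 ^ (e / 2) * (2 / e)) (show 0 < e / 2 by positivity))
  refine ⟨δ, c₂, hδ, hc₂, max (max T₂ T₃) 1, fun T hT => ?_⟩
  have g1 : T₂ ≤ T := (le_max_left _ _).trans ((le_max_left _ _).trans hT)
  have g2 : T₃ ≤ T := (le_max_right _ _).trans ((le_max_left _ _).trans hT)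
  have g3 : 1 ≤ T := (le_max_right _ _).trans hT
  have hT1 : (1 : ℝ) ≤ T := by exact_mod_cast g3
  have hT0 : (0 : ℝ) < T := by linarith
  have hET := one_le_EE (μ := μ) (s := s) T
  have b1 : (law μ).real {η | ¬ PBox μ s T δ (e / 2) η} ≤ Real.exp (-(T : ℝ) ^ c₂) :=
    ENNReal.toReal_le_of_le_ofReal (Real.exp_pos _).le (hbox T g1)
  refine (measureReal_mono fun η hη => ?_).trans b1
  intro hgood
  refine hη fun L hL x hx => ?_
  obtain ⟨b, hb⟩ : ∃ b : ℝ, b = (T : ℝ) ^ (e / 2) := ⟨_, rfl⟩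
  have hb0 : 0 < b := by rw [hb]; positivity
  have hbb : b * b = (T : ℝ) ^ e := by
    rw [hb, ← Real.rpow_add hT0]
    congr 1
    ring
  have hK3 := hT₃ T g2
  rw [← hb] at hK3
  rcases Nat.eq_zero_or_pos L with h0 | h0
  · rw [h0, V_zero, abs_zero]
    positivity
  have e1 : EE' μ s L ≤ K2 * EE μ s T := by
    have := (hE L T h0 hL).1
    rw [EE'_eq (n := T)] at this
    exact this
  have e2 : (T : ℝ) ^ (e / 2) * EE' μ s L ≤ K2 * b * EE μ s T := by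
    rw [← hb]
    calc b * EE' μ s L ≤ b * (K2 * EE μ s T) := mul_le_mul_of_nonneg_left e1 hb0.le
      _ = K2 * b * EE μ s T := by ring
  have ex : ((((0 : ℕ) : ℤ), x) : Pt) = ((0 : ℤ), x) := by simp
  have hLT : (L : ℝ) ≤ T := by exact_mod_cast hL
  have hEV : Real.exp (V μ s η ((0 : ℤ), x) L) = ∑ y ∈ Icc (0 : ℤ) L, W μ s η ((0 : ℤ), x) L y := by
    rw [exp_V]
    rfl
  have hlog : Real.log ((T : ℝ) + 1) ≤ 2 ^ (e / 2) * (2 / e) * b := by
    have h1 := Real.log_le_rpow_div (show (0 : ℝ) ≤ (T : ℝ) + 1 by positivity) (show 0 < e / 2 by positivity)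
    have h2 : ((T : ℝ) + 1) ^ (e / 2) ≤ (2 * (T : ℝ)) ^ (e / 2) := Real.rpow_le_rpow (by positivity) (by linarith) (by positivity)
    rw [Real.mul_rpow (by norm_num) hT0.le, ← hb] at h2
    have h3 : ((T : ℝ) + 1) ^ (e / 2) / (e / 2) ≤ (2 ^ (e / 2) * b) / (e / 2) := div_le_div_of_nonneg_right h2 (by positivity)
    have h4 : (2 ^ (e / 2) * b) / (e / 2) = 2 ^ (e / 2) * (2 / e) * b := by field_simp
    linarith
  have hfin : K2 * b * EE μ s T + Real.log ((T : ℝ) + 1) ≤ (T : ℝ) ^ e * EE μ s T := by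
    have h1 : 2 ^ (e / 2) * (2 / e) * b * 1 ≤ 2 ^ (e / 2) * (2 / e) * b * EE μ s T :=
      mul_le_mul_of_nonneg_left hET (by positivity)
    have h2 : (K2 + 2 ^ (e / 2) * (2 / e)) * (b * EE μ s T) ≤ b * (b * EE μ s T) :=
      mul_le_mul_of_nonneg_right hK3 (by positivity)
    rw [← hbb]
    linarith [show b * b * EE μ s T = b * (b * EE μ s T) by ring,
      show (K2 + 2 ^ (e / 2) * (2 / e)) * (b * EE μ s T) = K2 * b * EE μ s T + 2 ^ (e / 2) * (2 / e) * b * EE μ s T by ring]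
  have hlog0 : 0 ≤ Real.log ((T : ℝ) + 1) := Real.log_nonneg (by linarith)
  rw [abs_le]
  constructor
  · -- from below
    have h1 := (hgood 0 L (by omega) x (by omega) (md μ s L) (h.md_nonneg L) (h.md_le_nat L)).2.2 (by
      refine (md_abs L).trans ?_
      have h2 : 1 ≤ (T : ℝ) ^ δ := Real.one_le_rpow hT1 hδ.le
      rw [wd'_eq' h h0]
      exact one_le_mul_of_one_le_of_one_le h2 (by linarith [wd_two h h0]))
    rw [ex] at h1
    have h2 : W μ s η ((0 : ℤ), x) L (md μ s L) ≤ Real.exp (V μ s η ((0 : ℤ), x) L) := by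
      rw [hEV]
      exact single_le_sum (f := fun y => W μ s η ((0 : ℤ), x) L y) (fun y _ => W_nonneg _ _ _ _)
        (mem_Icc.2 ⟨h.md_nonneg L, h.md_le_nat L⟩)
    have h3 := Real.exp_le_exp.1 (h1.trans h2)
    linarith
  · -- from above
    have h1 : Real.exp (V μ s η ((0 : ℤ), x) L) ≤ Real.exp (Real.log ((T : ℝ) + 1) + K2 * b * EE μ s T) := by
      rw [hEV, Real.exp_add, Real.exp_log (by linarith)]
      have h2 : ∀ y ∈ Icc (0 : ℤ) L, W μ s η ((0 : ℤ), x) L y ≤ Real.exp (K2 * b * EE μ s T) := fun y hy => by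
        rw [mem_Icc] at hy
        have h3 := (hgood 0 L (by omega) x (by omega) y hy.1 hy.2).1
        rw [ex] at h3
        exact h3.trans (Real.exp_le_exp.2 e2)
      refine (sum_le_card_nsmul _ _ _ h2).trans ?_
      rw [Int.card_Icc, nsmul_eq_mul]
      have h9 : (((L : ℤ) + 1 - 0).toNat : ℝ) = (L : ℝ) + 1 := by
        have : ((L : ℤ) + 1 - 0).toNat = L + 1 := by omega
        rw [this]
        push_cast
        ring
      rw [h9]
      exact mul_le_mul_of_nonneg_right (by linarith) (Real.exp_pos _).le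
    have h3 := Real.exp_le_exp.1 h1
    linarith

theorem futs84 (h : In μ s c C n₀) (hF : FUT84 μ s) : FUTS84 μ s := by
  intro e he p
  obtain ⟨c₁, hc₁, T₁, hF⟩ := hF e he p
  obtain ⟨δ, c₂, hδ, hc₂, T₂, hbox⟩ := short84 h (e / 2) (by positivity)
  obtain ⟨T₃, hT₃⟩ := eventually_atTop.1 (ev84 2 (show 0 < e / 2 by positivity))
  refine ⟨min c₁ c₂, lt_min hc₁ hc₂, max (max T₁ T₂) (max T₃ 1), fun T hT L hLp => ?_⟩
  have g1 : T₁ ≤ T := (le_max_left _ _).trans ((le_max_left _ _).trans hT)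
  have g2 : T₂ ≤ T := (le_max_right _ _).trans ((le_max_left _ _).trans hT)
  have g4 : T₃ ≤ T := (le_max_left _ _).trans ((le_max_right _ _).trans hT)
  have g3 : 1 ≤ T := (le_max_right _ _).trans ((le_max_right _ _).trans hT)
  have hT1 : (1 : ℝ) ≤ T := by exact_mod_cast g3
  have hT0 : (0 : ℝ) < T := by linarith
  have hET := one_le_EE (μ := μ) (s := s) T
  have hexp : ∀ q : ℝ, min c₁ c₂ ≤ q → Real.exp (-(T : ℝ) ^ q) ≤ Real.exp (-(T : ℝ) ^ (min c₁ c₂)) := fun q hq =>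
    Real.exp_le_exp.2 (neg_le_neg (Real.rpow_le_rpow_of_exponent_le hT1 hq))
  by_cases hTL : T ≤ L
  · exact (hF T g1 L hTL hLp).trans (hexp _ (min_le_left _ _))
  · refine (measureReal_mono fun η hη => ?_).trans ((hbox T g2).trans (hexp _ (min_le_right _ _)))
    intro hgood
    refine hη fun x x' hx hx' _ => ?_
    have h1 := hgood L (by omega) x hx
    have h2 := hgood L (by omega) x' hx'
    have h3 : |V μ s η (0, x) L - V μ s η (0, x') L| ≤ |V μ s η (0, x) L| + |V μ s η (0, x') L| := by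
      have := abs_sub (V μ s η (0, x) L) (V μ s η (0, x') L)
      exact this
    have h4 : 2 * (T : ℝ) ^ (e / 2) ≤ (T : ℝ) ^ e := by
      have h5 := mul_le_mul_of_nonneg_right (hT₃ T g4) (show 0 ≤ (T : ℝ) ^ (e / 2) by positivity)
      rw [← Real.rpow_add hT0] at h5
      have h6 : e / 2 + e / 2 = e := by ring
      rwa [h6] at h5
    have h5 := mul_le_mul_of_nonneg_right h4 (show 0 ≤ EE μ s T by linarith)
    linarith

/-- Chaining. -/
theorem chain84 (f : ℤ → ℝ) {K : ℕ} {w B : ℝ} (hw : 1 ≤ w) (hB : 0 ≤ B)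
    (hf : ∀ x x' : ℤ, |x| ≤ K → |x'| ≤ K → |((x : ℝ) - x')| ≤ w → |f x - f x'| ≤ B) :
    ∀ x y : ℤ, 0 ≤ x → x ≤ K → 0 ≤ y → y ≤ K → |f x - f y| ≤ B * (2 / w * |(x : ℝ) - y| + 1) := by
  obtain ⟨q, hq⟩ : ∃ q : ℕ, q = ⌊w⌋₊ := ⟨_, rfl⟩
  have hq1 : 1 ≤ q := by
    rw [hq]
    exact Nat.le_floor (by exact_mod_cast hw)
  have hqw : (q : ℝ) ≤ w := by rw [hq]; exact Nat.floor_le (by linarith)
  have hqw2 : w ≤ 2 * q := by
    have h1 : w < q + 1 := by rw [hq]; exact Nat.lt_floor_add_one w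
    have h2 : (1 : ℝ) ≤ q := by exact_mod_cast hq1
    linarith
  have hstep : ∀ j : ℕ, ∀ x y : ℤ, 0 ≤ x → x ≤ y → y ≤ K → y - x ≤ (j + 1 : ℕ) * (q : ℤ) → |f x - f y| ≤ (j + 1 : ℕ) * B := by
    intro j
    induction j with
    | zero =>
      intro x y h0 h1 h2 h3
      refine (hf x y ?_ ?_ ?_).trans (le_of_eq (by push_cast; ring))
      · rw [abs_of_nonneg h0]; omega
      · rw [abs_of_nonneg (h0.trans h1)]; exact h2
      · have h4 : (y : ℝ) - x ≤ q := by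
          have : y - x ≤ (q : ℤ) := by push_cast at h3; linarith
          exact_mod_cast this
        have h5 : (x : ℝ) ≤ y := by exact_mod_cast h1
        rw [abs_sub_comm, abs_of_nonneg (by linarith)]
        linarith
    | succ j ih =>
      intro x y h0 h1 h2 h3
      by_cases h4 : y - x ≤ (j + 1 : ℕ) * (q : ℤ)
      · refine (ih x y h0 h1 h2 h4).trans ?_
        push_cast
        linarith only [hB]
      · have h5 : x + q ≤ y := by
          push_cast at h4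
          have : (q : ℤ) ≤ ((j : ℤ) + 1) * q := by nlinarith
          omega
        have h6 := ih (x + q) y (by omega) h5 h2 (by push_cast at h3 ⊢; linarith)
        have h7 := hf x (x + q) (by rw [abs_of_nonneg h0]; omega) (by rw [abs_of_nonneg (by omega)]; omega) (by
          push_cast
          rw [show (x : ℝ) - (x + q) = -(q : ℝ) by ring, abs_neg, abs_of_nonneg (by positivity)]
          exact hqw)
        have h8 := abs_sub_le (f x) (f (x + q)) (f y)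
        push_cast at h6 ⊢
        linarith
  have hmain : ∀ x y : ℤ, 0 ≤ x → x ≤ y → y ≤ K → |f x - f y| ≤ B * (2 / w * ((y : ℝ) - x) + 1) := by
    intro x y h0 h1 h2
    obtain ⟨d, hd⟩ : ∃ d : ℕ, (d : ℤ) = y - x := ⟨(y - x).toNat, by omega⟩
    have h3 := hstep (d / q) x y h0 h1 h2 (by
      rw [← hd]
      have h4 := Nat.lt_div_mul_add (a := d) (b := q) (by omega)
      have h5 : d ≤ (d / q + 1) * q := by
        calc d ≤ d / q * q + q := h4.le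
          _ = (d / q + 1) * q := by ring
      exact_mod_cast h5)
    have hdR : (d : ℝ) = (y : ℝ) - x := by exact_mod_cast hd
    refine h3.trans ?_
    rw [mul_comm B]
    refine mul_le_mul_of_nonneg_right ?_ hB
    push_cast
    have h6 : ((d / q : ℕ) : ℝ) ≤ (d : ℝ) / q := Nat.cast_div_le
    have h7 : (d : ℝ) / q ≤ 2 / w * d := by
      have hq0 : (0 : ℝ) < q := by exact_mod_cast hq1
      rw [div_mul_eq_mul_div, div_le_div_iff₀ hq0 (by linarith)]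
      have h8 := mul_le_mul_of_nonneg_left hqw2 (Nat.cast_nonneg d : (0 : ℝ) ≤ d)
      linarith only [h8]
    rw [← hdR]
    linarith
  intro x y hx0 hx1 hy0 hy1
  rcases le_total x y with h1 | h1
  · have h2 := hmain x y hx0 h1 hy1
    have h3 : (x : ℝ) ≤ y := by exact_mod_cast h1
    rw [abs_sub_comm (x : ℝ) y, abs_of_nonneg (show (0 : ℝ) ≤ (y : ℝ) - x by linarith)]
    exact h2
  · have h2 := hmain y x hy0 h1 hx1
    have h3 : (y : ℝ) ≤ x := by exact_mod_cast h1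
    rw [abs_of_nonneg (show (0 : ℝ) ≤ (x : ℝ) - y by linarith), abs_sub_comm]
    exact h2

/-- The regularity of the future at the row `K`. -/
def FR (μ : Measure ℝ) (s e : ℝ) (K L : ℕ) : Set Env :=
  {η | ∀ x x' : ℤ, |x| ≤ K → |x'| ≤ K → |((x : ℝ) - x')| ≤ wd μ s K →
    |V μ s η (0, x) L - V μ s η (0, x') L| ≤ (K : ℝ) ^ e * EE μ s K}

omit [IsProbabilityMeasure μ] in
theorem meas_FR (e : ℝ) (K L : ℕ) : MeasurableSet (FR μ s e K L) := by
  unfold FR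
  simp only [Set.ofPred_forall]
  refine MeasurableSet.iInter fun x => MeasurableSet.iInter fun x' => MeasurableSet.iInter fun _ => MeasurableSet.iInter fun _ =>
    MeasurableSet.iInter fun _ => ?_
  exact measurableSet_le ((measurable_V (μ := μ) (s := s) _ L).sub (measurable_V (μ := μ) (s := s) _ L)).abs measurable_const

/-- The future at the row `K`, in the form of `loc_comp`. -/
theorem fut_row (h : In μ s c C n₀) {e : ℝ} (K L : ℕ) (hK : 1 ≤ K) (η : Env) (hη : sh ((K : ℤ), (0 : ℤ)) η ∈ FR μ s e K L) :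
    ∀ u : ℤ, 0 ≤ u → u ≤ K → Real.exp (V μ s η ((0 : Pt).1 + (K : ℤ), (0 : Pt).2 + u) L) ≤
      Real.exp (V μ s η ((K : ℤ), md μ s K) L + 2 * ((K : ℝ) ^ e * EE μ s K)) *
        Real.exp (2 * ((K : ℝ) ^ e * EE μ s K) / wd μ s K * |(u : ℝ) - sl μ s * K|) := by
  intro u hu0 hu1
  have hw := wd_two h hK
  have hE := one_le_EE (μ := μ) (s := s) K
  obtain ⟨B, hB⟩ : ∃ B : ℝ, B = (K : ℝ) ^ e * EE μ s K := ⟨_, rfl⟩
  have hB0 : 0 ≤ B := by rw [hB]; positivity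
  have h1 : ∀ x x' : ℤ, |x| ≤ K → |x'| ≤ K → |((x : ℝ) - x')| ≤ wd μ s K →
      |V μ s η ((K : ℤ), x) L - V μ s η ((K : ℤ), x') L| ≤ B := by
    intro x x' hx hx' hxx
    have h2 := hη x x' hx hx' hxx
    rw [V_sh, V_sh] at h2
    have e1 : ∀ z : ℤ, (((0 : ℤ), z) : Pt) + ((K : ℤ), (0 : ℤ)) = ((K : ℤ), z) := by
      intro z
      ext
      · show (0 : ℤ) + K = K
        ring
      · show z + 0 = z
        ring
    rw [e1, e1] at h2
    rw [hB]
    exact h2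
  have h3 := chain84 (fun x => V μ s η ((K : ℤ), x) L) (w := wd μ s K) (by linarith) hB0 h1 u (md μ s K) hu0 hu1
    (h.md_nonneg K) (h.md_le_nat K)
  rw [← hB, ← Real.exp_add]
  have e2 : (((0 : Pt).1 + (K : ℤ), (0 : Pt).2 + u) : Pt) = ((K : ℤ), u) := by simp
  rw [e2]
  refine Real.exp_le_exp.2 ?_
  have h4 := (abs_le.1 h3).2
  have h4' : V μ s η ((K : ℤ), u) L - V μ s η ((K : ℤ), md μ s K) L ≤ B * (2 / wd μ s K * |(u : ℝ) - (md μ s K : ℝ)| + 1) := h4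
  have h5 : |(u : ℝ) - (md μ s K : ℝ)| ≤ |(u : ℝ) - sl μ s * K| + 1 := by
    have h6 := abs_sub_le (u : ℝ) (sl μ s * K) (md μ s K : ℝ)
    have h7 := md_abs (μ := μ) (s := s) K
    rw [abs_sub_comm] at h7
    linarith
  have h8 : 2 / wd μ s K ≤ 1 := by
    rw [div_le_one (by linarith)]
    exact hw
  have h9 : 0 ≤ 2 / wd μ s K := by positivity
  have h10 : B * (2 / wd μ s K * |(u : ℝ) - (md μ s K : ℝ)| + 1) ≤ 2 * B + 2 * B / wd μ s K * |(u : ℝ) - sl μ s * K| := by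
    have h11 : 2 / wd μ s K * |(u : ℝ) - (md μ s K : ℝ)| + 1 ≤ 2 / wd μ s K * |(u : ℝ) - sl μ s * K| + 2 := by
      have := mul_le_mul_of_nonneg_left h5 h9
      linarith
    refine (mul_le_mul_of_nonneg_left h11 hB0).trans (le_of_eq ?_)
    ring
  linarith

omit [IsProbabilityMeasure μ] in
/-- Two exponentials. -/
theorem up84 {G T1 T2 X U : ℝ} (h1 : T1 ≤ U) (h2 : T2 ≤ U) (h : Real.exp X ≤ Real.exp G * (Real.exp T1 + Real.exp T2)) :
    X ≤ G + U + 1 := by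
  have k3 := Real.exp_le_exp.2 h1
  have k4 := Real.exp_le_exp.2 h2
  have k5 : Real.exp T1 + Real.exp T2 ≤ Real.exp U * Real.exp 1 := by
    have := Real.add_one_le_exp (1 : ℝ)
    have := Real.exp_pos U
    nlinarith
  have k2 : Real.exp X ≤ Real.exp (G + U + 1) := by
    refine h.trans ?_
    calc Real.exp G * (Real.exp T1 + Real.exp T2)
        ≤ Real.exp G * (Real.exp U * Real.exp 1) := mul_le_mul_of_nonneg_left k5 (Real.exp_pos _).le
      _ = Real.exp (G + U + 1) := by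
        rw [← Real.exp_add, ← Real.exp_add]
        congr 1
        ring
  exact Real.exp_le_exp.1 k2

omit [IsProbabilityMeasure μ] in
/-- The units of the upper bound. -/
theorem num_up84 {a F U C5 K2 Er EK x Vm X : ℝ} (ha : 1 ≤ a) (hEK : 1 ≤ EK) (_hK2 : 1 ≤ K2) (hE : Er ≤ K2 * EK)
    (hU : U ≤ C5 * a ^ 2 * Er) (hEr : 1 ≤ Er) (hF : F ≤ a * EK) (hx : (|C5| * K2 + 3) * a ^ 2 ≤ x) (hX : X ≤ Vm + 2 * F + U + 1) :
    X ≤ Vm + x * EK := by
  have haa : a ≤ a ^ 2 := le_self_pow₀ ha two_ne_zero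
  have k8 : U ≤ |C5| * K2 * a ^ 2 * EK := by
    refine hU.trans ?_
    calc C5 * a ^ 2 * Er ≤ |C5| * a ^ 2 * Er := by
          refine mul_le_mul_of_nonneg_right (mul_le_mul_of_nonneg_right (le_abs_self _) (by positivity)) (by linarith)
      _ ≤ |C5| * a ^ 2 * (K2 * EK) := mul_le_mul_of_nonneg_left hE (by positivity)
      _ = |C5| * K2 * a ^ 2 * EK := by ring
  have k9 : F ≤ a ^ 2 * EK := hF.trans (mul_le_mul_of_nonneg_right haa (by linarith))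
  have k10 : (1 : ℝ) ≤ a ^ 2 * EK := one_le_mul_of_one_le_of_one_le (by linarith) hEK
  have k11 := mul_le_mul_of_nonneg_right hx (show 0 ≤ EK by linarith)
  linarith [show (|C5| * K2 + 3) * a ^ 2 * EK = |C5| * K2 * a ^ 2 * EK + 2 * (a ^ 2 * EK) + a ^ 2 * EK by ring]

omit [IsProbabilityMeasure μ] in
/-- The tail of the composite mass against the whole. -/
theorem tail84 {Vm F a2 Th X q : ℝ} (hq : q ≤ Real.exp (-a2) * Real.exp Th) (hX : Vm + 2 * F + Th ≤ X) :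
    2 * Real.exp (Vm + 2 * F) * q ≤ 2 * Real.exp (-a2) * Real.exp X := by
  calc 2 * Real.exp (Vm + 2 * F) * q ≤ 2 * Real.exp (Vm + 2 * F) * (Real.exp (-a2) * Real.exp Th) :=
        mul_le_mul_of_nonneg_left hq (by positivity)
    _ = 2 * Real.exp (-a2) * (Real.exp (Vm + 2 * F) * Real.exp Th) := by ring
    _ = 2 * Real.exp (-a2) * Real.exp (Vm + 2 * F + Th) := by rw [← Real.exp_add]
    _ ≤ 2 * Real.exp (-a2) * Real.exp X := mul_le_mul_of_nonneg_left (Real.exp_le_exp.2 hX) (by positivity)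

omit [IsProbabilityMeasure μ] in
/-- The lower bound of the composite mass, in units. -/
theorem low84 {a F K1 Er EK t Th : ℝ} (ha : 1 ≤ a) (hK1 : 1 ≤ K1) (hEr : 1 ≤ Er) (hE : EK ≤ K1 * a * Er) (hF : F ≤ a * EK)
    (hTh : Th = -(2 * F) - a * EK - t) : -(4 * K1 * a ^ 2 * Er) - t ≤ Th := by
  have q9 : a * EK ≤ a * (K1 * a * Er) := mul_le_mul_of_nonneg_left hE (by linarith)
  have q10 : 0 ≤ K1 * a ^ 2 * Er := by positivity
  have q11 : a * (K1 * a * Er) = K1 * a ^ 2 * Er := by ring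
  have q12 : 4 * K1 * a ^ 2 * Er = 4 * (K1 * a ^ 2 * Er) := by ring
  rw [q11] at q9
  rw [q12, hTh]
  linarith

set_option maxHeartbeats 1000000 in
/-- **The composite polymer stays in the window, and its free energy is not larger than the one of the future plus `K ^ ε` units.** -/
theorem compS84 (h : In μ s c C n₀) (hL : LB84 μ s) (hU : UB84 μ s) (hF : FUTS84 μ s) : ∀ ε : ℝ, 0 < ε → ∀ p : ℝ, ∃ κ c' : ℝ,
    0 < κ ∧ 0 < c' ∧ ∃ K₀ : ℕ, ∀ K : ℕ, K₀ ≤ K → ∀ L : ℕ, (L : ℝ) ≤ (K : ℝ) ^ p → ∀ m k : ℕ, 1 ≤ m → m + k = K →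
    ∀ t : ℝ, |t| * EE μ s K ≤ (K : ℝ) ^ κ →
    (law μ).real {η | ¬ (QV μ s t η 0 m k L (bd μ s K ε m) ≤ Real.exp (-(K : ℝ) ^ c') * Real.exp (TG μ s t K L η 0) ∧
      TG μ s t K L η 0 ≤ V μ s η ((K : ℤ), md μ s K) L + (K : ℝ) ^ ε * EE μ s K)} ≤ Real.exp (-(K : ℝ) ^ c') := by
  intro ε hε p
  obtain ⟨δ₁, c₁, hδ₁, hc₁, L₁, hpin⟩ := pin84 h hε
  obtain ⟨δ, hδd⟩ : ∃ δ : ℝ, δ = min (min δ₁ 1) ε := ⟨_, rfl⟩
  have hδ0 : 0 < δ := by rw [hδd]; positivity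
  have hδ1 : δ ≤ 1 := by rw [hδd]; exact (min_le_left _ _).trans (min_le_right _ _)
  have hδδ : δ ≤ δ₁ := by rw [hδd]; exact (min_le_left _ _).trans (min_le_left _ _)
  have hδε : δ ≤ ε := by rw [hδd]; exact min_le_right _ _
  obtain ⟨δ₂, c₂, hδ₂, hc₂, L₂, hbox⟩ := pbox h (δ / 8) (by positivity)
  obtain ⟨B, hB, n₁, hn₁, hup⟩ := up_T h
  obtain ⟨a', K2, ha', ha'1, hK2, hE⟩ := EE'_pow h
  obtain ⟨K1, hK1, hsc⟩ := scale84 h hL
  obtain ⟨κ₀, hκ₀, hsc⟩ := hsc δ hδ0 hδ1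
  obtain ⟨e, hed⟩ : ∃ e : ℝ, e = min (κ₀ / 8) (δ / 8) := ⟨_, rfl⟩
  have he0 : 0 < e := by rw [hed]; positivity
  have he1 : e ≤ κ₀ / 8 := by rw [hed]; exact min_le_left _ _
  have he2 : e ≤ δ / 8 := by rw [hed]; exact min_le_right _ _
  obtain ⟨nU, hU⟩ := hU (κ₀ / 8) (by positivity)
  obtain ⟨c₃, hc₃, T₀, hF⟩ := hF e he0 p
  obtain ⟨C5, hC5⟩ : ∃ C5 : ℝ, C5 = C * (1 + 3 * Real.log B) + 3 := ⟨_, rfl⟩
  obtain ⟨c', hc'⟩ : ∃ c' : ℝ, c' = min (min (min c₁ c₂) c₃) (δ / 4) / 2 := ⟨_, rfl⟩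
  have hm0 : 0 < min (min (min c₁ c₂) c₃) (δ / 4) := by positivity
  have hc'0 : 0 < c' := by rw [hc']; linarith
  have hc'1 : c' < c₁ := by
    have := (min_le_left (min (min c₁ c₂) c₃) (δ / 4)).trans ((min_le_left _ _).trans (min_le_left _ _))
    rw [hc']; linarith
  have hc'2 : c' < c₂ := by
    have := (min_le_left (min (min c₁ c₂) c₃) (δ / 4)).trans ((min_le_left _ _).trans (min_le_right _ _))
    rw [hc']; linarith
  have hc'4 : c' < c₃ := by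
    have := (min_le_left (min (min c₁ c₂) c₃) (δ / 4)).trans (min_le_right _ _)
    rw [hc']; linarith
  have hc'3 : c' < δ / 4 := by
    have := min_le_right (min (min c₁ c₂) c₃) (δ / 4)
    rw [hc']; linarith
  have ev1 := ev_pow94 0 (A := 12) (a := 1) (s := δ / 4) (c' := c') (by norm_num) one_pos hc'3 (by positivity)
  have ev2 := ev_pow94 0 (A := 3) (a := 1) (s := c₂) (c' := c') (by norm_num) one_pos hc'2 hc₂
  have ev3 := ev_pow94 1 (A := 1) (a := 1 / 2) (s := c₁) (c' := c') (by norm_num) (by norm_num) hc'1 hc₁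
  have ev5 := ev_pow94 0 (A := 3) (a := 1) (s := c₃) (c' := c') (by norm_num) one_pos hc'4 hc₃
  have ev4 := ev84 (K1 / c * 8 * (|C5| + 4 * |K1| + 4)) (show 0 < δ / 8 by positivity)
  have ev6 := ev84 2 (show 0 < κ₀ / 4 by positivity)
  have ev7 := ev84 (|C5| * K2 + 3) (show 0 < ε / 2 by positivity)
  obtain ⟨K₀, hK₀⟩ := eventually_atTop.1 (ev1.and (ev2.and (ev3.and (ev4.and (ev5.and (ev6.and (ev7.and ((hsc n₁).and
    (eventually_ge_atTop (max (max (max L₁ L₂) 1) (max nU T₀)))))))))))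
  refine ⟨κ₀ / 2, c', by positivity, hc'0, K₀, fun K hK L hLp m k hm hmk t ht => ?_⟩
  obtain ⟨h1, h2, h3, h4, h1a, h1b, h1c, ⟨r, hr1, hr1', hrK, hwr, hEr, hkr, htr⟩, h5⟩ := hK₀ K hK
  have g1 : L₁ ≤ K := (le_max_left _ _).trans ((le_max_left _ _).trans ((le_max_left _ _).trans h5))
  have g2 : L₂ ≤ K := (le_max_right _ _).trans ((le_max_left _ _).trans ((le_max_left _ _).trans h5))
  have g3 : 1 ≤ K := (le_max_right _ _).trans ((le_max_left _ _).trans h5)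
  have g4 : nU ≤ K := (le_max_left _ _).trans ((le_max_right _ _).trans h5)
  have g5 : T₀ ≤ K := (le_max_right _ _).trans ((le_max_right _ _).trans h5)
  have hK0 : (0 : ℝ) < K := by exact_mod_cast g3
  have hK1R : (1 : ℝ) ≤ K := by exact_mod_cast g3
  obtain ⟨a, ha⟩ : ∃ a : ℝ, a = (K : ℝ) ^ (δ / 8) := ⟨_, rfl⟩
  rw [← ha] at h4 hEr hkr
  have ha1 : 1 ≤ a := by rw [ha]; exact Real.one_le_rpow hK1R (by positivity)
  have ha2 : a ^ 2 = (K : ℝ) ^ (δ / 4) := by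
    rw [ha, ← Real.rpow_natCast, ← Real.rpow_mul hK0.le]
    congr 1
    push_cast
    ring
  have ha8 : a ^ 8 = (K : ℝ) ^ δ := by
    rw [ha, ← Real.rpow_natCast, ← Real.rpow_mul hK0.le]
    congr 1
    push_cast
    ring
  have haa : a ≤ a ^ 2 := le_self_pow₀ ha1 two_ne_zero
  have hEr1 := one_le_EE (μ := μ) (s := s) r
  have hEK1 := one_le_EE (μ := μ) (s := s) K
  have hwr2 := wd_ge_one h hr1'
  have hwr0 : 0 < wd μ s r := by linarith
  have hwK := wd_two h g3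
  have hwK0 : 0 < wd μ s K := by linarith
  have hc0 := h.c0
  have hc1 := h.c1
  have hC1 := h.C1
  -- the slope of the future
  obtain ⟨F, hFd⟩ : ∃ F : ℝ, F = (K : ℝ) ^ e * EE μ s K := ⟨_, rfl⟩
  have hF0 : 0 ≤ F := by rw [hFd]; positivity
  obtain ⟨h'', hh''⟩ : ∃ h'' : ℝ, h'' = 2 * F / wd μ s K := ⟨_, rfl⟩
  have hh''0 : 0 ≤ h'' := by rw [hh'']; positivity
  have hea : (K : ℝ) ^ e ≤ a := by rw [ha]; exact Real.rpow_le_rpow_of_exponent_le hK1R he2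
  have hh''E : h'' * EE μ s K ≤ (K : ℝ) ^ (κ₀ / 2) := by
    have q1 := hU K g4
    have q2 : h'' * EE μ s K = 2 * (K : ℝ) ^ e * (EE μ s K ^ 2 / wd μ s K) := by
      rw [hh'', hFd]
      field_simp
    have q3 : EE μ s K ^ 2 / wd μ s K ≤ (K : ℝ) ^ (κ₀ / 8) := by
      rw [div_le_iff₀ hwK0]
      exact q1
    rw [q2]
    calc 2 * (K : ℝ) ^ e * (EE μ s K ^ 2 / wd μ s K) ≤ (K : ℝ) ^ (κ₀ / 4) * (K : ℝ) ^ (κ₀ / 8) * (K : ℝ) ^ (κ₀ / 8) := by
          refine mul_le_mul (mul_le_mul h1b (Real.rpow_le_rpow_of_exponent_le hK1R he1) (by positivity) (by positivity)) q3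
            (by positivity) (by positivity)
      _ = (K : ℝ) ^ (κ₀ / 2) := by
        rw [← Real.rpow_add hK0, ← Real.rpow_add hK0]
        congr 1
        ring
  have htt : |(|t| + h'')| * EE μ s K ≤ (K : ℝ) ^ κ₀ := by
    rw [abs_of_nonneg (by positivity), add_mul]
    calc |t| * EE μ s K + h'' * EE μ s K ≤ (K : ℝ) ^ (κ₀ / 2) + (K : ℝ) ^ (κ₀ / 2) := add_le_add ht hh''E
      _ = 2 * (K : ℝ) ^ (κ₀ / 2) := by ring
      _ ≤ (K : ℝ) ^ (κ₀ / 4) * (K : ℝ) ^ (κ₀ / 2) := mul_le_mul_of_nonneg_right h1b (by positivity)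
      _ = (K : ℝ) ^ (κ₀ / 4 + κ₀ / 2) := (Real.rpow_add hK0 _ _).symm
      _ ≤ (K : ℝ) ^ κ₀ := Real.rpow_le_rpow_of_exponent_le hK1R (by linarith)
  have htr' := htr _ htt
  rw [abs_of_nonneg (show 0 ≤ |t| + h'' by positivity)] at htr'
  obtain ⟨h', hh'⟩ : ∃ h' : ℝ, h' = c / 2 * (EE μ s r / wd μ s r) := ⟨_, rfl⟩
  rw [← hh'] at htr'
  have hh'0 : 0 ≤ h' := by rw [hh']; positivity
  have hwh : h' * wd μ s r = c / 2 * EE μ s r := by
    rw [hh']
    field_simp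
  have hadm : ∀ z : ℝ, |z| ≤ h' → |z| * wd μ s r ≤ c / 2 * EE μ s r := fun z hz => by
    rw [← hwh]
    exact mul_le_mul_of_nonneg_right hz hwr0.le
  have hh'w : |h'| * wd μ s r ≤ c / 2 * EE μ s r := hadm _ (by rw [abs_of_nonneg hh'0])
  have hh'w2 : |-h'| * wd μ s r ≤ c / 2 * EE μ s r := hadm _ (by rw [abs_neg, abs_of_nonneg hh'0])
  have ht0 := abs_nonneg t
  have hp1 : |t + h''| * wd μ s r ≤ c / 2 * EE μ s r := hadm _ (by
    have := abs_add_le t h''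
    rw [abs_of_nonneg hh''0] at this
    linarith)
  have hp2 : |t - h''| * wd μ s r ≤ c / 2 * EE μ s r := hadm _ (by
    have := abs_sub t h''
    rw [abs_of_nonneg hh''0] at this
    linarith)
  have ht1 := Pool.Agent.W_7d29a1_HZ.Z94.t_le_one h hr1' hh'w
  rw [abs_of_nonneg hh'0] at ht1
  have htabs : |t| ≤ 1 := by linarith
  -- the tails
  have u1 := hup r hr1 h' hh'w K (a ^ 2)
  have u2 := hup r hr1 (-h') hh'w2 K (a ^ 2)
  have u3 := hup r hr1 (t + h'') hp1 K (a ^ 2)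
  have u4 := hup r hr1 (t - h'') hp2 K (a ^ 2)
  obtain ⟨U, hUd⟩ : ∃ U : ℝ, U = C * EE μ s r * (a ^ 2 + (((K / r : ℕ) : ℝ) + 1) * Real.log B) +
      (((K / r : ℕ) : ℝ) + 1) * EE μ s r := ⟨_, rfl⟩
  rw [← hUd] at u1 u2 u3 u4
  have hlB : 0 ≤ Real.log B := Real.log_nonneg hB
  have hUle : U ≤ C5 * a ^ 2 * EE μ s r := by
    rw [hUd, hC5]
    have e1 : C * EE μ s r * (a ^ 2 + (((K / r : ℕ) : ℝ) + 1) * Real.log B) ≤
        C * EE μ s r * (a ^ 2 + 3 * a ^ 2 * Real.log B) := by gcongr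
    have e2 : (((K / r : ℕ) : ℝ) + 1) * EE μ s r ≤ 3 * a ^ 2 * EE μ s r := by gcongr
    refine (add_le_add e1 e2).trans (le_of_eq ?_)
    ring
  -- the box
  have b1 : (law μ).real {η | ¬ PBox μ s K δ₂ (δ / 8) η} ≤ Real.exp (-(K : ℝ) ^ c₂) :=
    ENNReal.toReal_le_of_le_ofReal (Real.exp_pos _).le (hbox K g2)
  -- the future
  have f1 : (law μ).real {η | sh ((K : ℤ), (0 : ℤ)) η ∈ (FR μ s e K L)ᶜ} ≤ Real.exp (-(K : ℝ) ^ c₃) := by
    rw [real_sh (μ := μ) ((K : ℤ), (0 : ℤ)) (meas_FR (μ := μ) (s := s) e K L).compl]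
    exact hF K g5 L hLp
  -- the pinned polymers
  obtain ⟨D, hD⟩ : ∃ D : ℝ, D = a ^ 8 * wd μ s K := ⟨_, rfl⟩
  have hD0 : 0 ≤ D := by rw [hD]; positivity
  have hDle : D ≤ (K : ℝ) ^ δ₁ * wd' μ s K := by
    rw [hD, ha8, wd'_eq' h g3]
    exact mul_le_mul_of_nonneg_right (Real.rpow_le_rpow_of_exponent_le hK1R hδδ) (by linarith)
  obtain ⟨P, hP⟩ : ∃ P : ℤ → Set Env, P = fun u : ℤ => {η | |(u : ℝ) - sl μ s * K| ≤ D ∧
    ¬ ∑ y ∈ bd μ s K ε m, W μ s η 0 m y * W μ s η ((0 : Pt).1 + m, (0 : Pt).2 + y) k (u - y) ≤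
      Real.exp (-(1 / 2 * (K : ℝ) ^ c₁)) * W μ s η 0 K u} := ⟨_, rfl⟩
  have p1 : (law μ).real (⋃ u ∈ Icc (0 : ℤ) K, P u) ≤ ((Icc (0 : ℤ) K).card : ℝ) * Real.exp (-(1 / 2 * (K : ℝ) ^ c₁)) := by
    refine Pool.Agent.W_7d29a1_HZ.Z21.union94 _ P fun u hu => ?_
    rw [mem_Icc] at hu
    rw [hP]
    by_cases hcone : |(u : ℝ) - sl μ s * K| ≤ D
    · refine (measureReal_mono fun η hη => ?_).trans (hpin K g1 m k hm hmk u hu.1 hu.2 (hcone.trans hDle))
      exact hη.2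
    · have : {η : Env | |(u : ℝ) - sl μ s * K| ≤ D ∧
          ¬ ∑ y ∈ bd μ s K ε m, W μ s η 0 m y * W μ s η ((0 : Pt).1 + m, (0 : Pt).2 + y) k (u - y) ≤
          Real.exp (-(1 / 2 * (K : ℝ) ^ c₁)) * W μ s η 0 K u} = ∅ := by
        ext η
        simp [hcone]
      beta_reduce
      rw [this, measureReal_empty]
      exact (Real.exp_pos _).le
  have hcard : ((Icc (0 : ℤ) K).card : ℝ) = (K : ℝ) + 1 := by
    rw [Int.card_Icc]
    have : ((K : ℤ) + 1 - 0).toNat = K + 1 := by omega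
    rw [this]
    push_cast
    ring
  rw [hcard] at p1
  have hincl : {η | ¬ (QV μ s t η 0 m k L (bd μ s K ε m) ≤ Real.exp (-(K : ℝ) ^ c') * Real.exp (TG μ s t K L η 0) ∧
      TG μ s t K L η 0 ≤ V μ s η ((K : ℤ), md μ s K) L + (K : ℝ) ^ ε * EE μ s K)} ⊆
      ((({η | ¬ T μ s (sl μ s) h' η 0 K ≤ U} ∪ {η | ¬ T μ s (sl μ s) (-h') η 0 K ≤ U}) ∪
        ({η | ¬ T μ s (sl μ s) (t + h'') η 0 K ≤ U} ∪ {η | ¬ T μ s (sl μ s) (t - h'') η 0 K ≤ U})) ∪
        ({η | ¬ PBox μ s K δ₂ (δ / 8) η} ∪ {η | sh ((K : ℤ), (0 : ℤ)) η ∈ (FR μ s e K L)ᶜ})) ∪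
        ⋃ u ∈ Icc (0 : ℤ) K, P u := by
    intro η hη
    by_contra hcon
    simp only [Set.mem_union, not_or] at hcon
    obtain ⟨⟨⟨⟨c1', c2'⟩, c1a, c1b⟩, c3', c3a⟩, c4'⟩ := hcon
    have q1 : T μ s (sl μ s) h' η 0 K ≤ U := not_not.1 c1'
    have q2 : T μ s (sl μ s) (-h') η 0 K ≤ U := not_not.1 c2'
    have q1a : T μ s (sl μ s) (t + h'') η 0 K ≤ U := not_not.1 c1a
    have q2a : T μ s (sl μ s) (t - h'') η 0 K ≤ U := not_not.1 c1b
    have q3 : PBox μ s K δ₂ (δ / 8) η := not_not.1 c3'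
    have q3a : sh ((K : ℤ), (0 : ℤ)) η ∈ FR μ s e K L := not_not.1 c3a
    refine hη ?_
    have hfr := fut_row h K L g3 η q3a
    rw [← hFd, ← hh''] at hfr
    -- the lower bound
    have q4 : X μ s η 0 K (md μ s K) ≤ a * EE μ s K := by
      have q5 := (q3 0 K (by omega) 0 (by simp) (md μ s K) (h.md_nonneg K) (h.md_le_nat K)).2.2 (by
        refine (md_abs K).trans ?_
        have : 1 ≤ (K : ℝ) ^ δ₂ := Real.one_le_rpow hK1R hδ₂.le
        rw [wd'_eq' h g3]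
        exact one_le_mul_of_one_le_of_one_le this (by linarith))
      rw [EE'_eq, ← ha] at q5
      have q6 : W μ s η (((0 : ℕ) : ℤ), 0) K (md μ s K) = W μ s η 0 K (md μ s K) := by
        congr 1
      rw [q6] at q5
      have q7 := Real.log_le_log (Real.exp_pos _) q5
      rw [Real.log_exp] at q7
      unfold X
      linarith
    obtain ⟨Vm, hVm⟩ : ∃ Vm : ℝ, Vm = V μ s η ((K : ℤ), md μ s K) L := ⟨_, rfl⟩
    rw [← hVm] at hfr ⊢
    have q8 : Vm - a * EE μ s K - |t| ≤ TG μ s t K L η 0 := by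
      have q9 := TG_ge (μ := μ) (s := s) (h := t) η 0 K L (h.md_nonneg K) (h.md_le_nat K)
      have e2 : (((0 : Pt).1 + (K : ℤ), (0 : Pt).2 + md μ s K) : Pt) = ((K : ℤ), md μ s K) := by simp
      rw [e2, ← hVm] at q9
      have q10 : |t * ((md μ s K : ℝ) - sl μ s * K)| ≤ |t| * 1 := by
        rw [abs_mul]
        exact mul_le_mul_of_nonneg_left (md_abs K) (abs_nonneg t)
      have q11 := (abs_le.1 q10).1
      linarith
    have hFa : F ≤ a * EE μ s K := by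
      rw [hFd]
      exact mul_le_mul_of_nonneg_right hea (zero_le_one.trans hEK1)
    constructor
    · obtain ⟨Th, hTh⟩ : ∃ Th : ℝ, Th = -(2 * F) - a * EE μ s K - |t| := ⟨_, rfl⟩
      have hTh' : -(4 * K1 * a ^ 2 * EE μ s r) - |t| ≤ Th := low84 ha1 hK1 hEr1 hEr hFa hTh
      have key := num84 (K1 := K1) (K2 := K1) (c := c) (C5 := C5) (D := D) (h' := h') (w := wd μ s K) ha1 hEr1 hwr0 hK1 hc0
        hwr hh' hD (q1.trans hUle) (q2.trans hUle) hTh' htabs h4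
      subst hmk
      have det := loc_comp (h := t) η m k L (bd_sub (μ := μ) (s := s) (m + k) ε m) (D := D) htr' hh''0 hD0
        (g := Real.exp (-(1 / 2 * ((m + k : ℕ) : ℝ) ^ c₁))) (G := Real.exp (Vm + 2 * F)) (Real.exp_pos _).le (Real.exp_pos _).le
        (fun u hu0 hu1 hu => by
          by_contra hcon2
          refine c4' ?_
          rw [Set.mem_iUnion₂]
          refine ⟨u, mem_Icc.2 ⟨hu0, hu1⟩, ?_⟩
          rw [hP]
          exact ⟨hu, hcon2⟩) hfr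
      have k1 := tail84 (Vm := Vm) (F := F) (X := TG μ s t (m + k) L η 0) key (by rw [hTh]; linarith only [q8])
      refine det.trans ((add_le_add_right k1 _).trans ?_)
      rw [← add_mul]
      refine mul_le_mul_of_nonneg_right ?_ (Real.exp_pos _).le
      rw [pow_zero, one_mul, one_mul, ← ha2] at h1
      rw [pow_one, one_mul] at h3
      have z1 := Real.exp_pos (-(1 / 2 * ((m + k : ℕ) : ℝ) ^ c₁))
      have z2 := Real.exp_pos (-a ^ 2)
      have z3 := Real.exp_pos (-((m + k : ℕ) : ℝ) ^ c')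
      have z4 : 1 * Real.exp (-(1 / 2 * ((m + k : ℕ) : ℝ) ^ c₁)) ≤
          (((m + k : ℕ) : ℝ) + 1) * Real.exp (-(1 / 2 * ((m + k : ℕ) : ℝ) ^ c₁)) :=
        mul_le_mul_of_nonneg_right (by linarith) z1.le
      linarith
    · -- the free energy from above
      have k1 := TG_up (μ := μ) (s := s) (h := t) η K L (Real.exp_pos (Vm + 2 * F)).le hfr
      have k7 := (hE r K hr1' hrK).1
      rw [EE'_eq, EE'_eq] at k7
      refine num_up84 ha1 hEK1 hK2 k7 hUle hEr1 hFa ?_ (up84 q1a q2a k1)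
      calc (|C5| * K2 + 3) * a ^ 2 ≤ (K : ℝ) ^ (ε / 2) * (K : ℝ) ^ (δ / 4) := by
            rw [ha2]
            exact mul_le_mul_of_nonneg_right h1c (Real.rpow_nonneg hK0.le _)
        _ = (K : ℝ) ^ (ε / 2 + δ / 4) := (Real.rpow_add hK0 _ _).symm
        _ ≤ (K : ℝ) ^ ε := Real.rpow_le_rpow_of_exponent_le hK1R (by linarith only [hδε, hε])
  refine (measureReal_mono hincl).trans ((measureReal_union_le _ _).trans ?_)
  have v1 := measureReal_union_le (μ := law μ) (({η | ¬ T μ s (sl μ s) h' η 0 K ≤ U} ∪ {η | ¬ T μ s (sl μ s) (-h') η 0 K ≤ U}) ∪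
        ({η | ¬ T μ s (sl μ s) (t + h'') η 0 K ≤ U} ∪ {η | ¬ T μ s (sl μ s) (t - h'') η 0 K ≤ U}))
    ({η | ¬ PBox μ s K δ₂ (δ / 8) η} ∪ {η | sh ((K : ℤ), (0 : ℤ)) η ∈ (FR μ s e K L)ᶜ})
  have v2 := measureReal_union_le (μ := law μ) ({η | ¬ T μ s (sl μ s) h' η 0 K ≤ U} ∪ {η | ¬ T μ s (sl μ s) (-h') η 0 K ≤ U})
    ({η | ¬ T μ s (sl μ s) (t + h'') η 0 K ≤ U} ∪ {η | ¬ T μ s (sl μ s) (t - h'') η 0 K ≤ U})
  have v3 := measureReal_union_le (μ := law μ) {η | ¬ T μ s (sl μ s) h' η 0 K ≤ U} {η | ¬ T μ s (sl μ s) (-h') η 0 K ≤ U}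
  have v4 := measureReal_union_le (μ := law μ) {η | ¬ T μ s (sl μ s) (t + h'') η 0 K ≤ U} {η | ¬ T μ s (sl μ s) (t - h'') η 0 K ≤ U}
  have v5 := measureReal_union_le (μ := law μ) {η | ¬ PBox μ s K δ₂ (δ / 8) η} {η | sh ((K : ℤ), (0 : ℤ)) η ∈ (FR μ s e K L)ᶜ}
  rw [pow_zero, one_mul, one_mul, ← ha2] at h1
  rw [pow_zero, one_mul, one_mul] at h2 h1a
  rw [pow_one, one_mul] at h3
  have z3 := Real.exp_pos (-(K : ℝ) ^ c')
  linarith

/-- The long futures. -/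
theorem comp84 (h : In μ s c C n₀) (hL : LB84 μ s) (hU : UB84 μ s) (hF : FUT84 μ s) : ∀ ε : ℝ, 0 < ε → ∀ p : ℝ, ∃ κ c' : ℝ,
    0 < κ ∧ 0 < c' ∧ ∃ K₀ : ℕ, ∀ K : ℕ, K₀ ≤ K → ∀ L : ℕ, K ≤ L → (L : ℝ) ≤ (K : ℝ) ^ p → ∀ m k : ℕ, 1 ≤ m → m + k = K →
    ∀ t : ℝ, |t| * EE μ s K ≤ (K : ℝ) ^ κ →
    (law μ).real {η | ¬ (QV μ s t η 0 m k L (bd μ s K ε m) ≤ Real.exp (-(K : ℝ) ^ c') * Real.exp (TG μ s t K L η 0) ∧
      TG μ s t K L η 0 ≤ V μ s η ((K : ℤ), md μ s K) L + (K : ℝ) ^ ε * EE μ s K)} ≤ Real.exp (-(K : ℝ) ^ c') := by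
  intro ε hε p
  obtain ⟨κ, c', hκ, hc', K₀, H⟩ := compS84 h hL hU (futs84 h hF) ε hε p
  exact ⟨κ, c', hκ, hc', K₀, fun K hK L _ hLp m k hm hmk t ht => H K hK L hLp m k hm hmk t ht⟩

/-- **The composite polymer stays in the window**, every start, every future of polynomial length. -/
theorem comp_at84 (h : In μ s c C n₀) (hL : LB84 μ s) (hU : UB84 μ s) (hF : FUT84 μ s) : ∀ ε : ℝ, 0 < ε → ∀ p : ℝ, ∃ κ c' : ℝ,
    0 < κ ∧ 0 < c' ∧ ∃ K₀ : ℕ, ∀ K : ℕ, K₀ ≤ K → ∀ L : ℕ, (L : ℝ) ≤ (K : ℝ) ^ p → ∀ m k : ℕ, 1 ≤ m → m + k = K →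
    ∀ t : ℝ, |t| * EE μ s K ≤ (K : ℝ) ^ κ → ∀ a : Pt,
    (law μ).real {η | ¬ QV μ s t η a m k L (bd μ s K ε m) ≤ Real.exp (-(K : ℝ) ^ c') * Real.exp (TG μ s t K L η a)} ≤
      Real.exp (-(K : ℝ) ^ c') := by
  intro ε hε p
  obtain ⟨κ, c', hκ, hc', K₀, H⟩ := compS84 h hL hU (futs84 h hF) ε hε p
  refine ⟨κ, c', hκ, hc', K₀, fun K hK L hLp m k hm hmk t ht a => ?_⟩
  have h1 : (law μ).real {η | ¬ QV μ s t η 0 m k L (bd μ s K ε m) ≤ Real.exp (-(K : ℝ) ^ c') * Real.exp (TG μ s t K L η 0)} ≤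
      Real.exp (-(K : ℝ) ^ c') := by
    refine (measureReal_mono fun η hη => ?_).trans (H K hK L hLp m k hm hmk t ht)
    exact fun hcon => hη hcon.1
  have hm2 : MeasurableSet {η : Env | ¬ QV μ s t η 0 m k L (bd μ s K ε m) ≤
      Real.exp (-(K : ℝ) ^ c') * Real.exp (TG μ s t K L η 0)} :=
    (measurableSet_le (meas_QV 0 m k L _) ((Real.measurable_exp.comp (meas_TG K L 0)).const_mul _)).compl
  have h2 := real_sh (μ := μ) a hm2
  rw [← h2] at h1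
  have e : {η | sh a η ∈ {η : Env | ¬ QV μ s t η 0 m k L (bd μ s K ε m) ≤
      Real.exp (-(K : ℝ) ^ c') * Real.exp (TG μ s t K L η 0)}} =
      {η | ¬ QV μ s t η a m k L (bd μ s K ε m) ≤ Real.exp (-(K : ℝ) ^ c') * Real.exp (TG μ s t K L η a)} := by
    ext η
    simp only [Set.mem_ofPred_eq, QV_sh, TG_sh, zero_add]
  rw [← e]
  exact h1

end

end Pool.Agent.W_7d29a1_C1.Win84
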