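import Pool.Agent.W_7d29a1_C1.WinG84

/-!
[C1] HYBRIDS, CLOSURE (C), composite horizon (helper84): `truncC84`, the truncation of the composite free energy to the window costs at
most `1`; `roughC84`, the composite free energy is at most the one of the future plus `K ^ ε` units.
-/

set_option autoImplicit false

namespace Pool.Agent.W_7d29a1_C1.Win84

open MeasureTheory ProbabilityTheory Filter Topology Finset
open Pool.Agent.W_7d29a1_F Pool.Agent.W_7d29a1_X Pool.Agent.W_7d29a1_h4g Pool.Agent.W_7d29a1_H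
open Pool.Agent.W_7d29a1_HS (In wd md md_abs wd_ge_one)
open Pool.Agent.W_7d29a1_L (T kap exp_T exp_T_add)
open Pool.Agent.W_7d29a1_HZ (gp P1 NSp ns PBox pbox wd' EE' EE'_pow wd'_pow)
open Pool.Agent.W_7d29a1_HZ.Z21 (ev_pow94)
open Pool.Agent.W_7d29a1_Z3 (sum_abs_sq_le int_le_of_bad)
open scoped ENNReal

noncomputable section

variable {μ : Measure ℝ} {s : ℝ} [IsProbabilityMeasure μ] {c C : ℝ} {n₀ : ℕ}

/-- The second moment of the free energy. -/
theorem V_sq84 (h : In μ s c C n₀) : ∃ K : ℝ, 0 < K ∧ ∀ (n : ℕ) (a : Pt), ∫ η, V μ s η a n ^ 2 ∂(law μ) ≤ K * ((n : ℝ) + 1) ^ 4 := by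
  obtain ⟨K, hK, hT⟩ := T_sq_le h
  refine ⟨K, hK, fun n a => ?_⟩
  have h1 := hT n 0 (by simp) a
  have e : ∀ η : Env, T μ s (sl μ s) 0 η a n = V μ s η a n := fun η => by
    unfold T kap
    simp
  simp only [e] at h1
  exact h1

omit [IsProbabilityMeasure μ] in
theorem sq3_84 {u v w q z : ℝ} (h0 : 0 ≤ z) (hz : z ≤ |u| + |v| + (q + |w|)) : z ^ 2 ≤ 4 * ((u ^ 2 + v ^ 2) + (q ^ 2 + w ^ 2)) := by
  have h8 : z ^ 2 ≤ (|u| + |v| + (q + |w|)) ^ 2 := pow_le_pow_left₀ h0 hz 2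
  have e1 : |u| ^ 2 = u ^ 2 := sq_abs u
  have e2 : |v| ^ 2 = v ^ 2 := sq_abs v
  have e3 : |w| ^ 2 = w ^ 2 := sq_abs w
  have h9 : (|u| + |v| + (q + |w|)) ^ 2 ≤ 4 * ((|u| ^ 2 + |v| ^ 2) + (q ^ 2 + |w| ^ 2)) := by
    nlinarith [sq_nonneg (|u| - |v|), sq_nonneg (|u| - q), sq_nonneg (|u| - |w|), sq_nonneg (|v| - q),
      sq_nonneg (|v| - |w|), sq_nonneg (q - |w|)]
  rw [e1, e2, e3] at h9
  exact h8.trans h9

/-- The second moment of the defect of the window. -/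
theorem sqD84 (h : In μ s c C n₀) : ∃ B : ℝ, 0 < B ∧ ∀ (K L m k : ℕ), m + k = K → ∀ t : ℝ, |t| ≤ 1 →
    ∀ A : Finset ℤ, A ⊆ Icc (0 : ℤ) m → md μ s m ∈ A →
    ∫ η, (TG μ s t K L η 0 - Real.log (QV μ s t η 0 m k L A)) ^ 2 ∂(law μ) ≤ B * ((K : ℝ) + L + 1) ^ 4 := by
  obtain ⟨B1, hB1, hV2⟩ := V_sq84 h
  obtain ⟨B2, hB2, hX2⟩ := Pool.Agent.W_7d29a1_HZ.Z3.X_sq_le h.em s
  have hs0 := h.sl_pos
  have hs1 := h.sl_lt
  refine ⟨4 * (2 * B1 + B2 + 4), by positivity, fun K L m k hmk t ht A hA hmdA => ?_⟩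
  have hmem := mem_Icc.1 (hA hmdA)
  have hS : Sub fun η : Env => TG μ s t K L η 0 - Real.log (QV μ s t η 0 m k L A) :=
    (Sub_TG (h := t) hs0.le hs1.le K L 0).sub (Sub_logQV (h := t) hs0.le hs1.le 0 m k L hA hmdA)
  obtain ⟨b, hb⟩ : ∃ b : Pt, b = ((0 : Pt).1 + (m : ℤ), (0 : Pt).2 + md μ s m) := ⟨_, rfl⟩
  have hi1 := (Sub_V (μ := μ) (s := s) 0 (K + L)).sq_integrable h.em
  have hi2 := (Sub_V (μ := μ) (s := s) b (k + L)).sq_integrable h.em
  have hi3 := (Sub_X (μ := μ) (s := s) 0 hmem.1 hmem.2).sq_integrable h.em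
  have hT0 := hV2 (K + L) 0
  have hT1 := hV2 (k + L) b
  have hX := hX2 m (md μ s m) hmem.1 hmem.2
  have hKR : (0 : ℝ) ≤ K := Nat.cast_nonneg K
  have hLR : (0 : ℝ) ≤ L := Nat.cast_nonneg L
  have hkR : (0 : ℝ) ≤ k := Nat.cast_nonneg k
  have hmR : (0 : ℝ) ≤ m := Nat.cast_nonneg m
  have hmkR : (m : ℝ) + k = K := by exact_mod_cast hmk
  calc ∫ η, (TG μ s t K L η 0 - Real.log (QV μ s t η 0 m k L A)) ^ 2 ∂(law μ)
      ≤ ∫ η, 4 * ((V μ s η 0 (K + L) ^ 2 + X μ s η 0 m (md μ s m) ^ 2) +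
          ((2 * (K : ℝ) + 1) ^ 2 + V μ s η b (k + L) ^ 2)) ∂(law μ) := by
        refine integral_mono (hS.sq_integrable h.em) (((hi1.add hi3).add ((integrable_const _).add hi2)).const_mul 4)
          fun η => ?_
        obtain ⟨l1, l2, l3⟩ := logQV (μ := μ) (s := s) (h := t) η 0 m k L hA hmdA
        rw [hmk] at l3
        rw [← hb] at l2
        have n1 := abs_le.1 (TG_near (μ := μ) (s := s) (h := t) hs0.le hs1.le K L η 0)
        have n2 := abs_le.1 (TG_near (μ := μ) (s := s) (h := t) hs0.le hs1.le k L η b)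
        have n3 : |t| * (K : ℝ) ≤ K := by
          have := mul_le_mul_of_nonneg_right ht hKR
          linarith
        have n4 : |t| * (k : ℝ) ≤ K := by
          have := mul_le_mul_of_nonneg_right ht hkR
          linarith
        have h5 : |t * (((md μ s m : ℤ) : ℝ) - sl μ s * m)| ≤ 1 := by
          rw [abs_mul]
          exact mul_le_one₀ ht (abs_nonneg _) (md_abs m)
        have h6 := (abs_le.1 h5).1
        refine sq3_84 (by linarith) ?_
        have a1 := le_abs_self (V μ s η 0 (K + L))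
        have a2 := le_abs_self (X μ s η 0 m (md μ s m))
        have a3 := neg_abs_le (V μ s η b (k + L))
        linarith
    _ = 4 * ((∫ η, V μ s η 0 (K + L) ^ 2 ∂(law μ) + ∫ η, X μ s η 0 m (md μ s m) ^ 2 ∂(law μ)) +
          ((2 * (K : ℝ) + 1) ^ 2 + ∫ η, V μ s η b (k + L) ^ 2 ∂(law μ))) := by
        rw [integral_const_mul]
        congr 1
        have j1 := integral_add (hi1.add hi3) ((integrable_const (μ := law μ) ((2 * (K : ℝ) + 1) ^ 2)).add hi2)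
        have j2 := integral_add hi1 hi3
        have j3 := integral_add (integrable_const (μ := law μ) ((2 * (K : ℝ) + 1) ^ 2)) hi2
        have j4 : ∫ _η : Env, (2 * (K : ℝ) + 1) ^ 2 ∂(law μ) = (2 * (K : ℝ) + 1) ^ 2 := by simp
        simp only [Pi.add_apply] at j1 j2 j3
        rw [j1, j2, j3, j4]
    _ ≤ 4 * (2 * B1 + B2 + 4) * ((K : ℝ) + L + 1) ^ 4 := by
        push_cast at hT0 hT1
        have hmK : ((m : ℝ) + 1) ^ 4 ≤ ((K : ℝ) + L + 1) ^ 4 := pow_le_pow_left₀ (by positivity) (by linarith) 4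
        have hkK : ((k : ℝ) + L + 1) ^ 4 ≤ ((K : ℝ) + L + 1) ^ 4 := pow_le_pow_left₀ (by positivity) (by linarith) 4
        have h2K : (2 * (K : ℝ) + 1) ^ 2 ≤ 4 * ((K : ℝ) + L + 1) ^ 4 := by
          have h1 : (2 * (K : ℝ) + 1) ^ 2 ≤ (2 * ((K : ℝ) + L + 1)) ^ 2 := pow_le_pow_left₀ (by positivity) (by linarith) 2
          have h2 : ((K : ℝ) + L + 1) ^ 2 ≤ ((K : ℝ) + L + 1) ^ 4 := pow_le_pow_right₀ (by linarith) (by norm_num)
          linarith [show (2 * ((K : ℝ) + L + 1)) ^ 2 = 4 * ((K : ℝ) + L + 1) ^ 2 by ring]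
        have i1 := hX.trans (mul_le_mul_of_nonneg_left hmK hB2.le)
        have i2 := hT1.trans (mul_le_mul_of_nonneg_left hkK hB1.le)
        linarith [show 4 * (2 * B1 + B2 + 4) * ((K : ℝ) + L + 1) ^ 4 =
          4 * ((B1 * ((K : ℝ) + L + 1) ^ 4 + B2 * ((K : ℝ) + L + 1) ^ 4) +
            (4 * ((K : ℝ) + L + 1) ^ 4 + B1 * ((K : ℝ) + L + 1) ^ 4)) by ring]

/-- The second moment of the difference with the future. -/
theorem sqF84 (h : In μ s c C n₀) : ∃ B : ℝ, 0 < B ∧ ∀ (K L : ℕ) (t : ℝ), |t| ≤ 1 → ∀ b : Pt,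
    ∫ η, (TG μ s t K L η 0 - V μ s η b L) ^ 2 ∂(law μ) ≤ B * ((K : ℝ) + L + 1) ^ 4 := by
  obtain ⟨B1, hB1, hV2⟩ := V_sq84 h
  have hs0 := h.sl_pos
  have hs1 := h.sl_lt
  refine ⟨3 * (2 * B1 + 1), by positivity, fun K L t ht b => ?_⟩
  have hS : Sub fun η : Env => TG μ s t K L η 0 - V μ s η b L :=
    (Sub_TG (h := t) hs0.le hs1.le K L 0).sub (Sub_V (μ := μ) (s := s) b L)
  have hi1 := (Sub_V (μ := μ) (s := s) 0 (K + L)).sq_integrable h.em
  have hi2 := (Sub_V (μ := μ) (s := s) b L).sq_integrable h.em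
  have hT0 := hV2 (K + L) 0
  have hT1 := hV2 L b
  have hKR : (0 : ℝ) ≤ K := Nat.cast_nonneg K
  have hLR : (0 : ℝ) ≤ L := Nat.cast_nonneg L
  calc ∫ η, (TG μ s t K L η 0 - V μ s η b L) ^ 2 ∂(law μ)
      ≤ ∫ η, 3 * (V μ s η 0 (K + L) ^ 2 + ((K : ℝ) ^ 2 + V μ s η b L ^ 2)) ∂(law μ) := by
        refine integral_mono (hS.sq_integrable h.em) ((hi1.add ((integrable_const _).add hi2)).const_mul 3)
          fun η => ?_
        have n1 := TG_near (μ := μ) (s := s) (h := t) hs0.le hs1.le K L η 0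
        have n3 : |t| * (K : ℝ) ≤ K := by
          have := mul_le_mul_of_nonneg_right ht hKR
          linarith
        obtain ⟨x, hx⟩ : ∃ x : ℝ, x = TG μ s t K L η 0 - V μ s η 0 (K + L) := ⟨_, rfl⟩
        rw [← hx] at n1
        have e1 : TG μ s t K L η 0 - V μ s η b L = V μ s η 0 (K + L) + x - V μ s η b L := by rw [hx]; ring
        show (TG μ s t K L η 0 - V μ s η b L) ^ 2 ≤ 3 * (V μ s η 0 (K + L) ^ 2 + ((K : ℝ) ^ 2 + V μ s η b L ^ 2))
        rw [e1]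
        have hx2 : x ^ 2 ≤ (K : ℝ) ^ 2 := by
          rw [← sq_abs x]
          exact pow_le_pow_left₀ (abs_nonneg _) (n1.trans n3) 2
        nlinarith [sq_nonneg (V μ s η 0 (K + L) - x), sq_nonneg (V μ s η 0 (K + L) + V μ s η b L), sq_nonneg (x + V μ s η b L)]
    _ = 3 * (∫ η, V μ s η 0 (K + L) ^ 2 ∂(law μ) + ((K : ℝ) ^ 2 + ∫ η, V μ s η b L ^ 2 ∂(law μ))) := by
        rw [integral_const_mul]
        congr 1
        have j1 := integral_add hi1 ((integrable_const (μ := law μ) ((K : ℝ) ^ 2)).add hi2)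
        have j3 := integral_add (integrable_const (μ := law μ) ((K : ℝ) ^ 2)) hi2
        have j4 : ∫ _η : Env, (K : ℝ) ^ 2 ∂(law μ) = (K : ℝ) ^ 2 := by simp
        simp only [Pi.add_apply] at j1 j3
        rw [j1, j3, j4]
    _ ≤ 3 * (2 * B1 + 1) * ((K : ℝ) + L + 1) ^ 4 := by
        push_cast at hT0
        have hkK : ((L : ℝ) + 1) ^ 4 ≤ ((K : ℝ) + L + 1) ^ 4 := pow_le_pow_left₀ (by positivity) (by linarith) 4
        have h2K : (K : ℝ) ^ 2 ≤ ((K : ℝ) + L + 1) ^ 4 := by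
          have h1 : (K : ℝ) ^ 2 ≤ ((K : ℝ) + L + 1) ^ 2 := pow_le_pow_left₀ (by positivity) (by linarith) 2
          exact h1.trans (pow_le_pow_right₀ (by linarith) (by norm_num))
        have i2 := hT1.trans (mul_le_mul_of_nonneg_left hkK hB1.le)
        linarith [show 3 * (2 * B1 + 1) * ((K : ℝ) + L + 1) ^ 4 =
          3 * (B1 * ((K : ℝ) + L + 1) ^ 4 + (((K : ℝ) + L + 1) ^ 4 + B1 * ((K : ℝ) + L + 1) ^ 4)) by ring]

omit [IsProbabilityMeasure μ] in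
/-- The polynomial size of the second moments. -/
theorem size84 {p B : ℝ} {K L : ℕ} (hK : 1 ≤ K) (hB : 0 ≤ B) (hL : (L : ℝ) ≤ (K : ℝ) ^ p) :
    B * ((K : ℝ) + L + 1) ^ 4 ≤ (4 * Real.sqrt B * ((K : ℝ) + 1) ^ (2 * (⌈p⌉₊ + 1))) ^ 2 := by
  have hK1 : (1 : ℝ) ≤ K := by exact_mod_cast hK
  obtain ⟨q, hq⟩ : ∃ q : ℕ, q = ⌈p⌉₊ := ⟨_, rfl⟩
  rw [← hq]
  have h1 : (L : ℝ) ≤ ((K : ℝ) + 1) ^ q := by
    refine hL.trans ?_
    calc (K : ℝ) ^ p ≤ (K : ℝ) ^ (q : ℝ) := Real.rpow_le_rpow_of_exponent_le hK1 (by rw [hq]; exact Nat.le_ceil p)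
      _ = (K : ℝ) ^ q := Real.rpow_natCast _ _
      _ ≤ ((K : ℝ) + 1) ^ q := pow_le_pow_left₀ (by linarith) (by linarith) q
  have h2 : (K : ℝ) + L + 1 ≤ 2 * ((K : ℝ) + 1) ^ (q + 1) := by
    have h3 : (K : ℝ) + 1 ≤ ((K : ℝ) + 1) ^ (q + 1) := by
      calc (K : ℝ) + 1 = ((K : ℝ) + 1) ^ 1 := (pow_one _).symm
        _ ≤ _ := pow_le_pow_right₀ (by linarith) (by omega)
    have h4 : ((K : ℝ) + 1) ^ q ≤ ((K : ℝ) + 1) ^ (q + 1) := pow_le_pow_right₀ (by linarith) (by omega)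
    linarith
  have h5 : ((K : ℝ) + L + 1) ^ 4 ≤ (2 * ((K : ℝ) + 1) ^ (q + 1)) ^ 4 := pow_le_pow_left₀ (by positivity) h2 4
  have h6 := Real.sq_sqrt hB
  calc B * ((K : ℝ) + L + 1) ^ 4 ≤ B * (2 * ((K : ℝ) + 1) ^ (q + 1)) ^ 4 := mul_le_mul_of_nonneg_left h5 hB
    _ = Real.sqrt B ^ 2 * (2 * ((K : ℝ) + 1) ^ (q + 1)) ^ 4 := by rw [h6]
    _ = _ := by
      have e : ((K : ℝ) + 1) ^ (2 * (q + 1)) = (((K : ℝ) + 1) ^ (q + 1)) ^ 2 := by
        rw [← pow_mul, mul_comm]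
      rw [e]
      ring

omit [IsProbabilityMeasure μ] in
theorem sqrt_exp84 (x : ℝ) : Real.sqrt (Real.exp (-x)) = Real.exp (-(1 / 2 * x)) := by
  rw [Real.sqrt_eq_iff_mul_self_eq (Real.exp_pos _).le (Real.exp_pos _).le, ← Real.exp_add]
  congr 1
  ring

omit [IsProbabilityMeasure μ] in
/-- The sites outside the window are negligible. -/
theorem log_win84 {E Q R x : ℝ} (hx : Real.exp (-x) ≤ 1 / 9) (hQ : 0 < Q) (hsum : Real.exp E ≤ Q + R)
    (hR : R ≤ Real.exp (-x) * Real.exp E) : E - Real.log Q ≤ 1 / 2 := by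
  have hE := Real.exp_pos E
  have l7 : 8 / 9 * Real.exp E ≤ Q := by
    have := mul_le_mul_of_nonneg_right hx hE.le
    linarith
  have l8 : Real.exp (E - 1 / 2) ≤ 2 / 3 * Real.exp E := by
    have l9 : Real.exp (E - 1 / 2) * Real.exp (1 / 2) = Real.exp E := by
      rw [← Real.exp_add]
      congr 1
      ring
    have l10 := Real.add_one_le_exp (1 / 2 : ℝ)
    have l11 := Real.exp_pos (E - 1 / 2)
    nlinarith
  have l12 := Real.log_le_log (Real.exp_pos _) (l8.trans ((mul_le_mul_of_nonneg_right (by norm_num) hE.le).trans l7))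
  rw [Real.log_exp] at l12
  linarith

/-- **The two bounds of the composite free energy.** -/
theorem truncC84 (h : In μ s c C n₀) (hL : LB84 μ s) (hU : UB84 μ s) (hF : FUT84 μ s) : ∀ ε : ℝ, 0 < ε → ∀ p : ℝ, ∃ κ : ℝ,
    0 < κ ∧ ∃ K₀ : ℕ, ∀ K : ℕ, K₀ ≤ K → ∀ L : ℕ, K ≤ L → (L : ℝ) ≤ (K : ℝ) ^ p →
    ∀ m k : ℕ, 1 ≤ m → m + k = K → ∀ t : ℝ, |t| ≤ 1 → |t| * EE μ s K ≤ (K : ℝ) ^ κ → ∀ A : Finset ℤ, A ⊆ Icc (0 : ℤ) m →
    (∀ y : ℤ, 0 ≤ y → y ≤ m → |(y : ℝ) - sl μ s * m| ≤ (K : ℝ) ^ ε * wd' μ s m → y ∈ A) →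
    ∫ η, TG μ s t K L η 0 ∂(law μ) - ∫ η, Real.log (QV μ s t η 0 m k L A) ∂(law μ) ≤ 1 ∧
    ∫ η, TG μ s t K L η 0 ∂(law μ) ≤ ∫ η, V μ s η 0 L ∂(law μ) + (K : ℝ) ^ ε * EE μ s K + 1 := by
  intro ε hε p
  obtain ⟨κ, c', hκ, hc', K₀, hloc⟩ := comp84 h hL hU hF ε hε p
  obtain ⟨B1, hB1, hD2⟩ := sqD84 h
  obtain ⟨B2, hB2, hF2⟩ := sqF84 h
  have hs0 := h.sl_pos
  have hs1 := h.sl_lt
  obtain ⟨B, hB⟩ : ∃ B : ℝ, B = B1 + B2 := ⟨_, rfl⟩
  have hB0 : 0 < B := by rw [hB]; positivity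
  have ev1 := ev_pow94 (2 * (⌈p⌉₊ + 1)) (A := 4 * Real.sqrt B) (a := 1 / 2) (s := c') (c' := c' / 2) (by positivity)
    (by norm_num) (by linarith) hc'
  have ev2 := ev_pow94 0 (A := 1) (a := 1) (s := c') (c' := c' / 2) (by norm_num) (by norm_num) (by linarith) hc'
  have ev3 := ev84 2 (show 0 < c' / 2 by positivity)
  obtain ⟨K₁, hK₁⟩ := eventually_atTop.1 (ev1.and (ev2.and (ev3.and (eventually_ge_atTop 1))))
  refine ⟨κ, hκ, max K₀ K₁, fun K hK L hKL hLp m k hm hmk t ht htK A hA hAm => ?_⟩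
  have g1 : K₀ ≤ K := (le_max_left _ _).trans hK
  obtain ⟨h1, h2, h3, h4⟩ := hK₁ K ((le_max_right _ _).trans hK)
  rw [pow_zero, one_mul, one_mul, one_mul] at h2
  have hlc := hloc K g1 L hKL hLp m k hm hmk t htK
  have hsz1 := (mul_le_mul_of_nonneg_right (show B1 ≤ B by rw [hB]; linarith) (show 0 ≤ ((K : ℝ) + L + 1) ^ 4 by positivity)).trans
    (size84 h4 hB0.le hLp)
  have hsz2 := (mul_le_mul_of_nonneg_right (show B2 ≤ B by rw [hB]; linarith) (show 0 ≤ ((K : ℝ) + L + 1) ^ 4 by positivity)).trans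
    (size84 h4 hB0.le hLp)
  obtain ⟨M, hM⟩ : ∃ M : ℝ, M = 4 * Real.sqrt B * ((K : ℝ) + 1) ^ (2 * (⌈p⌉₊ + 1)) := ⟨_, rfl⟩
  rw [← hM] at hsz1 hsz2
  have hM0 : 0 ≤ M := by rw [hM]; positivity
  obtain ⟨x, hx⟩ : ∃ x : ℝ, x = (K : ℝ) ^ c' := ⟨_, rfl⟩
  rw [← hx] at h1 h2 hlc
  have hsmall : Real.exp (-(K : ℝ) ^ (c' / 2)) ≤ 1 / 3 := by
    have h5 : Real.exp (-(K : ℝ) ^ (c' / 2)) ≤ Real.exp (-2) := Real.exp_le_exp.2 (by linarith)
    have h6 : (3 : ℝ) ≤ Real.exp 2 := by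
      have := Real.add_one_le_exp (2 : ℝ)
      linarith
    have h7 : Real.exp (-2) * Real.exp 2 = 1 := by rw [← Real.exp_add]; norm_num
    have h8 := Real.exp_pos (-2)
    nlinarith
  have hg : Real.exp (-x) ≤ 1 / 9 := by linarith
  have hMx : M * Real.exp (-(1 / 2 * x)) ≤ 1 / 2 := by
    have e : M * Real.exp (-(1 / 2 * x)) = ((K : ℝ) + 1) ^ (2 * (⌈p⌉₊ + 1)) * (4 * Real.sqrt B * Real.exp (-(1 / 2 * x))) := by
      rw [hM]
      ring
    rw [e]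
    linarith
  -- the site of the middle
  have hmdA : md μ s m ∈ A := by
    refine hAm _ (h.md_nonneg m) (h.md_le_nat m) ((md_abs m).trans ?_)
    have hK1R : (1 : ℝ) ≤ K := by exact_mod_cast h4
    have : 1 ≤ (K : ℝ) ^ ε := Real.one_le_rpow hK1R hε.le
    rw [wd'_eq' h hm]
    exact one_le_mul_of_one_le_of_one_le this (by linarith [wd_two h hm])
  have hS1 : Sub fun η : Env => TG μ s t K L η 0 := Sub_TG (h := t) hs0.le hs1.le K L 0
  constructor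
  · have hS2 : Sub fun η : Env => Real.log (QV μ s t η 0 m k L A) := Sub_logQV (h := t) hs0.le hs1.le 0 m k L hA hmdA
    have hS : Sub fun η : Env => TG μ s t K L η 0 - Real.log (QV μ s t η 0 m k L A) := hS1.sub hS2
    rw [← integral_sub (hS1.integrable h.em) (hS2.integrable h.em)]
    have key := int_le_of_bad (P := law μ) (D := fun η : Env => TG μ s t K L η 0 - Real.log (QV μ s t η 0 m k L A)) hS.1
      (hS.integrable h.em) (hS.sq_integrable h.em) (A := 1 / 2) (δ := Real.exp (-x)) (M := M)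
      (by norm_num) hM0 ((hD2 K L m k hmk t ht A hA hmdA).trans hsz1) ?_
    · refine key.trans ?_
      rw [sqrt_exp84]
      linarith
    · refine (measureReal_mono fun η hη => ?_).trans hlc
      have hη' : 1 / 2 < TG μ s t K L η 0 - Real.log (QV μ s t η 0 m k L A) := hη
      intro hgood
      have l2 : Real.exp (TG μ s t K L η 0) ≤ QV μ s t η 0 m k L A + QV μ s t η 0 m k L (bd μ s K ε m) := by
        have l3 := QV_full (μ := μ) (s := s) (h := t) η 0 m k L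
        rw [hmk] at l3
        rw [← l3]
        classical
        have l4 := QV_split (μ := μ) (s := s) (h := t) η 0 m k L (fun y => y ∈ A) (Icc (0 : ℤ) m)
        have l5 : QV μ s t η 0 m k L ((Icc (0 : ℤ) m).filter fun y => y ∈ A) ≤ QV μ s t η 0 m k L A :=
          QV_mono η 0 m k L fun y hy => (mem_filter.1 hy).2
        have l6 : QV μ s t η 0 m k L ((Icc (0 : ℤ) m).filter fun y => ¬ y ∈ A) ≤ QV μ s t η 0 m k L (bd μ s K ε m) := by
          refine QV_mono η 0 m k L fun y hy => ?_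
          rw [mem_filter, mem_Icc] at hy
          rw [mem_bd]
          exact ⟨hy.1, fun hc => hy.2 (hAm y hy.1.1 hy.1.2 hc)⟩
        linarith
      have l3 := log_win84 hg (logQV (μ := μ) (s := s) (h := t) η 0 m k L hA hmdA).1 l2 hgood.1
      linarith
  · -- the upper bound
    have hSV : Sub fun η : Env => V μ s η ((K : ℤ), md μ s K) L := Sub_V (μ := μ) (s := s) _ L
    have hS : Sub fun η : Env => TG μ s t K L η 0 - V μ s η ((K : ℤ), md μ s K) L := hS1.sub hSV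
    have e0 : ∫ η, V μ s η ((K : ℤ), md μ s K) L ∂(law μ) = ∫ η, V μ s η 0 L ∂(law μ) := by
      have h1 := Pool.Agent.W_7d29a1_f21.mp_integral (mp_sh (μ := μ) ((K : ℤ), md μ s K)) (F := fun η : Env => V μ s η 0 L)
        (measurable_V (μ := μ) (s := s) 0 L).aestronglyMeasurable
      rw [← h1]
      refine integral_congr_ae (Eventually.of_forall fun η => ?_)
      show V μ s η ((K : ℤ), md μ s K) L = V μ s (sh ((K : ℤ), md μ s K) η) 0 L
      rw [V_sh, zero_add]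
    have hEK := one_le_EE (μ := μ) (s := s) K
    have key := int_le_of_bad (P := law μ) (D := fun η : Env => TG μ s t K L η 0 - V μ s η ((K : ℤ), md μ s K) L) hS.1
      (hS.integrable h.em) (hS.sq_integrable h.em) (A := (K : ℝ) ^ ε * EE μ s K) (δ := Real.exp (-x)) (M := M)
      (by positivity) hM0 ((hF2 K L t ht _).trans hsz2) ?_
    · rw [integral_sub (hS1.integrable h.em) (hSV.integrable h.em), e0, sqrt_exp84] at key
      linarith
    · refine (measureReal_mono fun η hη => ?_).trans hlc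
      have hη' : (K : ℝ) ^ ε * EE μ s K < TG μ s t K L η 0 - V μ s η ((K : ℤ), md μ s K) L := hη
      intro hgood
      linarith [hgood.2]

end

end Pool.Agent.W_7d29a1_C1.Win84
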