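import Pool.Agent.W_7d29a1_C1.WinH84
import Pool.Agent.W_7d29a1_C1.LML8

/-!
[C1] HYBRIDS, CLOSURE (C), composite horizon (helper84): **`wnl84`: the window of the hybrids with the composite horizon** (the predicate
`WNL8` of helper8), for all `M ≤ N` and `N ^ 3 ≤ L ≤ 2 N ^ 3`.
-/

set_option autoImplicit false

namespace Pool.Agent.W_7d29a1_C1.Win84

open MeasureTheory ProbabilityTheory Filter Topology Finset
open Pool.Agent.W_7d29a1_F Pool.Agent.W_7d29a1_X Pool.Agent.W_7d29a1_h4g Pool.Agent.W_7d29a1_H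
open Pool.Agent.W_7d29a1_HS (In wd md md_abs wd_ge_one)
open Pool.Agent.W_7d29a1_L (T kap exp_T exp_T_add)
open Pool.Agent.W_7d29a1_HZ (gp P1 NSp ns PBox pbox wd' EE' EE'_pow wd'_pow)
open Pool.Agent.W_7d29a1_HZ.Z21 (ev_pow94)
open Pool.Agent.W_7d29a1_Z3 (sum_abs_sq_le int_le_of_bad)
open Pool.Agent.W_7d29a1_C1.H8 (TL8 WF8 FL8 WNL8)
open scoped ENNReal

noncomputable section

variable {μ : Measure ℝ} {s : ℝ} [IsProbabilityMeasure μ] {c C : ℝ} {n₀ : ℕ}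

/-- The mean cost of a displacement in a cone which is larger than the width. -/
theorem costC84 (h : In μ s c C n₀) : ∀ ε : ℝ, 0 < ε → ∃ δ : ℝ, 0 < δ ∧ ∃ n₁ : ℕ, ∀ n : ℕ, n₁ ≤ n → ∀ y : ℤ, 0 ≤ y → y ≤ n →
    |(y : ℝ) - sl μ s * n| ≤ (n : ℝ) ^ δ * wd μ s n → ∫ η, X μ s η 0 n y ∂(law μ) ≤ (n : ℝ) ^ ε * EE μ s n + 1 := by
  intro ε hε
  obtain ⟨δ, c', hδ, hc', L₀, hbox⟩ := pbox h ε hε
  obtain ⟨B, hB, hX2⟩ := Pool.Agent.W_7d29a1_HZ.Z3.X_sq_le h.em s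
  have ev1 := ev_pow94 2 (A := Real.sqrt B) (a := 1 / 2) (s := c') (c' := c' / 2) (by positivity) (by norm_num) (by linarith only [hc']) hc'
  obtain ⟨K₁, hK₁⟩ := eventually_atTop.1 (ev1.and (eventually_ge_atTop 1))
  refine ⟨δ, hδ, max L₀ K₁, fun n hn y h0 h1 hy => ?_⟩
  have g1 : L₀ ≤ n := (le_max_left _ _).trans hn
  obtain ⟨h2, h3⟩ := hK₁ n ((le_max_right _ _).trans hn)
  have hS := Sub_X (μ := μ) (s := s) 0 h0 h1
  have hE := one_le_EE (μ := μ) (s := s) n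
  have hnR : (1 : ℝ) ≤ n := by exact_mod_cast h3
  have key := int_le_of_bad (P := law μ) (D := fun η : Env => X μ s η 0 n y) hS.1
    (hS.integrable h.em) (hS.sq_integrable h.em) (A := (n : ℝ) ^ ε * EE μ s n) (δ := Real.exp (-(n : ℝ) ^ c'))
    (M := Real.sqrt B * ((n : ℝ) + 1) ^ 2) (by positivity) (by positivity) ?_ ?_
  · refine key.trans ?_
    have h5 : Real.sqrt (Real.exp (-(n : ℝ) ^ c')) = Real.exp (-(1 / 2 * (n : ℝ) ^ c')) := by
      rw [Real.sqrt_eq_iff_mul_self_eq (Real.exp_pos _).le (Real.exp_pos _).le, ← Real.exp_add]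
      congr 1
      ring
    rw [h5]
    have h6 : Real.sqrt B * ((n : ℝ) + 1) ^ 2 * Real.exp (-(1 / 2 * (n : ℝ) ^ c')) =
        ((n : ℝ) + 1) ^ 2 * (Real.sqrt B * Real.exp (-(1 / 2 * (n : ℝ) ^ c'))) := by ring
    have h7 : Real.exp (-(n : ℝ) ^ (c' / 2)) ≤ 1 := by
      rw [Real.exp_le_one_iff]
      have : 0 ≤ (n : ℝ) ^ (c' / 2) := by positivity
      linarith only [this]
    rw [h6]
    linarith only [h7, h2]
  · refine (hX2 n y h0 h1).trans (le_of_eq ?_)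
    have := Real.sq_sqrt hB.le
    calc B * ((n : ℝ) + 1) ^ 4 = Real.sqrt B ^ 2 * ((n : ℝ) + 1) ^ 4 := by rw [this]
      _ = _ := by ring
  · have b1 : (law μ).real {η | ¬ PBox μ s n δ ε η} ≤ Real.exp (-(n : ℝ) ^ c') :=
      ENNReal.toReal_le_of_le_ofReal (Real.exp_pos _).le (hbox n g1)
    refine (measureReal_mono fun η hη => ?_).trans b1
    intro hgood
    have hη' : (n : ℝ) ^ ε * EE μ s n < X μ s η 0 n y := hη
    have q5 := (hgood 0 n (by omega) 0 (by simp) y h0 h1).2.2 (by rw [wd'_eq' h h3]; exact hy)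
    rw [EE'_eq] at q5
    have q6 : W μ s η (((0 : ℕ) : ℤ), 0) n y = W μ s η 0 n y := by
      congr 1
    rw [q6] at q5
    have q7 := Real.log_le_log (Real.exp_pos _) q5
    rw [Real.log_exp] at q7
    unfold X at hη'
    linarith only [q7, hη']

/-- The mean cost of the middle site, all horizons. -/
theorem X_md84 (h : In μ s c C n₀) : ∃ C' : ℝ, 1 ≤ C' ∧ ∀ M : ℕ, ∫ η, X μ s η 0 M (md μ s M) ∂(law μ) ≤ C' * EE μ s M := by
  obtain ⟨B, hB, hX2⟩ := Pool.Agent.W_7d29a1_HZ.Z3.X_sq_le h.em s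
  have hC := h.C1
  have hB4 : 0 ≤ B * ((n₀ : ℝ) + 2) ^ 4 := by positivity
  refine ⟨C + 1 + B * ((n₀ : ℝ) + 2) ^ 4, by linarith only [hB4, hC], fun M => ?_⟩
  have hE := one_le_EE (μ := μ) (s := s) M
  rcases le_or_gt (max n₀ 1) M with h1 | h1
  · have g1 : n₀ ≤ M := (le_max_left _ _).trans h1
    have g2 : 1 ≤ M := (le_max_right _ _).trans h1
    have h4 : ep μ s M (md μ s M) ≤ C * EE μ s M := by
      refine h.inn M g1 M _ (by omega) (h.md_nonneg M) (h.md_le_nat M) ((md_abs M).trans ?_)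
      have := h.c0
      have hv : 0 ≤ vA 1 μ s M := (h.vA_pos g2).le
      have : 0 ≤ c * vA 1 μ s M * M := by positivity
      linarith only [this]
    have hS := Sub_X (μ := μ) (s := s) 0 (h.md_nonneg M) (h.md_le_nat M)
    have h5 : ∫ η, X μ s η 0 M (md μ s M) ∂(law μ) ≤ ep μ s M (md μ s M) := by
      unfold ep
      exact integral_mono (hS.integrable h.em) ((hS.integrable h.em).sup (integrable_const 0)) fun η => le_max_left _ _
    refine (h5.trans h4).trans (mul_le_mul_of_nonneg_right (by linarith only [hB4]) (by linarith only [hE]))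
  · have h2 := hX2 M (md μ s M) (h.md_nonneg M) (h.md_le_nat M)
    have hS := Sub_X (μ := μ) (s := s) 0 (h.md_nonneg M) (h.md_le_nat M)
    have h3 : ∫ η, X μ s η 0 M (md μ s M) ∂(law μ) ≤ ∫ η, (1 + X μ s η 0 M (md μ s M) ^ 2) ∂(law μ) :=
      integral_mono (hS.integrable h.em) ((integrable_const _).add (hS.sq_integrable h.em)) fun η => by
        show X μ s η 0 M (md μ s M) ≤ 1 + X μ s η 0 M (md μ s M) ^ 2
        linarith only [sq_nonneg (X μ s η 0 M (md μ s M) - 1), sq_nonneg (X μ s η 0 M (md μ s M))]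
    have h4 : ∫ η, (1 + X μ s η 0 M (md μ s M) ^ 2) ∂(law μ) = 1 + ∫ η, X μ s η 0 M (md μ s M) ^ 2 ∂(law μ) := by
      rw [integral_add (integrable_const _) (hS.sq_integrable h.em)]
      simp
    have hM : (M : ℝ) ≤ (n₀ : ℝ) + 1 := by
      have : M ≤ n₀ + 1 := by
        rcases le_total n₀ 1 with h5 | h5
        · rw [max_eq_right h5] at h1
          omega
        · rw [max_eq_left h5] at h1
          omega
      exact_mod_cast this
    have h5 : ((M : ℝ) + 1) ^ 4 ≤ ((n₀ : ℝ) + 2) ^ 4 := pow_le_pow_left₀ (by positivity) (by linarith only [hM]) 4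
    have h6 := mul_le_mul_of_nonneg_left h5 hB.le
    have h7 : (C + 1 + B * ((n₀ : ℝ) + 2) ^ 4) * 1 ≤ (C + 1 + B * ((n₀ : ℝ) + 2) ^ 4) * EE μ s M :=
      mul_le_mul_of_nonneg_left hE (by linarith only [hB4, hC])
    linarith only [h7, h6, h4, h3, h2, hC]

/-- The composite free energy from below. -/
theorem FL_low84 (h : In μ s c C n₀) : ∃ C' : ℝ, 1 ≤ C' ∧ ∀ (M L : ℕ) (t : ℝ),
    ∫ η, V μ s η 0 L ∂(law μ) - |t| - C' * EE μ s M ≤ ∫ η, TG μ s t M L η 0 ∂(law μ) := by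
  obtain ⟨C', hC', hX⟩ := X_md84 h
  have hs0 := h.sl_pos
  have hs1 := h.sl_lt
  refine ⟨C', hC', fun M L t => ?_⟩
  obtain ⟨b, hb⟩ : ∃ b : Pt, b = ((0 : Pt).1 + (M : ℤ), (0 : Pt).2 + md μ s M) := ⟨_, rfl⟩
  have hSX := Sub_X (μ := μ) (s := s) 0 (h.md_nonneg M) (h.md_le_nat M)
  have hSV : Sub fun η : Env => V μ s η b L := Sub_V (μ := μ) (s := s) _ L
  have e0 : ∫ η, V μ s η b L ∂(law μ) = ∫ η, V μ s η 0 L ∂(law μ) := by
    have h1 := Pool.Agent.W_7d29a1_f21.mp_integral (mp_sh (μ := μ) b) (F := fun η : Env => V μ s η 0 L)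
      (measurable_V (μ := μ) (s := s) 0 L).aestronglyMeasurable
    rw [← h1]
    refine integral_congr_ae (Eventually.of_forall fun η => ?_)
    show V μ s η b L = V μ s (sh b η) 0 L
    rw [V_sh, zero_add]
  have h1 : ∫ η, (V μ s η b L - X μ s η 0 M (md μ s M) - |t|) ∂(law μ) ≤ ∫ η, TG μ s t M L η 0 ∂(law μ) := by
    refine integral_mono (((hSV.integrable h.em).sub (hSX.integrable h.em)).sub (integrable_const _))
      ((Sub_TG (h := t) hs0.le hs1.le M L 0).integrable h.em) fun η => ?_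
    have h2 := TG_ge (μ := μ) (s := s) (h := t) η 0 M L (h.md_nonneg M) (h.md_le_nat M)
    rw [← hb] at h2
    have h3 : |t * ((md μ s M : ℝ) - sl μ s * M)| ≤ |t| * 1 := by
      rw [abs_mul]
      exact mul_le_mul_of_nonneg_left (md_abs M) (abs_nonneg t)
    have h4 := (abs_le.1 h3).1
    show V μ s η b L - X μ s η 0 M (md μ s M) - |t| ≤ TG μ s t M L η 0
    linarith only [h4, h2]
  have h2 : ∫ η, (V μ s η b L - X μ s η 0 M (md μ s M) - |t|) ∂(law μ) =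
      ∫ η, V μ s η b L ∂(law μ) - ∫ η, X μ s η 0 M (md μ s M) ∂(law μ) - |t| := by
    have j1 := integral_sub ((hSV.integrable h.em).sub (hSX.integrable h.em)) (integrable_const (μ := law μ) (|t|))
    have j2 := integral_sub (hSV.integrable h.em) (hSX.integrable h.em)
    have j3 : ∫ _η : Env, |t| ∂(law μ) = |t| := by simp
    simp only [Pi.sub_apply] at j1 j2
    rw [j1, j2, j3]
  rw [h2, e0] at h1
  linarith only [h1, hX M]

omit [IsProbabilityMeasure μ] in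
theorem WF_eq (t : ℝ) (n M L : ℕ) (y₀ : ℤ) (m : ℕ) (η : Env) :
    WF8 μ s (sl μ s) t (TL8 μ s (sl μ s) t M L) n y₀ m η = Real.log (QV μ s t η 0 n M L (Icc y₀ (y₀ + m))) := by
  unfold WF8 QV
  congr 1
  refine sum_nbij' (fun j : ℕ => y₀ + (j : ℤ)) (fun y : ℤ => (y - y₀).toNat) ?_ ?_ ?_ ?_ ?_
  · intro j hj
    rw [mem_range] at hj
    rw [mem_Icc]
    constructor <;> omega
  · intro y hy
    rw [mem_Icc] at hy
    rw [mem_range]
    omega
  · intro j _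
    simp
  · intro y hy
    rw [mem_Icc] at hy
    show y₀ + ((y - y₀).toNat : ℤ) = y
    omega
  · intro j _
    have e : (((0 : Pt).1 + (n : ℤ), (0 : Pt).2 + (y₀ + (j : ℤ))) : Pt) = ((n : ℤ), y₀ + (j : ℤ)) := by simp
    rw [e]
    rfl

set_option maxHeartbeats 1000000 in
/-- **THE WINDOW OF THE HYBRIDS**, composite horizon (`WNL8` of helper8). -/
theorem wnl84 (h : In μ s c C n₀) (hL : LB84 μ s) (hU : UB84 μ s) (hF : FUT84 μ s) : WNL8 μ s := by
  intro c₁ hc₁ δ hδ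
  have hc0 := h.c0
  have hC1 := h.C1
  obtain ⟨δ₁, hδ₁, nX, hcost⟩ := costC84 h (δ / 4) (by positivity)
  obtain ⟨C', hC', hlow⟩ := FL_low84 h
  obtain ⟨a'', K3, ha'', ha''1, hK3, hw⟩ := wd'_pow h
  obtain ⟨a', K2, ha', ha'1, hK2, hE⟩ := EE'_pow h
  obtain ⟨δ₀, hδ₀d⟩ : ∃ δ₀ : ℝ, δ₀ = min (min δ a'') δ₁ / 4 := ⟨_, rfl⟩
  have hmin0 : 0 < min (min δ a'') δ₁ := by positivity
  have hδ₀ : 0 < δ₀ := by rw [hδ₀d]; positivity
  have hδ₀1 : δ₀ ≤ δ / 4 := by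
    have := (min_le_left (min δ a'') δ₁).trans (min_le_left _ _)
    rw [hδ₀d]; linarith only [this]
  have hδ₀2 : δ₀ ≤ a'' / 4 := by
    have := (min_le_left (min δ a'') δ₁).trans (min_le_right _ _)
    rw [hδ₀d]; linarith only [this]
  have hδ₀3 : δ₀ ≤ δ₁ := by
    have := min_le_right (min δ a'') δ₁
    rw [hδ₀d]; linarith only [this, hδ₀, hδ₀d]
  obtain ⟨ε, hεd⟩ : ∃ ε : ℝ, ε = δ₀ / (2 + c₁) := ⟨_, rfl⟩
  have hε : 0 < ε := by rw [hεd]; positivity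
  obtain ⟨κ₀, hκ₀0, KT, htr⟩ := truncC84 h hL hU hF ε hε (4 + 3 * c₁)
  obtain ⟨κ, hκd⟩ : ∃ κ : ℝ, κ = min δ (κ₀ / (2 * (1 + c₁))) := ⟨_, rfl⟩
  have hκ0 : 0 < κ := by rw [hκd]; positivity
  have hκ1 : κ * (1 + c₁) ≤ κ₀ / 2 := by
    have h1 : κ ≤ κ₀ / (2 * (1 + c₁)) := by rw [hκd]; exact min_le_right _ _
    calc κ * (1 + c₁) ≤ κ₀ / (2 * (1 + c₁)) * (1 + c₁) := mul_le_mul_of_nonneg_right h1 (by linarith only [hc₁])
      _ = κ₀ / 2 := by field_simp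
  refine ⟨κ, hκ0, by rw [hκd]; exact min_le_left _ _, ?_⟩
  have hsl0 := h.sl_pos
  have hsl1 := h.sl_lt
  obtain ⟨σ₀, hσ₀⟩ : ∃ σ₀ : ℝ, σ₀ = min (sl μ s) (1 - sl μ s) := ⟨_, rfl⟩
  have hσ₀0 : 0 < σ₀ := by rw [hσ₀]; exact lt_min hsl0 (by linarith only [hsl1])
  obtain ⟨nL, hLn⟩ := hL (δ / 4) (by positivity)
  filter_upwards [eventually_ge_atTop (max (max nX KT) (max nL (max n₀ 2))),
    ev84 2 (show 0 < δ₀ by positivity), ev84 (2 * K2) (show 0 < κ₀ / 2 by positivity),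
    ev84 (K3 * wd' μ s 1 / σ₀ + 2) (show 0 < a'' / 4 by positivity),
    ev84 (2 * K2 + C' * K2 + C' * EE μ s 0 + 5) (show 0 < c₁ / 2 by positivity)] with n hn e1 e2 e3 e4
  have g1 : nX ≤ n := by omega
  have g2 : KT ≤ n := by omega
  have g4 : nL ≤ n := by omega
  have g5 : n₀ ≤ n := by omega
  have g6 : 2 ≤ n := by omega
  have g7 : 1 ≤ n := by omega
  have hn2 : (2 : ℝ) ≤ n := by exact_mod_cast g6
  have hn1 : (1 : ℝ) ≤ n := by linarith only [hn2]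
  have hn0 : (0 : ℝ) < n := by linarith only [hn2]
  have hEn := one_le_EE (μ := μ) (s := s) n
  have hwn := wd_two h g7
  -- the window
  obtain ⟨ω, hω⟩ : ∃ ω : ℝ, ω = (n : ℝ) ^ δ₀ * wd μ s n := ⟨_, rfl⟩
  have hω4 : 4 ≤ ω := by
    rw [hω]
    have h0 := mul_le_mul e1 hwn (by norm_num) (le_trans (by norm_num) e1)
    linarith only [h0]
  have hωn : ω ≤ σ₀ * n := by
    have h1 := (hw 1 n le_rfl g7).2.2
    rw [wd'_eq' h g7] at h1
    have h2 : ((n : ℝ) / ((1 : ℕ) : ℝ)) ^ (1 - a'') = (n : ℝ) ^ (1 - a'') := by simp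
    rw [h2] at h1
    have h3 : (n : ℝ) ^ δ₀ ≤ (n : ℝ) ^ (a'' / 4) := Real.rpow_le_rpow_of_exponent_le hn1 hδ₀2
    have hw1 : 0 ≤ wd' μ s 1 := zero_le_one.trans (le_max_left _ _)
    have h4 : K3 * wd' μ s 1 ≤ σ₀ * (n : ℝ) ^ (a'' / 4) := by
      have h5 : K3 * wd' μ s 1 / σ₀ ≤ (n : ℝ) ^ (a'' / 4) := by linarith only [e3]
      rw [div_le_iff₀ hσ₀0] at h5
      linarith only [h5]
    calc ω = (n : ℝ) ^ δ₀ * wd μ s n := hω
      _ ≤ (n : ℝ) ^ (a'' / 4) * (K3 * (n : ℝ) ^ (1 - a'') * wd' μ s 1) :=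
        mul_le_mul h3 h1 (by linarith only [hwn]) (by positivity)
      _ = (K3 * wd' μ s 1) * ((n : ℝ) ^ (a'' / 4) * (n : ℝ) ^ (1 - a'')) := by ring
      _ ≤ (σ₀ * (n : ℝ) ^ (a'' / 4)) * ((n : ℝ) ^ (a'' / 4) * (n : ℝ) ^ (1 - a'')) :=
        mul_le_mul_of_nonneg_right h4 (by positivity)
      _ = σ₀ * (n : ℝ) ^ (a'' / 4 + (a'' / 4 + (1 - a''))) := by
        rw [Real.rpow_add hn0, Real.rpow_add hn0]
        ring
      _ ≤ σ₀ * (n : ℝ) ^ (1 : ℝ) :=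
        mul_le_mul_of_nonneg_left (Real.rpow_le_rpow_of_exponent_le hn1 (by linarith only [hδ₀2, hδ₀])) hσ₀0.le
      _ = σ₀ * n := by rw [Real.rpow_one]
  have hσs : σ₀ * n ≤ sl μ s * n := mul_le_mul_of_nonneg_right (by rw [hσ₀]; exact min_le_left _ _) hn0.le
  have hσs2 : σ₀ * n ≤ (1 - sl μ s) * n := mul_le_mul_of_nonneg_right (by rw [hσ₀]; exact min_le_right _ _) hn0.le
  obtain ⟨y₀, hy₀⟩ : ∃ y₀ : ℤ, y₀ = ⌈sl μ s * n - ω⌉ := ⟨_, rfl⟩
  obtain ⟨y₁, hy₁⟩ : ∃ y₁ : ℤ, y₁ = ⌊sl μ s * n + ω⌋ := ⟨_, rfl⟩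
  have a1 : sl μ s * n - ω ≤ (y₀ : ℝ) := by rw [hy₀]; exact Int.le_ceil _
  have a2 : (y₀ : ℝ) < sl μ s * n - ω + 1 := by rw [hy₀]; exact Int.ceil_lt_add_one _
  have a3 : (y₁ : ℝ) ≤ sl μ s * n + ω := by rw [hy₁]; exact Int.floor_le _
  have a4 : sl μ s * n + ω < y₁ + 1 := by rw [hy₁]; exact Int.lt_floor_add_one _
  have b1 : (0 : ℝ) ≤ y₀ := by linarith only [a1, hσs, hωn]
  have b1' : 0 ≤ y₀ := by exact_mod_cast b1
  have b2 : (y₁ : ℝ) ≤ n := by linarith only [a3, hσs2, hωn]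
  have b2' : y₁ ≤ n := by exact_mod_cast b2
  have b3 : (y₀ : ℝ) + 1 ≤ y₁ := by linarith only [a4, a2, hω4]
  have b3' : y₀ + 1 ≤ y₁ := by exact_mod_cast b3
  obtain ⟨m, hm⟩ : ∃ m : ℕ, (m : ℤ) = y₁ - y₀ := ⟨(y₁ - y₀).toNat, by omega⟩
  have hym : y₀ + (m : ℤ) = y₁ := by omega
  have hmR : (m : ℝ) = y₁ - y₀ := by exact_mod_cast hm
  refine ⟨y₀, m, b1', by omega, by omega, ?_, ?_⟩
  · -- the width of the window
    have h1 : (m : ℝ) ≤ 2 * ω := by linarith only [hmR, a3, a1]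
    refine h1.trans ?_
    rw [hω, ← mul_assoc]
    refine mul_le_mul_of_nonneg_right ?_ (by linarith only [hwn])
    have h2 : 2 * (n : ℝ) ^ δ₀ ≤ (n : ℝ) ^ δ₀ * (n : ℝ) ^ δ₀ := mul_le_mul_of_nonneg_right e1 (by positivity)
    rw [← Real.rpow_add hn0] at h2
    exact h2.trans (Real.rpow_le_rpow_of_exponent_le hn1 (by linarith only [hδ₀1, hδ₀]))
  intro N hnN hNn L hNL hLN M hMN t ht1 ht2
  rw [hym]
  have hNR : (n : ℝ) ≤ N := by exact_mod_cast hnN
  have hMR : (M : ℝ) ≤ N := by exact_mod_cast hMN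
  obtain ⟨K, hK⟩ : ∃ K : ℕ, K = n + M := ⟨_, rfl⟩
  have hKR : (K : ℝ) = n + M := by rw [hK]; push_cast; ring
  have hnK : n ≤ K := by omega
  have hNK : N ≤ K ∨ K ≤ N := le_total _ _
  have hK2N : (K : ℝ) ≤ 2 * N := by rw [hKR]; linarith only [hMR, hNR]
  have hM0 : (0 : ℝ) ≤ M := Nat.cast_nonneg M
  have hK0 : (0 : ℝ) < K := by rw [hKR]; linarith only [hσs2, hσs, hωn, hω4]
  have hN0 : (0 : ℝ) < N := by linarith only [hNR, hσs2, hσs, hωn, hω4]
  have hK1R : (1 : ℝ) ≤ K := by rw [hKR]; linarith only [hσs2, hσs, hωn, hω4]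
  have hNK' : (n : ℝ) ≤ K := by rw [hKR]; linarith only []
  have hEK := one_le_EE (μ := μ) (s := s) K
  have hEN := one_le_EE (μ := μ) (s := s) N
  -- `N ≤ K ^ (1 + c₁)`, `K ≤ n ^ (2 + c₁)`
  have hKn : (K : ℝ) ≤ (n : ℝ) ^ (2 + c₁) := by
    calc (K : ℝ) ≤ 2 * N := hK2N
      _ ≤ n * (n : ℝ) ^ (1 + c₁) := mul_le_mul hn2 hNn hN0.le hn0.le
      _ = (n : ℝ) ^ (2 + c₁) := by
        have : (2 : ℝ) + c₁ = 1 + (1 + c₁) := by ring
        rw [this, Real.rpow_add hn0 1 (1 + c₁), Real.rpow_one]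
  -- the tilt
  have hEEK : EE μ s K ≤ 2 * K2 * EE μ s N := by
    rcases hNK with h1 | h1
    · have h2 := (hE N K (by omega) h1).2.2
      rw [EE'_eq, EE'_eq] at h2
      have h3 : Real.sqrt ((K : ℝ) / N) ≤ 2 := by
        rw [Real.sqrt_le_left (by norm_num), div_le_iff₀ hN0]
        linarith only [hKR, hMR, hNR]
      calc EE μ s K ≤ K2 * Real.sqrt ((K : ℝ) / N) * EE μ s N := h2
        _ ≤ K2 * 2 * EE μ s N := by gcongr
        _ = 2 * K2 * EE μ s N := by ring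
    · have h2 := (hE K N (by omega) h1).1
      rw [EE'_eq, EE'_eq] at h2
      have : 0 ≤ K2 * EE μ s N := by positivity
      linarith only [h2, hEK]
  have htK : |t| * EE μ s K ≤ (K : ℝ) ^ κ₀ := by
    have h1 : (N : ℝ) ^ κ ≤ (K : ℝ) ^ (κ₀ / 2) := by
      calc (N : ℝ) ^ κ ≤ ((n : ℝ) ^ (1 + c₁)) ^ κ := Real.rpow_le_rpow hN0.le hNn hκ0.le
        _ = (n : ℝ) ^ (κ * (1 + c₁)) := by rw [← Real.rpow_mul hn0.le]; congr 1; ring
        _ ≤ (K : ℝ) ^ (κ * (1 + c₁)) := Real.rpow_le_rpow hn0.le hNK' (by positivity)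
        _ ≤ (K : ℝ) ^ (κ₀ / 2) := Real.rpow_le_rpow_of_exponent_le hK1R hκ1
    have h2 : 2 * K2 ≤ (K : ℝ) ^ (κ₀ / 2) := e2.trans (Real.rpow_le_rpow hn0.le hNK' (by positivity))
    calc |t| * EE μ s K ≤ |t| * (2 * K2 * EE μ s N) := mul_le_mul_of_nonneg_left hEEK (abs_nonneg _)
      _ = 2 * K2 * (|t| * EE μ s N) := by ring
      _ ≤ 2 * K2 * (N : ℝ) ^ κ := mul_le_mul_of_nonneg_left ht2 (by linarith only [hK2])
      _ ≤ (K : ℝ) ^ (κ₀ / 2) * (K : ℝ) ^ (κ₀ / 2) := mul_le_mul h2 h1 (by positivity) (by positivity)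
      _ = (K : ℝ) ^ κ₀ := by rw [← Real.rpow_add hK0]; congr 1; ring
  -- the future
  have hN2 : 2 ≤ N := by omega
  have hKL : K ≤ L := by
    have h1 : K ≤ 2 * N := by omega
    have h2 : 2 * N ≤ N ^ 3 := by
      calc 2 * N ≤ N * N := Nat.mul_le_mul_right N hN2
        _ = N ^ 2 := by ring
        _ ≤ N ^ 3 := Nat.pow_le_pow_right (by omega) (by norm_num)
    omega
  have hLp : (L : ℝ) ≤ (K : ℝ) ^ (4 + 3 * c₁) := by
    have h1 : (L : ℝ) ≤ 2 * (N : ℝ) ^ 3 := by exact_mod_cast hLN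
    have h2 : (N : ℝ) ≤ (K : ℝ) ^ (1 + c₁) := hNn.trans (Real.rpow_le_rpow hn0.le hNK' (by linarith only [hc₁]))
    have h3 : (N : ℝ) ^ 3 ≤ ((K : ℝ) ^ (1 + c₁)) ^ 3 := pow_le_pow_left₀ hN0.le h2 3
    have h4 : ((K : ℝ) ^ (1 + c₁)) ^ 3 = (K : ℝ) ^ (3 + 3 * c₁) := by
      rw [← Real.rpow_natCast, ← Real.rpow_mul hK0.le]
      congr 1
      push_cast
      ring
    calc (L : ℝ) ≤ 2 * (N : ℝ) ^ 3 := h1
      _ ≤ K * (K : ℝ) ^ (3 + 3 * c₁) := by
        rw [← h4]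
        exact mul_le_mul (by linarith only [hKR, hσs2, hσs, hωn, hω4]) h3 (by positivity) hK0.le
      _ = (K : ℝ) ^ (4 + 3 * c₁) := by
        have : (4 : ℝ) + 3 * c₁ = 1 + (3 + 3 * c₁) := by ring
        rw [this, Real.rpow_add hK0 1 (3 + 3 * c₁), Real.rpow_one]
  have hnneg : (n : ℝ) ^ (-(2 * δ)) ≤ 1 := by
    calc (n : ℝ) ^ (-(2 * δ)) ≤ (n : ℝ) ^ (0 : ℝ) := Real.rpow_le_rpow_of_exponent_le hn1 (by linarith only [hδ₀1, hδ₀])
      _ = 1 := Real.rpow_zero _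
  have htabs : |t| ≤ 1 := by
    have h1 : |t| * 1 ≤ |t| * EE μ s n := mul_le_mul_of_nonneg_left hEn (abs_nonneg _)
    linarith only [h1, hnneg, ht1]
  -- the window as a set of sites
  have hA : Icc y₀ (y₀ + (m : ℤ)) ⊆ Icc (0 : ℤ) n := by
    intro y hy
    rw [mem_Icc] at hy ⊢
    constructor <;> omega
  have hAm : ∀ y : ℤ, 0 ≤ y → y ≤ n → |(y : ℝ) - sl μ s * n| ≤ (K : ℝ) ^ ε * wd' μ s n →
      y ∈ Icc y₀ (y₀ + (m : ℤ)) := by
    intro y _ _ hy
    have h1 : (K : ℝ) ^ ε ≤ (n : ℝ) ^ δ₀ := by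
      rw [hεd]
      calc (K : ℝ) ^ (δ₀ / (2 + c₁)) ≤ ((n : ℝ) ^ (2 + c₁)) ^ (δ₀ / (2 + c₁)) := Real.rpow_le_rpow hK0.le hKn (by positivity)
        _ = (n : ℝ) ^ δ₀ := by
          rw [← Real.rpow_mul hn0.le]
          congr 1
          field_simp
    have h2 : |(y : ℝ) - sl μ s * n| ≤ ω := by
      rw [hω]
      rw [wd'_eq' h g7] at hy
      exact hy.trans (mul_le_mul_of_nonneg_right h1 (by linarith only [hwn]))
    have h3 := abs_le.1 h2
    rw [mem_Icc, hym, hy₀, hy₁]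
    constructor
    · rw [Int.ceil_le]
      linarith only [h3]
    · rw [Int.le_floor]
      linarith only [h3]
  have hy₁A : y₁ ∈ Icc y₀ (y₀ + (m : ℤ)) := by
    rw [mem_Icc]
    constructor <;> omega
  have hWn : ∀ η, WF8 μ s (sl μ s) t (TL8 μ s (sl μ s) t M L) n y₀ m η = Real.log (QV μ s t η 0 n M L (Icc y₀ (y₀ + (m : ℤ)))) :=
    fun η => WF_eq t n M L y₀ m η
  simp only [hWn]
  have eFL : ∀ j : ℕ, FL8 μ s j L t = ∫ η, TG μ s t j L η 0 ∂(law μ) := fun j => rfl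
  rw [eFL, eFL, ← hK]
  have hboth := htr K (by omega) L hKL hLp n M g7 hK.symm t htabs htK _ hA hAm
  refine ⟨hboth.1, ?_⟩
  · -- the rough bound
    have hs0 := h.sl_pos
    have hs1 := h.sl_lt
    have hS2 : Sub fun η : Env => Real.log (QV μ s t η 0 n M L (Icc y₀ (y₀ + (m : ℤ)))) :=
      Sub_logQV (h := t) hs0.le hs1.le 0 n M L hA hy₁A
    have u1 : ∫ η, Real.log (QV μ s t η 0 n M L (Icc y₀ (y₀ + (m : ℤ)))) ∂(law μ) ≤ ∫ η, TG μ s t K L η 0 ∂(law μ) := by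
      refine integral_mono (hS2.integrable h.em) ((Sub_TG (h := t) hs0.le hs1.le K L 0).integrable h.em) fun η => ?_
      have := (logQV (μ := μ) (s := s) (h := t) η 0 n M L hA hy₁A).2.2
      rw [hK]
      exact this
    have u2 := hboth.2
    have u3 := hlow M L t
    have hy1n : |(y₁ : ℝ) - sl μ s * n| ≤ ω := by
      rw [abs_le]
      constructor <;> linarith only [a4, hω4, a3]
    have u4 := hcost n g1 y₁ (by omega) b2' (hy1n.trans (by
      rw [hω]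
      exact mul_le_mul_of_nonneg_right (Real.rpow_le_rpow_of_exponent_le hn1 hδ₀3) (by linarith only [hwn])))
    have u5 : |t * ((y₁ : ℝ) - sl μ s * n)| ≤ EE μ s n := by
      rw [abs_mul]
      have h1 := hLn n g4
      calc |t| * |(y₁ : ℝ) - sl μ s * n| ≤ |t| * ω := mul_le_mul_of_nonneg_left hy1n (abs_nonneg _)
        _ ≤ |t| * ((n : ℝ) ^ (δ / 4) * ((n : ℝ) ^ (δ / 4) * EE μ s n ^ 2)) := by
          refine mul_le_mul_of_nonneg_left ?_ (abs_nonneg _)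
          rw [hω]
          exact mul_le_mul (Real.rpow_le_rpow_of_exponent_le hn1 hδ₀1) h1 (by linarith only [hwn]) (by positivity)
        _ = (|t| * EE μ s n) * ((n : ℝ) ^ (δ / 4) * (n : ℝ) ^ (δ / 4)) * EE μ s n := by ring
        _ ≤ (n : ℝ) ^ (-(2 * δ)) * ((n : ℝ) ^ (δ / 4) * (n : ℝ) ^ (δ / 4)) * EE μ s n := by gcongr
        _ = (n : ℝ) ^ (-(2 * δ) + (δ / 4 + δ / 4)) * EE μ s n := by rw [Real.rpow_add hn0, Real.rpow_add hn0]
        _ ≤ 1 * EE μ s n := by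
          refine mul_le_mul_of_nonneg_right ?_ (by linarith only [hEn])
          calc (n : ℝ) ^ (-(2 * δ) + (δ / 4 + δ / 4)) ≤ (n : ℝ) ^ (0 : ℝ) :=
                Real.rpow_le_rpow_of_exponent_le hn1 (by linarith only [hδ₀1, hδ₀])
            _ = 1 := Real.rpow_zero _
        _ = EE μ s n := one_mul _
    have u6 := (abs_le.1 u5).1
    -- the units
    obtain ⟨b, hb⟩ : ∃ b : ℝ, b = (n : ℝ) ^ (c₁ / 2) := ⟨_, rfl⟩
    obtain ⟨d, hd⟩ : ∃ d : ℝ, d = (n : ℝ) ^ (δ / 4) := ⟨_, rfl⟩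
    rw [← hb] at e4
    rw [← hd] at u4
    have hb1 : 1 ≤ b := by rw [hb]; exact Real.one_le_rpow hn1 (by linarith only [hc₁])
    have hd1 : 1 ≤ d := by rw [hd]; exact Real.one_le_rpow hn1 (by linarith only [hδ₀1, hδ₀])
    have hbb : b * b = (n : ℝ) ^ c₁ := by
      rw [hb, ← Real.rpow_add hn0]
      congr 1
      ring
    have v1 : EE μ s K ≤ 2 * K2 * b * EE μ s n := by
      have h2 := (hE n K g7 hnK).2.2
      rw [EE'_eq, EE'_eq] at h2
      have h3 : Real.sqrt ((K : ℝ) / n) ≤ 2 * b := by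
        rw [Real.sqrt_le_left (by positivity), div_le_iff₀ hn0]
        have h4 : (n : ℝ) ^ (1 + c₁) = n * (b * b) := by rw [hbb, Real.rpow_add hn0, Real.rpow_one]
        rw [h4] at hNn
        have h5 : 0 ≤ (n : ℝ) * (b * b) := by positivity
        linarith only [hNn, hKR, hMR, hNR]
      calc EE μ s K ≤ K2 * Real.sqrt ((K : ℝ) / n) * EE μ s n := h2
        _ ≤ K2 * (2 * b) * EE μ s n := by gcongr
        _ = 2 * K2 * b * EE μ s n := by ring
    have hE00 := one_le_EE (μ := μ) (s := s) 0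
    have v2 : EE μ s M ≤ K2 * b * EE μ s n + EE μ s 0 := by
      have hbE : 0 ≤ K2 * b * EE μ s n := by positivity
      rcases Nat.eq_zero_or_pos M with h0 | h0
      · rw [h0]
        linarith only [v1, hEK]
      · rcases le_total n M with h1 | h1
        · have h2 := (hE n M g7 h1).2.2
          rw [EE'_eq, EE'_eq] at h2
          have h3 : Real.sqrt ((M : ℝ) / n) ≤ b := by
            rw [Real.sqrt_le_left (by positivity), div_le_iff₀ hn0]
            have h4 : (n : ℝ) ^ (1 + c₁) = n * (b * b) := by rw [hbb, Real.rpow_add hn0, Real.rpow_one]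
            rw [h4] at hNn
            linarith only [hNn, hMR]
          have h5 : K2 * Real.sqrt ((M : ℝ) / n) * EE μ s n ≤ K2 * b * EE μ s n := by gcongr
          linarith only [h5, h2, hE00]
        · have h2 := (hE M n h0 h1).1
          rw [EE'_eq, EE'_eq] at h2
          have h3 : K2 * EE μ s n ≤ K2 * b * EE μ s n := by
            have : K2 * 1 ≤ K2 * b := mul_le_mul_of_nonneg_left hb1 (by linarith only [hK2])
            exact mul_le_mul_of_nonneg_right (by linarith only [this]) (by linarith only [hEn])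
          linarith only [h3, h2, hE00]
    have v3 : (K : ℝ) ^ ε ≤ d := by
      calc (K : ℝ) ^ ε ≤ ((n : ℝ) ^ (2 + c₁)) ^ ε := Real.rpow_le_rpow hK0.le hKn hε.le
        _ = (n : ℝ) ^ ((2 + c₁) * ε) := by rw [← Real.rpow_mul hn0.le]
        _ ≤ (n : ℝ) ^ (δ / 4) := by
          refine Real.rpow_le_rpow_of_exponent_le hn1 ?_
          have : (2 + c₁) * ε = δ₀ := by rw [hεd]; field_simp
          linarith only [this, hδ₀1]
        _ = d := hd.symm
    have hEn0 : 0 < EE μ s n := by linarith only [hEn]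
    have w1 : (K : ℝ) ^ ε * EE μ s K ≤ 2 * K2 * (b * d * EE μ s n) := by
      calc (K : ℝ) ^ ε * EE μ s K ≤ d * (2 * K2 * b * EE μ s n) := mul_le_mul v3 v1 (by linarith only [hEK]) (by linarith only [hd1])
        _ = 2 * K2 * (b * d * EE μ s n) := by ring
    have hbd1 : EE μ s n ≤ b * d * EE μ s n := by
      have : 1 ≤ b * d := one_le_mul_of_one_le_of_one_le hb1 hd1
      have h2 := mul_le_mul_of_nonneg_right this hEn0.le
      linarith only [h2]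
    have hbd2 : d * EE μ s n ≤ b * d * EE μ s n := by
      have h2 := mul_le_mul_of_nonneg_right hb1 (show 0 ≤ d * EE μ s n by positivity)
      linarith only [h2]
    have hbd3 : b * EE μ s n ≤ b * d * EE μ s n := by
      have h2 := mul_le_mul_of_nonneg_right hd1 (show 0 ≤ b * EE μ s n by positivity)
      linarith only [h2]
    have hbd4 : 1 ≤ b * d * EE μ s n := by linarith only [hbd1, hEn]
    have w2 : C' * EE μ s M ≤ C' * K2 * (b * d * EE μ s n) + C' * EE μ s 0 * (b * d * EE μ s n) := by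
      have hC'0 : 0 ≤ C' := by linarith only [hC']
      calc C' * EE μ s M ≤ C' * (K2 * b * EE μ s n + EE μ s 0) := mul_le_mul_of_nonneg_left v2 hC'0
        _ = C' * K2 * (b * EE μ s n) + C' * EE μ s 0 * 1 := by ring
        _ ≤ C' * K2 * (b * d * EE μ s n) + C' * EE μ s 0 * (b * d * EE μ s n) :=
          add_le_add (mul_le_mul_of_nonneg_left hbd3 (by positivity)) (mul_le_mul_of_nonneg_left hbd4 (by positivity))
    have w3 : (2 * K2 + C' * K2 + C' * EE μ s 0 + 5) * (b * d * EE μ s n) ≤ (n : ℝ) ^ (c₁ + δ) * EE μ s n := by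
      calc (2 * K2 + C' * K2 + C' * EE μ s 0 + 5) * (b * d * EE μ s n) ≤ b * (b * d * EE μ s n) :=
            mul_le_mul_of_nonneg_right e4 (by positivity)
        _ = (n : ℝ) ^ (c₁ + δ / 4) * EE μ s n := by
          rw [Real.rpow_add hn0, ← hbb, ← hd]
          ring
        _ ≤ (n : ℝ) ^ (c₁ + δ) * EE μ s n :=
          mul_le_mul_of_nonneg_right (Real.rpow_le_rpow_of_exponent_le hn1 (by linarith only [hδ₀1, hδ₀])) hEn0.le
    linarith only [w3, w2, hbd2, hbd1, w1, u4, u6, u3, u1, hboth, htabs, hEn]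

end

end Pool.Agent.W_7d29a1_C1.Win84
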