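import Pool.Agent.W_7d29a1_C1.Psi17

/-!
MP_7d29a1_pr, attractor route (helper17): bounds of `Psi` by the masses without the Gaussian walk. Gaussian part.
-/

set_option autoImplicit false

namespace Pool.Agent.W_7d29a1_C1

open MeasureTheory ProbabilityTheory Set Finset
open scoped ENNReal NNReal

noncomputable section

section gauss

variable {ι : Type*} [Fintype ι]

/-- The exponential moment of a linear form. -/
theorem gpi_exp17 (v : ℝ≥0) (a : ι → ℝ) : ∫ x, Real.exp (∑ i, a i * x i) ∂(gpi ι v) = Real.exp (v * (∑ i, a i ^ 2) / 2) := by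
  have e1 : ∀ x : ι → ℝ, Real.exp (∑ i, a i * x i) = ∏ i, Real.exp (a i * x i) := fun x => Real.exp_sum _ _
  simp only [e1]
  unfold gpi
  rw [integral_fintype_prod_eq_prod (μ := fun _ : ι => gaussianReal 0 v) (f := fun i y => Real.exp (a i * y))]
  have e2 : ∀ i, ∫ y, Real.exp (a i * y) ∂(gaussianReal 0 v) = Real.exp (v * a i ^ 2 / 2) := by
    intro i
    have h := mgf_gaussianReal (p := gaussianReal 0 v) (X := id) (μ := 0) (v := v) (by simp) (a i)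
    unfold mgf at h
    simp only [id, zero_mul, zero_add] at h
    exact h
  simp only [e2]
  rw [← Real.exp_sum]
  congr 1
  rw [Finset.mul_sum, Finset.sum_div]

theorem gpi_exp_int17 (v : ℝ≥0) (a : ι → ℝ) : Integrable (fun x : ι → ℝ => Real.exp (∑ i, a i * x i)) (gpi ι v) := by
  have e1 : ∀ x : ι → ℝ, Real.exp (∑ i, a i * x i) = ∏ i, Real.exp (a i * x i) := fun x => Real.exp_sum _ _
  simp only [e1]
  unfold gpi
  exact Integrable.fintype_prod (μ := fun _ : ι => gaussianReal 0 v) (f := fun i y => Real.exp (a i * y))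
    fun i => integrable_exp_mul_gaussianReal (a i)

theorem gpi_eval_int17 (v : ℝ≥0) (i : ι) : Integrable (fun x : ι → ℝ => x i) (gpi ι v) := by
  have h1 : MeasurePreserving (Function.eval i) (gpi ι v) (gaussianReal 0 v) :=
    measurePreserving_eval (μ := fun _ : ι => gaussianReal 0 v) i
  have h2 : Integrable (fun x : ℝ => x) (gaussianReal 0 v) := by
    have := memLp_id_gaussianReal (μ := 0) (v := v) 1
    exact this.integrable (by simp)
  exact h1.integrable_comp_of_integrable h2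

theorem gpi_eval17 (v : ℝ≥0) (i : ι) : ∫ x : ι → ℝ, x i ∂(gpi ι v) = 0 := by
  have h1 : MeasurePreserving (Function.eval i) (gpi ι v) (gaussianReal 0 v) :=
    measurePreserving_eval (μ := fun _ : ι => gaussianReal 0 v) i
  have h2 : ∫ x : ι → ℝ, Function.eval i x ∂(gpi ι v) = ∫ y, y ∂(gaussianReal 0 v) := by
    rw [← h1.map_eq]
    exact (integral_map h1.measurable.aemeasurable measurable_id.aestronglyMeasurable).symm
  rw [integral_id_gaussianReal] at h2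
  exact h2

end gauss

theorem wk_int17 (m : ℕ) (v : ℝ≥0) (k : ℕ) : Integrable (fun ξ : Fin m → ℝ => wk m ξ k) (gpi (Fin m) v) := by
  unfold wk
  refine integrable_finsetSum _ fun i _ => ?_
  split_ifs
  · exact gpi_eval_int17 v i
  · exact integrable_const _

theorem wk_mean17 (m : ℕ) (v : ℝ≥0) (k : ℕ) : ∫ ξ : Fin m → ℝ, wk m ξ k ∂(gpi (Fin m) v) = 0 := by
  unfold wk
  rw [integral_finsetSum]
  · refine Finset.sum_eq_zero fun i _ => ?_
    split_ifs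
    · exact gpi_eval17 v i
    · simp
  · intro i _
    split_ifs
    · exact gpi_eval_int17 v i
    · exact integrable_const _

/-- The coefficients of the increment of the walk. -/
def inc17 (m k k₀ : ℕ) (θ : ℝ) : Fin m → ℝ := fun i => (if (i : ℕ) < k then θ else 0) - if (i : ℕ) < k₀ then θ else 0

theorem inc_sum17 (m k k₀ : ℕ) (θ : ℝ) (ξ : Fin m → ℝ) : ∑ i, inc17 m k k₀ θ i * ξ i = θ * (wk m ξ k - wk m ξ k₀) := by
  unfold inc17 wk
  rw [mul_sub, Finset.mul_sum, Finset.mul_sum, ← Finset.sum_sub_distrib]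
  refine Finset.sum_congr rfl fun i _ => ?_
  split_ifs <;> ring

theorem inc_sq17 {m k k₀ : ℕ} (hk : k ≤ m) (hk₀ : k₀ ≤ m) (θ : ℝ) : ∑ i, inc17 m k k₀ θ i ^ 2 = θ ^ 2 * |(k : ℝ) - k₀| := by
  have key : ∀ a b : ℕ, a ≤ b → b ≤ m → ∑ i : Fin m, ((if (i : ℕ) < b then θ else 0) - if (i : ℕ) < a then θ else 0) ^ 2 =
      θ ^ 2 * ((b : ℝ) - a) := by
    intro a b hab hb
    have h1 := wk_cst m 1 hb
    have h2 := wk_cst m 1 (hab.trans hb)
    unfold wk cst at h1 h2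
    have h3 : ∀ i : Fin m, ((if (i : ℕ) < b then θ else 0) - if (i : ℕ) < a then θ else 0) ^ 2 =
        θ ^ 2 * ((if (i : ℕ) < b then (1 : ℝ) else 0) - if (i : ℕ) < a then 1 else 0) := by
      intro i
      by_cases c1 : (i : ℕ) < a
      · have c2 : (i : ℕ) < b := by omega
        simp [c1, c2]
      · by_cases c2 : (i : ℕ) < b
        · simp [c1, c2]
        · simp [c1, c2]
    rw [Finset.sum_congr rfl fun i _ => h3 i, ← Finset.mul_sum, Finset.sum_sub_distrib, h1, h2]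
    ring
  unfold inc17
  rcases le_total k₀ k with h | h
  · rw [key k₀ k h hk, abs_of_nonneg]
    have : (k₀ : ℝ) ≤ k := by exact_mod_cast h
    linarith
  · have h1 := key k k₀ h hk₀
    rw [abs_of_nonpos (by
      have : (k : ℝ) ≤ k₀ := by exact_mod_cast h
      linarith), neg_sub, ← h1]
    exact Finset.sum_congr rfl fun i _ => by ring

/-- The exponential moment of the increment of the walk. -/
theorem wk_exp17 {m k k₀ : ℕ} (hk : k ≤ m) (hk₀ : k₀ ≤ m) (v : ℝ≥0) (θ : ℝ) :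
    Integrable (fun ξ : Fin m → ℝ => Real.exp (θ * (wk m ξ k - wk m ξ k₀))) (gpi (Fin m) v) ∧
    ∫ ξ : Fin m → ℝ, Real.exp (θ * (wk m ξ k - wk m ξ k₀)) ∂(gpi (Fin m) v) = Real.exp (v * (θ ^ 2 * |(k : ℝ) - k₀|) / 2) := by
  simp only [← inc_sum17 m k k₀ θ]
  refine ⟨gpi_exp_int17 v _, ?_⟩
  rw [gpi_exp17, inc_sq17 hk hk₀]

/-- The supremum of the walk with a drift, as a sum. -/
def sup17 (m k₀ : ℕ) (θ ρ : ℝ) (ξ : Fin m → ℝ) : ℝ :=
  ∑ k : Fin (m + 1), Real.exp (θ * (wk m ξ k - wk m ξ k₀) - θ * ρ * |((k : ℕ) : ℝ) - k₀|)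

theorem sup_pos17 (m k₀ : ℕ) (θ ρ : ℝ) (ξ : Fin m → ℝ) : 0 < sup17 m k₀ θ ρ ξ :=
  Finset.sum_pos (fun _ _ => Real.exp_pos _) Finset.univ_nonempty

theorem sup_int17 {m k₀ : ℕ} (hk₀ : k₀ ≤ m) (v : ℝ≥0) {θ ρ : ℝ} (hθ : 0 ≤ θ) (hv : v * θ ≤ 2 * ρ) :
    Integrable (fun ξ : Fin m → ℝ => sup17 m k₀ θ ρ ξ) (gpi (Fin m) v) ∧
    ∫ ξ : Fin m → ℝ, sup17 m k₀ θ ρ ξ ∂(gpi (Fin m) v) ≤ m + 1 := by
  have h1 : ∀ k : Fin (m + 1), ∀ ξ : Fin m → ℝ,
      Real.exp (θ * (wk m ξ k - wk m ξ k₀) - θ * ρ * |((k : ℕ) : ℝ) - k₀|) =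
      Real.exp (θ * (wk m ξ k - wk m ξ k₀)) * Real.exp (-(θ * ρ * |((k : ℕ) : ℝ) - k₀|)) := by
    intro k ξ
    rw [← Real.exp_add]
    ring_nf
  have h2 : ∀ k : Fin (m + 1), Integrable (fun ξ : Fin m → ℝ =>
      Real.exp (θ * (wk m ξ k - wk m ξ k₀) - θ * ρ * |((k : ℕ) : ℝ) - k₀|)) (gpi (Fin m) v) := by
    intro k
    simp only [h1]
    exact (wk_exp17 (by have := k.2; omega) hk₀ v θ).1.mul_const _
  unfold sup17
  refine ⟨integrable_finsetSum _ fun k _ => h2 k, ?_⟩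
  rw [integral_finsetSum _ fun k _ => h2 k]
  calc ∑ k : Fin (m + 1), ∫ ξ : Fin m → ℝ, Real.exp (θ * (wk m ξ k - wk m ξ k₀) - θ * ρ * |((k : ℕ) : ℝ) - k₀|) ∂(gpi (Fin m) v)
      ≤ ∑ _k : Fin (m + 1), (1 : ℝ) := by
        refine Finset.sum_le_sum fun k _ => ?_
        simp only [h1 k]
        rw [integral_mul_const, (wk_exp17 (by have := k.2; omega) hk₀ v θ).2, ← Real.exp_add, ← Real.exp_zero]
        refine Real.exp_le_exp.2 ?_
        have h3 : v * (θ ^ 2 * |((k : ℕ) : ℝ) - k₀|) / 2 + -(θ * ρ * |((k : ℕ) : ℝ) - k₀|) =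
            (v * θ - 2 * ρ) * (θ * |((k : ℕ) : ℝ) - k₀|) / 2 := by ring
        rw [h3]
        have h4 : (v * θ - 2 * ρ) * (θ * |((k : ℕ) : ℝ) - k₀|) ≤ 0 :=
          mul_nonpos_of_nonpos_of_nonneg (by linarith) (by positivity)
        linarith
    _ = m + 1 := by simp

/-- The pointwise bound. -/
theorem LG_sup17 {m k₀ : ℕ} {θ ρ : ℝ} (hθ : 0 < θ) (r : ℝ) {p : Fin (m + 1) → ℝ} (hp : ∀ k, 0 ≤ p k)
    (hs : 0 < ∑ k, p k) (ξ : Fin m → ℝ) :
    LG m r p ξ ≤ wk m ξ k₀ + 1 / θ * Real.log (sup17 m k₀ θ ρ ξ) +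
      Real.log (∑ k : Fin (m + 1), p k * Real.exp (r * ((k : ℕ) : ℝ) + ρ * |((k : ℕ) : ℝ) - k₀|)) := by
  obtain ⟨M, hM⟩ : ∃ M : ℝ, M = wk m ξ k₀ + 1 / θ * Real.log (sup17 m k₀ θ ρ ξ) := ⟨_, rfl⟩
  rw [← hM]
  have hpos : ∀ g : Fin (m + 1) → ℝ, 0 < ∑ k : Fin (m + 1), p k * Real.exp (g k) := by
    intro g
    obtain ⟨k, -, hk⟩ := Finset.exists_lt_of_sum_lt (s := Finset.univ) (f := fun _ : Fin (m + 1) => (0 : ℝ)) (g := p)
      (by simpa using hs)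
    exact Finset.sum_pos' (fun j _ => mul_nonneg (hp j) (Real.exp_pos _).le)
      ⟨k, Finset.mem_univ k, mul_pos hk (Real.exp_pos _)⟩
  have h1 : ∀ k : Fin (m + 1), wk m ξ k ≤ M + ρ * |((k : ℕ) : ℝ) - k₀| := by
    intro k
    have h2 : Real.exp (θ * (wk m ξ k - wk m ξ k₀) - θ * ρ * |((k : ℕ) : ℝ) - k₀|) ≤ sup17 m k₀ θ ρ ξ :=
      Finset.single_le_sum (f := fun k : Fin (m + 1) => Real.exp (θ * (wk m ξ k - wk m ξ k₀) - θ * ρ * |((k : ℕ) : ℝ) - k₀|))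
        (fun _ _ => (Real.exp_pos _).le) (Finset.mem_univ k)
    have h3 := Real.log_le_log (Real.exp_pos _) h2
    rw [Real.log_exp] at h3
    have h4 : wk m ξ k - wk m ξ k₀ - ρ * |((k : ℕ) : ℝ) - k₀| ≤ 1 / θ * Real.log (sup17 m k₀ θ ρ ξ) := by
      rw [one_div, ← div_eq_inv_mul, le_div_iff₀ hθ]
      linarith
    rw [hM]
    linarith
  unfold LG
  have h5 : ∑ k : Fin (m + 1), p k * Real.exp (r * ((k : ℕ) : ℝ) + wk m ξ k) ≤
      Real.exp M * ∑ k : Fin (m + 1), p k * Real.exp (r * ((k : ℕ) : ℝ) + ρ * |((k : ℕ) : ℝ) - k₀|) := by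
    rw [Finset.mul_sum]
    refine Finset.sum_le_sum fun k _ => ?_
    have h6 : Real.exp (r * ((k : ℕ) : ℝ) + wk m ξ k) ≤
        Real.exp M * Real.exp (r * ((k : ℕ) : ℝ) + ρ * |((k : ℕ) : ℝ) - k₀|) := by
      rw [← Real.exp_add]
      exact Real.exp_le_exp.2 (by linarith [h1 k])
    calc p k * Real.exp (r * ((k : ℕ) : ℝ) + wk m ξ k)
        ≤ p k * (Real.exp M * Real.exp (r * ((k : ℕ) : ℝ) + ρ * |((k : ℕ) : ℝ) - k₀|)) :=
          mul_le_mul_of_nonneg_left h6 (hp k)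
      _ = _ := by ring
  have h7 := Real.log_le_log (hpos fun k => r * ((k : ℕ) : ℝ) + wk m ξ k) h5
  rw [Real.log_mul (Real.exp_pos _).ne' (hpos fun k => r * ((k : ℕ) : ℝ) + ρ * |((k : ℕ) : ℝ) - k₀|).ne', Real.log_exp] at h7
  exact h7

/-- Two sides instead of the absolute value. -/
theorem LG_two17 {m k₀ : ℕ} (hk₀ : k₀ ≤ m) {ρ : ℝ} (r : ℝ) {p : Fin (m + 1) → ℝ} (hp : ∀ k, 0 ≤ p k)
    (h0 : 0 < p ⟨k₀, Nat.lt_succ_of_le hk₀⟩) :
    Real.log (∑ k : Fin (m + 1), p k * Real.exp (r * ((k : ℕ) : ℝ) + ρ * |((k : ℕ) : ℝ) - k₀|)) ≤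
      Real.log 2 + LG m (r + ρ) p 0 + LG m (r - ρ) p 0 - Real.log (p ⟨k₀, Nat.lt_succ_of_le hk₀⟩) - r * k₀ := by
  have hwk : ∀ k : ℕ, wk m (0 : Fin m → ℝ) k = 0 := by
    intro k
    unfold wk
    simp
  obtain ⟨A, hA⟩ : ∃ A : ℝ, A = ∑ k : Fin (m + 1), p k * Real.exp (r * ((k : ℕ) : ℝ) + ρ * (((k : ℕ) : ℝ) - k₀)) := ⟨_, rfl⟩
  obtain ⟨B, hB⟩ : ∃ B : ℝ, B = ∑ k : Fin (m + 1), p k * Real.exp (r * ((k : ℕ) : ℝ) - ρ * (((k : ℕ) : ℝ) - k₀)) := ⟨_, rfl⟩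
  obtain ⟨L, hL⟩ : ∃ L : ℝ, L = p ⟨k₀, Nat.lt_succ_of_le hk₀⟩ * Real.exp (r * k₀) := ⟨_, rfl⟩
  have hL0 : 0 < L := by
    rw [hL]
    positivity
  have hLA : L ≤ A := by
    rw [hL, hA]
    have := Finset.single_le_sum (f := fun k : Fin (m + 1) => p k * Real.exp (r * ((k : ℕ) : ℝ) + ρ * (((k : ℕ) : ℝ) - k₀)))
      (fun k _ => mul_nonneg (hp k) (Real.exp_pos _).le) (Finset.mem_univ ⟨k₀, Nat.lt_succ_of_le hk₀⟩)
    simpa using this
  have hLB : L ≤ B := by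
    rw [hL, hB]
    have := Finset.single_le_sum (f := fun k : Fin (m + 1) => p k * Real.exp (r * ((k : ℕ) : ℝ) - ρ * (((k : ℕ) : ℝ) - k₀)))
      (fun k _ => mul_nonneg (hp k) (Real.exp_pos _).le) (Finset.mem_univ ⟨k₀, Nat.lt_succ_of_le hk₀⟩)
    simpa using this
  have hA0 : 0 < A := lt_of_lt_of_le hL0 hLA
  have hB0 : 0 < B := lt_of_lt_of_le hL0 hLB
  have lA : Real.log A = LG m (r + ρ) p 0 - ρ * k₀ := by
    have e1 : A = Real.exp (-(ρ * k₀)) * ∑ k : Fin (m + 1), p k * Real.exp ((r + ρ) * ((k : ℕ) : ℝ) + wk m 0 k) := by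
      rw [hA, Finset.mul_sum]
      refine Finset.sum_congr rfl fun k _ => ?_
      rw [hwk, ← mul_assoc, mul_comm (Real.exp _) (p k), mul_assoc, ← Real.exp_add]
      ring_nf
    have e2 : 0 < ∑ k : Fin (m + 1), p k * Real.exp ((r + ρ) * ((k : ℕ) : ℝ) + wk m 0 k) := by
      by_contra hcon
      push Not at hcon
      rw [e1] at hA0
      have := mul_nonpos_of_nonneg_of_nonpos (Real.exp_pos (-(ρ * k₀))).le hcon
      linarith
    unfold LG
    rw [e1, Real.log_mul (Real.exp_pos _).ne' e2.ne', Real.log_exp]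
    ring
  have lB : Real.log B = LG m (r - ρ) p 0 + ρ * k₀ := by
    have e1 : B = Real.exp (ρ * k₀) * ∑ k : Fin (m + 1), p k * Real.exp ((r - ρ) * ((k : ℕ) : ℝ) + wk m 0 k) := by
      rw [hB, Finset.mul_sum]
      refine Finset.sum_congr rfl fun k _ => ?_
      rw [hwk, ← mul_assoc, mul_comm (Real.exp _) (p k), mul_assoc, ← Real.exp_add]
      ring_nf
    have e2 : 0 < ∑ k : Fin (m + 1), p k * Real.exp ((r - ρ) * ((k : ℕ) : ℝ) + wk m 0 k) := by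
      by_contra hcon
      push Not at hcon
      rw [e1] at hB0
      have := mul_nonpos_of_nonneg_of_nonpos (Real.exp_pos (ρ * k₀)).le hcon
      linarith
    unfold LG
    rw [e1, Real.log_mul (Real.exp_pos _).ne' e2.ne', Real.log_exp]
    ring
  have lL : Real.log L = Real.log (p ⟨k₀, Nat.lt_succ_of_le hk₀⟩) + r * k₀ := by
    rw [hL, Real.log_mul h0.ne' (Real.exp_pos _).ne', Real.log_exp]
  have hsum : ∑ k : Fin (m + 1), p k * Real.exp (r * ((k : ℕ) : ℝ) + ρ * |((k : ℕ) : ℝ) - k₀|) ≤ A + B := by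
    rw [hA, hB, ← Finset.sum_add_distrib]
    refine Finset.sum_le_sum fun k _ => ?_
    rw [← mul_add]
    refine mul_le_mul_of_nonneg_left ?_ (hp k)
    rcases abs_cases (((k : ℕ) : ℝ) - k₀) with ⟨e, -⟩ | ⟨e, -⟩
    · rw [e]
      have := Real.exp_pos (r * ((k : ℕ) : ℝ) - ρ * (((k : ℕ) : ℝ) - k₀))
      linarith
    · rw [e, mul_neg, ← sub_eq_add_neg]
      have := Real.exp_pos (r * ((k : ℕ) : ℝ) + ρ * (((k : ℕ) : ℝ) - k₀))
      linarith
  have hsum0 : 0 < ∑ k : Fin (m + 1), p k * Real.exp (r * ((k : ℕ) : ℝ) + ρ * |((k : ℕ) : ℝ) - k₀|) := by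
    refine Finset.sum_pos' (fun j _ => mul_nonneg (hp j) (Real.exp_pos _).le)
      ⟨⟨k₀, Nat.lt_succ_of_le hk₀⟩, Finset.mem_univ _, mul_pos h0 (Real.exp_pos _)⟩
  have hAB : A + B ≤ 2 * A * B / L := by
    rw [le_div_iff₀ hL0]
    have h1 : A * L ≤ A * B := mul_le_mul_of_nonneg_left hLB hA0.le
    have h2 : L * B ≤ A * B := mul_le_mul_of_nonneg_right hLA hB0.le
    linarith
  have hlog := Real.log_le_log hsum0 (hsum.trans hAB)
  rw [Real.log_div (by positivity) hL0.ne', Real.log_mul (by positivity) hB0.ne', Real.log_mul (by norm_num) hA0.ne', lA, lB, lL] at hlog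
  linarith

section random

variable {Ω : Type*} [MeasurableSpace Ω] {ν : Measure Ω} [IsProbabilityMeasure ν] {m : ℕ} {P : Ω → Fin (m + 1) → ℝ}

/-- Integrability at every walk from integrability at the zero walk. -/
theorem LG_int17 (hP : ∀ k, Measurable fun ω => P ω k) (h0 : ∀ ω k, 0 ≤ P ω k) (hs : ∀ ω, 0 < ∑ k, P ω k) {r : ℝ}
    (hI : Integrable (fun ω => LG m r (P ω) 0) ν) (ξ : Fin m → ℝ) : Integrable (fun ω => LG m r (P ω) ξ) ν := by
  have hmeas : ∀ ζ : Fin m → ℝ, Measurable fun ω => LG m r (P ω) ζ := fun ζ =>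
    (measurable_LG hP r).comp (measurable_const.prodMk measurable_id)
  have hd : Integrable (fun ω => LG m r (P ω) ξ - LG m r (P ω) 0) ν := by
    refine (integrable_const (∑ i, |ξ i - (0 : Fin m → ℝ) i|)).mono' ((hmeas ξ).sub (hmeas 0)).aestronglyMeasurable
      (ae_of_all _ fun ω => ?_)
    rw [Real.norm_eq_abs]
    exact LG_abs m r (h0 ω) (hs ω) ξ 0
  refine (hd.add hI).congr (ae_of_all _ fun ω => ?_)
  simp

/-- The mean over the masses is an integrable function of the walk. -/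
theorem Phi_int17 (hP : ∀ k, Measurable fun ω => P ω k) (h0 : ∀ ω k, 0 ≤ P ω k) (hs : ∀ ω, 0 < ∑ k, P ω k) {r : ℝ}
    (hI : Integrable (fun ω => LG m r (P ω) 0) ν) (v : ℝ≥0) :
    Integrable (fun ξ : Fin m → ℝ => ∫ ω, LG m r (P ω) ξ ∂ν) (gpi (Fin m) v) := by
  obtain ⟨Φ, hΦ⟩ : ∃ Φ : (Fin m → ℝ) → ℝ, Φ = fun ξ => ∫ ω, LG m r (P ω) ξ ∂ν := ⟨_, rfl⟩
  have hΦm : Measurable Φ := by
    rw [hΦ]
    have h1 : StronglyMeasurable fun z : (Fin m → ℝ) × Ω => LG m r (P z.2) z.1 := (measurable_LG hP r).stronglyMeasurable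
    exact (h1.integral_prod_right').measurable
  have hdiff : ∀ ξ, |Φ ξ - Φ 0| ≤ ∑ i, |ξ i| := by
    intro ξ
    rw [hΦ]
    simp only
    rw [← integral_sub (LG_int17 hP h0 hs hI ξ) hI]
    refine abs_integral_le_integral_abs.trans ?_
    calc ∫ ω, |LG m r (P ω) ξ - LG m r (P ω) 0| ∂ν ≤ ∫ _, ∑ i, |ξ i| ∂ν := by
          refine integral_mono ((LG_int17 hP h0 hs hI ξ).sub hI).abs (integrable_const _) fun ω => ?_
          have := LG_abs m r (h0 ω) (hs ω) ξ 0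
          simpa using this
      _ = ∑ i, |ξ i| := by simp
  have hc : ∀ i : Fin m, Integrable (fun ξ : Fin m → ℝ => |ξ i|) (gpi (Fin m) v) := fun i => (gpi_eval_int17 v i).abs
  have hgoal : Integrable Φ (gpi (Fin m) v) := by
    refine ((integrable_const |Φ 0|).add (integrable_finsetSum Finset.univ fun i _ => hc i)).mono'
      hΦm.aestronglyMeasurable (ae_of_all _ fun ξ => ?_)
    rw [Real.norm_eq_abs]
    have h1 := hdiff ξ
    have h2 : |Φ ξ| ≤ |Φ 0| + |Φ ξ - Φ 0| := by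
      have := abs_sub_abs_le_abs_sub (Φ ξ) (Φ 0)
      linarith
    simp only [Pi.add_apply]
    have e3 : (∑ i, fun ξ : Fin m → ℝ => |ξ i|) ξ = ∑ i, |ξ i| := by
      rw [Finset.sum_apply]
    linarith
  rw [hΦ] at hgoal
  exact hgoal

/-- **Upper bound of `Psi`** by the masses at two other slopes. -/
theorem Psi_up17 (hP : ∀ k, Measurable fun ω => P ω k) (h0 : ∀ ω k, 0 ≤ P ω k) (hs : ∀ ω, 0 < ∑ k, P ω k) {k₀ : ℕ}
    (hk₀ : k₀ ≤ m) (hp0 : ∀ ω, 0 < P ω ⟨k₀, Nat.lt_succ_of_le hk₀⟩) {r ρ : ℝ} (hρ : 0 < ρ) (v : ℝ≥0)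
    (hI : ∀ u : ℝ, Integrable (fun ω => LG m u (P ω) 0) ν)
    (hX : Integrable (fun ω => Real.log (P ω ⟨k₀, Nat.lt_succ_of_le hk₀⟩)) ν) :
    Psi ν m v P r ≤ (v + 1) / ρ * Real.log (m + 1) + Real.log 2 + ∫ ω, LG m (r + ρ) (P ω) 0 ∂ν +
      ∫ ω, LG m (r - ρ) (P ω) 0 ∂ν - ∫ ω, Real.log (P ω ⟨k₀, Nat.lt_succ_of_le hk₀⟩) ∂ν - r * k₀ := by
  have hv0 : (0 : ℝ) ≤ v := v.2
  obtain ⟨θ, hθ⟩ : ∃ θ : ℝ, θ = ρ / (v + 1) := ⟨_, rfl⟩
  have hθ0 : 0 < θ := by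
    rw [hθ]
    positivity
  have hvθ : v * θ ≤ 2 * ρ := by
    rw [hθ, mul_div_assoc', div_le_iff₀ (by positivity)]
    nlinarith
  have hθi : 1 / θ = (v + 1) / ρ := by
    rw [hθ, one_div_div]
  obtain ⟨J, hJ⟩ : ∃ J : ℝ, J = Real.log 2 + ∫ ω, LG m (r + ρ) (P ω) 0 ∂ν + ∫ ω, LG m (r - ρ) (P ω) 0 ∂ν -
    ∫ ω, Real.log (P ω ⟨k₀, Nat.lt_succ_of_le hk₀⟩) ∂ν - r * k₀ := ⟨_, rfl⟩
  have h1 : ∀ ξ : Fin m → ℝ, ∫ ω, LG m r (P ω) ξ ∂ν ≤ wk m ξ k₀ + 1 / θ * Real.log (sup17 m k₀ θ ρ ξ) + J := by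
    intro ξ
    have h2 : ∀ ω, LG m r (P ω) ξ ≤ wk m ξ k₀ + 1 / θ * Real.log (sup17 m k₀ θ ρ ξ) +
        (Real.log 2 + LG m (r + ρ) (P ω) 0 + LG m (r - ρ) (P ω) 0 - Real.log (P ω ⟨k₀, Nat.lt_succ_of_le hk₀⟩) - r * k₀) := by
      intro ω
      have h3 := LG_sup17 (k₀ := k₀) (ρ := ρ) hθ0 r (h0 ω) (hs ω) ξ
      have h4 := LG_two17 (ρ := ρ) hk₀ r (h0 ω) (hp0 ω)
      linarith
    have j1 : Integrable (fun ω => Real.log 2 + LG m (r + ρ) (P ω) 0) ν := (integrable_const _).add (hI _)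
    have j2 : Integrable (fun ω => Real.log 2 + LG m (r + ρ) (P ω) 0 + LG m (r - ρ) (P ω) 0) ν := j1.add (hI _)
    have j3 : Integrable (fun ω => Real.log 2 + LG m (r + ρ) (P ω) 0 + LG m (r - ρ) (P ω) 0 -
        Real.log (P ω ⟨k₀, Nat.lt_succ_of_le hk₀⟩)) ν := j2.sub hX
    have i1 : Integrable (fun ω => Real.log 2 + LG m (r + ρ) (P ω) 0 + LG m (r - ρ) (P ω) 0 -
        Real.log (P ω ⟨k₀, Nat.lt_succ_of_le hk₀⟩) - r * k₀) ν := j3.sub (integrable_const _)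
    refine (integral_mono (LG_int17 hP h0 hs (hI r) ξ) ((integrable_const _).add i1) h2).trans (le_of_eq ?_)
    simp only [Pi.add_apply]
    rw [integral_add (integrable_const _) i1]
    rw [integral_sub j3 (integrable_const _), integral_sub j2 hX, integral_add j1 (hI _), integral_add (integrable_const _) (hI _), hJ]
    simp
  obtain ⟨s1, s2⟩ := sup_int17 (m := m) hk₀ v hθ0.le hvθ
  have hm1 : (0 : ℝ) < m + 1 := by positivity
  -- `log f ≤ f / (m + 1) - 1 + log (m + 1)`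
  have h5 : ∀ ξ : Fin m → ℝ, ∫ ω, LG m r (P ω) ξ ∂ν ≤ wk m ξ k₀ + (1 / θ * (1 / (m + 1)) * sup17 m k₀ θ ρ ξ +
      (1 / θ * (Real.log (m + 1) - 1) + J)) := by
    intro ξ
    have h6 := Real.log_le_sub_one_of_pos (div_pos (sup_pos17 m k₀ θ ρ ξ) hm1)
    rw [Real.log_div (sup_pos17 m k₀ θ ρ ξ).ne' hm1.ne'] at h6
    have h7 : 1 / θ * Real.log (sup17 m k₀ θ ρ ξ) ≤ 1 / θ * (sup17 m k₀ θ ρ ξ / (m + 1) - 1 + Real.log (m + 1)) :=
      mul_le_mul_of_nonneg_left (by linarith) (by positivity)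
    have h8 : 1 / θ * (sup17 m k₀ θ ρ ξ / (m + 1) - 1 + Real.log (m + 1)) = 1 / θ * (1 / (m + 1)) * sup17 m k₀ θ ρ ξ +
        1 / θ * (Real.log (m + 1) - 1) := by ring
    linarith [h1 ξ]
  unfold Psi
  have k1 : Integrable (fun ξ : Fin m → ℝ => 1 / θ * (1 / ((m : ℝ) + 1)) * sup17 m k₀ θ ρ ξ) (gpi (Fin m) v) := s1.const_mul _
  have k2 : Integrable (fun ξ : Fin m → ℝ => 1 / θ * (1 / ((m : ℝ) + 1)) * sup17 m k₀ θ ρ ξ +
      (1 / θ * (Real.log (m + 1) - 1) + J)) (gpi (Fin m) v) := k1.add (integrable_const _)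
  refine (integral_mono (Phi_int17 hP h0 hs (hI r) v) ((wk_int17 m v k₀).add k2) h5).trans ?_
  simp only [Pi.add_apply]
  rw [integral_add (wk_int17 m v k₀) k2, integral_add k1 (integrable_const _),
    wk_mean17, integral_const_mul, integral_const]
  simp only [probReal_univ, smul_eq_mul, one_mul]
  have h9 : 1 / θ * (1 / ((m : ℝ) + 1)) * ∫ ξ : Fin m → ℝ, sup17 m k₀ θ ρ ξ ∂(gpi (Fin m) v) ≤
      1 / θ * (1 / ((m : ℝ) + 1)) * (m + 1) := mul_le_mul_of_nonneg_left s2 (by positivity)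
  have h10 : 1 / θ * (1 / ((m : ℝ) + 1)) * (m + 1) = 1 / θ := by field_simp
  rw [h10] at h9
  rw [hθi] at h9 ⊢
  rw [hJ]
  have h11 : (v + 1) / ρ * (Real.log (m + 1) - 1) = (v + 1) / ρ * Real.log (m + 1) - (v + 1) / ρ := by ring
  linarith

/-- **Lower bound of `Psi`** by one site. -/
theorem Psi_low17 (hP : ∀ k, Measurable fun ω => P ω k) (h0 : ∀ ω k, 0 ≤ P ω k) (hs : ∀ ω, 0 < ∑ k, P ω k) (k : Fin (m + 1))
    (hp0 : ∀ ω, 0 < P ω k) {r : ℝ} (v : ℝ≥0) (hI : Integrable (fun ω => LG m r (P ω) 0) ν)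
    (hX : Integrable (fun ω => Real.log (P ω k)) ν) :
    ∫ ω, Real.log (P ω k) ∂ν + r * ((k : ℕ) : ℝ) ≤ Psi ν m v P r := by
  have h1 : ∀ ξ : Fin m → ℝ, wk m ξ k + (∫ ω, Real.log (P ω k) ∂ν + r * ((k : ℕ) : ℝ)) ≤ ∫ ω, LG m r (P ω) ξ ∂ν := by
    intro ξ
    have h2 : ∀ ω, Real.log (P ω k) + (wk m ξ k + r * ((k : ℕ) : ℝ)) ≤ LG m r (P ω) ξ := by
      intro ω
      have h3 : P ω k * Real.exp (r * ((k : ℕ) : ℝ) + wk m ξ k) ≤
          ∑ k : Fin (m + 1), P ω k * Real.exp (r * ((k : ℕ) : ℝ) + wk m ξ k) :=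
        Finset.single_le_sum (f := fun k : Fin (m + 1) => P ω k * Real.exp (r * ((k : ℕ) : ℝ) + wk m ξ k))
          (fun j _ => mul_nonneg (h0 ω j) (Real.exp_pos _).le) (Finset.mem_univ k)
      have h4 := Real.log_le_log (mul_pos (hp0 ω) (Real.exp_pos _)) h3
      rw [Real.log_mul (hp0 ω).ne' (Real.exp_pos _).ne', Real.log_exp] at h4
      unfold LG
      linarith
    have h5 := integral_mono (hX.add (integrable_const (wk m ξ k + r * ((k : ℕ) : ℝ)))) (LG_int17 hP h0 hs hI ξ) h2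
    simp only [Pi.add_apply] at h5
    rw [integral_add hX (integrable_const _), integral_const] at h5
    simp only [probReal_univ, smul_eq_mul, one_mul] at h5
    linarith
  have h6 := integral_mono ((wk_int17 m v k).add (integrable_const _)) (Phi_int17 hP h0 hs hI v) h1
  simp only [Pi.add_apply] at h6
  rw [integral_add (wk_int17 m v k) (integrable_const _), wk_mean17, integral_const] at h6
  simp only [probReal_univ, smul_eq_mul, one_mul, zero_add] at h6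
  exact h6

end random

end

end Pool.Agent.W_7d29a1_C1
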