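import Pool.Agent.W_7d29a1_C1.NumW32

/-!
MP_7d29a1_pr, [C1] attractor route, SEP: THE ORDER OF THE CONSTANTS OF THE EXCLUSIONS (helper53)

* `ordW53` : the eight number lines of `Rt19.Ok` (WrW19), in the order: levels of the typical content and of the lanes
  (`QA QB q1 yA yB rM q0 r d3 X0`), then `LB | uB | LA | uA | z, fw`;
* `unit53` : the gate constants from the unit `E u` to the lane unit.
-/

set_option autoImplicit false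

namespace Pool.Agent.W_7d29a1_C1.SD53

open Pool.Agent.W_7d29a1_C1.NW32

noncomputable section

/-- **THE ORDER OF THE CONSTANTS.** `xA = LA - QA`, `xB = LB - QB` (gains of the lanes), all rates in the lane unit `E'`; the gate constants
`q0`, `d1`, `z` of the unit `E u ≤ X0 E'` enter as `X0 q0`, `r = X0 d1`, `z` (`unit53`). -/
theorem ordW53 (QA QB q1 yA yB rM q0 r d3 X0 : ℝ) : ∃ LB₀ : ℝ, ∀ LB : ℝ, LB₀ ≤ LB → ∀ uB : ℝ, yB ≤ uB →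
    ∃ LA₀ : ℝ, ∀ LA : ℝ, LA₀ ≤ LA → ∀ uA : ℝ, yA ≤ uA → ∃ z₀ fw₀ : ℝ, 0 ≤ z₀ ∧ 0 ≤ fw₀ ∧ ∀ z fw : ℝ, z₀ ≤ z → fw₀ ≤ fw →
      yB ≤ uB ∧ yA ≤ uA ∧ yA + 1 ≤ LA - QA ∧ 0 ≤ fw + 1 ∧
      uB + rM + yA + 1 + d3 + r + X0 / 4 + 1 ≤ LA - QA + (LB - QB) - q1 - 1 - d3 - q0 ∧
      X0 / 4 ≤ LB - QB - q1 - yB - rM - 2 * d3 ∧
      uB + rM + uA + 1 + d3 + r + 1 - fw + X0 / 4 + 2 ≤ LA - QA + (LB - QB) - q1 - 1 - d3 - q0 ∧
      max (uB + rM + uA + 1 + d3 - z) (uB + rM + yA + 1 + d3 + r) + 1 + X0 / 4 + 2 ≤ LA - QA + (LB - QB) - q1 - 1 - d3 - q0 := by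
  obtain ⟨LB₀, H⟩ := ord2_32 QA QB q1 yA yB rM q0 r d3 X0
  refine ⟨LB₀, fun LB hLB uB huB => ?_⟩
  obtain ⟨LA₀, H⟩ := H LB hLB uB
  refine ⟨LA₀, fun LA hLA uA huA => ?_⟩
  obtain ⟨z₀, f₀, H⟩ := H LA hLA uA
  refine ⟨max z₀ 0, max f₀ 0, le_max_right _ _, le_max_right _ _, fun z fw hz hf => ?_⟩
  obtain ⟨h1, h2, h3, h4, h5⟩ := H z fw ((le_max_left _ _).trans hz) ((le_max_left _ _).trans hf)
  exact ⟨huB, huA, h1, by have := (le_max_right f₀ 0).trans hf; linarith, h2, h3, h4, h5⟩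

/-- The gate constants from the unit `E u` to the unit `E'`. -/
theorem unit53 {E E' X0 x y : ℝ} (h2 : E' ≤ E) (h3 : E ≤ X0 * E') (hx : 0 ≤ x) :
    Real.exp (x * E) ≤ Real.exp (X0 * x * E') ∧ Real.exp (-(X0 * x) * E') ≤ Real.exp (-(x * E)) ∧
      (0 ≤ y → Real.exp (-(y * E)) ≤ Real.exp (-y * E')) := by
  have h4 := mul_le_mul_of_nonneg_left h3 hx
  refine ⟨Real.exp_le_exp.2 (by linarith), Real.exp_le_exp.2 (by linarith), fun hy => Real.exp_le_exp.2 ?_⟩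
  have h5 := mul_le_mul_of_nonneg_left h2 hy
  linarith

end

end Pool.Agent.W_7d29a1_C1.SD53
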