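import Pool.Agent.W_7d29a1_C1.WrQ52
import Pool.Agent.W_7d29a1_C1.SepC2

/-!
MP_7d29a1_pr, attractor route [C1], SEP: THE FIELD `ratio` OVER THE FILTER OF THE CONSTANTS (SepC2). (helper52; record of helper2)

* `RatP52` : the statement of `ratQ52` for given numbers; `RatP52.mono`;
* **`ratZ52`** : a function `xF` of the constants before `Kl` (so `R2` is read) such that eventually every `x ≥ xF (C.cut .Kl)` is a price of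
  the field `ratio`.
-/

set_option autoImplicit false

namespace Pool.Agent.W_7d29a1_C1.Q49

open Finset MeasureTheory Filter
open Pool.Agent.W_7d29a1_F hiding Bw G
open Pool.Agent.W_7d29a1_h4g Pool.Agent.W_7d29a1_H Pool.Agent.W_7d29a1_HS
open Pool.Agent.W_7d29a1_C1.H60
open Pool.Agent.W_7d29a1_C1.G37 (Gm Wok gmW)
open Pool.Agent.W_7d29a1_C1.SF98
open Pool.Agent.W_7d29a1_C1.P25
open Pool.Agent.W_7d29a1_C1.N49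
open Pool.Agent.W_7d29a1_C1.D98
open Pool.Agent.W_7d29a1_C1.SD53
open Pool.Agent.W_7d29a1_C1.WO57
open Pool.Agent.W_7d29a1_C1.Cs2
open scoped ENNReal

noncomputable section

/-- **THE FIELD `ratio` AT GIVEN NUMBERS.** -/
def RatP52 (μ : Measure ℝ) (s c kw V ρ Q y sgm R₂ xF : ℝ) : Prop :=
  ∀ {P : Pre} {D : Dat} {N : NmF} {F : Cf98}, P.kw = kw → F.sgm = sgm → F.R2 = R₂ → R₂ ≤ F.R1 → F.V₁ = V → F.Re = ρ → F.Qe = Q →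
    F.Uw ≤ y → OkE41 P D μ s N (F.nr μ s c) →
    Evn P D μ s fun _ _ _ _ _ Γ G mt τ0 E => ∀ u, τ0 < u → u < G.M → ∀ κ : KS Γ G mt u,
      ∀ ω ∈ Tx ((Fam98o μ s c P N F).TT Γ G E) (fun u => E u / 16) u κ.1, ∀ ξ,
        G.R u κ.1 ξ ω ∈ TP98 μ s c Γ G (N Γ G E) (F.nr μ s c Γ G E) u κ.1 →
        O22.Pr Γ (G.ra u κ.1 - 1) (G.re u κ.1) (O22.Bw G u κ.1) (xF * E u) ω (G.R u κ.1 ξ ω)

/-- What the six numbers before `R2` satisfy. -/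
def RatC52 (c : ℝ) (a : ℝ × ℝ × ℝ × ℝ × ℝ × ℝ) : Prop :=
  0 ≤ a.1 ∧ 0 ≤ a.2.1 ∧ 0 ≤ a.2.2.1 ∧ 0 ≤ a.2.2.2.1 ∧ 0 ≤ a.2.2.2.2.1 ∧ 0 ≤ a.2.2.2.2.2 ∧ a.2.2.2.2.2 ≤ c / 80

variable {μ : Measure ℝ} {s c C : ℝ} {n₀ : ℕ}

/-- The thresholds as functions. -/
theorem ratF52 [IsProbabilityMeasure μ] (hI : In μ s c C n₀)
    (hE9 : ∀ᶠ n : ℕ in Filter.atTop, (n : ℝ) ^ (1 / 9 : ℝ) ≤ EE μ s n) :
    ∃ (f : ℝ × ℝ × ℝ × ℝ × ℝ × ℝ → ℝ) (g : ℝ × ℝ × ℝ × ℝ × ℝ × ℝ → ℝ → ℝ), ∀ a, RatC52 c a → ∀ R₂, f a ≤ R₂ → ∀ x, g a R₂ ≤ x →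
      RatP52 μ s c a.1 a.2.1 a.2.2.1 a.2.2.2.1 a.2.2.2.2.1 a.2.2.2.2.2 R₂ x := by
  classical
  have key : ∀ a : ℝ × ℝ × ℝ × ℝ × ℝ × ℝ, ∃ R₀ : ℝ, RatC52 c a → ∀ R₂, R₀ ≤ R₂ → ∃ Cd : ℝ, ∀ x, Cd ≤ x →
      RatP52 μ s c a.1 a.2.1 a.2.2.1 a.2.2.2.1 a.2.2.2.2.1 a.2.2.2.2.2 R₂ x := by
    intro a
    by_cases h : RatC52 c a
    · obtain ⟨R₀, H⟩ := ratQ52 hI hE9 h.1 h.2.1 h.2.2.1 h.2.2.2.1 h.2.2.2.2.1 h.2.2.2.2.2.1 h.2.2.2.2.2.2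
      refine ⟨R₀, fun _ R₂ hR => ?_⟩
      obtain ⟨Cd, H⟩ := H R₂ hR
      exact ⟨Cd, fun x hx P D N F h1 h2 h3 h4 h5 h6 h7 h8 h9 => H x hx h1 h2 h3 h4 h5 h6 h7 h8 h9⟩
    · exact ⟨0, fun h' => absurd h' h⟩
  choose f hf using key
  have key2 : ∀ (a : ℝ × ℝ × ℝ × ℝ × ℝ × ℝ) (R₂ : ℝ), ∃ Cd : ℝ, RatC52 c a → f a ≤ R₂ → ∀ x, Cd ≤ x →
      RatP52 μ s c a.1 a.2.1 a.2.2.1 a.2.2.2.1 a.2.2.2.2.1 a.2.2.2.2.2 R₂ x := by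
    intro a R₂
    by_cases h : RatC52 c a ∧ f a ≤ R₂
    · obtain ⟨Cd, H⟩ := hf a h.1 R₂ h.2
      exact ⟨Cd, fun _ _ => H⟩
    · exact ⟨0, fun h1 h2 => absurd ⟨h1, h2⟩ h⟩
  choose g hg using key2
  exact ⟨f, g, fun a ha R₂ hR x hx => hg a R₂ ha hR x hx⟩

/-- **THE FIELD `ratio` OVER THE FILTER OF THE CONSTANTS.** -/
theorem ratZ52 [IsProbabilityMeasure μ] (hI : In μ s c C n₀) (hE9 : ∀ᶠ n : ℕ in Filter.atTop, (n : ℝ) ^ (1 / 9 : ℝ) ≤ EE μ s n)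
    (S : Is → Cst → Prop) : ∃ xF : Cst → ℝ, ∀ᶠ K in FC S, ∀ x, xF (K.cut .Kl) ≤ x →
      RatP52 μ s c K.kw K.V1 K.Re K.Qe K.Uw K.sgm K.R2 x := by
  obtain ⟨f, g, H⟩ := ratF52 hI hE9
  have hc : 0 < c / 80 := by have := hI.c0; linarith
  refine ⟨fun K => g (K.kw, K.V1, K.Re, K.Qe, K.Uw, K.sgm) K.R2, ?_⟩
  filter_upwards [FC.V1_ge S fun _ => 0, FC.Uw_ge S fun _ => 0, FC.sgm_le S (fun _ => c / 80) (fun _ => hc), FC.kw_ge S fun _ => 0,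
    FC.Re_ge S fun _ => 0, FC.Qe_ge S fun _ => 0, FC.R2_ge S fun K => f (K.kw, K.V1, K.Re, K.Qe, K.Uw, K.sgm)] with K h1 h2 h3 h4 h5 h6 h7
  intro x hx
  exact H (K.kw, K.V1, K.Re, K.Qe, K.Uw, K.sgm) ⟨h4, h1, h5, h6, h2, h3.1.le, h3.2⟩ K.R2 h7 x hx

end

end Pool.Agent.W_7d29a1_C1.Q49
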