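import Pool.Agent.W_7d29a1_C1.WqT98
import Pool.Agent.W_7d29a1_C1.SepC3
import Pool.Agent.W_7d29a1_C1.SepS2
import Pool.Agent.W_7d29a1_C1.MoC32
import Pool.Agent.W_7d29a1_C1.NmD15
import Pool.Agent.W_7d29a1_C1.CorP18
import Pool.Agent.W_7d29a1_C1.WrZ52
import Pool.Agent.W_7d29a1_C1.SiC62

/-!
MP_7d29a1_pr, [C1] attractor route, SEP: `WQ19` OVER THE RECORD OF THE CONSTANTS (the input `hW` of helper19's `lfC19`). (helper98)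

`Ev98 μ s c ε kap C part` : the part holds in all windows above a threshold, at the record. Parts: core, ratio, lanes, site / st, exc.
* `num98`, `lane98` : the numbers of the gate and of the lane; `okE98` : `OkE41`;
* **`wqJ98`** : `WQ28` of one window at the record; **`wqE98`** : `EvC (Evn (WQ19 ..))` from the parts.
-/

set_option autoImplicit false

namespace Pool.Agent.W_7d29a1_C1.Q49

open Finset MeasureTheory Filter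
open Pool.Agent.W_7d29a1_F hiding Bw G
open Pool.Agent.W_7d29a1_h4g Pool.Agent.W_7d29a1_H Pool.Agent.W_7d29a1_HS
open Pool.Agent.W_7d29a1_C1.K91 (wt wt_pos)
open Pool.Agent.W_7d29a1_C1.K91P (bw)
open Pool.Agent.W_7d29a1_C1.U16 (ker)
open Pool.Agent.W_7d29a1_C1.H60
open Pool.Agent.W_7d29a1_C1.G37 (Gm Wok gmW)
open Pool.Agent.W_7d29a1_C1.S71 (gl)
open Pool.Agent.W_7d29a1_C1.Gt66 (Pa Ex66)
open Pool.Agent.W_7d29a1_C1.P24 (Ce24 mem_Ce24)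
open Pool.Agent.W_7d29a1_C1.PW58
open Pool.Agent.W_7d29a1_C1.SF98
open Pool.Agent.W_7d29a1_C1.P25
open Pool.Agent.W_7d29a1_C1.N49
open Pool.Agent.W_7d29a1_C1.D98
open Pool.Agent.W_7d29a1_C1.SD53
open Pool.Agent.W_7d29a1_C1.WO57
open Pool.Agent.W_7d29a1_C1.WrS19
open Pool.Agent.W_7d29a1_C1.WrM19
open Pool.Agent.W_7d29a1_C1.Nm15
open Pool.Agent.W_7d29a1_C1.Cs2
open Pool.Agent.W_7d29a1_C1.MC71 (Inn GwIn)
open Pool.Agent.W_7d29a1_C1.MM28 (WQ28 NQ28 Fb28)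
open Pool.Agent.W_7d29a1_C1.NM32 (nq32 Nb32 Wp32 wq32 Mo32 xM32 yM32 gM32 zM32 z0C32 two_le_z0 moC32)
open Pool.Agent.W_7d29a1_C1.Gt52 (yN52)
open Pool.Agent.W_7d29a1_C1.E2H97 (OuTl OuG97)
open Pool.Agent.W_7d29a1_C1.Luc30 (gx30 mx30 yx30)
open scoped ENNReal

noncomputable section

attribute [local instance 10] Classical.propDecidable

variable {μ : Measure ℝ} {s c Cc ε : ℝ} {n₀ : ℕ}

/-- `Ew98` at the record. -/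
abbrev Ev98 (μ : Measure ℝ) (s c ε kap : ℝ) (C : Cst) (φ : Cx → Gm → ℕ → ℕ → (ℕ → ℝ) → ℕ → ℤ × ℤ → Prop) : Prop :=
  Ew98 μ s c kap C.P (C.Nm μ s c ε) C.cf φ

/-- The typical contents at the record. -/
abbrev Tx98 (μ : Measure ℝ) (s c ε : ℝ) (C : Cst) (Γ : Cx) (G : Gm) (E : ℕ → ℝ) (u : ℕ) (κ : ℤ × ℤ) : Set Env :=
  Tx ((Fam98o μ s c C.P (C.Nm μ s c ε) C.cf).TT Γ G E) (fun u => E u / 16) u κ

/-! ### The numbers of the gate and of the lane -/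

/-- **THE NUMBERS OF THE GATE.** -/
theorem num98 : EvC (S0 μ s c Cc ε) fun C => ∀ kap, Ev98 μ s c ε kap C fun Γ G _ _ E u _ =>
    (C.g ε).Nt μ s c (G.T u) ((C.Nm μ s c ε Γ G E).n u) ((C.Nm μ s c ε Γ G E).m u) ((C.Nm μ s c ε Γ G E).K1 u)
      ((C.Nm μ s c ε Γ G E).K2 u) := by
  filter_upwards [ok2 (μ := μ) (s := s) (c := c) (Cc := Cc) (ε := ε)] with C h kap
  obtain ⟨n₁, H⟩ := h
  exact Ew98.of_T n₁ fun Γ G mt τ0 E u κ W hT => nm15_num (l := C.l) H hT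

/-- **THE LANE.** -/
theorem lane98 : EvC (S0 μ s c Cc ε) fun C => ∀ (m : ℕ) (kap : ℝ), Ev98 μ s c ε kap C fun Γ G _ _ E u _ =>
    m ≤ (C.Nm μ s c ε Γ G E).T u ∧ Sc58 μ s C.jl ((C.Nm μ s c ε Γ G E).T u) (G.T u) ∧ G.T u ≤ 2 * C.jl * (C.Nm μ s c ε Γ G E).T u := by
  filter_upwards [lane2 (μ := μ) (s := s) (c := c) (Cc := Cc) (ε := ε), sg2 (μ := μ) (s := s) (c := c) (Cc := Cc) (ε := ε)] with C h hs m kap
  obtain ⟨T₁, H⟩ := h m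
  have hN : 1 ≤ C.l.N := hs.N0.trans hs.N0N
  have hj : 1 ≤ C.l.jl := hs.jl1
  refine Ew98.of_T (max T₁ (C.l.jl * C.l.N)) fun Γ G mt τ0 E u κ W hT => ?_
  obtain ⟨h1, h2, h3⟩ := H (G.T u) ((le_max_left _ _).trans hT)
  exact ⟨h1.trans (Nat.le_mul_of_pos_left _ hN), h3, le_nr15 hN hj ((le_max_right _ _).trans hT)⟩

/-- **`OkE41` AT THE RECORD.** -/
theorem okE98 : EvC (S0 μ s c Cc ε) fun C => ∀ D : Dat, OkE41 C.P D μ s (C.Nm μ s c ε) (C.cf.nr μ s c) := by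
  filter_upwards [ok2 (μ := μ) (s := s) (c := c) (Cc := Cc) (ε := ε), sg2 (μ := μ) (s := s) (c := c) (Cc := Cc) (ε := ε),
    evP40 (S0 μ s c Cc ε), FC.j0_ge (S0 μ s c Cc ε) fun _ => 40, FC.jl0_ge (S0 μ s c Cc ε) fun _ => 16,
    FC.R1_ge (S0 μ s c Cc ε) fun p => p.kw + 3] with C h hs hP hj hl hR D
  obtain ⟨n₁, H⟩ := h
  have hR' : C.kw + 3 ≤ C.R1 := hR
  have hj' : 40 ≤ C.j0 := hj
  have hl' : 16 ≤ C.jl0 := hl
  refine okE15 (l := C.l) H (hj'.trans hs.j0) (hl'.trans hs.jl0) fun Γ G E u => ?_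
  show C.P.kw + 2 ≤ C.R1 - 1
  rw [P_kw hP]
  linarith

/-- A smaller constant of the tilt. -/
theorem Ew98.monoK [IsProbabilityMeasure μ] {kap kap' : ℝ} {P : Pre} {N : NmF} {F : Cf98}
    {φ : Cx → Gm → ℕ → ℕ → (ℕ → ℝ) → ℕ → ℤ × ℤ → Prop} (h : Ew98 μ s c kap' P N F φ) (hk : kap ≤ kap') : Ew98 μ s c kap P N F φ := by
  obtain ⟨a, ha⟩ := h
  exact ⟨a, fun Γ G mt τ0 E u κ W => ha _ _ _ _ _ _ _ ⟨W.w.monoK hk, W.aS, W.kb, W.nosw, W.tc⟩⟩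

/-! ### The core -/

/-- **THE FIELD `core` AT THE RECORD.** -/
theorem coC98 [IsProbabilityMeasure μ] (hI : In μ s c Cc n₀) : EvC (S0 μ s c Cc ε) fun C =>
    Ev98 μ s c ε (c / 8) C fun Γ G _ _ E u κ => CoP98 μ s Γ G (C.Nm μ s c ε Γ G E) u κ (Tx98 μ s c ε C Γ G E u κ) := by
  have hc := hI.c0
  have key : ∀ C : Cst, ∃ kc₀ : ℝ, 0 ≤ C.qF → 0 ≤ C.sgm → C.sgm ≤ c / 80 → 0 ≤ C.bS → C.bS + 5 ≤ C.rc → ∀ kc : ℝ, kc₀ ≤ kc → ∃ n₁ : ℕ,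
      ∀ {P : Pre} {N : NmF} {F : Cf98} {Γ : Cx} {G : Gm} {mt τ0 : ℕ} {E : ℕ → ℝ} {u : ℕ} {κ : ℤ × ℤ} {kw : ℝ},
        (N Γ G E).PF = C.PF → (N Γ G E).th = 1 / 8 → (N Γ G E).KF = 4 → (N Γ G E).qF = C.qF → P.bS = C.bS → P.βc = 1 / 16 → F.V₁ = C.V1 →
        F.sgm = C.sgm → F.rc = C.rc → Win52 μ s kw (c / 8) n₁ (N Γ G E) (F.nr μ s c Γ G E) Γ G mt τ0 E u κ → G.w u / 2 + 1 ≤ P.aS * G.w u →
        ∀ {r g U₀ Q₀ U₁' Q₁ U' Q A B Y p ε : ℝ} {j K1h M K2h n₂ : ℕ},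
        NumT58 μ s c kc r g j K1h M K2h U₀ Q₀ U₁' Q₁ U' Q A B Y p ε n₂ (G.T u) ((N Γ G E).n u) ((N Γ G E).m u) ((N Γ G E).K1 u)
          ((N Γ G E).K2 u) →
        ∀ {T : Set Env}, (∀ ω ∈ T, Tc98 μ s c P N F Γ G E u κ ω) → CoP98 μ s Γ G (N Γ G E) u κ T := by
    intro C
    by_cases h : 0 ≤ C.qF ∧ 0 ≤ C.sgm ∧ C.sgm ≤ c / 80 ∧ 0 ≤ C.bS ∧ C.bS + 5 ≤ C.rc
    · obtain ⟨h1, h2, h3, h4, h5⟩ := h
      obtain ⟨n₁, -, H⟩ := coP18 hI C.PF (θ := 1 / 8) (K := 4) le_rfl (by norm_num) (by norm_num)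
      obtain ⟨kc₀, H⟩ := H C.V1 C.qF C.sgm C.bS C.rc h1 h2 h3 h4 h5
      exact ⟨kc₀, fun _ _ _ _ _ kc hkc => ⟨n₁, fun {P N F Γ G mt τ0 E u κ kw} => H kc hkc⟩⟩
    · exact ⟨0, fun h1 h2 h3 h4 h5 => absurd ⟨h1, h2, h3, h4, h5⟩ h⟩
  choose kc₀ H using key
  filter_upwards [num98 (μ := μ) (s := s) (c := c) (Cc := Cc) (ε := ε), evP40 (S0 μ s c Cc ε), FC.qF_ge (S0 μ s c Cc ε) fun _ => 0,
    FC.sgm_le (S0 μ s c Cc ε) (fun _ => c / 80) (fun _ => by positivity), FC.bS_ge (S0 μ s c Cc ε) fun _ => 0,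
    FC.rc_ge (S0 μ s c Cc ε) fun p => p.bS + 5, FC.kc_ge (S0 μ s c Cc ε) kc₀] with C hn hP hq hs hb hr hk
  obtain ⟨n₁, K⟩ := H (C.cut .kc) hq hs.1.le hs.2 hb hr C.kc hk
  obtain ⟨n₂, hn⟩ := hn (c / 8)
  refine ⟨max n₁ n₂, fun Γ G mt τ0 E u κ W => ?_⟩
  exact K (P := C.P) (N := C.Nm μ s c ε) (F := C.cf) rfl rfl rfl rfl (P_bS hP) (P_βc hP) rfl rfl rfl (W.w.mono (le_max_left _ _)) W.aS
    (hn _ _ _ _ _ _ _ (W.mono (le_max_right _ _))) W.tc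

/-! ### The letters -/

/-- The level of the profile of the lanes (radius `r0`), unit `EE (T_r)`. -/
def Q98 (C : Cst) : ℝ := 4 * C.jl * (C.sgm * C.r0 + 1)

/-- The exponent of the third clause of the gate. -/
def g98 (C : Cst) : ℝ := C.sgm * C.R0 + 1 / 16 + 4 + 1 / 2 + (C.Uc + C.Qc)

/-- The weight of a target. -/
def m98 (xF : Cst → ℝ) (C : Cst) : ℝ := 1 / 16 + 4 * xF C

/-- The exponent of the field `site`. -/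
def e98 (c : ℝ) (xF : Cst → ℝ) (C : Cst) : ℝ := Sz62.e62 c (xF C) C.Qg (C.sgm * C.R2) C.bS

/-- The exponents `zs = zx`. -/
def z98 (c Cc : ℝ) (xF : Cst → ℝ) (C : Cst) : ℝ := z0C32 c Cc (Q98 C) (4 * C.jl * m98 xF C) (4 * C.jl * e98 c xF C) C

theorem m98_cut {xF : Cst → ℝ} (lx : ∀ C : Cst, xF (C.cut .LB) = xF C) (C : Cst) : m98 xF (C.cut .LB) = m98 xF C := by
  unfold m98
  rw [lx C]

theorem e98_cut {xF : Cst → ℝ} (lx : ∀ C : Cst, xF (C.cut .LB) = xF C) (C : Cst) : e98 c xF (C.cut .LB) = e98 c xF C := by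
  unfold e98
  rw [lx C]
  rfl

theorem cut_R1 {xF : Cst → ℝ} (lx : ∀ C : Cst, xF (C.cut .LB) = xF C) (C : Cst) : xF (C.cut .R1) = xF C := by
  have h1 := lx (C.cut .R1)
  rw [← h1, ← lx C]
  rfl

theorem z98_cut {xF : Cst → ℝ} (lx : ∀ C : Cst, xF (C.cut .LB) = xF C) (C : Cst) : z98 c Cc xF (C.cut .R1) = z98 c Cc xF C := by
  unfold z98 m98 e98
  rw [cut_R1 lx C]
  rfl

theorem z98_cutkb {xF : Cst → ℝ} (lx : ∀ C : Cst, xF (C.cut .LB) = xF C) (C : Cst) : z98 c Cc xF (C.cut .kb) = z98 c Cc xF C := by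
  have h1 : xF (C.cut .kb) = xF C := by
    have h1 := lx (C.cut .kb)
    rw [← h1, ← lx C]
    rfl
  unfold z98 m98 e98
  rw [h1]
  rfl

theorem e98_nonneg {xF : Cst → ℝ} {C : Cst} (hc : 0 < c) (hx : 0 ≤ xF C) (hQ : 0 ≤ C.Qg) (hs : 0 ≤ C.sgm * C.R2) (hb : 0 ≤ C.bS) :
    0 ≤ e98 c xF C := by
  unfold e98 Sz62.e62
  positivity

/-! ### The join at the record -/

/-- **The constant of the tilt.** -/
def kap98 (c : ℝ) (C : Cst) : ℝ := min (c / 8) (1 / (2 * (1 + C.kc + C.R0)))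

theorem kap98_le (c : ℝ) (C : Cst) : kap98 c C ≤ c / 8 := min_le_left _ _

theorem kap98_pos {C : Cst} (hc : 0 < c) (hk : 0 ≤ C.kc) (hR : 0 ≤ C.R0) : 0 < kap98 c C := lt_min (by positivity) (by positivity)

theorem kap98_half {C : Cst} (hk : 0 ≤ C.kc) (hR : 0 ≤ C.R0) : kap98 c C * (C.kc + 1 + (C.R0 - 1)) ≤ 1 / 2 := by
  have h1 : 0 < 1 + C.kc + C.R0 := by positivity
  have h2 : kap98 c C ≤ 1 / (2 * (1 + C.kc + C.R0)) := min_le_right _ _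
  have h3 : kap98 c C * (C.kc + 1 + (C.R0 - 1)) ≤ 1 / (2 * (1 + C.kc + C.R0)) * (1 + C.kc + C.R0) := by
    refine mul_le_mul h2 (by linarith) (by linarith) (by positivity)
  have h4 : 1 / (2 * (1 + C.kc + C.R0)) * (1 + C.kc + C.R0) = 1 / 2 := by field_simp
  linarith

/-- **The ratio of one window**, given in the form `Evn`. -/
def Ra98 (μ : Measure ℝ) (s c ε xF : ℝ) (C : Cst) (Γ : Cx) (G : Gm) (E : ℕ → ℝ) (u : ℕ) (κ : ℤ × ℤ) : Prop :=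
  ∀ ω ∈ Tx98 μ s c ε C Γ G E u κ, ∀ ξ, G.R u κ ξ ω ∈ TP98 μ s c Γ G (C.Nm μ s c ε Γ G E) (C.cf.nr μ s c Γ G E) u κ →
    O22.Pr Γ (G.ra u κ - 1) (G.re u κ) (O22.Bw G u κ) (xF * E u) ω (G.R u κ ξ ω)

/-- **`WQ19` OVER THE RECORD**, from the lanes (`hL`, helper82) and the exit bound (`hX`, helper52). -/
theorem wqE98 [IsProbabilityMeasure μ] (hI : In μ s c Cc n₀) (hE9 : ∀ᶠ n : ℕ in Filter.atTop, (n : ℝ) ^ (1 / 9 : ℝ) ≤ EE μ s n)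
    (hL : EvC (S0 μ s c Cc ε) fun C => ∀ kap, kap ≤ c / 8 → Ev98 μ s c ε kap C fun Γ G _ _ E u κ =>
      LkP98 μ s c Γ G (C.Nm μ s c ε Γ G E) (C.cf.nr μ s c Γ G E) u κ (TF98 μ s c (C.Nm μ s c ε) C.cf Γ G E u κ)
        (xM32 c (Q98 C) C) (yM32 c Cc C) (yM32 c Cc C) (gM32 c Cc C) (zM32 c (Q98 C) C))
    (hX : ∀ zx : Cst → ℝ, (∀ C : Cst, zx (C.cut .kb) = zx C) → EvC (S0 μ s c Cc ε) fun C => ∀ kap, kap ≤ c / 8 →
      Ev98 μ s c ε kap C fun Γ G _ _ E u κ => ExP98 μ s c Γ G (C.Nm μ s c ε Γ G E) (C.cf.nr μ s c Γ G E) u κ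
        (Tx98 μ s c ε C Γ G E u κ) (TF98 μ s c (C.Nm μ s c ε) C.cf Γ G E u κ) (zx C)) :
    ∃ xF : Cst → ℝ, (∀ C : Cst, xF (C.cut .LB) = xF C) ∧ EvC (S0 μ s c Cc ε) fun C => ∀ D : Dat,
      Evn C.P D μ s (WQ19 (Fam98o μ s c C.P (C.Nm μ s c ε) C.cf) C.P μ s c (4 / 3) C.pG (xF C) (ENNReal.ofReal C.pL)) := by
  have hc := hI.c0
  obtain ⟨X, lX, HS⟩ := Sz62.siC62 hI ε
  obtain ⟨xR, HR⟩ := ratZ52 hI hE9 (S0 μ s c Cc ε)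
  obtain ⟨xF, hxF⟩ : ∃ xF : Cst → ℝ, xF = fun C => max 0 (max (X C) (xR (C.cut .Kl))) := ⟨_, rfl⟩
  have lx : ∀ C : Cst, xF (C.cut .LB) = xF C := fun C => by
    rw [hxF]
    show max 0 (max (X (C.cut .LB)) _) = _
    rw [lX C]
    rfl
  have x0 : ∀ C : Cst, 0 ≤ xF C := fun C => by rw [hxF]; exact le_max_left _ _
  have xX : ∀ C : Cst, X C ≤ xF C := fun C => by rw [hxF]; exact (le_max_left _ _).trans (le_max_right _ _)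
  have xRx : ∀ C : Cst, xR (C.cut .Kl) ≤ xF C := fun C => by rw [hxF]; exact (le_max_right _ _).trans (le_max_right _ _)
  refine ⟨xF, lx, ?_⟩
  have lz : ∀ C : Cst, z98 c Cc xF (C.cut .R1) = z98 c Cc xF C := z98_cut lx
  filter_upwards [HS (z98 c Cc xF) lz (c / 8) le_rfl, HR, num98 (μ := μ) (s := s) (c := c) (Cc := Cc) (ε := ε),
    lane98 (μ := μ) (s := s) (c := c) (Cc := Cc) (ε := ε), okE98 (μ := μ) (s := s) (c := c) (Cc := Cc) (ε := ε), coC98 hI, hL,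
    hX (z98 c Cc xF) (z98_cutkb lx), moC32 (S0 μ s c Cc ε) c Cc (fun C => 4 * (C.jl : ℝ)) Q98 (m98 xF) (e98 c xF) g98,
    sg2 (μ := μ) (s := s) (c := c) (Cc := Cc) (ε := ε), evP40 (S0 μ s c Cc ε),
    FC.sgm_le (S0 μ s c Cc ε) (fun _ => c / 80) (fun _ => by positivity), FC.bS_ge (S0 μ s c Cc ε) fun _ => 0,
    FC.kc_ge (S0 μ s c Cc ε) fun _ => 2, FC.R0_ge (S0 μ s c Cc ε) fun _ => 0, FC.kw_ge (S0 μ s c Cc ε) fun p => p.R0,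
    FC.R2_ge (S0 μ s c Cc ε) fun _ => 0, FC.dl_le (S0 μ s c Cc ε) (fun _ => 4) (fun _ => by norm_num),
    FC.R1_ge (S0 μ s c Cc ε) fun p => p.R2]
    with C hSi hRa hnum hlane hok hco hLk hEx hMo sg hP hsg hbS hkc hR0 hkw hR2 hdl hR1 D
  have hkc0 : (0 : ℝ) ≤ C.kc := le_trans (by norm_num) hkc
  have hkw' : C.R0 ≤ C.kw := hkw
  have hR1' : C.R2 ≤ C.R1 := hR1
  have hj : 1 ≤ C.jl := sg.jl1
  have hjr : (1 : ℝ) ≤ C.jl := by exact_mod_cast hj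
  have hk0 := kap98_pos (C := C) hc hkc0 hR0
  have hk1 := kap98_le c C
  have hk2 := kap98_half (c := c) (C := C) hkc0 hR0
  obtain ⟨nt, hnt⟩ := NM32.two_units hI 16 (X := 4 * C.jl) (by omega)
  obtain ⟨nc, hnc⟩ := cr98 sg.cM
  obtain ⟨n₁, H⟩ := (((((hnum (kap98 c C)).and (hlane (max nt nc) (kap98 c C))).and (hco.monoK hk1)).and ((hSi (xF C) (xX C)).monoK hk1)).and
    (hLk (kap98 c C) hk1)).and (hEx (kap98 c C) hk1)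
  refine evnW98 (Φ := fun Γ G _ _ E u κ => Ra98 μ s c ε (xF C) C Γ G E u κ) hI hE9 (hok D) hk0 ?_
    ⟨n₁, fun Γ G mt τ0 E u κ W hΦ => ?_⟩
  · exact hRa (xF C) (xRx C) (P := C.P) (D := D) (N := C.Nm μ s c ε) (F := C.cf) (P_kw hP) rfl rfl hR1' rfl rfl rfl le_rfl (hok D)
  obtain ⟨⟨⟨⟨⟨hN, hT, hSc, hT2⟩, hCo⟩, hSi, hSt⟩, hLk⟩, hEx⟩ := H Γ G mt τ0 E u κ W
  have hF := W.w.ok.fit u W.w.hu
  have hEu := W.w.hE u
  have hE0 := EE_pos (μ := μ) (s := s) (G.T u)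
  obtain ⟨c1, c2, c3, c4, c5⟩ := hnt _ ((le_max_left _ _).trans hT) (G.T u) hSc.nT (by
    refine hT2.trans (Nat.mul_le_mul_right _ ?_)
    omega)
  have hN' : NumT58 μ s c C.kc (C.R0 - 1) C.Gg C.j C.K1h C.M C.K2h C.Uc C.Qc C.U1g C.Q1g C.Ug C.Qg C.Ag C.Bg C.Yg C.pG ε C.n2 (G.T u)
    ((C.Nm μ s c ε Γ G E).n u) ((C.Nm μ s c ε Γ G E).m u) ((C.Nm μ s c ε Γ G E).K1 u) ((C.Nm μ s c ε Γ G E).K2 u) := hN
  have w1 := hN'.sc.w1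
  have wT := hN'.sc.wnT
  have wT1 : 1 ≤ wd μ s (G.T u) := w1.trans wT
  have wr := hSc.w1
  have wrT := hSc.wnT
  have hkc2 : (2 : ℝ) ≤ C.kc := hkc
  have hmo : C.dl / 4 * wd μ s ((C.Nm μ s c ε Γ G E).T u) + 1 ≤ (C.Nm μ s c ε Γ G E).K1 u * wd μ s ((C.Nm μ s c ε Γ G E).n u) := by
    have h1 : C.dl / 4 * wd μ s ((C.Nm μ s c ε Γ G E).T u) ≤ 1 * wd μ s (G.T u) :=
      mul_le_mul (by linarith [hdl.2]) wrT (zero_le_one.trans wr) zero_le_one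
    have h2 : 2 * wd μ s (G.T u) ≤ C.kc * wd μ s (G.T u) := mul_le_mul_of_nonneg_right hkc2 (zero_le_one.trans wT1)
    have h3 := hN'.kc_le
    linarith
  have hδ : 0 ≤ C.dl / 4 * wd μ s ((C.Nm μ s c ε Γ G E).T u) :=
    mul_nonneg (by linarith [hdl.1]) (zero_le_one.trans wr)
  have hb : 2 * (C.sgm * C.R0 + 1 / 16) + 8 + 2 * (kap98 c C * (C.kc + 1 + (C.R0 - 1))) + (C.Uc + C.Qc) ≤ C.Gg := by
    unfold Cst.Gg
    have := hsg.1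
    nlinarith
  have gw := gw98 hI W (kc := C.kc) (R := C.R0 - 1) (G₀ := C.Gg) (j := C.j) (M := C.M) (A := C.Ag) (B := C.Bg) (p₀ := C.pG) (ε := ε)
    (n₂ := C.n2) hN' sg.Ug (add_nonneg sg.Uc sg.Qc) sg.pG (by rw [P_kw hP]; linarith) (by show C.R0 - 1 + 1 ≤ C.R0; linarith) hmo hδ hLk hb
  have rt : Mo32 (4 * C.jl * m98 xF C) (4 * C.jl * e98 c xF C) (4 * C.jl * g98 C) (xM32 c (Q98 C) C) (yM32 c Cc C) (yM32 c Cc C)
      (gM32 c Cc C) (zM32 c (Q98 C) C) (z98 c Cc xF C) (z98 c Cc xF C) := by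
    have h := hMo.2 (z98 c Cc xF C) (z98 c Cc xF C)
    rw [m98_cut lx C, e98_cut lx C] at h
    exact h le_rfl le_rfl
  have z0 : 0 ≤ z98 c Cc xF C := le_trans (by norm_num) (two_le_z0 _ _ _ _ _ _)
  have hsR : 0 ≤ C.sgm * C.R0 := mul_nonneg hsg.1.le hR0
  have e0 : 0 ≤ e98 c xF C := e98_nonneg hc (x0 C) sg.Qg (mul_nonneg hsg.1.le hR2) hbS
  have m0 : 0 ≤ m98 xF C := by
    unfold m98
    linarith [x0 C]
  have g0 : 0 ≤ g98 C := by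
    unfold g98
    linarith [sg.Uc, sg.Qc]
  have hra : ∀ ω ∈ Tx98 μ s c ε C Γ G E u κ, ∀ ξ, G.R u κ ξ ω ∈ TF98 μ s c (C.Nm μ s c ε) C.cf Γ G E u κ →
      O22.Pr Γ (G.ra u κ - 1) (G.re u κ) (O22.Bw G u κ) (xF C * E u) ω (G.R u κ ξ ω) := fun ω hω ξ hξ => hΦ ω hω ξ hξ.1
  refine ⟨_, _, _, _, _, _, _, _, _, wq98 (U := 4 * C.jl) (m := m98 xF C) (g3 := g98 C)
    (wp98 hF W.w.reN gw (fun ω hω => sub98 (W.tc ω hω)) hCo hra hSi hLk hSt hEx) hF c2 c3 ?_ m0 e0 g0 z0 z0 rt ?_ ?_ ?_ c5⟩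
  · have h1 := c4
    push_cast at h1
    exact h1
  · rw [P_ε0 hP, hEu]
    exact le_rfl
  · have h1 : C.sgm * C.R0 * E u + E u / 16 ≤ (C.sgm * C.R0 + 1 / 16) * EE μ s (G.T u) := by
      rw [hEu]
      exact le_of_eq (by ring)
    have h2 := yN98 (μ := μ) (s := s) (G := G) (Q := C.Nm μ s c ε Γ G E) (u := u) (r := kap98 c C * (C.kc + 1 + (C.R0 - 1))) h1 hN'.sc.EnT
      (add_nonneg sg.Uc sg.Qc)
    refine h2.trans (mul_le_mul_of_nonneg_right ?_ hE0.le)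
    show C.sgm * C.R0 + 1 / 16 + 4 + kap98 c C * (C.kc + 1 + (C.R0 - 1)) + (C.Uc + C.Qc) ≤ g98 C
    unfold g98
    linarith
  · exact hnc _ ((le_max_right _ _).trans hT)

end

end Pool.Agent.W_7d29a1_C1.Q49
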