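import Pool.Agent.W_7d29a1_C1.WqC98
import Pool.Agent.W_7d29a1_C1.LkC82
import Pool.Agent.W_7d29a1_C1.Tilt57B
import Pool.Agent.W_7d29a1_C1.ExC97

/-!
MP_7d29a1_pr, [C1] attractor route, SEP: THE LEAF `WQ19` OF `LastQ2`. (helper98)

`lk98C` : the lanes (helper82's `lkE82`); the exit part is helper97's `exC97` (over helper22's `exp22`);
**`wqD98`** : `WQ19` of the whole scale at the record, from `In` alone (field `wq` of `Opn91`); **`wqY98`** : helper40's `WqY40`.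
-/

set_option autoImplicit false

namespace Pool.Agent.W_7d29a1_C1.Q49

open MeasureTheory Filter
open Pool.Agent.W_7d29a1_F hiding Bw G
open Pool.Agent.W_7d29a1_h4g Pool.Agent.W_7d29a1_H Pool.Agent.W_7d29a1_HS
open Pool.Agent.W_7d29a1_C1.H60
open Pool.Agent.W_7d29a1_C1.N49
open Pool.Agent.W_7d29a1_C1.SF98
open Pool.Agent.W_7d29a1_C1.D98
open Pool.Agent.W_7d29a1_C1.Cs2
open Pool.Agent.W_7d29a1_C1.WrS19
open Pool.Agent.W_7d29a1_C1.WrM19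
open Pool.Agent.W_7d29a1_C1.NM32
open Pool.Agent.W_7d29a1_C1.LkC82 (lkE82)
open scoped ENNReal

noncomputable section

variable {μ : Measure ℝ} [IsProbabilityMeasure μ] {s c Cc : ℝ} {n₀ : ℕ}

/-- **THE LANES AT THE RECORD.** -/
theorem lk98C (hI : In μ s c Cc n₀) (ε : ℝ) : EvC (S0 μ s c Cc ε) fun C => ∀ kap, kap ≤ c / 8 →
    Ev98 μ s c ε kap C fun Γ G _ _ E u κ =>
      LkP98 μ s c Γ G (C.Nm μ s c ε Γ G E) (C.cf.nr μ s c Γ G E) u κ (TF98 μ s c (C.Nm μ s c ε) C.cf Γ G E u κ)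
        (xM32 c (Q98 C) C) (yM32 c Cc C) (yM32 c Cc C) (gM32 c Cc C) (zM32 c (Q98 C) C) :=
  (lkE82 hI (Q := Q98) (fun _ => le_rfl) (fun _ => rfl)).mono fun C H => H C.cf rfl rfl

/-- **THE LEAF `WQ19`, FROM `In` ALONE** (helper92's form (1), the field `wq` of helper91's `Opn91`). -/
theorem wqD98 (hI : In μ s c Cc n₀) (D : Dat) (ε : ℝ) : ∃ xF : Cst → ℝ, EvC (S0 μ s c Cc ε) fun C =>
    Evn C.P D μ s (WQ19 (Fam98o μ s c C.P (C.Nm μ s c ε) C.cf) C.P μ s c (4 / 3) C.pG (xF C) (ENNReal.ofReal C.pL)) := by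
  obtain ⟨xF, -, H⟩ := wqE98 hI (Tl57.ee9_57 hI) (lk98C hI ε) fun zx h => exC97 hI zx h
  exact ⟨xF, H.mono fun C h => h D⟩

/-- **THE LEAF `WQ19`, FROM `In` ALONE** (helper40's `WqY40`). -/
theorem wqY98 (hI : In μ s c Cc n₀) (a Cg : ℝ) :
    ∃ K₀ : ℕ, ∀ D : Dat, K₀ ≤ D.K → D.κ = (D.K : ℝ) ^ a → D.Cg = Cg → ∀ ε : ℝ, 0 < ε → ∃ xF : Cst → ℝ,
      EvC (S0 μ s c Cc ε) fun C => Evn C.P D μ s (WQ19 (C.famo μ s c ε) C.P μ s c (4 / 3) C.pG (xF C) (ENNReal.ofReal C.pL)) :=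
  ⟨0, fun D _ _ _ ε _ => wqD98 hI D ε⟩

end

end Pool.Agent.W_7d29a1_C1.Q49
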