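import Pool.Agent.W_7d29a1_C1.WrS19
import Pool.Agent.W_7d29a1_C1.MovQ28

/-!
Both halves (MP_7d29a1_pr), attractor route [C1], SEP: THE SLOTS `cmpA`, `M3A` OF `Lf49` IN THE FORM `Evn`. (helper19)

`WQ19`: what the window must give at one value of the constants = one record `WQ28` (MovQ28) for every window with a nonempty typical
set, with `dF u = cF E u` and `E := (ε0 + 4 cF) E u`. `cmpA19`, `m3A19`: the slots.
-/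

set_option autoImplicit false

namespace Pool.Agent.W_7d29a1_C1.WrM19

open Finset MeasureTheory
open Pool.Agent.W_7d29a1_F Pool.Agent.W_7d29a1_h4g Pool.Agent.W_7d29a1_H Pool.Agent.W_7d29a1_HS
open Pool.Agent.W_7d29a1_C1.H60
open Pool.Agent.W_7d29a1_C1.Gt66 (Pa)
open Pool.Agent.W_7d29a1_C1.H40 (Tk)
open Pool.Agent.W_7d29a1_C1.G37 (Gm Wok gmW)
open Pool.Agent.W_7d29a1_C1.H49 (Par ex Hf Hs rat cnt)
open Pool.Agent.W_7d29a1_C1.SF98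
open Pool.Agent.W_7d29a1_C1.P25
open Pool.Agent.W_7d29a1_C1.N49
open Pool.Agent.W_7d29a1_C1.Q49
open Pool.Agent.W_7d29a1_C1.MC71 (CwIn Inn K71)
open Pool.Agent.W_7d29a1_C1.MM28
open Pool.Agent.W_7d29a1_C1.WrS19
open scoped ENNReal

noncomputable section

/-- **WHAT THE WINDOW GIVES**, one value of the constants: one record `WQ28` for every window. -/
def WQ19 (F : Fam) (P : Pre) (μ : Measure ℝ) (s cr C₀ p₀ cF : ℝ) (c₁ : ℝ≥0∞) : Phi := fun _q _η _A _lam _n Γ G mt τ0 E =>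
  ∀ u, τ0 < u → u < G.M → ∀ κ : KS Γ G mt u, (Tx (F.TT Γ G E) (fun u => E u / 16) u κ.1).Nonempty → ∃ (N : NQ28) (B₂ : Set Pt)
      (Cw : Pa (5 * N.n) → Pa (5 * N.n) → Set Env) (TF : Set Env) (Lk : Env → Set Env) (Mi Mo C1 C2 : Set ℤ),
      WQ28 μ s cr Γ G u κ.1 N B₂ Cw (Tx (F.TT Γ G E) (fun u => E u / 16) u κ.1) TF (F.L Γ G E u κ.1) Lk Mi Mo C1 C2 C₀ p₀
        ((P.ε0 + 4 * cF) * E u) (cF * E u) c₁

variable {P : Pre} {D : Dat} {μ : Measure ℝ} {s : ℝ} {F : Fam} {cr C₀ p₀ cF : ℝ} {c₁ : ℝ≥0∞}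

/-- **THE SLOT `cmpA`.** -/
theorem cmpA19 [IsProbabilityMeasure μ] {Cr' : ℝ} {n₀ : ℕ} (hI : In μ s cr Cr' n₀) (hC : 0 < C₀) (hp : 0 < p₀)
    (hcc : ENNReal.ofReal P.c' * K71 C₀ p₀ ≤ c₁) (h : Evn P D μ s (WQ19 F P μ s cr C₀ p₀ cF c₁)) :
    Evn P D μ s (Cm F P μ) := by
  refine h.monoG fun q m2 η A lam m0 g1 e0 c₂ δ κ n Γ T0 M mt τ0 hc hW hη hA he0 h1 h2 h3 h4 h5 hg hG hI' => ?_
  exact cmpQ28 hI hc.adm.ok hC hp hcc (E := fun u => (P.ε0 + 4 * cF) * EE μ s (Tk T0 D.K u))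
    (dF := fun u => cF * EE μ s (Tk T0 D.K u)) (fun t i _ => hG.ok.st_ge t i) hI'

/-- **THE SLOT `M3A`.** -/
theorem m3A19 [IsProbabilityMeasure μ] {Cr' : ℝ} {n₀ : ℕ} (hI : In μ s cr Cr' n₀) (hp : 0 < p₀) (h0 : c₁ ≠ 0) (h1 : c₁ ≠ ⊤)
    (hK : KM28 C₀ p₀ c₁ ≤ P.C1) (hm : Evn P D μ s (TTm F)) (h : Evn P D μ s (WQ19 F P μ s cr C₀ p₀ cF c₁)) :
    Evn P D μ s (M3 F P μ) := by
  refine (hm.and h).monoG fun q m2 η A lam m0 g1 e0 c₂ δ κ n Γ T0 M mt τ0 hc hW hη hA he0 h2 h3 h4 h5 h6 hg hG hh => ?_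
  obtain ⟨⟨hmeas, hmono⟩, hI'⟩ := hh
  refine m3Q28 hI hc.adm.ok hp h0 h1 hK hmeas
    (fun u κ' => hmono _ _ _ _ ((add_le_add le_rfl (dA_le hG.num.d_nonneg ∅ u)).trans (hG.num.smax_ge u)))
    (E := fun u => (P.ε0 + 4 * cF) * EE μ s (Tk T0 D.K u)) (dF := fun u => cF * EE μ s (Tk T0 D.K u))
    (fun t i _ => hG.ok.st_ge t i) (fun t i hti u hu => ?_) hI'
  have h6 := hG.ok.be_le t i hti.1 hti.2.1 u (mem_Ico.1 hu).1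
  have e1 : (P.ε0 + 4 * cF) * EE μ s (Tk T0 D.K u) = P.ε0 * EE μ s (Tk T0 D.K u) + 4 * (cF * EE μ s (Tk T0 D.K u)) := by ring
  show beN η A P.Cb (fun u => EE μ s (Tk T0 D.K u)) m2 (Ln n) t i + 4 * (cF * EE μ s (Tk T0 D.K u)) ≤ _
  rw [e1]
  have h7 : beN η A P.Cb (fun u => EE μ s (Tk T0 D.K u)) m2 (Ln n) t i ≤ P.ε0 * EE μ s (Tk T0 D.K u) := h6
  linarith

/-- The number `C1`. -/
theorem C1_19 (h0 : c₁ ≠ 0) : KM28 C₀ p₀ c₁ ≠ ⊤ := KM28_top h0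

end

end Pool.Agent.W_7d29a1_C1.WrM19
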