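import Pool.Agent.W_7d29a1_C1.FamS98
import Pool.Agent.W_7d29a1_C1.GwF52

/-!
MP_7d29a1_pr, attractor route [C1], SEP: THE CONTEXT OF ONE WINDOW IN THE FORM `Evn`, and the field `ratio` of `WQ28` in that form.
(helper52; letters of helper49, helper41, helper57, helper98, helper28)

* `Win52` : everything a static leaf asks of the window (scale `u`, cell `κ`) of the instance; **`evn_win52`** : for every threshold `n₁`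
  and every tilt constant `kap > 0` it holds at all the windows of the instance;
* `evn_st52` : a static leaf gives its `Evn` form;
* **`ratQ52`** : the field `ratio` at the families of FamS98.
-/

set_option autoImplicit false

namespace Pool.Agent.W_7d29a1_C1.Q49

open Finset MeasureTheory Filter
open Pool.Agent.W_7d29a1_F hiding Bw G
open Pool.Agent.W_7d29a1_h4g Pool.Agent.W_7d29a1_H Pool.Agent.W_7d29a1_HS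
open Pool.Agent.W_7d29a1_C1.H60
open Pool.Agent.W_7d29a1_C1.H40 (Tk)
open Pool.Agent.W_7d29a1_C1.G37 (Gm Wok gmW)
open Pool.Agent.W_7d29a1_C1.SF98
open Pool.Agent.W_7d29a1_C1.P25
open Pool.Agent.W_7d29a1_C1.N49
open Pool.Agent.W_7d29a1_C1.D98
open Pool.Agent.W_7d29a1_C1.SD53
open Pool.Agent.W_7d29a1_C1.WO57
open scoped ENNReal

noncomputable section

/-- **THE CONTEXT OF ONE WINDOW.** -/
structure Win52 (μ : Measure ℝ) (s kw kap : ℝ) (n₁ : ℕ) (N : Nm98) (R : Nr98) (Γ : Cx) (G : Gm) (mt τ0 : ℕ) (E : ℕ → ℝ) (u : ℕ)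
    (κ : ℤ × ℤ) : Prop where
  hs : Γ.s = s
  hv : G.v = sl μ s
  v0 : 0 ≤ G.v
  v1 : G.v ≤ 1
  hk : G.kw = kw
  hu : τ0 < u
  huM : u < G.M
  hM : G.M ≤ mt
  hT : ∀ v, n₁ ≤ G.T v
  w1 : ∀ v, 1 ≤ G.w v
  hw : ∀ v, G.w v = wd μ s (G.T v)
  hE : ∀ v, E v = EE μ s (G.T v)
  E0 : ∀ v, 0 < E v
  tilt : |Γ.h| * wd μ s (G.T u) ≤ kap * EE μ s (G.T u)
  cell : ∃ c ∈ FS Γ G mt, G.loc u c = κ
  rc : 0 ≤ G.rcc u κ
  reN : G.re u κ ≤ Γ.N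
  ok : Ok98 G N R τ0

variable {P : Pre} {D : Dat} {μ : Measure ℝ} {s : ℝ} {N : NmF} {R : NrF}

theorem Win52.mono {kw kap : ℝ} {n₁ n₂ : ℕ} {N : Nm98} {R : Nr98} {Γ : Cx} {G : Gm} {mt τ0 : ℕ} {E : ℕ → ℝ} {u : ℕ}
    {κ : ℤ × ℤ} (h : Win52 μ s kw kap n₂ N R Γ G mt τ0 E u κ) (hn : n₁ ≤ n₂) : Win52 μ s kw kap n₁ N R Γ G mt τ0 E u κ :=
  ⟨h.hs, h.hv, h.v0, h.v1, h.hk, h.hu, h.huM, h.hM, fun v => hn.trans (h.hT v), h.w1, h.hw, h.hE, h.E0, h.tilt, h.cell, h.rc, h.reN, h.ok⟩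

/-- **THE WINDOWS OF THE INSTANCE.** -/
theorem evn_win52 [IsProbabilityMeasure μ] {c C : ℝ} {n₀ : ℕ} (hI : In μ s c C n₀)
    (hE9 : ∀ᶠ n : ℕ in Filter.atTop, (n : ℝ) ^ (1 / 9 : ℝ) ≤ EE μ s n) {kap : ℝ} (hkap : 0 < kap) (n₁ : ℕ) (hN : OkE41 P D μ s N R) :
    Evn P D μ s fun _ _ _ _ _ Γ G mt τ0 E => ∀ u, τ0 < u → u < G.M → ∀ κ : KS Γ G mt u,
      Win52 μ s P.kw kap n₁ (N Γ G E) (R Γ G E) Γ G mt τ0 E u κ.1 := by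
  have hT : Evn P D μ s fun _ _ _ _ _ _ G _ _ _ => ∀ u, n₁ ≤ G.T u := Evn.of_T041 ⟨n₁, fun q m2 η A lam m0 g1 e0 c₂ δ κ n Γ T0 M
    mt τ0 hc hW h1 _ _ u => by
      have h2 : T0 * 1 ≤ T0 * D.K ^ u := Nat.mul_le_mul_left _ (Nat.one_le_pow _ _ (by have := D.hK; omega))
      have h3 : (P.G hW M m0 g1 m2 hc.h1 hc.h2).T u = T0 * D.K ^ u := rfl
      omega⟩
  refine (((WO57.evn_tilt (P := P) (D := D) hI hE9 (ε₀ := kap) hkap).and (hN.ok.and hT))).monoG ?_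
  intro q m2 η A lam m0 g1 e0 c₂ δ κ n Γ T0 M mt τ0 hc hW _ _ _ _ _ _ _ _ hg hG h u hu huM κ'
  have hM : (P.G hW M m0 g1 m2 hc.h1 hc.h2).M ≤ mt := by
    have h1 := hc.mt_ge
    have h2 : (P.G hW M m0 g1 m2 hc.h1 hc.h2).M = M := rfl
    omega
  have hcell := mem_loc κ'
  exact
    { hs := hc.adm.hs
      hv := rfl
      v0 := hG.v0
      v1 := hG.v1
      hk := rfl
      hu := hu
      huM := huM
      hM := hM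
      hT := fun v => h.2.2 v
      w1 := fun v => hW.one v
      hw := fun v => rfl
      hE := fun v => rfl
      E0 := fun v => hg.pos v
      tilt := (h.1 u (by omega)).1
      cell := hcell
      rc := by
        obtain ⟨cc, -, hcκ⟩ := hcell
        rw [← hcκ]
        exact (Gm.rcc_pos _ u cc).le
      reN := Ou37.re_le_N hM huM hcell
      ok := h.2.1 }

/-- **A STATIC LEAF GIVES ITS `Evn` FORM.** -/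
theorem evn_st52 [IsProbabilityMeasure μ] {c C : ℝ} {n₀ : ℕ} (hI : In μ s c C n₀)
    (hE9 : ∀ᶠ n : ℕ in Filter.atTop, (n : ℝ) ^ (1 / 9 : ℝ) ≤ EE μ s n) {kap : ℝ} (hkap : 0 < kap) (n₁ : ℕ) (hN : OkE41 P D μ s N R)
    {Φ : Cx → Gm → ℕ → ℕ → (ℕ → ℝ) → ℕ → ℤ × ℤ → Prop}
    (H : ∀ (Γ : Cx) (G : Gm) (mt τ0 : ℕ) (E : ℕ → ℝ) (u : ℕ) (κ : ℤ × ℤ),
      Win52 μ s P.kw kap n₁ (N Γ G E) (R Γ G E) Γ G mt τ0 E u κ → Φ Γ G mt τ0 E u κ) :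
    Evn P D μ s fun _ _ _ _ _ Γ G mt τ0 E => ∀ u, τ0 < u → u < G.M → ∀ κ : KS Γ G mt u, Φ Γ G mt τ0 E u κ.1 :=
  (evn_win52 hI hE9 hkap n₁ hN).mono fun _ _ _ _ _ _ _ _ _ _ h u hu huM κ => H _ _ _ _ _ _ _ (h u hu huM κ)

/-- **THE FIELD `ratio` OF `WQ28`**, in the form `Evn`: `kw, V, Re, Qe, Uw, sgm | R₂ | xF`. -/
theorem ratQ52 [IsProbabilityMeasure μ] {c C : ℝ} {n₀ : ℕ} (hI : In μ s c C n₀)
    (hE9 : ∀ᶠ n : ℕ in Filter.atTop, (n : ℝ) ^ (1 / 9 : ℝ) ≤ EE μ s n) {kw V ρ Q y sgm : ℝ} (hkw : 0 ≤ kw) (hV : 0 ≤ V) (hρ : 0 ≤ ρ)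
    (hQ : 0 ≤ Q) (hy : 0 ≤ y) (hs0 : 0 ≤ sgm) (hs1 : sgm ≤ c / 80) : ∃ R₀ : ℝ, ∀ R₂ : ℝ, R₀ ≤ R₂ → ∃ Cd : ℝ, ∀ xF : ℝ, Cd ≤ xF →
      ∀ {P : Pre} {D : Dat} {N : NmF} {F : Cf98}, P.kw = kw → F.sgm = sgm → F.R2 = R₂ → R₂ ≤ F.R1 → F.V₁ = V → F.Re = ρ → F.Qe = Q →
        F.Uw ≤ y → OkE41 P D μ s N (F.nr μ s c) →
      Evn P D μ s fun _ _ _ _ _ Γ G mt τ0 E => ∀ u, τ0 < u → u < G.M → ∀ κ : KS Γ G mt u,
        ∀ ω ∈ Tx ((Fam98o μ s c P N F).TT Γ G E) (fun u => E u / 16) u κ.1, ∀ ξ,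
          G.R u κ.1 ξ ω ∈ TP98 μ s c Γ G (N Γ G E) (F.nr μ s c Γ G E) u κ.1 →
          O22.Pr Γ (G.ra u κ.1 - 1) (G.re u κ.1) (O22.Bw G u κ.1) (xF * E u) ω (G.R u κ.1 ξ ω) := by
  obtain ⟨R₀, H⟩ := Ge52.ratC52 hI hkw hV hρ hQ hy hs0 hs1
  refine ⟨R₀, fun R₂ hR => ?_⟩
  obtain ⟨Cd, H⟩ := H R₂ hR
  refine ⟨Cd, fun xF hx {P D N F} hk hsg hR2 hR1 hV1 hRe hQe hUw hN => ?_⟩
  obtain ⟨n₁, -, H⟩ := H xF hx
  have hc8 : 0 < c / 8 := by have := hI.c0; linarith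
  refine evn_st52 hI hE9 hc8 n₁ hN (Φ := fun Γ G mt τ0 E u κ =>
    ∀ ω ∈ Tx ((Fam98o μ s c P N F).TT Γ G E) (fun u => E u / 16) u κ, ∀ ξ,
      G.R u κ ξ ω ∈ TP98 μ s c Γ G (N Γ G E) (F.nr μ s c Γ G E) u κ →
      O22.Pr Γ (G.ra u κ - 1) (G.re u κ) (O22.Bw G u κ) (xF * E u) ω (G.R u κ ξ ω)) fun Γ G mt τ0 E u κ W ω hω ξ hξ => ?_
  have hω' : ω ∈ LvA98 μ s c Γ G (N Γ G E) (F.nr μ s c Γ G E) u κ := hω.1
  have hT : ω ∈ Ou37.OuT μ s Γ G E R₂ (sgm * R₂) (E u / 16) u κ := by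
    have h1 : ω ∈ Ou37.OuT μ s Γ G E F.R2 (F.sgm * F.R2) (E u / 16) u κ := hω.2.1.2.2.2.1
    rwa [hR2, hsg] at h1
  rw [W.hE u]
  exact H (P := N Γ G E) (R := F.nr μ s c Γ G E) (E := E) (sg := E u / 16) ⟨W.hs, W.hv, W.hw u, W.hk.trans hk, W.tilt, W.hT u⟩ W.rc W.reN
    (W.ok.fit u W.hu) hRe hQe (le_of_eq (by show F.V₁ * _ = _; rw [hV1])) le_rfl (by show R₂ - 1 ≤ F.R1 - 1; linarith)
    (mul_le_mul_of_nonneg_right hUw (EE_pos _).le) (W.hE u) (le_of_eq (by rw [W.hE u]; ring)) ω ⟨LvA_TP98 hω', hT⟩ ξ hξ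

end

end Pool.Agent.W_7d29a1_C1.Q49
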