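import Pool.Agent.W_7d29a1_C1.FamS98
import Pool.Agent.W_7d29a1_C1.WrQ52
import Pool.Agent.W_7d29a1_C1.WrM19
import Pool.Agent.W_7d29a1_C1.MovW32
import Pool.Agent.W_7d29a1_C1.GwT52
import Pool.Agent.W_7d29a1_C1.NumK18

/-!
MP_7d29a1_pr, [C1] attractor route, SEP: THE SHELL OF THE FIELDS `cmpA` AND `M3A` (`WQ19` over `Fam98o`). (helper98)

* `Win52.reN'` : the rows of the window are below `N`, strictly; `evn_aS98` : the field `aS_ge`;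
* `Tc98`, **`tx98`** : what a typical content is (all factors of `Fam98o` at the slack `E u / 16`, in clean letters);
* `mo98`, `c198`, `c298` : the mouth and the two middle cells; **`nq98`** : the numbers `NQ28` of the window, in exponents;
* **`LkP98`** : what the lane block gives (luck, pinching, cross ratio); `SiP98`, `StP98`, `ExP98`, `CoP98` : the other parts;
* **`wp98`** : `Wp32` of one window; **`evn_wq98`** : `WQ19` from a static join.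
-/

set_option autoImplicit false

namespace Pool.Agent.W_7d29a1_C1.Q49

open Finset MeasureTheory Filter
open Pool.Agent.W_7d29a1_F hiding Bw G
open Pool.Agent.W_7d29a1_h4g Pool.Agent.W_7d29a1_H Pool.Agent.W_7d29a1_HS
open Pool.Agent.W_7d29a1_C1.K91 (wt wt_pos)
open Pool.Agent.W_7d29a1_C1.K91P (bw)
open Pool.Agent.W_7d29a1_C1.U16 (ker)
open Pool.Agent.W_7d29a1_C1.H60
open Pool.Agent.W_7d29a1_C1.H40 (Tk)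
open Pool.Agent.W_7d29a1_C1.G37 (Gm Wok gmW)
open Pool.Agent.W_7d29a1_C1.S71 (gl)
open Pool.Agent.W_7d29a1_C1.Gt66 (Pa Ex66)
open Pool.Agent.W_7d29a1_C1.P24 (Ce24)
open Pool.Agent.W_7d29a1_C1.PW58
open Pool.Agent.W_7d29a1_C1.SF98
open Pool.Agent.W_7d29a1_C1.P25
open Pool.Agent.W_7d29a1_C1.N49
open Pool.Agent.W_7d29a1_C1.D98
open Pool.Agent.W_7d29a1_C1.SD53
open Pool.Agent.W_7d29a1_C1.WO57
open Pool.Agent.W_7d29a1_C1.WrS19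
open Pool.Agent.W_7d29a1_C1.WrM19
open Pool.Agent.W_7d29a1_C1.Lb76 (Pin76)
open Pool.Agent.W_7d29a1_C1.MC71 (Inn GwIn)
open Pool.Agent.W_7d29a1_C1.MM28 (WQ28 NQ28 Fb28)
open Pool.Agent.W_7d29a1_C1.NM32 (nq32 Nb32 Wp32 wq32)
open Pool.Agent.W_7d29a1_C1.Gt52 (yN52)
open scoped ENNReal

noncomputable section

attribute [local instance 10] Classical.propDecidable

variable {P : Pre} {D : Dat} {μ : Measure ℝ} {s c : ℝ} {N : NmF} {F : Cf98} {Γ : Cx} {G : Gm} {mt τ0 : ℕ}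
  {E : ℕ → ℝ} {u : ℕ} {κ : ℤ × ℤ}

/-- **The rows of the window are below `N`, strictly.** -/
theorem Win52.reN' {kw kap : ℝ} {n₁ : ℕ} {N : Nm98} {R : Nr98} (h : Win52 μ s kw kap n₁ N R Γ G mt τ0 E u κ) : G.re u κ < Γ.N := by
  obtain ⟨c, hc, hcκ⟩ := h.cell
  have h1 := G.re_cast h.rc
  have h2 := G.rcc_eq u κ
  have h3 := G.lo_le u c
  rw [hcκ] at h3
  have h4 : (c.1 : ℤ) + 2 * G.T mt ≤ Γ.N := by exact_mod_cast (mem_FS.1 hc).2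
  have h5 := G.T_lt8 (show u < mt from lt_of_lt_of_le h.huM h.hM)
  have h6 := G.T_mono' (show u - 2 ≤ u by omega)
  have h7 := G.T_pos' u
  have : (G.re u κ : ℤ) < Γ.N := by linarith
  exact_mod_cast this

theorem Win52.u1 {kw kap : ℝ} {n₁ : ℕ} {N : Nm98} {R : Nr98} (h : Win52 μ s kw kap n₁ N R Γ G mt τ0 E u κ) : 1 ≤ u := by
  have := h.hu
  omega

/-- The field `aS_ge`. -/
theorem evn_aS98 : Evn P D μ s fun _ _ _ _ _ _ G _ τ0 _ => ∀ u, τ0 < u → G.w u / 2 + 1 ≤ P.aS * G.w u :=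
  Evn.of_all fun _ _ _ _ _ _ _ _ _ _ _ _ _ _ _ _ _ _ _ _ _ _ _ _ _ _ _ _ hG => hG.aS_ge

/-! ### Typical contents -/

/-- **A TYPICAL CONTENT**, slack `E u / 16`. -/
structure Tc98 (μ : Measure ℝ) (s c : ℝ) (P : Pre) (N : NmF) (F : Cf98) (Γ : Cx) (G : Gm) (E : ℕ → ℝ) (u : ℕ) (κ : ℤ × ℤ) (ω : Env) : Prop where
  lv : ω ∈ LvA98 μ s c Γ G (N Γ G E) (F.nr μ s c Γ G E) u κ
  tp : ω ∈ TP98 μ s c Γ G (N Γ G E) (F.nr μ s c Γ G E) u κ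
  nosw : NoSw98 Γ G u κ
  rc : ω ∈ Ou37.Ou μ s Γ G E F.rc (F.sgm * F.rc) (F.sgm * F.rc) F.sgm (E u / 16) u κ
  r0 : ω ∈ Ou37.Ou μ s Γ G E F.r0 (F.sgm * F.r0) (F.sgm * F.r0) F.sgm (E u / 16) u κ
  R0 : ω ∈ Ou37.OuT μ s Γ G E F.R0 (F.sgm * F.R0) (E u / 16) u κ
  R2 : ω ∈ Ou37.OuT μ s Γ G E F.R2 (F.sgm * F.R2) (E u / 16) u κ
  R1 : ω ∈ Ou37.OuT μ s Γ G E F.R1 (F.sgm * F.R1) (E u / 16) u κ
  st : ω ∈ Sy78.St Γ G P.aS P.bS (P.βc * E u) u κ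
  fw : ω ∈ SD53.Fw Γ G F.aF F.bF ((F.gF - 1 / 16) * E u) u κ

theorem tx98 {ω : Env} (h : ω ∈ Tx ((Fam98o μ s c P N F).TT Γ G E) (fun u => E u / 16) u κ) : Tc98 μ s c P N F Γ G E u κ ω := by
  obtain ⟨h1, h2, h3, h4⟩ := h
  have e1 : (P.βc + 1 / 16) * E u - E u / 16 = P.βc * E u := by ring
  have e2 : F.gF * E u - E u / 16 = (F.gF - 1 / 16) * E u := by ring
  have h3' : ω ∈ Sy78.St Γ G P.aS P.bS ((P.βc + 1 / 16) * E u - E u / 16) u κ := h3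
  have h4' : ω ∈ SD53.Fw Γ G F.aF F.bF (F.gF * E u - E u / 16) u κ := h4
  rw [e1] at h3'
  rw [e2] at h4'
  exact ⟨h1, LvA_TP98 h1, LvA98.nosw h1, h2.1, h2.2.1, h2.2.2.1, h2.2.2.2.1, h2.2.2.2.2, h3', h4'⟩

theorem TT_Fam98 : (Fam98 μ s c P N F).TT = (Fam98o μ s c P N F).TT := rfl

/-- The slot `St` with the largest slack. -/
theorem St_Fam98 (Γ : Cx) (G : Gm) (E : ℕ → ℝ) (u : ℕ) (κ : ℤ × ℤ) :
    (Fam98o μ s c P N F).St Γ G E (E u / 16) u κ = Sy78.St Γ G P.aS P.bS (P.βc * E u) u κ := by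
  have e1 : (P.βc + 1 / 16) * E u - E u / 16 = P.βc * E u := by ring
  show Sy78.St Γ G P.aS P.bS ((P.βc + 1 / 16) * E u - E u / 16) u κ = _
  rw [e1]

/-- The slot `Fw` with the largest slack. -/
theorem Fw_Fam98 (Γ : Cx) (G : Gm) (E : ℕ → ℝ) (u : ℕ) (κ : ℤ × ℤ) :
    (Fam98o μ s c P N F).Fw Γ G E (E u / 16) u κ = SD53.Fw Γ G F.aF F.bF ((F.gF - 1 / 16) * E u) u κ := by
  have e2 : F.gF * E u - E u / 16 = (F.gF - 1 / 16) * E u := by ring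
  show SD53.Fw Γ G F.aF F.bF (F.gF * E u - E u / 16) u κ = _
  rw [e2]

/-! ### The objects of one window -/

section obj

variable (μ : Measure ℝ) (s c : ℝ) (Γ : Cx) (G : Gm) (Q : Nm98) (R : Nr98) (u : ℕ) (κ : ℤ × ℤ)

/-- The mouth of the lane block. -/
abbrev mo98 : Set ℤ := ↑(Ce24 (co98 G u κ (rl98 Γ G Q u κ)) (Q.δ / 4 * wd μ s (Q.T u)))

/-- The first middle cell. -/
abbrev c198 : Finset ℤ := Ce24 (co98 G u κ (rl98 Γ G Q u κ + Q.T u)) (Q.δ / 4 * wd μ s (Q.T u))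

/-- The second middle cell. -/
abbrev c298 : Finset ℤ := Ce24 (co98 G u κ (rl98 Γ G Q u κ + 2 * Q.T u)) (Q.δ / 4 * wd μ s (Q.T u))

/-- The walls. -/
abbrev cw98 (M : ℕ) (A B : ℝ) (n : ℕ) : Pa (5 * n) → Pa (5 * n) → Set Env := fun π π' =>
  DT58 μ s (Sg98 μ s Γ G Q u κ) (Ex66 (ag98 Γ G Q u κ) π π') (pt98 G u κ (ag98 Γ G Q u κ)) M (Q.m u) A B

/-- **THE NUMBERS OF THE WINDOW**; `X` = level of the profile, `r` = rate of the tilt on the core, `e3, x, ..` = exponents, unit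
`EE (T_r)` for the lanes, `EE (T_u)` for `e3, zs, zx`. -/
abbrev nq98 (A X r e3 x y y' gu z zs zx : ℝ) : NQ28 :=
  nq32 (Q.K1 u) (Q.K2 u) (Q.n u) (Q.m u) (ag98 Γ G Q u κ) (rl98 Γ G Q u κ + 2 * Q.T u) (co98 G u κ (ag98 Γ G Q u κ))
    (co98 G u κ (rl98 Γ G Q u κ)) (Q.K2h + 3) Q.Q Q.U Q.Y A
    (eN58 μ s c Q.U1 Q.Q1 (X + 2 * (1 * EE μ s (Q.n u))) (r * EE μ s (G.T u)) (Q.n u) (Q.K1 u) (Q.K2 u))
    (Real.exp (yN52 μ s Q.Uc Q.Qc X (r * EE μ s (G.T u)) (Q.n u))) (Real.exp (-((Q.T u : ℕ) : ℝ) ^ Q.cM))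
    (rl98 Γ G Q u κ + Q.T u) (rl98 Γ G Q u κ + 2 * Q.T u) (rl98 Γ G Q u κ + 2 * Q.T u) (EE μ s (Q.T u)) (EE μ s (G.T u)) e3 x y y' gu z
    zs zx

/-- **WHAT THE LANE BLOCK GIVES** on `TF` (`luk42`): the luck, the pinching, the cross ratio of the middle slab. -/
def LkP98 (TF : Set Env) (x y y' gu z : ℝ) : Prop := ∀ ω ∈ TF, ∀ η ∈ Lc98 μ s c Γ G Q (KL98 μ s Γ G Q R) u κ ω,
  Luk Γ (rl98 Γ G Q u κ) (rl98 Γ G Q u κ + 2 * Q.T u) {co98 G u κ (rl98 Γ G Q u κ)} (mo98 μ s Γ G Q u κ) Set.univ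
      (Real.exp (x * EE μ s (Q.T u))) (Real.exp (gu * EE μ s (Q.T u))) (Real.exp (y * EE μ s (Q.T u))) ω (gl (B98 Γ G Q u κ) η ω) ∧
    Pin76 Γ (rl98 Γ G Q u κ) (rl98 Γ G Q u κ + Q.T u) (rl98 Γ G Q u κ + 2 * Q.T u) ↑(c198 μ s Γ G Q u κ) ↑(c298 μ s Γ G Q u κ)
      (Real.exp (y' * EE μ s (Q.T u))) (Real.exp (-z * EE μ s (Q.T u))) ω (gl (B98 Γ G Q u κ) η ω) ∧
    ∀ z ∈ c198 μ s Γ G Q u κ, ∀ z' ∈ c198 μ s Γ G Q u κ, z < z' → ∀ x ∈ c298 μ s Γ G Q u κ, ∀ y ∈ c298 μ s Γ G Q u κ, x < y →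
      ker (wt (gl (B98 Γ G Q u κ) η ω)) Γ.p (rl98 Γ G Q u κ + Q.T u) ((rl98 Γ G Q u κ + 2 * Q.T u) - (rl98 Γ G Q u κ + Q.T u)) z x *
          ker (wt (gl (B98 Γ G Q u κ) η ω)) Γ.p (rl98 Γ G Q u κ + Q.T u) ((rl98 Γ G Q u κ + 2 * Q.T u) - (rl98 Γ G Q u κ + Q.T u)) z' y -
        ker (wt (gl (B98 Γ G Q u κ) η ω)) Γ.p (rl98 Γ G Q u κ + Q.T u) ((rl98 Γ G Q u κ + 2 * Q.T u) - (rl98 Γ G Q u κ + Q.T u)) z y *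
          ker (wt (gl (B98 Γ G Q u κ) η ω)) Γ.p (rl98 Γ G Q u κ + Q.T u) ((rl98 Γ G Q u κ + 2 * Q.T u) - (rl98 Γ G Q u κ + Q.T u)) z' x ≤
        Real.exp (-((Q.T u : ℕ) : ℝ) ^ Q.cM) *
          (ker (wt (gl (B98 Γ G Q u κ) η ω)) Γ.p (rl98 Γ G Q u κ + Q.T u) ((rl98 Γ G Q u κ + 2 * Q.T u) - (rl98 Γ G Q u κ + Q.T u)) z x *
            ker (wt (gl (B98 Γ G Q u κ) η ω)) Γ.p (rl98 Γ G Q u κ + Q.T u) ((rl98 Γ G Q u κ + 2 * Q.T u) - (rl98 Γ G Q u κ + Q.T u)) z' y)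

/-- The field `core`. -/
def CoP98 (T : Set Env) : Prop := ∀ x : ℕ × ℤ, G.loc u x = κ → ∀ η ∈ T, bw (wt η) Γ.p (x.1 + 1) (Γ.N - (x.1 + 1)) x.2 ≤
  4 / 3 * Gt66.Z1 (wt η) Γ.p Γ.N (ag98 Γ G Q u κ) (5 * Q.n u) (Co58 μ s (Q.K1 u) (Q.n u) (co98 G u κ (ag98 Γ G Q u κ))) x.1 x.2

/-- The field `site`. -/
def SiP98 (T TF : Set Env) (e3 : ℝ) : Prop := ∀ ω ∈ T, ∀ ξ, G.R u κ ξ ω ∈ TF → ∀ x : XX Γ, G.loc u x.1 = κ →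
  Real.exp (-e3 * EE μ s (G.T u)) * bW Γ (G.R u κ ξ ω) (x.1.1 + 1) x.1.2 ≤
    ker (wt (G.R u κ ξ ω)) Γ.p (x.1.1 + 1) (ag98 Γ G Q u κ + 5 * Q.n u - (x.1.1 + 1)) x.1.2 (co98 G u κ (rl98 Γ G Q u κ)) *
      bW Γ (G.R u κ ξ ω) (ag98 Γ G Q u κ + 5 * Q.n u) (co98 G u κ (rl98 Γ G Q u κ))

/-- The field `st`. -/
def StP98 (T TF : Set Env) (zs : ℝ) : Prop := ∀ ω ∈ T, ∀ ξ, G.R u κ ξ ω ∈ TF → ∀ i, (G.lo u κ).toNat ≤ i →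
  i < ag98 Γ G Q u κ + 5 * Q.n u → ∀ y, (i, y) ∈ Γ.rows 0 Γ.N → ¬ G.Nb u κ (i, y) →
    ∑ v ∈ bx Γ (mo98 μ s Γ G Q u κ), ker (wt (G.R u κ ξ ω)) Γ.p (i + 1) (ag98 Γ G Q u κ + 5 * Q.n u - (i + 1)) y v *
      bW Γ (G.R u κ ξ ω) (ag98 Γ G Q u κ + 5 * Q.n u) v ≤ Real.exp (-zs * EE μ s (G.T u)) * bW Γ (G.R u κ ξ ω) (i + 1) y

/-- The field `exc`. -/
def ExP98 (T TF : Set Env) (zx : ℝ) : Prop := ∀ ω ∈ Fb28 (G.win u κ) T TF, ∀ η ∈ Lc98 μ s c Γ G Q (KL98 μ s Γ G Q R) u κ ω,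
  ∀ i, ag98 Γ G Q u κ + 5 * Q.n u ≤ i → i < rl98 Γ G Q u κ + 2 * Q.T u → ∀ v ∈ bx Γ (mo98 μ s Γ G Q u κ),
    ∑ y ∈ (Icc 0 Γ.hi).filter (fun y => (i, y) ∈ Γ.rows 0 Γ.N ∧ ¬ G.Nb u κ (i, y)),
      ker (wt (gl (B98 Γ G Q u κ) η ω)) Γ.p (ag98 Γ G Q u κ + 5 * Q.n u) (i + 1 - (ag98 Γ G Q u κ + 5 * Q.n u)) v y *
          bW Γ (gl (B98 Γ G Q u κ) η ω) (i + 1) y ≤
        Real.exp (-zx * EE μ s (G.T u)) * bW Γ (gl (B98 Γ G Q u κ) η ω) (ag98 Γ G Q u κ + 5 * Q.n u) v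

end obj

section join

variable {Q : Nm98} {R : Nr98} {M : ℕ} {A B p₀ X r e3 x y y' gu z zs zx dF : ℝ} {T TF : Set Env} {c₁ : ℝ≥0∞}

/-- **ALL PARTS OF `WQ28` OF ONE WINDOW.** -/
theorem wp98 (hF : Fit98 G Q u) (hreN : G.re u κ ≤ Γ.N)
    (gw : GwIn μ s c Γ (G.win u κ) (B98 Γ G Q u κ) (Q.K1 u) (Q.K2 u) (Q.n u) (Q.m u) (ag98 Γ G Q u κ) (rl98 Γ G Q u κ + 2 * Q.T u)
      (co98 G u κ (ag98 Γ G Q u κ)) (co98 G u κ (rl98 Γ G Q u κ)) (cw98 μ s Γ G Q u κ M A B (Q.n u)) TF (LuA98 μ s c Γ G Q R u κ)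
      (Lc98 μ s c Γ G Q (KL98 μ s Γ G Q R) u κ) {co98 G u κ (rl98 Γ G Q u κ)} (mo98 μ s Γ G Q u κ) (Q.K2h + 3) Q.Q Q.U Q.Y A
      (eN58 μ s c Q.U1 Q.Q1 (X + 2 * (1 * EE μ s (Q.n u))) (r * EE μ s (G.T u)) (Q.n u) (Q.K1 u) (Q.K2 u))
      (Real.exp (yN52 μ s Q.Uc Q.Qc X (r * EE μ s (G.T u)) (Q.n u))) p₀ (Real.exp (x * EE μ s (Q.T u))) (Real.exp (gu * EE μ s (Q.T u)))
      (Real.exp (y * EE μ s (Q.T u))) c₁)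
    (hT : T ⊆ TF) (co : CoP98 μ s Γ G Q u κ T)
    (ra : ∀ ω ∈ T, ∀ ξ, G.R u κ ξ ω ∈ TF → O22.Pr Γ (G.ra u κ - 1) (G.re u κ) (O22.Bw G u κ) dF ω (G.R u κ ξ ω))
    (si : SiP98 μ s Γ G Q u κ T TF e3) (lk : LkP98 μ s c Γ G Q R u κ TF x y y' gu z) (st : StP98 μ s Γ G Q u κ T TF zs)
    (ex : ExP98 μ s c Γ G Q R u κ T TF zx) :
    Wp32 μ s c Γ G u κ (nq98 μ s c Γ G Q u κ A X r e3 x y y' gu z zs zx) (B98 Γ G Q u κ) (cw98 μ s Γ G Q u κ M A B (Q.n u)) T TF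
      (LuA98 μ s c Γ G Q R u κ) (Lc98 μ s c Γ G Q (KL98 μ s Γ G Q R) u κ) {co98 G u κ (rl98 Γ G Q u κ)} (mo98 μ s Γ G Q u κ)
      ↑(c198 μ s Γ G Q u κ) ↑(c298 μ s Γ G Q u κ) (4 / 3) p₀ dF c₁ where
  gw := gw
  T_sub := hT
  row := fun x hx => by
    have := GL18.row98_18 (Γ := Γ) (G := G) (P := Q) (u := u) x.1
    rw [hx] at this
    exact this
  core := fun x hx _ η hη => co x.1 hx η hη
  ratio := ra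
  site := fun ω hω ξ hξ x hx _ => si ω hω ξ hξ x hx
  pin := fun ω hω η hη => (lk ω hω.1 η hη).2.1
  be := le_rfl
  eN := by
    have h1 := b98_T (Γ := Γ) (κ := κ) hF
    have h2 : b98 Γ G Q u κ = rl98 Γ G Q u κ + 3 * Q.T u := rfl
    show rl98 Γ G Q u κ + 2 * Q.T u ≤ Γ.N
    omega
  hcr := fun ω hω η hη z hz z' hz' hzz x hx y hy hxy =>
    (lk ω hω.1 η hη).2.2 z (Finset.mem_coe.1 hz) z' (Finset.mem_coe.1 hz') hzz x (Finset.mem_coe.1 hx) y (Finset.mem_coe.1 hy) hxy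
  st := st
  exc := ex

/-- **`WQ28` OF ONE WINDOW**, with the numbers in exponents: `U` = the ratio of the units `T_u / T_r`. -/
theorem wq98 {U EM m g3 : ℝ} (W : Wp32 μ s c Γ G u κ (nq98 μ s c Γ G Q u κ A X r e3 x y y' gu z zs zx) (B98 Γ G Q u κ)
      (cw98 μ s Γ G Q u κ M A B (Q.n u)) T TF (LuA98 μ s c Γ G Q R u κ) (Lc98 μ s c Γ G Q (KL98 μ s Γ G Q R) u κ)
      {co98 G u κ (rl98 Γ G Q u κ)} (mo98 μ s Γ G Q u κ) ↑(c198 μ s Γ G Q u κ) ↑(c298 μ s Γ G Q u κ) (4 / 3) p₀ dF c₁)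
    (hF : Fit98 G Q u) (E8 : 8 ≤ EE μ s (Q.T u)) (EF : EE μ s (Q.T u) ≤ EE μ s (G.T u)) (FX : EE μ s (G.T u) ≤ U * EE μ s (Q.T u))
    (m0 : 0 ≤ m) (e0 : 0 ≤ e3) (g0 : 0 ≤ g3) (zs0 : 0 ≤ zs) (zx0 : 0 ≤ zx) (rt : NM32.Mo32 (U * m) (U * e3) (U * g3) x y y' gu z zs zx)
    (em : EM ≤ m * EE μ s (G.T u)) (hG : yN52 μ s Q.Uc Q.Qc X (r * EE μ s (G.T u)) (Q.n u) ≤ g3 * EE μ s (G.T u))
    (hδ : 32 * Real.exp (-((Q.T u : ℕ) : ℝ) ^ Q.cM) ≤ 1) (hR : ∀ e : ℕ, e ≤ 2 * G.T u + 1 → (e : ℝ) ≤ 2 * Real.exp (EE μ s (Q.T u))) :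
    WQ28 μ s c Γ G u κ (nq98 μ s c Γ G Q u κ A X r e3 x y y' gu z zs zx) (B98 Γ G Q u κ) (cw98 μ s Γ G Q u κ M A B (Q.n u)) T TF
      (LuA98 μ s c Γ G Q R u κ) (Lc98 μ s c Γ G Q (KL98 μ s Γ G Q R) u κ) {co98 G u κ (rl98 Γ G Q u κ)} (mo98 μ s Γ G Q u κ)
      ↑(c198 μ s Γ G Q u κ) ↑(c298 μ s Γ G Q u κ) (4 / 3) p₀ EM dF c₁ := by
  refine wq32 W (NM32.nb32_nq E8 EF FX m0 e0 g0 zs0 zx0 rt em (Real.exp_pos _) (Real.exp_le_exp.2 hG) (Real.exp_pos _).le hδ ?_)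
  refine hR _ (NM32.rows32 G ?_)
  have h1 := b98_T (Γ := Γ) (κ := κ) hF
  have h2 : b98 Γ G Q u κ = rl98 Γ G Q u κ + 3 * Q.T u := rfl
  show rl98 Γ G Q u κ + 2 * Q.T u ≤ G.re u κ
  omega

/-- The exponent of the third clause of the gate. -/
theorem yN98 {x₀ : ℝ} (hX : X ≤ x₀ * EE μ s (G.T u)) (hn : EE μ s (Q.n u) ≤ EE μ s (G.T u)) (hUQ : 0 ≤ Q.Uc + Q.Qc) :
    yN52 μ s Q.Uc Q.Qc X (r * EE μ s (G.T u)) (Q.n u) ≤ (x₀ + 4 + r + (Q.Uc + Q.Qc)) * EE μ s (G.T u) := by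
  unfold yN52
  have := mul_le_mul_of_nonneg_left hn hUQ
  linarith

/-- The cross ratio of the middle slab is small. -/
theorem cr98 {cM : ℝ} (h : 0 < cM) : ∃ n₁ : ℕ, ∀ T : ℕ, n₁ ≤ T → 32 * Real.exp (-(T : ℝ) ^ cM) ≤ 1 := by
  have h1 : Tendsto (fun n : ℕ => (n : ℝ) ^ cM) atTop atTop := (tendsto_rpow_atTop h).comp tendsto_natCast_atTop_atTop
  obtain ⟨n₁, hn⟩ := (h1.eventually_ge_atTop 32).exists_forall_of_atTop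
  refine ⟨n₁, fun T hT => ?_⟩
  have h2 := hn T hT
  have h3 : (T : ℝ) ^ cM + 1 ≤ Real.exp ((T : ℝ) ^ cM) := Real.add_one_le_exp _
  have e1 : Real.exp (-(T : ℝ) ^ cM) = (Real.exp ((T : ℝ) ^ cM))⁻¹ := Real.exp_neg _
  rw [e1, ← div_eq_mul_inv, div_le_one (Real.exp_pos _)]
  linarith

end join

/-! ### The shell -/

/-- **`WQ19` FROM A STATIC JOIN.** -/
theorem evn_wq98 [IsProbabilityMeasure μ] {C : ℝ} {n₀ : ℕ} (hI : In μ s c C n₀)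
    (hE9 : ∀ᶠ n : ℕ in Filter.atTop, (n : ℝ) ^ (1 / 9 : ℝ) ≤ EE μ s n) (hN : OkE41 P D μ s N (F.nr μ s c)) {kap : ℝ} (hkap : 0 < kap)
    {p₀ cF : ℝ} {c₁ : ℝ≥0∞} {Φ : Gm → ℕ → Prop} (hΦ : Evn P D μ s fun _ _ _ _ _ _ G _ τ0 _ => ∀ u, τ0 < u → Φ G u)
    (J : ∃ n₁ : ℕ, ∀ (Γ : Cx) (G : Gm) (mt τ0 : ℕ) (E : ℕ → ℝ) (u : ℕ) (κ : ℤ × ℤ),
      Win52 μ s P.kw kap n₁ (N Γ G E) (F.nr μ s c Γ G E) Γ G mt τ0 E u κ → G.w u / 2 + 1 ≤ P.aS * G.w u → Φ G u → NoSw98 Γ G u κ →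
      (∀ ω ∈ Tx ((Fam98o μ s c P N F).TT Γ G E) (fun u => E u / 16) u κ, Tc98 μ s c P N F Γ G E u κ ω) → ∃ (Q : NQ28) (B₂ : Set Pt)
        (Cw : Pa (5 * Q.n) → Pa (5 * Q.n) → Set Env) (TF : Set Env) (Lk : Env → Set Env) (Mi Mo C1 C2 : Set ℤ),
        WQ28 μ s c Γ G u κ Q B₂ Cw (Tx ((Fam98o μ s c P N F).TT Γ G E) (fun u => E u / 16) u κ) TF
          (LuA98 μ s c Γ G (N Γ G E) (F.nr μ s c Γ G E) u κ) Lk Mi Mo C1 C2 (4 / 3) p₀ ((P.ε0 + 4 * cF) * E u) (cF * E u) c₁) :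
    Evn P D μ s (WQ19 (Fam98o μ s c P N F) P μ s c (4 / 3) p₀ cF c₁) := by
  obtain ⟨n₁, J⟩ := J
  refine (((evn_win52 hI hE9 hkap n₁ hN).and evn_aS98).and hΦ).mono fun q η A lam n Γ G mt τ0 E h u hu huM κ hne => ?_
  obtain ⟨ω, hω⟩ := hne
  exact J Γ G mt τ0 E u κ.1 (h.1.1 u hu huM κ) (h.1.2 u hu) (h.2 u hu) (tx98 hω).nosw fun ω hω => tx98 hω

end

end Pool.Agent.W_7d29a1_C1.Q49
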