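import Pool.Agent.W_7d29a1_C1.WrS19
import Pool.Agent.W_7d29a1_C1.ExS53
import Pool.Agent.W_7d29a1_C1.NumE32

/-!
Both halves (MP_7d29a1_pr), attractor route [C1], SEP: THE SLOTS `exclF`, `exclE` OF `Lf49` IN THE FORM `Evn`. (helper19)

`XI19`: what the window must give at one value of the constants (cells of the exclusion, `Wn53` for every window, the ratio of all pairs,
the numbers `Ex32`). `evn_xi19`: from `Evn XI19` all the inputs `XI53` hold eventually (numbers, widths and energies are chosen here: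
`3 ≤ q`, `2 (kb + kw + 1) ≤ 2 ^ q`, `128 Cg Cg (Cx + 1) ≤ 2 ^ q`). `exclF19`, `exclE19`: the two slots.
-/

set_option autoImplicit false

namespace Pool.Agent.W_7d29a1_C1.WrE19

open Finset MeasureTheory
open Pool.Agent.W_7d29a1_F Pool.Agent.W_7d29a1_h4g Pool.Agent.W_7d29a1_H Pool.Agent.W_7d29a1_HS
open Pool.Agent.W_7d29a1_C1.H60
open Pool.Agent.W_7d29a1_C1.H40 (Tk)
open Pool.Agent.W_7d29a1_C1.G37 (Gm Wok gmW)
open Pool.Agent.W_7d29a1_C1.H49 (Par ex Hf Hs rat cnt)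
open Pool.Agent.W_7d29a1_C1.SF98
open Pool.Agent.W_7d29a1_C1.P25
open Pool.Agent.W_7d29a1_C1.N49
open Pool.Agent.W_7d29a1_C1.Q49
open Pool.Agent.W_7d29a1_C1.SD53 (XI53 Wn53 Zg Fz Pq exclF25 exclE25)
open Pool.Agent.W_7d29a1_C1.NE32
open Pool.Agent.W_7d29a1_C1.WrS19
open scoped ENNReal

noncomputable section

/-- **WHAT THE WINDOW GIVES**, one value of the constants: cells `a1, b1, C1, C2` of the exclusion, `Wn53` for every window, the ratio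
`Cx E` of all pairs of contents, the numbers `Ex32`. -/
def XI19 (F : Fam) (Cx aX aF : ℝ) : Phi := fun _q _η _A _lam n Γ G mt τ0 E =>
  ∃ (a1 b1 : ℕ → ℤ × ℤ → ℕ) (C1 C2 : ℕ → ℤ × ℤ → Set ℤ) (g Y ee f δ : ℕ → ℝ),
    (∀ v κ, τ0 < v → v < G.M → (∃ c ∈ FS Γ G mt, G.loc v c = κ) →
      ∀ A ∈ Tx (F.TT Γ G E) (fun u => E u / 16) v κ ∪ F.L Γ G E v κ, ∀ η,
      G.R v κ η A ∈ Tx (F.TT Γ G E) (fun u => E u / 16) v κ ∪ F.L Γ G E v κ → RoW Γ G v κ (bN Cx E v) A (G.R v κ η A)) ∧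
    (∀ u κ, τ0 < u → u < G.M → (∃ c ∈ FS Γ G mt, G.loc u c = κ) → ∀ ω ∈ Tx (F.TT Γ G E) (fun u => E u / 16) u κ, ∀ η,
      G.R u κ η ω ∈ F.L Γ G E u κ →
      Wn53 Γ (G.ra u κ - 1) (a1 u κ) (b1 u κ) (C1 u κ) (C2 u κ) (Zg G u κ aX) (Fz G u κ aF) (g u) (Y u) (ee u) (f u) (δ u)
        ω (G.R u κ η ω)) ∧
    (∀ u κ, b1 u κ ≤ G.re u κ) ∧
    ∀ u, τ0 < u → Ex32 E (Ln n) u (g u) (Y u) (ee u) (f u) (δ u)

/-- The inputs of the exclusions hold. -/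
def XF19 (F : Fam) (P : Pre) (Cx aX aF : ℝ) : Phi := fun q η A _lam n Γ G mt τ0 E =>
  ∃ (a1 b1 : ℕ → ℤ × ℤ → ℕ) (C1 C2 : ℕ → ℤ × ℤ → Set ℤ) (g Y ee f δ : ℕ → ℝ),
    XI53 Γ G mt (F.TT Γ G E) (F.L Γ G E) (slN P.Cb E G.m2) (fun u => E u / 16) (thN η A E) (beN η A P.Cb E G.m2 (Ln n))
      (bN P.Cb E) (stN (A + 1)) (ex (-Ln n)) (ENNReal.ofReal (thq P.c' q)) τ0 q P.r (bN Cx E) (bN (Cx + 1) E) aX aF a1 b1 C1 C2
      g Y ee f δ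

variable {P : Pre} {D : Dat} {μ : Measure ℝ} {s : ℝ} {F : Fam} {Cx aX aF : ℝ}

/-- **ALL INPUTS OF THE EXCLUSIONS.** -/
theorem evn_xi19 [IsProbabilityMeasure μ] {c C : ℝ} {n₀ : ℕ} (hI : In μ s c C n₀) (hCx : 0 ≤ Cx) (haX : 2 ≤ aX)
    (haF : aF + 1 / 2 + (P.kn + 2 * P.kb) ≤ 2 ^ (P.r + 2)) (h : Evn P D μ s (XI19 F Cx aX aF)) : Evn P D μ s (XF19 F P Cx aX aF) := by
  obtain ⟨qa, hqa⟩ := exists_pow_ge (128 * D.Cg * D.Cg * (Cx + 1))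
  obtain ⟨qb, hqb⟩ := exists_pow_ge (2 * (P.kb + P.kw + 1))
  obtain ⟨nE, hE⟩ := E_big32 hI 0
  obtain ⟨q₁, h⟩ := h
  refine ⟨max (max q₁ 3) (max qa qb), fun q hq => ?_⟩
  obtain ⟨m2₁, h⟩ := h q (by omega)
  refine ⟨m2₁, fun m2 hm2 η hη A hA => ?_⟩
  obtain ⟨l₁, h⟩ := h m2 hm2 η hη A hA
  refine ⟨l₁, fun lam hl => ?_⟩
  obtain ⟨m0₁, h⟩ := h lam hl
  refine ⟨m0₁, fun m0 hm0 g1 hg1 e0 he0 => ?_⟩
  obtain ⟨nT, hnT⟩ : ∃ nT : ℕ, ∀ n : ℕ, nT ≤ n → (nE : ℝ) ≤ (n : ℝ) ^ e0 := by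
    have h1 := tendsto_rpow_atTop he0
    have h2 := h1.comp tendsto_natCast_atTop_atTop
    obtain ⟨N, hN⟩ := (h2.eventually_ge_atTop (nE : ℝ)).exists_forall_of_atTop
    exact ⟨N, fun n hn => hN n hn⟩
  refine ((h m0 hm0 g1 hg1 e0 he0).and (EvA.of_ev (φ := fun c₂ δ κ n => (nE : ℝ) ≤ (n : ℝ) ^ e0)
    ⟨nT, fun n hn c₂ δ κ _ _ _ _ _ => hnT n hn⟩)).mono fun c₂ δ κ n _ _ _ _ _ h6 => ?_
  obtain ⟨h6, h7⟩ := h6
  intro Γ T0 M mt τ0 hc hW hg hG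
  obtain ⟨a1, b1, C1, C2, g, Y, ee, f, δ', x1, x2, x3, x4⟩ := h6 Γ T0 M mt τ0 hc hW hg hG
  refine ⟨a1, b1, C1, C2, g, Y, ee, f, δ', ?_⟩
  have hT : ∀ v, 1 + (Tk T0 D.K v : ℝ) ≤ Real.exp (EE μ s (Tk T0 D.K v)) := by
    intro v
    refine (hE (Tk T0 D.K v) ?_).2
    have h8 : (nE : ℝ) ≤ T0 := h7.trans hc.T0_ge
    have h9 : nE ≤ T0 := by exact_mod_cast h8
    exact h9.trans (Nat.le_mul_of_pos_right _ (Nat.pow_pos (by have := D.hK; omega)))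
  have hGT : ∀ v, (P.G hW M m0 g1 m2 hc.h1 hc.h2).T v = Tk T0 D.K v := fun v => rfl
  exact
  { ok := hc.adm.ok
    v0 := hG.v0
    v1 := hG.v1
    q3 := by omega
    dR0 := hg.b_nonneg hCx
    dT0 := hg.b_nonneg (by linarith)
    hdT := hdT32 (E := fun u => EE μ s (Tk T0 D.K u)) (T := (P.G hW M m0 g1 m2 hc.h1 hc.h2).T) hT
    st_ge := fun t i _ => hG.ok.st_ge t i
    be0 := fun t i => by
      have h1 := hg.sl_nonneg (show 0 ≤ P.Cb by have := P.hCbr; have := P.hCr; linarith) m2 (t - 1)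
      have h2 : 0 ≤ thN η A (fun u => EE μ s (Tk T0 D.K u)) t i :=
        mul_nonneg (mul_nonneg hη.le (by positivity)) (hg.pos t).le
      have h3 := hG.ok.L_nonneg
      show 0 ≤ thN η A (fun u => EE μ s (Tk T0 D.K u)) t i + slN P.Cb (fun u => EE μ s (Tk T0 D.K u)) m2 (t - 1) + Ln n
      linarith
    hX := hX32 _ haX (hqb q (by omega)) (fun u hu => w_ge_two _ (hW.one 0) hu) (by omega)
    hW := hW32 _ haF
    ro2 := x1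
    wn := x2
    b1_le := x3
    numE := numE32 (κ := D.κ) (C := D.Cg) hg hG.ok P.hε1 hCx (hqa q (by omega)) x4
    numF := numF32 (κ := D.κ) (C := D.Cg) hg hG.ok P.hε1 hCx (hqa q (by omega)) x4 }

/-! ### The slots -/

/-- **THE SLOT `exclF`.** -/
theorem exclF19 (h : Evn P D μ s (XF19 F P Cx aX aF)) : Evn P D μ s (ExF F P) := by
  refine h.mono fun q η A lam n Γ G mt τ0 E hX => ?_
  obtain ⟨a1, b1, C1, C2, g, Y, ee, f, δ, X⟩ := hX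
  intro t i hrg x u hu ω hω ξ hξ ω₁ h₁ r₁ ω₂ h₂ r₂
  exact exclF25 X hrg x hu hω hξ h₁ r₁ h₂ r₂

/-- **THE SLOT `exclE`.** -/
theorem exclE19 (h : Evn P D μ s (XF19 F P Cx aX aF)) : Evn P D μ s (ExE F P) := by
  refine h.mono fun q η A lam n Γ G mt τ0 E hX => ?_
  obtain ⟨a1, b1, C1, C2, g, Y, ee, f, δ, X⟩ := hX
  intro t i hrg σ hs κ ρ hρ u hu ω hω ξ hξ ω₁ h₁ r₁ ω₂ h₂ r₂
  exact exclE25 X hrg hs κ hρ hu hω hξ h₁ r₁ h₂ r₂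

/-- **BOTH SLOTS.** -/
theorem excl19 [IsProbabilityMeasure μ] {c C : ℝ} {n₀ : ℕ} (hI : In μ s c C n₀) (hCx : 0 ≤ Cx) (haX : 2 ≤ aX)
    (haF : aF + 1 / 2 + (P.kn + 2 * P.kb) ≤ 2 ^ (P.r + 2)) (h : Evn P D μ s (XI19 F Cx aX aF)) :
    Evn P D μ s fun q η A lam n Γ G mt τ0 E => ExF F P q η A lam n Γ G mt τ0 E ∧ ExE F P q η A lam n Γ G mt τ0 E :=
  (exclF19 (evn_xi19 hI hCx haX haF h)).and (exclE19 (evn_xi19 hI hCx haX haF h))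

end

end Pool.Agent.W_7d29a1_C1.WrE19
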