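import Pool.Agent.W_7d29a1_C1.WrM19
import Pool.Agent.W_7d29a1_C1.WrW19
import Pool.Agent.W_7d29a1_C1.FamS98

/-!
Both halves (MP_7d29a1_pr), attractor route [C1], SEP: THE ANALYTIC HALF `LfF` AT THE FAMILIES OF PAGE 694 FROM TWO INPUTS. (helper19)

`lfF19`: `Evn (LfF (Fam98 ..) P μ)` from `OkE41`, `RoC41` (numbers), `Evn WQ19` (one record `WQ28` per window: `cmpA`, `M3A`) and
`Evn PI19` (the pieces `Pc53` of every window: `exclF`, `exclE`), both at the larger lucky set `Fam98o`.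
-/

set_option autoImplicit false

namespace Pool.Agent.W_7d29a1_C1.WrF19

open Finset MeasureTheory
open Pool.Agent.W_7d29a1_F Pool.Agent.W_7d29a1_h4g Pool.Agent.W_7d29a1_H Pool.Agent.W_7d29a1_HS
open Pool.Agent.W_7d29a1_C1.H60
open Pool.Agent.W_7d29a1_C1.H40 (Tk)
open Pool.Agent.W_7d29a1_C1.G37 (Gm Wok gmW)
open Pool.Agent.W_7d29a1_C1.SF98
open Pool.Agent.W_7d29a1_C1.P25
open Pool.Agent.W_7d29a1_C1.N49
open Pool.Agent.W_7d29a1_C1.Q49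
open Pool.Agent.W_7d29a1_C1.MC71 (K71)
open Pool.Agent.W_7d29a1_C1.MM28 (KM28)
open Pool.Agent.W_7d29a1_C1.WrS19 Pool.Agent.W_7d29a1_C1.WrE19 Pool.Agent.W_7d29a1_C1.WrM19 Pool.Agent.W_7d29a1_C1.WrX19
open Pool.Agent.W_7d29a1_C1.WrW19
open scoped ENNReal

noncomputable section

variable {P : Pre} {D : Dat} {μ : Measure ℝ} {s c : ℝ} {N : NmF} {F : Cf98}

/-- `Fam98` is the family with `L ∩ TmX`. -/
theorem fam_eq : Fam98 μ s c P N F = Fx (Fam98o μ s c P N F) (fun Γ => Ou37.gam μ s Γ) (bb98 F) (Q198 P F) := rfl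

theorem St_sub19 (Γ : Cx) (G : Gm) (E : ℕ → ℝ) (u : ℕ) (κ : ℤ × ℤ) : (Fam98o μ s c P N F).St Γ G E (E u / 16) u κ ⊆
    Sy78.St Γ G P.aS P.bS (P.βc * E u) u κ := by
  have e1 : (P.βc + 1 / 16) * E u - E u / 16 = P.βc * E u := by ring
  show Sy78.St Γ G P.aS P.bS ((P.βc + 1 / 16) * E u - E u / 16) u κ ⊆ _
  rw [e1]

theorem Fw_sub19 (Γ : Cx) (G : Gm) (E : ℕ → ℝ) (u : ℕ) (κ : ℤ × ℤ) : (Fam98o μ s c P N F).Fw Γ G E (E u / 16) u κ ⊆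
    SD53.Fw Γ G F.aF F.bF ((F.gF - 1 / 16) * E u) u κ := by
  have e1 : F.gF * E u - E u / 16 = (F.gF - 1 / 16) * E u := by ring
  show SD53.Fw Γ G F.aF F.bF (F.gF * E u - E u / 16) u κ ⊆ _
  rw [e1]

/-- **THE ANALYTIC HALF.** -/
theorem lfF19 [IsProbabilityMeasure μ] {C : ℝ} {n₀ : ℕ} (hI : In μ s c C n₀)
    (hE9 : ∀ᶠ n : ℕ in Filter.atTop, (n : ℝ) ^ (1 / 9 : ℝ) ≤ EE μ s n) {kw : ℝ} (hkw : 0 ≤ kw) :
    ∃ Ck : ℝ, 0 < Ck ∧ ∀ {P : Pre} {D : Dat} {N : NmF} {F : Cf98}, P.kw = kw → P.Cr < P.Cd → 5 / 2 ≤ P.aS → P.aS ≤ P.bS →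
      2 < F.bF → F.bF < F.aF → F.aF < 2 * P.kn - 2 → F.aF + 1 / 2 + (P.kn + 2 * P.kb) ≤ 2 ^ (P.r + 2) →
      RoC41 c kw Ck P.Cr (F.R1 - 1) F.al F.U₁ F.Uw F.V₁ F.Re F.Qe F.R1 (F.sgm * F.R1) → OkE41 P D μ s N (F.nr μ s c) →
      ∀ {C₀ p₀ cF : ℝ} {c₁ : ℝ≥0∞}, 0 < C₀ → 0 < p₀ → c₁ ≠ 0 → c₁ ≠ ⊤ → ENNReal.ofReal P.c' * K71 C₀ p₀ ≤ c₁ →
      KM28 C₀ p₀ c₁ ≤ P.C1 → Evn P D μ s (WQ19 (Fam98o μ s c P N F) P μ s c C₀ p₀ cF c₁) →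
      ∀ {R : Rt19}, R.Ok → R.fw + 1 ≤ F.gF - 1 / 16 → Evn P D μ s (PI19 (Fam98o μ s c P N F) R P.bS F.bF) →
      Evn P D μ s (LfF (Fam98 μ s c P N F) P μ) := by
  obtain ⟨Ck, hCk, H⟩ := xl98 hI hE9 hkw
  refine ⟨Ck, hCk, fun {P D N F} hk hCd haS hab hb hba ha haF hr hN {C₀ p₀ cF c₁} hC hp h0 h1 hcc hK hW {R} hR hgF hP => ?_⟩
  obtain ⟨a1, a2, a3, a4, a5⟩ := famS98 (D := D) hI hCd haS hab hb hba ha hN
  obtain ⟨b1, b2, b3⟩ := H (D := D) hk hr hN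
  have hT : Evn P D μ s (HT19 (Fam98o μ s c P N F) (fun Γ => Ou37.gam μ s Γ) (bb98 F) fun E u => (F.sgm * F.R1 + 1 / 16) * E u) :=
    b3.mono fun q η A lam n Γ G mt τ0 E h => h.hT
  have hm : Evn P D μ s (TTm (Fam98o μ s c P N F)) := evn_TTm (F := Fam98o μ s c P N F) a1 a2 a3 a4
  have hγ : ∀ (Γ : Cx) (k : ℕ) (y : ℤ), 0 < Ou37.gam μ s Γ k y := fun Γ k y => Ou37.gam_pos k y
  have hQ1 : ∀ (E : ℕ → ℝ) (u : ℕ), (F.sgm * F.R1 + 1 / 16) * E u + 2 * (P.Cr * E u) ≤ Q198 P F E u := fun E u => by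
    unfold Q198
    exact le_of_eq (by ring)
  have hx := hr.x0
  have c1 := cmpX19 (Q1 := Q198 P F) hγ hQ1 b2 hT (cmpA19 hI hC hp hcc hW)
  have c2 := m3AX19 (Q1 := Q198 P F) hγ hQ1 b2 hT hm (m3A19 hI hp h0 h1 hK hm hW)
  have d1 : Evn P D μ s (WI19 (Fam98o μ s c P N F) 2 F.aF) := wi19 hI hR (by linarith) hba hgF (fun Γ G E u κ _ => St_sub19 Γ G E u κ)
    (fun Γ G E u κ _ => Fw_sub19 Γ G E u κ) hP
  have hCr := P.hCr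
  have d2 : Evn P D μ s (XI19 (Fx (Fam98o μ s c P N F) (fun Γ => Ou37.gam μ s Γ) (bb98 F) (Q198 P F))
      (2 * (F.sgm * F.R1 + 1 / 16 + 2 * P.Cr)) 2 F.aF) :=
    xi19 (QQ := fun E u => (F.sgm * F.R1 + 1 / 16) * E u) hγ (fun E u hE => mul_nonneg (by linarith) hE.le)
      (fun E u hE => by
        have h2 := mul_nonneg hCr hE.le
        have h3 := hQ1 E u
        linarith)
      (fun E u _ => by
        unfold Q198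
        exact le_of_eq (by ring))
      (hN.ok.mono fun q η A lam n Γ G mt τ0 E h => h.b_ge) hT d1
  have d3 := excl19 hI (by linarith) le_rfl haF d2
  exact lf19 a1 a2 a3 a4 a5 b1 c1 c2 (d3.mono fun q η A lam n Γ G mt τ0 E h => h.1) (d3.mono fun q η A lam n Γ G mt τ0 E h => h.2)

end

end Pool.Agent.W_7d29a1_C1.WrF19
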