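import Pool.Agent.W_7d29a1_C1.WrE19
import Pool.Agent.W_7d29a1_C1.RoX53

/-!
Both halves (MP_7d29a1_pr), attractor route [C1], SEP: FROM `L` TO `L' = L ∩ TmX` (RoX53) IN THE FORM `Evn`. (helper19)

`Fam.x F γ bb Q1`: the family with `L' = Lx53 .. L`. `HT19`: the typical events lie in `TmX` at `bb, QQ`. `cmpX19`, `m3AX19`: the slots
`cmpA`, `M3A` pass from `L` to `L'`; `xi19`: `XI19` at `L'` (all four pairs) from the ratio `ro`, `HT19` and `Wn53` for `L`.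
-/

set_option autoImplicit false

namespace Pool.Agent.W_7d29a1_C1.WrX19

open Finset MeasureTheory
open Pool.Agent.W_7d29a1_F Pool.Agent.W_7d29a1_h4g Pool.Agent.W_7d29a1_H Pool.Agent.W_7d29a1_HS
open Pool.Agent.W_7d29a1_C1.H60
open Pool.Agent.W_7d29a1_C1.H40 (Tk)
open Pool.Agent.W_7d29a1_C1.G37 (Gm Wok gmW)
open Pool.Agent.W_7d29a1_C1.H49 (Par ex Hf Hs rat cnt)
open Pool.Agent.W_7d29a1_C1.SF98
open Pool.Agent.W_7d29a1_C1.P25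
open Pool.Agent.W_7d29a1_C1.N49
open Pool.Agent.W_7d29a1_C1.Q49
open Pool.Agent.W_7d29a1_C1.SD53 (XI53 Wn53 Zg Fz Pq Lx53 TmX indL_eq mem_Lx ro4)
open Pool.Agent.W_7d29a1_C1.NE32
open Pool.Agent.W_7d29a1_C1.WrS19 Pool.Agent.W_7d29a1_C1.WrE19
open scoped ENNReal

noncomputable section

/-- The family with `L' = L ∩ TmX`. -/
def Fx (F : Fam) (γ : Cx → ℕ → ℤ → ℝ) (bb Q1 : (ℕ → ℝ) → ℕ → ℝ) : Fam :=
  { F with L := fun Γ G E => Lx53 Γ G (γ Γ) (bb E) (Q1 E) (F.L Γ G E) }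

/-- The typical events lie in `TmX`. -/
def HT19 (F : Fam) (γ : Cx → ℕ → ℤ → ℝ) (bb QQ : (ℕ → ℝ) → ℕ → ℝ) : Phi := fun _q _η _A _lam _n Γ G mt τ0 E =>
  ∀ u κ, τ0 < u → u < G.M → (∃ c ∈ FS Γ G mt, G.loc u c = κ) →
    Tx (F.TT Γ G E) (fun u => E u / 16) u κ ⊆ TmX Γ G (γ Γ) (bb E u) (QQ E u) u κ

variable {P : Pre} {D : Dat} {μ : Measure ℝ} {s : ℝ} {F : Fam} {γ : Cx → ℕ → ℤ → ℝ} {bb QQ Q1 : (ℕ → ℝ) → ℕ → ℝ}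

/-- **`cmpA` passes to `L'`.** -/
theorem cmpX19 (hγ : ∀ Γ k y, 0 < γ Γ k y) (hQ1 : ∀ E u, QQ E u + 2 * (P.Cr * E u) ≤ Q1 E u) (hr : Evn P D μ s (Ro F P))
    (hT : Evn P D μ s (HT19 F γ bb QQ)) (h : Evn P D μ s (Cm F P μ)) : Evn P D μ s (Cm (Fx F γ bb Q1) P μ) := by
  refine ((hr.and hT).and h).monoG fun q m2 η A lam m0 g1 e0 c₂ δ κ n Γ T0 M mt τ0 hc hW hη hA he0 h1 h2 h3 h4 h5 hg hG hh => ?_
  obtain ⟨⟨h6, h7⟩, h8⟩ := hh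
  intro t i hti u hu y ω hω
  have hst := hG.ok.st_ge t i
  obtain ⟨t1, t2, t3⟩ := hti
  obtain ⟨u1, u2⟩ := mem_Ico.1 hu
  refine (h8 t i ⟨t1, t2, t3⟩ u hu y ω hω).trans (le_of_eq (lintegral_congr fun ξ => ?_))
  exact (indL_eq (hγ Γ) h6 h7 (hQ1 _) (show τ0 < u by omega) (lt_of_lt_of_le u2 t3) ⟨y.1, y.2, rfl⟩ hω _ ξ).symm

/-- **`M3A` passes to `L'`.** -/
theorem m3AX19 (hγ : ∀ Γ k y, 0 < γ Γ k y) (hQ1 : ∀ E u, QQ E u + 2 * (P.Cr * E u) ≤ Q1 E u) (hr : Evn P D μ s (Ro F P))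
    (hT : Evn P D μ s (HT19 F γ bb QQ)) (hm : Evn P D μ s (TTm F)) (h : Evn P D μ s (M3 F P μ)) :
    Evn P D μ s (M3 (Fx F γ bb Q1) P μ) := by
  refine (((hr.and hT).and hm).and h).monoG fun q m2 η A lam m0 g1 e0 c₂ δ κ n Γ T0 M mt τ0 hc hW hη hA he0 h1 h2 h3 h4 h5 hg hG
    hh => ?_
  obtain ⟨⟨⟨h6, h7⟩, h9⟩, h8⟩ := hh
  intro t i hti u hu K ω hω hH
  have hst := hG.ok.st_ge t i
  obtain ⟨t1, t2, t3⟩ := hti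
  obtain ⟨u1, u2⟩ := mem_Ico.1 hu
  have hx : ω ∈ Tx (F.TT Γ (P.G hW M m0 g1 m2 hc.h1 hc.h2) fun u => EE μ s (Tk T0 D.K u)) (fun u => EE μ s (Tk T0 D.K u) / 16) u K.1 :=
    h9.2 _ _ _ _ ((add_le_add le_rfl (dA_le hG.num.d_nonneg ∅ u)).trans (hG.num.smax_ge u)) hω
  refine (h8 t i ⟨t1, t2, t3⟩ u hu K ω hω hH).trans (mul_le_mul' le_rfl (le_of_eq (lintegral_congr fun ξ => ?_)))
  exact (indL_eq (hγ Γ) h6 h7 (hQ1 _) (show τ0 < u by omega) (lt_of_lt_of_le u2 t3) (by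
    obtain ⟨c0, hc0⟩ := (P.G hW M m0 g1 m2 hc.h1 hc.h2).exists_cel K
    exact ⟨c0.1, c0.2, congrArg Subtype.val hc0⟩) hx _ ξ).symm

/-- **`Wn53` FOR EVERY WINDOW** (with the larger `L`) and the numbers of the window. -/
def WI19 (F : Fam) (aX aF : ℝ) : Phi := fun _q _η _A _lam n Γ G mt τ0 E =>
  ∃ (a1 b1 : ℕ → ℤ × ℤ → ℕ) (C1 C2 : ℕ → ℤ × ℤ → Set ℤ) (g Y ee f δ : ℕ → ℝ),
    (∀ u κ, τ0 < u → u < G.M → (∃ c ∈ FS Γ G mt, G.loc u c = κ) → ∀ ω ∈ Tx (F.TT Γ G E) (fun u => E u / 16) u κ, ∀ η,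
      G.R u κ η ω ∈ F.L Γ G E u κ →
      Wn53 Γ (G.ra u κ - 1) (a1 u κ) (b1 u κ) (C1 u κ) (C2 u κ) (Zg G u κ aX) (Fz G u κ aF) (g u) (Y u) (ee u) (f u) (δ u)
        ω (G.R u κ η ω)) ∧
    (∀ u κ, b1 u κ ≤ G.re u κ) ∧
    ∀ u, τ0 < u → Ex32 E (Ln n) u (g u) (Y u) (ee u) (f u) (δ u)

/-- **THE INPUT OF THE EXCLUSIONS AT `L'`**: all four pairs. -/
theorem xi19 {Cx' aX aF : ℝ} (hγ : ∀ Γ k y, 0 < γ Γ k y) (hQ : ∀ E u, 0 < E u → 0 ≤ QQ E u) (hQ1 : ∀ E u, 0 < E u → QQ E u ≤ Q1 E u)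
    (hCx : ∀ E u, 0 < E u → 2 * Q1 E u ≤ Cx' * E u)
    (hb : Evn P D μ s fun _ _ _ _ _ _ G _ τ0 E => ∀ u, τ0 < u → G.kw * G.w u + 2 ≤ bb E u * G.w u)
    (hT : Evn P D μ s (HT19 F γ bb QQ)) (h : Evn P D μ s (WI19 F aX aF)) : Evn P D μ s (XI19 (Fx F γ bb Q1) Cx' aX aF) := by
  refine ((hb.and hT).and h).monoG fun q m2 η A lam m0 g1 e0 c₂ δ κ n Γ T0 M mt τ0 hc hW hη hA he0 h1 h2 h3 h4 h5 hg hG hh => ?_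
  obtain ⟨⟨h6, h7⟩, a1, b1, C1, C2, g, Y, ee, f, δ', x2, x3, x4⟩ := hh
  refine ⟨a1, b1, C1, C2, g, Y, ee, f, δ', ?_, fun u κ' hu hM hκ ω hω ξ hξ => x2 u κ' hu hM hκ ω hω ξ hξ.1, x3, x4⟩
  refine ro4 (QQ := QQ fun u => EE μ s (Tk T0 D.K u)) (hγ Γ) hG.v0 hG.v1 ?_ h6 h7 (fun u => hQ _ u (hg.pos u))
    (fun u => hQ1 _ u (hg.pos u)) fun u => hCx _ u (hg.pos u)
  have := hc.mt_ge
  show M ≤ mt
  omega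

end

end Pool.Agent.W_7d29a1_C1.WrX19
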