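import Mathlib

/-!
Both halves (MP_7d29a1_pr), attractor route: the weight inequality, abstract form. (helper9)

`(Ω, P)` is the environment, `R i η' ω` is the environment `ω` with the slab `i` taken from `η'` (laws:
measure preserving, `R i η' (R i η'' ω) = R i η' ω`, `R i ω ω = ω`). `T i` = the slab `i` is typical, `A i` = success at the
slab `i`, `U i` = the slab `i` is usable (so typical or successful); `W` = any weight. If for every usable slab
the weight of the successes is at least `c` times the weight of the typical slabs, everything else being fixed,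
then the weight of `at least r usable slabs and no success at a usable slab` is at most `(1 + c) ^ (- r)` times
the whole weight. No counting of maps.
-/

set_option autoImplicit false

namespace Pool.Agent.W_7d29a1_C1.H9

open MeasureTheory
open scoped ENNReal

variable {Ω ι : Type*} [MeasurableSpace Ω] {P : Measure Ω}

/-- The chain: coordinate by coordinate. -/
theorem chain [DecidableEq ι] (T N : ι → Set Ω) (K : Set Ω) (W : Ω → ℝ≥0∞) (c : ℝ≥0∞) (V : Finset ι)
    (h : ∀ i ∈ V, ∀ s : Finset ι, s ⊆ V → i ∉ s →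
      (1 + c) * ∫⁻ ω in K ∩ (⋂ j ∈ s, T j) ∩ (⋂ j ∈ V \ insert i s, N j) ∩ T i, W ω ∂P ≤
        ∫⁻ ω in K ∩ (⋂ j ∈ s, T j) ∩ (⋂ j ∈ V \ insert i s, N j) ∩ N i, W ω ∂P) :
    (1 + c) ^ V.card * ∫⁻ ω in K ∩ (⋂ i ∈ V, T i), W ω ∂P ≤ ∫⁻ ω in K ∩ (⋂ i ∈ V, N i), W ω ∂P := by
  -- for `s ⊆ V`: the coordinates of `s` are in `T`, the others in `N`
  have key : ∀ s : Finset ι, s ⊆ V →
      (1 + c) ^ s.card * ∫⁻ ω in K ∩ (⋂ j ∈ s, T j) ∩ (⋂ j ∈ V \ s, N j), W ω ∂P ≤
        ∫⁻ ω in K ∩ (⋂ i ∈ V, N i), W ω ∂P := by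
    intro s
    induction s using Finset.induction_on with
    | empty => intro _; simp
    | insert i s his ih =>
      intro hs
      have hiV : i ∈ V := hs (Finset.mem_insert_self i s)
      have hsV : s ⊆ V := fun j hj => hs (Finset.mem_insert_of_mem hj)
      have h1 := h i hiV s hsV his
      have e1 : K ∩ (⋂ j ∈ insert i s, T j) ∩ (⋂ j ∈ V \ insert i s, N j) =
          K ∩ (⋂ j ∈ s, T j) ∩ (⋂ j ∈ V \ insert i s, N j) ∩ T i := by
        ext ω
        simp only [Set.mem_inter_iff, Set.mem_iInter, Finset.mem_insert, Finset.mem_sdiff]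
        constructor
        · rintro ⟨⟨hK, hT⟩, hN⟩
          exact ⟨⟨⟨hK, fun j hj => hT j (Or.inr hj)⟩, hN⟩, hT i (Or.inl rfl)⟩
        · rintro ⟨⟨⟨hK, hT⟩, hN⟩, hTi⟩
          refine ⟨⟨hK, fun j hj => ?_⟩, hN⟩
          rcases hj with rfl | hj
          · exact hTi
          · exact hT j hj
      have e2 : K ∩ (⋂ j ∈ s, T j) ∩ (⋂ j ∈ V \ insert i s, N j) ∩ N i =
          K ∩ (⋂ j ∈ s, T j) ∩ (⋂ j ∈ V \ s, N j) := by
        ext ω
        simp only [Set.mem_inter_iff, Set.mem_iInter, Finset.mem_insert, Finset.mem_sdiff]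
        constructor
        · rintro ⟨⟨⟨hK, hT⟩, hN⟩, hNi⟩
          refine ⟨⟨hK, hT⟩, fun j hj => ?_⟩
          by_cases hji : j = i
          · subst hji; exact hNi
          · exact hN j ⟨hj.1, fun hc => hc.elim hji hj.2⟩
        · rintro ⟨⟨hK, hT⟩, hN⟩
          exact ⟨⟨⟨hK, hT⟩, fun j hj => hN j ⟨hj.1, fun hc => hj.2 (Or.inr hc)⟩⟩, hN i ⟨hiV, his⟩⟩
      rw [e1, Finset.card_insert_of_notMem his, pow_succ, mul_assoc]
      rw [e2] at h1
      calc (1 + c) ^ s.card * ((1 + c) *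
            ∫⁻ ω in K ∩ (⋂ j ∈ s, T j) ∩ (⋂ j ∈ V \ insert i s, N j) ∩ T i, W ω ∂P)
          ≤ (1 + c) ^ s.card * ∫⁻ ω in K ∩ (⋂ j ∈ s, T j) ∩ (⋂ j ∈ V \ s, N j), W ω ∂P := by gcongr
        _ ≤ _ := ih hsV
  have h2 := key V (Finset.Subset.refl V)
  simpa using h2

/-- The data of the weight inequality. -/
structure WtData (P : Measure Ω) (R : ι → Ω → Ω → Ω) (T A U : ι → Set Ω) (W : Ω → ℝ≥0∞) (c : ℝ≥0∞) : Prop where
  mp : ∀ i, MeasurePreserving (fun w : Ω × Ω => R i w.1 w.2) (P.prod P) P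
  rr : ∀ i η η' ω, R i η (R i η' ω) = R i η ω
  rs : ∀ i ω, R i ω ω = ω
  mT : ∀ i, MeasurableSet (T i)
  mA : ∀ i, MeasurableSet (A i)
  mU : ∀ i, MeasurableSet (U i)
  mW : Measurable W
  disj : ∀ i, Disjoint (T i) (A i)
  /-- usable slabs are typical or successful -/
  sub : ∀ i, U i ⊆ T i ∪ A i
  /-- usability is not changed when a slab is changed inside `typical or successful` -/
  inv : ∀ i j η ω, ω ∈ T i ∪ A i → R i η ω ∈ T i ∪ A i → ω ∈ U j → R i η ω ∈ U j
  /-- typicality and success of another slab are not changed either -/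
  blT : ∀ i j, i ≠ j → ∀ η ω, ω ∈ T i ∪ A i → R i η ω ∈ T i ∪ A i → ω ∈ T j → R i η ω ∈ T j
  blA : ∀ i j, i ≠ j → ∀ η ω, ω ∈ T i ∪ A i → R i η ω ∈ T i ∪ A i → ω ∈ A j → R i η ω ∈ A j
  /-- the comparison at one slab, everything else fixed -/
  cmp : ∀ i ω, ω ∈ U i →
    c * ∫⁻ η in {η | R i η ω ∈ T i}, W (R i η ω) ∂P ≤ ∫⁻ η in {η | R i η ω ∈ A i}, W (R i η ω) ∂P

namespace WtData

variable {R : ι → Ω → Ω → Ω} {T A U : ι → Set Ω} {W : Ω → ℝ≥0∞} {c : ℝ≥0∞}

/-- The inequality for a set `K` which is not changed by changes of the slab `i` inside `typical or successful`. -/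
theorem one [SFinite P] (h : WtData P R T A U W c) (i : ι) {K : Set Ω} (hKm : MeasurableSet K)
    (hKU : K ∩ (T i ∪ A i) ⊆ U i)
    (hK : ∀ η ω, ω ∈ T i ∪ A i → R i η ω ∈ T i ∪ A i → ω ∈ K → R i η ω ∈ K) :
    (1 + c) * ∫⁻ ω in K ∩ T i, W ω ∂P ≤ ∫⁻ ω in K ∩ (T i ∪ A i), W ω ∂P := by
  have hmp := h.mp i
  have hmeasR : Measurable (fun w : Ω × Ω => R i w.1 w.2) := hmp.measurable
  -- integrals over the slab
  have conv : ∀ B : Set Ω, MeasurableSet B → ∫⁻ ω in B, W ω ∂P =
      ∫⁻ ω, ∫⁻ η in {η | R i η ω ∈ B}, W (R i η ω) ∂P ∂P := by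
    intro B hB
    rw [← lintegral_indicator hB, ← hmp.lintegral_comp (h.mW.indicator hB)]
    refine (lintegral_prod_symm' (fun w : Ω × Ω => B.indicator W (R i w.1 w.2))
      ((h.mW.indicator hB).comp hmeasR)).trans ?_
    refine lintegral_congr fun ω => ?_
    have hBω : MeasurableSet {η | R i η ω ∈ B} := by
      exact (hmeasR.comp (measurable_id.prodMk measurable_const)) hB
    rw [← lintegral_indicator hBω]
    refine lintegral_congr fun η => ?_
    by_cases hη : R i η ω ∈ B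
    · rw [Set.indicator_of_mem hη, Set.indicator_of_mem (show η ∈ {η | R i η ω ∈ B} from hη)]
    · rw [Set.indicator_of_notMem hη, Set.indicator_of_notMem (show η ∉ {η | R i η ω ∈ B} from hη)]
  have hAc : c * ∫⁻ ω in K ∩ T i, W ω ∂P ≤ ∫⁻ ω in K ∩ A i, W ω ∂P := by
    rw [conv _ (hKm.inter (h.mT i)), conv _ (hKm.inter (h.mA i))]
    have hmF : Measurable fun ω => ∫⁻ η in {η | R i η ω ∈ K ∩ T i}, W (R i η ω) ∂P := by
      have e : (fun ω => ∫⁻ η in {η | R i η ω ∈ K ∩ T i}, W (R i η ω) ∂P) =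
          fun ω => ∫⁻ η, (K ∩ T i).indicator W (R i η ω) ∂P := by
        funext ω
        have hBω : MeasurableSet {η | R i η ω ∈ K ∩ T i} :=
          (hmeasR.comp (measurable_id.prodMk measurable_const)) (hKm.inter (h.mT i))
        rw [← lintegral_indicator hBω]
        refine lintegral_congr fun η => ?_
        by_cases hη : R i η ω ∈ K ∩ T i
        · rw [Set.indicator_of_mem hη,
            Set.indicator_of_mem (show η ∈ {η | R i η ω ∈ K ∩ T i} from hη)]
        · rw [Set.indicator_of_notMem hη,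
            Set.indicator_of_notMem (show η ∉ {η | R i η ω ∈ K ∩ T i} from hη)]
      rw [e]
      exact Measurable.lintegral_prod_left'
        (f := fun w : Ω × Ω => (K ∩ T i).indicator W (R i w.1 w.2))
        ((h.mW.indicator (hKm.inter (h.mT i))).comp hmeasR)
    rw [← lintegral_const_mul _ hmF]
    refine lintegral_mono fun ω => ?_
    by_cases hex : ∃ η₀, R i η₀ ω ∈ K ∩ (T i ∪ A i)
    · obtain ⟨η₀, hη₀K, hη₀N⟩ := hex
      have hU : R i η₀ ω ∈ U i := hKU ⟨hη₀K, hη₀N⟩
      have hc := h.cmp i _ hU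
      simp only [h.rr] at hc
      have hall : ∀ η, R i η ω ∈ T i ∪ A i → R i η ω ∈ K := by
        intro η hη
        have := hK η (R i η₀ ω) hη₀N (by rw [h.rr]; exact hη) hη₀K
        rwa [h.rr] at this
      have e1 : {η | R i η ω ∈ K ∩ T i} = {η | R i η ω ∈ T i} := by
        ext η
        exact ⟨fun hη => hη.2, fun hη => ⟨hall η (Or.inl hη), hη⟩⟩
      have e2 : {η | R i η ω ∈ K ∩ A i} = {η | R i η ω ∈ A i} := by
        ext η
        exact ⟨fun hη => hη.2, fun hη => ⟨hall η (Or.inr hη), hη⟩⟩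
      rw [e1, e2]
      exact hc
    · have e1 : {η | R i η ω ∈ K ∩ T i} = ∅ := by
        ext η
        simp only [Set.mem_ofPred_eq, Set.mem_empty_iff_false, iff_false]
        exact fun hη => hex ⟨η, hη.1, Or.inl hη.2⟩
      rw [e1]
      simp
  have e3 : K ∩ (T i ∪ A i) = (K ∩ T i) ∪ (K ∩ A i) := Set.inter_union_distrib_left K (T i) (A i)
  have hd : Disjoint (K ∩ T i) (K ∩ A i) :=
    (h.disj i).mono Set.inter_subset_right Set.inter_subset_right
  rw [e3, lintegral_union (hKm.inter (h.mA i)) hd, add_mul, one_mul]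
  gcongr

/-- WEIGHT INEQUALITY. -/
theorem wt [Fintype ι] [SFinite P] (h : WtData P R T A U W c) (r : ℕ) :
    (1 + c) ^ r * ∫⁻ ω in {ω | ∃ V : Finset ι, r ≤ V.card ∧ (∀ i, ω ∈ U i ↔ i ∈ V) ∧ ∀ i ∈ V, ω ∈ T i},
      W ω ∂P ≤ ∫⁻ ω, W ω ∂P := by
  classical
  -- the event `U (ω) = V`
  set E : Finset ι → Set Ω := fun V => {ω | ∀ i, ω ∈ U i ↔ i ∈ V} with hE
  have hEm : ∀ V, MeasurableSet (E V) := by
    intro V
    have : E V = ⋂ i, {ω | ω ∈ U i ↔ i ∈ V} := by ext ω; simp [hE]
    rw [this]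
    refine MeasurableSet.iInter fun i => ?_
    by_cases hi : i ∈ V
    · simpa [hi] using h.mU i
    · have e : {ω | ω ∈ U i ↔ i ∈ V} = (U i)ᶜ := by ext ω; simp [hi]
      rw [e]
      exact (h.mU i).compl
  have hEd : Pairwise fun V V' => Disjoint (E V) (E V') := by
    intro V V' hne
    rw [Set.disjoint_left]
    intro ω h1 h2
    exact hne (Finset.ext fun i => by rw [← h1 i, ← h2 i])
  -- the main inequality for one `V`
  have hV : ∀ V : Finset ι, (1 + c) ^ V.card * ∫⁻ ω in E V ∩ (⋂ i ∈ V, T i), W ω ∂P ≤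
      ∫⁻ ω in E V, W ω ∂P := by
    intro V
    have h1 := chain (P := P) T (fun i => T i ∪ A i) (E V) W c V (by
      intro i hi s hs his
      set K : Set Ω := E V ∩ (⋂ j ∈ s, T j) ∩ (⋂ j ∈ V \ insert i s, (T j ∪ A j)) with hKdef
      have hKm : MeasurableSet K :=
        ((hEm V).inter (Finset.measurableSet_biInter _ fun j _ => h.mT j)).inter
          (Finset.measurableSet_biInter _ fun j _ => (h.mT j).union (h.mA j))
      refine h.one i hKm ?_ ?_
      · rintro ω ⟨⟨⟨hω, -⟩, -⟩, -⟩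
        exact (hω i).2 hi
      · rintro η ω hωN hηN ⟨⟨hωE, hωT⟩, hωN'⟩
        refine ⟨⟨fun j => ?_, ?_⟩, ?_⟩
        · constructor
          · intro hj
            have e : R i ω (R i η ω) = ω := by rw [h.rr, h.rs]
            have hback := h.inv i j ω (R i η ω) hηN (by rw [e]; exact hωN) hj
            rw [e] at hback
            exact (hωE j).1 hback
          · intro hj
            exact h.inv i j η ω hωN hηN ((hωE j).2 hj)
        · simp only [Set.mem_iInter] at hωT ⊢
          intro j hj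
          have hij : i ≠ j := fun he => his (he ▸ hj)
          exact h.blT i j hij η ω hωN hηN (hωT j hj)
        · simp only [Set.mem_iInter, Finset.mem_sdiff, Finset.mem_insert] at hωN' ⊢
          intro j hj
          have hij : i ≠ j := fun he => hj.2 (Or.inl he.symm)
          rcases hωN' j hj with h' | h'
          · exact Or.inl (h.blT i j hij η ω hωN hηN h')
          · exact Or.inr (h.blA i j hij η ω hωN hηN h'))
    refine h1.trans (lintegral_mono_set Set.inter_subset_left)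
  -- sum over `V`
  have hfin : {ω | ∃ V : Finset ι, r ≤ V.card ∧ (∀ i, ω ∈ U i ↔ i ∈ V) ∧ ∀ i ∈ V, ω ∈ T i} =
      ⋃ V ∈ (Finset.univ.filter fun V : Finset ι => r ≤ V.card), E V ∩ (⋂ i ∈ V, T i) := by
    ext ω
    simp only [Set.mem_ofPred_eq, Set.mem_iUnion, Finset.mem_filter, Finset.mem_univ, true_and,
      Set.mem_inter_iff, Set.mem_iInter, exists_prop, hE]
  rw [hfin, lintegral_biUnion_finset (fun V _ V' _ hne =>
      (hEd hne).mono Set.inter_subset_left Set.inter_subset_left)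
    (fun V _ => (hEm V).inter (Finset.measurableSet_biInter _ fun j _ => h.mT j)), Finset.mul_sum]
  have h2 : ∑ V ∈ (Finset.univ.filter fun V : Finset ι => r ≤ V.card), ∫⁻ ω in E V, W ω ∂P ≤
      ∫⁻ ω, W ω ∂P := by
    rw [← lintegral_biUnion_finset (fun V _ V' _ hne => hEd hne) (fun V _ => hEm V)]
    exact setLIntegral_le_lintegral _ _
  refine le_trans (Finset.sum_le_sum fun V hV' => ?_) h2
  have hr : r ≤ V.card := (Finset.mem_filter.1 hV').2
  refine le_trans ?_ (hV V)
  gcongr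
  exact le_self_add

open Classical in
/-- WEIGHT INEQUALITY, second form: at least `r` usable slabs and no success at a usable slab. -/
theorem none [Fintype ι] [SFinite P] (h : WtData P R T A U W c) (r : ℕ) :
    (1 + c) ^ r * ∫⁻ ω in {ω | r ≤ (Finset.univ.filter fun i => ω ∈ U i).card ∧ ∀ i, ω ∈ U i → ω ∉ A i},
      W ω ∂P ≤ ∫⁻ ω, W ω ∂P := by
  refine le_trans ?_ (h.wt r)
  refine mul_le_mul_right (lintegral_mono_set ?_) _
  rintro ω ⟨h1, h2⟩
  refine ⟨Finset.univ.filter fun i => ω ∈ U i, h1, fun i => by simp, fun i hi => ?_⟩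
  have hi' : ω ∈ U i := (Finset.mem_filter.1 hi).2
  exact (h.sub i hi').resolve_right (h2 i hi')

end WtData

end Pool.Agent.W_7d29a1_C1.H9
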