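import Mathlib

/-!
Both halves (MP_7d29a1_pr), attractor route: the weight inequality, SEQUENTIAL form, slabs integrated from inside to outside. (helper24)

`(Ω, P)` is the environment, `R i η ω` is the environment `ω` with the slab `i` taken from `η`; the slab `0` is the innermost one.
`T i` = the slab `i` is typical, `A i` = success at the slab `i`, `U i` = the slab `i` is usable. What is asked: `U i`, `T i`, `A i` do
not see the slabs which are farther INSIDE (`j < i`), and `U i` does not see the slab `i`. They may depend in any way on the slabs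
which are farther outside (windows of the level, gaps, ..): nothing is asked about the effect of a change of an outer slab on the
inner ones. If for every usable slab the weight of the successes is at least `c` times the weight of the typical slabs, everything
else being fixed, then the weight of `at least r usable typical slabs and no success at a usable slab` is at most `(1 + c) ^ (- r)`
times the whole weight.
-/

set_option autoImplicit false

namespace Pool.Agent.W_7d29a1_C1.H24

open MeasureTheory Finset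
open scoped ENNReal

variable {Ω : Type*} [MeasurableSpace Ω] {P : Measure Ω}

/-- One slab: a factor `g` whose mean over the slab, under the weight, is at most one can be removed in the presence of any factor
`F` which does not see the slab. -/
theorem step24 [SFinite P] {R : Ω → Ω → Ω} (mp : MeasurePreserving (fun w : Ω × Ω => R w.1 w.2) (P.prod P) P)
    {W F g : Ω → ℝ≥0∞} (hW : Measurable W) (hF : Measurable F) (hg : Measurable g) (hFb : ∀ η ω, F (R η ω) = F ω)
    (hc : ∀ ω, ∫⁻ η, g (R η ω) * W (R η ω) ∂P ≤ ∫⁻ η, W (R η ω) ∂P) :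
    ∫⁻ ω, F ω * (g ω * W ω) ∂P ≤ ∫⁻ ω, F ω * W ω ∂P := by
  have key : ∀ G : Ω → ℝ≥0∞, Measurable G → ∫⁻ ω, F ω * G ω ∂P = ∫⁻ ω, F ω * ∫⁻ η, G (R η ω) ∂P ∂P := by
    intro G hG
    have hFG : Measurable fun ω => F ω * G ω := hF.mul hG
    have h0 := mp.lintegral_comp (f := fun ω => F ω * G ω) hFG
    have h1 : Measurable fun w : Ω × Ω => F (R w.1 w.2) * G (R w.1 w.2) := hFG.comp mp.measurable
    rw [← h0, lintegral_prod_symm' _ h1]
    refine lintegral_congr fun ω => ?_
    simp only [hFb]
    rw [lintegral_const_mul]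
    exact (hG.comp mp.measurable).comp (measurable_id.prodMk measurable_const)
  rw [key (fun ω => g ω * W ω) (hg.mul hW), key _ hW]
  exact lintegral_mono fun ω => mul_le_mul_right (hc ω) _

/-- The product of the factors over the slabs `0, .., m - 1`, integrated from inside to outside. -/
theorem prod24 [SFinite P] {m : ℕ} {R : ℕ → Ω → Ω → Ω}
    (mp : ∀ i < m, MeasurePreserving (fun w : Ω × Ω => R i w.1 w.2) (P.prod P) P)
    {W : Ω → ℝ≥0∞} {g : ℕ → Ω → ℝ≥0∞} (hW : Measurable W) (hg : ∀ i < m, Measurable (g i))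
    (hb : ∀ i j, i < j → j < m → ∀ η ω, g j (R i η ω) = g j ω)
    (hc : ∀ i < m, ∀ ω, ∫⁻ η, g i (R i η ω) * W (R i η ω) ∂P ≤ ∫⁻ η, W (R i η ω) ∂P) :
    ∫⁻ ω, (∏ i ∈ range m, g i ω) * W ω ∂P ≤ ∫⁻ ω, W ω ∂P := by
  have key : ∀ k, k ≤ m → ∫⁻ ω, (∏ i ∈ range m, g i ω) * W ω ∂P ≤ ∫⁻ ω, (∏ i ∈ Ico k m, g i ω) * W ω ∂P := by
    intro k
    induction k with
    | zero =>
      intro _
      rw [Finset.range_eq_Ico]
    | succ k ih =>
      intro hk
      refine (ih (by omega)).trans ?_
      have h1 : ∀ ω, (∏ i ∈ Ico k m, g i ω) * W ω = (∏ i ∈ Ico (k + 1) m, g i ω) * (g k ω * W ω) := by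
        intro ω
        rw [Finset.prod_eq_prod_Ico_succ_bot (by omega : k < m)]
        ring
      simp_rw [h1]
      refine step24 (mp k (by omega)) hW ?_ (hg k (by omega)) ?_ (hc k (by omega))
      · exact Finset.measurable_prod _ fun i hi => hg i (Finset.mem_Ico.1 hi).2
      · intro η ω
        refine Finset.prod_congr rfl fun j hj => ?_
        have := Finset.mem_Ico.1 hj
        exact hb k j (by omega) this.2 η ω
  have h2 := key m (le_refl m)
  simpa using h2

open Classical in
/-- The factor of one slab. -/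
noncomputable def fac24 (T A U : Set Ω) (c : ℝ≥0∞) (ω : Ω) : ℝ≥0∞ :=
  if ω ∈ U then (if ω ∈ A then 0 else if ω ∈ T then 1 + c else 1) else 1

open Classical in
theorem measurable_fac24 {T A U : Set Ω} {c : ℝ≥0∞} (hT : MeasurableSet T) (hA : MeasurableSet A) (hU : MeasurableSet U) :
    Measurable (fac24 T A U c) := by
  unfold fac24
  exact Measurable.ite hU (Measurable.ite hA measurable_const (Measurable.ite hT measurable_const measurable_const))
    measurable_const

/-- The data of the sequential weight inequality. -/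
structure SeqData (P : Measure Ω) (m : ℕ) (R : ℕ → Ω → Ω → Ω) (T A U : ℕ → Set Ω) (W : Ω → ℝ≥0∞) (c : ℝ≥0∞) : Prop where
  mp : ∀ i < m, MeasurePreserving (fun w : Ω × Ω => R i w.1 w.2) (P.prod P) P
  mT : ∀ i < m, MeasurableSet (T i)
  mA : ∀ i < m, MeasurableSet (A i)
  mU : ∀ i < m, MeasurableSet (U i)
  mW : Measurable W
  disj : ∀ i < m, Disjoint (T i) (A i)
  /-- usability of the slab `j` is seen from outside the slab `j` -/
  blU : ∀ i j, i ≤ j → j < m → ∀ η ω, R i η ω ∈ U j ↔ ω ∈ U j
  /-- typicality and success of the slab `j` do not see the slabs farther inside -/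
  blT : ∀ i j, i < j → j < m → ∀ η ω, ω ∈ U j → (R i η ω ∈ T j ↔ ω ∈ T j)
  blA : ∀ i j, i < j → j < m → ∀ η ω, ω ∈ U j → (R i η ω ∈ A j ↔ ω ∈ A j)
  /-- the comparison at one slab, everything else fixed -/
  cmp : ∀ i < m, ∀ ω, ω ∈ U i →
    c * ∫⁻ η in {η | R i η ω ∈ T i}, W (R i η ω) ∂P ≤ ∫⁻ η in {η | R i η ω ∈ A i}, W (R i η ω) ∂P

namespace SeqData

variable {m : ℕ} {R : ℕ → Ω → Ω → Ω} {T A U : ℕ → Set Ω} {W : Ω → ℝ≥0∞} {c : ℝ≥0∞}

open Classical in
/-- The mean of the factor of one slab is at most one. -/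
theorem fac_le (h : SeqData P m R T A U W c) {i : ℕ} (hi : i < m) (ω : Ω) :
    ∫⁻ η, fac24 (T i) (A i) (U i) c (R i η ω) * W (R i η ω) ∂P ≤ ∫⁻ η, W (R i η ω) ∂P := by
  have hR : Measurable fun η => R i η ω :=
    (h.mp i hi).measurable.comp (measurable_id.prodMk measurable_const)
  by_cases hU : ω ∈ U i
  · have hUη : ∀ η, R i η ω ∈ U i := fun η => (h.blU i i (le_refl i) hi η ω).2 hU
    have mT' : MeasurableSet {η | R i η ω ∈ T i} := hR (h.mT i hi)
    have mA' : MeasurableSet {η | R i η ω ∈ A i} := hR (h.mA i hi)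
    have mW' : Measurable fun η => W (R i η ω) := h.mW.comp hR
    have hdis : Disjoint {η | R i η ω ∈ T i} {η | R i η ω ∈ A i} :=
      Set.disjoint_left.2 fun η h1 h2 => Set.disjoint_left.1 (h.disj i hi) h1 h2
    -- pointwise identity
    have e1 : ∀ η, fac24 (T i) (A i) (U i) c (R i η ω) * W (R i η ω) =
        c * ({η | R i η ω ∈ T i}.indicator (fun η => W (R i η ω)) η) +
          ({η | R i η ω ∈ A i}ᶜ.indicator (fun η => W (R i η ω)) η) := by
      intro η
      unfold fac24
      rw [if_pos (hUη η)]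
      by_cases hA : R i η ω ∈ A i
      · have hT : R i η ω ∉ T i := fun hT => Set.disjoint_left.1 (h.disj i hi) hT hA
        rw [if_pos hA, Set.indicator_of_notMem (by simpa using hT), Set.indicator_of_notMem (by simpa using hA)]
        simp
      · rw [if_neg hA, Set.indicator_of_mem (s := {η | R i η ω ∈ A i}ᶜ) (by simpa using hA)]
        by_cases hT : R i η ω ∈ T i
        · rw [if_pos hT, Set.indicator_of_mem (s := {η | R i η ω ∈ T i}) (by simpa using hT)]
          ring
        · rw [if_neg hT, Set.indicator_of_notMem (by simpa using hT)]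
          simp
    simp_rw [e1]
    rw [lintegral_add_left ((mW'.indicator mT').const_mul c), lintegral_const_mul c (mW'.indicator mT'),
      lintegral_indicator mT', lintegral_indicator mA'.compl]
    have e2 := lintegral_add_compl (μ := P) (fun η => W (R i η ω)) mA'
    rw [← e2]
    exact add_le_add (h.cmp i hi ω hU) (le_refl _)
  · have hUη : ∀ η, R i η ω ∉ U i := fun η hc => hU ((h.blU i i (le_refl i) hi η ω).1 hc)
    refine le_of_eq (lintegral_congr fun η => ?_)
    unfold fac24
    rw [if_neg (hUη η), one_mul]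

open Classical in
/-- **The product form.** -/
theorem prod_le [SFinite P] (h : SeqData P m R T A U W c) :
    ∫⁻ ω, (∏ i ∈ range m, fac24 (T i) (A i) (U i) c ω) * W ω ∂P ≤ ∫⁻ ω, W ω ∂P := by
  refine prod24 h.mp h.mW (fun i hi => measurable_fac24 (h.mT i hi) (h.mA i hi) (h.mU i hi)) ?_
    fun i hi ω => h.fac_le hi ω
  intro i j hij hj η ω
  unfold fac24
  by_cases hU : ω ∈ U j
  · rw [if_pos hU, if_pos ((h.blU i j hij.le hj η ω).2 hU)]
    simp only [h.blA i j hij hj η ω hU, h.blT i j hij hj η ω hU]
  · rw [if_neg hU, if_neg fun hc => hU ((h.blU i j hij.le hj η ω).1 hc)]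

open Classical in
/-- **WEIGHT INEQUALITY, sequential form**: at least `r` usable typical slabs and no success at a usable slab. The factor `1 + c`
is only used at the slabs of an arbitrary (possibly random) set `N` of usable typical slabs without success. -/
theorem none [SFinite P] (h : SeqData P m R T A U W c) (r : ℕ) :
    (1 + c) ^ r * ∫⁻ ω in {ω | r ≤ ((range m).filter fun i => ω ∈ U i ∧ ω ∈ T i).card ∧ ∀ i < m, ω ∈ U i → ω ∉ A i},
      W ω ∂P ≤ ∫⁻ ω, W ω ∂P := by
  obtain ⟨S, hS⟩ : ∃ S : Set Ω, S = {ω | r ≤ ((range m).filter fun i => ω ∈ U i ∧ ω ∈ T i).card ∧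
      ∀ i < m, ω ∈ U i → ω ∉ A i} := ⟨_, rfl⟩
  rw [← hS]
  refine le_trans ?_ h.prod_le
  have hpt : ∀ ω ∈ S, (1 + c) ^ r ≤ ∏ i ∈ range m, fac24 (T i) (A i) (U i) c ω := by
    intro ω hω
    rw [hS] at hω
    obtain ⟨h1, h2⟩ := hω
    have h3 : ∀ i ∈ range m, fac24 (T i) (A i) (U i) c ω = if (ω ∈ U i ∧ ω ∈ T i) then 1 + c else 1 := by
      intro i hi
      unfold fac24
      by_cases hU : ω ∈ U i
      · rw [if_pos hU, if_neg (h2 i (Finset.mem_range.1 hi) hU)]
        by_cases hT : ω ∈ T i
        · rw [if_pos hT, if_pos ⟨hU, hT⟩]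
        · rw [if_neg hT, if_neg fun hc => hT hc.2]
      · rw [if_neg hU, if_neg fun hc => hU hc.1]
    rw [Finset.prod_congr rfl h3, ← Finset.prod_filter, Finset.prod_const]
    exact pow_le_pow_right₀ le_self_add h1
  have mS : MeasurableSet S := by
    have e : S = (⋃ V ∈ ((range m).powerset.filter fun V => r ≤ V.card), ((⋂ i ∈ V, (U i ∩ T i)) ∩
        ⋂ i ∈ range m, (U i)ᶜ ∪ (A i)ᶜ)) := by
      rw [hS]
      ext ω
      simp only [Set.mem_ofPred_eq, Set.mem_iUnion, Finset.mem_filter, Finset.mem_powerset, Set.mem_inter_iff, Set.mem_iInter,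
        Set.mem_union, Set.mem_compl_iff, exists_prop]
      constructor
      · rintro ⟨h1, h2⟩
        refine ⟨(range m).filter fun i => ω ∈ U i ∧ ω ∈ T i, ⟨Finset.filter_subset _ _, h1⟩, fun i hi => ?_, fun i hi => ?_⟩
        · exact (Finset.mem_filter.1 hi).2
        · by_cases hU : ω ∈ U i
          · exact Or.inr (h2 i (Finset.mem_range.1 hi) hU)
          · exact Or.inl hU
      · rintro ⟨V, ⟨h1, h2⟩, h3, h4⟩
        refine ⟨h2.trans (Finset.card_le_card fun i hi => Finset.mem_filter.2 ⟨h1 hi, h3 i hi⟩), fun i hi hU => ?_⟩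
        rcases h4 i (Finset.mem_range.2 hi) with h5 | h5
        · exact absurd hU h5
        · exact h5
    rw [e]
    refine Finset.measurableSet_biUnion _ fun V hV => ?_
    have hV' := Finset.mem_filter.1 hV
    refine MeasurableSet.inter ?_ ?_
    · refine Finset.measurableSet_biInter _ fun i hi => ?_
      have him := Finset.mem_range.1 (Finset.mem_powerset.1 hV'.1 hi)
      exact (h.mU i him).inter (h.mT i him)
    · refine Finset.measurableSet_biInter _ fun i hi => ?_
      have him := Finset.mem_range.1 hi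
      exact (h.mU i him).compl.union (h.mA i him).compl
  rw [← lintegral_const_mul _ h.mW, ← lintegral_indicator mS]
  refine lintegral_mono fun ω => ?_
  by_cases hω : ω ∈ S
  · rw [Set.indicator_of_mem hω]
    exact mul_le_mul_left (hpt ω hω) _
  · rw [Set.indicator_of_notMem hω]
    exact zero_le

end SeqData

end Pool.Agent.W_7d29a1_C1.H24
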