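import Pool.Agent.W_7d29a1_C1.YAbs99
import Pool.Agent.W_7d29a1_C1.CntM58
import Pool.Agent.W_7d29a1_C1.YSeamP54
import Pool.Agent.W_7d29a1_C1.RowT83

/-!
MP_7d29a1_pr, [C1] attractor route, (Y): **THE SECOND MOMENT OF THE SUM OF THE WEIGHTS IN THE FRAMES** (helper99), from the insertion of
tubes `YTub99` (the only input of the model).
-/

set_option autoImplicit false

namespace Pool.Agent.W_7d29a1_C1.Y99

open MeasureTheory ProbabilityTheory Filter Topology Finset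
open Pool.Agent.W_7d29a1_F Pool.Agent.W_7d29a1_h4g Pool.Agent.W_7d29a1_H
open Pool.Agent.W_7d29a1_HS (In wd)
open Pool.Agent.W_7d29a1_C1.K91 (Grp Box wt wt_pos measurable_wt)
open Pool.Agent.W_7d29a1_C1.K91P
open Pool.Agent.W_7d29a1_C1.H60
open Pool.Agent.W_7d29a1_C1.Cnt58 (Tb GC58 measurableSet_GC58 gc_card)
open Pool.Agent.W_7d29a1_C1.YAbs99 (Tubes)
open scoped ENNReal

noncomputable section

/-- The contacts whose slab of `m` rows crosses neither the switch nor the top. -/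
def Sm (Γ : Cx) (m : ℕ) : Finset (ℕ × ℤ) := (Γ.rows 0 Γ.N).filter fun c => c.1 + m ≤ Γ.N ∧ (c.1 + m ≤ Γ.M ∨ Γ.M ≤ c.1)

theorem Sm_sub (Γ : Cx) (m : ℕ) : Sm Γ m ⊆ Γ.rows 0 Γ.N := filter_subset _ _

theorem Sm_anti (Γ : Cx) {m m' : ℕ} (h : m ≤ m') : Sm Γ m' ⊆ Sm Γ m := fun c hc => by
  unfold Sm at hc ⊢
  rw [mem_filter] at hc ⊢
  exact ⟨hc.1, by omega, by omega⟩

/-- **The insertion of tubes in one context**: level `a` before, level `b` of the contact after, level `a'` of the earlier contacts. -/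
structure Ins99 (μ : Measure ℝ) (Γ : Cx) (p cc : ℝ) (a b a' : ℝ) (J m : ℕ) (Ty : ℕ → ℕ × ℤ → Set Env)
    (Lk : ℕ → ℕ × ℤ → Set (Env × Env)) (R : ℕ → ℕ × ℤ → Env × Env → Env) (t : ℕ → ℕ × ℤ → Tb) (δ : ℝ) : Prop where
  mT : ∀ j < J, ∀ c ∈ Sm Γ m, MeasurableSet (Ty j c)
  mL : ∀ j < J, ∀ c ∈ Sm Γ m, MeasurableSet (Lk j c)
  mR : ∀ j < J, ∀ c ∈ Sm Γ m, MeasurePreserving (R j c) ((law μ).prod (law μ)) (law μ)
  bad : (law μ).real {ω | ∃ c ∈ Sm Γ m, ∀ j < J, ω ∉ Ty j c} ≤ δ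
  luck : ∀ j < J, ∀ c ∈ Sm Γ m, ∀ ω ∈ Ty j c, ENNReal.ofReal p ≤ law μ {ω' | (ω, ω') ∈ Lk j c}
  good : ∀ j < J, ∀ c ∈ Sm Γ m, ∀ ω ∈ Ty j c, Real.exp (-a) ≤ Γ.w c ω → ∀ ω', (ω, ω') ∈ Lk j c →
    R j c (ω, ω') ∈ GC58 Γ cc (Real.exp (-(2 * b))) (Real.exp (-b)) (t j) c
  keep : ∀ j < J, ∀ c ∈ Sm Γ m, ∀ ω ∈ Ty j c, Real.exp (-a) ≤ Γ.w c ω → ∀ ω', (ω, ω') ∈ Lk j c → ∀ c' ∈ Sm Γ m, c'.1 ≤ c.1 →
    Real.exp (-a) ≤ Γ.w c' ω → Real.exp (-a') ≤ Γ.w c' (R j c (ω, ω'))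
  near : ∀ j < J, ∀ c ∈ Sm Γ m, c.1 ≤ (t j c).a + m ∧ (t j c).a + (t j c).n ≤ c.1 + m ∧ ∀ x ∈ (t j c).I, |x - c.2| ≤ (m : ℤ)

/-- **The input of the model.** -/
def YTub99 (μ : Measure ℝ) (s : ℝ) : Prop :=
  ∀ e : ℝ, 0 < e → e ≤ 1 / 100 → ∃ c₀ p cc : ℝ, 0 < c₀ ∧ 0 < p ∧ 0 < cc ∧ cc ≤ 1 ∧ ∀ c : ℝ, 0 < c → c ≤ c₀ →
    ∀ δ : ℝ, 0 < δ → δ ≤ c / 16 → ∃ κ₀ : ℝ, 0 < κ₀ ∧ ∀ κ : ℝ, 0 < κ → κ ≤ κ₀ → ∀ᶠ n : ℕ in atTop, ∀ Γ : Cx, Adm μ s c δ κ n Γ →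
      ∀ a : ℝ, 0 ≤ a → a ≤ (n : ℝ) ^ (e / 8) → ∃ (b a' : ℝ) (J m : ℕ) (Ty : ℕ → ℕ × ℤ → Set Env)
        (Lk : ℕ → ℕ × ℤ → Set (Env × Env)) (R : ℕ → ℕ × ℤ → Env × Env → Env) (t : ℕ → ℕ × ℤ → Tb),
        2 ≤ b ∧ b ≤ (n : ℝ) ^ (2 * e) ∧ 0 ≤ a' ∧ a' ≤ (n : ℝ) ^ (2 * e) ∧ (J : ℝ) ≤ (n : ℝ) ^ (2 * e) ∧ (m : ℝ) ≤ (n : ℝ) ^ (2 * e) ∧
        Ins99 μ Γ p cc a b a' J m Ty Lk R t ((n : ℝ) ^ (-100 : ℝ))

/-- **(Y).** -/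
def YSQ99 (μ : Measure ℝ) (s : ℝ) : Prop :=
  ∀ ε : ℝ, 0 < ε → ∃ c₀ : ℝ, 0 < c₀ ∧ ∀ c : ℝ, 0 < c → c ≤ c₀ → ∀ δ : ℝ, 0 < δ → δ ≤ c / 16 → ∃ κ₀ : ℝ, 0 < κ₀ ∧
    ∀ κ : ℝ, 0 < κ → κ ≤ κ₀ → ∀ᶠ n : ℕ in atTop, ∀ Γ : Cx, Adm μ s c δ κ n Γ →
      ∫ η, (∑ c ∈ Γ.rows 0 Γ.N, Γ.ws c η) ^ 2 ∂(law μ) ≤ (n : ℝ) ^ ε

/-- The contacts of level `a`. -/
def Hv99 (Γ : Cx) (a : ℝ) (c : ℕ × ℤ) : Set Env := {η | Real.exp (-a) ≤ Γ.w c η}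

theorem meas_Hv99 (Γ : Cx) (a : ℝ) (c : ℕ × ℤ) : MeasurableSet (Hv99 Γ a c) := measurableSet_le measurable_const (Γ.meas_w c)

variable {μ : Measure ℝ} {s : ℝ} [IsProbabilityMeasure μ] {Γ : Cx}

/-- The number of tubes which fit. -/
def Dm (cc b : ℝ) (m : ℕ) : ℝ := (2 * m + 2 * m + 1) * (((b + 1) / cc + 1) * (2 * m + 1))

theorem Dm_nonneg {cc b : ℝ} (hc : 0 < cc) (hb : 0 ≤ b) (m : ℕ) : 0 ≤ Dm cc b m := by
  unfold Dm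
  positivity

/-- The data of the abstract lemma, for any set of contacts. -/
theorem Ins99.tubes (hG : Γ.Ok) {p cc a b a' δ : ℝ} {J m : ℕ} {Ty : ℕ → ℕ × ℤ → Set Env} {Lk : ℕ → ℕ × ℤ → Set (Env × Env)}
    {R : ℕ → ℕ × ℤ → Env × Env → Env} {t : ℕ → ℕ × ℤ → Tb} (h : Ins99 μ Γ p cc a b a' J m Ty Lk R t δ) (hc : 0 < cc) (hc1 : cc ≤ 1)
    (hb : 2 ≤ b) {S : Finset (ℕ × ℤ)} (hS : S ⊆ Sm Γ m) :
    Tubes (law μ) S J (ENNReal.ofReal p) (ENNReal.ofReal (Dm cc b m)) Ty Lk R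
      (fun j c => GC58 Γ cc (Real.exp (-(2 * b))) (Real.exp (-b)) (t j) c) (Hv99 Γ a) where
  mT := fun j hj c hc => h.mT j hj c (hS hc)
  mL := fun j hj c hc => h.mL j hj c (hS hc)
  mR := fun j hj c hc => h.mR j hj c (hS hc)
  mG := fun j _ c _ => measurableSet_GC58 Γ _ _ _ _ c
  mH := fun c _ => meas_Hv99 Γ a c
  hp := fun j hj c hc => h.luck j hj c (hS hc)
  hG := fun j hj c hc ω hω hH η hη => h.good j hj c (hS hc) ω hω hH η hη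
  hD := fun j hj ω => by
    classical
    rw [YAbs99.cnt_eq_card]
    have h1 := gc_card hG ω hc hc1 hb (T := m) (L := m) (t := t j) (F := S) (hS.trans (Sm_sub Γ m)) fun c hc => h.near j hj c (hS hc)
    rw [← ENNReal.ofReal_natCast]
    exact ENNReal.ofReal_le_ofReal h1

/-- The bad event of a smaller set of contacts. -/
theorem Ins99.bad_le {p cc a b a' δ : ℝ} {J m : ℕ} {Ty : ℕ → ℕ × ℤ → Set Env} {Lk : ℕ → ℕ × ℤ → Set (Env × Env)}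
    {R : ℕ → ℕ × ℤ → Env × Env → Env} {t : ℕ → ℕ × ℤ → Tb} (h : Ins99 μ Γ p cc a b a' J m Ty Lk R t δ)
    {S : Finset (ℕ × ℤ)} (hS : S ⊆ Sm Γ m) : law μ {ω | ∃ c ∈ S, ∀ j < J, ω ∉ Ty j c} ≤ ENNReal.ofReal δ := by
  have h1 : law μ {ω | ∃ c ∈ Sm Γ m, ∀ j < J, ω ∉ Ty j c} ≤ ENNReal.ofReal δ := by
    rw [← ENNReal.ofReal_toReal (measure_ne_top (law μ) {ω | ∃ c ∈ Sm Γ m, ∀ j < J, ω ∉ Ty j c})]
    exact ENNReal.ofReal_le_ofReal h.bad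
  refine (measure_mono fun ω hω => ?_).trans h1
  obtain ⟨c, hc, h2⟩ := hω
  exact ⟨c, hS hc, h2⟩

/-- **Two insertions**: the second moment of the number of the contacts of level `a`. -/
theorem two99 (hG : Γ.Ok) {p cc p' cc' a b a' b' a'' δ : ℝ} (hp : 0 < p) (hp' : 0 < p') (hcc : 0 < cc) (hcc1 : cc ≤ 1) (hcc' : 0 < cc')
    (hcc1' : cc' ≤ 1) (hb : 2 ≤ b) (hb' : 2 ≤ b') (hδ : 0 ≤ δ) {J m J' m' : ℕ} {Ty Ty' : ℕ → ℕ × ℤ → Set Env}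
    {Lk Lk' : ℕ → ℕ × ℤ → Set (Env × Env)} {R R' : ℕ → ℕ × ℤ → Env × Env → Env} {t t' : ℕ → ℕ × ℤ → Tb}
    (h : Ins99 μ Γ p cc a b a' J m Ty Lk R t δ) (h' : Ins99 μ Γ p' cc' a' b' a'' J' m' Ty' Lk' R' t' δ) {S : Finset (ℕ × ℤ)}
    (hS : S ⊆ Sm Γ m) (hS' : S ⊆ Sm Γ m') :
    ∫⁻ ω, YAbs99.cnt S (Hv99 Γ a) ω ^ 2 ∂(law μ) ≤ ENNReal.ofReal
      (2 / p * (J * Dm cc b m * (J' * Dm cc' b' m' / p' + S.card * δ)) + 2 * S.card ^ 2 * δ) := by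
  have D0 := Dm_nonneg hcc (show 0 ≤ b by linarith) m
  have D0' := Dm_nonneg hcc' (show 0 ≤ b' by linarith) m'
  have i1 := YAbs99.second (h.tubes hG hcc hcc1 hb hS) Prod.fst (H' := Hv99 Γ a') (fun c _ => meas_Hv99 Γ a' c)
    (fun j hj c hc ω hω hH η hη c' hc' hr hH' => h.keep j hj c (hS hc) ω hω hH η hη c' (hS hc') hr hH')
  have i2 := YAbs99.first (h'.tubes hG hcc' hcc1' hb' hS')
  have b1 := h.bad_le hS
  have b2 := h'.bad_le hS'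
  obtain ⟨A2, hA2⟩ : ∃ A2 : ℝ≥0∞, A2 = ∫⁻ ω, YAbs99.cnt S (Hv99 Γ a) ω ^ 2 ∂(law μ) := ⟨_, rfl⟩
  obtain ⟨A1, hA1⟩ : ∃ A1 : ℝ≥0∞, A1 = ∫⁻ ω, YAbs99.cnt S (Hv99 Γ a') ω ∂(law μ) := ⟨_, rfl⟩
  rw [← hA2, ← hA1] at i1
  rw [← hA1] at i2
  rw [← hA2]
  have c1 : (S.card : ℝ≥0∞) = ENNReal.ofReal (S.card : ℝ) := (ENNReal.ofReal_natCast _).symm
  have cJ : (J : ℝ≥0∞) = ENNReal.ofReal (J : ℝ) := (ENNReal.ofReal_natCast _).symm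
  have cJ' : (J' : ℝ≥0∞) = ENNReal.ofReal (J' : ℝ) := (ENNReal.ofReal_natCast _).symm
  have hA1' : A1 ≤ ENNReal.ofReal (J' * Dm cc' b' m' / p' + S.card * δ) := by
    have e1 : ENNReal.ofReal p' * A1 ≤ ENNReal.ofReal p' * ENNReal.ofReal (J' * Dm cc' b' m' / p' + S.card * δ) := by
      refine i2.trans ?_
      have e2 : ENNReal.ofReal p' * ENNReal.ofReal (J' * Dm cc' b' m' / p' + S.card * δ) =
          (J' : ℝ≥0∞) * ENNReal.ofReal (Dm cc' b' m') + ENNReal.ofReal p' * ((S.card : ℝ≥0∞) * ENNReal.ofReal δ) := by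
        rw [cJ', c1, ← ENNReal.ofReal_mul (by positivity), ← ENNReal.ofReal_mul (by positivity), ← ENNReal.ofReal_mul (by positivity),
          ← ENNReal.ofReal_mul (by positivity), ← ENNReal.ofReal_add (by positivity) (by positivity)]
        congr 1
        field_simp
      rw [e2]
      exact add_le_add le_rfl (mul_le_mul' le_rfl (mul_le_mul' le_rfl b2))
    exact (ENNReal.mul_le_mul_iff_right (by simpa using hp') ENNReal.ofReal_ne_top).1 e1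
  have e3 : ENNReal.ofReal p * A2 ≤ ENNReal.ofReal p * ENNReal.ofReal
      (2 / p * (J * Dm cc b m * (J' * Dm cc' b' m' / p' + S.card * δ)) + 2 * S.card ^ 2 * δ) := by
    refine i1.trans ?_
    have e4 : ENNReal.ofReal p * ENNReal.ofReal
        (2 / p * (J * Dm cc b m * (J' * Dm cc' b' m' / p' + S.card * δ)) + 2 * S.card ^ 2 * δ) =
        2 * ((J : ℝ≥0∞) * ENNReal.ofReal (Dm cc b m) * ENNReal.ofReal (J' * Dm cc' b' m' / p' + S.card * δ)) +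
        2 * (ENNReal.ofReal p * ((S.card : ℝ≥0∞) ^ 2 * ENNReal.ofReal δ)) := by
      have t2 : (2 : ℝ≥0∞) = ENNReal.ofReal 2 := by simp
      rw [cJ, c1, t2, ← ENNReal.ofReal_pow (by positivity), ← ENNReal.ofReal_mul (by positivity), ← ENNReal.ofReal_mul (by positivity),
        ← ENNReal.ofReal_mul (by positivity), ← ENNReal.ofReal_mul (by positivity), ← ENNReal.ofReal_mul (by positivity),
        ← ENNReal.ofReal_mul (by positivity), ← ENNReal.ofReal_mul (by positivity), ← ENNReal.ofReal_add (by positivity) (by positivity)]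
      congr 1
      field_simp
    rw [e4]
    exact add_le_add (mul_le_mul' le_rfl (mul_le_mul' le_rfl hA1')) (mul_le_mul' le_rfl (mul_le_mul' le_rfl (mul_le_mul' le_rfl b1)))
  exact (ENNReal.mul_le_mul_iff_right (by simpa using hp) ENNReal.ofReal_ne_top).1 e3

end

end Pool.Agent.W_7d29a1_C1.Y99
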