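import Mathlib

/-!
MP_7d29a1_pr, the attractor route: COUNTING BY RESAMPLING, first and second moment, abstract (helper54, after helper2).

A finite set `S` of sites with weights `w c`; a site is heavy if `t ≤ w c`. At a typical heavy site `c` a fresh environment is lucky with
probability at least `p` and then the modified environment lies in `G c`; at most `D` of the events `G c` happen at once. Then the mean
number of the typical heavy sites is at most `D / p`. If moreover the earlier heavy sites stay heavy (at the level `t'`), then the second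
moment of the number of the heavy sites is at most `2 D / p` times the mean number of the sites which are heavy at the level `t'`.
-/

set_option autoImplicit false

namespace Pool.Agent.W_7d29a1_C1.YA54

open MeasureTheory Finset
open scoped ENNReal NNReal

noncomputable section

variable {Ω ι J : Type*} [MeasurableSpace Ω] {P : Measure Ω}

/-- **Resampling**, general form. -/
theorem gen54 [SFinite P] {A G : Set Ω} (mA : MeasurableSet A) (mG : MeasurableSet G) {L : Set (Ω × Ω)} (mL : MeasurableSet L)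
    {R : Ω × Ω → Ω} (mR : MeasurePreserving R (P.prod P) P) {p : ℝ≥0∞} (hp : ∀ ω ∈ A, p ≤ P {ω' | (ω, ω') ∈ L})
    {f g : Ω → ℝ≥0∞} (mf : Measurable f) (mg : Measurable g)
    (h : ∀ ω ∈ A, ∀ ω', (ω, ω') ∈ L → R (ω, ω') ∈ G ∧ f ω ≤ g (R (ω, ω'))) :
    p * ∫⁻ ω in A, f ω ∂P ≤ ∫⁻ ω in G, g ω ∂P := by
  have h1 : p * ∫⁻ ω in A, f ω ∂P ≤ ∫⁻ ω in A, (∫⁻ ω', L.indicator (fun z => f z.1) (ω, ω') ∂P) ∂P := by
    rw [← lintegral_const_mul _ mf]
    refine setLIntegral_mono' mA fun ω hω => ?_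
    have e : ∀ ω', L.indicator (fun z => f z.1) (ω, ω') = {ω' | (ω, ω') ∈ L}.indicator (fun _ => f ω) ω' := by
      intro ω'
      by_cases h2 : (ω, ω') ∈ L
      · rw [Set.indicator_of_mem h2, Set.indicator_of_mem (show ω' ∈ {ω' | (ω, ω') ∈ L} from h2)]
      · rw [Set.indicator_of_notMem h2, Set.indicator_of_notMem (show ω' ∉ {ω' | (ω, ω') ∈ L} from h2)]
    simp_rw [e]
    have ms : MeasurableSet {ω' | (ω, ω') ∈ L} := measurable_prodMk_left mL
    rw [lintegral_indicator_const ms, mul_comm]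
    exact mul_le_mul_right (hp ω hω) (f ω)
  refine h1.trans ?_
  have h2 : ∫⁻ ω in A, (∫⁻ ω', L.indicator (fun z => f z.1) (ω, ω') ∂P) ∂P =
      ∫⁻ z, (Prod.fst ⁻¹' A ∩ L).indicator (fun z => f z.1) z ∂(P.prod P) := by
    rw [← lintegral_indicator mA]
    have m1 : Measurable ((Prod.fst ⁻¹' A ∩ L).indicator fun z : Ω × Ω => f z.1) :=
      (mf.comp measurable_fst).indicator ((measurable_fst mA).inter mL)
    rw [lintegral_prod _ m1.aemeasurable]
    refine lintegral_congr fun ω => ?_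
    by_cases hω : ω ∈ A
    · rw [Set.indicator_of_mem hω]
      refine lintegral_congr fun ω' => ?_
      by_cases h3 : (ω, ω') ∈ L
      · rw [Set.indicator_of_mem h3, Set.indicator_of_mem (show (ω, ω') ∈ Prod.fst ⁻¹' A ∩ L from ⟨hω, h3⟩)]
      · rw [Set.indicator_of_notMem h3, Set.indicator_of_notMem (show (ω, ω') ∉ Prod.fst ⁻¹' A ∩ L from fun h4 => h3 h4.2)]
    · rw [Set.indicator_of_notMem hω]
      have e0 : ∀ ω', (Prod.fst ⁻¹' A ∩ L).indicator (fun z => f z.1) (ω, ω') = 0 := fun ω' =>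
        Set.indicator_of_notMem (show (ω, ω') ∉ Prod.fst ⁻¹' A ∩ L from fun h4 => hω h4.1) _
      simp only [e0, lintegral_const, zero_mul]
  rw [h2, ← lintegral_indicator mG, ← mR.lintegral_comp (mg.indicator mG)]
  refine lintegral_mono fun z => ?_
  by_cases hz : z ∈ Prod.fst ⁻¹' A ∩ L
  · have h3 := h z.1 hz.1 z.2 hz.2
    rw [Set.indicator_of_mem hz]
    show f z.1 ≤ G.indicator g (R z)
    rw [Set.indicator_of_mem h3.1]
    exact h3.2
  · rw [Set.indicator_of_notMem hz]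
    exact bot_le

/-- The data of one scale. -/
structure YH (P : Measure Ω) (S : Finset ι) (w : ι → Ω → ℝ) (t : ℝ) (Ty G : ι → Set Ω) (R : ι → Ω × Ω → Ω)
    (Lk : ι → Set (Ω × Ω)) (p D : ℝ) : Prop where
  mT : ∀ c ∈ S, MeasurableSet (Ty c)
  mG : ∀ c ∈ S, MeasurableSet (G c)
  mL : ∀ c ∈ S, MeasurableSet (Lk c)
  mR : ∀ c ∈ S, MeasurePreserving (R c) (P.prod P) P
  mw : ∀ c ∈ S, Measurable (w c)
  p0 : 0 < p
  hp : ∀ c ∈ S, ∀ ω ∈ Ty c, p ≤ P.real {ω' | (ω, ω') ∈ Lk c}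
  t3 : ∀ c ∈ S, ∀ ω ∈ Ty c, t ≤ w c ω → ∀ ω', (ω, ω') ∈ Lk c → R c (ω, ω') ∈ G c
  t4 : ∀ ω, ∑ c ∈ S, (G c).indicator (fun _ => (1 : ℝ)) ω ≤ D

/-- The number of the heavy sites. -/
def Nc (S : Finset ι) (w : ι → Ω → ℝ) (t : ℝ) (ω : Ω) : ℝ := ∑ c ∈ S, {ω | t ≤ w c ω}.indicator (fun _ => (1 : ℝ)) ω

omit [MeasurableSpace Ω] in
theorem Nc_nonneg (S : Finset ι) (w : ι → Ω → ℝ) (t : ℝ) (ω : Ω) : 0 ≤ Nc S w t ω :=
  sum_nonneg fun _ _ => Set.indicator_nonneg (fun _ _ => zero_le_one) _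

omit [MeasurableSpace Ω] in
theorem Nc_le (S : Finset ι) (w : ι → Ω → ℝ) (t : ℝ) (ω : Ω) : Nc S w t ω ≤ S.card := by
  unfold Nc
  rw [card_eq_sum_ones]
  push_cast
  exact sum_le_sum fun c _ => Set.indicator_le' (fun _ _ => le_rfl) (fun _ _ => zero_le_one) _

theorem meas_Nc {S : Finset ι} {w : ι → Ω → ℝ} (mw : ∀ c ∈ S, Measurable (w c)) (t : ℝ) : Measurable (Nc S w t) := by
  unfold Nc
  exact Finset.measurable_sum _ fun c hc => measurable_const.indicator (measurableSet_le measurable_const (mw c hc))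

omit [MeasurableSpace Ω] in
/-- The number of the heavy sites, as a filter. -/
theorem Nc_eq (S : Finset ι) (w : ι → Ω → ℝ) (t : ℝ) (ω : Ω) [DecidablePred fun c => t ≤ w c ω] :
    Nc S w t ω = ((S.filter fun c => t ≤ w c ω).card : ℝ) := by
  unfold Nc
  rw [card_filter]
  push_cast
  refine sum_congr rfl fun c _ => ?_
  by_cases h : t ≤ w c ω
  · rw [Set.indicator_of_mem (show ω ∈ {ω | t ≤ w c ω} from h), if_pos h]
  · rw [Set.indicator_of_notMem (show ω ∉ {ω | t ≤ w c ω} from h), if_neg h]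

variable {S : Finset ι} {w : ι → Ω → ℝ} {t t' p D : ℝ} {Ty G : ι → Set Ω} {R : ι → Ω × Ω → Ω} {Lk : ι → Set (Ω × Ω)}

/-- **One scale, with a factor**: `p * E [f c ; c typical and heavy] ≤ E [g ; G c]`, summed. -/
theorem sumgen54 [IsProbabilityMeasure P] (H : YH P S w t Ty G R Lk p D) {f : ι → Ω → ℝ} {g : Ω → ℝ} {B : ℝ}
    (mf : ∀ c ∈ S, Measurable (f c)) (mg : Measurable g) (f0 : ∀ c ω, 0 ≤ f c ω) (g0 : ∀ ω, 0 ≤ g ω) (fB : ∀ c ω, f c ω ≤ B)
    (gB : ∀ ω, g ω ≤ B)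
    (hfg : ∀ c ∈ S, ∀ ω ∈ Ty c, t ≤ w c ω → ∀ ω', (ω, ω') ∈ Lk c → f c ω ≤ g (R c (ω, ω'))) :
    p * ∑ c ∈ S, ∫ ω in Ty c ∩ {ω | t ≤ w c ω}, f c ω ∂P ≤ D * ∫ ω, g ω ∂P := by
  have intf : ∀ c ∈ S, Integrable (f c) P := fun c hc =>
    (integrable_const B).mono' (mf c hc).aestronglyMeasurable (Filter.Eventually.of_forall fun ω => by
      rw [Real.norm_eq_abs, abs_of_nonneg (f0 c ω)]
      exact fB c ω)
  have intg : Integrable g P := (integrable_const B).mono' mg.aestronglyMeasurable (Filter.Eventually.of_forall fun ω => by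
      rw [Real.norm_eq_abs, abs_of_nonneg (g0 ω)]
      exact gB ω)
  have h1 : ∀ c ∈ S, p * ∫ ω in Ty c ∩ {ω | t ≤ w c ω}, f c ω ∂P ≤ ∫ ω in G c, g ω ∂P := by
    intro c hc
    have mA : MeasurableSet (Ty c ∩ {ω | t ≤ w c ω}) := (H.mT c hc).inter (measurableSet_le measurable_const (H.mw c hc))
    have k := gen54 (P := P) (p := ENNReal.ofReal p) mA (H.mG c hc) (H.mL c hc) (H.mR c hc) (f := fun ω => ENNReal.ofReal (f c ω))
      (g := fun ω => ENNReal.ofReal (g ω)) (fun ω hω => by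
        rw [← ofReal_measureReal (measure_ne_top _ _)]
        exact ENNReal.ofReal_le_ofReal (H.hp c hc ω hω.1)) (mf c hc).ennreal_ofReal mg.ennreal_ofReal
      (fun ω hω ω' hL => ⟨H.t3 c hc ω hω.1 hω.2 ω' hL, ENNReal.ofReal_le_ofReal (hfg c hc ω hω.1 hω.2 ω' hL)⟩)
    rw [← ofReal_integral_eq_lintegral_ofReal (intf c hc).integrableOn (Filter.Eventually.of_forall (f0 c)),
      ← ofReal_integral_eq_lintegral_ofReal intg.integrableOn (Filter.Eventually.of_forall g0), ← ENNReal.ofReal_mul H.p0.le] at k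
    exact (ENNReal.ofReal_le_ofReal_iff (integral_nonneg g0)).1 k
  rw [mul_sum]
  refine (sum_le_sum h1).trans ?_
  have h2 : ∑ c ∈ S, ∫ ω in G c, g ω ∂P = ∫ ω, ∑ c ∈ S, (G c).indicator g ω ∂P := by
    rw [integral_finsetSum _ fun c hc => intg.indicator (H.mG c hc)]
    exact sum_congr rfl fun c hc => (integral_indicator (H.mG c hc)).symm
  rw [h2, ← integral_const_mul]
  refine integral_mono (integrable_finsetSum _ fun c hc => intg.indicator (H.mG c hc)) (intg.const_mul D) fun ω => ?_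
  have e : ∀ c, (G c).indicator g ω = (G c).indicator (fun _ => (1 : ℝ)) ω * g ω := by
    intro c
    by_cases h3 : ω ∈ G c
    · rw [Set.indicator_of_mem h3, Set.indicator_of_mem h3, one_mul]
    · rw [Set.indicator_of_notMem h3, Set.indicator_of_notMem h3, zero_mul]
  simp only [e]
  rw [← sum_mul]
  exact mul_le_mul_of_nonneg_right (H.t4 ω) (g0 ω)

/-- **First moment, one scale.** -/
theorem one54 [IsProbabilityMeasure P] (H : YH P S w t Ty G R Lk p D) :
    p * ∑ c ∈ S, P.real (Ty c ∩ {ω | t ≤ w c ω}) ≤ D := by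
  have h := sumgen54 H (f := fun _ _ => 1) (g := fun _ => 1) (B := 1) (fun c _ => measurable_const) measurable_const
    (fun _ _ => zero_le_one) (fun _ => zero_le_one) (fun _ _ => le_rfl) (fun _ => le_rfl) (fun _ _ _ _ _ _ _ => le_rfl)
  simpa using h

/-- The number of the heavy sites whose row is not later than the one of `c`. -/
def Nr (S : Finset ι) (row : ι → ℕ) (w : ι → Ω → ℝ) (t : ℝ) (c : ι) (ω : Ω) : ℝ :=
  ∑ c' ∈ S, if row c' ≤ row c then {ω | t ≤ w c' ω}.indicator (fun _ => (1 : ℝ)) ω else 0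

omit [MeasurableSpace Ω] in
theorem Nr_nonneg (row : ι → ℕ) (c : ι) (ω : Ω) : 0 ≤ Nr S row w t c ω :=
  sum_nonneg fun c _ => by
    split_ifs
    · exact Set.indicator_nonneg (fun _ _ => zero_le_one) _
    · exact le_rfl

omit [MeasurableSpace Ω] in
theorem Nr_le (row : ι → ℕ) (c : ι) (ω : Ω) : Nr S row w t c ω ≤ S.card := by
  unfold Nr
  rw [card_eq_sum_ones]
  push_cast
  refine sum_le_sum fun c' _ => ?_
  split_ifs
  · exact Set.indicator_le' (fun _ _ => le_rfl) (fun _ _ => zero_le_one) _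
  · exact zero_le_one

theorem meas_Nr {row : ι → ℕ} (mw : ∀ c ∈ S, Measurable (w c)) (c : ι) : Measurable (Nr S row w t c) := by
  unfold Nr
  refine Finset.measurable_sum _ fun c' hc' => ?_
  split_ifs
  · exact measurable_const.indicator (measurableSet_le measurable_const (mw c' hc'))
  · exact measurable_const

/-- **Second moment, one scale**: the earlier heavy sites stay heavy at the level `t'`. -/
theorem two54 [IsProbabilityMeasure P] (H : YH P S w t Ty G R Lk p D) (row : ι → ℕ)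
    (t6 : ∀ c ∈ S, ∀ ω ∈ Ty c, t ≤ w c ω → ∀ ω', (ω, ω') ∈ Lk c → ∀ c' ∈ S, row c' ≤ row c → t ≤ w c' ω → t' ≤ w c' (R c (ω, ω'))) :
    p * ∑ c ∈ S, ∫ ω in Ty c ∩ {ω | t ≤ w c ω}, Nr S row w t c ω ∂P ≤ D * ∫ ω, Nc S w t' ω ∂P := by
  refine sumgen54 H (f := Nr S row w t) (g := Nc S w t') (B := S.card) (fun c _ => meas_Nr H.mw c) (meas_Nc H.mw t')
    (Nr_nonneg row) (Nc_nonneg S w t') (Nr_le row) (Nc_le S w t') fun c hc ω hω ht ω' hL => ?_
  unfold Nr Nc
  refine sum_le_sum fun c' hc' => ?_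
  split_ifs with hr
  · by_cases h1 : t ≤ w c' ω
    · rw [Set.indicator_of_mem (show ω ∈ {ω | t ≤ w c' ω} from h1),
        Set.indicator_of_mem (show R c (ω, ω') ∈ {ω | t' ≤ w c' ω} from t6 c hc ω hω ht ω' hL c' hc' hr h1)]
    · rw [Set.indicator_of_notMem (show ω ∉ {ω | t ≤ w c' ω} from h1)]
      exact Set.indicator_nonneg (fun _ _ => zero_le_one) _
  · exact Set.indicator_nonneg (fun _ _ => zero_le_one) _

omit [MeasurableSpace Ω] in
/-- The square of the number of the heavy sites is at most twice the number of the ordered pairs. -/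
theorem sq_le54 (row : ι → ℕ) (ω : Ω) :
    Nc S w t ω ^ 2 ≤ 2 * ∑ c ∈ S, {ω | t ≤ w c ω}.indicator (fun _ => (1 : ℝ)) ω * Nr S row w t c ω := by
  have e1 : Nc S w t ω ^ 2 = ∑ c ∈ S, ∑ c' ∈ S, {ω | t ≤ w c ω}.indicator (fun _ => (1 : ℝ)) ω *
      {ω | t ≤ w c' ω}.indicator (fun _ => (1 : ℝ)) ω := by
    unfold Nc
    rw [sq, sum_mul_sum]
  have n : ∀ c, 0 ≤ {ω | t ≤ w c ω}.indicator (fun _ => (1 : ℝ)) ω := fun c => Set.indicator_nonneg (fun _ _ => zero_le_one) _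
  have e2 : ∑ c ∈ S, {ω | t ≤ w c ω}.indicator (fun _ => (1 : ℝ)) ω * Nr S row w t c ω =
      ∑ c ∈ S, ∑ c' ∈ S, (if row c' ≤ row c then {ω | t ≤ w c ω}.indicator (fun _ => (1 : ℝ)) ω *
        {ω | t ≤ w c' ω}.indicator (fun _ => (1 : ℝ)) ω else 0) := by
    refine sum_congr rfl fun c _ => ?_
    unfold Nr
    rw [mul_sum]
    refine sum_congr rfl fun c' _ => ?_
    split_ifs <;> simp
  have e3 : ∑ c ∈ S, ∑ c' ∈ S, (if row c' ≤ row c then {ω | t ≤ w c ω}.indicator (fun _ => (1 : ℝ)) ω *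
        {ω | t ≤ w c' ω}.indicator (fun _ => (1 : ℝ)) ω else 0) =
      ∑ c ∈ S, ∑ c' ∈ S, (if row c ≤ row c' then {ω | t ≤ w c ω}.indicator (fun _ => (1 : ℝ)) ω *
        {ω | t ≤ w c' ω}.indicator (fun _ => (1 : ℝ)) ω else 0) := by
    rw [sum_comm]
    refine sum_congr rfl fun c _ => sum_congr rfl fun c' _ => ?_
    split_ifs
    · exact mul_comm _ _
    · rfl
  rw [e1, e2, two_mul]
  nth_rewrite 2 [e3]
  rw [← sum_add_distrib]
  refine sum_le_sum fun c _ => ?_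
  rw [← sum_add_distrib]
  refine sum_le_sum fun c' _ => ?_
  have n1 := mul_nonneg (n c) (n c')
  rcases le_total (row c') (row c) with h | h
  · rw [if_pos h]
    split_ifs <;> linarith
  · rw [if_pos h]
    split_ifs <;> linarith

/-! ### Several scales -/

section scales

variable {JJ : Finset J} {TyJ GJ : J → ι → Set Ω} {RJ : J → ι → Ω × Ω → Ω} {LJ : J → ι → Set (Ω × Ω)} {DJ tJ : J → ℝ}

/-- The event that some site is typical at no scale. -/
def badY (S : Finset ι) (JJ : Finset J) (TyJ : J → ι → Set Ω) : Set Ω := {ω | ∃ c ∈ S, ∀ j ∈ JJ, ω ∉ TyJ j c}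

theorem meas_badY (mT : ∀ j ∈ JJ, ∀ c ∈ S, MeasurableSet (TyJ j c)) : MeasurableSet (badY S JJ TyJ) := by
  have e : badY S JJ TyJ = ⋃ c ∈ S, ⋂ j ∈ JJ, (TyJ j c)ᶜ := by
    ext ω
    simp [badY]
  rw [e]
  exact Finset.measurableSet_biUnion _ fun c hc => Finset.measurableSet_biInter _ fun j hj => (mT j hj c hc).compl

/-- **First moment.** -/
theorem first54 [IsProbabilityMeasure P] (hp0 : 0 < p) (mw : ∀ c ∈ S, Measurable (w c))
    (H : ∀ j ∈ JJ, YH P S w t (TyJ j) (GJ j) (RJ j) (LJ j) p (DJ j)) :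
    ∫ ω, Nc S w t ω ∂P ≤ (∑ j ∈ JJ, DJ j) / p + S.card * P.real (badY S JJ TyJ) := by
  classical
  have mT : ∀ j ∈ JJ, ∀ c ∈ S, MeasurableSet (TyJ j c) := fun j hj => (H j hj).mT
  have mb := meas_badY mT
  have mh : ∀ c ∈ S, MeasurableSet {ω | t ≤ w c ω} := fun c hc => measurableSet_le measurable_const (mw c hc)
  have pt : ∀ ω, Nc S w t ω ≤ (∑ j ∈ JJ, ∑ c ∈ S, (TyJ j c ∩ {ω | t ≤ w c ω}).indicator (fun _ => (1 : ℝ)) ω) +
      (badY S JJ TyJ).indicator (fun _ => (S.card : ℝ)) ω := by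
    intro ω
    have n0 : 0 ≤ ∑ j ∈ JJ, ∑ c ∈ S, (TyJ j c ∩ {ω | t ≤ w c ω}).indicator (fun _ => (1 : ℝ)) ω :=
      sum_nonneg fun j _ => sum_nonneg fun c _ => Set.indicator_nonneg (fun _ _ => zero_le_one) _
    by_cases hb : ω ∈ badY S JJ TyJ
    · rw [Set.indicator_of_mem hb]
      linarith [Nc_le S w t ω]
    · rw [Set.indicator_of_notMem hb, add_zero, sum_comm]
      unfold Nc
      refine sum_le_sum fun c hc => ?_
      by_cases h1 : t ≤ w c ω
      · have h2 : ∃ j ∈ JJ, ω ∈ TyJ j c := by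
          by_contra h3
          push Not at h3
          exact hb ⟨c, hc, h3⟩
        obtain ⟨j, hj, h3⟩ := h2
        rw [Set.indicator_of_mem (show ω ∈ {ω | t ≤ w c ω} from h1)]
        have h4 : (TyJ j c ∩ {ω | t ≤ w c ω}).indicator (fun _ => (1 : ℝ)) ω ≤
            ∑ j ∈ JJ, (TyJ j c ∩ {ω | t ≤ w c ω}).indicator (fun _ => (1 : ℝ)) ω :=
          single_le_sum (f := fun j => (TyJ j c ∩ {ω | t ≤ w c ω}).indicator (fun _ => (1 : ℝ)) ω)
          (fun j _ => Set.indicator_nonneg (fun _ _ => zero_le_one) _) hj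
        rw [Set.indicator_of_mem (show ω ∈ TyJ j c ∩ {ω | t ≤ w c ω} from ⟨h3, h1⟩)] at h4
        exact h4
      · rw [Set.indicator_of_notMem (show ω ∉ {ω | t ≤ w c ω} from h1)]
        exact sum_nonneg fun j _ => Set.indicator_nonneg (fun _ _ => zero_le_one) _
  have iN : Integrable (Nc S w t) P := (integrable_const (S.card : ℝ)).mono' (meas_Nc mw t).aestronglyMeasurable
    (Filter.Eventually.of_forall fun ω => by
      rw [Real.norm_eq_abs, abs_of_nonneg (Nc_nonneg S w t ω)]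
      exact Nc_le S w t ω)
  have i1 : ∀ j ∈ JJ, ∀ c ∈ S, Integrable ((TyJ j c ∩ {ω | t ≤ w c ω}).indicator fun _ => (1 : ℝ)) P := fun j hj c hc =>
    (integrable_const _).indicator ((mT j hj c hc).inter (mh c hc))
  have i2 : Integrable (fun ω => ∑ j ∈ JJ, ∑ c ∈ S, (TyJ j c ∩ {ω | t ≤ w c ω}).indicator (fun _ => (1 : ℝ)) ω) P :=
    integrable_finsetSum _ fun j hj => integrable_finsetSum _ fun c hc => i1 j hj c hc
  have i3 : Integrable ((badY S JJ TyJ).indicator fun _ => (S.card : ℝ)) P := (integrable_const _).indicator mb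
  have k := integral_mono iN (i2.add i3) pt
  refine k.trans ?_
  have k2 : ∫ ω, ((∑ j ∈ JJ, ∑ c ∈ S, (TyJ j c ∩ {ω | t ≤ w c ω}).indicator (fun _ => (1 : ℝ)) ω) +
      (badY S JJ TyJ).indicator (fun _ => (S.card : ℝ)) ω) ∂P =
      (∑ j ∈ JJ, ∑ c ∈ S, P.real (TyJ j c ∩ {ω | t ≤ w c ω})) + P.real (badY S JJ TyJ) * S.card := by
    rw [integral_add i2 i3, integral_finsetSum _ fun j hj => integrable_finsetSum _ fun c hc => i1 j hj c hc,
      integral_indicator_const _ mb, smul_eq_mul]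
    congr 1
    refine sum_congr rfl fun j hj => ?_
    rw [integral_finsetSum _ fun c hc => i1 j hj c hc]
    refine sum_congr rfl fun c hc => ?_
    rw [integral_indicator_const _ ((mT j hj c hc).inter (mh c hc)), smul_eq_mul, mul_one]
  refine (le_of_eq k2).trans ?_
  rw [mul_comm (P.real _)]
  refine add_le_add ?_ le_rfl
  rw [sum_div]
  refine sum_le_sum fun j hj => ?_
  rw [le_div_iff₀ hp0, mul_comm]
  exact one54 (H j hj)

/-- **Second moment.** -/
theorem second54 [IsProbabilityMeasure P] (hp0 : 0 < p) (mw : ∀ c ∈ S, Measurable (w c)) (row : ι → ℕ)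
    (H : ∀ j ∈ JJ, YH P S w t (TyJ j) (GJ j) (RJ j) (LJ j) p (DJ j))
    (t6 : ∀ j ∈ JJ, ∀ c ∈ S, ∀ ω ∈ TyJ j c, t ≤ w c ω → ∀ ω', (ω, ω') ∈ LJ j c →
      ∀ c' ∈ S, row c' ≤ row c → t ≤ w c' ω → tJ j ≤ w c' (RJ j c (ω, ω'))) :
    ∫ ω, Nc S w t ω ^ 2 ∂P ≤ 2 / p * (∑ j ∈ JJ, DJ j * ∫ ω, Nc S w (tJ j) ω ∂P) + (S.card : ℝ) ^ 2 * P.real (badY S JJ TyJ) := by
  classical
  have mT : ∀ j ∈ JJ, ∀ c ∈ S, MeasurableSet (TyJ j c) := fun j hj => (H j hj).mT
  have mb := meas_badY mT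
  have mh : ∀ c ∈ S, MeasurableSet {ω | t ≤ w c ω} := fun c hc => measurableSet_le measurable_const (mw c hc)
  have pt : ∀ ω, Nc S w t ω ^ 2 ≤ 2 * (∑ j ∈ JJ, ∑ c ∈ S, (TyJ j c ∩ {ω | t ≤ w c ω}).indicator (Nr S row w t c) ω) +
      (badY S JJ TyJ).indicator (fun _ => (S.card : ℝ) ^ 2) ω := by
    intro ω
    have n0 : 0 ≤ ∑ j ∈ JJ, ∑ c ∈ S, (TyJ j c ∩ {ω | t ≤ w c ω}).indicator (Nr S row w t c) ω :=
      sum_nonneg fun j _ => sum_nonneg fun c _ => Set.indicator_nonneg (fun ω _ => Nr_nonneg row c ω) _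
    by_cases hb : ω ∈ badY S JJ TyJ
    · rw [Set.indicator_of_mem hb]
      have := pow_le_pow_left₀ (Nc_nonneg S w t ω) (Nc_le S w t ω) 2
      linarith
    · rw [Set.indicator_of_notMem hb, add_zero]
      refine (sq_le54 row ω).trans (mul_le_mul_of_nonneg_left ?_ (by norm_num))
      rw [sum_comm]
      refine sum_le_sum fun c hc => ?_
      by_cases h1 : t ≤ w c ω
      · have h2 : ∃ j ∈ JJ, ω ∈ TyJ j c := by
          by_contra h3
          push Not at h3
          exact hb ⟨c, hc, h3⟩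
        obtain ⟨j, hj, h3⟩ := h2
        rw [Set.indicator_of_mem (show ω ∈ {ω | t ≤ w c ω} from h1), one_mul]
        have h4 : (TyJ j c ∩ {ω | t ≤ w c ω}).indicator (Nr S row w t c) ω ≤
            ∑ j ∈ JJ, (TyJ j c ∩ {ω | t ≤ w c ω}).indicator (Nr S row w t c) ω :=
          single_le_sum (f := fun j => (TyJ j c ∩ {ω | t ≤ w c ω}).indicator (Nr S row w t c) ω)
          (fun j _ => Set.indicator_nonneg (fun ω _ => Nr_nonneg row c ω) _) hj
        rw [Set.indicator_of_mem (show ω ∈ TyJ j c ∩ {ω | t ≤ w c ω} from ⟨h3, h1⟩)] at h4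
        exact h4
      · rw [Set.indicator_of_notMem (show ω ∉ {ω | t ≤ w c ω} from h1), zero_mul]
        exact sum_nonneg fun j _ => Set.indicator_nonneg (fun ω _ => Nr_nonneg row c ω) _
  have iN : Integrable (fun ω => Nc S w t ω ^ 2) P := (integrable_const ((S.card : ℝ) ^ 2)).mono'
    ((meas_Nc mw t).pow_const 2).aestronglyMeasurable
    (Filter.Eventually.of_forall fun ω => by
      rw [Real.norm_eq_abs, abs_of_nonneg (by positivity)]
      exact pow_le_pow_left₀ (Nc_nonneg S w t ω) (Nc_le S w t ω) 2)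
  have ir : ∀ c ∈ S, Integrable (Nr S row w t c) P := fun c _ => (integrable_const (S.card : ℝ)).mono'
    (meas_Nr mw c).aestronglyMeasurable
    (Filter.Eventually.of_forall fun ω => by
      rw [Real.norm_eq_abs, abs_of_nonneg (Nr_nonneg row c ω)]
      exact Nr_le row c ω)
  have i1 : ∀ j ∈ JJ, ∀ c ∈ S, Integrable ((TyJ j c ∩ {ω | t ≤ w c ω}).indicator (Nr S row w t c)) P := fun j hj c hc =>
    (ir c hc).indicator ((mT j hj c hc).inter (mh c hc))
  have i2 : Integrable (fun ω => ∑ j ∈ JJ, ∑ c ∈ S, (TyJ j c ∩ {ω | t ≤ w c ω}).indicator (Nr S row w t c) ω) P :=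
    integrable_finsetSum _ fun j hj => integrable_finsetSum _ fun c hc => i1 j hj c hc
  have i3 : Integrable ((badY S JJ TyJ).indicator fun _ => (S.card : ℝ) ^ 2) P := (integrable_const _).indicator mb
  have k := integral_mono iN ((i2.const_mul 2).add i3) pt
  refine k.trans ?_
  have k2 : ∫ ω, (2 * (∑ j ∈ JJ, ∑ c ∈ S, (TyJ j c ∩ {ω | t ≤ w c ω}).indicator (Nr S row w t c) ω) +
      (badY S JJ TyJ).indicator (fun _ => (S.card : ℝ) ^ 2) ω) ∂P =
      2 * (∑ j ∈ JJ, ∑ c ∈ S, ∫ ω in TyJ j c ∩ {ω | t ≤ w c ω}, Nr S row w t c ω ∂P) +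
        P.real (badY S JJ TyJ) * (S.card : ℝ) ^ 2 := by
    rw [integral_add (i2.const_mul 2) i3, integral_const_mul,
      integral_finsetSum _ fun j hj => integrable_finsetSum _ fun c hc => i1 j hj c hc,
      integral_indicator_const _ mb, smul_eq_mul]
    congr 2
    refine sum_congr rfl fun j hj => ?_
    rw [integral_finsetSum _ fun c hc => i1 j hj c hc]
    exact sum_congr rfl fun c hc => integral_indicator ((mT j hj c hc).inter (mh c hc))
  refine (le_of_eq k2).trans ?_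
  rw [mul_comm (P.real _)]
  refine add_le_add ?_ le_rfl
  have k3 : ∑ j ∈ JJ, ∑ c ∈ S, ∫ ω in TyJ j c ∩ {ω | t ≤ w c ω}, Nr S row w t c ω ∂P ≤
      (∑ j ∈ JJ, DJ j * ∫ ω, Nc S w (tJ j) ω ∂P) / p := by
    rw [sum_div]
    refine sum_le_sum fun j hj => ?_
    rw [le_div_iff₀ hp0, mul_comm]
    exact two54 (H j hj) row (t6 j hj)
  calc 2 * ∑ j ∈ JJ, ∑ c ∈ S, ∫ ω in TyJ j c ∩ {ω | t ≤ w c ω}, Nr S row w t c ω ∂P
      ≤ 2 * ((∑ j ∈ JJ, DJ j * ∫ ω, Nc S w (tJ j) ω ∂P) / p) := mul_le_mul_of_nonneg_left k3 (by norm_num)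
    _ = _ := by ring

end scales

end

end Pool.Agent.W_7d29a1_C1.YA54
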