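import Mathlib

/-!
MP_7d29a1_pr, [C1] attractor route, (Y), ABSTRACT: two moments of the number of heavy contacts by the insertion of tubes (helper99).

`S` contacts, `j < J` scales, `Ty j c` typical, `Lk j c` lucky pairs, `R j c` the map which replaces the slab (measure preserving),
`G j c` = the environments in which the tube behind `c` is good and `c` still heavy; at most `D` of them at once (`cnt`).
`first`: `∫ #{heavy} ≤ J D / p + #S P(bad)`. `second`: `∫ #{heavy}² ≤ 2 (J D / p) ∫ #{less heavy} + 2 #S² P(bad)`.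
-/

set_option autoImplicit false

namespace Pool.Agent.W_7d29a1_C1.YAbs99

open MeasureTheory Finset
open scoped ENNReal

noncomputable section

variable {Ω : Type*} [MeasurableSpace Ω] {P : Measure Ω}

/-- **The transfer**: what is seen before the tube is inserted is seen after it. -/
theorem transfer [SFinite P] {Ty : Set Ω} {Lk : Set (Ω × Ω)} (mT : MeasurableSet Ty) (mL : MeasurableSet Lk) {R : Ω × Ω → Ω}
    (hR : MeasurePreserving R (P.prod P) P) {p : ℝ≥0∞} (hp : ∀ ω ∈ Ty, p ≤ P {η | (ω, η) ∈ Lk}) {f g : Ω → ℝ≥0∞}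
    (mf : Measurable f) (mg : Measurable g) (h : ∀ ω ∈ Ty, ∀ η, (ω, η) ∈ Lk → f ω ≤ g (R (ω, η))) :
    p * ∫⁻ ω, Ty.indicator f ω ∂P ≤ ∫⁻ ω, g ω ∂P := by
  classical
  have hgR : ∫⁻ ω, g ω ∂P = ∫⁻ ω, ∫⁻ η, g (R (ω, η)) ∂P ∂P := by
    rw [← lintegral_prod (fun z => g (R z)) (mg.comp hR.measurable).aemeasurable, hR.lintegral_comp mg]
  rw [hgR, ← lintegral_const_mul _ (mf.indicator mT)]
  refine lintegral_mono fun ω => ?_
  by_cases hω : ω ∈ Ty
  · rw [Set.indicator_of_mem hω]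
    have hsec : MeasurableSet {η | (ω, η) ∈ Lk} := measurable_prodMk_left mL
    calc p * f ω = f ω * p := mul_comm _ _
      _ ≤ f ω * P {η | (ω, η) ∈ Lk} := mul_le_mul_right (hp ω hω) _
      _ = ∫⁻ η, {η | (ω, η) ∈ Lk}.indicator (fun _ => f ω) η ∂P := by rw [lintegral_indicator_const hsec]
      _ ≤ ∫⁻ η, g (R (ω, η)) ∂P := by
        refine lintegral_mono fun η => ?_
        by_cases hη : (ω, η) ∈ Lk
        · rw [Set.indicator_of_mem (show η ∈ {η | (ω, η) ∈ Lk} from hη)]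
          exact h ω hω η hη
        · rw [Set.indicator_of_notMem (show η ∉ {η | (ω, η) ∈ Lk} from hη)]
          exact zero_le
  · rw [Set.indicator_of_notMem hω, mul_zero]
    exact zero_le

variable {ι : Type*} {S : Finset ι}

/-- The number of the contacts with the property `A`. -/
def cnt (S : Finset ι) (A : ι → Set Ω) (ω : Ω) : ℝ≥0∞ := ∑ c ∈ S, (A c).indicator 1 ω

theorem measurable_cnt {A : ι → Set Ω} (hA : ∀ c ∈ S, MeasurableSet (A c)) : Measurable (cnt S A) := by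
  unfold cnt
  exact Finset.measurable_sum _ fun c hc => measurable_one.indicator (hA c hc)

omit [MeasurableSpace Ω] in
theorem cnt_le_card (A : ι → Set Ω) (ω : Ω) : cnt S A ω ≤ S.card := by
  unfold cnt
  calc ∑ c ∈ S, (A c).indicator (1 : Ω → ℝ≥0∞) ω ≤ ∑ _c ∈ S, (1 : ℝ≥0∞) :=
        sum_le_sum fun c _ => Set.indicator_le_self' (fun _ _ => zero_le) ω
    _ = S.card := by simp

omit [MeasurableSpace Ω] in
theorem cnt_eq_card (A : ι → Set Ω) (ω : Ω) [DecidablePred fun c => ω ∈ A c] : cnt S A ω = (S.filter fun c => ω ∈ A c).card := by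
  classical
  unfold cnt
  rw [card_filter]
  push_cast
  refine sum_congr rfl fun c _ => ?_
  by_cases h : ω ∈ A c
  · rw [Set.indicator_of_mem h, if_pos h]
    rfl
  · rw [Set.indicator_of_notMem h, if_neg h]

/-- The data of the insertion. -/
structure Tubes (P : Measure Ω) (S : Finset ι) (J : ℕ) (p D : ℝ≥0∞) (Ty : ℕ → ι → Set Ω) (Lk : ℕ → ι → Set (Ω × Ω))
    (R : ℕ → ι → Ω × Ω → Ω) (G : ℕ → ι → Set Ω) (H : ι → Set Ω) : Prop where
  mT : ∀ j < J, ∀ c ∈ S, MeasurableSet (Ty j c)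
  mL : ∀ j < J, ∀ c ∈ S, MeasurableSet (Lk j c)
  mR : ∀ j < J, ∀ c ∈ S, MeasurePreserving (R j c) (P.prod P) P
  mG : ∀ j < J, ∀ c ∈ S, MeasurableSet (G j c)
  mH : ∀ c ∈ S, MeasurableSet (H c)
  hp : ∀ j < J, ∀ c ∈ S, ∀ ω ∈ Ty j c, p ≤ P {η | (ω, η) ∈ Lk j c}
  hG : ∀ j < J, ∀ c ∈ S, ∀ ω ∈ Ty j c, ω ∈ H c → ∀ η, (ω, η) ∈ Lk j c → R j c (ω, η) ∈ G j c
  hD : ∀ j < J, ∀ ω, cnt S (G j) ω ≤ D

variable {J : ℕ} {p D : ℝ≥0∞} {Ty : ℕ → ι → Set Ω} {Lk : ℕ → ι → Set (Ω × Ω)} {R : ℕ → ι → Ω × Ω → Ω} {G : ℕ → ι → Set Ω}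
  {H : ι → Set Ω}

/-- **General form.** `f c` is seen from `c` before, `g` after the insertion. -/
theorem moment [SFinite P] (h : Tubes P S J p D Ty Lk R G H) {f : ι → Ω → ℝ≥0∞} {g : Ω → ℝ≥0∞} (mf : ∀ c ∈ S, Measurable (f c))
    (mg : Measurable g) (hfg : ∀ j < J, ∀ c ∈ S, ∀ ω ∈ Ty j c, ω ∈ H c → ∀ η, (ω, η) ∈ Lk j c → f c ω ≤ g (R j c (ω, η)))
    {B : ℝ≥0∞} (hB : ∀ c ∈ S, ∀ ω, f c ω ≤ B) :
    p * ∫⁻ ω, ∑ c ∈ S, (H c).indicator (f c) ω ∂P ≤
      J * D * ∫⁻ ω, g ω ∂P + p * (S.card * B * P {ω | ∃ c ∈ S, ∀ j < J, ω ∉ Ty j c}) := by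
  classical
  obtain ⟨Bd, hBd⟩ : ∃ Bd : Set Ω, Bd = {ω | ∃ c ∈ S, ∀ j < J, ω ∉ Ty j c} := ⟨_, rfl⟩
  have mBd : MeasurableSet Bd := by
    rw [hBd]
    have e : {ω | ∃ c ∈ S, ∀ j < J, ω ∉ Ty j c} = ⋃ c ∈ S, ⋂ j ∈ range J, (Ty j c)ᶜ := by
      ext ω
      simp
    rw [e]
    exact Finset.measurableSet_biUnion _ fun c hc => Finset.measurableSet_biInter _ fun j hj =>
      (h.mT j (Finset.mem_range.1 hj) c hc).compl
  rw [← hBd]
  -- pointwise
  have e1 : ∀ ω, ∑ c ∈ S, (H c).indicator (f c) ω ≤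
      (∑ j ∈ range J, ∑ c ∈ S, (Ty j c).indicator ((H c).indicator (f c)) ω) + Bd.indicator (fun _ => (S.card : ℝ≥0∞) * B) ω := by
    intro ω
    by_cases hω : ω ∈ Bd
    · rw [Set.indicator_of_mem hω]
      refine le_trans ?_ le_add_self
      calc ∑ c ∈ S, (H c).indicator (f c) ω ≤ ∑ _c ∈ S, B := sum_le_sum fun c hc =>
            (Set.indicator_le_self' (fun _ _ => zero_le) ω).trans (hB c hc ω)
        _ = S.card * B := by rw [sum_const, nsmul_eq_mul]
    · rw [Set.indicator_of_notMem hω, add_zero, sum_comm]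
      refine sum_le_sum fun c hc => ?_
      have h1 : ∃ j < J, ω ∈ Ty j c := by
        by_contra h2
        push Not at h2
        exact hω (by rw [hBd]; exact ⟨c, hc, h2⟩)
      obtain ⟨j, hj, h3⟩ := h1
      calc (H c).indicator (f c) ω = (Ty j c).indicator ((H c).indicator (f c)) ω := by rw [Set.indicator_of_mem h3]
        _ ≤ _ := single_le_sum (f := fun j => (Ty j c).indicator ((H c).indicator (f c)) ω) (fun _ _ => zero_le)
          (Finset.mem_range.2 hj)
  have mHf : ∀ c ∈ S, Measurable ((H c).indicator (f c)) := fun c hc => (mf c hc).indicator (h.mH c hc)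
  have mTHf : ∀ j < J, ∀ c ∈ S, Measurable ((Ty j c).indicator ((H c).indicator (f c))) := fun j hj c hc =>
    (mHf c hc).indicator (h.mT j hj c hc)
  have e2 : ∀ j < J, ∀ c ∈ S, p * ∫⁻ ω, (Ty j c).indicator ((H c).indicator (f c)) ω ∂P ≤ ∫⁻ ω, (G j c).indicator g ω ∂P := by
    intro j hj c hc
    refine transfer (h.mT j hj c hc) (h.mL j hj c hc) (h.mR j hj c hc) (h.hp j hj c hc) (mHf c hc) (mg.indicator (h.mG j hj c hc)) ?_
    intro ω hω η hη
    by_cases h1 : ω ∈ H c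
    · rw [Set.indicator_of_mem h1, Set.indicator_of_mem (h.hG j hj c hc ω hω h1 η hη)]
      exact hfg j hj c hc ω hω h1 η hη
    · rw [Set.indicator_of_notMem h1]
      exact zero_le
  have e3 : ∀ j < J, ∑ c ∈ S, ∫⁻ ω, (G j c).indicator g ω ∂P ≤ D * ∫⁻ ω, g ω ∂P := by
    intro j hj
    rw [← lintegral_finsetSum S fun c hc => mg.indicator (h.mG j hj c hc), ← lintegral_const_mul _ mg]
    refine lintegral_mono fun ω => ?_
    have e4 : ∑ c ∈ S, (G j c).indicator g ω = cnt S (G j) ω * g ω := by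
      unfold cnt
      rw [sum_mul]
      refine sum_congr rfl fun c _ => ?_
      by_cases h1 : ω ∈ G j c
      · rw [Set.indicator_of_mem h1, Set.indicator_of_mem h1]
        simp
      · rw [Set.indicator_of_notMem h1, Set.indicator_of_notMem h1, zero_mul]
    show ∑ c ∈ S, (G j c).indicator g ω ≤ D * g ω
    rw [e4]
    exact mul_le_mul_left (h.hD j hj ω) _
  have m1 : Measurable fun ω => ∑ j ∈ range J, ∑ c ∈ S, (Ty j c).indicator ((H c).indicator (f c)) ω :=
    Finset.measurable_fun_sum _ fun j hj => Finset.measurable_fun_sum _ fun c hc => mTHf j (Finset.mem_range.1 hj) c hc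
  calc p * ∫⁻ ω, ∑ c ∈ S, (H c).indicator (f c) ω ∂P
      ≤ p * ∫⁻ ω, ((∑ j ∈ range J, ∑ c ∈ S, (Ty j c).indicator ((H c).indicator (f c)) ω) +
          Bd.indicator (fun _ => (S.card : ℝ≥0∞) * B) ω) ∂P := mul_le_mul_right (lintegral_mono e1) _
    _ = p * (∑ j ∈ range J, ∑ c ∈ S, ∫⁻ ω, (Ty j c).indicator ((H c).indicator (f c)) ω ∂P) + p * (S.card * B * P Bd) := by
        rw [lintegral_add_left m1, lintegral_finsetSum _ fun j hj => Finset.measurable_fun_sum _ fun c hc =>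
          mTHf j (Finset.mem_range.1 hj) c hc, lintegral_indicator_const mBd, mul_add]
        congr 2
        refine sum_congr rfl fun j hj => ?_
        exact lintegral_finsetSum S fun c hc => mTHf j (Finset.mem_range.1 hj) c hc
    _ ≤ J * D * ∫⁻ ω, g ω ∂P + p * (S.card * B * P Bd) := by
        refine add_le_add_left ?_ _
        rw [mul_sum]
        calc ∑ j ∈ range J, p * ∑ c ∈ S, ∫⁻ ω, (Ty j c).indicator ((H c).indicator (f c)) ω ∂P
            ≤ ∑ j ∈ range J, D * ∫⁻ ω, g ω ∂P := by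
              refine sum_le_sum fun j hj => ?_
              rw [mul_sum]
              exact (sum_le_sum fun c hc => e2 j (Finset.mem_range.1 hj) c hc).trans (e3 j (Finset.mem_range.1 hj))
          _ = J * D * ∫⁻ ω, g ω ∂P := by rw [sum_const, card_range, nsmul_eq_mul, mul_assoc]

/-- **The first moment.** -/
theorem first [IsProbabilityMeasure P] (h : Tubes P S J p D Ty Lk R G H) :
    p * ∫⁻ ω, cnt S H ω ∂P ≤ J * D + p * (S.card * P {ω | ∃ c ∈ S, ∀ j < J, ω ∉ Ty j c}) := by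
  have h1 := moment h (f := fun _ _ => 1) (g := fun _ => 1) (fun _ _ => measurable_const) measurable_const
    (fun _ _ _ _ _ _ _ _ _ => le_rfl) (B := 1) (fun _ _ _ => le_rfl)
  rw [lintegral_const, measure_univ, mul_one, mul_one, mul_one] at h1
  exact h1

/-- **The second moment.** `row` orders the contacts; the insertion behind `c` keeps the earlier heavy contacts a little less heavy. -/
theorem second [IsProbabilityMeasure P] (h : Tubes P S J p D Ty Lk R G H) (row : ι → ℕ) {H' : ι → Set Ω}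
    (mH' : ∀ c ∈ S, MeasurableSet (H' c))
    (hH' : ∀ j < J, ∀ c ∈ S, ∀ ω ∈ Ty j c, ω ∈ H c → ∀ η, (ω, η) ∈ Lk j c → ∀ c' ∈ S, row c' ≤ row c → ω ∈ H c' →
      R j c (ω, η) ∈ H' c') :
    p * ∫⁻ ω, cnt S H ω ^ 2 ∂P ≤ 2 * (J * D * ∫⁻ ω, cnt S H' ω ∂P) +
      2 * (p * (S.card ^ 2 * P {ω | ∃ c ∈ S, ∀ j < J, ω ∉ Ty j c})) := by
  classical
  obtain ⟨f, hf⟩ : ∃ f : ι → Ω → ℝ≥0∞, f = fun c ω => cnt (S.filter fun c' => row c' ≤ row c) H ω := ⟨_, rfl⟩
  have hf' : ∀ c ω, f c ω = ∑ c' ∈ S, if row c' ≤ row c then (H c').indicator 1 ω else 0 := by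
    intro c ω
    rw [hf]
    show cnt (S.filter fun c' => row c' ≤ row c) H ω = _
    unfold cnt
    rw [sum_filter]
  have mf : ∀ c ∈ S, Measurable (f c) := by
    intro c _
    rw [hf]
    exact measurable_cnt (S := S.filter fun c' => row c' ≤ row c) fun c' hc' => h.mH c' (mem_filter.1 hc').1
  have hB : ∀ c ∈ S, ∀ ω, f c ω ≤ S.card := by
    intro c _ ω
    rw [hf]
    refine (cnt_le_card (S := S.filter fun c' => row c' ≤ row c) H ω).trans ?_
    have h0 : (S.filter fun c' => row c' ≤ row c).card ≤ S.card := card_le_card (filter_subset _ _)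
    exact_mod_cast h0
  have h1 := moment h mf (measurable_cnt mH') (fun j hj c hc ω hω hH η hη => by
    rw [hf]
    show cnt (S.filter fun c' => row c' ≤ row c) H ω ≤ cnt S H' (R j c (ω, η))
    unfold cnt
    refine le_trans ?_ (sum_le_sum_of_subset (filter_subset (fun c' => row c' ≤ row c) S))
    refine sum_le_sum fun c' hc' => ?_
    rw [mem_filter] at hc'
    by_cases h2 : ω ∈ H c'
    · rw [Set.indicator_of_mem h2, Set.indicator_of_mem (hH' j hj c hc ω hω hH η hη c' hc'.1 hc'.2 h2)]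
      rfl
    · rw [Set.indicator_of_notMem h2]
      exact zero_le) hB
  have e1 : ∀ ω, cnt S H ω ^ 2 ≤ 2 * ∑ c ∈ S, (H c).indicator (f c) ω := by
    intro ω
    have e2 : ∀ c ∈ S, (H c).indicator (f c) ω = ∑ c' ∈ S, if row c' ≤ row c then (H c).indicator 1 ω * (H c').indicator 1 ω else 0 := by
      intro c _
      by_cases h2 : ω ∈ H c
      · rw [Set.indicator_of_mem h2, Set.indicator_of_mem h2, hf']
        refine sum_congr rfl fun c' _ => ?_
        split_ifs
        · rw [Pi.one_apply, one_mul]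
        · rfl
      · rw [Set.indicator_of_notMem h2, Set.indicator_of_notMem h2]
        simp
    rw [sum_congr rfl e2, two_mul]
    nth_rewrite 2 [sum_comm]
    rw [← sum_add_distrib]
    unfold cnt
    rw [sq, sum_mul_sum]
    refine sum_le_sum fun c _ => ?_
    rw [← sum_add_distrib]
    refine sum_le_sum fun c' _ => ?_
    by_cases h3 : row c' ≤ row c
    · rw [if_pos h3]
      exact le_self_add
    · rw [if_neg h3, if_pos (by omega), zero_add, mul_comm]
  calc p * ∫⁻ ω, cnt S H ω ^ 2 ∂P ≤ p * ∫⁻ ω, 2 * ∑ c ∈ S, (H c).indicator (f c) ω ∂P := mul_le_mul_right (lintegral_mono e1) _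
    _ = 2 * (p * ∫⁻ ω, ∑ c ∈ S, (H c).indicator (f c) ω ∂P) := by
        rw [lintegral_const_mul _ (Finset.measurable_fun_sum _ fun c hc => (mf c hc).indicator (h.mH c hc))]
        ring
    _ ≤ 2 * (J * D * ∫⁻ ω, cnt S H' ω ∂P + p * (S.card * S.card * P {ω | ∃ c ∈ S, ∀ j < J, ω ∉ Ty j c})) :=
        mul_le_mul_right h1 _
    _ = _ := by
        rw [mul_add, ← sq]

end

end Pool.Agent.W_7d29a1_C1.YAbs99
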