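import Pool.Agent.W_7d29a1_C1.Y99
import Pool.Agent.W_7d29a1_C1.Tub87
import Pool.Agent.W_7d29a1_C1.Seq71

/-!
MP_7d29a1_pr, the attractor route, (Y): THE INSERTION OF TUBES FROM ONE PROBABILITY (helper54), over `Tub87` (helper87), `Cnt58`
(helper58) and `Y99` (helper99).

The window `B` of a contact is resampled. Lucky = the new environment is a tube for the old masses. Typical = the fresh content of the
window is lucky with probability at least `p`, and the arm of the contact is in the arm window. All fields of `Ins99` follow, except the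
probability that some contact is typical at no scale.
-/

set_option autoImplicit false

namespace Pool.Agent.W_7d29a1_C1.YI54

open Finset MeasureTheory ProbabilityTheory
open Pool.Agent.W_7d29a1_F
open Pool.Agent.W_7d29a1_C1.K91 (Box Grp wt wt_pos measurable_wt)
open Pool.Agent.W_7d29a1_C1.K91P
open Pool.Agent.W_7d29a1_C1.U16 (ker ker_nonneg ker_eq_zero)
open Pool.Agent.W_7d29a1_C1.S71 (gl mp_gl measurable_gl)
open Pool.Agent.W_7d29a1_C1.Tb87
open Pool.Agent.W_7d29a1_C1.Cnt58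
open Pool.Agent.W_7d29a1_C1.Y99 (Sm Ins99)
open Pool.Agent.W_7d29a1_C1.H60
open Pool.Agent.W_7d29a1_C1.H60.Cx (l)
open scoped ENNReal

noncomputable section

/-- The data of one slab of one contact: the rows `r1 | A | F1 | MM | F2 | BB`, the cells, the resampled window. -/
structure TD where
  r1 : ℕ
  nA : ℕ
  n1 : ℕ
  nM : ℕ
  n2 : ℕ
  nB : ℕ
  In : Finset ℤ
  mo : Finset ℤ
  be : Finset ℤ
  be' : Finset ℤ
  ex : Finset ℤ
  B : Set Pt

/-- The row of `be`. -/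
def TD.b1 (t : TD) : ℕ := t.r1 + t.nA + t.n1

/-- The tube of the slab. -/
def TD.tb (t : TD) : Tb := ⟨t.b1, t.nM, t.be, t.be'⟩

/-- The new environment: the content of the window is the one of the second copy. -/
def RB (B : Set Pt) (z : Env × Env) : Env := gl B z.2 z.1

theorem mp_RB {μ : Measure ℝ} [IsProbabilityMeasure μ] (B : Set Pt) : MeasurePreserving (RB B) ((law μ).prod (law μ)) (law μ) :=
  (mp_gl B).comp Measure.measurePreserving_swap

theorem meas_RB (B : Set Pt) : Measurable (RB B) := (measurable_gl B).comp measurable_swap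

/-! ### The mass off the tube -/

section det

variable {w w' : ℕ → ℤ → ℝ} {p : ℕ → ℝ} {m : ℤ → ℝ} {lo hi : ℤ} {N : ℕ}

/-- Off the tube and through the tube. -/
theorem off_thr (h : Gr m lo hi N) {b1 nM : ℕ} {be be' : Finset ℤ} (hb : b1 + nM ≤ N) :
    off w p m lo hi N ⟨b1, nM, be, be'⟩ + ThrM w p m lo hi N b1 nM be be' = ZZm w p m lo hi N := by
  have e0 : ZZm w p m lo hi N = Zt w p m lo hi N := rfl
  rw [e0, off_eq, Zt_eq (t := ⟨b1, nM, be, be'⟩) h hb]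
  unfold ThrM
  rw [← sum_add_distrib]
  refine sum_congr rfl fun x _ => ?_
  show fw w p m b1 x * _ + fw w p m b1 x * _ = fw w p m b1 x * _
  rw [← mul_add]
  by_cases hx : lo ≤ x ∧ x ≤ hi - N + b1
  · congr 1
    by_cases hbe : x ∈ be
    · rw [if_pos hbe, thr2_sum]
      have e1 : ∑ y ∈ Icc x (x + nM), ker w p b1 nM x y * (if y ∈ be' then bw w p (b1 + nM) (N - (b1 + nM)) y else 0) =
          ∑ y ∈ Icc lo hi, ker w p b1 nM x y * (if y ∈ be' then bw w p (b1 + nM) (N - (b1 + nM)) y else 0) := by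
        refine sum_subset (fun y hy => ?_) fun y _ hy => ?_
        · rw [mem_Icc] at hy ⊢
          omega
        · rw [ker_eq_zero, zero_mul]
          rw [mem_Icc] at hy
          omega
      rw [e1]
      unfold QQ PP
      rw [← sum_add_distrib]
      refine sum_congr rfl fun y _ => ?_
      show oo _ x y * (ker w p b1 nM x y * bw w p (b1 + nM) (N - (b1 + nM)) y) + _ = ker w p b1 nM x y * bw w p (b1 + nM) (N - (b1 + nM)) y
      unfold oo
      by_cases hy : y ∈ be'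
      · rw [if_pos (show x ∈ be ∧ y ∈ be' from ⟨hbe, hy⟩), if_pos hy, zero_mul, zero_add]
      · rw [if_neg (show ¬ (x ∈ be ∧ y ∈ be') from fun h => hy h.2), if_neg hy, one_mul, mul_zero, add_zero]
    · rw [if_neg hbe, add_zero]
      unfold QQ PP
      refine sum_congr rfl fun y _ => ?_
      unfold oo
      rw [if_neg (show ¬ (x ∈ be ∧ y ∈ be') from fun h => hbe h.1), one_mul]
  · rw [h.fw0 b1 hx, zero_mul, zero_mul]

end det

/-! ### Lucky and typical -/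

/-- **Lucky**: the new environment is a tube for the old masses, two paths meet in `MM`, and the masses at the row `r1` move at most by
the factor `D`. -/
structure LkP (Γ : Cx) (cc R K La D : ℝ) (t : TD) (w w' : ℕ → ℤ → ℝ) : Prop where
  tube : Tube w w' Γ.p Γ.N t.r1 t.nA t.n1 t.nM t.n2 t.nB t.In t.mo t.be t.be' t.ex R K La
  hv : Hv w' Γ.p cc t.tb
  d1 : ∀ x, Mo w Γ.p Γ.N t.r1 x ≤ D * Mo w' Γ.p Γ.N t.r1 x
  d2 : ∀ x, Mo w' Γ.p Γ.N t.r1 x ≤ D * Mo w Γ.p Γ.N t.r1 x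

/-- The lucky pairs of environments. -/
def Lk54 (Γ : Cx) (cc R K La D : ℝ) (t : TD) : Set (Env × Env) := {z | LkP Γ cc R K La D t (wt z.1) (wt (RB t.B z))}

/-- The arm of the contact `c` is in the window `In`. -/
def arm54 (Γ : Cx) (t : TD) (c : ℕ × ℤ) : Set Env := {ω | Mo (wt ω) Γ.p Γ.N (c.1 + 1) c.2 ≤
  2 * vf (wt ω) Γ.p (fun x => if x ∈ t.In then Mo (wt ω) Γ.p Γ.N t.r1 x else 0) (c.1 + 1) (t.r1 - (c.1 + 1)) c.2}

/-- **Typical**: the fresh content is lucky with probability at least `p`, and the arm is in the window. -/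
def Ty54 (μ : Measure ℝ) (Γ : Cx) (p cc R K La D : ℝ) (t : TD) (c : ℕ × ℤ) : Set Env :=
  {ω | ENNReal.ofReal p ≤ law μ {ω' | (ω, ω') ∈ Lk54 Γ cc R K La D t}} ∩ arm54 Γ t c

/-! ### Measurability -/

section meas

variable {α : Type*} [MeasurableSpace α] {W W' : α → ℕ → ℤ → ℝ} {p : ℕ → ℝ} {N : ℕ}

theorem pm_vf {g : α → ℤ → ℝ} (hW : ∀ k y, Measurable fun x => W x k y) (hg : ∀ y, Measurable fun x => g x y) :
    ∀ (j k : ℕ) (y : ℤ), Measurable fun x => vf (W x) p (g x) k j y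
  | 0, k, y => by
    simp only [vf_zero]
    exact hg y
  | j + 1, k, y => by
    simp only [vf_succ]
    exact (hW k y).mul ((pm_vf hW hg j (k + 1) y).add (measurable_const.mul (pm_vf hW hg j (k + 1) (y + 1))))

theorem pm_Mo (hW : ∀ k y, Measurable fun x => W x k y) (i : ℕ) (y : ℤ) : Measurable fun x => Mo (W x) p N i y :=
  pm_bw hW _ _ _

theorem ms_Leak (hW : ∀ k y, Measurable fun x => W x k y) (hW' : ∀ k y, Measurable fun x => W' x k y) (a n : ℕ) (R : ℝ) :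
    MeasurableSet {x | Leak (W x) (W' x) p N a n R} := by
  have e : {x | Leak (W x) (W' x) p N a n R} =
      ⋂ y : ℤ, {x | vf (W' x) p (Mo (W x) p N (a + n)) a n y ≤ R * Mo (W x) p N a y} := by
    ext x
    simp only [Set.mem_iInter]
    exact Iff.rfl
  rw [e]
  exact MeasurableSet.iInter fun y => measurableSet_le (pm_vf hW' (fun z => pm_Mo hW _ z) _ _ _) (measurable_const.mul (pm_Mo hW _ _))

theorem ms_LeakL (hW : ∀ k y, Measurable fun x => W x k y) (hW' : ∀ k y, Measurable fun x => W' x k y) (a n : ℕ) (mo ex : Finset ℤ)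
    (R : ℝ) : MeasurableSet {x | LeakL (W x) (W' x) p N a n mo ex R} := by
  have e : {x | LeakL (W x) (W' x) p N a n mo ex R} =
      (⋂ y : ℤ, ⋂ _ : y ∉ mo, {x | vf (W' x) p (Mo (W x) p N (a + n)) a n y ≤ R * Mo (W x) p N a y}) ∩
      ⋂ y : ℤ, ⋂ _ : y ∈ mo, {x | vf (W' x) p (fun z => if z ∈ ex then 0 else Mo (W x) p N (a + n) z) a n y ≤ R * Mo (W x) p N a y} := by
    ext x
    simp only [Set.mem_inter_iff, Set.mem_iInter]
    exact Iff.rfl
  rw [e]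
  refine MeasurableSet.inter (MeasurableSet.iInter fun y => MeasurableSet.iInter fun _ => ?_)
    (MeasurableSet.iInter fun y => MeasurableSet.iInter fun _ => ?_)
  · exact measurableSet_le (pm_vf hW' (fun z => pm_Mo hW _ z) _ _ _) (measurable_const.mul (pm_Mo hW _ _))
  · refine measurableSet_le (pm_vf hW' (fun z => ?_) _ _ _) (measurable_const.mul (pm_Mo hW _ _))
    split_ifs
    · exact measurable_const
    · exact pm_Mo hW _ z

theorem ms_Tube (hW : ∀ k y, Measurable fun x => W x k y) (hW' : ∀ k y, Measurable fun x => W' x k y) (r1 nA n1 nM n2 nB : ℕ)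
    (In mo be be' ex : Finset ℤ) (R K La : ℝ) :
    MeasurableSet {x | Tube (W x) (W' x) p N r1 nA n1 nM n2 nB In mo be be' ex R K La} := by
  have e : {x | Tube (W x) (W' x) p N r1 nA n1 nM n2 nB In mo be be' ex R K La} =
      {_x | r1 + nA + n1 + nM + n2 + nB ≤ N ∧ 1 ≤ R ∧ 1 ≤ K ∧ K ^ 2 * R ^ 3 ≤ La} ∩
      ((⋂ i : ℕ, ⋂ _ : i < r1, ⋂ y : ℤ, {x | W' x i y = W x i y}) ∩
      ((⋂ i : ℕ, ⋂ _ : r1 + nA + n1 + nM + n2 + nB ≤ i, ⋂ y : ℤ, {x | W' x i y = W x i y}) ∩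
      ({x | Leak (W x) (W' x) p N r1 nA R} ∩ ({x | LeakL (W x) (W' x) p N (r1 + nA) n1 mo be R} ∩
      ({x | Leak (W x) (W' x) p N (r1 + nA + n1) nM R} ∩ ({x | LeakL (W x) (W' x) p N (r1 + nA + n1 + nM) n2 be' ex R} ∩
      ({x | Leak (W x) (W' x) p N (r1 + nA + n1 + nM + n2) nB R} ∩
      ((⋂ y : ℤ, ⋂ _ : y ∈ In, ⋂ z : ℤ, ⋂ _ : z ∈ mo,
        {x | Mo (W x) p N r1 y ≤ K * (ker (W' x) p r1 nA y z * Mo (W x) p N (r1 + nA) z)}) ∩
      ((⋃ y : ℤ, ⋃ _ : y ∈ mo, ⋃ z : ℤ, ⋃ _ : z ∈ be,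
        {x | La * Mo (W x) p N (r1 + nA) y ≤ ker (W' x) p (r1 + nA) n1 y z * Mo (W x) p N (r1 + nA + n1) z}) ∩
      ((⋂ y : ℤ, ⋂ _ : y ∈ be, ⋂ z : ℤ, ⋂ _ : z ∈ be',
        {x | Mo (W x) p N (r1 + nA + n1) y ≤ K * (ker (W' x) p (r1 + nA + n1) nM y z * Mo (W x) p N (r1 + nA + n1 + nM) z)}) ∩
      (⋃ y : ℤ, ⋃ _ : y ∈ be', ⋃ z : ℤ,
        ({x | La * Mo (W x) p N (r1 + nA + n1 + nM) y ≤
          ker (W' x) p (r1 + nA + n1 + nM) n2 y z * Mo (W x) p N (r1 + nA + n1 + nM + n2) z} ∩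
        {x | Mo (W x) p N (r1 + nA + n1 + nM + n2) z ≤ K * Mo (W' x) p N (r1 + nA + n1 + nM + n2) z})))))))))))) := by
    ext x
    simp only [Set.mem_inter_iff, Set.mem_iInter, Set.mem_iUnion, Set.mem_ofPred_eq, exists_prop]
    constructor
    · intro h
      exact ⟨⟨h.hN, h.R1, h.K1, h.big⟩, h.past, h.fut, h.lA, h.l1, h.lM, h.l2, h.lB, h.kA, h.k1, h.kM, h.k2⟩
    · rintro ⟨⟨a1, a2, a3, a4⟩, a5, a6, a7, a8, a9, a10, a11, a12, a13, a14, a15⟩
      exact ⟨a1, a5, a6, a2, a3, a4, a7, a8, a9, a10, a11, a12, a13, a14, a15⟩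
  rw [e]
  refine (MeasurableSet.const _).inter (MeasurableSet.inter ?_ (MeasurableSet.inter ?_ ((ms_Leak hW hW' _ _ _).inter
    ((ms_LeakL hW hW' _ _ _ _ _).inter ((ms_Leak hW hW' _ _ _).inter ((ms_LeakL hW hW' _ _ _ _ _).inter
    ((ms_Leak hW hW' _ _ _).inter (MeasurableSet.inter ?_ (MeasurableSet.inter ?_ (MeasurableSet.inter ?_ ?_))))))))))
  · exact MeasurableSet.iInter fun i => MeasurableSet.iInter fun _ => MeasurableSet.iInter fun y => measurableSet_eq_fun (hW' i y) (hW i y)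
  · exact MeasurableSet.iInter fun i => MeasurableSet.iInter fun _ => MeasurableSet.iInter fun y => measurableSet_eq_fun (hW' i y) (hW i y)
  · exact MeasurableSet.iInter fun y => MeasurableSet.iInter fun _ => MeasurableSet.iInter fun z => MeasurableSet.iInter fun _ =>
      measurableSet_le (pm_Mo hW _ _) (measurable_const.mul ((pm_ker hW' _ _ _ _).mul (pm_Mo hW _ _)))
  · exact MeasurableSet.iUnion fun y => MeasurableSet.iUnion fun _ => MeasurableSet.iUnion fun z => MeasurableSet.iUnion fun _ =>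
      measurableSet_le (measurable_const.mul (pm_Mo hW _ _)) ((pm_ker hW' _ _ _ _).mul (pm_Mo hW _ _))
  · exact MeasurableSet.iInter fun y => MeasurableSet.iInter fun _ => MeasurableSet.iInter fun z => MeasurableSet.iInter fun _ =>
      measurableSet_le (pm_Mo hW _ _) (measurable_const.mul ((pm_ker hW' _ _ _ _).mul (pm_Mo hW _ _)))
  · exact MeasurableSet.iUnion fun y => MeasurableSet.iUnion fun _ => MeasurableSet.iUnion fun z =>
      (measurableSet_le (measurable_const.mul (pm_Mo hW _ _)) ((pm_ker hW' _ _ _ _).mul (pm_Mo hW _ _))).inter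
        (measurableSet_le (pm_Mo hW _ _) (measurable_const.mul (pm_Mo hW' _ _)))

end meas

theorem meas_Lk54 (Γ : Cx) (cc R K La D : ℝ) (t : TD) : MeasurableSet (Lk54 Γ cc R K La D t) := by
  have hW : ∀ (k : ℕ) (y : ℤ), Measurable fun z : Env × Env => wt z.1 k y := fun k y => (measurable_wt k y).comp measurable_fst
  have hW' : ∀ (k : ℕ) (y : ℤ), Measurable fun z : Env × Env => wt (RB t.B z) k y := fun k y => (measurable_wt k y).comp (meas_RB _)
  have e : Lk54 Γ cc R K La D t =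
      {z | Tube (wt z.1) (wt (RB t.B z)) Γ.p Γ.N t.r1 t.nA t.n1 t.nM t.n2 t.nB t.In t.mo t.be t.be' t.ex R K La} ∩
      ({z | Hv (wt (RB t.B z)) Γ.p cc t.tb} ∩ ((⋂ x : ℤ, {z | Mo (wt z.1) Γ.p Γ.N t.r1 x ≤ D * Mo (wt (RB t.B z)) Γ.p Γ.N t.r1 x}) ∩
      ⋂ x : ℤ, {z | Mo (wt (RB t.B z)) Γ.p Γ.N t.r1 x ≤ D * Mo (wt z.1) Γ.p Γ.N t.r1 x})) := by
    ext z
    simp only [Set.mem_inter_iff, Set.mem_iInter]
    exact ⟨fun h => ⟨h.tube, h.hv, h.d1, h.d2⟩, fun h => ⟨h.1, h.2.1, h.2.2.1, h.2.2.2⟩⟩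
  rw [e]
  refine (ms_Tube (W := fun z : Env × Env => wt z.1) (W' := fun z : Env × Env => wt (RB t.B z)) hW hW' _ _ _ _ _ _ _ _ _ _ _ _ _ _).inter
    ((ms_Hv (W := fun z : Env × Env => wt (RB t.B z)) hW' cc t.tb).inter
    (MeasurableSet.inter (MeasurableSet.iInter fun x => ?_) (MeasurableSet.iInter fun x => ?_)))
  · exact measurableSet_le (pm_Mo (W := fun z : Env × Env => wt z.1) hW _ _)
      (measurable_const.mul (pm_Mo (W := fun z : Env × Env => wt (RB t.B z)) hW' _ _))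
  · exact measurableSet_le (pm_Mo (W := fun z : Env × Env => wt (RB t.B z)) hW' _ _)
      (measurable_const.mul (pm_Mo (W := fun z : Env × Env => wt z.1) hW _ _))

theorem meas_arm54 (Γ : Cx) (t : TD) (c : ℕ × ℤ) : MeasurableSet (arm54 Γ t c) := by
  refine measurableSet_le (pm_Mo (W := wt) measurable_wt _ _) (measurable_const.mul
    (pm_vf (W := wt) (g := fun ω x => if x ∈ t.In then Mo (wt ω) Γ.p Γ.N t.r1 x else 0) measurable_wt (fun y => ?_) _ _ _))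
  split_ifs
  · exact pm_Mo (W := wt) measurable_wt _ _
  · exact measurable_const

theorem meas_Ty54 {μ : Measure ℝ} [IsProbabilityMeasure μ] (Γ : Cx) (p cc R K La D : ℝ) (t : TD) (c : ℕ × ℤ) :
    MeasurableSet (Ty54 μ Γ p cc R K La D t c) :=
  (measurableSet_le measurable_const (measurable_measure_prodMk_left (meas_Lk54 Γ cc R K La D t))).inter (meas_arm54 Γ t c)

/-! ### The insertion -/

theorem w_wc {Γ : Cx} (h : Γ.Ok) (c : ℕ × ℤ) (η : Env) : Γ.w c η = wc (wt η) Γ.p l Γ.r 0 Γ.hi Γ.N c.1 c.2 := by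
  unfold Cx.w wc ZZm
  rw [Cx.ZM_eq h η]
  rfl

/-- **The tube of a lucky content is good for the pair, and the contact stays.** -/
theorem good54 {Γ : Cx} (h : Γ.Ok) {cc R K La D a b : ℝ} {t : TD} {c : ℕ × ℤ} (hc : c ∈ Γ.rows 0 Γ.N) (hr : c.1 + 1 ≤ t.r1)
    (ha : 0 ≤ a) (h1 : 36 * K ^ 2 * R ^ 2 ≤ Real.exp (b - a)) (h2 : 3 * K ^ 2 * R ^ 3 * Real.exp (a + 2 * b) ≤ La)
    {ω ω2 : Env} (hL : LkP Γ cc R K La D t (wt ω) (wt ω2)) (harm : ω ∈ arm54 Γ t c) (hw : Real.exp (-a) ≤ Γ.w c ω) :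
    Good (wt ω2) Γ.p l Γ.r 0 Γ.hi Γ.N cc (Real.exp (-(2 * b))) t.tb ∧ Real.exp (-b) ≤ Γ.w c ω2 := by
  have hB := Cx.box1 h
  have hl : ∃ y, 0 < l y := ⟨0, by rw [Cx.l_zero]; exact one_pos⟩
  have hr' : ∃ y, 0 < Γ.r y := by
    obtain ⟨y, _, _, hy⟩ := Cx.r_pos h
    exact ⟨y, hy⟩
  have hc' := Cx.mem_rows.1 hc
  have hk := h.k1
  have q1 : (0 : ℤ) ≤ c.2 := by omega
  have q2 : c.2 ≤ Γ.hi := by unfold Cx.hi; omega
  have hlh : (0 : ℤ) ≤ Γ.hi := by omega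
  have T := hL.tube
  have hN := T.hN
  have hKR : 0 < 3 * K ^ 2 * R ^ 3 := by
    have := T.K1
    have := T.R1
    positivity
  have hLa : 0 < La := lt_of_lt_of_le (by positivity) h2
  rw [w_wc h] at hw
  have P0 := Real.exp_pos (-a)
  have P1 : Real.exp (-a) ≤ 1 := Real.exp_le_one_iff.2 (by linarith)
  -- off the tube, one group
  have key : ∀ m : ℤ → ℝ, Gr m 0 Γ.hi Γ.N →
      Real.exp (-a) * ZZm (wt ω) Γ.p m 0 Γ.hi Γ.N ≤ fw (wt ω) Γ.p m (c.1 + 1) c.2 * Mo (wt ω) Γ.p Γ.N (c.1 + 1) c.2 →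
      off (wt ω2) Γ.p m 0 Γ.hi Γ.N t.tb ≤ Real.exp (-(2 * b)) * Zt (wt ω2) Γ.p m 0 Γ.hi Γ.N := by
    intro m hm hP
    have k1 := off87 T (wt_pos ω) (wt_pos ω2) Γ.p_pos hm.m0 hm.lo0 hm.hi0 hlh hr q1 q2 harm P0 P1 hP
    have k2 := off_thr (w := wt ω2) (p := Γ.p) hm (b1 := t.b1) (nM := t.nM) (be := t.be) (be' := t.be')
      (show t.b1 + t.nM ≤ Γ.N by unfold TD.b1; omega)
    have k3 : ZZm (wt ω2) Γ.p m 0 Γ.hi Γ.N - ThrM (wt ω2) Γ.p m 0 Γ.hi Γ.N (t.r1 + t.nA + t.n1) t.nM t.be t.be' =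
        off (wt ω2) Γ.p m 0 Γ.hi Γ.N t.tb := by
      have : ThrM (wt ω2) Γ.p m 0 Γ.hi Γ.N (t.r1 + t.nA + t.n1) t.nM t.be t.be' =
        ThrM (wt ω2) Γ.p m 0 Γ.hi Γ.N t.b1 t.nM t.be t.be' := rfl
      rw [this, ← k2]
      unfold TD.tb
      ring
    rw [k3] at k1
    have z0 : 0 ≤ ZZm (wt ω2) Γ.p m 0 Γ.hi Γ.N := Zt_nonneg (wt_pos ω2) Γ.p_pos hm
    have k4 : 3 * K ^ 2 * R ^ 3 * off (wt ω2) Γ.p m 0 Γ.hi Γ.N t.tb ≤
        3 * K ^ 2 * R ^ 3 * (Real.exp (-(2 * b)) * ZZm (wt ω2) Γ.p m 0 Γ.hi Γ.N) := by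
      have o0 : 0 ≤ off (wt ω2) Γ.p m 0 Γ.hi Γ.N t.tb := off_nonneg (wt_pos ω2) Γ.p_pos hm _
      have c1 : 3 * K ^ 2 * R ^ 3 * Real.exp (2 * b) ≤ La * Real.exp (-a) := by
        have := mul_le_mul_of_nonneg_right h2 P0.le
        refine le_trans (le_of_eq ?_) this
        rw [mul_assoc (3 * K ^ 2 * R ^ 3), ← Real.exp_add]
        congr 2
        ring
      have c2 := mul_le_mul_of_nonneg_right c1 o0
      have c3 : Real.exp (-(2 * b)) * (3 * K ^ 2 * R ^ 3 * Real.exp (2 * b) * off (wt ω2) Γ.p m 0 Γ.hi Γ.N t.tb) ≤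
          Real.exp (-(2 * b)) * (3 * K ^ 2 * R ^ 3 * ZZm (wt ω2) Γ.p m 0 Γ.hi Γ.N) :=
        mul_le_mul_of_nonneg_left (c2.trans k1) (Real.exp_pos _).le
      have c4 : Real.exp (-(2 * b)) * Real.exp (2 * b) = 1 := by
        rw [← Real.exp_add]
        simp
      calc 3 * K ^ 2 * R ^ 3 * off (wt ω2) Γ.p m 0 Γ.hi Γ.N t.tb
          = (Real.exp (-(2 * b)) * Real.exp (2 * b)) * (3 * K ^ 2 * R ^ 3 * off (wt ω2) Γ.p m 0 Γ.hi Γ.N t.tb) := by rw [c4, one_mul]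
        _ = Real.exp (-(2 * b)) * (3 * K ^ 2 * R ^ 3 * Real.exp (2 * b) * off (wt ω2) Γ.p m 0 Γ.hi Γ.N t.tb) := by ring
        _ ≤ _ := c3
        _ = _ := by ring
    exact le_of_mul_le_mul_left k4 hKR
  have hl' := wc_le_l (wt_pos ω) Γ.p_pos hB hr' hl hc'.1.2 q1 q2
  have hrr := wc_le_r (wt_pos ω) Γ.p_pos hB hr' hl hc'.1.2 q1 q2
  refine ⟨⟨?_, hL.hv, key l (grl hB) ?_, key Γ.r (grr hB) ?_⟩, ?_⟩
  · show t.b1 + t.nM ≤ Γ.N
    unfold TD.b1
    omega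
  · exact (mul_le_mul_of_nonneg_right hw (Zt_nonneg (wt_pos ω) Γ.p_pos (grl hB))).trans hl'
  · exact (mul_le_mul_of_nonneg_right hw (Zt_nonneg (wt_pos ω) Γ.p_pos (grr hB))).trans hrr
  · have k1 := weight87 T (wt_pos ω) (wt_pos ω2) Γ.p_pos hB hl hr' hr harm
    rw [w_wc h]
    have k2 : 0 ≤ wc (wt ω2) Γ.p l Γ.r 0 Γ.hi Γ.N c.1 c.2 := by
      rw [← w_wc h]
      exact Cx.w_nonneg h c ω2
    have k3 := (hw.trans k1).trans (mul_le_mul_of_nonneg_right h1 k2)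
    have k4 := mul_le_mul_of_nonneg_left k3 (Real.exp_pos (a - b)).le
    rw [← Real.exp_add, ← mul_assoc, ← Real.exp_add] at k4
    have e1 : a - b + -a = -b := by ring
    have e2 : a - b + (b - a) = 0 := by ring
    rw [e1, e2, Real.exp_zero, one_mul] at k4
    exact k4

/-- **Earlier contacts stay.** -/
theorem keep54 {Γ : Cx} (h : Γ.Ok) {cc R K La D a a' : ℝ} {t : TD} (hD : 0 < D) (h1 : D ^ 4 ≤ Real.exp (a' - a))
    {ω ω2 : Env} (hL : LkP Γ cc R K La D t (wt ω) (wt ω2)) {c' : ℕ × ℤ} (hc : c'.1 + 1 ≤ t.r1) (hw : Real.exp (-a) ≤ Γ.w c' ω) :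
    Real.exp (-a') ≤ Γ.w c' ω2 := by
  have hB := Cx.box1 h
  have hl : ∃ y, 0 < l y := ⟨0, by rw [Cx.l_zero]; exact one_pos⟩
  have hr' : ∃ y, 0 < Γ.r y := by
    obtain ⟨y, _, _, hy⟩ := Cx.r_pos h
    exact ⟨y, hy⟩
  have T := hL.tube
  have hN := T.hN
  have k1 := early87 (wt_pos ω) (wt_pos ω2) Γ.p_pos hB hl hr' (b := t.r1) (by omega) T.past hD hL.d1 hL.d2 hc c'.2
  rw [w_wc h] at hw ⊢
  have k2 : 0 ≤ wc (wt ω2) Γ.p l Γ.r 0 Γ.hi Γ.N c'.1 c'.2 := by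
    rw [← w_wc h]
    exact Cx.w_nonneg h c' ω2
  have k3 := (hw.trans k1).trans (mul_le_mul_of_nonneg_right h1 k2)
  have k4 := mul_le_mul_of_nonneg_left k3 (Real.exp_pos (a - a')).le
  rw [← Real.exp_add, ← mul_assoc, ← Real.exp_add] at k4
  have e1 : a - a' + -a = -a' := by ring
  have e2 : a - a' + (a' - a) = 0 := by ring
  rw [e1, e2, Real.exp_zero, one_mul] at k4
  exact k4

/-- **THE INSERTION OF TUBES FROM ONE PROBABILITY.** -/
theorem ins54 {μ : Measure ℝ} [IsProbabilityMeasure μ] {Γ : Cx} (h : Γ.Ok) {p cc R K La D a b a' δ : ℝ} {J m : ℕ} {td : ℕ → ℕ × ℤ → TD}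
    (ha : 0 ≤ a) (hD : 0 < D) (h1 : 36 * K ^ 2 * R ^ 2 ≤ Real.exp (b - a)) (h2 : 3 * K ^ 2 * R ^ 3 * Real.exp (a + 2 * b) ≤ La)
    (h3 : D ^ 4 ≤ Real.exp (a' - a))
    (geo : ∀ j < J, ∀ c ∈ Sm Γ m, c.1 + 1 ≤ (td j c).r1 ∧ (td j c).b1 + (td j c).nM ≤ c.1 + m ∧ ∀ x ∈ (td j c).be, |x - c.2| ≤ (m : ℤ))
    (bad : (law μ).real {ω | ∃ c ∈ Sm Γ m, ∀ j < J, ω ∉ Ty54 μ Γ p cc R K La D (td j c) c} ≤ δ) :
    Ins99 μ Γ p cc a b a' J m (fun j c => Ty54 μ Γ p cc R K La D (td j c) c) (fun j c => Lk54 Γ cc R K La D (td j c))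
      (fun j c => RB (td j c).B) (fun j c => (td j c).tb) δ where
  mT := fun j _ c _ => meas_Ty54 Γ p cc R K La D (td j c) c
  mL := fun j _ c _ => meas_Lk54 Γ cc R K La D (td j c)
  mR := fun j _ c _ => mp_RB _
  bad := bad
  luck := fun j _ c _ ω hω => hω.1
  good := fun j hj c hc ω hω hw ω' hL => good54 h (Y99.Sm_sub Γ m hc) (geo j hj c hc).1 ha h1 h2 hL hω.2 hw
  keep := fun j hj c hc ω _ _ ω' hL c' _ hcc hw' => keep54 h hD h3 hL (by have := (geo j hj c hc).1; omega) hw'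
  near := fun j hj c hc => by
    obtain ⟨g1, g2, g3⟩ := geo j hj c hc
    refine ⟨?_, g2, g3⟩
    show c.1 ≤ (td j c).b1 + m
    unfold TD.b1
    omega

end

end Pool.Agent.W_7d29a1_C1.YI54
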