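import Pool.Agent.W_7d29a1_C1.LocD91
import Pool.Agent.W_7d29a1_C1.CtxM68
import Pool.Agent.W_7d29a1_C1.NbrD56

/-!
MP_7d29a1_pr, the attractor route: THE SEAM BETWEEN THE FRAME AND THE NATURAL WEIGHT (helper54). Where the neighbouring masses differ
by the factor at most `exp X`, the weight of a contact in its frame is at most `exp (4 X)` times (up to constants) its natural weight.
Hence the sum of the weights in the frames is at most the number of the contacts whose natural weight is not tiny, plus a tiny sum.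
-/

set_option autoImplicit false

namespace Pool.Agent.W_7d29a1_C1.H54

open MeasureTheory Filter Topology Finset
open Pool.Agent.W_7d29a1_F Pool.Agent.W_7d29a1_h4g Pool.Agent.W_7d29a1_H Pool.Agent.W_7d29a1_HS
open Pool.Agent.W_7d29a1_C1.K91 (Box Grp cut zs jn wt wt_pos measurable_wt)
open Pool.Agent.W_7d29a1_C1.K91P
open Pool.Agent.W_7d29a1_C1.K97 (rz rt tm pt)
open Pool.Agent.W_7d29a1_C1.H60
open Pool.Agent.W_7d29a1_C1.H60.Cx (l)
open Pool.Agent.W_7d29a1_C1.L91 (Msk Nb fC)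

noncomputable section

variable {Γ : Cx}

theorem msk54 (h : Γ.Ok) : Msk Γ := ⟨h.k1, h.q0, h.q1⟩

/-- The factor of the seam. -/
def SF (Γ : Cx) (i : ℕ) (X : ℝ) : ℝ := (Real.exp X + Γ.p i) ^ 2 * Real.exp (2 * X)

theorem SF_nonneg (Γ : Cx) (i : ℕ) (X : ℝ) : 0 ≤ SF Γ i X := by
  unfold SF
  positivity

/-- The two contracted totals against the totals. -/
theorem rz_tot54 (h : Γ.Ok) (η : Env) {i : ℕ} (hi : i < Γ.N) (x : ℤ) {X : ℝ} (hX : Nb Γ η i X) :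
    (0 < rz 0 Γ.hi (Γ.p i) (wt η i) (fw (wt η) Γ.p l i) (fC Γ η i) x ∧
      Γ.ZM η ≤ Real.exp X * rz 0 Γ.hi (Γ.p i) (wt η i) (fw (wt η) Γ.p l i) (fC Γ η i) x) ∧
    0 < rz 0 Γ.hi (Γ.p i) (wt η i) (fw (wt η) Γ.p Γ.r i) (fC Γ η i) x ∧
      Γ.ZR η ≤ Real.exp X * rz 0 Γ.hi (Γ.p i) (wt η i) (fw (wt η) Γ.p Γ.r i) (fC Γ η i) x := by
  have hG := msk54 h
  have hl0 := fw_nonneg (w := wt η) (p := Γ.p) (wt_pos η) Γ.p_pos L91.l_nonneg i
  have hr0 := fw_nonneg (w := wt η) (p := Γ.p) (wt_pos η) Γ.p_pos (L91.r_nonneg hG) i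
  have hf : ∀ y, 0 < fC Γ η i y := fun y => bw_pos (wt_pos η) Γ.p_pos _ _ _
  have hhi : (0 : ℤ) ≤ Γ.hi := by unfold Cx.hi; positivity
  have el : ∃ y ∈ Icc (0 : ℤ) Γ.hi, 0 < fw (wt η) Γ.p l i y := by
    refine ⟨0, mem_Icc.2 ⟨le_rfl, hhi⟩, K91P.fw_stay (wt_pos η) Γ.p_pos L91.l_nonneg ?_ i⟩
    unfold l
    rw [if_pos rfl]
    exact one_pos
  have er : ∃ y ∈ Icc (0 : ℤ) Γ.hi, 0 < fw (wt η) Γ.p Γ.r i y := by
    obtain ⟨y, hy⟩ := L91.r_pos hG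
    have h1 : 1 ≤ y ∧ y ≤ Γ.k := by
      by_contra hc
      rw [L91.r_out hc] at hy
      exact lt_irrefl _ hy
    refine ⟨y, mem_Icc.2 ⟨by omega, by unfold Cx.hi; omega⟩, K91P.fw_stay (wt_pos η) Γ.p_pos (L91.r_nonneg hG) hy i⟩
  have hXG : ∀ y ∈ Icc (0 : ℤ) Γ.hi, |Real.log (fC Γ η i (y - 1) + Γ.p i * fC Γ η i y) -
      Real.log (fC Γ η i y + Γ.p i * fC Γ η i (y + 1))| ≤ X := by
    intro y hy
    have := hX.G y hy
    rw [L91.GG_fC, L91.GG_fC, sub_add_cancel] at this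
    exact this
  have k1 := L91.log_rz_tm (q := x) (Γ.p_pos i) (wt_pos η i) hf hl0 el hX.X0 hXG
  have k2 := L91.log_rz_tm (q := x) (Γ.p_pos i) (wt_pos η i) hf hr0 er hX.X0 hXG
  have t1 : tm 0 Γ.hi (Γ.p i) (wt η i) (fw (wt η) Γ.p l i) (fC Γ η i) = Γ.ZM η := by
    have h := K91P.tm_l (w := wt η) (p := Γ.p) (L91.boxC1 hG) L91.l0_pos hi
    rw [L91.sum_l] at h
    exact h
  have t2 : tm 0 Γ.hi (Γ.p i) (wt η i) (fw (wt η) Γ.p Γ.r i) (fC Γ η i) = Γ.ZR η :=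
    K91P.tm_r (w := wt η) (p := Γ.p) (L91.boxC1 hG) (L91.r_pos hG) hi
  rw [t1] at k1
  rw [t2] at k2
  have z1 : 0 < rz 0 Γ.hi (Γ.p i) (wt η i) (fw (wt η) Γ.p l i) (fC Γ η i) x := K91P.rz_pos (Γ.p_pos i) (wt_pos η i) hf hl0 el x
  have z2 : 0 < rz 0 Γ.hi (Γ.p i) (wt η i) (fw (wt η) Γ.p Γ.r i) (fC Γ η i) x := K91P.rz_pos (Γ.p_pos i) (wt_pos η i) hf hr0 er x
  exact ⟨⟨z1, (L91.le_of_log z1 (Γ.ZM_pos η) k1).2⟩, z2, (L91.le_of_log z2 (Cx.ZR_pos h η) k2).2⟩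

/-- **The seam**: the weight in the frame against the natural weight. -/
theorem seam54 (h : Γ.Ok) (η : Env) {i : ℕ} (hi : i < Γ.N) {x : ℤ} (hx : x ∈ Icc (1 : ℤ) (1 + Γ.N)) {X : ℝ} (hX : Nb Γ η i X) :
    Γ.ws (i, x) η ≤ SF Γ i X * Γ.w (i, x) η := by
  have hk' : (1 : ℤ) ≤ Γ.k := by exact_mod_cast h.k1
  have hxx := mem_Icc.1 hx
  have hf := hX.f x (mem_Icc.2 ⟨hxx.1, by unfold Cx.hi; omega⟩)
  have f1 : 0 < fC Γ η i (x - 1) := bw_pos (wt_pos η) Γ.p_pos _ _ _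
  have f2 : 0 < fC Γ η i x := bw_pos (wt_pos η) Γ.p_pos _ _ _
  have a1 := (L91.le_of_log f1 f2 hf).1
  obtain ⟨⟨z1, m1⟩, z2, m2⟩ := rz_tot54 h η hi x hX
  have hM := Γ.ZM_pos η
  have hR := Cx.ZR_pos h η
  have d0 := dp_nonneg (wt_pos η) Γ.p_pos (Cx.box1 h).g i (x - 1) x (by omega)
  have w1 := wt_pos η i (x - 1)
  have w2 := wt_pos η i x
  have hp := Γ.p_pos i
  set zl := rz 0 Γ.hi (Γ.p i) (wt η i) (fw (wt η) Γ.p l i) (fC Γ η i) x with hzl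
  set zr := rz 0 Γ.hi (Γ.p i) (wt η i) (fw (wt η) Γ.p Γ.r i) (fC Γ η i) x with hzr
  set D := dp (wt η) Γ.p l Γ.r i (x - 1) x * (Γ.p i * (wt η i (x - 1) * wt η i x)) with hD
  have D0 : 0 ≤ D := by positivity
  have e1 : Γ.ws (i, x) η = D * (fC Γ η i (x - 1) + Γ.p i * fC Γ η i x) ^ 2 / (zl * zr) := by
    have eg : GG (wt η) Γ.p Γ.N i (x - 1) = fC Γ η i (x - 1) + Γ.p i * fC Γ η i x := by
      rw [L91.GG_fC, sub_add_cancel]
    unfold Cx.ws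
    show dp (wt η) Γ.p l Γ.r i (x - 1) x * (Γ.p i * (wt η i (x - 1) * wt η i x) * GG (wt η) Γ.p Γ.N i (x - 1) ^ 2) / (zl * zr) = _
    rw [eg, hD]
    congr 1
    ring
  have e2 : Γ.w (i, x) η = D * fC Γ η i x ^ 2 / (Γ.ZM η * Γ.ZR η) := by
    unfold Cx.w
    show dp (wt η) Γ.p l Γ.r i (x - 1) x * (Γ.p i * (wt η i (x - 1) * wt η i x) * fC Γ η i x ^ 2) / (Γ.ZM η * Γ.ZR η) = _
    rw [hD]
    congr 1
    ring
  rw [e1, e2]
  have g1 : (fC Γ η i (x - 1) + Γ.p i * fC Γ η i x) ^ 2 ≤ (Real.exp X + Γ.p i) ^ 2 * fC Γ η i x ^ 2 := by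
    rw [← mul_pow]
    refine pow_le_pow_left₀ (by positivity) ?_ 2
    rw [add_mul]
    linarith
  have g2 : Γ.ZM η * Γ.ZR η ≤ Real.exp (2 * X) * (zl * zr) := by
    have := mul_le_mul m1 m2 hR.le (by positivity)
    refine this.trans (le_of_eq ?_)
    rw [show 2 * X = X + X by ring, Real.exp_add]
    ring
  have g3 : D * (fC Γ η i (x - 1) + Γ.p i * fC Γ η i x) ^ 2 / (zl * zr) ≤
      D * ((Real.exp X + Γ.p i) ^ 2 * fC Γ η i x ^ 2) / (zl * zr) :=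
    div_le_div_of_nonneg_right (mul_le_mul_of_nonneg_left g1 D0) (mul_pos z1 z2).le
  refine g3.trans ?_
  have g4 : 1 / (zl * zr) ≤ Real.exp (2 * X) / (Γ.ZM η * Γ.ZR η) := by
    rw [div_le_div_iff₀ (mul_pos z1 z2) (mul_pos hM hR), one_mul]
    exact g2
  have g5 : 0 ≤ D * ((Real.exp X + Γ.p i) ^ 2 * fC Γ η i x ^ 2) := by positivity
  have g6 := mul_le_mul_of_nonneg_left g4 g5
  unfold SF
  calc D * ((Real.exp X + Γ.p i) ^ 2 * fC Γ η i x ^ 2) / (zl * zr)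
      = D * ((Real.exp X + Γ.p i) ^ 2 * fC Γ η i x ^ 2) * (1 / (zl * zr)) := by ring
    _ ≤ D * ((Real.exp X + Γ.p i) ^ 2 * fC Γ η i x ^ 2) * (Real.exp (2 * X) / (Γ.ZM η * Γ.ZR η)) := g6
    _ = _ := by ring

/-- The natural weight of a contact in the row `i` is at most the share of the pairs which have not met up to the row `i`. -/
theorem w_le_nmt54 (h : Γ.Ok) (η : Env) {i : ℕ} (hi : i < Γ.N) {x : ℤ} (hx : x ∈ Icc (1 : ℤ) (1 + Γ.N)) :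
    Γ.w (i, x) η ≤ Γ.nmt i η := by
  have h1 := Cx.nmt_succ h η hi
  have h2 := Cx.nmt_nonneg h (i + 1) η
  have h3 : Γ.w (i, x) η ≤ ∑ x ∈ Icc (1 : ℤ) (1 + (Γ.N : ℤ)), Γ.w (i, x) η :=
    single_le_sum (f := fun x => Γ.w (i, x) η) (fun y _ => Cx.w_nonneg h (i, y) η) hx
  linarith

/-- **The seam, the pairs which have not met.** -/
theorem seamM54 (h : Γ.Ok) (η : Env) {i : ℕ} (hi : i < Γ.N) {x : ℤ} (hx : x ∈ Icc (1 : ℤ) (1 + Γ.N)) {X : ℝ} (hX : Nb Γ η i X) :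
    Γ.ws (i, x) η ≤ SF Γ i X * Γ.nmt i η :=
  (seam54 h η hi hx hX).trans (mul_le_mul_of_nonneg_left (w_le_nmt54 h η hi hx) (SF_nonneg _ _ _))

/-- The number of the contacts of the rows `a ≤ i < b` whose natural weight is at least `t`. -/
def cnt (Γ : Cx) (a b : ℕ) (t : ℝ) (η : Env) : ℝ := ∑ c ∈ Γ.rows a b, if t ≤ Γ.w c η then 1 else 0

theorem cnt_nonneg (Γ : Cx) (a b : ℕ) (t : ℝ) (η : Env) : 0 ≤ cnt Γ a b t η :=
  sum_nonneg fun c _ => by split_ifs <;> norm_num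

theorem cnt_le (Γ : Cx) (a b : ℕ) (t : ℝ) (η : Env) : cnt Γ a b t η ≤ (Γ.rows a b).card := by
  unfold cnt
  rw [card_eq_sum_ones]
  push_cast
  exact sum_le_sum fun c _ => by split_ifs <;> norm_num

theorem meas_cnt (Γ : Cx) (a b : ℕ) (t : ℝ) : Measurable (cnt Γ a b t) := by
  unfold cnt
  exact Finset.measurable_sum _ fun c _ => Measurable.ite (measurableSet_le measurable_const (Γ.meas_w c))
    measurable_const measurable_const

theorem cnt_eq (Γ : Cx) (a b : ℕ) (t : ℝ) (η : Env) [DecidablePred fun c => t ≤ Γ.w c η] :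
    cnt Γ a b t η = (((Γ.rows a b).filter fun c => t ≤ Γ.w c η).card : ℝ) := by
  unfold cnt
  rw [card_filter]
  push_cast
  exact sum_congr rfl fun c _ => by congr

theorem cnt_mono (Γ : Cx) (a b : ℕ) {t t' : ℝ} (h : t' ≤ t) (η : Env) : cnt Γ a b t η ≤ cnt Γ a b t' η := by
  unfold cnt
  refine sum_le_sum fun c _ => ?_
  by_cases h1 : t ≤ Γ.w c η
  · rw [if_pos h1, if_pos (h.trans h1)]
  · rw [if_neg h1]
    split_ifs <;> norm_num

/-- **The sum of the weights in the frames**, deterministic: counting plus tiny. -/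
theorem ysum54 (h : Γ.Ok) (η : Env) {a b : ℕ} (hb : b ≤ Γ.N) {X P : ℝ} (hP : ∀ i, Γ.p i ≤ P) (hX : ∀ i, a ≤ i → i < b → Nb Γ η i X)
    {t : ℝ} (ht : 0 ≤ t) :
    ∑ c ∈ Γ.rows a b, Γ.ws c η ≤ P * cnt Γ a b t η + (Γ.rows a b).card * ((Real.exp X + P) ^ 2 * Real.exp (2 * X) * t) := by
  have hP0 : 0 ≤ P := (Γ.p_pos 0).le.trans (hP 0)
  unfold cnt
  rw [mul_sum, ← nsmul_eq_mul, ← sum_const, ← sum_add_distrib]
  refine sum_le_sum fun c hc => ?_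
  have hc' := Cx.mem_rows.1 hc
  have hc0 := Cx.rows_sub Γ hb hc
  have e0 : 0 ≤ (Real.exp X + P) ^ 2 * Real.exp (2 * X) * t := by positivity
  by_cases h1 : t ≤ Γ.w c η
  · rw [if_pos h1, mul_one]
    have := (Cx.ws_le h hc0 η).trans (hP c.1)
    linarith
  · rw [if_neg h1, mul_zero, zero_add]
    have h2 := seam54 h η (i := c.1) (by omega) (x := c.2) (mem_Icc.2 hc'.2) (hX c.1 hc'.1.1 hc'.1.2)
    refine h2.trans ?_
    have h3 : SF Γ c.1 X ≤ (Real.exp X + P) ^ 2 * Real.exp (2 * X) := by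
      unfold SF
      refine mul_le_mul_of_nonneg_right (pow_le_pow_left₀ ?_ ?_ 2) (Real.exp_pos _).le
      · have := Γ.p_pos c.1
        positivity
      · linarith [hP c.1]
    exact mul_le_mul h3 (not_le.1 h1).le (Cx.w_nonneg h c η) (by positivity)

/-- **The last rows**, deterministic: the row sum is at most the share of the unmet pairs. -/
theorem ylast54 (h : Γ.Ok) (η : Env) {a b : ℕ} (hab : a ≤ b) (hb : b ≤ Γ.N) {X P : ℝ} (hP : ∀ i, Γ.p i ≤ P)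
    (hX : ∀ i, a ≤ i → i < b → Nb Γ η i X) :
    ∑ c ∈ Γ.rows a b, Γ.ws c η ≤ (Real.exp X + P) ^ 2 * Real.exp (2 * X) * Γ.nmt a η := by
  have hP0 : 0 ≤ P := (Γ.p_pos 0).le.trans (hP 0)
  have h1 : ∑ c ∈ Γ.rows a b, Γ.ws c η ≤ ∑ c ∈ Γ.rows a b, (Real.exp X + P) ^ 2 * Real.exp (2 * X) * Γ.w c η := by
    refine sum_le_sum fun c hc => ?_
    have hc' := Cx.mem_rows.1 hc
    have h2 := seam54 h η (i := c.1) (by omega) (x := c.2) (mem_Icc.2 hc'.2) (hX c.1 hc'.1.1 hc'.1.2)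
    refine h2.trans (mul_le_mul_of_nonneg_right ?_ (Cx.w_nonneg h c η))
    unfold SF
    refine mul_le_mul_of_nonneg_right (pow_le_pow_left₀ ?_ ?_ 2) (Real.exp_pos _).le
    · have := Γ.p_pos c.1
      positivity
    · linarith [hP c.1]
  refine h1.trans ?_
  rw [← mul_sum, Cx.sum_w h η hab hb]
  refine mul_le_mul_of_nonneg_left ?_ (by positivity)
  have := Cx.nmt_nonneg h b η
  linarith

end

end Pool.Agent.W_7d29a1_C1.H54
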