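import Pool.Agent.W_7d29a1_C1.YSeamP54
import Pool.Agent.W_7d29a1_C1.YAbs54

/-!
MP_7d29a1_pr, the attractor route: THE SECOND MOMENT OF THE SUM OF THE WEIGHTS IN THE FRAMES OVER ANY SET OF CONTACTS, by counting
(helper54). As `ysq54`, with the counting function `Nc` of `YAbs54`.
-/

set_option autoImplicit false

namespace Pool.Agent.W_7d29a1_C1.H54

open MeasureTheory Filter Topology Finset
open Pool.Agent.W_7d29a1_F Pool.Agent.W_7d29a1_h4g Pool.Agent.W_7d29a1_H Pool.Agent.W_7d29a1_HS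
open Pool.Agent.W_7d29a1_C1.K91 (Box Grp cut zs jn wt wt_pos measurable_wt)
open Pool.Agent.W_7d29a1_C1.K91P
open Pool.Agent.W_7d29a1_C1.H60
open Pool.Agent.W_7d29a1_C1.H60.Cx (l)
open Pool.Agent.W_7d29a1_C1.L91 (Msk Nb fC)
open Pool.Agent.W_7d29a1_C1.YA54 (Nc Nc_nonneg Nc_le meas_Nc)

noncomputable section

variable {μ : Measure ℝ} {s : ℝ} {Γ : Cx}

/-- **The sum of the weights in the frames**, any set of contacts, deterministic: counting plus tiny. -/
theorem ysumS54 (h : Γ.Ok) (η : Env) {S : Finset (ℕ × ℤ)} (hS : S ⊆ Γ.rows 0 Γ.N) {X P : ℝ} (hP : ∀ i, Γ.p i ≤ P)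
    (hX : ∀ i, i < Γ.N → Nb Γ η i X) {t : ℝ} (ht : 0 ≤ t) :
    ∑ c ∈ S, Γ.ws c η ≤ P * Nc S Γ.w t η + S.card * ((Real.exp X + P) ^ 2 * Real.exp (2 * X) * t) := by
  have hP0 : 0 ≤ P := (Γ.p_pos 0).le.trans (hP 0)
  unfold Nc
  rw [mul_sum, ← nsmul_eq_mul, ← sum_const, ← sum_add_distrib]
  refine sum_le_sum fun c hc => ?_
  have hc0 := hS hc
  have hc' := Cx.mem_rows.1 hc0
  have e0 : 0 ≤ (Real.exp X + P) ^ 2 * Real.exp (2 * X) * t := by positivity
  by_cases h1 : t ≤ Γ.w c η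
  · rw [Set.indicator_of_mem (show η ∈ {ω | t ≤ Γ.w c ω} from h1), mul_one]
    have := (Cx.ws_le h hc0 η).trans (hP c.1)
    linarith
  · rw [Set.indicator_of_notMem (show η ∉ {ω | t ≤ Γ.w c ω} from h1), mul_zero, zero_add]
    have h2 := seam54 h η (i := c.1) hc'.1.2 (x := c.2) (mem_Icc.2 hc'.2) (hX c.1 hc'.1.2)
    refine h2.trans ?_
    have h3 : SF Γ c.1 X ≤ (Real.exp X + P) ^ 2 * Real.exp (2 * X) := by
      unfold SF
      refine mul_le_mul_of_nonneg_right (pow_le_pow_left₀ ?_ ?_ 2) (Real.exp_pos _).le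
      · have := Γ.p_pos c.1
        positivity
      · linarith [hP c.1]
    exact mul_le_mul h3 (not_le.1 h1).le (Cx.w_nonneg h c η) (by positivity)

/-- **The second moment of the sum of the weights in the frames over any set of contacts, by counting.** -/
theorem ysqS54 [IsProbabilityMeasure μ] {c₀ C₀ : ℝ} {n₀ : ℕ} (hI : In μ s c₀ C₀ n₀) (hN : H56.Nbr56 μ s) {dl : ℝ} (hdl : 0 < dl) :
    ∃ κ₀ > (0 : ℝ), ∃ c' > (0 : ℝ), ∀ c ≤ (1 : ℝ), ∀ δ : ℝ, 0 ≤ δ → δ ≤ 1 → ∀ κ ≤ κ₀, ∀ᶠ n : ℕ in atTop, ∀ Γ : Cx,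
      Adm μ s c δ κ n Γ → ∀ S : Finset (ℕ × ℤ), S ⊆ Γ.rows 0 Γ.N →
      ∫ η, (∑ c ∈ S, Γ.ws c η) ^ 2 ∂(law μ) ≤
        2 * Real.exp (|s| + 1) ^ 2 * ∫ η, Nc S Γ.w (Real.exp (-(n : ℝ) ^ dl)) η ^ 2 ∂(law μ) + Real.exp (-(n : ℝ) ^ c') := by
  obtain ⟨κ₀, hκ₀, c1, hc1, hev⟩ := nb_prob54 hI hN (dl := dl / 2) (by positivity)
  set e := min dl c1 / 2 with he
  have he0 : 0 < e := by
    rw [he]
    exact half_pos (lt_min hdl hc1)
  have he1 : 2 * e ≤ dl := by
    have := min_le_left dl c1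
    linarith
  have he2 : 2 * e ≤ c1 := by
    have := min_le_right dl c1
    linarith
  refine ⟨κ₀, hκ₀, e, he0, fun c hc δ hδ0 hδ κ hκ => ?_⟩
  set P := Real.exp (|s| + 1) with hP
  have hP1 : 1 ≤ P := Real.one_le_exp (by positivity)
  -- eventual inequalities
  have t1 : Tendsto (fun n : ℕ => (n : ℝ) ^ e) atTop atTop := (tendsto_rpow_atTop he0).comp tendsto_natCast_atTop_atTop
  have t2 : Tendsto (fun n : ℕ => (n : ℝ) ^ (dl / 2)) atTop atTop :=
    (tendsto_rpow_atTop (by positivity)).comp tendsto_natCast_atTop_atTop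
  filter_upwards [hev c hc δ hδ κ hκ, eventually_ge_atTop 1, t1.eventually_ge_atTop 4, t2.eventually_ge_atTop 16,
    ev_pow54 (8 * (20 * (4 * P ^ 2))) 24 (B := 1 / 8) (by norm_num) hdl,
    ev_pow54 (2 * (P * 20) ^ 2) 24 (B := 1 / 2) (by norm_num) hc1] with n h1 h2 h3 h4 h5 h6 Γ hA S hS
  have hn' : (1 : ℝ) ≤ n := by exact_mod_cast h2
  have hok := hA.ok
  obtain ⟨N, hN1, hN2, hN3, hN4, _⟩ := adm_N54 hc h2 hA
  have hPp := adm_P54 hδ0 h2 hA
  set X := (n : ℝ) ^ (dl / 2) with hX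
  set T := (n : ℝ) ^ dl with hT
  have hXX : X ^ 2 = T := by
    rw [hX, hT, ← Real.rpow_natCast, ← Real.rpow_mul (by positivity)]
    congr 1
    push_cast
    ring
  have hX0 : 16 ≤ X := h4
  have hTX : 16 * X ≤ T := by
    rw [← hXX]
    nlinarith
  -- the number of the contacts
  have hcard : ((S).card : ℝ) ≤ 20 * (n : ℝ) ^ 12 := by
    refine (Nat.cast_le.2 (card_le_card hS)).trans ((card_rows54 Γ (a := 0) le_rfl).trans ?_)
    have d1 : (Γ.N : ℝ) ≤ 4 * (N : ℝ) ^ 3 := by exact_mod_cast hN4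
    have d2 : (N : ℝ) ≤ (n : ℝ) ^ 2 := by
      have := hN2
      rw [show (2 : ℝ) = ((2 : ℕ) : ℝ) by norm_num, Real.rpow_natCast] at this
      exact this
    have d3 : (N : ℝ) ^ 3 ≤ (n : ℝ) ^ 6 := by
      refine (pow_le_pow_left₀ (by positivity) d2 3).trans (le_of_eq ?_)
      ring
    have d4 : (Γ.N : ℝ) ≤ 4 * (n : ℝ) ^ 6 := by linarith
    have d5 : (1 : ℝ) ≤ (n : ℝ) ^ 6 := one_le_pow₀ hn'
    calc (Γ.N : ℝ) * (Γ.N + 1) ≤ (4 * (n : ℝ) ^ 6) * (5 * (n : ℝ) ^ 6) := by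
          refine mul_le_mul d4 (by linarith) (by positivity) (by positivity)
      _ = 20 * (n : ℝ) ^ 12 := by ring
  set K := 20 * (n : ℝ) ^ 12 with hK
  have hK0 : 0 ≤ K := by positivity
  set tiny := K * ((Real.exp X + P) ^ 2 * Real.exp (2 * X) * Real.exp (-T)) with htiny
  have htiny0 : 0 ≤ tiny := by positivity
  set bad := toMeasurable (law μ) {η | ¬ NB54 Γ X η} with hbad
  have mb : MeasurableSet bad := measurableSet_toMeasurable _ _
  have pb : (law μ).real bad ≤ Real.exp (-(n : ℝ) ^ c1) := by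
    rw [hbad, Measure.real, measure_toMeasurable]
    exact h1 Γ hA
  -- pointwise
  set Y : Env → ℝ := fun η => ∑ c ∈ S, Γ.ws c η with hY
  have Y0 : ∀ η, 0 ≤ Y η := fun η => sum_nonneg fun c _ => Cx.ws_nonneg hok c η
  have Y1 : ∀ η, Y η ≤ P * K := fun η => by
    have e1 : Y η ≤ ∑ _c ∈ S, P := sum_le_sum fun c hc => (Cx.ws_le hok (hS hc) η).trans (hPp c.1)
    rw [sum_const, nsmul_eq_mul] at e1
    refine e1.trans ?_
    rw [mul_comm]
    exact mul_le_mul_of_nonneg_left hcard (by positivity)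
  set t := Real.exp (-T) with ht
  have pt : ∀ η, Y η ^ 2 ≤ 2 * P ^ 2 * Nc S Γ.w t η ^ 2 + 2 * tiny ^ 2 + bad.indicator (fun _ => (P * K) ^ 2) η := by
    intro η
    have c0 := Nc_nonneg S Γ.w t η
    by_cases hb1 : η ∈ bad
    · rw [Set.indicator_of_mem hb1]
      have e1 := pow_le_pow_left₀ (Y0 η) (Y1 η) 2
      have e2 : 0 ≤ 2 * P ^ 2 * Nc S Γ.w t η ^ 2 := by positivity
      have e3 : 0 ≤ 2 * tiny ^ 2 := by positivity
      linarith
    · rw [Set.indicator_of_notMem hb1, add_zero]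
      have hNB : NB54 Γ X η := by
        by_contra hc2
        exact hb1 (subset_toMeasurable _ _ hc2)
      have e1 := ysumS54 hok η hS hPp (fun i hi => hNB.nb hi) (t := t) (Real.exp_pos _).le
      have e2 : ((S).card : ℝ) * ((Real.exp X + P) ^ 2 * Real.exp (2 * X) * t) ≤ tiny :=
        mul_le_mul_of_nonneg_right hcard (by positivity)
      have e3 : Y η ≤ P * Nc S Γ.w t η + tiny := e1.trans (by linarith)
      have e4 := pow_le_pow_left₀ (Y0 η) e3 2
      nlinarith [sq_nonneg (P * Nc S Γ.w t η - tiny)]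
  -- integration
  have mY : Measurable Y := Finset.measurable_sum _ fun c _ => Γ.meas_ws c
  have iY : Integrable (fun η => Y η ^ 2) (law μ) := by
    refine (integrable_const ((P * K) ^ 2)).mono' (mY.pow_const 2).aestronglyMeasurable (Eventually.of_forall fun η => ?_)
    rw [Real.norm_eq_abs, abs_of_nonneg (by positivity)]
    exact pow_le_pow_left₀ (Y0 η) (Y1 η) 2
  have ic : Integrable (fun η => Nc S Γ.w t η ^ 2) (law μ) := by
    refine (integrable_const (K ^ 2)).mono' ((meas_Nc (S := S) (w := Γ.w) (fun c _ => Γ.meas_w c) t).pow_const 2).aestronglyMeasurable (Eventually.of_forall fun η => ?_)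
    rw [Real.norm_eq_abs, abs_of_nonneg (by positivity)]
    exact pow_le_pow_left₀ (Nc_nonneg _ _ _ _) ((Nc_le _ _ _ _).trans hcard) 2
  have ib : Integrable (bad.indicator fun _ : Env => (P * K) ^ 2) (law μ) := (integrable_const _).indicator mb
  have i1 := integral_mono iY (((ic.const_mul (2 * P ^ 2)).add (integrable_const (2 * tiny ^ 2))).add ib) pt
  have i2 : ∫ η, (2 * P ^ 2 * Nc S Γ.w t η ^ 2 + 2 * tiny ^ 2 + bad.indicator (fun _ => (P * K) ^ 2) η) ∂(law μ) =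
      2 * P ^ 2 * ∫ η, Nc S Γ.w t η ^ 2 ∂(law μ) + 2 * tiny ^ 2 + (law μ).real bad * (P * K) ^ 2 := by
    rw [integral_add (f := fun η => 2 * P ^ 2 * Nc S Γ.w t η ^ 2 + 2 * tiny ^ 2)
      ((ic.const_mul (2 * P ^ 2)).add (integrable_const (2 * tiny ^ 2))) ib,
      integral_add (ic.const_mul (2 * P ^ 2)) (integrable_const (2 * tiny ^ 2)), integral_const_mul, integral_const,
      integral_indicator_const _ mb]
    simp
  have i3 : ∫ η, Y η ^ 2 ∂(law μ) ≤ 2 * P ^ 2 * ∫ η, Nc S Γ.w t η ^ 2 ∂(law μ) + 2 * tiny ^ 2 + (law μ).real bad * (P * K) ^ 2 :=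
    i1.trans (le_of_eq i2)
  refine i3.trans ?_
  -- the errors
  have r1 : (law μ).real bad * (P * K) ^ 2 ≤ Real.exp (-(n : ℝ) ^ e) / 2 := by
    have q1 : 2 * (P * K) ^ 2 ≤ Real.exp (1 / 2 * (n : ℝ) ^ c1) := by
      refine le_trans (le_of_eq ?_) h6
      rw [hK]
      ring
    have q2 : (law μ).real bad * (P * K) ^ 2 ≤ Real.exp (-(n : ℝ) ^ c1) * (Real.exp (1 / 2 * (n : ℝ) ^ c1) / 2) :=
      mul_le_mul pb (by linarith) (by positivity) (Real.exp_pos _).le
    refine q2.trans ?_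
    rw [← mul_div_assoc, ← Real.exp_add]
    refine div_le_div_of_nonneg_right (Real.exp_le_exp.2 ?_) (by norm_num)
    have q3 : (n : ℝ) ^ e * (n : ℝ) ^ e ≤ (n : ℝ) ^ c1 := by
      rw [← Real.rpow_add (by positivity)]
      exact Real.rpow_le_rpow_of_exponent_le hn' (by linarith)
    nlinarith
  have r2 : 2 * tiny ^ 2 ≤ Real.exp (-(n : ℝ) ^ e) / 2 := by
    have q1 : (Real.exp X + P) ^ 2 ≤ 4 * P ^ 2 * Real.exp (2 * X) := by
      have w1 : 1 ≤ Real.exp X := Real.one_le_exp (by linarith)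
      have w2 : Real.exp X + P ≤ 2 * P * Real.exp X := by nlinarith
      have w3 := pow_le_pow_left₀ (by positivity) w2 2
      refine w3.trans (le_of_eq ?_)
      rw [show 2 * X = X + X by ring, Real.exp_add]
      ring
    have q2 : tiny ≤ K * (4 * P ^ 2) * Real.exp (4 * X - T) := by
      rw [htiny]
      have w1 : (Real.exp X + P) ^ 2 * Real.exp (2 * X) * Real.exp (-T) ≤ 4 * P ^ 2 * Real.exp (2 * X) * Real.exp (2 * X) * Real.exp (-T) :=
        mul_le_mul_of_nonneg_right (mul_le_mul_of_nonneg_right q1 (Real.exp_pos _).le) (Real.exp_pos _).le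
      refine (mul_le_mul_of_nonneg_left w1 hK0).trans (le_of_eq ?_)
      rw [show 4 * X - T = 2 * X + 2 * X + -T by ring, Real.exp_add, Real.exp_add]
      ring
    have q3 : K * (4 * P ^ 2) ≤ Real.exp (1 / 8 * T) / 8 := by
      have w1 : (1 : ℝ) ≤ (n : ℝ) ^ 12 := one_le_pow₀ hn'
      have w2 : (n : ℝ) ^ 12 ≤ (n : ℝ) ^ 24 := pow_le_pow_right₀ hn' (by norm_num)
      have w3 : 8 * (20 * (4 * P ^ 2)) * (n : ℝ) ^ 12 ≤ 8 * (20 * (4 * P ^ 2)) * (n : ℝ) ^ 24 :=
        mul_le_mul_of_nonneg_left w2 (by positivity)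
      have w4 := w3.trans h5
      rw [hK]
      linarith
    have q4 : tiny ≤ Real.exp (-(T / 2)) / 8 := by
      refine q2.trans ?_
      have w1 := mul_le_mul_of_nonneg_right q3 (Real.exp_pos (4 * X - T)).le
      refine w1.trans ?_
      rw [div_mul_eq_mul_div, ← Real.exp_add]
      refine div_le_div_of_nonneg_right (Real.exp_le_exp.2 ?_) (by norm_num)
      linarith
    have q5 : tiny ^ 2 ≤ Real.exp (-T) / 64 := by
      refine (pow_le_pow_left₀ htiny0 q4 2).trans (le_of_eq ?_)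
      rw [div_pow, ← Real.exp_nat_mul]
      norm_num
      ring
    have q6 : Real.exp (-T) ≤ Real.exp (-(n : ℝ) ^ e) := by
      refine Real.exp_le_exp.2 (neg_le_neg ?_)
      exact Real.rpow_le_rpow_of_exponent_le hn' (by linarith)
    linarith [Real.exp_pos (-(n : ℝ) ^ e)]
  linarith

end

end Pool.Agent.W_7d29a1_C1.H54
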