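import Pool.Agent.W_7d29a1_C1.KerB16
import Pool.Agent.W_7d29a1_F.CoreB2

/-!
MP_7d29a1_pr, [C1] attractor route, TYPICAL AT ONE OF THE SCALES OF `[n^(e/2), n^e]`, all the sites at once. (helper16)

`typ_one`: independent events `E i c`, `i ∈ I`: `P (∃ c ∈ F, no E i c, i ∈ I) ≤ card F * ε ^ card I`. `typ_all`: events of the rows
`(c.1 - 2^i, c.1 - 2^(i-1)]`, `P (E i c)ᶜ ≤ 2^(-M)`, `A + A' + 1 ≤ M e/2`: for `F` of at most `n^A'` sites the probability that some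
`c ∈ F` has no good `i` with `n^(e/2) ≤ 2^i ≤ n^e` is at most `n^(-A)`. `ytyp16`: the instance `Far16`.
-/

set_option autoImplicit false

namespace Pool.Agent.W_7d29a1_C1.U16

open MeasureTheory ProbabilityTheory Filter Topology Finset
open Pool.Agent.W_7d29a1_F Pool.Agent.W_7d29a1_h4g Pool.Agent.W_7d29a1_H Pool.Agent.W_7d29a1_HS

noncomputable section

variable {μ : Measure ℝ} {s : ℝ} [IsProbabilityMeasure μ] {c C : ℝ} {n₀ : ℕ}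

theorem typ_one (I : Finset ℕ) (F : Finset Pt) (E : ℕ → Pt → Set Env) (A : ℕ → Pt → Set Pt)
    (hm : ∀ i ∈ I, ∀ a, MeasurableSet (E i a))
    (hdep : ∀ i ∈ I, ∀ a, ∀ η η' : Env, (∀ p ∈ A i a, η p = η' p) → (η ∈ E i a ↔ η' ∈ E i a))
    (hdisj : ∀ a, ∀ i ∈ I, ∀ j ∈ I, i ≠ j → Disjoint (A i a) (A j a)) {ε : ℝ}
    (hε : ∀ i ∈ I, ∀ a ∈ F, (law μ).real (E i a)ᶜ ≤ ε) :
    (law μ).real {η | ∃ a ∈ F, ∀ i ∈ I, η ∉ E i a} ≤ F.card * ε ^ I.card := by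
  have hsub : {η : Env | ∃ a ∈ F, ∀ i ∈ I, η ∉ E i a} ⊆ ⋃ a ∈ F, {η : Env | ∀ i ∈ I, η ∈ (E i a)ᶜ} := by
    rintro η ⟨a, ha, h⟩
    exact Set.mem_biUnion (Finset.mem_coe.2 ha) h
  refine (measureReal_mono hsub (measure_ne_top _ _)).trans ((measureReal_biUnion_finset_le _ _).trans ?_)
  have h1 : ∀ a ∈ F, (law μ).real {η : Env | ∀ i ∈ I, η ∈ (E i a)ᶜ} ≤ ε ^ I.card := by
    intro a ha
    have h2 := indep_events (μ := μ) I (fun i => (E i a)ᶜ) (fun i => A i a) (fun i hi => (hm i hi a).compl)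
      (fun i hi η η' hh => not_congr (hdep i hi a η η' hh)) (hdisj a)
    rw [h2]
    calc ∏ i ∈ I, (law μ).real (E i a)ᶜ ≤ ∏ _i ∈ I, ε := Finset.prod_le_prod (fun i _ => measureReal_nonneg) fun i hi => hε i hi a ha
      _ = ε ^ I.card := by rw [Finset.prod_const]
  refine (Finset.sum_le_sum h1).trans ?_
  rw [Finset.sum_const, nsmul_eq_mul]

/-- The scales `2 ^ i` of `[n^(e/2), n^e]`. -/
def Iy (e : ℝ) (n : ℕ) : Finset ℕ := Finset.Icc ⌈e / 2 * Real.logb 2 n⌉₊ ⌊e * Real.logb 2 n⌋₊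

theorem mem_Iy {e : ℝ} (he : 0 < e) {n i : ℕ} (hn : 1 ≤ n) : i ∈ Iy e n ↔ (n : ℝ) ^ (e / 2) ≤ 2 ^ i ∧ (2 : ℝ) ^ i ≤ (n : ℝ) ^ e := by
  have hnR : (0 : ℝ) < n := by exact_mod_cast hn
  have hl : 0 ≤ Real.logb 2 n := Real.logb_nonneg (by norm_num) (by exact_mod_cast hn)
  have h1 : ∀ b : ℝ, (n : ℝ) ^ b = (2 : ℝ) ^ (b * Real.logb 2 n) := by
    intro b
    rw [mul_comm, Real.rpow_mul (by norm_num), Real.rpow_logb (by norm_num) (by norm_num) hnR]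
  have h2 : ((2 : ℝ) ^ i) = (2 : ℝ) ^ (i : ℝ) := (Real.rpow_natCast 2 i).symm
  unfold Iy
  rw [Finset.mem_Icc, h1, h1, h2, Real.rpow_le_rpow_left_iff (by norm_num), Real.rpow_le_rpow_left_iff (by norm_num), Nat.ceil_le,
    Nat.le_floor_iff (by positivity)]

theorem card_Iy {e : ℝ} (he : 0 < e) {n : ℕ} (hn : 1 ≤ n) : e / 2 * Real.logb 2 n - 1 ≤ (Iy e n).card := by
  have hl : 0 ≤ Real.logb 2 n := Real.logb_nonneg (by norm_num) (by exact_mod_cast hn)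
  unfold Iy
  rw [Nat.card_Icc]
  have h1 := Nat.ceil_lt_add_one (show 0 ≤ e / 2 * Real.logb 2 n by positivity)
  have h2 := Nat.lt_floor_add_one (e * Real.logb 2 n)
  have h3 : ((⌊e * Real.logb 2 n⌋₊ + 1 : ℕ) : ℝ) - ⌈e / 2 * Real.logb 2 n⌉₊ ≤ ((⌊e * Real.logb 2 n⌋₊ + 1 - ⌈e / 2 * Real.logb 2 n⌉₊ : ℕ) : ℝ) := by
    have h4 : ⌊e * Real.logb 2 n⌋₊ + 1 ≤ (⌊e * Real.logb 2 n⌋₊ + 1 - ⌈e / 2 * Real.logb 2 n⌉₊) + ⌈e / 2 * Real.logb 2 n⌉₊ := by omega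
    have h5 : ((⌊e * Real.logb 2 n⌋₊ + 1 : ℕ) : ℝ) ≤ ((⌊e * Real.logb 2 n⌋₊ + 1 - ⌈e / 2 * Real.logb 2 n⌉₊ : ℕ) : ℝ) + ⌈e / 2 * Real.logb 2 n⌉₊ := by
      exact_mod_cast h4
    linarith
  push_cast at h3
  linarith

/-- ALL THE SITES, any events of the rows `(a.1 - 2^i, a.1 - 2^(i-1)]`. -/
theorem typ_all {e A A' : ℝ} (he : 0 < e) {M : ℕ} (hM : A + A' + 1 ≤ e / 2 * M) (E : ℕ → Pt → Set Env)
    (hm : ∀ i a, MeasurableSet (E i a)) {i₁ : ℕ}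
    (hdep : ∀ i, i₁ ≤ i → ∀ a, ∀ η η' : Env, (∀ p ∈ rows (a.1 - 2 ^ i) (a.1 - 2 ^ (i - 1)), η p = η' p) → (η ∈ E i a ↔ η' ∈ E i a))
    (hP : ∀ i, i₁ ≤ i → ∀ a, (law μ).real (E i a)ᶜ ≤ (1 / 2 : ℝ) ^ M) :
    ∃ n₁ : ℕ, ∀ n : ℕ, n₁ ≤ n → ∀ F : Finset Pt, (F.card : ℝ) ≤ (n : ℝ) ^ A' →
      (law μ).real {η | ∃ a ∈ F, ∀ i : ℕ, (n : ℝ) ^ (e / 2) ≤ 2 ^ i → (2 : ℝ) ^ i ≤ (n : ℝ) ^ e → η ∉ E i a} ≤ (n : ℝ) ^ (-A) := by
  -- large n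
  have ht : Tendsto (fun n : ℕ => e / 2 * Real.logb 2 n) atTop atTop := by
    refine Tendsto.const_mul_atTop (by positivity) ?_
    have h1 : Tendsto (fun n : ℕ => Real.logb 2 n) atTop atTop := by
      unfold Real.logb
      exact (Real.tendsto_log_atTop.comp tendsto_natCast_atTop_atTop).atTop_div_const (Real.log_pos (by norm_num))
    exact h1
  obtain ⟨n₂, hn₂⟩ := eventually_atTop.1 (ht.eventually_ge_atTop ((i₁ + 1 : ℕ) : ℝ))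
  refine ⟨max (2 ^ M) n₂, fun n hn F hF => ?_⟩
  have hnM : 2 ^ M ≤ n := (le_max_left _ _).trans hn
  have hn1 : 1 ≤ n := Nat.one_le_two_pow.trans hnM
  have hnR : (0 : ℝ) < n := by exact_mod_cast hn1
  have hi := hn₂ n ((le_max_right _ _).trans hn)
  have hI : ∀ i ∈ Iy e n, i₁ + 1 ≤ i := by
    intro i hi'
    unfold Iy at hi'
    rw [Finset.mem_Icc] at hi'
    have h1 : ((i₁ + 1 : ℕ) : ℝ) ≤ i := hi.trans ((Nat.le_ceil _).trans (by exact_mod_cast hi'.1))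
    exact_mod_cast h1
  have h1 := typ_one (μ := μ) (Iy e n) F E (fun i a => rows (a.1 - 2 ^ i) (a.1 - 2 ^ (i - 1))) (fun i _ a => hm i a)
    (fun i hi' a => hdep i (by have := hI i hi'; omega) a)
    (fun a i hi' j hj' hij => by
      have key : ∀ u v : ℕ, u < v → Disjoint (rows (a.1 - 2 ^ u) (a.1 - 2 ^ (u - 1))) (rows (a.1 - 2 ^ v) (a.1 - 2 ^ (v - 1))) := by
        intro u v huv
        rw [Set.disjoint_left]
        rintro p ⟨p1, p2⟩ ⟨p3, p4⟩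
        have h2 : (2 : ℤ) ^ u ≤ 2 ^ (v - 1) := pow_le_pow_right₀ (by norm_num) (by omega)
        omega
      rcases lt_or_gt_of_ne hij with h2 | h2
      · exact key i j h2
      · exact (key j i h2).symm)
    (ε := (1 / 2 : ℝ) ^ M) (fun i hi' a _ => hP i (by have := hI i hi'; omega) a)
  have hsub : {η : Env | ∃ a ∈ F, ∀ i : ℕ, (n : ℝ) ^ (e / 2) ≤ 2 ^ i → (2 : ℝ) ^ i ≤ (n : ℝ) ^ e → η ∉ E i a} ⊆
      {η : Env | ∃ a ∈ F, ∀ i ∈ Iy e n, η ∉ E i a} := by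
    rintro η ⟨a, ha, h⟩
    exact ⟨a, ha, fun i hi' => h i ((mem_Iy he hn1).1 hi').1 ((mem_Iy he hn1).1 hi').2⟩
  refine (measureReal_mono hsub (measure_ne_top _ _)).trans (h1.trans ?_)
  -- numbers
  have hc := card_Iy he hn1
  have h2 : (((1 / 2 : ℝ) ^ M) ^ (Iy e n).card) ≤ 2 ^ M * (n : ℝ) ^ (-(e / 2 * M)) := by
    have e1 : (((1 / 2 : ℝ) ^ M) ^ (Iy e n).card) = (2 : ℝ) ^ (-((M : ℝ) * (Iy e n).card)) := by
      rw [← pow_mul, one_div, inv_pow, ← Real.rpow_natCast, ← Real.rpow_neg (by norm_num)]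
      push_cast
      rfl
    have e2 : (n : ℝ) ^ (-(e / 2 * M)) = (2 : ℝ) ^ (-(e / 2 * M) * Real.logb 2 n) := by
      rw [mul_comm (-(e / 2 * (M : ℝ))), Real.rpow_mul (by norm_num), Real.rpow_logb (by norm_num) (by norm_num) hnR]
    rw [e1, e2, ← Real.rpow_natCast, ← Real.rpow_add (by norm_num)]
    refine Real.rpow_le_rpow_of_exponent_le (by norm_num) ?_
    have h3 : (0 : ℝ) ≤ M := Nat.cast_nonneg M
    have h4 := mul_le_mul_of_nonneg_left hc h3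
    linarith
  have h3 : (2 : ℝ) ^ M ≤ n := by exact_mod_cast hnM
  have h4 : 0 ≤ (n : ℝ) ^ (-(e / 2 * M)) := by positivity
  have h5 : 0 ≤ ((1 / 2 : ℝ) ^ M) ^ (Iy e n).card := by positivity
  calc (F.card : ℝ) * ((1 / 2 : ℝ) ^ M) ^ (Iy e n).card ≤ (n : ℝ) ^ A' * (n * (n : ℝ) ^ (-(e / 2 * M))) :=
        mul_le_mul hF (h2.trans (mul_le_mul_of_nonneg_right h3 h4)) h5 (by positivity)
    _ = (n : ℝ) ^ (A' + (1 + -(e / 2 * M))) := by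
        rw [Real.rpow_add hnR, Real.rpow_add hnR, Real.rpow_one]
    _ ≤ (n : ℝ) ^ (-A) := Real.rpow_le_rpow_of_exponent_le (by exact_mod_cast hn1) (by linarith)

/-- The foot of the annulus behind `a`. -/
def fy16 (μ : Measure ℝ) (s : ℝ) (i : ℕ) (a : Pt) : Pt := (a.1 - 2 ^ i, a.2 - ⌊sl μ s * 2 ^ i⌋)

/-- TYPICAL AT ONE OF THE SCALES: the levels of the rows `(a.1 - 2^i, a.1 - 2^(i-1)]`, all the lateral boxes. -/
theorem ytyp16 (h : In μ s c C n₀) {K θ : ℝ} (hK : 0 < K) (hθ : 0 < θ) (hθ1 : θ ≤ 1) : ∃ P : ℕ, ∀ e A A' : ℝ, 0 < e → 0 ≤ A → 0 ≤ A' →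
    ∃ q : ℝ, 0 ≤ q ∧ ∃ n₁ : ℕ, ∀ n : ℕ, n₁ ≤ n → ∀ F : Finset Pt, (F.card : ℝ) ≤ (n : ℝ) ^ A' →
      (law μ).real {η | ∃ a ∈ F, ∀ i : ℕ, (n : ℝ) ^ (e / 2) ≤ 2 ^ i → (2 : ℝ) ^ i ≤ (n : ℝ) ^ e →
        η ∉ Far16 μ s c θ K (2 ^ i) (2 ^ (i - 1)) P (fy16 μ s i a) q} ≤ (n : ℝ) ^ (-A) := by
  obtain ⟨P, A₀, a₀, g, hA₀, ha₀, hg, hg1, n₁, hn1, H⟩ := far_prob h hK hθ hθ1
  refine ⟨P, fun e A A' he hA hA' => ?_⟩
  obtain ⟨M, hM⟩ := exists_nat_ge ((A + A' + 1) / (e / 2))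
  have hM' : A + A' + 1 ≤ e / 2 * M := by
    rw [div_le_iff₀ (by positivity)] at hM
    linarith
  -- the level
  have ht : Tendsto (fun q : ℝ => A₀ * Real.exp (-(a₀ * q ^ g))) atTop (𝓝 0) := by
    have h1 : Tendsto (fun q : ℝ => a₀ * q ^ g) atTop atTop := (tendsto_rpow_atTop hg).const_mul_atTop ha₀
    have h2 := (Real.tendsto_exp_neg_atTop_nhds_zero.comp h1).const_mul A₀
    rw [mul_zero] at h2
    exact h2
  obtain ⟨q, hq⟩ := ((ht.eventually_le_const (show (0 : ℝ) < (1 / 2) ^ M by positivity)).and (eventually_ge_atTop (0 : ℝ))).exists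
  obtain ⟨i₁, hi₁⟩ : ∃ i₁ : ℕ, n₁ ≤ 2 ^ i₁ := ⟨n₁, Nat.lt_two_pow_self.le⟩
  obtain ⟨n₂, H2⟩ := typ_all (μ := μ) he hM' (fun i a => Far16 μ s c θ K (2 ^ i) (2 ^ (i - 1)) P (fy16 μ s i a) q)
    (fun i a => Far16_meas _ _ _ _ _ _ _) (i₁ := i₁ + 1)
    (fun i hi a η η' hh => by
      refine Far16_rows fun p hp => hh p ?_
      have e1 : a.1 - 2 ^ i + ((2 ^ (i - 1) : ℕ) : ℤ) = a.1 - 2 ^ (i - 1) := by
        push_cast
        have e2 : (2 : ℤ) ^ i = 2 * 2 ^ (i - 1) := by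
          rw [← pow_succ']
          congr 1
          omega
        rw [e2]
        ring
      have h3 : p ∈ rows (a.1 - 2 ^ i) (a.1 - 2 ^ i + ((2 ^ (i - 1) : ℕ) : ℤ)) := hp
      rwa [e1] at h3)
    (fun i hi a => by
      have h1 : n₁ ≤ 2 ^ i := hi₁.trans (Nat.pow_le_pow_right (by norm_num) (by omega))
      exact (H (2 ^ i) h1 (2 ^ (i - 1)) (Nat.pow_le_pow_right (by norm_num) (by omega)) (fy16 μ s i a) q hq.2).trans hq.1)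
  exact ⟨q, hq.2, n₂, H2⟩

end

end Pool.Agent.W_7d29a1_C1.U16
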