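import Pool.Agent.W_7d29a1_C1.CutM67
import Pool.Agent.W_7d29a1_C1.Sig54
import Pool.Agent.W_7d29a1_C1.Chi87

/-!
MP_7d29a1_pr, C1, (Y) BY CORNERS (helper67): the sum of the weights in the frames, split by `chiC` (helper87), the second part with the
future of the contact moved by `sg` (helper54), is at most a constant times `(I + 1) ^ 2` FOR EVERY environment whose neighbouring
futures differ by the factor at most `exp X ≤ 2 ^ I`.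
-/

set_option autoImplicit false

namespace Pool.Agent.W_7d29a1_C1.Cut67

open Finset MeasureTheory
open Pool.Agent.W_7d29a1_F
open Pool.Agent.W_7d29a1_C1.K91 (Box Grp zs wt wt_pos measurable_wt)
open Pool.Agent.W_7d29a1_C1.K91P
open Pool.Agent.W_7d29a1_C1.H60
open Pool.Agent.W_7d29a1_C1.H60.Cx (l)
open Pool.Agent.W_7d29a1_C1.L91 (Nb)
open Pool.Agent.W_7d29a1_C1.H54 (sg)
open Pool.Agent.W_7d29a1_C1.Ch87 (chiC)

noncomputable section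

variable {Γ : Cx}

/-- The sum of the weights in the frames, split and moved. -/
def YS (Γ : Cx) (η : Env) : ℝ :=
  ∑ c ∈ Γ.rows 0 Γ.N, (Γ.ws c η * chiC Γ c η + Γ.ws c (sg c.1 η) * (1 - chiC Γ c (sg c.1 η)))

theorem zt_l (h : Γ.Ok) (η : Env) : Zt (wt η) Γ.p l Γ.N 0 Γ.hi = Γ.ZM η := Cx.ZM_eq h η

theorem zt_r (Γ : Cx) (η : Env) : Zt (wt η) Γ.p Γ.r Γ.N 0 Γ.hi = Γ.ZR η := rfl

theorem sq_ratio {a p P : ℝ} (hp : 0 < p) (hP : p ≤ P) (hP1 : 1 ≤ P) (ha : a = min 1 p) : 2 * p ^ 2 / a ^ 2 ≤ 2 * P ^ 2 := by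
  have ha0 : 0 < a := by rw [ha]; exact lt_min one_pos hp
  rw [div_le_iff₀ (by positivity)]
  rcases le_total 1 p with h | h
  · rw [min_eq_left h] at ha
    rw [ha]
    nlinarith
  · rw [min_eq_right h] at ha
    rw [ha]
    nlinarith [sq_nonneg p, mul_le_mul hP1 hP1 zero_le_one (by linarith : (0 : ℝ) ≤ P)]

theorem sq_ratio' {a p P : ℝ} (hp : 0 < p) (hP : p ≤ P) (hP1 : 1 ≤ P) (ha : a = min 1 (1 / p)) : 2 / a ^ 2 ≤ 2 * P ^ 2 := by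
  have ha0 : 0 < a := by rw [ha]; exact lt_min one_pos (by positivity)
  rw [div_le_iff₀ (by positivity)]
  have h1 : 1 ≤ P * a := by
    rcases le_total 1 (1 / p) with h | h
    · rw [min_eq_left h] at ha
      rw [ha]
      linarith
    · rw [min_eq_right h] at ha
      rw [ha, mul_one_div, le_div_iff₀ hp]
      linarith
  nlinarith [mul_le_mul h1 h1 zero_le_one (by positivity : (0 : ℝ) ≤ P * a)]

section

variable {η : Env} {i : ℕ} {x : ℤ} {X P : ℝ}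

/-- **One contact, the part of the 1-step.** -/
theorem ws_A (h : Γ.Ok) (hX : Nb Γ η i X) (hi : i < Γ.N) (hx : 1 ≤ x) (hx2 : x ≤ 1 + (Γ.N : ℤ)) (hP : Γ.p i ≤ P) (hP1 : 1 ≤ P) :
    Γ.ws (i, x) η * chiC Γ (i, x) η ≤ 2 * P ^ 2 * (wn (wt η) Γ.p l Γ.r Γ.N 0 Γ.hi i x /
      (max (cm (wt η) Γ.p l Γ.N 0 (i + 1) x / Zt (wt η) Γ.p l Γ.N 0 Γ.hi) (Real.exp (-X)) *
        max (cm (wt η) Γ.p Γ.r Γ.N 0 (i + 1) x / Zt (wt η) Γ.p Γ.r Γ.N 0 Γ.hi) (Real.exp (-X)))) := by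
  have hB := Cx.box1 h
  have hk := h.k1
  have hhi : x ≤ Γ.hi := by unfold Cx.hi; omega
  have l0 : ∀ y, y < 0 → l y = 0 := fun y hy => (hB.lo0 y hy).1
  have r0 : ∀ y, y < 0 → Γ.r y = 0 := fun y hy => (hB.lo0 y hy).2
  have l1 : ∀ y, Γ.hi - Γ.N < y → l y = 0 := fun y hy => (hB.hi0 y hy).1
  have r1 : ∀ y, Γ.hi - Γ.N < y → Γ.r y = 0 := fun y hy => (hB.hi0 y hy).2
  have hρ1 : Real.exp (-X) ≤ 1 := Real.exp_le_one_iff.2 (by linarith [hX.X0])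
  have hG : ∀ y ∈ Icc (0 : ℤ) Γ.hi, Real.exp (-X) * GG (wt η) Γ.p Γ.N i y ≤ GG (wt η) Γ.p Γ.N i (y - 1) := by
    intro y hy
    have a := (L91.le_of_log (GG_pos (N := Γ.N) (wt_pos η) Γ.p_pos i (y - 1)) (GG_pos (N := Γ.N) (wt_pos η) Γ.p_pos i y)
      (hX.G y hy)).2
    have := mul_le_mul_of_nonneg_left a (Real.exp_pos (-X)).le
    rw [← mul_assoc, ← Real.exp_add, neg_add_cancel, Real.exp_zero, one_mul] at this
    exact this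
  obtain ⟨c, hc⟩ : ∃ c, c = min 1 (Γ.p i) := ⟨_, rfl⟩
  have c0 : 0 < c := by rw [hc]; exact lt_min one_pos (Γ.p_pos i)
  have c1 : c ≤ 1 := by rw [hc]; exact min_le_left _ _
  have zl : 0 < Zt (wt η) Γ.p l Γ.N 0 Γ.hi := by rw [zt_l h]; exact Γ.ZM_pos η
  have zr' : 0 < Zt (wt η) Γ.p Γ.r Γ.N 0 Γ.hi := Cx.ZR_pos h η
  have dl := dp_nonneg (wt_pos η) Γ.p_pos hB.g i (x - 1) x (by omega)
  have D0 : 0 ≤ dp (wt η) Γ.p l Γ.r i (x - 1) x * (Γ.p i * (wt η i (x - 1) * wt η i x) *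
      bw (wt η) Γ.p (i + 1) (Γ.N - (i + 1)) x ^ 2) := by
    have := wt_pos η i (x - 1)
    have := wt_pos η i x
    have := Γ.p_pos i
    positivity
  have a1 := zs_ge_tail (wt_pos η) Γ.p_pos Cx.l_nonneg l0 hi (hi := Γ.hi) (q := x) (by omega) hhi
  have a2 := zs_ge_rho (wt_pos η) Γ.p_pos Cx.l_nonneg l0 l1 hi hρ1 hG x
  have b1 := zs_ge_tail (wt_pos η) Γ.p_pos (Cx.r_nonneg h) r0 hi (hi := Γ.hi) (q := x) (by omega) hhi
  have b2 := zs_ge_rho (wt_pos η) Γ.p_pos (Cx.r_nonneg h) r0 r1 hi hρ1 hG x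
  rw [← hc] at a1 b1
  have cz : ∀ Z : ℝ, 0 < Z → c * Real.exp (-X) * Z ≤ Real.exp (-X) * Z := fun Z hZ => by
    have := mul_le_mul_of_nonneg_right c1 (mul_pos (Real.exp_pos (-X)) hZ).le
    linarith
  have q1 : Γ.ws (i, x) η * chiC Γ (i, x) η ≤ 2 * Γ.p i ^ 2 * (dp (wt η) Γ.p l Γ.r i (x - 1) x *
      (Γ.p i * (wt η i (x - 1) * wt η i x) * bw (wt η) Γ.p (i + 1) (Γ.N - (i + 1)) x ^ 2)) /
      (zs (Icc 0 Γ.hi) (fw (wt η) Γ.p l i) (wt η i) (GG (wt η) Γ.p Γ.N i) x *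
        zs (Icc 0 Γ.hi) (fw (wt η) Γ.p Γ.r i) (wt η i) (GG (wt η) Γ.p Γ.N i) x) := by
    have f0 : 0 < bw (wt η) Γ.p (i + 1) (Γ.N - (i + 1)) (x - 1) := bw_pos (wt_pos η) Γ.p_pos _ _ _
    have eG : GG (wt η) Γ.p Γ.N i (x - 1) = bw (wt η) Γ.p (i + 1) (Γ.N - (i + 1)) (x - 1) +
        Γ.p i * bw (wt η) Γ.p (i + 1) (Γ.N - (i + 1)) x := by
      unfold GG
      rw [sub_add_cancel]
    have key := Ch87.gg_chi (a := Γ.p i) (f := bw (wt η) Γ.p (i + 1) (Γ.N - (i + 1))) (q := x) f0.ne'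
    rw [← eG] at key
    have z1 : 0 ≤ zs (Icc 0 Γ.hi) (fw (wt η) Γ.p l i) (wt η i) (GG (wt η) Γ.p Γ.N i) x := Cx.zs_nonneg η Cx.l_nonneg i x
    have z2 : 0 ≤ zs (Icc 0 Γ.hi) (fw (wt η) Γ.p Γ.r i) (wt η i) (GG (wt η) Γ.p Γ.N i) x := Cx.zs_nonneg η (Cx.r_nonneg h) i x
    unfold Cx.ws
    show dp (wt η) Γ.p l Γ.r i (x - 1) x * (Γ.p i * (wt η i (x - 1) * wt η i x) * GG (wt η) Γ.p Γ.N i (x - 1) ^ 2) /
      (zs (Icc 0 Γ.hi) (fw (wt η) Γ.p l i) (wt η i) (GG (wt η) Γ.p Γ.N i) x *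
        zs (Icc 0 Γ.hi) (fw (wt η) Γ.p Γ.r i) (wt η i) (GG (wt η) Γ.p Γ.N i) x) *
        Ch87.chi (Γ.p i) (bw (wt η) Γ.p (i + 1) (Γ.N - (i + 1))) x ≤ _
    rw [div_mul_eq_mul_div]
    refine div_le_div_of_nonneg_right ?_ (mul_nonneg z1 z2)
    have w1 := wt_pos η i (x - 1)
    have w2 := wt_pos η i x
    have pc := Γ.p_pos i
    have k1 : 0 ≤ dp (wt η) Γ.p l Γ.r i (x - 1) x * (Γ.p i * (wt η i (x - 1) * wt η i x)) := by positivity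
    have k2 := mul_le_mul_of_nonneg_left key k1
    calc dp (wt η) Γ.p l Γ.r i (x - 1) x * (Γ.p i * (wt η i (x - 1) * wt η i x) * GG (wt η) Γ.p Γ.N i (x - 1) ^ 2) *
          Ch87.chi (Γ.p i) (bw (wt η) Γ.p (i + 1) (Γ.N - (i + 1))) x
        = dp (wt η) Γ.p l Γ.r i (x - 1) x * (Γ.p i * (wt η i (x - 1) * wt η i x)) * (GG (wt η) Γ.p Γ.N i (x - 1) ^ 2 *
          Ch87.chi (Γ.p i) (bw (wt η) Γ.p (i + 1) (Γ.N - (i + 1))) x) := by ring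
      _ ≤ _ := k2
      _ = _ := by ring
  have key := quot67 D0 (by positivity : (0 : ℝ) ≤ 2 * Γ.p i ^ 2) c0 zl zr' (Real.exp_pos (-X)) a1 ((cz _ zl).trans a2) b1
    ((cz _ zr').trans b2) q1
  have r2 := sq_ratio (Γ.p_pos i) hP hP1 hc
  refine key.trans ?_
  show _ ≤ 2 * P ^ 2 * (dp (wt η) Γ.p l Γ.r i (x - 1) x * (Γ.p i * (wt η i (x - 1) * wt η i x) *
    bw (wt η) Γ.p (i + 1) (Γ.N - (i + 1)) x ^ 2) / (Zt (wt η) Γ.p l Γ.N 0 Γ.hi * Zt (wt η) Γ.p Γ.r Γ.N 0 Γ.hi) / _)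
  refine mul_le_mul_of_nonneg_right r2 ?_
  exact div_nonneg (div_nonneg D0 (mul_pos zl zr').le)
    (mul_nonneg (lt_max_of_lt_right (Real.exp_pos _)).le (lt_max_of_lt_right (Real.exp_pos _)).le)

/-- **One contact, the part of the 0-step, future moved.** -/
theorem ws_B (h : Γ.Ok) (hX : Nb Γ η i X) (hi : i < Γ.N) (hx : 1 ≤ x) (hx2 : x ≤ 1 + (Γ.N : ℤ)) (hP : Γ.p i ≤ P) (hP1 : 1 ≤ P) :
    Γ.ws (i, x) (sg i η) * (1 - chiC Γ (i, x) (sg i η)) ≤ 2 * P ^ 2 * (wn (wt η) Γ.p l Γ.r Γ.N 0 Γ.hi i x /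
      (max (rm (wt η) Γ.p l Γ.N Γ.hi (i + 1) x / Zt (wt η) Γ.p l Γ.N 0 Γ.hi) (Real.exp (-X)) *
        max (rm (wt η) Γ.p Γ.r Γ.N Γ.hi (i + 1) x / Zt (wt η) Γ.p Γ.r Γ.N 0 Γ.hi) (Real.exp (-X)))) := by
  have hB := Cx.box1 h
  have hk := h.k1
  have hhi : x ≤ Γ.hi := by unfold Cx.hi; omega
  have l0 : ∀ y, y < 0 → l y = 0 := fun y hy => (hB.lo0 y hy).1
  have r0 : ∀ y, y < 0 → Γ.r y = 0 := fun y hy => (hB.lo0 y hy).2
  have l1 : ∀ y, Γ.hi - Γ.N < y → l y = 0 := fun y hy => (hB.hi0 y hy).1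
  have r1 : ∀ y, Γ.hi - Γ.N < y → Γ.r y = 0 := fun y hy => (hB.hi0 y hy).2
  have hρ1 : Real.exp (-X) ≤ 1 := Real.exp_le_one_iff.2 (by linarith [hX.X0])
  have hG : ∀ y ∈ Icc (0 : ℤ) Γ.hi, Real.exp (-X) * GG (wt η) Γ.p Γ.N i (y - 1) ≤ GG (wt η) Γ.p Γ.N i y := by
    intro y hy
    have a := (L91.le_of_log (GG_pos (N := Γ.N) (wt_pos η) Γ.p_pos i (y - 1)) (GG_pos (N := Γ.N) (wt_pos η) Γ.p_pos i y)
      (hX.G y hy)).1
    have := mul_le_mul_of_nonneg_left a (Real.exp_pos (-X)).le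
    rw [← mul_assoc, ← Real.exp_add, neg_add_cancel, Real.exp_zero, one_mul] at this
    exact this
  obtain ⟨c, hc⟩ : ∃ c, c = min 1 (1 / Γ.p i) := ⟨_, rfl⟩
  have c0 : 0 < c := by
    rw [hc]
    exact lt_min one_pos (one_div_pos.2 (Γ.p_pos i))
  have c1 : c ≤ 1 := by rw [hc]; exact min_le_left _ _
  have zl : 0 < Zt (wt η) Γ.p l Γ.N 0 Γ.hi := by rw [zt_l h]; exact Γ.ZM_pos η
  have zr' : 0 < Zt (wt η) Γ.p Γ.r Γ.N 0 Γ.hi := Cx.ZR_pos h η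
  have dl := dp_nonneg (wt_pos η) Γ.p_pos hB.g i (x - 1) x (by omega)
  have D0 : 0 ≤ dp (wt η) Γ.p l Γ.r i (x - 1) x * (Γ.p i * (wt η i (x - 1) * wt η i x) *
      bw (wt η) Γ.p (i + 1) (Γ.N - (i + 1)) x ^ 2) := by
    have := wt_pos η i (x - 1)
    have := wt_pos η i x
    have := Γ.p_pos i
    positivity
  have a1 := zr_ge_tail (wt_pos η) Γ.p_pos Cx.l_nonneg l1 hi (lo := 0) (q := x) (by omega) hhi
  have a2 := zr_ge_rho (wt_pos η) Γ.p_pos Cx.l_nonneg l0 l1 hi hρ1 hhi hG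
  have b1 := zr_ge_tail (wt_pos η) Γ.p_pos (Cx.r_nonneg h) r1 hi (lo := 0) (q := x) (by omega) hhi
  have b2 := zr_ge_rho (wt_pos η) Γ.p_pos (Cx.r_nonneg h) r0 r1 hi hρ1 hhi hG
  rw [← hc] at a1 b1
  have cz : ∀ Z : ℝ, 0 < Z → c * Real.exp (-X) * Z ≤ Real.exp (-X) * Z := fun Z hZ => by
    have := mul_le_mul_of_nonneg_right c1 (mul_pos (Real.exp_pos (-X)) hZ).le
    linarith
  -- the objects at the moved environment
  have eF : ∀ m : ℤ → ℝ, fw (wt (sg i η)) Γ.p m i = fw (wt η) Γ.p m i := fun m => funext fun y => H54.fw_sg η (by omega) y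
  have eW : wt (sg i η) i = wt η i := funext fun y => H54.wt_sg_le η le_rfl y
  have eG' : GG (wt (sg i η)) Γ.p Γ.N i = fun y => GG (wt η) Γ.p Γ.N i (y + 1) := funext fun y => H54.GG_sg η i y
  have eD : dp (wt (sg i η)) Γ.p l Γ.r i (x - 1) x = dp (wt η) Γ.p l Γ.r i (x - 1) x := by
    unfold dp
    rw [eF, eF]
  have eb : ∀ y : ℤ, bw (wt (sg i η)) Γ.p (i + 1) (Γ.N - (i + 1)) y = bw (wt η) Γ.p (i + 1) (Γ.N - (i + 1)) (y + 1) :=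
    fun y => H54.bw_sg η (by omega) _ y
  have q1 : Γ.ws (i, x) (sg i η) * (1 - chiC Γ (i, x) (sg i η)) ≤ 2 * (dp (wt η) Γ.p l Γ.r i (x - 1) x *
      (Γ.p i * (wt η i (x - 1) * wt η i x) * bw (wt η) Γ.p (i + 1) (Γ.N - (i + 1)) x ^ 2)) /
      (zr (Icc 0 Γ.hi) (fw (wt η) Γ.p l i) (wt η i) (GG (wt η) Γ.p Γ.N i) x *
        zr (Icc 0 Γ.hi) (fw (wt η) Γ.p Γ.r i) (wt η i) (GG (wt η) Γ.p Γ.N i) x) := by
    have f0 : 0 < bw (wt (sg i η)) Γ.p (i + 1) (Γ.N - (i + 1)) (x - 1) := bw_pos (wt_pos _) Γ.p_pos _ _ _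
    have key := Ch87.gg_one_sub_chi (a := Γ.p i) (f := bw (wt (sg i η)) Γ.p (i + 1) (Γ.N - (i + 1))) (q := x) f0.ne'
    have eGx : GG (wt (sg i η)) Γ.p Γ.N i (x - 1) = bw (wt (sg i η)) Γ.p (i + 1) (Γ.N - (i + 1)) (x - 1) +
        Γ.p i * bw (wt (sg i η)) Γ.p (i + 1) (Γ.N - (i + 1)) x := by
      unfold GG
      rw [sub_add_cancel]
    rw [← eGx] at key
    have ex : bw (wt (sg i η)) Γ.p (i + 1) (Γ.N - (i + 1)) (x - 1) = bw (wt η) Γ.p (i + 1) (Γ.N - (i + 1)) x := by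
      rw [eb, sub_add_cancel]
    rw [ex] at key
    have z1 : 0 ≤ zr (Icc 0 Γ.hi) (fw (wt η) Γ.p l i) (wt η i) (GG (wt η) Γ.p Γ.N i) x := by
      refine le_trans ?_ a2
      exact mul_nonneg (Real.exp_pos _).le zl.le
    have z2 : 0 ≤ zr (Icc 0 Γ.hi) (fw (wt η) Γ.p Γ.r i) (wt η i) (GG (wt η) Γ.p Γ.N i) x := by
      refine le_trans ?_ b2
      exact mul_nonneg (Real.exp_pos _).le zr'.le
    have ews : Γ.ws (i, x) (sg i η) = dp (wt η) Γ.p l Γ.r i (x - 1) x * (Γ.p i * (wt η i (x - 1) * wt η i x) *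
        GG (wt (sg i η)) Γ.p Γ.N i (x - 1) ^ 2) /
        (zr (Icc 0 Γ.hi) (fw (wt η) Γ.p l i) (wt η i) (GG (wt η) Γ.p Γ.N i) x *
          zr (Icc 0 Γ.hi) (fw (wt η) Γ.p Γ.r i) (wt η i) (GG (wt η) Γ.p Γ.N i) x) := by
      unfold Cx.ws
      show dp (wt (sg i η)) Γ.p l Γ.r i (x - 1) x * (Γ.p i * (wt (sg i η) i (x - 1) * wt (sg i η) i x) *
        GG (wt (sg i η)) Γ.p Γ.N i (x - 1) ^ 2) /
        (zs (Icc 0 Γ.hi) (fw (wt (sg i η)) Γ.p l i) (wt (sg i η) i) (GG (wt (sg i η)) Γ.p Γ.N i) x *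
          zs (Icc 0 Γ.hi) (fw (wt (sg i η)) Γ.p Γ.r i) (wt (sg i η) i) (GG (wt (sg i η)) Γ.p Γ.N i) x) = _
      rw [eD, eF, eF, eW, ← zs_shift, ← zs_shift, ← eG']
    have echi : chiC Γ (i, x) (sg i η) = Ch87.chi (Γ.p i) (bw (wt (sg i η)) Γ.p (i + 1) (Γ.N - (i + 1))) x := rfl
    rw [ews, echi, div_mul_eq_mul_div]
    refine div_le_div_of_nonneg_right ?_ (mul_nonneg z1 z2)
    have w1 := wt_pos η i (x - 1)
    have w2 := wt_pos η i x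
    have pc := Γ.p_pos i
    have k1 : 0 ≤ dp (wt η) Γ.p l Γ.r i (x - 1) x * (Γ.p i * (wt η i (x - 1) * wt η i x)) := by positivity
    have k2 := mul_le_mul_of_nonneg_left key k1
    calc dp (wt η) Γ.p l Γ.r i (x - 1) x * (Γ.p i * (wt η i (x - 1) * wt η i x) * GG (wt (sg i η)) Γ.p Γ.N i (x - 1) ^ 2) *
          (1 - Ch87.chi (Γ.p i) (bw (wt (sg i η)) Γ.p (i + 1) (Γ.N - (i + 1))) x)
        = dp (wt η) Γ.p l Γ.r i (x - 1) x * (Γ.p i * (wt η i (x - 1) * wt η i x)) * (GG (wt (sg i η)) Γ.p Γ.N i (x - 1) ^ 2 *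
          (1 - Ch87.chi (Γ.p i) (bw (wt (sg i η)) Γ.p (i + 1) (Γ.N - (i + 1))) x)) := by ring
      _ ≤ _ := k2
      _ = _ := by ring
  have key := quot67 D0 (by norm_num : (0 : ℝ) ≤ 2) c0 zl zr' (Real.exp_pos (-X)) a1 ((cz _ zl).trans a2) b1
    ((cz _ zr').trans b2) q1
  have r2 := sq_ratio' (Γ.p_pos i) hP hP1 hc
  refine key.trans ?_
  show _ ≤ 2 * P ^ 2 * (dp (wt η) Γ.p l Γ.r i (x - 1) x * (Γ.p i * (wt η i (x - 1) * wt η i x) *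
    bw (wt η) Γ.p (i + 1) (Γ.N - (i + 1)) x ^ 2) / (Zt (wt η) Γ.p l Γ.N 0 Γ.hi * Zt (wt η) Γ.p Γ.r Γ.N 0 Γ.hi) / _)
  refine mul_le_mul_of_nonneg_right r2 ?_
  exact div_nonneg (div_nonneg D0 (mul_pos zl zr').le)
    (mul_nonneg (lt_max_of_lt_right (Real.exp_pos _)).le (lt_max_of_lt_right (Real.exp_pos _)).le)

end

/-- **THE POINTWISE BOUND.** -/
theorem ys_le (h : Γ.Ok) {η : Env} {X P : ℝ} (hX : ∀ i, i < Γ.N → Nb Γ η i X) (hP : ∀ i, Γ.p i ≤ P) (hP1 : 1 ≤ P) {I : ℕ}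
    (hI : Real.exp X ≤ 2 ^ I) : YS Γ η ≤ 432 * P ^ 2 * ((I : ℝ) + 1) ^ 2 := by
  have hB := Cx.box1 h
  have zl : 0 < Zt (wt η) Γ.p l Γ.N 0 Γ.hi := by rw [zt_l h]; exact Γ.ZM_pos η
  have zr' : 0 < Zt (wt η) Γ.p Γ.r Γ.N 0 Γ.hi := Cx.ZR_pos h η
  have hρ : 1 ≤ 2 ^ I * Real.exp (-X) := by
    have := mul_le_mul_of_nonneg_right hI (Real.exp_pos (-X)).le
    rw [← Real.exp_add, add_neg_cancel, Real.exp_zero] at this
    exact this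
  have hk := h.k1
  have sL := sumL (wt_pos η) Γ.p_pos hB zl zr' (Real.exp_pos (-X)) hρ (a := 1) (b := 1 + (Γ.N : ℤ)) (by norm_num)
    (by unfold Cx.hi; omega)
  have sR := sumR (wt_pos η) Γ.p_pos hB zl zr' (Real.exp_pos (-X)) hρ (a := 1) (b := 1 + (Γ.N : ℤ)) (by norm_num)
  have hP2 : 0 ≤ 2 * P ^ 2 := by positivity
  have e : ∀ f : ℕ × ℤ → ℝ, ∑ c ∈ Γ.rows 0 Γ.N, f c = ∑ k ∈ range Γ.N, ∑ q ∈ Icc (1 : ℤ) (1 + (Γ.N : ℤ)), f (k, q) := by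
    intro f
    unfold Cx.rows
    rw [sum_product, range_eq_Ico]
  have h1 : ∑ c ∈ Γ.rows 0 Γ.N, Γ.ws c η * chiC Γ c η ≤ 2 * P ^ 2 * (108 * ((I : ℝ) + 1) ^ 2) := by
    refine le_trans ?_ (mul_le_mul_of_nonneg_left sL hP2)
    rw [e, mul_sum]
    refine sum_le_sum fun k hk => ?_
    rw [mul_sum]
    refine sum_le_sum fun q hq => ?_
    rw [mem_Icc] at hq
    have hkN := mem_range.1 hk
    exact ws_A h (hX k hkN) hkN hq.1 hq.2 (hP k) hP1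
  have h2 : ∑ c ∈ Γ.rows 0 Γ.N, Γ.ws c (sg c.1 η) * (1 - chiC Γ c (sg c.1 η)) ≤ 2 * P ^ 2 * (108 * ((I : ℝ) + 1) ^ 2) := by
    refine le_trans ?_ (mul_le_mul_of_nonneg_left sR hP2)
    rw [e, mul_sum]
    refine sum_le_sum fun k hk => ?_
    rw [mul_sum]
    refine sum_le_sum fun q hq => ?_
    rw [mem_Icc] at hq
    have hkN := mem_range.1 hk
    exact ws_B h (hX k hkN) hkN hq.1 hq.2 (hP k) hP1
  unfold YS
  rw [sum_add_distrib]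
  linarith

end

end Pool.Agent.W_7d29a1_C1.Cut67
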